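import Pool.Agent.Helper6.MONO.Cert.C27

/-!
Certificate data (generated).
-/

set_option autoImplicit false
set_option linter.all false
noncomputable section
namespace Pool.Agent.Helper6.MONO


namespace Q246_2
def sI : I := I.pos (nat_lit 150274048) (nat_lit 209387520)
def b0_0 : Bx := Bx.mk (St.mk (I.pos (nat_lit 158482432) (nat_lit 234520576)) (I.mix (nat_lit 1785856) (nat_lit 58851328)) (I.mix (nat_lit 2146304) (nat_lit 73809920)) (I.pos (nat_lit 141213696) (nat_lit 273219584)) (I.mix (nat_lit 100237312) (nat_lit 54738944)) (I.mix (nat_lit 61734912) (nat_lit 51167232)) (I.mix (nat_lit 85180416) (nat_lit 76447744)))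
  false (nat_lit 28046981)
def b0_1 : Bx := Bx.mk (St.mk (I.mix (nat_lit 21774336) (nat_lit 118538240)) (I.mix (nat_lit 2637824) (nat_lit 34308096)) (I.mix (nat_lit 19988480) (nat_lit 10960896)) (I.pos (nat_lit 39829504) (nat_lit 114688000)) (I.mix (nat_lit 34897920) (nat_lit 36880384)) (I.mix (nat_lit 29786112) (nat_lit 24117248)) (I.mix (nat_lit 22134784) (nat_lit 14172160)))
  false (nat_lit 0)
def b0_2 : Bx := Bx.mk (St.mk (I.pos (nat_lit 95322112) (nat_lit 134430720)) (I.mix (nat_lit 50888704) (nat_lit 3424256)) (I.neg (nat_lit 8142848) (nat_lit 60391424)) (I.pos (nat_lit 78807040) (nat_lit 126926848)) (I.mix (nat_lit 85147648) (nat_lit 24363008)) (I.mix (nat_lit 32833536) (nat_lit 66306048)) (I.mix (nat_lit 20807680) (nat_lit 52740096)))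
  false (nat_lit 0)
def b0_3 : Bx := Bx.mk (St.mk (I.mix (nat_lit 35160064) (nat_lit 67354624)) (I.mix (nat_lit 29278208) (nat_lit 2048000)) (I.neg (nat_lit 1687552) (nat_lit 23232512)) (I.pos (nat_lit 41205760) (nat_lit 80576512)) (I.mix (nat_lit 33619968) (nat_lit 15089664)) (I.mix (nat_lit 14614528) (nat_lit 26574848)) (I.mix (nat_lit 7749632) (nat_lit 11452416)))
  false (nat_lit 0)
def b0_4 : Bx := Bx.mk (St.mk (I.pos (nat_lit 202129408) (nat_lit 269238272)) (I.mix (nat_lit 5898240) (nat_lit 35766272)) (I.mix (nat_lit 62816256) (nat_lit 20807680)) (I.pos (nat_lit 225067008) (nat_lit 343834624)) (I.mix (nat_lit 71352320) (nat_lit 48562176)) (I.mix (nat_lit 48791552) (nat_lit 41992192)) (I.mix (nat_lit 70057984) (nat_lit 72925184)))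
  false (nat_lit 0)
def b0_5 : Bx := Bx.mk (St.mk (I.mix (nat_lit 36634624) (nat_lit 51150848)) (I.mix (nat_lit 1441792) (nat_lit 7618560)) (I.neg (nat_lit 4276224) (nat_lit 12812288)) (I.pos (nat_lit 43270144) (nat_lit 73039872)) (I.mix (nat_lit 4833280) (nat_lit 9289728)) (I.mix (nat_lit 4816896) (nat_lit 4161536)) (I.mix (nat_lit 1785856) (nat_lit 2179072)))
  false (nat_lit 0)
def b0_6 : Bx := Bx.mk (St.mk (I.pos (nat_lit 99860480) (nat_lit 170393600)) (I.neg (nat_lit 5423104) (nat_lit 51593216)) (I.neg (nat_lit 11829248) (nat_lit 59752448)) (I.pos (nat_lit 91471872) (nat_lit 173129728)) (I.mix (nat_lit 78217216) (nat_lit 38486016)) (I.mix (nat_lit 41500672) (nat_lit 53592064)) (I.mix (nat_lit 32358400) (nat_lit 50692096)))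
  false (nat_lit 0)
def b0_7 : Bx := Bx.mk (St.mk (I.mix (nat_lit 32473088) (nat_lit 82837504)) (I.mix (nat_lit 32620544) (nat_lit 6340608)) (I.neg (nat_lit 1671168) (nat_lit 27967488)) (I.pos (nat_lit 37470208) (nat_lit 89096192)) (I.mix (nat_lit 45219840) (nat_lit 37847040)) (I.mix (nat_lit 31014912) (nat_lit 37666816)) (I.mix (nat_lit 17645568) (nat_lit 21987328)))
  false (nat_lit 0)
def b0_8 : Bx := Bx.mk (St.mk (I.pos (nat_lit 167133184) (nat_lit 217858048)) (I.mix (nat_lit 7880704) (nat_lit 58097664)) (I.mix (nat_lit 7733248) (nat_lit 71680000)) (I.pos (nat_lit 162136064) (nat_lit 245235712)) (I.mix (nat_lit 122224640) (nat_lit 47906816)) (I.mix (nat_lit 118374400) (nat_lit 70795264)) (I.mix (nat_lit 121995264) (nat_lit 73695232)))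
  false (nat_lit 1260596)
def b0_9 : Bx := Bx.mk (St.mk (I.mix (nat_lit 35815424) (nat_lit 110280704)) (I.mix (nat_lit 12353536) (nat_lit 34766848)) (I.mix (nat_lit 17104896) (nat_lit 13975552)) (I.pos (nat_lit 39731200) (nat_lit 108118016)) (I.mix (nat_lit 52641792) (nat_lit 33570816)) (I.mix (nat_lit 45727744) (nat_lit 35553280)) (I.mix (nat_lit 23281664) (nat_lit 19890176)))
  false (nat_lit 0)
def b0_10 : Bx := Bx.mk (St.mk (I.pos (nat_lit 96223232) (nat_lit 114294784)) (I.mix (nat_lit 1966080) (nat_lit 8388608)) (I.neg (nat_lit 5521408) (nat_lit 19415040)) (I.pos (nat_lit 79773696) (nat_lit 112951296)) (I.mix (nat_lit 7438336) (nat_lit 10797056)) (I.mix (nat_lit 6324224) (nat_lit 4571136)) (I.mix (nat_lit 5193728) (nat_lit 4063232)))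
  false (nat_lit 0)
def b0_11 : Bx := Bx.mk (St.mk (I.pos (nat_lit 190316544) (nat_lit 238026752)) (I.pos (nat_lit 10354688) (nat_lit 56721408)) (I.mix (nat_lit 4882432) (nat_lit 67305472)) (I.pos (nat_lit 216662016) (nat_lit 273842176)) (I.mix (nat_lit 83083264) (nat_lit 60473344)) (I.mix (nat_lit 67256320) (nat_lit 46448640)) (I.mix (nat_lit 105054208) (nat_lit 63029248)))
  false (nat_lit 15294646)
def b0_12 : Bx := Bx.mk (St.mk (I.pos (nat_lit 143933440) (nat_lit 207126528)) (I.mix (nat_lit 37175296) (nat_lit 16777216)) (I.mix (nat_lit 51953664) (nat_lit 16760832)) (I.pos (nat_lit 129122304) (nat_lit 222511104)) (I.mix (nat_lit 59932672) (nat_lit 44417024)) (I.mix (nat_lit 51691520) (nat_lit 45547520)) (I.mix (nat_lit 53280768) (nat_lit 45989888)))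
  false (nat_lit 0)
def b0_13 : Bx := Bx.mk (St.mk (I.pos (nat_lit 173096960) (nat_lit 208125952)) (I.mix (nat_lit 10633216) (nat_lit 30507008)) (I.mix (nat_lit 15056896) (nat_lit 38010880)) (I.pos (nat_lit 167952384) (nat_lit 222904320)) (I.mix (nat_lit 81526784) (nat_lit 51019776)) (I.mix (nat_lit 99647488) (nat_lit 48627712)) (I.mix (nat_lit 105414656) (nat_lit 46776320)))
  false (nat_lit 0)
def t0 : BTr := (BTr.n (BTr.n (BTr.n (BTr.b b0_0) (BTr.n (BTr.b b0_1) (BTr.b b0_2))) (BTr.n (BTr.n (BTr.b b0_3) (BTr.b b0_4)) (BTr.n (BTr.b b0_5) (BTr.b b0_6)))) (BTr.n (BTr.n (BTr.b b0_7) (BTr.n (BTr.b b0_8) (BTr.b b0_9))) (BTr.n (BTr.n (BTr.b b0_10) (BTr.b b0_11)) (BTr.n (BTr.b b0_12) (BTr.b b0_13)))))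
namespace T0
def l0 : Tr := Tr.L (Pth.l (Pth.l (Pth.l Pth.z)))
def l1 : Tr := Tr.L (Pth.l (Pth.l (Pth.r (Pth.l Pth.z))))
def l2 : Tr := Tr.L (Pth.l (Pth.l (Pth.r (Pth.r Pth.z))))
def l3 : Tr := Tr.L (Pth.l (Pth.r (Pth.l (Pth.l Pth.z))))
def l4 : Tr := Tr.L (Pth.l (Pth.r (Pth.l (Pth.r Pth.z))))
def l5 : Tr := Tr.L (Pth.l (Pth.r (Pth.r (Pth.l Pth.z))))
def l6 : Tr := Tr.L (Pth.l (Pth.r (Pth.r (Pth.r Pth.z))))
def l7 : Tr := Tr.L (Pth.r (Pth.l (Pth.l Pth.z)))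
def l8 : Tr := Tr.L (Pth.r (Pth.l (Pth.r (Pth.l Pth.z))))
def l9 : Tr := Tr.L (Pth.r (Pth.l (Pth.r (Pth.r Pth.z))))
def l10 : Tr := Tr.L (Pth.r (Pth.r (Pth.l (Pth.l Pth.z))))
def l11 : Tr := Tr.L (Pth.r (Pth.r (Pth.l (Pth.r Pth.z))))
def l12 : Tr := Tr.L (Pth.r (Pth.r (Pth.r (Pth.l Pth.z))))
def l13 : Tr := Tr.L (Pth.r (Pth.r (Pth.r (Pth.r Pth.z))))
end T0
def b1_0 : Bx := Bx.mk (St.mk (I.pos (nat_lit 158384128) (nat_lit 239386624)) (I.mix (nat_lit 1540096) (nat_lit 51445760)) (I.mix (nat_lit 2326528) (nat_lit 82280448)) (I.pos (nat_lit 93798400) (nat_lit 229163008)) (I.mix (nat_lit 101908480) (nat_lit 57966592)) (I.mix (nat_lit 70189056) (nat_lit 60833792)) (I.mix (nat_lit 103989248) (nat_lit 79724544)))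
  false (nat_lit 31167883)
def b1_1 : Bx := Bx.mk (St.mk (I.mix (nat_lit 9109504) (nat_lit 140509184)) (I.mix (nat_lit 2293760) (nat_lit 24788992)) (I.mix (nat_lit 9322496) (nat_lit 18268160)) (I.mix (nat_lit 3145728) (nat_lit 89178112)) (I.mix (nat_lit 29736960) (nat_lit 28721152)) (I.mix (nat_lit 23511040) (nat_lit 20135936)) (I.mix (nat_lit 19300352) (nat_lit 15876096)))
  false (nat_lit 0)
def b1_2 : Bx := Bx.mk (St.mk (I.pos (nat_lit 118358016) (nat_lit 154681344)) (I.mix (nat_lit 42549248) (nat_lit 3194880)) (I.neg (nat_lit 671744) (nat_lit 49168384)) (I.pos (nat_lit 53968896) (nat_lit 101875712)) (I.mix (nat_lit 77824000) (nat_lit 23183360)) (I.mix (nat_lit 28917760) (nat_lit 66928640)) (I.mix (nat_lit 22626304) (nat_lit 61292544)))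
  false (nat_lit 0)
def b1_3 : Bx := Bx.mk (St.mk (I.mix (nat_lit 12107776) (nat_lit 105611264)) (I.mix (nat_lit 23019520) (nat_lit 1196032)) (I.mix (nat_lit 19841024) (nat_lit 1114112)) (I.mix (nat_lit 2228224) (nat_lit 57475072)) (I.mix (nat_lit 33947648) (nat_lit 12533760)) (I.mix (nat_lit 13615104) (nat_lit 25165824)) (I.mix (nat_lit 7766016) (nat_lit 15843328)))
  false (nat_lit 0)
def b1_4 : Bx := Bx.mk (St.mk (I.pos (nat_lit 202440704) (nat_lit 268140544)) (I.mix (nat_lit 6930432) (nat_lit 32063488)) (I.mix (nat_lit 33521664) (nat_lit 42401792)) (I.pos (nat_lit 180928512) (nat_lit 295632896)) (I.mix (nat_lit 70483968) (nat_lit 41959424)) (I.mix (nat_lit 49381376) (nat_lit 38010880)) (I.mix (nat_lit 77348864) (nat_lit 64733184)))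
  false (nat_lit 17447844)
def b1_5 : Bx := Bx.mk (St.mk (I.pos (nat_lit 119816192) (nat_lit 136380416)) (I.mix (nat_lit 1785856) (nat_lit 6717440)) (I.mix (nat_lit 8814592) (nat_lit 1490944)) (I.pos (nat_lit 54837248) (nat_lit 87195648)) (I.mix (nat_lit 7159808) (nat_lit 9060352)) (I.mix (nat_lit 5783552) (nat_lit 3784704)) (I.mix (nat_lit 5455872) (nat_lit 3129344)))
  false (nat_lit 0)
def b1_6 : Bx := Bx.mk (St.mk (I.mix (nat_lit 10780672) (nat_lit 42958848)) (I.mix (nat_lit 606208) (nat_lit 1949696)) (I.mix (nat_lit 2555904) (nat_lit 622592)) (I.mix (nat_lit 1261568) (nat_lit 24182784)) (I.mix (nat_lit 835584) (nat_lit 1933312)) (I.mix (nat_lit 868352) (nat_lit 770048)) (I.mix (nat_lit 671744) (nat_lit 622592)))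
  false (nat_lit 0)
def b1_7 : Bx := Bx.mk (St.mk (I.pos (nat_lit 117342208) (nat_lit 185581568)) (I.neg (nat_lit 3014656) (nat_lit 46219264)) (I.neg (nat_lit 6864896) (nat_lit 50249728)) (I.pos (nat_lit 68616192) (nat_lit 146915328)) (I.mix (nat_lit 70107136) (nat_lit 37289984)) (I.mix (nat_lit 40615936) (nat_lit 50003968)) (I.mix (nat_lit 37273600) (nat_lit 52117504)))
  false (nat_lit 28124513)
def b1_8 : Bx := Bx.mk (St.mk (I.mix (nat_lit 12746752) (nat_lit 117506048)) (I.mix (nat_lit 26247168) (nat_lit 6684672)) (I.mix (nat_lit 22315008) (nat_lit 1097728)) (I.mix (nat_lit 2506752) (nat_lit 67256320)) (I.mix (nat_lit 37027840) (nat_lit 28639232)) (I.mix (nat_lit 24231936) (nat_lit 27820032)) (I.mix (nat_lit 14499840) (nat_lit 19382272)))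
  false (nat_lit 0)
def b1_9 : Bx := Bx.mk (St.mk (I.pos (nat_lit 174768128) (nat_lit 216956928)) (I.mix (nat_lit 13123584) (nat_lit 46202880)) (I.mix (nat_lit 5668864) (nat_lit 72433664)) (I.pos (nat_lit 122585088) (nat_lit 195018752)) (I.mix (nat_lit 118669312) (nat_lit 51331072)) (I.mix (nat_lit 115064832) (nat_lit 66650112)) (I.mix (nat_lit 133382144) (nat_lit 73646080)))
  false (nat_lit 0)
def b1_10 : Bx := Bx.mk (St.mk (I.mix (nat_lit 14680064) (nat_lit 134299648)) (I.mix (nat_lit 13713408) (nat_lit 28475392)) (I.mix (nat_lit 13975552) (nat_lit 21217280)) (I.mix (nat_lit 2965504) (nat_lit 82690048)) (I.mix (nat_lit 53297152) (nat_lit 28360704)) (I.mix (nat_lit 46776320) (nat_lit 31539200)) (I.mix (nat_lit 32096256) (nat_lit 21839872)))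
  false (nat_lit 0)
def b1_11 : Bx := Bx.mk (St.mk (I.pos (nat_lit 153059328) (nat_lit 210092032)) (I.mix (nat_lit 36274176) (nat_lit 9437184)) (I.mix (nat_lit 43794432) (nat_lit 17989632)) (I.pos (nat_lit 96960512) (nat_lit 180551680)) (I.mix (nat_lit 56000512) (nat_lit 40779776)) (I.mix (nat_lit 50921472) (nat_lit 43925504)) (I.mix (nat_lit 56688640) (nat_lit 46776320)))
  false (nat_lit 33323057)
def b1_12 : Bx := Bx.mk (St.mk (I.pos (nat_lit 175341568) (nat_lit 213188608)) (I.mix (nat_lit 15433728) (nat_lit 24936448)) (I.mix (nat_lit 10371072) (nat_lit 41746432)) (I.pos (nat_lit 129794048) (nat_lit 182763520)) (I.mix (nat_lit 84819968) (nat_lit 41975808)) (I.mix (nat_lit 85835776) (nat_lit 44924928)) (I.mix (nat_lit 99729408) (nat_lit 49496064)))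
  false (nat_lit 0)
def b1_13 : Bx := Bx.mk (St.mk (I.pos (nat_lit 190922752) (nat_lit 241270784)) (I.pos (nat_lit 6029312) (nat_lit 51396608)) (I.pos (nat_lit 6619136) (nat_lit 80150528)) (I.pos (nat_lit 172638208) (nat_lit 228343808)) (I.mix (nat_lit 87343104) (nat_lit 63275008)) (I.mix (nat_lit 74629120) (nat_lit 54132736)) (I.mix (nat_lit 117374976) (nat_lit 64258048)))
  false (nat_lit 34703194)
def t1 : BTr := (BTr.n (BTr.n (BTr.n (BTr.b b1_0) (BTr.n (BTr.b b1_1) (BTr.b b1_2))) (BTr.n (BTr.n (BTr.b b1_3) (BTr.b b1_4)) (BTr.n (BTr.b b1_5) (BTr.b b1_6)))) (BTr.n (BTr.n (BTr.b b1_7) (BTr.n (BTr.b b1_8) (BTr.b b1_9))) (BTr.n (BTr.n (BTr.b b1_10) (BTr.b b1_11)) (BTr.n (BTr.b b1_12) (BTr.b b1_13)))))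
namespace T1
def l0 : Tr := Tr.L (Pth.l (Pth.l (Pth.l Pth.z)))
def l1 : Tr := Tr.L (Pth.l (Pth.l (Pth.r (Pth.l Pth.z))))
def l2 : Tr := Tr.L (Pth.l (Pth.l (Pth.r (Pth.r Pth.z))))
def l3 : Tr := Tr.L (Pth.l (Pth.r (Pth.l (Pth.l Pth.z))))
def l4 : Tr := Tr.L (Pth.l (Pth.r (Pth.l (Pth.r Pth.z))))
def l5 : Tr := Tr.L (Pth.l (Pth.r (Pth.r (Pth.l Pth.z))))
def l6 : Tr := Tr.L (Pth.l (Pth.r (Pth.r (Pth.r Pth.z))))
def l7 : Tr := Tr.L (Pth.r (Pth.l (Pth.l Pth.z)))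
def l8 : Tr := Tr.L (Pth.r (Pth.l (Pth.r (Pth.l Pth.z))))
def l9 : Tr := Tr.L (Pth.r (Pth.l (Pth.r (Pth.r Pth.z))))
def l10 : Tr := Tr.L (Pth.r (Pth.r (Pth.l (Pth.l Pth.z))))
def l11 : Tr := Tr.L (Pth.r (Pth.r (Pth.l (Pth.r Pth.z))))
def l12 : Tr := Tr.L (Pth.r (Pth.r (Pth.r (Pth.l Pth.z))))
def l13 : Tr := Tr.L (Pth.r (Pth.r (Pth.r (Pth.r Pth.z))))
end T1
def b2_0 : Bx := Bx.mk (St.mk (I.pos (nat_lit 155697152) (nat_lit 227393536)) (I.mix (nat_lit 2129920) (nat_lit 70385664)) (I.mix (nat_lit 2572288) (nat_lit 86147072)) (I.pos (nat_lit 237338624) (nat_lit 341147648)) (I.mix (nat_lit 106381312) (nat_lit 66207744)) (I.mix (nat_lit 60964864) (nat_lit 55525376)) (I.mix (nat_lit 84983808) (nat_lit 77053952)))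
  false (nat_lit 66832920)
def b2_1 : Bx := Bx.mk (St.mk (I.pos (nat_lit 24477696) (nat_lit 74072064)) (I.mix (nat_lit 10108928) (nat_lit 43614208)) (I.mix (nat_lit 30146560) (nat_lit 131072)) (I.pos (nat_lit 144048128) (nat_lit 162988032)) (I.mix (nat_lit 28606464) (nat_lit 48726016)) (I.mix (nat_lit 39993344) (nat_lit 24576000)) (I.mix (nat_lit 21757952) (nat_lit 10878976)))
  false (nat_lit 0)
def b2_2 : Bx := Bx.mk (St.mk (I.pos (nat_lit 49889280) (nat_lit 98418688)) (I.mix (nat_lit 60489728) (nat_lit 10551296)) (I.neg (nat_lit 14696448) (nat_lit 59588608)) (I.pos (nat_lit 148144128) (nat_lit 181190656)) (I.mix (nat_lit 82657280) (nat_lit 27443200)) (I.mix (nat_lit 28295168) (nat_lit 70713344)) (I.mix (nat_lit 21397504) (nat_lit 42827776)))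
  false (nat_lit 0)
def b2_3 : Bx := Bx.mk (St.mk (I.neg (nat_lit 24461312) (nat_lit 74072064)) (I.mix (nat_lit 43614208) (nat_lit 10518528)) (I.mix (nat_lit 30326784) (nat_lit 147456)) (I.pos (nat_lit 144048128) (nat_lit 162988032)) (I.mix (nat_lit 48726016) (nat_lit 28606464)) (I.mix (nat_lit 24576000) (nat_lit 39993344)) (I.mix (nat_lit 21757952) (nat_lit 10878976)))
  true (nat_lit 0)
def b2_4 : Bx := Bx.mk (St.mk (I.pos (nat_lit 68239360) (nat_lit 148242432)) (I.neg (nat_lit 10125312) (nat_lit 64897024)) (I.neg (nat_lit 7749632) (nat_lit 64126976)) (I.pos (nat_lit 161185792) (nat_lit 226181120)) (I.mix (nat_lit 78692352) (nat_lit 44302336)) (I.mix (nat_lit 36782080) (nat_lit 59719680)) (I.mix (nat_lit 32866304) (nat_lit 52101120)))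
  false (nat_lit 0)
def b2_5 : Bx := Bx.mk (St.mk (I.mix (nat_lit 39059456) (nat_lit 5160960)) (I.mix (nat_lit 39993344) (nat_lit 6160384)) (I.neg (nat_lit 917504) (nat_lit 10108928)) (I.pos (nat_lit 140656640) (nat_lit 152502272)) (I.mix (nat_lit 29687808) (nat_lit 37142528)) (I.mix (nat_lit 23412736) (nat_lit 36290560)) (I.mix (nat_lit 5488640) (nat_lit 5849088)))
  true (nat_lit 0)
def b2_6 : Bx := Bx.mk (St.mk (I.pos (nat_lit 151142400) (nat_lit 200785920)) (I.pos (nat_lit 3145728) (nat_lit 63750144)) (I.pos (nat_lit 7569408) (nat_lit 82247680)) (I.pos (nat_lit 236699648) (nat_lit 300957696)) (I.mix (nat_lit 120471552) (nat_lit 37699584)) (I.mix (nat_lit 106348544) (nat_lit 56262656)) (I.mix (nat_lit 102219776) (nat_lit 60899328)))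
  false (nat_lit 43627502)
def b2_7 : Bx := Bx.mk (St.mk (I.mix (nat_lit 5160960) (nat_lit 39059456)) (I.mix (nat_lit 6160384) (nat_lit 39993344)) (I.neg (nat_lit 917504) (nat_lit 10108928)) (I.pos (nat_lit 140656640) (nat_lit 152502272)) (I.mix (nat_lit 37142528) (nat_lit 29687808)) (I.mix (nat_lit 36290560) (nat_lit 23412736)) (I.mix (nat_lit 5488640) (nat_lit 5849088)))
  false (nat_lit 0)
def b2_8 : Bx := Bx.mk (St.mk (I.pos (nat_lit 188497920) (nat_lit 287506432)) (I.mix (nat_lit 28344320) (nat_lit 50216960)) (I.mix (nat_lit 120061952) (nat_lit 40697856)) (I.pos (nat_lit 297091072) (nat_lit 451133440)) (I.mix (nat_lit 77545472) (nat_lit 64094208)) (I.mix (nat_lit 65437696) (nat_lit 54280192)) (I.mix (nat_lit 117391360) (nat_lit 104857600)))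
  false (nat_lit 68791166)
def b2_9 : Bx := Bx.mk (St.mk (I.pos (nat_lit 127696896) (nat_lit 191758336)) (I.mix (nat_lit 35241984) (nat_lit 24051712)) (I.mix (nat_lit 37371904) (nat_lit 32391168)) (I.pos (nat_lit 205160448) (nat_lit 279494656)) (I.mix (nat_lit 52428800) (nat_lit 48087040)) (I.mix (nat_lit 49774592) (nat_lit 45056000)) (I.mix (nat_lit 48955392) (nat_lit 42467328)))
  false (nat_lit 0)
def b2_10 : Bx := Bx.mk (St.mk (I.pos (nat_lit 153141248) (nat_lit 192135168)) (I.mix (nat_lit 3555328) (nat_lit 44679168)) (I.mix (nat_lit 3162112) (nat_lit 60293120)) (I.pos (nat_lit 240795648) (nat_lit 284344320)) (I.mix (nat_lit 113508352) (nat_lit 59834368)) (I.mix (nat_lit 115965952) (nat_lit 58130432)) (I.mix (nat_lit 113524736) (nat_lit 57835520)))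
  false (nat_lit 30179637)
def b2_11 : Bx := Bx.mk (St.mk (I.pos (nat_lit 173801472) (nat_lit 227360768)) (I.pos (nat_lit 17154048) (nat_lit 70696960)) (I.pos (nat_lit 3948544) (nat_lit 84295680)) (I.pos (nat_lit 283377664) (nat_lit 335986688)) (I.mix (nat_lit 100712448) (nat_lit 78168064)) (I.mix (nat_lit 83623936) (nat_lit 60686336)) (I.mix (nat_lit 124338176) (nat_lit 83492864)))
  false (nat_lit 73280692)
def t2 : BTr := (BTr.n (BTr.n (BTr.n (BTr.b b2_0) (BTr.n (BTr.b b2_1) (BTr.b b2_2))) (BTr.n (BTr.b b2_3) (BTr.n (BTr.b b2_4) (BTr.b b2_5)))) (BTr.n (BTr.n (BTr.b b2_6) (BTr.n (BTr.b b2_7) (BTr.b b2_8))) (BTr.n (BTr.b b2_9) (BTr.n (BTr.b b2_10) (BTr.b b2_11)))))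
namespace T2
def l0 : Tr := Tr.L (Pth.l (Pth.l (Pth.l Pth.z)))
def l1 : Tr := Tr.L (Pth.l (Pth.l (Pth.r (Pth.l Pth.z))))
def l2 : Tr := Tr.L (Pth.l (Pth.l (Pth.r (Pth.r Pth.z))))
def l3 : Tr := Tr.L (Pth.l (Pth.r (Pth.l Pth.z)))
def l4 : Tr := Tr.L (Pth.l (Pth.r (Pth.r (Pth.l Pth.z))))
def l5 : Tr := Tr.L (Pth.l (Pth.r (Pth.r (Pth.r Pth.z))))
def l6 : Tr := Tr.L (Pth.r (Pth.l (Pth.l Pth.z)))
def l7 : Tr := Tr.L (Pth.r (Pth.l (Pth.r (Pth.l Pth.z))))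
def l8 : Tr := Tr.L (Pth.r (Pth.l (Pth.r (Pth.r Pth.z))))
def l9 : Tr := Tr.L (Pth.r (Pth.r (Pth.l Pth.z)))
def l10 : Tr := Tr.L (Pth.r (Pth.r (Pth.r (Pth.l Pth.z))))
def l11 : Tr := Tr.L (Pth.r (Pth.r (Pth.r (Pth.r Pth.z))))
end T2
def b3_0 : Bx := Bx.mk (St.mk (I.pos (nat_lit 158384128) (nat_lit 239534080)) (I.mix (nat_lit 1441792) (nat_lit 48463872)) (I.mix (nat_lit 2850816) (nat_lit 101990400)) (I.pos (nat_lit 93159424) (nat_lit 219201536)) (I.mix (nat_lit 118980608) (nat_lit 76775424)) (I.mix (nat_lit 91062272) (nat_lit 83804160)) (I.mix (nat_lit 138313728) (nat_lit 110804992)))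
  false (nat_lit 50039368)
def b3_1 : Bx := Bx.mk (St.mk (I.pos (nat_lit 122486784) (nat_lit 182648832)) (I.neg (nat_lit 5537792) (nat_lit 49119232)) (I.mix (nat_lit 42221568) (nat_lit 245760)) (I.pos (nat_lit 74301440) (nat_lit 139804672)) (I.mix (nat_lit 63619072) (nat_lit 32833536)) (I.mix (nat_lit 32096256) (nat_lit 43089920)) (I.mix (nat_lit 29048832) (nat_lit 45137920)))
  false (nat_lit 44170215)
def b3_2 : Bx := Bx.mk (St.mk (I.mix (nat_lit 12894208) (nat_lit 117260288)) (I.mix (nat_lit 25051136) (nat_lit 3309568)) (I.mix (nat_lit 14614528) (nat_lit 6340608)) (I.mix (nat_lit 2490368) (nat_lit 66519040)) (I.mix (nat_lit 27852800) (nat_lit 22134784)) (I.mix (nat_lit 15941632) (nat_lit 18956288)) (I.mix (nat_lit 10240000) (nat_lit 13352960)))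
  false (nat_lit 0)
def b3_3 : Bx := Bx.mk (St.mk (I.pos (nat_lit 172883968) (nat_lit 213581824)) (I.mix (nat_lit 12664832) (nat_lit 43663360)) (I.pos (nat_lit 9633792) (nat_lit 87736320)) (I.pos (nat_lit 115277824) (nat_lit 185434112)) (I.mix (nat_lit 117522432) (nat_lit 41254912)) (I.mix (nat_lit 108314624) (nat_lit 56508416)) (I.mix (nat_lit 132857856) (nat_lit 52543488)))
  false (nat_lit 53890909)
def b3_4 : Bx := Bx.mk (St.mk (I.mix (nat_lit 13516800) (nat_lit 131514368)) (I.mix (nat_lit 9404416) (nat_lit 29966336)) (I.mix (nat_lit 2277376) (nat_lit 31424512)) (I.mix (nat_lit 2867200) (nat_lit 79396864)) (I.mix (nat_lit 53854208) (nat_lit 23068672)) (I.mix (nat_lit 44171264) (nat_lit 24657920)) (I.mix (nat_lit 32636928) (nat_lit 15056896)))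
  false (nat_lit 0)
def b3_5 : Bx := Bx.mk (St.mk (I.pos (nat_lit 162562048) (nat_lit 210518016)) (I.mix (nat_lit 31817728) (nat_lit 8519680)) (I.mix (nat_lit 17596416) (nat_lit 37388288)) (I.pos (nat_lit 105037824) (nat_lit 176619520)) (I.mix (nat_lit 50429952) (nat_lit 46907392)) (I.mix (nat_lit 41992192) (nat_lit 42631168)) (I.mix (nat_lit 42942464) (nat_lit 46202880)))
  false (nat_lit 30141110)
def b3_6 : Bx := Bx.mk (St.mk (I.pos (nat_lit 159907840) (nat_lit 181977088)) (I.neg (nat_lit 12058624) (nat_lit 35192832)) (I.mix (nat_lit 25133056) (nat_lit 950272)) (I.pos (nat_lit 103235584) (nat_lit 142655488)) (I.mix (nat_lit 27344896) (nat_lit 17285120)) (I.mix (nat_lit 12435456) (nat_lit 17694720)) (I.mix (nat_lit 12877824) (nat_lit 19234816)))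
  false (nat_lit 0)
def b3_7 : Bx := Bx.mk (St.mk (I.mix (nat_lit 14139392) (nat_lit 116686848)) (I.mix (nat_lit 11681792) (nat_lit 901120)) (I.mix (nat_lit 4276224) (nat_lit 5079040)) (I.mix (nat_lit 2260992) (nat_lit 66191360)) (I.mix (nat_lit 5292032) (nat_lit 7454720)) (I.mix (nat_lit 2850816) (nat_lit 3555328)) (I.mix (nat_lit 1687552) (nat_lit 2670592)))
  false (nat_lit 0)
def b3_8 : Bx := Bx.mk (St.mk (I.pos (nat_lit 29638656) (nat_lit 141983744)) (I.mix (nat_lit 7340032) (nat_lit 24739840)) (I.mix (nat_lit 3031040) (nat_lit 29114368)) (I.pos (nat_lit 10764288) (nat_lit 91045888)) (I.mix (nat_lit 44023808) (nat_lit 34324480)) (I.mix (nat_lit 35192832) (nat_lit 30474240)) (I.mix (nat_lit 29392896) (nat_lit 22986752)))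
  false (nat_lit 0)
def b3_9 : Bx := Bx.mk (St.mk (I.pos (nat_lit 116473856) (nat_lit 158171136)) (I.mix (nat_lit 46612480) (nat_lit 8519680)) (I.mix (nat_lit 40108032) (nat_lit 14467072)) (I.pos (nat_lit 53379072) (nat_lit 107937792)) (I.mix (nat_lit 80674816) (nat_lit 32882688)) (I.mix (nat_lit 36962304) (nat_lit 72892416)) (I.mix (nat_lit 32145408) (nat_lit 62259200)))
  false (nat_lit 40890854)
def b3_10 : Bx := Bx.mk (St.mk (I.mix (nat_lit 13352960) (nat_lit 108707840)) (I.mix (nat_lit 23789568) (nat_lit 3866624)) (I.mix (nat_lit 13254656) (nat_lit 6733824)) (I.mix (nat_lit 2277376) (nat_lit 59359232)) (I.mix (nat_lit 34308096) (nat_lit 21659648)) (I.mix (nat_lit 20398080) (nat_lit 28557312)) (I.mix (nat_lit 11829248) (nat_lit 16285696)))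
  false (nat_lit 0)
def b3_11 : Bx := Bx.mk (St.mk (I.pos (nat_lit 192167936) (nat_lit 284311552)) (I.mix (nat_lit 23429120) (nat_lit 35831808)) (I.mix (nat_lit 30457856) (nat_lit 84246528)) (I.pos (nat_lit 166166528) (nat_lit 320995328)) (I.mix (nat_lit 80969728) (nat_lit 56344576)) (I.mix (nat_lit 64094208) (nat_lit 49561600)) (I.mix (nat_lit 102006784) (nat_lit 82821120)))
  false (nat_lit 69731976)
def b3_12 : Bx := Bx.mk (St.mk (I.pos (nat_lit 179617792) (nat_lit 237649920)) (I.pos (nat_lit 8945664) (nat_lit 48758784)) (I.pos (nat_lit 30769152) (nat_lit 103219200)) (I.pos (nat_lit 154583040) (nat_lit 211877888)) (I.mix (nat_lit 95977472) (nat_lit 69369856)) (I.mix (nat_lit 86540288) (nat_lit 63537152)) (I.mix (nat_lit 127860736) (nat_lit 80920576)))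
  false (nat_lit 74799535)
def b3_13 : Bx := Bx.mk (St.mk (I.pos (nat_lit 173490176) (nat_lit 210386944)) (I.mix (nat_lit 18907136) (nat_lit 20955136)) (I.pos (nat_lit 2883584) (nat_lit 56344576)) (I.pos (nat_lit 115867648) (nat_lit 174178304)) (I.mix (nat_lit 91521024) (nat_lit 44974080)) (I.mix (nat_lit 95223808) (nat_lit 42844160)) (I.mix (nat_lit 112197632) (nat_lit 42876928)))
  false (nat_lit 57886887)
def t3 : BTr := (BTr.n (BTr.n (BTr.n (BTr.b b3_0) (BTr.n (BTr.b b3_1) (BTr.b b3_2))) (BTr.n (BTr.n (BTr.b b3_3) (BTr.b b3_4)) (BTr.n (BTr.b b3_5) (BTr.b b3_6)))) (BTr.n (BTr.n (BTr.b b3_7) (BTr.n (BTr.b b3_8) (BTr.b b3_9))) (BTr.n (BTr.n (BTr.b b3_10) (BTr.b b3_11)) (BTr.n (BTr.b b3_12) (BTr.b b3_13)))))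
namespace T3
def l0 : Tr := Tr.L (Pth.l (Pth.l (Pth.l Pth.z)))
def l1 : Tr := Tr.L (Pth.l (Pth.l (Pth.r (Pth.l Pth.z))))
def l2 : Tr := Tr.L (Pth.l (Pth.l (Pth.r (Pth.r Pth.z))))
def l3 : Tr := Tr.L (Pth.l (Pth.r (Pth.l (Pth.l Pth.z))))
def l4 : Tr := Tr.L (Pth.l (Pth.r (Pth.l (Pth.r Pth.z))))
def l5 : Tr := Tr.L (Pth.l (Pth.r (Pth.r (Pth.l Pth.z))))
def l6 : Tr := Tr.L (Pth.l (Pth.r (Pth.r (Pth.r Pth.z))))
def l7 : Tr := Tr.L (Pth.r (Pth.l (Pth.l Pth.z)))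
def l8 : Tr := Tr.L (Pth.r (Pth.l (Pth.r (Pth.l Pth.z))))
def l9 : Tr := Tr.L (Pth.r (Pth.l (Pth.r (Pth.r Pth.z))))
def l10 : Tr := Tr.L (Pth.r (Pth.r (Pth.l (Pth.l Pth.z))))
def l11 : Tr := Tr.L (Pth.r (Pth.r (Pth.l (Pth.r Pth.z))))
def l12 : Tr := Tr.L (Pth.r (Pth.r (Pth.r (Pth.l Pth.z))))
def l13 : Tr := Tr.L (Pth.r (Pth.r (Pth.r (Pth.r Pth.z))))
end T3
def b4_0 : Bx := Bx.mk (St.mk (I.pos (nat_lit 146456576) (nat_lit 224329728)) (I.mix (nat_lit 2031616) (nat_lit 68599808)) (I.mix (nat_lit 3096576) (nat_lit 107266048)) (I.pos (nat_lit 234946560) (nat_lit 329564160)) (I.mix (nat_lit 122404864) (nat_lit 69025792)) (I.mix (nat_lit 78594048) (nat_lit 65585152)) (I.mix (nat_lit 96567296) (nat_lit 85835776)))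
  false (nat_lit 141199388)
def b4_1 : Bx := Bx.mk (St.mk (I.pos (nat_lit 75431936) (nat_lit 154763264)) (I.neg (nat_lit 7618560) (nat_lit 66912256)) (I.mix (nat_lit 51314688) (nat_lit 12697600)) (I.pos (nat_lit 167903232) (nat_lit 231145472)) (I.mix (nat_lit 70713344) (nat_lit 48332800)) (I.mix (nat_lit 37666816) (nat_lit 55656448)) (I.mix (nat_lit 33603584) (nat_lit 47808512)))
  false (nat_lit 0)
def b4_2 : Bx := Bx.mk (St.mk (I.mix (nat_lit 34390016) (nat_lit 8224768)) (I.mix (nat_lit 40189952) (nat_lit 8814592)) (I.pos (nat_lit 1490944) (nat_lit 10534912)) (I.pos (nat_lit 140394496) (nat_lit 151207936)) (I.mix (nat_lit 22855680) (nat_lit 42205184)) (I.mix (nat_lit 19808256) (nat_lit 36159488)) (I.mix (nat_lit 4358144) (nat_lit 5783552)))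
  true (nat_lit 0)
def b4_3 : Bx := Bx.mk (St.mk (I.pos (nat_lit 148127744) (nat_lit 195493888)) (I.pos (nat_lit 2752512) (nat_lit 61915136)) (I.pos (nat_lit 24903680) (nat_lit 99762176)) (I.pos (nat_lit 227573760) (nat_lit 288817152)) (I.mix (nat_lit 121470976) (nat_lit 31211520)) (I.mix (nat_lit 105480192) (nat_lit 49201152)) (I.mix (nat_lit 103022592) (nat_lit 50839552)))
  false (nat_lit 98452019)
def b4_4 : Bx := Bx.mk (St.mk (I.mix (nat_lit 8224768) (nat_lit 34390016)) (I.mix (nat_lit 8814592) (nat_lit 40189952)) (I.pos (nat_lit 1490944) (nat_lit 10534912)) (I.pos (nat_lit 140394496) (nat_lit 151207936)) (I.mix (nat_lit 42205184) (nat_lit 22855680)) (I.mix (nat_lit 36159488) (nat_lit 19808256)) (I.mix (nat_lit 4358144) (nat_lit 5783552)))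
  false (nat_lit 0)
def b4_5 : Bx := Bx.mk (St.mk (I.pos (nat_lit 19546112) (nat_lit 70483968)) (I.mix (nat_lit 6537216) (nat_lit 44236800)) (I.mix (nat_lit 16269312) (nat_lit 11829248)) (I.pos (nat_lit 142901248) (nat_lit 161710080)) (I.mix (nat_lit 34603008) (nat_lit 42352640)) (I.mix (nat_lit 38928384) (nat_lit 28606464)) (I.mix (nat_lit 20692992) (nat_lit 13533184)))
  false (nat_lit 0)
def b4_6 : Bx := Bx.mk (St.mk (I.pos (nat_lit 53362688) (nat_lit 103383040)) (I.mix (nat_lit 62275584) (nat_lit 7028736)) (I.neg (nat_lit 4341760) (nat_lit 47235072)) (I.pos (nat_lit 151289856) (nat_lit 185810944)) (I.mix (nat_lit 78970880) (nat_lit 32407552)) (I.mix (nat_lit 32276480) (nat_lit 66224128)) (I.mix (nat_lit 25591808) (nat_lit 38469632)))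
  false (nat_lit 0)
def b4_7 : Bx := Bx.mk (St.mk (I.neg (nat_lit 19546112) (nat_lit 70500352)) (I.mix (nat_lit 44236800) (nat_lit 6537216)) (I.mix (nat_lit 16269312) (nat_lit 11829248)) (I.pos (nat_lit 142901248) (nat_lit 161710080)) (I.mix (nat_lit 42352640) (nat_lit 34603008)) (I.mix (nat_lit 28606464) (nat_lit 38928384)) (I.mix (nat_lit 20692992) (nat_lit 13533184)))
  true (nat_lit 0)
def b4_8 : Bx := Bx.mk (St.mk (I.pos (nat_lit 125632512) (nat_lit 186875904)) (I.mix (nat_lit 39583744) (nat_lit 18464768)) (I.mix (nat_lit 23527424) (nat_lit 47022080)) (I.pos (nat_lit 203522048) (nat_lit 270024704)) (I.mix (nat_lit 51216384) (nat_lit 48644096)) (I.mix (nat_lit 48955392) (nat_lit 43941888)) (I.mix (nat_lit 47824896) (nat_lit 42844160)))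
  false (nat_lit 0)
def b4_9 : Bx := Bx.mk (St.mk (I.pos (nat_lit 190840832) (nat_lit 284753920)) (I.mix (nat_lit 19611648) (nat_lit 51986432)) (I.mix (nat_lit 67321856) (nat_lit 75448320)) (I.pos (nat_lit 292110336) (nat_lit 438779904)) (I.mix (nat_lit 78643200) (nat_lit 67633152)) (I.mix (nat_lit 62832640) (nat_lit 42549248)) (I.mix (nat_lit 107921408) (nat_lit 67321856)))
  false (nat_lit 132356616)
def b4_10 : Bx := Bx.mk (St.mk (I.pos (nat_lit 167067648) (nat_lit 224624640)) (I.pos (nat_lit 14974976) (nat_lit 65519616)) (I.pos (nat_lit 22511616) (nat_lit 101023744)) (I.pos (nat_lit 270336000) (nat_lit 323829760)) (I.mix (nat_lit 111804416) (nat_lit 81461248)) (I.mix (nat_lit 93667328) (nat_lit 66306048)) (I.mix (nat_lit 132022272) (nat_lit 82182144)))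
  false (nat_lit 89967361)
def b4_11 : Bx := Bx.mk (St.mk (I.pos (nat_lit 147996672) (nat_lit 187629568)) (I.mix (nat_lit 5832704) (nat_lit 44056576)) (I.pos (nat_lit 13828096) (nat_lit 80216064)) (I.pos (nat_lit 228818944) (nat_lit 275103744)) (I.mix (nat_lit 120848384) (nat_lit 55115776)) (I.mix (nat_lit 118046720) (nat_lit 53116928)) (I.mix (nat_lit 118046720) (nat_lit 52527104)))
  false (nat_lit 58795400)
def t4 : BTr := (BTr.n (BTr.n (BTr.n (BTr.b b4_0) (BTr.n (BTr.b b4_1) (BTr.b b4_2))) (BTr.n (BTr.b b4_3) (BTr.n (BTr.b b4_4) (BTr.b b4_5)))) (BTr.n (BTr.n (BTr.b b4_6) (BTr.n (BTr.b b4_7) (BTr.b b4_8))) (BTr.n (BTr.b b4_9) (BTr.n (BTr.b b4_10) (BTr.b b4_11)))))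
namespace T4
def l0 : Tr := Tr.L (Pth.l (Pth.l (Pth.l Pth.z)))
def l1 : Tr := Tr.L (Pth.l (Pth.l (Pth.r (Pth.l Pth.z))))
def l2 : Tr := Tr.L (Pth.l (Pth.l (Pth.r (Pth.r Pth.z))))
def l3 : Tr := Tr.L (Pth.l (Pth.r (Pth.l Pth.z)))
def l4 : Tr := Tr.L (Pth.l (Pth.r (Pth.r (Pth.l Pth.z))))
def l5 : Tr := Tr.L (Pth.l (Pth.r (Pth.r (Pth.r Pth.z))))
def l6 : Tr := Tr.L (Pth.r (Pth.l (Pth.l Pth.z)))
def l7 : Tr := Tr.L (Pth.r (Pth.l (Pth.r (Pth.l Pth.z))))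
def l8 : Tr := Tr.L (Pth.r (Pth.l (Pth.r (Pth.r Pth.z))))
def l9 : Tr := Tr.L (Pth.r (Pth.r (Pth.l Pth.z)))
def l10 : Tr := Tr.L (Pth.r (Pth.r (Pth.r (Pth.l Pth.z))))
def l11 : Tr := Tr.L (Pth.r (Pth.r (Pth.r (Pth.r Pth.z))))
end T4
def b5_0 : Bx := Bx.mk (St.mk (I.pos (nat_lit 146128896) (nat_lit 232800256)) (I.mix (nat_lit 1638400) (nat_lit 54083584)) (I.mix (nat_lit 3194880) (nat_lit 112787456)) (I.pos (nat_lit 138788864) (nat_lit 250839040)) (I.mix (nat_lit 126074880) (nat_lit 81674240)) (I.mix (nat_lit 96862208) (nat_lit 87965696)) (I.mix (nat_lit 128909312) (nat_lit 110166016)))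
  false (nat_lit 64659240)
def b5_1 : Bx := Bx.mk (St.mk (I.pos (nat_lit 107642880) (nat_lit 168198144)) (I.neg (nat_lit 9289728) (nat_lit 57393152)) (I.mix (nat_lit 41861120) (nat_lit 8863744)) (I.pos (nat_lit 104562688) (nat_lit 168869888)) (I.mix (nat_lit 63979520) (nat_lit 36716544)) (I.mix (nat_lit 30867456) (nat_lit 43008000)) (I.mix (nat_lit 28327936) (nat_lit 41091072)))
  false (nat_lit 47572406)
def b5_2 : Bx := Bx.mk (St.mk (I.mix (nat_lit 29163520) (nat_lit 82591744)) (I.mix (nat_lit 34340864) (nat_lit 1277952)) (I.mix (nat_lit 10502144) (nat_lit 11583488)) (I.pos (nat_lit 39092224) (nat_lit 88784896)) (I.mix (nat_lit 31703040) (nat_lit 34193408)) (I.mix (nat_lit 22331392) (nat_lit 27443200)) (I.mix (nat_lit 10289152) (nat_lit 14729216)))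
  false (nat_lit 0)
def b5_3 : Bx := Bx.mk (St.mk (I.pos (nat_lit 160628736) (nat_lit 207847424)) (I.mix (nat_lit 10764288) (nat_lit 50954240)) (I.pos (nat_lit 20316160) (nat_lit 100564992)) (I.pos (nat_lit 140951552) (nat_lit 218644480)) (I.mix (nat_lit 124239872) (nat_lit 43597824)) (I.mix (nat_lit 107954176) (nat_lit 57376768)) (I.mix (nat_lit 121094144) (nat_lit 50806784)))
  false (nat_lit 50422267)
def b5_4 : Bx := Bx.mk (St.mk (I.mix (nat_lit 36765696) (nat_lit 103809024)) (I.mix (nat_lit 8650752) (nat_lit 35389440)) (I.mix (nat_lit 1015808) (nat_lit 34553856)) (I.pos (nat_lit 40615936) (nat_lit 103219200)) (I.mix (nat_lit 55148544) (nat_lit 22462464)) (I.mix (nat_lit 41959424) (nat_lit 27082752)) (I.mix (nat_lit 24330240) (nat_lit 16138240)))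
  false (nat_lit 0)
def b5_5 : Bx := Bx.mk (St.mk (I.pos (nat_lit 152436736) (nat_lit 202358784)) (I.mix (nat_lit 31162368) (nat_lit 9961472)) (I.mix (nat_lit 6488064) (nat_lit 49020928)) (I.pos (nat_lit 134856704) (nat_lit 209174528)) (I.mix (nat_lit 50446336) (nat_lit 52887552)) (I.mix (nat_lit 45842432) (nat_lit 46186496)) (I.mix (nat_lit 43630592) (nat_lit 45285376)))
  false (nat_lit 38990397)
def b5_6 : Bx := Bx.mk (St.mk (I.mix (nat_lit 38305792) (nat_lit 85180416)) (I.mix (nat_lit 15777792) (nat_lit 3801088)) (I.mix (nat_lit 688128) (nat_lit 12926976)) (I.pos (nat_lit 42500096) (nat_lit 89554944)) (I.mix (nat_lit 11485184) (nat_lit 15368192)) (I.mix (nat_lit 9175040) (nat_lit 9584640)) (I.mix (nat_lit 5095424) (nat_lit 4964352)))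
  false (nat_lit 0)
def b5_7 : Bx := Bx.mk (St.mk (I.pos (nat_lit 149241856) (nat_lit 172244992)) (I.neg (nat_lit 14893056) (nat_lit 37584896)) (I.mix (nat_lit 17760256) (nat_lit 9879552)) (I.pos (nat_lit 134463488) (nat_lit 173670400)) (I.mix (nat_lit 25378816) (nat_lit 22609920)) (I.mix (nat_lit 15253504) (nat_lit 16809984)) (I.mix (nat_lit 14090240) (nat_lit 17563648)))
  false (nat_lit 0)
def b5_8 : Bx := Bx.mk (St.mk (I.mix (nat_lit 29933568) (nat_lit 118079488)) (I.mix (nat_lit 6176768) (nat_lit 33357824)) (I.mix (nat_lit 360448) (nat_lit 33751040)) (I.pos (nat_lit 39485440) (nat_lit 114081792)) (I.mix (nat_lit 53788672) (nat_lit 41467904)) (I.mix (nat_lit 40828928) (nat_lit 34684928)) (I.mix (nat_lit 28704768) (nat_lit 24330240)))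
  false (nat_lit 0)
def b5_9 : Bx := Bx.mk (St.mk (I.pos (nat_lit 94781440) (nat_lit 145260544)) (I.mix (nat_lit 55721984) (nat_lit 6979584)) (I.mix (nat_lit 38649856) (nat_lit 13713408)) (I.pos (nat_lit 80969728) (nat_lit 139788288)) (I.mix (nat_lit 75022336) (nat_lit 30326784)) (I.mix (nat_lit 37257216) (nat_lit 65011712)) (I.mix (nat_lit 27099136) (nat_lit 45924352)))
  false (nat_lit 43733421)
def b5_10 : Bx := Bx.mk (St.mk (I.mix (nat_lit 34783232) (nat_lit 75694080)) (I.mix (nat_lit 30556160) (nat_lit 4489216)) (I.mix (nat_lit 7700480) (nat_lit 13434880)) (I.pos (nat_lit 40976384) (nat_lit 82837504)) (I.mix (nat_lit 36503552) (nat_lit 31375360)) (I.mix (nat_lit 24543232) (nat_lit 29523968)) (I.mix (nat_lit 10813440) (nat_lit 11059200)))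
  false (nat_lit 0)
def b5_11 : Bx := Bx.mk (St.mk (I.pos (nat_lit 164364288) (nat_lit 202768384)) (I.mix (nat_lit 16089088) (nat_lit 26722304)) (I.pos (nat_lit 13959168) (nat_lit 71450624)) (I.pos (nat_lit 145571840) (nat_lit 207781888)) (I.mix (nat_lit 88145920) (nat_lit 46235648)) (I.mix (nat_lit 90750976) (nat_lit 42778624)) (I.mix (nat_lit 99614720) (nat_lit 40353792)))
  false (nat_lit 68620029)
def b5_12 : Bx := Bx.mk (St.mk (I.pos (nat_lit 180404224) (nat_lit 282066944)) (I.mix (nat_lit 17137664) (nat_lit 42844160)) (I.mix (nat_lit 14925824) (nat_lit 98828288)) (I.pos (nat_lit 195297280) (nat_lit 357728256)) (I.mix (nat_lit 88883200) (nat_lit 61538304)) (I.mix (nat_lit 70418432) (nat_lit 49954816)) (I.mix (nat_lit 107298816) (nat_lit 69419008)))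
  false (nat_lit 92046488)
def b5_13 : Bx := Bx.mk (St.mk (I.pos (nat_lit 173178880) (nat_lit 228868096)) (I.pos (nat_lit 12910592) (nat_lit 50184192)) (I.pos (nat_lit 41222144) (nat_lit 106594304)) (I.pos (nat_lit 184811520) (nat_lit 242761728)) (I.mix (nat_lit 101597184) (nat_lit 74924032)) (I.mix (nat_lit 94011392) (nat_lit 64241664)) (I.mix (nat_lit 139231232) (nat_lit 78528512)))
  false (nat_lit 79262437)
def t5 : BTr := (BTr.n (BTr.n (BTr.n (BTr.b b5_0) (BTr.n (BTr.b b5_1) (BTr.b b5_2))) (BTr.n (BTr.n (BTr.b b5_3) (BTr.b b5_4)) (BTr.n (BTr.b b5_5) (BTr.b b5_6)))) (BTr.n (BTr.n (BTr.b b5_7) (BTr.n (BTr.b b5_8) (BTr.b b5_9))) (BTr.n (BTr.n (BTr.b b5_10) (BTr.b b5_11)) (BTr.n (BTr.b b5_12) (BTr.b b5_13)))))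
namespace T5
def l0 : Tr := Tr.L (Pth.l (Pth.l (Pth.l Pth.z)))
def l1 : Tr := Tr.L (Pth.l (Pth.l (Pth.r (Pth.l Pth.z))))
def l2 : Tr := Tr.L (Pth.l (Pth.l (Pth.r (Pth.r Pth.z))))
def l3 : Tr := Tr.L (Pth.l (Pth.r (Pth.l (Pth.l Pth.z))))
def l4 : Tr := Tr.L (Pth.l (Pth.r (Pth.l (Pth.r Pth.z))))
def l5 : Tr := Tr.L (Pth.l (Pth.r (Pth.r (Pth.l Pth.z))))
def l6 : Tr := Tr.L (Pth.l (Pth.r (Pth.r (Pth.r Pth.z))))
def l7 : Tr := Tr.L (Pth.r (Pth.l (Pth.l Pth.z)))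
def l8 : Tr := Tr.L (Pth.r (Pth.l (Pth.r (Pth.l Pth.z))))
def l9 : Tr := Tr.L (Pth.r (Pth.l (Pth.r (Pth.r Pth.z))))
def l10 : Tr := Tr.L (Pth.r (Pth.r (Pth.l (Pth.l Pth.z))))
def l11 : Tr := Tr.L (Pth.r (Pth.r (Pth.l (Pth.r Pth.z))))
def l12 : Tr := Tr.L (Pth.r (Pth.r (Pth.r (Pth.l Pth.z))))
def l13 : Tr := Tr.L (Pth.r (Pth.r (Pth.r (Pth.r Pth.z))))
end T5
theorem bx0_0 : BoxOK sI cl5 cl7 cl13 t2 t4 b0_0 :=
  box_mk (TrL.c (I.pos (nat_lit 0) (nat_lit 0)) (xa (xb T2.l11 (xa T2.l0 T2.l0)) (xb T2.l0 (xa T2.l0 T2.l0)))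
  (TrL.c (I.pos (nat_lit 0) (nat_lit 0)) (xa T4.l1 T4.l1)
  (TrL.c (I.pos (nat_lit 0) (nat_lit 0)) T2.l1
  (TrL.c (I.pos (nat_lit 0) (nat_lit 0)) T4.l2
  (TrL.c (I.pos (nat_lit 0) (nat_lit 0)) (xa (xb T4.l3 T4.l3) (xb T4.l3 T4.l3))
  (TrL.c (I.pos (nat_lit 0) (nat_lit 0)) (xa T2.l2 T2.l2)
  (TrL.c (I.pos (nat_lit 0) (nat_lit 0)) T4.l4
  (TrL.c (I.pos (nat_lit 0) (nat_lit 0)) T2.l3
  TrL.n)))))))) (by decide +kernel)
theorem bx0_1 : BoxOK sI cl5 cl7 cl13 t2 t4 b0_1 :=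
  box_mk (TrL.c (I.pos (nat_lit 0) (nat_lit 0)) (xa (xa T2.l8 T2.l8) (xa T2.l8 T2.l8))
  (TrL.c (I.pos (nat_lit 0) (nat_lit 0)) T4.l1
  (TrL.c (I.pos (nat_lit 0) (nat_lit 0)) T2.l1
  (TrL.c (I.pos (nat_lit 0) (nat_lit 0)) T4.l2
  (TrL.c (I.pos (nat_lit 0) (nat_lit 0)) T4.l8
  (TrL.c (I.pos (nat_lit 0) (nat_lit 0)) T2.l2
  (TrL.c (I.pos (nat_lit 0) (nat_lit 0)) T4.l4
  (TrL.c (I.pos (nat_lit 0) (nat_lit 0)) T2.l3
  TrL.n)))))))) (by decide +kernel)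
theorem bx0_2 : BoxOK sI cl5 cl7 cl13 t2 t4 b0_2 :=
  box_mk (TrL.c (I.pos (nat_lit 0) (nat_lit 0)) T2.l8
  (TrL.c (I.pos (nat_lit 0) (nat_lit 0)) T4.l1
  (TrL.c (I.pos (nat_lit 0) (nat_lit 0)) T2.l1
  (TrL.c (I.pos (nat_lit 0) (nat_lit 0)) T4.l2
  (TrL.c (I.pos (nat_lit 0) (nat_lit 0)) T4.l8
  (TrL.c (I.pos (nat_lit 0) (nat_lit 0)) T2.l2
  (TrL.c (I.pos (nat_lit 0) (nat_lit 0)) T4.l4
  (TrL.c (I.pos (nat_lit 0) (nat_lit 0)) T2.l3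
  TrL.n)))))))) (by decide +kernel)
theorem bx0_3 : BoxOK sI cl5 cl7 cl13 t2 t4 b0_3 :=
  box_mk (TrL.c (I.pos (nat_lit 0) (nat_lit 0)) (xa (xa T2.l8 T2.l8) T2.l8)
  (TrL.c (I.pos (nat_lit 0) (nat_lit 0)) T4.l1
  (TrL.c (I.pos (nat_lit 0) (nat_lit 0)) T2.l1
  (TrL.c (I.pos (nat_lit 0) (nat_lit 0)) T4.l2
  (TrL.c (I.pos (nat_lit 0) (nat_lit 0)) T4.l8
  (TrL.c (I.pos (nat_lit 0) (nat_lit 0)) T2.l2
  (TrL.c (I.pos (nat_lit 0) (nat_lit 0)) T4.l4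
  (TrL.c (I.pos (nat_lit 0) (nat_lit 0)) T2.l3
  TrL.n)))))))) (by decide +kernel)
theorem bx0_4 : BoxOK sI cl5 cl7 cl13 t2 t4 b0_4 :=
  box_mk (TrL.c (I.pos (nat_lit 0) (nat_lit 0)) (xa T2.l0 (xb T2.l0 T2.l0))
  (TrL.c (I.pos (nat_lit 0) (nat_lit 0)) (xa T4.l1 T4.l1)
  (TrL.c (I.pos (nat_lit 0) (nat_lit 0)) T2.l1
  (TrL.c (I.pos (nat_lit 0) (nat_lit 0)) T4.l2
  (TrL.c (I.pos (nat_lit 0) (nat_lit 0)) (xa T4.l3 (xb T4.l3 (xa T4.l3 T4.l3)))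
  (TrL.c (I.pos (nat_lit 0) (nat_lit 0)) T2.l2
  (TrL.c (I.pos (nat_lit 0) (nat_lit 0)) T4.l4
  (TrL.c (I.pos (nat_lit 0) (nat_lit 0)) T2.l3
  TrL.n)))))))) (by decide +kernel)
theorem bx0_5 : BoxOK sI cl5 cl7 cl13 t2 t4 b0_5 :=
  box_mk (TrL.c (I.pos (nat_lit 0) (nat_lit 0)) T2.l8
  (TrL.c (I.pos (nat_lit 0) (nat_lit 0)) T4.l1
  (TrL.c (I.pos (nat_lit 0) (nat_lit 0)) T2.l1
  (TrL.c (I.pos (nat_lit 0) (nat_lit 0)) T4.l2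
  (TrL.c (I.pos (nat_lit 0) (nat_lit 0)) T4.l8
  (TrL.c (I.pos (nat_lit 0) (nat_lit 0)) T2.l2
  (TrL.c (I.pos (nat_lit 0) (nat_lit 0)) T4.l4
  (TrL.c (I.pos (nat_lit 0) (nat_lit 0)) T2.l3
  TrL.n)))))))) (by decide +kernel)
theorem bx0_6 : BoxOK sI cl5 cl7 cl13 t2 t4 b0_6 :=
  box_mk (TrL.c (I.pos (nat_lit 0) (nat_lit 0)) (xa T2.l8 T2.l8)
  (TrL.c (I.pos (nat_lit 0) (nat_lit 0)) T4.l1
  (TrL.c (I.pos (nat_lit 0) (nat_lit 0)) T2.l1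
  (TrL.c (I.pos (nat_lit 0) (nat_lit 0)) T4.l2
  (TrL.c (I.pos (nat_lit 0) (nat_lit 0)) (xa T4.l8 T4.l8)
  (TrL.c (I.pos (nat_lit 0) (nat_lit 0)) T2.l2
  (TrL.c (I.pos (nat_lit 0) (nat_lit 0)) T4.l4
  (TrL.c (I.pos (nat_lit 0) (nat_lit 0)) T2.l3
  TrL.n)))))))) (by decide +kernel)
theorem bx0_7 : BoxOK sI cl5 cl7 cl13 t2 t4 b0_7 :=
  box_mk (TrL.c (I.pos (nat_lit 0) (nat_lit 0)) (xa (xa (xb T2.l8 T2.l8) T2.l8) T2.l8)
  (TrL.c (I.pos (nat_lit 0) (nat_lit 0)) (xa T4.l8 T4.l1)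
  (TrL.c (I.pos (nat_lit 0) (nat_lit 0)) T2.l1
  (TrL.c (I.pos (nat_lit 0) (nat_lit 0)) T4.l2
  (TrL.c (I.pos (nat_lit 0) (nat_lit 0)) (xa T4.l8 T4.l8)
  (TrL.c (I.pos (nat_lit 0) (nat_lit 0)) T2.l2
  (TrL.c (I.pos (nat_lit 0) (nat_lit 0)) T4.l4
  (TrL.c (I.pos (nat_lit 0) (nat_lit 0)) T2.l3
  TrL.n)))))))) (by decide +kernel)
theorem bx0_8 : BoxOK sI cl5 cl7 cl13 t2 t4 b0_8 :=
  box_mk (TrL.c (I.pos (nat_lit 0) (nat_lit 0)) (xb (xa T2.l11 T2.l11) (xa (xb T2.l11 T2.l11) (xb T2.l11 T2.l11)))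
  (TrL.c (I.pos (nat_lit 0) (nat_lit 0)) (xb T4.l1 T4.l1)
  (TrL.c (I.pos (nat_lit 0) (nat_lit 0)) T2.l1
  (TrL.c (I.pos (nat_lit 0) (nat_lit 0)) T4.l2
  (TrL.c (I.pos (nat_lit 0) (nat_lit 0)) (xb T4.l11 (xa T4.l11 T4.l11))
  (TrL.c (I.pos (nat_lit 0) (nat_lit 0)) T2.l2
  (TrL.c (I.pos (nat_lit 0) (nat_lit 0)) T4.l4
  (TrL.c (I.pos (nat_lit 0) (nat_lit 0)) T2.l3
  TrL.n)))))))) (by decide +kernel)
theorem bx0_9 : BoxOK sI cl5 cl7 cl13 t2 t4 b0_9 :=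
  box_mk (TrL.c (I.pos (nat_lit 0) (nat_lit 0)) (xa (xa (xb T2.l8 (xa T2.l8 T2.l8)) (xb T2.l8 T2.l8)) (xa T2.l8 T2.l8))
  (TrL.c (I.pos (nat_lit 0) (nat_lit 0)) (xa T4.l1 T4.l1)
  (TrL.c (I.pos (nat_lit 0) (nat_lit 0)) T2.l1
  (TrL.c (I.pos (nat_lit 0) (nat_lit 0)) T4.l2
  (TrL.c (I.pos (nat_lit 0) (nat_lit 0)) (xa T4.l8 T4.l8)
  (TrL.c (I.pos (nat_lit 0) (nat_lit 0)) T2.l2
  (TrL.c (I.pos (nat_lit 0) (nat_lit 0)) T4.l4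
  (TrL.c (I.pos (nat_lit 0) (nat_lit 0)) T2.l3
  TrL.n)))))))) (by decide +kernel)
theorem bx0_10 : BoxOK sI cl5 cl7 cl13 t2 t4 b0_10 :=
  box_mk (TrL.c (I.pos (nat_lit 0) (nat_lit 0)) T2.l8
  (TrL.c (I.pos (nat_lit 0) (nat_lit 0)) T4.l1
  (TrL.c (I.pos (nat_lit 0) (nat_lit 0)) T2.l1
  (TrL.c (I.pos (nat_lit 0) (nat_lit 0)) T4.l2
  (TrL.c (I.pos (nat_lit 0) (nat_lit 0)) T4.l8
  (TrL.c (I.pos (nat_lit 0) (nat_lit 0)) T2.l2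
  (TrL.c (I.pos (nat_lit 0) (nat_lit 0)) T4.l4
  (TrL.c (I.pos (nat_lit 0) (nat_lit 0)) T2.l3
  TrL.n)))))))) (by decide +kernel)
theorem bx0_11 : BoxOK sI cl5 cl7 cl13 t2 t4 b0_11 :=
  box_mk (TrL.c (I.pos (nat_lit 0) (nat_lit 0)) (xa (xb T2.l0 T2.l0) (xb T2.l0 T2.l0))
  (TrL.c (I.pos (nat_lit 0) (nat_lit 0)) T4.l1
  (TrL.c (I.pos (nat_lit 0) (nat_lit 0)) T2.l1
  (TrL.c (I.pos (nat_lit 0) (nat_lit 0)) T4.l2
  (TrL.c (I.pos (nat_lit 0) (nat_lit 0)) (xa T4.l3 T4.l3)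
  (TrL.c (I.pos (nat_lit 0) (nat_lit 0)) T2.l2
  (TrL.c (I.pos (nat_lit 0) (nat_lit 0)) T4.l4
  (TrL.c (I.pos (nat_lit 0) (nat_lit 0)) T2.l3
  TrL.n)))))))) (by decide +kernel)
theorem bx0_12 : BoxOK sI cl5 cl7 cl13 t2 t4 b0_12 :=
  box_mk (TrL.c (I.pos (nat_lit 0) (nat_lit 0)) (xa (xb T2.l0 T2.l11) T2.l0)
  (TrL.c (I.pos (nat_lit 0) (nat_lit 0)) T4.l1
  (TrL.c (I.pos (nat_lit 0) (nat_lit 0)) T2.l1
  (TrL.c (I.pos (nat_lit 0) (nat_lit 0)) T4.l2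
  (TrL.c (I.pos (nat_lit 0) (nat_lit 0)) (xa T4.l11 T4.l0)
  (TrL.c (I.pos (nat_lit 0) (nat_lit 0)) T2.l2
  (TrL.c (I.pos (nat_lit 0) (nat_lit 0)) T4.l4
  (TrL.c (I.pos (nat_lit 0) (nat_lit 0)) T2.l3
  TrL.n)))))))) (by decide +kernel)
theorem bx0_13 : BoxOK sI cl5 cl7 cl13 t2 t4 b0_13 :=
  box_mk (TrL.c (I.pos (nat_lit 0) (nat_lit 0)) T2.l11
  (TrL.c (I.pos (nat_lit 0) (nat_lit 0)) T4.l1
  (TrL.c (I.pos (nat_lit 0) (nat_lit 0)) T2.l1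
  (TrL.c (I.pos (nat_lit 0) (nat_lit 0)) T4.l2
  (TrL.c (I.pos (nat_lit 0) (nat_lit 0)) T4.l11
  (TrL.c (I.pos (nat_lit 0) (nat_lit 0)) T2.l2
  (TrL.c (I.pos (nat_lit 0) (nat_lit 0)) T4.l4
  (TrL.c (I.pos (nat_lit 0) (nat_lit 0)) T2.l3
  TrL.n)))))))) (by decide +kernel)
theorem sv0 : StarV sI cl5 cl7 cl13 t2 t4 t0 :=
  (bt_n (bt_n (bt_n (bt_b bx0_0) (bt_n (bt_b bx0_1) (bt_b bx0_2))) (bt_n (bt_n (bt_b bx0_3) (bt_b bx0_4)) (bt_n (bt_b bx0_5) (bt_b bx0_6)))) (bt_n (bt_n (bt_b bx0_7) (bt_n (bt_b bx0_8) (bt_b bx0_9))) (bt_n (bt_n (bt_b bx0_10) (bt_b bx0_11)) (bt_n (bt_b bx0_12) (bt_b bx0_13)))))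
def S0 : StarD := StarD.mk cl5 cl7 cl13 2 4 t0
theorem bx1_0 : BoxOK sI cl5 cl13 cl7 t4 t2 b1_0 :=
  box_mk (TrL.c (I.pos (nat_lit 0) (nat_lit 0)) (xa (xb (xa T4.l0 T4.l0) (xa (xb T4.l0 T4.l0) (xb T4.l0 T4.l0))) (xb (xa T4.l0 T4.l0) (xa T4.l0 T4.l0)))
  (TrL.c (I.pos (nat_lit 0) (nat_lit 0)) (xa (xb T2.l4 T2.l4) (xb T2.l4 T2.l4))
  (TrL.c (I.pos (nat_lit 0) (nat_lit 0)) T4.l5
  (TrL.c (I.pos (nat_lit 0) (nat_lit 0)) T2.l5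
  (TrL.c (I.pos (nat_lit 0) (nat_lit 0)) (xa (xb T2.l6 T2.l6) (xb (xa T2.l6 T2.l6) (xa T2.l6 T2.l6)))
  (TrL.c (I.pos (nat_lit 0) (nat_lit 0)) (xa T4.l6 T4.l6)
  (TrL.c (I.pos (nat_lit 0) (nat_lit 0)) T2.l7
  (TrL.c (I.pos (nat_lit 0) (nat_lit 0)) T4.l7
  TrL.n)))))))) (by decide +kernel)
theorem bx1_1 : BoxOK sI cl5 cl13 cl7 t4 t2 b1_1 :=
  box_mk (TrL.c (I.pos (nat_lit 0) (nat_lit 0)) (xa T4.l9 (xa T4.l9 T4.l9))
  (TrL.c (I.pos (nat_lit 0) (nat_lit 0)) (xa T2.l4 T2.l4)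
  (TrL.c (I.pos (nat_lit 0) (nat_lit 0)) T4.l5
  (TrL.c (I.pos (nat_lit 0) (nat_lit 0)) T2.l5
  (TrL.c (I.pos (nat_lit 0) (nat_lit 0)) (xa T2.l9 T2.l9)
  (TrL.c (I.pos (nat_lit 0) (nat_lit 0)) T4.l6
  (TrL.c (I.pos (nat_lit 0) (nat_lit 0)) T2.l7
  (TrL.c (I.pos (nat_lit 0) (nat_lit 0)) T4.l7
  TrL.n)))))))) (by decide +kernel)
theorem bx1_2 : BoxOK sI cl5 cl13 cl7 t4 t2 b1_2 :=
  box_mk (TrL.c (I.pos (nat_lit 0) (nat_lit 0)) T4.l9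
  (TrL.c (I.pos (nat_lit 0) (nat_lit 0)) T2.l4
  (TrL.c (I.pos (nat_lit 0) (nat_lit 0)) T4.l5
  (TrL.c (I.pos (nat_lit 0) (nat_lit 0)) T2.l5
  (TrL.c (I.pos (nat_lit 0) (nat_lit 0)) T2.l9
  (TrL.c (I.pos (nat_lit 0) (nat_lit 0)) T4.l6
  (TrL.c (I.pos (nat_lit 0) (nat_lit 0)) T2.l7
  (TrL.c (I.pos (nat_lit 0) (nat_lit 0)) T4.l7
  TrL.n)))))))) (by decide +kernel)
theorem bx1_3 : BoxOK sI cl5 cl13 cl7 t4 t2 b1_3 :=
  box_mk (TrL.c (I.pos (nat_lit 0) (nat_lit 0)) T4.l9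
  (TrL.c (I.pos (nat_lit 0) (nat_lit 0)) (xa T2.l4 T2.l4)
  (TrL.c (I.pos (nat_lit 0) (nat_lit 0)) T4.l5
  (TrL.c (I.pos (nat_lit 0) (nat_lit 0)) T2.l5
  (TrL.c (I.pos (nat_lit 0) (nat_lit 0)) (xa T2.l9 T2.l9)
  (TrL.c (I.pos (nat_lit 0) (nat_lit 0)) T4.l6
  (TrL.c (I.pos (nat_lit 0) (nat_lit 0)) T2.l7
  (TrL.c (I.pos (nat_lit 0) (nat_lit 0)) T4.l7
  TrL.n)))))))) (by decide +kernel)
theorem bx1_4 : BoxOK sI cl5 cl13 cl7 t4 t2 b1_4 :=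
  box_mk (TrL.c (I.pos (nat_lit 0) (nat_lit 0)) (xa T4.l0 (xb T4.l0 T4.l0))
  (TrL.c (I.pos (nat_lit 0) (nat_lit 0)) (xa T2.l4 T2.l4)
  (TrL.c (I.pos (nat_lit 0) (nat_lit 0)) T4.l5
  (TrL.c (I.pos (nat_lit 0) (nat_lit 0)) T2.l5
  (TrL.c (I.pos (nat_lit 0) (nat_lit 0)) (xa T2.l6 (xb (xa T2.l6 T2.l6) (xa T2.l6 T2.l6)))
  (TrL.c (I.pos (nat_lit 0) (nat_lit 0)) (xa T4.l6 T4.l1)
  (TrL.c (I.pos (nat_lit 0) (nat_lit 0)) T2.l7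
  (TrL.c (I.pos (nat_lit 0) (nat_lit 0)) T4.l7
  TrL.n)))))))) (by decide +kernel)
theorem bx1_5 : BoxOK sI cl5 cl13 cl7 t4 t2 b1_5 :=
  box_mk (TrL.c (I.pos (nat_lit 0) (nat_lit 0)) T4.l9
  (TrL.c (I.pos (nat_lit 0) (nat_lit 0)) T2.l4
  (TrL.c (I.pos (nat_lit 0) (nat_lit 0)) T4.l5
  (TrL.c (I.pos (nat_lit 0) (nat_lit 0)) T2.l5
  (TrL.c (I.pos (nat_lit 0) (nat_lit 0)) T2.l9
  (TrL.c (I.pos (nat_lit 0) (nat_lit 0)) T4.l6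
  (TrL.c (I.pos (nat_lit 0) (nat_lit 0)) T2.l7
  (TrL.c (I.pos (nat_lit 0) (nat_lit 0)) T4.l7
  TrL.n)))))))) (by decide +kernel)
theorem bx1_6 : BoxOK sI cl5 cl13 cl7 t4 t2 b1_6 :=
  box_mk (TrL.c (I.pos (nat_lit 0) (nat_lit 0)) T4.l9
  (TrL.c (I.pos (nat_lit 0) (nat_lit 0)) T2.l4
  (TrL.c (I.pos (nat_lit 0) (nat_lit 0)) T4.l5
  (TrL.c (I.pos (nat_lit 0) (nat_lit 0)) T2.l5
  (TrL.c (I.pos (nat_lit 0) (nat_lit 0)) T2.l9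
  (TrL.c (I.pos (nat_lit 0) (nat_lit 0)) T4.l6
  (TrL.c (I.pos (nat_lit 0) (nat_lit 0)) T2.l7
  (TrL.c (I.pos (nat_lit 0) (nat_lit 0)) T4.l7
  TrL.n)))))))) (by decide +kernel)
theorem bx1_7 : BoxOK sI cl5 cl13 cl7 t4 t2 b1_7 :=
  box_mk (TrL.c (I.pos (nat_lit 0) (nat_lit 0)) (xa T4.l9 T4.l0)
  (TrL.c (I.pos (nat_lit 0) (nat_lit 0)) T2.l4
  (TrL.c (I.pos (nat_lit 0) (nat_lit 0)) T4.l5
  (TrL.c (I.pos (nat_lit 0) (nat_lit 0)) T2.l5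
  (TrL.c (I.pos (nat_lit 0) (nat_lit 0)) (xa T2.l9 T2.l9)
  (TrL.c (I.pos (nat_lit 0) (nat_lit 0)) T4.l6
  (TrL.c (I.pos (nat_lit 0) (nat_lit 0)) T2.l7
  (TrL.c (I.pos (nat_lit 0) (nat_lit 0)) T4.l7
  TrL.n)))))))) (by decide +kernel)
theorem bx1_8 : BoxOK sI cl5 cl13 cl7 t4 t2 b1_8 :=
  box_mk (TrL.c (I.pos (nat_lit 0) (nat_lit 0)) (xa (xa T4.l9 T4.l9) T4.l9)
  (TrL.c (I.pos (nat_lit 0) (nat_lit 0)) (xa T2.l4 T2.l4)
  (TrL.c (I.pos (nat_lit 0) (nat_lit 0)) T4.l5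
  (TrL.c (I.pos (nat_lit 0) (nat_lit 0)) T2.l5
  (TrL.c (I.pos (nat_lit 0) (nat_lit 0)) (xa T2.l9 T2.l9)
  (TrL.c (I.pos (nat_lit 0) (nat_lit 0)) T4.l6
  (TrL.c (I.pos (nat_lit 0) (nat_lit 0)) T2.l7
  (TrL.c (I.pos (nat_lit 0) (nat_lit 0)) T4.l7
  TrL.n)))))))) (by decide +kernel)
theorem bx1_9 : BoxOK sI cl5 cl13 cl7 t4 t2 b1_9 :=
  box_mk (TrL.c (I.pos (nat_lit 0) (nat_lit 0)) (xb (xa T4.l10 T4.l10) (xa T4.l10 T4.l10))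
  (TrL.c (I.pos (nat_lit 0) (nat_lit 0)) (xb T2.l4 T2.l4)
  (TrL.c (I.pos (nat_lit 0) (nat_lit 0)) T4.l5
  (TrL.c (I.pos (nat_lit 0) (nat_lit 0)) T2.l5
  (TrL.c (I.pos (nat_lit 0) (nat_lit 0)) (xb T2.l10 T2.l10)
  (TrL.c (I.pos (nat_lit 0) (nat_lit 0)) T4.l6
  (TrL.c (I.pos (nat_lit 0) (nat_lit 0)) T2.l7
  (TrL.c (I.pos (nat_lit 0) (nat_lit 0)) T4.l7
  TrL.n)))))))) (by decide +kernel)
theorem bx1_10 : BoxOK sI cl5 cl13 cl7 t4 t2 b1_10 :=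
  box_mk (TrL.c (I.pos (nat_lit 0) (nat_lit 0)) (xa (xa (xb T4.l9 T4.l9) T4.l9) (xa T4.l9 (xb T4.l9 T4.l9)))
  (TrL.c (I.pos (nat_lit 0) (nat_lit 0)) (xa T2.l4 T2.l4)
  (TrL.c (I.pos (nat_lit 0) (nat_lit 0)) T4.l5
  (TrL.c (I.pos (nat_lit 0) (nat_lit 0)) T2.l5
  (TrL.c (I.pos (nat_lit 0) (nat_lit 0)) (xa T2.l9 T2.l9)
  (TrL.c (I.pos (nat_lit 0) (nat_lit 0)) T4.l6
  (TrL.c (I.pos (nat_lit 0) (nat_lit 0)) T2.l7
  (TrL.c (I.pos (nat_lit 0) (nat_lit 0)) T4.l7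
  TrL.n)))))))) (by decide +kernel)
theorem bx1_11 : BoxOK sI cl5 cl13 cl7 t4 t2 b1_11 :=
  box_mk (TrL.c (I.pos (nat_lit 0) (nat_lit 0)) (xa T4.l10 T4.l0)
  (TrL.c (I.pos (nat_lit 0) (nat_lit 0)) T2.l4
  (TrL.c (I.pos (nat_lit 0) (nat_lit 0)) T4.l5
  (TrL.c (I.pos (nat_lit 0) (nat_lit 0)) T2.l5
  (TrL.c (I.pos (nat_lit 0) (nat_lit 0)) (xa T2.l10 T2.l0)
  (TrL.c (I.pos (nat_lit 0) (nat_lit 0)) T4.l6
  (TrL.c (I.pos (nat_lit 0) (nat_lit 0)) T2.l7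
  (TrL.c (I.pos (nat_lit 0) (nat_lit 0)) T4.l7
  TrL.n)))))))) (by decide +kernel)
theorem bx1_12 : BoxOK sI cl5 cl13 cl7 t4 t2 b1_12 :=
  box_mk (TrL.c (I.pos (nat_lit 0) (nat_lit 0)) (xb T4.l10 T4.l10)
  (TrL.c (I.pos (nat_lit 0) (nat_lit 0)) T2.l4
  (TrL.c (I.pos (nat_lit 0) (nat_lit 0)) T4.l5
  (TrL.c (I.pos (nat_lit 0) (nat_lit 0)) T2.l5
  (TrL.c (I.pos (nat_lit 0) (nat_lit 0)) T2.l10
  (TrL.c (I.pos (nat_lit 0) (nat_lit 0)) T4.l6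
  (TrL.c (I.pos (nat_lit 0) (nat_lit 0)) T2.l7
  (TrL.c (I.pos (nat_lit 0) (nat_lit 0)) T4.l7
  TrL.n)))))))) (by decide +kernel)
theorem bx1_13 : BoxOK sI cl5 cl13 cl7 t4 t2 b1_13 :=
  box_mk (TrL.c (I.pos (nat_lit 0) (nat_lit 0)) (xa (xb T4.l0 T4.l0) (xb T4.l0 T4.l0))
  (TrL.c (I.pos (nat_lit 0) (nat_lit 0)) (xa T2.l4 T2.l4)
  (TrL.c (I.pos (nat_lit 0) (nat_lit 0)) T4.l5
  (TrL.c (I.pos (nat_lit 0) (nat_lit 0)) T2.l5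
  (TrL.c (I.pos (nat_lit 0) (nat_lit 0)) (xa T2.l6 (xb T2.l6 T2.l6))
  (TrL.c (I.pos (nat_lit 0) (nat_lit 0)) T4.l6
  (TrL.c (I.pos (nat_lit 0) (nat_lit 0)) T2.l7
  (TrL.c (I.pos (nat_lit 0) (nat_lit 0)) T4.l7
  TrL.n)))))))) (by decide +kernel)
theorem sv1 : StarV sI cl5 cl13 cl7 t4 t2 t1 :=
  (bt_n (bt_n (bt_n (bt_b bx1_0) (bt_n (bt_b bx1_1) (bt_b bx1_2))) (bt_n (bt_n (bt_b bx1_3) (bt_b bx1_4)) (bt_n (bt_b bx1_5) (bt_b bx1_6)))) (bt_n (bt_n (bt_b bx1_7) (bt_n (bt_b bx1_8) (bt_b bx1_9))) (bt_n (bt_n (bt_b bx1_10) (bt_b bx1_11)) (bt_n (bt_b bx1_12) (bt_b bx1_13)))))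
def S1 : StarD := StarD.mk cl5 cl13 cl7 4 2 t1
theorem bx2_0 : BoxOK sI cl7 cl5 cl13 t0 t5 b2_0 :=
  box_mk (TrL.c (I.pos (nat_lit 0) (nat_lit 0)) (xa (xb T0.l0 (xa T0.l0 T0.l0)) (xb T0.l0 (xa T0.l0 T0.l0)))
  (TrL.c (I.pos (nat_lit 0) (nat_lit 0)) (xa (xb T5.l1 T5.l1) (xb T5.l1 T5.l1))
  (TrL.c (I.pos (nat_lit 0) (nat_lit 111196574)) (xR T0.l1 T0.l1)
  (TrL.c (I.pos (nat_lit 0) (nat_lit 77433728)) T5.l2
  (TrL.c (I.pos (nat_lit 0) (nat_lit 0)) (xb (xa T5.l3 T5.l3) (xa T5.l3 (xk T5.l3 T5.l3)))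
  (TrL.c (I.pos (nat_lit 0) (nat_lit 0)) T0.l2
  (TrL.c (I.mix (nat_lit 29511666) (nat_lit 77433728)) (xR T5.l4 T5.l4)
  (TrL.c (I.mix (nat_lit 29511666) (nat_lit 46070178)) T0.l7
  TrL.n)))))))) (by decide +kernel)
theorem bx2_1 : BoxOK sI cl7 cl5 cl13 t0 t5 b2_1 :=
  box_mk (TrL.c (I.pos (nat_lit 0) (nat_lit 0)) (xb T0.l4 T0.l4)
  (TrL.c (I.pos (nat_lit 0) (nat_lit 0)) T5.l1
  (TrL.c (I.pos (nat_lit 0) (nat_lit 111196574)) T0.l1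
  (TrL.c (I.pos (nat_lit 0) (nat_lit 77433728)) T5.l2
  (TrL.c (I.pos (nat_lit 0) (nat_lit 0)) T5.l5
  (TrL.c (I.pos (nat_lit 0) (nat_lit 0)) T0.l2
  (TrL.c (I.mix (nat_lit 29511666) (nat_lit 77433728)) T5.l4
  (TrL.c (I.mix (nat_lit 29511666) (nat_lit 46070178)) T0.l3
  TrL.n)))))))) (by decide +kernel)
theorem bx2_2 : BoxOK sI cl7 cl5 cl13 t0 t5 b2_2 :=
  box_mk (TrL.c (I.pos (nat_lit 0) (nat_lit 0)) (xb T0.l4 T0.l4)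
  (TrL.c (I.pos (nat_lit 0) (nat_lit 0)) T5.l1
  (TrL.c (I.pos (nat_lit 0) (nat_lit 111196574)) T0.l1
  (TrL.c (I.pos (nat_lit 0) (nat_lit 77433728)) T5.l2
  (TrL.c (I.pos (nat_lit 0) (nat_lit 0)) T5.l5
  (TrL.c (I.pos (nat_lit 0) (nat_lit 0)) T0.l2
  (TrL.c (I.mix (nat_lit 29511666) (nat_lit 77433728)) T5.l4
  (TrL.c (I.mix (nat_lit 29511666) (nat_lit 46070178)) T0.l3
  TrL.n)))))))) (by decide +kernel)
theorem bx2_3 : BoxOK sI cl7 cl5 cl13 t0 t5 b2_3 :=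
  box_mk (TrL.c (I.pos (nat_lit 0) (nat_lit 0)) T5.l1
  (TrL.c (I.pos (nat_lit 0) (nat_lit 0)) T0.l1
  (TrL.c (I.mix (nat_lit 29511666) (nat_lit 77433728)) T5.l6
  (TrL.c (I.mix (nat_lit 29511666) (nat_lit 46070178)) T0.l9
  TrL.n)))) (by decide +kernel)
theorem bx2_4 : BoxOK sI cl7 cl5 cl13 t0 t5 b2_4 :=
  box_mk (TrL.c (I.pos (nat_lit 0) (nat_lit 0)) (xa T0.l4 T0.l4)
  (TrL.c (I.pos (nat_lit 0) (nat_lit 0)) T5.l1
  (TrL.c (I.pos (nat_lit 0) (nat_lit 111196574)) (xR T0.l1 T0.l1)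
  (TrL.c (I.pos (nat_lit 0) (nat_lit 77433728)) T5.l2
  (TrL.c (I.pos (nat_lit 0) (nat_lit 0)) (xk (xa T5.l5 T5.l5) T5.l5)
  (TrL.c (I.pos (nat_lit 0) (nat_lit 0)) T0.l2
  (TrL.c (I.mix (nat_lit 29511666) (nat_lit 77433728)) (xR T5.l4 T5.l4)
  (TrL.c (I.mix (nat_lit 29511666) (nat_lit 46070178)) T0.l7
  TrL.n)))))))) (by decide +kernel)
theorem bx2_5 : BoxOK sI cl7 cl5 cl13 t0 t5 b2_5 :=
  box_mk (TrL.c (I.pos (nat_lit 0) (nat_lit 0)) T5.l7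
  (TrL.c (I.pos (nat_lit 0) (nat_lit 0)) T0.l1
  (TrL.c (I.mix (nat_lit 29511666) (nat_lit 77433728)) T5.l6
  (TrL.c (I.mix (nat_lit 29511666) (nat_lit 46070178)) T0.l9
  TrL.n)))) (by decide +kernel)
theorem bx2_6 : BoxOK sI cl7 cl5 cl13 t0 t5 b2_6 :=
  box_mk (TrL.c (I.pos (nat_lit 0) (nat_lit 0)) (xa (xb T0.l11 T0.l11) (xb T0.l11 T0.l11))
  (TrL.c (I.pos (nat_lit 0) (nat_lit 0)) (xk T5.l1 T5.l1)
  (TrL.c (I.pos (nat_lit 0) (nat_lit 111196574)) (xR T0.l1 T0.l1)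
  (TrL.c (I.pos (nat_lit 0) (nat_lit 77433728)) T5.l2
  (TrL.c (I.pos (nat_lit 0) (nat_lit 0)) (xk (xb T5.l11 T5.l3) (xb T5.l11 T5.l3))
  (TrL.c (I.pos (nat_lit 0) (nat_lit 0)) T0.l2
  (TrL.c (I.mix (nat_lit 29511666) (nat_lit 77433728)) (xR T5.l4 T5.l4)
  (TrL.c (I.mix (nat_lit 29511666) (nat_lit 46070178)) T0.l7
  TrL.n)))))))) (by decide +kernel)
theorem bx2_7 : BoxOK sI cl7 cl5 cl13 t0 t5 b2_7 :=
  box_mk (TrL.c (I.pos (nat_lit 0) (nat_lit 0)) T0.l4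
  (TrL.c (I.pos (nat_lit 0) (nat_lit 0)) T5.l7
  (TrL.c (I.pos (nat_lit 0) (nat_lit 111196574)) T0.l1
  (TrL.c (I.pos (nat_lit 0) (nat_lit 77433728)) T5.l6
  (TrL.c (I.pos (nat_lit 0) (nat_lit 0)) T5.l5
  (TrL.c (I.pos (nat_lit 0) (nat_lit 0)) T0.l2
  (TrL.c (I.mix (nat_lit 29511666) (nat_lit 77433728)) T5.l4
  (TrL.c (I.mix (nat_lit 29511666) (nat_lit 46070178)) T0.l3
  TrL.n)))))))) (by decide +kernel)
theorem bx2_8 : BoxOK sI cl7 cl5 cl13 t0 t5 b2_8 :=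
  box_mk (TrL.c (I.pos (nat_lit 0) (nat_lit 0)) (xa (xb (xa T0.l0 T0.l0) (xa T0.l0 T0.l0)) (xb (xa T0.l0 T0.l0) (xa T0.l0 T0.l0)))
  (TrL.c (I.pos (nat_lit 0) (nat_lit 0)) (xa (xb T5.l1 T5.l1) (xk (xb T5.l1 T5.l1) T5.l9))
  (TrL.c (I.pos (nat_lit 0) (nat_lit 111196574)) (xR T0.l1 T0.l9)
  (TrL.c (I.pos (nat_lit 0) (nat_lit 77433728)) T5.l2
  (TrL.c (I.pos (nat_lit 0) (nat_lit 0)) (xa (xb (xk (xa T5.l3 T5.l0) (xa T5.l3 T5.l0)) (xk T5.l3 T5.l3)) (xb (xk (xa T5.l0 (xb (xk T5.l0 T5.l0) (xk T5.l3 T5.l3))) (xa T5.l0 (xb T5.l0 T5.l3))) (xk (xa (xb T5.l3 T5.l3) (xb (xk T5.l3 T5.l3) (xk T5.l3 T5.l3))) (xa T5.l3 (xb (xk T5.l3 T5.l3) (xk T5.l3 T5.l3))))))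
  (TrL.c (I.pos (nat_lit 0) (nat_lit 0)) (xk (xa T0.l2 T0.l2) (xa T0.l2 T0.l2))
  (TrL.c (I.mix (nat_lit 29511666) (nat_lit 77433728)) (xR T5.l4 (xR T5.l4 T5.l4))
  (TrL.c (I.mix (nat_lit 29511666) (nat_lit 46070178)) T0.l7
  TrL.n)))))))) (by decide +kernel)
theorem bx2_9 : BoxOK sI cl7 cl5 cl13 t0 t5 b2_9 :=
  box_mk (TrL.c (I.pos (nat_lit 0) (nat_lit 0)) (xa T0.l11 T0.l0)
  (TrL.c (I.pos (nat_lit 0) (nat_lit 0)) T5.l1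
  (TrL.c (I.pos (nat_lit 0) (nat_lit 111196574)) (xR T0.l1 T0.l1)
  (TrL.c (I.pos (nat_lit 0) (nat_lit 77433728)) T5.l2
  (TrL.c (I.pos (nat_lit 0) (nat_lit 0)) (xk (xb T5.l11 T5.l11) (xb T5.l11 T5.l11))
  (TrL.c (I.pos (nat_lit 0) (nat_lit 0)) T0.l2
  (TrL.c (I.mix (nat_lit 29511666) (nat_lit 77433728)) T5.l4
  (TrL.c (I.mix (nat_lit 29511666) (nat_lit 46070178)) T0.l3
  TrL.n)))))))) (by decide +kernel)
theorem bx2_10 : BoxOK sI cl7 cl5 cl13 t0 t5 b2_10 :=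
  box_mk (TrL.c (I.pos (nat_lit 0) (nat_lit 0)) (xb T0.l11 T0.l11)
  (TrL.c (I.pos (nat_lit 0) (nat_lit 0)) T5.l1
  (TrL.c (I.pos (nat_lit 0) (nat_lit 111196574)) (xR T0.l1 T0.l1)
  (TrL.c (I.pos (nat_lit 0) (nat_lit 77433728)) T5.l2
  (TrL.c (I.pos (nat_lit 0) (nat_lit 0)) (xk T5.l11 T5.l11)
  (TrL.c (I.pos (nat_lit 0) (nat_lit 0)) T0.l2
  (TrL.c (I.mix (nat_lit 29511666) (nat_lit 77433728)) (xR T5.l4 T5.l4)
  (TrL.c (I.mix (nat_lit 29511666) (nat_lit 46070178)) T0.l7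
  TrL.n)))))))) (by decide +kernel)
theorem bx2_11 : BoxOK sI cl7 cl5 cl13 t0 t5 b2_11 :=
  box_mk (TrL.c (I.pos (nat_lit 0) (nat_lit 0)) (xa (xb T0.l0 T0.l0) (xb T0.l0 T0.l0))
  (TrL.c (I.pos (nat_lit 0) (nat_lit 0)) (xk T5.l1 T5.l1)
  (TrL.c (I.pos (nat_lit 0) (nat_lit 111196574)) (xR T0.l1 T0.l1)
  (TrL.c (I.pos (nat_lit 0) (nat_lit 77433728)) T5.l2
  (TrL.c (I.pos (nat_lit 0) (nat_lit 0)) (xk (xa T5.l3 T5.l3) (xa T5.l3 T5.l3))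
  (TrL.c (I.pos (nat_lit 0) (nat_lit 0)) T0.l2
  (TrL.c (I.mix (nat_lit 29511666) (nat_lit 77433728)) (xR T5.l4 T5.l4)
  (TrL.c (I.mix (nat_lit 29511666) (nat_lit 46070178)) T0.l7
  TrL.n)))))))) (by decide +kernel)
theorem sv2 : StarV sI cl7 cl5 cl13 t0 t5 t2 :=
  (bt_n (bt_n (bt_n (bt_b bx2_0) (bt_n (bt_b bx2_1) (bt_b bx2_2))) (bt_n (bt_b bx2_3) (bt_n (bt_b bx2_4) (bt_b bx2_5)))) (bt_n (bt_n (bt_b bx2_6) (bt_n (bt_b bx2_7) (bt_b bx2_8))) (bt_n (bt_b bx2_9) (bt_n (bt_b bx2_10) (bt_b bx2_11)))))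
def S2 : StarD := StarD.mk cl7 cl5 cl13 0 5 t2
theorem bx3_0 : BoxOK sI cl7 cl13 cl5 t5 t0 b3_0 :=
  box_mk (TrL.c (I.pos (nat_lit 0) (nat_lit 0)) (xa (xa (xb T5.l0 T5.l0) (xb (xb T5.l0 T5.l0) (xb T5.l0 T5.l0))) (xa (xb (xb T5.l0 T5.l0) (xb T5.l0 T5.l0)) (xb (xb T5.l0 (xs T5.l0 (xa T5.l0 T5.l0))) (xb T5.l0 (xs T5.l0 (xa T5.l0 T5.l0))))))
  (TrL.c (I.pos (nat_lit 0) (nat_lit 0)) (xa (xk (xb T0.l6 T0.l6) (xb T0.l6 T0.l6)) (xk (xb T0.l6 T0.l6) (xb T0.l6 T0.l6)))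
  (TrL.c (I.pos (nat_lit 0) (nat_lit 111196574)) (xR T5.l8 T5.l8)
  (TrL.c (I.pos (nat_lit 0) (nat_lit 77433728)) T0.l7
  (TrL.c (I.pos (nat_lit 0) (nat_lit 0)) (xa (xk (xb T0.l8 T0.l8) (xb T0.l8 T0.l8)) (xk (xb (xa T0.l8 T0.l8) (xa T0.l8 T0.l8)) (xb (xa T0.l8 T0.l8) (xa T0.l8 T0.l8))))
  (TrL.c (I.pos (nat_lit 0) (nat_lit 0)) (xk (xa T5.l9 T5.l9) T5.l9)
  (TrL.c (I.mix (nat_lit 29511666) (nat_lit 77433728)) (xR T0.l9 T0.l9)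
  (TrL.c (I.mix (nat_lit 29511666) (nat_lit 46070178)) T5.l10
  TrL.n)))))))) (by decide +kernel)
theorem bx3_1 : BoxOK sI cl7 cl13 cl5 t5 t0 b3_1 :=
  box_mk (TrL.c (I.pos (nat_lit 0) (nat_lit 0)) T5.l12
  (TrL.c (I.pos (nat_lit 0) (nat_lit 0)) (xa T0.l6 T0.l6)
  (TrL.c (I.pos (nat_lit 0) (nat_lit 111196574)) (xR T5.l8 T5.l8)
  (TrL.c (I.pos (nat_lit 0) (nat_lit 77433728)) T0.l7
  (TrL.c (I.pos (nat_lit 0) (nat_lit 0)) (xk (xa T0.l12 T0.l12) (xa T0.l12 T0.l12))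
  (TrL.c (I.pos (nat_lit 0) (nat_lit 0)) T5.l9
  (TrL.c (I.mix (nat_lit 29511666) (nat_lit 77433728)) (xR T0.l9 T0.l9)
  (TrL.c (I.mix (nat_lit 29511666) (nat_lit 46070178)) T5.l10
  TrL.n)))))))) (by decide +kernel)
theorem bx3_2 : BoxOK sI cl7 cl13 cl5 t5 t0 b3_2 :=
  box_mk (TrL.c (I.pos (nat_lit 0) (nat_lit 0)) (xa (xa T5.l12 T5.l12) T5.l12)
  (TrL.c (I.pos (nat_lit 0) (nat_lit 0)) (xa T0.l6 T0.l6)
  (TrL.c (I.pos (nat_lit 0) (nat_lit 111196574)) T5.l8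
  (TrL.c (I.pos (nat_lit 0) (nat_lit 77433728)) T0.l7
  (TrL.c (I.pos (nat_lit 0) (nat_lit 0)) (xa T0.l12 T0.l12)
  (TrL.c (I.pos (nat_lit 0) (nat_lit 0)) T5.l9
  (TrL.c (I.mix (nat_lit 29511666) (nat_lit 77433728)) (xR T0.l9 T0.l9)
  (TrL.c (I.mix (nat_lit 29511666) (nat_lit 46070178)) T5.l10
  TrL.n)))))))) (by decide +kernel)
theorem bx3_3 : BoxOK sI cl7 cl13 cl5 t5 t0 b3_3 :=
  box_mk (TrL.c (I.pos (nat_lit 0) (nat_lit 0)) (xb T5.l13 (xa T5.l13 T5.l0))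
  (TrL.c (I.pos (nat_lit 0) (nat_lit 0)) (xk (xb T0.l6 T0.l6) (xb T0.l6 T0.l6))
  (TrL.c (I.pos (nat_lit 0) (nat_lit 111196574)) (xR T5.l8 T5.l8)
  (TrL.c (I.pos (nat_lit 0) (nat_lit 77433728)) T0.l7
  (TrL.c (I.pos (nat_lit 0) (nat_lit 0)) (xk (xb T0.l13 T0.l8) (xb T0.l13 T0.l8))
  (TrL.c (I.pos (nat_lit 0) (nat_lit 0)) T5.l9
  (TrL.c (I.mix (nat_lit 29511666) (nat_lit 77433728)) (xR T0.l9 T0.l9)
  (TrL.c (I.mix (nat_lit 29511666) (nat_lit 46070178)) T5.l10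
  TrL.n)))))))) (by decide +kernel)
theorem bx3_4 : BoxOK sI cl7 cl13 cl5 t5 t0 b3_4 :=
  box_mk (TrL.c (I.pos (nat_lit 0) (nat_lit 0)) (xa (xa (xb T5.l12 T5.l12) T5.l12) (xa T5.l12 T5.l12))
  (TrL.c (I.pos (nat_lit 0) (nat_lit 0)) (xa (xa T0.l6 T0.l6) (xa T0.l6 T0.l6))
  (TrL.c (I.pos (nat_lit 0) (nat_lit 111196574)) T5.l8
  (TrL.c (I.pos (nat_lit 0) (nat_lit 77433728)) T0.l7
  (TrL.c (I.pos (nat_lit 0) (nat_lit 0)) (xa T0.l12 T0.l12)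
  (TrL.c (I.pos (nat_lit 0) (nat_lit 0)) T5.l9
  (TrL.c (I.mix (nat_lit 29511666) (nat_lit 77433728)) (xR T0.l9 T0.l9)
  (TrL.c (I.mix (nat_lit 29511666) (nat_lit 46070178)) T5.l10
  TrL.n)))))))) (by decide +kernel)
theorem bx3_5 : BoxOK sI cl7 cl13 cl5 t5 t0 b3_5 :=
  box_mk (TrL.c (I.pos (nat_lit 0) (nat_lit 0)) T5.l0
  (TrL.c (I.pos (nat_lit 0) (nat_lit 0)) T0.l6
  (TrL.c (I.pos (nat_lit 0) (nat_lit 111196574)) (xR T5.l8 T5.l8)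
  (TrL.c (I.pos (nat_lit 0) (nat_lit 77433728)) T0.l7
  (TrL.c (I.pos (nat_lit 0) (nat_lit 0)) (xk (xa T0.l13 T0.l8) (xa T0.l13 T0.l8))
  (TrL.c (I.pos (nat_lit 0) (nat_lit 0)) T5.l9
  (TrL.c (I.mix (nat_lit 29511666) (nat_lit 77433728)) (xR T0.l9 T0.l9)
  (TrL.c (I.mix (nat_lit 29511666) (nat_lit 46070178)) T5.l10
  TrL.n)))))))) (by decide +kernel)
theorem bx3_6 : BoxOK sI cl7 cl13 cl5 t5 t0 b3_6 :=
  box_mk (TrL.c (I.pos (nat_lit 0) (nat_lit 0)) T5.l12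
  (TrL.c (I.pos (nat_lit 0) (nat_lit 0)) T0.l6
  (TrL.c (I.pos (nat_lit 0) (nat_lit 111196574)) (xR T5.l8 T5.l8)
  (TrL.c (I.pos (nat_lit 0) (nat_lit 77433728)) T0.l7
  (TrL.c (I.pos (nat_lit 0) (nat_lit 0)) T0.l12
  (TrL.c (I.pos (nat_lit 0) (nat_lit 0)) T5.l9
  (TrL.c (I.mix (nat_lit 29511666) (nat_lit 77433728)) (xR T0.l9 T0.l9)
  (TrL.c (I.mix (nat_lit 29511666) (nat_lit 46070178)) T5.l10
  TrL.n)))))))) (by decide +kernel)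
theorem bx3_7 : BoxOK sI cl7 cl13 cl5 t5 t0 b3_7 :=
  box_mk (TrL.c (I.pos (nat_lit 0) (nat_lit 0)) (xa T5.l12 T5.l12)
  (TrL.c (I.pos (nat_lit 0) (nat_lit 0)) (xa T0.l6 T0.l6)
  (TrL.c (I.pos (nat_lit 0) (nat_lit 111196574)) T5.l8
  (TrL.c (I.pos (nat_lit 0) (nat_lit 77433728)) T0.l7
  (TrL.c (I.pos (nat_lit 0) (nat_lit 0)) (xa T0.l12 T0.l12)
  (TrL.c (I.pos (nat_lit 0) (nat_lit 0)) T5.l9
  (TrL.c (I.mix (nat_lit 29511666) (nat_lit 77433728)) (xR T0.l9 T0.l9)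
  (TrL.c (I.mix (nat_lit 29511666) (nat_lit 46070178)) T5.l10
  TrL.n)))))))) (by decide +kernel)
theorem bx3_8 : BoxOK sI cl7 cl13 cl5 t5 t0 b3_8 :=
  box_mk (TrL.c (I.pos (nat_lit 0) (nat_lit 0)) (xa (xa T5.l12 T5.l12) (xa T5.l12 T5.l12))
  (TrL.c (I.pos (nat_lit 0) (nat_lit 0)) (xa T0.l6 T0.l6)
  (TrL.c (I.pos (nat_lit 0) (nat_lit 111196574)) (xR T5.l8 T5.l8)
  (TrL.c (I.pos (nat_lit 0) (nat_lit 77433728)) T0.l7
  (TrL.c (I.pos (nat_lit 0) (nat_lit 0)) T0.l12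
  (TrL.c (I.pos (nat_lit 0) (nat_lit 0)) T5.l9
  (TrL.c (I.mix (nat_lit 29511666) (nat_lit 77433728)) (xR T0.l9 T0.l9)
  (TrL.c (I.mix (nat_lit 29511666) (nat_lit 46070178)) T5.l10
  TrL.n)))))))) (by decide +kernel)
theorem bx3_9 : BoxOK sI cl7 cl13 cl5 t5 t0 b3_9 :=
  box_mk (TrL.c (I.pos (nat_lit 0) (nat_lit 0)) T5.l12
  (TrL.c (I.pos (nat_lit 0) (nat_lit 0)) T0.l6
  (TrL.c (I.pos (nat_lit 0) (nat_lit 111196574)) (xR T5.l8 T5.l8)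
  (TrL.c (I.pos (nat_lit 0) (nat_lit 77433728)) T0.l7
  (TrL.c (I.pos (nat_lit 0) (nat_lit 0)) (xb (xk T0.l12 T0.l12) T0.l12)
  (TrL.c (I.pos (nat_lit 0) (nat_lit 0)) T5.l9
  (TrL.c (I.mix (nat_lit 29511666) (nat_lit 77433728)) (xR T0.l9 T0.l9)
  (TrL.c (I.mix (nat_lit 29511666) (nat_lit 46070178)) T5.l10
  TrL.n)))))))) (by decide +kernel)
theorem bx3_10 : BoxOK sI cl7 cl13 cl5 t5 t0 b3_10 :=
  box_mk (TrL.c (I.pos (nat_lit 0) (nat_lit 0)) (xa (xa T5.l12 T5.l12) T5.l12)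
  (TrL.c (I.pos (nat_lit 0) (nat_lit 0)) (xa T0.l6 T0.l6)
  (TrL.c (I.pos (nat_lit 0) (nat_lit 111196574)) T5.l8
  (TrL.c (I.pos (nat_lit 0) (nat_lit 77433728)) T0.l7
  (TrL.c (I.pos (nat_lit 0) (nat_lit 0)) (xa T0.l12 T0.l12)
  (TrL.c (I.pos (nat_lit 0) (nat_lit 0)) T5.l9
  (TrL.c (I.mix (nat_lit 29511666) (nat_lit 77433728)) (xR T0.l9 T0.l9)
  (TrL.c (I.mix (nat_lit 29511666) (nat_lit 46070178)) T5.l10
  TrL.n)))))))) (by decide +kernel)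
theorem bx3_11 : BoxOK sI cl7 cl13 cl5 t5 t0 b3_11 :=
  box_mk (TrL.c (I.pos (nat_lit 0) (nat_lit 0)) (xa (xb T5.l0 T5.l0) (xb T5.l0 (xa T5.l0 T5.l0)))
  (TrL.c (I.pos (nat_lit 0) (nat_lit 0)) (xa (xk (xb T0.l6 T0.l6) T0.l6) (xk (xb (xa T0.l6 T0.l2) (xa T0.l6 T0.l2)) (xb (xa T0.l6 T0.l2) (xa T0.l6 T0.l2))))
  (TrL.c (I.pos (nat_lit 0) (nat_lit 111196574)) (xR T5.l8 T5.l8)
  (TrL.c (I.pos (nat_lit 0) (nat_lit 77433728)) (xR T0.l7 T0.l7)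
  (TrL.c (I.pos (nat_lit 0) (nat_lit 0)) (xa (xb (xk (xa T0.l8 T0.l8) (xa T0.l8 T0.l8)) (xk T0.l8 T0.l8)) (xb (xk (xa (xb T0.l8 T0.l8) (xk T0.l8 T0.l8)) (xa (xb T0.l8 T0.l8) (xb (xk T0.l8 T0.l8) T0.l8))) (xk (xa T0.l8 (xk (xb T0.l8 T0.l8) (xb T0.l8 T0.l8))) (xa T0.l8 (xk (xb T0.l8 T0.l8) (xb T0.l8 T0.l8))))))
  (TrL.c (I.pos (nat_lit 0) (nat_lit 0)) (xk (xa T5.l9 (xb T5.l9 T5.l9)) (xa T5.l9 (xb T5.l9 T5.l9)))
  (TrL.c (I.mix (nat_lit 29511666) (nat_lit 77433728)) (xR T0.l9 (xR T0.l9 (xR T0.l9 T0.l9)))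
  (TrL.c (I.mix (nat_lit 29511666) (nat_lit 46070178)) T5.l10
  TrL.n)))))))) (by decide +kernel)
theorem bx3_12 : BoxOK sI cl7 cl13 cl5 t5 t0 b3_12 :=
  box_mk (TrL.c (I.pos (nat_lit 0) (nat_lit 0)) (xa (xb T5.l0 T5.l0) T5.l0)
  (TrL.c (I.pos (nat_lit 0) (nat_lit 0)) (xa (xk T0.l6 T0.l6) (xk T0.l6 T0.l6))
  (TrL.c (I.pos (nat_lit 0) (nat_lit 111196574)) (xR T5.l8 T5.l8)
  (TrL.c (I.pos (nat_lit 0) (nat_lit 77433728)) T0.l7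
  (TrL.c (I.pos (nat_lit 0) (nat_lit 0)) (xk (xa T0.l8 T0.l8) (xa T0.l8 T0.l8))
  (TrL.c (I.pos (nat_lit 0) (nat_lit 0)) T5.l9
  (TrL.c (I.mix (nat_lit 29511666) (nat_lit 77433728)) (xR T0.l9 T0.l9)
  (TrL.c (I.mix (nat_lit 29511666) (nat_lit 46070178)) T5.l10
  TrL.n)))))))) (by decide +kernel)
theorem bx3_13 : BoxOK sI cl7 cl13 cl5 t5 t0 b3_13 :=
  box_mk (TrL.c (I.pos (nat_lit 0) (nat_lit 0)) T5.l13
  (TrL.c (I.pos (nat_lit 0) (nat_lit 0)) (xk T0.l6 T0.l6)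
  (TrL.c (I.pos (nat_lit 0) (nat_lit 111196574)) (xR T5.l8 T5.l8)
  (TrL.c (I.pos (nat_lit 0) (nat_lit 77433728)) T0.l7
  (TrL.c (I.pos (nat_lit 0) (nat_lit 0)) (xk T0.l13 T0.l13)
  (TrL.c (I.pos (nat_lit 0) (nat_lit 0)) T5.l9
  (TrL.c (I.mix (nat_lit 29511666) (nat_lit 77433728)) (xR T0.l9 T0.l9)
  (TrL.c (I.mix (nat_lit 29511666) (nat_lit 46070178)) T5.l10
  TrL.n)))))))) (by decide +kernel)
theorem sv3 : StarV sI cl7 cl13 cl5 t5 t0 t3 :=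
  (bt_n (bt_n (bt_n (bt_b bx3_0) (bt_n (bt_b bx3_1) (bt_b bx3_2))) (bt_n (bt_n (bt_b bx3_3) (bt_b bx3_4)) (bt_n (bt_b bx3_5) (bt_b bx3_6)))) (bt_n (bt_n (bt_b bx3_7) (bt_n (bt_b bx3_8) (bt_b bx3_9))) (bt_n (bt_n (bt_b bx3_10) (bt_b bx3_11)) (bt_n (bt_b bx3_12) (bt_b bx3_13)))))
def S3 : StarD := StarD.mk cl7 cl13 cl5 5 0 t3
theorem bx4_0 : BoxOK sI cl13 cl5 cl7 t1 t3 b4_0 :=
  box_mk (TrL.c (I.pos (nat_lit 0) (nat_lit 0)) (xa (xb T1.l0 (xa T1.l0 T1.l0)) (xb T1.l0 T1.l0))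
  (TrL.c (I.pos (nat_lit 0) (nat_lit 0)) (xa (xk T3.l1 T3.l1) (xk T3.l1 T3.l1))
  (TrL.c (I.pos (nat_lit 0) (nat_lit 134217730)) (xR T1.l1 T1.l1)
  (TrL.c (I.pos (nat_lit 0) (nat_lit 110514882)) (xR T3.l2 T3.l2)
  (TrL.c (I.pos (nat_lit 0) (nat_lit 0)) (xa (xk T3.l3 T3.l3) (xk (xb T3.l3 T3.l3) (xb T3.l3 T3.l3)))
  (TrL.c (I.pos (nat_lit 0) (nat_lit 0)) T1.l2
  (TrL.c (I.mix (nat_lit 8088324) (nat_lit 110514882)) (xR T3.l4 T3.l4)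
  (TrL.c (I.mix (nat_lit 8088324) (nat_lit 89478486)) T1.l8
  TrL.n)))))))) (by decide +kernel)
theorem bx4_1 : BoxOK sI cl13 cl5 cl7 t1 t3 b4_1 :=
  box_mk (TrL.c (I.pos (nat_lit 0) (nat_lit 0)) (xa T1.l4 T1.l4)
  (TrL.c (I.pos (nat_lit 0) (nat_lit 0)) T3.l1
  (TrL.c (I.pos (nat_lit 0) (nat_lit 134217730)) (xR T1.l1 T1.l1)
  (TrL.c (I.pos (nat_lit 0) (nat_lit 110514882)) (xR T3.l2 T3.l2)
  (TrL.c (I.pos (nat_lit 0) (nat_lit 0)) (xa T3.l5 (xk T3.l5 T3.l5))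
  (TrL.c (I.pos (nat_lit 0) (nat_lit 0)) T1.l2
  (TrL.c (I.mix (nat_lit 8088324) (nat_lit 110514882)) T3.l4
  (TrL.c (I.mix (nat_lit 8088324) (nat_lit 89478486)) T1.l3
  TrL.n)))))))) (by decide +kernel)
theorem bx4_2 : BoxOK sI cl13 cl5 cl7 t1 t3 b4_2 :=
  box_mk (TrL.c (I.pos (nat_lit 0) (nat_lit 0)) T3.l6
  (TrL.c (I.pos (nat_lit 0) (nat_lit 0)) T1.l1
  (TrL.c (I.mix (nat_lit 8088324) (nat_lit 110514882)) T3.l2
  (TrL.c (I.mix (nat_lit 8088324) (nat_lit 89478486)) T1.l8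
  TrL.n)))) (by decide +kernel)
theorem bx4_3 : BoxOK sI cl13 cl5 cl7 t1 t3 b4_3 :=
  box_mk (TrL.c (I.pos (nat_lit 0) (nat_lit 0)) (xb T1.l13 T1.l13)
  (TrL.c (I.pos (nat_lit 0) (nat_lit 0)) (xk T3.l1 T3.l1)
  (TrL.c (I.pos (nat_lit 0) (nat_lit 134217730)) (xR T1.l1 T1.l10)
  (TrL.c (I.pos (nat_lit 0) (nat_lit 110514882)) (xR T3.l2 T3.l2)
  (TrL.c (I.pos (nat_lit 0) (nat_lit 0)) (xk T3.l13 T3.l13)
  (TrL.c (I.pos (nat_lit 0) (nat_lit 0)) T1.l2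
  (TrL.c (I.mix (nat_lit 8088324) (nat_lit 110514882)) (xR T3.l4 T3.l4)
  (TrL.c (I.mix (nat_lit 8088324) (nat_lit 89478486)) T1.l3
  TrL.n)))))))) (by decide +kernel)
theorem bx4_4 : BoxOK sI cl13 cl5 cl7 t1 t3 b4_4 :=
  box_mk (TrL.c (I.pos (nat_lit 0) (nat_lit 0)) T1.l4
  (TrL.c (I.pos (nat_lit 0) (nat_lit 0)) T3.l6
  (TrL.c (I.pos (nat_lit 0) (nat_lit 134217730)) T1.l1
  (TrL.c (I.pos (nat_lit 0) (nat_lit 110514882)) T3.l2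
  (TrL.c (I.pos (nat_lit 0) (nat_lit 0)) T3.l5
  (TrL.c (I.pos (nat_lit 0) (nat_lit 0)) T1.l2
  (TrL.c (I.mix (nat_lit 8088324) (nat_lit 110514882)) T3.l4
  (TrL.c (I.mix (nat_lit 8088324) (nat_lit 89478486)) T1.l3
  TrL.n)))))))) (by decide +kernel)
theorem bx4_5 : BoxOK sI cl13 cl5 cl7 t1 t3 b4_5 :=
  box_mk (TrL.c (I.pos (nat_lit 0) (nat_lit 0)) T1.l4
  (TrL.c (I.pos (nat_lit 0) (nat_lit 0)) T3.l1
  (TrL.c (I.pos (nat_lit 0) (nat_lit 134217730)) T1.l1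
  (TrL.c (I.pos (nat_lit 0) (nat_lit 110514882)) T3.l2
  (TrL.c (I.pos (nat_lit 0) (nat_lit 0)) T3.l5
  (TrL.c (I.pos (nat_lit 0) (nat_lit 0)) T1.l2
  (TrL.c (I.mix (nat_lit 8088324) (nat_lit 110514882)) T3.l4
  (TrL.c (I.mix (nat_lit 8088324) (nat_lit 89478486)) T1.l3
  TrL.n)))))))) (by decide +kernel)
theorem bx4_6 : BoxOK sI cl13 cl5 cl7 t1 t3 b4_6 :=
  box_mk (TrL.c (I.pos (nat_lit 0) (nat_lit 0)) T1.l4
  (TrL.c (I.pos (nat_lit 0) (nat_lit 0)) T3.l1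
  (TrL.c (I.pos (nat_lit 0) (nat_lit 134217730)) (xR T1.l1 T1.l1)
  (TrL.c (I.pos (nat_lit 0) (nat_lit 110514882)) T3.l2
  (TrL.c (I.pos (nat_lit 0) (nat_lit 0)) T3.l5
  (TrL.c (I.pos (nat_lit 0) (nat_lit 0)) T1.l2
  (TrL.c (I.mix (nat_lit 8088324) (nat_lit 110514882)) T3.l4
  (TrL.c (I.mix (nat_lit 8088324) (nat_lit 89478486)) T1.l3
  TrL.n)))))))) (by decide +kernel)
theorem bx4_7 : BoxOK sI cl13 cl5 cl7 t1 t3 b4_7 :=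
  box_mk (TrL.c (I.pos (nat_lit 0) (nat_lit 0)) T3.l1
  (TrL.c (I.pos (nat_lit 0) (nat_lit 0)) T1.l1
  (TrL.c (I.mix (nat_lit 8088324) (nat_lit 110514882)) (xR T3.l7 T3.l2)
  (TrL.c (I.mix (nat_lit 8088324) (nat_lit 89478486)) T1.l8
  TrL.n)))) (by decide +kernel)
theorem bx4_8 : BoxOK sI cl13 cl5 cl7 t1 t3 b4_8 :=
  box_mk (TrL.c (I.pos (nat_lit 0) (nat_lit 0)) T1.l13
  (TrL.c (I.pos (nat_lit 0) (nat_lit 0)) T3.l1
  (TrL.c (I.pos (nat_lit 0) (nat_lit 134217730)) (xR T1.l1 T1.l1)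
  (TrL.c (I.pos (nat_lit 0) (nat_lit 110514882)) (xR T3.l2 T3.l2)
  (TrL.c (I.pos (nat_lit 0) (nat_lit 0)) (xk T3.l13 T3.l13)
  (TrL.c (I.pos (nat_lit 0) (nat_lit 0)) T1.l2
  (TrL.c (I.mix (nat_lit 8088324) (nat_lit 110514882)) T3.l4
  (TrL.c (I.mix (nat_lit 8088324) (nat_lit 89478486)) T1.l3
  TrL.n)))))))) (by decide +kernel)
theorem bx4_9 : BoxOK sI cl13 cl5 cl7 t1 t3 b4_9 :=
  box_mk (TrL.c (I.pos (nat_lit 0) (nat_lit 0)) (xa (xb T1.l0 T1.l0) (xb T1.l0 T1.l0))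
  (TrL.c (I.pos (nat_lit 0) (nat_lit 0)) (xa (xb T3.l1 T3.l1) (xk (xb T3.l1 T3.l1) T3.l1))
  (TrL.c (I.pos (nat_lit 0) (nat_lit 134217730)) (xR T1.l10 T1.l10)
  (TrL.c (I.pos (nat_lit 0) (nat_lit 110514882)) (xR T3.l2 T3.l2)
  (TrL.c (I.pos (nat_lit 0) (nat_lit 0)) (xa (xb (xk (xa T3.l3 T3.l3) (xa T3.l3 T3.l3)) (xk T3.l3 T3.l3)) (xb (xk (xa T3.l0 (xb T3.l3 T3.l3)) (xa T3.l3 (xb T3.l3 T3.l3))) (xk (xa T3.l3 (xb T3.l3 T3.l3)) (xa T3.l3 (xb T3.l3 T3.l3)))))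
  (TrL.c (I.pos (nat_lit 0) (nat_lit 0)) (xk (xa T1.l2 T1.l2) T1.l2)
  (TrL.c (I.mix (nat_lit 8088324) (nat_lit 110514882)) (xR T3.l4 (xR T3.l4 T3.l4))
  (TrL.c (I.mix (nat_lit 8088324) (nat_lit 89478486)) T1.l8
  TrL.n)))))))) (by decide +kernel)
theorem bx4_10 : BoxOK sI cl13 cl5 cl7 t1 t3 b4_10 :=
  box_mk (TrL.c (I.pos (nat_lit 0) (nat_lit 0)) (xa T1.l0 T1.l0)
  (TrL.c (I.pos (nat_lit 0) (nat_lit 0)) (xk T3.l1 T3.l1)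
  (TrL.c (I.pos (nat_lit 0) (nat_lit 134217730)) (xR T1.l1 T1.l10)
  (TrL.c (I.pos (nat_lit 0) (nat_lit 110514882)) (xR T3.l2 T3.l2)
  (TrL.c (I.pos (nat_lit 0) (nat_lit 0)) (xk (xa (xb T3.l3 T3.l3) (xb T3.l3 (xs T3.l3 (xb T3.l3 (xk T3.l3 T3.l3))))) (xa (xb T3.l3 (xb T3.l3 T3.l3)) (xb T3.l3 (xs (xb T3.l3 T3.l3) (xb T3.l3 (xa T3.l3 (xk T3.l3 T3.l3)))))))
  (TrL.c (I.pos (nat_lit 0) (nat_lit 0)) T1.l2
  (TrL.c (I.mix (nat_lit 8088324) (nat_lit 110514882)) (xR T3.l4 T3.l4)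
  (TrL.c (I.mix (nat_lit 8088324) (nat_lit 89478486)) T1.l8
  TrL.n)))))))) (by decide +kernel)
theorem bx4_11 : BoxOK sI cl13 cl5 cl7 t1 t3 b4_11 :=
  box_mk (TrL.c (I.pos (nat_lit 0) (nat_lit 0)) T1.l13
  (TrL.c (I.pos (nat_lit 0) (nat_lit 0)) T3.l1
  (TrL.c (I.pos (nat_lit 0) (nat_lit 134217730)) (xR T1.l1 T1.l10)
  (TrL.c (I.pos (nat_lit 0) (nat_lit 110514882)) (xR T3.l2 T3.l2)
  (TrL.c (I.pos (nat_lit 0) (nat_lit 0)) (xk T3.l13 T3.l13)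
  (TrL.c (I.pos (nat_lit 0) (nat_lit 0)) T1.l2
  (TrL.c (I.mix (nat_lit 8088324) (nat_lit 110514882)) (xR T3.l4 T3.l4)
  (TrL.c (I.mix (nat_lit 8088324) (nat_lit 89478486)) T1.l8
  TrL.n)))))))) (by decide +kernel)
theorem sv4 : StarV sI cl13 cl5 cl7 t1 t3 t4 :=
  (bt_n (bt_n (bt_n (bt_b bx4_0) (bt_n (bt_b bx4_1) (bt_b bx4_2))) (bt_n (bt_b bx4_3) (bt_n (bt_b bx4_4) (bt_b bx4_5)))) (bt_n (bt_n (bt_b bx4_6) (bt_n (bt_b bx4_7) (bt_b bx4_8))) (bt_n (bt_b bx4_9) (bt_n (bt_b bx4_10) (bt_b bx4_11)))))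
def S4 : StarD := StarD.mk cl13 cl5 cl7 1 3 t4
theorem bx5_0 : BoxOK sI cl13 cl7 cl5 t3 t1 b5_0 :=
  box_mk (TrL.c (I.pos (nat_lit 0) (nat_lit 0)) (xa (xa (xb T3.l0 T3.l0) (xb (xb T3.l0 T3.l0) (xb T3.l0 T3.l0))) (xa (xb (xb T3.l0 T3.l0) (xb T3.l0 T3.l0)) (xb (xb T3.l0 T3.l0) (xb T3.l0 (xs T3.l0 T3.l0)))))
  (TrL.c (I.pos (nat_lit 0) (nat_lit 0)) (xa (xk (xb T1.l7 T1.l7) T1.l7) (xk (xb T1.l7 T1.l7) (xb T1.l7 T1.l7)))
  (TrL.c (I.pos (nat_lit 0) (nat_lit 134217730)) (xR T3.l4 T3.l8)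
  (TrL.c (I.pos (nat_lit 0) (nat_lit 110514882)) (xR T1.l8 T1.l8)
  (TrL.c (I.pos (nat_lit 0) (nat_lit 0)) (xa (xk (xb T1.l9 T1.l9) (xb T1.l9 T1.l9)) (xk (xb (xa T1.l9 T1.l9) (xa T1.l9 (xb T1.l9 (xs T1.l9 (xk T1.l9 T1.l9))))) (xb T1.l9 (xa (xb T1.l9 (xs T1.l9 T1.l9)) (xb T1.l9 (xs T1.l9 (xk (xa T1.l9 T1.l9) (xa T1.l9 (xb T1.l9 T1.l9)))))))))
  (TrL.c (I.pos (nat_lit 0) (nat_lit 0)) T3.l9
  (TrL.c (I.mix (nat_lit 8088324) (nat_lit 110514882)) (xR T1.l10 T1.l10)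
  (TrL.c (I.mix (nat_lit 8088324) (nat_lit 89478486)) T3.l10
  TrL.n)))))))) (by decide +kernel)
theorem bx5_1 : BoxOK sI cl13 cl7 cl5 t3 t1 b5_1 :=
  box_mk (TrL.c (I.pos (nat_lit 0) (nat_lit 0)) T3.l11
  (TrL.c (I.pos (nat_lit 0) (nat_lit 0)) T1.l7
  (TrL.c (I.pos (nat_lit 0) (nat_lit 134217730)) (xR T3.l4 T3.l8)
  (TrL.c (I.pos (nat_lit 0) (nat_lit 110514882)) (xR T1.l8 T1.l8)
  (TrL.c (I.pos (nat_lit 0) (nat_lit 0)) (xk (xa T1.l11 T1.l11) (xa T1.l11 T1.l11))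
  (TrL.c (I.pos (nat_lit 0) (nat_lit 0)) T3.l9
  (TrL.c (I.mix (nat_lit 8088324) (nat_lit 110514882)) T1.l10
  (TrL.c (I.mix (nat_lit 8088324) (nat_lit 89478486)) T3.l10
  TrL.n)))))))) (by decide +kernel)
theorem bx5_2 : BoxOK sI cl13 cl7 cl5 t3 t1 b5_2 :=
  box_mk (TrL.c (I.pos (nat_lit 0) (nat_lit 0)) (xa T3.l11 T3.l11)
  (TrL.c (I.pos (nat_lit 0) (nat_lit 0)) (xa T1.l11 T1.l7)
  (TrL.c (I.pos (nat_lit 0) (nat_lit 134217730)) (xR T3.l2 T3.l8)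
  (TrL.c (I.pos (nat_lit 0) (nat_lit 110514882)) T1.l8
  (TrL.c (I.pos (nat_lit 0) (nat_lit 0)) (xa T1.l7 T1.l11)
  (TrL.c (I.pos (nat_lit 0) (nat_lit 0)) T3.l9
  (TrL.c (I.mix (nat_lit 8088324) (nat_lit 110514882)) T1.l10
  (TrL.c (I.mix (nat_lit 8088324) (nat_lit 89478486)) T3.l4
  TrL.n)))))))) (by decide +kernel)
theorem bx5_3 : BoxOK sI cl13 cl7 cl5 t3 t1 b5_3 :=
  box_mk (TrL.c (I.pos (nat_lit 0) (nat_lit 0)) (xb T3.l0 (xa T3.l0 T3.l12))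
  (TrL.c (I.pos (nat_lit 0) (nat_lit 0)) (xk (xb T1.l7 T1.l7) (xb T1.l7 T1.l7))
  (TrL.c (I.pos (nat_lit 0) (nat_lit 134217730)) (xR T3.l4 T3.l8)
  (TrL.c (I.pos (nat_lit 0) (nat_lit 110514882)) (xR T1.l8 T1.l8)
  (TrL.c (I.pos (nat_lit 0) (nat_lit 0)) (xk (xb T1.l9 T1.l9) (xb T1.l9 T1.l9))
  (TrL.c (I.pos (nat_lit 0) (nat_lit 0)) T3.l9
  (TrL.c (I.mix (nat_lit 8088324) (nat_lit 110514882)) (xR T1.l10 T1.l10)
  (TrL.c (I.mix (nat_lit 8088324) (nat_lit 89478486)) T3.l10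
  TrL.n)))))))) (by decide +kernel)
theorem bx5_4 : BoxOK sI cl13 cl7 cl5 t3 t1 b5_4 :=
  box_mk (TrL.c (I.pos (nat_lit 0) (nat_lit 0)) (xa (xa (xb T3.l11 T3.l11) T3.l11) (xa T3.l11 T3.l11))
  (TrL.c (I.pos (nat_lit 0) (nat_lit 0)) (xa T1.l7 (xa T1.l7 T1.l7))
  (TrL.c (I.pos (nat_lit 0) (nat_lit 134217730)) (xR T3.l4 T3.l8)
  (TrL.c (I.pos (nat_lit 0) (nat_lit 110514882)) T1.l8
  (TrL.c (I.pos (nat_lit 0) (nat_lit 0)) (xa T1.l11 T1.l11)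
  (TrL.c (I.pos (nat_lit 0) (nat_lit 0)) T3.l9
  (TrL.c (I.mix (nat_lit 8088324) (nat_lit 110514882)) (xR T1.l10 T1.l10)
  (TrL.c (I.mix (nat_lit 8088324) (nat_lit 89478486)) T3.l10
  TrL.n)))))))) (by decide +kernel)
theorem bx5_5 : BoxOK sI cl13 cl7 cl5 t3 t1 b5_5 :=
  box_mk (TrL.c (I.pos (nat_lit 0) (nat_lit 0)) T3.l0
  (TrL.c (I.pos (nat_lit 0) (nat_lit 0)) T1.l7
  (TrL.c (I.pos (nat_lit 0) (nat_lit 134217730)) (xR T3.l4 T3.l8)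
  (TrL.c (I.pos (nat_lit 0) (nat_lit 110514882)) (xR T1.l8 T1.l8)
  (TrL.c (I.pos (nat_lit 0) (nat_lit 0)) (xk T1.l12 T1.l12)
  (TrL.c (I.pos (nat_lit 0) (nat_lit 0)) T3.l9
  (TrL.c (I.mix (nat_lit 8088324) (nat_lit 110514882)) T1.l10
  (TrL.c (I.mix (nat_lit 8088324) (nat_lit 89478486)) T3.l10
  TrL.n)))))))) (by decide +kernel)
theorem bx5_6 : BoxOK sI cl13 cl7 cl5 t3 t1 b5_6 :=
  box_mk (TrL.c (I.pos (nat_lit 0) (nat_lit 0)) T3.l11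
  (TrL.c (I.pos (nat_lit 0) (nat_lit 0)) (xa T1.l11 T1.l7)
  (TrL.c (I.pos (nat_lit 0) (nat_lit 134217730)) (xR T3.l2 T3.l8)
  (TrL.c (I.pos (nat_lit 0) (nat_lit 110514882)) T1.l8
  (TrL.c (I.pos (nat_lit 0) (nat_lit 0)) (xa T1.l11 T1.l11)
  (TrL.c (I.pos (nat_lit 0) (nat_lit 0)) T3.l9
  (TrL.c (I.mix (nat_lit 8088324) (nat_lit 110514882)) T1.l10
  (TrL.c (I.mix (nat_lit 8088324) (nat_lit 89478486)) T3.l10
  TrL.n)))))))) (by decide +kernel)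
theorem bx5_7 : BoxOK sI cl13 cl7 cl5 t3 t1 b5_7 :=
  box_mk (TrL.c (I.pos (nat_lit 0) (nat_lit 0)) T3.l11
  (TrL.c (I.pos (nat_lit 0) (nat_lit 0)) T1.l7
  (TrL.c (I.pos (nat_lit 0) (nat_lit 134217730)) (xR T3.l4 T3.l8)
  (TrL.c (I.pos (nat_lit 0) (nat_lit 110514882)) (xR T1.l8 T1.l8)
  (TrL.c (I.pos (nat_lit 0) (nat_lit 0)) T1.l11
  (TrL.c (I.pos (nat_lit 0) (nat_lit 0)) T3.l9
  (TrL.c (I.mix (nat_lit 8088324) (nat_lit 110514882)) T1.l10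
  (TrL.c (I.mix (nat_lit 8088324) (nat_lit 89478486)) T3.l10
  TrL.n)))))))) (by decide +kernel)
theorem bx5_8 : BoxOK sI cl13 cl7 cl5 t3 t1 b5_8 :=
  box_mk (TrL.c (I.pos (nat_lit 0) (nat_lit 0)) (xa (xa (xb T3.l11 T3.l11) T3.l11) (xa T3.l11 T3.l11))
  (TrL.c (I.pos (nat_lit 0) (nat_lit 0)) (xa T1.l7 (xa T1.l7 T1.l7))
  (TrL.c (I.pos (nat_lit 0) (nat_lit 134217730)) (xR T3.l4 T3.l8)
  (TrL.c (I.pos (nat_lit 0) (nat_lit 110514882)) (xR T1.l8 T1.l8)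
  (TrL.c (I.pos (nat_lit 0) (nat_lit 0)) (xa T1.l11 T1.l11)
  (TrL.c (I.pos (nat_lit 0) (nat_lit 0)) T3.l9
  (TrL.c (I.mix (nat_lit 8088324) (nat_lit 110514882)) (xR T1.l10 T1.l10)
  (TrL.c (I.mix (nat_lit 8088324) (nat_lit 89478486)) T3.l10
  TrL.n)))))))) (by decide +kernel)
theorem bx5_9 : BoxOK sI cl13 cl7 cl5 t3 t1 b5_9 :=
  box_mk (TrL.c (I.pos (nat_lit 0) (nat_lit 0)) T3.l11
  (TrL.c (I.pos (nat_lit 0) (nat_lit 0)) T1.l7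
  (TrL.c (I.pos (nat_lit 0) (nat_lit 134217730)) (xR T3.l4 T3.l8)
  (TrL.c (I.pos (nat_lit 0) (nat_lit 110514882)) (xR T1.l8 T1.l8)
  (TrL.c (I.pos (nat_lit 0) (nat_lit 0)) (xb T1.l11 T1.l11)
  (TrL.c (I.pos (nat_lit 0) (nat_lit 0)) T3.l9
  (TrL.c (I.mix (nat_lit 8088324) (nat_lit 110514882)) T1.l10
  (TrL.c (I.mix (nat_lit 8088324) (nat_lit 89478486)) T3.l10
  TrL.n)))))))) (by decide +kernel)
theorem bx5_10 : BoxOK sI cl13 cl7 cl5 t3 t1 b5_10 :=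
  box_mk (TrL.c (I.pos (nat_lit 0) (nat_lit 0)) (xa (xa T3.l11 T3.l11) T3.l11)
  (TrL.c (I.pos (nat_lit 0) (nat_lit 0)) (xa T1.l11 T1.l7)
  (TrL.c (I.pos (nat_lit 0) (nat_lit 134217730)) (xR T3.l2 T3.l8)
  (TrL.c (I.pos (nat_lit 0) (nat_lit 110514882)) T1.l8
  (TrL.c (I.pos (nat_lit 0) (nat_lit 0)) (xa T1.l11 T1.l11)
  (TrL.c (I.pos (nat_lit 0) (nat_lit 0)) T3.l9
  (TrL.c (I.mix (nat_lit 8088324) (nat_lit 110514882)) T1.l10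
  (TrL.c (I.mix (nat_lit 8088324) (nat_lit 89478486)) T3.l4
  TrL.n)))))))) (by decide +kernel)
theorem bx5_11 : BoxOK sI cl13 cl7 cl5 t3 t1 b5_11 :=
  box_mk (TrL.c (I.pos (nat_lit 0) (nat_lit 0)) T3.l12
  (TrL.c (I.pos (nat_lit 0) (nat_lit 0)) T1.l7
  (TrL.c (I.pos (nat_lit 0) (nat_lit 134217730)) (xR T3.l4 T3.l8)
  (TrL.c (I.pos (nat_lit 0) (nat_lit 110514882)) (xR T1.l8 T1.l8)
  (TrL.c (I.pos (nat_lit 0) (nat_lit 0)) (xk T1.l9 T1.l9)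
  (TrL.c (I.pos (nat_lit 0) (nat_lit 0)) T3.l9
  (TrL.c (I.mix (nat_lit 8088324) (nat_lit 110514882)) T1.l10
  (TrL.c (I.mix (nat_lit 8088324) (nat_lit 89478486)) T3.l10
  TrL.n)))))))) (by decide +kernel)
theorem bx5_12 : BoxOK sI cl13 cl7 cl5 t3 t1 b5_12 :=
  box_mk (TrL.c (I.pos (nat_lit 0) (nat_lit 0)) (xa (xb T3.l0 T3.l0) (xa T3.l0 T3.l0))
  (TrL.c (I.pos (nat_lit 0) (nat_lit 0)) (xa (xk T1.l7 T1.l7) (xk (xb T1.l7 (xa T1.l7 T1.l7)) (xb T1.l7 T1.l7)))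
  (TrL.c (I.pos (nat_lit 0) (nat_lit 134217730)) (xR T3.l4 T3.l8)
  (TrL.c (I.pos (nat_lit 0) (nat_lit 110514882)) (xR T1.l8 T1.l8)
  (TrL.c (I.pos (nat_lit 0) (nat_lit 0)) (xa (xk (xb T1.l9 T1.l9) (xb T1.l9 T1.l9)) (xk (xb (xa T1.l9 (xk T1.l9 T1.l9)) (xa T1.l9 (xk T1.l9 T1.l9))) (xb (xa T1.l9 (xb (xk T1.l9 T1.l9) T1.l9)) (xa T1.l9 (xk T1.l9 T1.l9)))))
  (TrL.c (I.pos (nat_lit 0) (nat_lit 0)) (xk (xa T3.l9 T3.l9) (xa T3.l9 T3.l9))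
  (TrL.c (I.mix (nat_lit 8088324) (nat_lit 110514882)) (xR T1.l10 (xR T1.l10 (xR T1.l10 T1.l10)))
  (TrL.c (I.mix (nat_lit 8088324) (nat_lit 89478486)) T3.l10
  TrL.n)))))))) (by decide +kernel)
theorem bx5_13 : BoxOK sI cl13 cl7 cl5 t3 t1 b5_13 :=
  box_mk (TrL.c (I.pos (nat_lit 0) (nat_lit 0)) (xa T3.l0 T3.l0)
  (TrL.c (I.pos (nat_lit 0) (nat_lit 0)) (xk (xa T1.l7 T1.l7) T1.l7)
  (TrL.c (I.pos (nat_lit 0) (nat_lit 134217730)) (xR T3.l4 T3.l8)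
  (TrL.c (I.pos (nat_lit 0) (nat_lit 110514882)) (xR T1.l8 T1.l8)
  (TrL.c (I.pos (nat_lit 0) (nat_lit 0)) (xa (xk T1.l9 T1.l9) T1.l9)
  (TrL.c (I.pos (nat_lit 0) (nat_lit 0)) T3.l9
  (TrL.c (I.mix (nat_lit 8088324) (nat_lit 110514882)) (xR T1.l10 T1.l10)
  (TrL.c (I.mix (nat_lit 8088324) (nat_lit 89478486)) T3.l10
  TrL.n)))))))) (by decide +kernel)
theorem sv5 : StarV sI cl13 cl7 cl5 t3 t1 t5 :=
  (bt_n (bt_n (bt_n (bt_b bx5_0) (bt_n (bt_b bx5_1) (bt_b bx5_2))) (bt_n (bt_n (bt_b bx5_3) (bt_b bx5_4)) (bt_n (bt_b bx5_5) (bt_b bx5_6)))) (bt_n (bt_n (bt_b bx5_7) (bt_n (bt_b bx5_8) (bt_b bx5_9))) (bt_n (bt_n (bt_b bx5_10) (bt_b bx5_11)) (bt_n (bt_b bx5_12) (bt_b bx5_13)))))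
def S5 : StarD := StarD.mk cl13 cl7 cl5 3 1 t5
def G : List StarD := [S0, S1, S2, S3, S4, S5]
theorem so0 : StarOK sI G S0 :=
  star_mk (by decide) (by decide) rfl rfl rfl rfl rfl rfl (rfl : _ = t2) (rfl : _ = t4)
  (st_mk (Pth.l (Pth.l (Pth.l Pth.z))) (nat_lit 142971158) (nat_lit 165874922) (by decide +kernel))
  (st_mk (Pth.l (Pth.l (Pth.l Pth.z))) (nat_lit 179550469) (nat_lit 202939532) (by decide +kernel))
  (st_mk (Pth.l (Pth.l (Pth.l Pth.z))) (nat_lit 222255284) (nat_lit 246302546) (by decide +kernel)) sv0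
theorem so1 : StarOK sI G S1 :=
  star_mk (by decide) (by decide) rfl rfl rfl rfl rfl rfl (rfl : _ = t4) (rfl : _ = t2)
  (st_mk (Pth.l (Pth.l (Pth.l Pth.z))) (nat_lit 97444750) (nat_lit 116398594) (by decide +kernel))
  (st_mk (Pth.l (Pth.l (Pth.l Pth.z))) (nat_lit 133754113) (nat_lit 153165130) (by decide +kernel))
  (st_mk (Pth.l (Pth.l (Pth.l Pth.z))) (nat_lit 176231493) (nat_lit 196276716) (by decide +kernel)) sv1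
theorem so2 : StarOK sI G S2 :=
  star_mk (by decide) (by decide) rfl rfl rfl rfl rfl rfl (rfl : _ = t0) (rfl : _ = t5)
  (st_mk (Pth.l (Pth.l (Pth.l Pth.z))) (nat_lit 240710012) (nat_lit 242763383) (by decide +kernel))
  (st_mk (Pth.l (Pth.l (Pth.l Pth.z))) (nat_lit 276450109) (nat_lit 278995582) (by decide +kernel))
  (st_mk (Pth.l (Pth.l (Pth.l Pth.z))) (nat_lit 317300851) (nat_lit 321580531) (by decide +kernel)) sv2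
theorem so3 : StarOK sI G S3 :=
  star_mk (by decide) (by decide) rfl rfl rfl rfl rfl rfl (rfl : _ = t5) (rfl : _ = t0)
  (st_mk (Pth.l (Pth.l (Pth.l Pth.z))) (nat_lit 96502076) (nat_lit 115220905) (by decide +kernel))
  (st_mk (Pth.l (Pth.l (Pth.l Pth.z))) (nat_lit 131976779) (nat_lit 151103202) (by decide +kernel))
  (st_mk (Pth.l (Pth.l (Pth.l Pth.z))) (nat_lit 173136226) (nat_lit 192851676) (by decide +kernel)) sv3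
theorem so4 : StarOK sI G S4 :=
  star_mk (by decide) (by decide) rfl rfl rfl rfl rfl rfl (rfl : _ = t1) (rfl : _ = t3)
  (st_mk (Pth.l (Pth.l (Pth.l Pth.z))) (nat_lit 238062708) (nat_lit 239867340) (by decide +kernel))
  (st_mk (Pth.l (Pth.l (Pth.l Pth.z))) (nat_lit 272959317) (nat_lit 275163372) (by decide +kernel))
  (st_mk (Pth.l (Pth.l (Pth.l Pth.z))) (nat_lit 313224636) (nat_lit 315958622) (by decide +kernel)) sv4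
theorem so5 : StarOK sI G S5 :=
  star_mk (by decide) (by decide) rfl rfl rfl rfl rfl rfl (rfl : _ = t3) (rfl : _ = t1)
  (st_mk (Pth.l (Pth.l (Pth.l Pth.z))) (nat_lit 139994720) (nat_lit 162286011) (by decide +kernel))
  (st_mk (Pth.l (Pth.l (Pth.l Pth.z))) (nat_lit 174891329) (nat_lit 197524413) (by decide +kernel))
  (st_mk (Pth.l (Pth.l (Pth.l Pth.z))) (nat_lit 215156648) (nat_lit 238269660) (by decide +kernel)) sv5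
theorem ok : GroupOK (nat_lit 150274048) (nat_lit 209387520) G := grp_mk (allS_c so0 (allS_c so1 (allS_c so2 (allS_c so3 (allS_c so4 (allS_c so5 allS_n))))))
theorem cov : GCov G cl5 cl7 cl13 := cov_mk
  ⟨0, by decide, rfl, rfl, rfl⟩ ⟨1, by decide, rfl, rfl, rfl⟩ ⟨2, by decide, rfl, rfl, rfl⟩ ⟨3, by decide, rfl, rfl, rfl⟩ ⟨4, by decide, rfl, rfl, rfl⟩ ⟨5, by decide, rfl, rfl, rfl⟩
end Q246_2

namespace Q246_3
def sI : I := I.pos (nat_lit 209321984) (nat_lit 268435456)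
def b0_0 : Bx := Bx.mk (St.mk (I.pos (nat_lit 153829376) (nat_lit 234651648)) (I.mix (nat_lit 5373952) (nat_lit 56279040)) (I.mix (nat_lit 6586368) (nat_lit 70598656)) (I.pos (nat_lit 133038080) (nat_lit 280444928)) (I.mix (nat_lit 101531648) (nat_lit 52084736)) (I.mix (nat_lit 55803904) (nat_lit 49545216)) (I.mix (nat_lit 75579392) (nat_lit 72515584)))
  false (nat_lit 26268389)
def b0_1 : Bx := Bx.mk (St.mk (I.mix (nat_lit 31424512) (nat_lit 128974848)) (I.mix (nat_lit 5013504) (nat_lit 31555584)) (I.mix (nat_lit 22265856) (nat_lit 11616256)) (I.pos (nat_lit 34013184) (nat_lit 120504320)) (I.mix (nat_lit 32374784) (nat_lit 43302912)) (I.mix (nat_lit 35127296) (nat_lit 25165824)) (I.mix (nat_lit 24412160) (nat_lit 13959168)))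
  false (nat_lit 0)
def b0_2 : Bx := Bx.mk (St.mk (I.pos (nat_lit 91471872) (nat_lit 132218880)) (I.mix (nat_lit 46907392) (nat_lit 6684672)) (I.neg (nat_lit 5062656) (nat_lit 56590336)) (I.pos (nat_lit 74711040) (nat_lit 126926848)) (I.mix (nat_lit 82722816) (nat_lit 28557312)) (I.mix (nat_lit 27148288) (nat_lit 65683456)) (I.mix (nat_lit 19431424) (nat_lit 51183616)))
  false (nat_lit 0)
def b0_3 : Bx := Bx.mk (St.mk (I.mix (nat_lit 43581440) (nat_lit 73580544)) (I.mix (nat_lit 30900224) (nat_lit 4276224)) (I.neg (nat_lit 262144) (nat_lit 24313856)) (I.pos (nat_lit 37502976) (nat_lit 82903040)) (I.mix (nat_lit 44531712) (nat_lit 23347200)) (I.mix (nat_lit 20316160) (nat_lit 29933568)) (I.mix (nat_lit 10059776) (nat_lit 13615104)))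
  false (nat_lit 0)
def b0_4 : Bx := Bx.mk (St.mk (I.pos (nat_lit 196608000) (nat_lit 274120704)) (I.mix (nat_lit 6881280) (nat_lit 35487744)) (I.mix (nat_lit 63307776) (nat_lit 25296896)) (I.pos (nat_lit 211173376) (nat_lit 355893248)) (I.mix (nat_lit 76054528) (nat_lit 50790400)) (I.mix (nat_lit 46891008) (nat_lit 39124992)) (I.mix (nat_lit 69369856) (nat_lit 66732032)))
  false (nat_lit 0)
def b0_5 : Bx := Bx.mk (St.mk (I.mix (nat_lit 43810816) (nat_lit 58621952)) (I.mix (nat_lit 2392064) (nat_lit 9125888)) (I.neg (nat_lit 2883584) (nat_lit 14467072)) (I.pos (nat_lit 40157184) (nat_lit 75743232)) (I.mix (nat_lit 8798208) (nat_lit 13598720)) (I.mix (nat_lit 7241728) (nat_lit 6488064)) (I.mix (nat_lit 3227648) (nat_lit 3866624)))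
  false (nat_lit 0)
def b0_6 : Bx := Bx.mk (St.mk (I.pos (nat_lit 99745792) (nat_lit 174899200)) (I.neg (nat_lit 6766592) (nat_lit 47185920)) (I.neg (nat_lit 10977280) (nat_lit 55754752)) (I.pos (nat_lit 85426176) (nat_lit 176439296)) (I.mix (nat_lit 71778304) (nat_lit 35504128)) (I.mix (nat_lit 33292288) (nat_lit 49152000)) (I.mix (nat_lit 26034176) (nat_lit 47267840)))
  false (nat_lit 0)
def b0_7 : Bx := Bx.mk (St.mk (I.mix (nat_lit 32686080) (nat_lit 90783744)) (I.mix (nat_lit 30392320) (nat_lit 7569408)) (I.neg (nat_lit 212992) (nat_lit 24870912)) (I.pos (nat_lit 35618816) (nat_lit 92864512)) (I.mix (nat_lit 42434560) (nat_lit 30294016)) (I.mix (nat_lit 22708224) (nat_lit 33390592)) (I.mix (nat_lit 12533760) (nat_lit 18612224)))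
  false (nat_lit 0)
def b0_8 : Bx := Bx.mk (St.mk (I.pos (nat_lit 165953536) (nat_lit 216186880)) (I.mix (nat_lit 10108928) (nat_lit 56573952)) (I.mix (nat_lit 10829824) (nat_lit 70467584)) (I.pos (nat_lit 158728192) (nat_lit 247824384)) (I.mix (nat_lit 124223488) (nat_lit 46202880)) (I.mix (nat_lit 95354880) (nat_lit 62144512)) (I.mix (nat_lit 95535104) (nat_lit 63389696)))
  false (nat_lit 1380330)
def b0_9 : Bx := Bx.mk (St.mk (I.mix (nat_lit 47120384) (nat_lit 120635392)) (I.mix (nat_lit 14794752) (nat_lit 33996800)) (I.mix (nat_lit 21659648) (nat_lit 13778944)) (I.pos (nat_lit 35405824) (nat_lit 113573888)) (I.mix (nat_lit 46432256) (nat_lit 30277632)) (I.mix (nat_lit 39059456) (nat_lit 26427392)) (I.mix (nat_lit 20545536) (nat_lit 14630912)))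
  false (nat_lit 0)
def b0_10 : Bx := Bx.mk (St.mk (I.pos (nat_lit 94388224) (nat_lit 116441088)) (I.mix (nat_lit 2883584) (nat_lit 9371648)) (I.neg (nat_lit 4489216) (nat_lit 20627456)) (I.pos (nat_lit 76922880) (nat_lit 115834880)) (I.mix (nat_lit 10567680) (nat_lit 14352384)) (I.mix (nat_lit 8224768) (nat_lit 6242304)) (I.mix (nat_lit 6635520) (nat_lit 5357568)))
  false (nat_lit 0)
def b0_11 : Bx := Bx.mk (St.mk (I.pos (nat_lit 189497344) (nat_lit 236535808)) (I.pos (nat_lit 9388032) (nat_lit 54820864)) (I.mix (nat_lit 7143424) (nat_lit 65568768)) (I.pos (nat_lit 213057536) (nat_lit 276480000)) (I.mix (nat_lit 86720512) (nat_lit 65667072)) (I.mix (nat_lit 65896448) (nat_lit 48365568)) (I.mix (nat_lit 103825408) (nat_lit 67223552)))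
  false (nat_lit 14733021)
def b0_12 : Bx := Bx.mk (St.mk (I.pos (nat_lit 141082624) (nat_lit 209813504)) (I.mix (nat_lit 35389440) (nat_lit 16662528)) (I.mix (nat_lit 48250880) (nat_lit 16744448)) (I.pos (nat_lit 123977728) (nat_lit 226918400)) (I.mix (nat_lit 52789248) (nat_lit 44302336)) (I.mix (nat_lit 45481984) (nat_lit 41910272)) (I.mix (nat_lit 46039040) (nat_lit 41582592)))
  false (nat_lit 0)
def b0_13 : Bx := Bx.mk (St.mk (I.pos (nat_lit 170737664) (nat_lit 209321984)) (I.mix (nat_lit 11993088) (nat_lit 29196288)) (I.mix (nat_lit 16908288) (nat_lit 36421632)) (I.pos (nat_lit 166985728) (nat_lit 225804288)) (I.mix (nat_lit 86016000) (nat_lit 51314688)) (I.mix (nat_lit 87375872) (nat_lit 43270144)) (I.mix (nat_lit 93601792) (nat_lit 43499520)))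
  false (nat_lit 0)
def t0 : BTr := (BTr.n (BTr.n (BTr.n (BTr.b b0_0) (BTr.n (BTr.b b0_1) (BTr.b b0_2))) (BTr.n (BTr.n (BTr.b b0_3) (BTr.b b0_4)) (BTr.n (BTr.b b0_5) (BTr.b b0_6)))) (BTr.n (BTr.n (BTr.b b0_7) (BTr.n (BTr.b b0_8) (BTr.b b0_9))) (BTr.n (BTr.n (BTr.b b0_10) (BTr.b b0_11)) (BTr.n (BTr.b b0_12) (BTr.b b0_13)))))
namespace T0
def l0 : Tr := Tr.L (Pth.l (Pth.l (Pth.l Pth.z)))
def l1 : Tr := Tr.L (Pth.l (Pth.l (Pth.r (Pth.l Pth.z))))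
def l2 : Tr := Tr.L (Pth.l (Pth.l (Pth.r (Pth.r Pth.z))))
def l3 : Tr := Tr.L (Pth.l (Pth.r (Pth.l (Pth.l Pth.z))))
def l4 : Tr := Tr.L (Pth.l (Pth.r (Pth.l (Pth.r Pth.z))))
def l5 : Tr := Tr.L (Pth.l (Pth.r (Pth.r (Pth.l Pth.z))))
def l6 : Tr := Tr.L (Pth.l (Pth.r (Pth.r (Pth.r Pth.z))))
def l7 : Tr := Tr.L (Pth.r (Pth.l (Pth.l Pth.z)))
def l8 : Tr := Tr.L (Pth.r (Pth.l (Pth.r (Pth.l Pth.z))))
def l9 : Tr := Tr.L (Pth.r (Pth.l (Pth.r (Pth.r Pth.z))))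
def l10 : Tr := Tr.L (Pth.r (Pth.r (Pth.l (Pth.l Pth.z))))
def l11 : Tr := Tr.L (Pth.r (Pth.r (Pth.l (Pth.r Pth.z))))
def l12 : Tr := Tr.L (Pth.r (Pth.r (Pth.r (Pth.l Pth.z))))
def l13 : Tr := Tr.L (Pth.r (Pth.r (Pth.r (Pth.r Pth.z))))
end T0
def b1_0 : Bx := Bx.mk (St.mk (I.pos (nat_lit 153370624) (nat_lit 239714304)) (I.mix (nat_lit 4636672) (nat_lit 48381952)) (I.mix (nat_lit 7045120) (nat_lit 75759616)) (I.pos (nat_lit 85344256) (nat_lit 233783296)) (I.mix (nat_lit 103170048) (nat_lit 60424192)) (I.mix (nat_lit 64913408) (nat_lit 57278464)) (I.mix (nat_lit 88064000) (nat_lit 79364096)))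
  false (nat_lit 50736499)
def b1_1 : Bx := Bx.mk (St.mk (I.mix (nat_lit 26607616) (nat_lit 152453120)) (I.mix (nat_lit 4194304) (nat_lit 26247168)) (I.mix (nat_lit 11386880) (nat_lit 19316736)) (I.mix (nat_lit 9322496) (nat_lit 96452608)) (I.mix (nat_lit 38486016) (nat_lit 32768000)) (I.mix (nat_lit 24985600) (nat_lit 21839872)) (I.mix (nat_lit 20955136) (nat_lit 16662528)))
  false (nat_lit 0)
def b1_2 : Bx := Bx.mk (St.mk (I.pos (nat_lit 115179520) (nat_lit 153829376)) (I.mix (nat_lit 39534592) (nat_lit 5931008)) (I.mix (nat_lit 46022656) (nat_lit 2113536)) (I.pos (nat_lit 49840128) (nat_lit 106446848)) (I.mix (nat_lit 77168640) (nat_lit 27770880)) (I.mix (nat_lit 26607616) (nat_lit 61292544)) (I.mix (nat_lit 23052288) (nat_lit 54050816)))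
  false (nat_lit 0)
def b1_3 : Bx := Bx.mk (St.mk (I.mix (nat_lit 20037632) (nat_lit 113229824)) (I.mix (nat_lit 24182784) (nat_lit 2686976)) (I.mix (nat_lit 20594688) (nat_lit 2424832)) (I.mix (nat_lit 6127616) (nat_lit 61292544)) (I.mix (nat_lit 41680896) (nat_lit 17416192)) (I.mix (nat_lit 16285696) (nat_lit 29671424)) (I.mix (nat_lit 9584640) (nat_lit 18497536)))
  false (nat_lit 0)
def b1_4 : Bx := Bx.mk (St.mk (I.pos (nat_lit 196165632) (nat_lit 273154048)) (I.mix (nat_lit 7602176) (nat_lit 31391744)) (I.mix (nat_lit 35880960) (nat_lit 43188224)) (I.pos (nat_lit 168001536) (nat_lit 307396608)) (I.mix (nat_lit 72794112) (nat_lit 40828928)) (I.mix (nat_lit 42467328) (nat_lit 33996800)) (I.mix (nat_lit 69238784) (nat_lit 56475648)))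
  false (nat_lit 39236997)
def b1_5 : Bx := Bx.mk (St.mk (I.pos (nat_lit 118095872) (nat_lit 138199040)) (I.mix (nat_lit 2523136) (nat_lit 7520256)) (I.mix (nat_lit 9715712) (nat_lit 2244608)) (I.pos (nat_lit 52330496) (nat_lit 90079232)) (I.mix (nat_lit 10076160) (nat_lit 12320768)) (I.mix (nat_lit 7536640) (nat_lit 5226496)) (I.mix (nat_lit 7012352) (nat_lit 4325376)))
  false (nat_lit 0)
def b1_6 : Bx := Bx.mk (St.mk (I.mix (nat_lit 14237696) (nat_lit 46645248)) (I.mix (nat_lit 737280) (nat_lit 2080768)) (I.mix (nat_lit 2752512) (nat_lit 802816)) (I.mix (nat_lit 2899968) (nat_lit 25853952)) (I.mix (nat_lit 1032192) (nat_lit 2342912)) (I.mix (nat_lit 966656) (nat_lit 868352)) (I.mix (nat_lit 720896) (nat_lit 688128)))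
  false (nat_lit 0)
def b1_7 : Bx := Bx.mk (St.mk (I.pos (nat_lit 114458624) (nat_lit 189743104)) (I.neg (nat_lit 3735552) (nat_lit 41943040)) (I.neg (nat_lit 2998272) (nat_lit 46317568)) (I.pos (nat_lit 63422464) (nat_lit 149471232)) (I.mix (nat_lit 65191936) (nat_lit 34095104)) (I.mix (nat_lit 32669696) (nat_lit 43417600)) (I.mix (nat_lit 28753920) (nat_lit 44941312)))
  false (nat_lit 39742455)
def b1_8 : Bx := Bx.mk (St.mk (I.mix (nat_lit 24887296) (nat_lit 126844928)) (I.mix (nat_lit 24363008) (nat_lit 7159808)) (I.mix (nat_lit 20086784) (nat_lit 2375680)) (I.mix (nat_lit 7127040) (nat_lit 72302592)) (I.mix (nat_lit 36585472) (nat_lit 28737536)) (I.mix (nat_lit 19415040) (nat_lit 27607040)) (I.mix (nat_lit 11206656) (nat_lit 19529728)))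
  false (nat_lit 0)
def b1_9 : Bx := Bx.mk (St.mk (I.pos (nat_lit 173899776) (nat_lit 214466560)) (I.mix (nat_lit 13205504) (nat_lit 41549824)) (I.mix (nat_lit 6373376) (nat_lit 66895872)) (I.pos (nat_lit 120782848) (nat_lit 192102400)) (I.mix (nat_lit 116359168) (nat_lit 41222144)) (I.mix (nat_lit 94011392) (nat_lit 51232768)) (I.mix (nat_lit 109051904) (nat_lit 54984704)))
  false (nat_lit 0)
def b1_10 : Bx := Bx.mk (St.mk (I.mix (nat_lit 24805376) (nat_lit 144130048)) (I.mix (nat_lit 16695296) (nat_lit 26771456)) (I.mix (nat_lit 16531456) (nat_lit 20791296)) (I.mix (nat_lit 8617984) (nat_lit 88653824)) (I.mix (nat_lit 47415296) (nat_lit 24821760)) (I.mix (nat_lit 38043648) (nat_lit 21561344)) (I.mix (nat_lit 26542080) (nat_lit 14581760)))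
  false (nat_lit 0)
def b1_11 : Bx := Bx.mk (St.mk (I.pos (nat_lit 148914176) (nat_lit 215285760)) (I.mix (nat_lit 32587776) (nat_lit 10272768)) (I.mix (nat_lit 38404096) (nat_lit 19382272)) (I.pos (nat_lit 91422720) (nat_lit 185581568)) (I.mix (nat_lit 52281344) (nat_lit 45826048)) (I.mix (nat_lit 44957696) (nat_lit 39206912)) (I.mix (nat_lit 48267264) (nat_lit 41140224)))
  false (nat_lit 59989603)
def b1_12 : Bx := Bx.mk (St.mk (I.pos (nat_lit 175456256) (nat_lit 211763200)) (I.mix (nat_lit 15613952) (nat_lit 22609920)) (I.mix (nat_lit 11042816) (nat_lit 38780928)) (I.pos (nat_lit 124387328) (nat_lit 183386112)) (I.mix (nat_lit 90030080) (nat_lit 49709056)) (I.mix (nat_lit 86720512) (nat_lit 39616512)) (I.mix (nat_lit 100319232) (nat_lit 43155456)))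
  false (nat_lit 3841787)
def b1_13 : Bx := Bx.mk (St.mk (I.pos (nat_lit 191545344) (nat_lit 239026176)) (I.pos (nat_lit 5767168) (nat_lit 47038464)) (I.pos (nat_lit 4079616) (nat_lit 73695232)) (I.pos (nat_lit 169394176) (nat_lit 229703680)) (I.mix (nat_lit 86474752) (nat_lit 61997056)) (I.mix (nat_lit 66912256) (nat_lit 49987584)) (I.mix (nat_lit 106954752) (nat_lit 58867712)))
  false (nat_lit 48380994)
def t1 : BTr := (BTr.n (BTr.n (BTr.n (BTr.b b1_0) (BTr.n (BTr.b b1_1) (BTr.b b1_2))) (BTr.n (BTr.n (BTr.b b1_3) (BTr.b b1_4)) (BTr.n (BTr.b b1_5) (BTr.b b1_6)))) (BTr.n (BTr.n (BTr.b b1_7) (BTr.n (BTr.b b1_8) (BTr.b b1_9))) (BTr.n (BTr.n (BTr.b b1_10) (BTr.b b1_11)) (BTr.n (BTr.b b1_12) (BTr.b b1_13)))))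
namespace T1
def l0 : Tr := Tr.L (Pth.l (Pth.l (Pth.l Pth.z)))
def l1 : Tr := Tr.L (Pth.l (Pth.l (Pth.r (Pth.l Pth.z))))
def l2 : Tr := Tr.L (Pth.l (Pth.l (Pth.r (Pth.r Pth.z))))
def l3 : Tr := Tr.L (Pth.l (Pth.r (Pth.l (Pth.l Pth.z))))
def l4 : Tr := Tr.L (Pth.l (Pth.r (Pth.l (Pth.r Pth.z))))
def l5 : Tr := Tr.L (Pth.l (Pth.r (Pth.r (Pth.l Pth.z))))
def l6 : Tr := Tr.L (Pth.l (Pth.r (Pth.r (Pth.r Pth.z))))
def l7 : Tr := Tr.L (Pth.r (Pth.l (Pth.l Pth.z)))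
def l8 : Tr := Tr.L (Pth.r (Pth.l (Pth.r (Pth.l Pth.z))))
def l9 : Tr := Tr.L (Pth.r (Pth.l (Pth.r (Pth.r Pth.z))))
def l10 : Tr := Tr.L (Pth.r (Pth.r (Pth.l (Pth.l Pth.z))))
def l11 : Tr := Tr.L (Pth.r (Pth.r (Pth.l (Pth.r Pth.z))))
def l12 : Tr := Tr.L (Pth.r (Pth.r (Pth.r (Pth.l Pth.z))))
def l13 : Tr := Tr.L (Pth.r (Pth.r (Pth.r (Pth.r Pth.z))))
end T1
def b2_0 : Bx := Bx.mk (St.mk (I.pos (nat_lit 153698304) (nat_lit 226394112)) (I.mix (nat_lit 6537216) (nat_lit 69156864)) (I.mix (nat_lit 7979008) (nat_lit 84951040)) (I.pos (nat_lit 230850560) (nat_lit 347602944)) (I.mix (nat_lit 110985216) (nat_lit 66142208)) (I.mix (nat_lit 57753600) (nat_lit 54280192)) (I.mix (nat_lit 78856192) (nat_lit 75530240)))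
  false (nat_lit 78581706)
def b2_1 : Bx := Bx.mk (St.mk (I.pos (nat_lit 19988480) (nat_lit 77742080)) (I.mix (nat_lit 13205504) (nat_lit 46923776)) (I.mix (nat_lit 32505856) (nat_lit 2277376)) (I.pos (nat_lit 142082048) (nat_lit 163266560)) (I.mix (nat_lit 31834112) (nat_lit 55132160)) (I.mix (nat_lit 39190528) (nat_lit 25870336)) (I.mix (nat_lit 21528576) (nat_lit 10452992)))
  false (nat_lit 0)
def b2_2 : Bx := Bx.mk (St.mk (I.pos (nat_lit 48283648) (nat_lit 96632832)) (I.mix (nat_lit 62603264) (nat_lit 14909440)) (I.neg (nat_lit 11485184) (nat_lit 62078976)) (I.pos (nat_lit 145489920) (nat_lit 181583872)) (I.mix (nat_lit 86867968) (nat_lit 27082752)) (I.mix (nat_lit 25853952) (nat_lit 67026944)) (I.mix (nat_lit 20512768) (nat_lit 40976384)))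
  false (nat_lit 0)
def b2_3 : Bx := Bx.mk (St.mk (I.neg (nat_lit 19988480) (nat_lit 77742080)) (I.mix (nat_lit 47038464) (nat_lit 14303232)) (I.mix (nat_lit 32505856) (nat_lit 2277376)) (I.pos (nat_lit 142082048) (nat_lit 163266560)) (I.mix (nat_lit 55132160) (nat_lit 31834112)) (I.mix (nat_lit 25870336) (nat_lit 39190528)) (I.mix (nat_lit 21528576) (nat_lit 10452992)))
  true (nat_lit 0)
def b2_4 : Bx := Bx.mk (St.mk (I.pos (nat_lit 62472192) (nat_lit 154746880)) (I.neg (nat_lit 8323072) (nat_lit 62423040)) (I.neg (nat_lit 4096000) (nat_lit 63848448)) (I.pos (nat_lit 155500544) (nat_lit 231391232)) (I.mix (nat_lit 81788928) (nat_lit 41746432)) (I.mix (nat_lit 36847616) (nat_lit 52723712)) (I.mix (nat_lit 32604160) (nat_lit 46088192)))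
  false (nat_lit 0)
def b2_5 : Bx := Bx.mk (St.mk (I.mix (nat_lit 43302912) (nat_lit 8945664)) (I.mix (nat_lit 43483136) (nat_lit 9338880)) (I.neg (nat_lit 81920) (nat_lit 11059200)) (I.pos (nat_lit 139591680) (nat_lit 154763264)) (I.mix (nat_lit 30343168) (nat_lit 40599552)) (I.mix (nat_lit 24707072) (nat_lit 33652736)) (I.mix (nat_lit 5750784) (nat_lit 6488064)))
  true (nat_lit 0)
def b2_6 : Bx := Bx.mk (St.mk (I.pos (nat_lit 148258816) (nat_lit 197001216)) (I.mix (nat_lit 819200) (nat_lit 63602688)) (I.pos (nat_lit 2867200) (nat_lit 83197952)) (I.pos (nat_lit 231538688) (nat_lit 303120384)) (I.mix (nat_lit 126189568) (nat_lit 41320448)) (I.mix (nat_lit 103284736) (nat_lit 56410112)) (I.mix (nat_lit 97255424) (nat_lit 62144512)))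
  false (nat_lit 59694289)
def b2_7 : Bx := Bx.mk (St.mk (I.mix (nat_lit 8945664) (nat_lit 43319296)) (I.mix (nat_lit 9338880) (nat_lit 43483136)) (I.neg (nat_lit 81920) (nat_lit 11059200)) (I.pos (nat_lit 139591680) (nat_lit 154763264)) (I.mix (nat_lit 40599552) (nat_lit 30343168)) (I.mix (nat_lit 33652736) (nat_lit 24707072)) (I.mix (nat_lit 5750784) (nat_lit 6488064)))
  false (nat_lit 0)
def b2_8 : Bx := Bx.mk (St.mk (I.pos (nat_lit 187564032) (nat_lit 293535744)) (I.mix (nat_lit 29802496) (nat_lit 50151424)) (I.mix (nat_lit 120537088) (nat_lit 47415296)) (I.pos (nat_lit 289636352) (nat_lit 460767232)) (I.mix (nat_lit 72056832) (nat_lit 59146240)) (I.mix (nat_lit 60686336) (nat_lit 44056576)) (I.mix (nat_lit 106627072) (nat_lit 85524480)))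
  false (nat_lit 70341886)
def b2_9 : Bx := Bx.mk (St.mk (I.pos (nat_lit 123092992) (nat_lit 195657728)) (I.mix (nat_lit 36962304) (nat_lit 21856256)) (I.mix (nat_lit 39829504) (nat_lit 30801920)) (I.pos (nat_lit 198656000) (nat_lit 286195712)) (I.mix (nat_lit 55033856) (nat_lit 45694976)) (I.mix (nat_lit 43958272) (nat_lit 39043072)) (I.mix (nat_lit 42303488) (nat_lit 36634624)))
  false (nat_lit 0)
def b2_10 : Bx := Bx.mk (St.mk (I.pos (nat_lit 152174592) (nat_lit 196034560)) (I.mix (nat_lit 4800512) (nat_lit 41746432)) (I.mix (nat_lit 5603328) (nat_lit 58163200)) (I.pos (nat_lit 238534656) (nat_lit 290848768)) (I.mix (nat_lit 109690880) (nat_lit 56868864)) (I.mix (nat_lit 103661568) (nat_lit 47169536)) (I.mix (nat_lit 101580800) (nat_lit 47235072)))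
  false (nat_lit 12789078)
def b2_11 : Bx := Bx.mk (St.mk (I.pos (nat_lit 172883968) (nat_lit 226590720)) (I.pos (nat_lit 19447808) (nat_lit 66846720)) (I.pos (nat_lit 5996544) (nat_lit 80969728)) (I.pos (nat_lit 281935872) (nat_lit 337788928)) (I.mix (nat_lit 99319808) (nat_lit 75186176)) (I.mix (nat_lit 71106560) (nat_lit 55771136)) (I.mix (nat_lit 107380736) (nat_lit 78249984)))
  false (nat_lit 70664100)
def t2 : BTr := (BTr.n (BTr.n (BTr.n (BTr.b b2_0) (BTr.n (BTr.b b2_1) (BTr.b b2_2))) (BTr.n (BTr.b b2_3) (BTr.n (BTr.b b2_4) (BTr.b b2_5)))) (BTr.n (BTr.n (BTr.b b2_6) (BTr.n (BTr.b b2_7) (BTr.b b2_8))) (BTr.n (BTr.b b2_9) (BTr.n (BTr.b b2_10) (BTr.b b2_11)))))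
namespace T2
def l0 : Tr := Tr.L (Pth.l (Pth.l (Pth.l Pth.z)))
def l1 : Tr := Tr.L (Pth.l (Pth.l (Pth.r (Pth.l Pth.z))))
def l2 : Tr := Tr.L (Pth.l (Pth.l (Pth.r (Pth.r Pth.z))))
def l3 : Tr := Tr.L (Pth.l (Pth.r (Pth.l Pth.z)))
def l4 : Tr := Tr.L (Pth.l (Pth.r (Pth.r (Pth.l Pth.z))))
def l5 : Tr := Tr.L (Pth.l (Pth.r (Pth.r (Pth.r Pth.z))))
def l6 : Tr := Tr.L (Pth.r (Pth.l (Pth.l Pth.z)))
def l7 : Tr := Tr.L (Pth.r (Pth.l (Pth.r (Pth.l Pth.z))))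
def l8 : Tr := Tr.L (Pth.r (Pth.l (Pth.r (Pth.r Pth.z))))
def l9 : Tr := Tr.L (Pth.r (Pth.r (Pth.l Pth.z)))
def l10 : Tr := Tr.L (Pth.r (Pth.r (Pth.r (Pth.l Pth.z))))
def l11 : Tr := Tr.L (Pth.r (Pth.r (Pth.r (Pth.r Pth.z))))
end T2
def b3_0 : Bx := Bx.mk (St.mk (I.pos (nat_lit 153567232) (nat_lit 237584384)) (I.mix (nat_lit 4177920) (nat_lit 43286528)) (I.mix (nat_lit 8601600) (nat_lit 91914240)) (I.pos (nat_lit 85573632) (nat_lit 218267648)) (I.mix (nat_lit 100646912) (nat_lit 63782912)) (I.mix (nat_lit 70893568) (nat_lit 65126400)) (I.mix (nat_lit 100892672) (nat_lit 86032384)))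
  false (nat_lit 51454320)
def b3_1 : Bx := Bx.mk (St.mk (I.pos (nat_lit 120406016) (nat_lit 187252736)) (I.neg (nat_lit 6815744) (nat_lit 46268416)) (I.mix (nat_lit 38879232) (nat_lit 2785280)) (I.pos (nat_lit 69074944) (nat_lit 145686528)) (I.mix (nat_lit 61718528) (nat_lit 33701888)) (I.mix (nat_lit 30539776) (nat_lit 39321600)) (I.mix (nat_lit 28033024) (nat_lit 40239104)))
  false (nat_lit 24446853)
def b3_2 : Bx := Bx.mk (St.mk (I.mix (nat_lit 22036480) (nat_lit 125026304)) (I.mix (nat_lit 24641536) (nat_lit 3555328)) (I.mix (nat_lit 14286848) (nat_lit 6619136)) (I.mix (nat_lit 6946816) (nat_lit 70270976)) (I.mix (nat_lit 30113792) (nat_lit 29179904)) (I.mix (nat_lit 17285120) (nat_lit 24444928)) (I.mix (nat_lit 10584064) (nat_lit 16269312)))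
  false (nat_lit 0)
def b3_3 : Bx := Bx.mk (St.mk (I.pos (nat_lit 169476096) (nat_lit 209551360)) (I.mix (nat_lit 13975552) (nat_lit 38944768)) (I.pos (nat_lit 7438336) (nat_lit 80478208)) (I.pos (nat_lit 110166016) (nat_lit 178339840)) (I.mix (nat_lit 117161984) (nat_lit 42647552)) (I.mix (nat_lit 99123200) (nat_lit 46694400)) (I.mix (nat_lit 117522432) (nat_lit 42631168)))
  false (nat_lit 44161260)
def b3_4 : Bx := Bx.mk (St.mk (I.mix (nat_lit 23576576) (nat_lit 140771328)) (I.mix (nat_lit 11812864) (nat_lit 25739264)) (I.mix (nat_lit 4227072) (nat_lit 28409856)) (I.mix (nat_lit 8208384) (nat_lit 84213760)) (I.mix (nat_lit 54116352) (nat_lit 27688960)) (I.mix (nat_lit 42909696) (nat_lit 21331968)) (I.mix (nat_lit 31227904) (nat_lit 13058048)))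
  false (nat_lit 0)
def b3_5 : Bx := Bx.mk (St.mk (I.pos (nat_lit 157057024) (nat_lit 211271680)) (I.mix (nat_lit 31113216) (nat_lit 6275072)) (I.mix (nat_lit 16842752) (nat_lit 33849344)) (I.pos (nat_lit 100237312) (nat_lit 178470912)) (I.mix (nat_lit 50102272) (nat_lit 53133312)) (I.mix (nat_lit 44613632) (nat_lit 43466752)) (I.mix (nat_lit 43204608) (nat_lit 46530560)))
  false (nat_lit 51945691)
def b3_6 : Bx := Bx.mk (St.mk (I.pos (nat_lit 157761536) (nat_lit 183566336)) (I.neg (nat_lit 10256384) (nat_lit 36438016)) (I.mix (nat_lit 26411008) (nat_lit 2752512)) (I.pos (nat_lit 99532800) (nat_lit 146063360)) (I.mix (nat_lit 26673152) (nat_lit 16695296)) (I.mix (nat_lit 11272192) (nat_lit 14745600)) (I.mix (nat_lit 11075584) (nat_lit 15400960)))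
  false (nat_lit 0)
def b3_7 : Bx := Bx.mk (St.mk (I.mix (nat_lit 13647872) (nat_lit 121405440)) (I.mix (nat_lit 15319040) (nat_lit 2408448)) (I.mix (nat_lit 7176192) (nat_lit 7127040)) (I.mix (nat_lit 65536) (nat_lit 70664192)) (I.mix (nat_lit 11894784) (nat_lit 13910016)) (I.mix (nat_lit 7274496) (nat_lit 8421376)) (I.mix (nat_lit 4751360) (nat_lit 5996544)))
  false (nat_lit 0)
def b3_8 : Bx := Bx.mk (St.mk (I.mix (nat_lit 29769728) (nat_lit 155746304)) (I.mix (nat_lit 9617408) (nat_lit 24920064)) (I.mix (nat_lit 5177344) (nat_lit 29294592)) (I.mix (nat_lit 9519104) (nat_lit 98533376)) (I.mix (nat_lit 51068928) (nat_lit 35209216)) (I.mix (nat_lit 34291712) (nat_lit 28393472)) (I.mix (nat_lit 29310976) (nat_lit 20529152)))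
  false (nat_lit 0)
def b3_9 : Bx := Bx.mk (St.mk (I.pos (nat_lit 113901568) (nat_lit 158285824)) (I.mix (nat_lit 43270144) (nat_lit 12124160)) (I.mix (nat_lit 37715968) (nat_lit 18087936)) (I.pos (nat_lit 49250304) (nat_lit 110772224)) (I.mix (nat_lit 73728000) (nat_lit 35553280)) (I.mix (nat_lit 26017792) (nat_lit 59899904)) (I.mix (nat_lit 22069248) (nat_lit 52232192)))
  false (nat_lit 13738935)
def b3_10 : Bx := Bx.mk (St.mk (I.mix (nat_lit 19955712) (nat_lit 116310016)) (I.mix (nat_lit 24952832) (nat_lit 5734400)) (I.mix (nat_lit 14188544) (nat_lit 7192576)) (I.mix (nat_lit 6340608) (nat_lit 63668224)) (I.mix (nat_lit 38338560) (nat_lit 25018368)) (I.mix (nat_lit 19496960) (nat_lit 26656768)) (I.mix (nat_lit 10469376) (nat_lit 15040512)))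
  false (nat_lit 0)
def b3_11 : Bx := Bx.mk (St.mk (I.pos (nat_lit 191086592) (nat_lit 289996800)) (I.mix (nat_lit 25837568) (nat_lit 33357824)) (I.mix (nat_lit 36470784) (nat_lit 79364096)) (I.pos (nat_lit 152764416) (nat_lit 333004800)) (I.mix (nat_lit 70025216) (nat_lit 53624832)) (I.mix (nat_lit 54755328) (nat_lit 43778048)) (I.mix (nat_lit 94306304) (nat_lit 73154560)))
  false (nat_lit 73494257)
def b3_12 : Bx := Bx.mk (St.mk (I.pos (nat_lit 184287232) (nat_lit 234094592)) (I.pos (nat_lit 9371648) (nat_lit 41910272)) (I.pos (nat_lit 32194560) (nat_lit 90062848)) (I.pos (nat_lit 151453696) (nat_lit 209485824)) (I.mix (nat_lit 87523328) (nat_lit 69926912)) (I.mix (nat_lit 74334208) (nat_lit 57081856)) (I.mix (nat_lit 110526464) (nat_lit 74956800)))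
  false (nat_lit 55604804)
def b3_13 : Bx := Bx.mk (St.mk (I.pos (nat_lit 171245568) (nat_lit 209240064)) (I.mix (nat_lit 18530304) (nat_lit 16695296)) (I.pos (nat_lit 2670592) (nat_lit 48726016)) (I.pos (nat_lit 111329280) (nat_lit 174653440)) (I.mix (nat_lit 78397440) (nat_lit 48119808)) (I.mix (nat_lit 81215488) (nat_lit 38977536)) (I.mix (nat_lit 91848704) (nat_lit 39550976)))
  false (nat_lit 40656839)
def t3 : BTr := (BTr.n (BTr.n (BTr.n (BTr.b b3_0) (BTr.n (BTr.b b3_1) (BTr.b b3_2))) (BTr.n (BTr.n (BTr.b b3_3) (BTr.b b3_4)) (BTr.n (BTr.b b3_5) (BTr.b b3_6)))) (BTr.n (BTr.n (BTr.b b3_7) (BTr.n (BTr.b b3_8) (BTr.b b3_9))) (BTr.n (BTr.n (BTr.b b3_10) (BTr.b b3_11)) (BTr.n (BTr.b b3_12) (BTr.b b3_13)))))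
namespace T3
def l0 : Tr := Tr.L (Pth.l (Pth.l (Pth.l Pth.z)))
def l1 : Tr := Tr.L (Pth.l (Pth.l (Pth.r (Pth.l Pth.z))))
def l2 : Tr := Tr.L (Pth.l (Pth.l (Pth.r (Pth.r Pth.z))))
def l3 : Tr := Tr.L (Pth.l (Pth.r (Pth.l (Pth.l Pth.z))))
def l4 : Tr := Tr.L (Pth.l (Pth.r (Pth.l (Pth.r Pth.z))))
def l5 : Tr := Tr.L (Pth.l (Pth.r (Pth.r (Pth.l Pth.z))))
def l6 : Tr := Tr.L (Pth.l (Pth.r (Pth.r (Pth.r Pth.z))))
def l7 : Tr := Tr.L (Pth.r (Pth.l (Pth.l Pth.z)))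
def l8 : Tr := Tr.L (Pth.r (Pth.l (Pth.r (Pth.l Pth.z))))
def l9 : Tr := Tr.L (Pth.r (Pth.l (Pth.r (Pth.r Pth.z))))
def l10 : Tr := Tr.L (Pth.r (Pth.r (Pth.l (Pth.l Pth.z))))
def l11 : Tr := Tr.L (Pth.r (Pth.r (Pth.l (Pth.r Pth.z))))
def l12 : Tr := Tr.L (Pth.r (Pth.r (Pth.r (Pth.l Pth.z))))
def l13 : Tr := Tr.L (Pth.r (Pth.r (Pth.r (Pth.r Pth.z))))
end T3
def b4_0 : Bx := Bx.mk (St.mk (I.pos (nat_lit 142426112) (nat_lit 223772672)) (I.mix (nat_lit 6258688) (nat_lit 66060288)) (I.mix (nat_lit 9715712) (nat_lit 104087552)) (I.pos (nat_lit 228884480) (nat_lit 332873728)) (I.mix (nat_lit 122224640) (nat_lit 67534848)) (I.mix (nat_lit 71335936) (nat_lit 62062592)) (I.mix (nat_lit 89489408) (nat_lit 83820544)))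
  false (nat_lit 146911679)
def b4_1 : Bx := Bx.mk (St.mk (I.pos (nat_lit 67649536) (nat_lit 158318592)) (I.neg (nat_lit 6242304) (nat_lit 66551808)) (I.mix (nat_lit 53477376) (nat_lit 15335424)) (I.pos (nat_lit 162086912) (nat_lit 233914368)) (I.mix (nat_lit 73613312) (nat_lit 50331648)) (I.mix (nat_lit 36225024) (nat_lit 50085888)) (I.mix (nat_lit 32014336) (nat_lit 43417600)))
  false (nat_lit 9814495)
def b4_2 : Bx := Bx.mk (St.mk (I.mix (nat_lit 37683200) (nat_lit 12206080)) (I.mix (nat_lit 43843584) (nat_lit 12189696)) (I.pos (nat_lit 753664) (nat_lit 11501568)) (I.pos (nat_lit 139608064) (nat_lit 153337856)) (I.mix (nat_lit 24625152) (nat_lit 46465024)) (I.mix (nat_lit 21315584) (nat_lit 34553856)) (I.mix (nat_lit 4898816) (nat_lit 6553600)))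
  true (nat_lit 0)
def b4_3 : Bx := Bx.mk (St.mk (I.pos (nat_lit 144523264) (nat_lit 191168512)) (I.mix (nat_lit 999424) (nat_lit 60211200)) (I.pos (nat_lit 21118976) (nat_lit 98926592)) (I.pos (nat_lit 221773824) (nat_lit 288456704)) (I.mix (nat_lit 122716160) (nat_lit 32653312)) (I.mix (nat_lit 98320384) (nat_lit 47710208)) (I.mix (nat_lit 95682560) (nat_lit 48857088)))
  false (nat_lit 90171242)
def b4_4 : Bx := Bx.mk (St.mk (I.mix (nat_lit 12206080) (nat_lit 37683200)) (I.mix (nat_lit 12189696) (nat_lit 43843584)) (I.pos (nat_lit 753664) (nat_lit 11501568)) (I.pos (nat_lit 139608064) (nat_lit 153337856)) (I.mix (nat_lit 46465024) (nat_lit 24625152)) (I.mix (nat_lit 34553856) (nat_lit 21315584)) (I.mix (nat_lit 4898816) (nat_lit 6553600)))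
  false (nat_lit 0)
def b4_5 : Bx := Bx.mk (St.mk (I.pos (nat_lit 13991936) (nat_lit 74547200)) (I.mix (nat_lit 10240000) (nat_lit 46383104)) (I.mix (nat_lit 18350080) (nat_lit 14041088)) (I.pos (nat_lit 142262272) (nat_lit 161841152)) (I.mix (nat_lit 37076992) (nat_lit 44302336)) (I.mix (nat_lit 36421632) (nat_lit 28753920)) (I.mix (nat_lit 19300352) (nat_lit 13549568)))
  false (nat_lit 0)
def b4_6 : Bx := Bx.mk (St.mk (I.pos (nat_lit 51953664) (nat_lit 103383040)) (I.mix (nat_lit 65961984) (nat_lit 12025856)) (I.neg (nat_lit 1163264) (nat_lit 50741248)) (I.pos (nat_lit 148684800) (nat_lit 188579840)) (I.mix (nat_lit 85262336) (nat_lit 30523392)) (I.mix (nat_lit 32227328) (nat_lit 59817984)) (I.mix (nat_lit 26361856) (nat_lit 35110912)))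
  false (nat_lit 0)
def b4_7 : Bx := Bx.mk (St.mk (I.neg (nat_lit 13991936) (nat_lit 74547200)) (I.mix (nat_lit 46383104) (nat_lit 10240000)) (I.mix (nat_lit 18350080) (nat_lit 14041088)) (I.pos (nat_lit 142262272) (nat_lit 161841152)) (I.mix (nat_lit 44302336) (nat_lit 37076992)) (I.mix (nat_lit 28753920) (nat_lit 36421632)) (I.mix (nat_lit 19300352) (nat_lit 13549568)))
  true (nat_lit 0)
def b4_8 : Bx := Bx.mk (St.mk (I.pos (nat_lit 123846656) (nat_lit 190709760)) (I.mix (nat_lit 37683200) (nat_lit 20250624)) (I.mix (nat_lit 23183360) (nat_lit 49414144)) (I.pos (nat_lit 200458240) (nat_lit 276725760)) (I.mix (nat_lit 54509568) (nat_lit 48807936)) (I.mix (nat_lit 44367872) (nat_lit 41435136)) (I.mix (nat_lit 41959424) (nat_lit 40484864)))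
  false (nat_lit 17922169)
def b4_9 : Bx := Bx.mk (St.mk (I.pos (nat_lit 181141504) (nat_lit 291569664)) (I.mix (nat_lit 22560768) (nat_lit 50954240)) (I.mix (nat_lit 73170944) (nat_lit 78381056)) (I.pos (nat_lit 277987328) (nat_lit 451854336)) (I.mix (nat_lit 76185600) (nat_lit 60145664)) (I.mix (nat_lit 56786944) (nat_lit 37355520)) (I.mix (nat_lit 96993280) (nat_lit 66650112)))
  false (nat_lit 131785484)
def b4_10 : Bx := Bx.mk (St.mk (I.pos (nat_lit 166789120) (nat_lit 222609408)) (I.pos (nat_lit 20987904) (nat_lit 61046784)) (I.pos (nat_lit 33062912) (nat_lit 94814208)) (I.pos (nat_lit 267763712) (nat_lit 323567616)) (I.mix (nat_lit 103940096) (nat_lit 75612160)) (I.mix (nat_lit 78479360) (nat_lit 54689792)) (I.mix (nat_lit 110657536) (nat_lit 65552384)))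
  false (nat_lit 96699172)
def b4_11 : Bx := Bx.mk (St.mk (I.pos (nat_lit 145473536) (nat_lit 191217664)) (I.mix (nat_lit 7208960) (nat_lit 40697856)) (I.pos (nat_lit 11190272) (nat_lit 76840960)) (I.pos (nat_lit 225067008) (nat_lit 280625152)) (I.mix (nat_lit 123682816) (nat_lit 51838976)) (I.mix (nat_lit 108478464) (nat_lit 46383104)) (I.mix (nat_lit 106643456) (nat_lit 47415296)))
  false (nat_lit 52008110)
def t4 : BTr := (BTr.n (BTr.n (BTr.n (BTr.b b4_0) (BTr.n (BTr.b b4_1) (BTr.b b4_2))) (BTr.n (BTr.b b4_3) (BTr.n (BTr.b b4_4) (BTr.b b4_5)))) (BTr.n (BTr.n (BTr.b b4_6) (BTr.n (BTr.b b4_7) (BTr.b b4_8))) (BTr.n (BTr.b b4_9) (BTr.n (BTr.b b4_10) (BTr.b b4_11)))))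
namespace T4
def l0 : Tr := Tr.L (Pth.l (Pth.l (Pth.l Pth.z)))
def l1 : Tr := Tr.L (Pth.l (Pth.l (Pth.r (Pth.l Pth.z))))
def l2 : Tr := Tr.L (Pth.l (Pth.l (Pth.r (Pth.r Pth.z))))
def l3 : Tr := Tr.L (Pth.l (Pth.r (Pth.l Pth.z)))
def l4 : Tr := Tr.L (Pth.l (Pth.r (Pth.r (Pth.l Pth.z))))
def l5 : Tr := Tr.L (Pth.l (Pth.r (Pth.r (Pth.r Pth.z))))
def l6 : Tr := Tr.L (Pth.r (Pth.l (Pth.l Pth.z)))
def l7 : Tr := Tr.L (Pth.r (Pth.l (Pth.r (Pth.l Pth.z))))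
def l8 : Tr := Tr.L (Pth.r (Pth.l (Pth.r (Pth.r Pth.z))))
def l9 : Tr := Tr.L (Pth.r (Pth.r (Pth.l Pth.z)))
def l10 : Tr := Tr.L (Pth.r (Pth.r (Pth.r (Pth.l Pth.z))))
def l11 : Tr := Tr.L (Pth.r (Pth.r (Pth.r (Pth.r Pth.z))))
end T4
def b5_0 : Bx := Bx.mk (St.mk (I.pos (nat_lit 146833408) (nat_lit 231915520)) (I.mix (nat_lit 4751360) (nat_lit 49463296)) (I.mix (nat_lit 9748480) (nat_lit 104431616)) (I.pos (nat_lit 131956736) (nat_lit 251265024)) (I.mix (nat_lit 115081216) (nat_lit 61014016)) (I.mix (nat_lit 78348288) (nat_lit 66240512)) (I.mix (nat_lit 102006784) (nat_lit 81444864)))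
  false (nat_lit 66008271)
def b5_1 : Bx := Bx.mk (St.mk (I.pos (nat_lit 103383040) (nat_lit 178438144)) (I.neg (nat_lit 9453568) (nat_lit 54853632)) (I.mix (nat_lit 39043072) (nat_lit 12304384)) (I.pos (nat_lit 98861056) (nat_lit 177717248)) (I.mix (nat_lit 63340544) (nat_lit 37421056)) (I.mix (nat_lit 30015488) (nat_lit 39600128)) (I.mix (nat_lit 27377664) (nat_lit 37584896)))
  false (nat_lit 43062447)
def b5_2 : Bx := Bx.mk (St.mk (I.mix (nat_lit 29933568) (nat_lit 93323264)) (I.mix (nat_lit 31539200) (nat_lit 4505600)) (I.mix (nat_lit 9912320) (nat_lit 13746176)) (I.pos (nat_lit 36569088) (nat_lit 93519872)) (I.mix (nat_lit 30867456) (nat_lit 38633472)) (I.mix (nat_lit 23019520) (nat_lit 29491200)) (I.mix (nat_lit 9977856) (nat_lit 15597568)))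
  false (nat_lit 0)
def b5_3 : Bx := Bx.mk (St.mk (I.pos (nat_lit 157253632) (nat_lit 205258752)) (I.mix (nat_lit 10076160) (nat_lit 47529984)) (I.pos (nat_lit 20185088) (nat_lit 95272960)) (I.pos (nat_lit 138723328) (nat_lit 214892544)) (I.mix (nat_lit 127254528) (nat_lit 41549824)) (I.mix (nat_lit 97697792) (nat_lit 54853632)) (I.mix (nat_lit 110215168) (nat_lit 42369024)))
  false (nat_lit 48738296)
def b5_4 : Bx := Bx.mk (St.mk (I.mix (nat_lit 46841856) (nat_lit 113065984)) (I.mix (nat_lit 11403264) (nat_lit 32194560)) (I.mix (nat_lit 3129344) (nat_lit 32817152)) (I.pos (nat_lit 36356096) (nat_lit 106299392)) (I.mix (nat_lit 57032704) (nat_lit 24313856)) (I.mix (nat_lit 45056000) (nat_lit 23527424)) (I.mix (nat_lit 25395200) (nat_lit 13910016)))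
  false (nat_lit 0)
def b5_5 : Bx := Bx.mk (St.mk (I.pos (nat_lit 146931712) (nat_lit 203423744)) (I.mix (nat_lit 30605312) (nat_lit 8044544)) (I.mix (nat_lit 7438336) (nat_lit 45301760)) (I.pos (nat_lit 130088960) (nat_lit 210272256)) (I.mix (nat_lit 52625408) (nat_lit 54427648)) (I.mix (nat_lit 46432256) (nat_lit 43728896)) (I.mix (nat_lit 43089920) (nat_lit 42696704)))
  false (nat_lit 54694951)
def b5_6 : Bx := Bx.mk (St.mk (I.mix (nat_lit 46858240) (nat_lit 94453760)) (I.mix (nat_lit 16531456) (nat_lit 4554752)) (I.mix (nat_lit 688128) (nat_lit 13189120)) (I.pos (nat_lit 39174144) (nat_lit 93241344)) (I.mix (nat_lit 14811136) (nat_lit 19038208)) (I.mix (nat_lit 10764288) (nat_lit 10829824)) (I.mix (nat_lit 5799936) (nat_lit 5505024)))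
  false (nat_lit 0)
def b5_7 : Bx := Bx.mk (St.mk (I.pos (nat_lit 146882560) (nat_lit 174260224)) (I.neg (nat_lit 13025280) (nat_lit 39043072)) (I.mix (nat_lit 19595264) (nat_lit 12042240)) (I.pos (nat_lit 130482176) (nat_lit 178470912)) (I.mix (nat_lit 25018368) (nat_lit 21053440)) (I.mix (nat_lit 12861440) (nat_lit 14516224)) (I.mix (nat_lit 11321344) (nat_lit 14073856)))
  false (nat_lit 0)
def b5_8 : Bx := Bx.mk (St.mk (I.mix (nat_lit 37535744) (nat_lit 129712128)) (I.mix (nat_lit 8486912) (nat_lit 30146560)) (I.mix (nat_lit 2359296) (nat_lit 30294016)) (I.pos (nat_lit 33046528) (nat_lit 120111104)) (I.mix (nat_lit 53379072) (nat_lit 38043648)) (I.mix (nat_lit 40402944) (nat_lit 28655616)) (I.mix (nat_lit 28852224) (nat_lit 20070400)))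
  false (nat_lit 0)
def b5_9 : Bx := Bx.mk (St.mk (I.pos (nat_lit 93372416) (nat_lit 144130048)) (I.mix (nat_lit 54591488) (nat_lit 10272768)) (I.mix (nat_lit 38633472) (nat_lit 16285696)) (I.pos (nat_lit 76496896) (nat_lit 140312576)) (I.mix (nat_lit 72253440) (nat_lit 31277056)) (I.mix (nat_lit 30851072) (nat_lit 55558144)) (I.mix (nat_lit 22626304) (nat_lit 38846464)))
  false (nat_lit 32484306)
def b5_10 : Bx := Bx.mk (St.mk (I.mix (nat_lit 43614208) (nat_lit 80084992)) (I.mix (nat_lit 31965184) (nat_lit 6815744)) (I.mix (nat_lit 9109504) (nat_lit 12910592)) (I.pos (nat_lit 38010880) (nat_lit 86228992)) (I.mix (nat_lit 36110336) (nat_lit 28262400)) (I.mix (nat_lit 21626880) (nat_lit 28491776)) (I.mix (nat_lit 9699328) (nat_lit 10600448)))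
  false (nat_lit 0)
def b5_11 : Bx := Bx.mk (St.mk (I.pos (nat_lit 160137216) (nat_lit 200916992)) (I.mix (nat_lit 16596992) (nat_lit 23756800)) (I.pos (nat_lit 11780096) (nat_lit 66699264)) (I.pos (nat_lit 140820480) (nat_lit 207552512)) (I.mix (nat_lit 102825984) (nat_lit 49528832)) (I.mix (nat_lit 95404032) (nat_lit 39370752)) (I.mix (nat_lit 102563840) (nat_lit 36356096)))
  false (nat_lit 50668813)
def b5_12 : Bx := Bx.mk (St.mk (I.pos (nat_lit 188530688) (nat_lit 289849344)) (I.mix (nat_lit 19775488) (nat_lit 38584320)) (I.mix (nat_lit 21102592) (nat_lit 90488832)) (I.pos (nat_lit 188547072) (nat_lit 371867648)) (I.mix (nat_lit 73695232) (nat_lit 61030400)) (I.mix (nat_lit 54591488) (nat_lit 45531136)) (I.mix (nat_lit 92061696) (nat_lit 75055104)))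
  false (nat_lit 86311778)
def b5_13 : Bx := Bx.mk (St.mk (I.pos (nat_lit 175407104) (nat_lit 225705984)) (I.pos (nat_lit 13877248) (nat_lit 46317568)) (I.pos (nat_lit 42500096) (nat_lit 99352576)) (I.pos (nat_lit 180830208) (nat_lit 238927872)) (I.mix (nat_lit 95322112) (nat_lit 72826880)) (I.mix (nat_lit 80396288) (nat_lit 55508992)) (I.mix (nat_lit 116178944) (nat_lit 65945600)))
  false (nat_lit 72518351)
def t5 : BTr := (BTr.n (BTr.n (BTr.n (BTr.b b5_0) (BTr.n (BTr.b b5_1) (BTr.b b5_2))) (BTr.n (BTr.n (BTr.b b5_3) (BTr.b b5_4)) (BTr.n (BTr.b b5_5) (BTr.b b5_6)))) (BTr.n (BTr.n (BTr.b b5_7) (BTr.n (BTr.b b5_8) (BTr.b b5_9))) (BTr.n (BTr.n (BTr.b b5_10) (BTr.b b5_11)) (BTr.n (BTr.b b5_12) (BTr.b b5_13)))))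
namespace T5
def l0 : Tr := Tr.L (Pth.l (Pth.l (Pth.l Pth.z)))
def l1 : Tr := Tr.L (Pth.l (Pth.l (Pth.r (Pth.l Pth.z))))
def l2 : Tr := Tr.L (Pth.l (Pth.l (Pth.r (Pth.r Pth.z))))
def l3 : Tr := Tr.L (Pth.l (Pth.r (Pth.l (Pth.l Pth.z))))
def l4 : Tr := Tr.L (Pth.l (Pth.r (Pth.l (Pth.r Pth.z))))
def l5 : Tr := Tr.L (Pth.l (Pth.r (Pth.r (Pth.l Pth.z))))
def l6 : Tr := Tr.L (Pth.l (Pth.r (Pth.r (Pth.r Pth.z))))
def l7 : Tr := Tr.L (Pth.r (Pth.l (Pth.l Pth.z)))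
def l8 : Tr := Tr.L (Pth.r (Pth.l (Pth.r (Pth.l Pth.z))))
def l9 : Tr := Tr.L (Pth.r (Pth.l (Pth.r (Pth.r Pth.z))))
def l10 : Tr := Tr.L (Pth.r (Pth.r (Pth.l (Pth.l Pth.z))))
def l11 : Tr := Tr.L (Pth.r (Pth.r (Pth.l (Pth.r Pth.z))))
def l12 : Tr := Tr.L (Pth.r (Pth.r (Pth.r (Pth.l Pth.z))))
def l13 : Tr := Tr.L (Pth.r (Pth.r (Pth.r (Pth.r Pth.z))))
end T5
theorem bx0_0 : BoxOK sI cl5 cl7 cl13 t2 t4 b0_0 :=
  box_mk (TrL.c (I.pos (nat_lit 0) (nat_lit 0)) (xa (xb (xa T2.l11 T2.l11) (xa (xb (xa T2.l0 T2.l0) (xa (xb T2.l0 T2.l0) (xb T2.l0 T2.l0))) (xb T2.l0 (xa T2.l0 T2.l0)))) (xb (xa (xb T2.l0 T2.l0) (xb T2.l0 T2.l0)) (xa (xb T2.l0 (xa T2.l0 T2.l0)) (xb T2.l0 (xa T2.l0 T2.l0)))))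
  (TrL.c (I.pos (nat_lit 0) (nat_lit 0)) (xa (xb T4.l1 (xa T4.l1 T4.l1)) (xb T4.l1 (xa T4.l1 T4.l1)))
  (TrL.c (I.pos (nat_lit 0) (nat_lit 0)) (xa T2.l1 T2.l1)
  (TrL.c (I.pos (nat_lit 0) (nat_lit 0)) T4.l2
  (TrL.c (I.pos (nat_lit 0) (nat_lit 0)) (xa (xb T4.l11 (xa T4.l3 T4.l3)) (xb (xa T4.l11 (xb T4.l3 T4.l3)) (xa T4.l3 (xb T4.l3 T4.l3))))
  (TrL.c (I.pos (nat_lit 0) (nat_lit 0)) (xa T2.l2 (xb T2.l4 T2.l2))
  (TrL.c (I.pos (nat_lit 0) (nat_lit 0)) T4.l4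
  (TrL.c (I.pos (nat_lit 0) (nat_lit 0)) (xa T2.l3 T2.l3)
  TrL.n)))))))) (by decide +kernel)
theorem bx0_1 : BoxOK sI cl5 cl7 cl13 t2 t4 b0_1 :=
  box_mk (TrL.c (I.pos (nat_lit 0) (nat_lit 0)) (xa (xa (xb (xa (xb T2.l8 T2.l8) T2.l8) (xa (xb T2.l8 T2.l8) T2.l8)) (xb T2.l8 T2.l8)) (xa T2.l8 (xa T2.l8 T2.l8)))
  (TrL.c (I.pos (nat_lit 0) (nat_lit 0)) T4.l1
  (TrL.c (I.pos (nat_lit 0) (nat_lit 0)) (xa T2.l1 T2.l1)
  (TrL.c (I.pos (nat_lit 0) (nat_lit 0)) T4.l2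
  (TrL.c (I.pos (nat_lit 0) (nat_lit 0)) (xa T4.l8 T4.l8)
  (TrL.c (I.pos (nat_lit 0) (nat_lit 0)) (xa T2.l2 T2.l2)
  (TrL.c (I.pos (nat_lit 0) (nat_lit 0)) T4.l4
  (TrL.c (I.pos (nat_lit 0) (nat_lit 0)) (xa T2.l3 T2.l3)
  TrL.n)))))))) (by decide +kernel)
theorem bx0_2 : BoxOK sI cl5 cl7 cl13 t2 t4 b0_2 :=
  box_mk (TrL.c (I.pos (nat_lit 0) (nat_lit 0)) (xb T2.l8 (xa T2.l8 T2.l8))
  (TrL.c (I.pos (nat_lit 0) (nat_lit 0)) T4.l1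
  (TrL.c (I.pos (nat_lit 0) (nat_lit 0)) T2.l1
  (TrL.c (I.pos (nat_lit 0) (nat_lit 0)) T4.l2
  (TrL.c (I.pos (nat_lit 0) (nat_lit 0)) (xb T4.l8 T4.l8)
  (TrL.c (I.pos (nat_lit 0) (nat_lit 0)) T2.l2
  (TrL.c (I.pos (nat_lit 0) (nat_lit 0)) T4.l4
  (TrL.c (I.pos (nat_lit 0) (nat_lit 0)) T2.l3
  TrL.n)))))))) (by decide +kernel)
theorem bx0_3 : BoxOK sI cl5 cl7 cl13 t2 t4 b0_3 :=
  box_mk (TrL.c (I.pos (nat_lit 0) (nat_lit 0)) (xa (xa (xb (xa (xb (xa T2.l8 T2.l8) T2.l8) T2.l8) T2.l8) T2.l8) T2.l8)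
  (TrL.c (I.pos (nat_lit 0) (nat_lit 0)) (xa T4.l1 T4.l1)
  (TrL.c (I.pos (nat_lit 0) (nat_lit 0)) T2.l1
  (TrL.c (I.pos (nat_lit 0) (nat_lit 0)) T4.l2
  (TrL.c (I.pos (nat_lit 0) (nat_lit 0)) (xa T4.l1 T4.l8)
  (TrL.c (I.pos (nat_lit 0) (nat_lit 0)) T2.l2
  (TrL.c (I.pos (nat_lit 0) (nat_lit 0)) T4.l4
  (TrL.c (I.pos (nat_lit 0) (nat_lit 0)) T2.l3
  TrL.n)))))))) (by decide +kernel)
theorem bx0_4 : BoxOK sI cl5 cl7 cl13 t2 t4 b0_4 :=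
  box_mk (TrL.c (I.pos (nat_lit 0) (nat_lit 0)) (xa (xb (xa T2.l0 T2.l0) (xa T2.l0 T2.l0)) (xa (xb T2.l0 T2.l0) (xb T2.l6 (xa T2.l0 T2.l6))))
  (TrL.c (I.pos (nat_lit 0) (nat_lit 0)) (xa T4.l1 (xb T4.l1 T4.l1))
  (TrL.c (I.pos (nat_lit 0) (nat_lit 0)) T2.l1
  (TrL.c (I.pos (nat_lit 0) (nat_lit 0)) T4.l2
  (TrL.c (I.pos (nat_lit 0) (nat_lit 0)) (xa (xb T4.l3 T4.l3) (xb (xa T4.l3 (xb (xa T4.l3 T4.l3) T4.l3)) (xa T4.l3 (xb T4.l3 (xa T4.l3 T4.l3)))))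
  (TrL.c (I.pos (nat_lit 0) (nat_lit 0)) (xa T2.l2 (xb T2.l4 T2.l2))
  (TrL.c (I.pos (nat_lit 0) (nat_lit 0)) T4.l4
  (TrL.c (I.pos (nat_lit 0) (nat_lit 0)) T2.l3
  TrL.n)))))))) (by decide +kernel)
theorem bx0_5 : BoxOK sI cl5 cl7 cl13 t2 t4 b0_5 :=
  box_mk (TrL.c (I.pos (nat_lit 0) (nat_lit 0)) T2.l8
  (TrL.c (I.pos (nat_lit 0) (nat_lit 0)) T4.l1
  (TrL.c (I.pos (nat_lit 0) (nat_lit 0)) T2.l1
  (TrL.c (I.pos (nat_lit 0) (nat_lit 0)) T4.l2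
  (TrL.c (I.pos (nat_lit 0) (nat_lit 0)) T4.l8
  (TrL.c (I.pos (nat_lit 0) (nat_lit 0)) T2.l2
  (TrL.c (I.pos (nat_lit 0) (nat_lit 0)) T4.l4
  (TrL.c (I.pos (nat_lit 0) (nat_lit 0)) T2.l3
  TrL.n)))))))) (by decide +kernel)
theorem bx0_6 : BoxOK sI cl5 cl7 cl13 t2 t4 b0_6 :=
  box_mk (TrL.c (I.pos (nat_lit 0) (nat_lit 0)) (xa (xb T2.l8 T2.l8) (xb T2.l0 T2.l8))
  (TrL.c (I.pos (nat_lit 0) (nat_lit 0)) T4.l1
  (TrL.c (I.pos (nat_lit 0) (nat_lit 0)) T2.l1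
  (TrL.c (I.pos (nat_lit 0) (nat_lit 0)) T4.l2
  (TrL.c (I.pos (nat_lit 0) (nat_lit 0)) (xa T4.l8 (xb T4.l8 T4.l8))
  (TrL.c (I.pos (nat_lit 0) (nat_lit 0)) T2.l2
  (TrL.c (I.pos (nat_lit 0) (nat_lit 0)) T4.l4
  (TrL.c (I.pos (nat_lit 0) (nat_lit 0)) T2.l3
  TrL.n)))))))) (by decide +kernel)
theorem bx0_7 : BoxOK sI cl5 cl7 cl13 t2 t4 b0_7 :=
  box_mk (TrL.c (I.pos (nat_lit 0) (nat_lit 0)) (xa (xa (xb (xa (xb (xa T2.l8 T2.l8) T2.l8) T2.l8) T2.l8) T2.l8) T2.l8)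
  (TrL.c (I.pos (nat_lit 0) (nat_lit 0)) (xa T4.l1 T4.l1)
  (TrL.c (I.pos (nat_lit 0) (nat_lit 0)) T2.l1
  (TrL.c (I.pos (nat_lit 0) (nat_lit 0)) T4.l2
  (TrL.c (I.pos (nat_lit 0) (nat_lit 0)) (xa T4.l8 T4.l8)
  (TrL.c (I.pos (nat_lit 0) (nat_lit 0)) T2.l2
  (TrL.c (I.pos (nat_lit 0) (nat_lit 0)) T4.l4
  (TrL.c (I.pos (nat_lit 0) (nat_lit 0)) T2.l3
  TrL.n)))))))) (by decide +kernel)
theorem bx0_8 : BoxOK sI cl5 cl7 cl13 t2 t4 b0_8 :=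
  box_mk (TrL.c (I.pos (nat_lit 0) (nat_lit 0)) (xb (xa (xb (xa T2.l11 T2.l11) (xa T2.l11 T2.l11)) (xb (xa T2.l11 T2.l11) (xa T2.l11 T2.l11))) (xa (xb (xa (xb T2.l11 T2.l11) (xb T2.l11 T2.l11)) (xa (xb T2.l11 (xs T2.l11 T2.l11)) (xb T2.l11 (xs T2.l11 T2.l11)))) (xb (xa T2.l11 (xb T2.l11 T2.l11)) (xa (xb T2.l11 (xs T2.l11 T2.l11)) (xs T2.l11 (xb T2.l11 T2.l11))))))
  (TrL.c (I.pos (nat_lit 0) (nat_lit 0)) (xb (xa T4.l1 T4.l1) (xa T4.l1 T4.l1))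
  (TrL.c (I.pos (nat_lit 0) (nat_lit 0)) T2.l1
  (TrL.c (I.pos (nat_lit 0) (nat_lit 0)) T4.l2
  (TrL.c (I.pos (nat_lit 0) (nat_lit 0)) (xb (xa T4.l11 (xb T4.l11 T4.l11)) (xa T4.l11 (xb T4.l11 T4.l11)))
  (TrL.c (I.pos (nat_lit 0) (nat_lit 0)) (xb T2.l2 T2.l2)
  (TrL.c (I.pos (nat_lit 0) (nat_lit 0)) T4.l4
  (TrL.c (I.pos (nat_lit 0) (nat_lit 0)) T2.l3
  TrL.n)))))))) (by decide +kernel)
theorem bx0_9 : BoxOK sI cl5 cl7 cl13 t2 t4 b0_9 :=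
  box_mk (TrL.c (I.pos (nat_lit 0) (nat_lit 0)) (xa (xa (xb (xa (xb (xa (xb T2.l8 T2.l8) T2.l8) T2.l8) T2.l8) (xa (xb T2.l8 (xa (xb T2.l8 T2.l8) (xb T2.l8 T2.l8))) (xb T2.l8 (xa (xb T2.l8 T2.l8) T2.l8)))) (xb T2.l8 (xa (xb T2.l8 (xa T2.l8 T2.l8)) (xb T2.l8 T2.l8)))) (xa (xb T2.l8 (xa T2.l8 T2.l8)) (xb T2.l8 (xa T2.l8 T2.l8))))
  (TrL.c (I.pos (nat_lit 0) (nat_lit 0)) (xa (xa T4.l8 T4.l1) T4.l1)
  (TrL.c (I.pos (nat_lit 0) (nat_lit 0)) (xa T2.l1 T2.l1)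
  (TrL.c (I.pos (nat_lit 0) (nat_lit 0)) T4.l2
  (TrL.c (I.pos (nat_lit 0) (nat_lit 0)) (xa T4.l1 T4.l8)
  (TrL.c (I.pos (nat_lit 0) (nat_lit 0)) (xa T2.l2 T2.l2)
  (TrL.c (I.pos (nat_lit 0) (nat_lit 0)) T4.l4
  (TrL.c (I.pos (nat_lit 0) (nat_lit 0)) (xa T2.l3 T2.l3)
  TrL.n)))))))) (by decide +kernel)
theorem bx0_10 : BoxOK sI cl5 cl7 cl13 t2 t4 b0_10 :=
  box_mk (TrL.c (I.pos (nat_lit 0) (nat_lit 0)) T2.l8
  (TrL.c (I.pos (nat_lit 0) (nat_lit 0)) T4.l1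
  (TrL.c (I.pos (nat_lit 0) (nat_lit 0)) T2.l1
  (TrL.c (I.pos (nat_lit 0) (nat_lit 0)) T4.l2
  (TrL.c (I.pos (nat_lit 0) (nat_lit 0)) T4.l8
  (TrL.c (I.pos (nat_lit 0) (nat_lit 0)) T2.l2
  (TrL.c (I.pos (nat_lit 0) (nat_lit 0)) T4.l4
  (TrL.c (I.pos (nat_lit 0) (nat_lit 0)) T2.l3
  TrL.n)))))))) (by decide +kernel)
theorem bx0_11 : BoxOK sI cl5 cl7 cl13 t2 t4 b0_11 :=
  box_mk (TrL.c (I.pos (nat_lit 0) (nat_lit 0)) (xa (xb (xa T2.l0 T2.l0) (xa (xb T2.l0 (xs T2.l0 T2.l0)) (xb T2.l0 (xs T2.l0 T2.l0)))) (xb (xa T2.l0 T2.l0) (xa (xb T2.l0 (xs T2.l0 T2.l0)) (xb T2.l0 (xs T2.l0 T2.l0)))))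
  (TrL.c (I.pos (nat_lit 0) (nat_lit 0)) (xb (xa T4.l1 T4.l1) (xa T4.l1 T4.l1))
  (TrL.c (I.pos (nat_lit 0) (nat_lit 0)) T2.l1
  (TrL.c (I.pos (nat_lit 0) (nat_lit 0)) T4.l2
  (TrL.c (I.pos (nat_lit 0) (nat_lit 0)) (xb (xa T4.l3 (xb T4.l3 T4.l3)) (xa T4.l3 (xb T4.l3 T4.l3)))
  (TrL.c (I.pos (nat_lit 0) (nat_lit 0)) (xb T2.l4 T2.l2)
  (TrL.c (I.pos (nat_lit 0) (nat_lit 0)) T4.l4
  (TrL.c (I.pos (nat_lit 0) (nat_lit 0)) T2.l3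
  TrL.n)))))))) (by decide +kernel)
theorem bx0_12 : BoxOK sI cl5 cl7 cl13 t2 t4 b0_12 :=
  box_mk (TrL.c (I.pos (nat_lit 0) (nat_lit 0)) (xa (xb T2.l0 (xa T2.l8 T2.l11)) (xb T2.l0 T2.l0))
  (TrL.c (I.pos (nat_lit 0) (nat_lit 0)) T4.l1
  (TrL.c (I.pos (nat_lit 0) (nat_lit 0)) T2.l1
  (TrL.c (I.pos (nat_lit 0) (nat_lit 0)) T4.l2
  (TrL.c (I.pos (nat_lit 0) (nat_lit 0)) (xa T4.l11 T4.l0)
  (TrL.c (I.pos (nat_lit 0) (nat_lit 0)) (xa T2.l2 T2.l2)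
  (TrL.c (I.pos (nat_lit 0) (nat_lit 0)) T4.l4
  (TrL.c (I.pos (nat_lit 0) (nat_lit 0)) T2.l3
  TrL.n)))))))) (by decide +kernel)
theorem bx0_13 : BoxOK sI cl5 cl7 cl13 t2 t4 b0_13 :=
  box_mk (TrL.c (I.pos (nat_lit 0) (nat_lit 0)) (xb (xa T2.l11 T2.l11) (xa T2.l11 T2.l11))
  (TrL.c (I.pos (nat_lit 0) (nat_lit 0)) T4.l1
  (TrL.c (I.pos (nat_lit 0) (nat_lit 0)) T2.l1
  (TrL.c (I.pos (nat_lit 0) (nat_lit 0)) T4.l2
  (TrL.c (I.pos (nat_lit 0) (nat_lit 0)) (xb T4.l11 T4.l11)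
  (TrL.c (I.pos (nat_lit 0) (nat_lit 0)) T2.l2
  (TrL.c (I.pos (nat_lit 0) (nat_lit 0)) T4.l4
  (TrL.c (I.pos (nat_lit 0) (nat_lit 0)) T2.l3
  TrL.n)))))))) (by decide +kernel)
theorem sv0 : StarV sI cl5 cl7 cl13 t2 t4 t0 :=
  (bt_n (bt_n (bt_n (bt_b bx0_0) (bt_n (bt_b bx0_1) (bt_b bx0_2))) (bt_n (bt_n (bt_b bx0_3) (bt_b bx0_4)) (bt_n (bt_b bx0_5) (bt_b bx0_6)))) (bt_n (bt_n (bt_b bx0_7) (bt_n (bt_b bx0_8) (bt_b bx0_9))) (bt_n (bt_n (bt_b bx0_10) (bt_b bx0_11)) (bt_n (bt_b bx0_12) (bt_b bx0_13)))))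
def S0 : StarD := StarD.mk cl5 cl7 cl13 2 4 t0
theorem bx1_0 : BoxOK sI cl5 cl13 cl7 t4 t2 b1_0 :=
  box_mk (TrL.c (I.pos (nat_lit 0) (nat_lit 0)) (xa (xb (xa (xb T4.l10 (xa T4.l0 T4.l0)) (xb T4.l0 T4.l0)) (xa (xb (xa (xb T4.l0 T4.l0) T4.l0) (xa (xs T4.l0 (xb T4.l0 T4.l0)) (xs T4.l0 (xb T4.l0 T4.l0)))) (xb (xa T4.l0 T4.l0) (xa (xs T4.l0 (xb T4.l0 T4.l0)) (xs T4.l0 T4.l0))))) (xb (xa (xb T4.l0 T4.l0) (xb T4.l0 T4.l0)) (xa (xb T4.l0 (xa (xs T4.l0 T4.l0) (xs T4.l0 T4.l0))) (xb (xa T4.l0 T4.l0) (xa (xs T4.l0 T4.l0) (xs T4.l0 T4.l0))))))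
  (TrL.c (I.pos (nat_lit 0) (nat_lit 0)) (xa (xb T2.l4 (xa T2.l4 T2.l4)) (xb (xa T2.l4 T2.l4) (xa T2.l4 (xb T2.l4 T2.l4))))
  (TrL.c (I.pos (nat_lit 0) (nat_lit 0)) (xa T4.l5 T4.l5)
  (TrL.c (I.pos (nat_lit 0) (nat_lit 0)) T2.l5
  (TrL.c (I.pos (nat_lit 0) (nat_lit 0)) (xa (xb (xa T2.l6 T2.l6) (xa T2.l6 T2.l6)) (xb (xa (xb T2.l6 T2.l6) (xb T2.l6 T2.l6)) (xa T2.l6 (xb T2.l6 T2.l6))))
  (TrL.c (I.pos (nat_lit 0) (nat_lit 0)) (xa T4.l6 (xb T4.l6 T4.l6))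
  (TrL.c (I.pos (nat_lit 0) (nat_lit 0)) T2.l7
  (TrL.c (I.pos (nat_lit 0) (nat_lit 0)) (xa T4.l7 T4.l7)
  TrL.n)))))))) (by decide +kernel)
theorem bx1_1 : BoxOK sI cl5 cl13 cl7 t4 t2 b1_1 :=
  box_mk (TrL.c (I.pos (nat_lit 0) (nat_lit 0)) (xa (xa (xa (xb (xa T4.l9 T4.l9) (xa (xb T4.l9 T4.l9) T4.l9)) (xb T4.l9 T4.l9)) (xa T4.l9 T4.l9)) (xa T4.l9 (xa T4.l9 (xb T4.l9 T4.l9))))
  (TrL.c (I.pos (nat_lit 0) (nat_lit 0)) (xa T2.l4 T2.l4)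
  (TrL.c (I.pos (nat_lit 0) (nat_lit 0)) (xa T4.l5 T4.l5)
  (TrL.c (I.pos (nat_lit 0) (nat_lit 0)) T2.l5
  (TrL.c (I.pos (nat_lit 0) (nat_lit 0)) (xa (xa T2.l9 T2.l9) T2.l9)
  (TrL.c (I.pos (nat_lit 0) (nat_lit 0)) (xa T4.l6 T4.l6)
  (TrL.c (I.pos (nat_lit 0) (nat_lit 0)) T2.l7
  (TrL.c (I.pos (nat_lit 0) (nat_lit 0)) (xa T4.l7 T4.l7)
  TrL.n)))))))) (by decide +kernel)
theorem bx1_2 : BoxOK sI cl5 cl13 cl7 t4 t2 b1_2 :=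
  box_mk (TrL.c (I.pos (nat_lit 0) (nat_lit 0)) (xb T4.l9 (xa T4.l9 T4.l9))
  (TrL.c (I.pos (nat_lit 0) (nat_lit 0)) T2.l4
  (TrL.c (I.pos (nat_lit 0) (nat_lit 0)) T4.l5
  (TrL.c (I.pos (nat_lit 0) (nat_lit 0)) T2.l5
  (TrL.c (I.pos (nat_lit 0) (nat_lit 0)) (xb T2.l9 T2.l9)
  (TrL.c (I.pos (nat_lit 0) (nat_lit 0)) T4.l6
  (TrL.c (I.pos (nat_lit 0) (nat_lit 0)) T2.l7
  (TrL.c (I.pos (nat_lit 0) (nat_lit 0)) T4.l7
  TrL.n)))))))) (by decide +kernel)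
theorem bx1_3 : BoxOK sI cl5 cl13 cl7 t4 t2 b1_3 :=
  box_mk (TrL.c (I.pos (nat_lit 0) (nat_lit 0)) (xa (xa T4.l9 T4.l9) T4.l9)
  (TrL.c (I.pos (nat_lit 0) (nat_lit 0)) (xa T2.l4 T2.l4)
  (TrL.c (I.pos (nat_lit 0) (nat_lit 0)) T4.l5
  (TrL.c (I.pos (nat_lit 0) (nat_lit 0)) T2.l5
  (TrL.c (I.pos (nat_lit 0) (nat_lit 0)) (xa T2.l9 T2.l9)
  (TrL.c (I.pos (nat_lit 0) (nat_lit 0)) T4.l6
  (TrL.c (I.pos (nat_lit 0) (nat_lit 0)) T2.l7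
  (TrL.c (I.pos (nat_lit 0) (nat_lit 0)) T4.l7
  TrL.n)))))))) (by decide +kernel)
theorem bx1_4 : BoxOK sI cl5 cl13 cl7 t4 t2 b1_4 :=
  box_mk (TrL.c (I.pos (nat_lit 0) (nat_lit 0)) (xa (xb T4.l0 T4.l0) (xa T4.l0 (xb (xa T4.l0 T4.l0) (xa T4.l0 T4.l0))))
  (TrL.c (I.pos (nat_lit 0) (nat_lit 0)) (xa T2.l4 (xb T2.l4 T2.l4))
  (TrL.c (I.pos (nat_lit 0) (nat_lit 0)) T4.l5
  (TrL.c (I.pos (nat_lit 0) (nat_lit 0)) T2.l3
  (TrL.c (I.pos (nat_lit 0) (nat_lit 0)) (xa T2.l6 (xb (xa T2.l6 (xb (xa T2.l6 T2.l6) T2.l6)) (xa T2.l6 (xb T2.l6 (xa T2.l6 T2.l6)))))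
  (TrL.c (I.pos (nat_lit 0) (nat_lit 0)) (xa T4.l6 T4.l6)
  (TrL.c (I.pos (nat_lit 0) (nat_lit 0)) T2.l1
  (TrL.c (I.pos (nat_lit 0) (nat_lit 0)) T4.l7
  TrL.n)))))))) (by decide +kernel)
theorem bx1_5 : BoxOK sI cl5 cl13 cl7 t4 t2 b1_5 :=
  box_mk (TrL.c (I.pos (nat_lit 0) (nat_lit 0)) T4.l9
  (TrL.c (I.pos (nat_lit 0) (nat_lit 0)) T2.l4
  (TrL.c (I.pos (nat_lit 0) (nat_lit 0)) T4.l5
  (TrL.c (I.pos (nat_lit 0) (nat_lit 0)) T2.l5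
  (TrL.c (I.pos (nat_lit 0) (nat_lit 0)) T2.l9
  (TrL.c (I.pos (nat_lit 0) (nat_lit 0)) T4.l6
  (TrL.c (I.pos (nat_lit 0) (nat_lit 0)) T2.l7
  (TrL.c (I.pos (nat_lit 0) (nat_lit 0)) T4.l7
  TrL.n)))))))) (by decide +kernel)
theorem bx1_6 : BoxOK sI cl5 cl13 cl7 t4 t2 b1_6 :=
  box_mk (TrL.c (I.pos (nat_lit 0) (nat_lit 0)) T4.l9
  (TrL.c (I.pos (nat_lit 0) (nat_lit 0)) T2.l4
  (TrL.c (I.pos (nat_lit 0) (nat_lit 0)) T4.l5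
  (TrL.c (I.pos (nat_lit 0) (nat_lit 0)) T2.l5
  (TrL.c (I.pos (nat_lit 0) (nat_lit 0)) T2.l9
  (TrL.c (I.pos (nat_lit 0) (nat_lit 0)) T4.l6
  (TrL.c (I.pos (nat_lit 0) (nat_lit 0)) T2.l7
  (TrL.c (I.pos (nat_lit 0) (nat_lit 0)) T4.l7
  TrL.n)))))))) (by decide +kernel)
theorem bx1_7 : BoxOK sI cl5 cl13 cl7 t4 t2 b1_7 :=
  box_mk (TrL.c (I.pos (nat_lit 0) (nat_lit 0)) (xa (xb T4.l9 T4.l9) T4.l0)
  (TrL.c (I.pos (nat_lit 0) (nat_lit 0)) T2.l4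
  (TrL.c (I.pos (nat_lit 0) (nat_lit 0)) T4.l5
  (TrL.c (I.pos (nat_lit 0) (nat_lit 0)) T2.l5
  (TrL.c (I.pos (nat_lit 0) (nat_lit 0)) (xa (xb T2.l9 T2.l9) T2.l0)
  (TrL.c (I.pos (nat_lit 0) (nat_lit 0)) T4.l6
  (TrL.c (I.pos (nat_lit 0) (nat_lit 0)) T2.l7
  (TrL.c (I.pos (nat_lit 0) (nat_lit 0)) T4.l7
  TrL.n)))))))) (by decide +kernel)
theorem bx1_8 : BoxOK sI cl5 cl13 cl7 t4 t2 b1_8 :=
  box_mk (TrL.c (I.pos (nat_lit 0) (nat_lit 0)) (xa (xa (xb (xa (xb T4.l9 T4.l9) T4.l9) T4.l9) T4.l9) T4.l9)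
  (TrL.c (I.pos (nat_lit 0) (nat_lit 0)) (xa (xa T2.l4 T2.l4) T2.l4)
  (TrL.c (I.pos (nat_lit 0) (nat_lit 0)) T4.l5
  (TrL.c (I.pos (nat_lit 0) (nat_lit 0)) T2.l5
  (TrL.c (I.pos (nat_lit 0) (nat_lit 0)) (xa (xa T2.l9 T2.l9) T2.l9)
  (TrL.c (I.pos (nat_lit 0) (nat_lit 0)) T4.l6
  (TrL.c (I.pos (nat_lit 0) (nat_lit 0)) T2.l7
  (TrL.c (I.pos (nat_lit 0) (nat_lit 0)) T4.l7
  TrL.n)))))))) (by decide +kernel)
theorem bx1_9 : BoxOK sI cl5 cl13 cl7 t4 t2 b1_9 :=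
  box_mk (TrL.c (I.pos (nat_lit 0) (nat_lit 0)) (xb (xa (xb T4.l10 (xa T4.l10 T4.l10)) (xb T4.l10 T4.l10)) (xa (xb (xa T4.l10 T4.l10) (xa T4.l10 T4.l10)) (xb (xa T4.l10 T4.l10) (xa T4.l10 T4.l10))))
  (TrL.c (I.pos (nat_lit 0) (nat_lit 0)) (xb (xa T2.l4 T2.l4) (xa T2.l4 T2.l4))
  (TrL.c (I.pos (nat_lit 0) (nat_lit 0)) T4.l5
  (TrL.c (I.pos (nat_lit 0) (nat_lit 0)) T2.l5
  (TrL.c (I.pos (nat_lit 0) (nat_lit 0)) (xb (xa T2.l10 T2.l10) (xa T2.l10 T2.l10))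
  (TrL.c (I.pos (nat_lit 0) (nat_lit 0)) (xb T4.l6 T4.l6)
  (TrL.c (I.pos (nat_lit 0) (nat_lit 0)) T2.l7
  (TrL.c (I.pos (nat_lit 0) (nat_lit 0)) T4.l7
  TrL.n)))))))) (by decide +kernel)
theorem bx1_10 : BoxOK sI cl5 cl13 cl7 t4 t2 b1_10 :=
  box_mk (TrL.c (I.pos (nat_lit 0) (nat_lit 0)) (xa (xa (xb (xa T4.l9 T4.l9) (xa (xb T4.l9 (xa T4.l9 T4.l9)) (xb T4.l9 T4.l9))) (xb T4.l9 (xa T4.l9 T4.l9))) (xa T4.l9 (xb T4.l9 (xa T4.l9 T4.l9))))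
  (TrL.c (I.pos (nat_lit 0) (nat_lit 0)) (xa T2.l4 T2.l4)
  (TrL.c (I.pos (nat_lit 0) (nat_lit 0)) (xa T4.l5 T4.l5)
  (TrL.c (I.pos (nat_lit 0) (nat_lit 0)) T2.l5
  (TrL.c (I.pos (nat_lit 0) (nat_lit 0)) (xa (xa T2.l9 T2.l9) T2.l9)
  (TrL.c (I.pos (nat_lit 0) (nat_lit 0)) (xa T4.l6 T4.l6)
  (TrL.c (I.pos (nat_lit 0) (nat_lit 0)) T2.l7
  (TrL.c (I.pos (nat_lit 0) (nat_lit 0)) (xa T4.l7 T4.l7)
  TrL.n)))))))) (by decide +kernel)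
theorem bx1_11 : BoxOK sI cl5 cl13 cl7 t4 t2 b1_11 :=
  box_mk (TrL.c (I.pos (nat_lit 0) (nat_lit 0)) (xa (xb T4.l0 (xa T4.l0 T4.l10)) T4.l0)
  (TrL.c (I.pos (nat_lit 0) (nat_lit 0)) T2.l4
  (TrL.c (I.pos (nat_lit 0) (nat_lit 0)) T4.l5
  (TrL.c (I.pos (nat_lit 0) (nat_lit 0)) T2.l5
  (TrL.c (I.pos (nat_lit 0) (nat_lit 0)) (xa T2.l10 T2.l0)
  (TrL.c (I.pos (nat_lit 0) (nat_lit 0)) T4.l6
  (TrL.c (I.pos (nat_lit 0) (nat_lit 0)) T2.l7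
  (TrL.c (I.pos (nat_lit 0) (nat_lit 0)) T4.l7
  TrL.n)))))))) (by decide +kernel)
theorem bx1_12 : BoxOK sI cl5 cl13 cl7 t4 t2 b1_12 :=
  box_mk (TrL.c (I.pos (nat_lit 0) (nat_lit 0)) (xb (xa T4.l10 T4.l10) (xa T4.l10 T4.l10))
  (TrL.c (I.pos (nat_lit 0) (nat_lit 0)) T2.l4
  (TrL.c (I.pos (nat_lit 0) (nat_lit 0)) T4.l5
  (TrL.c (I.pos (nat_lit 0) (nat_lit 0)) T2.l5
  (TrL.c (I.pos (nat_lit 0) (nat_lit 0)) (xb T2.l10 T2.l10)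
  (TrL.c (I.pos (nat_lit 0) (nat_lit 0)) T4.l1
  (TrL.c (I.pos (nat_lit 0) (nat_lit 0)) T2.l7
  (TrL.c (I.pos (nat_lit 0) (nat_lit 0)) T4.l7
  TrL.n)))))))) (by decide +kernel)
theorem bx1_13 : BoxOK sI cl5 cl13 cl7 t4 t2 b1_13 :=
  box_mk (TrL.c (I.pos (nat_lit 0) (nat_lit 0)) (xa (xb T4.l0 (xa T4.l0 (xb T4.l0 T4.l0))) (xb (xa T4.l0 T4.l0) (xa (xb T4.l0 T4.l0) (xb T4.l0 T4.l0))))
  (TrL.c (I.pos (nat_lit 0) (nat_lit 0)) (xa (xb T2.l4 T2.l4) (xb T2.l4 T2.l4))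
  (TrL.c (I.pos (nat_lit 0) (nat_lit 0)) T4.l5
  (TrL.c (I.pos (nat_lit 0) (nat_lit 0)) T2.l5
  (TrL.c (I.pos (nat_lit 0) (nat_lit 0)) (xa T2.l6 (xb T2.l6 T2.l6))
  (TrL.c (I.pos (nat_lit 0) (nat_lit 0)) T4.l6
  (TrL.c (I.pos (nat_lit 0) (nat_lit 0)) T2.l7
  (TrL.c (I.pos (nat_lit 0) (nat_lit 0)) T4.l7
  TrL.n)))))))) (by decide +kernel)
theorem sv1 : StarV sI cl5 cl13 cl7 t4 t2 t1 :=
  (bt_n (bt_n (bt_n (bt_b bx1_0) (bt_n (bt_b bx1_1) (bt_b bx1_2))) (bt_n (bt_n (bt_b bx1_3) (bt_b bx1_4)) (bt_n (bt_b bx1_5) (bt_b bx1_6)))) (bt_n (bt_n (bt_b bx1_7) (bt_n (bt_b bx1_8) (bt_b bx1_9))) (bt_n (bt_n (bt_b bx1_10) (bt_b bx1_11)) (bt_n (bt_b bx1_12) (bt_b bx1_13)))))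
def S1 : StarD := StarD.mk cl5 cl13 cl7 4 2 t1
theorem bx2_0 : BoxOK sI cl7 cl5 cl13 t0 t5 b2_0 :=
  box_mk (TrL.c (I.pos (nat_lit 0) (nat_lit 0)) (xb (xa (xb T0.l0 (xa T0.l0 T0.l0)) (xb T0.l0 T0.l0)) (xa (xb (xa (xb T0.l0 T0.l0) T0.l0) (xa (xb (xa T0.l0 T0.l0) (xs T0.l0 (xa T0.l0 T0.l0))) (xa (xb T0.l0 T0.l0) (xb T0.l0 T0.l0)))) (xa (xb T0.l0 (xa T0.l0 T0.l0)) (xb T0.l0 (xa T0.l0 T0.l0)))))
  (TrL.c (I.pos (nat_lit 0) (nat_lit 0)) (xb (xa T5.l1 (xk T5.l1 T5.l1)) (xa (xk (xb T5.l1 T5.l1) T5.l1) (xk (xb T5.l1 T5.l1) T5.l1)))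
  (TrL.c (I.pos (nat_lit 0) (nat_lit 111196574)) (xR T0.l1 T0.l1)
  (TrL.c (I.pos (nat_lit 0) (nat_lit 77433728)) (xR T5.l2 T5.l2)
  (TrL.c (I.pos (nat_lit 0) (nat_lit 0)) (xb (xa (xk T5.l3 T5.l3) (xk (xb T5.l3 T5.l3) (xb T5.l3 T5.l3))) (xa (xk T5.l3 T5.l3) (xk (xb T5.l3 T5.l3) (xb T5.l3 T5.l3))))
  (TrL.c (I.pos (nat_lit 0) (nat_lit 0)) (xb T0.l2 T0.l2)
  (TrL.c (I.mix (nat_lit 29511666) (nat_lit 77433728)) (xR T5.l4 (xR T5.l4 T5.l4))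
  (TrL.c (I.mix (nat_lit 29511666) (nat_lit 46070178)) T0.l3
  TrL.n)))))))) (by decide +kernel)
theorem bx2_1 : BoxOK sI cl7 cl5 cl13 t0 t5 b2_1 :=
  box_mk (TrL.c (I.pos (nat_lit 0) (nat_lit 0)) (xb T0.l4 (xa T0.l4 (xb T0.l4 T0.l4)))
  (TrL.c (I.pos (nat_lit 0) (nat_lit 0)) T5.l1
  (TrL.c (I.pos (nat_lit 0) (nat_lit 111196574)) T0.l1
  (TrL.c (I.pos (nat_lit 0) (nat_lit 77433728)) T5.l2
  (TrL.c (I.pos (nat_lit 0) (nat_lit 0)) T5.l5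
  (TrL.c (I.pos (nat_lit 0) (nat_lit 0)) T0.l2
  (TrL.c (I.mix (nat_lit 29511666) (nat_lit 77433728)) T5.l4
  (TrL.c (I.mix (nat_lit 29511666) (nat_lit 46070178)) T0.l3
  TrL.n)))))))) (by decide +kernel)
theorem bx2_2 : BoxOK sI cl7 cl5 cl13 t0 t5 b2_2 :=
  box_mk (TrL.c (I.pos (nat_lit 0) (nat_lit 0)) (xb (xa (xb T0.l4 T0.l4) T0.l4) (xa (xb T0.l4 T0.l4) T0.l4))
  (TrL.c (I.pos (nat_lit 0) (nat_lit 0)) (xb T5.l1 T5.l1)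
  (TrL.c (I.pos (nat_lit 0) (nat_lit 111196574)) T0.l1
  (TrL.c (I.pos (nat_lit 0) (nat_lit 77433728)) T5.l2
  (TrL.c (I.pos (nat_lit 0) (nat_lit 0)) (xb (xk T5.l5 T5.l5) T5.l5)
  (TrL.c (I.pos (nat_lit 0) (nat_lit 0)) T0.l2
  (TrL.c (I.mix (nat_lit 29511666) (nat_lit 77433728)) T5.l4
  (TrL.c (I.mix (nat_lit 29511666) (nat_lit 46070178)) T0.l3
  TrL.n)))))))) (by decide +kernel)
theorem bx2_3 : BoxOK sI cl7 cl5 cl13 t0 t5 b2_3 :=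
  box_mk (TrL.c (I.pos (nat_lit 0) (nat_lit 0)) T5.l1
  (TrL.c (I.pos (nat_lit 0) (nat_lit 0)) T0.l1
  (TrL.c (I.mix (nat_lit 29511666) (nat_lit 77433728)) T5.l6
  (TrL.c (I.mix (nat_lit 29511666) (nat_lit 46070178)) T0.l9
  TrL.n)))) (by decide +kernel)
theorem bx2_4 : BoxOK sI cl7 cl5 cl13 t0 t5 b2_4 :=
  box_mk (TrL.c (I.pos (nat_lit 0) (nat_lit 0)) (xa (xb T0.l4 (xa T0.l4 T0.l4)) (xb T0.l4 T0.l4))
  (TrL.c (I.pos (nat_lit 0) (nat_lit 0)) (xa T5.l1 T5.l1)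
  (TrL.c (I.pos (nat_lit 0) (nat_lit 111196574)) T0.l1
  (TrL.c (I.pos (nat_lit 0) (nat_lit 77433728)) T5.l2
  (TrL.c (I.pos (nat_lit 0) (nat_lit 0)) (xa (xb T5.l5 T5.l5) (xb (xk T5.l5 T5.l5) (xk T5.l5 T5.l5)))
  (TrL.c (I.pos (nat_lit 0) (nat_lit 0)) T0.l2
  (TrL.c (I.mix (nat_lit 29511666) (nat_lit 77433728)) T5.l8
  (TrL.c (I.mix (nat_lit 29511666) (nat_lit 46070178)) T0.l3
  TrL.n)))))))) (by decide +kernel)
theorem bx2_5 : BoxOK sI cl7 cl5 cl13 t0 t5 b2_5 :=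
  box_mk (TrL.c (I.pos (nat_lit 0) (nat_lit 0)) T5.l1
  (TrL.c (I.pos (nat_lit 0) (nat_lit 0)) T0.l1
  (TrL.c (I.mix (nat_lit 29511666) (nat_lit 77433728)) T5.l6
  (TrL.c (I.mix (nat_lit 29511666) (nat_lit 46070178)) T0.l9
  TrL.n)))) (by decide +kernel)
theorem bx2_6 : BoxOK sI cl7 cl5 cl13 t0 t5 b2_6 :=
  box_mk (TrL.c (I.pos (nat_lit 0) (nat_lit 0)) (xb (xa (xb T0.l11 T0.l11) (xb T0.l11 T0.l11)) (xa (xb (xa T0.l11 T0.l11) (xa T0.l11 T0.l11)) (xb (xa T0.l11 T0.l11) (xa T0.l11 T0.l11))))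
  (TrL.c (I.pos (nat_lit 0) (nat_lit 0)) (xk (xb T5.l1 (xa T5.l1 T5.l1)) (xb T5.l1 (xa T5.l1 T5.l1)))
  (TrL.c (I.pos (nat_lit 0) (nat_lit 111196574)) (xR T0.l1 T0.l1)
  (TrL.c (I.pos (nat_lit 0) (nat_lit 77433728)) T5.l2
  (TrL.c (I.pos (nat_lit 0) (nat_lit 0)) (xb (xk (xa T5.l11 T5.l11) (xa T5.l11 T5.l11)) (xk (xa T5.l11 T5.l3) (xa T5.l11 T5.l3)))
  (TrL.c (I.pos (nat_lit 0) (nat_lit 0)) T0.l2
  (TrL.c (I.mix (nat_lit 29511666) (nat_lit 77433728)) (xR T5.l4 T5.l4)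
  (TrL.c (I.mix (nat_lit 29511666) (nat_lit 46070178)) T0.l7
  TrL.n)))))))) (by decide +kernel)
theorem bx2_7 : BoxOK sI cl7 cl5 cl13 t0 t5 b2_7 :=
  box_mk (TrL.c (I.pos (nat_lit 0) (nat_lit 0)) (xb (xa (xb T0.l4 T0.l4) T0.l4) (xa T0.l4 T0.l4))
  (TrL.c (I.pos (nat_lit 0) (nat_lit 0)) T5.l1
  (TrL.c (I.pos (nat_lit 0) (nat_lit 111196574)) T0.l1
  (TrL.c (I.pos (nat_lit 0) (nat_lit 77433728)) T5.l2
  (TrL.c (I.pos (nat_lit 0) (nat_lit 0)) T5.l5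
  (TrL.c (I.pos (nat_lit 0) (nat_lit 0)) T0.l2
  (TrL.c (I.mix (nat_lit 29511666) (nat_lit 77433728)) T5.l4
  (TrL.c (I.mix (nat_lit 29511666) (nat_lit 46070178)) T0.l3
  TrL.n)))))))) (by decide +kernel)
theorem c2_8_0 : chkTag sI cl7 cl5 cl13 t0 b2_8 (tg true true false RT.r2) (I.pos (nat_lit 0) (nat_lit 0))
  (xa (xb (xa (xb T0.l0 T0.l0) (xb T0.l0 T0.l0)) (xa (xb (xc T0.l0 T0.l0) (xc (xa T0.l0 T0.l0) T0.l0)) (xb (xc T0.l0 T0.l0) (xc (xa T0.l0 T0.l0) T0.l0)))) (xb (xa (xb T0.l0 T0.l0) (xb T0.l0 T0.l0)) (xa (xb T0.l8 (xc T0.l8 T0.l8)) (xb (xc T0.l0 T0.l0) (xc (xa T0.l0 T0.l0) (xa T0.l0 T0.l0)))))) = true := by decide +kernel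
theorem c2_8_1 : chkTag sI cl7 cl5 cl13 t5 b2_8 (tg true false false RT.r3) (I.pos (nat_lit 0) (nat_lit 0))
  (xa (xb (xk T5.l1 T5.l1) (xk T5.l1 T5.l1)) (xb T5.l9 (xk (xa T5.l1 T5.l9) (xa T5.l1 T5.l1)))) = true := by decide +kernel
theorem c2_8_2 : chkTag sI cl7 cl5 cl13 t0 b2_8 (Tag.mk true true false RT.tl RT.r4) (I.pos (nat_lit 0) (nat_lit 111196574))
  (xR T0.l1 (xR T0.l1 T0.l9)) = true := by decide +kernel
theorem c2_8_3 : chkTag sI cl7 cl5 cl13 t5 b2_8 (Tag.mk true false false RT.tl RT.r5) (I.pos (nat_lit 0) (nat_lit 77433728))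
  (xR T5.l2 (xR T5.l2 T5.l2)) = true := by decide +kernel
theorem c2_8_4 : chkTag sI cl7 cl5 cl13 t5 b2_8 (tg false false false RT.r3) (I.pos (nat_lit 0) (nat_lit 0))
  (xa (xb (xk (xa (xb (xk T5.l0 T5.l0) T5.l3) (xb T5.l0 T5.l3)) (xa (xb (xk T5.l0 T5.l0) T5.l3) (xb T5.l0 T5.l3))) (xk (xa T5.l3 T5.l3) (xa T5.l3 T5.l3))) (xb (xk (xa (xb (xk (xa T5.l0 T5.l0) (xa T5.l0 T5.l0)) T5.l3) (xb (xk (xa (xb T5.l0 T5.l3) (xb T5.l3 T5.l3)) (xa (xb T5.l0 T5.l3) (xb T5.l3 T5.l3))) (xk (xa T5.l3 (xb T5.l3 T5.l3)) (xa T5.l3 (xb T5.l3 T5.l3))))) (xa (xb (xk (xa T5.l0 T5.l0) (xa T5.l0 T5.l0)) T5.l3) (xb (xk (xa (xb T5.l3 T5.l3) (xb T5.l3 T5.l3)) (xa (xb T5.l3 T5.l3) (xb T5.l3 T5.l3))) (xk (xa T5.l3 T5.l3) (xa T5.l3 T5.l3))))) (xk (xa (xb T5.l3 (xk T5.l3 T5.l3)) (xb (xk (xa T5.l3 (xb T5.l3 T5.l3)) (xa T5.l3 (xb T5.l3 T5.l3))) (xk (xa T5.l3 (xb T5.l3 T5.l3))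 (xa T5.l3 (xb T5.l3 T5.l3))))) (xa (xb T5.l3 (xk T5.l3 T5.l3)) (xb (xk (xa T5.l3 T5.l3) (xa T5.l3 T5.l3)) (xk (xa T5.l3 (xs T5.l3 T5.l3)) (xa T5.l3 (xs T5.l3 T5.l3)))))))) = true := by decide +kernel
theorem c2_8_5 : chkTag sI cl7 cl5 cl13 t0 b2_8 (tg false true false RT.r4) (I.pos (nat_lit 0) (nat_lit 0))
  (xa (xb (xk T0.l2 T0.l2) T0.l2) (xb (xk (xa T0.l2 T0.l2) (xa T0.l2 T0.l2)) (xk (xa T0.l2 T0.l2) (xa T0.l2 T0.l2)))) = true := by decide +kernel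
theorem c2_8_6 : chkTag sI cl7 cl5 cl13 t5 b2_8 (Tag.mk false false false RT.tl RT.r5) (I.mix (nat_lit 29511666) (nat_lit 77433728))
  (xR T5.l4 (xR T5.l4 (xR T5.l4 (xb (xk T5.l4 T5.l4) (xk T5.l4 T5.l4))))) = true := by decide +kernel
theorem c2_8_7 : chkTag sI cl7 cl5 cl13 t0 b2_8 (Tag.mk false true false RT.tl RT.r6) (I.mix (nat_lit 29511666) (nat_lit 46070178))
  T0.l3 = true := by decide +kernel
theorem bx2_8 : BoxOK sI cl7 cl5 cl13 t0 t5 b2_8 :=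
  box_mk' [(tg true true false RT.r2), (tg true false false RT.r3), (Tag.mk true true false RT.tl RT.r4), (Tag.mk true false false RT.tl RT.r5), (tg false false false RT.r3), (tg false true false RT.r4), (Tag.mk false false false RT.tl RT.r5), (Tag.mk false true false RT.tl RT.r6)] rfl (allL_c (ex_mk c2_8_0) (allL_c (ex_mk c2_8_1) (allL_c (ex_mk c2_8_2) (allL_c (ex_mk c2_8_3) (allL_c (ex_mk c2_8_4) (allL_c (ex_mk c2_8_5) (allL_c (ex_mk c2_8_6) (allL_c (ex_mk c2_8_7) allL_n))))))))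
theorem bx2_9 : BoxOK sI cl7 cl5 cl13 t0 t5 b2_9 :=
  box_mk (TrL.c (I.pos (nat_lit 0) (nat_lit 0)) (xa (xb T0.l11 (xa T0.l11 T0.l11)) T0.l0)
  (TrL.c (I.pos (nat_lit 0) (nat_lit 0)) T5.l1
  (TrL.c (I.pos (nat_lit 0) (nat_lit 111196574)) T0.l1
  (TrL.c (I.pos (nat_lit 0) (nat_lit 77433728)) T5.l2
  (TrL.c (I.pos (nat_lit 0) (nat_lit 0)) (xb (xa (xk T5.l11 T5.l11) (xk (xa T5.l11 T5.l3) (xa T5.l11 T5.l3))) (xa T5.l11 T5.l3))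
  (TrL.c (I.pos (nat_lit 0) (nat_lit 0)) T0.l2
  (TrL.c (I.mix (nat_lit 29511666) (nat_lit 77433728)) T5.l8
  (TrL.c (I.mix (nat_lit 29511666) (nat_lit 46070178)) T0.l3
  TrL.n)))))))) (by decide +kernel)
theorem bx2_10 : BoxOK sI cl7 cl5 cl13 t0 t5 b2_10 :=
  box_mk (TrL.c (I.pos (nat_lit 0) (nat_lit 0)) (xb (xa T0.l11 T0.l11) (xa T0.l11 T0.l11))
  (TrL.c (I.pos (nat_lit 0) (nat_lit 0)) (xk (xb T5.l1 T5.l1) T5.l1)
  (TrL.c (I.pos (nat_lit 0) (nat_lit 111196574)) T0.l1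
  (TrL.c (I.pos (nat_lit 0) (nat_lit 77433728)) T5.l2
  (TrL.c (I.pos (nat_lit 0) (nat_lit 0)) (xk (xb T5.l11 T5.l11) (xb T5.l11 T5.l11))
  (TrL.c (I.pos (nat_lit 0) (nat_lit 0)) T0.l2
  (TrL.c (I.mix (nat_lit 29511666) (nat_lit 77433728)) (xR T5.l4 T5.l4)
  (TrL.c (I.mix (nat_lit 29511666) (nat_lit 46070178)) T0.l3
  TrL.n)))))))) (by decide +kernel)
theorem bx2_11 : BoxOK sI cl7 cl5 cl13 t0 t5 b2_11 :=
  box_mk (TrL.c (I.pos (nat_lit 0) (nat_lit 0)) (xa (xb (xa T0.l0 T0.l0) (xa (xb T0.l0 T0.l0) (xb T0.l0 T0.l0))) (xb (xa T0.l0 T0.l0) (xa (xb T0.l0 T0.l0) (xb T0.l0 T0.l0))))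
  (TrL.c (I.pos (nat_lit 0) (nat_lit 0)) (xk (xa T5.l1 (xb T5.l1 T5.l1)) (xa T5.l1 (xb T5.l1 T5.l1)))
  (TrL.c (I.pos (nat_lit 0) (nat_lit 111196574)) (xR T0.l1 T0.l1)
  (TrL.c (I.pos (nat_lit 0) (nat_lit 77433728)) T5.l2
  (TrL.c (I.pos (nat_lit 0) (nat_lit 0)) (xk (xa T5.l3 (xb T5.l3 T5.l3)) (xb T5.l3 (xa T5.l3 T5.l3)))
  (TrL.c (I.pos (nat_lit 0) (nat_lit 0)) T0.l2
  (TrL.c (I.mix (nat_lit 29511666) (nat_lit 77433728)) (xR T5.l4 T5.l4)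
  (TrL.c (I.mix (nat_lit 29511666) (nat_lit 46070178)) T0.l3
  TrL.n)))))))) (by decide +kernel)
theorem sv2 : StarV sI cl7 cl5 cl13 t0 t5 t2 :=
  (bt_n (bt_n (bt_n (bt_b bx2_0) (bt_n (bt_b bx2_1) (bt_b bx2_2))) (bt_n (bt_b bx2_3) (bt_n (bt_b bx2_4) (bt_b bx2_5)))) (bt_n (bt_n (bt_b bx2_6) (bt_n (bt_b bx2_7) (bt_b bx2_8))) (bt_n (bt_b bx2_9) (bt_n (bt_b bx2_10) (bt_b bx2_11)))))
def S2 : StarD := StarD.mk cl7 cl5 cl13 0 5 t2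
theorem bx3_0 : BoxOK sI cl7 cl13 cl5 t5 t0 b3_0 :=
  box_mk (TrL.c (I.pos (nat_lit 0) (nat_lit 0)) (xa (xb (xa (xb T5.l0 (xa T5.l0 T5.l0)) (xb T5.l0 T5.l0)) (xa (xb (xa (xc T5.l0 T5.l0) T5.l0) (xa (xs T5.l0 (xc T5.l0 T5.l0)) (xs T5.l0 (xc T5.l0 T5.l0)))) (xb (xa T5.l0 T5.l0) (xa (xs T5.l0 T5.l0) (xs T5.l0 T5.l0))))) (xa (xb (xb T5.l0 T5.l0) (xb T5.l0 (xa T5.l0 T5.l0))) (xb (xb (xa T5.l0 T5.l0) T5.l0) (xb (xa T5.l0 T5.l0) (xa T5.l0 T5.l0)))))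
  (TrL.c (I.pos (nat_lit 0) (nat_lit 0)) (xa (xk (xb (xa T0.l6 T0.l6) (xa (xk T0.l6 T0.l6) (xk T0.l6 T0.l6))) (xb T0.l6 (xa T0.l6 T0.l6))) (xk (xb (xa T0.l6 T0.l6) (xa (xk T0.l6 T0.l6) (xk T0.l6 T0.l6))) (xa (xb T0.l6 T0.l6) (xb T0.l6 (xk T0.l6 T0.l6)))))
  (TrL.c (I.pos (nat_lit 0) (nat_lit 111196574)) (xR T5.l8 (xR T5.l8 T5.l8))
  (TrL.c (I.pos (nat_lit 0) (nat_lit 77433728)) (xR T0.l7 (xR T0.l7 (xR T0.l7 T0.l7)))
  (TrL.c (I.pos (nat_lit 0) (nat_lit 0)) (xa (xk (xb (xa T0.l8 T0.l8) (xa T0.l8 T0.l8)) (xb (xa T0.l8 T0.l8) T0.l8)) (xk (xb (xa T0.l8 (xk T0.l8 T0.l8)) (xa T0.l8 (xk T0.l8 T0.l8))) (xb (xa T0.l8 (xk T0.l8 T0.l8)) (xa T0.l8 (xk T0.l8 (xb T0.l8 T0.l8))))))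
  (TrL.c (I.pos (nat_lit 0) (nat_lit 0)) (xk (xa T5.l9 (xb T5.l9 T5.l9)) (xa T5.l9 T5.l9))
  (TrL.c (I.mix (nat_lit 29511666) (nat_lit 77433728)) (xR T0.l9 (xR T0.l9 (xR T0.l9 T0.l9)))
  (TrL.c (I.mix (nat_lit 29511666) (nat_lit 46070178)) T5.l10
  TrL.n)))))))) (by decide +kernel)
theorem bx3_1 : BoxOK sI cl7 cl13 cl5 t5 t0 b3_1 :=
  box_mk (TrL.c (I.pos (nat_lit 0) (nat_lit 0)) (xa (xb T5.l12 T5.l12) T5.l0)
  (TrL.c (I.pos (nat_lit 0) (nat_lit 0)) (xa T0.l6 T0.l6)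
  (TrL.c (I.pos (nat_lit 0) (nat_lit 111196574)) T5.l8
  (TrL.c (I.pos (nat_lit 0) (nat_lit 77433728)) T0.l7
  (TrL.c (I.pos (nat_lit 0) (nat_lit 0)) (xa (xk (xb T0.l12 T0.l12) (xb T0.l12 T0.l12)) (xk (xb (xa T0.l12 T0.l12) T0.l13) (xb (xa T0.l12 T0.l12) T0.l12)))
  (TrL.c (I.pos (nat_lit 0) (nat_lit 0)) T5.l9
  (TrL.c (I.mix (nat_lit 29511666) (nat_lit 77433728)) (xR T0.l9 T0.l9)
  (TrL.c (I.mix (nat_lit 29511666) (nat_lit 46070178)) T5.l10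
  TrL.n)))))))) (by decide +kernel)
theorem bx3_2 : BoxOK sI cl7 cl13 cl5 t5 t0 b3_2 :=
  box_mk (TrL.c (I.pos (nat_lit 0) (nat_lit 0)) (xa (xa (xb (xa T5.l12 T5.l12) T5.l12) T5.l12) (xa T5.l12 T5.l12))
  (TrL.c (I.pos (nat_lit 0) (nat_lit 0)) (xa (xa T0.l12 T0.l6) (xa T0.l6 T0.l6))
  (TrL.c (I.pos (nat_lit 0) (nat_lit 111196574)) T5.l8
  (TrL.c (I.pos (nat_lit 0) (nat_lit 77433728)) T0.l7
  (TrL.c (I.pos (nat_lit 0) (nat_lit 0)) (xa (xa T0.l6 T0.l12) T0.l12)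
  (TrL.c (I.pos (nat_lit 0) (nat_lit 0)) T5.l9
  (TrL.c (I.mix (nat_lit 29511666) (nat_lit 77433728)) T0.l9
  (TrL.c (I.mix (nat_lit 29511666) (nat_lit 46070178)) T5.l10
  TrL.n)))))))) (by decide +kernel)
theorem bx3_3 : BoxOK sI cl7 cl13 cl5 t5 t0 b3_3 :=
  box_mk (TrL.c (I.pos (nat_lit 0) (nat_lit 0)) (xb (xa (xb T5.l13 T5.l13) (xb T5.l13 T5.l13)) (xa (xb (xa T5.l13 T5.l13) (xa T5.l13 T5.l13)) (xb (xa T5.l13 T5.l13) (xa T5.l13 T5.l13))))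
  (TrL.c (I.pos (nat_lit 0) (nat_lit 0)) (xb (xk (xa T0.l6 T0.l6) (xa T0.l6 T0.l6)) (xk (xa T0.l6 (xb T0.l6 T0.l6)) (xa T0.l6 T0.l6)))
  (TrL.c (I.pos (nat_lit 0) (nat_lit 111196574)) (xR T5.l8 T5.l8)
  (TrL.c (I.pos (nat_lit 0) (nat_lit 77433728)) (xR T0.l7 T0.l7)
  (TrL.c (I.pos (nat_lit 0) (nat_lit 0)) (xb (xk (xa T0.l13 (xb T0.l13 T0.l13)) (xa T0.l13 (xb T0.l13 T0.l13))) (xk (xa T0.l8 (xk T0.l8 T0.l8)) (xa T0.l8 (xb T0.l13 T0.l8))))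
  (TrL.c (I.pos (nat_lit 0) (nat_lit 0)) (xk T5.l9 T5.l9)
  (TrL.c (I.mix (nat_lit 29511666) (nat_lit 77433728)) (xR T0.l9 (xR T0.l9 T0.l9))
  (TrL.c (I.mix (nat_lit 29511666) (nat_lit 46070178)) T5.l10
  TrL.n)))))))) (by decide +kernel)
theorem bx3_4 : BoxOK sI cl7 cl13 cl5 t5 t0 b3_4 :=
  box_mk (TrL.c (I.pos (nat_lit 0) (nat_lit 0)) (xa (xa (xb (xa (xb T5.l12 T5.l12) T5.l12) (xa (xb T5.l12 (xa T5.l12 T5.l12)) T5.l12)) (xb T5.l12 (xa T5.l12 T5.l12))) (xa (xb T5.l12 (xa T5.l12 T5.l12)) (xa T5.l12 (xb T5.l12 (xa T5.l12 T5.l12)))))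
  (TrL.c (I.pos (nat_lit 0) (nat_lit 0)) (xa (xa T0.l6 T0.l6) (xa T0.l6 (xk T0.l6 T0.l6)))
  (TrL.c (I.pos (nat_lit 0) (nat_lit 111196574)) T5.l8
  (TrL.c (I.pos (nat_lit 0) (nat_lit 77433728)) T0.l7
  (TrL.c (I.pos (nat_lit 0) (nat_lit 0)) (xa (xa (xb T0.l12 T0.l12) T0.l12) (xa T0.l12 T0.l12))
  (TrL.c (I.pos (nat_lit 0) (nat_lit 0)) (xa T5.l9 T5.l9)
  (TrL.c (I.mix (nat_lit 29511666) (nat_lit 77433728)) T0.l9
  (TrL.c (I.mix (nat_lit 29511666) (nat_lit 46070178)) T5.l10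
  TrL.n)))))))) (by decide +kernel)
theorem bx3_5 : BoxOK sI cl7 cl13 cl5 t5 t0 b3_5 :=
  box_mk (TrL.c (I.pos (nat_lit 0) (nat_lit 0)) (xa T5.l0 T5.l0)
  (TrL.c (I.pos (nat_lit 0) (nat_lit 0)) (xa T0.l6 T0.l6)
  (TrL.c (I.pos (nat_lit 0) (nat_lit 111196574)) (xR T5.l8 T5.l8)
  (TrL.c (I.pos (nat_lit 0) (nat_lit 77433728)) T0.l7
  (TrL.c (I.pos (nat_lit 0) (nat_lit 0)) (xk (xa (xb T0.l13 T0.l13) (xb (xk T0.l0 T0.l0) T0.l0)) (xa (xb T0.l13 T0.l13) (xb T0.l8 T0.l13)))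
  (TrL.c (I.pos (nat_lit 0) (nat_lit 0)) T5.l9
  (TrL.c (I.mix (nat_lit 29511666) (nat_lit 77433728)) (xR T0.l9 T0.l1)
  (TrL.c (I.mix (nat_lit 29511666) (nat_lit 46070178)) T5.l10
  TrL.n)))))))) (by decide +kernel)
theorem bx3_6 : BoxOK sI cl7 cl13 cl5 t5 t0 b3_6 :=
  box_mk (TrL.c (I.pos (nat_lit 0) (nat_lit 0)) T5.l0
  (TrL.c (I.pos (nat_lit 0) (nat_lit 0)) T0.l6
  (TrL.c (I.pos (nat_lit 0) (nat_lit 111196574)) T5.l8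
  (TrL.c (I.pos (nat_lit 0) (nat_lit 77433728)) T0.l7
  (TrL.c (I.pos (nat_lit 0) (nat_lit 0)) (xk T0.l12 T0.l12)
  (TrL.c (I.pos (nat_lit 0) (nat_lit 0)) T5.l9
  (TrL.c (I.mix (nat_lit 29511666) (nat_lit 77433728)) T0.l9
  (TrL.c (I.mix (nat_lit 29511666) (nat_lit 46070178)) T5.l10
  TrL.n)))))))) (by decide +kernel)
theorem bx3_7 : BoxOK sI cl7 cl13 cl5 t5 t0 b3_7 :=
  box_mk (TrL.c (I.pos (nat_lit 0) (nat_lit 0)) (xa T5.l12 T5.l12)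
  (TrL.c (I.pos (nat_lit 0) (nat_lit 0)) (xa T0.l6 T0.l6)
  (TrL.c (I.pos (nat_lit 0) (nat_lit 111196574)) T5.l8
  (TrL.c (I.pos (nat_lit 0) (nat_lit 77433728)) T0.l7
  (TrL.c (I.pos (nat_lit 0) (nat_lit 0)) (xa (xa T0.l12 T0.l12) T0.l12)
  (TrL.c (I.pos (nat_lit 0) (nat_lit 0)) T5.l9
  (TrL.c (I.mix (nat_lit 29511666) (nat_lit 77433728)) T0.l9
  (TrL.c (I.mix (nat_lit 29511666) (nat_lit 46070178)) T5.l10
  TrL.n)))))))) (by decide +kernel)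
theorem bx3_8 : BoxOK sI cl7 cl13 cl5 t5 t0 b3_8 :=
  box_mk (TrL.c (I.pos (nat_lit 0) (nat_lit 0)) (xa (xa (xa (xb T5.l12 (xa (xb T5.l12 T5.l12) T5.l12)) (xb T5.l12 (xa T5.l12 T5.l12))) (xa T5.l12 T5.l12)) (xa (xa T5.l12 T5.l12) (xa (xb T5.l12 (xa T5.l12 T5.l12)) (xb T5.l12 (xa T5.l12 T5.l12)))))
  (TrL.c (I.pos (nat_lit 0) (nat_lit 0)) (xa (xa (xb T0.l6 T0.l6) T0.l6) (xa (xa T0.l6 T0.l6) (xk T0.l6 T0.l6)))
  (TrL.c (I.pos (nat_lit 0) (nat_lit 111196574)) T5.l8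
  (TrL.c (I.pos (nat_lit 0) (nat_lit 77433728)) (xR T0.l7 T0.l7)
  (TrL.c (I.pos (nat_lit 0) (nat_lit 0)) (xa (xa (xb T0.l12 T0.l12) T0.l12) (xa T0.l12 (xk T0.l12 T0.l12)))
  (TrL.c (I.pos (nat_lit 0) (nat_lit 0)) (xa T5.l9 T5.l9)
  (TrL.c (I.mix (nat_lit 29511666) (nat_lit 77433728)) T0.l9
  (TrL.c (I.mix (nat_lit 29511666) (nat_lit 46070178)) T5.l10
  TrL.n)))))))) (by decide +kernel)
theorem bx3_9 : BoxOK sI cl7 cl13 cl5 t5 t0 b3_9 :=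
  box_mk (TrL.c (I.pos (nat_lit 0) (nat_lit 0)) (xb (xa T5.l12 T5.l0) (xa T5.l12 T5.l12))
  (TrL.c (I.pos (nat_lit 0) (nat_lit 0)) (xb T0.l6 T0.l6)
  (TrL.c (I.pos (nat_lit 0) (nat_lit 111196574)) T5.l8
  (TrL.c (I.pos (nat_lit 0) (nat_lit 77433728)) T0.l7
  (TrL.c (I.pos (nat_lit 0) (nat_lit 0)) (xb (xk (xa T0.l12 T0.l12) (xa T0.l12 T0.l12)) (xk (xa T0.l12 T0.l13) (xa T0.l12 T0.l12)))
  (TrL.c (I.pos (nat_lit 0) (nat_lit 0)) T5.l9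
  (TrL.c (I.mix (nat_lit 29511666) (nat_lit 77433728)) (xR T0.l9 T0.l9)
  (TrL.c (I.mix (nat_lit 29511666) (nat_lit 46070178)) T5.l10
  TrL.n)))))))) (by decide +kernel)
theorem bx3_10 : BoxOK sI cl7 cl13 cl5 t5 t0 b3_10 :=
  box_mk (TrL.c (I.pos (nat_lit 0) (nat_lit 0)) (xa (xa (xb T5.l12 T5.l12) T5.l12) T5.l12)
  (TrL.c (I.pos (nat_lit 0) (nat_lit 0)) (xa (xa T0.l6 T0.l6) (xa T0.l6 T0.l6))
  (TrL.c (I.pos (nat_lit 0) (nat_lit 111196574)) T5.l8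
  (TrL.c (I.pos (nat_lit 0) (nat_lit 77433728)) T0.l7
  (TrL.c (I.pos (nat_lit 0) (nat_lit 0)) (xa (xa T0.l6 T0.l12) T0.l12)
  (TrL.c (I.pos (nat_lit 0) (nat_lit 0)) T5.l9
  (TrL.c (I.mix (nat_lit 29511666) (nat_lit 77433728)) T0.l9
  (TrL.c (I.mix (nat_lit 29511666) (nat_lit 46070178)) T5.l10
  TrL.n)))))))) (by decide +kernel)
theorem c3_11_0 : chkTag sI cl7 cl13 cl5 t5 b3_11 (tg true true false RT.r2) (I.pos (nat_lit 0) (nat_lit 0))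
  (xa (xb (xa T5.l0 T5.l0) (xa (xb T5.l0 T5.l0) (xb T5.l0 (xa T5.l0 T5.l0)))) (xb (xa T5.l0 (xb T5.l0 T5.l0)) (xa (xb T5.l0 (xa T5.l0 T5.l0)) (xa T5.l0 (xb T5.l0 T5.l0))))) = true := by decide +kernel
theorem c3_11_1 : chkTag sI cl7 cl13 cl5 t0 b3_11 (tg true false false RT.r3) (I.pos (nat_lit 0) (nat_lit 0))
  (xa (xb (xk (xa T0.l6 (xb T0.l6 T0.l6)) (xa T0.l6 T0.l6)) (xk (xa T0.l6 (xb T0.l6 T0.l6)) (xa T0.l6 T0.l6))) (xb (xk (xa T0.l2 (xk T0.l2 T0.l2)) (xa (xb T0.l6 T0.l6) T0.l2)) (xk (xa T0.l2 (xk (xb T0.l2 T0.l2) T0.l2)) (xa (xb T0.l6 (xk T0.l6 T0.l6)) T0.l2)))) = true := by decide +kernel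
theorem c3_11_2 : chkTag sI cl7 cl13 cl5 t5 b3_11 (Tag.mk true true false RT.tl RT.r4) (I.pos (nat_lit 0) (nat_lit 111196574))
  (xR T5.l8 (xR T5.l8 (xR T5.l8 T5.l8))) = true := by decide +kernel
theorem c3_11_3 : chkTag sI cl7 cl13 cl5 t0 b3_11 (Tag.mk true false false RT.tl RT.r5) (I.pos (nat_lit 0) (nat_lit 77433728))
  (xR T0.l7 (xR T0.l7 (xa T0.l7 (xR T0.l7 T0.l7)))) = true := by decide +kernel
theorem c3_11_4 : chkTag sI cl7 cl13 cl5 t0 b3_11 (tg false false false RT.r3) (I.pos (nat_lit 0) (nat_lit 0))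
  (xa (xb (xk (xa (xb (xk T0.l8 T0.l8) T0.l8) (xb (xk (xa T0.l8 T0.l8) (xa T0.l8 T0.l8)) T0.l8)) (xa (xb (xk T0.l8 T0.l8) T0.l8) (xb (xk T0.l8 T0.l8) T0.l8))) (xk (xa T0.l8 T0.l8) (xa T0.l8 T0.l8))) (xb (xk (xa (xb (xk (xa T0.l8 T0.l8) (xa T0.l8 T0.l8)) T0.l8) (xb (xk (xa T0.l8 (xb T0.l8 T0.l8)) (xa T0.l8 (xb T0.l8 T0.l8))) (xk T0.l8 T0.l8))) (xa (xb (xk (xa T0.l8 T0.l8) (xa T0.l8 T0.l8)) T0.l8) (xb (xk (xa T0.l8 (xb T0.l8 T0.l8)) (xa T0.l8 (xb T0.l8 T0.l8))) (xk T0.l8 T0.l8)))) (xk (xa (xb T0.l8 T0.l8) (xb (xk (xa T0.l8 T0.l8) (xa T0.l8 T0.l8)) (xk (xa T0.l8 (xb T0.l8 T0.l8)) (xa T0.l8 (xb T0.l8 T0.l8))))) (xa (xb T0.l8 T0.l8) (xb (xk (xa T0.l8 T0.l8) (xa T0.l8 T0.l8)) (xk (xa T0.l8 (xb T0.l8 T0.l8)) (xa T0.l8 (xb T0.l8 T0.l8)))))))) = true := by decide +kernel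
theorem c3_11_5 : chkTag sI cl7 cl13 cl5 t5 b3_11 (tg false true false RT.r4) (I.pos (nat_lit 0) (nat_lit 0))
  (xa (xk (xb T5.l9 T5.l9) T5.l9) (xk (xb (xa (xk T5.l9 T5.l9) (xk T5.l9 T5.l9)) (xa T5.l9 (xk T5.l9 T5.l9))) (xb (xa T5.l9 (xk T5.l9 T5.l9)) (xa T5.l9 (xk T5.l9 T5.l9))))) = true := by decide +kernel
theorem c3_11_6 : chkTag sI cl7 cl13 cl5 t0 b3_11 (Tag.mk false false false RT.tl RT.r5) (I.mix (nat_lit 29511666) (nat_lit 77433728))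
  (xR T0.l1 (xR T0.l9 (xR T0.l9 (xa T0.l9 (xk T0.l9 T0.l9))))) = true := by decide +kernel
theorem c3_11_7 : chkTag sI cl7 cl13 cl5 t5 b3_11 (Tag.mk false true false RT.tl RT.r6) (I.mix (nat_lit 29511666) (nat_lit 46070178))
  (xR T5.l10 T5.l10) = true := by decide +kernel
theorem bx3_11 : BoxOK sI cl7 cl13 cl5 t5 t0 b3_11 :=
  box_mk' [(tg true true false RT.r2), (tg true false false RT.r3), (Tag.mk true true false RT.tl RT.r4), (Tag.mk true false false RT.tl RT.r5), (tg false false false RT.r3), (tg false true false RT.r4), (Tag.mk false false false RT.tl RT.r5), (Tag.mk false true false RT.tl RT.r6)] rfl (allL_c (ex_mk c3_11_0) (allL_c (ex_mk c3_11_1) (allL_c (ex_mk c3_11_2) (allL_c (ex_mk c3_11_3) (allL_c (ex_mk c3_11_4) (allL_c (ex_mk c3_11_5) (allL_c (ex_mk c3_11_6) (allL_c (ex_mk c3_11_7) allL_n))))))))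
theorem bx3_12 : BoxOK sI cl7 cl13 cl5 t5 t0 b3_12 :=
  box_mk (TrL.c (I.pos (nat_lit 0) (nat_lit 0)) (xa (xb (xa T5.l0 T5.l0) (xa (xs T5.l0 T5.l0) (xs T5.l0 T5.l0))) (xb (xa T5.l0 T5.l0) (xa (xs T5.l0 T5.l0) T5.l0)))
  (TrL.c (I.pos (nat_lit 0) (nat_lit 0)) (xk (xa (xb T0.l6 T0.l6) (xb T0.l6 (xk T0.l6 T0.l6))) (xa (xb T0.l6 T0.l6) (xb T0.l6 (xk T0.l6 T0.l6))))
  (TrL.c (I.pos (nat_lit 0) (nat_lit 111196574)) (xR T5.l8 T5.l8)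
  (TrL.c (I.pos (nat_lit 0) (nat_lit 77433728)) (xR T0.l7 T0.l7)
  (TrL.c (I.pos (nat_lit 0) (nat_lit 0)) (xk (xa T0.l8 (xb T0.l8 T0.l8)) (xa T0.l8 (xb T0.l8 T0.l8)))
  (TrL.c (I.pos (nat_lit 0) (nat_lit 0)) (xk T5.l9 T5.l9)
  (TrL.c (I.mix (nat_lit 29511666) (nat_lit 77433728)) (xR T0.l9 (xR T0.l9 T0.l9))
  (TrL.c (I.mix (nat_lit 29511666) (nat_lit 46070178)) T5.l10
  TrL.n)))))))) (by decide +kernel)
theorem bx3_13 : BoxOK sI cl7 cl13 cl5 t5 t0 b3_13 :=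
  box_mk (TrL.c (I.pos (nat_lit 0) (nat_lit 0)) (xa (xb T5.l13 T5.l13) (xb T5.l13 T5.l13))
  (TrL.c (I.pos (nat_lit 0) (nat_lit 0)) (xk T0.l6 T0.l6)
  (TrL.c (I.pos (nat_lit 0) (nat_lit 111196574)) T5.l8
  (TrL.c (I.pos (nat_lit 0) (nat_lit 77433728)) T0.l7
  (TrL.c (I.pos (nat_lit 0) (nat_lit 0)) (xk (xb (xa T0.l13 T0.l13) T0.l13) (xb (xa T0.l13 T0.l13) T0.l13))
  (TrL.c (I.pos (nat_lit 0) (nat_lit 0)) T5.l9
  (TrL.c (I.mix (nat_lit 29511666) (nat_lit 77433728)) (xR T0.l9 T0.l1)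
  (TrL.c (I.mix (nat_lit 29511666) (nat_lit 46070178)) T5.l10
  TrL.n)))))))) (by decide +kernel)
theorem sv3 : StarV sI cl7 cl13 cl5 t5 t0 t3 :=
  (bt_n (bt_n (bt_n (bt_b bx3_0) (bt_n (bt_b bx3_1) (bt_b bx3_2))) (bt_n (bt_n (bt_b bx3_3) (bt_b bx3_4)) (bt_n (bt_b bx3_5) (bt_b bx3_6)))) (bt_n (bt_n (bt_b bx3_7) (bt_n (bt_b bx3_8) (bt_b bx3_9))) (bt_n (bt_n (bt_b bx3_10) (bt_b bx3_11)) (bt_n (bt_b bx3_12) (bt_b bx3_13)))))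
def S3 : StarD := StarD.mk cl7 cl13 cl5 5 0 t3
theorem bx4_0 : BoxOK sI cl13 cl5 cl7 t1 t3 b4_0 :=
  box_mk (TrL.c (I.pos (nat_lit 0) (nat_lit 0)) (xa (xb (xa (xb T1.l0 T1.l0) (xb T1.l0 T1.l0)) (xa (xb T1.l0 (xa T1.l0 T1.l0)) (xb T1.l0 (xa T1.l0 T1.l0)))) (xb (xa T1.l0 T1.l0) (xa (xb T1.l0 (xs T1.l0 T1.l0)) (xb T1.l0 (xs T1.l0 T1.l0)))))
  (TrL.c (I.pos (nat_lit 0) (nat_lit 0)) (xa (xb T3.l1 (xk (xa T3.l1 T3.l1) (xa T3.l1 T3.l1))) (xk (xb T3.l1 (xa T3.l1 T3.l1)) (xb T3.l1 (xa T3.l1 T3.l1))))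
  (TrL.c (I.pos (nat_lit 0) (nat_lit 134217730)) (xR T1.l1 T1.l1)
  (TrL.c (I.pos (nat_lit 0) (nat_lit 110514882)) (xR T3.l2 T3.l2)
  (TrL.c (I.pos (nat_lit 0) (nat_lit 0)) (xa (xb (xk (xa T3.l3 T3.l3) T3.l3) (xk T3.l3 T3.l3)) (xb (xk (xa T3.l3 (xb T3.l3 T3.l3)) (xa T3.l3 (xb T3.l3 T3.l3))) (xk (xa T3.l3 T3.l3) (xa T3.l3 T3.l3))))
  (TrL.c (I.pos (nat_lit 0) (nat_lit 0)) (xk T1.l2 T1.l2)
  (TrL.c (I.mix (nat_lit 8088324) (nat_lit 110514882)) (xR T3.l4 (xR T3.l4 T3.l4))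
  (TrL.c (I.mix (nat_lit 8088324) (nat_lit 89478486)) T1.l3
  TrL.n)))))))) (by decide +kernel)
theorem bx4_1 : BoxOK sI cl13 cl5 cl7 t1 t3 b4_1 :=
  box_mk (TrL.c (I.pos (nat_lit 0) (nat_lit 0)) (xa (xb T1.l4 T1.l4) (xb T1.l4 T1.l4))
  (TrL.c (I.pos (nat_lit 0) (nat_lit 0)) (xa T3.l1 T3.l1)
  (TrL.c (I.pos (nat_lit 0) (nat_lit 134217730)) T1.l1
  (TrL.c (I.pos (nat_lit 0) (nat_lit 110514882)) T3.l2
  (TrL.c (I.pos (nat_lit 0) (nat_lit 0)) (xa (xb (xk T3.l5 T3.l5) T3.l5) (xb (xk T3.l5 T3.l5) (xk T3.l5 T3.l5)))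
  (TrL.c (I.pos (nat_lit 0) (nat_lit 0)) T1.l2
  (TrL.c (I.mix (nat_lit 8088324) (nat_lit 110514882)) T3.l8
  (TrL.c (I.mix (nat_lit 8088324) (nat_lit 89478486)) T1.l3
  TrL.n)))))))) (by decide +kernel)
theorem bx4_2 : BoxOK sI cl13 cl5 cl7 t1 t3 b4_2 :=
  box_mk (TrL.c (I.pos (nat_lit 0) (nat_lit 0)) T3.l1
  (TrL.c (I.pos (nat_lit 0) (nat_lit 0)) T1.l1
  (TrL.c (I.mix (nat_lit 8088324) (nat_lit 110514882)) T3.l7
  (TrL.c (I.mix (nat_lit 8088324) (nat_lit 89478486)) T1.l1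
  TrL.n)))) (by decide +kernel)
theorem bx4_3 : BoxOK sI cl13 cl5 cl7 t1 t3 b4_3 :=
  box_mk (TrL.c (I.pos (nat_lit 0) (nat_lit 0)) (xb (xa T1.l13 T1.l13) (xa (xb T1.l13 T1.l13) (xb T1.l13 T1.l13)))
  (TrL.c (I.pos (nat_lit 0) (nat_lit 0)) (xk (xb T3.l1 (xa T3.l1 T3.l1)) (xb T3.l1 T3.l1))
  (TrL.c (I.pos (nat_lit 0) (nat_lit 134217730)) (xR T1.l1 T1.l1)
  (TrL.c (I.pos (nat_lit 0) (nat_lit 110514882)) T3.l2
  (TrL.c (I.pos (nat_lit 0) (nat_lit 0)) (xb (xk T3.l13 T3.l13) (xk T3.l3 T3.l3))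
  (TrL.c (I.pos (nat_lit 0) (nat_lit 0)) T1.l2
  (TrL.c (I.mix (nat_lit 8088324) (nat_lit 110514882)) (xR T3.l4 T3.l4)
  (TrL.c (I.mix (nat_lit 8088324) (nat_lit 89478486)) T1.l3
  TrL.n)))))))) (by decide +kernel)
theorem bx4_4 : BoxOK sI cl13 cl5 cl7 t1 t3 b4_4 :=
  box_mk (TrL.c (I.pos (nat_lit 0) (nat_lit 0)) (xb T1.l4 (xa T1.l4 T1.l4))
  (TrL.c (I.pos (nat_lit 0) (nat_lit 0)) T3.l1
  (TrL.c (I.pos (nat_lit 0) (nat_lit 134217730)) T1.l1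
  (TrL.c (I.pos (nat_lit 0) (nat_lit 110514882)) T3.l7
  (TrL.c (I.pos (nat_lit 0) (nat_lit 0)) T3.l5
  (TrL.c (I.pos (nat_lit 0) (nat_lit 0)) T1.l2
  (TrL.c (I.mix (nat_lit 8088324) (nat_lit 110514882)) T3.l4
  (TrL.c (I.mix (nat_lit 8088324) (nat_lit 89478486)) T1.l3
  TrL.n)))))))) (by decide +kernel)
theorem bx4_5 : BoxOK sI cl13 cl5 cl7 t1 t3 b4_5 :=
  box_mk (TrL.c (I.pos (nat_lit 0) (nat_lit 0)) (xa (xb T1.l4 (xb T1.l4 T1.l4)) (xb T1.l4 T1.l4))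
  (TrL.c (I.pos (nat_lit 0) (nat_lit 0)) T3.l1
  (TrL.c (I.pos (nat_lit 0) (nat_lit 134217730)) T1.l1
  (TrL.c (I.pos (nat_lit 0) (nat_lit 110514882)) T3.l2
  (TrL.c (I.pos (nat_lit 0) (nat_lit 0)) T3.l5
  (TrL.c (I.pos (nat_lit 0) (nat_lit 0)) T1.l2
  (TrL.c (I.mix (nat_lit 8088324) (nat_lit 110514882)) T3.l4
  (TrL.c (I.mix (nat_lit 8088324) (nat_lit 89478486)) T1.l3
  TrL.n)))))))) (by decide +kernel)
theorem bx4_6 : BoxOK sI cl13 cl5 cl7 t1 t3 b4_6 :=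
  box_mk (TrL.c (I.pos (nat_lit 0) (nat_lit 0)) (xb (xa T1.l4 T1.l4) (xa T1.l4 T1.l4))
  (TrL.c (I.pos (nat_lit 0) (nat_lit 0)) (xb T3.l1 T3.l1)
  (TrL.c (I.pos (nat_lit 0) (nat_lit 134217730)) T1.l1
  (TrL.c (I.pos (nat_lit 0) (nat_lit 110514882)) T3.l2
  (TrL.c (I.pos (nat_lit 0) (nat_lit 0)) (xb (xk T3.l5 T3.l5) T3.l5)
  (TrL.c (I.pos (nat_lit 0) (nat_lit 0)) T1.l2
  (TrL.c (I.mix (nat_lit 8088324) (nat_lit 110514882)) T3.l4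
  (TrL.c (I.mix (nat_lit 8088324) (nat_lit 89478486)) T1.l3
  TrL.n)))))))) (by decide +kernel)
theorem bx4_7 : BoxOK sI cl13 cl5 cl7 t1 t3 b4_7 :=
  box_mk (TrL.c (I.pos (nat_lit 0) (nat_lit 0)) T3.l1
  (TrL.c (I.pos (nat_lit 0) (nat_lit 0)) T1.l1
  (TrL.c (I.mix (nat_lit 8088324) (nat_lit 110514882)) T3.l2
  (TrL.c (I.mix (nat_lit 8088324) (nat_lit 89478486)) T1.l1
  TrL.n)))) (by decide +kernel)
theorem bx4_8 : BoxOK sI cl13 cl5 cl7 t1 t3 b4_8 :=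
  box_mk (TrL.c (I.pos (nat_lit 0) (nat_lit 0)) (xa (xb T1.l13 T1.l13) T1.l0)
  (TrL.c (I.pos (nat_lit 0) (nat_lit 0)) T3.l1
  (TrL.c (I.pos (nat_lit 0) (nat_lit 134217730)) T1.l1
  (TrL.c (I.pos (nat_lit 0) (nat_lit 110514882)) T3.l2
  (TrL.c (I.pos (nat_lit 0) (nat_lit 0)) (xk (xb (xa T3.l13 T3.l13) T3.l13) (xa T3.l13 (xb T3.l13 T3.l13)))
  (TrL.c (I.pos (nat_lit 0) (nat_lit 0)) T1.l2
  (TrL.c (I.mix (nat_lit 8088324) (nat_lit 110514882)) T3.l4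
  (TrL.c (I.mix (nat_lit 8088324) (nat_lit 89478486)) T1.l3
  TrL.n)))))))) (by decide +kernel)
theorem bx4_9 : BoxOK sI cl13 cl5 cl7 t1 t3 b4_9 :=
  box_mk (TrL.c (I.pos (nat_lit 0) (nat_lit 0)) (xa (xb T1.l0 (xa T1.l0 T1.l0)) (xb (xa T1.l0 T1.l0) (xa (xb T1.l0 T1.l0) (xb T1.l0 T1.l0))))
  (TrL.c (I.pos (nat_lit 0) (nat_lit 0)) (xa (xb (xk T3.l1 T3.l1) (xk T3.l1 T3.l1)) (xk (xb T3.l9 (xa T3.l1 (xb T3.l1 T3.l1))) (xb T3.l1 (xa T3.l1 T3.l1))))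
  (TrL.c (I.pos (nat_lit 0) (nat_lit 134217730)) (xR T1.l1 T1.l10)
  (TrL.c (I.pos (nat_lit 0) (nat_lit 110514882)) (xR T3.l2 (xR T3.l2 T3.l2))
  (TrL.c (I.pos (nat_lit 0) (nat_lit 0)) (xa (xb (xk (xa (xb (xk T3.l3 T3.l3) T3.l3) (xb (xk T3.l3 T3.l3) T3.l3)) (xa (xb T3.l3 T3.l3) (xb (xk T3.l3 T3.l3) T3.l3))) (xk (xa T3.l3 T3.l3) (xa T3.l3 T3.l3))) (xb (xk (xa (xb (xk (xa T3.l3 T3.l3) (xa T3.l3 T3.l3)) T3.l3) (xb (xk (xa T3.l3 (xb T3.l3 T3.l3)) (xa T3.l3 (xb T3.l3 T3.l3))) (xk (xa T3.l3 T3.l3) T3.l3))) (xa (xb (xk (xa T3.l3 T3.l3) (xa T3.l3 T3.l3)) T3.l3) (xb (xk (xa T3.l3 (xb T3.l3 T3.l3)) (xa T3.l3 T3.l3)) (xk T3.l3 T3.l3)))) (xk (xa (xb T3.l3 (xk T3.l3 T3.l3)) (xb (xk (xa T3.l3 T3.l3) (xa T3.l3 T3.l3)) (xk (xa T3.l3 T3.l3) (xa T3.l3 T3.l3)))) (xa (xb T3.l3 T3.l3) (xb (xk T3.l3 T3.l3) (xk (xa T3.l3 T3.l3) (xa T3.l3 T3.l3)))))))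
  (TrL.c (I.pos (nat_lit 0) (nat_lit 0)) (xa (xb T1.l2 T1.l2) (xk (xb T1.l2 T1.l2) (xb T1.l2 T1.l2)))
  (TrL.c (I.mix (nat_lit 8088324) (nat_lit 110514882)) (xR T3.l4 (xR T3.l4 (xR T3.l4 (xb (xa T3.l4 T3.l4) (xk T3.l4 T3.l4)))))
  (TrL.c (I.mix (nat_lit 8088324) (nat_lit 89478486)) T1.l3
  TrL.n)))))))) (by decide +kernel)
theorem bx4_10 : BoxOK sI cl13 cl5 cl7 t1 t3 b4_10 :=
  box_mk (TrL.c (I.pos (nat_lit 0) (nat_lit 0)) (xa (xb T1.l0 T1.l0) (xb T1.l0 T1.l0))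
  (TrL.c (I.pos (nat_lit 0) (nat_lit 0)) (xk (xa T3.l1 T3.l1) (xa T3.l1 T3.l1))
  (TrL.c (I.pos (nat_lit 0) (nat_lit 134217730)) (xR T1.l1 T1.l1)
  (TrL.c (I.pos (nat_lit 0) (nat_lit 110514882)) (xR T3.l2 T3.l2)
  (TrL.c (I.pos (nat_lit 0) (nat_lit 0)) (xk (xa T3.l3 (xb T3.l3 T3.l3)) (xa T3.l3 (xb T3.l3 (xs T3.l3 (xb T3.l3 T3.l3)))))
  (TrL.c (I.pos (nat_lit 0) (nat_lit 0)) T1.l2
  (TrL.c (I.mix (nat_lit 8088324) (nat_lit 110514882)) (xR T3.l4 (xR T3.l4 T3.l4))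
  (TrL.c (I.mix (nat_lit 8088324) (nat_lit 89478486)) T1.l3
  TrL.n)))))))) (by decide +kernel)
theorem bx4_11 : BoxOK sI cl13 cl5 cl7 t1 t3 b4_11 :=
  box_mk (TrL.c (I.pos (nat_lit 0) (nat_lit 0)) (xb T1.l13 (xa T1.l13 T1.l13))
  (TrL.c (I.pos (nat_lit 0) (nat_lit 0)) (xk (xb T3.l1 T3.l1) (xb T3.l1 T3.l1))
  (TrL.c (I.pos (nat_lit 0) (nat_lit 134217730)) (xR T1.l1 T1.l1)
  (TrL.c (I.pos (nat_lit 0) (nat_lit 110514882)) T3.l2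
  (TrL.c (I.pos (nat_lit 0) (nat_lit 0)) (xk (xb T3.l13 T3.l3) (xb T3.l13 T3.l3))
  (TrL.c (I.pos (nat_lit 0) (nat_lit 0)) T1.l2
  (TrL.c (I.mix (nat_lit 8088324) (nat_lit 110514882)) (xR T3.l4 T3.l4)
  (TrL.c (I.mix (nat_lit 8088324) (nat_lit 89478486)) T1.l3
  TrL.n)))))))) (by decide +kernel)
theorem sv4 : StarV sI cl13 cl5 cl7 t1 t3 t4 :=
  (bt_n (bt_n (bt_n (bt_b bx4_0) (bt_n (bt_b bx4_1) (bt_b bx4_2))) (bt_n (bt_b bx4_3) (bt_n (bt_b bx4_4) (bt_b bx4_5)))) (bt_n (bt_n (bt_b bx4_6) (bt_n (bt_b bx4_7) (bt_b bx4_8))) (bt_n (bt_b bx4_9) (bt_n (bt_b bx4_10) (bt_b bx4_11)))))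
def S4 : StarD := StarD.mk cl13 cl5 cl7 1 3 t4
theorem bx5_0 : BoxOK sI cl13 cl7 cl5 t3 t1 b5_0 :=
  box_mk (TrL.c (I.pos (nat_lit 0) (nat_lit 0)) (xa (xb (xa (xb T3.l0 (xc T3.l0 T3.l0)) (xb T3.l0 T3.l0)) (xa (xb (xa T3.l0 T3.l0) (xa (xc T3.l0 T3.l0) (xc T3.l0 T3.l0))) (xb (xa T3.l0 T3.l0) (xa (xc T3.l0 T3.l0) (xc T3.l0 T3.l0))))) (xb (xa (xb T3.l0 T3.l0) (xb T3.l0 T3.l0)) (xa (xb T3.l0 (xa T3.l0 T3.l0)) (xb T3.l0 (xa T3.l0 T3.l0)))))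
  (TrL.c (I.pos (nat_lit 0) (nat_lit 0)) (xa (xb (xk T1.l7 T1.l7) (xk (xa T1.l7 T1.l7) (xa T1.l7 T1.l7))) (xk (xb T1.l7 (xa T1.l7 T1.l7)) (xb T1.l7 (xa T1.l7 T1.l7))))
  (TrL.c (I.pos (nat_lit 0) (nat_lit 134217730)) (xR T3.l8 T3.l8)
  (TrL.c (I.pos (nat_lit 0) (nat_lit 110514882)) (xR T1.l8 (xR T1.l8 T1.l8))
  (TrL.c (I.pos (nat_lit 0) (nat_lit 0)) (xa (xk (xb (xa T1.l9 T1.l9) (xa T1.l9 T1.l9)) (xb (xa T1.l9 T1.l9) (xa T1.l9 T1.l9))) (xk (xb (xa (xk T1.l9 T1.l9) (xk T1.l9 T1.l9)) (xa T1.l9 (xk T1.l9 (xb T1.l9 T1.l9)))) (xb (xa (xb T1.l9 T1.l9) (xk T1.l9 T1.l9)) (xa T1.l9 (xk (xb T1.l9 T1.l9) (xb T1.l9 (xs T1.l9 T1.l9)))))))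
  (TrL.c (I.pos (nat_lit 0) (nat_lit 0)) (xk (xa T3.l9 T3.l9) T3.l9)
  (TrL.c (I.mix (nat_lit 8088324) (nat_lit 110514882)) (xR T1.l10 (xR T1.l10 (xR T1.l10 T1.l10)))
  (TrL.c (I.mix (nat_lit 8088324) (nat_lit 89478486)) T3.l10
  TrL.n)))))))) (by decide +kernel)
theorem bx5_1 : BoxOK sI cl13 cl7 cl5 t3 t1 b5_1 :=
  box_mk (TrL.c (I.pos (nat_lit 0) (nat_lit 0)) (xa (xb T3.l11 T3.l11) T3.l0)
  (TrL.c (I.pos (nat_lit 0) (nat_lit 0)) (xa T1.l7 T1.l7)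
  (TrL.c (I.pos (nat_lit 0) (nat_lit 134217730)) T3.l8
  (TrL.c (I.pos (nat_lit 0) (nat_lit 110514882)) T1.l8
  (TrL.c (I.pos (nat_lit 0) (nat_lit 0)) (xa (xk T1.l11 T1.l11) (xk (xb T1.l11 T1.l11) (xb T1.l11 T1.l11)))
  (TrL.c (I.pos (nat_lit 0) (nat_lit 0)) T3.l9
  (TrL.c (I.mix (nat_lit 8088324) (nat_lit 110514882)) (xR T1.l10 T1.l10)
  (TrL.c (I.mix (nat_lit 8088324) (nat_lit 89478486)) T3.l10
  TrL.n)))))))) (by decide +kernel)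
theorem bx5_2 : BoxOK sI cl13 cl7 cl5 t3 t1 b5_2 :=
  box_mk (TrL.c (I.pos (nat_lit 0) (nat_lit 0)) (xa (xa T3.l11 T3.l11) (xa T3.l11 T3.l11))
  (TrL.c (I.pos (nat_lit 0) (nat_lit 0)) (xa T1.l11 T1.l7)
  (TrL.c (I.pos (nat_lit 0) (nat_lit 134217730)) T3.l8
  (TrL.c (I.pos (nat_lit 0) (nat_lit 110514882)) T1.l8
  (TrL.c (I.pos (nat_lit 0) (nat_lit 0)) (xa T1.l7 (xa T1.l11 T1.l11))
  (TrL.c (I.pos (nat_lit 0) (nat_lit 0)) T3.l9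
  (TrL.c (I.mix (nat_lit 8088324) (nat_lit 110514882)) T1.l10
  (TrL.c (I.mix (nat_lit 8088324) (nat_lit 89478486)) T3.l10
  TrL.n)))))))) (by decide +kernel)
theorem bx5_3 : BoxOK sI cl13 cl7 cl5 t3 t1 b5_3 :=
  box_mk (TrL.c (I.pos (nat_lit 0) (nat_lit 0)) (xb (xa (xb T3.l12 T3.l12) (xb T3.l12 T3.l12)) (xa (xb (xa T3.l12 T3.l12) (xa T3.l12 T3.l12)) (xa (xb T3.l12 T3.l12) (xb T3.l12 T3.l12))))
  (TrL.c (I.pos (nat_lit 0) (nat_lit 0)) (xb (xk (xa T1.l7 T1.l7) (xa T1.l7 T1.l7)) (xk (xa T1.l7 T1.l7) (xa T1.l7 T1.l7)))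
  (TrL.c (I.pos (nat_lit 0) (nat_lit 134217730)) (xR T3.l8 T3.l8)
  (TrL.c (I.pos (nat_lit 0) (nat_lit 110514882)) (xR T1.l8 T1.l8)
  (TrL.c (I.pos (nat_lit 0) (nat_lit 0)) (xb (xk (xa T1.l12 T1.l12) (xa T1.l12 T1.l12)) (xk (xa T1.l12 T1.l9) (xa T1.l9 T1.l9)))
  (TrL.c (I.pos (nat_lit 0) (nat_lit 0)) T3.l9
  (TrL.c (I.mix (nat_lit 8088324) (nat_lit 110514882)) (xR T1.l10 (xR T1.l10 T1.l10))
  (TrL.c (I.mix (nat_lit 8088324) (nat_lit 89478486)) T3.l10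
  TrL.n)))))))) (by decide +kernel)
theorem bx5_4 : BoxOK sI cl13 cl7 cl5 t3 t1 b5_4 :=
  box_mk (TrL.c (I.pos (nat_lit 0) (nat_lit 0)) (xa (xa (xb (xa T3.l11 T3.l11) (xa (xb T3.l11 (xa T3.l11 T3.l11)) (xb T3.l11 T3.l11))) (xb T3.l11 (xa T3.l11 T3.l11))) (xa (xb T3.l11 T3.l11) (xb T3.l11 (xa T3.l11 T3.l11))))
  (TrL.c (I.pos (nat_lit 0) (nat_lit 0)) (xa (xa (xb T1.l7 T1.l7) T1.l7) (xa T1.l7 (xb T1.l7 T1.l7)))
  (TrL.c (I.pos (nat_lit 0) (nat_lit 134217730)) T3.l8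
  (TrL.c (I.pos (nat_lit 0) (nat_lit 110514882)) T1.l8
  (TrL.c (I.pos (nat_lit 0) (nat_lit 0)) (xa (xa T1.l7 T1.l11) (xa T1.l11 T1.l11))
  (TrL.c (I.pos (nat_lit 0) (nat_lit 0)) T3.l9
  (TrL.c (I.mix (nat_lit 8088324) (nat_lit 110514882)) T1.l10
  (TrL.c (I.mix (nat_lit 8088324) (nat_lit 89478486)) T3.l10
  TrL.n)))))))) (by decide +kernel)
theorem bx5_5 : BoxOK sI cl13 cl7 cl5 t3 t1 b5_5 :=
  box_mk (TrL.c (I.pos (nat_lit 0) (nat_lit 0)) (xa T3.l0 T3.l0)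
  (TrL.c (I.pos (nat_lit 0) (nat_lit 0)) (xa T1.l7 T1.l7)
  (TrL.c (I.pos (nat_lit 0) (nat_lit 134217730)) (xR T3.l8 T3.l8)
  (TrL.c (I.pos (nat_lit 0) (nat_lit 110514882)) T1.l8
  (TrL.c (I.pos (nat_lit 0) (nat_lit 0)) (xk (xa T1.l12 (xb T1.l9 T1.l12)) (xa T1.l12 (xb T1.l9 T1.l12)))
  (TrL.c (I.pos (nat_lit 0) (nat_lit 0)) T3.l9
  (TrL.c (I.mix (nat_lit 8088324) (nat_lit 110514882)) (xR T1.l10 T1.l10)
  (TrL.c (I.mix (nat_lit 8088324) (nat_lit 89478486)) T3.l10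
  TrL.n)))))))) (by decide +kernel)
theorem bx5_6 : BoxOK sI cl13 cl7 cl5 t3 t1 b5_6 :=
  box_mk (TrL.c (I.pos (nat_lit 0) (nat_lit 0)) (xa T3.l11 T3.l11)
  (TrL.c (I.pos (nat_lit 0) (nat_lit 0)) (xa T1.l7 T1.l7)
  (TrL.c (I.pos (nat_lit 0) (nat_lit 134217730)) T3.l8
  (TrL.c (I.pos (nat_lit 0) (nat_lit 110514882)) T1.l8
  (TrL.c (I.pos (nat_lit 0) (nat_lit 0)) (xa T1.l7 T1.l11)
  (TrL.c (I.pos (nat_lit 0) (nat_lit 0)) T3.l9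
  (TrL.c (I.mix (nat_lit 8088324) (nat_lit 110514882)) T1.l10
  (TrL.c (I.mix (nat_lit 8088324) (nat_lit 89478486)) T3.l10
  TrL.n)))))))) (by decide +kernel)
theorem bx5_7 : BoxOK sI cl13 cl7 cl5 t3 t1 b5_7 :=
  box_mk (TrL.c (I.pos (nat_lit 0) (nat_lit 0)) T3.l11
  (TrL.c (I.pos (nat_lit 0) (nat_lit 0)) T1.l7
  (TrL.c (I.pos (nat_lit 0) (nat_lit 134217730)) T3.l8
  (TrL.c (I.pos (nat_lit 0) (nat_lit 110514882)) T1.l8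
  (TrL.c (I.pos (nat_lit 0) (nat_lit 0)) (xk T1.l11 T1.l11)
  (TrL.c (I.pos (nat_lit 0) (nat_lit 0)) T3.l9
  (TrL.c (I.mix (nat_lit 8088324) (nat_lit 110514882)) T1.l10
  (TrL.c (I.mix (nat_lit 8088324) (nat_lit 89478486)) T3.l10
  TrL.n)))))))) (by decide +kernel)
theorem bx5_8 : BoxOK sI cl13 cl7 cl5 t3 t1 b5_8 :=
  box_mk (TrL.c (I.pos (nat_lit 0) (nat_lit 0)) (xa (xa (xb T3.l11 (xa (xb T3.l11 T3.l11) T3.l11)) (xb T3.l11 T3.l11)) (xa (xb T3.l11 (xa T3.l11 T3.l11)) (xa T3.l11 (xb T3.l11 T3.l11))))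
  (TrL.c (I.pos (nat_lit 0) (nat_lit 0)) (xa (xa T1.l7 T1.l7) (xa T1.l7 (xk T1.l7 T1.l7)))
  (TrL.c (I.pos (nat_lit 0) (nat_lit 134217730)) T3.l8
  (TrL.c (I.pos (nat_lit 0) (nat_lit 110514882)) T1.l8
  (TrL.c (I.pos (nat_lit 0) (nat_lit 0)) (xa (xa T1.l11 T1.l11) (xa T1.l11 T1.l11))
  (TrL.c (I.pos (nat_lit 0) (nat_lit 0)) T3.l9
  (TrL.c (I.mix (nat_lit 8088324) (nat_lit 110514882)) T1.l10
  (TrL.c (I.mix (nat_lit 8088324) (nat_lit 89478486)) T3.l10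
  TrL.n)))))))) (by decide +kernel)
theorem bx5_9 : BoxOK sI cl13 cl7 cl5 t3 t1 b5_9 :=
  box_mk (TrL.c (I.pos (nat_lit 0) (nat_lit 0)) (xb (xa T3.l11 T3.l11) (xa T3.l11 T3.l11))
  (TrL.c (I.pos (nat_lit 0) (nat_lit 0)) (xb T1.l7 T1.l7)
  (TrL.c (I.pos (nat_lit 0) (nat_lit 134217730)) T3.l8
  (TrL.c (I.pos (nat_lit 0) (nat_lit 110514882)) T1.l8
  (TrL.c (I.pos (nat_lit 0) (nat_lit 0)) (xb (xk (xa T1.l11 T1.l11) (xa T1.l11 T1.l11)) (xk T1.l11 T1.l11))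
  (TrL.c (I.pos (nat_lit 0) (nat_lit 0)) T3.l9
  (TrL.c (I.mix (nat_lit 8088324) (nat_lit 110514882)) T1.l10
  (TrL.c (I.mix (nat_lit 8088324) (nat_lit 89478486)) T3.l10
  TrL.n)))))))) (by decide +kernel)
theorem bx5_10 : BoxOK sI cl13 cl7 cl5 t3 t1 b5_10 :=
  box_mk (TrL.c (I.pos (nat_lit 0) (nat_lit 0)) (xa (xa (xb (xa T3.l11 T3.l11) T3.l11) T3.l11) T3.l11)
  (TrL.c (I.pos (nat_lit 0) (nat_lit 0)) (xa T1.l11 T1.l7)
  (TrL.c (I.pos (nat_lit 0) (nat_lit 134217730)) T3.l8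
  (TrL.c (I.pos (nat_lit 0) (nat_lit 110514882)) T1.l8
  (TrL.c (I.pos (nat_lit 0) (nat_lit 0)) (xa T1.l7 (xa T1.l11 T1.l11))
  (TrL.c (I.pos (nat_lit 0) (nat_lit 0)) T3.l9
  (TrL.c (I.mix (nat_lit 8088324) (nat_lit 110514882)) T1.l10
  (TrL.c (I.mix (nat_lit 8088324) (nat_lit 89478486)) T3.l10
  TrL.n)))))))) (by decide +kernel)
theorem bx5_11 : BoxOK sI cl13 cl7 cl5 t3 t1 b5_11 :=
  box_mk (TrL.c (I.pos (nat_lit 0) (nat_lit 0)) (xa (xb T3.l12 T3.l12) (xb T3.l12 T3.l12))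
  (TrL.c (I.pos (nat_lit 0) (nat_lit 0)) (xk (xb T1.l7 T1.l7) (xb T1.l7 T1.l7))
  (TrL.c (I.pos (nat_lit 0) (nat_lit 134217730)) (xR T3.l8 T3.l8)
  (TrL.c (I.pos (nat_lit 0) (nat_lit 110514882)) (xR T1.l8 T1.l8)
  (TrL.c (I.pos (nat_lit 0) (nat_lit 0)) (xk (xb T1.l12 T1.l12) (xb T1.l12 T1.l12))
  (TrL.c (I.pos (nat_lit 0) (nat_lit 0)) T3.l9
  (TrL.c (I.mix (nat_lit 8088324) (nat_lit 110514882)) (xR T1.l10 (xR T1.l10 T1.l10))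
  (TrL.c (I.mix (nat_lit 8088324) (nat_lit 89478486)) T3.l10
  TrL.n)))))))) (by decide +kernel)
theorem c5_12_0 : chkTag sI cl13 cl7 cl5 t3 b5_12 (tg true true false RT.r2) (I.pos (nat_lit 0) (nat_lit 0))
  (xa (xb (xa T3.l0 T3.l0) (xa (xb T3.l0 T3.l0) (xb T3.l0 T3.l0))) (xa (xb T3.l0 (xb T3.l0 T3.l0)) (xb T3.l0 (xa T3.l0 T3.l0)))) = true := by decide +kernel
theorem c5_12_1 : chkTag sI cl13 cl7 cl5 t1 b5_12 (tg true false false RT.r3) (I.pos (nat_lit 0) (nat_lit 0))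
  (xa (xk (xb T1.l7 (xa T1.l7 T1.l7)) (xb T1.l7 (xa T1.l7 T1.l7))) (xk (xb (xa T1.l7 T1.l7) (xa T1.l7 (xk T1.l7 T1.l7))) (xb T1.l7 (xa T1.l7 T1.l7)))) = true := by decide +kernel
theorem c5_12_2 : chkTag sI cl13 cl7 cl5 t3 b5_12 (Tag.mk true true false RT.tl RT.r4) (I.pos (nat_lit 0) (nat_lit 134217730))
  (xR T3.l8 T3.l8) = true := by decide +kernel
theorem c5_12_3 : chkTag sI cl13 cl7 cl5 t1 b5_12 (Tag.mk true false false RT.tl RT.r5) (I.pos (nat_lit 0) (nat_lit 110514882))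
  (xR T1.l8 (xR T1.l8 (xR T1.l8 T1.l8))) = true := by decide +kernel
theorem c5_12_4 : chkTag sI cl13 cl7 cl5 t1 b5_12 (tg false false false RT.r3) (I.pos (nat_lit 0) (nat_lit 0))
  (xa (xb (xk (xa (xb T1.l9 T1.l9) (xb (xk T1.l9 T1.l9) T1.l9)) (xa (xb T1.l9 T1.l9) (xb (xk T1.l9 T1.l9) T1.l9))) (xk (xa T1.l9 T1.l9) (xa T1.l9 T1.l9))) (xb (xk (xa (xb (xk (xa T1.l9 T1.l9) (xa T1.l9 T1.l9)) T1.l9) (xb (xk (xa T1.l9 (xk T1.l9 T1.l9)) (xa T1.l9 (xb T1.l9 T1.l9))) (xk (xa T1.l9 T1.l9) T1.l9))) (xa (xb (xk (xa T1.l9 T1.l9) (xa T1.l9 T1.l9)) T1.l9) (xb (xk (xa T1.l9 (xb T1.l9 T1.l9)) (xa T1.l9 (xb T1.l9 T1.l9))) (xk T1.l9 T1.l9)))) (xk (xa (xk T1.l9 T1.l9) (xb (xk (xa T1.l9 (xk T1.l9 T1.l9)) (xa T1.l9 T1.l9)) (xk (xa T1.l9 (xk T1.l9 T1.l9)) (xa T1.l9 (xb T1.l9 T1.l9))))) (xa (xb T1.l9 T1.l9) (xb (xk (xa T1.l9 T1.l9) (xa T1.l9 T1.l9)) (xk (xa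 T1.l9 T1.l9) (xa T1.l9 T1.l9))))))) = true := by decide +kernel
theorem c5_12_5 : chkTag sI cl13 cl7 cl5 t3 b5_12 (tg false true false RT.r4) (I.pos (nat_lit 0) (nat_lit 0))
  (xa (xk (xb T3.l9 T3.l9) T3.l9) (xk (xb (xa T3.l9 T3.l9) (xa T3.l9 T3.l9)) (xb (xa T3.l9 T3.l9) (xa T3.l9 T3.l9)))) = true := by decide +kernel
theorem c5_12_6 : chkTag sI cl13 cl7 cl5 t1 b5_12 (Tag.mk false false false RT.tl RT.r5) (I.mix (nat_lit 8088324) (nat_lit 110514882))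
  (xR T1.l10 (xR T1.l10 (xR T1.l10 (xk (xR T1.l10 T1.l10) T1.l10)))) = true := by decide +kernel
theorem c5_12_7 : chkTag sI cl13 cl7 cl5 t3 b5_12 (Tag.mk false true false RT.tl RT.r6) (I.mix (nat_lit 8088324) (nat_lit 89478486))
  T3.l10 = true := by decide +kernel
theorem bx5_12 : BoxOK sI cl13 cl7 cl5 t3 t1 b5_12 :=
  box_mk' [(tg true true false RT.r2), (tg true false false RT.r3), (Tag.mk true true false RT.tl RT.r4), (Tag.mk true false false RT.tl RT.r5), (tg false false false RT.r3), (tg false true false RT.r4), (Tag.mk false false false RT.tl RT.r5), (Tag.mk false true false RT.tl RT.r6)] rfl (allL_c (ex_mk c5_12_0) (allL_c (ex_mk c5_12_1) (allL_c (ex_mk c5_12_2) (allL_c (ex_mk c5_12_3) (allL_c (ex_mk c5_12_4) (allL_c (ex_mk c5_12_5) (allL_c (ex_mk c5_12_6) (allL_c (ex_mk c5_12_7) allL_n))))))))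
theorem bx5_13 : BoxOK sI cl13 cl7 cl5 t3 t1 b5_13 :=
  box_mk (TrL.c (I.pos (nat_lit 0) (nat_lit 0)) (xa (xb (xa T3.l0 T3.l0) (xa T3.l0 T3.l0)) (xb T3.l0 (xa T3.l0 T3.l0)))
  (TrL.c (I.pos (nat_lit 0) (nat_lit 0)) (xk (xa T1.l7 (xb T1.l7 T1.l7)) (xa T1.l7 T1.l7))
  (TrL.c (I.pos (nat_lit 0) (nat_lit 134217730)) (xR T3.l8 T3.l8)
  (TrL.c (I.pos (nat_lit 0) (nat_lit 110514882)) (xR T1.l8 (xR T1.l8 T1.l8))
  (TrL.c (I.pos (nat_lit 0) (nat_lit 0)) (xk (xa T1.l9 T1.l9) (xa T1.l9 T1.l9))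
  (TrL.c (I.pos (nat_lit 0) (nat_lit 0)) T3.l9
  (TrL.c (I.mix (nat_lit 8088324) (nat_lit 110514882)) (xR T1.l10 (xR T1.l10 T1.l10))
  (TrL.c (I.mix (nat_lit 8088324) (nat_lit 89478486)) T3.l10
  TrL.n)))))))) (by decide +kernel)
theorem sv5 : StarV sI cl13 cl7 cl5 t3 t1 t5 :=
  (bt_n (bt_n (bt_n (bt_b bx5_0) (bt_n (bt_b bx5_1) (bt_b bx5_2))) (bt_n (bt_n (bt_b bx5_3) (bt_b bx5_4)) (bt_n (bt_b bx5_5) (bt_b bx5_6)))) (bt_n (bt_n (bt_b bx5_7) (bt_n (bt_b bx5_8) (bt_b bx5_9))) (bt_n (bt_n (bt_b bx5_10) (bt_b bx5_11)) (bt_n (bt_b bx5_12) (bt_b bx5_13)))))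
def S5 : StarD := StarD.mk cl13 cl7 cl5 3 1 t5
def G : List StarD := [S0, S1, S2, S3, S4, S5]
theorem so0 : StarOK sI G S0 :=
  star_mk (by decide) (by decide) rfl rfl rfl rfl rfl rfl (rfl : _ = t2) (rfl : _ = t4)
  (st_mk (Pth.l (Pth.l (Pth.l Pth.z))) (nat_lit 143411470) (nat_lit 166437852) (by decide +kernel))
  (st_mk (Pth.l (Pth.l (Pth.l Pth.z))) (nat_lit 180248310) (nat_lit 203799512) (by decide +kernel))
  (st_mk (Pth.l (Pth.l (Pth.l Pth.z))) (nat_lit 223334250) (nat_lit 247597291) (by decide +kernel)) sv0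
theorem so1 : StarOK sI G S1 :=
  star_mk (by decide) (by decide) rfl rfl rfl rfl rfl rfl (rfl : _ = t4) (rfl : _ = t2)
  (st_mk (Pth.l (Pth.l (Pth.l Pth.z))) (nat_lit 97681131) (nat_lit 116728284) (by decide +kernel))
  (st_mk (Pth.l (Pth.l (Pth.l Pth.z))) (nat_lit 134203983) (nat_lit 153747543) (by decide +kernel))
  (st_mk (Pth.l (Pth.l (Pth.l Pth.z))) (nat_lit 177023807) (nat_lit 197254683) (by decide +kernel)) sv1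
theorem so2 : StarOK sI G S2 :=
  star_mk (by decide) (by decide) rfl rfl rfl rfl rfl rfl (rfl : _ = t0) (rfl : _ = t5)
  (st_mk (Pth.l (Pth.l (Pth.l Pth.z))) (nat_lit 241092952) (nat_lit 243297930) (by decide +kernel))
  (st_mk (Pth.l (Pth.l (Pth.l Pth.z))) (nat_lit 276420128) (nat_lit 280242937) (by decide +kernel))
  (st_mk (Pth.l (Pth.l (Pth.l Pth.z))) (nat_lit 317973696) (nat_lit 322528194) (by decide +kernel)) sv2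
theorem so3 : StarOK sI G S3 :=
  star_mk (by decide) (by decide) rfl rfl rfl rfl rfl rfl (rfl : _ = t5) (rfl : _ = t0)
  (st_mk (Pth.l (Pth.l (Pth.l Pth.z))) (nat_lit 96598160) (nat_lit 115393387) (by decide +kernel))
  (st_mk (Pth.l (Pth.l (Pth.l Pth.z))) (nat_lit 132156742) (nat_lit 151403420) (by decide +kernel))
  (st_mk (Pth.l (Pth.l (Pth.l Pth.z))) (nat_lit 173447167) (nat_lit 193346850) (by decide +kernel)) sv3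
theorem so4 : StarOK sI G S4 :=
  star_mk (by decide) (by decide) rfl rfl rfl rfl rfl rfl (rfl : _ = t1) (rfl : _ = t3)
  (st_mk (Pth.l (Pth.l (Pth.l Pth.z))) (nat_lit 238062708) (nat_lit 240025250) (by decide +kernel))
  (st_mk (Pth.l (Pth.l (Pth.l Pth.z))) (nat_lit 272959317) (nat_lit 275371602) (by decide +kernel))
  (st_mk (Pth.l (Pth.l (Pth.l Pth.z))) (nat_lit 313224636) (nat_lit 316233804) (by decide +kernel)) sv4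
theorem so5 : StarOK sI G S5 :=
  star_mk (by decide) (by decide) rfl rfl rfl rfl rfl rfl (rfl : _ = t3) (rfl : _ = t1)
  (st_mk (Pth.l (Pth.l (Pth.l Pth.z))) (nat_lit 139994720) (nat_lit 162373007) (by decide +kernel))
  (st_mk (Pth.l (Pth.l (Pth.l Pth.z))) (nat_lit 174891329) (nat_lit 197654350) (by decide +kernel))
  (st_mk (Pth.l (Pth.l (Pth.l Pth.z))) (nat_lit 215156648) (nat_lit 238460108) (by decide +kernel)) sv5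
theorem ok : GroupOK (nat_lit 209321984) (nat_lit 268435456) G := grp_mk (allS_c so0 (allS_c so1 (allS_c so2 (allS_c so3 (allS_c so4 (allS_c so5 allS_n))))))
theorem cov : GCov G cl5 cl7 cl13 := cov_mk
  ⟨0, by decide, rfl, rfl, rfl⟩ ⟨1, by decide, rfl, rfl, rfl⟩ ⟨2, by decide, rfl, rfl, rfl⟩ ⟨3, by decide, rfl, rfl, rfl⟩ ⟨4, by decide, rfl, rfl, rfl⟩ ⟨5, by decide, rfl, rfl, rfl⟩
end Q246_3

namespace Q255_0
def sI : I := I.pos (nat_lit 0) (nat_lit 91291648)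
def b0_0 : Bx := Bx.mk (St.mk (I.pos (nat_lit 157351936) (nat_lit 269500416)) (I.mix (nat_lit 6340608) (nat_lit 59375616)) (I.mix (nat_lit 45252608) (nat_lit 87113728)) (I.pos (nat_lit 110723072) (nat_lit 312999936)) (I.mix (nat_lit 88866816) (nat_lit 55050240)) (I.mix (nat_lit 79675392) (nat_lit 49872896)) (I.mix (nat_lit 125992960) (nat_lit 76382208)))
  false (nat_lit 0)
def b0_1 : Bx := Bx.mk (St.mk (I.mix (nat_lit 30883840) (nat_lit 130793472)) (I.mix (nat_lit 2408448) (nat_lit 34078720)) (I.mix (nat_lit 13631488) (nat_lit 18710528)) (I.pos (nat_lit 14319616) (nat_lit 98369536)) (I.mix (nat_lit 33816576) (nat_lit 29065216)) (I.mix (nat_lit 32636928) (nat_lit 26836992)) (I.mix (nat_lit 26116096) (nat_lit 18481152)))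
  false (nat_lit 0)
def b0_2 : Bx := Bx.mk (St.mk (I.pos (nat_lit 111460352) (nat_lit 152485888)) (I.mix (nat_lit 53936128) (nat_lit 3194880)) (I.neg (nat_lit 3751936) (nat_lit 63569920)) (I.pos (nat_lit 65732608) (nat_lit 121618432)) (I.mix (nat_lit 81707008) (nat_lit 24903680)) (I.mix (nat_lit 43270144) (nat_lit 86474752)) (I.mix (nat_lit 33669120) (nat_lit 76759040)))
  false (nat_lit 0)
def b0_3 : Bx := Bx.mk (St.mk (I.mix (nat_lit 21020672) (nat_lit 91635712)) (I.mix (nat_lit 25935872) (nat_lit 524288)) (I.mix (nat_lit 22085632) (nat_lit 65536)) (I.pos (nat_lit 16171008) (nat_lit 66519040)) (I.mix (nat_lit 28131328) (nat_lit 10174464)) (I.mix (nat_lit 13303808) (nat_lit 24363008)) (I.mix (nat_lit 7028736) (nat_lit 13434880)))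
  false (nat_lit 0)
def b0_4 : Bx := Bx.mk (St.mk (I.mix (nat_lit 23019520) (nat_lit 75202560)) (I.mix (nat_lit 114688) (nat_lit 4325376)) (I.neg (nat_lit 491520) (nat_lit 7798784)) (I.pos (nat_lit 16990208) (nat_lit 57475072)) (I.mix (nat_lit 1048576) (nat_lit 3391488)) (I.mix (nat_lit 1212416) (nat_lit 1097728)) (I.mix (nat_lit 933888) (nat_lit 884736)))
  false (nat_lit 0)
def b0_5 : Bx := Bx.mk (St.mk (I.pos (nat_lit 112967680) (nat_lit 179814400)) (I.mix (nat_lit 56147968) (nat_lit 868352)) (I.neg (nat_lit 6340608) (nat_lit 62193664)) (I.pos (nat_lit 81248256) (nat_lit 158269440)) (I.mix (nat_lit 69976064) (nat_lit 37879808)) (I.mix (nat_lit 40189952) (nat_lit 66682880)) (I.mix (nat_lit 35209216) (nat_lit 69304320)))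
  false (nat_lit 0)
def b0_6 : Bx := Bx.mk (St.mk (I.mix (nat_lit 29114368) (nat_lit 103186432)) (I.mix (nat_lit 31719424) (nat_lit 7798784)) (I.mix (nat_lit 28229632) (nat_lit 720896)) (I.pos (nat_lit 13631488) (nat_lit 75382784)) (I.mix (nat_lit 34668544) (nat_lit 24854528)) (I.mix (nat_lit 22134784) (nat_lit 34144256)) (I.mix (nat_lit 14434304) (nat_lit 22528000)))
  false (nat_lit 0)
def b0_7 : Bx := Bx.mk (St.mk (I.pos (nat_lit 153763840) (nat_lit 225017856)) (I.mix (nat_lit 44351488) (nat_lit 65585152)) (I.mix (nat_lit 57720832) (nat_lit 89440256)) (I.pos (nat_lit 113197056) (nat_lit 223150080)) (I.mix (nat_lit 124452864) (nat_lit 54018048)) (I.mix (nat_lit 148094976) (nat_lit 78741504)) (I.mix (nat_lit 172376064) (nat_lit 88227840)))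
  false (nat_lit 0)
def b0_8 : Bx := Bx.mk (St.mk (I.mix (nat_lit 26394624) (nat_lit 127090688)) (I.mix (nat_lit 14467072) (nat_lit 39305216)) (I.mix (nat_lit 21905408) (nat_lit 22446080)) (I.pos (nat_lit 15417344) (nat_lit 92585984)) (I.mix (nat_lit 47333376) (nat_lit 36143104)) (I.mix (nat_lit 48398336) (nat_lit 38092800)) (I.mix (nat_lit 29933568) (nat_lit 22085632)))
  false (nat_lit 0)
def b0_9 : Bx := Bx.mk (St.mk (I.pos (nat_lit 110936064) (nat_lit 126107648)) (I.mix (nat_lit 1703936) (nat_lit 7258112)) (I.neg (nat_lit 1409024) (nat_lit 13058048)) (I.pos (nat_lit 65519616) (nat_lit 96452608)) (I.mix (nat_lit 4997120) (nat_lit 7176192)) (I.mix (nat_lit 4505600) (nat_lit 3309568)) (I.mix (nat_lit 4145152) (nat_lit 2949120)))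
  false (nat_lit 0)
def t0 : BTr := (BTr.n (BTr.n (BTr.n (BTr.b b0_0) (BTr.b b0_1)) (BTr.n (BTr.b b0_2) (BTr.n (BTr.b b0_3) (BTr.b b0_4)))) (BTr.n (BTr.n (BTr.b b0_5) (BTr.b b0_6)) (BTr.n (BTr.b b0_7) (BTr.n (BTr.b b0_8) (BTr.b b0_9)))))
namespace T0
def l0 : Tr := Tr.L (Pth.l (Pth.l (Pth.l Pth.z)))
def l1 : Tr := Tr.L (Pth.l (Pth.l (Pth.r Pth.z)))
def l2 : Tr := Tr.L (Pth.l (Pth.r (Pth.l Pth.z)))
def l3 : Tr := Tr.L (Pth.l (Pth.r (Pth.r (Pth.l Pth.z))))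
def l4 : Tr := Tr.L (Pth.l (Pth.r (Pth.r (Pth.r Pth.z))))
def l5 : Tr := Tr.L (Pth.r (Pth.l (Pth.l Pth.z)))
def l6 : Tr := Tr.L (Pth.r (Pth.l (Pth.r Pth.z)))
def l7 : Tr := Tr.L (Pth.r (Pth.r (Pth.l Pth.z)))
def l8 : Tr := Tr.L (Pth.r (Pth.r (Pth.r (Pth.l Pth.z))))
def l9 : Tr := Tr.L (Pth.r (Pth.r (Pth.r (Pth.r Pth.z))))
end T0
def b1_0 : Bx := Bx.mk (St.mk (I.pos (nat_lit 156958720) (nat_lit 283475968)) (I.mix (nat_lit 27803648) (nat_lit 73859072)) (I.mix (nat_lit 102055936) (nat_lit 101842944)) (I.pos (nat_lit 232439808) (nat_lit 441139200)) (I.mix (nat_lit 93405184) (nat_lit 79527936)) (I.mix (nat_lit 103202816) (nat_lit 63635456)) (I.mix (nat_lit 150093824) (nat_lit 91979776)))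
  false (nat_lit 59325758)
def b1_1 : Bx := Bx.mk (St.mk (I.pos (nat_lit 81182720) (nat_lit 149864448)) (I.neg (nat_lit 5079040) (nat_lit 70057984)) (I.mix (nat_lit 61095936) (nat_lit 3440640)) (I.pos (nat_lit 168394752) (nat_lit 227803136)) (I.mix (nat_lit 70369280) (nat_lit 48578560)) (I.mix (nat_lit 39796736) (nat_lit 72695808)) (I.mix (nat_lit 36372480) (nat_lit 62013440)))
  false (nat_lit 0)
def b1_2 : Bx := Bx.mk (St.mk (I.pos (nat_lit 23363584) (nat_lit 70156288)) (I.mix (nat_lit 9666560) (nat_lit 48037888)) (I.mix (nat_lit 23822336) (nat_lit 7110656)) (I.pos (nat_lit 141737984) (nat_lit 161464320)) (I.mix (nat_lit 29753344) (nat_lit 39469056)) (I.mix (nat_lit 44269568) (nat_lit 25804800)) (I.mix (nat_lit 22986752) (nat_lit 13828096)))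
  false (nat_lit 0)
def b1_3 : Bx := Bx.mk (St.mk (I.mix (nat_lit 35291136) (nat_lit 5439488)) (I.mix (nat_lit 42303488) (nat_lit 8060928)) (I.mix (nat_lit 3899392) (nat_lit 4472832)) (I.pos (nat_lit 140738560) (nat_lit 149372928)) (I.mix (nat_lit 24985600) (nat_lit 33800192)) (I.mix (nat_lit 21626880) (nat_lit 39829504)) (I.mix (nat_lit 5423104) (nat_lit 4276224)))
  true (nat_lit 0)
def b1_4 : Bx := Bx.mk (St.mk (I.pos (nat_lit 127582208) (nat_lit 203259904)) (I.mix (nat_lit 41943040) (nat_lit 74842112)) (I.mix (nat_lit 34996224) (nat_lit 104562688)) (I.pos (nat_lit 205946880) (nat_lit 296861696)) (I.mix (nat_lit 116883456) (nat_lit 59146240)) (I.mix (nat_lit 139788288) (nat_lit 71335936)) (I.mix (nat_lit 142622720) (nat_lit 69058560)))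
  false (nat_lit 13091359)
def b1_5 : Bx := Bx.mk (St.mk (I.pos (nat_lit 54673408) (nat_lit 105021440)) (I.mix (nat_lit 66797568) (nat_lit 10682368)) (I.neg (nat_lit 8863744) (nat_lit 56442880)) (I.pos (nat_lit 151879680) (nat_lit 184582144)) (I.mix (nat_lit 68812800) (nat_lit 31637504)) (I.mix (nat_lit 38387712) (nat_lit 76480512)) (I.mix (nat_lit 25870336) (nat_lit 46170112)))
  false (nat_lit 0)
def b1_6 : Bx := Bx.mk (St.mk (I.mix (nat_lit 5439488) (nat_lit 35291136)) (I.mix (nat_lit 8060928) (nat_lit 42303488)) (I.mix (nat_lit 3899392) (nat_lit 4472832)) (I.pos (nat_lit 140738560) (nat_lit 149372928)) (I.mix (nat_lit 33800192) (nat_lit 24985600)) (I.mix (nat_lit 39829504) (nat_lit 21626880)) (I.mix (nat_lit 5423104) (nat_lit 4276224)))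
  false (nat_lit 0)
def b1_7 : Bx := Bx.mk (St.mk (I.neg (nat_lit 23363584) (nat_lit 70172672)) (I.mix (nat_lit 48037888) (nat_lit 9666560)) (I.mix (nat_lit 23822336) (nat_lit 7110656)) (I.pos (nat_lit 141737984) (nat_lit 161480704)) (I.mix (nat_lit 39485440) (nat_lit 29753344)) (I.mix (nat_lit 25804800) (nat_lit 44269568)) (I.mix (nat_lit 22986752) (nat_lit 13828096)))
  true (nat_lit 0)
def t1 : BTr := (BTr.n (BTr.n (BTr.n (BTr.b b1_0) (BTr.b b1_1)) (BTr.n (BTr.b b1_2) (BTr.b b1_3))) (BTr.n (BTr.n (BTr.b b1_4) (BTr.b b1_5)) (BTr.n (BTr.b b1_6) (BTr.b b1_7))))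
namespace T1
def l0 : Tr := Tr.L (Pth.l (Pth.l (Pth.l Pth.z)))
def l1 : Tr := Tr.L (Pth.l (Pth.l (Pth.r Pth.z)))
def l2 : Tr := Tr.L (Pth.l (Pth.r (Pth.l Pth.z)))
def l3 : Tr := Tr.L (Pth.l (Pth.r (Pth.r Pth.z)))
def l4 : Tr := Tr.L (Pth.r (Pth.l (Pth.l Pth.z)))
def l5 : Tr := Tr.L (Pth.r (Pth.l (Pth.r Pth.z)))
def l6 : Tr := Tr.L (Pth.r (Pth.r (Pth.l Pth.z)))
def l7 : Tr := Tr.L (Pth.r (Pth.r (Pth.r Pth.z)))
end T1
def b2_0 : Bx := Bx.mk (St.mk (I.pos (nat_lit 157040640) (nat_lit 284082176)) (I.mix (nat_lit 22413312) (nat_lit 52019200)) (I.mix (nat_lit 26378240) (nat_lit 110460928)) (I.pos (nat_lit 109117440) (nat_lit 336347136)) (I.mix (nat_lit 92602368) (nat_lit 64585728)) (I.mix (nat_lit 94437376) (nat_lit 67452928)) (I.mix (nat_lit 144719872) (nat_lit 91914240)))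
  false (nat_lit 29531771)
def b2_1 : Bx := Bx.mk (St.mk (I.pos (nat_lit 122699776) (nat_lit 174800896)) (I.neg (nat_lit 9043968) (nat_lit 57180160)) (I.mix (nat_lit 45563904) (nat_lit 5160960)) (I.pos (nat_lit 88473600) (nat_lit 149700608)) (I.mix (nat_lit 56868864) (nat_lit 34177024)) (I.mix (nat_lit 31309824) (nat_lit 52772864)) (I.mix (nat_lit 29310976) (nat_lit 53100544)))
  false (nat_lit 0)
def b2_2 : Bx := Bx.mk (St.mk (I.mix (nat_lit 26443776) (nat_lit 101777408)) (I.mix (nat_lit 31981568) (nat_lit 3620864)) (I.mix (nat_lit 14893056) (nat_lit 8978432)) (I.pos (nat_lit 13795328) (nat_lit 74530816)) (I.mix (nat_lit 25853952) (nat_lit 22364160)) (I.mix (nat_lit 19660800) (nat_lit 24690688)) (I.mix (nat_lit 11272192) (nat_lit 15417344)))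
  false (nat_lit 0)
def b2_3 : Bx := Bx.mk (St.mk (I.pos (nat_lit 161775616) (nat_lit 218038272)) (I.mix (nat_lit 32849920) (nat_lit 61620224)) (I.mix (nat_lit 14630912) (nat_lit 115884032)) (I.pos (nat_lit 118505472) (nat_lit 209600512)) (I.mix (nat_lit 119930880) (nat_lit 53084160)) (I.mix (nat_lit 140869632) (nat_lit 78397440)) (I.mix (nat_lit 184369152) (nat_lit 83738624)))
  false (nat_lit 6565624)
def b2_4 : Bx := Bx.mk (St.mk (I.mix (nat_lit 24199168) (nat_lit 122388480)) (I.mix (nat_lit 9142272) (nat_lit 38764544)) (I.mix (nat_lit 2064384) (nat_lit 36159488)) (I.pos (nat_lit 15204352) (nat_lit 89522176)) (I.mix (nat_lit 51806208) (nat_lit 25182208)) (I.mix (nat_lit 51740672) (nat_lit 32473088)) (I.mix (nat_lit 34897920) (nat_lit 19857408)))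
  false (nat_lit 0)
def b2_5 : Bx := Bx.mk (St.mk (I.pos (nat_lit 159580160) (nat_lit 177029120)) (I.neg (nat_lit 13713408) (nat_lit 35684352)) (I.mix (nat_lit 21151744) (nat_lit 5062656)) (I.pos (nat_lit 117374976) (nat_lit 153468928)) (I.mix (nat_lit 18169856) (nat_lit 13746176)) (I.mix (nat_lit 11059200) (nat_lit 13959168)) (I.mix (nat_lit 11468800) (nat_lit 15466496)))
  false (nat_lit 0)
def b2_6 : Bx := Bx.mk (St.mk (I.mix (nat_lit 27000832) (nat_lit 103202816)) (I.mix (nat_lit 15106048) (nat_lit 2883584)) (I.mix (nat_lit 4030464) (nat_lit 9256960)) (I.pos (nat_lit 16023552) (nat_lit 74481664)) (I.mix (nat_lit 6258688) (nat_lit 8962048)) (I.mix (nat_lit 5423104) (nat_lit 5832704)) (I.mix (nat_lit 3260416) (nat_lit 3719168)))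
  false (nat_lit 0)
def b2_7 : Bx := Bx.mk (St.mk (I.mix (nat_lit 37879808) (nat_lit 132251648)) (I.mix (nat_lit 7766016) (nat_lit 34078720)) (I.mix (nat_lit 1916928) (nat_lit 37699584)) (I.pos (nat_lit 13828096) (nat_lit 99581952)) (I.mix (nat_lit 44367872) (nat_lit 30752768)) (I.mix (nat_lit 44548096) (nat_lit 29409280)) (I.mix (nat_lit 36782080) (nat_lit 24231936)))
  false (nat_lit 0)
def b2_8 : Bx := Bx.mk (St.mk (I.pos (nat_lit 108478464) (nat_lit 160382976)) (I.mix (nat_lit 59539456) (nat_lit 9338880)) (I.mix (nat_lit 47267840) (nat_lit 15908864)) (I.pos (nat_lit 65142784) (nat_lit 128450560)) (I.mix (nat_lit 76234752) (nat_lit 27033600)) (I.mix (nat_lit 44089344) (nat_lit 80543744)) (I.mix (nat_lit 34324480) (nat_lit 62685184)))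
  false (nat_lit 0)
def b2_9 : Bx := Bx.mk (St.mk (I.mix (nat_lit 23347200) (nat_lit 95928320)) (I.mix (nat_lit 27131904) (nat_lit 4702208)) (I.mix (nat_lit 11550720) (nat_lit 9994240)) (I.pos (nat_lit 16433152) (nat_lit 68255744)) (I.mix (nat_lit 26886144) (nat_lit 19415040)) (I.mix (nat_lit 19644416) (nat_lit 28229632)) (I.mix (nat_lit 9519104) (nat_lit 14057472)))
  false (nat_lit 0)
def t2 : BTr := (BTr.n (BTr.n (BTr.n (BTr.b b2_0) (BTr.b b2_1)) (BTr.n (BTr.b b2_2) (BTr.n (BTr.b b2_3) (BTr.b b2_4)))) (BTr.n (BTr.n (BTr.b b2_5) (BTr.b b2_6)) (BTr.n (BTr.b b2_7) (BTr.n (BTr.b b2_8) (BTr.b b2_9)))))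
namespace T2
def l0 : Tr := Tr.L (Pth.l (Pth.l (Pth.l Pth.z)))
def l1 : Tr := Tr.L (Pth.l (Pth.l (Pth.r Pth.z)))
def l2 : Tr := Tr.L (Pth.l (Pth.r (Pth.l Pth.z)))
def l3 : Tr := Tr.L (Pth.l (Pth.r (Pth.r (Pth.l Pth.z))))
def l4 : Tr := Tr.L (Pth.l (Pth.r (Pth.r (Pth.r Pth.z))))
def l5 : Tr := Tr.L (Pth.r (Pth.l (Pth.l Pth.z)))
def l6 : Tr := Tr.L (Pth.r (Pth.l (Pth.r Pth.z)))
def l7 : Tr := Tr.L (Pth.r (Pth.r (Pth.l Pth.z)))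
def l8 : Tr := Tr.L (Pth.r (Pth.r (Pth.r (Pth.l Pth.z))))
def l9 : Tr := Tr.L (Pth.r (Pth.r (Pth.r (Pth.r Pth.z))))
end T2
theorem bx0_0 : BoxOK sI cl5 cl9 cl9 t1 t1 b0_0 :=
  box_mk (TrL.c (I.pos (nat_lit 0) (nat_lit 0)) (xa (xa T1.l0 T1.l0) (xa T1.l0 T1.l0))
  (TrL.c (I.pos (nat_lit 0) (nat_lit 0)) (xa T1.l1 T1.l1)
  (TrL.c (I.pos (nat_lit 0) (nat_lit 0)) T1.l2
  (TrL.c (I.pos (nat_lit 0) (nat_lit 0)) T1.l3
  (TrL.c (I.pos (nat_lit 0) (nat_lit 0)) (xa T1.l4 (xa T1.l4 T1.l4))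
  (TrL.c (I.pos (nat_lit 0) (nat_lit 0)) T1.l5
  (TrL.c (I.pos (nat_lit 0) (nat_lit 0)) T1.l6
  (TrL.c (I.pos (nat_lit 0) (nat_lit 0)) T1.l7
  TrL.n)))))))) (by decide +kernel)
theorem bx0_1 : BoxOK sI cl5 cl9 cl9 t1 t1 b0_1 :=
  box_mk (TrL.c (I.pos (nat_lit 0) (nat_lit 0)) (xa (xa (xa T1.l0 T1.l0) T1.l0) T1.l0)
  (TrL.c (I.pos (nat_lit 0) (nat_lit 0)) T1.l1
  (TrL.c (I.pos (nat_lit 0) (nat_lit 0)) T1.l2
  (TrL.c (I.pos (nat_lit 0) (nat_lit 0)) T1.l3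
  (TrL.c (I.pos (nat_lit 0) (nat_lit 0)) T1.l4
  (TrL.c (I.pos (nat_lit 0) (nat_lit 0)) T1.l5
  (TrL.c (I.pos (nat_lit 0) (nat_lit 0)) T1.l6
  (TrL.c (I.pos (nat_lit 0) (nat_lit 0)) T1.l7
  TrL.n)))))))) (by decide +kernel)
theorem bx0_2 : BoxOK sI cl5 cl9 cl9 t1 t1 b0_2 :=
  box_mk (TrL.c (I.pos (nat_lit 0) (nat_lit 0)) T1.l0
  (TrL.c (I.pos (nat_lit 0) (nat_lit 0)) T1.l1
  (TrL.c (I.pos (nat_lit 0) (nat_lit 0)) T1.l2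
  (TrL.c (I.pos (nat_lit 0) (nat_lit 0)) T1.l3
  (TrL.c (I.pos (nat_lit 0) (nat_lit 0)) T1.l4
  (TrL.c (I.pos (nat_lit 0) (nat_lit 0)) T1.l5
  (TrL.c (I.pos (nat_lit 0) (nat_lit 0)) T1.l6
  (TrL.c (I.pos (nat_lit 0) (nat_lit 0)) T1.l7
  TrL.n)))))))) (by decide +kernel)
theorem bx0_3 : BoxOK sI cl5 cl9 cl9 t1 t1 b0_3 :=
  box_mk (TrL.c (I.pos (nat_lit 0) (nat_lit 0)) T1.l0
  (TrL.c (I.pos (nat_lit 0) (nat_lit 0)) T1.l1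
  (TrL.c (I.pos (nat_lit 0) (nat_lit 0)) T1.l2
  (TrL.c (I.pos (nat_lit 0) (nat_lit 0)) T1.l3
  (TrL.c (I.pos (nat_lit 0) (nat_lit 0)) T1.l4
  (TrL.c (I.pos (nat_lit 0) (nat_lit 0)) T1.l5
  (TrL.c (I.pos (nat_lit 0) (nat_lit 0)) T1.l6
  (TrL.c (I.pos (nat_lit 0) (nat_lit 0)) T1.l7
  TrL.n)))))))) (by decide +kernel)
theorem bx0_4 : BoxOK sI cl5 cl9 cl9 t1 t1 b0_4 :=
  box_mk (TrL.c (I.pos (nat_lit 0) (nat_lit 0)) T1.l0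
  (TrL.c (I.pos (nat_lit 0) (nat_lit 0)) T1.l1
  (TrL.c (I.pos (nat_lit 0) (nat_lit 0)) T1.l2
  (TrL.c (I.pos (nat_lit 0) (nat_lit 0)) T1.l3
  (TrL.c (I.pos (nat_lit 0) (nat_lit 0)) T1.l4
  (TrL.c (I.pos (nat_lit 0) (nat_lit 0)) T1.l5
  (TrL.c (I.pos (nat_lit 0) (nat_lit 0)) T1.l6
  (TrL.c (I.pos (nat_lit 0) (nat_lit 0)) T1.l7
  TrL.n)))))))) (by decide +kernel)
theorem bx0_5 : BoxOK sI cl5 cl9 cl9 t1 t1 b0_5 :=
  box_mk (TrL.c (I.pos (nat_lit 0) (nat_lit 0)) T1.l0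
  (TrL.c (I.pos (nat_lit 0) (nat_lit 0)) T1.l1
  (TrL.c (I.pos (nat_lit 0) (nat_lit 0)) T1.l2
  (TrL.c (I.pos (nat_lit 0) (nat_lit 0)) T1.l3
  (TrL.c (I.pos (nat_lit 0) (nat_lit 0)) T1.l4
  (TrL.c (I.pos (nat_lit 0) (nat_lit 0)) T1.l5
  (TrL.c (I.pos (nat_lit 0) (nat_lit 0)) T1.l6
  (TrL.c (I.pos (nat_lit 0) (nat_lit 0)) T1.l7
  TrL.n)))))))) (by decide +kernel)
theorem bx0_6 : BoxOK sI cl5 cl9 cl9 t1 t1 b0_6 :=
  box_mk (TrL.c (I.pos (nat_lit 0) (nat_lit 0)) (xa (xa (xb T1.l0 T1.l0) T1.l0) T1.l0)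
  (TrL.c (I.pos (nat_lit 0) (nat_lit 0)) T1.l1
  (TrL.c (I.pos (nat_lit 0) (nat_lit 0)) T1.l2
  (TrL.c (I.pos (nat_lit 0) (nat_lit 0)) T1.l3
  (TrL.c (I.pos (nat_lit 0) (nat_lit 0)) T1.l4
  (TrL.c (I.pos (nat_lit 0) (nat_lit 0)) T1.l5
  (TrL.c (I.pos (nat_lit 0) (nat_lit 0)) T1.l6
  (TrL.c (I.pos (nat_lit 0) (nat_lit 0)) T1.l7
  TrL.n)))))))) (by decide +kernel)
theorem bx0_7 : BoxOK sI cl5 cl9 cl9 t1 t1 b0_7 :=
  box_mk (TrL.c (I.pos (nat_lit 0) (nat_lit 0)) (xb (xa T1.l0 T1.l0) (xa T1.l0 T1.l0))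
  (TrL.c (I.pos (nat_lit 0) (nat_lit 0)) T1.l1
  (TrL.c (I.pos (nat_lit 0) (nat_lit 0)) T1.l2
  (TrL.c (I.pos (nat_lit 0) (nat_lit 0)) T1.l3
  (TrL.c (I.pos (nat_lit 0) (nat_lit 0)) (xb T1.l4 T1.l4)
  (TrL.c (I.pos (nat_lit 0) (nat_lit 0)) T1.l5
  (TrL.c (I.pos (nat_lit 0) (nat_lit 0)) T1.l6
  (TrL.c (I.pos (nat_lit 0) (nat_lit 0)) T1.l7
  TrL.n)))))))) (by decide +kernel)
theorem bx0_8 : BoxOK sI cl5 cl9 cl9 t1 t1 b0_8 :=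
  box_mk (TrL.c (I.pos (nat_lit 0) (nat_lit 0)) (xa (xa T1.l0 T1.l0) T1.l0)
  (TrL.c (I.pos (nat_lit 0) (nat_lit 0)) T1.l1
  (TrL.c (I.pos (nat_lit 0) (nat_lit 0)) T1.l2
  (TrL.c (I.pos (nat_lit 0) (nat_lit 0)) T1.l3
  (TrL.c (I.pos (nat_lit 0) (nat_lit 0)) T1.l4
  (TrL.c (I.pos (nat_lit 0) (nat_lit 0)) T1.l5
  (TrL.c (I.pos (nat_lit 0) (nat_lit 0)) T1.l6
  (TrL.c (I.pos (nat_lit 0) (nat_lit 0)) T1.l7
  TrL.n)))))))) (by decide +kernel)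
theorem bx0_9 : BoxOK sI cl5 cl9 cl9 t1 t1 b0_9 :=
  box_mk (TrL.c (I.pos (nat_lit 0) (nat_lit 0)) T1.l0
  (TrL.c (I.pos (nat_lit 0) (nat_lit 0)) T1.l1
  (TrL.c (I.pos (nat_lit 0) (nat_lit 0)) T1.l2
  (TrL.c (I.pos (nat_lit 0) (nat_lit 0)) T1.l3
  (TrL.c (I.pos (nat_lit 0) (nat_lit 0)) T1.l4
  (TrL.c (I.pos (nat_lit 0) (nat_lit 0)) T1.l5
  (TrL.c (I.pos (nat_lit 0) (nat_lit 0)) T1.l6
  (TrL.c (I.pos (nat_lit 0) (nat_lit 0)) T1.l7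
  TrL.n)))))))) (by decide +kernel)
theorem sv0 : StarV sI cl5 cl9 cl9 t1 t1 t0 :=
  (bt_n (bt_n (bt_n (bt_b bx0_0) (bt_b bx0_1)) (bt_n (bt_b bx0_2) (bt_n (bt_b bx0_3) (bt_b bx0_4)))) (bt_n (bt_n (bt_b bx0_5) (bt_b bx0_6)) (bt_n (bt_b bx0_7) (bt_n (bt_b bx0_8) (bt_b bx0_9)))))
def S0 : StarD := StarD.mk cl5 cl9 cl9 1 1 t0
theorem bx1_0 : BoxOK sI cl9 cl5 cl9 t0 t2 b1_0 :=
  box_mk (TrL.c (I.pos (nat_lit 0) (nat_lit 0)) (xa (xb T0.l0 T0.l0) (xb T0.l0 T0.l0))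
  (TrL.c (I.pos (nat_lit 0) (nat_lit 0)) (xa T2.l1 T2.l8)
  (TrL.c (I.pos (nat_lit 0) (nat_lit 124588530)) T0.l1
  (TrL.c (I.pos (nat_lit 0) (nat_lit 96881482)) T2.l2
  (TrL.c (I.pos (nat_lit 0) (nat_lit 0)) (xa (xb T2.l3 T2.l3) (xb (xk (xa T2.l3 T2.l3) (xa T2.l3 T2.l3)) (xk (xa T2.l3 (xs (xk T2.l3 T2.l3) (xb T2.l3 T2.l3))) (xa T2.l3 (xs T2.l3 (xb T2.l3 T2.l3))))))
  (TrL.c (I.pos (nat_lit 0) (nat_lit 0)) T0.l2
  (TrL.c (I.mix (nat_lit 17240550) (nat_lit 96881482)) T2.l4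
  (TrL.c (I.mix (nat_lit 17240550) (nat_lit 71940500)) T0.l6
  TrL.n)))))))) (by decide +kernel)
theorem bx1_1 : BoxOK sI cl9 cl5 cl9 t0 t2 b1_1 :=
  box_mk (TrL.c (I.pos (nat_lit 0) (nat_lit 0)) T0.l0
  (TrL.c (I.pos (nat_lit 0) (nat_lit 0)) T2.l1
  (TrL.c (I.pos (nat_lit 0) (nat_lit 124588530)) T0.l1
  (TrL.c (I.pos (nat_lit 0) (nat_lit 96881482)) T2.l2
  (TrL.c (I.pos (nat_lit 0) (nat_lit 0)) T2.l3
  (TrL.c (I.pos (nat_lit 0) (nat_lit 0)) T0.l2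
  (TrL.c (I.mix (nat_lit 17240550) (nat_lit 96881482)) T2.l4
  (TrL.c (I.mix (nat_lit 17240550) (nat_lit 71940500)) T0.l3
  TrL.n)))))))) (by decide +kernel)
theorem bx1_2 : BoxOK sI cl9 cl5 cl9 t0 t2 b1_2 :=
  box_mk (TrL.c (I.pos (nat_lit 0) (nat_lit 0)) T0.l0
  (TrL.c (I.pos (nat_lit 0) (nat_lit 0)) T2.l1
  (TrL.c (I.pos (nat_lit 0) (nat_lit 124588530)) T0.l1
  (TrL.c (I.pos (nat_lit 0) (nat_lit 96881482)) T2.l2
  (TrL.c (I.pos (nat_lit 0) (nat_lit 0)) T2.l3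
  (TrL.c (I.pos (nat_lit 0) (nat_lit 0)) T0.l2
  (TrL.c (I.mix (nat_lit 17240550) (nat_lit 96881482)) T2.l4
  (TrL.c (I.mix (nat_lit 17240550) (nat_lit 71940500)) T0.l3
  TrL.n)))))))) (by decide +kernel)
theorem bx1_3 : BoxOK sI cl9 cl5 cl9 t0 t2 b1_3 :=
  box_mk (TrL.c (I.pos (nat_lit 0) (nat_lit 0)) T2.l5
  (TrL.c (I.pos (nat_lit 0) (nat_lit 0)) T0.l1
  (TrL.c (I.mix (nat_lit 17240550) (nat_lit 96881482)) T2.l2
  (TrL.c (I.mix (nat_lit 17240550) (nat_lit 71940500)) T0.l1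
  TrL.n)))) (by decide +kernel)
theorem bx1_4 : BoxOK sI cl9 cl5 cl9 t0 t2 b1_4 :=
  box_mk (TrL.c (I.pos (nat_lit 0) (nat_lit 0)) (xb T0.l0 (xa T0.l0 T0.l0))
  (TrL.c (I.pos (nat_lit 0) (nat_lit 0)) T2.l1
  (TrL.c (I.pos (nat_lit 0) (nat_lit 124588530)) T0.l1
  (TrL.c (I.pos (nat_lit 0) (nat_lit 96881482)) T2.l2
  (TrL.c (I.pos (nat_lit 0) (nat_lit 0)) (xb T2.l3 T2.l3)
  (TrL.c (I.pos (nat_lit 0) (nat_lit 0)) T0.l2
  (TrL.c (I.mix (nat_lit 17240550) (nat_lit 96881482)) T2.l4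
  (TrL.c (I.mix (nat_lit 17240550) (nat_lit 71940500)) T0.l6
  TrL.n)))))))) (by decide +kernel)
theorem bx1_5 : BoxOK sI cl9 cl5 cl9 t0 t2 b1_5 :=
  box_mk (TrL.c (I.pos (nat_lit 0) (nat_lit 0)) T0.l0
  (TrL.c (I.pos (nat_lit 0) (nat_lit 0)) T2.l1
  (TrL.c (I.pos (nat_lit 0) (nat_lit 124588530)) T0.l1
  (TrL.c (I.pos (nat_lit 0) (nat_lit 96881482)) T2.l2
  (TrL.c (I.pos (nat_lit 0) (nat_lit 0)) T2.l3
  (TrL.c (I.pos (nat_lit 0) (nat_lit 0)) T0.l2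
  (TrL.c (I.mix (nat_lit 17240550) (nat_lit 96881482)) T2.l4
  (TrL.c (I.mix (nat_lit 17240550) (nat_lit 71940500)) T0.l6
  TrL.n)))))))) (by decide +kernel)
theorem bx1_6 : BoxOK sI cl9 cl5 cl9 t0 t2 b1_6 :=
  box_mk (TrL.c (I.pos (nat_lit 0) (nat_lit 0)) T0.l0
  (TrL.c (I.pos (nat_lit 0) (nat_lit 0)) T2.l5
  (TrL.c (I.pos (nat_lit 0) (nat_lit 124588530)) T0.l1
  (TrL.c (I.pos (nat_lit 0) (nat_lit 96881482)) T2.l2
  (TrL.c (I.pos (nat_lit 0) (nat_lit 0)) T2.l3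
  (TrL.c (I.pos (nat_lit 0) (nat_lit 0)) T0.l2
  (TrL.c (I.mix (nat_lit 17240550) (nat_lit 96881482)) T2.l4
  (TrL.c (I.mix (nat_lit 17240550) (nat_lit 71940500)) T0.l6
  TrL.n)))))))) (by decide +kernel)
theorem bx1_7 : BoxOK sI cl9 cl5 cl9 t0 t2 b1_7 :=
  box_mk (TrL.c (I.pos (nat_lit 0) (nat_lit 0)) T2.l1
  (TrL.c (I.pos (nat_lit 0) (nat_lit 0)) T0.l1
  (TrL.c (I.mix (nat_lit 17240550) (nat_lit 96881482)) T2.l2
  (TrL.c (I.mix (nat_lit 17240550) (nat_lit 71940500)) T0.l1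
  TrL.n)))) (by decide +kernel)
theorem sv1 : StarV sI cl9 cl5 cl9 t0 t2 t1 :=
  (bt_n (bt_n (bt_n (bt_b bx1_0) (bt_b bx1_1)) (bt_n (bt_b bx1_2) (bt_b bx1_3))) (bt_n (bt_n (bt_b bx1_4) (bt_b bx1_5)) (bt_n (bt_b bx1_6) (bt_b bx1_7))))
def S1 : StarD := StarD.mk cl9 cl5 cl9 0 2 t1
theorem bx2_0 : BoxOK sI cl9 cl9 cl5 t2 t0 b2_0 :=
  box_mk (TrL.c (I.pos (nat_lit 0) (nat_lit 0)) (xa (xa T2.l0 T2.l0) (xa T2.l0 T2.l0))
  (TrL.c (I.pos (nat_lit 0) (nat_lit 0)) (xa T0.l5 T0.l5)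
  (TrL.c (I.pos (nat_lit 0) (nat_lit 124588530)) T2.l7
  (TrL.c (I.pos (nat_lit 0) (nat_lit 96881482)) T0.l6
  (TrL.c (I.pos (nat_lit 0) (nat_lit 0)) (xa T0.l7 (xk (xa T0.l7 (xb T0.l7 T0.l7)) (xa T0.l7 (xb T0.l7 T0.l7))))
  (TrL.c (I.pos (nat_lit 0) (nat_lit 0)) T2.l8
  (TrL.c (I.mix (nat_lit 17240550) (nat_lit 96881482)) T0.l8
  (TrL.c (I.mix (nat_lit 17240550) (nat_lit 71940500)) T2.l9
  TrL.n)))))))) (by decide +kernel)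
theorem bx2_1 : BoxOK sI cl9 cl9 cl5 t2 t0 b2_1 :=
  box_mk (TrL.c (I.pos (nat_lit 0) (nat_lit 0)) T2.l0
  (TrL.c (I.pos (nat_lit 0) (nat_lit 0)) T0.l5
  (TrL.c (I.pos (nat_lit 0) (nat_lit 124588530)) T2.l7
  (TrL.c (I.pos (nat_lit 0) (nat_lit 96881482)) T0.l6
  (TrL.c (I.pos (nat_lit 0) (nat_lit 0)) T0.l7
  (TrL.c (I.pos (nat_lit 0) (nat_lit 0)) T2.l8
  (TrL.c (I.mix (nat_lit 17240550) (nat_lit 96881482)) T0.l8
  (TrL.c (I.mix (nat_lit 17240550) (nat_lit 71940500)) T2.l9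
  TrL.n)))))))) (by decide +kernel)
theorem bx2_2 : BoxOK sI cl9 cl9 cl5 t2 t0 b2_2 :=
  box_mk (TrL.c (I.pos (nat_lit 0) (nat_lit 0)) (xa (xa T2.l0 T2.l0) T2.l0)
  (TrL.c (I.pos (nat_lit 0) (nat_lit 0)) T0.l5
  (TrL.c (I.pos (nat_lit 0) (nat_lit 124588530)) T2.l7
  (TrL.c (I.pos (nat_lit 0) (nat_lit 96881482)) T0.l6
  (TrL.c (I.pos (nat_lit 0) (nat_lit 0)) T0.l7
  (TrL.c (I.pos (nat_lit 0) (nat_lit 0)) T2.l8
  (TrL.c (I.mix (nat_lit 17240550) (nat_lit 96881482)) T0.l8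
  (TrL.c (I.mix (nat_lit 17240550) (nat_lit 71940500)) T2.l9
  TrL.n)))))))) (by decide +kernel)
theorem bx2_3 : BoxOK sI cl9 cl9 cl5 t2 t0 b2_3 :=
  box_mk (TrL.c (I.pos (nat_lit 0) (nat_lit 0)) (xa (xb T2.l0 T2.l0) (xb T2.l0 T2.l0))
  (TrL.c (I.pos (nat_lit 0) (nat_lit 0)) T0.l5
  (TrL.c (I.pos (nat_lit 0) (nat_lit 124588530)) T2.l7
  (TrL.c (I.pos (nat_lit 0) (nat_lit 96881482)) T0.l6
  (TrL.c (I.pos (nat_lit 0) (nat_lit 0)) (xb T0.l7 T0.l7)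
  (TrL.c (I.pos (nat_lit 0) (nat_lit 0)) T2.l8
  (TrL.c (I.mix (nat_lit 17240550) (nat_lit 96881482)) T0.l8
  (TrL.c (I.mix (nat_lit 17240550) (nat_lit 71940500)) T2.l9
  TrL.n)))))))) (by decide +kernel)
theorem bx2_4 : BoxOK sI cl9 cl9 cl5 t2 t0 b2_4 :=
  box_mk (TrL.c (I.pos (nat_lit 0) (nat_lit 0)) (xa T2.l0 T2.l0)
  (TrL.c (I.pos (nat_lit 0) (nat_lit 0)) (xa T0.l5 T0.l5)
  (TrL.c (I.pos (nat_lit 0) (nat_lit 124588530)) T2.l7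
  (TrL.c (I.pos (nat_lit 0) (nat_lit 96881482)) T0.l6
  (TrL.c (I.pos (nat_lit 0) (nat_lit 0)) (xa T0.l7 T0.l7)
  (TrL.c (I.pos (nat_lit 0) (nat_lit 0)) T2.l8
  (TrL.c (I.mix (nat_lit 17240550) (nat_lit 96881482)) T0.l8
  (TrL.c (I.mix (nat_lit 17240550) (nat_lit 71940500)) T2.l9
  TrL.n)))))))) (by decide +kernel)
theorem bx2_5 : BoxOK sI cl9 cl9 cl5 t2 t0 b2_5 :=
  box_mk (TrL.c (I.pos (nat_lit 0) (nat_lit 0)) T2.l0
  (TrL.c (I.pos (nat_lit 0) (nat_lit 0)) T0.l5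
  (TrL.c (I.pos (nat_lit 0) (nat_lit 124588530)) T2.l7
  (TrL.c (I.pos (nat_lit 0) (nat_lit 96881482)) T0.l6
  (TrL.c (I.pos (nat_lit 0) (nat_lit 0)) T0.l7
  (TrL.c (I.pos (nat_lit 0) (nat_lit 0)) T2.l8
  (TrL.c (I.mix (nat_lit 17240550) (nat_lit 96881482)) T0.l8
  (TrL.c (I.mix (nat_lit 17240550) (nat_lit 71940500)) T2.l9
  TrL.n)))))))) (by decide +kernel)
theorem bx2_6 : BoxOK sI cl9 cl9 cl5 t2 t0 b2_6 :=
  box_mk (TrL.c (I.pos (nat_lit 0) (nat_lit 0)) T2.l0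
  (TrL.c (I.pos (nat_lit 0) (nat_lit 0)) T0.l5
  (TrL.c (I.pos (nat_lit 0) (nat_lit 124588530)) T2.l7
  (TrL.c (I.pos (nat_lit 0) (nat_lit 96881482)) T0.l6
  (TrL.c (I.pos (nat_lit 0) (nat_lit 0)) T0.l7
  (TrL.c (I.pos (nat_lit 0) (nat_lit 0)) T2.l8
  (TrL.c (I.mix (nat_lit 17240550) (nat_lit 96881482)) T0.l8
  (TrL.c (I.mix (nat_lit 17240550) (nat_lit 71940500)) T2.l9
  TrL.n)))))))) (by decide +kernel)
theorem bx2_7 : BoxOK sI cl9 cl9 cl5 t2 t0 b2_7 :=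
  box_mk (TrL.c (I.pos (nat_lit 0) (nat_lit 0)) (xa (xa (xa T2.l0 T2.l0) T2.l0) T2.l0)
  (TrL.c (I.pos (nat_lit 0) (nat_lit 0)) (xa T0.l5 T0.l5)
  (TrL.c (I.pos (nat_lit 0) (nat_lit 124588530)) T2.l7
  (TrL.c (I.pos (nat_lit 0) (nat_lit 96881482)) T0.l6
  (TrL.c (I.pos (nat_lit 0) (nat_lit 0)) (xa T0.l7 T0.l7)
  (TrL.c (I.pos (nat_lit 0) (nat_lit 0)) T2.l8
  (TrL.c (I.mix (nat_lit 17240550) (nat_lit 96881482)) T0.l8
  (TrL.c (I.mix (nat_lit 17240550) (nat_lit 71940500)) T2.l9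
  TrL.n)))))))) (by decide +kernel)
theorem bx2_8 : BoxOK sI cl9 cl9 cl5 t2 t0 b2_8 :=
  box_mk (TrL.c (I.pos (nat_lit 0) (nat_lit 0)) T2.l0
  (TrL.c (I.pos (nat_lit 0) (nat_lit 0)) T0.l5
  (TrL.c (I.pos (nat_lit 0) (nat_lit 124588530)) T2.l7
  (TrL.c (I.pos (nat_lit 0) (nat_lit 96881482)) T0.l6
  (TrL.c (I.pos (nat_lit 0) (nat_lit 0)) T0.l7
  (TrL.c (I.pos (nat_lit 0) (nat_lit 0)) T2.l8
  (TrL.c (I.mix (nat_lit 17240550) (nat_lit 96881482)) T0.l8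
  (TrL.c (I.mix (nat_lit 17240550) (nat_lit 71940500)) T2.l9
  TrL.n)))))))) (by decide +kernel)
theorem bx2_9 : BoxOK sI cl9 cl9 cl5 t2 t0 b2_9 :=
  box_mk (TrL.c (I.pos (nat_lit 0) (nat_lit 0)) (xa T2.l0 T2.l0)
  (TrL.c (I.pos (nat_lit 0) (nat_lit 0)) T0.l5
  (TrL.c (I.pos (nat_lit 0) (nat_lit 124588530)) T2.l7
  (TrL.c (I.pos (nat_lit 0) (nat_lit 96881482)) T0.l6
  (TrL.c (I.pos (nat_lit 0) (nat_lit 0)) T0.l7
  (TrL.c (I.pos (nat_lit 0) (nat_lit 0)) T2.l8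
  (TrL.c (I.mix (nat_lit 17240550) (nat_lit 96881482)) T0.l8
  (TrL.c (I.mix (nat_lit 17240550) (nat_lit 71940500)) T2.l9
  TrL.n)))))))) (by decide +kernel)
theorem sv2 : StarV sI cl9 cl9 cl5 t2 t0 t2 :=
  (bt_n (bt_n (bt_n (bt_b bx2_0) (bt_b bx2_1)) (bt_n (bt_b bx2_2) (bt_n (bt_b bx2_3) (bt_b bx2_4)))) (bt_n (bt_n (bt_b bx2_5) (bt_b bx2_6)) (bt_n (bt_b bx2_7) (bt_n (bt_b bx2_8) (bt_b bx2_9)))))
def S2 : StarD := StarD.mk cl9 cl9 cl5 2 0 t2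
def G : List StarD := [S0, S1, S2]
theorem so0 : StarOK sI G S0 :=
  star_mk (by decide) (by decide) rfl rfl rfl rfl rfl rfl (rfl : _ = t1) (rfl : _ = t1)
  (st_mk (Pth.l (Pth.l (Pth.l Pth.z))) (nat_lit 116441452) (nat_lit 135418064) (by decide +kernel))
  (st_mk (Pth.l (Pth.l (Pth.l Pth.z))) (nat_lit 152290951) (nat_lit 171778723) (by decide +kernel))
  (st_mk (Pth.l (Pth.l (Pth.l Pth.z))) (nat_lit 193982287) (nat_lit 214192025) (by decide +kernel)) sv0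
theorem so1 : StarOK sI G S1 :=
  star_mk (by decide) (by decide) rfl rfl rfl rfl rfl rfl (rfl : _ = t0) (rfl : _ = t2)
  (st_mk (Pth.l (Pth.l (Pth.l Pth.z))) (nat_lit 238826638) (nat_lit 240514695) (by decide +kernel))
  (st_mk (Pth.l (Pth.l (Pth.l Pth.z))) (nat_lit 273964282) (nat_lit 276017537) (by decide +kernel))
  (st_mk (Pth.l (Pth.l (Pth.l Pth.z))) (nat_lit 314549068) (nat_lit 317088237) (by decide +kernel)) sv1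
theorem so2 : StarOK sI G S2 :=
  star_mk (by decide) (by decide) rfl rfl rfl rfl rfl rfl (rfl : _ = t2) (rfl : _ = t0)
  (st_mk (Pth.l (Pth.l (Pth.l Pth.z))) (nat_lit 115348458) (nat_lit 133827785) (by decide +kernel))
  (st_mk (Pth.l (Pth.l (Pth.l Pth.z))) (nat_lit 150424836) (nat_lit 169204885) (by decide +kernel))
  (st_mk (Pth.l (Pth.l (Pth.l Pth.z))) (nat_lit 190956621) (nat_lit 210167461) (by decide +kernel)) sv2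
theorem ok : GroupOK (nat_lit 0) (nat_lit 91291648) G := grp_mk (allS_c so0 (allS_c so1 (allS_c so2 allS_n)))
theorem cov : GCov G cl5 cl9 cl9 := cov_mk
  ⟨0, by decide, rfl, rfl, rfl⟩ ⟨0, by decide, rfl, rfl, rfl⟩ ⟨1, by decide, rfl, rfl, rfl⟩ ⟨2, by decide, rfl, rfl, rfl⟩ ⟨1, by decide, rfl, rfl, rfl⟩ ⟨2, by decide, rfl, rfl, rfl⟩
end Q255_0

namespace Q255_1
def sI : I := I.pos (nat_lit 91226112) (nat_lit 150339584)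
def b0_0 : Bx := Bx.mk (St.mk (I.pos (nat_lit 155713536) (nat_lit 245940224)) (I.mix (nat_lit 4227072) (nat_lit 70057984)) (I.mix (nat_lit 5537792) (nat_lit 93356032)) (I.pos (nat_lit 109330432) (nat_lit 251183104)) (I.mix (nat_lit 91930624) (nat_lit 48414720)) (I.mix (nat_lit 65880064) (nat_lit 51953664)) (I.mix (nat_lit 92127232) (nat_lit 73973760)))
  false (nat_lit 0)
def b0_1 : Bx := Bx.mk (St.mk (I.mix (nat_lit 25690112) (nat_lit 149504000)) (I.mix (nat_lit 2736128) (nat_lit 29949952)) (I.mix (nat_lit 11911168) (nat_lit 17219584)) (I.pos (nat_lit 11419648) (nat_lit 107528192)) (I.mix (nat_lit 24395776) (nat_lit 27639808)) (I.mix (nat_lit 26198016) (nat_lit 19972096)) (I.mix (nat_lit 21037056) (nat_lit 13828096)))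
  false (nat_lit 0)
def b0_2 : Bx := Bx.mk (St.mk (I.pos (nat_lit 107970560) (nat_lit 154976256)) (I.mix (nat_lit 57622528) (nat_lit 6029312)) (I.neg (nat_lit 983040) (nat_lit 67567616)) (I.pos (nat_lit 62324736) (nat_lit 125026304)) (I.mix (nat_lit 85557248) (nat_lit 31883264)) (I.mix (nat_lit 33898496) (nat_lit 72515584)) (I.mix (nat_lit 25427968) (nat_lit 63963136)))
  false (nat_lit 0)
def b0_3 : Bx := Bx.mk (St.mk (I.mix (nat_lit 27721728) (nat_lit 104628224)) (I.mix (nat_lit 27770880) (nat_lit 3506176)) (I.mix (nat_lit 22642688) (nat_lit 688128)) (I.pos (nat_lit 14712832) (nat_lit 71761920)) (I.mix (nat_lit 30687232) (nat_lit 11747328)) (I.mix (nat_lit 13647872) (nat_lit 23019520)) (I.mix (nat_lit 7569408) (nat_lit 12419072)))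
  false (nat_lit 0)
def b0_4 : Bx := Bx.mk (St.mk (I.pos (nat_lit 200114176) (nat_lit 272318464)) (I.mix (nat_lit 11239424) (nat_lit 37650432)) (I.mix (nat_lit 52477952) (nat_lit 40042496)) (I.pos (nat_lit 192921600) (nat_lit 321241088)) (I.mix (nat_lit 82640896) (nat_lit 40828928)) (I.mix (nat_lit 60276736) (nat_lit 49676288)) (I.mix (nat_lit 90652672) (nat_lit 87048192)))
  false (nat_lit 0)
def b0_5 : Bx := Bx.mk (St.mk (I.mix (nat_lit 26099712) (nat_lit 80396288)) (I.mix (nat_lit 2162688) (nat_lit 5373952)) (I.neg (nat_lit 294912) (nat_lit 8110080)) (I.pos (nat_lit 15810560) (nat_lit 59244544)) (I.mix (nat_lit 5619712) (nat_lit 8667136)) (I.mix (nat_lit 6684672) (nat_lit 3915776)) (I.mix (nat_lit 3702784) (nat_lit 2179072)))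
  false (nat_lit 0)
def b0_6 : Bx := Bx.mk (St.mk (I.pos (nat_lit 96108544) (nat_lit 182206464)) (I.mix (nat_lit 59883520) (nat_lit 4325376)) (I.neg (nat_lit 2883584) (nat_lit 65470464)) (I.pos (nat_lit 69844992) (nat_lit 161529856)) (I.mix (nat_lit 82591744) (nat_lit 44171264)) (I.mix (nat_lit 40026112) (nat_lit 66945024)) (I.mix (nat_lit 33701888) (nat_lit 68485120)))
  false (nat_lit 0)
def b0_7 : Bx := Bx.mk (St.mk (I.mix (nat_lit 26017792) (nat_lit 114868224)) (I.mix (nat_lit 31719424) (nat_lit 6701056)) (I.mix (nat_lit 26034176) (nat_lit 1032192)) (I.pos (nat_lit 12861440) (nat_lit 78299136)) (I.mix (nat_lit 34226176) (nat_lit 24854528)) (I.mix (nat_lit 17465344) (nat_lit 30801920)) (I.mix (nat_lit 10780672) (nat_lit 19709952)))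
  false (nat_lit 0)
def b0_8 : Bx := Bx.mk (St.mk (I.pos (nat_lit 170967040) (nat_lit 223461376)) (I.mix (nat_lit 17809408) (nat_lit 60162048)) (I.mix (nat_lit 14057472) (nat_lit 82853888)) (I.pos (nat_lit 133513216) (nat_lit 226164736)) (I.mix (nat_lit 113459200) (nat_lit 40206336)) (I.mix (nat_lit 112263168) (nat_lit 59932672)) (I.mix (nat_lit 124305408) (nat_lit 64126976)))
  false (nat_lit 0)
def b0_9 : Bx := Bx.mk (St.mk (I.mix (nat_lit 29212672) (nat_lit 144556032)) (I.mix (nat_lit 16334848) (nat_lit 40484864)) (I.mix (nat_lit 17563648) (nat_lit 24723456)) (I.pos (nat_lit 12959744) (nat_lit 102416384)) (I.mix (nat_lit 42188800) (nat_lit 26984448)) (I.mix (nat_lit 42303488) (nat_lit 25968640)) (I.mix (nat_lit 26574848) (nat_lit 15564800)))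
  false (nat_lit 0)
def b0_10 : Bx := Bx.mk (St.mk (I.pos (nat_lit 143851520) (nat_lit 214286336)) (I.mix (nat_lit 50184192) (nat_lit 19431424)) (I.mix (nat_lit 65929216) (nat_lit 25083904)) (I.pos (nat_lit 102744064) (nat_lit 205406208)) (I.mix (nat_lit 55066624) (nat_lit 44384256)) (I.mix (nat_lit 56573952) (nat_lit 46120960)) (I.mix (nat_lit 61177856) (nat_lit 46891008)))
  false (nat_lit 0)
def b0_11 : Bx := Bx.mk (St.mk (I.pos (nat_lit 173309952) (nat_lit 215121920)) (I.mix (nat_lit 17104896) (nat_lit 37076992)) (I.mix (nat_lit 17973248) (nat_lit 52101120)) (I.pos (nat_lit 139837440) (nat_lit 209027072)) (I.mix (nat_lit 102563840) (nat_lit 55590912)) (I.mix (nat_lit 116654080) (nat_lit 56786944)) (I.mix (nat_lit 131203072) (nat_lit 63045632)))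
  false (nat_lit 0)
def b0_12 : Bx := Bx.mk (St.mk (I.pos (nat_lit 193183744) (nat_lit 241827840)) (I.pos (nat_lit 3964928) (nat_lit 56573952)) (I.mix (nat_lit 6782976) (nat_lit 76955648)) (I.pos (nat_lit 188235776) (nat_lit 251084800)) (I.mix (nat_lit 78233600) (nat_lit 57196544)) (I.mix (nat_lit 67813376) (nat_lit 46333952)) (I.mix (nat_lit 107151360) (nat_lit 59621376)))
  false (nat_lit 0)
def t0 : BTr := (BTr.n (BTr.n (BTr.n (BTr.b b0_0) (BTr.n (BTr.b b0_1) (BTr.b b0_2))) (BTr.n (BTr.b b0_3) (BTr.n (BTr.b b0_4) (BTr.b b0_5)))) (BTr.n (BTr.n (BTr.b b0_6) (BTr.n (BTr.b b0_7) (BTr.b b0_8))) (BTr.n (BTr.n (BTr.b b0_9) (BTr.b b0_10)) (BTr.n (BTr.b b0_11) (BTr.b b0_12)))))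
namespace T0
def l0 : Tr := Tr.L (Pth.l (Pth.l (Pth.l Pth.z)))
def l1 : Tr := Tr.L (Pth.l (Pth.l (Pth.r (Pth.l Pth.z))))
def l2 : Tr := Tr.L (Pth.l (Pth.l (Pth.r (Pth.r Pth.z))))
def l3 : Tr := Tr.L (Pth.l (Pth.r (Pth.l Pth.z)))
def l4 : Tr := Tr.L (Pth.l (Pth.r (Pth.r (Pth.l Pth.z))))
def l5 : Tr := Tr.L (Pth.l (Pth.r (Pth.r (Pth.r Pth.z))))
def l6 : Tr := Tr.L (Pth.r (Pth.l (Pth.l Pth.z)))
def l7 : Tr := Tr.L (Pth.r (Pth.l (Pth.r (Pth.l Pth.z))))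
def l8 : Tr := Tr.L (Pth.r (Pth.l (Pth.r (Pth.r Pth.z))))
def l9 : Tr := Tr.L (Pth.r (Pth.r (Pth.l (Pth.l Pth.z))))
def l10 : Tr := Tr.L (Pth.r (Pth.r (Pth.l (Pth.r Pth.z))))
def l11 : Tr := Tr.L (Pth.r (Pth.r (Pth.r (Pth.l Pth.z))))
def l12 : Tr := Tr.L (Pth.r (Pth.r (Pth.r (Pth.r Pth.z))))
end T0
def b1_0 : Bx := Bx.mk (St.mk (I.pos (nat_lit 153223168) (nat_lit 231686144)) (I.mix (nat_lit 4571136) (nat_lit 76201984)) (I.mix (nat_lit 6356992) (nat_lit 107806720)) (I.pos (nat_lit 232718336) (nat_lit 341753856)) (I.mix (nat_lit 101007360) (nat_lit 62701568)) (I.mix (nat_lit 67076096) (nat_lit 58867712)) (I.mix (nat_lit 90112000) (nat_lit 79577088)))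
  false (nat_lit 58526269)
def b1_1 : Bx := Bx.mk (St.mk (I.pos (nat_lit 69632000) (nat_lit 158859264)) (I.neg (nat_lit 1556480) (nat_lit 83509248)) (I.mix (nat_lit 73203712) (nat_lit 5357568)) (I.pos (nat_lit 162217984) (nat_lit 236453888)) (I.mix (nat_lit 77578240) (nat_lit 50053120)) (I.mix (nat_lit 40730624) (nat_lit 60162048)) (I.mix (nat_lit 34816000) (nat_lit 51412992)))
  false (nat_lit 0)
def b1_2 : Bx := Bx.mk (St.mk (I.pos (nat_lit 19677184) (nat_lit 77234176)) (I.mix (nat_lit 12271616) (nat_lit 53460992)) (I.mix (nat_lit 25788416) (nat_lit 8421376)) (I.pos (nat_lit 142163968) (nat_lit 163790848)) (I.mix (nat_lit 28475392) (nat_lit 43925504)) (I.mix (nat_lit 36569088) (nat_lit 24608768)) (I.mix (nat_lit 19824640) (nat_lit 10911744)))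
  false (nat_lit 0)
def b1_3 : Bx := Bx.mk (St.mk (I.mix (nat_lit 38469632) (nat_lit 11288576)) (I.mix (nat_lit 46432256) (nat_lit 11010048)) (I.mix (nat_lit 4636672) (nat_lit 5980160)) (I.pos (nat_lit 140017664) (nat_lit 151076864)) (I.mix (nat_lit 25133056) (nat_lit 38240256)) (I.mix (nat_lit 19644416) (nat_lit 33882112)) (I.mix (nat_lit 4833280) (nat_lit 5341184)))
  true (nat_lit 0)
def b1_4 : Bx := Bx.mk (St.mk (I.pos (nat_lit 146620416) (nat_lit 205209600)) (I.mix (nat_lit 1343488) (nat_lit 69320704)) (I.pos (nat_lit 12664832) (nat_lit 97665024)) (I.pos (nat_lit 227540992) (nat_lit 301842432)) (I.mix (nat_lit 120586240) (nat_lit 32571392)) (I.mix (nat_lit 109936640) (nat_lit 54312960)) (I.mix (nat_lit 107069440) (nat_lit 55427072)))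
  false (nat_lit 29259398)
def b1_5 : Bx := Bx.mk (St.mk (I.pos (nat_lit 48791552) (nat_lit 106528768)) (I.mix (nat_lit 69337088) (nat_lit 14745600)) (I.neg (nat_lit 5914624) (nat_lit 59473920)) (I.pos (nat_lit 147832832) (nat_lit 186466304)) (I.mix (nat_lit 85622784) (nat_lit 30261248)) (I.mix (nat_lit 30015488) (nat_lit 67256320)) (I.mix (nat_lit 23232512) (nat_lit 39796736)))
  false (nat_lit 0)
def b1_6 : Bx := Bx.mk (St.mk (I.mix (nat_lit 11288576) (nat_lit 38469632)) (I.mix (nat_lit 11010048) (nat_lit 46432256)) (I.mix (nat_lit 4636672) (nat_lit 5980160)) (I.pos (nat_lit 140017664) (nat_lit 151076864)) (I.mix (nat_lit 38240256) (nat_lit 25133056)) (I.mix (nat_lit 33882112) (nat_lit 19644416)) (I.mix (nat_lit 4833280) (nat_lit 5341184)))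
  false (nat_lit 0)
def b1_7 : Bx := Bx.mk (St.mk (I.neg (nat_lit 19677184) (nat_lit 77234176)) (I.mix (nat_lit 53460992) (nat_lit 12271616)) (I.mix (nat_lit 25788416) (nat_lit 8421376)) (I.pos (nat_lit 142163968) (nat_lit 163790848)) (I.mix (nat_lit 43925504) (nat_lit 28475392)) (I.mix (nat_lit 24608768) (nat_lit 36569088)) (I.mix (nat_lit 19824640) (nat_lit 10911744)))
  true (nat_lit 0)
def b1_8 : Bx := Bx.mk (St.mk (I.pos (nat_lit 184877056) (nat_lit 290177024)) (I.mix (nat_lit 25559040) (nat_lit 59670528)) (I.mix (nat_lit 96665600) (nat_lit 75022336)) (I.pos (nat_lit 286720000) (nat_lit 451182592)) (I.mix (nat_lit 67911680) (nat_lit 57688064)) (I.mix (nat_lit 56475648) (nat_lit 42254336)) (I.mix (nat_lit 101990400) (nat_lit 75268096)))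
  false (nat_lit 61750239)
def b1_9 : Bx := Bx.mk (St.mk (I.pos (nat_lit 125009920) (nat_lit 197689344)) (I.mix (nat_lit 43827200) (nat_lit 27082752)) (I.mix (nat_lit 37322752) (nat_lit 45547520)) (I.pos (nat_lit 201605120) (nat_lit 280559616)) (I.mix (nat_lit 62160896) (nat_lit 53952512)) (I.mix (nat_lit 61063168) (nat_lit 50577408)) (I.mix (nat_lit 57720832) (nat_lit 48037888)))
  false (nat_lit 0)
def b1_10 : Bx := Bx.mk (St.mk (I.pos (nat_lit 170934272) (nat_lit 225984512)) (I.pos (nat_lit 20709376) (nat_lit 71499776)) (I.pos (nat_lit 23347200) (nat_lit 98336768)) (I.pos (nat_lit 276627456) (nat_lit 328794112)) (I.mix (nat_lit 94208000) (nat_lit 67534848)) (I.mix (nat_lit 85377024) (nat_lit 56557568)) (I.mix (nat_lit 121176064) (nat_lit 73105408)))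
  false (nat_lit 42779601)
def b1_11 : Bx := Bx.mk (St.mk (I.pos (nat_lit 151977984) (nat_lit 193560576)) (I.mix (nat_lit 14925824) (nat_lit 53428224)) (I.mix (nat_lit 7241728) (nat_lit 80707584)) (I.pos (nat_lit 235585536) (nat_lit 281919488)) (I.mix (nat_lit 110100480) (nat_lit 51625984)) (I.mix (nat_lit 112574464) (nat_lit 56442880)) (I.mix (nat_lit 114786304) (nat_lit 55672832)))
  false (nat_lit 0)
def t1 : BTr := (BTr.n (BTr.n (BTr.n (BTr.b b1_0) (BTr.n (BTr.b b1_1) (BTr.b b1_2))) (BTr.n (BTr.b b1_3) (BTr.n (BTr.b b1_4) (BTr.b b1_5)))) (BTr.n (BTr.n (BTr.b b1_6) (BTr.n (BTr.b b1_7) (BTr.b b1_8))) (BTr.n (BTr.b b1_9) (BTr.n (BTr.b b1_10) (BTr.b b1_11)))))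
namespace T1
def l0 : Tr := Tr.L (Pth.l (Pth.l (Pth.l Pth.z)))
def l1 : Tr := Tr.L (Pth.l (Pth.l (Pth.r (Pth.l Pth.z))))
def l2 : Tr := Tr.L (Pth.l (Pth.l (Pth.r (Pth.r Pth.z))))
def l3 : Tr := Tr.L (Pth.l (Pth.r (Pth.l Pth.z)))
def l4 : Tr := Tr.L (Pth.l (Pth.r (Pth.r (Pth.l Pth.z))))
def l5 : Tr := Tr.L (Pth.l (Pth.r (Pth.r (Pth.r Pth.z))))
def l6 : Tr := Tr.L (Pth.r (Pth.l (Pth.l Pth.z)))
def l7 : Tr := Tr.L (Pth.r (Pth.l (Pth.r (Pth.l Pth.z))))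
def l8 : Tr := Tr.L (Pth.r (Pth.l (Pth.r (Pth.r Pth.z))))
def l9 : Tr := Tr.L (Pth.r (Pth.r (Pth.l Pth.z)))
def l10 : Tr := Tr.L (Pth.r (Pth.r (Pth.r (Pth.l Pth.z))))
def l11 : Tr := Tr.L (Pth.r (Pth.r (Pth.r (Pth.r Pth.z))))
end T1
def b2_0 : Bx := Bx.mk (St.mk (I.pos (nat_lit 155975680) (nat_lit 241172480)) (I.mix (nat_lit 3096576) (nat_lit 50216960)) (I.mix (nat_lit 6701056) (nat_lit 113704960)) (I.pos (nat_lit 108494848) (nat_lit 238436352)) (I.mix (nat_lit 94486528) (nat_lit 53313536)) (I.mix (nat_lit 74104832) (nat_lit 55328768)) (I.mix (nat_lit 108707840) (nat_lit 71041024)))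
  false (nat_lit 2112242)
def b2_1 : Bx := Bx.mk (St.mk (I.pos (nat_lit 121438208) (nat_lit 177209344)) (I.neg (nat_lit 1015808) (nat_lit 59490304)) (I.mix (nat_lit 48316416) (nat_lit 7962624)) (I.pos (nat_lit 88424448) (nat_lit 153370624)) (I.mix (nat_lit 63307776) (nat_lit 37191680)) (I.mix (nat_lit 34766848) (nat_lit 44253184)) (I.mix (nat_lit 29933568) (nat_lit 43859968)))
  false (nat_lit 0)
def b2_2 : Bx := Bx.mk (St.mk (I.mix (nat_lit 21823488) (nat_lit 117440512)) (I.mix (nat_lit 29917184) (nat_lit 2670592)) (I.mix (nat_lit 14516224) (nat_lit 8994816)) (I.pos (nat_lit 13336576) (nat_lit 80560128)) (I.mix (nat_lit 24739840) (nat_lit 22069248)) (I.mix (nat_lit 15564800) (nat_lit 20611072)) (I.mix (nat_lit 8798208) (nat_lit 12976128)))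
  false (nat_lit 0)
def b2_3 : Bx := Bx.mk (St.mk (I.pos (nat_lit 168624128) (nat_lit 216727552)) (I.mix (nat_lit 15089664) (nat_lit 56868864)) (I.pos (nat_lit 11468800) (nat_lit 109510656)) (I.pos (nat_lit 124157952) (nat_lit 208535552)) (I.mix (nat_lit 129171456) (nat_lit 38404096)) (I.mix (nat_lit 126713856) (nat_lit 60325888)) (I.mix (nat_lit 153894912) (nat_lit 55771136)))
  false (nat_lit 12141595)
def b2_4 : Bx := Bx.mk (St.mk (I.mix (nat_lit 27066368) (nat_lit 142114816)) (I.mix (nat_lit 11157504) (nat_lit 38567936)) (I.mix (nat_lit 2244608) (nat_lit 36978688)) (I.pos (nat_lit 12959744) (nat_lit 100122624)) (I.mix (nat_lit 51658752) (nat_lit 25477120)) (I.mix (nat_lit 40583168) (nat_lit 24215552)) (I.mix (nat_lit 27688960) (nat_lit 15155200)))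
  false (nat_lit 0)
def b2_5 : Bx := Bx.mk (St.mk (I.pos (nat_lit 156139520) (nat_lit 211451904)) (I.mix (nat_lit 36847616) (nat_lit 15548416)) (I.mix (nat_lit 18219008) (nat_lit 51806208)) (I.pos (nat_lit 113328128) (nat_lit 196820992)) (I.mix (nat_lit 47644672) (nat_lit 58458112)) (I.mix (nat_lit 53149696) (nat_lit 51757056)) (I.mix (nat_lit 53395456) (nat_lit 54558720)))
  false (nat_lit 0)
def b2_6 : Bx := Bx.mk (St.mk (I.mix (nat_lit 29425664) (nat_lit 123535360)) (I.mix (nat_lit 13058048) (nat_lit 1638400)) (I.mix (nat_lit 2686976) (nat_lit 9502720)) (I.pos (nat_lit 14368768) (nat_lit 84410368)) (I.mix (nat_lit 7962624) (nat_lit 12369920)) (I.mix (nat_lit 5783552) (nat_lit 8994816)) (I.mix (nat_lit 3440640) (nat_lit 6062080)))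
  false (nat_lit 0)
def b2_7 : Bx := Bx.mk (St.mk (I.mix (nat_lit 30212096) (nat_lit 149012480)) (I.mix (nat_lit 7929856) (nat_lit 27639808)) (I.mix (nat_lit 2080768) (nat_lit 31014912)) (I.pos (nat_lit 10862592) (nat_lit 105627648)) (I.mix (nat_lit 34750464) (nat_lit 30638080)) (I.mix (nat_lit 35618816) (nat_lit 22740992)) (I.mix (nat_lit 28721152) (nat_lit 16793600)))
  false (nat_lit 0)
def b2_8 : Bx := Bx.mk (St.mk (I.pos (nat_lit 105299968) (nat_lit 164691968)) (I.mix (nat_lit 65372160) (nat_lit 12828672)) (I.mix (nat_lit 52838400) (nat_lit 19742720)) (I.pos (nat_lit 61276160) (nat_lit 135086080)) (I.mix (nat_lit 76742656) (nat_lit 26951680)) (I.mix (nat_lit 35454976) (nat_lit 71286784)) (I.mix (nat_lit 26411008) (nat_lit 58392576)))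
  false (nat_lit 0)
def b2_9 : Bx := Bx.mk (St.mk (I.mix (nat_lit 26066944) (nat_lit 99516416)) (I.mix (nat_lit 29343744) (nat_lit 5586944)) (I.mix (nat_lit 12664832) (nat_lit 7716864)) (I.pos (nat_lit 14909440) (nat_lit 70778880)) (I.mix (nat_lit 26591232) (nat_lit 14483456)) (I.mix (nat_lit 14270464) (nat_lit 27951104)) (I.mix (nat_lit 7454720) (nat_lit 13860864)))
  false (nat_lit 0)
def b2_10 : Bx := Bx.mk (St.mk (I.pos (nat_lit 192724992) (nat_lit 284852224)) (I.mix (nat_lit 23756800) (nat_lit 40812544)) (I.mix (nat_lit 28311552) (nat_lit 95158272)) (I.pos (nat_lit 178159616) (nat_lit 339361792)) (I.mix (nat_lit 68681728) (nat_lit 53264384)) (I.mix (nat_lit 56918016) (nat_lit 36814848)) (I.mix (nat_lit 89571328) (nat_lit 61587456)))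
  false (nat_lit 0)
def b2_11 : Bx := Bx.mk (St.mk (I.pos (nat_lit 181354496) (nat_lit 235470848)) (I.pos (nat_lit 9437184) (nat_lit 49971200)) (I.pos (nat_lit 34013184) (nat_lit 106250240)) (I.pos (nat_lit 168460288) (nat_lit 228360192)) (I.mix (nat_lit 89505792) (nat_lit 61243392)) (I.mix (nat_lit 88260608) (nat_lit 59228160)) (I.mix (nat_lit 135823360) (nat_lit 76201984)))
  false (nat_lit 0)
def b2_12 : Bx := Bx.mk (St.mk (I.pos (nat_lit 156286976) (nat_lit 179372032)) (I.neg (nat_lit 11747328) (nat_lit 37634048)) (I.mix (nat_lit 23412736) (nat_lit 7274496)) (I.pos (nat_lit 114900992) (nat_lit 157089792)) (I.mix (nat_lit 23920640) (nat_lit 19070976)) (I.mix (nat_lit 13451264) (nat_lit 16318464)) (I.mix (nat_lit 13172736) (nat_lit 17285120)))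
  false (nat_lit 0)
def b2_13 : Bx := Bx.mk (St.mk (I.pos (nat_lit 170082304) (nat_lit 212205568)) (I.mix (nat_lit 23658496) (nat_lit 28639232)) (I.pos (nat_lit 2129920) (nat_lit 70516736)) (I.pos (nat_lit 126287872) (nat_lit 198328320)) (I.mix (nat_lit 88096768) (nat_lit 49872896)) (I.mix (nat_lit 106315776) (nat_lit 52658176)) (I.mix (nat_lit 126025728) (nat_lit 54001664)))
  false (nat_lit 0)
def t2 : BTr := (BTr.n (BTr.n (BTr.n (BTr.b b2_0) (BTr.n (BTr.b b2_1) (BTr.b b2_2))) (BTr.n (BTr.n (BTr.b b2_3) (BTr.b b2_4)) (BTr.n (BTr.b b2_5) (BTr.b b2_6)))) (BTr.n (BTr.n (BTr.b b2_7) (BTr.n (BTr.b b2_8) (BTr.b b2_9))) (BTr.n (BTr.n (BTr.b b2_10) (BTr.b b2_11)) (BTr.n (BTr.b b2_12) (BTr.b b2_13)))))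
namespace T2
def l0 : Tr := Tr.L (Pth.l (Pth.l (Pth.l Pth.z)))
def l1 : Tr := Tr.L (Pth.l (Pth.l (Pth.r (Pth.l Pth.z))))
def l2 : Tr := Tr.L (Pth.l (Pth.l (Pth.r (Pth.r Pth.z))))
def l3 : Tr := Tr.L (Pth.l (Pth.r (Pth.l (Pth.l Pth.z))))
def l4 : Tr := Tr.L (Pth.l (Pth.r (Pth.l (Pth.r Pth.z))))
def l5 : Tr := Tr.L (Pth.l (Pth.r (Pth.r (Pth.l Pth.z))))
def l6 : Tr := Tr.L (Pth.l (Pth.r (Pth.r (Pth.r Pth.z))))
def l7 : Tr := Tr.L (Pth.r (Pth.l (Pth.l Pth.z)))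
def l8 : Tr := Tr.L (Pth.r (Pth.l (Pth.r (Pth.l Pth.z))))
def l9 : Tr := Tr.L (Pth.r (Pth.l (Pth.r (Pth.r Pth.z))))
def l10 : Tr := Tr.L (Pth.r (Pth.r (Pth.l (Pth.l Pth.z))))
def l11 : Tr := Tr.L (Pth.r (Pth.r (Pth.l (Pth.r Pth.z))))
def l12 : Tr := Tr.L (Pth.r (Pth.r (Pth.r (Pth.l Pth.z))))
def l13 : Tr := Tr.L (Pth.r (Pth.r (Pth.r (Pth.r Pth.z))))
end T2
theorem bx0_0 : BoxOK sI cl5 cl9 cl9 t1 t1 b0_0 :=
  box_mk (TrL.c (I.pos (nat_lit 0) (nat_lit 0)) (xa (xb (xa T1.l0 T1.l0) (xa (xb T1.l0 T1.l0) (xb T1.l0 T1.l0))) (xb T1.l0 (xa T1.l0 T1.l0)))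
  (TrL.c (I.pos (nat_lit 0) (nat_lit 0)) (xa T1.l1 T1.l1)
  (TrL.c (I.pos (nat_lit 0) (nat_lit 0)) T1.l2
  (TrL.c (I.pos (nat_lit 0) (nat_lit 0)) T1.l3
  (TrL.c (I.pos (nat_lit 0) (nat_lit 0)) (xa T1.l4 (xb T1.l4 (xa T1.l4 (xb T1.l4 T1.l4))))
  (TrL.c (I.pos (nat_lit 0) (nat_lit 0)) T1.l5
  (TrL.c (I.pos (nat_lit 0) (nat_lit 0)) T1.l6
  (TrL.c (I.pos (nat_lit 0) (nat_lit 0)) T1.l7
  TrL.n)))))))) (by decide +kernel)
theorem bx0_1 : BoxOK sI cl5 cl9 cl9 t1 t1 b0_1 :=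
  box_mk (TrL.c (I.pos (nat_lit 0) (nat_lit 0)) (xa T1.l8 (xa T1.l8 T1.l8))
  (TrL.c (I.pos (nat_lit 0) (nat_lit 0)) T1.l1
  (TrL.c (I.pos (nat_lit 0) (nat_lit 0)) T1.l2
  (TrL.c (I.pos (nat_lit 0) (nat_lit 0)) T1.l3
  (TrL.c (I.pos (nat_lit 0) (nat_lit 0)) T1.l9
  (TrL.c (I.pos (nat_lit 0) (nat_lit 0)) T1.l5
  (TrL.c (I.pos (nat_lit 0) (nat_lit 0)) T1.l6
  (TrL.c (I.pos (nat_lit 0) (nat_lit 0)) T1.l7
  TrL.n)))))))) (by decide +kernel)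
theorem bx0_2 : BoxOK sI cl5 cl9 cl9 t1 t1 b0_2 :=
  box_mk (TrL.c (I.pos (nat_lit 0) (nat_lit 0)) (xb T1.l8 T1.l8)
  (TrL.c (I.pos (nat_lit 0) (nat_lit 0)) T1.l1
  (TrL.c (I.pos (nat_lit 0) (nat_lit 0)) T1.l2
  (TrL.c (I.pos (nat_lit 0) (nat_lit 0)) T1.l3
  (TrL.c (I.pos (nat_lit 0) (nat_lit 0)) T1.l9
  (TrL.c (I.pos (nat_lit 0) (nat_lit 0)) T1.l5
  (TrL.c (I.pos (nat_lit 0) (nat_lit 0)) T1.l6
  (TrL.c (I.pos (nat_lit 0) (nat_lit 0)) T1.l7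
  TrL.n)))))))) (by decide +kernel)
theorem bx0_3 : BoxOK sI cl5 cl9 cl9 t1 t1 b0_3 :=
  box_mk (TrL.c (I.pos (nat_lit 0) (nat_lit 0)) (xa (xa (xb T1.l8 T1.l8) T1.l8) T1.l8)
  (TrL.c (I.pos (nat_lit 0) (nat_lit 0)) T1.l1
  (TrL.c (I.pos (nat_lit 0) (nat_lit 0)) T1.l2
  (TrL.c (I.pos (nat_lit 0) (nat_lit 0)) T1.l3
  (TrL.c (I.pos (nat_lit 0) (nat_lit 0)) T1.l9
  (TrL.c (I.pos (nat_lit 0) (nat_lit 0)) T1.l5
  (TrL.c (I.pos (nat_lit 0) (nat_lit 0)) T1.l6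
  (TrL.c (I.pos (nat_lit 0) (nat_lit 0)) T1.l7
  TrL.n)))))))) (by decide +kernel)
theorem bx0_4 : BoxOK sI cl5 cl9 cl9 t1 t1 b0_4 :=
  box_mk (TrL.c (I.pos (nat_lit 0) (nat_lit 0)) (xa T1.l0 (xb T1.l0 T1.l0))
  (TrL.c (I.pos (nat_lit 0) (nat_lit 0)) T1.l1
  (TrL.c (I.pos (nat_lit 0) (nat_lit 0)) T1.l2
  (TrL.c (I.pos (nat_lit 0) (nat_lit 0)) T1.l3
  (TrL.c (I.pos (nat_lit 0) (nat_lit 0)) (xa T1.l4 (xb T1.l4 T1.l4))
  (TrL.c (I.pos (nat_lit 0) (nat_lit 0)) T1.l5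
  (TrL.c (I.pos (nat_lit 0) (nat_lit 0)) T1.l6
  (TrL.c (I.pos (nat_lit 0) (nat_lit 0)) T1.l7
  TrL.n)))))))) (by decide +kernel)
theorem bx0_5 : BoxOK sI cl5 cl9 cl9 t1 t1 b0_5 :=
  box_mk (TrL.c (I.pos (nat_lit 0) (nat_lit 0)) T1.l8
  (TrL.c (I.pos (nat_lit 0) (nat_lit 0)) T1.l1
  (TrL.c (I.pos (nat_lit 0) (nat_lit 0)) T1.l2
  (TrL.c (I.pos (nat_lit 0) (nat_lit 0)) T1.l3
  (TrL.c (I.pos (nat_lit 0) (nat_lit 0)) T1.l9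
  (TrL.c (I.pos (nat_lit 0) (nat_lit 0)) T1.l5
  (TrL.c (I.pos (nat_lit 0) (nat_lit 0)) T1.l6
  (TrL.c (I.pos (nat_lit 0) (nat_lit 0)) T1.l7
  TrL.n)))))))) (by decide +kernel)
theorem bx0_6 : BoxOK sI cl5 cl9 cl9 t1 t1 b0_6 :=
  box_mk (TrL.c (I.pos (nat_lit 0) (nat_lit 0)) (xa (xb (xa T1.l8 T1.l8) T1.l8) T1.l0)
  (TrL.c (I.pos (nat_lit 0) (nat_lit 0)) T1.l1
  (TrL.c (I.pos (nat_lit 0) (nat_lit 0)) T1.l2
  (TrL.c (I.pos (nat_lit 0) (nat_lit 0)) T1.l3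
  (TrL.c (I.pos (nat_lit 0) (nat_lit 0)) (xa T1.l9 T1.l11)
  (TrL.c (I.pos (nat_lit 0) (nat_lit 0)) T1.l5
  (TrL.c (I.pos (nat_lit 0) (nat_lit 0)) T1.l6
  (TrL.c (I.pos (nat_lit 0) (nat_lit 0)) T1.l7
  TrL.n)))))))) (by decide +kernel)
theorem bx0_7 : BoxOK sI cl5 cl9 cl9 t1 t1 b0_7 :=
  box_mk (TrL.c (I.pos (nat_lit 0) (nat_lit 0)) (xa (xa (xb (xa T1.l8 T1.l8) T1.l8) T1.l8) T1.l8)
  (TrL.c (I.pos (nat_lit 0) (nat_lit 0)) T1.l1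
  (TrL.c (I.pos (nat_lit 0) (nat_lit 0)) T1.l2
  (TrL.c (I.pos (nat_lit 0) (nat_lit 0)) T1.l3
  (TrL.c (I.pos (nat_lit 0) (nat_lit 0)) T1.l9
  (TrL.c (I.pos (nat_lit 0) (nat_lit 0)) T1.l5
  (TrL.c (I.pos (nat_lit 0) (nat_lit 0)) T1.l6
  (TrL.c (I.pos (nat_lit 0) (nat_lit 0)) T1.l7
  TrL.n)))))))) (by decide +kernel)
theorem bx0_8 : BoxOK sI cl5 cl9 cl9 t1 t1 b0_8 :=
  box_mk (TrL.c (I.pos (nat_lit 0) (nat_lit 0)) (xb (xa T1.l10 T1.l10) (xa (xb T1.l10 T1.l10) (xb T1.l10 T1.l10)))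
  (TrL.c (I.pos (nat_lit 0) (nat_lit 0)) T1.l1
  (TrL.c (I.pos (nat_lit 0) (nat_lit 0)) T1.l2
  (TrL.c (I.pos (nat_lit 0) (nat_lit 0)) T1.l3
  (TrL.c (I.pos (nat_lit 0) (nat_lit 0)) (xb T1.l11 (xa T1.l11 (xb T1.l11 T1.l11)))
  (TrL.c (I.pos (nat_lit 0) (nat_lit 0)) T1.l5
  (TrL.c (I.pos (nat_lit 0) (nat_lit 0)) T1.l6
  (TrL.c (I.pos (nat_lit 0) (nat_lit 0)) T1.l7
  TrL.n)))))))) (by decide +kernel)
theorem bx0_9 : BoxOK sI cl5 cl9 cl9 t1 t1 b0_9 :=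
  box_mk (TrL.c (I.pos (nat_lit 0) (nat_lit 0)) (xa (xa (xb T1.l8 (xa T1.l8 T1.l8)) (xb T1.l8 T1.l8)) (xa T1.l8 T1.l8))
  (TrL.c (I.pos (nat_lit 0) (nat_lit 0)) T1.l1
  (TrL.c (I.pos (nat_lit 0) (nat_lit 0)) T1.l2
  (TrL.c (I.pos (nat_lit 0) (nat_lit 0)) T1.l3
  (TrL.c (I.pos (nat_lit 0) (nat_lit 0)) (xa T1.l9 T1.l9)
  (TrL.c (I.pos (nat_lit 0) (nat_lit 0)) T1.l5
  (TrL.c (I.pos (nat_lit 0) (nat_lit 0)) T1.l6
  (TrL.c (I.pos (nat_lit 0) (nat_lit 0)) T1.l7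
  TrL.n)))))))) (by decide +kernel)
theorem bx0_10 : BoxOK sI cl5 cl9 cl9 t1 t1 b0_10 :=
  box_mk (TrL.c (I.pos (nat_lit 0) (nat_lit 0)) (xa T1.l0 T1.l0)
  (TrL.c (I.pos (nat_lit 0) (nat_lit 0)) T1.l1
  (TrL.c (I.pos (nat_lit 0) (nat_lit 0)) T1.l2
  (TrL.c (I.pos (nat_lit 0) (nat_lit 0)) T1.l3
  (TrL.c (I.pos (nat_lit 0) (nat_lit 0)) (xa T1.l11 T1.l0)
  (TrL.c (I.pos (nat_lit 0) (nat_lit 0)) T1.l5
  (TrL.c (I.pos (nat_lit 0) (nat_lit 0)) T1.l6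
  (TrL.c (I.pos (nat_lit 0) (nat_lit 0)) T1.l7
  TrL.n)))))))) (by decide +kernel)
theorem bx0_11 : BoxOK sI cl5 cl9 cl9 t1 t1 b0_11 :=
  box_mk (TrL.c (I.pos (nat_lit 0) (nat_lit 0)) (xb T1.l10 T1.l10)
  (TrL.c (I.pos (nat_lit 0) (nat_lit 0)) T1.l1
  (TrL.c (I.pos (nat_lit 0) (nat_lit 0)) T1.l2
  (TrL.c (I.pos (nat_lit 0) (nat_lit 0)) T1.l3
  (TrL.c (I.pos (nat_lit 0) (nat_lit 0)) T1.l11
  (TrL.c (I.pos (nat_lit 0) (nat_lit 0)) T1.l5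
  (TrL.c (I.pos (nat_lit 0) (nat_lit 0)) T1.l6
  (TrL.c (I.pos (nat_lit 0) (nat_lit 0)) T1.l7
  TrL.n)))))))) (by decide +kernel)
theorem bx0_12 : BoxOK sI cl5 cl9 cl9 t1 t1 b0_12 :=
  box_mk (TrL.c (I.pos (nat_lit 0) (nat_lit 0)) (xa T1.l0 T1.l0)
  (TrL.c (I.pos (nat_lit 0) (nat_lit 0)) T1.l1
  (TrL.c (I.pos (nat_lit 0) (nat_lit 0)) T1.l2
  (TrL.c (I.pos (nat_lit 0) (nat_lit 0)) T1.l3
  (TrL.c (I.pos (nat_lit 0) (nat_lit 0)) T1.l4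
  (TrL.c (I.pos (nat_lit 0) (nat_lit 0)) T1.l5
  (TrL.c (I.pos (nat_lit 0) (nat_lit 0)) T1.l6
  (TrL.c (I.pos (nat_lit 0) (nat_lit 0)) T1.l7
  TrL.n)))))))) (by decide +kernel)
theorem sv0 : StarV sI cl5 cl9 cl9 t1 t1 t0 :=
  (bt_n (bt_n (bt_n (bt_b bx0_0) (bt_n (bt_b bx0_1) (bt_b bx0_2))) (bt_n (bt_b bx0_3) (bt_n (bt_b bx0_4) (bt_b bx0_5)))) (bt_n (bt_n (bt_b bx0_6) (bt_n (bt_b bx0_7) (bt_b bx0_8))) (bt_n (bt_n (bt_b bx0_9) (bt_b bx0_10)) (bt_n (bt_b bx0_11) (bt_b bx0_12)))))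
def S0 : StarD := StarD.mk cl5 cl9 cl9 1 1 t0
theorem bx1_0 : BoxOK sI cl9 cl5 cl9 t0 t2 b1_0 :=
  box_mk (TrL.c (I.pos (nat_lit 0) (nat_lit 0)) (xa (xb T0.l0 (xa T0.l0 T0.l0)) (xb T0.l0 T0.l0))
  (TrL.c (I.pos (nat_lit 0) (nat_lit 0)) T2.l1
  (TrL.c (I.pos (nat_lit 0) (nat_lit 124588530)) (xR T0.l1 T0.l1)
  (TrL.c (I.pos (nat_lit 0) (nat_lit 96881482)) (xR T2.l2 T2.l2)
  (TrL.c (I.pos (nat_lit 0) (nat_lit 0)) (xa T2.l3 (xb T2.l3 T2.l3))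
  (TrL.c (I.pos (nat_lit 0) (nat_lit 0)) T0.l2
  (TrL.c (I.mix (nat_lit 17240550) (nat_lit 96881482)) (xR T2.l4 T2.l4)
  (TrL.c (I.mix (nat_lit 17240550) (nat_lit 71940500)) T0.l7
  TrL.n)))))))) (by decide +kernel)
theorem bx1_1 : BoxOK sI cl9 cl5 cl9 t0 t2 b1_1 :=
  box_mk (TrL.c (I.pos (nat_lit 0) (nat_lit 0)) (xa T0.l4 T0.l4)
  (TrL.c (I.pos (nat_lit 0) (nat_lit 0)) T2.l1
  (TrL.c (I.pos (nat_lit 0) (nat_lit 124588530)) T0.l9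
  (TrL.c (I.pos (nat_lit 0) (nat_lit 96881482)) T2.l2
  (TrL.c (I.pos (nat_lit 0) (nat_lit 0)) (xb (xa T2.l5 T2.l5) T2.l5)
  (TrL.c (I.pos (nat_lit 0) (nat_lit 0)) T0.l2
  (TrL.c (I.mix (nat_lit 17240550) (nat_lit 96881482)) T2.l4
  (TrL.c (I.mix (nat_lit 17240550) (nat_lit 71940500)) T0.l7
  TrL.n)))))))) (by decide +kernel)
theorem bx1_2 : BoxOK sI cl9 cl5 cl9 t0 t2 b1_2 :=
  box_mk (TrL.c (I.pos (nat_lit 0) (nat_lit 0)) (xb T0.l4 T0.l4)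
  (TrL.c (I.pos (nat_lit 0) (nat_lit 0)) T2.l1
  (TrL.c (I.pos (nat_lit 0) (nat_lit 124588530)) T0.l1
  (TrL.c (I.pos (nat_lit 0) (nat_lit 96881482)) T2.l2
  (TrL.c (I.pos (nat_lit 0) (nat_lit 0)) T2.l5
  (TrL.c (I.pos (nat_lit 0) (nat_lit 0)) T0.l2
  (TrL.c (I.mix (nat_lit 17240550) (nat_lit 96881482)) T2.l4
  (TrL.c (I.mix (nat_lit 17240550) (nat_lit 71940500)) T0.l3
  TrL.n)))))))) (by decide +kernel)
theorem bx1_3 : BoxOK sI cl9 cl5 cl9 t0 t2 b1_3 :=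
  box_mk (TrL.c (I.pos (nat_lit 0) (nat_lit 0)) T2.l12
  (TrL.c (I.pos (nat_lit 0) (nat_lit 0)) T0.l9
  (TrL.c (I.mix (nat_lit 17240550) (nat_lit 96881482)) (xR T2.l2 T2.l6)
  (TrL.c (I.mix (nat_lit 17240550) (nat_lit 71940500)) T0.l5
  TrL.n)))) (by decide +kernel)
theorem bx1_4 : BoxOK sI cl9 cl5 cl9 t0 t2 b1_4 :=
  box_mk (TrL.c (I.pos (nat_lit 0) (nat_lit 0)) (xa (xb T0.l12 T0.l12) T0.l12)
  (TrL.c (I.pos (nat_lit 0) (nat_lit 0)) T2.l1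
  (TrL.c (I.pos (nat_lit 0) (nat_lit 124588530)) (xR T0.l1 T0.l1)
  (TrL.c (I.pos (nat_lit 0) (nat_lit 96881482)) (xR T2.l2 T2.l2)
  (TrL.c (I.pos (nat_lit 0) (nat_lit 0)) (xk T2.l3 T2.l3)
  (TrL.c (I.pos (nat_lit 0) (nat_lit 0)) T0.l2
  (TrL.c (I.mix (nat_lit 17240550) (nat_lit 96881482)) (xR T2.l4 T2.l4)
  (TrL.c (I.mix (nat_lit 17240550) (nat_lit 71940500)) T0.l7
  TrL.n)))))))) (by decide +kernel)
theorem bx1_5 : BoxOK sI cl9 cl5 cl9 t0 t2 b1_5 :=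
  box_mk (TrL.c (I.pos (nat_lit 0) (nat_lit 0)) (xb T0.l4 (xa T0.l4 T0.l4))
  (TrL.c (I.pos (nat_lit 0) (nat_lit 0)) T2.l1
  (TrL.c (I.pos (nat_lit 0) (nat_lit 124588530)) T0.l9
  (TrL.c (I.pos (nat_lit 0) (nat_lit 96881482)) T2.l2
  (TrL.c (I.pos (nat_lit 0) (nat_lit 0)) T2.l5
  (TrL.c (I.pos (nat_lit 0) (nat_lit 0)) T0.l2
  (TrL.c (I.mix (nat_lit 17240550) (nat_lit 96881482)) T2.l4
  (TrL.c (I.mix (nat_lit 17240550) (nat_lit 71940500)) T0.l3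
  TrL.n)))))))) (by decide +kernel)
theorem bx1_6 : BoxOK sI cl9 cl5 cl9 t0 t2 b1_6 :=
  box_mk (TrL.c (I.pos (nat_lit 0) (nat_lit 0)) T0.l4
  (TrL.c (I.pos (nat_lit 0) (nat_lit 0)) T2.l12
  (TrL.c (I.pos (nat_lit 0) (nat_lit 124588530)) T0.l9
  (TrL.c (I.pos (nat_lit 0) (nat_lit 96881482)) T2.l2
  (TrL.c (I.pos (nat_lit 0) (nat_lit 0)) T2.l5
  (TrL.c (I.pos (nat_lit 0) (nat_lit 0)) T0.l2
  (TrL.c (I.mix (nat_lit 17240550) (nat_lit 96881482)) T2.l4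
  (TrL.c (I.mix (nat_lit 17240550) (nat_lit 71940500)) T0.l3
  TrL.n)))))))) (by decide +kernel)
theorem bx1_7 : BoxOK sI cl9 cl5 cl9 t0 t2 b1_7 :=
  box_mk (TrL.c (I.pos (nat_lit 0) (nat_lit 0)) T2.l1
  (TrL.c (I.pos (nat_lit 0) (nat_lit 0)) T0.l1
  (TrL.c (I.mix (nat_lit 17240550) (nat_lit 96881482)) (xR T2.l6 T2.l2)
  (TrL.c (I.mix (nat_lit 17240550) (nat_lit 71940500)) T0.l1
  TrL.n)))) (by decide +kernel)
theorem bx1_8 : BoxOK sI cl9 cl5 cl9 t0 t2 b1_8 :=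
  box_mk (TrL.c (I.pos (nat_lit 0) (nat_lit 0)) (xa (xb T0.l0 T0.l0) (xb T0.l0 T0.l0))
  (TrL.c (I.pos (nat_lit 0) (nat_lit 0)) T2.l8
  (TrL.c (I.pos (nat_lit 0) (nat_lit 124588530)) (xR T0.l1 T0.l9)
  (TrL.c (I.pos (nat_lit 0) (nat_lit 96881482)) (xR T2.l2 T2.l2)
  (TrL.c (I.pos (nat_lit 0) (nat_lit 0)) (xa (xb (xk T2.l3 T2.l3) T2.l3) (xb (xk (xa T2.l3 T2.l3) (xa T2.l3 T2.l3)) (xk (xa T2.l3 T2.l3) (xa T2.l3 T2.l3))))
  (TrL.c (I.pos (nat_lit 0) (nat_lit 0)) (xa T0.l2 T0.l2)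
  (TrL.c (I.mix (nat_lit 17240550) (nat_lit 96881482)) (xR T2.l4 (xR T2.l4 T2.l4))
  (TrL.c (I.mix (nat_lit 17240550) (nat_lit 71940500)) T0.l7
  TrL.n)))))))) (by decide +kernel)
theorem bx1_9 : BoxOK sI cl9 cl5 cl9 t0 t2 b1_9 :=
  box_mk (TrL.c (I.pos (nat_lit 0) (nat_lit 0)) T0.l0
  (TrL.c (I.pos (nat_lit 0) (nat_lit 0)) T2.l1
  (TrL.c (I.pos (nat_lit 0) (nat_lit 124588530)) T0.l1
  (TrL.c (I.pos (nat_lit 0) (nat_lit 96881482)) T2.l2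
  (TrL.c (I.pos (nat_lit 0) (nat_lit 0)) (xb T2.l13 T2.l13)
  (TrL.c (I.pos (nat_lit 0) (nat_lit 0)) T0.l2
  (TrL.c (I.mix (nat_lit 17240550) (nat_lit 96881482)) T2.l4
  (TrL.c (I.mix (nat_lit 17240550) (nat_lit 71940500)) T0.l3
  TrL.n)))))))) (by decide +kernel)
theorem bx1_10 : BoxOK sI cl9 cl5 cl9 t0 t2 b1_10 :=
  box_mk (TrL.c (I.pos (nat_lit 0) (nat_lit 0)) (xa T0.l0 T0.l0)
  (TrL.c (I.pos (nat_lit 0) (nat_lit 0)) T2.l1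
  (TrL.c (I.pos (nat_lit 0) (nat_lit 124588530)) (xR T0.l1 T0.l1)
  (TrL.c (I.pos (nat_lit 0) (nat_lit 96881482)) (xR T2.l2 T2.l2)
  (TrL.c (I.pos (nat_lit 0) (nat_lit 0)) T2.l3
  (TrL.c (I.pos (nat_lit 0) (nat_lit 0)) T0.l2
  (TrL.c (I.mix (nat_lit 17240550) (nat_lit 96881482)) T2.l4
  (TrL.c (I.mix (nat_lit 17240550) (nat_lit 71940500)) T0.l7
  TrL.n)))))))) (by decide +kernel)
theorem bx1_11 : BoxOK sI cl9 cl5 cl9 t0 t2 b1_11 :=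
  box_mk (TrL.c (I.pos (nat_lit 0) (nat_lit 0)) (xb T0.l12 T0.l12)
  (TrL.c (I.pos (nat_lit 0) (nat_lit 0)) T2.l1
  (TrL.c (I.pos (nat_lit 0) (nat_lit 124588530)) (xR T0.l1 T0.l1)
  (TrL.c (I.pos (nat_lit 0) (nat_lit 96881482)) (xR T2.l2 T2.l2)
  (TrL.c (I.pos (nat_lit 0) (nat_lit 0)) T2.l13
  (TrL.c (I.pos (nat_lit 0) (nat_lit 0)) T0.l2
  (TrL.c (I.mix (nat_lit 17240550) (nat_lit 96881482)) T2.l4
  (TrL.c (I.mix (nat_lit 17240550) (nat_lit 71940500)) T0.l7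
  TrL.n)))))))) (by decide +kernel)
theorem sv1 : StarV sI cl9 cl5 cl9 t0 t2 t1 :=
  (bt_n (bt_n (bt_n (bt_b bx1_0) (bt_n (bt_b bx1_1) (bt_b bx1_2))) (bt_n (bt_b bx1_3) (bt_n (bt_b bx1_4) (bt_b bx1_5)))) (bt_n (bt_n (bt_b bx1_6) (bt_n (bt_b bx1_7) (bt_b bx1_8))) (bt_n (bt_b bx1_9) (bt_n (bt_b bx1_10) (bt_b bx1_11)))))
def S1 : StarD := StarD.mk cl9 cl5 cl9 0 2 t1
theorem bx2_0 : BoxOK sI cl9 cl9 cl5 t2 t0 b2_0 :=
  box_mk (TrL.c (I.pos (nat_lit 0) (nat_lit 0)) (xa (xa (xb T2.l0 (xs T2.l0 T2.l0)) T2.l11) (xa T2.l0 T2.l0))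
  (TrL.c (I.pos (nat_lit 0) (nat_lit 0)) T0.l6
  (TrL.c (I.pos (nat_lit 0) (nat_lit 124588530)) (xR T2.l7 T2.l7)
  (TrL.c (I.pos (nat_lit 0) (nat_lit 96881482)) (xR T0.l7 T0.l7)
  (TrL.c (I.pos (nat_lit 0) (nat_lit 0)) (xa T0.l8 (xk T0.l8 T0.l8))
  (TrL.c (I.pos (nat_lit 0) (nat_lit 0)) T2.l8
  (TrL.c (I.mix (nat_lit 17240550) (nat_lit 96881482)) (xR T0.l9 T0.l9)
  (TrL.c (I.mix (nat_lit 17240550) (nat_lit 71940500)) (xR T2.l9 T2.l9)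
  TrL.n)))))))) (by decide +kernel)
theorem bx2_1 : BoxOK sI cl9 cl9 cl5 t2 t0 b2_1 :=
  box_mk (TrL.c (I.pos (nat_lit 0) (nat_lit 0)) (xa T2.l10 T2.l10)
  (TrL.c (I.pos (nat_lit 0) (nat_lit 0)) T0.l6
  (TrL.c (I.pos (nat_lit 0) (nat_lit 124588530)) T2.l7
  (TrL.c (I.pos (nat_lit 0) (nat_lit 96881482)) T0.l7
  (TrL.c (I.pos (nat_lit 0) (nat_lit 0)) (xb (xa T0.l10 T0.l10) T0.l10)
  (TrL.c (I.pos (nat_lit 0) (nat_lit 0)) T2.l8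
  (TrL.c (I.mix (nat_lit 17240550) (nat_lit 96881482)) T0.l9
  (TrL.c (I.mix (nat_lit 17240550) (nat_lit 71940500)) T2.l2
  TrL.n)))))))) (by decide +kernel)
theorem bx2_2 : BoxOK sI cl9 cl9 cl5 t2 t0 b2_2 :=
  box_mk (TrL.c (I.pos (nat_lit 0) (nat_lit 0)) (xa T2.l10 T2.l10)
  (TrL.c (I.pos (nat_lit 0) (nat_lit 0)) T0.l6
  (TrL.c (I.pos (nat_lit 0) (nat_lit 124588530)) T2.l7
  (TrL.c (I.pos (nat_lit 0) (nat_lit 96881482)) T0.l7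
  (TrL.c (I.pos (nat_lit 0) (nat_lit 0)) T0.l10
  (TrL.c (I.pos (nat_lit 0) (nat_lit 0)) T2.l8
  (TrL.c (I.mix (nat_lit 17240550) (nat_lit 96881482)) T0.l9
  (TrL.c (I.mix (nat_lit 17240550) (nat_lit 71940500)) T2.l9
  TrL.n)))))))) (by decide +kernel)
theorem bx2_3 : BoxOK sI cl9 cl9 cl5 t2 t0 b2_3 :=
  box_mk (TrL.c (I.pos (nat_lit 0) (nat_lit 0)) (xb (xa T2.l11 T2.l11) (xa (xb T2.l11 (xs T2.l11 T2.l11)) (xb T2.l11 (xs T2.l11 T2.l11))))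
  (TrL.c (I.pos (nat_lit 0) (nat_lit 0)) T0.l6
  (TrL.c (I.pos (nat_lit 0) (nat_lit 124588530)) (xR T2.l7 (xR T2.l7 T2.l7))
  (TrL.c (I.pos (nat_lit 0) (nat_lit 96881482)) (xR T0.l7 T0.l7)
  (TrL.c (I.pos (nat_lit 0) (nat_lit 0)) (xb (xk T0.l11 T0.l11) (xk (xa T0.l11 T0.l11) (xa T0.l11 T0.l11)))
  (TrL.c (I.pos (nat_lit 0) (nat_lit 0)) T2.l8
  (TrL.c (I.mix (nat_lit 17240550) (nat_lit 96881482)) (xR T0.l9 (xR T0.l9 T0.l9))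
  (TrL.c (I.mix (nat_lit 17240550) (nat_lit 71940500)) (xR T2.l9 T2.l9)
  TrL.n)))))))) (by decide +kernel)
theorem bx2_4 : BoxOK sI cl9 cl9 cl5 t2 t0 b2_4 :=
  box_mk (TrL.c (I.pos (nat_lit 0) (nat_lit 0)) (xa (xa (xb T2.l10 (xa T2.l10 T2.l10)) (xb T2.l10 T2.l10)) (xa T2.l10 (xb T2.l10 (xa T2.l10 T2.l10))))
  (TrL.c (I.pos (nat_lit 0) (nat_lit 0)) (xa T0.l6 T0.l6)
  (TrL.c (I.pos (nat_lit 0) (nat_lit 124588530)) T2.l7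
  (TrL.c (I.pos (nat_lit 0) (nat_lit 96881482)) T0.l7
  (TrL.c (I.pos (nat_lit 0) (nat_lit 0)) (xa T0.l10 T0.l10)
  (TrL.c (I.pos (nat_lit 0) (nat_lit 0)) T2.l8
  (TrL.c (I.mix (nat_lit 17240550) (nat_lit 96881482)) T0.l9
  (TrL.c (I.mix (nat_lit 17240550) (nat_lit 71940500)) T2.l9
  TrL.n)))))))) (by decide +kernel)
theorem bx2_5 : BoxOK sI cl9 cl9 cl5 t2 t0 b2_5 :=
  box_mk (TrL.c (I.pos (nat_lit 0) (nat_lit 0)) T2.l0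
  (TrL.c (I.pos (nat_lit 0) (nat_lit 0)) T0.l6
  (TrL.c (I.pos (nat_lit 0) (nat_lit 124588530)) T2.l7
  (TrL.c (I.pos (nat_lit 0) (nat_lit 96881482)) T0.l7
  (TrL.c (I.pos (nat_lit 0) (nat_lit 0)) (xk T0.l11 T0.l11)
  (TrL.c (I.pos (nat_lit 0) (nat_lit 0)) T2.l8
  (TrL.c (I.mix (nat_lit 17240550) (nat_lit 96881482)) (xR T0.l9 T0.l9)
  (TrL.c (I.mix (nat_lit 17240550) (nat_lit 71940500)) T2.l2
  TrL.n)))))))) (by decide +kernel)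
theorem bx2_6 : BoxOK sI cl9 cl9 cl5 t2 t0 b2_6 :=
  box_mk (TrL.c (I.pos (nat_lit 0) (nat_lit 0)) (xa T2.l10 T2.l10)
  (TrL.c (I.pos (nat_lit 0) (nat_lit 0)) T0.l6
  (TrL.c (I.pos (nat_lit 0) (nat_lit 124588530)) T2.l7
  (TrL.c (I.pos (nat_lit 0) (nat_lit 96881482)) T0.l7
  (TrL.c (I.pos (nat_lit 0) (nat_lit 0)) T0.l10
  (TrL.c (I.pos (nat_lit 0) (nat_lit 0)) T2.l8
  (TrL.c (I.mix (nat_lit 17240550) (nat_lit 96881482)) T0.l9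
  (TrL.c (I.mix (nat_lit 17240550) (nat_lit 71940500)) T2.l9
  TrL.n)))))))) (by decide +kernel)
theorem bx2_7 : BoxOK sI cl9 cl9 cl5 t2 t0 b2_7 :=
  box_mk (TrL.c (I.pos (nat_lit 0) (nat_lit 0)) (xa (xa (xa T2.l10 T2.l10) T2.l10) (xa T2.l10 T2.l10))
  (TrL.c (I.pos (nat_lit 0) (nat_lit 0)) (xa T0.l6 T0.l6)
  (TrL.c (I.pos (nat_lit 0) (nat_lit 124588530)) T2.l7
  (TrL.c (I.pos (nat_lit 0) (nat_lit 96881482)) T0.l7
  (TrL.c (I.pos (nat_lit 0) (nat_lit 0)) (xa T0.l10 T0.l10)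
  (TrL.c (I.pos (nat_lit 0) (nat_lit 0)) T2.l8
  (TrL.c (I.mix (nat_lit 17240550) (nat_lit 96881482)) T0.l9
  (TrL.c (I.mix (nat_lit 17240550) (nat_lit 71940500)) T2.l9
  TrL.n)))))))) (by decide +kernel)
theorem bx2_8 : BoxOK sI cl9 cl9 cl5 t2 t0 b2_8 :=
  box_mk (TrL.c (I.pos (nat_lit 0) (nat_lit 0)) (xb (xa T2.l10 T2.l10) (xa T2.l10 T2.l10))
  (TrL.c (I.pos (nat_lit 0) (nat_lit 0)) T0.l6
  (TrL.c (I.pos (nat_lit 0) (nat_lit 124588530)) T2.l7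
  (TrL.c (I.pos (nat_lit 0) (nat_lit 96881482)) T0.l7
  (TrL.c (I.pos (nat_lit 0) (nat_lit 0)) (xb (xa T0.l10 (xk T0.l10 T0.l10)) T0.l10)
  (TrL.c (I.pos (nat_lit 0) (nat_lit 0)) T2.l8
  (TrL.c (I.mix (nat_lit 17240550) (nat_lit 96881482)) T0.l9
  (TrL.c (I.mix (nat_lit 17240550) (nat_lit 71940500)) T2.l9
  TrL.n)))))))) (by decide +kernel)
theorem bx2_9 : BoxOK sI cl9 cl9 cl5 t2 t0 b2_9 :=
  box_mk (TrL.c (I.pos (nat_lit 0) (nat_lit 0)) (xa T2.l10 T2.l10)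
  (TrL.c (I.pos (nat_lit 0) (nat_lit 0)) T0.l6
  (TrL.c (I.pos (nat_lit 0) (nat_lit 124588530)) T2.l7
  (TrL.c (I.pos (nat_lit 0) (nat_lit 96881482)) T0.l7
  (TrL.c (I.pos (nat_lit 0) (nat_lit 0)) T0.l10
  (TrL.c (I.pos (nat_lit 0) (nat_lit 0)) T2.l8
  (TrL.c (I.mix (nat_lit 17240550) (nat_lit 96881482)) T0.l9
  (TrL.c (I.mix (nat_lit 17240550) (nat_lit 71940500)) T2.l9
  TrL.n)))))))) (by decide +kernel)
theorem bx2_10 : BoxOK sI cl9 cl9 cl5 t2 t0 b2_10 :=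
  box_mk (TrL.c (I.pos (nat_lit 0) (nat_lit 0)) (xa (xb T2.l0 T2.l0) (xb T2.l0 T2.l0))
  (TrL.c (I.pos (nat_lit 0) (nat_lit 0)) T0.l6
  (TrL.c (I.pos (nat_lit 0) (nat_lit 124588530)) (xR T2.l7 T2.l4)
  (TrL.c (I.pos (nat_lit 0) (nat_lit 96881482)) (xR T0.l7 T0.l7)
  (TrL.c (I.pos (nat_lit 0) (nat_lit 0)) (xa (xb (xk T0.l8 T0.l8) T0.l8) (xb (xk (xa T0.l8 T0.l8) (xa T0.l8 T0.l8)) (xk (xa T0.l8 T0.l8) (xa T0.l8 T0.l8))))
  (TrL.c (I.pos (nat_lit 0) (nat_lit 0)) T2.l8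
  (TrL.c (I.mix (nat_lit 17240550) (nat_lit 96881482)) (xR T0.l9 T0.l9)
  (TrL.c (I.mix (nat_lit 17240550) (nat_lit 71940500)) (xR T2.l9 T2.l9)
  TrL.n)))))))) (by decide +kernel)
theorem bx2_11 : BoxOK sI cl9 cl9 cl5 t2 t0 b2_11 :=
  box_mk (TrL.c (I.pos (nat_lit 0) (nat_lit 0)) (xa (xb T2.l0 T2.l0) (xb T2.l0 T2.l0))
  (TrL.c (I.pos (nat_lit 0) (nat_lit 0)) T0.l6
  (TrL.c (I.pos (nat_lit 0) (nat_lit 124588530)) (xR T2.l7 T2.l7)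
  (TrL.c (I.pos (nat_lit 0) (nat_lit 96881482)) (xR T0.l7 T0.l7)
  (TrL.c (I.pos (nat_lit 0) (nat_lit 0)) (xk T0.l8 T0.l8)
  (TrL.c (I.pos (nat_lit 0) (nat_lit 0)) T2.l8
  (TrL.c (I.mix (nat_lit 17240550) (nat_lit 96881482)) (xR T0.l9 T0.l9)
  (TrL.c (I.mix (nat_lit 17240550) (nat_lit 71940500)) (xR T2.l9 T2.l9)
  TrL.n)))))))) (by decide +kernel)
theorem bx2_12 : BoxOK sI cl9 cl9 cl5 t2 t0 b2_12 :=
  box_mk (TrL.c (I.pos (nat_lit 0) (nat_lit 0)) T2.l10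
  (TrL.c (I.pos (nat_lit 0) (nat_lit 0)) T0.l6
  (TrL.c (I.pos (nat_lit 0) (nat_lit 124588530)) T2.l7
  (TrL.c (I.pos (nat_lit 0) (nat_lit 96881482)) T0.l7
  (TrL.c (I.pos (nat_lit 0) (nat_lit 0)) T0.l10
  (TrL.c (I.pos (nat_lit 0) (nat_lit 0)) T2.l8
  (TrL.c (I.mix (nat_lit 17240550) (nat_lit 96881482)) T0.l9
  (TrL.c (I.mix (nat_lit 17240550) (nat_lit 71940500)) T2.l9
  TrL.n)))))))) (by decide +kernel)
theorem bx2_13 : BoxOK sI cl9 cl9 cl5 t2 t0 b2_13 :=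
  box_mk (TrL.c (I.pos (nat_lit 0) (nat_lit 0)) (xb T2.l11 T2.l11)
  (TrL.c (I.pos (nat_lit 0) (nat_lit 0)) T0.l6
  (TrL.c (I.pos (nat_lit 0) (nat_lit 124588530)) (xR T2.l7 T2.l7)
  (TrL.c (I.pos (nat_lit 0) (nat_lit 96881482)) T0.l7
  (TrL.c (I.pos (nat_lit 0) (nat_lit 0)) (xk T0.l11 T0.l11)
  (TrL.c (I.pos (nat_lit 0) (nat_lit 0)) T2.l8
  (TrL.c (I.mix (nat_lit 17240550) (nat_lit 96881482)) (xR T0.l9 T0.l9)
  (TrL.c (I.mix (nat_lit 17240550) (nat_lit 71940500)) T2.l2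
  TrL.n)))))))) (by decide +kernel)
theorem sv2 : StarV sI cl9 cl9 cl5 t2 t0 t2 :=
  (bt_n (bt_n (bt_n (bt_b bx2_0) (bt_n (bt_b bx2_1) (bt_b bx2_2))) (bt_n (bt_n (bt_b bx2_3) (bt_b bx2_4)) (bt_n (bt_b bx2_5) (bt_b bx2_6)))) (bt_n (bt_n (bt_b bx2_7) (bt_n (bt_b bx2_8) (bt_b bx2_9))) (bt_n (bt_n (bt_b bx2_10) (bt_b bx2_11)) (bt_n (bt_b bx2_12) (bt_b bx2_13)))))
def S2 : StarD := StarD.mk cl9 cl9 cl5 2 0 t2
def G : List StarD := [S0, S1, S2]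
theorem so0 : StarOK sI G S0 :=
  star_mk (by decide) (by decide) rfl rfl rfl rfl rfl rfl (rfl : _ = t1) (rfl : _ = t1)
  (st_mk (Pth.l (Pth.l (Pth.l Pth.z))) (nat_lit 116915454) (nat_lit 135826890) (by decide +kernel))
  (st_mk (Pth.l (Pth.l (Pth.l Pth.z))) (nat_lit 153107125) (nat_lit 172446029) (by decide +kernel))
  (st_mk (Pth.l (Pth.l (Pth.l Pth.z))) (nat_lit 195318905) (nat_lit 215246013) (by decide +kernel)) sv0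
theorem so1 : StarOK sI G S1 :=
  star_mk (by decide) (by decide) rfl rfl rfl rfl rfl rfl (rfl : _ = t0) (rfl : _ = t2)
  (st_mk (Pth.l (Pth.l (Pth.l Pth.z))) (nat_lit 239088498) (nat_lit 240834139) (by decide +kernel))
  (st_mk (Pth.l (Pth.l (Pth.l Pth.z))) (nat_lit 274309202) (nat_lit 276439549) (by decide +kernel))
  (st_mk (Pth.l (Pth.l (Pth.l Pth.z))) (nat_lit 315004304) (nat_lit 317647131) (by decide +kernel)) sv1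
theorem so2 : StarOK sI G S2 :=
  star_mk (by decide) (by decide) rfl rfl rfl rfl rfl rfl (rfl : _ = t2) (rfl : _ = t0)
  (st_mk (Pth.l (Pth.l (Pth.l Pth.z))) (nat_lit 115436870) (nat_lit 133960517) (by decide +kernel))
  (st_mk (Pth.l (Pth.l (Pth.l Pth.z))) (nat_lit 150574979) (nat_lit 169418410) (by decide +kernel))
  (st_mk (Pth.l (Pth.l (Pth.l Pth.z))) (nat_lit 191198539) (nat_lit 210498949) (by decide +kernel)) sv2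
theorem ok : GroupOK (nat_lit 91226112) (nat_lit 150339584) G := grp_mk (allS_c so0 (allS_c so1 (allS_c so2 allS_n)))
theorem cov : GCov G cl5 cl9 cl9 := cov_mk
  ⟨0, by decide, rfl, rfl, rfl⟩ ⟨0, by decide, rfl, rfl, rfl⟩ ⟨1, by decide, rfl, rfl, rfl⟩ ⟨2, by decide, rfl, rfl, rfl⟩ ⟨1, by decide, rfl, rfl, rfl⟩ ⟨2, by decide, rfl, rfl, rfl⟩
end Q255_1


end Pool.Agent.Helper6.MONO
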