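import Pool.Agent.Helper6.MONO.Cert.C07

/-!
Certificate data (generated).
-/

set_option autoImplicit false
set_option linter.all false
noncomputable section
namespace Pool.Agent.Helper6.MONO


namespace Q255_2
def sI : I := I.pos (nat_lit 150274048) (nat_lit 209387520)
def b0_0 : Bx := Bx.mk (St.mk (I.pos (nat_lit 158466048) (nat_lit 238960640)) (I.mix (nat_lit 1605632) (nat_lit 56885248)) (I.mix (nat_lit 2162688) (nat_lit 80510976)) (I.pos (nat_lit 113590272) (nat_lit 249495552)) (I.mix (nat_lit 114950144) (nat_lit 69468160)) (I.mix (nat_lit 80412672) (nat_lit 67305472)) (I.mix (nat_lit 114556928) (nat_lit 97140736)))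
  false (nat_lit 23000534)
def b0_1 : Bx := Bx.mk (St.mk (I.mix (nat_lit 37388288) (nat_lit 132841472)) (I.mix (nat_lit 2850816) (nat_lit 33767424)) (I.mix (nat_lit 14286848) (nat_lit 18153472)) (I.pos (nat_lit 14057472) (nat_lit 100089856)) (I.mix (nat_lit 49299456) (nat_lit 43925504)) (I.mix (nat_lit 37552128) (nat_lit 32653312)) (I.mix (nat_lit 29442048) (nat_lit 22102016)))
  false (nat_lit 0)
def b0_2 : Bx := Bx.mk (St.mk (I.pos (nat_lit 104906752) (nat_lit 151715840)) (I.mix (nat_lit 53690368) (nat_lit 3522560)) (I.neg (nat_lit 3522560) (nat_lit 63160320)) (I.pos (nat_lit 63963136) (nat_lit 120569856)) (I.mix (nat_lit 109150208) (nat_lit 37814272)) (I.mix (nat_lit 51445760) (nat_lit 91783168)) (I.mix (nat_lit 36061184) (nat_lit 77234176)))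
  false (nat_lit 1806704)
def b0_3 : Bx := Bx.mk (St.mk (I.mix (nat_lit 22052864) (nat_lit 93077504)) (I.mix (nat_lit 26198016) (nat_lit 589824)) (I.mix (nat_lit 22265856) (nat_lit 81920)) (I.pos (nat_lit 15466496) (nat_lit 67616768)) (I.mix (nat_lit 33898496) (nat_lit 12517376)) (I.mix (nat_lit 13434880) (nat_lit 22593536)) (I.mix (nat_lit 6914048) (nat_lit 12304384)))
  false (nat_lit 0)
def b0_4 : Bx := Bx.mk (St.mk (I.pos (nat_lit 199868416) (nat_lit 268107776)) (I.mix (nat_lit 6668288) (nat_lit 34357248)) (I.mix (nat_lit 45547520) (nat_lit 33718272)) (I.pos (nat_lit 197804032) (nat_lit 316080128)) (I.mix (nat_lit 83329024) (nat_lit 49217536)) (I.mix (nat_lit 55181312) (nat_lit 44941312)) (I.mix (nat_lit 81756160) (nat_lit 78315520)))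
  false (nat_lit 0)
def b0_5 : Bx := Bx.mk (St.mk (I.mix (nat_lit 22724608) (nat_lit 75841536)) (I.mix (nat_lit 147456) (nat_lit 4390912)) (I.neg (nat_lit 475136) (nat_lit 7798784)) (I.pos (nat_lit 16941056) (nat_lit 57376768)) (I.mix (nat_lit 1163264) (nat_lit 4554752)) (I.mix (nat_lit 1556480) (nat_lit 1277952)) (I.mix (nat_lit 1048576) (nat_lit 983040)))
  false (nat_lit 0)
def b0_6 : Bx := Bx.mk (St.mk (I.pos (nat_lit 91373568) (nat_lit 183779328)) (I.mix (nat_lit 58245120) (nat_lit 6995968)) (I.neg (nat_lit 5406720) (nat_lit 63930368)) (I.pos (nat_lit 71811072) (nat_lit 163561472)) (I.mix (nat_lit 107429888) (nat_lit 50774016)) (I.mix (nat_lit 49807360) (nat_lit 81231872)) (I.mix (nat_lit 40763392) (nat_lit 70057984)))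
  false (nat_lit 19047963)
def b0_7 : Bx := Bx.mk (St.mk (I.mix (nat_lit 37486592) (nat_lit 104431616)) (I.mix (nat_lit 31735808) (nat_lit 8699904)) (I.mix (nat_lit 28426240) (nat_lit 606208)) (I.pos (nat_lit 13320192) (nat_lit 76103680)) (I.mix (nat_lit 51789824) (nat_lit 34881536)) (I.mix (nat_lit 26460160) (nat_lit 36978688)) (I.mix (nat_lit 16809984) (nat_lit 24248320)))
  false (nat_lit 0)
def b0_8 : Bx := Bx.mk (St.mk (I.pos (nat_lit 170590208) (nat_lit 222527488)) (I.mix (nat_lit 13172736) (nat_lit 57114624)) (I.mix (nat_lit 9060352) (nat_lit 79953920)) (I.pos (nat_lit 135938048) (nat_lit 225574912)) (I.mix (nat_lit 137216000) (nat_lit 60276736)) (I.mix (nat_lit 124125184) (nat_lit 83558400)) (I.mix (nat_lit 135708672) (nat_lit 89391104)))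
  false (nat_lit 0)
def b0_9 : Bx := Bx.mk (St.mk (I.mix (nat_lit 28524544) (nat_lit 133742592)) (I.mix (nat_lit 14548992) (nat_lit 40747008)) (I.mix (nat_lit 23117824) (nat_lit 23412736)) (I.pos (nat_lit 15466496) (nat_lit 95010816)) (I.mix (nat_lit 65912832) (nat_lit 57917440)) (I.mix (nat_lit 52264960) (nat_lit 48791552)) (I.mix (nat_lit 31457280) (nat_lit 27197440)))
  false (nat_lit 0)
def b0_10 : Bx := Bx.mk (St.mk (I.pos (nat_lit 143720448) (nat_lit 211533824)) (I.mix (nat_lit 38780928) (nat_lit 15581184)) (I.mix (nat_lit 50544640) (nat_lit 19759104)) (I.pos (nat_lit 105807872) (nat_lit 200835072)) (I.mix (nat_lit 76382208) (nat_lit 55934976)) (I.mix (nat_lit 73990144) (nat_lit 61997056)) (I.mix (nat_lit 79708160) (nat_lit 63569920)))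
  false (nat_lit 0)
def b0_11 : Bx := Bx.mk (St.mk (I.pos (nat_lit 169099264) (nat_lit 214122496)) (I.mix (nat_lit 15482880) (nat_lit 35323904)) (I.mix (nat_lit 13746176) (nat_lit 49332224)) (I.pos (nat_lit 135086080) (nat_lit 205504512)) (I.mix (nat_lit 119881728) (nat_lit 67420160)) (I.mix (nat_lit 125681664) (nat_lit 68616192)) (I.mix (nat_lit 139165696) (nat_lit 70909952)))
  false (nat_lit 0)
def b0_12 : Bx := Bx.mk (St.mk (I.pos (nat_lit 109838336) (nat_lit 127270912)) (I.mix (nat_lit 2113536) (nat_lit 7372800)) (I.neg (nat_lit 1474560) (nat_lit 13615104)) (I.pos (nat_lit 64634880) (nat_lit 97665024)) (I.mix (nat_lit 7684096) (nat_lit 9682944)) (I.mix (nat_lit 6356992) (nat_lit 4112384)) (I.mix (nat_lit 5636096) (nat_lit 3588096)))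
  false (nat_lit 0)
def b0_13 : Bx := Bx.mk (St.mk (I.pos (nat_lit 189054976) (nat_lit 241172480)) (I.pos (nat_lit 7487488) (nat_lit 56590336)) (I.pos (nat_lit 753664) (nat_lit 77709312)) (I.pos (nat_lit 191119360) (nat_lit 250200064)) (I.mix (nat_lit 99008512) (nat_lit 67665920)) (I.mix (nat_lit 82591744) (nat_lit 54345728)) (I.mix (nat_lit 131219456) (nat_lit 72024064)))
  false (nat_lit 7594121)
def t0 : BTr := (BTr.n (BTr.n (BTr.n (BTr.b b0_0) (BTr.n (BTr.b b0_1) (BTr.b b0_2))) (BTr.n (BTr.n (BTr.b b0_3) (BTr.b b0_4)) (BTr.n (BTr.b b0_5) (BTr.b b0_6)))) (BTr.n (BTr.n (BTr.b b0_7) (BTr.n (BTr.b b0_8) (BTr.b b0_9))) (BTr.n (BTr.n (BTr.b b0_10) (BTr.b b0_11)) (BTr.n (BTr.b b0_12) (BTr.b b0_13)))))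
namespace T0
def l0 : Tr := Tr.L (Pth.l (Pth.l (Pth.l Pth.z)))
def l1 : Tr := Tr.L (Pth.l (Pth.l (Pth.r (Pth.l Pth.z))))
def l2 : Tr := Tr.L (Pth.l (Pth.l (Pth.r (Pth.r Pth.z))))
def l3 : Tr := Tr.L (Pth.l (Pth.r (Pth.l (Pth.l Pth.z))))
def l4 : Tr := Tr.L (Pth.l (Pth.r (Pth.l (Pth.r Pth.z))))
def l5 : Tr := Tr.L (Pth.l (Pth.r (Pth.r (Pth.l Pth.z))))
def l6 : Tr := Tr.L (Pth.l (Pth.r (Pth.r (Pth.r Pth.z))))
def l7 : Tr := Tr.L (Pth.r (Pth.l (Pth.l Pth.z)))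
def l8 : Tr := Tr.L (Pth.r (Pth.l (Pth.r (Pth.l Pth.z))))
def l9 : Tr := Tr.L (Pth.r (Pth.l (Pth.r (Pth.r Pth.z))))
def l10 : Tr := Tr.L (Pth.r (Pth.r (Pth.l (Pth.l Pth.z))))
def l11 : Tr := Tr.L (Pth.r (Pth.r (Pth.l (Pth.r Pth.z))))
def l12 : Tr := Tr.L (Pth.r (Pth.r (Pth.r (Pth.l Pth.z))))
def l13 : Tr := Tr.L (Pth.r (Pth.r (Pth.r (Pth.r Pth.z))))
end T0
def b1_0 : Bx := Bx.mk (St.mk (I.pos (nat_lit 147963904) (nat_lit 227115008)) (I.mix (nat_lit 2031616) (nat_lit 70778880)) (I.mix (nat_lit 2785280) (nat_lit 99516416)) (I.pos (nat_lit 236011520) (nat_lit 337264640)) (I.mix (nat_lit 123060224) (nat_lit 81166336)) (I.mix (nat_lit 79085568) (nat_lit 70123520)) (I.mix (nat_lit 111296512) (nat_lit 98336768)))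
  false (nat_lit 97892064)
def b1_1 : Bx := Bx.mk (St.mk (I.pos (nat_lit 69173248) (nat_lit 153894912)) (I.neg (nat_lit 2195456) (nat_lit 71892992)) (I.mix (nat_lit 62980096) (nat_lit 5554176)) (I.pos (nat_lit 163758080) (nat_lit 231833600)) (I.mix (nat_lit 92602368) (nat_lit 61964288)) (I.mix (nat_lit 48693248) (nat_lit 72171520)) (I.mix (nat_lit 41926656) (nat_lit 61407232)))
  false (nat_lit 0)
def b1_2 : Bx := Bx.mk (St.mk (I.pos (nat_lit 21708800) (nat_lit 74645504)) (I.mix (nat_lit 11354112) (nat_lit 44711936)) (I.mix (nat_lit 24543232) (nat_lit 6062080)) (I.pos (nat_lit 143081472) (nat_lit 163725312)) (I.mix (nat_lit 35995648) (nat_lit 52379648)) (I.mix (nat_lit 43958272) (nat_lit 31162368)) (I.mix (nat_lit 23887872) (nat_lit 13910016)))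
  false (nat_lit 0)
def b1_3 : Bx := Bx.mk (St.mk (I.mix (nat_lit 36536320) (nat_lit 8126464)) (I.mix (nat_lit 39862272) (nat_lit 8847360)) (I.mix (nat_lit 4194304) (nat_lit 4702208)) (I.pos (nat_lit 140591104) (nat_lit 151797760)) (I.mix (nat_lit 30081024) (nat_lit 45383680)) (I.mix (nat_lit 25100288) (nat_lit 40255488)) (I.mix (nat_lit 5029888) (nat_lit 6062080)))
  true (nat_lit 0)
def b1_4 : Bx := Bx.mk (St.mk (I.pos (nat_lit 148520960) (nat_lit 198361088)) (I.pos (nat_lit 2588672) (nat_lit 63766528)) (I.pos (nat_lit 16465920) (nat_lit 92635136)) (I.pos (nat_lit 231161856) (nat_lit 294977536)) (I.mix (nat_lit 134938624) (nat_lit 45989888)) (I.mix (nat_lit 122519552) (nat_lit 64749568)) (I.mix (nat_lit 117768192) (nat_lit 68567040)))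
  false (nat_lit 72738522)
def b1_5 : Bx := Bx.mk (St.mk (I.pos (nat_lit 48906240) (nat_lit 101220352)) (I.mix (nat_lit 62029824) (nat_lit 11894784)) (I.neg (nat_lit 8716288) (nat_lit 53805056)) (I.pos (nat_lit 148684800) (nat_lit 183681024)) (I.mix (nat_lit 89849856) (nat_lit 35799040)) (I.mix (nat_lit 37322752) (nat_lit 78675968)) (I.mix (nat_lit 28622848) (nat_lit 46252032)))
  false (nat_lit 0)
def b1_6 : Bx := Bx.mk (St.mk (I.mix (nat_lit 8126464) (nat_lit 36536320)) (I.mix (nat_lit 8847360) (nat_lit 39862272)) (I.mix (nat_lit 4194304) (nat_lit 4702208)) (I.pos (nat_lit 140591104) (nat_lit 151797760)) (I.mix (nat_lit 45383680) (nat_lit 30081024)) (I.mix (nat_lit 40255488) (nat_lit 25100288)) (I.mix (nat_lit 5029888) (nat_lit 6062080)))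
  false (nat_lit 0)
def b1_7 : Bx := Bx.mk (St.mk (I.neg (nat_lit 21708800) (nat_lit 74645504)) (I.mix (nat_lit 44711936) (nat_lit 11354112)) (I.mix (nat_lit 24543232) (nat_lit 6062080)) (I.pos (nat_lit 143081472) (nat_lit 163725312)) (I.mix (nat_lit 52379648) (nat_lit 35995648)) (I.mix (nat_lit 31162368) (nat_lit 43958272)) (I.mix (nat_lit 23887872) (nat_lit 13910016)))
  true (nat_lit 0)
def b1_8 : Bx := Bx.mk (St.mk (I.pos (nat_lit 183664640) (nat_lit 291700736)) (I.mix (nat_lit 31211520) (nat_lit 53657600)) (I.mix (nat_lit 106627072) (nat_lit 64913408)) (I.pos (nat_lit 289832960) (nat_lit 457359360)) (I.mix (nat_lit 87523328) (nat_lit 85475328)) (I.mix (nat_lit 77201408) (nat_lit 68059136)) (I.mix (nat_lit 137232384) (nat_lit 114196480)))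
  false (nat_lit 113926272)
def b1_9 : Bx := Bx.mk (St.mk (I.pos (nat_lit 123977728) (nat_lit 194068480)) (I.mix (nat_lit 41746432) (nat_lit 27787264)) (I.mix (nat_lit 34783232) (nat_lit 46841856)) (I.pos (nat_lit 202145792) (nat_lit 279248896)) (I.mix (nat_lit 83722240) (nat_lit 65339392)) (I.mix (nat_lit 73596928) (nat_lit 67256320)) (I.mix (nat_lit 70565888) (nat_lit 64831488)))
  false (nat_lit 0)
def b1_10 : Bx := Bx.mk (St.mk (I.pos (nat_lit 164741120) (nat_lit 223870976)) (I.pos (nat_lit 15892480) (nat_lit 72138752)) (I.pos (nat_lit 18644992) (nat_lit 98353152)) (I.pos (nat_lit 273530880) (nat_lit 330088448)) (I.mix (nat_lit 125419520) (nat_lit 94060544)) (I.mix (nat_lit 100597760) (nat_lit 80314368)) (I.mix (nat_lit 141148160) (nat_lit 100581376)))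
  false (nat_lit 74254786)
def b1_11 : Bx := Bx.mk (St.mk (I.pos (nat_lit 147341312) (nat_lit 193544192)) (I.mix (nat_lit 5668864) (nat_lit 48545792)) (I.pos (nat_lit 4685824) (nat_lit 75169792)) (I.pos (nat_lit 231915520) (nat_lit 281313280)) (I.mix (nat_lit 139853824) (nat_lit 70270976)) (I.mix (nat_lit 139313152) (nat_lit 68960256)) (I.mix (nat_lit 135397376) (nat_lit 69091328)))
  false (nat_lit 25633984)
def t1 : BTr := (BTr.n (BTr.n (BTr.n (BTr.b b1_0) (BTr.n (BTr.b b1_1) (BTr.b b1_2))) (BTr.n (BTr.b b1_3) (BTr.n (BTr.b b1_4) (BTr.b b1_5)))) (BTr.n (BTr.n (BTr.b b1_6) (BTr.n (BTr.b b1_7) (BTr.b b1_8))) (BTr.n (BTr.b b1_9) (BTr.n (BTr.b b1_10) (BTr.b b1_11)))))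
namespace T1
def l0 : Tr := Tr.L (Pth.l (Pth.l (Pth.l Pth.z)))
def l1 : Tr := Tr.L (Pth.l (Pth.l (Pth.r (Pth.l Pth.z))))
def l2 : Tr := Tr.L (Pth.l (Pth.l (Pth.r (Pth.r Pth.z))))
def l3 : Tr := Tr.L (Pth.l (Pth.r (Pth.l Pth.z)))
def l4 : Tr := Tr.L (Pth.l (Pth.r (Pth.r (Pth.l Pth.z))))
def l5 : Tr := Tr.L (Pth.l (Pth.r (Pth.r (Pth.r Pth.z))))
def l6 : Tr := Tr.L (Pth.r (Pth.l (Pth.l Pth.z)))
def l7 : Tr := Tr.L (Pth.r (Pth.l (Pth.r (Pth.l Pth.z))))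
def l8 : Tr := Tr.L (Pth.r (Pth.l (Pth.r (Pth.r Pth.z))))
def l9 : Tr := Tr.L (Pth.r (Pth.r (Pth.l Pth.z)))
def l10 : Tr := Tr.L (Pth.r (Pth.r (Pth.r (Pth.l Pth.z))))
def l11 : Tr := Tr.L (Pth.r (Pth.r (Pth.r (Pth.r Pth.z))))
end T1
def b2_0 : Bx := Bx.mk (St.mk (I.pos (nat_lit 156336128) (nat_lit 235208704)) (I.mix (nat_lit 1425408) (nat_lit 48119808)) (I.mix (nat_lit 2818048) (nat_lit 102793216)) (I.pos (nat_lit 112328704) (nat_lit 229326848)) (I.mix (nat_lit 110673920) (nat_lit 67518464)) (I.mix (nat_lit 84361216) (nat_lit 72794112)) (I.mix (nat_lit 115441664) (nat_lit 94027776)))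
  false (nat_lit 24381655)
def b2_1 : Bx := Bx.mk (St.mk (I.pos (nat_lit 104611840) (nat_lit 178782208)) (I.neg (nat_lit 2392064) (nat_lit 58916864)) (I.mix (nat_lit 47906816) (nat_lit 5013504)) (I.pos (nat_lit 81870848) (nat_lit 153124864)) (I.mix (nat_lit 90554368) (nat_lit 45400064)) (I.mix (nat_lit 43974656) (nat_lit 62210048)) (I.mix (nat_lit 37748736) (nat_lit 51773440)))
  false (nat_lit 24816939)
def b2_2 : Bx := Bx.mk (St.mk (I.mix (nat_lit 28377088) (nat_lit 102989824)) (I.mix (nat_lit 31260672) (nat_lit 3031040)) (I.mix (nat_lit 14368768) (nat_lit 9011200)) (I.pos (nat_lit 14139392) (nat_lit 74727424)) (I.mix (nat_lit 37355520) (nat_lit 33521664)) (I.mix (nat_lit 24412160) (nat_lit 28524544)) (I.mix (nat_lit 13467648) (nat_lit 17481728)))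
  false (nat_lit 0)
def b2_3 : Bx := Bx.mk (St.mk (I.pos (nat_lit 166543360) (nat_lit 212664320)) (I.mix (nat_lit 14139392) (nat_lit 48676864)) (I.pos (nat_lit 13107200) (nat_lit 96894976)) (I.pos (nat_lit 122601472) (nat_lit 201654272)) (I.mix (nat_lit 134840320) (nat_lit 56475648)) (I.mix (nat_lit 118505472) (nat_lit 78692352)) (I.mix (nat_lit 139902976) (nat_lit 75251712)))
  false (nat_lit 25383273)
def b2_4 : Bx := Bx.mk (St.mk (I.mix (nat_lit 26181632) (nat_lit 124928000)) (I.mix (nat_lit 9420800) (nat_lit 40091648)) (I.mix (nat_lit 2031616) (nat_lit 37191680)) (I.pos (nat_lit 15482880) (nat_lit 91193344)) (I.mix (nat_lit 73564160) (nat_lit 39305216)) (I.mix (nat_lit 57786368) (nat_lit 42532864)) (I.mix (nat_lit 37781504) (nat_lit 25034752)))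
  false (nat_lit 0)
def b2_5 : Bx := Bx.mk (St.mk (I.pos (nat_lit 158400512) (nat_lit 209616896)) (I.mix (nat_lit 32129024) (nat_lit 11894784)) (I.mix (nat_lit 12943360) (nat_lit 46923776)) (I.pos (nat_lit 117407744) (nat_lit 192413696)) (I.mix (nat_lit 63356928) (nat_lit 65847296)) (I.mix (nat_lit 61784064) (nat_lit 63471616)) (I.mix (nat_lit 62537728) (nat_lit 65404928)))
  false (nat_lit 44036287)
def b2_6 : Bx := Bx.mk (St.mk (I.pos (nat_lit 155533312) (nat_lit 178307072)) (I.neg (nat_lit 13025280) (nat_lit 36192256)) (I.mix (nat_lit 21594112) (nat_lit 5767168)) (I.pos (nat_lit 116080640) (nat_lit 155435008)) (I.mix (nat_lit 27738112) (nat_lit 21577728)) (I.mix (nat_lit 14974976) (nat_lit 18874368)) (I.mix (nat_lit 14991360) (nat_lit 20119552)))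
  false (nat_lit 0)
def b2_7 : Bx := Bx.mk (St.mk (I.mix (nat_lit 28524544) (nat_lit 105185280)) (I.mix (nat_lit 15400960) (nat_lit 3309568)) (I.mix (nat_lit 4145152) (nat_lit 9322496)) (I.pos (nat_lit 15745024) (nat_lit 75530240)) (I.mix (nat_lit 8257536) (nat_lit 12566528)) (I.mix (nat_lit 5652480) (nat_lit 8585216)) (I.mix (nat_lit 3260416) (nat_lit 5521408)))
  false (nat_lit 0)
def b2_8 : Bx := Bx.mk (St.mk (I.mix (nat_lit 48119808) (nat_lit 133529600)) (I.mix (nat_lit 7847936) (nat_lit 34078720)) (I.mix (nat_lit 1327104) (nat_lit 37945344)) (I.pos (nat_lit 13205504) (nat_lit 101744640)) (I.mix (nat_lit 67420160) (nat_lit 43466752)) (I.mix (nat_lit 47562752) (nat_lit 34193408)) (I.mix (nat_lit 38977536) (nat_lit 28114944)))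
  false (nat_lit 0)
def b2_9 : Bx := Bx.mk (St.mk (I.pos (nat_lit 103858176) (nat_lit 161382400)) (I.mix (nat_lit 61407232) (nat_lit 9633792)) (I.mix (nat_lit 48676864) (nat_lit 16367616)) (I.pos (nat_lit 63635456) (nat_lit 130924544)) (I.mix (nat_lit 100925440) (nat_lit 41271296)) (I.mix (nat_lit 50987008) (nat_lit 83443712)) (I.mix (nat_lit 38436864) (nat_lit 61243392)))
  false (nat_lit 26055558)
def b2_10 : Bx := Bx.mk (St.mk (I.pos (nat_lit 187432960) (nat_lit 293044224)) (I.mix (nat_lit 22904832) (nat_lit 38617088)) (I.mix (nat_lit 26755072) (nat_lit 90865664)) (I.pos (nat_lit 176259072) (nat_lit 355581952)) (I.mix (nat_lit 79233024) (nat_lit 75120640)) (I.mix (nat_lit 68812800) (nat_lit 57212928)) (I.mix (nat_lit 117194752) (nat_lit 98123776)))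
  false (nat_lit 54747849)
def b2_11 : Bx := Bx.mk (St.mk (I.mix (nat_lit 24461312) (nat_lit 98910208)) (I.mix (nat_lit 28000256) (nat_lit 4898816)) (I.mix (nat_lit 11845632) (nat_lit 10256384)) (I.pos (nat_lit 16203776) (nat_lit 69484544)) (I.mix (nat_lit 35127296) (nat_lit 29655040)) (I.mix (nat_lit 23609344) (nat_lit 29491200)) (I.mix (nat_lit 11403264) (nat_lit 14385152)))
  false (nat_lit 0)
def b2_12 : Bx := Bx.mk (St.mk (I.pos (nat_lit 178765824) (nat_lit 232161280)) (I.pos (nat_lit 9764864) (nat_lit 47693824)) (I.pos (nat_lit 35389440) (nat_lit 102547456)) (I.pos (nat_lit 165281792) (nat_lit 223199232)) (I.mix (nat_lit 104218624) (nat_lit 77987840)) (I.mix (nat_lit 91455488) (nat_lit 73351168)) (I.mix (nat_lit 134955008) (nat_lit 95420416)))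
  false (nat_lit 24957277)
def b2_13 : Bx := Bx.mk (St.mk (I.pos (nat_lit 167952384) (nat_lit 212418560)) (I.mix (nat_lit 22298624) (nat_lit 25739264)) (I.pos (nat_lit 4554752) (nat_lit 66813952)) (I.pos (nat_lit 127336448) (nat_lit 196689920)) (I.mix (nat_lit 98254848) (nat_lit 58753024)) (I.mix (nat_lit 106905600) (nat_lit 60899328)) (I.mix (nat_lit 121208832) (nat_lit 60850176)))
  false (nat_lit 39097580)
def t2 : BTr := (BTr.n (BTr.n (BTr.n (BTr.b b2_0) (BTr.n (BTr.b b2_1) (BTr.b b2_2))) (BTr.n (BTr.n (BTr.b b2_3) (BTr.b b2_4)) (BTr.n (BTr.b b2_5) (BTr.b b2_6)))) (BTr.n (BTr.n (BTr.b b2_7) (BTr.n (BTr.b b2_8) (BTr.b b2_9))) (BTr.n (BTr.n (BTr.b b2_10) (BTr.b b2_11)) (BTr.n (BTr.b b2_12) (BTr.b b2_13)))))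
namespace T2
def l0 : Tr := Tr.L (Pth.l (Pth.l (Pth.l Pth.z)))
def l1 : Tr := Tr.L (Pth.l (Pth.l (Pth.r (Pth.l Pth.z))))
def l2 : Tr := Tr.L (Pth.l (Pth.l (Pth.r (Pth.r Pth.z))))
def l3 : Tr := Tr.L (Pth.l (Pth.r (Pth.l (Pth.l Pth.z))))
def l4 : Tr := Tr.L (Pth.l (Pth.r (Pth.l (Pth.r Pth.z))))
def l5 : Tr := Tr.L (Pth.l (Pth.r (Pth.r (Pth.l Pth.z))))
def l6 : Tr := Tr.L (Pth.l (Pth.r (Pth.r (Pth.r Pth.z))))
def l7 : Tr := Tr.L (Pth.r (Pth.l (Pth.l Pth.z)))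
def l8 : Tr := Tr.L (Pth.r (Pth.l (Pth.r (Pth.l Pth.z))))
def l9 : Tr := Tr.L (Pth.r (Pth.l (Pth.r (Pth.r Pth.z))))
def l10 : Tr := Tr.L (Pth.r (Pth.r (Pth.l (Pth.l Pth.z))))
def l11 : Tr := Tr.L (Pth.r (Pth.r (Pth.l (Pth.r Pth.z))))
def l12 : Tr := Tr.L (Pth.r (Pth.r (Pth.r (Pth.l Pth.z))))
def l13 : Tr := Tr.L (Pth.r (Pth.r (Pth.r (Pth.r Pth.z))))
end T2
theorem bx0_0 : BoxOK sI cl5 cl9 cl9 t1 t1 b0_0 :=
  box_mk (TrL.c (I.pos (nat_lit 0) (nat_lit 0)) (xa (xb T1.l0 (xa T1.l0 T1.l0)) (xb T1.l0 (xa T1.l0 T1.l0)))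
  (TrL.c (I.pos (nat_lit 0) (nat_lit 0)) T1.l1
  (TrL.c (I.pos (nat_lit 0) (nat_lit 0)) T1.l2
  (TrL.c (I.pos (nat_lit 0) (nat_lit 0)) T1.l3
  (TrL.c (I.pos (nat_lit 0) (nat_lit 0)) (xa T1.l4 (xb T1.l4 T1.l4))
  (TrL.c (I.pos (nat_lit 0) (nat_lit 0)) T1.l5
  (TrL.c (I.pos (nat_lit 0) (nat_lit 0)) T1.l6
  (TrL.c (I.pos (nat_lit 0) (nat_lit 0)) T1.l7
  TrL.n)))))))) (by decide +kernel)
theorem bx0_1 : BoxOK sI cl5 cl9 cl9 t1 t1 b0_1 :=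
  box_mk (TrL.c (I.pos (nat_lit 0) (nat_lit 0)) (xa (xa (xa (xb T1.l8 (xa T1.l8 T1.l8)) T1.l8) T1.l8) (xa T1.l8 (xa T1.l8 T1.l8)))
  (TrL.c (I.pos (nat_lit 0) (nat_lit 0)) (xa T1.l1 T1.l1)
  (TrL.c (I.pos (nat_lit 0) (nat_lit 0)) T1.l2
  (TrL.c (I.pos (nat_lit 0) (nat_lit 0)) T1.l3
  (TrL.c (I.pos (nat_lit 0) (nat_lit 0)) (xa T1.l9 T1.l9)
  (TrL.c (I.pos (nat_lit 0) (nat_lit 0)) T1.l5
  (TrL.c (I.pos (nat_lit 0) (nat_lit 0)) T1.l6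
  (TrL.c (I.pos (nat_lit 0) (nat_lit 0)) T1.l7
  TrL.n)))))))) (by decide +kernel)
theorem bx0_2 : BoxOK sI cl5 cl9 cl9 t1 t1 b0_2 :=
  box_mk (TrL.c (I.pos (nat_lit 0) (nat_lit 0)) (xb T1.l8 T1.l8)
  (TrL.c (I.pos (nat_lit 0) (nat_lit 0)) T1.l1
  (TrL.c (I.pos (nat_lit 0) (nat_lit 0)) T1.l2
  (TrL.c (I.pos (nat_lit 0) (nat_lit 0)) T1.l3
  (TrL.c (I.pos (nat_lit 0) (nat_lit 0)) T1.l9
  (TrL.c (I.pos (nat_lit 0) (nat_lit 0)) T1.l5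
  (TrL.c (I.pos (nat_lit 0) (nat_lit 0)) T1.l6
  (TrL.c (I.pos (nat_lit 0) (nat_lit 0)) T1.l7
  TrL.n)))))))) (by decide +kernel)
theorem bx0_3 : BoxOK sI cl5 cl9 cl9 t1 t1 b0_3 :=
  box_mk (TrL.c (I.pos (nat_lit 0) (nat_lit 0)) T1.l8
  (TrL.c (I.pos (nat_lit 0) (nat_lit 0)) T1.l1
  (TrL.c (I.pos (nat_lit 0) (nat_lit 0)) T1.l2
  (TrL.c (I.pos (nat_lit 0) (nat_lit 0)) T1.l3
  (TrL.c (I.pos (nat_lit 0) (nat_lit 0)) T1.l9
  (TrL.c (I.pos (nat_lit 0) (nat_lit 0)) T1.l5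
  (TrL.c (I.pos (nat_lit 0) (nat_lit 0)) T1.l6
  (TrL.c (I.pos (nat_lit 0) (nat_lit 0)) T1.l7
  TrL.n)))))))) (by decide +kernel)
theorem bx0_4 : BoxOK sI cl5 cl9 cl9 t1 t1 b0_4 :=
  box_mk (TrL.c (I.pos (nat_lit 0) (nat_lit 0)) (xa T1.l0 T1.l0)
  (TrL.c (I.pos (nat_lit 0) (nat_lit 0)) T1.l1
  (TrL.c (I.pos (nat_lit 0) (nat_lit 0)) T1.l2
  (TrL.c (I.pos (nat_lit 0) (nat_lit 0)) T1.l3
  (TrL.c (I.pos (nat_lit 0) (nat_lit 0)) (xa T1.l4 (xb T1.l4 T1.l4))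
  (TrL.c (I.pos (nat_lit 0) (nat_lit 0)) T1.l5
  (TrL.c (I.pos (nat_lit 0) (nat_lit 0)) T1.l6
  (TrL.c (I.pos (nat_lit 0) (nat_lit 0)) T1.l7
  TrL.n)))))))) (by decide +kernel)
theorem bx0_5 : BoxOK sI cl5 cl9 cl9 t1 t1 b0_5 :=
  box_mk (TrL.c (I.pos (nat_lit 0) (nat_lit 0)) T1.l8
  (TrL.c (I.pos (nat_lit 0) (nat_lit 0)) T1.l1
  (TrL.c (I.pos (nat_lit 0) (nat_lit 0)) T1.l2
  (TrL.c (I.pos (nat_lit 0) (nat_lit 0)) T1.l3
  (TrL.c (I.pos (nat_lit 0) (nat_lit 0)) T1.l9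
  (TrL.c (I.pos (nat_lit 0) (nat_lit 0)) T1.l5
  (TrL.c (I.pos (nat_lit 0) (nat_lit 0)) T1.l6
  (TrL.c (I.pos (nat_lit 0) (nat_lit 0)) T1.l7
  TrL.n)))))))) (by decide +kernel)
theorem bx0_6 : BoxOK sI cl5 cl9 cl9 t1 t1 b0_6 :=
  box_mk (TrL.c (I.pos (nat_lit 0) (nat_lit 0)) (xa (xb T1.l8 T1.l8) (xb T1.l0 T1.l8))
  (TrL.c (I.pos (nat_lit 0) (nat_lit 0)) T1.l1
  (TrL.c (I.pos (nat_lit 0) (nat_lit 0)) T1.l2
  (TrL.c (I.pos (nat_lit 0) (nat_lit 0)) T1.l3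
  (TrL.c (I.pos (nat_lit 0) (nat_lit 0)) (xa T1.l9 T1.l9)
  (TrL.c (I.pos (nat_lit 0) (nat_lit 0)) T1.l5
  (TrL.c (I.pos (nat_lit 0) (nat_lit 0)) T1.l6
  (TrL.c (I.pos (nat_lit 0) (nat_lit 0)) T1.l7
  TrL.n)))))))) (by decide +kernel)
theorem bx0_7 : BoxOK sI cl5 cl9 cl9 t1 t1 b0_7 :=
  box_mk (TrL.c (I.pos (nat_lit 0) (nat_lit 0)) (xa (xa (xb (xa (xb T1.l8 T1.l8) T1.l8) T1.l8) T1.l8) T1.l8)
  (TrL.c (I.pos (nat_lit 0) (nat_lit 0)) T1.l1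
  (TrL.c (I.pos (nat_lit 0) (nat_lit 0)) T1.l2
  (TrL.c (I.pos (nat_lit 0) (nat_lit 0)) T1.l3
  (TrL.c (I.pos (nat_lit 0) (nat_lit 0)) (xa T1.l9 T1.l9)
  (TrL.c (I.pos (nat_lit 0) (nat_lit 0)) T1.l5
  (TrL.c (I.pos (nat_lit 0) (nat_lit 0)) T1.l6
  (TrL.c (I.pos (nat_lit 0) (nat_lit 0)) T1.l7
  TrL.n)))))))) (by decide +kernel)
theorem bx0_8 : BoxOK sI cl5 cl9 cl9 t1 t1 b0_8 :=
  box_mk (TrL.c (I.pos (nat_lit 0) (nat_lit 0)) (xb (xa T1.l10 T1.l10) (xa (xb T1.l10 T1.l10) T1.l10))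
  (TrL.c (I.pos (nat_lit 0) (nat_lit 0)) T1.l1
  (TrL.c (I.pos (nat_lit 0) (nat_lit 0)) T1.l2
  (TrL.c (I.pos (nat_lit 0) (nat_lit 0)) T1.l3
  (TrL.c (I.pos (nat_lit 0) (nat_lit 0)) (xb T1.l11 T1.l11)
  (TrL.c (I.pos (nat_lit 0) (nat_lit 0)) T1.l5
  (TrL.c (I.pos (nat_lit 0) (nat_lit 0)) T1.l6
  (TrL.c (I.pos (nat_lit 0) (nat_lit 0)) T1.l7
  TrL.n)))))))) (by decide +kernel)
theorem bx0_9 : BoxOK sI cl5 cl9 cl9 t1 t1 b0_9 :=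
  box_mk (TrL.c (I.pos (nat_lit 0) (nat_lit 0)) (xa (xa (xb (xa (xb T1.l8 T1.l8) T1.l8) (xa (xb T1.l8 T1.l8) T1.l8)) (xb T1.l8 T1.l8)) (xa T1.l8 (xb T1.l8 (xa T1.l8 T1.l8))))
  (TrL.c (I.pos (nat_lit 0) (nat_lit 0)) (xa T1.l1 T1.l1)
  (TrL.c (I.pos (nat_lit 0) (nat_lit 0)) T1.l2
  (TrL.c (I.pos (nat_lit 0) (nat_lit 0)) T1.l3
  (TrL.c (I.pos (nat_lit 0) (nat_lit 0)) (xa T1.l9 T1.l9)
  (TrL.c (I.pos (nat_lit 0) (nat_lit 0)) T1.l5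
  (TrL.c (I.pos (nat_lit 0) (nat_lit 0)) T1.l6
  (TrL.c (I.pos (nat_lit 0) (nat_lit 0)) T1.l7
  TrL.n)))))))) (by decide +kernel)
theorem bx0_10 : BoxOK sI cl5 cl9 cl9 t1 t1 b0_10 :=
  box_mk (TrL.c (I.pos (nat_lit 0) (nat_lit 0)) (xa (xb T1.l0 T1.l8) T1.l10)
  (TrL.c (I.pos (nat_lit 0) (nat_lit 0)) T1.l1
  (TrL.c (I.pos (nat_lit 0) (nat_lit 0)) T1.l2
  (TrL.c (I.pos (nat_lit 0) (nat_lit 0)) T1.l3
  (TrL.c (I.pos (nat_lit 0) (nat_lit 0)) (xa T1.l9 T1.l0)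
  (TrL.c (I.pos (nat_lit 0) (nat_lit 0)) T1.l5
  (TrL.c (I.pos (nat_lit 0) (nat_lit 0)) T1.l6
  (TrL.c (I.pos (nat_lit 0) (nat_lit 0)) T1.l7
  TrL.n)))))))) (by decide +kernel)
theorem bx0_11 : BoxOK sI cl5 cl9 cl9 t1 t1 b0_11 :=
  box_mk (TrL.c (I.pos (nat_lit 0) (nat_lit 0)) (xb T1.l10 T1.l10)
  (TrL.c (I.pos (nat_lit 0) (nat_lit 0)) T1.l1
  (TrL.c (I.pos (nat_lit 0) (nat_lit 0)) T1.l2
  (TrL.c (I.pos (nat_lit 0) (nat_lit 0)) T1.l3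
  (TrL.c (I.pos (nat_lit 0) (nat_lit 0)) T1.l11
  (TrL.c (I.pos (nat_lit 0) (nat_lit 0)) T1.l5
  (TrL.c (I.pos (nat_lit 0) (nat_lit 0)) T1.l6
  (TrL.c (I.pos (nat_lit 0) (nat_lit 0)) T1.l7
  TrL.n)))))))) (by decide +kernel)
theorem bx0_12 : BoxOK sI cl5 cl9 cl9 t1 t1 b0_12 :=
  box_mk (TrL.c (I.pos (nat_lit 0) (nat_lit 0)) T1.l8
  (TrL.c (I.pos (nat_lit 0) (nat_lit 0)) T1.l1
  (TrL.c (I.pos (nat_lit 0) (nat_lit 0)) T1.l2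
  (TrL.c (I.pos (nat_lit 0) (nat_lit 0)) T1.l3
  (TrL.c (I.pos (nat_lit 0) (nat_lit 0)) T1.l9
  (TrL.c (I.pos (nat_lit 0) (nat_lit 0)) T1.l5
  (TrL.c (I.pos (nat_lit 0) (nat_lit 0)) T1.l6
  (TrL.c (I.pos (nat_lit 0) (nat_lit 0)) T1.l7
  TrL.n)))))))) (by decide +kernel)
theorem bx0_13 : BoxOK sI cl5 cl9 cl9 t1 t1 b0_13 :=
  box_mk (TrL.c (I.pos (nat_lit 0) (nat_lit 0)) (xa (xb T1.l0 T1.l10) (xb T1.l0 T1.l0))
  (TrL.c (I.pos (nat_lit 0) (nat_lit 0)) T1.l1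
  (TrL.c (I.pos (nat_lit 0) (nat_lit 0)) T1.l2
  (TrL.c (I.pos (nat_lit 0) (nat_lit 0)) T1.l3
  (TrL.c (I.pos (nat_lit 0) (nat_lit 0)) (xa T1.l4 T1.l4)
  (TrL.c (I.pos (nat_lit 0) (nat_lit 0)) T1.l5
  (TrL.c (I.pos (nat_lit 0) (nat_lit 0)) T1.l6
  (TrL.c (I.pos (nat_lit 0) (nat_lit 0)) T1.l7
  TrL.n)))))))) (by decide +kernel)
theorem sv0 : StarV sI cl5 cl9 cl9 t1 t1 t0 :=
  (bt_n (bt_n (bt_n (bt_b bx0_0) (bt_n (bt_b bx0_1) (bt_b bx0_2))) (bt_n (bt_n (bt_b bx0_3) (bt_b bx0_4)) (bt_n (bt_b bx0_5) (bt_b bx0_6)))) (bt_n (bt_n (bt_b bx0_7) (bt_n (bt_b bx0_8) (bt_b bx0_9))) (bt_n (bt_n (bt_b bx0_10) (bt_b bx0_11)) (bt_n (bt_b bx0_12) (bt_b bx0_13)))))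
def S0 : StarD := StarD.mk cl5 cl9 cl9 1 1 t0
theorem bx1_0 : BoxOK sI cl9 cl5 cl9 t0 t2 b1_0 :=
  box_mk (TrL.c (I.pos (nat_lit 0) (nat_lit 0)) (xa (xb T0.l0 (xa T0.l0 T0.l0)) (xb T0.l0 T0.l0))
  (TrL.c (I.pos (nat_lit 0) (nat_lit 0)) T2.l1
  (TrL.c (I.pos (nat_lit 0) (nat_lit 124588530)) T0.l1
  (TrL.c (I.pos (nat_lit 0) (nat_lit 96881482)) T2.l2
  (TrL.c (I.pos (nat_lit 0) (nat_lit 0)) (xa (xb T2.l3 T2.l3) (xb T2.l3 (xk T2.l3 T2.l3)))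
  (TrL.c (I.pos (nat_lit 0) (nat_lit 0)) T0.l2
  (TrL.c (I.mix (nat_lit 17240550) (nat_lit 96881482)) T2.l4
  (TrL.c (I.mix (nat_lit 17240550) (nat_lit 71940500)) T0.l7
  TrL.n)))))))) (by decide +kernel)
theorem bx1_1 : BoxOK sI cl9 cl5 cl9 t0 t2 b1_1 :=
  box_mk (TrL.c (I.pos (nat_lit 0) (nat_lit 0)) (xa (xb T0.l4 T0.l4) T0.l4)
  (TrL.c (I.pos (nat_lit 0) (nat_lit 0)) T2.l1
  (TrL.c (I.pos (nat_lit 0) (nat_lit 124588530)) T0.l1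
  (TrL.c (I.pos (nat_lit 0) (nat_lit 96881482)) T2.l2
  (TrL.c (I.pos (nat_lit 0) (nat_lit 0)) (xa T2.l5 T2.l5)
  (TrL.c (I.pos (nat_lit 0) (nat_lit 0)) T0.l2
  (TrL.c (I.mix (nat_lit 17240550) (nat_lit 96881482)) T2.l4
  (TrL.c (I.mix (nat_lit 17240550) (nat_lit 71940500)) T0.l7
  TrL.n)))))))) (by decide +kernel)
theorem bx1_2 : BoxOK sI cl9 cl5 cl9 t0 t2 b1_2 :=
  box_mk (TrL.c (I.pos (nat_lit 0) (nat_lit 0)) (xb T0.l4 T0.l4)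
  (TrL.c (I.pos (nat_lit 0) (nat_lit 0)) T2.l1
  (TrL.c (I.pos (nat_lit 0) (nat_lit 124588530)) T0.l1
  (TrL.c (I.pos (nat_lit 0) (nat_lit 96881482)) T2.l2
  (TrL.c (I.pos (nat_lit 0) (nat_lit 0)) T2.l5
  (TrL.c (I.pos (nat_lit 0) (nat_lit 0)) T0.l2
  (TrL.c (I.mix (nat_lit 17240550) (nat_lit 96881482)) T2.l4
  (TrL.c (I.mix (nat_lit 17240550) (nat_lit 71940500)) T0.l3
  TrL.n)))))))) (by decide +kernel)
theorem bx1_3 : BoxOK sI cl9 cl5 cl9 t0 t2 b1_3 :=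
  box_mk (TrL.c (I.pos (nat_lit 0) (nat_lit 0)) T2.l6
  (TrL.c (I.pos (nat_lit 0) (nat_lit 0)) T0.l1
  (TrL.c (I.mix (nat_lit 17240550) (nat_lit 96881482)) T2.l2
  (TrL.c (I.mix (nat_lit 17240550) (nat_lit 71940500)) T0.l1
  TrL.n)))) (by decide +kernel)
theorem bx1_4 : BoxOK sI cl9 cl5 cl9 t0 t2 b1_4 :=
  box_mk (TrL.c (I.pos (nat_lit 0) (nat_lit 0)) (xb T0.l13 (xa T0.l13 T0.l13))
  (TrL.c (I.pos (nat_lit 0) (nat_lit 0)) T2.l1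
  (TrL.c (I.pos (nat_lit 0) (nat_lit 124588530)) T0.l1
  (TrL.c (I.pos (nat_lit 0) (nat_lit 96881482)) T2.l2
  (TrL.c (I.pos (nat_lit 0) (nat_lit 0)) (xk T2.l3 T2.l3)
  (TrL.c (I.pos (nat_lit 0) (nat_lit 0)) T0.l2
  (TrL.c (I.mix (nat_lit 17240550) (nat_lit 96881482)) T2.l4
  (TrL.c (I.mix (nat_lit 17240550) (nat_lit 71940500)) T0.l7
  TrL.n)))))))) (by decide +kernel)
theorem bx1_5 : BoxOK sI cl9 cl5 cl9 t0 t2 b1_5 :=
  box_mk (TrL.c (I.pos (nat_lit 0) (nat_lit 0)) (xb T0.l4 T0.l4)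
  (TrL.c (I.pos (nat_lit 0) (nat_lit 0)) T2.l1
  (TrL.c (I.pos (nat_lit 0) (nat_lit 124588530)) T0.l1
  (TrL.c (I.pos (nat_lit 0) (nat_lit 96881482)) T2.l2
  (TrL.c (I.pos (nat_lit 0) (nat_lit 0)) T2.l5
  (TrL.c (I.pos (nat_lit 0) (nat_lit 0)) T0.l2
  (TrL.c (I.mix (nat_lit 17240550) (nat_lit 96881482)) T2.l4
  (TrL.c (I.mix (nat_lit 17240550) (nat_lit 71940500)) T0.l7
  TrL.n)))))))) (by decide +kernel)
theorem bx1_6 : BoxOK sI cl9 cl5 cl9 t0 t2 b1_6 :=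
  box_mk (TrL.c (I.pos (nat_lit 0) (nat_lit 0)) (xb T0.l4 T0.l4)
  (TrL.c (I.pos (nat_lit 0) (nat_lit 0)) T2.l6
  (TrL.c (I.pos (nat_lit 0) (nat_lit 124588530)) T0.l1
  (TrL.c (I.pos (nat_lit 0) (nat_lit 96881482)) T2.l2
  (TrL.c (I.pos (nat_lit 0) (nat_lit 0)) T2.l5
  (TrL.c (I.pos (nat_lit 0) (nat_lit 0)) T0.l2
  (TrL.c (I.mix (nat_lit 17240550) (nat_lit 96881482)) T2.l4
  (TrL.c (I.mix (nat_lit 17240550) (nat_lit 71940500)) T0.l7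
  TrL.n)))))))) (by decide +kernel)
theorem bx1_7 : BoxOK sI cl9 cl5 cl9 t0 t2 b1_7 :=
  box_mk (TrL.c (I.pos (nat_lit 0) (nat_lit 0)) T2.l1
  (TrL.c (I.pos (nat_lit 0) (nat_lit 0)) T0.l1
  (TrL.c (I.mix (nat_lit 17240550) (nat_lit 96881482)) T2.l2
  (TrL.c (I.mix (nat_lit 17240550) (nat_lit 71940500)) T0.l1
  TrL.n)))) (by decide +kernel)
theorem bx1_8 : BoxOK sI cl9 cl5 cl9 t0 t2 b1_8 :=
  box_mk (TrL.c (I.pos (nat_lit 0) (nat_lit 0)) (xa (xb T0.l0 T0.l0) (xb T0.l0 (xa T0.l0 T0.l0)))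
  (TrL.c (I.pos (nat_lit 0) (nat_lit 0)) T2.l9
  (TrL.c (I.pos (nat_lit 0) (nat_lit 124588530)) T0.l1
  (TrL.c (I.pos (nat_lit 0) (nat_lit 96881482)) T2.l2
  (TrL.c (I.pos (nat_lit 0) (nat_lit 0)) (xa (xb (xk (xa T2.l3 T2.l3) (xa T2.l3 T2.l3)) (xk T2.l3 T2.l3)) (xb (xk (xa (xb T2.l3 T2.l3) (xb (xk T2.l3 T2.l3) (xk T2.l3 T2.l3))) (xa (xb T2.l3 T2.l3) (xb (xk T2.l3 T2.l3) T2.l3))) (xk (xa (xb T2.l3 T2.l3) (xb (xk T2.l3 T2.l3) (xk T2.l3 T2.l3))) (xa T2.l3 (xb (xk T2.l3 T2.l3) (xk T2.l3 T2.l3))))))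
  (TrL.c (I.pos (nat_lit 0) (nat_lit 0)) T0.l2
  (TrL.c (I.mix (nat_lit 17240550) (nat_lit 96881482)) T2.l4
  (TrL.c (I.mix (nat_lit 17240550) (nat_lit 71940500)) T0.l7
  TrL.n)))))))) (by decide +kernel)
theorem bx1_9 : BoxOK sI cl9 cl5 cl9 t0 t2 b1_9 :=
  box_mk (TrL.c (I.pos (nat_lit 0) (nat_lit 0)) (xb T0.l0 T0.l13)
  (TrL.c (I.pos (nat_lit 0) (nat_lit 0)) T2.l1
  (TrL.c (I.pos (nat_lit 0) (nat_lit 124588530)) T0.l1
  (TrL.c (I.pos (nat_lit 0) (nat_lit 96881482)) T2.l2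
  (TrL.c (I.pos (nat_lit 0) (nat_lit 0)) (xb (xa T2.l13 T2.l13) (xa T2.l13 T2.l13))
  (TrL.c (I.pos (nat_lit 0) (nat_lit 0)) T0.l2
  (TrL.c (I.mix (nat_lit 17240550) (nat_lit 96881482)) T2.l4
  (TrL.c (I.mix (nat_lit 17240550) (nat_lit 71940500)) T0.l7
  TrL.n)))))))) (by decide +kernel)
theorem bx1_10 : BoxOK sI cl9 cl5 cl9 t0 t2 b1_10 :=
  box_mk (TrL.c (I.pos (nat_lit 0) (nat_lit 0)) (xa T0.l0 T0.l0)
  (TrL.c (I.pos (nat_lit 0) (nat_lit 0)) T2.l1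
  (TrL.c (I.pos (nat_lit 0) (nat_lit 124588530)) T0.l1
  (TrL.c (I.pos (nat_lit 0) (nat_lit 96881482)) T2.l2
  (TrL.c (I.pos (nat_lit 0) (nat_lit 0)) (xk (xa T2.l3 (xb T2.l3 (xb T2.l3 (xs T2.l3 T2.l3)))) (xa (xb T2.l3 T2.l3) (xb T2.l3 (xs T2.l3 (xb T2.l3 (xa T2.l3 (xk T2.l0 T2.l0)))))))
  (TrL.c (I.pos (nat_lit 0) (nat_lit 0)) T0.l2
  (TrL.c (I.mix (nat_lit 17240550) (nat_lit 96881482)) T2.l4
  (TrL.c (I.mix (nat_lit 17240550) (nat_lit 71940500)) T0.l7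
  TrL.n)))))))) (by decide +kernel)
theorem bx1_11 : BoxOK sI cl9 cl5 cl9 t0 t2 b1_11 :=
  box_mk (TrL.c (I.pos (nat_lit 0) (nat_lit 0)) (xb T0.l13 T0.l13)
  (TrL.c (I.pos (nat_lit 0) (nat_lit 0)) T2.l1
  (TrL.c (I.pos (nat_lit 0) (nat_lit 124588530)) T0.l1
  (TrL.c (I.pos (nat_lit 0) (nat_lit 96881482)) T2.l2
  (TrL.c (I.pos (nat_lit 0) (nat_lit 0)) (xk (xb T2.l3 (xb T2.l3 T2.l3)) (xb T2.l3 (xb T2.l3 (xa T2.l3 T2.l3))))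
  (TrL.c (I.pos (nat_lit 0) (nat_lit 0)) T0.l2
  (TrL.c (I.mix (nat_lit 17240550) (nat_lit 96881482)) T2.l4
  (TrL.c (I.mix (nat_lit 17240550) (nat_lit 71940500)) T0.l7
  TrL.n)))))))) (by decide +kernel)
theorem sv1 : StarV sI cl9 cl5 cl9 t0 t2 t1 :=
  (bt_n (bt_n (bt_n (bt_b bx1_0) (bt_n (bt_b bx1_1) (bt_b bx1_2))) (bt_n (bt_b bx1_3) (bt_n (bt_b bx1_4) (bt_b bx1_5)))) (bt_n (bt_n (bt_b bx1_6) (bt_n (bt_b bx1_7) (bt_b bx1_8))) (bt_n (bt_b bx1_9) (bt_n (bt_b bx1_10) (bt_b bx1_11)))))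
def S1 : StarD := StarD.mk cl9 cl5 cl9 0 2 t1
theorem bx2_0 : BoxOK sI cl9 cl9 cl5 t2 t0 b2_0 :=
  box_mk (TrL.c (I.pos (nat_lit 0) (nat_lit 0)) (xa (xa (xb T2.l0 T2.l0) (xb T2.l0 T2.l0)) (xa (xb T2.l0 T2.l0) (xb T2.l0 T2.l0)))
  (TrL.c (I.pos (nat_lit 0) (nat_lit 0)) T0.l6
  (TrL.c (I.pos (nat_lit 0) (nat_lit 124588530)) T2.l8
  (TrL.c (I.pos (nat_lit 0) (nat_lit 96881482)) T0.l7
  (TrL.c (I.pos (nat_lit 0) (nat_lit 0)) (xa (xb T0.l11 T0.l11) (xk (xb T0.l11 (xb T0.l8 (xa T0.l8 T0.l8))) (xb T0.l11 (xb T0.l8 (xa T0.l8 (xs T0.l8 T0.l8))))))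
  (TrL.c (I.pos (nat_lit 0) (nat_lit 0)) T2.l9
  (TrL.c (I.mix (nat_lit 17240550) (nat_lit 96881482)) T0.l9
  (TrL.c (I.mix (nat_lit 17240550) (nat_lit 71940500)) T2.l11
  TrL.n)))))))) (by decide +kernel)
theorem bx2_1 : BoxOK sI cl9 cl9 cl5 t2 t0 b2_1 :=
  box_mk (TrL.c (I.pos (nat_lit 0) (nat_lit 0)) (xa (xb T2.l10 T2.l10) (xb T2.l10 T2.l10))
  (TrL.c (I.pos (nat_lit 0) (nat_lit 0)) T0.l6
  (TrL.c (I.pos (nat_lit 0) (nat_lit 124588530)) T2.l8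
  (TrL.c (I.pos (nat_lit 0) (nat_lit 96881482)) T0.l7
  (TrL.c (I.pos (nat_lit 0) (nat_lit 0)) (xa T0.l10 (xk T0.l10 T0.l10))
  (TrL.c (I.pos (nat_lit 0) (nat_lit 0)) T2.l9
  (TrL.c (I.mix (nat_lit 17240550) (nat_lit 96881482)) T0.l9
  (TrL.c (I.mix (nat_lit 17240550) (nat_lit 71940500)) T2.l11
  TrL.n)))))))) (by decide +kernel)
theorem bx2_2 : BoxOK sI cl9 cl9 cl5 t2 t0 b2_2 :=
  box_mk (TrL.c (I.pos (nat_lit 0) (nat_lit 0)) (xa (xa (xb T2.l10 T2.l10) T2.l10) T2.l10)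
  (TrL.c (I.pos (nat_lit 0) (nat_lit 0)) T0.l6
  (TrL.c (I.pos (nat_lit 0) (nat_lit 124588530)) T2.l8
  (TrL.c (I.pos (nat_lit 0) (nat_lit 96881482)) T0.l7
  (TrL.c (I.pos (nat_lit 0) (nat_lit 0)) (xa T0.l10 T0.l10)
  (TrL.c (I.pos (nat_lit 0) (nat_lit 0)) T2.l9
  (TrL.c (I.mix (nat_lit 17240550) (nat_lit 96881482)) T0.l9
  (TrL.c (I.mix (nat_lit 17240550) (nat_lit 71940500)) T2.l11
  TrL.n)))))))) (by decide +kernel)
theorem bx2_3 : BoxOK sI cl9 cl9 cl5 t2 t0 b2_3 :=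
  box_mk (TrL.c (I.pos (nat_lit 0) (nat_lit 0)) (xb (xa T2.l12 (xb T2.l0 T2.l12)) (xa (xb T2.l12 T2.l12) T2.l12))
  (TrL.c (I.pos (nat_lit 0) (nat_lit 0)) T0.l6
  (TrL.c (I.pos (nat_lit 0) (nat_lit 124588530)) T2.l8
  (TrL.c (I.pos (nat_lit 0) (nat_lit 96881482)) T0.l7
  (TrL.c (I.pos (nat_lit 0) (nat_lit 0)) (xb T0.l11 (xb T0.l8 (xk (xa T0.l8 T0.l8) (xa T0.l11 (xs T0.l8 (xb T0.l8 T0.l8))))))
  (TrL.c (I.pos (nat_lit 0) (nat_lit 0)) T2.l9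
  (TrL.c (I.mix (nat_lit 17240550) (nat_lit 96881482)) T0.l9
  (TrL.c (I.mix (nat_lit 17240550) (nat_lit 71940500)) T2.l11
  TrL.n)))))))) (by decide +kernel)
theorem bx2_4 : BoxOK sI cl9 cl9 cl5 t2 t0 b2_4 :=
  box_mk (TrL.c (I.pos (nat_lit 0) (nat_lit 0)) (xa (xa (xb (xa T2.l10 T2.l10) (xa (xb T2.l10 T2.l10) T2.l10)) (xb T2.l10 T2.l10)) (xa (xb T2.l10 (xa T2.l10 T2.l10)) (xb T2.l10 (xa T2.l10 T2.l10))))
  (TrL.c (I.pos (nat_lit 0) (nat_lit 0)) (xa T0.l6 T0.l6)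
  (TrL.c (I.pos (nat_lit 0) (nat_lit 124588530)) T2.l8
  (TrL.c (I.pos (nat_lit 0) (nat_lit 96881482)) T0.l7
  (TrL.c (I.pos (nat_lit 0) (nat_lit 0)) (xa T0.l10 T0.l10)
  (TrL.c (I.pos (nat_lit 0) (nat_lit 0)) T2.l9
  (TrL.c (I.mix (nat_lit 17240550) (nat_lit 96881482)) T0.l9
  (TrL.c (I.mix (nat_lit 17240550) (nat_lit 71940500)) T2.l11
  TrL.n)))))))) (by decide +kernel)
theorem bx2_5 : BoxOK sI cl9 cl9 cl5 t2 t0 b2_5 :=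
  box_mk (TrL.c (I.pos (nat_lit 0) (nat_lit 0)) T2.l0
  (TrL.c (I.pos (nat_lit 0) (nat_lit 0)) T0.l6
  (TrL.c (I.pos (nat_lit 0) (nat_lit 124588530)) T2.l8
  (TrL.c (I.pos (nat_lit 0) (nat_lit 96881482)) T0.l7
  (TrL.c (I.pos (nat_lit 0) (nat_lit 0)) (xk T0.l11 T0.l11)
  (TrL.c (I.pos (nat_lit 0) (nat_lit 0)) T2.l9
  (TrL.c (I.mix (nat_lit 17240550) (nat_lit 96881482)) T0.l9
  (TrL.c (I.mix (nat_lit 17240550) (nat_lit 71940500)) T2.l11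
  TrL.n)))))))) (by decide +kernel)
theorem bx2_6 : BoxOK sI cl9 cl9 cl5 t2 t0 b2_6 :=
  box_mk (TrL.c (I.pos (nat_lit 0) (nat_lit 0)) T2.l10
  (TrL.c (I.pos (nat_lit 0) (nat_lit 0)) T0.l6
  (TrL.c (I.pos (nat_lit 0) (nat_lit 124588530)) T2.l8
  (TrL.c (I.pos (nat_lit 0) (nat_lit 96881482)) T0.l7
  (TrL.c (I.pos (nat_lit 0) (nat_lit 0)) T0.l10
  (TrL.c (I.pos (nat_lit 0) (nat_lit 0)) T2.l9
  (TrL.c (I.mix (nat_lit 17240550) (nat_lit 96881482)) T0.l9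
  (TrL.c (I.mix (nat_lit 17240550) (nat_lit 71940500)) T2.l11
  TrL.n)))))))) (by decide +kernel)
theorem bx2_7 : BoxOK sI cl9 cl9 cl5 t2 t0 b2_7 :=
  box_mk (TrL.c (I.pos (nat_lit 0) (nat_lit 0)) (xa T2.l10 T2.l10)
  (TrL.c (I.pos (nat_lit 0) (nat_lit 0)) T0.l6
  (TrL.c (I.pos (nat_lit 0) (nat_lit 124588530)) T2.l8
  (TrL.c (I.pos (nat_lit 0) (nat_lit 96881482)) T0.l7
  (TrL.c (I.pos (nat_lit 0) (nat_lit 0)) (xa T0.l10 T0.l10)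
  (TrL.c (I.pos (nat_lit 0) (nat_lit 0)) T2.l9
  (TrL.c (I.mix (nat_lit 17240550) (nat_lit 96881482)) T0.l9
  (TrL.c (I.mix (nat_lit 17240550) (nat_lit 71940500)) T2.l11
  TrL.n)))))))) (by decide +kernel)
theorem bx2_8 : BoxOK sI cl9 cl9 cl5 t2 t0 b2_8 :=
  box_mk (TrL.c (I.pos (nat_lit 0) (nat_lit 0)) (xa (xa (xb (xa T2.l10 T2.l10) (xa (xa T2.l10 T2.l10) T2.l10)) T2.l10) (xa (xa T2.l10 T2.l10) (xa T2.l10 T2.l10)))
  (TrL.c (I.pos (nat_lit 0) (nat_lit 0)) (xa T0.l6 T0.l6)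
  (TrL.c (I.pos (nat_lit 0) (nat_lit 124588530)) T2.l8
  (TrL.c (I.pos (nat_lit 0) (nat_lit 96881482)) T0.l7
  (TrL.c (I.pos (nat_lit 0) (nat_lit 0)) (xa T0.l10 T0.l10)
  (TrL.c (I.pos (nat_lit 0) (nat_lit 0)) T2.l9
  (TrL.c (I.mix (nat_lit 17240550) (nat_lit 96881482)) T0.l9
  (TrL.c (I.mix (nat_lit 17240550) (nat_lit 71940500)) T2.l11
  TrL.n)))))))) (by decide +kernel)
theorem bx2_9 : BoxOK sI cl9 cl9 cl5 t2 t0 b2_9 :=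
  box_mk (TrL.c (I.pos (nat_lit 0) (nat_lit 0)) (xb (xa T2.l10 T2.l10) (xa T2.l10 T2.l10))
  (TrL.c (I.pos (nat_lit 0) (nat_lit 0)) T0.l6
  (TrL.c (I.pos (nat_lit 0) (nat_lit 124588530)) T2.l8
  (TrL.c (I.pos (nat_lit 0) (nat_lit 96881482)) T0.l7
  (TrL.c (I.pos (nat_lit 0) (nat_lit 0)) (xb (xa T0.l10 T0.l10) T0.l10)
  (TrL.c (I.pos (nat_lit 0) (nat_lit 0)) T2.l9
  (TrL.c (I.mix (nat_lit 17240550) (nat_lit 96881482)) T0.l9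
  (TrL.c (I.mix (nat_lit 17240550) (nat_lit 71940500)) T2.l11
  TrL.n)))))))) (by decide +kernel)
theorem bx2_10 : BoxOK sI cl9 cl9 cl5 t2 t0 b2_10 :=
  box_mk (TrL.c (I.pos (nat_lit 0) (nat_lit 0)) (xa (xa (xb T2.l0 T2.l0) (xb T2.l0 T2.l0)) (xa (xb T2.l0 T2.l0) (xb T2.l0 T2.l0)))
  (TrL.c (I.pos (nat_lit 0) (nat_lit 0)) T0.l6
  (TrL.c (I.pos (nat_lit 0) (nat_lit 124588530)) T2.l8
  (TrL.c (I.pos (nat_lit 0) (nat_lit 96881482)) T0.l7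
  (TrL.c (I.pos (nat_lit 0) (nat_lit 0)) (xa (xb (xk T0.l8 T0.l8) (xk T0.l8 T0.l8)) (xb (xk (xa T0.l8 (xb T0.l8 T0.l8)) (xa T0.l8 (xb T0.l8 T0.l8))) (xk (xa T0.l8 (xk T0.l8 T0.l8)) (xa T0.l8 (xk T0.l8 T0.l8)))))
  (TrL.c (I.pos (nat_lit 0) (nat_lit 0)) T2.l9
  (TrL.c (I.mix (nat_lit 17240550) (nat_lit 96881482)) T0.l9
  (TrL.c (I.mix (nat_lit 17240550) (nat_lit 71940500)) T2.l11
  TrL.n)))))))) (by decide +kernel)
theorem bx2_11 : BoxOK sI cl9 cl9 cl5 t2 t0 b2_11 :=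
  box_mk (TrL.c (I.pos (nat_lit 0) (nat_lit 0)) (xa T2.l10 T2.l10)
  (TrL.c (I.pos (nat_lit 0) (nat_lit 0)) T0.l6
  (TrL.c (I.pos (nat_lit 0) (nat_lit 124588530)) T2.l8
  (TrL.c (I.pos (nat_lit 0) (nat_lit 96881482)) T0.l7
  (TrL.c (I.pos (nat_lit 0) (nat_lit 0)) (xa T0.l10 T0.l10)
  (TrL.c (I.pos (nat_lit 0) (nat_lit 0)) T2.l9
  (TrL.c (I.mix (nat_lit 17240550) (nat_lit 96881482)) T0.l9
  (TrL.c (I.mix (nat_lit 17240550) (nat_lit 71940500)) T2.l11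
  TrL.n)))))))) (by decide +kernel)
theorem bx2_12 : BoxOK sI cl9 cl9 cl5 t2 t0 b2_12 :=
  box_mk (TrL.c (I.pos (nat_lit 0) (nat_lit 0)) (xa (xb T2.l0 T2.l0) (xb (xa T2.l0 T2.l0) (xs T2.l0 T2.l0)))
  (TrL.c (I.pos (nat_lit 0) (nat_lit 0)) T0.l6
  (TrL.c (I.pos (nat_lit 0) (nat_lit 124588530)) T2.l8
  (TrL.c (I.pos (nat_lit 0) (nat_lit 96881482)) T0.l7
  (TrL.c (I.pos (nat_lit 0) (nat_lit 0)) (xk (xb T0.l8 T0.l8) (xb T0.l8 (xa T0.l8 T0.l8)))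
  (TrL.c (I.pos (nat_lit 0) (nat_lit 0)) T2.l9
  (TrL.c (I.mix (nat_lit 17240550) (nat_lit 96881482)) T0.l9
  (TrL.c (I.mix (nat_lit 17240550) (nat_lit 71940500)) T2.l11
  TrL.n)))))))) (by decide +kernel)
theorem bx2_13 : BoxOK sI cl9 cl9 cl5 t2 t0 b2_13 :=
  box_mk (TrL.c (I.pos (nat_lit 0) (nat_lit 0)) (xa T2.l12 T2.l12)
  (TrL.c (I.pos (nat_lit 0) (nat_lit 0)) T0.l6
  (TrL.c (I.pos (nat_lit 0) (nat_lit 124588530)) T2.l8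
  (TrL.c (I.pos (nat_lit 0) (nat_lit 96881482)) T0.l7
  (TrL.c (I.pos (nat_lit 0) (nat_lit 0)) (xk T0.l11 T0.l11)
  (TrL.c (I.pos (nat_lit 0) (nat_lit 0)) T2.l9
  (TrL.c (I.mix (nat_lit 17240550) (nat_lit 96881482)) T0.l9
  (TrL.c (I.mix (nat_lit 17240550) (nat_lit 71940500)) T2.l11
  TrL.n)))))))) (by decide +kernel)
theorem sv2 : StarV sI cl9 cl9 cl5 t2 t0 t2 :=
  (bt_n (bt_n (bt_n (bt_b bx2_0) (bt_n (bt_b bx2_1) (bt_b bx2_2))) (bt_n (bt_n (bt_b bx2_3) (bt_b bx2_4)) (bt_n (bt_b bx2_5) (bt_b bx2_6)))) (bt_n (bt_n (bt_b bx2_7) (bt_n (bt_b bx2_8) (bt_b bx2_9))) (bt_n (bt_n (bt_b bx2_10) (bt_b bx2_11)) (bt_n (bt_b bx2_12) (bt_b bx2_13)))))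
def S2 : StarD := StarD.mk cl9 cl9 cl5 2 0 t2
def G : List StarD := [S0, S1, S2]
theorem so0 : StarOK sI G S0 :=
  star_mk (by decide) (by decide) rfl rfl rfl rfl rfl rfl (rfl : _ = t1) (rfl : _ = t1)
  (st_mk (Pth.l (Pth.l (Pth.l Pth.z))) (nat_lit 117226417) (nat_lit 136240783) (by decide +kernel))
  (st_mk (Pth.l (Pth.l (Pth.l Pth.z))) (nat_lit 153644895) (nat_lit 173124024) (by decide +kernel))
  (st_mk (Pth.l (Pth.l (Pth.l Pth.z))) (nat_lit 196204182) (nat_lit 216321518) (by decide +kernel)) sv0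
theorem so1 : StarOK sI G S1 :=
  star_mk (by decide) (by decide) rfl rfl rfl rfl rfl rfl (rfl : _ = t0) (rfl : _ = t2)
  (st_mk (Pth.l (Pth.l (Pth.l Pth.z))) (nat_lit 239258606) (nat_lit 241155298) (by decide +kernel))
  (st_mk (Pth.l (Pth.l (Pth.l Pth.z))) (nat_lit 274533388) (nat_lit 276864169) (by decide +kernel))
  (st_mk (Pth.l (Pth.l (Pth.l Pth.z))) (nat_lit 315300377) (nat_lit 318210015) (by decide +kernel)) sv1
theorem so2 : StarOK sI G S2 :=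
  star_mk (by decide) (by decide) rfl rfl rfl rfl rfl rfl (rfl : _ = t2) (rfl : _ = t0)
  (st_mk (Pth.l (Pth.l (Pth.l Pth.z))) (nat_lit 115494240) (nat_lit 134093783) (by decide +kernel))
  (st_mk (Pth.l (Pth.l (Pth.l Pth.z))) (nat_lit 150672482) (nat_lit 169633026) (by decide +kernel))
  (st_mk (Pth.l (Pth.l (Pth.l Pth.z))) (nat_lit 191355780) (nat_lit 210832559) (by decide +kernel)) sv2
theorem ok : GroupOK (nat_lit 150274048) (nat_lit 209387520) G := grp_mk (allS_c so0 (allS_c so1 (allS_c so2 allS_n)))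
theorem cov : GCov G cl5 cl9 cl9 := cov_mk
  ⟨0, by decide, rfl, rfl, rfl⟩ ⟨0, by decide, rfl, rfl, rfl⟩ ⟨1, by decide, rfl, rfl, rfl⟩ ⟨2, by decide, rfl, rfl, rfl⟩ ⟨1, by decide, rfl, rfl, rfl⟩ ⟨2, by decide, rfl, rfl, rfl⟩
end Q255_2

namespace Q255_3
def sI : I := I.pos (nat_lit 209321984) (nat_lit 268435456)
def b0_0 : Bx := Bx.mk (St.mk (I.pos (nat_lit 153534464) (nat_lit 237862912)) (I.mix (nat_lit 5111808) (nat_lit 53493760)) (I.mix (nat_lit 6815744) (nat_lit 72728576)) (I.pos (nat_lit 105070592) (nat_lit 255033344)) (I.mix (nat_lit 99942400) (nat_lit 57868288)) (I.mix (nat_lit 59686912) (nat_lit 54951936)) (I.mix (nat_lit 81133568) (nat_lit 78217216)))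
  false (nat_lit 14243771)
def b0_1 : Bx := Bx.mk (St.mk (I.mix (nat_lit 32440320) (nat_lit 143949824)) (I.mix (nat_lit 5210112) (nat_lit 27099136)) (I.mix (nat_lit 17137664) (nat_lit 15040512)) (I.pos (nat_lit 8159232) (nat_lit 107069440)) (I.mix (nat_lit 34390016) (nat_lit 37437440)) (I.mix (nat_lit 28065792) (nat_lit 24002560)) (I.mix (nat_lit 21774336) (nat_lit 15663104)))
  false (nat_lit 0)
def b0_2 : Bx := Bx.mk (St.mk (I.pos (nat_lit 104972288) (nat_lit 145129472)) (I.mix (nat_lit 42057728) (nat_lit 7323648)) (I.neg (nat_lit 0) (nat_lit 50200576)) (I.pos (nat_lit 59801600) (nat_lit 113999872)) (I.mix (nat_lit 77873152) (nat_lit 29442048)) (I.mix (nat_lit 29966336) (nat_lit 61308928)) (I.mix (nat_lit 23347200) (nat_lit 52232192)))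
  false (nat_lit 0)
def b0_3 : Bx := Bx.mk (St.mk (I.mix (nat_lit 30982144) (nat_lit 107954176)) (I.mix (nat_lit 26968064) (nat_lit 2506752)) (I.mix (nat_lit 22446080) (nat_lit 1359872)) (I.pos (nat_lit 12550144) (nat_lit 73138176)) (I.mix (nat_lit 43859968) (nat_lit 19775488)) (I.mix (nat_lit 18972672) (nat_lit 29458432)) (I.mix (nat_lit 10076160) (nat_lit 16252928)))
  false (nat_lit 0)
def b0_4 : Bx := Bx.mk (St.mk (I.pos (nat_lit 193970176) (nat_lit 275087360)) (I.mix (nat_lit 7585792) (nat_lit 34504704)) (I.mix (nat_lit 54837248) (nat_lit 37240832)) (I.pos (nat_lit 181633024) (nat_lit 331612160)) (I.mix (nat_lit 76890112) (nat_lit 46170112)) (I.mix (nat_lit 44564480) (nat_lit 39665664)) (I.mix (nat_lit 66142208) (nat_lit 65994752)))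
  false (nat_lit 0)
def b0_5 : Bx := Bx.mk (St.mk (I.mix (nat_lit 30146560) (nat_lit 82853888)) (I.mix (nat_lit 671744) (nat_lit 5144576)) (I.neg (nat_lit 32768) (nat_lit 8273920)) (I.pos (nat_lit 14270464) (nat_lit 60145664)) (I.mix (nat_lit 5423104) (nat_lit 7176192)) (I.mix (nat_lit 4030464) (nat_lit 3784704)) (I.mix (nat_lit 1245184) (nat_lit 1343488)))
  false (nat_lit 0)
def b0_6 : Bx := Bx.mk (St.mk (I.pos (nat_lit 103923712) (nat_lit 182124544)) (I.neg (nat_lit 6668288) (nat_lit 44040192)) (I.neg (nat_lit 7258112) (nat_lit 50659328)) (I.pos (nat_lit 69386240) (nat_lit 160940032)) (I.mix (nat_lit 67944448) (nat_lit 34357248)) (I.mix (nat_lit 33751040) (nat_lit 45400064)) (I.mix (nat_lit 28131328) (nat_lit 45711360)))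
  false (nat_lit 0)
def b0_7 : Bx := Bx.mk (St.mk (I.mix (nat_lit 33980416) (nat_lit 120930304)) (I.mix (nat_lit 26034176) (nat_lit 7208960)) (I.mix (nat_lit 22364160) (nat_lit 1490944)) (I.pos (nat_lit 10076160) (nat_lit 81264640)) (I.mix (nat_lit 38486016) (nat_lit 28639232)) (I.mix (nat_lit 20168704) (nat_lit 30588928)) (I.mix (nat_lit 12009472) (nat_lit 19496960)))
  false (nat_lit 0)
def b0_8 : Bx := Bx.mk (St.mk (I.pos (nat_lit 170688512) (nat_lit 216891392)) (I.mix (nat_lit 12042240) (nat_lit 49561600)) (I.mix (nat_lit 8585216) (nat_lit 70041600)) (I.pos (nat_lit 137019392) (nat_lit 219660288)) (I.mix (nat_lit 123338752) (nat_lit 47333376)) (I.mix (nat_lit 96501760) (nat_lit 60489728)) (I.mix (nat_lit 104513536) (nat_lit 64651264)))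
  false (nat_lit 0)
def b0_9 : Bx := Bx.mk (St.mk (I.mix (nat_lit 34799616) (nat_lit 135462912)) (I.mix (nat_lit 17137664) (nat_lit 30752768)) (I.mix (nat_lit 18825216) (nat_lit 18055168)) (I.pos (nat_lit 10272768) (nat_lit 98516992)) (I.mix (nat_lit 46809088) (nat_lit 28868608)) (I.mix (nat_lit 37502976) (nat_lit 23805952)) (I.mix (nat_lit 23281664) (nat_lit 14270464)))
  false (nat_lit 0)
def b0_10 : Bx := Bx.mk (St.mk (I.pos (nat_lit 142950400) (nat_lit 213123072)) (I.mix (nat_lit 37945344) (nat_lit 13828096)) (I.mix (nat_lit 48742400) (nat_lit 19267584)) (I.pos (nat_lit 105021440) (nat_lit 204341248)) (I.mix (nat_lit 50839552) (nat_lit 42450944)) (I.mix (nat_lit 43565056) (nat_lit 37601280)) (I.mix (nat_lit 46743552) (nat_lit 38682624)))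
  false (nat_lit 7358633)
def b0_11 : Bx := Bx.mk (St.mk (I.pos (nat_lit 172720128) (nat_lit 211681280)) (I.mix (nat_lit 14729216) (nat_lit 27099136)) (I.mix (nat_lit 14680064) (nat_lit 38633472)) (I.pos (nat_lit 142491648) (nat_lit 200097792)) (I.mix (nat_lit 93077504) (nat_lit 49315840)) (I.mix (nat_lit 88768512) (nat_lit 42106880)) (I.mix (nat_lit 98435072) (nat_lit 45531136)))
  false (nat_lit 0)
def b0_12 : Bx := Bx.mk (St.mk (I.pos (nat_lit 107708416) (nat_lit 129728512)) (I.mix (nat_lit 3358720) (nat_lit 8699904)) (I.neg (nat_lit 376832) (nat_lit 15073280)) (I.pos (nat_lit 61767680) (nat_lit 101007360)) (I.mix (nat_lit 11993088) (nat_lit 14794752)) (I.mix (nat_lit 9617408) (nat_lit 6471680)) (I.mix (nat_lit 8388608) (nat_lit 5537792)))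
  false (nat_lit 0)
def b0_13 : Bx := Bx.mk (St.mk (I.pos (nat_lit 190414848) (nat_lit 238682112)) (I.pos (nat_lit 9633792) (nat_lit 49594368)) (I.pos (nat_lit 3719168) (nat_lit 69222400)) (I.pos (nat_lit 186761216) (nat_lit 250052608)) (I.mix (nat_lit 89980928) (nat_lit 62898176)) (I.mix (nat_lit 65110016) (nat_lit 48087040)) (I.mix (nat_lit 101662720) (nat_lit 62242816)))
  false (nat_lit 1235797)
def t0 : BTr := (BTr.n (BTr.n (BTr.n (BTr.b b0_0) (BTr.n (BTr.b b0_1) (BTr.b b0_2))) (BTr.n (BTr.n (BTr.b b0_3) (BTr.b b0_4)) (BTr.n (BTr.b b0_5) (BTr.b b0_6)))) (BTr.n (BTr.n (BTr.b b0_7) (BTr.n (BTr.b b0_8) (BTr.b b0_9))) (BTr.n (BTr.n (BTr.b b0_10) (BTr.b b0_11)) (BTr.n (BTr.b b0_12) (BTr.b b0_13)))))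
namespace T0
def l0 : Tr := Tr.L (Pth.l (Pth.l (Pth.l Pth.z)))
def l1 : Tr := Tr.L (Pth.l (Pth.l (Pth.r (Pth.l Pth.z))))
def l2 : Tr := Tr.L (Pth.l (Pth.l (Pth.r (Pth.r Pth.z))))
def l3 : Tr := Tr.L (Pth.l (Pth.r (Pth.l (Pth.l Pth.z))))
def l4 : Tr := Tr.L (Pth.l (Pth.r (Pth.l (Pth.r Pth.z))))
def l5 : Tr := Tr.L (Pth.l (Pth.r (Pth.r (Pth.l Pth.z))))
def l6 : Tr := Tr.L (Pth.l (Pth.r (Pth.r (Pth.r Pth.z))))
def l7 : Tr := Tr.L (Pth.r (Pth.l (Pth.l Pth.z)))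
def l8 : Tr := Tr.L (Pth.r (Pth.l (Pth.r (Pth.l Pth.z))))
def l9 : Tr := Tr.L (Pth.r (Pth.l (Pth.r (Pth.r Pth.z))))
def l10 : Tr := Tr.L (Pth.r (Pth.r (Pth.l (Pth.l Pth.z))))
def l11 : Tr := Tr.L (Pth.r (Pth.r (Pth.l (Pth.r Pth.z))))
def l12 : Tr := Tr.L (Pth.r (Pth.r (Pth.r (Pth.l Pth.z))))
def l13 : Tr := Tr.L (Pth.r (Pth.r (Pth.r (Pth.r Pth.z))))
end T0
def b1_0 : Bx := Bx.mk (St.mk (I.pos (nat_lit 146980864) (nat_lit 226066432)) (I.mix (nat_lit 6455296) (nat_lit 68272128)) (I.mix (nat_lit 9011200) (nat_lit 96288768)) (I.pos (nat_lit 229605376) (nat_lit 341491712)) (I.mix (nat_lit 117342208) (nat_lit 69632000)) (I.mix (nat_lit 63946752) (nat_lit 60063744)) (I.mix (nat_lit 82329600) (nat_lit 84492288)))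
  false (nat_lit 116163830)
def b1_1 : Bx := Bx.mk (St.mk (I.pos (nat_lit 63684608) (nat_lit 166313984)) (I.neg (nat_lit 6864896) (nat_lit 64487424)) (I.mix (nat_lit 58998784) (nat_lit 6144000)) (I.pos (nat_lit 157810688) (nat_lit 241549312)) (I.mix (nat_lit 78364672) (nat_lit 49397760)) (I.mix (nat_lit 36585472) (nat_lit 52723712)) (I.mix (nat_lit 32161792) (nat_lit 47087616)))
  false (nat_lit 0)
def b1_2 : Bx := Bx.mk (St.mk (I.pos (nat_lit 16072704) (nat_lit 80084992)) (I.mix (nat_lit 14073856) (nat_lit 47677440)) (I.mix (nat_lit 26755072) (nat_lit 9076736)) (I.pos (nat_lit 142032896) (nat_lit 163217408)) (I.mix (nat_lit 35454976) (nat_lit 51593216)) (I.mix (nat_lit 40452096) (nat_lit 27295744)) (I.mix (nat_lit 21889024) (nat_lit 11157504)))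
  false (nat_lit 0)
def b1_3 : Bx := Bx.mk (St.mk (I.mix (nat_lit 41172992) (nat_lit 13828096)) (I.mix (nat_lit 44171264) (nat_lit 12451840)) (I.mix (nat_lit 5373952) (nat_lit 6275072)) (I.pos (nat_lit 139264000) (nat_lit 154238976)) (I.mix (nat_lit 28246016) (nat_lit 43515904)) (I.mix (nat_lit 22609920) (nat_lit 36651008)) (I.mix (nat_lit 5472256) (nat_lit 5980160)))
  true (nat_lit 0)
def b1_4 : Bx := Bx.mk (St.mk (I.pos (nat_lit 145113088) (nat_lit 194117632)) (I.mix (nat_lit 1916928) (nat_lit 63340544)) (I.pos (nat_lit 12173312) (nat_lit 92864512)) (I.pos (nat_lit 225460224) (nat_lit 296091648)) (I.mix (nat_lit 126402560) (nat_lit 35569664)) (I.mix (nat_lit 101072896) (nat_lit 51331072)) (I.mix (nat_lit 96403456) (nat_lit 56786944)))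
  false (nat_lit 76485326)
def b1_5 : Bx := Bx.mk (St.mk (I.pos (nat_lit 48644096) (nat_lit 99696640)) (I.mix (nat_lit 64782336) (nat_lit 16875520)) (I.neg (nat_lit 4030464) (nat_lit 57032704)) (I.pos (nat_lit 146046976) (nat_lit 184713216)) (I.mix (nat_lit 86392832) (nat_lit 30769152)) (I.mix (nat_lit 27803648) (nat_lit 66174976)) (I.mix (nat_lit 23363584) (nat_lit 39419904)))
  false (nat_lit 0)
def b1_6 : Bx := Bx.mk (St.mk (I.mix (nat_lit 13828096) (nat_lit 41172992)) (I.mix (nat_lit 12451840) (nat_lit 44171264)) (I.mix (nat_lit 5373952) (nat_lit 6275072)) (I.pos (nat_lit 139264000) (nat_lit 154238976)) (I.mix (nat_lit 43515904) (nat_lit 28246016)) (I.mix (nat_lit 36651008) (nat_lit 22609920)) (I.mix (nat_lit 5472256) (nat_lit 5980160)))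
  false (nat_lit 0)
def b1_7 : Bx := Bx.mk (St.mk (I.neg (nat_lit 16072704) (nat_lit 80101376)) (I.mix (nat_lit 47677440) (nat_lit 14073856)) (I.mix (nat_lit 26755072) (nat_lit 9076736)) (I.pos (nat_lit 142032896) (nat_lit 163217408)) (I.mix (nat_lit 51593216) (nat_lit 35454976)) (I.mix (nat_lit 27312128) (nat_lit 40452096)) (I.mix (nat_lit 21889024) (nat_lit 11157504)))
  true (nat_lit 0)
def b1_8 : Bx := Bx.mk (St.mk (I.pos (nat_lit 182665216) (nat_lit 293273600)) (I.mix (nat_lit 26361856) (nat_lit 51068928)) (I.mix (nat_lit 96468992) (nat_lit 64503808)) (I.pos (nat_lit 281329664) (nat_lit 457293824)) (I.mix (nat_lit 73056256) (nat_lit 61374464)) (I.mix (nat_lit 58032128) (nat_lit 41795584)) (I.mix (nat_lit 102023168) (nat_lit 79544320)))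
  false (nat_lit 100831467)
def b1_9 : Bx := Bx.mk (St.mk (I.pos (nat_lit 124239872) (nat_lit 193560576)) (I.mix (nat_lit 33226752) (nat_lit 19873792)) (I.mix (nat_lit 27164672) (nat_lit 39272448)) (I.pos (nat_lit 200245248) (nat_lit 282771456)) (I.mix (nat_lit 48971776) (nat_lit 47677440)) (I.mix (nat_lit 43057152) (nat_lit 40091648)) (I.mix (nat_lit 40730624) (nat_lit 38977536)))
  false (nat_lit 0)
def b1_10 : Bx := Bx.mk (St.mk (I.pos (nat_lit 169082880) (nat_lit 218595328)) (I.pos (nat_lit 23789568) (nat_lit 64667648)) (I.pos (nat_lit 26394624) (nat_lit 88571904)) (I.pos (nat_lit 274726912) (nat_lit 328007680)) (I.mix (nat_lit 103448576) (nat_lit 79396864)) (I.mix (nat_lit 75923456) (nat_lit 59031552)) (I.mix (nat_lit 114819072) (nat_lit 76742656)))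
  false (nat_lit 101439134)
def b1_11 : Bx := Bx.mk (St.mk (I.pos (nat_lit 148193280) (nat_lit 196280320)) (I.mix (nat_lit 11386880) (nat_lit 42352640)) (I.mix (nat_lit 4128768) (nat_lit 69713920)) (I.pos (nat_lit 230866944) (nat_lit 289406976)) (I.mix (nat_lit 118407168) (nat_lit 57278464)) (I.mix (nat_lit 107298816) (nat_lit 49364992)) (I.mix (nat_lit 105086976) (nat_lit 50757632)))
  false (nat_lit 42887947)
def t1 : BTr := (BTr.n (BTr.n (BTr.n (BTr.b b1_0) (BTr.n (BTr.b b1_1) (BTr.b b1_2))) (BTr.n (BTr.b b1_3) (BTr.n (BTr.b b1_4) (BTr.b b1_5)))) (BTr.n (BTr.n (BTr.b b1_6) (BTr.n (BTr.b b1_7) (BTr.b b1_8))) (BTr.n (BTr.b b1_9) (BTr.n (BTr.b b1_10) (BTr.b b1_11)))))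
namespace T1
def l0 : Tr := Tr.L (Pth.l (Pth.l (Pth.l Pth.z)))
def l1 : Tr := Tr.L (Pth.l (Pth.l (Pth.r (Pth.l Pth.z))))
def l2 : Tr := Tr.L (Pth.l (Pth.l (Pth.r (Pth.r Pth.z))))
def l3 : Tr := Tr.L (Pth.l (Pth.r (Pth.l Pth.z)))
def l4 : Tr := Tr.L (Pth.l (Pth.r (Pth.r (Pth.l Pth.z))))
def l5 : Tr := Tr.L (Pth.l (Pth.r (Pth.r (Pth.r Pth.z))))
def l6 : Tr := Tr.L (Pth.r (Pth.l (Pth.l Pth.z)))
def l7 : Tr := Tr.L (Pth.r (Pth.l (Pth.r (Pth.l Pth.z))))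
def l8 : Tr := Tr.L (Pth.r (Pth.l (Pth.r (Pth.r Pth.z))))
def l9 : Tr := Tr.L (Pth.r (Pth.r (Pth.l Pth.z)))
def l10 : Tr := Tr.L (Pth.r (Pth.r (Pth.r (Pth.l Pth.z))))
def l11 : Tr := Tr.L (Pth.r (Pth.r (Pth.r (Pth.r Pth.z))))
end T1
def b2_0 : Bx := Bx.mk (St.mk (I.pos (nat_lit 153681920) (nat_lit 236175360)) (I.mix (nat_lit 4407296) (nat_lit 45809664)) (I.mix (nat_lit 9404416) (nat_lit 100696064)) (I.pos (nat_lit 105168896) (nat_lit 230195200)) (I.mix (nat_lit 107544576) (nat_lit 64176128)) (I.mix (nat_lit 73973760) (nat_lit 68403200)) (I.mix (nat_lit 101089280) (nat_lit 87457792)))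
  false (nat_lit 50995822)
def b2_1 : Bx := Bx.mk (St.mk (I.pos (nat_lit 113016832) (nat_lit 185581568)) (I.neg (nat_lit 7798784) (nat_lit 50282496)) (I.mix (nat_lit 38715392) (nat_lit 7471104)) (I.pos (nat_lit 84492288) (nat_lit 158203904)) (I.mix (nat_lit 63881216) (nat_lit 34947072)) (I.mix (nat_lit 30015488) (nat_lit 39600128)) (I.mix (nat_lit 28393472) (nat_lit 38420480)))
  false (nat_lit 29288600)
def b2_2 : Bx := Bx.mk (St.mk (I.mix (nat_lit 27213824) (nat_lit 111230976)) (I.mix (nat_lit 27230208) (nat_lit 2883584)) (I.mix (nat_lit 12812288) (nat_lit 9191424)) (I.pos (nat_lit 11190272) (nat_lit 78757888)) (I.mix (nat_lit 29507584) (nat_lit 33259520)) (I.mix (nat_lit 22626304) (nat_lit 26263552)) (I.mix (nat_lit 12107776) (nat_lit 15892480)))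
  false (nat_lit 0)
def b2_3 : Bx := Bx.mk (St.mk (I.pos (nat_lit 164741120) (nat_lit 208224256)) (I.mix (nat_lit 12795904) (nat_lit 42221568)) (I.pos (nat_lit 12795904) (nat_lit 87687168)) (I.pos (nat_lit 120750080) (nat_lit 193609728)) (I.mix (nat_lit 121585664) (nat_lit 41943040)) (I.mix (nat_lit 95748096) (nat_lit 51871744)) (I.mix (nat_lit 113180672) (nat_lit 43859968)))
  false (nat_lit 44503968)
def b2_4 : Bx := Bx.mk (St.mk (I.mix (nat_lit 32260096) (nat_lit 129744896)) (I.mix (nat_lit 12271616) (nat_lit 28016640)) (I.mix (nat_lit 2867200) (nat_lit 30392320)) (I.pos (nat_lit 10600448) (nat_lit 92766208)) (I.mix (nat_lit 55918592) (nat_lit 27770880)) (I.mix (nat_lit 43188224) (nat_lit 23347200)) (I.mix (nat_lit 28262400) (nat_lit 13336576)))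
  false (nat_lit 0)
def b2_5 : Bx := Bx.mk (St.mk (I.pos (nat_lit 151306240) (nat_lit 208486400)) (I.mix (nat_lit 31064064) (nat_lit 9338880)) (I.mix (nat_lit 13336576) (nat_lit 43204608)) (I.pos (nat_lit 110067712) (nat_lit 191217664)) (I.mix (nat_lit 52346880) (nat_lit 53035008)) (I.mix (nat_lit 45301760) (nat_lit 46710784)) (I.mix (nat_lit 45858816) (nat_lit 48971776)))
  false (nat_lit 52451130)
def b2_6 : Bx := Bx.mk (St.mk (I.mix (nat_lit 49676288) (nat_lit 116211712)) (I.mix (nat_lit 17088512) (nat_lit 3850240)) (I.mix (nat_lit 5586944) (nat_lit 10485760)) (I.pos (nat_lit 10829824) (nat_lit 80592896)) (I.mix (nat_lit 12713984) (nat_lit 15663104)) (I.mix (nat_lit 8142848) (nat_lit 9519104)) (I.mix (nat_lit 4816896) (nat_lit 6209536)))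
  false (nat_lit 0)
def b2_7 : Bx := Bx.mk (St.mk (I.mix (nat_lit 39534592) (nat_lit 154353664)) (I.mix (nat_lit 10043392) (nat_lit 26886144)) (I.mix (nat_lit 3702784) (nat_lit 29573120)) (I.pos (nat_lit 7290880) (nat_lit 107003904)) (I.mix (nat_lit 53559296) (nat_lit 37617664)) (I.mix (nat_lit 36864000) (nat_lit 29966336)) (I.mix (nat_lit 29229056) (nat_lit 20938752)))
  false (nat_lit 0)
def b2_8 : Bx := Bx.mk (St.mk (I.pos (nat_lit 105938944) (nat_lit 151977984)) (I.mix (nat_lit 48398336) (nat_lit 13877248)) (I.mix (nat_lit 38092800) (nat_lit 21020672)) (I.pos (nat_lit 59555840) (nat_lit 122978304)) (I.mix (nat_lit 70893568) (nat_lit 29147136)) (I.mix (nat_lit 28999680) (nat_lit 55934976)) (I.mix (nat_lit 22249472) (nat_lit 42795008)))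
  false (nat_lit 22797671)
def b2_9 : Bx := Bx.mk (St.mk (I.pos (nat_lit 186105856) (nat_lit 290488320)) (I.mix (nat_lit 26132480) (nat_lit 37109760)) (I.mix (nat_lit 33832960) (nat_lit 88064000)) (I.pos (nat_lit 161366016) (nat_lit 349290496)) (I.mix (nat_lit 73072640) (nat_lit 58441728)) (I.mix (nat_lit 53379072) (nat_lit 45776896)) (I.mix (nat_lit 90718208) (nat_lit 76595200)))
  false (nat_lit 79273469)
def b2_10 : Bx := Bx.mk (St.mk (I.mix (nat_lit 39141376) (nat_lit 103628800)) (I.mix (nat_lit 28426240) (nat_lit 7192576)) (I.mix (nat_lit 12861440) (nat_lit 10403840)) (I.pos (nat_lit 12222464) (nat_lit 72646656)) (I.mix (nat_lit 38977536) (nat_lit 33390592)) (I.mix (nat_lit 22167552) (nat_lit 26198016)) (I.mix (nat_lit 10518528) (nat_lit 12697600)))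
  false (nat_lit 0)
def b2_11 : Bx := Bx.mk (St.mk (I.pos (nat_lit 180355072) (nat_lit 229949440)) (I.pos (nat_lit 8667136) (nat_lit 43532288)) (I.pos (nat_lit 33210368) (nat_lit 94633984)) (I.pos (nat_lit 162086912) (nat_lit 220299264)) (I.mix (nat_lit 90177536) (nat_lit 70434816)) (I.mix (nat_lit 76431360) (nat_lit 56524800)) (I.mix (nat_lit 111149056) (nat_lit 71352320)))
  false (nat_lit 64540081)
def b2_12 : Bx := Bx.mk (St.mk (I.pos (nat_lit 152682496) (nat_lit 180371456)) (I.neg (nat_lit 9699328) (nat_lit 38846464)) (I.mix (nat_lit 24739840) (nat_lit 9437184)) (I.pos (nat_lit 111460352) (nat_lit 158892032)) (I.mix (nat_lit 29245440) (nat_lit 24199168)) (I.mix (nat_lit 16449536) (nat_lit 19578880)) (I.mix (nat_lit 16039936) (nat_lit 20496384)))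
  false (nat_lit 833348)
def b2_13 : Bx := Bx.mk (St.mk (I.pos (nat_lit 169148416) (nat_lit 205963264)) (I.mix (nat_lit 17727488) (nat_lit 18481152)) (I.pos (nat_lit 7553024) (nat_lit 55132160)) (I.pos (nat_lit 126337024) (nat_lit 189841408)) (I.mix (nat_lit 87982080) (nat_lit 48939008)) (I.mix (nat_lit 85622784) (nat_lit 39649280)) (I.mix (nat_lit 97124352) (nat_lit 35094528)))
  false (nat_lit 44606557)
def t2 : BTr := (BTr.n (BTr.n (BTr.n (BTr.b b2_0) (BTr.n (BTr.b b2_1) (BTr.b b2_2))) (BTr.n (BTr.n (BTr.b b2_3) (BTr.b b2_4)) (BTr.n (BTr.b b2_5) (BTr.b b2_6)))) (BTr.n (BTr.n (BTr.b b2_7) (BTr.n (BTr.b b2_8) (BTr.b b2_9))) (BTr.n (BTr.n (BTr.b b2_10) (BTr.b b2_11)) (BTr.n (BTr.b b2_12) (BTr.b b2_13)))))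
namespace T2
def l0 : Tr := Tr.L (Pth.l (Pth.l (Pth.l Pth.z)))
def l1 : Tr := Tr.L (Pth.l (Pth.l (Pth.r (Pth.l Pth.z))))
def l2 : Tr := Tr.L (Pth.l (Pth.l (Pth.r (Pth.r Pth.z))))
def l3 : Tr := Tr.L (Pth.l (Pth.r (Pth.l (Pth.l Pth.z))))
def l4 : Tr := Tr.L (Pth.l (Pth.r (Pth.l (Pth.r Pth.z))))
def l5 : Tr := Tr.L (Pth.l (Pth.r (Pth.r (Pth.l Pth.z))))
def l6 : Tr := Tr.L (Pth.l (Pth.r (Pth.r (Pth.r Pth.z))))
def l7 : Tr := Tr.L (Pth.r (Pth.l (Pth.l Pth.z)))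
def l8 : Tr := Tr.L (Pth.r (Pth.l (Pth.r (Pth.l Pth.z))))
def l9 : Tr := Tr.L (Pth.r (Pth.l (Pth.r (Pth.r Pth.z))))
def l10 : Tr := Tr.L (Pth.r (Pth.r (Pth.l (Pth.l Pth.z))))
def l11 : Tr := Tr.L (Pth.r (Pth.r (Pth.l (Pth.r Pth.z))))
def l12 : Tr := Tr.L (Pth.r (Pth.r (Pth.r (Pth.l Pth.z))))
def l13 : Tr := Tr.L (Pth.r (Pth.r (Pth.r (Pth.r Pth.z))))
end T2
theorem bx0_0 : BoxOK sI cl5 cl9 cl9 t1 t1 b0_0 :=
  box_mk (TrL.c (I.pos (nat_lit 0) (nat_lit 0)) (xa (xb (xa (xb (xa T1.l0 T1.l0) (xa T1.l0 T1.l0)) (xb T1.l0 T1.l0)) (xa (xb (xa (xb T1.l0 T1.l0) T1.l0) (xa (xb T1.l0 T1.l0) (xb T1.l0 T1.l0))) (xb (xa T1.l0 T1.l0) (xa (xs T1.l0 T1.l0) (xs T1.l0 T1.l0))))) (xb (xa (xb T1.l0 T1.l0) (xb T1.l0 T1.l0)) (xa (xb T1.l0 (xa T1.l0 T1.l0)) (xb (xa T1.l0 T1.l0) (xa (xs T1.l0 T1.l0) (xs T1.l0 T1.l0))))))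
  (TrL.c (I.pos (nat_lit 0) (nat_lit 0)) (xa (xb T1.l1 (xa T1.l1 T1.l1)) (xb T1.l1 (xa T1.l1 T1.l1)))
  (TrL.c (I.pos (nat_lit 0) (nat_lit 0)) (xa T1.l2 T1.l2)
  (TrL.c (I.pos (nat_lit 0) (nat_lit 0)) T1.l3
  (TrL.c (I.pos (nat_lit 0) (nat_lit 0)) (xa (xb T1.l11 (xa T1.l4 T1.l4)) (xb (xa (xb T1.l4 T1.l4) (xb T1.l4 T1.l4)) (xa T1.l4 (xb T1.l4 T1.l4))))
  (TrL.c (I.pos (nat_lit 0) (nat_lit 0)) (xa T1.l5 (xb T1.l1 T1.l5))
  (TrL.c (I.pos (nat_lit 0) (nat_lit 0)) T1.l6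
  (TrL.c (I.pos (nat_lit 0) (nat_lit 0)) (xa T1.l7 T1.l7)
  TrL.n)))))))) (by decide +kernel)
theorem bx0_1 : BoxOK sI cl5 cl9 cl9 t1 t1 b0_1 :=
  box_mk (TrL.c (I.pos (nat_lit 0) (nat_lit 0)) (xa (xa (xa (xb (xb T1.l8 T1.l8) (xa T1.l8 T1.l8)) T1.l8) T1.l8) (xa T1.l8 (xa T1.l8 T1.l8)))
  (TrL.c (I.pos (nat_lit 0) (nat_lit 0)) (xa T1.l1 T1.l1)
  (TrL.c (I.pos (nat_lit 0) (nat_lit 0)) (xa T1.l2 T1.l2)
  (TrL.c (I.pos (nat_lit 0) (nat_lit 0)) T1.l3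
  (TrL.c (I.pos (nat_lit 0) (nat_lit 0)) (xa (xa T1.l9 T1.l9) T1.l9)
  (TrL.c (I.pos (nat_lit 0) (nat_lit 0)) (xa T1.l5 T1.l5)
  (TrL.c (I.pos (nat_lit 0) (nat_lit 0)) T1.l6
  (TrL.c (I.pos (nat_lit 0) (nat_lit 0)) (xa T1.l7 T1.l7)
  TrL.n)))))))) (by decide +kernel)
theorem bx0_2 : BoxOK sI cl5 cl9 cl9 t1 t1 b0_2 :=
  box_mk (TrL.c (I.pos (nat_lit 0) (nat_lit 0)) (xb T1.l8 T1.l8)
  (TrL.c (I.pos (nat_lit 0) (nat_lit 0)) T1.l1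
  (TrL.c (I.pos (nat_lit 0) (nat_lit 0)) T1.l2
  (TrL.c (I.pos (nat_lit 0) (nat_lit 0)) T1.l3
  (TrL.c (I.pos (nat_lit 0) (nat_lit 0)) (xb T1.l9 T1.l11)
  (TrL.c (I.pos (nat_lit 0) (nat_lit 0)) T1.l5
  (TrL.c (I.pos (nat_lit 0) (nat_lit 0)) T1.l6
  (TrL.c (I.pos (nat_lit 0) (nat_lit 0)) T1.l7
  TrL.n)))))))) (by decide +kernel)
theorem bx0_3 : BoxOK sI cl5 cl9 cl9 t1 t1 b0_3 :=
  box_mk (TrL.c (I.pos (nat_lit 0) (nat_lit 0)) (xa (xa (xb T1.l8 T1.l8) T1.l8) T1.l8)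
  (TrL.c (I.pos (nat_lit 0) (nat_lit 0)) (xa T1.l1 T1.l1)
  (TrL.c (I.pos (nat_lit 0) (nat_lit 0)) T1.l2
  (TrL.c (I.pos (nat_lit 0) (nat_lit 0)) T1.l3
  (TrL.c (I.pos (nat_lit 0) (nat_lit 0)) (xa T1.l1 T1.l9)
  (TrL.c (I.pos (nat_lit 0) (nat_lit 0)) T1.l5
  (TrL.c (I.pos (nat_lit 0) (nat_lit 0)) T1.l6
  (TrL.c (I.pos (nat_lit 0) (nat_lit 0)) T1.l7
  TrL.n)))))))) (by decide +kernel)
theorem bx0_4 : BoxOK sI cl5 cl9 cl9 t1 t1 b0_4 :=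
  box_mk (TrL.c (I.pos (nat_lit 0) (nat_lit 0)) (xa (xb T1.l0 (xa T1.l0 T1.l0)) (xa (xb T1.l0 T1.l0) (xb (xa T1.l0 T1.l4) (xa T1.l0 (xb T1.l0 T1.l0)))))
  (TrL.c (I.pos (nat_lit 0) (nat_lit 0)) (xa T1.l1 (xb T1.l1 (xa T1.l1 T1.l1)))
  (TrL.c (I.pos (nat_lit 0) (nat_lit 0)) T1.l2
  (TrL.c (I.pos (nat_lit 0) (nat_lit 0)) T1.l3
  (TrL.c (I.pos (nat_lit 0) (nat_lit 0)) (xa (xb T1.l4 T1.l4) (xb (xa T1.l4 (xb (xa T1.l4 T1.l4) T1.l4)) (xa T1.l4 (xb T1.l4 (xa T1.l4 T1.l4)))))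
  (TrL.c (I.pos (nat_lit 0) (nat_lit 0)) (xa T1.l5 (xb T1.l1 T1.l5))
  (TrL.c (I.pos (nat_lit 0) (nat_lit 0)) T1.l6
  (TrL.c (I.pos (nat_lit 0) (nat_lit 0)) T1.l7
  TrL.n)))))))) (by decide +kernel)
theorem bx0_5 : BoxOK sI cl5 cl9 cl9 t1 t1 b0_5 :=
  box_mk (TrL.c (I.pos (nat_lit 0) (nat_lit 0)) T1.l8
  (TrL.c (I.pos (nat_lit 0) (nat_lit 0)) T1.l1
  (TrL.c (I.pos (nat_lit 0) (nat_lit 0)) T1.l2
  (TrL.c (I.pos (nat_lit 0) (nat_lit 0)) T1.l3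
  (TrL.c (I.pos (nat_lit 0) (nat_lit 0)) T1.l9
  (TrL.c (I.pos (nat_lit 0) (nat_lit 0)) T1.l5
  (TrL.c (I.pos (nat_lit 0) (nat_lit 0)) T1.l6
  (TrL.c (I.pos (nat_lit 0) (nat_lit 0)) T1.l7
  TrL.n)))))))) (by decide +kernel)
theorem bx0_6 : BoxOK sI cl5 cl9 cl9 t1 t1 b0_6 :=
  box_mk (TrL.c (I.pos (nat_lit 0) (nat_lit 0)) (xa (xb T1.l8 T1.l8) T1.l0)
  (TrL.c (I.pos (nat_lit 0) (nat_lit 0)) T1.l1
  (TrL.c (I.pos (nat_lit 0) (nat_lit 0)) T1.l2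
  (TrL.c (I.pos (nat_lit 0) (nat_lit 0)) T1.l3
  (TrL.c (I.pos (nat_lit 0) (nat_lit 0)) (xa T1.l9 T1.l11)
  (TrL.c (I.pos (nat_lit 0) (nat_lit 0)) T1.l5
  (TrL.c (I.pos (nat_lit 0) (nat_lit 0)) T1.l6
  (TrL.c (I.pos (nat_lit 0) (nat_lit 0)) T1.l7
  TrL.n)))))))) (by decide +kernel)
theorem bx0_7 : BoxOK sI cl5 cl9 cl9 t1 t1 b0_7 :=
  box_mk (TrL.c (I.pos (nat_lit 0) (nat_lit 0)) (xa (xa (xb (xa (xb (xa T1.l8 T1.l8) T1.l8) T1.l8) T1.l8) T1.l8) T1.l8)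
  (TrL.c (I.pos (nat_lit 0) (nat_lit 0)) (xa T1.l1 T1.l1)
  (TrL.c (I.pos (nat_lit 0) (nat_lit 0)) T1.l2
  (TrL.c (I.pos (nat_lit 0) (nat_lit 0)) T1.l3
  (TrL.c (I.pos (nat_lit 0) (nat_lit 0)) (xa T1.l1 T1.l9)
  (TrL.c (I.pos (nat_lit 0) (nat_lit 0)) T1.l5
  (TrL.c (I.pos (nat_lit 0) (nat_lit 0)) T1.l6
  (TrL.c (I.pos (nat_lit 0) (nat_lit 0)) T1.l7
  TrL.n)))))))) (by decide +kernel)
theorem bx0_8 : BoxOK sI cl5 cl9 cl9 t1 t1 b0_8 :=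
  box_mk (TrL.c (I.pos (nat_lit 0) (nat_lit 0)) (xb (xa (xb T1.l10 (xa T1.l10 T1.l10)) (xb (xa T1.l10 T1.l10) (xa T1.l10 T1.l10))) (xa (xb (xa T1.l10 T1.l10) (xa (xb T1.l10 T1.l10) (xb T1.l10 T1.l10))) (xb (xa T1.l10 T1.l10) (xa (xs T1.l10 T1.l10) (xs T1.l10 (xb T1.l10 T1.l10))))))
  (TrL.c (I.pos (nat_lit 0) (nat_lit 0)) (xb (xa T1.l1 T1.l1) (xa T1.l1 T1.l1))
  (TrL.c (I.pos (nat_lit 0) (nat_lit 0)) T1.l2
  (TrL.c (I.pos (nat_lit 0) (nat_lit 0)) T1.l3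
  (TrL.c (I.pos (nat_lit 0) (nat_lit 0)) (xb (xa T1.l11 (xb T1.l11 T1.l11)) (xa T1.l11 (xb T1.l11 T1.l11)))
  (TrL.c (I.pos (nat_lit 0) (nat_lit 0)) (xb T1.l5 T1.l5)
  (TrL.c (I.pos (nat_lit 0) (nat_lit 0)) T1.l6
  (TrL.c (I.pos (nat_lit 0) (nat_lit 0)) T1.l7
  TrL.n)))))))) (by decide +kernel)
theorem bx0_9 : BoxOK sI cl5 cl9 cl9 t1 t1 b0_9 :=
  box_mk (TrL.c (I.pos (nat_lit 0) (nat_lit 0)) (xa (xa (xb (xa (xb T1.l8 T1.l8) T1.l8) (xa (xb T1.l8 (xa (xb T1.l8 T1.l8) T1.l8)) (xb T1.l8 (xa T1.l8 T1.l8)))) (xb T1.l8 (xa (xb T1.l8 T1.l8) T1.l8))) (xa (xb T1.l8 T1.l8) (xb T1.l8 (xa T1.l8 T1.l8))))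
  (TrL.c (I.pos (nat_lit 0) (nat_lit 0)) (xa T1.l1 T1.l1)
  (TrL.c (I.pos (nat_lit 0) (nat_lit 0)) (xa T1.l2 T1.l2)
  (TrL.c (I.pos (nat_lit 0) (nat_lit 0)) T1.l3
  (TrL.c (I.pos (nat_lit 0) (nat_lit 0)) (xa (xa T1.l1 T1.l9) (xa T1.l9 T1.l9))
  (TrL.c (I.pos (nat_lit 0) (nat_lit 0)) (xa T1.l5 T1.l5)
  (TrL.c (I.pos (nat_lit 0) (nat_lit 0)) T1.l6
  (TrL.c (I.pos (nat_lit 0) (nat_lit 0)) (xa T1.l7 T1.l7)
  TrL.n)))))))) (by decide +kernel)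
theorem bx0_10 : BoxOK sI cl5 cl9 cl9 t1 t1 b0_10 :=
  box_mk (TrL.c (I.pos (nat_lit 0) (nat_lit 0)) (xa (xb T1.l0 (xa (xb T1.l0 T1.l0) T1.l0)) (xb T1.l0 T1.l0))
  (TrL.c (I.pos (nat_lit 0) (nat_lit 0)) T1.l1
  (TrL.c (I.pos (nat_lit 0) (nat_lit 0)) T1.l2
  (TrL.c (I.pos (nat_lit 0) (nat_lit 0)) T1.l3
  (TrL.c (I.pos (nat_lit 0) (nat_lit 0)) (xa T1.l11 T1.l0)
  (TrL.c (I.pos (nat_lit 0) (nat_lit 0)) T1.l5
  (TrL.c (I.pos (nat_lit 0) (nat_lit 0)) T1.l6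
  (TrL.c (I.pos (nat_lit 0) (nat_lit 0)) T1.l7
  TrL.n)))))))) (by decide +kernel)
theorem bx0_11 : BoxOK sI cl5 cl9 cl9 t1 t1 b0_11 :=
  box_mk (TrL.c (I.pos (nat_lit 0) (nat_lit 0)) (xb (xa T1.l10 T1.l10) (xa T1.l10 T1.l10))
  (TrL.c (I.pos (nat_lit 0) (nat_lit 0)) T1.l1
  (TrL.c (I.pos (nat_lit 0) (nat_lit 0)) T1.l2
  (TrL.c (I.pos (nat_lit 0) (nat_lit 0)) T1.l3
  (TrL.c (I.pos (nat_lit 0) (nat_lit 0)) (xb T1.l11 T1.l11)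
  (TrL.c (I.pos (nat_lit 0) (nat_lit 0)) T1.l5
  (TrL.c (I.pos (nat_lit 0) (nat_lit 0)) T1.l6
  (TrL.c (I.pos (nat_lit 0) (nat_lit 0)) T1.l7
  TrL.n)))))))) (by decide +kernel)
theorem bx0_12 : BoxOK sI cl5 cl9 cl9 t1 t1 b0_12 :=
  box_mk (TrL.c (I.pos (nat_lit 0) (nat_lit 0)) T1.l8
  (TrL.c (I.pos (nat_lit 0) (nat_lit 0)) T1.l1
  (TrL.c (I.pos (nat_lit 0) (nat_lit 0)) T1.l2
  (TrL.c (I.pos (nat_lit 0) (nat_lit 0)) T1.l3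
  (TrL.c (I.pos (nat_lit 0) (nat_lit 0)) T1.l9
  (TrL.c (I.pos (nat_lit 0) (nat_lit 0)) T1.l5
  (TrL.c (I.pos (nat_lit 0) (nat_lit 0)) T1.l6
  (TrL.c (I.pos (nat_lit 0) (nat_lit 0)) T1.l7
  TrL.n)))))))) (by decide +kernel)
theorem bx0_13 : BoxOK sI cl5 cl9 cl9 t1 t1 b0_13 :=
  box_mk (TrL.c (I.pos (nat_lit 0) (nat_lit 0)) (xa (xb (xa T1.l0 T1.l0) (xa (xb T1.l0 T1.l0) (xb T1.l0 T1.l0))) (xb (xa T1.l0 T1.l0) (xa (xb T1.l0 T1.l0) (xb T1.l0 T1.l0))))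
  (TrL.c (I.pos (nat_lit 0) (nat_lit 0)) (xa T1.l1 (xb T1.l1 T1.l1))
  (TrL.c (I.pos (nat_lit 0) (nat_lit 0)) T1.l2
  (TrL.c (I.pos (nat_lit 0) (nat_lit 0)) T1.l3
  (TrL.c (I.pos (nat_lit 0) (nat_lit 0)) (xa (xb T1.l4 T1.l4) (xb T1.l4 T1.l4))
  (TrL.c (I.pos (nat_lit 0) (nat_lit 0)) (xa T1.l5 T1.l5)
  (TrL.c (I.pos (nat_lit 0) (nat_lit 0)) T1.l6
  (TrL.c (I.pos (nat_lit 0) (nat_lit 0)) T1.l7
  TrL.n)))))))) (by decide +kernel)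
theorem sv0 : StarV sI cl5 cl9 cl9 t1 t1 t0 :=
  (bt_n (bt_n (bt_n (bt_b bx0_0) (bt_n (bt_b bx0_1) (bt_b bx0_2))) (bt_n (bt_n (bt_b bx0_3) (bt_b bx0_4)) (bt_n (bt_b bx0_5) (bt_b bx0_6)))) (bt_n (bt_n (bt_b bx0_7) (bt_n (bt_b bx0_8) (bt_b bx0_9))) (bt_n (bt_n (bt_b bx0_10) (bt_b bx0_11)) (bt_n (bt_b bx0_12) (bt_b bx0_13)))))
def S0 : StarD := StarD.mk cl5 cl9 cl9 1 1 t0
theorem bx1_0 : BoxOK sI cl9 cl5 cl9 t0 t2 b1_0 :=
  box_mk (TrL.c (I.pos (nat_lit 0) (nat_lit 0)) (xa (xb (xa (xb T0.l0 T0.l0) (xb T0.l0 T0.l0)) (xa (xb (xa T0.l0 T0.l0) (xa (xb T0.l0 T0.l0) T0.l0)) (xb T0.l0 (xa T0.l0 T0.l0)))) (xb (xa T0.l0 T0.l0) (xa (xb T0.l0 (xa T0.l0 T0.l0)) (xb T0.l0 (xa T0.l0 T0.l0)))))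
  (TrL.c (I.pos (nat_lit 0) (nat_lit 0)) (xb (xa T2.l1 (xk T2.l1 T2.l1)) (xa (xk (xa T2.l1 T2.l1) (xa T2.l1 T2.l1)) (xk (xa T2.l1 T2.l1) (xa T2.l1 T2.l1))))
  (TrL.c (I.pos (nat_lit 0) (nat_lit 124588530)) (xR T0.l1 T0.l1)
  (TrL.c (I.pos (nat_lit 0) (nat_lit 96881482)) (xR T2.l2 T2.l2)
  (TrL.c (I.pos (nat_lit 0) (nat_lit 0)) (xa (xb (xk (xb T2.l3 T2.l3) (xb T2.l3 T2.l3)) (xk (xb T2.l3 T2.l3) T2.l3)) (xb (xk (xb (xa T2.l3 T2.l3) T2.l3) (xb (xa T2.l3 T2.l3) T2.l3)) (xk (xb T2.l3 (xa T2.l3 T2.l3)) (xb T2.l3 T2.l3))))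
  (TrL.c (I.pos (nat_lit 0) (nat_lit 0)) (xk (xb T0.l2 T0.l2) T0.l2)
  (TrL.c (I.mix (nat_lit 17240550) (nat_lit 96881482)) (xR T2.l4 (xR T2.l4 T2.l4))
  (TrL.c (I.mix (nat_lit 17240550) (nat_lit 71940500)) T0.l3
  TrL.n)))))))) (by decide +kernel)
theorem bx1_1 : BoxOK sI cl9 cl5 cl9 t0 t2 b1_1 :=
  box_mk (TrL.c (I.pos (nat_lit 0) (nat_lit 0)) (xa (xb T0.l4 (xa T0.l4 T0.l4)) (xb T0.l4 T0.l4))
  (TrL.c (I.pos (nat_lit 0) (nat_lit 0)) (xa T2.l1 T2.l1)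
  (TrL.c (I.pos (nat_lit 0) (nat_lit 124588530)) T0.l1
  (TrL.c (I.pos (nat_lit 0) (nat_lit 96881482)) T2.l2
  (TrL.c (I.pos (nat_lit 0) (nat_lit 0)) (xa (xb (xk T2.l5 T2.l5) T2.l5) (xb (xk (xa T2.l5 T2.l5) (xa T2.l5 T2.l5)) (xk T2.l5 T2.l5)))
  (TrL.c (I.pos (nat_lit 0) (nat_lit 0)) T0.l2
  (TrL.c (I.mix (nat_lit 17240550) (nat_lit 96881482)) T2.l7
  (TrL.c (I.mix (nat_lit 17240550) (nat_lit 71940500)) T0.l3
  TrL.n)))))))) (by decide +kernel)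
theorem bx1_2 : BoxOK sI cl9 cl5 cl9 t0 t2 b1_2 :=
  box_mk (TrL.c (I.pos (nat_lit 0) (nat_lit 0)) (xb T0.l4 (xa T0.l4 (xb T0.l4 T0.l4)))
  (TrL.c (I.pos (nat_lit 0) (nat_lit 0)) T2.l1
  (TrL.c (I.pos (nat_lit 0) (nat_lit 124588530)) T0.l1
  (TrL.c (I.pos (nat_lit 0) (nat_lit 96881482)) T2.l2
  (TrL.c (I.pos (nat_lit 0) (nat_lit 0)) T2.l5
  (TrL.c (I.pos (nat_lit 0) (nat_lit 0)) T0.l2
  (TrL.c (I.mix (nat_lit 17240550) (nat_lit 96881482)) T2.l4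
  (TrL.c (I.mix (nat_lit 17240550) (nat_lit 71940500)) T0.l3
  TrL.n)))))))) (by decide +kernel)
theorem bx1_3 : BoxOK sI cl9 cl5 cl9 t0 t2 b1_3 :=
  box_mk (TrL.c (I.pos (nat_lit 0) (nat_lit 0)) (xb T2.l12 T2.l12)
  (TrL.c (I.pos (nat_lit 0) (nat_lit 0)) T0.l1
  (TrL.c (I.mix (nat_lit 17240550) (nat_lit 96881482)) T2.l6
  (TrL.c (I.mix (nat_lit 17240550) (nat_lit 71940500)) T0.l1
  TrL.n)))) (by decide +kernel)
theorem bx1_4 : BoxOK sI cl9 cl5 cl9 t0 t2 b1_4 :=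
  box_mk (TrL.c (I.pos (nat_lit 0) (nat_lit 0)) (xb (xa (xb T0.l13 T0.l13) (xb T0.l13 T0.l13)) (xa (xb T0.l13 (xa T0.l13 T0.l13)) (xb T0.l13 (xa T0.l13 T0.l13))))
  (TrL.c (I.pos (nat_lit 0) (nat_lit 0)) (xk (xb T2.l1 (xa T2.l1 T2.l1)) (xb T2.l1 (xa T2.l1 T2.l1)))
  (TrL.c (I.pos (nat_lit 0) (nat_lit 124588530)) (xR T0.l1 T0.l1)
  (TrL.c (I.pos (nat_lit 0) (nat_lit 96881482)) T2.l2
  (TrL.c (I.pos (nat_lit 0) (nat_lit 0)) (xb (xk (xa T2.l13 T2.l13) (xa T2.l13 T2.l13)) (xk (xa T2.l3 T2.l3) (xa T2.l3 T2.l3)))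
  (TrL.c (I.pos (nat_lit 0) (nat_lit 0)) T0.l2
  (TrL.c (I.mix (nat_lit 17240550) (nat_lit 96881482)) (xR T2.l4 T2.l4)
  (TrL.c (I.mix (nat_lit 17240550) (nat_lit 71940500)) T0.l3
  TrL.n)))))))) (by decide +kernel)
theorem bx1_5 : BoxOK sI cl9 cl5 cl9 t0 t2 b1_5 :=
  box_mk (TrL.c (I.pos (nat_lit 0) (nat_lit 0)) (xb (xa T0.l4 T0.l4) (xa (xb T0.l4 T0.l4) T0.l4))
  (TrL.c (I.pos (nat_lit 0) (nat_lit 0)) (xb T2.l1 T2.l1)
  (TrL.c (I.pos (nat_lit 0) (nat_lit 124588530)) T0.l1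
  (TrL.c (I.pos (nat_lit 0) (nat_lit 96881482)) T2.l2
  (TrL.c (I.pos (nat_lit 0) (nat_lit 0)) (xb (xk T2.l5 T2.l5) T2.l5)
  (TrL.c (I.pos (nat_lit 0) (nat_lit 0)) T0.l2
  (TrL.c (I.mix (nat_lit 17240550) (nat_lit 96881482)) T2.l4
  (TrL.c (I.mix (nat_lit 17240550) (nat_lit 71940500)) T0.l3
  TrL.n)))))))) (by decide +kernel)
theorem bx1_6 : BoxOK sI cl9 cl5 cl9 t0 t2 b1_6 :=
  box_mk (TrL.c (I.pos (nat_lit 0) (nat_lit 0)) (xb (xa T0.l4 T0.l4) (xa (xb T0.l4 T0.l4) T0.l4))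
  (TrL.c (I.pos (nat_lit 0) (nat_lit 0)) (xb T2.l1 T2.l12)
  (TrL.c (I.pos (nat_lit 0) (nat_lit 124588530)) T0.l1
  (TrL.c (I.pos (nat_lit 0) (nat_lit 96881482)) T2.l6
  (TrL.c (I.pos (nat_lit 0) (nat_lit 0)) T2.l5
  (TrL.c (I.pos (nat_lit 0) (nat_lit 0)) T0.l2
  (TrL.c (I.mix (nat_lit 17240550) (nat_lit 96881482)) T2.l4
  (TrL.c (I.mix (nat_lit 17240550) (nat_lit 71940500)) T0.l3
  TrL.n)))))))) (by decide +kernel)
theorem bx1_7 : BoxOK sI cl9 cl5 cl9 t0 t2 b1_7 :=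
  box_mk (TrL.c (I.pos (nat_lit 0) (nat_lit 0)) T2.l1
  (TrL.c (I.pos (nat_lit 0) (nat_lit 0)) T0.l1
  (TrL.c (I.mix (nat_lit 17240550) (nat_lit 96881482)) T2.l2
  (TrL.c (I.mix (nat_lit 17240550) (nat_lit 71940500)) T0.l1
  TrL.n)))) (by decide +kernel)
theorem c1_8_0 : chkTag sI cl9 cl5 cl9 t0 b1_8 (tg true true false RT.r2) (I.pos (nat_lit 0) (nat_lit 0))
  (xa (xb (xa T0.l0 T0.l0) (xa (xb T0.l0 (xc T0.l0 T0.l0)) (xb T0.l0 (xc T0.l0 T0.l0)))) (xb (xa T0.l0 T0.l0) (xa (xb T0.l0 (xc T0.l0 T0.l0)) (xb T0.l0 (xa T0.l0 T0.l0))))) = true := by decide +kernel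
theorem c1_8_1 : chkTag sI cl9 cl5 cl9 t2 b1_8 (tg true false false RT.r3) (I.pos (nat_lit 0) (nat_lit 0))
  (xa (xb T2.l1 (xk T2.l1 T2.l1)) (xb (xk T2.l8 T2.l8) (xk (xa T2.l1 T2.l8) (xa T2.l1 T2.l1)))) = true := by decide +kernel
theorem c1_8_2 : chkTag sI cl9 cl5 cl9 t0 b1_8 (Tag.mk true true false RT.tl RT.r4) (I.pos (nat_lit 0) (nat_lit 124588530))
  (xR T0.l1 T0.l9) = true := by decide +kernel
theorem c1_8_3 : chkTag sI cl9 cl5 cl9 t2 b1_8 (Tag.mk true false false RT.tl RT.r5) (I.pos (nat_lit 0) (nat_lit 96881482))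
  (xR T2.l2 (xR T2.l2 T2.l10)) = true := by decide +kernel
theorem c1_8_4 : chkTag sI cl9 cl5 cl9 t2 b1_8 (tg false false false RT.r3) (I.pos (nat_lit 0) (nat_lit 0))
  (xa (xb (xk (xa (xb (xk T2.l3 T2.l3) T2.l3) (xb T2.l0 T2.l3)) (xa (xb (xk T2.l3 T2.l3) T2.l3) (xb T2.l0 T2.l3))) (xk (xa T2.l3 T2.l3) (xa T2.l3 T2.l3))) (xb (xk (xa (xb (xk (xa T2.l3 T2.l3) (xa T2.l3 T2.l3)) T2.l3) (xb (xk (xa (xb T2.l3 T2.l3) (xb T2.l3 T2.l3)) (xa (xb T2.l3 T2.l3) (xb T2.l3 T2.l3))) (xk (xa T2.l3 (xb T2.l3 T2.l3)) (xa T2.l3 T2.l3)))) (xa (xb (xk (xa T2.l3 T2.l3) (xa T2.l3 T2.l3)) T2.l3) (xb (xk (xa T2.l3 (xb T2.l3 T2.l3)) (xa T2.l3 (xb T2.l3 T2.l3))) (xk (xa T2.l3 T2.l3) T2.l3)))) (xk (xa (xb T2.l3 (xk T2.l3 T2.l3)) (xb (xk (xa T2.l3 (xb T2.l3 T2.l3)) (xa T2.l3 T2.l3)) (xk (xa T2.l3 (xb T2.l3 T2.l3)) (xa T2.l3 (xs T2.l3 T2.l3))))) (xa (xb T2.l3 (xk T2.l3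 T2.l3)) (xb (xk (xa T2.l3 T2.l3) (xa T2.l3 T2.l3)) (xk (xa T2.l3 (xs T2.l3 T2.l3)) (xa T2.l3 (xs T2.l3 T2.l3)))))))) = true := by decide +kernel
theorem c1_8_5 : chkTag sI cl9 cl5 cl9 t0 b1_8 (tg false true false RT.r4) (I.pos (nat_lit 0) (nat_lit 0))
  (xa (xb T0.l2 T0.l2) (xb (xk (xa T0.l2 T0.l2) T0.l2) (xk (xa T0.l2 T0.l2) (xa T0.l2 T0.l2)))) = true := by decide +kernel
theorem c1_8_6 : chkTag sI cl9 cl5 cl9 t2 b1_8 (Tag.mk false false false RT.tl RT.r5) (I.mix (nat_lit 17240550) (nat_lit 96881482))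
  (xR T2.l4 (xR T2.l4 (xR T2.l4 (xb (xa T2.l4 T2.l4) (xk T2.l4 T2.l4))))) = true := by decide +kernel
theorem c1_8_7 : chkTag sI cl9 cl5 cl9 t0 b1_8 (Tag.mk false true false RT.tl RT.r6) (I.mix (nat_lit 17240550) (nat_lit 71940500))
  T0.l3 = true := by decide +kernel
theorem bx1_8 : BoxOK sI cl9 cl5 cl9 t0 t2 b1_8 :=
  box_mk' [(tg true true false RT.r2), (tg true false false RT.r3), (Tag.mk true true false RT.tl RT.r4), (Tag.mk true false false RT.tl RT.r5), (tg false false false RT.r3), (tg false true false RT.r4), (Tag.mk false false false RT.tl RT.r5), (Tag.mk false true false RT.tl RT.r6)] rfl (allL_c (ex_mk c1_8_0) (allL_c (ex_mk c1_8_1) (allL_c (ex_mk c1_8_2) (allL_c (ex_mk c1_8_3) (allL_c (ex_mk c1_8_4) (allL_c (ex_mk c1_8_5) (allL_c (ex_mk c1_8_6) (allL_c (ex_mk c1_8_7) allL_n))))))))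
theorem bx1_9 : BoxOK sI cl9 cl5 cl9 t0 t2 b1_9 :=
  box_mk (TrL.c (I.pos (nat_lit 0) (nat_lit 0)) (xa (xb T0.l0 T0.l13) T0.l0)
  (TrL.c (I.pos (nat_lit 0) (nat_lit 0)) T2.l1
  (TrL.c (I.pos (nat_lit 0) (nat_lit 124588530)) T0.l1
  (TrL.c (I.pos (nat_lit 0) (nat_lit 96881482)) T2.l2
  (TrL.c (I.pos (nat_lit 0) (nat_lit 0)) (xk (xb (xa T2.l13 T2.l3) T2.l13) (xa T2.l13 (xb T2.l3 T2.l13)))
  (TrL.c (I.pos (nat_lit 0) (nat_lit 0)) T0.l2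
  (TrL.c (I.mix (nat_lit 17240550) (nat_lit 96881482)) T2.l4
  (TrL.c (I.mix (nat_lit 17240550) (nat_lit 71940500)) T0.l3
  TrL.n)))))))) (by decide +kernel)
theorem bx1_10 : BoxOK sI cl9 cl5 cl9 t0 t2 b1_10 :=
  box_mk (TrL.c (I.pos (nat_lit 0) (nat_lit 0)) (xa (xb T0.l0 (xa T0.l0 T0.l0)) (xb T0.l0 (xa T0.l0 T0.l0)))
  (TrL.c (I.pos (nat_lit 0) (nat_lit 0)) (xk (xa T2.l1 T2.l1) (xa T2.l1 T2.l1))
  (TrL.c (I.pos (nat_lit 0) (nat_lit 124588530)) (xR T0.l1 T0.l1)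
  (TrL.c (I.pos (nat_lit 0) (nat_lit 96881482)) T2.l2
  (TrL.c (I.pos (nat_lit 0) (nat_lit 0)) (xk (xa T2.l3 T2.l3) (xa T2.l3 T2.l3))
  (TrL.c (I.pos (nat_lit 0) (nat_lit 0)) T0.l2
  (TrL.c (I.mix (nat_lit 17240550) (nat_lit 96881482)) (xR T2.l4 T2.l4)
  (TrL.c (I.mix (nat_lit 17240550) (nat_lit 71940500)) T0.l3
  TrL.n)))))))) (by decide +kernel)
theorem bx1_11 : BoxOK sI cl9 cl5 cl9 t0 t2 b1_11 :=
  box_mk (TrL.c (I.pos (nat_lit 0) (nat_lit 0)) (xb (xa T0.l13 T0.l13) (xa (xb T0.l13 T0.l13) T0.l13))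
  (TrL.c (I.pos (nat_lit 0) (nat_lit 0)) (xk (xb T2.l1 T2.l1) (xb T2.l1 T2.l1))
  (TrL.c (I.pos (nat_lit 0) (nat_lit 124588530)) (xR T0.l1 T0.l1)
  (TrL.c (I.pos (nat_lit 0) (nat_lit 96881482)) T2.l2
  (TrL.c (I.pos (nat_lit 0) (nat_lit 0)) (xk (xb (xa T2.l13 T2.l13) (xa T2.l13 T2.l3)) (xb (xa T2.l13 T2.l13) T2.l13))
  (TrL.c (I.pos (nat_lit 0) (nat_lit 0)) T0.l2
  (TrL.c (I.mix (nat_lit 17240550) (nat_lit 96881482)) (xR T2.l4 T2.l4)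
  (TrL.c (I.mix (nat_lit 17240550) (nat_lit 71940500)) T0.l3
  TrL.n)))))))) (by decide +kernel)
theorem sv1 : StarV sI cl9 cl5 cl9 t0 t2 t1 :=
  (bt_n (bt_n (bt_n (bt_b bx1_0) (bt_n (bt_b bx1_1) (bt_b bx1_2))) (bt_n (bt_b bx1_3) (bt_n (bt_b bx1_4) (bt_b bx1_5)))) (bt_n (bt_n (bt_b bx1_6) (bt_n (bt_b bx1_7) (bt_b bx1_8))) (bt_n (bt_b bx1_9) (bt_n (bt_b bx1_10) (bt_b bx1_11)))))
def S1 : StarD := StarD.mk cl9 cl5 cl9 0 2 t1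
theorem bx2_0 : BoxOK sI cl9 cl9 cl5 t2 t0 b2_0 :=
  box_mk (TrL.c (I.pos (nat_lit 0) (nat_lit 0)) (xa (xb (xa (xb T2.l0 (xa T2.l0 T2.l0)) (xb T2.l0 T2.l0)) (xa (xb (xa T2.l0 T2.l0) (xa (xc T2.l0 T2.l0) (xc T2.l0 T2.l0))) (xb (xa T2.l0 T2.l0) (xa T2.l0 T2.l0)))) (xb (xa (xb T2.l0 T2.l0) (xb (xa T2.l0 T2.l0) (xa T2.l0 T2.l0))) (xa (xb (xa T2.l0 T2.l0) (xa T2.l0 T2.l0)) (xb (xa T2.l0 T2.l0) (xa T2.l0 T2.l0)))))
  (TrL.c (I.pos (nat_lit 0) (nat_lit 0)) (xa (xk (xb T0.l6 (xa T0.l6 (xk T0.l6 T0.l6))) (xb T0.l6 (xa T0.l6 T0.l6))) (xk (xb (xa T0.l6 T0.l6) (xa (xk T0.l6 T0.l6) (xk T0.l6 T0.l6))) (xb T0.l6 (xa T0.l6 (xk T0.l6 T0.l6)))))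
  (TrL.c (I.pos (nat_lit 0) (nat_lit 124588530)) (xR T2.l7 T2.l7)
  (TrL.c (I.pos (nat_lit 0) (nat_lit 96881482)) (xR T0.l7 (xR T0.l7 T0.l7))
  (TrL.c (I.pos (nat_lit 0) (nat_lit 0)) (xa (xk (xb T0.l8 (xa T0.l8 T0.l8)) (xb T0.l8 T0.l8)) (xk (xb (xa T0.l8 (xk T0.l8 T0.l8)) (xa T0.l8 (xk T0.l8 T0.l8))) (xb (xa T0.l8 T0.l8) (xa T0.l8 (xk T0.l8 T0.l8)))))
  (TrL.c (I.pos (nat_lit 0) (nat_lit 0)) (xk (xa T2.l8 (xb T2.l8 T2.l8)) (xa T2.l8 T2.l8))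
  (TrL.c (I.mix (nat_lit 17240550) (nat_lit 96881482)) (xR T0.l9 (xR T0.l9 (xR T0.l9 T0.l9)))
  (TrL.c (I.mix (nat_lit 17240550) (nat_lit 71940500)) T2.l10
  TrL.n)))))))) (by decide +kernel)
theorem bx2_1 : BoxOK sI cl9 cl9 cl5 t2 t0 b2_1 :=
  box_mk (TrL.c (I.pos (nat_lit 0) (nat_lit 0)) (xa (xb T2.l9 T2.l9) T2.l0)
  (TrL.c (I.pos (nat_lit 0) (nat_lit 0)) (xa (xk T0.l6 T0.l6) (xk T0.l6 T0.l6))
  (TrL.c (I.pos (nat_lit 0) (nat_lit 124588530)) T2.l7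
  (TrL.c (I.pos (nat_lit 0) (nat_lit 96881482)) T0.l7
  (TrL.c (I.pos (nat_lit 0) (nat_lit 0)) (xa (xk (xb T0.l10 T0.l10) (xb T0.l10 T0.l10)) (xk (xb (xa T0.l10 T0.l10) T0.l11) (xb (xa T0.l10 T0.l10) T0.l10)))
  (TrL.c (I.pos (nat_lit 0) (nat_lit 0)) T2.l8
  (TrL.c (I.mix (nat_lit 17240550) (nat_lit 96881482)) (xR T0.l9 T0.l9)
  (TrL.c (I.mix (nat_lit 17240550) (nat_lit 71940500)) T2.l10
  TrL.n)))))))) (by decide +kernel)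
theorem bx2_2 : BoxOK sI cl9 cl9 cl5 t2 t0 b2_2 :=
  box_mk (TrL.c (I.pos (nat_lit 0) (nat_lit 0)) (xa T2.l9 (xa T2.l9 T2.l9))
  (TrL.c (I.pos (nat_lit 0) (nat_lit 0)) (xa T0.l10 (xa T0.l6 T0.l6))
  (TrL.c (I.pos (nat_lit 0) (nat_lit 124588530)) T2.l7
  (TrL.c (I.pos (nat_lit 0) (nat_lit 96881482)) T0.l7
  (TrL.c (I.pos (nat_lit 0) (nat_lit 0)) (xa (xa T0.l10 T0.l10) T0.l10)
  (TrL.c (I.pos (nat_lit 0) (nat_lit 0)) T2.l8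
  (TrL.c (I.mix (nat_lit 17240550) (nat_lit 96881482)) T0.l9
  (TrL.c (I.mix (nat_lit 17240550) (nat_lit 71940500)) T2.l10
  TrL.n)))))))) (by decide +kernel)
theorem bx2_3 : BoxOK sI cl9 cl9 cl5 t2 t0 b2_3 :=
  box_mk (TrL.c (I.pos (nat_lit 0) (nat_lit 0)) (xb (xa (xb T2.l11 T2.l11) (xb T2.l11 T2.l11)) (xa (xb (xa T2.l11 T2.l11) (xa T2.l11 T2.l11)) (xb (xa T2.l11 T2.l11) (xa T2.l11 T2.l11))))
  (TrL.c (I.pos (nat_lit 0) (nat_lit 0)) (xb (xk (xa T0.l6 T0.l6) (xa T0.l6 T0.l6)) (xk (xa T0.l6 T0.l6) (xa T0.l6 T0.l6)))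
  (TrL.c (I.pos (nat_lit 0) (nat_lit 124588530)) (xR T2.l7 T2.l7)
  (TrL.c (I.pos (nat_lit 0) (nat_lit 96881482)) (xR T0.l7 T0.l7)
  (TrL.c (I.pos (nat_lit 0) (nat_lit 0)) (xb (xk (xa T0.l11 (xb T0.l11 T0.l11)) (xa T0.l11 T0.l11)) (xk (xa T0.l11 T0.l8) T0.l8))
  (TrL.c (I.pos (nat_lit 0) (nat_lit 0)) (xk T2.l8 T2.l8)
  (TrL.c (I.mix (nat_lit 17240550) (nat_lit 96881482)) (xR T0.l9 (xR T0.l9 T0.l9))
  (TrL.c (I.mix (nat_lit 17240550) (nat_lit 71940500)) T2.l10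
  TrL.n)))))))) (by decide +kernel)
theorem bx2_4 : BoxOK sI cl9 cl9 cl5 t2 t0 b2_4 :=
  box_mk (TrL.c (I.pos (nat_lit 0) (nat_lit 0)) (xa (xa (xb (xa T2.l9 T2.l9) (xa (xb T2.l9 (xa T2.l9 T2.l9)) T2.l9)) (xb T2.l9 (xa T2.l9 T2.l9))) (xa (xb T2.l9 T2.l9) (xb T2.l9 (xa T2.l9 T2.l9))))
  (TrL.c (I.pos (nat_lit 0) (nat_lit 0)) (xa (xa T0.l6 T0.l6) (xa T0.l6 (xk T0.l6 T0.l6)))
  (TrL.c (I.pos (nat_lit 0) (nat_lit 124588530)) T2.l7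
  (TrL.c (I.pos (nat_lit 0) (nat_lit 96881482)) T0.l7
  (TrL.c (I.pos (nat_lit 0) (nat_lit 0)) (xa (xa T0.l10 T0.l10) (xa T0.l10 T0.l10))
  (TrL.c (I.pos (nat_lit 0) (nat_lit 0)) (xa T2.l8 T2.l8)
  (TrL.c (I.mix (nat_lit 17240550) (nat_lit 96881482)) T0.l9
  (TrL.c (I.mix (nat_lit 17240550) (nat_lit 71940500)) T2.l10
  TrL.n)))))))) (by decide +kernel)
theorem bx2_5 : BoxOK sI cl9 cl9 cl5 t2 t0 b2_5 :=
  box_mk (TrL.c (I.pos (nat_lit 0) (nat_lit 0)) (xa T2.l0 T2.l0)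
  (TrL.c (I.pos (nat_lit 0) (nat_lit 0)) (xa T0.l6 T0.l6)
  (TrL.c (I.pos (nat_lit 0) (nat_lit 124588530)) T2.l7
  (TrL.c (I.pos (nat_lit 0) (nat_lit 96881482)) T0.l7
  (TrL.c (I.pos (nat_lit 0) (nat_lit 0)) (xk (xa (xb T0.l11 T0.l11) (xb T0.l8 T0.l11)) (xa (xb T0.l11 T0.l11) T0.l8))
  (TrL.c (I.pos (nat_lit 0) (nat_lit 0)) T2.l8
  (TrL.c (I.mix (nat_lit 17240550) (nat_lit 96881482)) (xR T0.l9 T0.l9)
  (TrL.c (I.mix (nat_lit 17240550) (nat_lit 71940500)) T2.l10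
  TrL.n)))))))) (by decide +kernel)
theorem bx2_6 : BoxOK sI cl9 cl9 cl5 t2 t0 b2_6 :=
  box_mk (TrL.c (I.pos (nat_lit 0) (nat_lit 0)) (xa (xa (xa (xb T2.l9 T2.l9) T2.l9) T2.l9) T2.l9)
  (TrL.c (I.pos (nat_lit 0) (nat_lit 0)) (xa T0.l10 (xa T0.l6 T0.l6))
  (TrL.c (I.pos (nat_lit 0) (nat_lit 124588530)) T2.l7
  (TrL.c (I.pos (nat_lit 0) (nat_lit 96881482)) T0.l9
  (TrL.c (I.pos (nat_lit 0) (nat_lit 0)) (xa (xa T0.l10 T0.l10) T0.l10)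
  (TrL.c (I.pos (nat_lit 0) (nat_lit 0)) T2.l8
  (TrL.c (I.mix (nat_lit 17240550) (nat_lit 96881482)) T0.l9
  (TrL.c (I.mix (nat_lit 17240550) (nat_lit 71940500)) T2.l10
  TrL.n)))))))) (by decide +kernel)
theorem bx2_7 : BoxOK sI cl9 cl9 cl5 t2 t0 b2_7 :=
  box_mk (TrL.c (I.pos (nat_lit 0) (nat_lit 0)) (xa (xa (xa (xb T2.l9 (xa (xb T2.l9 T2.l9) T2.l9)) (xb T2.l9 (xa T2.l9 T2.l9))) (xa T2.l9 T2.l9)) (xa (xa T2.l9 T2.l9) (xa (xb T2.l9 T2.l9) (xb T2.l9 T2.l9))))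
  (TrL.c (I.pos (nat_lit 0) (nat_lit 0)) (xa (xa T0.l6 T0.l6) (xa (xk T0.l6 T0.l6) (xk T0.l6 T0.l6)))
  (TrL.c (I.pos (nat_lit 0) (nat_lit 124588530)) T2.l7
  (TrL.c (I.pos (nat_lit 0) (nat_lit 96881482)) (xR T0.l7 T0.l7)
  (TrL.c (I.pos (nat_lit 0) (nat_lit 0)) (xa (xa T0.l10 T0.l10) (xa T0.l10 (xk T0.l10 T0.l10)))
  (TrL.c (I.pos (nat_lit 0) (nat_lit 0)) (xa T2.l8 T2.l8)
  (TrL.c (I.mix (nat_lit 17240550) (nat_lit 96881482)) T0.l9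
  (TrL.c (I.mix (nat_lit 17240550) (nat_lit 71940500)) T2.l10
  TrL.n)))))))) (by decide +kernel)
theorem bx2_8 : BoxOK sI cl9 cl9 cl5 t2 t0 b2_8 :=
  box_mk (TrL.c (I.pos (nat_lit 0) (nat_lit 0)) (xb (xa T2.l9 T2.l9) (xa T2.l9 T2.l9))
  (TrL.c (I.pos (nat_lit 0) (nat_lit 0)) (xb (xk T0.l6 T0.l6) T0.l6)
  (TrL.c (I.pos (nat_lit 0) (nat_lit 124588530)) T2.l7
  (TrL.c (I.pos (nat_lit 0) (nat_lit 96881482)) T0.l7
  (TrL.c (I.pos (nat_lit 0) (nat_lit 0)) (xb (xk (xa T0.l10 T0.l10) (xa T0.l10 T0.l10)) (xk (xa T0.l10 T0.l10) (xa T0.l10 T0.l10)))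
  (TrL.c (I.pos (nat_lit 0) (nat_lit 0)) T2.l8
  (TrL.c (I.mix (nat_lit 17240550) (nat_lit 96881482)) T0.l9
  (TrL.c (I.mix (nat_lit 17240550) (nat_lit 71940500)) T2.l10
  TrL.n)))))))) (by decide +kernel)
theorem c2_9_0 : chkTag sI cl9 cl9 cl5 t2 b2_9 (tg true true false RT.r2) (I.pos (nat_lit 0) (nat_lit 0))
  (xa (xb (xa T2.l0 T2.l0) (xa (xb T2.l0 (xa T2.l0 T2.l0)) (xb T2.l0 (xa T2.l0 T2.l0)))) (xb (xa T2.l0 (xb T2.l0 T2.l0)) (xa (xa T2.l0 T2.l0) (xa T2.l0 (xb T2.l0 T2.l0))))) = true := by decide +kernel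
theorem c2_9_1 : chkTag sI cl9 cl9 cl5 t0 b2_9 (tg true false false RT.r3) (I.pos (nat_lit 0) (nat_lit 0))
  (xa (xb (xk (xa T0.l6 T0.l6) (xa T0.l6 T0.l6)) (xk (xa T0.l6 T0.l6) (xa T0.l6 T0.l6))) (xb (xk (xa T0.l6 (xk T0.l6 T0.l6)) (xa T0.l6 T0.l6)) (xk (xa (xb T0.l6 T0.l6) (xb T0.l6 T0.l6)) (xa T0.l6 T0.l2)))) = true := by decide +kernel
theorem c2_9_2 : chkTag sI cl9 cl9 cl5 t2 b2_9 (Tag.mk true true false RT.tl RT.r4) (I.pos (nat_lit 0) (nat_lit 124588530))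
  (xR T2.l7 (xR T2.l7 T2.l7)) = true := by decide +kernel
theorem c2_9_3 : chkTag sI cl9 cl9 cl5 t0 b2_9 (Tag.mk true false false RT.tl RT.r5) (I.pos (nat_lit 0) (nat_lit 96881482))
  (xR T0.l7 (xR T0.l7 (xR T0.l7 (xa T0.l7 T0.l7)))) = true := by decide +kernel
theorem c2_9_4 : chkTag sI cl9 cl9 cl5 t0 b2_9 (tg false false false RT.r3) (I.pos (nat_lit 0) (nat_lit 0))
  (xa (xb (xk (xa (xb (xk T0.l8 T0.l8) T0.l8) (xb (xk T0.l8 T0.l8) T0.l8)) (xa (xb T0.l8 T0.l8) (xb (xk T0.l8 T0.l8) T0.l8))) (xk (xa T0.l8 T0.l8) (xa T0.l8 T0.l8))) (xb (xk (xa (xb (xk (xa T0.l8 T0.l8) (xa T0.l8 T0.l8)) T0.l8) (xb (xk (xa T0.l8 (xb T0.l8 T0.l8)) (xa T0.l8 (xb T0.l8 T0.l8))) (xk (xa T0.l8 T0.l8) T0.l8))) (xa (xb (xk (xa T0.l8 T0.l8) (xa T0.l8 T0.l8)) T0.l8) (xb (xk (xa T0.l8 (xb T0.l8 T0.l8)) (xa T0.l8 (xb T0.l8 T0.l8))) (xk T0.l8 T0.l8)))) (xa (xk (xb T0.l8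 (xk T0.l8 T0.l8)) (xb T0.l8 T0.l8)) (xk (xb (xk (xa T0.l8 T0.l8) (xa T0.l8 T0.l8)) (xk (xa T0.l8 (xb T0.l8 T0.l8)) (xa T0.l8 (xb T0.l8 T0.l8)))) (xb (xk (xa T0.l8 T0.l8) (xa T0.l8 T0.l8)) (xk (xa T0.l8 (xb T0.l8 T0.l8)) (xa T0.l8 (xb T0.l8 T0.l8)))))))) = true := by decide +kernel
theorem c2_9_5 : chkTag sI cl9 cl9 cl5 t2 b2_9 (tg false true false RT.r4) (I.pos (nat_lit 0) (nat_lit 0))
  (xa (xk (xb T2.l8 T2.l8) (xb T2.l8 T2.l8)) (xk (xb (xa T2.l8 (xk T2.l8 T2.l8)) (xa T2.l8 (xk T2.l8 T2.l8))) (xb (xa T2.l8 (xk T2.l8 T2.l8)) (xa T2.l8 (xk T2.l8 T2.l8))))) = true := by decide +kernel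
theorem c2_9_6 : chkTag sI cl9 cl9 cl5 t0 b2_9 (Tag.mk false false false RT.tl RT.r5) (I.mix (nat_lit 17240550) (nat_lit 96881482))
  (xR T0.l9 (xR T0.l9 (xR T0.l9 (xk (xa T0.l9 T0.l9) T0.l9)))) = true := by decide +kernel
theorem c2_9_7 : chkTag sI cl9 cl9 cl5 t2 b2_9 (Tag.mk false true false RT.tl RT.r6) (I.mix (nat_lit 17240550) (nat_lit 71940500))
  T2.l10 = true := by decide +kernel
theorem bx2_9 : BoxOK sI cl9 cl9 cl5 t2 t0 b2_9 :=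
  box_mk' [(tg true true false RT.r2), (tg true false false RT.r3), (Tag.mk true true false RT.tl RT.r4), (Tag.mk true false false RT.tl RT.r5), (tg false false false RT.r3), (tg false true false RT.r4), (Tag.mk false false false RT.tl RT.r5), (Tag.mk false true false RT.tl RT.r6)] rfl (allL_c (ex_mk c2_9_0) (allL_c (ex_mk c2_9_1) (allL_c (ex_mk c2_9_2) (allL_c (ex_mk c2_9_3) (allL_c (ex_mk c2_9_4) (allL_c (ex_mk c2_9_5) (allL_c (ex_mk c2_9_6) (allL_c (ex_mk c2_9_7) allL_n))))))))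
theorem bx2_10 : BoxOK sI cl9 cl9 cl5 t2 t0 b2_10 :=
  box_mk (TrL.c (I.pos (nat_lit 0) (nat_lit 0)) (xa (xa (xb (xa T2.l9 T2.l9) T2.l9) T2.l9) (xa T2.l9 T2.l9))
  (TrL.c (I.pos (nat_lit 0) (nat_lit 0)) (xa T0.l10 (xa T0.l6 T0.l6))
  (TrL.c (I.pos (nat_lit 0) (nat_lit 124588530)) T2.l7
  (TrL.c (I.pos (nat_lit 0) (nat_lit 96881482)) T0.l9
  (TrL.c (I.pos (nat_lit 0) (nat_lit 0)) (xa (xa T0.l10 T0.l10) T0.l10)
  (TrL.c (I.pos (nat_lit 0) (nat_lit 0)) T2.l8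
  (TrL.c (I.mix (nat_lit 17240550) (nat_lit 96881482)) T0.l9
  (TrL.c (I.mix (nat_lit 17240550) (nat_lit 71940500)) T2.l10
  TrL.n)))))))) (by decide +kernel)
theorem bx2_11 : BoxOK sI cl9 cl9 cl5 t2 t0 b2_11 :=
  box_mk (TrL.c (I.pos (nat_lit 0) (nat_lit 0)) (xa (xb T2.l0 (xa (xs T2.l0 T2.l0) T2.l0)) (xb T2.l0 (xa T2.l0 T2.l0)))
  (TrL.c (I.pos (nat_lit 0) (nat_lit 0)) (xk (xa (xb T0.l6 T0.l6) (xb T0.l6 T0.l6)) (xa T0.l6 (xb T0.l6 T0.l6)))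
  (TrL.c (I.pos (nat_lit 0) (nat_lit 124588530)) (xR T2.l7 T2.l7)
  (TrL.c (I.pos (nat_lit 0) (nat_lit 96881482)) (xR T0.l7 T0.l7)
  (TrL.c (I.pos (nat_lit 0) (nat_lit 0)) (xk (xa T0.l8 T0.l8) (xa T0.l8 T0.l8))
  (TrL.c (I.pos (nat_lit 0) (nat_lit 0)) T2.l8
  (TrL.c (I.mix (nat_lit 17240550) (nat_lit 96881482)) (xR T0.l9 (xR T0.l9 T0.l9))
  (TrL.c (I.mix (nat_lit 17240550) (nat_lit 71940500)) T2.l10
  TrL.n)))))))) (by decide +kernel)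
theorem bx2_12 : BoxOK sI cl9 cl9 cl5 t2 t0 b2_12 :=
  box_mk (TrL.c (I.pos (nat_lit 0) (nat_lit 0)) T2.l9
  (TrL.c (I.pos (nat_lit 0) (nat_lit 0)) T0.l6
  (TrL.c (I.pos (nat_lit 0) (nat_lit 124588530)) T2.l7
  (TrL.c (I.pos (nat_lit 0) (nat_lit 96881482)) T0.l7
  (TrL.c (I.pos (nat_lit 0) (nat_lit 0)) (xk T0.l10 T0.l10)
  (TrL.c (I.pos (nat_lit 0) (nat_lit 0)) T2.l8
  (TrL.c (I.mix (nat_lit 17240550) (nat_lit 96881482)) T0.l9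
  (TrL.c (I.mix (nat_lit 17240550) (nat_lit 71940500)) T2.l10
  TrL.n)))))))) (by decide +kernel)
theorem bx2_13 : BoxOK sI cl9 cl9 cl5 t2 t0 b2_13 :=
  box_mk (TrL.c (I.pos (nat_lit 0) (nat_lit 0)) (xa (xb T2.l11 T2.l11) (xb T2.l11 T2.l11))
  (TrL.c (I.pos (nat_lit 0) (nat_lit 0)) (xk T0.l6 T0.l6)
  (TrL.c (I.pos (nat_lit 0) (nat_lit 124588530)) T2.l7
  (TrL.c (I.pos (nat_lit 0) (nat_lit 96881482)) T0.l7
  (TrL.c (I.pos (nat_lit 0) (nat_lit 0)) (xk (xb T0.l11 T0.l11) (xb T0.l11 T0.l11))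
  (TrL.c (I.pos (nat_lit 0) (nat_lit 0)) T2.l8
  (TrL.c (I.mix (nat_lit 17240550) (nat_lit 96881482)) (xR T0.l9 T0.l9)
  (TrL.c (I.mix (nat_lit 17240550) (nat_lit 71940500)) T2.l10
  TrL.n)))))))) (by decide +kernel)
theorem sv2 : StarV sI cl9 cl9 cl5 t2 t0 t2 :=
  (bt_n (bt_n (bt_n (bt_b bx2_0) (bt_n (bt_b bx2_1) (bt_b bx2_2))) (bt_n (bt_n (bt_b bx2_3) (bt_b bx2_4)) (bt_n (bt_b bx2_5) (bt_b bx2_6)))) (bt_n (bt_n (bt_b bx2_7) (bt_n (bt_b bx2_8) (bt_b bx2_9))) (bt_n (bt_n (bt_b bx2_10) (bt_b bx2_11)) (bt_n (bt_b bx2_12) (bt_b bx2_13)))))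
def S2 : StarD := StarD.mk cl9 cl9 cl5 2 0 t2
def G : List StarD := [S0, S1, S2]
theorem so0 : StarOK sI G S0 :=
  star_mk (by decide) (by decide) rfl rfl rfl rfl rfl rfl (rfl : _ = t1) (rfl : _ = t1)
  (st_mk (Pth.l (Pth.l (Pth.l Pth.z))) (nat_lit 117540724) (nat_lit 136659863) (by decide +kernel))
  (st_mk (Pth.l (Pth.l (Pth.l Pth.z))) (nat_lit 154190356) (nat_lit 173813038) (by decide +kernel))
  (st_mk (Pth.l (Pth.l (Pth.l Pth.z))) (nat_lit 195226879) (nat_lit 219298433) (by decide +kernel)) sv0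
theorem so1 : StarOK sI G S1 :=
  star_mk (by decide) (by decide) rfl rfl rfl rfl rfl rfl (rfl : _ = t0) (rfl : _ = t2)
  (st_mk (Pth.l (Pth.l (Pth.l Pth.z))) (nat_lit 239429200) (nat_lit 241478187) (by decide +kernel))
  (st_mk (Pth.l (Pth.l (Pth.l Pth.z))) (nat_lit 274758311) (nat_lit 277291430) (by decide +kernel))
  (st_mk (Pth.l (Pth.l (Pth.l Pth.z))) (nat_lit 315597569) (nat_lit 318776942) (by decide +kernel)) sv1
theorem so2 : StarOK sI G S2 :=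
  star_mk (by decide) (by decide) rfl rfl rfl rfl rfl rfl (rfl : _ = t2) (rfl : _ = t0)
  (st_mk (Pth.l (Pth.l (Pth.l Pth.z))) (nat_lit 115551723) (nat_lit 134227585) (by decide +kernel))
  (st_mk (Pth.l (Pth.l (Pth.l Pth.z))) (nat_lit 150770237) (nat_lit 169848745) (by decide +kernel))
  (st_mk (Pth.l (Pth.l (Pth.l Pth.z))) (nat_lit 191513538) (nat_lit 211168316) (by decide +kernel)) sv2
theorem ok : GroupOK (nat_lit 209321984) (nat_lit 268435456) G := grp_mk (allS_c so0 (allS_c so1 (allS_c so2 allS_n)))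
theorem cov : GCov G cl5 cl9 cl9 := cov_mk
  ⟨0, by decide, rfl, rfl, rfl⟩ ⟨0, by decide, rfl, rfl, rfl⟩ ⟨1, by decide, rfl, rfl, rfl⟩ ⟨2, by decide, rfl, rfl, rfl⟩ ⟨1, by decide, rfl, rfl, rfl⟩ ⟨2, by decide, rfl, rfl, rfl⟩
end Q255_3

namespace Q256_0
def sI : I := I.pos (nat_lit 0) (nat_lit 91291648)
def b0_0 : Bx := Bx.mk (St.mk (I.pos (nat_lit 154140672) (nat_lit 273793024)) (I.mix (nat_lit 9224192) (nat_lit 55689216)) (I.mix (nat_lit 56967168) (nat_lit 76972032)) (I.pos (nat_lit 104792064) (nat_lit 321519616)) (I.mix (nat_lit 75677696) (nat_lit 50757632)) (I.mix (nat_lit 65961984) (nat_lit 42287104)) (I.mix (nat_lit 107003904) (nat_lit 68321280)))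
  false (nat_lit 0)
def b0_1 : Bx := Bx.mk (St.mk (I.mix (nat_lit 19480576) (nat_lit 134676480)) (I.mix (nat_lit 3604480) (nat_lit 30916608)) (I.mix (nat_lit 16646144) (nat_lit 15974400)) (I.pos (nat_lit 12894208) (nat_lit 101056512)) (I.mix (nat_lit 25788416) (nat_lit 24002560)) (I.mix (nat_lit 25640960) (nat_lit 17219584)) (I.mix (nat_lit 20578304) (nat_lit 11354112)))
  false (nat_lit 0)
def b0_2 : Bx := Bx.mk (St.mk (I.pos (nat_lit 109641728) (nat_lit 153747456)) (I.mix (nat_lit 55967744) (nat_lit 5095424)) (I.neg (nat_lit 2736128) (nat_lit 67895296)) (I.pos (nat_lit 63750144) (nat_lit 123305984)) (I.mix (nat_lit 82690048) (nat_lit 23281664)) (I.mix (nat_lit 41287680) (nat_lit 84738048)) (I.mix (nat_lit 31506432) (nat_lit 76152832)))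
  false (nat_lit 0)
def b0_3 : Bx := Bx.mk (St.mk (I.mix (nat_lit 25804800) (nat_lit 104972288)) (I.mix (nat_lit 27885568) (nat_lit 2949120)) (I.mix (nat_lit 23887872) (nat_lit 442368)) (I.pos (nat_lit 14794752) (nat_lit 71942144)) (I.mix (nat_lit 29327360) (nat_lit 9568256)) (I.mix (nat_lit 12992512) (nat_lit 25804800)) (I.mix (nat_lit 6733824) (nat_lit 14401536)))
  false (nat_lit 0)
def b0_4 : Bx := Bx.mk (St.mk (I.mix (nat_lit 23314432) (nat_lit 31784960)) (I.mix (nat_lit 1474560) (nat_lit 5488640)) (I.neg (nat_lit 950272) (nat_lit 6537216)) (I.pos (nat_lit 16941056) (nat_lit 41058304)) (I.mix (nat_lit 2539520) (nat_lit 4767744)) (I.mix (nat_lit 2818048) (nat_lit 2408448)) (I.mix (nat_lit 933888) (nat_lit 983040)))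
  false (nat_lit 0)
def b0_5 : Bx := Bx.mk (St.mk (I.pos (nat_lit 104808448) (nat_lit 178634752)) (I.mix (nat_lit 66568192) (nat_lit 10649600)) (I.neg (nat_lit 8863744) (nat_lit 76316672)) (I.pos (nat_lit 78839808) (nat_lit 156598272)) (I.mix (nat_lit 79970304) (nat_lit 40009728)) (I.mix (nat_lit 39616512) (nat_lit 69484544)) (I.mix (nat_lit 34324480) (nat_lit 72089600)))
  false (nat_lit 0)
def b0_6 : Bx := Bx.mk (St.mk (I.mix (nat_lit 31408128) (nat_lit 114950144)) (I.mix (nat_lit 32210944) (nat_lit 9125888)) (I.mix (nat_lit 30539776) (nat_lit 753664)) (I.pos (nat_lit 12992512) (nat_lit 78512128)) (I.mix (nat_lit 35651584) (nat_lit 25870336)) (I.mix (nat_lit 21774336) (nat_lit 35897344)) (I.mix (nat_lit 14417920) (nat_lit 23822336)))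
  false (nat_lit 0)
def b0_7 : Bx := Bx.mk (St.mk (I.pos (nat_lit 155123712) (nat_lit 225607680)) (I.mix (nat_lit 37879808) (nat_lit 63094784)) (I.mix (nat_lit 52412416) (nat_lit 83247104)) (I.pos (nat_lit 108527616) (nat_lit 226230272)) (I.mix (nat_lit 110936064) (nat_lit 43827200)) (I.mix (nat_lit 128385024) (nat_lit 70238208)) (I.mix (nat_lit 150355968) (nat_lit 78626816)))
  false (nat_lit 0)
def b0_8 : Bx := Bx.mk (St.mk (I.mix (nat_lit 27820032) (nat_lit 132349952)) (I.mix (nat_lit 15761408) (nat_lit 37208064)) (I.mix (nat_lit 19087360) (nat_lit 22052864)) (I.pos (nat_lit 13385728) (nat_lit 95764480)) (I.mix (nat_lit 40501248) (nat_lit 26689536)) (I.mix (nat_lit 45219840) (nat_lit 31653888)) (I.mix (nat_lit 28229632) (nat_lit 18628608)))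
  false (nat_lit 0)
def b0_9 : Bx := Bx.mk (St.mk (I.pos (nat_lit 110231552) (nat_lit 127008768)) (I.mix (nat_lit 2457600) (nat_lit 8192000)) (I.neg (nat_lit 1736704) (nat_lit 15515648)) (I.pos (nat_lit 64339968) (nat_lit 97681408)) (I.mix (nat_lit 5767168) (nat_lit 8568832)) (I.mix (nat_lit 5439488) (nat_lit 3883008)) (I.mix (nat_lit 4964352) (nat_lit 3588096)))
  false (nat_lit 0)
def t0 : BTr := (BTr.n (BTr.n (BTr.n (BTr.b b0_0) (BTr.b b0_1)) (BTr.n (BTr.b b0_2) (BTr.n (BTr.b b0_3) (BTr.b b0_4)))) (BTr.n (BTr.n (BTr.b b0_5) (BTr.b b0_6)) (BTr.n (BTr.b b0_7) (BTr.n (BTr.b b0_8) (BTr.b b0_9)))))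
namespace T0
def l0 : Tr := Tr.L (Pth.l (Pth.l (Pth.l Pth.z)))
def l1 : Tr := Tr.L (Pth.l (Pth.l (Pth.r Pth.z)))
def l2 : Tr := Tr.L (Pth.l (Pth.r (Pth.l Pth.z)))
def l3 : Tr := Tr.L (Pth.l (Pth.r (Pth.r (Pth.l Pth.z))))
def l4 : Tr := Tr.L (Pth.l (Pth.r (Pth.r (Pth.r Pth.z))))
def l5 : Tr := Tr.L (Pth.r (Pth.l (Pth.l Pth.z)))
def l6 : Tr := Tr.L (Pth.r (Pth.l (Pth.r Pth.z)))
def l7 : Tr := Tr.L (Pth.r (Pth.r (Pth.l Pth.z)))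
def l8 : Tr := Tr.L (Pth.r (Pth.r (Pth.r (Pth.l Pth.z))))
def l9 : Tr := Tr.L (Pth.r (Pth.r (Pth.r (Pth.r Pth.z))))
end T0
def b1_0 : Bx := Bx.mk (St.mk (I.pos (nat_lit 154140672) (nat_lit 273629184)) (I.mix (nat_lit 8110080) (nat_lit 51871744)) (I.mix (nat_lit 48005120) (nat_lit 77332480)) (I.pos (nat_lit 85229568) (nat_lit 301350912)) (I.mix (nat_lit 76595200) (nat_lit 46088192)) (I.mix (nat_lit 65060864) (nat_lit 41992192)) (I.mix (nat_lit 106856448) (nat_lit 62111744)))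
  false (nat_lit 0)
def b1_1 : Bx := Bx.mk (St.mk (I.mix (nat_lit 13369344) (nat_lit 146292736)) (I.mix (nat_lit 3457024) (nat_lit 27230208)) (I.mix (nat_lit 12910592) (nat_lit 18743296)) (I.mix (nat_lit 5718016) (nat_lit 91324416)) (I.mix (nat_lit 24264704) (nat_lit 20398080)) (I.mix (nat_lit 20824064) (nat_lit 14811136)) (I.mix (nat_lit 18317312) (nat_lit 11042816)))
  false (nat_lit 0)
def b1_2 : Bx := Bx.mk (St.mk (I.pos (nat_lit 119570432) (nat_lit 162168832)) (I.mix (nat_lit 54181888) (nat_lit 5406720)) (I.mix (nat_lit 65798144) (nat_lit 327680)) (I.pos (nat_lit 53657600) (nat_lit 114245632)) (I.mix (nat_lit 82919424) (nat_lit 21757952)) (I.mix (nat_lit 38797312) (nat_lit 87080960)) (I.mix (nat_lit 32604160) (nat_lit 83705856)))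
  false (nat_lit 0)
def b1_3 : Bx := Bx.mk (St.mk (I.mix (nat_lit 16089088) (nat_lit 123371520)) (I.mix (nat_lit 25034752) (nat_lit 1966080)) (I.mix (nat_lit 22364160) (nat_lit 1818624)) (I.mix (nat_lit 4308992) (nat_lit 66371584)) (I.mix (nat_lit 29425664) (nat_lit 10616832)) (I.mix (nat_lit 14614528) (nat_lit 28049408)) (I.mix (nat_lit 8536064) (nat_lit 18169856)))
  false (nat_lit 0)
def b1_4 : Bx := Bx.mk (St.mk (I.mix (nat_lit 13254656) (nat_lit 44302336)) (I.mix (nat_lit 753664) (nat_lit 3391488)) (I.mix (nat_lit 3178496) (nat_lit 737280)) (I.mix (nat_lit 1966080) (nat_lit 24887296)) (I.mix (nat_lit 1622016) (nat_lit 2998272)) (I.mix (nat_lit 1720320) (nat_lit 1540096)) (I.mix (nat_lit 655360) (nat_lit 655360)))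
  false (nat_lit 0)
def b1_5 : Bx := Bx.mk (St.mk (I.pos (nat_lit 113950720) (nat_lit 184598528)) (I.mix (nat_lit 63291392) (nat_lit 10436608)) (I.neg (nat_lit 5341184) (nat_lit 71041024)) (I.pos (nat_lit 69386240) (nat_lit 143310848)) (I.mix (nat_lit 79724544) (nat_lit 37126144)) (I.mix (nat_lit 41304064) (nat_lit 71794688)) (I.mix (nat_lit 35569664) (nat_lit 71254016)))
  false (nat_lit 0)
def b1_6 : Bx := Bx.mk (St.mk (I.mix (nat_lit 21741568) (nat_lit 120422400)) (I.mix (nat_lit 27688960) (nat_lit 7585792)) (I.mix (nat_lit 24870912) (nat_lit 1916928)) (I.mix (nat_lit 4407296) (nat_lit 67993600)) (I.mix (nat_lit 29704192) (nat_lit 26886144)) (I.mix (nat_lit 23101440) (nat_lit 34979840)) (I.mix (nat_lit 15269888) (nat_lit 26230784)))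
  false (nat_lit 0)
def b1_7 : Bx := Bx.mk (St.mk (I.pos (nat_lit 156729344) (nat_lit 226738176)) (I.mix (nat_lit 38797312) (nat_lit 59162624)) (I.mix (nat_lit 50855936) (nat_lit 85032960)) (I.pos (nat_lit 92667904) (nat_lit 208011264)) (I.mix (nat_lit 111493120) (nat_lit 42008576)) (I.mix (nat_lit 130416640) (nat_lit 67272704)) (I.mix (nat_lit 159072256) (nat_lit 78921728)))
  false (nat_lit 0)
def b1_8 : Bx := Bx.mk (St.mk (I.mix (nat_lit 18464768) (nat_lit 146554880)) (I.mix (nat_lit 15745024) (nat_lit 35651584)) (I.mix (nat_lit 17514496) (nat_lit 24133632)) (I.mix (nat_lit 5668864) (nat_lit 90324992)) (I.mix (nat_lit 42860544) (nat_lit 25001984)) (I.mix (nat_lit 45301760) (nat_lit 30162944)) (I.mix (nat_lit 32210944) (nat_lit 20119552)))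
  false (nat_lit 0)
def b1_9 : Bx := Bx.mk (St.mk (I.pos (nat_lit 120209408) (nat_lit 136380416)) (I.mix (nat_lit 2228224) (nat_lit 7356416)) (I.mix (nat_lit 11141120) (nat_lit 770048)) (I.pos (nat_lit 54247424) (nat_lit 87343104)) (I.mix (nat_lit 4882432) (nat_lit 7651328)) (I.mix (nat_lit 4620288) (nat_lit 3047424)) (I.mix (nat_lit 4456448) (nat_lit 2686976)))
  false (nat_lit 0)
def t1 : BTr := (BTr.n (BTr.n (BTr.n (BTr.b b1_0) (BTr.b b1_1)) (BTr.n (BTr.b b1_2) (BTr.n (BTr.b b1_3) (BTr.b b1_4)))) (BTr.n (BTr.n (BTr.b b1_5) (BTr.b b1_6)) (BTr.n (BTr.b b1_7) (BTr.n (BTr.b b1_8) (BTr.b b1_9)))))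
namespace T1
def l0 : Tr := Tr.L (Pth.l (Pth.l (Pth.l Pth.z)))
def l1 : Tr := Tr.L (Pth.l (Pth.l (Pth.r Pth.z)))
def l2 : Tr := Tr.L (Pth.l (Pth.r (Pth.l Pth.z)))
def l3 : Tr := Tr.L (Pth.l (Pth.r (Pth.r (Pth.l Pth.z))))
def l4 : Tr := Tr.L (Pth.l (Pth.r (Pth.r (Pth.r Pth.z))))
def l5 : Tr := Tr.L (Pth.r (Pth.l (Pth.l Pth.z)))
def l6 : Tr := Tr.L (Pth.r (Pth.l (Pth.r Pth.z)))
def l7 : Tr := Tr.L (Pth.r (Pth.r (Pth.l Pth.z)))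
def l8 : Tr := Tr.L (Pth.r (Pth.r (Pth.r (Pth.l Pth.z))))
def l9 : Tr := Tr.L (Pth.r (Pth.r (Pth.r (Pth.r Pth.z))))
end T1
def b2_0 : Bx := Bx.mk (St.mk (I.pos (nat_lit 153092096) (nat_lit 292225024)) (I.mix (nat_lit 29999104) (nat_lit 71188480)) (I.mix (nat_lit 113524736) (nat_lit 97730560)) (I.pos (nat_lit 225968128) (nat_lit 455737344)) (I.mix (nat_lit 82968576) (nat_lit 68550656)) (I.mix (nat_lit 88293376) (nat_lit 54476800)) (I.mix (nat_lit 132005888) (nat_lit 89194496)))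
  false (nat_lit 77841799)
def b2_1 : Bx := Bx.mk (St.mk (I.pos (nat_lit 21348352) (nat_lit 75071488)) (I.mix (nat_lit 10911744) (nat_lit 52592640)) (I.mix (nat_lit 27951104) (nat_lit 6291456)) (I.pos (nat_lit 140804096) (nat_lit 162430976)) (I.mix (nat_lit 24821760) (nat_lit 37273600)) (I.mix (nat_lit 39075840) (nat_lit 22298624)) (I.mix (nat_lit 20807680) (nat_lit 11714560)))
  false (nat_lit 0)
def b2_2 : Bx := Bx.mk (St.mk (I.pos (nat_lit 50151424) (nat_lit 107249664)) (I.mix (nat_lit 68747264) (nat_lit 14123008)) (I.neg (nat_lit 8863744) (nat_lit 61210624)) (I.pos (nat_lit 148733952) (nat_lit 186138624)) (I.mix (nat_lit 66371584) (nat_lit 25722880)) (I.mix (nat_lit 33144832) (nat_lit 70320128)) (I.mix (nat_lit 22904832) (nat_lit 43040768)))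
  false (nat_lit 0)
def b2_3 : Bx := Bx.mk (St.mk (I.neg (nat_lit 21331968) (nat_lit 75071488)) (I.mix (nat_lit 52592640) (nat_lit 10911744)) (I.mix (nat_lit 27951104) (nat_lit 6291456)) (I.pos (nat_lit 140804096) (nat_lit 162430976)) (I.mix (nat_lit 37273600) (nat_lit 24821760)) (I.mix (nat_lit 22298624) (nat_lit 39075840)) (I.mix (nat_lit 20807680) (nat_lit 11714560)))
  true (nat_lit 0)
def b2_4 : Bx := Bx.mk (St.mk (I.pos (nat_lit 75481088) (nat_lit 155959296)) (I.neg (nat_lit 4931584) (nat_lit 77250560)) (I.neg (nat_lit 966656) (nat_lit 71401472)) (I.pos (nat_lit 165232640) (nat_lit 231915520)) (I.mix (nat_lit 68485120) (nat_lit 43483136)) (I.mix (nat_lit 34717696) (nat_lit 66912256)) (I.mix (nat_lit 31899648) (nat_lit 57196544)))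
  false (nat_lit 0)
def b2_5 : Bx := Bx.mk (St.mk (I.mix (nat_lit 39075840) (nat_lit 9830400)) (I.mix (nat_lit 46841856) (nat_lit 10272768)) (I.mix (nat_lit 6766592) (nat_lit 2392064)) (I.pos (nat_lit 140066816) (nat_lit 150192128)) (I.mix (nat_lit 22528000) (nat_lit 30081024)) (I.mix (nat_lit 18546688) (nat_lit 35815424)) (I.mix (nat_lit 5210112) (nat_lit 4145152)))
  true (nat_lit 0)
def b2_6 : Bx := Bx.mk (St.mk (I.pos (nat_lit 124583936) (nat_lit 205815808)) (I.mix (nat_lit 42631168) (nat_lit 75726848)) (I.mix (nat_lit 40534016) (nat_lit 100499456)) (I.pos (nat_lit 197246976) (nat_lit 299876352)) (I.mix (nat_lit 107331584) (nat_lit 46579712)) (I.mix (nat_lit 125435904) (nat_lit 58802176)) (I.mix (nat_lit 129269760) (nat_lit 58245120)))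
  false (nat_lit 26482751)
def b2_7 : Bx := Bx.mk (St.mk (I.mix (nat_lit 9830400) (nat_lit 39075840)) (I.mix (nat_lit 10272768) (nat_lit 46841856)) (I.mix (nat_lit 6766592) (nat_lit 2392064)) (I.pos (nat_lit 140066816) (nat_lit 150192128)) (I.mix (nat_lit 30081024) (nat_lit 22528000)) (I.mix (nat_lit 35815424) (nat_lit 18546688)) (I.mix (nat_lit 5210112) (nat_lit 4145152)))
  false (nat_lit 0)
def t2 : BTr := (BTr.n (BTr.n (BTr.n (BTr.b b2_0) (BTr.b b2_1)) (BTr.n (BTr.b b2_2) (BTr.b b2_3))) (BTr.n (BTr.n (BTr.b b2_4) (BTr.b b2_5)) (BTr.n (BTr.b b2_6) (BTr.b b2_7))))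
namespace T2
def l0 : Tr := Tr.L (Pth.l (Pth.l (Pth.l Pth.z)))
def l1 : Tr := Tr.L (Pth.l (Pth.l (Pth.r Pth.z)))
def l2 : Tr := Tr.L (Pth.l (Pth.r (Pth.l Pth.z)))
def l3 : Tr := Tr.L (Pth.l (Pth.r (Pth.r Pth.z)))
def l4 : Tr := Tr.L (Pth.r (Pth.l (Pth.l Pth.z)))
def l5 : Tr := Tr.L (Pth.r (Pth.l (Pth.r Pth.z)))
def l6 : Tr := Tr.L (Pth.r (Pth.r (Pth.l Pth.z)))
def l7 : Tr := Tr.L (Pth.r (Pth.r (Pth.r Pth.z)))
end T2
def b3_0 : Bx := Bx.mk (St.mk (I.pos (nat_lit 153403392) (nat_lit 286801920)) (I.mix (nat_lit 20201472) (nat_lit 49528832)) (I.mix (nat_lit 19054592) (nat_lit 107298816)) (I.pos (nat_lit 83197952) (nat_lit 322748416)) (I.mix (nat_lit 79216640) (nat_lit 55164928)) (I.mix (nat_lit 88702976) (nat_lit 60145664)) (I.mix (nat_lit 144130048) (nat_lit 82608128)))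
  false (nat_lit 4001023)
def b3_1 : Bx := Bx.mk (St.mk (I.pos (nat_lit 124895232) (nat_lit 182009856)) (I.neg (nat_lit 786432) (nat_lit 61292544)) (I.mix (nat_lit 53100544) (nat_lit 6995968)) (I.pos (nat_lit 75988992) (nat_lit 139444224)) (I.mix (nat_lit 65060864) (nat_lit 30031872)) (I.mix (nat_lit 30064640) (nat_lit 51560448)) (I.mix (nat_lit 27115520) (nat_lit 50610176)))
  false (nat_lit 0)
def b3_2 : Bx := Bx.mk (St.mk (I.mix (nat_lit 24412160) (nat_lit 121274368)) (I.mix (nat_lit 30113792) (nat_lit 5570560)) (I.mix (nat_lit 16220160) (nat_lit 8028160)) (I.mix (nat_lit 4325376) (nat_lit 66584576)) (I.mix (nat_lit 24805376) (nat_lit 19152896)) (I.mix (nat_lit 17006592) (nat_lit 21643264)) (I.mix (nat_lit 10600448) (nat_lit 15056896)))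
  false (nat_lit 0)
def b3_3 : Bx := Bx.mk (St.mk (I.pos (nat_lit 164462592) (nat_lit 221069312)) (I.mix (nat_lit 33570816) (nat_lit 61636608)) (I.mix (nat_lit 19333120) (nat_lit 118030336)) (I.pos (nat_lit 103137280) (nat_lit 196608000)) (I.mix (nat_lit 117719040) (nat_lit 40239104)) (I.mix (nat_lit 137822208) (nat_lit 64307200)) (I.mix (nat_lit 187383808) (nat_lit 69615616)))
  false (nat_lit 0)
def b3_4 : Bx := Bx.mk (St.mk (I.mix (nat_lit 17760256) (nat_lit 141590528)) (I.mix (nat_lit 10993664) (nat_lit 35422208)) (I.mix (nat_lit 2555904) (nat_lit 36929536)) (I.mix (nat_lit 5439488) (nat_lit 86261760)) (I.mix (nat_lit 48660480) (nat_lit 20529152)) (I.mix (nat_lit 49086464) (nat_lit 27279360)) (I.mix (nat_lit 38060032) (nat_lit 17612800)))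
  false (nat_lit 0)
def b3_5 : Bx := Bx.mk (St.mk (I.pos (nat_lit 163692544) (nat_lit 184172544)) (I.neg (nat_lit 10108928) (nat_lit 37306368)) (I.mix (nat_lit 24756224) (nat_lit 7045120)) (I.pos (nat_lit 103628800) (nat_lit 143917056)) (I.mix (nat_lit 18595840) (nat_lit 14303232)) (I.mix (nat_lit 10518528) (nat_lit 13778944)) (I.mix (nat_lit 10829824) (nat_lit 15319040)))
  false (nat_lit 0)
def b3_6 : Bx := Bx.mk (St.mk (I.mix (nat_lit 18923520) (nat_lit 137936896)) (I.mix (nat_lit 12992512) (nat_lit 1736704)) (I.mix (nat_lit 3850240) (nat_lit 8044544)) (I.mix (nat_lit 4964352) (nat_lit 77840384)) (I.mix (nat_lit 4489216) (nat_lit 8110080)) (I.mix (nat_lit 3145728) (nat_lit 4292608)) (I.mix (nat_lit 1982464) (nat_lit 3391488)))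
  false (nat_lit 0)
def b3_7 : Bx := Bx.mk (St.mk (I.pos (nat_lit 41467904) (nat_lit 144490496)) (I.mix (nat_lit 8290304) (nat_lit 25362432)) (I.mix (nat_lit 1622016) (nat_lit 30998528)) (I.pos (nat_lit 8798208) (nat_lit 90931200)) (I.mix (nat_lit 28147712) (nat_lit 26001408)) (I.mix (nat_lit 38223872) (nat_lit 22724608)) (I.mix (nat_lit 33423360) (nat_lit 16744448)))
  false (nat_lit 0)
def b3_8 : Bx := Bx.mk (St.mk (I.pos (nat_lit 118095872) (nat_lit 169394176)) (I.mix (nat_lit 59260928) (nat_lit 11812864)) (I.mix (nat_lit 49037312) (nat_lit 20627456)) (I.pos (nat_lit 51675136) (nat_lit 120078336)) (I.mix (nat_lit 76218368) (nat_lit 25985024)) (I.mix (nat_lit 41811968) (nat_lit 79986688)) (I.mix (nat_lit 35389440) (nat_lit 67469312)))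
  false (nat_lit 0)
def b3_9 : Bx := Bx.mk (St.mk (I.mix (nat_lit 16334848) (nat_lit 127565824)) (I.mix (nat_lit 25722880) (nat_lit 5423104)) (I.mix (nat_lit 13189120) (nat_lit 8683520)) (I.mix (nat_lit 4456448) (nat_lit 68993024)) (I.mix (nat_lit 26066944) (nat_lit 17825792)) (I.mix (nat_lit 18366464) (nat_lit 28229632)) (I.mix (nat_lit 10256384) (nat_lit 16728064)))
  false (nat_lit 0)
def t3 : BTr := (BTr.n (BTr.n (BTr.n (BTr.b b3_0) (BTr.b b3_1)) (BTr.n (BTr.b b3_2) (BTr.n (BTr.b b3_3) (BTr.b b3_4)))) (BTr.n (BTr.n (BTr.b b3_5) (BTr.b b3_6)) (BTr.n (BTr.b b3_7) (BTr.n (BTr.b b3_8) (BTr.b b3_9)))))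
namespace T3
def l0 : Tr := Tr.L (Pth.l (Pth.l (Pth.l Pth.z)))
def l1 : Tr := Tr.L (Pth.l (Pth.l (Pth.r Pth.z)))
def l2 : Tr := Tr.L (Pth.l (Pth.r (Pth.l Pth.z)))
def l3 : Tr := Tr.L (Pth.l (Pth.r (Pth.r (Pth.l Pth.z))))
def l4 : Tr := Tr.L (Pth.l (Pth.r (Pth.r (Pth.r Pth.z))))
def l5 : Tr := Tr.L (Pth.r (Pth.l (Pth.l Pth.z)))
def l6 : Tr := Tr.L (Pth.r (Pth.l (Pth.r Pth.z)))
def l7 : Tr := Tr.L (Pth.r (Pth.r (Pth.l Pth.z)))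
def l8 : Tr := Tr.L (Pth.r (Pth.r (Pth.r (Pth.l Pth.z))))
def l9 : Tr := Tr.L (Pth.r (Pth.r (Pth.r (Pth.r Pth.z))))
end T3
def b4_0 : Bx := Bx.mk (St.mk (I.pos (nat_lit 153026560) (nat_lit 293470208)) (I.mix (nat_lit 23216128) (nat_lit 69058560)) (I.mix (nat_lit 85442560) (nat_lit 104316928)) (I.pos (nat_lit 225165312) (nat_lit 456032256)) (I.mix (nat_lit 84066304) (nat_lit 69582848)) (I.mix (nat_lit 89047040) (nat_lit 52854784)) (I.mix (nat_lit 131235840) (nat_lit 76890112)))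
  false (nat_lit 75246840)
def b4_1 : Bx := Bx.mk (St.mk (I.pos (nat_lit 78331904) (nat_lit 156925952)) (I.neg (nat_lit 4227072) (nat_lit 76808192)) (I.mix (nat_lit 64421888) (nat_lit 8060928)) (I.pos (nat_lit 167116800) (nat_lit 232652800)) (I.mix (nat_lit 65847296) (nat_lit 43220992)) (I.mix (nat_lit 35504128) (nat_lit 63356928)) (I.mix (nat_lit 32292864) (nat_lit 53739520)))
  false (nat_lit 0)
def b4_2 : Bx := Bx.mk (St.mk (I.mix (nat_lit 37011456) (nat_lit 10272768)) (I.mix (nat_lit 46743552) (nat_lit 10141696)) (I.mix (nat_lit 1785856) (nat_lit 7421952)) (I.pos (nat_lit 139853824) (nat_lit 149504000)) (I.mix (nat_lit 20250624) (nat_lit 32047104)) (I.mix (nat_lit 18694144) (nat_lit 35553280)) (I.mix (nat_lit 4620288) (nat_lit 4030464)))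
  true (nat_lit 0)
def b4_3 : Bx := Bx.mk (St.mk (I.pos (nat_lit 124633088) (nat_lit 204095488)) (I.mix (nat_lit 41779200) (nat_lit 74219520)) (I.mix (nat_lit 33341440) (nat_lit 108331008)) (I.pos (nat_lit 197214208) (nat_lit 296222720)) (I.mix (nat_lit 105070592) (nat_lit 44744704)) (I.mix (nat_lit 124813312) (nat_lit 59015168)) (I.mix (nat_lit 130580480) (nat_lit 59310080)))
  false (nat_lit 14593020)
def b4_4 : Bx := Bx.mk (St.mk (I.mix (nat_lit 10272768) (nat_lit 37011456)) (I.mix (nat_lit 10141696) (nat_lit 46743552)) (I.mix (nat_lit 1785856) (nat_lit 7421952)) (I.pos (nat_lit 139853824) (nat_lit 149504000)) (I.mix (nat_lit 32047104) (nat_lit 20250624)) (I.mix (nat_lit 35553280) (nat_lit 18694144)) (I.mix (nat_lit 4620288) (nat_lit 4030464)))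
  false (nat_lit 0)
def b4_5 : Bx := Bx.mk (St.mk (I.pos (nat_lit 18956288) (nat_lit 74792960)) (I.mix (nat_lit 10223616) (nat_lit 52854784)) (I.mix (nat_lit 22331392) (nat_lit 11829248)) (I.pos (nat_lit 140197888) (nat_lit 162152448)) (I.mix (nat_lit 26836992) (nat_lit 35045376)) (I.mix (nat_lit 39600128) (nat_lit 22183936)) (I.mix (nat_lit 20447232) (nat_lit 12288000)))
  false (nat_lit 0)
def b4_6 : Bx := Bx.mk (St.mk (I.pos (nat_lit 50413568) (nat_lit 109625344)) (I.mix (nat_lit 70221824) (nat_lit 13664256)) (I.neg (nat_lit 4096000) (nat_lit 55853056)) (I.pos (nat_lit 148996096) (nat_lit 187498496)) (I.mix (nat_lit 62783488) (nat_lit 27082752)) (I.mix (nat_lit 32423936) (nat_lit 68730880)) (I.mix (nat_lit 22151168) (nat_lit 41369600)))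
  false (nat_lit 0)
def b4_7 : Bx := Bx.mk (St.mk (I.neg (nat_lit 18956288) (nat_lit 74792960)) (I.mix (nat_lit 52854784) (nat_lit 10223616)) (I.mix (nat_lit 22331392) (nat_lit 11829248)) (I.pos (nat_lit 140197888) (nat_lit 162152448)) (I.mix (nat_lit 35045376) (nat_lit 26836992)) (I.mix (nat_lit 22183936) (nat_lit 39600128)) (I.mix (nat_lit 20447232) (nat_lit 12288000)))
  true (nat_lit 0)
def t4 : BTr := (BTr.n (BTr.n (BTr.n (BTr.b b4_0) (BTr.b b4_1)) (BTr.n (BTr.b b4_2) (BTr.b b4_3))) (BTr.n (BTr.n (BTr.b b4_4) (BTr.b b4_5)) (BTr.n (BTr.b b4_6) (BTr.b b4_7))))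
namespace T4
def l0 : Tr := Tr.L (Pth.l (Pth.l (Pth.l Pth.z)))
def l1 : Tr := Tr.L (Pth.l (Pth.l (Pth.r Pth.z)))
def l2 : Tr := Tr.L (Pth.l (Pth.r (Pth.l Pth.z)))
def l3 : Tr := Tr.L (Pth.l (Pth.r (Pth.r Pth.z)))
def l4 : Tr := Tr.L (Pth.r (Pth.l (Pth.l Pth.z)))
def l5 : Tr := Tr.L (Pth.r (Pth.l (Pth.r Pth.z)))
def l6 : Tr := Tr.L (Pth.r (Pth.r (Pth.l Pth.z)))
def l7 : Tr := Tr.L (Pth.r (Pth.r (Pth.r Pth.z)))
end T4
def b5_0 : Bx := Bx.mk (St.mk (I.pos (nat_lit 153305088) (nat_lit 288374784)) (I.mix (nat_lit 22167552) (nat_lit 51658752)) (I.mix (nat_lit 21872640) (nat_lit 113393664)) (I.pos (nat_lit 102154240) (nat_lit 343654400)) (I.mix (nat_lit 76120064) (nat_lit 57163776)) (I.mix (nat_lit 90488832) (nat_lit 60932096)) (I.mix (nat_lit 143196160) (nat_lit 81035264)))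
  false (nat_lit 38486706)
def b5_1 : Bx := Bx.mk (St.mk (I.pos (nat_lit 118554624) (nat_lit 178405376)) (I.neg (nat_lit 3588096) (nat_lit 64438272)) (I.mix (nat_lit 52314112) (nat_lit 10616832)) (I.pos (nat_lit 87097344) (nat_lit 155320320)) (I.mix (nat_lit 66142208) (nat_lit 32374784)) (I.mix (nat_lit 31096832) (nat_lit 51298304)) (I.mix (nat_lit 28377088) (nat_lit 48480256)))
  false (nat_lit 0)
def b5_2 : Bx := Bx.mk (St.mk (I.mix (nat_lit 23887872) (nat_lit 117129216)) (I.mix (nat_lit 32702464) (nat_lit 2686976)) (I.mix (nat_lit 13582336) (nat_lit 10141696)) (I.pos (nat_lit 13418496) (nat_lit 80068608)) (I.mix (nat_lit 24363008) (nat_lit 21676032)) (I.mix (nat_lit 18579456) (nat_lit 22593536)) (I.mix (nat_lit 10240000) (nat_lit 14123008)))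
  false (nat_lit 0)
def b5_3 : Bx := Bx.mk (St.mk (I.pos (nat_lit 159432704) (nat_lit 218791936)) (I.mix (nat_lit 34455552) (nat_lit 65126400)) (I.mix (nat_lit 15269888) (nat_lit 124698624)) (I.pos (nat_lit 115441664) (nat_lit 210468864)) (I.mix (nat_lit 121290752) (nat_lit 39763968)) (I.mix (nat_lit 138887168) (nat_lit 66191360)) (I.mix (nat_lit 183156736) (nat_lit 69337088)))
  false (nat_lit 26984576)
def b5_4 : Bx := Bx.mk (St.mk (I.mix (nat_lit 27410432) (nat_lit 128499712)) (I.mix (nat_lit 10616832) (nat_lit 37322752)) (I.mix (nat_lit 1785856) (nat_lit 38125568)) (I.pos (nat_lit 13418496) (nat_lit 93454336)) (I.mix (nat_lit 48300032) (nat_lit 20054016)) (I.mix (nat_lit 46858240) (nat_lit 27885568)) (I.mix (nat_lit 32473088) (nat_lit 17416192)))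
  false (nat_lit 0)
def b5_5 : Bx := Bx.mk (St.mk (I.mix (nat_lit 28934144) (nat_lit 123076608)) (I.mix (nat_lit 14450688) (nat_lit 2850816)) (I.mix (nat_lit 1458176) (nat_lit 10567680)) (I.pos (nat_lit 14352384) (nat_lit 83869696)) (I.mix (nat_lit 4456448) (nat_lit 8765440)) (I.mix (nat_lit 3588096) (nat_lit 5128192)) (I.mix (nat_lit 2211840) (nat_lit 3457024)))
  false (nat_lit 0)
def b5_6 : Bx := Bx.mk (St.mk (I.pos (nat_lit 108806144) (nat_lit 162971648)) (I.mix (nat_lit 61358080) (nat_lit 12402688)) (I.mix (nat_lit 46120960) (nat_lit 21168128)) (I.pos (nat_lit 62324736) (nat_lit 131022848)) (I.mix (nat_lit 73646080) (nat_lit 27033600)) (I.mix (nat_lit 43532288) (nat_lit 77381632)) (I.mix (nat_lit 33243136) (nat_lit 59457536)))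
  false (nat_lit 0)
def b5_7 : Bx := Bx.mk (St.mk (I.pos (nat_lit 159039488) (nat_lit 179011584)) (I.neg (nat_lit 12468224) (nat_lit 37339136)) (I.mix (nat_lit 20561920) (nat_lit 9486336)) (I.pos (nat_lit 116064256) (nat_lit 155713536)) (I.mix (nat_lit 16678912) (nat_lit 14008320)) (I.mix (nat_lit 9273344) (nat_lit 10534912)) (I.mix (nat_lit 8536064) (nat_lit 10993664)))
  false (nat_lit 0)
def b5_8 : Bx := Bx.mk (St.mk (I.mix (nat_lit 23560192) (nat_lit 164806656)) (I.mix (nat_lit 8437760) (nat_lit 31178752)) (I.mix (nat_lit 1572864) (nat_lit 35192832)) (I.pos (nat_lit 11517952) (nat_lit 116637696)) (I.mix (nat_lit 38060032) (nat_lit 27574272)) (I.mix (nat_lit 39157760) (nat_lit 23281664)) (I.mix (nat_lit 31571968) (nat_lit 17235968)))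
  false (nat_lit 0)
def b5_9 : Bx := Bx.mk (St.mk (I.mix (nat_lit 22708224) (nat_lit 114458624)) (I.mix (nat_lit 31113216) (nat_lit 6258688)) (I.mix (nat_lit 13582336) (nat_lit 11599872)) (I.pos (nat_lit 14319616) (nat_lit 77643776)) (I.mix (nat_lit 25182208) (nat_lit 20283392)) (I.mix (nat_lit 19939328) (nat_lit 28966912)) (I.mix (nat_lit 9338880) (nat_lit 14221312)))
  false (nat_lit 0)
def t5 : BTr := (BTr.n (BTr.n (BTr.n (BTr.b b5_0) (BTr.b b5_1)) (BTr.n (BTr.b b5_2) (BTr.n (BTr.b b5_3) (BTr.b b5_4)))) (BTr.n (BTr.n (BTr.b b5_5) (BTr.b b5_6)) (BTr.n (BTr.b b5_7) (BTr.n (BTr.b b5_8) (BTr.b b5_9)))))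
namespace T5
def l0 : Tr := Tr.L (Pth.l (Pth.l (Pth.l Pth.z)))
def l1 : Tr := Tr.L (Pth.l (Pth.l (Pth.r Pth.z)))
def l2 : Tr := Tr.L (Pth.l (Pth.r (Pth.l Pth.z)))
def l3 : Tr := Tr.L (Pth.l (Pth.r (Pth.r (Pth.l Pth.z))))
def l4 : Tr := Tr.L (Pth.l (Pth.r (Pth.r (Pth.r Pth.z))))
def l5 : Tr := Tr.L (Pth.r (Pth.l (Pth.l Pth.z)))
def l6 : Tr := Tr.L (Pth.r (Pth.l (Pth.r Pth.z)))
def l7 : Tr := Tr.L (Pth.r (Pth.r (Pth.l Pth.z)))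
def l8 : Tr := Tr.L (Pth.r (Pth.r (Pth.r (Pth.l Pth.z))))
def l9 : Tr := Tr.L (Pth.r (Pth.r (Pth.r (Pth.r Pth.z))))
end T5
theorem bx0_0 : BoxOK sI cl5 cl9 cl13 t2 t4 b0_0 :=
  box_mk (TrL.c (I.pos (nat_lit 0) (nat_lit 0)) (xa (xa T2.l0 T2.l0) (xa T2.l0 (xb T2.l0 T2.l0)))
  (TrL.c (I.pos (nat_lit 0) (nat_lit 0)) T4.l1
  (TrL.c (I.pos (nat_lit 0) (nat_lit 0)) T2.l1
  (TrL.c (I.pos (nat_lit 0) (nat_lit 0)) T4.l2
  (TrL.c (I.pos (nat_lit 0) (nat_lit 0)) (xa T4.l3 (xa T4.l3 (xb T4.l3 (xs T4.l3 T4.l3))))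
  (TrL.c (I.pos (nat_lit 0) (nat_lit 0)) T2.l2
  (TrL.c (I.pos (nat_lit 0) (nat_lit 0)) T4.l4
  (TrL.c (I.pos (nat_lit 0) (nat_lit 0)) T2.l3
  TrL.n)))))))) (by decide +kernel)
theorem bx0_1 : BoxOK sI cl5 cl9 cl13 t2 t4 b0_1 :=
  box_mk (TrL.c (I.pos (nat_lit 0) (nat_lit 0)) (xa T2.l0 T2.l0)
  (TrL.c (I.pos (nat_lit 0) (nat_lit 0)) T4.l1
  (TrL.c (I.pos (nat_lit 0) (nat_lit 0)) T2.l1
  (TrL.c (I.pos (nat_lit 0) (nat_lit 0)) T4.l2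
  (TrL.c (I.pos (nat_lit 0) (nat_lit 0)) T4.l3
  (TrL.c (I.pos (nat_lit 0) (nat_lit 0)) T2.l2
  (TrL.c (I.pos (nat_lit 0) (nat_lit 0)) T4.l4
  (TrL.c (I.pos (nat_lit 0) (nat_lit 0)) T2.l3
  TrL.n)))))))) (by decide +kernel)
theorem bx0_2 : BoxOK sI cl5 cl9 cl13 t2 t4 b0_2 :=
  box_mk (TrL.c (I.pos (nat_lit 0) (nat_lit 0)) T2.l0
  (TrL.c (I.pos (nat_lit 0) (nat_lit 0)) T4.l1
  (TrL.c (I.pos (nat_lit 0) (nat_lit 0)) T2.l1
  (TrL.c (I.pos (nat_lit 0) (nat_lit 0)) T4.l2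
  (TrL.c (I.pos (nat_lit 0) (nat_lit 0)) T4.l3
  (TrL.c (I.pos (nat_lit 0) (nat_lit 0)) T2.l2
  (TrL.c (I.pos (nat_lit 0) (nat_lit 0)) T4.l4
  (TrL.c (I.pos (nat_lit 0) (nat_lit 0)) T2.l3
  TrL.n)))))))) (by decide +kernel)
theorem bx0_3 : BoxOK sI cl5 cl9 cl13 t2 t4 b0_3 :=
  box_mk (TrL.c (I.pos (nat_lit 0) (nat_lit 0)) T2.l0
  (TrL.c (I.pos (nat_lit 0) (nat_lit 0)) T4.l1
  (TrL.c (I.pos (nat_lit 0) (nat_lit 0)) T2.l1
  (TrL.c (I.pos (nat_lit 0) (nat_lit 0)) T4.l2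
  (TrL.c (I.pos (nat_lit 0) (nat_lit 0)) T4.l3
  (TrL.c (I.pos (nat_lit 0) (nat_lit 0)) T2.l2
  (TrL.c (I.pos (nat_lit 0) (nat_lit 0)) T4.l4
  (TrL.c (I.pos (nat_lit 0) (nat_lit 0)) T2.l3
  TrL.n)))))))) (by decide +kernel)
theorem bx0_4 : BoxOK sI cl5 cl9 cl13 t2 t4 b0_4 :=
  box_mk (TrL.c (I.pos (nat_lit 0) (nat_lit 0)) T2.l0
  (TrL.c (I.pos (nat_lit 0) (nat_lit 0)) T4.l1
  (TrL.c (I.pos (nat_lit 0) (nat_lit 0)) T2.l1
  (TrL.c (I.pos (nat_lit 0) (nat_lit 0)) T4.l2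
  (TrL.c (I.pos (nat_lit 0) (nat_lit 0)) T4.l3
  (TrL.c (I.pos (nat_lit 0) (nat_lit 0)) T2.l2
  (TrL.c (I.pos (nat_lit 0) (nat_lit 0)) T4.l4
  (TrL.c (I.pos (nat_lit 0) (nat_lit 0)) T2.l3
  TrL.n)))))))) (by decide +kernel)
theorem bx0_5 : BoxOK sI cl5 cl9 cl13 t2 t4 b0_5 :=
  box_mk (TrL.c (I.pos (nat_lit 0) (nat_lit 0)) T2.l0
  (TrL.c (I.pos (nat_lit 0) (nat_lit 0)) T4.l1
  (TrL.c (I.pos (nat_lit 0) (nat_lit 0)) T2.l1
  (TrL.c (I.pos (nat_lit 0) (nat_lit 0)) T4.l2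
  (TrL.c (I.pos (nat_lit 0) (nat_lit 0)) T4.l0
  (TrL.c (I.pos (nat_lit 0) (nat_lit 0)) T2.l2
  (TrL.c (I.pos (nat_lit 0) (nat_lit 0)) T4.l4
  (TrL.c (I.pos (nat_lit 0) (nat_lit 0)) T2.l3
  TrL.n)))))))) (by decide +kernel)
theorem bx0_6 : BoxOK sI cl5 cl9 cl13 t2 t4 b0_6 :=
  box_mk (TrL.c (I.pos (nat_lit 0) (nat_lit 0)) (xa T2.l0 T2.l0)
  (TrL.c (I.pos (nat_lit 0) (nat_lit 0)) T4.l1
  (TrL.c (I.pos (nat_lit 0) (nat_lit 0)) T2.l1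
  (TrL.c (I.pos (nat_lit 0) (nat_lit 0)) T4.l2
  (TrL.c (I.pos (nat_lit 0) (nat_lit 0)) (xa T4.l3 T4.l3)
  (TrL.c (I.pos (nat_lit 0) (nat_lit 0)) T2.l2
  (TrL.c (I.pos (nat_lit 0) (nat_lit 0)) T4.l4
  (TrL.c (I.pos (nat_lit 0) (nat_lit 0)) T2.l3
  TrL.n)))))))) (by decide +kernel)
theorem bx0_7 : BoxOK sI cl5 cl9 cl13 t2 t4 b0_7 :=
  box_mk (TrL.c (I.pos (nat_lit 0) (nat_lit 0)) (xb (xa T2.l0 T2.l0) (xa (xa T2.l0 T2.l0) (xa T2.l0 T2.l0)))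
  (TrL.c (I.pos (nat_lit 0) (nat_lit 0)) T4.l1
  (TrL.c (I.pos (nat_lit 0) (nat_lit 0)) T2.l1
  (TrL.c (I.pos (nat_lit 0) (nat_lit 0)) T4.l2
  (TrL.c (I.pos (nat_lit 0) (nat_lit 0)) (xb (xa T4.l3 T4.l3) (xa T4.l3 T4.l3))
  (TrL.c (I.pos (nat_lit 0) (nat_lit 0)) T2.l2
  (TrL.c (I.pos (nat_lit 0) (nat_lit 0)) T4.l4
  (TrL.c (I.pos (nat_lit 0) (nat_lit 0)) T2.l3
  TrL.n)))))))) (by decide +kernel)
theorem bx0_8 : BoxOK sI cl5 cl9 cl13 t2 t4 b0_8 :=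
  box_mk (TrL.c (I.pos (nat_lit 0) (nat_lit 0)) (xa T2.l0 T2.l0)
  (TrL.c (I.pos (nat_lit 0) (nat_lit 0)) T4.l1
  (TrL.c (I.pos (nat_lit 0) (nat_lit 0)) T2.l1
  (TrL.c (I.pos (nat_lit 0) (nat_lit 0)) T4.l2
  (TrL.c (I.pos (nat_lit 0) (nat_lit 0)) T4.l3
  (TrL.c (I.pos (nat_lit 0) (nat_lit 0)) T2.l2
  (TrL.c (I.pos (nat_lit 0) (nat_lit 0)) T4.l4
  (TrL.c (I.pos (nat_lit 0) (nat_lit 0)) T2.l3
  TrL.n)))))))) (by decide +kernel)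
theorem bx0_9 : BoxOK sI cl5 cl9 cl13 t2 t4 b0_9 :=
  box_mk (TrL.c (I.pos (nat_lit 0) (nat_lit 0)) T2.l0
  (TrL.c (I.pos (nat_lit 0) (nat_lit 0)) T4.l1
  (TrL.c (I.pos (nat_lit 0) (nat_lit 0)) T2.l1
  (TrL.c (I.pos (nat_lit 0) (nat_lit 0)) T4.l2
  (TrL.c (I.pos (nat_lit 0) (nat_lit 0)) T4.l3
  (TrL.c (I.pos (nat_lit 0) (nat_lit 0)) T2.l2
  (TrL.c (I.pos (nat_lit 0) (nat_lit 0)) T4.l4
  (TrL.c (I.pos (nat_lit 0) (nat_lit 0)) T2.l3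
  TrL.n)))))))) (by decide +kernel)
theorem sv0 : StarV sI cl5 cl9 cl13 t2 t4 t0 :=
  (bt_n (bt_n (bt_n (bt_b bx0_0) (bt_b bx0_1)) (bt_n (bt_b bx0_2) (bt_n (bt_b bx0_3) (bt_b bx0_4)))) (bt_n (bt_n (bt_b bx0_5) (bt_b bx0_6)) (bt_n (bt_b bx0_7) (bt_n (bt_b bx0_8) (bt_b bx0_9)))))
def S0 : StarD := StarD.mk cl5 cl9 cl13 2 4 t0
theorem bx1_0 : BoxOK sI cl5 cl13 cl9 t4 t2 b1_0 :=
  box_mk (TrL.c (I.pos (nat_lit 0) (nat_lit 0)) (xa (xa T4.l0 T4.l0) (xa T4.l0 (xb T4.l0 T4.l0)))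
  (TrL.c (I.pos (nat_lit 0) (nat_lit 0)) T2.l4
  (TrL.c (I.pos (nat_lit 0) (nat_lit 0)) T4.l5
  (TrL.c (I.pos (nat_lit 0) (nat_lit 0)) T2.l5
  (TrL.c (I.pos (nat_lit 0) (nat_lit 0)) (xa T2.l6 (xa T2.l6 (xb T2.l6 T2.l6)))
  (TrL.c (I.pos (nat_lit 0) (nat_lit 0)) T4.l6
  (TrL.c (I.pos (nat_lit 0) (nat_lit 0)) T2.l7
  (TrL.c (I.pos (nat_lit 0) (nat_lit 0)) T4.l7
  TrL.n)))))))) (by decide +kernel)
theorem bx1_1 : BoxOK sI cl5 cl13 cl9 t4 t2 b1_1 :=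
  box_mk (TrL.c (I.pos (nat_lit 0) (nat_lit 0)) (xa T4.l0 T4.l0)
  (TrL.c (I.pos (nat_lit 0) (nat_lit 0)) T2.l4
  (TrL.c (I.pos (nat_lit 0) (nat_lit 0)) T4.l5
  (TrL.c (I.pos (nat_lit 0) (nat_lit 0)) T2.l5
  (TrL.c (I.pos (nat_lit 0) (nat_lit 0)) T2.l6
  (TrL.c (I.pos (nat_lit 0) (nat_lit 0)) T4.l6
  (TrL.c (I.pos (nat_lit 0) (nat_lit 0)) T2.l7
  (TrL.c (I.pos (nat_lit 0) (nat_lit 0)) T4.l7
  TrL.n)))))))) (by decide +kernel)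
theorem bx1_2 : BoxOK sI cl5 cl13 cl9 t4 t2 b1_2 :=
  box_mk (TrL.c (I.pos (nat_lit 0) (nat_lit 0)) T4.l0
  (TrL.c (I.pos (nat_lit 0) (nat_lit 0)) T2.l4
  (TrL.c (I.pos (nat_lit 0) (nat_lit 0)) T4.l5
  (TrL.c (I.pos (nat_lit 0) (nat_lit 0)) T2.l5
  (TrL.c (I.pos (nat_lit 0) (nat_lit 0)) T2.l6
  (TrL.c (I.pos (nat_lit 0) (nat_lit 0)) T4.l6
  (TrL.c (I.pos (nat_lit 0) (nat_lit 0)) T2.l7
  (TrL.c (I.pos (nat_lit 0) (nat_lit 0)) T4.l7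
  TrL.n)))))))) (by decide +kernel)
theorem bx1_3 : BoxOK sI cl5 cl13 cl9 t4 t2 b1_3 :=
  box_mk (TrL.c (I.pos (nat_lit 0) (nat_lit 0)) T4.l0
  (TrL.c (I.pos (nat_lit 0) (nat_lit 0)) T2.l4
  (TrL.c (I.pos (nat_lit 0) (nat_lit 0)) T4.l5
  (TrL.c (I.pos (nat_lit 0) (nat_lit 0)) T2.l5
  (TrL.c (I.pos (nat_lit 0) (nat_lit 0)) T2.l6
  (TrL.c (I.pos (nat_lit 0) (nat_lit 0)) T4.l6
  (TrL.c (I.pos (nat_lit 0) (nat_lit 0)) T2.l7
  (TrL.c (I.pos (nat_lit 0) (nat_lit 0)) T4.l7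
  TrL.n)))))))) (by decide +kernel)
theorem bx1_4 : BoxOK sI cl5 cl13 cl9 t4 t2 b1_4 :=
  box_mk (TrL.c (I.pos (nat_lit 0) (nat_lit 0)) T4.l0
  (TrL.c (I.pos (nat_lit 0) (nat_lit 0)) T2.l4
  (TrL.c (I.pos (nat_lit 0) (nat_lit 0)) T4.l5
  (TrL.c (I.pos (nat_lit 0) (nat_lit 0)) T2.l5
  (TrL.c (I.pos (nat_lit 0) (nat_lit 0)) T2.l6
  (TrL.c (I.pos (nat_lit 0) (nat_lit 0)) T4.l6
  (TrL.c (I.pos (nat_lit 0) (nat_lit 0)) T2.l7
  (TrL.c (I.pos (nat_lit 0) (nat_lit 0)) T4.l7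
  TrL.n)))))))) (by decide +kernel)
theorem bx1_5 : BoxOK sI cl5 cl13 cl9 t4 t2 b1_5 :=
  box_mk (TrL.c (I.pos (nat_lit 0) (nat_lit 0)) T4.l0
  (TrL.c (I.pos (nat_lit 0) (nat_lit 0)) T2.l4
  (TrL.c (I.pos (nat_lit 0) (nat_lit 0)) T4.l5
  (TrL.c (I.pos (nat_lit 0) (nat_lit 0)) T2.l5
  (TrL.c (I.pos (nat_lit 0) (nat_lit 0)) T2.l6
  (TrL.c (I.pos (nat_lit 0) (nat_lit 0)) T4.l6
  (TrL.c (I.pos (nat_lit 0) (nat_lit 0)) T2.l7
  (TrL.c (I.pos (nat_lit 0) (nat_lit 0)) T4.l7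
  TrL.n)))))))) (by decide +kernel)
theorem bx1_6 : BoxOK sI cl5 cl13 cl9 t4 t2 b1_6 :=
  box_mk (TrL.c (I.pos (nat_lit 0) (nat_lit 0)) (xa (xa (xa (xb T4.l0 T4.l0) T4.l0) T4.l0) T4.l0)
  (TrL.c (I.pos (nat_lit 0) (nat_lit 0)) T2.l4
  (TrL.c (I.pos (nat_lit 0) (nat_lit 0)) T4.l5
  (TrL.c (I.pos (nat_lit 0) (nat_lit 0)) T2.l5
  (TrL.c (I.pos (nat_lit 0) (nat_lit 0)) T2.l6
  (TrL.c (I.pos (nat_lit 0) (nat_lit 0)) T4.l6
  (TrL.c (I.pos (nat_lit 0) (nat_lit 0)) T2.l7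
  (TrL.c (I.pos (nat_lit 0) (nat_lit 0)) T4.l7
  TrL.n)))))))) (by decide +kernel)
theorem bx1_7 : BoxOK sI cl5 cl13 cl9 t4 t2 b1_7 :=
  box_mk (TrL.c (I.pos (nat_lit 0) (nat_lit 0)) (xa (xb (xa T4.l0 T4.l0) (xa T4.l0 T4.l0)) (xb T4.l0 (xa T4.l0 T4.l0)))
  (TrL.c (I.pos (nat_lit 0) (nat_lit 0)) T2.l4
  (TrL.c (I.pos (nat_lit 0) (nat_lit 0)) T4.l5
  (TrL.c (I.pos (nat_lit 0) (nat_lit 0)) T2.l5
  (TrL.c (I.pos (nat_lit 0) (nat_lit 0)) (xb (xa T2.l6 T2.l6) (xa T2.l6 T2.l6))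
  (TrL.c (I.pos (nat_lit 0) (nat_lit 0)) T4.l6
  (TrL.c (I.pos (nat_lit 0) (nat_lit 0)) T2.l7
  (TrL.c (I.pos (nat_lit 0) (nat_lit 0)) T4.l7
  TrL.n)))))))) (by decide +kernel)
theorem bx1_8 : BoxOK sI cl5 cl13 cl9 t4 t2 b1_8 :=
  box_mk (TrL.c (I.pos (nat_lit 0) (nat_lit 0)) (xa T4.l0 T4.l0)
  (TrL.c (I.pos (nat_lit 0) (nat_lit 0)) (xa T2.l4 T2.l4)
  (TrL.c (I.pos (nat_lit 0) (nat_lit 0)) T4.l5
  (TrL.c (I.pos (nat_lit 0) (nat_lit 0)) T2.l5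
  (TrL.c (I.pos (nat_lit 0) (nat_lit 0)) T2.l6
  (TrL.c (I.pos (nat_lit 0) (nat_lit 0)) T4.l6
  (TrL.c (I.pos (nat_lit 0) (nat_lit 0)) T2.l7
  (TrL.c (I.pos (nat_lit 0) (nat_lit 0)) T4.l7
  TrL.n)))))))) (by decide +kernel)
theorem bx1_9 : BoxOK sI cl5 cl13 cl9 t4 t2 b1_9 :=
  box_mk (TrL.c (I.pos (nat_lit 0) (nat_lit 0)) T4.l0
  (TrL.c (I.pos (nat_lit 0) (nat_lit 0)) T2.l4
  (TrL.c (I.pos (nat_lit 0) (nat_lit 0)) T4.l5
  (TrL.c (I.pos (nat_lit 0) (nat_lit 0)) T2.l5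
  (TrL.c (I.pos (nat_lit 0) (nat_lit 0)) T2.l6
  (TrL.c (I.pos (nat_lit 0) (nat_lit 0)) T4.l6
  (TrL.c (I.pos (nat_lit 0) (nat_lit 0)) T2.l7
  (TrL.c (I.pos (nat_lit 0) (nat_lit 0)) T4.l7
  TrL.n)))))))) (by decide +kernel)
theorem sv1 : StarV sI cl5 cl13 cl9 t4 t2 t1 :=
  (bt_n (bt_n (bt_n (bt_b bx1_0) (bt_b bx1_1)) (bt_n (bt_b bx1_2) (bt_n (bt_b bx1_3) (bt_b bx1_4)))) (bt_n (bt_n (bt_b bx1_5) (bt_b bx1_6)) (bt_n (bt_b bx1_7) (bt_n (bt_b bx1_8) (bt_b bx1_9)))))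
def S1 : StarD := StarD.mk cl5 cl13 cl9 4 2 t1
theorem bx2_0 : BoxOK sI cl9 cl5 cl13 t0 t5 b2_0 :=
  box_mk (TrL.c (I.pos (nat_lit 0) (nat_lit 0)) (xa (xa (xb T0.l0 T0.l0) (xb T0.l0 T0.l0)) (xa (xb T0.l0 T0.l0) T0.l7))
  (TrL.c (I.pos (nat_lit 0) (nat_lit 0)) T5.l1
  (TrL.c (I.pos (nat_lit 0) (nat_lit 124588530)) (xR T0.l1 T0.l8)
  (TrL.c (I.pos (nat_lit 0) (nat_lit 96881482)) T5.l2
  (TrL.c (I.pos (nat_lit 0) (nat_lit 0)) (xa (xb (xa T5.l3 (xk T5.l3 T5.l3)) T5.l3) (xb (xa (xk T5.l3 T5.l3) (xk (xb (xs T5.l3 T5.l3) T5.l3) (xb (xs T5.l3 T5.l3) T5.l3))) (xk (xa T5.l3 (xs (xa T5.l3 T5.l3) (xb T5.l3 T5.l3))) (xa T5.l3 (xs (xa T5.l3 T5.l3) (xa T5.l3 T5.l3))))))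
  (TrL.c (I.pos (nat_lit 0) (nat_lit 0)) T0.l2
  (TrL.c (I.mix (nat_lit 17240550) (nat_lit 96881482)) (xR T5.l4 T5.l4)
  (TrL.c (I.mix (nat_lit 17240550) (nat_lit 71940500)) T0.l6
  TrL.n)))))))) (by decide +kernel)
theorem bx2_1 : BoxOK sI cl9 cl5 cl13 t0 t5 b2_1 :=
  box_mk (TrL.c (I.pos (nat_lit 0) (nat_lit 0)) T0.l0
  (TrL.c (I.pos (nat_lit 0) (nat_lit 0)) T5.l1
  (TrL.c (I.pos (nat_lit 0) (nat_lit 124588530)) T0.l1
  (TrL.c (I.pos (nat_lit 0) (nat_lit 96881482)) T5.l2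
  (TrL.c (I.pos (nat_lit 0) (nat_lit 0)) T5.l3
  (TrL.c (I.pos (nat_lit 0) (nat_lit 0)) T0.l2
  (TrL.c (I.mix (nat_lit 17240550) (nat_lit 96881482)) T5.l4
  (TrL.c (I.mix (nat_lit 17240550) (nat_lit 71940500)) T0.l3
  TrL.n)))))))) (by decide +kernel)
theorem bx2_2 : BoxOK sI cl9 cl5 cl13 t0 t5 b2_2 :=
  box_mk (TrL.c (I.pos (nat_lit 0) (nat_lit 0)) T0.l0
  (TrL.c (I.pos (nat_lit 0) (nat_lit 0)) T5.l1
  (TrL.c (I.pos (nat_lit 0) (nat_lit 124588530)) T0.l1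
  (TrL.c (I.pos (nat_lit 0) (nat_lit 96881482)) T5.l2
  (TrL.c (I.pos (nat_lit 0) (nat_lit 0)) T5.l3
  (TrL.c (I.pos (nat_lit 0) (nat_lit 0)) T0.l2
  (TrL.c (I.mix (nat_lit 17240550) (nat_lit 96881482)) T5.l4
  (TrL.c (I.mix (nat_lit 17240550) (nat_lit 71940500)) T0.l3
  TrL.n)))))))) (by decide +kernel)
theorem bx2_3 : BoxOK sI cl9 cl5 cl13 t0 t5 b2_3 :=
  box_mk (TrL.c (I.pos (nat_lit 0) (nat_lit 0)) T5.l1
  (TrL.c (I.pos (nat_lit 0) (nat_lit 0)) T0.l1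
  (TrL.c (I.mix (nat_lit 17240550) (nat_lit 96881482)) T5.l2
  (TrL.c (I.mix (nat_lit 17240550) (nat_lit 71940500)) T0.l6
  TrL.n)))) (by decide +kernel)
theorem bx2_4 : BoxOK sI cl9 cl5 cl13 t0 t5 b2_4 :=
  box_mk (TrL.c (I.pos (nat_lit 0) (nat_lit 0)) (xa T0.l0 T0.l0)
  (TrL.c (I.pos (nat_lit 0) (nat_lit 0)) T5.l1
  (TrL.c (I.pos (nat_lit 0) (nat_lit 124588530)) T0.l8
  (TrL.c (I.pos (nat_lit 0) (nat_lit 96881482)) T5.l2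
  (TrL.c (I.pos (nat_lit 0) (nat_lit 0)) (xa T5.l3 T5.l3)
  (TrL.c (I.pos (nat_lit 0) (nat_lit 0)) T0.l2
  (TrL.c (I.mix (nat_lit 17240550) (nat_lit 96881482)) T5.l4
  (TrL.c (I.mix (nat_lit 17240550) (nat_lit 71940500)) T0.l6
  TrL.n)))))))) (by decide +kernel)
theorem bx2_5 : BoxOK sI cl9 cl5 cl13 t0 t5 b2_5 :=
  box_mk (TrL.c (I.pos (nat_lit 0) (nat_lit 0)) T5.l1
  (TrL.c (I.pos (nat_lit 0) (nat_lit 0)) T0.l1
  (TrL.c (I.mix (nat_lit 17240550) (nat_lit 96881482)) T5.l9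
  (TrL.c (I.mix (nat_lit 17240550) (nat_lit 71940500)) T0.l6
  TrL.n)))) (by decide +kernel)
theorem bx2_6 : BoxOK sI cl9 cl5 cl13 t0 t5 b2_6 :=
  box_mk (TrL.c (I.pos (nat_lit 0) (nat_lit 0)) (xa (xb T0.l0 (xb T0.l0 T0.l0)) (xb T0.l0 T0.l0))
  (TrL.c (I.pos (nat_lit 0) (nat_lit 0)) T5.l1
  (TrL.c (I.pos (nat_lit 0) (nat_lit 124588530)) (xR T0.l1 T0.l8)
  (TrL.c (I.pos (nat_lit 0) (nat_lit 96881482)) T5.l2
  (TrL.c (I.pos (nat_lit 0) (nat_lit 0)) (xb (xa T5.l0 (xk T5.l3 T5.l3)) T5.l3)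
  (TrL.c (I.pos (nat_lit 0) (nat_lit 0)) T0.l2
  (TrL.c (I.mix (nat_lit 17240550) (nat_lit 96881482)) T5.l4
  (TrL.c (I.mix (nat_lit 17240550) (nat_lit 71940500)) T0.l6
  TrL.n)))))))) (by decide +kernel)
theorem bx2_7 : BoxOK sI cl9 cl5 cl13 t0 t5 b2_7 :=
  box_mk (TrL.c (I.pos (nat_lit 0) (nat_lit 0)) T0.l0
  (TrL.c (I.pos (nat_lit 0) (nat_lit 0)) T5.l1
  (TrL.c (I.pos (nat_lit 0) (nat_lit 124588530)) T0.l1
  (TrL.c (I.pos (nat_lit 0) (nat_lit 96881482)) T5.l2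
  (TrL.c (I.pos (nat_lit 0) (nat_lit 0)) T5.l3
  (TrL.c (I.pos (nat_lit 0) (nat_lit 0)) T0.l2
  (TrL.c (I.mix (nat_lit 17240550) (nat_lit 96881482)) T5.l4
  (TrL.c (I.mix (nat_lit 17240550) (nat_lit 71940500)) T0.l3
  TrL.n)))))))) (by decide +kernel)
theorem sv2 : StarV sI cl9 cl5 cl13 t0 t5 t2 :=
  (bt_n (bt_n (bt_n (bt_b bx2_0) (bt_b bx2_1)) (bt_n (bt_b bx2_2) (bt_b bx2_3))) (bt_n (bt_n (bt_b bx2_4) (bt_b bx2_5)) (bt_n (bt_b bx2_6) (bt_b bx2_7))))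
def S2 : StarD := StarD.mk cl9 cl5 cl13 0 5 t2
theorem bx3_0 : BoxOK sI cl9 cl13 cl5 t5 t0 b3_0 :=
  box_mk (TrL.c (I.pos (nat_lit 0) (nat_lit 0)) (xa (xa (xb T5.l0 T5.l0) (xb T5.l0 (xs T5.l0 T5.l0))) (xa (xb T5.l0 (xs T5.l0 T5.l0)) (xs T5.l0 (xb T5.l0 T5.l3))))
  (TrL.c (I.pos (nat_lit 0) (nat_lit 0)) (xa T0.l5 T0.l5)
  (TrL.c (I.pos (nat_lit 0) (nat_lit 124588530)) (xR T5.l8 T5.l8)
  (TrL.c (I.pos (nat_lit 0) (nat_lit 96881482)) T0.l6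
  (TrL.c (I.pos (nat_lit 0) (nat_lit 0)) (xa (xa T0.l7 T0.l7) (xa (xk T0.l7 T0.l7) (xk (xb (xa T0.l7 T0.l7) (xk (xa T0.l7 T0.l7) (xa T0.l7 T0.l7))) (xb (xa T0.l7 T0.l7) (xk (xa T0.l7 T0.l7) (xa T0.l7 T0.l7))))))
  (TrL.c (I.pos (nat_lit 0) (nat_lit 0)) T5.l6
  (TrL.c (I.mix (nat_lit 17240550) (nat_lit 96881482)) (xR T0.l8 T0.l8)
  (TrL.c (I.mix (nat_lit 17240550) (nat_lit 71940500)) T5.l9
  TrL.n)))))))) (by decide +kernel)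
theorem bx3_1 : BoxOK sI cl9 cl13 cl5 t5 t0 b3_1 :=
  box_mk (TrL.c (I.pos (nat_lit 0) (nat_lit 0)) T5.l0
  (TrL.c (I.pos (nat_lit 0) (nat_lit 0)) T0.l5
  (TrL.c (I.pos (nat_lit 0) (nat_lit 124588530)) T5.l8
  (TrL.c (I.pos (nat_lit 0) (nat_lit 96881482)) T0.l6
  (TrL.c (I.pos (nat_lit 0) (nat_lit 0)) T0.l7
  (TrL.c (I.pos (nat_lit 0) (nat_lit 0)) T5.l6
  (TrL.c (I.mix (nat_lit 17240550) (nat_lit 96881482)) T0.l8
  (TrL.c (I.mix (nat_lit 17240550) (nat_lit 71940500)) T5.l9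
  TrL.n)))))))) (by decide +kernel)
theorem bx3_2 : BoxOK sI cl9 cl13 cl5 t5 t0 b3_2 :=
  box_mk (TrL.c (I.pos (nat_lit 0) (nat_lit 0)) (xa (xa T5.l0 T5.l0) T5.l0)
  (TrL.c (I.pos (nat_lit 0) (nat_lit 0)) (xa T0.l5 T0.l5)
  (TrL.c (I.pos (nat_lit 0) (nat_lit 124588530)) T5.l8
  (TrL.c (I.pos (nat_lit 0) (nat_lit 96881482)) T0.l6
  (TrL.c (I.pos (nat_lit 0) (nat_lit 0)) (xa T0.l7 T0.l7)
  (TrL.c (I.pos (nat_lit 0) (nat_lit 0)) T5.l6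
  (TrL.c (I.mix (nat_lit 17240550) (nat_lit 96881482)) T0.l8
  (TrL.c (I.mix (nat_lit 17240550) (nat_lit 71940500)) T5.l9
  TrL.n)))))))) (by decide +kernel)
theorem bx3_3 : BoxOK sI cl9 cl13 cl5 t5 t0 b3_3 :=
  box_mk (TrL.c (I.pos (nat_lit 0) (nat_lit 0)) (xb (xa T5.l0 T5.l0) (xa (xs T5.l0 (xb T5.l0 T5.l0)) (xs T5.l0 T5.l0)))
  (TrL.c (I.pos (nat_lit 0) (nat_lit 0)) T0.l5
  (TrL.c (I.pos (nat_lit 0) (nat_lit 124588530)) (xR T5.l8 T5.l8)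
  (TrL.c (I.pos (nat_lit 0) (nat_lit 96881482)) T0.l6
  (TrL.c (I.pos (nat_lit 0) (nat_lit 0)) (xb (xa T0.l7 (xk T0.l7 T0.l7)) (xk T0.l7 T0.l7))
  (TrL.c (I.pos (nat_lit 0) (nat_lit 0)) T5.l6
  (TrL.c (I.mix (nat_lit 17240550) (nat_lit 96881482)) (xR T0.l8 T0.l8)
  (TrL.c (I.mix (nat_lit 17240550) (nat_lit 71940500)) T5.l9
  TrL.n)))))))) (by decide +kernel)
theorem bx3_4 : BoxOK sI cl9 cl13 cl5 t5 t0 b3_4 :=
  box_mk (TrL.c (I.pos (nat_lit 0) (nat_lit 0)) (xa T5.l0 (xa T5.l0 T5.l0))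
  (TrL.c (I.pos (nat_lit 0) (nat_lit 0)) T0.l5
  (TrL.c (I.pos (nat_lit 0) (nat_lit 124588530)) T5.l8
  (TrL.c (I.pos (nat_lit 0) (nat_lit 96881482)) T0.l6
  (TrL.c (I.pos (nat_lit 0) (nat_lit 0)) (xa T0.l7 T0.l7)
  (TrL.c (I.pos (nat_lit 0) (nat_lit 0)) T5.l6
  (TrL.c (I.mix (nat_lit 17240550) (nat_lit 96881482)) T0.l8
  (TrL.c (I.mix (nat_lit 17240550) (nat_lit 71940500)) T5.l9
  TrL.n)))))))) (by decide +kernel)
theorem bx3_5 : BoxOK sI cl9 cl13 cl5 t5 t0 b3_5 :=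
  box_mk (TrL.c (I.pos (nat_lit 0) (nat_lit 0)) T5.l0
  (TrL.c (I.pos (nat_lit 0) (nat_lit 0)) T0.l5
  (TrL.c (I.pos (nat_lit 0) (nat_lit 124588530)) T5.l8
  (TrL.c (I.pos (nat_lit 0) (nat_lit 96881482)) T0.l6
  (TrL.c (I.pos (nat_lit 0) (nat_lit 0)) T0.l7
  (TrL.c (I.pos (nat_lit 0) (nat_lit 0)) T5.l6
  (TrL.c (I.mix (nat_lit 17240550) (nat_lit 96881482)) T0.l8
  (TrL.c (I.mix (nat_lit 17240550) (nat_lit 71940500)) T5.l9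
  TrL.n)))))))) (by decide +kernel)
theorem bx3_6 : BoxOK sI cl9 cl13 cl5 t5 t0 b3_6 :=
  box_mk (TrL.c (I.pos (nat_lit 0) (nat_lit 0)) (xa T5.l0 T5.l0)
  (TrL.c (I.pos (nat_lit 0) (nat_lit 0)) T0.l5
  (TrL.c (I.pos (nat_lit 0) (nat_lit 124588530)) T5.l8
  (TrL.c (I.pos (nat_lit 0) (nat_lit 96881482)) T0.l6
  (TrL.c (I.pos (nat_lit 0) (nat_lit 0)) (xa T0.l7 T0.l7)
  (TrL.c (I.pos (nat_lit 0) (nat_lit 0)) T5.l6
  (TrL.c (I.mix (nat_lit 17240550) (nat_lit 96881482)) T0.l8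
  (TrL.c (I.mix (nat_lit 17240550) (nat_lit 71940500)) T5.l9
  TrL.n)))))))) (by decide +kernel)
theorem bx3_7 : BoxOK sI cl9 cl13 cl5 t5 t0 b3_7 :=
  box_mk (TrL.c (I.pos (nat_lit 0) (nat_lit 0)) (xa T5.l0 T5.l0)
  (TrL.c (I.pos (nat_lit 0) (nat_lit 0)) T0.l5
  (TrL.c (I.pos (nat_lit 0) (nat_lit 124588530)) T5.l8
  (TrL.c (I.pos (nat_lit 0) (nat_lit 96881482)) T0.l6
  (TrL.c (I.pos (nat_lit 0) (nat_lit 0)) T0.l7
  (TrL.c (I.pos (nat_lit 0) (nat_lit 0)) T5.l6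
  (TrL.c (I.mix (nat_lit 17240550) (nat_lit 96881482)) T0.l8
  (TrL.c (I.mix (nat_lit 17240550) (nat_lit 71940500)) T5.l9
  TrL.n)))))))) (by decide +kernel)
theorem bx3_8 : BoxOK sI cl9 cl13 cl5 t5 t0 b3_8 :=
  box_mk (TrL.c (I.pos (nat_lit 0) (nat_lit 0)) T5.l0
  (TrL.c (I.pos (nat_lit 0) (nat_lit 0)) T0.l5
  (TrL.c (I.pos (nat_lit 0) (nat_lit 124588530)) T5.l8
  (TrL.c (I.pos (nat_lit 0) (nat_lit 96881482)) T0.l6
  (TrL.c (I.pos (nat_lit 0) (nat_lit 0)) T0.l7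
  (TrL.c (I.pos (nat_lit 0) (nat_lit 0)) T5.l6
  (TrL.c (I.mix (nat_lit 17240550) (nat_lit 96881482)) T0.l8
  (TrL.c (I.mix (nat_lit 17240550) (nat_lit 71940500)) T5.l9
  TrL.n)))))))) (by decide +kernel)
theorem bx3_9 : BoxOK sI cl9 cl13 cl5 t5 t0 b3_9 :=
  box_mk (TrL.c (I.pos (nat_lit 0) (nat_lit 0)) (xa T5.l0 T5.l0)
  (TrL.c (I.pos (nat_lit 0) (nat_lit 0)) T0.l5
  (TrL.c (I.pos (nat_lit 0) (nat_lit 124588530)) T5.l8
  (TrL.c (I.pos (nat_lit 0) (nat_lit 96881482)) T0.l6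
  (TrL.c (I.pos (nat_lit 0) (nat_lit 0)) (xa T0.l7 T0.l7)
  (TrL.c (I.pos (nat_lit 0) (nat_lit 0)) T5.l6
  (TrL.c (I.mix (nat_lit 17240550) (nat_lit 96881482)) T0.l8
  (TrL.c (I.mix (nat_lit 17240550) (nat_lit 71940500)) T5.l9
  TrL.n)))))))) (by decide +kernel)
theorem sv3 : StarV sI cl9 cl13 cl5 t5 t0 t3 :=
  (bt_n (bt_n (bt_n (bt_b bx3_0) (bt_b bx3_1)) (bt_n (bt_b bx3_2) (bt_n (bt_b bx3_3) (bt_b bx3_4)))) (bt_n (bt_n (bt_b bx3_5) (bt_b bx3_6)) (bt_n (bt_b bx3_7) (bt_n (bt_b bx3_8) (bt_b bx3_9)))))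
def S3 : StarD := StarD.mk cl9 cl13 cl5 5 0 t3
theorem bx4_0 : BoxOK sI cl13 cl5 cl9 t1 t3 b4_0 :=
  box_mk (TrL.c (I.pos (nat_lit 0) (nat_lit 0)) (xa (xa (xb T1.l0 T1.l0) T1.l0) (xa T1.l0 T1.l7))
  (TrL.c (I.pos (nat_lit 0) (nat_lit 0)) T3.l1
  (TrL.c (I.pos (nat_lit 0) (nat_lit 134217730)) (xR T1.l1 T1.l8)
  (TrL.c (I.pos (nat_lit 0) (nat_lit 110514882)) T3.l2
  (TrL.c (I.pos (nat_lit 0) (nat_lit 0)) (xa (xb (xa T3.l3 T3.l3) T3.l3) (xa (xb (xk T3.l3 T3.l3) T3.l3) (xk (xb (xb (xa T3.l3 T3.l3) T3.l3) (xs (xa T3.l3 T3.l3) (xa T3.l3 T3.l3))) (xb (xb (xa T3.l3 T3.l3) T3.l3) (xs (xa T3.l3 T3.l3) (xa T3.l3 T3.l3))))))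
  (TrL.c (I.pos (nat_lit 0) (nat_lit 0)) T1.l2
  (TrL.c (I.mix (nat_lit 8088324) (nat_lit 110514882)) (xR T3.l4 T3.l4)
  (TrL.c (I.mix (nat_lit 8088324) (nat_lit 89478486)) T1.l6
  TrL.n)))))))) (by decide +kernel)
theorem bx4_1 : BoxOK sI cl13 cl5 cl9 t1 t3 b4_1 :=
  box_mk (TrL.c (I.pos (nat_lit 0) (nat_lit 0)) T1.l0
  (TrL.c (I.pos (nat_lit 0) (nat_lit 0)) T3.l1
  (TrL.c (I.pos (nat_lit 0) (nat_lit 134217730)) T1.l8
  (TrL.c (I.pos (nat_lit 0) (nat_lit 110514882)) T3.l2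
  (TrL.c (I.pos (nat_lit 0) (nat_lit 0)) (xa T3.l3 T3.l3)
  (TrL.c (I.pos (nat_lit 0) (nat_lit 0)) T1.l2
  (TrL.c (I.mix (nat_lit 8088324) (nat_lit 110514882)) T3.l4
  (TrL.c (I.mix (nat_lit 8088324) (nat_lit 89478486)) T1.l3
  TrL.n)))))))) (by decide +kernel)
theorem bx4_2 : BoxOK sI cl13 cl5 cl9 t1 t3 b4_2 :=
  box_mk (TrL.c (I.pos (nat_lit 0) (nat_lit 0)) T3.l5
  (TrL.c (I.pos (nat_lit 0) (nat_lit 0)) T1.l1
  (TrL.c (I.mix (nat_lit 8088324) (nat_lit 110514882)) T3.l2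
  (TrL.c (I.mix (nat_lit 8088324) (nat_lit 89478486)) T1.l1
  TrL.n)))) (by decide +kernel)
theorem bx4_3 : BoxOK sI cl13 cl5 cl9 t1 t3 b4_3 :=
  box_mk (TrL.c (I.pos (nat_lit 0) (nat_lit 0)) (xa (xb T1.l0 (xa T1.l0 T1.l0)) (xb T1.l0 T1.l0))
  (TrL.c (I.pos (nat_lit 0) (nat_lit 0)) T3.l1
  (TrL.c (I.pos (nat_lit 0) (nat_lit 134217730)) (xR T1.l1 T1.l8)
  (TrL.c (I.pos (nat_lit 0) (nat_lit 110514882)) T3.l2
  (TrL.c (I.pos (nat_lit 0) (nat_lit 0)) (xb (xa T3.l3 T3.l0) T3.l3)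
  (TrL.c (I.pos (nat_lit 0) (nat_lit 0)) T1.l2
  (TrL.c (I.mix (nat_lit 8088324) (nat_lit 110514882)) T3.l4
  (TrL.c (I.mix (nat_lit 8088324) (nat_lit 89478486)) T1.l3
  TrL.n)))))))) (by decide +kernel)
theorem bx4_4 : BoxOK sI cl13 cl5 cl9 t1 t3 b4_4 :=
  box_mk (TrL.c (I.pos (nat_lit 0) (nat_lit 0)) T1.l0
  (TrL.c (I.pos (nat_lit 0) (nat_lit 0)) T3.l5
  (TrL.c (I.pos (nat_lit 0) (nat_lit 134217730)) T1.l1
  (TrL.c (I.pos (nat_lit 0) (nat_lit 110514882)) T3.l2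
  (TrL.c (I.pos (nat_lit 0) (nat_lit 0)) T3.l3
  (TrL.c (I.pos (nat_lit 0) (nat_lit 0)) T1.l2
  (TrL.c (I.mix (nat_lit 8088324) (nat_lit 110514882)) T3.l4
  (TrL.c (I.mix (nat_lit 8088324) (nat_lit 89478486)) T1.l3
  TrL.n)))))))) (by decide +kernel)
theorem bx4_5 : BoxOK sI cl13 cl5 cl9 t1 t3 b4_5 :=
  box_mk (TrL.c (I.pos (nat_lit 0) (nat_lit 0)) T1.l0
  (TrL.c (I.pos (nat_lit 0) (nat_lit 0)) T3.l1
  (TrL.c (I.pos (nat_lit 0) (nat_lit 134217730)) T1.l1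
  (TrL.c (I.pos (nat_lit 0) (nat_lit 110514882)) T3.l2
  (TrL.c (I.pos (nat_lit 0) (nat_lit 0)) T3.l3
  (TrL.c (I.pos (nat_lit 0) (nat_lit 0)) T1.l2
  (TrL.c (I.mix (nat_lit 8088324) (nat_lit 110514882)) T3.l4
  (TrL.c (I.mix (nat_lit 8088324) (nat_lit 89478486)) T1.l3
  TrL.n)))))))) (by decide +kernel)
theorem bx4_6 : BoxOK sI cl13 cl5 cl9 t1 t3 b4_6 :=
  box_mk (TrL.c (I.pos (nat_lit 0) (nat_lit 0)) (xb T1.l0 T1.l0)
  (TrL.c (I.pos (nat_lit 0) (nat_lit 0)) T3.l1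
  (TrL.c (I.pos (nat_lit 0) (nat_lit 134217730)) T1.l1
  (TrL.c (I.pos (nat_lit 0) (nat_lit 110514882)) T3.l2
  (TrL.c (I.pos (nat_lit 0) (nat_lit 0)) T3.l3
  (TrL.c (I.pos (nat_lit 0) (nat_lit 0)) T1.l2
  (TrL.c (I.mix (nat_lit 8088324) (nat_lit 110514882)) T3.l4
  (TrL.c (I.mix (nat_lit 8088324) (nat_lit 89478486)) T1.l3
  TrL.n)))))))) (by decide +kernel)
theorem bx4_7 : BoxOK sI cl13 cl5 cl9 t1 t3 b4_7 :=
  box_mk (TrL.c (I.pos (nat_lit 0) (nat_lit 0)) T3.l1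
  (TrL.c (I.pos (nat_lit 0) (nat_lit 0)) T1.l1
  (TrL.c (I.mix (nat_lit 8088324) (nat_lit 110514882)) T3.l2
  (TrL.c (I.mix (nat_lit 8088324) (nat_lit 89478486)) T1.l1
  TrL.n)))) (by decide +kernel)
theorem sv4 : StarV sI cl13 cl5 cl9 t1 t3 t4 :=
  (bt_n (bt_n (bt_n (bt_b bx4_0) (bt_b bx4_1)) (bt_n (bt_b bx4_2) (bt_b bx4_3))) (bt_n (bt_n (bt_b bx4_4) (bt_b bx4_5)) (bt_n (bt_b bx4_6) (bt_b bx4_7))))
def S4 : StarD := StarD.mk cl13 cl5 cl9 1 3 t4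
theorem bx5_0 : BoxOK sI cl13 cl9 cl5 t3 t1 b5_0 :=
  box_mk (TrL.c (I.pos (nat_lit 0) (nat_lit 0)) (xa (xa (xb T3.l0 T3.l0) (xb T3.l0 T3.l0)) (xa (xb T3.l0 T3.l0) (xs T3.l0 (xb T3.l0 T3.l0))))
  (TrL.c (I.pos (nat_lit 0) (nat_lit 0)) T1.l5
  (TrL.c (I.pos (nat_lit 0) (nat_lit 134217730)) (xR T3.l4 T3.l4)
  (TrL.c (I.pos (nat_lit 0) (nat_lit 110514882)) (xR T1.l6 T1.l6)
  (TrL.c (I.pos (nat_lit 0) (nat_lit 0)) (xa (xa T1.l7 (xb T1.l7 T1.l7)) (xa (xk T1.l7 T1.l7) (xk (xb (xa T1.l7 (xb T1.l7 T1.l7)) (xk (xa T1.l7 T1.l7) (xa T1.l7 T1.l7))) (xb (xa T1.l7 (xb T1.l7 T1.l7)) (xk (xa T1.l7 T1.l7) (xa T1.l7 T1.l7))))))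
  (TrL.c (I.pos (nat_lit 0) (nat_lit 0)) T3.l8
  (TrL.c (I.mix (nat_lit 8088324) (nat_lit 110514882)) (xR T1.l8 T1.l8)
  (TrL.c (I.mix (nat_lit 8088324) (nat_lit 89478486)) T3.l9
  TrL.n)))))))) (by decide +kernel)
theorem bx5_1 : BoxOK sI cl13 cl9 cl5 t3 t1 b5_1 :=
  box_mk (TrL.c (I.pos (nat_lit 0) (nat_lit 0)) T3.l0
  (TrL.c (I.pos (nat_lit 0) (nat_lit 0)) T1.l5
  (TrL.c (I.pos (nat_lit 0) (nat_lit 134217730)) (xR T3.l4 T3.l7)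
  (TrL.c (I.pos (nat_lit 0) (nat_lit 110514882)) T1.l6
  (TrL.c (I.pos (nat_lit 0) (nat_lit 0)) T1.l7
  (TrL.c (I.pos (nat_lit 0) (nat_lit 0)) T3.l8
  (TrL.c (I.mix (nat_lit 8088324) (nat_lit 110514882)) T1.l8
  (TrL.c (I.mix (nat_lit 8088324) (nat_lit 89478486)) T3.l9
  TrL.n)))))))) (by decide +kernel)
theorem bx5_2 : BoxOK sI cl13 cl9 cl5 t3 t1 b5_2 :=
  box_mk (TrL.c (I.pos (nat_lit 0) (nat_lit 0)) (xa (xa (xa T3.l0 T3.l0) T3.l0) T3.l0)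
  (TrL.c (I.pos (nat_lit 0) (nat_lit 0)) T1.l5
  (TrL.c (I.pos (nat_lit 0) (nat_lit 134217730)) T3.l4
  (TrL.c (I.pos (nat_lit 0) (nat_lit 110514882)) T1.l6
  (TrL.c (I.pos (nat_lit 0) (nat_lit 0)) (xa T1.l7 T1.l7)
  (TrL.c (I.pos (nat_lit 0) (nat_lit 0)) T3.l8
  (TrL.c (I.mix (nat_lit 8088324) (nat_lit 110514882)) T1.l8
  (TrL.c (I.mix (nat_lit 8088324) (nat_lit 89478486)) T3.l9
  TrL.n)))))))) (by decide +kernel)
theorem bx5_3 : BoxOK sI cl13 cl9 cl5 t3 t1 b5_3 :=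
  box_mk (TrL.c (I.pos (nat_lit 0) (nat_lit 0)) (xb (xa T3.l0 T3.l0) (xa (xs T3.l0 (xb T3.l0 T3.l0)) (xs T3.l0 T3.l0)))
  (TrL.c (I.pos (nat_lit 0) (nat_lit 0)) T1.l5
  (TrL.c (I.pos (nat_lit 0) (nat_lit 134217730)) (xR T3.l4 T3.l7)
  (TrL.c (I.pos (nat_lit 0) (nat_lit 110514882)) T1.l6
  (TrL.c (I.pos (nat_lit 0) (nat_lit 0)) (xb (xa T1.l7 (xk T1.l7 T1.l7)) (xk T1.l7 T1.l7))
  (TrL.c (I.pos (nat_lit 0) (nat_lit 0)) T3.l8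
  (TrL.c (I.mix (nat_lit 8088324) (nat_lit 110514882)) (xR T1.l8 T1.l8)
  (TrL.c (I.mix (nat_lit 8088324) (nat_lit 89478486)) T3.l9
  TrL.n)))))))) (by decide +kernel)
theorem bx5_4 : BoxOK sI cl13 cl9 cl5 t3 t1 b5_4 :=
  box_mk (TrL.c (I.pos (nat_lit 0) (nat_lit 0)) (xa T3.l0 T3.l0)
  (TrL.c (I.pos (nat_lit 0) (nat_lit 0)) T1.l5
  (TrL.c (I.pos (nat_lit 0) (nat_lit 134217730)) (xR T3.l4 T3.l7)
  (TrL.c (I.pos (nat_lit 0) (nat_lit 110514882)) T1.l6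
  (TrL.c (I.pos (nat_lit 0) (nat_lit 0)) (xa T1.l7 T1.l7)
  (TrL.c (I.pos (nat_lit 0) (nat_lit 0)) T3.l8
  (TrL.c (I.mix (nat_lit 8088324) (nat_lit 110514882)) T1.l8
  (TrL.c (I.mix (nat_lit 8088324) (nat_lit 89478486)) T3.l9
  TrL.n)))))))) (by decide +kernel)
theorem bx5_5 : BoxOK sI cl13 cl9 cl5 t3 t1 b5_5 :=
  box_mk (TrL.c (I.pos (nat_lit 0) (nat_lit 0)) (xa T3.l0 T3.l0)
  (TrL.c (I.pos (nat_lit 0) (nat_lit 0)) T1.l5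
  (TrL.c (I.pos (nat_lit 0) (nat_lit 134217730)) (xR T3.l2 T3.l7)
  (TrL.c (I.pos (nat_lit 0) (nat_lit 110514882)) T1.l6
  (TrL.c (I.pos (nat_lit 0) (nat_lit 0)) (xa T1.l7 T1.l7)
  (TrL.c (I.pos (nat_lit 0) (nat_lit 0)) T3.l8
  (TrL.c (I.mix (nat_lit 8088324) (nat_lit 110514882)) T1.l8
  (TrL.c (I.mix (nat_lit 8088324) (nat_lit 89478486)) T3.l9
  TrL.n)))))))) (by decide +kernel)
theorem bx5_6 : BoxOK sI cl13 cl9 cl5 t3 t1 b5_6 :=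
  box_mk (TrL.c (I.pos (nat_lit 0) (nat_lit 0)) T3.l0
  (TrL.c (I.pos (nat_lit 0) (nat_lit 0)) T1.l5
  (TrL.c (I.pos (nat_lit 0) (nat_lit 134217730)) (xR T3.l4 T3.l7)
  (TrL.c (I.pos (nat_lit 0) (nat_lit 110514882)) T1.l6
  (TrL.c (I.pos (nat_lit 0) (nat_lit 0)) T1.l7
  (TrL.c (I.pos (nat_lit 0) (nat_lit 0)) T3.l8
  (TrL.c (I.mix (nat_lit 8088324) (nat_lit 110514882)) T1.l8
  (TrL.c (I.mix (nat_lit 8088324) (nat_lit 89478486)) T3.l9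
  TrL.n)))))))) (by decide +kernel)
theorem bx5_7 : BoxOK sI cl13 cl9 cl5 t3 t1 b5_7 :=
  box_mk (TrL.c (I.pos (nat_lit 0) (nat_lit 0)) T3.l0
  (TrL.c (I.pos (nat_lit 0) (nat_lit 0)) T1.l5
  (TrL.c (I.pos (nat_lit 0) (nat_lit 134217730)) (xR T3.l2 T3.l7)
  (TrL.c (I.pos (nat_lit 0) (nat_lit 110514882)) T1.l6
  (TrL.c (I.pos (nat_lit 0) (nat_lit 0)) T1.l7
  (TrL.c (I.pos (nat_lit 0) (nat_lit 0)) T3.l8
  (TrL.c (I.mix (nat_lit 8088324) (nat_lit 110514882)) T1.l8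
  (TrL.c (I.mix (nat_lit 8088324) (nat_lit 89478486)) T3.l9
  TrL.n)))))))) (by decide +kernel)
theorem bx5_8 : BoxOK sI cl13 cl9 cl5 t3 t1 b5_8 :=
  box_mk (TrL.c (I.pos (nat_lit 0) (nat_lit 0)) (xa T3.l0 (xa T3.l0 T3.l0))
  (TrL.c (I.pos (nat_lit 0) (nat_lit 0)) (xa T1.l5 T1.l5)
  (TrL.c (I.pos (nat_lit 0) (nat_lit 134217730)) (xR T3.l4 T3.l7)
  (TrL.c (I.pos (nat_lit 0) (nat_lit 110514882)) T1.l6
  (TrL.c (I.pos (nat_lit 0) (nat_lit 0)) (xa T1.l7 T1.l7)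
  (TrL.c (I.pos (nat_lit 0) (nat_lit 0)) T3.l8
  (TrL.c (I.mix (nat_lit 8088324) (nat_lit 110514882)) T1.l8
  (TrL.c (I.mix (nat_lit 8088324) (nat_lit 89478486)) T3.l9
  TrL.n)))))))) (by decide +kernel)
theorem bx5_9 : BoxOK sI cl13 cl9 cl5 t3 t1 b5_9 :=
  box_mk (TrL.c (I.pos (nat_lit 0) (nat_lit 0)) (xa (xa T3.l0 T3.l0) T3.l0)
  (TrL.c (I.pos (nat_lit 0) (nat_lit 0)) T1.l5
  (TrL.c (I.pos (nat_lit 0) (nat_lit 134217730)) T3.l4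
  (TrL.c (I.pos (nat_lit 0) (nat_lit 110514882)) T1.l6
  (TrL.c (I.pos (nat_lit 0) (nat_lit 0)) (xa T1.l7 T1.l7)
  (TrL.c (I.pos (nat_lit 0) (nat_lit 0)) T3.l8
  (TrL.c (I.mix (nat_lit 8088324) (nat_lit 110514882)) T1.l8
  (TrL.c (I.mix (nat_lit 8088324) (nat_lit 89478486)) T3.l9
  TrL.n)))))))) (by decide +kernel)
theorem sv5 : StarV sI cl13 cl9 cl5 t3 t1 t5 :=
  (bt_n (bt_n (bt_n (bt_b bx5_0) (bt_b bx5_1)) (bt_n (bt_b bx5_2) (bt_n (bt_b bx5_3) (bt_b bx5_4)))) (bt_n (bt_n (bt_b bx5_5) (bt_b bx5_6)) (bt_n (bt_b bx5_7) (bt_n (bt_b bx5_8) (bt_b bx5_9)))))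
def S5 : StarD := StarD.mk cl13 cl9 cl5 3 1 t5
def G : List StarD := [S0, S1, S2, S3, S4, S5]
theorem so0 : StarOK sI G S0 :=
  star_mk (by decide) (by decide) rfl rfl rfl rfl rfl rfl (rfl : _ = t2) (rfl : _ = t4)
  (st_mk (Pth.l (Pth.l (Pth.l Pth.z))) (nat_lit 116389118) (nat_lit 135330027) (by decide +kernel))
  (st_mk (Pth.l (Pth.l (Pth.l Pth.z))) (nat_lit 152201098) (nat_lit 171635332) (by decide +kernel))
  (st_mk (Pth.l (Pth.l (Pth.l Pth.z))) (nat_lit 193835642) (nat_lit 213966125) (by decide +kernel)) sv0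
theorem so1 : StarOK sI G S1 :=
  star_mk (by decide) (by decide) rfl rfl rfl rfl rfl rfl (rfl : _ = t4) (rfl : _ = t2)
  (st_mk (Pth.l (Pth.l (Pth.l Pth.z))) (nat_lit 96804511) (nat_lit 115663940) (by decide +kernel))
  (st_mk (Pth.l (Pth.l (Pth.l Pth.z))) (nat_lit 132544134) (nat_lit 151875544) (by decide +kernel))
  (st_mk (Pth.l (Pth.l (Pth.l Pth.z))) (nat_lit 174118361) (nat_lit 194127947) (by decide +kernel)) sv1
theorem so2 : StarOK sI G S2 :=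
  star_mk (by decide) (by decide) rfl rfl rfl rfl rfl rfl (rfl : _ = t0) (rfl : _ = t5)
  (st_mk (Pth.l (Pth.l (Pth.l Pth.z))) (nat_lit 238797535) (nat_lit 240445616) (by decide +kernel))
  (st_mk (Pth.l (Pth.l (Pth.l Pth.z))) (nat_lit 273925962) (nat_lit 275926324) (by decide +kernel))
  (st_mk (Pth.l (Pth.l (Pth.l Pth.z))) (nat_lit 314498514) (nat_lit 316967507) (by decide +kernel)) sv2
theorem so3 : StarOK sI G S3 :=
  star_mk (by decide) (by decide) rfl rfl rfl rfl rfl rfl (rfl : _ = t5) (rfl : _ = t0)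
  (st_mk (Pth.l (Pth.l (Pth.l Pth.z))) (nat_lit 96016964) (nat_lit 114462756) (by decide +kernel))
  (st_mk (Pth.l (Pth.l (Pth.l Pth.z))) (nat_lit 131072219) (nat_lit 149790565) (by decide +kernel))
  (st_mk (Pth.l (Pth.l (Pth.l Pth.z))) (nat_lit 171581438) (nat_lit 190700153) (by decide +kernel)) sv3
theorem so4 : StarOK sI G S4 :=
  star_mk (by decide) (by decide) rfl rfl rfl rfl rfl rfl (rfl : _ = t1) (rfl : _ = t3)
  (st_mk (Pth.l (Pth.l (Pth.l Pth.z))) (nat_lit 238062708) (nat_lit 239510381) (by decide +kernel))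
  (st_mk (Pth.l (Pth.l (Pth.l Pth.z))) (nat_lit 272959317) (nat_lit 274692969) (by decide +kernel))
  (st_mk (Pth.l (Pth.l (Pth.l Pth.z))) (nat_lit 313224636) (nat_lit 315337433) (by decide +kernel)) sv4
theorem so5 : StarOK sI G S5 :=
  star_mk (by decide) (by decide) rfl rfl rfl rfl rfl rfl (rfl : _ = t3) (rfl : _ = t1)
  (st_mk (Pth.l (Pth.l (Pth.l Pth.z))) (nat_lit 115089857) (nat_lit 133407483) (by decide +kernel))
  (st_mk (Pth.l (Pth.l (Pth.l Pth.z))) (nat_lit 149986467) (nat_lit 168530272) (by decide +kernel))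
  (st_mk (Pth.l (Pth.l (Pth.l Pth.z))) (nat_lit 190251785) (nat_lit 209122896) (by decide +kernel)) sv5
theorem ok : GroupOK (nat_lit 0) (nat_lit 91291648) G := grp_mk (allS_c so0 (allS_c so1 (allS_c so2 (allS_c so3 (allS_c so4 (allS_c so5 allS_n))))))
theorem cov : GCov G cl5 cl9 cl13 := cov_mk
  ⟨0, by decide, rfl, rfl, rfl⟩ ⟨1, by decide, rfl, rfl, rfl⟩ ⟨2, by decide, rfl, rfl, rfl⟩ ⟨3, by decide, rfl, rfl, rfl⟩ ⟨4, by decide, rfl, rfl, rfl⟩ ⟨5, by decide, rfl, rfl, rfl⟩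
end Q256_0

namespace Q256_1
def sI : I := I.pos (nat_lit 91226112) (nat_lit 150339584)
def b0_0 : Bx := Bx.mk (St.mk (I.pos (nat_lit 155877376) (nat_lit 243073024)) (I.mix (nat_lit 3620864) (nat_lit 61112320)) (I.mix (nat_lit 4751360) (nat_lit 82182144)) (I.pos (nat_lit 109166592) (nat_lit 252608512)) (I.mix (nat_lit 105398272) (nat_lit 59801600)) (I.mix (nat_lit 77807616) (nat_lit 62980096)) (I.mix (nat_lit 112017408) (nat_lit 90095616)))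
  false (nat_lit 32696409)
def b0_1 : Bx := Bx.mk (St.mk (I.mix (nat_lit 23085056) (nat_lit 136544256)) (I.mix (nat_lit 3178496) (nat_lit 28704768)) (I.mix (nat_lit 16187392) (nat_lit 14188544)) (I.pos (nat_lit 11845632) (nat_lit 101351424)) (I.mix (nat_lit 26099712) (nat_lit 29229056)) (I.mix (nat_lit 26443776) (nat_lit 22937600)) (I.mix (nat_lit 21397504) (nat_lit 16269312)))
  false (nat_lit 0)
def b0_2 : Bx := Bx.mk (St.mk (I.pos (nat_lit 109068288) (nat_lit 151470080)) (I.mix (nat_lit 51298304) (nat_lit 4882432)) (I.neg (nat_lit 2850816) (nat_lit 63700992)) (I.pos (nat_lit 62832640) (nat_lit 121307136)) (I.mix (nat_lit 82722816) (nat_lit 23166976)) (I.mix (nat_lit 32473088) (nat_lit 74924032)) (I.mix (nat_lit 22822912) (nat_lit 66584576)))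
  false (nat_lit 0)
def b0_3 : Bx := Bx.mk (St.mk (I.mix (nat_lit 26345472) (nat_lit 94191616)) (I.mix (nat_lit 25608192) (nat_lit 2621440)) (I.mix (nat_lit 23166976) (nat_lit 393216)) (I.pos (nat_lit 14909440) (nat_lit 67534848)) (I.mix (nat_lit 29278208) (nat_lit 11452416)) (I.mix (nat_lit 11534336) (nat_lit 22478848)) (I.mix (nat_lit 6438912) (nat_lit 12550144)))
  false (nat_lit 0)
def b0_4 : Bx := Bx.mk (St.mk (I.pos (nat_lit 204603392) (nat_lit 271187968)) (I.mix (nat_lit 6979584) (nat_lit 36192256)) (I.mix (nat_lit 53837824) (nat_lit 32555008)) (I.pos (nat_lit 200491008) (nat_lit 316899328)) (I.mix (nat_lit 75907072) (nat_lit 44072960)) (I.mix (nat_lit 56410112) (nat_lit 46383104)) (I.mix (nat_lit 81772544) (nat_lit 77479936)))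
  false (nat_lit 0)
def b0_5 : Bx := Bx.mk (St.mk (I.mix (nat_lit 27557888) (nat_lit 79740928)) (I.mix (nat_lit 1540096) (nat_lit 6914048)) (I.neg (nat_lit 180224) (nat_lit 9256960)) (I.pos (nat_lit 15548416) (nat_lit 58851328)) (I.mix (nat_lit 5111808) (nat_lit 7634944)) (I.mix (nat_lit 5029888) (nat_lit 4505600)) (I.mix (nat_lit 2768896) (nat_lit 2621440)))
  false (nat_lit 0)
def b0_6 : Bx := Bx.mk (St.mk (I.pos (nat_lit 101974016) (nat_lit 180420608)) (I.mix (nat_lit 59457536) (nat_lit 4882432)) (I.neg (nat_lit 5865472) (nat_lit 75710464)) (I.pos (nat_lit 72368128) (nat_lit 157646848)) (I.mix (nat_lit 85049344) (nat_lit 45563904)) (I.mix (nat_lit 50331648) (nat_lit 69943296)) (I.mix (nat_lit 41877504) (nat_lit 69844992)))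
  false (nat_lit 820215)
def b0_7 : Bx := Bx.mk (St.mk (I.mix (nat_lit 26755072) (nat_lit 106119168)) (I.mix (nat_lit 29999104) (nat_lit 6307840)) (I.mix (nat_lit 27213824) (nat_lit 770048)) (I.pos (nat_lit 12943360) (nat_lit 76775424)) (I.mix (nat_lit 37306368) (nat_lit 30687232)) (I.mix (nat_lit 25559040) (nat_lit 37994496)) (I.mix (nat_lit 16154624) (nat_lit 25231360)))
  false (nat_lit 0)
def b0_8 : Bx := Bx.mk (St.mk (I.pos (nat_lit 172048384) (nat_lit 225607680)) (I.mix (nat_lit 16891904) (nat_lit 59916288)) (I.mix (nat_lit 16908288) (nat_lit 78856192)) (I.pos (nat_lit 135823360) (nat_lit 226902016)) (I.mix (nat_lit 132972544) (nat_lit 57786368)) (I.mix (nat_lit 149815296) (nat_lit 83132416)) (I.mix (nat_lit 164724736) (nat_lit 86425600)))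
  false (nat_lit 11016089)
def b0_9 : Bx := Bx.mk (St.mk (I.mix (nat_lit 28065792) (nat_lit 133693440)) (I.mix (nat_lit 14991360) (nat_lit 36126720)) (I.mix (nat_lit 18137088) (nat_lit 20381696)) (I.pos (nat_lit 13205504) (nat_lit 96993280)) (I.mix (nat_lit 45383680) (nat_lit 28540928)) (I.mix (nat_lit 47120384) (nat_lit 31457280)) (I.mix (nat_lit 29212672) (nat_lit 19251200)))
  false (nat_lit 0)
def b0_10 : Bx := Bx.mk (St.mk (I.pos (nat_lit 110051328) (nat_lit 127139840)) (I.mix (nat_lit 2064384) (nat_lit 7634944)) (I.neg (nat_lit 2113536) (nat_lit 15204352)) (I.pos (nat_lit 64061440) (nat_lit 97878016)) (I.mix (nat_lit 6914048) (nat_lit 9404416)) (I.mix (nat_lit 6291456) (nat_lit 4718592)) (I.mix (nat_lit 5668864) (nat_lit 4325376)))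
  false (nat_lit 0)
def b0_11 : Bx := Bx.mk (St.mk (I.pos (nat_lit 192954368) (nat_lit 243417088)) (I.pos (nat_lit 4734976) (nat_lit 58277888)) (I.mix (nat_lit 5259264) (nat_lit 75661312)) (I.pos (nat_lit 191692800) (nat_lit 250724352)) (I.mix (nat_lit 81936384) (nat_lit 61292544)) (I.mix (nat_lit 76677120) (nat_lit 53641216)) (I.mix (nat_lit 121749504) (nat_lit 67698688)))
  false (nat_lit 7521167)
def b0_12 : Bx := Bx.mk (St.mk (I.pos (nat_lit 151273472) (nat_lit 215171072)) (I.mix (nat_lit 45842432) (nat_lit 20267008)) (I.mix (nat_lit 62734336) (nat_lit 22855680)) (I.pos (nat_lit 109166592) (nat_lit 206880768)) (I.mix (nat_lit 63930368) (nat_lit 50266112)) (I.mix (nat_lit 61358080) (nat_lit 53248000)) (I.mix (nat_lit 65208320) (nat_lit 55771136)))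
  false (nat_lit 10287411)
def b0_13 : Bx := Bx.mk (St.mk (I.pos (nat_lit 173408256) (nat_lit 217481216)) (I.mix (nat_lit 18120704) (nat_lit 42450944)) (I.mix (nat_lit 21807104) (nat_lit 55066624)) (I.pos (nat_lit 140525568) (nat_lit 209944576)) (I.mix (nat_lit 121470976) (nat_lit 69419008)) (I.mix (nat_lit 147914752) (nat_lit 76398592)) (I.mix (nat_lit 165412864) (nat_lit 78725120)))
  false (nat_lit 6308211)
def t0 : BTr := (BTr.n (BTr.n (BTr.n (BTr.b b0_0) (BTr.n (BTr.b b0_1) (BTr.b b0_2))) (BTr.n (BTr.n (BTr.b b0_3) (BTr.b b0_4)) (BTr.n (BTr.b b0_5) (BTr.b b0_6)))) (BTr.n (BTr.n (BTr.b b0_7) (BTr.n (BTr.b b0_8) (BTr.b b0_9))) (BTr.n (BTr.n (BTr.b b0_10) (BTr.b b0_11)) (BTr.n (BTr.b b0_12) (BTr.b b0_13)))))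
namespace T0
def l0 : Tr := Tr.L (Pth.l (Pth.l (Pth.l Pth.z)))
def l1 : Tr := Tr.L (Pth.l (Pth.l (Pth.r (Pth.l Pth.z))))
def l2 : Tr := Tr.L (Pth.l (Pth.l (Pth.r (Pth.r Pth.z))))
def l3 : Tr := Tr.L (Pth.l (Pth.r (Pth.l (Pth.l Pth.z))))
def l4 : Tr := Tr.L (Pth.l (Pth.r (Pth.l (Pth.r Pth.z))))
def l5 : Tr := Tr.L (Pth.l (Pth.r (Pth.r (Pth.l Pth.z))))
def l6 : Tr := Tr.L (Pth.l (Pth.r (Pth.r (Pth.r Pth.z))))
def l7 : Tr := Tr.L (Pth.r (Pth.l (Pth.l Pth.z)))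
def l8 : Tr := Tr.L (Pth.r (Pth.l (Pth.r (Pth.l Pth.z))))
def l9 : Tr := Tr.L (Pth.r (Pth.l (Pth.r (Pth.r Pth.z))))
def l10 : Tr := Tr.L (Pth.r (Pth.r (Pth.l (Pth.l Pth.z))))
def l11 : Tr := Tr.L (Pth.r (Pth.r (Pth.l (Pth.r Pth.z))))
def l12 : Tr := Tr.L (Pth.r (Pth.r (Pth.r (Pth.l Pth.z))))
def l13 : Tr := Tr.L (Pth.r (Pth.r (Pth.r (Pth.r Pth.z))))
end T0
def b1_0 : Bx := Bx.mk (St.mk (I.pos (nat_lit 155795456) (nat_lit 244400128)) (I.mix (nat_lit 3424256) (nat_lit 56868864)) (I.mix (nat_lit 4964352) (nat_lit 84885504)) (I.pos (nat_lit 89423872) (nat_lit 233865216)) (I.mix (nat_lit 104660992) (nat_lit 59949056)) (I.mix (nat_lit 81199104) (nat_lit 64258048)) (I.mix (nat_lit 118685696) (nat_lit 87359488)))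
  false (nat_lit 34453768)
def b1_1 : Bx := Bx.mk (St.mk (I.mix (nat_lit 19398656) (nat_lit 148439040)) (I.mix (nat_lit 2850816) (nat_lit 25690112)) (I.mix (nat_lit 11829248) (nat_lit 17563648)) (I.mix (nat_lit 5734400) (nat_lit 91406336)) (I.mix (nat_lit 25444352) (nat_lit 25870336)) (I.mix (nat_lit 22806528) (nat_lit 19709952)) (I.mix (nat_lit 18825216) (nat_lit 15564800)))
  false (nat_lit 0)
def b1_2 : Bx := Bx.mk (St.mk (I.pos (nat_lit 118865920) (nat_lit 159236096)) (I.mix (nat_lit 48316416) (nat_lit 4636672)) (I.mix (nat_lit 59539456) (nat_lit 81920)) (I.pos (nat_lit 52740096) (nat_lit 111312896)) (I.mix (nat_lit 80478208) (nat_lit 22052864)) (I.mix (nat_lit 31391744) (nat_lit 74776576)) (I.mix (nat_lit 24674304) (nat_lit 70975488)))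
  false (nat_lit 0)
def b1_3 : Bx := Bx.mk (St.mk (I.mix (nat_lit 15417344) (nat_lit 111394816)) (I.mix (nat_lit 23183360) (nat_lit 1867776)) (I.mix (nat_lit 21544960) (nat_lit 1769472)) (I.mix (nat_lit 3948544) (nat_lit 59867136)) (I.mix (nat_lit 29229056) (nat_lit 9781248)) (I.mix (nat_lit 12058624) (nat_lit 25673728)) (I.mix (nat_lit 6979584) (nat_lit 16515072)))
  false (nat_lit 0)
def b1_4 : Bx := Bx.mk (St.mk (I.pos (nat_lit 205570048) (nat_lit 270548992)) (I.mix (nat_lit 6930432) (nat_lit 33079296)) (I.mix (nat_lit 40943616) (nat_lit 39092224)) (I.pos (nat_lit 182878208) (nat_lit 296075264)) (I.mix (nat_lit 74399744) (nat_lit 38273024)) (I.mix (nat_lit 53067776) (nat_lit 43286528)) (I.mix (nat_lit 78970880) (nat_lit 71991296)))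
  false (nat_lit 3482410)
def b1_5 : Bx := Bx.mk (St.mk (I.mix (nat_lit 13156352) (nat_lit 44351488)) (I.mix (nat_lit 720896) (nat_lit 3014656)) (I.mix (nat_lit 3178496) (nat_lit 737280)) (I.mix (nat_lit 1966080) (nat_lit 24854528)) (I.mix (nat_lit 1818624) (nat_lit 3112960)) (I.mix (nat_lit 1835008) (nat_lit 1687552)) (I.mix (nat_lit 753664) (nat_lit 688128)))
  false (nat_lit 0)
def b1_6 : Bx := Bx.mk (St.mk (I.pos (nat_lit 111181824) (nat_lit 186564608)) (I.mix (nat_lit 54444032) (nat_lit 3915776)) (I.neg (nat_lit 4096000) (nat_lit 68911104)) (I.pos (nat_lit 63258624) (nat_lit 146489344)) (I.mix (nat_lit 78626816) (nat_lit 41107456)) (I.mix (nat_lit 45957120) (nat_lit 64471040)) (I.mix (nat_lit 40468480) (nat_lit 67928064)))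
  false (nat_lit 19064105)
def b1_7 : Bx := Bx.mk (St.mk (I.mix (nat_lit 18644992) (nat_lit 122355712)) (I.mix (nat_lit 27639808) (nat_lit 8519680)) (I.mix (nat_lit 24379392) (nat_lit 1933312)) (I.mix (nat_lit 4440064) (nat_lit 68534272)) (I.mix (nat_lit 31440896) (nat_lit 24903680)) (I.mix (nat_lit 21659648) (nat_lit 29671424)) (I.mix (nat_lit 12500992) (nat_lit 21381120)))
  false (nat_lit 0)
def b1_8 : Bx := Bx.mk (St.mk (I.pos (nat_lit 176013312) (nat_lit 225787904)) (I.mix (nat_lit 17383424) (nat_lit 54853632)) (I.mix (nat_lit 13402112) (nat_lit 79134720)) (I.pos (nat_lit 121159680) (nat_lit 207945728)) (I.mix (nat_lit 126435328) (nat_lit 56164352)) (I.mix (nat_lit 140967936) (nat_lit 79183872)) (I.mix (nat_lit 162430976) (nat_lit 83935232)))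
  false (nat_lit 0)
def b1_9 : Bx := Bx.mk (St.mk (I.mix (nat_lit 18776064) (nat_lit 145784832)) (I.mix (nat_lit 14794752) (nat_lit 34783232)) (I.mix (nat_lit 16449536) (nat_lit 23871488)) (I.mix (nat_lit 5521408) (nat_lit 87785472)) (I.mix (nat_lit 45137920) (nat_lit 25853952)) (I.mix (nat_lit 46579712) (nat_lit 29786112)) (I.mix (nat_lit 32784384) (nat_lit 20496384)))
  false (nat_lit 0)
def b1_10 : Bx := Bx.mk (St.mk (I.pos (nat_lit 151552000) (nat_lit 217808896)) (I.mix (nat_lit 44548096) (nat_lit 16941056)) (I.mix (nat_lit 57802752) (nat_lit 23101440)) (I.pos (nat_lit 96337920) (nat_lit 190283776)) (I.mix (nat_lit 62586880) (nat_lit 47546368)) (I.mix (nat_lit 59129856) (nat_lit 52838400)) (I.mix (nat_lit 65028096) (nat_lit 57556992)))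
  false (nat_lit 23015035)
def b1_11 : Bx := Bx.mk (St.mk (I.pos (nat_lit 176193536) (nat_lit 219840512)) (I.mix (nat_lit 21168128) (nat_lit 39370752)) (I.mix (nat_lit 20512768) (nat_lit 56377344)) (I.pos (nat_lit 123846656) (nat_lit 194396160)) (I.mix (nat_lit 119848960) (nat_lit 65961984)) (I.mix (nat_lit 144654336) (nat_lit 71516160)) (I.mix (nat_lit 168411136) (nat_lit 74760192)))
  false (nat_lit 14728608)
def b1_12 : Bx := Bx.mk (St.mk (I.pos (nat_lit 120012800) (nat_lit 136445952)) (I.mix (nat_lit 1867776) (nat_lit 6864896)) (I.mix (nat_lit 10813440) (nat_lit 409600)) (I.pos (nat_lit 54067200) (nat_lit 87572480)) (I.mix (nat_lit 5537792) (nat_lit 8323072)) (I.mix (nat_lit 5341184) (nat_lit 3457024)) (I.mix (nat_lit 5111808) (nat_lit 3014656)))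
  false (nat_lit 0)
def b1_13 : Bx := Bx.mk (St.mk (I.pos (nat_lit 194674688) (nat_lit 244531200)) (I.pos (nat_lit 4784128) (nat_lit 53903360)) (I.pos (nat_lit 491520) (nat_lit 78675968)) (I.pos (nat_lit 174374912) (nat_lit 232505344)) (I.mix (nat_lit 82624512) (nat_lit 60276736)) (I.mix (nat_lit 79101952) (nat_lit 54394880)) (I.mix (nat_lit 128319488) (nat_lit 67469312)))
  false (nat_lit 25347579)
def t1 : BTr := (BTr.n (BTr.n (BTr.n (BTr.b b1_0) (BTr.n (BTr.b b1_1) (BTr.b b1_2))) (BTr.n (BTr.n (BTr.b b1_3) (BTr.b b1_4)) (BTr.n (BTr.b b1_5) (BTr.b b1_6)))) (BTr.n (BTr.n (BTr.b b1_7) (BTr.n (BTr.b b1_8) (BTr.b b1_9))) (BTr.n (BTr.n (BTr.b b1_10) (BTr.b b1_11)) (BTr.n (BTr.b b1_12) (BTr.b b1_13)))))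
namespace T1
def l0 : Tr := Tr.L (Pth.l (Pth.l (Pth.l Pth.z)))
def l1 : Tr := Tr.L (Pth.l (Pth.l (Pth.r (Pth.l Pth.z))))
def l2 : Tr := Tr.L (Pth.l (Pth.l (Pth.r (Pth.r Pth.z))))
def l3 : Tr := Tr.L (Pth.l (Pth.r (Pth.l (Pth.l Pth.z))))
def l4 : Tr := Tr.L (Pth.l (Pth.r (Pth.l (Pth.r Pth.z))))
def l5 : Tr := Tr.L (Pth.l (Pth.r (Pth.r (Pth.l Pth.z))))
def l6 : Tr := Tr.L (Pth.l (Pth.r (Pth.r (Pth.r Pth.z))))
def l7 : Tr := Tr.L (Pth.r (Pth.l (Pth.l Pth.z)))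
def l8 : Tr := Tr.L (Pth.r (Pth.l (Pth.r (Pth.l Pth.z))))
def l9 : Tr := Tr.L (Pth.r (Pth.l (Pth.r (Pth.r Pth.z))))
def l10 : Tr := Tr.L (Pth.r (Pth.r (Pth.l (Pth.l Pth.z))))
def l11 : Tr := Tr.L (Pth.r (Pth.r (Pth.l (Pth.r Pth.z))))
def l12 : Tr := Tr.L (Pth.r (Pth.r (Pth.r (Pth.l Pth.z))))
def l13 : Tr := Tr.L (Pth.r (Pth.r (Pth.r (Pth.r Pth.z))))
end T1
def b2_0 : Bx := Bx.mk (St.mk (I.pos (nat_lit 153436160) (nat_lit 232177664)) (I.mix (nat_lit 4620288) (nat_lit 77201408)) (I.mix (nat_lit 5996544) (nat_lit 101416960)) (I.pos (nat_lit 232783872) (nat_lit 340066304)) (I.mix (nat_lit 115081216) (nat_lit 71139328)) (I.mix (nat_lit 81559552) (nat_lit 68354048)) (I.mix (nat_lit 105447424) (nat_lit 89243648)))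
  false (nat_lit 117533055)
def b2_1 : Bx := Bx.mk (St.mk (I.pos (nat_lit 22315008) (nat_lit 73138176)) (I.mix (nat_lit 10272768) (nat_lit 46923776)) (I.mix (nat_lit 27017216) (nat_lit 4423680)) (I.pos (nat_lit 142622720) (nat_lit 162512896)) (I.mix (nat_lit 30179328) (nat_lit 45006848)) (I.mix (nat_lit 44908544) (nat_lit 26968064)) (I.mix (nat_lit 23527424) (nat_lit 13189120)))
  false (nat_lit 0)
def b2_2 : Bx := Bx.mk (St.mk (I.pos (nat_lit 51200000) (nat_lit 103743488)) (I.mix (nat_lit 63864832) (nat_lit 11632640)) (I.neg (nat_lit 10387456) (nat_lit 57819136)) (I.pos (nat_lit 148881408) (nat_lit 184074240)) (I.mix (nat_lit 78331904) (nat_lit 31391744)) (I.mix (nat_lit 35651584) (nat_lit 78594048)) (I.mix (nat_lit 24690688) (nat_lit 47136768)))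
  false (nat_lit 0)
def b2_3 : Bx := Bx.mk (St.mk (I.neg (nat_lit 22298624) (nat_lit 73138176)) (I.mix (nat_lit 46923776) (nat_lit 10272768)) (I.mix (nat_lit 27017216) (nat_lit 4423680)) (I.pos (nat_lit 142622720) (nat_lit 162512896)) (I.mix (nat_lit 45006848) (nat_lit 30179328)) (I.mix (nat_lit 26968064) (nat_lit 44908544)) (I.mix (nat_lit 23527424) (nat_lit 13189120)))
  true (nat_lit 0)
def b2_4 : Bx := Bx.mk (St.mk (I.pos (nat_lit 71811072) (nat_lit 152518656)) (I.neg (nat_lit 3276800) (nat_lit 74596352)) (I.mix (nat_lit 68632576) (nat_lit 131072)) (I.pos (nat_lit 162004992) (nat_lit 229949440)) (I.mix (nat_lit 78675968) (nat_lit 48070656)) (I.mix (nat_lit 42024960) (nat_lit 68730880)) (I.mix (nat_lit 36585472) (nat_lit 59604992)))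
  false (nat_lit 0)
def b2_5 : Bx := Bx.mk (St.mk (I.mix (nat_lit 38305792) (nat_lit 7045120)) (I.mix (nat_lit 41172992) (nat_lit 8028160)) (I.mix (nat_lit 7290880) (nat_lit 2686976)) (I.pos (nat_lit 140165120) (nat_lit 150913024)) (I.mix (nat_lit 28819456) (nat_lit 36880384)) (I.mix (nat_lit 22986752) (nat_lit 39993344)) (I.mix (nat_lit 5455872) (nat_lit 5079040)))
  true (nat_lit 0)
def b2_6 : Bx := Bx.mk (St.mk (I.pos (nat_lit 153075712) (nat_lit 204996608)) (I.pos (nat_lit 557056) (nat_lit 68485120)) (I.pos (nat_lit 9437184) (nat_lit 92831744)) (I.pos (nat_lit 234930176) (nat_lit 300285952)) (I.mix (nat_lit 124469248) (nat_lit 40108032)) (I.mix (nat_lit 123551744) (nat_lit 64290816)) (I.mix (nat_lit 120061952) (nat_lit 67403776)))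
  false (nat_lit 86456446)
def b2_7 : Bx := Bx.mk (St.mk (I.mix (nat_lit 7028736) (nat_lit 38305792)) (I.mix (nat_lit 8028160) (nat_lit 41172992)) (I.mix (nat_lit 7290880) (nat_lit 2686976)) (I.pos (nat_lit 140165120) (nat_lit 150913024)) (I.mix (nat_lit 36880384) (nat_lit 28819456)) (I.mix (nat_lit 39993344) (nat_lit 22986752)) (I.mix (nat_lit 5455872) (nat_lit 5079040)))
  false (nat_lit 0)
def b2_8 : Bx := Bx.mk (St.mk (I.pos (nat_lit 185352192) (nat_lit 287457280)) (I.mix (nat_lit 25264128) (nat_lit 55033856)) (I.mix (nat_lit 103088128) (nat_lit 60555264)) (I.pos (nat_lit 287113216) (nat_lit 445431808)) (I.mix (nat_lit 77496320) (nat_lit 54902784)) (I.mix (nat_lit 67076096) (nat_lit 47710208)) (I.mix (nat_lit 105250816) (nat_lit 87801856)))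
  false (nat_lit 107670110)
def b2_9 : Bx := Bx.mk (St.mk (I.pos (nat_lit 125239296) (nat_lit 194461696)) (I.mix (nat_lit 42156032) (nat_lit 28295168)) (I.mix (nat_lit 39829504) (nat_lit 42663936)) (I.pos (nat_lit 204455936) (nat_lit 278446080)) (I.mix (nat_lit 57196544) (nat_lit 53182464)) (I.mix (nat_lit 59506688) (nat_lit 54542336)) (I.mix (nat_lit 56999936) (nat_lit 51085312)))
  false (nat_lit 0)
def b2_10 : Bx := Bx.mk (St.mk (I.pos (nat_lit 155189248) (nat_lit 198639616)) (I.mix (nat_lit 7274496) (nat_lit 53460992)) (I.mix (nat_lit 2605056) (nat_lit 75759616)) (I.pos (nat_lit 239976448) (nat_lit 285917184)) (I.mix (nat_lit 124600320) (nat_lit 65716224)) (I.mix (nat_lit 143360000) (nat_lit 71122944)) (I.mix (nat_lit 142688256) (nat_lit 69959680)))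
  false (nat_lit 53040408)
def b2_11 : Bx := Bx.mk (St.mk (I.pos (nat_lit 170311680) (nat_lit 226902016)) (I.pos (nat_lit 21594112) (nat_lit 78118912)) (I.pos (nat_lit 20332544) (nat_lit 100532224)) (I.pos (nat_lit 278904832) (nat_lit 330088448)) (I.mix (nat_lit 113868800) (nat_lit 93192192)) (I.mix (nat_lit 113164288) (nat_lit 78512128)) (I.mix (nat_lit 157564928) (nat_lit 98009088)))
  false (nat_lit 88138894)
def t2 : BTr := (BTr.n (BTr.n (BTr.n (BTr.b b2_0) (BTr.n (BTr.b b2_1) (BTr.b b2_2))) (BTr.n (BTr.b b2_3) (BTr.n (BTr.b b2_4) (BTr.b b2_5)))) (BTr.n (BTr.n (BTr.b b2_6) (BTr.n (BTr.b b2_7) (BTr.b b2_8))) (BTr.n (BTr.b b2_9) (BTr.n (BTr.b b2_10) (BTr.b b2_11)))))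
namespace T2
def l0 : Tr := Tr.L (Pth.l (Pth.l (Pth.l Pth.z)))
def l1 : Tr := Tr.L (Pth.l (Pth.l (Pth.r (Pth.l Pth.z))))
def l2 : Tr := Tr.L (Pth.l (Pth.l (Pth.r (Pth.r Pth.z))))
def l3 : Tr := Tr.L (Pth.l (Pth.r (Pth.l Pth.z)))
def l4 : Tr := Tr.L (Pth.l (Pth.r (Pth.r (Pth.l Pth.z))))
def l5 : Tr := Tr.L (Pth.l (Pth.r (Pth.r (Pth.r Pth.z))))
def l6 : Tr := Tr.L (Pth.r (Pth.l (Pth.l Pth.z)))
def l7 : Tr := Tr.L (Pth.r (Pth.l (Pth.r (Pth.l Pth.z))))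
def l8 : Tr := Tr.L (Pth.r (Pth.l (Pth.r (Pth.r Pth.z))))
def l9 : Tr := Tr.L (Pth.r (Pth.r (Pth.l Pth.z)))
def l10 : Tr := Tr.L (Pth.r (Pth.r (Pth.r (Pth.l Pth.z))))
def l11 : Tr := Tr.L (Pth.r (Pth.r (Pth.r (Pth.r Pth.z))))
end T2
def b3_0 : Bx := Bx.mk (St.mk (I.pos (nat_lit 155893760) (nat_lit 242630656)) (I.mix (nat_lit 2916352) (nat_lit 51347456)) (I.mix (nat_lit 6291456) (nat_lit 111525888)) (I.pos (nat_lit 89014272) (nat_lit 221020160)) (I.mix (nat_lit 115933184) (nat_lit 70156288)) (I.mix (nat_lit 103645184) (nat_lit 80363520)) (I.mix (nat_lit 148422656) (nat_lit 106496000)))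
  false (nat_lit 37004965)
def b3_1 : Bx := Bx.mk (St.mk (I.pos (nat_lit 120995840) (nat_lit 182353920)) (I.neg (nat_lit 3588096) (nat_lit 56066048)) (I.mix (nat_lit 46612480) (nat_lit 5292032)) (I.pos (nat_lit 72007680) (nat_lit 140148736)) (I.mix (nat_lit 63602688) (nat_lit 35520512)) (I.mix (nat_lit 37584896) (nat_lit 45547520)) (I.mix (nat_lit 32849920) (nat_lit 48709632)))
  false (nat_lit 8487492)
def b3_2 : Bx := Bx.mk (St.mk (I.mix (nat_lit 16171008) (nat_lit 123584512)) (I.mix (nat_lit 26624000) (nat_lit 4243456)) (I.mix (nat_lit 14319616) (nat_lit 7651328)) (I.mix (nat_lit 4358144) (nat_lit 67272704)) (I.mix (nat_lit 22298624) (nat_lit 20201472)) (I.mix (nat_lit 16105472) (nat_lit 19251200)) (I.mix (nat_lit 10682368) (nat_lit 13533184)))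
  false (nat_lit 0)
def b3_3 : Bx := Bx.mk (St.mk (I.pos (nat_lit 172785664) (nat_lit 219512832)) (I.mix (nat_lit 16138240) (nat_lit 51576832)) (I.pos (nat_lit 8683520) (nat_lit 102531072)) (I.pos (nat_lit 112984064) (nat_lit 190545920)) (I.mix (nat_lit 125992960) (nat_lit 56066048)) (I.mix (nat_lit 138641408) (nat_lit 76136448)) (I.mix (nat_lit 167559168) (nat_lit 69763072)))
  false (nat_lit 47263182)
def b3_4 : Bx := Bx.mk (St.mk (I.mix (nat_lit 18055168) (nat_lit 141737984)) (I.mix (nat_lit 10600448) (nat_lit 33947648)) (I.mix (nat_lit 2605056) (nat_lit 36110336)) (I.mix (nat_lit 5308416) (nat_lit 84099072)) (I.mix (nat_lit 51118080) (nat_lit 21774336)) (I.mix (nat_lit 45334528) (nat_lit 25870336)) (I.mix (nat_lit 34357248) (nat_lit 15925248)))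
  false (nat_lit 0)
def b3_5 : Bx := Bx.mk (St.mk (I.pos (nat_lit 163545088) (nat_lit 212844544)) (I.mix (nat_lit 33751040) (nat_lit 10518528)) (I.mix (nat_lit 15482880) (nat_lit 43139072)) (I.pos (nat_lit 103055360) (nat_lit 178667520)) (I.mix (nat_lit 46759936) (nat_lit 53919744)) (I.mix (nat_lit 51232768) (nat_lit 54427648)) (I.mix (nat_lit 52527104) (nat_lit 58327040)))
  false (nat_lit 9293760)
def b3_6 : Bx := Bx.mk (St.mk (I.pos (nat_lit 162529280) (nat_lit 183353344)) (I.neg (nat_lit 11829248) (nat_lit 35373056)) (I.mix (nat_lit 22331392) (nat_lit 4685824)) (I.pos (nat_lit 103284736) (nat_lit 143212544)) (I.mix (nat_lit 22659072) (nat_lit 15941632)) (I.mix (nat_lit 12189696) (nat_lit 16203776)) (I.mix (nat_lit 12730368) (nat_lit 17956864)))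
  false (nat_lit 0)
def b3_7 : Bx := Bx.mk (St.mk (I.pos (nat_lit 43548672) (nat_lit 117211136)) (I.mix (nat_lit 12271616) (nat_lit 1392640)) (I.mix (nat_lit 3325952) (nat_lit 7667712)) (I.pos (nat_lit 5668864) (nat_lit 67551232)) (I.mix (nat_lit 5947392) (nat_lit 8880128)) (I.mix (nat_lit 4358144) (nat_lit 5799936)) (I.mix (nat_lit 2867200) (nat_lit 4243456)))
  false (nat_lit 0)
def b3_8 : Bx := Bx.mk (St.mk (I.mix (nat_lit 22102016) (nat_lit 148209664)) (I.mix (nat_lit 6733824) (nat_lit 23904256)) (I.mix (nat_lit 2326528) (nat_lit 31162368)) (I.mix (nat_lit 5799936) (nat_lit 92618752)) (I.mix (nat_lit 35913728) (nat_lit 29573120)) (I.mix (nat_lit 37208064) (nat_lit 27115520)) (I.mix (nat_lit 32358400) (nat_lit 19841024)))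
  false (nat_lit 0)
def b3_9 : Bx := Bx.mk (St.mk (I.pos (nat_lit 116572160) (nat_lit 167723008)) (I.mix (nat_lit 55001088) (nat_lit 9781248)) (I.mix (nat_lit 46219264) (nat_lit 18087936)) (I.pos (nat_lit 51986432) (nat_lit 120602624)) (I.mix (nat_lit 76431360) (nat_lit 28557312)) (I.mix (nat_lit 35684352) (nat_lit 71286784)) (I.mix (nat_lit 30965760) (nat_lit 61440000)))
  false (nat_lit 0)
def b3_10 : Bx := Bx.mk (St.mk (I.mix (nat_lit 15646720) (nat_lit 115621888)) (I.mix (nat_lit 24641536) (nat_lit 4751360)) (I.mix (nat_lit 12681216) (nat_lit 8454144)) (I.mix (nat_lit 4079616) (nat_lit 62390272)) (I.mix (nat_lit 28803072) (nat_lit 18726912)) (I.mix (nat_lit 19890176) (nat_lit 29294592)) (I.mix (nat_lit 11337728) (nat_lit 17072128)))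
  false (nat_lit 0)
def b3_11 : Bx := Bx.mk (St.mk (I.pos (nat_lit 195788800) (nat_lit 283213824)) (I.mix (nat_lit 21086208) (nat_lit 37863424)) (I.mix (nat_lit 18907136) (nat_lit 92930048)) (I.pos (nat_lit 164659200) (nat_lit 314687488)) (I.mix (nat_lit 75907072) (nat_lit 50577408)) (I.mix (nat_lit 65650688) (nat_lit 43352064)) (I.mix (nat_lit 105332736) (nat_lit 66994176)))
  false (nat_lit 43710227)
def b3_12 : Bx := Bx.mk (St.mk (I.pos (nat_lit 183369728) (nat_lit 238829568)) (I.pos (nat_lit 5603328) (nat_lit 51118080)) (I.pos (nat_lit 28409856) (nat_lit 111673344)) (I.pos (nat_lit 153354240) (nat_lit 211714048)) (I.mix (nat_lit 100614144) (nat_lit 77037568)) (I.mix (nat_lit 104333312) (nat_lit 77594624)) (I.mix (nat_lit 156893184) (nat_lit 102678528)))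
  false (nat_lit 43383319)
def b3_13 : Bx := Bx.mk (St.mk (I.pos (nat_lit 175030272) (nat_lit 214204416)) (I.mix (nat_lit 23576576) (nat_lit 27443200)) (I.pos (nat_lit 1097728) (nat_lit 67993600)) (I.pos (nat_lit 113459200) (nat_lit 182304768)) (I.mix (nat_lit 79593472) (nat_lit 50724864)) (I.mix (nat_lit 89014272) (nat_lit 55803904)) (I.mix (nat_lit 109297664) (nat_lit 56147968)))
  false (nat_lit 27555287)
def t3 : BTr := (BTr.n (BTr.n (BTr.n (BTr.b b3_0) (BTr.n (BTr.b b3_1) (BTr.b b3_2))) (BTr.n (BTr.n (BTr.b b3_3) (BTr.b b3_4)) (BTr.n (BTr.b b3_5) (BTr.b b3_6)))) (BTr.n (BTr.n (BTr.b b3_7) (BTr.n (BTr.b b3_8) (BTr.b b3_9))) (BTr.n (BTr.n (BTr.b b3_10) (BTr.b b3_11)) (BTr.n (BTr.b b3_12) (BTr.b b3_13)))))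
namespace T3
def l0 : Tr := Tr.L (Pth.l (Pth.l (Pth.l Pth.z)))
def l1 : Tr := Tr.L (Pth.l (Pth.l (Pth.r (Pth.l Pth.z))))
def l2 : Tr := Tr.L (Pth.l (Pth.l (Pth.r (Pth.r Pth.z))))
def l3 : Tr := Tr.L (Pth.l (Pth.r (Pth.l (Pth.l Pth.z))))
def l4 : Tr := Tr.L (Pth.l (Pth.r (Pth.l (Pth.r Pth.z))))
def l5 : Tr := Tr.L (Pth.l (Pth.r (Pth.r (Pth.l Pth.z))))
def l6 : Tr := Tr.L (Pth.l (Pth.r (Pth.r (Pth.r Pth.z))))
def l7 : Tr := Tr.L (Pth.r (Pth.l (Pth.l Pth.z)))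
def l8 : Tr := Tr.L (Pth.r (Pth.l (Pth.r (Pth.l Pth.z))))
def l9 : Tr := Tr.L (Pth.r (Pth.l (Pth.r (Pth.r Pth.z))))
def l10 : Tr := Tr.L (Pth.r (Pth.r (Pth.l (Pth.l Pth.z))))
def l11 : Tr := Tr.L (Pth.r (Pth.r (Pth.l (Pth.r Pth.z))))
def l12 : Tr := Tr.L (Pth.r (Pth.r (Pth.r (Pth.l Pth.z))))
def l13 : Tr := Tr.L (Pth.r (Pth.r (Pth.r (Pth.r Pth.z))))
end T3
def b4_0 : Bx := Bx.mk (St.mk (I.pos (nat_lit 150683648) (nat_lit 229916672)) (I.mix (nat_lit 4325376) (nat_lit 75841536)) (I.mix (nat_lit 6242304) (nat_lit 110149632)) (I.pos (nat_lit 231964672) (nat_lit 335937536)) (I.mix (nat_lit 120029184) (nat_lit 73089024)) (I.mix (nat_lit 88047616) (nat_lit 72286208)) (I.mix (nat_lit 112803840) (nat_lit 91521024)))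
  false (nat_lit 138877136)
def b4_1 : Bx := Bx.mk (St.mk (I.pos (nat_lit 74563584) (nat_lit 153747456)) (I.neg (nat_lit 4521984) (nat_lit 74530816)) (I.mix (nat_lit 62324736) (nat_lit 7929856)) (I.pos (nat_lit 164397056) (nat_lit 230440960)) (I.mix (nat_lit 73564160) (nat_lit 50921472)) (I.mix (nat_lit 41156608) (nat_lit 69304320)) (I.mix (nat_lit 37224448) (nat_lit 59572224)))
  false (nat_lit 0)
def b4_2 : Bx := Bx.mk (St.mk (I.mix (nat_lit 36503552) (nat_lit 7716864)) (I.mix (nat_lit 41369600) (nat_lit 8404992)) (I.mix (nat_lit 2146304) (nat_lit 7618560)) (I.pos (nat_lit 140017664) (nat_lit 150372352)) (I.mix (nat_lit 26312704) (nat_lit 39665664)) (I.mix (nat_lit 22839296) (nat_lit 41680896)) (I.mix (nat_lit 5029888) (nat_lit 5259264)))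
  true (nat_lit 0)
def b4_3 : Bx := Bx.mk (St.mk (I.pos (nat_lit 151764992) (nat_lit 203014144)) (I.pos (nat_lit 344064) (nat_lit 68272128)) (I.pos (nat_lit 16760832) (nat_lit 101384192)) (I.pos (nat_lit 231358464) (nat_lit 295206912)) (I.mix (nat_lit 126337024) (nat_lit 37355520)) (I.mix (nat_lit 123830272) (nat_lit 61194240)) (I.mix (nat_lit 121864192) (nat_lit 64569344)))
  false (nat_lit 99777848)
def b4_4 : Bx := Bx.mk (St.mk (I.mix (nat_lit 7716864) (nat_lit 36519936)) (I.mix (nat_lit 8404992) (nat_lit 41369600)) (I.mix (nat_lit 2146304) (nat_lit 7618560)) (I.pos (nat_lit 140017664) (nat_lit 150372352)) (I.mix (nat_lit 39665664) (nat_lit 26312704)) (I.mix (nat_lit 41680896) (nat_lit 22839296)) (I.mix (nat_lit 5029888) (nat_lit 5259264)))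
  false (nat_lit 0)
def b4_5 : Bx := Bx.mk (St.mk (I.pos (nat_lit 20414464) (nat_lit 72613888)) (I.mix (nat_lit 9142272) (nat_lit 46891008)) (I.mix (nat_lit 21037056) (nat_lit 9551872)) (I.pos (nat_lit 142163968) (nat_lit 162070528)) (I.mix (nat_lit 32538624) (nat_lit 41435136)) (I.mix (nat_lit 42582016) (nat_lit 27279360)) (I.mix (nat_lit 22364160) (nat_lit 13746176)))
  false (nat_lit 0)
def b4_6 : Bx := Bx.mk (St.mk (I.pos (nat_lit 52281344) (nat_lit 105758720)) (I.mix (nat_lit 64847872) (nat_lit 10584064)) (I.neg (nat_lit 5832704) (nat_lit 52363264)) (I.pos (nat_lit 149635072) (nat_lit 185647104)) (I.mix (nat_lit 75251712) (nat_lit 33357824)) (I.mix (nat_lit 35848192) (nat_lit 74268672)) (I.mix (nat_lit 25395200) (nat_lit 43745280)))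
  false (nat_lit 0)
def b4_7 : Bx := Bx.mk (St.mk (I.neg (nat_lit 20414464) (nat_lit 72613888)) (I.mix (nat_lit 46891008) (nat_lit 9142272)) (I.mix (nat_lit 21037056) (nat_lit 9551872)) (I.pos (nat_lit 142163968) (nat_lit 162070528)) (I.mix (nat_lit 41435136) (nat_lit 32538624)) (I.mix (nat_lit 27279360) (nat_lit 42582016)) (I.mix (nat_lit 22364160) (nat_lit 13746176)))
  true (nat_lit 0)
def b4_8 : Bx := Bx.mk (St.mk (I.pos (nat_lit 125091840) (nat_lit 193298432)) (I.mix (nat_lit 41598976) (nat_lit 26017792)) (I.mix (nat_lit 31064064) (nat_lit 49479680)) (I.pos (nat_lit 203489280) (nat_lit 274694144)) (I.mix (nat_lit 60030976) (nat_lit 57131008)) (I.mix (nat_lit 61898752) (nat_lit 57933824)) (I.mix (nat_lit 58621952) (nat_lit 54738944)))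
  false (nat_lit 0)
def b4_9 : Bx := Bx.mk (St.mk (I.pos (nat_lit 181829632) (nat_lit 285868032)) (I.mix (nat_lit 21364736) (nat_lit 57065472)) (I.mix (nat_lit 80756736) (nat_lit 78004224)) (I.pos (nat_lit 280543232) (nat_lit 439730176)) (I.mix (nat_lit 74547200) (nat_lit 59588608)) (I.mix (nat_lit 63291392) (nat_lit 41549824)) (I.mix (nat_lit 100696064) (nat_lit 66093056)))
  false (nat_lit 125319911)
def b4_10 : Bx := Bx.mk (St.mk (I.pos (nat_lit 168296448) (nat_lit 228540416)) (I.pos (nat_lit 12042240) (nat_lit 75317248)) (I.pos (nat_lit 11583488) (nat_lit 108347392)) (I.pos (nat_lit 273301504) (nat_lit 327761920)) (I.mix (nat_lit 117080064) (nat_lit 89309184)) (I.mix (nat_lit 112984064) (nat_lit 78151680)) (I.mix (nat_lit 160333824) (nat_lit 93929472)))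
  false (nat_lit 86072050)
def b4_11 : Bx := Bx.mk (St.mk (I.pos (nat_lit 152502272) (nat_lit 196722688)) (I.mix (nat_lit 8110080) (nat_lit 53575680)) (I.pos (nat_lit 4964352) (nat_lit 84901888)) (I.pos (nat_lit 234422272) (nat_lit 282230784)) (I.mix (nat_lit 131842048) (nat_lit 65781760)) (I.mix (nat_lit 151552000) (nat_lit 71942144)) (I.mix (nat_lit 151732224) (nat_lit 70598656)))
  false (nat_lit 58839884)
def t4 : BTr := (BTr.n (BTr.n (BTr.n (BTr.b b4_0) (BTr.n (BTr.b b4_1) (BTr.b b4_2))) (BTr.n (BTr.b b4_3) (BTr.n (BTr.b b4_4) (BTr.b b4_5)))) (BTr.n (BTr.n (BTr.b b4_6) (BTr.n (BTr.b b4_7) (BTr.b b4_8))) (BTr.n (BTr.b b4_9) (BTr.n (BTr.b b4_10) (BTr.b b4_11)))))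
namespace T4
def l0 : Tr := Tr.L (Pth.l (Pth.l (Pth.l Pth.z)))
def l1 : Tr := Tr.L (Pth.l (Pth.l (Pth.r (Pth.l Pth.z))))
def l2 : Tr := Tr.L (Pth.l (Pth.l (Pth.r (Pth.r Pth.z))))
def l3 : Tr := Tr.L (Pth.l (Pth.r (Pth.l Pth.z)))
def l4 : Tr := Tr.L (Pth.l (Pth.r (Pth.r (Pth.l Pth.z))))
def l5 : Tr := Tr.L (Pth.l (Pth.r (Pth.r (Pth.r Pth.z))))
def l6 : Tr := Tr.L (Pth.r (Pth.l (Pth.l Pth.z)))
def l7 : Tr := Tr.L (Pth.r (Pth.l (Pth.r (Pth.l Pth.z))))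
def l8 : Tr := Tr.L (Pth.r (Pth.l (Pth.r (Pth.r Pth.z))))
def l9 : Tr := Tr.L (Pth.r (Pth.r (Pth.l Pth.z)))
def l10 : Tr := Tr.L (Pth.r (Pth.r (Pth.r (Pth.l Pth.z))))
def l11 : Tr := Tr.L (Pth.r (Pth.r (Pth.r (Pth.r Pth.z))))
end T4
def b5_0 : Bx := Bx.mk (St.mk (I.pos (nat_lit 156106752) (nat_lit 238911488)) (I.mix (nat_lit 3031040) (nat_lit 51920896)) (I.mix (nat_lit 6438912) (nat_lit 113475584)) (I.pos (nat_lit 108331008) (nat_lit 234618880)) (I.mix (nat_lit 115294208) (nat_lit 71270400)) (I.mix (nat_lit 101597184) (nat_lit 81199104)) (I.mix (nat_lit 145096704) (nat_lit 103170048)))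
  false (nat_lit 39852551)
def b5_1 : Bx := Bx.mk (St.mk (I.pos (nat_lit 114212864) (nat_lit 177782784)) (I.neg (nat_lit 5963776) (nat_lit 58884096)) (I.mix (nat_lit 46022656) (nat_lit 9011200)) (I.pos (nat_lit 83427328) (nat_lit 153042944)) (I.mix (nat_lit 62816256) (nat_lit 35848192)) (I.mix (nat_lit 36519936) (nat_lit 44253184)) (I.mix (nat_lit 33538048) (nat_lit 45531136)))
  false (nat_lit 8176925)
def b5_2 : Bx := Bx.mk (St.mk (I.mix (nat_lit 25018368) (nat_lit 107544576)) (I.mix (nat_lit 30769152) (nat_lit 1900544)) (I.mix (nat_lit 12599296) (nat_lit 9764864)) (I.pos (nat_lit 13680640) (nat_lit 75464704)) (I.mix (nat_lit 25051136) (nat_lit 28426240)) (I.mix (nat_lit 22282240) (nat_lit 25919488)) (I.mix (nat_lit 12320768) (nat_lit 16089088)))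
  false (nat_lit 0)
def b5_3 : Bx := Bx.mk (St.mk (I.pos (nat_lit 168640512) (nat_lit 217186304)) (I.mix (nat_lit 15089664) (nat_lit 55607296)) (I.pos (nat_lit 13074432) (nat_lit 109838336)) (I.pos (nat_lit 123781120) (nat_lit 205553664)) (I.mix (nat_lit 128892928) (nat_lit 52690944)) (I.mix (nat_lit 136413184) (nat_lit 74678272)) (I.mix (nat_lit 160890880) (nat_lit 67502080)))
  false (nat_lit 53519182)
def b5_4 : Bx := Bx.mk (St.mk (I.mix (nat_lit 27508736) (nat_lit 128352256)) (I.mix (nat_lit 10502144) (nat_lit 35520512)) (I.mix (nat_lit 1933312) (nat_lit 37191680)) (I.pos (nat_lit 13320192) (nat_lit 92684288)) (I.mix (nat_lit 50888704) (nat_lit 20234240)) (I.mix (nat_lit 44875776) (nat_lit 26165248)) (I.mix (nat_lit 30572544) (nat_lit 15663104)))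
  false (nat_lit 0)
def b5_5 : Bx := Bx.mk (St.mk (I.pos (nat_lit 158973952) (nat_lit 209731584)) (I.mix (nat_lit 33161216) (nat_lit 11878400)) (I.mix (nat_lit 10862592) (nat_lit 49332224)) (I.pos (nat_lit 115113984) (nat_lit 192282624)) (I.mix (nat_lit 48431104) (nat_lit 55115776)) (I.mix (nat_lit 52428800) (nat_lit 54394880)) (I.mix (nat_lit 53067776) (nat_lit 56180736)))
  false (nat_lit 20843473)
def b5_6 : Bx := Bx.mk (St.mk (I.mix (nat_lit 28131328) (nat_lit 111329280)) (I.mix (nat_lit 13090816) (nat_lit 2605056)) (I.mix (nat_lit 1277952) (nat_lit 10125312)) (I.pos (nat_lit 14647296) (nat_lit 78036992)) (I.mix (nat_lit 6701056) (nat_lit 10698752)) (I.mix (nat_lit 5390336) (nat_lit 7749632)) (I.mix (nat_lit 3260416) (nat_lit 4997120)))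
  false (nat_lit 0)
def b5_7 : Bx := Bx.mk (St.mk (I.pos (nat_lit 157761536) (nat_lit 179191808)) (I.neg (nat_lit 12697600) (nat_lit 36536320)) (I.mix (nat_lit 19513344) (nat_lit 9175040)) (I.pos (nat_lit 115752960) (nat_lit 156352512)) (I.mix (nat_lit 21872640) (nat_lit 17809408)) (I.mix (nat_lit 13058048) (nat_lit 15695872)) (I.mix (nat_lit 12992512) (nat_lit 17055744)))
  false (nat_lit 0)
def b5_8 : Bx := Bx.mk (St.mk (I.mix (nat_lit 28098560) (nat_lit 136642560)) (I.mix (nat_lit 7012352) (nat_lit 28065792)) (I.mix (nat_lit 1441792) (nat_lit 32915456)) (I.pos (nat_lit 11124736) (nat_lit 101744640)) (I.mix (nat_lit 39550976) (nat_lit 31211520)) (I.mix (nat_lit 40550400) (nat_lit 28884992)) (I.mix (nat_lit 32702464) (nat_lit 20660224)))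
  false (nat_lit 0)
def b5_9 : Bx := Bx.mk (St.mk (I.pos (nat_lit 107315200) (nat_lit 161775616)) (I.mix (nat_lit 58261504) (nat_lit 10420224)) (I.mix (nat_lit 44711936) (nat_lit 19070976)) (I.pos (nat_lit 62930944) (nat_lit 132153344)) (I.mix (nat_lit 74481664) (nat_lit 31047680)) (I.mix (nat_lit 37945344) (nat_lit 72990720)) (I.mix (nat_lit 29786112) (nat_lit 57294848)))
  false (nat_lit 6777233)
def b5_10 : Bx := Bx.mk (St.mk (I.pos (nat_lit 170278912) (nat_lit 211484672)) (I.mix (nat_lit 21741568) (nat_lit 32571392)) (I.pos (nat_lit 6930432) (nat_lit 79298560)) (I.pos (nat_lit 126337024) (nat_lit 194461696)) (I.mix (nat_lit 104087552) (nat_lit 53100544)) (I.mix (nat_lit 118620160) (nat_lit 55934976)) (I.mix (nat_lit 140509184) (nat_lit 54067200)))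
  false (nat_lit 46878696)
def b5_11 : Bx := Bx.mk (St.mk (I.mix (nat_lit 22020096) (nat_lit 99680256)) (I.mix (nat_lit 26951680) (nat_lit 5324800)) (I.mix (nat_lit 10502144) (nat_lit 10878976)) (I.pos (nat_lit 14811136) (nat_lit 70172672)) (I.mix (nat_lit 30097408) (nat_lit 21676032)) (I.mix (nat_lit 21102592) (nat_lit 30408704)) (I.mix (nat_lit 10207232) (nat_lit 14811136)))
  false (nat_lit 0)
def b5_12 : Bx := Bx.mk (St.mk (I.pos (nat_lit 191496192) (nat_lit 282525696)) (I.mix (nat_lit 17776640) (nat_lit 41402368)) (I.mix (nat_lit 10780672) (nat_lit 100352000)) (I.pos (nat_lit 176635904) (nat_lit 330498048)) (I.mix (nat_lit 78102528) (nat_lit 53837824)) (I.mix (nat_lit 67338240) (nat_lit 45105152)) (I.mix (nat_lit 105922560) (nat_lit 64012288)))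
  false (nat_lit 51946632)
def b5_13 : Bx := Bx.mk (St.mk (I.pos (nat_lit 179388416) (nat_lit 235257856)) (I.pos (nat_lit 10141696) (nat_lit 52953088)) (I.pos (nat_lit 38158336) (nat_lit 115818496)) (I.pos (nat_lit 167936000) (nat_lit 224018432)) (I.mix (nat_lit 105594880) (nat_lit 79839232)) (I.mix (nat_lit 108871680) (nat_lit 79560704)) (I.mix (nat_lit 161284096) (nat_lit 102727680)))
  false (nat_lit 49170287)
def t5 : BTr := (BTr.n (BTr.n (BTr.n (BTr.b b5_0) (BTr.n (BTr.b b5_1) (BTr.b b5_2))) (BTr.n (BTr.n (BTr.b b5_3) (BTr.b b5_4)) (BTr.n (BTr.b b5_5) (BTr.b b5_6)))) (BTr.n (BTr.n (BTr.b b5_7) (BTr.n (BTr.b b5_8) (BTr.b b5_9))) (BTr.n (BTr.n (BTr.b b5_10) (BTr.b b5_11)) (BTr.n (BTr.b b5_12) (BTr.b b5_13)))))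
namespace T5
def l0 : Tr := Tr.L (Pth.l (Pth.l (Pth.l Pth.z)))
def l1 : Tr := Tr.L (Pth.l (Pth.l (Pth.r (Pth.l Pth.z))))
def l2 : Tr := Tr.L (Pth.l (Pth.l (Pth.r (Pth.r Pth.z))))
def l3 : Tr := Tr.L (Pth.l (Pth.r (Pth.l (Pth.l Pth.z))))
def l4 : Tr := Tr.L (Pth.l (Pth.r (Pth.l (Pth.r Pth.z))))
def l5 : Tr := Tr.L (Pth.l (Pth.r (Pth.r (Pth.l Pth.z))))
def l6 : Tr := Tr.L (Pth.l (Pth.r (Pth.r (Pth.r Pth.z))))
def l7 : Tr := Tr.L (Pth.r (Pth.l (Pth.l Pth.z)))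
def l8 : Tr := Tr.L (Pth.r (Pth.l (Pth.r (Pth.l Pth.z))))
def l9 : Tr := Tr.L (Pth.r (Pth.l (Pth.r (Pth.r Pth.z))))
def l10 : Tr := Tr.L (Pth.r (Pth.r (Pth.l (Pth.l Pth.z))))
def l11 : Tr := Tr.L (Pth.r (Pth.r (Pth.l (Pth.r Pth.z))))
def l12 : Tr := Tr.L (Pth.r (Pth.r (Pth.r (Pth.l Pth.z))))
def l13 : Tr := Tr.L (Pth.r (Pth.r (Pth.r (Pth.r Pth.z))))
end T5
theorem bx0_0 : BoxOK sI cl5 cl9 cl13 t2 t4 b0_0 :=
  box_mk (TrL.c (I.pos (nat_lit 0) (nat_lit 0)) (xa (xb T2.l0 T2.l0) T2.l0)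
  (TrL.c (I.pos (nat_lit 0) (nat_lit 0)) T4.l1
  (TrL.c (I.pos (nat_lit 0) (nat_lit 0)) T2.l1
  (TrL.c (I.pos (nat_lit 0) (nat_lit 0)) T4.l2
  (TrL.c (I.pos (nat_lit 0) (nat_lit 0)) (xa T4.l3 T4.l3)
  (TrL.c (I.pos (nat_lit 0) (nat_lit 0)) T2.l2
  (TrL.c (I.pos (nat_lit 0) (nat_lit 0)) T4.l4
  (TrL.c (I.pos (nat_lit 0) (nat_lit 0)) T2.l3
  TrL.n)))))))) (by decide +kernel)
theorem bx0_1 : BoxOK sI cl5 cl9 cl13 t2 t4 b0_1 :=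
  box_mk (TrL.c (I.pos (nat_lit 0) (nat_lit 0)) (xa T2.l8 (xa T2.l8 T2.l8))
  (TrL.c (I.pos (nat_lit 0) (nat_lit 0)) T4.l1
  (TrL.c (I.pos (nat_lit 0) (nat_lit 0)) T2.l1
  (TrL.c (I.pos (nat_lit 0) (nat_lit 0)) T4.l2
  (TrL.c (I.pos (nat_lit 0) (nat_lit 0)) T4.l8
  (TrL.c (I.pos (nat_lit 0) (nat_lit 0)) T2.l2
  (TrL.c (I.pos (nat_lit 0) (nat_lit 0)) T4.l4
  (TrL.c (I.pos (nat_lit 0) (nat_lit 0)) T2.l3
  TrL.n)))))))) (by decide +kernel)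
theorem bx0_2 : BoxOK sI cl5 cl9 cl13 t2 t4 b0_2 :=
  box_mk (TrL.c (I.pos (nat_lit 0) (nat_lit 0)) T2.l8
  (TrL.c (I.pos (nat_lit 0) (nat_lit 0)) T4.l1
  (TrL.c (I.pos (nat_lit 0) (nat_lit 0)) T2.l1
  (TrL.c (I.pos (nat_lit 0) (nat_lit 0)) T4.l2
  (TrL.c (I.pos (nat_lit 0) (nat_lit 0)) T4.l8
  (TrL.c (I.pos (nat_lit 0) (nat_lit 0)) T2.l2
  (TrL.c (I.pos (nat_lit 0) (nat_lit 0)) T4.l4
  (TrL.c (I.pos (nat_lit 0) (nat_lit 0)) T2.l3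
  TrL.n)))))))) (by decide +kernel)
theorem bx0_3 : BoxOK sI cl5 cl9 cl13 t2 t4 b0_3 :=
  box_mk (TrL.c (I.pos (nat_lit 0) (nat_lit 0)) T2.l8
  (TrL.c (I.pos (nat_lit 0) (nat_lit 0)) T4.l1
  (TrL.c (I.pos (nat_lit 0) (nat_lit 0)) T2.l1
  (TrL.c (I.pos (nat_lit 0) (nat_lit 0)) T4.l2
  (TrL.c (I.pos (nat_lit 0) (nat_lit 0)) T4.l8
  (TrL.c (I.pos (nat_lit 0) (nat_lit 0)) T2.l2
  (TrL.c (I.pos (nat_lit 0) (nat_lit 0)) T4.l4
  (TrL.c (I.pos (nat_lit 0) (nat_lit 0)) T2.l3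
  TrL.n)))))))) (by decide +kernel)
theorem bx0_4 : BoxOK sI cl5 cl9 cl13 t2 t4 b0_4 :=
  box_mk (TrL.c (I.pos (nat_lit 0) (nat_lit 0)) T2.l0
  (TrL.c (I.pos (nat_lit 0) (nat_lit 0)) T4.l1
  (TrL.c (I.pos (nat_lit 0) (nat_lit 0)) T2.l1
  (TrL.c (I.pos (nat_lit 0) (nat_lit 0)) T4.l2
  (TrL.c (I.pos (nat_lit 0) (nat_lit 0)) T4.l3
  (TrL.c (I.pos (nat_lit 0) (nat_lit 0)) T2.l2
  (TrL.c (I.pos (nat_lit 0) (nat_lit 0)) T4.l4
  (TrL.c (I.pos (nat_lit 0) (nat_lit 0)) T2.l3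
  TrL.n)))))))) (by decide +kernel)
theorem bx0_5 : BoxOK sI cl5 cl9 cl13 t2 t4 b0_5 :=
  box_mk (TrL.c (I.pos (nat_lit 0) (nat_lit 0)) T2.l8
  (TrL.c (I.pos (nat_lit 0) (nat_lit 0)) T4.l1
  (TrL.c (I.pos (nat_lit 0) (nat_lit 0)) T2.l1
  (TrL.c (I.pos (nat_lit 0) (nat_lit 0)) T4.l2
  (TrL.c (I.pos (nat_lit 0) (nat_lit 0)) T4.l8
  (TrL.c (I.pos (nat_lit 0) (nat_lit 0)) T2.l2
  (TrL.c (I.pos (nat_lit 0) (nat_lit 0)) T4.l4
  (TrL.c (I.pos (nat_lit 0) (nat_lit 0)) T2.l3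
  TrL.n)))))))) (by decide +kernel)
theorem bx0_6 : BoxOK sI cl5 cl9 cl13 t2 t4 b0_6 :=
  box_mk (TrL.c (I.pos (nat_lit 0) (nat_lit 0)) (xa T2.l8 T2.l0)
  (TrL.c (I.pos (nat_lit 0) (nat_lit 0)) T4.l1
  (TrL.c (I.pos (nat_lit 0) (nat_lit 0)) T2.l1
  (TrL.c (I.pos (nat_lit 0) (nat_lit 0)) T4.l2
  (TrL.c (I.pos (nat_lit 0) (nat_lit 0)) T4.l8
  (TrL.c (I.pos (nat_lit 0) (nat_lit 0)) T2.l2
  (TrL.c (I.pos (nat_lit 0) (nat_lit 0)) T4.l4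
  (TrL.c (I.pos (nat_lit 0) (nat_lit 0)) T2.l3
  TrL.n)))))))) (by decide +kernel)
theorem bx0_7 : BoxOK sI cl5 cl9 cl13 t2 t4 b0_7 :=
  box_mk (TrL.c (I.pos (nat_lit 0) (nat_lit 0)) (xa (xa (xb T2.l8 T2.l8) T2.l8) T2.l8)
  (TrL.c (I.pos (nat_lit 0) (nat_lit 0)) T4.l1
  (TrL.c (I.pos (nat_lit 0) (nat_lit 0)) T2.l1
  (TrL.c (I.pos (nat_lit 0) (nat_lit 0)) T4.l2
  (TrL.c (I.pos (nat_lit 0) (nat_lit 0)) T4.l8
  (TrL.c (I.pos (nat_lit 0) (nat_lit 0)) T2.l2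
  (TrL.c (I.pos (nat_lit 0) (nat_lit 0)) T4.l4
  (TrL.c (I.pos (nat_lit 0) (nat_lit 0)) T2.l3
  TrL.n)))))))) (by decide +kernel)
theorem bx0_8 : BoxOK sI cl5 cl9 cl13 t2 t4 b0_8 :=
  box_mk (TrL.c (I.pos (nat_lit 0) (nat_lit 0)) (xb T2.l11 T2.l11)
  (TrL.c (I.pos (nat_lit 0) (nat_lit 0)) T4.l1
  (TrL.c (I.pos (nat_lit 0) (nat_lit 0)) T2.l1
  (TrL.c (I.pos (nat_lit 0) (nat_lit 0)) T4.l2
  (TrL.c (I.pos (nat_lit 0) (nat_lit 0)) T4.l11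
  (TrL.c (I.pos (nat_lit 0) (nat_lit 0)) T2.l2
  (TrL.c (I.pos (nat_lit 0) (nat_lit 0)) T4.l4
  (TrL.c (I.pos (nat_lit 0) (nat_lit 0)) T2.l3
  TrL.n)))))))) (by decide +kernel)
theorem bx0_9 : BoxOK sI cl5 cl9 cl13 t2 t4 b0_9 :=
  box_mk (TrL.c (I.pos (nat_lit 0) (nat_lit 0)) (xa (xa (xb T2.l8 (xa T2.l8 T2.l8)) (xb T2.l8 T2.l8)) (xa T2.l8 T2.l8))
  (TrL.c (I.pos (nat_lit 0) (nat_lit 0)) T4.l1
  (TrL.c (I.pos (nat_lit 0) (nat_lit 0)) T2.l1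
  (TrL.c (I.pos (nat_lit 0) (nat_lit 0)) T4.l2
  (TrL.c (I.pos (nat_lit 0) (nat_lit 0)) T4.l8
  (TrL.c (I.pos (nat_lit 0) (nat_lit 0)) T2.l2
  (TrL.c (I.pos (nat_lit 0) (nat_lit 0)) T4.l4
  (TrL.c (I.pos (nat_lit 0) (nat_lit 0)) T2.l3
  TrL.n)))))))) (by decide +kernel)
theorem bx0_10 : BoxOK sI cl5 cl9 cl13 t2 t4 b0_10 :=
  box_mk (TrL.c (I.pos (nat_lit 0) (nat_lit 0)) T2.l8
  (TrL.c (I.pos (nat_lit 0) (nat_lit 0)) T4.l1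
  (TrL.c (I.pos (nat_lit 0) (nat_lit 0)) T2.l1
  (TrL.c (I.pos (nat_lit 0) (nat_lit 0)) T4.l2
  (TrL.c (I.pos (nat_lit 0) (nat_lit 0)) T4.l8
  (TrL.c (I.pos (nat_lit 0) (nat_lit 0)) T2.l2
  (TrL.c (I.pos (nat_lit 0) (nat_lit 0)) T4.l4
  (TrL.c (I.pos (nat_lit 0) (nat_lit 0)) T2.l3
  TrL.n)))))))) (by decide +kernel)
theorem bx0_11 : BoxOK sI cl5 cl9 cl13 t2 t4 b0_11 :=
  box_mk (TrL.c (I.pos (nat_lit 0) (nat_lit 0)) T2.l0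
  (TrL.c (I.pos (nat_lit 0) (nat_lit 0)) T4.l1
  (TrL.c (I.pos (nat_lit 0) (nat_lit 0)) T2.l1
  (TrL.c (I.pos (nat_lit 0) (nat_lit 0)) T4.l2
  (TrL.c (I.pos (nat_lit 0) (nat_lit 0)) T4.l3
  (TrL.c (I.pos (nat_lit 0) (nat_lit 0)) T2.l2
  (TrL.c (I.pos (nat_lit 0) (nat_lit 0)) T4.l4
  (TrL.c (I.pos (nat_lit 0) (nat_lit 0)) T2.l3
  TrL.n)))))))) (by decide +kernel)
theorem bx0_12 : BoxOK sI cl5 cl9 cl13 t2 t4 b0_12 :=
  box_mk (TrL.c (I.pos (nat_lit 0) (nat_lit 0)) T2.l0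
  (TrL.c (I.pos (nat_lit 0) (nat_lit 0)) T4.l1
  (TrL.c (I.pos (nat_lit 0) (nat_lit 0)) T2.l1
  (TrL.c (I.pos (nat_lit 0) (nat_lit 0)) T4.l2
  (TrL.c (I.pos (nat_lit 0) (nat_lit 0)) T4.l11
  (TrL.c (I.pos (nat_lit 0) (nat_lit 0)) T2.l2
  (TrL.c (I.pos (nat_lit 0) (nat_lit 0)) T4.l4
  (TrL.c (I.pos (nat_lit 0) (nat_lit 0)) T2.l3
  TrL.n)))))))) (by decide +kernel)
theorem bx0_13 : BoxOK sI cl5 cl9 cl13 t2 t4 b0_13 :=
  box_mk (TrL.c (I.pos (nat_lit 0) (nat_lit 0)) T2.l11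
  (TrL.c (I.pos (nat_lit 0) (nat_lit 0)) T4.l1
  (TrL.c (I.pos (nat_lit 0) (nat_lit 0)) T2.l1
  (TrL.c (I.pos (nat_lit 0) (nat_lit 0)) T4.l2
  (TrL.c (I.pos (nat_lit 0) (nat_lit 0)) T4.l11
  (TrL.c (I.pos (nat_lit 0) (nat_lit 0)) T2.l2
  (TrL.c (I.pos (nat_lit 0) (nat_lit 0)) T4.l4
  (TrL.c (I.pos (nat_lit 0) (nat_lit 0)) T2.l3
  TrL.n)))))))) (by decide +kernel)
theorem sv0 : StarV sI cl5 cl9 cl13 t2 t4 t0 :=
  (bt_n (bt_n (bt_n (bt_b bx0_0) (bt_n (bt_b bx0_1) (bt_b bx0_2))) (bt_n (bt_n (bt_b bx0_3) (bt_b bx0_4)) (bt_n (bt_b bx0_5) (bt_b bx0_6)))) (bt_n (bt_n (bt_b bx0_7) (bt_n (bt_b bx0_8) (bt_b bx0_9))) (bt_n (bt_n (bt_b bx0_10) (bt_b bx0_11)) (bt_n (bt_b bx0_12) (bt_b bx0_13)))))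
def S0 : StarD := StarD.mk cl5 cl9 cl13 2 4 t0
theorem bx1_0 : BoxOK sI cl5 cl13 cl9 t4 t2 b1_0 :=
  box_mk (TrL.c (I.pos (nat_lit 0) (nat_lit 0)) (xa (xb T4.l0 T4.l0) T4.l0)
  (TrL.c (I.pos (nat_lit 0) (nat_lit 0)) T2.l4
  (TrL.c (I.pos (nat_lit 0) (nat_lit 0)) T4.l5
  (TrL.c (I.pos (nat_lit 0) (nat_lit 0)) T2.l5
  (TrL.c (I.pos (nat_lit 0) (nat_lit 0)) (xa T2.l6 T2.l6)
  (TrL.c (I.pos (nat_lit 0) (nat_lit 0)) T4.l6
  (TrL.c (I.pos (nat_lit 0) (nat_lit 0)) T2.l7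
  (TrL.c (I.pos (nat_lit 0) (nat_lit 0)) T4.l7
  TrL.n)))))))) (by decide +kernel)
theorem bx1_1 : BoxOK sI cl5 cl13 cl9 t4 t2 b1_1 :=
  box_mk (TrL.c (I.pos (nat_lit 0) (nat_lit 0)) (xa T4.l9 (xa T4.l9 T4.l9))
  (TrL.c (I.pos (nat_lit 0) (nat_lit 0)) T2.l4
  (TrL.c (I.pos (nat_lit 0) (nat_lit 0)) T4.l5
  (TrL.c (I.pos (nat_lit 0) (nat_lit 0)) T2.l5
  (TrL.c (I.pos (nat_lit 0) (nat_lit 0)) T2.l9
  (TrL.c (I.pos (nat_lit 0) (nat_lit 0)) T4.l6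
  (TrL.c (I.pos (nat_lit 0) (nat_lit 0)) T2.l7
  (TrL.c (I.pos (nat_lit 0) (nat_lit 0)) T4.l7
  TrL.n)))))))) (by decide +kernel)
theorem bx1_2 : BoxOK sI cl5 cl13 cl9 t4 t2 b1_2 :=
  box_mk (TrL.c (I.pos (nat_lit 0) (nat_lit 0)) T4.l9
  (TrL.c (I.pos (nat_lit 0) (nat_lit 0)) T2.l4
  (TrL.c (I.pos (nat_lit 0) (nat_lit 0)) T4.l5
  (TrL.c (I.pos (nat_lit 0) (nat_lit 0)) T2.l5
  (TrL.c (I.pos (nat_lit 0) (nat_lit 0)) T2.l9
  (TrL.c (I.pos (nat_lit 0) (nat_lit 0)) T4.l6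
  (TrL.c (I.pos (nat_lit 0) (nat_lit 0)) T2.l7
  (TrL.c (I.pos (nat_lit 0) (nat_lit 0)) T4.l7
  TrL.n)))))))) (by decide +kernel)
theorem bx1_3 : BoxOK sI cl5 cl13 cl9 t4 t2 b1_3 :=
  box_mk (TrL.c (I.pos (nat_lit 0) (nat_lit 0)) T4.l9
  (TrL.c (I.pos (nat_lit 0) (nat_lit 0)) T2.l4
  (TrL.c (I.pos (nat_lit 0) (nat_lit 0)) T4.l5
  (TrL.c (I.pos (nat_lit 0) (nat_lit 0)) T2.l5
  (TrL.c (I.pos (nat_lit 0) (nat_lit 0)) T2.l9
  (TrL.c (I.pos (nat_lit 0) (nat_lit 0)) T4.l6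
  (TrL.c (I.pos (nat_lit 0) (nat_lit 0)) T2.l7
  (TrL.c (I.pos (nat_lit 0) (nat_lit 0)) T4.l7
  TrL.n)))))))) (by decide +kernel)
theorem bx1_4 : BoxOK sI cl5 cl13 cl9 t4 t2 b1_4 :=
  box_mk (TrL.c (I.pos (nat_lit 0) (nat_lit 0)) T4.l0
  (TrL.c (I.pos (nat_lit 0) (nat_lit 0)) T2.l4
  (TrL.c (I.pos (nat_lit 0) (nat_lit 0)) T4.l5
  (TrL.c (I.pos (nat_lit 0) (nat_lit 0)) T2.l5
  (TrL.c (I.pos (nat_lit 0) (nat_lit 0)) T2.l6
  (TrL.c (I.pos (nat_lit 0) (nat_lit 0)) T4.l6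
  (TrL.c (I.pos (nat_lit 0) (nat_lit 0)) T2.l7
  (TrL.c (I.pos (nat_lit 0) (nat_lit 0)) T4.l7
  TrL.n)))))))) (by decide +kernel)
theorem bx1_5 : BoxOK sI cl5 cl13 cl9 t4 t2 b1_5 :=
  box_mk (TrL.c (I.pos (nat_lit 0) (nat_lit 0)) T4.l9
  (TrL.c (I.pos (nat_lit 0) (nat_lit 0)) T2.l4
  (TrL.c (I.pos (nat_lit 0) (nat_lit 0)) T4.l5
  (TrL.c (I.pos (nat_lit 0) (nat_lit 0)) T2.l5
  (TrL.c (I.pos (nat_lit 0) (nat_lit 0)) T2.l9
  (TrL.c (I.pos (nat_lit 0) (nat_lit 0)) T4.l6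
  (TrL.c (I.pos (nat_lit 0) (nat_lit 0)) T2.l7
  (TrL.c (I.pos (nat_lit 0) (nat_lit 0)) T4.l7
  TrL.n)))))))) (by decide +kernel)
theorem bx1_6 : BoxOK sI cl5 cl13 cl9 t4 t2 b1_6 :=
  box_mk (TrL.c (I.pos (nat_lit 0) (nat_lit 0)) (xa T4.l9 T4.l0)
  (TrL.c (I.pos (nat_lit 0) (nat_lit 0)) T2.l4
  (TrL.c (I.pos (nat_lit 0) (nat_lit 0)) T4.l5
  (TrL.c (I.pos (nat_lit 0) (nat_lit 0)) T2.l5
  (TrL.c (I.pos (nat_lit 0) (nat_lit 0)) T2.l9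
  (TrL.c (I.pos (nat_lit 0) (nat_lit 0)) T4.l6
  (TrL.c (I.pos (nat_lit 0) (nat_lit 0)) T2.l7
  (TrL.c (I.pos (nat_lit 0) (nat_lit 0)) T4.l7
  TrL.n)))))))) (by decide +kernel)
theorem bx1_7 : BoxOK sI cl5 cl13 cl9 t4 t2 b1_7 :=
  box_mk (TrL.c (I.pos (nat_lit 0) (nat_lit 0)) (xa (xa (xb T4.l9 T4.l9) T4.l9) T4.l9)
  (TrL.c (I.pos (nat_lit 0) (nat_lit 0)) T2.l4
  (TrL.c (I.pos (nat_lit 0) (nat_lit 0)) T4.l5
  (TrL.c (I.pos (nat_lit 0) (nat_lit 0)) T2.l5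
  (TrL.c (I.pos (nat_lit 0) (nat_lit 0)) T2.l9
  (TrL.c (I.pos (nat_lit 0) (nat_lit 0)) T4.l6
  (TrL.c (I.pos (nat_lit 0) (nat_lit 0)) T2.l7
  (TrL.c (I.pos (nat_lit 0) (nat_lit 0)) T4.l7
  TrL.n)))))))) (by decide +kernel)
theorem bx1_8 : BoxOK sI cl5 cl13 cl9 t4 t2 b1_8 :=
  box_mk (TrL.c (I.pos (nat_lit 0) (nat_lit 0)) (xb T4.l10 T4.l10)
  (TrL.c (I.pos (nat_lit 0) (nat_lit 0)) T2.l4
  (TrL.c (I.pos (nat_lit 0) (nat_lit 0)) T4.l5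
  (TrL.c (I.pos (nat_lit 0) (nat_lit 0)) T2.l5
  (TrL.c (I.pos (nat_lit 0) (nat_lit 0)) T2.l10
  (TrL.c (I.pos (nat_lit 0) (nat_lit 0)) T4.l6
  (TrL.c (I.pos (nat_lit 0) (nat_lit 0)) T2.l7
  (TrL.c (I.pos (nat_lit 0) (nat_lit 0)) T4.l7
  TrL.n)))))))) (by decide +kernel)
theorem bx1_9 : BoxOK sI cl5 cl13 cl9 t4 t2 b1_9 :=
  box_mk (TrL.c (I.pos (nat_lit 0) (nat_lit 0)) (xa (xa (xb T4.l9 T4.l9) T4.l9) (xa T4.l9 T4.l9))
  (TrL.c (I.pos (nat_lit 0) (nat_lit 0)) T2.l4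
  (TrL.c (I.pos (nat_lit 0) (nat_lit 0)) T4.l5
  (TrL.c (I.pos (nat_lit 0) (nat_lit 0)) T2.l5
  (TrL.c (I.pos (nat_lit 0) (nat_lit 0)) T2.l9
  (TrL.c (I.pos (nat_lit 0) (nat_lit 0)) T4.l6
  (TrL.c (I.pos (nat_lit 0) (nat_lit 0)) T2.l7
  (TrL.c (I.pos (nat_lit 0) (nat_lit 0)) T4.l7
  TrL.n)))))))) (by decide +kernel)
theorem bx1_10 : BoxOK sI cl5 cl13 cl9 t4 t2 b1_10 :=
  box_mk (TrL.c (I.pos (nat_lit 0) (nat_lit 0)) (xa T4.l0 T4.l10)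
  (TrL.c (I.pos (nat_lit 0) (nat_lit 0)) T2.l4
  (TrL.c (I.pos (nat_lit 0) (nat_lit 0)) T4.l5
  (TrL.c (I.pos (nat_lit 0) (nat_lit 0)) T2.l5
  (TrL.c (I.pos (nat_lit 0) (nat_lit 0)) T2.l10
  (TrL.c (I.pos (nat_lit 0) (nat_lit 0)) T4.l6
  (TrL.c (I.pos (nat_lit 0) (nat_lit 0)) T2.l7
  (TrL.c (I.pos (nat_lit 0) (nat_lit 0)) T4.l7
  TrL.n)))))))) (by decide +kernel)
theorem bx1_11 : BoxOK sI cl5 cl13 cl9 t4 t2 b1_11 :=
  box_mk (TrL.c (I.pos (nat_lit 0) (nat_lit 0)) T4.l10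
  (TrL.c (I.pos (nat_lit 0) (nat_lit 0)) T2.l4
  (TrL.c (I.pos (nat_lit 0) (nat_lit 0)) T4.l5
  (TrL.c (I.pos (nat_lit 0) (nat_lit 0)) T2.l5
  (TrL.c (I.pos (nat_lit 0) (nat_lit 0)) T2.l10
  (TrL.c (I.pos (nat_lit 0) (nat_lit 0)) T4.l6
  (TrL.c (I.pos (nat_lit 0) (nat_lit 0)) T2.l7
  (TrL.c (I.pos (nat_lit 0) (nat_lit 0)) T4.l7
  TrL.n)))))))) (by decide +kernel)
theorem bx1_12 : BoxOK sI cl5 cl13 cl9 t4 t2 b1_12 :=
  box_mk (TrL.c (I.pos (nat_lit 0) (nat_lit 0)) T4.l9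
  (TrL.c (I.pos (nat_lit 0) (nat_lit 0)) T2.l4
  (TrL.c (I.pos (nat_lit 0) (nat_lit 0)) T4.l5
  (TrL.c (I.pos (nat_lit 0) (nat_lit 0)) T2.l5
  (TrL.c (I.pos (nat_lit 0) (nat_lit 0)) T2.l9
  (TrL.c (I.pos (nat_lit 0) (nat_lit 0)) T4.l6
  (TrL.c (I.pos (nat_lit 0) (nat_lit 0)) T2.l7
  (TrL.c (I.pos (nat_lit 0) (nat_lit 0)) T4.l7
  TrL.n)))))))) (by decide +kernel)
theorem bx1_13 : BoxOK sI cl5 cl13 cl9 t4 t2 b1_13 :=
  box_mk (TrL.c (I.pos (nat_lit 0) (nat_lit 0)) T4.l0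
  (TrL.c (I.pos (nat_lit 0) (nat_lit 0)) T2.l4
  (TrL.c (I.pos (nat_lit 0) (nat_lit 0)) T4.l5
  (TrL.c (I.pos (nat_lit 0) (nat_lit 0)) T2.l5
  (TrL.c (I.pos (nat_lit 0) (nat_lit 0)) T2.l6
  (TrL.c (I.pos (nat_lit 0) (nat_lit 0)) T4.l6
  (TrL.c (I.pos (nat_lit 0) (nat_lit 0)) T2.l7
  (TrL.c (I.pos (nat_lit 0) (nat_lit 0)) T4.l7
  TrL.n)))))))) (by decide +kernel)
theorem sv1 : StarV sI cl5 cl13 cl9 t4 t2 t1 :=
  (bt_n (bt_n (bt_n (bt_b bx1_0) (bt_n (bt_b bx1_1) (bt_b bx1_2))) (bt_n (bt_n (bt_b bx1_3) (bt_b bx1_4)) (bt_n (bt_b bx1_5) (bt_b bx1_6)))) (bt_n (bt_n (bt_b bx1_7) (bt_n (bt_b bx1_8) (bt_b bx1_9))) (bt_n (bt_n (bt_b bx1_10) (bt_b bx1_11)) (bt_n (bt_b bx1_12) (bt_b bx1_13)))))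
def S1 : StarD := StarD.mk cl5 cl13 cl9 4 2 t1
theorem bx2_0 : BoxOK sI cl9 cl5 cl13 t0 t5 b2_0 :=
  box_mk (TrL.c (I.pos (nat_lit 0) (nat_lit 0)) (xa T0.l0 T0.l0)
  (TrL.c (I.pos (nat_lit 0) (nat_lit 0)) T5.l1
  (TrL.c (I.pos (nat_lit 0) (nat_lit 124588530)) (xR T0.l1 T0.l1)
  (TrL.c (I.pos (nat_lit 0) (nat_lit 96881482)) T5.l2
  (TrL.c (I.pos (nat_lit 0) (nat_lit 0)) (xa T5.l3 (xb T5.l3 T5.l3))
  (TrL.c (I.pos (nat_lit 0) (nat_lit 0)) T0.l2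
  (TrL.c (I.mix (nat_lit 17240550) (nat_lit 96881482)) (xR T5.l4 T5.l4)
  (TrL.c (I.mix (nat_lit 17240550) (nat_lit 71940500)) T0.l7
  TrL.n)))))))) (by decide +kernel)
theorem bx2_1 : BoxOK sI cl9 cl5 cl13 t0 t5 b2_1 :=
  box_mk (TrL.c (I.pos (nat_lit 0) (nat_lit 0)) T0.l4
  (TrL.c (I.pos (nat_lit 0) (nat_lit 0)) T5.l1
  (TrL.c (I.pos (nat_lit 0) (nat_lit 124588530)) T0.l1
  (TrL.c (I.pos (nat_lit 0) (nat_lit 96881482)) T5.l2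
  (TrL.c (I.pos (nat_lit 0) (nat_lit 0)) T5.l5
  (TrL.c (I.pos (nat_lit 0) (nat_lit 0)) T0.l2
  (TrL.c (I.mix (nat_lit 17240550) (nat_lit 96881482)) T5.l4
  (TrL.c (I.mix (nat_lit 17240550) (nat_lit 71940500)) T0.l3
  TrL.n)))))))) (by decide +kernel)
theorem bx2_2 : BoxOK sI cl9 cl5 cl13 t0 t5 b2_2 :=
  box_mk (TrL.c (I.pos (nat_lit 0) (nat_lit 0)) T0.l4
  (TrL.c (I.pos (nat_lit 0) (nat_lit 0)) T5.l1
  (TrL.c (I.pos (nat_lit 0) (nat_lit 124588530)) T0.l1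
  (TrL.c (I.pos (nat_lit 0) (nat_lit 96881482)) T5.l2
  (TrL.c (I.pos (nat_lit 0) (nat_lit 0)) T5.l5
  (TrL.c (I.pos (nat_lit 0) (nat_lit 0)) T0.l2
  (TrL.c (I.mix (nat_lit 17240550) (nat_lit 96881482)) T5.l4
  (TrL.c (I.mix (nat_lit 17240550) (nat_lit 71940500)) T0.l3
  TrL.n)))))))) (by decide +kernel)
theorem bx2_3 : BoxOK sI cl9 cl5 cl13 t0 t5 b2_3 :=
  box_mk (TrL.c (I.pos (nat_lit 0) (nat_lit 0)) T5.l1
  (TrL.c (I.pos (nat_lit 0) (nat_lit 0)) T0.l1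
  (TrL.c (I.mix (nat_lit 17240550) (nat_lit 96881482)) (xR T5.l6 T5.l2)
  (TrL.c (I.mix (nat_lit 17240550) (nat_lit 71940500)) T0.l1
  TrL.n)))) (by decide +kernel)
theorem bx2_4 : BoxOK sI cl9 cl5 cl13 t0 t5 b2_4 :=
  box_mk (TrL.c (I.pos (nat_lit 0) (nat_lit 0)) T0.l4
  (TrL.c (I.pos (nat_lit 0) (nat_lit 0)) T5.l1
  (TrL.c (I.pos (nat_lit 0) (nat_lit 124588530)) T0.l1
  (TrL.c (I.pos (nat_lit 0) (nat_lit 96881482)) T5.l2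
  (TrL.c (I.pos (nat_lit 0) (nat_lit 0)) T5.l5
  (TrL.c (I.pos (nat_lit 0) (nat_lit 0)) T0.l2
  (TrL.c (I.mix (nat_lit 17240550) (nat_lit 96881482)) (xR T5.l4 T5.l4)
  (TrL.c (I.mix (nat_lit 17240550) (nat_lit 71940500)) T0.l7
  TrL.n)))))))) (by decide +kernel)
theorem bx2_5 : BoxOK sI cl9 cl5 cl13 t0 t5 b2_5 :=
  box_mk (TrL.c (I.pos (nat_lit 0) (nat_lit 0)) T5.l7
  (TrL.c (I.pos (nat_lit 0) (nat_lit 0)) T0.l1
  (TrL.c (I.mix (nat_lit 17240550) (nat_lit 96881482)) T5.l6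
  (TrL.c (I.mix (nat_lit 17240550) (nat_lit 71940500)) T0.l1
  TrL.n)))) (by decide +kernel)
theorem bx2_6 : BoxOK sI cl9 cl5 cl13 t0 t5 b2_6 :=
  box_mk (TrL.c (I.pos (nat_lit 0) (nat_lit 0)) T0.l11
  (TrL.c (I.pos (nat_lit 0) (nat_lit 0)) T5.l1
  (TrL.c (I.pos (nat_lit 0) (nat_lit 124588530)) (xR T0.l1 T0.l1)
  (TrL.c (I.pos (nat_lit 0) (nat_lit 96881482)) T5.l2
  (TrL.c (I.pos (nat_lit 0) (nat_lit 0)) T5.l3
  (TrL.c (I.pos (nat_lit 0) (nat_lit 0)) T0.l2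
  (TrL.c (I.mix (nat_lit 17240550) (nat_lit 96881482)) T5.l4
  (TrL.c (I.mix (nat_lit 17240550) (nat_lit 71940500)) T0.l7
  TrL.n)))))))) (by decide +kernel)
theorem bx2_7 : BoxOK sI cl9 cl5 cl13 t0 t5 b2_7 :=
  box_mk (TrL.c (I.pos (nat_lit 0) (nat_lit 0)) T0.l4
  (TrL.c (I.pos (nat_lit 0) (nat_lit 0)) T5.l7
  (TrL.c (I.pos (nat_lit 0) (nat_lit 124588530)) T0.l1
  (TrL.c (I.pos (nat_lit 0) (nat_lit 96881482)) T5.l6
  (TrL.c (I.pos (nat_lit 0) (nat_lit 0)) T5.l5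
  (TrL.c (I.pos (nat_lit 0) (nat_lit 0)) T0.l2
  (TrL.c (I.mix (nat_lit 17240550) (nat_lit 96881482)) T5.l4
  (TrL.c (I.mix (nat_lit 17240550) (nat_lit 71940500)) T0.l3
  TrL.n)))))))) (by decide +kernel)
theorem bx2_8 : BoxOK sI cl9 cl5 cl13 t0 t5 b2_8 :=
  box_mk (TrL.c (I.pos (nat_lit 0) (nat_lit 0)) (xa T0.l0 T0.l0)
  (TrL.c (I.pos (nat_lit 0) (nat_lit 0)) T5.l9
  (TrL.c (I.pos (nat_lit 0) (nat_lit 124588530)) (xR T0.l1 T0.l9)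
  (TrL.c (I.pos (nat_lit 0) (nat_lit 96881482)) T5.l2
  (TrL.c (I.pos (nat_lit 0) (nat_lit 0)) (xa T5.l3 (xb (xk T5.l3 T5.l3) (xk T5.l3 T5.l3)))
  (TrL.c (I.pos (nat_lit 0) (nat_lit 0)) T0.l2
  (TrL.c (I.mix (nat_lit 17240550) (nat_lit 96881482)) (xR T5.l4 T5.l4)
  (TrL.c (I.mix (nat_lit 17240550) (nat_lit 71940500)) T0.l7
  TrL.n)))))))) (by decide +kernel)
theorem bx2_9 : BoxOK sI cl9 cl5 cl13 t0 t5 b2_9 :=
  box_mk (TrL.c (I.pos (nat_lit 0) (nat_lit 0)) T0.l11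
  (TrL.c (I.pos (nat_lit 0) (nat_lit 0)) T5.l1
  (TrL.c (I.pos (nat_lit 0) (nat_lit 124588530)) T0.l1
  (TrL.c (I.pos (nat_lit 0) (nat_lit 96881482)) T5.l2
  (TrL.c (I.pos (nat_lit 0) (nat_lit 0)) T5.l10
  (TrL.c (I.pos (nat_lit 0) (nat_lit 0)) T0.l2
  (TrL.c (I.mix (nat_lit 17240550) (nat_lit 96881482)) T5.l4
  (TrL.c (I.mix (nat_lit 17240550) (nat_lit 71940500)) T0.l7
  TrL.n)))))))) (by decide +kernel)
theorem bx2_10 : BoxOK sI cl9 cl5 cl13 t0 t5 b2_10 :=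
  box_mk (TrL.c (I.pos (nat_lit 0) (nat_lit 0)) T0.l11
  (TrL.c (I.pos (nat_lit 0) (nat_lit 0)) T5.l1
  (TrL.c (I.pos (nat_lit 0) (nat_lit 124588530)) (xR T0.l1 T0.l9)
  (TrL.c (I.pos (nat_lit 0) (nat_lit 96881482)) T5.l2
  (TrL.c (I.pos (nat_lit 0) (nat_lit 0)) T5.l10
  (TrL.c (I.pos (nat_lit 0) (nat_lit 0)) T0.l2
  (TrL.c (I.mix (nat_lit 17240550) (nat_lit 96881482)) (xR T5.l4 T5.l4)
  (TrL.c (I.mix (nat_lit 17240550) (nat_lit 71940500)) T0.l7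
  TrL.n)))))))) (by decide +kernel)
theorem bx2_11 : BoxOK sI cl9 cl5 cl13 t0 t5 b2_11 :=
  box_mk (TrL.c (I.pos (nat_lit 0) (nat_lit 0)) T0.l0
  (TrL.c (I.pos (nat_lit 0) (nat_lit 0)) T5.l1
  (TrL.c (I.pos (nat_lit 0) (nat_lit 124588530)) (xR T0.l1 T0.l9)
  (TrL.c (I.pos (nat_lit 0) (nat_lit 96881482)) T5.l2
  (TrL.c (I.pos (nat_lit 0) (nat_lit 0)) (xb T5.l3 (xk (xs T5.l3 T5.l3) (xa T5.l0 (xs T5.l0 T5.l0))))
  (TrL.c (I.pos (nat_lit 0) (nat_lit 0)) T0.l2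
  (TrL.c (I.mix (nat_lit 17240550) (nat_lit 96881482)) (xR T5.l4 T5.l4)
  (TrL.c (I.mix (nat_lit 17240550) (nat_lit 71940500)) T0.l7
  TrL.n)))))))) (by decide +kernel)
theorem sv2 : StarV sI cl9 cl5 cl13 t0 t5 t2 :=
  (bt_n (bt_n (bt_n (bt_b bx2_0) (bt_n (bt_b bx2_1) (bt_b bx2_2))) (bt_n (bt_b bx2_3) (bt_n (bt_b bx2_4) (bt_b bx2_5)))) (bt_n (bt_n (bt_b bx2_6) (bt_n (bt_b bx2_7) (bt_b bx2_8))) (bt_n (bt_b bx2_9) (bt_n (bt_b bx2_10) (bt_b bx2_11)))))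
def S2 : StarD := StarD.mk cl9 cl5 cl13 0 5 t2
theorem bx3_0 : BoxOK sI cl9 cl13 cl5 t5 t0 b3_0 :=
  box_mk (TrL.c (I.pos (nat_lit 0) (nat_lit 0)) (xa (xa T5.l0 (xb T5.l0 T5.l0)) (xb T5.l0 (xa T5.l0 T5.l0)))
  (TrL.c (I.pos (nat_lit 0) (nat_lit 0)) T0.l6
  (TrL.c (I.pos (nat_lit 0) (nat_lit 124588530)) (xR T5.l8 T5.l8)
  (TrL.c (I.pos (nat_lit 0) (nat_lit 96881482)) (xR T0.l7 T0.l7)
  (TrL.c (I.pos (nat_lit 0) (nat_lit 0)) (xa T0.l8 (xb T0.l8 (xk (xa T0.l13 T0.l8) (xa T0.l13 (xb T0.l13 T0.l13)))))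
  (TrL.c (I.pos (nat_lit 0) (nat_lit 0)) T5.l9
  (TrL.c (I.mix (nat_lit 17240550) (nat_lit 96881482)) (xR T0.l9 T0.l9)
  (TrL.c (I.mix (nat_lit 17240550) (nat_lit 71940500)) T5.l11
  TrL.n)))))))) (by decide +kernel)
theorem bx3_1 : BoxOK sI cl9 cl13 cl5 t5 t0 b3_1 :=
  box_mk (TrL.c (I.pos (nat_lit 0) (nat_lit 0)) T5.l12
  (TrL.c (I.pos (nat_lit 0) (nat_lit 0)) T0.l6
  (TrL.c (I.pos (nat_lit 0) (nat_lit 124588530)) T5.l8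
  (TrL.c (I.pos (nat_lit 0) (nat_lit 96881482)) T0.l7
  (TrL.c (I.pos (nat_lit 0) (nat_lit 0)) T0.l12
  (TrL.c (I.pos (nat_lit 0) (nat_lit 0)) T5.l9
  (TrL.c (I.mix (nat_lit 17240550) (nat_lit 96881482)) (xR T0.l9 T0.l9)
  (TrL.c (I.mix (nat_lit 17240550) (nat_lit 71940500)) T5.l11
  TrL.n)))))))) (by decide +kernel)
theorem bx3_2 : BoxOK sI cl9 cl13 cl5 t5 t0 b3_2 :=
  box_mk (TrL.c (I.pos (nat_lit 0) (nat_lit 0)) (xa (xa T5.l12 T5.l12) T5.l12)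
  (TrL.c (I.pos (nat_lit 0) (nat_lit 0)) T0.l6
  (TrL.c (I.pos (nat_lit 0) (nat_lit 124588530)) T5.l8
  (TrL.c (I.pos (nat_lit 0) (nat_lit 96881482)) T0.l7
  (TrL.c (I.pos (nat_lit 0) (nat_lit 0)) T0.l12
  (TrL.c (I.pos (nat_lit 0) (nat_lit 0)) T5.l9
  (TrL.c (I.mix (nat_lit 17240550) (nat_lit 96881482)) T0.l9
  (TrL.c (I.mix (nat_lit 17240550) (nat_lit 71940500)) T5.l11
  TrL.n)))))))) (by decide +kernel)
theorem bx3_3 : BoxOK sI cl9 cl13 cl5 t5 t0 b3_3 :=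
  box_mk (TrL.c (I.pos (nat_lit 0) (nat_lit 0)) (xb T5.l13 T5.l13)
  (TrL.c (I.pos (nat_lit 0) (nat_lit 0)) T0.l6
  (TrL.c (I.pos (nat_lit 0) (nat_lit 124588530)) (xR T5.l8 T5.l8)
  (TrL.c (I.pos (nat_lit 0) (nat_lit 96881482)) T0.l7
  (TrL.c (I.pos (nat_lit 0) (nat_lit 0)) (xb T0.l13 T0.l13)
  (TrL.c (I.pos (nat_lit 0) (nat_lit 0)) T5.l9
  (TrL.c (I.mix (nat_lit 17240550) (nat_lit 96881482)) (xR T0.l9 T0.l9)
  (TrL.c (I.mix (nat_lit 17240550) (nat_lit 71940500)) T5.l11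
  TrL.n)))))))) (by decide +kernel)
theorem bx3_4 : BoxOK sI cl9 cl13 cl5 t5 t0 b3_4 :=
  box_mk (TrL.c (I.pos (nat_lit 0) (nat_lit 0)) (xa (xa (xb T5.l12 T5.l12) T5.l12) (xa T5.l12 T5.l12))
  (TrL.c (I.pos (nat_lit 0) (nat_lit 0)) T0.l6
  (TrL.c (I.pos (nat_lit 0) (nat_lit 124588530)) T5.l8
  (TrL.c (I.pos (nat_lit 0) (nat_lit 96881482)) T0.l7
  (TrL.c (I.pos (nat_lit 0) (nat_lit 0)) (xa T0.l12 T0.l12)
  (TrL.c (I.pos (nat_lit 0) (nat_lit 0)) T5.l9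
  (TrL.c (I.mix (nat_lit 17240550) (nat_lit 96881482)) T0.l9
  (TrL.c (I.mix (nat_lit 17240550) (nat_lit 71940500)) T5.l11
  TrL.n)))))))) (by decide +kernel)
theorem bx3_5 : BoxOK sI cl9 cl13 cl5 t5 t0 b3_5 :=
  box_mk (TrL.c (I.pos (nat_lit 0) (nat_lit 0)) T5.l0
  (TrL.c (I.pos (nat_lit 0) (nat_lit 0)) T0.l6
  (TrL.c (I.pos (nat_lit 0) (nat_lit 124588530)) (xR T5.l8 T5.l8)
  (TrL.c (I.pos (nat_lit 0) (nat_lit 96881482)) T0.l7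
  (TrL.c (I.pos (nat_lit 0) (nat_lit 0)) T0.l13
  (TrL.c (I.pos (nat_lit 0) (nat_lit 0)) T5.l9
  (TrL.c (I.mix (nat_lit 17240550) (nat_lit 96881482)) (xR T0.l9 T0.l9)
  (TrL.c (I.mix (nat_lit 17240550) (nat_lit 71940500)) T5.l11
  TrL.n)))))))) (by decide +kernel)
theorem bx3_6 : BoxOK sI cl9 cl13 cl5 t5 t0 b3_6 :=
  box_mk (TrL.c (I.pos (nat_lit 0) (nat_lit 0)) T5.l12
  (TrL.c (I.pos (nat_lit 0) (nat_lit 0)) T0.l6
  (TrL.c (I.pos (nat_lit 0) (nat_lit 124588530)) T5.l8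
  (TrL.c (I.pos (nat_lit 0) (nat_lit 96881482)) T0.l7
  (TrL.c (I.pos (nat_lit 0) (nat_lit 0)) T0.l12
  (TrL.c (I.pos (nat_lit 0) (nat_lit 0)) T5.l9
  (TrL.c (I.mix (nat_lit 17240550) (nat_lit 96881482)) T0.l9
  (TrL.c (I.mix (nat_lit 17240550) (nat_lit 71940500)) T5.l11
  TrL.n)))))))) (by decide +kernel)
theorem bx3_7 : BoxOK sI cl9 cl13 cl5 t5 t0 b3_7 :=
  box_mk (TrL.c (I.pos (nat_lit 0) (nat_lit 0)) T5.l12
  (TrL.c (I.pos (nat_lit 0) (nat_lit 0)) T0.l6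
  (TrL.c (I.pos (nat_lit 0) (nat_lit 124588530)) T5.l8
  (TrL.c (I.pos (nat_lit 0) (nat_lit 96881482)) T0.l7
  (TrL.c (I.pos (nat_lit 0) (nat_lit 0)) T0.l12
  (TrL.c (I.pos (nat_lit 0) (nat_lit 0)) T5.l9
  (TrL.c (I.mix (nat_lit 17240550) (nat_lit 96881482)) T0.l9
  (TrL.c (I.mix (nat_lit 17240550) (nat_lit 71940500)) T5.l11
  TrL.n)))))))) (by decide +kernel)
theorem bx3_8 : BoxOK sI cl9 cl13 cl5 t5 t0 b3_8 :=
  box_mk (TrL.c (I.pos (nat_lit 0) (nat_lit 0)) (xa (xa T5.l12 T5.l12) (xa T5.l12 T5.l12))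
  (TrL.c (I.pos (nat_lit 0) (nat_lit 0)) T0.l6
  (TrL.c (I.pos (nat_lit 0) (nat_lit 124588530)) T5.l8
  (TrL.c (I.pos (nat_lit 0) (nat_lit 96881482)) T0.l7
  (TrL.c (I.pos (nat_lit 0) (nat_lit 0)) (xa T0.l12 T0.l12)
  (TrL.c (I.pos (nat_lit 0) (nat_lit 0)) T5.l9
  (TrL.c (I.mix (nat_lit 17240550) (nat_lit 96881482)) T0.l9
  (TrL.c (I.mix (nat_lit 17240550) (nat_lit 71940500)) T5.l11
  TrL.n)))))))) (by decide +kernel)
theorem bx3_9 : BoxOK sI cl9 cl13 cl5 t5 t0 b3_9 :=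
  box_mk (TrL.c (I.pos (nat_lit 0) (nat_lit 0)) T5.l12
  (TrL.c (I.pos (nat_lit 0) (nat_lit 0)) T0.l6
  (TrL.c (I.pos (nat_lit 0) (nat_lit 124588530)) T5.l8
  (TrL.c (I.pos (nat_lit 0) (nat_lit 96881482)) T0.l7
  (TrL.c (I.pos (nat_lit 0) (nat_lit 0)) T0.l12
  (TrL.c (I.pos (nat_lit 0) (nat_lit 0)) T5.l9
  (TrL.c (I.mix (nat_lit 17240550) (nat_lit 96881482)) T0.l9
  (TrL.c (I.mix (nat_lit 17240550) (nat_lit 71940500)) T5.l11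
  TrL.n)))))))) (by decide +kernel)
theorem bx3_10 : BoxOK sI cl9 cl13 cl5 t5 t0 b3_10 :=
  box_mk (TrL.c (I.pos (nat_lit 0) (nat_lit 0)) (xa (xa T5.l12 T5.l12) T5.l12)
  (TrL.c (I.pos (nat_lit 0) (nat_lit 0)) T0.l6
  (TrL.c (I.pos (nat_lit 0) (nat_lit 124588530)) T5.l8
  (TrL.c (I.pos (nat_lit 0) (nat_lit 96881482)) T0.l7
  (TrL.c (I.pos (nat_lit 0) (nat_lit 0)) T0.l12
  (TrL.c (I.pos (nat_lit 0) (nat_lit 0)) T5.l9
  (TrL.c (I.mix (nat_lit 17240550) (nat_lit 96881482)) T0.l9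
  (TrL.c (I.mix (nat_lit 17240550) (nat_lit 71940500)) T5.l11
  TrL.n)))))))) (by decide +kernel)
theorem bx3_11 : BoxOK sI cl9 cl13 cl5 t5 t0 b3_11 :=
  box_mk (TrL.c (I.pos (nat_lit 0) (nat_lit 0)) (xa T5.l0 T5.l0)
  (TrL.c (I.pos (nat_lit 0) (nat_lit 0)) T0.l6
  (TrL.c (I.pos (nat_lit 0) (nat_lit 124588530)) (xR T5.l8 T5.l8)
  (TrL.c (I.pos (nat_lit 0) (nat_lit 96881482)) (xR T0.l7 T0.l7)
  (TrL.c (I.pos (nat_lit 0) (nat_lit 0)) (xa T0.l8 (xk (xb T0.l8 T0.l8) (xb T0.l8 T0.l8)))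
  (TrL.c (I.pos (nat_lit 0) (nat_lit 0)) T5.l9
  (TrL.c (I.mix (nat_lit 17240550) (nat_lit 96881482)) (xR T0.l9 T0.l9)
  (TrL.c (I.mix (nat_lit 17240550) (nat_lit 71940500)) T5.l11
  TrL.n)))))))) (by decide +kernel)
theorem bx3_12 : BoxOK sI cl9 cl13 cl5 t5 t0 b3_12 :=
  box_mk (TrL.c (I.pos (nat_lit 0) (nat_lit 0)) (xa T5.l0 (xb T5.l0 T5.l0))
  (TrL.c (I.pos (nat_lit 0) (nat_lit 0)) T0.l6
  (TrL.c (I.pos (nat_lit 0) (nat_lit 124588530)) (xR T5.l8 T5.l8)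
  (TrL.c (I.pos (nat_lit 0) (nat_lit 96881482)) T0.l7
  (TrL.c (I.pos (nat_lit 0) (nat_lit 0)) T0.l8
  (TrL.c (I.pos (nat_lit 0) (nat_lit 0)) T5.l9
  (TrL.c (I.mix (nat_lit 17240550) (nat_lit 96881482)) (xR T0.l9 T0.l9)
  (TrL.c (I.mix (nat_lit 17240550) (nat_lit 71940500)) T5.l11
  TrL.n)))))))) (by decide +kernel)
theorem bx3_13 : BoxOK sI cl9 cl13 cl5 t5 t0 b3_13 :=
  box_mk (TrL.c (I.pos (nat_lit 0) (nat_lit 0)) T5.l13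
  (TrL.c (I.pos (nat_lit 0) (nat_lit 0)) T0.l6
  (TrL.c (I.pos (nat_lit 0) (nat_lit 124588530)) (xR T5.l8 T5.l8)
  (TrL.c (I.pos (nat_lit 0) (nat_lit 96881482)) T0.l7
  (TrL.c (I.pos (nat_lit 0) (nat_lit 0)) T0.l13
  (TrL.c (I.pos (nat_lit 0) (nat_lit 0)) T5.l9
  (TrL.c (I.mix (nat_lit 17240550) (nat_lit 96881482)) (xR T0.l9 T0.l9)
  (TrL.c (I.mix (nat_lit 17240550) (nat_lit 71940500)) T5.l11
  TrL.n)))))))) (by decide +kernel)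
theorem sv3 : StarV sI cl9 cl13 cl5 t5 t0 t3 :=
  (bt_n (bt_n (bt_n (bt_b bx3_0) (bt_n (bt_b bx3_1) (bt_b bx3_2))) (bt_n (bt_n (bt_b bx3_3) (bt_b bx3_4)) (bt_n (bt_b bx3_5) (bt_b bx3_6)))) (bt_n (bt_n (bt_b bx3_7) (bt_n (bt_b bx3_8) (bt_b bx3_9))) (bt_n (bt_n (bt_b bx3_10) (bt_b bx3_11)) (bt_n (bt_b bx3_12) (bt_b bx3_13)))))
def S3 : StarD := StarD.mk cl9 cl13 cl5 5 0 t3
theorem bx4_0 : BoxOK sI cl13 cl5 cl9 t1 t3 b4_0 :=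
  box_mk (TrL.c (I.pos (nat_lit 0) (nat_lit 0)) (xa T1.l0 T1.l0)
  (TrL.c (I.pos (nat_lit 0) (nat_lit 0)) T3.l1
  (TrL.c (I.pos (nat_lit 0) (nat_lit 134217730)) (xR T1.l1 T1.l1)
  (TrL.c (I.pos (nat_lit 0) (nat_lit 110514882)) (xR T3.l2 T3.l2)
  (TrL.c (I.pos (nat_lit 0) (nat_lit 0)) (xa T3.l3 (xb T3.l3 T3.l3))
  (TrL.c (I.pos (nat_lit 0) (nat_lit 0)) T1.l2
  (TrL.c (I.mix (nat_lit 8088324) (nat_lit 110514882)) (xR T3.l4 T3.l4)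
  (TrL.c (I.mix (nat_lit 8088324) (nat_lit 89478486)) T1.l7
  TrL.n)))))))) (by decide +kernel)
theorem bx4_1 : BoxOK sI cl13 cl5 cl9 t1 t3 b4_1 :=
  box_mk (TrL.c (I.pos (nat_lit 0) (nat_lit 0)) T1.l4
  (TrL.c (I.pos (nat_lit 0) (nat_lit 0)) T3.l1
  (TrL.c (I.pos (nat_lit 0) (nat_lit 134217730)) T1.l1
  (TrL.c (I.pos (nat_lit 0) (nat_lit 110514882)) T3.l2
  (TrL.c (I.pos (nat_lit 0) (nat_lit 0)) T3.l5
  (TrL.c (I.pos (nat_lit 0) (nat_lit 0)) T1.l2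
  (TrL.c (I.mix (nat_lit 8088324) (nat_lit 110514882)) T3.l4
  (TrL.c (I.mix (nat_lit 8088324) (nat_lit 89478486)) T1.l7
  TrL.n)))))))) (by decide +kernel)
theorem bx4_2 : BoxOK sI cl13 cl5 cl9 t1 t3 b4_2 :=
  box_mk (TrL.c (I.pos (nat_lit 0) (nat_lit 0)) T3.l6
  (TrL.c (I.pos (nat_lit 0) (nat_lit 0)) T1.l1
  (TrL.c (I.mix (nat_lit 8088324) (nat_lit 110514882)) T3.l2
  (TrL.c (I.mix (nat_lit 8088324) (nat_lit 89478486)) T1.l1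
  TrL.n)))) (by decide +kernel)
theorem bx4_3 : BoxOK sI cl13 cl5 cl9 t1 t3 b4_3 :=
  box_mk (TrL.c (I.pos (nat_lit 0) (nat_lit 0)) T1.l13
  (TrL.c (I.pos (nat_lit 0) (nat_lit 0)) T3.l1
  (TrL.c (I.pos (nat_lit 0) (nat_lit 134217730)) (xR T1.l1 T1.l9)
  (TrL.c (I.pos (nat_lit 0) (nat_lit 110514882)) (xR T3.l2 T3.l2)
  (TrL.c (I.pos (nat_lit 0) (nat_lit 0)) T3.l3
  (TrL.c (I.pos (nat_lit 0) (nat_lit 0)) T1.l2
  (TrL.c (I.mix (nat_lit 8088324) (nat_lit 110514882)) (xR T3.l4 T3.l4)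
  (TrL.c (I.mix (nat_lit 8088324) (nat_lit 89478486)) T1.l7
  TrL.n)))))))) (by decide +kernel)
theorem bx4_4 : BoxOK sI cl13 cl5 cl9 t1 t3 b4_4 :=
  box_mk (TrL.c (I.pos (nat_lit 0) (nat_lit 0)) T1.l4
  (TrL.c (I.pos (nat_lit 0) (nat_lit 0)) T3.l6
  (TrL.c (I.pos (nat_lit 0) (nat_lit 134217730)) T1.l1
  (TrL.c (I.pos (nat_lit 0) (nat_lit 110514882)) T3.l2
  (TrL.c (I.pos (nat_lit 0) (nat_lit 0)) T3.l5
  (TrL.c (I.pos (nat_lit 0) (nat_lit 0)) T1.l2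
  (TrL.c (I.mix (nat_lit 8088324) (nat_lit 110514882)) T3.l4
  (TrL.c (I.mix (nat_lit 8088324) (nat_lit 89478486)) T1.l3
  TrL.n)))))))) (by decide +kernel)
theorem bx4_5 : BoxOK sI cl13 cl5 cl9 t1 t3 b4_5 :=
  box_mk (TrL.c (I.pos (nat_lit 0) (nat_lit 0)) T1.l4
  (TrL.c (I.pos (nat_lit 0) (nat_lit 0)) T3.l1
  (TrL.c (I.pos (nat_lit 0) (nat_lit 134217730)) T1.l1
  (TrL.c (I.pos (nat_lit 0) (nat_lit 110514882)) T3.l2
  (TrL.c (I.pos (nat_lit 0) (nat_lit 0)) T3.l5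
  (TrL.c (I.pos (nat_lit 0) (nat_lit 0)) T1.l2
  (TrL.c (I.mix (nat_lit 8088324) (nat_lit 110514882)) T3.l4
  (TrL.c (I.mix (nat_lit 8088324) (nat_lit 89478486)) T1.l3
  TrL.n)))))))) (by decide +kernel)
theorem bx4_6 : BoxOK sI cl13 cl5 cl9 t1 t3 b4_6 :=
  box_mk (TrL.c (I.pos (nat_lit 0) (nat_lit 0)) T1.l4
  (TrL.c (I.pos (nat_lit 0) (nat_lit 0)) T3.l1
  (TrL.c (I.pos (nat_lit 0) (nat_lit 134217730)) T1.l1
  (TrL.c (I.pos (nat_lit 0) (nat_lit 110514882)) T3.l2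
  (TrL.c (I.pos (nat_lit 0) (nat_lit 0)) T3.l5
  (TrL.c (I.pos (nat_lit 0) (nat_lit 0)) T1.l2
  (TrL.c (I.mix (nat_lit 8088324) (nat_lit 110514882)) T3.l4
  (TrL.c (I.mix (nat_lit 8088324) (nat_lit 89478486)) T1.l3
  TrL.n)))))))) (by decide +kernel)
theorem bx4_7 : BoxOK sI cl13 cl5 cl9 t1 t3 b4_7 :=
  box_mk (TrL.c (I.pos (nat_lit 0) (nat_lit 0)) T3.l1
  (TrL.c (I.pos (nat_lit 0) (nat_lit 0)) T1.l1
  (TrL.c (I.mix (nat_lit 8088324) (nat_lit 110514882)) T3.l2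
  (TrL.c (I.mix (nat_lit 8088324) (nat_lit 89478486)) T1.l1
  TrL.n)))) (by decide +kernel)
theorem bx4_8 : BoxOK sI cl13 cl5 cl9 t1 t3 b4_8 :=
  box_mk (TrL.c (I.pos (nat_lit 0) (nat_lit 0)) T1.l13
  (TrL.c (I.pos (nat_lit 0) (nat_lit 0)) T3.l1
  (TrL.c (I.pos (nat_lit 0) (nat_lit 134217730)) (xR T1.l1 T1.l1)
  (TrL.c (I.pos (nat_lit 0) (nat_lit 110514882)) T3.l2
  (TrL.c (I.pos (nat_lit 0) (nat_lit 0)) T3.l13
  (TrL.c (I.pos (nat_lit 0) (nat_lit 0)) T1.l2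
  (TrL.c (I.mix (nat_lit 8088324) (nat_lit 110514882)) T3.l4
  (TrL.c (I.mix (nat_lit 8088324) (nat_lit 89478486)) T1.l7
  TrL.n)))))))) (by decide +kernel)
theorem bx4_9 : BoxOK sI cl13 cl5 cl9 t1 t3 b4_9 :=
  box_mk (TrL.c (I.pos (nat_lit 0) (nat_lit 0)) (xa T1.l0 T1.l0)
  (TrL.c (I.pos (nat_lit 0) (nat_lit 0)) T3.l9
  (TrL.c (I.pos (nat_lit 0) (nat_lit 134217730)) (xR T1.l1 T1.l9)
  (TrL.c (I.pos (nat_lit 0) (nat_lit 110514882)) (xR T3.l2 T3.l2)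
  (TrL.c (I.pos (nat_lit 0) (nat_lit 0)) (xa T3.l3 (xk (xb T3.l3 T3.l3) (xb T3.l3 T3.l3)))
  (TrL.c (I.pos (nat_lit 0) (nat_lit 0)) T1.l2
  (TrL.c (I.mix (nat_lit 8088324) (nat_lit 110514882)) (xR T3.l4 T3.l4)
  (TrL.c (I.mix (nat_lit 8088324) (nat_lit 89478486)) T1.l7
  TrL.n)))))))) (by decide +kernel)
theorem bx4_10 : BoxOK sI cl13 cl5 cl9 t1 t3 b4_10 :=
  box_mk (TrL.c (I.pos (nat_lit 0) (nat_lit 0)) T1.l0
  (TrL.c (I.pos (nat_lit 0) (nat_lit 0)) T3.l1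
  (TrL.c (I.pos (nat_lit 0) (nat_lit 134217730)) (xR T1.l1 T1.l9)
  (TrL.c (I.pos (nat_lit 0) (nat_lit 110514882)) (xR T3.l2 T3.l2)
  (TrL.c (I.pos (nat_lit 0) (nat_lit 0)) (xb T3.l3 (xk (xa T3.l3 (xs T3.l0 (xb T3.l0 T3.l0))) (xa T3.l3 (xs T3.l0 (xb T3.l3 (xa T3.l13 T3.l0))))))
  (TrL.c (I.pos (nat_lit 0) (nat_lit 0)) T1.l2
  (TrL.c (I.mix (nat_lit 8088324) (nat_lit 110514882)) (xR T3.l4 T3.l4)
  (TrL.c (I.mix (nat_lit 8088324) (nat_lit 89478486)) T1.l7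
  TrL.n)))))))) (by decide +kernel)
theorem bx4_11 : BoxOK sI cl13 cl5 cl9 t1 t3 b4_11 :=
  box_mk (TrL.c (I.pos (nat_lit 0) (nat_lit 0)) T1.l13
  (TrL.c (I.pos (nat_lit 0) (nat_lit 0)) T3.l1
  (TrL.c (I.pos (nat_lit 0) (nat_lit 134217730)) (xR T1.l1 T1.l9)
  (TrL.c (I.pos (nat_lit 0) (nat_lit 110514882)) (xR T3.l2 T3.l10)
  (TrL.c (I.pos (nat_lit 0) (nat_lit 0)) (xb T3.l3 (xk T3.l3 T3.l3))
  (TrL.c (I.pos (nat_lit 0) (nat_lit 0)) T1.l2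
  (TrL.c (I.mix (nat_lit 8088324) (nat_lit 110514882)) (xR T3.l4 T3.l4)
  (TrL.c (I.mix (nat_lit 8088324) (nat_lit 89478486)) T1.l7
  TrL.n)))))))) (by decide +kernel)
theorem sv4 : StarV sI cl13 cl5 cl9 t1 t3 t4 :=
  (bt_n (bt_n (bt_n (bt_b bx4_0) (bt_n (bt_b bx4_1) (bt_b bx4_2))) (bt_n (bt_b bx4_3) (bt_n (bt_b bx4_4) (bt_b bx4_5)))) (bt_n (bt_n (bt_b bx4_6) (bt_n (bt_b bx4_7) (bt_b bx4_8))) (bt_n (bt_b bx4_9) (bt_n (bt_b bx4_10) (bt_b bx4_11)))))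
def S4 : StarD := StarD.mk cl13 cl5 cl9 1 3 t4
theorem bx5_0 : BoxOK sI cl13 cl9 cl5 t3 t1 b5_0 :=
  box_mk (TrL.c (I.pos (nat_lit 0) (nat_lit 0)) (xa (xb T3.l0 T3.l0) (xb T3.l0 (xa T3.l0 T3.l0)))
  (TrL.c (I.pos (nat_lit 0) (nat_lit 0)) T1.l6
  (TrL.c (I.pos (nat_lit 0) (nat_lit 134217730)) (xR T3.l8 T3.l8)
  (TrL.c (I.pos (nat_lit 0) (nat_lit 110514882)) (xR T1.l7 T1.l7)
  (TrL.c (I.pos (nat_lit 0) (nat_lit 0)) (xa T1.l8 (xb T1.l8 (xk (xa T1.l8 (xb T1.l8 T1.l8)) (xa T1.l8 (xb T1.l8 (xs T1.l8 T1.l8))))))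
  (TrL.c (I.pos (nat_lit 0) (nat_lit 0)) T3.l9
  (TrL.c (I.mix (nat_lit 8088324) (nat_lit 110514882)) (xR T1.l9 T1.l9)
  (TrL.c (I.mix (nat_lit 8088324) (nat_lit 89478486)) T3.l10
  TrL.n)))))))) (by decide +kernel)
theorem bx5_1 : BoxOK sI cl13 cl9 cl5 t3 t1 b5_1 :=
  box_mk (TrL.c (I.pos (nat_lit 0) (nat_lit 0)) T3.l11
  (TrL.c (I.pos (nat_lit 0) (nat_lit 0)) T1.l6
  (TrL.c (I.pos (nat_lit 0) (nat_lit 134217730)) (xR T3.l8 T3.l8)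
  (TrL.c (I.pos (nat_lit 0) (nat_lit 110514882)) (xR T1.l7 T1.l7)
  (TrL.c (I.pos (nat_lit 0) (nat_lit 0)) T1.l10
  (TrL.c (I.pos (nat_lit 0) (nat_lit 0)) T3.l9
  (TrL.c (I.mix (nat_lit 8088324) (nat_lit 110514882)) T1.l9
  (TrL.c (I.mix (nat_lit 8088324) (nat_lit 89478486)) T3.l10
  TrL.n)))))))) (by decide +kernel)
theorem bx5_2 : BoxOK sI cl13 cl9 cl5 t3 t1 b5_2 :=
  box_mk (TrL.c (I.pos (nat_lit 0) (nat_lit 0)) (xa (xa T3.l11 T3.l11) T3.l11)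
  (TrL.c (I.pos (nat_lit 0) (nat_lit 0)) T1.l6
  (TrL.c (I.pos (nat_lit 0) (nat_lit 134217730)) T3.l8
  (TrL.c (I.pos (nat_lit 0) (nat_lit 110514882)) T1.l7
  (TrL.c (I.pos (nat_lit 0) (nat_lit 0)) T1.l10
  (TrL.c (I.pos (nat_lit 0) (nat_lit 0)) T3.l9
  (TrL.c (I.mix (nat_lit 8088324) (nat_lit 110514882)) T1.l9
  (TrL.c (I.mix (nat_lit 8088324) (nat_lit 89478486)) T3.l10
  TrL.n)))))))) (by decide +kernel)
theorem bx5_3 : BoxOK sI cl13 cl9 cl5 t3 t1 b5_3 :=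
  box_mk (TrL.c (I.pos (nat_lit 0) (nat_lit 0)) (xb T3.l12 T3.l12)
  (TrL.c (I.pos (nat_lit 0) (nat_lit 0)) T1.l6
  (TrL.c (I.pos (nat_lit 0) (nat_lit 134217730)) (xR T3.l8 T3.l8)
  (TrL.c (I.pos (nat_lit 0) (nat_lit 110514882)) (xR T1.l7 T1.l7)
  (TrL.c (I.pos (nat_lit 0) (nat_lit 0)) (xb T1.l11 (xb T1.l8 T1.l8))
  (TrL.c (I.pos (nat_lit 0) (nat_lit 0)) T3.l9
  (TrL.c (I.mix (nat_lit 8088324) (nat_lit 110514882)) (xR T1.l9 T1.l9)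
  (TrL.c (I.mix (nat_lit 8088324) (nat_lit 89478486)) T3.l10
  TrL.n)))))))) (by decide +kernel)
theorem bx5_4 : BoxOK sI cl13 cl9 cl5 t3 t1 b5_4 :=
  box_mk (TrL.c (I.pos (nat_lit 0) (nat_lit 0)) (xa (xa (xb T3.l11 T3.l11) T3.l11) (xa T3.l11 T3.l11))
  (TrL.c (I.pos (nat_lit 0) (nat_lit 0)) T1.l6
  (TrL.c (I.pos (nat_lit 0) (nat_lit 134217730)) T3.l8
  (TrL.c (I.pos (nat_lit 0) (nat_lit 110514882)) T1.l7
  (TrL.c (I.pos (nat_lit 0) (nat_lit 0)) T1.l10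
  (TrL.c (I.pos (nat_lit 0) (nat_lit 0)) T3.l9
  (TrL.c (I.mix (nat_lit 8088324) (nat_lit 110514882)) T1.l9
  (TrL.c (I.mix (nat_lit 8088324) (nat_lit 89478486)) T3.l10
  TrL.n)))))))) (by decide +kernel)
theorem bx5_5 : BoxOK sI cl13 cl9 cl5 t3 t1 b5_5 :=
  box_mk (TrL.c (I.pos (nat_lit 0) (nat_lit 0)) T3.l12
  (TrL.c (I.pos (nat_lit 0) (nat_lit 0)) T1.l6
  (TrL.c (I.pos (nat_lit 0) (nat_lit 134217730)) (xR T3.l8 T3.l8)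
  (TrL.c (I.pos (nat_lit 0) (nat_lit 110514882)) (xR T1.l7 T1.l7)
  (TrL.c (I.pos (nat_lit 0) (nat_lit 0)) T1.l11
  (TrL.c (I.pos (nat_lit 0) (nat_lit 0)) T3.l9
  (TrL.c (I.mix (nat_lit 8088324) (nat_lit 110514882)) T1.l9
  (TrL.c (I.mix (nat_lit 8088324) (nat_lit 89478486)) T3.l10
  TrL.n)))))))) (by decide +kernel)
theorem bx5_6 : BoxOK sI cl13 cl9 cl5 t3 t1 b5_6 :=
  box_mk (TrL.c (I.pos (nat_lit 0) (nat_lit 0)) (xa T3.l11 T3.l11)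
  (TrL.c (I.pos (nat_lit 0) (nat_lit 0)) T1.l6
  (TrL.c (I.pos (nat_lit 0) (nat_lit 134217730)) T3.l8
  (TrL.c (I.pos (nat_lit 0) (nat_lit 110514882)) T1.l7
  (TrL.c (I.pos (nat_lit 0) (nat_lit 0)) T1.l10
  (TrL.c (I.pos (nat_lit 0) (nat_lit 0)) T3.l9
  (TrL.c (I.mix (nat_lit 8088324) (nat_lit 110514882)) T1.l9
  (TrL.c (I.mix (nat_lit 8088324) (nat_lit 89478486)) T3.l10
  TrL.n)))))))) (by decide +kernel)
theorem bx5_7 : BoxOK sI cl13 cl9 cl5 t3 t1 b5_7 :=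
  box_mk (TrL.c (I.pos (nat_lit 0) (nat_lit 0)) T3.l11
  (TrL.c (I.pos (nat_lit 0) (nat_lit 0)) T1.l6
  (TrL.c (I.pos (nat_lit 0) (nat_lit 134217730)) T3.l8
  (TrL.c (I.pos (nat_lit 0) (nat_lit 110514882)) T1.l7
  (TrL.c (I.pos (nat_lit 0) (nat_lit 0)) T1.l10
  (TrL.c (I.pos (nat_lit 0) (nat_lit 0)) T3.l9
  (TrL.c (I.mix (nat_lit 8088324) (nat_lit 110514882)) T1.l9
  (TrL.c (I.mix (nat_lit 8088324) (nat_lit 89478486)) T3.l10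
  TrL.n)))))))) (by decide +kernel)
theorem bx5_8 : BoxOK sI cl13 cl9 cl5 t3 t1 b5_8 :=
  box_mk (TrL.c (I.pos (nat_lit 0) (nat_lit 0)) (xa (xa T3.l11 T3.l11) (xa T3.l11 T3.l11))
  (TrL.c (I.pos (nat_lit 0) (nat_lit 0)) T1.l6
  (TrL.c (I.pos (nat_lit 0) (nat_lit 134217730)) T3.l8
  (TrL.c (I.pos (nat_lit 0) (nat_lit 110514882)) T1.l7
  (TrL.c (I.pos (nat_lit 0) (nat_lit 0)) T1.l10
  (TrL.c (I.pos (nat_lit 0) (nat_lit 0)) T3.l9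
  (TrL.c (I.mix (nat_lit 8088324) (nat_lit 110514882)) T1.l9
  (TrL.c (I.mix (nat_lit 8088324) (nat_lit 89478486)) T3.l10
  TrL.n)))))))) (by decide +kernel)
theorem bx5_9 : BoxOK sI cl13 cl9 cl5 t3 t1 b5_9 :=
  box_mk (TrL.c (I.pos (nat_lit 0) (nat_lit 0)) T3.l11
  (TrL.c (I.pos (nat_lit 0) (nat_lit 0)) T1.l6
  (TrL.c (I.pos (nat_lit 0) (nat_lit 134217730)) T3.l8
  (TrL.c (I.pos (nat_lit 0) (nat_lit 110514882)) T1.l7
  (TrL.c (I.pos (nat_lit 0) (nat_lit 0)) T1.l10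
  (TrL.c (I.pos (nat_lit 0) (nat_lit 0)) T3.l9
  (TrL.c (I.mix (nat_lit 8088324) (nat_lit 110514882)) T1.l9
  (TrL.c (I.mix (nat_lit 8088324) (nat_lit 89478486)) T3.l10
  TrL.n)))))))) (by decide +kernel)
theorem bx5_10 : BoxOK sI cl13 cl9 cl5 t3 t1 b5_10 :=
  box_mk (TrL.c (I.pos (nat_lit 0) (nat_lit 0)) T3.l12
  (TrL.c (I.pos (nat_lit 0) (nat_lit 0)) T1.l6
  (TrL.c (I.pos (nat_lit 0) (nat_lit 134217730)) (xR T3.l8 T3.l8)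
  (TrL.c (I.pos (nat_lit 0) (nat_lit 110514882)) (xR T1.l7 T1.l7)
  (TrL.c (I.pos (nat_lit 0) (nat_lit 0)) T1.l11
  (TrL.c (I.pos (nat_lit 0) (nat_lit 0)) T3.l9
  (TrL.c (I.mix (nat_lit 8088324) (nat_lit 110514882)) (xR T1.l9 T1.l9)
  (TrL.c (I.mix (nat_lit 8088324) (nat_lit 89478486)) T3.l10
  TrL.n)))))))) (by decide +kernel)
theorem bx5_11 : BoxOK sI cl13 cl9 cl5 t3 t1 b5_11 :=
  box_mk (TrL.c (I.pos (nat_lit 0) (nat_lit 0)) (xa T3.l11 T3.l11)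
  (TrL.c (I.pos (nat_lit 0) (nat_lit 0)) T1.l6
  (TrL.c (I.pos (nat_lit 0) (nat_lit 134217730)) T3.l8
  (TrL.c (I.pos (nat_lit 0) (nat_lit 110514882)) T1.l7
  (TrL.c (I.pos (nat_lit 0) (nat_lit 0)) T1.l10
  (TrL.c (I.pos (nat_lit 0) (nat_lit 0)) T3.l9
  (TrL.c (I.mix (nat_lit 8088324) (nat_lit 110514882)) T1.l9
  (TrL.c (I.mix (nat_lit 8088324) (nat_lit 89478486)) T3.l10
  TrL.n)))))))) (by decide +kernel)
theorem bx5_12 : BoxOK sI cl13 cl9 cl5 t3 t1 b5_12 :=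
  box_mk (TrL.c (I.pos (nat_lit 0) (nat_lit 0)) (xa T3.l0 T3.l0)
  (TrL.c (I.pos (nat_lit 0) (nat_lit 0)) T1.l6
  (TrL.c (I.pos (nat_lit 0) (nat_lit 134217730)) (xR T3.l8 T3.l4)
  (TrL.c (I.pos (nat_lit 0) (nat_lit 110514882)) (xR T1.l7 T1.l7)
  (TrL.c (I.pos (nat_lit 0) (nat_lit 0)) (xa T1.l8 (xk (xb T1.l8 T1.l8) (xb T1.l8 T1.l8)))
  (TrL.c (I.pos (nat_lit 0) (nat_lit 0)) T3.l9
  (TrL.c (I.mix (nat_lit 8088324) (nat_lit 110514882)) (xR T1.l9 T1.l9)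
  (TrL.c (I.mix (nat_lit 8088324) (nat_lit 89478486)) T3.l10
  TrL.n)))))))) (by decide +kernel)
theorem bx5_13 : BoxOK sI cl13 cl9 cl5 t3 t1 b5_13 :=
  box_mk (TrL.c (I.pos (nat_lit 0) (nat_lit 0)) (xa T3.l0 (xb T3.l0 T3.l0))
  (TrL.c (I.pos (nat_lit 0) (nat_lit 0)) T1.l6
  (TrL.c (I.pos (nat_lit 0) (nat_lit 134217730)) (xR T3.l8 T3.l8)
  (TrL.c (I.pos (nat_lit 0) (nat_lit 110514882)) (xR T1.l7 T1.l7)
  (TrL.c (I.pos (nat_lit 0) (nat_lit 0)) (xb T1.l8 (xa T1.l8 T1.l8))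
  (TrL.c (I.pos (nat_lit 0) (nat_lit 0)) T3.l9
  (TrL.c (I.mix (nat_lit 8088324) (nat_lit 110514882)) (xR T1.l9 T1.l9)
  (TrL.c (I.mix (nat_lit 8088324) (nat_lit 89478486)) T3.l10
  TrL.n)))))))) (by decide +kernel)
theorem sv5 : StarV sI cl13 cl9 cl5 t3 t1 t5 :=
  (bt_n (bt_n (bt_n (bt_b bx5_0) (bt_n (bt_b bx5_1) (bt_b bx5_2))) (bt_n (bt_n (bt_b bx5_3) (bt_b bx5_4)) (bt_n (bt_b bx5_5) (bt_b bx5_6)))) (bt_n (bt_n (bt_b bx5_7) (bt_n (bt_b bx5_8) (bt_b bx5_9))) (bt_n (bt_n (bt_b bx5_10) (bt_b bx5_11)) (bt_n (bt_b bx5_12) (bt_b bx5_13)))))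
def S5 : StarD := StarD.mk cl13 cl9 cl5 3 1 t5
def G : List StarD := [S0, S1, S2, S3, S4, S5]
theorem so0 : StarOK sI G S0 :=
  star_mk (by decide) (by decide) rfl rfl rfl rfl rfl rfl (rfl : _ = t2) (rfl : _ = t4)
  (st_mk (Pth.l (Pth.l (Pth.l Pth.z))) (nat_lit 116844209) (nat_lit 135723163) (by decide +kernel))
  (st_mk (Pth.l (Pth.l (Pth.l Pth.z))) (nat_lit 152984177) (nat_lit 172276497) (by decide +kernel))
  (st_mk (Pth.l (Pth.l (Pth.l Pth.z))) (nat_lit 195117025) (nat_lit 214977818) (by decide +kernel)) sv0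
theorem so1 : StarOK sI G S1 :=
  star_mk (by decide) (by decide) rfl rfl rfl rfl rfl rfl (rfl : _ = t4) (rfl : _ = t2)
  (st_mk (Pth.l (Pth.l (Pth.l Pth.z))) (nat_lit 97144289) (nat_lit 115970876) (by decide +kernel))
  (st_mk (Pth.l (Pth.l (Pth.l Pth.z))) (nat_lit 133184748) (nat_lit 152412967) (by decide +kernel))
  (st_mk (Pth.l (Pth.l (Pth.l Pth.z))) (nat_lit 175233939) (nat_lit 195020683) (by decide +kernel)) sv1
theorem so2 : StarOK sI G S2 :=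
  star_mk (by decide) (by decide) rfl rfl rfl rfl rfl rfl (rfl : _ = t0) (rfl : _ = t5)
  (st_mk (Pth.l (Pth.l (Pth.l Pth.z))) (nat_lit 239049337) (nat_lit 240753299) (by decide +kernel))
  (st_mk (Pth.l (Pth.l (Pth.l Pth.z))) (nat_lit 274257605) (nat_lit 276332720) (by decide +kernel))
  (st_mk (Pth.l (Pth.l (Pth.l Pth.z))) (nat_lit 314936184) (nat_lit 317505602) (by decide +kernel)) sv2
theorem so3 : StarOK sI G S3 :=
  star_mk (by decide) (by decide) rfl rfl rfl rfl rfl rfl (rfl : _ = t5) (rfl : _ = t0)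
  (st_mk (Pth.l (Pth.l (Pth.l Pth.z))) (nat_lit 96080333) (nat_lit 114562526) (by decide +kernel))
  (st_mk (Pth.l (Pth.l (Pth.l Pth.z))) (nat_lit 131190000) (nat_lit 149962663) (by decide +kernel))
  (st_mk (Pth.l (Pth.l (Pth.l Pth.z))) (nat_lit 171783128) (nat_lit 190981005) (by decide +kernel)) sv3
theorem so4 : StarOK sI G S4 :=
  star_mk (by decide) (by decide) rfl rfl rfl rfl rfl rfl (rfl : _ = t1) (rfl : _ = t3)
  (st_mk (Pth.l (Pth.l (Pth.l Pth.z))) (nat_lit 238062708) (nat_lit 239660376) (by decide +kernel))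
  (st_mk (Pth.l (Pth.l (Pth.l Pth.z))) (nat_lit 272959317) (nat_lit 274890583) (by decide +kernel))
  (st_mk (Pth.l (Pth.l (Pth.l Pth.z))) (nat_lit 313224636) (nat_lit 315598313) (by decide +kernel)) sv4
theorem so5 : StarOK sI G S5 :=
  star_mk (by decide) (by decide) rfl rfl rfl rfl rfl rfl (rfl : _ = t3) (rfl : _ = t1)
  (st_mk (Pth.l (Pth.l (Pth.l Pth.z))) (nat_lit 115089857) (nat_lit 133469783) (by decide +kernel))
  (st_mk (Pth.l (Pth.l (Pth.l Pth.z))) (nat_lit 149986467) (nat_lit 168630122) (by decide +kernel))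
  (st_mk (Pth.l (Pth.l (Pth.l Pth.z))) (nat_lit 190251785) (nat_lit 209277243) (by decide +kernel)) sv5
theorem ok : GroupOK (nat_lit 91226112) (nat_lit 150339584) G := grp_mk (allS_c so0 (allS_c so1 (allS_c so2 (allS_c so3 (allS_c so4 (allS_c so5 allS_n))))))
theorem cov : GCov G cl5 cl9 cl13 := cov_mk
  ⟨0, by decide, rfl, rfl, rfl⟩ ⟨1, by decide, rfl, rfl, rfl⟩ ⟨2, by decide, rfl, rfl, rfl⟩ ⟨3, by decide, rfl, rfl, rfl⟩ ⟨4, by decide, rfl, rfl, rfl⟩ ⟨5, by decide, rfl, rfl, rfl⟩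
end Q256_1

namespace Q256_2
def sI : I := I.pos (nat_lit 150274048) (nat_lit 209387520)
def b0_0 : Bx := Bx.mk (St.mk (I.pos (nat_lit 158384128) (nat_lit 237928448)) (I.mix (nat_lit 1687552) (nat_lit 55967744)) (I.mix (nat_lit 2129920) (nat_lit 75382784)) (I.pos (nat_lit 113426432) (nat_lit 248512512)) (I.mix (nat_lit 94339072) (nat_lit 51019776)) (I.mix (nat_lit 58245120) (nat_lit 51544064)) (I.mix (nat_lit 83738624) (nat_lit 70385664)))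
  false (nat_lit 17486184)
def b0_1 : Bx := Bx.mk (St.mk (I.mix (nat_lit 14974976) (nat_lit 131039232)) (I.mix (nat_lit 2113536) (nat_lit 28540928)) (I.mix (nat_lit 15171584) (nat_lit 13352960)) (I.pos (nat_lit 15122432) (nat_lit 98975744)) (I.mix (nat_lit 29999104) (nat_lit 30375936)) (I.mix (nat_lit 24231936) (nat_lit 19890176)) (I.mix (nat_lit 19185664) (nat_lit 12926976)))
  false (nat_lit 0)
def b0_2 : Bx := Bx.mk (St.mk (I.pos (nat_lit 109264896) (nat_lit 146309120)) (I.mix (nat_lit 44843008) (nat_lit 2965504)) (I.neg (nat_lit 4947968) (nat_lit 54771712)) (I.pos (nat_lit 63733760) (nat_lit 111034368)) (I.mix (nat_lit 73924608) (nat_lit 22036480)) (I.mix (nat_lit 29999104) (nat_lit 63488000)) (I.mix (nat_lit 20496384) (nat_lit 55738368)))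
  false (nat_lit 0)
def b0_3 : Bx := Bx.mk (St.mk (I.mix (nat_lit 22183936) (nat_lit 89014272)) (I.mix (nat_lit 25329664) (nat_lit 1736704)) (I.neg (nat_lit 278528) (nat_lit 22511616)) (I.pos (nat_lit 16236544) (nat_lit 65552384)) (I.mix (nat_lit 34488320) (nat_lit 13500416)) (I.mix (nat_lit 15007744) (nat_lit 24379392)) (I.mix (nat_lit 7716864) (nat_lit 13402112)))
  false (nat_lit 0)
def b0_4 : Bx := Bx.mk (St.mk (I.pos (nat_lit 205504512) (nat_lit 268484608)) (I.mix (nat_lit 6701056) (nat_lit 33652736)) (I.mix (nat_lit 50298880) (nat_lit 25493504)) (I.pos (nat_lit 202489856) (nat_lit 314703872)) (I.mix (nat_lit 66306048) (nat_lit 47366144)) (I.mix (nat_lit 48447488) (nat_lit 39878656)) (I.mix (nat_lit 71335936) (nat_lit 68943872)))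
  false (nat_lit 0)
def b0_5 : Bx := Bx.mk (St.mk (I.mix (nat_lit 23003136) (nat_lit 76677120)) (I.mix (nat_lit 1064960) (nat_lit 4505600)) (I.neg (nat_lit 999424) (nat_lit 8552448)) (I.pos (nat_lit 16941056) (nat_lit 57769984)) (I.mix (nat_lit 3276800) (nat_lit 5832704)) (I.mix (nat_lit 3194880) (nat_lit 2392064)) (I.mix (nat_lit 1851392) (nat_lit 1425408)))
  false (nat_lit 0)
def b0_6 : Bx := Bx.mk (St.mk (I.pos (nat_lit 110362624) (nat_lit 126828544)) (I.mix (nat_lit 1474560) (nat_lit 7045120)) (I.neg (nat_lit 2785280) (nat_lit 14581760)) (I.pos (nat_lit 64798720) (nat_lit 97075200)) (I.mix (nat_lit 6406144) (nat_lit 8880128)) (I.mix (nat_lit 5128192) (nat_lit 3735552)) (I.mix (nat_lit 4505600) (nat_lit 3375104)))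
  false (nat_lit 0)
def b0_7 : Bx := Bx.mk (St.mk (I.pos (nat_lit 107937792) (nat_lit 177209344)) (I.neg (nat_lit 5324800) (nat_lit 46792704)) (I.neg (nat_lit 11042816) (nat_lit 55033856)) (I.pos (nat_lit 76431360) (nat_lit 154337280)) (I.mix (nat_lit 71139328) (nat_lit 35127296)) (I.mix (nat_lit 38469632) (nat_lit 50921472)) (I.mix (nat_lit 32407552) (nat_lit 50642944)))
  false (nat_lit 0)
def b0_8 : Bx := Bx.mk (St.mk (I.mix (nat_lit 26673152) (nat_lit 102301696)) (I.mix (nat_lit 28639232) (nat_lit 5668864)) (I.neg (nat_lit 49152) (nat_lit 25509888)) (I.pos (nat_lit 14483456) (nat_lit 74514432)) (I.mix (nat_lit 40189952) (nat_lit 30801920)) (I.mix (nat_lit 24281088) (nat_lit 34258944)) (I.mix (nat_lit 14090240) (nat_lit 22642688)))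
  false (nat_lit 0)
def b0_9 : Bx := Bx.mk (St.mk (I.pos (nat_lit 173260800) (nat_lit 218791936)) (I.mix (nat_lit 10354688) (nat_lit 50561024)) (I.mix (nat_lit 9273344) (nat_lit 67796992)) (I.pos (nat_lit 141606912) (nat_lit 218415104)) (I.mix (nat_lit 114573312) (nat_lit 47923200)) (I.mix (nat_lit 113295360) (nat_lit 67747840)) (I.mix (nat_lit 124190720) (nat_lit 74186752)))
  false (nat_lit 6536593)
def b0_10 : Bx := Bx.mk (St.mk (I.mix (nat_lit 23429120) (nat_lit 124551168)) (I.mix (nat_lit 12943360) (nat_lit 31293440)) (I.mix (nat_lit 16564224) (nat_lit 16842752)) (I.pos (nat_lit 15450112) (nat_lit 92815360)) (I.mix (nat_lit 51380224) (nat_lit 31768576)) (I.mix (nat_lit 45727744) (nat_lit 34144256)) (I.mix (nat_lit 26492928) (nat_lit 20709376)))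
  false (nat_lit 0)
def b0_11 : Bx := Bx.mk (St.mk (I.pos (nat_lit 191119360) (nat_lit 239255552)) (I.pos (nat_lit 9584640) (nat_lit 52592640)) (I.pos (nat_lit 737280) (nat_lit 67387392)) (I.pos (nat_lit 191086592) (nat_lit 249184256)) (I.mix (nat_lit 84033536) (nat_lit 59310080)) (I.mix (nat_lit 67305472) (nat_lit 46694400)) (I.mix (nat_lit 106397696) (nat_lit 60063744)))
  false (nat_lit 8003148)
def b0_12 : Bx := Bx.mk (St.mk (I.pos (nat_lit 151339008) (nat_lit 210616320)) (I.mix (nat_lit 35815424) (nat_lit 14630912)) (I.mix (nat_lit 49332224) (nat_lit 16498688)) (I.pos (nat_lit 111591424) (nat_lit 201097216)) (I.mix (nat_lit 54247424) (nat_lit 40697856)) (I.mix (nat_lit 46514176) (nat_lit 41025536)) (I.mix (nat_lit 50266112) (nat_lit 43286528)))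
  false (nat_lit 634004)
def b0_13 : Bx := Bx.mk (St.mk (I.pos (nat_lit 176947200) (nat_lit 211828736)) (I.mix (nat_lit 12091392) (nat_lit 28049408)) (I.mix (nat_lit 14499840) (nat_lit 37093376)) (I.pos (nat_lit 146898944) (nat_lit 201293824)) (I.mix (nat_lit 74727424) (nat_lit 48693248)) (I.mix (nat_lit 91373568) (nat_lit 44335104)) (I.mix (nat_lit 101711872) (nat_lit 45236224)))
  false (nat_lit 0)
def t0 : BTr := (BTr.n (BTr.n (BTr.n (BTr.b b0_0) (BTr.n (BTr.b b0_1) (BTr.b b0_2))) (BTr.n (BTr.n (BTr.b b0_3) (BTr.b b0_4)) (BTr.n (BTr.b b0_5) (BTr.b b0_6)))) (BTr.n (BTr.n (BTr.b b0_7) (BTr.n (BTr.b b0_8) (BTr.b b0_9))) (BTr.n (BTr.n (BTr.b b0_10) (BTr.b b0_11)) (BTr.n (BTr.b b0_12) (BTr.b b0_13)))))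
namespace T0
def l0 : Tr := Tr.L (Pth.l (Pth.l (Pth.l Pth.z)))
def l1 : Tr := Tr.L (Pth.l (Pth.l (Pth.r (Pth.l Pth.z))))
def l2 : Tr := Tr.L (Pth.l (Pth.l (Pth.r (Pth.r Pth.z))))
def l3 : Tr := Tr.L (Pth.l (Pth.r (Pth.l (Pth.l Pth.z))))
def l4 : Tr := Tr.L (Pth.l (Pth.r (Pth.l (Pth.r Pth.z))))
def l5 : Tr := Tr.L (Pth.l (Pth.r (Pth.r (Pth.l Pth.z))))
def l6 : Tr := Tr.L (Pth.l (Pth.r (Pth.r (Pth.r Pth.z))))
def l7 : Tr := Tr.L (Pth.r (Pth.l (Pth.l Pth.z)))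
def l8 : Tr := Tr.L (Pth.r (Pth.l (Pth.r (Pth.l Pth.z))))
def l9 : Tr := Tr.L (Pth.r (Pth.l (Pth.r (Pth.r Pth.z))))
def l10 : Tr := Tr.L (Pth.r (Pth.r (Pth.l (Pth.l Pth.z))))
def l11 : Tr := Tr.L (Pth.r (Pth.r (Pth.l (Pth.r Pth.z))))
def l12 : Tr := Tr.L (Pth.r (Pth.r (Pth.r (Pth.l Pth.z))))
def l13 : Tr := Tr.L (Pth.r (Pth.r (Pth.r (Pth.r Pth.z))))
end T0
def b1_0 : Bx := Bx.mk (St.mk (I.pos (nat_lit 158351360) (nat_lit 239927296)) (I.mix (nat_lit 1556480) (nat_lit 52297728)) (I.mix (nat_lit 2228224) (nat_lit 77758464)) (I.pos (nat_lit 93667328) (nat_lit 229818368)) (I.mix (nat_lit 95338496) (nat_lit 57606144)) (I.mix (nat_lit 62603264) (nat_lit 58015744)) (I.mix (nat_lit 91226112) (nat_lit 77414400)))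
  false (nat_lit 29897908)
def b1_1 : Bx := Bx.mk (St.mk (I.mix (nat_lit 8994816) (nat_lit 140443648)) (I.mix (nat_lit 2031616) (nat_lit 24690688)) (I.mix (nat_lit 10944512) (nat_lit 16220160)) (I.mix (nat_lit 3145728) (nat_lit 88981504)) (I.mix (nat_lit 27181056) (nat_lit 27639808)) (I.mix (nat_lit 21413888) (nat_lit 19120128)) (I.mix (nat_lit 17219584) (nat_lit 14647296)))
  false (nat_lit 0)
def b1_2 : Bx := Bx.mk (St.mk (I.pos (nat_lit 117915648) (nat_lit 153829376)) (I.mix (nat_lit 42434560) (nat_lit 2899968)) (I.neg (nat_lit 1966080) (nat_lit 51150848)) (I.pos (nat_lit 53870592) (nat_lit 101236736)) (I.mix (nat_lit 76988416) (nat_lit 21069824)) (I.mix (nat_lit 27443200) (nat_lit 64995328)) (I.mix (nat_lit 20398080) (nat_lit 60489728)))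
  false (nat_lit 0)
def b1_3 : Bx := Bx.mk (St.mk (I.mix (nat_lit 12075008) (nat_lit 105152512)) (I.mix (nat_lit 22675456) (nat_lit 1179648)) (I.mix (nat_lit 20840448) (nat_lit 1146880)) (I.mix (nat_lit 2211840) (nat_lit 56999936)) (I.mix (nat_lit 33996800) (nat_lit 12517376)) (I.mix (nat_lit 13844480) (nat_lit 25264128)) (I.mix (nat_lit 7897088) (nat_lit 16252928)))
  false (nat_lit 0)
def b1_4 : Bx := Bx.mk (St.mk (I.pos (nat_lit 202440704) (nat_lit 268091392)) (I.mix (nat_lit 6504448) (nat_lit 31621120)) (I.mix (nat_lit 38010880) (nat_lit 35340288)) (I.pos (nat_lit 184467456) (nat_lit 294633472)) (I.mix (nat_lit 66355200) (nat_lit 41811968)) (I.mix (nat_lit 47005696) (nat_lit 37158912)) (I.mix (nat_lit 72220672) (nat_lit 63766528)))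
  false (nat_lit 14853348)
def b1_5 : Bx := Bx.mk (St.mk (I.pos (nat_lit 120061952) (nat_lit 136314880)) (I.mix (nat_lit 1507328) (nat_lit 6651904)) (I.neg (nat_lit 32768) (nat_lit 10436608)) (I.pos (nat_lit 54771712) (nat_lit 86999040)) (I.mix (nat_lit 6651904) (nat_lit 8863744)) (I.mix (nat_lit 5619712) (nat_lit 3653632)) (I.mix (nat_lit 5259264) (nat_lit 3145728)))
  false (nat_lit 0)
def b1_6 : Bx := Bx.mk (St.mk (I.mix (nat_lit 11550720) (nat_lit 42975232)) (I.mix (nat_lit 638976) (nat_lit 2719744)) (I.mix (nat_lit 3080192) (nat_lit 638976)) (I.mix (nat_lit 1261568) (nat_lit 24150016)) (I.mix (nat_lit 1523712) (nat_lit 2899968)) (I.mix (nat_lit 1490944) (nat_lit 1310720)) (I.mix (nat_lit 671744) (nat_lit 655360)))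
  false (nat_lit 0)
def b1_7 : Bx := Bx.mk (St.mk (I.pos (nat_lit 116342784) (nat_lit 183664640)) (I.neg (nat_lit 2686976) (nat_lit 45465600)) (I.neg (nat_lit 7913472) (nat_lit 51331072)) (I.pos (nat_lit 67518464) (nat_lit 143671296)) (I.mix (nat_lit 69271552) (nat_lit 37142528)) (I.mix (nat_lit 39403520) (nat_lit 51445760)) (I.mix (nat_lit 36044800) (nat_lit 53575680)))
  false (nat_lit 27544246)
def b1_8 : Bx := Bx.mk (St.mk (I.mix (nat_lit 13139968) (nat_lit 116539392)) (I.mix (nat_lit 26378240) (nat_lit 7143424)) (I.mix (nat_lit 23527424) (nat_lit 1130496)) (I.mix (nat_lit 2490368) (nat_lit 66322432)) (I.mix (nat_lit 37683200) (nat_lit 29458432)) (I.mix (nat_lit 24920064) (nat_lit 29835264)) (I.mix (nat_lit 14237696) (nat_lit 20758528)))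
  false (nat_lit 0)
def b1_9 : Bx := Bx.mk (St.mk (I.pos (nat_lit 176242688) (nat_lit 218431488)) (I.mix (nat_lit 12304384) (nat_lit 46923776)) (I.mix (nat_lit 7962624) (nat_lit 69648384)) (I.pos (nat_lit 125173760) (nat_lit 197361664)) (I.mix (nat_lit 113934336) (nat_lit 47415296)) (I.mix (nat_lit 114589696) (nat_lit 64045056)) (I.mix (nat_lit 131547136) (nat_lit 72040448)))
  false (nat_lit 0)
def b1_10 : Bx := Bx.mk (St.mk (I.mix (nat_lit 14286848) (nat_lit 134971392)) (I.mix (nat_lit 13287424) (nat_lit 28524544)) (I.mix (nat_lit 15171584) (nat_lit 19480576)) (I.mix (nat_lit 2981888) (nat_lit 83263488)) (I.mix (nat_lit 48562176) (nat_lit 27869184)) (I.mix (nat_lit 43827200) (nat_lit 28704768)) (I.mix (nat_lit 30015488) (nat_lit 19857408)))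
  false (nat_lit 0)
def b1_11 : Bx := Bx.mk (St.mk (I.pos (nat_lit 155172864) (nat_lit 211992576)) (I.mix (nat_lit 35422208) (nat_lit 11567104)) (I.mix (nat_lit 45711360) (nat_lit 16957440)) (I.pos (nat_lit 98402304) (nat_lit 183599104)) (I.mix (nat_lit 55164928) (nat_lit 40026112)) (I.mix (nat_lit 51134464) (nat_lit 44924928)) (I.mix (nat_lit 56705024) (nat_lit 47955968)))
  false (nat_lit 33954964)
def b1_12 : Bx := Bx.mk (St.mk (I.pos (nat_lit 181403648) (nat_lit 215236608)) (I.mix (nat_lit 14499840) (nat_lit 22544384)) (I.mix (nat_lit 12845056) (nat_lit 34471936)) (I.pos (nat_lit 132235264) (nat_lit 185745408)) (I.mix (nat_lit 77840384) (nat_lit 47513600)) (I.mix (nat_lit 92815360) (nat_lit 45334528)) (I.mix (nat_lit 107102208) (nat_lit 50577408)))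
  false (nat_lit 0)
def b1_13 : Bx := Bx.mk (St.mk (I.pos (nat_lit 192987136) (nat_lit 241647616)) (I.pos (nat_lit 6717440) (nat_lit 51871744)) (I.pos (nat_lit 4472832) (nat_lit 75530240)) (I.pos (nat_lit 174997504) (nat_lit 229425152)) (I.mix (nat_lit 84082688) (nat_lit 59260928)) (I.mix (nat_lit 69206016) (nat_lit 50774016)) (I.mix (nat_lit 110116864) (nat_lit 59244544)))
  false (nat_lit 27511636)
def t1 : BTr := (BTr.n (BTr.n (BTr.n (BTr.b b1_0) (BTr.n (BTr.b b1_1) (BTr.b b1_2))) (BTr.n (BTr.n (BTr.b b1_3) (BTr.b b1_4)) (BTr.n (BTr.b b1_5) (BTr.b b1_6)))) (BTr.n (BTr.n (BTr.b b1_7) (BTr.n (BTr.b b1_8) (BTr.b b1_9))) (BTr.n (BTr.n (BTr.b b1_10) (BTr.b b1_11)) (BTr.n (BTr.b b1_12) (BTr.b b1_13)))))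
namespace T1
def l0 : Tr := Tr.L (Pth.l (Pth.l (Pth.l Pth.z)))
def l1 : Tr := Tr.L (Pth.l (Pth.l (Pth.r (Pth.l Pth.z))))
def l2 : Tr := Tr.L (Pth.l (Pth.l (Pth.r (Pth.r Pth.z))))
def l3 : Tr := Tr.L (Pth.l (Pth.r (Pth.l (Pth.l Pth.z))))
def l4 : Tr := Tr.L (Pth.l (Pth.r (Pth.l (Pth.r Pth.z))))
def l5 : Tr := Tr.L (Pth.l (Pth.r (Pth.r (Pth.l Pth.z))))
def l6 : Tr := Tr.L (Pth.l (Pth.r (Pth.r (Pth.r Pth.z))))
def l7 : Tr := Tr.L (Pth.r (Pth.l (Pth.l Pth.z)))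
def l8 : Tr := Tr.L (Pth.r (Pth.l (Pth.r (Pth.l Pth.z))))
def l9 : Tr := Tr.L (Pth.r (Pth.l (Pth.r (Pth.r Pth.z))))
def l10 : Tr := Tr.L (Pth.r (Pth.r (Pth.l (Pth.l Pth.z))))
def l11 : Tr := Tr.L (Pth.r (Pth.r (Pth.l (Pth.r Pth.z))))
def l12 : Tr := Tr.L (Pth.r (Pth.r (Pth.r (Pth.l Pth.z))))
def l13 : Tr := Tr.L (Pth.r (Pth.r (Pth.r (Pth.r Pth.z))))
end T1
def b2_0 : Bx := Bx.mk (St.mk (I.pos (nat_lit 153665536) (nat_lit 227885056)) (I.mix (nat_lit 2097152) (nat_lit 69828608)) (I.mix (nat_lit 2736128) (nat_lit 92389376)) (I.pos (nat_lit 235880448) (nat_lit 338755584)) (I.mix (nat_lit 106610688) (nat_lit 62537728)) (I.mix (nat_lit 62357504) (nat_lit 55148544)) (I.mix (nat_lit 80527360) (nat_lit 75268096)))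
  false (nat_lit 126244239)
def b2_1 : Bx := Bx.mk (St.mk (I.pos (nat_lit 23576576) (nat_lit 72302592)) (I.mix (nat_lit 8765440) (nat_lit 43925504)) (I.mix (nat_lit 25985024) (nat_lit 3293184)) (I.pos (nat_lit 143917056) (nat_lit 162119680)) (I.mix (nat_lit 28524544) (nat_lit 43728896)) (I.mix (nat_lit 37109760) (nat_lit 24035328)) (I.mix (nat_lit 20054016) (nat_lit 10846208)))
  false (nat_lit 0)
def b2_2 : Bx := Bx.mk (St.mk (I.pos (nat_lit 51691520) (nat_lit 99860480)) (I.mix (nat_lit 60801024) (nat_lit 9273344)) (I.neg (nat_lit 11927552) (nat_lit 56049664)) (I.pos (nat_lit 149127168) (nat_lit 182157312)) (I.mix (nat_lit 77725696) (nat_lit 27656192)) (I.mix (nat_lit 28524544) (nat_lit 65765376)) (I.mix (nat_lit 21331968) (nat_lit 39567360)))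
  false (nat_lit 0)
def b2_3 : Bx := Bx.mk (St.mk (I.neg (nat_lit 23576576) (nat_lit 72302592)) (I.mix (nat_lit 43925504) (nat_lit 8765440)) (I.mix (nat_lit 25985024) (nat_lit 3293184)) (I.pos (nat_lit 143917056) (nat_lit 162119680)) (I.mix (nat_lit 43728896) (nat_lit 28524544)) (I.mix (nat_lit 24035328) (nat_lit 37109760)) (I.mix (nat_lit 20054016) (nat_lit 10846208)))
  true (nat_lit 0)
def b2_4 : Bx := Bx.mk (St.mk (I.pos (nat_lit 70975488) (nat_lit 149127168)) (I.neg (nat_lit 10715136) (nat_lit 65257472)) (I.neg (nat_lit 3735552) (nat_lit 60489728)) (I.pos (nat_lit 163037184) (nat_lit 225984512)) (I.mix (nat_lit 73449472) (nat_lit 42287104)) (I.mix (nat_lit 37584896) (nat_lit 56918016)) (I.mix (nat_lit 32735232) (nat_lit 49135616)))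
  false (nat_lit 0)
def b2_5 : Bx := Bx.mk (St.mk (I.mix (nat_lit 37486592) (nat_lit 4997120)) (I.mix (nat_lit 39632896) (nat_lit 5947392)) (I.mix (nat_lit 6782976) (nat_lit 2277376)) (I.pos (nat_lit 140525568) (nat_lit 151764992)) (I.mix (nat_lit 26918912) (nat_lit 36290560)) (I.mix (nat_lit 22020096) (nat_lit 34799616)) (I.mix (nat_lit 4833280) (nat_lit 5292032)))
  true (nat_lit 0)
def b2_6 : Bx := Bx.mk (St.mk (I.pos (nat_lit 150863872) (nat_lit 199770112)) (I.pos (nat_lit 3194880) (nat_lit 63160320)) (I.pos (nat_lit 12451840) (nat_lit 86999040)) (I.pos (nat_lit 234110976) (nat_lit 297238528)) (I.mix (nat_lit 118079488) (nat_lit 33751040)) (I.mix (nat_lit 101089280) (nat_lit 52838400)) (I.mix (nat_lit 97337344) (nat_lit 57999360)))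
  false (nat_lit 107488801)
def b2_7 : Bx := Bx.mk (St.mk (I.mix (nat_lit 4931584) (nat_lit 37486592)) (I.mix (nat_lit 5947392) (nat_lit 39632896)) (I.mix (nat_lit 6782976) (nat_lit 2277376)) (I.pos (nat_lit 140525568) (nat_lit 151764992)) (I.mix (nat_lit 36290560) (nat_lit 26918912)) (I.mix (nat_lit 34799616) (nat_lit 22020096)) (I.mix (nat_lit 4833280) (nat_lit 5292032)))
  false (nat_lit 0)
def b2_8 : Bx := Bx.mk (St.mk (I.pos (nat_lit 197246976) (nat_lit 286588928)) (I.mix (nat_lit 26165248) (nat_lit 50970624)) (I.mix (nat_lit 104972288) (nat_lit 51855360)) (I.pos (nat_lit 300367872) (nat_lit 444284928)) (I.mix (nat_lit 69681152) (nat_lit 67698688)) (I.mix (nat_lit 63602688) (nat_lit 48316416)) (I.mix (nat_lit 110133248) (nat_lit 90882048)))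
  false (nat_lit 133615453)
def b2_9 : Bx := Bx.mk (St.mk (I.pos (nat_lit 129056768) (nat_lit 190709760)) (I.mix (nat_lit 34914304) (nat_lit 23543808)) (I.mix (nat_lit 31981568) (nat_lit 37978112)) (I.pos (nat_lit 205946880) (nat_lit 276742144)) (I.mix (nat_lit 50741248) (nat_lit 46268416)) (I.mix (nat_lit 47431680) (nat_lit 44023808)) (I.mix (nat_lit 45907968) (nat_lit 42221568)))
  false (nat_lit 0)
def b2_10 : Bx := Bx.mk (St.mk (I.pos (nat_lit 152829952) (nat_lit 192053248)) (I.mix (nat_lit 2506752) (nat_lit 44924928)) (I.pos (nat_lit 3473408) (nat_lit 66322432)) (I.pos (nat_lit 238108672) (nat_lit 282755072)) (I.mix (nat_lit 112410624) (nat_lit 57819136)) (I.mix (nat_lit 114049024) (nat_lit 54624256)) (I.mix (nat_lit 111902720) (nat_lit 53985280)))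
  false (nat_lit 63671746)
def b2_11 : Bx := Bx.mk (St.mk (I.pos (nat_lit 172539904) (nat_lit 222461952)) (I.pos (nat_lit 25591808) (nat_lit 67862528)) (I.pos (nat_lit 25706496) (nat_lit 87048192)) (I.pos (nat_lit 279642112) (nat_lit 328581120)) (I.mix (nat_lit 97828864) (nat_lit 71729152)) (I.mix (nat_lit 80805888) (nat_lit 57442304)) (I.mix (nat_lit 119029760) (nat_lit 78102528)))
  false (nat_lit 119396042)
def t2 : BTr := (BTr.n (BTr.n (BTr.n (BTr.b b2_0) (BTr.n (BTr.b b2_1) (BTr.b b2_2))) (BTr.n (BTr.b b2_3) (BTr.n (BTr.b b2_4) (BTr.b b2_5)))) (BTr.n (BTr.n (BTr.b b2_6) (BTr.n (BTr.b b2_7) (BTr.b b2_8))) (BTr.n (BTr.b b2_9) (BTr.n (BTr.b b2_10) (BTr.b b2_11)))))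
namespace T2
def l0 : Tr := Tr.L (Pth.l (Pth.l (Pth.l Pth.z)))
def l1 : Tr := Tr.L (Pth.l (Pth.l (Pth.r (Pth.l Pth.z))))
def l2 : Tr := Tr.L (Pth.l (Pth.l (Pth.r (Pth.r Pth.z))))
def l3 : Tr := Tr.L (Pth.l (Pth.r (Pth.l Pth.z)))
def l4 : Tr := Tr.L (Pth.l (Pth.r (Pth.r (Pth.l Pth.z))))
def l5 : Tr := Tr.L (Pth.l (Pth.r (Pth.r (Pth.r Pth.z))))
def l6 : Tr := Tr.L (Pth.r (Pth.l (Pth.l Pth.z)))
def l7 : Tr := Tr.L (Pth.r (Pth.l (Pth.r (Pth.l Pth.z))))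
def l8 : Tr := Tr.L (Pth.r (Pth.l (Pth.r (Pth.r Pth.z))))
def l9 : Tr := Tr.L (Pth.r (Pth.r (Pth.l Pth.z)))
def l10 : Tr := Tr.L (Pth.r (Pth.r (Pth.r (Pth.l Pth.z))))
def l11 : Tr := Tr.L (Pth.r (Pth.r (Pth.r (Pth.r Pth.z))))
end T2
def b3_0 : Bx := Bx.mk (St.mk (I.pos (nat_lit 156631040) (nat_lit 238518272)) (I.mix (nat_lit 1425408) (nat_lit 46448640)) (I.mix (nat_lit 2916352) (nat_lit 102105088)) (I.pos (nat_lit 92815360) (nat_lit 214564864)) (I.mix (nat_lit 116932608) (nat_lit 77692928)) (I.mix (nat_lit 93700096) (nat_lit 82264064)) (I.mix (nat_lit 140623872) (nat_lit 108052480)))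
  false (nat_lit 61374998)
def b3_1 : Bx := Bx.mk (St.mk (I.pos (nat_lit 124469248) (nat_lit 180125696)) (I.neg (nat_lit 6701056) (nat_lit 50282496)) (I.mix (nat_lit 41205760) (nat_lit 2867200)) (I.pos (nat_lit 75776000) (nat_lit 137822208)) (I.mix (nat_lit 60309504) (nat_lit 30490624)) (I.mix (nat_lit 29130752) (nat_lit 40665088)) (I.mix (nat_lit 27017216) (nat_lit 42303488)))
  false (nat_lit 56540213)
def b3_2 : Bx := Bx.mk (St.mk (I.mix (nat_lit 10452992) (nat_lit 117391360)) (I.mix (nat_lit 25001984) (nat_lit 2670592)) (I.mix (nat_lit 13090816) (nat_lit 7585792)) (I.mix (nat_lit 2490368) (nat_lit 66469888)) (I.mix (nat_lit 25624576) (nat_lit 21757952)) (I.mix (nat_lit 14974976) (nat_lit 18219008)) (I.mix (nat_lit 9404416) (nat_lit 12664832)))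
  false (nat_lit 0)
def b3_3 : Bx := Bx.mk (St.mk (I.pos (nat_lit 172867584) (nat_lit 213499904)) (I.mix (nat_lit 12107776) (nat_lit 43024384)) (I.pos (nat_lit 12484608) (nat_lit 89800704)) (I.pos (nat_lit 114130944) (nat_lit 183336960)) (I.mix (nat_lit 112705536) (nat_lit 40517632)) (I.mix (nat_lit 103251968) (nat_lit 50282496)) (I.mix (nat_lit 130990080) (nat_lit 45989888)))
  false (nat_lit 68873095)
def b3_4 : Bx := Bx.mk (St.mk (I.mix (nat_lit 13811712) (nat_lit 131284992)) (I.mix (nat_lit 9175040) (nat_lit 29638656)) (I.mix (nat_lit 1376256) (nat_lit 32751616)) (I.mix (nat_lit 2850816) (nat_lit 78823424)) (I.mix (nat_lit 53035008) (nat_lit 22118400)) (I.mix (nat_lit 43368448) (nat_lit 23560192)) (I.mix (nat_lit 32489472) (nat_lit 13975552)))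
  false (nat_lit 0)
def b3_5 : Bx := Bx.mk (St.mk (I.pos (nat_lit 163676160) (nat_lit 211025920)) (I.mix (nat_lit 31113216) (nat_lit 8192000)) (I.mix (nat_lit 13221888) (nat_lit 40484864)) (I.pos (nat_lit 104431616) (nat_lit 175996928)) (I.mix (nat_lit 47333376) (nat_lit 50741248)) (I.mix (nat_lit 45596672) (nat_lit 45858816)) (I.mix (nat_lit 46809088) (nat_lit 47923200)))
  false (nat_lit 50501913)
def b3_6 : Bx := Bx.mk (St.mk (I.pos (nat_lit 161398784) (nat_lit 182697984)) (I.neg (nat_lit 12943360) (nat_lit 34635776)) (I.mix (nat_lit 21512192) (nat_lit 3063808)) (I.pos (nat_lit 104415232) (nat_lit 141901824)) (I.mix (nat_lit 24788992) (nat_lit 17301504)) (I.mix (nat_lit 12140544) (nat_lit 15695872)) (I.mix (nat_lit 12206080) (nat_lit 16826368)))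
  false (nat_lit 0)
def b3_7 : Bx := Bx.mk (St.mk (I.mix (nat_lit 14106624) (nat_lit 117342208)) (I.mix (nat_lit 11911168) (nat_lit 1196032)) (I.mix (nat_lit 3063808) (nat_lit 7258112)) (I.mix (nat_lit 2260992) (nat_lit 66338816)) (I.mix (nat_lit 5488640) (nat_lit 8388608)) (I.mix (nat_lit 3358720) (nat_lit 4472832)) (I.mix (nat_lit 2031616) (nat_lit 3342336)))
  false (nat_lit 0)
def b3_8 : Bx := Bx.mk (St.mk (I.pos (nat_lit 29179904) (nat_lit 140754944)) (I.mix (nat_lit 6193152) (nat_lit 24625152)) (I.mix (nat_lit 671744) (nat_lit 30720000)) (I.pos (nat_lit 10649600) (nat_lit 89522176)) (I.mix (nat_lit 44253184) (nat_lit 34684928)) (I.mix (nat_lit 37584896) (nat_lit 31162368)) (I.mix (nat_lit 31293440) (nat_lit 22806528)))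
  false (nat_lit 7671077)
def b3_9 : Bx := Bx.mk (St.mk (I.pos (nat_lit 117833728) (nat_lit 159203328)) (I.mix (nat_lit 47415296) (nat_lit 7585792)) (I.mix (nat_lit 38223872) (nat_lit 15712256)) (I.pos (nat_lit 54231040) (nat_lit 109297664)) (I.mix (nat_lit 72171520) (nat_lit 30097408)) (I.mix (nat_lit 33128448) (nat_lit 64962560)) (I.mix (nat_lit 28262400) (nat_lit 54411264)))
  false (nat_lit 54502983)
def b3_10 : Bx := Bx.mk (St.mk (I.mix (nat_lit 12812288) (nat_lit 109461504)) (I.mix (nat_lit 24035328) (nat_lit 3817472)) (I.mix (nat_lit 12025856) (nat_lit 8503296)) (I.mix (nat_lit 2293760) (nat_lit 59670528)) (I.mix (nat_lit 34291712) (nat_lit 22609920)) (I.mix (nat_lit 21299200) (nat_lit 29343744)) (I.mix (nat_lit 12025856) (nat_lit 16351232)))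
  false (nat_lit 0)
def b3_11 : Bx := Bx.mk (St.mk (I.pos (nat_lit 191234048) (nat_lit 282296320)) (I.mix (nat_lit 19267584) (nat_lit 36421632)) (I.mix (nat_lit 13647872) (nat_lit 90095616)) (I.pos (nat_lit 163037184) (nat_lit 313638912)) (I.mix (nat_lit 78495744) (nat_lit 56623104)) (I.mix (nat_lit 62373888) (nat_lit 46596096)) (I.mix (nat_lit 99221504) (nat_lit 76431360)))
  false (nat_lit 101619768)
def b3_12 : Bx := Bx.mk (St.mk (I.pos (nat_lit 178667520) (nat_lit 237043712)) (I.pos (nat_lit 9109504) (nat_lit 47988736)) (I.pos (nat_lit 34390016) (nat_lit 105725952)) (I.pos (nat_lit 151044096) (nat_lit 207634432)) (I.mix (nat_lit 103809024) (nat_lit 79986688)) (I.mix (nat_lit 97665024) (nat_lit 72335360)) (I.mix (nat_lit 144392192) (nat_lit 92553216)))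
  false (nat_lit 77295956)
def b3_13 : Bx := Bx.mk (St.mk (I.pos (nat_lit 173785088) (nat_lit 210829312)) (I.mix (nat_lit 18300928) (nat_lit 21381120)) (I.pos (nat_lit 6029312) (nat_lit 60194816)) (I.pos (nat_lit 114884608) (nat_lit 173539328)) (I.mix (nat_lit 91455488) (nat_lit 43991040)) (I.mix (nat_lit 93601792) (nat_lit 41467904)) (I.mix (nat_lit 111083520) (nat_lit 40255488)))
  false (nat_lit 55750698)
def t3 : BTr := (BTr.n (BTr.n (BTr.n (BTr.b b3_0) (BTr.n (BTr.b b3_1) (BTr.b b3_2))) (BTr.n (BTr.n (BTr.b b3_3) (BTr.b b3_4)) (BTr.n (BTr.b b3_5) (BTr.b b3_6)))) (BTr.n (BTr.n (BTr.b b3_7) (BTr.n (BTr.b b3_8) (BTr.b b3_9))) (BTr.n (BTr.n (BTr.b b3_10) (BTr.b b3_11)) (BTr.n (BTr.b b3_12) (BTr.b b3_13)))))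
namespace T3
def l0 : Tr := Tr.L (Pth.l (Pth.l (Pth.l Pth.z)))
def l1 : Tr := Tr.L (Pth.l (Pth.l (Pth.r (Pth.l Pth.z))))
def l2 : Tr := Tr.L (Pth.l (Pth.l (Pth.r (Pth.r Pth.z))))
def l3 : Tr := Tr.L (Pth.l (Pth.r (Pth.l (Pth.l Pth.z))))
def l4 : Tr := Tr.L (Pth.l (Pth.r (Pth.l (Pth.r Pth.z))))
def l5 : Tr := Tr.L (Pth.l (Pth.r (Pth.r (Pth.l Pth.z))))
def l6 : Tr := Tr.L (Pth.l (Pth.r (Pth.r (Pth.r Pth.z))))
def l7 : Tr := Tr.L (Pth.r (Pth.l (Pth.l Pth.z)))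
def l8 : Tr := Tr.L (Pth.r (Pth.l (Pth.r (Pth.l Pth.z))))
def l9 : Tr := Tr.L (Pth.r (Pth.l (Pth.r (Pth.r Pth.z))))
def l10 : Tr := Tr.L (Pth.r (Pth.r (Pth.l (Pth.l Pth.z))))
def l11 : Tr := Tr.L (Pth.r (Pth.r (Pth.l (Pth.r Pth.z))))
def l12 : Tr := Tr.L (Pth.r (Pth.r (Pth.r (Pth.l Pth.z))))
def l13 : Tr := Tr.L (Pth.r (Pth.r (Pth.r (Pth.r Pth.z))))
end T3
def b4_0 : Bx := Bx.mk (St.mk (I.pos (nat_lit 150552576) (nat_lit 227082240)) (I.mix (nat_lit 2048000) (nat_lit 68878336)) (I.mix (nat_lit 2949120) (nat_lit 101548032)) (I.pos (nat_lit 234848256) (nat_lit 334168064)) (I.mix (nat_lit 114343936) (nat_lit 65028096)) (I.mix (nat_lit 70402048) (nat_lit 61751296)) (I.mix (nat_lit 86835200) (nat_lit 83083264)))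
  false (nat_lit 149505915)
def b4_1 : Bx := Bx.mk (St.mk (I.pos (nat_lit 74121216) (nat_lit 151355392)) (I.neg (nat_lit 8536064) (nat_lit 66338816)) (I.mix (nat_lit 54935552) (nat_lit 6078464)) (I.pos (nat_lit 165937152) (nat_lit 228098048)) (I.mix (nat_lit 72105984) (nat_lit 43368448)) (I.mix (nat_lit 34897920) (nat_lit 54034432)) (I.mix (nat_lit 31703040) (nat_lit 46317568)))
  false (nat_lit 0)
def b4_2 : Bx := Bx.mk (St.mk (I.mix (nat_lit 35340288) (nat_lit 6356992)) (I.mix (nat_lit 39813120) (nat_lit 6782976)) (I.mix (nat_lit 1605632) (nat_lit 7323648)) (I.pos (nat_lit 140394496) (nat_lit 151207936)) (I.mix (nat_lit 23642112) (nat_lit 38305792)) (I.mix (nat_lit 19578880) (nat_lit 34144256)) (I.mix (nat_lit 4341760) (nat_lit 5242880)))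
  true (nat_lit 0)
def b4_3 : Bx := Bx.mk (St.mk (I.pos (nat_lit 149422080) (nat_lit 197345280)) (I.pos (nat_lit 3014656) (nat_lit 62341120)) (I.pos (nat_lit 20119552) (nat_lit 94830592)) (I.pos (nat_lit 229998592) (nat_lit 291962880)) (I.mix (nat_lit 116359168) (nat_lit 30834688)) (I.mix (nat_lit 99352576) (nat_lit 49889280)) (I.mix (nat_lit 97599488) (nat_lit 51085312)))
  false (nat_lit 95764834)
def b4_4 : Bx := Bx.mk (St.mk (I.mix (nat_lit 6356992) (nat_lit 35340288)) (I.mix (nat_lit 6782976) (nat_lit 39813120)) (I.mix (nat_lit 1605632) (nat_lit 7323648)) (I.pos (nat_lit 140394496) (nat_lit 151207936)) (I.mix (nat_lit 38305792) (nat_lit 23642112)) (I.mix (nat_lit 34144256) (nat_lit 19578880)) (I.mix (nat_lit 4341760) (nat_lit 5242880)))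
  false (nat_lit 0)
def b4_5 : Bx := Bx.mk (St.mk (I.pos (nat_lit 21381120) (nat_lit 70713344)) (I.mix (nat_lit 6553600) (nat_lit 44072960)) (I.mix (nat_lit 19628032) (nat_lit 8421376)) (I.pos (nat_lit 143392768) (nat_lit 161529856)) (I.mix (nat_lit 31588352) (nat_lit 41713664)) (I.mix (nat_lit 37371904) (nat_lit 27213824)) (I.mix (nat_lit 19988480) (nat_lit 11894784)))
  false (nat_lit 0)
def b4_6 : Bx := Bx.mk (St.mk (I.pos (nat_lit 53231616) (nat_lit 102301696)) (I.mix (nat_lit 62046208) (nat_lit 6946816)) (I.neg (nat_lit 7536640) (nat_lit 50888704)) (I.pos (nat_lit 150568960) (nat_lit 184254464)) (I.mix (nat_lit 77791232) (nat_lit 30162944)) (I.mix (nat_lit 30146560) (nat_lit 64978944)) (I.mix (nat_lit 24231936) (nat_lit 38338560)))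
  false (nat_lit 0)
def b4_7 : Bx := Bx.mk (St.mk (I.neg (nat_lit 21381120) (nat_lit 70713344)) (I.mix (nat_lit 44072960) (nat_lit 6553600)) (I.mix (nat_lit 19628032) (nat_lit 8421376)) (I.pos (nat_lit 143392768) (nat_lit 161529856)) (I.mix (nat_lit 41713664) (nat_lit 31588352)) (I.mix (nat_lit 27230208) (nat_lit 37371904)) (I.mix (nat_lit 19988480) (nat_lit 11894784)))
  true (nat_lit 0)
def b4_8 : Bx := Bx.mk (St.mk (I.pos (nat_lit 128090112) (nat_lit 188628992)) (I.mix (nat_lit 37945344) (nat_lit 20561920)) (I.mix (nat_lit 26820608) (nat_lit 43761664)) (I.pos (nat_lit 204996608) (nat_lit 272433152)) (I.mix (nat_lit 48365568) (nat_lit 44908544)) (I.mix (nat_lit 45875200) (nat_lit 41680896)) (I.mix (nat_lit 44793856) (nat_lit 40353792)))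
  false (nat_lit 0)
def b4_9 : Bx := Bx.mk (St.mk (I.pos (nat_lit 193855488) (nat_lit 284622848)) (I.mix (nat_lit 19693568) (nat_lit 52035584)) (I.mix (nat_lit 76791808) (nat_lit 67354624)) (I.pos (nat_lit 296501248) (nat_lit 437796864)) (I.mix (nat_lit 74383360) (nat_lit 63668224)) (I.mix (nat_lit 58359808) (nat_lit 39452672)) (I.mix (nat_lit 99794944) (nat_lit 72056832)))
  false (nat_lit 141879718)
def b4_10 : Bx := Bx.mk (St.mk (I.pos (nat_lit 169525248) (nat_lit 221167616)) (I.pos (nat_lit 24018944) (nat_lit 66355200)) (I.pos (nat_lit 33390592) (nat_lit 95485952)) (I.pos (nat_lit 273891328) (nat_lit 323174400)) (I.mix (nat_lit 105938944) (nat_lit 77234176)) (I.mix (nat_lit 89636864) (nat_lit 61521920)) (I.mix (nat_lit 126566400) (nat_lit 78020608)))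
  false (nat_lit 95036610)
def b4_11 : Bx := Bx.mk (St.mk (I.pos (nat_lit 150388736) (nat_lit 192348160)) (I.mix (nat_lit 3686400) (nat_lit 44564480)) (I.pos (nat_lit 10600448) (nat_lit 74711040)) (I.pos (nat_lit 232652800) (nat_lit 280625152)) (I.mix (nat_lit 117096448) (nat_lit 55279616)) (I.mix (nat_lit 115212288) (nat_lit 53772288)) (I.mix (nat_lit 113147904) (nat_lit 53313536)))
  false (nat_lit 59387608)
def t4 : BTr := (BTr.n (BTr.n (BTr.n (BTr.b b4_0) (BTr.n (BTr.b b4_1) (BTr.b b4_2))) (BTr.n (BTr.b b4_3) (BTr.n (BTr.b b4_4) (BTr.b b4_5)))) (BTr.n (BTr.n (BTr.b b4_6) (BTr.n (BTr.b b4_7) (BTr.b b4_8))) (BTr.n (BTr.b b4_9) (BTr.n (BTr.b b4_10) (BTr.b b4_11)))))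
namespace T4
def l0 : Tr := Tr.L (Pth.l (Pth.l (Pth.l Pth.z)))
def l1 : Tr := Tr.L (Pth.l (Pth.l (Pth.r (Pth.l Pth.z))))
def l2 : Tr := Tr.L (Pth.l (Pth.l (Pth.r (Pth.r Pth.z))))
def l3 : Tr := Tr.L (Pth.l (Pth.r (Pth.l Pth.z)))
def l4 : Tr := Tr.L (Pth.l (Pth.r (Pth.r (Pth.l Pth.z))))
def l5 : Tr := Tr.L (Pth.l (Pth.r (Pth.r (Pth.r Pth.z))))
def l6 : Tr := Tr.L (Pth.r (Pth.l (Pth.l Pth.z)))
def l7 : Tr := Tr.L (Pth.r (Pth.l (Pth.r (Pth.l Pth.z))))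
def l8 : Tr := Tr.L (Pth.r (Pth.l (Pth.r (Pth.r Pth.z))))
def l9 : Tr := Tr.L (Pth.r (Pth.r (Pth.l Pth.z)))
def l10 : Tr := Tr.L (Pth.r (Pth.r (Pth.r (Pth.l Pth.z))))
def l11 : Tr := Tr.L (Pth.r (Pth.r (Pth.r (Pth.r Pth.z))))
end T4
def b5_0 : Bx := Bx.mk (St.mk (I.pos (nat_lit 152797184) (nat_lit 237502464)) (I.mix (nat_lit 1507328) (nat_lit 50102272)) (I.mix (nat_lit 3063808) (nat_lit 108806144)) (I.pos (nat_lit 111902720) (nat_lit 230375424)) (I.mix (nat_lit 123944960) (nat_lit 77185024)) (I.mix (nat_lit 99352576) (nat_lit 83165184)) (I.mix (nat_lit 140902400) (nat_lit 106020864)))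
  false (nat_lit 62980494)
def b5_1 : Bx := Bx.mk (St.mk (I.pos (nat_lit 117243904) (nat_lit 175374336)) (I.neg (nat_lit 8355840) (nat_lit 53608448)) (I.mix (nat_lit 40910848) (nat_lit 6504448)) (I.pos (nat_lit 87457792) (nat_lit 150683648)) (I.mix (nat_lit 62472192) (nat_lit 32768000)) (I.mix (nat_lit 30588928) (nat_lit 39976960)) (I.mix (nat_lit 27705344) (nat_lit 40173568)))
  false (nat_lit 75889106)
def b5_2 : Bx := Bx.mk (St.mk (I.mix (nat_lit 19890176) (nat_lit 102400000)) (I.mix (nat_lit 27639808) (nat_lit 1359872)) (I.mix (nat_lit 11190272) (nat_lit 9748480)) (I.pos (nat_lit 15237120) (nat_lit 74055680)) (I.mix (nat_lit 26542080) (nat_lit 29868032)) (I.mix (nat_lit 19218432) (nat_lit 23789568)) (I.mix (nat_lit 10027008) (nat_lit 14467072)))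
  false (nat_lit 0)
def b5_3 : Bx := Bx.mk (St.mk (I.pos (nat_lit 168050688) (nat_lit 212221952)) (I.mix (nat_lit 10616832) (nat_lit 47710208)) (I.pos (nat_lit 17285120) (nat_lit 98107392)) (I.pos (nat_lit 126156800) (nat_lit 195854336)) (I.mix (nat_lit 121962496) (nat_lit 41844736)) (I.mix (nat_lit 106938368) (nat_lit 57786368)) (I.mix (nat_lit 131121152) (nat_lit 53444608)))
  false (nat_lit 78963337)
def b5_4 : Bx := Bx.mk (St.mk (I.mix (nat_lit 23560192) (nat_lit 119586816)) (I.mix (nat_lit 9011200) (nat_lit 31719424)) (I.mix (nat_lit 589824) (nat_lit 34275328)) (I.pos (nat_lit 15695872) (nat_lit 88064000)) (I.mix (nat_lit 53788672) (nat_lit 22118400)) (I.mix (nat_lit 41598976) (nat_lit 26099712)) (I.mix (nat_lit 27934720) (nat_lit 15056896)))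
  false (nat_lit 0)
def b5_5 : Bx := Bx.mk (St.mk (I.pos (nat_lit 159940608) (nat_lit 207306752)) (I.mix (nat_lit 30769152) (nat_lit 8437760)) (I.mix (nat_lit 8404992) (nat_lit 45187072)) (I.pos (nat_lit 117800960) (nat_lit 189251584)) (I.mix (nat_lit 46792704) (nat_lit 51363840)) (I.mix (nat_lit 43974656) (nat_lit 44171264)) (I.mix (nat_lit 43106304) (nat_lit 44384256)))
  false (nat_lit 53143931)
def b5_6 : Bx := Bx.mk (St.mk (I.mix (nat_lit 24313856) (nat_lit 104284160)) (I.mix (nat_lit 14614528) (nat_lit 1949696)) (I.mix (nat_lit 2506752) (nat_lit 9732096)) (I.pos (nat_lit 16302080) (nat_lit 75268096)) (I.mix (nat_lit 7307264) (nat_lit 10108928)) (I.mix (nat_lit 5210112) (nat_lit 5472256)) (I.mix (nat_lit 3047424) (nat_lit 3555328)))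
  false (nat_lit 0)
def b5_7 : Bx := Bx.mk (St.mk (I.pos (nat_lit 156860416) (nat_lit 178651136)) (I.neg (nat_lit 14123008) (nat_lit 35733504)) (I.mix (nat_lit 18513920) (nat_lit 7127040)) (I.pos (nat_lit 117080064) (nat_lit 154976256)) (I.mix (nat_lit 24051712) (nat_lit 19693568)) (I.mix (nat_lit 13484032) (nat_lit 15532032)) (I.mix (nat_lit 12959744) (nat_lit 16416768)))
  false (nat_lit 0)
def b5_8 : Bx := Bx.mk (St.mk (I.mix (nat_lit 18825216) (nat_lit 131973120)) (I.mix (nat_lit 5668864) (nat_lit 27688960)) (I.mix (nat_lit 344064) (nat_lit 32636928)) (I.pos (nat_lit 14827520) (nat_lit 98861056)) (I.mix (nat_lit 48021504) (nat_lit 36519936)) (I.mix (nat_lit 38780928) (nat_lit 31604736)) (I.mix (nat_lit 29868032) (nat_lit 22708224)))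
  false (nat_lit 10101348)
def b5_9 : Bx := Bx.mk (St.mk (I.pos (nat_lit 108855296) (nat_lit 153812992)) (I.mix (nat_lit 50233344) (nat_lit 6422528)) (I.mix (nat_lit 37306368) (nat_lit 15171584)) (I.pos (nat_lit 65208320) (nat_lit 121274368)) (I.mix (nat_lit 71958528) (nat_lit 29704192)) (I.mix (nat_lit 35848192) (nat_lit 64487424)) (I.mix (nat_lit 28360704) (nat_lit 49594368)))
  false (nat_lit 70247301)
def b5_10 : Bx := Bx.mk (St.mk (I.pos (nat_lit 168853504) (nat_lit 207273984)) (I.mix (nat_lit 16859136) (nat_lit 24412160)) (I.pos (nat_lit 10829824) (nat_lit 67780608)) (I.pos (nat_lit 126730240) (nat_lit 187121664)) (I.mix (nat_lit 98222080) (nat_lit 43876352)) (I.mix (nat_lit 99975168) (nat_lit 39845888)) (I.mix (nat_lit 114933760) (nat_lit 38633472)))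
  false (nat_lit 81414371)
def b5_11 : Bx := Bx.mk (St.mk (I.mix (nat_lit 22134784) (nat_lit 95846400)) (I.mix (nat_lit 26492928) (nat_lit 3948544)) (I.mix (nat_lit 9912320) (nat_lit 10895360)) (I.pos (nat_lit 16252928) (nat_lit 68321280)) (I.mix (nat_lit 34029568) (nat_lit 26230784)) (I.mix (nat_lit 22806528) (nat_lit 28393472)) (I.mix (nat_lit 11059200) (nat_lit 13221888)))
  false (nat_lit 0)
def b5_12 : Bx := Bx.mk (St.mk (I.pos (nat_lit 187088896) (nat_lit 281378816)) (I.mix (nat_lit 15646720) (nat_lit 41549824)) (I.mix (nat_lit 6651904) (nat_lit 101138432)) (I.pos (nat_lit 175063040) (nat_lit 328990720)) (I.mix (nat_lit 80855040) (nat_lit 58785792)) (I.mix (nat_lit 64028672) (nat_lit 43384832)) (I.mix (nat_lit 100024320) (nat_lit 63733760)))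
  false (nat_lit 96741857)
def b5_13 : Bx := Bx.mk (St.mk (I.pos (nat_lit 175865856) (nat_lit 233750528)) (I.pos (nat_lit 13107200) (nat_lit 49250304)) (I.pos (nat_lit 42844160) (nat_lit 108986368)) (I.pos (nat_lit 163758080) (nat_lit 220200960)) (I.mix (nat_lit 103186432) (nat_lit 77004800)) (I.mix (nat_lit 96485376) (nat_lit 66912256)) (I.mix (nat_lit 140689408) (nat_lit 82509824)))
  false (nat_lit 86193017)
def t5 : BTr := (BTr.n (BTr.n (BTr.n (BTr.b b5_0) (BTr.n (BTr.b b5_1) (BTr.b b5_2))) (BTr.n (BTr.n (BTr.b b5_3) (BTr.b b5_4)) (BTr.n (BTr.b b5_5) (BTr.b b5_6)))) (BTr.n (BTr.n (BTr.b b5_7) (BTr.n (BTr.b b5_8) (BTr.b b5_9))) (BTr.n (BTr.n (BTr.b b5_10) (BTr.b b5_11)) (BTr.n (BTr.b b5_12) (BTr.b b5_13)))))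
namespace T5
def l0 : Tr := Tr.L (Pth.l (Pth.l (Pth.l Pth.z)))
def l1 : Tr := Tr.L (Pth.l (Pth.l (Pth.r (Pth.l Pth.z))))
def l2 : Tr := Tr.L (Pth.l (Pth.l (Pth.r (Pth.r Pth.z))))
def l3 : Tr := Tr.L (Pth.l (Pth.r (Pth.l (Pth.l Pth.z))))
def l4 : Tr := Tr.L (Pth.l (Pth.r (Pth.l (Pth.r Pth.z))))
def l5 : Tr := Tr.L (Pth.l (Pth.r (Pth.r (Pth.l Pth.z))))
def l6 : Tr := Tr.L (Pth.l (Pth.r (Pth.r (Pth.r Pth.z))))
def l7 : Tr := Tr.L (Pth.r (Pth.l (Pth.l Pth.z)))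
def l8 : Tr := Tr.L (Pth.r (Pth.l (Pth.r (Pth.l Pth.z))))
def l9 : Tr := Tr.L (Pth.r (Pth.l (Pth.r (Pth.r Pth.z))))
def l10 : Tr := Tr.L (Pth.r (Pth.r (Pth.l (Pth.l Pth.z))))
def l11 : Tr := Tr.L (Pth.r (Pth.r (Pth.l (Pth.r Pth.z))))
def l12 : Tr := Tr.L (Pth.r (Pth.r (Pth.r (Pth.l Pth.z))))
def l13 : Tr := Tr.L (Pth.r (Pth.r (Pth.r (Pth.r Pth.z))))
end T5
theorem bx0_0 : BoxOK sI cl5 cl9 cl13 t2 t4 b0_0 :=
  box_mk (TrL.c (I.pos (nat_lit 0) (nat_lit 0)) (xa (xb (xa T2.l0 T2.l0) (xa (xb T2.l0 T2.l0) T2.l0)) (xb T2.l0 (xa T2.l0 T2.l0)))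
  (TrL.c (I.pos (nat_lit 0) (nat_lit 0)) (xa T4.l1 (xb T4.l1 T4.l1))
  (TrL.c (I.pos (nat_lit 0) (nat_lit 0)) T2.l1
  (TrL.c (I.pos (nat_lit 0) (nat_lit 0)) T4.l2
  (TrL.c (I.pos (nat_lit 0) (nat_lit 0)) (xa (xb T4.l3 T4.l3) (xb T4.l3 (xa T4.l3 T4.l3)))
  (TrL.c (I.pos (nat_lit 0) (nat_lit 0)) (xa T2.l2 T2.l2)
  (TrL.c (I.pos (nat_lit 0) (nat_lit 0)) T4.l4
  (TrL.c (I.pos (nat_lit 0) (nat_lit 0)) T2.l3
  TrL.n)))))))) (by decide +kernel)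
theorem bx0_1 : BoxOK sI cl5 cl9 cl13 t2 t4 b0_1 :=
  box_mk (TrL.c (I.pos (nat_lit 0) (nat_lit 0)) (xa T2.l8 (xa T2.l8 T2.l8))
  (TrL.c (I.pos (nat_lit 0) (nat_lit 0)) T4.l1
  (TrL.c (I.pos (nat_lit 0) (nat_lit 0)) T2.l1
  (TrL.c (I.pos (nat_lit 0) (nat_lit 0)) T4.l2
  (TrL.c (I.pos (nat_lit 0) (nat_lit 0)) (xa T4.l8 T4.l8)
  (TrL.c (I.pos (nat_lit 0) (nat_lit 0)) T2.l2
  (TrL.c (I.pos (nat_lit 0) (nat_lit 0)) T4.l4
  (TrL.c (I.pos (nat_lit 0) (nat_lit 0)) T2.l3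
  TrL.n)))))))) (by decide +kernel)
theorem bx0_2 : BoxOK sI cl5 cl9 cl13 t2 t4 b0_2 :=
  box_mk (TrL.c (I.pos (nat_lit 0) (nat_lit 0)) T2.l8
  (TrL.c (I.pos (nat_lit 0) (nat_lit 0)) T4.l1
  (TrL.c (I.pos (nat_lit 0) (nat_lit 0)) T2.l1
  (TrL.c (I.pos (nat_lit 0) (nat_lit 0)) T4.l2
  (TrL.c (I.pos (nat_lit 0) (nat_lit 0)) T4.l8
  (TrL.c (I.pos (nat_lit 0) (nat_lit 0)) T2.l2
  (TrL.c (I.pos (nat_lit 0) (nat_lit 0)) T4.l4
  (TrL.c (I.pos (nat_lit 0) (nat_lit 0)) T2.l3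
  TrL.n)))))))) (by decide +kernel)
theorem bx0_3 : BoxOK sI cl5 cl9 cl13 t2 t4 b0_3 :=
  box_mk (TrL.c (I.pos (nat_lit 0) (nat_lit 0)) T2.l8
  (TrL.c (I.pos (nat_lit 0) (nat_lit 0)) T4.l1
  (TrL.c (I.pos (nat_lit 0) (nat_lit 0)) T2.l1
  (TrL.c (I.pos (nat_lit 0) (nat_lit 0)) T4.l2
  (TrL.c (I.pos (nat_lit 0) (nat_lit 0)) T4.l8
  (TrL.c (I.pos (nat_lit 0) (nat_lit 0)) T2.l2
  (TrL.c (I.pos (nat_lit 0) (nat_lit 0)) T4.l4
  (TrL.c (I.pos (nat_lit 0) (nat_lit 0)) T2.l3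
  TrL.n)))))))) (by decide +kernel)
theorem bx0_4 : BoxOK sI cl5 cl9 cl13 t2 t4 b0_4 :=
  box_mk (TrL.c (I.pos (nat_lit 0) (nat_lit 0)) (xa T2.l0 (xb T2.l0 T2.l0))
  (TrL.c (I.pos (nat_lit 0) (nat_lit 0)) (xa T4.l1 T4.l1)
  (TrL.c (I.pos (nat_lit 0) (nat_lit 0)) T2.l1
  (TrL.c (I.pos (nat_lit 0) (nat_lit 0)) T4.l2
  (TrL.c (I.pos (nat_lit 0) (nat_lit 0)) (xa T4.l3 (xb T4.l3 T4.l3))
  (TrL.c (I.pos (nat_lit 0) (nat_lit 0)) T2.l2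
  (TrL.c (I.pos (nat_lit 0) (nat_lit 0)) T4.l4
  (TrL.c (I.pos (nat_lit 0) (nat_lit 0)) T2.l3
  TrL.n)))))))) (by decide +kernel)
theorem bx0_5 : BoxOK sI cl5 cl9 cl13 t2 t4 b0_5 :=
  box_mk (TrL.c (I.pos (nat_lit 0) (nat_lit 0)) T2.l8
  (TrL.c (I.pos (nat_lit 0) (nat_lit 0)) T4.l1
  (TrL.c (I.pos (nat_lit 0) (nat_lit 0)) T2.l1
  (TrL.c (I.pos (nat_lit 0) (nat_lit 0)) T4.l2
  (TrL.c (I.pos (nat_lit 0) (nat_lit 0)) T4.l8
  (TrL.c (I.pos (nat_lit 0) (nat_lit 0)) T2.l2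
  (TrL.c (I.pos (nat_lit 0) (nat_lit 0)) T4.l4
  (TrL.c (I.pos (nat_lit 0) (nat_lit 0)) T2.l3
  TrL.n)))))))) (by decide +kernel)
theorem bx0_6 : BoxOK sI cl5 cl9 cl13 t2 t4 b0_6 :=
  box_mk (TrL.c (I.pos (nat_lit 0) (nat_lit 0)) T2.l8
  (TrL.c (I.pos (nat_lit 0) (nat_lit 0)) T4.l1
  (TrL.c (I.pos (nat_lit 0) (nat_lit 0)) T2.l1
  (TrL.c (I.pos (nat_lit 0) (nat_lit 0)) T4.l2
  (TrL.c (I.pos (nat_lit 0) (nat_lit 0)) T4.l8
  (TrL.c (I.pos (nat_lit 0) (nat_lit 0)) T2.l2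
  (TrL.c (I.pos (nat_lit 0) (nat_lit 0)) T4.l4
  (TrL.c (I.pos (nat_lit 0) (nat_lit 0)) T2.l3
  TrL.n)))))))) (by decide +kernel)
theorem bx0_7 : BoxOK sI cl5 cl9 cl13 t2 t4 b0_7 :=
  box_mk (TrL.c (I.pos (nat_lit 0) (nat_lit 0)) (xa T2.l8 T2.l0)
  (TrL.c (I.pos (nat_lit 0) (nat_lit 0)) T4.l1
  (TrL.c (I.pos (nat_lit 0) (nat_lit 0)) T2.l1
  (TrL.c (I.pos (nat_lit 0) (nat_lit 0)) T4.l2
  (TrL.c (I.pos (nat_lit 0) (nat_lit 0)) (xa T4.l8 T4.l8)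
  (TrL.c (I.pos (nat_lit 0) (nat_lit 0)) T2.l2
  (TrL.c (I.pos (nat_lit 0) (nat_lit 0)) T4.l4
  (TrL.c (I.pos (nat_lit 0) (nat_lit 0)) T2.l3
  TrL.n)))))))) (by decide +kernel)
theorem bx0_8 : BoxOK sI cl5 cl9 cl13 t2 t4 b0_8 :=
  box_mk (TrL.c (I.pos (nat_lit 0) (nat_lit 0)) (xa (xa T2.l8 T2.l8) T2.l8)
  (TrL.c (I.pos (nat_lit 0) (nat_lit 0)) (xa T4.l1 T4.l1)
  (TrL.c (I.pos (nat_lit 0) (nat_lit 0)) T2.l1
  (TrL.c (I.pos (nat_lit 0) (nat_lit 0)) T4.l2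
  (TrL.c (I.pos (nat_lit 0) (nat_lit 0)) (xa T4.l8 T4.l8)
  (TrL.c (I.pos (nat_lit 0) (nat_lit 0)) T2.l2
  (TrL.c (I.pos (nat_lit 0) (nat_lit 0)) T4.l4
  (TrL.c (I.pos (nat_lit 0) (nat_lit 0)) T2.l3
  TrL.n)))))))) (by decide +kernel)
theorem bx0_9 : BoxOK sI cl5 cl9 cl13 t2 t4 b0_9 :=
  box_mk (TrL.c (I.pos (nat_lit 0) (nat_lit 0)) (xb (xa T2.l11 T2.l11) (xa (xb T2.l11 T2.l11) (xb T2.l11 T2.l11)))
  (TrL.c (I.pos (nat_lit 0) (nat_lit 0)) (xb T4.l1 T4.l1)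
  (TrL.c (I.pos (nat_lit 0) (nat_lit 0)) T2.l1
  (TrL.c (I.pos (nat_lit 0) (nat_lit 0)) T4.l2
  (TrL.c (I.pos (nat_lit 0) (nat_lit 0)) (xb T4.l11 T4.l11)
  (TrL.c (I.pos (nat_lit 0) (nat_lit 0)) T2.l2
  (TrL.c (I.pos (nat_lit 0) (nat_lit 0)) T4.l4
  (TrL.c (I.pos (nat_lit 0) (nat_lit 0)) T2.l3
  TrL.n)))))))) (by decide +kernel)
theorem bx0_10 : BoxOK sI cl5 cl9 cl13 t2 t4 b0_10 :=
  box_mk (TrL.c (I.pos (nat_lit 0) (nat_lit 0)) (xa (xa (xb T2.l8 T2.l8) T2.l8) (xa T2.l8 (xb T2.l8 T2.l8)))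
  (TrL.c (I.pos (nat_lit 0) (nat_lit 0)) (xa T4.l1 T4.l1)
  (TrL.c (I.pos (nat_lit 0) (nat_lit 0)) T2.l1
  (TrL.c (I.pos (nat_lit 0) (nat_lit 0)) T4.l2
  (TrL.c (I.pos (nat_lit 0) (nat_lit 0)) (xa T4.l8 T4.l8)
  (TrL.c (I.pos (nat_lit 0) (nat_lit 0)) T2.l2
  (TrL.c (I.pos (nat_lit 0) (nat_lit 0)) T4.l4
  (TrL.c (I.pos (nat_lit 0) (nat_lit 0)) T2.l3
  TrL.n)))))))) (by decide +kernel)
theorem bx0_11 : BoxOK sI cl5 cl9 cl13 t2 t4 b0_11 :=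
  box_mk (TrL.c (I.pos (nat_lit 0) (nat_lit 0)) (xa (xb T2.l0 T2.l0) (xb T2.l0 T2.l0))
  (TrL.c (I.pos (nat_lit 0) (nat_lit 0)) T4.l1
  (TrL.c (I.pos (nat_lit 0) (nat_lit 0)) T2.l1
  (TrL.c (I.pos (nat_lit 0) (nat_lit 0)) T4.l2
  (TrL.c (I.pos (nat_lit 0) (nat_lit 0)) (xa T4.l3 T4.l3)
  (TrL.c (I.pos (nat_lit 0) (nat_lit 0)) T2.l2
  (TrL.c (I.pos (nat_lit 0) (nat_lit 0)) T4.l4
  (TrL.c (I.pos (nat_lit 0) (nat_lit 0)) T2.l3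
  TrL.n)))))))) (by decide +kernel)
theorem bx0_12 : BoxOK sI cl5 cl9 cl13 t2 t4 b0_12 :=
  box_mk (TrL.c (I.pos (nat_lit 0) (nat_lit 0)) (xa T2.l0 T2.l0)
  (TrL.c (I.pos (nat_lit 0) (nat_lit 0)) T4.l1
  (TrL.c (I.pos (nat_lit 0) (nat_lit 0)) T2.l1
  (TrL.c (I.pos (nat_lit 0) (nat_lit 0)) T4.l2
  (TrL.c (I.pos (nat_lit 0) (nat_lit 0)) (xa T4.l11 T4.l0)
  (TrL.c (I.pos (nat_lit 0) (nat_lit 0)) T2.l2
  (TrL.c (I.pos (nat_lit 0) (nat_lit 0)) T4.l4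
  (TrL.c (I.pos (nat_lit 0) (nat_lit 0)) T2.l3
  TrL.n)))))))) (by decide +kernel)
theorem bx0_13 : BoxOK sI cl5 cl9 cl13 t2 t4 b0_13 :=
  box_mk (TrL.c (I.pos (nat_lit 0) (nat_lit 0)) (xb T2.l11 T2.l11)
  (TrL.c (I.pos (nat_lit 0) (nat_lit 0)) T4.l1
  (TrL.c (I.pos (nat_lit 0) (nat_lit 0)) T2.l1
  (TrL.c (I.pos (nat_lit 0) (nat_lit 0)) T4.l2
  (TrL.c (I.pos (nat_lit 0) (nat_lit 0)) T4.l11
  (TrL.c (I.pos (nat_lit 0) (nat_lit 0)) T2.l2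
  (TrL.c (I.pos (nat_lit 0) (nat_lit 0)) T4.l4
  (TrL.c (I.pos (nat_lit 0) (nat_lit 0)) T2.l3
  TrL.n)))))))) (by decide +kernel)
theorem sv0 : StarV sI cl5 cl9 cl13 t2 t4 t0 :=
  (bt_n (bt_n (bt_n (bt_b bx0_0) (bt_n (bt_b bx0_1) (bt_b bx0_2))) (bt_n (bt_n (bt_b bx0_3) (bt_b bx0_4)) (bt_n (bt_b bx0_5) (bt_b bx0_6)))) (bt_n (bt_n (bt_b bx0_7) (bt_n (bt_b bx0_8) (bt_b bx0_9))) (bt_n (bt_n (bt_b bx0_10) (bt_b bx0_11)) (bt_n (bt_b bx0_12) (bt_b bx0_13)))))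
def S0 : StarD := StarD.mk cl5 cl9 cl13 2 4 t0
theorem bx1_0 : BoxOK sI cl5 cl13 cl9 t4 t2 b1_0 :=
  box_mk (TrL.c (I.pos (nat_lit 0) (nat_lit 0)) (xa (xb (xa T4.l0 T4.l0) (xa (xb T4.l0 T4.l0) T4.l0)) (xb (xa T4.l0 T4.l0) (xa T4.l0 T4.l0)))
  (TrL.c (I.pos (nat_lit 0) (nat_lit 0)) (xa T2.l4 (xb T2.l4 T2.l4))
  (TrL.c (I.pos (nat_lit 0) (nat_lit 0)) T4.l5
  (TrL.c (I.pos (nat_lit 0) (nat_lit 0)) T2.l5
  (TrL.c (I.pos (nat_lit 0) (nat_lit 0)) (xa (xb T2.l10 T2.l6) (xb (xa T2.l6 T2.l6) (xa T2.l6 T2.l6)))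
  (TrL.c (I.pos (nat_lit 0) (nat_lit 0)) (xa T4.l6 T4.l6)
  (TrL.c (I.pos (nat_lit 0) (nat_lit 0)) T2.l7
  (TrL.c (I.pos (nat_lit 0) (nat_lit 0)) T4.l7
  TrL.n)))))))) (by decide +kernel)
theorem bx1_1 : BoxOK sI cl5 cl13 cl9 t4 t2 b1_1 :=
  box_mk (TrL.c (I.pos (nat_lit 0) (nat_lit 0)) (xa T4.l9 (xa T4.l9 T4.l9))
  (TrL.c (I.pos (nat_lit 0) (nat_lit 0)) (xa T2.l4 T2.l4)
  (TrL.c (I.pos (nat_lit 0) (nat_lit 0)) T4.l5
  (TrL.c (I.pos (nat_lit 0) (nat_lit 0)) T2.l5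
  (TrL.c (I.pos (nat_lit 0) (nat_lit 0)) (xa T2.l9 T2.l9)
  (TrL.c (I.pos (nat_lit 0) (nat_lit 0)) T4.l6
  (TrL.c (I.pos (nat_lit 0) (nat_lit 0)) T2.l7
  (TrL.c (I.pos (nat_lit 0) (nat_lit 0)) T4.l7
  TrL.n)))))))) (by decide +kernel)
theorem bx1_2 : BoxOK sI cl5 cl13 cl9 t4 t2 b1_2 :=
  box_mk (TrL.c (I.pos (nat_lit 0) (nat_lit 0)) T4.l9
  (TrL.c (I.pos (nat_lit 0) (nat_lit 0)) T2.l4
  (TrL.c (I.pos (nat_lit 0) (nat_lit 0)) T4.l5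
  (TrL.c (I.pos (nat_lit 0) (nat_lit 0)) T2.l5
  (TrL.c (I.pos (nat_lit 0) (nat_lit 0)) T2.l9
  (TrL.c (I.pos (nat_lit 0) (nat_lit 0)) T4.l6
  (TrL.c (I.pos (nat_lit 0) (nat_lit 0)) T2.l7
  (TrL.c (I.pos (nat_lit 0) (nat_lit 0)) T4.l7
  TrL.n)))))))) (by decide +kernel)
theorem bx1_3 : BoxOK sI cl5 cl13 cl9 t4 t2 b1_3 :=
  box_mk (TrL.c (I.pos (nat_lit 0) (nat_lit 0)) T4.l9
  (TrL.c (I.pos (nat_lit 0) (nat_lit 0)) (xa T2.l4 T2.l4)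
  (TrL.c (I.pos (nat_lit 0) (nat_lit 0)) T4.l5
  (TrL.c (I.pos (nat_lit 0) (nat_lit 0)) T2.l5
  (TrL.c (I.pos (nat_lit 0) (nat_lit 0)) (xa T2.l9 T2.l9)
  (TrL.c (I.pos (nat_lit 0) (nat_lit 0)) T4.l6
  (TrL.c (I.pos (nat_lit 0) (nat_lit 0)) T2.l7
  (TrL.c (I.pos (nat_lit 0) (nat_lit 0)) T4.l7
  TrL.n)))))))) (by decide +kernel)
theorem bx1_4 : BoxOK sI cl5 cl13 cl9 t4 t2 b1_4 :=
  box_mk (TrL.c (I.pos (nat_lit 0) (nat_lit 0)) (xa T4.l0 (xb T4.l0 T4.l0))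
  (TrL.c (I.pos (nat_lit 0) (nat_lit 0)) (xa T2.l4 T2.l4)
  (TrL.c (I.pos (nat_lit 0) (nat_lit 0)) T4.l5
  (TrL.c (I.pos (nat_lit 0) (nat_lit 0)) T2.l5
  (TrL.c (I.pos (nat_lit 0) (nat_lit 0)) (xa T2.l6 (xb T2.l6 (xa T2.l6 T2.l6)))
  (TrL.c (I.pos (nat_lit 0) (nat_lit 0)) T4.l6
  (TrL.c (I.pos (nat_lit 0) (nat_lit 0)) T2.l7
  (TrL.c (I.pos (nat_lit 0) (nat_lit 0)) T4.l7
  TrL.n)))))))) (by decide +kernel)
theorem bx1_5 : BoxOK sI cl5 cl13 cl9 t4 t2 b1_5 :=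
  box_mk (TrL.c (I.pos (nat_lit 0) (nat_lit 0)) T4.l9
  (TrL.c (I.pos (nat_lit 0) (nat_lit 0)) T2.l4
  (TrL.c (I.pos (nat_lit 0) (nat_lit 0)) T4.l5
  (TrL.c (I.pos (nat_lit 0) (nat_lit 0)) T2.l5
  (TrL.c (I.pos (nat_lit 0) (nat_lit 0)) T2.l9
  (TrL.c (I.pos (nat_lit 0) (nat_lit 0)) T4.l6
  (TrL.c (I.pos (nat_lit 0) (nat_lit 0)) T2.l7
  (TrL.c (I.pos (nat_lit 0) (nat_lit 0)) T4.l7
  TrL.n)))))))) (by decide +kernel)
theorem bx1_6 : BoxOK sI cl5 cl13 cl9 t4 t2 b1_6 :=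
  box_mk (TrL.c (I.pos (nat_lit 0) (nat_lit 0)) T4.l9
  (TrL.c (I.pos (nat_lit 0) (nat_lit 0)) T2.l4
  (TrL.c (I.pos (nat_lit 0) (nat_lit 0)) T4.l5
  (TrL.c (I.pos (nat_lit 0) (nat_lit 0)) T2.l5
  (TrL.c (I.pos (nat_lit 0) (nat_lit 0)) T2.l9
  (TrL.c (I.pos (nat_lit 0) (nat_lit 0)) T4.l6
  (TrL.c (I.pos (nat_lit 0) (nat_lit 0)) T2.l7
  (TrL.c (I.pos (nat_lit 0) (nat_lit 0)) T4.l7
  TrL.n)))))))) (by decide +kernel)
theorem bx1_7 : BoxOK sI cl5 cl13 cl9 t4 t2 b1_7 :=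
  box_mk (TrL.c (I.pos (nat_lit 0) (nat_lit 0)) (xa T4.l9 T4.l0)
  (TrL.c (I.pos (nat_lit 0) (nat_lit 0)) T2.l4
  (TrL.c (I.pos (nat_lit 0) (nat_lit 0)) T4.l5
  (TrL.c (I.pos (nat_lit 0) (nat_lit 0)) T2.l5
  (TrL.c (I.pos (nat_lit 0) (nat_lit 0)) (xa T2.l9 T2.l9)
  (TrL.c (I.pos (nat_lit 0) (nat_lit 0)) T4.l6
  (TrL.c (I.pos (nat_lit 0) (nat_lit 0)) T2.l7
  (TrL.c (I.pos (nat_lit 0) (nat_lit 0)) T4.l7
  TrL.n)))))))) (by decide +kernel)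
theorem bx1_8 : BoxOK sI cl5 cl13 cl9 t4 t2 b1_8 :=
  box_mk (TrL.c (I.pos (nat_lit 0) (nat_lit 0)) (xa (xa T4.l9 T4.l9) T4.l9)
  (TrL.c (I.pos (nat_lit 0) (nat_lit 0)) (xa T2.l4 T2.l4)
  (TrL.c (I.pos (nat_lit 0) (nat_lit 0)) T4.l5
  (TrL.c (I.pos (nat_lit 0) (nat_lit 0)) T2.l5
  (TrL.c (I.pos (nat_lit 0) (nat_lit 0)) (xa T2.l9 T2.l9)
  (TrL.c (I.pos (nat_lit 0) (nat_lit 0)) T4.l6
  (TrL.c (I.pos (nat_lit 0) (nat_lit 0)) T2.l7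
  (TrL.c (I.pos (nat_lit 0) (nat_lit 0)) T4.l7
  TrL.n)))))))) (by decide +kernel)
theorem bx1_9 : BoxOK sI cl5 cl13 cl9 t4 t2 b1_9 :=
  box_mk (TrL.c (I.pos (nat_lit 0) (nat_lit 0)) (xb (xa T4.l10 T4.l10) (xa T4.l10 T4.l10))
  (TrL.c (I.pos (nat_lit 0) (nat_lit 0)) (xb T2.l4 T2.l4)
  (TrL.c (I.pos (nat_lit 0) (nat_lit 0)) T4.l5
  (TrL.c (I.pos (nat_lit 0) (nat_lit 0)) T2.l5
  (TrL.c (I.pos (nat_lit 0) (nat_lit 0)) (xb T2.l10 T2.l10)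
  (TrL.c (I.pos (nat_lit 0) (nat_lit 0)) T4.l6
  (TrL.c (I.pos (nat_lit 0) (nat_lit 0)) T2.l7
  (TrL.c (I.pos (nat_lit 0) (nat_lit 0)) T4.l7
  TrL.n)))))))) (by decide +kernel)
theorem bx1_10 : BoxOK sI cl5 cl13 cl9 t4 t2 b1_10 :=
  box_mk (TrL.c (I.pos (nat_lit 0) (nat_lit 0)) (xa (xa (xb T4.l9 T4.l9) T4.l9) (xa T4.l9 (xb T4.l9 T4.l9)))
  (TrL.c (I.pos (nat_lit 0) (nat_lit 0)) (xa T2.l4 T2.l4)
  (TrL.c (I.pos (nat_lit 0) (nat_lit 0)) T4.l5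
  (TrL.c (I.pos (nat_lit 0) (nat_lit 0)) T2.l5
  (TrL.c (I.pos (nat_lit 0) (nat_lit 0)) (xa T2.l9 T2.l9)
  (TrL.c (I.pos (nat_lit 0) (nat_lit 0)) T4.l6
  (TrL.c (I.pos (nat_lit 0) (nat_lit 0)) T2.l7
  (TrL.c (I.pos (nat_lit 0) (nat_lit 0)) T4.l7
  TrL.n)))))))) (by decide +kernel)
theorem bx1_11 : BoxOK sI cl5 cl13 cl9 t4 t2 b1_11 :=
  box_mk (TrL.c (I.pos (nat_lit 0) (nat_lit 0)) (xa T4.l0 T4.l0)
  (TrL.c (I.pos (nat_lit 0) (nat_lit 0)) T2.l4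
  (TrL.c (I.pos (nat_lit 0) (nat_lit 0)) T4.l5
  (TrL.c (I.pos (nat_lit 0) (nat_lit 0)) T2.l5
  (TrL.c (I.pos (nat_lit 0) (nat_lit 0)) (xa T2.l10 T2.l0)
  (TrL.c (I.pos (nat_lit 0) (nat_lit 0)) T4.l6
  (TrL.c (I.pos (nat_lit 0) (nat_lit 0)) T2.l7
  (TrL.c (I.pos (nat_lit 0) (nat_lit 0)) T4.l7
  TrL.n)))))))) (by decide +kernel)
theorem bx1_12 : BoxOK sI cl5 cl13 cl9 t4 t2 b1_12 :=
  box_mk (TrL.c (I.pos (nat_lit 0) (nat_lit 0)) T4.l10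
  (TrL.c (I.pos (nat_lit 0) (nat_lit 0)) T2.l4
  (TrL.c (I.pos (nat_lit 0) (nat_lit 0)) T4.l5
  (TrL.c (I.pos (nat_lit 0) (nat_lit 0)) T2.l5
  (TrL.c (I.pos (nat_lit 0) (nat_lit 0)) T2.l10
  (TrL.c (I.pos (nat_lit 0) (nat_lit 0)) T4.l6
  (TrL.c (I.pos (nat_lit 0) (nat_lit 0)) T2.l7
  (TrL.c (I.pos (nat_lit 0) (nat_lit 0)) T4.l7
  TrL.n)))))))) (by decide +kernel)
theorem bx1_13 : BoxOK sI cl5 cl13 cl9 t4 t2 b1_13 :=
  box_mk (TrL.c (I.pos (nat_lit 0) (nat_lit 0)) (xa (xb T4.l0 T4.l0) (xb T4.l0 T4.l0))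
  (TrL.c (I.pos (nat_lit 0) (nat_lit 0)) (xa T2.l4 T2.l4)
  (TrL.c (I.pos (nat_lit 0) (nat_lit 0)) T4.l5
  (TrL.c (I.pos (nat_lit 0) (nat_lit 0)) T2.l5
  (TrL.c (I.pos (nat_lit 0) (nat_lit 0)) (xa T2.l6 (xb T2.l6 T2.l6))
  (TrL.c (I.pos (nat_lit 0) (nat_lit 0)) T4.l6
  (TrL.c (I.pos (nat_lit 0) (nat_lit 0)) T2.l7
  (TrL.c (I.pos (nat_lit 0) (nat_lit 0)) T4.l7
  TrL.n)))))))) (by decide +kernel)
theorem sv1 : StarV sI cl5 cl13 cl9 t4 t2 t1 :=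
  (bt_n (bt_n (bt_n (bt_b bx1_0) (bt_n (bt_b bx1_1) (bt_b bx1_2))) (bt_n (bt_n (bt_b bx1_3) (bt_b bx1_4)) (bt_n (bt_b bx1_5) (bt_b bx1_6)))) (bt_n (bt_n (bt_b bx1_7) (bt_n (bt_b bx1_8) (bt_b bx1_9))) (bt_n (bt_n (bt_b bx1_10) (bt_b bx1_11)) (bt_n (bt_b bx1_12) (bt_b bx1_13)))))
def S1 : StarD := StarD.mk cl5 cl13 cl9 4 2 t1
theorem bx2_0 : BoxOK sI cl9 cl5 cl13 t0 t5 b2_0 :=
  box_mk (TrL.c (I.pos (nat_lit 0) (nat_lit 0)) (xa (xb T0.l0 (xa T0.l0 T0.l0)) (xb T0.l0 T0.l0))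
  (TrL.c (I.pos (nat_lit 0) (nat_lit 0)) (xa (xb T5.l1 T5.l1) (xb T5.l1 T5.l1))
  (TrL.c (I.pos (nat_lit 0) (nat_lit 124588530)) (xR T0.l1 T0.l10)
  (TrL.c (I.pos (nat_lit 0) (nat_lit 96881482)) T5.l2
  (TrL.c (I.pos (nat_lit 0) (nat_lit 0)) (xa (xk T5.l3 T5.l3) (xk (xb T5.l3 T5.l3) (xb T5.l3 T5.l3)))
  (TrL.c (I.pos (nat_lit 0) (nat_lit 0)) T0.l2
  (TrL.c (I.mix (nat_lit 17240550) (nat_lit 96881482)) (xR T5.l4 T5.l4)
  (TrL.c (I.mix (nat_lit 17240550) (nat_lit 71940500)) T0.l8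
  TrL.n)))))))) (by decide +kernel)
theorem bx2_1 : BoxOK sI cl9 cl5 cl13 t0 t5 b2_1 :=
  box_mk (TrL.c (I.pos (nat_lit 0) (nat_lit 0)) T0.l4
  (TrL.c (I.pos (nat_lit 0) (nat_lit 0)) T5.l1
  (TrL.c (I.pos (nat_lit 0) (nat_lit 124588530)) T0.l1
  (TrL.c (I.pos (nat_lit 0) (nat_lit 96881482)) T5.l2
  (TrL.c (I.pos (nat_lit 0) (nat_lit 0)) T5.l5
  (TrL.c (I.pos (nat_lit 0) (nat_lit 0)) T0.l2
  (TrL.c (I.mix (nat_lit 17240550) (nat_lit 96881482)) T5.l4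
  (TrL.c (I.mix (nat_lit 17240550) (nat_lit 71940500)) T0.l3
  TrL.n)))))))) (by decide +kernel)
theorem bx2_2 : BoxOK sI cl9 cl5 cl13 t0 t5 b2_2 :=
  box_mk (TrL.c (I.pos (nat_lit 0) (nat_lit 0)) T0.l4
  (TrL.c (I.pos (nat_lit 0) (nat_lit 0)) T5.l1
  (TrL.c (I.pos (nat_lit 0) (nat_lit 124588530)) T0.l1
  (TrL.c (I.pos (nat_lit 0) (nat_lit 96881482)) T5.l2
  (TrL.c (I.pos (nat_lit 0) (nat_lit 0)) T5.l5
  (TrL.c (I.pos (nat_lit 0) (nat_lit 0)) T0.l2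
  (TrL.c (I.mix (nat_lit 17240550) (nat_lit 96881482)) T5.l4
  (TrL.c (I.mix (nat_lit 17240550) (nat_lit 71940500)) T0.l3
  TrL.n)))))))) (by decide +kernel)
theorem bx2_3 : BoxOK sI cl9 cl5 cl13 t0 t5 b2_3 :=
  box_mk (TrL.c (I.pos (nat_lit 0) (nat_lit 0)) T5.l1
  (TrL.c (I.pos (nat_lit 0) (nat_lit 0)) T0.l1
  (TrL.c (I.mix (nat_lit 17240550) (nat_lit 96881482)) (xR T5.l6 T5.l2)
  (TrL.c (I.mix (nat_lit 17240550) (nat_lit 71940500)) T0.l10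
  TrL.n)))) (by decide +kernel)
theorem bx2_4 : BoxOK sI cl9 cl5 cl13 t0 t5 b2_4 :=
  box_mk (TrL.c (I.pos (nat_lit 0) (nat_lit 0)) (xa T0.l4 T0.l4)
  (TrL.c (I.pos (nat_lit 0) (nat_lit 0)) T5.l1
  (TrL.c (I.pos (nat_lit 0) (nat_lit 124588530)) (xR T0.l1 T0.l1)
  (TrL.c (I.pos (nat_lit 0) (nat_lit 96881482)) T5.l2
  (TrL.c (I.pos (nat_lit 0) (nat_lit 0)) (xk T5.l5 T5.l5)
  (TrL.c (I.pos (nat_lit 0) (nat_lit 0)) T0.l2
  (TrL.c (I.mix (nat_lit 17240550) (nat_lit 96881482)) T5.l4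
  (TrL.c (I.mix (nat_lit 17240550) (nat_lit 71940500)) T0.l3
  TrL.n)))))))) (by decide +kernel)
theorem bx2_5 : BoxOK sI cl9 cl5 cl13 t0 t5 b2_5 :=
  box_mk (TrL.c (I.pos (nat_lit 0) (nat_lit 0)) T5.l7
  (TrL.c (I.pos (nat_lit 0) (nat_lit 0)) T0.l1
  (TrL.c (I.mix (nat_lit 17240550) (nat_lit 96881482)) (xR T5.l6 T5.l2)
  (TrL.c (I.mix (nat_lit 17240550) (nat_lit 71940500)) T0.l8
  TrL.n)))) (by decide +kernel)
theorem bx2_6 : BoxOK sI cl9 cl5 cl13 t0 t5 b2_6 :=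
  box_mk (TrL.c (I.pos (nat_lit 0) (nat_lit 0)) (xa T0.l11 T0.l11)
  (TrL.c (I.pos (nat_lit 0) (nat_lit 0)) (xk T5.l1 T5.l1)
  (TrL.c (I.pos (nat_lit 0) (nat_lit 124588530)) (xR T0.l1 T0.l10)
  (TrL.c (I.pos (nat_lit 0) (nat_lit 96881482)) T5.l2
  (TrL.c (I.pos (nat_lit 0) (nat_lit 0)) (xk T5.l10 T5.l10)
  (TrL.c (I.pos (nat_lit 0) (nat_lit 0)) T0.l2
  (TrL.c (I.mix (nat_lit 17240550) (nat_lit 96881482)) (xR T5.l4 T5.l4)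
  (TrL.c (I.mix (nat_lit 17240550) (nat_lit 71940500)) T0.l8
  TrL.n)))))))) (by decide +kernel)
theorem bx2_7 : BoxOK sI cl9 cl5 cl13 t0 t5 b2_7 :=
  box_mk (TrL.c (I.pos (nat_lit 0) (nat_lit 0)) T0.l4
  (TrL.c (I.pos (nat_lit 0) (nat_lit 0)) T5.l7
  (TrL.c (I.pos (nat_lit 0) (nat_lit 124588530)) T0.l1
  (TrL.c (I.pos (nat_lit 0) (nat_lit 96881482)) T5.l2
  (TrL.c (I.pos (nat_lit 0) (nat_lit 0)) T5.l5
  (TrL.c (I.pos (nat_lit 0) (nat_lit 0)) T0.l2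
  (TrL.c (I.mix (nat_lit 17240550) (nat_lit 96881482)) T5.l4
  (TrL.c (I.mix (nat_lit 17240550) (nat_lit 71940500)) T0.l3
  TrL.n)))))))) (by decide +kernel)
theorem bx2_8 : BoxOK sI cl9 cl5 cl13 t0 t5 b2_8 :=
  box_mk (TrL.c (I.pos (nat_lit 0) (nat_lit 0)) (xa (xb T0.l0 (xa T0.l0 T0.l0)) (xb T0.l0 (xa T0.l0 T0.l0)))
  (TrL.c (I.pos (nat_lit 0) (nat_lit 0)) (xa (xb T5.l1 T5.l1) (xk T5.l9 T5.l9))
  (TrL.c (I.pos (nat_lit 0) (nat_lit 124588530)) (xR T0.l10 T0.l10)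
  (TrL.c (I.pos (nat_lit 0) (nat_lit 96881482)) (xR T5.l2 T5.l2)
  (TrL.c (I.pos (nat_lit 0) (nat_lit 0)) (xa (xb (xk (xa T5.l3 T5.l0) (xa T5.l3 T5.l3)) (xk T5.l3 T5.l3)) (xb (xk (xa T5.l0 (xb T5.l0 T5.l3)) (xa T5.l0 (xb T5.l0 T5.l3))) (xk (xa T5.l3 (xb T5.l3 (xk T5.l3 T5.l3))) (xa T5.l3 (xb T5.l3 T5.l3)))))
  (TrL.c (I.pos (nat_lit 0) (nat_lit 0)) (xk (xb T0.l2 T0.l2) (xb T0.l2 T0.l2))
  (TrL.c (I.mix (nat_lit 17240550) (nat_lit 96881482)) (xR T5.l4 (xR T5.l4 T5.l4))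
  (TrL.c (I.mix (nat_lit 17240550) (nat_lit 71940500)) T0.l8
  TrL.n)))))))) (by decide +kernel)
theorem bx2_9 : BoxOK sI cl9 cl5 cl13 t0 t5 b2_9 :=
  box_mk (TrL.c (I.pos (nat_lit 0) (nat_lit 0)) (xa T0.l11 T0.l11)
  (TrL.c (I.pos (nat_lit 0) (nat_lit 0)) T5.l1
  (TrL.c (I.pos (nat_lit 0) (nat_lit 124588530)) (xR T0.l1 T0.l1)
  (TrL.c (I.pos (nat_lit 0) (nat_lit 96881482)) T5.l2
  (TrL.c (I.pos (nat_lit 0) (nat_lit 0)) (xk (xb T5.l10 T5.l10) (xb T5.l10 T5.l10))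
  (TrL.c (I.pos (nat_lit 0) (nat_lit 0)) T0.l2
  (TrL.c (I.mix (nat_lit 17240550) (nat_lit 96881482)) T5.l4
  (TrL.c (I.mix (nat_lit 17240550) (nat_lit 71940500)) T0.l3
  TrL.n)))))))) (by decide +kernel)
theorem bx2_10 : BoxOK sI cl9 cl5 cl13 t0 t5 b2_10 :=
  box_mk (TrL.c (I.pos (nat_lit 0) (nat_lit 0)) T0.l11
  (TrL.c (I.pos (nat_lit 0) (nat_lit 0)) T5.l1
  (TrL.c (I.pos (nat_lit 0) (nat_lit 124588530)) (xR T0.l1 T0.l10)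
  (TrL.c (I.pos (nat_lit 0) (nat_lit 96881482)) T5.l2
  (TrL.c (I.pos (nat_lit 0) (nat_lit 0)) (xk T5.l10 T5.l10)
  (TrL.c (I.pos (nat_lit 0) (nat_lit 0)) T0.l2
  (TrL.c (I.mix (nat_lit 17240550) (nat_lit 96881482)) (xR T5.l4 T5.l4)
  (TrL.c (I.mix (nat_lit 17240550) (nat_lit 71940500)) T0.l3
  TrL.n)))))))) (by decide +kernel)
theorem bx2_11 : BoxOK sI cl9 cl5 cl13 t0 t5 b2_11 :=
  box_mk (TrL.c (I.pos (nat_lit 0) (nat_lit 0)) (xa T0.l0 T0.l0)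
  (TrL.c (I.pos (nat_lit 0) (nat_lit 0)) T5.l1
  (TrL.c (I.pos (nat_lit 0) (nat_lit 124588530)) (xR T0.l1 T0.l10)
  (TrL.c (I.pos (nat_lit 0) (nat_lit 96881482)) T5.l2
  (TrL.c (I.pos (nat_lit 0) (nat_lit 0)) (xk T5.l3 T5.l3)
  (TrL.c (I.pos (nat_lit 0) (nat_lit 0)) T0.l2
  (TrL.c (I.mix (nat_lit 17240550) (nat_lit 96881482)) (xR T5.l4 T5.l4)
  (TrL.c (I.mix (nat_lit 17240550) (nat_lit 71940500)) T0.l8
  TrL.n)))))))) (by decide +kernel)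
theorem sv2 : StarV sI cl9 cl5 cl13 t0 t5 t2 :=
  (bt_n (bt_n (bt_n (bt_b bx2_0) (bt_n (bt_b bx2_1) (bt_b bx2_2))) (bt_n (bt_b bx2_3) (bt_n (bt_b bx2_4) (bt_b bx2_5)))) (bt_n (bt_n (bt_b bx2_6) (bt_n (bt_b bx2_7) (bt_b bx2_8))) (bt_n (bt_b bx2_9) (bt_n (bt_b bx2_10) (bt_b bx2_11)))))
def S2 : StarD := StarD.mk cl9 cl5 cl13 0 5 t2
theorem bx3_0 : BoxOK sI cl9 cl13 cl5 t5 t0 b3_0 :=
  box_mk (TrL.c (I.pos (nat_lit 0) (nat_lit 0)) (xa (xa (xb (xb T5.l0 T5.l0) (xb T5.l0 T5.l0)) (xb (xb T5.l0 T5.l0) (xb T5.l0 (xs T5.l0 T5.l0)))) (xa (xb (xb T5.l0 (xs T5.l0 T5.l0)) (xb (xs T5.l0 (xa T5.l0 T5.l0)) (xs T5.l0 (xa T5.l0 T5.l0)))) (xb (xb (xs T5.l0 T5.l0) (xs T5.l0 (xa T5.l0 T5.l0))) (xb (xs T5.l0 (xa (xb T5.l0 T5.l0) (xb T5.l0 T5.l0))) (xs T5.l0 (xa T5.l0 (xb T5.l0 T5.l0)))))))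
  (TrL.c (I.pos (nat_lit 0) (nat_lit 0)) (xa (xk (xb T0.l7 T0.l7) (xb T0.l7 T0.l7)) (xk (xa T0.l7 T0.l7) (xb T0.l7 T0.l7)))
  (TrL.c (I.pos (nat_lit 0) (nat_lit 124588530)) (xR T5.l8 T5.l8)
  (TrL.c (I.pos (nat_lit 0) (nat_lit 96881482)) (xR T0.l8 T0.l8)
  (TrL.c (I.pos (nat_lit 0) (nat_lit 0)) (xa (xk (xb T0.l9 T0.l9) (xb T0.l9 T0.l9)) (xk (xb (xa T0.l9 T0.l9) (xa T0.l9 T0.l9)) (xb (xa T0.l9 T0.l9) (xa T0.l9 T0.l9))))
  (TrL.c (I.pos (nat_lit 0) (nat_lit 0)) (xk T5.l9 T5.l9)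
  (TrL.c (I.mix (nat_lit 17240550) (nat_lit 96881482)) (xR T0.l10 T0.l10)
  (TrL.c (I.mix (nat_lit 17240550) (nat_lit 71940500)) T5.l11
  TrL.n)))))))) (by decide +kernel)
theorem bx3_1 : BoxOK sI cl9 cl13 cl5 t5 t0 b3_1 :=
  box_mk (TrL.c (I.pos (nat_lit 0) (nat_lit 0)) T5.l12
  (TrL.c (I.pos (nat_lit 0) (nat_lit 0)) (xa T0.l7 T0.l7)
  (TrL.c (I.pos (nat_lit 0) (nat_lit 124588530)) (xR T5.l8 T5.l8)
  (TrL.c (I.pos (nat_lit 0) (nat_lit 96881482)) T0.l8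
  (TrL.c (I.pos (nat_lit 0) (nat_lit 0)) (xk (xa T0.l12 T0.l12) (xa T0.l12 T0.l12))
  (TrL.c (I.pos (nat_lit 0) (nat_lit 0)) T5.l9
  (TrL.c (I.mix (nat_lit 17240550) (nat_lit 96881482)) (xR T0.l10 T0.l10)
  (TrL.c (I.mix (nat_lit 17240550) (nat_lit 71940500)) T5.l11
  TrL.n)))))))) (by decide +kernel)
theorem bx3_2 : BoxOK sI cl9 cl13 cl5 t5 t0 b3_2 :=
  box_mk (TrL.c (I.pos (nat_lit 0) (nat_lit 0)) (xa (xa T5.l12 T5.l12) T5.l12)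
  (TrL.c (I.pos (nat_lit 0) (nat_lit 0)) (xa T0.l7 T0.l7)
  (TrL.c (I.pos (nat_lit 0) (nat_lit 124588530)) T5.l8
  (TrL.c (I.pos (nat_lit 0) (nat_lit 96881482)) T0.l8
  (TrL.c (I.pos (nat_lit 0) (nat_lit 0)) (xa T0.l12 T0.l12)
  (TrL.c (I.pos (nat_lit 0) (nat_lit 0)) T5.l9
  (TrL.c (I.mix (nat_lit 17240550) (nat_lit 96881482)) T0.l10
  (TrL.c (I.mix (nat_lit 17240550) (nat_lit 71940500)) T5.l11
  TrL.n)))))))) (by decide +kernel)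
theorem bx3_3 : BoxOK sI cl9 cl13 cl5 t5 t0 b3_3 :=
  box_mk (TrL.c (I.pos (nat_lit 0) (nat_lit 0)) (xb T5.l0 T5.l13)
  (TrL.c (I.pos (nat_lit 0) (nat_lit 0)) (xk (xb T0.l7 T0.l7) (xb T0.l7 T0.l7))
  (TrL.c (I.pos (nat_lit 0) (nat_lit 124588530)) (xR T5.l8 T5.l8)
  (TrL.c (I.pos (nat_lit 0) (nat_lit 96881482)) T0.l8
  (TrL.c (I.pos (nat_lit 0) (nat_lit 0)) (xk (xb T0.l9 T0.l9) (xb T0.l9 T0.l9))
  (TrL.c (I.pos (nat_lit 0) (nat_lit 0)) T5.l9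
  (TrL.c (I.mix (nat_lit 17240550) (nat_lit 96881482)) (xR T0.l10 T0.l10)
  (TrL.c (I.mix (nat_lit 17240550) (nat_lit 71940500)) T5.l11
  TrL.n)))))))) (by decide +kernel)
theorem bx3_4 : BoxOK sI cl9 cl13 cl5 t5 t0 b3_4 :=
  box_mk (TrL.c (I.pos (nat_lit 0) (nat_lit 0)) (xa (xa (xb T5.l12 T5.l12) T5.l12) (xa T5.l12 T5.l12))
  (TrL.c (I.pos (nat_lit 0) (nat_lit 0)) (xa (xa T0.l7 T0.l7) (xa T0.l7 T0.l7))
  (TrL.c (I.pos (nat_lit 0) (nat_lit 124588530)) (xR T5.l8 T5.l8)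
  (TrL.c (I.pos (nat_lit 0) (nat_lit 96881482)) T0.l8
  (TrL.c (I.pos (nat_lit 0) (nat_lit 0)) (xa T0.l12 T0.l12)
  (TrL.c (I.pos (nat_lit 0) (nat_lit 0)) T5.l9
  (TrL.c (I.mix (nat_lit 17240550) (nat_lit 96881482)) (xR T0.l10 T0.l10)
  (TrL.c (I.mix (nat_lit 17240550) (nat_lit 71940500)) T5.l11
  TrL.n)))))))) (by decide +kernel)
theorem bx3_5 : BoxOK sI cl9 cl13 cl5 t5 t0 b3_5 :=
  box_mk (TrL.c (I.pos (nat_lit 0) (nat_lit 0)) T5.l0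
  (TrL.c (I.pos (nat_lit 0) (nat_lit 0)) T0.l7
  (TrL.c (I.pos (nat_lit 0) (nat_lit 124588530)) (xR T5.l8 T5.l8)
  (TrL.c (I.pos (nat_lit 0) (nat_lit 96881482)) T0.l8
  (TrL.c (I.pos (nat_lit 0) (nat_lit 0)) (xk (xa T0.l13 T0.l9) (xa T0.l13 T0.l9))
  (TrL.c (I.pos (nat_lit 0) (nat_lit 0)) T5.l9
  (TrL.c (I.mix (nat_lit 17240550) (nat_lit 96881482)) (xR T0.l10 T0.l10)
  (TrL.c (I.mix (nat_lit 17240550) (nat_lit 71940500)) T5.l11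
  TrL.n)))))))) (by decide +kernel)
theorem bx3_6 : BoxOK sI cl9 cl13 cl5 t5 t0 b3_6 :=
  box_mk (TrL.c (I.pos (nat_lit 0) (nat_lit 0)) T5.l12
  (TrL.c (I.pos (nat_lit 0) (nat_lit 0)) T0.l7
  (TrL.c (I.pos (nat_lit 0) (nat_lit 124588530)) (xR T5.l8 T5.l8)
  (TrL.c (I.pos (nat_lit 0) (nat_lit 96881482)) T0.l8
  (TrL.c (I.pos (nat_lit 0) (nat_lit 0)) T0.l12
  (TrL.c (I.pos (nat_lit 0) (nat_lit 0)) T5.l9
  (TrL.c (I.mix (nat_lit 17240550) (nat_lit 96881482)) (xR T0.l10 T0.l10)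
  (TrL.c (I.mix (nat_lit 17240550) (nat_lit 71940500)) T5.l11
  TrL.n)))))))) (by decide +kernel)
theorem bx3_7 : BoxOK sI cl9 cl13 cl5 t5 t0 b3_7 :=
  box_mk (TrL.c (I.pos (nat_lit 0) (nat_lit 0)) (xa T5.l12 T5.l12)
  (TrL.c (I.pos (nat_lit 0) (nat_lit 0)) (xa T0.l7 T0.l7)
  (TrL.c (I.pos (nat_lit 0) (nat_lit 124588530)) T5.l8
  (TrL.c (I.pos (nat_lit 0) (nat_lit 96881482)) T0.l8
  (TrL.c (I.pos (nat_lit 0) (nat_lit 0)) (xa T0.l12 T0.l12)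
  (TrL.c (I.pos (nat_lit 0) (nat_lit 0)) T5.l9
  (TrL.c (I.mix (nat_lit 17240550) (nat_lit 96881482)) T0.l10
  (TrL.c (I.mix (nat_lit 17240550) (nat_lit 71940500)) T5.l11
  TrL.n)))))))) (by decide +kernel)
theorem bx3_8 : BoxOK sI cl9 cl13 cl5 t5 t0 b3_8 :=
  box_mk (TrL.c (I.pos (nat_lit 0) (nat_lit 0)) (xa (xa T5.l12 T5.l12) T5.l12)
  (TrL.c (I.pos (nat_lit 0) (nat_lit 0)) (xa T0.l7 T0.l7)
  (TrL.c (I.pos (nat_lit 0) (nat_lit 124588530)) (xR T5.l8 T5.l8)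
  (TrL.c (I.pos (nat_lit 0) (nat_lit 96881482)) T0.l8
  (TrL.c (I.pos (nat_lit 0) (nat_lit 0)) (xa T0.l12 T0.l12)
  (TrL.c (I.pos (nat_lit 0) (nat_lit 0)) T5.l9
  (TrL.c (I.mix (nat_lit 17240550) (nat_lit 96881482)) T0.l10
  (TrL.c (I.mix (nat_lit 17240550) (nat_lit 71940500)) T5.l11
  TrL.n)))))))) (by decide +kernel)
theorem bx3_9 : BoxOK sI cl9 cl13 cl5 t5 t0 b3_9 :=
  box_mk (TrL.c (I.pos (nat_lit 0) (nat_lit 0)) T5.l12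
  (TrL.c (I.pos (nat_lit 0) (nat_lit 0)) (xb T0.l7 T0.l7)
  (TrL.c (I.pos (nat_lit 0) (nat_lit 124588530)) (xR T5.l8 T5.l8)
  (TrL.c (I.pos (nat_lit 0) (nat_lit 96881482)) T0.l8
  (TrL.c (I.pos (nat_lit 0) (nat_lit 0)) (xb (xk T0.l12 T0.l12) T0.l12)
  (TrL.c (I.pos (nat_lit 0) (nat_lit 0)) T5.l9
  (TrL.c (I.mix (nat_lit 17240550) (nat_lit 96881482)) (xR T0.l10 T0.l10)
  (TrL.c (I.mix (nat_lit 17240550) (nat_lit 71940500)) T5.l11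
  TrL.n)))))))) (by decide +kernel)
theorem bx3_10 : BoxOK sI cl9 cl13 cl5 t5 t0 b3_10 :=
  box_mk (TrL.c (I.pos (nat_lit 0) (nat_lit 0)) (xa (xa T5.l12 T5.l12) T5.l12)
  (TrL.c (I.pos (nat_lit 0) (nat_lit 0)) (xa T0.l7 T0.l7)
  (TrL.c (I.pos (nat_lit 0) (nat_lit 124588530)) T5.l8
  (TrL.c (I.pos (nat_lit 0) (nat_lit 96881482)) T0.l8
  (TrL.c (I.pos (nat_lit 0) (nat_lit 0)) (xa T0.l12 T0.l12)
  (TrL.c (I.pos (nat_lit 0) (nat_lit 0)) T5.l9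
  (TrL.c (I.mix (nat_lit 17240550) (nat_lit 96881482)) T0.l10
  (TrL.c (I.mix (nat_lit 17240550) (nat_lit 71940500)) T5.l11
  TrL.n)))))))) (by decide +kernel)
theorem bx3_11 : BoxOK sI cl9 cl13 cl5 t5 t0 b3_11 :=
  box_mk (TrL.c (I.pos (nat_lit 0) (nat_lit 0)) (xa T5.l0 (xb T5.l0 T5.l0))
  (TrL.c (I.pos (nat_lit 0) (nat_lit 0)) (xa (xk (xb T0.l7 T0.l7) T0.l7) (xk (xb T0.l7 (xa T0.l7 T0.l7)) (xb T0.l7 T0.l7)))
  (TrL.c (I.pos (nat_lit 0) (nat_lit 124588530)) (xR T5.l4 T5.l8)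
  (TrL.c (I.pos (nat_lit 0) (nat_lit 96881482)) (xR T0.l8 T0.l8)
  (TrL.c (I.pos (nat_lit 0) (nat_lit 0)) (xa (xk (xb (xa T0.l9 T0.l9) T0.l9) (xb (xa T0.l9 T0.l9) T0.l9)) (xk (xb (xa T0.l9 (xk T0.l9 T0.l9)) (xa T0.l9 (xk (xb T0.l9 T0.l9) (xb T0.l9 T0.l9)))) (xb (xa T0.l9 (xk T0.l9 (xb T0.l9 T0.l9))) (xa T0.l9 (xk (xb T0.l9 T0.l9) (xb T0.l9 T0.l9))))))
  (TrL.c (I.pos (nat_lit 0) (nat_lit 0)) (xk (xa T5.l9 (xb T5.l9 T5.l9)) (xa T5.l9 T5.l9))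
  (TrL.c (I.mix (nat_lit 17240550) (nat_lit 96881482)) (xR T0.l10 (xR T0.l10 (xR T0.l10 T0.l10)))
  (TrL.c (I.mix (nat_lit 17240550) (nat_lit 71940500)) T5.l11
  TrL.n)))))))) (by decide +kernel)
theorem bx3_12 : BoxOK sI cl9 cl13 cl5 t5 t0 b3_12 :=
  box_mk (TrL.c (I.pos (nat_lit 0) (nat_lit 0)) (xa (xb T5.l0 (xa T5.l0 T5.l0)) (xb (xa T5.l0 T5.l0) (xa (xs T5.l0 T5.l0) (xs T5.l0 (xb T5.l0 T5.l0)))))
  (TrL.c (I.pos (nat_lit 0) (nat_lit 0)) (xa (xk T0.l7 T0.l7) (xk T0.l7 T0.l7))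
  (TrL.c (I.pos (nat_lit 0) (nat_lit 124588530)) (xR T5.l8 T5.l8)
  (TrL.c (I.pos (nat_lit 0) (nat_lit 96881482)) (xR T0.l8 T0.l8)
  (TrL.c (I.pos (nat_lit 0) (nat_lit 0)) (xk (xa T0.l9 (xb T0.l9 T0.l9)) (xa T0.l9 (xb T0.l9 T0.l9)))
  (TrL.c (I.pos (nat_lit 0) (nat_lit 0)) T5.l9
  (TrL.c (I.mix (nat_lit 17240550) (nat_lit 96881482)) (xR T0.l10 T0.l10)
  (TrL.c (I.mix (nat_lit 17240550) (nat_lit 71940500)) T5.l11
  TrL.n)))))))) (by decide +kernel)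
theorem bx3_13 : BoxOK sI cl9 cl13 cl5 t5 t0 b3_13 :=
  box_mk (TrL.c (I.pos (nat_lit 0) (nat_lit 0)) T5.l0
  (TrL.c (I.pos (nat_lit 0) (nat_lit 0)) (xk T0.l7 T0.l7)
  (TrL.c (I.pos (nat_lit 0) (nat_lit 124588530)) (xR T5.l8 T5.l8)
  (TrL.c (I.pos (nat_lit 0) (nat_lit 96881482)) T0.l8
  (TrL.c (I.pos (nat_lit 0) (nat_lit 0)) (xk T0.l13 T0.l13)
  (TrL.c (I.pos (nat_lit 0) (nat_lit 0)) T5.l9
  (TrL.c (I.mix (nat_lit 17240550) (nat_lit 96881482)) (xR T0.l10 T0.l10)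
  (TrL.c (I.mix (nat_lit 17240550) (nat_lit 71940500)) T5.l11
  TrL.n)))))))) (by decide +kernel)
theorem sv3 : StarV sI cl9 cl13 cl5 t5 t0 t3 :=
  (bt_n (bt_n (bt_n (bt_b bx3_0) (bt_n (bt_b bx3_1) (bt_b bx3_2))) (bt_n (bt_n (bt_b bx3_3) (bt_b bx3_4)) (bt_n (bt_b bx3_5) (bt_b bx3_6)))) (bt_n (bt_n (bt_b bx3_7) (bt_n (bt_b bx3_8) (bt_b bx3_9))) (bt_n (bt_n (bt_b bx3_10) (bt_b bx3_11)) (bt_n (bt_b bx3_12) (bt_b bx3_13)))))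
def S3 : StarD := StarD.mk cl9 cl13 cl5 5 0 t3
theorem bx4_0 : BoxOK sI cl13 cl5 cl9 t1 t3 b4_0 :=
  box_mk (TrL.c (I.pos (nat_lit 0) (nat_lit 0)) (xa (xb T1.l0 T1.l0) (xb T1.l0 T1.l0))
  (TrL.c (I.pos (nat_lit 0) (nat_lit 0)) (xa (xk T3.l1 T3.l1) (xk T3.l1 T3.l1))
  (TrL.c (I.pos (nat_lit 0) (nat_lit 134217730)) (xR T1.l1 T1.l10)
  (TrL.c (I.pos (nat_lit 0) (nat_lit 110514882)) (xR T3.l2 T3.l2)
  (TrL.c (I.pos (nat_lit 0) (nat_lit 0)) (xa (xk T3.l3 T3.l3) (xk (xb T3.l3 T3.l3) (xb T3.l3 T3.l3)))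
  (TrL.c (I.pos (nat_lit 0) (nat_lit 0)) T1.l2
  (TrL.c (I.mix (nat_lit 8088324) (nat_lit 110514882)) (xR T3.l4 T3.l4)
  (TrL.c (I.mix (nat_lit 8088324) (nat_lit 89478486)) T1.l8
  TrL.n)))))))) (by decide +kernel)
theorem bx4_1 : BoxOK sI cl13 cl5 cl9 t1 t3 b4_1 :=
  box_mk (TrL.c (I.pos (nat_lit 0) (nat_lit 0)) (xa T1.l4 T1.l4)
  (TrL.c (I.pos (nat_lit 0) (nat_lit 0)) T3.l1
  (TrL.c (I.pos (nat_lit 0) (nat_lit 134217730)) (xR T1.l1 T1.l1)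
  (TrL.c (I.pos (nat_lit 0) (nat_lit 110514882)) (xR T3.l2 T3.l2)
  (TrL.c (I.pos (nat_lit 0) (nat_lit 0)) (xa T3.l5 T3.l5)
  (TrL.c (I.pos (nat_lit 0) (nat_lit 0)) T1.l2
  (TrL.c (I.mix (nat_lit 8088324) (nat_lit 110514882)) T3.l4
  (TrL.c (I.mix (nat_lit 8088324) (nat_lit 89478486)) T1.l3
  TrL.n)))))))) (by decide +kernel)
theorem bx4_2 : BoxOK sI cl13 cl5 cl9 t1 t3 b4_2 :=
  box_mk (TrL.c (I.pos (nat_lit 0) (nat_lit 0)) T3.l6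
  (TrL.c (I.pos (nat_lit 0) (nat_lit 0)) T1.l1
  (TrL.c (I.mix (nat_lit 8088324) (nat_lit 110514882)) (xR T3.l7 T3.l2)
  (TrL.c (I.mix (nat_lit 8088324) (nat_lit 89478486)) T1.l8
  TrL.n)))) (by decide +kernel)
theorem bx4_3 : BoxOK sI cl13 cl5 cl9 t1 t3 b4_3 :=
  box_mk (TrL.c (I.pos (nat_lit 0) (nat_lit 0)) (xb T1.l13 T1.l13)
  (TrL.c (I.pos (nat_lit 0) (nat_lit 0)) (xk T3.l1 T3.l1)
  (TrL.c (I.pos (nat_lit 0) (nat_lit 134217730)) (xR T1.l1 T1.l10)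
  (TrL.c (I.pos (nat_lit 0) (nat_lit 110514882)) (xR T3.l2 T3.l2)
  (TrL.c (I.pos (nat_lit 0) (nat_lit 0)) (xk T3.l13 T3.l13)
  (TrL.c (I.pos (nat_lit 0) (nat_lit 0)) T1.l2
  (TrL.c (I.mix (nat_lit 8088324) (nat_lit 110514882)) (xR T3.l4 T3.l4)
  (TrL.c (I.mix (nat_lit 8088324) (nat_lit 89478486)) T1.l3
  TrL.n)))))))) (by decide +kernel)
theorem bx4_4 : BoxOK sI cl13 cl5 cl9 t1 t3 b4_4 :=
  box_mk (TrL.c (I.pos (nat_lit 0) (nat_lit 0)) T1.l4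
  (TrL.c (I.pos (nat_lit 0) (nat_lit 0)) T3.l6
  (TrL.c (I.pos (nat_lit 0) (nat_lit 134217730)) T1.l1
  (TrL.c (I.pos (nat_lit 0) (nat_lit 110514882)) T3.l2
  (TrL.c (I.pos (nat_lit 0) (nat_lit 0)) T3.l5
  (TrL.c (I.pos (nat_lit 0) (nat_lit 0)) T1.l2
  (TrL.c (I.mix (nat_lit 8088324) (nat_lit 110514882)) T3.l4
  (TrL.c (I.mix (nat_lit 8088324) (nat_lit 89478486)) T1.l3
  TrL.n)))))))) (by decide +kernel)
theorem bx4_5 : BoxOK sI cl13 cl5 cl9 t1 t3 b4_5 :=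
  box_mk (TrL.c (I.pos (nat_lit 0) (nat_lit 0)) T1.l4
  (TrL.c (I.pos (nat_lit 0) (nat_lit 0)) T3.l1
  (TrL.c (I.pos (nat_lit 0) (nat_lit 134217730)) T1.l1
  (TrL.c (I.pos (nat_lit 0) (nat_lit 110514882)) T3.l2
  (TrL.c (I.pos (nat_lit 0) (nat_lit 0)) T3.l5
  (TrL.c (I.pos (nat_lit 0) (nat_lit 0)) T1.l2
  (TrL.c (I.mix (nat_lit 8088324) (nat_lit 110514882)) T3.l4
  (TrL.c (I.mix (nat_lit 8088324) (nat_lit 89478486)) T1.l3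
  TrL.n)))))))) (by decide +kernel)
theorem bx4_6 : BoxOK sI cl13 cl5 cl9 t1 t3 b4_6 :=
  box_mk (TrL.c (I.pos (nat_lit 0) (nat_lit 0)) T1.l4
  (TrL.c (I.pos (nat_lit 0) (nat_lit 0)) T3.l1
  (TrL.c (I.pos (nat_lit 0) (nat_lit 134217730)) (xR T1.l1 T1.l1)
  (TrL.c (I.pos (nat_lit 0) (nat_lit 110514882)) (xR T3.l2 T3.l2)
  (TrL.c (I.pos (nat_lit 0) (nat_lit 0)) T3.l5
  (TrL.c (I.pos (nat_lit 0) (nat_lit 0)) T1.l2
  (TrL.c (I.mix (nat_lit 8088324) (nat_lit 110514882)) T3.l4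
  (TrL.c (I.mix (nat_lit 8088324) (nat_lit 89478486)) T1.l3
  TrL.n)))))))) (by decide +kernel)
theorem bx4_7 : BoxOK sI cl13 cl5 cl9 t1 t3 b4_7 :=
  box_mk (TrL.c (I.pos (nat_lit 0) (nat_lit 0)) T3.l1
  (TrL.c (I.pos (nat_lit 0) (nat_lit 0)) T1.l1
  (TrL.c (I.mix (nat_lit 8088324) (nat_lit 110514882)) (xR T3.l7 T3.l2)
  (TrL.c (I.mix (nat_lit 8088324) (nat_lit 89478486)) T1.l8
  TrL.n)))) (by decide +kernel)
theorem bx4_8 : BoxOK sI cl13 cl5 cl9 t1 t3 b4_8 :=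
  box_mk (TrL.c (I.pos (nat_lit 0) (nat_lit 0)) T1.l13
  (TrL.c (I.pos (nat_lit 0) (nat_lit 0)) T3.l1
  (TrL.c (I.pos (nat_lit 0) (nat_lit 134217730)) (xR T1.l1 T1.l1)
  (TrL.c (I.pos (nat_lit 0) (nat_lit 110514882)) (xR T3.l2 T3.l2)
  (TrL.c (I.pos (nat_lit 0) (nat_lit 0)) (xk T3.l13 T3.l13)
  (TrL.c (I.pos (nat_lit 0) (nat_lit 0)) T1.l2
  (TrL.c (I.mix (nat_lit 8088324) (nat_lit 110514882)) T3.l4
  (TrL.c (I.mix (nat_lit 8088324) (nat_lit 89478486)) T1.l3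
  TrL.n)))))))) (by decide +kernel)
theorem bx4_9 : BoxOK sI cl13 cl5 cl9 t1 t3 b4_9 :=
  box_mk (TrL.c (I.pos (nat_lit 0) (nat_lit 0)) (xa (xb T1.l0 T1.l0) (xb T1.l0 T1.l0))
  (TrL.c (I.pos (nat_lit 0) (nat_lit 0)) (xa (xb T3.l1 T3.l1) (xk T3.l9 T3.l1))
  (TrL.c (I.pos (nat_lit 0) (nat_lit 134217730)) (xR T1.l10 T1.l10)
  (TrL.c (I.pos (nat_lit 0) (nat_lit 110514882)) (xR T3.l2 T3.l2)
  (TrL.c (I.pos (nat_lit 0) (nat_lit 0)) (xa (xb (xk (xa T3.l3 T3.l3) (xa T3.l3 T3.l3)) (xk T3.l3 T3.l3)) (xb (xk (xa T3.l0 (xb T3.l0 T3.l3)) (xa T3.l0 (xb T3.l0 T3.l3))) (xk (xa T3.l3 (xk T3.l3 T3.l3)) (xa T3.l3 (xb T3.l3 T3.l3)))))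
  (TrL.c (I.pos (nat_lit 0) (nat_lit 0)) (xk T1.l2 T1.l2)
  (TrL.c (I.mix (nat_lit 8088324) (nat_lit 110514882)) (xR T3.l4 (xR T3.l4 T3.l4))
  (TrL.c (I.mix (nat_lit 8088324) (nat_lit 89478486)) T1.l8
  TrL.n)))))))) (by decide +kernel)
theorem bx4_10 : BoxOK sI cl13 cl5 cl9 t1 t3 b4_10 :=
  box_mk (TrL.c (I.pos (nat_lit 0) (nat_lit 0)) (xa T1.l0 T1.l0)
  (TrL.c (I.pos (nat_lit 0) (nat_lit 0)) (xk T3.l1 T3.l1)
  (TrL.c (I.pos (nat_lit 0) (nat_lit 134217730)) (xR T1.l1 T1.l10)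
  (TrL.c (I.pos (nat_lit 0) (nat_lit 110514882)) (xR T3.l2 T3.l2)
  (TrL.c (I.pos (nat_lit 0) (nat_lit 0)) (xk (xb T3.l3 (xa T3.l13 (xs T3.l0 T3.l0))) (xb T3.l3 (xa T3.l13 (xs T3.l0 (xb T3.l13 T3.l13)))))
  (TrL.c (I.pos (nat_lit 0) (nat_lit 0)) T1.l2
  (TrL.c (I.mix (nat_lit 8088324) (nat_lit 110514882)) (xR T3.l4 T3.l4)
  (TrL.c (I.mix (nat_lit 8088324) (nat_lit 89478486)) T1.l3
  TrL.n)))))))) (by decide +kernel)
theorem bx4_11 : BoxOK sI cl13 cl5 cl9 t1 t3 b4_11 :=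
  box_mk (TrL.c (I.pos (nat_lit 0) (nat_lit 0)) T1.l13
  (TrL.c (I.pos (nat_lit 0) (nat_lit 0)) T3.l1
  (TrL.c (I.pos (nat_lit 0) (nat_lit 134217730)) (xR T1.l1 T1.l10)
  (TrL.c (I.pos (nat_lit 0) (nat_lit 110514882)) (xR T3.l2 T3.l2)
  (TrL.c (I.pos (nat_lit 0) (nat_lit 0)) (xk T3.l13 T3.l13)
  (TrL.c (I.pos (nat_lit 0) (nat_lit 0)) T1.l2
  (TrL.c (I.mix (nat_lit 8088324) (nat_lit 110514882)) (xR T3.l4 T3.l4)
  (TrL.c (I.mix (nat_lit 8088324) (nat_lit 89478486)) T1.l8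
  TrL.n)))))))) (by decide +kernel)
theorem sv4 : StarV sI cl13 cl5 cl9 t1 t3 t4 :=
  (bt_n (bt_n (bt_n (bt_b bx4_0) (bt_n (bt_b bx4_1) (bt_b bx4_2))) (bt_n (bt_b bx4_3) (bt_n (bt_b bx4_4) (bt_b bx4_5)))) (bt_n (bt_n (bt_b bx4_6) (bt_n (bt_b bx4_7) (bt_b bx4_8))) (bt_n (bt_b bx4_9) (bt_n (bt_b bx4_10) (bt_b bx4_11)))))
def S4 : StarD := StarD.mk cl13 cl5 cl9 1 3 t4
theorem bx5_0 : BoxOK sI cl13 cl9 cl5 t3 t1 b5_0 :=
  box_mk (TrL.c (I.pos (nat_lit 0) (nat_lit 0)) (xa (xa (xb (xb T3.l0 (xs T3.l0 (xa T3.l0 T3.l0))) (xb T3.l0 (xs T3.l0 T3.l0))) (xb (xb (xs T3.l0 T3.l0) (xs T3.l0 T3.l0)) (xb (xs T3.l0 T3.l0) (xs T3.l0 T3.l0)))) (xa (xb (xb (xs T3.l0 (xa T3.l0 T3.l0)) (xs T3.l0 (xa T3.l0 T3.l0))) (xb (xs T3.l0 (xa T3.l0 T3.l0)) (xs T3.l12 (xa T3.l0 T3.l0)))) (xb (xb (xs T3.l0 (xa T3.l0 (xb T3.l0 T3.l0))) (xs T3.l0 (xa T3.l0 T3.l0))) (xb (xs T3.l0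 (xa T3.l0 T3.l0)) (xs T3.l0 (xa T3.l0 T3.l0))))))
  (TrL.c (I.pos (nat_lit 0) (nat_lit 0)) (xa (xk (xb T1.l7 T1.l7) T1.l7) (xk (xb T1.l7 T1.l7) (xb T1.l7 T1.l7)))
  (TrL.c (I.pos (nat_lit 0) (nat_lit 134217730)) (xR T3.l4 T3.l8)
  (TrL.c (I.pos (nat_lit 0) (nat_lit 110514882)) (xR T1.l8 T1.l8)
  (TrL.c (I.pos (nat_lit 0) (nat_lit 0)) (xa (xk (xb T1.l9 T1.l9) (xb T1.l9 T1.l9)) (xk (xb (xa T1.l9 T1.l9) (xa T1.l9 (xb T1.l9 (xs T1.l9 (xk T1.l9 T1.l9))))) (xb (xa T1.l9 T1.l9) (xa (xb T1.l9 T1.l9) (xb T1.l9 (xs T1.l9 (xk (xa T1.l9 T1.l9) (xa T1.l9 T1.l9))))))))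
  (TrL.c (I.pos (nat_lit 0) (nat_lit 0)) (xk T3.l9 (xb T3.l9 T3.l9))
  (TrL.c (I.mix (nat_lit 8088324) (nat_lit 110514882)) (xR T1.l10 (xR T1.l10 T1.l10))
  (TrL.c (I.mix (nat_lit 8088324) (nat_lit 89478486)) T3.l10
  TrL.n)))))))) (by decide +kernel)
theorem bx5_1 : BoxOK sI cl13 cl9 cl5 t3 t1 b5_1 :=
  box_mk (TrL.c (I.pos (nat_lit 0) (nat_lit 0)) T3.l11
  (TrL.c (I.pos (nat_lit 0) (nat_lit 0)) T1.l7
  (TrL.c (I.pos (nat_lit 0) (nat_lit 134217730)) (xR T3.l4 T3.l8)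
  (TrL.c (I.pos (nat_lit 0) (nat_lit 110514882)) (xR T1.l8 T1.l8)
  (TrL.c (I.pos (nat_lit 0) (nat_lit 0)) (xk (xa T1.l11 T1.l11) (xa T1.l11 T1.l11))
  (TrL.c (I.pos (nat_lit 0) (nat_lit 0)) T3.l9
  (TrL.c (I.mix (nat_lit 8088324) (nat_lit 110514882)) T1.l10
  (TrL.c (I.mix (nat_lit 8088324) (nat_lit 89478486)) T3.l10
  TrL.n)))))))) (by decide +kernel)
theorem bx5_2 : BoxOK sI cl13 cl9 cl5 t3 t1 b5_2 :=
  box_mk (TrL.c (I.pos (nat_lit 0) (nat_lit 0)) (xa T3.l11 T3.l11)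
  (TrL.c (I.pos (nat_lit 0) (nat_lit 0)) (xa T1.l7 T1.l7)
  (TrL.c (I.pos (nat_lit 0) (nat_lit 134217730)) (xR T3.l4 T3.l8)
  (TrL.c (I.pos (nat_lit 0) (nat_lit 110514882)) T1.l8
  (TrL.c (I.pos (nat_lit 0) (nat_lit 0)) (xa T1.l11 T1.l11)
  (TrL.c (I.pos (nat_lit 0) (nat_lit 0)) T3.l9
  (TrL.c (I.mix (nat_lit 8088324) (nat_lit 110514882)) T1.l10
  (TrL.c (I.mix (nat_lit 8088324) (nat_lit 89478486)) T3.l10
  TrL.n)))))))) (by decide +kernel)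
theorem bx5_3 : BoxOK sI cl13 cl9 cl5 t3 t1 b5_3 :=
  box_mk (TrL.c (I.pos (nat_lit 0) (nat_lit 0)) (xb T3.l12 T3.l12)
  (TrL.c (I.pos (nat_lit 0) (nat_lit 0)) (xk (xb T1.l7 T1.l7) (xb T1.l7 T1.l7))
  (TrL.c (I.pos (nat_lit 0) (nat_lit 134217730)) (xR T3.l4 T3.l8)
  (TrL.c (I.pos (nat_lit 0) (nat_lit 110514882)) (xR T1.l8 T1.l8)
  (TrL.c (I.pos (nat_lit 0) (nat_lit 0)) (xk (xb T1.l9 T1.l9) (xb T1.l9 T1.l9))
  (TrL.c (I.pos (nat_lit 0) (nat_lit 0)) T3.l9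
  (TrL.c (I.mix (nat_lit 8088324) (nat_lit 110514882)) (xR T1.l10 T1.l10)
  (TrL.c (I.mix (nat_lit 8088324) (nat_lit 89478486)) T3.l10
  TrL.n)))))))) (by decide +kernel)
theorem bx5_4 : BoxOK sI cl13 cl9 cl5 t3 t1 b5_4 :=
  box_mk (TrL.c (I.pos (nat_lit 0) (nat_lit 0)) (xa (xa (xb T3.l11 T3.l11) T3.l11) (xa T3.l11 T3.l11))
  (TrL.c (I.pos (nat_lit 0) (nat_lit 0)) (xa T1.l7 (xa T1.l7 T1.l7))
  (TrL.c (I.pos (nat_lit 0) (nat_lit 134217730)) (xR T3.l4 T3.l8)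
  (TrL.c (I.pos (nat_lit 0) (nat_lit 110514882)) (xR T1.l8 T1.l8)
  (TrL.c (I.pos (nat_lit 0) (nat_lit 0)) (xa T1.l11 T1.l11)
  (TrL.c (I.pos (nat_lit 0) (nat_lit 0)) T3.l9
  (TrL.c (I.mix (nat_lit 8088324) (nat_lit 110514882)) (xR T1.l10 T1.l10)
  (TrL.c (I.mix (nat_lit 8088324) (nat_lit 89478486)) T3.l10
  TrL.n)))))))) (by decide +kernel)
theorem bx5_5 : BoxOK sI cl13 cl9 cl5 t3 t1 b5_5 :=
  box_mk (TrL.c (I.pos (nat_lit 0) (nat_lit 0)) T3.l0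
  (TrL.c (I.pos (nat_lit 0) (nat_lit 0)) T1.l7
  (TrL.c (I.pos (nat_lit 0) (nat_lit 134217730)) (xR T3.l4 T3.l8)
  (TrL.c (I.pos (nat_lit 0) (nat_lit 110514882)) (xR T1.l8 T1.l8)
  (TrL.c (I.pos (nat_lit 0) (nat_lit 0)) (xk (xa T1.l12 T1.l12) T1.l12)
  (TrL.c (I.pos (nat_lit 0) (nat_lit 0)) T3.l9
  (TrL.c (I.mix (nat_lit 8088324) (nat_lit 110514882)) (xR T1.l10 T1.l10)
  (TrL.c (I.mix (nat_lit 8088324) (nat_lit 89478486)) T3.l10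
  TrL.n)))))))) (by decide +kernel)
theorem bx5_6 : BoxOK sI cl13 cl9 cl5 t3 t1 b5_6 :=
  box_mk (TrL.c (I.pos (nat_lit 0) (nat_lit 0)) (xa T3.l11 T3.l11)
  (TrL.c (I.pos (nat_lit 0) (nat_lit 0)) (xa T1.l7 T1.l7)
  (TrL.c (I.pos (nat_lit 0) (nat_lit 134217730)) (xR T3.l4 T3.l8)
  (TrL.c (I.pos (nat_lit 0) (nat_lit 110514882)) T1.l8
  (TrL.c (I.pos (nat_lit 0) (nat_lit 0)) (xa T1.l11 T1.l11)
  (TrL.c (I.pos (nat_lit 0) (nat_lit 0)) T3.l9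
  (TrL.c (I.mix (nat_lit 8088324) (nat_lit 110514882)) T1.l10
  (TrL.c (I.mix (nat_lit 8088324) (nat_lit 89478486)) T3.l10
  TrL.n)))))))) (by decide +kernel)
theorem bx5_7 : BoxOK sI cl13 cl9 cl5 t3 t1 b5_7 :=
  box_mk (TrL.c (I.pos (nat_lit 0) (nat_lit 0)) T3.l11
  (TrL.c (I.pos (nat_lit 0) (nat_lit 0)) T1.l7
  (TrL.c (I.pos (nat_lit 0) (nat_lit 134217730)) (xR T3.l4 T3.l8)
  (TrL.c (I.pos (nat_lit 0) (nat_lit 110514882)) (xR T1.l8 T1.l8)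
  (TrL.c (I.pos (nat_lit 0) (nat_lit 0)) T1.l11
  (TrL.c (I.pos (nat_lit 0) (nat_lit 0)) T3.l9
  (TrL.c (I.mix (nat_lit 8088324) (nat_lit 110514882)) T1.l10
  (TrL.c (I.mix (nat_lit 8088324) (nat_lit 89478486)) T3.l10
  TrL.n)))))))) (by decide +kernel)
theorem bx5_8 : BoxOK sI cl13 cl9 cl5 t3 t1 b5_8 :=
  box_mk (TrL.c (I.pos (nat_lit 0) (nat_lit 0)) (xa (xa T3.l11 T3.l11) (xa T3.l11 T3.l11))
  (TrL.c (I.pos (nat_lit 0) (nat_lit 0)) (xa T1.l7 (xa T1.l7 T1.l7))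
  (TrL.c (I.pos (nat_lit 0) (nat_lit 134217730)) (xR T3.l4 T3.l8)
  (TrL.c (I.pos (nat_lit 0) (nat_lit 110514882)) (xR T1.l8 T1.l8)
  (TrL.c (I.pos (nat_lit 0) (nat_lit 0)) (xa T1.l11 T1.l11)
  (TrL.c (I.pos (nat_lit 0) (nat_lit 0)) T3.l9
  (TrL.c (I.mix (nat_lit 8088324) (nat_lit 110514882)) (xR T1.l10 T1.l10)
  (TrL.c (I.mix (nat_lit 8088324) (nat_lit 89478486)) T3.l10
  TrL.n)))))))) (by decide +kernel)
theorem bx5_9 : BoxOK sI cl13 cl9 cl5 t3 t1 b5_9 :=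
  box_mk (TrL.c (I.pos (nat_lit 0) (nat_lit 0)) T3.l11
  (TrL.c (I.pos (nat_lit 0) (nat_lit 0)) T1.l7
  (TrL.c (I.pos (nat_lit 0) (nat_lit 134217730)) (xR T3.l4 T3.l8)
  (TrL.c (I.pos (nat_lit 0) (nat_lit 110514882)) (xR T1.l8 T1.l8)
  (TrL.c (I.pos (nat_lit 0) (nat_lit 0)) (xb T1.l11 T1.l11)
  (TrL.c (I.pos (nat_lit 0) (nat_lit 0)) T3.l9
  (TrL.c (I.mix (nat_lit 8088324) (nat_lit 110514882)) T1.l10
  (TrL.c (I.mix (nat_lit 8088324) (nat_lit 89478486)) T3.l10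
  TrL.n)))))))) (by decide +kernel)
theorem bx5_10 : BoxOK sI cl13 cl9 cl5 t3 t1 b5_10 :=
  box_mk (TrL.c (I.pos (nat_lit 0) (nat_lit 0)) T3.l12
  (TrL.c (I.pos (nat_lit 0) (nat_lit 0)) T1.l7
  (TrL.c (I.pos (nat_lit 0) (nat_lit 134217730)) (xR T3.l4 T3.l8)
  (TrL.c (I.pos (nat_lit 0) (nat_lit 110514882)) (xR T1.l8 T1.l8)
  (TrL.c (I.pos (nat_lit 0) (nat_lit 0)) (xk T1.l12 T1.l12)
  (TrL.c (I.pos (nat_lit 0) (nat_lit 0)) T3.l9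
  (TrL.c (I.mix (nat_lit 8088324) (nat_lit 110514882)) (xR T1.l10 T1.l10)
  (TrL.c (I.mix (nat_lit 8088324) (nat_lit 89478486)) T3.l10
  TrL.n)))))))) (by decide +kernel)
theorem bx5_11 : BoxOK sI cl13 cl9 cl5 t3 t1 b5_11 :=
  box_mk (TrL.c (I.pos (nat_lit 0) (nat_lit 0)) (xa (xa T3.l11 T3.l11) T3.l11)
  (TrL.c (I.pos (nat_lit 0) (nat_lit 0)) (xa T1.l7 T1.l7)
  (TrL.c (I.pos (nat_lit 0) (nat_lit 134217730)) (xR T3.l4 T3.l8)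
  (TrL.c (I.pos (nat_lit 0) (nat_lit 110514882)) T1.l8
  (TrL.c (I.pos (nat_lit 0) (nat_lit 0)) (xa T1.l11 T1.l11)
  (TrL.c (I.pos (nat_lit 0) (nat_lit 0)) T3.l9
  (TrL.c (I.mix (nat_lit 8088324) (nat_lit 110514882)) T1.l10
  (TrL.c (I.mix (nat_lit 8088324) (nat_lit 89478486)) T3.l10
  TrL.n)))))))) (by decide +kernel)
theorem bx5_12 : BoxOK sI cl13 cl9 cl5 t3 t1 b5_12 :=
  box_mk (TrL.c (I.pos (nat_lit 0) (nat_lit 0)) (xa (xb T3.l0 T3.l0) (xa T3.l0 (xb T3.l0 T3.l0)))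
  (TrL.c (I.pos (nat_lit 0) (nat_lit 0)) (xa (xk T1.l7 T1.l7) (xk (xb T1.l7 T1.l7) (xb T1.l7 T1.l7)))
  (TrL.c (I.pos (nat_lit 0) (nat_lit 134217730)) (xR T3.l4 T3.l8)
  (TrL.c (I.pos (nat_lit 0) (nat_lit 110514882)) (xR T1.l8 T1.l8)
  (TrL.c (I.pos (nat_lit 0) (nat_lit 0)) (xa (xk (xb T1.l9 T1.l9) (xb T1.l9 T1.l9)) (xk (xb (xa T1.l9 (xk T1.l9 T1.l9)) (xa T1.l9 (xk T1.l9 T1.l9))) (xb (xa T1.l9 (xk T1.l9 T1.l9)) (xa T1.l9 (xk T1.l9 T1.l9)))))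
  (TrL.c (I.pos (nat_lit 0) (nat_lit 0)) (xk (xa T3.l9 T3.l9) (xa T3.l9 T3.l9))
  (TrL.c (I.mix (nat_lit 8088324) (nat_lit 110514882)) (xR T1.l10 (xR T1.l10 (xR T1.l10 T1.l10)))
  (TrL.c (I.mix (nat_lit 8088324) (nat_lit 89478486)) T3.l10
  TrL.n)))))))) (by decide +kernel)
theorem bx5_13 : BoxOK sI cl13 cl9 cl5 t3 t1 b5_13 :=
  box_mk (TrL.c (I.pos (nat_lit 0) (nat_lit 0)) (xa (xb T3.l0 T3.l0) (xb T3.l0 T3.l0))
  (TrL.c (I.pos (nat_lit 0) (nat_lit 0)) (xa (xk T1.l7 T1.l7) (xk T1.l7 T1.l7))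
  (TrL.c (I.pos (nat_lit 0) (nat_lit 134217730)) (xR T3.l4 T3.l8)
  (TrL.c (I.pos (nat_lit 0) (nat_lit 110514882)) (xR T1.l8 T1.l8)
  (TrL.c (I.pos (nat_lit 0) (nat_lit 0)) (xk (xa T1.l9 T1.l9) (xa T1.l9 T1.l9))
  (TrL.c (I.pos (nat_lit 0) (nat_lit 0)) T3.l9
  (TrL.c (I.mix (nat_lit 8088324) (nat_lit 110514882)) (xR T1.l10 T1.l10)
  (TrL.c (I.mix (nat_lit 8088324) (nat_lit 89478486)) T3.l10
  TrL.n)))))))) (by decide +kernel)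
theorem sv5 : StarV sI cl13 cl9 cl5 t3 t1 t5 :=
  (bt_n (bt_n (bt_n (bt_b bx5_0) (bt_n (bt_b bx5_1) (bt_b bx5_2))) (bt_n (bt_n (bt_b bx5_3) (bt_b bx5_4)) (bt_n (bt_b bx5_5) (bt_b bx5_6)))) (bt_n (bt_n (bt_b bx5_7) (bt_n (bt_b bx5_8) (bt_b bx5_9))) (bt_n (bt_n (bt_b bx5_10) (bt_b bx5_11)) (bt_n (bt_b bx5_12) (bt_b bx5_13)))))
def S5 : StarD := StarD.mk cl13 cl9 cl5 3 1 t5
def G : List StarD := [S0, S1, S2, S3, S4, S5]
theorem so0 : StarOK sI G S0 :=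
  star_mk (by decide) (by decide) rfl rfl rfl rfl rfl rfl (rfl : _ = t2) (rfl : _ = t4)
  (st_mk (Pth.l (Pth.l (Pth.l Pth.z))) (nat_lit 117142606) (nat_lit 136120984) (by decide +kernel))
  (st_mk (Pth.l (Pth.l (Pth.l Pth.z))) (nat_lit 153499770) (nat_lit 172927530) (by decide +kernel))
  (st_mk (Pth.l (Pth.l (Pth.l Pth.z))) (nat_lit 195964913) (nat_lit 216009332) (by decide +kernel)) sv0
theorem so1 : StarOK sI G S1 :=
  star_mk (by decide) (by decide) rfl rfl rfl rfl rfl rfl (rfl : _ = t4) (rfl : _ = t2)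
  (st_mk (Pth.l (Pth.l (Pth.l Pth.z))) (nat_lit 97366776) (nat_lit 116281151) (by decide +kernel))
  (st_mk (Pth.l (Pth.l (Pth.l Pth.z))) (nat_lit 133606092) (nat_lit 152958220) (by decide +kernel))
  (st_mk (Pth.l (Pth.l (Pth.l Pth.z))) (nat_lit 175971597) (nat_lit 195930422) (by decide +kernel)) sv1
theorem so2 : StarOK sI G S2 :=
  star_mk (by decide) (by decide) rfl rfl rfl rfl rfl rfl (rfl : _ = t0) (rfl : _ = t5)
  (st_mk (Pth.l (Pth.l (Pth.l Pth.z))) (nat_lit 239212889) (nat_lit 241062572) (by decide +kernel))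
  (st_mk (Pth.l (Pth.l (Pth.l Pth.z))) (nat_lit 274473128) (nat_lit 276741536) (by decide +kernel))
  (st_mk (Pth.l (Pth.l (Pth.l Pth.z))) (nat_lit 315220779) (nat_lit 318047395) (by decide +kernel)) sv2
theorem so3 : StarOK sI G S3 :=
  star_mk (by decide) (by decide) rfl rfl rfl rfl rfl rfl (rfl : _ = t5) (rfl : _ = t0)
  (st_mk (Pth.l (Pth.l (Pth.l Pth.z))) (nat_lit 96121438) (nat_lit 114662649) (by decide +kernel))
  (st_mk (Pth.l (Pth.l (Pth.l Pth.z))) (nat_lit 131266462) (nat_lit 150135563) (by decide +kernel))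
  (st_mk (Pth.l (Pth.l (Pth.l Pth.z))) (nat_lit 171914182) (nat_lit 191263534) (by decide +kernel)) sv3
theorem so4 : StarOK sI G S4 :=
  star_mk (by decide) (by decide) rfl rfl rfl rfl rfl rfl (rfl : _ = t1) (rfl : _ = t3)
  (st_mk (Pth.l (Pth.l (Pth.l Pth.z))) (nat_lit 238062708) (nat_lit 239810749) (by decide +kernel))
  (st_mk (Pth.l (Pth.l (Pth.l Pth.z))) (nat_lit 272959317) (nat_lit 275088769) (by decide +kernel))
  (st_mk (Pth.l (Pth.l (Pth.l Pth.z))) (nat_lit 313224636) (nat_lit 315860062) (by decide +kernel)) sv4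
theorem so5 : StarOK sI G S5 :=
  star_mk (by decide) (by decide) rfl rfl rfl rfl rfl rfl (rfl : _ = t3) (rfl : _ = t1)
  (st_mk (Pth.l (Pth.l (Pth.l Pth.z))) (nat_lit 115089857) (nat_lit 133532200) (by decide +kernel))
  (st_mk (Pth.l (Pth.l (Pth.l Pth.z))) (nat_lit 149986467) (nat_lit 168730211) (by decide +kernel))
  (st_mk (Pth.l (Pth.l (Pth.l Pth.z))) (nat_lit 190251785) (nat_lit 209432048) (by decide +kernel)) sv5
theorem ok : GroupOK (nat_lit 150274048) (nat_lit 209387520) G := grp_mk (allS_c so0 (allS_c so1 (allS_c so2 (allS_c so3 (allS_c so4 (allS_c so5 allS_n))))))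
theorem cov : GCov G cl5 cl9 cl13 := cov_mk
  ⟨0, by decide, rfl, rfl, rfl⟩ ⟨1, by decide, rfl, rfl, rfl⟩ ⟨2, by decide, rfl, rfl, rfl⟩ ⟨3, by decide, rfl, rfl, rfl⟩ ⟨4, by decide, rfl, rfl, rfl⟩ ⟨5, by decide, rfl, rfl, rfl⟩
end Q256_2


end Pool.Agent.Helper6.MONO
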