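import Pool.Agent.Helper6.MONO.Cert.C41

/-!
Certificate data (generated).
-/

set_option autoImplicit false
set_option linter.all false
noncomputable section
namespace Pool.Agent.Helper6.MONO


namespace Q256_3
def sI : I := I.pos (nat_lit 209321984) (nat_lit 268435456)
def b0_0 : Bx := Bx.mk (St.mk (I.pos (nat_lit 153403392) (nat_lit 239271936)) (I.mix (nat_lit 5128192) (nat_lit 53706752)) (I.mix (nat_lit 6504448) (nat_lit 70336512)) (I.pos (nat_lit 104939520) (nat_lit 255328256)) (I.mix (nat_lit 97566720) (nat_lit 55754752)) (I.mix (nat_lit 55607296) (nat_lit 52477952)) (I.mix (nat_lit 76496896) (nat_lit 74940416)))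
  false (nat_lit 58802876)
def b0_1 : Bx := Bx.mk (St.mk (I.mix (nat_lit 24248320) (nat_lit 142229504)) (I.mix (nat_lit 4603904) (nat_lit 26525696)) (I.mix (nat_lit 18481152) (nat_lit 13680640)) (I.pos (nat_lit 9764864) (nat_lit 105955328)) (I.mix (nat_lit 29294592) (nat_lit 31850496)) (I.mix (nat_lit 24231936) (nat_lit 19955712)) (I.mix (nat_lit 19087360) (nat_lit 13041664)))
  false (nat_lit 0)
def b0_2 : Bx := Bx.mk (St.mk (I.pos (nat_lit 105398272) (nat_lit 144277504)) (I.mix (nat_lit 41844736) (nat_lit 7045120)) (I.neg (nat_lit 1196032) (nat_lit 51429376)) (I.pos (nat_lit 59588608) (nat_lit 112918528)) (I.mix (nat_lit 78741504) (nat_lit 27820032)) (I.mix (nat_lit 27312128) (nat_lit 61521920)) (I.mix (nat_lit 20692992) (nat_lit 52936704)))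
  false (nat_lit 0)
def b0_3 : Bx := Bx.mk (St.mk (I.mix (nat_lit 30179328) (nat_lit 97763328)) (I.mix (nat_lit 26116096) (nat_lit 4014080)) (I.mix (nat_lit 23478272) (nat_lit 1146880)) (I.pos (nat_lit 13107200) (nat_lit 68747264)) (I.mix (nat_lit 38813696) (nat_lit 13844480)) (I.mix (nat_lit 14745600) (nat_lit 25706496)) (I.mix (nat_lit 7372800) (nat_lit 14254080)))
  false (nat_lit 0)
def b0_4 : Bx := Bx.mk (St.mk (I.pos (nat_lit 196739072) (nat_lit 274989056)) (I.mix (nat_lit 7471104) (nat_lit 33832960)) (I.mix (nat_lit 59047936) (nat_lit 32030720)) (I.pos (nat_lit 184942592) (nat_lit 330203136)) (I.mix (nat_lit 71614464) (nat_lit 49610752)) (I.mix (nat_lit 43646976) (nat_lit 38191104)) (I.mix (nat_lit 68059136) (nat_lit 66994176)))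
  false (nat_lit 21762860)
def b0_5 : Bx := Bx.mk (St.mk (I.mix (nat_lit 30507008) (nat_lit 89817088)) (I.mix (nat_lit 1884160) (nat_lit 5259264)) (I.neg (nat_lit 704512) (nat_lit 9732096)) (I.pos (nat_lit 13991936) (nat_lit 63651840)) (I.mix (nat_lit 5849088) (nat_lit 9158656)) (I.mix (nat_lit 5341184) (nat_lit 3620864)) (I.mix (nat_lit 3096576) (nat_lit 2244608)))
  false (nat_lit 0)
def b0_6 : Bx := Bx.mk (St.mk (I.pos (nat_lit 104955904) (nat_lit 180895744)) (I.neg (nat_lit 7176192) (nat_lit 43417600)) (I.neg (nat_lit 9977856) (nat_lit 51904512)) (I.pos (nat_lit 70434816) (nat_lit 159547392)) (I.mix (nat_lit 66600960) (nat_lit 32686080)) (I.mix (nat_lit 32980992) (nat_lit 46219264)) (I.mix (nat_lit 27885568) (nat_lit 46792704)))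
  false (nat_lit 0)
def b0_7 : Bx := Bx.mk (St.mk (I.mix (nat_lit 28377088) (nat_lit 122486784)) (I.mix (nat_lit 25427968) (nat_lit 5881856)) (I.mix (nat_lit 23855104) (nat_lit 1294336)) (I.pos (nat_lit 11632640) (nat_lit 78643200)) (I.mix (nat_lit 37273600) (nat_lit 24608768)) (I.mix (nat_lit 18792448) (nat_lit 27803648)) (I.mix (nat_lit 10272768) (nat_lit 17596416)))
  false (nat_lit 0)
def b0_8 : Bx := Bx.mk (St.mk (I.pos (nat_lit 171212800) (nat_lit 218480640)) (I.mix (nat_lit 12582912) (nat_lit 51347456)) (I.mix (nat_lit 12058624) (nat_lit 69287936)) (I.pos (nat_lit 138248192) (nat_lit 220151808)) (I.mix (nat_lit 120422400) (nat_lit 46907392)) (I.mix (nat_lit 95272960) (nat_lit 56852480)) (I.mix (nat_lit 103038976) (nat_lit 61243392)))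
  false (nat_lit 22480996)
def b0_9 : Bx := Bx.mk (St.mk (I.mix (nat_lit 33439744) (nat_lit 135479296)) (I.mix (nat_lit 15679488) (nat_lit 30916608)) (I.mix (nat_lit 18710528) (nat_lit 16891904)) (I.pos (nat_lit 10190848) (nat_lit 99074048)) (I.mix (nat_lit 46546944) (nat_lit 28475392)) (I.mix (nat_lit 37732352) (nat_lit 25034752)) (I.mix (nat_lit 22839296) (nat_lit 14761984)))
  false (nat_lit 0)
def b0_10 : Bx := Bx.mk (St.mk (I.pos (nat_lit 107855872) (nat_lit 129695744)) (I.mix (nat_lit 3162112) (nat_lit 8749056)) (I.neg (nat_lit 1310720) (nat_lit 16564224)) (I.pos (nat_lit 61538304) (nat_lit 100728832)) (I.mix (nat_lit 11091968) (nat_lit 14663680)) (I.mix (nat_lit 9076736) (nat_lit 6438912)) (I.mix (nat_lit 7880704) (nat_lit 5701632)))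
  false (nat_lit 0)
def b0_11 : Bx := Bx.mk (St.mk (I.pos (nat_lit 192544768) (nat_lit 238747648)) (I.pos (nat_lit 5128192) (nat_lit 49889280)) (I.mix (nat_lit 8404992) (nat_lit 65437696)) (I.pos (nat_lit 189317120) (nat_lit 252002304)) (I.mix (nat_lit 84164608) (nat_lit 61652992)) (I.mix (nat_lit 62701568) (nat_lit 46514176)) (I.mix (nat_lit 98844672) (nat_lit 62291968)))
  false (nat_lit 43510253)
def b0_12 : Bx := Bx.mk (St.mk (I.pos (nat_lit 144195584) (nat_lit 213975040)) (I.mix (nat_lit 37568512) (nat_lit 15056896)) (I.mix (nat_lit 50544640) (nat_lit 17530880)) (I.pos (nat_lit 105005056) (nat_lit 206405632)) (I.mix (nat_lit 51281920) (nat_lit 42516480)) (I.mix (nat_lit 45465600) (nat_lit 42221568)) (I.mix (nat_lit 48218112) (nat_lit 43859968)))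
  false (nat_lit 12329687)
def b0_13 : Bx := Bx.mk (St.mk (I.pos (nat_lit 173948928) (nat_lit 213123072)) (I.mix (nat_lit 13729792) (nat_lit 28524544)) (I.mix (nat_lit 16629760) (nat_lit 37552128)) (I.pos (nat_lit 145342464) (nat_lit 203620352)) (I.mix (nat_lit 87228416) (nat_lit 51888128)) (I.mix (nat_lit 88080384) (nat_lit 44023808)) (I.mix (nat_lit 99434496) (nat_lit 46415872)))
  false (nat_lit 4912978)
def t0 : BTr := (BTr.n (BTr.n (BTr.n (BTr.b b0_0) (BTr.n (BTr.b b0_1) (BTr.b b0_2))) (BTr.n (BTr.n (BTr.b b0_3) (BTr.b b0_4)) (BTr.n (BTr.b b0_5) (BTr.b b0_6)))) (BTr.n (BTr.n (BTr.b b0_7) (BTr.n (BTr.b b0_8) (BTr.b b0_9))) (BTr.n (BTr.n (BTr.b b0_10) (BTr.b b0_11)) (BTr.n (BTr.b b0_12) (BTr.b b0_13)))))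
namespace T0
def l0 : Tr := Tr.L (Pth.l (Pth.l (Pth.l Pth.z)))
def l1 : Tr := Tr.L (Pth.l (Pth.l (Pth.r (Pth.l Pth.z))))
def l2 : Tr := Tr.L (Pth.l (Pth.l (Pth.r (Pth.r Pth.z))))
def l3 : Tr := Tr.L (Pth.l (Pth.r (Pth.l (Pth.l Pth.z))))
def l4 : Tr := Tr.L (Pth.l (Pth.r (Pth.l (Pth.r Pth.z))))
def l5 : Tr := Tr.L (Pth.l (Pth.r (Pth.r (Pth.l Pth.z))))
def l6 : Tr := Tr.L (Pth.l (Pth.r (Pth.r (Pth.r Pth.z))))
def l7 : Tr := Tr.L (Pth.r (Pth.l (Pth.l Pth.z)))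
def l8 : Tr := Tr.L (Pth.r (Pth.l (Pth.r (Pth.l Pth.z))))
def l9 : Tr := Tr.L (Pth.r (Pth.l (Pth.r (Pth.r Pth.z))))
def l10 : Tr := Tr.L (Pth.r (Pth.r (Pth.l (Pth.l Pth.z))))
def l11 : Tr := Tr.L (Pth.r (Pth.r (Pth.l (Pth.r Pth.z))))
def l12 : Tr := Tr.L (Pth.r (Pth.r (Pth.r (Pth.l Pth.z))))
def l13 : Tr := Tr.L (Pth.r (Pth.r (Pth.r (Pth.r Pth.z))))
end T0
def b1_0 : Bx := Bx.mk (St.mk (I.pos (nat_lit 153223168) (nat_lit 241303552)) (I.mix (nat_lit 4800512) (nat_lit 50020352)) (I.mix (nat_lit 6766592) (nat_lit 73056256)) (I.pos (nat_lit 84901888) (nat_lit 237535232)) (I.mix (nat_lit 99532800) (nat_lit 58097664)) (I.mix (nat_lit 59768832) (nat_lit 53444608)) (I.mix (nat_lit 82034688) (nat_lit 76398592)))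
  false (nat_lit 49495804)
def b1_1 : Bx := Bx.mk (St.mk (I.mix (nat_lit 18038784) (nat_lit 151601152)) (I.mix (nat_lit 4390912) (nat_lit 23068672)) (I.mix (nat_lit 14188544) (nat_lit 15958016)) (I.mix (nat_lit 9306112) (nat_lit 96256000)) (I.mix (nat_lit 29589504) (nat_lit 26640384)) (I.mix (nat_lit 22036480) (nat_lit 17645568)) (I.mix (nat_lit 18776064) (nat_lit 13877248)))
  false (nat_lit 0)
def b1_2 : Bx := Bx.mk (St.mk (I.pos (nat_lit 114950144) (nat_lit 155303936)) (I.mix (nat_lit 38371328) (nat_lit 6701056)) (I.mix (nat_lit 47366144) (nat_lit 1654784)) (I.pos (nat_lit 49102848) (nat_lit 107905024)) (I.mix (nat_lit 75825152) (nat_lit 27885568)) (I.mix (nat_lit 27197440) (nat_lit 60620800)) (I.mix (nat_lit 23330816) (nat_lit 54198272)))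
  false (nat_lit 2213957)
def b1_3 : Bx := Bx.mk (St.mk (I.mix (nat_lit 19988480) (nat_lit 115441664)) (I.mix (nat_lit 23937024) (nat_lit 2736128)) (I.mix (nat_lit 21905408) (nat_lit 2539520)) (I.mix (nat_lit 6225920) (nat_lit 62390272)) (I.mix (nat_lit 37732352) (nat_lit 13975552)) (I.mix (nat_lit 13811712) (nat_lit 26460160)) (I.mix (nat_lit 7241728) (nat_lit 16924672)))
  false (nat_lit 0)
def b1_4 : Bx := Bx.mk (St.mk (I.pos (nat_lit 197705728) (nat_lit 273973248)) (I.mix (nat_lit 7159808) (nat_lit 32522240)) (I.mix (nat_lit 46972928) (nat_lit 39485440)) (I.pos (nat_lit 173965312) (nat_lit 308379648)) (I.mix (nat_lit 70877184) (nat_lit 43909120)) (I.mix (nat_lit 41680896) (nat_lit 34668544)) (I.mix (nat_lit 67289088) (nat_lit 58687488)))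
  false (nat_lit 32804717)
def b1_5 : Bx := Bx.mk (St.mk (I.pos (nat_lit 117440512) (nat_lit 139264000)) (I.mix (nat_lit 3571712) (nat_lit 8175616)) (I.mix (nat_lit 13008896) (nat_lit 1064960)) (I.pos (nat_lit 51576832) (nat_lit 90947584)) (I.mix (nat_lit 11059200) (nat_lit 14893056)) (I.mix (nat_lit 9371648) (nat_lit 5357568)) (I.mix (nat_lit 8732672) (nat_lit 4685824)))
  false (nat_lit 0)
def b1_6 : Bx := Bx.mk (St.mk (I.mix (nat_lit 12599296) (nat_lit 19791872)) (I.mix (nat_lit 802816) (nat_lit 2686976)) (I.mix (nat_lit 2686976) (nat_lit 802816)) (I.mix (nat_lit 2375680) (nat_lit 20054016)) (I.mix (nat_lit 2277376) (nat_lit 3489792)) (I.mix (nat_lit 1867776) (nat_lit 1835008)) (I.mix (nat_lit 671744) (nat_lit 688128)))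
  false (nat_lit 0)
def b1_7 : Bx := Bx.mk (St.mk (I.pos (nat_lit 114114560) (nat_lit 187088896)) (I.neg (nat_lit 4325376) (nat_lit 41500672)) (I.neg (nat_lit 6029312) (nat_lit 47972352)) (I.pos (nat_lit 64258048) (nat_lit 146276352)) (I.mix (nat_lit 64110592) (nat_lit 32161792)) (I.mix (nat_lit 32751616) (nat_lit 43057152)) (I.mix (nat_lit 28819456) (nat_lit 44875776)))
  false (nat_lit 39807769)
def b1_8 : Bx := Bx.mk (St.mk (I.mix (nat_lit 18464768) (nat_lit 126615552)) (I.mix (nat_lit 24363008) (nat_lit 5160960)) (I.mix (nat_lit 21708800) (nat_lit 2523136)) (I.mix (nat_lit 7127040) (nat_lit 72351744)) (I.mix (nat_lit 36618240) (nat_lit 25837568)) (I.mix (nat_lit 20414464) (nat_lit 25591808)) (I.mix (nat_lit 11616256) (nat_lit 17924096)))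
  false (nat_lit 0)
def b1_9 : Bx := Bx.mk (St.mk (I.pos (nat_lit 175161344) (nat_lit 218611712)) (I.mix (nat_lit 13139968) (nat_lit 44515328)) (I.mix (nat_lit 9699328) (nat_lit 66207744)) (I.pos (nat_lit 122552320) (nat_lit 201015296)) (I.mix (nat_lit 113033216) (nat_lit 45645824)) (I.mix (nat_lit 94617600) (nat_lit 54558720)) (I.mix (nat_lit 106479616) (nat_lit 59392000)))
  false (nat_lit 0)
def b1_10 : Bx := Bx.mk (St.mk (I.mix (nat_lit 23953408) (nat_lit 145506304)) (I.mix (nat_lit 16318464) (nat_lit 27279360)) (I.mix (nat_lit 17776640) (nat_lit 19431424)) (I.mix (nat_lit 8765440) (nat_lit 90292224)) (I.mix (nat_lit 47529984) (nat_lit 26066944)) (I.mix (nat_lit 38010880) (nat_lit 23773184)) (I.mix (nat_lit 25739264) (nat_lit 16318464)))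
  false (nat_lit 0)
def b1_11 : Bx := Bx.mk (St.mk (I.pos (nat_lit 150110208) (nat_lit 215531520)) (I.mix (nat_lit 35733504) (nat_lit 11894784)) (I.mix (nat_lit 45924352) (nat_lit 18399232)) (I.pos (nat_lit 93028352) (nat_lit 189300736)) (I.mix (nat_lit 50872320) (nat_lit 45039616)) (I.mix (nat_lit 45498368) (nat_lit 40468480)) (I.mix (nat_lit 50135040) (nat_lit 43155456)))
  false (nat_lit 68315093)
def b1_12 : Bx := Bx.mk (St.mk (I.pos (nat_lit 177422336) (nat_lit 214990848)) (I.mix (nat_lit 15679488) (nat_lit 24231936)) (I.mix (nat_lit 15007744) (nat_lit 37224448)) (I.pos (nat_lit 128040960) (nat_lit 187793408)) (I.mix (nat_lit 87474176) (nat_lit 49299456)) (I.mix (nat_lit 85327872) (nat_lit 44990464)) (I.mix (nat_lit 98320384) (nat_lit 49840128)))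
  false (nat_lit 0)
def b1_13 : Bx := Bx.mk (St.mk (I.pos (nat_lit 193396736) (nat_lit 240730112)) (I.pos (nat_lit 6504448) (nat_lit 48807936)) (I.pos (nat_lit 1753088) (nat_lit 71073792)) (I.pos (nat_lit 169689088) (nat_lit 232947712)) (I.mix (nat_lit 83476480) (nat_lit 63389696)) (I.mix (nat_lit 65847296) (nat_lit 49954816)) (I.mix (nat_lit 100597760) (nat_lit 59703296)))
  false (nat_lit 52481658)
def t1 : BTr := (BTr.n (BTr.n (BTr.n (BTr.b b1_0) (BTr.n (BTr.b b1_1) (BTr.b b1_2))) (BTr.n (BTr.n (BTr.b b1_3) (BTr.b b1_4)) (BTr.n (BTr.b b1_5) (BTr.b b1_6)))) (BTr.n (BTr.n (BTr.b b1_7) (BTr.n (BTr.b b1_8) (BTr.b b1_9))) (BTr.n (BTr.n (BTr.b b1_10) (BTr.b b1_11)) (BTr.n (BTr.b b1_12) (BTr.b b1_13)))))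
namespace T1
def l0 : Tr := Tr.L (Pth.l (Pth.l (Pth.l Pth.z)))
def l1 : Tr := Tr.L (Pth.l (Pth.l (Pth.r (Pth.l Pth.z))))
def l2 : Tr := Tr.L (Pth.l (Pth.l (Pth.r (Pth.r Pth.z))))
def l3 : Tr := Tr.L (Pth.l (Pth.r (Pth.l (Pth.l Pth.z))))
def l4 : Tr := Tr.L (Pth.l (Pth.r (Pth.l (Pth.r Pth.z))))
def l5 : Tr := Tr.L (Pth.l (Pth.r (Pth.r (Pth.l Pth.z))))
def l6 : Tr := Tr.L (Pth.l (Pth.r (Pth.r (Pth.r Pth.z))))
def l7 : Tr := Tr.L (Pth.r (Pth.l (Pth.l Pth.z)))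
def l8 : Tr := Tr.L (Pth.r (Pth.l (Pth.r (Pth.l Pth.z))))
def l9 : Tr := Tr.L (Pth.r (Pth.l (Pth.r (Pth.r Pth.z))))
def l10 : Tr := Tr.L (Pth.r (Pth.r (Pth.l (Pth.l Pth.z))))
def l11 : Tr := Tr.L (Pth.r (Pth.r (Pth.l (Pth.r Pth.z))))
def l12 : Tr := Tr.L (Pth.r (Pth.r (Pth.r (Pth.l Pth.z))))
def l13 : Tr := Tr.L (Pth.r (Pth.r (Pth.r (Pth.r Pth.z))))
end T1
def b2_0 : Bx := Bx.mk (St.mk (I.pos (nat_lit 153305088) (nat_lit 226344960)) (I.mix (nat_lit 6406144) (nat_lit 67747840)) (I.mix (nat_lit 8601600) (nat_lit 91783168)) (I.pos (nat_lit 229294080) (nat_lit 344309760)) (I.mix (nat_lit 113770496) (nat_lit 67436544)) (I.mix (nat_lit 61112320) (nat_lit 57638912)) (I.mix (nat_lit 78938112) (nat_lit 80707584)))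
  false (nat_lit 125193552)
def b2_1 : Bx := Bx.mk (St.mk (I.pos (nat_lit 17727488) (nat_lit 78659584)) (I.mix (nat_lit 12992512) (nat_lit 47382528)) (I.mix (nat_lit 28803072) (nat_lit 6438912)) (I.pos (nat_lit 141819904) (nat_lit 162234368)) (I.mix (nat_lit 33603584) (nat_lit 51068928)) (I.mix (nat_lit 37830656) (nat_lit 25772032)) (I.mix (nat_lit 20512768) (nat_lit 10371072)))
  false (nat_lit 0)
def b2_2 : Bx := Bx.mk (St.mk (I.pos (nat_lit 49922048) (nat_lit 99500032)) (I.mix (nat_lit 64749568) (nat_lit 15728640)) (I.neg (nat_lit 6864896) (nat_lit 59506688)) (I.pos (nat_lit 145948672) (nat_lit 184041472)) (I.mix (nat_lit 85508096) (nat_lit 29835264)) (I.mix (nat_lit 26902528) (nat_lit 65372160)) (I.mix (nat_lit 22577152) (nat_lit 39698432)))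
  false (nat_lit 0)
def b2_3 : Bx := Bx.mk (St.mk (I.neg (nat_lit 17727488) (nat_lit 78659584)) (I.mix (nat_lit 47382528) (nat_lit 12992512)) (I.mix (nat_lit 28803072) (nat_lit 6438912)) (I.pos (nat_lit 141819904) (nat_lit 162234368)) (I.mix (nat_lit 51068928) (nat_lit 33603584)) (I.mix (nat_lit 25772032) (nat_lit 37830656)) (I.mix (nat_lit 20512768) (nat_lit 10371072)))
  true (nat_lit 0)
def b2_4 : Bx := Bx.mk (St.mk (I.pos (nat_lit 61767680) (nat_lit 163627008)) (I.neg (nat_lit 8732672) (nat_lit 63520768)) (I.mix (nat_lit 61194240) (nat_lit 933888)) (I.pos (nat_lit 155549696) (nat_lit 238387200)) (I.mix (nat_lit 79757312) (nat_lit 42663936)) (I.mix (nat_lit 35815424) (nat_lit 51822592)) (I.mix (nat_lit 31473664) (nat_lit 44597248)))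
  false (nat_lit 0)
def b2_5 : Bx := Bx.mk (St.mk (I.mix (nat_lit 42041344) (nat_lit 12189696)) (I.mix (nat_lit 43778048) (nat_lit 11288576)) (I.mix (nat_lit 8011776) (nat_lit 3751936)) (I.pos (nat_lit 138887168) (nat_lit 154189824)) (I.mix (nat_lit 29474816) (nat_lit 39862272)) (I.mix (nat_lit 22872064) (nat_lit 32849920)) (I.mix (nat_lit 5521408) (nat_lit 6012928)))
  true (nat_lit 0)
def b2_6 : Bx := Bx.mk (St.mk (I.pos (nat_lit 146882560) (nat_lit 195395584)) (I.mix (nat_lit 1785856) (nat_lit 63586304)) (I.pos (nat_lit 8044544) (nat_lit 88555520)) (I.pos (nat_lit 227753984) (nat_lit 298647552)) (I.mix (nat_lit 125468672) (nat_lit 37601280)) (I.mix (nat_lit 101384192) (nat_lit 53067776)) (I.mix (nat_lit 96190464) (nat_lit 58982400)))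
  false (nat_lit 106992112)
def b2_7 : Bx := Bx.mk (St.mk (I.mix (nat_lit 12189696) (nat_lit 42041344)) (I.mix (nat_lit 11288576) (nat_lit 43778048)) (I.mix (nat_lit 8011776) (nat_lit 3751936)) (I.pos (nat_lit 138887168) (nat_lit 154189824)) (I.mix (nat_lit 39862272) (nat_lit 29474816)) (I.mix (nat_lit 32849920) (nat_lit 22872064)) (I.mix (nat_lit 5521408) (nat_lit 6012928)))
  false (nat_lit 0)
def b2_8 : Bx := Bx.mk (St.mk (I.pos (nat_lit 185696256) (nat_lit 292634624)) (I.mix (nat_lit 24920064) (nat_lit 50741248)) (I.mix (nat_lit 100941824) (nat_lit 57573376)) (I.pos (nat_lit 284901376) (nat_lit 454262784)) (I.mix (nat_lit 69074944) (nat_lit 60735488)) (I.mix (nat_lit 56770560) (nat_lit 38846464)) (I.mix (nat_lit 99532800) (nat_lit 69255168)))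
  false (nat_lit 121579392)
def b2_9 : Bx := Bx.mk (St.mk (I.pos (nat_lit 123420672) (nat_lit 197312512)) (I.mix (nat_lit 35422208) (nat_lit 22806528)) (I.mix (nat_lit 32423936) (nat_lit 37552128)) (I.pos (nat_lit 198836224) (nat_lit 287031296)) (I.mix (nat_lit 46776320) (nat_lit 46284800)) (I.mix (nat_lit 42778624) (nat_lit 38469632)) (I.mix (nat_lit 40632320) (nat_lit 36503552)))
  false (nat_lit 0)
def b2_10 : Bx := Bx.mk (St.mk (I.pos (nat_lit 150241280) (nat_lit 197623808)) (I.mix (nat_lit 8568832) (nat_lit 42762240)) (I.mix (nat_lit 5308416) (nat_lit 65634304)) (I.pos (nat_lit 233947136) (nat_lit 291356672)) (I.mix (nat_lit 110821376) (nat_lit 55689216)) (I.mix (nat_lit 101580800) (nat_lit 48513024)) (I.mix (nat_lit 99467264) (nat_lit 49823744)))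
  false (nat_lit 66996923)
def b2_11 : Bx := Bx.mk (St.mk (I.pos (nat_lit 172032000) (nat_lit 228933632)) (I.pos (nat_lit 20807680) (nat_lit 65568768)) (I.pos (nat_lit 16023552) (nat_lit 85360640)) (I.pos (nat_lit 276774912) (nat_lit 336265216)) (I.mix (nat_lit 99450880) (nat_lit 73416704)) (I.mix (nat_lit 72564736) (nat_lit 54165504)) (I.mix (nat_lit 106610688) (nat_lit 73023488)))
  false (nat_lit 111536321)
def t2 : BTr := (BTr.n (BTr.n (BTr.n (BTr.b b2_0) (BTr.n (BTr.b b2_1) (BTr.b b2_2))) (BTr.n (BTr.b b2_3) (BTr.n (BTr.b b2_4) (BTr.b b2_5)))) (BTr.n (BTr.n (BTr.b b2_6) (BTr.n (BTr.b b2_7) (BTr.b b2_8))) (BTr.n (BTr.b b2_9) (BTr.n (BTr.b b2_10) (BTr.b b2_11)))))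
namespace T2
def l0 : Tr := Tr.L (Pth.l (Pth.l (Pth.l Pth.z)))
def l1 : Tr := Tr.L (Pth.l (Pth.l (Pth.r (Pth.l Pth.z))))
def l2 : Tr := Tr.L (Pth.l (Pth.l (Pth.r (Pth.r Pth.z))))
def l3 : Tr := Tr.L (Pth.l (Pth.r (Pth.l Pth.z)))
def l4 : Tr := Tr.L (Pth.l (Pth.r (Pth.r (Pth.l Pth.z))))
def l5 : Tr := Tr.L (Pth.l (Pth.r (Pth.r (Pth.r Pth.z))))
def l6 : Tr := Tr.L (Pth.r (Pth.l (Pth.l Pth.z)))
def l7 : Tr := Tr.L (Pth.r (Pth.l (Pth.r (Pth.l Pth.z))))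
def l8 : Tr := Tr.L (Pth.r (Pth.l (Pth.r (Pth.r Pth.z))))
def l9 : Tr := Tr.L (Pth.r (Pth.r (Pth.l Pth.z)))
def l10 : Tr := Tr.L (Pth.r (Pth.r (Pth.r (Pth.l Pth.z))))
def l11 : Tr := Tr.L (Pth.r (Pth.r (Pth.r (Pth.r Pth.z))))
end T2
def b3_0 : Bx := Bx.mk (St.mk (I.pos (nat_lit 153288704) (nat_lit 240549888)) (I.mix (nat_lit 4177920) (nat_lit 43220992)) (I.mix (nat_lit 9453568) (nat_lit 101171200)) (I.pos (nat_lit 85475328) (nat_lit 214040576)) (I.mix (nat_lit 103137280) (nat_lit 62652416)) (I.mix (nat_lit 72974336) (nat_lit 66420736)) (I.mix (nat_lit 102596608) (nat_lit 86867968)))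
  false (nat_lit 56702689)
def b3_1 : Bx := Bx.mk (St.mk (I.pos (nat_lit 121356288) (nat_lit 188825600)) (I.neg (nat_lit 7438336) (nat_lit 46743552)) (I.mix (nat_lit 36782080) (nat_lit 5947392)) (I.pos (nat_lit 70238208) (nat_lit 146194432)) (I.mix (nat_lit 58474496) (nat_lit 34652160)) (I.mix (nat_lit 30998528) (nat_lit 38617088)) (I.mix (nat_lit 27803648) (nat_lit 38649856)))
  false (nat_lit 48222325)
def b3_2 : Bx := Bx.mk (St.mk (I.mix (nat_lit 16187392) (nat_lit 124583936)) (I.mix (nat_lit 24838144) (nat_lit 2818048)) (I.mix (nat_lit 12926976) (nat_lit 7045120)) (I.mix (nat_lit 6930432) (nat_lit 70189056)) (I.mix (nat_lit 26935296) (nat_lit 22003712)) (I.mix (nat_lit 14614528) (nat_lit 17498112)) (I.mix (nat_lit 9273344) (nat_lit 12091392)))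
  false (nat_lit 3071142)
def b3_3 : Bx := Bx.mk (St.mk (I.pos (nat_lit 169459712) (nat_lit 210108416)) (I.mix (nat_lit 13910016) (nat_lit 38289408)) (I.pos (nat_lit 9650176) (nat_lit 82247680)) (I.pos (nat_lit 108888064) (nat_lit 175407104)) (I.mix (nat_lit 115507200) (nat_lit 42942464)) (I.mix (nat_lit 99631104) (nat_lit 46219264)) (I.mix (nat_lit 115818496) (nat_lit 41598976)))
  false (nat_lit 58121378)
def b3_4 : Bx := Bx.mk (St.mk (I.mix (nat_lit 23035904) (nat_lit 140754944)) (I.mix (nat_lit 11943936) (nat_lit 25362432)) (I.mix (nat_lit 3260416) (nat_lit 29769728)) (I.mix (nat_lit 8159232) (nat_lit 83607552)) (I.mix (nat_lit 54378496) (nat_lit 24035328)) (I.mix (nat_lit 43155456) (nat_lit 21266432)) (I.mix (nat_lit 31801344) (nat_lit 12435456)))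
  false (nat_lit 13499741)
def b3_5 : Bx := Bx.mk (St.mk (I.pos (nat_lit 158023680) (nat_lit 213041152)) (I.mix (nat_lit 30621696) (nat_lit 8650752)) (I.mix (nat_lit 14548992) (nat_lit 40812544)) (I.pos (nat_lit 97009664) (nat_lit 176848896)) (I.mix (nat_lit 49201152) (nat_lit 54476800)) (I.mix (nat_lit 45383680) (nat_lit 45694976)) (I.mix (nat_lit 44204032) (nat_lit 47775744)))
  false (nat_lit 70584205)
def b3_6 : Bx := Bx.mk (St.mk (I.pos (nat_lit 158597120) (nat_lit 184877056)) (I.neg (nat_lit 9404416) (nat_lit 35586048)) (I.mix (nat_lit 21528576) (nat_lit 7012352)) (I.pos (nat_lit 99762176) (nat_lit 144015360)) (I.mix (nat_lit 23085056) (nat_lit 20758528)) (I.mix (nat_lit 11321344) (nat_lit 14024704)) (I.mix (nat_lit 10551296) (nat_lit 14974976)))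
  false (nat_lit 0)
def b3_7 : Bx := Bx.mk (St.mk (I.mix (nat_lit 50495488) (nat_lit 129859584)) (I.mix (nat_lit 13352960) (nat_lit 1851392)) (I.mix (nat_lit 4046848) (nat_lit 8093696)) (I.mix (nat_lit 14467072) (nat_lit 72597504)) (I.mix (nat_lit 8896512) (nat_lit 13533184)) (I.mix (nat_lit 5259264) (nat_lit 7389184)) (I.mix (nat_lit 3244032) (nat_lit 5406720)))
  false (nat_lit 0)
def b3_8 : Bx := Bx.mk (St.mk (I.pos (nat_lit 57868288) (nat_lit 148045824)) (I.mix (nat_lit 7962624) (nat_lit 21757952)) (I.mix (nat_lit 2031616) (nat_lit 27492352)) (I.pos (nat_lit 13107200) (nat_lit 96534528)) (I.mix (nat_lit 40878080) (nat_lit 29638656)) (I.mix (nat_lit 29818880) (nat_lit 23724032)) (I.mix (nat_lit 24936448) (nat_lit 17334272)))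
  false (nat_lit 2876700)
def b3_9 : Bx := Bx.mk (St.mk (I.pos (nat_lit 114376704) (nat_lit 162660352)) (I.mix (nat_lit 44089344) (nat_lit 12304384)) (I.mix (nat_lit 36077568) (nat_lit 21168128)) (I.pos (nat_lit 48660480) (nat_lit 114786304)) (I.mix (nat_lit 71860224) (nat_lit 36306944)) (I.mix (nat_lit 26394624) (nat_lit 58540032)) (I.mix (nat_lit 22429696) (nat_lit 50118656)))
  false (nat_lit 32658518)
def b3_10 : Bx := Bx.mk (St.mk (I.mix (nat_lit 34701312) (nat_lit 119455744)) (I.mix (nat_lit 26607616) (nat_lit 6766592)) (I.mix (nat_lit 13828096) (nat_lit 9715712)) (I.mix (nat_lit 7274496) (nat_lit 64995328)) (I.mix (nat_lit 31834112) (nat_lit 16711680)) (I.mix (nat_lit 14761984) (nat_lit 23298048)) (I.mix (nat_lit 7995392) (nat_lit 13074432)))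
  false (nat_lit 0)
def b3_11 : Bx := Bx.mk (St.mk (I.pos (nat_lit 193429504) (nat_lit 293666816)) (I.mix (nat_lit 24788992) (nat_lit 33243136)) (I.mix (nat_lit 27066368) (nat_lit 83050496)) (I.pos (nat_lit 152338432) (nat_lit 336199680)) (I.mix (nat_lit 70909952) (nat_lit 54214656)) (I.mix (nat_lit 51331072) (nat_lit 39534592)) (I.mix (nat_lit 86605824) (nat_lit 65781760)))
  false (nat_lit 85072870)
def b3_12 : Bx := Bx.mk (St.mk (I.pos (nat_lit 183730176) (nat_lit 232554496)) (I.pos (nat_lit 10731520) (nat_lit 40435712)) (I.pos (nat_lit 37339136) (nat_lit 91455488)) (I.pos (nat_lit 148291584) (nat_lit 203210752)) (I.mix (nat_lit 86016000) (nat_lit 67649536)) (I.mix (nat_lit 74039296) (nat_lit 54018048)) (I.mix (nat_lit 108789760) (nat_lit 69697536)))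
  false (nat_lit 73517223)
def b3_13 : Bx := Bx.mk (St.mk (I.pos (nat_lit 170344448) (nat_lit 210370560)) (I.mix (nat_lit 19202048) (nat_lit 18448384)) (I.pos (nat_lit 4685824) (nat_lit 55083008)) (I.pos (nat_lit 109297664) (nat_lit 174145536)) (I.mix (nat_lit 93782016) (nat_lit 52576256)) (I.mix (nat_lit 89554944) (nat_lit 39845888)) (I.mix (nat_lit 103251968) (nat_lit 36880384)))
  false (nat_lit 67899726)
def t3 : BTr := (BTr.n (BTr.n (BTr.n (BTr.b b3_0) (BTr.n (BTr.b b3_1) (BTr.b b3_2))) (BTr.n (BTr.n (BTr.b b3_3) (BTr.b b3_4)) (BTr.n (BTr.b b3_5) (BTr.b b3_6)))) (BTr.n (BTr.n (BTr.b b3_7) (BTr.n (BTr.b b3_8) (BTr.b b3_9))) (BTr.n (BTr.n (BTr.b b3_10) (BTr.b b3_11)) (BTr.n (BTr.b b3_12) (BTr.b b3_13)))))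
namespace T3
def l0 : Tr := Tr.L (Pth.l (Pth.l (Pth.l Pth.z)))
def l1 : Tr := Tr.L (Pth.l (Pth.l (Pth.r (Pth.l Pth.z))))
def l2 : Tr := Tr.L (Pth.l (Pth.l (Pth.r (Pth.r Pth.z))))
def l3 : Tr := Tr.L (Pth.l (Pth.r (Pth.l (Pth.l Pth.z))))
def l4 : Tr := Tr.L (Pth.l (Pth.r (Pth.l (Pth.r Pth.z))))
def l5 : Tr := Tr.L (Pth.l (Pth.r (Pth.r (Pth.l Pth.z))))
def l6 : Tr := Tr.L (Pth.l (Pth.r (Pth.r (Pth.r Pth.z))))
def l7 : Tr := Tr.L (Pth.r (Pth.l (Pth.l Pth.z)))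
def l8 : Tr := Tr.L (Pth.r (Pth.l (Pth.r (Pth.l Pth.z))))
def l9 : Tr := Tr.L (Pth.r (Pth.l (Pth.r (Pth.r Pth.z))))
def l10 : Tr := Tr.L (Pth.r (Pth.r (Pth.l (Pth.l Pth.z))))
def l11 : Tr := Tr.L (Pth.r (Pth.r (Pth.l (Pth.r Pth.z))))
def l12 : Tr := Tr.L (Pth.r (Pth.r (Pth.r (Pth.l Pth.z))))
def l13 : Tr := Tr.L (Pth.r (Pth.r (Pth.r (Pth.r Pth.z))))
end T3
def b4_0 : Bx := Bx.mk (St.mk (I.pos (nat_lit 146718720) (nat_lit 225591296)) (I.mix (nat_lit 6275072) (nat_lit 66306048)) (I.mix (nat_lit 9338880) (nat_lit 99926016)) (I.pos (nat_lit 228458496) (nat_lit 337641472)) (I.mix (nat_lit 120209408) (nat_lit 70205440)) (I.mix (nat_lit 67551232) (nat_lit 60342272)) (I.mix (nat_lit 83427328) (nat_lit 83623936)))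
  false (nat_lit 158097794)
def b4_1 : Bx := Bx.mk (St.mk (I.pos (nat_lit 65224704) (nat_lit 165019648)) (I.neg (nat_lit 6586368) (nat_lit 65486848)) (I.mix (nat_lit 56705024) (nat_lit 9289728)) (I.pos (nat_lit 159629312) (nat_lit 239124480)) (I.mix (nat_lit 74629120) (nat_lit 47562752)) (I.mix (nat_lit 35323904) (nat_lit 51298304)) (I.mix (nat_lit 30654464) (nat_lit 43991040)))
  false (nat_lit 0)
def b4_2 : Bx := Bx.mk (St.mk (I.mix (nat_lit 39698432) (nat_lit 12599296)) (I.mix (nat_lit 44040192) (nat_lit 11649024)) (I.mix (nat_lit 2768896) (nat_lit 8798208)) (I.pos (nat_lit 138903552) (nat_lit 153665536)) (I.mix (nat_lit 26771456) (nat_lit 43089920)) (I.mix (nat_lit 21184512) (nat_lit 33931264)) (I.mix (nat_lit 5177344) (nat_lit 6127616)))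
  true (nat_lit 0)
def b4_3 : Bx := Bx.mk (St.mk (I.pos (nat_lit 145129472) (nat_lit 193249280)) (I.mix (nat_lit 1769472) (nat_lit 62324736)) (I.pos (nat_lit 15794176) (nat_lit 95993856)) (I.pos (nat_lit 223379456) (nat_lit 292454400)) (I.mix (nat_lit 125042688) (nat_lit 34455552)) (I.mix (nat_lit 98992128) (nat_lit 48496640)) (I.mix (nat_lit 94961664) (nat_lit 53313536)))
  false (nat_lit 122551532)
def b4_4 : Bx := Bx.mk (St.mk (I.mix (nat_lit 12582912) (nat_lit 39698432)) (I.mix (nat_lit 11649024) (nat_lit 44040192)) (I.mix (nat_lit 2768896) (nat_lit 8798208)) (I.pos (nat_lit 138903552) (nat_lit 153665536)) (I.mix (nat_lit 43089920) (nat_lit 26771456)) (I.mix (nat_lit 33931264) (nat_lit 21184512)) (I.mix (nat_lit 5177344) (nat_lit 6127616)))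
  false (nat_lit 0)
def b4_5 : Bx := Bx.mk (St.mk (I.pos (nat_lit 15433728) (nat_lit 78495744)) (I.mix (nat_lit 12189696) (nat_lit 46989312)) (I.mix (nat_lit 23166976) (nat_lit 11419648)) (I.pos (nat_lit 141967360) (nat_lit 162136064)) (I.mix (nat_lit 35323904) (nat_lit 45301760)) (I.mix (nat_lit 35799040) (nat_lit 27279360)) (I.mix (nat_lit 19382272) (nat_lit 12189696)))
  false (nat_lit 0)
def b4_6 : Bx := Bx.mk (St.mk (I.pos (nat_lit 50544640) (nat_lit 101007360)) (I.mix (nat_lit 65929216) (nat_lit 15253504)) (I.neg (nat_lit 2277376) (nat_lit 54722560)) (I.pos (nat_lit 146751488) (nat_lit 185860096)) (I.mix (nat_lit 84934656) (nat_lit 30818304)) (I.mix (nat_lit 29818880) (nat_lit 61276160)) (I.mix (nat_lit 24887296) (nat_lit 36438016)))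
  false (nat_lit 0)
def b4_7 : Bx := Bx.mk (St.mk (I.neg (nat_lit 15433728) (nat_lit 78495744)) (I.mix (nat_lit 46989312) (nat_lit 12189696)) (I.mix (nat_lit 23166976) (nat_lit 11419648)) (I.pos (nat_lit 141967360) (nat_lit 162136064)) (I.mix (nat_lit 45301760) (nat_lit 35323904)) (I.mix (nat_lit 27279360) (nat_lit 35799040)) (I.mix (nat_lit 19382272) (nat_lit 12189696)))
  true (nat_lit 0)
def b4_8 : Bx := Bx.mk (St.mk (I.pos (nat_lit 121700352) (nat_lit 193413120)) (I.mix (nat_lit 36782080) (nat_lit 20152320)) (I.mix (nat_lit 26591232) (nat_lit 44236800)) (I.pos (nat_lit 197771264) (nat_lit 280903680)) (I.mix (nat_lit 54755328) (nat_lit 46317568)) (I.mix (nat_lit 41336832) (nat_lit 37126144)) (I.mix (nat_lit 38797312) (nat_lit 35160064)))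
  false (nat_lit 899476)
def b4_9 : Bx := Bx.mk (St.mk (I.pos (nat_lit 183844864) (nat_lit 291586048)) (I.mix (nat_lit 20611072) (nat_lit 51068928)) (I.mix (nat_lit 78184448) (nat_lit 70123520)) (I.pos (nat_lit 282722304) (nat_lit 449478656)) (I.mix (nat_lit 71729152) (nat_lit 61390848)) (I.mix (nat_lit 56754176) (nat_lit 36864000)) (I.mix (nat_lit 97484800) (nat_lit 60604416)))
  false (nat_lit 142484780)
def b4_10 : Bx := Bx.mk (St.mk (I.pos (nat_lit 168148992) (nat_lit 216956928)) (I.pos (nat_lit 24903680) (nat_lit 62488576)) (I.pos (nat_lit 32440320) (nat_lit 91029504)) (I.pos (nat_lit 270974976) (nat_lit 321912832)) (I.mix (nat_lit 102416384) (nat_lit 72695808)) (I.mix (nat_lit 74498048) (nat_lit 54788096)) (I.mix (nat_lit 106627072) (nat_lit 70041600)))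
  false (nat_lit 96117158)
def b4_11 : Bx := Bx.mk (St.mk (I.pos (nat_lit 146948096) (nat_lit 196067328)) (I.mix (nat_lit 7766016) (nat_lit 42123264)) (I.pos (nat_lit 5292032) (nat_lit 73236480)) (I.pos (nat_lit 227262464) (nat_lit 287457280)) (I.mix (nat_lit 118915072) (nat_lit 56737792)) (I.mix (nat_lit 106889216) (nat_lit 48103424)) (I.mix (nat_lit 105021440) (nat_lit 48873472)))
  false (nat_lit 83151306)
def t4 : BTr := (BTr.n (BTr.n (BTr.n (BTr.b b4_0) (BTr.n (BTr.b b4_1) (BTr.b b4_2))) (BTr.n (BTr.b b4_3) (BTr.n (BTr.b b4_4) (BTr.b b4_5)))) (BTr.n (BTr.n (BTr.b b4_6) (BTr.n (BTr.b b4_7) (BTr.b b4_8))) (BTr.n (BTr.b b4_9) (BTr.n (BTr.b b4_10) (BTr.b b4_11)))))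
namespace T4
def l0 : Tr := Tr.L (Pth.l (Pth.l (Pth.l Pth.z)))
def l1 : Tr := Tr.L (Pth.l (Pth.l (Pth.r (Pth.l Pth.z))))
def l2 : Tr := Tr.L (Pth.l (Pth.l (Pth.r (Pth.r Pth.z))))
def l3 : Tr := Tr.L (Pth.l (Pth.r (Pth.l Pth.z)))
def l4 : Tr := Tr.L (Pth.l (Pth.r (Pth.r (Pth.l Pth.z))))
def l5 : Tr := Tr.L (Pth.l (Pth.r (Pth.r (Pth.r Pth.z))))
def l6 : Tr := Tr.L (Pth.r (Pth.l (Pth.l Pth.z)))
def l7 : Tr := Tr.L (Pth.r (Pth.l (Pth.r (Pth.l Pth.z))))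
def l8 : Tr := Tr.L (Pth.r (Pth.l (Pth.r (Pth.r Pth.z))))
def l9 : Tr := Tr.L (Pth.r (Pth.r (Pth.l Pth.z)))
def l10 : Tr := Tr.L (Pth.r (Pth.r (Pth.r (Pth.l Pth.z))))
def l11 : Tr := Tr.L (Pth.r (Pth.r (Pth.r (Pth.r Pth.z))))
end T4
def b5_0 : Bx := Bx.mk (St.mk (I.pos (nat_lit 153583616) (nat_lit 237355008)) (I.mix (nat_lit 4423680) (nat_lit 45940736)) (I.mix (nat_lit 9846784) (nat_lit 105529344)) (I.pos (nat_lit 104808448) (nat_lit 228507648)) (I.mix (nat_lit 108036096) (nat_lit 64684032)) (I.mix (nat_lit 75726848) (nat_lit 67665920)) (I.mix (nat_lit 103350272) (nat_lit 84705280)))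
  false (nat_lit 61659753)
def b5_1 : Bx := Bx.mk (St.mk (I.pos (nat_lit 114245632) (nat_lit 185565184)) (I.neg (nat_lit 8470528) (nat_lit 50511872)) (I.mix (nat_lit 37814272) (nat_lit 10960896)) (I.pos (nat_lit 81723392) (nat_lit 161513472)) (I.mix (nat_lit 62177280) (nat_lit 37191680)) (I.mix (nat_lit 30507008) (nat_lit 39616512)) (I.mix (nat_lit 27688960) (nat_lit 38404096)))
  false (nat_lit 49103278)
def b5_2 : Bx := Bx.mk (St.mk (I.mix (nat_lit 22396928) (nat_lit 110641152)) (I.mix (nat_lit 26984448) (nat_lit 2375680)) (I.mix (nat_lit 11091968) (nat_lit 9486336)) (I.pos (nat_lit 12075008) (nat_lit 78282752)) (I.mix (nat_lit 26869760) (nat_lit 24969216)) (I.mix (nat_lit 15679488) (nat_lit 19202048)) (I.mix (nat_lit 8126464) (nat_lit 11780096)))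
  false (nat_lit 0)
def b5_3 : Bx := Bx.mk (St.mk (I.pos (nat_lit 164675584) (nat_lit 207798272)) (I.mix (nat_lit 11927552) (nat_lit 42434560)) (I.pos (nat_lit 15073280) (nat_lit 89997312)) (I.pos (nat_lit 120979456) (nat_lit 190693376)) (I.mix (nat_lit 120209408) (nat_lit 39272448)) (I.mix (nat_lit 95518720) (nat_lit 49070080)) (I.mix (nat_lit 116703232) (nat_lit 40714240)))
  false (nat_lit 60674732)
def b5_4 : Bx := Bx.mk (St.mk (I.mix (nat_lit 33210368) (nat_lit 128925696)) (I.mix (nat_lit 12107776) (nat_lit 27377664)) (I.mix (nat_lit 2555904) (nat_lit 31440896)) (I.pos (nat_lit 10960896) (nat_lit 91422720)) (I.mix (nat_lit 55099392) (nat_lit 23068672)) (I.mix (nat_lit 42270720) (nat_lit 21184512)) (I.mix (nat_lit 27770880) (nat_lit 11763712)))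
  false (nat_lit 1516917)
def b5_5 : Bx := Bx.mk (St.mk (I.pos (nat_lit 152748032) (nat_lit 209846272)) (I.mix (nat_lit 31391744) (nat_lit 9682944)) (I.mix (nat_lit 10518528) (nat_lit 46022656)) (I.pos (nat_lit 112361472) (nat_lit 189284352)) (I.mix (nat_lit 50446336) (nat_lit 53657600)) (I.mix (nat_lit 46120960) (nat_lit 44433408)) (I.mix (nat_lit 45367296) (nat_lit 45154304)))
  false (nat_lit 73989156)
def b5_6 : Bx := Bx.mk (St.mk (I.mix (nat_lit 35192832) (nat_lit 138674176)) (I.mix (nat_lit 15581184) (nat_lit 3325952)) (I.mix (nat_lit 2048000) (nat_lit 10649600)) (I.pos (nat_lit 11698176) (nat_lit 88424448)) (I.mix (nat_lit 8388608) (nat_lit 13942784)) (I.mix (nat_lit 5521408) (nat_lit 7372800)) (I.mix (nat_lit 3276800) (nat_lit 4898816)))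
  false (nat_lit 0)
def b5_7 : Bx := Bx.mk (St.mk (I.mix (nat_lit 54280192) (nat_lit 145899520)) (I.mix (nat_lit 8863744) (nat_lit 24133632)) (I.mix (nat_lit 2064384) (nat_lit 28327936)) (I.mix (nat_lit 573440) (nat_lit 106430464)) (I.mix (nat_lit 43515904) (nat_lit 31637504)) (I.mix (nat_lit 31244288) (nat_lit 24576000)) (I.mix (nat_lit 24690688) (nat_lit 16793600)))
  false (nat_lit 3638748)
def b5_8 : Bx := Bx.mk (St.mk (I.pos (nat_lit 107347968) (nat_lit 152879104)) (I.mix (nat_lit 49266688) (nat_lit 11943936)) (I.mix (nat_lit 37044224) (nat_lit 20529152)) (I.pos (nat_lit 58441728) (nat_lit 126091264)) (I.mix (nat_lit 68157440) (nat_lit 32882688)) (I.mix (nat_lit 27541504) (nat_lit 52412416)) (I.mix (nat_lit 21200896) (nat_lit 40927232)))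
  false (nat_lit 42874992)
def b5_9 : Bx := Bx.mk (St.mk (I.mix (nat_lit 27836416) (nat_lit 121323520)) (I.mix (nat_lit 28704768) (nat_lit 7438336)) (I.mix (nat_lit 11141120) (nat_lit 9469952)) (I.pos (nat_lit 12304384) (nat_lit 77889536)) (I.mix (nat_lit 30965760) (nat_lit 18497536)) (I.mix (nat_lit 15417344) (nat_lit 23052288)) (I.mix (nat_lit 7651328) (nat_lit 11255808)))
  false (nat_lit 0)
def b5_10 : Bx := Bx.mk (St.mk (I.pos (nat_lit 153698304) (nat_lit 181010432)) (I.neg (nat_lit 10321920) (nat_lit 36601856)) (I.mix (nat_lit 18644992) (nat_lit 11616256)) (I.pos (nat_lit 111984640) (nat_lit 156942336)) (I.mix (nat_lit 27443200) (nat_lit 23674880)) (I.mix (nat_lit 13631488) (nat_lit 15056896)) (I.mix (nat_lit 12238848) (nat_lit 15089664)))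
  false (nat_lit 0)
def b5_11 : Bx := Bx.mk (St.mk (I.pos (nat_lit 167002112) (nat_lit 208093184)) (I.mix (nat_lit 16596992) (nat_lit 20086784)) (I.pos (nat_lit 11796480) (nat_lit 60801024)) (I.pos (nat_lit 120733696) (nat_lit 186761216)) (I.mix (nat_lit 94945280) (nat_lit 50774016)) (I.mix (nat_lit 90210304) (nat_lit 40042496)) (I.mix (nat_lit 101941248) (nat_lit 37863424)))
  false (nat_lit 72834493)
def b5_12 : Bx := Bx.mk (St.mk (I.pos (nat_lit 193134592) (nat_lit 289652736)) (I.mix (nat_lit 25903104) (nat_lit 36028416)) (I.mix (nat_lit 28098560) (nat_lit 89276416)) (I.pos (nat_lit 168427520) (nat_lit 343834624)) (I.mix (nat_lit 70549504) (nat_lit 57573376)) (I.mix (nat_lit 52690944) (nat_lit 36454400)) (I.mix (nat_lit 88358912) (nat_lit 57491456)))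
  false (nat_lit 98979822)
def b5_13 : Bx := Bx.mk (St.mk (I.pos (nat_lit 179863552) (nat_lit 229720064)) (I.pos (nat_lit 12222464) (nat_lit 41992192)) (I.pos (nat_lit 40681472) (nat_lit 95207424)) (I.pos (nat_lit 159760384) (nat_lit 216236032)) (I.mix (nat_lit 88997888) (nat_lit 68222976)) (I.mix (nat_lit 77381632) (nat_lit 52772864)) (I.mix (nat_lit 112590848) (nat_lit 65257472)))
  false (nat_lit 70327797)
def t5 : BTr := (BTr.n (BTr.n (BTr.n (BTr.b b5_0) (BTr.n (BTr.b b5_1) (BTr.b b5_2))) (BTr.n (BTr.n (BTr.b b5_3) (BTr.b b5_4)) (BTr.n (BTr.b b5_5) (BTr.b b5_6)))) (BTr.n (BTr.n (BTr.b b5_7) (BTr.n (BTr.b b5_8) (BTr.b b5_9))) (BTr.n (BTr.n (BTr.b b5_10) (BTr.b b5_11)) (BTr.n (BTr.b b5_12) (BTr.b b5_13)))))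
namespace T5
def l0 : Tr := Tr.L (Pth.l (Pth.l (Pth.l Pth.z)))
def l1 : Tr := Tr.L (Pth.l (Pth.l (Pth.r (Pth.l Pth.z))))
def l2 : Tr := Tr.L (Pth.l (Pth.l (Pth.r (Pth.r Pth.z))))
def l3 : Tr := Tr.L (Pth.l (Pth.r (Pth.l (Pth.l Pth.z))))
def l4 : Tr := Tr.L (Pth.l (Pth.r (Pth.l (Pth.r Pth.z))))
def l5 : Tr := Tr.L (Pth.l (Pth.r (Pth.r (Pth.l Pth.z))))
def l6 : Tr := Tr.L (Pth.l (Pth.r (Pth.r (Pth.r Pth.z))))
def l7 : Tr := Tr.L (Pth.r (Pth.l (Pth.l Pth.z)))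
def l8 : Tr := Tr.L (Pth.r (Pth.l (Pth.r (Pth.l Pth.z))))
def l9 : Tr := Tr.L (Pth.r (Pth.l (Pth.r (Pth.r Pth.z))))
def l10 : Tr := Tr.L (Pth.r (Pth.r (Pth.l (Pth.l Pth.z))))
def l11 : Tr := Tr.L (Pth.r (Pth.r (Pth.l (Pth.r Pth.z))))
def l12 : Tr := Tr.L (Pth.r (Pth.r (Pth.r (Pth.l Pth.z))))
def l13 : Tr := Tr.L (Pth.r (Pth.r (Pth.r (Pth.r Pth.z))))
end T5
theorem bx0_0 : BoxOK sI cl5 cl9 cl13 t2 t4 b0_0 :=
  box_mk (TrL.c (I.pos (nat_lit 0) (nat_lit 0)) (xa (xb (xa T2.l11 (xb T2.l0 T2.l0)) (xa (xb (xa T2.l0 T2.l0) (xa (xb T2.l0 T2.l0) T2.l0)) (xb T2.l0 (xa T2.l0 T2.l0)))) (xb (xa (xb T2.l0 T2.l0) (xb T2.l0 T2.l0)) (xa (xb T2.l0 (xa T2.l0 T2.l0)) (xb (xa T2.l0 T2.l0) (xa T2.l0 (xs T2.l0 T2.l0))))))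
  (TrL.c (I.pos (nat_lit 0) (nat_lit 0)) (xa (xb T4.l1 (xa T4.l1 T4.l1)) (xb T4.l1 (xa T4.l1 T4.l1)))
  (TrL.c (I.pos (nat_lit 0) (nat_lit 0)) (xa T2.l1 T2.l1)
  (TrL.c (I.pos (nat_lit 0) (nat_lit 0)) T4.l2
  (TrL.c (I.pos (nat_lit 0) (nat_lit 0)) (xa (xb T4.l11 (xa T4.l3 T4.l3)) (xb (xa (xb T4.l3 T4.l3) (xb T4.l3 T4.l3)) (xa T4.l3 (xb T4.l3 T4.l3))))
  (TrL.c (I.pos (nat_lit 0) (nat_lit 0)) (xa T2.l2 (xb T2.l4 T2.l2))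
  (TrL.c (I.pos (nat_lit 0) (nat_lit 0)) T4.l4
  (TrL.c (I.pos (nat_lit 0) (nat_lit 0)) (xa T2.l3 T2.l3)
  TrL.n)))))))) (by decide +kernel)
theorem bx0_1 : BoxOK sI cl5 cl9 cl13 t2 t4 b0_1 :=
  box_mk (TrL.c (I.pos (nat_lit 0) (nat_lit 0)) (xa (xa (xb T2.l8 T2.l8) T2.l8) (xa T2.l8 (xa T2.l8 T2.l8)))
  (TrL.c (I.pos (nat_lit 0) (nat_lit 0)) T4.l1
  (TrL.c (I.pos (nat_lit 0) (nat_lit 0)) (xa T2.l1 T2.l1)
  (TrL.c (I.pos (nat_lit 0) (nat_lit 0)) T4.l2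
  (TrL.c (I.pos (nat_lit 0) (nat_lit 0)) (xa T4.l8 T4.l8)
  (TrL.c (I.pos (nat_lit 0) (nat_lit 0)) (xa T2.l2 T2.l2)
  (TrL.c (I.pos (nat_lit 0) (nat_lit 0)) T4.l4
  (TrL.c (I.pos (nat_lit 0) (nat_lit 0)) (xa T2.l3 T2.l3)
  TrL.n)))))))) (by decide +kernel)
theorem bx0_2 : BoxOK sI cl5 cl9 cl13 t2 t4 b0_2 :=
  box_mk (TrL.c (I.pos (nat_lit 0) (nat_lit 0)) (xb T2.l8 T2.l8)
  (TrL.c (I.pos (nat_lit 0) (nat_lit 0)) T4.l1
  (TrL.c (I.pos (nat_lit 0) (nat_lit 0)) T2.l1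
  (TrL.c (I.pos (nat_lit 0) (nat_lit 0)) T4.l2
  (TrL.c (I.pos (nat_lit 0) (nat_lit 0)) (xb T4.l8 T4.l8)
  (TrL.c (I.pos (nat_lit 0) (nat_lit 0)) T2.l2
  (TrL.c (I.pos (nat_lit 0) (nat_lit 0)) T4.l4
  (TrL.c (I.pos (nat_lit 0) (nat_lit 0)) T2.l3
  TrL.n)))))))) (by decide +kernel)
theorem bx0_3 : BoxOK sI cl5 cl9 cl13 t2 t4 b0_3 :=
  box_mk (TrL.c (I.pos (nat_lit 0) (nat_lit 0)) (xa (xa (xb (xa T2.l8 T2.l8) T2.l8) T2.l8) T2.l8)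
  (TrL.c (I.pos (nat_lit 0) (nat_lit 0)) (xa T4.l1 T4.l1)
  (TrL.c (I.pos (nat_lit 0) (nat_lit 0)) T2.l1
  (TrL.c (I.pos (nat_lit 0) (nat_lit 0)) T4.l2
  (TrL.c (I.pos (nat_lit 0) (nat_lit 0)) (xa T4.l1 T4.l8)
  (TrL.c (I.pos (nat_lit 0) (nat_lit 0)) T2.l2
  (TrL.c (I.pos (nat_lit 0) (nat_lit 0)) T4.l4
  (TrL.c (I.pos (nat_lit 0) (nat_lit 0)) T2.l3
  TrL.n)))))))) (by decide +kernel)
theorem bx0_4 : BoxOK sI cl5 cl9 cl13 t2 t4 b0_4 :=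
  box_mk (TrL.c (I.pos (nat_lit 0) (nat_lit 0)) (xa (xb T2.l0 (xa T2.l0 T2.l0)) (xa (xb T2.l0 T2.l0) (xb T2.l6 (xa T2.l6 T2.l6))))
  (TrL.c (I.pos (nat_lit 0) (nat_lit 0)) (xa T4.l1 (xb T4.l1 (xa T4.l1 T4.l1)))
  (TrL.c (I.pos (nat_lit 0) (nat_lit 0)) T2.l1
  (TrL.c (I.pos (nat_lit 0) (nat_lit 0)) T4.l2
  (TrL.c (I.pos (nat_lit 0) (nat_lit 0)) (xa (xb T4.l3 T4.l3) (xb (xa T4.l3 (xb (xa T4.l3 T4.l3) T4.l3)) (xa T4.l3 (xb T4.l3 (xa T4.l3 T4.l3)))))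
  (TrL.c (I.pos (nat_lit 0) (nat_lit 0)) (xa T2.l2 (xb T2.l4 T2.l2))
  (TrL.c (I.pos (nat_lit 0) (nat_lit 0)) T4.l4
  (TrL.c (I.pos (nat_lit 0) (nat_lit 0)) T2.l3
  TrL.n)))))))) (by decide +kernel)
theorem bx0_5 : BoxOK sI cl5 cl9 cl13 t2 t4 b0_5 :=
  box_mk (TrL.c (I.pos (nat_lit 0) (nat_lit 0)) T2.l8
  (TrL.c (I.pos (nat_lit 0) (nat_lit 0)) T4.l1
  (TrL.c (I.pos (nat_lit 0) (nat_lit 0)) T2.l1
  (TrL.c (I.pos (nat_lit 0) (nat_lit 0)) T4.l2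
  (TrL.c (I.pos (nat_lit 0) (nat_lit 0)) T4.l8
  (TrL.c (I.pos (nat_lit 0) (nat_lit 0)) T2.l2
  (TrL.c (I.pos (nat_lit 0) (nat_lit 0)) T4.l4
  (TrL.c (I.pos (nat_lit 0) (nat_lit 0)) T2.l3
  TrL.n)))))))) (by decide +kernel)
theorem bx0_6 : BoxOK sI cl5 cl9 cl13 t2 t4 b0_6 :=
  box_mk (TrL.c (I.pos (nat_lit 0) (nat_lit 0)) (xa (xb T2.l8 T2.l8) T2.l0)
  (TrL.c (I.pos (nat_lit 0) (nat_lit 0)) T4.l1
  (TrL.c (I.pos (nat_lit 0) (nat_lit 0)) T2.l1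
  (TrL.c (I.pos (nat_lit 0) (nat_lit 0)) T4.l2
  (TrL.c (I.pos (nat_lit 0) (nat_lit 0)) (xa T4.l8 T4.l11)
  (TrL.c (I.pos (nat_lit 0) (nat_lit 0)) T2.l2
  (TrL.c (I.pos (nat_lit 0) (nat_lit 0)) T4.l4
  (TrL.c (I.pos (nat_lit 0) (nat_lit 0)) T2.l3
  TrL.n)))))))) (by decide +kernel)
theorem bx0_7 : BoxOK sI cl5 cl9 cl13 t2 t4 b0_7 :=
  box_mk (TrL.c (I.pos (nat_lit 0) (nat_lit 0)) (xa (xa (xb (xa (xb (xa T2.l8 T2.l8) T2.l8) T2.l8) T2.l8) T2.l8) T2.l8)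
  (TrL.c (I.pos (nat_lit 0) (nat_lit 0)) (xa T4.l1 T4.l1)
  (TrL.c (I.pos (nat_lit 0) (nat_lit 0)) T2.l1
  (TrL.c (I.pos (nat_lit 0) (nat_lit 0)) T4.l2
  (TrL.c (I.pos (nat_lit 0) (nat_lit 0)) (xa T4.l1 T4.l8)
  (TrL.c (I.pos (nat_lit 0) (nat_lit 0)) T2.l2
  (TrL.c (I.pos (nat_lit 0) (nat_lit 0)) T4.l4
  (TrL.c (I.pos (nat_lit 0) (nat_lit 0)) T2.l3
  TrL.n)))))))) (by decide +kernel)
theorem bx0_8 : BoxOK sI cl5 cl9 cl13 t2 t4 b0_8 :=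
  box_mk (TrL.c (I.pos (nat_lit 0) (nat_lit 0)) (xb (xa (xb (xa T2.l11 T2.l11) (xa T2.l11 T2.l11)) (xb (xa T2.l11 T2.l11) (xa T2.l11 T2.l11))) (xa (xb (xa (xb T2.l11 T2.l11) (xb T2.l11 T2.l11)) (xa (xb T2.l11 (xs T2.l11 T2.l11)) (xb T2.l11 (xs T2.l11 T2.l11)))) (xb (xa T2.l11 (xb T2.l11 T2.l11)) (xa (xb T2.l11 (xs T2.l11 T2.l11)) (xs T2.l11 (xb T2.l11 T2.l11))))))
  (TrL.c (I.pos (nat_lit 0) (nat_lit 0)) (xb (xa T4.l1 T4.l1) (xa T4.l1 T4.l1))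
  (TrL.c (I.pos (nat_lit 0) (nat_lit 0)) T2.l1
  (TrL.c (I.pos (nat_lit 0) (nat_lit 0)) T4.l2
  (TrL.c (I.pos (nat_lit 0) (nat_lit 0)) (xb (xa T4.l11 (xb T4.l11 T4.l11)) (xa T4.l11 (xb T4.l11 T4.l11)))
  (TrL.c (I.pos (nat_lit 0) (nat_lit 0)) (xb T2.l2 T2.l2)
  (TrL.c (I.pos (nat_lit 0) (nat_lit 0)) T4.l4
  (TrL.c (I.pos (nat_lit 0) (nat_lit 0)) T2.l3
  TrL.n)))))))) (by decide +kernel)
theorem bx0_9 : BoxOK sI cl5 cl9 cl13 t2 t4 b0_9 :=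
  box_mk (TrL.c (I.pos (nat_lit 0) (nat_lit 0)) (xa (xa (xb (xa (xb (xa T2.l8 T2.l8) T2.l8) T2.l8) (xa (xb T2.l8 (xa (xb T2.l8 T2.l8) T2.l8)) (xb T2.l8 (xa T2.l8 T2.l8)))) (xb T2.l8 (xa (xb T2.l8 T2.l8) T2.l8))) (xa (xb T2.l8 T2.l8) (xb T2.l8 (xa T2.l8 (xb T2.l8 T2.l8)))))
  (TrL.c (I.pos (nat_lit 0) (nat_lit 0)) (xa T4.l1 T4.l1)
  (TrL.c (I.pos (nat_lit 0) (nat_lit 0)) (xa T2.l1 T2.l1)
  (TrL.c (I.pos (nat_lit 0) (nat_lit 0)) T4.l2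
  (TrL.c (I.pos (nat_lit 0) (nat_lit 0)) (xa T4.l8 T4.l8)
  (TrL.c (I.pos (nat_lit 0) (nat_lit 0)) (xa T2.l2 T2.l2)
  (TrL.c (I.pos (nat_lit 0) (nat_lit 0)) T4.l4
  (TrL.c (I.pos (nat_lit 0) (nat_lit 0)) (xa T2.l3 T2.l3)
  TrL.n)))))))) (by decide +kernel)
theorem bx0_10 : BoxOK sI cl5 cl9 cl13 t2 t4 b0_10 :=
  box_mk (TrL.c (I.pos (nat_lit 0) (nat_lit 0)) T2.l8
  (TrL.c (I.pos (nat_lit 0) (nat_lit 0)) T4.l1
  (TrL.c (I.pos (nat_lit 0) (nat_lit 0)) T2.l1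
  (TrL.c (I.pos (nat_lit 0) (nat_lit 0)) T4.l2
  (TrL.c (I.pos (nat_lit 0) (nat_lit 0)) T4.l8
  (TrL.c (I.pos (nat_lit 0) (nat_lit 0)) T2.l2
  (TrL.c (I.pos (nat_lit 0) (nat_lit 0)) T4.l4
  (TrL.c (I.pos (nat_lit 0) (nat_lit 0)) T2.l3
  TrL.n)))))))) (by decide +kernel)
theorem bx0_11 : BoxOK sI cl5 cl9 cl13 t2 t4 b0_11 :=
  box_mk (TrL.c (I.pos (nat_lit 0) (nat_lit 0)) (xa (xb (xa T2.l0 T2.l0) (xa (xb T2.l0 T2.l0) (xb T2.l0 T2.l0))) (xb (xa T2.l0 T2.l0) (xa (xb T2.l0 T2.l0) (xb T2.l0 T2.l0))))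
  (TrL.c (I.pos (nat_lit 0) (nat_lit 0)) (xb (xa T4.l1 T4.l1) (xa T4.l1 T4.l1))
  (TrL.c (I.pos (nat_lit 0) (nat_lit 0)) T2.l1
  (TrL.c (I.pos (nat_lit 0) (nat_lit 0)) T4.l2
  (TrL.c (I.pos (nat_lit 0) (nat_lit 0)) (xb (xa T4.l3 (xb T4.l3 T4.l3)) (xa T4.l3 T4.l3))
  (TrL.c (I.pos (nat_lit 0) (nat_lit 0)) (xb T2.l2 T2.l2)
  (TrL.c (I.pos (nat_lit 0) (nat_lit 0)) T4.l4
  (TrL.c (I.pos (nat_lit 0) (nat_lit 0)) T2.l3
  TrL.n)))))))) (by decide +kernel)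
theorem bx0_12 : BoxOK sI cl5 cl9 cl13 t2 t4 b0_12 :=
  box_mk (TrL.c (I.pos (nat_lit 0) (nat_lit 0)) (xa (xb T2.l0 (xa (xb T2.l11 T2.l11) T2.l11)) (xb T2.l0 T2.l0))
  (TrL.c (I.pos (nat_lit 0) (nat_lit 0)) T4.l1
  (TrL.c (I.pos (nat_lit 0) (nat_lit 0)) T2.l1
  (TrL.c (I.pos (nat_lit 0) (nat_lit 0)) T4.l2
  (TrL.c (I.pos (nat_lit 0) (nat_lit 0)) (xa T4.l11 T4.l0)
  (TrL.c (I.pos (nat_lit 0) (nat_lit 0)) T2.l4
  (TrL.c (I.pos (nat_lit 0) (nat_lit 0)) T4.l4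
  (TrL.c (I.pos (nat_lit 0) (nat_lit 0)) T2.l3
  TrL.n)))))))) (by decide +kernel)
theorem bx0_13 : BoxOK sI cl5 cl9 cl13 t2 t4 b0_13 :=
  box_mk (TrL.c (I.pos (nat_lit 0) (nat_lit 0)) (xb (xa T2.l11 T2.l11) (xa T2.l11 T2.l11))
  (TrL.c (I.pos (nat_lit 0) (nat_lit 0)) T4.l1
  (TrL.c (I.pos (nat_lit 0) (nat_lit 0)) T2.l1
  (TrL.c (I.pos (nat_lit 0) (nat_lit 0)) T4.l2
  (TrL.c (I.pos (nat_lit 0) (nat_lit 0)) (xb T4.l11 T4.l11)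
  (TrL.c (I.pos (nat_lit 0) (nat_lit 0)) T2.l2
  (TrL.c (I.pos (nat_lit 0) (nat_lit 0)) T4.l4
  (TrL.c (I.pos (nat_lit 0) (nat_lit 0)) T2.l3
  TrL.n)))))))) (by decide +kernel)
theorem sv0 : StarV sI cl5 cl9 cl13 t2 t4 t0 :=
  (bt_n (bt_n (bt_n (bt_b bx0_0) (bt_n (bt_b bx0_1) (bt_b bx0_2))) (bt_n (bt_n (bt_b bx0_3) (bt_b bx0_4)) (bt_n (bt_b bx0_5) (bt_b bx0_6)))) (bt_n (bt_n (bt_b bx0_7) (bt_n (bt_b bx0_8) (bt_b bx0_9))) (bt_n (bt_n (bt_b bx0_10) (bt_b bx0_11)) (bt_n (bt_b bx0_12) (bt_b bx0_13)))))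
def S0 : StarD := StarD.mk cl5 cl9 cl13 2 4 t0
theorem bx1_0 : BoxOK sI cl5 cl13 cl9 t4 t2 b1_0 :=
  box_mk (TrL.c (I.pos (nat_lit 0) (nat_lit 0)) (xa (xb (xa (xb (xa T4.l0 T4.l0) (xa T4.l0 T4.l0)) (xb T4.l0 T4.l0)) (xa (xb (xa (xb T4.l0 T4.l0) T4.l0) (xa (xb T4.l0 T4.l0) (xs T4.l0 T4.l0))) (xb (xa T4.l0 T4.l0) (xa (xs T4.l0 T4.l0) (xs T4.l0 T4.l0))))) (xb (xa (xb T4.l0 T4.l0) (xb T4.l0 T4.l0)) (xa (xb T4.l0 (xa T4.l0 T4.l0)) (xb (xa T4.l0 T4.l0) (xa T4.l0 (xs T4.l0 T4.l0))))))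
  (TrL.c (I.pos (nat_lit 0) (nat_lit 0)) (xa (xb T2.l4 (xa T2.l4 T2.l4)) (xb (xa T2.l4 T2.l4) (xa T2.l4 (xb T2.l4 T2.l4))))
  (TrL.c (I.pos (nat_lit 0) (nat_lit 0)) (xa T4.l5 T4.l5)
  (TrL.c (I.pos (nat_lit 0) (nat_lit 0)) T2.l5
  (TrL.c (I.pos (nat_lit 0) (nat_lit 0)) (xa (xb (xa T2.l10 T2.l10) (xa T2.l6 T2.l6)) (xb (xa (xb T2.l6 T2.l6) (xb T2.l6 T2.l6)) (xa T2.l6 (xb T2.l6 T2.l6))))
  (TrL.c (I.pos (nat_lit 0) (nat_lit 0)) (xa T4.l6 (xb T4.l6 T4.l6))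
  (TrL.c (I.pos (nat_lit 0) (nat_lit 0)) T2.l7
  (TrL.c (I.pos (nat_lit 0) (nat_lit 0)) (xa T4.l7 T4.l7)
  TrL.n)))))))) (by decide +kernel)
theorem bx1_1 : BoxOK sI cl5 cl13 cl9 t4 t2 b1_1 :=
  box_mk (TrL.c (I.pos (nat_lit 0) (nat_lit 0)) (xa (xa T4.l9 T4.l9) (xa T4.l9 (xa T4.l9 T4.l9)))
  (TrL.c (I.pos (nat_lit 0) (nat_lit 0)) (xa T2.l4 T2.l4)
  (TrL.c (I.pos (nat_lit 0) (nat_lit 0)) (xa T4.l5 T4.l5)
  (TrL.c (I.pos (nat_lit 0) (nat_lit 0)) T2.l5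
  (TrL.c (I.pos (nat_lit 0) (nat_lit 0)) (xa T2.l9 T2.l9)
  (TrL.c (I.pos (nat_lit 0) (nat_lit 0)) T4.l6
  (TrL.c (I.pos (nat_lit 0) (nat_lit 0)) T2.l7
  (TrL.c (I.pos (nat_lit 0) (nat_lit 0)) (xa T4.l7 T4.l7)
  TrL.n)))))))) (by decide +kernel)
theorem bx1_2 : BoxOK sI cl5 cl13 cl9 t4 t2 b1_2 :=
  box_mk (TrL.c (I.pos (nat_lit 0) (nat_lit 0)) (xb T4.l9 (xa T4.l9 T4.l9))
  (TrL.c (I.pos (nat_lit 0) (nat_lit 0)) T2.l4
  (TrL.c (I.pos (nat_lit 0) (nat_lit 0)) T4.l5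
  (TrL.c (I.pos (nat_lit 0) (nat_lit 0)) T2.l5
  (TrL.c (I.pos (nat_lit 0) (nat_lit 0)) (xb T2.l9 T2.l10)
  (TrL.c (I.pos (nat_lit 0) (nat_lit 0)) T4.l6
  (TrL.c (I.pos (nat_lit 0) (nat_lit 0)) T2.l7
  (TrL.c (I.pos (nat_lit 0) (nat_lit 0)) T4.l7
  TrL.n)))))))) (by decide +kernel)
theorem bx1_3 : BoxOK sI cl5 cl13 cl9 t4 t2 b1_3 :=
  box_mk (TrL.c (I.pos (nat_lit 0) (nat_lit 0)) (xa (xa (xb T4.l9 T4.l9) T4.l9) T4.l9)
  (TrL.c (I.pos (nat_lit 0) (nat_lit 0)) (xa T2.l4 T2.l4)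
  (TrL.c (I.pos (nat_lit 0) (nat_lit 0)) T4.l5
  (TrL.c (I.pos (nat_lit 0) (nat_lit 0)) T2.l5
  (TrL.c (I.pos (nat_lit 0) (nat_lit 0)) (xa T2.l4 T2.l9)
  (TrL.c (I.pos (nat_lit 0) (nat_lit 0)) T4.l6
  (TrL.c (I.pos (nat_lit 0) (nat_lit 0)) T2.l7
  (TrL.c (I.pos (nat_lit 0) (nat_lit 0)) T4.l7
  TrL.n)))))))) (by decide +kernel)
theorem bx1_4 : BoxOK sI cl5 cl13 cl9 t4 t2 b1_4 :=
  box_mk (TrL.c (I.pos (nat_lit 0) (nat_lit 0)) (xa (xb T4.l0 T4.l0) (xa (xb T4.l0 T4.l0) (xb (xa T4.l0 T4.l0) (xa T4.l0 T4.l3))))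
  (TrL.c (I.pos (nat_lit 0) (nat_lit 0)) (xa T2.l4 (xb T2.l4 T2.l4))
  (TrL.c (I.pos (nat_lit 0) (nat_lit 0)) T4.l5
  (TrL.c (I.pos (nat_lit 0) (nat_lit 0)) T2.l5
  (TrL.c (I.pos (nat_lit 0) (nat_lit 0)) (xa T2.l6 (xb (xa T2.l6 (xb (xa T2.l6 T2.l6) T2.l6)) (xa T2.l6 (xb T2.l6 (xa T2.l6 T2.l6)))))
  (TrL.c (I.pos (nat_lit 0) (nat_lit 0)) (xa T4.l6 T4.l6)
  (TrL.c (I.pos (nat_lit 0) (nat_lit 0)) T2.l7
  (TrL.c (I.pos (nat_lit 0) (nat_lit 0)) T4.l7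
  TrL.n)))))))) (by decide +kernel)
theorem bx1_5 : BoxOK sI cl5 cl13 cl9 t4 t2 b1_5 :=
  box_mk (TrL.c (I.pos (nat_lit 0) (nat_lit 0)) T4.l9
  (TrL.c (I.pos (nat_lit 0) (nat_lit 0)) T2.l4
  (TrL.c (I.pos (nat_lit 0) (nat_lit 0)) T4.l5
  (TrL.c (I.pos (nat_lit 0) (nat_lit 0)) T2.l5
  (TrL.c (I.pos (nat_lit 0) (nat_lit 0)) T2.l9
  (TrL.c (I.pos (nat_lit 0) (nat_lit 0)) T4.l6
  (TrL.c (I.pos (nat_lit 0) (nat_lit 0)) T2.l7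
  (TrL.c (I.pos (nat_lit 0) (nat_lit 0)) T4.l7
  TrL.n)))))))) (by decide +kernel)
theorem bx1_6 : BoxOK sI cl5 cl13 cl9 t4 t2 b1_6 :=
  box_mk (TrL.c (I.pos (nat_lit 0) (nat_lit 0)) T4.l9
  (TrL.c (I.pos (nat_lit 0) (nat_lit 0)) T2.l4
  (TrL.c (I.pos (nat_lit 0) (nat_lit 0)) T4.l5
  (TrL.c (I.pos (nat_lit 0) (nat_lit 0)) T2.l5
  (TrL.c (I.pos (nat_lit 0) (nat_lit 0)) T2.l9
  (TrL.c (I.pos (nat_lit 0) (nat_lit 0)) T4.l6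
  (TrL.c (I.pos (nat_lit 0) (nat_lit 0)) T2.l7
  (TrL.c (I.pos (nat_lit 0) (nat_lit 0)) T4.l7
  TrL.n)))))))) (by decide +kernel)
theorem bx1_7 : BoxOK sI cl5 cl13 cl9 t4 t2 b1_7 :=
  box_mk (TrL.c (I.pos (nat_lit 0) (nat_lit 0)) (xa (xb T4.l9 T4.l9) T4.l0)
  (TrL.c (I.pos (nat_lit 0) (nat_lit 0)) T2.l4
  (TrL.c (I.pos (nat_lit 0) (nat_lit 0)) T4.l5
  (TrL.c (I.pos (nat_lit 0) (nat_lit 0)) T2.l5
  (TrL.c (I.pos (nat_lit 0) (nat_lit 0)) (xa T2.l9 T2.l0)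
  (TrL.c (I.pos (nat_lit 0) (nat_lit 0)) T4.l6
  (TrL.c (I.pos (nat_lit 0) (nat_lit 0)) T2.l7
  (TrL.c (I.pos (nat_lit 0) (nat_lit 0)) T4.l7
  TrL.n)))))))) (by decide +kernel)
theorem bx1_8 : BoxOK sI cl5 cl13 cl9 t4 t2 b1_8 :=
  box_mk (TrL.c (I.pos (nat_lit 0) (nat_lit 0)) (xa (xa (xb (xa (xb T4.l9 T4.l9) T4.l9) T4.l9) T4.l9) T4.l9)
  (TrL.c (I.pos (nat_lit 0) (nat_lit 0)) (xa T2.l4 T2.l4)
  (TrL.c (I.pos (nat_lit 0) (nat_lit 0)) T4.l5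
  (TrL.c (I.pos (nat_lit 0) (nat_lit 0)) T2.l5
  (TrL.c (I.pos (nat_lit 0) (nat_lit 0)) (xa T2.l4 T2.l9)
  (TrL.c (I.pos (nat_lit 0) (nat_lit 0)) T4.l6
  (TrL.c (I.pos (nat_lit 0) (nat_lit 0)) T2.l7
  (TrL.c (I.pos (nat_lit 0) (nat_lit 0)) T4.l7
  TrL.n)))))))) (by decide +kernel)
theorem bx1_9 : BoxOK sI cl5 cl13 cl9 t4 t2 b1_9 :=
  box_mk (TrL.c (I.pos (nat_lit 0) (nat_lit 0)) (xb (xa (xb (xa T4.l10 T4.l10) (xa T4.l10 T4.l10)) (xb (xa T4.l10 T4.l10) (xa T4.l10 T4.l10))) (xa (xb (xa T4.l10 T4.l10) (xa (xb T4.l10 T4.l10) (xs T4.l10 T4.l10))) (xb (xa T4.l10 T4.l10) (xa (xs T4.l10 T4.l10) (xs T4.l10 T4.l10)))))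
  (TrL.c (I.pos (nat_lit 0) (nat_lit 0)) (xb (xa T2.l4 T2.l4) (xa T2.l4 T2.l4))
  (TrL.c (I.pos (nat_lit 0) (nat_lit 0)) T4.l5
  (TrL.c (I.pos (nat_lit 0) (nat_lit 0)) T2.l5
  (TrL.c (I.pos (nat_lit 0) (nat_lit 0)) (xb (xa T2.l10 (xb T2.l10 T2.l10)) (xa T2.l10 (xb T2.l10 T2.l10)))
  (TrL.c (I.pos (nat_lit 0) (nat_lit 0)) (xb T4.l6 T4.l6)
  (TrL.c (I.pos (nat_lit 0) (nat_lit 0)) T2.l7
  (TrL.c (I.pos (nat_lit 0) (nat_lit 0)) T4.l7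
  TrL.n)))))))) (by decide +kernel)
theorem bx1_10 : BoxOK sI cl5 cl13 cl9 t4 t2 b1_10 :=
  box_mk (TrL.c (I.pos (nat_lit 0) (nat_lit 0)) (xa (xa (xb (xa (xb T4.l9 T4.l9) T4.l9) (xa (xb T4.l9 (xa T4.l9 T4.l9)) (xb T4.l9 T4.l9))) (xb T4.l9 (xa T4.l9 T4.l9))) (xa T4.l9 (xb T4.l9 (xa T4.l9 T4.l9))))
  (TrL.c (I.pos (nat_lit 0) (nat_lit 0)) (xa T2.l4 T2.l4)
  (TrL.c (I.pos (nat_lit 0) (nat_lit 0)) (xa T4.l5 T4.l5)
  (TrL.c (I.pos (nat_lit 0) (nat_lit 0)) T2.l5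
  (TrL.c (I.pos (nat_lit 0) (nat_lit 0)) (xa (xa T2.l9 T2.l9) (xa T2.l9 (xb T2.l9 T2.l9)))
  (TrL.c (I.pos (nat_lit 0) (nat_lit 0)) (xa T4.l6 T4.l6)
  (TrL.c (I.pos (nat_lit 0) (nat_lit 0)) T2.l7
  (TrL.c (I.pos (nat_lit 0) (nat_lit 0)) (xa T4.l7 T4.l7)
  TrL.n)))))))) (by decide +kernel)
theorem bx1_11 : BoxOK sI cl5 cl13 cl9 t4 t2 b1_11 :=
  box_mk (TrL.c (I.pos (nat_lit 0) (nat_lit 0)) (xa (xb T4.l0 T4.l0) T4.l0)
  (TrL.c (I.pos (nat_lit 0) (nat_lit 0)) T2.l4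
  (TrL.c (I.pos (nat_lit 0) (nat_lit 0)) T4.l5
  (TrL.c (I.pos (nat_lit 0) (nat_lit 0)) T2.l5
  (TrL.c (I.pos (nat_lit 0) (nat_lit 0)) (xa T2.l10 T2.l0)
  (TrL.c (I.pos (nat_lit 0) (nat_lit 0)) T4.l6
  (TrL.c (I.pos (nat_lit 0) (nat_lit 0)) T2.l7
  (TrL.c (I.pos (nat_lit 0) (nat_lit 0)) T4.l7
  TrL.n)))))))) (by decide +kernel)
theorem bx1_12 : BoxOK sI cl5 cl13 cl9 t4 t2 b1_12 :=
  box_mk (TrL.c (I.pos (nat_lit 0) (nat_lit 0)) (xb (xa T4.l10 T4.l10) (xa T4.l10 T4.l10))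
  (TrL.c (I.pos (nat_lit 0) (nat_lit 0)) T2.l4
  (TrL.c (I.pos (nat_lit 0) (nat_lit 0)) T4.l5
  (TrL.c (I.pos (nat_lit 0) (nat_lit 0)) T2.l5
  (TrL.c (I.pos (nat_lit 0) (nat_lit 0)) (xb (xa T2.l10 T2.l10) T2.l10)
  (TrL.c (I.pos (nat_lit 0) (nat_lit 0)) T4.l6
  (TrL.c (I.pos (nat_lit 0) (nat_lit 0)) T2.l7
  (TrL.c (I.pos (nat_lit 0) (nat_lit 0)) T4.l7
  TrL.n)))))))) (by decide +kernel)
theorem bx1_13 : BoxOK sI cl5 cl13 cl9 t4 t2 b1_13 :=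
  box_mk (TrL.c (I.pos (nat_lit 0) (nat_lit 0)) (xa (xb (xa T4.l0 T4.l0) (xa T4.l0 (xb T4.l0 T4.l0))) (xb (xa T4.l0 T4.l0) (xa (xb T4.l0 T4.l0) (xb T4.l0 T4.l0))))
  (TrL.c (I.pos (nat_lit 0) (nat_lit 0)) (xa (xb T2.l4 T2.l4) (xb T2.l4 T2.l4))
  (TrL.c (I.pos (nat_lit 0) (nat_lit 0)) T4.l5
  (TrL.c (I.pos (nat_lit 0) (nat_lit 0)) T2.l5
  (TrL.c (I.pos (nat_lit 0) (nat_lit 0)) (xa (xb T2.l6 T2.l6) (xb (xa T2.l6 T2.l6) T2.l6))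
  (TrL.c (I.pos (nat_lit 0) (nat_lit 0)) (xa T4.l6 T4.l6)
  (TrL.c (I.pos (nat_lit 0) (nat_lit 0)) T2.l7
  (TrL.c (I.pos (nat_lit 0) (nat_lit 0)) T4.l7
  TrL.n)))))))) (by decide +kernel)
theorem sv1 : StarV sI cl5 cl13 cl9 t4 t2 t1 :=
  (bt_n (bt_n (bt_n (bt_b bx1_0) (bt_n (bt_b bx1_1) (bt_b bx1_2))) (bt_n (bt_n (bt_b bx1_3) (bt_b bx1_4)) (bt_n (bt_b bx1_5) (bt_b bx1_6)))) (bt_n (bt_n (bt_b bx1_7) (bt_n (bt_b bx1_8) (bt_b bx1_9))) (bt_n (bt_n (bt_b bx1_10) (bt_b bx1_11)) (bt_n (bt_b bx1_12) (bt_b bx1_13)))))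
def S1 : StarD := StarD.mk cl5 cl13 cl9 4 2 t1
theorem bx2_0 : BoxOK sI cl9 cl5 cl13 t0 t5 b2_0 :=
  box_mk (TrL.c (I.pos (nat_lit 0) (nat_lit 0)) (xa (xb (xb T0.l0 (xa T0.l0 T0.l0)) (xa (xb T0.l0 (xb T0.l0 T0.l0)) (xb T0.l0 (xs T0.l0 T0.l0)))) (xb (xa T0.l0 T0.l0) (xa (xb T0.l0 T0.l0) (xb T0.l0 (xs T0.l0 T0.l0)))))
  (TrL.c (I.pos (nat_lit 0) (nat_lit 0)) (xb (xa T5.l1 T5.l1) (xa (xk T5.l1 T5.l1) (xk T5.l1 T5.l1)))
  (TrL.c (I.pos (nat_lit 0) (nat_lit 124588530)) (xR T0.l1 (xR T0.l1 T0.l1))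
  (TrL.c (I.pos (nat_lit 0) (nat_lit 96881482)) (xR T5.l2 (xR T5.l2 T5.l2))
  (TrL.c (I.pos (nat_lit 0) (nat_lit 0)) (xb (xa (xk (xb T5.l3 T5.l3) (xb T5.l3 T5.l3)) (xk (xb (xa T5.l3 T5.l3) T5.l3) (xb (xa T5.l3 T5.l3) T5.l3))) (xa (xk T5.l3 T5.l3) (xk (xb T5.l3 T5.l3) (xb T5.l3 T5.l3))))
  (TrL.c (I.pos (nat_lit 0) (nat_lit 0)) (xb T0.l2 T0.l2)
  (TrL.c (I.mix (nat_lit 17240550) (nat_lit 96881482)) (xR T5.l4 (xR T5.l4 T5.l4))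
  (TrL.c (I.mix (nat_lit 17240550) (nat_lit 71940500)) (xR T0.l3 T0.l7)
  TrL.n)))))))) (by decide +kernel)
theorem bx2_1 : BoxOK sI cl9 cl5 cl13 t0 t5 b2_1 :=
  box_mk (TrL.c (I.pos (nat_lit 0) (nat_lit 0)) (xb T0.l4 (xa T0.l4 (xb T0.l4 T0.l4)))
  (TrL.c (I.pos (nat_lit 0) (nat_lit 0)) T5.l1
  (TrL.c (I.pos (nat_lit 0) (nat_lit 124588530)) T0.l1
  (TrL.c (I.pos (nat_lit 0) (nat_lit 96881482)) T5.l2
  (TrL.c (I.pos (nat_lit 0) (nat_lit 0)) T5.l5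
  (TrL.c (I.pos (nat_lit 0) (nat_lit 0)) T0.l2
  (TrL.c (I.mix (nat_lit 17240550) (nat_lit 96881482)) T5.l4
  (TrL.c (I.mix (nat_lit 17240550) (nat_lit 71940500)) T0.l3
  TrL.n)))))))) (by decide +kernel)
theorem bx2_2 : BoxOK sI cl9 cl5 cl13 t0 t5 b2_2 :=
  box_mk (TrL.c (I.pos (nat_lit 0) (nat_lit 0)) (xb (xa T0.l4 T0.l4) (xa T0.l4 T0.l4))
  (TrL.c (I.pos (nat_lit 0) (nat_lit 0)) (xb T5.l1 T5.l1)
  (TrL.c (I.pos (nat_lit 0) (nat_lit 124588530)) T0.l1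
  (TrL.c (I.pos (nat_lit 0) (nat_lit 96881482)) (xR T5.l2 T5.l2)
  (TrL.c (I.pos (nat_lit 0) (nat_lit 0)) (xb (xk T5.l5 T5.l5) T5.l5)
  (TrL.c (I.pos (nat_lit 0) (nat_lit 0)) T0.l2
  (TrL.c (I.mix (nat_lit 17240550) (nat_lit 96881482)) T5.l4
  (TrL.c (I.mix (nat_lit 17240550) (nat_lit 71940500)) T0.l3
  TrL.n)))))))) (by decide +kernel)
theorem bx2_3 : BoxOK sI cl9 cl5 cl13 t0 t5 b2_3 :=
  box_mk (TrL.c (I.pos (nat_lit 0) (nat_lit 0)) T5.l1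
  (TrL.c (I.pos (nat_lit 0) (nat_lit 0)) T0.l1
  (TrL.c (I.mix (nat_lit 17240550) (nat_lit 96881482)) (xR T5.l6 T5.l2)
  (TrL.c (I.mix (nat_lit 17240550) (nat_lit 71940500)) T0.l1
  TrL.n)))) (by decide +kernel)
theorem bx2_4 : BoxOK sI cl9 cl5 cl13 t0 t5 b2_4 :=
  box_mk (TrL.c (I.pos (nat_lit 0) (nat_lit 0)) (xa (xb T0.l4 (xa T0.l4 T0.l4)) (xb T0.l4 T0.l4))
  (TrL.c (I.pos (nat_lit 0) (nat_lit 0)) (xa T5.l1 T5.l1)
  (TrL.c (I.pos (nat_lit 0) (nat_lit 124588530)) T0.l1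
  (TrL.c (I.pos (nat_lit 0) (nat_lit 96881482)) T5.l2
  (TrL.c (I.pos (nat_lit 0) (nat_lit 0)) (xa (xb T5.l5 T5.l5) (xk (xb (xa T5.l5 T5.l5) T5.l5) (xb T5.l5 T5.l5)))
  (TrL.c (I.pos (nat_lit 0) (nat_lit 0)) T0.l2
  (TrL.c (I.mix (nat_lit 17240550) (nat_lit 96881482)) T5.l7
  (TrL.c (I.mix (nat_lit 17240550) (nat_lit 71940500)) T0.l7
  TrL.n)))))))) (by decide +kernel)
theorem bx2_5 : BoxOK sI cl9 cl5 cl13 t0 t5 b2_5 :=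
  box_mk (TrL.c (I.pos (nat_lit 0) (nat_lit 0)) T5.l1
  (TrL.c (I.pos (nat_lit 0) (nat_lit 0)) T0.l1
  (TrL.c (I.mix (nat_lit 17240550) (nat_lit 96881482)) (xR T5.l6 (xR T5.l6 T5.l2))
  (TrL.c (I.mix (nat_lit 17240550) (nat_lit 71940500)) T0.l1
  TrL.n)))) (by decide +kernel)
theorem bx2_6 : BoxOK sI cl9 cl5 cl13 t0 t5 b2_6 :=
  box_mk (TrL.c (I.pos (nat_lit 0) (nat_lit 0)) (xb (xa (xb T0.l11 T0.l11) (xb T0.l11 T0.l11)) (xa (xb T0.l11 (xa T0.l11 T0.l11)) (xb T0.l11 (xa T0.l11 T0.l11))))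
  (TrL.c (I.pos (nat_lit 0) (nat_lit 0)) (xk (xb T5.l1 (xa T5.l1 T5.l1)) (xb T5.l1 T5.l1))
  (TrL.c (I.pos (nat_lit 0) (nat_lit 124588530)) (xR T0.l1 (xR T0.l1 T0.l1))
  (TrL.c (I.pos (nat_lit 0) (nat_lit 96881482)) (xR T5.l2 (xR T5.l2 T5.l2))
  (TrL.c (I.pos (nat_lit 0) (nat_lit 0)) (xb (xk (xa T5.l11 T5.l11) (xa T5.l11 T5.l11)) (xk (xa T5.l11 T5.l3) (xa T5.l11 T5.l11)))
  (TrL.c (I.pos (nat_lit 0) (nat_lit 0)) T0.l2
  (TrL.c (I.mix (nat_lit 17240550) (nat_lit 96881482)) (xR T5.l4 (xR T5.l4 T5.l4))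
  (TrL.c (I.mix (nat_lit 17240550) (nat_lit 71940500)) (xR T0.l3 T0.l7)
  TrL.n)))))))) (by decide +kernel)
theorem bx2_7 : BoxOK sI cl9 cl5 cl13 t0 t5 b2_7 :=
  box_mk (TrL.c (I.pos (nat_lit 0) (nat_lit 0)) (xb T0.l4 T0.l4)
  (TrL.c (I.pos (nat_lit 0) (nat_lit 0)) T5.l1
  (TrL.c (I.pos (nat_lit 0) (nat_lit 124588530)) T0.l1
  (TrL.c (I.pos (nat_lit 0) (nat_lit 96881482)) (xR T5.l2 (xR T5.l2 T5.l2))
  (TrL.c (I.pos (nat_lit 0) (nat_lit 0)) T5.l5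
  (TrL.c (I.pos (nat_lit 0) (nat_lit 0)) T0.l2
  (TrL.c (I.mix (nat_lit 17240550) (nat_lit 96881482)) T5.l4
  (TrL.c (I.mix (nat_lit 17240550) (nat_lit 71940500)) T0.l3
  TrL.n)))))))) (by decide +kernel)
theorem c2_8_0 : chkTag sI cl9 cl5 cl13 t0 b2_8 (tg true true false RT.r2) (I.pos (nat_lit 0) (nat_lit 0))
  (xa (xb (xa T0.l0 T0.l0) (xa (xb T0.l0 (xc T0.l0 T0.l0)) (xb T0.l0 (xc T0.l0 T0.l0)))) (xb (xa T0.l0 (xb T0.l0 T0.l0)) (xa (xb T0.l0 (xc T0.l0 T0.l0)) (xb T0.l0 (xc T0.l0 T0.l0))))) = true := by decide +kernel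
theorem c2_8_1 : chkTag sI cl9 cl5 cl13 t5 b2_8 (tg true false false RT.r3) (I.pos (nat_lit 0) (nat_lit 0))
  (xa (xb T5.l1 (xk T5.l1 T5.l1)) (xk (xb T5.l8 (xa T5.l1 T5.l1)) (xb T5.l1 T5.l8))) = true := by decide +kernel
theorem c2_8_2 : chkTag sI cl9 cl5 cl13 t0 b2_8 (Tag.mk true true false RT.tl RT.r4) (I.pos (nat_lit 0) (nat_lit 124588530))
  (xR T0.l1 T0.l9) = true := by decide +kernel
theorem c2_8_3 : chkTag sI cl9 cl5 cl13 t5 b2_8 (Tag.mk true false false RT.tl RT.r5) (I.pos (nat_lit 0) (nat_lit 96881482))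
  (xR T5.l2 (xR T5.l2 T5.l9)) = true := by decide +kernel
theorem c2_8_4 : chkTag sI cl9 cl5 cl13 t5 b2_8 (tg false false false RT.r3) (I.pos (nat_lit 0) (nat_lit 0))
  (xa (xb (xk (xa (xb (xk T5.l3 T5.l3) T5.l3) (xb T5.l0 T5.l3)) (xa (xb (xk T5.l3 T5.l3) T5.l3) (xb T5.l0 T5.l3))) (xk (xa T5.l3 T5.l3) (xa T5.l3 T5.l3))) (xb (xk (xa (xb (xk T5.l0 T5.l0) T5.l3) (xb (xk (xa (xb T5.l3 T5.l3) (xb T5.l3 T5.l3)) (xa (xb T5.l3 T5.l3) (xb T5.l3 T5.l3))) (xk (xa T5.l3 T5.l3) (xa T5.l3 T5.l3)))) (xa (xb (xk T5.l0 T5.l0) T5.l3) (xb (xk (xa T5.l3 (xb T5.l3 T5.l3)) (xa T5.l3 (xb T5.l3 T5.l3))) (xk T5.l3 T5.l3)))) (xk (xa (xb T5.l3 T5.l3) (xb (xk (xa T5.l3 T5.l3) (xa T5.l3 T5.l3)) (xk (xa T5.l3 (xs T5.l3 T5.l3)) (xa T5.l3 (xs T5.l3 T5.l3))))) (xa (xb T5.l3 T5.l3) (xb (xk T5.l3 T5.l3) (xk (xa T5.l3 T5.l3) (xa T5.l3 T5.l3))))))) = true := by decide +kernel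
theorem c2_8_5 : chkTag sI cl9 cl5 cl13 t0 b2_8 (tg false true false RT.r4) (I.pos (nat_lit 0) (nat_lit 0))
  (xa (xb T0.l2 T0.l2) (xb (xk T0.l2 T0.l2) (xk T0.l2 T0.l2))) = true := by decide +kernel
theorem c2_8_6 : chkTag sI cl9 cl5 cl13 t5 b2_8 (Tag.mk false false false RT.tl RT.r5) (I.mix (nat_lit 17240550) (nat_lit 96881482))
  (xR T5.l4 (xR T5.l4 (xR T5.l4 (xb (xk T5.l4 T5.l4) (xk T5.l4 T5.l4))))) = true := by decide +kernel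
theorem c2_8_7 : chkTag sI cl9 cl5 cl13 t0 b2_8 (Tag.mk false true false RT.tl RT.r6) (I.mix (nat_lit 17240550) (nat_lit 71940500))
  (xR T0.l3 (xR T0.l3 T0.l3)) = true := by decide +kernel
theorem bx2_8 : BoxOK sI cl9 cl5 cl13 t0 t5 b2_8 :=
  box_mk' [(tg true true false RT.r2), (tg true false false RT.r3), (Tag.mk true true false RT.tl RT.r4), (Tag.mk true false false RT.tl RT.r5), (tg false false false RT.r3), (tg false true false RT.r4), (Tag.mk false false false RT.tl RT.r5), (Tag.mk false true false RT.tl RT.r6)] rfl (allL_c (ex_mk c2_8_0) (allL_c (ex_mk c2_8_1) (allL_c (ex_mk c2_8_2) (allL_c (ex_mk c2_8_3) (allL_c (ex_mk c2_8_4) (allL_c (ex_mk c2_8_5) (allL_c (ex_mk c2_8_6) (allL_c (ex_mk c2_8_7) allL_n))))))))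
theorem bx2_9 : BoxOK sI cl9 cl5 cl13 t0 t5 b2_9 :=
  box_mk (TrL.c (I.pos (nat_lit 0) (nat_lit 0)) (xa (xb T0.l11 T0.l0) T0.l0)
  (TrL.c (I.pos (nat_lit 0) (nat_lit 0)) T5.l1
  (TrL.c (I.pos (nat_lit 0) (nat_lit 124588530)) T0.l9
  (TrL.c (I.pos (nat_lit 0) (nat_lit 96881482)) T5.l2
  (TrL.c (I.pos (nat_lit 0) (nat_lit 0)) (xb (xa (xk T5.l5 T5.l5) (xk (xa T5.l11 T5.l11) T5.l11)) (xk T5.l11 T5.l11))
  (TrL.c (I.pos (nat_lit 0) (nat_lit 0)) T0.l2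
  (TrL.c (I.mix (nat_lit 17240550) (nat_lit 96881482)) T5.l7
  (TrL.c (I.mix (nat_lit 17240550) (nat_lit 71940500)) T0.l3
  TrL.n)))))))) (by decide +kernel)
theorem bx2_10 : BoxOK sI cl9 cl5 cl13 t0 t5 b2_10 :=
  box_mk (TrL.c (I.pos (nat_lit 0) (nat_lit 0)) (xb (xa T0.l11 T0.l11) (xa T0.l11 T0.l11))
  (TrL.c (I.pos (nat_lit 0) (nat_lit 0)) (xk T5.l1 T5.l1)
  (TrL.c (I.pos (nat_lit 0) (nat_lit 124588530)) (xR T0.l1 T0.l9)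
  (TrL.c (I.pos (nat_lit 0) (nat_lit 96881482)) (xR T5.l2 (xR T5.l2 T5.l2))
  (TrL.c (I.pos (nat_lit 0) (nat_lit 0)) (xk (xb (xa T5.l11 T5.l11) T5.l11) (xb T5.l11 T5.l11))
  (TrL.c (I.pos (nat_lit 0) (nat_lit 0)) T0.l2
  (TrL.c (I.mix (nat_lit 17240550) (nat_lit 96881482)) (xR T5.l4 (xR T5.l4 T5.l4))
  (TrL.c (I.mix (nat_lit 17240550) (nat_lit 71940500)) T0.l7
  TrL.n)))))))) (by decide +kernel)
theorem bx2_11 : BoxOK sI cl9 cl5 cl13 t0 t5 b2_11 :=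
  box_mk (TrL.c (I.pos (nat_lit 0) (nat_lit 0)) (xa (xb (xa T0.l0 T0.l0) (xa T0.l0 T0.l0)) (xb T0.l0 (xa T0.l0 T0.l0)))
  (TrL.c (I.pos (nat_lit 0) (nat_lit 0)) (xk (xa T5.l1 T5.l1) (xa T5.l1 T5.l1))
  (TrL.c (I.pos (nat_lit 0) (nat_lit 124588530)) (xR T0.l1 (xR T0.l1 T0.l1))
  (TrL.c (I.pos (nat_lit 0) (nat_lit 96881482)) (xR T5.l2 (xR T5.l2 T5.l2))
  (TrL.c (I.pos (nat_lit 0) (nat_lit 0)) (xk (xa T5.l3 (xb T5.l3 T5.l3)) (xa T5.l3 (xb T5.l3 T5.l3)))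
  (TrL.c (I.pos (nat_lit 0) (nat_lit 0)) T0.l2
  (TrL.c (I.mix (nat_lit 17240550) (nat_lit 96881482)) (xR T5.l4 (xR T5.l4 T5.l4))
  (TrL.c (I.mix (nat_lit 17240550) (nat_lit 71940500)) T0.l7
  TrL.n)))))))) (by decide +kernel)
theorem sv2 : StarV sI cl9 cl5 cl13 t0 t5 t2 :=
  (bt_n (bt_n (bt_n (bt_b bx2_0) (bt_n (bt_b bx2_1) (bt_b bx2_2))) (bt_n (bt_b bx2_3) (bt_n (bt_b bx2_4) (bt_b bx2_5)))) (bt_n (bt_n (bt_b bx2_6) (bt_n (bt_b bx2_7) (bt_b bx2_8))) (bt_n (bt_b bx2_9) (bt_n (bt_b bx2_10) (bt_b bx2_11)))))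
def S2 : StarD := StarD.mk cl9 cl5 cl13 0 5 t2
theorem c3_0_0 : chkTag sI cl9 cl13 cl5 t5 b3_0 (tg true true false RT.r2) (I.pos (nat_lit 0) (nat_lit 0))
  (xa (xb (xa (xb T5.l0 (xa T5.l0 T5.l0)) (xb (xa T5.l0 T5.l0) T5.l0)) (xa (xb (xa T5.l0 T5.l0) (xa (xc T5.l0 (xs T5.l0 T5.l0)) (xc T5.l0 T5.l0))) (xa (xb T5.l0 (xc T5.l0 T5.l0)) (xb T5.l0 (xc T5.l0 T5.l0))))) (xa (xb (xb (xa T5.l0 (xs T5.l0 T5.l0)) (xa T5.l0 T5.l0)) (xa (xb T5.l0 (xc T5.l0 T5.l0)) (xb T5.l0 (xs T5.l0 T5.l0)))) (xb (xa (xb (xs T5.l0 T5.l0) (xs T5.l0 (xb T5.l0 T5.l0))) (xb (xs T5.l0 (xb T5.l0 T5.l0)) (xs T5.l0 (xb T5.l0 T5.l0)))) (xa (xb T5.l0 (xs T5.l0 T5.l0)) (xb (xs T5.l0 T5.l0) (xs T5.l0 T5.l0)))))) = true := by decide +kernel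
theorem c3_0_1 : chkTag sI cl9 cl13 cl5 t0 b3_0 (tg true false false RT.r3) (I.pos (nat_lit 0) (nat_lit 0))
  (xa (xk (xb (xa T0.l6 T0.l6) (xa (xk T0.l6 T0.l6) (xk T0.l6 T0.l6))) (xa (xb T0.l6 T0.l6) (xb T0.l6 T0.l6))) (xk (xa (xb T0.l6 (xk T0.l6 T0.l6)) (xb T0.l6 (xk T0.l6 T0.l6))) (xa (xb T0.l6 (xk T0.l6 T0.l6)) (xb T0.l6 (xk T0.l6 T0.l6))))) = true := by decide +kernel
theorem c3_0_2 : chkTag sI cl9 cl13 cl5 t5 b3_0 (Tag.mk true true false RT.tl RT.r4) (I.pos (nat_lit 0) (nat_lit 124588530))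
  (xR T5.l7 (xR T5.l7 (xR T5.l7 T5.l7))) = true := by decide +kernel
theorem c3_0_3 : chkTag sI cl9 cl13 cl5 t0 b3_0 (Tag.mk true false false RT.tl RT.r5) (I.pos (nat_lit 0) (nat_lit 96881482))
  (xR T0.l7 (xR T0.l7 (xR T0.l7 T0.l7))) = true := by decide +kernel
theorem c3_0_4 : chkTag sI cl9 cl13 cl5 t0 b3_0 (tg false false false RT.r3) (I.pos (nat_lit 0) (nat_lit 0))
  (xa (xk (xb (xa T0.l8 T0.l8) (xa T0.l8 T0.l8)) (xb (xa T0.l8 T0.l8) T0.l8)) (xk (xb (xa T0.l8 (xk T0.l8 T0.l8)) (xa T0.l8 (xk (xb T0.l8 T0.l8) (xb T0.l8 T0.l8)))) (xb (xa T0.l8 (xk T0.l8 T0.l8)) (xa T0.l8 (xk (xb T0.l8 T0.l8) (xb T0.l8 (xs T0.l8 T0.l8))))))) = true := by decide +kernel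
theorem c3_0_5 : chkTag sI cl9 cl13 cl5 t5 b3_0 (tg false true false RT.r4) (I.pos (nat_lit 0) (nat_lit 0))
  (xk (xa T5.l8 (xb T5.l8 T5.l8)) (xa T5.l8 (xb T5.l8 T5.l8))) = true := by decide +kernel
theorem c3_0_6 : chkTag sI cl9 cl13 cl5 t0 b3_0 (Tag.mk false false false RT.tl RT.r5) (I.mix (nat_lit 17240550) (nat_lit 96881482))
  (xR T0.l9 (xR T0.l9 (xR T0.l9 T0.l9))) = true := by decide +kernel
theorem c3_0_7 : chkTag sI cl9 cl13 cl5 t5 b3_0 (Tag.mk false true false RT.tl RT.r6) (I.mix (nat_lit 17240550) (nat_lit 71940500))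
  (xR T5.l9 (xR T5.l9 T5.l9)) = true := by decide +kernel
theorem bx3_0 : BoxOK sI cl9 cl13 cl5 t5 t0 b3_0 :=
  box_mk' [(tg true true false RT.r2), (tg true false false RT.r3), (Tag.mk true true false RT.tl RT.r4), (Tag.mk true false false RT.tl RT.r5), (tg false false false RT.r3), (tg false true false RT.r4), (Tag.mk false false false RT.tl RT.r5), (Tag.mk false true false RT.tl RT.r6)] rfl (allL_c (ex_mk c3_0_0) (allL_c (ex_mk c3_0_1) (allL_c (ex_mk c3_0_2) (allL_c (ex_mk c3_0_3) (allL_c (ex_mk c3_0_4) (allL_c (ex_mk c3_0_5) (allL_c (ex_mk c3_0_6) (allL_c (ex_mk c3_0_7) allL_n))))))))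
theorem bx3_1 : BoxOK sI cl9 cl13 cl5 t5 t0 b3_1 :=
  box_mk (TrL.c (I.pos (nat_lit 0) (nat_lit 0)) (xa (xb T5.l12 T5.l12) T5.l0)
  (TrL.c (I.pos (nat_lit 0) (nat_lit 0)) (xa (xk T0.l6 T0.l6) (xk T0.l6 T0.l6))
  (TrL.c (I.pos (nat_lit 0) (nat_lit 124588530)) T5.l7
  (TrL.c (I.pos (nat_lit 0) (nat_lit 96881482)) T0.l7
  (TrL.c (I.pos (nat_lit 0) (nat_lit 0)) (xa (xk (xb T0.l12 T0.l12) (xb T0.l12 T0.l12)) (xk (xb (xa T0.l12 T0.l12) T0.l13) (xb (xa T0.l12 T0.l12) T0.l12)))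
  (TrL.c (I.pos (nat_lit 0) (nat_lit 0)) T5.l8
  (TrL.c (I.mix (nat_lit 17240550) (nat_lit 96881482)) (xR T0.l9 T0.l9)
  (TrL.c (I.mix (nat_lit 17240550) (nat_lit 71940500)) T5.l2
  TrL.n)))))))) (by decide +kernel)
theorem bx3_2 : BoxOK sI cl9 cl13 cl5 t5 t0 b3_2 :=
  box_mk (TrL.c (I.pos (nat_lit 0) (nat_lit 0)) (xa T5.l12 T5.l12)
  (TrL.c (I.pos (nat_lit 0) (nat_lit 0)) (xa (xa T0.l12 T0.l6) (xa T0.l6 T0.l6))
  (TrL.c (I.pos (nat_lit 0) (nat_lit 124588530)) T5.l7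
  (TrL.c (I.pos (nat_lit 0) (nat_lit 96881482)) (xR T0.l7 T0.l7)
  (TrL.c (I.pos (nat_lit 0) (nat_lit 0)) (xa (xa T0.l12 T0.l12) T0.l12)
  (TrL.c (I.pos (nat_lit 0) (nat_lit 0)) T5.l8
  (TrL.c (I.mix (nat_lit 17240550) (nat_lit 96881482)) T0.l9
  (TrL.c (I.mix (nat_lit 17240550) (nat_lit 71940500)) T5.l9
  TrL.n)))))))) (by decide +kernel)
theorem bx3_3 : BoxOK sI cl9 cl13 cl5 t5 t0 b3_3 :=
  box_mk (TrL.c (I.pos (nat_lit 0) (nat_lit 0)) (xb (xa (xb T5.l13 T5.l13) (xb T5.l13 T5.l13)) (xa (xb (xa T5.l13 T5.l13) (xa T5.l13 T5.l13)) (xb (xa T5.l13 T5.l13) (xa T5.l13 T5.l13))))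
  (TrL.c (I.pos (nat_lit 0) (nat_lit 0)) (xk (xb (xa T0.l6 T0.l6) (xa T0.l6 T0.l6)) (xb (xa T0.l6 T0.l6) (xa T0.l6 T0.l6)))
  (TrL.c (I.pos (nat_lit 0) (nat_lit 124588530)) (xR T5.l7 (xR T5.l7 (xR T5.l7 T5.l7)))
  (TrL.c (I.pos (nat_lit 0) (nat_lit 96881482)) (xR T0.l7 (xR T0.l7 T0.l7))
  (TrL.c (I.pos (nat_lit 0) (nat_lit 0)) (xk (xb (xa T0.l13 (xb T0.l13 T0.l13)) (xa T0.l13 T0.l8)) (xb (xa T0.l13 T0.l13) (xa T0.l8 T0.l8)))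
  (TrL.c (I.pos (nat_lit 0) (nat_lit 0)) (xk T5.l8 T5.l8)
  (TrL.c (I.mix (nat_lit 17240550) (nat_lit 96881482)) (xR T0.l9 (xR T0.l9 T0.l9))
  (TrL.c (I.mix (nat_lit 17240550) (nat_lit 71940500)) (xR T5.l9 (xR T5.l9 T5.l9))
  TrL.n)))))))) (by decide +kernel)
theorem bx3_4 : BoxOK sI cl9 cl13 cl5 t5 t0 b3_4 :=
  box_mk (TrL.c (I.pos (nat_lit 0) (nat_lit 0)) (xa (xa (xb (xa (xb T5.l12 T5.l12) T5.l12) (xa (xb T5.l12 (xa T5.l12 T5.l12)) (xb T5.l12 T5.l12))) (xb T5.l12 (xa T5.l12 T5.l12))) (xa (xb T5.l12 (xa T5.l12 T5.l12)) (xa T5.l12 T5.l12)))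
  (TrL.c (I.pos (nat_lit 0) (nat_lit 0)) (xa (xa T0.l6 T0.l6) (xa (xb T0.l6 T0.l6) (xk T0.l6 T0.l6)))
  (TrL.c (I.pos (nat_lit 0) (nat_lit 124588530)) T5.l7
  (TrL.c (I.pos (nat_lit 0) (nat_lit 96881482)) (xR T0.l7 T0.l7)
  (TrL.c (I.pos (nat_lit 0) (nat_lit 0)) (xa (xa T0.l12 T0.l12) (xa T0.l12 T0.l12))
  (TrL.c (I.pos (nat_lit 0) (nat_lit 0)) (xa T5.l8 T5.l8)
  (TrL.c (I.mix (nat_lit 17240550) (nat_lit 96881482)) T0.l9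
  (TrL.c (I.mix (nat_lit 17240550) (nat_lit 71940500)) T5.l9
  TrL.n)))))))) (by decide +kernel)
theorem bx3_5 : BoxOK sI cl9 cl13 cl5 t5 t0 b3_5 :=
  box_mk (TrL.c (I.pos (nat_lit 0) (nat_lit 0)) (xa T5.l0 T5.l0)
  (TrL.c (I.pos (nat_lit 0) (nat_lit 0)) (xa T0.l6 (xk T0.l6 T0.l6))
  (TrL.c (I.pos (nat_lit 0) (nat_lit 124588530)) (xR T5.l7 T5.l7)
  (TrL.c (I.pos (nat_lit 0) (nat_lit 96881482)) (xR T0.l7 T0.l7)
  (TrL.c (I.pos (nat_lit 0) (nat_lit 0)) (xk (xa (xb T0.l13 T0.l13) (xb T0.l8 T0.l13)) (xa (xb T0.l13 T0.l13) (xb T0.l8 T0.l13)))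
  (TrL.c (I.pos (nat_lit 0) (nat_lit 0)) (xk T5.l8 T5.l8)
  (TrL.c (I.mix (nat_lit 17240550) (nat_lit 96881482)) (xR T0.l9 (xR T0.l9 T0.l9))
  (TrL.c (I.mix (nat_lit 17240550) (nat_lit 71940500)) T5.l2
  TrL.n)))))))) (by decide +kernel)
theorem bx3_6 : BoxOK sI cl9 cl13 cl5 t5 t0 b3_6 :=
  box_mk (TrL.c (I.pos (nat_lit 0) (nat_lit 0)) T5.l0
  (TrL.c (I.pos (nat_lit 0) (nat_lit 0)) T0.l6
  (TrL.c (I.pos (nat_lit 0) (nat_lit 124588530)) T5.l7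
  (TrL.c (I.pos (nat_lit 0) (nat_lit 96881482)) T0.l7
  (TrL.c (I.pos (nat_lit 0) (nat_lit 0)) (xk T0.l12 T0.l12)
  (TrL.c (I.pos (nat_lit 0) (nat_lit 0)) T5.l8
  (TrL.c (I.mix (nat_lit 17240550) (nat_lit 96881482)) (xR T0.l9 T0.l9)
  (TrL.c (I.mix (nat_lit 17240550) (nat_lit 71940500)) T5.l9
  TrL.n)))))))) (by decide +kernel)
theorem bx3_7 : BoxOK sI cl9 cl13 cl5 t5 t0 b3_7 :=
  box_mk (TrL.c (I.pos (nat_lit 0) (nat_lit 0)) (xa (xa (xa T5.l12 T5.l12) T5.l12) (xa T5.l12 T5.l12))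
  (TrL.c (I.pos (nat_lit 0) (nat_lit 0)) (xa T0.l12 (xa T0.l6 T0.l6))
  (TrL.c (I.pos (nat_lit 0) (nat_lit 124588530)) T5.l7
  (TrL.c (I.pos (nat_lit 0) (nat_lit 96881482)) (xR T0.l7 (xR T0.l7 T0.l7))
  (TrL.c (I.pos (nat_lit 0) (nat_lit 0)) (xa (xa T0.l12 T0.l12) T0.l12)
  (TrL.c (I.pos (nat_lit 0) (nat_lit 0)) (xa T5.l8 T5.l8)
  (TrL.c (I.mix (nat_lit 17240550) (nat_lit 96881482)) T0.l9
  (TrL.c (I.mix (nat_lit 17240550) (nat_lit 71940500)) T5.l9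
  TrL.n)))))))) (by decide +kernel)
theorem bx3_8 : BoxOK sI cl9 cl13 cl5 t5 t0 b3_8 :=
  box_mk (TrL.c (I.pos (nat_lit 0) (nat_lit 0)) (xa (xa T5.l12 T5.l12) (xa T5.l12 T5.l12))
  (TrL.c (I.pos (nat_lit 0) (nat_lit 0)) (xa T0.l6 (xk T0.l6 T0.l6))
  (TrL.c (I.pos (nat_lit 0) (nat_lit 124588530)) T5.l7
  (TrL.c (I.pos (nat_lit 0) (nat_lit 96881482)) T0.l7
  (TrL.c (I.pos (nat_lit 0) (nat_lit 0)) (xa T0.l12 T0.l12)
  (TrL.c (I.pos (nat_lit 0) (nat_lit 0)) T5.l8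
  (TrL.c (I.mix (nat_lit 17240550) (nat_lit 96881482)) T0.l9
  (TrL.c (I.mix (nat_lit 17240550) (nat_lit 71940500)) T5.l9
  TrL.n)))))))) (by decide +kernel)
theorem bx3_9 : BoxOK sI cl9 cl13 cl5 t5 t0 b3_9 :=
  box_mk (TrL.c (I.pos (nat_lit 0) (nat_lit 0)) (xb (xa (xb T5.l12 T5.l12) T5.l0) (xa (xb T5.l12 (xa T5.l12 T5.l12)) (xb T5.l12 T5.l12)))
  (TrL.c (I.pos (nat_lit 0) (nat_lit 0)) (xb (xk T0.l6 T0.l6) T0.l6)
  (TrL.c (I.pos (nat_lit 0) (nat_lit 124588530)) T5.l7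
  (TrL.c (I.pos (nat_lit 0) (nat_lit 96881482)) T0.l7
  (TrL.c (I.pos (nat_lit 0) (nat_lit 0)) (xb (xk (xa T0.l12 T0.l12) (xa T0.l12 T0.l12)) (xk (xa T0.l12 T0.l13) (xa T0.l12 T0.l12)))
  (TrL.c (I.pos (nat_lit 0) (nat_lit 0)) T5.l8
  (TrL.c (I.mix (nat_lit 17240550) (nat_lit 96881482)) (xR T0.l9 T0.l9)
  (TrL.c (I.mix (nat_lit 17240550) (nat_lit 71940500)) T5.l9
  TrL.n)))))))) (by decide +kernel)
theorem bx3_10 : BoxOK sI cl9 cl13 cl5 t5 t0 b3_10 :=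
  box_mk (TrL.c (I.pos (nat_lit 0) (nat_lit 0)) (xa (xa (xb T5.l12 T5.l12) T5.l12) (xa T5.l12 T5.l12))
  (TrL.c (I.pos (nat_lit 0) (nat_lit 0)) (xa (xa T0.l12 T0.l6) (xa T0.l6 T0.l6))
  (TrL.c (I.pos (nat_lit 0) (nat_lit 124588530)) T5.l7
  (TrL.c (I.pos (nat_lit 0) (nat_lit 96881482)) (xR T0.l7 (xR T0.l7 T0.l7))
  (TrL.c (I.pos (nat_lit 0) (nat_lit 0)) (xa (xa T0.l12 T0.l12) T0.l12)
  (TrL.c (I.pos (nat_lit 0) (nat_lit 0)) T5.l8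
  (TrL.c (I.mix (nat_lit 17240550) (nat_lit 96881482)) T0.l9
  (TrL.c (I.mix (nat_lit 17240550) (nat_lit 71940500)) T5.l9
  TrL.n)))))))) (by decide +kernel)
theorem c3_11_0 : chkTag sI cl9 cl13 cl5 t5 b3_11 (tg true true false RT.r2) (I.pos (nat_lit 0) (nat_lit 0))
  (xa (xb (xa T5.l0 T5.l0) (xa (xb T5.l0 T5.l0) (xb T5.l0 T5.l0))) (xa (xb T5.l0 (xb T5.l0 T5.l0)) (xb (xa T5.l0 T5.l0) (xa T5.l0 (xb T5.l0 T5.l0))))) = true := by decide +kernel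
theorem c3_11_1 : chkTag sI cl9 cl13 cl5 t0 b3_11 (tg true false false RT.r3) (I.pos (nat_lit 0) (nat_lit 0))
  (xa (xb (xk (xa T0.l6 T0.l6) (xa T0.l6 T0.l6)) (xk (xa T0.l6 T0.l6) (xa T0.l6 T0.l6))) (xk (xb (xa T0.l6 (xk T0.l6 T0.l6)) (xa T0.l6 (xk (xb T0.l6 T0.l6) T0.l6))) (xb (xa T0.l6 T0.l6) (xa T0.l6 T0.l6)))) = true := by decide +kernel
theorem c3_11_2 : chkTag sI cl9 cl13 cl5 t5 b3_11 (Tag.mk true true false RT.tl RT.r4) (I.pos (nat_lit 0) (nat_lit 124588530))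
  (xR T5.l7 (xR T5.l7 (xR T5.l7 T5.l4))) = true := by decide +kernel
theorem c3_11_3 : chkTag sI cl9 cl13 cl5 t0 b3_11 (Tag.mk true false false RT.tl RT.r5) (I.pos (nat_lit 0) (nat_lit 96881482))
  (xR T0.l7 (xR T0.l7 (xR T0.l7 (xa T0.l7 T0.l7)))) = true := by decide +kernel
theorem c3_11_4 : chkTag sI cl9 cl13 cl5 t0 b3_11 (tg false false false RT.r3) (I.pos (nat_lit 0) (nat_lit 0))
  (xa (xb (xk (xa (xb T0.l8 T0.l8) (xb (xk T0.l8 T0.l8) T0.l8)) (xa (xb T0.l8 T0.l8) (xb (xk T0.l8 T0.l8) T0.l8))) (xk (xa T0.l8 T0.l8) (xa T0.l8 T0.l8))) (xb (xk (xa (xb (xk (xa T0.l8 T0.l8) (xa T0.l8 T0.l8)) T0.l8) (xb (xk (xa T0.l8 (xk T0.l8 T0.l8)) (xa T0.l8 (xb T0.l8 T0.l8))) (xk T0.l8 T0.l8))) (xa (xb (xk (xa T0.l8 T0.l8) (xa T0.l8 T0.l8)) T0.l8) (xb (xk (xa T0.l8 (xb T0.l8 T0.l8)) (xa T0.l8 (xb T0.l8 T0.l8))) (xk T0.l8 T0.l8)))) (xk (xa (xb T0.l8 T0.l8)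 (xb (xk (xa T0.l8 T0.l8) (xa T0.l8 T0.l8)) (xk (xa T0.l8 (xb T0.l8 T0.l8)) (xa T0.l8 (xb T0.l8 T0.l8))))) (xa (xb T0.l8 T0.l8) (xb (xk (xa T0.l8 T0.l8) (xa T0.l8 T0.l8)) (xk (xa T0.l8 (xb T0.l8 T0.l8)) (xa T0.l8 (xb T0.l8 T0.l8)))))))) = true := by decide +kernel
theorem c3_11_5 : chkTag sI cl9 cl13 cl5 t5 b3_11 (tg false true false RT.r4) (I.pos (nat_lit 0) (nat_lit 0))
  (xa (xk (xb T5.l8 T5.l8) (xb T5.l8 T5.l8)) (xk (xb (xa T5.l8 (xk T5.l8 T5.l8)) (xa T5.l8 (xk T5.l8 T5.l8))) (xb (xa T5.l8 (xk T5.l8 T5.l8)) (xa T5.l8 (xk T5.l8 T5.l8))))) = true := by decide +kernel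
theorem c3_11_6 : chkTag sI cl9 cl13 cl5 t0 b3_11 (Tag.mk false false false RT.tl RT.r5) (I.mix (nat_lit 17240550) (nat_lit 96881482))
  (xR T0.l9 (xR T0.l9 (xR T0.l9 (xk (xa T0.l9 T0.l9) T0.l9)))) = true := by decide +kernel
theorem c3_11_7 : chkTag sI cl9 cl13 cl5 t5 b3_11 (Tag.mk false true false RT.tl RT.r6) (I.mix (nat_lit 17240550) (nat_lit 71940500))
  (xR T5.l9 (xR T5.l9 T5.l9)) = true := by decide +kernel
theorem bx3_11 : BoxOK sI cl9 cl13 cl5 t5 t0 b3_11 :=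
  box_mk' [(tg true true false RT.r2), (tg true false false RT.r3), (Tag.mk true true false RT.tl RT.r4), (Tag.mk true false false RT.tl RT.r5), (tg false false false RT.r3), (tg false true false RT.r4), (Tag.mk false false false RT.tl RT.r5), (Tag.mk false true false RT.tl RT.r6)] rfl (allL_c (ex_mk c3_11_0) (allL_c (ex_mk c3_11_1) (allL_c (ex_mk c3_11_2) (allL_c (ex_mk c3_11_3) (allL_c (ex_mk c3_11_4) (allL_c (ex_mk c3_11_5) (allL_c (ex_mk c3_11_6) (allL_c (ex_mk c3_11_7) allL_n))))))))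
theorem bx3_12 : BoxOK sI cl9 cl13 cl5 t5 t0 b3_12 :=
  box_mk (TrL.c (I.pos (nat_lit 0) (nat_lit 0)) (xa (xb T5.l0 (xa T5.l0 T5.l0)) (xb T5.l0 (xa T5.l0 T5.l0)))
  (TrL.c (I.pos (nat_lit 0) (nat_lit 0)) (xk (xa (xb T0.l6 T0.l6) (xb T0.l6 T0.l6)) (xa T0.l6 (xb T0.l6 T0.l6)))
  (TrL.c (I.pos (nat_lit 0) (nat_lit 124588530)) (xR T5.l7 (xR T5.l7 T5.l7))
  (TrL.c (I.pos (nat_lit 0) (nat_lit 96881482)) (xR T0.l7 (xR T0.l7 T0.l7))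
  (TrL.c (I.pos (nat_lit 0) (nat_lit 0)) (xk (xa T0.l8 T0.l8) (xa T0.l8 T0.l8))
  (TrL.c (I.pos (nat_lit 0) (nat_lit 0)) (xk T5.l8 T5.l8)
  (TrL.c (I.mix (nat_lit 17240550) (nat_lit 96881482)) (xR T0.l9 (xR T0.l9 T0.l9))
  (TrL.c (I.mix (nat_lit 17240550) (nat_lit 71940500)) (xR T5.l9 T5.l9)
  TrL.n)))))))) (by decide +kernel)
theorem bx3_13 : BoxOK sI cl9 cl13 cl5 t5 t0 b3_13 :=
  box_mk (TrL.c (I.pos (nat_lit 0) (nat_lit 0)) (xa (xb T5.l13 T5.l13) (xb T5.l13 T5.l13))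
  (TrL.c (I.pos (nat_lit 0) (nat_lit 0)) (xk (xb T0.l6 T0.l6) (xb T0.l6 T0.l6))
  (TrL.c (I.pos (nat_lit 0) (nat_lit 124588530)) (xR T5.l7 (xR T5.l7 T5.l7))
  (TrL.c (I.pos (nat_lit 0) (nat_lit 96881482)) (xR T0.l7 T0.l7)
  (TrL.c (I.pos (nat_lit 0) (nat_lit 0)) (xk (xb (xa T0.l13 T0.l13) T0.l13) (xb (xa T0.l13 T0.l13) T0.l13))
  (TrL.c (I.pos (nat_lit 0) (nat_lit 0)) T5.l8
  (TrL.c (I.mix (nat_lit 17240550) (nat_lit 96881482)) (xR T0.l9 (xR T0.l9 T0.l9))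
  (TrL.c (I.mix (nat_lit 17240550) (nat_lit 71940500)) (xR T5.l9 (xR T5.l9 T5.l9))
  TrL.n)))))))) (by decide +kernel)
theorem sv3 : StarV sI cl9 cl13 cl5 t5 t0 t3 :=
  (bt_n (bt_n (bt_n (bt_b bx3_0) (bt_n (bt_b bx3_1) (bt_b bx3_2))) (bt_n (bt_n (bt_b bx3_3) (bt_b bx3_4)) (bt_n (bt_b bx3_5) (bt_b bx3_6)))) (bt_n (bt_n (bt_b bx3_7) (bt_n (bt_b bx3_8) (bt_b bx3_9))) (bt_n (bt_n (bt_b bx3_10) (bt_b bx3_11)) (bt_n (bt_b bx3_12) (bt_b bx3_13)))))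
def S3 : StarD := StarD.mk cl9 cl13 cl5 5 0 t3
theorem bx4_0 : BoxOK sI cl13 cl5 cl9 t1 t3 b4_0 :=
  box_mk (TrL.c (I.pos (nat_lit 0) (nat_lit 0)) (xa (xb (xa (xb T1.l0 T1.l0) T1.l0) (xa (xb T1.l0 (xa T1.l0 T1.l0)) (xb T1.l0 (xs T1.l0 T1.l0)))) (xb (xa T1.l0 T1.l0) (xa (xb T1.l0 (xs T1.l0 T1.l0)) (xb T1.l0 T1.l0))))
  (TrL.c (I.pos (nat_lit 0) (nat_lit 0)) (xb (xa (xk T3.l1 T3.l1) (xk T3.l1 T3.l1)) (xa (xk (xa T3.l1 T3.l1) T3.l1) (xk (xa T3.l1 T3.l1) (xa T3.l1 T3.l1))))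
  (TrL.c (I.pos (nat_lit 0) (nat_lit 134217730)) (xR T1.l1 (xR T1.l1 (xR T1.l1 T1.l1)))
  (TrL.c (I.pos (nat_lit 0) (nat_lit 110514882)) (xR T3.l2 (xR T3.l2 T3.l2))
  (TrL.c (I.pos (nat_lit 0) (nat_lit 0)) (xa (xb (xk (xb T3.l3 T3.l3) T3.l3) (xk T3.l3 T3.l3)) (xb (xk (xa T3.l3 (xb T3.l3 T3.l3)) (xa T3.l3 (xb T3.l3 T3.l3))) (xk (xa T3.l3 T3.l3) (xa T3.l3 T3.l3))))
  (TrL.c (I.pos (nat_lit 0) (nat_lit 0)) (xk T1.l2 T1.l2)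
  (TrL.c (I.mix (nat_lit 8088324) (nat_lit 110514882)) (xR T3.l4 (xR T3.l4 T3.l4))
  (TrL.c (I.mix (nat_lit 8088324) (nat_lit 89478486)) (xR T1.l3 (xR T1.l3 T1.l3))
  TrL.n)))))))) (by decide +kernel)
theorem bx4_1 : BoxOK sI cl13 cl5 cl9 t1 t3 b4_1 :=
  box_mk (TrL.c (I.pos (nat_lit 0) (nat_lit 0)) (xa (xb T1.l4 (xa T1.l4 T1.l4)) (xb T1.l4 T1.l4))
  (TrL.c (I.pos (nat_lit 0) (nat_lit 0)) (xa T3.l1 T3.l1)
  (TrL.c (I.pos (nat_lit 0) (nat_lit 134217730)) T1.l10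
  (TrL.c (I.pos (nat_lit 0) (nat_lit 110514882)) T3.l10
  (TrL.c (I.pos (nat_lit 0) (nat_lit 0)) (xa (xb (xk T3.l5 T3.l5) T3.l5) (xb (xk T3.l5 T3.l5) (xk T3.l5 T3.l5)))
  (TrL.c (I.pos (nat_lit 0) (nat_lit 0)) T1.l2
  (TrL.c (I.mix (nat_lit 8088324) (nat_lit 110514882)) (xR T3.l4 (xR T3.l4 T3.l4))
  (TrL.c (I.mix (nat_lit 8088324) (nat_lit 89478486)) T1.l8
  TrL.n)))))))) (by decide +kernel)
theorem bx4_2 : BoxOK sI cl13 cl5 cl9 t1 t3 b4_2 :=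
  box_mk (TrL.c (I.pos (nat_lit 0) (nat_lit 0)) T3.l1
  (TrL.c (I.pos (nat_lit 0) (nat_lit 0)) T1.l1
  (TrL.c (I.mix (nat_lit 8088324) (nat_lit 110514882)) (xR T3.l7 (xR T3.l7 T3.l2))
  (TrL.c (I.mix (nat_lit 8088324) (nat_lit 89478486)) T1.l1
  TrL.n)))) (by decide +kernel)
theorem bx4_3 : BoxOK sI cl13 cl5 cl9 t1 t3 b4_3 :=
  box_mk (TrL.c (I.pos (nat_lit 0) (nat_lit 0)) (xb (xa T1.l13 T1.l13) (xa (xb T1.l13 T1.l13) (xb T1.l13 T1.l13)))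
  (TrL.c (I.pos (nat_lit 0) (nat_lit 0)) (xk (xb T3.l1 (xa T3.l1 T3.l1)) (xb T3.l1 T3.l1))
  (TrL.c (I.pos (nat_lit 0) (nat_lit 134217730)) (xR T1.l1 (xR T1.l1 T1.l1))
  (TrL.c (I.pos (nat_lit 0) (nat_lit 110514882)) (xR T3.l2 (xR T3.l2 T3.l2))
  (TrL.c (I.pos (nat_lit 0) (nat_lit 0)) (xb (xk T3.l13 T3.l13) (xk T3.l13 T3.l13))
  (TrL.c (I.pos (nat_lit 0) (nat_lit 0)) T1.l2
  (TrL.c (I.mix (nat_lit 8088324) (nat_lit 110514882)) (xR T3.l4 (xR T3.l4 T3.l4))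
  (TrL.c (I.mix (nat_lit 8088324) (nat_lit 89478486)) (xR T1.l3 T1.l3)
  TrL.n)))))))) (by decide +kernel)
theorem bx4_4 : BoxOK sI cl13 cl5 cl9 t1 t3 b4_4 :=
  box_mk (TrL.c (I.pos (nat_lit 0) (nat_lit 0)) (xb T1.l4 T1.l4)
  (TrL.c (I.pos (nat_lit 0) (nat_lit 0)) T3.l1
  (TrL.c (I.pos (nat_lit 0) (nat_lit 134217730)) T1.l1
  (TrL.c (I.pos (nat_lit 0) (nat_lit 110514882)) (xR T3.l2 (xR T3.l2 T3.l2))
  (TrL.c (I.pos (nat_lit 0) (nat_lit 0)) T3.l5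
  (TrL.c (I.pos (nat_lit 0) (nat_lit 0)) T1.l2
  (TrL.c (I.mix (nat_lit 8088324) (nat_lit 110514882)) T3.l4
  (TrL.c (I.mix (nat_lit 8088324) (nat_lit 89478486)) T1.l3
  TrL.n)))))))) (by decide +kernel)
theorem bx4_5 : BoxOK sI cl13 cl5 cl9 t1 t3 b4_5 :=
  box_mk (TrL.c (I.pos (nat_lit 0) (nat_lit 0)) (xa (xb T1.l4 T1.l4) (xb T1.l4 T1.l4))
  (TrL.c (I.pos (nat_lit 0) (nat_lit 0)) T3.l1
  (TrL.c (I.pos (nat_lit 0) (nat_lit 134217730)) T1.l1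
  (TrL.c (I.pos (nat_lit 0) (nat_lit 110514882)) T3.l2
  (TrL.c (I.pos (nat_lit 0) (nat_lit 0)) T3.l5
  (TrL.c (I.pos (nat_lit 0) (nat_lit 0)) T1.l2
  (TrL.c (I.mix (nat_lit 8088324) (nat_lit 110514882)) T3.l4
  (TrL.c (I.mix (nat_lit 8088324) (nat_lit 89478486)) T1.l3
  TrL.n)))))))) (by decide +kernel)
theorem bx4_6 : BoxOK sI cl13 cl5 cl9 t1 t3 b4_6 :=
  box_mk (TrL.c (I.pos (nat_lit 0) (nat_lit 0)) (xb (xa T1.l4 T1.l4) (xa T1.l4 T1.l4))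
  (TrL.c (I.pos (nat_lit 0) (nat_lit 0)) (xb T3.l1 T3.l1)
  (TrL.c (I.pos (nat_lit 0) (nat_lit 134217730)) T1.l1
  (TrL.c (I.pos (nat_lit 0) (nat_lit 110514882)) (xR T3.l2 T3.l2)
  (TrL.c (I.pos (nat_lit 0) (nat_lit 0)) (xb (xk T3.l5 T3.l5) T3.l5)
  (TrL.c (I.pos (nat_lit 0) (nat_lit 0)) T1.l2
  (TrL.c (I.mix (nat_lit 8088324) (nat_lit 110514882)) T3.l4
  (TrL.c (I.mix (nat_lit 8088324) (nat_lit 89478486)) T1.l3
  TrL.n)))))))) (by decide +kernel)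
theorem bx4_7 : BoxOK sI cl13 cl5 cl9 t1 t3 b4_7 :=
  box_mk (TrL.c (I.pos (nat_lit 0) (nat_lit 0)) T3.l1
  (TrL.c (I.pos (nat_lit 0) (nat_lit 0)) T1.l1
  (TrL.c (I.mix (nat_lit 8088324) (nat_lit 110514882)) T3.l10
  (TrL.c (I.mix (nat_lit 8088324) (nat_lit 89478486)) T1.l1
  TrL.n)))) (by decide +kernel)
theorem bx4_8 : BoxOK sI cl13 cl5 cl9 t1 t3 b4_8 :=
  box_mk (TrL.c (I.pos (nat_lit 0) (nat_lit 0)) (xa T1.l0 T1.l0)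
  (TrL.c (I.pos (nat_lit 0) (nat_lit 0)) T3.l1
  (TrL.c (I.pos (nat_lit 0) (nat_lit 134217730)) T1.l10
  (TrL.c (I.pos (nat_lit 0) (nat_lit 110514882)) T3.l10
  (TrL.c (I.pos (nat_lit 0) (nat_lit 0)) (xk (xa T3.l13 (xb T3.l3 T3.l13)) (xa T3.l13 (xb T3.l13 T3.l13)))
  (TrL.c (I.pos (nat_lit 0) (nat_lit 0)) T1.l2
  (TrL.c (I.mix (nat_lit 8088324) (nat_lit 110514882)) T3.l4
  (TrL.c (I.mix (nat_lit 8088324) (nat_lit 89478486)) T1.l3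
  TrL.n)))))))) (by decide +kernel)
theorem bx4_9 : BoxOK sI cl13 cl5 cl9 t1 t3 b4_9 :=
  box_mk (TrL.c (I.pos (nat_lit 0) (nat_lit 0)) (xa (xb (xa T1.l0 T1.l0) (xa T1.l0 (xb T1.l0 T1.l0))) (xb (xa T1.l0 T1.l0) (xa (xb T1.l0 T1.l0) (xb T1.l0 T1.l0))))
  (TrL.c (I.pos (nat_lit 0) (nat_lit 0)) (xa (xk (xb T3.l1 (xa T3.l1 T3.l1)) (xb T3.l1 T3.l1)) (xk (xb T3.l9 (xa T3.l1 T3.l1)) (xb T3.l1 (xa T3.l1 T3.l1))))
  (TrL.c (I.pos (nat_lit 0) (nat_lit 134217730)) (xR T1.l1 T1.l10)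
  (TrL.c (I.pos (nat_lit 0) (nat_lit 110514882)) (xR T3.l2 (xR T3.l2 T3.l10))
  (TrL.c (I.pos (nat_lit 0) (nat_lit 0)) (xa (xb (xk (xa (xb T3.l3 T3.l3) (xb (xk T3.l3 T3.l3) T3.l3)) (xa (xb T3.l3 T3.l3) (xb (xk T3.l3 T3.l3) T3.l3))) (xk (xa T3.l3 T3.l3) (xa T3.l3 T3.l3))) (xb (xk (xa (xb (xk T3.l0 T3.l0) T3.l3) (xb (xk (xa T3.l3 (xb T3.l3 T3.l3)) (xa T3.l3 T3.l3)) (xk (xa T3.l3 T3.l3) (xa T3.l3 T3.l3)))) (xa (xb (xk T3.l0 T3.l0) T3.l3) (xb (xk (xa T3.l3 T3.l3) (xa T3.l3 T3.l3)) (xk T3.l3 T3.l3)))) (xk (xa (xb T3.l3 T3.l3) (xb (xk (xa T3.l3 T3.l3) (xa T3.l3 T3.l3)) (xk (xa T3.l3 T3.l3) (xa T3.l3 T3.l3)))) (xa (xb T3.l3 T3.l3) (xb (xk T3.l3 T3.l3) (xk (xa T3.l3 T3.l3) (xa T3.l3 T3.l3)))))))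
  (TrL.c (I.pos (nat_lit 0) (nat_lit 0)) (xa (xb T1.l2 T1.l2) (xk (xb T1.l2 T1.l2) (xb T1.l2 T1.l2)))
  (TrL.c (I.mix (nat_lit 8088324) (nat_lit 110514882)) (xR T3.l4 (xR T3.l4 (xR T3.l4 (xk (xb T3.l4 T3.l4) T3.l4))))
  (TrL.c (I.mix (nat_lit 8088324) (nat_lit 89478486)) (xR T1.l3 (xR T1.l3 T1.l3))
  TrL.n)))))))) (by decide +kernel)
theorem bx4_10 : BoxOK sI cl13 cl5 cl9 t1 t3 b4_10 :=
  box_mk (TrL.c (I.pos (nat_lit 0) (nat_lit 0)) (xa (xb T1.l0 T1.l0) (xb T1.l0 T1.l0))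
  (TrL.c (I.pos (nat_lit 0) (nat_lit 0)) (xk (xa T3.l1 T3.l1) (xa T3.l1 T3.l1))
  (TrL.c (I.pos (nat_lit 0) (nat_lit 134217730)) (xR T1.l1 (xR T1.l1 T1.l1))
  (TrL.c (I.pos (nat_lit 0) (nat_lit 110514882)) (xR T3.l2 T3.l2)
  (TrL.c (I.pos (nat_lit 0) (nat_lit 0)) (xk (xb T3.l3 (xa T3.l3 (xs T3.l3 T3.l3))) (xb T3.l3 (xa T3.l3 (xs T3.l3 (xb T3.l3 T3.l3)))))
  (TrL.c (I.pos (nat_lit 0) (nat_lit 0)) T1.l2
  (TrL.c (I.mix (nat_lit 8088324) (nat_lit 110514882)) (xR T3.l4 T3.l4)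
  (TrL.c (I.mix (nat_lit 8088324) (nat_lit 89478486)) T1.l8
  TrL.n)))))))) (by decide +kernel)
theorem bx4_11 : BoxOK sI cl13 cl5 cl9 t1 t3 b4_11 :=
  box_mk (TrL.c (I.pos (nat_lit 0) (nat_lit 0)) (xb (xa T1.l13 T1.l13) (xa T1.l13 T1.l13))
  (TrL.c (I.pos (nat_lit 0) (nat_lit 0)) (xk (xb T3.l1 T3.l1) (xb T3.l1 T3.l1))
  (TrL.c (I.pos (nat_lit 0) (nat_lit 134217730)) (xR T1.l1 T1.l10)
  (TrL.c (I.pos (nat_lit 0) (nat_lit 110514882)) (xR T3.l2 (xR T3.l2 T3.l2))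
  (TrL.c (I.pos (nat_lit 0) (nat_lit 0)) (xk (xb T3.l13 T3.l13) (xb T3.l13 T3.l13))
  (TrL.c (I.pos (nat_lit 0) (nat_lit 0)) T1.l2
  (TrL.c (I.mix (nat_lit 8088324) (nat_lit 110514882)) (xR T3.l4 (xR T3.l4 T3.l4))
  (TrL.c (I.mix (nat_lit 8088324) (nat_lit 89478486)) T1.l8
  TrL.n)))))))) (by decide +kernel)
theorem sv4 : StarV sI cl13 cl5 cl9 t1 t3 t4 :=
  (bt_n (bt_n (bt_n (bt_b bx4_0) (bt_n (bt_b bx4_1) (bt_b bx4_2))) (bt_n (bt_b bx4_3) (bt_n (bt_b bx4_4) (bt_b bx4_5)))) (bt_n (bt_n (bt_b bx4_6) (bt_n (bt_b bx4_7) (bt_b bx4_8))) (bt_n (bt_b bx4_9) (bt_n (bt_b bx4_10) (bt_b bx4_11)))))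
def S4 : StarD := StarD.mk cl13 cl5 cl9 1 3 t4
theorem c5_0_0 : chkTag sI cl13 cl9 cl5 t3 b5_0 (tg true true false RT.r2) (I.pos (nat_lit 0) (nat_lit 0))
  (xa (xb (xa (xb T3.l0 (xc T3.l0 T3.l0)) (xb (xa T3.l0 T3.l0) (xa T3.l0 T3.l0))) (xa (xb (xc T3.l0 T3.l0) (xa (xc T3.l0 T3.l0) (xc T3.l0 T3.l0))) (xb (xa T3.l0 T3.l0) (xa (xc T3.l0 T3.l0) (xc T3.l0 T3.l0))))) (xb (xa (xb (xa T3.l0 T3.l0) (xa T3.l0 T3.l0)) (xb (xa (xs T3.l0 T3.l0) (xs T3.l0 T3.l0)) (xa (xs T3.l0 T3.l0) (xs T3.l0 T3.l0)))) (xa (xb (xa T3.l0 T3.l0) (xa (xc T3.l0 T3.l0) (xs T3.l0 T3.l0))) (xb (xa (xs T3.l0 T3.l0) (xs T3.l0 T3.l0)) (xa (xs T3.l0 T3.l0) (xs T3.l0 T3.l0)))))) = true := by decide +kernel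
theorem c5_0_1 : chkTag sI cl13 cl9 cl5 t1 b5_0 (tg true false false RT.r3) (I.pos (nat_lit 0) (nat_lit 0))
  (xa (xk (xb (xa T1.l7 T1.l7) (xa T1.l7 (xk T1.l7 T1.l7))) (xb T1.l7 (xa T1.l7 T1.l7))) (xk (xb (xa T1.l7 T1.l7) (xa (xk T1.l7 T1.l7) (xk T1.l7 T1.l7))) (xb (xa T1.l7 T1.l7) (xa T1.l7 (xk T1.l7 T1.l7))))) = true := by decide +kernel
theorem c5_0_2 : chkTag sI cl13 cl9 cl5 t3 b5_0 (Tag.mk true true false RT.tl RT.r4) (I.pos (nat_lit 0) (nat_lit 134217730))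
  (xR T3.l4 (xR T3.l4 (xR T3.l8 T3.l8))) = true := by decide +kernel
theorem c5_0_3 : chkTag sI cl13 cl9 cl5 t1 b5_0 (Tag.mk true false false RT.tl RT.r5) (I.pos (nat_lit 0) (nat_lit 110514882))
  (xR T1.l8 (xR T1.l8 T1.l8)) = true := by decide +kernel
theorem c5_0_4 : chkTag sI cl13 cl9 cl5 t1 b5_0 (tg false false false RT.r3) (I.pos (nat_lit 0) (nat_lit 0))
  (xa (xk (xb (xa T1.l9 T1.l9) (xa T1.l9 T1.l9)) (xb (xa T1.l9 T1.l9) T1.l9)) (xk (xb (xa T1.l9 (xk T1.l9 T1.l9)) (xa T1.l9 (xk (xb T1.l9 T1.l9) (xb T1.l9 T1.l9)))) (xb (xa T1.l9 (xk T1.l9 T1.l9)) (xa T1.l9 (xk (xb T1.l9 (xs T1.l9 T1.l9)) (xb T1.l9 (xs T1.l9 (xa T1.l9 T1.l9)))))))) = true := by decide +kernel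
theorem c5_0_5 : chkTag sI cl13 cl9 cl5 t3 b5_0 (tg false true false RT.r4) (I.pos (nat_lit 0) (nat_lit 0))
  (xk (xa T3.l9 T3.l9) (xa T3.l9 T3.l9)) = true := by decide +kernel
theorem c5_0_6 : chkTag sI cl13 cl9 cl5 t1 b5_0 (Tag.mk false false false RT.tl RT.r5) (I.mix (nat_lit 8088324) (nat_lit 110514882))
  (xR T1.l10 (xR T1.l10 (xR T1.l10 T1.l10))) = true := by decide +kernel
theorem c5_0_7 : chkTag sI cl13 cl9 cl5 t3 b5_0 (Tag.mk false true false RT.tl RT.r6) (I.mix (nat_lit 8088324) (nat_lit 89478486))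
  (xR T3.l10 (xR T3.l10 T3.l10)) = true := by decide +kernel
theorem bx5_0 : BoxOK sI cl13 cl9 cl5 t3 t1 b5_0 :=
  box_mk' [(tg true true false RT.r2), (tg true false false RT.r3), (Tag.mk true true false RT.tl RT.r4), (Tag.mk true false false RT.tl RT.r5), (tg false false false RT.r3), (tg false true false RT.r4), (Tag.mk false false false RT.tl RT.r5), (Tag.mk false true false RT.tl RT.r6)] rfl (allL_c (ex_mk c5_0_0) (allL_c (ex_mk c5_0_1) (allL_c (ex_mk c5_0_2) (allL_c (ex_mk c5_0_3) (allL_c (ex_mk c5_0_4) (allL_c (ex_mk c5_0_5) (allL_c (ex_mk c5_0_6) (allL_c (ex_mk c5_0_7) allL_n))))))))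
theorem bx5_1 : BoxOK sI cl13 cl9 cl5 t3 t1 b5_1 :=
  box_mk (TrL.c (I.pos (nat_lit 0) (nat_lit 0)) (xa (xb T3.l11 T3.l11) T3.l0)
  (TrL.c (I.pos (nat_lit 0) (nat_lit 0)) (xa T1.l7 (xk T1.l7 T1.l7))
  (TrL.c (I.pos (nat_lit 0) (nat_lit 134217730)) (xR T3.l4 T3.l4)
  (TrL.c (I.pos (nat_lit 0) (nat_lit 110514882)) (xR T1.l8 T1.l8)
  (TrL.c (I.pos (nat_lit 0) (nat_lit 0)) (xa (xk T1.l11 T1.l11) (xk (xb (xa T1.l11 T1.l11) T1.l12) (xb T1.l11 T1.l11)))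
  (TrL.c (I.pos (nat_lit 0) (nat_lit 0)) T3.l9
  (TrL.c (I.mix (nat_lit 8088324) (nat_lit 110514882)) (xR T1.l10 T1.l10)
  (TrL.c (I.mix (nat_lit 8088324) (nat_lit 89478486)) T3.l2
  TrL.n)))))))) (by decide +kernel)
theorem bx5_2 : BoxOK sI cl13 cl9 cl5 t3 t1 b5_2 :=
  box_mk (TrL.c (I.pos (nat_lit 0) (nat_lit 0)) (xa T3.l11 T3.l11)
  (TrL.c (I.pos (nat_lit 0) (nat_lit 0)) (xa T1.l11 T1.l7)
  (TrL.c (I.pos (nat_lit 0) (nat_lit 134217730)) (xR T3.l4 (xR T3.l4 T3.l8))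
  (TrL.c (I.pos (nat_lit 0) (nat_lit 110514882)) T1.l10
  (TrL.c (I.pos (nat_lit 0) (nat_lit 0)) (xa (xa T1.l11 T1.l11) T1.l11)
  (TrL.c (I.pos (nat_lit 0) (nat_lit 0)) T3.l9
  (TrL.c (I.mix (nat_lit 8088324) (nat_lit 110514882)) T1.l10
  (TrL.c (I.mix (nat_lit 8088324) (nat_lit 89478486)) T3.l10
  TrL.n)))))))) (by decide +kernel)
theorem bx5_3 : BoxOK sI cl13 cl9 cl5 t3 t1 b5_3 :=
  box_mk (TrL.c (I.pos (nat_lit 0) (nat_lit 0)) (xb (xa (xb T3.l12 T3.l12) (xb T3.l12 T3.l12)) (xa (xb (xa T3.l12 T3.l12) (xa T3.l12 T3.l12)) (xb T3.l12 (xa T3.l12 T3.l12))))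
  (TrL.c (I.pos (nat_lit 0) (nat_lit 0)) (xk (xb (xa T1.l7 T1.l7) (xa T1.l7 T1.l7)) (xb (xa T1.l7 T1.l7) (xa T1.l7 T1.l7)))
  (TrL.c (I.pos (nat_lit 0) (nat_lit 134217730)) (xR T3.l4 (xR T3.l4 (xR T3.l8 T3.l8)))
  (TrL.c (I.pos (nat_lit 0) (nat_lit 110514882)) (xR T1.l8 (xR T1.l8 T1.l8))
  (TrL.c (I.pos (nat_lit 0) (nat_lit 0)) (xb (xk (xa T1.l12 T1.l12) (xa T1.l12 T1.l12)) (xk (xa T1.l12 T1.l9) T1.l9))
  (TrL.c (I.pos (nat_lit 0) (nat_lit 0)) T3.l9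
  (TrL.c (I.mix (nat_lit 8088324) (nat_lit 110514882)) (xR T1.l10 (xR T1.l10 T1.l10))
  (TrL.c (I.mix (nat_lit 8088324) (nat_lit 89478486)) (xR T3.l10 (xR T3.l10 T3.l10))
  TrL.n)))))))) (by decide +kernel)
theorem bx5_4 : BoxOK sI cl13 cl9 cl5 t3 t1 b5_4 :=
  box_mk (TrL.c (I.pos (nat_lit 0) (nat_lit 0)) (xa (xa (xb (xa T3.l11 T3.l11) (xa (xb T3.l11 (xa T3.l11 T3.l11)) (xb T3.l11 T3.l11))) (xb T3.l11 (xa T3.l11 T3.l11))) (xa (xb T3.l11 (xa T3.l11 T3.l11)) (xa T3.l11 T3.l11)))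
  (TrL.c (I.pos (nat_lit 0) (nat_lit 0)) (xa (xa T1.l7 T1.l7) (xa T1.l7 (xk T1.l7 T1.l7)))
  (TrL.c (I.pos (nat_lit 0) (nat_lit 134217730)) (xR T3.l4 (xR T3.l4 T3.l8))
  (TrL.c (I.pos (nat_lit 0) (nat_lit 110514882)) (xR T1.l8 (xR T1.l8 T1.l8))
  (TrL.c (I.pos (nat_lit 0) (nat_lit 0)) (xa (xa T1.l11 T1.l11) (xa T1.l11 T1.l11))
  (TrL.c (I.pos (nat_lit 0) (nat_lit 0)) T3.l9
  (TrL.c (I.mix (nat_lit 8088324) (nat_lit 110514882)) T1.l10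
  (TrL.c (I.mix (nat_lit 8088324) (nat_lit 89478486)) T3.l10
  TrL.n)))))))) (by decide +kernel)
theorem bx5_5 : BoxOK sI cl13 cl9 cl5 t3 t1 b5_5 :=
  box_mk (TrL.c (I.pos (nat_lit 0) (nat_lit 0)) (xa T3.l0 T3.l0)
  (TrL.c (I.pos (nat_lit 0) (nat_lit 0)) (xa T1.l7 T1.l7)
  (TrL.c (I.pos (nat_lit 0) (nat_lit 134217730)) (xR T3.l4 T3.l4)
  (TrL.c (I.pos (nat_lit 0) (nat_lit 110514882)) (xR T1.l8 T1.l8)
  (TrL.c (I.pos (nat_lit 0) (nat_lit 0)) (xk (xa T1.l12 (xb T1.l9 T1.l12)) (xa T1.l12 (xb T1.l12 T1.l12)))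
  (TrL.c (I.pos (nat_lit 0) (nat_lit 0)) T3.l9
  (TrL.c (I.mix (nat_lit 8088324) (nat_lit 110514882)) (xR T1.l10 (xR T1.l10 T1.l10))
  (TrL.c (I.mix (nat_lit 8088324) (nat_lit 89478486)) (xR T3.l10 T3.l10)
  TrL.n)))))))) (by decide +kernel)
theorem bx5_6 : BoxOK sI cl13 cl9 cl5 t3 t1 b5_6 :=
  box_mk (TrL.c (I.pos (nat_lit 0) (nat_lit 0)) (xa T3.l11 (xa T3.l11 T3.l11))
  (TrL.c (I.pos (nat_lit 0) (nat_lit 0)) (xa (xa T1.l7 T1.l7) (xa T1.l7 T1.l7))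
  (TrL.c (I.pos (nat_lit 0) (nat_lit 134217730)) (xR T3.l4 (xR T3.l4 T3.l8))
  (TrL.c (I.pos (nat_lit 0) (nat_lit 110514882)) (xR T1.l8 (xR T1.l8 T1.l8))
  (TrL.c (I.pos (nat_lit 0) (nat_lit 0)) (xa (xa T1.l11 T1.l11) T1.l11)
  (TrL.c (I.pos (nat_lit 0) (nat_lit 0)) T3.l9
  (TrL.c (I.mix (nat_lit 8088324) (nat_lit 110514882)) T1.l10
  (TrL.c (I.mix (nat_lit 8088324) (nat_lit 89478486)) T3.l10
  TrL.n)))))))) (by decide +kernel)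
theorem bx5_7 : BoxOK sI cl13 cl9 cl5 t3 t1 b5_7 :=
  box_mk (TrL.c (I.pos (nat_lit 0) (nat_lit 0)) (xa (xa (xa (xb T3.l11 (xa (xb T3.l11 T3.l11) T3.l11)) (xb T3.l11 (xa T3.l11 T3.l11))) (xa T3.l11 T3.l11)) (xa (xa T3.l11 T3.l11) (xa T3.l11 T3.l11)))
  (TrL.c (I.pos (nat_lit 0) (nat_lit 0)) (xa (xa T1.l11 T1.l7) (xa (xa T1.l7 T1.l7) (xk T1.l7 T1.l7)))
  (TrL.c (I.pos (nat_lit 0) (nat_lit 134217730)) (xR T3.l4 (xR T3.l4 (xa T3.l8 T3.l8)))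
  (TrL.c (I.pos (nat_lit 0) (nat_lit 110514882)) (xR T1.l8 (xR T1.l8 (xa T1.l8 T1.l8)))
  (TrL.c (I.pos (nat_lit 0) (nat_lit 0)) (xa (xa T1.l7 T1.l11) (xa T1.l11 T1.l11))
  (TrL.c (I.pos (nat_lit 0) (nat_lit 0)) (xa T3.l9 T3.l9)
  (TrL.c (I.mix (nat_lit 8088324) (nat_lit 110514882)) T1.l10
  (TrL.c (I.mix (nat_lit 8088324) (nat_lit 89478486)) T3.l10
  TrL.n)))))))) (by decide +kernel)
theorem bx5_8 : BoxOK sI cl13 cl9 cl5 t3 t1 b5_8 :=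
  box_mk (TrL.c (I.pos (nat_lit 0) (nat_lit 0)) (xb (xa T3.l11 T3.l11) (xa T3.l11 T3.l11))
  (TrL.c (I.pos (nat_lit 0) (nat_lit 0)) (xb T1.l7 T1.l7)
  (TrL.c (I.pos (nat_lit 0) (nat_lit 134217730)) (xR T3.l4 T3.l4)
  (TrL.c (I.pos (nat_lit 0) (nat_lit 110514882)) (xR T1.l8 T1.l8)
  (TrL.c (I.pos (nat_lit 0) (nat_lit 0)) (xb (xk (xa T1.l11 T1.l11) (xa T1.l11 T1.l11)) (xk (xa T1.l11 T1.l11) T1.l11))
  (TrL.c (I.pos (nat_lit 0) (nat_lit 0)) T3.l9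
  (TrL.c (I.mix (nat_lit 8088324) (nat_lit 110514882)) T1.l10
  (TrL.c (I.mix (nat_lit 8088324) (nat_lit 89478486)) T3.l10
  TrL.n)))))))) (by decide +kernel)
theorem bx5_9 : BoxOK sI cl13 cl9 cl5 t3 t1 b5_9 :=
  box_mk (TrL.c (I.pos (nat_lit 0) (nat_lit 0)) (xa T3.l11 (xa T3.l11 T3.l11))
  (TrL.c (I.pos (nat_lit 0) (nat_lit 0)) (xa (xa T1.l7 T1.l7) (xa T1.l7 T1.l7))
  (TrL.c (I.pos (nat_lit 0) (nat_lit 134217730)) (xR T3.l4 (xR T3.l4 T3.l8))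
  (TrL.c (I.pos (nat_lit 0) (nat_lit 110514882)) T1.l10
  (TrL.c (I.pos (nat_lit 0) (nat_lit 0)) (xa (xa T1.l11 T1.l11) T1.l11)
  (TrL.c (I.pos (nat_lit 0) (nat_lit 0)) T3.l9
  (TrL.c (I.mix (nat_lit 8088324) (nat_lit 110514882)) T1.l10
  (TrL.c (I.mix (nat_lit 8088324) (nat_lit 89478486)) T3.l10
  TrL.n)))))))) (by decide +kernel)
theorem bx5_10 : BoxOK sI cl13 cl9 cl5 t3 t1 b5_10 :=
  box_mk (TrL.c (I.pos (nat_lit 0) (nat_lit 0)) T3.l0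
  (TrL.c (I.pos (nat_lit 0) (nat_lit 0)) T1.l7
  (TrL.c (I.pos (nat_lit 0) (nat_lit 134217730)) (xR T3.l4 T3.l4)
  (TrL.c (I.pos (nat_lit 0) (nat_lit 110514882)) (xR T1.l8 T1.l8)
  (TrL.c (I.pos (nat_lit 0) (nat_lit 0)) (xk T1.l11 T1.l11)
  (TrL.c (I.pos (nat_lit 0) (nat_lit 0)) T3.l9
  (TrL.c (I.mix (nat_lit 8088324) (nat_lit 110514882)) T1.l10
  (TrL.c (I.mix (nat_lit 8088324) (nat_lit 89478486)) T3.l10
  TrL.n)))))))) (by decide +kernel)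
theorem bx5_11 : BoxOK sI cl13 cl9 cl5 t3 t1 b5_11 :=
  box_mk (TrL.c (I.pos (nat_lit 0) (nat_lit 0)) (xa (xb T3.l12 T3.l12) (xb T3.l12 T3.l12))
  (TrL.c (I.pos (nat_lit 0) (nat_lit 0)) (xk (xa T1.l7 T1.l7) (xa T1.l7 T1.l7))
  (TrL.c (I.pos (nat_lit 0) (nat_lit 134217730)) (xR T3.l4 T3.l4)
  (TrL.c (I.pos (nat_lit 0) (nat_lit 110514882)) (xR T1.l8 T1.l8)
  (TrL.c (I.pos (nat_lit 0) (nat_lit 0)) (xk (xa T1.l12 (xb T1.l12 T1.l12)) (xa T1.l12 T1.l12))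
  (TrL.c (I.pos (nat_lit 0) (nat_lit 0)) T3.l9
  (TrL.c (I.mix (nat_lit 8088324) (nat_lit 110514882)) (xR T1.l10 (xR T1.l10 T1.l10))
  (TrL.c (I.mix (nat_lit 8088324) (nat_lit 89478486)) (xR T3.l10 T3.l10)
  TrL.n)))))))) (by decide +kernel)
theorem c5_12_0 : chkTag sI cl13 cl9 cl5 t3 b5_12 (tg true true false RT.r2) (I.pos (nat_lit 0) (nat_lit 0))
  (xa (xb (xa T3.l0 T3.l0) (xa (xb T3.l0 T3.l0) (xb T3.l0 T3.l0))) (xb (xa T3.l0 T3.l0) (xa (xb T3.l0 T3.l0) (xb T3.l0 T3.l0)))) = true := by decide +kernel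
theorem c5_12_1 : chkTag sI cl13 cl9 cl5 t1 b5_12 (tg true false false RT.r3) (I.pos (nat_lit 0) (nat_lit 0))
  (xa (xb (xk (xa T1.l7 T1.l7) T1.l7) (xk (xa T1.l7 T1.l7) (xa T1.l7 T1.l7))) (xk (xb (xa T1.l7 (xk T1.l7 T1.l7)) (xa T1.l7 (xk T1.l7 T1.l7))) (xb T1.l2 (xa T1.l7 T1.l2)))) = true := by decide +kernel
theorem c5_12_2 : chkTag sI cl13 cl9 cl5 t3 b5_12 (Tag.mk true true false RT.tl RT.r4) (I.pos (nat_lit 0) (nat_lit 134217730))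
  (xR T3.l4 (xR T3.l4 T3.l4)) = true := by decide +kernel
theorem c5_12_3 : chkTag sI cl13 cl9 cl5 t1 b5_12 (Tag.mk true false false RT.tl RT.r5) (I.pos (nat_lit 0) (nat_lit 110514882))
  (xR T1.l8 (xR T1.l8 (xR T1.l8 (xR T1.l8 T1.l8)))) = true := by decide +kernel
theorem c5_12_4 : chkTag sI cl13 cl9 cl5 t1 b5_12 (tg false false false RT.r3) (I.pos (nat_lit 0) (nat_lit 0))
  (xa (xb (xk (xa (xb (xk T1.l9 T1.l9) T1.l9) (xb (xk T1.l9 T1.l9) T1.l9)) (xa (xb T1.l9 T1.l9) (xb (xk T1.l9 T1.l9) T1.l9))) (xk (xa T1.l9 T1.l9) (xa T1.l9 T1.l9))) (xb (xk (xa (xb (xk (xa T1.l9 T1.l9) (xa T1.l9 T1.l9)) T1.l9) (xb (xk (xa T1.l9 (xb T1.l9 T1.l9)) (xa T1.l9 (xb T1.l9 T1.l9))) (xk T1.l9 T1.l9))) (xa (xb (xk (xa T1.l9 T1.l9) (xa T1.l9 T1.l9)) T1.l9) (xb (xk (xa T1.l9 (xb T1.l9 T1.l9)) (xa T1.l9 (xc T1.l9 T1.l9))) (xk T1.l9 T1.l9)))) (xk (xa (xb T1.l9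 (xk T1.l9 T1.l9)) (xb (xk (xa T1.l9 T1.l9) (xa T1.l9 T1.l9)) (xk (xa T1.l9 (xb T1.l9 T1.l9)) (xa T1.l9 (xb T1.l9 T1.l9))))) (xa (xb T1.l9 T1.l9) (xb (xk T1.l9 (xa T1.l9 T1.l9)) (xk (xa T1.l9 (xc T1.l9 T1.l9)) (xa T1.l9 (xc T1.l9 T1.l9)))))))) = true := by decide +kernel
theorem c5_12_5 : chkTag sI cl13 cl9 cl5 t3 b5_12 (tg false true false RT.r4) (I.pos (nat_lit 0) (nat_lit 0))
  (xa (xk (xb T3.l9 T3.l9) (xb T3.l9 T3.l9)) (xk (xb (xa T3.l9 (xk T3.l9 T3.l9)) (xa T3.l9 (xk T3.l9 T3.l9))) (xb (xa T3.l9 (xk T3.l9 T3.l9)) (xa T3.l9 T3.l9)))) = true := by decide +kernel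
theorem c5_12_6 : chkTag sI cl13 cl9 cl5 t1 b5_12 (Tag.mk false false false RT.tl RT.r5) (I.mix (nat_lit 8088324) (nat_lit 110514882))
  (xR T1.l10 (xR T1.l10 (xR T1.l10 (xk (xR T1.l10 (xa T1.l10 T1.l10)) T1.l10)))) = true := by decide +kernel
theorem c5_12_7 : chkTag sI cl13 cl9 cl5 t3 b5_12 (Tag.mk false true false RT.tl RT.r6) (I.mix (nat_lit 8088324) (nat_lit 89478486))
  (xR T3.l10 (xR T3.l10 T3.l10)) = true := by decide +kernel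
theorem bx5_12 : BoxOK sI cl13 cl9 cl5 t3 t1 b5_12 :=
  box_mk' [(tg true true false RT.r2), (tg true false false RT.r3), (Tag.mk true true false RT.tl RT.r4), (Tag.mk true false false RT.tl RT.r5), (tg false false false RT.r3), (tg false true false RT.r4), (Tag.mk false false false RT.tl RT.r5), (Tag.mk false true false RT.tl RT.r6)] rfl (allL_c (ex_mk c5_12_0) (allL_c (ex_mk c5_12_1) (allL_c (ex_mk c5_12_2) (allL_c (ex_mk c5_12_3) (allL_c (ex_mk c5_12_4) (allL_c (ex_mk c5_12_5) (allL_c (ex_mk c5_12_6) (allL_c (ex_mk c5_12_7) allL_n))))))))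
theorem bx5_13 : BoxOK sI cl13 cl9 cl5 t3 t1 b5_13 :=
  box_mk (TrL.c (I.pos (nat_lit 0) (nat_lit 0)) (xa (xb T3.l0 (xa T3.l0 T3.l0)) (xb (xa T3.l0 T3.l0) (xa T3.l0 T3.l0)))
  (TrL.c (I.pos (nat_lit 0) (nat_lit 0)) (xk (xa T1.l7 (xb T1.l7 T1.l7)) (xa T1.l7 T1.l7))
  (TrL.c (I.pos (nat_lit 0) (nat_lit 134217730)) (xR T3.l4 (xR T3.l4 T3.l8))
  (TrL.c (I.pos (nat_lit 0) (nat_lit 110514882)) (xR T1.l8 T1.l8)
  (TrL.c (I.pos (nat_lit 0) (nat_lit 0)) (xk (xa T1.l9 T1.l9) (xa T1.l9 T1.l9))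
  (TrL.c (I.pos (nat_lit 0) (nat_lit 0)) T3.l9
  (TrL.c (I.mix (nat_lit 8088324) (nat_lit 110514882)) (xR T1.l10 (xR T1.l10 T1.l10))
  (TrL.c (I.mix (nat_lit 8088324) (nat_lit 89478486)) (xR T3.l10 T3.l10)
  TrL.n)))))))) (by decide +kernel)
theorem sv5 : StarV sI cl13 cl9 cl5 t3 t1 t5 :=
  (bt_n (bt_n (bt_n (bt_b bx5_0) (bt_n (bt_b bx5_1) (bt_b bx5_2))) (bt_n (bt_n (bt_b bx5_3) (bt_b bx5_4)) (bt_n (bt_b bx5_5) (bt_b bx5_6)))) (bt_n (bt_n (bt_b bx5_7) (bt_n (bt_b bx5_8) (bt_b bx5_9))) (bt_n (bt_n (bt_b bx5_10) (bt_b bx5_11)) (bt_n (bt_b bx5_12) (bt_b bx5_13)))))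
def S5 : StarD := StarD.mk cl13 cl9 cl5 3 1 t5
def G : List StarD := [S0, S1, S2, S3, S4, S5]
theorem so0 : StarOK sI G S0 :=
  star_mk (by decide) (by decide) rfl rfl rfl rfl rfl rfl (rfl : _ = t2) (rfl : _ = t4)
  (st_mk (Pth.l (Pth.l (Pth.l Pth.z))) (nat_lit 117444080) (nat_lit 136523597) (by decide +kernel))
  (st_mk (Pth.l (Pth.l (Pth.l Pth.z))) (nat_lit 154022431) (nat_lit 173588720) (by decide +kernel))
  (st_mk (Pth.l (Pth.l (Pth.l Pth.z))) (nat_lit 194948856) (nat_lit 218940461) (by decide +kernel)) sv0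
theorem so1 : StarOK sI G S1 :=
  star_mk (by decide) (by decide) rfl rfl rfl rfl rfl rfl (rfl : _ = t4) (rfl : _ = t2)
  (st_mk (Pth.l (Pth.l (Pth.l Pth.z))) (nat_lit 97591315) (nat_lit 116594835) (by decide +kernel))
  (st_mk (Pth.l (Pth.l (Pth.l Pth.z))) (nat_lit 134032847) (nat_lit 153511520) (by decide +kernel))
  (st_mk (Pth.l (Pth.l (Pth.l Pth.z))) (nat_lit 176721968) (nat_lit 196857785) (by decide +kernel)) sv1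
theorem so2 : StarOK sI G S2 :=
  star_mk (by decide) (by decide) rfl rfl rfl rfl rfl rfl (rfl : _ = t0) (rfl : _ = t5)
  (st_mk (Pth.l (Pth.l (Pth.l Pth.z))) (nat_lit 239376889) (nat_lit 241373451) (by decide +kernel))
  (st_mk (Pth.l (Pth.l (Pth.l Pth.z))) (nat_lit 274689330) (nat_lit 277152800) (by decide +kernel))
  (st_mk (Pth.l (Pth.l (Pth.l Pth.z))) (nat_lit 315506409) (nat_lit 318592934) (by decide +kernel)) sv2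
theorem so3 : StarOK sI G S3 :=
  star_mk (by decide) (by decide) rfl rfl rfl rfl rfl rfl (rfl : _ = t5) (rfl : _ = t0)
  (st_mk (Pth.l (Pth.l (Pth.l Pth.z))) (nat_lit 96162613) (nat_lit 114763126) (by decide +kernel))
  (st_mk (Pth.l (Pth.l (Pth.l Pth.z))) (nat_lit 131343102) (nat_lit 150309271) (by decide +kernel))
  (st_mk (Pth.l (Pth.l (Pth.l Pth.z))) (nat_lit 172045636) (nat_lit 191547760) (by decide +kernel)) sv3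
theorem so4 : StarOK sI G S4 :=
  star_mk (by decide) (by decide) rfl rfl rfl rfl rfl rfl (rfl : _ = t1) (rfl : _ = t3)
  (st_mk (Pth.l (Pth.l (Pth.l Pth.z))) (nat_lit 238062708) (nat_lit 239961501) (by decide +kernel))
  (st_mk (Pth.l (Pth.l (Pth.l Pth.z))) (nat_lit 272959317) (nat_lit 275287530) (by decide +kernel))
  (st_mk (Pth.l (Pth.l (Pth.l Pth.z))) (nat_lit 313224636) (nat_lit 316122685) (by decide +kernel)) sv4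
theorem so5 : StarOK sI G S5 :=
  star_mk (by decide) (by decide) rfl rfl rfl rfl rfl rfl (rfl : _ = t3) (rfl : _ = t1)
  (st_mk (Pth.l (Pth.l (Pth.l Pth.z))) (nat_lit 115089857) (nat_lit 133594735) (by decide +kernel))
  (st_mk (Pth.l (Pth.l (Pth.l Pth.z))) (nat_lit 149986467) (nat_lit 168830540) (by decide +kernel))
  (st_mk (Pth.l (Pth.l (Pth.l Pth.z))) (nat_lit 190251785) (nat_lit 209587317) (by decide +kernel)) sv5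
theorem ok : GroupOK (nat_lit 209321984) (nat_lit 268435456) G := grp_mk (allS_c so0 (allS_c so1 (allS_c so2 (allS_c so3 (allS_c so4 (allS_c so5 allS_n))))))
theorem cov : GCov G cl5 cl9 cl13 := cov_mk
  ⟨0, by decide, rfl, rfl, rfl⟩ ⟨1, by decide, rfl, rfl, rfl⟩ ⟨2, by decide, rfl, rfl, rfl⟩ ⟨3, by decide, rfl, rfl, rfl⟩ ⟨4, by decide, rfl, rfl, rfl⟩ ⟨5, by decide, rfl, rfl, rfl⟩
end Q256_3

namespace Q266_0
def sI : I := I.pos (nat_lit 0) (nat_lit 91291648)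
def b0_0 : Bx := Bx.mk (St.mk (I.pos (nat_lit 157351936) (nat_lit 269451264)) (I.mix (nat_lit 5472256) (nat_lit 56852480)) (I.mix (nat_lit 40747008) (nat_lit 80019456)) (I.pos (nat_lit 91078656) (nat_lit 292028416)) (I.mix (nat_lit 79429632) (nat_lit 51953664)) (I.mix (nat_lit 70991872) (nat_lit 48644096)) (I.mix (nat_lit 109232128) (nat_lit 67420160)))
  false (nat_lit 0)
def b0_1 : Bx := Bx.mk (St.mk (I.mix (nat_lit 8962048) (nat_lit 139280384)) (I.mix (nat_lit 1638400) (nat_lit 24002560)) (I.mix (nat_lit 11862016) (nat_lit 14991360)) (I.mix (nat_lit 3112960) (nat_lit 87588864)) (I.mix (nat_lit 17743872) (nat_lit 18399232)) (I.mix (nat_lit 19939328) (nat_lit 12599296)) (I.mix (nat_lit 17219584) (nat_lit 9961472)))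
  false (nat_lit 0)
def b0_2 : Bx := Bx.mk (St.mk (I.pos (nat_lit 121536512) (nat_lit 158449664)) (I.mix (nat_lit 47661056) (nat_lit 2555904)) (I.neg (nat_lit 3047424) (nat_lit 60276736)) (I.pos (nat_lit 55492608) (nat_lit 109494272)) (I.mix (nat_lit 73351168) (nat_lit 18087936)) (I.mix (nat_lit 31522816) (nat_lit 78217216)) (I.mix (nat_lit 26279936) (nat_lit 76562432)))
  false (nat_lit 0)
def b0_3 : Bx := Bx.mk (St.mk (I.mix (nat_lit 11960320) (nat_lit 105627648)) (I.mix (nat_lit 22134784) (nat_lit 1196032)) (I.mix (nat_lit 21626880) (nat_lit 1179648)) (I.mix (nat_lit 2228224) (nat_lit 57245696)) (I.mix (nat_lit 27312128) (nat_lit 8372224)) (I.mix (nat_lit 12779520) (nat_lit 26083328)) (I.mix (nat_lit 7553024) (nat_lit 17268736)))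
  false (nat_lit 0)
def b0_4 : Bx := Bx.mk (St.mk (I.pos (nat_lit 121143296) (nat_lit 135266304)) (I.mix (nat_lit 1097728) (nat_lit 6438912)) (I.neg (nat_lit 901120) (nat_lit 11354112)) (I.pos (nat_lit 55492608) (nat_lit 85753856)) (I.mix (nat_lit 4653056) (nat_lit 6782976)) (I.mix (nat_lit 4964352) (nat_lit 3424256)) (I.mix (nat_lit 4816896) (nat_lit 3194880)))
  false (nat_lit 0)
def b0_5 : Bx := Bx.mk (St.mk (I.mix (nat_lit 10256384) (nat_lit 17711104)) (I.mix (nat_lit 622592) (nat_lit 2195456)) (I.mix (nat_lit 2818048) (nat_lit 638976)) (I.mix (nat_lit 1097728) (nat_lit 18808832)) (I.mix (nat_lit 1064960) (nat_lit 2031616)) (I.mix (nat_lit 1392640) (nat_lit 1228800)) (I.mix (nat_lit 606208) (nat_lit 638976)))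
  false (nat_lit 0)
def b0_6 : Bx := Bx.mk (St.mk (I.pos (nat_lit 118161408) (nat_lit 182206464)) (I.mix (nat_lit 57720832) (nat_lit 4915200)) (I.neg (nat_lit 9502720) (nat_lit 67190784)) (I.pos (nat_lit 69763072) (nat_lit 141148160)) (I.mix (nat_lit 73940992) (nat_lit 31637504)) (I.mix (nat_lit 37158912) (nat_lit 64618496)) (I.mix (nat_lit 30113792) (nat_lit 64618496)))
  false (nat_lit 0)
def b0_7 : Bx := Bx.mk (St.mk (I.mix (nat_lit 8880128) (nat_lit 115277824)) (I.mix (nat_lit 25755648) (nat_lit 4145152)) (I.mix (nat_lit 23576576) (nat_lit 1228800)) (I.mix (nat_lit 2457600) (nat_lit 65437696)) (I.mix (nat_lit 25739264) (nat_lit 16220160)) (I.mix (nat_lit 14172160) (nat_lit 24281088)) (I.mix (nat_lit 8126464) (nat_lit 17678336)))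
  false (nat_lit 0)
def b0_8 : Bx := Bx.mk (St.mk (I.pos (nat_lit 162332672) (nat_lit 225689600)) (I.mix (nat_lit 40730624) (nat_lit 57032704)) (I.mix (nat_lit 55459840) (nat_lit 78528512)) (I.pos (nat_lit 102662144) (nat_lit 204914688)) (I.mix (nat_lit 105054208) (nat_lit 49299456)) (I.mix (nat_lit 125583360) (nat_lit 61259776)) (I.mix (nat_lit 151158784) (nat_lit 70057984)))
  false (nat_lit 0)
def b0_9 : Bx := Bx.mk (St.mk (I.mix (nat_lit 13107200) (nat_lit 137854976)) (I.mix (nat_lit 12746752) (nat_lit 30375936)) (I.mix (nat_lit 15941632) (nat_lit 19103744)) (I.mix (nat_lit 2998272) (nat_lit 83951616)) (I.mix (nat_lit 35504128) (nat_lit 19267584)) (I.mix (nat_lit 37945344) (nat_lit 23953408)) (I.mix (nat_lit 27082752) (nat_lit 16334848)))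
  false (nat_lit 0)
def t0 : BTr := (BTr.n (BTr.n (BTr.n (BTr.b b0_0) (BTr.b b0_1)) (BTr.n (BTr.b b0_2) (BTr.n (BTr.b b0_3) (BTr.b b0_4)))) (BTr.n (BTr.n (BTr.b b0_5) (BTr.b b0_6)) (BTr.n (BTr.b b0_7) (BTr.n (BTr.b b0_8) (BTr.b b0_9)))))
namespace T0
def l0 : Tr := Tr.L (Pth.l (Pth.l (Pth.l Pth.z)))
def l1 : Tr := Tr.L (Pth.l (Pth.l (Pth.r Pth.z)))
def l2 : Tr := Tr.L (Pth.l (Pth.r (Pth.l Pth.z)))
def l3 : Tr := Tr.L (Pth.l (Pth.r (Pth.r (Pth.l Pth.z))))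
def l4 : Tr := Tr.L (Pth.l (Pth.r (Pth.r (Pth.r Pth.z))))
def l5 : Tr := Tr.L (Pth.r (Pth.l (Pth.l Pth.z)))
def l6 : Tr := Tr.L (Pth.r (Pth.l (Pth.r Pth.z)))
def l7 : Tr := Tr.L (Pth.r (Pth.r (Pth.l Pth.z)))
def l8 : Tr := Tr.L (Pth.r (Pth.r (Pth.r (Pth.l Pth.z))))
def l9 : Tr := Tr.L (Pth.r (Pth.r (Pth.r (Pth.r Pth.z))))
end T0
def b1_0 : Bx := Bx.mk (St.mk (I.pos (nat_lit 157073408) (nat_lit 279216128)) (I.mix (nat_lit 15958016) (nat_lit 70582272)) (I.mix (nat_lit 78348288) (nat_lit 101203968)) (I.pos (nat_lit 231948288) (nat_lit 428818432)) (I.mix (nat_lit 88621056) (nat_lit 64585728)) (I.mix (nat_lit 86179840) (nat_lit 50446336)) (I.mix (nat_lit 125206528) (nat_lit 73334784)))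
  false (nat_lit 61207289)
def b1_1 : Bx := Bx.mk (St.mk (I.pos (nat_lit 78610432) (nat_lit 147636224)) (I.neg (nat_lit 8142848) (nat_lit 75169792)) (I.neg (nat_lit 16384) (nat_lit 66289664)) (I.pos (nat_lit 167280640) (nat_lit 223723520)) (I.mix (nat_lit 66273280) (nat_lit 39436288)) (I.mix (nat_lit 33079296) (nat_lit 61358080)) (I.mix (nat_lit 29605888) (nat_lit 51953664)))
  false (nat_lit 0)
def b1_2 : Bx := Bx.mk (St.mk (I.pos (nat_lit 23674880) (nat_lit 68321280)) (I.mix (nat_lit 6324224) (nat_lit 47480832)) (I.mix (nat_lit 22265856) (nat_lit 7061504)) (I.pos (nat_lit 141557760) (nat_lit 160284672)) (I.mix (nat_lit 26165248) (nat_lit 33128448)) (I.mix (nat_lit 36913152) (nat_lit 21954560)) (I.mix (nat_lit 19054592) (nat_lit 11649024)))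
  false (nat_lit 0)
def b1_3 : Bx := Bx.mk (St.mk (I.mix (nat_lit 35192832) (nat_lit 3686400)) (I.mix (nat_lit 41959424) (nat_lit 5488640)) (I.mix (nat_lit 4128768) (nat_lit 4587520)) (I.pos (nat_lit 140443648) (nat_lit 148963328)) (I.mix (nat_lit 22364160) (nat_lit 28606464)) (I.mix (nat_lit 18300928) (nat_lit 33570816)) (I.mix (nat_lit 4816896) (nat_lit 3784704)))
  true (nat_lit 0)
def b1_4 : Bx := Bx.mk (St.mk (I.pos (nat_lit 131973120) (nat_lit 203571200)) (I.mix (nat_lit 36716544) (nat_lit 74088448)) (I.mix (nat_lit 29556736) (nat_lit 103743488)) (I.pos (nat_lit 208535552) (nat_lit 296206336)) (I.mix (nat_lit 110739456) (nat_lit 51298304)) (I.mix (nat_lit 117833728) (nat_lit 60850176)) (I.mix (nat_lit 120930304) (nat_lit 62636032)))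
  false (nat_lit 18204156)
def b1_5 : Bx := Bx.mk (St.mk (I.pos (nat_lit 56754176) (nat_lit 105676800)) (I.mix (nat_lit 66060288) (nat_lit 7192576)) (I.neg (nat_lit 10190848) (nat_lit 55934976)) (I.pos (nat_lit 152420352) (nat_lit 183992320)) (I.mix (nat_lit 64929792) (nat_lit 27230208)) (I.mix (nat_lit 32522240) (nat_lit 64634880)) (I.mix (nat_lit 22724608) (nat_lit 39550976)))
  false (nat_lit 0)
def b1_6 : Bx := Bx.mk (St.mk (I.mix (nat_lit 3686400) (nat_lit 35192832)) (I.mix (nat_lit 5488640) (nat_lit 41959424)) (I.mix (nat_lit 4128768) (nat_lit 4587520)) (I.pos (nat_lit 140443648) (nat_lit 148963328)) (I.mix (nat_lit 28606464) (nat_lit 22364160)) (I.mix (nat_lit 33570816) (nat_lit 18300928)) (I.mix (nat_lit 4816896) (nat_lit 3784704)))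
  false (nat_lit 0)
def b1_7 : Bx := Bx.mk (St.mk (I.neg (nat_lit 23674880) (nat_lit 68321280)) (I.mix (nat_lit 47480832) (nat_lit 6324224)) (I.mix (nat_lit 22265856) (nat_lit 7061504)) (I.pos (nat_lit 141557760) (nat_lit 160284672)) (I.mix (nat_lit 33128448) (nat_lit 26165248)) (I.mix (nat_lit 21954560) (nat_lit 36913152)) (I.mix (nat_lit 19054592) (nat_lit 11649024)))
  true (nat_lit 0)
def t1 : BTr := (BTr.n (BTr.n (BTr.n (BTr.b b1_0) (BTr.b b1_1)) (BTr.n (BTr.b b1_2) (BTr.b b1_3))) (BTr.n (BTr.n (BTr.b b1_4) (BTr.b b1_5)) (BTr.n (BTr.b b1_6) (BTr.b b1_7))))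
namespace T1
def l0 : Tr := Tr.L (Pth.l (Pth.l (Pth.l Pth.z)))
def l1 : Tr := Tr.L (Pth.l (Pth.l (Pth.r Pth.z)))
def l2 : Tr := Tr.L (Pth.l (Pth.r (Pth.l Pth.z)))
def l3 : Tr := Tr.L (Pth.l (Pth.r (Pth.r Pth.z)))
def l4 : Tr := Tr.L (Pth.r (Pth.l (Pth.l Pth.z)))
def l5 : Tr := Tr.L (Pth.r (Pth.l (Pth.r Pth.z)))
def l6 : Tr := Tr.L (Pth.r (Pth.r (Pth.l Pth.z)))
def l7 : Tr := Tr.L (Pth.r (Pth.r (Pth.r Pth.z)))
end T1
def b2_0 : Bx := Bx.mk (St.mk (I.pos (nat_lit 157122560) (nat_lit 277708800)) (I.mix (nat_lit 12943360) (nat_lit 46497792)) (I.mix (nat_lit 3145728) (nat_lit 106741760)) (I.pos (nat_lit 89817088) (nat_lit 302399488)) (I.mix (nat_lit 79986688) (nat_lit 54951936)) (I.mix (nat_lit 86720512) (nat_lit 54640640)) (I.mix (nat_lit 136232960) (nat_lit 74121216)))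
  false (nat_lit 15847714)
def b2_1 : Bx := Bx.mk (St.mk (I.pos (nat_lit 129482752) (nat_lit 180699136)) (I.neg (nat_lit 5341184) (nat_lit 57704448)) (I.mix (nat_lit 46989312) (nat_lit 5931008)) (I.pos (nat_lit 77807616) (nat_lit 137396224)) (I.mix (nat_lit 57360384) (nat_lit 29212672)) (I.mix (nat_lit 27557888) (nat_lit 44007424)) (I.mix (nat_lit 24936448) (nat_lit 45432832)))
  false (nat_lit 0)
def b2_2 : Bx := Bx.mk (St.mk (I.mix (nat_lit 8683520) (nat_lit 115048448)) (I.mix (nat_lit 24788992) (nat_lit 1277952)) (I.mix (nat_lit 12189696) (nat_lit 7307264)) (I.mix (nat_lit 2424832) (nat_lit 64389120)) (I.mix (nat_lit 17367040) (nat_lit 14729216)) (I.mix (nat_lit 10649600) (nat_lit 16547840)) (I.mix (nat_lit 6930432) (nat_lit 11649024)))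
  false (nat_lit 0)
def b2_3 : Bx := Bx.mk (St.mk (I.pos (nat_lit 168132608) (nat_lit 218791936)) (I.mix (nat_lit 31703040) (nat_lit 54231040)) (I.mix (nat_lit 12189696) (nat_lit 109887488)) (I.pos (nat_lit 106905600) (nat_lit 190955520)) (I.mix (nat_lit 108134400) (nat_lit 45547520)) (I.mix (nat_lit 127533056) (nat_lit 57081856)) (I.mix (nat_lit 171376640) (nat_lit 60129280)))
  false (nat_lit 0)
def b2_4 : Bx := Bx.mk (St.mk (I.mix (nat_lit 13058048) (nat_lit 133660672)) (I.mix (nat_lit 8945664) (nat_lit 29884416)) (I.mix (nat_lit 1523712) (nat_lit 34062336)) (I.mix (nat_lit 2899968) (nat_lit 80330752)) (I.mix (nat_lit 42516480) (nat_lit 16072704)) (I.mix (nat_lit 43057152) (nat_lit 21659648)) (I.mix (nat_lit 34193408) (nat_lit 13910016)))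
  false (nat_lit 0)
def b2_5 : Bx := Bx.mk (St.mk (I.pos (nat_lit 165855232) (nat_lit 182534144)) (I.neg (nat_lit 13746176) (nat_lit 34291712)) (I.mix (nat_lit 18923520) (nat_lit 5242880)) (I.pos (nat_lit 105807872) (nat_lit 140673024)) (I.mix (nat_lit 15794176) (nat_lit 11993088)) (I.mix (nat_lit 9404416) (nat_lit 11223040)) (I.mix (nat_lit 9732096) (nat_lit 12664832)))
  false (nat_lit 0)
def b2_6 : Bx := Bx.mk (St.mk (I.mix (nat_lit 13205504) (nat_lit 115982336)) (I.mix (nat_lit 13778944) (nat_lit 999424)) (I.mix (nat_lit 3620864) (nat_lit 7733248)) (I.mix (nat_lit 2244608) (nat_lit 65470464)) (I.mix (nat_lit 5079040) (nat_lit 7159808)) (I.mix (nat_lit 4128768) (nat_lit 5242880)) (I.mix (nat_lit 2768896) (nat_lit 3899392)))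
  false (nat_lit 0)
def b2_7 : Bx := Bx.mk (St.mk (I.pos (nat_lit 70500352) (nat_lit 137854976)) (I.mix (nat_lit 4947968) (nat_lit 23576576)) (I.pos (nat_lit 786432) (nat_lit 30720000)) (I.pos (nat_lit 27246592) (nat_lit 87343104)) (I.mix (nat_lit 29294592) (nat_lit 19988480)) (I.mix (nat_lit 30081024) (nat_lit 17678336)) (I.mix (nat_lit 26542080) (nat_lit 12959744)))
  false (nat_lit 0)
def b2_8 : Bx := Bx.mk (St.mk (I.pos (nat_lit 120569856) (nat_lit 167821312)) (I.mix (nat_lit 54427648) (nat_lit 6881280)) (I.mix (nat_lit 42516480) (nat_lit 16728064)) (I.pos (nat_lit 55181312) (nat_lit 118784000)) (I.mix (nat_lit 66961408) (nat_lit 23412736)) (I.mix (nat_lit 34652160) (nat_lit 71155712)) (I.mix (nat_lit 29491200) (nat_lit 59555840)))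
  false (nat_lit 0)
def b2_9 : Bx := Bx.mk (St.mk (I.pos (nat_lit 38731776) (nat_lit 108101632)) (I.mix (nat_lit 23527424) (nat_lit 3260416)) (I.mix (nat_lit 10780672) (nat_lit 7602176)) (I.pos (nat_lit 4571136) (nat_lit 59342848)) (I.mix (nat_lit 21659648) (nat_lit 12681216)) (I.mix (nat_lit 13221888) (nat_lit 24248320)) (I.mix (nat_lit 7471104) (nat_lit 14204928)))
  false (nat_lit 0)
def t2 : BTr := (BTr.n (BTr.n (BTr.n (BTr.b b2_0) (BTr.b b2_1)) (BTr.n (BTr.b b2_2) (BTr.n (BTr.b b2_3) (BTr.b b2_4)))) (BTr.n (BTr.n (BTr.b b2_5) (BTr.b b2_6)) (BTr.n (BTr.b b2_7) (BTr.n (BTr.b b2_8) (BTr.b b2_9)))))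
namespace T2
def l0 : Tr := Tr.L (Pth.l (Pth.l (Pth.l Pth.z)))
def l1 : Tr := Tr.L (Pth.l (Pth.l (Pth.r Pth.z)))
def l2 : Tr := Tr.L (Pth.l (Pth.r (Pth.l Pth.z)))
def l3 : Tr := Tr.L (Pth.l (Pth.r (Pth.r (Pth.l Pth.z))))
def l4 : Tr := Tr.L (Pth.l (Pth.r (Pth.r (Pth.r Pth.z))))
def l5 : Tr := Tr.L (Pth.r (Pth.l (Pth.l Pth.z)))
def l6 : Tr := Tr.L (Pth.r (Pth.l (Pth.r Pth.z)))
def l7 : Tr := Tr.L (Pth.r (Pth.r (Pth.l Pth.z)))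
def l8 : Tr := Tr.L (Pth.r (Pth.r (Pth.r (Pth.l Pth.z))))
def l9 : Tr := Tr.L (Pth.r (Pth.r (Pth.r (Pth.r Pth.z))))
end T2
theorem bx0_0 : BoxOK sI cl5 cl13 cl13 t1 t1 b0_0 :=
  box_mk (TrL.c (I.pos (nat_lit 0) (nat_lit 0)) (xa (xa T1.l0 T1.l0) (xa T1.l0 T1.l0))
  (TrL.c (I.pos (nat_lit 0) (nat_lit 0)) T1.l1
  (TrL.c (I.pos (nat_lit 0) (nat_lit 0)) T1.l2
  (TrL.c (I.pos (nat_lit 0) (nat_lit 0)) T1.l3
  (TrL.c (I.pos (nat_lit 0) (nat_lit 0)) (xa T1.l4 (xa T1.l4 T1.l4))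
  (TrL.c (I.pos (nat_lit 0) (nat_lit 0)) T1.l5
  (TrL.c (I.pos (nat_lit 0) (nat_lit 0)) T1.l6
  (TrL.c (I.pos (nat_lit 0) (nat_lit 0)) T1.l7
  TrL.n)))))))) (by decide +kernel)
theorem bx0_1 : BoxOK sI cl5 cl13 cl13 t1 t1 b0_1 :=
  box_mk (TrL.c (I.pos (nat_lit 0) (nat_lit 0)) T1.l0
  (TrL.c (I.pos (nat_lit 0) (nat_lit 0)) T1.l1
  (TrL.c (I.pos (nat_lit 0) (nat_lit 0)) T1.l2
  (TrL.c (I.pos (nat_lit 0) (nat_lit 0)) T1.l3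
  (TrL.c (I.pos (nat_lit 0) (nat_lit 0)) T1.l4
  (TrL.c (I.pos (nat_lit 0) (nat_lit 0)) T1.l5
  (TrL.c (I.pos (nat_lit 0) (nat_lit 0)) T1.l6
  (TrL.c (I.pos (nat_lit 0) (nat_lit 0)) T1.l7
  TrL.n)))))))) (by decide +kernel)
theorem bx0_2 : BoxOK sI cl5 cl13 cl13 t1 t1 b0_2 :=
  box_mk (TrL.c (I.pos (nat_lit 0) (nat_lit 0)) T1.l0
  (TrL.c (I.pos (nat_lit 0) (nat_lit 0)) T1.l1
  (TrL.c (I.pos (nat_lit 0) (nat_lit 0)) T1.l2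
  (TrL.c (I.pos (nat_lit 0) (nat_lit 0)) T1.l3
  (TrL.c (I.pos (nat_lit 0) (nat_lit 0)) T1.l4
  (TrL.c (I.pos (nat_lit 0) (nat_lit 0)) T1.l5
  (TrL.c (I.pos (nat_lit 0) (nat_lit 0)) T1.l6
  (TrL.c (I.pos (nat_lit 0) (nat_lit 0)) T1.l7
  TrL.n)))))))) (by decide +kernel)
theorem bx0_3 : BoxOK sI cl5 cl13 cl13 t1 t1 b0_3 :=
  box_mk (TrL.c (I.pos (nat_lit 0) (nat_lit 0)) (xa T1.l0 T1.l0)
  (TrL.c (I.pos (nat_lit 0) (nat_lit 0)) T1.l1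
  (TrL.c (I.pos (nat_lit 0) (nat_lit 0)) T1.l2
  (TrL.c (I.pos (nat_lit 0) (nat_lit 0)) T1.l3
  (TrL.c (I.pos (nat_lit 0) (nat_lit 0)) T1.l4
  (TrL.c (I.pos (nat_lit 0) (nat_lit 0)) T1.l5
  (TrL.c (I.pos (nat_lit 0) (nat_lit 0)) T1.l6
  (TrL.c (I.pos (nat_lit 0) (nat_lit 0)) T1.l7
  TrL.n)))))))) (by decide +kernel)
theorem bx0_4 : BoxOK sI cl5 cl13 cl13 t1 t1 b0_4 :=
  box_mk (TrL.c (I.pos (nat_lit 0) (nat_lit 0)) T1.l0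
  (TrL.c (I.pos (nat_lit 0) (nat_lit 0)) T1.l1
  (TrL.c (I.pos (nat_lit 0) (nat_lit 0)) T1.l2
  (TrL.c (I.pos (nat_lit 0) (nat_lit 0)) T1.l3
  (TrL.c (I.pos (nat_lit 0) (nat_lit 0)) T1.l4
  (TrL.c (I.pos (nat_lit 0) (nat_lit 0)) T1.l5
  (TrL.c (I.pos (nat_lit 0) (nat_lit 0)) T1.l6
  (TrL.c (I.pos (nat_lit 0) (nat_lit 0)) T1.l7
  TrL.n)))))))) (by decide +kernel)
theorem bx0_5 : BoxOK sI cl5 cl13 cl13 t1 t1 b0_5 :=
  box_mk (TrL.c (I.pos (nat_lit 0) (nat_lit 0)) T1.l0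
  (TrL.c (I.pos (nat_lit 0) (nat_lit 0)) T1.l1
  (TrL.c (I.pos (nat_lit 0) (nat_lit 0)) T1.l2
  (TrL.c (I.pos (nat_lit 0) (nat_lit 0)) T1.l3
  (TrL.c (I.pos (nat_lit 0) (nat_lit 0)) T1.l4
  (TrL.c (I.pos (nat_lit 0) (nat_lit 0)) T1.l5
  (TrL.c (I.pos (nat_lit 0) (nat_lit 0)) T1.l6
  (TrL.c (I.pos (nat_lit 0) (nat_lit 0)) T1.l7
  TrL.n)))))))) (by decide +kernel)
theorem bx0_6 : BoxOK sI cl5 cl13 cl13 t1 t1 b0_6 :=
  box_mk (TrL.c (I.pos (nat_lit 0) (nat_lit 0)) T1.l0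
  (TrL.c (I.pos (nat_lit 0) (nat_lit 0)) T1.l1
  (TrL.c (I.pos (nat_lit 0) (nat_lit 0)) T1.l2
  (TrL.c (I.pos (nat_lit 0) (nat_lit 0)) T1.l3
  (TrL.c (I.pos (nat_lit 0) (nat_lit 0)) T1.l4
  (TrL.c (I.pos (nat_lit 0) (nat_lit 0)) T1.l5
  (TrL.c (I.pos (nat_lit 0) (nat_lit 0)) T1.l6
  (TrL.c (I.pos (nat_lit 0) (nat_lit 0)) T1.l7
  TrL.n)))))))) (by decide +kernel)
theorem bx0_7 : BoxOK sI cl5 cl13 cl13 t1 t1 b0_7 :=
  box_mk (TrL.c (I.pos (nat_lit 0) (nat_lit 0)) (xa T1.l0 T1.l0)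
  (TrL.c (I.pos (nat_lit 0) (nat_lit 0)) T1.l1
  (TrL.c (I.pos (nat_lit 0) (nat_lit 0)) T1.l2
  (TrL.c (I.pos (nat_lit 0) (nat_lit 0)) T1.l3
  (TrL.c (I.pos (nat_lit 0) (nat_lit 0)) T1.l4
  (TrL.c (I.pos (nat_lit 0) (nat_lit 0)) T1.l5
  (TrL.c (I.pos (nat_lit 0) (nat_lit 0)) T1.l6
  (TrL.c (I.pos (nat_lit 0) (nat_lit 0)) T1.l7
  TrL.n)))))))) (by decide +kernel)
theorem bx0_8 : BoxOK sI cl5 cl13 cl13 t1 t1 b0_8 :=
  box_mk (TrL.c (I.pos (nat_lit 0) (nat_lit 0)) (xb (xa T1.l0 T1.l0) (xa T1.l0 T1.l0))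
  (TrL.c (I.pos (nat_lit 0) (nat_lit 0)) T1.l1
  (TrL.c (I.pos (nat_lit 0) (nat_lit 0)) T1.l2
  (TrL.c (I.pos (nat_lit 0) (nat_lit 0)) T1.l3
  (TrL.c (I.pos (nat_lit 0) (nat_lit 0)) (xb T1.l4 T1.l4)
  (TrL.c (I.pos (nat_lit 0) (nat_lit 0)) T1.l5
  (TrL.c (I.pos (nat_lit 0) (nat_lit 0)) T1.l6
  (TrL.c (I.pos (nat_lit 0) (nat_lit 0)) T1.l7
  TrL.n)))))))) (by decide +kernel)
theorem bx0_9 : BoxOK sI cl5 cl13 cl13 t1 t1 b0_9 :=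
  box_mk (TrL.c (I.pos (nat_lit 0) (nat_lit 0)) (xa T1.l0 T1.l0)
  (TrL.c (I.pos (nat_lit 0) (nat_lit 0)) T1.l1
  (TrL.c (I.pos (nat_lit 0) (nat_lit 0)) T1.l2
  (TrL.c (I.pos (nat_lit 0) (nat_lit 0)) T1.l3
  (TrL.c (I.pos (nat_lit 0) (nat_lit 0)) T1.l4
  (TrL.c (I.pos (nat_lit 0) (nat_lit 0)) T1.l5
  (TrL.c (I.pos (nat_lit 0) (nat_lit 0)) T1.l6
  (TrL.c (I.pos (nat_lit 0) (nat_lit 0)) T1.l7
  TrL.n)))))))) (by decide +kernel)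
theorem sv0 : StarV sI cl5 cl13 cl13 t1 t1 t0 :=
  (bt_n (bt_n (bt_n (bt_b bx0_0) (bt_b bx0_1)) (bt_n (bt_b bx0_2) (bt_n (bt_b bx0_3) (bt_b bx0_4)))) (bt_n (bt_n (bt_b bx0_5) (bt_b bx0_6)) (bt_n (bt_b bx0_7) (bt_n (bt_b bx0_8) (bt_b bx0_9)))))
def S0 : StarD := StarD.mk cl5 cl13 cl13 1 1 t0
theorem bx1_0 : BoxOK sI cl13 cl5 cl13 t0 t2 b1_0 :=
  box_mk (TrL.c (I.pos (nat_lit 0) (nat_lit 0)) (xa T0.l0 T0.l0)
  (TrL.c (I.pos (nat_lit 0) (nat_lit 0)) T2.l1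
  (TrL.c (I.pos (nat_lit 0) (nat_lit 134217730)) (xR T0.l9 T0.l9)
  (TrL.c (I.pos (nat_lit 0) (nat_lit 110514882)) (xR T2.l2 (xR T2.l2 T2.l2))
  (TrL.c (I.pos (nat_lit 0) (nat_lit 0)) (xa (xk T2.l3 T2.l3) (xk (xa T2.l3 (xb T2.l3 (xs T2.l3 T2.l3))) (xa T2.l3 (xb T2.l3 (xs T2.l3 T2.l3)))))
  (TrL.c (I.pos (nat_lit 0) (nat_lit 0)) T0.l2
  (TrL.c (I.mix (nat_lit 8088324) (nat_lit 110514882)) (xR T2.l4 (xR T2.l4 T2.l4))
  (TrL.c (I.mix (nat_lit 8088324) (nat_lit 89478486)) (xR T0.l3 T0.l3)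
  TrL.n)))))))) (by decide +kernel)
theorem bx1_1 : BoxOK sI cl13 cl5 cl13 t0 t2 b1_1 :=
  box_mk (TrL.c (I.pos (nat_lit 0) (nat_lit 0)) T0.l0
  (TrL.c (I.pos (nat_lit 0) (nat_lit 0)) T2.l1
  (TrL.c (I.pos (nat_lit 0) (nat_lit 134217730)) (xR T0.l1 T0.l1)
  (TrL.c (I.pos (nat_lit 0) (nat_lit 110514882)) (xR T2.l2 T2.l2)
  (TrL.c (I.pos (nat_lit 0) (nat_lit 0)) T2.l3
  (TrL.c (I.pos (nat_lit 0) (nat_lit 0)) T0.l2
  (TrL.c (I.mix (nat_lit 8088324) (nat_lit 110514882)) T2.l4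
  (TrL.c (I.mix (nat_lit 8088324) (nat_lit 89478486)) T0.l3
  TrL.n)))))))) (by decide +kernel)
theorem bx1_2 : BoxOK sI cl13 cl5 cl13 t0 t2 b1_2 :=
  box_mk (TrL.c (I.pos (nat_lit 0) (nat_lit 0)) T0.l0
  (TrL.c (I.pos (nat_lit 0) (nat_lit 0)) T2.l1
  (TrL.c (I.pos (nat_lit 0) (nat_lit 134217730)) T0.l1
  (TrL.c (I.pos (nat_lit 0) (nat_lit 110514882)) (xR T2.l2 T2.l2)
  (TrL.c (I.pos (nat_lit 0) (nat_lit 0)) T2.l3
  (TrL.c (I.pos (nat_lit 0) (nat_lit 0)) T0.l2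
  (TrL.c (I.mix (nat_lit 8088324) (nat_lit 110514882)) T2.l4
  (TrL.c (I.mix (nat_lit 8088324) (nat_lit 89478486)) T0.l3
  TrL.n)))))))) (by decide +kernel)
theorem bx1_3 : BoxOK sI cl13 cl5 cl13 t0 t2 b1_3 :=
  box_mk (TrL.c (I.pos (nat_lit 0) (nat_lit 0)) T2.l5
  (TrL.c (I.pos (nat_lit 0) (nat_lit 0)) T0.l1
  (TrL.c (I.mix (nat_lit 8088324) (nat_lit 110514882)) (xR T2.l6 T2.l6)
  (TrL.c (I.mix (nat_lit 8088324) (nat_lit 89478486)) T0.l9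
  TrL.n)))) (by decide +kernel)
theorem bx1_4 : BoxOK sI cl13 cl5 cl13 t0 t2 b1_4 :=
  box_mk (TrL.c (I.pos (nat_lit 0) (nat_lit 0)) (xb T0.l0 T0.l0)
  (TrL.c (I.pos (nat_lit 0) (nat_lit 0)) T2.l1
  (TrL.c (I.pos (nat_lit 0) (nat_lit 134217730)) (xR T0.l1 (xR T0.l1 T0.l9))
  (TrL.c (I.pos (nat_lit 0) (nat_lit 110514882)) (xR T2.l2 (xR T2.l2 T2.l2))
  (TrL.c (I.pos (nat_lit 0) (nat_lit 0)) (xb T2.l3 T2.l3)
  (TrL.c (I.pos (nat_lit 0) (nat_lit 0)) T0.l2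
  (TrL.c (I.mix (nat_lit 8088324) (nat_lit 110514882)) (xR T2.l4 (xR T2.l4 T2.l4))
  (TrL.c (I.mix (nat_lit 8088324) (nat_lit 89478486)) T0.l7
  TrL.n)))))))) (by decide +kernel)
theorem bx1_5 : BoxOK sI cl13 cl5 cl13 t0 t2 b1_5 :=
  box_mk (TrL.c (I.pos (nat_lit 0) (nat_lit 0)) T0.l0
  (TrL.c (I.pos (nat_lit 0) (nat_lit 0)) T2.l1
  (TrL.c (I.pos (nat_lit 0) (nat_lit 134217730)) (xR T0.l1 T0.l1)
  (TrL.c (I.pos (nat_lit 0) (nat_lit 110514882)) (xR T2.l2 T2.l2)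
  (TrL.c (I.pos (nat_lit 0) (nat_lit 0)) T2.l3
  (TrL.c (I.pos (nat_lit 0) (nat_lit 0)) T0.l2
  (TrL.c (I.mix (nat_lit 8088324) (nat_lit 110514882)) T2.l4
  (TrL.c (I.mix (nat_lit 8088324) (nat_lit 89478486)) T0.l3
  TrL.n)))))))) (by decide +kernel)
theorem bx1_6 : BoxOK sI cl13 cl5 cl13 t0 t2 b1_6 :=
  box_mk (TrL.c (I.pos (nat_lit 0) (nat_lit 0)) T0.l0
  (TrL.c (I.pos (nat_lit 0) (nat_lit 0)) T2.l5
  (TrL.c (I.pos (nat_lit 0) (nat_lit 134217730)) T0.l1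
  (TrL.c (I.pos (nat_lit 0) (nat_lit 110514882)) (xR T2.l2 T2.l6)
  (TrL.c (I.pos (nat_lit 0) (nat_lit 0)) T2.l3
  (TrL.c (I.pos (nat_lit 0) (nat_lit 0)) T0.l2
  (TrL.c (I.mix (nat_lit 8088324) (nat_lit 110514882)) T2.l4
  (TrL.c (I.mix (nat_lit 8088324) (nat_lit 89478486)) T0.l3
  TrL.n)))))))) (by decide +kernel)
theorem bx1_7 : BoxOK sI cl13 cl5 cl13 t0 t2 b1_7 :=
  box_mk (TrL.c (I.pos (nat_lit 0) (nat_lit 0)) T2.l1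
  (TrL.c (I.pos (nat_lit 0) (nat_lit 0)) T0.l1
  (TrL.c (I.mix (nat_lit 8088324) (nat_lit 110514882)) (xR T2.l6 T2.l2)
  (TrL.c (I.mix (nat_lit 8088324) (nat_lit 89478486)) T0.l9
  TrL.n)))) (by decide +kernel)
theorem sv1 : StarV sI cl13 cl5 cl13 t0 t2 t1 :=
  (bt_n (bt_n (bt_n (bt_b bx1_0) (bt_b bx1_1)) (bt_n (bt_b bx1_2) (bt_b bx1_3))) (bt_n (bt_n (bt_b bx1_4) (bt_b bx1_5)) (bt_n (bt_b bx1_6) (bt_b bx1_7))))
def S1 : StarD := StarD.mk cl13 cl5 cl13 0 2 t1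
theorem bx2_0 : BoxOK sI cl13 cl13 cl5 t2 t0 b2_0 :=
  box_mk (TrL.c (I.pos (nat_lit 0) (nat_lit 0)) (xa (xa T2.l0 T2.l0) (xa T2.l0 T2.l0))
  (TrL.c (I.pos (nat_lit 0) (nat_lit 0)) T0.l6
  (TrL.c (I.pos (nat_lit 0) (nat_lit 134217730)) (xR T2.l4 (xR T2.l4 T2.l7))
  (TrL.c (I.pos (nat_lit 0) (nat_lit 110514882)) (xR T0.l9 (xR T0.l7 T0.l7))
  (TrL.c (I.pos (nat_lit 0) (nat_lit 0)) (xa (xa T0.l8 T0.l8) (xk (xa T0.l8 (xb T0.l8 T0.l8)) (xa T0.l8 (xb T0.l8 T0.l8))))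
  (TrL.c (I.pos (nat_lit 0) (nat_lit 0)) T2.l8
  (TrL.c (I.mix (nat_lit 8088324) (nat_lit 110514882)) (xR T0.l9 (xR T0.l9 T0.l9))
  (TrL.c (I.mix (nat_lit 8088324) (nat_lit 89478486)) (xR T2.l2 (xR T2.l9 T2.l9))
  TrL.n)))))))) (by decide +kernel)
theorem bx2_1 : BoxOK sI cl13 cl13 cl5 t2 t0 b2_1 :=
  box_mk (TrL.c (I.pos (nat_lit 0) (nat_lit 0)) T2.l0
  (TrL.c (I.pos (nat_lit 0) (nat_lit 0)) T0.l6
  (TrL.c (I.pos (nat_lit 0) (nat_lit 134217730)) (xR T2.l4 T2.l4)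
  (TrL.c (I.pos (nat_lit 0) (nat_lit 110514882)) (xR T0.l7 T0.l7)
  (TrL.c (I.pos (nat_lit 0) (nat_lit 0)) T0.l8
  (TrL.c (I.pos (nat_lit 0) (nat_lit 0)) T2.l8
  (TrL.c (I.mix (nat_lit 8088324) (nat_lit 110514882)) (xR T0.l9 T0.l9)
  (TrL.c (I.mix (nat_lit 8088324) (nat_lit 89478486)) (xR T2.l2 T2.l9)
  TrL.n)))))))) (by decide +kernel)
theorem bx2_2 : BoxOK sI cl13 cl13 cl5 t2 t0 b2_2 :=
  box_mk (TrL.c (I.pos (nat_lit 0) (nat_lit 0)) (xa (xa T2.l0 T2.l0) T2.l0)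
  (TrL.c (I.pos (nat_lit 0) (nat_lit 0)) T0.l6
  (TrL.c (I.pos (nat_lit 0) (nat_lit 134217730)) (xR T2.l4 (xR T2.l4 T2.l7))
  (TrL.c (I.pos (nat_lit 0) (nat_lit 110514882)) (xR T0.l7 (xR T0.l7 T0.l7))
  (TrL.c (I.pos (nat_lit 0) (nat_lit 0)) T0.l8
  (TrL.c (I.pos (nat_lit 0) (nat_lit 0)) T2.l8
  (TrL.c (I.mix (nat_lit 8088324) (nat_lit 110514882)) T0.l9
  (TrL.c (I.mix (nat_lit 8088324) (nat_lit 89478486)) T2.l4
  TrL.n)))))))) (by decide +kernel)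
theorem bx2_3 : BoxOK sI cl13 cl13 cl5 t2 t0 b2_3 :=
  box_mk (TrL.c (I.pos (nat_lit 0) (nat_lit 0)) (xa (xb T2.l0 T2.l0) (xb T2.l0 T2.l0))
  (TrL.c (I.pos (nat_lit 0) (nat_lit 0)) T0.l6
  (TrL.c (I.pos (nat_lit 0) (nat_lit 134217730)) (xR T2.l4 (xR T2.l4 T2.l7))
  (TrL.c (I.pos (nat_lit 0) (nat_lit 110514882)) (xR T0.l7 (xR T0.l7 T0.l7))
  (TrL.c (I.pos (nat_lit 0) (nat_lit 0)) (xb T0.l8 T0.l8)
  (TrL.c (I.pos (nat_lit 0) (nat_lit 0)) T2.l8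
  (TrL.c (I.mix (nat_lit 8088324) (nat_lit 110514882)) (xR T0.l9 (xR T0.l9 T0.l9))
  (TrL.c (I.mix (nat_lit 8088324) (nat_lit 89478486)) (xR T2.l2 T2.l9)
  TrL.n)))))))) (by decide +kernel)
theorem bx2_4 : BoxOK sI cl13 cl13 cl5 t2 t0 b2_4 :=
  box_mk (TrL.c (I.pos (nat_lit 0) (nat_lit 0)) (xa T2.l0 T2.l0)
  (TrL.c (I.pos (nat_lit 0) (nat_lit 0)) T0.l6
  (TrL.c (I.pos (nat_lit 0) (nat_lit 134217730)) (xR T2.l4 (xR T2.l4 T2.l7))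
  (TrL.c (I.pos (nat_lit 0) (nat_lit 110514882)) (xR T0.l7 (xR T0.l7 T0.l7))
  (TrL.c (I.pos (nat_lit 0) (nat_lit 0)) (xa T0.l8 T0.l8)
  (TrL.c (I.pos (nat_lit 0) (nat_lit 0)) T2.l8
  (TrL.c (I.mix (nat_lit 8088324) (nat_lit 110514882)) T0.l9
  (TrL.c (I.mix (nat_lit 8088324) (nat_lit 89478486)) (xR T2.l4 T2.l9)
  TrL.n)))))))) (by decide +kernel)
theorem bx2_5 : BoxOK sI cl13 cl13 cl5 t2 t0 b2_5 :=
  box_mk (TrL.c (I.pos (nat_lit 0) (nat_lit 0)) T2.l0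
  (TrL.c (I.pos (nat_lit 0) (nat_lit 0)) T0.l6
  (TrL.c (I.pos (nat_lit 0) (nat_lit 134217730)) (xR T2.l4 T2.l4)
  (TrL.c (I.pos (nat_lit 0) (nat_lit 110514882)) (xR T0.l7 T0.l7)
  (TrL.c (I.pos (nat_lit 0) (nat_lit 0)) T0.l8
  (TrL.c (I.pos (nat_lit 0) (nat_lit 0)) T2.l8
  (TrL.c (I.mix (nat_lit 8088324) (nat_lit 110514882)) (xR T0.l9 T0.l9)
  (TrL.c (I.mix (nat_lit 8088324) (nat_lit 89478486)) T2.l2
  TrL.n)))))))) (by decide +kernel)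
theorem bx2_6 : BoxOK sI cl13 cl13 cl5 t2 t0 b2_6 :=
  box_mk (TrL.c (I.pos (nat_lit 0) (nat_lit 0)) (xa T2.l0 T2.l0)
  (TrL.c (I.pos (nat_lit 0) (nat_lit 0)) T0.l6
  (TrL.c (I.pos (nat_lit 0) (nat_lit 134217730)) (xR T2.l4 (xR T2.l4 T2.l7))
  (TrL.c (I.pos (nat_lit 0) (nat_lit 110514882)) (xR T0.l7 T0.l7)
  (TrL.c (I.pos (nat_lit 0) (nat_lit 0)) T0.l8
  (TrL.c (I.pos (nat_lit 0) (nat_lit 0)) T2.l8
  (TrL.c (I.mix (nat_lit 8088324) (nat_lit 110514882)) T0.l9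
  (TrL.c (I.mix (nat_lit 8088324) (nat_lit 89478486)) T2.l4
  TrL.n)))))))) (by decide +kernel)
theorem bx2_7 : BoxOK sI cl13 cl13 cl5 t2 t0 b2_7 :=
  box_mk (TrL.c (I.pos (nat_lit 0) (nat_lit 0)) T2.l0
  (TrL.c (I.pos (nat_lit 0) (nat_lit 0)) T0.l6
  (TrL.c (I.pos (nat_lit 0) (nat_lit 134217730)) (xR T2.l4 (xR T2.l4 T2.l7))
  (TrL.c (I.pos (nat_lit 0) (nat_lit 110514882)) (xR T0.l7 T0.l7)
  (TrL.c (I.pos (nat_lit 0) (nat_lit 0)) T0.l8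
  (TrL.c (I.pos (nat_lit 0) (nat_lit 0)) T2.l8
  (TrL.c (I.mix (nat_lit 8088324) (nat_lit 110514882)) T0.l9
  (TrL.c (I.mix (nat_lit 8088324) (nat_lit 89478486)) T2.l2
  TrL.n)))))))) (by decide +kernel)
theorem bx2_8 : BoxOK sI cl13 cl13 cl5 t2 t0 b2_8 :=
  box_mk (TrL.c (I.pos (nat_lit 0) (nat_lit 0)) T2.l0
  (TrL.c (I.pos (nat_lit 0) (nat_lit 0)) T0.l6
  (TrL.c (I.pos (nat_lit 0) (nat_lit 134217730)) (xR T2.l4 T2.l4)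
  (TrL.c (I.pos (nat_lit 0) (nat_lit 110514882)) (xR T0.l7 T0.l7)
  (TrL.c (I.pos (nat_lit 0) (nat_lit 0)) T0.l8
  (TrL.c (I.pos (nat_lit 0) (nat_lit 0)) T2.l8
  (TrL.c (I.mix (nat_lit 8088324) (nat_lit 110514882)) T0.l9
  (TrL.c (I.mix (nat_lit 8088324) (nat_lit 89478486)) T2.l2
  TrL.n)))))))) (by decide +kernel)
theorem bx2_9 : BoxOK sI cl13 cl13 cl5 t2 t0 b2_9 :=
  box_mk (TrL.c (I.pos (nat_lit 0) (nat_lit 0)) T2.l0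
  (TrL.c (I.pos (nat_lit 0) (nat_lit 0)) T0.l6
  (TrL.c (I.pos (nat_lit 0) (nat_lit 134217730)) (xR T2.l4 (xR T2.l4 T2.l7))
  (TrL.c (I.pos (nat_lit 0) (nat_lit 110514882)) (xR T0.l7 T0.l7)
  (TrL.c (I.pos (nat_lit 0) (nat_lit 0)) T0.l8
  (TrL.c (I.pos (nat_lit 0) (nat_lit 0)) T2.l8
  (TrL.c (I.mix (nat_lit 8088324) (nat_lit 110514882)) T0.l9
  (TrL.c (I.mix (nat_lit 8088324) (nat_lit 89478486)) T2.l2
  TrL.n)))))))) (by decide +kernel)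
theorem sv2 : StarV sI cl13 cl13 cl5 t2 t0 t2 :=
  (bt_n (bt_n (bt_n (bt_b bx2_0) (bt_b bx2_1)) (bt_n (bt_b bx2_2) (bt_n (bt_b bx2_3) (bt_b bx2_4)))) (bt_n (bt_n (bt_b bx2_5) (bt_b bx2_6)) (bt_n (bt_b bx2_7) (bt_n (bt_b bx2_8) (bt_b bx2_9)))))
def S2 : StarD := StarD.mk cl13 cl13 cl5 2 0 t2
def G : List StarD := [S0, S1, S2]
theorem so0 : StarOK sI G S0 :=
  star_mk (by decide) (by decide) rfl rfl rfl rfl rfl rfl (rfl : _ = t1) (rfl : _ = t1)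
  (st_mk (Pth.l (Pth.l (Pth.l Pth.z))) (nat_lit 96767515) (nat_lit 115598723) (by decide +kernel))
  (st_mk (Pth.l (Pth.l (Pth.l Pth.z))) (nat_lit 132474589) (nat_lit 151761602) (by decide +kernel))
  (st_mk (Pth.l (Pth.l (Pth.l Pth.z))) (nat_lit 173997679) (nat_lit 193939169) (by decide +kernel)) sv0
theorem so1 : StarOK sI G S1 :=
  star_mk (by decide) (by decide) rfl rfl rfl rfl rfl rfl (rfl : _ = t0) (rfl : _ = t2)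
  (st_mk (Pth.l (Pth.l (Pth.l Pth.z))) (nat_lit 238062708) (nat_lit 239478350) (by decide +kernel))
  (st_mk (Pth.l (Pth.l (Pth.l Pth.z))) (nat_lit 272959317) (nat_lit 274650779) (by decide +kernel))
  (st_mk (Pth.l (Pth.l (Pth.l Pth.z))) (nat_lit 313224636) (nat_lit 315281751) (by decide +kernel)) sv1
theorem so2 : StarOK sI G S2 :=
  star_mk (by decide) (by decide) rfl rfl rfl rfl rfl rfl (rfl : _ = t2) (rfl : _ = t0)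
  (st_mk (Pth.l (Pth.l (Pth.l Pth.z))) (nat_lit 96368329) (nat_lit 113609491) (by decide +kernel))
  (st_mk (Pth.l (Pth.l (Pth.l Pth.z))) (nat_lit 130728068) (nat_lit 149246063) (by decide +kernel))
  (st_mk (Pth.l (Pth.l (Pth.l Pth.z))) (nat_lit 170993386) (nat_lit 189813962) (by decide +kernel)) sv2
theorem ok : GroupOK (nat_lit 0) (nat_lit 91291648) G := grp_mk (allS_c so0 (allS_c so1 (allS_c so2 allS_n)))
theorem cov : GCov G cl5 cl13 cl13 := cov_mk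
  ⟨0, by decide, rfl, rfl, rfl⟩ ⟨0, by decide, rfl, rfl, rfl⟩ ⟨1, by decide, rfl, rfl, rfl⟩ ⟨2, by decide, rfl, rfl, rfl⟩ ⟨1, by decide, rfl, rfl, rfl⟩ ⟨2, by decide, rfl, rfl, rfl⟩
end Q266_0

namespace Q266_1
def sI : I := I.pos (nat_lit 91226112) (nat_lit 150339584)
def b0_0 : Bx := Bx.mk (St.mk (I.pos (nat_lit 160514048) (nat_lit 161611776)) (I.mix (nat_lit 278528) (nat_lit 278528)) (I.mix (nat_lit 278528) (nat_lit 278528)) (I.pos (nat_lit 97075200) (nat_lit 115916800)) (I.mix (nat_lit 278528) (nat_lit 278528)) (I.mix (nat_lit 278528) (nat_lit 278528)) (I.mix (nat_lit 278528) (nat_lit 278528)))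
  false (nat_lit 0)
def b0_1 : Bx := Bx.mk (St.mk (I.pos (nat_lit 179929088) (nat_lit 261062656)) (I.mix (nat_lit 17973248) (nat_lit 53706752)) (I.mix (nat_lit 24641536) (nat_lit 74858496)) (I.pos (nat_lit 130220032) (nat_lit 274726912)) (I.mix (nat_lit 106610688) (nat_lit 56131584)) (I.mix (nat_lit 126828544) (nat_lit 52101120)) (I.mix (nat_lit 150061056) (nat_lit 64651264)))
  false (nat_lit 0)
def b0_2 : Bx := Bx.mk (St.mk (I.mix (nat_lit 12484608) (nat_lit 136953856)) (I.mix (nat_lit 12124160) (nat_lit 18055168)) (I.mix (nat_lit 15368192) (nat_lit 8912896)) (I.mix (nat_lit 557056) (nat_lit 86130688)) (I.mix (nat_lit 19988480) (nat_lit 18825216)) (I.mix (nat_lit 19202048) (nat_lit 18661376)) (I.mix (nat_lit 12992512) (nat_lit 12812288)))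
  false (nat_lit 0)
def b0_3 : Bx := Bx.mk (St.mk (I.pos (nat_lit 39682048) (nat_lit 136675328)) (I.mix (nat_lit 10747904) (nat_lit 31768576)) (I.mix (nat_lit 12468224) (nat_lit 20054016)) (I.pos (nat_lit 9404416) (nat_lit 83116032)) (I.mix (nat_lit 43925504) (nat_lit 29392896)) (I.mix (nat_lit 46940160) (nat_lit 26099712)) (I.mix (nat_lit 31965184) (nat_lit 17317888)))
  false (nat_lit 0)
def b0_4 : Bx := Bx.mk (St.mk (I.pos (nat_lit 112967680) (nat_lit 202588160)) (I.mix (nat_lit 53477376) (nat_lit 10059776)) (I.mix (nat_lit 61620224) (nat_lit 12353536)) (I.pos (nat_lit 55148544) (nat_lit 167952384)) (I.mix (nat_lit 76300288) (nat_lit 38764544)) (I.mix (nat_lit 38862848) (nat_lit 68845568)) (I.mix (nat_lit 37191680) (nat_lit 67305472)))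
  false (nat_lit 0)
def b0_5 : Bx := Bx.mk (St.mk (I.mix (nat_lit 10354688) (nat_lit 121798656)) (I.mix (nat_lit 25903104) (nat_lit 10092544)) (I.mix (nat_lit 24248320) (nat_lit 2310144)) (I.mix (nat_lit 557056) (nat_lit 70893568)) (I.mix (nat_lit 31408128) (nat_lit 23543808)) (I.mix (nat_lit 19185664) (nat_lit 28622848)) (I.mix (nat_lit 10518528) (nat_lit 20283392)))
  false (nat_lit 0)
def b0_6 : Bx := Bx.mk (St.mk (I.pos (nat_lit 217563136) (nat_lit 267878400)) (I.mix (nat_lit 6455296) (nat_lit 26476544)) (I.mix (nat_lit 45187072) (nat_lit 23461888)) (I.pos (nat_lit 197558272) (nat_lit 291110912)) (I.mix (nat_lit 58081280) (nat_lit 28508160)) (I.mix (nat_lit 41795584) (nat_lit 37945344)) (I.mix (nat_lit 63537152) (nat_lit 65093632)))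
  false (nat_lit 0)
def b0_7 : Bx := Bx.mk (St.mk (I.pos (nat_lit 54640640) (nat_lit 134594560)) (I.mix (nat_lit 81920) (nat_lit 6799360)) (I.mix (nat_lit 9338880) (nat_lit 212992)) (I.pos (nat_lit 14155776) (nat_lit 84443136)) (I.mix (nat_lit 8257536) (nat_lit 4980736)) (I.mix (nat_lit 4079616) (nat_lit 2441216)) (I.mix (nat_lit 2785280) (nat_lit 2310144)))
  false (nat_lit 0)
def b0_8 : Bx := Bx.mk (St.mk (I.pos (nat_lit 179503104) (nat_lit 215597056)) (I.mix (nat_lit 26378240) (nat_lit 17727488)) (I.mix (nat_lit 34177024) (nat_lit 21299200)) (I.pos (nat_lit 125468672) (nat_lit 188088320)) (I.mix (nat_lit 52396032) (nat_lit 39845888)) (I.mix (nat_lit 52756480) (nat_lit 51822592)) (I.mix (nat_lit 57638912) (nat_lit 57589760)))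
  false (nat_lit 0)
def t0 : BTr := (BTr.n (BTr.n (BTr.n (BTr.b b0_0) (BTr.b b0_1)) (BTr.n (BTr.b b0_2) (BTr.b b0_3))) (BTr.n (BTr.n (BTr.b b0_4) (BTr.b b0_5)) (BTr.n (BTr.b b0_6) (BTr.n (BTr.b b0_7) (BTr.b b0_8)))))
namespace T0
def l0 : Tr := Tr.L (Pth.l (Pth.l (Pth.l Pth.z)))
def l1 : Tr := Tr.L (Pth.l (Pth.l (Pth.r Pth.z)))
def l2 : Tr := Tr.L (Pth.l (Pth.r (Pth.l Pth.z)))
def l3 : Tr := Tr.L (Pth.l (Pth.r (Pth.r Pth.z)))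
def l4 : Tr := Tr.L (Pth.r (Pth.l (Pth.l Pth.z)))
def l5 : Tr := Tr.L (Pth.r (Pth.l (Pth.r Pth.z)))
def l6 : Tr := Tr.L (Pth.r (Pth.r (Pth.l Pth.z)))
def l7 : Tr := Tr.L (Pth.r (Pth.r (Pth.r (Pth.l Pth.z))))
def l8 : Tr := Tr.L (Pth.r (Pth.r (Pth.r (Pth.r Pth.z))))
end T0
def b1_0 : Bx := Bx.mk (St.mk (I.pos (nat_lit 156565504) (nat_lit 195624960)) (I.mix (nat_lit 17268736) (nat_lit 48545792)) (I.mix (nat_lit 8519680) (nat_lit 75300864)) (I.pos (nat_lit 235372544) (nat_lit 286425088)) (I.mix (nat_lit 99336192) (nat_lit 53329920)) (I.mix (nat_lit 114311168) (nat_lit 57753600)) (I.mix (nat_lit 115703808) (nat_lit 58949632)))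
  false (nat_lit 12635565)
def b1_1 : Bx := Bx.mk (St.mk (I.pos (nat_lit 176242688) (nat_lit 262324224)) (I.mix (nat_lit 278528) (nat_lit 63209472)) (I.mix (nat_lit 24264704) (nat_lit 79659008)) (I.pos (nat_lit 272400384) (nat_lit 396214272)) (I.mix (nat_lit 95551488) (nat_lit 54280192)) (I.mix (nat_lit 89096192) (nat_lit 41713664)) (I.mix (nat_lit 126550016) (nat_lit 64208896)))
  false (nat_lit 93197203)
def b1_2 : Bx := Bx.mk (St.mk (I.pos (nat_lit 73383936) (nat_lit 174915584)) (I.mix (nat_lit 72155136) (nat_lit 10305536)) (I.mix (nat_lit 63225856) (nat_lit 29294592)) (I.pos (nat_lit 165232640) (nat_lit 251854848)) (I.mix (nat_lit 82296832) (nat_lit 45318144)) (I.mix (nat_lit 35356672) (nat_lit 68698112)) (I.mix (nat_lit 31916032) (nat_lit 55787520)))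
  false (nat_lit 0)
def b1_3 : Bx := Bx.mk (St.mk (I.mix (nat_lit 4718592) (nat_lit 69959680)) (I.mix (nat_lit 6176768) (nat_lit 46366720)) (I.mix (nat_lit 22560768) (nat_lit 6258688)) (I.pos (nat_lit 140525568) (nat_lit 160628736)) (I.mix (nat_lit 33013760) (nat_lit 38305792)) (I.mix (nat_lit 39026688) (nat_lit 24100864)) (I.mix (nat_lit 20447232) (nat_lit 12288000)))
  false (nat_lit 0)
def b1_4 : Bx := Bx.mk (St.mk (I.mix (nat_lit 69894144) (nat_lit 4915200)) (I.mix (nat_lit 46366720) (nat_lit 6094848)) (I.mix (nat_lit 22577152) (nat_lit 6258688)) (I.pos (nat_lit 140492800) (nat_lit 160628736)) (I.mix (nat_lit 38305792) (nat_lit 33013760)) (I.mix (nat_lit 24100864) (nat_lit 39026688)) (I.mix (nat_lit 20463616) (nat_lit 12288000)))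
  true (nat_lit 0)
def b1_5 : Bx := Bx.mk (St.mk (I.pos (nat_lit 55476224) (nat_lit 105529344)) (I.mix (nat_lit 64012288) (nat_lit 7094272)) (I.neg (nat_lit 10387456) (nat_lit 55574528)) (I.pos (nat_lit 151207936) (nat_lit 185237504)) (I.mix (nat_lit 77709312) (nat_lit 31490048)) (I.mix (nat_lit 34439168) (nat_lit 74874880)) (I.mix (nat_lit 25346048) (nat_lit 45367296)))
  false (nat_lit 0)
def b1_6 : Bx := Bx.mk (St.mk (I.pos (nat_lit 170147840) (nat_lit 222085120)) (I.pos (nat_lit 26460160) (nat_lit 68026368)) (I.pos (nat_lit 30736384) (nat_lit 95518720)) (I.pos (nat_lit 270843904) (nat_lit 323223552)) (I.mix (nat_lit 96583680) (nat_lit 64815104)) (I.mix (nat_lit 85901312) (nat_lit 49053696)) (I.mix (nat_lit 122011648) (nat_lit 69042176)))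
  false (nat_lit 56507362)
def b1_7 : Bx := Bx.mk (St.mk (I.neg (nat_lit 16678912) (nat_lit 35258368)) (I.neg (nat_lit 18087936) (nat_lit 41222144)) (I.mix (nat_lit 3506176) (nat_lit 4734976)) (I.pos (nat_lit 142655488) (nat_lit 149798912)) (I.mix (nat_lit 26361856) (nat_lit 33308672)) (I.mix (nat_lit 20316160) (nat_lit 36208640)) (I.mix (nat_lit 5439488) (nat_lit 4587520)))
  true (nat_lit 0)
def b1_8 : Bx := Bx.mk (St.mk (I.pos (nat_lit 158842880) (nat_lit 212172800)) (I.pos (nat_lit 19988480) (nat_lit 68288512)) (I.pos (nat_lit 32899072) (nat_lit 98172928)) (I.pos (nat_lit 248315904) (nat_lit 301170688)) (I.mix (nat_lit 121602048) (nat_lit 54067200)) (I.mix (nat_lit 136298496) (nat_lit 62373888)) (I.mix (nat_lit 140034048) (nat_lit 64880640)))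
  false (nat_lit 73984582)
def b1_9 : Bx := Bx.mk (St.mk (I.pos (nat_lit 16678912) (nat_lit 35258368)) (I.pos (nat_lit 18087936) (nat_lit 41222144)) (I.mix (nat_lit 3506176) (nat_lit 4734976)) (I.pos (nat_lit 142655488) (nat_lit 149798912)) (I.mix (nat_lit 33308672) (nat_lit 26509312)) (I.mix (nat_lit 36290560) (nat_lit 20283392)) (I.mix (nat_lit 5455872) (nat_lit 4603904)))
  false (nat_lit 0)
def b1_10 : Bx := Bx.mk (St.mk (I.pos (nat_lit 204996608) (nat_lit 280559616)) (I.mix (nat_lit 16515072) (nat_lit 62963712)) (I.mix (nat_lit 77217792) (nat_lit 68698112)) (I.pos (nat_lit 327008256) (nat_lit 426278912)) (I.mix (nat_lit 48218112) (nat_lit 37912576)) (I.mix (nat_lit 39043072) (nat_lit 32374784)) (I.mix (nat_lit 65929216) (nat_lit 59588608)))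
  false (nat_lit 86772035)
def b1_11 : Bx := Bx.mk (St.mk (I.pos (nat_lit 141115392) (nat_lit 174080000)) (I.mix (nat_lit 23773184) (nat_lit 14450688)) (I.mix (nat_lit 14565376) (nat_lit 33308672)) (I.pos (nat_lit 217300992) (nat_lit 252067840)) (I.mix (nat_lit 36864000) (nat_lit 25739264)) (I.mix (nat_lit 33783808) (nat_lit 22937600)) (I.mix (nat_lit 33226752) (nat_lit 20316160)))
  false (nat_lit 0)
def b1_12 : Bx := Bx.mk (St.mk (I.pos (nat_lit 251265024) (nat_lit 271794176)) (I.mix (nat_lit 16498688) (nat_lit 4325376)) (I.neg (nat_lit 33423360) (nat_lit 77496320)) (I.pos (nat_lit 377733120) (nat_lit 414842880)) (I.mix (nat_lit 36470784) (nat_lit 13254656)) (I.mix (nat_lit 25739264) (nat_lit 29818880)) (I.mix (nat_lit 40632320) (nat_lit 56950784)))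
  false (nat_lit 0)
def b1_13 : Bx := Bx.mk (St.mk (I.pos (nat_lit 252002304) (nat_lit 266780672)) (I.mix (nat_lit 9633792) (nat_lit 7749632)) (I.neg (nat_lit 22642688) (nat_lit 62439424)) (I.pos (nat_lit 379617280) (nat_lit 404275200)) (I.mix (nat_lit 28852224) (nat_lit 14254080)) (I.mix (nat_lit 20070400) (nat_lit 20135936)) (I.mix (nat_lit 31457280) (nat_lit 38371328)))
  false (nat_lit 0)
def t1 : BTr := (BTr.n (BTr.n (BTr.n (BTr.b b1_0) (BTr.n (BTr.b b1_1) (BTr.b b1_2))) (BTr.n (BTr.n (BTr.b b1_3) (BTr.b b1_4)) (BTr.n (BTr.b b1_5) (BTr.b b1_6)))) (BTr.n (BTr.n (BTr.b b1_7) (BTr.n (BTr.b b1_8) (BTr.b b1_9))) (BTr.n (BTr.n (BTr.b b1_10) (BTr.b b1_11)) (BTr.n (BTr.b b1_12) (BTr.b b1_13)))))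
namespace T1
def l0 : Tr := Tr.L (Pth.l (Pth.l (Pth.l Pth.z)))
def l1 : Tr := Tr.L (Pth.l (Pth.l (Pth.r (Pth.l Pth.z))))
def l2 : Tr := Tr.L (Pth.l (Pth.l (Pth.r (Pth.r Pth.z))))
def l3 : Tr := Tr.L (Pth.l (Pth.r (Pth.l (Pth.l Pth.z))))
def l4 : Tr := Tr.L (Pth.l (Pth.r (Pth.l (Pth.r Pth.z))))
def l5 : Tr := Tr.L (Pth.l (Pth.r (Pth.r (Pth.l Pth.z))))
def l6 : Tr := Tr.L (Pth.l (Pth.r (Pth.r (Pth.r Pth.z))))
def l7 : Tr := Tr.L (Pth.r (Pth.l (Pth.l Pth.z)))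
def l8 : Tr := Tr.L (Pth.r (Pth.l (Pth.r (Pth.l Pth.z))))
def l9 : Tr := Tr.L (Pth.r (Pth.l (Pth.r (Pth.r Pth.z))))
def l10 : Tr := Tr.L (Pth.r (Pth.r (Pth.l (Pth.l Pth.z))))
def l11 : Tr := Tr.L (Pth.r (Pth.r (Pth.l (Pth.r Pth.z))))
def l12 : Tr := Tr.L (Pth.r (Pth.r (Pth.r (Pth.l Pth.z))))
def l13 : Tr := Tr.L (Pth.r (Pth.r (Pth.r (Pth.r Pth.z))))
end T1
def b2_0 : Bx := Bx.mk (St.mk (I.pos (nat_lit 160514048) (nat_lit 161611776)) (I.mix (nat_lit 278528) (nat_lit 278528)) (I.mix (nat_lit 278528) (nat_lit 278528)) (I.pos (nat_lit 95813632) (nat_lit 114212864)) (I.mix (nat_lit 278528) (nat_lit 278528)) (I.mix (nat_lit 278528) (nat_lit 278528)) (I.mix (nat_lit 278528) (nat_lit 278528)))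
  false (nat_lit 0)
def b2_1 : Bx := Bx.mk (St.mk (I.pos (nat_lit 176832512) (nat_lit 278872064)) (I.mix (nat_lit 15204352) (nat_lit 32014336)) (I.mix (nat_lit 278528) (nat_lit 78282752)) (I.pos (nat_lit 116146176) (nat_lit 304693248)) (I.mix (nat_lit 90226688) (nat_lit 43401216)) (I.mix (nat_lit 106086400) (nat_lit 41566208)) (I.mix (nat_lit 130531328) (nat_lit 53329920)))
  false (nat_lit 31406582)
def b2_2 : Bx := Bx.mk (St.mk (I.pos (nat_lit 125976576) (nat_lit 183402496)) (I.neg (nat_lit 2949120) (nat_lit 53428224)) (I.mix (nat_lit 42663936) (nat_lit 5881856)) (I.pos (nat_lit 63078400) (nat_lit 141606912)) (I.mix (nat_lit 72335360) (nat_lit 32374784)) (I.mix (nat_lit 29638656) (nat_lit 76726272)) (I.mix (nat_lit 24559616) (nat_lit 65404928)))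
  false (nat_lit 0)
def b2_3 : Bx := Bx.mk (St.mk (I.mix (nat_lit 9912320) (nat_lit 120553472)) (I.mix (nat_lit 18530304) (nat_lit 7487488)) (I.mix (nat_lit 6520832) (nat_lit 14090240)) (I.mix (nat_lit 557056) (nat_lit 70467584)) (I.mix (nat_lit 16416768) (nat_lit 13058048)) (I.mix (nat_lit 10993664) (nat_lit 12075008)) (I.mix (nat_lit 7602176) (nat_lit 7831552)))
  false (nat_lit 0)
def b2_4 : Bx := Bx.mk (St.mk (I.pos (nat_lit 34324480) (nat_lit 111017984)) (I.mix (nat_lit 25362432) (nat_lit 2162688)) (I.mix (nat_lit 12419072) (nat_lit 4767744)) (I.pos (nat_lit 5750784) (nat_lit 60588032)) (I.mix (nat_lit 26607616) (nat_lit 19021824)) (I.mix (nat_lit 13778944) (nat_lit 27164672)) (I.mix (nat_lit 7946240) (nat_lit 15450112)))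
  false (nat_lit 0)
def b2_5 : Bx := Bx.mk (St.mk (I.mix (nat_lit 13090816) (nat_lit 137707520)) (I.mix (nat_lit 8437760) (nat_lit 32161792)) (I.mix (nat_lit 557056) (nat_lit 35930112)) (I.mix (nat_lit 557056) (nat_lit 86867968)) (I.mix (nat_lit 46710784) (nat_lit 23953408)) (I.mix (nat_lit 44908544) (nat_lit 20676608)) (I.mix (nat_lit 34865152) (nat_lit 14630912)))
  false (nat_lit 0)
def b2_6 : Bx := Bx.mk (St.mk (I.pos (nat_lit 175013888) (nat_lit 214155264)) (I.mix (nat_lit 31490048) (nat_lit 18202624)) (I.mix (nat_lit 9928704) (nat_lit 57622528)) (I.pos (nat_lit 114950144) (nat_lit 179601408)) (I.mix (nat_lit 52477952) (nat_lit 47628288)) (I.mix (nat_lit 50495488) (nat_lit 50233344)) (I.mix (nat_lit 58572800) (nat_lit 53919744)))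
  false (nat_lit 13651094)
def b2_7 : Bx := Bx.mk (St.mk (I.pos (nat_lit 117522432) (nat_lit 200769536)) (I.mix (nat_lit 29343744) (nat_lit 5898240)) (I.mix (nat_lit 11599872) (nat_lit 30654464)) (I.pos (nat_lit 51642368) (nat_lit 162086912)) (I.mix (nat_lit 32587776) (nat_lit 29622272)) (I.mix (nat_lit 28606464) (nat_lit 27148288)) (I.mix (nat_lit 29917184) (nat_lit 29114368)))
  false (nat_lit 0)
def b2_8 : Bx := Bx.mk (St.mk (I.pos (nat_lit 173768704) (nat_lit 262717440)) (I.mix (nat_lit 704512) (nat_lit 47661056)) (I.pos (nat_lit 27918336) (nat_lit 101400576)) (I.pos (nat_lit 121307136) (nat_lit 270499840)) (I.mix (nat_lit 105037824) (nat_lit 53215232)) (I.mix (nat_lit 112230400) (nat_lit 53526528)) (I.mix (nat_lit 144113664) (nat_lit 68435968)))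
  false (nat_lit 41605948)
def t2 : BTr := (BTr.n (BTr.n (BTr.n (BTr.b b2_0) (BTr.b b2_1)) (BTr.n (BTr.b b2_2) (BTr.b b2_3))) (BTr.n (BTr.n (BTr.b b2_4) (BTr.b b2_5)) (BTr.n (BTr.b b2_6) (BTr.n (BTr.b b2_7) (BTr.b b2_8)))))
namespace T2
def l0 : Tr := Tr.L (Pth.l (Pth.l (Pth.l Pth.z)))
def l1 : Tr := Tr.L (Pth.l (Pth.l (Pth.r Pth.z)))
def l2 : Tr := Tr.L (Pth.l (Pth.r (Pth.l Pth.z)))
def l3 : Tr := Tr.L (Pth.l (Pth.r (Pth.r Pth.z)))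
def l4 : Tr := Tr.L (Pth.r (Pth.l (Pth.l Pth.z)))
def l5 : Tr := Tr.L (Pth.r (Pth.l (Pth.r Pth.z)))
def l6 : Tr := Tr.L (Pth.r (Pth.r (Pth.l Pth.z)))
def l7 : Tr := Tr.L (Pth.r (Pth.r (Pth.r (Pth.l Pth.z))))
def l8 : Tr := Tr.L (Pth.r (Pth.r (Pth.r (Pth.r Pth.z))))
end T2
theorem bx0_0 : BoxOK sI cl5 cl13 cl13 t1 t1 b0_0 :=
  box_mk (TrL.c (I.pos (nat_lit 0) (nat_lit 0)) T1.l1
  (TrL.c (I.pos (nat_lit 0) (nat_lit 0)) T1.l2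
  (TrL.c (I.pos (nat_lit 0) (nat_lit 0)) T1.l3
  (TrL.c (I.pos (nat_lit 0) (nat_lit 0)) T1.l4
  (TrL.c (I.pos (nat_lit 0) (nat_lit 0)) T1.l0
  (TrL.c (I.pos (nat_lit 0) (nat_lit 0)) T1.l5
  (TrL.c (I.pos (nat_lit 0) (nat_lit 0)) T1.l3
  (TrL.c (I.pos (nat_lit 0) (nat_lit 0)) T1.l4
  TrL.n)))))))) (by decide +kernel)
theorem bx0_1 : BoxOK sI cl5 cl13 cl13 t1 t1 b0_1 :=
  box_mk (TrL.c (I.pos (nat_lit 0) (nat_lit 0)) (xa (xb (xa T1.l1 T1.l6) (xa (xb T1.l6 T1.l6) (xb T1.l6 T1.l6))) (xb T1.l8 (xa (xb T1.l6 T1.l6) (xb T1.l8 T1.l8))))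
  (TrL.c (I.pos (nat_lit 0) (nat_lit 0)) T1.l2
  (TrL.c (I.pos (nat_lit 0) (nat_lit 0)) T1.l3
  (TrL.c (I.pos (nat_lit 0) (nat_lit 0)) T1.l7
  (TrL.c (I.pos (nat_lit 0) (nat_lit 0)) (xa (xb (xa T1.l0 T1.l0) (xa T1.l0 T1.l0)) (xb (xa (xb T1.l0 T1.l8) (xa T1.l8 T1.l8)) (xa T1.l8 (xb T1.l8 T1.l8))))
  (TrL.c (I.pos (nat_lit 0) (nat_lit 0)) T1.l5
  (TrL.c (I.pos (nat_lit 0) (nat_lit 0)) T1.l9
  (TrL.c (I.pos (nat_lit 0) (nat_lit 0)) T1.l4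
  TrL.n)))))))) (by decide +kernel)
theorem bx0_2 : BoxOK sI cl5 cl13 cl13 t1 t1 b0_2 :=
  box_mk (TrL.c (I.pos (nat_lit 0) (nat_lit 0)) (xa (xa (xb T1.l10 (xa T1.l10 T1.l10)) T1.l10) T1.l1)
  (TrL.c (I.pos (nat_lit 0) (nat_lit 0)) T1.l2
  (TrL.c (I.pos (nat_lit 0) (nat_lit 0)) T1.l3
  (TrL.c (I.pos (nat_lit 0) (nat_lit 0)) T1.l4
  (TrL.c (I.pos (nat_lit 0) (nat_lit 0)) (xa T1.l2 T1.l11)
  (TrL.c (I.pos (nat_lit 0) (nat_lit 0)) T1.l5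
  (TrL.c (I.pos (nat_lit 0) (nat_lit 0)) T1.l3
  (TrL.c (I.pos (nat_lit 0) (nat_lit 0)) T1.l4
  TrL.n)))))))) (by decide +kernel)
theorem bx0_3 : BoxOK sI cl5 cl13 cl13 t1 t1 b0_3 :=
  box_mk (TrL.c (I.pos (nat_lit 0) (nat_lit 0)) (xa (xb (xa T1.l10 T1.l1) (xa T1.l1 T1.l1)) T1.l1)
  (TrL.c (I.pos (nat_lit 0) (nat_lit 0)) T1.l2
  (TrL.c (I.pos (nat_lit 0) (nat_lit 0)) T1.l3
  (TrL.c (I.pos (nat_lit 0) (nat_lit 0)) T1.l4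
  (TrL.c (I.pos (nat_lit 0) (nat_lit 0)) (xb T1.l11 T1.l11)
  (TrL.c (I.pos (nat_lit 0) (nat_lit 0)) T1.l5
  (TrL.c (I.pos (nat_lit 0) (nat_lit 0)) T1.l3
  (TrL.c (I.pos (nat_lit 0) (nat_lit 0)) T1.l4
  TrL.n)))))))) (by decide +kernel)
theorem bx0_4 : BoxOK sI cl5 cl13 cl13 t1 t1 b0_4 :=
  box_mk (TrL.c (I.pos (nat_lit 0) (nat_lit 0)) (xa (xb T1.l1 (xa T1.l1 T1.l1)) T1.l1)
  (TrL.c (I.pos (nat_lit 0) (nat_lit 0)) T1.l2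
  (TrL.c (I.pos (nat_lit 0) (nat_lit 0)) T1.l3
  (TrL.c (I.pos (nat_lit 0) (nat_lit 0)) T1.l4
  (TrL.c (I.pos (nat_lit 0) (nat_lit 0)) (xa T1.l0 T1.l0)
  (TrL.c (I.pos (nat_lit 0) (nat_lit 0)) T1.l5
  (TrL.c (I.pos (nat_lit 0) (nat_lit 0)) T1.l3
  (TrL.c (I.pos (nat_lit 0) (nat_lit 0)) T1.l4
  TrL.n)))))))) (by decide +kernel)
theorem bx0_5 : BoxOK sI cl5 cl13 cl13 t1 t1 b0_5 :=
  box_mk (TrL.c (I.pos (nat_lit 0) (nat_lit 0)) (xa (xb (xb (xd T1.l10 T1.l10) T1.l10) T1.l10) T1.l10)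
  (TrL.c (I.pos (nat_lit 0) (nat_lit 0)) T1.l2
  (TrL.c (I.pos (nat_lit 0) (nat_lit 0)) T1.l3
  (TrL.c (I.pos (nat_lit 0) (nat_lit 0)) T1.l4
  (TrL.c (I.pos (nat_lit 0) (nat_lit 0)) T1.l2
  (TrL.c (I.pos (nat_lit 0) (nat_lit 0)) T1.l5
  (TrL.c (I.pos (nat_lit 0) (nat_lit 0)) T1.l3
  (TrL.c (I.pos (nat_lit 0) (nat_lit 0)) T1.l4
  TrL.n)))))))) (by decide +kernel)
theorem bx0_6 : BoxOK sI cl5 cl13 cl13 t1 t1 b0_6 :=
  box_mk (TrL.c (I.pos (nat_lit 0) (nat_lit 0)) T1.l8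
  (TrL.c (I.pos (nat_lit 0) (nat_lit 0)) T1.l2
  (TrL.c (I.pos (nat_lit 0) (nat_lit 0)) T1.l3
  (TrL.c (I.pos (nat_lit 0) (nat_lit 0)) T1.l4
  (TrL.c (I.pos (nat_lit 0) (nat_lit 0)) (xa T1.l8 T1.l8)
  (TrL.c (I.pos (nat_lit 0) (nat_lit 0)) T1.l5
  (TrL.c (I.pos (nat_lit 0) (nat_lit 0)) T1.l3
  (TrL.c (I.pos (nat_lit 0) (nat_lit 0)) T1.l4
  TrL.n)))))))) (by decide +kernel)
theorem bx0_7 : BoxOK sI cl5 cl13 cl13 t1 t1 b0_7 :=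
  box_mk (TrL.c (I.pos (nat_lit 0) (nat_lit 0)) T1.l1
  (TrL.c (I.pos (nat_lit 0) (nat_lit 0)) T1.l2
  (TrL.c (I.pos (nat_lit 0) (nat_lit 0)) T1.l3
  (TrL.c (I.pos (nat_lit 0) (nat_lit 0)) T1.l4
  (TrL.c (I.pos (nat_lit 0) (nat_lit 0)) T1.l11
  (TrL.c (I.pos (nat_lit 0) (nat_lit 0)) T1.l5
  (TrL.c (I.pos (nat_lit 0) (nat_lit 0)) T1.l3
  (TrL.c (I.pos (nat_lit 0) (nat_lit 0)) T1.l4
  TrL.n)))))))) (by decide +kernel)
theorem bx0_8 : BoxOK sI cl5 cl13 cl13 t1 t1 b0_8 :=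
  box_mk (TrL.c (I.pos (nat_lit 0) (nat_lit 0)) T1.l1
  (TrL.c (I.pos (nat_lit 0) (nat_lit 0)) T1.l2
  (TrL.c (I.pos (nat_lit 0) (nat_lit 0)) T1.l3
  (TrL.c (I.pos (nat_lit 0) (nat_lit 0)) T1.l4
  (TrL.c (I.pos (nat_lit 0) (nat_lit 0)) T1.l0
  (TrL.c (I.pos (nat_lit 0) (nat_lit 0)) T1.l5
  (TrL.c (I.pos (nat_lit 0) (nat_lit 0)) T1.l3
  (TrL.c (I.pos (nat_lit 0) (nat_lit 0)) T1.l4
  TrL.n)))))))) (by decide +kernel)
theorem sv0 : StarV sI cl5 cl13 cl13 t1 t1 t0 :=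
  (bt_n (bt_n (bt_n (bt_b bx0_0) (bt_b bx0_1)) (bt_n (bt_b bx0_2) (bt_b bx0_3))) (bt_n (bt_n (bt_b bx0_4) (bt_b bx0_5)) (bt_n (bt_b bx0_6) (bt_n (bt_b bx0_7) (bt_b bx0_8)))))
def S0 : StarD := StarD.mk cl5 cl13 cl13 1 1 t0
theorem bx1_0 : BoxOK sI cl13 cl5 cl13 t0 t2 b1_0 :=
  box_mk (TrL.c (I.pos (nat_lit 0) (nat_lit 0)) T0.l1
  (TrL.c (I.pos (nat_lit 0) (nat_lit 0)) T2.l2
  (TrL.c (I.pos (nat_lit 0) (nat_lit 134217730)) (xR T0.l2 T0.l3)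
  (TrL.c (I.pos (nat_lit 0) (nat_lit 110514882)) (xR T2.l3 T2.l4)
  (TrL.c (I.pos (nat_lit 0) (nat_lit 0)) (xk (xb T2.l1 T2.l1) T2.l1)
  (TrL.c (I.pos (nat_lit 0) (nat_lit 0)) T0.l4
  (TrL.c (I.mix (nat_lit 8088324) (nat_lit 110514882)) T2.l5
  (TrL.c (I.mix (nat_lit 8088324) (nat_lit 89478486)) T0.l5
  TrL.n)))))))) (by decide +kernel)
theorem bx1_1 : BoxOK sI cl13 cl5 cl13 t0 t2 b1_1 :=
  box_mk (TrL.c (I.pos (nat_lit 0) (nat_lit 0)) (xa T0.l1 T0.l1)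
  (TrL.c (I.pos (nat_lit 0) (nat_lit 0)) T2.l2
  (TrL.c (I.pos (nat_lit 0) (nat_lit 134217730)) (xR T0.l2 T0.l3)
  (TrL.c (I.pos (nat_lit 0) (nat_lit 110514882)) (xR T2.l3 T2.l4)
  (TrL.c (I.pos (nat_lit 0) (nat_lit 0)) (xa (xk T2.l1 T2.l1) (xk (xb T2.l8 (xa T2.l8 T2.l8)) (xb T2.l8 (xa T2.l8 T2.l8))))
  (TrL.c (I.pos (nat_lit 0) (nat_lit 0)) T0.l4
  (TrL.c (I.mix (nat_lit 8088324) (nat_lit 110514882)) (xR T2.l5 T2.l5)
  (TrL.c (I.mix (nat_lit 8088324) (nat_lit 89478486)) T0.l5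
  TrL.n)))))))) (by decide +kernel)
theorem bx1_2 : BoxOK sI cl13 cl5 cl13 t0 t2 b1_2 :=
  box_mk (TrL.c (I.pos (nat_lit 0) (nat_lit 0)) (xa (xb (xa T0.l6 T0.l6) T0.l1) T0.l1)
  (TrL.c (I.pos (nat_lit 0) (nat_lit 0)) T2.l2
  (TrL.c (I.pos (nat_lit 0) (nat_lit 134217730)) (xR T0.l2 T0.l2)
  (TrL.c (I.pos (nat_lit 0) (nat_lit 110514882)) (xR T2.l3 T2.l3)
  (TrL.c (I.pos (nat_lit 0) (nat_lit 0)) (xa T2.l6 (xb (xk T2.l6 T2.l6) (xk T2.l6 T2.l6)))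
  (TrL.c (I.pos (nat_lit 0) (nat_lit 0)) T0.l4
  (TrL.c (I.mix (nat_lit 8088324) (nat_lit 110514882)) T2.l5
  (TrL.c (I.mix (nat_lit 8088324) (nat_lit 89478486)) T0.l5
  TrL.n)))))))) (by decide +kernel)
theorem bx1_3 : BoxOK sI cl13 cl5 cl13 t0 t2 b1_3 :=
  box_mk (TrL.c (I.pos (nat_lit 0) (nat_lit 0)) (xa (xb T0.l6 (xa T0.l6 T0.l6)) T0.l1)
  (TrL.c (I.pos (nat_lit 0) (nat_lit 0)) T2.l2
  (TrL.c (I.pos (nat_lit 0) (nat_lit 134217730)) (xa (xb T0.l2 (xk T0.l2 T0.l2)) T0.l2)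
  (TrL.c (I.pos (nat_lit 0) (nat_lit 110514882)) T2.l3
  (TrL.c (I.pos (nat_lit 0) (nat_lit 0)) T2.l7
  (TrL.c (I.pos (nat_lit 0) (nat_lit 0)) T0.l4
  (TrL.c (I.mix (nat_lit 8088324) (nat_lit 110514882)) (xR T2.l5 T2.l3)
  (TrL.c (I.mix (nat_lit 8088324) (nat_lit 89478486)) T0.l2
  TrL.n)))))))) (by decide +kernel)
theorem bx1_4 : BoxOK sI cl13 cl5 cl13 t0 t2 b1_4 :=
  box_mk (TrL.c (I.pos (nat_lit 0) (nat_lit 0)) T2.l2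
  (TrL.c (I.pos (nat_lit 0) (nat_lit 0)) T0.l2
  (TrL.c (I.mix (nat_lit 8088324) (nat_lit 110514882)) (xR T2.l5 T2.l3)
  (TrL.c (I.mix (nat_lit 8088324) (nat_lit 89478486)) T0.l2
  TrL.n)))) (by decide +kernel)
theorem bx1_5 : BoxOK sI cl13 cl5 cl13 t0 t2 b1_5 :=
  box_mk (TrL.c (I.pos (nat_lit 0) (nat_lit 0)) (xb T0.l6 T0.l1)
  (TrL.c (I.pos (nat_lit 0) (nat_lit 0)) T2.l2
  (TrL.c (I.pos (nat_lit 0) (nat_lit 134217730)) (xk T0.l2 T0.l2)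
  (TrL.c (I.pos (nat_lit 0) (nat_lit 110514882)) T2.l3
  (TrL.c (I.pos (nat_lit 0) (nat_lit 0)) T2.l6
  (TrL.c (I.pos (nat_lit 0) (nat_lit 0)) T0.l4
  (TrL.c (I.mix (nat_lit 8088324) (nat_lit 110514882)) T2.l5
  (TrL.c (I.mix (nat_lit 8088324) (nat_lit 89478486)) T0.l5
  TrL.n)))))))) (by decide +kernel)
theorem bx1_6 : BoxOK sI cl13 cl5 cl13 t0 t2 b1_6 :=
  box_mk (TrL.c (I.pos (nat_lit 0) (nat_lit 0)) T0.l1
  (TrL.c (I.pos (nat_lit 0) (nat_lit 0)) T2.l2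
  (TrL.c (I.pos (nat_lit 0) (nat_lit 134217730)) (xR T0.l2 T0.l3)
  (TrL.c (I.pos (nat_lit 0) (nat_lit 110514882)) (xR T2.l3 T2.l4)
  (TrL.c (I.pos (nat_lit 0) (nat_lit 0)) (xk T2.l1 T2.l1)
  (TrL.c (I.pos (nat_lit 0) (nat_lit 0)) T0.l4
  (TrL.c (I.mix (nat_lit 8088324) (nat_lit 110514882)) (xR T2.l5 T2.l5)
  (TrL.c (I.mix (nat_lit 8088324) (nat_lit 89478486)) T0.l5
  TrL.n)))))))) (by decide +kernel)
theorem bx1_7 : BoxOK sI cl13 cl5 cl13 t0 t2 b1_7 :=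
  box_mk (TrL.c (I.pos (nat_lit 0) (nat_lit 0)) T2.l2
  (TrL.c (I.pos (nat_lit 0) (nat_lit 0)) T0.l2
  (TrL.c (I.mix (nat_lit 8088324) (nat_lit 110514882)) (xR T2.l3 T2.l3)
  (TrL.c (I.mix (nat_lit 8088324) (nat_lit 89478486)) T0.l2
  TrL.n)))) (by decide +kernel)
theorem bx1_8 : BoxOK sI cl13 cl5 cl13 t0 t2 b1_8 :=
  box_mk (TrL.c (I.pos (nat_lit 0) (nat_lit 0)) (xa T0.l1 T0.l1)
  (TrL.c (I.pos (nat_lit 0) (nat_lit 0)) T2.l2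
  (TrL.c (I.pos (nat_lit 0) (nat_lit 134217730)) (xR T0.l2 T0.l3)
  (TrL.c (I.pos (nat_lit 0) (nat_lit 110514882)) (xR T2.l3 T2.l4)
  (TrL.c (I.pos (nat_lit 0) (nat_lit 0)) (xk (xa T2.l1 T2.l1) T2.l1)
  (TrL.c (I.pos (nat_lit 0) (nat_lit 0)) T0.l4
  (TrL.c (I.mix (nat_lit 8088324) (nat_lit 110514882)) (xR T2.l5 T2.l5)
  (TrL.c (I.mix (nat_lit 8088324) (nat_lit 89478486)) T0.l5
  TrL.n)))))))) (by decide +kernel)
theorem bx1_9 : BoxOK sI cl13 cl5 cl13 t0 t2 b1_9 :=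
  box_mk (TrL.c (I.pos (nat_lit 0) (nat_lit 0)) T0.l6
  (TrL.c (I.pos (nat_lit 0) (nat_lit 0)) T2.l2
  (TrL.c (I.pos (nat_lit 0) (nat_lit 134217730)) T0.l2
  (TrL.c (I.pos (nat_lit 0) (nat_lit 110514882)) T2.l3
  (TrL.c (I.pos (nat_lit 0) (nat_lit 0)) T2.l7
  (TrL.c (I.pos (nat_lit 0) (nat_lit 0)) T0.l4
  (TrL.c (I.mix (nat_lit 8088324) (nat_lit 110514882)) T2.l5
  (TrL.c (I.mix (nat_lit 8088324) (nat_lit 89478486)) T0.l5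
  TrL.n)))))))) (by decide +kernel)
theorem bx1_10 : BoxOK sI cl13 cl5 cl13 t0 t2 b1_10 :=
  box_mk (TrL.c (I.pos (nat_lit 0) (nat_lit 0)) (xa T0.l1 T0.l1)
  (TrL.c (I.pos (nat_lit 0) (nat_lit 0)) T2.l2
  (TrL.c (I.pos (nat_lit 0) (nat_lit 134217730)) (xR T0.l2 T0.l3)
  (TrL.c (I.pos (nat_lit 0) (nat_lit 110514882)) (xR T2.l3 T2.l4)
  (TrL.c (I.pos (nat_lit 0) (nat_lit 0)) (xa (xb (xk T2.l1 T2.l1) (xk T2.l8 T2.l8)) (xk (xb T2.l8 (xa T2.l8 T2.l8)) (xb T2.l8 (xa T2.l8 T2.l8))))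
  (TrL.c (I.pos (nat_lit 0) (nat_lit 0)) T0.l4
  (TrL.c (I.mix (nat_lit 8088324) (nat_lit 110514882)) (xR T2.l5 (xk T2.l5 T2.l5))
  (TrL.c (I.mix (nat_lit 8088324) (nat_lit 89478486)) T0.l5
  TrL.n)))))))) (by decide +kernel)
theorem bx1_11 : BoxOK sI cl13 cl5 cl13 t0 t2 b1_11 :=
  box_mk (TrL.c (I.pos (nat_lit 0) (nat_lit 0)) T0.l1
  (TrL.c (I.pos (nat_lit 0) (nat_lit 0)) T2.l2
  (TrL.c (I.pos (nat_lit 0) (nat_lit 134217730)) (xR T0.l2 T0.l2)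
  (TrL.c (I.pos (nat_lit 0) (nat_lit 110514882)) (xR T2.l3 T2.l4)
  (TrL.c (I.pos (nat_lit 0) (nat_lit 0)) T2.l6
  (TrL.c (I.pos (nat_lit 0) (nat_lit 0)) T0.l4
  (TrL.c (I.mix (nat_lit 8088324) (nat_lit 110514882)) T2.l5
  (TrL.c (I.mix (nat_lit 8088324) (nat_lit 89478486)) T0.l5
  TrL.n)))))))) (by decide +kernel)
theorem bx1_12 : BoxOK sI cl13 cl5 cl13 t0 t2 b1_12 :=
  box_mk (TrL.c (I.pos (nat_lit 0) (nat_lit 0)) T0.l1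
  (TrL.c (I.pos (nat_lit 0) (nat_lit 0)) T2.l2
  (TrL.c (I.pos (nat_lit 0) (nat_lit 134217730)) (xR T0.l2 T0.l3)
  (TrL.c (I.pos (nat_lit 0) (nat_lit 110514882)) (xR T2.l3 T2.l4)
  (TrL.c (I.pos (nat_lit 0) (nat_lit 0)) T2.l8
  (TrL.c (I.pos (nat_lit 0) (nat_lit 0)) T0.l4
  (TrL.c (I.mix (nat_lit 8088324) (nat_lit 110514882)) (xR T2.l5 T2.l5)
  (TrL.c (I.mix (nat_lit 8088324) (nat_lit 89478486)) T0.l5
  TrL.n)))))))) (by decide +kernel)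
theorem bx1_13 : BoxOK sI cl13 cl5 cl13 t0 t2 b1_13 :=
  box_mk (TrL.c (I.pos (nat_lit 0) (nat_lit 0)) T0.l1
  (TrL.c (I.pos (nat_lit 0) (nat_lit 0)) T2.l2
  (TrL.c (I.pos (nat_lit 0) (nat_lit 134217730)) (xR T0.l2 T0.l3)
  (TrL.c (I.pos (nat_lit 0) (nat_lit 110514882)) (xR T2.l3 T2.l4)
  (TrL.c (I.pos (nat_lit 0) (nat_lit 0)) T2.l8
  (TrL.c (I.pos (nat_lit 0) (nat_lit 0)) T0.l4
  (TrL.c (I.mix (nat_lit 8088324) (nat_lit 110514882)) T2.l5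
  (TrL.c (I.mix (nat_lit 8088324) (nat_lit 89478486)) T0.l5
  TrL.n)))))))) (by decide +kernel)
theorem sv1 : StarV sI cl13 cl5 cl13 t0 t2 t1 :=
  (bt_n (bt_n (bt_n (bt_b bx1_0) (bt_n (bt_b bx1_1) (bt_b bx1_2))) (bt_n (bt_n (bt_b bx1_3) (bt_b bx1_4)) (bt_n (bt_b bx1_5) (bt_b bx1_6)))) (bt_n (bt_n (bt_b bx1_7) (bt_n (bt_b bx1_8) (bt_b bx1_9))) (bt_n (bt_n (bt_b bx1_10) (bt_b bx1_11)) (bt_n (bt_b bx1_12) (bt_b bx1_13)))))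
def S1 : StarD := StarD.mk cl13 cl5 cl13 0 2 t1
theorem bx2_0 : BoxOK sI cl13 cl13 cl5 t2 t0 b2_0 :=
  box_mk (TrL.c (I.pos (nat_lit 0) (nat_lit 0)) T2.l8
  (TrL.c (I.pos (nat_lit 0) (nat_lit 0)) T0.l4
  (TrL.c (I.pos (nat_lit 0) (nat_lit 134217730)) (xR T2.l5 T2.l5)
  (TrL.c (I.pos (nat_lit 0) (nat_lit 110514882)) (xR T0.l5 T0.l5)
  (TrL.c (I.pos (nat_lit 0) (nat_lit 0)) T0.l1
  (TrL.c (I.pos (nat_lit 0) (nat_lit 0)) T2.l2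
  (TrL.c (I.mix (nat_lit 8088324) (nat_lit 110514882)) T0.l2
  (TrL.c (I.mix (nat_lit 8088324) (nat_lit 89478486)) T2.l3
  TrL.n)))))))) (by decide +kernel)
theorem bx2_1 : BoxOK sI cl13 cl13 cl5 t2 t0 b2_1 :=
  box_mk (TrL.c (I.pos (nat_lit 0) (nat_lit 0)) (xa (xa T2.l8 T2.l8) (xa T2.l8 T2.l8))
  (TrL.c (I.pos (nat_lit 0) (nat_lit 0)) T0.l4
  (TrL.c (I.pos (nat_lit 0) (nat_lit 134217730)) (xR T2.l5 T2.l5)
  (TrL.c (I.pos (nat_lit 0) (nat_lit 110514882)) (xR T0.l2 T0.l5)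
  (TrL.c (I.pos (nat_lit 0) (nat_lit 0)) (xa (xk T0.l1 T0.l1) (xk (xa T0.l1 (xb T0.l1 T0.l1)) (xa T0.l1 (xb T0.l1 T0.l1))))
  (TrL.c (I.pos (nat_lit 0) (nat_lit 0)) T2.l2
  (TrL.c (I.mix (nat_lit 8088324) (nat_lit 110514882)) (xR T0.l2 T0.l3)
  (TrL.c (I.mix (nat_lit 8088324) (nat_lit 89478486)) (xR T2.l3 T2.l4)
  TrL.n)))))))) (by decide +kernel)
theorem bx2_2 : BoxOK sI cl13 cl13 cl5 t2 t0 b2_2 :=
  box_mk (TrL.c (I.pos (nat_lit 0) (nat_lit 0)) (xa T2.l1 T2.l1)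
  (TrL.c (I.pos (nat_lit 0) (nat_lit 0)) T0.l4
  (TrL.c (I.pos (nat_lit 0) (nat_lit 134217730)) (xR T2.l5 T2.l5)
  (TrL.c (I.pos (nat_lit 0) (nat_lit 110514882)) (xR T0.l5 T0.l5)
  (TrL.c (I.pos (nat_lit 0) (nat_lit 0)) (xa T0.l8 (xk T0.l8 T0.l8))
  (TrL.c (I.pos (nat_lit 0) (nat_lit 0)) T2.l2
  (TrL.c (I.mix (nat_lit 8088324) (nat_lit 110514882)) (xR T0.l2 (xk T0.l2 T0.l2))
  (TrL.c (I.mix (nat_lit 8088324) (nat_lit 89478486)) (xR T2.l3 T2.l3)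
  TrL.n)))))))) (by decide +kernel)
theorem bx2_3 : BoxOK sI cl13 cl13 cl5 t2 t0 b2_3 :=
  box_mk (TrL.c (I.pos (nat_lit 0) (nat_lit 0)) (xa T2.l1 (xa T2.l1 T2.l8))
  (TrL.c (I.pos (nat_lit 0) (nat_lit 0)) T0.l4
  (TrL.c (I.pos (nat_lit 0) (nat_lit 134217730)) (xa T2.l5 (xR T2.l5 T2.l5))
  (TrL.c (I.pos (nat_lit 0) (nat_lit 110514882)) (xR T0.l5 T0.l5)
  (TrL.c (I.pos (nat_lit 0) (nat_lit 0)) T0.l4
  (TrL.c (I.pos (nat_lit 0) (nat_lit 0)) T2.l7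
  (TrL.c (I.mix (nat_lit 8088324) (nat_lit 110514882)) T0.l2
  (TrL.c (I.mix (nat_lit 8088324) (nat_lit 89478486)) T2.l3
  TrL.n)))))))) (by decide +kernel)
theorem bx2_4 : BoxOK sI cl13 cl13 cl5 t2 t0 b2_4 :=
  box_mk (TrL.c (I.pos (nat_lit 0) (nat_lit 0)) (xa T2.l1 T2.l1)
  (TrL.c (I.pos (nat_lit 0) (nat_lit 0)) T0.l4
  (TrL.c (I.pos (nat_lit 0) (nat_lit 134217730)) (xR T2.l5 T2.l5)
  (TrL.c (I.pos (nat_lit 0) (nat_lit 110514882)) (xR T0.l5 T0.l5)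
  (TrL.c (I.pos (nat_lit 0) (nat_lit 0)) T0.l4
  (TrL.c (I.pos (nat_lit 0) (nat_lit 0)) T2.l7
  (TrL.c (I.mix (nat_lit 8088324) (nat_lit 110514882)) T0.l5
  (TrL.c (I.mix (nat_lit 8088324) (nat_lit 89478486)) T2.l3
  TrL.n)))))))) (by decide +kernel)
theorem bx2_5 : BoxOK sI cl13 cl13 cl5 t2 t0 b2_5 :=
  box_mk (TrL.c (I.pos (nat_lit 0) (nat_lit 0)) (xa (xa (xb T2.l1 (xa T2.l1 T2.l1)) (xa T2.l1 T2.l8)) (xa T2.l8 T2.l8))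
  (TrL.c (I.pos (nat_lit 0) (nat_lit 0)) (xa T0.l4 T0.l4)
  (TrL.c (I.pos (nat_lit 0) (nat_lit 134217730)) (xR T2.l5 T2.l5)
  (TrL.c (I.pos (nat_lit 0) (nat_lit 110514882)) (xR T0.l5 T0.l5)
  (TrL.c (I.pos (nat_lit 0) (nat_lit 0)) (xa T0.l4 (xk T0.l4 T0.l4))
  (TrL.c (I.pos (nat_lit 0) (nat_lit 0)) T2.l7
  (TrL.c (I.mix (nat_lit 8088324) (nat_lit 110514882)) (xR T0.l2 T0.l2)
  (TrL.c (I.mix (nat_lit 8088324) (nat_lit 89478486)) (xR T2.l3 T2.l3)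
  TrL.n)))))))) (by decide +kernel)
theorem bx2_6 : BoxOK sI cl13 cl13 cl5 t2 t0 b2_6 :=
  box_mk (TrL.c (I.pos (nat_lit 0) (nat_lit 0)) T2.l8
  (TrL.c (I.pos (nat_lit 0) (nat_lit 0)) T0.l4
  (TrL.c (I.pos (nat_lit 0) (nat_lit 134217730)) (xR T2.l5 T2.l5)
  (TrL.c (I.pos (nat_lit 0) (nat_lit 110514882)) (xR T0.l5 T0.l5)
  (TrL.c (I.pos (nat_lit 0) (nat_lit 0)) (xk T0.l1 T0.l1)
  (TrL.c (I.pos (nat_lit 0) (nat_lit 0)) T2.l2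
  (TrL.c (I.mix (nat_lit 8088324) (nat_lit 110514882)) (xR T0.l2 T0.l3)
  (TrL.c (I.mix (nat_lit 8088324) (nat_lit 89478486)) (xR T2.l3 T2.l4)
  TrL.n)))))))) (by decide +kernel)
theorem bx2_7 : BoxOK sI cl13 cl13 cl5 t2 t0 b2_7 :=
  box_mk (TrL.c (I.pos (nat_lit 0) (nat_lit 0)) (xa T2.l8 T2.l8)
  (TrL.c (I.pos (nat_lit 0) (nat_lit 0)) T0.l4
  (TrL.c (I.pos (nat_lit 0) (nat_lit 134217730)) (xR T2.l5 T2.l5)
  (TrL.c (I.pos (nat_lit 0) (nat_lit 110514882)) (xR T0.l5 T0.l5)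
  (TrL.c (I.pos (nat_lit 0) (nat_lit 0)) (xa T0.l8 T0.l1)
  (TrL.c (I.pos (nat_lit 0) (nat_lit 0)) T2.l2
  (TrL.c (I.mix (nat_lit 8088324) (nat_lit 110514882)) (xR T0.l2 T0.l2)
  (TrL.c (I.mix (nat_lit 8088324) (nat_lit 89478486)) T2.l3
  TrL.n)))))))) (by decide +kernel)
theorem bx2_8 : BoxOK sI cl13 cl13 cl5 t2 t0 b2_8 :=
  box_mk (TrL.c (I.pos (nat_lit 0) (nat_lit 0)) (xa (xa (xb T2.l8 T2.l8) (xb T2.l8 T2.l8)) (xa T2.l8 T2.l8))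
  (TrL.c (I.pos (nat_lit 0) (nat_lit 0)) T0.l4
  (TrL.c (I.pos (nat_lit 0) (nat_lit 134217730)) (xR T2.l5 (xa (xk T2.l5 T2.l5) (xk (xa T2.l5 T2.l5) T2.l5)))
  (TrL.c (I.pos (nat_lit 0) (nat_lit 110514882)) (xR T0.l5 (xR T0.l5 T0.l5))
  (TrL.c (I.pos (nat_lit 0) (nat_lit 0)) (xa (xk T0.l1 T0.l1) (xk (xa T0.l1 (xb T0.l1 T0.l1)) (xa T0.l1 (xb T0.l1 T0.l1))))
  (TrL.c (I.pos (nat_lit 0) (nat_lit 0)) T2.l2
  (TrL.c (I.mix (nat_lit 8088324) (nat_lit 110514882)) (xR T0.l2 (xk T0.l3 T0.l3))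
  (TrL.c (I.mix (nat_lit 8088324) (nat_lit 89478486)) (xR T2.l3 T2.l4)
  TrL.n)))))))) (by decide +kernel)
theorem sv2 : StarV sI cl13 cl13 cl5 t2 t0 t2 :=
  (bt_n (bt_n (bt_n (bt_b bx2_0) (bt_b bx2_1)) (bt_n (bt_b bx2_2) (bt_b bx2_3))) (bt_n (bt_n (bt_b bx2_4) (bt_b bx2_5)) (bt_n (bt_b bx2_6) (bt_n (bt_b bx2_7) (bt_b bx2_8)))))
def S2 : StarD := StarD.mk cl13 cl13 cl5 2 0 t2
def G : List StarD := [S0, S1, S2]
theorem so0 : StarOK sI G S0 :=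
  star_mk (by decide) (by decide) rfl rfl rfl rfl rfl rfl (rfl : _ = t1) (rfl : _ = t1)
  (st_mk (Pth.l (Pth.l (Pth.l Pth.z))) (nat_lit 97094037) (nat_lit 115894147) (by decide +kernel))
  (st_mk (Pth.l (Pth.l (Pth.r Pth.z))) (nat_lit 133089786) (nat_lit 152278439) (by decide +kernel))
  (st_mk (Pth.l (Pth.l (Pth.r Pth.z))) (nat_lit 175068120) (nat_lit 194796849) (by decide +kernel)) sv0
theorem so1 : StarOK sI G S1 :=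
  star_mk (by decide) (by decide) rfl rfl rfl rfl rfl rfl (rfl : _ = t0) (rfl : _ = t2)
  (st_mk (Pth.l (Pth.l (Pth.l Pth.z))) (nat_lit 238062708) (nat_lit 239622996) (by decide +kernel))
  (st_mk (Pth.l (Pth.l (Pth.l Pth.z))) (nat_lit 272959317) (nat_lit 274841329) (by decide +kernel))
  (st_mk (Pth.l (Pth.l (Pth.r (Pth.l Pth.z)))) (nat_lit 313224636) (nat_lit 315533279) (by decide +kernel)) sv1
theorem so2 : StarOK sI G S2 :=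
  star_mk (by decide) (by decide) rfl rfl rfl rfl rfl rfl (rfl : _ = t2) (rfl : _ = t0)
  (st_mk (Pth.l (Pth.l (Pth.l Pth.z))) (nat_lit 95831458) (nat_lit 114193243) (by decide +kernel))
  (st_mk (Pth.l (Pth.l (Pth.r Pth.z))) (nat_lit 130728068) (nat_lit 149326623) (by decide +kernel))
  (st_mk (Pth.l (Pth.l (Pth.r Pth.z))) (nat_lit 170993386) (nat_lit 189944847) (by decide +kernel)) sv2
theorem ok : GroupOK (nat_lit 91226112) (nat_lit 150339584) G := grp_mk (allS_c so0 (allS_c so1 (allS_c so2 allS_n)))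
theorem cov : GCov G cl5 cl13 cl13 := cov_mk
  ⟨0, by decide, rfl, rfl, rfl⟩ ⟨0, by decide, rfl, rfl, rfl⟩ ⟨1, by decide, rfl, rfl, rfl⟩ ⟨2, by decide, rfl, rfl, rfl⟩ ⟨1, by decide, rfl, rfl, rfl⟩ ⟨2, by decide, rfl, rfl, rfl⟩
end Q266_1

namespace Q266_2
def sI : I := I.pos (nat_lit 150274048) (nat_lit 209387520)
def b0_0 : Bx := Bx.mk (St.mk (I.pos (nat_lit 156139520) (nat_lit 240680960)) (I.mix (nat_lit 2949120) (nat_lit 53067776)) (I.mix (nat_lit 4063232) (nat_lit 75137024)) (I.pos (nat_lit 89751552) (nat_lit 231620608)) (I.mix (nat_lit 97075200) (nat_lit 59899904)) (I.mix (nat_lit 64634880) (nat_lit 57278464)) (I.mix (nat_lit 95780864) (nat_lit 78331904)))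
  false (nat_lit 44876895)
def b0_1 : Bx := Bx.mk (St.mk (I.mix (nat_lit 13107200) (nat_lit 144654336)) (I.mix (nat_lit 2523136) (nat_lit 22953984)) (I.mix (nat_lit 12926976) (nat_lit 13041664)) (I.mix (nat_lit 5734400) (nat_lit 91439104)) (I.mix (nat_lit 22315008) (nat_lit 23363584)) (I.mix (nat_lit 18694144) (nat_lit 14565376)) (I.mix (nat_lit 15417344) (nat_lit 10485760)))
  false (nat_lit 0)
def b0_2 : Bx := Bx.mk (St.mk (I.pos (nat_lit 114999296) (nat_lit 156516352)) (I.mix (nat_lit 46694400) (nat_lit 3932160)) (I.neg (nat_lit 1589248) (nat_lit 59097088)) (I.pos (nat_lit 52412416) (nat_lit 106921984)) (I.mix (nat_lit 92340224) (nat_lit 27295744)) (I.mix (nat_lit 33472512) (nat_lit 80527360)) (I.mix (nat_lit 24657920) (nat_lit 76316672)))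
  false (nat_lit 0)
def b0_3 : Bx := Bx.mk (St.mk (I.mix (nat_lit 15417344) (nat_lit 109002752)) (I.mix (nat_lit 22822912) (nat_lit 1835008)) (I.mix (nat_lit 22134784) (nat_lit 1802240)) (I.mix (nat_lit 3899392) (nat_lit 59064320)) (I.mix (nat_lit 34013184) (nat_lit 11206656)) (I.mix (nat_lit 12648448) (nat_lit 24870912)) (I.mix (nat_lit 7208960) (nat_lit 16416768)))
  false (nat_lit 0)
def b0_4 : Bx := Bx.mk (St.mk (I.pos (nat_lit 205406208) (nat_lit 269713408)) (I.mix (nat_lit 5963776) (nat_lit 29409280)) (I.mix (nat_lit 41238528) (nat_lit 29638656)) (I.pos (nat_lit 182534144) (nat_lit 297222144)) (I.mix (nat_lit 71942144) (nat_lit 40435712)) (I.mix (nat_lit 49987584) (nat_lit 41107456)) (I.mix (nat_lit 75251712) (nat_lit 71237632)))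
  false (nat_lit 0)
def b0_5 : Bx := Bx.mk (St.mk (I.pos (nat_lit 119881728) (nat_lit 136626176)) (I.mix (nat_lit 1605632) (nat_lit 6537216)) (I.neg (nat_lit 802816) (nat_lit 12075008)) (I.pos (nat_lit 53837824) (nat_lit 87638016)) (I.mix (nat_lit 7061504) (nat_lit 8765440)) (I.mix (nat_lit 5783552) (nat_lit 3981312)) (I.mix (nat_lit 5373952) (nat_lit 3670016)))
  false (nat_lit 0)
def b0_6 : Bx := Bx.mk (St.mk (I.mix (nat_lit 13107200) (nat_lit 44498944)) (I.mix (nat_lit 720896) (nat_lit 2867200)) (I.mix (nat_lit 3571712) (nat_lit 753664)) (I.mix (nat_lit 1966080) (nat_lit 24821760)) (I.mix (nat_lit 2064384) (nat_lit 3309568)) (I.mix (nat_lit 1949696) (nat_lit 1736704)) (I.mix (nat_lit 770048) (nat_lit 802816)))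
  false (nat_lit 0)
def b0_7 : Bx := Bx.mk (St.mk (I.pos (nat_lit 104595456) (nat_lit 184369152)) (I.mix (nat_lit 52281344) (nat_lit 5062656)) (I.neg (nat_lit 7716864) (nat_lit 61095936)) (I.pos (nat_lit 62472192) (nat_lit 142721024)) (I.mix (nat_lit 89964544) (nat_lit 44351488)) (I.mix (nat_lit 47218688) (nat_lit 67665920)) (I.mix (nat_lit 40402944) (nat_lit 66994176)))
  false (nat_lit 19563419)
def b0_8 : Bx := Bx.mk (St.mk (I.mix (nat_lit 16138240) (nat_lit 119914496)) (I.mix (nat_lit 26148864) (nat_lit 7569408)) (I.mix (nat_lit 24231936) (nat_lit 1851392)) (I.mix (nat_lit 4390912) (nat_lit 67846144)) (I.mix (nat_lit 38830080) (nat_lit 26771456)) (I.mix (nat_lit 22495232) (nat_lit 29458432)) (I.mix (nat_lit 12697600) (nat_lit 21037056)))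
  false (nat_lit 0)
def b0_9 : Bx := Bx.mk (St.mk (I.pos (nat_lit 176652288) (nat_lit 222560256)) (I.mix (nat_lit 15515648) (nat_lit 51281920)) (I.mix (nat_lit 14417920) (nat_lit 72155136)) (I.pos (nat_lit 123961344) (nat_lit 204783616)) (I.mix (nat_lit 118685696) (nat_lit 50511872)) (I.mix (nat_lit 113557504) (nat_lit 63635456)) (I.mix (nat_lit 128974848) (nat_lit 69566464)))
  false (nat_lit 0)
def b0_10 : Bx := Bx.mk (St.mk (I.mix (nat_lit 18530304) (nat_lit 143310848)) (I.mix (nat_lit 14680064) (nat_lit 33095680)) (I.mix (nat_lit 17547264) (nat_lit 21053440)) (I.mix (nat_lit 5505024) (nat_lit 87375872)) (I.mix (nat_lit 50937856) (nat_lit 33374208)) (I.mix (nat_lit 42844160) (nat_lit 30523392)) (I.mix (nat_lit 29130752) (nat_lit 19824640)))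
  false (nat_lit 0)
def b0_11 : Bx := Bx.mk (St.mk (I.pos (nat_lit 155172864) (nat_lit 216121344)) (I.mix (nat_lit 36044800) (nat_lit 15564800)) (I.mix (nat_lit 48988160) (nat_lit 18219008)) (I.pos (nat_lit 96927744) (nat_lit 188432384)) (I.mix (nat_lit 70844416) (nat_lit 51544064)) (I.mix (nat_lit 67141632) (nat_lit 59031552)) (I.mix (nat_lit 73531392) (nat_lit 62767104)))
  false (nat_lit 17755713)
def b0_12 : Bx := Bx.mk (St.mk (I.pos (nat_lit 177963008) (nat_lit 217939968)) (I.mix (nat_lit 14958592) (nat_lit 29802496)) (I.mix (nat_lit 16547840) (nat_lit 41418752)) (I.pos (nat_lit 128794624) (nat_lit 189562880)) (I.mix (nat_lit 102465536) (nat_lit 58228736)) (I.mix (nat_lit 112115712) (nat_lit 57950208)) (I.mix (nat_lit 128909312) (nat_lit 63930368)))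
  false (nat_lit 2996073)
def b0_13 : Bx := Bx.mk (St.mk (I.pos (nat_lit 194347008) (nat_lit 242106368)) (I.pos (nat_lit 8126464) (nat_lit 52363264)) (I.pos (nat_lit 1163264) (nat_lit 72073216)) (I.pos (nat_lit 177635328) (nat_lit 231817216)) (I.mix (nat_lit 86736896) (nat_lit 62275584)) (I.mix (nat_lit 71008256) (nat_lit 52232192)) (I.mix (nat_lit 112967680) (nat_lit 62521344)))
  false (nat_lit 35356945)
def t0 : BTr := (BTr.n (BTr.n (BTr.n (BTr.b b0_0) (BTr.n (BTr.b b0_1) (BTr.b b0_2))) (BTr.n (BTr.n (BTr.b b0_3) (BTr.b b0_4)) (BTr.n (BTr.b b0_5) (BTr.b b0_6)))) (BTr.n (BTr.n (BTr.b b0_7) (BTr.n (BTr.b b0_8) (BTr.b b0_9))) (BTr.n (BTr.n (BTr.b b0_10) (BTr.b b0_11)) (BTr.n (BTr.b b0_12) (BTr.b b0_13)))))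
namespace T0
def l0 : Tr := Tr.L (Pth.l (Pth.l (Pth.l Pth.z)))
def l1 : Tr := Tr.L (Pth.l (Pth.l (Pth.r (Pth.l Pth.z))))
def l2 : Tr := Tr.L (Pth.l (Pth.l (Pth.r (Pth.r Pth.z))))
def l3 : Tr := Tr.L (Pth.l (Pth.r (Pth.l (Pth.l Pth.z))))
def l4 : Tr := Tr.L (Pth.l (Pth.r (Pth.l (Pth.r Pth.z))))
def l5 : Tr := Tr.L (Pth.l (Pth.r (Pth.r (Pth.l Pth.z))))
def l6 : Tr := Tr.L (Pth.l (Pth.r (Pth.r (Pth.r Pth.z))))
def l7 : Tr := Tr.L (Pth.r (Pth.l (Pth.l Pth.z)))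
def l8 : Tr := Tr.L (Pth.r (Pth.l (Pth.r (Pth.l Pth.z))))
def l9 : Tr := Tr.L (Pth.r (Pth.l (Pth.r (Pth.r Pth.z))))
def l10 : Tr := Tr.L (Pth.r (Pth.r (Pth.l (Pth.l Pth.z))))
def l11 : Tr := Tr.L (Pth.r (Pth.r (Pth.l (Pth.r Pth.z))))
def l12 : Tr := Tr.L (Pth.r (Pth.r (Pth.r (Pth.l Pth.z))))
def l13 : Tr := Tr.L (Pth.r (Pth.r (Pth.r (Pth.r Pth.z))))
end T0
def b1_0 : Bx := Bx.mk (St.mk (I.pos (nat_lit 151158784) (nat_lit 229015552)) (I.mix (nat_lit 3981312) (nat_lit 70189056)) (I.mix (nat_lit 5521408) (nat_lit 97746944)) (I.pos (nat_lit 231931904) (nat_lit 337985536)) (I.mix (nat_lit 119554048) (nat_lit 70893568)) (I.mix (nat_lit 73203712) (nat_lit 61538304)) (I.mix (nat_lit 90800128) (nat_lit 86212608)))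
  false (nat_lit 130971297)
def b1_1 : Bx := Bx.mk (St.mk (I.pos (nat_lit 68370432) (nat_lit 152813568)) (I.neg (nat_lit 6094848) (nat_lit 71221248)) (I.mix (nat_lit 62472192) (nat_lit 1654784)) (I.pos (nat_lit 160972800) (nat_lit 228458496)) (I.mix (nat_lit 86065152) (nat_lit 50675712)) (I.mix (nat_lit 42876928) (nat_lit 64405504)) (I.mix (nat_lit 36421632) (nat_lit 54280192)))
  false (nat_lit 0)
def b1_2 : Bx := Bx.mk (St.mk (I.pos (nat_lit 20840448) (nat_lit 73220096)) (I.mix (nat_lit 8224768) (nat_lit 44220416)) (I.mix (nat_lit 23674880) (nat_lit 6619136)) (I.pos (nat_lit 142802944) (nat_lit 162349056)) (I.mix (nat_lit 32243712) (nat_lit 44335104)) (I.mix (nat_lit 38420480) (nat_lit 27049984)) (I.mix (nat_lit 20463616) (nat_lit 11649024)))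
  false (nat_lit 0)
def b1_3 : Bx := Bx.mk (St.mk (I.mix (nat_lit 37552128) (nat_lit 6881280)) (I.mix (nat_lit 40714240) (nat_lit 7061504)) (I.mix (nat_lit 4636672) (nat_lit 5128192)) (I.pos (nat_lit 140066816) (nat_lit 151470080)) (I.mix (nat_lit 27000832) (nat_lit 38633472)) (I.mix (nat_lit 21741568) (nat_lit 35487744)) (I.mix (nat_lit 4800512) (nat_lit 5193728)))
  true (nat_lit 0)
def b1_4 : Bx := Bx.mk (St.mk (I.pos (nat_lit 150077440) (nat_lit 199098368)) (I.pos (nat_lit 1769472) (nat_lit 62734336)) (I.pos (nat_lit 14221312) (nat_lit 91111424)) (I.pos (nat_lit 231342080) (nat_lit 294748160)) (I.mix (nat_lit 123961344) (nat_lit 39239680)) (I.mix (nat_lit 107380736) (nat_lit 56705024)) (I.mix (nat_lit 102907904) (nat_lit 59916288)))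
  false (nat_lit 115763234)
def b1_5 : Bx := Bx.mk (St.mk (I.pos (nat_lit 50823168) (nat_lit 102875136)) (I.mix (nat_lit 62963712) (nat_lit 9682944)) (I.neg (nat_lit 8552448) (nat_lit 54771712)) (I.pos (nat_lit 148045824) (nat_lit 184238080)) (I.mix (nat_lit 81526784) (nat_lit 31588352)) (I.mix (nat_lit 32194560) (nat_lit 68730880)) (I.mix (nat_lit 24903680) (nat_lit 41172992)))
  false (nat_lit 0)
def b1_6 : Bx := Bx.mk (St.mk (I.mix (nat_lit 6881280) (nat_lit 37552128)) (I.mix (nat_lit 7061504) (nat_lit 40714240)) (I.mix (nat_lit 4636672) (nat_lit 5128192)) (I.pos (nat_lit 140066816) (nat_lit 151470080)) (I.mix (nat_lit 38633472) (nat_lit 27000832)) (I.mix (nat_lit 35487744) (nat_lit 21741568)) (I.mix (nat_lit 4800512) (nat_lit 5193728)))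
  false (nat_lit 0)
def b1_7 : Bx := Bx.mk (St.mk (I.neg (nat_lit 20840448) (nat_lit 73220096)) (I.mix (nat_lit 44220416) (nat_lit 8224768)) (I.mix (nat_lit 23674880) (nat_lit 6619136)) (I.pos (nat_lit 142786560) (nat_lit 162349056)) (I.mix (nat_lit 44335104) (nat_lit 32243712)) (I.mix (nat_lit 27049984) (nat_lit 38420480)) (I.mix (nat_lit 20463616) (nat_lit 11649024)))
  true (nat_lit 0)
def b1_8 : Bx := Bx.mk (St.mk (I.pos (nat_lit 186368000) (nat_lit 286834688)) (I.mix (nat_lit 19365888) (nat_lit 55869440)) (I.mix (nat_lit 82968576) (nat_lit 67665920)) (I.pos (nat_lit 283885568) (nat_lit 443334656)) (I.mix (nat_lit 76906496) (nat_lit 64356352)) (I.mix (nat_lit 61734912) (nat_lit 43761664)) (I.mix (nat_lit 101793792) (nat_lit 68911104)))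
  false (nat_lit 133254890)
def b1_9 : Bx := Bx.mk (St.mk (I.pos (nat_lit 128139264) (nat_lit 193429504)) (I.mix (nat_lit 37847040) (nat_lit 27017216)) (I.mix (nat_lit 30621696) (nat_lit 46137344)) (I.pos (nat_lit 203603968) (nat_lit 277823488)) (I.mix (nat_lit 69124096) (nat_lit 57442304)) (I.mix (nat_lit 62259200) (nat_lit 56672256)) (I.mix (nat_lit 60358656) (nat_lit 54378496)))
  false (nat_lit 21982254)
def b1_10 : Bx := Bx.mk (St.mk (I.pos (nat_lit 168558592) (nat_lit 223182848)) (I.pos (nat_lit 18153472) (nat_lit 69271552)) (I.pos (nat_lit 14991360) (nat_lit 94470144)) (I.pos (nat_lit 272973824) (nat_lit 326729728)) (I.mix (nat_lit 109789184) (nat_lit 83460096)) (I.mix (nat_lit 91750400) (nat_lit 63864832)) (I.mix (nat_lit 128630784) (nat_lit 81526784)))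
  false (nat_lit 98822588)
def b1_11 : Bx := Bx.mk (St.mk (I.pos (nat_lit 150847488) (nat_lit 195231744)) (I.mix (nat_lit 2064384) (nat_lit 47628288)) (I.pos (nat_lit 7241728) (nat_lit 73695232)) (I.pos (nat_lit 234373120) (nat_lit 284442624)) (I.mix (nat_lit 120881152) (nat_lit 61915136)) (I.mix (nat_lit 121487360) (nat_lit 59277312)) (I.mix (nat_lit 119275520) (nat_lit 58474496)))
  false (nat_lit 51753864)
def t1 : BTr := (BTr.n (BTr.n (BTr.n (BTr.b b1_0) (BTr.n (BTr.b b1_1) (BTr.b b1_2))) (BTr.n (BTr.b b1_3) (BTr.n (BTr.b b1_4) (BTr.b b1_5)))) (BTr.n (BTr.n (BTr.b b1_6) (BTr.n (BTr.b b1_7) (BTr.b b1_8))) (BTr.n (BTr.b b1_9) (BTr.n (BTr.b b1_10) (BTr.b b1_11)))))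
namespace T1
def l0 : Tr := Tr.L (Pth.l (Pth.l (Pth.l Pth.z)))
def l1 : Tr := Tr.L (Pth.l (Pth.l (Pth.r (Pth.l Pth.z))))
def l2 : Tr := Tr.L (Pth.l (Pth.l (Pth.r (Pth.r Pth.z))))
def l3 : Tr := Tr.L (Pth.l (Pth.r (Pth.l Pth.z)))
def l4 : Tr := Tr.L (Pth.l (Pth.r (Pth.r (Pth.l Pth.z))))
def l5 : Tr := Tr.L (Pth.l (Pth.r (Pth.r (Pth.r Pth.z))))
def l6 : Tr := Tr.L (Pth.r (Pth.l (Pth.l Pth.z)))
def l7 : Tr := Tr.L (Pth.r (Pth.l (Pth.r (Pth.l Pth.z))))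
def l8 : Tr := Tr.L (Pth.r (Pth.l (Pth.r (Pth.r Pth.z))))
def l9 : Tr := Tr.L (Pth.r (Pth.r (Pth.l Pth.z)))
def l10 : Tr := Tr.L (Pth.r (Pth.r (Pth.r (Pth.l Pth.z))))
def l11 : Tr := Tr.L (Pth.r (Pth.r (Pth.r (Pth.r Pth.z))))
end T1
def b2_0 : Bx := Bx.mk (St.mk (I.pos (nat_lit 156270592) (nat_lit 237928448)) (I.mix (nat_lit 2523136) (nat_lit 44531712)) (I.mix (nat_lit 5537792) (nat_lit 101367808)) (I.pos (nat_lit 89309184) (nat_lit 211435520)) (I.mix (nat_lit 103038976) (nat_lit 64356352)) (I.mix (nat_lit 81444864) (nat_lit 70303744)) (I.mix (nat_lit 120274944) (nat_lit 92143616)))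
  false (nat_lit 34960551)
def b2_1 : Bx := Bx.mk (St.mk (I.pos (nat_lit 117047296) (nat_lit 183386112)) (I.neg (nat_lit 4407296) (nat_lit 54673408)) (I.mix (nat_lit 43810816) (nat_lit 7176192)) (I.pos (nat_lit 71139328) (nat_lit 141426688)) (I.mix (nat_lit 73695232) (nat_lit 39878656)) (I.mix (nat_lit 38633472) (nat_lit 49119232)) (I.mix (nat_lit 32063488) (nat_lit 43728896)))
  false (nat_lit 59288936)
def b2_2 : Bx := Bx.mk (St.mk (I.mix (nat_lit 15974400) (nat_lit 121290752)) (I.mix (nat_lit 25477120) (nat_lit 2424832)) (I.mix (nat_lit 12271616) (nat_lit 9158656)) (I.mix (nat_lit 4423680) (nat_lit 68403200)) (I.mix (nat_lit 25378816) (nat_lit 18661376)) (I.mix (nat_lit 12959744) (nat_lit 16302080)) (I.mix (nat_lit 7847936) (nat_lit 10059776)))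
  false (nat_lit 0)
def b2_3 : Bx := Bx.mk (St.mk (I.pos (nat_lit 172146688) (nat_lit 214122496)) (I.mix (nat_lit 12320768) (nat_lit 43859968)) (I.pos (nat_lit 13926400) (nat_lit 93257728)) (I.pos (nat_lit 112230400) (nat_lit 182550528)) (I.mix (nat_lit 119996416) (nat_lit 46743552)) (I.mix (nat_lit 110755840) (nat_lit 56229888)) (I.mix (nat_lit 139313152) (nat_lit 49922048)))
  false (nat_lit 42250744)
def b2_4 : Bx := Bx.mk (St.mk (I.mix (nat_lit 17956864) (nat_lit 137805824)) (I.mix (nat_lit 10207232) (nat_lit 32718848)) (I.mix (nat_lit 2457600) (nat_lit 36372480)) (I.mix (nat_lit 5210112) (nat_lit 82231296)) (I.mix (nat_lit 61177856) (nat_lit 26411008)) (I.mix (nat_lit 49971200) (nat_lit 27246592)) (I.mix (nat_lit 38469632) (nat_lit 15761408)))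
  false (nat_lit 0)
def b2_5 : Bx := Bx.mk (St.mk (I.pos (nat_lit 162971648) (nat_lit 213008384)) (I.mix (nat_lit 31358976) (nat_lit 9715712)) (I.mix (nat_lit 10797056) (nat_lit 45580288)) (I.pos (nat_lit 102236160) (nat_lit 177143808)) (I.mix (nat_lit 55623680) (nat_lit 59047936)) (I.mix (nat_lit 54525952) (nat_lit 54673408)) (I.mix (nat_lit 57032704) (nat_lit 56524800)))
  false (nat_lit 58284808)
def b2_6 : Bx := Bx.mk (St.mk (I.pos (nat_lit 161447936) (nat_lit 184532992)) (I.neg (nat_lit 12337152) (nat_lit 35422208)) (I.mix (nat_lit 19988480) (nat_lit 6471680)) (I.pos (nat_lit 102973440) (nat_lit 144031744)) (I.mix (nat_lit 24739840) (nat_lit 19120128)) (I.mix (nat_lit 13189120) (nat_lit 15859712)) (I.mix (nat_lit 13107200) (nat_lit 17055744)))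
  false (nat_lit 0)
def b2_7 : Bx := Bx.mk (St.mk (I.mix (nat_lit 17842176) (nat_lit 120913920)) (I.mix (nat_lit 12009472) (nat_lit 1556480)) (I.mix (nat_lit 2228224) (nat_lit 7782400)) (I.mix (nat_lit 4194304) (nat_lit 68173824)) (I.mix (nat_lit 5472256) (nat_lit 8536064)) (I.mix (nat_lit 3522560) (nat_lit 4669440)) (I.mix (nat_lit 2260992) (nat_lit 3407872)))
  false (nat_lit 0)
def b2_8 : Bx := Bx.mk (St.mk (I.pos (nat_lit 28770304) (nat_lit 143065088)) (I.mix (nat_lit 6291456) (nat_lit 23986176)) (I.mix (nat_lit 655360) (nat_lit 31555584)) (I.pos (nat_lit 7880704) (nat_lit 91062272)) (I.mix (nat_lit 44105728) (nat_lit 31277056)) (I.mix (nat_lit 36405248) (nat_lit 27820032)) (I.mix (nat_lit 31391744) (nat_lit 20217856)))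
  false (nat_lit 0)
def b2_9 : Bx := Bx.mk (St.mk (I.pos (nat_lit 117047296) (nat_lit 167002112)) (I.mix (nat_lit 54771712) (nat_lit 8994816)) (I.mix (nat_lit 42745856) (nat_lit 18874368)) (I.pos (nat_lit 52527104) (nat_lit 118915072)) (I.mix (nat_lit 85360640) (nat_lit 35536896)) (I.mix (nat_lit 37617664) (nat_lit 73220096)) (I.mix (nat_lit 31293440) (nat_lit 58851328)))
  false (nat_lit 55380625)
def b2_10 : Bx := Bx.mk (St.mk (I.pos (nat_lit 192282624) (nat_lit 283328512)) (I.mix (nat_lit 16875520) (nat_lit 35373056)) (I.mix (nat_lit 4816896) (nat_lit 90636288)) (I.pos (nat_lit 158482432) (nat_lit 312901632)) (I.mix (nat_lit 76251136) (nat_lit 63307776)) (I.mix (nat_lit 61014016) (nat_lit 41549824)) (I.mix (nat_lit 99287040) (nat_lit 69976064)))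
  false (nat_lit 80094715)
def b2_11 : Bx := Bx.mk (St.mk (I.mix (nat_lit 15319040) (nat_lit 114081792)) (I.mix (nat_lit 24231936) (nat_lit 4014080)) (I.mix (nat_lit 11075584) (nat_lit 9863168)) (I.mix (nat_lit 3833856) (nat_lit 62013440)) (I.mix (nat_lit 31113216) (nat_lit 24608768)) (I.mix (nat_lit 19611648) (nat_lit 27148288)) (I.mix (nat_lit 10764288) (nat_lit 15302656)))
  false (nat_lit 0)
def b2_12 : Bx := Bx.mk (St.mk (I.pos (nat_lit 184287232) (nat_lit 234520576)) (I.pos (nat_lit 9666560) (nat_lit 42975232)) (I.pos (nat_lit 37928960) (nat_lit 99303424)) (I.pos (nat_lit 150126592) (nat_lit 204046336)) (I.mix (nat_lit 90193920) (nat_lit 70746112)) (I.mix (nat_lit 85934080) (nat_lit 60997632)) (I.mix (nat_lit 129302528) (nat_lit 78823424)))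
  false (nat_lit 45757071)
def b2_13 : Bx := Bx.mk (St.mk (I.pos (nat_lit 173948928) (nat_lit 212434944)) (I.mix (nat_lit 18530304) (nat_lit 22855680)) (I.pos (nat_lit 7667712) (nat_lit 64684032)) (I.pos (nat_lit 112476160) (nat_lit 174161920)) (I.mix (nat_lit 95797248) (nat_lit 56279040)) (I.mix (nat_lit 103710720) (nat_lit 53149696)) (I.mix (nat_lit 121962496) (nat_lit 51019776)))
  false (nat_lit 61315344)
def t2 : BTr := (BTr.n (BTr.n (BTr.n (BTr.b b2_0) (BTr.n (BTr.b b2_1) (BTr.b b2_2))) (BTr.n (BTr.n (BTr.b b2_3) (BTr.b b2_4)) (BTr.n (BTr.b b2_5) (BTr.b b2_6)))) (BTr.n (BTr.n (BTr.b b2_7) (BTr.n (BTr.b b2_8) (BTr.b b2_9))) (BTr.n (BTr.n (BTr.b b2_10) (BTr.b b2_11)) (BTr.n (BTr.b b2_12) (BTr.b b2_13)))))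
namespace T2
def l0 : Tr := Tr.L (Pth.l (Pth.l (Pth.l Pth.z)))
def l1 : Tr := Tr.L (Pth.l (Pth.l (Pth.r (Pth.l Pth.z))))
def l2 : Tr := Tr.L (Pth.l (Pth.l (Pth.r (Pth.r Pth.z))))
def l3 : Tr := Tr.L (Pth.l (Pth.r (Pth.l (Pth.l Pth.z))))
def l4 : Tr := Tr.L (Pth.l (Pth.r (Pth.l (Pth.r Pth.z))))
def l5 : Tr := Tr.L (Pth.l (Pth.r (Pth.r (Pth.l Pth.z))))
def l6 : Tr := Tr.L (Pth.l (Pth.r (Pth.r (Pth.r Pth.z))))
def l7 : Tr := Tr.L (Pth.r (Pth.l (Pth.l Pth.z)))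
def l8 : Tr := Tr.L (Pth.r (Pth.l (Pth.r (Pth.l Pth.z))))
def l9 : Tr := Tr.L (Pth.r (Pth.l (Pth.r (Pth.r Pth.z))))
def l10 : Tr := Tr.L (Pth.r (Pth.r (Pth.l (Pth.l Pth.z))))
def l11 : Tr := Tr.L (Pth.r (Pth.r (Pth.l (Pth.r Pth.z))))
def l12 : Tr := Tr.L (Pth.r (Pth.r (Pth.r (Pth.l Pth.z))))
def l13 : Tr := Tr.L (Pth.r (Pth.r (Pth.r (Pth.r Pth.z))))
end T2
theorem bx0_0 : BoxOK sI cl5 cl13 cl13 t1 t1 b0_0 :=
  box_mk (TrL.c (I.pos (nat_lit 0) (nat_lit 0)) (xa (xb (xa T1.l0 T1.l0) (xa T1.l0 T1.l0)) (xb T1.l0 (xa T1.l0 T1.l0)))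
  (TrL.c (I.pos (nat_lit 0) (nat_lit 0)) T1.l1
  (TrL.c (I.pos (nat_lit 0) (nat_lit 0)) T1.l2
  (TrL.c (I.pos (nat_lit 0) (nat_lit 0)) T1.l3
  (TrL.c (I.pos (nat_lit 0) (nat_lit 0)) (xa T1.l4 (xb T1.l4 T1.l4))
  (TrL.c (I.pos (nat_lit 0) (nat_lit 0)) T1.l5
  (TrL.c (I.pos (nat_lit 0) (nat_lit 0)) T1.l6
  (TrL.c (I.pos (nat_lit 0) (nat_lit 0)) T1.l7
  TrL.n)))))))) (by decide +kernel)
theorem bx0_1 : BoxOK sI cl5 cl13 cl13 t1 t1 b0_1 :=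
  box_mk (TrL.c (I.pos (nat_lit 0) (nat_lit 0)) (xa T1.l8 (xa T1.l8 T1.l8))
  (TrL.c (I.pos (nat_lit 0) (nat_lit 0)) T1.l1
  (TrL.c (I.pos (nat_lit 0) (nat_lit 0)) T1.l2
  (TrL.c (I.pos (nat_lit 0) (nat_lit 0)) T1.l3
  (TrL.c (I.pos (nat_lit 0) (nat_lit 0)) (xa T1.l9 T1.l9)
  (TrL.c (I.pos (nat_lit 0) (nat_lit 0)) T1.l5
  (TrL.c (I.pos (nat_lit 0) (nat_lit 0)) T1.l6
  (TrL.c (I.pos (nat_lit 0) (nat_lit 0)) T1.l7
  TrL.n)))))))) (by decide +kernel)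
theorem bx0_2 : BoxOK sI cl5 cl13 cl13 t1 t1 b0_2 :=
  box_mk (TrL.c (I.pos (nat_lit 0) (nat_lit 0)) (xb T1.l8 T1.l8)
  (TrL.c (I.pos (nat_lit 0) (nat_lit 0)) T1.l1
  (TrL.c (I.pos (nat_lit 0) (nat_lit 0)) T1.l2
  (TrL.c (I.pos (nat_lit 0) (nat_lit 0)) T1.l3
  (TrL.c (I.pos (nat_lit 0) (nat_lit 0)) T1.l9
  (TrL.c (I.pos (nat_lit 0) (nat_lit 0)) T1.l5
  (TrL.c (I.pos (nat_lit 0) (nat_lit 0)) T1.l6
  (TrL.c (I.pos (nat_lit 0) (nat_lit 0)) T1.l7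
  TrL.n)))))))) (by decide +kernel)
theorem bx0_3 : BoxOK sI cl5 cl13 cl13 t1 t1 b0_3 :=
  box_mk (TrL.c (I.pos (nat_lit 0) (nat_lit 0)) (xa T1.l8 T1.l8)
  (TrL.c (I.pos (nat_lit 0) (nat_lit 0)) T1.l1
  (TrL.c (I.pos (nat_lit 0) (nat_lit 0)) T1.l2
  (TrL.c (I.pos (nat_lit 0) (nat_lit 0)) T1.l3
  (TrL.c (I.pos (nat_lit 0) (nat_lit 0)) T1.l9
  (TrL.c (I.pos (nat_lit 0) (nat_lit 0)) T1.l5
  (TrL.c (I.pos (nat_lit 0) (nat_lit 0)) T1.l6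
  (TrL.c (I.pos (nat_lit 0) (nat_lit 0)) T1.l7
  TrL.n)))))))) (by decide +kernel)
theorem bx0_4 : BoxOK sI cl5 cl13 cl13 t1 t1 b0_4 :=
  box_mk (TrL.c (I.pos (nat_lit 0) (nat_lit 0)) (xa T1.l0 T1.l0)
  (TrL.c (I.pos (nat_lit 0) (nat_lit 0)) T1.l1
  (TrL.c (I.pos (nat_lit 0) (nat_lit 0)) T1.l2
  (TrL.c (I.pos (nat_lit 0) (nat_lit 0)) T1.l3
  (TrL.c (I.pos (nat_lit 0) (nat_lit 0)) (xa T1.l4 (xb T1.l4 T1.l4))
  (TrL.c (I.pos (nat_lit 0) (nat_lit 0)) T1.l5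
  (TrL.c (I.pos (nat_lit 0) (nat_lit 0)) T1.l6
  (TrL.c (I.pos (nat_lit 0) (nat_lit 0)) T1.l7
  TrL.n)))))))) (by decide +kernel)
theorem bx0_5 : BoxOK sI cl5 cl13 cl13 t1 t1 b0_5 :=
  box_mk (TrL.c (I.pos (nat_lit 0) (nat_lit 0)) T1.l8
  (TrL.c (I.pos (nat_lit 0) (nat_lit 0)) T1.l1
  (TrL.c (I.pos (nat_lit 0) (nat_lit 0)) T1.l2
  (TrL.c (I.pos (nat_lit 0) (nat_lit 0)) T1.l3
  (TrL.c (I.pos (nat_lit 0) (nat_lit 0)) T1.l9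
  (TrL.c (I.pos (nat_lit 0) (nat_lit 0)) T1.l5
  (TrL.c (I.pos (nat_lit 0) (nat_lit 0)) T1.l6
  (TrL.c (I.pos (nat_lit 0) (nat_lit 0)) T1.l7
  TrL.n)))))))) (by decide +kernel)
theorem bx0_6 : BoxOK sI cl5 cl13 cl13 t1 t1 b0_6 :=
  box_mk (TrL.c (I.pos (nat_lit 0) (nat_lit 0)) T1.l8
  (TrL.c (I.pos (nat_lit 0) (nat_lit 0)) T1.l1
  (TrL.c (I.pos (nat_lit 0) (nat_lit 0)) T1.l2
  (TrL.c (I.pos (nat_lit 0) (nat_lit 0)) T1.l3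
  (TrL.c (I.pos (nat_lit 0) (nat_lit 0)) T1.l9
  (TrL.c (I.pos (nat_lit 0) (nat_lit 0)) T1.l5
  (TrL.c (I.pos (nat_lit 0) (nat_lit 0)) T1.l6
  (TrL.c (I.pos (nat_lit 0) (nat_lit 0)) T1.l7
  TrL.n)))))))) (by decide +kernel)
theorem bx0_7 : BoxOK sI cl5 cl13 cl13 t1 t1 b0_7 :=
  box_mk (TrL.c (I.pos (nat_lit 0) (nat_lit 0)) (xa (xb T1.l8 T1.l8) (xb T1.l0 T1.l8))
  (TrL.c (I.pos (nat_lit 0) (nat_lit 0)) T1.l1
  (TrL.c (I.pos (nat_lit 0) (nat_lit 0)) T1.l2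
  (TrL.c (I.pos (nat_lit 0) (nat_lit 0)) T1.l3
  (TrL.c (I.pos (nat_lit 0) (nat_lit 0)) (xa T1.l9 T1.l9)
  (TrL.c (I.pos (nat_lit 0) (nat_lit 0)) T1.l5
  (TrL.c (I.pos (nat_lit 0) (nat_lit 0)) T1.l6
  (TrL.c (I.pos (nat_lit 0) (nat_lit 0)) T1.l7
  TrL.n)))))))) (by decide +kernel)
theorem bx0_8 : BoxOK sI cl5 cl13 cl13 t1 t1 b0_8 :=
  box_mk (TrL.c (I.pos (nat_lit 0) (nat_lit 0)) (xa (xa (xb (xa T1.l8 T1.l8) T1.l8) T1.l8) T1.l8)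
  (TrL.c (I.pos (nat_lit 0) (nat_lit 0)) T1.l1
  (TrL.c (I.pos (nat_lit 0) (nat_lit 0)) T1.l2
  (TrL.c (I.pos (nat_lit 0) (nat_lit 0)) T1.l3
  (TrL.c (I.pos (nat_lit 0) (nat_lit 0)) (xa T1.l9 T1.l9)
  (TrL.c (I.pos (nat_lit 0) (nat_lit 0)) T1.l5
  (TrL.c (I.pos (nat_lit 0) (nat_lit 0)) T1.l6
  (TrL.c (I.pos (nat_lit 0) (nat_lit 0)) T1.l7
  TrL.n)))))))) (by decide +kernel)
theorem bx0_9 : BoxOK sI cl5 cl13 cl13 t1 t1 b0_9 :=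
  box_mk (TrL.c (I.pos (nat_lit 0) (nat_lit 0)) (xb (xa T1.l10 T1.l10) (xa T1.l10 T1.l10))
  (TrL.c (I.pos (nat_lit 0) (nat_lit 0)) T1.l1
  (TrL.c (I.pos (nat_lit 0) (nat_lit 0)) T1.l2
  (TrL.c (I.pos (nat_lit 0) (nat_lit 0)) T1.l3
  (TrL.c (I.pos (nat_lit 0) (nat_lit 0)) (xb T1.l11 T1.l11)
  (TrL.c (I.pos (nat_lit 0) (nat_lit 0)) T1.l5
  (TrL.c (I.pos (nat_lit 0) (nat_lit 0)) T1.l6
  (TrL.c (I.pos (nat_lit 0) (nat_lit 0)) T1.l7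
  TrL.n)))))))) (by decide +kernel)
theorem bx0_10 : BoxOK sI cl5 cl13 cl13 t1 t1 b0_10 :=
  box_mk (TrL.c (I.pos (nat_lit 0) (nat_lit 0)) (xa (xa (xb (xa (xb T1.l8 T1.l8) T1.l8) (xa (xb T1.l8 T1.l8) T1.l8)) (xb T1.l8 T1.l8)) (xa T1.l8 (xb T1.l8 T1.l8)))
  (TrL.c (I.pos (nat_lit 0) (nat_lit 0)) (xa T1.l1 T1.l1)
  (TrL.c (I.pos (nat_lit 0) (nat_lit 0)) T1.l2
  (TrL.c (I.pos (nat_lit 0) (nat_lit 0)) T1.l3
  (TrL.c (I.pos (nat_lit 0) (nat_lit 0)) (xa T1.l9 T1.l9)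
  (TrL.c (I.pos (nat_lit 0) (nat_lit 0)) T1.l5
  (TrL.c (I.pos (nat_lit 0) (nat_lit 0)) T1.l6
  (TrL.c (I.pos (nat_lit 0) (nat_lit 0)) T1.l7
  TrL.n)))))))) (by decide +kernel)
theorem bx0_11 : BoxOK sI cl5 cl13 cl13 t1 t1 b0_11 :=
  box_mk (TrL.c (I.pos (nat_lit 0) (nat_lit 0)) (xa (xb T1.l0 T1.l0) T1.l10)
  (TrL.c (I.pos (nat_lit 0) (nat_lit 0)) T1.l1
  (TrL.c (I.pos (nat_lit 0) (nat_lit 0)) T1.l2
  (TrL.c (I.pos (nat_lit 0) (nat_lit 0)) T1.l3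
  (TrL.c (I.pos (nat_lit 0) (nat_lit 0)) (xa T1.l0 T1.l0)
  (TrL.c (I.pos (nat_lit 0) (nat_lit 0)) T1.l5
  (TrL.c (I.pos (nat_lit 0) (nat_lit 0)) T1.l6
  (TrL.c (I.pos (nat_lit 0) (nat_lit 0)) T1.l7
  TrL.n)))))))) (by decide +kernel)
theorem bx0_12 : BoxOK sI cl5 cl13 cl13 t1 t1 b0_12 :=
  box_mk (TrL.c (I.pos (nat_lit 0) (nat_lit 0)) (xb T1.l10 T1.l10)
  (TrL.c (I.pos (nat_lit 0) (nat_lit 0)) T1.l1
  (TrL.c (I.pos (nat_lit 0) (nat_lit 0)) T1.l2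
  (TrL.c (I.pos (nat_lit 0) (nat_lit 0)) T1.l3
  (TrL.c (I.pos (nat_lit 0) (nat_lit 0)) T1.l11
  (TrL.c (I.pos (nat_lit 0) (nat_lit 0)) T1.l5
  (TrL.c (I.pos (nat_lit 0) (nat_lit 0)) T1.l6
  (TrL.c (I.pos (nat_lit 0) (nat_lit 0)) T1.l7
  TrL.n)))))))) (by decide +kernel)
theorem bx0_13 : BoxOK sI cl5 cl13 cl13 t1 t1 b0_13 :=
  box_mk (TrL.c (I.pos (nat_lit 0) (nat_lit 0)) (xa (xb T1.l0 T1.l0) T1.l0)
  (TrL.c (I.pos (nat_lit 0) (nat_lit 0)) T1.l1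
  (TrL.c (I.pos (nat_lit 0) (nat_lit 0)) T1.l2
  (TrL.c (I.pos (nat_lit 0) (nat_lit 0)) T1.l3
  (TrL.c (I.pos (nat_lit 0) (nat_lit 0)) (xa T1.l4 T1.l4)
  (TrL.c (I.pos (nat_lit 0) (nat_lit 0)) T1.l5
  (TrL.c (I.pos (nat_lit 0) (nat_lit 0)) T1.l6
  (TrL.c (I.pos (nat_lit 0) (nat_lit 0)) T1.l7
  TrL.n)))))))) (by decide +kernel)
theorem sv0 : StarV sI cl5 cl13 cl13 t1 t1 t0 :=
  (bt_n (bt_n (bt_n (bt_b bx0_0) (bt_n (bt_b bx0_1) (bt_b bx0_2))) (bt_n (bt_n (bt_b bx0_3) (bt_b bx0_4)) (bt_n (bt_b bx0_5) (bt_b bx0_6)))) (bt_n (bt_n (bt_b bx0_7) (bt_n (bt_b bx0_8) (bt_b bx0_9))) (bt_n (bt_n (bt_b bx0_10) (bt_b bx0_11)) (bt_n (bt_b bx0_12) (bt_b bx0_13)))))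
def S0 : StarD := StarD.mk cl5 cl13 cl13 1 1 t0
theorem bx1_0 : BoxOK sI cl13 cl5 cl13 t0 t2 b1_0 :=
  box_mk (TrL.c (I.pos (nat_lit 0) (nat_lit 0)) (xa (xb T0.l0 T0.l0) (xb T0.l0 T0.l0))
  (TrL.c (I.pos (nat_lit 0) (nat_lit 0)) T2.l1
  (TrL.c (I.pos (nat_lit 0) (nat_lit 134217730)) (xR T0.l1 T0.l10)
  (TrL.c (I.pos (nat_lit 0) (nat_lit 110514882)) (xR T2.l2 T2.l11)
  (TrL.c (I.pos (nat_lit 0) (nat_lit 0)) (xa (xk T2.l3 T2.l3) (xb (xk T2.l3 T2.l3) (xk T2.l3 T2.l3)))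
  (TrL.c (I.pos (nat_lit 0) (nat_lit 0)) T0.l2
  (TrL.c (I.mix (nat_lit 8088324) (nat_lit 110514882)) (xR T2.l4 T2.l4)
  (TrL.c (I.mix (nat_lit 8088324) (nat_lit 89478486)) T0.l8
  TrL.n)))))))) (by decide +kernel)
theorem bx1_1 : BoxOK sI cl13 cl5 cl13 t0 t2 b1_1 :=
  box_mk (TrL.c (I.pos (nat_lit 0) (nat_lit 0)) (xa T0.l4 T0.l4)
  (TrL.c (I.pos (nat_lit 0) (nat_lit 0)) T2.l1
  (TrL.c (I.pos (nat_lit 0) (nat_lit 134217730)) (xR T0.l1 T0.l10)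
  (TrL.c (I.pos (nat_lit 0) (nat_lit 110514882)) (xR T2.l2 T2.l2)
  (TrL.c (I.pos (nat_lit 0) (nat_lit 0)) (xa T2.l5 T2.l5)
  (TrL.c (I.pos (nat_lit 0) (nat_lit 0)) T0.l2
  (TrL.c (I.mix (nat_lit 8088324) (nat_lit 110514882)) T2.l4
  (TrL.c (I.mix (nat_lit 8088324) (nat_lit 89478486)) T0.l8
  TrL.n)))))))) (by decide +kernel)
theorem bx1_2 : BoxOK sI cl13 cl5 cl13 t0 t2 b1_2 :=
  box_mk (TrL.c (I.pos (nat_lit 0) (nat_lit 0)) (xa T0.l4 T0.l4)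
  (TrL.c (I.pos (nat_lit 0) (nat_lit 0)) T2.l1
  (TrL.c (I.pos (nat_lit 0) (nat_lit 134217730)) T0.l1
  (TrL.c (I.pos (nat_lit 0) (nat_lit 110514882)) T2.l2
  (TrL.c (I.pos (nat_lit 0) (nat_lit 0)) T2.l5
  (TrL.c (I.pos (nat_lit 0) (nat_lit 0)) T0.l2
  (TrL.c (I.mix (nat_lit 8088324) (nat_lit 110514882)) T2.l4
  (TrL.c (I.mix (nat_lit 8088324) (nat_lit 89478486)) T0.l3
  TrL.n)))))))) (by decide +kernel)
theorem bx1_3 : BoxOK sI cl13 cl5 cl13 t0 t2 b1_3 :=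
  box_mk (TrL.c (I.pos (nat_lit 0) (nat_lit 0)) T2.l6
  (TrL.c (I.pos (nat_lit 0) (nat_lit 0)) T0.l1
  (TrL.c (I.mix (nat_lit 8088324) (nat_lit 110514882)) T2.l2
  (TrL.c (I.mix (nat_lit 8088324) (nat_lit 89478486)) T0.l1
  TrL.n)))) (by decide +kernel)
theorem bx1_4 : BoxOK sI cl13 cl5 cl13 t0 t2 b1_4 :=
  box_mk (TrL.c (I.pos (nat_lit 0) (nat_lit 0)) (xb T0.l13 T0.l13)
  (TrL.c (I.pos (nat_lit 0) (nat_lit 0)) T2.l1
  (TrL.c (I.pos (nat_lit 0) (nat_lit 134217730)) (xR T0.l1 T0.l10)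
  (TrL.c (I.pos (nat_lit 0) (nat_lit 110514882)) (xR T2.l2 T2.l11)
  (TrL.c (I.pos (nat_lit 0) (nat_lit 0)) (xk T2.l3 T2.l13)
  (TrL.c (I.pos (nat_lit 0) (nat_lit 0)) T0.l2
  (TrL.c (I.mix (nat_lit 8088324) (nat_lit 110514882)) (xR T2.l4 T2.l4)
  (TrL.c (I.mix (nat_lit 8088324) (nat_lit 89478486)) T0.l8
  TrL.n)))))))) (by decide +kernel)
theorem bx1_5 : BoxOK sI cl13 cl5 cl13 t0 t2 b1_5 :=
  box_mk (TrL.c (I.pos (nat_lit 0) (nat_lit 0)) (xb T0.l4 T0.l4)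
  (TrL.c (I.pos (nat_lit 0) (nat_lit 0)) T2.l1
  (TrL.c (I.pos (nat_lit 0) (nat_lit 134217730)) T0.l10
  (TrL.c (I.pos (nat_lit 0) (nat_lit 110514882)) T2.l2
  (TrL.c (I.pos (nat_lit 0) (nat_lit 0)) T2.l5
  (TrL.c (I.pos (nat_lit 0) (nat_lit 0)) T0.l2
  (TrL.c (I.mix (nat_lit 8088324) (nat_lit 110514882)) T2.l4
  (TrL.c (I.mix (nat_lit 8088324) (nat_lit 89478486)) T0.l3
  TrL.n)))))))) (by decide +kernel)
theorem bx1_6 : BoxOK sI cl13 cl5 cl13 t0 t2 b1_6 :=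
  box_mk (TrL.c (I.pos (nat_lit 0) (nat_lit 0)) (xb T0.l4 T0.l4)
  (TrL.c (I.pos (nat_lit 0) (nat_lit 0)) T2.l6
  (TrL.c (I.pos (nat_lit 0) (nat_lit 134217730)) T0.l1
  (TrL.c (I.pos (nat_lit 0) (nat_lit 110514882)) T2.l2
  (TrL.c (I.pos (nat_lit 0) (nat_lit 0)) T2.l5
  (TrL.c (I.pos (nat_lit 0) (nat_lit 0)) T0.l2
  (TrL.c (I.mix (nat_lit 8088324) (nat_lit 110514882)) T2.l4
  (TrL.c (I.mix (nat_lit 8088324) (nat_lit 89478486)) T0.l3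
  TrL.n)))))))) (by decide +kernel)
theorem bx1_7 : BoxOK sI cl13 cl5 cl13 t0 t2 b1_7 :=
  box_mk (TrL.c (I.pos (nat_lit 0) (nat_lit 0)) T2.l1
  (TrL.c (I.pos (nat_lit 0) (nat_lit 0)) T0.l1
  (TrL.c (I.mix (nat_lit 8088324) (nat_lit 110514882)) T2.l2
  (TrL.c (I.mix (nat_lit 8088324) (nat_lit 89478486)) T0.l1
  TrL.n)))) (by decide +kernel)
theorem bx1_8 : BoxOK sI cl13 cl5 cl13 t0 t2 b1_8 :=
  box_mk (TrL.c (I.pos (nat_lit 0) (nat_lit 0)) (xa (xb T0.l0 T0.l0) (xb T0.l0 T0.l0))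
  (TrL.c (I.pos (nat_lit 0) (nat_lit 0)) T2.l1
  (TrL.c (I.pos (nat_lit 0) (nat_lit 134217730)) (xR T0.l1 T0.l10)
  (TrL.c (I.pos (nat_lit 0) (nat_lit 110514882)) (xR T2.l2 T2.l2)
  (TrL.c (I.pos (nat_lit 0) (nat_lit 0)) (xa (xb (xk (xa T2.l3 T2.l3) T2.l3) (xk T2.l3 T2.l3)) (xb (xk (xa T2.l3 (xb T2.l3 T2.l3)) (xa T2.l3 (xb T2.l3 T2.l3))) (xk (xa T2.l3 (xb T2.l3 T2.l3)) (xa T2.l3 (xb T2.l3 T2.l3)))))
  (TrL.c (I.pos (nat_lit 0) (nat_lit 0)) T0.l2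
  (TrL.c (I.mix (nat_lit 8088324) (nat_lit 110514882)) (xR T2.l4 T2.l4)
  (TrL.c (I.mix (nat_lit 8088324) (nat_lit 89478486)) T0.l8
  TrL.n)))))))) (by decide +kernel)
theorem bx1_9 : BoxOK sI cl13 cl5 cl13 t0 t2 b1_9 :=
  box_mk (TrL.c (I.pos (nat_lit 0) (nat_lit 0)) (xb T0.l0 T0.l13)
  (TrL.c (I.pos (nat_lit 0) (nat_lit 0)) T2.l1
  (TrL.c (I.pos (nat_lit 0) (nat_lit 134217730)) (xR T0.l1 T0.l10)
  (TrL.c (I.pos (nat_lit 0) (nat_lit 110514882)) (xR T2.l2 T2.l2)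
  (TrL.c (I.pos (nat_lit 0) (nat_lit 0)) (xk T2.l13 T2.l13)
  (TrL.c (I.pos (nat_lit 0) (nat_lit 0)) T0.l2
  (TrL.c (I.mix (nat_lit 8088324) (nat_lit 110514882)) T2.l4
  (TrL.c (I.mix (nat_lit 8088324) (nat_lit 89478486)) T0.l8
  TrL.n)))))))) (by decide +kernel)
theorem bx1_10 : BoxOK sI cl13 cl5 cl13 t0 t2 b1_10 :=
  box_mk (TrL.c (I.pos (nat_lit 0) (nat_lit 0)) (xa T0.l0 T0.l0)
  (TrL.c (I.pos (nat_lit 0) (nat_lit 0)) T2.l1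
  (TrL.c (I.pos (nat_lit 0) (nat_lit 134217730)) (xR T0.l1 T0.l10)
  (TrL.c (I.pos (nat_lit 0) (nat_lit 110514882)) (xR T2.l2 T2.l11)
  (TrL.c (I.pos (nat_lit 0) (nat_lit 0)) (xk (xb T2.l3 (xa T2.l3 T2.l3)) (xb T2.l3 (xa T2.l3 (xs T2.l3 T2.l3))))
  (TrL.c (I.pos (nat_lit 0) (nat_lit 0)) T0.l2
  (TrL.c (I.mix (nat_lit 8088324) (nat_lit 110514882)) (xR T2.l4 T2.l4)
  (TrL.c (I.mix (nat_lit 8088324) (nat_lit 89478486)) T0.l8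
  TrL.n)))))))) (by decide +kernel)
theorem bx1_11 : BoxOK sI cl13 cl5 cl13 t0 t2 b1_11 :=
  box_mk (TrL.c (I.pos (nat_lit 0) (nat_lit 0)) T0.l13
  (TrL.c (I.pos (nat_lit 0) (nat_lit 0)) T2.l1
  (TrL.c (I.pos (nat_lit 0) (nat_lit 134217730)) (xR T0.l1 T0.l10)
  (TrL.c (I.pos (nat_lit 0) (nat_lit 110514882)) (xR T2.l2 T2.l11)
  (TrL.c (I.pos (nat_lit 0) (nat_lit 0)) (xb T2.l13 (xk T2.l3 T2.l3))
  (TrL.c (I.pos (nat_lit 0) (nat_lit 0)) T0.l2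
  (TrL.c (I.mix (nat_lit 8088324) (nat_lit 110514882)) (xR T2.l4 T2.l4)
  (TrL.c (I.mix (nat_lit 8088324) (nat_lit 89478486)) T0.l8
  TrL.n)))))))) (by decide +kernel)
theorem sv1 : StarV sI cl13 cl5 cl13 t0 t2 t1 :=
  (bt_n (bt_n (bt_n (bt_b bx1_0) (bt_n (bt_b bx1_1) (bt_b bx1_2))) (bt_n (bt_b bx1_3) (bt_n (bt_b bx1_4) (bt_b bx1_5)))) (bt_n (bt_n (bt_b bx1_6) (bt_n (bt_b bx1_7) (bt_b bx1_8))) (bt_n (bt_b bx1_9) (bt_n (bt_b bx1_10) (bt_b bx1_11)))))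
def S1 : StarD := StarD.mk cl13 cl5 cl13 0 2 t1
theorem bx2_0 : BoxOK sI cl13 cl13 cl5 t2 t0 b2_0 :=
  box_mk (TrL.c (I.pos (nat_lit 0) (nat_lit 0)) (xa (xa (xb T2.l0 T2.l0) (xb T2.l0 T2.l0)) (xa (xb (xb T2.l0 T2.l0) (xb T2.l0 T2.l0)) (xb (xb T2.l0 T2.l0) (xb T2.l0 T2.l0))))
  (TrL.c (I.pos (nat_lit 0) (nat_lit 0)) T0.l7
  (TrL.c (I.pos (nat_lit 0) (nat_lit 134217730)) (xR T2.l4 T2.l8)
  (TrL.c (I.pos (nat_lit 0) (nat_lit 110514882)) (xR T0.l8 T0.l8)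
  (TrL.c (I.pos (nat_lit 0) (nat_lit 0)) (xa (xk T0.l9 T0.l9) (xk (xb T0.l9 (xa T0.l9 (xb T0.l9 T0.l9))) (xb T0.l9 (xa T0.l9 (xb T0.l9 (xs T0.l9 (xk T0.l9 T0.l9)))))))
  (TrL.c (I.pos (nat_lit 0) (nat_lit 0)) T2.l9
  (TrL.c (I.mix (nat_lit 8088324) (nat_lit 110514882)) (xR T0.l10 T0.l10)
  (TrL.c (I.mix (nat_lit 8088324) (nat_lit 89478486)) T2.l11
  TrL.n)))))))) (by decide +kernel)
theorem bx2_1 : BoxOK sI cl13 cl13 cl5 t2 t0 b2_1 :=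
  box_mk (TrL.c (I.pos (nat_lit 0) (nat_lit 0)) (xa T2.l10 T2.l0)
  (TrL.c (I.pos (nat_lit 0) (nat_lit 0)) T0.l7
  (TrL.c (I.pos (nat_lit 0) (nat_lit 134217730)) (xR T2.l4 T2.l8)
  (TrL.c (I.pos (nat_lit 0) (nat_lit 110514882)) (xR T0.l8 T0.l8)
  (TrL.c (I.pos (nat_lit 0) (nat_lit 0)) (xa T0.l11 (xk T0.l11 T0.l11))
  (TrL.c (I.pos (nat_lit 0) (nat_lit 0)) T2.l9
  (TrL.c (I.mix (nat_lit 8088324) (nat_lit 110514882)) T0.l10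
  (TrL.c (I.mix (nat_lit 8088324) (nat_lit 89478486)) T2.l11
  TrL.n)))))))) (by decide +kernel)
theorem bx2_2 : BoxOK sI cl13 cl13 cl5 t2 t0 b2_2 :=
  box_mk (TrL.c (I.pos (nat_lit 0) (nat_lit 0)) (xa (xa T2.l10 T2.l10) T2.l10)
  (TrL.c (I.pos (nat_lit 0) (nat_lit 0)) T0.l7
  (TrL.c (I.pos (nat_lit 0) (nat_lit 134217730)) (xR T2.l4 T2.l8)
  (TrL.c (I.pos (nat_lit 0) (nat_lit 110514882)) T0.l8
  (TrL.c (I.pos (nat_lit 0) (nat_lit 0)) (xa T0.l11 T0.l11)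
  (TrL.c (I.pos (nat_lit 0) (nat_lit 0)) T2.l9
  (TrL.c (I.mix (nat_lit 8088324) (nat_lit 110514882)) T0.l10
  (TrL.c (I.mix (nat_lit 8088324) (nat_lit 89478486)) T2.l11
  TrL.n)))))))) (by decide +kernel)
theorem bx2_3 : BoxOK sI cl13 cl13 cl5 t2 t0 b2_3 :=
  box_mk (TrL.c (I.pos (nat_lit 0) (nat_lit 0)) (xb (xa T2.l12 T2.l12) (xa T2.l12 T2.l12))
  (TrL.c (I.pos (nat_lit 0) (nat_lit 0)) T0.l7
  (TrL.c (I.pos (nat_lit 0) (nat_lit 134217730)) (xR T2.l4 T2.l8)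
  (TrL.c (I.pos (nat_lit 0) (nat_lit 110514882)) (xR T0.l8 T0.l8)
  (TrL.c (I.pos (nat_lit 0) (nat_lit 0)) (xk T0.l12 (xb T0.l12 T0.l9))
  (TrL.c (I.pos (nat_lit 0) (nat_lit 0)) T2.l9
  (TrL.c (I.mix (nat_lit 8088324) (nat_lit 110514882)) (xR T0.l10 T0.l10)
  (TrL.c (I.mix (nat_lit 8088324) (nat_lit 89478486)) T2.l11
  TrL.n)))))))) (by decide +kernel)
theorem bx2_4 : BoxOK sI cl13 cl13 cl5 t2 t0 b2_4 :=
  box_mk (TrL.c (I.pos (nat_lit 0) (nat_lit 0)) (xa (xa (xb (xa T2.l10 T2.l10) (xa T2.l10 T2.l10)) (xb T2.l10 (xa T2.l10 T2.l10))) (xa (xb T2.l10 (xa T2.l10 T2.l10)) (xa T2.l10 T2.l10)))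
  (TrL.c (I.pos (nat_lit 0) (nat_lit 0)) (xa T0.l7 T0.l7)
  (TrL.c (I.pos (nat_lit 0) (nat_lit 134217730)) (xR T2.l4 T2.l8)
  (TrL.c (I.pos (nat_lit 0) (nat_lit 110514882)) (xR T0.l8 T0.l8)
  (TrL.c (I.pos (nat_lit 0) (nat_lit 0)) (xa T0.l11 T0.l11)
  (TrL.c (I.pos (nat_lit 0) (nat_lit 0)) T2.l9
  (TrL.c (I.mix (nat_lit 8088324) (nat_lit 110514882)) T0.l10
  (TrL.c (I.mix (nat_lit 8088324) (nat_lit 89478486)) T2.l11
  TrL.n)))))))) (by decide +kernel)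
theorem bx2_5 : BoxOK sI cl13 cl13 cl5 t2 t0 b2_5 :=
  box_mk (TrL.c (I.pos (nat_lit 0) (nat_lit 0)) T2.l0
  (TrL.c (I.pos (nat_lit 0) (nat_lit 0)) T0.l7
  (TrL.c (I.pos (nat_lit 0) (nat_lit 134217730)) (xR T2.l4 T2.l8)
  (TrL.c (I.pos (nat_lit 0) (nat_lit 110514882)) (xR T0.l8 T0.l8)
  (TrL.c (I.pos (nat_lit 0) (nat_lit 0)) (xk T0.l12 T0.l12)
  (TrL.c (I.pos (nat_lit 0) (nat_lit 0)) T2.l9
  (TrL.c (I.mix (nat_lit 8088324) (nat_lit 110514882)) (xR T0.l10 T0.l10)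
  (TrL.c (I.mix (nat_lit 8088324) (nat_lit 89478486)) T2.l11
  TrL.n)))))))) (by decide +kernel)
theorem bx2_6 : BoxOK sI cl13 cl13 cl5 t2 t0 b2_6 :=
  box_mk (TrL.c (I.pos (nat_lit 0) (nat_lit 0)) T2.l10
  (TrL.c (I.pos (nat_lit 0) (nat_lit 0)) T0.l7
  (TrL.c (I.pos (nat_lit 0) (nat_lit 134217730)) (xR T2.l4 T2.l8)
  (TrL.c (I.pos (nat_lit 0) (nat_lit 110514882)) (xR T0.l8 T0.l8)
  (TrL.c (I.pos (nat_lit 0) (nat_lit 0)) T0.l11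
  (TrL.c (I.pos (nat_lit 0) (nat_lit 0)) T2.l9
  (TrL.c (I.mix (nat_lit 8088324) (nat_lit 110514882)) T0.l10
  (TrL.c (I.mix (nat_lit 8088324) (nat_lit 89478486)) T2.l11
  TrL.n)))))))) (by decide +kernel)
theorem bx2_7 : BoxOK sI cl13 cl13 cl5 t2 t0 b2_7 :=
  box_mk (TrL.c (I.pos (nat_lit 0) (nat_lit 0)) (xa T2.l10 T2.l10)
  (TrL.c (I.pos (nat_lit 0) (nat_lit 0)) T0.l7
  (TrL.c (I.pos (nat_lit 0) (nat_lit 134217730)) (xR T2.l4 T2.l8)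
  (TrL.c (I.pos (nat_lit 0) (nat_lit 110514882)) T0.l8
  (TrL.c (I.pos (nat_lit 0) (nat_lit 0)) (xa T0.l11 T0.l11)
  (TrL.c (I.pos (nat_lit 0) (nat_lit 0)) T2.l9
  (TrL.c (I.mix (nat_lit 8088324) (nat_lit 110514882)) T0.l10
  (TrL.c (I.mix (nat_lit 8088324) (nat_lit 89478486)) T2.l11
  TrL.n)))))))) (by decide +kernel)
theorem bx2_8 : BoxOK sI cl13 cl13 cl5 t2 t0 b2_8 :=
  box_mk (TrL.c (I.pos (nat_lit 0) (nat_lit 0)) (xa (xa T2.l10 T2.l10) (xa T2.l10 T2.l10))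
  (TrL.c (I.pos (nat_lit 0) (nat_lit 0)) T0.l7
  (TrL.c (I.pos (nat_lit 0) (nat_lit 134217730)) (xR T2.l4 T2.l8)
  (TrL.c (I.pos (nat_lit 0) (nat_lit 110514882)) T0.l8
  (TrL.c (I.pos (nat_lit 0) (nat_lit 0)) T0.l11
  (TrL.c (I.pos (nat_lit 0) (nat_lit 0)) T2.l9
  (TrL.c (I.mix (nat_lit 8088324) (nat_lit 110514882)) T0.l10
  (TrL.c (I.mix (nat_lit 8088324) (nat_lit 89478486)) T2.l11
  TrL.n)))))))) (by decide +kernel)
theorem bx2_9 : BoxOK sI cl13 cl13 cl5 t2 t0 b2_9 :=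
  box_mk (TrL.c (I.pos (nat_lit 0) (nat_lit 0)) (xb T2.l10 (xa T2.l10 T2.l10))
  (TrL.c (I.pos (nat_lit 0) (nat_lit 0)) T0.l7
  (TrL.c (I.pos (nat_lit 0) (nat_lit 134217730)) (xR T2.l4 T2.l8)
  (TrL.c (I.pos (nat_lit 0) (nat_lit 110514882)) (xR T0.l8 T0.l8)
  (TrL.c (I.pos (nat_lit 0) (nat_lit 0)) (xb T0.l11 T0.l11)
  (TrL.c (I.pos (nat_lit 0) (nat_lit 0)) T2.l9
  (TrL.c (I.mix (nat_lit 8088324) (nat_lit 110514882)) T0.l10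
  (TrL.c (I.mix (nat_lit 8088324) (nat_lit 89478486)) T2.l11
  TrL.n)))))))) (by decide +kernel)
theorem bx2_10 : BoxOK sI cl13 cl13 cl5 t2 t0 b2_10 :=
  box_mk (TrL.c (I.pos (nat_lit 0) (nat_lit 0)) (xa (xa T2.l0 T2.l0) (xa T2.l0 T2.l0))
  (TrL.c (I.pos (nat_lit 0) (nat_lit 0)) T0.l7
  (TrL.c (I.pos (nat_lit 0) (nat_lit 134217730)) (xR T2.l4 T2.l4)
  (TrL.c (I.pos (nat_lit 0) (nat_lit 110514882)) (xR T0.l8 T0.l8)
  (TrL.c (I.pos (nat_lit 0) (nat_lit 0)) (xa (xk (xb T0.l9 T0.l9) (xb T0.l9 T0.l9)) (xk (xb (xa T0.l9 T0.l9) (xa T0.l9 T0.l9)) (xb (xa T0.l9 T0.l9) (xa T0.l9 T0.l9))))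
  (TrL.c (I.pos (nat_lit 0) (nat_lit 0)) T2.l9
  (TrL.c (I.mix (nat_lit 8088324) (nat_lit 110514882)) (xR T0.l10 T0.l10)
  (TrL.c (I.mix (nat_lit 8088324) (nat_lit 89478486)) T2.l11
  TrL.n)))))))) (by decide +kernel)
theorem bx2_11 : BoxOK sI cl13 cl13 cl5 t2 t0 b2_11 :=
  box_mk (TrL.c (I.pos (nat_lit 0) (nat_lit 0)) (xa (xa T2.l10 T2.l10) T2.l10)
  (TrL.c (I.pos (nat_lit 0) (nat_lit 0)) T0.l7
  (TrL.c (I.pos (nat_lit 0) (nat_lit 134217730)) (xR T2.l4 T2.l8)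
  (TrL.c (I.pos (nat_lit 0) (nat_lit 110514882)) T0.l8
  (TrL.c (I.pos (nat_lit 0) (nat_lit 0)) (xa T0.l11 T0.l11)
  (TrL.c (I.pos (nat_lit 0) (nat_lit 0)) T2.l9
  (TrL.c (I.mix (nat_lit 8088324) (nat_lit 110514882)) T0.l10
  (TrL.c (I.mix (nat_lit 8088324) (nat_lit 89478486)) T2.l11
  TrL.n)))))))) (by decide +kernel)
theorem bx2_12 : BoxOK sI cl13 cl13 cl5 t2 t0 b2_12 :=
  box_mk (TrL.c (I.pos (nat_lit 0) (nat_lit 0)) (xa (xb T2.l0 T2.l0) (xb T2.l0 T2.l0))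
  (TrL.c (I.pos (nat_lit 0) (nat_lit 0)) T0.l7
  (TrL.c (I.pos (nat_lit 0) (nat_lit 134217730)) (xR T2.l4 T2.l8)
  (TrL.c (I.pos (nat_lit 0) (nat_lit 110514882)) (xR T0.l8 T0.l8)
  (TrL.c (I.pos (nat_lit 0) (nat_lit 0)) (xk T0.l9 T0.l9)
  (TrL.c (I.pos (nat_lit 0) (nat_lit 0)) T2.l9
  (TrL.c (I.mix (nat_lit 8088324) (nat_lit 110514882)) (xR T0.l10 T0.l10)
  (TrL.c (I.mix (nat_lit 8088324) (nat_lit 89478486)) T2.l11
  TrL.n)))))))) (by decide +kernel)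
theorem bx2_13 : BoxOK sI cl13 cl13 cl5 t2 t0 b2_13 :=
  box_mk (TrL.c (I.pos (nat_lit 0) (nat_lit 0)) (xa T2.l12 T2.l12)
  (TrL.c (I.pos (nat_lit 0) (nat_lit 0)) T0.l7
  (TrL.c (I.pos (nat_lit 0) (nat_lit 134217730)) (xR T2.l4 T2.l8)
  (TrL.c (I.pos (nat_lit 0) (nat_lit 110514882)) (xR T0.l8 T0.l8)
  (TrL.c (I.pos (nat_lit 0) (nat_lit 0)) (xk T0.l12 T0.l12)
  (TrL.c (I.pos (nat_lit 0) (nat_lit 0)) T2.l9
  (TrL.c (I.mix (nat_lit 8088324) (nat_lit 110514882)) (xR T0.l10 T0.l10)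
  (TrL.c (I.mix (nat_lit 8088324) (nat_lit 89478486)) T2.l11
  TrL.n)))))))) (by decide +kernel)
theorem sv2 : StarV sI cl13 cl13 cl5 t2 t0 t2 :=
  (bt_n (bt_n (bt_n (bt_b bx2_0) (bt_n (bt_b bx2_1) (bt_b bx2_2))) (bt_n (bt_n (bt_b bx2_3) (bt_b bx2_4)) (bt_n (bt_b bx2_5) (bt_b bx2_6)))) (bt_n (bt_n (bt_b bx2_7) (bt_n (bt_b bx2_8) (bt_b bx2_9))) (bt_n (bt_n (bt_b bx2_10) (bt_b bx2_11)) (bt_n (bt_b bx2_12) (bt_b bx2_13)))))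
def S2 : StarD := StarD.mk cl13 cl13 cl5 2 0 t2
def G : List StarD := [S0, S1, S2]
theorem so0 : StarOK sI G S0 :=
  star_mk (by decide) (by decide) rfl rfl rfl rfl rfl rfl (rfl : _ = t1) (rfl : _ = t1)
  (st_mk (Pth.l (Pth.l (Pth.l Pth.z))) (nat_lit 97307747) (nat_lit 116192665) (by decide +kernel))
  (st_mk (Pth.l (Pth.l (Pth.l Pth.z))) (nat_lit 133494157) (nat_lit 152802516) (by decide +kernel))
  (st_mk (Pth.l (Pth.l (Pth.l Pth.z))) (nat_lit 175775321) (nat_lit 195670219) (by decide +kernel)) sv0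
theorem so1 : StarOK sI G S1 :=
  star_mk (by decide) (by decide) rfl rfl rfl rfl rfl rfl (rfl : _ = t0) (rfl : _ = t2)
  (st_mk (Pth.l (Pth.l (Pth.l Pth.z))) (nat_lit 238062708) (nat_lit 239767992) (by decide +kernel))
  (st_mk (Pth.l (Pth.l (Pth.l Pth.z))) (nat_lit 272959317) (nat_lit 275032410) (by decide +kernel))
  (st_mk (Pth.l (Pth.l (Pth.l Pth.z))) (nat_lit 313224636) (nat_lit 315785615) (by decide +kernel)) sv1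
theorem so2 : StarOK sI G S2 :=
  star_mk (by decide) (by decide) rfl rfl rfl rfl rfl rfl (rfl : _ = t2) (rfl : _ = t0)
  (st_mk (Pth.l (Pth.l (Pth.l Pth.z))) (nat_lit 95831458) (nat_lit 114240202) (by decide +kernel))
  (st_mk (Pth.l (Pth.l (Pth.l Pth.z))) (nat_lit 130728068) (nat_lit 149407358) (by decide +kernel))
  (st_mk (Pth.l (Pth.l (Pth.l Pth.z))) (nat_lit 170993386) (nat_lit 190076097) (by decide +kernel)) sv2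
theorem ok : GroupOK (nat_lit 150274048) (nat_lit 209387520) G := grp_mk (allS_c so0 (allS_c so1 (allS_c so2 allS_n)))
theorem cov : GCov G cl5 cl13 cl13 := cov_mk
  ⟨0, by decide, rfl, rfl, rfl⟩ ⟨0, by decide, rfl, rfl, rfl⟩ ⟨1, by decide, rfl, rfl, rfl⟩ ⟨2, by decide, rfl, rfl, rfl⟩ ⟨1, by decide, rfl, rfl, rfl⟩ ⟨2, by decide, rfl, rfl, rfl⟩
end Q266_2


end Pool.Agent.Helper6.MONO
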