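import Pool.Agent.Helper6.MONO.Asm

/-!
Certificate data (generated).
-/

set_option autoImplicit false
set_option linter.all false
noncomputable section
namespace Pool.Agent.Helper6.MONO


namespace Q266_3
def sI : I := I.pos (nat_lit 209321984) (nat_lit 268435456)
def b0_0 : Bx := Bx.mk (St.mk (I.pos (nat_lit 158302208) (nat_lit 236912640)) (I.mix (nat_lit 1605632) (nat_lit 47251456)) (I.mix (nat_lit 2097152) (nat_lit 66699264)) (I.pos (nat_lit 93732864) (nat_lit 227704832)) (I.mix (nat_lit 91471872) (nat_lit 47579136)) (I.mix (nat_lit 53985280) (nat_lit 45809664)) (I.mix (nat_lit 76742656) (nat_lit 65470464)))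
  false (nat_lit 46549908)
def b0_1 : Bx := Bx.mk (St.mk (I.mix (nat_lit 8044544) (nat_lit 141459456)) (I.mix (nat_lit 2375680) (nat_lit 21004288)) (I.mix (nat_lit 12992512) (nat_lit 12140544)) (I.mix (nat_lit 3178496) (nat_lit 90046464)) (I.mix (nat_lit 20889600) (nat_lit 21872640)) (I.mix (nat_lit 17170432) (nat_lit 12976128)) (I.mix (nat_lit 14712832) (nat_lit 9715712)))
  false (nat_lit 0)
def b0_2 : Bx := Bx.mk (St.mk (I.pos (nat_lit 114196480) (nat_lit 151388160)) (I.mix (nat_lit 40566784) (nat_lit 3981312)) (I.neg (nat_lit 2048000) (nat_lit 50479104)) (I.pos (nat_lit 52330496) (nat_lit 102023168)) (I.mix (nat_lit 82001920) (nat_lit 28622848)) (I.mix (nat_lit 27066368) (nat_lit 61177856)) (I.mix (nat_lit 23166976) (nat_lit 57360384)))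
  false (nat_lit 0)
def b0_3 : Bx := Bx.mk (St.mk (I.mix (nat_lit 12664832) (nat_lit 103645184)) (I.mix (nat_lit 21626880) (nat_lit 1261568)) (I.mix (nat_lit 21053440) (nat_lit 1163264)) (I.mix (nat_lit 2179072) (nat_lit 55640064)) (I.mix (nat_lit 32915456) (nat_lit 10223616)) (I.mix (nat_lit 11747328) (nat_lit 22528000)) (I.mix (nat_lit 6012928) (nat_lit 14909440)))
  false (nat_lit 0)
def b0_4 : Bx := Bx.mk (St.mk (I.pos (nat_lit 202604544) (nat_lit 248037376)) (I.mix (nat_lit 3391488) (nat_lit 28508160)) (I.mix (nat_lit 27115520) (nat_lit 29999104)) (I.pos (nat_lit 179830784) (nat_lit 243761152)) (I.mix (nat_lit 66961408) (nat_lit 32948224)) (I.mix (nat_lit 38502400) (nat_lit 36519936)) (I.mix (nat_lit 59228160) (nat_lit 62898176)))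
  false (nat_lit 8853396)
def b0_5 : Bx := Bx.mk (St.mk (I.pos (nat_lit 230293504) (nat_lit 265011200)) (I.mix (nat_lit 1572864) (nat_lit 34799616)) (I.mix (nat_lit 31375360) (nat_lit 33996800)) (I.pos (nat_lit 220004352) (nat_lit 287440896)) (I.mix (nat_lit 57016320) (nat_lit 43008000)) (I.mix (nat_lit 40452096) (nat_lit 36618240)) (I.mix (nat_lit 62128128) (nat_lit 58867712)))
  false (nat_lit 15242625)
def b0_6 : Bx := Bx.mk (St.mk (I.pos (nat_lit 119111680) (nat_lit 138018816)) (I.mix (nat_lit 2850816) (nat_lit 7094272)) (I.neg (nat_lit 802816) (nat_lit 13647872)) (I.pos (nat_lit 53837824) (nat_lit 88522752)) (I.mix (nat_lit 10895360) (nat_lit 12959744)) (I.mix (nat_lit 9109504) (nat_lit 5193728)) (I.mix (nat_lit 8372224) (nat_lit 4882432)))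
  false (nat_lit 0)
def b0_7 : Bx := Bx.mk (St.mk (I.mix (nat_lit 10174464) (nat_lit 5472256)) (I.mix (nat_lit 622592) (nat_lit 2408448)) (I.mix (nat_lit 2719744) (nat_lit 638976)) (I.mix (nat_lit 1081344) (nat_lit 17956864)) (I.mix (nat_lit 1884160) (nat_lit 3096576)) (I.mix (nat_lit 1687552) (nat_lit 1507328)) (I.mix (nat_lit 606208) (nat_lit 655360)))
  false (nat_lit 0)
def b0_8 : Bx := Bx.mk (St.mk (I.pos (nat_lit 214745088) (nat_lit 253788160)) (I.mix (nat_lit 5898240) (nat_lit 26181632)) (I.mix (nat_lit 34914304) (nat_lit 21905408)) (I.pos (nat_lit 195624960) (nat_lit 258228224)) (I.mix (nat_lit 68222976) (nat_lit 50233344)) (I.mix (nat_lit 44318720) (nat_lit 41861120)) (I.mix (nat_lit 70041600) (nat_lit 72286208)))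
  false (nat_lit 9618982)
def b0_9 : Bx := Bx.mk (St.mk (I.pos (nat_lit 238157824) (nat_lit 270581760)) (I.mix (nat_lit 8110080) (nat_lit 25149440)) (I.mix (nat_lit 50659328) (nat_lit 13565952)) (I.pos (nat_lit 229015552) (nat_lit 300728320)) (I.mix (nat_lit 55443456) (nat_lit 45023232)) (I.mix (nat_lit 41697280) (nat_lit 31752192)) (I.mix (nat_lit 71368704) (nat_lit 50954240)))
  false (nat_lit 0)
def b0_10 : Bx := Bx.mk (St.mk (I.pos (nat_lit 113000448) (nat_lit 183533568)) (I.neg (nat_lit 4358144) (nat_lit 42549248)) (I.neg (nat_lit 8290304) (nat_lit 50495488)) (I.pos (nat_lit 63815680) (nat_lit 143163392)) (I.mix (nat_lit 64946176) (nat_lit 36257792)) (I.mix (nat_lit 29392896) (nat_lit 51593216)) (I.mix (nat_lit 24920064) (nat_lit 53936128)))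
  false (nat_lit 0)
def b0_11 : Bx := Bx.mk (St.mk (I.mix (nat_lit 8978432) (nat_lit 127549440)) (I.mix (nat_lit 21938176) (nat_lit 2523136)) (I.mix (nat_lit 20545536) (nat_lit 1146880)) (I.mix (nat_lit 2473984) (nat_lit 65863680)) (I.mix (nat_lit 31883264) (nat_lit 23117824)) (I.mix (nat_lit 14712832) (nat_lit 26509312)) (I.mix (nat_lit 8830976) (nat_lit 19169280)))
  false (nat_lit 0)
def b0_12 : Bx := Bx.mk (St.mk (I.pos (nat_lit 174899200) (nat_lit 220217344)) (I.mix (nat_lit 11452416) (nat_lit 45432832)) (I.mix (nat_lit 9764864) (nat_lit 66502656)) (I.pos (nat_lit 126025728) (nat_lit 199491584)) (I.mix (nat_lit 124567552) (nat_lit 48283648)) (I.mix (nat_lit 97599488) (nat_lit 56295424)) (I.mix (nat_lit 110608384) (nat_lit 60325888)))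
  false (nat_lit 0)
def b0_13 : Bx := Bx.mk (St.mk (I.mix (nat_lit 13467648) (nat_lit 135692288)) (I.mix (nat_lit 12386304) (nat_lit 24903680)) (I.mix (nat_lit 15450112) (nat_lit 16039936)) (I.mix (nat_lit 3014656) (nat_lit 84656128)) (I.mix (nat_lit 40615936) (nat_lit 27426816)) (I.mix (nat_lit 39649280) (nat_lit 20234240)) (I.mix (nat_lit 27557888) (nat_lit 13697024)))
  false (nat_lit 0)
def b0_14 : Bx := Bx.mk (St.mk (I.pos (nat_lit 179503104) (nat_lit 215810048)) (I.mix (nat_lit 23937024) (nat_lit 13172736)) (I.mix (nat_lit 31571968) (nat_lit 16269312)) (I.pos (nat_lit 129449984) (nat_lit 187875328)) (I.mix (nat_lit 52559872) (nat_lit 47644672)) (I.mix (nat_lit 49266688) (nat_lit 43352064)) (I.mix (nat_lit 53723136) (nat_lit 45252608)))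
  false (nat_lit 0)
def b0_15 : Bx := Bx.mk (St.mk (I.pos (nat_lit 158072832) (nat_lit 200982528)) (I.mix (nat_lit 35291136) (nat_lit 1179648)) (I.mix (nat_lit 48087040) (nat_lit 376832)) (I.pos (nat_lit 100122624) (nat_lit 168312832)) (I.mix (nat_lit 35274752) (nat_lit 18186240)) (I.mix (nat_lit 16744448) (nat_lit 17989632)) (I.mix (nat_lit 18235392) (nat_lit 21282816)))
  false (nat_lit 0)
def b0_16 : Bx := Bx.mk (St.mk (I.pos (nat_lit 173604864) (nat_lit 217890816)) (I.mix (nat_lit 17006592) (nat_lit 26443776)) (I.mix (nat_lit 19480576) (nat_lit 36913152)) (I.pos (nat_lit 124502016) (nat_lit 191119360)) (I.mix (nat_lit 100909056) (nat_lit 69648384)) (I.mix (nat_lit 104857600) (nat_lit 61292544)) (I.mix (nat_lit 118554624) (nat_lit 64847872)))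
  false (nat_lit 14183081)
def b0_17 : Bx := Bx.mk (St.mk (I.pos (nat_lit 153681920) (nat_lit 201392128)) (I.mix (nat_lit 34865152) (nat_lit 7061504)) (I.mix (nat_lit 46563328) (nat_lit 8503296)) (I.pos (nat_lit 96944128) (nat_lit 168132608)) (I.mix (nat_lit 51625984) (nat_lit 22233088)) (I.mix (nat_lit 29802496) (nat_lit 24920064)) (I.mix (nat_lit 33341440) (nat_lit 28983296)))
  false (nat_lit 0)
def b0_18 : Bx := Bx.mk (St.mk (I.pos (nat_lit 176291840) (nat_lit 213532672)) (I.mix (nat_lit 26116096) (nat_lit 10567680)) (I.mix (nat_lit 33964032) (nat_lit 13647872)) (I.pos (nat_lit 125485056) (nat_lit 181747712)) (I.mix (nat_lit 75333632) (nat_lit 51806208)) (I.mix (nat_lit 57769984) (nat_lit 58605568)) (I.mix (nat_lit 63193088) (nat_lit 64454656)))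
  false (nat_lit 0)
def b0_19 : Bx := Bx.mk (St.mk (I.pos (nat_lit 197230592) (nat_lit 237895680)) (I.pos (nat_lit 8830976) (nat_lit 45678592)) (I.pos (nat_lit 2195456) (nat_lit 63963136)) (I.pos (nat_lit 176603136) (nat_lit 231505920)) (I.mix (nat_lit 88457216) (nat_lit 54411264)) (I.mix (nat_lit 65175552) (nat_lit 42385408)) (I.mix (nat_lit 103350272) (nat_lit 67305472)))
  false (nat_lit 38214716)
def b0_20 : Bx := Bx.mk (St.mk (I.pos (nat_lit 152518656) (nat_lit 184827904)) (I.neg (nat_lit 5652480) (nat_lit 35766272)) (I.neg (nat_lit 10059776) (nat_lit 48513024)) (I.pos (nat_lit 95453184) (nat_lit 144605184)) (I.mix (nat_lit 29868032) (nat_lit 7536640)) (I.mix (nat_lit 6717440) (nat_lit 13484032)) (I.mix (nat_lit 7536640) (nat_lit 16728064)))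
  false (nat_lit 0)
def b0_21 : Bx := Bx.mk (St.mk (I.pos (nat_lit 174407680) (nat_lit 201965568)) (I.mix (nat_lit 20791296) (nat_lit 7782400)) (I.mix (nat_lit 25346048) (nat_lit 9371648)) (I.pos (nat_lit 119046144) (nat_lit 168280064)) (I.mix (nat_lit 35962880) (nat_lit 20234240)) (I.mix (nat_lit 24133632) (nat_lit 21168128)) (I.mix (nat_lit 26738688) (nat_lit 22986752)))
  false (nat_lit 0)
def b0_22 : Bx := Bx.mk (St.mk (I.pos (nat_lit 184418304) (nat_lit 216121344)) (I.mix (nat_lit 18038784) (nat_lit 15237120)) (I.mix (nat_lit 21069824) (nat_lit 18628608)) (I.pos (nat_lit 134103040) (nat_lit 189874176)) (I.mix (nat_lit 34258944) (nat_lit 33423360)) (I.mix (nat_lit 30507008) (nat_lit 29671424)) (I.mix (nat_lit 31096832) (nat_lit 29835264)))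
  false (nat_lit 0)
def t0 : BTr := (BTr.n (BTr.n (BTr.n (BTr.n (BTr.b b0_0) (BTr.b b0_1)) (BTr.n (BTr.b b0_2) (BTr.n (BTr.b b0_3) (BTr.b b0_4)))) (BTr.n (BTr.n (BTr.b b0_5) (BTr.n (BTr.b b0_6) (BTr.b b0_7))) (BTr.n (BTr.b b0_8) (BTr.n (BTr.b b0_9) (BTr.b b0_10))))) (BTr.n (BTr.n (BTr.n (BTr.b b0_11) (BTr.n (BTr.b b0_12) (BTr.b b0_13))) (BTr.n (BTr.b b0_14) (BTr.n (BTr.b b0_15) (BTr.b b0_16)))) (BTr.n (BTr.n (BTr.b b0_17) (BTr.n (BTr.b b0_18) (BTr.b b0_19))) (BTr.n (BTr.b b0_20) (BTr.n (BTr.b b0_21) (BTr.b b0_22))))))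
namespace T0
def l0 : Tr := Tr.L (Pth.l (Pth.l (Pth.l (Pth.l Pth.z))))
def l1 : Tr := Tr.L (Pth.l (Pth.l (Pth.l (Pth.r Pth.z))))
def l2 : Tr := Tr.L (Pth.l (Pth.l (Pth.r (Pth.l Pth.z))))
def l3 : Tr := Tr.L (Pth.l (Pth.l (Pth.r (Pth.r (Pth.l Pth.z)))))
def l4 : Tr := Tr.L (Pth.l (Pth.l (Pth.r (Pth.r (Pth.r Pth.z)))))
def l5 : Tr := Tr.L (Pth.l (Pth.r (Pth.l (Pth.l Pth.z))))
def l6 : Tr := Tr.L (Pth.l (Pth.r (Pth.l (Pth.r (Pth.l Pth.z)))))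
def l7 : Tr := Tr.L (Pth.l (Pth.r (Pth.l (Pth.r (Pth.r Pth.z)))))
def l8 : Tr := Tr.L (Pth.l (Pth.r (Pth.r (Pth.l Pth.z))))
def l9 : Tr := Tr.L (Pth.l (Pth.r (Pth.r (Pth.r (Pth.l Pth.z)))))
def l10 : Tr := Tr.L (Pth.l (Pth.r (Pth.r (Pth.r (Pth.r Pth.z)))))
def l11 : Tr := Tr.L (Pth.r (Pth.l (Pth.l (Pth.l Pth.z))))
def l12 : Tr := Tr.L (Pth.r (Pth.l (Pth.l (Pth.r (Pth.l Pth.z)))))
def l13 : Tr := Tr.L (Pth.r (Pth.l (Pth.l (Pth.r (Pth.r Pth.z)))))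
def l14 : Tr := Tr.L (Pth.r (Pth.l (Pth.r (Pth.l Pth.z))))
def l15 : Tr := Tr.L (Pth.r (Pth.l (Pth.r (Pth.r (Pth.l Pth.z)))))
def l16 : Tr := Tr.L (Pth.r (Pth.l (Pth.r (Pth.r (Pth.r Pth.z)))))
def l17 : Tr := Tr.L (Pth.r (Pth.r (Pth.l (Pth.l Pth.z))))
def l18 : Tr := Tr.L (Pth.r (Pth.r (Pth.l (Pth.r (Pth.l Pth.z)))))
def l19 : Tr := Tr.L (Pth.r (Pth.r (Pth.l (Pth.r (Pth.r Pth.z)))))
def l20 : Tr := Tr.L (Pth.r (Pth.r (Pth.r (Pth.l Pth.z))))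
def l21 : Tr := Tr.L (Pth.r (Pth.r (Pth.r (Pth.r (Pth.l Pth.z)))))
def l22 : Tr := Tr.L (Pth.r (Pth.r (Pth.r (Pth.r (Pth.r Pth.z)))))
end T0
def b1_0 : Bx := Bx.mk (St.mk (I.pos (nat_lit 157908992) (nat_lit 225148928)) (I.mix (nat_lit 2097152) (nat_lit 63995904)) (I.mix (nat_lit 2867200) (nat_lit 89702400)) (I.pos (nat_lit 234684416) (nat_lit 336117760)) (I.mix (nat_lit 103514112) (nat_lit 63979520)) (I.mix (nat_lit 57540608) (nat_lit 51462144)) (I.mix (nat_lit 78168064) (nat_lit 70287360)))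
  false (nat_lit 113017091)
def b1_1 : Bx := Bx.mk (St.mk (I.pos (nat_lit 67174400) (nat_lit 157515776)) (I.neg (nat_lit 11517952) (nat_lit 64290816)) (I.mix (nat_lit 56803328) (nat_lit 917504)) (I.pos (nat_lit 161398784) (nat_lit 232685568)) (I.mix (nat_lit 77021184) (nat_lit 46596096)) (I.mix (nat_lit 32276480) (nat_lit 59146240)) (I.mix (nat_lit 30146560) (nat_lit 50921472)))
  false (nat_lit 0)
def b1_2 : Bx := Bx.mk (St.mk (I.pos (nat_lit 19972096) (nat_lit 74268672)) (I.mix (nat_lit 8404992) (nat_lit 47267840)) (I.mix (nat_lit 23707648) (nat_lit 6438912)) (I.pos (nat_lit 143294464) (nat_lit 161824768)) (I.mix (nat_lit 38158336) (nat_lit 50561024)) (I.mix (nat_lit 41418752) (nat_lit 24788992)) (I.mix (nat_lit 21807104) (nat_lit 12910592)))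
  false (nat_lit 0)
def b1_3 : Bx := Bx.mk (St.mk (I.mix (nat_lit 37076992) (nat_lit 9011200)) (I.mix (nat_lit 40402944) (nat_lit 8175616)) (I.mix (nat_lit 4472832) (nat_lit 5505024)) (I.pos (nat_lit 139608064) (nat_lit 152748032)) (I.mix (nat_lit 33587200) (nat_lit 43663360)) (I.mix (nat_lit 22396928) (nat_lit 37797888)) (I.mix (nat_lit 5095424) (nat_lit 5275648)))
  true (nat_lit 0)
def b1_4 : Bx := Bx.mk (St.mk (I.pos (nat_lit 147554304) (nat_lit 195674112)) (I.pos (nat_lit 1835008) (nat_lit 61456384)) (I.pos (nat_lit 15597568) (nat_lit 89604096)) (I.pos (nat_lit 229244928) (nat_lit 295337984)) (I.mix (nat_lit 118128640) (nat_lit 38748160)) (I.mix (nat_lit 96747520) (nat_lit 50642944)) (I.mix (nat_lit 92356608) (nat_lit 53149696)))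
  false (nat_lit 125590627)
def b1_5 : Bx := Bx.mk (St.mk (I.pos (nat_lit 51724288) (nat_lit 99991552)) (I.mix (nat_lit 61652992) (nat_lit 10076160)) (I.neg (nat_lit 7929856) (nat_lit 54378496)) (I.pos (nat_lit 148668416) (nat_lit 183828480)) (I.mix (nat_lit 84459520) (nat_lit 38256640)) (I.mix (nat_lit 35028992) (nat_lit 73367552)) (I.mix (nat_lit 23412736) (nat_lit 43859968)))
  false (nat_lit 0)
def b1_6 : Bx := Bx.mk (St.mk (I.mix (nat_lit 9011200) (nat_lit 37076992)) (I.mix (nat_lit 8175616) (nat_lit 40402944)) (I.mix (nat_lit 4472832) (nat_lit 5505024)) (I.pos (nat_lit 139608064) (nat_lit 152748032)) (I.mix (nat_lit 43663360) (nat_lit 33587200)) (I.mix (nat_lit 37797888) (nat_lit 22396928)) (I.mix (nat_lit 5095424) (nat_lit 5275648)))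
  false (nat_lit 0)
def b1_7 : Bx := Bx.mk (St.mk (I.neg (nat_lit 19972096) (nat_lit 74268672)) (I.mix (nat_lit 47267840) (nat_lit 8404992)) (I.mix (nat_lit 23707648) (nat_lit 6438912)) (I.pos (nat_lit 143294464) (nat_lit 161824768)) (I.mix (nat_lit 50561024) (nat_lit 38158336)) (I.mix (nat_lit 24788992) (nat_lit 41418752)) (I.mix (nat_lit 21807104) (nat_lit 12910592)))
  true (nat_lit 0)
def b1_8 : Bx := Bx.mk (St.mk (I.pos (nat_lit 204603392) (nat_lit 282247168)) (I.mix (nat_lit 6127616) (nat_lit 47349760)) (I.mix (nat_lit 60702720) (nat_lit 56426496)) (I.pos (nat_lit 317505536) (nat_lit 431063040)) (I.mix (nat_lit 46481408) (nat_lit 40681472)) (I.mix (nat_lit 26902528) (nat_lit 19972096)) (I.mix (nat_lit 43122688) (nat_lit 27115520)))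
  false (nat_lit 93500450)
def b1_9 : Bx := Bx.mk (St.mk (I.pos (nat_lit 131268608) (nat_lit 172654592)) (I.mix (nat_lit 29097984) (nat_lit 13598720)) (I.mix (nat_lit 21479424) (nat_lit 32866304)) (I.pos (nat_lit 207847424) (nat_lit 253624320)) (I.mix (nat_lit 24592384) (nat_lit 12763136)) (I.mix (nat_lit 11124736) (nat_lit 11485184)) (I.mix (nat_lit 10731520) (nat_lit 9519104)))
  false (nat_lit 0)
def b1_10 : Bx := Bx.mk (St.mk (I.pos (nat_lit 196820992) (nat_lit 235094016)) (I.pos (nat_lit 9928704) (nat_lit 41418752)) (I.mix (nat_lit 2555904) (nat_lit 47333376)) (I.pos (nat_lit 301219840) (nat_lit 345686016)) (I.mix (nat_lit 64077824) (nat_lit 55132160)) (I.mix (nat_lit 45858816) (nat_lit 36241408)) (I.mix (nat_lit 66076672) (nat_lit 55721984)))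
  false (nat_lit 59914925)
def b1_11 : Bx := Bx.mk (St.mk (I.pos (nat_lit 156123136) (nat_lit 184942592)) (I.mix (nat_lit 13172736) (nat_lit 15351808)) (I.mix (nat_lit 4636672) (nat_lit 32866304)) (I.pos (nat_lit 235569152) (nat_lit 266682368)) (I.mix (nat_lit 60899328) (nat_lit 44384256)) (I.mix (nat_lit 45924352) (nat_lit 40878080)) (I.mix (nat_lit 43237376) (nat_lit 38436864)))
  false (nat_lit 0)
def b1_12 : Bx := Bx.mk (St.mk (I.pos (nat_lit 240222208) (nat_lit 275152896)) (I.mix (nat_lit 16875520) (nat_lit 22102016)) (I.mix (nat_lit 78397440) (nat_lit 3342336)) (I.pos (nat_lit 360513536) (nat_lit 419479552)) (I.mix (nat_lit 39337984) (nat_lit 32342016)) (I.mix (nat_lit 27967488) (nat_lit 24592384)) (I.mix (nat_lit 43909120) (nat_lit 44580864)))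
  false (nat_lit 48262021)
def b1_13 : Bx := Bx.mk (St.mk (I.pos (nat_lit 133431296) (nat_lit 171835392)) (I.mix (nat_lit 33832960) (nat_lit 2310144)) (I.mix (nat_lit 27230208) (nat_lit 19611648)) (I.pos (nat_lit 209649664) (nat_lit 249593856)) (I.mix (nat_lit 22691840) (nat_lit 18759680)) (I.mix (nat_lit 13811712) (nat_lit 10764288)) (I.mix (nat_lit 12681216) (nat_lit 9764864)))
  false (nat_lit 0)
def b1_14 : Bx := Bx.mk (St.mk (I.pos (nat_lit 195936256) (nat_lit 235012096)) (I.pos (nat_lit 9093120) (nat_lit 40796160)) (I.mix (nat_lit 4243456) (nat_lit 44531712)) (I.pos (nat_lit 301056000) (nat_lit 343130112)) (I.mix (nat_lit 72908800) (nat_lit 43417600)) (I.mix (nat_lit 45875200) (nat_lit 34766848)) (I.mix (nat_lit 62373888) (nat_lit 53673984)))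
  false (nat_lit 62605034)
def b1_15 : Bx := Bx.mk (St.mk (I.pos (nat_lit 157941760) (nat_lit 192364544)) (I.mix (nat_lit 13811712) (nat_lit 25100288)) (I.mix (nat_lit 5734400) (nat_lit 44302336)) (I.pos (nat_lit 237387776) (nat_lit 279150592)) (I.mix (nat_lit 58212352) (nat_lit 48971776)) (I.mix (nat_lit 44498944) (nat_lit 45957120)) (I.mix (nat_lit 41828352) (nat_lit 44859392)))
  false (nat_lit 12104058)
def b1_16 : Bx := Bx.mk (St.mk (I.pos (nat_lit 208633856) (nat_lit 274907136)) (I.mix (nat_lit 15613952) (nat_lit 38584320)) (I.mix (nat_lit 75530240) (nat_lit 40648704)) (I.pos (nat_lit 318095360) (nat_lit 418316288)) (I.mix (nat_lit 47677440) (nat_lit 38453248)) (I.mix (nat_lit 30867456) (nat_lit 35651584)) (I.mix (nat_lit 47890432) (nat_lit 63504384)))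
  false (nat_lit 111800161)
def b1_17 : Bx := Bx.mk (St.mk (I.pos (nat_lit 133693440) (nat_lit 175407104)) (I.mix (nat_lit 33390592) (nat_lit 7192576)) (I.mix (nat_lit 26607616) (nat_lit 25182208)) (I.pos (nat_lit 210075648) (nat_lit 255377408)) (I.mix (nat_lit 27017216) (nat_lit 26984448)) (I.mix (nat_lit 19398656) (nat_lit 20742144)) (I.mix (nat_lit 17498112) (nat_lit 19595264)))
  false (nat_lit 0)
def b1_18 : Bx := Bx.mk (St.mk (I.pos (nat_lit 171048960) (nat_lit 218415104)) (I.pos (nat_lit 21463040) (nat_lit 63930368)) (I.pos (nat_lit 23887872) (nat_lit 87212032)) (I.pos (nat_lit 273563648) (nat_lit 325468160)) (I.mix (nat_lit 106446848) (nat_lit 79478784)) (I.mix (nat_lit 77086720) (nat_lit 55853056)) (I.mix (nat_lit 116817920) (nat_lit 72269824)))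
  false (nat_lit 87927898)
def b1_19 : Bx := Bx.mk (St.mk (I.pos (nat_lit 149209088) (nat_lit 195231744)) (I.mix (nat_lit 3784704) (nat_lit 44187648)) (I.pos (nat_lit 4079616) (nat_lit 70926336)) (I.pos (nat_lit 233521152) (nat_lit 283590656)) (I.mix (nat_lit 124403712) (nat_lit 76398592)) (I.mix (nat_lit 114442240) (nat_lit 66371584)) (I.mix (nat_lit 112541696) (nat_lit 64585728)))
  false (nat_lit 57626968)
def b1_20 : Bx := Bx.mk (St.mk (I.pos (nat_lit 205799424) (nat_lit 286507008)) (I.mix (nat_lit 13631488) (nat_lit 48234496)) (I.mix (nat_lit 73580544) (nat_lit 56180736)) (I.pos (nat_lit 316162048) (nat_lit 440352768)) (I.mix (nat_lit 57311232) (nat_lit 62554112)) (I.mix (nat_lit 55410688) (nat_lit 33816576)) (I.mix (nat_lit 91602944) (nat_lit 56311808)))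
  false (nat_lit 111224305)
def b1_21 : Bx := Bx.mk (St.mk (I.pos (nat_lit 128761856) (nat_lit 175587328)) (I.mix (nat_lit 32882688) (nat_lit 14368768)) (I.mix (nat_lit 24887296) (nat_lit 33619968)) (I.pos (nat_lit 205750272) (nat_lit 255721472)) (I.mix (nat_lit 41369600) (nat_lit 33243136)) (I.mix (nat_lit 33898496) (nat_lit 21315584)) (I.mix (nat_lit 32882688) (nat_lit 18677760)))
  false (nat_lit 0)
def t1 : BTr := (BTr.n (BTr.n (BTr.n (BTr.n (BTr.b b1_0) (BTr.b b1_1)) (BTr.n (BTr.b b1_2) (BTr.n (BTr.b b1_3) (BTr.b b1_4)))) (BTr.n (BTr.n (BTr.b b1_5) (BTr.n (BTr.b b1_6) (BTr.b b1_7))) (BTr.n (BTr.b b1_8) (BTr.n (BTr.b b1_9) (BTr.b b1_10))))) (BTr.n (BTr.n (BTr.n (BTr.b b1_11) (BTr.b b1_12)) (BTr.n (BTr.b b1_13) (BTr.n (BTr.b b1_14) (BTr.b b1_15)))) (BTr.n (BTr.n (BTr.b b1_16) (BTr.n (BTr.b b1_17) (BTr.b b1_18))) (BTr.n (BTr.b b1_19) (BTr.n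 (BTr.b b1_20) (BTr.b b1_21))))))
namespace T1
def l0 : Tr := Tr.L (Pth.l (Pth.l (Pth.l (Pth.l Pth.z))))
def l1 : Tr := Tr.L (Pth.l (Pth.l (Pth.l (Pth.r Pth.z))))
def l2 : Tr := Tr.L (Pth.l (Pth.l (Pth.r (Pth.l Pth.z))))
def l3 : Tr := Tr.L (Pth.l (Pth.l (Pth.r (Pth.r (Pth.l Pth.z)))))
def l4 : Tr := Tr.L (Pth.l (Pth.l (Pth.r (Pth.r (Pth.r Pth.z)))))
def l5 : Tr := Tr.L (Pth.l (Pth.r (Pth.l (Pth.l Pth.z))))
def l6 : Tr := Tr.L (Pth.l (Pth.r (Pth.l (Pth.r (Pth.l Pth.z)))))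
def l7 : Tr := Tr.L (Pth.l (Pth.r (Pth.l (Pth.r (Pth.r Pth.z)))))
def l8 : Tr := Tr.L (Pth.l (Pth.r (Pth.r (Pth.l Pth.z))))
def l9 : Tr := Tr.L (Pth.l (Pth.r (Pth.r (Pth.r (Pth.l Pth.z)))))
def l10 : Tr := Tr.L (Pth.l (Pth.r (Pth.r (Pth.r (Pth.r Pth.z)))))
def l11 : Tr := Tr.L (Pth.r (Pth.l (Pth.l (Pth.l Pth.z))))
def l12 : Tr := Tr.L (Pth.r (Pth.l (Pth.l (Pth.r Pth.z))))
def l13 : Tr := Tr.L (Pth.r (Pth.l (Pth.r (Pth.l Pth.z))))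
def l14 : Tr := Tr.L (Pth.r (Pth.l (Pth.r (Pth.r (Pth.l Pth.z)))))
def l15 : Tr := Tr.L (Pth.r (Pth.l (Pth.r (Pth.r (Pth.r Pth.z)))))
def l16 : Tr := Tr.L (Pth.r (Pth.r (Pth.l (Pth.l Pth.z))))
def l17 : Tr := Tr.L (Pth.r (Pth.r (Pth.l (Pth.r (Pth.l Pth.z)))))
def l18 : Tr := Tr.L (Pth.r (Pth.r (Pth.l (Pth.r (Pth.r Pth.z)))))
def l19 : Tr := Tr.L (Pth.r (Pth.r (Pth.r (Pth.l Pth.z))))
def l20 : Tr := Tr.L (Pth.r (Pth.r (Pth.r (Pth.r (Pth.l Pth.z)))))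
def l21 : Tr := Tr.L (Pth.r (Pth.r (Pth.r (Pth.r (Pth.r Pth.z)))))
end T1
def b2_0 : Bx := Bx.mk (St.mk (I.pos (nat_lit 158400512) (nat_lit 233783296)) (I.mix (nat_lit 1409024) (nat_lit 40730624)) (I.mix (nat_lit 2899968) (nat_lit 93847552)) (I.pos (nat_lit 92651520) (nat_lit 204767232)) (I.mix (nat_lit 88408064) (nat_lit 49414144)) (I.mix (nat_lit 63062016) (nat_lit 54214656)) (I.mix (nat_lit 94191616) (nat_lit 68861952)))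
  false (nat_lit 27701102)
def b2_1 : Bx := Bx.mk (St.mk (I.pos (nat_lit 121208832) (nat_lit 182288384)) (I.neg (nat_lit 7520256) (nat_lit 47808512)) (I.mix (nat_lit 37552128) (nat_lit 5586944)) (I.pos (nat_lit 74678272) (nat_lit 141803520)) (I.mix (nat_lit 64667648) (nat_lit 36814848)) (I.mix (nat_lit 29327360) (nat_lit 40501248)) (I.mix (nat_lit 26279936) (nat_lit 41779200)))
  false (nat_lit 0)
def b2_2 : Bx := Bx.mk (St.mk (I.mix (nat_lit 7356416) (nat_lit 116506624)) (I.mix (nat_lit 22773760) (nat_lit 1212416)) (I.mix (nat_lit 10846208) (nat_lit 6504448)) (I.mix (nat_lit 2473984) (nat_lit 65765376)) (I.mix (nat_lit 23592960) (nat_lit 18382848)) (I.mix (nat_lit 12517376) (nat_lit 17006592)) (I.mix (nat_lit 8224768) (nat_lit 11960320)))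
  false (nat_lit 0)
def b2_3 : Bx := Bx.mk (St.mk (I.pos (nat_lit 166477824) (nat_lit 211992576)) (I.mix (nat_lit 11763712) (nat_lit 41369600)) (I.pos (nat_lit 14663680) (nat_lit 91471872)) (I.pos (nat_lit 105480192) (nat_lit 179290112)) (I.mix (nat_lit 130072576) (nat_lit 50069504)) (I.mix (nat_lit 103579648) (nat_lit 51953664)) (I.mix (nat_lit 128008192) (nat_lit 42008576)))
  false (nat_lit 35065058)
def b2_4 : Bx := Bx.mk (St.mk (I.mix (nat_lit 13336576) (nat_lit 130826240)) (I.mix (nat_lit 9699328) (nat_lit 24707072)) (I.mix (nat_lit 1425408) (nat_lit 30457856)) (I.mix (nat_lit 2818048) (nat_lit 77758464)) (I.mix (nat_lit 46874624) (nat_lit 22822912)) (I.mix (nat_lit 36536320) (nat_lit 18481152)) (I.mix (nat_lit 27770880) (nat_lit 12402688)))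
  false (nat_lit 0)
def b2_5 : Bx := Bx.mk (St.mk (I.pos (nat_lit 175554560) (nat_lit 212697088)) (I.mix (nat_lit 31178752) (nat_lit 6701056)) (I.mix (nat_lit 9027584) (nat_lit 42811392)) (I.pos (nat_lit 115064832) (nat_lit 176160768)) (I.mix (nat_lit 55066624) (nat_lit 55525376)) (I.mix (nat_lit 46383104) (nat_lit 50331648)) (I.mix (nat_lit 47595520) (nat_lit 50593792)))
  false (nat_lit 42292142)
def b2_6 : Bx := Bx.mk (St.mk (I.pos (nat_lit 164855808) (nat_lit 194150400)) (I.mix (nat_lit 27082752) (nat_lit 16384)) (I.mix (nat_lit 6127616) (nat_lit 27213824)) (I.pos (nat_lit 102580224) (nat_lit 153387008)) (I.mix (nat_lit 38453248) (nat_lit 29835264)) (I.mix (nat_lit 24461312) (nat_lit 25739264)) (I.mix (nat_lit 30113792) (nat_lit 21741568)))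
  false (nat_lit 0)
def b2_7 : Bx := Bx.mk (St.mk (I.mix (nat_lit 40697856) (nat_lit 120995840)) (I.mix (nat_lit 12124160) (nat_lit 1392640)) (I.mix (nat_lit 2015232) (nat_lit 8028160)) (I.mix (nat_lit 9584640) (nat_lit 68747264)) (I.mix (nat_lit 8814592) (nat_lit 11698176)) (I.mix (nat_lit 5652480) (nat_lit 7389184)) (I.mix (nat_lit 3670016) (nat_lit 5373952)))
  false (nat_lit 0)
def b2_8 : Bx := Bx.mk (St.mk (I.pos (nat_lit 171261952) (nat_lit 206782464)) (I.mix (nat_lit 32178176) (nat_lit 1556480)) (I.mix (nat_lit 11386880) (nat_lit 32210944)) (I.pos (nat_lit 109494272) (nat_lit 167313408)) (I.mix (nat_lit 61718528) (nat_lit 52609024)) (I.mix (nat_lit 45449216) (nat_lit 47251456)) (I.mix (nat_lit 46137344) (nat_lit 48447488)))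
  false (nat_lit 28430007)
def b2_9 : Bx := Bx.mk (St.mk (I.pos (nat_lit 160268288) (nat_lit 186941440)) (I.neg (nat_lit 5947392) (nat_lit 30457856)) (I.mix (nat_lit 12091392) (nat_lit 17121280)) (I.pos (nat_lit 101613568) (nat_lit 144556032)) (I.mix (nat_lit 33669120) (nat_lit 19349504)) (I.mix (nat_lit 17956864) (nat_lit 16662528)) (I.mix (nat_lit 22249472) (nat_lit 14811136)))
  false (nat_lit 0)
def b2_10 : Bx := Bx.mk (St.mk (I.pos (nat_lit 59998208) (nat_lit 140836864)) (I.mix (nat_lit 5832704) (nat_lit 18071552)) (I.pos (nat_lit 360448) (nat_lit 24903680)) (I.pos (nat_lit 16400384) (nat_lit 89571328)) (I.mix (nat_lit 34193408) (nat_lit 28426240)) (I.mix (nat_lit 30834688) (nat_lit 17481728)) (I.mix (nat_lit 26361856) (nat_lit 12681216)))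
  false (nat_lit 0)
def b2_11 : Bx := Bx.mk (St.mk (I.pos (nat_lit 117800960) (nat_lit 162168832)) (I.mix (nat_lit 47366144) (nat_lit 8519680)) (I.mix (nat_lit 37650432) (nat_lit 18399232)) (I.pos (nat_lit 52084736) (nat_lit 118571008)) (I.mix (nat_lit 78839808) (nat_lit 42336256)) (I.mix (nat_lit 29523968) (nat_lit 66322432)) (I.mix (nat_lit 25149440) (nat_lit 56688640)))
  false (nat_lit 0)
def b2_12 : Bx := Bx.mk (St.mk (I.pos (nat_lit 199163904) (nat_lit 239747072)) (I.pos (nat_lit 1687552) (nat_lit 21643264)) (I.pos (nat_lit 24199168) (nat_lit 65093632)) (I.pos (nat_lit 159170560) (nat_lit 218284032)) (I.mix (nat_lit 62078976) (nat_lit 27672576)) (I.mix (nat_lit 40386560) (nat_lit 21921792)) (I.mix (nat_lit 64782336) (nat_lit 29638656)))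
  false (nat_lit 0)
def b2_13 : Bx := Bx.mk (St.mk (I.pos (nat_lit 28868608) (nat_lit 107560960)) (I.mix (nat_lit 23101440) (nat_lit 4489216)) (I.mix (nat_lit 10436608) (nat_lit 8683520)) (I.pos (nat_lit 0) (nat_lit 59883520)) (I.mix (nat_lit 27164672) (nat_lit 16826368)) (I.mix (nat_lit 12828672) (nat_lit 23838720)) (I.mix (nat_lit 7225344) (nat_lit 13828096)))
  false (nat_lit 0)
def b2_14 : Bx := Bx.mk (St.mk (I.pos (nat_lit 215564288) (nat_lit 273121280)) (I.mix (nat_lit 13271040) (nat_lit 23937024)) (I.pos (nat_lit 1654784) (nat_lit 71696384)) (I.pos (nat_lit 186089472) (nat_lit 290865152)) (I.mix (nat_lit 48431104) (nat_lit 23691264)) (I.mix (nat_lit 25706496) (nat_lit 19857408)) (I.mix (nat_lit 45170688) (nat_lit 29278208)))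
  false (nat_lit 9355847)
def b2_15 : Bx := Bx.mk (St.mk (I.pos (nat_lit 186531840) (nat_lit 231145472)) (I.pos (nat_lit 10076160) (nat_lit 40468480)) (I.pos (nat_lit 39010304) (nat_lit 94601216)) (I.pos (nat_lit 146866176) (nat_lit 199933952)) (I.mix (nat_lit 84738048) (nat_lit 67256320)) (I.mix (nat_lit 72499200) (nat_lit 53641216)) (I.mix (nat_lit 111935488) (nat_lit 68190208)))
  false (nat_lit 30766270)
def b2_16 : Bx := Bx.mk (St.mk (I.pos (nat_lit 213499904) (nat_lit 283508736)) (I.mix (nat_lit 10813440) (nat_lit 33964032)) (I.pos (nat_lit 5996544) (nat_lit 90341376)) (I.pos (nat_lit 181665792) (nat_lit 310149120)) (I.mix (nat_lit 59506688) (nat_lit 63782912)) (I.mix (nat_lit 54755328) (nat_lit 38092800)) (I.mix (nat_lit 96550912) (nat_lit 60735488)))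
  false (nat_lit 46117666)
def b2_17 : Bx := Bx.mk (St.mk (I.pos (nat_lit 207290368) (nat_lit 243171328)) (I.pos (nat_lit 10846208) (nat_lit 30785536)) (I.pos (nat_lit 39305216) (nat_lit 81936384)) (I.pos (nat_lit 176029696) (nat_lit 223526912)) (I.mix (nat_lit 59883520) (nat_lit 22740992)) (I.mix (nat_lit 37388288) (nat_lit 19382272)) (I.mix (nat_lit 64208896) (nat_lit 26804224)))
  false (nat_lit 0)
def b2_18 : Bx := Bx.mk (St.mk (I.pos (nat_lit 201850880) (nat_lit 243351552)) (I.pos (nat_lit 1261568) (nat_lit 27754496)) (I.pos (nat_lit 23101440) (nat_lit 76627968)) (I.pos (nat_lit 167657472) (nat_lit 223608832)) (I.mix (nat_lit 73924608) (nat_lit 47382528)) (I.mix (nat_lit 49201152) (nat_lit 39616512)) (I.mix (nat_lit 77463552) (nat_lit 59031552)))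
  false (nat_lit 22550587)
def b2_19 : Bx := Bx.mk (St.mk (I.pos (nat_lit 159334400) (nat_lit 185778176)) (I.neg (nat_lit 11927552) (nat_lit 35749888)) (I.mix (nat_lit 20250624) (nat_lit 7143424)) (I.pos (nat_lit 102694912) (nat_lit 145047552)) (I.mix (nat_lit 32047104) (nat_lit 24313856)) (I.mix (nat_lit 15892480) (nat_lit 20054016)) (I.mix (nat_lit 15859712) (nat_lit 21364736)))
  false (nat_lit 0)
def b2_20 : Bx := Bx.mk (St.mk (I.pos (nat_lit 170164224) (nat_lit 211845120)) (I.mix (nat_lit 19333120) (nat_lit 20676608)) (I.pos (nat_lit 7438336) (nat_lit 62291968)) (I.pos (nat_lit 107937792) (nat_lit 175570944)) (I.mix (nat_lit 104660992) (nat_lit 63258624)) (I.mix (nat_lit 99631104) (nat_lit 54624256)) (I.mix (nat_lit 114294784) (nat_lit 46956544)))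
  false (nat_lit 55328635)
def b2_21 : Bx := Bx.mk (St.mk (I.pos (nat_lit 258654208) (nat_lit 284590080)) (I.mix (nat_lit 20447232) (nat_lit 5210112)) (I.mix (nat_lit 12304384) (nat_lit 40599552)) (I.pos (nat_lit 252264448) (nat_lit 312868864)) (I.mix (nat_lit 23658496) (nat_lit 14336000)) (I.mix (nat_lit 10895360) (nat_lit 14237696)) (I.mix (nat_lit 20021248) (nat_lit 20185088)))
  false (nat_lit 0)
def t2 : BTr := (BTr.n (BTr.n (BTr.n (BTr.n (BTr.b b2_0) (BTr.b b2_1)) (BTr.n (BTr.b b2_2) (BTr.n (BTr.b b2_3) (BTr.b b2_4)))) (BTr.n (BTr.n (BTr.b b2_5) (BTr.n (BTr.b b2_6) (BTr.b b2_7))) (BTr.n (BTr.b b2_8) (BTr.n (BTr.b b2_9) (BTr.b b2_10))))) (BTr.n (BTr.n (BTr.n (BTr.b b2_11) (BTr.b b2_12)) (BTr.n (BTr.b b2_13) (BTr.n (BTr.b b2_14) (BTr.b b2_15)))) (BTr.n (BTr.n (BTr.b b2_16) (BTr.n (BTr.b b2_17) (BTr.b b2_18))) (BTr.n (BTr.b b2_19) (BTr.n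 (BTr.b b2_20) (BTr.b b2_21))))))
namespace T2
def l0 : Tr := Tr.L (Pth.l (Pth.l (Pth.l (Pth.l Pth.z))))
def l1 : Tr := Tr.L (Pth.l (Pth.l (Pth.l (Pth.r Pth.z))))
def l2 : Tr := Tr.L (Pth.l (Pth.l (Pth.r (Pth.l Pth.z))))
def l3 : Tr := Tr.L (Pth.l (Pth.l (Pth.r (Pth.r (Pth.l Pth.z)))))
def l4 : Tr := Tr.L (Pth.l (Pth.l (Pth.r (Pth.r (Pth.r Pth.z)))))
def l5 : Tr := Tr.L (Pth.l (Pth.r (Pth.l (Pth.l Pth.z))))
def l6 : Tr := Tr.L (Pth.l (Pth.r (Pth.l (Pth.r (Pth.l Pth.z)))))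
def l7 : Tr := Tr.L (Pth.l (Pth.r (Pth.l (Pth.r (Pth.r Pth.z)))))
def l8 : Tr := Tr.L (Pth.l (Pth.r (Pth.r (Pth.l Pth.z))))
def l9 : Tr := Tr.L (Pth.l (Pth.r (Pth.r (Pth.r (Pth.l Pth.z)))))
def l10 : Tr := Tr.L (Pth.l (Pth.r (Pth.r (Pth.r (Pth.r Pth.z)))))
def l11 : Tr := Tr.L (Pth.r (Pth.l (Pth.l (Pth.l Pth.z))))
def l12 : Tr := Tr.L (Pth.r (Pth.l (Pth.l (Pth.r Pth.z))))
def l13 : Tr := Tr.L (Pth.r (Pth.l (Pth.r (Pth.l Pth.z))))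
def l14 : Tr := Tr.L (Pth.r (Pth.l (Pth.r (Pth.r (Pth.l Pth.z)))))
def l15 : Tr := Tr.L (Pth.r (Pth.l (Pth.r (Pth.r (Pth.r Pth.z)))))
def l16 : Tr := Tr.L (Pth.r (Pth.r (Pth.l (Pth.l Pth.z))))
def l17 : Tr := Tr.L (Pth.r (Pth.r (Pth.l (Pth.r (Pth.l Pth.z)))))
def l18 : Tr := Tr.L (Pth.r (Pth.r (Pth.l (Pth.r (Pth.r Pth.z)))))
def l19 : Tr := Tr.L (Pth.r (Pth.r (Pth.r (Pth.l Pth.z))))
def l20 : Tr := Tr.L (Pth.r (Pth.r (Pth.r (Pth.r (Pth.l Pth.z)))))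
def l21 : Tr := Tr.L (Pth.r (Pth.r (Pth.r (Pth.r (Pth.r Pth.z)))))
end T2
theorem bx0_0 : BoxOK sI cl5 cl13 cl13 t1 t1 b0_0 :=
  box_mk (TrL.c (I.pos (nat_lit 0) (nat_lit 0)) (xa (xb (xa (xb T1.l0 T1.l0) T1.l18) (xa (xb T1.l0 (xa T1.l0 T1.l0)) (xb T1.l0 (xa T1.l0 (xs T1.l0 T1.l0))))) (xb (xa T1.l0 (xb T1.l0 T1.l0)) (xa (xb T1.l0 (xa (xs T1.l0 T1.l0) (xs T1.l0 T1.l0))) (xb (xa T1.l0 T1.l0) (xa T1.l0 (xs T1.l0 T1.l0))))))
  (TrL.c (I.pos (nat_lit 0) (nat_lit 0)) (xa (xb T1.l1 T1.l1) (xb T1.l1 T1.l1))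
  (TrL.c (I.pos (nat_lit 0) (nat_lit 0)) T1.l2
  (TrL.c (I.pos (nat_lit 0) (nat_lit 0)) T1.l3
  (TrL.c (I.pos (nat_lit 0) (nat_lit 0)) (xa (xb T1.l4 T1.l4) (xb T1.l4 (xa T1.l4 T1.l4)))
  (TrL.c (I.pos (nat_lit 0) (nat_lit 0)) T1.l5
  (TrL.c (I.pos (nat_lit 0) (nat_lit 0)) T1.l6
  (TrL.c (I.pos (nat_lit 0) (nat_lit 0)) T1.l7
  TrL.n)))))))) (by decide +kernel)
theorem bx0_1 : BoxOK sI cl5 cl13 cl13 t1 t1 b0_1 :=
  box_mk (TrL.c (I.pos (nat_lit 0) (nat_lit 0)) (xa T1.l20 (xa T1.l20 (xa T1.l8 T1.l8)))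
  (TrL.c (I.pos (nat_lit 0) (nat_lit 0)) (xa T1.l1 T1.l1)
  (TrL.c (I.pos (nat_lit 0) (nat_lit 0)) T1.l2
  (TrL.c (I.pos (nat_lit 0) (nat_lit 0)) T1.l3
  (TrL.c (I.pos (nat_lit 0) (nat_lit 0)) (xa T1.l21 T1.l21)
  (TrL.c (I.pos (nat_lit 0) (nat_lit 0)) T1.l5
  (TrL.c (I.pos (nat_lit 0) (nat_lit 0)) T1.l6
  (TrL.c (I.pos (nat_lit 0) (nat_lit 0)) T1.l7
  TrL.n)))))))) (by decide +kernel)
theorem bx0_2 : BoxOK sI cl5 cl13 cl13 t1 t1 b0_2 :=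
  box_mk (TrL.c (I.pos (nat_lit 0) (nat_lit 0)) (xb (xa T1.l10 T1.l10) (xa T1.l10 T1.l10))
  (TrL.c (I.pos (nat_lit 0) (nat_lit 0)) T1.l1
  (TrL.c (I.pos (nat_lit 0) (nat_lit 0)) T1.l2
  (TrL.c (I.pos (nat_lit 0) (nat_lit 0)) T1.l3
  (TrL.c (I.pos (nat_lit 0) (nat_lit 0)) T1.l11
  (TrL.c (I.pos (nat_lit 0) (nat_lit 0)) T1.l5
  (TrL.c (I.pos (nat_lit 0) (nat_lit 0)) T1.l6
  (TrL.c (I.pos (nat_lit 0) (nat_lit 0)) T1.l7
  TrL.n)))))))) (by decide +kernel)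
theorem bx0_3 : BoxOK sI cl5 cl13 cl13 t1 t1 b0_3 :=
  box_mk (TrL.c (I.pos (nat_lit 0) (nat_lit 0)) (xa (xa T1.l12 T1.l12) T1.l16)
  (TrL.c (I.pos (nat_lit 0) (nat_lit 0)) (xa T1.l1 T1.l1)
  (TrL.c (I.pos (nat_lit 0) (nat_lit 0)) T1.l2
  (TrL.c (I.pos (nat_lit 0) (nat_lit 0)) T1.l3
  (TrL.c (I.pos (nat_lit 0) (nat_lit 0)) (xa T1.l1 T1.l17)
  (TrL.c (I.pos (nat_lit 0) (nat_lit 0)) T1.l5
  (TrL.c (I.pos (nat_lit 0) (nat_lit 0)) T1.l6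
  (TrL.c (I.pos (nat_lit 0) (nat_lit 0)) T1.l7
  TrL.n)))))))) (by decide +kernel)
theorem bx0_4 : BoxOK sI cl5 cl13 cl13 t1 t1 b0_4 :=
  box_mk (TrL.c (I.pos (nat_lit 0) (nat_lit 0)) (xa T1.l0 (xb T1.l0 T1.l0))
  (TrL.c (I.pos (nat_lit 0) (nat_lit 0)) T1.l1
  (TrL.c (I.pos (nat_lit 0) (nat_lit 0)) T1.l2
  (TrL.c (I.pos (nat_lit 0) (nat_lit 0)) T1.l3
  (TrL.c (I.pos (nat_lit 0) (nat_lit 0)) T1.l4
  (TrL.c (I.pos (nat_lit 0) (nat_lit 0)) T1.l5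
  (TrL.c (I.pos (nat_lit 0) (nat_lit 0)) T1.l6
  (TrL.c (I.pos (nat_lit 0) (nat_lit 0)) T1.l7
  TrL.n)))))))) (by decide +kernel)
theorem bx0_5 : BoxOK sI cl5 cl13 cl13 t1 t1 b0_5 :=
  box_mk (TrL.c (I.pos (nat_lit 0) (nat_lit 0)) (xa (xb T1.l0 (xb T1.l0 T1.l0)) (xb T1.l4 (xa T1.l4 T1.l4)))
  (TrL.c (I.pos (nat_lit 0) (nat_lit 0)) T1.l1
  (TrL.c (I.pos (nat_lit 0) (nat_lit 0)) T1.l2
  (TrL.c (I.pos (nat_lit 0) (nat_lit 0)) T1.l3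
  (TrL.c (I.pos (nat_lit 0) (nat_lit 0)) (xb T1.l4 T1.l4)
  (TrL.c (I.pos (nat_lit 0) (nat_lit 0)) T1.l5
  (TrL.c (I.pos (nat_lit 0) (nat_lit 0)) T1.l6
  (TrL.c (I.pos (nat_lit 0) (nat_lit 0)) T1.l7
  TrL.n)))))))) (by decide +kernel)
theorem bx0_6 : BoxOK sI cl5 cl13 cl13 t1 t1 b0_6 :=
  box_mk (TrL.c (I.pos (nat_lit 0) (nat_lit 0)) T1.l8
  (TrL.c (I.pos (nat_lit 0) (nat_lit 0)) T1.l1
  (TrL.c (I.pos (nat_lit 0) (nat_lit 0)) T1.l2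
  (TrL.c (I.pos (nat_lit 0) (nat_lit 0)) T1.l3
  (TrL.c (I.pos (nat_lit 0) (nat_lit 0)) T1.l9
  (TrL.c (I.pos (nat_lit 0) (nat_lit 0)) T1.l5
  (TrL.c (I.pos (nat_lit 0) (nat_lit 0)) T1.l6
  (TrL.c (I.pos (nat_lit 0) (nat_lit 0)) T1.l7
  TrL.n)))))))) (by decide +kernel)
theorem bx0_7 : BoxOK sI cl5 cl13 cl13 t1 t1 b0_7 :=
  box_mk (TrL.c (I.pos (nat_lit 0) (nat_lit 0)) T1.l8
  (TrL.c (I.pos (nat_lit 0) (nat_lit 0)) T1.l1
  (TrL.c (I.pos (nat_lit 0) (nat_lit 0)) T1.l2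
  (TrL.c (I.pos (nat_lit 0) (nat_lit 0)) T1.l3
  (TrL.c (I.pos (nat_lit 0) (nat_lit 0)) T1.l1
  (TrL.c (I.pos (nat_lit 0) (nat_lit 0)) T1.l5
  (TrL.c (I.pos (nat_lit 0) (nat_lit 0)) T1.l6
  (TrL.c (I.pos (nat_lit 0) (nat_lit 0)) T1.l7
  TrL.n)))))))) (by decide +kernel)
theorem bx0_8 : BoxOK sI cl5 cl13 cl13 t1 t1 b0_8 :=
  box_mk (TrL.c (I.pos (nat_lit 0) (nat_lit 0)) (xa T1.l0 (xb T1.l0 (xa T1.l0 T1.l0)))
  (TrL.c (I.pos (nat_lit 0) (nat_lit 0)) T1.l1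
  (TrL.c (I.pos (nat_lit 0) (nat_lit 0)) T1.l2
  (TrL.c (I.pos (nat_lit 0) (nat_lit 0)) T1.l3
  (TrL.c (I.pos (nat_lit 0) (nat_lit 0)) (xa T1.l4 T1.l4)
  (TrL.c (I.pos (nat_lit 0) (nat_lit 0)) T1.l5
  (TrL.c (I.pos (nat_lit 0) (nat_lit 0)) T1.l6
  (TrL.c (I.pos (nat_lit 0) (nat_lit 0)) T1.l7
  TrL.n)))))))) (by decide +kernel)
theorem bx0_9 : BoxOK sI cl5 cl13 cl13 t1 t1 b0_9 :=
  box_mk (TrL.c (I.pos (nat_lit 0) (nat_lit 0)) (xa (xb T1.l0 (xa T1.l0 T1.l0)) (xb T1.l4 T1.l4))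
  (TrL.c (I.pos (nat_lit 0) (nat_lit 0)) T1.l1
  (TrL.c (I.pos (nat_lit 0) (nat_lit 0)) T1.l2
  (TrL.c (I.pos (nat_lit 0) (nat_lit 0)) T1.l3
  (TrL.c (I.pos (nat_lit 0) (nat_lit 0)) (xb (xa T1.l4 T1.l4) (xa T1.l4 T1.l4))
  (TrL.c (I.pos (nat_lit 0) (nat_lit 0)) T1.l5
  (TrL.c (I.pos (nat_lit 0) (nat_lit 0)) T1.l6
  (TrL.c (I.pos (nat_lit 0) (nat_lit 0)) T1.l7
  TrL.n)))))))) (by decide +kernel)
theorem bx0_10 : BoxOK sI cl5 cl13 cl13 t1 t1 b0_10 :=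
  box_mk (TrL.c (I.pos (nat_lit 0) (nat_lit 0)) (xa (xb (xa T1.l14 T1.l14) T1.l14) (xa T1.l0 T1.l0))
  (TrL.c (I.pos (nat_lit 0) (nat_lit 0)) T1.l1
  (TrL.c (I.pos (nat_lit 0) (nat_lit 0)) T1.l2
  (TrL.c (I.pos (nat_lit 0) (nat_lit 0)) T1.l3
  (TrL.c (I.pos (nat_lit 0) (nat_lit 0)) (xa T1.l15 T1.l15)
  (TrL.c (I.pos (nat_lit 0) (nat_lit 0)) T1.l5
  (TrL.c (I.pos (nat_lit 0) (nat_lit 0)) T1.l6
  (TrL.c (I.pos (nat_lit 0) (nat_lit 0)) T1.l7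
  TrL.n)))))))) (by decide +kernel)
theorem bx0_11 : BoxOK sI cl5 cl13 cl13 t1 t1 b0_11 :=
  box_mk (TrL.c (I.pos (nat_lit 0) (nat_lit 0)) (xa (xa T1.l16 T1.l16) (xa T1.l16 T1.l20))
  (TrL.c (I.pos (nat_lit 0) (nat_lit 0)) (xa T1.l1 T1.l1)
  (TrL.c (I.pos (nat_lit 0) (nat_lit 0)) T1.l2
  (TrL.c (I.pos (nat_lit 0) (nat_lit 0)) T1.l3
  (TrL.c (I.pos (nat_lit 0) (nat_lit 0)) (xa T1.l17 T1.l17)
  (TrL.c (I.pos (nat_lit 0) (nat_lit 0)) T1.l5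
  (TrL.c (I.pos (nat_lit 0) (nat_lit 0)) T1.l6
  (TrL.c (I.pos (nat_lit 0) (nat_lit 0)) T1.l7
  TrL.n)))))))) (by decide +kernel)
theorem bx0_12 : BoxOK sI cl5 cl13 cl13 t1 t1 b0_12 :=
  box_mk (TrL.c (I.pos (nat_lit 0) (nat_lit 0)) (xb (xa (xb T1.l18 (xa T1.l18 T1.l18)) (xb (xa T1.l18 T1.l18) (xa T1.l18 T1.l18))) (xa (xb (xa T1.l18 T1.l18) (xa (xb T1.l18 T1.l18) (xs T1.l18 T1.l18))) (xb (xa T1.l18 (xb T1.l18 T1.l18)) (xa (xs T1.l18 T1.l18) (xs T1.l18 (xb T1.l18 T1.l18))))))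
  (TrL.c (I.pos (nat_lit 0) (nat_lit 0)) (xb T1.l1 (xa T1.l1 T1.l1))
  (TrL.c (I.pos (nat_lit 0) (nat_lit 0)) T1.l2
  (TrL.c (I.pos (nat_lit 0) (nat_lit 0)) T1.l3
  (TrL.c (I.pos (nat_lit 0) (nat_lit 0)) (xb T1.l19 (xa T1.l19 T1.l19))
  (TrL.c (I.pos (nat_lit 0) (nat_lit 0)) T1.l5
  (TrL.c (I.pos (nat_lit 0) (nat_lit 0)) T1.l6
  (TrL.c (I.pos (nat_lit 0) (nat_lit 0)) T1.l7
  TrL.n)))))))) (by decide +kernel)
theorem bx0_13 : BoxOK sI cl5 cl13 cl13 t1 t1 b0_13 :=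
  box_mk (TrL.c (I.pos (nat_lit 0) (nat_lit 0)) (xa (xa (xb T1.l20 T1.l20) T1.l20) (xa (xb T1.l20 T1.l20) (xb T1.l20 (xa T1.l20 T1.l20))))
  (TrL.c (I.pos (nat_lit 0) (nat_lit 0)) (xa T1.l1 T1.l1)
  (TrL.c (I.pos (nat_lit 0) (nat_lit 0)) T1.l2
  (TrL.c (I.pos (nat_lit 0) (nat_lit 0)) T1.l3
  (TrL.c (I.pos (nat_lit 0) (nat_lit 0)) (xa T1.l21 T1.l21)
  (TrL.c (I.pos (nat_lit 0) (nat_lit 0)) T1.l5
  (TrL.c (I.pos (nat_lit 0) (nat_lit 0)) T1.l6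
  (TrL.c (I.pos (nat_lit 0) (nat_lit 0)) T1.l7
  TrL.n)))))))) (by decide +kernel)
theorem bx0_14 : BoxOK sI cl5 cl13 cl13 t1 t1 b0_14 :=
  box_mk (TrL.c (I.pos (nat_lit 0) (nat_lit 0)) (xb T1.l0 T1.l0)
  (TrL.c (I.pos (nat_lit 0) (nat_lit 0)) T1.l1
  (TrL.c (I.pos (nat_lit 0) (nat_lit 0)) T1.l2
  (TrL.c (I.pos (nat_lit 0) (nat_lit 0)) T1.l3
  (TrL.c (I.pos (nat_lit 0) (nat_lit 0)) T1.l19
  (TrL.c (I.pos (nat_lit 0) (nat_lit 0)) T1.l5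
  (TrL.c (I.pos (nat_lit 0) (nat_lit 0)) T1.l6
  (TrL.c (I.pos (nat_lit 0) (nat_lit 0)) T1.l7
  TrL.n)))))))) (by decide +kernel)
theorem bx0_15 : BoxOK sI cl5 cl13 cl13 t1 t1 b0_15 :=
  box_mk (TrL.c (I.pos (nat_lit 0) (nat_lit 0)) T1.l0
  (TrL.c (I.pos (nat_lit 0) (nat_lit 0)) T1.l1
  (TrL.c (I.pos (nat_lit 0) (nat_lit 0)) T1.l2
  (TrL.c (I.pos (nat_lit 0) (nat_lit 0)) T1.l3
  (TrL.c (I.pos (nat_lit 0) (nat_lit 0)) T1.l19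
  (TrL.c (I.pos (nat_lit 0) (nat_lit 0)) T1.l5
  (TrL.c (I.pos (nat_lit 0) (nat_lit 0)) T1.l6
  (TrL.c (I.pos (nat_lit 0) (nat_lit 0)) T1.l7
  TrL.n)))))))) (by decide +kernel)
theorem bx0_16 : BoxOK sI cl5 cl13 cl13 t1 t1 b0_16 :=
  box_mk (TrL.c (I.pos (nat_lit 0) (nat_lit 0)) (xb (xa (xa T1.l18 T1.l18) (xa T1.l18 T1.l18)) (xa (xa T1.l18 T1.l18) (xa T1.l18 (xb T1.l18 T1.l18))))
  (TrL.c (I.pos (nat_lit 0) (nat_lit 0)) (xb T1.l1 T1.l1)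
  (TrL.c (I.pos (nat_lit 0) (nat_lit 0)) T1.l2
  (TrL.c (I.pos (nat_lit 0) (nat_lit 0)) T1.l3
  (TrL.c (I.pos (nat_lit 0) (nat_lit 0)) (xb T1.l19 T1.l19)
  (TrL.c (I.pos (nat_lit 0) (nat_lit 0)) T1.l5
  (TrL.c (I.pos (nat_lit 0) (nat_lit 0)) T1.l6
  (TrL.c (I.pos (nat_lit 0) (nat_lit 0)) T1.l7
  TrL.n)))))))) (by decide +kernel)
theorem bx0_17 : BoxOK sI cl5 cl13 cl13 t1 t1 b0_17 :=
  box_mk (TrL.c (I.pos (nat_lit 0) (nat_lit 0)) (xa (xb T1.l0 T1.l0) T1.l0)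
  (TrL.c (I.pos (nat_lit 0) (nat_lit 0)) T1.l1
  (TrL.c (I.pos (nat_lit 0) (nat_lit 0)) T1.l2
  (TrL.c (I.pos (nat_lit 0) (nat_lit 0)) T1.l3
  (TrL.c (I.pos (nat_lit 0) (nat_lit 0)) T1.l19
  (TrL.c (I.pos (nat_lit 0) (nat_lit 0)) T1.l5
  (TrL.c (I.pos (nat_lit 0) (nat_lit 0)) T1.l6
  (TrL.c (I.pos (nat_lit 0) (nat_lit 0)) T1.l7
  TrL.n)))))))) (by decide +kernel)
theorem bx0_18 : BoxOK sI cl5 cl13 cl13 t1 t1 b0_18 :=
  box_mk (TrL.c (I.pos (nat_lit 0) (nat_lit 0)) (xb (xa T1.l18 T1.l18) T1.l18)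
  (TrL.c (I.pos (nat_lit 0) (nat_lit 0)) T1.l1
  (TrL.c (I.pos (nat_lit 0) (nat_lit 0)) T1.l2
  (TrL.c (I.pos (nat_lit 0) (nat_lit 0)) T1.l3
  (TrL.c (I.pos (nat_lit 0) (nat_lit 0)) T1.l19
  (TrL.c (I.pos (nat_lit 0) (nat_lit 0)) T1.l5
  (TrL.c (I.pos (nat_lit 0) (nat_lit 0)) T1.l6
  (TrL.c (I.pos (nat_lit 0) (nat_lit 0)) T1.l7
  TrL.n)))))))) (by decide +kernel)
theorem bx0_19 : BoxOK sI cl5 cl13 cl13 t1 t1 b0_19 :=
  box_mk (TrL.c (I.pos (nat_lit 0) (nat_lit 0)) (xa (xb (xa T1.l0 T1.l0) (xa T1.l18 (xb T1.l0 (xs T1.l0 T1.l0)))) (xb (xa T1.l0 (xb T1.l0 T1.l0)) (xa (xb T1.l0 (xs T1.l0 T1.l0)) (xb T1.l0 (xs T1.l0 T1.l0)))))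
  (TrL.c (I.pos (nat_lit 0) (nat_lit 0)) (xa T1.l1 T1.l1)
  (TrL.c (I.pos (nat_lit 0) (nat_lit 0)) T1.l2
  (TrL.c (I.pos (nat_lit 0) (nat_lit 0)) T1.l3
  (TrL.c (I.pos (nat_lit 0) (nat_lit 0)) (xb T1.l4 (xa T1.l4 T1.l4))
  (TrL.c (I.pos (nat_lit 0) (nat_lit 0)) T1.l5
  (TrL.c (I.pos (nat_lit 0) (nat_lit 0)) T1.l6
  (TrL.c (I.pos (nat_lit 0) (nat_lit 0)) T1.l7
  TrL.n)))))))) (by decide +kernel)
theorem bx0_20 : BoxOK sI cl5 cl13 cl13 t1 t1 b0_20 :=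
  box_mk (TrL.c (I.pos (nat_lit 0) (nat_lit 0)) T1.l0
  (TrL.c (I.pos (nat_lit 0) (nat_lit 0)) T1.l1
  (TrL.c (I.pos (nat_lit 0) (nat_lit 0)) T1.l2
  (TrL.c (I.pos (nat_lit 0) (nat_lit 0)) T1.l3
  (TrL.c (I.pos (nat_lit 0) (nat_lit 0)) T1.l19
  (TrL.c (I.pos (nat_lit 0) (nat_lit 0)) T1.l5
  (TrL.c (I.pos (nat_lit 0) (nat_lit 0)) T1.l6
  (TrL.c (I.pos (nat_lit 0) (nat_lit 0)) T1.l7
  TrL.n)))))))) (by decide +kernel)
theorem bx0_21 : BoxOK sI cl5 cl13 cl13 t1 t1 b0_21 :=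
  box_mk (TrL.c (I.pos (nat_lit 0) (nat_lit 0)) T1.l18
  (TrL.c (I.pos (nat_lit 0) (nat_lit 0)) T1.l1
  (TrL.c (I.pos (nat_lit 0) (nat_lit 0)) T1.l2
  (TrL.c (I.pos (nat_lit 0) (nat_lit 0)) T1.l3
  (TrL.c (I.pos (nat_lit 0) (nat_lit 0)) T1.l19
  (TrL.c (I.pos (nat_lit 0) (nat_lit 0)) T1.l5
  (TrL.c (I.pos (nat_lit 0) (nat_lit 0)) T1.l6
  (TrL.c (I.pos (nat_lit 0) (nat_lit 0)) T1.l7
  TrL.n)))))))) (by decide +kernel)
theorem bx0_22 : BoxOK sI cl5 cl13 cl13 t1 t1 b0_22 :=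
  box_mk (TrL.c (I.pos (nat_lit 0) (nat_lit 0)) T1.l0
  (TrL.c (I.pos (nat_lit 0) (nat_lit 0)) T1.l1
  (TrL.c (I.pos (nat_lit 0) (nat_lit 0)) T1.l2
  (TrL.c (I.pos (nat_lit 0) (nat_lit 0)) T1.l3
  (TrL.c (I.pos (nat_lit 0) (nat_lit 0)) T1.l19
  (TrL.c (I.pos (nat_lit 0) (nat_lit 0)) T1.l5
  (TrL.c (I.pos (nat_lit 0) (nat_lit 0)) T1.l6
  (TrL.c (I.pos (nat_lit 0) (nat_lit 0)) T1.l7
  TrL.n)))))))) (by decide +kernel)
theorem sv0 : StarV sI cl5 cl13 cl13 t1 t1 t0 :=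
  (bt_n (bt_n (bt_n (bt_n (bt_b bx0_0) (bt_b bx0_1)) (bt_n (bt_b bx0_2) (bt_n (bt_b bx0_3) (bt_b bx0_4)))) (bt_n (bt_n (bt_b bx0_5) (bt_n (bt_b bx0_6) (bt_b bx0_7))) (bt_n (bt_b bx0_8) (bt_n (bt_b bx0_9) (bt_b bx0_10))))) (bt_n (bt_n (bt_n (bt_b bx0_11) (bt_n (bt_b bx0_12) (bt_b bx0_13))) (bt_n (bt_b bx0_14) (bt_n (bt_b bx0_15) (bt_b bx0_16)))) (bt_n (bt_n (bt_b bx0_17) (bt_n (bt_b bx0_18) (bt_b bx0_19))) (bt_n (bt_b bx0_20) (bt_n (bt_b bx0_21) (bt_b bx0_22))))))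
def S0 : StarD := StarD.mk cl5 cl13 cl13 1 1 t0
theorem bx1_0 : BoxOK sI cl13 cl5 cl13 t0 t2 b1_0 :=
  box_mk (TrL.c (I.pos (nat_lit 0) (nat_lit 0)) (xa (xb T0.l0 (xa (xb T0.l0 T0.l0) (xb T0.l0 T0.l0))) (xb T0.l0 (xa (xb T0.l0 (xs T0.l0 T0.l0)) (xb T0.l0 (xs T0.l0 T0.l0)))))
  (TrL.c (I.pos (nat_lit 0) (nat_lit 0)) (xk (xa T2.l1 T2.l1) (xb T2.l1 T2.l1))
  (TrL.c (I.pos (nat_lit 0) (nat_lit 134217730)) (xR T0.l1 (xR T0.l1 T0.l13))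
  (TrL.c (I.pos (nat_lit 0) (nat_lit 110514882)) (xR T2.l2 (xR T2.l2 (xR T2.l2 T2.l2)))
  (TrL.c (I.pos (nat_lit 0) (nat_lit 0)) (xb (xk T2.l3 T2.l3) (xk (xa T2.l3 T2.l3) (xa T2.l3 T2.l3)))
  (TrL.c (I.pos (nat_lit 0) (nat_lit 0)) T0.l2
  (TrL.c (I.mix (nat_lit 8088324) (nat_lit 110514882)) (xR T2.l4 (xR T2.l4 (xR T2.l4 T2.l4)))
  (TrL.c (I.mix (nat_lit 8088324) (nat_lit 89478486)) (xR T0.l3 (xR T0.l3 T0.l11))
  TrL.n)))))))) (by decide +kernel)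
theorem bx1_1 : BoxOK sI cl13 cl5 cl13 t0 t2 b1_1 :=
  box_mk (TrL.c (I.pos (nat_lit 0) (nat_lit 0)) (xa (xb T0.l4 T0.l8) (xb T0.l4 T0.l4))
  (TrL.c (I.pos (nat_lit 0) (nat_lit 0)) (xa T2.l1 T2.l1)
  (TrL.c (I.pos (nat_lit 0) (nat_lit 134217730)) (xR T0.l1 T0.l13)
  (TrL.c (I.pos (nat_lit 0) (nat_lit 110514882)) (xR T2.l2 (xR T2.l2 T2.l2))
  (TrL.c (I.pos (nat_lit 0) (nat_lit 0)) (xa T2.l5 (xk T2.l5 T2.l5))
  (TrL.c (I.pos (nat_lit 0) (nat_lit 0)) T0.l2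
  (TrL.c (I.mix (nat_lit 8088324) (nat_lit 110514882)) (xR T2.l4 (xR T2.l4 (xR T2.l4 T2.l4)))
  (TrL.c (I.mix (nat_lit 8088324) (nat_lit 89478486)) T0.l11
  TrL.n)))))))) (by decide +kernel)
theorem bx1_2 : BoxOK sI cl13 cl5 cl13 t0 t2 b1_2 :=
  box_mk (TrL.c (I.pos (nat_lit 0) (nat_lit 0)) (xb T0.l5 T0.l5)
  (TrL.c (I.pos (nat_lit 0) (nat_lit 0)) T2.l1
  (TrL.c (I.pos (nat_lit 0) (nat_lit 134217730)) (xR T0.l1 T0.l1)
  (TrL.c (I.pos (nat_lit 0) (nat_lit 110514882)) (xR T2.l2 (xR T2.l2 T2.l2))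
  (TrL.c (I.pos (nat_lit 0) (nat_lit 0)) T2.l6
  (TrL.c (I.pos (nat_lit 0) (nat_lit 0)) T0.l2
  (TrL.c (I.mix (nat_lit 8088324) (nat_lit 110514882)) T2.l4
  (TrL.c (I.mix (nat_lit 8088324) (nat_lit 89478486)) T0.l3
  TrL.n)))))))) (by decide +kernel)
theorem bx1_3 : BoxOK sI cl13 cl5 cl13 t0 t2 b1_3 :=
  box_mk (TrL.c (I.pos (nat_lit 0) (nat_lit 0)) T2.l19
  (TrL.c (I.pos (nat_lit 0) (nat_lit 0)) T0.l1
  (TrL.c (I.mix (nat_lit 8088324) (nat_lit 110514882)) (xR T2.l7 (xR T2.l7 (xR T2.l7 T2.l7)))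
  (TrL.c (I.mix (nat_lit 8088324) (nat_lit 89478486)) T0.l13
  TrL.n)))) (by decide +kernel)
theorem bx1_4 : BoxOK sI cl13 cl5 cl13 t0 t2 b1_4 :=
  box_mk (TrL.c (I.pos (nat_lit 0) (nat_lit 0)) (xb (xa T0.l19 (xb T0.l19 T0.l19)) (xa (xb T0.l19 (xa T0.l19 T0.l19)) (xb (xa T0.l19 T0.l19) (xa T0.l19 T0.l19))))
  (TrL.c (I.pos (nat_lit 0) (nat_lit 0)) (xk T2.l1 T2.l1)
  (TrL.c (I.pos (nat_lit 0) (nat_lit 134217730)) (xR T0.l1 (xR T0.l1 T0.l13))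
  (TrL.c (I.pos (nat_lit 0) (nat_lit 110514882)) (xR T2.l2 (xR T2.l2 (xR T2.l2 T2.l2)))
  (TrL.c (I.pos (nat_lit 0) (nat_lit 0)) (xk T2.l20 T2.l20)
  (TrL.c (I.pos (nat_lit 0) (nat_lit 0)) T0.l2
  (TrL.c (I.mix (nat_lit 8088324) (nat_lit 110514882)) (xR T2.l4 (xR T2.l4 (xR T2.l4 T2.l4)))
  (TrL.c (I.mix (nat_lit 8088324) (nat_lit 89478486)) (xR T0.l3 T0.l11)
  TrL.n)))))))) (by decide +kernel)
theorem bx1_5 : BoxOK sI cl13 cl5 cl13 t0 t2 b1_5 :=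
  box_mk (TrL.c (I.pos (nat_lit 0) (nat_lit 0)) (xb T0.l8 T0.l8)
  (TrL.c (I.pos (nat_lit 0) (nat_lit 0)) T2.l1
  (TrL.c (I.pos (nat_lit 0) (nat_lit 134217730)) (xR T0.l1 T0.l13)
  (TrL.c (I.pos (nat_lit 0) (nat_lit 110514882)) (xR T2.l2 (xR T2.l2 (xR T2.l2 T2.l2)))
  (TrL.c (I.pos (nat_lit 0) (nat_lit 0)) T2.l8
  (TrL.c (I.pos (nat_lit 0) (nat_lit 0)) T0.l2
  (TrL.c (I.mix (nat_lit 8088324) (nat_lit 110514882)) T2.l4
  (TrL.c (I.mix (nat_lit 8088324) (nat_lit 89478486)) T0.l11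
  TrL.n)))))))) (by decide +kernel)
theorem bx1_6 : BoxOK sI cl13 cl5 cl13 t0 t2 b1_6 :=
  box_mk (TrL.c (I.pos (nat_lit 0) (nat_lit 0)) T0.l9
  (TrL.c (I.pos (nat_lit 0) (nat_lit 0)) T2.l19
  (TrL.c (I.pos (nat_lit 0) (nat_lit 134217730)) T0.l1
  (TrL.c (I.pos (nat_lit 0) (nat_lit 110514882)) (xR T2.l2 (xR T2.l2 (xR T2.l2 T2.l7)))
  (TrL.c (I.pos (nat_lit 0) (nat_lit 0)) T2.l9
  (TrL.c (I.pos (nat_lit 0) (nat_lit 0)) T0.l2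
  (TrL.c (I.mix (nat_lit 8088324) (nat_lit 110514882)) T2.l4
  (TrL.c (I.mix (nat_lit 8088324) (nat_lit 89478486)) T0.l3
  TrL.n)))))))) (by decide +kernel)
theorem bx1_7 : BoxOK sI cl13 cl5 cl13 t0 t2 b1_7 :=
  box_mk (TrL.c (I.pos (nat_lit 0) (nat_lit 0)) T2.l1
  (TrL.c (I.pos (nat_lit 0) (nat_lit 0)) T0.l1
  (TrL.c (I.mix (nat_lit 8088324) (nat_lit 110514882)) (xR T2.l7 (xR T2.l7 T2.l2))
  (TrL.c (I.mix (nat_lit 8088324) (nat_lit 89478486)) T0.l13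
  TrL.n)))) (by decide +kernel)
theorem bx1_8 : BoxOK sI cl13 cl5 cl13 t0 t2 b1_8 :=
  box_mk (TrL.c (I.pos (nat_lit 0) (nat_lit 0)) (xa T0.l0 (xb T0.l0 T0.l0))
  (TrL.c (I.pos (nat_lit 0) (nat_lit 0)) (xa T2.l1 (xk T2.l1 T2.l1))
  (TrL.c (I.pos (nat_lit 0) (nat_lit 134217730)) (xR T0.l13 T0.l13)
  (TrL.c (I.pos (nat_lit 0) (nat_lit 110514882)) (xR T2.l7 (xR T2.l2 (xR T2.l2 T2.l2)))
  (TrL.c (I.pos (nat_lit 0) (nat_lit 0)) (xa (xk T2.l3 T2.l3) (xk (xb T2.l3 T2.l3) (xb T2.l3 T2.l3)))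
  (TrL.c (I.pos (nat_lit 0) (nat_lit 0)) (xk T0.l2 T0.l2)
  (TrL.c (I.mix (nat_lit 8088324) (nat_lit 110514882)) (xR T2.l4 (xR T2.l4 (xR T2.l4 (xR T2.l4 T2.l4))))
  (TrL.c (I.mix (nat_lit 8088324) (nat_lit 89478486)) (xR T0.l3 T0.l3)
  TrL.n)))))))) (by decide +kernel)
theorem bx1_9 : BoxOK sI cl13 cl5 cl13 t0 t2 b1_9 :=
  box_mk (TrL.c (I.pos (nat_lit 0) (nat_lit 0)) (xb T0.l19 T0.l19)
  (TrL.c (I.pos (nat_lit 0) (nat_lit 0)) T2.l1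
  (TrL.c (I.pos (nat_lit 0) (nat_lit 134217730)) (xR T0.l1 T0.l1)
  (TrL.c (I.pos (nat_lit 0) (nat_lit 110514882)) (xR T2.l2 T2.l2)
  (TrL.c (I.pos (nat_lit 0) (nat_lit 0)) T2.l20
  (TrL.c (I.pos (nat_lit 0) (nat_lit 0)) T0.l2
  (TrL.c (I.mix (nat_lit 8088324) (nat_lit 110514882)) T2.l4
  (TrL.c (I.mix (nat_lit 8088324) (nat_lit 89478486)) T0.l3
  TrL.n)))))))) (by decide +kernel)
theorem bx1_10 : BoxOK sI cl13 cl5 cl13 t0 t2 b1_10 :=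
  box_mk (TrL.c (I.pos (nat_lit 0) (nat_lit 0)) T0.l0
  (TrL.c (I.pos (nat_lit 0) (nat_lit 0)) T2.l1
  (TrL.c (I.pos (nat_lit 0) (nat_lit 134217730)) (xR T0.l1 T0.l13)
  (TrL.c (I.pos (nat_lit 0) (nat_lit 110514882)) (xR T2.l2 T2.l2)
  (TrL.c (I.pos (nat_lit 0) (nat_lit 0)) T2.l3
  (TrL.c (I.pos (nat_lit 0) (nat_lit 0)) T0.l2
  (TrL.c (I.mix (nat_lit 8088324) (nat_lit 110514882)) (xR T2.l4 T2.l4)
  (TrL.c (I.mix (nat_lit 8088324) (nat_lit 89478486)) T0.l3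
  TrL.n)))))))) (by decide +kernel)
theorem bx1_11 : BoxOK sI cl13 cl5 cl13 t0 t2 b1_11 :=
  box_mk (TrL.c (I.pos (nat_lit 0) (nat_lit 0)) T0.l19
  (TrL.c (I.pos (nat_lit 0) (nat_lit 0)) T2.l1
  (TrL.c (I.pos (nat_lit 0) (nat_lit 134217730)) (xR T0.l1 T0.l1)
  (TrL.c (I.pos (nat_lit 0) (nat_lit 110514882)) (xR T2.l2 T2.l2)
  (TrL.c (I.pos (nat_lit 0) (nat_lit 0)) T2.l20
  (TrL.c (I.pos (nat_lit 0) (nat_lit 0)) T0.l2
  (TrL.c (I.mix (nat_lit 8088324) (nat_lit 110514882)) T2.l4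
  (TrL.c (I.mix (nat_lit 8088324) (nat_lit 89478486)) T0.l3
  TrL.n)))))))) (by decide +kernel)
theorem bx1_12 : BoxOK sI cl13 cl5 cl13 t0 t2 b1_12 :=
  box_mk (TrL.c (I.pos (nat_lit 0) (nat_lit 0)) T0.l0
  (TrL.c (I.pos (nat_lit 0) (nat_lit 0)) T2.l1
  (TrL.c (I.pos (nat_lit 0) (nat_lit 134217730)) (xR T0.l13 T0.l13)
  (TrL.c (I.pos (nat_lit 0) (nat_lit 110514882)) (xR T2.l4 T2.l2)
  (TrL.c (I.pos (nat_lit 0) (nat_lit 0)) (xk T2.l3 T2.l3)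
  (TrL.c (I.pos (nat_lit 0) (nat_lit 0)) T0.l2
  (TrL.c (I.mix (nat_lit 8088324) (nat_lit 110514882)) (xR T2.l4 (xR T2.l4 (xR T2.l4 T2.l4)))
  (TrL.c (I.mix (nat_lit 8088324) (nat_lit 89478486)) T0.l11
  TrL.n)))))))) (by decide +kernel)
theorem bx1_13 : BoxOK sI cl13 cl5 cl13 t0 t2 b1_13 :=
  box_mk (TrL.c (I.pos (nat_lit 0) (nat_lit 0)) T0.l0
  (TrL.c (I.pos (nat_lit 0) (nat_lit 0)) T2.l1
  (TrL.c (I.pos (nat_lit 0) (nat_lit 134217730)) (xR T0.l1 T0.l1)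
  (TrL.c (I.pos (nat_lit 0) (nat_lit 110514882)) (xR T2.l2 T2.l2)
  (TrL.c (I.pos (nat_lit 0) (nat_lit 0)) T2.l20
  (TrL.c (I.pos (nat_lit 0) (nat_lit 0)) T0.l2
  (TrL.c (I.mix (nat_lit 8088324) (nat_lit 110514882)) T2.l4
  (TrL.c (I.mix (nat_lit 8088324) (nat_lit 89478486)) T0.l3
  TrL.n)))))))) (by decide +kernel)
theorem bx1_14 : BoxOK sI cl13 cl5 cl13 t0 t2 b1_14 :=
  box_mk (TrL.c (I.pos (nat_lit 0) (nat_lit 0)) T0.l0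
  (TrL.c (I.pos (nat_lit 0) (nat_lit 0)) T2.l1
  (TrL.c (I.pos (nat_lit 0) (nat_lit 134217730)) (xR T0.l1 T0.l1)
  (TrL.c (I.pos (nat_lit 0) (nat_lit 110514882)) (xR T2.l2 T2.l2)
  (TrL.c (I.pos (nat_lit 0) (nat_lit 0)) T2.l3
  (TrL.c (I.pos (nat_lit 0) (nat_lit 0)) T0.l2
  (TrL.c (I.mix (nat_lit 8088324) (nat_lit 110514882)) (xR T2.l4 T2.l4)
  (TrL.c (I.mix (nat_lit 8088324) (nat_lit 89478486)) T0.l3
  TrL.n)))))))) (by decide +kernel)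
theorem bx1_15 : BoxOK sI cl13 cl5 cl13 t0 t2 b1_15 :=
  box_mk (TrL.c (I.pos (nat_lit 0) (nat_lit 0)) T0.l0
  (TrL.c (I.pos (nat_lit 0) (nat_lit 0)) T2.l1
  (TrL.c (I.pos (nat_lit 0) (nat_lit 134217730)) (xR T0.l1 T0.l1)
  (TrL.c (I.pos (nat_lit 0) (nat_lit 110514882)) (xR T2.l2 T2.l2)
  (TrL.c (I.pos (nat_lit 0) (nat_lit 0)) T2.l20
  (TrL.c (I.pos (nat_lit 0) (nat_lit 0)) T0.l2
  (TrL.c (I.mix (nat_lit 8088324) (nat_lit 110514882)) T2.l4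
  (TrL.c (I.mix (nat_lit 8088324) (nat_lit 89478486)) T0.l3
  TrL.n)))))))) (by decide +kernel)
theorem bx1_16 : BoxOK sI cl13 cl5 cl13 t0 t2 b1_16 :=
  box_mk (TrL.c (I.pos (nat_lit 0) (nat_lit 0)) (xa T0.l0 T0.l0)
  (TrL.c (I.pos (nat_lit 0) (nat_lit 0)) (xk T2.l1 T2.l1)
  (TrL.c (I.pos (nat_lit 0) (nat_lit 134217730)) (xR T0.l13 T0.l13)
  (TrL.c (I.pos (nat_lit 0) (nat_lit 110514882)) (xR T2.l7 (xR T2.l2 T2.l2))
  (TrL.c (I.pos (nat_lit 0) (nat_lit 0)) (xk (xa T2.l3 (xb T2.l3 T2.l3)) (xa T2.l3 T2.l3))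
  (TrL.c (I.pos (nat_lit 0) (nat_lit 0)) (xk T0.l2 T0.l2)
  (TrL.c (I.mix (nat_lit 8088324) (nat_lit 110514882)) (xR T2.l4 (xR T2.l4 (xR T2.l4 T2.l4)))
  (TrL.c (I.mix (nat_lit 8088324) (nat_lit 89478486)) (xR T0.l3 T0.l3)
  TrL.n)))))))) (by decide +kernel)
theorem bx1_17 : BoxOK sI cl13 cl5 cl13 t0 t2 b1_17 :=
  box_mk (TrL.c (I.pos (nat_lit 0) (nat_lit 0)) (xb T0.l19 T0.l19)
  (TrL.c (I.pos (nat_lit 0) (nat_lit 0)) T2.l1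
  (TrL.c (I.pos (nat_lit 0) (nat_lit 134217730)) (xR T0.l1 T0.l1)
  (TrL.c (I.pos (nat_lit 0) (nat_lit 110514882)) (xR T2.l2 T2.l2)
  (TrL.c (I.pos (nat_lit 0) (nat_lit 0)) T2.l20
  (TrL.c (I.pos (nat_lit 0) (nat_lit 0)) T0.l2
  (TrL.c (I.mix (nat_lit 8088324) (nat_lit 110514882)) T2.l4
  (TrL.c (I.mix (nat_lit 8088324) (nat_lit 89478486)) T0.l3
  TrL.n)))))))) (by decide +kernel)
theorem bx1_18 : BoxOK sI cl13 cl5 cl13 t0 t2 b1_18 :=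
  box_mk (TrL.c (I.pos (nat_lit 0) (nat_lit 0)) (xa (xb (xa T0.l0 T0.l0) (xa T0.l0 T0.l0)) (xb T0.l0 (xa T0.l0 T0.l0)))
  (TrL.c (I.pos (nat_lit 0) (nat_lit 0)) (xk T2.l1 T2.l1)
  (TrL.c (I.pos (nat_lit 0) (nat_lit 134217730)) (xR T0.l1 (xR T0.l1 T0.l13))
  (TrL.c (I.pos (nat_lit 0) (nat_lit 110514882)) (xR T2.l2 (xR T2.l2 (xR T2.l2 T2.l2)))
  (TrL.c (I.pos (nat_lit 0) (nat_lit 0)) (xk (xb T2.l3 (xa T2.l3 (xs T2.l3 T2.l3))) (xa T2.l3 (xb T2.l3 (xs T2.l3 (xb T2.l3 T2.l3)))))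
  (TrL.c (I.pos (nat_lit 0) (nat_lit 0)) T0.l2
  (TrL.c (I.mix (nat_lit 8088324) (nat_lit 110514882)) (xR T2.l4 (xR T2.l4 (xR T2.l4 T2.l4)))
  (TrL.c (I.mix (nat_lit 8088324) (nat_lit 89478486)) (xR T0.l3 T0.l11)
  TrL.n)))))))) (by decide +kernel)
theorem bx1_19 : BoxOK sI cl13 cl5 cl13 t0 t2 b1_19 :=
  box_mk (TrL.c (I.pos (nat_lit 0) (nat_lit 0)) (xa (xb T0.l19 T0.l19) (xb T0.l19 (xb T0.l19 T0.l19)))
  (TrL.c (I.pos (nat_lit 0) (nat_lit 0)) (xk T2.l1 T2.l1)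
  (TrL.c (I.pos (nat_lit 0) (nat_lit 134217730)) (xR T0.l1 (xR T0.l1 T0.l13))
  (TrL.c (I.pos (nat_lit 0) (nat_lit 110514882)) (xR T2.l2 (xR T2.l2 (xR T2.l2 T2.l2)))
  (TrL.c (I.pos (nat_lit 0) (nat_lit 0)) (xk (xb T2.l20 (xa T2.l3 T2.l3)) (xb T2.l20 (xa T2.l3 (xb T2.l3 (xs T2.l3 T2.l3)))))
  (TrL.c (I.pos (nat_lit 0) (nat_lit 0)) T0.l2
  (TrL.c (I.mix (nat_lit 8088324) (nat_lit 110514882)) (xR T2.l4 (xR T2.l4 (xR T2.l4 T2.l4)))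
  (TrL.c (I.mix (nat_lit 8088324) (nat_lit 89478486)) (xR T0.l3 T0.l11)
  TrL.n)))))))) (by decide +kernel)
theorem bx1_20 : BoxOK sI cl13 cl5 cl13 t0 t2 b1_20 :=
  box_mk (TrL.c (I.pos (nat_lit 0) (nat_lit 0)) (xa (xb T0.l0 (xa T0.l0 T0.l0)) (xb T0.l0 (xa T0.l0 (xb T0.l0 T0.l0))))
  (TrL.c (I.pos (nat_lit 0) (nat_lit 0)) (xa (xk T2.l1 T2.l1) (xk T2.l11 T2.l1))
  (TrL.c (I.pos (nat_lit 0) (nat_lit 134217730)) (xR T0.l13 T0.l13)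
  (TrL.c (I.pos (nat_lit 0) (nat_lit 110514882)) (xR T2.l7 (xR T2.l2 (xR T2.l2 T2.l2)))
  (TrL.c (I.pos (nat_lit 0) (nat_lit 0)) (xa (xk (xb T2.l3 T2.l3) (xb T2.l3 T2.l3)) (xb (xk (xa T2.l3 T2.l3) (xa T2.l3 T2.l3)) (xk (xa T2.l3 T2.l3) (xa T2.l3 (xb T2.l3 T2.l3)))))
  (TrL.c (I.pos (nat_lit 0) (nat_lit 0)) (xk T0.l2 T0.l2)
  (TrL.c (I.mix (nat_lit 8088324) (nat_lit 110514882)) (xR T2.l4 (xR T2.l4 (xR T2.l4 (xk (xR T2.l4 T2.l4) T2.l4))))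
  (TrL.c (I.mix (nat_lit 8088324) (nat_lit 89478486)) (xR T0.l3 (xR T0.l3 (xR T0.l3 T0.l3)))
  TrL.n)))))))) (by decide +kernel)
theorem bx1_21 : BoxOK sI cl13 cl5 cl13 t0 t2 b1_21 :=
  box_mk (TrL.c (I.pos (nat_lit 0) (nat_lit 0)) (xb T0.l0 (xa T0.l19 T0.l19))
  (TrL.c (I.pos (nat_lit 0) (nat_lit 0)) T2.l1
  (TrL.c (I.pos (nat_lit 0) (nat_lit 134217730)) (xR T0.l1 T0.l1)
  (TrL.c (I.pos (nat_lit 0) (nat_lit 110514882)) (xR T2.l2 T2.l2)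
  (TrL.c (I.pos (nat_lit 0) (nat_lit 0)) (xk T2.l20 T2.l20)
  (TrL.c (I.pos (nat_lit 0) (nat_lit 0)) T0.l2
  (TrL.c (I.mix (nat_lit 8088324) (nat_lit 110514882)) T2.l4
  (TrL.c (I.mix (nat_lit 8088324) (nat_lit 89478486)) T0.l3
  TrL.n)))))))) (by decide +kernel)
theorem sv1 : StarV sI cl13 cl5 cl13 t0 t2 t1 :=
  (bt_n (bt_n (bt_n (bt_n (bt_b bx1_0) (bt_b bx1_1)) (bt_n (bt_b bx1_2) (bt_n (bt_b bx1_3) (bt_b bx1_4)))) (bt_n (bt_n (bt_b bx1_5) (bt_n (bt_b bx1_6) (bt_b bx1_7))) (bt_n (bt_b bx1_8) (bt_n (bt_b bx1_9) (bt_b bx1_10))))) (bt_n (bt_n (bt_n (bt_b bx1_11) (bt_b bx1_12)) (bt_n (bt_b bx1_13) (bt_n (bt_b bx1_14) (bt_b bx1_15)))) (bt_n (bt_n (bt_b bx1_16) (bt_n (bt_b bx1_17) (bt_b bx1_18))) (bt_n (bt_b bx1_19) (bt_n (bt_b bx1_20) (bt_b bx1_21))))))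
def S1 : StarD := StarD.mk cl13 cl5 cl13 0 2 t1
theorem bx2_0 : BoxOK sI cl13 cl13 cl5 t2 t0 b2_0 :=
  box_mk (TrL.c (I.pos (nat_lit 0) (nat_lit 0)) (xa (xb (xa (xb T2.l0 T2.l0) (xb T2.l0 T2.l0)) (xa (xb (xa T2.l0 T2.l0) (xa (xc T2.l0 T2.l0) (xc T2.l0 T2.l0))) (xa (xb T2.l0 (xc T2.l0 T2.l0)) (xb T2.l0 (xs T2.l0 T2.l0))))) (xa (xb (xb T2.l0 T2.l0) (xa (xb T2.l0 (xs T2.l0 T2.l0)) (xb T2.l0 (xs T2.l0 T2.l0)))) (xb (xa T2.l0 T2.l0) (xs (xa T2.l0 T2.l0) (xa T2.l0 T2.l0)))))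
  (TrL.c (I.pos (nat_lit 0) (nat_lit 0)) (xa (xk (xb T0.l10 T0.l10) (xb T0.l10 T0.l10)) (xk (xb T0.l10 (xa T0.l10 T0.l10)) (xb T0.l10 T0.l10)))
  (TrL.c (I.pos (nat_lit 0) (nat_lit 134217730)) (xR T2.l4 (xR T2.l4 (xR T2.l10 (xa (xR T2.l10 T2.l10) T2.l4))))
  (TrL.c (I.pos (nat_lit 0) (nat_lit 110514882)) (xR T0.l13 (xR T0.l11 (xR T0.l11 (xR T0.l11 T0.l11))))
  (TrL.c (I.pos (nat_lit 0) (nat_lit 0)) (xa (xk T0.l12 (xb T0.l12 T0.l16)) (xk (xb T0.l12 (xb T0.l12 T0.l12)) (xb T0.l12 (xa (xb T0.l12 T0.l12) (xb T0.l12 T0.l12)))))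
  (TrL.c (I.pos (nat_lit 0) (nat_lit 0)) T2.l11
  (TrL.c (I.mix (nat_lit 8088324) (nat_lit 110514882)) (xR T0.l13 (xR T0.l13 (xR T0.l13 T0.l13)))
  (TrL.c (I.mix (nat_lit 8088324) (nat_lit 89478486)) (xR T2.l4 (xR T2.l13 T2.l13))
  TrL.n)))))))) (by decide +kernel)
theorem bx2_1 : BoxOK sI cl13 cl13 cl5 t2 t0 b2_1 :=
  box_mk (TrL.c (I.pos (nat_lit 0) (nat_lit 0)) (xa (xb T2.l18 T2.l18) (xb T2.l0 (xa T2.l0 T2.l0)))
  (TrL.c (I.pos (nat_lit 0) (nat_lit 0)) (xa T0.l10 T0.l10)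
  (TrL.c (I.pos (nat_lit 0) (nat_lit 134217730)) (xR T2.l4 (xR T2.l4 T2.l10))
  (TrL.c (I.pos (nat_lit 0) (nat_lit 110514882)) (xR T0.l11 (xR T0.l11 T0.l11))
  (TrL.c (I.pos (nat_lit 0) (nat_lit 0)) (xa (xk T0.l14 T0.l14) (xk T0.l14 T0.l14))
  (TrL.c (I.pos (nat_lit 0) (nat_lit 0)) T2.l11
  (TrL.c (I.mix (nat_lit 8088324) (nat_lit 110514882)) (xR T0.l13 T0.l13)
  (TrL.c (I.mix (nat_lit 8088324) (nat_lit 89478486)) (xR T2.l4 T2.l13)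
  TrL.n)))))))) (by decide +kernel)
theorem bx2_2 : BoxOK sI cl13 cl13 cl5 t2 t0 b2_2 :=
  box_mk (TrL.c (I.pos (nat_lit 0) (nat_lit 0)) (xa (xa T2.l14 T2.l14) (xa T2.l14 T2.l16))
  (TrL.c (I.pos (nat_lit 0) (nat_lit 0)) (xa T0.l10 T0.l10)
  (TrL.c (I.pos (nat_lit 0) (nat_lit 134217730)) (xR T2.l4 (xR T2.l4 T2.l10))
  (TrL.c (I.pos (nat_lit 0) (nat_lit 110514882)) (xR T0.l11 (xR T0.l11 (xR T0.l11 T0.l11)))
  (TrL.c (I.pos (nat_lit 0) (nat_lit 0)) (xa T0.l15 T0.l17)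
  (TrL.c (I.pos (nat_lit 0) (nat_lit 0)) T2.l11
  (TrL.c (I.mix (nat_lit 8088324) (nat_lit 110514882)) (xR T0.l13 T0.l13)
  (TrL.c (I.mix (nat_lit 8088324) (nat_lit 89478486)) T2.l4
  TrL.n)))))))) (by decide +kernel)
theorem bx2_3 : BoxOK sI cl13 cl13 cl5 t2 t0 b2_3 :=
  box_mk (TrL.c (I.pos (nat_lit 0) (nat_lit 0)) (xb (xa (xb (xa T2.l15 T2.l15) (xa T2.l15 T2.l15)) (xb (xa T2.l15 T2.l15) (xa T2.l15 T2.l15))) (xa (xb (xa (xs T2.l15 T2.l15) (xs T2.l15 T2.l15)) (xa (xs T2.l15 (xc T2.l15 T2.l15)) (xs T2.l15 (xc T2.l15 T2.l15)))) (xb (xa (xs T2.l15 T2.l15) (xs T2.l15 T2.l15)) (xa (xs T2.l15 (xc T2.l15 T2.l15)) (xs T2.l15 (xk T2.l15 T2.l15))))))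
  (TrL.c (I.pos (nat_lit 0) (nat_lit 0)) (xk (xb T0.l10 (xa T0.l10 T0.l10)) (xb T0.l10 (xa T0.l10 T0.l10)))
  (TrL.c (I.pos (nat_lit 0) (nat_lit 134217730)) (xR T2.l4 (xR T2.l4 (xR T2.l10 (xR T2.l10 T2.l10))))
  (TrL.c (I.pos (nat_lit 0) (nat_lit 110514882)) (xR T0.l13 (xR T0.l11 (xR T0.l11 T0.l11)))
  (TrL.c (I.pos (nat_lit 0) (nat_lit 0)) (xb (xk T0.l16 T0.l16) (xk (xb T0.l12 (xa T0.l12 T0.l12)) (xb (xa T0.l12 T0.l12) (xa T0.l12 (xa T0.l12 T0.l12)))))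
  (TrL.c (I.pos (nat_lit 0) (nat_lit 0)) T2.l11
  (TrL.c (I.mix (nat_lit 8088324) (nat_lit 110514882)) (xR T0.l13 (xR T0.l13 (xR T0.l13 T0.l13)))
  (TrL.c (I.mix (nat_lit 8088324) (nat_lit 89478486)) (xR T2.l4 (xR T2.l13 (xR T2.l13 T2.l13)))
  TrL.n)))))))) (by decide +kernel)
theorem bx2_4 : BoxOK sI cl13 cl13 cl5 t2 t0 b2_4 :=
  box_mk (TrL.c (I.pos (nat_lit 0) (nat_lit 0)) (xa (xa T2.l16 T2.l16) (xa (xb T2.l16 T2.l16) (xb (xa T2.l16 T2.l16) (xa T2.l16 T2.l16))))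
  (TrL.c (I.pos (nat_lit 0) (nat_lit 0)) (xa (xa T0.l10 T0.l10) (xa T0.l10 T0.l10))
  (TrL.c (I.pos (nat_lit 0) (nat_lit 134217730)) (xR T2.l4 (xR T2.l4 T2.l10))
  (TrL.c (I.pos (nat_lit 0) (nat_lit 110514882)) (xR T0.l11 (xR T0.l11 (xR T0.l11 T0.l11)))
  (TrL.c (I.pos (nat_lit 0) (nat_lit 0)) (xa T0.l17 (xa T0.l17 T0.l17))
  (TrL.c (I.pos (nat_lit 0) (nat_lit 0)) T2.l11
  (TrL.c (I.mix (nat_lit 8088324) (nat_lit 110514882)) (xR T0.l13 T0.l13)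
  (TrL.c (I.mix (nat_lit 8088324) (nat_lit 89478486)) (xR T2.l4 T2.l13)
  TrL.n)))))))) (by decide +kernel)
theorem bx2_5 : BoxOK sI cl13 cl13 cl5 t2 t0 b2_5 :=
  box_mk (TrL.c (I.pos (nat_lit 0) (nat_lit 0)) (xa T2.l0 T2.l0)
  (TrL.c (I.pos (nat_lit 0) (nat_lit 0)) T0.l10
  (TrL.c (I.pos (nat_lit 0) (nat_lit 134217730)) (xR T2.l4 (xR T2.l4 T2.l10))
  (TrL.c (I.pos (nat_lit 0) (nat_lit 110514882)) (xR T0.l13 (xR T0.l11 T0.l11))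
  (TrL.c (I.pos (nat_lit 0) (nat_lit 0)) (xk T0.l16 T0.l16)
  (TrL.c (I.pos (nat_lit 0) (nat_lit 0)) T2.l11
  (TrL.c (I.mix (nat_lit 8088324) (nat_lit 110514882)) (xR T0.l13 (xR T0.l13 T0.l13))
  (TrL.c (I.mix (nat_lit 8088324) (nat_lit 89478486)) (xR T2.l4 T2.l13)
  TrL.n)))))))) (by decide +kernel)
theorem bx2_6 : BoxOK sI cl13 cl13 cl5 t2 t0 b2_6 :=
  box_mk (TrL.c (I.pos (nat_lit 0) (nat_lit 0)) T2.l0
  (TrL.c (I.pos (nat_lit 0) (nat_lit 0)) T0.l10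
  (TrL.c (I.pos (nat_lit 0) (nat_lit 134217730)) (xR T2.l4 (xR T2.l4 T2.l10))
  (TrL.c (I.pos (nat_lit 0) (nat_lit 110514882)) (xR T0.l11 (xR T0.l11 T0.l11))
  (TrL.c (I.pos (nat_lit 0) (nat_lit 0)) T0.l16
  (TrL.c (I.pos (nat_lit 0) (nat_lit 0)) T2.l11
  (TrL.c (I.mix (nat_lit 8088324) (nat_lit 110514882)) (xR T0.l13 T0.l13)
  (TrL.c (I.mix (nat_lit 8088324) (nat_lit 89478486)) (xR T2.l4 T2.l13)
  TrL.n)))))))) (by decide +kernel)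
theorem bx2_7 : BoxOK sI cl13 cl13 cl5 t2 t0 b2_7 :=
  box_mk (TrL.c (I.pos (nat_lit 0) (nat_lit 0)) (xa (xa T2.l21 T2.l14) (xa T2.l14 T2.l16))
  (TrL.c (I.pos (nat_lit 0) (nat_lit 0)) (xa T0.l10 T0.l10)
  (TrL.c (I.pos (nat_lit 0) (nat_lit 134217730)) (xR T2.l4 (xR T2.l4 (xa T2.l10 T2.l10)))
  (TrL.c (I.pos (nat_lit 0) (nat_lit 110514882)) (xR T0.l11 (xR T0.l13 (xa T0.l13 T0.l11)))
  (TrL.c (I.pos (nat_lit 0) (nat_lit 0)) (xa T0.l20 T0.l15)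
  (TrL.c (I.pos (nat_lit 0) (nat_lit 0)) T2.l11
  (TrL.c (I.mix (nat_lit 8088324) (nat_lit 110514882)) (xR T0.l13 (xR T0.l13 (xa T0.l13 T0.l13)))
  (TrL.c (I.mix (nat_lit 8088324) (nat_lit 89478486)) T2.l4
  TrL.n)))))))) (by decide +kernel)
theorem bx2_8 : BoxOK sI cl13 cl13 cl5 t2 t0 b2_8 :=
  box_mk (TrL.c (I.pos (nat_lit 0) (nat_lit 0)) (xa T2.l0 T2.l0)
  (TrL.c (I.pos (nat_lit 0) (nat_lit 0)) T0.l10
  (TrL.c (I.pos (nat_lit 0) (nat_lit 134217730)) (xR T2.l4 (xR T2.l4 T2.l10))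
  (TrL.c (I.pos (nat_lit 0) (nat_lit 110514882)) (xR T0.l13 (xR T0.l11 T0.l11))
  (TrL.c (I.pos (nat_lit 0) (nat_lit 0)) (xk T0.l16 T0.l16)
  (TrL.c (I.pos (nat_lit 0) (nat_lit 0)) T2.l11
  (TrL.c (I.mix (nat_lit 8088324) (nat_lit 110514882)) (xR T0.l13 (xR T0.l13 T0.l13))
  (TrL.c (I.mix (nat_lit 8088324) (nat_lit 89478486)) (xR T2.l4 T2.l13)
  TrL.n)))))))) (by decide +kernel)
theorem bx2_9 : BoxOK sI cl13 cl13 cl5 t2 t0 b2_9 :=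
  box_mk (TrL.c (I.pos (nat_lit 0) (nat_lit 0)) T2.l0
  (TrL.c (I.pos (nat_lit 0) (nat_lit 0)) T0.l10
  (TrL.c (I.pos (nat_lit 0) (nat_lit 134217730)) (xR T2.l4 (xR T2.l4 T2.l10))
  (TrL.c (I.pos (nat_lit 0) (nat_lit 110514882)) (xR T0.l11 (xR T0.l11 T0.l11))
  (TrL.c (I.pos (nat_lit 0) (nat_lit 0)) T0.l16
  (TrL.c (I.pos (nat_lit 0) (nat_lit 0)) T2.l11
  (TrL.c (I.mix (nat_lit 8088324) (nat_lit 110514882)) (xR T0.l13 T0.l13)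
  (TrL.c (I.mix (nat_lit 8088324) (nat_lit 89478486)) (xR T2.l4 T2.l13)
  TrL.n)))))))) (by decide +kernel)
theorem bx2_10 : BoxOK sI cl13 cl13 cl5 t2 t0 b2_10 :=
  box_mk (TrL.c (I.pos (nat_lit 0) (nat_lit 0)) (xa T2.l16 (xa T2.l16 T2.l17))
  (TrL.c (I.pos (nat_lit 0) (nat_lit 0)) (xa T0.l10 T0.l10)
  (TrL.c (I.pos (nat_lit 0) (nat_lit 134217730)) (xR T2.l4 (xR T2.l4 T2.l10))
  (TrL.c (I.pos (nat_lit 0) (nat_lit 110514882)) (xR T0.l11 T0.l11)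
  (TrL.c (I.pos (nat_lit 0) (nat_lit 0)) (xa T0.l17 T0.l21)
  (TrL.c (I.pos (nat_lit 0) (nat_lit 0)) T2.l11
  (TrL.c (I.mix (nat_lit 8088324) (nat_lit 110514882)) T0.l13
  (TrL.c (I.mix (nat_lit 8088324) (nat_lit 89478486)) T2.l7
  TrL.n)))))))) (by decide +kernel)
theorem bx2_11 : BoxOK sI cl13 cl13 cl5 t2 t0 b2_11 :=
  box_mk (TrL.c (I.pos (nat_lit 0) (nat_lit 0)) (xb (xa T2.l18 (xb T2.l0 T2.l18)) (xa (xb T2.l18 T2.l18) (xb T2.l18 T2.l18)))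
  (TrL.c (I.pos (nat_lit 0) (nat_lit 0)) (xb (xk T0.l10 T0.l10) T0.l10)
  (TrL.c (I.pos (nat_lit 0) (nat_lit 134217730)) (xR T2.l4 (xR T2.l4 T2.l10))
  (TrL.c (I.pos (nat_lit 0) (nat_lit 110514882)) (xR T0.l11 (xR T0.l11 T0.l11))
  (TrL.c (I.pos (nat_lit 0) (nat_lit 0)) (xk (xb T0.l18 T0.l18) T0.l18)
  (TrL.c (I.pos (nat_lit 0) (nat_lit 0)) T2.l11
  (TrL.c (I.mix (nat_lit 8088324) (nat_lit 110514882)) (xR T0.l13 (xR T0.l13 T0.l13))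
  (TrL.c (I.mix (nat_lit 8088324) (nat_lit 89478486)) (xR T2.l4 T2.l13)
  TrL.n)))))))) (by decide +kernel)
theorem bx2_12 : BoxOK sI cl13 cl13 cl5 t2 t0 b2_12 :=
  box_mk (TrL.c (I.pos (nat_lit 0) (nat_lit 0)) T2.l0
  (TrL.c (I.pos (nat_lit 0) (nat_lit 0)) T0.l10
  (TrL.c (I.pos (nat_lit 0) (nat_lit 134217730)) (xR T2.l4 (xR T2.l4 T2.l10))
  (TrL.c (I.pos (nat_lit 0) (nat_lit 110514882)) (xR T0.l13 (xR T0.l11 T0.l11))
  (TrL.c (I.pos (nat_lit 0) (nat_lit 0)) T0.l12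
  (TrL.c (I.pos (nat_lit 0) (nat_lit 0)) T2.l11
  (TrL.c (I.mix (nat_lit 8088324) (nat_lit 110514882)) (xR T0.l13 T0.l13)
  (TrL.c (I.mix (nat_lit 8088324) (nat_lit 89478486)) (xR T2.l4 T2.l13)
  TrL.n)))))))) (by decide +kernel)
theorem bx2_13 : BoxOK sI cl13 cl13 cl5 t2 t0 b2_13 :=
  box_mk (TrL.c (I.pos (nat_lit 0) (nat_lit 0)) (xa T2.l16 T2.l16)
  (TrL.c (I.pos (nat_lit 0) (nat_lit 0)) (xa T0.l10 T0.l10)
  (TrL.c (I.pos (nat_lit 0) (nat_lit 134217730)) (xR T2.l4 (xR T2.l4 T2.l10))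
  (TrL.c (I.pos (nat_lit 0) (nat_lit 110514882)) (xR T0.l11 T0.l11)
  (TrL.c (I.pos (nat_lit 0) (nat_lit 0)) T0.l17
  (TrL.c (I.pos (nat_lit 0) (nat_lit 0)) T2.l11
  (TrL.c (I.mix (nat_lit 8088324) (nat_lit 110514882)) T0.l13
  (TrL.c (I.mix (nat_lit 8088324) (nat_lit 89478486)) T2.l4
  TrL.n)))))))) (by decide +kernel)
theorem bx2_14 : BoxOK sI cl13 cl13 cl5 t2 t0 b2_14 :=
  box_mk (TrL.c (I.pos (nat_lit 0) (nat_lit 0)) (xa T2.l0 T2.l0)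
  (TrL.c (I.pos (nat_lit 0) (nat_lit 0)) (xk (xa T0.l10 T0.l10) (xa T0.l10 T0.l10))
  (TrL.c (I.pos (nat_lit 0) (nat_lit 134217730)) (xR (xR T2.l4 T2.l4) (xR T2.l4 T2.l4))
  (TrL.c (I.pos (nat_lit 0) (nat_lit 110514882)) (xR T0.l13 (xR T0.l11 (xR T0.l11 T0.l11)))
  (TrL.c (I.pos (nat_lit 0) (nat_lit 0)) (xk (xa T0.l12 (xb (xa T0.l12 T0.l12) T0.l12)) (xa T0.l12 T0.l12))
  (TrL.c (I.pos (nat_lit 0) (nat_lit 0)) (xk T2.l11 T2.l11)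
  (TrL.c (I.mix (nat_lit 8088324) (nat_lit 110514882)) (xR T0.l13 (xR T0.l13 (xR T0.l13 (xR T0.l13 T0.l13))))
  (TrL.c (I.mix (nat_lit 8088324) (nat_lit 89478486)) (xR T2.l4 T2.l13)
  TrL.n)))))))) (by decide +kernel)
theorem bx2_15 : BoxOK sI cl13 cl13 cl5 t2 t0 b2_15 :=
  box_mk (TrL.c (I.pos (nat_lit 0) (nat_lit 0)) (xa (xb (xa (xs T2.l0 T2.l0) (xs T2.l0 T2.l0)) (xa (xs T2.l0 (xb T2.l0 T2.l0)) (xs T2.l0 (xb T2.l0 T2.l0)))) (xb (xa (xs T2.l0 T2.l0) (xs T2.l0 T2.l0)) (xa (xs T2.l0 (xb T2.l0 T2.l0)) (xs T2.l0 (xk T2.l0 T2.l0)))))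
  (TrL.c (I.pos (nat_lit 0) (nat_lit 0)) (xk (xa T0.l10 T0.l10) (xa T0.l10 T0.l10))
  (TrL.c (I.pos (nat_lit 0) (nat_lit 134217730)) (xR T2.l4 (xR T2.l4 (xR T2.l10 (xR T2.l10 T2.l10))))
  (TrL.c (I.pos (nat_lit 0) (nat_lit 110514882)) (xR T0.l13 (xR T0.l11 (xR T0.l11 T0.l11)))
  (TrL.c (I.pos (nat_lit 0) (nat_lit 0)) (xk T0.l12 (xb T0.l12 T0.l12))
  (TrL.c (I.pos (nat_lit 0) (nat_lit 0)) T2.l11
  (TrL.c (I.mix (nat_lit 8088324) (nat_lit 110514882)) (xR T0.l13 (xR T0.l13 (xR T0.l13 T0.l13)))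
  (TrL.c (I.mix (nat_lit 8088324) (nat_lit 89478486)) (xR T2.l4 (xR T2.l13 T2.l13))
  TrL.n)))))))) (by decide +kernel)
theorem bx2_16 : BoxOK sI cl13 cl13 cl5 t2 t0 b2_16 :=
  box_mk (TrL.c (I.pos (nat_lit 0) (nat_lit 0)) (xa (xb (xa (xb T2.l0 T2.l0) (xb T2.l0 T2.l0)) (xa (xb (xa T2.l0 T2.l0) (xs T2.l0 (xa T2.l0 T2.l0))) (xb (xa T2.l0 T2.l0) (xs T2.l0 (xa T2.l0 T2.l0))))) (xb (xa (xb T2.l0 T2.l0) (xb T2.l0 T2.l0)) (xa (xs T2.l0 (xb T2.l0 T2.l0)) (xs T2.l0 (xb T2.l0 T2.l0)))))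
  (TrL.c (I.pos (nat_lit 0) (nat_lit 0)) (xa (xk (xb T0.l10 T0.l10) (xb T0.l10 T0.l10)) (xk (xb T0.l10 (xa T0.l10 T0.l10)) (xb T0.l10 (xa T0.l10 T0.l10))))
  (TrL.c (I.pos (nat_lit 0) (nat_lit 134217730)) (xR (xR T2.l4 T2.l4) (xR T2.l4 T2.l4))
  (TrL.c (I.pos (nat_lit 0) (nat_lit 110514882)) (xR T0.l13 (xR (xR T0.l11 T0.l11) (xR T0.l11 (xk (xR T0.l11 T0.l11) T0.l11))))
  (TrL.c (I.pos (nat_lit 0) (nat_lit 0)) (xa (xk (xb T0.l12 T0.l12) (xb T0.l12 T0.l12)) (xk (xb (xa T0.l12 (xk T0.l12 T0.l12)) (xa T0.l12 (xk T0.l12 T0.l12))) (xb (xa T0.l12 (xk T0.l12 T0.l12)) (xa T0.l12 (xk T0.l12 T0.l12)))))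
  (TrL.c (I.pos (nat_lit 0) (nat_lit 0)) (xk (xa T2.l11 T2.l11) T2.l11)
  (TrL.c (I.mix (nat_lit 8088324) (nat_lit 110514882)) (xR T0.l13 (xR T0.l13 (xR T0.l13 (xk (xR T0.l13 T0.l13) T0.l13))))
  (TrL.c (I.mix (nat_lit 8088324) (nat_lit 89478486)) (xR T2.l4 (xR T2.l13 (xR T2.l13 T2.l13)))
  TrL.n)))))))) (by decide +kernel)
theorem bx2_17 : BoxOK sI cl13 cl13 cl5 t2 t0 b2_17 :=
  box_mk (TrL.c (I.pos (nat_lit 0) (nat_lit 0)) T2.l0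
  (TrL.c (I.pos (nat_lit 0) (nat_lit 0)) (xk T0.l10 T0.l10)
  (TrL.c (I.pos (nat_lit 0) (nat_lit 134217730)) (xR T2.l4 (xR T2.l4 T2.l4))
  (TrL.c (I.pos (nat_lit 0) (nat_lit 110514882)) (xR T0.l13 (xR T0.l11 T0.l11))
  (TrL.c (I.pos (nat_lit 0) (nat_lit 0)) (xk T0.l12 T0.l12)
  (TrL.c (I.pos (nat_lit 0) (nat_lit 0)) T2.l11
  (TrL.c (I.mix (nat_lit 8088324) (nat_lit 110514882)) (xR T0.l13 T0.l13)
  (TrL.c (I.mix (nat_lit 8088324) (nat_lit 89478486)) (xR T2.l4 T2.l13)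
  TrL.n)))))))) (by decide +kernel)
theorem bx2_18 : BoxOK sI cl13 cl13 cl5 t2 t0 b2_18 :=
  box_mk (TrL.c (I.pos (nat_lit 0) (nat_lit 0)) (xa T2.l0 T2.l0)
  (TrL.c (I.pos (nat_lit 0) (nat_lit 0)) (xk T0.l10 T0.l10)
  (TrL.c (I.pos (nat_lit 0) (nat_lit 134217730)) (xR T2.l4 (xR T2.l4 T2.l4))
  (TrL.c (I.pos (nat_lit 0) (nat_lit 110514882)) (xR T0.l13 (xR T0.l11 T0.l11))
  (TrL.c (I.pos (nat_lit 0) (nat_lit 0)) (xk T0.l12 T0.l12)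
  (TrL.c (I.pos (nat_lit 0) (nat_lit 0)) T2.l11
  (TrL.c (I.mix (nat_lit 8088324) (nat_lit 110514882)) (xR T0.l13 (xR T0.l13 T0.l13))
  (TrL.c (I.mix (nat_lit 8088324) (nat_lit 89478486)) (xR T2.l4 T2.l13)
  TrL.n)))))))) (by decide +kernel)
theorem bx2_19 : BoxOK sI cl13 cl13 cl5 t2 t0 b2_19 :=
  box_mk (TrL.c (I.pos (nat_lit 0) (nat_lit 0)) T2.l0
  (TrL.c (I.pos (nat_lit 0) (nat_lit 0)) T0.l10
  (TrL.c (I.pos (nat_lit 0) (nat_lit 134217730)) (xR T2.l4 (xR T2.l4 T2.l10))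
  (TrL.c (I.pos (nat_lit 0) (nat_lit 110514882)) (xR T0.l11 (xR T0.l11 T0.l11))
  (TrL.c (I.pos (nat_lit 0) (nat_lit 0)) T0.l22
  (TrL.c (I.pos (nat_lit 0) (nat_lit 0)) T2.l11
  (TrL.c (I.mix (nat_lit 8088324) (nat_lit 110514882)) (xR T0.l13 T0.l13)
  (TrL.c (I.mix (nat_lit 8088324) (nat_lit 89478486)) (xR T2.l4 T2.l13)
  TrL.n)))))))) (by decide +kernel)
theorem bx2_20 : BoxOK sI cl13 cl13 cl5 t2 t0 b2_20 :=
  box_mk (TrL.c (I.pos (nat_lit 0) (nat_lit 0)) (xa (xb (xa T2.l15 T2.l15) (xa T2.l15 T2.l15)) (xb (xa T2.l15 T2.l15) (xa T2.l15 T2.l15)))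
  (TrL.c (I.pos (nat_lit 0) (nat_lit 0)) (xk (xb T0.l10 T0.l10) T0.l10)
  (TrL.c (I.pos (nat_lit 0) (nat_lit 134217730)) (xR T2.l4 (xR T2.l4 (xR T2.l10 T2.l10)))
  (TrL.c (I.pos (nat_lit 0) (nat_lit 110514882)) (xR T0.l13 (xR T0.l11 T0.l11))
  (TrL.c (I.pos (nat_lit 0) (nat_lit 0)) (xk T0.l16 T0.l16)
  (TrL.c (I.pos (nat_lit 0) (nat_lit 0)) T2.l11
  (TrL.c (I.mix (nat_lit 8088324) (nat_lit 110514882)) (xR T0.l13 (xR T0.l13 (xR T0.l13 T0.l13)))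
  (TrL.c (I.mix (nat_lit 8088324) (nat_lit 89478486)) (xR T2.l4 (xR T2.l13 (xR T2.l13 T2.l13)))
  TrL.n)))))))) (by decide +kernel)
theorem bx2_21 : BoxOK sI cl13 cl13 cl5 t2 t0 b2_21 :=
  box_mk (TrL.c (I.pos (nat_lit 0) (nat_lit 0)) T2.l0
  (TrL.c (I.pos (nat_lit 0) (nat_lit 0)) (xk T0.l10 T0.l10)
  (TrL.c (I.pos (nat_lit 0) (nat_lit 134217730)) (xR (xR T2.l4 T2.l4) T2.l4)
  (TrL.c (I.pos (nat_lit 0) (nat_lit 110514882)) (xR T0.l13 (xR T0.l11 T0.l11))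
  (TrL.c (I.pos (nat_lit 0) (nat_lit 0)) (xk (xk T0.l0 T0.l12) (xa T0.l12 T0.l12))
  (TrL.c (I.pos (nat_lit 0) (nat_lit 0)) T2.l11
  (TrL.c (I.mix (nat_lit 8088324) (nat_lit 110514882)) (xR T0.l13 (xR T0.l13 (xR T0.l13 (xR T0.l13 T0.l13))))
  (TrL.c (I.mix (nat_lit 8088324) (nat_lit 89478486)) (xR T2.l4 T2.l2)
  TrL.n)))))))) (by decide +kernel)
theorem sv2 : StarV sI cl13 cl13 cl5 t2 t0 t2 :=
  (bt_n (bt_n (bt_n (bt_n (bt_b bx2_0) (bt_b bx2_1)) (bt_n (bt_b bx2_2) (bt_n (bt_b bx2_3) (bt_b bx2_4)))) (bt_n (bt_n (bt_b bx2_5) (bt_n (bt_b bx2_6) (bt_b bx2_7))) (bt_n (bt_b bx2_8) (bt_n (bt_b bx2_9) (bt_b bx2_10))))) (bt_n (bt_n (bt_n (bt_b bx2_11) (bt_b bx2_12)) (bt_n (bt_b bx2_13) (bt_n (bt_b bx2_14) (bt_b bx2_15)))) (bt_n (bt_n (bt_b bx2_16) (bt_n (bt_b bx2_17) (bt_b bx2_18))) (bt_n (bt_b bx2_19) (bt_n (bt_b bx2_20) (bt_b bx2_21))))))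
def S2 : StarD := StarD.mk cl13 cl13 cl5 2 0 t2
def G : List StarD := [S0, S1, S2]
theorem so0 : StarOK sI G S0 :=
  star_mk (by decide) (by decide) rfl rfl rfl rfl rfl rfl (rfl : _ = t1) (rfl : _ = t1)
  (st_mk (Pth.l (Pth.l (Pth.l (Pth.l Pth.z)))) (nat_lit 97523349) (nat_lit 116494337) (by decide +kernel))
  (st_mk (Pth.l (Pth.l (Pth.l (Pth.l Pth.z)))) (nat_lit 133903510) (nat_lit 153334027) (by decide +kernel))
  (st_mk (Pth.l (Pth.l (Pth.l (Pth.l Pth.z)))) (nat_lit 176494204) (nat_lit 196559830) (by decide +kernel)) sv0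
theorem so1 : StarOK sI G S1 :=
  star_mk (by decide) (by decide) rfl rfl rfl rfl rfl rfl (rfl : _ = t0) (rfl : _ = t2)
  (st_mk (Pth.l (Pth.l (Pth.l (Pth.l Pth.z)))) (nat_lit 238062708) (nat_lit 239913342) (by decide +kernel))
  (st_mk (Pth.l (Pth.l (Pth.l (Pth.l Pth.z)))) (nat_lit 272959317) (nat_lit 275224025) (by decide +kernel))
  (st_mk (Pth.l (Pth.l (Pth.l (Pth.l Pth.z)))) (nat_lit 313224636) (nat_lit 316038764) (by decide +kernel)) sv1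
theorem so2 : StarOK sI G S2 :=
  star_mk (by decide) (by decide) rfl rfl rfl rfl rfl rfl (rfl : _ = t2) (rfl : _ = t0)
  (st_mk (Pth.l (Pth.l (Pth.l (Pth.l Pth.z)))) (nat_lit 95831458) (nat_lit 114287239) (by decide +kernel))
  (st_mk (Pth.l (Pth.l (Pth.l (Pth.l Pth.z)))) (nat_lit 130728068) (nat_lit 149488270) (by decide +kernel))
  (st_mk (Pth.l (Pth.l (Pth.l (Pth.l Pth.z)))) (nat_lit 170993386) (nat_lit 190207712) (by decide +kernel)) sv2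
theorem ok : GroupOK (nat_lit 209321984) (nat_lit 268435456) G := grp_mk (allS_c so0 (allS_c so1 (allS_c so2 allS_n)))
theorem cov : GCov G cl5 cl13 cl13 := cov_mk
  ⟨0, by decide, rfl, rfl, rfl⟩ ⟨0, by decide, rfl, rfl, rfl⟩ ⟨1, by decide, rfl, rfl, rfl⟩ ⟨2, by decide, rfl, rfl, rfl⟩ ⟨1, by decide, rfl, rfl, rfl⟩ ⟨2, by decide, rfl, rfl, rfl⟩
end Q266_3

namespace Q333_0
def sI : I := I.pos (nat_lit 0) (nat_lit 91291648)
def b0_0 : Bx := Bx.mk (St.mk (I.pos (nat_lit 142606336) (nat_lit 298401792)) (I.mix (nat_lit 39960576) (nat_lit 77676544)) (I.mix (nat_lit 108429312) (nat_lit 115408896)) (I.pos (nat_lit 157155328) (nat_lit 422117376)) (I.mix (nat_lit 152485888) (nat_lit 120750080)) (I.mix (nat_lit 174669824) (nat_lit 125091840)) (I.mix (nat_lit 265977856) (nat_lit 164872192)))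
  false (nat_lit 12975110)
def b0_1 : Bx := Bx.mk (St.mk (I.pos (nat_lit 90259456) (nat_lit 167165952)) (I.neg (nat_lit 3751936) (nat_lit 72957952)) (I.mix (nat_lit 64323584) (nat_lit 1228800)) (I.pos (nat_lit 127762432) (nat_lit 193642496)) (I.mix (nat_lit 100696064) (nat_lit 59260928)) (I.mix (nat_lit 57573376) (nat_lit 89473024)) (I.mix (nat_lit 48529408) (nat_lit 77332480)))
  false (nat_lit 0)
def b0_2 : Bx := Bx.mk (St.mk (I.mix (nat_lit 41943040) (nat_lit 113115136)) (I.mix (nat_lit 14925824) (nat_lit 46710784)) (I.mix (nat_lit 19087360) (nat_lit 20070400)) (I.pos (nat_lit 75120640) (nat_lit 129925120)) (I.mix (nat_lit 53624832) (nat_lit 50479104)) (I.mix (nat_lit 60899328) (nat_lit 48054272)) (I.mix (nat_lit 39845888) (nat_lit 30834688)))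
  false (nat_lit 0)
def b0_3 : Bx := Bx.mk (St.mk (I.mix (nat_lit 34439168) (nat_lit 55050240)) (I.mix (nat_lit 36667392) (nat_lit 8536064)) (I.mix (nat_lit 12075008) (nat_lit 2588672)) (I.pos (nat_lit 82706432) (nat_lit 100007936)) (I.mix (nat_lit 34537472) (nat_lit 34455552)) (I.mix (nat_lit 31277056) (nat_lit 42975232)) (I.mix (nat_lit 13287424) (nat_lit 15253504)))
  false (nat_lit 0)
def b0_4 : Bx := Bx.mk (St.mk (I.pos (nat_lit 78217216) (nat_lit 128483328)) (I.mix (nat_lit 67502080) (nat_lit 13877248)) (I.mix (nat_lit 56049664) (nat_lit 950272)) (I.pos (nat_lit 111869952) (nat_lit 151044096)) (I.mix (nat_lit 97370112) (nat_lit 44580864)) (I.mix (nat_lit 72269824) (nat_lit 107954176)) (I.mix (nat_lit 51101696) (nat_lit 74301440)))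
  false (nat_lit 0)
def b0_5 : Bx := Bx.mk (St.mk (I.mix (nat_lit 63389696) (nat_lit 84017152)) (I.mix (nat_lit 13975552) (nat_lit 36700160)) (I.mix (nat_lit 12500992) (nat_lit 14352384)) (I.pos (nat_lit 84082688) (nat_lit 111050752)) (I.mix (nat_lit 34553856) (nat_lit 21495808)) (I.mix (nat_lit 33849344) (nat_lit 15843328)) (I.mix (nat_lit 12255232) (nat_lit 12500992)))
  false (nat_lit 0)
def b0_6 : Bx := Bx.mk (St.mk (I.mix (nat_lit 57065472) (nat_lit 34258944)) (I.mix (nat_lit 36765696) (nat_lit 12533760)) (I.mix (nat_lit 11272192) (nat_lit 4194304)) (I.pos (nat_lit 82903040) (nat_lit 100204544)) (I.mix (nat_lit 37224448) (nat_lit 30687232)) (I.mix (nat_lit 31457280) (nat_lit 43630592)) (I.mix (nat_lit 15777792) (nat_lit 11878400)))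
  false (nat_lit 0)
def b0_7 : Bx := Bx.mk (St.mk (I.pos (nat_lit 136298496) (nat_lit 217202688)) (I.mix (nat_lit 43106304) (nat_lit 83869696)) (I.mix (nat_lit 37847040) (nat_lit 114671616)) (I.pos (nat_lit 159383552) (nat_lit 261357568)) (I.mix (nat_lit 186515456) (nat_lit 87949312)) (I.mix (nat_lit 235503616) (nat_lit 155254784)) (I.mix (nat_lit 238436352) (nat_lit 150126592)))
  false (nat_lit 0)
def t0 : BTr := (BTr.n (BTr.n (BTr.n (BTr.b b0_0) (BTr.b b0_1)) (BTr.n (BTr.b b0_2) (BTr.b b0_3))) (BTr.n (BTr.n (BTr.b b0_4) (BTr.b b0_5)) (BTr.n (BTr.b b0_6) (BTr.b b0_7))))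
namespace T0
def l0 : Tr := Tr.L (Pth.l (Pth.l (Pth.l Pth.z)))
def l1 : Tr := Tr.L (Pth.l (Pth.l (Pth.r Pth.z)))
def l2 : Tr := Tr.L (Pth.l (Pth.r (Pth.l Pth.z)))
def l3 : Tr := Tr.L (Pth.l (Pth.r (Pth.r Pth.z)))
def l4 : Tr := Tr.L (Pth.r (Pth.l (Pth.l Pth.z)))
def l5 : Tr := Tr.L (Pth.r (Pth.l (Pth.r Pth.z)))
def l6 : Tr := Tr.L (Pth.r (Pth.r (Pth.l Pth.z)))
def l7 : Tr := Tr.L (Pth.r (Pth.r (Pth.r Pth.z)))
end T0
theorem bx0_0 : BoxOK sI cl6 cl6 cl6 t0 t0 b0_0 :=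
  box_mk (TrL.c (I.pos (nat_lit 0) (nat_lit 0)) (xa (xb T0.l0 T0.l0) (xb T0.l0 T0.l0))
  (TrL.c (I.pos (nat_lit 0) (nat_lit 0)) T0.l1
  (TrL.c (I.pos (nat_lit 0) (nat_lit 89480386)) T0.l2
  (TrL.c (I.pos (nat_lit 0) (nat_lit 41530880)) T0.l3
  (TrL.c (I.pos (nat_lit 0) (nat_lit 0)) (xa T0.l7 (xb T0.l7 (xs T0.l7 (xb T0.l7 (xa T0.l0 (xs T0.l7 (xb T0.l7 (xa T0.l7 T0.l7))))))))
  (TrL.c (I.pos (nat_lit 0) (nat_lit 0)) T0.l4
  (TrL.c (I.mix (nat_lit 41527258) (nat_lit 41530880)) T0.l2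
  (TrL.c (I.mix (nat_lit 41527258) (nat_lit 4274)) T0.l6
  TrL.n)))))))) (by decide +kernel)
theorem bx0_1 : BoxOK sI cl6 cl6 cl6 t0 t0 b0_1 :=
  box_mk (TrL.c (I.pos (nat_lit 0) (nat_lit 0)) T0.l0
  (TrL.c (I.pos (nat_lit 0) (nat_lit 0)) T0.l1
  (TrL.c (I.pos (nat_lit 0) (nat_lit 89480386)) T0.l2
  (TrL.c (I.pos (nat_lit 0) (nat_lit 41530880)) T0.l3
  (TrL.c (I.pos (nat_lit 0) (nat_lit 0)) T0.l7
  (TrL.c (I.pos (nat_lit 0) (nat_lit 0)) T0.l4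
  (TrL.c (I.mix (nat_lit 41527258) (nat_lit 41530880)) T0.l2
  (TrL.c (I.mix (nat_lit 41527258) (nat_lit 4274)) T0.l6
  TrL.n)))))))) (by decide +kernel)
theorem bx0_2 : BoxOK sI cl6 cl6 cl6 t0 t0 b0_2 :=
  box_mk (TrL.c (I.pos (nat_lit 0) (nat_lit 0)) T0.l0
  (TrL.c (I.pos (nat_lit 0) (nat_lit 0)) T0.l1
  (TrL.c (I.pos (nat_lit 0) (nat_lit 89480386)) T0.l2
  (TrL.c (I.pos (nat_lit 0) (nat_lit 41530880)) T0.l3
  (TrL.c (I.pos (nat_lit 0) (nat_lit 0)) T0.l7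
  (TrL.c (I.pos (nat_lit 0) (nat_lit 0)) T0.l4
  (TrL.c (I.mix (nat_lit 41527258) (nat_lit 41530880)) T0.l5
  (TrL.c (I.mix (nat_lit 41527258) (nat_lit 4274)) T0.l6
  TrL.n)))))))) (by decide +kernel)
theorem bx0_3 : BoxOK sI cl6 cl6 cl6 t0 t0 b0_3 :=
  box_mk (TrL.c (I.pos (nat_lit 0) (nat_lit 0)) T0.l0
  (TrL.c (I.pos (nat_lit 0) (nat_lit 0)) T0.l1
  (TrL.c (I.pos (nat_lit 0) (nat_lit 89480386)) T0.l2
  (TrL.c (I.pos (nat_lit 0) (nat_lit 41530880)) T0.l3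
  (TrL.c (I.pos (nat_lit 0) (nat_lit 0)) T0.l7
  (TrL.c (I.pos (nat_lit 0) (nat_lit 0)) T0.l4
  (TrL.c (I.mix (nat_lit 41527258) (nat_lit 41530880)) T0.l5
  (TrL.c (I.mix (nat_lit 41527258) (nat_lit 4274)) T0.l6
  TrL.n)))))))) (by decide +kernel)
theorem bx0_4 : BoxOK sI cl6 cl6 cl6 t0 t0 b0_4 :=
  box_mk (TrL.c (I.pos (nat_lit 0) (nat_lit 0)) T0.l0
  (TrL.c (I.pos (nat_lit 0) (nat_lit 0)) T0.l1
  (TrL.c (I.pos (nat_lit 0) (nat_lit 89480386)) T0.l2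
  (TrL.c (I.pos (nat_lit 0) (nat_lit 41530880)) T0.l3
  (TrL.c (I.pos (nat_lit 0) (nat_lit 0)) T0.l7
  (TrL.c (I.pos (nat_lit 0) (nat_lit 0)) T0.l4
  (TrL.c (I.mix (nat_lit 41527258) (nat_lit 41530880)) T0.l2
  (TrL.c (I.mix (nat_lit 41527258) (nat_lit 4274)) T0.l6
  TrL.n)))))))) (by decide +kernel)
theorem bx0_5 : BoxOK sI cl6 cl6 cl6 t0 t0 b0_5 :=
  box_mk (TrL.c (I.pos (nat_lit 0) (nat_lit 0)) T0.l0
  (TrL.c (I.pos (nat_lit 0) (nat_lit 0)) T0.l1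
  (TrL.c (I.pos (nat_lit 0) (nat_lit 89480386)) T0.l2
  (TrL.c (I.pos (nat_lit 0) (nat_lit 41530880)) T0.l3
  (TrL.c (I.pos (nat_lit 0) (nat_lit 0)) T0.l7
  (TrL.c (I.pos (nat_lit 0) (nat_lit 0)) T0.l4
  (TrL.c (I.mix (nat_lit 41527258) (nat_lit 41530880)) T0.l5
  (TrL.c (I.mix (nat_lit 41527258) (nat_lit 4274)) T0.l6
  TrL.n)))))))) (by decide +kernel)
theorem bx0_6 : BoxOK sI cl6 cl6 cl6 t0 t0 b0_6 :=
  box_mk (TrL.c (I.pos (nat_lit 0) (nat_lit 0)) T0.l0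
  (TrL.c (I.pos (nat_lit 0) (nat_lit 0)) T0.l0
  (TrL.c (I.pos (nat_lit 0) (nat_lit 89480386)) T0.l2
  (TrL.c (I.pos (nat_lit 0) (nat_lit 41530880)) T0.l3
  (TrL.c (I.pos (nat_lit 0) (nat_lit 0)) T0.l7
  (TrL.c (I.pos (nat_lit 0) (nat_lit 0)) T0.l4
  (TrL.c (I.mix (nat_lit 41527258) (nat_lit 41530880)) T0.l5
  (TrL.c (I.mix (nat_lit 41527258) (nat_lit 4274)) T0.l6
  TrL.n)))))))) (by decide +kernel)
theorem bx0_7 : BoxOK sI cl6 cl6 cl6 t0 t0 b0_7 :=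
  box_mk (TrL.c (I.pos (nat_lit 0) (nat_lit 0)) (xb T0.l0 T0.l0)
  (TrL.c (I.pos (nat_lit 0) (nat_lit 0)) T0.l1
  (TrL.c (I.pos (nat_lit 0) (nat_lit 89480386)) T0.l2
  (TrL.c (I.pos (nat_lit 0) (nat_lit 41530880)) T0.l3
  (TrL.c (I.pos (nat_lit 0) (nat_lit 0)) (xb T0.l0 (xs T0.l0 (xb T0.l0 (xa T0.l0 (xs T0.l0 (xb T0.l0 (xa T0.l7 T0.l7)))))))
  (TrL.c (I.pos (nat_lit 0) (nat_lit 0)) T0.l4
  (TrL.c (I.mix (nat_lit 41527258) (nat_lit 41530880)) T0.l2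
  (TrL.c (I.mix (nat_lit 41527258) (nat_lit 4274)) T0.l6
  TrL.n)))))))) (by decide +kernel)
theorem sv0 : StarV sI cl6 cl6 cl6 t0 t0 t0 :=
  (bt_n (bt_n (bt_n (bt_b bx0_0) (bt_b bx0_1)) (bt_n (bt_b bx0_2) (bt_b bx0_3))) (bt_n (bt_n (bt_b bx0_4) (bt_b bx0_5)) (bt_n (bt_b bx0_6) (bt_b bx0_7))))
def S0 : StarD := StarD.mk cl6 cl6 cl6 0 0 t0
def G : List StarD := [S0]
theorem so0 : StarOK sI G S0 :=
  star_mk (by decide) (by decide) rfl rfl rfl rfl rfl rfl (rfl : _ = t0) (rfl : _ = t0)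
  (st_mk (Pth.l (Pth.l (Pth.l Pth.z))) (nat_lit 188484249) (nat_lit 189330207) (by decide +kernel))
  (st_mk (Pth.l (Pth.l (Pth.l Pth.z))) (nat_lit 224371539) (nat_lit 225574286) (by decide +kernel))
  (st_mk (Pth.l (Pth.l (Pth.l Pth.z))) (nat_lit 266001850) (nat_lit 267701646) (by decide +kernel)) sv0
theorem ok : GroupOK (nat_lit 0) (nat_lit 91291648) G := grp_mk (allS_c so0 allS_n)
theorem cov : GCov G cl6 cl6 cl6 := cov_mk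
  ⟨0, by decide, rfl, rfl, rfl⟩ ⟨0, by decide, rfl, rfl, rfl⟩ ⟨0, by decide, rfl, rfl, rfl⟩ ⟨0, by decide, rfl, rfl, rfl⟩ ⟨0, by decide, rfl, rfl, rfl⟩ ⟨0, by decide, rfl, rfl, rfl⟩
end Q333_0

namespace Q333_1
def sI : I := I.pos (nat_lit 91226112) (nat_lit 150339584)
def b0_0 : Bx := Bx.mk (St.mk (I.pos (nat_lit 155385856) (nat_lit 285097984)) (I.mix (nat_lit 31670272) (nat_lit 60817408)) (I.mix (nat_lit 90685440) (nat_lit 92602368)) (I.pos (nat_lit 182288384) (nat_lit 402358272)) (I.mix (nat_lit 103497728) (nat_lit 72695808)) (I.mix (nat_lit 89030656) (nat_lit 58802176)) (I.mix (nat_lit 136232960) (nat_lit 87080960)))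
  false (nat_lit 0)
def b0_1 : Bx := Bx.mk (St.mk (I.pos (nat_lit 91783168) (nat_lit 164102144)) (I.neg (nat_lit 7618560) (nat_lit 60260352)) (I.mix (nat_lit 52363264) (nat_lit 278528)) (I.pos (nat_lit 129204224) (nat_lit 192610304)) (I.mix (nat_lit 75399168) (nat_lit 42287104)) (I.mix (nat_lit 32817152) (nat_lit 59375616)) (I.mix (nat_lit 28688384) (nat_lit 52019200)))
  false (nat_lit 0)
def b0_2 : Bx := Bx.mk (St.mk (I.mix (nat_lit 41320448) (nat_lit 100941824)) (I.mix (nat_lit 11206656) (nat_lit 43368448)) (I.mix (nat_lit 16515072) (nat_lit 17924096)) (I.pos (nat_lit 76136448) (nat_lit 127008768)) (I.mix (nat_lit 45531136) (nat_lit 40697856)) (I.mix (nat_lit 39059456) (nat_lit 31375360)) (I.mix (nat_lit 25575424) (nat_lit 19365888)))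
  false (nat_lit 0)
def b0_3 : Bx := Bx.mk (St.mk (I.mix (nat_lit 32391168) (nat_lit 49938432)) (I.mix (nat_lit 34488320) (nat_lit 6684672)) (I.mix (nat_lit 11517952) (nat_lit 2359296)) (I.pos (nat_lit 82771968) (nat_lit 101023744)) (I.mix (nat_lit 28721152) (nat_lit 26886144)) (I.mix (nat_lit 19365888) (nat_lit 27066368)) (I.mix (nat_lit 8732672) (nat_lit 9748480)))
  false (nat_lit 0)
def b0_4 : Bx := Bx.mk (St.mk (I.pos (nat_lit 78381056) (nat_lit 123224064)) (I.mix (nat_lit 60096512) (nat_lit 9797632)) (I.neg (nat_lit 2539520) (nat_lit 51511296)) (I.pos (nat_lit 113147904) (nat_lit 147718144)) (I.mix (nat_lit 79200256) (nat_lit 28737536)) (I.mix (nat_lit 38846464) (nat_lit 68222976)) (I.mix (nat_lit 28966912) (nat_lit 47071232)))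
  false (nat_lit 0)
def b0_5 : Bx := Bx.mk (St.mk (I.mix (nat_lit 51118080) (nat_lit 73138176)) (I.mix (nat_lit 11927552) (nat_lit 35028992)) (I.mix (nat_lit 11829248) (nat_lit 13074432)) (I.pos (nat_lit 82493440) (nat_lit 110264320)) (I.mix (nat_lit 29540352) (nat_lit 23969792)) (I.mix (nat_lit 22953984) (nat_lit 14893056)) (I.mix (nat_lit 9027584) (nat_lit 7897088)))
  false (nat_lit 0)
def b0_6 : Bx := Bx.mk (St.mk (I.mix (nat_lit 50216960) (nat_lit 30834688)) (I.mix (nat_lit 34373632) (nat_lit 7733248)) (I.mix (nat_lit 9715712) (nat_lit 3440640)) (I.pos (nat_lit 82968576) (nat_lit 101023744)) (I.mix (nat_lit 29704192) (nat_lit 24395776)) (I.mix (nat_lit 19316736) (nat_lit 27312128)) (I.mix (nat_lit 10223616) (nat_lit 7307264)))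
  false (nat_lit 0)
def b0_7 : Bx := Bx.mk (St.mk (I.pos (nat_lit 136003584) (nat_lit 207372288)) (I.mix (nat_lit 38567936) (nat_lit 64028672)) (I.mix (nat_lit 31260672) (nat_lit 92274688)) (I.pos (nat_lit 165117952) (nat_lit 252919808)) (I.mix (nat_lit 128368640) (nat_lit 54001664)) (I.mix (nat_lit 125698048) (nat_lit 71712768)) (I.mix (nat_lit 127713280) (nat_lit 70057984)))
  false (nat_lit 0)
def t0 : BTr := (BTr.n (BTr.n (BTr.n (BTr.b b0_0) (BTr.b b0_1)) (BTr.n (BTr.b b0_2) (BTr.b b0_3))) (BTr.n (BTr.n (BTr.b b0_4) (BTr.b b0_5)) (BTr.n (BTr.b b0_6) (BTr.b b0_7))))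
namespace T0
def l0 : Tr := Tr.L (Pth.l (Pth.l (Pth.l Pth.z)))
def l1 : Tr := Tr.L (Pth.l (Pth.l (Pth.r Pth.z)))
def l2 : Tr := Tr.L (Pth.l (Pth.r (Pth.l Pth.z)))
def l3 : Tr := Tr.L (Pth.l (Pth.r (Pth.r Pth.z)))
def l4 : Tr := Tr.L (Pth.r (Pth.l (Pth.l Pth.z)))
def l5 : Tr := Tr.L (Pth.r (Pth.l (Pth.r Pth.z)))
def l6 : Tr := Tr.L (Pth.r (Pth.r (Pth.l Pth.z)))
def l7 : Tr := Tr.L (Pth.r (Pth.r (Pth.r Pth.z)))
end T0
theorem bx0_0 : BoxOK sI cl6 cl6 cl6 t0 t0 b0_0 :=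
  box_mk (TrL.c (I.pos (nat_lit 0) (nat_lit 0)) (xa (xb T0.l0 (xa T0.l0 T0.l0)) (xa (xb T0.l0 T0.l0) (xb T0.l0 T0.l0)))
  (TrL.c (I.pos (nat_lit 0) (nat_lit 0)) (xa T0.l1 T0.l1)
  (TrL.c (I.pos (nat_lit 0) (nat_lit 89480386)) T0.l2
  (TrL.c (I.pos (nat_lit 0) (nat_lit 41530880)) T0.l3
  (TrL.c (I.pos (nat_lit 0) (nat_lit 0)) (xa T0.l7 (xb (xa T0.l7 T0.l7) (xa T0.l7 T0.l7)))
  (TrL.c (I.pos (nat_lit 0) (nat_lit 0)) (xa T0.l4 T0.l4)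
  (TrL.c (I.mix (nat_lit 41527258) (nat_lit 41530880)) T0.l2
  (TrL.c (I.mix (nat_lit 41527258) (nat_lit 4274)) T0.l6
  TrL.n)))))))) (by decide +kernel)
theorem bx0_1 : BoxOK sI cl6 cl6 cl6 t0 t0 b0_1 :=
  box_mk (TrL.c (I.pos (nat_lit 0) (nat_lit 0)) T0.l0
  (TrL.c (I.pos (nat_lit 0) (nat_lit 0)) T0.l1
  (TrL.c (I.pos (nat_lit 0) (nat_lit 89480386)) T0.l2
  (TrL.c (I.pos (nat_lit 0) (nat_lit 41530880)) T0.l3
  (TrL.c (I.pos (nat_lit 0) (nat_lit 0)) T0.l7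
  (TrL.c (I.pos (nat_lit 0) (nat_lit 0)) T0.l4
  (TrL.c (I.mix (nat_lit 41527258) (nat_lit 41530880)) T0.l5
  (TrL.c (I.mix (nat_lit 41527258) (nat_lit 4274)) T0.l6
  TrL.n)))))))) (by decide +kernel)
theorem bx0_2 : BoxOK sI cl6 cl6 cl6 t0 t0 b0_2 :=
  box_mk (TrL.c (I.pos (nat_lit 0) (nat_lit 0)) (xa T0.l0 T0.l0)
  (TrL.c (I.pos (nat_lit 0) (nat_lit 0)) (xa T0.l1 T0.l1)
  (TrL.c (I.pos (nat_lit 0) (nat_lit 89480386)) T0.l2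
  (TrL.c (I.pos (nat_lit 0) (nat_lit 41530880)) T0.l3
  (TrL.c (I.pos (nat_lit 0) (nat_lit 0)) T0.l7
  (TrL.c (I.pos (nat_lit 0) (nat_lit 0)) T0.l4
  (TrL.c (I.mix (nat_lit 41527258) (nat_lit 41530880)) T0.l5
  (TrL.c (I.mix (nat_lit 41527258) (nat_lit 4274)) T0.l6
  TrL.n)))))))) (by decide +kernel)
theorem bx0_3 : BoxOK sI cl6 cl6 cl6 t0 t0 b0_3 :=
  box_mk (TrL.c (I.pos (nat_lit 0) (nat_lit 0)) T0.l0
  (TrL.c (I.pos (nat_lit 0) (nat_lit 0)) T0.l1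
  (TrL.c (I.pos (nat_lit 0) (nat_lit 89480386)) T0.l2
  (TrL.c (I.pos (nat_lit 0) (nat_lit 41530880)) T0.l3
  (TrL.c (I.pos (nat_lit 0) (nat_lit 0)) T0.l7
  (TrL.c (I.pos (nat_lit 0) (nat_lit 0)) T0.l4
  (TrL.c (I.mix (nat_lit 41527258) (nat_lit 41530880)) T0.l5
  (TrL.c (I.mix (nat_lit 41527258) (nat_lit 4274)) T0.l6
  TrL.n)))))))) (by decide +kernel)
theorem bx0_4 : BoxOK sI cl6 cl6 cl6 t0 t0 b0_4 :=
  box_mk (TrL.c (I.pos (nat_lit 0) (nat_lit 0)) T0.l0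
  (TrL.c (I.pos (nat_lit 0) (nat_lit 0)) T0.l1
  (TrL.c (I.pos (nat_lit 0) (nat_lit 89480386)) T0.l2
  (TrL.c (I.pos (nat_lit 0) (nat_lit 41530880)) T0.l3
  (TrL.c (I.pos (nat_lit 0) (nat_lit 0)) T0.l7
  (TrL.c (I.pos (nat_lit 0) (nat_lit 0)) T0.l4
  (TrL.c (I.mix (nat_lit 41527258) (nat_lit 41530880)) T0.l5
  (TrL.c (I.mix (nat_lit 41527258) (nat_lit 4274)) T0.l6
  TrL.n)))))))) (by decide +kernel)
theorem bx0_5 : BoxOK sI cl6 cl6 cl6 t0 t0 b0_5 :=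
  box_mk (TrL.c (I.pos (nat_lit 0) (nat_lit 0)) (xa (xa T0.l0 T0.l0) T0.l0)
  (TrL.c (I.pos (nat_lit 0) (nat_lit 0)) T0.l1
  (TrL.c (I.pos (nat_lit 0) (nat_lit 89480386)) T0.l2
  (TrL.c (I.pos (nat_lit 0) (nat_lit 41530880)) T0.l3
  (TrL.c (I.pos (nat_lit 0) (nat_lit 0)) T0.l7
  (TrL.c (I.pos (nat_lit 0) (nat_lit 0)) T0.l4
  (TrL.c (I.mix (nat_lit 41527258) (nat_lit 41530880)) T0.l5
  (TrL.c (I.mix (nat_lit 41527258) (nat_lit 4274)) T0.l6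
  TrL.n)))))))) (by decide +kernel)
theorem bx0_6 : BoxOK sI cl6 cl6 cl6 t0 t0 b0_6 :=
  box_mk (TrL.c (I.pos (nat_lit 0) (nat_lit 0)) (xa (xb T0.l0 T0.l0) T0.l0)
  (TrL.c (I.pos (nat_lit 0) (nat_lit 0)) T0.l7
  (TrL.c (I.pos (nat_lit 0) (nat_lit 89480386)) T0.l2
  (TrL.c (I.pos (nat_lit 0) (nat_lit 41530880)) T0.l2
  (TrL.c (I.pos (nat_lit 0) (nat_lit 0)) T0.l7
  (TrL.c (I.pos (nat_lit 0) (nat_lit 0)) T0.l2
  (TrL.c (I.mix (nat_lit 41527258) (nat_lit 41530880)) T0.l5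
  (TrL.c (I.mix (nat_lit 41527258) (nat_lit 4274)) T0.l5
  TrL.n)))))))) (by decide +kernel)
theorem bx0_7 : BoxOK sI cl6 cl6 cl6 t0 t0 b0_7 :=
  box_mk (TrL.c (I.pos (nat_lit 0) (nat_lit 0)) (xb (xa T0.l0 T0.l0) (xa T0.l0 T0.l0))
  (TrL.c (I.pos (nat_lit 0) (nat_lit 0)) T0.l1
  (TrL.c (I.pos (nat_lit 0) (nat_lit 89480386)) T0.l2
  (TrL.c (I.pos (nat_lit 0) (nat_lit 41530880)) T0.l3
  (TrL.c (I.pos (nat_lit 0) (nat_lit 0)) (xb T0.l7 T0.l7)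
  (TrL.c (I.pos (nat_lit 0) (nat_lit 0)) T0.l4
  (TrL.c (I.mix (nat_lit 41527258) (nat_lit 41530880)) T0.l2
  (TrL.c (I.mix (nat_lit 41527258) (nat_lit 4274)) T0.l6
  TrL.n)))))))) (by decide +kernel)
theorem sv0 : StarV sI cl6 cl6 cl6 t0 t0 t0 :=
  (bt_n (bt_n (bt_n (bt_b bx0_0) (bt_b bx0_1)) (bt_n (bt_b bx0_2) (bt_b bx0_3))) (bt_n (bt_n (bt_b bx0_4) (bt_b bx0_5)) (bt_n (bt_b bx0_6) (bt_b bx0_7))))
def S0 : StarD := StarD.mk cl6 cl6 cl6 0 0 t0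
def G : List StarD := [S0]
theorem so0 : StarOK sI G S0 :=
  star_mk (by decide) (by decide) rfl rfl rfl rfl rfl rfl (rfl : _ = t0) (rfl : _ = t0)
  (st_mk (Pth.l (Pth.l (Pth.l Pth.z))) (nat_lit 189319823) (nat_lit 189879149) (by decide +kernel))
  (st_mk (Pth.l (Pth.l (Pth.l Pth.z))) (nat_lit 225563557) (nat_lit 226359725) (by decide +kernel))
  (st_mk (Pth.l (Pth.l (Pth.l Pth.z))) (nat_lit 267690439) (nat_lit 268818193) (by decide +kernel)) sv0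
theorem ok : GroupOK (nat_lit 91226112) (nat_lit 150339584) G := grp_mk (allS_c so0 allS_n)
theorem cov : GCov G cl6 cl6 cl6 := cov_mk
  ⟨0, by decide, rfl, rfl, rfl⟩ ⟨0, by decide, rfl, rfl, rfl⟩ ⟨0, by decide, rfl, rfl, rfl⟩ ⟨0, by decide, rfl, rfl, rfl⟩ ⟨0, by decide, rfl, rfl, rfl⟩ ⟨0, by decide, rfl, rfl, rfl⟩
end Q333_1

namespace Q333_2
def sI : I := I.pos (nat_lit 150274048) (nat_lit 209387520)
def b0_0 : Bx := Bx.mk (St.mk (I.pos (nat_lit 152518656) (nat_lit 284393472)) (I.mix (nat_lit 30392320) (nat_lit 60129280)) (I.mix (nat_lit 87392256) (nat_lit 93061120)) (I.pos (nat_lit 189054976) (nat_lit 402866176)) (I.mix (nat_lit 119128064) (nat_lit 76201984)) (I.mix (nat_lit 87244800) (nat_lit 62160896)) (I.mix (nat_lit 132644864) (nat_lit 87310336)))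
  false (nat_lit 0)
def b0_1 : Bx := Bx.mk (St.mk (I.pos (nat_lit 89980928) (nat_lit 164773888)) (I.neg (nat_lit 7569408) (nat_lit 57344000)) (I.neg (nat_lit 229376) (nat_lit 51036160)) (I.pos (nat_lit 128401408) (nat_lit 194002944)) (I.mix (nat_lit 69386240) (nat_lit 45531136)) (I.mix (nat_lit 33931264) (nat_lit 55443456)) (I.mix (nat_lit 29573120) (nat_lit 47742976)))
  false (nat_lit 0)
def b0_2 : Bx := Bx.mk (St.mk (I.mix (nat_lit 31260672) (nat_lit 99155968)) (I.mix (nat_lit 10452992) (nat_lit 41058304)) (I.mix (nat_lit 16121856) (nat_lit 16416768)) (I.pos (nat_lit 78970880) (nat_lit 126664704)) (I.mix (nat_lit 46759936) (nat_lit 47464448)) (I.mix (nat_lit 42172416) (nat_lit 27820032)) (I.mix (nat_lit 27295744) (nat_lit 17219584)))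
  false (nat_lit 0)
def b0_3 : Bx := Bx.mk (St.mk (I.mix (nat_lit 33341440) (nat_lit 48824320)) (I.mix (nat_lit 34439168) (nat_lit 5718016)) (I.mix (nat_lit 11567104) (nat_lit 2064384)) (I.pos (nat_lit 82706432) (nat_lit 101466112)) (I.mix (nat_lit 34783232) (nat_lit 31637504)) (I.mix (nat_lit 22036480) (nat_lit 28868608)) (I.mix (nat_lit 9912320) (nat_lit 10452992)))
  false (nat_lit 0)
def b0_4 : Bx := Bx.mk (St.mk (I.pos (nat_lit 76660736) (nat_lit 122617856)) (I.mix (nat_lit 56852480) (nat_lit 8192000)) (I.neg (nat_lit 3588096) (nat_lit 49479680)) (I.pos (nat_lit 111624192) (nat_lit 147636224)) (I.mix (nat_lit 86654976) (nat_lit 36831232)) (I.mix (nat_lit 38862848) (nat_lit 70074368)) (I.mix (nat_lit 29016064) (nat_lit 48201728)))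
  false (nat_lit 0)
def b0_5 : Bx := Bx.mk (St.mk (I.mix (nat_lit 49020928) (nat_lit 73515008)) (I.mix (nat_lit 10993664) (nat_lit 34488320)) (I.mix (nat_lit 11812864) (nat_lit 12697600)) (I.pos (nat_lit 82706432) (nat_lit 111165440)) (I.mix (nat_lit 43188224) (nat_lit 35553280)) (I.mix (nat_lit 37437440) (nat_lit 22790144)) (I.mix (nat_lit 13975552) (nat_lit 14008320)))
  false (nat_lit 0)
def b0_6 : Bx := Bx.mk (St.mk (I.mix (nat_lit 49430528) (nat_lit 30851072)) (I.mix (nat_lit 34816000) (nat_lit 8208384)) (I.mix (nat_lit 9945088) (nat_lit 3375104)) (I.pos (nat_lit 83230720) (nat_lit 101466112)) (I.mix (nat_lit 36077568) (nat_lit 29704192)) (I.mix (nat_lit 21807104) (nat_lit 28934144)) (I.mix (nat_lit 10813440) (nat_lit 8110080)))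
  false (nat_lit 0)
def b0_7 : Bx := Bx.mk (St.mk (I.pos (nat_lit 133578752) (nat_lit 206405632)) (I.mix (nat_lit 37502976) (nat_lit 59031552)) (I.mix (nat_lit 29196288) (nat_lit 86065152)) (I.pos (nat_lit 161054720) (nat_lit 252493824)) (I.mix (nat_lit 136200192) (nat_lit 60850176)) (I.mix (nat_lit 123600896) (nat_lit 71532544)) (I.mix (nat_lit 123289600) (nat_lit 68517888)))
  false (nat_lit 0)
def t0 : BTr := (BTr.n (BTr.n (BTr.n (BTr.b b0_0) (BTr.b b0_1)) (BTr.n (BTr.b b0_2) (BTr.b b0_3))) (BTr.n (BTr.n (BTr.b b0_4) (BTr.b b0_5)) (BTr.n (BTr.b b0_6) (BTr.b b0_7))))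
namespace T0
def l0 : Tr := Tr.L (Pth.l (Pth.l (Pth.l Pth.z)))
def l1 : Tr := Tr.L (Pth.l (Pth.l (Pth.r Pth.z)))
def l2 : Tr := Tr.L (Pth.l (Pth.r (Pth.l Pth.z)))
def l3 : Tr := Tr.L (Pth.l (Pth.r (Pth.r Pth.z)))
def l4 : Tr := Tr.L (Pth.r (Pth.l (Pth.l Pth.z)))
def l5 : Tr := Tr.L (Pth.r (Pth.l (Pth.r Pth.z)))
def l6 : Tr := Tr.L (Pth.r (Pth.r (Pth.l Pth.z)))
def l7 : Tr := Tr.L (Pth.r (Pth.r (Pth.r Pth.z)))
end T0
theorem bx0_0 : BoxOK sI cl6 cl6 cl6 t0 t0 b0_0 :=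
  box_mk (TrL.c (I.pos (nat_lit 0) (nat_lit 0)) (xa (xb (xa T0.l0 T0.l0) (xa (xb T0.l0 (xa T0.l0 T0.l0)) (xb T0.l0 T0.l0))) (xb (xa T0.l0 T0.l0) (xa (xb T0.l0 T0.l0) (xb T0.l0 T0.l0))))
  (TrL.c (I.pos (nat_lit 0) (nat_lit 0)) (xa (xb T0.l1 (xa T0.l1 T0.l1)) (xb T0.l4 (xa T0.l1 T0.l4)))
  (TrL.c (I.pos (nat_lit 0) (nat_lit 89480386)) (xR T0.l2 (xR T0.l2 T0.l2))
  (TrL.c (I.pos (nat_lit 0) (nat_lit 41530880)) T0.l3
  (TrL.c (I.pos (nat_lit 0) (nat_lit 0)) (xa (xb T0.l7 T0.l7) (xb (xa T0.l7 (xb T0.l7 T0.l7)) (xa T0.l7 (xb T0.l7 T0.l7))))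
  (TrL.c (I.pos (nat_lit 0) (nat_lit 0)) (xa T0.l4 (xb T0.l4 T0.l4))
  (TrL.c (I.mix (nat_lit 41527258) (nat_lit 41530880)) (xR T0.l5 T0.l2)
  (TrL.c (I.mix (nat_lit 41527258) (nat_lit 4274)) T0.l6
  TrL.n)))))))) (by decide +kernel)
theorem bx0_1 : BoxOK sI cl6 cl6 cl6 t0 t0 b0_1 :=
  box_mk (TrL.c (I.pos (nat_lit 0) (nat_lit 0)) T0.l0
  (TrL.c (I.pos (nat_lit 0) (nat_lit 0)) T0.l1
  (TrL.c (I.pos (nat_lit 0) (nat_lit 89480386)) T0.l2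
  (TrL.c (I.pos (nat_lit 0) (nat_lit 41530880)) T0.l3
  (TrL.c (I.pos (nat_lit 0) (nat_lit 0)) T0.l7
  (TrL.c (I.pos (nat_lit 0) (nat_lit 0)) T0.l4
  (TrL.c (I.mix (nat_lit 41527258) (nat_lit 41530880)) T0.l5
  (TrL.c (I.mix (nat_lit 41527258) (nat_lit 4274)) T0.l6
  TrL.n)))))))) (by decide +kernel)
theorem bx0_2 : BoxOK sI cl6 cl6 cl6 t0 t0 b0_2 :=
  box_mk (TrL.c (I.pos (nat_lit 0) (nat_lit 0)) (xa (xa T0.l0 T0.l0) T0.l0)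
  (TrL.c (I.pos (nat_lit 0) (nat_lit 0)) T0.l1
  (TrL.c (I.pos (nat_lit 0) (nat_lit 89480386)) T0.l2
  (TrL.c (I.pos (nat_lit 0) (nat_lit 41530880)) T0.l3
  (TrL.c (I.pos (nat_lit 0) (nat_lit 0)) T0.l7
  (TrL.c (I.pos (nat_lit 0) (nat_lit 0)) T0.l4
  (TrL.c (I.mix (nat_lit 41527258) (nat_lit 41530880)) T0.l5
  (TrL.c (I.mix (nat_lit 41527258) (nat_lit 4274)) T0.l6
  TrL.n)))))))) (by decide +kernel)
theorem bx0_3 : BoxOK sI cl6 cl6 cl6 t0 t0 b0_3 :=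
  box_mk (TrL.c (I.pos (nat_lit 0) (nat_lit 0)) T0.l0
  (TrL.c (I.pos (nat_lit 0) (nat_lit 0)) T0.l1
  (TrL.c (I.pos (nat_lit 0) (nat_lit 89480386)) T0.l2
  (TrL.c (I.pos (nat_lit 0) (nat_lit 41530880)) T0.l2
  (TrL.c (I.pos (nat_lit 0) (nat_lit 0)) T0.l1
  (TrL.c (I.pos (nat_lit 0) (nat_lit 0)) T0.l2
  (TrL.c (I.mix (nat_lit 41527258) (nat_lit 41530880)) T0.l5
  (TrL.c (I.mix (nat_lit 41527258) (nat_lit 4274)) T0.l6
  TrL.n)))))))) (by decide +kernel)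
theorem bx0_4 : BoxOK sI cl6 cl6 cl6 t0 t0 b0_4 :=
  box_mk (TrL.c (I.pos (nat_lit 0) (nat_lit 0)) T0.l0
  (TrL.c (I.pos (nat_lit 0) (nat_lit 0)) T0.l1
  (TrL.c (I.pos (nat_lit 0) (nat_lit 89480386)) T0.l2
  (TrL.c (I.pos (nat_lit 0) (nat_lit 41530880)) T0.l3
  (TrL.c (I.pos (nat_lit 0) (nat_lit 0)) T0.l7
  (TrL.c (I.pos (nat_lit 0) (nat_lit 0)) T0.l4
  (TrL.c (I.mix (nat_lit 41527258) (nat_lit 41530880)) T0.l5
  (TrL.c (I.mix (nat_lit 41527258) (nat_lit 4274)) T0.l6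
  TrL.n)))))))) (by decide +kernel)
theorem bx0_5 : BoxOK sI cl6 cl6 cl6 t0 t0 b0_5 :=
  box_mk (TrL.c (I.pos (nat_lit 0) (nat_lit 0)) (xa (xa (xb T0.l0 T0.l0) T0.l0) T0.l0)
  (TrL.c (I.pos (nat_lit 0) (nat_lit 0)) T0.l1
  (TrL.c (I.pos (nat_lit 0) (nat_lit 89480386)) T0.l2
  (TrL.c (I.pos (nat_lit 0) (nat_lit 41530880)) T0.l3
  (TrL.c (I.pos (nat_lit 0) (nat_lit 0)) T0.l7
  (TrL.c (I.pos (nat_lit 0) (nat_lit 0)) T0.l4
  (TrL.c (I.mix (nat_lit 41527258) (nat_lit 41530880)) T0.l5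
  (TrL.c (I.mix (nat_lit 41527258) (nat_lit 4274)) T0.l6
  TrL.n)))))))) (by decide +kernel)
theorem bx0_6 : BoxOK sI cl6 cl6 cl6 t0 t0 b0_6 :=
  box_mk (TrL.c (I.pos (nat_lit 0) (nat_lit 0)) (xa (xb T0.l0 T0.l0) T0.l0)
  (TrL.c (I.pos (nat_lit 0) (nat_lit 0)) T0.l7
  (TrL.c (I.pos (nat_lit 0) (nat_lit 89480386)) T0.l2
  (TrL.c (I.pos (nat_lit 0) (nat_lit 41530880)) T0.l2
  (TrL.c (I.pos (nat_lit 0) (nat_lit 0)) T0.l1
  (TrL.c (I.pos (nat_lit 0) (nat_lit 0)) T0.l2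
  (TrL.c (I.mix (nat_lit 41527258) (nat_lit 41530880)) T0.l5
  (TrL.c (I.mix (nat_lit 41527258) (nat_lit 4274)) T0.l6
  TrL.n)))))))) (by decide +kernel)
theorem bx0_7 : BoxOK sI cl6 cl6 cl6 t0 t0 b0_7 :=
  box_mk (TrL.c (I.pos (nat_lit 0) (nat_lit 0)) (xb (xa (xb T0.l0 T0.l0) T0.l0) (xa (xb T0.l0 (xa T0.l0 T0.l0)) (xb T0.l0 T0.l0)))
  (TrL.c (I.pos (nat_lit 0) (nat_lit 0)) (xb T0.l1 T0.l1)
  (TrL.c (I.pos (nat_lit 0) (nat_lit 89480386)) T0.l2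
  (TrL.c (I.pos (nat_lit 0) (nat_lit 41530880)) T0.l3
  (TrL.c (I.pos (nat_lit 0) (nat_lit 0)) (xb (xa T0.l7 T0.l7) T0.l7)
  (TrL.c (I.pos (nat_lit 0) (nat_lit 0)) T0.l4
  (TrL.c (I.mix (nat_lit 41527258) (nat_lit 41530880)) T0.l5
  (TrL.c (I.mix (nat_lit 41527258) (nat_lit 4274)) T0.l6
  TrL.n)))))))) (by decide +kernel)
theorem sv0 : StarV sI cl6 cl6 cl6 t0 t0 t0 :=
  (bt_n (bt_n (bt_n (bt_b bx0_0) (bt_b bx0_1)) (bt_n (bt_b bx0_2) (bt_b bx0_3))) (bt_n (bt_n (bt_b bx0_4) (bt_b bx0_5)) (bt_n (bt_b bx0_6) (bt_b bx0_7))))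
def S0 : StarD := StarD.mk cl6 cl6 cl6 0 0 t0
def G : List StarD := [S0]
theorem so0 : StarOK sI G S0 :=
  star_mk (by decide) (by decide) rfl rfl rfl rfl rfl rfl (rfl : _ = t0) (rfl : _ = t0)
  (st_mk (Pth.l (Pth.l (Pth.l Pth.z))) (nat_lit 189868709) (nat_lit 190434581) (by decide +kernel))
  (st_mk (Pth.l (Pth.l (Pth.l Pth.z))) (nat_lit 226348918) (nat_lit 227156358) (by decide +kernel))
  (st_mk (Pth.l (Pth.l (Pth.l Pth.z))) (nat_lit 268806879) (nat_lit 269953890) (by decide +kernel)) sv0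
theorem ok : GroupOK (nat_lit 150274048) (nat_lit 209387520) G := grp_mk (allS_c so0 allS_n)
theorem cov : GCov G cl6 cl6 cl6 := cov_mk
  ⟨0, by decide, rfl, rfl, rfl⟩ ⟨0, by decide, rfl, rfl, rfl⟩ ⟨0, by decide, rfl, rfl, rfl⟩ ⟨0, by decide, rfl, rfl, rfl⟩ ⟨0, by decide, rfl, rfl, rfl⟩ ⟨0, by decide, rfl, rfl, rfl⟩
end Q333_2

namespace Q333_3
def sI : I := I.pos (nat_lit 209321984) (nat_lit 268435456)
def b0_0 : Bx := Bx.mk (St.mk (I.pos (nat_lit 145686528) (nat_lit 228409344)) (I.mix (nat_lit 1818624) (nat_lit 59342848)) (I.mix (nat_lit 2654208) (nat_lit 90554368)) (I.pos (nat_lit 186908672) (nat_lit 292929536)) (I.mix (nat_lit 129368064) (nat_lit 80265216)) (I.mix (nat_lit 77332480) (nat_lit 71221248)) (I.mix (nat_lit 107872256) (nat_lit 100827136)))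
  false (nat_lit 0)
def b0_1 : Bx := Bx.mk (St.mk (I.pos (nat_lit 85786624) (nat_lit 163135488)) (I.neg (nat_lit 8011776) (nat_lit 56999936)) (I.mix (nat_lit 49954816) (nat_lit 1130496)) (I.pos (nat_lit 125583360) (nat_lit 192675840)) (I.mix (nat_lit 83247104) (nat_lit 46809088)) (I.mix (nat_lit 37339136) (nat_lit 54181888)) (I.mix (nat_lit 32276480) (nat_lit 47546368)))
  false (nat_lit 0)
def b0_2 : Bx := Bx.mk (St.mk (I.mix (nat_lit 33308672) (nat_lit 101564416)) (I.mix (nat_lit 11059200) (nat_lit 38240256)) (I.mix (nat_lit 16433152) (nat_lit 15728640)) (I.pos (nat_lit 79265792) (nat_lit 127778816)) (I.mix (nat_lit 47497216) (nat_lit 55230464)) (I.mix (nat_lit 40501248) (nat_lit 35012608)) (I.mix (nat_lit 26968064) (nat_lit 19136512)))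
  false (nat_lit 0)
def b0_3 : Bx := Bx.mk (St.mk (I.mix (nat_lit 34406400) (nat_lit 51118080)) (I.mix (nat_lit 32866304) (nat_lit 6553600)) (I.mix (nat_lit 11419648) (nat_lit 2375680)) (I.pos (nat_lit 83361792) (nat_lit 101793792)) (I.mix (nat_lit 34029568) (nat_lit 34865152)) (I.mix (nat_lit 21856256) (nat_lit 26705920)) (I.mix (nat_lit 9125888) (nat_lit 10223616)))
  false (nat_lit 0)
def b0_4 : Bx := Bx.mk (St.mk (I.pos (nat_lit 76431360) (nat_lit 121061376)) (I.mix (nat_lit 54247424) (nat_lit 9650176)) (I.neg (nat_lit 2637824) (nat_lit 47497216)) (I.pos (nat_lit 111919104) (nat_lit 147472384)) (I.mix (nat_lit 83001344) (nat_lit 27508736)) (I.mix (nat_lit 31571968) (nat_lit 62636032)) (I.mix (nat_lit 23691264) (nat_lit 40861696)))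
  false (nat_lit 0)
def b0_5 : Bx := Bx.mk (St.mk (I.mix (nat_lit 52101120) (nat_lit 67796992)) (I.mix (nat_lit 10829824) (nat_lit 33144832)) (I.mix (nat_lit 10944512) (nat_lit 10682368)) (I.pos (nat_lit 84590592) (nat_lit 107233280)) (I.mix (nat_lit 51167232) (nat_lit 33701888)) (I.mix (nat_lit 35946496) (nat_lit 28753920)) (I.mix (nat_lit 13074432) (nat_lit 14024704)))
  false (nat_lit 0)
def b0_6 : Bx := Bx.mk (St.mk (I.mix (nat_lit 51412992) (nat_lit 31653888)) (I.mix (nat_lit 33210368) (nat_lit 7847936)) (I.mix (nat_lit 9797632) (nat_lit 3096576)) (I.pos (nat_lit 83755008) (nat_lit 101793792)) (I.mix (nat_lit 38895616) (nat_lit 28344320)) (I.mix (nat_lit 21135360) (nat_lit 27803648)) (I.mix (nat_lit 10698752) (nat_lit 7241728)))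
  false (nat_lit 0)
def b0_7 : Bx := Bx.mk (St.mk (I.pos (nat_lit 186368000) (nat_lit 286130176)) (I.mix (nat_lit 32243712) (nat_lit 42172416)) (I.mix (nat_lit 91455488) (nat_lit 53821440)) (I.pos (nat_lit 245219328) (nat_lit 408420352)) (I.mix (nat_lit 85622784) (nat_lit 59719680)) (I.mix (nat_lit 54296576) (nat_lit 53264384)) (I.mix (nat_lit 100614144) (nat_lit 89882624)))
  false (nat_lit 0)
def b0_8 : Bx := Bx.mk (St.mk (I.pos (nat_lit 130367488) (nat_lit 195657728)) (I.mix (nat_lit 37421056) (nat_lit 8962048)) (I.mix (nat_lit 29687808) (nat_lit 24428544)) (I.pos (nat_lit 161972224) (nat_lit 229392384)) (I.mix (nat_lit 56082432) (nat_lit 55705600)) (I.mix (nat_lit 49790976) (nat_lit 44728320)) (I.mix (nat_lit 46268416) (nat_lit 41959424)))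
  false (nat_lit 0)
def b0_9 : Bx := Bx.mk (St.mk (I.pos (nat_lit 152059904) (nat_lit 204095488)) (I.mix (nat_lit 4390912) (nat_lit 57311232)) (I.pos (nat_lit 14745600) (nat_lit 84443136)) (I.pos (nat_lit 188104704) (nat_lit 252805120)) (I.mix (nat_lit 134823936) (nat_lit 45334528)) (I.mix (nat_lit 112443392) (nat_lit 64913408)) (I.mix (nat_lit 106332160) (nat_lit 58851328)))
  false (nat_lit 0)
def b0_10 : Bx := Bx.mk (St.mk (I.pos (nat_lit 171753472) (nat_lit 227770368)) (I.pos (nat_lit 11157504) (nat_lit 58982400)) (I.pos (nat_lit 14811136) (nat_lit 87654400)) (I.pos (nat_lit 234799104) (nat_lit 288473088)) (I.mix (nat_lit 110346240) (nat_lit 83804160)) (I.mix (nat_lit 84623360) (nat_lit 64094208)) (I.mix (nat_lit 128434176) (nat_lit 81461248)))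
  false (nat_lit 0)
def b0_11 : Bx := Bx.mk (St.mk (I.pos (nat_lit 153108480) (nat_lit 196575232)) (I.mix (nat_lit 11370496) (nat_lit 29818880)) (I.pos (nat_lit 4718592) (nat_lit 53657600)) (I.pos (nat_lit 188186624) (nat_lit 233111552)) (I.mix (nat_lit 118063104) (nat_lit 52822016)) (I.mix (nat_lit 107462656) (nat_lit 45187072)) (I.mix (nat_lit 105398272) (nat_lit 43712512)))
  false (nat_lit 0)
def t0 : BTr := (BTr.n (BTr.n (BTr.n (BTr.b b0_0) (BTr.n (BTr.b b0_1) (BTr.b b0_2))) (BTr.n (BTr.b b0_3) (BTr.n (BTr.b b0_4) (BTr.b b0_5)))) (BTr.n (BTr.n (BTr.b b0_6) (BTr.n (BTr.b b0_7) (BTr.b b0_8))) (BTr.n (BTr.b b0_9) (BTr.n (BTr.b b0_10) (BTr.b b0_11)))))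
namespace T0
def l0 : Tr := Tr.L (Pth.l (Pth.l (Pth.l Pth.z)))
def l1 : Tr := Tr.L (Pth.l (Pth.l (Pth.r (Pth.l Pth.z))))
def l2 : Tr := Tr.L (Pth.l (Pth.l (Pth.r (Pth.r Pth.z))))
def l3 : Tr := Tr.L (Pth.l (Pth.r (Pth.l Pth.z)))
def l4 : Tr := Tr.L (Pth.l (Pth.r (Pth.r (Pth.l Pth.z))))
def l5 : Tr := Tr.L (Pth.l (Pth.r (Pth.r (Pth.r Pth.z))))
def l6 : Tr := Tr.L (Pth.r (Pth.l (Pth.l Pth.z)))
def l7 : Tr := Tr.L (Pth.r (Pth.l (Pth.r (Pth.l Pth.z))))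
def l8 : Tr := Tr.L (Pth.r (Pth.l (Pth.r (Pth.r Pth.z))))
def l9 : Tr := Tr.L (Pth.r (Pth.r (Pth.l Pth.z)))
def l10 : Tr := Tr.L (Pth.r (Pth.r (Pth.r (Pth.l Pth.z))))
def l11 : Tr := Tr.L (Pth.r (Pth.r (Pth.r (Pth.r Pth.z))))
end T0
theorem bx0_0 : BoxOK sI cl6 cl6 cl6 t0 t0 b0_0 :=
  box_mk (TrL.c (I.pos (nat_lit 0) (nat_lit 0)) (xa (xb (xa T0.l0 T0.l0) (xa T0.l0 T0.l0)) (xb T0.l0 (xa T0.l0 T0.l0)))
  (TrL.c (I.pos (nat_lit 0) (nat_lit 0)) (xa T0.l1 T0.l1)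
  (TrL.c (I.pos (nat_lit 0) (nat_lit 89480386)) T0.l2
  (TrL.c (I.pos (nat_lit 0) (nat_lit 41530880)) T0.l3
  (TrL.c (I.pos (nat_lit 0) (nat_lit 0)) (xa T0.l9 T0.l9)
  (TrL.c (I.pos (nat_lit 0) (nat_lit 0)) T0.l4
  (TrL.c (I.mix (nat_lit 41527258) (nat_lit 41530880)) T0.l5
  (TrL.c (I.mix (nat_lit 41527258) (nat_lit 4274)) T0.l6
  TrL.n)))))))) (by decide +kernel)
theorem bx0_1 : BoxOK sI cl6 cl6 cl6 t0 t0 b0_1 :=
  box_mk (TrL.c (I.pos (nat_lit 0) (nat_lit 0)) (xa T0.l7 T0.l0)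
  (TrL.c (I.pos (nat_lit 0) (nat_lit 0)) T0.l1
  (TrL.c (I.pos (nat_lit 0) (nat_lit 89480386)) T0.l2
  (TrL.c (I.pos (nat_lit 0) (nat_lit 41530880)) T0.l3
  (TrL.c (I.pos (nat_lit 0) (nat_lit 0)) T0.l8
  (TrL.c (I.pos (nat_lit 0) (nat_lit 0)) T0.l4
  (TrL.c (I.mix (nat_lit 41527258) (nat_lit 41530880)) T0.l5
  (TrL.c (I.mix (nat_lit 41527258) (nat_lit 4274)) T0.l6
  TrL.n)))))))) (by decide +kernel)
theorem bx0_2 : BoxOK sI cl6 cl6 cl6 t0 t0 b0_2 :=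
  box_mk (TrL.c (I.pos (nat_lit 0) (nat_lit 0)) (xa (xa (xb T0.l7 T0.l7) T0.l7) (xa T0.l7 T0.l7))
  (TrL.c (I.pos (nat_lit 0) (nat_lit 0)) (xa T0.l1 T0.l1)
  (TrL.c (I.pos (nat_lit 0) (nat_lit 89480386)) T0.l2
  (TrL.c (I.pos (nat_lit 0) (nat_lit 41530880)) T0.l3
  (TrL.c (I.pos (nat_lit 0) (nat_lit 0)) T0.l8
  (TrL.c (I.pos (nat_lit 0) (nat_lit 0)) T0.l4
  (TrL.c (I.mix (nat_lit 41527258) (nat_lit 41530880)) T0.l5
  (TrL.c (I.mix (nat_lit 41527258) (nat_lit 4274)) T0.l6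
  TrL.n)))))))) (by decide +kernel)
theorem bx0_3 : BoxOK sI cl6 cl6 cl6 t0 t0 b0_3 :=
  box_mk (TrL.c (I.pos (nat_lit 0) (nat_lit 0)) T0.l7
  (TrL.c (I.pos (nat_lit 0) (nat_lit 0)) T0.l8
  (TrL.c (I.pos (nat_lit 0) (nat_lit 89480386)) T0.l2
  (TrL.c (I.pos (nat_lit 0) (nat_lit 41530880)) T0.l3
  (TrL.c (I.pos (nat_lit 0) (nat_lit 0)) T0.l8
  (TrL.c (I.pos (nat_lit 0) (nat_lit 0)) T0.l4
  (TrL.c (I.mix (nat_lit 41527258) (nat_lit 41530880)) T0.l5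
  (TrL.c (I.mix (nat_lit 41527258) (nat_lit 4274)) T0.l6
  TrL.n)))))))) (by decide +kernel)
theorem bx0_4 : BoxOK sI cl6 cl6 cl6 t0 t0 b0_4 :=
  box_mk (TrL.c (I.pos (nat_lit 0) (nat_lit 0)) (xb T0.l7 T0.l7)
  (TrL.c (I.pos (nat_lit 0) (nat_lit 0)) T0.l1
  (TrL.c (I.pos (nat_lit 0) (nat_lit 89480386)) T0.l2
  (TrL.c (I.pos (nat_lit 0) (nat_lit 41530880)) T0.l3
  (TrL.c (I.pos (nat_lit 0) (nat_lit 0)) T0.l8
  (TrL.c (I.pos (nat_lit 0) (nat_lit 0)) T0.l4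
  (TrL.c (I.mix (nat_lit 41527258) (nat_lit 41530880)) T0.l5
  (TrL.c (I.mix (nat_lit 41527258) (nat_lit 4274)) T0.l6
  TrL.n)))))))) (by decide +kernel)
theorem bx0_5 : BoxOK sI cl6 cl6 cl6 t0 t0 b0_5 :=
  box_mk (TrL.c (I.pos (nat_lit 0) (nat_lit 0)) (xa (xa (xb T0.l7 T0.l7) T0.l7) T0.l7)
  (TrL.c (I.pos (nat_lit 0) (nat_lit 0)) (xa T0.l8 T0.l1)
  (TrL.c (I.pos (nat_lit 0) (nat_lit 89480386)) T0.l2
  (TrL.c (I.pos (nat_lit 0) (nat_lit 41530880)) T0.l3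
  (TrL.c (I.pos (nat_lit 0) (nat_lit 0)) T0.l8
  (TrL.c (I.pos (nat_lit 0) (nat_lit 0)) T0.l4
  (TrL.c (I.mix (nat_lit 41527258) (nat_lit 41530880)) T0.l5
  (TrL.c (I.mix (nat_lit 41527258) (nat_lit 4274)) T0.l6
  TrL.n)))))))) (by decide +kernel)
theorem bx0_6 : BoxOK sI cl6 cl6 cl6 t0 t0 b0_6 :=
  box_mk (TrL.c (I.pos (nat_lit 0) (nat_lit 0)) (xa (xb T0.l7 T0.l7) T0.l7)
  (TrL.c (I.pos (nat_lit 0) (nat_lit 0)) T0.l8
  (TrL.c (I.pos (nat_lit 0) (nat_lit 89480386)) T0.l2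
  (TrL.c (I.pos (nat_lit 0) (nat_lit 41530880)) T0.l2
  (TrL.c (I.pos (nat_lit 0) (nat_lit 0)) T0.l1
  (TrL.c (I.pos (nat_lit 0) (nat_lit 0)) T0.l2
  (TrL.c (I.mix (nat_lit 41527258) (nat_lit 41530880)) T0.l5
  (TrL.c (I.mix (nat_lit 41527258) (nat_lit 4274)) T0.l5
  TrL.n)))))))) (by decide +kernel)
theorem bx0_7 : BoxOK sI cl6 cl6 cl6 t0 t0 b0_7 :=
  box_mk (TrL.c (I.pos (nat_lit 0) (nat_lit 0)) (xa (xb T0.l0 (xa T0.l0 T0.l0)) (xb (xa T0.l0 T0.l0) (xa T0.l0 T0.l0)))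
  (TrL.c (I.pos (nat_lit 0) (nat_lit 0)) (xa T0.l1 (xb T0.l1 T0.l1))
  (TrL.c (I.pos (nat_lit 0) (nat_lit 89480386)) (xR T0.l2 T0.l2)
  (TrL.c (I.pos (nat_lit 0) (nat_lit 41530880)) T0.l3
  (TrL.c (I.pos (nat_lit 0) (nat_lit 0)) (xb (xa T0.l0 (xa T0.l9 T0.l9)) (xa T0.l9 (xa T0.l9 T0.l9)))
  (TrL.c (I.pos (nat_lit 0) (nat_lit 0)) (xa T0.l4 (xb T0.l1 T0.l4))
  (TrL.c (I.mix (nat_lit 41527258) (nat_lit 41530880)) (xR T0.l2 T0.l2)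
  (TrL.c (I.mix (nat_lit 41527258) (nat_lit 4274)) T0.l6
  TrL.n)))))))) (by decide +kernel)
theorem bx0_8 : BoxOK sI cl6 cl6 cl6 t0 t0 b0_8 :=
  box_mk (TrL.c (I.pos (nat_lit 0) (nat_lit 0)) (xa T0.l0 T0.l0)
  (TrL.c (I.pos (nat_lit 0) (nat_lit 0)) T0.l1
  (TrL.c (I.pos (nat_lit 0) (nat_lit 89480386)) T0.l2
  (TrL.c (I.pos (nat_lit 0) (nat_lit 41530880)) T0.l3
  (TrL.c (I.pos (nat_lit 0) (nat_lit 0)) T0.l11
  (TrL.c (I.pos (nat_lit 0) (nat_lit 0)) T0.l4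
  (TrL.c (I.mix (nat_lit 41527258) (nat_lit 41530880)) T0.l5
  (TrL.c (I.mix (nat_lit 41527258) (nat_lit 4274)) T0.l6
  TrL.n)))))))) (by decide +kernel)
theorem bx0_9 : BoxOK sI cl6 cl6 cl6 t0 t0 b0_9 :=
  box_mk (TrL.c (I.pos (nat_lit 0) (nat_lit 0)) (xb (xa T0.l10 T0.l10) (xa T0.l10 T0.l10))
  (TrL.c (I.pos (nat_lit 0) (nat_lit 0)) T0.l1
  (TrL.c (I.pos (nat_lit 0) (nat_lit 89480386)) T0.l2
  (TrL.c (I.pos (nat_lit 0) (nat_lit 41530880)) T0.l3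
  (TrL.c (I.pos (nat_lit 0) (nat_lit 0)) T0.l11
  (TrL.c (I.pos (nat_lit 0) (nat_lit 0)) T0.l4
  (TrL.c (I.mix (nat_lit 41527258) (nat_lit 41530880)) T0.l5
  (TrL.c (I.mix (nat_lit 41527258) (nat_lit 4274)) T0.l6
  TrL.n)))))))) (by decide +kernel)
theorem bx0_10 : BoxOK sI cl6 cl6 cl6 t0 t0 b0_10 :=
  box_mk (TrL.c (I.pos (nat_lit 0) (nat_lit 0)) (xa (xb T0.l0 T0.l0) (xb T0.l0 T0.l0))
  (TrL.c (I.pos (nat_lit 0) (nat_lit 0)) T0.l1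
  (TrL.c (I.pos (nat_lit 0) (nat_lit 89480386)) T0.l2
  (TrL.c (I.pos (nat_lit 0) (nat_lit 41530880)) T0.l3
  (TrL.c (I.pos (nat_lit 0) (nat_lit 0)) T0.l9
  (TrL.c (I.pos (nat_lit 0) (nat_lit 0)) T0.l4
  (TrL.c (I.mix (nat_lit 41527258) (nat_lit 41530880)) T0.l5
  (TrL.c (I.mix (nat_lit 41527258) (nat_lit 4274)) T0.l6
  TrL.n)))))))) (by decide +kernel)
theorem bx0_11 : BoxOK sI cl6 cl6 cl6 t0 t0 b0_11 :=
  box_mk (TrL.c (I.pos (nat_lit 0) (nat_lit 0)) T0.l10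
  (TrL.c (I.pos (nat_lit 0) (nat_lit 0)) T0.l1
  (TrL.c (I.pos (nat_lit 0) (nat_lit 89480386)) T0.l2
  (TrL.c (I.pos (nat_lit 0) (nat_lit 41530880)) T0.l3
  (TrL.c (I.pos (nat_lit 0) (nat_lit 0)) T0.l11
  (TrL.c (I.pos (nat_lit 0) (nat_lit 0)) T0.l4
  (TrL.c (I.mix (nat_lit 41527258) (nat_lit 41530880)) T0.l5
  (TrL.c (I.mix (nat_lit 41527258) (nat_lit 4274)) T0.l6
  TrL.n)))))))) (by decide +kernel)
theorem sv0 : StarV sI cl6 cl6 cl6 t0 t0 t0 :=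
  (bt_n (bt_n (bt_n (bt_b bx0_0) (bt_n (bt_b bx0_1) (bt_b bx0_2))) (bt_n (bt_b bx0_3) (bt_n (bt_b bx0_4) (bt_b bx0_5)))) (bt_n (bt_n (bt_b bx0_6) (bt_n (bt_b bx0_7) (bt_b bx0_8))) (bt_n (bt_b bx0_9) (bt_n (bt_b bx0_10) (bt_b bx0_11)))))
def S0 : StarD := StarD.mk cl6 cl6 cl6 0 0 t0
def G : List StarD := [S0]
theorem so0 : StarOK sI G S0 :=
  star_mk (by decide) (by decide) rfl rfl rfl rfl rfl rfl (rfl : _ = t0) (rfl : _ = t0)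
  (st_mk (Pth.l (Pth.l (Pth.l Pth.z))) (nat_lit 190424084) (nat_lit 190996649) (by decide +kernel))
  (st_mk (Pth.l (Pth.l (Pth.l Pth.z))) (nat_lit 227145472) (nat_lit 227964490) (by decide +kernel))
  (st_mk (Pth.l (Pth.l (Pth.l Pth.z))) (nat_lit 269942465) (nat_lit 271109366) (by decide +kernel)) sv0
theorem ok : GroupOK (nat_lit 209321984) (nat_lit 268435456) G := grp_mk (allS_c so0 allS_n)
theorem cov : GCov G cl6 cl6 cl6 := cov_mk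
  ⟨0, by decide, rfl, rfl, rfl⟩ ⟨0, by decide, rfl, rfl, rfl⟩ ⟨0, by decide, rfl, rfl, rfl⟩ ⟨0, by decide, rfl, rfl, rfl⟩ ⟨0, by decide, rfl, rfl, rfl⟩ ⟨0, by decide, rfl, rfl, rfl⟩
end Q333_3

namespace Q334_0
def sI : I := I.pos (nat_lit 0) (nat_lit 91291648)
def b0_0 : Bx := Bx.mk (St.mk (I.pos (nat_lit 153108480) (nat_lit 291995648)) (I.mix (nat_lit 38223872) (nat_lit 70270976)) (I.mix (nat_lit 115589120) (nat_lit 100057088)) (I.pos (nat_lit 174866432) (nat_lit 411385856)) (I.mix (nat_lit 97746944) (nat_lit 69894144)) (I.mix (nat_lit 85229568) (nat_lit 58523648)) (I.mix (nat_lit 134971392) (nat_lit 90456064)))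
  false (nat_lit 0)
def b0_1 : Bx := Bx.mk (St.mk (I.mix (nat_lit 37175296) (nat_lit 104316928)) (I.mix (nat_lit 13598720) (nat_lit 40845312)) (I.mix (nat_lit 21872640) (nat_lit 16056320)) (I.pos (nat_lit 79724544) (nat_lit 127746048)) (I.mix (nat_lit 32243712) (nat_lit 34996224)) (I.mix (nat_lit 36618240) (nat_lit 23035904)) (I.mix (nat_lit 23822336) (nat_lit 14106624)))
  false (nat_lit 0)
def b0_2 : Bx := Bx.mk (St.mk (I.pos (nat_lit 76087296) (nat_lit 131219456)) (I.mix (nat_lit 71467008) (nat_lit 13123584)) (I.neg (nat_lit 1572864) (nat_lit 63766528)) (I.pos (nat_lit 110460928) (nat_lit 152551424)) (I.mix (nat_lit 77545472) (nat_lit 27033600)) (I.mix (nat_lit 43270144) (nat_lit 73154560)) (I.mix (nat_lit 31342592) (nat_lit 51298304)))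
  false (nat_lit 0)
def b0_3 : Bx := Bx.mk (St.mk (I.mix (nat_lit 53067776) (nat_lit 33701888)) (I.mix (nat_lit 39682048) (nat_lit 11026432)) (I.mix (nat_lit 13844480) (nat_lit 2850816)) (I.pos (nat_lit 81772544) (nat_lit 101056512)) (I.mix (nat_lit 29343744) (nat_lit 19972096)) (I.mix (nat_lit 18825216) (nat_lit 29229056)) (I.mix (nat_lit 11010048) (nat_lit 7323648)))
  false (nat_lit 0)
def b0_4 : Bx := Bx.mk (St.mk (I.pos (nat_lit 83656704) (nat_lit 168296448)) (I.neg (nat_lit 688128) (nat_lit 79921152)) (I.neg (nat_lit 212992) (nat_lit 74612736)) (I.pos (nat_lit 123944960) (nat_lit 195002368)) (I.mix (nat_lit 84918272) (nat_lit 45400064)) (I.mix (nat_lit 39960576) (nat_lit 68304896)) (I.mix (nat_lit 30900224) (nat_lit 60030976)))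
  false (nat_lit 0)
def b0_5 : Bx := Bx.mk (St.mk (I.mix (nat_lit 36519936) (nat_lit 52019200)) (I.mix (nat_lit 41582592) (nat_lit 8749056)) (I.mix (nat_lit 17137664) (nat_lit 1015808)) (I.pos (nat_lit 81215488) (nat_lit 101548032)) (I.mix (nat_lit 27377664) (nat_lit 26165248)) (I.mix (nat_lit 19595264) (nat_lit 31850496)) (I.mix (nat_lit 8978432) (nat_lit 11436032)))
  false (nat_lit 0)
def b0_6 : Bx := Bx.mk (St.mk (I.mix (nat_lit 55017472) (nat_lit 89538560)) (I.mix (nat_lit 8683520) (nat_lit 41566208)) (I.mix (nat_lit 18006016) (nat_lit 16334848)) (I.pos (nat_lit 80543744) (nat_lit 113442816)) (I.mix (nat_lit 33292288) (nat_lit 26787840)) (I.mix (nat_lit 37060608) (nat_lit 22364160)) (I.mix (nat_lit 13598720) (nat_lit 11321344)))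
  false (nat_lit 0)
def b0_7 : Bx := Bx.mk (St.mk (I.pos (nat_lit 132710400) (nat_lit 221708288)) (I.mix (nat_lit 48791552) (nat_lit 79855616)) (I.mix (nat_lit 49938432) (nat_lit 107184128)) (I.pos (nat_lit 158531584) (nat_lit 266862592)) (I.mix (nat_lit 129531904) (nat_lit 53166080)) (I.mix (nat_lit 139018240) (nat_lit 80445440)) (I.mix (nat_lit 140541952) (nat_lit 79216640)))
  false (nat_lit 0)
def t0 : BTr := (BTr.n (BTr.n (BTr.n (BTr.b b0_0) (BTr.b b0_1)) (BTr.n (BTr.b b0_2) (BTr.b b0_3))) (BTr.n (BTr.n (BTr.b b0_4) (BTr.b b0_5)) (BTr.n (BTr.b b0_6) (BTr.b b0_7))))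
namespace T0
def l0 : Tr := Tr.L (Pth.l (Pth.l (Pth.l Pth.z)))
def l1 : Tr := Tr.L (Pth.l (Pth.l (Pth.r Pth.z)))
def l2 : Tr := Tr.L (Pth.l (Pth.r (Pth.l Pth.z)))
def l3 : Tr := Tr.L (Pth.l (Pth.r (Pth.r Pth.z)))
def l4 : Tr := Tr.L (Pth.r (Pth.l (Pth.l Pth.z)))
def l5 : Tr := Tr.L (Pth.r (Pth.l (Pth.r Pth.z)))
def l6 : Tr := Tr.L (Pth.r (Pth.r (Pth.l Pth.z)))
def l7 : Tr := Tr.L (Pth.r (Pth.r (Pth.r Pth.z)))
end T0
def b1_0 : Bx := Bx.mk (St.mk (I.pos (nat_lit 153239552) (nat_lit 289652736)) (I.mix (nat_lit 38961152) (nat_lit 75382784)) (I.mix (nat_lit 96501760) (nat_lit 125255680)) (I.pos (nat_lit 129957888) (nat_lit 380485632)) (I.mix (nat_lit 90112000) (nat_lit 65978368)) (I.mix (nat_lit 85049344) (nat_lit 57245696)) (I.mix (nat_lit 138887168) (nat_lit 84508672)))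
  false (nat_lit 0)
def b1_1 : Bx := Bx.mk (St.mk (I.pos (nat_lit 94568448) (nat_lit 179355648)) (I.mix (nat_lit 73908224) (nat_lit 1097728)) (I.mix (nat_lit 70057984) (nat_lit 4849664)) (I.pos (nat_lit 93274112) (nat_lit 183730176)) (I.mix (nat_lit 84115456) (nat_lit 45056000)) (I.mix (nat_lit 42401792) (nat_lit 69730304)) (I.mix (nat_lit 34045952) (nat_lit 68206592)))
  false (nat_lit 0)
def b1_2 : Bx := Bx.mk (St.mk (I.mix (nat_lit 28278784) (nat_lit 125763584)) (I.mix (nat_lit 13123584) (nat_lit 37617664)) (I.mix (nat_lit 16875520) (nat_lit 25100288)) (I.pos (nat_lit 37715968) (nat_lit 119439360)) (I.mix (nat_lit 34504704) (nat_lit 28557312)) (I.mix (nat_lit 35536896) (nat_lit 22249472)) (I.mix (nat_lit 25657344) (nat_lit 15548416)))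
  false (nat_lit 0)
def b1_3 : Bx := Bx.mk (St.mk (I.mix (nat_lit 28590080) (nat_lit 89522176)) (I.mix (nat_lit 36438016) (nat_lit 6094848)) (I.mix (nat_lit 20414464) (nat_lit 5455872)) (I.pos (nat_lit 38993920) (nat_lit 92127232)) (I.mix (nat_lit 28803072) (nat_lit 23396352)) (I.mix (nat_lit 18923520) (nat_lit 29933568)) (I.mix (nat_lit 10764288) (nat_lit 16089088)))
  false (nat_lit 0)
def b1_4 : Bx := Bx.mk (St.mk (I.pos (nat_lit 141180928) (nat_lit 221986816)) (I.mix (nat_lit 45563904) (nat_lit 75694080)) (I.mix (nat_lit 43909120) (nat_lit 115015680)) (I.pos (nat_lit 124157952) (nat_lit 245940224)) (I.mix (nat_lit 131072000) (nat_lit 51527680)) (I.mix (nat_lit 147505152) (nat_lit 77676544)) (I.mix (nat_lit 173539328) (nat_lit 84033536)))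
  false (nat_lit 0)
def b1_5 : Bx := Bx.mk (St.mk (I.pos (nat_lit 91029504) (nat_lit 152109056)) (I.mix (nat_lit 70795264) (nat_lit 12304384)) (I.mix (nat_lit 65454080) (nat_lit 5226496)) (I.pos (nat_lit 76726272) (nat_lit 147472384)) (I.mix (nat_lit 90243072) (nat_lit 29016064)) (I.mix (nat_lit 47235072) (nat_lit 88145920)) (I.mix (nat_lit 35340288) (nat_lit 65699840)))
  false (nat_lit 0)
def b1_6 : Bx := Bx.mk (St.mk (I.mix (nat_lit 42123264) (nat_lit 112427008)) (I.mix (nat_lit 15368192) (nat_lit 42221568)) (I.mix (nat_lit 8880128) (nat_lit 27803648)) (I.pos (nat_lit 39043072) (nat_lit 107577344)) (I.mix (nat_lit 44728320) (nat_lit 19988480)) (I.mix (nat_lit 45219840) (nat_lit 27279360)) (I.mix (nat_lit 25362432) (nat_lit 16564224)))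
  false (nat_lit 0)
def b1_7 : Bx := Bx.mk (St.mk (I.mix (nat_lit 31801344) (nat_lit 79888384)) (I.mix (nat_lit 34357248) (nat_lit 8355840)) (I.mix (nat_lit 16711680) (nat_lit 4096000)) (I.pos (nat_lit 40517632) (nat_lit 83345408)) (I.mix (nat_lit 29687808) (nat_lit 14401536)) (I.mix (nat_lit 17711104) (nat_lit 28540928)) (I.mix (nat_lit 8028160) (nat_lit 11239424)))
  false (nat_lit 0)
def t1 : BTr := (BTr.n (BTr.n (BTr.n (BTr.b b1_0) (BTr.b b1_1)) (BTr.n (BTr.b b1_2) (BTr.b b1_3))) (BTr.n (BTr.n (BTr.b b1_4) (BTr.b b1_5)) (BTr.n (BTr.b b1_6) (BTr.b b1_7))))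
namespace T1
def l0 : Tr := Tr.L (Pth.l (Pth.l (Pth.l Pth.z)))
def l1 : Tr := Tr.L (Pth.l (Pth.l (Pth.r Pth.z)))
def l2 : Tr := Tr.L (Pth.l (Pth.r (Pth.l Pth.z)))
def l3 : Tr := Tr.L (Pth.l (Pth.r (Pth.r Pth.z)))
def l4 : Tr := Tr.L (Pth.r (Pth.l (Pth.l Pth.z)))
def l5 : Tr := Tr.L (Pth.r (Pth.l (Pth.r Pth.z)))
def l6 : Tr := Tr.L (Pth.r (Pth.r (Pth.l Pth.z)))
def l7 : Tr := Tr.L (Pth.r (Pth.r (Pth.r Pth.z)))
end T1
def b2_0 : Bx := Bx.mk (St.mk (I.pos (nat_lit 153075712) (nat_lit 292503552)) (I.mix (nat_lit 27934720) (nat_lit 70156288)) (I.mix (nat_lit 72187904) (nat_lit 115277824)) (I.pos (nat_lit 174096384) (nat_lit 407699456)) (I.mix (nat_lit 97976320) (nat_lit 73482240)) (I.mix (nat_lit 93175808) (nat_lit 63537152)) (I.mix (nat_lit 143556608) (nat_lit 89423872)))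
  false (nat_lit 15506582)
def b2_1 : Bx := Bx.mk (St.mk (I.pos (nat_lit 88145920) (nat_lit 170393600)) (I.neg (nat_lit 5423104) (nat_lit 74940416)) (I.mix (nat_lit 63160320) (nat_lit 6963200)) (I.pos (nat_lit 126550016) (nat_lit 197001216)) (I.mix (nat_lit 75022336) (nat_lit 44597248)) (I.mix (nat_lit 35454976) (nat_lit 61341696)) (I.mix (nat_lit 30736384) (nat_lit 53329920)))
  false (nat_lit 0)
def b2_2 : Bx := Bx.mk (St.mk (I.mix (nat_lit 34914304) (nat_lit 53116928)) (I.mix (nat_lit 39796736) (nat_lit 9404416)) (I.mix (nat_lit 11173888) (nat_lit 6799360)) (I.pos (nat_lit 81592320) (nat_lit 101056512)) (I.mix (nat_lit 24674304) (nat_lit 27017216)) (I.mix (nat_lit 19185664) (nat_lit 28213248)) (I.mix (nat_lit 8241152) (nat_lit 10158080)))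
  false (nat_lit 0)
def b2_3 : Bx := Bx.mk (St.mk (I.pos (nat_lit 133496832) (nat_lit 220250112)) (I.mix (nat_lit 43237376) (nat_lit 75284480)) (I.mix (nat_lit 32866304) (nat_lit 112951296)) (I.pos (nat_lit 157237248) (nat_lit 263962624)) (I.mix (nat_lit 135053312) (nat_lit 52559872)) (I.mix (nat_lit 146014208) (nat_lit 77447168)) (I.mix (nat_lit 153681920) (nat_lit 77053952)))
  false (nat_lit 2891487)
def b2_4 : Bx := Bx.mk (St.mk (I.mix (nat_lit 55705600) (nat_lit 80592896)) (I.mix (nat_lit 11370496) (nat_lit 39911424)) (I.mix (nat_lit 11845632) (nat_lit 18694144)) (I.pos (nat_lit 81051648) (nat_lit 110624768)) (I.mix (nat_lit 33947648) (nat_lit 25051136)) (I.mix (nat_lit 34701312) (nat_lit 21512192)) (I.mix (nat_lit 12910592) (nat_lit 10420224)))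
  false (nat_lit 0)
def b2_5 : Bx := Bx.mk (St.mk (I.mix (nat_lit 38715392) (nat_lit 102858752)) (I.mix (nat_lit 10010624) (nat_lit 41615360)) (I.mix (nat_lit 13074432) (nat_lit 23674880)) (I.pos (nat_lit 79691776) (nat_lit 126763008)) (I.mix (nat_lit 35995648) (nat_lit 33898496)) (I.mix (nat_lit 40648704) (nat_lit 24264704)) (I.mix (nat_lit 25477120) (nat_lit 15499264)))
  false (nat_lit 0)
def b2_6 : Bx := Bx.mk (St.mk (I.pos (nat_lit 78577664) (nat_lit 132644864)) (I.mix (nat_lit 74989568) (nat_lit 12419072)) (I.mix (nat_lit 58884096) (nat_lit 3162112)) (I.pos (nat_lit 111951872) (nat_lit 153468928)) (I.mix (nat_lit 83197952) (nat_lit 28491776)) (I.mix (nat_lit 43745280) (nat_lit 72695808)) (I.mix (nat_lit 31588352) (nat_lit 49217536)))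
  false (nat_lit 0)
def b2_7 : Bx := Bx.mk (St.mk (I.mix (nat_lit 52199424) (nat_lit 35241984)) (I.mix (nat_lit 41500672) (nat_lit 7438336)) (I.mix (nat_lit 8028160) (nat_lit 8978432)) (I.pos (nat_lit 81723392) (nat_lit 101187584)) (I.mix (nat_lit 28524544) (nat_lit 23314432)) (I.mix (nat_lit 19415040) (nat_lit 30916608)) (I.mix (nat_lit 11288576) (nat_lit 7569408)))
  false (nat_lit 0)
def t2 : BTr := (BTr.n (BTr.n (BTr.n (BTr.b b2_0) (BTr.b b2_1)) (BTr.n (BTr.b b2_2) (BTr.b b2_3))) (BTr.n (BTr.n (BTr.b b2_4) (BTr.b b2_5)) (BTr.n (BTr.b b2_6) (BTr.b b2_7))))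
namespace T2
def l0 : Tr := Tr.L (Pth.l (Pth.l (Pth.l Pth.z)))
def l1 : Tr := Tr.L (Pth.l (Pth.l (Pth.r Pth.z)))
def l2 : Tr := Tr.L (Pth.l (Pth.r (Pth.l Pth.z)))
def l3 : Tr := Tr.L (Pth.l (Pth.r (Pth.r Pth.z)))
def l4 : Tr := Tr.L (Pth.r (Pth.l (Pth.l Pth.z)))
def l5 : Tr := Tr.L (Pth.r (Pth.l (Pth.r Pth.z)))
def l6 : Tr := Tr.L (Pth.r (Pth.r (Pth.l Pth.z)))
def l7 : Tr := Tr.L (Pth.r (Pth.r (Pth.r Pth.z)))
end T2
theorem bx0_0 : BoxOK sI cl6 cl6 cl7 t0 t2 b0_0 :=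
  box_mk (TrL.c (I.pos (nat_lit 0) (nat_lit 0)) (xa (xb T0.l0 (xa T0.l0 T0.l0)) T0.l7)
  (TrL.c (I.pos (nat_lit 0) (nat_lit 0)) T2.l1
  (TrL.c (I.pos (nat_lit 0) (nat_lit 89480386)) (xR T0.l1 (xR T0.l1 T0.l1))
  (TrL.c (I.pos (nat_lit 0) (nat_lit 41530880)) T2.l2
  (TrL.c (I.pos (nat_lit 0) (nat_lit 0)) (xa T2.l3 (xb (xa T2.l3 T2.l3) (xa T2.l3 T2.l3)))
  (TrL.c (I.pos (nat_lit 0) (nat_lit 0)) T0.l2
  (TrL.c (I.mix (nat_lit 41527258) (nat_lit 41530880)) (xR T2.l4 T2.l5)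
  (TrL.c (I.mix (nat_lit 41527258) (nat_lit 4274)) T0.l3
  TrL.n)))))))) (by decide +kernel)
theorem bx0_1 : BoxOK sI cl6 cl6 cl7 t0 t2 b0_1 :=
  box_mk (TrL.c (I.pos (nat_lit 0) (nat_lit 0)) T0.l0
  (TrL.c (I.pos (nat_lit 0) (nat_lit 0)) T2.l1
  (TrL.c (I.pos (nat_lit 0) (nat_lit 89480386)) T0.l1
  (TrL.c (I.pos (nat_lit 0) (nat_lit 41530880)) T2.l2
  (TrL.c (I.pos (nat_lit 0) (nat_lit 0)) T2.l3
  (TrL.c (I.pos (nat_lit 0) (nat_lit 0)) T0.l2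
  (TrL.c (I.mix (nat_lit 41527258) (nat_lit 41530880)) T2.l4
  (TrL.c (I.mix (nat_lit 41527258) (nat_lit 4274)) T0.l3
  TrL.n)))))))) (by decide +kernel)
theorem bx0_2 : BoxOK sI cl6 cl6 cl7 t0 t2 b0_2 :=
  box_mk (TrL.c (I.pos (nat_lit 0) (nat_lit 0)) T0.l0
  (TrL.c (I.pos (nat_lit 0) (nat_lit 0)) T2.l1
  (TrL.c (I.pos (nat_lit 0) (nat_lit 89480386)) T0.l1
  (TrL.c (I.pos (nat_lit 0) (nat_lit 41530880)) T2.l2
  (TrL.c (I.pos (nat_lit 0) (nat_lit 0)) T2.l3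
  (TrL.c (I.pos (nat_lit 0) (nat_lit 0)) T0.l2
  (TrL.c (I.mix (nat_lit 41527258) (nat_lit 41530880)) T2.l4
  (TrL.c (I.mix (nat_lit 41527258) (nat_lit 4274)) T0.l3
  TrL.n)))))))) (by decide +kernel)
theorem bx0_3 : BoxOK sI cl6 cl6 cl7 t0 t2 b0_3 :=
  box_mk (TrL.c (I.pos (nat_lit 0) (nat_lit 0)) T0.l0
  (TrL.c (I.pos (nat_lit 0) (nat_lit 0)) T2.l3
  (TrL.c (I.pos (nat_lit 0) (nat_lit 89480386)) T0.l1
  (TrL.c (I.pos (nat_lit 0) (nat_lit 41530880)) T2.l2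
  (TrL.c (I.pos (nat_lit 0) (nat_lit 0)) T2.l3
  (TrL.c (I.pos (nat_lit 0) (nat_lit 0)) T0.l2
  (TrL.c (I.mix (nat_lit 41527258) (nat_lit 41530880)) (xR T2.l4 T2.l4)
  (TrL.c (I.mix (nat_lit 41527258) (nat_lit 4274)) T0.l3
  TrL.n)))))))) (by decide +kernel)
theorem bx0_4 : BoxOK sI cl6 cl6 cl7 t0 t2 b0_4 :=
  box_mk (TrL.c (I.pos (nat_lit 0) (nat_lit 0)) T0.l0
  (TrL.c (I.pos (nat_lit 0) (nat_lit 0)) T2.l1
  (TrL.c (I.pos (nat_lit 0) (nat_lit 89480386)) T0.l1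
  (TrL.c (I.pos (nat_lit 0) (nat_lit 41530880)) T2.l2
  (TrL.c (I.pos (nat_lit 0) (nat_lit 0)) T2.l3
  (TrL.c (I.pos (nat_lit 0) (nat_lit 0)) T0.l2
  (TrL.c (I.mix (nat_lit 41527258) (nat_lit 41530880)) T2.l4
  (TrL.c (I.mix (nat_lit 41527258) (nat_lit 4274)) T0.l3
  TrL.n)))))))) (by decide +kernel)
theorem bx0_5 : BoxOK sI cl6 cl6 cl7 t0 t2 b0_5 :=
  box_mk (TrL.c (I.pos (nat_lit 0) (nat_lit 0)) T0.l0
  (TrL.c (I.pos (nat_lit 0) (nat_lit 0)) T2.l3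
  (TrL.c (I.pos (nat_lit 0) (nat_lit 89480386)) T0.l1
  (TrL.c (I.pos (nat_lit 0) (nat_lit 41530880)) T2.l2
  (TrL.c (I.pos (nat_lit 0) (nat_lit 0)) T2.l3
  (TrL.c (I.pos (nat_lit 0) (nat_lit 0)) T0.l2
  (TrL.c (I.mix (nat_lit 41527258) (nat_lit 41530880)) T2.l4
  (TrL.c (I.mix (nat_lit 41527258) (nat_lit 4274)) T0.l3
  TrL.n)))))))) (by decide +kernel)
theorem bx0_6 : BoxOK sI cl6 cl6 cl7 t0 t2 b0_6 :=
  box_mk (TrL.c (I.pos (nat_lit 0) (nat_lit 0)) T0.l0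
  (TrL.c (I.pos (nat_lit 0) (nat_lit 0)) T2.l1
  (TrL.c (I.pos (nat_lit 0) (nat_lit 89480386)) T0.l1
  (TrL.c (I.pos (nat_lit 0) (nat_lit 41530880)) T2.l2
  (TrL.c (I.pos (nat_lit 0) (nat_lit 0)) T2.l3
  (TrL.c (I.pos (nat_lit 0) (nat_lit 0)) T0.l2
  (TrL.c (I.mix (nat_lit 41527258) (nat_lit 41530880)) T2.l4
  (TrL.c (I.mix (nat_lit 41527258) (nat_lit 4274)) T0.l3
  TrL.n)))))))) (by decide +kernel)
theorem bx0_7 : BoxOK sI cl6 cl6 cl7 t0 t2 b0_7 :=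
  box_mk (TrL.c (I.pos (nat_lit 0) (nat_lit 0)) (xa (xb (xb T0.l0 T0.l0) (xa T0.l0 T0.l0)) (xb T0.l0 (xa T0.l0 T0.l0)))
  (TrL.c (I.pos (nat_lit 0) (nat_lit 0)) T2.l1
  (TrL.c (I.pos (nat_lit 0) (nat_lit 89480386)) (xR T0.l1 T0.l1)
  (TrL.c (I.pos (nat_lit 0) (nat_lit 41530880)) T2.l2
  (TrL.c (I.pos (nat_lit 0) (nat_lit 0)) (xb T2.l3 T2.l3)
  (TrL.c (I.pos (nat_lit 0) (nat_lit 0)) T0.l2
  (TrL.c (I.mix (nat_lit 41527258) (nat_lit 41530880)) (xR T2.l4 T2.l5)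
  (TrL.c (I.mix (nat_lit 41527258) (nat_lit 4274)) T0.l3
  TrL.n)))))))) (by decide +kernel)
theorem sv0 : StarV sI cl6 cl6 cl7 t0 t2 t0 :=
  (bt_n (bt_n (bt_n (bt_b bx0_0) (bt_b bx0_1)) (bt_n (bt_b bx0_2) (bt_b bx0_3))) (bt_n (bt_n (bt_b bx0_4) (bt_b bx0_5)) (bt_n (bt_b bx0_6) (bt_b bx0_7))))
def S0 : StarD := StarD.mk cl6 cl6 cl7 0 2 t0
theorem bx1_0 : BoxOK sI cl6 cl7 cl6 t2 t0 b1_0 :=
  box_mk (TrL.c (I.pos (nat_lit 0) (nat_lit 0)) (xa (xb T2.l0 (xa T2.l0 T2.l0)) (xb T2.l3 (xa T2.l0 T2.l3)))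
  (TrL.c (I.pos (nat_lit 0) (nat_lit 0)) T0.l4
  (TrL.c (I.pos (nat_lit 0) (nat_lit 89480386)) (xR T2.l5 (xR T2.l5 T2.l5))
  (TrL.c (I.pos (nat_lit 0) (nat_lit 41530880)) T0.l5
  (TrL.c (I.pos (nat_lit 0) (nat_lit 0)) (xa T0.l7 (xb (xa T0.l7 T0.l7) (xa T0.l7 (xs T0.l7 T0.l7))))
  (TrL.c (I.pos (nat_lit 0) (nat_lit 0)) T2.l6
  (TrL.c (I.mix (nat_lit 41527258) (nat_lit 41530880)) (xR T0.l1 T0.l6)
  (TrL.c (I.mix (nat_lit 41527258) (nat_lit 4274)) T2.l7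
  TrL.n)))))))) (by decide +kernel)
theorem bx1_1 : BoxOK sI cl6 cl7 cl6 t2 t0 b1_1 :=
  box_mk (TrL.c (I.pos (nat_lit 0) (nat_lit 0)) T2.l0
  (TrL.c (I.pos (nat_lit 0) (nat_lit 0)) T0.l4
  (TrL.c (I.pos (nat_lit 0) (nat_lit 89480386)) T2.l5
  (TrL.c (I.pos (nat_lit 0) (nat_lit 41530880)) T0.l5
  (TrL.c (I.pos (nat_lit 0) (nat_lit 0)) T0.l7
  (TrL.c (I.pos (nat_lit 0) (nat_lit 0)) T2.l6
  (TrL.c (I.mix (nat_lit 41527258) (nat_lit 41530880)) T0.l6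
  (TrL.c (I.mix (nat_lit 41527258) (nat_lit 4274)) T2.l7
  TrL.n)))))))) (by decide +kernel)
theorem bx1_2 : BoxOK sI cl6 cl7 cl6 t2 t0 b1_2 :=
  box_mk (TrL.c (I.pos (nat_lit 0) (nat_lit 0)) T2.l0
  (TrL.c (I.pos (nat_lit 0) (nat_lit 0)) T0.l4
  (TrL.c (I.pos (nat_lit 0) (nat_lit 89480386)) T2.l5
  (TrL.c (I.pos (nat_lit 0) (nat_lit 41530880)) T0.l5
  (TrL.c (I.pos (nat_lit 0) (nat_lit 0)) T0.l7
  (TrL.c (I.pos (nat_lit 0) (nat_lit 0)) T2.l6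
  (TrL.c (I.mix (nat_lit 41527258) (nat_lit 41530880)) T0.l6
  (TrL.c (I.mix (nat_lit 41527258) (nat_lit 4274)) T2.l7
  TrL.n)))))))) (by decide +kernel)
theorem bx1_3 : BoxOK sI cl6 cl7 cl6 t2 t0 b1_3 :=
  box_mk (TrL.c (I.pos (nat_lit 0) (nat_lit 0)) T2.l0
  (TrL.c (I.pos (nat_lit 0) (nat_lit 0)) T0.l4
  (TrL.c (I.pos (nat_lit 0) (nat_lit 89480386)) T2.l5
  (TrL.c (I.pos (nat_lit 0) (nat_lit 41530880)) T0.l5
  (TrL.c (I.pos (nat_lit 0) (nat_lit 0)) T0.l7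
  (TrL.c (I.pos (nat_lit 0) (nat_lit 0)) T2.l6
  (TrL.c (I.mix (nat_lit 41527258) (nat_lit 41530880)) (xR T0.l6 T0.l1)
  (TrL.c (I.mix (nat_lit 41527258) (nat_lit 4274)) T2.l7
  TrL.n)))))))) (by decide +kernel)
theorem bx1_4 : BoxOK sI cl6 cl7 cl6 t2 t0 b1_4 :=
  box_mk (TrL.c (I.pos (nat_lit 0) (nat_lit 0)) (xb (xa (xb T2.l0 T2.l0) T2.l0) (xa (xa (xb T2.l0 T2.l0) T2.l0) (xs T2.l0 (xb T2.l0 T2.l0))))
  (TrL.c (I.pos (nat_lit 0) (nat_lit 0)) T0.l4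
  (TrL.c (I.pos (nat_lit 0) (nat_lit 89480386)) (xR T2.l5 T2.l5)
  (TrL.c (I.pos (nat_lit 0) (nat_lit 41530880)) T0.l5
  (TrL.c (I.pos (nat_lit 0) (nat_lit 0)) (xb T0.l7 T0.l7)
  (TrL.c (I.pos (nat_lit 0) (nat_lit 0)) T2.l6
  (TrL.c (I.mix (nat_lit 41527258) (nat_lit 41530880)) (xR T0.l1 T0.l6)
  (TrL.c (I.mix (nat_lit 41527258) (nat_lit 4274)) T2.l7
  TrL.n)))))))) (by decide +kernel)
theorem bx1_5 : BoxOK sI cl6 cl7 cl6 t2 t0 b1_5 :=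
  box_mk (TrL.c (I.pos (nat_lit 0) (nat_lit 0)) T2.l0
  (TrL.c (I.pos (nat_lit 0) (nat_lit 0)) T0.l4
  (TrL.c (I.pos (nat_lit 0) (nat_lit 89480386)) T2.l5
  (TrL.c (I.pos (nat_lit 0) (nat_lit 41530880)) T0.l5
  (TrL.c (I.pos (nat_lit 0) (nat_lit 0)) T0.l7
  (TrL.c (I.pos (nat_lit 0) (nat_lit 0)) T2.l6
  (TrL.c (I.mix (nat_lit 41527258) (nat_lit 41530880)) T0.l6
  (TrL.c (I.mix (nat_lit 41527258) (nat_lit 4274)) T2.l7
  TrL.n)))))))) (by decide +kernel)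
theorem bx1_6 : BoxOK sI cl6 cl7 cl6 t2 t0 b1_6 :=
  box_mk (TrL.c (I.pos (nat_lit 0) (nat_lit 0)) T2.l0
  (TrL.c (I.pos (nat_lit 0) (nat_lit 0)) T0.l4
  (TrL.c (I.pos (nat_lit 0) (nat_lit 89480386)) T2.l5
  (TrL.c (I.pos (nat_lit 0) (nat_lit 41530880)) T0.l5
  (TrL.c (I.pos (nat_lit 0) (nat_lit 0)) T0.l7
  (TrL.c (I.pos (nat_lit 0) (nat_lit 0)) T2.l6
  (TrL.c (I.mix (nat_lit 41527258) (nat_lit 41530880)) (xR T0.l6 T0.l1)
  (TrL.c (I.mix (nat_lit 41527258) (nat_lit 4274)) T2.l7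
  TrL.n)))))))) (by decide +kernel)
theorem bx1_7 : BoxOK sI cl6 cl7 cl6 t2 t0 b1_7 :=
  box_mk (TrL.c (I.pos (nat_lit 0) (nat_lit 0)) T2.l0
  (TrL.c (I.pos (nat_lit 0) (nat_lit 0)) T0.l4
  (TrL.c (I.pos (nat_lit 0) (nat_lit 89480386)) T2.l5
  (TrL.c (I.pos (nat_lit 0) (nat_lit 41530880)) T0.l5
  (TrL.c (I.pos (nat_lit 0) (nat_lit 0)) T0.l7
  (TrL.c (I.pos (nat_lit 0) (nat_lit 0)) T2.l6
  (TrL.c (I.mix (nat_lit 41527258) (nat_lit 41530880)) (xR T0.l6 T0.l1)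
  (TrL.c (I.mix (nat_lit 41527258) (nat_lit 4274)) T2.l7
  TrL.n)))))))) (by decide +kernel)
theorem sv1 : StarV sI cl6 cl7 cl6 t2 t0 t1 :=
  (bt_n (bt_n (bt_n (bt_b bx1_0) (bt_b bx1_1)) (bt_n (bt_b bx1_2) (bt_b bx1_3))) (bt_n (bt_n (bt_b bx1_4) (bt_b bx1_5)) (bt_n (bt_b bx1_6) (bt_b bx1_7))))
def S1 : StarD := StarD.mk cl6 cl7 cl6 2 0 t1
theorem bx2_0 : BoxOK sI cl7 cl6 cl6 t1 t1 b2_0 :=
  box_mk (TrL.c (I.pos (nat_lit 0) (nat_lit 0)) (xa (xa (xb T1.l0 T1.l0) (xb T1.l0 T1.l0)) (xa (xb T1.l0 T1.l0) T1.l4))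
  (TrL.c (I.pos (nat_lit 0) (nat_lit 0)) T1.l1
  (TrL.c (I.pos (nat_lit 0) (nat_lit 111196574)) (xR T1.l2 (xR T1.l2 T1.l2))
  (TrL.c (I.pos (nat_lit 0) (nat_lit 77433728)) (xR T1.l3 T1.l3)
  (TrL.c (I.pos (nat_lit 0) (nat_lit 0)) (xa T1.l4 (xb (xa T1.l4 (xk (xb T1.l4 T1.l4) (xb T1.l4 T1.l4))) (xa T1.l4 (xk (xs (xa T1.l4 T1.l4) (xa T1.l4 T1.l4)) (xs (xa T1.l4 T1.l4) (xa T1.l4 T1.l4))))))
  (TrL.c (I.pos (nat_lit 0) (nat_lit 0)) T1.l5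
  (TrL.c (I.mix (nat_lit 29511666) (nat_lit 77433728)) (xR T1.l6 (xR T1.l6 T1.l6))
  (TrL.c (I.mix (nat_lit 29511666) (nat_lit 46070178)) (xR T1.l7 T1.l7)
  TrL.n)))))))) (by decide +kernel)
theorem bx2_1 : BoxOK sI cl7 cl6 cl6 t1 t1 b2_1 :=
  box_mk (TrL.c (I.pos (nat_lit 0) (nat_lit 0)) T1.l0
  (TrL.c (I.pos (nat_lit 0) (nat_lit 0)) T1.l1
  (TrL.c (I.pos (nat_lit 0) (nat_lit 111196574)) T1.l2
  (TrL.c (I.pos (nat_lit 0) (nat_lit 77433728)) T1.l3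
  (TrL.c (I.pos (nat_lit 0) (nat_lit 0)) T1.l4
  (TrL.c (I.pos (nat_lit 0) (nat_lit 0)) T1.l5
  (TrL.c (I.mix (nat_lit 29511666) (nat_lit 77433728)) T1.l6
  (TrL.c (I.mix (nat_lit 29511666) (nat_lit 46070178)) T1.l7
  TrL.n)))))))) (by decide +kernel)
theorem bx2_2 : BoxOK sI cl7 cl6 cl6 t1 t1 b2_2 :=
  box_mk (TrL.c (I.pos (nat_lit 0) (nat_lit 0)) T1.l0
  (TrL.c (I.pos (nat_lit 0) (nat_lit 0)) T1.l1
  (TrL.c (I.pos (nat_lit 0) (nat_lit 111196574)) T1.l2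
  (TrL.c (I.pos (nat_lit 0) (nat_lit 77433728)) T1.l2
  (TrL.c (I.pos (nat_lit 0) (nat_lit 0)) T1.l4
  (TrL.c (I.pos (nat_lit 0) (nat_lit 0)) T1.l5
  (TrL.c (I.mix (nat_lit 29511666) (nat_lit 77433728)) T1.l6
  (TrL.c (I.mix (nat_lit 29511666) (nat_lit 46070178)) T1.l6
  TrL.n)))))))) (by decide +kernel)
theorem bx2_3 : BoxOK sI cl7 cl6 cl6 t1 t1 b2_3 :=
  box_mk (TrL.c (I.pos (nat_lit 0) (nat_lit 0)) (xa (xb (xa T1.l0 T1.l0) (xa (xs T1.l0 T1.l0) T1.l0)) (xb T1.l0 (xa T1.l0 T1.l0)))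
  (TrL.c (I.pos (nat_lit 0) (nat_lit 0)) T1.l1
  (TrL.c (I.pos (nat_lit 0) (nat_lit 111196574)) (xR T1.l2 (xR T1.l2 T1.l2))
  (TrL.c (I.pos (nat_lit 0) (nat_lit 77433728)) (xR T1.l3 T1.l3)
  (TrL.c (I.pos (nat_lit 0) (nat_lit 0)) (xb (xa T1.l4 (xk T1.l4 T1.l4)) T1.l4)
  (TrL.c (I.pos (nat_lit 0) (nat_lit 0)) T1.l5
  (TrL.c (I.mix (nat_lit 29511666) (nat_lit 77433728)) (xR T1.l6 (xR T1.l6 T1.l6))
  (TrL.c (I.mix (nat_lit 29511666) (nat_lit 46070178)) (xR T1.l7 T1.l3)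
  TrL.n)))))))) (by decide +kernel)
theorem bx2_4 : BoxOK sI cl7 cl6 cl6 t1 t1 b2_4 :=
  box_mk (TrL.c (I.pos (nat_lit 0) (nat_lit 0)) T1.l0
  (TrL.c (I.pos (nat_lit 0) (nat_lit 0)) T1.l1
  (TrL.c (I.pos (nat_lit 0) (nat_lit 111196574)) T1.l2
  (TrL.c (I.pos (nat_lit 0) (nat_lit 77433728)) (xR T1.l3 T1.l3)
  (TrL.c (I.pos (nat_lit 0) (nat_lit 0)) T1.l4
  (TrL.c (I.pos (nat_lit 0) (nat_lit 0)) T1.l5
  (TrL.c (I.mix (nat_lit 29511666) (nat_lit 77433728)) T1.l6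
  (TrL.c (I.mix (nat_lit 29511666) (nat_lit 46070178)) T1.l6
  TrL.n)))))))) (by decide +kernel)
theorem bx2_5 : BoxOK sI cl7 cl6 cl6 t1 t1 b2_5 :=
  box_mk (TrL.c (I.pos (nat_lit 0) (nat_lit 0)) T1.l0
  (TrL.c (I.pos (nat_lit 0) (nat_lit 0)) T1.l1
  (TrL.c (I.pos (nat_lit 0) (nat_lit 111196574)) T1.l2
  (TrL.c (I.pos (nat_lit 0) (nat_lit 77433728)) T1.l3
  (TrL.c (I.pos (nat_lit 0) (nat_lit 0)) T1.l4
  (TrL.c (I.pos (nat_lit 0) (nat_lit 0)) T1.l5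
  (TrL.c (I.mix (nat_lit 29511666) (nat_lit 77433728)) T1.l6
  (TrL.c (I.mix (nat_lit 29511666) (nat_lit 46070178)) T1.l6
  TrL.n)))))))) (by decide +kernel)
theorem bx2_6 : BoxOK sI cl7 cl6 cl6 t1 t1 b2_6 :=
  box_mk (TrL.c (I.pos (nat_lit 0) (nat_lit 0)) T1.l0
  (TrL.c (I.pos (nat_lit 0) (nat_lit 0)) T1.l1
  (TrL.c (I.pos (nat_lit 0) (nat_lit 111196574)) T1.l2
  (TrL.c (I.pos (nat_lit 0) (nat_lit 77433728)) T1.l3
  (TrL.c (I.pos (nat_lit 0) (nat_lit 0)) T1.l4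
  (TrL.c (I.pos (nat_lit 0) (nat_lit 0)) T1.l5
  (TrL.c (I.mix (nat_lit 29511666) (nat_lit 77433728)) T1.l6
  (TrL.c (I.mix (nat_lit 29511666) (nat_lit 46070178)) T1.l7
  TrL.n)))))))) (by decide +kernel)
theorem bx2_7 : BoxOK sI cl7 cl6 cl6 t1 t1 b2_7 :=
  box_mk (TrL.c (I.pos (nat_lit 0) (nat_lit 0)) T1.l0
  (TrL.c (I.pos (nat_lit 0) (nat_lit 0)) T1.l4
  (TrL.c (I.pos (nat_lit 0) (nat_lit 111196574)) T1.l2
  (TrL.c (I.pos (nat_lit 0) (nat_lit 77433728)) T1.l2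
  (TrL.c (I.pos (nat_lit 0) (nat_lit 0)) T1.l4
  (TrL.c (I.pos (nat_lit 0) (nat_lit 0)) T1.l5
  (TrL.c (I.mix (nat_lit 29511666) (nat_lit 77433728)) T1.l6
  (TrL.c (I.mix (nat_lit 29511666) (nat_lit 46070178)) T1.l6
  TrL.n)))))))) (by decide +kernel)
theorem sv2 : StarV sI cl7 cl6 cl6 t1 t1 t2 :=
  (bt_n (bt_n (bt_n (bt_b bx2_0) (bt_b bx2_1)) (bt_n (bt_b bx2_2) (bt_b bx2_3))) (bt_n (bt_n (bt_b bx2_4) (bt_b bx2_5)) (bt_n (bt_b bx2_6) (bt_b bx2_7))))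
def S2 : StarD := StarD.mk cl7 cl6 cl6 1 1 t2
def G : List StarD := [S0, S1, S2]
theorem so0 : StarOK sI G S0 :=
  star_mk (by decide) (by decide) rfl rfl rfl rfl rfl rfl (rfl : _ = t0) (rfl : _ = t2)
  (st_mk (Pth.l (Pth.l (Pth.l Pth.z))) (nat_lit 188318957) (nat_lit 189191234) (by decide +kernel))
  (st_mk (Pth.l (Pth.l (Pth.l Pth.z))) (nat_lit 224136237) (nat_lit 225375736) (by decide +kernel))
  (st_mk (Pth.l (Pth.l (Pth.l Pth.z))) (nat_lit 265669359) (nat_lit 267419890) (by decide +kernel)) sv0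
theorem so1 : StarOK sI G S1 :=
  star_mk (by decide) (by decide) rfl rfl rfl rfl rfl rfl (rfl : _ = t2) (rfl : _ = t0)
  (st_mk (Pth.l (Pth.l (Pth.l Pth.z))) (nat_lit 141482631) (nat_lit 164021379) (by decide +kernel))
  (st_mk (Pth.l (Pth.l (Pth.l Pth.z))) (nat_lit 177208035) (nat_lit 200128579) (by decide +kernel))
  (st_mk (Pth.l (Pth.l (Pth.l Pth.z))) (nat_lit 218664155) (nat_lit 242107684) (by decide +kernel)) sv1
theorem so2 : StarOK sI G S2 :=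
  star_mk (by decide) (by decide) rfl rfl rfl rfl rfl rfl (rfl : _ = t1) (rfl : _ = t1)
  (st_mk (Pth.l (Pth.l (Pth.l Pth.z))) (nat_lit 187136813) (nat_lit 188692847) (by decide +kernel))
  (st_mk (Pth.l (Pth.l (Pth.l Pth.z))) (nat_lit 222568898) (nat_lit 224551862) (by decide +kernel))
  (st_mk (Pth.l (Pth.l (Pth.l Pth.z))) (nat_lit 263569287) (nat_lit 266142904) (by decide +kernel)) sv2
theorem ok : GroupOK (nat_lit 0) (nat_lit 91291648) G := grp_mk (allS_c so0 (allS_c so1 (allS_c so2 allS_n)))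
theorem cov : GCov G cl6 cl6 cl7 := cov_mk
  ⟨0, by decide, rfl, rfl, rfl⟩ ⟨1, by decide, rfl, rfl, rfl⟩ ⟨0, by decide, rfl, rfl, rfl⟩ ⟨1, by decide, rfl, rfl, rfl⟩ ⟨2, by decide, rfl, rfl, rfl⟩ ⟨2, by decide, rfl, rfl, rfl⟩
end Q334_0

namespace Q334_1
def sI : I := I.pos (nat_lit 91226112) (nat_lit 150339584)
def b0_0 : Bx := Bx.mk (St.mk (I.pos (nat_lit 153108480) (nat_lit 292044800)) (I.mix (nat_lit 35848192) (nat_lit 63979520)) (I.mix (nat_lit 108969984) (nat_lit 90685440)) (I.pos (nat_lit 175603712) (nat_lit 412467200)) (I.mix (nat_lit 106594304) (nat_lit 79822848)) (I.mix (nat_lit 93519872) (nat_lit 66535424)) (I.mix (nat_lit 146980864) (nat_lit 103530496)))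
  false (nat_lit 21271670)
def b0_1 : Bx := Bx.mk (St.mk (I.mix (nat_lit 34275328) (nat_lit 104153088)) (I.mix (nat_lit 12533760) (nat_lit 40239104)) (I.mix (nat_lit 21299200) (nat_lit 13811712)) (I.pos (nat_lit 83935232) (nat_lit 127844352)) (I.mix (nat_lit 40206336) (nat_lit 40828928)) (I.mix (nat_lit 39190528) (nat_lit 27656192)) (I.mix (nat_lit 25346048) (nat_lit 16580608)))
  false (nat_lit 0)
def b0_2 : Bx := Bx.mk (St.mk (I.pos (nat_lit 76021760) (nat_lit 126664704)) (I.mix (nat_lit 64552960) (nat_lit 12419072)) (I.neg (nat_lit 1982464) (nat_lit 59801600)) (I.pos (nat_lit 110198784) (nat_lit 150274048)) (I.mix (nat_lit 92831744) (nat_lit 34521088)) (I.mix (nat_lit 49184768) (nat_lit 81395712)) (I.mix (nat_lit 34963456) (nat_lit 55787520)))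
  false (nat_lit 0)
def b0_3 : Bx := Bx.mk (St.mk (I.mix (nat_lit 52871168) (nat_lit 29147136)) (I.mix (nat_lit 35323904) (nat_lit 10076160)) (I.mix (nat_lit 13811712) (nat_lit 1851392)) (I.pos (nat_lit 82477056) (nat_lit 100597760)) (I.mix (nat_lit 33816576) (nat_lit 25444352)) (I.mix (nat_lit 21839872) (nat_lit 31129600)) (I.mix (nat_lit 11534336) (nat_lit 8044544)))
  false (nat_lit 0)
def b0_4 : Bx := Bx.mk (St.mk (I.pos (nat_lit 82608128) (nat_lit 167952384)) (I.neg (nat_lit 3309568) (nat_lit 70074368)) (I.neg (nat_lit 1425408) (nat_lit 66289664)) (I.pos (nat_lit 121634816) (nat_lit 195641344)) (I.mix (nat_lit 97976320) (nat_lit 53968896)) (I.mix (nat_lit 45137920) (nat_lit 76677120)) (I.mix (nat_lit 37158912) (nat_lit 66256896)))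
  false (nat_lit 0)
def b0_5 : Bx := Bx.mk (St.mk (I.mix (nat_lit 33013760) (nat_lit 51216384)) (I.mix (nat_lit 34750464) (nat_lit 7766016)) (I.mix (nat_lit 15220736) (nat_lit 1097728)) (I.pos (nat_lit 81657856) (nat_lit 101089280)) (I.mix (nat_lit 33570816) (nat_lit 31440896)) (I.mix (nat_lit 22233088) (nat_lit 34406400)) (I.mix (nat_lit 10469376) (nat_lit 12582912)))
  false (nat_lit 0)
def b0_6 : Bx := Bx.mk (St.mk (I.mix (nat_lit 55099392) (nat_lit 87752704)) (I.mix (nat_lit 14106624) (nat_lit 37928960)) (I.mix (nat_lit 16252928) (nat_lit 12238848)) (I.pos (nat_lit 81854464) (nat_lit 111607808)) (I.mix (nat_lit 39370752) (nat_lit 33603584)) (I.mix (nat_lit 39436288) (nat_lit 23543808)) (I.mix (nat_lit 14680064) (nat_lit 10485760)))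
  false (nat_lit 0)
def b0_7 : Bx := Bx.mk (St.mk (I.pos (nat_lit 134217728) (nat_lit 212402176)) (I.mix (nat_lit 41140224) (nat_lit 69058560)) (I.mix (nat_lit 40550400) (nat_lit 93274112)) (I.pos (nat_lit 158318592) (nat_lit 261046272)) (I.mix (nat_lit 139116544) (nat_lit 73449472)) (I.mix (nat_lit 139902976) (nat_lit 87769088)) (I.mix (nat_lit 138100736) (nat_lit 83951616)))
  false (nat_lit 4310211)
def t0 : BTr := (BTr.n (BTr.n (BTr.n (BTr.b b0_0) (BTr.b b0_1)) (BTr.n (BTr.b b0_2) (BTr.b b0_3))) (BTr.n (BTr.n (BTr.b b0_4) (BTr.b b0_5)) (BTr.n (BTr.b b0_6) (BTr.b b0_7))))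
namespace T0
def l0 : Tr := Tr.L (Pth.l (Pth.l (Pth.l Pth.z)))
def l1 : Tr := Tr.L (Pth.l (Pth.l (Pth.r Pth.z)))
def l2 : Tr := Tr.L (Pth.l (Pth.r (Pth.l Pth.z)))
def l3 : Tr := Tr.L (Pth.l (Pth.r (Pth.r Pth.z)))
def l4 : Tr := Tr.L (Pth.r (Pth.l (Pth.l Pth.z)))
def l5 : Tr := Tr.L (Pth.r (Pth.l (Pth.r Pth.z)))
def l6 : Tr := Tr.L (Pth.r (Pth.r (Pth.l Pth.z)))
def l7 : Tr := Tr.L (Pth.r (Pth.r (Pth.r Pth.z)))
end T0
def b1_0 : Bx := Bx.mk (St.mk (I.pos (nat_lit 153305088) (nat_lit 288342016)) (I.mix (nat_lit 32735232) (nat_lit 55443456)) (I.mix (nat_lit 84475904) (nat_lit 93601792)) (I.pos (nat_lit 130400256) (nat_lit 382304256)) (I.mix (nat_lit 105496576) (nat_lit 77348864)) (I.mix (nat_lit 97353728) (nat_lit 68075520)) (I.mix (nat_lit 157089792) (nat_lit 99106816)))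
  false (nat_lit 19184258)
def b1_1 : Bx := Bx.mk (St.mk (I.pos (nat_lit 88391680) (nat_lit 178667520)) (I.mix (nat_lit 71598080) (nat_lit 4882432)) (I.mix (nat_lit 68255744) (nat_lit 3637248)) (I.pos (nat_lit 95371264) (nat_lit 183500800)) (I.mix (nat_lit 104038400) (nat_lit 55394304)) (I.mix (nat_lit 51412992) (nat_lit 80560128)) (I.mix (nat_lit 41205760) (nat_lit 74366976)))
  false (nat_lit 0)
def b1_2 : Bx := Bx.mk (St.mk (I.mix (nat_lit 27328512) (nat_lit 125861888)) (I.mix (nat_lit 11501568) (nat_lit 35454976)) (I.mix (nat_lit 15794176) (nat_lit 22609920)) (I.pos (nat_lit 39419904) (nat_lit 119865344)) (I.mix (nat_lit 44253184) (nat_lit 34996224)) (I.mix (nat_lit 38420480) (nat_lit 26083328)) (I.mix (nat_lit 27705344) (nat_lit 18251776)))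
  false (nat_lit 0)
def b1_3 : Bx := Bx.mk (St.mk (I.mix (nat_lit 26640384) (nat_lit 89178112)) (I.mix (nat_lit 33832960) (nat_lit 5128192)) (I.mix (nat_lit 19464192) (nat_lit 4882432)) (I.pos (nat_lit 40910848) (nat_lit 92340224)) (I.mix (nat_lit 36896768) (nat_lit 28835840)) (I.mix (nat_lit 22265856) (nat_lit 32555008)) (I.mix (nat_lit 12779520) (nat_lit 17547264)))
  false (nat_lit 0)
def b1_4 : Bx := Bx.mk (St.mk (I.pos (nat_lit 137297920) (nat_lit 216301568)) (I.mix (nat_lit 42369024) (nat_lit 65536000)) (I.mix (nat_lit 38584320) (nat_lit 100188160)) (I.pos (nat_lit 127631360) (nat_lit 238862336)) (I.mix (nat_lit 144850944) (nat_lit 70451200)) (I.mix (nat_lit 149716992) (nat_lit 89620480)) (I.mix (nat_lit 165380096) (nat_lit 92635136)))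
  false (nat_lit 0)
def b1_5 : Bx := Bx.mk (St.mk (I.pos (nat_lit 90390528) (nat_lit 148602880)) (I.mix (nat_lit 66158592) (nat_lit 11206656)) (I.mix (nat_lit 61423616) (nat_lit 4210688)) (I.pos (nat_lit 76693504) (nat_lit 144310272)) (I.mix (nat_lit 103530496) (nat_lit 40550400)) (I.mix (nat_lit 56360960) (nat_lit 96747520)) (I.mix (nat_lit 40681472) (nat_lit 70172672)))
  false (nat_lit 0)
def b1_6 : Bx := Bx.mk (St.mk (I.mix (nat_lit 42221568) (nat_lit 111935488)) (I.mix (nat_lit 14368768) (nat_lit 37896192)) (I.mix (nat_lit 8372224) (nat_lit 26263552)) (I.pos (nat_lit 39927808) (nat_lit 108281856)) (I.mix (nat_lit 52379648) (nat_lit 27262976)) (I.mix (nat_lit 47300608) (nat_lit 32915456)) (I.mix (nat_lit 26247168) (nat_lit 19611648)))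
  false (nat_lit 0)
def b1_7 : Bx := Bx.mk (St.mk (I.mix (nat_lit 42582016) (nat_lit 73285632)) (I.mix (nat_lit 33079296) (nat_lit 7766016)) (I.mix (nat_lit 16678912) (nat_lit 3784704)) (I.pos (nat_lit 41058304) (nat_lit 83132416)) (I.mix (nat_lit 27197440) (nat_lit 13500416)) (I.mix (nat_lit 11943936) (nat_lit 22347776)) (I.mix (nat_lit 5914624) (nat_lit 8814592)))
  false (nat_lit 0)
def t1 : BTr := (BTr.n (BTr.n (BTr.n (BTr.b b1_0) (BTr.b b1_1)) (BTr.n (BTr.b b1_2) (BTr.b b1_3))) (BTr.n (BTr.n (BTr.b b1_4) (BTr.b b1_5)) (BTr.n (BTr.b b1_6) (BTr.b b1_7))))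
namespace T1
def l0 : Tr := Tr.L (Pth.l (Pth.l (Pth.l Pth.z)))
def l1 : Tr := Tr.L (Pth.l (Pth.l (Pth.r Pth.z)))
def l2 : Tr := Tr.L (Pth.l (Pth.r (Pth.l Pth.z)))
def l3 : Tr := Tr.L (Pth.l (Pth.r (Pth.r Pth.z)))
def l4 : Tr := Tr.L (Pth.r (Pth.l (Pth.l Pth.z)))
def l5 : Tr := Tr.L (Pth.r (Pth.l (Pth.r Pth.z)))
def l6 : Tr := Tr.L (Pth.r (Pth.r (Pth.l Pth.z)))
def l7 : Tr := Tr.L (Pth.r (Pth.r (Pth.r Pth.z)))
end T1
def b2_0 : Bx := Bx.mk (St.mk (I.pos (nat_lit 153239552) (nat_lit 289734656)) (I.mix (nat_lit 32276480) (nat_lit 60538880)) (I.mix (nat_lit 82051072) (nat_lit 99205120)) (I.pos (nat_lit 174735360) (nat_lit 404619264)) (I.mix (nat_lit 109084672) (nat_lit 84705280)) (I.mix (nat_lit 103579648) (nat_lit 72679424)) (I.mix (nat_lit 155615232) (nat_lit 105037824)))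
  false (nat_lit 35026833)
def b2_1 : Bx := Bx.mk (St.mk (I.pos (nat_lit 86310912) (nat_lit 170770432)) (I.neg (nat_lit 5881856) (nat_lit 70352896)) (I.mix (nat_lit 58769408) (nat_lit 6930432)) (I.pos (nat_lit 124846080) (nat_lit 198148096)) (I.mix (nat_lit 93634560) (nat_lit 48971776)) (I.mix (nat_lit 42434560) (nat_lit 68517888)) (I.mix (nat_lit 35356672) (nat_lit 56999936)))
  false (nat_lit 0)
def b2_2 : Bx := Bx.mk (St.mk (I.mix (nat_lit 31358976) (nat_lit 51462144)) (I.mix (nat_lit 35356672) (nat_lit 8192000)) (I.mix (nat_lit 9961472) (nat_lit 6569984)) (I.pos (nat_lit 82280448) (nat_lit 100646912)) (I.mix (nat_lit 30015488) (nat_lit 30949376)) (I.mix (nat_lit 22249472) (nat_lit 29933568)) (I.mix (nat_lit 9224192) (nat_lit 10698752)))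
  false (nat_lit 0)
def b2_3 : Bx := Bx.mk (St.mk (I.pos (nat_lit 133349376) (nat_lit 210272256)) (I.mix (nat_lit 41172992) (nat_lit 68960256)) (I.mix (nat_lit 30982144) (nat_lit 105381888)) (I.pos (nat_lit 157614080) (nat_lit 256032768)) (I.mix (nat_lit 146718720) (nat_lit 69337088)) (I.mix (nat_lit 145522688) (nat_lit 87752704)) (I.mix (nat_lit 146931712) (nat_lit 82919424)))
  false (nat_lit 33303751)
def b2_4 : Bx := Bx.mk (St.mk (I.mix (nat_lit 55918592) (nat_lit 77266944)) (I.mix (nat_lit 11894784) (nat_lit 38436864)) (I.mix (nat_lit 10158080) (nat_lit 17924096)) (I.pos (nat_lit 82444288) (nat_lit 111083520)) (I.mix (nat_lit 38141952) (nat_lit 30015488)) (I.mix (nat_lit 33079296) (nat_lit 21856256)) (I.mix (nat_lit 11730944) (nat_lit 10649600)))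
  false (nat_lit 0)
def b2_5 : Bx := Bx.mk (St.mk (I.mix (nat_lit 34275328) (nat_lit 104022016)) (I.mix (nat_lit 11059200) (nat_lit 39469056)) (I.mix (nat_lit 14139392) (nat_lit 20021248)) (I.pos (nat_lit 84017152) (nat_lit 127107072)) (I.mix (nat_lit 43450368) (nat_lit 38453248)) (I.mix (nat_lit 41844736) (nat_lit 27033600)) (I.mix (nat_lit 26001408) (nat_lit 17596416)))
  false (nat_lit 0)
def b2_6 : Bx := Bx.mk (St.mk (I.pos (nat_lit 76857344) (nat_lit 128614400)) (I.mix (nat_lit 65323008) (nat_lit 13516800)) (I.mix (nat_lit 52756480) (nat_lit 3850240)) (I.pos (nat_lit 111214592) (nat_lit 152043520)) (I.mix (nat_lit 87080960) (nat_lit 38830080)) (I.mix (nat_lit 49086464) (nat_lit 77512704)) (I.mix (nat_lit 34504704) (nat_lit 51331072)))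
  false (nat_lit 0)
def b2_7 : Bx := Bx.mk (St.mk (I.mix (nat_lit 52133888) (nat_lit 31080448)) (I.mix (nat_lit 34865152) (nat_lit 7028736)) (I.mix (nat_lit 7569408) (nat_lit 7028736)) (I.pos (nat_lit 82411520) (nat_lit 100990976)) (I.mix (nat_lit 33914880) (nat_lit 29048832)) (I.mix (nat_lit 22052864) (nat_lit 33259520)) (I.mix (nat_lit 12222464) (nat_lit 8896512)))
  false (nat_lit 0)
def t2 : BTr := (BTr.n (BTr.n (BTr.n (BTr.b b2_0) (BTr.b b2_1)) (BTr.n (BTr.b b2_2) (BTr.b b2_3))) (BTr.n (BTr.n (BTr.b b2_4) (BTr.b b2_5)) (BTr.n (BTr.b b2_6) (BTr.b b2_7))))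
namespace T2
def l0 : Tr := Tr.L (Pth.l (Pth.l (Pth.l Pth.z)))
def l1 : Tr := Tr.L (Pth.l (Pth.l (Pth.r Pth.z)))
def l2 : Tr := Tr.L (Pth.l (Pth.r (Pth.l Pth.z)))
def l3 : Tr := Tr.L (Pth.l (Pth.r (Pth.r Pth.z)))
def l4 : Tr := Tr.L (Pth.r (Pth.l (Pth.l Pth.z)))
def l5 : Tr := Tr.L (Pth.r (Pth.l (Pth.r Pth.z)))
def l6 : Tr := Tr.L (Pth.r (Pth.r (Pth.l Pth.z)))
def l7 : Tr := Tr.L (Pth.r (Pth.r (Pth.r Pth.z)))
end T2
theorem bx0_0 : BoxOK sI cl6 cl6 cl7 t0 t2 b0_0 :=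
  box_mk (TrL.c (I.pos (nat_lit 0) (nat_lit 0)) (xa (xb (xa T0.l0 T0.l0) (xa T0.l0 T0.l0)) (xa (xb T0.l0 T0.l0) T0.l7))
  (TrL.c (I.pos (nat_lit 0) (nat_lit 0)) T2.l1
  (TrL.c (I.pos (nat_lit 0) (nat_lit 89480386)) (xR T0.l6 (xR T0.l1 T0.l1))
  (TrL.c (I.pos (nat_lit 0) (nat_lit 41530880)) T2.l2
  (TrL.c (I.pos (nat_lit 0) (nat_lit 0)) (xa T2.l3 (xb (xa T2.l3 T2.l3) (xa T2.l3 T2.l3)))
  (TrL.c (I.pos (nat_lit 0) (nat_lit 0)) T0.l2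
  (TrL.c (I.mix (nat_lit 41527258) (nat_lit 41530880)) (xR T2.l4 T2.l5)
  (TrL.c (I.mix (nat_lit 41527258) (nat_lit 4274)) T0.l3
  TrL.n)))))))) (by decide +kernel)
theorem bx0_1 : BoxOK sI cl6 cl6 cl7 t0 t2 b0_1 :=
  box_mk (TrL.c (I.pos (nat_lit 0) (nat_lit 0)) T0.l0
  (TrL.c (I.pos (nat_lit 0) (nat_lit 0)) T2.l1
  (TrL.c (I.pos (nat_lit 0) (nat_lit 89480386)) (xR T0.l1 T0.l1)
  (TrL.c (I.pos (nat_lit 0) (nat_lit 41530880)) T2.l2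
  (TrL.c (I.pos (nat_lit 0) (nat_lit 0)) T2.l3
  (TrL.c (I.pos (nat_lit 0) (nat_lit 0)) T0.l2
  (TrL.c (I.mix (nat_lit 41527258) (nat_lit 41530880)) T2.l4
  (TrL.c (I.mix (nat_lit 41527258) (nat_lit 4274)) T0.l3
  TrL.n)))))))) (by decide +kernel)
theorem bx0_2 : BoxOK sI cl6 cl6 cl7 t0 t2 b0_2 :=
  box_mk (TrL.c (I.pos (nat_lit 0) (nat_lit 0)) T0.l0
  (TrL.c (I.pos (nat_lit 0) (nat_lit 0)) T2.l1
  (TrL.c (I.pos (nat_lit 0) (nat_lit 89480386)) (xR T0.l1 T0.l1)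
  (TrL.c (I.pos (nat_lit 0) (nat_lit 41530880)) T2.l2
  (TrL.c (I.pos (nat_lit 0) (nat_lit 0)) T2.l3
  (TrL.c (I.pos (nat_lit 0) (nat_lit 0)) T0.l2
  (TrL.c (I.mix (nat_lit 41527258) (nat_lit 41530880)) T2.l4
  (TrL.c (I.mix (nat_lit 41527258) (nat_lit 4274)) T0.l3
  TrL.n)))))))) (by decide +kernel)
theorem bx0_3 : BoxOK sI cl6 cl6 cl7 t0 t2 b0_3 :=
  box_mk (TrL.c (I.pos (nat_lit 0) (nat_lit 0)) (xa T0.l0 T0.l0)
  (TrL.c (I.pos (nat_lit 0) (nat_lit 0)) T2.l3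
  (TrL.c (I.pos (nat_lit 0) (nat_lit 89480386)) T0.l1
  (TrL.c (I.pos (nat_lit 0) (nat_lit 41530880)) T2.l2
  (TrL.c (I.pos (nat_lit 0) (nat_lit 0)) T2.l3
  (TrL.c (I.pos (nat_lit 0) (nat_lit 0)) T0.l2
  (TrL.c (I.mix (nat_lit 41527258) (nat_lit 41530880)) T2.l4
  (TrL.c (I.mix (nat_lit 41527258) (nat_lit 4274)) T0.l3
  TrL.n)))))))) (by decide +kernel)
theorem bx0_4 : BoxOK sI cl6 cl6 cl7 t0 t2 b0_4 :=
  box_mk (TrL.c (I.pos (nat_lit 0) (nat_lit 0)) T0.l0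
  (TrL.c (I.pos (nat_lit 0) (nat_lit 0)) T2.l1
  (TrL.c (I.pos (nat_lit 0) (nat_lit 89480386)) (xR T0.l1 T0.l1)
  (TrL.c (I.pos (nat_lit 0) (nat_lit 41530880)) T2.l2
  (TrL.c (I.pos (nat_lit 0) (nat_lit 0)) T2.l3
  (TrL.c (I.pos (nat_lit 0) (nat_lit 0)) T0.l2
  (TrL.c (I.mix (nat_lit 41527258) (nat_lit 41530880)) T2.l4
  (TrL.c (I.mix (nat_lit 41527258) (nat_lit 4274)) T0.l3
  TrL.n)))))))) (by decide +kernel)
theorem bx0_5 : BoxOK sI cl6 cl6 cl7 t0 t2 b0_5 :=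
  box_mk (TrL.c (I.pos (nat_lit 0) (nat_lit 0)) T0.l0
  (TrL.c (I.pos (nat_lit 0) (nat_lit 0)) T2.l1
  (TrL.c (I.pos (nat_lit 0) (nat_lit 89480386)) T0.l1
  (TrL.c (I.pos (nat_lit 0) (nat_lit 41530880)) T2.l2
  (TrL.c (I.pos (nat_lit 0) (nat_lit 0)) T2.l3
  (TrL.c (I.pos (nat_lit 0) (nat_lit 0)) T0.l2
  (TrL.c (I.mix (nat_lit 41527258) (nat_lit 41530880)) T2.l4
  (TrL.c (I.mix (nat_lit 41527258) (nat_lit 4274)) T0.l3
  TrL.n)))))))) (by decide +kernel)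
theorem bx0_6 : BoxOK sI cl6 cl6 cl7 t0 t2 b0_6 :=
  box_mk (TrL.c (I.pos (nat_lit 0) (nat_lit 0)) T0.l0
  (TrL.c (I.pos (nat_lit 0) (nat_lit 0)) T2.l1
  (TrL.c (I.pos (nat_lit 0) (nat_lit 89480386)) T0.l1
  (TrL.c (I.pos (nat_lit 0) (nat_lit 41530880)) T2.l2
  (TrL.c (I.pos (nat_lit 0) (nat_lit 0)) T2.l3
  (TrL.c (I.pos (nat_lit 0) (nat_lit 0)) T0.l2
  (TrL.c (I.mix (nat_lit 41527258) (nat_lit 41530880)) T2.l4
  (TrL.c (I.mix (nat_lit 41527258) (nat_lit 4274)) T0.l3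
  TrL.n)))))))) (by decide +kernel)
theorem bx0_7 : BoxOK sI cl6 cl6 cl7 t0 t2 b0_7 :=
  box_mk (TrL.c (I.pos (nat_lit 0) (nat_lit 0)) (xb (xa T0.l0 T0.l0) (xa (xb T0.l0 T0.l0) (xb T0.l0 T0.l0)))
  (TrL.c (I.pos (nat_lit 0) (nat_lit 0)) T2.l1
  (TrL.c (I.pos (nat_lit 0) (nat_lit 89480386)) (xR T0.l1 T0.l1)
  (TrL.c (I.pos (nat_lit 0) (nat_lit 41530880)) T2.l2
  (TrL.c (I.pos (nat_lit 0) (nat_lit 0)) (xb T2.l3 T2.l3)
  (TrL.c (I.pos (nat_lit 0) (nat_lit 0)) T0.l2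
  (TrL.c (I.mix (nat_lit 41527258) (nat_lit 41530880)) (xR T2.l4 T2.l5)
  (TrL.c (I.mix (nat_lit 41527258) (nat_lit 4274)) T0.l3
  TrL.n)))))))) (by decide +kernel)
theorem sv0 : StarV sI cl6 cl6 cl7 t0 t2 t0 :=
  (bt_n (bt_n (bt_n (bt_b bx0_0) (bt_b bx0_1)) (bt_n (bt_b bx0_2) (bt_b bx0_3))) (bt_n (bt_n (bt_b bx0_4) (bt_b bx0_5)) (bt_n (bt_b bx0_6) (bt_b bx0_7))))
def S0 : StarD := StarD.mk cl6 cl6 cl7 0 2 t0
theorem bx1_0 : BoxOK sI cl6 cl7 cl6 t2 t0 b1_0 :=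
  box_mk (TrL.c (I.pos (nat_lit 0) (nat_lit 0)) (xa (xa (xb T2.l0 T2.l0) (xb T2.l0 T2.l0)) (xa (xb T2.l0 T2.l0) T2.l3))
  (TrL.c (I.pos (nat_lit 0) (nat_lit 0)) T0.l4
  (TrL.c (I.pos (nat_lit 0) (nat_lit 89480386)) (xR (xR T2.l5 T2.l5) (xR T2.l5 T2.l5))
  (TrL.c (I.pos (nat_lit 0) (nat_lit 41530880)) T0.l5
  (TrL.c (I.pos (nat_lit 0) (nat_lit 0)) (xa T0.l7 (xb (xa T0.l7 T0.l7) (xa T0.l7 T0.l7)))
  (TrL.c (I.pos (nat_lit 0) (nat_lit 0)) T2.l6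
  (TrL.c (I.mix (nat_lit 41527258) (nat_lit 41530880)) (xR T0.l6 T0.l1)
  (TrL.c (I.mix (nat_lit 41527258) (nat_lit 4274)) T2.l7
  TrL.n)))))))) (by decide +kernel)
theorem bx1_1 : BoxOK sI cl6 cl7 cl6 t2 t0 b1_1 :=
  box_mk (TrL.c (I.pos (nat_lit 0) (nat_lit 0)) (xa T2.l0 T2.l0)
  (TrL.c (I.pos (nat_lit 0) (nat_lit 0)) T0.l4
  (TrL.c (I.pos (nat_lit 0) (nat_lit 89480386)) (xR T2.l5 T2.l5)
  (TrL.c (I.pos (nat_lit 0) (nat_lit 41530880)) T0.l5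
  (TrL.c (I.pos (nat_lit 0) (nat_lit 0)) T0.l7
  (TrL.c (I.pos (nat_lit 0) (nat_lit 0)) T2.l6
  (TrL.c (I.mix (nat_lit 41527258) (nat_lit 41530880)) T0.l6
  (TrL.c (I.mix (nat_lit 41527258) (nat_lit 4274)) T2.l7
  TrL.n)))))))) (by decide +kernel)
theorem bx1_2 : BoxOK sI cl6 cl7 cl6 t2 t0 b1_2 :=
  box_mk (TrL.c (I.pos (nat_lit 0) (nat_lit 0)) (xa T2.l0 T2.l0)
  (TrL.c (I.pos (nat_lit 0) (nat_lit 0)) T0.l4
  (TrL.c (I.pos (nat_lit 0) (nat_lit 89480386)) (xR T2.l5 T2.l5)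
  (TrL.c (I.pos (nat_lit 0) (nat_lit 41530880)) T0.l5
  (TrL.c (I.pos (nat_lit 0) (nat_lit 0)) T0.l7
  (TrL.c (I.pos (nat_lit 0) (nat_lit 0)) T2.l6
  (TrL.c (I.mix (nat_lit 41527258) (nat_lit 41530880)) T0.l6
  (TrL.c (I.mix (nat_lit 41527258) (nat_lit 4274)) T2.l7
  TrL.n)))))))) (by decide +kernel)
theorem bx1_3 : BoxOK sI cl6 cl7 cl6 t2 t0 b1_3 :=
  box_mk (TrL.c (I.pos (nat_lit 0) (nat_lit 0)) T2.l0
  (TrL.c (I.pos (nat_lit 0) (nat_lit 0)) T0.l4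
  (TrL.c (I.pos (nat_lit 0) (nat_lit 89480386)) (xR T2.l5 T2.l5)
  (TrL.c (I.pos (nat_lit 0) (nat_lit 41530880)) T0.l5
  (TrL.c (I.pos (nat_lit 0) (nat_lit 0)) T0.l7
  (TrL.c (I.pos (nat_lit 0) (nat_lit 0)) T2.l6
  (TrL.c (I.mix (nat_lit 41527258) (nat_lit 41530880)) T0.l6
  (TrL.c (I.mix (nat_lit 41527258) (nat_lit 4274)) T2.l7
  TrL.n)))))))) (by decide +kernel)
theorem bx1_4 : BoxOK sI cl6 cl7 cl6 t2 t0 b1_4 :=
  box_mk (TrL.c (I.pos (nat_lit 0) (nat_lit 0)) (xb (xa (xb T2.l0 T2.l0) (xb T2.l0 T2.l0)) (xa (xa (xb T2.l0 T2.l0) T2.l0) (xa T2.l0 T2.l0)))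
  (TrL.c (I.pos (nat_lit 0) (nat_lit 0)) T0.l4
  (TrL.c (I.pos (nat_lit 0) (nat_lit 89480386)) (xR T2.l5 (xR T2.l5 T2.l5))
  (TrL.c (I.pos (nat_lit 0) (nat_lit 41530880)) T0.l5
  (TrL.c (I.pos (nat_lit 0) (nat_lit 0)) (xb T0.l7 T0.l7)
  (TrL.c (I.pos (nat_lit 0) (nat_lit 0)) T2.l6
  (TrL.c (I.mix (nat_lit 41527258) (nat_lit 41530880)) (xR T0.l1 T0.l6)
  (TrL.c (I.mix (nat_lit 41527258) (nat_lit 4274)) T2.l7
  TrL.n)))))))) (by decide +kernel)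
theorem bx1_5 : BoxOK sI cl6 cl7 cl6 t2 t0 b1_5 :=
  box_mk (TrL.c (I.pos (nat_lit 0) (nat_lit 0)) T2.l0
  (TrL.c (I.pos (nat_lit 0) (nat_lit 0)) T0.l4
  (TrL.c (I.pos (nat_lit 0) (nat_lit 89480386)) (xR T2.l5 T2.l5)
  (TrL.c (I.pos (nat_lit 0) (nat_lit 41530880)) T0.l5
  (TrL.c (I.pos (nat_lit 0) (nat_lit 0)) T0.l7
  (TrL.c (I.pos (nat_lit 0) (nat_lit 0)) T2.l6
  (TrL.c (I.mix (nat_lit 41527258) (nat_lit 41530880)) T0.l6
  (TrL.c (I.mix (nat_lit 41527258) (nat_lit 4274)) T2.l7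
  TrL.n)))))))) (by decide +kernel)
theorem bx1_6 : BoxOK sI cl6 cl7 cl6 t2 t0 b1_6 :=
  box_mk (TrL.c (I.pos (nat_lit 0) (nat_lit 0)) (xa T2.l0 T2.l0)
  (TrL.c (I.pos (nat_lit 0) (nat_lit 0)) T0.l4
  (TrL.c (I.pos (nat_lit 0) (nat_lit 89480386)) (xR T2.l5 T2.l5)
  (TrL.c (I.pos (nat_lit 0) (nat_lit 41530880)) T0.l5
  (TrL.c (I.pos (nat_lit 0) (nat_lit 0)) T0.l7
  (TrL.c (I.pos (nat_lit 0) (nat_lit 0)) T2.l6
  (TrL.c (I.mix (nat_lit 41527258) (nat_lit 41530880)) T0.l6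
  (TrL.c (I.mix (nat_lit 41527258) (nat_lit 4274)) T2.l7
  TrL.n)))))))) (by decide +kernel)
theorem bx1_7 : BoxOK sI cl6 cl7 cl6 t2 t0 b1_7 :=
  box_mk (TrL.c (I.pos (nat_lit 0) (nat_lit 0)) (xa T2.l0 T2.l0)
  (TrL.c (I.pos (nat_lit 0) (nat_lit 0)) T0.l4
  (TrL.c (I.pos (nat_lit 0) (nat_lit 89480386)) T2.l5
  (TrL.c (I.pos (nat_lit 0) (nat_lit 41530880)) T0.l5
  (TrL.c (I.pos (nat_lit 0) (nat_lit 0)) T0.l7
  (TrL.c (I.pos (nat_lit 0) (nat_lit 0)) T2.l6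
  (TrL.c (I.mix (nat_lit 41527258) (nat_lit 41530880)) T0.l6
  (TrL.c (I.mix (nat_lit 41527258) (nat_lit 4274)) T2.l4
  TrL.n)))))))) (by decide +kernel)
theorem sv1 : StarV sI cl6 cl7 cl6 t2 t0 t1 :=
  (bt_n (bt_n (bt_n (bt_b bx1_0) (bt_b bx1_1)) (bt_n (bt_b bx1_2) (bt_b bx1_3))) (bt_n (bt_n (bt_b bx1_4) (bt_b bx1_5)) (bt_n (bt_b bx1_6) (bt_b bx1_7))))
def S1 : StarD := StarD.mk cl6 cl7 cl6 2 0 t1
theorem bx2_0 : BoxOK sI cl7 cl6 cl6 t1 t1 b2_0 :=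
  box_mk (TrL.c (I.pos (nat_lit 0) (nat_lit 0)) (xa (xa (xb T1.l0 (xb T1.l0 T1.l0)) (xb T1.l0 (xb T1.l0 T1.l0))) (xa (xb T1.l0 T1.l0) (xb T1.l0 T1.l4)))
  (TrL.c (I.pos (nat_lit 0) (nat_lit 0)) T1.l1
  (TrL.c (I.pos (nat_lit 0) (nat_lit 111196574)) (xR T1.l2 (xR T1.l2 T1.l2))
  (TrL.c (I.pos (nat_lit 0) (nat_lit 77433728)) (xR T1.l3 T1.l3)
  (TrL.c (I.pos (nat_lit 0) (nat_lit 0)) (xa (xb T1.l4 T1.l4) (xb (xa (xk T1.l4 T1.l4) (xk (xb T1.l4 T1.l4) (xb T1.l4 T1.l4))) (xa T1.l4 (xk (xb T1.l4 T1.l4) (xb T1.l4 (xs T1.l4 T1.l4))))))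
  (TrL.c (I.pos (nat_lit 0) (nat_lit 0)) T1.l5
  (TrL.c (I.mix (nat_lit 29511666) (nat_lit 77433728)) (xR T1.l6 (xR T1.l6 T1.l6))
  (TrL.c (I.mix (nat_lit 29511666) (nat_lit 46070178)) (xR T1.l3 T1.l3)
  TrL.n)))))))) (by decide +kernel)
theorem bx2_1 : BoxOK sI cl7 cl6 cl6 t1 t1 b2_1 :=
  box_mk (TrL.c (I.pos (nat_lit 0) (nat_lit 0)) T1.l0
  (TrL.c (I.pos (nat_lit 0) (nat_lit 0)) T1.l1
  (TrL.c (I.pos (nat_lit 0) (nat_lit 111196574)) (xR T1.l2 T1.l2)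
  (TrL.c (I.pos (nat_lit 0) (nat_lit 77433728)) (xR T1.l3 T1.l3)
  (TrL.c (I.pos (nat_lit 0) (nat_lit 0)) T1.l4
  (TrL.c (I.pos (nat_lit 0) (nat_lit 0)) T1.l5
  (TrL.c (I.mix (nat_lit 29511666) (nat_lit 77433728)) T1.l6
  (TrL.c (I.mix (nat_lit 29511666) (nat_lit 46070178)) (xR T1.l7 T1.l3)
  TrL.n)))))))) (by decide +kernel)
theorem bx2_2 : BoxOK sI cl7 cl6 cl6 t1 t1 b2_2 :=
  box_mk (TrL.c (I.pos (nat_lit 0) (nat_lit 0)) T1.l0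
  (TrL.c (I.pos (nat_lit 0) (nat_lit 0)) T1.l1
  (TrL.c (I.pos (nat_lit 0) (nat_lit 111196574)) T1.l2
  (TrL.c (I.pos (nat_lit 0) (nat_lit 77433728)) T1.l2
  (TrL.c (I.pos (nat_lit 0) (nat_lit 0)) T1.l4
  (TrL.c (I.pos (nat_lit 0) (nat_lit 0)) T1.l5
  (TrL.c (I.mix (nat_lit 29511666) (nat_lit 77433728)) T1.l6
  (TrL.c (I.mix (nat_lit 29511666) (nat_lit 46070178)) T1.l7
  TrL.n)))))))) (by decide +kernel)
theorem bx2_3 : BoxOK sI cl7 cl6 cl6 t1 t1 b2_3 :=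
  box_mk (TrL.c (I.pos (nat_lit 0) (nat_lit 0)) (xb (xa T1.l0 T1.l0) (xa (xa (xb T1.l0 T1.l0) T1.l0) (xa T1.l0 T1.l0)))
  (TrL.c (I.pos (nat_lit 0) (nat_lit 0)) T1.l1
  (TrL.c (I.pos (nat_lit 0) (nat_lit 111196574)) (xR T1.l2 (xR T1.l2 T1.l2))
  (TrL.c (I.pos (nat_lit 0) (nat_lit 77433728)) (xR T1.l3 T1.l3)
  (TrL.c (I.pos (nat_lit 0) (nat_lit 0)) (xb (xa T1.l4 T1.l4) T1.l4)
  (TrL.c (I.pos (nat_lit 0) (nat_lit 0)) T1.l5
  (TrL.c (I.mix (nat_lit 29511666) (nat_lit 77433728)) (xR T1.l6 (xR T1.l6 T1.l6))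
  (TrL.c (I.mix (nat_lit 29511666) (nat_lit 46070178)) (xR T1.l3 T1.l3)
  TrL.n)))))))) (by decide +kernel)
theorem bx2_4 : BoxOK sI cl7 cl6 cl6 t1 t1 b2_4 :=
  box_mk (TrL.c (I.pos (nat_lit 0) (nat_lit 0)) (xa T1.l0 T1.l0)
  (TrL.c (I.pos (nat_lit 0) (nat_lit 0)) T1.l1
  (TrL.c (I.pos (nat_lit 0) (nat_lit 111196574)) T1.l2
  (TrL.c (I.pos (nat_lit 0) (nat_lit 77433728)) (xR T1.l3 T1.l3)
  (TrL.c (I.pos (nat_lit 0) (nat_lit 0)) T1.l4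
  (TrL.c (I.pos (nat_lit 0) (nat_lit 0)) T1.l5
  (TrL.c (I.mix (nat_lit 29511666) (nat_lit 77433728)) T1.l6
  (TrL.c (I.mix (nat_lit 29511666) (nat_lit 46070178)) T1.l7
  TrL.n)))))))) (by decide +kernel)
theorem bx2_5 : BoxOK sI cl7 cl6 cl6 t1 t1 b2_5 :=
  box_mk (TrL.c (I.pos (nat_lit 0) (nat_lit 0)) (xa T1.l0 T1.l0)
  (TrL.c (I.pos (nat_lit 0) (nat_lit 0)) T1.l1
  (TrL.c (I.pos (nat_lit 0) (nat_lit 111196574)) T1.l2
  (TrL.c (I.pos (nat_lit 0) (nat_lit 77433728)) T1.l3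
  (TrL.c (I.pos (nat_lit 0) (nat_lit 0)) T1.l4
  (TrL.c (I.pos (nat_lit 0) (nat_lit 0)) T1.l5
  (TrL.c (I.mix (nat_lit 29511666) (nat_lit 77433728)) T1.l6
  (TrL.c (I.mix (nat_lit 29511666) (nat_lit 46070178)) T1.l7
  TrL.n)))))))) (by decide +kernel)
theorem bx2_6 : BoxOK sI cl7 cl6 cl6 t1 t1 b2_6 :=
  box_mk (TrL.c (I.pos (nat_lit 0) (nat_lit 0)) T1.l0
  (TrL.c (I.pos (nat_lit 0) (nat_lit 0)) T1.l1
  (TrL.c (I.pos (nat_lit 0) (nat_lit 111196574)) T1.l2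
  (TrL.c (I.pos (nat_lit 0) (nat_lit 77433728)) T1.l3
  (TrL.c (I.pos (nat_lit 0) (nat_lit 0)) T1.l4
  (TrL.c (I.pos (nat_lit 0) (nat_lit 0)) T1.l5
  (TrL.c (I.mix (nat_lit 29511666) (nat_lit 77433728)) T1.l6
  (TrL.c (I.mix (nat_lit 29511666) (nat_lit 46070178)) T1.l6
  TrL.n)))))))) (by decide +kernel)
theorem bx2_7 : BoxOK sI cl7 cl6 cl6 t1 t1 b2_7 :=
  box_mk (TrL.c (I.pos (nat_lit 0) (nat_lit 0)) T1.l0
  (TrL.c (I.pos (nat_lit 0) (nat_lit 0)) T1.l4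
  (TrL.c (I.pos (nat_lit 0) (nat_lit 111196574)) T1.l2
  (TrL.c (I.pos (nat_lit 0) (nat_lit 77433728)) T1.l2
  (TrL.c (I.pos (nat_lit 0) (nat_lit 0)) T1.l4
  (TrL.c (I.pos (nat_lit 0) (nat_lit 0)) T1.l5
  (TrL.c (I.mix (nat_lit 29511666) (nat_lit 77433728)) T1.l6
  (TrL.c (I.mix (nat_lit 29511666) (nat_lit 46070178)) T1.l7
  TrL.n)))))))) (by decide +kernel)
theorem sv2 : StarV sI cl7 cl6 cl6 t1 t1 t2 :=
  (bt_n (bt_n (bt_n (bt_b bx2_0) (bt_b bx2_1)) (bt_n (bt_b bx2_2) (bt_b bx2_3))) (bt_n (bt_n (bt_b bx2_4) (bt_b bx2_5)) (bt_n (bt_b bx2_6) (bt_b bx2_7))))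
def S2 : StarD := StarD.mk cl7 cl6 cl6 1 1 t2
def G : List StarD := [S0, S1, S2]
theorem so0 : StarOK sI G S0 :=
  star_mk (by decide) (by decide) rfl rfl rfl rfl rfl rfl (rfl : _ = t0) (rfl : _ = t2)
  (st_mk (Pth.l (Pth.l (Pth.l Pth.z))) (nat_lit 189094518) (nat_lit 189715505) (by decide +kernel))
  (st_mk (Pth.l (Pth.l (Pth.l Pth.z))) (nat_lit 225241721) (nat_lit 226125384) (by decide +kernel))
  (st_mk (Pth.l (Pth.l (Pth.l Pth.z))) (nat_lit 267233833) (nat_lit 268484734) (by decide +kernel)) sv0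
theorem so1 : StarOK sI G S1 :=
  star_mk (by decide) (by decide) rfl rfl rfl rfl rfl rfl (rfl : _ = t2) (rfl : _ = t0)
  (st_mk (Pth.l (Pth.l (Pth.l Pth.z))) (nat_lit 142002698) (nat_lit 164435200) (by decide +kernel))
  (st_mk (Pth.l (Pth.l (Pth.l Pth.z))) (nat_lit 178023561) (nat_lit 200753456) (by decide +kernel))
  (st_mk (Pth.l (Pth.l (Pth.l Pth.z))) (nat_lit 219909175) (nat_lit 243035407) (by decide +kernel)) sv1
theorem so2 : StarOK sI G S2 :=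
  star_mk (by decide) (by decide) rfl rfl rfl rfl rfl rfl (rfl : _ = t1) (rfl : _ = t1)
  (st_mk (Pth.l (Pth.l (Pth.l Pth.z))) (nat_lit 187584799) (nat_lit 189082974) (by decide +kernel))
  (st_mk (Pth.l (Pth.l (Pth.l Pth.z))) (nat_lit 223204567) (nat_lit 225107723) (by decide +kernel))
  (st_mk (Pth.l (Pth.l (Pth.l Pth.z))) (nat_lit 264464108) (nat_lit 266929178) (by decide +kernel)) sv2
theorem ok : GroupOK (nat_lit 91226112) (nat_lit 150339584) G := grp_mk (allS_c so0 (allS_c so1 (allS_c so2 allS_n)))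
theorem cov : GCov G cl6 cl6 cl7 := cov_mk
  ⟨0, by decide, rfl, rfl, rfl⟩ ⟨1, by decide, rfl, rfl, rfl⟩ ⟨0, by decide, rfl, rfl, rfl⟩ ⟨1, by decide, rfl, rfl, rfl⟩ ⟨2, by decide, rfl, rfl, rfl⟩ ⟨2, by decide, rfl, rfl, rfl⟩
end Q334_1

namespace Q334_2
def sI : I := I.pos (nat_lit 150274048) (nat_lit 209387520)
def b0_0 : Bx := Bx.mk (St.mk (I.pos (nat_lit 152616960) (nat_lit 230883328)) (I.mix (nat_lit 278528) (nat_lit 65126400)) (I.mix (nat_lit 278528) (nat_lit 91947008)) (I.pos (nat_lit 188776448) (nat_lit 292798464)) (I.mix (nat_lit 132661248) (nat_lit 80887808)) (I.mix (nat_lit 86851584) (nat_lit 73777152)) (I.mix (nat_lit 121126912) (nat_lit 103219200)))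
  false (nat_lit 14088999)
def b0_1 : Bx := Bx.mk (St.mk (I.mix (nat_lit 41975808) (nat_lit 99188736)) (I.mix (nat_lit 9912320) (nat_lit 41320448)) (I.mix (nat_lit 19546112) (nat_lit 13926400)) (I.pos (nat_lit 76431360) (nat_lit 126599168)) (I.mix (nat_lit 44433408) (nat_lit 51970048)) (I.mix (nat_lit 45613056) (nat_lit 36438016)) (I.mix (nat_lit 29933568) (nat_lit 20234240)))
  false (nat_lit 0)
def b0_2 : Bx := Bx.mk (St.mk (I.pos (nat_lit 77021184) (nat_lit 123256832)) (I.mix (nat_lit 57950208) (nat_lit 8241152)) (I.neg (nat_lit 6062080) (nat_lit 54280192)) (I.pos (nat_lit 112001024) (nat_lit 147095552)) (I.mix (nat_lit 84131840) (nat_lit 26394624)) (I.mix (nat_lit 37027840) (nat_lit 66863104)) (I.mix (nat_lit 26279936) (nat_lit 45694976)))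
  false (nat_lit 0)
def b0_3 : Bx := Bx.mk (St.mk (I.mix (nat_lit 48955392) (nat_lit 28835840)) (I.mix (nat_lit 32653312) (nat_lit 7618560)) (I.mix (nat_lit 12877824) (nat_lit 704512)) (I.pos (nat_lit 83476480) (nat_lit 100810752)) (I.mix (nat_lit 37552128) (nat_lit 22986752)) (I.mix (nat_lit 22757376) (nat_lit 32129024)) (I.mix (nat_lit 11976704) (nat_lit 7274496)))
  false (nat_lit 0)
def b0_4 : Bx := Bx.mk (St.mk (I.pos (nat_lit 188399616) (nat_lit 285114368)) (I.mix (nat_lit 31522816) (nat_lit 43040768)) (I.mix (nat_lit 102088704) (nat_lit 46481408)) (I.pos (nat_lit 251133952) (nat_lit 402489344)) (I.mix (nat_lit 84541440) (nat_lit 58179584)) (I.mix (nat_lit 64487424) (nat_lit 53854208)) (I.mix (nat_lit 116572160) (nat_lit 95895552)))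
  false (nat_lit 0)
def b0_5 : Bx := Bx.mk (St.mk (I.pos (nat_lit 84672512) (nat_lit 165543936)) (I.neg (nat_lit 4014080) (nat_lit 58064896)) (I.neg (nat_lit 2572288) (nat_lit 55246848)) (I.pos (nat_lit 123715584) (nat_lit 194101248)) (I.mix (nat_lit 85557248) (nat_lit 53526528)) (I.mix (nat_lit 46612480) (nat_lit 67092480)) (I.mix (nat_lit 40861696) (nat_lit 59146240)))
  false (nat_lit 0)
def b0_6 : Bx := Bx.mk (St.mk (I.mix (nat_lit 34193408) (nat_lit 48742400)) (I.mix (nat_lit 33128448) (nat_lit 6979584)) (I.mix (nat_lit 14778368) (nat_lit 180224)) (I.pos (nat_lit 82608128) (nat_lit 101367808)) (I.mix (nat_lit 34455552) (nat_lit 37486592)) (I.mix (nat_lit 28590080) (nat_lit 34111488)) (I.mix (nat_lit 11124736) (nat_lit 12845056)))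
  false (nat_lit 0)
def b0_7 : Bx := Bx.mk (St.mk (I.mix (nat_lit 49938432) (nat_lit 70303744)) (I.mix (nat_lit 10502144) (nat_lit 34832384)) (I.mix (nat_lit 14434304) (nat_lit 9240576)) (I.pos (nat_lit 84017152) (nat_lit 110854144)) (I.mix (nat_lit 53755904) (nat_lit 39272448)) (I.mix (nat_lit 44990464) (nat_lit 37388288)) (I.mix (nat_lit 16859136) (nat_lit 17498112)))
  false (nat_lit 0)
def b0_8 : Bx := Bx.mk (St.mk (I.pos (nat_lit 157302784) (nat_lit 209387520)) (I.mix (nat_lit 3325952) (nat_lit 61784064)) (I.pos (nat_lit 9764864) (nat_lit 85311488)) (I.pos (nat_lit 192643072) (nat_lit 258342912)) (I.mix (nat_lit 147668992) (nat_lit 56393728)) (I.mix (nat_lit 138215424) (nat_lit 82640896)) (I.mix (nat_lit 131858432) (nat_lit 79233024)))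
  false (nat_lit 0)
def b0_9 : Bx := Bx.mk (St.mk (I.pos (nat_lit 133611520) (nat_lit 198508544)) (I.mix (nat_lit 41746432) (nat_lit 14139392)) (I.mix (nat_lit 40566784) (nat_lit 25739264)) (I.pos (nat_lit 162250752) (nat_lit 232226816)) (I.mix (nat_lit 62537728) (nat_lit 61063168)) (I.mix (nat_lit 60899328) (nat_lit 54067200)) (I.mix (nat_lit 58179584) (nat_lit 49905664)))
  false (nat_lit 0)
def b0_10 : Bx := Bx.mk (St.mk (I.pos (nat_lit 157466624) (nat_lit 200245248)) (I.mix (nat_lit 11108352) (nat_lit 37388288)) (I.mix (nat_lit 1638400) (nat_lit 57622528)) (I.pos (nat_lit 193871872) (nat_lit 236617728)) (I.mix (nat_lit 130301952) (nat_lit 68272128)) (I.mix (nat_lit 137445376) (nat_lit 62783488)) (I.mix (nat_lit 135872512) (nat_lit 55869440)))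
  false (nat_lit 0)
def b0_11 : Bx := Bx.mk (St.mk (I.pos (nat_lit 174800896) (nat_lit 232931328)) (I.pos (nat_lit 8667136) (nat_lit 66617344)) (I.pos (nat_lit 6635520) (nat_lit 91947008)) (I.pos (nat_lit 237617152) (nat_lit 289751040)) (I.mix (nat_lit 117882880) (nat_lit 95551488)) (I.mix (nat_lit 102154240) (nat_lit 78462976)) (I.mix (nat_lit 151027712) (nat_lit 96223232)))
  false (nat_lit 11274338)
def t0 : BTr := (BTr.n (BTr.n (BTr.n (BTr.b b0_0) (BTr.n (BTr.b b0_1) (BTr.b b0_2))) (BTr.n (BTr.b b0_3) (BTr.n (BTr.b b0_4) (BTr.b b0_5)))) (BTr.n (BTr.n (BTr.b b0_6) (BTr.n (BTr.b b0_7) (BTr.b b0_8))) (BTr.n (BTr.b b0_9) (BTr.n (BTr.b b0_10) (BTr.b b0_11)))))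
namespace T0
def l0 : Tr := Tr.L (Pth.l (Pth.l (Pth.l Pth.z)))
def l1 : Tr := Tr.L (Pth.l (Pth.l (Pth.r (Pth.l Pth.z))))
def l2 : Tr := Tr.L (Pth.l (Pth.l (Pth.r (Pth.r Pth.z))))
def l3 : Tr := Tr.L (Pth.l (Pth.r (Pth.l Pth.z)))
def l4 : Tr := Tr.L (Pth.l (Pth.r (Pth.r (Pth.l Pth.z))))
def l5 : Tr := Tr.L (Pth.l (Pth.r (Pth.r (Pth.r Pth.z))))
def l6 : Tr := Tr.L (Pth.r (Pth.l (Pth.l Pth.z)))
def l7 : Tr := Tr.L (Pth.r (Pth.l (Pth.r (Pth.l Pth.z))))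
def l8 : Tr := Tr.L (Pth.r (Pth.l (Pth.r (Pth.r Pth.z))))
def l9 : Tr := Tr.L (Pth.r (Pth.r (Pth.l Pth.z)))
def l10 : Tr := Tr.L (Pth.r (Pth.r (Pth.r (Pth.l Pth.z))))
def l11 : Tr := Tr.L (Pth.r (Pth.r (Pth.r (Pth.r Pth.z))))
end T0
def b1_0 : Bx := Bx.mk (St.mk (I.pos (nat_lit 148520960) (nat_lit 236273664)) (I.mix (nat_lit 278528) (nat_lit 62111744)) (I.mix (nat_lit 278528) (nat_lit 100925440)) (I.pos (nat_lit 144211968) (nat_lit 268173312)) (I.mix (nat_lit 146817024) (nat_lit 100319232)) (I.mix (nat_lit 100761600) (nat_lit 102989824)) (I.mix (nat_lit 143998976) (nat_lit 135135232)))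
  false (nat_lit 51962593)
def b1_1 : Bx := Bx.mk (St.mk (I.pos (nat_lit 97042432) (nat_lit 176373760)) (I.neg (nat_lit 5357568) (nat_lit 57393152)) (I.mix (nat_lit 54231040) (nat_lit 1196032)) (I.pos (nat_lit 96518144) (nat_lit 182026240)) (I.mix (nat_lit 86638592) (nat_lit 55934976)) (I.mix (nat_lit 54771712) (nat_lit 60047360)) (I.mix (nat_lit 48545792) (nat_lit 57180160)))
  false (nat_lit 17460633)
def b1_2 : Bx := Bx.mk (St.mk (I.mix (nat_lit 46170112) (nat_lit 120700928)) (I.mix (nat_lit 9420800) (nat_lit 39469056)) (I.mix (nat_lit 13746176) (nat_lit 25903104)) (I.pos (nat_lit 35733504) (nat_lit 117358592)) (I.mix (nat_lit 59572224) (nat_lit 56115200)) (I.mix (nat_lit 45170688) (nat_lit 43548672)) (I.mix (nat_lit 33095680) (nat_lit 29736960)))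
  false (nat_lit 0)
def b1_3 : Bx := Bx.mk (St.mk (I.mix (nat_lit 35405824) (nat_lit 84656128)) (I.mix (nat_lit 34570240) (nat_lit 5816320)) (I.mix (nat_lit 20267008) (nat_lit 4554752)) (I.pos (nat_lit 37961728) (nat_lit 90357760)) (I.mix (nat_lit 43941888) (nat_lit 40271872)) (I.mix (nat_lit 31588352) (nat_lit 33406976)) (I.mix (nat_lit 17022976) (nat_lit 18579456)))
  false (nat_lit 0)
def b1_4 : Bx := Bx.mk (St.mk (I.pos (nat_lit 159776768) (nat_lit 214040576)) (I.mix (nat_lit 11878400) (nat_lit 59031552)) (I.pos (nat_lit 6455296) (nat_lit 92651520)) (I.pos (nat_lit 147800064) (nat_lit 237142016)) (I.mix (nat_lit 151846912) (nat_lit 60309504)) (I.mix (nat_lit 145735680) (nat_lit 83361792)) (I.mix (nat_lit 155238400) (nat_lit 83132416)))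
  false (nat_lit 586783)
def b1_5 : Bx := Bx.mk (St.mk (I.pos (nat_lit 90095616) (nat_lit 141295616)) (I.mix (nat_lit 56934400) (nat_lit 7929856)) (I.mix (nat_lit 52248576) (nat_lit 720896)) (I.pos (nat_lit 78757888) (nat_lit 134512640)) (I.mix (nat_lit 97075200) (nat_lit 33636352)) (I.mix (nat_lit 46120960) (nat_lit 85082112)) (I.mix (nat_lit 34652160) (nat_lit 61947904)))
  false (nat_lit 0)
def b1_6 : Bx := Bx.mk (St.mk (I.mix (nat_lit 38502400) (nat_lit 107593728)) (I.mix (nat_lit 13156352) (nat_lit 39436288)) (I.mix (nat_lit 11272192) (nat_lit 26198016)) (I.pos (nat_lit 42369024) (nat_lit 107020288)) (I.mix (nat_lit 69500928) (nat_lit 40681472)) (I.mix (nat_lit 55132160) (nat_lit 43433984)) (I.mix (nat_lit 29278208) (nat_lit 24428544)))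
  false (nat_lit 0)
def b1_7 : Bx := Bx.mk (St.mk (I.mix (nat_lit 35471360) (nat_lit 66584576)) (I.mix (nat_lit 28000256) (nat_lit 4653056)) (I.mix (nat_lit 14548992) (nat_lit 2506752)) (I.pos (nat_lit 42762240) (nat_lit 80592896)) (I.mix (nat_lit 43630592) (nat_lit 22331392)) (I.mix (nat_lit 25051136) (nat_lit 32686080)) (I.mix (nat_lit 11468800) (nat_lit 12713984)))
  false (nat_lit 0)
def b1_8 : Bx := Bx.mk (St.mk (I.pos (nat_lit 186859520) (nat_lit 286048256)) (I.mix (nat_lit 29966336) (nat_lit 40271872)) (I.mix (nat_lit 77938688) (nat_lit 62701568)) (I.pos (nat_lit 210845696) (nat_lit 377241600)) (I.mix (nat_lit 93044736) (nat_lit 67616768)) (I.mix (nat_lit 69271552) (nat_lit 67272704)) (I.mix (nat_lit 121274368) (nat_lit 114556928)))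
  false (nat_lit 50440556)
def b1_9 : Bx := Bx.mk (St.mk (I.pos (nat_lit 137838592) (nat_lit 204357632)) (I.mix (nat_lit 39600128) (nat_lit 14188544)) (I.mix (nat_lit 35422208) (nat_lit 32882688)) (I.pos (nat_lit 126992384) (nat_lit 216973312)) (I.mix (nat_lit 61669376) (nat_lit 54001664)) (I.mix (nat_lit 53592064) (nat_lit 50020352)) (I.mix (nat_lit 53460992) (nat_lit 51511296)))
  false (nat_lit 0)
def b1_10 : Bx := Bx.mk (St.mk (I.pos (nat_lit 175292416) (nat_lit 234160128)) (I.pos (nat_lit 14008320) (nat_lit 58884096)) (I.pos (nat_lit 23199744) (nat_lit 96976896)) (I.pos (nat_lit 196706304) (nat_lit 264519680)) (I.mix (nat_lit 107233280) (nat_lit 82427904)) (I.mix (nat_lit 92913664) (nat_lit 69484544)) (I.mix (nat_lit 145375232) (nat_lit 86540288)))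
  false (nat_lit 28787777)
def b1_11 : Bx := Bx.mk (St.mk (I.pos (nat_lit 163037184) (nat_lit 206782464)) (I.mix (nat_lit 17825792) (nat_lit 30851072)) (I.mix (nat_lit 1802240) (nat_lit 57245696)) (I.pos (nat_lit 154222592) (nat_lit 219774976)) (I.mix (nat_lit 99385344) (nat_lit 51494912)) (I.mix (nat_lit 96436224) (nat_lit 52527104)) (I.mix (nat_lit 103858176) (nat_lit 52871168)))
  false (nat_lit 0)
def t1 : BTr := (BTr.n (BTr.n (BTr.n (BTr.b b1_0) (BTr.n (BTr.b b1_1) (BTr.b b1_2))) (BTr.n (BTr.b b1_3) (BTr.n (BTr.b b1_4) (BTr.b b1_5)))) (BTr.n (BTr.n (BTr.b b1_6) (BTr.n (BTr.b b1_7) (BTr.b b1_8))) (BTr.n (BTr.b b1_9) (BTr.n (BTr.b b1_10) (BTr.b b1_11)))))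
namespace T1
def l0 : Tr := Tr.L (Pth.l (Pth.l (Pth.l Pth.z)))
def l1 : Tr := Tr.L (Pth.l (Pth.l (Pth.r (Pth.l Pth.z))))
def l2 : Tr := Tr.L (Pth.l (Pth.l (Pth.r (Pth.r Pth.z))))
def l3 : Tr := Tr.L (Pth.l (Pth.r (Pth.l Pth.z)))
def l4 : Tr := Tr.L (Pth.l (Pth.r (Pth.r (Pth.l Pth.z))))
def l5 : Tr := Tr.L (Pth.l (Pth.r (Pth.r (Pth.r Pth.z))))
def l6 : Tr := Tr.L (Pth.r (Pth.l (Pth.l Pth.z)))
def l7 : Tr := Tr.L (Pth.r (Pth.l (Pth.r (Pth.l Pth.z))))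
def l8 : Tr := Tr.L (Pth.r (Pth.l (Pth.r (Pth.r Pth.z))))
def l9 : Tr := Tr.L (Pth.r (Pth.r (Pth.l Pth.z)))
def l10 : Tr := Tr.L (Pth.r (Pth.r (Pth.r (Pth.l Pth.z))))
def l11 : Tr := Tr.L (Pth.r (Pth.r (Pth.r (Pth.r Pth.z))))
end T1
def b2_0 : Bx := Bx.mk (St.mk (I.pos (nat_lit 145539072) (nat_lit 232996864)) (I.mix (nat_lit 278528) (nat_lit 66813952)) (I.mix (nat_lit 278528) (nat_lit 107249664)) (I.pos (nat_lit 187318272) (nat_lit 290111488)) (I.mix (nat_lit 154468352) (nat_lit 103989248)) (I.mix (nat_lit 104235008) (nat_lit 105512960)) (I.mix (nat_lit 142229504) (nat_lit 136527872)))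
  false (nat_lit 67034014)
def b2_1 : Bx := Bx.mk (St.mk (I.pos (nat_lit 89833472) (nat_lit 166264832)) (I.neg (nat_lit 7340032) (nat_lit 61243392)) (I.mix (nat_lit 50331648) (nat_lit 5668864)) (I.pos (nat_lit 128024576) (nat_lit 194002944)) (I.mix (nat_lit 79511552) (nat_lit 47890432)) (I.mix (nat_lit 40304640) (nat_lit 56098816)) (I.mix (nat_lit 33603584) (nat_lit 50151424)))
  false (nat_lit 6747617)
def b2_2 : Bx := Bx.mk (St.mk (I.mix (nat_lit 30949376) (nat_lit 48644096)) (I.mix (nat_lit 32882688) (nat_lit 6193152)) (I.mix (nat_lit 8912896) (nat_lit 5390336)) (I.pos (nat_lit 83509248) (nat_lit 100794368)) (I.mix (nat_lit 27901952) (nat_lit 34373632)) (I.mix (nat_lit 23330816) (nat_lit 30457856)) (I.mix (nat_lit 8290304) (nat_lit 11206656)))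
  false (nat_lit 0)
def b2_3 : Bx := Bx.mk (St.mk (I.pos (nat_lit 153960448) (nat_lit 208568320)) (I.mix (nat_lit 2719744) (nat_lit 60145664)) (I.pos (nat_lit 19709952) (nat_lit 94191616)) (I.pos (nat_lit 186793984) (nat_lit 252100608)) (I.mix (nat_lit 133644288) (nat_lit 50806784)) (I.mix (nat_lit 120635392) (nat_lit 69517312)) (I.mix (nat_lit 118620160) (nat_lit 62603264)))
  false (nat_lit 20639062)
def b2_4 : Bx := Bx.mk (St.mk (I.mix (nat_lit 49610752) (nat_lit 75710464)) (I.mix (nat_lit 10551296) (nat_lit 39501824)) (I.mix (nat_lit 10633216) (nat_lit 15761408)) (I.pos (nat_lit 82952192) (nat_lit 110198784)) (I.mix (nat_lit 39174144) (nat_lit 33406976)) (I.mix (nat_lit 26148864) (nat_lit 23429120)) (I.mix (nat_lit 10895360) (nat_lit 10616832)))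
  false (nat_lit 0)
def b2_5 : Bx := Bx.mk (St.mk (I.pos (nat_lit 134365184) (nat_lit 194756608)) (I.mix (nat_lit 36421632) (nat_lit 11157504)) (I.mix (nat_lit 23707648) (nat_lit 34226176)) (I.pos (nat_lit 164397056) (nat_lit 226131968)) (I.mix (nat_lit 54214656) (nat_lit 55230464)) (I.mix (nat_lit 52346880) (nat_lit 50741248)) (I.mix (nat_lit 48463872) (nat_lit 48529408)))
  false (nat_lit 0)
def b2_6 : Bx := Bx.mk (St.mk (I.mix (nat_lit 46252032) (nat_lit 99614720)) (I.mix (nat_lit 8830976) (nat_lit 41893888)) (I.mix (nat_lit 12156928) (nat_lit 21872640)) (I.pos (nat_lit 74874880) (nat_lit 127188992)) (I.mix (nat_lit 53673984) (nat_lit 57180160)) (I.mix (nat_lit 49577984) (nat_lit 43728896)) (I.mix (nat_lit 32210944) (nat_lit 26066944)))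
  false (nat_lit 0)
def b2_7 : Bx := Bx.mk (St.mk (I.pos (nat_lit 75972608) (nat_lit 124960768)) (I.mix (nat_lit 59523072) (nat_lit 9388032)) (I.mix (nat_lit 48250880) (nat_lit 573440)) (I.pos (nat_lit 112328704) (nat_lit 149651456)) (I.mix (nat_lit 88375296) (nat_lit 33062912)) (I.mix (nat_lit 44023808) (nat_lit 73826304)) (I.mix (nat_lit 32276480) (nat_lit 48283648)))
  false (nat_lit 0)
def b2_8 : Bx := Bx.mk (St.mk (I.mix (nat_lit 49233920) (nat_lit 31850496)) (I.mix (nat_lit 33079296) (nat_lit 5914624)) (I.mix (nat_lit 7372800) (nat_lit 6504448)) (I.pos (nat_lit 83542016) (nat_lit 101056512)) (I.mix (nat_lit 40681472) (nat_lit 29163520)) (I.mix (nat_lit 27869184) (nat_lit 33914880)) (I.mix (nat_lit 12615680) (nat_lit 9273344)))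
  false (nat_lit 0)
def b2_9 : Bx := Bx.mk (St.mk (I.pos (nat_lit 178896896) (nat_lit 292225024)) (I.mix (nat_lit 29163520) (nat_lit 47661056)) (I.mix (nat_lit 74170368) (nat_lit 74924032)) (I.pos (nat_lit 239910912) (nat_lit 410386432)) (I.mix (nat_lit 108756992) (nat_lit 77119488)) (I.mix (nat_lit 78102528) (nat_lit 68829184)) (I.mix (nat_lit 135905280) (nat_lit 111968256)))
  false (nat_lit 54665768)
def b2_10 : Bx := Bx.mk (St.mk (I.pos (nat_lit 168099840) (nat_lit 233390080)) (I.pos (nat_lit 8175616) (nat_lit 65683456)) (I.pos (nat_lit 17383424) (nat_lit 106283008)) (I.pos (nat_lit 228753408) (nat_lit 285474816)) (I.mix (nat_lit 121503744) (nat_lit 97959936)) (I.mix (nat_lit 109166592) (nat_lit 79511552)) (I.mix (nat_lit 164085760) (nat_lit 98156544)))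
  false (nat_lit 37055429)
def b2_11 : Bx := Bx.mk (St.mk (I.pos (nat_lit 157040640) (nat_lit 197328896)) (I.mix (nat_lit 11943936) (nat_lit 33390592)) (I.pos (nat_lit 7946240) (nat_lit 64585728)) (I.pos (nat_lit 188891136) (nat_lit 231653376)) (I.mix (nat_lit 121667584) (nat_lit 54984704)) (I.mix (nat_lit 124665856) (nat_lit 52822016)) (I.mix (nat_lit 125173760) (nat_lit 50659328)))
  false (nat_lit 0)
def t2 : BTr := (BTr.n (BTr.n (BTr.n (BTr.b b2_0) (BTr.n (BTr.b b2_1) (BTr.b b2_2))) (BTr.n (BTr.b b2_3) (BTr.n (BTr.b b2_4) (BTr.b b2_5)))) (BTr.n (BTr.n (BTr.b b2_6) (BTr.n (BTr.b b2_7) (BTr.b b2_8))) (BTr.n (BTr.b b2_9) (BTr.n (BTr.b b2_10) (BTr.b b2_11)))))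
namespace T2
def l0 : Tr := Tr.L (Pth.l (Pth.l (Pth.l Pth.z)))
def l1 : Tr := Tr.L (Pth.l (Pth.l (Pth.r (Pth.l Pth.z))))
def l2 : Tr := Tr.L (Pth.l (Pth.l (Pth.r (Pth.r Pth.z))))
def l3 : Tr := Tr.L (Pth.l (Pth.r (Pth.l Pth.z)))
def l4 : Tr := Tr.L (Pth.l (Pth.r (Pth.r (Pth.l Pth.z))))
def l5 : Tr := Tr.L (Pth.l (Pth.r (Pth.r (Pth.r Pth.z))))
def l6 : Tr := Tr.L (Pth.r (Pth.l (Pth.l Pth.z)))
def l7 : Tr := Tr.L (Pth.r (Pth.l (Pth.r (Pth.l Pth.z))))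
def l8 : Tr := Tr.L (Pth.r (Pth.l (Pth.r (Pth.r Pth.z))))
def l9 : Tr := Tr.L (Pth.r (Pth.r (Pth.l Pth.z)))
def l10 : Tr := Tr.L (Pth.r (Pth.r (Pth.r (Pth.l Pth.z))))
def l11 : Tr := Tr.L (Pth.r (Pth.r (Pth.r (Pth.r Pth.z))))
end T2
theorem bx0_0 : BoxOK sI cl6 cl6 cl7 t0 t2 b0_0 :=
  box_mk (TrL.c (I.pos (nat_lit 0) (nat_lit 0)) (xa (xb T0.l0 T0.l0) (xb T0.l0 T0.l0))
  (TrL.c (I.pos (nat_lit 0) (nat_lit 0)) T2.l1
  (TrL.c (I.pos (nat_lit 0) (nat_lit 89480386)) T0.l1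
  (TrL.c (I.pos (nat_lit 0) (nat_lit 41530880)) T2.l2
  (TrL.c (I.pos (nat_lit 0) (nat_lit 0)) (xa T2.l3 T2.l3)
  (TrL.c (I.pos (nat_lit 0) (nat_lit 0)) T0.l2
  (TrL.c (I.mix (nat_lit 41527258) (nat_lit 41530880)) T2.l6
  (TrL.c (I.mix (nat_lit 41527258) (nat_lit 4274)) T0.l3
  TrL.n)))))))) (by decide +kernel)
theorem bx0_1 : BoxOK sI cl6 cl6 cl7 t0 t2 b0_1 :=
  box_mk (TrL.c (I.pos (nat_lit 0) (nat_lit 0)) (xa (xa (xb T0.l4 T0.l4) T0.l4) (xa T0.l4 T0.l4))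
  (TrL.c (I.pos (nat_lit 0) (nat_lit 0)) T2.l1
  (TrL.c (I.pos (nat_lit 0) (nat_lit 89480386)) T0.l1
  (TrL.c (I.pos (nat_lit 0) (nat_lit 41530880)) T2.l2
  (TrL.c (I.pos (nat_lit 0) (nat_lit 0)) T2.l5
  (TrL.c (I.pos (nat_lit 0) (nat_lit 0)) T0.l2
  (TrL.c (I.mix (nat_lit 41527258) (nat_lit 41530880)) T2.l4
  (TrL.c (I.mix (nat_lit 41527258) (nat_lit 4274)) T0.l3
  TrL.n)))))))) (by decide +kernel)
theorem bx0_2 : BoxOK sI cl6 cl6 cl7 t0 t2 b0_2 :=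
  box_mk (TrL.c (I.pos (nat_lit 0) (nat_lit 0)) T0.l4
  (TrL.c (I.pos (nat_lit 0) (nat_lit 0)) T2.l1
  (TrL.c (I.pos (nat_lit 0) (nat_lit 89480386)) T0.l1
  (TrL.c (I.pos (nat_lit 0) (nat_lit 41530880)) T2.l2
  (TrL.c (I.pos (nat_lit 0) (nat_lit 0)) T2.l5
  (TrL.c (I.pos (nat_lit 0) (nat_lit 0)) T0.l2
  (TrL.c (I.mix (nat_lit 41527258) (nat_lit 41530880)) T2.l4
  (TrL.c (I.mix (nat_lit 41527258) (nat_lit 4274)) T0.l3
  TrL.n)))))))) (by decide +kernel)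
theorem bx0_3 : BoxOK sI cl6 cl6 cl7 t0 t2 b0_3 :=
  box_mk (TrL.c (I.pos (nat_lit 0) (nat_lit 0)) (xa T0.l4 T0.l4)
  (TrL.c (I.pos (nat_lit 0) (nat_lit 0)) T2.l5
  (TrL.c (I.pos (nat_lit 0) (nat_lit 89480386)) T0.l1
  (TrL.c (I.pos (nat_lit 0) (nat_lit 41530880)) T2.l4
  (TrL.c (I.pos (nat_lit 0) (nat_lit 0)) T2.l1
  (TrL.c (I.pos (nat_lit 0) (nat_lit 0)) T0.l1
  (TrL.c (I.mix (nat_lit 41527258) (nat_lit 41530880)) T2.l4
  (TrL.c (I.mix (nat_lit 41527258) (nat_lit 4274)) T0.l3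
  TrL.n)))))))) (by decide +kernel)
theorem bx0_4 : BoxOK sI cl6 cl6 cl7 t0 t2 b0_4 :=
  box_mk (TrL.c (I.pos (nat_lit 0) (nat_lit 0)) (xa (xb T0.l0 T0.l0) (xb T0.l0 T0.l0))
  (TrL.c (I.pos (nat_lit 0) (nat_lit 0)) (xa T2.l1 T2.l7)
  (TrL.c (I.pos (nat_lit 0) (nat_lit 89480386)) T0.l1
  (TrL.c (I.pos (nat_lit 0) (nat_lit 41530880)) T2.l2
  (TrL.c (I.pos (nat_lit 0) (nat_lit 0)) (xa T2.l3 (xb T2.l0 T2.l3))
  (TrL.c (I.pos (nat_lit 0) (nat_lit 0)) T0.l2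
  (TrL.c (I.mix (nat_lit 41527258) (nat_lit 41530880)) T2.l6
  (TrL.c (I.mix (nat_lit 41527258) (nat_lit 4274)) T0.l3
  TrL.n)))))))) (by decide +kernel)
theorem bx0_5 : BoxOK sI cl6 cl6 cl7 t0 t2 b0_5 :=
  box_mk (TrL.c (I.pos (nat_lit 0) (nat_lit 0)) (xa T0.l4 T0.l4)
  (TrL.c (I.pos (nat_lit 0) (nat_lit 0)) T2.l1
  (TrL.c (I.pos (nat_lit 0) (nat_lit 89480386)) T0.l1
  (TrL.c (I.pos (nat_lit 0) (nat_lit 41530880)) T2.l2
  (TrL.c (I.pos (nat_lit 0) (nat_lit 0)) T2.l5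
  (TrL.c (I.pos (nat_lit 0) (nat_lit 0)) T0.l2
  (TrL.c (I.mix (nat_lit 41527258) (nat_lit 41530880)) T2.l4
  (TrL.c (I.mix (nat_lit 41527258) (nat_lit 4274)) T0.l3
  TrL.n)))))))) (by decide +kernel)
theorem bx0_6 : BoxOK sI cl6 cl6 cl7 t0 t2 b0_6 :=
  box_mk (TrL.c (I.pos (nat_lit 0) (nat_lit 0)) T0.l4
  (TrL.c (I.pos (nat_lit 0) (nat_lit 0)) T2.l1
  (TrL.c (I.pos (nat_lit 0) (nat_lit 89480386)) T0.l1
  (TrL.c (I.pos (nat_lit 0) (nat_lit 41530880)) T2.l2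
  (TrL.c (I.pos (nat_lit 0) (nat_lit 0)) T2.l1
  (TrL.c (I.pos (nat_lit 0) (nat_lit 0)) T0.l1
  (TrL.c (I.mix (nat_lit 41527258) (nat_lit 41530880)) T2.l4
  (TrL.c (I.mix (nat_lit 41527258) (nat_lit 4274)) T0.l3
  TrL.n)))))))) (by decide +kernel)
theorem bx0_7 : BoxOK sI cl6 cl6 cl7 t0 t2 b0_7 :=
  box_mk (TrL.c (I.pos (nat_lit 0) (nat_lit 0)) (xa (xa T0.l4 T0.l4) T0.l4)
  (TrL.c (I.pos (nat_lit 0) (nat_lit 0)) T2.l1
  (TrL.c (I.pos (nat_lit 0) (nat_lit 89480386)) T0.l1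
  (TrL.c (I.pos (nat_lit 0) (nat_lit 41530880)) T2.l2
  (TrL.c (I.pos (nat_lit 0) (nat_lit 0)) T2.l5
  (TrL.c (I.pos (nat_lit 0) (nat_lit 0)) T0.l2
  (TrL.c (I.mix (nat_lit 41527258) (nat_lit 41530880)) T2.l4
  (TrL.c (I.mix (nat_lit 41527258) (nat_lit 4274)) T0.l3
  TrL.n)))))))) (by decide +kernel)
theorem bx0_8 : BoxOK sI cl6 cl6 cl7 t0 t2 b0_8 :=
  box_mk (TrL.c (I.pos (nat_lit 0) (nat_lit 0)) (xb T0.l11 T0.l11)
  (TrL.c (I.pos (nat_lit 0) (nat_lit 0)) T2.l1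
  (TrL.c (I.pos (nat_lit 0) (nat_lit 89480386)) T0.l1
  (TrL.c (I.pos (nat_lit 0) (nat_lit 41530880)) T2.l2
  (TrL.c (I.pos (nat_lit 0) (nat_lit 0)) T2.l11
  (TrL.c (I.pos (nat_lit 0) (nat_lit 0)) T0.l2
  (TrL.c (I.mix (nat_lit 41527258) (nat_lit 41530880)) T2.l6
  (TrL.c (I.mix (nat_lit 41527258) (nat_lit 4274)) T0.l3
  TrL.n)))))))) (by decide +kernel)
theorem bx0_9 : BoxOK sI cl6 cl6 cl7 t0 t2 b0_9 :=
  box_mk (TrL.c (I.pos (nat_lit 0) (nat_lit 0)) T0.l11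
  (TrL.c (I.pos (nat_lit 0) (nat_lit 0)) T2.l1
  (TrL.c (I.pos (nat_lit 0) (nat_lit 89480386)) T0.l1
  (TrL.c (I.pos (nat_lit 0) (nat_lit 41530880)) T2.l2
  (TrL.c (I.pos (nat_lit 0) (nat_lit 0)) T2.l11
  (TrL.c (I.pos (nat_lit 0) (nat_lit 0)) T0.l2
  (TrL.c (I.mix (nat_lit 41527258) (nat_lit 41530880)) T2.l4
  (TrL.c (I.mix (nat_lit 41527258) (nat_lit 4274)) T0.l3
  TrL.n)))))))) (by decide +kernel)
theorem bx0_10 : BoxOK sI cl6 cl6 cl7 t0 t2 b0_10 :=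
  box_mk (TrL.c (I.pos (nat_lit 0) (nat_lit 0)) T0.l11
  (TrL.c (I.pos (nat_lit 0) (nat_lit 0)) T2.l1
  (TrL.c (I.pos (nat_lit 0) (nat_lit 89480386)) T0.l1
  (TrL.c (I.pos (nat_lit 0) (nat_lit 41530880)) T2.l2
  (TrL.c (I.pos (nat_lit 0) (nat_lit 0)) T2.l11
  (TrL.c (I.pos (nat_lit 0) (nat_lit 0)) T0.l2
  (TrL.c (I.mix (nat_lit 41527258) (nat_lit 41530880)) T2.l6
  (TrL.c (I.mix (nat_lit 41527258) (nat_lit 4274)) T0.l3
  TrL.n)))))))) (by decide +kernel)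
theorem bx0_11 : BoxOK sI cl6 cl6 cl7 t0 t2 b0_11 :=
  box_mk (TrL.c (I.pos (nat_lit 0) (nat_lit 0)) (xa T0.l0 T0.l0)
  (TrL.c (I.pos (nat_lit 0) (nat_lit 0)) T2.l1
  (TrL.c (I.pos (nat_lit 0) (nat_lit 89480386)) T0.l1
  (TrL.c (I.pos (nat_lit 0) (nat_lit 41530880)) T2.l2
  (TrL.c (I.pos (nat_lit 0) (nat_lit 0)) T2.l3
  (TrL.c (I.pos (nat_lit 0) (nat_lit 0)) T0.l2
  (TrL.c (I.mix (nat_lit 41527258) (nat_lit 41530880)) T2.l6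
  (TrL.c (I.mix (nat_lit 41527258) (nat_lit 4274)) T0.l3
  TrL.n)))))))) (by decide +kernel)
theorem sv0 : StarV sI cl6 cl6 cl7 t0 t2 t0 :=
  (bt_n (bt_n (bt_n (bt_b bx0_0) (bt_n (bt_b bx0_1) (bt_b bx0_2))) (bt_n (bt_b bx0_3) (bt_n (bt_b bx0_4) (bt_b bx0_5)))) (bt_n (bt_n (bt_b bx0_6) (bt_n (bt_b bx0_7) (bt_b bx0_8))) (bt_n (bt_b bx0_9) (bt_n (bt_b bx0_10) (bt_b bx0_11)))))
def S0 : StarD := StarD.mk cl6 cl6 cl7 0 2 t0
theorem bx1_0 : BoxOK sI cl6 cl7 cl6 t2 t0 b1_0 :=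
  box_mk (TrL.c (I.pos (nat_lit 0) (nat_lit 0)) (xa (xb T2.l0 T2.l0) (xb T2.l0 T2.l0))
  (TrL.c (I.pos (nat_lit 0) (nat_lit 0)) (xa T0.l5 T0.l5)
  (TrL.c (I.pos (nat_lit 0) (nat_lit 89480386)) T2.l6
  (TrL.c (I.pos (nat_lit 0) (nat_lit 41530880)) T0.l6
  (TrL.c (I.pos (nat_lit 0) (nat_lit 0)) (xa T0.l8 T0.l8)
  (TrL.c (I.pos (nat_lit 0) (nat_lit 0)) T2.l7
  (TrL.c (I.mix (nat_lit 41527258) (nat_lit 41530880)) T0.l7
  (TrL.c (I.mix (nat_lit 41527258) (nat_lit 4274)) T2.l8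
  TrL.n)))))))) (by decide +kernel)
theorem bx1_1 : BoxOK sI cl6 cl7 cl6 t2 t0 b1_1 :=
  box_mk (TrL.c (I.pos (nat_lit 0) (nat_lit 0)) T2.l9
  (TrL.c (I.pos (nat_lit 0) (nat_lit 0)) T0.l5
  (TrL.c (I.pos (nat_lit 0) (nat_lit 89480386)) T2.l6
  (TrL.c (I.pos (nat_lit 0) (nat_lit 41530880)) T0.l6
  (TrL.c (I.pos (nat_lit 0) (nat_lit 0)) T0.l9
  (TrL.c (I.pos (nat_lit 0) (nat_lit 0)) T2.l7
  (TrL.c (I.mix (nat_lit 41527258) (nat_lit 41530880)) T0.l7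
  (TrL.c (I.mix (nat_lit 41527258) (nat_lit 4274)) T2.l8
  TrL.n)))))))) (by decide +kernel)
theorem bx1_2 : BoxOK sI cl6 cl7 cl6 t2 t0 b1_2 :=
  box_mk (TrL.c (I.pos (nat_lit 0) (nat_lit 0)) (xa (xa (xb T2.l9 T2.l9) T2.l9) (xa T2.l9 T2.l9))
  (TrL.c (I.pos (nat_lit 0) (nat_lit 0)) (xa T0.l9 T0.l5)
  (TrL.c (I.pos (nat_lit 0) (nat_lit 89480386)) T2.l6
  (TrL.c (I.pos (nat_lit 0) (nat_lit 41530880)) T0.l6
  (TrL.c (I.pos (nat_lit 0) (nat_lit 0)) (xa T0.l9 T0.l9)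
  (TrL.c (I.pos (nat_lit 0) (nat_lit 0)) T2.l7
  (TrL.c (I.mix (nat_lit 41527258) (nat_lit 41530880)) T0.l7
  (TrL.c (I.mix (nat_lit 41527258) (nat_lit 4274)) T2.l8
  TrL.n)))))))) (by decide +kernel)
theorem bx1_3 : BoxOK sI cl6 cl7 cl6 t2 t0 b1_3 :=
  box_mk (TrL.c (I.pos (nat_lit 0) (nat_lit 0)) (xa (xa T2.l9 T2.l9) T2.l9)
  (TrL.c (I.pos (nat_lit 0) (nat_lit 0)) T0.l5
  (TrL.c (I.pos (nat_lit 0) (nat_lit 89480386)) T2.l6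
  (TrL.c (I.pos (nat_lit 0) (nat_lit 41530880)) T0.l6
  (TrL.c (I.pos (nat_lit 0) (nat_lit 0)) T0.l9
  (TrL.c (I.pos (nat_lit 0) (nat_lit 0)) T2.l7
  (TrL.c (I.mix (nat_lit 41527258) (nat_lit 41530880)) T0.l7
  (TrL.c (I.mix (nat_lit 41527258) (nat_lit 4274)) T2.l4
  TrL.n)))))))) (by decide +kernel)
theorem bx1_4 : BoxOK sI cl6 cl7 cl6 t2 t0 b1_4 :=
  box_mk (TrL.c (I.pos (nat_lit 0) (nat_lit 0)) (xb (xa T2.l10 T2.l10) (xa T2.l10 T2.l10))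
  (TrL.c (I.pos (nat_lit 0) (nat_lit 0)) T0.l5
  (TrL.c (I.pos (nat_lit 0) (nat_lit 89480386)) T2.l6
  (TrL.c (I.pos (nat_lit 0) (nat_lit 41530880)) T0.l6
  (TrL.c (I.pos (nat_lit 0) (nat_lit 0)) T0.l10
  (TrL.c (I.pos (nat_lit 0) (nat_lit 0)) T2.l7
  (TrL.c (I.mix (nat_lit 41527258) (nat_lit 41530880)) T0.l7
  (TrL.c (I.mix (nat_lit 41527258) (nat_lit 4274)) T2.l8
  TrL.n)))))))) (by decide +kernel)
theorem bx1_5 : BoxOK sI cl6 cl7 cl6 t2 t0 b1_5 :=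
  box_mk (TrL.c (I.pos (nat_lit 0) (nat_lit 0)) T2.l9
  (TrL.c (I.pos (nat_lit 0) (nat_lit 0)) T0.l5
  (TrL.c (I.pos (nat_lit 0) (nat_lit 89480386)) T2.l6
  (TrL.c (I.pos (nat_lit 0) (nat_lit 41530880)) T0.l6
  (TrL.c (I.pos (nat_lit 0) (nat_lit 0)) T0.l9
  (TrL.c (I.pos (nat_lit 0) (nat_lit 0)) T2.l7
  (TrL.c (I.mix (nat_lit 41527258) (nat_lit 41530880)) T0.l7
  (TrL.c (I.mix (nat_lit 41527258) (nat_lit 4274)) T2.l8
  TrL.n)))))))) (by decide +kernel)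
theorem bx1_6 : BoxOK sI cl6 cl7 cl6 t2 t0 b1_6 :=
  box_mk (TrL.c (I.pos (nat_lit 0) (nat_lit 0)) (xa (xa (xb T2.l9 T2.l9) T2.l9) (xa T2.l9 T2.l9))
  (TrL.c (I.pos (nat_lit 0) (nat_lit 0)) T0.l5
  (TrL.c (I.pos (nat_lit 0) (nat_lit 89480386)) T2.l6
  (TrL.c (I.pos (nat_lit 0) (nat_lit 41530880)) T0.l6
  (TrL.c (I.pos (nat_lit 0) (nat_lit 0)) (xa T0.l9 T0.l9)
  (TrL.c (I.pos (nat_lit 0) (nat_lit 0)) T2.l7
  (TrL.c (I.mix (nat_lit 41527258) (nat_lit 41530880)) T0.l7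
  (TrL.c (I.mix (nat_lit 41527258) (nat_lit 4274)) T2.l8
  TrL.n)))))))) (by decide +kernel)
theorem bx1_7 : BoxOK sI cl6 cl7 cl6 t2 t0 b1_7 :=
  box_mk (TrL.c (I.pos (nat_lit 0) (nat_lit 0)) T2.l9
  (TrL.c (I.pos (nat_lit 0) (nat_lit 0)) T0.l5
  (TrL.c (I.pos (nat_lit 0) (nat_lit 89480386)) T2.l6
  (TrL.c (I.pos (nat_lit 0) (nat_lit 41530880)) T0.l6
  (TrL.c (I.pos (nat_lit 0) (nat_lit 0)) T0.l9
  (TrL.c (I.pos (nat_lit 0) (nat_lit 0)) T2.l7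
  (TrL.c (I.mix (nat_lit 41527258) (nat_lit 41530880)) T0.l7
  (TrL.c (I.mix (nat_lit 41527258) (nat_lit 4274)) T2.l4
  TrL.n)))))))) (by decide +kernel)
theorem bx1_8 : BoxOK sI cl6 cl7 cl6 t2 t0 b1_8 :=
  box_mk (TrL.c (I.pos (nat_lit 0) (nat_lit 0)) (xa T2.l0 (xb T2.l0 T2.l0))
  (TrL.c (I.pos (nat_lit 0) (nat_lit 0)) (xa T0.l5 T0.l5)
  (TrL.c (I.pos (nat_lit 0) (nat_lit 89480386)) T2.l6
  (TrL.c (I.pos (nat_lit 0) (nat_lit 41530880)) T0.l6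
  (TrL.c (I.pos (nat_lit 0) (nat_lit 0)) (xa T0.l8 (xb (xa T0.l8 T0.l8) (xa T0.l8 T0.l8)))
  (TrL.c (I.pos (nat_lit 0) (nat_lit 0)) (xa T2.l7 T2.l7)
  (TrL.c (I.mix (nat_lit 41527258) (nat_lit 41530880)) T0.l1
  (TrL.c (I.mix (nat_lit 41527258) (nat_lit 4274)) T2.l8
  TrL.n)))))))) (by decide +kernel)
theorem bx1_9 : BoxOK sI cl6 cl7 cl6 t2 t0 b1_9 :=
  box_mk (TrL.c (I.pos (nat_lit 0) (nat_lit 0)) T2.l10
  (TrL.c (I.pos (nat_lit 0) (nat_lit 0)) T0.l5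
  (TrL.c (I.pos (nat_lit 0) (nat_lit 89480386)) T2.l6
  (TrL.c (I.pos (nat_lit 0) (nat_lit 41530880)) T0.l6
  (TrL.c (I.pos (nat_lit 0) (nat_lit 0)) T0.l10
  (TrL.c (I.pos (nat_lit 0) (nat_lit 0)) T2.l7
  (TrL.c (I.mix (nat_lit 41527258) (nat_lit 41530880)) T0.l7
  (TrL.c (I.mix (nat_lit 41527258) (nat_lit 4274)) T2.l8
  TrL.n)))))))) (by decide +kernel)
theorem bx1_10 : BoxOK sI cl6 cl7 cl6 t2 t0 b1_10 :=
  box_mk (TrL.c (I.pos (nat_lit 0) (nat_lit 0)) (xa T2.l0 T2.l0)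
  (TrL.c (I.pos (nat_lit 0) (nat_lit 0)) T0.l5
  (TrL.c (I.pos (nat_lit 0) (nat_lit 89480386)) T2.l6
  (TrL.c (I.pos (nat_lit 0) (nat_lit 41530880)) T0.l6
  (TrL.c (I.pos (nat_lit 0) (nat_lit 0)) T0.l8
  (TrL.c (I.pos (nat_lit 0) (nat_lit 0)) T2.l7
  (TrL.c (I.mix (nat_lit 41527258) (nat_lit 41530880)) T0.l7
  (TrL.c (I.mix (nat_lit 41527258) (nat_lit 4274)) T2.l8
  TrL.n)))))))) (by decide +kernel)
theorem bx1_11 : BoxOK sI cl6 cl7 cl6 t2 t0 b1_11 :=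
  box_mk (TrL.c (I.pos (nat_lit 0) (nat_lit 0)) T2.l10
  (TrL.c (I.pos (nat_lit 0) (nat_lit 0)) T0.l5
  (TrL.c (I.pos (nat_lit 0) (nat_lit 89480386)) T2.l6
  (TrL.c (I.pos (nat_lit 0) (nat_lit 41530880)) T0.l6
  (TrL.c (I.pos (nat_lit 0) (nat_lit 0)) T0.l10
  (TrL.c (I.pos (nat_lit 0) (nat_lit 0)) T2.l7
  (TrL.c (I.mix (nat_lit 41527258) (nat_lit 41530880)) T0.l7
  (TrL.c (I.mix (nat_lit 41527258) (nat_lit 4274)) T2.l8
  TrL.n)))))))) (by decide +kernel)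
theorem sv1 : StarV sI cl6 cl7 cl6 t2 t0 t1 :=
  (bt_n (bt_n (bt_n (bt_b bx1_0) (bt_n (bt_b bx1_1) (bt_b bx1_2))) (bt_n (bt_b bx1_3) (bt_n (bt_b bx1_4) (bt_b bx1_5)))) (bt_n (bt_n (bt_b bx1_6) (bt_n (bt_b bx1_7) (bt_b bx1_8))) (bt_n (bt_b bx1_9) (bt_n (bt_b bx1_10) (bt_b bx1_11)))))
def S1 : StarD := StarD.mk cl6 cl7 cl6 2 0 t1
theorem bx2_0 : BoxOK sI cl7 cl6 cl6 t1 t1 b2_0 :=
  box_mk (TrL.c (I.pos (nat_lit 0) (nat_lit 0)) (xa (xb T1.l0 T1.l0) (xb T1.l0 T1.l0))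
  (TrL.c (I.pos (nat_lit 0) (nat_lit 0)) (xa T1.l1 (xb T1.l1 T1.l1))
  (TrL.c (I.pos (nat_lit 0) (nat_lit 111196574)) T1.l2
  (TrL.c (I.pos (nat_lit 0) (nat_lit 77433728)) T1.l3
  (TrL.c (I.pos (nat_lit 0) (nat_lit 0)) (xa (xb T1.l4 T1.l4) (xk (xb T1.l4 (xb T1.l4 T1.l4)) (xb T1.l4 (xb T1.l4 (xs T1.l4 T1.l4)))))
  (TrL.c (I.pos (nat_lit 0) (nat_lit 0)) T1.l5
  (TrL.c (I.mix (nat_lit 29511666) (nat_lit 77433728)) T1.l6
  (TrL.c (I.mix (nat_lit 29511666) (nat_lit 46070178)) T1.l3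
  TrL.n)))))))) (by decide +kernel)
theorem bx2_1 : BoxOK sI cl7 cl6 cl6 t1 t1 b2_1 :=
  box_mk (TrL.c (I.pos (nat_lit 0) (nat_lit 0)) T1.l8
  (TrL.c (I.pos (nat_lit 0) (nat_lit 0)) T1.l1
  (TrL.c (I.pos (nat_lit 0) (nat_lit 111196574)) T1.l2
  (TrL.c (I.pos (nat_lit 0) (nat_lit 77433728)) T1.l3
  (TrL.c (I.pos (nat_lit 0) (nat_lit 0)) (xa T1.l9 T1.l9)
  (TrL.c (I.pos (nat_lit 0) (nat_lit 0)) T1.l5
  (TrL.c (I.mix (nat_lit 29511666) (nat_lit 77433728)) T1.l6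
  (TrL.c (I.mix (nat_lit 29511666) (nat_lit 46070178)) T1.l7
  TrL.n)))))))) (by decide +kernel)
theorem bx2_2 : BoxOK sI cl7 cl6 cl6 t1 t1 b2_2 :=
  box_mk (TrL.c (I.pos (nat_lit 0) (nat_lit 0)) T1.l8
  (TrL.c (I.pos (nat_lit 0) (nat_lit 0)) T1.l9
  (TrL.c (I.pos (nat_lit 0) (nat_lit 111196574)) T1.l2
  (TrL.c (I.pos (nat_lit 0) (nat_lit 77433728)) T1.l3
  (TrL.c (I.pos (nat_lit 0) (nat_lit 0)) T1.l9
  (TrL.c (I.pos (nat_lit 0) (nat_lit 0)) T1.l2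
  (TrL.c (I.mix (nat_lit 29511666) (nat_lit 77433728)) T1.l6
  (TrL.c (I.mix (nat_lit 29511666) (nat_lit 46070178)) T1.l7
  TrL.n)))))))) (by decide +kernel)
theorem bx2_3 : BoxOK sI cl7 cl6 cl6 t1 t1 b2_3 :=
  box_mk (TrL.c (I.pos (nat_lit 0) (nat_lit 0)) (xa T1.l10 T1.l0)
  (TrL.c (I.pos (nat_lit 0) (nat_lit 0)) T1.l1
  (TrL.c (I.pos (nat_lit 0) (nat_lit 111196574)) T1.l2
  (TrL.c (I.pos (nat_lit 0) (nat_lit 77433728)) T1.l3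
  (TrL.c (I.pos (nat_lit 0) (nat_lit 0)) (xk T1.l4 T1.l4)
  (TrL.c (I.pos (nat_lit 0) (nat_lit 0)) T1.l5
  (TrL.c (I.mix (nat_lit 29511666) (nat_lit 77433728)) T1.l6
  (TrL.c (I.mix (nat_lit 29511666) (nat_lit 46070178)) T1.l7
  TrL.n)))))))) (by decide +kernel)
theorem bx2_4 : BoxOK sI cl7 cl6 cl6 t1 t1 b2_4 :=
  box_mk (TrL.c (I.pos (nat_lit 0) (nat_lit 0)) (xa (xa T1.l8 T1.l8) T1.l8)
  (TrL.c (I.pos (nat_lit 0) (nat_lit 0)) (xa T1.l9 T1.l1)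
  (TrL.c (I.pos (nat_lit 0) (nat_lit 111196574)) T1.l2
  (TrL.c (I.pos (nat_lit 0) (nat_lit 77433728)) T1.l3
  (TrL.c (I.pos (nat_lit 0) (nat_lit 0)) T1.l9
  (TrL.c (I.pos (nat_lit 0) (nat_lit 0)) T1.l5
  (TrL.c (I.mix (nat_lit 29511666) (nat_lit 77433728)) T1.l6
  (TrL.c (I.mix (nat_lit 29511666) (nat_lit 46070178)) T1.l2
  TrL.n)))))))) (by decide +kernel)
theorem bx2_5 : BoxOK sI cl7 cl6 cl6 t1 t1 b2_5 :=
  box_mk (TrL.c (I.pos (nat_lit 0) (nat_lit 0)) T1.l0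
  (TrL.c (I.pos (nat_lit 0) (nat_lit 0)) T1.l1
  (TrL.c (I.pos (nat_lit 0) (nat_lit 111196574)) T1.l2
  (TrL.c (I.pos (nat_lit 0) (nat_lit 77433728)) T1.l3
  (TrL.c (I.pos (nat_lit 0) (nat_lit 0)) T1.l11
  (TrL.c (I.pos (nat_lit 0) (nat_lit 0)) T1.l5
  (TrL.c (I.mix (nat_lit 29511666) (nat_lit 77433728)) T1.l6
  (TrL.c (I.mix (nat_lit 29511666) (nat_lit 46070178)) T1.l7
  TrL.n)))))))) (by decide +kernel)
theorem bx2_6 : BoxOK sI cl7 cl6 cl6 t1 t1 b2_6 :=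
  box_mk (TrL.c (I.pos (nat_lit 0) (nat_lit 0)) (xa (xa T1.l8 T1.l8) (xa T1.l8 T1.l8))
  (TrL.c (I.pos (nat_lit 0) (nat_lit 0)) (xa T1.l1 T1.l1)
  (TrL.c (I.pos (nat_lit 0) (nat_lit 111196574)) T1.l2
  (TrL.c (I.pos (nat_lit 0) (nat_lit 77433728)) T1.l3
  (TrL.c (I.pos (nat_lit 0) (nat_lit 0)) (xa T1.l9 T1.l9)
  (TrL.c (I.pos (nat_lit 0) (nat_lit 0)) T1.l5
  (TrL.c (I.mix (nat_lit 29511666) (nat_lit 77433728)) T1.l6
  (TrL.c (I.mix (nat_lit 29511666) (nat_lit 46070178)) T1.l6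
  TrL.n)))))))) (by decide +kernel)
theorem bx2_7 : BoxOK sI cl7 cl6 cl6 t1 t1 b2_7 :=
  box_mk (TrL.c (I.pos (nat_lit 0) (nat_lit 0)) T1.l8
  (TrL.c (I.pos (nat_lit 0) (nat_lit 0)) T1.l1
  (TrL.c (I.pos (nat_lit 0) (nat_lit 111196574)) T1.l2
  (TrL.c (I.pos (nat_lit 0) (nat_lit 77433728)) T1.l3
  (TrL.c (I.pos (nat_lit 0) (nat_lit 0)) T1.l9
  (TrL.c (I.pos (nat_lit 0) (nat_lit 0)) T1.l5
  (TrL.c (I.mix (nat_lit 29511666) (nat_lit 77433728)) T1.l6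
  (TrL.c (I.mix (nat_lit 29511666) (nat_lit 46070178)) T1.l7
  TrL.n)))))))) (by decide +kernel)
theorem bx2_8 : BoxOK sI cl7 cl6 cl6 t1 t1 b2_8 :=
  box_mk (TrL.c (I.pos (nat_lit 0) (nat_lit 0)) (xa T1.l8 T1.l8)
  (TrL.c (I.pos (nat_lit 0) (nat_lit 0)) T1.l9
  (TrL.c (I.pos (nat_lit 0) (nat_lit 111196574)) T1.l2
  (TrL.c (I.pos (nat_lit 0) (nat_lit 77433728)) T1.l6
  (TrL.c (I.pos (nat_lit 0) (nat_lit 0)) T1.l1
  (TrL.c (I.pos (nat_lit 0) (nat_lit 0)) T1.l2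
  (TrL.c (I.mix (nat_lit 29511666) (nat_lit 77433728)) T1.l6
  (TrL.c (I.mix (nat_lit 29511666) (nat_lit 46070178)) T1.l2
  TrL.n)))))))) (by decide +kernel)
theorem bx2_9 : BoxOK sI cl7 cl6 cl6 t1 t1 b2_9 :=
  box_mk (TrL.c (I.pos (nat_lit 0) (nat_lit 0)) (xa (xb T1.l0 T1.l0) (xb T1.l0 T1.l0))
  (TrL.c (I.pos (nat_lit 0) (nat_lit 0)) (xa T1.l1 (xb T1.l5 (xk T1.l1 T1.l1)))
  (TrL.c (I.pos (nat_lit 0) (nat_lit 111196574)) T1.l2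
  (TrL.c (I.pos (nat_lit 0) (nat_lit 77433728)) T1.l3
  (TrL.c (I.pos (nat_lit 0) (nat_lit 0)) (xa (xb (xk (xa T1.l4 T1.l4) T1.l4) T1.l4) (xb (xk (xa T1.l4 (xb T1.l4 T1.l4)) (xa T1.l4 (xb T1.l4 T1.l4))) (xk (xa T1.l4 (xb T1.l4 T1.l4)) (xa T1.l4 (xb T1.l4 T1.l4)))))
  (TrL.c (I.pos (nat_lit 0) (nat_lit 0)) (xk (xa T1.l5 T1.l5) (xa T1.l5 T1.l5))
  (TrL.c (I.mix (nat_lit 29511666) (nat_lit 77433728)) (xR T1.l6 T1.l6)
  (TrL.c (I.mix (nat_lit 29511666) (nat_lit 46070178)) T1.l3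
  TrL.n)))))))) (by decide +kernel)
theorem bx2_10 : BoxOK sI cl7 cl6 cl6 t1 t1 b2_10 :=
  box_mk (TrL.c (I.pos (nat_lit 0) (nat_lit 0)) (xa (xb T1.l0 T1.l0) (xb (xb T1.l0 T1.l0) (xb T1.l0 T1.l0)))
  (TrL.c (I.pos (nat_lit 0) (nat_lit 0)) (xa T1.l1 T1.l1)
  (TrL.c (I.pos (nat_lit 0) (nat_lit 111196574)) T1.l2
  (TrL.c (I.pos (nat_lit 0) (nat_lit 77433728)) T1.l3
  (TrL.c (I.pos (nat_lit 0) (nat_lit 0)) (xa T1.l4 (xk T1.l4 (xb T1.l4 T1.l4)))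
  (TrL.c (I.pos (nat_lit 0) (nat_lit 0)) T1.l5
  (TrL.c (I.mix (nat_lit 29511666) (nat_lit 77433728)) T1.l6
  (TrL.c (I.mix (nat_lit 29511666) (nat_lit 46070178)) T1.l7
  TrL.n)))))))) (by decide +kernel)
theorem bx2_11 : BoxOK sI cl7 cl6 cl6 t1 t1 b2_11 :=
  box_mk (TrL.c (I.pos (nat_lit 0) (nat_lit 0)) T1.l10
  (TrL.c (I.pos (nat_lit 0) (nat_lit 0)) T1.l1
  (TrL.c (I.pos (nat_lit 0) (nat_lit 111196574)) T1.l2
  (TrL.c (I.pos (nat_lit 0) (nat_lit 77433728)) T1.l3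
  (TrL.c (I.pos (nat_lit 0) (nat_lit 0)) T1.l4
  (TrL.c (I.pos (nat_lit 0) (nat_lit 0)) T1.l5
  (TrL.c (I.mix (nat_lit 29511666) (nat_lit 77433728)) T1.l6
  (TrL.c (I.mix (nat_lit 29511666) (nat_lit 46070178)) T1.l7
  TrL.n)))))))) (by decide +kernel)
theorem sv2 : StarV sI cl7 cl6 cl6 t1 t1 t2 :=
  (bt_n (bt_n (bt_n (bt_b bx2_0) (bt_n (bt_b bx2_1) (bt_b bx2_2))) (bt_n (bt_b bx2_3) (bt_n (bt_b bx2_4) (bt_b bx2_5)))) (bt_n (bt_n (bt_b bx2_6) (bt_n (bt_b bx2_7) (bt_b bx2_8))) (bt_n (bt_b bx2_9) (bt_n (bt_b bx2_10) (bt_b bx2_11)))))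
def S2 : StarD := StarD.mk cl7 cl6 cl6 1 1 t2
def G : List StarD := [S0, S1, S2]
theorem so0 : StarOK sI G S0 :=
  star_mk (by decide) (by decide) rfl rfl rfl rfl rfl rfl (rfl : _ = t0) (rfl : _ = t2)
  (st_mk (Pth.l (Pth.l (Pth.l Pth.z))) (nat_lit 189603442) (nat_lit 190245694) (by decide +kernel))
  (st_mk (Pth.l (Pth.l (Pth.l Pth.z))) (nat_lit 225969135) (nat_lit 226885228) (by decide +kernel))
  (st_mk (Pth.l (Pth.l (Pth.l Pth.z))) (nat_lit 268266600) (nat_lit 269566992) (by decide +kernel)) sv0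
theorem so1 : StarOK sI G S1 :=
  star_mk (by decide) (by decide) rfl rfl rfl rfl rfl rfl (rfl : _ = t2) (rfl : _ = t0)
  (st_mk (Pth.l (Pth.l (Pth.l Pth.z))) (nat_lit 144211968) (nat_lit 164853339) (by decide +kernel))
  (st_mk (Pth.l (Pth.l (Pth.l Pth.z))) (nat_lit 178559459) (nat_lit 201386410) (by decide +kernel))
  (st_mk (Pth.l (Pth.l (Pth.l Pth.z))) (nat_lit 220730324) (nat_lit 243977883) (by decide +kernel)) sv1
theorem so2 : StarOK sI G S2 :=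
  star_mk (by decide) (by decide) rfl rfl rfl rfl rfl rfl (rfl : _ = t1) (rfl : _ = t1)
  (st_mk (Pth.l (Pth.l (Pth.l Pth.z))) (nat_lit 187877073) (nat_lit 189476377) (by decide +kernel))
  (st_mk (Pth.l (Pth.l (Pth.l Pth.z))) (nat_lit 223619930) (nat_lit 225669186) (by decide +kernel))
  (st_mk (Pth.l (Pth.l (Pth.l Pth.z))) (nat_lit 265049862) (nat_lit 267724935) (by decide +kernel)) sv2
theorem ok : GroupOK (nat_lit 150274048) (nat_lit 209387520) G := grp_mk (allS_c so0 (allS_c so1 (allS_c so2 allS_n)))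
theorem cov : GCov G cl6 cl6 cl7 := cov_mk
  ⟨0, by decide, rfl, rfl, rfl⟩ ⟨1, by decide, rfl, rfl, rfl⟩ ⟨0, by decide, rfl, rfl, rfl⟩ ⟨1, by decide, rfl, rfl, rfl⟩ ⟨2, by decide, rfl, rfl, rfl⟩ ⟨2, by decide, rfl, rfl, rfl⟩
end Q334_2

namespace Q334_3
def sI : I := I.pos (nat_lit 209321984) (nat_lit 268435456)
def b0_0 : Bx := Bx.mk (St.mk (I.pos (nat_lit 147636224) (nat_lit 230621184)) (I.mix (nat_lit 1867776) (nat_lit 62160896)) (I.mix (nat_lit 2555904) (nat_lit 88014848)) (I.pos (nat_lit 186499072) (nat_lit 297304064)) (I.mix (nat_lit 136478720) (nat_lit 88915968)) (I.mix (nat_lit 82804736) (nat_lit 76562432)) (I.mix (nat_lit 114311168) (nat_lit 110510080)))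
  false (nat_lit 22577840)
def b0_1 : Bx := Bx.mk (St.mk (I.mix (nat_lit 32342016) (nat_lit 102432768)) (I.mix (nat_lit 11108352) (nat_lit 38682624)) (I.mix (nat_lit 20512768) (nat_lit 12976128)) (I.pos (nat_lit 78790656) (nat_lit 127713280)) (I.mix (nat_lit 46923776) (nat_lit 60407808)) (I.mix (nat_lit 43958272) (nat_lit 37961728)) (I.mix (nat_lit 28704768) (nat_lit 19841024)))
  false (nat_lit 0)
def b0_2 : Bx := Bx.mk (St.mk (I.pos (nat_lit 76316672) (nat_lit 119341056)) (I.mix (nat_lit 53575680) (nat_lit 9256960)) (I.neg (nat_lit 4997120) (nat_lit 51511296)) (I.pos (nat_lit 111181824) (nat_lit 145096704)) (I.mix (nat_lit 89653248) (nat_lit 30785536)) (I.mix (nat_lit 34619392) (nat_lit 69271552)) (I.mix (nat_lit 25346048) (nat_lit 45924352)))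
  false (nat_lit 0)
def b0_3 : Bx := Bx.mk (St.mk (I.mix (nat_lit 51412992) (nat_lit 30212096)) (I.mix (nat_lit 33423360) (nat_lit 8814592)) (I.mix (nat_lit 13254656) (nat_lit 999424)) (I.pos (nat_lit 83263488) (nat_lit 101826560)) (I.mix (nat_lit 42827776) (nat_lit 27754496)) (I.mix (nat_lit 23117824) (nat_lit 30523392)) (I.mix (nat_lit 11517952) (nat_lit 7536640)))
  false (nat_lit 0)
def b0_4 : Bx := Bx.mk (St.mk (I.pos (nat_lit 185417728) (nat_lit 286605312)) (I.mix (nat_lit 30130176) (nat_lit 42975232)) (I.mix (nat_lit 98451456) (nat_lit 46858240)) (I.pos (nat_lit 245628928) (nat_lit 407076864)) (I.mix (nat_lit 94863360) (nat_lit 64143360)) (I.mix (nat_lit 63750144) (nat_lit 58392576)) (I.mix (nat_lit 115851264) (nat_lit 99581952)))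
  false (nat_lit 0)
def b0_5 : Bx := Bx.mk (St.mk (I.pos (nat_lit 82624512) (nat_lit 165380096)) (I.neg (nat_lit 4751360) (nat_lit 57475072)) (I.neg (nat_lit 2965504) (nat_lit 54738944)) (I.pos (nat_lit 122978304) (nat_lit 194248704)) (I.mix (nat_lit 89309184) (nat_lit 54951936)) (I.mix (nat_lit 46333952) (nat_lit 57638912)) (I.mix (nat_lit 39174144) (nat_lit 50200576)))
  false (nat_lit 0)
def b0_6 : Bx := Bx.mk (St.mk (I.mix (nat_lit 36634624) (nat_lit 49020928)) (I.mix (nat_lit 33423360) (nat_lit 6766592)) (I.mix (nat_lit 15138816) (nat_lit 393216)) (I.pos (nat_lit 82280448) (nat_lit 102121472)) (I.mix (nat_lit 39419904) (nat_lit 39616512)) (I.mix (nat_lit 27410432) (nat_lit 31850496)) (I.mix (nat_lit 10911744) (nat_lit 12238848)))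
  false (nat_lit 0)
def b0_7 : Bx := Bx.mk (St.mk (I.mix (nat_lit 50823168) (nat_lit 70877184)) (I.mix (nat_lit 10158080) (nat_lit 34390016)) (I.mix (nat_lit 14401536) (nat_lit 9060352)) (I.pos (nat_lit 83492864) (nat_lit 108019712)) (I.mix (nat_lit 57802752) (nat_lit 43745280)) (I.mix (nat_lit 42172416) (nat_lit 36306944)) (I.mix (nat_lit 16039936) (nat_lit 17711104)))
  false (nat_lit 0)
def b0_8 : Bx := Bx.mk (St.mk (I.pos (nat_lit 154238976) (nat_lit 208109568)) (I.mix (nat_lit 4505600) (nat_lit 58458112)) (I.pos (nat_lit 8617984) (nat_lit 81739776)) (I.pos (nat_lit 189366272) (nat_lit 259309568)) (I.mix (nat_lit 139280384) (nat_lit 57884672)) (I.mix (nat_lit 120160256) (nat_lit 72663040)) (I.mix (nat_lit 112508928) (nat_lit 67796992)))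
  false (nat_lit 2978323)
def b0_9 : Bx := Bx.mk (St.mk (I.pos (nat_lit 132366336) (nat_lit 197869568)) (I.mix (nat_lit 40353792) (nat_lit 14319616)) (I.mix (nat_lit 39124992) (nat_lit 26230784)) (I.pos (nat_lit 161726464) (nat_lit 234569728)) (I.mix (nat_lit 67026944) (nat_lit 56524800)) (I.mix (nat_lit 53346304) (nat_lit 47464448)) (I.mix (nat_lit 50774016) (nat_lit 44761088)))
  false (nat_lit 0)
def b0_10 : Bx := Bx.mk (St.mk (I.pos (nat_lit 158007296) (nat_lit 199000064)) (I.mix (nat_lit 10371072) (nat_lit 29818880)) (I.mix (nat_lit 1114112) (nat_lit 48939008)) (I.pos (nat_lit 194658304) (nat_lit 239271936)) (I.mix (nat_lit 99303424) (nat_lit 65306624)) (I.mix (nat_lit 107675648) (nat_lit 53739520)) (I.mix (nat_lit 104480768) (nat_lit 49856512)))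
  false (nat_lit 0)
def b0_11 : Bx := Bx.mk (St.mk (I.pos (nat_lit 172441600) (nat_lit 230981632)) (I.pos (nat_lit 9961472) (nat_lit 61079552)) (I.pos (nat_lit 6979584) (nat_lit 84475904)) (I.pos (nat_lit 236699648) (nat_lit 292388864)) (I.mix (nat_lit 118898688) (nat_lit 90619904)) (I.mix (nat_lit 90210304) (nat_lit 69238784)) (I.mix (nat_lit 136347648) (nat_lit 91537408)))
  false (nat_lit 11996593)
def t0 : BTr := (BTr.n (BTr.n (BTr.n (BTr.b b0_0) (BTr.n (BTr.b b0_1) (BTr.b b0_2))) (BTr.n (BTr.b b0_3) (BTr.n (BTr.b b0_4) (BTr.b b0_5)))) (BTr.n (BTr.n (BTr.b b0_6) (BTr.n (BTr.b b0_7) (BTr.b b0_8))) (BTr.n (BTr.b b0_9) (BTr.n (BTr.b b0_10) (BTr.b b0_11)))))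
namespace T0
def l0 : Tr := Tr.L (Pth.l (Pth.l (Pth.l Pth.z)))
def l1 : Tr := Tr.L (Pth.l (Pth.l (Pth.r (Pth.l Pth.z))))
def l2 : Tr := Tr.L (Pth.l (Pth.l (Pth.r (Pth.r Pth.z))))
def l3 : Tr := Tr.L (Pth.l (Pth.r (Pth.l Pth.z)))
def l4 : Tr := Tr.L (Pth.l (Pth.r (Pth.r (Pth.l Pth.z))))
def l5 : Tr := Tr.L (Pth.l (Pth.r (Pth.r (Pth.r Pth.z))))
def l6 : Tr := Tr.L (Pth.r (Pth.l (Pth.l Pth.z)))
def l7 : Tr := Tr.L (Pth.r (Pth.l (Pth.r (Pth.l Pth.z))))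
def l8 : Tr := Tr.L (Pth.r (Pth.l (Pth.r (Pth.r Pth.z))))
def l9 : Tr := Tr.L (Pth.r (Pth.r (Pth.l Pth.z)))
def l10 : Tr := Tr.L (Pth.r (Pth.r (Pth.r (Pth.l Pth.z))))
def l11 : Tr := Tr.L (Pth.r (Pth.r (Pth.r (Pth.r Pth.z))))
end T0
def b1_0 : Bx := Bx.mk (St.mk (I.pos (nat_lit 145883136) (nat_lit 235012096)) (I.mix (nat_lit 1687552) (nat_lit 56721408)) (I.mix (nat_lit 2686976) (nat_lit 93274112)) (I.pos (nat_lit 141213696) (nat_lit 270303232)) (I.mix (nat_lit 141787136) (nat_lit 93552640)) (I.mix (nat_lit 93700096) (nat_lit 88735744)) (I.mix (nat_lit 126140416) (nat_lit 117669888)))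
  false (nat_lit 46745687)
def b1_1 : Bx := Bx.mk (St.mk (I.pos (nat_lit 95600640) (nat_lit 175128576)) (I.neg (nat_lit 4259840) (nat_lit 53641216)) (I.mix (nat_lit 49741824) (nat_lit 1867776)) (I.pos (nat_lit 95223808) (nat_lit 181026816)) (I.mix (nat_lit 85016576) (nat_lit 49512448)) (I.mix (nat_lit 45252608) (nat_lit 53084160)) (I.mix (nat_lit 39813120) (nat_lit 51085312)))
  false (nat_lit 9589901)
def b1_2 : Bx := Bx.mk (St.mk (I.mix (nat_lit 27492352) (nat_lit 123502592)) (I.mix (nat_lit 10256384) (nat_lit 35127296)) (I.mix (nat_lit 14499840) (nat_lit 22822912)) (I.pos (nat_lit 40353792) (nat_lit 119193600)) (I.mix (nat_lit 55803904) (nat_lit 49577984)) (I.mix (nat_lit 37158912) (nat_lit 34947072)) (I.mix (nat_lit 26476544) (nat_lit 23953408)))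
  false (nat_lit 0)
def b1_3 : Bx := Bx.mk (St.mk (I.mix (nat_lit 27557888) (nat_lit 87572480)) (I.mix (nat_lit 32342016) (nat_lit 6078464)) (I.mix (nat_lit 18694144) (nat_lit 4833280)) (I.pos (nat_lit 39436288) (nat_lit 91881472)) (I.mix (nat_lit 43630592) (nat_lit 43171840)) (I.mix (nat_lit 30474240) (nat_lit 33374208)) (I.mix (nat_lit 16285696) (nat_lit 18399232)))
  false (nat_lit 0)
def b1_4 : Bx := Bx.mk (St.mk (I.pos (nat_lit 157384704) (nat_lit 209420288)) (I.mix (nat_lit 13008896) (nat_lit 52035584)) (I.pos (nat_lit 5292032) (nat_lit 84148224)) (I.pos (nat_lit 144441344) (nat_lit 230703104)) (I.mix (nat_lit 142557184) (nat_lit 58081280)) (I.mix (nat_lit 125288448) (nat_lit 71467008)) (I.mix (nat_lit 128876544) (nat_lit 70090752)))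
  false (nat_lit 0)
def b1_5 : Bx := Bx.mk (St.mk (I.pos (nat_lit 89571328) (nat_lit 138280960)) (I.mix (nat_lit 51675136) (nat_lit 9027584)) (I.mix (nat_lit 47955968) (nat_lit 1818624)) (I.pos (nat_lit 77283328) (nat_lit 134676480)) (I.mix (nat_lit 91963392) (nat_lit 32538624)) (I.mix (nat_lit 37978112) (nat_lit 73940992)) (I.mix (nat_lit 27312128) (nat_lit 52281344)))
  false (nat_lit 0)
def b1_6 : Bx := Bx.mk (St.mk (I.mix (nat_lit 39370752) (nat_lit 106430464)) (I.mix (nat_lit 13516800) (nat_lit 36126720)) (I.mix (nat_lit 7553024) (nat_lit 24592384)) (I.pos (nat_lit 40960000) (nat_lit 106643456)) (I.mix (nat_lit 64471040) (nat_lit 29196288)) (I.mix (nat_lit 49807360) (nat_lit 31948800)) (I.mix (nat_lit 26656768) (nat_lit 19628032)))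
  false (nat_lit 0)
def b1_7 : Bx := Bx.mk (St.mk (I.mix (nat_lit 36257792) (nat_lit 72253440)) (I.mix (nat_lit 30900224) (nat_lit 5472256)) (I.mix (nat_lit 15679488) (nat_lit 3293184)) (I.pos (nat_lit 41779200) (nat_lit 82640896)) (I.mix (nat_lit 46530560) (nat_lit 29442048)) (I.mix (nat_lit 23740416) (nat_lit 32292864)) (I.mix (nat_lit 11108352) (nat_lit 12664832)))
  false (nat_lit 0)
def b1_8 : Bx := Bx.mk (St.mk (I.pos (nat_lit 192266240) (nat_lit 286425088)) (I.mix (nat_lit 30949376) (nat_lit 39763968)) (I.mix (nat_lit 79806464) (nat_lit 61636608)) (I.pos (nat_lit 207863808) (nat_lit 381583360)) (I.mix (nat_lit 88342528) (nat_lit 65175552)) (I.mix (nat_lit 59916288) (nat_lit 62046208)) (I.mix (nat_lit 106348544) (nat_lit 104022016)))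
  false (nat_lit 32476843)
def b1_9 : Bx := Bx.mk (St.mk (I.pos (nat_lit 139804672) (nat_lit 203816960)) (I.mix (nat_lit 40157184) (nat_lit 11108352)) (I.mix (nat_lit 36585472) (nat_lit 29016064)) (I.pos (nat_lit 127696896) (nat_lit 214532096)) (I.mix (nat_lit 59883520) (nat_lit 56967168)) (I.mix (nat_lit 53510144) (nat_lit 49168384)) (I.mix (nat_lit 53723136) (nat_lit 50364416)))
  false (nat_lit 16346863)
def b1_10 : Bx := Bx.mk (St.mk (I.pos (nat_lit 173735936) (nat_lit 231604224)) (I.pos (nat_lit 10076160) (nat_lit 55230464)) (I.pos (nat_lit 16891904) (nat_lit 90128384)) (I.pos (nat_lit 197623808) (nat_lit 262881280)) (I.mix (nat_lit 113524736) (nat_lit 88604672)) (I.mix (nat_lit 88539136) (nat_lit 68829184)) (I.mix (nat_lit 133758976) (nat_lit 80805888)))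
  false (nat_lit 29632767)
def b1_11 : Bx := Bx.mk (St.mk (I.pos (nat_lit 165330944) (nat_lit 205029376)) (I.mix (nat_lit 15695872) (nat_lit 23150592)) (I.pos (nat_lit 262144) (nat_lit 47169536)) (I.pos (nat_lit 154320896) (nat_lit 216793088)) (I.mix (nat_lit 87326720) (nat_lit 50003968)) (I.mix (nat_lit 88293376) (nat_lit 43843584)) (I.mix (nat_lit 92487680) (nat_lit 44056576)))
  false (nat_lit 0)
def t1 : BTr := (BTr.n (BTr.n (BTr.n (BTr.b b1_0) (BTr.n (BTr.b b1_1) (BTr.b b1_2))) (BTr.n (BTr.b b1_3) (BTr.n (BTr.b b1_4) (BTr.b b1_5)))) (BTr.n (BTr.n (BTr.b b1_6) (BTr.n (BTr.b b1_7) (BTr.b b1_8))) (BTr.n (BTr.b b1_9) (BTr.n (BTr.b b1_10) (BTr.b b1_11)))))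
namespace T1
def l0 : Tr := Tr.L (Pth.l (Pth.l (Pth.l Pth.z)))
def l1 : Tr := Tr.L (Pth.l (Pth.l (Pth.r (Pth.l Pth.z))))
def l2 : Tr := Tr.L (Pth.l (Pth.l (Pth.r (Pth.r Pth.z))))
def l3 : Tr := Tr.L (Pth.l (Pth.r (Pth.l Pth.z)))
def l4 : Tr := Tr.L (Pth.l (Pth.r (Pth.r (Pth.l Pth.z))))
def l5 : Tr := Tr.L (Pth.l (Pth.r (Pth.r (Pth.r Pth.z))))
def l6 : Tr := Tr.L (Pth.r (Pth.l (Pth.l Pth.z)))
def l7 : Tr := Tr.L (Pth.r (Pth.l (Pth.r (Pth.l Pth.z))))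
def l8 : Tr := Tr.L (Pth.r (Pth.l (Pth.r (Pth.r Pth.z))))
def l9 : Tr := Tr.L (Pth.r (Pth.r (Pth.l Pth.z)))
def l10 : Tr := Tr.L (Pth.r (Pth.r (Pth.r (Pth.l Pth.z))))
def l11 : Tr := Tr.L (Pth.r (Pth.r (Pth.r (Pth.r Pth.z))))
end T1
def b2_0 : Bx := Bx.mk (St.mk (I.pos (nat_lit 140935168) (nat_lit 229425152)) (I.mix (nat_lit 1818624) (nat_lit 60588032)) (I.mix (nat_lit 2850816) (nat_lit 98484224)) (I.pos (nat_lit 184991744) (nat_lit 289406976)) (I.mix (nat_lit 150700032) (nat_lit 95879168)) (I.mix (nat_lit 93601792) (nat_lit 90767360)) (I.mix (nat_lit 125386752) (nat_lit 118521856)))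
  false (nat_lit 56655109)
def b2_1 : Bx := Bx.mk (St.mk (I.pos (nat_lit 88178688) (nat_lit 166494208)) (I.neg (nat_lit 8224768) (nat_lit 58736640)) (I.mix (nat_lit 48381952) (nat_lit 7110656)) (I.pos (nat_lit 127664128) (nat_lit 194691072)) (I.mix (nat_lit 87031808) (nat_lit 51052544)) (I.mix (nat_lit 41631744) (nat_lit 57180160)) (I.mix (nat_lit 35569664) (nat_lit 49430528)))
  false (nat_lit 13794413)
def b2_2 : Bx := Bx.mk (St.mk (I.mix (nat_lit 32833536) (nat_lit 51118080)) (I.mix (nat_lit 33341440) (nat_lit 7274496)) (I.mix (nat_lit 9191424) (nat_lit 5783552)) (I.pos (nat_lit 83394560) (nat_lit 101531648)) (I.mix (nat_lit 33505280) (nat_lit 38617088)) (I.mix (nat_lit 23838720) (nat_lit 28786688)) (I.mix (nat_lit 9027584) (nat_lit 10813440)))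
  false (nat_lit 0)
def b2_3 : Bx := Bx.mk (St.mk (I.pos (nat_lit 152616960) (nat_lit 203227136)) (I.mix (nat_lit 4669440) (nat_lit 57376768)) (I.pos (nat_lit 17596416) (nat_lit 91635712)) (I.pos (nat_lit 184008704) (nat_lit 248397824)) (I.mix (nat_lit 138264576) (nat_lit 51019776)) (I.mix (nat_lit 111362048) (nat_lit 60047360)) (I.mix (nat_lit 106676224) (nat_lit 55705600)))
  false (nat_lit 18198763)
def b2_4 : Bx := Bx.mk (St.mk (I.mix (nat_lit 52363264) (nat_lit 72269824)) (I.mix (nat_lit 10862592) (nat_lit 35618816)) (I.mix (nat_lit 9043968) (nat_lit 15990784)) (I.pos (nat_lit 83558400) (nat_lit 111149056)) (I.mix (nat_lit 56213504) (nat_lit 34471936)) (I.mix (nat_lit 39305216) (nat_lit 31326208)) (I.mix (nat_lit 14499840) (nat_lit 15237120)))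
  false (nat_lit 0)
def b2_5 : Bx := Bx.mk (St.mk (I.pos (nat_lit 132071424) (nat_lit 195346432)) (I.mix (nat_lit 37552128) (nat_lit 11468800)) (I.mix (nat_lit 25903104) (nat_lit 34947072)) (I.pos (nat_lit 162742272) (nat_lit 229507072)) (I.mix (nat_lit 57425920) (nat_lit 57851904)) (I.mix (nat_lit 51625984) (nat_lit 48644096)) (I.mix (nat_lit 48267264) (nat_lit 47087616)))
  false (nat_lit 11391659)
def b2_6 : Bx := Bx.mk (St.mk (I.mix (nat_lit 36585472) (nat_lit 100712448)) (I.mix (nat_lit 8519680) (nat_lit 38535168)) (I.mix (nat_lit 11993088) (nat_lit 20054016)) (I.pos (nat_lit 77791232) (nat_lit 127156224)) (I.mix (nat_lit 53673984) (nat_lit 61554688)) (I.mix (nat_lit 46563328) (nat_lit 42762240)) (I.mix (nat_lit 30179328) (nat_lit 25067520)))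
  false (nat_lit 0)
def b2_7 : Bx := Bx.mk (St.mk (I.pos (nat_lit 75988992) (nat_lit 123846656)) (I.mix (nat_lit 56541184) (nat_lit 9175040)) (I.mix (nat_lit 46350336) (nat_lit 950272)) (I.pos (nat_lit 112230400) (nat_lit 150159360)) (I.mix (nat_lit 94060544) (nat_lit 35569664)) (I.mix (nat_lit 41107456) (nat_lit 73170944)) (I.mix (nat_lit 30162944) (nat_lit 46858240)))
  false (nat_lit 0)
def b2_8 : Bx := Bx.mk (St.mk (I.mix (nat_lit 50692096) (nat_lit 33619968)) (I.mix (nat_lit 33652736) (nat_lit 6193152)) (I.mix (nat_lit 7667712) (nat_lit 6750208)) (I.pos (nat_lit 83509248) (nat_lit 101810176)) (I.mix (nat_lit 43089920) (nat_lit 33210368)) (I.mix (nat_lit 26542080) (nat_lit 31358976)) (I.mix (nat_lit 12189696) (nat_lit 8781824)))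
  false (nat_lit 0)
def b2_9 : Bx := Bx.mk (St.mk (I.pos (nat_lit 184041472) (nat_lit 289931264)) (I.mix (nat_lit 27754496) (nat_lit 45793280)) (I.mix (nat_lit 72056832) (nat_lit 72663040)) (I.pos (nat_lit 238862336) (nat_lit 408305664)) (I.mix (nat_lit 94601216) (nat_lit 71254016)) (I.mix (nat_lit 69582848) (nat_lit 56803328)) (I.mix (nat_lit 126189568) (nat_lit 91111424)))
  false (nat_lit 52763926)
def b2_10 : Bx := Bx.mk (St.mk (I.pos (nat_lit 166674432) (nat_lit 229867520)) (I.pos (nat_lit 9535488) (nat_lit 59359232)) (I.pos (nat_lit 18825216) (nat_lit 95649792)) (I.pos (nat_lit 226000896) (nat_lit 283967488)) (I.mix (nat_lit 127320064) (nat_lit 95092736)) (I.mix (nat_lit 98566144) (nat_lit 75350016)) (I.mix (nat_lit 142344192) (nat_lit 87539712)))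
  false (nat_lit 36864270)
def b2_11 : Bx := Bx.mk (St.mk (I.pos (nat_lit 153223168) (nat_lit 198541312)) (I.mix (nat_lit 12124160) (nat_lit 30998528)) (I.pos (nat_lit 8323072) (nat_lit 62013440)) (I.pos (nat_lit 184926208) (nat_lit 233701376)) (I.mix (nat_lit 110002176) (nat_lit 55459840)) (I.mix (nat_lit 101761024) (nat_lit 48021504)) (I.mix (nat_lit 98648064) (nat_lit 45547520)))
  false (nat_lit 13939332)
def t2 : BTr := (BTr.n (BTr.n (BTr.n (BTr.b b2_0) (BTr.n (BTr.b b2_1) (BTr.b b2_2))) (BTr.n (BTr.b b2_3) (BTr.n (BTr.b b2_4) (BTr.b b2_5)))) (BTr.n (BTr.n (BTr.b b2_6) (BTr.n (BTr.b b2_7) (BTr.b b2_8))) (BTr.n (BTr.b b2_9) (BTr.n (BTr.b b2_10) (BTr.b b2_11)))))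
namespace T2
def l0 : Tr := Tr.L (Pth.l (Pth.l (Pth.l Pth.z)))
def l1 : Tr := Tr.L (Pth.l (Pth.l (Pth.r (Pth.l Pth.z))))
def l2 : Tr := Tr.L (Pth.l (Pth.l (Pth.r (Pth.r Pth.z))))
def l3 : Tr := Tr.L (Pth.l (Pth.r (Pth.l Pth.z)))
def l4 : Tr := Tr.L (Pth.l (Pth.r (Pth.r (Pth.l Pth.z))))
def l5 : Tr := Tr.L (Pth.l (Pth.r (Pth.r (Pth.r Pth.z))))
def l6 : Tr := Tr.L (Pth.r (Pth.l (Pth.l Pth.z)))
def l7 : Tr := Tr.L (Pth.r (Pth.l (Pth.r (Pth.l Pth.z))))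
def l8 : Tr := Tr.L (Pth.r (Pth.l (Pth.r (Pth.r Pth.z))))
def l9 : Tr := Tr.L (Pth.r (Pth.r (Pth.l Pth.z)))
def l10 : Tr := Tr.L (Pth.r (Pth.r (Pth.r (Pth.l Pth.z))))
def l11 : Tr := Tr.L (Pth.r (Pth.r (Pth.r (Pth.r Pth.z))))
end T2
theorem bx0_0 : BoxOK sI cl6 cl6 cl7 t0 t2 b0_0 :=
  box_mk (TrL.c (I.pos (nat_lit 0) (nat_lit 0)) (xa (xb (xa T0.l0 T0.l0) (xa T0.l0 T0.l0)) (xb T0.l0 (xa T0.l0 T0.l0)))
  (TrL.c (I.pos (nat_lit 0) (nat_lit 0)) (xa T2.l1 T2.l1)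
  (TrL.c (I.pos (nat_lit 0) (nat_lit 89480386)) T0.l1
  (TrL.c (I.pos (nat_lit 0) (nat_lit 41530880)) T2.l2
  (TrL.c (I.pos (nat_lit 0) (nat_lit 0)) (xa T2.l3 (xb T2.l3 T2.l3))
  (TrL.c (I.pos (nat_lit 0) (nat_lit 0)) T0.l2
  (TrL.c (I.mix (nat_lit 41527258) (nat_lit 41530880)) T2.l4
  (TrL.c (I.mix (nat_lit 41527258) (nat_lit 4274)) T0.l3
  TrL.n)))))))) (by decide +kernel)
theorem bx0_1 : BoxOK sI cl6 cl6 cl7 t0 t2 b0_1 :=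
  box_mk (TrL.c (I.pos (nat_lit 0) (nat_lit 0)) (xa (xa (xb T0.l4 T0.l4) T0.l4) (xa T0.l4 T0.l4))
  (TrL.c (I.pos (nat_lit 0) (nat_lit 0)) (xa T2.l1 T2.l1)
  (TrL.c (I.pos (nat_lit 0) (nat_lit 89480386)) T0.l1
  (TrL.c (I.pos (nat_lit 0) (nat_lit 41530880)) T2.l2
  (TrL.c (I.pos (nat_lit 0) (nat_lit 0)) T2.l5
  (TrL.c (I.pos (nat_lit 0) (nat_lit 0)) T0.l2
  (TrL.c (I.mix (nat_lit 41527258) (nat_lit 41530880)) T2.l4
  (TrL.c (I.mix (nat_lit 41527258) (nat_lit 4274)) T0.l3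
  TrL.n)))))))) (by decide +kernel)
theorem bx0_2 : BoxOK sI cl6 cl6 cl7 t0 t2 b0_2 :=
  box_mk (TrL.c (I.pos (nat_lit 0) (nat_lit 0)) (xb T0.l4 T0.l4)
  (TrL.c (I.pos (nat_lit 0) (nat_lit 0)) T2.l1
  (TrL.c (I.pos (nat_lit 0) (nat_lit 89480386)) T0.l1
  (TrL.c (I.pos (nat_lit 0) (nat_lit 41530880)) T2.l2
  (TrL.c (I.pos (nat_lit 0) (nat_lit 0)) T2.l5
  (TrL.c (I.pos (nat_lit 0) (nat_lit 0)) T0.l2
  (TrL.c (I.mix (nat_lit 41527258) (nat_lit 41530880)) T2.l4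
  (TrL.c (I.mix (nat_lit 41527258) (nat_lit 4274)) T0.l3
  TrL.n)))))))) (by decide +kernel)
theorem bx0_3 : BoxOK sI cl6 cl6 cl7 t0 t2 b0_3 :=
  box_mk (TrL.c (I.pos (nat_lit 0) (nat_lit 0)) (xa (xb T0.l4 T0.l4) T0.l4)
  (TrL.c (I.pos (nat_lit 0) (nat_lit 0)) T2.l5
  (TrL.c (I.pos (nat_lit 0) (nat_lit 89480386)) T0.l1
  (TrL.c (I.pos (nat_lit 0) (nat_lit 41530880)) T2.l4
  (TrL.c (I.pos (nat_lit 0) (nat_lit 0)) T2.l1
  (TrL.c (I.pos (nat_lit 0) (nat_lit 0)) T0.l1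
  (TrL.c (I.mix (nat_lit 41527258) (nat_lit 41530880)) T2.l4
  (TrL.c (I.mix (nat_lit 41527258) (nat_lit 4274)) T0.l3
  TrL.n)))))))) (by decide +kernel)
theorem bx0_4 : BoxOK sI cl6 cl6 cl7 t0 t2 b0_4 :=
  box_mk (TrL.c (I.pos (nat_lit 0) (nat_lit 0)) (xa (xb T0.l0 (xa T0.l0 T0.l0)) (xb (xa T0.l0 T0.l0) (xa T0.l0 T0.l0)))
  (TrL.c (I.pos (nat_lit 0) (nat_lit 0)) (xa T2.l1 (xb T2.l7 T2.l7))
  (TrL.c (I.pos (nat_lit 0) (nat_lit 89480386)) (xR T0.l1 T0.l1)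
  (TrL.c (I.pos (nat_lit 0) (nat_lit 41530880)) T2.l2
  (TrL.c (I.pos (nat_lit 0) (nat_lit 0)) (xa (xb T2.l0 T2.l3) (xb (xa T2.l0 (xb T2.l0 T2.l3)) (xa T2.l3 (xb T2.l3 T2.l3))))
  (TrL.c (I.pos (nat_lit 0) (nat_lit 0)) (xa T0.l2 (xb T0.l5 T0.l2))
  (TrL.c (I.mix (nat_lit 41527258) (nat_lit 41530880)) (xR T2.l6 T2.l6)
  (TrL.c (I.mix (nat_lit 41527258) (nat_lit 4274)) T0.l3
  TrL.n)))))))) (by decide +kernel)
theorem bx0_5 : BoxOK sI cl6 cl6 cl7 t0 t2 b0_5 :=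
  box_mk (TrL.c (I.pos (nat_lit 0) (nat_lit 0)) (xa T0.l4 T0.l4)
  (TrL.c (I.pos (nat_lit 0) (nat_lit 0)) T2.l1
  (TrL.c (I.pos (nat_lit 0) (nat_lit 89480386)) T0.l1
  (TrL.c (I.pos (nat_lit 0) (nat_lit 41530880)) T2.l2
  (TrL.c (I.pos (nat_lit 0) (nat_lit 0)) (xa T2.l5 T2.l5)
  (TrL.c (I.pos (nat_lit 0) (nat_lit 0)) T0.l2
  (TrL.c (I.mix (nat_lit 41527258) (nat_lit 41530880)) T2.l4
  (TrL.c (I.mix (nat_lit 41527258) (nat_lit 4274)) T0.l3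
  TrL.n)))))))) (by decide +kernel)
theorem bx0_6 : BoxOK sI cl6 cl6 cl7 t0 t2 b0_6 :=
  box_mk (TrL.c (I.pos (nat_lit 0) (nat_lit 0)) (xa T0.l4 T0.l4)
  (TrL.c (I.pos (nat_lit 0) (nat_lit 0)) T2.l5
  (TrL.c (I.pos (nat_lit 0) (nat_lit 89480386)) T0.l1
  (TrL.c (I.pos (nat_lit 0) (nat_lit 41530880)) T2.l2
  (TrL.c (I.pos (nat_lit 0) (nat_lit 0)) T2.l5
  (TrL.c (I.pos (nat_lit 0) (nat_lit 0)) T0.l2
  (TrL.c (I.mix (nat_lit 41527258) (nat_lit 41530880)) T2.l4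
  (TrL.c (I.mix (nat_lit 41527258) (nat_lit 4274)) T0.l3
  TrL.n)))))))) (by decide +kernel)
theorem bx0_7 : BoxOK sI cl6 cl6 cl7 t0 t2 b0_7 :=
  box_mk (TrL.c (I.pos (nat_lit 0) (nat_lit 0)) (xa (xa (xb T0.l4 T0.l4) T0.l4) (xa T0.l4 T0.l4))
  (TrL.c (I.pos (nat_lit 0) (nat_lit 0)) (xa T2.l5 T2.l1)
  (TrL.c (I.pos (nat_lit 0) (nat_lit 89480386)) T0.l1
  (TrL.c (I.pos (nat_lit 0) (nat_lit 41530880)) T2.l2
  (TrL.c (I.pos (nat_lit 0) (nat_lit 0)) T2.l5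
  (TrL.c (I.pos (nat_lit 0) (nat_lit 0)) T0.l2
  (TrL.c (I.mix (nat_lit 41527258) (nat_lit 41530880)) T2.l4
  (TrL.c (I.mix (nat_lit 41527258) (nat_lit 4274)) T0.l3
  TrL.n)))))))) (by decide +kernel)
theorem bx0_8 : BoxOK sI cl6 cl6 cl7 t0 t2 b0_8 :=
  box_mk (TrL.c (I.pos (nat_lit 0) (nat_lit 0)) (xb (xa T0.l11 T0.l11) (xa T0.l11 T0.l11))
  (TrL.c (I.pos (nat_lit 0) (nat_lit 0)) T2.l1
  (TrL.c (I.pos (nat_lit 0) (nat_lit 89480386)) T0.l1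
  (TrL.c (I.pos (nat_lit 0) (nat_lit 41530880)) T2.l2
  (TrL.c (I.pos (nat_lit 0) (nat_lit 0)) (xb T2.l11 T2.l3)
  (TrL.c (I.pos (nat_lit 0) (nat_lit 0)) T0.l2
  (TrL.c (I.mix (nat_lit 41527258) (nat_lit 41530880)) T2.l4
  (TrL.c (I.mix (nat_lit 41527258) (nat_lit 4274)) T0.l3
  TrL.n)))))))) (by decide +kernel)
theorem bx0_9 : BoxOK sI cl6 cl6 cl7 t0 t2 b0_9 :=
  box_mk (TrL.c (I.pos (nat_lit 0) (nat_lit 0)) (xa T0.l11 T0.l0)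
  (TrL.c (I.pos (nat_lit 0) (nat_lit 0)) T2.l1
  (TrL.c (I.pos (nat_lit 0) (nat_lit 89480386)) T0.l1
  (TrL.c (I.pos (nat_lit 0) (nat_lit 41530880)) T2.l2
  (TrL.c (I.pos (nat_lit 0) (nat_lit 0)) (xb T2.l11 T2.l11)
  (TrL.c (I.pos (nat_lit 0) (nat_lit 0)) T0.l2
  (TrL.c (I.mix (nat_lit 41527258) (nat_lit 41530880)) T2.l4
  (TrL.c (I.mix (nat_lit 41527258) (nat_lit 4274)) T0.l3
  TrL.n)))))))) (by decide +kernel)
theorem bx0_10 : BoxOK sI cl6 cl6 cl7 t0 t2 b0_10 :=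
  box_mk (TrL.c (I.pos (nat_lit 0) (nat_lit 0)) T0.l11
  (TrL.c (I.pos (nat_lit 0) (nat_lit 0)) T2.l1
  (TrL.c (I.pos (nat_lit 0) (nat_lit 89480386)) T0.l1
  (TrL.c (I.pos (nat_lit 0) (nat_lit 41530880)) T2.l2
  (TrL.c (I.pos (nat_lit 0) (nat_lit 0)) T2.l11
  (TrL.c (I.pos (nat_lit 0) (nat_lit 0)) T0.l2
  (TrL.c (I.mix (nat_lit 41527258) (nat_lit 41530880)) T2.l4
  (TrL.c (I.mix (nat_lit 41527258) (nat_lit 4274)) T0.l3
  TrL.n)))))))) (by decide +kernel)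
theorem bx0_11 : BoxOK sI cl6 cl6 cl7 t0 t2 b0_11 :=
  box_mk (TrL.c (I.pos (nat_lit 0) (nat_lit 0)) (xa (xb T0.l0 T0.l0) (xb T0.l0 T0.l0))
  (TrL.c (I.pos (nat_lit 0) (nat_lit 0)) T2.l1
  (TrL.c (I.pos (nat_lit 0) (nat_lit 89480386)) T0.l1
  (TrL.c (I.pos (nat_lit 0) (nat_lit 41530880)) T2.l2
  (TrL.c (I.pos (nat_lit 0) (nat_lit 0)) (xa T2.l3 T2.l3)
  (TrL.c (I.pos (nat_lit 0) (nat_lit 0)) T0.l2
  (TrL.c (I.mix (nat_lit 41527258) (nat_lit 41530880)) T2.l4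
  (TrL.c (I.mix (nat_lit 41527258) (nat_lit 4274)) T0.l3
  TrL.n)))))))) (by decide +kernel)
theorem sv0 : StarV sI cl6 cl6 cl7 t0 t2 t0 :=
  (bt_n (bt_n (bt_n (bt_b bx0_0) (bt_n (bt_b bx0_1) (bt_b bx0_2))) (bt_n (bt_b bx0_3) (bt_n (bt_b bx0_4) (bt_b bx0_5)))) (bt_n (bt_n (bt_b bx0_6) (bt_n (bt_b bx0_7) (bt_b bx0_8))) (bt_n (bt_b bx0_9) (bt_n (bt_b bx0_10) (bt_b bx0_11)))))
def S0 : StarD := StarD.mk cl6 cl6 cl7 0 2 t0
theorem bx1_0 : BoxOK sI cl6 cl7 cl6 t2 t0 b1_0 :=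
  box_mk (TrL.c (I.pos (nat_lit 0) (nat_lit 0)) (xa (xb (xa T2.l0 T2.l0) (xa (xb T2.l0 T2.l0) T2.l0)) (xb (xa T2.l0 T2.l0) (xa T2.l0 T2.l0)))
  (TrL.c (I.pos (nat_lit 0) (nat_lit 0)) (xa T0.l5 (xb T0.l5 T0.l5))
  (TrL.c (I.pos (nat_lit 0) (nat_lit 89480386)) T2.l6
  (TrL.c (I.pos (nat_lit 0) (nat_lit 41530880)) T0.l6
  (TrL.c (I.pos (nat_lit 0) (nat_lit 0)) (xa T0.l8 (xb T0.l8 T0.l8))
  (TrL.c (I.pos (nat_lit 0) (nat_lit 0)) T2.l7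
  (TrL.c (I.mix (nat_lit 41527258) (nat_lit 41530880)) T0.l7
  (TrL.c (I.mix (nat_lit 41527258) (nat_lit 4274)) T2.l8
  TrL.n)))))))) (by decide +kernel)
theorem bx1_1 : BoxOK sI cl6 cl7 cl6 t2 t0 b1_1 :=
  box_mk (TrL.c (I.pos (nat_lit 0) (nat_lit 0)) (xa T2.l9 T2.l0)
  (TrL.c (I.pos (nat_lit 0) (nat_lit 0)) T0.l5
  (TrL.c (I.pos (nat_lit 0) (nat_lit 89480386)) T2.l6
  (TrL.c (I.pos (nat_lit 0) (nat_lit 41530880)) T0.l6
  (TrL.c (I.pos (nat_lit 0) (nat_lit 0)) (xa T0.l9 T0.l9)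
  (TrL.c (I.pos (nat_lit 0) (nat_lit 0)) T2.l7
  (TrL.c (I.mix (nat_lit 41527258) (nat_lit 41530880)) T0.l7
  (TrL.c (I.mix (nat_lit 41527258) (nat_lit 4274)) T2.l8
  TrL.n)))))))) (by decide +kernel)
theorem bx1_2 : BoxOK sI cl6 cl7 cl6 t2 t0 b1_2 :=
  box_mk (TrL.c (I.pos (nat_lit 0) (nat_lit 0)) (xa (xa (xb T2.l9 T2.l9) T2.l9) (xa T2.l9 (xb T2.l9 T2.l9)))
  (TrL.c (I.pos (nat_lit 0) (nat_lit 0)) (xa T0.l5 T0.l5)
  (TrL.c (I.pos (nat_lit 0) (nat_lit 89480386)) T2.l6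
  (TrL.c (I.pos (nat_lit 0) (nat_lit 41530880)) T0.l6
  (TrL.c (I.pos (nat_lit 0) (nat_lit 0)) (xa T0.l9 T0.l9)
  (TrL.c (I.pos (nat_lit 0) (nat_lit 0)) T2.l7
  (TrL.c (I.mix (nat_lit 41527258) (nat_lit 41530880)) T0.l7
  (TrL.c (I.mix (nat_lit 41527258) (nat_lit 4274)) T2.l8
  TrL.n)))))))) (by decide +kernel)
theorem bx1_3 : BoxOK sI cl6 cl7 cl6 t2 t0 b1_3 :=
  box_mk (TrL.c (I.pos (nat_lit 0) (nat_lit 0)) (xa (xa T2.l9 T2.l9) T2.l9)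
  (TrL.c (I.pos (nat_lit 0) (nat_lit 0)) T0.l5
  (TrL.c (I.pos (nat_lit 0) (nat_lit 89480386)) T2.l6
  (TrL.c (I.pos (nat_lit 0) (nat_lit 41530880)) T0.l6
  (TrL.c (I.pos (nat_lit 0) (nat_lit 0)) (xa T0.l9 T0.l9)
  (TrL.c (I.pos (nat_lit 0) (nat_lit 0)) T2.l7
  (TrL.c (I.mix (nat_lit 41527258) (nat_lit 41530880)) T0.l7
  (TrL.c (I.mix (nat_lit 41527258) (nat_lit 4274)) T2.l8
  TrL.n)))))))) (by decide +kernel)
theorem bx1_4 : BoxOK sI cl6 cl7 cl6 t2 t0 b1_4 :=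
  box_mk (TrL.c (I.pos (nat_lit 0) (nat_lit 0)) (xb (xa (xb T2.l10 T2.l10) (xb T2.l10 T2.l10)) (xa (xb T2.l10 T2.l10) (xb T2.l10 T2.l10)))
  (TrL.c (I.pos (nat_lit 0) (nat_lit 0)) (xb T0.l5 T0.l5)
  (TrL.c (I.pos (nat_lit 0) (nat_lit 89480386)) T2.l6
  (TrL.c (I.pos (nat_lit 0) (nat_lit 41530880)) T0.l6
  (TrL.c (I.pos (nat_lit 0) (nat_lit 0)) (xb T0.l10 T0.l8)
  (TrL.c (I.pos (nat_lit 0) (nat_lit 0)) T2.l7
  (TrL.c (I.mix (nat_lit 41527258) (nat_lit 41530880)) T0.l7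
  (TrL.c (I.mix (nat_lit 41527258) (nat_lit 4274)) T2.l8
  TrL.n)))))))) (by decide +kernel)
theorem bx1_5 : BoxOK sI cl6 cl7 cl6 t2 t0 b1_5 :=
  box_mk (TrL.c (I.pos (nat_lit 0) (nat_lit 0)) (xb T2.l9 T2.l9)
  (TrL.c (I.pos (nat_lit 0) (nat_lit 0)) T0.l5
  (TrL.c (I.pos (nat_lit 0) (nat_lit 89480386)) T2.l6
  (TrL.c (I.pos (nat_lit 0) (nat_lit 41530880)) T0.l6
  (TrL.c (I.pos (nat_lit 0) (nat_lit 0)) T0.l9
  (TrL.c (I.pos (nat_lit 0) (nat_lit 0)) T2.l7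
  (TrL.c (I.mix (nat_lit 41527258) (nat_lit 41530880)) T0.l7
  (TrL.c (I.mix (nat_lit 41527258) (nat_lit 4274)) T2.l8
  TrL.n)))))))) (by decide +kernel)
theorem bx1_6 : BoxOK sI cl6 cl7 cl6 t2 t0 b1_6 :=
  box_mk (TrL.c (I.pos (nat_lit 0) (nat_lit 0)) (xa (xa (xb T2.l9 (xa T2.l9 T2.l9)) (xb T2.l9 T2.l9)) (xa T2.l9 T2.l9))
  (TrL.c (I.pos (nat_lit 0) (nat_lit 0)) (xa T0.l5 T0.l5)
  (TrL.c (I.pos (nat_lit 0) (nat_lit 89480386)) T2.l6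
  (TrL.c (I.pos (nat_lit 0) (nat_lit 41530880)) T0.l6
  (TrL.c (I.pos (nat_lit 0) (nat_lit 0)) (xa T0.l9 T0.l9)
  (TrL.c (I.pos (nat_lit 0) (nat_lit 0)) T2.l7
  (TrL.c (I.mix (nat_lit 41527258) (nat_lit 41530880)) T0.l7
  (TrL.c (I.mix (nat_lit 41527258) (nat_lit 4274)) T2.l8
  TrL.n)))))))) (by decide +kernel)
theorem bx1_7 : BoxOK sI cl6 cl7 cl6 t2 t0 b1_7 :=
  box_mk (TrL.c (I.pos (nat_lit 0) (nat_lit 0)) (xa (xa T2.l9 T2.l9) T2.l9)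
  (TrL.c (I.pos (nat_lit 0) (nat_lit 0)) T0.l5
  (TrL.c (I.pos (nat_lit 0) (nat_lit 89480386)) T2.l6
  (TrL.c (I.pos (nat_lit 0) (nat_lit 41530880)) T0.l6
  (TrL.c (I.pos (nat_lit 0) (nat_lit 0)) T0.l9
  (TrL.c (I.pos (nat_lit 0) (nat_lit 0)) T2.l7
  (TrL.c (I.mix (nat_lit 41527258) (nat_lit 41530880)) T0.l7
  (TrL.c (I.mix (nat_lit 41527258) (nat_lit 4274)) T2.l4
  TrL.n)))))))) (by decide +kernel)
theorem bx1_8 : BoxOK sI cl6 cl7 cl6 t2 t0 b1_8 :=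
  box_mk (TrL.c (I.pos (nat_lit 0) (nat_lit 0)) (xa (xb T2.l0 T2.l0) (xb (xa T2.l0 T2.l0) (xa T2.l0 T2.l0)))
  (TrL.c (I.pos (nat_lit 0) (nat_lit 0)) (xa T0.l5 (xb T0.l2 T0.l5))
  (TrL.c (I.pos (nat_lit 0) (nat_lit 89480386)) (xR T2.l6 T2.l6)
  (TrL.c (I.pos (nat_lit 0) (nat_lit 41530880)) T0.l6
  (TrL.c (I.pos (nat_lit 0) (nat_lit 0)) (xb (xa T0.l8 (xa T0.l8 (xb T0.l8 T0.l8))) (xa T0.l8 (xa T0.l8 (xb T0.l8 T0.l8))))
  (TrL.c (I.pos (nat_lit 0) (nat_lit 0)) (xa T2.l7 (xb T2.l7 T2.l7))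
  (TrL.c (I.mix (nat_lit 41527258) (nat_lit 41530880)) (xR T0.l1 T0.l1)
  (TrL.c (I.mix (nat_lit 41527258) (nat_lit 4274)) T2.l8
  TrL.n)))))))) (by decide +kernel)
theorem bx1_9 : BoxOK sI cl6 cl7 cl6 t2 t0 b1_9 :=
  box_mk (TrL.c (I.pos (nat_lit 0) (nat_lit 0)) (xa T2.l10 T2.l0)
  (TrL.c (I.pos (nat_lit 0) (nat_lit 0)) T0.l5
  (TrL.c (I.pos (nat_lit 0) (nat_lit 89480386)) T2.l6
  (TrL.c (I.pos (nat_lit 0) (nat_lit 41530880)) T0.l6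
  (TrL.c (I.pos (nat_lit 0) (nat_lit 0)) (xa T0.l10 T0.l10)
  (TrL.c (I.pos (nat_lit 0) (nat_lit 0)) T2.l7
  (TrL.c (I.mix (nat_lit 41527258) (nat_lit 41530880)) T0.l7
  (TrL.c (I.mix (nat_lit 41527258) (nat_lit 4274)) T2.l8
  TrL.n)))))))) (by decide +kernel)
theorem bx1_10 : BoxOK sI cl6 cl7 cl6 t2 t0 b1_10 :=
  box_mk (TrL.c (I.pos (nat_lit 0) (nat_lit 0)) (xa (xb T2.l0 T2.l0) (xb T2.l0 T2.l0))
  (TrL.c (I.pos (nat_lit 0) (nat_lit 0)) (xa T0.l5 T0.l5)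
  (TrL.c (I.pos (nat_lit 0) (nat_lit 89480386)) T2.l6
  (TrL.c (I.pos (nat_lit 0) (nat_lit 41530880)) T0.l6
  (TrL.c (I.pos (nat_lit 0) (nat_lit 0)) (xa T0.l8 T0.l8)
  (TrL.c (I.pos (nat_lit 0) (nat_lit 0)) T2.l7
  (TrL.c (I.mix (nat_lit 41527258) (nat_lit 41530880)) T0.l7
  (TrL.c (I.mix (nat_lit 41527258) (nat_lit 4274)) T2.l8
  TrL.n)))))))) (by decide +kernel)
theorem bx1_11 : BoxOK sI cl6 cl7 cl6 t2 t0 b1_11 :=
  box_mk (TrL.c (I.pos (nat_lit 0) (nat_lit 0)) T2.l10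
  (TrL.c (I.pos (nat_lit 0) (nat_lit 0)) T0.l5
  (TrL.c (I.pos (nat_lit 0) (nat_lit 89480386)) T2.l6
  (TrL.c (I.pos (nat_lit 0) (nat_lit 41530880)) T0.l6
  (TrL.c (I.pos (nat_lit 0) (nat_lit 0)) T0.l10
  (TrL.c (I.pos (nat_lit 0) (nat_lit 0)) T2.l7
  (TrL.c (I.mix (nat_lit 41527258) (nat_lit 41530880)) T0.l7
  (TrL.c (I.mix (nat_lit 41527258) (nat_lit 4274)) T2.l8
  TrL.n)))))))) (by decide +kernel)
theorem sv1 : StarV sI cl6 cl7 cl6 t2 t0 t1 :=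
  (bt_n (bt_n (bt_n (bt_b bx1_0) (bt_n (bt_b bx1_1) (bt_b bx1_2))) (bt_n (bt_b bx1_3) (bt_n (bt_b bx1_4) (bt_b bx1_5)))) (bt_n (bt_n (bt_b bx1_6) (bt_n (bt_b bx1_7) (bt_b bx1_8))) (bt_n (bt_b bx1_9) (bt_n (bt_b bx1_10) (bt_b bx1_11)))))
def S1 : StarD := StarD.mk cl6 cl7 cl6 2 0 t1
theorem bx2_0 : BoxOK sI cl7 cl6 cl6 t1 t1 b2_0 :=
  box_mk (TrL.c (I.pos (nat_lit 0) (nat_lit 0)) (xa (xb (xa T1.l0 T1.l0) (xa (xb T1.l0 T1.l0) T1.l0)) (xb (xb T1.l0 T1.l0) (xa T1.l0 T1.l0)))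
  (TrL.c (I.pos (nat_lit 0) (nat_lit 0)) (xa (xk (xb T1.l1 T1.l1) (xb T1.l1 T1.l1)) (xk (xb T1.l1 T1.l1) (xb T1.l1 T1.l1)))
  (TrL.c (I.pos (nat_lit 0) (nat_lit 111196574)) (xR T1.l2 T1.l2)
  (TrL.c (I.pos (nat_lit 0) (nat_lit 77433728)) T1.l3
  (TrL.c (I.pos (nat_lit 0) (nat_lit 0)) (xa (xb (xk T1.l4 T1.l4) T1.l4) (xb (xk T1.l4 T1.l4) (xk (xb T1.l4 (xa T1.l4 T1.l4)) (xb T1.l4 (xa T1.l4 (xs T1.l4 (xk T1.l4 T1.l4)))))))
  (TrL.c (I.pos (nat_lit 0) (nat_lit 0)) (xk T1.l5 T1.l5)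
  (TrL.c (I.mix (nat_lit 29511666) (nat_lit 77433728)) (xR T1.l6 T1.l6)
  (TrL.c (I.mix (nat_lit 29511666) (nat_lit 46070178)) T1.l7
  TrL.n)))))))) (by decide +kernel)
theorem bx2_1 : BoxOK sI cl7 cl6 cl6 t1 t1 b2_1 :=
  box_mk (TrL.c (I.pos (nat_lit 0) (nat_lit 0)) (xa T1.l8 T1.l0)
  (TrL.c (I.pos (nat_lit 0) (nat_lit 0)) T1.l1
  (TrL.c (I.pos (nat_lit 0) (nat_lit 111196574)) (xR T1.l2 T1.l2)
  (TrL.c (I.pos (nat_lit 0) (nat_lit 77433728)) T1.l3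
  (TrL.c (I.pos (nat_lit 0) (nat_lit 0)) (xa T1.l9 (xk T1.l9 T1.l9))
  (TrL.c (I.pos (nat_lit 0) (nat_lit 0)) T1.l5
  (TrL.c (I.mix (nat_lit 29511666) (nat_lit 77433728)) (xR T1.l6 T1.l6)
  (TrL.c (I.mix (nat_lit 29511666) (nat_lit 46070178)) T1.l7
  TrL.n)))))))) (by decide +kernel)
theorem bx2_2 : BoxOK sI cl7 cl6 cl6 t1 t1 b2_2 :=
  box_mk (TrL.c (I.pos (nat_lit 0) (nat_lit 0)) T1.l8
  (TrL.c (I.pos (nat_lit 0) (nat_lit 0)) T1.l1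
  (TrL.c (I.pos (nat_lit 0) (nat_lit 111196574)) T1.l2
  (TrL.c (I.pos (nat_lit 0) (nat_lit 77433728)) T1.l3
  (TrL.c (I.pos (nat_lit 0) (nat_lit 0)) T1.l9
  (TrL.c (I.pos (nat_lit 0) (nat_lit 0)) T1.l5
  (TrL.c (I.mix (nat_lit 29511666) (nat_lit 77433728)) T1.l6
  (TrL.c (I.mix (nat_lit 29511666) (nat_lit 46070178)) T1.l7
  TrL.n)))))))) (by decide +kernel)
theorem bx2_3 : BoxOK sI cl7 cl6 cl6 t1 t1 b2_3 :=
  box_mk (TrL.c (I.pos (nat_lit 0) (nat_lit 0)) (xb (xa T1.l10 T1.l10) (xa T1.l10 T1.l10))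
  (TrL.c (I.pos (nat_lit 0) (nat_lit 0)) (xb T1.l1 (xk T1.l1 T1.l1))
  (TrL.c (I.pos (nat_lit 0) (nat_lit 111196574)) (xR T1.l2 T1.l2)
  (TrL.c (I.pos (nat_lit 0) (nat_lit 77433728)) T1.l3
  (TrL.c (I.pos (nat_lit 0) (nat_lit 0)) (xb (xk T1.l4 T1.l4) (xk T1.l4 T1.l4))
  (TrL.c (I.pos (nat_lit 0) (nat_lit 0)) T1.l5
  (TrL.c (I.mix (nat_lit 29511666) (nat_lit 77433728)) (xR T1.l6 T1.l6)
  (TrL.c (I.mix (nat_lit 29511666) (nat_lit 46070178)) T1.l7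
  TrL.n)))))))) (by decide +kernel)
theorem bx2_4 : BoxOK sI cl7 cl6 cl6 t1 t1 b2_4 :=
  box_mk (TrL.c (I.pos (nat_lit 0) (nat_lit 0)) (xa (xa (xb T1.l8 T1.l8) T1.l8) T1.l8)
  (TrL.c (I.pos (nat_lit 0) (nat_lit 0)) (xa T1.l9 T1.l1)
  (TrL.c (I.pos (nat_lit 0) (nat_lit 111196574)) T1.l2
  (TrL.c (I.pos (nat_lit 0) (nat_lit 77433728)) T1.l3
  (TrL.c (I.pos (nat_lit 0) (nat_lit 0)) (xa T1.l1 T1.l9)
  (TrL.c (I.pos (nat_lit 0) (nat_lit 0)) T1.l5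
  (TrL.c (I.mix (nat_lit 29511666) (nat_lit 77433728)) T1.l6
  (TrL.c (I.mix (nat_lit 29511666) (nat_lit 46070178)) T1.l6
  TrL.n)))))))) (by decide +kernel)
theorem bx2_5 : BoxOK sI cl7 cl6 cl6 t1 t1 b2_5 :=
  box_mk (TrL.c (I.pos (nat_lit 0) (nat_lit 0)) (xa T1.l0 T1.l0)
  (TrL.c (I.pos (nat_lit 0) (nat_lit 0)) T1.l1
  (TrL.c (I.pos (nat_lit 0) (nat_lit 111196574)) (xR T1.l2 T1.l2)
  (TrL.c (I.pos (nat_lit 0) (nat_lit 77433728)) T1.l3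
  (TrL.c (I.pos (nat_lit 0) (nat_lit 0)) (xk (xa T1.l11 T1.l4) (xa T1.l11 T1.l4))
  (TrL.c (I.pos (nat_lit 0) (nat_lit 0)) T1.l5
  (TrL.c (I.mix (nat_lit 29511666) (nat_lit 77433728)) (xR T1.l6 T1.l6)
  (TrL.c (I.mix (nat_lit 29511666) (nat_lit 46070178)) T1.l7
  TrL.n)))))))) (by decide +kernel)
theorem bx2_6 : BoxOK sI cl7 cl6 cl6 t1 t1 b2_6 :=
  box_mk (TrL.c (I.pos (nat_lit 0) (nat_lit 0)) (xa (xa (xb T1.l8 T1.l8) T1.l8) (xa T1.l8 T1.l8))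
  (TrL.c (I.pos (nat_lit 0) (nat_lit 0)) (xa T1.l1 T1.l1)
  (TrL.c (I.pos (nat_lit 0) (nat_lit 111196574)) T1.l2
  (TrL.c (I.pos (nat_lit 0) (nat_lit 77433728)) T1.l3
  (TrL.c (I.pos (nat_lit 0) (nat_lit 0)) (xa T1.l9 T1.l9)
  (TrL.c (I.pos (nat_lit 0) (nat_lit 0)) T1.l5
  (TrL.c (I.mix (nat_lit 29511666) (nat_lit 77433728)) T1.l6
  (TrL.c (I.mix (nat_lit 29511666) (nat_lit 46070178)) T1.l7
  TrL.n)))))))) (by decide +kernel)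
theorem bx2_7 : BoxOK sI cl7 cl6 cl6 t1 t1 b2_7 :=
  box_mk (TrL.c (I.pos (nat_lit 0) (nat_lit 0)) (xb T1.l8 T1.l8)
  (TrL.c (I.pos (nat_lit 0) (nat_lit 0)) T1.l1
  (TrL.c (I.pos (nat_lit 0) (nat_lit 111196574)) (xR T1.l2 T1.l2)
  (TrL.c (I.pos (nat_lit 0) (nat_lit 77433728)) T1.l3
  (TrL.c (I.pos (nat_lit 0) (nat_lit 0)) (xb T1.l9 T1.l9)
  (TrL.c (I.pos (nat_lit 0) (nat_lit 0)) T1.l5
  (TrL.c (I.mix (nat_lit 29511666) (nat_lit 77433728)) T1.l6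
  (TrL.c (I.mix (nat_lit 29511666) (nat_lit 46070178)) T1.l7
  TrL.n)))))))) (by decide +kernel)
theorem bx2_8 : BoxOK sI cl7 cl6 cl6 t1 t1 b2_8 :=
  box_mk (TrL.c (I.pos (nat_lit 0) (nat_lit 0)) (xa T1.l8 T1.l8)
  (TrL.c (I.pos (nat_lit 0) (nat_lit 0)) T1.l9
  (TrL.c (I.pos (nat_lit 0) (nat_lit 111196574)) T1.l2
  (TrL.c (I.pos (nat_lit 0) (nat_lit 77433728)) T1.l2
  (TrL.c (I.pos (nat_lit 0) (nat_lit 0)) T1.l1
  (TrL.c (I.pos (nat_lit 0) (nat_lit 0)) T1.l2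
  (TrL.c (I.mix (nat_lit 29511666) (nat_lit 77433728)) T1.l6
  (TrL.c (I.mix (nat_lit 29511666) (nat_lit 46070178)) T1.l6
  TrL.n)))))))) (by decide +kernel)
theorem bx2_9 : BoxOK sI cl7 cl6 cl6 t1 t1 b2_9 :=
  box_mk (TrL.c (I.pos (nat_lit 0) (nat_lit 0)) (xa (xb T1.l0 (xa T1.l0 T1.l0)) (xb (xa T1.l0 T1.l0) (xa T1.l0 T1.l0)))
  (TrL.c (I.pos (nat_lit 0) (nat_lit 0)) (xa (xb T1.l1 (xk T1.l1 T1.l1)) (xb T1.l5 (xk (xa T1.l1 T1.l1) T1.l5)))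
  (TrL.c (I.pos (nat_lit 0) (nat_lit 111196574)) (xR T1.l2 T1.l2)
  (TrL.c (I.pos (nat_lit 0) (nat_lit 77433728)) (xR T1.l3 T1.l3)
  (TrL.c (I.pos (nat_lit 0) (nat_lit 0)) (xa (xb (xk (xa T1.l4 T1.l4) (xa T1.l4 T1.l4)) (xk T1.l4 T1.l4)) (xb (xk (xa (xb T1.l4 T1.l4) (xb (xk T1.l4 T1.l4) (xk T1.l4 T1.l4))) (xa (xb T1.l4 T1.l4) (xb (xk T1.l4 T1.l4) T1.l4))) (xk (xa T1.l4 (xb (xk T1.l4 T1.l4) (xk T1.l4 T1.l4))) (xa T1.l4 (xb (xk T1.l4 T1.l4) (xk T1.l4 T1.l4))))))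
  (TrL.c (I.pos (nat_lit 0) (nat_lit 0)) (xa (xb T1.l5 T1.l5) (xk (xb T1.l5 T1.l5) (xb T1.l5 T1.l5)))
  (TrL.c (I.mix (nat_lit 29511666) (nat_lit 77433728)) (xR T1.l6 (xR T1.l6 (xR T1.l6 T1.l6)))
  (TrL.c (I.mix (nat_lit 29511666) (nat_lit 46070178)) T1.l7
  TrL.n)))))))) (by decide +kernel)
theorem bx2_10 : BoxOK sI cl7 cl6 cl6 t1 t1 b2_10 :=
  box_mk (TrL.c (I.pos (nat_lit 0) (nat_lit 0)) (xa (xb (xb T1.l10 T1.l0) (xb T1.l0 T1.l0)) (xb (xb (xa T1.l0 T1.l0) (xa T1.l0 T1.l0)) (xb T1.l0 T1.l0)))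
  (TrL.c (I.pos (nat_lit 0) (nat_lit 0)) (xa (xk T1.l1 T1.l1) (xk T1.l1 T1.l1))
  (TrL.c (I.pos (nat_lit 0) (nat_lit 111196574)) (xR T1.l2 T1.l2)
  (TrL.c (I.pos (nat_lit 0) (nat_lit 77433728)) T1.l3
  (TrL.c (I.pos (nat_lit 0) (nat_lit 0)) (xk (xa T1.l4 (xb T1.l4 T1.l4)) (xa T1.l4 (xb T1.l4 (xb T1.l4 T1.l4))))
  (TrL.c (I.pos (nat_lit 0) (nat_lit 0)) T1.l5
  (TrL.c (I.mix (nat_lit 29511666) (nat_lit 77433728)) (xR T1.l6 T1.l6)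
  (TrL.c (I.mix (nat_lit 29511666) (nat_lit 46070178)) T1.l7
  TrL.n)))))))) (by decide +kernel)
theorem bx2_11 : BoxOK sI cl7 cl6 cl6 t1 t1 b2_11 :=
  box_mk (TrL.c (I.pos (nat_lit 0) (nat_lit 0)) T1.l10
  (TrL.c (I.pos (nat_lit 0) (nat_lit 0)) T1.l1
  (TrL.c (I.pos (nat_lit 0) (nat_lit 111196574)) (xR T1.l2 T1.l2)
  (TrL.c (I.pos (nat_lit 0) (nat_lit 77433728)) T1.l3
  (TrL.c (I.pos (nat_lit 0) (nat_lit 0)) (xk T1.l4 T1.l4)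
  (TrL.c (I.pos (nat_lit 0) (nat_lit 0)) T1.l5
  (TrL.c (I.mix (nat_lit 29511666) (nat_lit 77433728)) (xR T1.l6 T1.l6)
  (TrL.c (I.mix (nat_lit 29511666) (nat_lit 46070178)) T1.l7
  TrL.n)))))))) (by decide +kernel)
theorem sv2 : StarV sI cl7 cl6 cl6 t1 t1 t2 :=
  (bt_n (bt_n (bt_n (bt_b bx2_0) (bt_n (bt_b bx2_1) (bt_b bx2_2))) (bt_n (bt_b bx2_3) (bt_n (bt_b bx2_4) (bt_b bx2_5)))) (bt_n (bt_n (bt_b bx2_6) (bt_n (bt_b bx2_7) (bt_b bx2_8))) (bt_n (bt_b bx2_9) (bt_n (bt_b bx2_10) (bt_b bx2_11)))))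
def S2 : StarD := StarD.mk cl7 cl6 cl6 1 1 t2
def G : List StarD := [S0, S1, S2]
theorem so0 : StarOK sI G S0 :=
  star_mk (by decide) (by decide) rfl rfl rfl rfl rfl rfl (rfl : _ = t0) (rfl : _ = t2)
  (st_mk (Pth.l (Pth.l (Pth.l Pth.z))) (nat_lit 190117944) (nat_lit 190781929) (by decide +kernel))
  (st_mk (Pth.l (Pth.l (Pth.l Pth.z))) (nat_lit 226706147) (nat_lit 227655532) (by decide +kernel))
  (st_mk (Pth.l (Pth.l (Pth.l Pth.z))) (nat_lit 269315746) (nat_lit 270667209) (by decide +kernel)) sv0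
theorem so1 : StarOK sI G S1 :=
  star_mk (by decide) (by decide) rfl rfl rfl rfl rfl rfl (rfl : _ = t2) (rfl : _ = t0)
  (st_mk (Pth.l (Pth.l (Pth.l Pth.z))) (nat_lit 142687324) (nat_lit 165275882) (by decide +kernel))
  (st_mk (Pth.l (Pth.l (Pth.l Pth.z))) (nat_lit 179101840) (nat_lit 202027641) (by decide +kernel))
  (st_mk (Pth.l (Pth.l (Pth.l Pth.z))) (nat_lit 221563889) (nat_lit 244935561) (by decide +kernel)) sv1
theorem so2 : StarOK sI G S2 :=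
  star_mk (by decide) (by decide) rfl rfl rfl rfl rfl rfl (rfl : _ = t1) (rfl : _ = t1)
  (st_mk (Pth.l (Pth.l (Pth.l Pth.z))) (nat_lit 188171185) (nat_lit 189873108) (by decide +kernel))
  (st_mk (Pth.l (Pth.l (Pth.l Pth.z))) (nat_lit 224038418) (nat_lit 226236357) (by decide +kernel))
  (st_mk (Pth.l (Pth.l (Pth.l Pth.z))) (nat_lit 265104005) (nat_lit 269067266) (by decide +kernel)) sv2
theorem ok : GroupOK (nat_lit 209321984) (nat_lit 268435456) G := grp_mk (allS_c so0 (allS_c so1 (allS_c so2 allS_n)))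
theorem cov : GCov G cl6 cl6 cl7 := cov_mk
  ⟨0, by decide, rfl, rfl, rfl⟩ ⟨1, by decide, rfl, rfl, rfl⟩ ⟨0, by decide, rfl, rfl, rfl⟩ ⟨1, by decide, rfl, rfl, rfl⟩ ⟨2, by decide, rfl, rfl, rfl⟩ ⟨2, by decide, rfl, rfl, rfl⟩
end Q334_3

namespace Q335_0
def sI : I := I.pos (nat_lit 0) (nat_lit 91291648)
def b0_0 : Bx := Bx.mk (St.mk (I.pos (nat_lit 156893184) (nat_lit 285638656)) (I.mix (nat_lit 33538048) (nat_lit 73252864)) (I.mix (nat_lit 114524160) (nat_lit 101122048)) (I.pos (nat_lit 181305344) (nat_lit 396771328)) (I.mix (nat_lit 97828864) (nat_lit 72581120)) (I.mix (nat_lit 92880896) (nat_lit 62996480)) (I.mix (nat_lit 137232384) (nat_lit 88129536)))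
  false (nat_lit 0)
def b0_1 : Bx := Bx.mk (St.mk (I.mix (nat_lit 29818880) (nat_lit 99532800)) (I.mix (nat_lit 11075584) (nat_lit 41091072)) (I.mix (nat_lit 23052288) (nat_lit 11845632)) (I.pos (nat_lit 81543168) (nat_lit 125747200)) (I.mix (nat_lit 29917184) (nat_lit 33030144)) (I.mix (nat_lit 34357248) (nat_lit 24936448)) (I.mix (nat_lit 22937600) (nat_lit 14811136)))
  false (nat_lit 0)
def b0_2 : Bx := Bx.mk (St.mk (I.pos (nat_lit 80166912) (nat_lit 124715008)) (I.mix (nat_lit 61276160) (nat_lit 9568256)) (I.neg (nat_lit 7028736) (nat_lit 59883520)) (I.pos (nat_lit 113426432) (nat_lit 147374080)) (I.mix (nat_lit 74907648) (nat_lit 24526848)) (I.mix (nat_lit 40075264) (nat_lit 70320128)) (I.mix (nat_lit 29343744) (nat_lit 51314688)))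
  false (nat_lit 0)
def b0_3 : Bx := Bx.mk (St.mk (I.mix (nat_lit 49053696) (nat_lit 28016640)) (I.mix (nat_lit 35143680) (nat_lit 8781824)) (I.neg (nat_lit 360448) (nat_lit 15368192)) (I.pos (nat_lit 82755584) (nat_lit 100040704)) (I.mix (nat_lit 28246016) (nat_lit 18137088)) (I.mix (nat_lit 18415616) (nat_lit 28753920)) (I.mix (nat_lit 10780672) (nat_lit 7094272)))
  false (nat_lit 0)
def b0_4 : Bx := Bx.mk (St.mk (I.pos (nat_lit 92585984) (nat_lit 160989184)) (I.neg (nat_lit 5029888) (nat_lit 66633728)) (I.neg (nat_lit 7405568) (nat_lit 66142208)) (I.pos (nat_lit 128499712) (nat_lit 187318272)) (I.mix (nat_lit 69156864) (nat_lit 44515328)) (I.mix (nat_lit 36061184) (nat_lit 67960832)) (I.mix (nat_lit 30015488) (nat_lit 61145088)))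
  false (nat_lit 0)
def b0_5 : Bx := Bx.mk (St.mk (I.mix (nat_lit 32555008) (nat_lit 46923776)) (I.mix (nat_lit 35700736) (nat_lit 6258688)) (I.neg (nat_lit 1589248) (nat_lit 17481728)) (I.pos (nat_lit 81920000) (nat_lit 100696064)) (I.mix (nat_lit 27099136) (nat_lit 26705920)) (I.mix (nat_lit 20725760) (nat_lit 34897920)) (I.mix (nat_lit 9568256) (nat_lit 12992512)))
  false (nat_lit 0)
def b0_6 : Bx := Bx.mk (St.mk (I.mix (nat_lit 48136192) (nat_lit 74858496)) (I.mix (nat_lit 6324224) (nat_lit 37535744)) (I.mix (nat_lit 17809408) (nat_lit 9175040)) (I.pos (nat_lit 81641472) (nat_lit 110166016)) (I.mix (nat_lit 32309248) (nat_lit 27262976)) (I.mix (nat_lit 39124992) (nat_lit 23248896)) (I.mix (nat_lit 14909440) (nat_lit 13139968)))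
  false (nat_lit 0)
def b0_7 : Bx := Bx.mk (St.mk (I.pos (nat_lit 140050432) (nat_lit 217268224)) (I.mix (nat_lit 40435712) (nat_lit 72941568)) (I.mix (nat_lit 43565056) (nat_lit 92372992)) (I.pos (nat_lit 168476672) (nat_lit 260653056)) (I.mix (nat_lit 125566976) (nat_lit 56934400)) (I.mix (nat_lit 140460032) (nat_lit 80855040)) (I.mix (nat_lit 144195584) (nat_lit 79200256)))
  false (nat_lit 0)
def t0 : BTr := (BTr.n (BTr.n (BTr.n (BTr.b b0_0) (BTr.b b0_1)) (BTr.n (BTr.b b0_2) (BTr.b b0_3))) (BTr.n (BTr.n (BTr.b b0_4) (BTr.b b0_5)) (BTr.n (BTr.b b0_6) (BTr.b b0_7))))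
namespace T0
def l0 : Tr := Tr.L (Pth.l (Pth.l (Pth.l Pth.z)))
def l1 : Tr := Tr.L (Pth.l (Pth.l (Pth.r Pth.z)))
def l2 : Tr := Tr.L (Pth.l (Pth.r (Pth.l Pth.z)))
def l3 : Tr := Tr.L (Pth.l (Pth.r (Pth.r Pth.z)))
def l4 : Tr := Tr.L (Pth.r (Pth.l (Pth.l Pth.z)))
def l5 : Tr := Tr.L (Pth.r (Pth.l (Pth.r Pth.z)))
def l6 : Tr := Tr.L (Pth.r (Pth.r (Pth.l Pth.z)))
def l7 : Tr := Tr.L (Pth.r (Pth.r (Pth.r Pth.z)))
end T0
def b1_0 : Bx := Bx.mk (St.mk (I.pos (nat_lit 156925952) (nat_lit 284590080)) (I.mix (nat_lit 28901376) (nat_lit 60768256)) (I.mix (nat_lit 66519040) (nat_lit 107134976)) (I.pos (nat_lit 109543424) (nat_lit 341934080)) (I.mix (nat_lit 105709568) (nat_lit 69386240)) (I.mix (nat_lit 94650368) (nat_lit 68599808)) (I.mix (nat_lit 144670720) (nat_lit 95141888)))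
  false (nat_lit 0)
def b1_1 : Bx := Bx.mk (St.mk (I.pos (nat_lit 117489664) (nat_lit 182763520)) (I.neg (nat_lit 3620864) (nat_lit 57933824)) (I.mix (nat_lit 54509568) (nat_lit 1163264)) (I.pos (nat_lit 83460096) (nat_lit 161644544)) (I.mix (nat_lit 67649536) (nat_lit 38354944)) (I.mix (nat_lit 35422208) (nat_lit 58294272)) (I.mix (nat_lit 34275328) (nat_lit 60227584)))
  false (nat_lit 0)
def b1_2 : Bx := Bx.mk (St.mk (I.mix (nat_lit 20185088) (nat_lit 134463488)) (I.mix (nat_lit 8863744) (nat_lit 28803072)) (I.mix (nat_lit 11255808) (nat_lit 23740416)) (I.pos (nat_lit 14073856) (nat_lit 101892096)) (I.mix (nat_lit 32096256) (nat_lit 23674880)) (I.mix (nat_lit 29442048) (nat_lit 21954560)) (I.mix (nat_lit 23789568) (nat_lit 16859136)))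
  false (nat_lit 0)
def b1_3 : Bx := Bx.mk (St.mk (I.mix (nat_lit 17416192) (nat_lit 104677376)) (I.mix (nat_lit 30064640) (nat_lit 4620288)) (I.mix (nat_lit 19644416) (nat_lit 4489216)) (I.pos (nat_lit 15237120) (nat_lit 76333056)) (I.mix (nat_lit 27705344) (nat_lit 20021248)) (I.mix (nat_lit 18759680) (nat_lit 24887296)) (I.mix (nat_lit 11878400) (nat_lit 16105472)))
  false (nat_lit 0)
def b1_4 : Bx := Bx.mk (St.mk (I.pos (nat_lit 151994368) (nat_lit 221954048)) (I.mix (nat_lit 39829504) (nat_lit 63930368)) (I.mix (nat_lit 37339136) (nat_lit 101957632)) (I.pos (nat_lit 111280128) (nat_lit 215629824)) (I.mix (nat_lit 136937472) (nat_lit 50446336)) (I.mix (nat_lit 166707200) (nat_lit 88358912)) (I.mix (nat_lit 197853184) (nat_lit 98418688)))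
  false (nat_lit 0)
def b1_5 : Bx := Bx.mk (St.mk (I.pos (nat_lit 107397120) (nat_lit 156139520)) (I.mix (nat_lit 55803904) (nat_lit 8110080)) (I.mix (nat_lit 54968320) (nat_lit 5259264)) (I.pos (nat_lit 63520768) (nat_lit 125468672)) (I.mix (nat_lit 82116608) (nat_lit 28917760)) (I.mix (nat_lit 48103424) (nat_lit 90161152)) (I.mix (nat_lit 38944768) (nat_lit 77037568)))
  false (nat_lit 0)
def b1_6 : Bx := Bx.mk (St.mk (I.mix (nat_lit 24363008) (nat_lit 123813888)) (I.mix (nat_lit 12730368) (nat_lit 33767424)) (I.mix (nat_lit 8126464) (nat_lit 26755072)) (I.pos (nat_lit 15794176) (nat_lit 90947584)) (I.mix (nat_lit 45400064) (nat_lit 20480000)) (I.mix (nat_lit 47939584) (nat_lit 29605888)) (I.mix (nat_lit 31244288) (nat_lit 19054592)))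
  false (nat_lit 0)
def b1_7 : Bx := Bx.mk (St.mk (I.mix (nat_lit 18989056) (nat_lit 92127232)) (I.neg (nat_lit 147456) (nat_lit 26443776)) (I.mix (nat_lit 16695296) (nat_lit 1933312)) (I.pos (nat_lit 16547840) (nat_lit 67158016)) (I.mix (nat_lit 29933568) (nat_lit 13254656)) (I.mix (nat_lit 18825216) (nat_lit 29753344)) (I.mix (nat_lit 10452992) (nat_lit 15548416)))
  false (nat_lit 0)
def t1 : BTr := (BTr.n (BTr.n (BTr.n (BTr.b b1_0) (BTr.b b1_1)) (BTr.n (BTr.b b1_2) (BTr.b b1_3))) (BTr.n (BTr.n (BTr.b b1_4) (BTr.b b1_5)) (BTr.n (BTr.b b1_6) (BTr.b b1_7))))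
namespace T1
def l0 : Tr := Tr.L (Pth.l (Pth.l (Pth.l Pth.z)))
def l1 : Tr := Tr.L (Pth.l (Pth.l (Pth.r Pth.z)))
def l2 : Tr := Tr.L (Pth.l (Pth.r (Pth.l Pth.z)))
def l3 : Tr := Tr.L (Pth.l (Pth.r (Pth.r Pth.z)))
def l4 : Tr := Tr.L (Pth.r (Pth.l (Pth.l Pth.z)))
def l5 : Tr := Tr.L (Pth.r (Pth.l (Pth.r Pth.z)))
def l6 : Tr := Tr.L (Pth.r (Pth.r (Pth.l Pth.z)))
def l7 : Tr := Tr.L (Pth.r (Pth.r (Pth.r Pth.z)))
end T1
def b2_0 : Bx := Bx.mk (St.mk (I.pos (nat_lit 156221440) (nat_lit 282001408)) (I.mix (nat_lit 20119552) (nat_lit 70270976)) (I.mix (nat_lit 47497216) (nat_lit 121962496)) (I.pos (nat_lit 180076544) (nat_lit 384303104)) (I.mix (nat_lit 117096448) (nat_lit 87769088)) (I.mix (nat_lit 120553472) (nat_lit 82706432)) (I.mix (nat_lit 174817280) (nat_lit 99106816)))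
  false (nat_lit 52900861)
def b2_1 : Bx := Bx.mk (St.mk (I.pos (nat_lit 98123776) (nat_lit 166100992)) (I.neg (nat_lit 8912896) (nat_lit 68648960)) (I.mix (nat_lit 54231040) (nat_lit 11091968)) (I.pos (nat_lit 133169152) (nat_lit 191610880)) (I.mix (nat_lit 68911104) (nat_lit 38846464)) (I.mix (nat_lit 33243136) (nat_lit 53821440)) (I.mix (nat_lit 27951104) (nat_lit 47579136)))
  false (nat_lit 0)
def b2_2 : Bx := Bx.mk (St.mk (I.mix (nat_lit 28884992) (nat_lit 49152000)) (I.mix (nat_lit 35831808) (nat_lit 7094272)) (I.mix (nat_lit 7307264) (nat_lit 7847936)) (I.pos (nat_lit 82706432) (nat_lit 99893248)) (I.mix (nat_lit 21364736) (nat_lit 25919488)) (I.mix (nat_lit 18792448) (nat_lit 27099136)) (I.mix (nat_lit 7405568) (nat_lit 9846784)))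
  false (nat_lit 0)
def b2_3 : Bx := Bx.mk (St.mk (I.pos (nat_lit 140574720) (nat_lit 211140608)) (I.mix (nat_lit 37830656) (nat_lit 71794688)) (I.mix (nat_lit 22659072) (nat_lit 112803840)) (I.pos (nat_lit 166264832) (nat_lit 250413056)) (I.mix (nat_lit 130269184) (nat_lit 52133888)) (I.mix (nat_lit 140148736) (nat_lit 68681728)) (I.mix (nat_lit 146931712) (nat_lit 61538304)))
  false (nat_lit 11391054)
def b2_4 : Bx := Bx.mk (St.mk (I.mix (nat_lit 50397184) (nat_lit 71532544)) (I.mix (nat_lit 10289152) (nat_lit 38010880)) (I.mix (nat_lit 7651328) (nat_lit 19529728)) (I.pos (nat_lit 82460672) (nat_lit 108462080)) (I.mix (nat_lit 33783808) (nat_lit 21594112)) (I.mix (nat_lit 28295168) (nat_lit 19546112)) (I.mix (nat_lit 11632640) (nat_lit 9961472)))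
  false (nat_lit 0)
def b2_5 : Bx := Bx.mk (St.mk (I.mix (nat_lit 33374208) (nat_lit 97140736)) (I.mix (nat_lit 6815744) (nat_lit 40386560)) (I.mix (nat_lit 8273920) (nat_lit 24002560)) (I.pos (nat_lit 80363520) (nat_lit 124190720)) (I.mix (nat_lit 36241408) (nat_lit 32784384)) (I.mix (nat_lit 42942464) (nat_lit 25985024)) (I.mix (nat_lit 27197440) (nat_lit 17530880)))
  false (nat_lit 0)
def b2_6 : Bx := Bx.mk (St.mk (I.pos (nat_lit 82182144) (nat_lit 129351680)) (I.mix (nat_lit 63127552) (nat_lit 8044544)) (I.mix (nat_lit 47316992) (nat_lit 3063808)) (I.pos (nat_lit 115245056) (nat_lit 150421504)) (I.mix (nat_lit 70893568) (nat_lit 28377088)) (I.mix (nat_lit 42287104) (nat_lit 73400320)) (I.mix (nat_lit 30408704) (nat_lit 49922048)))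
  false (nat_lit 0)
def b2_7 : Bx := Bx.mk (St.mk (I.mix (nat_lit 46989312) (nat_lit 31391744)) (I.mix (nat_lit 34930688) (nat_lit 5472256)) (I.mix (nat_lit 4947968) (nat_lit 9420800)) (I.pos (nat_lit 82296832) (nat_lit 100204544)) (I.mix (nat_lit 27885568) (nat_lit 23052288)) (I.mix (nat_lit 20217856) (nat_lit 33554432)) (I.mix (nat_lit 12173312) (nat_lit 8257536)))
  false (nat_lit 0)
def t2 : BTr := (BTr.n (BTr.n (BTr.n (BTr.b b2_0) (BTr.b b2_1)) (BTr.n (BTr.b b2_2) (BTr.b b2_3))) (BTr.n (BTr.n (BTr.b b2_4) (BTr.b b2_5)) (BTr.n (BTr.b b2_6) (BTr.b b2_7))))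
namespace T2
def l0 : Tr := Tr.L (Pth.l (Pth.l (Pth.l Pth.z)))
def l1 : Tr := Tr.L (Pth.l (Pth.l (Pth.r Pth.z)))
def l2 : Tr := Tr.L (Pth.l (Pth.r (Pth.l Pth.z)))
def l3 : Tr := Tr.L (Pth.l (Pth.r (Pth.r Pth.z)))
def l4 : Tr := Tr.L (Pth.r (Pth.l (Pth.l Pth.z)))
def l5 : Tr := Tr.L (Pth.r (Pth.l (Pth.r Pth.z)))
def l6 : Tr := Tr.L (Pth.r (Pth.r (Pth.l Pth.z)))
def l7 : Tr := Tr.L (Pth.r (Pth.r (Pth.r Pth.z)))
end T2
theorem bx0_0 : BoxOK sI cl6 cl6 cl9 t0 t2 b0_0 :=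
  box_mk (TrL.c (I.pos (nat_lit 0) (nat_lit 0)) (xa (xb T0.l0 T0.l0) (xb T0.l0 (xa T0.l0 T0.l0)))
  (TrL.c (I.pos (nat_lit 0) (nat_lit 0)) (xa T2.l1 T2.l1)
  (TrL.c (I.pos (nat_lit 0) (nat_lit 89480386)) (xR T0.l1 (xR T0.l1 T0.l1))
  (TrL.c (I.pos (nat_lit 0) (nat_lit 41530880)) T2.l2
  (TrL.c (I.pos (nat_lit 0) (nat_lit 0)) (xa T2.l0 (xb T2.l0 (xa T2.l3 (xs T2.l3 T2.l3))))
  (TrL.c (I.pos (nat_lit 0) (nat_lit 0)) (xa T0.l2 T0.l2)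
  (TrL.c (I.mix (nat_lit 41527258) (nat_lit 41530880)) (xR T2.l4 T2.l5)
  (TrL.c (I.mix (nat_lit 41527258) (nat_lit 4274)) T0.l3
  TrL.n)))))))) (by decide +kernel)
theorem bx0_1 : BoxOK sI cl6 cl6 cl9 t0 t2 b0_1 :=
  box_mk (TrL.c (I.pos (nat_lit 0) (nat_lit 0)) T0.l0
  (TrL.c (I.pos (nat_lit 0) (nat_lit 0)) T2.l1
  (TrL.c (I.pos (nat_lit 0) (nat_lit 89480386)) T0.l1
  (TrL.c (I.pos (nat_lit 0) (nat_lit 41530880)) T2.l2
  (TrL.c (I.pos (nat_lit 0) (nat_lit 0)) T2.l3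
  (TrL.c (I.pos (nat_lit 0) (nat_lit 0)) T0.l2
  (TrL.c (I.mix (nat_lit 41527258) (nat_lit 41530880)) T2.l4
  (TrL.c (I.mix (nat_lit 41527258) (nat_lit 4274)) T0.l3
  TrL.n)))))))) (by decide +kernel)
theorem bx0_2 : BoxOK sI cl6 cl6 cl9 t0 t2 b0_2 :=
  box_mk (TrL.c (I.pos (nat_lit 0) (nat_lit 0)) T0.l0
  (TrL.c (I.pos (nat_lit 0) (nat_lit 0)) T2.l1
  (TrL.c (I.pos (nat_lit 0) (nat_lit 89480386)) T0.l1
  (TrL.c (I.pos (nat_lit 0) (nat_lit 41530880)) T2.l2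
  (TrL.c (I.pos (nat_lit 0) (nat_lit 0)) T2.l3
  (TrL.c (I.pos (nat_lit 0) (nat_lit 0)) T0.l2
  (TrL.c (I.mix (nat_lit 41527258) (nat_lit 41530880)) T2.l4
  (TrL.c (I.mix (nat_lit 41527258) (nat_lit 4274)) T0.l3
  TrL.n)))))))) (by decide +kernel)
theorem bx0_3 : BoxOK sI cl6 cl6 cl9 t0 t2 b0_3 :=
  box_mk (TrL.c (I.pos (nat_lit 0) (nat_lit 0)) T0.l0
  (TrL.c (I.pos (nat_lit 0) (nat_lit 0)) T2.l3
  (TrL.c (I.pos (nat_lit 0) (nat_lit 89480386)) T0.l1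
  (TrL.c (I.pos (nat_lit 0) (nat_lit 41530880)) T2.l4
  (TrL.c (I.pos (nat_lit 0) (nat_lit 0)) T2.l3
  (TrL.c (I.pos (nat_lit 0) (nat_lit 0)) T0.l1
  (TrL.c (I.mix (nat_lit 41527258) (nat_lit 41530880)) (xR T2.l4 T2.l2)
  (TrL.c (I.mix (nat_lit 41527258) (nat_lit 4274)) T0.l3
  TrL.n)))))))) (by decide +kernel)
theorem bx0_4 : BoxOK sI cl6 cl6 cl9 t0 t2 b0_4 :=
  box_mk (TrL.c (I.pos (nat_lit 0) (nat_lit 0)) T0.l0
  (TrL.c (I.pos (nat_lit 0) (nat_lit 0)) T2.l1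
  (TrL.c (I.pos (nat_lit 0) (nat_lit 89480386)) (xR T0.l1 T0.l1)
  (TrL.c (I.pos (nat_lit 0) (nat_lit 41530880)) T2.l2
  (TrL.c (I.pos (nat_lit 0) (nat_lit 0)) T2.l3
  (TrL.c (I.pos (nat_lit 0) (nat_lit 0)) T0.l2
  (TrL.c (I.mix (nat_lit 41527258) (nat_lit 41530880)) T2.l4
  (TrL.c (I.mix (nat_lit 41527258) (nat_lit 4274)) T0.l3
  TrL.n)))))))) (by decide +kernel)
theorem bx0_5 : BoxOK sI cl6 cl6 cl9 t0 t2 b0_5 :=
  box_mk (TrL.c (I.pos (nat_lit 0) (nat_lit 0)) T0.l0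
  (TrL.c (I.pos (nat_lit 0) (nat_lit 0)) T2.l1
  (TrL.c (I.pos (nat_lit 0) (nat_lit 89480386)) T0.l1
  (TrL.c (I.pos (nat_lit 0) (nat_lit 41530880)) T2.l2
  (TrL.c (I.pos (nat_lit 0) (nat_lit 0)) T2.l3
  (TrL.c (I.pos (nat_lit 0) (nat_lit 0)) T0.l2
  (TrL.c (I.mix (nat_lit 41527258) (nat_lit 41530880)) T2.l4
  (TrL.c (I.mix (nat_lit 41527258) (nat_lit 4274)) T0.l3
  TrL.n)))))))) (by decide +kernel)
theorem bx0_6 : BoxOK sI cl6 cl6 cl9 t0 t2 b0_6 :=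
  box_mk (TrL.c (I.pos (nat_lit 0) (nat_lit 0)) T0.l0
  (TrL.c (I.pos (nat_lit 0) (nat_lit 0)) T2.l1
  (TrL.c (I.pos (nat_lit 0) (nat_lit 89480386)) T0.l1
  (TrL.c (I.pos (nat_lit 0) (nat_lit 41530880)) T2.l2
  (TrL.c (I.pos (nat_lit 0) (nat_lit 0)) T2.l3
  (TrL.c (I.pos (nat_lit 0) (nat_lit 0)) T0.l2
  (TrL.c (I.mix (nat_lit 41527258) (nat_lit 41530880)) T2.l4
  (TrL.c (I.mix (nat_lit 41527258) (nat_lit 4274)) T0.l3
  TrL.n)))))))) (by decide +kernel)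
theorem bx0_7 : BoxOK sI cl6 cl6 cl9 t0 t2 b0_7 :=
  box_mk (TrL.c (I.pos (nat_lit 0) (nat_lit 0)) (xb (xa T0.l0 T0.l0) (xa T0.l0 T0.l0))
  (TrL.c (I.pos (nat_lit 0) (nat_lit 0)) T2.l1
  (TrL.c (I.pos (nat_lit 0) (nat_lit 89480386)) (xR T0.l1 T0.l1)
  (TrL.c (I.pos (nat_lit 0) (nat_lit 41530880)) T2.l2
  (TrL.c (I.pos (nat_lit 0) (nat_lit 0)) T2.l3
  (TrL.c (I.pos (nat_lit 0) (nat_lit 0)) T0.l2
  (TrL.c (I.mix (nat_lit 41527258) (nat_lit 41530880)) (xR T2.l4 T2.l5)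
  (TrL.c (I.mix (nat_lit 41527258) (nat_lit 4274)) T0.l3
  TrL.n)))))))) (by decide +kernel)
theorem sv0 : StarV sI cl6 cl6 cl9 t0 t2 t0 :=
  (bt_n (bt_n (bt_n (bt_b bx0_0) (bt_b bx0_1)) (bt_n (bt_b bx0_2) (bt_b bx0_3))) (bt_n (bt_n (bt_b bx0_4) (bt_b bx0_5)) (bt_n (bt_b bx0_6) (bt_b bx0_7))))
def S0 : StarD := StarD.mk cl6 cl6 cl9 0 2 t0
theorem bx1_0 : BoxOK sI cl6 cl9 cl6 t2 t0 b1_0 :=
  box_mk (TrL.c (I.pos (nat_lit 0) (nat_lit 0)) (xa T2.l0 (xa T2.l0 T2.l0))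
  (TrL.c (I.pos (nat_lit 0) (nat_lit 0)) (xa T0.l4 (xb T0.l4 T0.l4))
  (TrL.c (I.pos (nat_lit 0) (nat_lit 89480386)) (xR T2.l5 (xR T2.l5 T2.l5))
  (TrL.c (I.pos (nat_lit 0) (nat_lit 41530880)) T0.l5
  (TrL.c (I.pos (nat_lit 0) (nat_lit 0)) (xa T0.l7 (xb (xa T0.l7 T0.l7) (xa T0.l7 (xa T0.l7 T0.l7))))
  (TrL.c (I.pos (nat_lit 0) (nat_lit 0)) (xa T2.l6 T2.l6)
  (TrL.c (I.mix (nat_lit 41527258) (nat_lit 41530880)) (xR T0.l6 T0.l6)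
  (TrL.c (I.mix (nat_lit 41527258) (nat_lit 4274)) T2.l7
  TrL.n)))))))) (by decide +kernel)
theorem bx1_1 : BoxOK sI cl6 cl9 cl6 t2 t0 b1_1 :=
  box_mk (TrL.c (I.pos (nat_lit 0) (nat_lit 0)) T2.l0
  (TrL.c (I.pos (nat_lit 0) (nat_lit 0)) T0.l4
  (TrL.c (I.pos (nat_lit 0) (nat_lit 89480386)) (xR T2.l5 T2.l5)
  (TrL.c (I.pos (nat_lit 0) (nat_lit 41530880)) T0.l5
  (TrL.c (I.pos (nat_lit 0) (nat_lit 0)) T0.l7
  (TrL.c (I.pos (nat_lit 0) (nat_lit 0)) T2.l6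
  (TrL.c (I.mix (nat_lit 41527258) (nat_lit 41530880)) T0.l6
  (TrL.c (I.mix (nat_lit 41527258) (nat_lit 4274)) T2.l7
  TrL.n)))))))) (by decide +kernel)
theorem bx1_2 : BoxOK sI cl6 cl9 cl6 t2 t0 b1_2 :=
  box_mk (TrL.c (I.pos (nat_lit 0) (nat_lit 0)) T2.l0
  (TrL.c (I.pos (nat_lit 0) (nat_lit 0)) T0.l4
  (TrL.c (I.pos (nat_lit 0) (nat_lit 89480386)) T2.l5
  (TrL.c (I.pos (nat_lit 0) (nat_lit 41530880)) T0.l5
  (TrL.c (I.pos (nat_lit 0) (nat_lit 0)) T0.l7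
  (TrL.c (I.pos (nat_lit 0) (nat_lit 0)) T2.l6
  (TrL.c (I.mix (nat_lit 41527258) (nat_lit 41530880)) (xR T0.l6 T0.l1)
  (TrL.c (I.mix (nat_lit 41527258) (nat_lit 4274)) T2.l7
  TrL.n)))))))) (by decide +kernel)
theorem bx1_3 : BoxOK sI cl6 cl9 cl6 t2 t0 b1_3 :=
  box_mk (TrL.c (I.pos (nat_lit 0) (nat_lit 0)) (xa T2.l0 T2.l0)
  (TrL.c (I.pos (nat_lit 0) (nat_lit 0)) T0.l4
  (TrL.c (I.pos (nat_lit 0) (nat_lit 89480386)) T2.l5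
  (TrL.c (I.pos (nat_lit 0) (nat_lit 41530880)) T0.l5
  (TrL.c (I.pos (nat_lit 0) (nat_lit 0)) T0.l7
  (TrL.c (I.pos (nat_lit 0) (nat_lit 0)) T2.l6
  (TrL.c (I.mix (nat_lit 41527258) (nat_lit 41530880)) (xR T0.l6 T0.l1)
  (TrL.c (I.mix (nat_lit 41527258) (nat_lit 4274)) T2.l7
  TrL.n)))))))) (by decide +kernel)
theorem bx1_4 : BoxOK sI cl6 cl9 cl6 t2 t0 b1_4 :=
  box_mk (TrL.c (I.pos (nat_lit 0) (nat_lit 0)) (xb T2.l0 (xa T2.l0 T2.l0))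
  (TrL.c (I.pos (nat_lit 0) (nat_lit 0)) (xb T0.l4 T0.l4)
  (TrL.c (I.pos (nat_lit 0) (nat_lit 89480386)) (xR T2.l5 T2.l5)
  (TrL.c (I.pos (nat_lit 0) (nat_lit 41530880)) T0.l5
  (TrL.c (I.pos (nat_lit 0) (nat_lit 0)) (xb T0.l7 T0.l7)
  (TrL.c (I.pos (nat_lit 0) (nat_lit 0)) T2.l6
  (TrL.c (I.mix (nat_lit 41527258) (nat_lit 41530880)) (xR T0.l6 T0.l6)
  (TrL.c (I.mix (nat_lit 41527258) (nat_lit 4274)) T2.l7
  TrL.n)))))))) (by decide +kernel)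
theorem bx1_5 : BoxOK sI cl6 cl9 cl6 t2 t0 b1_5 :=
  box_mk (TrL.c (I.pos (nat_lit 0) (nat_lit 0)) T2.l0
  (TrL.c (I.pos (nat_lit 0) (nat_lit 0)) T0.l4
  (TrL.c (I.pos (nat_lit 0) (nat_lit 89480386)) T2.l5
  (TrL.c (I.pos (nat_lit 0) (nat_lit 41530880)) T0.l5
  (TrL.c (I.pos (nat_lit 0) (nat_lit 0)) T0.l7
  (TrL.c (I.pos (nat_lit 0) (nat_lit 0)) T2.l6
  (TrL.c (I.mix (nat_lit 41527258) (nat_lit 41530880)) T0.l6
  (TrL.c (I.mix (nat_lit 41527258) (nat_lit 4274)) T2.l7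
  TrL.n)))))))) (by decide +kernel)
theorem bx1_6 : BoxOK sI cl6 cl9 cl6 t2 t0 b1_6 :=
  box_mk (TrL.c (I.pos (nat_lit 0) (nat_lit 0)) T2.l0
  (TrL.c (I.pos (nat_lit 0) (nat_lit 0)) T0.l4
  (TrL.c (I.pos (nat_lit 0) (nat_lit 89480386)) T2.l5
  (TrL.c (I.pos (nat_lit 0) (nat_lit 41530880)) T0.l5
  (TrL.c (I.pos (nat_lit 0) (nat_lit 0)) T0.l7
  (TrL.c (I.pos (nat_lit 0) (nat_lit 0)) T2.l6
  (TrL.c (I.mix (nat_lit 41527258) (nat_lit 41530880)) (xR T0.l6 T0.l1)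
  (TrL.c (I.mix (nat_lit 41527258) (nat_lit 4274)) T2.l7
  TrL.n)))))))) (by decide +kernel)
theorem bx1_7 : BoxOK sI cl6 cl9 cl6 t2 t0 b1_7 :=
  box_mk (TrL.c (I.pos (nat_lit 0) (nat_lit 0)) T2.l0
  (TrL.c (I.pos (nat_lit 0) (nat_lit 0)) T0.l4
  (TrL.c (I.pos (nat_lit 0) (nat_lit 89480386)) T2.l5
  (TrL.c (I.pos (nat_lit 0) (nat_lit 41530880)) T0.l5
  (TrL.c (I.pos (nat_lit 0) (nat_lit 0)) T0.l7
  (TrL.c (I.pos (nat_lit 0) (nat_lit 0)) T2.l6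
  (TrL.c (I.mix (nat_lit 41527258) (nat_lit 41530880)) (xR T0.l6 T0.l1)
  (TrL.c (I.mix (nat_lit 41527258) (nat_lit 4274)) T2.l7
  TrL.n)))))))) (by decide +kernel)
theorem sv1 : StarV sI cl6 cl9 cl6 t2 t0 t1 :=
  (bt_n (bt_n (bt_n (bt_b bx1_0) (bt_b bx1_1)) (bt_n (bt_b bx1_2) (bt_b bx1_3))) (bt_n (bt_n (bt_b bx1_4) (bt_b bx1_5)) (bt_n (bt_b bx1_6) (bt_b bx1_7))))
def S1 : StarD := StarD.mk cl6 cl9 cl6 2 0 t1
theorem bx2_0 : BoxOK sI cl9 cl6 cl6 t1 t1 b2_0 :=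
  box_mk (TrL.c (I.pos (nat_lit 0) (nat_lit 0)) (xa (xa T1.l0 T1.l0) (xa T1.l0 T1.l0))
  (TrL.c (I.pos (nat_lit 0) (nat_lit 0)) (xa T1.l1 (xk T1.l1 T1.l1))
  (TrL.c (I.pos (nat_lit 0) (nat_lit 124588530)) (xR T1.l2 (xR T1.l2 T1.l2))
  (TrL.c (I.pos (nat_lit 0) (nat_lit 96881482)) (xR T1.l3 T1.l3)
  (TrL.c (I.pos (nat_lit 0) (nat_lit 0)) (xa (xb T1.l4 T1.l4) (xa (xb T1.l4 T1.l4) (xb (xk T1.l4 T1.l4) (xk (xs T1.l4 (xa T1.l4 T1.l4)) (xs T1.l4 (xk T1.l4 (xa T1.l4 (xb T1.l4 T1.l4))))))))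
  (TrL.c (I.pos (nat_lit 0) (nat_lit 0)) (xa T1.l5 T1.l5)
  (TrL.c (I.mix (nat_lit 17240550) (nat_lit 96881482)) (xR T1.l6 (xR T1.l6 T1.l6))
  (TrL.c (I.mix (nat_lit 17240550) (nat_lit 71940500)) (xR T1.l7 T1.l7)
  TrL.n)))))))) (by decide +kernel)
theorem bx2_1 : BoxOK sI cl9 cl6 cl6 t1 t1 b2_1 :=
  box_mk (TrL.c (I.pos (nat_lit 0) (nat_lit 0)) T1.l0
  (TrL.c (I.pos (nat_lit 0) (nat_lit 0)) T1.l1
  (TrL.c (I.pos (nat_lit 0) (nat_lit 124588530)) T1.l2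
  (TrL.c (I.pos (nat_lit 0) (nat_lit 96881482)) T1.l3
  (TrL.c (I.pos (nat_lit 0) (nat_lit 0)) T1.l4
  (TrL.c (I.pos (nat_lit 0) (nat_lit 0)) T1.l5
  (TrL.c (I.mix (nat_lit 17240550) (nat_lit 96881482)) T1.l6
  (TrL.c (I.mix (nat_lit 17240550) (nat_lit 71940500)) T1.l7
  TrL.n)))))))) (by decide +kernel)
theorem bx2_2 : BoxOK sI cl9 cl6 cl6 t1 t1 b2_2 :=
  box_mk (TrL.c (I.pos (nat_lit 0) (nat_lit 0)) T1.l0
  (TrL.c (I.pos (nat_lit 0) (nat_lit 0)) T1.l1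
  (TrL.c (I.pos (nat_lit 0) (nat_lit 124588530)) T1.l2
  (TrL.c (I.pos (nat_lit 0) (nat_lit 96881482)) T1.l6
  (TrL.c (I.pos (nat_lit 0) (nat_lit 0)) T1.l4
  (TrL.c (I.pos (nat_lit 0) (nat_lit 0)) T1.l5
  (TrL.c (I.mix (nat_lit 17240550) (nat_lit 96881482)) T1.l6
  (TrL.c (I.mix (nat_lit 17240550) (nat_lit 71940500)) T1.l2
  TrL.n)))))))) (by decide +kernel)
theorem bx2_3 : BoxOK sI cl9 cl6 cl6 t1 t1 b2_3 :=
  box_mk (TrL.c (I.pos (nat_lit 0) (nat_lit 0)) (xb T1.l0 (xa T1.l0 T1.l0))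
  (TrL.c (I.pos (nat_lit 0) (nat_lit 0)) (xb T1.l1 T1.l1)
  (TrL.c (I.pos (nat_lit 0) (nat_lit 124588530)) (xR T1.l2 (xR T1.l2 T1.l2))
  (TrL.c (I.pos (nat_lit 0) (nat_lit 96881482)) (xR T1.l3 T1.l3)
  (TrL.c (I.pos (nat_lit 0) (nat_lit 0)) (xb T1.l4 T1.l4)
  (TrL.c (I.pos (nat_lit 0) (nat_lit 0)) T1.l5
  (TrL.c (I.mix (nat_lit 17240550) (nat_lit 96881482)) (xR T1.l6 T1.l6)
  (TrL.c (I.mix (nat_lit 17240550) (nat_lit 71940500)) T1.l7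
  TrL.n)))))))) (by decide +kernel)
theorem bx2_4 : BoxOK sI cl9 cl6 cl6 t1 t1 b2_4 :=
  box_mk (TrL.c (I.pos (nat_lit 0) (nat_lit 0)) T1.l0
  (TrL.c (I.pos (nat_lit 0) (nat_lit 0)) T1.l1
  (TrL.c (I.pos (nat_lit 0) (nat_lit 124588530)) T1.l2
  (TrL.c (I.pos (nat_lit 0) (nat_lit 96881482)) (xR T1.l3 T1.l3)
  (TrL.c (I.pos (nat_lit 0) (nat_lit 0)) T1.l4
  (TrL.c (I.pos (nat_lit 0) (nat_lit 0)) T1.l5
  (TrL.c (I.mix (nat_lit 17240550) (nat_lit 96881482)) T1.l6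
  (TrL.c (I.mix (nat_lit 17240550) (nat_lit 71940500)) T1.l6
  TrL.n)))))))) (by decide +kernel)
theorem bx2_5 : BoxOK sI cl9 cl6 cl6 t1 t1 b2_5 :=
  box_mk (TrL.c (I.pos (nat_lit 0) (nat_lit 0)) T1.l0
  (TrL.c (I.pos (nat_lit 0) (nat_lit 0)) T1.l1
  (TrL.c (I.pos (nat_lit 0) (nat_lit 124588530)) T1.l2
  (TrL.c (I.pos (nat_lit 0) (nat_lit 96881482)) T1.l3
  (TrL.c (I.pos (nat_lit 0) (nat_lit 0)) T1.l4
  (TrL.c (I.pos (nat_lit 0) (nat_lit 0)) T1.l5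
  (TrL.c (I.mix (nat_lit 17240550) (nat_lit 96881482)) T1.l6
  (TrL.c (I.mix (nat_lit 17240550) (nat_lit 71940500)) T1.l6
  TrL.n)))))))) (by decide +kernel)
theorem bx2_6 : BoxOK sI cl9 cl6 cl6 t1 t1 b2_6 :=
  box_mk (TrL.c (I.pos (nat_lit 0) (nat_lit 0)) T1.l0
  (TrL.c (I.pos (nat_lit 0) (nat_lit 0)) T1.l1
  (TrL.c (I.pos (nat_lit 0) (nat_lit 124588530)) T1.l2
  (TrL.c (I.pos (nat_lit 0) (nat_lit 96881482)) T1.l3
  (TrL.c (I.pos (nat_lit 0) (nat_lit 0)) T1.l4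
  (TrL.c (I.pos (nat_lit 0) (nat_lit 0)) T1.l5
  (TrL.c (I.mix (nat_lit 17240550) (nat_lit 96881482)) T1.l6
  (TrL.c (I.mix (nat_lit 17240550) (nat_lit 71940500)) T1.l7
  TrL.n)))))))) (by decide +kernel)
theorem bx2_7 : BoxOK sI cl9 cl6 cl6 t1 t1 b2_7 :=
  box_mk (TrL.c (I.pos (nat_lit 0) (nat_lit 0)) T1.l0
  (TrL.c (I.pos (nat_lit 0) (nat_lit 0)) T1.l4
  (TrL.c (I.pos (nat_lit 0) (nat_lit 124588530)) T1.l2
  (TrL.c (I.pos (nat_lit 0) (nat_lit 96881482)) T1.l6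
  (TrL.c (I.pos (nat_lit 0) (nat_lit 0)) T1.l4
  (TrL.c (I.pos (nat_lit 0) (nat_lit 0)) T1.l2
  (TrL.c (I.mix (nat_lit 17240550) (nat_lit 96881482)) T1.l6
  (TrL.c (I.mix (nat_lit 17240550) (nat_lit 71940500)) T1.l6
  TrL.n)))))))) (by decide +kernel)
theorem sv2 : StarV sI cl9 cl6 cl6 t1 t1 t2 :=
  (bt_n (bt_n (bt_n (bt_b bx2_0) (bt_b bx2_1)) (bt_n (bt_b bx2_2) (bt_b bx2_3))) (bt_n (bt_n (bt_b bx2_4) (bt_b bx2_5)) (bt_n (bt_b bx2_6) (bt_b bx2_7))))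
def S2 : StarD := StarD.mk cl9 cl6 cl6 1 1 t2
def G : List StarD := [S0, S1, S2]
theorem so0 : StarOK sI G S0 :=
  star_mk (by decide) (by decide) rfl rfl rfl rfl rfl rfl (rfl : _ = t0) (rfl : _ = t2)
  (st_mk (Pth.l (Pth.l (Pth.l Pth.z))) (nat_lit 188209518) (nat_lit 189047626) (by decide +kernel))
  (st_mk (Pth.l (Pth.l (Pth.l Pth.z))) (nat_lit 223980534) (nat_lit 225170687) (by decide +kernel))
  (st_mk (Pth.l (Pth.l (Pth.l Pth.z))) (nat_lit 265449495) (nat_lit 267129121) (by decide +kernel)) sv0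
theorem so1 : StarOK sI G S1 :=
  star_mk (by decide) (by decide) rfl rfl rfl rfl rfl rfl (rfl : _ = t2) (rfl : _ = t0)
  (st_mk (Pth.l (Pth.l (Pth.l Pth.z))) (nat_lit 116114328) (nat_lit 134782981) (by decide +kernel))
  (st_mk (Pth.l (Pth.l (Pth.l Pth.z))) (nat_lit 151730145) (nat_lit 170746732) (by decide +kernel))
  (st_mk (Pth.l (Pth.l (Pth.l Pth.z))) (nat_lit 193068635) (nat_lit 212570723) (by decide +kernel)) sv1
theorem so2 : StarOK sI G S2 :=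
  star_mk (by decide) (by decide) rfl rfl rfl rfl rfl rfl (rfl : _ = t1) (rfl : _ = t1)
  (st_mk (Pth.l (Pth.l (Pth.l Pth.z))) (nat_lit 186405113) (nat_lit 187748915) (by decide +kernel))
  (st_mk (Pth.l (Pth.l (Pth.l Pth.z))) (nat_lit 221533176) (nat_lit 223210694) (by decide +kernel))
  (st_mk (Pth.l (Pth.l (Pth.l Pth.z))) (nat_lit 262115446) (nat_lit 264252030) (by decide +kernel)) sv2
theorem ok : GroupOK (nat_lit 0) (nat_lit 91291648) G := grp_mk (allS_c so0 (allS_c so1 (allS_c so2 allS_n)))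
theorem cov : GCov G cl6 cl6 cl9 := cov_mk
  ⟨0, by decide, rfl, rfl, rfl⟩ ⟨1, by decide, rfl, rfl, rfl⟩ ⟨0, by decide, rfl, rfl, rfl⟩ ⟨1, by decide, rfl, rfl, rfl⟩ ⟨2, by decide, rfl, rfl, rfl⟩ ⟨2, by decide, rfl, rfl, rfl⟩
end Q335_0

namespace Q335_1
def sI : I := I.pos (nat_lit 91226112) (nat_lit 150339584)
def b0_0 : Bx := Bx.mk (St.mk (I.pos (nat_lit 156778496) (nat_lit 289161216)) (I.mix (nat_lit 32735232) (nat_lit 64241664)) (I.mix (nat_lit 111394816) (nat_lit 86654976)) (I.pos (nat_lit 181780480) (nat_lit 406372352)) (I.mix (nat_lit 109215744) (nat_lit 74498048)) (I.mix (nat_lit 85901312) (nat_lit 60751872)) (I.mix (nat_lit 136511488) (nat_lit 95584256)))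
  false (nat_lit 33206028)
def b0_1 : Bx := Bx.mk (St.mk (I.mix (nat_lit 40239104) (nat_lit 101662720)) (I.mix (nat_lit 12091392) (nat_lit 44548096)) (I.mix (nat_lit 23543808) (nat_lit 12140544)) (I.pos (nat_lit 75087872) (nat_lit 127008768)) (I.mix (nat_lit 42336256) (nat_lit 44843008)) (I.mix (nat_lit 42172416) (nat_lit 32980992)) (I.mix (nat_lit 27377664) (nat_lit 18841600)))
  false (nat_lit 0)
def b0_2 : Bx := Bx.mk (St.mk (I.pos (nat_lit 76922880) (nat_lit 124190720)) (I.mix (nat_lit 61472768) (nat_lit 10747904)) (I.neg (nat_lit 5636096) (nat_lit 60653568)) (I.pos (nat_lit 110624768) (nat_lit 147734528)) (I.mix (nat_lit 89374720) (nat_lit 32522240)) (I.mix (nat_lit 44531712) (nat_lit 78708736)) (I.mix (nat_lit 31473664) (nat_lit 55427072)))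
  false (nat_lit 0)
def b0_3 : Bx := Bx.mk (St.mk (I.mix (nat_lit 51412992) (nat_lit 31834112)) (I.mix (nat_lit 37732352) (nat_lit 9617408)) (I.mix (nat_lit 15499264) (nat_lit 360448)) (I.pos (nat_lit 81969152) (nat_lit 101138432)) (I.mix (nat_lit 32899072) (nat_lit 22347776)) (I.mix (nat_lit 19906560) (nat_lit 30179328)) (I.mix (nat_lit 11223040) (nat_lit 7503872)))
  false (nat_lit 0)
def b0_4 : Bx := Bx.mk (St.mk (I.pos (nat_lit 83001344) (nat_lit 165380096)) (I.neg (nat_lit 2195456) (nat_lit 68108288)) (I.neg (nat_lit 5423104) (nat_lit 67682304)) (I.pos (nat_lit 122224640) (nat_lit 192856064)) (I.mix (nat_lit 95158272) (nat_lit 49840128)) (I.mix (nat_lit 42467328) (nat_lit 73400320)) (I.mix (nat_lit 33619968) (nat_lit 64258048)))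
  false (nat_lit 0)
def b0_5 : Bx := Bx.mk (St.mk (I.mix (nat_lit 36880384) (nat_lit 49790976)) (I.mix (nat_lit 37814272) (nat_lit 7028736)) (I.neg (nat_lit 1425408) (nat_lit 18432000)) (I.pos (nat_lit 81133568) (nat_lit 101662720)) (I.mix (nat_lit 33275904) (nat_lit 29851648)) (I.mix (nat_lit 21823488) (nat_lit 34373632)) (I.mix (nat_lit 10354688) (nat_lit 12877824)))
  false (nat_lit 0)
def b0_6 : Bx := Bx.mk (St.mk (I.mix (nat_lit 51019776) (nat_lit 79003648)) (I.mix (nat_lit 10862592) (nat_lit 41402368)) (I.mix (nat_lit 21348352) (nat_lit 9732096)) (I.pos (nat_lit 80838656) (nat_lit 111624192)) (I.mix (nat_lit 41009152) (nat_lit 44761088)) (I.mix (nat_lit 43909120) (nat_lit 32210944)) (I.mix (nat_lit 16957440) (nat_lit 17104896)))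
  false (nat_lit 0)
def b0_7 : Bx := Bx.mk (St.mk (I.pos (nat_lit 136790016) (nat_lit 212828160)) (I.mix (nat_lit 43433984) (nat_lit 67534848)) (I.mix (nat_lit 46661632) (nat_lit 86851584)) (I.pos (nat_lit 160841728) (nat_lit 261341184)) (I.mix (nat_lit 130613248) (nat_lit 69566464)) (I.mix (nat_lit 128827392) (nat_lit 83099648)) (I.mix (nat_lit 126271488) (nat_lit 80314368)))
  false (nat_lit 10417535)
def t0 : BTr := (BTr.n (BTr.n (BTr.n (BTr.b b0_0) (BTr.b b0_1)) (BTr.n (BTr.b b0_2) (BTr.b b0_3))) (BTr.n (BTr.n (BTr.b b0_4) (BTr.b b0_5)) (BTr.n (BTr.b b0_6) (BTr.b b0_7))))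
namespace T0
def l0 : Tr := Tr.L (Pth.l (Pth.l (Pth.l Pth.z)))
def l1 : Tr := Tr.L (Pth.l (Pth.l (Pth.r Pth.z)))
def l2 : Tr := Tr.L (Pth.l (Pth.r (Pth.l Pth.z)))
def l3 : Tr := Tr.L (Pth.l (Pth.r (Pth.r Pth.z)))
def l4 : Tr := Tr.L (Pth.r (Pth.l (Pth.l Pth.z)))
def l5 : Tr := Tr.L (Pth.r (Pth.l (Pth.r Pth.z)))
def l6 : Tr := Tr.L (Pth.r (Pth.r (Pth.l Pth.z)))
def l7 : Tr := Tr.L (Pth.r (Pth.r (Pth.r Pth.z)))
end T0
def b1_0 : Bx := Bx.mk (St.mk (I.pos (nat_lit 156909568) (nat_lit 284721152)) (I.mix (nat_lit 29474816) (nat_lit 52756480)) (I.mix (nat_lit 69615616) (nat_lit 92127232)) (I.pos (nat_lit 109756416) (nat_lit 347340800)) (I.mix (nat_lit 98304000) (nat_lit 72105984)) (I.mix (nat_lit 87556096) (nat_lit 65781760)) (I.mix (nat_lit 140296192) (nat_lit 89063424)))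
  false (nat_lit 4948868)
def b1_1 : Bx := Bx.mk (St.mk (I.pos (nat_lit 103858176) (nat_lit 183058432)) (I.mix (nat_lit 64602112) (nat_lit 3145728)) (I.mix (nat_lit 63127552) (nat_lit 3031040)) (I.pos (nat_lit 80543744) (nat_lit 162496512)) (I.mix (nat_lit 95256576) (nat_lit 47480832)) (I.mix (nat_lit 47841280) (nat_lit 76496896)) (I.mix (nat_lit 38191104) (nat_lit 69402624)))
  false (nat_lit 0)
def b1_2 : Bx := Bx.mk (St.mk (I.mix (nat_lit 17350656) (nat_lit 135348224)) (I.mix (nat_lit 9895936) (nat_lit 30375936)) (I.mix (nat_lit 12222464) (nat_lit 24772608)) (I.pos (nat_lit 15171584) (nat_lit 102612992)) (I.mix (nat_lit 43204608) (nat_lit 30851072)) (I.mix (nat_lit 35061760) (nat_lit 23494656)) (I.mix (nat_lit 28327936) (nat_lit 18038784)))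
  false (nat_lit 0)
def b1_3 : Bx := Bx.mk (St.mk (I.mix (nat_lit 31178752) (nat_lit 111984640)) (I.mix (nat_lit 31604736) (nat_lit 5636096)) (I.mix (nat_lit 21200896) (nat_lit 4751360)) (I.pos (nat_lit 15024128) (nat_lit 77807616)) (I.mix (nat_lit 38043648) (nat_lit 27000832)) (I.mix (nat_lit 22986752) (nat_lit 30752768)) (I.mix (nat_lit 14401536) (nat_lit 19660800)))
  false (nat_lit 0)
def b1_4 : Bx := Bx.mk (St.mk (I.pos (nat_lit 145489920) (nat_lit 217874432)) (I.mix (nat_lit 40337408) (nat_lit 57294848)) (I.mix (nat_lit 37601280) (nat_lit 94633984)) (I.pos (nat_lit 109772800) (nat_lit 213368832)) (I.mix (nat_lit 136445952) (nat_lit 63291392)) (I.mix (nat_lit 143720448) (nat_lit 85278720)) (I.mix (nat_lit 166936576) (nat_lit 92078080)))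
  false (nat_lit 0)
def b1_5 : Bx := Bx.mk (St.mk (I.pos (nat_lit 105840640) (nat_lit 156401664)) (I.mix (nat_lit 57393152) (nat_lit 8503296)) (I.mix (nat_lit 56573952) (nat_lit 5586944)) (I.pos (nat_lit 62783488) (nat_lit 126435328)) (I.mix (nat_lit 97648640) (nat_lit 37273600)) (I.mix (nat_lit 51740672) (nat_lit 93880320)) (I.mix (nat_lit 39960576) (nat_lit 76480512)))
  false (nat_lit 0)
def b1_6 : Bx := Bx.mk (St.mk (I.mix (nat_lit 24952832) (nat_lit 124895232)) (I.mix (nat_lit 13762560) (nat_lit 36487168)) (I.mix (nat_lit 8847360) (nat_lit 28573696)) (I.pos (nat_lit 15745024) (nat_lit 92356608)) (I.mix (nat_lit 56115200) (nat_lit 28950528)) (I.mix (nat_lit 51625984) (nat_lit 33980416)) (I.mix (nat_lit 33030144) (nat_lit 21921792)))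
  false (nat_lit 0)
def b1_7 : Bx := Bx.mk (St.mk (I.mix (nat_lit 19398656) (nat_lit 102465536)) (I.mix (nat_lit 27525120) (nat_lit 278528)) (I.mix (nat_lit 16826368) (nat_lit 2326528)) (I.pos (nat_lit 16400384) (nat_lit 71335936)) (I.mix (nat_lit 37961728) (nat_lit 23592960)) (I.mix (nat_lit 24788992) (nat_lit 32800768)) (I.mix (nat_lit 12943360) (nat_lit 16891904)))
  false (nat_lit 0)
def t1 : BTr := (BTr.n (BTr.n (BTr.n (BTr.b b1_0) (BTr.b b1_1)) (BTr.n (BTr.b b1_2) (BTr.b b1_3))) (BTr.n (BTr.n (BTr.b b1_4) (BTr.b b1_5)) (BTr.n (BTr.b b1_6) (BTr.b b1_7))))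
namespace T1
def l0 : Tr := Tr.L (Pth.l (Pth.l (Pth.l Pth.z)))
def l1 : Tr := Tr.L (Pth.l (Pth.l (Pth.r Pth.z)))
def l2 : Tr := Tr.L (Pth.l (Pth.r (Pth.l Pth.z)))
def l3 : Tr := Tr.L (Pth.l (Pth.r (Pth.r Pth.z)))
def l4 : Tr := Tr.L (Pth.r (Pth.l (Pth.l Pth.z)))
def l5 : Tr := Tr.L (Pth.r (Pth.l (Pth.r Pth.z)))
def l6 : Tr := Tr.L (Pth.r (Pth.r (Pth.l Pth.z)))
def l7 : Tr := Tr.L (Pth.r (Pth.r (Pth.r Pth.z)))
end T1
def b2_0 : Bx := Bx.mk (St.mk (I.pos (nat_lit 156844032) (nat_lit 287080448)) (I.mix (nat_lit 27705344) (nat_lit 61423616)) (I.mix (nat_lit 63094784) (nat_lit 105873408)) (I.pos (nat_lit 179945472) (nat_lit 395919360)) (I.mix (nat_lit 105840640) (nat_lit 85262336)) (I.mix (nat_lit 105005056) (nat_lit 74727424)) (I.mix (nat_lit 159301632) (nat_lit 98975744)))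
  false (nat_lit 54682322)
def b2_1 : Bx := Bx.mk (St.mk (I.pos (nat_lit 90210304) (nat_lit 169525248)) (I.neg (nat_lit 7798784) (nat_lit 68550656)) (I.mix (nat_lit 53936128) (nat_lit 9093120)) (I.pos (nat_lit 128188416) (nat_lit 196411392)) (I.mix (nat_lit 85458944) (nat_lit 46383104)) (I.mix (nat_lit 37535744) (nat_lit 61128704)) (I.mix (nat_lit 32440320) (nat_lit 52543488)))
  false (nat_lit 0)
def b2_2 : Bx := Bx.mk (St.mk (I.mix (nat_lit 33341440) (nat_lit 51478528)) (I.mix (nat_lit 37830656) (nat_lit 8126464)) (I.mix (nat_lit 8290304) (nat_lit 8486912)) (I.pos (nat_lit 82182144) (nat_lit 100958208)) (I.mix (nat_lit 26640384) (nat_lit 30326784)) (I.mix (nat_lit 20529152) (nat_lit 28344320)) (I.mix (nat_lit 8077312) (nat_lit 10223616)))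
  false (nat_lit 0)
def b2_3 : Bx := Bx.mk (St.mk (I.pos (nat_lit 137707520) (nat_lit 208191488)) (I.mix (nat_lit 37502976) (nat_lit 66109440)) (I.mix (nat_lit 22347776) (nat_lit 106692608)) (I.pos (nat_lit 160841728) (nat_lit 250445824)) (I.mix (nat_lit 140083200) (nat_lit 66093056)) (I.mix (nat_lit 139821056) (nat_lit 79511552)) (I.mix (nat_lit 144490496) (nat_lit 73990144)))
  false (nat_lit 48729335)
def b2_4 : Bx := Bx.mk (St.mk (I.mix (nat_lit 52740096) (nat_lit 76513280)) (I.mix (nat_lit 11436032) (nat_lit 41877504)) (I.mix (nat_lit 8634368) (nat_lit 20119552)) (I.pos (nat_lit 81903616) (nat_lit 110395392)) (I.mix (nat_lit 42860544) (nat_lit 29229056)) (I.mix (nat_lit 32325632) (nat_lit 23134208)) (I.mix (nat_lit 13336576) (nat_lit 12632064)))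
  false (nat_lit 0)
def b2_5 : Bx := Bx.mk (St.mk (I.mix (nat_lit 46186496) (nat_lit 98697216)) (I.mix (nat_lit 8290304) (nat_lit 43909120)) (I.mix (nat_lit 9093120) (nat_lit 25739264)) (I.pos (nat_lit 72810496) (nat_lit 125206528)) (I.mix (nat_lit 50413568) (nat_lit 43401216)) (I.mix (nat_lit 48889856) (nat_lit 33161216)) (I.mix (nat_lit 30703616) (nat_lit 22511616)))
  false (nat_lit 0)
def b2_6 : Bx := Bx.mk (St.mk (I.pos (nat_lit 78610432) (nat_lit 129236992)) (I.mix (nat_lit 63193088) (nat_lit 8929280)) (I.mix (nat_lit 48037888) (nat_lit 3358720)) (I.pos (nat_lit 112459776) (nat_lit 151830528)) (I.mix (nat_lit 81575936) (nat_lit 37093376)) (I.mix (nat_lit 45760512) (nat_lit 70860800)) (I.mix (nat_lit 32096256) (nat_lit 47382528)))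
  false (nat_lit 0)
def b2_7 : Bx := Bx.mk (St.mk (I.mix (nat_lit 49790976) (nat_lit 34914304)) (I.mix (nat_lit 37437440) (nat_lit 5832704)) (I.mix (nat_lit 5210112) (nat_lit 10190848)) (I.pos (nat_lit 81887232) (nat_lit 101187584)) (I.mix (nat_lit 31260672) (nat_lit 28311552)) (I.mix (nat_lit 21118976) (nat_lit 32423936)) (I.mix (nat_lit 11829248) (nat_lit 8749056)))
  false (nat_lit 0)
def t2 : BTr := (BTr.n (BTr.n (BTr.n (BTr.b b2_0) (BTr.b b2_1)) (BTr.n (BTr.b b2_2) (BTr.b b2_3))) (BTr.n (BTr.n (BTr.b b2_4) (BTr.b b2_5)) (BTr.n (BTr.b b2_6) (BTr.b b2_7))))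
namespace T2
def l0 : Tr := Tr.L (Pth.l (Pth.l (Pth.l Pth.z)))
def l1 : Tr := Tr.L (Pth.l (Pth.l (Pth.r Pth.z)))
def l2 : Tr := Tr.L (Pth.l (Pth.r (Pth.l Pth.z)))
def l3 : Tr := Tr.L (Pth.l (Pth.r (Pth.r Pth.z)))
def l4 : Tr := Tr.L (Pth.r (Pth.l (Pth.l Pth.z)))
def l5 : Tr := Tr.L (Pth.r (Pth.l (Pth.r Pth.z)))
def l6 : Tr := Tr.L (Pth.r (Pth.r (Pth.l Pth.z)))
def l7 : Tr := Tr.L (Pth.r (Pth.r (Pth.r Pth.z)))
end T2
theorem bx0_0 : BoxOK sI cl6 cl6 cl9 t0 t2 b0_0 :=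
  box_mk (TrL.c (I.pos (nat_lit 0) (nat_lit 0)) (xa (xb T0.l0 (xa T0.l0 T0.l0)) (xb T0.l0 (xa T0.l0 T0.l0)))
  (TrL.c (I.pos (nat_lit 0) (nat_lit 0)) T2.l1
  (TrL.c (I.pos (nat_lit 0) (nat_lit 89480386)) T0.l1
  (TrL.c (I.pos (nat_lit 0) (nat_lit 41530880)) T2.l2
  (TrL.c (I.pos (nat_lit 0) (nat_lit 0)) (xa T2.l3 (xb (xa T2.l3 T2.l3) (xa T2.l3 T2.l3)))
  (TrL.c (I.pos (nat_lit 0) (nat_lit 0)) T0.l2
  (TrL.c (I.mix (nat_lit 41527258) (nat_lit 41530880)) T2.l5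
  (TrL.c (I.mix (nat_lit 41527258) (nat_lit 4274)) T0.l3
  TrL.n)))))))) (by decide +kernel)
theorem bx0_1 : BoxOK sI cl6 cl6 cl9 t0 t2 b0_1 :=
  box_mk (TrL.c (I.pos (nat_lit 0) (nat_lit 0)) (xa T0.l0 T0.l0)
  (TrL.c (I.pos (nat_lit 0) (nat_lit 0)) T2.l1
  (TrL.c (I.pos (nat_lit 0) (nat_lit 89480386)) T0.l1
  (TrL.c (I.pos (nat_lit 0) (nat_lit 41530880)) T2.l2
  (TrL.c (I.pos (nat_lit 0) (nat_lit 0)) T2.l3
  (TrL.c (I.pos (nat_lit 0) (nat_lit 0)) T0.l2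
  (TrL.c (I.mix (nat_lit 41527258) (nat_lit 41530880)) T2.l4
  (TrL.c (I.mix (nat_lit 41527258) (nat_lit 4274)) T0.l3
  TrL.n)))))))) (by decide +kernel)
theorem bx0_2 : BoxOK sI cl6 cl6 cl9 t0 t2 b0_2 :=
  box_mk (TrL.c (I.pos (nat_lit 0) (nat_lit 0)) T0.l0
  (TrL.c (I.pos (nat_lit 0) (nat_lit 0)) T2.l1
  (TrL.c (I.pos (nat_lit 0) (nat_lit 89480386)) T0.l1
  (TrL.c (I.pos (nat_lit 0) (nat_lit 41530880)) T2.l2
  (TrL.c (I.pos (nat_lit 0) (nat_lit 0)) T2.l3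
  (TrL.c (I.pos (nat_lit 0) (nat_lit 0)) T0.l2
  (TrL.c (I.mix (nat_lit 41527258) (nat_lit 41530880)) T2.l4
  (TrL.c (I.mix (nat_lit 41527258) (nat_lit 4274)) T0.l3
  TrL.n)))))))) (by decide +kernel)
theorem bx0_3 : BoxOK sI cl6 cl6 cl9 t0 t2 b0_3 :=
  box_mk (TrL.c (I.pos (nat_lit 0) (nat_lit 0)) (xa (xb (xa T0.l0 T0.l0) T0.l0) T0.l0)
  (TrL.c (I.pos (nat_lit 0) (nat_lit 0)) T2.l3
  (TrL.c (I.pos (nat_lit 0) (nat_lit 89480386)) T0.l1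
  (TrL.c (I.pos (nat_lit 0) (nat_lit 41530880)) T2.l2
  (TrL.c (I.pos (nat_lit 0) (nat_lit 0)) T2.l1
  (TrL.c (I.pos (nat_lit 0) (nat_lit 0)) T0.l2
  (TrL.c (I.mix (nat_lit 41527258) (nat_lit 41530880)) T2.l4
  (TrL.c (I.mix (nat_lit 41527258) (nat_lit 4274)) T0.l3
  TrL.n)))))))) (by decide +kernel)
theorem bx0_4 : BoxOK sI cl6 cl6 cl9 t0 t2 b0_4 :=
  box_mk (TrL.c (I.pos (nat_lit 0) (nat_lit 0)) T0.l0
  (TrL.c (I.pos (nat_lit 0) (nat_lit 0)) T2.l1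
  (TrL.c (I.pos (nat_lit 0) (nat_lit 89480386)) T0.l1
  (TrL.c (I.pos (nat_lit 0) (nat_lit 41530880)) T2.l2
  (TrL.c (I.pos (nat_lit 0) (nat_lit 0)) T2.l3
  (TrL.c (I.pos (nat_lit 0) (nat_lit 0)) T0.l2
  (TrL.c (I.mix (nat_lit 41527258) (nat_lit 41530880)) T2.l4
  (TrL.c (I.mix (nat_lit 41527258) (nat_lit 4274)) T0.l3
  TrL.n)))))))) (by decide +kernel)
theorem bx0_5 : BoxOK sI cl6 cl6 cl9 t0 t2 b0_5 :=
  box_mk (TrL.c (I.pos (nat_lit 0) (nat_lit 0)) T0.l0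
  (TrL.c (I.pos (nat_lit 0) (nat_lit 0)) T2.l3
  (TrL.c (I.pos (nat_lit 0) (nat_lit 89480386)) T0.l1
  (TrL.c (I.pos (nat_lit 0) (nat_lit 41530880)) T2.l2
  (TrL.c (I.pos (nat_lit 0) (nat_lit 0)) T2.l3
  (TrL.c (I.pos (nat_lit 0) (nat_lit 0)) T0.l2
  (TrL.c (I.mix (nat_lit 41527258) (nat_lit 41530880)) T2.l4
  (TrL.c (I.mix (nat_lit 41527258) (nat_lit 4274)) T0.l3
  TrL.n)))))))) (by decide +kernel)
theorem bx0_6 : BoxOK sI cl6 cl6 cl9 t0 t2 b0_6 :=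
  box_mk (TrL.c (I.pos (nat_lit 0) (nat_lit 0)) (xa (xa (xb T0.l0 T0.l0) T0.l0) T0.l0)
  (TrL.c (I.pos (nat_lit 0) (nat_lit 0)) T2.l1
  (TrL.c (I.pos (nat_lit 0) (nat_lit 89480386)) T0.l1
  (TrL.c (I.pos (nat_lit 0) (nat_lit 41530880)) T2.l2
  (TrL.c (I.pos (nat_lit 0) (nat_lit 0)) T2.l3
  (TrL.c (I.pos (nat_lit 0) (nat_lit 0)) T0.l2
  (TrL.c (I.mix (nat_lit 41527258) (nat_lit 41530880)) T2.l4
  (TrL.c (I.mix (nat_lit 41527258) (nat_lit 4274)) T0.l3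
  TrL.n)))))))) (by decide +kernel)
theorem bx0_7 : BoxOK sI cl6 cl6 cl9 t0 t2 b0_7 :=
  box_mk (TrL.c (I.pos (nat_lit 0) (nat_lit 0)) (xb (xa T0.l0 T0.l0) (xa (xb T0.l0 T0.l0) T0.l0))
  (TrL.c (I.pos (nat_lit 0) (nat_lit 0)) T2.l1
  (TrL.c (I.pos (nat_lit 0) (nat_lit 89480386)) T0.l1
  (TrL.c (I.pos (nat_lit 0) (nat_lit 41530880)) T2.l2
  (TrL.c (I.pos (nat_lit 0) (nat_lit 0)) (xb T2.l3 T2.l3)
  (TrL.c (I.pos (nat_lit 0) (nat_lit 0)) T0.l2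
  (TrL.c (I.mix (nat_lit 41527258) (nat_lit 41530880)) T2.l5
  (TrL.c (I.mix (nat_lit 41527258) (nat_lit 4274)) T0.l3
  TrL.n)))))))) (by decide +kernel)
theorem sv0 : StarV sI cl6 cl6 cl9 t0 t2 t0 :=
  (bt_n (bt_n (bt_n (bt_b bx0_0) (bt_b bx0_1)) (bt_n (bt_b bx0_2) (bt_b bx0_3))) (bt_n (bt_n (bt_b bx0_4) (bt_b bx0_5)) (bt_n (bt_b bx0_6) (bt_b bx0_7))))
def S0 : StarD := StarD.mk cl6 cl6 cl9 0 2 t0
theorem bx1_0 : BoxOK sI cl6 cl9 cl6 t2 t0 b1_0 :=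
  box_mk (TrL.c (I.pos (nat_lit 0) (nat_lit 0)) (xa (xa (xb T2.l0 T2.l0) (xb T2.l0 T2.l0)) (xa (xb T2.l0 T2.l0) (xb T2.l0 T2.l3)))
  (TrL.c (I.pos (nat_lit 0) (nat_lit 0)) T0.l4
  (TrL.c (I.pos (nat_lit 0) (nat_lit 89480386)) T2.l5
  (TrL.c (I.pos (nat_lit 0) (nat_lit 41530880)) T0.l5
  (TrL.c (I.pos (nat_lit 0) (nat_lit 0)) (xa T0.l7 (xb (xa T0.l7 T0.l7) (xa T0.l7 T0.l7)))
  (TrL.c (I.pos (nat_lit 0) (nat_lit 0)) T2.l6
  (TrL.c (I.mix (nat_lit 41527258) (nat_lit 41530880)) T0.l6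
  (TrL.c (I.mix (nat_lit 41527258) (nat_lit 4274)) T2.l7
  TrL.n)))))))) (by decide +kernel)
theorem bx1_1 : BoxOK sI cl6 cl9 cl6 t2 t0 b1_1 :=
  box_mk (TrL.c (I.pos (nat_lit 0) (nat_lit 0)) T2.l0
  (TrL.c (I.pos (nat_lit 0) (nat_lit 0)) T0.l4
  (TrL.c (I.pos (nat_lit 0) (nat_lit 89480386)) T2.l5
  (TrL.c (I.pos (nat_lit 0) (nat_lit 41530880)) T0.l5
  (TrL.c (I.pos (nat_lit 0) (nat_lit 0)) T0.l7
  (TrL.c (I.pos (nat_lit 0) (nat_lit 0)) T2.l6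
  (TrL.c (I.mix (nat_lit 41527258) (nat_lit 41530880)) T0.l6
  (TrL.c (I.mix (nat_lit 41527258) (nat_lit 4274)) T2.l7
  TrL.n)))))))) (by decide +kernel)
theorem bx1_2 : BoxOK sI cl6 cl9 cl6 t2 t0 b1_2 :=
  box_mk (TrL.c (I.pos (nat_lit 0) (nat_lit 0)) (xa T2.l0 T2.l0)
  (TrL.c (I.pos (nat_lit 0) (nat_lit 0)) T0.l4
  (TrL.c (I.pos (nat_lit 0) (nat_lit 89480386)) T2.l5
  (TrL.c (I.pos (nat_lit 0) (nat_lit 41530880)) T0.l5
  (TrL.c (I.pos (nat_lit 0) (nat_lit 0)) T0.l7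
  (TrL.c (I.pos (nat_lit 0) (nat_lit 0)) T2.l6
  (TrL.c (I.mix (nat_lit 41527258) (nat_lit 41530880)) T0.l6
  (TrL.c (I.mix (nat_lit 41527258) (nat_lit 4274)) T2.l7
  TrL.n)))))))) (by decide +kernel)
theorem bx1_3 : BoxOK sI cl6 cl9 cl6 t2 t0 b1_3 :=
  box_mk (TrL.c (I.pos (nat_lit 0) (nat_lit 0)) (xa T2.l0 T2.l0)
  (TrL.c (I.pos (nat_lit 0) (nat_lit 0)) T0.l4
  (TrL.c (I.pos (nat_lit 0) (nat_lit 89480386)) T2.l5
  (TrL.c (I.pos (nat_lit 0) (nat_lit 41530880)) T0.l5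
  (TrL.c (I.pos (nat_lit 0) (nat_lit 0)) T0.l7
  (TrL.c (I.pos (nat_lit 0) (nat_lit 0)) T2.l6
  (TrL.c (I.mix (nat_lit 41527258) (nat_lit 41530880)) T0.l6
  (TrL.c (I.mix (nat_lit 41527258) (nat_lit 4274)) T2.l4
  TrL.n)))))))) (by decide +kernel)
theorem bx1_4 : BoxOK sI cl6 cl9 cl6 t2 t0 b1_4 :=
  box_mk (TrL.c (I.pos (nat_lit 0) (nat_lit 0)) (xb (xa (xb (xa T2.l0 T2.l0) T2.l0) (xb (xa T2.l0 (xb T2.l0 T2.l0)) (xa T2.l0 T2.l0))) (xa (xb T2.l0 T2.l0) (xb T2.l0 T2.l0)))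
  (TrL.c (I.pos (nat_lit 0) (nat_lit 0)) T0.l4
  (TrL.c (I.pos (nat_lit 0) (nat_lit 89480386)) T2.l5
  (TrL.c (I.pos (nat_lit 0) (nat_lit 41530880)) T0.l5
  (TrL.c (I.pos (nat_lit 0) (nat_lit 0)) (xb T0.l7 T0.l7)
  (TrL.c (I.pos (nat_lit 0) (nat_lit 0)) T2.l6
  (TrL.c (I.mix (nat_lit 41527258) (nat_lit 41530880)) T0.l6
  (TrL.c (I.mix (nat_lit 41527258) (nat_lit 4274)) T2.l7
  TrL.n)))))))) (by decide +kernel)
theorem bx1_5 : BoxOK sI cl6 cl9 cl6 t2 t0 b1_5 :=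
  box_mk (TrL.c (I.pos (nat_lit 0) (nat_lit 0)) T2.l0
  (TrL.c (I.pos (nat_lit 0) (nat_lit 0)) T0.l4
  (TrL.c (I.pos (nat_lit 0) (nat_lit 89480386)) T2.l5
  (TrL.c (I.pos (nat_lit 0) (nat_lit 41530880)) T0.l5
  (TrL.c (I.pos (nat_lit 0) (nat_lit 0)) T0.l7
  (TrL.c (I.pos (nat_lit 0) (nat_lit 0)) T2.l6
  (TrL.c (I.mix (nat_lit 41527258) (nat_lit 41530880)) T0.l6
  (TrL.c (I.mix (nat_lit 41527258) (nat_lit 4274)) T2.l7
  TrL.n)))))))) (by decide +kernel)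
theorem bx1_6 : BoxOK sI cl6 cl9 cl6 t2 t0 b1_6 :=
  box_mk (TrL.c (I.pos (nat_lit 0) (nat_lit 0)) (xa T2.l0 T2.l0)
  (TrL.c (I.pos (nat_lit 0) (nat_lit 0)) T0.l4
  (TrL.c (I.pos (nat_lit 0) (nat_lit 89480386)) T2.l5
  (TrL.c (I.pos (nat_lit 0) (nat_lit 41530880)) T0.l5
  (TrL.c (I.pos (nat_lit 0) (nat_lit 0)) T0.l7
  (TrL.c (I.pos (nat_lit 0) (nat_lit 0)) T2.l6
  (TrL.c (I.mix (nat_lit 41527258) (nat_lit 41530880)) T0.l6
  (TrL.c (I.mix (nat_lit 41527258) (nat_lit 4274)) T2.l7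
  TrL.n)))))))) (by decide +kernel)
theorem bx1_7 : BoxOK sI cl6 cl9 cl6 t2 t0 b1_7 :=
  box_mk (TrL.c (I.pos (nat_lit 0) (nat_lit 0)) T2.l0
  (TrL.c (I.pos (nat_lit 0) (nat_lit 0)) T0.l4
  (TrL.c (I.pos (nat_lit 0) (nat_lit 89480386)) T2.l5
  (TrL.c (I.pos (nat_lit 0) (nat_lit 41530880)) T0.l5
  (TrL.c (I.pos (nat_lit 0) (nat_lit 0)) T0.l7
  (TrL.c (I.pos (nat_lit 0) (nat_lit 0)) T2.l6
  (TrL.c (I.mix (nat_lit 41527258) (nat_lit 41530880)) T0.l6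
  (TrL.c (I.mix (nat_lit 41527258) (nat_lit 4274)) T2.l7
  TrL.n)))))))) (by decide +kernel)
theorem sv1 : StarV sI cl6 cl9 cl6 t2 t0 t1 :=
  (bt_n (bt_n (bt_n (bt_b bx1_0) (bt_b bx1_1)) (bt_n (bt_b bx1_2) (bt_b bx1_3))) (bt_n (bt_n (bt_b bx1_4) (bt_b bx1_5)) (bt_n (bt_b bx1_6) (bt_b bx1_7))))
def S1 : StarD := StarD.mk cl6 cl9 cl6 2 0 t1
theorem bx2_0 : BoxOK sI cl9 cl6 cl6 t1 t1 b2_0 :=
  box_mk (TrL.c (I.pos (nat_lit 0) (nat_lit 0)) (xa (xa (xb T1.l0 T1.l0) (xb T1.l0 T1.l0)) (xa (xb T1.l0 T1.l0) (xb T1.l0 T1.l0)))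
  (TrL.c (I.pos (nat_lit 0) (nat_lit 0)) T1.l1
  (TrL.c (I.pos (nat_lit 0) (nat_lit 124588530)) (xR T1.l2 T1.l6)
  (TrL.c (I.pos (nat_lit 0) (nat_lit 96881482)) T1.l3
  (TrL.c (I.pos (nat_lit 0) (nat_lit 0)) (xa (xb (xa T1.l4 T1.l4) T1.l4) (xb (xa (xk T1.l4 T1.l4) (xk (xb T1.l4 T1.l4) (xb T1.l4 T1.l4))) (xa (xb T1.l4 T1.l4) (xk (xb T1.l4 (xs T1.l4 (xa T1.l4 T1.l4))) (xb T1.l4 (xa T1.l4 (xs T1.l4 (xb T1.l4 (xk T1.l4 T1.l4)))))))))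
  (TrL.c (I.pos (nat_lit 0) (nat_lit 0)) T1.l5
  (TrL.c (I.mix (nat_lit 17240550) (nat_lit 96881482)) (xR T1.l6 T1.l6)
  (TrL.c (I.mix (nat_lit 17240550) (nat_lit 71940500)) T1.l7
  TrL.n)))))))) (by decide +kernel)
theorem bx2_1 : BoxOK sI cl9 cl6 cl6 t1 t1 b2_1 :=
  box_mk (TrL.c (I.pos (nat_lit 0) (nat_lit 0)) T1.l0
  (TrL.c (I.pos (nat_lit 0) (nat_lit 0)) T1.l1
  (TrL.c (I.pos (nat_lit 0) (nat_lit 124588530)) (xR T1.l2 T1.l2)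
  (TrL.c (I.pos (nat_lit 0) (nat_lit 96881482)) T1.l3
  (TrL.c (I.pos (nat_lit 0) (nat_lit 0)) T1.l4
  (TrL.c (I.pos (nat_lit 0) (nat_lit 0)) T1.l5
  (TrL.c (I.mix (nat_lit 17240550) (nat_lit 96881482)) T1.l6
  (TrL.c (I.mix (nat_lit 17240550) (nat_lit 71940500)) T1.l7
  TrL.n)))))))) (by decide +kernel)
theorem bx2_2 : BoxOK sI cl9 cl6 cl6 t1 t1 b2_2 :=
  box_mk (TrL.c (I.pos (nat_lit 0) (nat_lit 0)) T1.l0
  (TrL.c (I.pos (nat_lit 0) (nat_lit 0)) T1.l1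
  (TrL.c (I.pos (nat_lit 0) (nat_lit 124588530)) T1.l2
  (TrL.c (I.pos (nat_lit 0) (nat_lit 96881482)) T1.l3
  (TrL.c (I.pos (nat_lit 0) (nat_lit 0)) T1.l4
  (TrL.c (I.pos (nat_lit 0) (nat_lit 0)) T1.l5
  (TrL.c (I.mix (nat_lit 17240550) (nat_lit 96881482)) T1.l6
  (TrL.c (I.mix (nat_lit 17240550) (nat_lit 71940500)) T1.l3
  TrL.n)))))))) (by decide +kernel)
theorem bx2_3 : BoxOK sI cl9 cl6 cl6 t1 t1 b2_3 :=
  box_mk (TrL.c (I.pos (nat_lit 0) (nat_lit 0)) (xb (xa T1.l0 T1.l0) (xa (xb T1.l0 T1.l0) (xb T1.l0 T1.l0)))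
  (TrL.c (I.pos (nat_lit 0) (nat_lit 0)) T1.l1
  (TrL.c (I.pos (nat_lit 0) (nat_lit 124588530)) (xR T1.l2 T1.l2)
  (TrL.c (I.pos (nat_lit 0) (nat_lit 96881482)) T1.l3
  (TrL.c (I.pos (nat_lit 0) (nat_lit 0)) (xb (xa T1.l4 T1.l4) T1.l4)
  (TrL.c (I.pos (nat_lit 0) (nat_lit 0)) T1.l5
  (TrL.c (I.mix (nat_lit 17240550) (nat_lit 96881482)) (xR T1.l6 T1.l6)
  (TrL.c (I.mix (nat_lit 17240550) (nat_lit 71940500)) T1.l7
  TrL.n)))))))) (by decide +kernel)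
theorem bx2_4 : BoxOK sI cl9 cl6 cl6 t1 t1 b2_4 :=
  box_mk (TrL.c (I.pos (nat_lit 0) (nat_lit 0)) (xa (xa T1.l0 T1.l0) T1.l0)
  (TrL.c (I.pos (nat_lit 0) (nat_lit 0)) T1.l1
  (TrL.c (I.pos (nat_lit 0) (nat_lit 124588530)) T1.l2
  (TrL.c (I.pos (nat_lit 0) (nat_lit 96881482)) T1.l3
  (TrL.c (I.pos (nat_lit 0) (nat_lit 0)) T1.l4
  (TrL.c (I.pos (nat_lit 0) (nat_lit 0)) T1.l5
  (TrL.c (I.mix (nat_lit 17240550) (nat_lit 96881482)) T1.l6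
  (TrL.c (I.mix (nat_lit 17240550) (nat_lit 71940500)) T1.l3
  TrL.n)))))))) (by decide +kernel)
theorem bx2_5 : BoxOK sI cl9 cl6 cl6 t1 t1 b2_5 :=
  box_mk (TrL.c (I.pos (nat_lit 0) (nat_lit 0)) (xa (xa T1.l0 T1.l0) T1.l0)
  (TrL.c (I.pos (nat_lit 0) (nat_lit 0)) T1.l1
  (TrL.c (I.pos (nat_lit 0) (nat_lit 124588530)) T1.l2
  (TrL.c (I.pos (nat_lit 0) (nat_lit 96881482)) T1.l3
  (TrL.c (I.pos (nat_lit 0) (nat_lit 0)) T1.l4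
  (TrL.c (I.pos (nat_lit 0) (nat_lit 0)) T1.l5
  (TrL.c (I.mix (nat_lit 17240550) (nat_lit 96881482)) T1.l6
  (TrL.c (I.mix (nat_lit 17240550) (nat_lit 71940500)) T1.l3
  TrL.n)))))))) (by decide +kernel)
theorem bx2_6 : BoxOK sI cl9 cl6 cl6 t1 t1 b2_6 :=
  box_mk (TrL.c (I.pos (nat_lit 0) (nat_lit 0)) T1.l0
  (TrL.c (I.pos (nat_lit 0) (nat_lit 0)) T1.l1
  (TrL.c (I.pos (nat_lit 0) (nat_lit 124588530)) (xR T1.l2 T1.l2)
  (TrL.c (I.pos (nat_lit 0) (nat_lit 96881482)) T1.l3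
  (TrL.c (I.pos (nat_lit 0) (nat_lit 0)) T1.l4
  (TrL.c (I.pos (nat_lit 0) (nat_lit 0)) T1.l5
  (TrL.c (I.mix (nat_lit 17240550) (nat_lit 96881482)) T1.l6
  (TrL.c (I.mix (nat_lit 17240550) (nat_lit 71940500)) T1.l7
  TrL.n)))))))) (by decide +kernel)
theorem bx2_7 : BoxOK sI cl9 cl6 cl6 t1 t1 b2_7 :=
  box_mk (TrL.c (I.pos (nat_lit 0) (nat_lit 0)) (xa T1.l0 T1.l0)
  (TrL.c (I.pos (nat_lit 0) (nat_lit 0)) T1.l4
  (TrL.c (I.pos (nat_lit 0) (nat_lit 124588530)) T1.l2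
  (TrL.c (I.pos (nat_lit 0) (nat_lit 96881482)) T1.l6
  (TrL.c (I.pos (nat_lit 0) (nat_lit 0)) T1.l1
  (TrL.c (I.pos (nat_lit 0) (nat_lit 0)) T1.l2
  (TrL.c (I.mix (nat_lit 17240550) (nat_lit 96881482)) T1.l6
  (TrL.c (I.mix (nat_lit 17240550) (nat_lit 71940500)) T1.l3
  TrL.n)))))))) (by decide +kernel)
theorem sv2 : StarV sI cl9 cl6 cl6 t1 t1 t2 :=
  (bt_n (bt_n (bt_n (bt_b bx2_0) (bt_b bx2_1)) (bt_n (bt_b bx2_2) (bt_b bx2_3))) (bt_n (bt_n (bt_b bx2_4) (bt_b bx2_5)) (bt_n (bt_b bx2_6) (bt_b bx2_7))))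
def S2 : StarD := StarD.mk cl9 cl6 cl6 1 1 t2
def G : List StarD := [S0, S1, S2]
theorem so0 : StarOK sI G S0 :=
  star_mk (by decide) (by decide) rfl rfl rfl rfl rfl rfl (rfl : _ = t0) (rfl : _ = t2)
  (st_mk (Pth.l (Pth.l (Pth.l Pth.z))) (nat_lit 188945501) (nat_lit 189546492) (by decide +kernel))
  (st_mk (Pth.l (Pth.l (Pth.l Pth.z))) (nat_lit 225029030) (nat_lit 225883530) (by decide +kernel))
  (st_mk (Pth.l (Pth.l (Pth.l Pth.z))) (nat_lit 266932362) (nat_lit 268140878) (by decide +kernel)) sv0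
theorem so1 : StarOK sI G S1 :=
  star_mk (by decide) (by decide) rfl rfl rfl rfl rfl rfl (rfl : _ = t2) (rfl : _ = t0)
  (st_mk (Pth.l (Pth.l (Pth.l Pth.z))) (nat_lit 116470873) (nat_lit 135079698) (by decide +kernel))
  (st_mk (Pth.l (Pth.l (Pth.l Pth.z))) (nat_lit 152341488) (nat_lit 171228196) (by decide +kernel))
  (st_mk (Pth.l (Pth.l (Pth.l Pth.z))) (nat_lit 194064808) (nat_lit 213325826) (by decide +kernel)) sv1
theorem so2 : StarOK sI G S2 :=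
  star_mk (by decide) (by decide) rfl rfl rfl rfl rfl rfl (rfl : _ = t1) (rfl : _ = t1)
  (st_mk (Pth.l (Pth.l (Pth.l Pth.z))) (nat_lit 186597692) (nat_lit 187976823) (by decide +kernel))
  (st_mk (Pth.l (Pth.l (Pth.l Pth.z))) (nat_lit 221805471) (nat_lit 223534030) (by decide +kernel))
  (st_mk (Pth.l (Pth.l (Pth.l Pth.z))) (nat_lit 262497175) (nat_lit 264707095) (by decide +kernel)) sv2
theorem ok : GroupOK (nat_lit 91226112) (nat_lit 150339584) G := grp_mk (allS_c so0 (allS_c so1 (allS_c so2 allS_n)))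
theorem cov : GCov G cl6 cl6 cl9 := cov_mk
  ⟨0, by decide, rfl, rfl, rfl⟩ ⟨1, by decide, rfl, rfl, rfl⟩ ⟨0, by decide, rfl, rfl, rfl⟩ ⟨1, by decide, rfl, rfl, rfl⟩ ⟨2, by decide, rfl, rfl, rfl⟩ ⟨2, by decide, rfl, rfl, rfl⟩
end Q335_1

namespace Q335_2
def sI : I := I.pos (nat_lit 150274048) (nat_lit 209387520)
def b0_0 : Bx := Bx.mk (St.mk (I.pos (nat_lit 153436160) (nat_lit 286015488)) (I.mix (nat_lit 29179904) (nat_lit 62242816)) (I.mix (nat_lit 105021440) (nat_lit 86474752)) (I.pos (nat_lit 176553984) (nat_lit 402145280)) (I.mix (nat_lit 117473280) (nat_lit 77905920)) (I.mix (nat_lit 81936384) (nat_lit 62226432)) (I.mix (nat_lit 126779392) (nat_lit 97779712)))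
  false (nat_lit 48407323)
def b0_1 : Bx := Bx.mk (St.mk (I.mix (nat_lit 29818880) (nat_lit 103383040)) (I.mix (nat_lit 11337728) (nat_lit 39845888)) (I.mix (nat_lit 23298048) (nat_lit 10534912)) (I.pos (nat_lit 82067456) (nat_lit 126894080)) (I.mix (nat_lit 41762816) (nat_lit 44826624)) (I.mix (nat_lit 37076992) (nat_lit 28213248)) (I.mix (nat_lit 23969792) (nat_lit 15613952)))
  false (nat_lit 0)
def b0_2 : Bx := Bx.mk (St.mk (I.pos (nat_lit 77561856) (nat_lit 123994112)) (I.mix (nat_lit 60588032) (nat_lit 12730368)) (I.neg (nat_lit 4784128) (nat_lit 59424768)) (I.pos (nat_lit 111591424) (nat_lit 146554880)) (I.mix (nat_lit 104579072) (nat_lit 38338560)) (I.mix (nat_lit 46104576) (nat_lit 85966848)) (I.mix (nat_lit 32276480) (nat_lit 59129856)))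
  false (nat_lit 0)
def b0_3 : Bx := Bx.mk (St.mk (I.mix (nat_lit 51806208) (nat_lit 28000256)) (I.mix (nat_lit 34717696) (nat_lit 9453568)) (I.neg (nat_lit 491520) (nat_lit 15663104)) (I.pos (nat_lit 82427904) (nat_lit 100843520)) (I.mix (nat_lit 38535168) (nat_lit 26574848)) (I.mix (nat_lit 21512192) (nat_lit 29736960)) (I.mix (nat_lit 11141120) (nat_lit 7815168)))
  false (nat_lit 0)
def b0_4 : Bx := Bx.mk (St.mk (I.pos (nat_lit 80887808) (nat_lit 162906112)) (I.neg (nat_lit 4980736) (nat_lit 59244544)) (I.neg (nat_lit 8306688) (nat_lit 58605568)) (I.pos (nat_lit 121487360) (nat_lit 189759488)) (I.mix (nat_lit 92684288) (nat_lit 51363840)) (I.mix (nat_lit 38633472) (nat_lit 72335360)) (I.mix (nat_lit 30261248) (nat_lit 62046208)))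
  false (nat_lit 0)
def b0_5 : Bx := Bx.mk (St.mk (I.mix (nat_lit 35373056) (nat_lit 48283648)) (I.mix (nat_lit 34373632) (nat_lit 5423104)) (I.neg (nat_lit 1736704) (nat_lit 17317888)) (I.pos (nat_lit 81215488) (nat_lit 101564416)) (I.mix (nat_lit 38895616) (nat_lit 30736384)) (I.mix (nat_lit 23003136) (nat_lit 33079296)) (I.mix (nat_lit 11157504) (nat_lit 12369920)))
  false (nat_lit 0)
def b0_6 : Bx := Bx.mk (St.mk (I.mix (nat_lit 51970048) (nat_lit 76398592)) (I.mix (nat_lit 5423104) (nat_lit 36683776)) (I.mix (nat_lit 17367040) (nat_lit 8388608)) (I.pos (nat_lit 81313792) (nat_lit 111886336)) (I.mix (nat_lit 36339712) (nat_lit 38895616)) (I.mix (nat_lit 33079296) (nat_lit 23003136)) (I.mix (nat_lit 12206080) (nat_lit 12369920)))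
  false (nat_lit 0)
def b0_7 : Bx := Bx.mk (St.mk (I.pos (nat_lit 137445376) (nat_lit 211664896)) (I.mix (nat_lit 38682624) (nat_lit 63963136)) (I.mix (nat_lit 41369600) (nat_lit 83050496)) (I.pos (nat_lit 163790848) (nat_lit 260767744)) (I.mix (nat_lit 133120000) (nat_lit 78495744)) (I.mix (nat_lit 119177216) (nat_lit 78168064)) (I.mix (nat_lit 114049024) (nat_lit 74612736)))
  false (nat_lit 30804894)
def t0 : BTr := (BTr.n (BTr.n (BTr.n (BTr.b b0_0) (BTr.b b0_1)) (BTr.n (BTr.b b0_2) (BTr.b b0_3))) (BTr.n (BTr.n (BTr.b b0_4) (BTr.b b0_5)) (BTr.n (BTr.b b0_6) (BTr.b b0_7))))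
namespace T0
def l0 : Tr := Tr.L (Pth.l (Pth.l (Pth.l Pth.z)))
def l1 : Tr := Tr.L (Pth.l (Pth.l (Pth.r Pth.z)))
def l2 : Tr := Tr.L (Pth.l (Pth.r (Pth.l Pth.z)))
def l3 : Tr := Tr.L (Pth.l (Pth.r (Pth.r Pth.z)))
def l4 : Tr := Tr.L (Pth.r (Pth.l (Pth.l Pth.z)))
def l5 : Tr := Tr.L (Pth.r (Pth.l (Pth.r Pth.z)))
def l6 : Tr := Tr.L (Pth.r (Pth.r (Pth.l Pth.z)))
def l7 : Tr := Tr.L (Pth.r (Pth.r (Pth.r Pth.z)))
end T0
def b1_0 : Bx := Bx.mk (St.mk (I.pos (nat_lit 153485312) (nat_lit 285327360)) (I.mix (nat_lit 25886720) (nat_lit 47775744)) (I.mix (nat_lit 62210048) (nat_lit 84393984)) (I.pos (nat_lit 103481344) (nat_lit 350519296)) (I.mix (nat_lit 98680832) (nat_lit 75366400)) (I.mix (nat_lit 84082688) (nat_lit 60178432)) (I.mix (nat_lit 131334144) (nat_lit 85164032)))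
  false (nat_lit 29906249)
def b1_1 : Bx := Bx.mk (St.mk (I.pos (nat_lit 102580224) (nat_lit 180289536)) (I.neg (nat_lit 3293184) (nat_lit 55312384)) (I.mix (nat_lit 52953088) (nat_lit 655360)) (I.pos (nat_lit 78069760) (nat_lit 159940608)) (I.mix (nat_lit 88096768) (nat_lit 56098816)) (I.mix (nat_lit 47529984) (nat_lit 73613312)) (I.mix (nat_lit 38273024) (nat_lit 73891840)))
  false (nat_lit 5282234)
def b1_2 : Bx := Bx.mk (St.mk (I.mix (nat_lit 16121856) (nat_lit 136462336)) (I.mix (nat_lit 8470528) (nat_lit 28721152)) (I.mix (nat_lit 10665984) (nat_lit 23347200)) (I.pos (nat_lit 13549568) (nat_lit 102940672)) (I.mix (nat_lit 43581440) (nat_lit 32030720)) (I.mix (nat_lit 33832960) (nat_lit 21905408)) (I.mix (nat_lit 26935296) (nat_lit 15876096)))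
  false (nat_lit 0)
def b1_3 : Bx := Bx.mk (St.mk (I.mix (nat_lit 17104896) (nat_lit 108298240)) (I.mix (nat_lit 28491776) (nat_lit 4521984)) (I.mix (nat_lit 18366464) (nat_lit 4374528)) (I.pos (nat_lit 14794752) (nat_lit 78168064)) (I.mix (nat_lit 35340288) (nat_lit 26705920)) (I.mix (nat_lit 17203200) (nat_lit 28688384)) (I.mix (nat_lit 10747904) (nat_lit 18055168)))
  false (nat_lit 0)
def b1_4 : Bx := Bx.mk (St.mk (I.pos (nat_lit 151404544) (nat_lit 212221952)) (I.mix (nat_lit 38469632) (nat_lit 49807360)) (I.mix (nat_lit 35749888) (nat_lit 84295680)) (I.pos (nat_lit 112443392) (nat_lit 207044608)) (I.mix (nat_lit 130875392) (nat_lit 68091904)) (I.mix (nat_lit 128024576) (nat_lit 67633152)) (I.mix (nat_lit 147472384) (nat_lit 69337088)))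
  false (nat_lit 0)
def b1_5 : Bx := Bx.mk (St.mk (I.pos (nat_lit 105218048) (nat_lit 152289280)) (I.mix (nat_lit 54427648) (nat_lit 8470528)) (I.mix (nat_lit 54067200) (nat_lit 5767168)) (I.pos (nat_lit 63029248) (nat_lit 123043840)) (I.mix (nat_lit 99614720) (nat_lit 40058880)) (I.mix (nat_lit 42385408) (nat_lit 89686016)) (I.mix (nat_lit 31899648) (nat_lit 73023488)))
  false (nat_lit 0)
def b1_6 : Bx := Bx.mk (St.mk (I.mix (nat_lit 28246016) (nat_lit 125173760)) (I.mix (nat_lit 12288000) (nat_lit 33554432)) (I.mix (nat_lit 7618560) (nat_lit 26591232)) (I.pos (nat_lit 14270464) (nat_lit 91357184)) (I.mix (nat_lit 57442304) (nat_lit 29229056)) (I.mix (nat_lit 49086464) (nat_lit 28786688)) (I.mix (nat_lit 30687232) (nat_lit 17661952)))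
  false (nat_lit 0)
def b1_7 : Bx := Bx.mk (St.mk (I.mix (nat_lit 21725184) (nat_lit 93208576)) (I.mix (nat_lit 26296320) (nat_lit 458752)) (I.mix (nat_lit 16367616) (nat_lit 1916928)) (I.pos (nat_lit 15400960) (nat_lit 67567616)) (I.mix (nat_lit 37093376) (nat_lit 17203200)) (I.mix (nat_lit 17809408) (nat_lit 29704192)) (I.mix (nat_lit 9748480) (nat_lit 15106048)))
  false (nat_lit 0)
def t1 : BTr := (BTr.n (BTr.n (BTr.n (BTr.b b1_0) (BTr.b b1_1)) (BTr.n (BTr.b b1_2) (BTr.b b1_3))) (BTr.n (BTr.n (BTr.b b1_4) (BTr.b b1_5)) (BTr.n (BTr.b b1_6) (BTr.b b1_7))))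
namespace T1
def l0 : Tr := Tr.L (Pth.l (Pth.l (Pth.l Pth.z)))
def l1 : Tr := Tr.L (Pth.l (Pth.l (Pth.r Pth.z)))
def l2 : Tr := Tr.L (Pth.l (Pth.r (Pth.l Pth.z)))
def l3 : Tr := Tr.L (Pth.l (Pth.r (Pth.r Pth.z)))
def l4 : Tr := Tr.L (Pth.r (Pth.l (Pth.l Pth.z)))
def l5 : Tr := Tr.L (Pth.r (Pth.l (Pth.r Pth.z)))
def l6 : Tr := Tr.L (Pth.r (Pth.r (Pth.l Pth.z)))
def l7 : Tr := Tr.L (Pth.r (Pth.r (Pth.r Pth.z)))
end T1
def b2_0 : Bx := Bx.mk (St.mk (I.pos (nat_lit 153403392) (nat_lit 286670848)) (I.mix (nat_lit 19169280) (nat_lit 54673408)) (I.mix (nat_lit 46366720) (nat_lit 95862784)) (I.pos (nat_lit 174374912) (nat_lit 395591680)) (I.mix (nat_lit 113147904) (nat_lit 80625664)) (I.mix (nat_lit 93290496) (nat_lit 60702720)) (I.mix (nat_lit 136986624) (nat_lit 83902464)))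
  false (nat_lit 40518501)
def b2_1 : Bx := Bx.mk (St.mk (I.pos (nat_lit 82624512) (nat_lit 168017920)) (I.neg (nat_lit 8273920) (nat_lit 68517888)) (I.mix (nat_lit 54132736) (nat_lit 9060352)) (I.pos (nat_lit 128303104) (nat_lit 194478080)) (I.mix (nat_lit 101203968) (nat_lit 53919744)) (I.mix (nat_lit 45449216) (nat_lit 68911104)) (I.mix (nat_lit 34947072) (nat_lit 52920320)))
  false (nat_lit 28759784)
def b2_2 : Bx := Bx.mk (St.mk (I.mix (nat_lit 29982720) (nat_lit 50167808)) (I.mix (nat_lit 34897920) (nat_lit 5324800)) (I.mix (nat_lit 6979584) (nat_lit 7651328)) (I.pos (nat_lit 82903040) (nat_lit 100712448)) (I.mix (nat_lit 30490624) (nat_lit 34062336)) (I.mix (nat_lit 22118400) (nat_lit 27754496)) (I.mix (nat_lit 8503296) (nat_lit 10092544)))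
  false (nat_lit 0)
def b2_3 : Bx := Bx.mk (St.mk (I.pos (nat_lit 136003584) (nat_lit 206061568)) (I.mix (nat_lit 35880960) (nat_lit 59097088)) (I.mix (nat_lit 19742720) (nat_lit 97320960)) (I.pos (nat_lit 162283520) (nat_lit 247087104)) (I.mix (nat_lit 143261696) (nat_lit 68272128)) (I.mix (nat_lit 130744320) (nat_lit 73695232)) (I.mix (nat_lit 130744320) (nat_lit 66371584)))
  false (nat_lit 50120930)
def b2_4 : Bx := Bx.mk (St.mk (I.mix (nat_lit 54689792) (nat_lit 74153984)) (I.mix (nat_lit 10797056) (nat_lit 37273600)) (I.mix (nat_lit 7372800) (nat_lit 19300352)) (I.pos (nat_lit 83001344) (nat_lit 109821952)) (I.mix (nat_lit 41697280) (nat_lit 30490624)) (I.mix (nat_lit 29327360) (nat_lit 22118400)) (I.mix (nat_lit 11436032) (nat_lit 10092544)))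
  false (nat_lit 0)
def b2_5 : Bx := Bx.mk (St.mk (I.mix (nat_lit 33456128) (nat_lit 101285888)) (I.mix (nat_lit 6979584) (nat_lit 38273024)) (I.mix (nat_lit 8486912) (nat_lit 22462464)) (I.pos (nat_lit 81788928) (nat_lit 125124608)) (I.mix (nat_lit 50135040) (nat_lit 38764544)) (I.mix (nat_lit 41582592) (nat_lit 27508736)) (I.mix (nat_lit 25690112) (nat_lit 18120704)))
  false (nat_lit 0)
def b2_6 : Bx := Bx.mk (St.mk (I.pos (nat_lit 78921728) (nat_lit 129941504)) (I.mix (nat_lit 62980096) (nat_lit 8355840)) (I.mix (nat_lit 47087616) (nat_lit 3768320)) (I.pos (nat_lit 113999872) (nat_lit 152043520)) (I.mix (nat_lit 92487680) (nat_lit 42450944)) (I.mix (nat_lit 47579136) (nat_lit 74039296)) (I.mix (nat_lit 33456128) (nat_lit 47677440)))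
  false (nat_lit 0)
def b2_7 : Bx := Bx.mk (St.mk (I.mix (nat_lit 49446912) (nat_lit 32849920)) (I.mix (nat_lit 34127872) (nat_lit 4227072)) (I.mix (nat_lit 5013504) (nat_lit 9109504)) (I.pos (nat_lit 82296832) (nat_lit 101138432)) (I.mix (nat_lit 31997952) (nat_lit 33062912)) (I.mix (nat_lit 22151168) (nat_lit 30785536)) (I.mix (nat_lit 11190272) (nat_lit 9289728)))
  false (nat_lit 0)
def t2 : BTr := (BTr.n (BTr.n (BTr.n (BTr.b b2_0) (BTr.b b2_1)) (BTr.n (BTr.b b2_2) (BTr.b b2_3))) (BTr.n (BTr.n (BTr.b b2_4) (BTr.b b2_5)) (BTr.n (BTr.b b2_6) (BTr.b b2_7))))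
namespace T2
def l0 : Tr := Tr.L (Pth.l (Pth.l (Pth.l Pth.z)))
def l1 : Tr := Tr.L (Pth.l (Pth.l (Pth.r Pth.z)))
def l2 : Tr := Tr.L (Pth.l (Pth.r (Pth.l Pth.z)))
def l3 : Tr := Tr.L (Pth.l (Pth.r (Pth.r Pth.z)))
def l4 : Tr := Tr.L (Pth.r (Pth.l (Pth.l Pth.z)))
def l5 : Tr := Tr.L (Pth.r (Pth.l (Pth.r Pth.z)))
def l6 : Tr := Tr.L (Pth.r (Pth.r (Pth.l Pth.z)))
def l7 : Tr := Tr.L (Pth.r (Pth.r (Pth.r Pth.z)))
end T2
theorem bx0_0 : BoxOK sI cl6 cl6 cl9 t0 t2 b0_0 :=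
  box_mk (TrL.c (I.pos (nat_lit 0) (nat_lit 0)) (xa (xb (xa T0.l0 T0.l0) (xa (xb T0.l0 (xa T0.l0 T0.l0)) (xb T0.l0 (xa T0.l0 T0.l0)))) (xb (xa T0.l0 T0.l0) (xa (xb T0.l0 T0.l0) (xb T0.l0 T0.l0))))
  (TrL.c (I.pos (nat_lit 0) (nat_lit 0)) T2.l1
  (TrL.c (I.pos (nat_lit 0) (nat_lit 89480386)) (xR T0.l1 (xR T0.l1 T0.l1))
  (TrL.c (I.pos (nat_lit 0) (nat_lit 41530880)) T2.l2
  (TrL.c (I.pos (nat_lit 0) (nat_lit 0)) (xa (xb T2.l3 T2.l3) (xb (xa T2.l3 (xb T2.l3 T2.l3)) (xa T2.l3 (xb T2.l3 T2.l3))))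
  (TrL.c (I.pos (nat_lit 0) (nat_lit 0)) T0.l2
  (TrL.c (I.mix (nat_lit 41527258) (nat_lit 41530880)) (xR T2.l4 T2.l5)
  (TrL.c (I.mix (nat_lit 41527258) (nat_lit 4274)) T0.l3
  TrL.n)))))))) (by decide +kernel)
theorem bx0_1 : BoxOK sI cl6 cl6 cl9 t0 t2 b0_1 :=
  box_mk (TrL.c (I.pos (nat_lit 0) (nat_lit 0)) (xa T0.l0 T0.l0)
  (TrL.c (I.pos (nat_lit 0) (nat_lit 0)) T2.l1
  (TrL.c (I.pos (nat_lit 0) (nat_lit 89480386)) T0.l1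
  (TrL.c (I.pos (nat_lit 0) (nat_lit 41530880)) T2.l2
  (TrL.c (I.pos (nat_lit 0) (nat_lit 0)) T2.l3
  (TrL.c (I.pos (nat_lit 0) (nat_lit 0)) T0.l2
  (TrL.c (I.mix (nat_lit 41527258) (nat_lit 41530880)) T2.l4
  (TrL.c (I.mix (nat_lit 41527258) (nat_lit 4274)) T0.l3
  TrL.n)))))))) (by decide +kernel)
theorem bx0_2 : BoxOK sI cl6 cl6 cl9 t0 t2 b0_2 :=
  box_mk (TrL.c (I.pos (nat_lit 0) (nat_lit 0)) T0.l0
  (TrL.c (I.pos (nat_lit 0) (nat_lit 0)) T2.l1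
  (TrL.c (I.pos (nat_lit 0) (nat_lit 89480386)) (xR T0.l1 T0.l1)
  (TrL.c (I.pos (nat_lit 0) (nat_lit 41530880)) T2.l2
  (TrL.c (I.pos (nat_lit 0) (nat_lit 0)) T2.l3
  (TrL.c (I.pos (nat_lit 0) (nat_lit 0)) T0.l2
  (TrL.c (I.mix (nat_lit 41527258) (nat_lit 41530880)) T2.l4
  (TrL.c (I.mix (nat_lit 41527258) (nat_lit 4274)) T0.l3
  TrL.n)))))))) (by decide +kernel)
theorem bx0_3 : BoxOK sI cl6 cl6 cl9 t0 t2 b0_3 :=
  box_mk (TrL.c (I.pos (nat_lit 0) (nat_lit 0)) (xa (xb (xa (xb T0.l0 T0.l0) T0.l0) T0.l0) T0.l0)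
  (TrL.c (I.pos (nat_lit 0) (nat_lit 0)) T2.l3
  (TrL.c (I.pos (nat_lit 0) (nat_lit 89480386)) T0.l1
  (TrL.c (I.pos (nat_lit 0) (nat_lit 41530880)) T2.l4
  (TrL.c (I.pos (nat_lit 0) (nat_lit 0)) T2.l1
  (TrL.c (I.pos (nat_lit 0) (nat_lit 0)) T0.l2
  (TrL.c (I.mix (nat_lit 41527258) (nat_lit 41530880)) (xR T2.l4 T2.l4)
  (TrL.c (I.mix (nat_lit 41527258) (nat_lit 4274)) T0.l3
  TrL.n)))))))) (by decide +kernel)
theorem bx0_4 : BoxOK sI cl6 cl6 cl9 t0 t2 b0_4 :=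
  box_mk (TrL.c (I.pos (nat_lit 0) (nat_lit 0)) T0.l0
  (TrL.c (I.pos (nat_lit 0) (nat_lit 0)) T2.l1
  (TrL.c (I.pos (nat_lit 0) (nat_lit 89480386)) (xR T0.l1 T0.l1)
  (TrL.c (I.pos (nat_lit 0) (nat_lit 41530880)) T2.l2
  (TrL.c (I.pos (nat_lit 0) (nat_lit 0)) T2.l3
  (TrL.c (I.pos (nat_lit 0) (nat_lit 0)) T0.l2
  (TrL.c (I.mix (nat_lit 41527258) (nat_lit 41530880)) T2.l4
  (TrL.c (I.mix (nat_lit 41527258) (nat_lit 4274)) T0.l3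
  TrL.n)))))))) (by decide +kernel)
theorem bx0_5 : BoxOK sI cl6 cl6 cl9 t0 t2 b0_5 :=
  box_mk (TrL.c (I.pos (nat_lit 0) (nat_lit 0)) T0.l0
  (TrL.c (I.pos (nat_lit 0) (nat_lit 0)) T2.l3
  (TrL.c (I.pos (nat_lit 0) (nat_lit 89480386)) T0.l1
  (TrL.c (I.pos (nat_lit 0) (nat_lit 41530880)) T2.l4
  (TrL.c (I.pos (nat_lit 0) (nat_lit 0)) T2.l1
  (TrL.c (I.pos (nat_lit 0) (nat_lit 0)) T0.l2
  (TrL.c (I.mix (nat_lit 41527258) (nat_lit 41530880)) T2.l4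
  (TrL.c (I.mix (nat_lit 41527258) (nat_lit 4274)) T0.l3
  TrL.n)))))))) (by decide +kernel)
theorem bx0_6 : BoxOK sI cl6 cl6 cl9 t0 t2 b0_6 :=
  box_mk (TrL.c (I.pos (nat_lit 0) (nat_lit 0)) (xa (xa (xb T0.l0 (xa T0.l0 T0.l0)) T0.l0) T0.l0)
  (TrL.c (I.pos (nat_lit 0) (nat_lit 0)) T2.l1
  (TrL.c (I.pos (nat_lit 0) (nat_lit 89480386)) T0.l1
  (TrL.c (I.pos (nat_lit 0) (nat_lit 41530880)) T2.l2
  (TrL.c (I.pos (nat_lit 0) (nat_lit 0)) T2.l3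
  (TrL.c (I.pos (nat_lit 0) (nat_lit 0)) T0.l2
  (TrL.c (I.mix (nat_lit 41527258) (nat_lit 41530880)) T2.l4
  (TrL.c (I.mix (nat_lit 41527258) (nat_lit 4274)) T0.l3
  TrL.n)))))))) (by decide +kernel)
theorem bx0_7 : BoxOK sI cl6 cl6 cl9 t0 t2 b0_7 :=
  box_mk (TrL.c (I.pos (nat_lit 0) (nat_lit 0)) (xb (xa (xb T0.l0 T0.l0) (xb T0.l0 T0.l0)) (xa (xb T0.l0 (xa T0.l0 T0.l0)) (xb T0.l0 (xa T0.l0 T0.l0))))
  (TrL.c (I.pos (nat_lit 0) (nat_lit 0)) T2.l1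
  (TrL.c (I.pos (nat_lit 0) (nat_lit 89480386)) (xR T0.l1 T0.l1)
  (TrL.c (I.pos (nat_lit 0) (nat_lit 41530880)) T2.l2
  (TrL.c (I.pos (nat_lit 0) (nat_lit 0)) (xb (xa T2.l3 T2.l3) T2.l3)
  (TrL.c (I.pos (nat_lit 0) (nat_lit 0)) T0.l2
  (TrL.c (I.mix (nat_lit 41527258) (nat_lit 41530880)) (xR T2.l4 T2.l5)
  (TrL.c (I.mix (nat_lit 41527258) (nat_lit 4274)) T0.l3
  TrL.n)))))))) (by decide +kernel)
theorem sv0 : StarV sI cl6 cl6 cl9 t0 t2 t0 :=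
  (bt_n (bt_n (bt_n (bt_b bx0_0) (bt_b bx0_1)) (bt_n (bt_b bx0_2) (bt_b bx0_3))) (bt_n (bt_n (bt_b bx0_4) (bt_b bx0_5)) (bt_n (bt_b bx0_6) (bt_b bx0_7))))
def S0 : StarD := StarD.mk cl6 cl6 cl9 0 2 t0
theorem bx1_0 : BoxOK sI cl6 cl9 cl6 t2 t0 b1_0 :=
  box_mk (TrL.c (I.pos (nat_lit 0) (nat_lit 0)) (xa (xa (xb T2.l0 (xa (xb T2.l0 T2.l0) (xb T2.l0 T2.l0))) (xb T2.l0 (xa (xb T2.l0 T2.l0) T2.l0))) (xa (xb (xa T2.l0 T2.l0) (xa T2.l0 T2.l0)) (xb T2.l3 (xa T2.l3 T2.l3))))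
  (TrL.c (I.pos (nat_lit 0) (nat_lit 0)) (xa T0.l4 T0.l4)
  (TrL.c (I.pos (nat_lit 0) (nat_lit 89480386)) (xR T2.l5 (xR T2.l5 T2.l5))
  (TrL.c (I.pos (nat_lit 0) (nat_lit 41530880)) T0.l5
  (TrL.c (I.pos (nat_lit 0) (nat_lit 0)) (xa T0.l7 (xb (xa T0.l7 (xb T0.l7 T0.l7)) (xa T0.l7 (xb T0.l7 T0.l7))))
  (TrL.c (I.pos (nat_lit 0) (nat_lit 0)) T2.l6
  (TrL.c (I.mix (nat_lit 41527258) (nat_lit 41530880)) (xR T0.l6 T0.l1)
  (TrL.c (I.mix (nat_lit 41527258) (nat_lit 4274)) T2.l7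
  TrL.n)))))))) (by decide +kernel)
theorem bx1_1 : BoxOK sI cl6 cl9 cl6 t2 t0 b1_1 :=
  box_mk (TrL.c (I.pos (nat_lit 0) (nat_lit 0)) T2.l0
  (TrL.c (I.pos (nat_lit 0) (nat_lit 0)) T0.l4
  (TrL.c (I.pos (nat_lit 0) (nat_lit 89480386)) (xR T2.l5 T2.l5)
  (TrL.c (I.pos (nat_lit 0) (nat_lit 41530880)) T0.l5
  (TrL.c (I.pos (nat_lit 0) (nat_lit 0)) T0.l7
  (TrL.c (I.pos (nat_lit 0) (nat_lit 0)) T2.l6
  (TrL.c (I.mix (nat_lit 41527258) (nat_lit 41530880)) T0.l6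
  (TrL.c (I.mix (nat_lit 41527258) (nat_lit 4274)) T2.l7
  TrL.n)))))))) (by decide +kernel)
theorem bx1_2 : BoxOK sI cl6 cl9 cl6 t2 t0 b1_2 :=
  box_mk (TrL.c (I.pos (nat_lit 0) (nat_lit 0)) (xa T2.l0 T2.l0)
  (TrL.c (I.pos (nat_lit 0) (nat_lit 0)) (xa T0.l4 T0.l4)
  (TrL.c (I.pos (nat_lit 0) (nat_lit 89480386)) T2.l5
  (TrL.c (I.pos (nat_lit 0) (nat_lit 41530880)) T0.l5
  (TrL.c (I.pos (nat_lit 0) (nat_lit 0)) (xa T0.l7 T0.l7)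
  (TrL.c (I.pos (nat_lit 0) (nat_lit 0)) T2.l6
  (TrL.c (I.mix (nat_lit 41527258) (nat_lit 41530880)) (xR T0.l6 T0.l1)
  (TrL.c (I.mix (nat_lit 41527258) (nat_lit 4274)) T2.l7
  TrL.n)))))))) (by decide +kernel)
theorem bx1_3 : BoxOK sI cl6 cl9 cl6 t2 t0 b1_3 :=
  box_mk (TrL.c (I.pos (nat_lit 0) (nat_lit 0)) (xa (xa (xb T2.l0 T2.l0) T2.l0) T2.l0)
  (TrL.c (I.pos (nat_lit 0) (nat_lit 0)) T0.l4
  (TrL.c (I.pos (nat_lit 0) (nat_lit 89480386)) T2.l5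
  (TrL.c (I.pos (nat_lit 0) (nat_lit 41530880)) T0.l5
  (TrL.c (I.pos (nat_lit 0) (nat_lit 0)) (xa T0.l7 T0.l7)
  (TrL.c (I.pos (nat_lit 0) (nat_lit 0)) T2.l6
  (TrL.c (I.mix (nat_lit 41527258) (nat_lit 41530880)) (xR T0.l6 T0.l1)
  (TrL.c (I.mix (nat_lit 41527258) (nat_lit 4274)) T2.l4
  TrL.n)))))))) (by decide +kernel)
theorem bx1_4 : BoxOK sI cl6 cl9 cl6 t2 t0 b1_4 :=
  box_mk (TrL.c (I.pos (nat_lit 0) (nat_lit 0)) (xb (xa (xb (xb (xa (xs T2.l0 T2.l0) (xs T2.l0 (xb T2.l0 T2.l0))) (xa T2.l0 (xs T2.l0 T2.l0))) T2.l0) (xb (xb (xa (xs T2.l0 (xb (xa T2.l0 T2.l0) T2.l0)) (xs T2.l0 (xb (xa T2.l0 T2.l0) T2.l0))) (xa (xs T2.l0 (xb T2.l0 T2.l0)) (xs T2.l0 (xb (xa T2.l0 T2.l0) T2.l0)))) (xb T2.l0 T2.l0))) (xa (xb (xa T2.l0 T2.l0) (xa T2.l0 T2.l0)) (xb T2.l0 (xa T2.l0 T2.l0))))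
  (TrL.c (I.pos (nat_lit 0) (nat_lit 0)) T0.l4
  (TrL.c (I.pos (nat_lit 0) (nat_lit 89480386)) (xR T2.l5 T2.l5)
  (TrL.c (I.pos (nat_lit 0) (nat_lit 41530880)) T0.l5
  (TrL.c (I.pos (nat_lit 0) (nat_lit 0)) (xb T0.l7 T0.l7)
  (TrL.c (I.pos (nat_lit 0) (nat_lit 0)) T2.l6
  (TrL.c (I.mix (nat_lit 41527258) (nat_lit 41530880)) (xR T0.l6 T0.l1)
  (TrL.c (I.mix (nat_lit 41527258) (nat_lit 4274)) T2.l7
  TrL.n)))))))) (by decide +kernel)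
theorem bx1_5 : BoxOK sI cl6 cl9 cl6 t2 t0 b1_5 :=
  box_mk (TrL.c (I.pos (nat_lit 0) (nat_lit 0)) T2.l0
  (TrL.c (I.pos (nat_lit 0) (nat_lit 0)) T0.l4
  (TrL.c (I.pos (nat_lit 0) (nat_lit 89480386)) (xR T2.l5 T2.l5)
  (TrL.c (I.pos (nat_lit 0) (nat_lit 41530880)) T0.l5
  (TrL.c (I.pos (nat_lit 0) (nat_lit 0)) T0.l7
  (TrL.c (I.pos (nat_lit 0) (nat_lit 0)) T2.l6
  (TrL.c (I.mix (nat_lit 41527258) (nat_lit 41530880)) T0.l6
  (TrL.c (I.mix (nat_lit 41527258) (nat_lit 4274)) T2.l7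
  TrL.n)))))))) (by decide +kernel)
theorem bx1_6 : BoxOK sI cl6 cl9 cl6 t2 t0 b1_6 :=
  box_mk (TrL.c (I.pos (nat_lit 0) (nat_lit 0)) (xa (xa (xb T2.l0 (xa T2.l0 T2.l0)) T2.l0) T2.l0)
  (TrL.c (I.pos (nat_lit 0) (nat_lit 0)) (xa T0.l4 T0.l4)
  (TrL.c (I.pos (nat_lit 0) (nat_lit 89480386)) (xR T2.l5 T2.l5)
  (TrL.c (I.pos (nat_lit 0) (nat_lit 41530880)) T0.l5
  (TrL.c (I.pos (nat_lit 0) (nat_lit 0)) (xa T0.l7 T0.l7)
  (TrL.c (I.pos (nat_lit 0) (nat_lit 0)) T2.l6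
  (TrL.c (I.mix (nat_lit 41527258) (nat_lit 41530880)) (xR T0.l6 T0.l1)
  (TrL.c (I.mix (nat_lit 41527258) (nat_lit 4274)) T2.l7
  TrL.n)))))))) (by decide +kernel)
theorem bx1_7 : BoxOK sI cl6 cl9 cl6 t2 t0 b1_7 :=
  box_mk (TrL.c (I.pos (nat_lit 0) (nat_lit 0)) (xa (xa (xb T2.l0 T2.l0) T2.l0) T2.l0)
  (TrL.c (I.pos (nat_lit 0) (nat_lit 0)) T0.l4
  (TrL.c (I.pos (nat_lit 0) (nat_lit 89480386)) T2.l5
  (TrL.c (I.pos (nat_lit 0) (nat_lit 41530880)) T0.l5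
  (TrL.c (I.pos (nat_lit 0) (nat_lit 0)) T0.l7
  (TrL.c (I.pos (nat_lit 0) (nat_lit 0)) T2.l6
  (TrL.c (I.mix (nat_lit 41527258) (nat_lit 41530880)) (xR T0.l6 T0.l1)
  (TrL.c (I.mix (nat_lit 41527258) (nat_lit 4274)) T2.l4
  TrL.n)))))))) (by decide +kernel)
theorem sv1 : StarV sI cl6 cl9 cl6 t2 t0 t1 :=
  (bt_n (bt_n (bt_n (bt_b bx1_0) (bt_b bx1_1)) (bt_n (bt_b bx1_2) (bt_b bx1_3))) (bt_n (bt_n (bt_b bx1_4) (bt_b bx1_5)) (bt_n (bt_b bx1_6) (bt_b bx1_7))))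
def S1 : StarD := StarD.mk cl6 cl9 cl6 2 0 t1
theorem bx2_0 : BoxOK sI cl9 cl6 cl6 t1 t1 b2_0 :=
  box_mk (TrL.c (I.pos (nat_lit 0) (nat_lit 0)) (xa (xa (xb T1.l0 (xa T1.l0 T1.l0)) (xb T1.l0 (xa T1.l0 T1.l0))) (xa (xb T1.l0 (xa T1.l0 T1.l0)) (xb (xb T1.l4 T1.l0) (xa T1.l0 T1.l4))))
  (TrL.c (I.pos (nat_lit 0) (nat_lit 0)) (xa T1.l1 T1.l1)
  (TrL.c (I.pos (nat_lit 0) (nat_lit 124588530)) (xR T1.l6 (xR T1.l2 T1.l6))
  (TrL.c (I.pos (nat_lit 0) (nat_lit 96881482)) (xR T1.l3 (xR T1.l3 T1.l3))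
  (TrL.c (I.pos (nat_lit 0) (nat_lit 0)) (xa (xb (xa T1.l4 (xk T1.l4 T1.l4)) (xa T1.l4 T1.l4)) (xb (xa (xk (xb T1.l4 T1.l4) (xb T1.l4 T1.l4)) (xk (xb (xa T1.l4 T1.l4) T1.l4) (xb (xa T1.l4 T1.l4) T1.l4))) (xa (xk (xb T1.l4 T1.l4) (xb T1.l4 (xs T1.l4 T1.l4))) (xk (xb (xa T1.l4 T1.l4) (xa (xs T1.l4 T1.l4) (xs (xk T1.l4 T1.l4) (xk (xb T1.l4 T1.l4) (xb T1.l4 T1.l4))))) (xb (xa T1.l4 (xs T1.l4 T1.l4)) (xa (xs T1.l4 (xk T1.l4 T1.l4)) (xs (xk T1.l4 (xb T1.l4 T1.l4)) (xk (xb T1.l4 (xs T1.l4 T1.l4)) (xb T1.l4 (xs T1.l4 (xa T1.l4 T1.l4)))))))))))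
  (TrL.c (I.pos (nat_lit 0) (nat_lit 0)) (xa T1.l5 T1.l5)
  (TrL.c (I.mix (nat_lit 17240550) (nat_lit 96881482)) (xR T1.l6 (xR T1.l6 T1.l6))
  (TrL.c (I.mix (nat_lit 17240550) (nat_lit 71940500)) (xR T1.l7 T1.l7)
  TrL.n)))))))) (by decide +kernel)
theorem bx2_1 : BoxOK sI cl9 cl6 cl6 t1 t1 b2_1 :=
  box_mk (TrL.c (I.pos (nat_lit 0) (nat_lit 0)) T1.l0
  (TrL.c (I.pos (nat_lit 0) (nat_lit 0)) T1.l1
  (TrL.c (I.pos (nat_lit 0) (nat_lit 124588530)) (xR T1.l2 T1.l2)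
  (TrL.c (I.pos (nat_lit 0) (nat_lit 96881482)) (xR T1.l3 T1.l3)
  (TrL.c (I.pos (nat_lit 0) (nat_lit 0)) (xa T1.l4 T1.l4)
  (TrL.c (I.pos (nat_lit 0) (nat_lit 0)) T1.l5
  (TrL.c (I.mix (nat_lit 17240550) (nat_lit 96881482)) T1.l6
  (TrL.c (I.mix (nat_lit 17240550) (nat_lit 71940500)) T1.l7
  TrL.n)))))))) (by decide +kernel)
theorem bx2_2 : BoxOK sI cl9 cl6 cl6 t1 t1 b2_2 :=
  box_mk (TrL.c (I.pos (nat_lit 0) (nat_lit 0)) T1.l0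
  (TrL.c (I.pos (nat_lit 0) (nat_lit 0)) T1.l1
  (TrL.c (I.pos (nat_lit 0) (nat_lit 124588530)) T1.l2
  (TrL.c (I.pos (nat_lit 0) (nat_lit 96881482)) T1.l6
  (TrL.c (I.pos (nat_lit 0) (nat_lit 0)) T1.l4
  (TrL.c (I.pos (nat_lit 0) (nat_lit 0)) T1.l5
  (TrL.c (I.mix (nat_lit 17240550) (nat_lit 96881482)) T1.l6
  (TrL.c (I.mix (nat_lit 17240550) (nat_lit 71940500)) T1.l6
  TrL.n)))))))) (by decide +kernel)
theorem bx2_3 : BoxOK sI cl9 cl6 cl6 t1 t1 b2_3 :=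
  box_mk (TrL.c (I.pos (nat_lit 0) (nat_lit 0)) (xb (xa (xb T1.l0 T1.l0) (xb T1.l0 T1.l0)) (xa (xb (xa T1.l0 T1.l0) (xa T1.l0 T1.l0)) (xa (xb T1.l0 T1.l0) (xb T1.l0 T1.l0))))
  (TrL.c (I.pos (nat_lit 0) (nat_lit 0)) T1.l1
  (TrL.c (I.pos (nat_lit 0) (nat_lit 124588530)) (xR T1.l2 (xR T1.l2 T1.l2))
  (TrL.c (I.pos (nat_lit 0) (nat_lit 96881482)) (xR T1.l3 T1.l3)
  (TrL.c (I.pos (nat_lit 0) (nat_lit 0)) (xb (xa T1.l4 (xk T1.l4 T1.l4)) (xa T1.l4 (xb T1.l4 T1.l4)))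
  (TrL.c (I.pos (nat_lit 0) (nat_lit 0)) T1.l5
  (TrL.c (I.mix (nat_lit 17240550) (nat_lit 96881482)) (xR T1.l6 (xR T1.l6 T1.l6))
  (TrL.c (I.mix (nat_lit 17240550) (nat_lit 71940500)) (xR T1.l7 T1.l3)
  TrL.n)))))))) (by decide +kernel)
theorem bx2_4 : BoxOK sI cl9 cl6 cl6 t1 t1 b2_4 :=
  box_mk (TrL.c (I.pos (nat_lit 0) (nat_lit 0)) (xa (xa (xb T1.l0 T1.l0) T1.l0) T1.l0)
  (TrL.c (I.pos (nat_lit 0) (nat_lit 0)) (xa T1.l4 T1.l1)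
  (TrL.c (I.pos (nat_lit 0) (nat_lit 124588530)) T1.l2
  (TrL.c (I.pos (nat_lit 0) (nat_lit 96881482)) (xR T1.l3 T1.l3)
  (TrL.c (I.pos (nat_lit 0) (nat_lit 0)) (xa T1.l1 T1.l4)
  (TrL.c (I.pos (nat_lit 0) (nat_lit 0)) T1.l5
  (TrL.c (I.mix (nat_lit 17240550) (nat_lit 96881482)) T1.l6
  (TrL.c (I.mix (nat_lit 17240550) (nat_lit 71940500)) T1.l6
  TrL.n)))))))) (by decide +kernel)
theorem bx2_5 : BoxOK sI cl9 cl6 cl6 t1 t1 b2_5 :=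
  box_mk (TrL.c (I.pos (nat_lit 0) (nat_lit 0)) (xa T1.l0 T1.l0)
  (TrL.c (I.pos (nat_lit 0) (nat_lit 0)) T1.l1
  (TrL.c (I.pos (nat_lit 0) (nat_lit 124588530)) T1.l2
  (TrL.c (I.pos (nat_lit 0) (nat_lit 96881482)) T1.l3
  (TrL.c (I.pos (nat_lit 0) (nat_lit 0)) (xa T1.l4 T1.l4)
  (TrL.c (I.pos (nat_lit 0) (nat_lit 0)) T1.l5
  (TrL.c (I.mix (nat_lit 17240550) (nat_lit 96881482)) T1.l6
  (TrL.c (I.mix (nat_lit 17240550) (nat_lit 71940500)) T1.l6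
  TrL.n)))))))) (by decide +kernel)
theorem bx2_6 : BoxOK sI cl9 cl6 cl6 t1 t1 b2_6 :=
  box_mk (TrL.c (I.pos (nat_lit 0) (nat_lit 0)) T1.l0
  (TrL.c (I.pos (nat_lit 0) (nat_lit 0)) T1.l1
  (TrL.c (I.pos (nat_lit 0) (nat_lit 124588530)) (xR T1.l2 T1.l2)
  (TrL.c (I.pos (nat_lit 0) (nat_lit 96881482)) T1.l3
  (TrL.c (I.pos (nat_lit 0) (nat_lit 0)) T1.l4
  (TrL.c (I.pos (nat_lit 0) (nat_lit 0)) T1.l5
  (TrL.c (I.mix (nat_lit 17240550) (nat_lit 96881482)) T1.l6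
  (TrL.c (I.mix (nat_lit 17240550) (nat_lit 71940500)) T1.l7
  TrL.n)))))))) (by decide +kernel)
theorem bx2_7 : BoxOK sI cl9 cl6 cl6 t1 t1 b2_7 :=
  box_mk (TrL.c (I.pos (nat_lit 0) (nat_lit 0)) (xa (xb (xa T1.l0 T1.l0) T1.l0) T1.l0)
  (TrL.c (I.pos (nat_lit 0) (nat_lit 0)) T1.l4
  (TrL.c (I.pos (nat_lit 0) (nat_lit 124588530)) (xR T1.l2 T1.l2)
  (TrL.c (I.pos (nat_lit 0) (nat_lit 96881482)) T1.l6
  (TrL.c (I.pos (nat_lit 0) (nat_lit 0)) T1.l1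
  (TrL.c (I.pos (nat_lit 0) (nat_lit 0)) T1.l5
  (TrL.c (I.mix (nat_lit 17240550) (nat_lit 96881482)) (xR T1.l6 T1.l3)
  (TrL.c (I.mix (nat_lit 17240550) (nat_lit 71940500)) T1.l6
  TrL.n)))))))) (by decide +kernel)
theorem sv2 : StarV sI cl9 cl6 cl6 t1 t1 t2 :=
  (bt_n (bt_n (bt_n (bt_b bx2_0) (bt_b bx2_1)) (bt_n (bt_b bx2_2) (bt_b bx2_3))) (bt_n (bt_n (bt_b bx2_4) (bt_b bx2_5)) (bt_n (bt_b bx2_6) (bt_b bx2_7))))
def S2 : StarD := StarD.mk cl9 cl6 cl6 1 1 t2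
def G : List StarD := [S0, S1, S2]
theorem so0 : StarOK sI G S0 :=
  star_mk (by decide) (by decide) rfl rfl rfl rfl rfl rfl (rfl : _ = t0) (rfl : _ = t2)
  (st_mk (Pth.l (Pth.l (Pth.l Pth.z))) (nat_lit 189428118) (nat_lit 190050716) (by decide +kernel))
  (st_mk (Pth.l (Pth.l (Pth.l Pth.z))) (nat_lit 225718361) (nat_lit 226605590) (by decide +kernel))
  (st_mk (Pth.l (Pth.l (Pth.l Pth.z))) (nat_lit 267910254) (nat_lit 269168353) (by decide +kernel)) sv0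
theorem so1 : StarOK sI G S1 :=
  star_mk (by decide) (by decide) rfl rfl rfl rfl rfl rfl (rfl : _ = t2) (rfl : _ = t0)
  (st_mk (Pth.l (Pth.l (Pth.l Pth.z))) (nat_lit 116704001) (nat_lit 135379083) (by decide +kernel))
  (st_mk (Pth.l (Pth.l (Pth.l Pth.z))) (nat_lit 152742503) (nat_lit 171715220) (by decide +kernel))
  (st_mk (Pth.l (Pth.l (Pth.l Pth.z))) (nat_lit 194720751) (nat_lit 214091956) (by decide +kernel)) sv1
theorem so2 : StarOK sI G S2 :=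
  star_mk (by decide) (by decide) rfl rfl rfl rfl rfl rfl (rfl : _ = t1) (rfl : _ = t1)
  (st_mk (Pth.l (Pth.l (Pth.l Pth.z))) (nat_lit 186722769) (nat_lit 188205848) (by decide +kernel))
  (st_mk (Pth.l (Pth.l (Pth.l Pth.z))) (nat_lit 221982436) (nat_lit 223859259) (by decide +kernel))
  (st_mk (Pth.l (Pth.l (Pth.l Pth.z))) (nat_lit 262745449) (nat_lit 265165333) (by decide +kernel)) sv2
theorem ok : GroupOK (nat_lit 150274048) (nat_lit 209387520) G := grp_mk (allS_c so0 (allS_c so1 (allS_c so2 allS_n)))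
theorem cov : GCov G cl6 cl6 cl9 := cov_mk
  ⟨0, by decide, rfl, rfl, rfl⟩ ⟨1, by decide, rfl, rfl, rfl⟩ ⟨0, by decide, rfl, rfl, rfl⟩ ⟨1, by decide, rfl, rfl, rfl⟩ ⟨2, by decide, rfl, rfl, rfl⟩ ⟨2, by decide, rfl, rfl, rfl⟩
end Q335_2


end Pool.Agent.Helper6.MONO
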