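import Pool.Agent.Helper6.MONO.Asm

/-!
Certificate data (generated).
-/

set_option autoImplicit false
set_option linter.all false
noncomputable section
namespace Pool.Agent.Helper6.MONO


namespace Q335_3
def sI : I := I.pos (nat_lit 209321984) (nat_lit 268435456)
def b0_0 : Bx := Bx.mk (St.mk (I.pos (nat_lit 152059904) (nat_lit 230490112)) (I.mix (nat_lit 1867776) (nat_lit 61849600)) (I.mix (nat_lit 2424832) (nat_lit 82083840)) (I.pos (nat_lit 186155008) (nat_lit 297664512)) (I.mix (nat_lit 125960192) (nat_lit 78053376)) (I.mix (nat_lit 73203712) (nat_lit 63635456)) (I.mix (nat_lit 99450880) (nat_lit 93454336)))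
  false (nat_lit 39206163)
def b0_1 : Bx := Bx.mk (St.mk (I.mix (nat_lit 31195136) (nat_lit 102187008)) (I.mix (nat_lit 10944512) (nat_lit 38076416)) (I.mix (nat_lit 23052288) (nat_lit 9830400)) (I.pos (nat_lit 78626816) (nat_lit 127221760)) (I.mix (nat_lit 42942464) (nat_lit 56623104)) (I.mix (nat_lit 43106304) (nat_lit 33423360)) (I.mix (nat_lit 27770880) (nat_lit 17334272)))
  false (nat_lit 0)
def b0_2 : Bx := Bx.mk (St.mk (I.pos (nat_lit 76611584) (nat_lit 120750080)) (I.mix (nat_lit 53182464) (nat_lit 8798208)) (I.neg (nat_lit 7520256) (nat_lit 53673984)) (I.pos (nat_lit 110559232) (nat_lit 144490496)) (I.mix (nat_lit 84164608) (nat_lit 28262400)) (I.mix (nat_lit 31997952) (nat_lit 64143360)) (I.mix (nat_lit 22822912) (nat_lit 43630592)))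
  false (nat_lit 0)
def b0_3 : Bx := Bx.mk (St.mk (I.mix (nat_lit 51593216) (nat_lit 29179904)) (I.mix (nat_lit 32931840) (nat_lit 8683520)) (I.neg (nat_lit 917504) (nat_lit 15335424)) (I.pos (nat_lit 83001344) (nat_lit 101531648)) (I.mix (nat_lit 40534016) (nat_lit 25952256)) (I.mix (nat_lit 19939328) (nat_lit 28377088)) (I.mix (nat_lit 10829824) (nat_lit 7258112)))
  false (nat_lit 0)
def b0_4 : Bx := Bx.mk (St.mk (I.pos (nat_lit 190545920) (nat_lit 286195712)) (I.mix (nat_lit 29605888) (nat_lit 42385408)) (I.mix (nat_lit 105234432) (nat_lit 38060032)) (I.pos (nat_lit 250593280) (nat_lit 403947520)) (I.mix (nat_lit 86491136) (nat_lit 64192512)) (I.mix (nat_lit 62554112) (nat_lit 52822016)) (I.mix (nat_lit 111902720) (nat_lit 95076352)))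
  false (nat_lit 22154121)
def b0_5 : Bx := Bx.mk (St.mk (I.pos (nat_lit 88358912) (nat_lit 162414592)) (I.neg (nat_lit 6078464) (nat_lit 55967744)) (I.neg (nat_lit 8142848) (nat_lit 56328192)) (I.pos (nat_lit 125566976) (nat_lit 190087168)) (I.mix (nat_lit 93650944) (nat_lit 51986432)) (I.mix (nat_lit 45268992) (nat_lit 56098816)) (I.mix (nat_lit 37011456) (nat_lit 49086464)))
  false (nat_lit 0)
def b0_6 : Bx := Bx.mk (St.mk (I.mix (nat_lit 37666816) (nat_lit 48185344)) (I.mix (nat_lit 33439744) (nat_lit 6258688)) (I.neg (nat_lit 1654784) (nat_lit 17399808)) (I.pos (nat_lit 81690624) (nat_lit 101990400)) (I.mix (nat_lit 40075264) (nat_lit 39124992)) (I.mix (nat_lit 28033024) (nat_lit 32161792)) (I.mix (nat_lit 11632640) (nat_lit 12976128)))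
  false (nat_lit 0)
def b0_7 : Bx := Bx.mk (St.mk (I.mix (nat_lit 49381376) (nat_lit 75530240)) (I.mix (nat_lit 9879552) (nat_lit 34291712)) (I.mix (nat_lit 17301504) (nat_lit 7667712)) (I.pos (nat_lit 82673664) (nat_lit 112721920)) (I.mix (nat_lit 55721984) (nat_lit 46252032)) (I.mix (nat_lit 41926656) (nat_lit 36929536)) (I.mix (nat_lit 16547840) (nat_lit 18595840)))
  false (nat_lit 0)
def b0_8 : Bx := Bx.mk (St.mk (I.pos (nat_lit 156942336) (nat_lit 209256448)) (I.mix (nat_lit 2883584) (nat_lit 58556416)) (I.pos (nat_lit 6029312) (nat_lit 76955648)) (I.pos (nat_lit 193167360) (nat_lit 261783552)) (I.mix (nat_lit 135954432) (nat_lit 58114048)) (I.mix (nat_lit 118571008) (nat_lit 72941568)) (I.mix (nat_lit 110526464) (nat_lit 69795840)))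
  false (nat_lit 19498833)
def b0_9 : Bx := Bx.mk (St.mk (I.pos (nat_lit 135577600) (nat_lit 199589888)) (I.mix (nat_lit 38322176) (nat_lit 16318464)) (I.mix (nat_lit 41107456) (nat_lit 23494656)) (I.pos (nat_lit 163840000) (nat_lit 237174784)) (I.mix (nat_lit 69091328) (nat_lit 56901632)) (I.mix (nat_lit 54263808) (nat_lit 48529408)) (I.mix (nat_lit 52674560) (nat_lit 45285376)))
  false (nat_lit 0)
def b0_10 : Bx := Bx.mk (St.mk (I.pos (nat_lit 162103296) (nat_lit 200638464)) (I.mix (nat_lit 8650752) (nat_lit 29818880)) (I.mix (nat_lit 4243456) (nat_lit 43859968)) (I.pos (nat_lit 200097792) (nat_lit 239108096)) (I.mix (nat_lit 94994432) (nat_lit 66191360)) (I.mix (nat_lit 104644608) (nat_lit 56967168)) (I.mix (nat_lit 101695488) (nat_lit 52183040)))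
  false (nat_lit 0)
def b0_11 : Bx := Bx.mk (St.mk (I.pos (nat_lit 175964160) (nat_lit 231456768)) (I.pos (nat_lit 11173888) (nat_lit 60997632)) (I.pos (nat_lit 3997696) (nat_lit 78430208)) (I.pos (nat_lit 240680960) (nat_lit 293896192)) (I.mix (nat_lit 112951296) (nat_lit 84901888)) (I.mix (nat_lit 84508672) (nat_lit 64143360)) (I.mix (nat_lit 129040384) (nat_lit 88391680)))
  false (nat_lit 38263075)
def t0 : BTr := (BTr.n (BTr.n (BTr.n (BTr.b b0_0) (BTr.n (BTr.b b0_1) (BTr.b b0_2))) (BTr.n (BTr.b b0_3) (BTr.n (BTr.b b0_4) (BTr.b b0_5)))) (BTr.n (BTr.n (BTr.b b0_6) (BTr.n (BTr.b b0_7) (BTr.b b0_8))) (BTr.n (BTr.b b0_9) (BTr.n (BTr.b b0_10) (BTr.b b0_11)))))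
namespace T0
def l0 : Tr := Tr.L (Pth.l (Pth.l (Pth.l Pth.z)))
def l1 : Tr := Tr.L (Pth.l (Pth.l (Pth.r (Pth.l Pth.z))))
def l2 : Tr := Tr.L (Pth.l (Pth.l (Pth.r (Pth.r Pth.z))))
def l3 : Tr := Tr.L (Pth.l (Pth.r (Pth.l Pth.z)))
def l4 : Tr := Tr.L (Pth.l (Pth.r (Pth.r (Pth.l Pth.z))))
def l5 : Tr := Tr.L (Pth.l (Pth.r (Pth.r (Pth.r Pth.z))))
def l6 : Tr := Tr.L (Pth.r (Pth.l (Pth.l Pth.z)))
def l7 : Tr := Tr.L (Pth.r (Pth.l (Pth.r (Pth.l Pth.z))))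
def l8 : Tr := Tr.L (Pth.r (Pth.l (Pth.r (Pth.r Pth.z))))
def l9 : Tr := Tr.L (Pth.r (Pth.r (Pth.l Pth.z)))
def l10 : Tr := Tr.L (Pth.r (Pth.r (Pth.r (Pth.l Pth.z))))
def l11 : Tr := Tr.L (Pth.r (Pth.r (Pth.r (Pth.r Pth.z))))
end T0
def b1_0 : Bx := Bx.mk (St.mk (I.pos (nat_lit 151470080) (nat_lit 237862912)) (I.mix (nat_lit 1556480) (nat_lit 51724288)) (I.mix (nat_lit 2555904) (nat_lit 90144768)) (I.pos (nat_lit 113508352) (nat_lit 245432320)) (I.mix (nat_lit 136560640) (nat_lit 92258304)) (I.mix (nat_lit 94044160) (nat_lit 87965696)) (I.mix (nat_lit 131612672) (nat_lit 119504896)))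
  false (nat_lit 49163310)
def b1_1 : Bx := Bx.mk (St.mk (I.pos (nat_lit 107298816) (nat_lit 181551104)) (I.neg (nat_lit 4308992) (nat_lit 50528256)) (I.mix (nat_lit 48742400) (nat_lit 344064)) (I.pos (nat_lit 79806464) (nat_lit 161923072)) (I.mix (nat_lit 82870272) (nat_lit 49922048)) (I.mix (nat_lit 47022080) (nat_lit 52527104)) (I.mix (nat_lit 41877504) (nat_lit 53018624)))
  false (nat_lit 35825790)
def b1_2 : Bx := Bx.mk (St.mk (I.mix (nat_lit 17268736) (nat_lit 136101888)) (I.mix (nat_lit 8634368) (nat_lit 28950528)) (I.mix (nat_lit 11026432) (nat_lit 23560192)) (I.pos (nat_lit 15089664) (nat_lit 103546880)) (I.mix (nat_lit 47153152) (nat_lit 42991616)) (I.mix (nat_lit 34275328) (nat_lit 31604736)) (I.mix (nat_lit 26427392) (nat_lit 24117248)))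
  false (nat_lit 0)
def b1_3 : Bx := Bx.mk (St.mk (I.mix (nat_lit 25788416) (nat_lit 106528768)) (I.mix (nat_lit 28278784) (nat_lit 5603328)) (I.mix (nat_lit 18481152) (nat_lit 4816896)) (I.pos (nat_lit 14991360) (nat_lit 77578240)) (I.mix (nat_lit 40108032) (nat_lit 34045952)) (I.mix (nat_lit 24608768) (nat_lit 29065216)) (I.mix (nat_lit 15499264) (nat_lit 17956864)))
  false (nat_lit 0)
def b1_4 : Bx := Bx.mk (St.mk (I.pos (nat_lit 164495360) (nat_lit 211501056)) (I.mix (nat_lit 15155200) (nat_lit 47546368)) (I.pos (nat_lit 2768896) (nat_lit 80887808)) (I.pos (nat_lit 125042688) (nat_lit 206225408)) (I.mix (nat_lit 135757824) (nat_lit 61767680)) (I.mix (nat_lit 120225792) (nat_lit 71532544)) (I.mix (nat_lit 130662400) (nat_lit 72548352)))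
  false (nat_lit 0)
def b1_5 : Bx := Bx.mk (St.mk (I.pos (nat_lit 103759872) (nat_lit 147767296)) (I.mix (nat_lit 48660480) (nat_lit 8159232)) (I.mix (nat_lit 46841856) (nat_lit 5029888)) (I.pos (nat_lit 61980672) (nat_lit 116391936)) (I.mix (nat_lit 94601216) (nat_lit 38862848)) (I.mix (nat_lit 40091648) (nat_lit 77922304)) (I.mix (nat_lit 30818304) (nat_lit 62373888)))
  false (nat_lit 8412812)
def b1_6 : Bx := Bx.mk (St.mk (I.mix (nat_lit 25329664) (nat_lit 121274368)) (I.mix (nat_lit 12779520) (nat_lit 31834112)) (I.mix (nat_lit 8060928) (nat_lit 25427968)) (I.pos (nat_lit 15908864) (nat_lit 90570752)) (I.mix (nat_lit 62455808) (nat_lit 29818880)) (I.mix (nat_lit 49152000) (nat_lit 30982144)) (I.mix (nat_lit 30703616) (nat_lit 19791872)))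
  false (nat_lit 0)
def b1_7 : Bx := Bx.mk (St.mk (I.mix (nat_lit 19644416) (nat_lit 92618752)) (I.mix (nat_lit 26312704) (nat_lit 262144)) (I.mix (nat_lit 16400384) (nat_lit 2113536)) (I.pos (nat_lit 16515072) (nat_lit 67387392)) (I.mix (nat_lit 41861120) (nat_lit 23248896)) (I.mix (nat_lit 20873216) (nat_lit 30572544)) (I.mix (nat_lit 11452416) (nat_lit 15532032)))
  false (nat_lit 0)
def b1_8 : Bx := Bx.mk (St.mk (I.pos (nat_lit 195313664) (nat_lit 286801920)) (I.mix (nat_lit 27328512) (nat_lit 35897344)) (I.mix (nat_lit 64225280) (nat_lit 62685184)) (I.pos (nat_lit 184745984) (nat_lit 353599488)) (I.mix (nat_lit 86392832) (nat_lit 60014592)) (I.mix (nat_lit 62603264) (nat_lit 57556992)) (I.mix (nat_lit 99467264) (nat_lit 97845248)))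
  false (nat_lit 52518561)
def b1_9 : Bx := Bx.mk (St.mk (I.pos (nat_lit 147587072) (nat_lit 208289792)) (I.mix (nat_lit 38486016) (nat_lit 9273344)) (I.mix (nat_lit 35749888) (nat_lit 27623424)) (I.pos (nat_lit 110034944) (nat_lit 193593344)) (I.mix (nat_lit 58015744) (nat_lit 52543488)) (I.mix (nat_lit 50528256) (nat_lit 45907968)) (I.mix (nat_lit 54198272) (nat_lit 49070080)))
  false (nat_lit 23340032)
def b1_10 : Bx := Bx.mk (St.mk (I.pos (nat_lit 178765824) (nat_lit 234143744)) (I.pos (nat_lit 8699904) (nat_lit 49119232)) (I.pos (nat_lit 18300928) (nat_lit 85770240)) (I.pos (nat_lit 175947776) (nat_lit 236273664)) (I.mix (nat_lit 110936064) (nat_lit 72302592)) (I.mix (nat_lit 87867392) (nat_lit 57131008)) (I.mix (nat_lit 138444800) (nat_lit 70287360)))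
  false (nat_lit 51015474)
def b1_11 : Bx := Bx.mk (St.mk (I.pos (nat_lit 170803200) (nat_lit 210124800)) (I.mix (nat_lit 16613376) (nat_lit 22544384)) (I.mix (nat_lit 786432) (nat_lit 47267840)) (I.pos (nat_lit 133234688) (nat_lit 194985984)) (I.mix (nat_lit 81756160) (nat_lit 54722560)) (I.mix (nat_lit 82919424) (nat_lit 50135040)) (I.mix (nat_lit 91832320) (nat_lit 52428800)))
  false (nat_lit 30582444)
def t1 : BTr := (BTr.n (BTr.n (BTr.n (BTr.b b1_0) (BTr.n (BTr.b b1_1) (BTr.b b1_2))) (BTr.n (BTr.b b1_3) (BTr.n (BTr.b b1_4) (BTr.b b1_5)))) (BTr.n (BTr.n (BTr.b b1_6) (BTr.n (BTr.b b1_7) (BTr.b b1_8))) (BTr.n (BTr.b b1_9) (BTr.n (BTr.b b1_10) (BTr.b b1_11)))))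
namespace T1
def l0 : Tr := Tr.L (Pth.l (Pth.l (Pth.l Pth.z)))
def l1 : Tr := Tr.L (Pth.l (Pth.l (Pth.r (Pth.l Pth.z))))
def l2 : Tr := Tr.L (Pth.l (Pth.l (Pth.r (Pth.r Pth.z))))
def l3 : Tr := Tr.L (Pth.l (Pth.r (Pth.l Pth.z)))
def l4 : Tr := Tr.L (Pth.l (Pth.r (Pth.r (Pth.l Pth.z))))
def l5 : Tr := Tr.L (Pth.l (Pth.r (Pth.r (Pth.r Pth.z))))
def l6 : Tr := Tr.L (Pth.r (Pth.l (Pth.l Pth.z)))
def l7 : Tr := Tr.L (Pth.r (Pth.l (Pth.r (Pth.l Pth.z))))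
def l8 : Tr := Tr.L (Pth.r (Pth.l (Pth.r (Pth.r Pth.z))))
def l9 : Tr := Tr.L (Pth.r (Pth.r (Pth.l Pth.z)))
def l10 : Tr := Tr.L (Pth.r (Pth.r (Pth.r (Pth.l Pth.z))))
def l11 : Tr := Tr.L (Pth.r (Pth.r (Pth.r (Pth.r Pth.z))))
end T1
def b2_0 : Bx := Bx.mk (St.mk (I.pos (nat_lit 138739712) (nat_lit 230113280)) (I.mix (nat_lit 1785856) (nat_lit 59342848)) (I.mix (nat_lit 2949120) (nat_lit 101269504)) (I.pos (nat_lit 183697408) (nat_lit 284999680)) (I.mix (nat_lit 147423232) (nat_lit 99385344)) (I.mix (nat_lit 94732288) (nat_lit 93077504)) (I.mix (nat_lit 130777088) (nat_lit 119193600)))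
  false (nat_lit 67286369)
def b2_1 : Bx := Bx.mk (St.mk (I.pos (nat_lit 86589440) (nat_lit 168230912)) (I.neg (nat_lit 9011200) (nat_lit 58277888)) (I.mix (nat_lit 44777472) (nat_lit 11239424)) (I.pos (nat_lit 127385600) (nat_lit 194674688)) (I.mix (nat_lit 79740928) (nat_lit 48889856)) (I.mix (nat_lit 35848192) (nat_lit 53362688)) (I.mix (nat_lit 30392320) (nat_lit 46186496)))
  false (nat_lit 23117418)
def b2_2 : Bx := Bx.mk (St.mk (I.mix (nat_lit 31129600) (nat_lit 51429376)) (I.mix (nat_lit 33112064) (nat_lit 7241728)) (I.mix (nat_lit 6651904) (nat_lit 7946240)) (I.pos (nat_lit 83656704) (nat_lit 101089280)) (I.mix (nat_lit 30588928) (nat_lit 36339712)) (I.mix (nat_lit 20987904) (nat_lit 28033024)) (I.mix (nat_lit 7946240) (nat_lit 10403840)))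
  false (nat_lit 0)
def b2_3 : Bx := Bx.mk (St.mk (I.pos (nat_lit 152125440) (nat_lit 202473472)) (I.mix (nat_lit 3801088) (nat_lit 56328192)) (I.pos (nat_lit 21905408) (nat_lit 94781440)) (I.pos (nat_lit 182517760) (nat_lit 244269056)) (I.mix (nat_lit 139116544) (nat_lit 44351488)) (I.mix (nat_lit 107921408) (nat_lit 54820864)) (I.mix (nat_lit 104005632) (nat_lit 45613056)))
  false (nat_lit 52864603)
def b2_4 : Bx := Bx.mk (St.mk (I.mix (nat_lit 52690944) (nat_lit 76005376)) (I.mix (nat_lit 10813440) (nat_lit 39944192)) (I.mix (nat_lit 7946240) (nat_lit 18448384)) (I.pos (nat_lit 82100224) (nat_lit 110608384)) (I.mix (nat_lit 52805632) (nat_lit 40173568)) (I.mix (nat_lit 38764544) (nat_lit 28000256)) (I.mix (nat_lit 14352384) (nat_lit 14663680)))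
  false (nat_lit 0)
def b2_5 : Bx := Bx.mk (St.mk (I.pos (nat_lit 134103040) (nat_lit 196788224)) (I.mix (nat_lit 36208640) (nat_lit 10584064)) (I.mix (nat_lit 20594688) (nat_lit 38584320)) (I.pos (nat_lit 163971072) (nat_lit 227033088)) (I.mix (nat_lit 58933248) (nat_lit 60817408)) (I.mix (nat_lit 54296576) (nat_lit 48726016)) (I.mix (nat_lit 49594368) (nat_lit 45367296)))
  false (nat_lit 51251303)
def b2_6 : Bx := Bx.mk (St.mk (I.mix (nat_lit 38109184) (nat_lit 98779136)) (I.mix (nat_lit 7094272) (nat_lit 37814272)) (I.mix (nat_lit 8306688) (nat_lit 22659072)) (I.pos (nat_lit 76840960) (nat_lit 125566976)) (I.mix (nat_lit 55508992) (nat_lit 58671104)) (I.mix (nat_lit 45629440) (nat_lit 42221568)) (I.mix (nat_lit 29982720) (nat_lit 26263552)))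
  false (nat_lit 0)
def b2_7 : Bx := Bx.mk (St.mk (I.pos (nat_lit 78036992) (nat_lit 124960768)) (I.mix (nat_lit 58195968) (nat_lit 7798784)) (I.mix (nat_lit 44417024) (nat_lit 2752512)) (I.pos (nat_lit 113442816) (nat_lit 151142400)) (I.mix (nat_lit 90554368) (nat_lit 36339712)) (I.mix (nat_lit 41598976) (nat_lit 70713344)) (I.mix (nat_lit 30392320) (nat_lit 45023232)))
  false (nat_lit 23767069)
def b2_8 : Bx := Bx.mk (St.mk (I.mix (nat_lit 48594944) (nat_lit 34570240)) (I.mix (nat_lit 33259520) (nat_lit 5226496)) (I.mix (nat_lit 5111808) (nat_lit 9027584)) (I.pos (nat_lit 83050496) (nat_lit 101597184)) (I.mix (nat_lit 40976384) (nat_lit 33488896)) (I.mix (nat_lit 26640384) (nat_lit 30228480)) (I.mix (nat_lit 12189696) (nat_lit 9568256)))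
  false (nat_lit 0)
def b2_9 : Bx := Bx.mk (St.mk (I.pos (nat_lit 178208768) (nat_lit 287703040)) (I.mix (nat_lit 23642112) (nat_lit 45760512)) (I.mix (nat_lit 54149120) (nat_lit 80003072)) (I.pos (nat_lit 234766336) (nat_lit 397606912)) (I.mix (nat_lit 94486528) (nat_lit 74416128)) (I.mix (nat_lit 66928640) (nat_lit 49496064)) (I.mix (nat_lit 117227520) (nat_lit 80379904)))
  false (nat_lit 85526754)
def b2_10 : Bx := Bx.mk (St.mk (I.pos (nat_lit 166952960) (nat_lit 228376576)) (I.pos (nat_lit 10452992) (nat_lit 57212928)) (I.pos (nat_lit 26001408) (nat_lit 98222080)) (I.pos (nat_lit 221904896) (nat_lit 277004288)) (I.mix (nat_lit 125714432) (nat_lit 96862208)) (I.mix (nat_lit 99205120) (nat_lit 76431360)) (I.mix (nat_lit 145424384) (nat_lit 89407488)))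
  false (nat_lit 41163410)
def b2_11 : Bx := Bx.mk (St.mk (I.pos (nat_lit 153042944) (nat_lit 198230016)) (I.mix (nat_lit 10862592) (nat_lit 31784960)) (I.pos (nat_lit 13385728) (nat_lit 67420160)) (I.pos (nat_lit 182206464) (nat_lit 231636992)) (I.mix (nat_lit 128696320) (nat_lit 61669376)) (I.mix (nat_lit 118063104) (nat_lit 49807360)) (I.mix (nat_lit 114671616) (nat_lit 45350912)))
  false (nat_lit 36578403)
def t2 : BTr := (BTr.n (BTr.n (BTr.n (BTr.b b2_0) (BTr.n (BTr.b b2_1) (BTr.b b2_2))) (BTr.n (BTr.b b2_3) (BTr.n (BTr.b b2_4) (BTr.b b2_5)))) (BTr.n (BTr.n (BTr.b b2_6) (BTr.n (BTr.b b2_7) (BTr.b b2_8))) (BTr.n (BTr.b b2_9) (BTr.n (BTr.b b2_10) (BTr.b b2_11)))))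
namespace T2
def l0 : Tr := Tr.L (Pth.l (Pth.l (Pth.l Pth.z)))
def l1 : Tr := Tr.L (Pth.l (Pth.l (Pth.r (Pth.l Pth.z))))
def l2 : Tr := Tr.L (Pth.l (Pth.l (Pth.r (Pth.r Pth.z))))
def l3 : Tr := Tr.L (Pth.l (Pth.r (Pth.l Pth.z)))
def l4 : Tr := Tr.L (Pth.l (Pth.r (Pth.r (Pth.l Pth.z))))
def l5 : Tr := Tr.L (Pth.l (Pth.r (Pth.r (Pth.r Pth.z))))
def l6 : Tr := Tr.L (Pth.r (Pth.l (Pth.l Pth.z)))
def l7 : Tr := Tr.L (Pth.r (Pth.l (Pth.r (Pth.l Pth.z))))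
def l8 : Tr := Tr.L (Pth.r (Pth.l (Pth.r (Pth.r Pth.z))))
def l9 : Tr := Tr.L (Pth.r (Pth.r (Pth.l Pth.z)))
def l10 : Tr := Tr.L (Pth.r (Pth.r (Pth.r (Pth.l Pth.z))))
def l11 : Tr := Tr.L (Pth.r (Pth.r (Pth.r (Pth.r Pth.z))))
end T2
theorem bx0_0 : BoxOK sI cl6 cl6 cl9 t0 t2 b0_0 :=
  box_mk (TrL.c (I.pos (nat_lit 0) (nat_lit 0)) (xa (xb T0.l11 (xa T0.l0 T0.l0)) (xb T0.l0 (xa T0.l0 T0.l0)))
  (TrL.c (I.pos (nat_lit 0) (nat_lit 0)) (xa T2.l1 T2.l1)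
  (TrL.c (I.pos (nat_lit 0) (nat_lit 89480386)) T0.l1
  (TrL.c (I.pos (nat_lit 0) (nat_lit 41530880)) T2.l2
  (TrL.c (I.pos (nat_lit 0) (nat_lit 0)) (xa T2.l3 (xb T2.l3 T2.l3))
  (TrL.c (I.pos (nat_lit 0) (nat_lit 0)) T0.l2
  (TrL.c (I.mix (nat_lit 41527258) (nat_lit 41530880)) T2.l4
  (TrL.c (I.mix (nat_lit 41527258) (nat_lit 4274)) T0.l3
  TrL.n)))))))) (by decide +kernel)
theorem bx0_1 : BoxOK sI cl6 cl6 cl9 t0 t2 b0_1 :=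
  box_mk (TrL.c (I.pos (nat_lit 0) (nat_lit 0)) (xa (xb (xa T0.l4 T0.l4) (xa T0.l4 T0.l4)) (xa T0.l4 T0.l4))
  (TrL.c (I.pos (nat_lit 0) (nat_lit 0)) T2.l1
  (TrL.c (I.pos (nat_lit 0) (nat_lit 89480386)) T0.l1
  (TrL.c (I.pos (nat_lit 0) (nat_lit 41530880)) T2.l2
  (TrL.c (I.pos (nat_lit 0) (nat_lit 0)) T2.l5
  (TrL.c (I.pos (nat_lit 0) (nat_lit 0)) T0.l2
  (TrL.c (I.mix (nat_lit 41527258) (nat_lit 41530880)) T2.l4
  (TrL.c (I.mix (nat_lit 41527258) (nat_lit 4274)) T0.l3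
  TrL.n)))))))) (by decide +kernel)
theorem bx0_2 : BoxOK sI cl6 cl6 cl9 t0 t2 b0_2 :=
  box_mk (TrL.c (I.pos (nat_lit 0) (nat_lit 0)) T0.l4
  (TrL.c (I.pos (nat_lit 0) (nat_lit 0)) T2.l1
  (TrL.c (I.pos (nat_lit 0) (nat_lit 89480386)) T0.l1
  (TrL.c (I.pos (nat_lit 0) (nat_lit 41530880)) T2.l2
  (TrL.c (I.pos (nat_lit 0) (nat_lit 0)) T2.l5
  (TrL.c (I.pos (nat_lit 0) (nat_lit 0)) T0.l2
  (TrL.c (I.mix (nat_lit 41527258) (nat_lit 41530880)) T2.l4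
  (TrL.c (I.mix (nat_lit 41527258) (nat_lit 4274)) T0.l3
  TrL.n)))))))) (by decide +kernel)
theorem bx0_3 : BoxOK sI cl6 cl6 cl9 t0 t2 b0_3 :=
  box_mk (TrL.c (I.pos (nat_lit 0) (nat_lit 0)) (xa (xb T0.l4 T0.l4) T0.l4)
  (TrL.c (I.pos (nat_lit 0) (nat_lit 0)) T2.l5
  (TrL.c (I.pos (nat_lit 0) (nat_lit 89480386)) T0.l1
  (TrL.c (I.pos (nat_lit 0) (nat_lit 41530880)) T2.l4
  (TrL.c (I.pos (nat_lit 0) (nat_lit 0)) T2.l1
  (TrL.c (I.pos (nat_lit 0) (nat_lit 0)) T0.l1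
  (TrL.c (I.mix (nat_lit 41527258) (nat_lit 41530880)) T2.l4
  (TrL.c (I.mix (nat_lit 41527258) (nat_lit 4274)) T0.l3
  TrL.n)))))))) (by decide +kernel)
theorem bx0_4 : BoxOK sI cl6 cl6 cl9 t0 t2 b0_4 :=
  box_mk (TrL.c (I.pos (nat_lit 0) (nat_lit 0)) (xa (xb T0.l0 (xa T0.l0 T0.l0)) (xb (xa T0.l0 T0.l0) (xa T0.l0 T0.l0)))
  (TrL.c (I.pos (nat_lit 0) (nat_lit 0)) (xa T2.l1 T2.l7)
  (TrL.c (I.pos (nat_lit 0) (nat_lit 89480386)) (xR T0.l1 T0.l1)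
  (TrL.c (I.pos (nat_lit 0) (nat_lit 41530880)) T2.l2
  (TrL.c (I.pos (nat_lit 0) (nat_lit 0)) (xb (xa T2.l0 (xa T2.l0 (xb T2.l0 T2.l3))) (xa T2.l3 (xa T2.l3 T2.l3)))
  (TrL.c (I.pos (nat_lit 0) (nat_lit 0)) (xb (xa T0.l2 T0.l2) (xa T0.l2 T0.l2))
  (TrL.c (I.mix (nat_lit 41527258) (nat_lit 41530880)) T2.l4
  (TrL.c (I.mix (nat_lit 41527258) (nat_lit 4274)) T0.l3
  TrL.n)))))))) (by decide +kernel)
theorem bx0_5 : BoxOK sI cl6 cl6 cl9 t0 t2 b0_5 :=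
  box_mk (TrL.c (I.pos (nat_lit 0) (nat_lit 0)) (xa T0.l4 T0.l4)
  (TrL.c (I.pos (nat_lit 0) (nat_lit 0)) T2.l1
  (TrL.c (I.pos (nat_lit 0) (nat_lit 89480386)) T0.l1
  (TrL.c (I.pos (nat_lit 0) (nat_lit 41530880)) T2.l2
  (TrL.c (I.pos (nat_lit 0) (nat_lit 0)) T2.l5
  (TrL.c (I.pos (nat_lit 0) (nat_lit 0)) T0.l2
  (TrL.c (I.mix (nat_lit 41527258) (nat_lit 41530880)) T2.l4
  (TrL.c (I.mix (nat_lit 41527258) (nat_lit 4274)) T0.l3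
  TrL.n)))))))) (by decide +kernel)
theorem bx0_6 : BoxOK sI cl6 cl6 cl9 t0 t2 b0_6 :=
  box_mk (TrL.c (I.pos (nat_lit 0) (nat_lit 0)) (xa (xb T0.l4 T0.l4) T0.l4)
  (TrL.c (I.pos (nat_lit 0) (nat_lit 0)) T2.l5
  (TrL.c (I.pos (nat_lit 0) (nat_lit 89480386)) T0.l1
  (TrL.c (I.pos (nat_lit 0) (nat_lit 41530880)) T2.l2
  (TrL.c (I.pos (nat_lit 0) (nat_lit 0)) T2.l1
  (TrL.c (I.pos (nat_lit 0) (nat_lit 0)) T0.l2
  (TrL.c (I.mix (nat_lit 41527258) (nat_lit 41530880)) T2.l4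
  (TrL.c (I.mix (nat_lit 41527258) (nat_lit 4274)) T0.l3
  TrL.n)))))))) (by decide +kernel)
theorem bx0_7 : BoxOK sI cl6 cl6 cl9 t0 t2 b0_7 :=
  box_mk (TrL.c (I.pos (nat_lit 0) (nat_lit 0)) (xa (xa (xb T0.l4 T0.l4) T0.l4) (xa T0.l4 T0.l4))
  (TrL.c (I.pos (nat_lit 0) (nat_lit 0)) (xa T2.l5 T2.l1)
  (TrL.c (I.pos (nat_lit 0) (nat_lit 89480386)) T0.l1
  (TrL.c (I.pos (nat_lit 0) (nat_lit 41530880)) T2.l2
  (TrL.c (I.pos (nat_lit 0) (nat_lit 0)) T2.l5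
  (TrL.c (I.pos (nat_lit 0) (nat_lit 0)) T0.l2
  (TrL.c (I.mix (nat_lit 41527258) (nat_lit 41530880)) T2.l4
  (TrL.c (I.mix (nat_lit 41527258) (nat_lit 4274)) T0.l3
  TrL.n)))))))) (by decide +kernel)
theorem bx0_8 : BoxOK sI cl6 cl6 cl9 t0 t2 b0_8 :=
  box_mk (TrL.c (I.pos (nat_lit 0) (nat_lit 0)) (xb (xa T0.l11 T0.l11) (xa T0.l11 T0.l11))
  (TrL.c (I.pos (nat_lit 0) (nat_lit 0)) T2.l1
  (TrL.c (I.pos (nat_lit 0) (nat_lit 89480386)) T0.l1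
  (TrL.c (I.pos (nat_lit 0) (nat_lit 41530880)) T2.l2
  (TrL.c (I.pos (nat_lit 0) (nat_lit 0)) (xb T2.l11 T2.l11)
  (TrL.c (I.pos (nat_lit 0) (nat_lit 0)) T0.l2
  (TrL.c (I.mix (nat_lit 41527258) (nat_lit 41530880)) T2.l4
  (TrL.c (I.mix (nat_lit 41527258) (nat_lit 4274)) T0.l6
  TrL.n)))))))) (by decide +kernel)
theorem bx0_9 : BoxOK sI cl6 cl6 cl9 t0 t2 b0_9 :=
  box_mk (TrL.c (I.pos (nat_lit 0) (nat_lit 0)) (xa T0.l11 T0.l0)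
  (TrL.c (I.pos (nat_lit 0) (nat_lit 0)) T2.l1
  (TrL.c (I.pos (nat_lit 0) (nat_lit 89480386)) T0.l1
  (TrL.c (I.pos (nat_lit 0) (nat_lit 41530880)) T2.l2
  (TrL.c (I.pos (nat_lit 0) (nat_lit 0)) (xb T2.l11 T2.l11)
  (TrL.c (I.pos (nat_lit 0) (nat_lit 0)) T0.l2
  (TrL.c (I.mix (nat_lit 41527258) (nat_lit 41530880)) T2.l4
  (TrL.c (I.mix (nat_lit 41527258) (nat_lit 4274)) T0.l3
  TrL.n)))))))) (by decide +kernel)
theorem bx0_10 : BoxOK sI cl6 cl6 cl9 t0 t2 b0_10 :=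
  box_mk (TrL.c (I.pos (nat_lit 0) (nat_lit 0)) T0.l11
  (TrL.c (I.pos (nat_lit 0) (nat_lit 0)) T2.l1
  (TrL.c (I.pos (nat_lit 0) (nat_lit 89480386)) T0.l1
  (TrL.c (I.pos (nat_lit 0) (nat_lit 41530880)) T2.l2
  (TrL.c (I.pos (nat_lit 0) (nat_lit 0)) T2.l11
  (TrL.c (I.pos (nat_lit 0) (nat_lit 0)) T0.l2
  (TrL.c (I.mix (nat_lit 41527258) (nat_lit 41530880)) T2.l4
  (TrL.c (I.mix (nat_lit 41527258) (nat_lit 4274)) T0.l3
  TrL.n)))))))) (by decide +kernel)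
theorem bx0_11 : BoxOK sI cl6 cl6 cl9 t0 t2 b0_11 :=
  box_mk (TrL.c (I.pos (nat_lit 0) (nat_lit 0)) (xa (xb T0.l0 T0.l0) (xb T0.l0 T0.l0))
  (TrL.c (I.pos (nat_lit 0) (nat_lit 0)) T2.l1
  (TrL.c (I.pos (nat_lit 0) (nat_lit 89480386)) T0.l1
  (TrL.c (I.pos (nat_lit 0) (nat_lit 41530880)) T2.l2
  (TrL.c (I.pos (nat_lit 0) (nat_lit 0)) (xa T2.l3 T2.l3)
  (TrL.c (I.pos (nat_lit 0) (nat_lit 0)) T0.l2
  (TrL.c (I.mix (nat_lit 41527258) (nat_lit 41530880)) T2.l4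
  (TrL.c (I.mix (nat_lit 41527258) (nat_lit 4274)) T0.l6
  TrL.n)))))))) (by decide +kernel)
theorem sv0 : StarV sI cl6 cl6 cl9 t0 t2 t0 :=
  (bt_n (bt_n (bt_n (bt_b bx0_0) (bt_n (bt_b bx0_1) (bt_b bx0_2))) (bt_n (bt_b bx0_3) (bt_n (bt_b bx0_4) (bt_b bx0_5)))) (bt_n (bt_n (bt_b bx0_6) (bt_n (bt_b bx0_7) (bt_b bx0_8))) (bt_n (bt_b bx0_9) (bt_n (bt_b bx0_10) (bt_b bx0_11)))))
def S0 : StarD := StarD.mk cl6 cl6 cl9 0 2 t0
theorem bx1_0 : BoxOK sI cl6 cl9 cl6 t2 t0 b1_0 :=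
  box_mk (TrL.c (I.pos (nat_lit 0) (nat_lit 0)) (xa (xb (xa T2.l0 (xb T2.l10 T2.l10)) (xa T2.l0 T2.l0)) (xa (xb (xb T2.l10 T2.l10) (xb T2.l0 T2.l0)) (xb (xb T2.l0 (xa T2.l0 (xs T2.l0 T2.l0))) (xb T2.l0 (xs T2.l0 T2.l0)))))
  (TrL.c (I.pos (nat_lit 0) (nat_lit 0)) (xa T0.l5 T0.l5)
  (TrL.c (I.pos (nat_lit 0) (nat_lit 89480386)) T2.l6
  (TrL.c (I.pos (nat_lit 0) (nat_lit 41530880)) T0.l6
  (TrL.c (I.pos (nat_lit 0) (nat_lit 0)) (xa T0.l8 (xb T0.l8 T0.l8))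
  (TrL.c (I.pos (nat_lit 0) (nat_lit 0)) T2.l7
  (TrL.c (I.mix (nat_lit 41527258) (nat_lit 41530880)) T0.l7
  (TrL.c (I.mix (nat_lit 41527258) (nat_lit 4274)) T2.l8
  TrL.n)))))))) (by decide +kernel)
theorem bx1_1 : BoxOK sI cl6 cl9 cl6 t2 t0 b1_1 :=
  box_mk (TrL.c (I.pos (nat_lit 0) (nat_lit 0)) (xa T2.l9 T2.l0)
  (TrL.c (I.pos (nat_lit 0) (nat_lit 0)) T0.l5
  (TrL.c (I.pos (nat_lit 0) (nat_lit 89480386)) T2.l6
  (TrL.c (I.pos (nat_lit 0) (nat_lit 41530880)) T0.l6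
  (TrL.c (I.pos (nat_lit 0) (nat_lit 0)) (xa T0.l9 T0.l9)
  (TrL.c (I.pos (nat_lit 0) (nat_lit 0)) T2.l7
  (TrL.c (I.mix (nat_lit 41527258) (nat_lit 41530880)) T0.l7
  (TrL.c (I.mix (nat_lit 41527258) (nat_lit 4274)) T2.l8
  TrL.n)))))))) (by decide +kernel)
theorem bx1_2 : BoxOK sI cl6 cl9 cl6 t2 t0 b1_2 :=
  box_mk (TrL.c (I.pos (nat_lit 0) (nat_lit 0)) (xa (xa (xb T2.l9 T2.l9) T2.l9) (xa T2.l9 T2.l9))
  (TrL.c (I.pos (nat_lit 0) (nat_lit 0)) (xa T0.l5 T0.l5)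
  (TrL.c (I.pos (nat_lit 0) (nat_lit 89480386)) T2.l6
  (TrL.c (I.pos (nat_lit 0) (nat_lit 41530880)) T0.l6
  (TrL.c (I.pos (nat_lit 0) (nat_lit 0)) (xa T0.l9 T0.l9)
  (TrL.c (I.pos (nat_lit 0) (nat_lit 0)) T2.l7
  (TrL.c (I.mix (nat_lit 41527258) (nat_lit 41530880)) T0.l7
  (TrL.c (I.mix (nat_lit 41527258) (nat_lit 4274)) T2.l8
  TrL.n)))))))) (by decide +kernel)
theorem bx1_3 : BoxOK sI cl6 cl9 cl6 t2 t0 b1_3 :=
  box_mk (TrL.c (I.pos (nat_lit 0) (nat_lit 0)) (xa (xa T2.l9 T2.l9) T2.l9)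
  (TrL.c (I.pos (nat_lit 0) (nat_lit 0)) (xa T0.l5 T0.l5)
  (TrL.c (I.pos (nat_lit 0) (nat_lit 89480386)) T2.l6
  (TrL.c (I.pos (nat_lit 0) (nat_lit 41530880)) T0.l6
  (TrL.c (I.pos (nat_lit 0) (nat_lit 0)) (xa T0.l9 T0.l9)
  (TrL.c (I.pos (nat_lit 0) (nat_lit 0)) T2.l7
  (TrL.c (I.mix (nat_lit 41527258) (nat_lit 41530880)) T0.l7
  (TrL.c (I.mix (nat_lit 41527258) (nat_lit 4274)) T2.l4
  TrL.n)))))))) (by decide +kernel)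
theorem bx1_4 : BoxOK sI cl6 cl9 cl6 t2 t0 b1_4 :=
  box_mk (TrL.c (I.pos (nat_lit 0) (nat_lit 0)) (xb (xa (xb (xb T2.l10 T2.l10) (xb T2.l10 T2.l10)) (xb (xb (xa T2.l10 T2.l10) (xa T2.l10 T2.l10)) (xb (xa (xs T2.l10 T2.l10) (xs T2.l10 T2.l10)) (xa T2.l10 T2.l10)))) (xa (xb T2.l10 T2.l10) (xb T2.l10 T2.l10)))
  (TrL.c (I.pos (nat_lit 0) (nat_lit 0)) (xb T0.l5 T0.l5)
  (TrL.c (I.pos (nat_lit 0) (nat_lit 89480386)) T2.l6
  (TrL.c (I.pos (nat_lit 0) (nat_lit 41530880)) T0.l6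
  (TrL.c (I.pos (nat_lit 0) (nat_lit 0)) (xb T0.l10 T0.l8)
  (TrL.c (I.pos (nat_lit 0) (nat_lit 0)) T2.l7
  (TrL.c (I.mix (nat_lit 41527258) (nat_lit 41530880)) T0.l7
  (TrL.c (I.mix (nat_lit 41527258) (nat_lit 4274)) T2.l8
  TrL.n)))))))) (by decide +kernel)
theorem bx1_5 : BoxOK sI cl6 cl9 cl6 t2 t0 b1_5 :=
  box_mk (TrL.c (I.pos (nat_lit 0) (nat_lit 0)) (xb T2.l9 T2.l9)
  (TrL.c (I.pos (nat_lit 0) (nat_lit 0)) T0.l5
  (TrL.c (I.pos (nat_lit 0) (nat_lit 89480386)) T2.l6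
  (TrL.c (I.pos (nat_lit 0) (nat_lit 41530880)) T0.l6
  (TrL.c (I.pos (nat_lit 0) (nat_lit 0)) T0.l9
  (TrL.c (I.pos (nat_lit 0) (nat_lit 0)) T2.l7
  (TrL.c (I.mix (nat_lit 41527258) (nat_lit 41530880)) T0.l7
  (TrL.c (I.mix (nat_lit 41527258) (nat_lit 4274)) T2.l8
  TrL.n)))))))) (by decide +kernel)
theorem bx1_6 : BoxOK sI cl6 cl9 cl6 t2 t0 b1_6 :=
  box_mk (TrL.c (I.pos (nat_lit 0) (nat_lit 0)) (xa (xa (xb T2.l9 T2.l9) T2.l9) (xa T2.l9 T2.l9))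
  (TrL.c (I.pos (nat_lit 0) (nat_lit 0)) (xa T0.l5 T0.l5)
  (TrL.c (I.pos (nat_lit 0) (nat_lit 89480386)) T2.l6
  (TrL.c (I.pos (nat_lit 0) (nat_lit 41530880)) T0.l6
  (TrL.c (I.pos (nat_lit 0) (nat_lit 0)) (xa T0.l9 T0.l9)
  (TrL.c (I.pos (nat_lit 0) (nat_lit 0)) T2.l7
  (TrL.c (I.mix (nat_lit 41527258) (nat_lit 41530880)) T0.l7
  (TrL.c (I.mix (nat_lit 41527258) (nat_lit 4274)) T2.l8
  TrL.n)))))))) (by decide +kernel)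
theorem bx1_7 : BoxOK sI cl6 cl9 cl6 t2 t0 b1_7 :=
  box_mk (TrL.c (I.pos (nat_lit 0) (nat_lit 0)) T2.l9
  (TrL.c (I.pos (nat_lit 0) (nat_lit 0)) T0.l5
  (TrL.c (I.pos (nat_lit 0) (nat_lit 89480386)) T2.l6
  (TrL.c (I.pos (nat_lit 0) (nat_lit 41530880)) T0.l6
  (TrL.c (I.pos (nat_lit 0) (nat_lit 0)) T0.l9
  (TrL.c (I.pos (nat_lit 0) (nat_lit 0)) T2.l7
  (TrL.c (I.mix (nat_lit 41527258) (nat_lit 41530880)) T0.l7
  (TrL.c (I.mix (nat_lit 41527258) (nat_lit 4274)) T2.l8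
  TrL.n)))))))) (by decide +kernel)
theorem bx1_8 : BoxOK sI cl6 cl9 cl6 t2 t0 b1_8 :=
  box_mk (TrL.c (I.pos (nat_lit 0) (nat_lit 0)) (xa (xb T2.l0 T2.l0) (xb T2.l0 (xa T2.l0 T2.l0)))
  (TrL.c (I.pos (nat_lit 0) (nat_lit 0)) (xa (xb T0.l5 T0.l5) (xb T0.l2 T0.l2))
  (TrL.c (I.pos (nat_lit 0) (nat_lit 89480386)) (xR T2.l6 T2.l6)
  (TrL.c (I.pos (nat_lit 0) (nat_lit 41530880)) T0.l6
  (TrL.c (I.pos (nat_lit 0) (nat_lit 0)) (xa (xb T0.l8 T0.l8) (xb (xa T0.l8 (xb T0.l8 T0.l8)) (xa T0.l8 (xb T0.l8 T0.l8))))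
  (TrL.c (I.pos (nat_lit 0) (nat_lit 0)) (xa T2.l7 (xb T2.l7 T2.l7))
  (TrL.c (I.mix (nat_lit 41527258) (nat_lit 41530880)) (xR T0.l1 T0.l1)
  (TrL.c (I.mix (nat_lit 41527258) (nat_lit 4274)) T2.l8
  TrL.n)))))))) (by decide +kernel)
theorem bx1_9 : BoxOK sI cl6 cl9 cl6 t2 t0 b1_9 :=
  box_mk (TrL.c (I.pos (nat_lit 0) (nat_lit 0)) (xa T2.l0 T2.l0)
  (TrL.c (I.pos (nat_lit 0) (nat_lit 0)) T0.l5
  (TrL.c (I.pos (nat_lit 0) (nat_lit 89480386)) T2.l6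
  (TrL.c (I.pos (nat_lit 0) (nat_lit 41530880)) T0.l6
  (TrL.c (I.pos (nat_lit 0) (nat_lit 0)) (xa T0.l10 T0.l0)
  (TrL.c (I.pos (nat_lit 0) (nat_lit 0)) T2.l7
  (TrL.c (I.mix (nat_lit 41527258) (nat_lit 41530880)) T0.l7
  (TrL.c (I.mix (nat_lit 41527258) (nat_lit 4274)) T2.l8
  TrL.n)))))))) (by decide +kernel)
theorem bx1_10 : BoxOK sI cl6 cl9 cl6 t2 t0 b1_10 :=
  box_mk (TrL.c (I.pos (nat_lit 0) (nat_lit 0)) (xa (xb T2.l0 T2.l0) T2.l0)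
  (TrL.c (I.pos (nat_lit 0) (nat_lit 0)) T0.l5
  (TrL.c (I.pos (nat_lit 0) (nat_lit 89480386)) T2.l6
  (TrL.c (I.pos (nat_lit 0) (nat_lit 41530880)) T0.l6
  (TrL.c (I.pos (nat_lit 0) (nat_lit 0)) (xa T0.l8 T0.l8)
  (TrL.c (I.pos (nat_lit 0) (nat_lit 0)) T2.l7
  (TrL.c (I.mix (nat_lit 41527258) (nat_lit 41530880)) T0.l7
  (TrL.c (I.mix (nat_lit 41527258) (nat_lit 4274)) T2.l8
  TrL.n)))))))) (by decide +kernel)
theorem bx1_11 : BoxOK sI cl6 cl9 cl6 t2 t0 b1_11 :=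
  box_mk (TrL.c (I.pos (nat_lit 0) (nat_lit 0)) T2.l0
  (TrL.c (I.pos (nat_lit 0) (nat_lit 0)) T0.l5
  (TrL.c (I.pos (nat_lit 0) (nat_lit 89480386)) T2.l6
  (TrL.c (I.pos (nat_lit 0) (nat_lit 41530880)) T0.l6
  (TrL.c (I.pos (nat_lit 0) (nat_lit 0)) T0.l10
  (TrL.c (I.pos (nat_lit 0) (nat_lit 0)) T2.l7
  (TrL.c (I.mix (nat_lit 41527258) (nat_lit 41530880)) T0.l7
  (TrL.c (I.mix (nat_lit 41527258) (nat_lit 4274)) T2.l8
  TrL.n)))))))) (by decide +kernel)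
theorem sv1 : StarV sI cl6 cl9 cl6 t2 t0 t1 :=
  (bt_n (bt_n (bt_n (bt_b bx1_0) (bt_n (bt_b bx1_1) (bt_b bx1_2))) (bt_n (bt_b bx1_3) (bt_n (bt_b bx1_4) (bt_b bx1_5)))) (bt_n (bt_n (bt_b bx1_6) (bt_n (bt_b bx1_7) (bt_b bx1_8))) (bt_n (bt_b bx1_9) (bt_n (bt_b bx1_10) (bt_b bx1_11)))))
def S1 : StarD := StarD.mk cl6 cl9 cl6 2 0 t1
theorem bx2_0 : BoxOK sI cl9 cl6 cl6 t1 t1 b2_0 :=
  box_mk (TrL.c (I.pos (nat_lit 0) (nat_lit 0)) (xa (xb (xa T1.l0 (xb T1.l0 T1.l0)) (xa T1.l0 (xb T1.l0 T1.l0))) (xb (xa (xb T1.l10 T1.l0) (xb T1.l0 T1.l0)) (xa (xb T1.l0 T1.l0) (xb T1.l0 T1.l0))))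
  (TrL.c (I.pos (nat_lit 0) (nat_lit 0)) (xa (xk T1.l1 T1.l1) (xk (xb T1.l1 T1.l1) (xb T1.l1 T1.l1)))
  (TrL.c (I.pos (nat_lit 0) (nat_lit 124588530)) (xR T1.l2 T1.l2)
  (TrL.c (I.pos (nat_lit 0) (nat_lit 96881482)) (xR T1.l3 T1.l3)
  (TrL.c (I.pos (nat_lit 0) (nat_lit 0)) (xa (xb T1.l4 (xb T1.l4 (xk T1.l4 T1.l4))) (xb (xk T1.l4 (xb T1.l4 T1.l4)) (xk (xb (xa T1.l4 T1.l4) (xa (xs T1.l4 T1.l4) (xs T1.l4 (xk T1.l4 (xb T1.l4 T1.l4))))) (xb (xa T1.l4 (xs T1.l4 T1.l4)) (xa (xs T1.l4 (xb T1.l4 T1.l4)) (xs (xk T1.l4 (xb T1.l4 T1.l4)) (xk (xb T1.l4 (xa T1.l4 T1.l4)) (xb T1.l4 (xa T1.l4 T1.l4)))))))))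
  (TrL.c (I.pos (nat_lit 0) (nat_lit 0)) T1.l5
  (TrL.c (I.mix (nat_lit 17240550) (nat_lit 96881482)) (xR T1.l6 T1.l6)
  (TrL.c (I.mix (nat_lit 17240550) (nat_lit 71940500)) T1.l7
  TrL.n)))))))) (by decide +kernel)
theorem bx2_1 : BoxOK sI cl9 cl6 cl6 t1 t1 b2_1 :=
  box_mk (TrL.c (I.pos (nat_lit 0) (nat_lit 0)) (xa T1.l8 T1.l0)
  (TrL.c (I.pos (nat_lit 0) (nat_lit 0)) (xa T1.l1 T1.l1)
  (TrL.c (I.pos (nat_lit 0) (nat_lit 124588530)) (xR T1.l2 T1.l2)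
  (TrL.c (I.pos (nat_lit 0) (nat_lit 96881482)) T1.l3
  (TrL.c (I.pos (nat_lit 0) (nat_lit 0)) (xa T1.l9 (xk T1.l9 T1.l9))
  (TrL.c (I.pos (nat_lit 0) (nat_lit 0)) T1.l5
  (TrL.c (I.mix (nat_lit 17240550) (nat_lit 96881482)) T1.l6
  (TrL.c (I.mix (nat_lit 17240550) (nat_lit 71940500)) T1.l7
  TrL.n)))))))) (by decide +kernel)
theorem bx2_2 : BoxOK sI cl9 cl6 cl6 t1 t1 b2_2 :=
  box_mk (TrL.c (I.pos (nat_lit 0) (nat_lit 0)) T1.l8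
  (TrL.c (I.pos (nat_lit 0) (nat_lit 0)) T1.l1
  (TrL.c (I.pos (nat_lit 0) (nat_lit 124588530)) T1.l2
  (TrL.c (I.pos (nat_lit 0) (nat_lit 96881482)) T1.l3
  (TrL.c (I.pos (nat_lit 0) (nat_lit 0)) T1.l9
  (TrL.c (I.pos (nat_lit 0) (nat_lit 0)) T1.l5
  (TrL.c (I.mix (nat_lit 17240550) (nat_lit 96881482)) T1.l6
  (TrL.c (I.mix (nat_lit 17240550) (nat_lit 71940500)) T1.l3
  TrL.n)))))))) (by decide +kernel)
theorem bx2_3 : BoxOK sI cl9 cl6 cl6 t1 t1 b2_3 :=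
  box_mk (TrL.c (I.pos (nat_lit 0) (nat_lit 0)) (xb T1.l0 (xa T1.l0 T1.l0))
  (TrL.c (I.pos (nat_lit 0) (nat_lit 0)) (xk (xb T1.l1 T1.l1) T1.l1)
  (TrL.c (I.pos (nat_lit 0) (nat_lit 124588530)) (xR T1.l2 T1.l2)
  (TrL.c (I.pos (nat_lit 0) (nat_lit 96881482)) T1.l3
  (TrL.c (I.pos (nat_lit 0) (nat_lit 0)) (xb T1.l4 T1.l4)
  (TrL.c (I.pos (nat_lit 0) (nat_lit 0)) T1.l5
  (TrL.c (I.mix (nat_lit 17240550) (nat_lit 96881482)) (xR T1.l6 T1.l6)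
  (TrL.c (I.mix (nat_lit 17240550) (nat_lit 71940500)) T1.l7
  TrL.n)))))))) (by decide +kernel)
theorem bx2_4 : BoxOK sI cl9 cl6 cl6 t1 t1 b2_4 :=
  box_mk (TrL.c (I.pos (nat_lit 0) (nat_lit 0)) (xa (xa (xb T1.l8 T1.l8) T1.l8) (xa T1.l8 T1.l8))
  (TrL.c (I.pos (nat_lit 0) (nat_lit 0)) (xa T1.l9 T1.l1)
  (TrL.c (I.pos (nat_lit 0) (nat_lit 124588530)) T1.l2
  (TrL.c (I.pos (nat_lit 0) (nat_lit 96881482)) T1.l3
  (TrL.c (I.pos (nat_lit 0) (nat_lit 0)) (xa T1.l1 T1.l9)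
  (TrL.c (I.pos (nat_lit 0) (nat_lit 0)) T1.l5
  (TrL.c (I.mix (nat_lit 17240550) (nat_lit 96881482)) (xR T1.l6 T1.l6)
  (TrL.c (I.mix (nat_lit 17240550) (nat_lit 71940500)) T1.l3
  TrL.n)))))))) (by decide +kernel)
theorem bx2_5 : BoxOK sI cl9 cl6 cl6 t1 t1 b2_5 :=
  box_mk (TrL.c (I.pos (nat_lit 0) (nat_lit 0)) T1.l0
  (TrL.c (I.pos (nat_lit 0) (nat_lit 0)) T1.l1
  (TrL.c (I.pos (nat_lit 0) (nat_lit 124588530)) (xR T1.l2 T1.l2)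
  (TrL.c (I.pos (nat_lit 0) (nat_lit 96881482)) T1.l3
  (TrL.c (I.pos (nat_lit 0) (nat_lit 0)) (xk (xa T1.l11 T1.l11) T1.l11)
  (TrL.c (I.pos (nat_lit 0) (nat_lit 0)) T1.l5
  (TrL.c (I.mix (nat_lit 17240550) (nat_lit 96881482)) T1.l6
  (TrL.c (I.mix (nat_lit 17240550) (nat_lit 71940500)) T1.l7
  TrL.n)))))))) (by decide +kernel)
theorem bx2_6 : BoxOK sI cl9 cl6 cl6 t1 t1 b2_6 :=
  box_mk (TrL.c (I.pos (nat_lit 0) (nat_lit 0)) (xa (xa (xb T1.l8 T1.l8) T1.l8) (xa T1.l8 T1.l8))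
  (TrL.c (I.pos (nat_lit 0) (nat_lit 0)) (xa T1.l1 T1.l1)
  (TrL.c (I.pos (nat_lit 0) (nat_lit 124588530)) T1.l2
  (TrL.c (I.pos (nat_lit 0) (nat_lit 96881482)) T1.l3
  (TrL.c (I.pos (nat_lit 0) (nat_lit 0)) (xa T1.l9 T1.l9)
  (TrL.c (I.pos (nat_lit 0) (nat_lit 0)) T1.l5
  (TrL.c (I.mix (nat_lit 17240550) (nat_lit 96881482)) (xR T1.l6 T1.l6)
  (TrL.c (I.mix (nat_lit 17240550) (nat_lit 71940500)) T1.l3
  TrL.n)))))))) (by decide +kernel)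
theorem bx2_7 : BoxOK sI cl9 cl6 cl6 t1 t1 b2_7 :=
  box_mk (TrL.c (I.pos (nat_lit 0) (nat_lit 0)) T1.l8
  (TrL.c (I.pos (nat_lit 0) (nat_lit 0)) T1.l1
  (TrL.c (I.pos (nat_lit 0) (nat_lit 124588530)) (xR T1.l2 T1.l2)
  (TrL.c (I.pos (nat_lit 0) (nat_lit 96881482)) T1.l3
  (TrL.c (I.pos (nat_lit 0) (nat_lit 0)) (xb T1.l9 T1.l9)
  (TrL.c (I.pos (nat_lit 0) (nat_lit 0)) T1.l5
  (TrL.c (I.mix (nat_lit 17240550) (nat_lit 96881482)) T1.l6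
  (TrL.c (I.mix (nat_lit 17240550) (nat_lit 71940500)) T1.l7
  TrL.n)))))))) (by decide +kernel)
theorem bx2_8 : BoxOK sI cl9 cl6 cl6 t1 t1 b2_8 :=
  box_mk (TrL.c (I.pos (nat_lit 0) (nat_lit 0)) (xa T1.l8 T1.l8)
  (TrL.c (I.pos (nat_lit 0) (nat_lit 0)) T1.l9
  (TrL.c (I.pos (nat_lit 0) (nat_lit 124588530)) T1.l2
  (TrL.c (I.pos (nat_lit 0) (nat_lit 96881482)) T1.l6
  (TrL.c (I.pos (nat_lit 0) (nat_lit 0)) T1.l1
  (TrL.c (I.pos (nat_lit 0) (nat_lit 0)) T1.l2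
  (TrL.c (I.mix (nat_lit 17240550) (nat_lit 96881482)) T1.l3
  (TrL.c (I.mix (nat_lit 17240550) (nat_lit 71940500)) T1.l3
  TrL.n)))))))) (by decide +kernel)
theorem bx2_9 : BoxOK sI cl9 cl6 cl6 t1 t1 b2_9 :=
  box_mk (TrL.c (I.pos (nat_lit 0) (nat_lit 0)) (xa (xb T1.l0 (xa T1.l0 T1.l0)) (xb T1.l0 (xa T1.l0 T1.l0)))
  (TrL.c (I.pos (nat_lit 0) (nat_lit 0)) (xa (xb T1.l1 (xk T1.l1 T1.l1)) (xk (xb T1.l1 T1.l5) (xb T1.l1 T1.l1)))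
  (TrL.c (I.pos (nat_lit 0) (nat_lit 124588530)) (xR T1.l6 T1.l6)
  (TrL.c (I.pos (nat_lit 0) (nat_lit 96881482)) (xR T1.l3 T1.l3)
  (TrL.c (I.pos (nat_lit 0) (nat_lit 0)) (xa (xb (xk T1.l4 (xa T1.l4 T1.l4)) (xk T1.l4 T1.l4)) (xb (xk (xa T1.l4 (xb (xk T1.l4 T1.l4) T1.l4)) (xa T1.l4 (xb (xa T1.l4 T1.l4) T1.l4))) (xk (xa T1.l4 (xb T1.l4 (xk T1.l4 T1.l4))) (xa T1.l4 (xb T1.l4 T1.l4)))))
  (TrL.c (I.pos (nat_lit 0) (nat_lit 0)) (xk (xa T1.l5 T1.l5) (xa T1.l5 T1.l5))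
  (TrL.c (I.mix (nat_lit 17240550) (nat_lit 96881482)) (xR T1.l6 (xR T1.l6 (xR T1.l6 T1.l6)))
  (TrL.c (I.mix (nat_lit 17240550) (nat_lit 71940500)) T1.l7
  TrL.n)))))))) (by decide +kernel)
theorem bx2_10 : BoxOK sI cl9 cl6 cl6 t1 t1 b2_10 :=
  box_mk (TrL.c (I.pos (nat_lit 0) (nat_lit 0)) (xa (xb (xb (xa T1.l10 (xs T1.l0 T1.l0)) (xa T1.l10 T1.l10)) (xb (xa T1.l0 T1.l10) (xa T1.l0 T1.l0))) (xb (xb (xa (xs T1.l0 T1.l0) (xs T1.l0 (xb T1.l4 T1.l0))) (xa T1.l0 (xs T1.l0 T1.l0))) (xb (xa T1.l0 (xs T1.l0 T1.l0)) (xa T1.l0 (xs T1.l0 T1.l0)))))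
  (TrL.c (I.pos (nat_lit 0) (nat_lit 0)) (xa T1.l1 (xk T1.l1 T1.l1))
  (TrL.c (I.pos (nat_lit 0) (nat_lit 124588530)) (xR T1.l2 T1.l2)
  (TrL.c (I.pos (nat_lit 0) (nat_lit 96881482)) T1.l3
  (TrL.c (I.pos (nat_lit 0) (nat_lit 0)) (xk (xa (xb T1.l4 T1.l4) (xb T1.l4 (xb T1.l4 (xs T1.l4 (xa T1.l4 T1.l4))))) (xa (xb T1.l4 (xb T1.l4 T1.l4)) (xb T1.l4 (xb (xa T1.l4 T1.l4) (xs (xa T1.l4 T1.l4) (xa T1.l4 (xk T1.l4 T1.l4)))))))
  (TrL.c (I.pos (nat_lit 0) (nat_lit 0)) T1.l5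
  (TrL.c (I.mix (nat_lit 17240550) (nat_lit 96881482)) (xR T1.l6 T1.l6)
  (TrL.c (I.mix (nat_lit 17240550) (nat_lit 71940500)) T1.l7
  TrL.n)))))))) (by decide +kernel)
theorem bx2_11 : BoxOK sI cl9 cl6 cl6 t1 t1 b2_11 :=
  box_mk (TrL.c (I.pos (nat_lit 0) (nat_lit 0)) (xb (xa T1.l0 T1.l0) T1.l10)
  (TrL.c (I.pos (nat_lit 0) (nat_lit 0)) T1.l1
  (TrL.c (I.pos (nat_lit 0) (nat_lit 124588530)) (xR T1.l2 T1.l2)
  (TrL.c (I.pos (nat_lit 0) (nat_lit 96881482)) T1.l3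
  (TrL.c (I.pos (nat_lit 0) (nat_lit 0)) (xk T1.l4 T1.l4)
  (TrL.c (I.pos (nat_lit 0) (nat_lit 0)) T1.l5
  (TrL.c (I.mix (nat_lit 17240550) (nat_lit 96881482)) (xR T1.l6 T1.l6)
  (TrL.c (I.mix (nat_lit 17240550) (nat_lit 71940500)) T1.l7
  TrL.n)))))))) (by decide +kernel)
theorem sv2 : StarV sI cl9 cl6 cl6 t1 t1 t2 :=
  (bt_n (bt_n (bt_n (bt_b bx2_0) (bt_n (bt_b bx2_1) (bt_b bx2_2))) (bt_n (bt_b bx2_3) (bt_n (bt_b bx2_4) (bt_b bx2_5)))) (bt_n (bt_n (bt_b bx2_6) (bt_n (bt_b bx2_7) (bt_b bx2_8))) (bt_n (bt_b bx2_9) (bt_n (bt_b bx2_10) (bt_b bx2_11)))))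
def S2 : StarD := StarD.mk cl9 cl6 cl6 1 1 t2
def G : List StarD := [S0, S1, S2]
theorem so0 : StarOK sI G S0 :=
  star_mk (by decide) (by decide) rfl rfl rfl rfl rfl rfl (rfl : _ = t0) (rfl : _ = t2)
  (st_mk (Pth.l (Pth.l (Pth.l Pth.z))) (nat_lit 189915749) (nat_lit 190560407) (by decide +kernel))
  (st_mk (Pth.l (Pth.l (Pth.l Pth.z))) (nat_lit 226416311) (nat_lit 227337095) (by decide +kernel))
  (st_mk (Pth.l (Pth.l (Pth.l Pth.z))) (nat_lit 268902828) (nat_lit 270212011) (by decide +kernel)) sv0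
theorem so1 : StarOK sI G S1 :=
  star_mk (by decide) (by decide) rfl rfl rfl rfl rfl rfl (rfl : _ = t2) (rfl : _ = t0)
  (st_mk (Pth.l (Pth.l (Pth.l Pth.z))) (nat_lit 116939008) (nat_lit 135681180) (by decide +kernel))
  (st_mk (Pth.l (Pth.l (Pth.l Pth.z))) (nat_lit 153147792) (nat_lit 172207924) (by decide +kernel))
  (st_mk (Pth.l (Pth.l (Pth.l Pth.z))) (nat_lit 195385724) (nat_lit 214869420) (by decide +kernel)) sv1
theorem so2 : StarOK sI G S2 :=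
  star_mk (by decide) (by decide) rfl rfl rfl rfl rfl rfl (rfl : _ = t1) (rfl : _ = t1)
  (st_mk (Pth.l (Pth.l (Pth.l Pth.z))) (nat_lit 186848181) (nat_lit 188436001) (by decide +kernel))
  (st_mk (Pth.l (Pth.l (Pth.l Pth.z))) (nat_lit 222159968) (nat_lit 224186403) (by decide +kernel))
  (st_mk (Pth.l (Pth.l (Pth.l Pth.z))) (nat_lit 262994666) (nat_lit 265626787) (by decide +kernel)) sv2
theorem ok : GroupOK (nat_lit 209321984) (nat_lit 268435456) G := grp_mk (allS_c so0 (allS_c so1 (allS_c so2 allS_n)))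
theorem cov : GCov G cl6 cl6 cl9 := cov_mk
  ⟨0, by decide, rfl, rfl, rfl⟩ ⟨1, by decide, rfl, rfl, rfl⟩ ⟨0, by decide, rfl, rfl, rfl⟩ ⟨1, by decide, rfl, rfl, rfl⟩ ⟨2, by decide, rfl, rfl, rfl⟩ ⟨2, by decide, rfl, rfl, rfl⟩
end Q335_3

namespace Q336_0
def sI : I := I.pos (nat_lit 0) (nat_lit 91291648)
def b0_0 : Bx := Bx.mk (St.mk (I.pos (nat_lit 153452544) (nat_lit 285900800)) (I.mix (nat_lit 33587200) (nat_lit 63094784)) (I.mix (nat_lit 122781696) (nat_lit 82903040)) (I.pos (nat_lit 175357952) (nat_lit 398835712)) (I.mix (nat_lit 70713344) (nat_lit 52805632)) (I.mix (nat_lit 64323584) (nat_lit 41549824)) (I.mix (nat_lit 99926016) (nat_lit 69763072)))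
  false (nat_lit 0)
def b0_1 : Bx := Bx.mk (St.mk (I.mix (nat_lit 34947072) (nat_lit 103055360)) (I.mix (nat_lit 12009472) (nat_lit 42254336)) (I.mix (nat_lit 25821184) (nat_lit 9027584)) (I.pos (nat_lit 76595200) (nat_lit 126861312)) (I.mix (nat_lit 26542080) (nat_lit 32768000)) (I.mix (nat_lit 31473664) (nat_lit 21807104)) (I.mix (nat_lit 20824064) (nat_lit 12435456)))
  false (nat_lit 0)
def b0_2 : Bx := Bx.mk (St.mk (I.pos (nat_lit 79183872) (nat_lit 124174336)) (I.mix (nat_lit 58621952) (nat_lit 11599872)) (I.neg (nat_lit 7323648) (nat_lit 60850176)) (I.pos (nat_lit 112394240) (nat_lit 147423232)) (I.mix (nat_lit 66076672) (nat_lit 18284544)) (I.mix (nat_lit 30310400) (nat_lit 56705024)) (I.mix (nat_lit 22233088) (nat_lit 42041344)))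
  false (nat_lit 0)
def b0_3 : Bx := Bx.mk (St.mk (I.mix (nat_lit 51085312) (nat_lit 29589504)) (I.mix (nat_lit 34308096) (nat_lit 9666560)) (I.neg (nat_lit 1654784) (nat_lit 17317888)) (I.pos (nat_lit 82264064) (nat_lit 100302848)) (I.mix (nat_lit 24805376) (nat_lit 14286848)) (I.mix (nat_lit 13352960) (nat_lit 22904832)) (I.mix (nat_lit 8634368) (nat_lit 5406720)))
  false (nat_lit 0)
def b0_4 : Bx := Bx.mk (St.mk (I.pos (nat_lit 90914816) (nat_lit 161660928)) (I.neg (nat_lit 3162112) (nat_lit 66797568)) (I.neg (nat_lit 9404416) (nat_lit 68714496)) (I.pos (nat_lit 126468096) (nat_lit 187596800)) (I.mix (nat_lit 72187904) (nat_lit 31686656)) (I.mix (nat_lit 29016064) (nat_lit 54837248)) (I.mix (nat_lit 20824064) (nat_lit 47890432)))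
  false (nat_lit 0)
def b0_5 : Bx := Bx.mk (St.mk (I.mix (nat_lit 35291136) (nat_lit 48545792)) (I.mix (nat_lit 35700736) (nat_lit 6815744)) (I.neg (nat_lit 2506752) (nat_lit 19283968)) (I.pos (nat_lit 81166336) (nat_lit 101253120)) (I.mix (nat_lit 23511040) (nat_lit 20070400)) (I.mix (nat_lit 14696448) (nat_lit 25772032)) (I.mix (nat_lit 7323648) (nat_lit 9732096)))
  false (nat_lit 0)
def b0_6 : Bx := Bx.mk (St.mk (I.mix (nat_lit 51003392) (nat_lit 78626816)) (I.mix (nat_lit 10043392) (nat_lit 40075264)) (I.mix (nat_lit 22708224) (nat_lit 7258112)) (I.pos (nat_lit 80609280) (nat_lit 111165440)) (I.mix (nat_lit 26492928) (nat_lit 29573120)) (I.mix (nat_lit 32227328) (nat_lit 20037632)) (I.mix (nat_lit 13008896) (nat_lit 13074432)))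
  false (nat_lit 0)
def b0_7 : Bx := Bx.mk (St.mk (I.pos (nat_lit 141639680) (nat_lit 216858624)) (I.mix (nat_lit 41959424) (nat_lit 69992448)) (I.mix (nat_lit 48726016) (nat_lit 85311488)) (I.pos (nat_lit 165871616) (nat_lit 263946240)) (I.mix (nat_lit 102580224) (nat_lit 40452096)) (I.mix (nat_lit 104628224) (nat_lit 56754176)) (I.mix (nat_lit 103481344) (nat_lit 55017472)))
  false (nat_lit 0)
def t0 : BTr := (BTr.n (BTr.n (BTr.n (BTr.b b0_0) (BTr.b b0_1)) (BTr.n (BTr.b b0_2) (BTr.b b0_3))) (BTr.n (BTr.n (BTr.b b0_4) (BTr.b b0_5)) (BTr.n (BTr.b b0_6) (BTr.b b0_7))))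
namespace T0
def l0 : Tr := Tr.L (Pth.l (Pth.l (Pth.l Pth.z)))
def l1 : Tr := Tr.L (Pth.l (Pth.l (Pth.r Pth.z)))
def l2 : Tr := Tr.L (Pth.l (Pth.r (Pth.l Pth.z)))
def l3 : Tr := Tr.L (Pth.l (Pth.r (Pth.r Pth.z)))
def l4 : Tr := Tr.L (Pth.r (Pth.l (Pth.l Pth.z)))
def l5 : Tr := Tr.L (Pth.r (Pth.l (Pth.r Pth.z)))
def l6 : Tr := Tr.L (Pth.r (Pth.r (Pth.l Pth.z)))
def l7 : Tr := Tr.L (Pth.r (Pth.r (Pth.r Pth.z)))
end T0
def b1_0 : Bx := Bx.mk (St.mk (I.pos (nat_lit 153436160) (nat_lit 286162944)) (I.mix (nat_lit 27770880) (nat_lit 48218112)) (I.mix (nat_lit 60424192) (nat_lit 89915392)) (I.pos (nat_lit 83591168) (nat_lit 326205440)) (I.mix (nat_lit 72990720) (nat_lit 45105152)) (I.mix (nat_lit 65552384) (nat_lit 45039616)) (I.mix (nat_lit 105201664) (nat_lit 59211776)))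
  false (nat_lit 0)
def b1_1 : Bx := Bx.mk (St.mk (I.pos (nat_lit 123273216) (nat_lit 186875904)) (I.mix (nat_lit 58195968) (nat_lit 393216)) (I.mix (nat_lit 57032704) (nat_lit 507904)) (I.pos (nat_lit 74432512) (nat_lit 147914752)) (I.mix (nat_lit 64864256) (nat_lit 29999104)) (I.mix (nat_lit 29605888) (nat_lit 52035584)) (I.mix (nat_lit 25706496) (nat_lit 53116928)))
  false (nat_lit 0)
def b1_2 : Bx := Bx.mk (St.mk (I.mix (nat_lit 13942784) (nat_lit 147488768)) (I.mix (nat_lit 8798208) (nat_lit 25395200)) (I.mix (nat_lit 10076160) (nat_lit 24313856)) (I.mix (nat_lit 5881856) (nat_lit 94093312)) (I.mix (nat_lit 26558464) (nat_lit 19939328)) (I.mix (nat_lit 25149440) (nat_lit 15286272)) (I.mix (nat_lit 22315008) (nat_lit 11567104)))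
  false (nat_lit 0)
def b1_3 : Bx := Bx.mk (St.mk (I.mix (nat_lit 24068096) (nat_lit 121716736)) (I.mix (nat_lit 27918336) (nat_lit 6766592)) (I.mix (nat_lit 20905984) (nat_lit 4833280)) (I.mix (nat_lit 4489216) (nat_lit 69468160)) (I.mix (nat_lit 25198592) (nat_lit 18513920)) (I.mix (nat_lit 15171584) (nat_lit 22609920)) (I.mix (nat_lit 10141696) (nat_lit 16515072)))
  false (nat_lit 0)
def b1_4 : Bx := Bx.mk (St.mk (I.pos (nat_lit 157941760) (nat_lit 221396992)) (I.mix (nat_lit 38207488) (nat_lit 55246848)) (I.mix (nat_lit 37273600) (nat_lit 93356032)) (I.pos (nat_lit 97222656) (nat_lit 197836800)) (I.mix (nat_lit 98811904) (nat_lit 37994496)) (I.mix (nat_lit 112574464) (nat_lit 53641216)) (I.mix (nat_lit 146014208) (nat_lit 60407808)))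
  false (nat_lit 0)
def b1_5 : Bx := Bx.mk (St.mk (I.pos (nat_lit 116686848) (nat_lit 162824192)) (I.mix (nat_lit 51101696) (nat_lit 8699904)) (I.mix (nat_lit 52035584) (nat_lit 8339456)) (I.pos (nat_lit 52133888) (nat_lit 114049024)) (I.mix (nat_lit 69959680) (nat_lit 18808832)) (I.mix (nat_lit 30965760) (nat_lit 71696384)) (I.mix (nat_lit 26656768) (nat_lit 65257472)))
  false (nat_lit 0)
def b1_6 : Bx := Bx.mk (St.mk (I.mix (nat_lit 18579456) (nat_lit 139608064)) (I.mix (nat_lit 13762560) (nat_lit 32948224)) (I.mix (nat_lit 9437184) (nat_lit 28180480)) (I.mix (nat_lit 5324800) (nat_lit 84328448)) (I.mix (nat_lit 40714240) (nat_lit 17072128)) (I.mix (nat_lit 39518208) (nat_lit 21004288)) (I.mix (nat_lit 29147136) (nat_lit 14254080)))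
  false (nat_lit 0)
def b1_7 : Bx := Bx.mk (St.mk (I.mix (nat_lit 15515648) (nat_lit 113229824)) (I.mix (nat_lit 23265280) (nat_lit 1867776)) (I.mix (nat_lit 16449536) (nat_lit 1916928)) (I.mix (nat_lit 4014080) (nat_lit 61063168)) (I.mix (nat_lit 24920064) (nat_lit 10420224)) (I.mix (nat_lit 12484608) (nat_lit 22593536)) (I.mix (nat_lit 7520256) (nat_lit 13959168)))
  false (nat_lit 0)
def t1 : BTr := (BTr.n (BTr.n (BTr.n (BTr.b b1_0) (BTr.b b1_1)) (BTr.n (BTr.b b1_2) (BTr.b b1_3))) (BTr.n (BTr.n (BTr.b b1_4) (BTr.b b1_5)) (BTr.n (BTr.b b1_6) (BTr.b b1_7))))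
namespace T1
def l0 : Tr := Tr.L (Pth.l (Pth.l (Pth.l Pth.z)))
def l1 : Tr := Tr.L (Pth.l (Pth.l (Pth.r Pth.z)))
def l2 : Tr := Tr.L (Pth.l (Pth.r (Pth.l Pth.z)))
def l3 : Tr := Tr.L (Pth.l (Pth.r (Pth.r Pth.z)))
def l4 : Tr := Tr.L (Pth.r (Pth.l (Pth.l Pth.z)))
def l5 : Tr := Tr.L (Pth.r (Pth.l (Pth.r Pth.z)))
def l6 : Tr := Tr.L (Pth.r (Pth.r (Pth.l Pth.z)))
def l7 : Tr := Tr.L (Pth.r (Pth.r (Pth.r Pth.z)))
end T1
def b2_0 : Bx := Bx.mk (St.mk (I.pos (nat_lit 153649152) (nat_lit 282427392)) (I.mix (nat_lit 22478848) (nat_lit 58654720)) (I.mix (nat_lit 46956544) (nat_lit 107642880)) (I.pos (nat_lit 174129152) (nat_lit 383025152)) (I.mix (nat_lit 81952768) (nat_lit 51494912)) (I.mix (nat_lit 78495744) (nat_lit 48496640)) (I.mix (nat_lit 117669888) (nat_lit 58933248)))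
  false (nat_lit 22591472)
def b2_1 : Bx := Bx.mk (St.mk (I.pos (nat_lit 100876288) (nat_lit 166068224)) (I.neg (nat_lit 7536640) (nat_lit 66338816)) (I.mix (nat_lit 49332224) (nat_lit 15826944)) (I.pos (nat_lit 133496832) (nat_lit 191102976)) (I.mix (nat_lit 59637760) (nat_lit 31244288)) (I.mix (nat_lit 25100288) (nat_lit 43089920)) (I.mix (nat_lit 20807680) (nat_lit 37224448)))
  false (nat_lit 0)
def b2_2 : Bx := Bx.mk (St.mk (I.mix (nat_lit 30179328) (nat_lit 51281920)) (I.mix (nat_lit 35258368) (nat_lit 8667136)) (I.mix (nat_lit 5390336) (nat_lit 10092544)) (I.pos (nat_lit 82149376) (nat_lit 100057088)) (I.mix (nat_lit 16711680) (nat_lit 22429696)) (I.mix (nat_lit 13598720) (nat_lit 21233664)) (I.mix (nat_lit 5275648) (nat_lit 7733248)))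
  false (nat_lit 0)
def b2_3 : Bx := Bx.mk (St.mk (I.pos (nat_lit 141967360) (nat_lit 210583552)) (I.mix (nat_lit 40386560) (nat_lit 67469312)) (I.mix (nat_lit 22855680) (nat_lit 112640000)) (I.pos (nat_lit 165462016) (nat_lit 251559936)) (I.mix (nat_lit 111607808) (nat_lit 38813696)) (I.mix (nat_lit 110526464) (nat_lit 55803904)) (I.mix (nat_lit 119291904) (nat_lit 53854208)))
  false (nat_lit 4557796)
def b2_4 : Bx := Bx.mk (St.mk (I.mix (nat_lit 53755904) (nat_lit 74104832)) (I.mix (nat_lit 11780096) (nat_lit 40091648)) (I.mix (nat_lit 6012928) (nat_lit 21135360)) (I.pos (nat_lit 81674240) (nat_lit 108658688)) (I.mix (nat_lit 30474240) (nat_lit 18972672)) (I.mix (nat_lit 22593536) (nat_lit 16613376)) (I.mix (nat_lit 9175040) (nat_lit 8994816)))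
  false (nat_lit 0)
def b2_5 : Bx := Bx.mk (St.mk (I.mix (nat_lit 41746432) (nat_lit 99549184)) (I.mix (nat_lit 6619136) (nat_lit 42074112)) (I.mix (nat_lit 6176768) (nat_lit 27492352)) (I.pos (nat_lit 74334208) (nat_lit 124469248)) (I.mix (nat_lit 35520512) (nat_lit 28360704)) (I.mix (nat_lit 35979264) (nat_lit 21823488)) (I.mix (nat_lit 22904832) (nat_lit 15417344)))
  false (nat_lit 0)
def b2_6 : Bx := Bx.mk (St.mk (I.pos (nat_lit 81543168) (nat_lit 130367488)) (I.mix (nat_lit 61554688) (nat_lit 8454144)) (I.mix (nat_lit 43843584) (nat_lit 5898240)) (I.pos (nat_lit 114393088) (nat_lit 151732224)) (I.mix (nat_lit 59015168) (nat_lit 21430272)) (I.mix (nat_lit 30703616) (nat_lit 53297152)) (I.mix (nat_lit 21823488) (nat_lit 35880960)))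
  false (nat_lit 0)
def b2_7 : Bx := Bx.mk (St.mk (I.mix (nat_lit 48562176) (nat_lit 34095104)) (I.mix (nat_lit 34471936) (nat_lit 5505024)) (I.mix (nat_lit 3440640) (nat_lit 11124736)) (I.pos (nat_lit 81543168) (nat_lit 100581376)) (I.mix (nat_lit 20807680) (nat_lit 19464192)) (I.mix (nat_lit 14008320) (nat_lit 24133632)) (I.mix (nat_lit 8732672) (nat_lit 6193152)))
  false (nat_lit 0)
def t2 : BTr := (BTr.n (BTr.n (BTr.n (BTr.b b2_0) (BTr.b b2_1)) (BTr.n (BTr.b b2_2) (BTr.b b2_3))) (BTr.n (BTr.n (BTr.b b2_4) (BTr.b b2_5)) (BTr.n (BTr.b b2_6) (BTr.b b2_7))))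
namespace T2
def l0 : Tr := Tr.L (Pth.l (Pth.l (Pth.l Pth.z)))
def l1 : Tr := Tr.L (Pth.l (Pth.l (Pth.r Pth.z)))
def l2 : Tr := Tr.L (Pth.l (Pth.r (Pth.l Pth.z)))
def l3 : Tr := Tr.L (Pth.l (Pth.r (Pth.r Pth.z)))
def l4 : Tr := Tr.L (Pth.r (Pth.l (Pth.l Pth.z)))
def l5 : Tr := Tr.L (Pth.r (Pth.l (Pth.r Pth.z)))
def l6 : Tr := Tr.L (Pth.r (Pth.r (Pth.l Pth.z)))
def l7 : Tr := Tr.L (Pth.r (Pth.r (Pth.r Pth.z)))
end T2
theorem bx0_0 : BoxOK sI cl6 cl6 cl13 t0 t2 b0_0 :=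
  box_mk (TrL.c (I.pos (nat_lit 0) (nat_lit 0)) (xa (xb T0.l0 (xa T0.l0 T0.l0)) (xa (xb T0.l0 T0.l0) T0.l7))
  (TrL.c (I.pos (nat_lit 0) (nat_lit 0)) T2.l1
  (TrL.c (I.pos (nat_lit 0) (nat_lit 89480386)) T0.l1
  (TrL.c (I.pos (nat_lit 0) (nat_lit 41530880)) T2.l2
  (TrL.c (I.pos (nat_lit 0) (nat_lit 0)) (xa T2.l3 (xb (xa T2.l3 T2.l3) (xa T2.l3 T2.l3)))
  (TrL.c (I.pos (nat_lit 0) (nat_lit 0)) T0.l2
  (TrL.c (I.mix (nat_lit 41527258) (nat_lit 41530880)) T2.l5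
  (TrL.c (I.mix (nat_lit 41527258) (nat_lit 4274)) T0.l3
  TrL.n)))))))) (by decide +kernel)
theorem bx0_1 : BoxOK sI cl6 cl6 cl13 t0 t2 b0_1 :=
  box_mk (TrL.c (I.pos (nat_lit 0) (nat_lit 0)) (xa T0.l0 T0.l0)
  (TrL.c (I.pos (nat_lit 0) (nat_lit 0)) T2.l1
  (TrL.c (I.pos (nat_lit 0) (nat_lit 89480386)) T0.l1
  (TrL.c (I.pos (nat_lit 0) (nat_lit 41530880)) T2.l2
  (TrL.c (I.pos (nat_lit 0) (nat_lit 0)) T2.l3
  (TrL.c (I.pos (nat_lit 0) (nat_lit 0)) T0.l2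
  (TrL.c (I.mix (nat_lit 41527258) (nat_lit 41530880)) T2.l4
  (TrL.c (I.mix (nat_lit 41527258) (nat_lit 4274)) T0.l3
  TrL.n)))))))) (by decide +kernel)
theorem bx0_2 : BoxOK sI cl6 cl6 cl13 t0 t2 b0_2 :=
  box_mk (TrL.c (I.pos (nat_lit 0) (nat_lit 0)) T0.l0
  (TrL.c (I.pos (nat_lit 0) (nat_lit 0)) T2.l1
  (TrL.c (I.pos (nat_lit 0) (nat_lit 89480386)) T0.l1
  (TrL.c (I.pos (nat_lit 0) (nat_lit 41530880)) T2.l2
  (TrL.c (I.pos (nat_lit 0) (nat_lit 0)) T2.l3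
  (TrL.c (I.pos (nat_lit 0) (nat_lit 0)) T0.l2
  (TrL.c (I.mix (nat_lit 41527258) (nat_lit 41530880)) T2.l4
  (TrL.c (I.mix (nat_lit 41527258) (nat_lit 4274)) T0.l3
  TrL.n)))))))) (by decide +kernel)
theorem bx0_3 : BoxOK sI cl6 cl6 cl13 t0 t2 b0_3 :=
  box_mk (TrL.c (I.pos (nat_lit 0) (nat_lit 0)) (xa (xb T0.l0 T0.l0) T0.l0)
  (TrL.c (I.pos (nat_lit 0) (nat_lit 0)) T2.l3
  (TrL.c (I.pos (nat_lit 0) (nat_lit 89480386)) T0.l1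
  (TrL.c (I.pos (nat_lit 0) (nat_lit 41530880)) T2.l2
  (TrL.c (I.pos (nat_lit 0) (nat_lit 0)) T2.l3
  (TrL.c (I.pos (nat_lit 0) (nat_lit 0)) T0.l2
  (TrL.c (I.mix (nat_lit 41527258) (nat_lit 41530880)) T2.l4
  (TrL.c (I.mix (nat_lit 41527258) (nat_lit 4274)) T0.l3
  TrL.n)))))))) (by decide +kernel)
theorem bx0_4 : BoxOK sI cl6 cl6 cl13 t0 t2 b0_4 :=
  box_mk (TrL.c (I.pos (nat_lit 0) (nat_lit 0)) T0.l0
  (TrL.c (I.pos (nat_lit 0) (nat_lit 0)) T2.l1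
  (TrL.c (I.pos (nat_lit 0) (nat_lit 89480386)) T0.l1
  (TrL.c (I.pos (nat_lit 0) (nat_lit 41530880)) T2.l2
  (TrL.c (I.pos (nat_lit 0) (nat_lit 0)) T2.l3
  (TrL.c (I.pos (nat_lit 0) (nat_lit 0)) T0.l2
  (TrL.c (I.mix (nat_lit 41527258) (nat_lit 41530880)) T2.l4
  (TrL.c (I.mix (nat_lit 41527258) (nat_lit 4274)) T0.l3
  TrL.n)))))))) (by decide +kernel)
theorem bx0_5 : BoxOK sI cl6 cl6 cl13 t0 t2 b0_5 :=
  box_mk (TrL.c (I.pos (nat_lit 0) (nat_lit 0)) T0.l0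
  (TrL.c (I.pos (nat_lit 0) (nat_lit 0)) T2.l1
  (TrL.c (I.pos (nat_lit 0) (nat_lit 89480386)) T0.l1
  (TrL.c (I.pos (nat_lit 0) (nat_lit 41530880)) T2.l2
  (TrL.c (I.pos (nat_lit 0) (nat_lit 0)) T2.l3
  (TrL.c (I.pos (nat_lit 0) (nat_lit 0)) T0.l2
  (TrL.c (I.mix (nat_lit 41527258) (nat_lit 41530880)) T2.l4
  (TrL.c (I.mix (nat_lit 41527258) (nat_lit 4274)) T0.l3
  TrL.n)))))))) (by decide +kernel)
theorem bx0_6 : BoxOK sI cl6 cl6 cl13 t0 t2 b0_6 :=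
  box_mk (TrL.c (I.pos (nat_lit 0) (nat_lit 0)) (xa T0.l0 T0.l0)
  (TrL.c (I.pos (nat_lit 0) (nat_lit 0)) T2.l1
  (TrL.c (I.pos (nat_lit 0) (nat_lit 89480386)) T0.l1
  (TrL.c (I.pos (nat_lit 0) (nat_lit 41530880)) T2.l2
  (TrL.c (I.pos (nat_lit 0) (nat_lit 0)) T2.l3
  (TrL.c (I.pos (nat_lit 0) (nat_lit 0)) T0.l2
  (TrL.c (I.mix (nat_lit 41527258) (nat_lit 41530880)) T2.l4
  (TrL.c (I.mix (nat_lit 41527258) (nat_lit 4274)) T0.l3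
  TrL.n)))))))) (by decide +kernel)
theorem bx0_7 : BoxOK sI cl6 cl6 cl13 t0 t2 b0_7 :=
  box_mk (TrL.c (I.pos (nat_lit 0) (nat_lit 0)) (xb (xa T0.l0 T0.l0) (xa T0.l0 T0.l0))
  (TrL.c (I.pos (nat_lit 0) (nat_lit 0)) T2.l1
  (TrL.c (I.pos (nat_lit 0) (nat_lit 89480386)) T0.l1
  (TrL.c (I.pos (nat_lit 0) (nat_lit 41530880)) T2.l2
  (TrL.c (I.pos (nat_lit 0) (nat_lit 0)) (xb T2.l3 T2.l3)
  (TrL.c (I.pos (nat_lit 0) (nat_lit 0)) T0.l2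
  (TrL.c (I.mix (nat_lit 41527258) (nat_lit 41530880)) T2.l5
  (TrL.c (I.mix (nat_lit 41527258) (nat_lit 4274)) T0.l3
  TrL.n)))))))) (by decide +kernel)
theorem sv0 : StarV sI cl6 cl6 cl13 t0 t2 t0 :=
  (bt_n (bt_n (bt_n (bt_b bx0_0) (bt_b bx0_1)) (bt_n (bt_b bx0_2) (bt_b bx0_3))) (bt_n (bt_n (bt_b bx0_4) (bt_b bx0_5)) (bt_n (bt_b bx0_6) (bt_b bx0_7))))
def S0 : StarD := StarD.mk cl6 cl6 cl13 0 2 t0
theorem bx1_0 : BoxOK sI cl6 cl13 cl6 t2 t0 b1_0 :=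
  box_mk (TrL.c (I.pos (nat_lit 0) (nat_lit 0)) (xa (xa (xb T2.l0 T2.l0) T2.l0) (xa (xb T2.l0 T2.l0) (xb T2.l0 T2.l0)))
  (TrL.c (I.pos (nat_lit 0) (nat_lit 0)) T0.l4
  (TrL.c (I.pos (nat_lit 0) (nat_lit 89480386)) T2.l5
  (TrL.c (I.pos (nat_lit 0) (nat_lit 41530880)) T0.l5
  (TrL.c (I.pos (nat_lit 0) (nat_lit 0)) (xa T0.l7 (xb (xa T0.l7 T0.l7) (xa T0.l7 T0.l7)))
  (TrL.c (I.pos (nat_lit 0) (nat_lit 0)) T2.l6
  (TrL.c (I.mix (nat_lit 41527258) (nat_lit 41530880)) T0.l1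
  (TrL.c (I.mix (nat_lit 41527258) (nat_lit 4274)) T2.l7
  TrL.n)))))))) (by decide +kernel)
theorem bx1_1 : BoxOK sI cl6 cl13 cl6 t2 t0 b1_1 :=
  box_mk (TrL.c (I.pos (nat_lit 0) (nat_lit 0)) T2.l0
  (TrL.c (I.pos (nat_lit 0) (nat_lit 0)) T0.l4
  (TrL.c (I.pos (nat_lit 0) (nat_lit 89480386)) T2.l5
  (TrL.c (I.pos (nat_lit 0) (nat_lit 41530880)) T0.l5
  (TrL.c (I.pos (nat_lit 0) (nat_lit 0)) T0.l7
  (TrL.c (I.pos (nat_lit 0) (nat_lit 0)) T2.l6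
  (TrL.c (I.mix (nat_lit 41527258) (nat_lit 41530880)) T0.l6
  (TrL.c (I.mix (nat_lit 41527258) (nat_lit 4274)) T2.l7
  TrL.n)))))))) (by decide +kernel)
theorem bx1_2 : BoxOK sI cl6 cl13 cl6 t2 t0 b1_2 :=
  box_mk (TrL.c (I.pos (nat_lit 0) (nat_lit 0)) (xa T2.l0 T2.l0)
  (TrL.c (I.pos (nat_lit 0) (nat_lit 0)) T0.l4
  (TrL.c (I.pos (nat_lit 0) (nat_lit 89480386)) T2.l5
  (TrL.c (I.pos (nat_lit 0) (nat_lit 41530880)) T0.l5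
  (TrL.c (I.pos (nat_lit 0) (nat_lit 0)) T0.l7
  (TrL.c (I.pos (nat_lit 0) (nat_lit 0)) T2.l6
  (TrL.c (I.mix (nat_lit 41527258) (nat_lit 41530880)) T0.l6
  (TrL.c (I.mix (nat_lit 41527258) (nat_lit 4274)) T2.l7
  TrL.n)))))))) (by decide +kernel)
theorem bx1_3 : BoxOK sI cl6 cl13 cl6 t2 t0 b1_3 :=
  box_mk (TrL.c (I.pos (nat_lit 0) (nat_lit 0)) (xa T2.l0 T2.l0)
  (TrL.c (I.pos (nat_lit 0) (nat_lit 0)) T0.l4
  (TrL.c (I.pos (nat_lit 0) (nat_lit 89480386)) T2.l5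
  (TrL.c (I.pos (nat_lit 0) (nat_lit 41530880)) T0.l5
  (TrL.c (I.pos (nat_lit 0) (nat_lit 0)) T0.l7
  (TrL.c (I.pos (nat_lit 0) (nat_lit 0)) T2.l6
  (TrL.c (I.mix (nat_lit 41527258) (nat_lit 41530880)) T0.l6
  (TrL.c (I.mix (nat_lit 41527258) (nat_lit 4274)) T2.l7
  TrL.n)))))))) (by decide +kernel)
theorem bx1_4 : BoxOK sI cl6 cl13 cl6 t2 t0 b1_4 :=
  box_mk (TrL.c (I.pos (nat_lit 0) (nat_lit 0)) (xb (xa T2.l0 T2.l0) (xa (xs T2.l0 (xb T2.l0 T2.l0)) T2.l0))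
  (TrL.c (I.pos (nat_lit 0) (nat_lit 0)) T0.l4
  (TrL.c (I.pos (nat_lit 0) (nat_lit 89480386)) T2.l5
  (TrL.c (I.pos (nat_lit 0) (nat_lit 41530880)) T0.l5
  (TrL.c (I.pos (nat_lit 0) (nat_lit 0)) (xb T0.l7 T0.l7)
  (TrL.c (I.pos (nat_lit 0) (nat_lit 0)) T2.l6
  (TrL.c (I.mix (nat_lit 41527258) (nat_lit 41530880)) T0.l6
  (TrL.c (I.mix (nat_lit 41527258) (nat_lit 4274)) T2.l7
  TrL.n)))))))) (by decide +kernel)
theorem bx1_5 : BoxOK sI cl6 cl13 cl6 t2 t0 b1_5 :=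
  box_mk (TrL.c (I.pos (nat_lit 0) (nat_lit 0)) T2.l0
  (TrL.c (I.pos (nat_lit 0) (nat_lit 0)) T0.l4
  (TrL.c (I.pos (nat_lit 0) (nat_lit 89480386)) T2.l5
  (TrL.c (I.pos (nat_lit 0) (nat_lit 41530880)) T0.l5
  (TrL.c (I.pos (nat_lit 0) (nat_lit 0)) T0.l7
  (TrL.c (I.pos (nat_lit 0) (nat_lit 0)) T2.l6
  (TrL.c (I.mix (nat_lit 41527258) (nat_lit 41530880)) T0.l6
  (TrL.c (I.mix (nat_lit 41527258) (nat_lit 4274)) T2.l7
  TrL.n)))))))) (by decide +kernel)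
theorem bx1_6 : BoxOK sI cl6 cl13 cl6 t2 t0 b1_6 :=
  box_mk (TrL.c (I.pos (nat_lit 0) (nat_lit 0)) (xa T2.l0 T2.l0)
  (TrL.c (I.pos (nat_lit 0) (nat_lit 0)) T0.l4
  (TrL.c (I.pos (nat_lit 0) (nat_lit 89480386)) T2.l5
  (TrL.c (I.pos (nat_lit 0) (nat_lit 41530880)) T0.l5
  (TrL.c (I.pos (nat_lit 0) (nat_lit 0)) (xa T0.l7 T0.l7)
  (TrL.c (I.pos (nat_lit 0) (nat_lit 0)) T2.l6
  (TrL.c (I.mix (nat_lit 41527258) (nat_lit 41530880)) T0.l6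
  (TrL.c (I.mix (nat_lit 41527258) (nat_lit 4274)) T2.l7
  TrL.n)))))))) (by decide +kernel)
theorem bx1_7 : BoxOK sI cl6 cl13 cl6 t2 t0 b1_7 :=
  box_mk (TrL.c (I.pos (nat_lit 0) (nat_lit 0)) T2.l0
  (TrL.c (I.pos (nat_lit 0) (nat_lit 0)) T0.l4
  (TrL.c (I.pos (nat_lit 0) (nat_lit 89480386)) T2.l5
  (TrL.c (I.pos (nat_lit 0) (nat_lit 41530880)) T0.l5
  (TrL.c (I.pos (nat_lit 0) (nat_lit 0)) T0.l7
  (TrL.c (I.pos (nat_lit 0) (nat_lit 0)) T2.l6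
  (TrL.c (I.mix (nat_lit 41527258) (nat_lit 41530880)) T0.l6
  (TrL.c (I.mix (nat_lit 41527258) (nat_lit 4274)) T2.l7
  TrL.n)))))))) (by decide +kernel)
theorem sv1 : StarV sI cl6 cl13 cl6 t2 t0 t1 :=
  (bt_n (bt_n (bt_n (bt_b bx1_0) (bt_b bx1_1)) (bt_n (bt_b bx1_2) (bt_b bx1_3))) (bt_n (bt_n (bt_b bx1_4) (bt_b bx1_5)) (bt_n (bt_b bx1_6) (bt_b bx1_7))))
def S1 : StarD := StarD.mk cl6 cl13 cl6 2 0 t1
theorem bx2_0 : BoxOK sI cl13 cl6 cl6 t1 t1 b2_0 :=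
  box_mk (TrL.c (I.pos (nat_lit 0) (nat_lit 0)) (xa (xa T1.l0 T1.l0) (xa T1.l0 T1.l0))
  (TrL.c (I.pos (nat_lit 0) (nat_lit 0)) T1.l1
  (TrL.c (I.pos (nat_lit 0) (nat_lit 134217730)) (xR T1.l2 T1.l6)
  (TrL.c (I.pos (nat_lit 0) (nat_lit 110514882)) T1.l3
  (TrL.c (I.pos (nat_lit 0) (nat_lit 0)) (xa (xa T1.l4 T1.l4) (xa (xb T1.l4 T1.l4) (xk (xb T1.l4 (xs (xa T1.l4 T1.l4) (xa T1.l4 T1.l4))) (xb T1.l4 (xs (xa T1.l4 T1.l4) (xa T1.l4 T1.l4))))))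
  (TrL.c (I.pos (nat_lit 0) (nat_lit 0)) T1.l5
  (TrL.c (I.mix (nat_lit 8088324) (nat_lit 110514882)) (xR T1.l6 T1.l6)
  (TrL.c (I.mix (nat_lit 8088324) (nat_lit 89478486)) T1.l3
  TrL.n)))))))) (by decide +kernel)
theorem bx2_1 : BoxOK sI cl13 cl6 cl6 t1 t1 b2_1 :=
  box_mk (TrL.c (I.pos (nat_lit 0) (nat_lit 0)) T1.l0
  (TrL.c (I.pos (nat_lit 0) (nat_lit 0)) T1.l1
  (TrL.c (I.pos (nat_lit 0) (nat_lit 134217730)) T1.l6
  (TrL.c (I.pos (nat_lit 0) (nat_lit 110514882)) T1.l3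
  (TrL.c (I.pos (nat_lit 0) (nat_lit 0)) T1.l4
  (TrL.c (I.pos (nat_lit 0) (nat_lit 0)) T1.l5
  (TrL.c (I.mix (nat_lit 8088324) (nat_lit 110514882)) T1.l6
  (TrL.c (I.mix (nat_lit 8088324) (nat_lit 89478486)) T1.l7
  TrL.n)))))))) (by decide +kernel)
theorem bx2_2 : BoxOK sI cl13 cl6 cl6 t1 t1 b2_2 :=
  box_mk (TrL.c (I.pos (nat_lit 0) (nat_lit 0)) T1.l0
  (TrL.c (I.pos (nat_lit 0) (nat_lit 0)) T1.l1
  (TrL.c (I.pos (nat_lit 0) (nat_lit 134217730)) T1.l2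
  (TrL.c (I.pos (nat_lit 0) (nat_lit 110514882)) T1.l3
  (TrL.c (I.pos (nat_lit 0) (nat_lit 0)) T1.l4
  (TrL.c (I.pos (nat_lit 0) (nat_lit 0)) T1.l5
  (TrL.c (I.mix (nat_lit 8088324) (nat_lit 110514882)) T1.l6
  (TrL.c (I.mix (nat_lit 8088324) (nat_lit 89478486)) T1.l2
  TrL.n)))))))) (by decide +kernel)
theorem bx2_3 : BoxOK sI cl13 cl6 cl6 t1 t1 b2_3 :=
  box_mk (TrL.c (I.pos (nat_lit 0) (nat_lit 0)) (xa (xb T1.l0 (xs T1.l0 T1.l0)) (xb T1.l0 T1.l0))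
  (TrL.c (I.pos (nat_lit 0) (nat_lit 0)) T1.l1
  (TrL.c (I.pos (nat_lit 0) (nat_lit 134217730)) (xR T1.l2 T1.l2)
  (TrL.c (I.pos (nat_lit 0) (nat_lit 110514882)) T1.l3
  (TrL.c (I.pos (nat_lit 0) (nat_lit 0)) (xb (xa T1.l4 T1.l4) T1.l4)
  (TrL.c (I.pos (nat_lit 0) (nat_lit 0)) T1.l5
  (TrL.c (I.mix (nat_lit 8088324) (nat_lit 110514882)) (xR T1.l6 T1.l6)
  (TrL.c (I.mix (nat_lit 8088324) (nat_lit 89478486)) T1.l7
  TrL.n)))))))) (by decide +kernel)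
theorem bx2_4 : BoxOK sI cl13 cl6 cl6 t1 t1 b2_4 :=
  box_mk (TrL.c (I.pos (nat_lit 0) (nat_lit 0)) T1.l0
  (TrL.c (I.pos (nat_lit 0) (nat_lit 0)) T1.l1
  (TrL.c (I.pos (nat_lit 0) (nat_lit 134217730)) T1.l2
  (TrL.c (I.pos (nat_lit 0) (nat_lit 110514882)) T1.l3
  (TrL.c (I.pos (nat_lit 0) (nat_lit 0)) T1.l4
  (TrL.c (I.pos (nat_lit 0) (nat_lit 0)) T1.l5
  (TrL.c (I.mix (nat_lit 8088324) (nat_lit 110514882)) T1.l6
  (TrL.c (I.mix (nat_lit 8088324) (nat_lit 89478486)) T1.l2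
  TrL.n)))))))) (by decide +kernel)
theorem bx2_5 : BoxOK sI cl13 cl6 cl6 t1 t1 b2_5 :=
  box_mk (TrL.c (I.pos (nat_lit 0) (nat_lit 0)) (xa T1.l0 T1.l0)
  (TrL.c (I.pos (nat_lit 0) (nat_lit 0)) T1.l1
  (TrL.c (I.pos (nat_lit 0) (nat_lit 134217730)) T1.l2
  (TrL.c (I.pos (nat_lit 0) (nat_lit 110514882)) T1.l3
  (TrL.c (I.pos (nat_lit 0) (nat_lit 0)) T1.l4
  (TrL.c (I.pos (nat_lit 0) (nat_lit 0)) T1.l5
  (TrL.c (I.mix (nat_lit 8088324) (nat_lit 110514882)) T1.l6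
  (TrL.c (I.mix (nat_lit 8088324) (nat_lit 89478486)) T1.l2
  TrL.n)))))))) (by decide +kernel)
theorem bx2_6 : BoxOK sI cl13 cl6 cl6 t1 t1 b2_6 :=
  box_mk (TrL.c (I.pos (nat_lit 0) (nat_lit 0)) T1.l0
  (TrL.c (I.pos (nat_lit 0) (nat_lit 0)) T1.l1
  (TrL.c (I.pos (nat_lit 0) (nat_lit 134217730)) T1.l6
  (TrL.c (I.pos (nat_lit 0) (nat_lit 110514882)) T1.l3
  (TrL.c (I.pos (nat_lit 0) (nat_lit 0)) T1.l4
  (TrL.c (I.pos (nat_lit 0) (nat_lit 0)) T1.l5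
  (TrL.c (I.mix (nat_lit 8088324) (nat_lit 110514882)) T1.l6
  (TrL.c (I.mix (nat_lit 8088324) (nat_lit 89478486)) T1.l7
  TrL.n)))))))) (by decide +kernel)
theorem bx2_7 : BoxOK sI cl13 cl6 cl6 t1 t1 b2_7 :=
  box_mk (TrL.c (I.pos (nat_lit 0) (nat_lit 0)) T1.l0
  (TrL.c (I.pos (nat_lit 0) (nat_lit 0)) T1.l4
  (TrL.c (I.pos (nat_lit 0) (nat_lit 134217730)) T1.l2
  (TrL.c (I.pos (nat_lit 0) (nat_lit 110514882)) T1.l6
  (TrL.c (I.pos (nat_lit 0) (nat_lit 0)) T1.l4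
  (TrL.c (I.pos (nat_lit 0) (nat_lit 0)) T1.l5
  (TrL.c (I.mix (nat_lit 8088324) (nat_lit 110514882)) T1.l6
  (TrL.c (I.mix (nat_lit 8088324) (nat_lit 89478486)) T1.l2
  TrL.n)))))))) (by decide +kernel)
theorem sv2 : StarV sI cl13 cl6 cl6 t1 t1 t2 :=
  (bt_n (bt_n (bt_n (bt_b bx2_0) (bt_b bx2_1)) (bt_n (bt_b bx2_2) (bt_b bx2_3))) (bt_n (bt_n (bt_b bx2_4) (bt_b bx2_5)) (bt_n (bt_b bx2_6) (bt_b bx2_7))))
def S2 : StarD := StarD.mk cl13 cl6 cl6 1 1 t2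
def G : List StarD := [S0, S1, S2]
theorem so0 : StarOK sI G S0 :=
  star_mk (by decide) (by decide) rfl rfl rfl rfl rfl rfl (rfl : _ = t0) (rfl : _ = t2)
  (st_mk (Pth.l (Pth.l (Pth.l Pth.z))) (nat_lit 188126790) (nat_lit 188939464) (by decide +kernel))
  (st_mk (Pth.l (Pth.l (Pth.l Pth.z))) (nat_lit 223862880) (nat_lit 225016333) (by decide +kernel))
  (st_mk (Pth.l (Pth.l (Pth.l Pth.z))) (nat_lit 265283437) (nat_lit 266910378) (by decide +kernel)) sv0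
theorem so1 : StarOK sI G S1 :=
  star_mk (by decide) (by decide) rfl rfl rfl rfl rfl rfl (rfl : _ = t2) (rfl : _ = t0)
  (st_mk (Pth.l (Pth.l (Pth.l Pth.z))) (nat_lit 96567282) (nat_lit 115182952) (by decide +kernel))
  (st_mk (Pth.l (Pth.l (Pth.l Pth.z))) (nat_lit 132098879) (nat_lit 151037223) (by decide +kernel))
  (st_mk (Pth.l (Pth.l (Pth.l Pth.z))) (nat_lit 173347132) (nat_lit 192743008) (by decide +kernel)) sv1
theorem so2 : StarOK sI G S2 :=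
  star_mk (by decide) (by decide) rfl rfl rfl rfl rfl rfl (rfl : _ = t1) (rfl : _ = t1)
  (st_mk (Pth.l (Pth.l (Pth.l Pth.z))) (nat_lit 185843017) (nat_lit 187030124) (by decide +kernel))
  (st_mk (Pth.l (Pth.l (Pth.l Pth.z))) (nat_lit 220739626) (nat_lit 222192930) (by decide +kernel))
  (st_mk (Pth.l (Pth.l (Pth.l Pth.z))) (nat_lit 261004945) (nat_lit 262822875) (by decide +kernel)) sv2
theorem ok : GroupOK (nat_lit 0) (nat_lit 91291648) G := grp_mk (allS_c so0 (allS_c so1 (allS_c so2 allS_n)))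
theorem cov : GCov G cl6 cl6 cl13 := cov_mk
  ⟨0, by decide, rfl, rfl, rfl⟩ ⟨1, by decide, rfl, rfl, rfl⟩ ⟨0, by decide, rfl, rfl, rfl⟩ ⟨1, by decide, rfl, rfl, rfl⟩ ⟨2, by decide, rfl, rfl, rfl⟩ ⟨2, by decide, rfl, rfl, rfl⟩
end Q336_0

namespace Q336_1
def sI : I := I.pos (nat_lit 91226112) (nat_lit 150339584)
def b0_0 : Bx := Bx.mk (St.mk (I.pos (nat_lit 156860416) (nat_lit 286769152)) (I.mix (nat_lit 31260672) (nat_lit 64716800)) (I.mix (nat_lit 116064256) (nat_lit 86917120)) (I.pos (nat_lit 181813248) (nat_lit 401096704)) (I.mix (nat_lit 98025472) (nat_lit 71630848)) (I.mix (nat_lit 85032960) (nat_lit 58769408)) (I.mix (nat_lit 130973696) (nat_lit 91176960)))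
  false (nat_lit 30192140)
def b0_1 : Bx := Bx.mk (St.mk (I.mix (nat_lit 40583168) (nat_lit 101810176)) (I.mix (nat_lit 11337728) (nat_lit 44154880)) (I.mix (nat_lit 25247744) (nat_lit 10141696)) (I.pos (nat_lit 74989568) (nat_lit 126779392)) (I.mix (nat_lit 38010880) (nat_lit 43483136)) (I.mix (nat_lit 40419328) (nat_lit 30474240)) (I.mix (nat_lit 26001408) (nat_lit 16957440)))
  false (nat_lit 0)
def b0_2 : Bx := Bx.mk (St.mk (I.pos (nat_lit 78282752) (nat_lit 121143296)) (I.mix (nat_lit 58605568) (nat_lit 9666560)) (I.neg (nat_lit 8880128) (nat_lit 60768256)) (I.pos (nat_lit 111640576) (nat_lit 144621568)) (I.mix (nat_lit 81936384) (nat_lit 30113792)) (I.mix (nat_lit 36782080) (nat_lit 70139904)) (I.mix (nat_lit 26525696) (nat_lit 51331072)))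
  false (nat_lit 0)
def b0_3 : Bx := Bx.mk (St.mk (I.mix (nat_lit 50249728) (nat_lit 28393472)) (I.mix (nat_lit 34799616) (nat_lit 8814592)) (I.neg (nat_lit 1753088) (nat_lit 17022976)) (I.pos (nat_lit 82378752) (nat_lit 100532224)) (I.mix (nat_lit 32243712) (nat_lit 21299200)) (I.mix (nat_lit 18546688) (nat_lit 28999680)) (I.mix (nat_lit 10698752) (nat_lit 7143424)))
  false (nat_lit 0)
def b0_4 : Bx := Bx.mk (St.mk (I.pos (nat_lit 89800704) (nat_lit 160841728)) (I.neg (nat_lit 2883584) (nat_lit 58179584)) (I.neg (nat_lit 9486336) (nat_lit 60964864)) (I.pos (nat_lit 124141568) (nat_lit 187023360)) (I.mix (nat_lit 71630848) (nat_lit 43712512)) (I.mix (nat_lit 36503552) (nat_lit 63569920)) (I.mix (nat_lit 28672000) (nat_lit 55640064)))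
  false (nat_lit 0)
def b0_5 : Bx := Bx.mk (St.mk (I.mix (nat_lit 35520512) (nat_lit 47169536)) (I.mix (nat_lit 35258368) (nat_lit 7143424)) (I.neg (nat_lit 2719744) (nat_lit 19349504)) (I.pos (nat_lit 81149952) (nat_lit 101302272)) (I.mix (nat_lit 33341440) (nat_lit 29704192)) (I.mix (nat_lit 21200896) (nat_lit 36290560)) (I.mix (nat_lit 10338304) (nat_lit 13697024)))
  false (nat_lit 0)
def b0_6 : Bx := Bx.mk (St.mk (I.mix (nat_lit 49594368) (nat_lit 81018880)) (I.mix (nat_lit 11010048) (nat_lit 40386560)) (I.mix (nat_lit 23085056) (nat_lit 7159808)) (I.pos (nat_lit 80904192) (nat_lit 111312896)) (I.mix (nat_lit 39157760) (nat_lit 42778624)) (I.mix (nat_lit 45760512) (nat_lit 29720576)) (I.mix (nat_lit 18137088) (nat_lit 18415616)))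
  false (nat_lit 0)
def b0_7 : Bx := Bx.mk (St.mk (I.pos (nat_lit 140984320) (nat_lit 214450176)) (I.mix (nat_lit 39124992) (nat_lit 67223552)) (I.mix (nat_lit 45613056) (nat_lit 82853888)) (I.pos (nat_lit 166871040) (nat_lit 262946816)) (I.mix (nat_lit 127041536) (nat_lit 69287936)) (I.mix (nat_lit 130007040) (nat_lit 78233600)) (I.mix (nat_lit 127320064) (nat_lit 74924032)))
  false (nat_lit 12083916)
def t0 : BTr := (BTr.n (BTr.n (BTr.n (BTr.b b0_0) (BTr.b b0_1)) (BTr.n (BTr.b b0_2) (BTr.b b0_3))) (BTr.n (BTr.n (BTr.b b0_4) (BTr.b b0_5)) (BTr.n (BTr.b b0_6) (BTr.b b0_7))))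
namespace T0
def l0 : Tr := Tr.L (Pth.l (Pth.l (Pth.l Pth.z)))
def l1 : Tr := Tr.L (Pth.l (Pth.l (Pth.r Pth.z)))
def l2 : Tr := Tr.L (Pth.l (Pth.r (Pth.l Pth.z)))
def l3 : Tr := Tr.L (Pth.l (Pth.r (Pth.r Pth.z)))
def l4 : Tr := Tr.L (Pth.r (Pth.l (Pth.l Pth.z)))
def l5 : Tr := Tr.L (Pth.r (Pth.l (Pth.r Pth.z)))
def l6 : Tr := Tr.L (Pth.r (Pth.r (Pth.l Pth.z)))
def l7 : Tr := Tr.L (Pth.r (Pth.r (Pth.r Pth.z)))
end T0
def b1_0 : Bx := Bx.mk (St.mk (I.pos (nat_lit 156909568) (nat_lit 284934144)) (I.mix (nat_lit 26279936) (nat_lit 48988160)) (I.mix (nat_lit 56475648) (nat_lit 90783744)) (I.pos (nat_lit 90144768) (nat_lit 325926912)) (I.mix (nat_lit 101941248) (nat_lit 67502080)) (I.mix (nat_lit 90439680) (nat_lit 62488576)) (I.mix (nat_lit 143147008) (nat_lit 89899008)))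
  false (nat_lit 27792440)
def b1_1 : Bx := Bx.mk (St.mk (I.pos (nat_lit 124567552) (nat_lit 187924480)) (I.neg (nat_lit 2637824) (nat_lit 51200000)) (I.mix (nat_lit 50282496) (nat_lit 622592)) (I.pos (nat_lit 72220672) (nat_lit 149618688)) (I.mix (nat_lit 65863680) (nat_lit 39157760)) (I.mix (nat_lit 36192256) (nat_lit 53346304)) (I.mix (nat_lit 31621120) (nat_lit 55705600)))
  false (nat_lit 0)
def b1_2 : Bx := Bx.mk (St.mk (I.mix (nat_lit 16039936) (nat_lit 144719872)) (I.mix (nat_lit 8044544) (nat_lit 26624000)) (I.mix (nat_lit 9306112) (nat_lit 25460736)) (I.mix (nat_lit 3260416) (nat_lit 92684288)) (I.mix (nat_lit 37224448) (nat_lit 25149440)) (I.mix (nat_lit 30982144) (nat_lit 21577728)) (I.mix (nat_lit 25542656) (nat_lit 16515072)))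
  false (nat_lit 0)
def b1_3 : Bx := Bx.mk (St.mk (I.mix (nat_lit 26492928) (nat_lit 119816192)) (I.mix (nat_lit 28229632) (nat_lit 7127040)) (I.mix (nat_lit 20987904) (nat_lit 5259264)) (I.mix (nat_lit 2539520) (nat_lit 68288512)) (I.mix (nat_lit 36601856) (nat_lit 26329088)) (I.mix (nat_lit 22347776) (nat_lit 29966336)) (I.mix (nat_lit 14434304) (nat_lit 20578304)))
  false (nat_lit 0)
def b1_4 : Bx := Bx.mk (St.mk (I.pos (nat_lit 153550848) (nat_lit 219447296)) (I.mix (nat_lit 39452672) (nat_lit 52346880)) (I.mix (nat_lit 37797888) (nat_lit 89161728)) (I.pos (nat_lit 96731136) (nat_lit 195952640)) (I.mix (nat_lit 136855552) (nat_lit 56475648)) (I.mix (nat_lit 151879680) (nat_lit 84705280)) (I.mix (nat_lit 184238080) (nat_lit 92176384)))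
  false (nat_lit 0)
def b1_5 : Bx := Bx.mk (St.mk (I.pos (nat_lit 115605504) (nat_lit 160448512)) (I.mix (nat_lit 50626560) (nat_lit 7815168)) (I.mix (nat_lit 51806208) (nat_lit 7405568)) (I.pos (nat_lit 52412416) (nat_lit 113082368)) (I.mix (nat_lit 90046464) (nat_lit 32718848)) (I.mix (nat_lit 46137344) (nat_lit 91504640)) (I.mix (nat_lit 39665664) (nat_lit 82919424)))
  false (nat_lit 0)
def b1_6 : Bx := Bx.mk (St.mk (I.mix (nat_lit 19054592) (nat_lit 136593408)) (I.mix (nat_lit 13074432) (nat_lit 33685504)) (I.mix (nat_lit 8880128) (nat_lit 28835840)) (I.mix (nat_lit 2965504) (nat_lit 82706432)) (I.mix (nat_lit 57114624) (nat_lit 30523392)) (I.mix (nat_lit 55443456) (nat_lit 33931264)) (I.mix (nat_lit 40501248) (nat_lit 23232512)))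
  false (nat_lit 0)
def b1_7 : Bx := Bx.mk (St.mk (I.mix (nat_lit 12075008) (nat_lit 109346816)) (I.mix (nat_lit 23871488) (nat_lit 1245184)) (I.mix (nat_lit 16908288) (nat_lit 2703360)) (I.mix (nat_lit 2293760) (nat_lit 59523072)) (I.mix (nat_lit 34897920) (nat_lit 18661376)) (I.mix (nat_lit 20217856) (nat_lit 31834112)) (I.mix (nat_lit 12124160) (nat_lit 19513344)))
  false (nat_lit 0)
def t1 : BTr := (BTr.n (BTr.n (BTr.n (BTr.b b1_0) (BTr.b b1_1)) (BTr.n (BTr.b b1_2) (BTr.b b1_3))) (BTr.n (BTr.n (BTr.b b1_4) (BTr.b b1_5)) (BTr.n (BTr.b b1_6) (BTr.b b1_7))))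
namespace T1
def l0 : Tr := Tr.L (Pth.l (Pth.l (Pth.l Pth.z)))
def l1 : Tr := Tr.L (Pth.l (Pth.l (Pth.r Pth.z)))
def l2 : Tr := Tr.L (Pth.l (Pth.r (Pth.l Pth.z)))
def l3 : Tr := Tr.L (Pth.l (Pth.r (Pth.r Pth.z)))
def l4 : Tr := Tr.L (Pth.r (Pth.l (Pth.l Pth.z)))
def l5 : Tr := Tr.L (Pth.r (Pth.l (Pth.r Pth.z)))
def l6 : Tr := Tr.L (Pth.r (Pth.r (Pth.l Pth.z)))
def l7 : Tr := Tr.L (Pth.r (Pth.r (Pth.r Pth.z)))
end T1
def b2_0 : Bx := Bx.mk (St.mk (I.pos (nat_lit 151683072) (nat_lit 283852800)) (I.mix (nat_lit 23937024) (nat_lit 59211776)) (I.mix (nat_lit 49086464) (nat_lit 108199936)) (I.pos (nat_lit 179453952) (nat_lit 386170880)) (I.mix (nat_lit 118358016) (nat_lit 88588288)) (I.mix (nat_lit 113164288) (nat_lit 75759616)) (I.mix (nat_lit 166477824) (nat_lit 96043008)))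
  false (nat_lit 65379346)
def b2_1 : Bx := Bx.mk (St.mk (I.pos (nat_lit 96911360) (nat_lit 168640512)) (I.neg (nat_lit 8585216) (nat_lit 61751296)) (I.mix (nat_lit 46006272) (nat_lit 14434304)) (I.pos (nat_lit 132087808) (nat_lit 193609728)) (I.mix (nat_lit 68829184) (nat_lit 42565632)) (I.mix (nat_lit 34799616) (nat_lit 55836672)) (I.mix (nat_lit 30261248) (nat_lit 47955968)))
  false (nat_lit 0)
def b2_2 : Bx := Bx.mk (St.mk (I.mix (nat_lit 29507584) (nat_lit 50364416)) (I.mix (nat_lit 35454976) (nat_lit 7208960)) (I.mix (nat_lit 5455872) (nat_lit 9568256)) (I.pos (nat_lit 82575360) (nat_lit 100319232)) (I.mix (nat_lit 23773184) (nat_lit 29442048)) (I.mix (nat_lit 18907136) (nat_lit 27066368)) (I.mix (nat_lit 7110656) (nat_lit 9682944)))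
  false (nat_lit 0)
def b2_3 : Bx := Bx.mk (St.mk (I.pos (nat_lit 138379264) (nat_lit 206880768)) (I.mix (nat_lit 38109184) (nat_lit 64192512)) (I.mix (nat_lit 19677184) (nat_lit 107790336)) (I.pos (nat_lit 164085760) (nat_lit 246415360)) (I.mix (nat_lit 134086656) (nat_lit 41091072)) (I.mix (nat_lit 131039232) (nat_lit 66043904)) (I.mix (nat_lit 135888896) (nat_lit 59899904)))
  false (nat_lit 54488247)
def b2_4 : Bx := Bx.mk (St.mk (I.mix (nat_lit 52330496) (nat_lit 75022336)) (I.mix (nat_lit 12156928) (nat_lit 41811968)) (I.mix (nat_lit 6651904) (nat_lit 21430272)) (I.pos (nat_lit 81231872) (nat_lit 109068288)) (I.mix (nat_lit 42090496) (nat_lit 27836416)) (I.mix (nat_lit 31653888) (nat_lit 23330816)) (I.mix (nat_lit 13254656) (nat_lit 12681216)))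
  false (nat_lit 0)
def b2_5 : Bx := Bx.mk (St.mk (I.mix (nat_lit 48234496) (nat_lit 97828864)) (I.mix (nat_lit 7553024) (nat_lit 43483136)) (I.mix (nat_lit 6750208) (nat_lit 28426240)) (I.pos (nat_lit 72663040) (nat_lit 126074880)) (I.mix (nat_lit 50315264) (nat_lit 42352640)) (I.mix (nat_lit 50593792) (nat_lit 31342592)) (I.mix (nat_lit 32210944) (nat_lit 22003712)))
  false (nat_lit 0)
def b2_6 : Bx := Bx.mk (St.mk (I.pos (nat_lit 81264640) (nat_lit 128319488)) (I.mix (nat_lit 61931520) (nat_lit 8732672)) (I.mix (nat_lit 44449792) (nat_lit 5996544)) (I.pos (nat_lit 114737152) (nat_lit 151224320)) (I.mix (nat_lit 74989568) (nat_lit 37339136)) (I.mix (nat_lit 40665088) (nat_lit 71254016)) (I.mix (nat_lit 29491200) (nat_lit 47759360)))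
  false (nat_lit 0)
def b2_7 : Bx := Bx.mk (St.mk (I.mix (nat_lit 47169536) (nat_lit 33652736)) (I.mix (nat_lit 34340864) (nat_lit 5881856)) (I.mix (nat_lit 3538944) (nat_lit 11157504)) (I.pos (nat_lit 81887232) (nat_lit 100712448)) (I.mix (nat_lit 30146560) (nat_lit 28278784)) (I.mix (nat_lit 20152320) (nat_lit 33832960)) (I.mix (nat_lit 12238848) (nat_lit 8798208)))
  false (nat_lit 0)
def t2 : BTr := (BTr.n (BTr.n (BTr.n (BTr.b b2_0) (BTr.b b2_1)) (BTr.n (BTr.b b2_2) (BTr.b b2_3))) (BTr.n (BTr.n (BTr.b b2_4) (BTr.b b2_5)) (BTr.n (BTr.b b2_6) (BTr.b b2_7))))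
namespace T2
def l0 : Tr := Tr.L (Pth.l (Pth.l (Pth.l Pth.z)))
def l1 : Tr := Tr.L (Pth.l (Pth.l (Pth.r Pth.z)))
def l2 : Tr := Tr.L (Pth.l (Pth.r (Pth.l Pth.z)))
def l3 : Tr := Tr.L (Pth.l (Pth.r (Pth.r Pth.z)))
def l4 : Tr := Tr.L (Pth.r (Pth.l (Pth.l Pth.z)))
def l5 : Tr := Tr.L (Pth.r (Pth.l (Pth.r Pth.z)))
def l6 : Tr := Tr.L (Pth.r (Pth.r (Pth.l Pth.z)))
def l7 : Tr := Tr.L (Pth.r (Pth.r (Pth.r Pth.z)))
end T2
theorem bx0_0 : BoxOK sI cl6 cl6 cl13 t0 t2 b0_0 :=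
  box_mk (TrL.c (I.pos (nat_lit 0) (nat_lit 0)) (xa (xb T0.l0 (xa T0.l0 T0.l0)) (xb (xa T0.l0 T0.l0) (xa T0.l0 T0.l0)))
  (TrL.c (I.pos (nat_lit 0) (nat_lit 0)) (xa T2.l1 T2.l1)
  (TrL.c (I.pos (nat_lit 0) (nat_lit 89480386)) T0.l1
  (TrL.c (I.pos (nat_lit 0) (nat_lit 41530880)) T2.l2
  (TrL.c (I.pos (nat_lit 0) (nat_lit 0)) (xa T2.l0 (xb (xa T2.l0 T2.l0) (xa T2.l3 T2.l3)))
  (TrL.c (I.pos (nat_lit 0) (nat_lit 0)) (xa T0.l2 T0.l2)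
  (TrL.c (I.mix (nat_lit 41527258) (nat_lit 41530880)) T2.l5
  (TrL.c (I.mix (nat_lit 41527258) (nat_lit 4274)) T0.l3
  TrL.n)))))))) (by decide +kernel)
theorem bx0_1 : BoxOK sI cl6 cl6 cl13 t0 t2 b0_1 :=
  box_mk (TrL.c (I.pos (nat_lit 0) (nat_lit 0)) (xa (xa T0.l0 T0.l0) T0.l0)
  (TrL.c (I.pos (nat_lit 0) (nat_lit 0)) T2.l1
  (TrL.c (I.pos (nat_lit 0) (nat_lit 89480386)) T0.l1
  (TrL.c (I.pos (nat_lit 0) (nat_lit 41530880)) T2.l2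
  (TrL.c (I.pos (nat_lit 0) (nat_lit 0)) T2.l3
  (TrL.c (I.pos (nat_lit 0) (nat_lit 0)) T0.l2
  (TrL.c (I.mix (nat_lit 41527258) (nat_lit 41530880)) T2.l4
  (TrL.c (I.mix (nat_lit 41527258) (nat_lit 4274)) T0.l3
  TrL.n)))))))) (by decide +kernel)
theorem bx0_2 : BoxOK sI cl6 cl6 cl13 t0 t2 b0_2 :=
  box_mk (TrL.c (I.pos (nat_lit 0) (nat_lit 0)) T0.l0
  (TrL.c (I.pos (nat_lit 0) (nat_lit 0)) T2.l1
  (TrL.c (I.pos (nat_lit 0) (nat_lit 89480386)) T0.l1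
  (TrL.c (I.pos (nat_lit 0) (nat_lit 41530880)) T2.l2
  (TrL.c (I.pos (nat_lit 0) (nat_lit 0)) T2.l3
  (TrL.c (I.pos (nat_lit 0) (nat_lit 0)) T0.l2
  (TrL.c (I.mix (nat_lit 41527258) (nat_lit 41530880)) T2.l4
  (TrL.c (I.mix (nat_lit 41527258) (nat_lit 4274)) T0.l3
  TrL.n)))))))) (by decide +kernel)
theorem bx0_3 : BoxOK sI cl6 cl6 cl13 t0 t2 b0_3 :=
  box_mk (TrL.c (I.pos (nat_lit 0) (nat_lit 0)) (xa (xb T0.l0 T0.l0) T0.l0)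
  (TrL.c (I.pos (nat_lit 0) (nat_lit 0)) T2.l3
  (TrL.c (I.pos (nat_lit 0) (nat_lit 89480386)) T0.l1
  (TrL.c (I.pos (nat_lit 0) (nat_lit 41530880)) T2.l4
  (TrL.c (I.pos (nat_lit 0) (nat_lit 0)) T2.l3
  (TrL.c (I.pos (nat_lit 0) (nat_lit 0)) T0.l1
  (TrL.c (I.mix (nat_lit 41527258) (nat_lit 41530880)) T2.l4
  (TrL.c (I.mix (nat_lit 41527258) (nat_lit 4274)) T0.l3
  TrL.n)))))))) (by decide +kernel)
theorem bx0_4 : BoxOK sI cl6 cl6 cl13 t0 t2 b0_4 :=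
  box_mk (TrL.c (I.pos (nat_lit 0) (nat_lit 0)) T0.l0
  (TrL.c (I.pos (nat_lit 0) (nat_lit 0)) T2.l1
  (TrL.c (I.pos (nat_lit 0) (nat_lit 89480386)) T0.l1
  (TrL.c (I.pos (nat_lit 0) (nat_lit 41530880)) T2.l2
  (TrL.c (I.pos (nat_lit 0) (nat_lit 0)) T2.l3
  (TrL.c (I.pos (nat_lit 0) (nat_lit 0)) T0.l2
  (TrL.c (I.mix (nat_lit 41527258) (nat_lit 41530880)) T2.l4
  (TrL.c (I.mix (nat_lit 41527258) (nat_lit 4274)) T0.l3
  TrL.n)))))))) (by decide +kernel)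
theorem bx0_5 : BoxOK sI cl6 cl6 cl13 t0 t2 b0_5 :=
  box_mk (TrL.c (I.pos (nat_lit 0) (nat_lit 0)) T0.l0
  (TrL.c (I.pos (nat_lit 0) (nat_lit 0)) T2.l1
  (TrL.c (I.pos (nat_lit 0) (nat_lit 89480386)) T0.l1
  (TrL.c (I.pos (nat_lit 0) (nat_lit 41530880)) T2.l2
  (TrL.c (I.pos (nat_lit 0) (nat_lit 0)) T2.l3
  (TrL.c (I.pos (nat_lit 0) (nat_lit 0)) T0.l2
  (TrL.c (I.mix (nat_lit 41527258) (nat_lit 41530880)) T2.l4
  (TrL.c (I.mix (nat_lit 41527258) (nat_lit 4274)) T0.l3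
  TrL.n)))))))) (by decide +kernel)
theorem bx0_6 : BoxOK sI cl6 cl6 cl13 t0 t2 b0_6 :=
  box_mk (TrL.c (I.pos (nat_lit 0) (nat_lit 0)) (xa (xa (xb T0.l0 T0.l0) T0.l0) T0.l0)
  (TrL.c (I.pos (nat_lit 0) (nat_lit 0)) T2.l1
  (TrL.c (I.pos (nat_lit 0) (nat_lit 89480386)) T0.l1
  (TrL.c (I.pos (nat_lit 0) (nat_lit 41530880)) T2.l2
  (TrL.c (I.pos (nat_lit 0) (nat_lit 0)) T2.l3
  (TrL.c (I.pos (nat_lit 0) (nat_lit 0)) T0.l2
  (TrL.c (I.mix (nat_lit 41527258) (nat_lit 41530880)) T2.l4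
  (TrL.c (I.mix (nat_lit 41527258) (nat_lit 4274)) T0.l3
  TrL.n)))))))) (by decide +kernel)
theorem bx0_7 : BoxOK sI cl6 cl6 cl13 t0 t2 b0_7 :=
  box_mk (TrL.c (I.pos (nat_lit 0) (nat_lit 0)) (xb (xa T0.l0 T0.l0) (xa T0.l0 T0.l0))
  (TrL.c (I.pos (nat_lit 0) (nat_lit 0)) T2.l1
  (TrL.c (I.pos (nat_lit 0) (nat_lit 89480386)) T0.l1
  (TrL.c (I.pos (nat_lit 0) (nat_lit 41530880)) T2.l2
  (TrL.c (I.pos (nat_lit 0) (nat_lit 0)) (xb T2.l0 T2.l3)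
  (TrL.c (I.pos (nat_lit 0) (nat_lit 0)) T0.l2
  (TrL.c (I.mix (nat_lit 41527258) (nat_lit 41530880)) T2.l5
  (TrL.c (I.mix (nat_lit 41527258) (nat_lit 4274)) T0.l3
  TrL.n)))))))) (by decide +kernel)
theorem sv0 : StarV sI cl6 cl6 cl13 t0 t2 t0 :=
  (bt_n (bt_n (bt_n (bt_b bx0_0) (bt_b bx0_1)) (bt_n (bt_b bx0_2) (bt_b bx0_3))) (bt_n (bt_n (bt_b bx0_4) (bt_b bx0_5)) (bt_n (bt_b bx0_6) (bt_b bx0_7))))
def S0 : StarD := StarD.mk cl6 cl6 cl13 0 2 t0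
theorem bx1_0 : BoxOK sI cl6 cl13 cl6 t2 t0 b1_0 :=
  box_mk (TrL.c (I.pos (nat_lit 0) (nat_lit 0)) (xa (xa T2.l0 T2.l0) (xa (xb T2.l0 T2.l0) (xb T2.l3 T2.l0)))
  (TrL.c (I.pos (nat_lit 0) (nat_lit 0)) (xa T0.l4 (xb T0.l4 T0.l4))
  (TrL.c (I.pos (nat_lit 0) (nat_lit 89480386)) T2.l5
  (TrL.c (I.pos (nat_lit 0) (nat_lit 41530880)) T0.l5
  (TrL.c (I.pos (nat_lit 0) (nat_lit 0)) (xa T0.l7 (xb (xa T0.l7 T0.l7) (xa T0.l7 T0.l7)))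
  (TrL.c (I.pos (nat_lit 0) (nat_lit 0)) (xa T2.l6 T2.l6)
  (TrL.c (I.mix (nat_lit 41527258) (nat_lit 41530880)) T0.l6
  (TrL.c (I.mix (nat_lit 41527258) (nat_lit 4274)) T2.l7
  TrL.n)))))))) (by decide +kernel)
theorem bx1_1 : BoxOK sI cl6 cl13 cl6 t2 t0 b1_1 :=
  box_mk (TrL.c (I.pos (nat_lit 0) (nat_lit 0)) T2.l0
  (TrL.c (I.pos (nat_lit 0) (nat_lit 0)) T0.l4
  (TrL.c (I.pos (nat_lit 0) (nat_lit 89480386)) T2.l5
  (TrL.c (I.pos (nat_lit 0) (nat_lit 41530880)) T0.l5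
  (TrL.c (I.pos (nat_lit 0) (nat_lit 0)) T0.l7
  (TrL.c (I.pos (nat_lit 0) (nat_lit 0)) T2.l6
  (TrL.c (I.mix (nat_lit 41527258) (nat_lit 41530880)) T0.l6
  (TrL.c (I.mix (nat_lit 41527258) (nat_lit 4274)) T2.l7
  TrL.n)))))))) (by decide +kernel)
theorem bx1_2 : BoxOK sI cl6 cl13 cl6 t2 t0 b1_2 :=
  box_mk (TrL.c (I.pos (nat_lit 0) (nat_lit 0)) (xa T2.l0 T2.l0)
  (TrL.c (I.pos (nat_lit 0) (nat_lit 0)) (xa T0.l4 T0.l4)
  (TrL.c (I.pos (nat_lit 0) (nat_lit 89480386)) T2.l5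
  (TrL.c (I.pos (nat_lit 0) (nat_lit 41530880)) T0.l5
  (TrL.c (I.pos (nat_lit 0) (nat_lit 0)) (xa T0.l7 T0.l7)
  (TrL.c (I.pos (nat_lit 0) (nat_lit 0)) T2.l6
  (TrL.c (I.mix (nat_lit 41527258) (nat_lit 41530880)) T0.l6
  (TrL.c (I.mix (nat_lit 41527258) (nat_lit 4274)) T2.l7
  TrL.n)))))))) (by decide +kernel)
theorem bx1_3 : BoxOK sI cl6 cl13 cl6 t2 t0 b1_3 :=
  box_mk (TrL.c (I.pos (nat_lit 0) (nat_lit 0)) (xa (xa T2.l0 T2.l0) T2.l0)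
  (TrL.c (I.pos (nat_lit 0) (nat_lit 0)) (xa T0.l4 T0.l4)
  (TrL.c (I.pos (nat_lit 0) (nat_lit 89480386)) T2.l5
  (TrL.c (I.pos (nat_lit 0) (nat_lit 41530880)) T0.l5
  (TrL.c (I.pos (nat_lit 0) (nat_lit 0)) (xa T0.l7 T0.l7)
  (TrL.c (I.pos (nat_lit 0) (nat_lit 0)) T2.l6
  (TrL.c (I.mix (nat_lit 41527258) (nat_lit 41530880)) T0.l6
  (TrL.c (I.mix (nat_lit 41527258) (nat_lit 4274)) T2.l7
  TrL.n)))))))) (by decide +kernel)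
theorem bx1_4 : BoxOK sI cl6 cl13 cl6 t2 t0 b1_4 :=
  box_mk (TrL.c (I.pos (nat_lit 0) (nat_lit 0)) (xb (xa (xb (xa (xb T2.l0 T2.l0) (xs T2.l0 (xb T2.l0 T2.l0))) (xb T2.l0 T2.l0)) (xb (xa (xs T2.l0 (xb T2.l0 T2.l0)) (xs T2.l0 (xb (xs T2.l0 (xa T2.l3 T2.l3)) T2.l0))) (xb (xa T2.l0 (xs T2.l0 (xa T2.l0 T2.l3))) (xa T2.l0 T2.l0)))) (xa T2.l0 (xb T2.l0 T2.l0)))
  (TrL.c (I.pos (nat_lit 0) (nat_lit 0)) (xb T0.l4 T0.l4)
  (TrL.c (I.pos (nat_lit 0) (nat_lit 89480386)) T2.l5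
  (TrL.c (I.pos (nat_lit 0) (nat_lit 41530880)) T0.l5
  (TrL.c (I.pos (nat_lit 0) (nat_lit 0)) (xb T0.l7 T0.l7)
  (TrL.c (I.pos (nat_lit 0) (nat_lit 0)) T2.l6
  (TrL.c (I.mix (nat_lit 41527258) (nat_lit 41530880)) T0.l6
  (TrL.c (I.mix (nat_lit 41527258) (nat_lit 4274)) T2.l7
  TrL.n)))))))) (by decide +kernel)
theorem bx1_5 : BoxOK sI cl6 cl13 cl6 t2 t0 b1_5 :=
  box_mk (TrL.c (I.pos (nat_lit 0) (nat_lit 0)) T2.l0
  (TrL.c (I.pos (nat_lit 0) (nat_lit 0)) T0.l4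
  (TrL.c (I.pos (nat_lit 0) (nat_lit 89480386)) T2.l5
  (TrL.c (I.pos (nat_lit 0) (nat_lit 41530880)) T0.l5
  (TrL.c (I.pos (nat_lit 0) (nat_lit 0)) T0.l7
  (TrL.c (I.pos (nat_lit 0) (nat_lit 0)) T2.l6
  (TrL.c (I.mix (nat_lit 41527258) (nat_lit 41530880)) T0.l6
  (TrL.c (I.mix (nat_lit 41527258) (nat_lit 4274)) T2.l7
  TrL.n)))))))) (by decide +kernel)
theorem bx1_6 : BoxOK sI cl6 cl13 cl6 t2 t0 b1_6 :=
  box_mk (TrL.c (I.pos (nat_lit 0) (nat_lit 0)) (xa T2.l0 T2.l0)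
  (TrL.c (I.pos (nat_lit 0) (nat_lit 0)) (xa T0.l4 T0.l4)
  (TrL.c (I.pos (nat_lit 0) (nat_lit 89480386)) T2.l5
  (TrL.c (I.pos (nat_lit 0) (nat_lit 41530880)) T0.l5
  (TrL.c (I.pos (nat_lit 0) (nat_lit 0)) (xa T0.l7 T0.l7)
  (TrL.c (I.pos (nat_lit 0) (nat_lit 0)) T2.l6
  (TrL.c (I.mix (nat_lit 41527258) (nat_lit 41530880)) T0.l6
  (TrL.c (I.mix (nat_lit 41527258) (nat_lit 4274)) T2.l7
  TrL.n)))))))) (by decide +kernel)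
theorem bx1_7 : BoxOK sI cl6 cl13 cl6 t2 t0 b1_7 :=
  box_mk (TrL.c (I.pos (nat_lit 0) (nat_lit 0)) T2.l0
  (TrL.c (I.pos (nat_lit 0) (nat_lit 0)) T0.l4
  (TrL.c (I.pos (nat_lit 0) (nat_lit 89480386)) T2.l5
  (TrL.c (I.pos (nat_lit 0) (nat_lit 41530880)) T0.l5
  (TrL.c (I.pos (nat_lit 0) (nat_lit 0)) T0.l7
  (TrL.c (I.pos (nat_lit 0) (nat_lit 0)) T2.l6
  (TrL.c (I.mix (nat_lit 41527258) (nat_lit 41530880)) T0.l6
  (TrL.c (I.mix (nat_lit 41527258) (nat_lit 4274)) T2.l7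
  TrL.n)))))))) (by decide +kernel)
theorem sv1 : StarV sI cl6 cl13 cl6 t2 t0 t1 :=
  (bt_n (bt_n (bt_n (bt_b bx1_0) (bt_b bx1_1)) (bt_n (bt_b bx1_2) (bt_b bx1_3))) (bt_n (bt_n (bt_b bx1_4) (bt_b bx1_5)) (bt_n (bt_b bx1_6) (bt_b bx1_7))))
def S1 : StarD := StarD.mk cl6 cl13 cl6 2 0 t1
theorem bx2_0 : BoxOK sI cl13 cl6 cl6 t1 t1 b2_0 :=
  box_mk (TrL.c (I.pos (nat_lit 0) (nat_lit 0)) (xa (xa T1.l0 T1.l0) (xa (xb T1.l0 T1.l0) (xb T1.l0 T1.l0)))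
  (TrL.c (I.pos (nat_lit 0) (nat_lit 0)) (xa (xb T1.l1 T1.l1) (xk T1.l5 T1.l1))
  (TrL.c (I.pos (nat_lit 0) (nat_lit 134217730)) (xR T1.l2 T1.l6)
  (TrL.c (I.pos (nat_lit 0) (nat_lit 110514882)) T1.l3
  (TrL.c (I.pos (nat_lit 0) (nat_lit 0)) (xa (xb (xa T1.l4 T1.l4) T1.l4) (xb (xa (xk T1.l4 T1.l4) (xk T1.l4 T1.l4)) (xk (xa T1.l4 (xb T1.l4 (xs (xa T1.l4 T1.l4) (xa T1.l4 (xk T1.l4 (xb T1.l4 T1.l4)))))) (xa (xb T1.l4 (xs T1.l4 T1.l4)) (xb (xs T1.l4 T1.l4) (xs (xa T1.l4 (xk T1.l4 T1.l4)) (xa (xk T1.l4 T1.l4) (xk (xb T1.l4 (xs T1.l4 T1.l4)) (xb T1.l4 (xs T1.l4 T1.l4))))))))))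
  (TrL.c (I.pos (nat_lit 0) (nat_lit 0)) (xa T1.l5 T1.l5)
  (TrL.c (I.mix (nat_lit 8088324) (nat_lit 110514882)) (xR T1.l6 T1.l6)
  (TrL.c (I.mix (nat_lit 8088324) (nat_lit 89478486)) T1.l7
  TrL.n)))))))) (by decide +kernel)
theorem bx2_1 : BoxOK sI cl13 cl6 cl6 t1 t1 b2_1 :=
  box_mk (TrL.c (I.pos (nat_lit 0) (nat_lit 0)) T1.l0
  (TrL.c (I.pos (nat_lit 0) (nat_lit 0)) T1.l1
  (TrL.c (I.pos (nat_lit 0) (nat_lit 134217730)) (xR T1.l2 T1.l2)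
  (TrL.c (I.pos (nat_lit 0) (nat_lit 110514882)) T1.l3
  (TrL.c (I.pos (nat_lit 0) (nat_lit 0)) T1.l4
  (TrL.c (I.pos (nat_lit 0) (nat_lit 0)) T1.l5
  (TrL.c (I.mix (nat_lit 8088324) (nat_lit 110514882)) T1.l6
  (TrL.c (I.mix (nat_lit 8088324) (nat_lit 89478486)) T1.l7
  TrL.n)))))))) (by decide +kernel)
theorem bx2_2 : BoxOK sI cl13 cl6 cl6 t1 t1 b2_2 :=
  box_mk (TrL.c (I.pos (nat_lit 0) (nat_lit 0)) T1.l0
  (TrL.c (I.pos (nat_lit 0) (nat_lit 0)) T1.l1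
  (TrL.c (I.pos (nat_lit 0) (nat_lit 134217730)) T1.l2
  (TrL.c (I.pos (nat_lit 0) (nat_lit 110514882)) T1.l3
  (TrL.c (I.pos (nat_lit 0) (nat_lit 0)) T1.l4
  (TrL.c (I.pos (nat_lit 0) (nat_lit 0)) T1.l5
  (TrL.c (I.mix (nat_lit 8088324) (nat_lit 110514882)) T1.l6
  (TrL.c (I.mix (nat_lit 8088324) (nat_lit 89478486)) T1.l2
  TrL.n)))))))) (by decide +kernel)
theorem bx2_3 : BoxOK sI cl13 cl6 cl6 t1 t1 b2_3 :=
  box_mk (TrL.c (I.pos (nat_lit 0) (nat_lit 0)) (xb T1.l0 (xa T1.l0 T1.l0))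
  (TrL.c (I.pos (nat_lit 0) (nat_lit 0)) (xb T1.l1 T1.l1)
  (TrL.c (I.pos (nat_lit 0) (nat_lit 134217730)) (xR T1.l2 T1.l6)
  (TrL.c (I.pos (nat_lit 0) (nat_lit 110514882)) T1.l3
  (TrL.c (I.pos (nat_lit 0) (nat_lit 0)) (xb (xa T1.l4 T1.l4) T1.l4)
  (TrL.c (I.pos (nat_lit 0) (nat_lit 0)) T1.l5
  (TrL.c (I.mix (nat_lit 8088324) (nat_lit 110514882)) T1.l6
  (TrL.c (I.mix (nat_lit 8088324) (nat_lit 89478486)) T1.l7
  TrL.n)))))))) (by decide +kernel)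
theorem bx2_4 : BoxOK sI cl13 cl6 cl6 t1 t1 b2_4 :=
  box_mk (TrL.c (I.pos (nat_lit 0) (nat_lit 0)) (xa T1.l0 T1.l0)
  (TrL.c (I.pos (nat_lit 0) (nat_lit 0)) T1.l1
  (TrL.c (I.pos (nat_lit 0) (nat_lit 134217730)) T1.l2
  (TrL.c (I.pos (nat_lit 0) (nat_lit 110514882)) T1.l3
  (TrL.c (I.pos (nat_lit 0) (nat_lit 0)) T1.l4
  (TrL.c (I.pos (nat_lit 0) (nat_lit 0)) T1.l5
  (TrL.c (I.mix (nat_lit 8088324) (nat_lit 110514882)) T1.l6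
  (TrL.c (I.mix (nat_lit 8088324) (nat_lit 89478486)) T1.l2
  TrL.n)))))))) (by decide +kernel)
theorem bx2_5 : BoxOK sI cl13 cl6 cl6 t1 t1 b2_5 :=
  box_mk (TrL.c (I.pos (nat_lit 0) (nat_lit 0)) (xa T1.l0 T1.l0)
  (TrL.c (I.pos (nat_lit 0) (nat_lit 0)) (xa T1.l1 T1.l1)
  (TrL.c (I.pos (nat_lit 0) (nat_lit 134217730)) T1.l2
  (TrL.c (I.pos (nat_lit 0) (nat_lit 110514882)) T1.l3
  (TrL.c (I.pos (nat_lit 0) (nat_lit 0)) T1.l4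
  (TrL.c (I.pos (nat_lit 0) (nat_lit 0)) T1.l5
  (TrL.c (I.mix (nat_lit 8088324) (nat_lit 110514882)) T1.l6
  (TrL.c (I.mix (nat_lit 8088324) (nat_lit 89478486)) T1.l2
  TrL.n)))))))) (by decide +kernel)
theorem bx2_6 : BoxOK sI cl13 cl6 cl6 t1 t1 b2_6 :=
  box_mk (TrL.c (I.pos (nat_lit 0) (nat_lit 0)) T1.l0
  (TrL.c (I.pos (nat_lit 0) (nat_lit 0)) T1.l1
  (TrL.c (I.pos (nat_lit 0) (nat_lit 134217730)) T1.l2
  (TrL.c (I.pos (nat_lit 0) (nat_lit 110514882)) T1.l3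
  (TrL.c (I.pos (nat_lit 0) (nat_lit 0)) T1.l4
  (TrL.c (I.pos (nat_lit 0) (nat_lit 0)) T1.l5
  (TrL.c (I.mix (nat_lit 8088324) (nat_lit 110514882)) T1.l6
  (TrL.c (I.mix (nat_lit 8088324) (nat_lit 89478486)) T1.l7
  TrL.n)))))))) (by decide +kernel)
theorem bx2_7 : BoxOK sI cl13 cl6 cl6 t1 t1 b2_7 :=
  box_mk (TrL.c (I.pos (nat_lit 0) (nat_lit 0)) T1.l0
  (TrL.c (I.pos (nat_lit 0) (nat_lit 0)) T1.l4
  (TrL.c (I.pos (nat_lit 0) (nat_lit 134217730)) T1.l2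
  (TrL.c (I.pos (nat_lit 0) (nat_lit 110514882)) T1.l3
  (TrL.c (I.pos (nat_lit 0) (nat_lit 0)) T1.l4
  (TrL.c (I.pos (nat_lit 0) (nat_lit 0)) T1.l5
  (TrL.c (I.mix (nat_lit 8088324) (nat_lit 110514882)) T1.l6
  (TrL.c (I.mix (nat_lit 8088324) (nat_lit 89478486)) T1.l2
  TrL.n)))))))) (by decide +kernel)
theorem sv2 : StarV sI cl13 cl6 cl6 t1 t1 t2 :=
  (bt_n (bt_n (bt_n (bt_b bx2_0) (bt_b bx2_1)) (bt_n (bt_b bx2_2) (bt_b bx2_3))) (bt_n (bt_n (bt_b bx2_4) (bt_b bx2_5)) (bt_n (bt_b bx2_6) (bt_b bx2_7))))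
def S2 : StarD := StarD.mk cl13 cl6 cl6 1 1 t2
def G : List StarD := [S0, S1, S2]
theorem so0 : StarOK sI G S0 :=
  star_mk (by decide) (by decide) rfl rfl rfl rfl rfl rfl (rfl : _ = t0) (rfl : _ = t2)
  (st_mk (Pth.l (Pth.l (Pth.l Pth.z))) (nat_lit 188832938) (nat_lit 189419255) (by decide +kernel))
  (st_mk (Pth.l (Pth.l (Pth.l Pth.z))) (nat_lit 224868458) (nat_lit 225701573) (by decide +kernel))
  (st_mk (Pth.l (Pth.l (Pth.l Pth.z))) (nat_lit 266704914) (nat_lit 267882378) (by decide +kernel)) sv0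
theorem so1 : StarOK sI G S1 :=
  star_mk (by decide) (by decide) rfl rfl rfl rfl rfl rfl (rfl : _ = t2) (rfl : _ = t0)
  (st_mk (Pth.l (Pth.l (Pth.l Pth.z))) (nat_lit 96822523) (nat_lit 115405706) (by decide +kernel))
  (st_mk (Pth.l (Pth.l (Pth.l Pth.z))) (nat_lit 132578007) (nat_lit 151424885) (by decide +kernel))
  (st_mk (Pth.l (Pth.l (Pth.l Pth.z))) (nat_lit 174177171) (nat_lit 193382298) (by decide +kernel)) sv1
theorem so2 : StarOK sI G S2 :=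
  star_mk (by decide) (by decide) rfl rfl rfl rfl rfl rfl (rfl : _ = t1) (rfl : _ = t1)
  (st_mk (Pth.l (Pth.l (Pth.l Pth.z))) (nat_lit 185843017) (nat_lit 187137042) (by decide +kernel))
  (st_mk (Pth.l (Pth.l (Pth.l Pth.z))) (nat_lit 220739626) (nat_lit 222344128) (by decide +kernel))
  (st_mk (Pth.l (Pth.l (Pth.l Pth.z))) (nat_lit 261004945) (nat_lit 263034880) (by decide +kernel)) sv2
theorem ok : GroupOK (nat_lit 91226112) (nat_lit 150339584) G := grp_mk (allS_c so0 (allS_c so1 (allS_c so2 allS_n)))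
theorem cov : GCov G cl6 cl6 cl13 := cov_mk
  ⟨0, by decide, rfl, rfl, rfl⟩ ⟨1, by decide, rfl, rfl, rfl⟩ ⟨0, by decide, rfl, rfl, rfl⟩ ⟨1, by decide, rfl, rfl, rfl⟩ ⟨2, by decide, rfl, rfl, rfl⟩ ⟨2, by decide, rfl, rfl, rfl⟩
end Q336_1

namespace Q336_2
def sI : I := I.pos (nat_lit 150274048) (nat_lit 209387520)
def b0_0 : Bx := Bx.mk (St.mk (I.pos (nat_lit 158646272) (nat_lit 230309888)) (I.mix (nat_lit 1802240) (nat_lit 63815680)) (I.mix (nat_lit 2228224) (nat_lit 79675392)) (I.pos (nat_lit 185548800) (nat_lit 293814272)) (I.mix (nat_lit 93863936) (nat_lit 49315840)) (I.mix (nat_lit 54329344) (nat_lit 47038464)) (I.mix (nat_lit 73482240) (nat_lit 63799296)))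
  false (nat_lit 0)
def b0_1 : Bx := Bx.mk (St.mk (I.mix (nat_lit 38141952) (nat_lit 99942400)) (I.mix (nat_lit 10207232) (nat_lit 40108032)) (I.mix (nat_lit 24592384) (nat_lit 7798784)) (I.pos (nat_lit 76480512) (nat_lit 125681664)) (I.mix (nat_lit 33308672) (nat_lit 43368448)) (I.mix (nat_lit 34455552) (nat_lit 22839296)) (I.mix (nat_lit 22544384) (nat_lit 12730368)))
  false (nat_lit 0)
def b0_2 : Bx := Bx.mk (St.mk (I.pos (nat_lit 77774848) (nat_lit 119865344)) (I.mix (nat_lit 51560448) (nat_lit 7815168)) (I.neg (nat_lit 9912320) (nat_lit 54919168)) (I.pos (nat_lit 111165440) (nat_lit 143147008)) (I.mix (nat_lit 69451776) (nat_lit 19546112)) (I.mix (nat_lit 25493504) (nat_lit 52936704)) (I.mix (nat_lit 18038784) (nat_lit 37879808)))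
  false (nat_lit 0)
def b0_3 : Bx := Bx.mk (St.mk (I.mix (nat_lit 49889280) (nat_lit 26787840)) (I.mix (nat_lit 31703040) (nat_lit 8126464)) (I.neg (nat_lit 2588672) (nat_lit 16842752)) (I.pos (nat_lit 83165184) (nat_lit 100286464)) (I.mix (nat_lit 31899648) (nat_lit 17432576)) (I.mix (nat_lit 13795328) (nat_lit 24625152)) (I.mix (nat_lit 9420800) (nat_lit 5603328)))
  false (nat_lit 0)
def b0_4 : Bx := Bx.mk (St.mk (I.pos (nat_lit 199852032) (nat_lit 283803648)) (I.mix (nat_lit 28639232) (nat_lit 41517056)) (I.mix (nat_lit 109920256) (nat_lit 31391744)) (I.pos (nat_lit 259538944) (nat_lit 397131776)) (I.mix (nat_lit 64159744) (nat_lit 46301184)) (I.mix (nat_lit 46186496) (nat_lit 41074688)) (I.mix (nat_lit 83673088) (nat_lit 81641472)))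
  false (nat_lit 0)
def b0_5 : Bx := Bx.mk (St.mk (I.pos (nat_lit 87752704) (nat_lit 159170560)) (I.neg (nat_lit 6651904) (nat_lit 55574528)) (I.neg (nat_lit 12009472) (nat_lit 58212352)) (I.pos (nat_lit 123256832) (nat_lit 185663488)) (I.mix (nat_lit 71958528) (nat_lit 34537472)) (I.mix (nat_lit 31817728) (nat_lit 49758208)) (I.mix (nat_lit 25493504) (nat_lit 44318720)))
  false (nat_lit 0)
def b0_6 : Bx := Bx.mk (St.mk (I.mix (nat_lit 35471360) (nat_lit 46022656)) (I.mix (nat_lit 33112064) (nat_lit 4669440)) (I.neg (nat_lit 3358720) (nat_lit 18776064)) (I.pos (nat_lit 81805312) (nat_lit 101105664)) (I.mix (nat_lit 30441472) (nat_lit 28672000)) (I.mix (nat_lit 20316160) (nat_lit 26148864)) (I.mix (nat_lit 8814592) (nat_lit 10534912)))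
  false (nat_lit 0)
def b0_7 : Bx := Bx.mk (St.mk (I.mix (nat_lit 47480832) (nat_lit 74547200)) (I.mix (nat_lit 8290304) (nat_lit 34013184)) (I.mix (nat_lit 19333120) (nat_lit 5160960)) (I.pos (nat_lit 82952192) (nat_lit 111476736)) (I.mix (nat_lit 40206336) (nat_lit 34455552)) (I.mix (nat_lit 33767424) (nat_lit 26689536)) (I.mix (nat_lit 13615104) (nat_lit 15302656)))
  false (nat_lit 0)
def b0_8 : Bx := Bx.mk (St.mk (I.pos (nat_lit 163135488) (nat_lit 210616320)) (I.mix (nat_lit 589824) (nat_lit 61407232)) (I.pos (nat_lit 4112384) (nat_lit 76496896)) (I.pos (nat_lit 199753728) (nat_lit 261455872)) (I.mix (nat_lit 111411200) (nat_lit 37601280)) (I.mix (nat_lit 99057664) (nat_lit 52756480)) (I.mix (nat_lit 94519296) (nat_lit 50692096)))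
  false (nat_lit 0)
def b0_9 : Bx := Bx.mk (St.mk (I.pos (nat_lit 140869632) (nat_lit 199802880)) (I.mix (nat_lit 36847616) (nat_lit 16416768)) (I.mix (nat_lit 42876928) (nat_lit 19906560)) (I.pos (nat_lit 167804928) (nat_lit 235061248)) (I.mix (nat_lit 47005696) (nat_lit 42106880)) (I.mix (nat_lit 41533440) (nat_lit 35553280)) (I.mix (nat_lit 40009728) (nat_lit 31703040)))
  false (nat_lit 0)
def b0_10 : Bx := Bx.mk (St.mk (I.pos (nat_lit 165675008) (nat_lit 202604544)) (I.mix (nat_lit 6291456) (nat_lit 34783232)) (I.mix (nat_lit 5586944) (nat_lit 45580288)) (I.pos (nat_lit 204128256) (nat_lit 241074176)) (I.mix (nat_lit 90619904) (nat_lit 45219840)) (I.mix (nat_lit 95125504) (nat_lit 40599552)) (I.mix (nat_lit 94289920) (nat_lit 36290560)))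
  false (nat_lit 0)
def b0_11 : Bx := Bx.mk (St.mk (I.pos (nat_lit 184254464) (nat_lit 230883328)) (I.pos (nat_lit 13631488) (nat_lit 62423040)) (I.pos (nat_lit 2654208) (nat_lit 74661888)) (I.pos (nat_lit 247005184) (nat_lit 290979840)) (I.mix (nat_lit 80953344) (nat_lit 57507840)) (I.mix (nat_lit 64372736) (nat_lit 43761664)) (I.mix (nat_lit 99287040) (nat_lit 61128704)))
  false (nat_lit 0)
def t0 : BTr := (BTr.n (BTr.n (BTr.n (BTr.b b0_0) (BTr.n (BTr.b b0_1) (BTr.b b0_2))) (BTr.n (BTr.b b0_3) (BTr.n (BTr.b b0_4) (BTr.b b0_5)))) (BTr.n (BTr.n (BTr.b b0_6) (BTr.n (BTr.b b0_7) (BTr.b b0_8))) (BTr.n (BTr.b b0_9) (BTr.n (BTr.b b0_10) (BTr.b b0_11)))))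
namespace T0
def l0 : Tr := Tr.L (Pth.l (Pth.l (Pth.l Pth.z)))
def l1 : Tr := Tr.L (Pth.l (Pth.l (Pth.r (Pth.l Pth.z))))
def l2 : Tr := Tr.L (Pth.l (Pth.l (Pth.r (Pth.r Pth.z))))
def l3 : Tr := Tr.L (Pth.l (Pth.r (Pth.l Pth.z)))
def l4 : Tr := Tr.L (Pth.l (Pth.r (Pth.r (Pth.l Pth.z))))
def l5 : Tr := Tr.L (Pth.l (Pth.r (Pth.r (Pth.r Pth.z))))
def l6 : Tr := Tr.L (Pth.r (Pth.l (Pth.l Pth.z)))
def l7 : Tr := Tr.L (Pth.r (Pth.l (Pth.r (Pth.l Pth.z))))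
def l8 : Tr := Tr.L (Pth.r (Pth.l (Pth.r (Pth.r Pth.z))))
def l9 : Tr := Tr.L (Pth.r (Pth.r (Pth.l Pth.z)))
def l10 : Tr := Tr.L (Pth.r (Pth.r (Pth.r (Pth.l Pth.z))))
def l11 : Tr := Tr.L (Pth.r (Pth.r (Pth.r (Pth.r Pth.z))))
end T0
def b1_0 : Bx := Bx.mk (St.mk (I.pos (nat_lit 158449664) (nat_lit 238927872)) (I.mix (nat_lit 1409024) (nat_lit 50118656)) (I.mix (nat_lit 2441216) (nat_lit 92979200)) (I.pos (nat_lit 93569024) (nat_lit 222625792)) (I.mix (nat_lit 108003328) (nat_lit 62226432)) (I.mix (nat_lit 79577088) (nat_lit 64356352)) (I.mix (nat_lit 112590848) (nat_lit 83820544)))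
  false (nat_lit 13969793)
def b1_1 : Bx := Bx.mk (St.mk (I.pos (nat_lit 120029184) (nat_lit 185057280)) (I.neg (nat_lit 5226496) (nat_lit 47398912)) (I.neg (nat_lit 655360) (nat_lit 46006272)) (I.pos (nat_lit 71925760) (nat_lit 146554880)) (I.mix (nat_lit 60358656) (nat_lit 29917184)) (I.mix (nat_lit 30474240) (nat_lit 39272448)) (I.mix (nat_lit 27361280) (nat_lit 40632320)))
  false (nat_lit 0)
def b1_2 : Bx := Bx.mk (St.mk (I.mix (nat_lit 9732096) (nat_lit 143605760)) (I.mix (nat_lit 7159808) (nat_lit 24035328)) (I.mix (nat_lit 8421376) (nat_lit 23019520)) (I.mix (nat_lit 3244032) (nat_lit 92209152)) (I.mix (nat_lit 34013184) (nat_lit 27377664)) (I.mix (nat_lit 24952832) (nat_lit 20987904)) (I.mix (nat_lit 21151744) (nat_lit 16809984)))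
  false (nat_lit 0)
def b1_3 : Bx := Bx.mk (St.mk (I.mix (nat_lit 8617984) (nat_lit 116391936)) (I.mix (nat_lit 25100288) (nat_lit 4472832)) (I.mix (nat_lit 17825792) (nat_lit 3784704)) (I.mix (nat_lit 2490368) (nat_lit 66551808)) (I.mix (nat_lit 28459008) (nat_lit 22003712)) (I.mix (nat_lit 16646144) (nat_lit 19677184)) (I.mix (nat_lit 10600448) (nat_lit 13746176)))
  false (nat_lit 0)
def b1_4 : Bx := Bx.mk (St.mk (I.pos (nat_lit 174391296) (nat_lit 214319104)) (I.mix (nat_lit 11698176) (nat_lit 43302912)) (I.pos (nat_lit 4800512) (nat_lit 77365248)) (I.pos (nat_lit 120881152) (nat_lit 189317120)) (I.mix (nat_lit 106971136) (nat_lit 37847040)) (I.mix (nat_lit 101842944) (nat_lit 47562752)) (I.mix (nat_lit 124207104) (nat_lit 50413568)))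
  false (nat_lit 0)
def b1_5 : Bx := Bx.mk (St.mk (I.pos (nat_lit 116047872) (nat_lit 156975104)) (I.mix (nat_lit 43614208) (nat_lit 6275072)) (I.mix (nat_lit 43515904) (nat_lit 6078464)) (I.pos (nat_lit 53772288) (nat_lit 104742912)) (I.mix (nat_lit 70909952) (nat_lit 22642688)) (I.mix (nat_lit 26116096) (nat_lit 61112320)) (I.mix (nat_lit 22380544) (nat_lit 54738944)))
  false (nat_lit 0)
def b1_6 : Bx := Bx.mk (St.mk (I.mix (nat_lit 13811712) (nat_lit 131792896)) (I.mix (nat_lit 12681216) (nat_lit 29048832)) (I.mix (nat_lit 8765440) (nat_lit 25427968)) (I.mix (nat_lit 2883584) (nat_lit 80134144)) (I.mix (nat_lit 46202880) (nat_lit 20955136)) (I.mix (nat_lit 38649856) (nat_lit 21053440)) (I.mix (nat_lit 28082176) (nat_lit 13942784)))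
  false (nat_lit 0)
def b1_7 : Bx := Bx.mk (St.mk (I.mix (nat_lit 11943936) (nat_lit 105938944)) (I.mix (nat_lit 22315008) (nat_lit 1163264)) (I.mix (nat_lit 15712256) (nat_lit 1605632)) (I.mix (nat_lit 2228224) (nat_lit 57622528)) (I.mix (nat_lit 30408704) (nat_lit 13615104)) (I.mix (nat_lit 13156352) (nat_lit 23429120)) (I.mix (nat_lit 7929856) (nat_lit 14336000)))
  false (nat_lit 0)
def b1_8 : Bx := Bx.mk (St.mk (I.pos (nat_lit 195592192) (nat_lit 283443200)) (I.mix (nat_lit 24117248) (nat_lit 36470784)) (I.mix (nat_lit 52461568) (nat_lit 68976640)) (I.pos (nat_lit 174227456) (nat_lit 324567040)) (I.mix (nat_lit 71909376) (nat_lit 41631744)) (I.mix (nat_lit 45957120) (nat_lit 41697280)) (I.mix (nat_lit 76890112) (nat_lit 69615616)))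
  false (nat_lit 0)
def b1_9 : Bx := Bx.mk (St.mk (I.pos (nat_lit 156942336) (nat_lit 211746816)) (I.mix (nat_lit 36077568) (nat_lit 10567680)) (I.mix (nat_lit 33652736) (nat_lit 28786688)) (I.pos (nat_lit 100253696) (nat_lit 180977664)) (I.mix (nat_lit 48463872) (nat_lit 41975808)) (I.mix (nat_lit 39436288) (nat_lit 36929536)) (I.mix (nat_lit 42336256) (nat_lit 40140800)))
  false (nat_lit 0)
def b1_10 : Bx := Bx.mk (St.mk (I.pos (nat_lit 184041472) (nat_lit 238108672)) (I.pos (nat_lit 10387456) (nat_lit 48807936)) (I.pos (nat_lit 23019520) (nat_lit 89800704)) (I.pos (nat_lit 162381824) (nat_lit 218890240)) (I.mix (nat_lit 88702976) (nat_lit 62226432)) (I.mix (nat_lit 76185600) (nat_lit 55558144)) (I.mix (nat_lit 119177216) (nat_lit 69681152)))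
  false (nat_lit 686958)
def b1_11 : Bx := Bx.mk (St.mk (I.pos (nat_lit 176160768) (nat_lit 210288640)) (I.mix (nat_lit 16023552) (nat_lit 22151168)) (I.mix (nat_lit 786432) (nat_lit 47431680)) (I.pos (nat_lit 122208256) (nat_lit 177078272)) (I.mix (nat_lit 77135872) (nat_lit 41172992)) (I.mix (nat_lit 79036416) (nat_lit 34111488)) (I.mix (nat_lit 93683712) (nat_lit 36847616)))
  false (nat_lit 0)
def t1 : BTr := (BTr.n (BTr.n (BTr.n (BTr.b b1_0) (BTr.n (BTr.b b1_1) (BTr.b b1_2))) (BTr.n (BTr.b b1_3) (BTr.n (BTr.b b1_4) (BTr.b b1_5)))) (BTr.n (BTr.n (BTr.b b1_6) (BTr.n (BTr.b b1_7) (BTr.b b1_8))) (BTr.n (BTr.b b1_9) (BTr.n (BTr.b b1_10) (BTr.b b1_11)))))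
namespace T1
def l0 : Tr := Tr.L (Pth.l (Pth.l (Pth.l Pth.z)))
def l1 : Tr := Tr.L (Pth.l (Pth.l (Pth.r (Pth.l Pth.z))))
def l2 : Tr := Tr.L (Pth.l (Pth.l (Pth.r (Pth.r Pth.z))))
def l3 : Tr := Tr.L (Pth.l (Pth.r (Pth.l Pth.z)))
def l4 : Tr := Tr.L (Pth.l (Pth.r (Pth.r (Pth.l Pth.z))))
def l5 : Tr := Tr.L (Pth.l (Pth.r (Pth.r (Pth.r Pth.z))))
def l6 : Tr := Tr.L (Pth.r (Pth.l (Pth.l Pth.z)))
def l7 : Tr := Tr.L (Pth.r (Pth.l (Pth.r (Pth.l Pth.z))))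
def l8 : Tr := Tr.L (Pth.r (Pth.l (Pth.r (Pth.r Pth.z))))
def l9 : Tr := Tr.L (Pth.r (Pth.r (Pth.l Pth.z)))
def l10 : Tr := Tr.L (Pth.r (Pth.r (Pth.r (Pth.l Pth.z))))
def l11 : Tr := Tr.L (Pth.r (Pth.r (Pth.r (Pth.r Pth.z))))
end T1
def b2_0 : Bx := Bx.mk (St.mk (I.pos (nat_lit 147111936) (nat_lit 228392960)) (I.mix (nat_lit 1687552) (nat_lit 57786368)) (I.mix (nat_lit 2932736) (nat_lit 104333312)) (I.pos (nat_lit 182714368) (nat_lit 278806528)) (I.mix (nat_lit 115376128) (nat_lit 66977792)) (I.mix (nat_lit 79757312) (nat_lit 67207168)) (I.mix (nat_lit 110362624) (nat_lit 82591744)))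
  false (nat_lit 60758332)
def b2_1 : Bx := Bx.mk (St.mk (I.pos (nat_lit 95354880) (nat_lit 167608320)) (I.neg (nat_lit 10240000) (nat_lit 59408384)) (I.mix (nat_lit 42876928) (nat_lit 11223040)) (I.pos (nat_lit 131579904) (nat_lit 192888832)) (I.mix (nat_lit 57933824) (nat_lit 33898496)) (I.mix (nat_lit 25247744) (nat_lit 39763968)) (I.mix (nat_lit 21118976) (nat_lit 34717696)))
  false (nat_lit 0)
def b2_2 : Bx := Bx.mk (St.mk (I.mix (nat_lit 28213248) (nat_lit 48644096)) (I.mix (nat_lit 32358400) (nat_lit 5308416)) (I.mix (nat_lit 4456448) (nat_lit 9371648)) (I.pos (nat_lit 83623936) (nat_lit 100057088)) (I.mix (nat_lit 20529152) (nat_lit 28852224)) (I.mix (nat_lit 14254080) (nat_lit 22609920)) (I.mix (nat_lit 5554176) (nat_lit 8437760)))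
  false (nat_lit 0)
def b2_3 : Bx := Bx.mk (St.mk (I.pos (nat_lit 158924800) (nat_lit 202850304)) (I.mix (nat_lit 1638400) (nat_lit 55623680)) (I.pos (nat_lit 27017216) (nat_lit 97533952)) (I.pos (nat_lit 187023360) (nat_lit 242270208)) (I.mix (nat_lit 111230976) (nat_lit 29114368)) (I.mix (nat_lit 92340224) (nat_lit 46415872)) (I.mix (nat_lit 93896704) (nat_lit 39206912)))
  false (nat_lit 17989517)
def b2_4 : Bx := Bx.mk (St.mk (I.mix (nat_lit 51200000) (nat_lit 72597504)) (I.mix (nat_lit 10452992) (nat_lit 38633472)) (I.mix (nat_lit 5275648) (nat_lit 19562496)) (I.pos (nat_lit 82280448) (nat_lit 108871680)) (I.mix (nat_lit 40452096) (nat_lit 26198016)) (I.mix (nat_lit 31490048) (nat_lit 20283392)) (I.mix (nat_lit 11649024) (nat_lit 11829248)))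
  false (nat_lit 0)
def b2_5 : Bx := Bx.mk (St.mk (I.pos (nat_lit 138510336) (nat_lit 192888832)) (I.mix (nat_lit 35799040) (nat_lit 8912896)) (I.mix (nat_lit 16695296) (nat_lit 39993344)) (I.pos (nat_lit 165462016) (nat_lit 221921280)) (I.mix (nat_lit 41418752) (nat_lit 43597824)) (I.mix (nat_lit 38600704) (nat_lit 36175872)) (I.mix (nat_lit 35848192) (nat_lit 34275328)))
  false (nat_lit 0)
def b2_6 : Bx := Bx.mk (St.mk (I.mix (nat_lit 36913152) (nat_lit 96272384)) (I.mix (nat_lit 4784128) (nat_lit 36814848)) (I.mix (nat_lit 4964352) (nat_lit 24117248)) (I.pos (nat_lit 76595200) (nat_lit 123617280)) (I.mix (nat_lit 41107456) (nat_lit 41943040)) (I.mix (nat_lit 36438016) (nat_lit 30048256)) (I.mix (nat_lit 23838720) (nat_lit 19431424)))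
  false (nat_lit 0)
def b2_7 : Bx := Bx.mk (St.mk (I.pos (nat_lit 81379328) (nat_lit 125911040)) (I.mix (nat_lit 58949632) (nat_lit 5439488)) (I.mix (nat_lit 42434560) (nat_lit 3981312)) (I.pos (nat_lit 115310592) (nat_lit 150716416)) (I.mix (nat_lit 69353472) (nat_lit 22167552)) (I.mix (nat_lit 29573120) (nat_lit 56721408)) (I.mix (nat_lit 21905408) (nat_lit 36290560)))
  false (nat_lit 0)
def b2_8 : Bx := Bx.mk (St.mk (I.mix (nat_lit 45826048) (nat_lit 33030144)) (I.mix (nat_lit 32407552) (nat_lit 3997696)) (I.mix (nat_lit 3080192) (nat_lit 10551296)) (I.pos (nat_lit 82870272) (nat_lit 100630528)) (I.mix (nat_lit 29638656) (nat_lit 24805376)) (I.mix (nat_lit 19021824) (nat_lit 24117248)) (I.mix (nat_lit 9568256) (nat_lit 7241728)))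
  false (nat_lit 0)
def b2_9 : Bx := Bx.mk (St.mk (I.pos (nat_lit 180256768) (nat_lit 282034176)) (I.mix (nat_lit 15007744) (nat_lit 44613632)) (I.mix (nat_lit 31244288) (nat_lit 83673088)) (I.pos (nat_lit 234373120) (nat_lit 384024576)) (I.mix (nat_lit 82919424) (nat_lit 51986432)) (I.mix (nat_lit 58245120) (nat_lit 34996224)) (I.mix (nat_lit 82444288) (nat_lit 53018624)))
  false (nat_lit 45932311)
def b2_10 : Bx := Bx.mk (St.mk (I.pos (nat_lit 172195840) (nat_lit 225132544)) (I.pos (nat_lit 19349504) (nat_lit 57507840)) (I.pos (nat_lit 43270144) (nat_lit 105103360)) (I.pos (nat_lit 225017856) (nat_lit 269385728)) (I.mix (nat_lit 99680256) (nat_lit 69976064)) (I.mix (nat_lit 86441984) (nat_lit 57933824)) (I.mix (nat_lit 122650624) (nat_lit 64110592)))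
  false (nat_lit 41691137)
def b2_11 : Bx := Bx.mk (St.mk (I.pos (nat_lit 158580736) (nat_lit 195952640)) (I.mix (nat_lit 9256960) (nat_lit 32555008)) (I.pos (nat_lit 17711104) (nat_lit 71499776)) (I.pos (nat_lit 186335232) (nat_lit 227688448)) (I.mix (nat_lit 101269504) (nat_lit 38617088)) (I.mix (nat_lit 97861632) (nat_lit 38027264)) (I.mix (nat_lit 100040704) (nat_lit 35651584)))
  false (nat_lit 0)
def t2 : BTr := (BTr.n (BTr.n (BTr.n (BTr.b b2_0) (BTr.n (BTr.b b2_1) (BTr.b b2_2))) (BTr.n (BTr.b b2_3) (BTr.n (BTr.b b2_4) (BTr.b b2_5)))) (BTr.n (BTr.n (BTr.b b2_6) (BTr.n (BTr.b b2_7) (BTr.b b2_8))) (BTr.n (BTr.b b2_9) (BTr.n (BTr.b b2_10) (BTr.b b2_11)))))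
namespace T2
def l0 : Tr := Tr.L (Pth.l (Pth.l (Pth.l Pth.z)))
def l1 : Tr := Tr.L (Pth.l (Pth.l (Pth.r (Pth.l Pth.z))))
def l2 : Tr := Tr.L (Pth.l (Pth.l (Pth.r (Pth.r Pth.z))))
def l3 : Tr := Tr.L (Pth.l (Pth.r (Pth.l Pth.z)))
def l4 : Tr := Tr.L (Pth.l (Pth.r (Pth.r (Pth.l Pth.z))))
def l5 : Tr := Tr.L (Pth.l (Pth.r (Pth.r (Pth.r Pth.z))))
def l6 : Tr := Tr.L (Pth.r (Pth.l (Pth.l Pth.z)))
def l7 : Tr := Tr.L (Pth.r (Pth.l (Pth.r (Pth.l Pth.z))))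
def l8 : Tr := Tr.L (Pth.r (Pth.l (Pth.r (Pth.r Pth.z))))
def l9 : Tr := Tr.L (Pth.r (Pth.r (Pth.l Pth.z)))
def l10 : Tr := Tr.L (Pth.r (Pth.r (Pth.r (Pth.l Pth.z))))
def l11 : Tr := Tr.L (Pth.r (Pth.r (Pth.r (Pth.r Pth.z))))
end T2
theorem bx0_0 : BoxOK sI cl6 cl6 cl13 t0 t2 b0_0 :=
  box_mk (TrL.c (I.pos (nat_lit 0) (nat_lit 0)) (xa (xb T0.l0 (xa T0.l0 T0.l0)) (xb T0.l0 T0.l0))
  (TrL.c (I.pos (nat_lit 0) (nat_lit 0)) (xa T2.l1 T2.l1)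
  (TrL.c (I.pos (nat_lit 0) (nat_lit 89480386)) T0.l1
  (TrL.c (I.pos (nat_lit 0) (nat_lit 41530880)) T2.l2
  (TrL.c (I.pos (nat_lit 0) (nat_lit 0)) (xa T2.l11 T2.l3)
  (TrL.c (I.pos (nat_lit 0) (nat_lit 0)) T0.l2
  (TrL.c (I.mix (nat_lit 41527258) (nat_lit 41530880)) T2.l4
  (TrL.c (I.mix (nat_lit 41527258) (nat_lit 4274)) T0.l3
  TrL.n)))))))) (by decide +kernel)
theorem bx0_1 : BoxOK sI cl6 cl6 cl13 t0 t2 b0_1 :=
  box_mk (TrL.c (I.pos (nat_lit 0) (nat_lit 0)) (xa (xa (xb T0.l4 T0.l4) (xb T0.l4 T0.l4)) (xa T0.l4 T0.l4))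
  (TrL.c (I.pos (nat_lit 0) (nat_lit 0)) (xa T2.l1 T2.l1)
  (TrL.c (I.pos (nat_lit 0) (nat_lit 89480386)) T0.l1
  (TrL.c (I.pos (nat_lit 0) (nat_lit 41530880)) T2.l2
  (TrL.c (I.pos (nat_lit 0) (nat_lit 0)) (xa T2.l5 T2.l5)
  (TrL.c (I.pos (nat_lit 0) (nat_lit 0)) T0.l2
  (TrL.c (I.mix (nat_lit 41527258) (nat_lit 41530880)) T2.l4
  (TrL.c (I.mix (nat_lit 41527258) (nat_lit 4274)) T0.l3
  TrL.n)))))))) (by decide +kernel)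
theorem bx0_2 : BoxOK sI cl6 cl6 cl13 t0 t2 b0_2 :=
  box_mk (TrL.c (I.pos (nat_lit 0) (nat_lit 0)) T0.l4
  (TrL.c (I.pos (nat_lit 0) (nat_lit 0)) T2.l1
  (TrL.c (I.pos (nat_lit 0) (nat_lit 89480386)) T0.l1
  (TrL.c (I.pos (nat_lit 0) (nat_lit 41530880)) T2.l2
  (TrL.c (I.pos (nat_lit 0) (nat_lit 0)) T2.l5
  (TrL.c (I.pos (nat_lit 0) (nat_lit 0)) T0.l2
  (TrL.c (I.mix (nat_lit 41527258) (nat_lit 41530880)) T2.l4
  (TrL.c (I.mix (nat_lit 41527258) (nat_lit 4274)) T0.l3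
  TrL.n)))))))) (by decide +kernel)
theorem bx0_3 : BoxOK sI cl6 cl6 cl13 t0 t2 b0_3 :=
  box_mk (TrL.c (I.pos (nat_lit 0) (nat_lit 0)) (xa (xb T0.l4 T0.l4) T0.l4)
  (TrL.c (I.pos (nat_lit 0) (nat_lit 0)) T2.l5
  (TrL.c (I.pos (nat_lit 0) (nat_lit 89480386)) T0.l1
  (TrL.c (I.pos (nat_lit 0) (nat_lit 41530880)) T2.l4
  (TrL.c (I.pos (nat_lit 0) (nat_lit 0)) T2.l1
  (TrL.c (I.pos (nat_lit 0) (nat_lit 0)) T0.l1
  (TrL.c (I.mix (nat_lit 41527258) (nat_lit 41530880)) T2.l4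
  (TrL.c (I.mix (nat_lit 41527258) (nat_lit 4274)) T0.l3
  TrL.n)))))))) (by decide +kernel)
theorem bx0_4 : BoxOK sI cl6 cl6 cl13 t0 t2 b0_4 :=
  box_mk (TrL.c (I.pos (nat_lit 0) (nat_lit 0)) (xa (xb T0.l0 (xa T0.l0 T0.l0)) (xb T0.l0 (xa T0.l0 T0.l0)))
  (TrL.c (I.pos (nat_lit 0) (nat_lit 0)) (xa T2.l1 T2.l7)
  (TrL.c (I.pos (nat_lit 0) (nat_lit 89480386)) T0.l1
  (TrL.c (I.pos (nat_lit 0) (nat_lit 41530880)) T2.l2
  (TrL.c (I.pos (nat_lit 0) (nat_lit 0)) (xb (xa T2.l0 T2.l0) (xa T2.l3 (xa T2.l3 T2.l3)))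
  (TrL.c (I.pos (nat_lit 0) (nat_lit 0)) (xb T0.l2 T0.l2)
  (TrL.c (I.mix (nat_lit 41527258) (nat_lit 41530880)) T2.l4
  (TrL.c (I.mix (nat_lit 41527258) (nat_lit 4274)) T0.l3
  TrL.n)))))))) (by decide +kernel)
theorem bx0_5 : BoxOK sI cl6 cl6 cl13 t0 t2 b0_5 :=
  box_mk (TrL.c (I.pos (nat_lit 0) (nat_lit 0)) (xa T0.l4 T0.l4)
  (TrL.c (I.pos (nat_lit 0) (nat_lit 0)) T2.l1
  (TrL.c (I.pos (nat_lit 0) (nat_lit 89480386)) T0.l1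
  (TrL.c (I.pos (nat_lit 0) (nat_lit 41530880)) T2.l2
  (TrL.c (I.pos (nat_lit 0) (nat_lit 0)) T2.l5
  (TrL.c (I.pos (nat_lit 0) (nat_lit 0)) T0.l2
  (TrL.c (I.mix (nat_lit 41527258) (nat_lit 41530880)) T2.l4
  (TrL.c (I.mix (nat_lit 41527258) (nat_lit 4274)) T0.l3
  TrL.n)))))))) (by decide +kernel)
theorem bx0_6 : BoxOK sI cl6 cl6 cl13 t0 t2 b0_6 :=
  box_mk (TrL.c (I.pos (nat_lit 0) (nat_lit 0)) (xa T0.l4 T0.l4)
  (TrL.c (I.pos (nat_lit 0) (nat_lit 0)) T2.l5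
  (TrL.c (I.pos (nat_lit 0) (nat_lit 89480386)) T0.l1
  (TrL.c (I.pos (nat_lit 0) (nat_lit 41530880)) T2.l4
  (TrL.c (I.pos (nat_lit 0) (nat_lit 0)) T2.l5
  (TrL.c (I.pos (nat_lit 0) (nat_lit 0)) T0.l1
  (TrL.c (I.mix (nat_lit 41527258) (nat_lit 41530880)) T2.l4
  (TrL.c (I.mix (nat_lit 41527258) (nat_lit 4274)) T0.l3
  TrL.n)))))))) (by decide +kernel)
theorem bx0_7 : BoxOK sI cl6 cl6 cl13 t0 t2 b0_7 :=
  box_mk (TrL.c (I.pos (nat_lit 0) (nat_lit 0)) (xa (xa (xb T0.l4 T0.l4) T0.l4) (xa T0.l4 T0.l4))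
  (TrL.c (I.pos (nat_lit 0) (nat_lit 0)) T2.l1
  (TrL.c (I.pos (nat_lit 0) (nat_lit 89480386)) T0.l1
  (TrL.c (I.pos (nat_lit 0) (nat_lit 41530880)) T2.l2
  (TrL.c (I.pos (nat_lit 0) (nat_lit 0)) T2.l5
  (TrL.c (I.pos (nat_lit 0) (nat_lit 0)) T0.l2
  (TrL.c (I.mix (nat_lit 41527258) (nat_lit 41530880)) T2.l4
  (TrL.c (I.mix (nat_lit 41527258) (nat_lit 4274)) T0.l3
  TrL.n)))))))) (by decide +kernel)
theorem bx0_8 : BoxOK sI cl6 cl6 cl13 t0 t2 b0_8 :=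
  box_mk (TrL.c (I.pos (nat_lit 0) (nat_lit 0)) (xb T0.l11 (xa T0.l11 T0.l11))
  (TrL.c (I.pos (nat_lit 0) (nat_lit 0)) T2.l1
  (TrL.c (I.pos (nat_lit 0) (nat_lit 89480386)) T0.l1
  (TrL.c (I.pos (nat_lit 0) (nat_lit 41530880)) T2.l2
  (TrL.c (I.pos (nat_lit 0) (nat_lit 0)) T2.l11
  (TrL.c (I.pos (nat_lit 0) (nat_lit 0)) T0.l2
  (TrL.c (I.mix (nat_lit 41527258) (nat_lit 41530880)) T2.l4
  (TrL.c (I.mix (nat_lit 41527258) (nat_lit 4274)) T0.l3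
  TrL.n)))))))) (by decide +kernel)
theorem bx0_9 : BoxOK sI cl6 cl6 cl13 t0 t2 b0_9 :=
  box_mk (TrL.c (I.pos (nat_lit 0) (nat_lit 0)) (xa T0.l11 T0.l0)
  (TrL.c (I.pos (nat_lit 0) (nat_lit 0)) T2.l1
  (TrL.c (I.pos (nat_lit 0) (nat_lit 89480386)) T0.l1
  (TrL.c (I.pos (nat_lit 0) (nat_lit 41530880)) T2.l2
  (TrL.c (I.pos (nat_lit 0) (nat_lit 0)) T2.l11
  (TrL.c (I.pos (nat_lit 0) (nat_lit 0)) T0.l2
  (TrL.c (I.mix (nat_lit 41527258) (nat_lit 41530880)) T2.l4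
  (TrL.c (I.mix (nat_lit 41527258) (nat_lit 4274)) T0.l3
  TrL.n)))))))) (by decide +kernel)
theorem bx0_10 : BoxOK sI cl6 cl6 cl13 t0 t2 b0_10 :=
  box_mk (TrL.c (I.pos (nat_lit 0) (nat_lit 0)) T0.l11
  (TrL.c (I.pos (nat_lit 0) (nat_lit 0)) T2.l1
  (TrL.c (I.pos (nat_lit 0) (nat_lit 89480386)) T0.l1
  (TrL.c (I.pos (nat_lit 0) (nat_lit 41530880)) T2.l2
  (TrL.c (I.pos (nat_lit 0) (nat_lit 0)) T2.l11
  (TrL.c (I.pos (nat_lit 0) (nat_lit 0)) T0.l2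
  (TrL.c (I.mix (nat_lit 41527258) (nat_lit 41530880)) T2.l4
  (TrL.c (I.mix (nat_lit 41527258) (nat_lit 4274)) T0.l3
  TrL.n)))))))) (by decide +kernel)
theorem bx0_11 : BoxOK sI cl6 cl6 cl13 t0 t2 b0_11 :=
  box_mk (TrL.c (I.pos (nat_lit 0) (nat_lit 0)) (xa T0.l0 T0.l0)
  (TrL.c (I.pos (nat_lit 0) (nat_lit 0)) T2.l1
  (TrL.c (I.pos (nat_lit 0) (nat_lit 89480386)) T0.l1
  (TrL.c (I.pos (nat_lit 0) (nat_lit 41530880)) T2.l2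
  (TrL.c (I.pos (nat_lit 0) (nat_lit 0)) T2.l3
  (TrL.c (I.pos (nat_lit 0) (nat_lit 0)) T0.l2
  (TrL.c (I.mix (nat_lit 41527258) (nat_lit 41530880)) T2.l4
  (TrL.c (I.mix (nat_lit 41527258) (nat_lit 4274)) T0.l6
  TrL.n)))))))) (by decide +kernel)
theorem sv0 : StarV sI cl6 cl6 cl13 t0 t2 t0 :=
  (bt_n (bt_n (bt_n (bt_b bx0_0) (bt_n (bt_b bx0_1) (bt_b bx0_2))) (bt_n (bt_b bx0_3) (bt_n (bt_b bx0_4) (bt_b bx0_5)))) (bt_n (bt_n (bt_b bx0_6) (bt_n (bt_b bx0_7) (bt_b bx0_8))) (bt_n (bt_b bx0_9) (bt_n (bt_b bx0_10) (bt_b bx0_11)))))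
def S0 : StarD := StarD.mk cl6 cl6 cl13 0 2 t0
theorem bx1_0 : BoxOK sI cl6 cl13 cl6 t2 t0 b1_0 :=
  box_mk (TrL.c (I.pos (nat_lit 0) (nat_lit 0)) (xa (xb T2.l0 (xa T2.l0 T2.l0)) (xa T2.l0 T2.l0))
  (TrL.c (I.pos (nat_lit 0) (nat_lit 0)) (xa T0.l5 T0.l5)
  (TrL.c (I.pos (nat_lit 0) (nat_lit 89480386)) T2.l6
  (TrL.c (I.pos (nat_lit 0) (nat_lit 41530880)) T0.l6
  (TrL.c (I.pos (nat_lit 0) (nat_lit 0)) (xa T0.l8 (xb T0.l8 T0.l8))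
  (TrL.c (I.pos (nat_lit 0) (nat_lit 0)) T2.l7
  (TrL.c (I.mix (nat_lit 41527258) (nat_lit 41530880)) T0.l7
  (TrL.c (I.mix (nat_lit 41527258) (nat_lit 4274)) T2.l8
  TrL.n)))))))) (by decide +kernel)
theorem bx1_1 : BoxOK sI cl6 cl13 cl6 t2 t0 b1_1 :=
  box_mk (TrL.c (I.pos (nat_lit 0) (nat_lit 0)) T2.l9
  (TrL.c (I.pos (nat_lit 0) (nat_lit 0)) T0.l5
  (TrL.c (I.pos (nat_lit 0) (nat_lit 89480386)) T2.l6
  (TrL.c (I.pos (nat_lit 0) (nat_lit 41530880)) T0.l6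
  (TrL.c (I.pos (nat_lit 0) (nat_lit 0)) T0.l9
  (TrL.c (I.pos (nat_lit 0) (nat_lit 0)) T2.l7
  (TrL.c (I.mix (nat_lit 41527258) (nat_lit 41530880)) T0.l7
  (TrL.c (I.mix (nat_lit 41527258) (nat_lit 4274)) T2.l8
  TrL.n)))))))) (by decide +kernel)
theorem bx1_2 : BoxOK sI cl6 cl13 cl6 t2 t0 b1_2 :=
  box_mk (TrL.c (I.pos (nat_lit 0) (nat_lit 0)) (xa (xa T2.l9 T2.l9) (xa T2.l9 T2.l9))
  (TrL.c (I.pos (nat_lit 0) (nat_lit 0)) (xa T0.l5 T0.l5)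
  (TrL.c (I.pos (nat_lit 0) (nat_lit 89480386)) T2.l6
  (TrL.c (I.pos (nat_lit 0) (nat_lit 41530880)) T0.l6
  (TrL.c (I.pos (nat_lit 0) (nat_lit 0)) (xa T0.l9 T0.l9)
  (TrL.c (I.pos (nat_lit 0) (nat_lit 0)) T2.l7
  (TrL.c (I.mix (nat_lit 41527258) (nat_lit 41530880)) T0.l7
  (TrL.c (I.mix (nat_lit 41527258) (nat_lit 4274)) T2.l8
  TrL.n)))))))) (by decide +kernel)
theorem bx1_3 : BoxOK sI cl6 cl13 cl6 t2 t0 b1_3 :=
  box_mk (TrL.c (I.pos (nat_lit 0) (nat_lit 0)) (xa (xa T2.l9 T2.l9) T2.l9)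
  (TrL.c (I.pos (nat_lit 0) (nat_lit 0)) (xa T0.l5 T0.l5)
  (TrL.c (I.pos (nat_lit 0) (nat_lit 89480386)) T2.l6
  (TrL.c (I.pos (nat_lit 0) (nat_lit 41530880)) T0.l6
  (TrL.c (I.pos (nat_lit 0) (nat_lit 0)) (xa T0.l9 T0.l9)
  (TrL.c (I.pos (nat_lit 0) (nat_lit 0)) T2.l7
  (TrL.c (I.mix (nat_lit 41527258) (nat_lit 41530880)) T0.l7
  (TrL.c (I.mix (nat_lit 41527258) (nat_lit 4274)) T2.l8
  TrL.n)))))))) (by decide +kernel)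
theorem bx1_4 : BoxOK sI cl6 cl13 cl6 t2 t0 b1_4 :=
  box_mk (TrL.c (I.pos (nat_lit 0) (nat_lit 0)) (xb T2.l10 T2.l10)
  (TrL.c (I.pos (nat_lit 0) (nat_lit 0)) T0.l5
  (TrL.c (I.pos (nat_lit 0) (nat_lit 89480386)) T2.l6
  (TrL.c (I.pos (nat_lit 0) (nat_lit 41530880)) T0.l6
  (TrL.c (I.pos (nat_lit 0) (nat_lit 0)) T0.l10
  (TrL.c (I.pos (nat_lit 0) (nat_lit 0)) T2.l7
  (TrL.c (I.mix (nat_lit 41527258) (nat_lit 41530880)) T0.l7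
  (TrL.c (I.mix (nat_lit 41527258) (nat_lit 4274)) T2.l8
  TrL.n)))))))) (by decide +kernel)
theorem bx1_5 : BoxOK sI cl6 cl13 cl6 t2 t0 b1_5 :=
  box_mk (TrL.c (I.pos (nat_lit 0) (nat_lit 0)) T2.l9
  (TrL.c (I.pos (nat_lit 0) (nat_lit 0)) T0.l5
  (TrL.c (I.pos (nat_lit 0) (nat_lit 89480386)) T2.l6
  (TrL.c (I.pos (nat_lit 0) (nat_lit 41530880)) T0.l6
  (TrL.c (I.pos (nat_lit 0) (nat_lit 0)) T0.l9
  (TrL.c (I.pos (nat_lit 0) (nat_lit 0)) T2.l7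
  (TrL.c (I.mix (nat_lit 41527258) (nat_lit 41530880)) T0.l7
  (TrL.c (I.mix (nat_lit 41527258) (nat_lit 4274)) T2.l8
  TrL.n)))))))) (by decide +kernel)
theorem bx1_6 : BoxOK sI cl6 cl13 cl6 t2 t0 b1_6 :=
  box_mk (TrL.c (I.pos (nat_lit 0) (nat_lit 0)) (xa (xa (xb T2.l9 T2.l9) T2.l9) (xa T2.l9 T2.l9))
  (TrL.c (I.pos (nat_lit 0) (nat_lit 0)) (xa T0.l5 T0.l5)
  (TrL.c (I.pos (nat_lit 0) (nat_lit 89480386)) T2.l6
  (TrL.c (I.pos (nat_lit 0) (nat_lit 41530880)) T0.l6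
  (TrL.c (I.pos (nat_lit 0) (nat_lit 0)) (xa T0.l9 T0.l9)
  (TrL.c (I.pos (nat_lit 0) (nat_lit 0)) T2.l7
  (TrL.c (I.mix (nat_lit 41527258) (nat_lit 41530880)) T0.l7
  (TrL.c (I.mix (nat_lit 41527258) (nat_lit 4274)) T2.l8
  TrL.n)))))))) (by decide +kernel)
theorem bx1_7 : BoxOK sI cl6 cl13 cl6 t2 t0 b1_7 :=
  box_mk (TrL.c (I.pos (nat_lit 0) (nat_lit 0)) (xa T2.l9 T2.l9)
  (TrL.c (I.pos (nat_lit 0) (nat_lit 0)) T0.l5
  (TrL.c (I.pos (nat_lit 0) (nat_lit 89480386)) T2.l6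
  (TrL.c (I.pos (nat_lit 0) (nat_lit 41530880)) T0.l6
  (TrL.c (I.pos (nat_lit 0) (nat_lit 0)) (xa T0.l9 T0.l9)
  (TrL.c (I.pos (nat_lit 0) (nat_lit 0)) T2.l7
  (TrL.c (I.mix (nat_lit 41527258) (nat_lit 41530880)) T0.l7
  (TrL.c (I.mix (nat_lit 41527258) (nat_lit 4274)) T2.l8
  TrL.n)))))))) (by decide +kernel)
theorem bx1_8 : BoxOK sI cl6 cl13 cl6 t2 t0 b1_8 :=
  box_mk (TrL.c (I.pos (nat_lit 0) (nat_lit 0)) (xa (xb T2.l0 T2.l0) (xb T2.l0 (xa T2.l0 T2.l0)))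
  (TrL.c (I.pos (nat_lit 0) (nat_lit 0)) (xa T0.l5 (xb T0.l2 T0.l5))
  (TrL.c (I.pos (nat_lit 0) (nat_lit 89480386)) (xR T2.l6 T2.l6)
  (TrL.c (I.pos (nat_lit 0) (nat_lit 41530880)) T0.l6
  (TrL.c (I.pos (nat_lit 0) (nat_lit 0)) (xa (xb T0.l8 T0.l8) (xb (xa T0.l8 T0.l8) (xa T0.l8 T0.l8)))
  (TrL.c (I.pos (nat_lit 0) (nat_lit 0)) (xa T2.l7 T2.l7)
  (TrL.c (I.mix (nat_lit 41527258) (nat_lit 41530880)) (xR T0.l1 T0.l1)
  (TrL.c (I.mix (nat_lit 41527258) (nat_lit 4274)) T2.l8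
  TrL.n)))))))) (by decide +kernel)
theorem bx1_9 : BoxOK sI cl6 cl13 cl6 t2 t0 b1_9 :=
  box_mk (TrL.c (I.pos (nat_lit 0) (nat_lit 0)) (xa T2.l0 T2.l0)
  (TrL.c (I.pos (nat_lit 0) (nat_lit 0)) T0.l5
  (TrL.c (I.pos (nat_lit 0) (nat_lit 89480386)) T2.l6
  (TrL.c (I.pos (nat_lit 0) (nat_lit 41530880)) T0.l6
  (TrL.c (I.pos (nat_lit 0) (nat_lit 0)) (xb T0.l10 T0.l10)
  (TrL.c (I.pos (nat_lit 0) (nat_lit 0)) T2.l7
  (TrL.c (I.mix (nat_lit 41527258) (nat_lit 41530880)) T0.l7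
  (TrL.c (I.mix (nat_lit 41527258) (nat_lit 4274)) T2.l8
  TrL.n)))))))) (by decide +kernel)
theorem bx1_10 : BoxOK sI cl6 cl13 cl6 t2 t0 b1_10 :=
  box_mk (TrL.c (I.pos (nat_lit 0) (nat_lit 0)) (xa T2.l0 T2.l0)
  (TrL.c (I.pos (nat_lit 0) (nat_lit 0)) T0.l5
  (TrL.c (I.pos (nat_lit 0) (nat_lit 89480386)) T2.l6
  (TrL.c (I.pos (nat_lit 0) (nat_lit 41530880)) T0.l6
  (TrL.c (I.pos (nat_lit 0) (nat_lit 0)) (xa T0.l8 T0.l8)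
  (TrL.c (I.pos (nat_lit 0) (nat_lit 0)) T2.l7
  (TrL.c (I.mix (nat_lit 41527258) (nat_lit 41530880)) T0.l7
  (TrL.c (I.mix (nat_lit 41527258) (nat_lit 4274)) T2.l8
  TrL.n)))))))) (by decide +kernel)
theorem bx1_11 : BoxOK sI cl6 cl13 cl6 t2 t0 b1_11 :=
  box_mk (TrL.c (I.pos (nat_lit 0) (nat_lit 0)) T2.l0
  (TrL.c (I.pos (nat_lit 0) (nat_lit 0)) T0.l5
  (TrL.c (I.pos (nat_lit 0) (nat_lit 89480386)) T2.l6
  (TrL.c (I.pos (nat_lit 0) (nat_lit 41530880)) T0.l6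
  (TrL.c (I.pos (nat_lit 0) (nat_lit 0)) T0.l10
  (TrL.c (I.pos (nat_lit 0) (nat_lit 0)) T2.l7
  (TrL.c (I.mix (nat_lit 41527258) (nat_lit 41530880)) T0.l7
  (TrL.c (I.mix (nat_lit 41527258) (nat_lit 4274)) T2.l8
  TrL.n)))))))) (by decide +kernel)
theorem sv1 : StarV sI cl6 cl13 cl6 t2 t0 t1 :=
  (bt_n (bt_n (bt_n (bt_b bx1_0) (bt_n (bt_b bx1_1) (bt_b bx1_2))) (bt_n (bt_b bx1_3) (bt_n (bt_b bx1_4) (bt_b bx1_5)))) (bt_n (bt_n (bt_b bx1_6) (bt_n (bt_b bx1_7) (bt_b bx1_8))) (bt_n (bt_b bx1_9) (bt_n (bt_b bx1_10) (bt_b bx1_11)))))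
def S1 : StarD := StarD.mk cl6 cl13 cl6 2 0 t1
theorem bx2_0 : BoxOK sI cl13 cl6 cl6 t1 t1 b2_0 :=
  box_mk (TrL.c (I.pos (nat_lit 0) (nat_lit 0)) (xa (xb T1.l0 T1.l0) T1.l0)
  (TrL.c (I.pos (nat_lit 0) (nat_lit 0)) (xa (xk T1.l1 T1.l1) (xk T1.l1 T1.l1))
  (TrL.c (I.pos (nat_lit 0) (nat_lit 134217730)) (xR T1.l2 T1.l2)
  (TrL.c (I.pos (nat_lit 0) (nat_lit 110514882)) (xR T1.l3 T1.l3)
  (TrL.c (I.pos (nat_lit 0) (nat_lit 0)) (xa (xk T1.l4 T1.l4) (xk (xb T1.l4 T1.l4) (xb T1.l4 T1.l4)))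
  (TrL.c (I.pos (nat_lit 0) (nat_lit 0)) T1.l5
  (TrL.c (I.mix (nat_lit 8088324) (nat_lit 110514882)) (xR T1.l6 T1.l6)
  (TrL.c (I.mix (nat_lit 8088324) (nat_lit 89478486)) T1.l7
  TrL.n)))))))) (by decide +kernel)
theorem bx2_1 : BoxOK sI cl13 cl6 cl6 t1 t1 b2_1 :=
  box_mk (TrL.c (I.pos (nat_lit 0) (nat_lit 0)) T1.l8
  (TrL.c (I.pos (nat_lit 0) (nat_lit 0)) T1.l1
  (TrL.c (I.pos (nat_lit 0) (nat_lit 134217730)) (xR T1.l2 T1.l2)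
  (TrL.c (I.pos (nat_lit 0) (nat_lit 110514882)) (xR T1.l3 T1.l3)
  (TrL.c (I.pos (nat_lit 0) (nat_lit 0)) (xa T1.l9 T1.l9)
  (TrL.c (I.pos (nat_lit 0) (nat_lit 0)) T1.l5
  (TrL.c (I.mix (nat_lit 8088324) (nat_lit 110514882)) T1.l6
  (TrL.c (I.mix (nat_lit 8088324) (nat_lit 89478486)) T1.l7
  TrL.n)))))))) (by decide +kernel)
theorem bx2_2 : BoxOK sI cl13 cl6 cl6 t1 t1 b2_2 :=
  box_mk (TrL.c (I.pos (nat_lit 0) (nat_lit 0)) T1.l8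
  (TrL.c (I.pos (nat_lit 0) (nat_lit 0)) T1.l1
  (TrL.c (I.pos (nat_lit 0) (nat_lit 134217730)) T1.l2
  (TrL.c (I.pos (nat_lit 0) (nat_lit 110514882)) T1.l6
  (TrL.c (I.pos (nat_lit 0) (nat_lit 0)) T1.l9
  (TrL.c (I.pos (nat_lit 0) (nat_lit 0)) T1.l5
  (TrL.c (I.mix (nat_lit 8088324) (nat_lit 110514882)) T1.l6
  (TrL.c (I.mix (nat_lit 8088324) (nat_lit 89478486)) T1.l6
  TrL.n)))))))) (by decide +kernel)
theorem bx2_3 : BoxOK sI cl13 cl6 cl6 t1 t1 b2_3 :=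
  box_mk (TrL.c (I.pos (nat_lit 0) (nat_lit 0)) T1.l10
  (TrL.c (I.pos (nat_lit 0) (nat_lit 0)) (xk T1.l1 T1.l1)
  (TrL.c (I.pos (nat_lit 0) (nat_lit 134217730)) (xR T1.l2 T1.l2)
  (TrL.c (I.pos (nat_lit 0) (nat_lit 110514882)) (xR T1.l3 T1.l3)
  (TrL.c (I.pos (nat_lit 0) (nat_lit 0)) (xk T1.l4 T1.l4)
  (TrL.c (I.pos (nat_lit 0) (nat_lit 0)) T1.l5
  (TrL.c (I.mix (nat_lit 8088324) (nat_lit 110514882)) (xR T1.l6 T1.l6)
  (TrL.c (I.mix (nat_lit 8088324) (nat_lit 89478486)) T1.l7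
  TrL.n)))))))) (by decide +kernel)
theorem bx2_4 : BoxOK sI cl13 cl6 cl6 t1 t1 b2_4 :=
  box_mk (TrL.c (I.pos (nat_lit 0) (nat_lit 0)) (xa (xa T1.l8 T1.l8) T1.l8)
  (TrL.c (I.pos (nat_lit 0) (nat_lit 0)) (xa T1.l9 T1.l1)
  (TrL.c (I.pos (nat_lit 0) (nat_lit 134217730)) (xR T1.l2 T1.l2)
  (TrL.c (I.pos (nat_lit 0) (nat_lit 110514882)) (xR T1.l3 T1.l3)
  (TrL.c (I.pos (nat_lit 0) (nat_lit 0)) (xa T1.l1 T1.l9)
  (TrL.c (I.pos (nat_lit 0) (nat_lit 0)) T1.l5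
  (TrL.c (I.mix (nat_lit 8088324) (nat_lit 110514882)) (xR T1.l6 T1.l6)
  (TrL.c (I.mix (nat_lit 8088324) (nat_lit 89478486)) T1.l6
  TrL.n)))))))) (by decide +kernel)
theorem bx2_5 : BoxOK sI cl13 cl6 cl6 t1 t1 b2_5 :=
  box_mk (TrL.c (I.pos (nat_lit 0) (nat_lit 0)) T1.l0
  (TrL.c (I.pos (nat_lit 0) (nat_lit 0)) T1.l1
  (TrL.c (I.pos (nat_lit 0) (nat_lit 134217730)) (xR T1.l2 T1.l2)
  (TrL.c (I.pos (nat_lit 0) (nat_lit 110514882)) (xR T1.l3 T1.l3)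
  (TrL.c (I.pos (nat_lit 0) (nat_lit 0)) (xk T1.l11 T1.l11)
  (TrL.c (I.pos (nat_lit 0) (nat_lit 0)) T1.l5
  (TrL.c (I.mix (nat_lit 8088324) (nat_lit 110514882)) T1.l6
  (TrL.c (I.mix (nat_lit 8088324) (nat_lit 89478486)) T1.l7
  TrL.n)))))))) (by decide +kernel)
theorem bx2_6 : BoxOK sI cl13 cl6 cl6 t1 t1 b2_6 :=
  box_mk (TrL.c (I.pos (nat_lit 0) (nat_lit 0)) (xa (xa T1.l8 T1.l8) T1.l8)
  (TrL.c (I.pos (nat_lit 0) (nat_lit 0)) (xa T1.l1 T1.l1)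
  (TrL.c (I.pos (nat_lit 0) (nat_lit 134217730)) (xR T1.l2 T1.l2)
  (TrL.c (I.pos (nat_lit 0) (nat_lit 110514882)) (xR T1.l3 T1.l3)
  (TrL.c (I.pos (nat_lit 0) (nat_lit 0)) (xa T1.l9 T1.l9)
  (TrL.c (I.pos (nat_lit 0) (nat_lit 0)) T1.l5
  (TrL.c (I.mix (nat_lit 8088324) (nat_lit 110514882)) (xR T1.l6 T1.l6)
  (TrL.c (I.mix (nat_lit 8088324) (nat_lit 89478486)) T1.l6
  TrL.n)))))))) (by decide +kernel)
theorem bx2_7 : BoxOK sI cl13 cl6 cl6 t1 t1 b2_7 :=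
  box_mk (TrL.c (I.pos (nat_lit 0) (nat_lit 0)) T1.l8
  (TrL.c (I.pos (nat_lit 0) (nat_lit 0)) T1.l1
  (TrL.c (I.pos (nat_lit 0) (nat_lit 134217730)) (xR T1.l2 T1.l2)
  (TrL.c (I.pos (nat_lit 0) (nat_lit 110514882)) (xR T1.l3 T1.l3)
  (TrL.c (I.pos (nat_lit 0) (nat_lit 0)) T1.l9
  (TrL.c (I.pos (nat_lit 0) (nat_lit 0)) T1.l5
  (TrL.c (I.mix (nat_lit 8088324) (nat_lit 110514882)) T1.l6
  (TrL.c (I.mix (nat_lit 8088324) (nat_lit 89478486)) T1.l7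
  TrL.n)))))))) (by decide +kernel)
theorem bx2_8 : BoxOK sI cl13 cl6 cl6 t1 t1 b2_8 :=
  box_mk (TrL.c (I.pos (nat_lit 0) (nat_lit 0)) (xa T1.l8 T1.l8)
  (TrL.c (I.pos (nat_lit 0) (nat_lit 0)) T1.l9
  (TrL.c (I.pos (nat_lit 0) (nat_lit 134217730)) T1.l2
  (TrL.c (I.pos (nat_lit 0) (nat_lit 110514882)) T1.l6
  (TrL.c (I.pos (nat_lit 0) (nat_lit 0)) T1.l1
  (TrL.c (I.pos (nat_lit 0) (nat_lit 0)) T1.l2
  (TrL.c (I.mix (nat_lit 8088324) (nat_lit 110514882)) T1.l6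
  (TrL.c (I.mix (nat_lit 8088324) (nat_lit 89478486)) T1.l6
  TrL.n)))))))) (by decide +kernel)
theorem bx2_9 : BoxOK sI cl13 cl6 cl6 t1 t1 b2_9 :=
  box_mk (TrL.c (I.pos (nat_lit 0) (nat_lit 0)) (xa T1.l0 T1.l0)
  (TrL.c (I.pos (nat_lit 0) (nat_lit 0)) (xa (xk T1.l1 T1.l1) (xk T1.l1 T1.l1))
  (TrL.c (I.pos (nat_lit 0) (nat_lit 134217730)) (xR T1.l6 T1.l2)
  (TrL.c (I.pos (nat_lit 0) (nat_lit 110514882)) (xR T1.l6 T1.l3)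
  (TrL.c (I.pos (nat_lit 0) (nat_lit 0)) (xa (xk (xb T1.l4 T1.l4) (xb T1.l4 T1.l4)) (xk (xb (xa T1.l4 (xb T1.l4 T1.l4)) (xa T1.l4 (xk T1.l4 T1.l4))) (xb (xa T1.l4 T1.l4) (xa T1.l4 T1.l4))))
  (TrL.c (I.pos (nat_lit 0) (nat_lit 0)) (xk T1.l5 T1.l5)
  (TrL.c (I.mix (nat_lit 8088324) (nat_lit 110514882)) (xR T1.l6 (xR T1.l6 T1.l6))
  (TrL.c (I.mix (nat_lit 8088324) (nat_lit 89478486)) T1.l7
  TrL.n)))))))) (by decide +kernel)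
theorem bx2_10 : BoxOK sI cl13 cl6 cl6 t1 t1 b2_10 :=
  box_mk (TrL.c (I.pos (nat_lit 0) (nat_lit 0)) T1.l0
  (TrL.c (I.pos (nat_lit 0) (nat_lit 0)) (xk T1.l1 T1.l1)
  (TrL.c (I.pos (nat_lit 0) (nat_lit 134217730)) (xR T1.l2 T1.l2)
  (TrL.c (I.pos (nat_lit 0) (nat_lit 110514882)) (xR T1.l3 T1.l3)
  (TrL.c (I.pos (nat_lit 0) (nat_lit 0)) (xk T1.l4 T1.l4)
  (TrL.c (I.pos (nat_lit 0) (nat_lit 0)) T1.l5
  (TrL.c (I.mix (nat_lit 8088324) (nat_lit 110514882)) (xR T1.l6 T1.l6)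
  (TrL.c (I.mix (nat_lit 8088324) (nat_lit 89478486)) T1.l7
  TrL.n)))))))) (by decide +kernel)
theorem bx2_11 : BoxOK sI cl13 cl6 cl6 t1 t1 b2_11 :=
  box_mk (TrL.c (I.pos (nat_lit 0) (nat_lit 0)) T1.l10
  (TrL.c (I.pos (nat_lit 0) (nat_lit 0)) T1.l1
  (TrL.c (I.pos (nat_lit 0) (nat_lit 134217730)) (xR T1.l2 T1.l2)
  (TrL.c (I.pos (nat_lit 0) (nat_lit 110514882)) (xR T1.l3 T1.l3)
  (TrL.c (I.pos (nat_lit 0) (nat_lit 0)) T1.l11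
  (TrL.c (I.pos (nat_lit 0) (nat_lit 0)) T1.l5
  (TrL.c (I.mix (nat_lit 8088324) (nat_lit 110514882)) (xR T1.l6 T1.l6)
  (TrL.c (I.mix (nat_lit 8088324) (nat_lit 89478486)) T1.l7
  TrL.n)))))))) (by decide +kernel)
theorem sv2 : StarV sI cl13 cl6 cl6 t1 t1 t2 :=
  (bt_n (bt_n (bt_n (bt_b bx2_0) (bt_n (bt_b bx2_1) (bt_b bx2_2))) (bt_n (bt_b bx2_3) (bt_n (bt_b bx2_4) (bt_b bx2_5)))) (bt_n (bt_n (bt_b bx2_6) (bt_n (bt_b bx2_7) (bt_b bx2_8))) (bt_n (bt_b bx2_9) (bt_n (bt_b bx2_10) (bt_b bx2_11)))))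
def S2 : StarD := StarD.mk cl13 cl6 cl6 1 1 t2
def G : List StarD := [S0, S1, S2]
theorem so0 : StarOK sI G S0 :=
  star_mk (by decide) (by decide) rfl rfl rfl rfl rfl rfl (rfl : _ = t0) (rfl : _ = t2)
  (st_mk (Pth.l (Pth.l (Pth.l Pth.z))) (nat_lit 189295746) (nat_lit 189904002) (by decide +kernel))
  (st_mk (Pth.l (Pth.l (Pth.l Pth.z))) (nat_lit 225529150) (nat_lit 226395330) (by decide +kernel))
  (st_mk (Pth.l (Pth.l (Pth.l Pth.z))) (nat_lit 267641599) (nat_lit 268868881) (by decide +kernel)) sv0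
theorem so1 : StarOK sI G S1 :=
  star_mk (by decide) (by decide) rfl rfl rfl rfl rfl rfl (rfl : _ = t2) (rfl : _ = t0)
  (st_mk (Pth.l (Pth.l (Pth.l Pth.z))) (nat_lit 96989174) (nat_lit 115630218) (by decide +kernel))
  (st_mk (Pth.l (Pth.l (Pth.l Pth.z))) (nat_lit 132891871) (nat_lit 151816617) (by decide +kernel))
  (st_mk (Pth.l (Pth.l (Pth.l Pth.z))) (nat_lit 174723034) (nat_lit 194030295) (by decide +kernel)) sv1
theorem so2 : StarOK sI G S2 :=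
  star_mk (by decide) (by decide) rfl rfl rfl rfl rfl rfl (rfl : _ = t1) (rfl : _ = t1)
  (st_mk (Pth.l (Pth.l (Pth.l Pth.z))) (nat_lit 185843017) (nat_lit 187244205) (by decide +kernel))
  (st_mk (Pth.l (Pth.l (Pth.l Pth.z))) (nat_lit 220739626) (nat_lit 222495741) (by decide +kernel))
  (st_mk (Pth.l (Pth.l (Pth.l Pth.z))) (nat_lit 261004945) (nat_lit 263247573) (by decide +kernel)) sv2
theorem ok : GroupOK (nat_lit 150274048) (nat_lit 209387520) G := grp_mk (allS_c so0 (allS_c so1 (allS_c so2 allS_n)))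
theorem cov : GCov G cl6 cl6 cl13 := cov_mk
  ⟨0, by decide, rfl, rfl, rfl⟩ ⟨1, by decide, rfl, rfl, rfl⟩ ⟨0, by decide, rfl, rfl, rfl⟩ ⟨1, by decide, rfl, rfl, rfl⟩ ⟨2, by decide, rfl, rfl, rfl⟩ ⟨2, by decide, rfl, rfl, rfl⟩
end Q336_2

namespace Q336_3
def sI : I := I.pos (nat_lit 209321984) (nat_lit 268435456)
def b0_0 : Bx := Bx.mk (St.mk (I.pos (nat_lit 151699456) (nat_lit 232210432)) (I.mix (nat_lit 3309568) (nat_lit 63438848)) (I.mix (nat_lit 4112384) (nat_lit 79560704)) (I.pos (nat_lit 183025664) (nat_lit 300810240)) (I.mix (nat_lit 117063680) (nat_lit 74907648)) (I.mix (nat_lit 65470464) (nat_lit 61554688)) (I.mix (nat_lit 91226112) (nat_lit 90947584)))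
  false (nat_lit 38397801)
def b0_1 : Bx := Bx.mk (St.mk (I.mix (nat_lit 42860544) (nat_lit 105447424)) (I.mix (nat_lit 12206080) (nat_lit 42926080)) (I.mix (nat_lit 26198016) (nat_lit 8323072)) (I.pos (nat_lit 75399168) (nat_lit 127582208)) (I.mix (nat_lit 43810816) (nat_lit 55705600)) (I.mix (nat_lit 39043072) (nat_lit 31424512)) (I.mix (nat_lit 25346048) (nat_lit 15663104)))
  false (nat_lit 0)
def b0_2 : Bx := Bx.mk (St.mk (I.pos (nat_lit 74170368) (nat_lit 120946688)) (I.mix (nat_lit 57065472) (nat_lit 10584064)) (I.neg (nat_lit 6766592) (nat_lit 59015168)) (I.pos (nat_lit 108707840) (nat_lit 143720448)) (I.mix (nat_lit 92864512) (nat_lit 28164096)) (I.mix (nat_lit 35209216) (nat_lit 63111168)) (I.mix (nat_lit 24133632) (nat_lit 45268992)))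
  false (nat_lit 0)
def b0_3 : Bx := Bx.mk (St.mk (I.mix (nat_lit 53575680) (nat_lit 28295168)) (I.mix (nat_lit 32784384) (nat_lit 9895936)) (I.neg (nat_lit 1392640) (nat_lit 17563648)) (I.pos (nat_lit 82460672) (nat_lit 101318656)) (I.mix (nat_lit 40206336) (nat_lit 23265280)) (I.mix (nat_lit 19169280) (nat_lit 27525120)) (I.mix (nat_lit 10649600) (nat_lit 6832128)))
  false (nat_lit 0)
def b0_4 : Bx := Bx.mk (St.mk (I.pos (nat_lit 192888832) (nat_lit 286621696)) (I.mix (nat_lit 30818304) (nat_lit 41500672)) (I.mix (nat_lit 110460928) (nat_lit 35176448)) (I.pos (nat_lit 251969536) (nat_lit 403881984)) (I.mix (nat_lit 76775424) (nat_lit 55754752)) (I.mix (nat_lit 53051392) (nat_lit 48562176)) (I.mix (nat_lit 94732288) (nat_lit 92405760)))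
  false (nat_lit 6240218)
def b0_5 : Bx := Bx.mk (St.mk (I.pos (nat_lit 71335936) (nat_lit 165593088)) (I.neg (nat_lit 4112384) (nat_lit 59064320)) (I.neg (nat_lit 10797056) (nat_lit 61014016)) (I.pos (nat_lit 116473856) (nat_lit 192135168)) (I.mix (nat_lit 99319808) (nat_lit 43810816)) (I.mix (nat_lit 39583744) (nat_lit 60997632)) (I.mix (nat_lit 26345472) (nat_lit 49102848)))
  false (nat_lit 0)
def b0_6 : Bx := Bx.mk (St.mk (I.mix (nat_lit 39731200) (nat_lit 51757056)) (I.mix (nat_lit 33652736) (nat_lit 6422528)) (I.neg (nat_lit 2818048) (nat_lit 19267584)) (I.pos (nat_lit 81100800) (nat_lit 102170624)) (I.mix (nat_lit 38961152) (nat_lit 30654464)) (I.mix (nat_lit 19529728) (nat_lit 28426240)) (I.mix (nat_lit 10207232) (nat_lit 11354112)))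
  false (nat_lit 0)
def b0_7 : Bx := Bx.mk (St.mk (I.mix (nat_lit 54820864) (nat_lit 84410368)) (I.mix (nat_lit 10092544) (nat_lit 32686080)) (I.mix (nat_lit 19316736) (nat_lit 5718016)) (I.pos (nat_lit 81199104) (nat_lit 109871104)) (I.mix (nat_lit 37961728) (nat_lit 37781504)) (I.mix (nat_lit 37011456) (nat_lit 18202624)) (I.mix (nat_lit 14876672) (nat_lit 15679488)))
  false (nat_lit 0)
def b0_8 : Bx := Bx.mk (St.mk (I.pos (nat_lit 159301632) (nat_lit 211173376)) (I.mix (nat_lit 1703936) (nat_lit 61947904)) (I.pos (nat_lit 3555328) (nat_lit 77479936)) (I.pos (nat_lit 197148672) (nat_lit 264650752)) (I.mix (nat_lit 127221760) (nat_lit 48283648)) (I.mix (nat_lit 96845824) (nat_lit 64733184)) (I.mix (nat_lit 86114304) (nat_lit 59392000)))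
  false (nat_lit 0)
def b0_9 : Bx := Bx.mk (St.mk (I.pos (nat_lit 134742016) (nat_lit 206110720)) (I.mix (nat_lit 36143104) (nat_lit 22052864)) (I.mix (nat_lit 41795584) (nat_lit 25346048)) (I.pos (nat_lit 156663808) (nat_lit 244908032)) (I.mix (nat_lit 70320128) (nat_lit 63569920)) (I.mix (nat_lit 64061440) (nat_lit 56426496)) (I.mix (nat_lit 63127552) (nat_lit 52756480)))
  false (nat_lit 0)
def b0_10 : Bx := Bx.mk (St.mk (I.pos (nat_lit 160055296) (nat_lit 203751424)) (I.mix (nat_lit 5849088) (nat_lit 32702464)) (I.mix (nat_lit 5718016) (nat_lit 42663936)) (I.pos (nat_lit 198868992) (nat_lit 241631232)) (I.mix (nat_lit 98598912) (nat_lit 60162048)) (I.mix (nat_lit 93077504) (nat_lit 51445760)) (I.mix (nat_lit 90472448) (nat_lit 46350336)))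
  false (nat_lit 0)
def b0_11 : Bx := Bx.mk (St.mk (I.pos (nat_lit 176586752) (nat_lit 233078784)) (I.pos (nat_lit 12107776) (nat_lit 62930944)) (I.pos (nat_lit 1359872) (nat_lit 76775424)) (I.pos (nat_lit 242057216) (nat_lit 295305216)) (I.mix (nat_lit 104677376) (nat_lit 72777728)) (I.mix (nat_lit 71843840) (nat_lit 59490304)) (I.mix (nat_lit 104824832) (nat_lit 78577664)))
  false (nat_lit 35854861)
def t0 : BTr := (BTr.n (BTr.n (BTr.n (BTr.b b0_0) (BTr.n (BTr.b b0_1) (BTr.b b0_2))) (BTr.n (BTr.b b0_3) (BTr.n (BTr.b b0_4) (BTr.b b0_5)))) (BTr.n (BTr.n (BTr.b b0_6) (BTr.n (BTr.b b0_7) (BTr.b b0_8))) (BTr.n (BTr.b b0_9) (BTr.n (BTr.b b0_10) (BTr.b b0_11)))))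
namespace T0
def l0 : Tr := Tr.L (Pth.l (Pth.l (Pth.l Pth.z)))
def l1 : Tr := Tr.L (Pth.l (Pth.l (Pth.r (Pth.l Pth.z))))
def l2 : Tr := Tr.L (Pth.l (Pth.l (Pth.r (Pth.r Pth.z))))
def l3 : Tr := Tr.L (Pth.l (Pth.r (Pth.l Pth.z)))
def l4 : Tr := Tr.L (Pth.l (Pth.r (Pth.r (Pth.l Pth.z))))
def l5 : Tr := Tr.L (Pth.l (Pth.r (Pth.r (Pth.r Pth.z))))
def l6 : Tr := Tr.L (Pth.r (Pth.l (Pth.l Pth.z)))
def l7 : Tr := Tr.L (Pth.r (Pth.l (Pth.r (Pth.l Pth.z))))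
def l8 : Tr := Tr.L (Pth.r (Pth.l (Pth.r (Pth.r Pth.z))))
def l9 : Tr := Tr.L (Pth.r (Pth.r (Pth.l Pth.z)))
def l10 : Tr := Tr.L (Pth.r (Pth.r (Pth.r (Pth.l Pth.z))))
def l11 : Tr := Tr.L (Pth.r (Pth.r (Pth.r (Pth.r Pth.z))))
end T0
def b1_0 : Bx := Bx.mk (St.mk (I.pos (nat_lit 156614656) (nat_lit 235880448)) (I.mix (nat_lit 2424832) (nat_lit 44466176)) (I.mix (nat_lit 4276224) (nat_lit 82657280)) (I.pos (nat_lit 90505216) (nat_lit 222806016)) (I.mix (nat_lit 101138432) (nat_lit 56557568)) (I.mix (nat_lit 69074944) (nat_lit 56475648)) (I.mix (nat_lit 94699520) (nat_lit 73121792)))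
  false (nat_lit 9785273)
def b1_1 : Bx := Bx.mk (St.mk (I.pos (nat_lit 102055936) (nat_lit 191234048)) (I.mix (nat_lit 55738368) (nat_lit 2113536)) (I.mix (nat_lit 54951936) (nat_lit 3653632)) (I.pos (nat_lit 65273856) (nat_lit 155025408)) (I.mix (nat_lit 97402880) (nat_lit 48644096)) (I.mix (nat_lit 46268416) (nat_lit 67616768)) (I.mix (nat_lit 38846464) (nat_lit 58146816)))
  false (nat_lit 29629517)
def b1_2 : Bx := Bx.mk (St.mk (I.mix (nat_lit 14155776) (nat_lit 149553152)) (I.mix (nat_lit 8896512) (nat_lit 24821760)) (I.mix (nat_lit 10223616) (nat_lit 23625728)) (I.mix (nat_lit 6012928) (nat_lit 96370688)) (I.mix (nat_lit 46088192) (nat_lit 30015488)) (I.mix (nat_lit 27525120) (nat_lit 21921792)) (I.mix (nat_lit 22839296) (nat_lit 16334848)))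
  false (nat_lit 0)
def b1_3 : Bx := Bx.mk (St.mk (I.mix (nat_lit 22708224) (nat_lit 123338752)) (I.mix (nat_lit 25657344) (nat_lit 5996544)) (I.mix (nat_lit 18153472) (nat_lit 5390336)) (I.mix (nat_lit 4571136) (nat_lit 70860800)) (I.mix (nat_lit 37994496) (nat_lit 29229056)) (I.mix (nat_lit 19382272) (nat_lit 25083904)) (I.mix (nat_lit 12828672) (nat_lit 18006016)))
  false (nat_lit 0)
def b1_4 : Bx := Bx.mk (St.mk (I.pos (nat_lit 169918464) (nat_lit 212795392)) (I.mix (nat_lit 17039360) (nat_lit 40058880)) (I.pos (nat_lit 1081344) (nat_lit 72925184)) (I.pos (nat_lit 112246784) (nat_lit 186777600)) (I.mix (nat_lit 119406592) (nat_lit 49152000)) (I.mix (nat_lit 96075776) (nat_lit 59932672)) (I.mix (nat_lit 112115712) (nat_lit 60784640)))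
  false (nat_lit 0)
def b1_5 : Bx := Bx.mk (St.mk (I.pos (nat_lit 112607232) (nat_lit 157450240)) (I.mix (nat_lit 46825472) (nat_lit 10076160)) (I.mix (nat_lit 46481408) (nat_lit 9928704)) (I.pos (nat_lit 50692096) (nat_lit 106299392)) (I.mix (nat_lit 92241920) (nat_lit 34717696)) (I.mix (nat_lit 35487744) (nat_lit 70959104)) (I.mix (nat_lit 28344320) (nat_lit 61571072)))
  false (nat_lit 0)
def b1_6 : Bx := Bx.mk (St.mk (I.mix (nat_lit 18481152) (nat_lit 136577024)) (I.mix (nat_lit 14483456) (nat_lit 35307520)) (I.mix (nat_lit 10616832) (nat_lit 29917184)) (I.mix (nat_lit 5275648) (nat_lit 83296256)) (I.mix (nat_lit 64225280) (nat_lit 34324480)) (I.mix (nat_lit 49283072) (nat_lit 30392320)) (I.mix (nat_lit 34586624) (nat_lit 19693568)))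
  false (nat_lit 0)
def b1_7 : Bx := Bx.mk (St.mk (I.mix (nat_lit 16498688) (nat_lit 130629632)) (I.mix (nat_lit 23838720) (nat_lit 1851392)) (I.mix (nat_lit 16629760) (nat_lit 1736704)) (I.mix (nat_lit 4407296) (nat_lit 68157440)) (I.mix (nat_lit 38535168) (nat_lit 20316160)) (I.mix (nat_lit 18219008) (nat_lit 26935296)) (I.mix (nat_lit 10633216) (nat_lit 16007168)))
  false (nat_lit 0)
def b1_8 : Bx := Bx.mk (St.mk (I.pos (nat_lit 195182592) (nat_lit 286949376)) (I.mix (nat_lit 24559616) (nat_lit 33161216)) (I.mix (nat_lit 53968896) (nat_lit 64077824)) (I.pos (nat_lit 170688512) (nat_lit 335659008)) (I.mix (nat_lit 71876608) (nat_lit 53723136)) (I.mix (nat_lit 52019200) (nat_lit 44384256)) (I.mix (nat_lit 94732288) (nat_lit 74203136)))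
  false (nat_lit 30062357)
def b1_9 : Bx := Bx.mk (St.mk (I.pos (nat_lit 154910720) (nat_lit 213450752)) (I.mix (nat_lit 39092224) (nat_lit 10829824)) (I.mix (nat_lit 36995072) (nat_lit 30343168)) (I.pos (nat_lit 99893248) (nat_lit 181338112)) (I.mix (nat_lit 62619648) (nat_lit 57065472)) (I.mix (nat_lit 53706752) (nat_lit 48316416)) (I.mix (nat_lit 56115200) (nat_lit 52363264)))
  false (nat_lit 43918392)
def b1_10 : Bx := Bx.mk (St.mk (I.pos (nat_lit 186564608) (nat_lit 233701376)) (I.pos (nat_lit 13320192) (nat_lit 44580864)) (I.pos (nat_lit 28426240) (nat_lit 83099648)) (I.pos (nat_lit 160694272) (nat_lit 215810048)) (I.mix (nat_lit 94322688) (nat_lit 61980672)) (I.mix (nat_lit 67108864) (nat_lit 52690944)) (I.mix (nat_lit 108396544) (nat_lit 68485120)))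
  false (nat_lit 3461129)
def b1_11 : Bx := Bx.mk (St.mk (I.pos (nat_lit 170819584) (nat_lit 210911232)) (I.mix (nat_lit 23298048) (nat_lit 20807680)) (I.mix (nat_lit 9125888) (nat_lit 46170112)) (I.pos (nat_lit 115867648) (nat_lit 179421184)) (I.mix (nat_lit 98484224) (nat_lit 56377344)) (I.mix (nat_lit 90210304) (nat_lit 46923776)) (I.mix (nat_lit 106840064) (nat_lit 50020352)))
  false (nat_lit 5136366)
def t1 : BTr := (BTr.n (BTr.n (BTr.n (BTr.b b1_0) (BTr.n (BTr.b b1_1) (BTr.b b1_2))) (BTr.n (BTr.b b1_3) (BTr.n (BTr.b b1_4) (BTr.b b1_5)))) (BTr.n (BTr.n (BTr.b b1_6) (BTr.n (BTr.b b1_7) (BTr.b b1_8))) (BTr.n (BTr.b b1_9) (BTr.n (BTr.b b1_10) (BTr.b b1_11)))))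
namespace T1
def l0 : Tr := Tr.L (Pth.l (Pth.l (Pth.l Pth.z)))
def l1 : Tr := Tr.L (Pth.l (Pth.l (Pth.r (Pth.l Pth.z))))
def l2 : Tr := Tr.L (Pth.l (Pth.l (Pth.r (Pth.r Pth.z))))
def l3 : Tr := Tr.L (Pth.l (Pth.r (Pth.l Pth.z)))
def l4 : Tr := Tr.L (Pth.l (Pth.r (Pth.r (Pth.l Pth.z))))
def l5 : Tr := Tr.L (Pth.l (Pth.r (Pth.r (Pth.r Pth.z))))
def l6 : Tr := Tr.L (Pth.r (Pth.l (Pth.l Pth.z)))
def l7 : Tr := Tr.L (Pth.r (Pth.l (Pth.r (Pth.l Pth.z))))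
def l8 : Tr := Tr.L (Pth.r (Pth.l (Pth.r (Pth.r Pth.z))))
def l9 : Tr := Tr.L (Pth.r (Pth.r (Pth.l Pth.z)))
def l10 : Tr := Tr.L (Pth.r (Pth.r (Pth.r (Pth.l Pth.z))))
def l11 : Tr := Tr.L (Pth.r (Pth.r (Pth.r (Pth.r Pth.z))))
end T1
def b2_0 : Bx := Bx.mk (St.mk (I.pos (nat_lit 142016512) (nat_lit 227115008)) (I.mix (nat_lit 2965504) (nat_lit 55574528)) (I.mix (nat_lit 5373952) (nat_lit 100155392)) (I.pos (nat_lit 180322304) (nat_lit 277037056)) (I.mix (nat_lit 115212288) (nat_lit 65028096)) (I.mix (nat_lit 75792384) (nat_lit 62111744)) (I.mix (nat_lit 96026624) (nat_lit 73826304)))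
  false (nat_lit 70569257)
def b2_1 : Bx := Bx.mk (St.mk (I.pos (nat_lit 83492864) (nat_lit 173522944)) (I.neg (nat_lit 8011776) (nat_lit 61620224)) (I.mix (nat_lit 44843008) (nat_lit 13434880)) (I.pos (nat_lit 128073728) (nat_lit 199983104)) (I.mix (nat_lit 84115456) (nat_lit 49364992)) (I.mix (nat_lit 39124992) (nat_lit 49004544)) (I.mix (nat_lit 31670272) (nat_lit 39731200)))
  false (nat_lit 2442539)
def b2_2 : Bx := Bx.mk (St.mk (I.mix (nat_lit 31162368) (nat_lit 53968896)) (I.mix (nat_lit 33079296) (nat_lit 6881280)) (I.mix (nat_lit 5537792) (nat_lit 10452992)) (I.pos (nat_lit 83279872) (nat_lit 100958208)) (I.mix (nat_lit 26853376) (nat_lit 35930112)) (I.mix (nat_lit 19480576) (nat_lit 25067520)) (I.mix (nat_lit 6864896) (nat_lit 9519104)))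
  false (nat_lit 0)
def b2_3 : Bx := Bx.mk (St.mk (I.pos (nat_lit 153911296) (nat_lit 202784768)) (I.mix (nat_lit 4210688) (nat_lit 53510144)) (I.pos (nat_lit 24002560) (nat_lit 93192192)) (I.pos (nat_lit 180551680) (nat_lit 242155520)) (I.mix (nat_lit 122994688) (nat_lit 41107456)) (I.mix (nat_lit 100794368) (nat_lit 57704448)) (I.mix (nat_lit 99663872) (nat_lit 46940160)))
  false (nat_lit 54261922)
def b2_4 : Bx := Bx.mk (St.mk (I.mix (nat_lit 57196544) (nat_lit 74989568)) (I.mix (nat_lit 10944512) (nat_lit 41205760)) (I.mix (nat_lit 6291456) (nat_lit 20578304)) (I.pos (nat_lit 81362944) (nat_lit 110379008)) (I.mix (nat_lit 45596672) (nat_lit 34324480)) (I.mix (nat_lit 29065216) (nat_lit 25575424)) (I.mix (nat_lit 11960320) (nat_lit 11567104)))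
  false (nat_lit 0)
def b2_5 : Bx := Bx.mk (St.mk (I.pos (nat_lit 133005312) (nat_lit 196820992)) (I.mix (nat_lit 37797888) (nat_lit 12533760)) (I.mix (nat_lit 16580608) (nat_lit 44826624)) (I.pos (nat_lit 162136064) (nat_lit 227606528)) (I.mix (nat_lit 62128128) (nat_lit 56459264)) (I.mix (nat_lit 54755328) (nat_lit 47890432)) (I.mix (nat_lit 52363264) (nat_lit 45334528)))
  false (nat_lit 4973846)
def b2_6 : Bx := Bx.mk (St.mk (I.mix (nat_lit 53968896) (nat_lit 102711296)) (I.mix (nat_lit 6471680) (nat_lit 41811968)) (I.mix (nat_lit 5865472) (nat_lit 28278784)) (I.pos (nat_lit 72613888) (nat_lit 126500864)) (I.mix (nat_lit 59506688) (nat_lit 44859392)) (I.mix (nat_lit 39665664) (nat_lit 28999680)) (I.mix (nat_lit 25886720) (nat_lit 20873216)))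
  false (nat_lit 0)
def b2_7 : Bx := Bx.mk (St.mk (I.pos (nat_lit 77447168) (nat_lit 129384448)) (I.mix (nat_lit 62062592) (nat_lit 8962048)) (I.mix (nat_lit 44187648) (nat_lit 5750784)) (I.pos (nat_lit 111984640) (nat_lit 153403392)) (I.mix (nat_lit 84279296) (nat_lit 37273600)) (I.mix (nat_lit 38043648) (nat_lit 56066048)) (I.mix (nat_lit 27246592) (nat_lit 35831808)))
  false (nat_lit 0)
def b2_8 : Bx := Bx.mk (St.mk (I.mix (nat_lit 51429376) (nat_lit 36552704)) (I.mix (nat_lit 33325056) (nat_lit 5472256)) (I.mix (nat_lit 3637248) (nat_lit 10960896)) (I.pos (nat_lit 82558976) (nat_lit 101761024)) (I.mix (nat_lit 31113216) (nat_lit 32178176)) (I.mix (nat_lit 18022400) (nat_lit 25837568)) (I.mix (nat_lit 10043392) (nat_lit 8355840)))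
  false (nat_lit 0)
def b2_9 : Bx := Bx.mk (St.mk (I.pos (nat_lit 193232896) (nat_lit 288473088)) (I.mix (nat_lit 20938752) (nat_lit 45580288)) (I.mix (nat_lit 42713088) (nat_lit 85983232)) (I.pos (nat_lit 242171904) (nat_lit 398884864)) (I.mix (nat_lit 82870272) (nat_lit 76693504)) (I.mix (nat_lit 64602112) (nat_lit 47071232)) (I.mix (nat_lit 110936064) (nat_lit 76038144)))
  false (nat_lit 78121657)
def b2_10 : Bx := Bx.mk (St.mk (I.pos (nat_lit 171622400) (nat_lit 222347264)) (I.pos (nat_lit 17514496) (nat_lit 53493760)) (I.pos (nat_lit 39845888) (nat_lit 96960512)) (I.pos (nat_lit 219037696) (nat_lit 268894208)) (I.mix (nat_lit 102350848) (nat_lit 72908800)) (I.mix (nat_lit 77725696) (nat_lit 59588608)) (I.mix (nat_lit 117735424) (nat_lit 67649536)))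
  false (nat_lit 51331241)
def b2_11 : Bx := Bx.mk (St.mk (I.pos (nat_lit 151191552) (nat_lit 201031680)) (I.mix (nat_lit 11010048) (nat_lit 30900224)) (I.pos (nat_lit 14991360) (nat_lit 68141056)) (I.pos (nat_lit 177815552) (nat_lit 232505344)) (I.mix (nat_lit 113459200) (nat_lit 62390272)) (I.mix (nat_lit 105709568) (nat_lit 58867712)) (I.mix (nat_lit 103448576) (nat_lit 55443456)))
  false (nat_lit 13851842)
def t2 : BTr := (BTr.n (BTr.n (BTr.n (BTr.b b2_0) (BTr.n (BTr.b b2_1) (BTr.b b2_2))) (BTr.n (BTr.b b2_3) (BTr.n (BTr.b b2_4) (BTr.b b2_5)))) (BTr.n (BTr.n (BTr.b b2_6) (BTr.n (BTr.b b2_7) (BTr.b b2_8))) (BTr.n (BTr.b b2_9) (BTr.n (BTr.b b2_10) (BTr.b b2_11)))))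
namespace T2
def l0 : Tr := Tr.L (Pth.l (Pth.l (Pth.l Pth.z)))
def l1 : Tr := Tr.L (Pth.l (Pth.l (Pth.r (Pth.l Pth.z))))
def l2 : Tr := Tr.L (Pth.l (Pth.l (Pth.r (Pth.r Pth.z))))
def l3 : Tr := Tr.L (Pth.l (Pth.r (Pth.l Pth.z)))
def l4 : Tr := Tr.L (Pth.l (Pth.r (Pth.r (Pth.l Pth.z))))
def l5 : Tr := Tr.L (Pth.l (Pth.r (Pth.r (Pth.r Pth.z))))
def l6 : Tr := Tr.L (Pth.r (Pth.l (Pth.l Pth.z)))
def l7 : Tr := Tr.L (Pth.r (Pth.l (Pth.r (Pth.l Pth.z))))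
def l8 : Tr := Tr.L (Pth.r (Pth.l (Pth.r (Pth.r Pth.z))))
def l9 : Tr := Tr.L (Pth.r (Pth.r (Pth.l Pth.z)))
def l10 : Tr := Tr.L (Pth.r (Pth.r (Pth.r (Pth.l Pth.z))))
def l11 : Tr := Tr.L (Pth.r (Pth.r (Pth.r (Pth.r Pth.z))))
end T2
theorem bx0_0 : BoxOK sI cl6 cl6 cl13 t0 t2 b0_0 :=
  box_mk (TrL.c (I.pos (nat_lit 0) (nat_lit 0)) (xa (xb (xa T0.l0 T0.l0) (xa T0.l0 T0.l0)) (xb T0.l0 (xa T0.l0 T0.l0)))
  (TrL.c (I.pos (nat_lit 0) (nat_lit 0)) T2.l1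
  (TrL.c (I.pos (nat_lit 0) (nat_lit 89480386)) T0.l1
  (TrL.c (I.pos (nat_lit 0) (nat_lit 41530880)) T2.l2
  (TrL.c (I.pos (nat_lit 0) (nat_lit 0)) (xa T2.l11 (xb T2.l3 T2.l3))
  (TrL.c (I.pos (nat_lit 0) (nat_lit 0)) T0.l2
  (TrL.c (I.mix (nat_lit 41527258) (nat_lit 41530880)) T2.l6
  (TrL.c (I.mix (nat_lit 41527258) (nat_lit 4274)) T0.l3
  TrL.n)))))))) (by decide +kernel)
theorem bx0_1 : BoxOK sI cl6 cl6 cl13 t0 t2 b0_1 :=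
  box_mk (TrL.c (I.pos (nat_lit 0) (nat_lit 0)) (xa (xb (xa (xb (xa T0.l4 T0.l4) (xa T0.l4 T0.l4)) T0.l4) (xa (xa (xb T0.l4 (xa T0.l4 T0.l4)) (xb T0.l4 T0.l4)) (xa (xb T0.l4 T0.l4) T0.l4))) (xa (xb T0.l4 T0.l4) (xb T0.l4 (xa T0.l4 T0.l4))))
  (TrL.c (I.pos (nat_lit 0) (nat_lit 0)) (xa T2.l1 T2.l1)
  (TrL.c (I.pos (nat_lit 0) (nat_lit 89480386)) T0.l1
  (TrL.c (I.pos (nat_lit 0) (nat_lit 41530880)) T2.l2
  (TrL.c (I.pos (nat_lit 0) (nat_lit 0)) (xa T2.l5 T2.l5)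
  (TrL.c (I.pos (nat_lit 0) (nat_lit 0)) T0.l2
  (TrL.c (I.mix (nat_lit 41527258) (nat_lit 41530880)) T2.l4
  (TrL.c (I.mix (nat_lit 41527258) (nat_lit 4274)) T0.l3
  TrL.n)))))))) (by decide +kernel)
theorem bx0_2 : BoxOK sI cl6 cl6 cl13 t0 t2 b0_2 :=
  box_mk (TrL.c (I.pos (nat_lit 0) (nat_lit 0)) (xb T0.l4 (xa T0.l4 T0.l4))
  (TrL.c (I.pos (nat_lit 0) (nat_lit 0)) T2.l1
  (TrL.c (I.pos (nat_lit 0) (nat_lit 89480386)) T0.l1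
  (TrL.c (I.pos (nat_lit 0) (nat_lit 41530880)) T2.l2
  (TrL.c (I.pos (nat_lit 0) (nat_lit 0)) T2.l5
  (TrL.c (I.pos (nat_lit 0) (nat_lit 0)) T0.l2
  (TrL.c (I.mix (nat_lit 41527258) (nat_lit 41530880)) T2.l4
  (TrL.c (I.mix (nat_lit 41527258) (nat_lit 4274)) T0.l3
  TrL.n)))))))) (by decide +kernel)
theorem bx0_3 : BoxOK sI cl6 cl6 cl13 t0 t2 b0_3 :=
  box_mk (TrL.c (I.pos (nat_lit 0) (nat_lit 0)) (xa (xb (xa (xb T0.l4 T0.l4) T0.l4) T0.l4) T0.l4)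
  (TrL.c (I.pos (nat_lit 0) (nat_lit 0)) T2.l5
  (TrL.c (I.pos (nat_lit 0) (nat_lit 89480386)) T0.l1
  (TrL.c (I.pos (nat_lit 0) (nat_lit 41530880)) T2.l4
  (TrL.c (I.pos (nat_lit 0) (nat_lit 0)) T2.l1
  (TrL.c (I.pos (nat_lit 0) (nat_lit 0)) T0.l2
  (TrL.c (I.mix (nat_lit 41527258) (nat_lit 41530880)) T2.l4
  (TrL.c (I.mix (nat_lit 41527258) (nat_lit 4274)) T0.l3
  TrL.n)))))))) (by decide +kernel)
theorem bx0_4 : BoxOK sI cl6 cl6 cl13 t0 t2 b0_4 :=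
  box_mk (TrL.c (I.pos (nat_lit 0) (nat_lit 0)) (xa (xb T0.l0 (xa T0.l0 T0.l0)) (xb T0.l0 (xa T0.l0 T0.l0)))
  (TrL.c (I.pos (nat_lit 0) (nat_lit 0)) T2.l1
  (TrL.c (I.pos (nat_lit 0) (nat_lit 89480386)) T0.l1
  (TrL.c (I.pos (nat_lit 0) (nat_lit 41530880)) T2.l2
  (TrL.c (I.pos (nat_lit 0) (nat_lit 0)) (xa (xb T2.l0 T2.l3) (xb (xa T2.l3 (xb T2.l3 T2.l3)) (xa T2.l3 (xb T2.l3 T2.l3))))
  (TrL.c (I.pos (nat_lit 0) (nat_lit 0)) T0.l2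
  (TrL.c (I.mix (nat_lit 41527258) (nat_lit 41530880)) T2.l6
  (TrL.c (I.mix (nat_lit 41527258) (nat_lit 4274)) T0.l3
  TrL.n)))))))) (by decide +kernel)
theorem bx0_5 : BoxOK sI cl6 cl6 cl13 t0 t2 b0_5 :=
  box_mk (TrL.c (I.pos (nat_lit 0) (nat_lit 0)) (xa (xb T0.l4 (xa T0.l4 T0.l4)) (xb T0.l4 T0.l4))
  (TrL.c (I.pos (nat_lit 0) (nat_lit 0)) T2.l1
  (TrL.c (I.pos (nat_lit 0) (nat_lit 89480386)) T0.l1
  (TrL.c (I.pos (nat_lit 0) (nat_lit 41530880)) T2.l2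
  (TrL.c (I.pos (nat_lit 0) (nat_lit 0)) (xa T2.l5 T2.l5)
  (TrL.c (I.pos (nat_lit 0) (nat_lit 0)) T0.l2
  (TrL.c (I.mix (nat_lit 41527258) (nat_lit 41530880)) T2.l4
  (TrL.c (I.mix (nat_lit 41527258) (nat_lit 4274)) T0.l3
  TrL.n)))))))) (by decide +kernel)
theorem bx0_6 : BoxOK sI cl6 cl6 cl13 t0 t2 b0_6 :=
  box_mk (TrL.c (I.pos (nat_lit 0) (nat_lit 0)) (xa (xb T0.l4 T0.l4) T0.l4)
  (TrL.c (I.pos (nat_lit 0) (nat_lit 0)) T2.l5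
  (TrL.c (I.pos (nat_lit 0) (nat_lit 89480386)) T0.l1
  (TrL.c (I.pos (nat_lit 0) (nat_lit 41530880)) T2.l2
  (TrL.c (I.pos (nat_lit 0) (nat_lit 0)) T2.l1
  (TrL.c (I.pos (nat_lit 0) (nat_lit 0)) T0.l2
  (TrL.c (I.mix (nat_lit 41527258) (nat_lit 41530880)) T2.l4
  (TrL.c (I.mix (nat_lit 41527258) (nat_lit 4274)) T0.l3
  TrL.n)))))))) (by decide +kernel)
theorem bx0_7 : BoxOK sI cl6 cl6 cl13 t0 t2 b0_7 :=
  box_mk (TrL.c (I.pos (nat_lit 0) (nat_lit 0)) (xa (xa (xb T0.l4 (xa T0.l4 T0.l4)) T0.l4) (xa T0.l4 T0.l4))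
  (TrL.c (I.pos (nat_lit 0) (nat_lit 0)) T2.l1
  (TrL.c (I.pos (nat_lit 0) (nat_lit 89480386)) T0.l1
  (TrL.c (I.pos (nat_lit 0) (nat_lit 41530880)) T2.l2
  (TrL.c (I.pos (nat_lit 0) (nat_lit 0)) (xa T2.l5 T2.l5)
  (TrL.c (I.pos (nat_lit 0) (nat_lit 0)) T0.l2
  (TrL.c (I.mix (nat_lit 41527258) (nat_lit 41530880)) T2.l4
  (TrL.c (I.mix (nat_lit 41527258) (nat_lit 4274)) T0.l3
  TrL.n)))))))) (by decide +kernel)
theorem bx0_8 : BoxOK sI cl6 cl6 cl13 t0 t2 b0_8 :=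
  box_mk (TrL.c (I.pos (nat_lit 0) (nat_lit 0)) (xb (xa T0.l11 T0.l11) (xa (xb T0.l11 T0.l11) T0.l11))
  (TrL.c (I.pos (nat_lit 0) (nat_lit 0)) T2.l1
  (TrL.c (I.pos (nat_lit 0) (nat_lit 89480386)) T0.l1
  (TrL.c (I.pos (nat_lit 0) (nat_lit 41530880)) T2.l2
  (TrL.c (I.pos (nat_lit 0) (nat_lit 0)) (xb T2.l11 T2.l11)
  (TrL.c (I.pos (nat_lit 0) (nat_lit 0)) T0.l2
  (TrL.c (I.mix (nat_lit 41527258) (nat_lit 41530880)) T2.l6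
  (TrL.c (I.mix (nat_lit 41527258) (nat_lit 4274)) T0.l3
  TrL.n)))))))) (by decide +kernel)
theorem bx0_9 : BoxOK sI cl6 cl6 cl13 t0 t2 b0_9 :=
  box_mk (TrL.c (I.pos (nat_lit 0) (nat_lit 0)) (xa (xb T0.l0 T0.l11) T0.l0)
  (TrL.c (I.pos (nat_lit 0) (nat_lit 0)) T2.l1
  (TrL.c (I.pos (nat_lit 0) (nat_lit 89480386)) T0.l1
  (TrL.c (I.pos (nat_lit 0) (nat_lit 41530880)) T2.l2
  (TrL.c (I.pos (nat_lit 0) (nat_lit 0)) (xb T2.l11 T2.l11)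
  (TrL.c (I.pos (nat_lit 0) (nat_lit 0)) T0.l2
  (TrL.c (I.mix (nat_lit 41527258) (nat_lit 41530880)) T2.l4
  (TrL.c (I.mix (nat_lit 41527258) (nat_lit 4274)) T0.l3
  TrL.n)))))))) (by decide +kernel)
theorem bx0_10 : BoxOK sI cl6 cl6 cl13 t0 t2 b0_10 :=
  box_mk (TrL.c (I.pos (nat_lit 0) (nat_lit 0)) T0.l11
  (TrL.c (I.pos (nat_lit 0) (nat_lit 0)) T2.l1
  (TrL.c (I.pos (nat_lit 0) (nat_lit 89480386)) T0.l1
  (TrL.c (I.pos (nat_lit 0) (nat_lit 41530880)) T2.l2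
  (TrL.c (I.pos (nat_lit 0) (nat_lit 0)) T2.l11
  (TrL.c (I.pos (nat_lit 0) (nat_lit 0)) T0.l2
  (TrL.c (I.mix (nat_lit 41527258) (nat_lit 41530880)) T2.l4
  (TrL.c (I.mix (nat_lit 41527258) (nat_lit 4274)) T0.l3
  TrL.n)))))))) (by decide +kernel)
theorem bx0_11 : BoxOK sI cl6 cl6 cl13 t0 t2 b0_11 :=
  box_mk (TrL.c (I.pos (nat_lit 0) (nat_lit 0)) (xa (xb T0.l0 T0.l0) (xb T0.l0 T0.l0))
  (TrL.c (I.pos (nat_lit 0) (nat_lit 0)) T2.l1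
  (TrL.c (I.pos (nat_lit 0) (nat_lit 89480386)) T0.l1
  (TrL.c (I.pos (nat_lit 0) (nat_lit 41530880)) T2.l2
  (TrL.c (I.pos (nat_lit 0) (nat_lit 0)) (xa T2.l3 T2.l3)
  (TrL.c (I.pos (nat_lit 0) (nat_lit 0)) T0.l2
  (TrL.c (I.mix (nat_lit 41527258) (nat_lit 41530880)) T2.l6
  (TrL.c (I.mix (nat_lit 41527258) (nat_lit 4274)) T0.l3
  TrL.n)))))))) (by decide +kernel)
theorem sv0 : StarV sI cl6 cl6 cl13 t0 t2 t0 :=
  (bt_n (bt_n (bt_n (bt_b bx0_0) (bt_n (bt_b bx0_1) (bt_b bx0_2))) (bt_n (bt_b bx0_3) (bt_n (bt_b bx0_4) (bt_b bx0_5)))) (bt_n (bt_n (bt_b bx0_6) (bt_n (bt_b bx0_7) (bt_b bx0_8))) (bt_n (bt_b bx0_9) (bt_n (bt_b bx0_10) (bt_b bx0_11)))))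
def S0 : StarD := StarD.mk cl6 cl6 cl13 0 2 t0
theorem bx1_0 : BoxOK sI cl6 cl13 cl6 t2 t0 b1_0 :=
  box_mk (TrL.c (I.pos (nat_lit 0) (nat_lit 0)) (xa (xb (xa T2.l0 T2.l0) (xa (xb T2.l0 T2.l0) (xb T2.l0 T2.l0))) (xa (xb T2.l0 T2.l0) (xb T2.l0 T2.l0)))
  (TrL.c (I.pos (nat_lit 0) (nat_lit 0)) T0.l5
  (TrL.c (I.pos (nat_lit 0) (nat_lit 89480386)) T2.l6
  (TrL.c (I.pos (nat_lit 0) (nat_lit 41530880)) T0.l6
  (TrL.c (I.pos (nat_lit 0) (nat_lit 0)) (xa T0.l8 (xb T0.l8 T0.l8))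
  (TrL.c (I.pos (nat_lit 0) (nat_lit 0)) T2.l7
  (TrL.c (I.mix (nat_lit 41527258) (nat_lit 41530880)) T0.l1
  (TrL.c (I.mix (nat_lit 41527258) (nat_lit 4274)) T2.l8
  TrL.n)))))))) (by decide +kernel)
theorem bx1_1 : BoxOK sI cl6 cl13 cl6 t2 t0 b1_1 :=
  box_mk (TrL.c (I.pos (nat_lit 0) (nat_lit 0)) (xa (xb (xa T2.l9 T2.l9) (xa T2.l9 T2.l9)) (xb T2.l0 (xa T2.l0 T2.l0)))
  (TrL.c (I.pos (nat_lit 0) (nat_lit 0)) T0.l5
  (TrL.c (I.pos (nat_lit 0) (nat_lit 89480386)) T2.l6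
  (TrL.c (I.pos (nat_lit 0) (nat_lit 41530880)) T0.l6
  (TrL.c (I.pos (nat_lit 0) (nat_lit 0)) (xa T0.l9 (xb T0.l9 T0.l9))
  (TrL.c (I.pos (nat_lit 0) (nat_lit 0)) T2.l7
  (TrL.c (I.mix (nat_lit 41527258) (nat_lit 41530880)) T0.l1
  (TrL.c (I.mix (nat_lit 41527258) (nat_lit 4274)) T2.l8
  TrL.n)))))))) (by decide +kernel)
theorem bx1_2 : BoxOK sI cl6 cl13 cl6 t2 t0 b1_2 :=
  box_mk (TrL.c (I.pos (nat_lit 0) (nat_lit 0)) (xa T2.l9 (xa T2.l9 (xa T2.l9 T2.l9)))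
  (TrL.c (I.pos (nat_lit 0) (nat_lit 0)) (xa T0.l5 T0.l5)
  (TrL.c (I.pos (nat_lit 0) (nat_lit 89480386)) T2.l6
  (TrL.c (I.pos (nat_lit 0) (nat_lit 41530880)) T0.l6
  (TrL.c (I.pos (nat_lit 0) (nat_lit 0)) (xa T0.l9 T0.l9)
  (TrL.c (I.pos (nat_lit 0) (nat_lit 0)) T2.l7
  (TrL.c (I.mix (nat_lit 41527258) (nat_lit 41530880)) T0.l7
  (TrL.c (I.mix (nat_lit 41527258) (nat_lit 4274)) T2.l8
  TrL.n)))))))) (by decide +kernel)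
theorem bx1_3 : BoxOK sI cl6 cl13 cl6 t2 t0 b1_3 :=
  box_mk (TrL.c (I.pos (nat_lit 0) (nat_lit 0)) (xa (xa (xb T2.l9 T2.l9) T2.l9) T2.l9)
  (TrL.c (I.pos (nat_lit 0) (nat_lit 0)) (xa T0.l5 T0.l5)
  (TrL.c (I.pos (nat_lit 0) (nat_lit 89480386)) T2.l6
  (TrL.c (I.pos (nat_lit 0) (nat_lit 41530880)) T0.l6
  (TrL.c (I.pos (nat_lit 0) (nat_lit 0)) (xa T0.l9 T0.l9)
  (TrL.c (I.pos (nat_lit 0) (nat_lit 0)) T2.l7
  (TrL.c (I.mix (nat_lit 41527258) (nat_lit 41530880)) T0.l7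
  (TrL.c (I.mix (nat_lit 41527258) (nat_lit 4274)) T2.l8
  TrL.n)))))))) (by decide +kernel)
theorem bx1_4 : BoxOK sI cl6 cl13 cl6 t2 t0 b1_4 :=
  box_mk (TrL.c (I.pos (nat_lit 0) (nat_lit 0)) (xb (xa (xb T2.l10 T2.l10) (xb T2.l10 T2.l10)) (xa (xb T2.l10 T2.l10) (xb T2.l10 T2.l10)))
  (TrL.c (I.pos (nat_lit 0) (nat_lit 0)) T0.l5
  (TrL.c (I.pos (nat_lit 0) (nat_lit 89480386)) T2.l6
  (TrL.c (I.pos (nat_lit 0) (nat_lit 41530880)) T0.l6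
  (TrL.c (I.pos (nat_lit 0) (nat_lit 0)) (xb T0.l10 T0.l10)
  (TrL.c (I.pos (nat_lit 0) (nat_lit 0)) T2.l7
  (TrL.c (I.mix (nat_lit 41527258) (nat_lit 41530880)) T0.l1
  (TrL.c (I.mix (nat_lit 41527258) (nat_lit 4274)) T2.l8
  TrL.n)))))))) (by decide +kernel)
theorem bx1_5 : BoxOK sI cl6 cl13 cl6 t2 t0 b1_5 :=
  box_mk (TrL.c (I.pos (nat_lit 0) (nat_lit 0)) (xb (xa T2.l9 T2.l9) (xa T2.l9 T2.l9))
  (TrL.c (I.pos (nat_lit 0) (nat_lit 0)) T0.l5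
  (TrL.c (I.pos (nat_lit 0) (nat_lit 89480386)) T2.l6
  (TrL.c (I.pos (nat_lit 0) (nat_lit 41530880)) T0.l6
  (TrL.c (I.pos (nat_lit 0) (nat_lit 0)) T0.l9
  (TrL.c (I.pos (nat_lit 0) (nat_lit 0)) T2.l7
  (TrL.c (I.mix (nat_lit 41527258) (nat_lit 41530880)) T0.l7
  (TrL.c (I.mix (nat_lit 41527258) (nat_lit 4274)) T2.l8
  TrL.n)))))))) (by decide +kernel)
theorem bx1_6 : BoxOK sI cl6 cl13 cl6 t2 t0 b1_6 :=
  box_mk (TrL.c (I.pos (nat_lit 0) (nat_lit 0)) (xa (xa (xb T2.l9 (xa (xb T2.l9 T2.l9) T2.l9)) (xb T2.l9 (xa T2.l9 T2.l9))) (xa (xb T2.l9 T2.l9) (xb T2.l9 (xa T2.l9 T2.l9))))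
  (TrL.c (I.pos (nat_lit 0) (nat_lit 0)) (xa T0.l5 T0.l5)
  (TrL.c (I.pos (nat_lit 0) (nat_lit 89480386)) T2.l6
  (TrL.c (I.pos (nat_lit 0) (nat_lit 41530880)) T0.l6
  (TrL.c (I.pos (nat_lit 0) (nat_lit 0)) (xa T0.l9 T0.l9)
  (TrL.c (I.pos (nat_lit 0) (nat_lit 0)) T2.l7
  (TrL.c (I.mix (nat_lit 41527258) (nat_lit 41530880)) T0.l7
  (TrL.c (I.mix (nat_lit 41527258) (nat_lit 4274)) T2.l8
  TrL.n)))))))) (by decide +kernel)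
theorem bx1_7 : BoxOK sI cl6 cl13 cl6 t2 t0 b1_7 :=
  box_mk (TrL.c (I.pos (nat_lit 0) (nat_lit 0)) (xa T2.l9 T2.l9)
  (TrL.c (I.pos (nat_lit 0) (nat_lit 0)) (xa T0.l5 T0.l5)
  (TrL.c (I.pos (nat_lit 0) (nat_lit 89480386)) T2.l6
  (TrL.c (I.pos (nat_lit 0) (nat_lit 41530880)) T0.l6
  (TrL.c (I.pos (nat_lit 0) (nat_lit 0)) (xa T0.l9 T0.l9)
  (TrL.c (I.pos (nat_lit 0) (nat_lit 0)) T2.l7
  (TrL.c (I.mix (nat_lit 41527258) (nat_lit 41530880)) T0.l7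
  (TrL.c (I.mix (nat_lit 41527258) (nat_lit 4274)) T2.l8
  TrL.n)))))))) (by decide +kernel)
theorem bx1_8 : BoxOK sI cl6 cl13 cl6 t2 t0 b1_8 :=
  box_mk (TrL.c (I.pos (nat_lit 0) (nat_lit 0)) (xa (xb (xa T2.l0 T2.l0) (xa T2.l0 T2.l0)) (xb (xa T2.l0 T2.l0) (xa T2.l0 T2.l0)))
  (TrL.c (I.pos (nat_lit 0) (nat_lit 0)) T0.l5
  (TrL.c (I.pos (nat_lit 0) (nat_lit 89480386)) T2.l6
  (TrL.c (I.pos (nat_lit 0) (nat_lit 41530880)) T0.l6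
  (TrL.c (I.pos (nat_lit 0) (nat_lit 0)) (xa (xb T0.l8 T0.l8) (xb (xa T0.l8 T0.l8) (xa T0.l8 T0.l8)))
  (TrL.c (I.pos (nat_lit 0) (nat_lit 0)) T2.l7
  (TrL.c (I.mix (nat_lit 41527258) (nat_lit 41530880)) T0.l1
  (TrL.c (I.mix (nat_lit 41527258) (nat_lit 4274)) T2.l8
  TrL.n)))))))) (by decide +kernel)
theorem bx1_9 : BoxOK sI cl6 cl13 cl6 t2 t0 b1_9 :=
  box_mk (TrL.c (I.pos (nat_lit 0) (nat_lit 0)) (xa (xb T2.l0 T2.l0) T2.l0)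
  (TrL.c (I.pos (nat_lit 0) (nat_lit 0)) T0.l5
  (TrL.c (I.pos (nat_lit 0) (nat_lit 89480386)) T2.l6
  (TrL.c (I.pos (nat_lit 0) (nat_lit 41530880)) T0.l6
  (TrL.c (I.pos (nat_lit 0) (nat_lit 0)) (xa T0.l9 T0.l0)
  (TrL.c (I.pos (nat_lit 0) (nat_lit 0)) T2.l7
  (TrL.c (I.mix (nat_lit 41527258) (nat_lit 41530880)) T0.l1
  (TrL.c (I.mix (nat_lit 41527258) (nat_lit 4274)) T2.l8
  TrL.n)))))))) (by decide +kernel)
theorem bx1_10 : BoxOK sI cl6 cl13 cl6 t2 t0 b1_10 :=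
  box_mk (TrL.c (I.pos (nat_lit 0) (nat_lit 0)) (xa (xb T2.l0 T2.l0) (xb T2.l0 T2.l0))
  (TrL.c (I.pos (nat_lit 0) (nat_lit 0)) T0.l5
  (TrL.c (I.pos (nat_lit 0) (nat_lit 89480386)) T2.l6
  (TrL.c (I.pos (nat_lit 0) (nat_lit 41530880)) T0.l6
  (TrL.c (I.pos (nat_lit 0) (nat_lit 0)) T0.l8
  (TrL.c (I.pos (nat_lit 0) (nat_lit 0)) T2.l7
  (TrL.c (I.mix (nat_lit 41527258) (nat_lit 41530880)) T0.l1
  (TrL.c (I.mix (nat_lit 41527258) (nat_lit 4274)) T2.l8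
  TrL.n)))))))) (by decide +kernel)
theorem bx1_11 : BoxOK sI cl6 cl13 cl6 t2 t0 b1_11 :=
  box_mk (TrL.c (I.pos (nat_lit 0) (nat_lit 0)) (xb (xa T2.l10 T2.l10) (xa T2.l10 T2.l10))
  (TrL.c (I.pos (nat_lit 0) (nat_lit 0)) T0.l5
  (TrL.c (I.pos (nat_lit 0) (nat_lit 89480386)) T2.l6
  (TrL.c (I.pos (nat_lit 0) (nat_lit 41530880)) T0.l6
  (TrL.c (I.pos (nat_lit 0) (nat_lit 0)) T0.l10
  (TrL.c (I.pos (nat_lit 0) (nat_lit 0)) T2.l7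
  (TrL.c (I.mix (nat_lit 41527258) (nat_lit 41530880)) T0.l1
  (TrL.c (I.mix (nat_lit 41527258) (nat_lit 4274)) T2.l8
  TrL.n)))))))) (by decide +kernel)
theorem sv1 : StarV sI cl6 cl13 cl6 t2 t0 t1 :=
  (bt_n (bt_n (bt_n (bt_b bx1_0) (bt_n (bt_b bx1_1) (bt_b bx1_2))) (bt_n (bt_b bx1_3) (bt_n (bt_b bx1_4) (bt_b bx1_5)))) (bt_n (bt_n (bt_b bx1_6) (bt_n (bt_b bx1_7) (bt_b bx1_8))) (bt_n (bt_b bx1_9) (bt_n (bt_b bx1_10) (bt_b bx1_11)))))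
def S1 : StarD := StarD.mk cl6 cl13 cl6 2 0 t1
theorem bx2_0 : BoxOK sI cl13 cl6 cl6 t1 t1 b2_0 :=
  box_mk (TrL.c (I.pos (nat_lit 0) (nat_lit 0)) (xa (xb (xa T1.l0 T1.l0) (xa (xb T1.l0 (xa T1.l0 T1.l0)) (xb T1.l0 T1.l0))) (xb (xa T1.l0 T1.l0) (xa (xb T1.l0 T1.l0) T1.l0)))
  (TrL.c (I.pos (nat_lit 0) (nat_lit 0)) T1.l1
  (TrL.c (I.pos (nat_lit 0) (nat_lit 134217730)) (xR T1.l2 T1.l6)
  (TrL.c (I.pos (nat_lit 0) (nat_lit 110514882)) (xR T1.l3 T1.l3)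
  (TrL.c (I.pos (nat_lit 0) (nat_lit 0)) (xa (xb T1.l4 T1.l4) (xb (xk T1.l4 T1.l4) (xk T1.l4 (xa T1.l4 T1.l4))))
  (TrL.c (I.pos (nat_lit 0) (nat_lit 0)) T1.l5
  (TrL.c (I.mix (nat_lit 8088324) (nat_lit 110514882)) T1.l6
  (TrL.c (I.mix (nat_lit 8088324) (nat_lit 89478486)) T1.l7
  TrL.n)))))))) (by decide +kernel)
theorem bx2_1 : BoxOK sI cl13 cl6 cl6 t1 t1 b2_1 :=
  box_mk (TrL.c (I.pos (nat_lit 0) (nat_lit 0)) (xa (xb T1.l8 T1.l8) (xb T1.l0 T1.l8))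
  (TrL.c (I.pos (nat_lit 0) (nat_lit 0)) T1.l1
  (TrL.c (I.pos (nat_lit 0) (nat_lit 134217730)) (xR T1.l2 T1.l2)
  (TrL.c (I.pos (nat_lit 0) (nat_lit 110514882)) T1.l3
  (TrL.c (I.pos (nat_lit 0) (nat_lit 0)) (xa T1.l9 (xk T1.l9 T1.l9))
  (TrL.c (I.pos (nat_lit 0) (nat_lit 0)) T1.l5
  (TrL.c (I.mix (nat_lit 8088324) (nat_lit 110514882)) T1.l6
  (TrL.c (I.mix (nat_lit 8088324) (nat_lit 89478486)) T1.l7
  TrL.n)))))))) (by decide +kernel)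
theorem bx2_2 : BoxOK sI cl13 cl6 cl6 t1 t1 b2_2 :=
  box_mk (TrL.c (I.pos (nat_lit 0) (nat_lit 0)) T1.l8
  (TrL.c (I.pos (nat_lit 0) (nat_lit 0)) T1.l1
  (TrL.c (I.pos (nat_lit 0) (nat_lit 134217730)) T1.l2
  (TrL.c (I.pos (nat_lit 0) (nat_lit 110514882)) T1.l3
  (TrL.c (I.pos (nat_lit 0) (nat_lit 0)) T1.l9
  (TrL.c (I.pos (nat_lit 0) (nat_lit 0)) T1.l5
  (TrL.c (I.mix (nat_lit 8088324) (nat_lit 110514882)) T1.l6
  (TrL.c (I.mix (nat_lit 8088324) (nat_lit 89478486)) T1.l2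
  TrL.n)))))))) (by decide +kernel)
theorem bx2_3 : BoxOK sI cl13 cl6 cl6 t1 t1 b2_3 :=
  box_mk (TrL.c (I.pos (nat_lit 0) (nat_lit 0)) (xb (xa T1.l10 T1.l10) (xa (xb T1.l10 T1.l10) (xb T1.l10 T1.l10)))
  (TrL.c (I.pos (nat_lit 0) (nat_lit 0)) T1.l1
  (TrL.c (I.pos (nat_lit 0) (nat_lit 134217730)) (xR T1.l2 T1.l6)
  (TrL.c (I.pos (nat_lit 0) (nat_lit 110514882)) T1.l3
  (TrL.c (I.pos (nat_lit 0) (nat_lit 0)) (xk (xb T1.l11 T1.l11) (xb T1.l11 T1.l11))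
  (TrL.c (I.pos (nat_lit 0) (nat_lit 0)) T1.l5
  (TrL.c (I.mix (nat_lit 8088324) (nat_lit 110514882)) T1.l6
  (TrL.c (I.mix (nat_lit 8088324) (nat_lit 89478486)) T1.l7
  TrL.n)))))))) (by decide +kernel)
theorem bx2_4 : BoxOK sI cl13 cl6 cl6 t1 t1 b2_4 :=
  box_mk (TrL.c (I.pos (nat_lit 0) (nat_lit 0)) (xa (xb T1.l8 (xa (xa T1.l8 T1.l8) T1.l8)) (xa T1.l8 T1.l8))
  (TrL.c (I.pos (nat_lit 0) (nat_lit 0)) T1.l1
  (TrL.c (I.pos (nat_lit 0) (nat_lit 134217730)) T1.l2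
  (TrL.c (I.pos (nat_lit 0) (nat_lit 110514882)) T1.l3
  (TrL.c (I.pos (nat_lit 0) (nat_lit 0)) (xa T1.l1 T1.l9)
  (TrL.c (I.pos (nat_lit 0) (nat_lit 0)) T1.l5
  (TrL.c (I.mix (nat_lit 8088324) (nat_lit 110514882)) T1.l6
  (TrL.c (I.mix (nat_lit 8088324) (nat_lit 89478486)) T1.l2
  TrL.n)))))))) (by decide +kernel)
theorem bx2_5 : BoxOK sI cl13 cl6 cl6 t1 t1 b2_5 :=
  box_mk (TrL.c (I.pos (nat_lit 0) (nat_lit 0)) (xa (xb T1.l0 T1.l0) T1.l0)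
  (TrL.c (I.pos (nat_lit 0) (nat_lit 0)) T1.l1
  (TrL.c (I.pos (nat_lit 0) (nat_lit 134217730)) (xR T1.l2 T1.l2)
  (TrL.c (I.pos (nat_lit 0) (nat_lit 110514882)) T1.l3
  (TrL.c (I.pos (nat_lit 0) (nat_lit 0)) (xk (xa T1.l11 T1.l11) (xa T1.l11 T1.l11))
  (TrL.c (I.pos (nat_lit 0) (nat_lit 0)) T1.l5
  (TrL.c (I.mix (nat_lit 8088324) (nat_lit 110514882)) T1.l6
  (TrL.c (I.mix (nat_lit 8088324) (nat_lit 89478486)) T1.l7
  TrL.n)))))))) (by decide +kernel)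
theorem bx2_6 : BoxOK sI cl13 cl6 cl6 t1 t1 b2_6 :=
  box_mk (TrL.c (I.pos (nat_lit 0) (nat_lit 0)) (xa (xa (xb (xa T1.l8 T1.l8) (xa (xb T1.l8 T1.l8) T1.l8)) (xb T1.l8 T1.l8)) (xa T1.l8 (xb T1.l8 (xa T1.l8 T1.l8))))
  (TrL.c (I.pos (nat_lit 0) (nat_lit 0)) T1.l1
  (TrL.c (I.pos (nat_lit 0) (nat_lit 134217730)) (xR T1.l2 T1.l2)
  (TrL.c (I.pos (nat_lit 0) (nat_lit 110514882)) T1.l3
  (TrL.c (I.pos (nat_lit 0) (nat_lit 0)) (xa T1.l1 T1.l9)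
  (TrL.c (I.pos (nat_lit 0) (nat_lit 0)) T1.l5
  (TrL.c (I.mix (nat_lit 8088324) (nat_lit 110514882)) T1.l6
  (TrL.c (I.mix (nat_lit 8088324) (nat_lit 89478486)) T1.l3
  TrL.n)))))))) (by decide +kernel)
theorem bx2_7 : BoxOK sI cl13 cl6 cl6 t1 t1 b2_7 :=
  box_mk (TrL.c (I.pos (nat_lit 0) (nat_lit 0)) (xb T1.l8 T1.l8)
  (TrL.c (I.pos (nat_lit 0) (nat_lit 0)) T1.l1
  (TrL.c (I.pos (nat_lit 0) (nat_lit 134217730)) (xR T1.l2 T1.l2)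
  (TrL.c (I.pos (nat_lit 0) (nat_lit 110514882)) T1.l3
  (TrL.c (I.pos (nat_lit 0) (nat_lit 0)) (xb T1.l9 T1.l9)
  (TrL.c (I.pos (nat_lit 0) (nat_lit 0)) T1.l5
  (TrL.c (I.mix (nat_lit 8088324) (nat_lit 110514882)) T1.l6
  (TrL.c (I.mix (nat_lit 8088324) (nat_lit 89478486)) T1.l7
  TrL.n)))))))) (by decide +kernel)
theorem bx2_8 : BoxOK sI cl13 cl6 cl6 t1 t1 b2_8 :=
  box_mk (TrL.c (I.pos (nat_lit 0) (nat_lit 0)) (xa (xb (xa T1.l8 T1.l8) T1.l8) T1.l8)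
  (TrL.c (I.pos (nat_lit 0) (nat_lit 0)) T1.l1
  (TrL.c (I.pos (nat_lit 0) (nat_lit 134217730)) T1.l2
  (TrL.c (I.pos (nat_lit 0) (nat_lit 110514882)) T1.l6
  (TrL.c (I.pos (nat_lit 0) (nat_lit 0)) T1.l1
  (TrL.c (I.pos (nat_lit 0) (nat_lit 0)) T1.l5
  (TrL.c (I.mix (nat_lit 8088324) (nat_lit 110514882)) T1.l6
  (TrL.c (I.mix (nat_lit 8088324) (nat_lit 89478486)) T1.l2
  TrL.n)))))))) (by decide +kernel)
theorem bx2_9 : BoxOK sI cl13 cl6 cl6 t1 t1 b2_9 :=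
  box_mk (TrL.c (I.pos (nat_lit 0) (nat_lit 0)) (xa (xb (xa T1.l0 T1.l0) (xa T1.l0 T1.l0)) (xb (xa T1.l0 T1.l0) (xa T1.l0 T1.l0)))
  (TrL.c (I.pos (nat_lit 0) (nat_lit 0)) T1.l1
  (TrL.c (I.pos (nat_lit 0) (nat_lit 134217730)) (xR T1.l2 T1.l6)
  (TrL.c (I.pos (nat_lit 0) (nat_lit 110514882)) (xR T1.l3 T1.l3)
  (TrL.c (I.pos (nat_lit 0) (nat_lit 0)) (xa (xb (xk (xa T1.l4 T1.l4) (xa T1.l4 T1.l4)) (xk T1.l4 T1.l4)) (xb (xk (xa (xb T1.l4 T1.l4) (xb (xk T1.l4 T1.l4) (xk T1.l4 T1.l4))) (xa (xb T1.l4 T1.l4) (xb (xk T1.l4 T1.l4) T1.l4))) (xk (xa (xb T1.l4 T1.l4) (xb (xk T1.l4 T1.l4) (xk T1.l4 T1.l4))) (xa (xb T1.l4 T1.l4) (xb (xk T1.l4 T1.l4) (xk T1.l4 T1.l4))))))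
  (TrL.c (I.pos (nat_lit 0) (nat_lit 0)) (xk T1.l5 T1.l5)
  (TrL.c (I.mix (nat_lit 8088324) (nat_lit 110514882)) (xR T1.l6 T1.l6)
  (TrL.c (I.mix (nat_lit 8088324) (nat_lit 89478486)) T1.l7
  TrL.n)))))))) (by decide +kernel)
theorem bx2_10 : BoxOK sI cl13 cl6 cl6 t1 t1 b2_10 :=
  box_mk (TrL.c (I.pos (nat_lit 0) (nat_lit 0)) (xa (xb T1.l0 T1.l0) (xb T1.l0 T1.l0))
  (TrL.c (I.pos (nat_lit 0) (nat_lit 0)) T1.l1
  (TrL.c (I.pos (nat_lit 0) (nat_lit 134217730)) (xR T1.l2 T1.l6)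
  (TrL.c (I.pos (nat_lit 0) (nat_lit 110514882)) T1.l3
  (TrL.c (I.pos (nat_lit 0) (nat_lit 0)) (xk (xb T1.l4 T1.l4) (xb T1.l11 T1.l4))
  (TrL.c (I.pos (nat_lit 0) (nat_lit 0)) T1.l5
  (TrL.c (I.mix (nat_lit 8088324) (nat_lit 110514882)) T1.l6
  (TrL.c (I.mix (nat_lit 8088324) (nat_lit 89478486)) T1.l7
  TrL.n)))))))) (by decide +kernel)
theorem bx2_11 : BoxOK sI cl13 cl6 cl6 t1 t1 b2_11 :=
  box_mk (TrL.c (I.pos (nat_lit 0) (nat_lit 0)) (xa (xb T1.l10 T1.l10) T1.l10)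
  (TrL.c (I.pos (nat_lit 0) (nat_lit 0)) T1.l1
  (TrL.c (I.pos (nat_lit 0) (nat_lit 134217730)) (xR T1.l2 T1.l2)
  (TrL.c (I.pos (nat_lit 0) (nat_lit 110514882)) T1.l3
  (TrL.c (I.pos (nat_lit 0) (nat_lit 0)) (xk T1.l11 T1.l11)
  (TrL.c (I.pos (nat_lit 0) (nat_lit 0)) T1.l5
  (TrL.c (I.mix (nat_lit 8088324) (nat_lit 110514882)) T1.l6
  (TrL.c (I.mix (nat_lit 8088324) (nat_lit 89478486)) T1.l7
  TrL.n)))))))) (by decide +kernel)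
theorem sv2 : StarV sI cl13 cl6 cl6 t1 t1 t2 :=
  (bt_n (bt_n (bt_n (bt_b bx2_0) (bt_n (bt_b bx2_1) (bt_b bx2_2))) (bt_n (bt_b bx2_3) (bt_n (bt_b bx2_4) (bt_b bx2_5)))) (bt_n (bt_n (bt_b bx2_6) (bt_n (bt_b bx2_7) (bt_b bx2_8))) (bt_n (bt_b bx2_9) (bt_n (bt_b bx2_10) (bt_b bx2_11)))))
def S2 : StarD := StarD.mk cl13 cl6 cl6 1 1 t2
def G : List StarD := [S0, S1, S2]
theorem so0 : StarOK sI G S0 :=
  star_mk (by decide) (by decide) rfl rfl rfl rfl rfl rfl (rfl : _ = t0) (rfl : _ = t2)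
  (st_mk (Pth.l (Pth.l (Pth.l Pth.z))) (nat_lit 189763166) (nat_lit 190393802) (by decide +kernel))
  (st_mk (Pth.l (Pth.l (Pth.l Pth.z))) (nat_lit 226197759) (nat_lit 227097804) (by decide +kernel))
  (st_mk (Pth.l (Pth.l (Pth.l Pth.z))) (nat_lit 268591752) (nat_lit 269870302) (by decide +kernel)) sv0
theorem so1 : StarOK sI G S1 :=
  star_mk (by decide) (by decide) rfl rfl rfl rfl rfl rfl (rfl : _ = t2) (rfl : _ = t0)
  (st_mk (Pth.l (Pth.l (Pth.l Pth.z))) (nat_lit 97156977) (nat_lit 115856513) (by decide +kernel))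
  (st_mk (Pth.l (Pth.l (Pth.l Pth.z))) (nat_lit 133208736) (nat_lit 152212500) (by decide +kernel))
  (st_mk (Pth.l (Pth.l (Pth.l Pth.z))) (nat_lit 175275851) (nat_lit 194687225) (by decide +kernel)) sv1
theorem so2 : StarOK sI G S2 :=
  star_mk (by decide) (by decide) rfl rfl rfl rfl rfl rfl (rfl : _ = t1) (rfl : _ = t1)
  (st_mk (Pth.l (Pth.l (Pth.l Pth.z))) (nat_lit 185843017) (nat_lit 187351615) (by decide +kernel))
  (st_mk (Pth.l (Pth.l (Pth.l Pth.z))) (nat_lit 220739626) (nat_lit 222647769) (by decide +kernel))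
  (st_mk (Pth.l (Pth.l (Pth.l Pth.z))) (nat_lit 261004945) (nat_lit 263460959) (by decide +kernel)) sv2
theorem ok : GroupOK (nat_lit 209321984) (nat_lit 268435456) G := grp_mk (allS_c so0 (allS_c so1 (allS_c so2 allS_n)))
theorem cov : GCov G cl6 cl6 cl13 := cov_mk
  ⟨0, by decide, rfl, rfl, rfl⟩ ⟨1, by decide, rfl, rfl, rfl⟩ ⟨0, by decide, rfl, rfl, rfl⟩ ⟨1, by decide, rfl, rfl, rfl⟩ ⟨2, by decide, rfl, rfl, rfl⟩ ⟨2, by decide, rfl, rfl, rfl⟩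
end Q336_3

namespace Q344_0
def sI : I := I.pos (nat_lit 0) (nat_lit 91291648)
def b0_0 : Bx := Bx.mk (St.mk (I.pos (nat_lit 156942336) (nat_lit 283738112)) (I.mix (nat_lit 29343744) (nat_lit 67846144)) (I.mix (nat_lit 88276992) (nat_lit 104595456)) (I.pos (nat_lit 136675328) (nat_lit 369410048)) (I.mix (nat_lit 115441664) (nat_lit 82558976)) (I.mix (nat_lit 111689728) (nat_lit 81346560)) (I.mix (nat_lit 168345600) (nat_lit 105873408)))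
  false (nat_lit 0)
def b0_1 : Bx := Bx.mk (St.mk (I.mix (nat_lit 22151168) (nat_lit 120815616)) (I.mix (nat_lit 9830400) (nat_lit 34373632)) (I.mix (nat_lit 17743872) (nat_lit 19791872)) (I.pos (nat_lit 41140224) (nat_lit 116686848)) (I.mix (nat_lit 34488320) (nat_lit 32817152)) (I.mix (nat_lit 39485440) (nat_lit 25575424)) (I.mix (nat_lit 28803072) (nat_lit 17809408)))
  false (nat_lit 0)
def b0_2 : Bx := Bx.mk (St.mk (I.pos (nat_lit 93503488) (nat_lit 145326080)) (I.mix (nat_lit 61784064) (nat_lit 9027584)) (I.mix (nat_lit 62193664) (nat_lit 540672)) (I.pos (nat_lit 78905344) (nat_lit 141328384)) (I.mix (nat_lit 91013120) (nat_lit 32047104)) (I.mix (nat_lit 54165504) (nat_lit 99500032)) (I.mix (nat_lit 40222720) (nat_lit 76660736)))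
  false (nat_lit 0)
def b0_3 : Bx := Bx.mk (St.mk (I.mix (nat_lit 36274176) (nat_lit 69222400)) (I.mix (nat_lit 30556160) (nat_lit 6029312)) (I.mix (nat_lit 18038784) (nat_lit 1589248)) (I.pos (nat_lit 42237952) (nat_lit 81231872)) (I.mix (nat_lit 32325632) (nat_lit 15630336)) (I.mix (nat_lit 20987904) (nat_lit 31768576)) (I.mix (nat_lit 9289728) (nat_lit 12910592)))
  false (nat_lit 0)
def b0_4 : Bx := Bx.mk (St.mk (I.pos (nat_lit 100368384) (nat_lit 174669824)) (I.mix (nat_lit 68370432) (nat_lit 311296)) (I.mix (nat_lit 68534272) (nat_lit 589824)) (I.pos (nat_lit 97239040) (nat_lit 178126848)) (I.mix (nat_lit 88424448) (nat_lit 51625984)) (I.mix (nat_lit 49446912) (nat_lit 81330176)) (I.mix (nat_lit 39796736) (nat_lit 79790080)))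
  false (nat_lit 0)
def b0_5 : Bx := Bx.mk (St.mk (I.mix (nat_lit 22233088) (nat_lit 84230144)) (I.mix (nat_lit 33570816) (nat_lit 4341760)) (I.mix (nat_lit 21626880) (nat_lit 2588672)) (I.pos (nat_lit 41713664) (nat_lit 90030080)) (I.mix (nat_lit 32260096) (nat_lit 26624000)) (I.mix (nat_lit 22429696) (nat_lit 37142528)) (I.mix (nat_lit 13074432) (nat_lit 20217856)))
  false (nat_lit 0)
def b0_6 : Bx := Bx.mk (St.mk (I.mix (nat_lit 36782080) (nat_lit 108609536)) (I.mix (nat_lit 13565952) (nat_lit 38912000)) (I.mix (nat_lit 10829824) (nat_lit 23724032)) (I.pos (nat_lit 41222144) (nat_lit 105857024)) (I.mix (nat_lit 45252608) (nat_lit 26034176)) (I.mix (nat_lit 55230464) (nat_lit 33193984)) (I.mix (nat_lit 31260672) (nat_lit 19333120)))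
  false (nat_lit 0)
def b0_7 : Bx := Bx.mk (St.mk (I.pos (nat_lit 144932864) (nat_lit 223363072)) (I.mix (nat_lit 42369024) (nat_lit 75448320)) (I.mix (nat_lit 43859968) (nat_lit 109674496)) (I.pos (nat_lit 130023424) (nat_lit 247726080)) (I.mix (nat_lit 148193280) (nat_lit 67682304)) (I.mix (nat_lit 183435264) (nat_lit 107773952)) (I.mix (nat_lit 204537856) (nat_lit 113410048)))
  false (nat_lit 0)
def t0 : BTr := (BTr.n (BTr.n (BTr.n (BTr.b b0_0) (BTr.b b0_1)) (BTr.n (BTr.b b0_2) (BTr.b b0_3))) (BTr.n (BTr.n (BTr.b b0_4) (BTr.b b0_5)) (BTr.n (BTr.b b0_6) (BTr.b b0_7))))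
namespace T0
def l0 : Tr := Tr.L (Pth.l (Pth.l (Pth.l Pth.z)))
def l1 : Tr := Tr.L (Pth.l (Pth.l (Pth.r Pth.z)))
def l2 : Tr := Tr.L (Pth.l (Pth.r (Pth.l Pth.z)))
def l3 : Tr := Tr.L (Pth.l (Pth.r (Pth.r Pth.z)))
def l4 : Tr := Tr.L (Pth.r (Pth.l (Pth.l Pth.z)))
def l5 : Tr := Tr.L (Pth.r (Pth.l (Pth.r Pth.z)))
def l6 : Tr := Tr.L (Pth.r (Pth.r (Pth.l Pth.z)))
def l7 : Tr := Tr.L (Pth.r (Pth.r (Pth.r Pth.z)))
end T0
def b1_0 : Bx := Bx.mk (St.mk (I.pos (nat_lit 156942336) (nat_lit 283885568)) (I.mix (nat_lit 26968064) (nat_lit 70647808)) (I.mix (nat_lit 83410944) (nat_lit 110542848)) (I.pos (nat_lit 180551680) (nat_lit 391462912)) (I.mix (nat_lit 122404864) (nat_lit 88031232)) (I.mix (nat_lit 126812160) (nat_lit 83722240)) (I.mix (nat_lit 188006400) (nat_lit 114884608)))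
  false (nat_lit 31461849)
def b1_1 : Bx := Bx.mk (St.mk (I.pos (nat_lit 94748672) (nat_lit 163708928)) (I.neg (nat_lit 6340608) (nat_lit 69042176)) (I.mix (nat_lit 62095360) (nat_lit 3096576)) (I.pos (nat_lit 130596864) (nat_lit 189890560)) (I.mix (nat_lit 80199680) (nat_lit 49643520)) (I.mix (nat_lit 42778624) (nat_lit 73859072)) (I.mix (nat_lit 37355520) (nat_lit 65191936)))
  false (nat_lit 0)
def b1_2 : Bx := Bx.mk (St.mk (I.mix (nat_lit 28622848) (nat_lit 98107392)) (I.mix (nat_lit 8945664) (nat_lit 40681472)) (I.mix (nat_lit 16367616) (nat_lit 18137088)) (I.pos (nat_lit 82526208) (nat_lit 124600320)) (I.mix (nat_lit 36421632) (nat_lit 38174720)) (I.mix (nat_lit 45973504) (nat_lit 29949952)) (I.mix (nat_lit 29065216) (nat_lit 18956288)))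
  false (nat_lit 0)
def b1_3 : Bx := Bx.mk (St.mk (I.mix (nat_lit 28835840) (nat_lit 47857664)) (I.mix (nat_lit 35127296) (nat_lit 5931008)) (I.mix (nat_lit 12681216) (nat_lit 3637248)) (I.pos (nat_lit 82837504) (nat_lit 99745792)) (I.mix (nat_lit 26411008) (nat_lit 29507584)) (I.mix (nat_lit 22806528) (nat_lit 36274176)) (I.mix (nat_lit 9617408) (nat_lit 12795904)))
  false (nat_lit 0)
def b1_4 : Bx := Bx.mk (St.mk (I.pos (nat_lit 140345344) (nat_lit 214384640)) (I.mix (nat_lit 40370176) (nat_lit 73842688)) (I.mix (nat_lit 35586048) (nat_lit 105775104)) (I.pos (nat_lit 166952960) (nat_lit 256819200)) (I.mix (nat_lit 143097856) (nat_lit 68370432)) (I.mix (nat_lit 165724160) (nat_lit 95371264)) (I.mix (nat_lit 168493056) (nat_lit 92061696)))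
  false (nat_lit 12339684)
def b1_5 : Bx := Bx.mk (St.mk (I.pos (nat_lit 80707584) (nat_lit 127074304)) (I.mix (nat_lit 62504960) (nat_lit 10010624)) (I.neg (nat_lit 737280) (nat_lit 54607872)) (I.pos (nat_lit 114130944) (nat_lit 148848640)) (I.mix (nat_lit 79708160) (nat_lit 31916032)) (I.mix (nat_lit 48627712) (nat_lit 83378176)) (I.mix (nat_lit 34816000) (nat_lit 57802752)))
  false (nat_lit 0)
def b1_6 : Bx := Bx.mk (St.mk (I.mix (nat_lit 49135616) (nat_lit 72515584)) (I.mix (nat_lit 10502144) (nat_lit 37568512)) (I.mix (nat_lit 12681216) (nat_lit 14581760)) (I.pos (nat_lit 82837504) (nat_lit 109363200)) (I.mix (nat_lit 37306368) (nat_lit 26411008)) (I.mix (nat_lit 43384832) (nat_lit 24313856)) (I.mix (nat_lit 15925248) (nat_lit 12795904)))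
  false (nat_lit 0)
def b1_7 : Bx := Bx.mk (St.mk (I.mix (nat_lit 46661632) (nat_lit 27770880)) (I.mix (nat_lit 34766848) (nat_lit 5062656)) (I.mix (nat_lit 10108928) (nat_lit 4603904)) (I.pos (nat_lit 83214336) (nat_lit 99467264)) (I.mix (nat_lit 32112640) (nat_lit 22495232)) (I.mix (nat_lit 22609920) (nat_lit 36536320)) (I.mix (nat_lit 13189120) (nat_lit 8388608)))
  false (nat_lit 0)
def t1 : BTr := (BTr.n (BTr.n (BTr.n (BTr.b b1_0) (BTr.b b1_1)) (BTr.n (BTr.b b1_2) (BTr.b b1_3))) (BTr.n (BTr.n (BTr.b b1_4) (BTr.b b1_5)) (BTr.n (BTr.b b1_6) (BTr.b b1_7))))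
namespace T1
def l0 : Tr := Tr.L (Pth.l (Pth.l (Pth.l Pth.z)))
def l1 : Tr := Tr.L (Pth.l (Pth.l (Pth.r Pth.z)))
def l2 : Tr := Tr.L (Pth.l (Pth.r (Pth.l Pth.z)))
def l3 : Tr := Tr.L (Pth.l (Pth.r (Pth.r Pth.z)))
def l4 : Tr := Tr.L (Pth.r (Pth.l (Pth.l Pth.z)))
def l5 : Tr := Tr.L (Pth.r (Pth.l (Pth.r Pth.z)))
def l6 : Tr := Tr.L (Pth.r (Pth.r (Pth.l Pth.z)))
def l7 : Tr := Tr.L (Pth.r (Pth.r (Pth.r Pth.z)))
end T1
def b2_0 : Bx := Bx.mk (St.mk (I.pos (nat_lit 156942336) (nat_lit 283525120)) (I.mix (nat_lit 25083904) (nat_lit 62324736)) (I.mix (nat_lit 59506688) (nat_lit 112377856)) (I.pos (nat_lit 136216576) (nat_lit 364953600)) (I.mix (nat_lit 120258560) (nat_lit 86589440)) (I.mix (nat_lit 127172608) (nat_lit 83460096)) (I.mix (nat_lit 195395584) (nat_lit 107020288)))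
  false (nat_lit 19622821)
def b2_1 : Bx := Bx.mk (St.mk (I.pos (nat_lit 104235008) (nat_lit 175964160)) (I.neg (nat_lit 2883584) (nat_lit 68452352)) (I.mix (nat_lit 61964288) (nat_lit 7733248)) (I.pos (nat_lit 99811328) (nat_lit 178929664)) (I.mix (nat_lit 82673664) (nat_lit 45416448)) (I.mix (nat_lit 46448640) (nat_lit 71090176)) (I.mix (nat_lit 38125568) (nat_lit 66699264)))
  false (nat_lit 0)
def b2_2 : Bx := Bx.mk (St.mk (I.mix (nat_lit 20922368) (nat_lit 85442560)) (I.mix (nat_lit 33439744) (nat_lit 3735552)) (I.mix (nat_lit 17022976) (nat_lit 6979584)) (I.pos (nat_lit 41959424) (nat_lit 90292224)) (I.mix (nat_lit 28934144) (nat_lit 24903680)) (I.mix (nat_lit 21823488) (nat_lit 31047680)) (I.mix (nat_lit 12173312) (nat_lit 16678912)))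
  false (nat_lit 0)
def b2_3 : Bx := Bx.mk (St.mk (I.pos (nat_lit 146702336) (nat_lit 219299840)) (I.mix (nat_lit 39927808) (nat_lit 71696384)) (I.mix (nat_lit 32980992) (nat_lit 114098176)) (I.pos (nat_lit 131842048) (nat_lit 236470272)) (I.mix (nat_lit 153223168) (nat_lit 62259200)) (I.mix (nat_lit 188121088) (nat_lit 100352000)) (I.mix (nat_lit 214040576) (nat_lit 104103936)))
  false (nat_lit 6218057)
def b2_4 : Bx := Bx.mk (St.mk (I.mix (nat_lit 37470208) (nat_lit 107167744)) (I.mix (nat_lit 12713984) (nat_lit 39354368)) (I.mix (nat_lit 6029312) (nat_lit 29278208)) (I.pos (nat_lit 41009152) (nat_lit 104710144)) (I.mix (nat_lit 49922048) (nat_lit 23101440)) (I.mix (nat_lit 52838400) (nat_lit 33259520)) (I.mix (nat_lit 30261248) (nat_lit 20283392)))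
  false (nat_lit 0)
def b2_5 : Bx := Bx.mk (St.mk (I.mix (nat_lit 23740416) (nat_lit 119914496)) (I.mix (nat_lit 8306688) (nat_lit 33701888)) (I.mix (nat_lit 10354688) (nat_lit 25329664)) (I.pos (nat_lit 40796160) (nat_lit 115687424)) (I.mix (nat_lit 37765120) (nat_lit 33964032)) (I.mix (nat_lit 46268416) (nat_lit 26132480)) (I.mix (nat_lit 33849344) (nat_lit 19611648)))
  false (nat_lit 0)
def b2_6 : Bx := Bx.mk (St.mk (I.pos (nat_lit 94027776) (nat_lit 148013056)) (I.mix (nat_lit 62832640) (nat_lit 9584640)) (I.mix (nat_lit 55853056) (nat_lit 6979584)) (I.pos (nat_lit 79609856) (nat_lit 143376384)) (I.mix (nat_lit 87638016) (nat_lit 33505280)) (I.mix (nat_lit 55443456) (nat_lit 96550912)) (I.mix (nat_lit 41107456) (nat_lit 72024064)))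
  false (nat_lit 0)
def b2_7 : Bx := Bx.mk (St.mk (I.mix (nat_lit 35340288) (nat_lit 70451200)) (I.mix (nat_lit 30507008) (nat_lit 4751360)) (I.mix (nat_lit 13910016) (nat_lit 5226496)) (I.pos (nat_lit 42106880) (nat_lit 81723392)) (I.mix (nat_lit 30081024) (nat_lit 16646144)) (I.mix (nat_lit 20938752) (nat_lit 35602432)) (I.mix (nat_lit 8994816) (nat_lit 13713408)))
  false (nat_lit 0)
def t2 : BTr := (BTr.n (BTr.n (BTr.n (BTr.b b2_0) (BTr.b b2_1)) (BTr.n (BTr.b b2_2) (BTr.b b2_3))) (BTr.n (BTr.n (BTr.b b2_4) (BTr.b b2_5)) (BTr.n (BTr.b b2_6) (BTr.b b2_7))))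
namespace T2
def l0 : Tr := Tr.L (Pth.l (Pth.l (Pth.l Pth.z)))
def l1 : Tr := Tr.L (Pth.l (Pth.l (Pth.r Pth.z)))
def l2 : Tr := Tr.L (Pth.l (Pth.r (Pth.l Pth.z)))
def l3 : Tr := Tr.L (Pth.l (Pth.r (Pth.r Pth.z)))
def l4 : Tr := Tr.L (Pth.r (Pth.l (Pth.l Pth.z)))
def l5 : Tr := Tr.L (Pth.r (Pth.l (Pth.r Pth.z)))
def l6 : Tr := Tr.L (Pth.r (Pth.r (Pth.l Pth.z)))
def l7 : Tr := Tr.L (Pth.r (Pth.r (Pth.r Pth.z)))
end T2
theorem bx0_0 : BoxOK sI cl6 cl7 cl7 t1 t1 b0_0 :=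
  box_mk (TrL.c (I.pos (nat_lit 0) (nat_lit 0)) (xa (xb T1.l0 T1.l0) T1.l0)
  (TrL.c (I.pos (nat_lit 0) (nat_lit 0)) T1.l1
  (TrL.c (I.pos (nat_lit 0) (nat_lit 89480386)) (xR T1.l2 T1.l2)
  (TrL.c (I.pos (nat_lit 0) (nat_lit 41530880)) T1.l3
  (TrL.c (I.pos (nat_lit 0) (nat_lit 0)) (xa T1.l4 (xb T1.l4 T1.l4))
  (TrL.c (I.pos (nat_lit 0) (nat_lit 0)) T1.l5
  (TrL.c (I.mix (nat_lit 41527258) (nat_lit 41530880)) (xR T1.l6 T1.l2)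
  (TrL.c (I.mix (nat_lit 41527258) (nat_lit 4274)) T1.l7
  TrL.n)))))))) (by decide +kernel)
theorem bx0_1 : BoxOK sI cl6 cl7 cl7 t1 t1 b0_1 :=
  box_mk (TrL.c (I.pos (nat_lit 0) (nat_lit 0)) T1.l0
  (TrL.c (I.pos (nat_lit 0) (nat_lit 0)) T1.l1
  (TrL.c (I.pos (nat_lit 0) (nat_lit 89480386)) T1.l2
  (TrL.c (I.pos (nat_lit 0) (nat_lit 41530880)) T1.l3
  (TrL.c (I.pos (nat_lit 0) (nat_lit 0)) T1.l4
  (TrL.c (I.pos (nat_lit 0) (nat_lit 0)) T1.l5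
  (TrL.c (I.mix (nat_lit 41527258) (nat_lit 41530880)) T1.l6
  (TrL.c (I.mix (nat_lit 41527258) (nat_lit 4274)) T1.l7
  TrL.n)))))))) (by decide +kernel)
theorem bx0_2 : BoxOK sI cl6 cl7 cl7 t1 t1 b0_2 :=
  box_mk (TrL.c (I.pos (nat_lit 0) (nat_lit 0)) T1.l0
  (TrL.c (I.pos (nat_lit 0) (nat_lit 0)) T1.l1
  (TrL.c (I.pos (nat_lit 0) (nat_lit 89480386)) (xR T1.l2 T1.l2)
  (TrL.c (I.pos (nat_lit 0) (nat_lit 41530880)) T1.l3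
  (TrL.c (I.pos (nat_lit 0) (nat_lit 0)) T1.l4
  (TrL.c (I.pos (nat_lit 0) (nat_lit 0)) T1.l5
  (TrL.c (I.mix (nat_lit 41527258) (nat_lit 41530880)) T1.l6
  (TrL.c (I.mix (nat_lit 41527258) (nat_lit 4274)) T1.l7
  TrL.n)))))))) (by decide +kernel)
theorem bx0_3 : BoxOK sI cl6 cl7 cl7 t1 t1 b0_3 :=
  box_mk (TrL.c (I.pos (nat_lit 0) (nat_lit 0)) (xa T1.l0 T1.l0)
  (TrL.c (I.pos (nat_lit 0) (nat_lit 0)) T1.l1
  (TrL.c (I.pos (nat_lit 0) (nat_lit 89480386)) T1.l2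
  (TrL.c (I.pos (nat_lit 0) (nat_lit 41530880)) T1.l6
  (TrL.c (I.pos (nat_lit 0) (nat_lit 0)) T1.l4
  (TrL.c (I.pos (nat_lit 0) (nat_lit 0)) T1.l5
  (TrL.c (I.mix (nat_lit 41527258) (nat_lit 41530880)) T1.l6
  (TrL.c (I.mix (nat_lit 41527258) (nat_lit 4274)) T1.l6
  TrL.n)))))))) (by decide +kernel)
theorem bx0_4 : BoxOK sI cl6 cl7 cl7 t1 t1 b0_4 :=
  box_mk (TrL.c (I.pos (nat_lit 0) (nat_lit 0)) T1.l0
  (TrL.c (I.pos (nat_lit 0) (nat_lit 0)) T1.l1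
  (TrL.c (I.pos (nat_lit 0) (nat_lit 89480386)) (xR T1.l2 T1.l2)
  (TrL.c (I.pos (nat_lit 0) (nat_lit 41530880)) T1.l3
  (TrL.c (I.pos (nat_lit 0) (nat_lit 0)) T1.l4
  (TrL.c (I.pos (nat_lit 0) (nat_lit 0)) T1.l5
  (TrL.c (I.mix (nat_lit 41527258) (nat_lit 41530880)) T1.l6
  (TrL.c (I.mix (nat_lit 41527258) (nat_lit 4274)) T1.l7
  TrL.n)))))))) (by decide +kernel)
theorem bx0_5 : BoxOK sI cl6 cl7 cl7 t1 t1 b0_5 :=
  box_mk (TrL.c (I.pos (nat_lit 0) (nat_lit 0)) T1.l0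
  (TrL.c (I.pos (nat_lit 0) (nat_lit 0)) T1.l1
  (TrL.c (I.pos (nat_lit 0) (nat_lit 89480386)) T1.l2
  (TrL.c (I.pos (nat_lit 0) (nat_lit 41530880)) T1.l3
  (TrL.c (I.pos (nat_lit 0) (nat_lit 0)) T1.l4
  (TrL.c (I.pos (nat_lit 0) (nat_lit 0)) T1.l5
  (TrL.c (I.mix (nat_lit 41527258) (nat_lit 41530880)) T1.l6
  (TrL.c (I.mix (nat_lit 41527258) (nat_lit 4274)) T1.l6
  TrL.n)))))))) (by decide +kernel)
theorem bx0_6 : BoxOK sI cl6 cl7 cl7 t1 t1 b0_6 :=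
  box_mk (TrL.c (I.pos (nat_lit 0) (nat_lit 0)) (xa T1.l0 T1.l0)
  (TrL.c (I.pos (nat_lit 0) (nat_lit 0)) T1.l1
  (TrL.c (I.pos (nat_lit 0) (nat_lit 89480386)) T1.l2
  (TrL.c (I.pos (nat_lit 0) (nat_lit 41530880)) T1.l3
  (TrL.c (I.pos (nat_lit 0) (nat_lit 0)) T1.l4
  (TrL.c (I.pos (nat_lit 0) (nat_lit 0)) T1.l5
  (TrL.c (I.mix (nat_lit 41527258) (nat_lit 41530880)) T1.l6
  (TrL.c (I.mix (nat_lit 41527258) (nat_lit 4274)) T1.l7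
  TrL.n)))))))) (by decide +kernel)
theorem bx0_7 : BoxOK sI cl6 cl7 cl7 t1 t1 b0_7 :=
  box_mk (TrL.c (I.pos (nat_lit 0) (nat_lit 0)) (xa (xb T1.l0 T1.l0) T1.l0)
  (TrL.c (I.pos (nat_lit 0) (nat_lit 0)) T1.l1
  (TrL.c (I.pos (nat_lit 0) (nat_lit 89480386)) (xR T1.l2 T1.l2)
  (TrL.c (I.pos (nat_lit 0) (nat_lit 41530880)) T1.l3
  (TrL.c (I.pos (nat_lit 0) (nat_lit 0)) T1.l4
  (TrL.c (I.pos (nat_lit 0) (nat_lit 0)) T1.l5
  (TrL.c (I.mix (nat_lit 41527258) (nat_lit 41530880)) (xR T1.l6 T1.l6)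
  (TrL.c (I.mix (nat_lit 41527258) (nat_lit 4274)) T1.l7
  TrL.n)))))))) (by decide +kernel)
theorem sv0 : StarV sI cl6 cl7 cl7 t1 t1 t0 :=
  (bt_n (bt_n (bt_n (bt_b bx0_0) (bt_b bx0_1)) (bt_n (bt_b bx0_2) (bt_b bx0_3))) (bt_n (bt_n (bt_b bx0_4) (bt_b bx0_5)) (bt_n (bt_b bx0_6) (bt_b bx0_7))))
def S0 : StarD := StarD.mk cl6 cl7 cl7 1 1 t0
theorem bx1_0 : BoxOK sI cl7 cl6 cl7 t0 t2 b1_0 :=
  box_mk (TrL.c (I.pos (nat_lit 0) (nat_lit 0)) (xa T0.l0 T0.l0)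
  (TrL.c (I.pos (nat_lit 0) (nat_lit 0)) T2.l1
  (TrL.c (I.pos (nat_lit 0) (nat_lit 111196574)) (xR T0.l1 (xR T0.l1 T0.l1))
  (TrL.c (I.pos (nat_lit 0) (nat_lit 77433728)) (xR T2.l2 T2.l2)
  (TrL.c (I.pos (nat_lit 0) (nat_lit 0)) (xa T2.l3 (xk (xb T2.l3 (xs T2.l3 (xb T2.l3 (xa T2.l3 (xs T2.l3 T2.l3))))) (xb T2.l3 (xs T2.l3 (xb T2.l3 (xa T2.l3 (xs T2.l3 (xk T2.l3 T2.l3))))))))
  (TrL.c (I.pos (nat_lit 0) (nat_lit 0)) T0.l2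
  (TrL.c (I.mix (nat_lit 29511666) (nat_lit 77433728)) (xR T2.l4 T2.l4)
  (TrL.c (I.mix (nat_lit 29511666) (nat_lit 46070178)) (xR T0.l3 T0.l3)
  TrL.n)))))))) (by decide +kernel)
theorem bx1_1 : BoxOK sI cl7 cl6 cl7 t0 t2 b1_1 :=
  box_mk (TrL.c (I.pos (nat_lit 0) (nat_lit 0)) T0.l0
  (TrL.c (I.pos (nat_lit 0) (nat_lit 0)) T2.l1
  (TrL.c (I.pos (nat_lit 0) (nat_lit 111196574)) (xR T0.l1 T0.l1)
  (TrL.c (I.pos (nat_lit 0) (nat_lit 77433728)) (xR T2.l2 T2.l2)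
  (TrL.c (I.pos (nat_lit 0) (nat_lit 0)) T2.l3
  (TrL.c (I.pos (nat_lit 0) (nat_lit 0)) T0.l2
  (TrL.c (I.mix (nat_lit 29511666) (nat_lit 77433728)) T2.l4
  (TrL.c (I.mix (nat_lit 29511666) (nat_lit 46070178)) T0.l3
  TrL.n)))))))) (by decide +kernel)
theorem bx1_2 : BoxOK sI cl7 cl6 cl7 t0 t2 b1_2 :=
  box_mk (TrL.c (I.pos (nat_lit 0) (nat_lit 0)) T0.l0
  (TrL.c (I.pos (nat_lit 0) (nat_lit 0)) T2.l1
  (TrL.c (I.pos (nat_lit 0) (nat_lit 111196574)) T0.l1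
  (TrL.c (I.pos (nat_lit 0) (nat_lit 77433728)) (xR T2.l2 T2.l2)
  (TrL.c (I.pos (nat_lit 0) (nat_lit 0)) T2.l3
  (TrL.c (I.pos (nat_lit 0) (nat_lit 0)) T0.l2
  (TrL.c (I.mix (nat_lit 29511666) (nat_lit 77433728)) T2.l4
  (TrL.c (I.mix (nat_lit 29511666) (nat_lit 46070178)) T0.l3
  TrL.n)))))))) (by decide +kernel)
theorem bx1_3 : BoxOK sI cl7 cl6 cl7 t0 t2 b1_3 :=
  box_mk (TrL.c (I.pos (nat_lit 0) (nat_lit 0)) T0.l0
  (TrL.c (I.pos (nat_lit 0) (nat_lit 0)) T2.l1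
  (TrL.c (I.pos (nat_lit 0) (nat_lit 111196574)) T0.l1
  (TrL.c (I.pos (nat_lit 0) (nat_lit 77433728)) T2.l4
  (TrL.c (I.pos (nat_lit 0) (nat_lit 0)) T2.l3
  (TrL.c (I.pos (nat_lit 0) (nat_lit 0)) T0.l2
  (TrL.c (I.mix (nat_lit 29511666) (nat_lit 77433728)) T2.l4
  (TrL.c (I.mix (nat_lit 29511666) (nat_lit 46070178)) T0.l3
  TrL.n)))))))) (by decide +kernel)
theorem bx1_4 : BoxOK sI cl7 cl6 cl7 t0 t2 b1_4 :=
  box_mk (TrL.c (I.pos (nat_lit 0) (nat_lit 0)) (xb T0.l0 T0.l0)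
  (TrL.c (I.pos (nat_lit 0) (nat_lit 0)) T2.l1
  (TrL.c (I.pos (nat_lit 0) (nat_lit 111196574)) (xR T0.l1 T0.l1)
  (TrL.c (I.pos (nat_lit 0) (nat_lit 77433728)) (xR T2.l2 T2.l2)
  (TrL.c (I.pos (nat_lit 0) (nat_lit 0)) (xb T2.l3 (xs T2.l3 (xb T2.l3 T2.l3)))
  (TrL.c (I.pos (nat_lit 0) (nat_lit 0)) T0.l2
  (TrL.c (I.mix (nat_lit 29511666) (nat_lit 77433728)) (xR T2.l4 T2.l4)
  (TrL.c (I.mix (nat_lit 29511666) (nat_lit 46070178)) (xR T0.l3 T0.l5)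
  TrL.n)))))))) (by decide +kernel)
theorem bx1_5 : BoxOK sI cl7 cl6 cl7 t0 t2 b1_5 :=
  box_mk (TrL.c (I.pos (nat_lit 0) (nat_lit 0)) T0.l0
  (TrL.c (I.pos (nat_lit 0) (nat_lit 0)) T2.l1
  (TrL.c (I.pos (nat_lit 0) (nat_lit 111196574)) (xR T0.l1 T0.l1)
  (TrL.c (I.pos (nat_lit 0) (nat_lit 77433728)) T2.l2
  (TrL.c (I.pos (nat_lit 0) (nat_lit 0)) T2.l3
  (TrL.c (I.pos (nat_lit 0) (nat_lit 0)) T0.l2
  (TrL.c (I.mix (nat_lit 29511666) (nat_lit 77433728)) T2.l4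
  (TrL.c (I.mix (nat_lit 29511666) (nat_lit 46070178)) T0.l3
  TrL.n)))))))) (by decide +kernel)
theorem bx1_6 : BoxOK sI cl7 cl6 cl7 t0 t2 b1_6 :=
  box_mk (TrL.c (I.pos (nat_lit 0) (nat_lit 0)) (xa T0.l0 T0.l0)
  (TrL.c (I.pos (nat_lit 0) (nat_lit 0)) T2.l1
  (TrL.c (I.pos (nat_lit 0) (nat_lit 111196574)) T0.l1
  (TrL.c (I.pos (nat_lit 0) (nat_lit 77433728)) (xR T2.l4 T2.l2)
  (TrL.c (I.pos (nat_lit 0) (nat_lit 0)) T2.l3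
  (TrL.c (I.pos (nat_lit 0) (nat_lit 0)) T0.l2
  (TrL.c (I.mix (nat_lit 29511666) (nat_lit 77433728)) T2.l4
  (TrL.c (I.mix (nat_lit 29511666) (nat_lit 46070178)) T0.l3
  TrL.n)))))))) (by decide +kernel)
theorem bx1_7 : BoxOK sI cl7 cl6 cl7 t0 t2 b1_7 :=
  box_mk (TrL.c (I.pos (nat_lit 0) (nat_lit 0)) (xa T0.l0 T0.l0)
  (TrL.c (I.pos (nat_lit 0) (nat_lit 0)) T2.l3
  (TrL.c (I.pos (nat_lit 0) (nat_lit 111196574)) T0.l1
  (TrL.c (I.pos (nat_lit 0) (nat_lit 77433728)) T2.l4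
  (TrL.c (I.pos (nat_lit 0) (nat_lit 0)) T2.l3
  (TrL.c (I.pos (nat_lit 0) (nat_lit 0)) T0.l2
  (TrL.c (I.mix (nat_lit 29511666) (nat_lit 77433728)) T2.l4
  (TrL.c (I.mix (nat_lit 29511666) (nat_lit 46070178)) T0.l3
  TrL.n)))))))) (by decide +kernel)
theorem sv1 : StarV sI cl7 cl6 cl7 t0 t2 t1 :=
  (bt_n (bt_n (bt_n (bt_b bx1_0) (bt_b bx1_1)) (bt_n (bt_b bx1_2) (bt_b bx1_3))) (bt_n (bt_n (bt_b bx1_4) (bt_b bx1_5)) (bt_n (bt_b bx1_6) (bt_b bx1_7))))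
def S1 : StarD := StarD.mk cl7 cl6 cl7 0 2 t1
theorem bx2_0 : BoxOK sI cl7 cl7 cl6 t2 t0 b2_0 :=
  box_mk (TrL.c (I.pos (nat_lit 0) (nat_lit 0)) (xa (xa T2.l0 T2.l0) (xb T2.l0 T2.l0))
  (TrL.c (I.pos (nat_lit 0) (nat_lit 0)) T0.l4
  (TrL.c (I.pos (nat_lit 0) (nat_lit 111196574)) (xR T2.l5 (xR T2.l5 T2.l5))
  (TrL.c (I.pos (nat_lit 0) (nat_lit 77433728)) (xR T0.l5 T0.l5)
  (TrL.c (I.pos (nat_lit 0) (nat_lit 0)) (xa T0.l7 (xk (xb T0.l7 (xs T0.l7 (xb T0.l7 T0.l7))) (xb T0.l7 (xs T0.l7 (xa T0.l7 (xb T0.l7 (xs T0.l7 T0.l7)))))))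
  (TrL.c (I.pos (nat_lit 0) (nat_lit 0)) T2.l6
  (TrL.c (I.mix (nat_lit 29511666) (nat_lit 77433728)) (xR T0.l6 (xR T0.l6 T0.l6))
  (TrL.c (I.mix (nat_lit 29511666) (nat_lit 46070178)) (xR T2.l7 T2.l7)
  TrL.n)))))))) (by decide +kernel)
theorem bx2_1 : BoxOK sI cl7 cl7 cl6 t2 t0 b2_1 :=
  box_mk (TrL.c (I.pos (nat_lit 0) (nat_lit 0)) T2.l0
  (TrL.c (I.pos (nat_lit 0) (nat_lit 0)) T0.l4
  (TrL.c (I.pos (nat_lit 0) (nat_lit 111196574)) (xR T2.l5 T2.l5)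
  (TrL.c (I.pos (nat_lit 0) (nat_lit 77433728)) (xR T0.l5 T0.l5)
  (TrL.c (I.pos (nat_lit 0) (nat_lit 0)) T0.l7
  (TrL.c (I.pos (nat_lit 0) (nat_lit 0)) T2.l6
  (TrL.c (I.mix (nat_lit 29511666) (nat_lit 77433728)) (xR T0.l6 T0.l6)
  (TrL.c (I.mix (nat_lit 29511666) (nat_lit 46070178)) T2.l7
  TrL.n)))))))) (by decide +kernel)
theorem bx2_2 : BoxOK sI cl7 cl7 cl6 t2 t0 b2_2 :=
  box_mk (TrL.c (I.pos (nat_lit 0) (nat_lit 0)) T2.l0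
  (TrL.c (I.pos (nat_lit 0) (nat_lit 0)) T0.l4
  (TrL.c (I.pos (nat_lit 0) (nat_lit 111196574)) T2.l5
  (TrL.c (I.pos (nat_lit 0) (nat_lit 77433728)) T0.l6
  (TrL.c (I.pos (nat_lit 0) (nat_lit 0)) T0.l7
  (TrL.c (I.pos (nat_lit 0) (nat_lit 0)) T2.l6
  (TrL.c (I.mix (nat_lit 29511666) (nat_lit 77433728)) T0.l6
  (TrL.c (I.mix (nat_lit 29511666) (nat_lit 46070178)) T2.l7
  TrL.n)))))))) (by decide +kernel)
theorem bx2_3 : BoxOK sI cl7 cl7 cl6 t2 t0 b2_3 :=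
  box_mk (TrL.c (I.pos (nat_lit 0) (nat_lit 0)) (xa (xb T2.l0 T2.l0) T2.l0)
  (TrL.c (I.pos (nat_lit 0) (nat_lit 0)) T0.l4
  (TrL.c (I.pos (nat_lit 0) (nat_lit 111196574)) (xR T2.l5 T2.l5)
  (TrL.c (I.pos (nat_lit 0) (nat_lit 77433728)) (xR T0.l5 T0.l5)
  (TrL.c (I.pos (nat_lit 0) (nat_lit 0)) (xb T0.l7 (xs T0.l7 (xb T0.l7 (xa T0.l7 (xk T0.l7 (xs T0.l7 T0.l7))))))
  (TrL.c (I.pos (nat_lit 0) (nat_lit 0)) T2.l6
  (TrL.c (I.mix (nat_lit 29511666) (nat_lit 77433728)) (xR T0.l6 T0.l6)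
  (TrL.c (I.mix (nat_lit 29511666) (nat_lit 46070178)) (xR T2.l7 T2.l7)
  TrL.n)))))))) (by decide +kernel)
theorem bx2_4 : BoxOK sI cl7 cl7 cl6 t2 t0 b2_4 :=
  box_mk (TrL.c (I.pos (nat_lit 0) (nat_lit 0)) (xa T2.l0 T2.l0)
  (TrL.c (I.pos (nat_lit 0) (nat_lit 0)) T0.l4
  (TrL.c (I.pos (nat_lit 0) (nat_lit 111196574)) T2.l5
  (TrL.c (I.pos (nat_lit 0) (nat_lit 77433728)) (xR T0.l5 T0.l5)
  (TrL.c (I.pos (nat_lit 0) (nat_lit 0)) T0.l7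
  (TrL.c (I.pos (nat_lit 0) (nat_lit 0)) T2.l6
  (TrL.c (I.mix (nat_lit 29511666) (nat_lit 77433728)) T0.l6
  (TrL.c (I.mix (nat_lit 29511666) (nat_lit 46070178)) T2.l7
  TrL.n)))))))) (by decide +kernel)
theorem bx2_5 : BoxOK sI cl7 cl7 cl6 t2 t0 b2_5 :=
  box_mk (TrL.c (I.pos (nat_lit 0) (nat_lit 0)) T2.l0
  (TrL.c (I.pos (nat_lit 0) (nat_lit 0)) T0.l4
  (TrL.c (I.pos (nat_lit 0) (nat_lit 111196574)) T2.l5
  (TrL.c (I.pos (nat_lit 0) (nat_lit 77433728)) (xR T0.l5 T0.l5)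
  (TrL.c (I.pos (nat_lit 0) (nat_lit 0)) T0.l7
  (TrL.c (I.pos (nat_lit 0) (nat_lit 0)) T2.l6
  (TrL.c (I.mix (nat_lit 29511666) (nat_lit 77433728)) T0.l6
  (TrL.c (I.mix (nat_lit 29511666) (nat_lit 46070178)) T2.l7
  TrL.n)))))))) (by decide +kernel)
theorem bx2_6 : BoxOK sI cl7 cl7 cl6 t2 t0 b2_6 :=
  box_mk (TrL.c (I.pos (nat_lit 0) (nat_lit 0)) T2.l0
  (TrL.c (I.pos (nat_lit 0) (nat_lit 0)) T0.l4
  (TrL.c (I.pos (nat_lit 0) (nat_lit 111196574)) (xR T2.l5 T2.l5)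
  (TrL.c (I.pos (nat_lit 0) (nat_lit 77433728)) (xR T0.l5 T0.l5)
  (TrL.c (I.pos (nat_lit 0) (nat_lit 0)) T0.l7
  (TrL.c (I.pos (nat_lit 0) (nat_lit 0)) T2.l6
  (TrL.c (I.mix (nat_lit 29511666) (nat_lit 77433728)) (xR T0.l6 T0.l6)
  (TrL.c (I.mix (nat_lit 29511666) (nat_lit 46070178)) T2.l7
  TrL.n)))))))) (by decide +kernel)
theorem bx2_7 : BoxOK sI cl7 cl7 cl6 t2 t0 b2_7 :=
  box_mk (TrL.c (I.pos (nat_lit 0) (nat_lit 0)) (xa T2.l0 T2.l0)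
  (TrL.c (I.pos (nat_lit 0) (nat_lit 0)) T0.l4
  (TrL.c (I.pos (nat_lit 0) (nat_lit 111196574)) T2.l5
  (TrL.c (I.pos (nat_lit 0) (nat_lit 77433728)) T0.l6
  (TrL.c (I.pos (nat_lit 0) (nat_lit 0)) T0.l7
  (TrL.c (I.pos (nat_lit 0) (nat_lit 0)) T2.l6
  (TrL.c (I.mix (nat_lit 29511666) (nat_lit 77433728)) T0.l6
  (TrL.c (I.mix (nat_lit 29511666) (nat_lit 46070178)) T2.l4
  TrL.n)))))))) (by decide +kernel)
theorem sv2 : StarV sI cl7 cl7 cl6 t2 t0 t2 :=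
  (bt_n (bt_n (bt_n (bt_b bx2_0) (bt_b bx2_1)) (bt_n (bt_b bx2_2) (bt_b bx2_3))) (bt_n (bt_n (bt_b bx2_4) (bt_b bx2_5)) (bt_n (bt_b bx2_6) (bt_b bx2_7))))
def S2 : StarD := StarD.mk cl7 cl7 cl6 2 0 t2
def G : List StarD := [S0, S1, S2]
theorem so0 : StarOK sI G S0 :=
  star_mk (by decide) (by decide) rfl rfl rfl rfl rfl rfl (rfl : _ = t1) (rfl : _ = t1)
  (st_mk (Pth.l (Pth.l (Pth.l Pth.z))) (nat_lit 141382489) (nat_lit 163918389) (by decide +kernel))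
  (st_mk (Pth.l (Pth.l (Pth.l Pth.z))) (nat_lit 177051349) (nat_lit 199973298) (by decide +kernel))
  (st_mk (Pth.l (Pth.l (Pth.l Pth.z))) (nat_lit 218425577) (nat_lit 241877562) (by decide +kernel)) sv0
theorem so1 : StarOK sI G S1 :=
  star_mk (by decide) (by decide) rfl rfl rfl rfl rfl rfl (rfl : _ = t0) (rfl : _ = t2)
  (st_mk (Pth.l (Pth.l (Pth.l Pth.z))) (nat_lit 187050298) (nat_lit 188595633) (by decide +kernel))
  (st_mk (Pth.l (Pth.l (Pth.l Pth.z))) (nat_lit 222446274) (nat_lit 224413492) (by decide +kernel))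
  (st_mk (Pth.l (Pth.l (Pth.l Pth.z))) (nat_lit 263396894) (nat_lit 265947415) (by decide +kernel)) sv1
theorem so2 : StarOK sI G S2 :=
  star_mk (by decide) (by decide) rfl rfl rfl rfl rfl rfl (rfl : _ = t2) (rfl : _ = t0)
  (st_mk (Pth.l (Pth.l (Pth.l Pth.z))) (nat_lit 140805105) (nat_lit 163337956) (by decide +kernel))
  (st_mk (Pth.l (Pth.l (Pth.l Pth.z))) (nat_lit 176150122) (nat_lit 199099904) (by decide +kernel))
  (st_mk (Pth.l (Pth.l (Pth.l Pth.z))) (nat_lit 217057183) (nat_lit 240586249) (by decide +kernel)) sv2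
theorem ok : GroupOK (nat_lit 0) (nat_lit 91291648) G := grp_mk (allS_c so0 (allS_c so1 (allS_c so2 allS_n)))
theorem cov : GCov G cl6 cl7 cl7 := cov_mk
  ⟨0, by decide, rfl, rfl, rfl⟩ ⟨0, by decide, rfl, rfl, rfl⟩ ⟨1, by decide, rfl, rfl, rfl⟩ ⟨2, by decide, rfl, rfl, rfl⟩ ⟨1, by decide, rfl, rfl, rfl⟩ ⟨2, by decide, rfl, rfl, rfl⟩
end Q344_0

namespace Q344_1
def sI : I := I.pos (nat_lit 91226112) (nat_lit 150339584)
def b0_0 : Bx := Bx.mk (St.mk (I.pos (nat_lit 156991488) (nat_lit 282869760)) (I.mix (nat_lit 28016640) (nat_lit 58802176)) (I.mix (nat_lit 85393408) (nat_lit 90914816)) (I.pos (nat_lit 137183232) (nat_lit 370130944)) (I.mix (nat_lit 106184704) (nat_lit 77987840)) (I.mix (nat_lit 95191040) (nat_lit 69140480)) (I.mix (nat_lit 146833408) (nat_lit 99893248)))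
  false (nat_lit 0)
def b0_1 : Bx := Bx.mk (St.mk (I.mix (nat_lit 20512768) (nat_lit 118849536)) (I.mix (nat_lit 9207808) (nat_lit 34603008)) (I.mix (nat_lit 17301504) (nat_lit 19759104)) (I.pos (nat_lit 41943040) (nat_lit 115834880)) (I.mix (nat_lit 41697280) (nat_lit 33013760)) (I.mix (nat_lit 34766848) (nat_lit 26722304)) (I.mix (nat_lit 24690688) (nat_lit 18251776)))
  false (nat_lit 0)
def b0_2 : Bx := Bx.mk (St.mk (I.pos (nat_lit 93110272) (nat_lit 139624448)) (I.mix (nat_lit 56606720) (nat_lit 7962624)) (I.mix (nat_lit 56115200) (nat_lit 49152)) (I.pos (nat_lit 79085568) (nat_lit 132825088)) (I.mix (nat_lit 89243648) (nat_lit 35192832)) (I.mix (nat_lit 46301184) (nat_lit 83263488)) (I.mix (nat_lit 33161216) (nat_lit 61833216)))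
  false (nat_lit 0)
def b0_3 : Bx := Bx.mk (St.mk (I.mix (nat_lit 36716544) (nat_lit 67567616)) (I.mix (nat_lit 30523392) (nat_lit 4800512)) (I.mix (nat_lit 18055168) (nat_lit 1343488)) (I.pos (nat_lit 42975232) (nat_lit 80674816)) (I.mix (nat_lit 33652736) (nat_lit 17285120)) (I.mix (nat_lit 16596992) (nat_lit 27377664)) (I.mix (nat_lit 7766016) (nat_lit 11108352)))
  false (nat_lit 0)
def b0_4 : Bx := Bx.mk (St.mk (I.pos (nat_lit 105791488) (nat_lit 174325760)) (I.neg (nat_lit 2752512) (nat_lit 56016896)) (I.neg (nat_lit 671744) (nat_lit 56606720)) (I.pos (nat_lit 99287040) (nat_lit 178421760)) (I.mix (nat_lit 70189056) (nat_lit 43991040)) (I.mix (nat_lit 40976384) (nat_lit 59654144)) (I.mix (nat_lit 35454976) (nat_lit 58048512)))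
  false (nat_lit 0)
def b0_5 : Bx := Bx.mk (St.mk (I.mix (nat_lit 23265280) (nat_lit 84393984)) (I.mix (nat_lit 33505280) (nat_lit 4603904)) (I.mix (nat_lit 21807104) (nat_lit 2375680)) (I.pos (nat_lit 41762816) (nat_lit 90079232)) (I.mix (nat_lit 38141952) (nat_lit 28213248)) (I.mix (nat_lit 23560192) (nat_lit 33783808)) (I.mix (nat_lit 13549568) (nat_lit 18251776)))
  false (nat_lit 0)
def b0_6 : Bx := Bx.mk (St.mk (I.mix (nat_lit 36913152) (nat_lit 106184704)) (I.mix (nat_lit 12632064) (nat_lit 37158912)) (I.mix (nat_lit 10125312) (nat_lit 22986752)) (I.pos (nat_lit 42647552) (nat_lit 105398272)) (I.mix (nat_lit 53297152) (nat_lit 30146560)) (I.mix (nat_lit 49725440) (nat_lit 33636352)) (I.mix (nat_lit 27279360) (nat_lit 19677184)))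
  false (nat_lit 0)
def b0_7 : Bx := Bx.mk (St.mk (I.pos (nat_lit 144621568) (nat_lit 217448448)) (I.mix (nat_lit 41943040) (nat_lit 63635456)) (I.mix (nat_lit 44466176) (nat_lit 94339072)) (I.pos (nat_lit 130088960) (nat_lit 239943680)) (I.mix (nat_lit 144097280) (nat_lit 64061440)) (I.mix (nat_lit 153698304) (nat_lit 91357184)) (I.mix (nat_lit 170033152) (nat_lit 94109696)))
  false (nat_lit 0)
def t0 : BTr := (BTr.n (BTr.n (BTr.n (BTr.b b0_0) (BTr.b b0_1)) (BTr.n (BTr.b b0_2) (BTr.b b0_3))) (BTr.n (BTr.n (BTr.b b0_4) (BTr.b b0_5)) (BTr.n (BTr.b b0_6) (BTr.b b0_7))))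
namespace T0
def l0 : Tr := Tr.L (Pth.l (Pth.l (Pth.l Pth.z)))
def l1 : Tr := Tr.L (Pth.l (Pth.l (Pth.r Pth.z)))
def l2 : Tr := Tr.L (Pth.l (Pth.r (Pth.l Pth.z)))
def l3 : Tr := Tr.L (Pth.l (Pth.r (Pth.r Pth.z)))
def l4 : Tr := Tr.L (Pth.r (Pth.l (Pth.l Pth.z)))
def l5 : Tr := Tr.L (Pth.r (Pth.l (Pth.r Pth.z)))
def l6 : Tr := Tr.L (Pth.r (Pth.r (Pth.l Pth.z)))
def l7 : Tr := Tr.L (Pth.r (Pth.r (Pth.r Pth.z)))
end T0
def b1_0 : Bx := Bx.mk (St.mk (I.pos (nat_lit 156958720) (nat_lit 284852224)) (I.mix (nat_lit 27049984) (nat_lit 63668224)) (I.mix (nat_lit 83558400) (nat_lit 98074624)) (I.pos (nat_lit 180928512) (nat_lit 394756096)) (I.mix (nat_lit 111558656) (nat_lit 88719360)) (I.mix (nat_lit 107233280) (nat_lit 75366400)) (I.mix (nat_lit 162185216) (nat_lit 104202240)))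
  false (nat_lit 39547094)
def b1_1 : Bx := Bx.mk (St.mk (I.pos (nat_lit 92913664) (nat_lit 162889728)) (I.neg (nat_lit 6897664) (nat_lit 60063744)) (I.mix (nat_lit 54378496) (nat_lit 2113536)) (I.pos (nat_lit 128958464) (nat_lit 190005248)) (I.mix (nat_lit 72122368) (nat_lit 47726592)) (I.mix (nat_lit 39649280) (nat_lit 63242240)) (I.mix (nat_lit 33488896) (nat_lit 54214656)))
  false (nat_lit 0)
def b1_2 : Bx := Bx.mk (St.mk (I.mix (nat_lit 29523968) (nat_lit 98336768)) (I.mix (nat_lit 8552448) (nat_lit 38715392)) (I.mix (nat_lit 16187392) (nat_lit 17022976)) (I.pos (nat_lit 82345984) (nat_lit 124928000)) (I.mix (nat_lit 39944192) (nat_lit 41648128)) (I.mix (nat_lit 44122112) (nat_lit 27738112)) (I.mix (nat_lit 27394048) (nat_lit 17235968)))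
  false (nat_lit 0)
def b1_3 : Bx := Bx.mk (St.mk (I.mix (nat_lit 30621696) (nat_lit 48119808)) (I.mix (nat_lit 34537472) (nat_lit 6193152)) (I.mix (nat_lit 12632064) (nat_lit 3244032)) (I.pos (nat_lit 82706432) (nat_lit 100417536)) (I.mix (nat_lit 30572544) (nat_lit 31703040)) (I.mix (nat_lit 22380544) (nat_lit 34275328)) (I.mix (nat_lit 9732096) (nat_lit 12140544)))
  false (nat_lit 0)
def b1_4 : Bx := Bx.mk (St.mk (I.pos (nat_lit 79708160) (nat_lit 123912192)) (I.mix (nat_lit 60653568) (nat_lit 8519680)) (I.neg (nat_lit 2097152) (nat_lit 53772288)) (I.pos (nat_lit 113721344) (nat_lit 147718144)) (I.mix (nat_lit 83968000) (nat_lit 37830656)) (I.mix (nat_lit 43892736) (nat_lit 77381632)) (I.mix (nat_lit 31916032) (nat_lit 52641792)))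
  false (nat_lit 0)
def b1_5 : Bx := Bx.mk (St.mk (I.mix (nat_lit 49397760) (nat_lit 70664192)) (I.mix (nat_lit 9502720) (nat_lit 36864000)) (I.mix (nat_lit 12632064) (nat_lit 14467072)) (I.pos (nat_lit 82706432) (nat_lit 109625344)) (I.mix (nat_lit 35307520) (nat_lit 30572544)) (I.mix (nat_lit 34275328) (nat_lit 22380544)) (I.mix (nat_lit 11010048) (nat_lit 12124160)))
  false (nat_lit 0)
def b1_6 : Bx := Bx.mk (St.mk (I.mix (nat_lit 47300608) (nat_lit 28934144)) (I.mix (nat_lit 34373632) (nat_lit 5095424)) (I.mix (nat_lit 10190848) (nat_lit 4440064)) (I.pos (nat_lit 83214336) (nat_lit 100139008)) (I.mix (nat_lit 34521088) (nat_lit 26017792)) (I.mix (nat_lit 22102016) (nat_lit 34193408)) (I.mix (nat_lit 12353536) (nat_lit 8241152)))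
  false (nat_lit 0)
def b1_7 : Bx := Bx.mk (St.mk (I.pos (nat_lit 137183232) (nat_lit 210092032)) (I.mix (nat_lit 38633472) (nat_lit 65044480)) (I.mix (nat_lit 33243136) (nat_lit 96108544)) (I.pos (nat_lit 166199296) (nat_lit 254656512)) (I.mix (nat_lit 135118848) (nat_lit 66207744)) (I.mix (nat_lit 135544832) (nat_lit 85721088)) (I.mix (nat_lit 135741440) (nat_lit 80543744)))
  false (nat_lit 20997039)
def t1 : BTr := (BTr.n (BTr.n (BTr.n (BTr.b b1_0) (BTr.b b1_1)) (BTr.n (BTr.b b1_2) (BTr.b b1_3))) (BTr.n (BTr.n (BTr.b b1_4) (BTr.b b1_5)) (BTr.n (BTr.b b1_6) (BTr.b b1_7))))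
namespace T1
def l0 : Tr := Tr.L (Pth.l (Pth.l (Pth.l Pth.z)))
def l1 : Tr := Tr.L (Pth.l (Pth.l (Pth.r Pth.z)))
def l2 : Tr := Tr.L (Pth.l (Pth.r (Pth.l Pth.z)))
def l3 : Tr := Tr.L (Pth.l (Pth.r (Pth.r Pth.z)))
def l4 : Tr := Tr.L (Pth.r (Pth.l (Pth.l Pth.z)))
def l5 : Tr := Tr.L (Pth.r (Pth.l (Pth.r Pth.z)))
def l6 : Tr := Tr.L (Pth.r (Pth.r (Pth.l Pth.z)))
def l7 : Tr := Tr.L (Pth.r (Pth.r (Pth.r Pth.z)))
end T1
def b2_0 : Bx := Bx.mk (St.mk (I.pos (nat_lit 156467200) (nat_lit 284131328)) (I.mix (nat_lit 25100288) (nat_lit 57344000)) (I.mix (nat_lit 59588608) (nat_lit 102432768)) (I.pos (nat_lit 136462336) (nat_lit 367525888)) (I.mix (nat_lit 122470400) (nat_lit 82477056)) (I.mix (nat_lit 102891520) (nat_lit 77463552)) (I.mix (nat_lit 156844032) (nat_lit 100302848)))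
  false (nat_lit 32068891)
def b2_1 : Bx := Bx.mk (St.mk (I.pos (nat_lit 104366080) (nat_lit 177012736)) (I.neg (nat_lit 5095424) (nat_lit 57950208)) (I.mix (nat_lit 51724288) (nat_lit 7045120)) (I.pos (nat_lit 99352576) (nat_lit 180502528)) (I.mix (nat_lit 70991872) (nat_lit 41304064)) (I.mix (nat_lit 36798464) (nat_lit 57507840)) (I.mix (nat_lit 34586624) (nat_lit 55361536)))
  false (nat_lit 0)
def b2_2 : Bx := Bx.mk (St.mk (I.mix (nat_lit 21430272) (nat_lit 83886080)) (I.mix (nat_lit 33308672) (nat_lit 3604480)) (I.mix (nat_lit 17039360) (nat_lit 6963200)) (I.pos (nat_lit 42123264) (nat_lit 89473024)) (I.mix (nat_lit 34832384) (nat_lit 27344896)) (I.mix (nat_lit 22790144) (nat_lit 29442048)) (I.mix (nat_lit 12681216) (nat_lit 15663104)))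
  false (nat_lit 0)
def b2_3 : Bx := Bx.mk (St.mk (I.pos (nat_lit 143491072) (nat_lit 214794240)) (I.mix (nat_lit 38682624) (nat_lit 59719680)) (I.mix (nat_lit 30785536) (nat_lit 99893248)) (I.pos (nat_lit 129974272) (nat_lit 234045440)) (I.mix (nat_lit 138608640) (nat_lit 60194816)) (I.mix (nat_lit 143949824) (nat_lit 90980352)) (I.mix (nat_lit 161349632) (nat_lit 91340800)))
  false (nat_lit 8780145)
def b2_4 : Bx := Bx.mk (St.mk (I.mix (nat_lit 37732352) (nat_lit 104546304)) (I.mix (nat_lit 11829248) (nat_lit 37240832)) (I.mix (nat_lit 5783552) (nat_lit 28377088)) (I.pos (nat_lit 42778624) (nat_lit 104267776)) (I.mix (nat_lit 54362112) (nat_lit 26755072)) (I.mix (nat_lit 49446912) (nat_lit 33357824)) (I.mix (nat_lit 27852800) (nat_lit 19873792)))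
  false (nat_lit 0)
def b2_5 : Bx := Bx.mk (St.mk (I.mix (nat_lit 20955136) (nat_lit 118423552)) (I.mix (nat_lit 7700480) (nat_lit 33964032)) (I.mix (nat_lit 9814016) (nat_lit 25427968)) (I.pos (nat_lit 41615360) (nat_lit 114868224)) (I.mix (nat_lit 44826624) (nat_lit 33521664)) (I.mix (nat_lit 39124992) (nat_lit 27394048)) (I.mix (nat_lit 27934720) (nat_lit 19234816)))
  false (nat_lit 0)
def b2_6 : Bx := Bx.mk (St.mk (I.pos (nat_lit 93241344) (nat_lit 142393344)) (I.mix (nat_lit 58081280) (nat_lit 8159232)) (I.mix (nat_lit 50462720) (nat_lit 5570560)) (I.pos (nat_lit 80134144) (nat_lit 135643136)) (I.mix (nat_lit 88637440) (nat_lit 38191104)) (I.mix (nat_lit 46678016) (nat_lit 84049920)) (I.mix (nat_lit 34013184) (nat_lit 60538880)))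
  false (nat_lit 0)
def b2_7 : Bx := Bx.mk (St.mk (I.mix (nat_lit 35422208) (nat_lit 69042176)) (I.mix (nat_lit 30670848) (nat_lit 4423680)) (I.mix (nat_lit 13942784) (nat_lit 4980736)) (I.pos (nat_lit 43008000) (nat_lit 81264640)) (I.mix (nat_lit 34963456) (nat_lit 19283968)) (I.mix (nat_lit 20873216) (nat_lit 30801920)) (I.mix (nat_lit 9273344) (nat_lit 11878400)))
  false (nat_lit 0)
def t2 : BTr := (BTr.n (BTr.n (BTr.n (BTr.b b2_0) (BTr.b b2_1)) (BTr.n (BTr.b b2_2) (BTr.b b2_3))) (BTr.n (BTr.n (BTr.b b2_4) (BTr.b b2_5)) (BTr.n (BTr.b b2_6) (BTr.b b2_7))))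
namespace T2
def l0 : Tr := Tr.L (Pth.l (Pth.l (Pth.l Pth.z)))
def l1 : Tr := Tr.L (Pth.l (Pth.l (Pth.r Pth.z)))
def l2 : Tr := Tr.L (Pth.l (Pth.r (Pth.l Pth.z)))
def l3 : Tr := Tr.L (Pth.l (Pth.r (Pth.r Pth.z)))
def l4 : Tr := Tr.L (Pth.r (Pth.l (Pth.l Pth.z)))
def l5 : Tr := Tr.L (Pth.r (Pth.l (Pth.r Pth.z)))
def l6 : Tr := Tr.L (Pth.r (Pth.r (Pth.l Pth.z)))
def l7 : Tr := Tr.L (Pth.r (Pth.r (Pth.r Pth.z)))
end T2
theorem bx0_0 : BoxOK sI cl6 cl7 cl7 t1 t1 b0_0 :=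
  box_mk (TrL.c (I.pos (nat_lit 0) (nat_lit 0)) (xa (xb T1.l0 (xa T1.l0 T1.l0)) (xa (xb T1.l0 T1.l0) (xb T1.l0 T1.l0)))
  (TrL.c (I.pos (nat_lit 0) (nat_lit 0)) (xa T1.l1 (xb T1.l1 T1.l1))
  (TrL.c (I.pos (nat_lit 0) (nat_lit 89480386)) (xR T1.l2 (xR T1.l2 T1.l2))
  (TrL.c (I.pos (nat_lit 0) (nat_lit 41530880)) T1.l3
  (TrL.c (I.pos (nat_lit 0) (nat_lit 0)) (xa T1.l7 (xb (xa T1.l7 T1.l7) (xa T1.l7 (xb T1.l7 T1.l7))))
  (TrL.c (I.pos (nat_lit 0) (nat_lit 0)) (xa T1.l4 T1.l4)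
  (TrL.c (I.mix (nat_lit 41527258) (nat_lit 41530880)) (xR T1.l5 T1.l2)
  (TrL.c (I.mix (nat_lit 41527258) (nat_lit 4274)) T1.l6
  TrL.n)))))))) (by decide +kernel)
theorem bx0_1 : BoxOK sI cl6 cl7 cl7 t1 t1 b0_1 :=
  box_mk (TrL.c (I.pos (nat_lit 0) (nat_lit 0)) T1.l0
  (TrL.c (I.pos (nat_lit 0) (nat_lit 0)) T1.l1
  (TrL.c (I.pos (nat_lit 0) (nat_lit 89480386)) T1.l2
  (TrL.c (I.pos (nat_lit 0) (nat_lit 41530880)) T1.l3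
  (TrL.c (I.pos (nat_lit 0) (nat_lit 0)) T1.l7
  (TrL.c (I.pos (nat_lit 0) (nat_lit 0)) T1.l4
  (TrL.c (I.mix (nat_lit 41527258) (nat_lit 41530880)) T1.l5
  (TrL.c (I.mix (nat_lit 41527258) (nat_lit 4274)) T1.l6
  TrL.n)))))))) (by decide +kernel)
theorem bx0_2 : BoxOK sI cl6 cl7 cl7 t1 t1 b0_2 :=
  box_mk (TrL.c (I.pos (nat_lit 0) (nat_lit 0)) T1.l0
  (TrL.c (I.pos (nat_lit 0) (nat_lit 0)) T1.l1
  (TrL.c (I.pos (nat_lit 0) (nat_lit 89480386)) (xR T1.l2 T1.l2)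
  (TrL.c (I.pos (nat_lit 0) (nat_lit 41530880)) T1.l3
  (TrL.c (I.pos (nat_lit 0) (nat_lit 0)) T1.l7
  (TrL.c (I.pos (nat_lit 0) (nat_lit 0)) T1.l4
  (TrL.c (I.mix (nat_lit 41527258) (nat_lit 41530880)) T1.l5
  (TrL.c (I.mix (nat_lit 41527258) (nat_lit 4274)) T1.l6
  TrL.n)))))))) (by decide +kernel)
theorem bx0_3 : BoxOK sI cl6 cl7 cl7 t1 t1 b0_3 :=
  box_mk (TrL.c (I.pos (nat_lit 0) (nat_lit 0)) (xa (xa T1.l0 T1.l0) T1.l0)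
  (TrL.c (I.pos (nat_lit 0) (nat_lit 0)) T1.l1
  (TrL.c (I.pos (nat_lit 0) (nat_lit 89480386)) T1.l2
  (TrL.c (I.pos (nat_lit 0) (nat_lit 41530880)) T1.l3
  (TrL.c (I.pos (nat_lit 0) (nat_lit 0)) T1.l7
  (TrL.c (I.pos (nat_lit 0) (nat_lit 0)) T1.l4
  (TrL.c (I.mix (nat_lit 41527258) (nat_lit 41530880)) (xR T1.l5 T1.l5)
  (TrL.c (I.mix (nat_lit 41527258) (nat_lit 4274)) T1.l5
  TrL.n)))))))) (by decide +kernel)
theorem bx0_4 : BoxOK sI cl6 cl7 cl7 t1 t1 b0_4 :=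
  box_mk (TrL.c (I.pos (nat_lit 0) (nat_lit 0)) T1.l0
  (TrL.c (I.pos (nat_lit 0) (nat_lit 0)) T1.l1
  (TrL.c (I.pos (nat_lit 0) (nat_lit 89480386)) (xR T1.l2 T1.l2)
  (TrL.c (I.pos (nat_lit 0) (nat_lit 41530880)) T1.l3
  (TrL.c (I.pos (nat_lit 0) (nat_lit 0)) T1.l7
  (TrL.c (I.pos (nat_lit 0) (nat_lit 0)) T1.l4
  (TrL.c (I.mix (nat_lit 41527258) (nat_lit 41530880)) T1.l5
  (TrL.c (I.mix (nat_lit 41527258) (nat_lit 4274)) T1.l6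
  TrL.n)))))))) (by decide +kernel)
theorem bx0_5 : BoxOK sI cl6 cl7 cl7 t1 t1 b0_5 :=
  box_mk (TrL.c (I.pos (nat_lit 0) (nat_lit 0)) T1.l0
  (TrL.c (I.pos (nat_lit 0) (nat_lit 0)) T1.l1
  (TrL.c (I.pos (nat_lit 0) (nat_lit 89480386)) T1.l2
  (TrL.c (I.pos (nat_lit 0) (nat_lit 41530880)) T1.l3
  (TrL.c (I.pos (nat_lit 0) (nat_lit 0)) T1.l7
  (TrL.c (I.pos (nat_lit 0) (nat_lit 0)) T1.l4
  (TrL.c (I.mix (nat_lit 41527258) (nat_lit 41530880)) T1.l5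
  (TrL.c (I.mix (nat_lit 41527258) (nat_lit 4274)) T1.l5
  TrL.n)))))))) (by decide +kernel)
theorem bx0_6 : BoxOK sI cl6 cl7 cl7 t1 t1 b0_6 :=
  box_mk (TrL.c (I.pos (nat_lit 0) (nat_lit 0)) (xa (xa (xb T1.l0 T1.l0) T1.l0) T1.l0)
  (TrL.c (I.pos (nat_lit 0) (nat_lit 0)) (xa T1.l7 T1.l1)
  (TrL.c (I.pos (nat_lit 0) (nat_lit 89480386)) (xR T1.l2 T1.l2)
  (TrL.c (I.pos (nat_lit 0) (nat_lit 41530880)) T1.l3
  (TrL.c (I.pos (nat_lit 0) (nat_lit 0)) T1.l7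
  (TrL.c (I.pos (nat_lit 0) (nat_lit 0)) T1.l4
  (TrL.c (I.mix (nat_lit 41527258) (nat_lit 41530880)) T1.l5
  (TrL.c (I.mix (nat_lit 41527258) (nat_lit 4274)) T1.l6
  TrL.n)))))))) (by decide +kernel)
theorem bx0_7 : BoxOK sI cl6 cl7 cl7 t1 t1 b0_7 :=
  box_mk (TrL.c (I.pos (nat_lit 0) (nat_lit 0)) (xb (xa T1.l0 T1.l0) (xa (xb T1.l0 T1.l0) (xb T1.l0 T1.l0)))
  (TrL.c (I.pos (nat_lit 0) (nat_lit 0)) (xb T1.l1 T1.l1)
  (TrL.c (I.pos (nat_lit 0) (nat_lit 89480386)) (xR T1.l2 T1.l2)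
  (TrL.c (I.pos (nat_lit 0) (nat_lit 41530880)) T1.l3
  (TrL.c (I.pos (nat_lit 0) (nat_lit 0)) (xb (xa T1.l7 T1.l7) (xa T1.l7 T1.l7))
  (TrL.c (I.pos (nat_lit 0) (nat_lit 0)) T1.l4
  (TrL.c (I.mix (nat_lit 41527258) (nat_lit 41530880)) (xR T1.l5 T1.l2)
  (TrL.c (I.mix (nat_lit 41527258) (nat_lit 4274)) T1.l6
  TrL.n)))))))) (by decide +kernel)
theorem sv0 : StarV sI cl6 cl7 cl7 t1 t1 t0 :=
  (bt_n (bt_n (bt_n (bt_b bx0_0) (bt_b bx0_1)) (bt_n (bt_b bx0_2) (bt_b bx0_3))) (bt_n (bt_n (bt_b bx0_4) (bt_b bx0_5)) (bt_n (bt_b bx0_6) (bt_b bx0_7))))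
def S0 : StarD := StarD.mk cl6 cl7 cl7 1 1 t0
theorem bx1_0 : BoxOK sI cl7 cl6 cl7 t0 t2 b1_0 :=
  box_mk (TrL.c (I.pos (nat_lit 0) (nat_lit 0)) (xa (xb (xa T0.l0 T0.l0) (xa T0.l0 T0.l0)) (xa (xb T0.l0 T0.l0) (xb T0.l0 T0.l7)))
  (TrL.c (I.pos (nat_lit 0) (nat_lit 0)) (xa (xb T2.l1 (xa T2.l1 T2.l1)) (xb (xk T2.l1 T2.l1) (xk T2.l1 T2.l1)))
  (TrL.c (I.pos (nat_lit 0) (nat_lit 111196574)) (xR (xR T0.l1 T0.l1) (xR T0.l1 T0.l1))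
  (TrL.c (I.pos (nat_lit 0) (nat_lit 77433728)) (xR T2.l2 T2.l2)
  (TrL.c (I.pos (nat_lit 0) (nat_lit 0)) (xa (xb (xa T2.l3 (xk T2.l3 T2.l3)) T2.l3) (xb (xk (xa T2.l3 (xb T2.l3 T2.l3)) (xa T2.l3 (xb T2.l3 T2.l3))) (xa (xk T2.l3 T2.l3) (xk (xb T2.l3 (xk T2.l3 (xs T2.l3 T2.l3))) (xb T2.l3 (xk (xs T2.l3 (xb T2.l3 T2.l3)) (xs T2.l3 (xb T2.l3 (xa T2.l3 T2.l3)))))))))
  (TrL.c (I.pos (nat_lit 0) (nat_lit 0)) (xk (xa T0.l2 T0.l2) (xa T0.l2 T0.l2))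
  (TrL.c (I.mix (nat_lit 29511666) (nat_lit 77433728)) (xR T2.l4 (xR T2.l4 T2.l4))
  (TrL.c (I.mix (nat_lit 29511666) (nat_lit 46070178)) (xR T0.l3 T0.l5)
  TrL.n)))))))) (by decide +kernel)
theorem bx1_1 : BoxOK sI cl7 cl6 cl7 t0 t2 b1_1 :=
  box_mk (TrL.c (I.pos (nat_lit 0) (nat_lit 0)) T0.l0
  (TrL.c (I.pos (nat_lit 0) (nat_lit 0)) T2.l1
  (TrL.c (I.pos (nat_lit 0) (nat_lit 111196574)) (xR T0.l1 T0.l1)
  (TrL.c (I.pos (nat_lit 0) (nat_lit 77433728)) (xR T2.l2 T2.l2)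
  (TrL.c (I.pos (nat_lit 0) (nat_lit 0)) T2.l3
  (TrL.c (I.pos (nat_lit 0) (nat_lit 0)) T0.l2
  (TrL.c (I.mix (nat_lit 29511666) (nat_lit 77433728)) T2.l4
  (TrL.c (I.mix (nat_lit 29511666) (nat_lit 46070178)) T0.l3
  TrL.n)))))))) (by decide +kernel)
theorem bx1_2 : BoxOK sI cl7 cl6 cl7 t0 t2 b1_2 :=
  box_mk (TrL.c (I.pos (nat_lit 0) (nat_lit 0)) T0.l0
  (TrL.c (I.pos (nat_lit 0) (nat_lit 0)) T2.l1
  (TrL.c (I.pos (nat_lit 0) (nat_lit 111196574)) T0.l1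
  (TrL.c (I.pos (nat_lit 0) (nat_lit 77433728)) (xR T2.l2 T2.l2)
  (TrL.c (I.pos (nat_lit 0) (nat_lit 0)) T2.l3
  (TrL.c (I.pos (nat_lit 0) (nat_lit 0)) T0.l2
  (TrL.c (I.mix (nat_lit 29511666) (nat_lit 77433728)) T2.l4
  (TrL.c (I.mix (nat_lit 29511666) (nat_lit 46070178)) T0.l3
  TrL.n)))))))) (by decide +kernel)
theorem bx1_3 : BoxOK sI cl7 cl6 cl7 t0 t2 b1_3 :=
  box_mk (TrL.c (I.pos (nat_lit 0) (nat_lit 0)) T0.l0
  (TrL.c (I.pos (nat_lit 0) (nat_lit 0)) T2.l3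
  (TrL.c (I.pos (nat_lit 0) (nat_lit 111196574)) T0.l1
  (TrL.c (I.pos (nat_lit 0) (nat_lit 77433728)) T2.l4
  (TrL.c (I.pos (nat_lit 0) (nat_lit 0)) T2.l1
  (TrL.c (I.pos (nat_lit 0) (nat_lit 0)) T0.l2
  (TrL.c (I.mix (nat_lit 29511666) (nat_lit 77433728)) T2.l4
  (TrL.c (I.mix (nat_lit 29511666) (nat_lit 46070178)) T0.l3
  TrL.n)))))))) (by decide +kernel)
theorem bx1_4 : BoxOK sI cl7 cl6 cl7 t0 t2 b1_4 :=
  box_mk (TrL.c (I.pos (nat_lit 0) (nat_lit 0)) T0.l0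
  (TrL.c (I.pos (nat_lit 0) (nat_lit 0)) T2.l1
  (TrL.c (I.pos (nat_lit 0) (nat_lit 111196574)) (xR T0.l1 T0.l1)
  (TrL.c (I.pos (nat_lit 0) (nat_lit 77433728)) (xR T2.l2 T2.l2)
  (TrL.c (I.pos (nat_lit 0) (nat_lit 0)) T2.l3
  (TrL.c (I.pos (nat_lit 0) (nat_lit 0)) T0.l2
  (TrL.c (I.mix (nat_lit 29511666) (nat_lit 77433728)) T2.l4
  (TrL.c (I.mix (nat_lit 29511666) (nat_lit 46070178)) T0.l3
  TrL.n)))))))) (by decide +kernel)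
theorem bx1_5 : BoxOK sI cl7 cl6 cl7 t0 t2 b1_5 :=
  box_mk (TrL.c (I.pos (nat_lit 0) (nat_lit 0)) (xa (xa (xb T0.l0 T0.l0) T0.l0) T0.l0)
  (TrL.c (I.pos (nat_lit 0) (nat_lit 0)) T2.l1
  (TrL.c (I.pos (nat_lit 0) (nat_lit 111196574)) (xR T0.l1 T0.l1)
  (TrL.c (I.pos (nat_lit 0) (nat_lit 77433728)) (xR T2.l4 T2.l2)
  (TrL.c (I.pos (nat_lit 0) (nat_lit 0)) T2.l3
  (TrL.c (I.pos (nat_lit 0) (nat_lit 0)) T0.l2
  (TrL.c (I.mix (nat_lit 29511666) (nat_lit 77433728)) T2.l4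
  (TrL.c (I.mix (nat_lit 29511666) (nat_lit 46070178)) T0.l3
  TrL.n)))))))) (by decide +kernel)
theorem bx1_6 : BoxOK sI cl7 cl6 cl7 t0 t2 b1_6 :=
  box_mk (TrL.c (I.pos (nat_lit 0) (nat_lit 0)) (xa (xb T0.l0 T0.l0) T0.l0)
  (TrL.c (I.pos (nat_lit 0) (nat_lit 0)) T2.l3
  (TrL.c (I.pos (nat_lit 0) (nat_lit 111196574)) T0.l1
  (TrL.c (I.pos (nat_lit 0) (nat_lit 77433728)) T2.l4
  (TrL.c (I.pos (nat_lit 0) (nat_lit 0)) T2.l1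
  (TrL.c (I.pos (nat_lit 0) (nat_lit 0)) T0.l1
  (TrL.c (I.mix (nat_lit 29511666) (nat_lit 77433728)) (xR T2.l4 T2.l2)
  (TrL.c (I.mix (nat_lit 29511666) (nat_lit 46070178)) T0.l6
  TrL.n)))))))) (by decide +kernel)
theorem bx1_7 : BoxOK sI cl7 cl6 cl7 t0 t2 b1_7 :=
  box_mk (TrL.c (I.pos (nat_lit 0) (nat_lit 0)) (xb (xa T0.l0 T0.l0) (xa T0.l0 T0.l0))
  (TrL.c (I.pos (nat_lit 0) (nat_lit 0)) (xb T2.l1 (xa T2.l1 T2.l1))
  (TrL.c (I.pos (nat_lit 0) (nat_lit 111196574)) (xR T0.l1 (xR T0.l1 T0.l1))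
  (TrL.c (I.pos (nat_lit 0) (nat_lit 77433728)) (xR T2.l2 T2.l2)
  (TrL.c (I.pos (nat_lit 0) (nat_lit 0)) (xb (xa T2.l0 (xk T2.l3 T2.l3)) (xb T2.l3 (xa T2.l3 T2.l3)))
  (TrL.c (I.pos (nat_lit 0) (nat_lit 0)) T0.l2
  (TrL.c (I.mix (nat_lit 29511666) (nat_lit 77433728)) (xR T2.l4 T2.l4)
  (TrL.c (I.mix (nat_lit 29511666) (nat_lit 46070178)) (xR T0.l3 T0.l5)
  TrL.n)))))))) (by decide +kernel)
theorem sv1 : StarV sI cl7 cl6 cl7 t0 t2 t1 :=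
  (bt_n (bt_n (bt_n (bt_b bx1_0) (bt_b bx1_1)) (bt_n (bt_b bx1_2) (bt_b bx1_3))) (bt_n (bt_n (bt_b bx1_4) (bt_b bx1_5)) (bt_n (bt_b bx1_6) (bt_b bx1_7))))
def S1 : StarD := StarD.mk cl7 cl6 cl7 0 2 t1
theorem bx2_0 : BoxOK sI cl7 cl7 cl6 t2 t0 b2_0 :=
  box_mk (TrL.c (I.pos (nat_lit 0) (nat_lit 0)) (xa (xa (xb T2.l0 T2.l0) (xb T2.l0 T2.l0)) (xa (xb T2.l0 T2.l0) (xb T2.l3 T2.l0)))
  (TrL.c (I.pos (nat_lit 0) (nat_lit 0)) (xa (xb T0.l4 (xa T0.l4 T0.l4)) (xa (xb T0.l4 T0.l4) (xk T0.l2 T0.l2)))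
  (TrL.c (I.pos (nat_lit 0) (nat_lit 111196574)) (xR (xR T2.l5 T2.l5) (xR T2.l5 T2.l5))
  (TrL.c (I.pos (nat_lit 0) (nat_lit 77433728)) (xR T0.l5 T0.l5)
  (TrL.c (I.pos (nat_lit 0) (nat_lit 0)) (xa (xb (xa T0.l7 T0.l7) T0.l7) (xb (xk (xa T0.l7 (xb T0.l7 T0.l7)) (xa T0.l7 (xb T0.l7 T0.l7))) (xa (xb T0.l7 T0.l7) (xk (xb T0.l7 (xa T0.l7 (xs T0.l7 T0.l7))) (xb T0.l7 (xa T0.l7 (xs T0.l7 (xk T0.l7 (xb T0.l7 T0.l7)))))))))
  (TrL.c (I.pos (nat_lit 0) (nat_lit 0)) (xk (xa T2.l6 T2.l6) (xa T2.l6 T2.l6))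
  (TrL.c (I.mix (nat_lit 29511666) (nat_lit 77433728)) (xR T0.l6 (xR T0.l6 T0.l6))
  (TrL.c (I.mix (nat_lit 29511666) (nat_lit 46070178)) (xR T2.l7 T2.l7)
  TrL.n)))))))) (by decide +kernel)
theorem bx2_1 : BoxOK sI cl7 cl7 cl6 t2 t0 b2_1 :=
  box_mk (TrL.c (I.pos (nat_lit 0) (nat_lit 0)) T2.l0
  (TrL.c (I.pos (nat_lit 0) (nat_lit 0)) T0.l4
  (TrL.c (I.pos (nat_lit 0) (nat_lit 111196574)) (xR T2.l5 T2.l5)
  (TrL.c (I.pos (nat_lit 0) (nat_lit 77433728)) (xR T0.l5 T0.l5)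
  (TrL.c (I.pos (nat_lit 0) (nat_lit 0)) T0.l7
  (TrL.c (I.pos (nat_lit 0) (nat_lit 0)) T2.l6
  (TrL.c (I.mix (nat_lit 29511666) (nat_lit 77433728)) (xR T0.l6 T0.l6)
  (TrL.c (I.mix (nat_lit 29511666) (nat_lit 46070178)) T2.l7
  TrL.n)))))))) (by decide +kernel)
theorem bx2_2 : BoxOK sI cl7 cl7 cl6 t2 t0 b2_2 :=
  box_mk (TrL.c (I.pos (nat_lit 0) (nat_lit 0)) T2.l0
  (TrL.c (I.pos (nat_lit 0) (nat_lit 0)) T0.l4
  (TrL.c (I.pos (nat_lit 0) (nat_lit 111196574)) T2.l5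
  (TrL.c (I.pos (nat_lit 0) (nat_lit 77433728)) (xR T0.l5 T0.l5)
  (TrL.c (I.pos (nat_lit 0) (nat_lit 0)) T0.l7
  (TrL.c (I.pos (nat_lit 0) (nat_lit 0)) T2.l6
  (TrL.c (I.mix (nat_lit 29511666) (nat_lit 77433728)) T0.l6
  (TrL.c (I.mix (nat_lit 29511666) (nat_lit 46070178)) T2.l7
  TrL.n)))))))) (by decide +kernel)
theorem bx2_3 : BoxOK sI cl7 cl7 cl6 t2 t0 b2_3 :=
  box_mk (TrL.c (I.pos (nat_lit 0) (nat_lit 0)) (xb (xa T2.l0 T2.l0) (xa (xb T2.l0 T2.l0) T2.l0))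
  (TrL.c (I.pos (nat_lit 0) (nat_lit 0)) (xb (xa T0.l4 T0.l4) (xa T0.l4 T0.l4))
  (TrL.c (I.pos (nat_lit 0) (nat_lit 111196574)) (xR T2.l5 (xR T2.l5 T2.l5))
  (TrL.c (I.pos (nat_lit 0) (nat_lit 77433728)) (xR T0.l5 T0.l5)
  (TrL.c (I.pos (nat_lit 0) (nat_lit 0)) (xb (xa T0.l7 (xk T0.l7 T0.l7)) (xb T0.l7 (xa T0.l7 (xk T0.l7 T0.l7))))
  (TrL.c (I.pos (nat_lit 0) (nat_lit 0)) T2.l6
  (TrL.c (I.mix (nat_lit 29511666) (nat_lit 77433728)) (xR T0.l6 T0.l6)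
  (TrL.c (I.mix (nat_lit 29511666) (nat_lit 46070178)) (xR T2.l7 T2.l7)
  TrL.n)))))))) (by decide +kernel)
theorem bx2_4 : BoxOK sI cl7 cl7 cl6 t2 t0 b2_4 :=
  box_mk (TrL.c (I.pos (nat_lit 0) (nat_lit 0)) (xa (xa (xb T2.l0 T2.l0) T2.l0) T2.l0)
  (TrL.c (I.pos (nat_lit 0) (nat_lit 0)) (xa T0.l7 T0.l4)
  (TrL.c (I.pos (nat_lit 0) (nat_lit 111196574)) (xR T2.l5 (xR T2.l5 T2.l5))
  (TrL.c (I.pos (nat_lit 0) (nat_lit 77433728)) (xR T0.l5 T0.l5)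
  (TrL.c (I.pos (nat_lit 0) (nat_lit 0)) (xa T0.l7 T0.l7)
  (TrL.c (I.pos (nat_lit 0) (nat_lit 0)) T2.l6
  (TrL.c (I.mix (nat_lit 29511666) (nat_lit 77433728)) T0.l6
  (TrL.c (I.mix (nat_lit 29511666) (nat_lit 46070178)) T2.l7
  TrL.n)))))))) (by decide +kernel)
theorem bx2_5 : BoxOK sI cl7 cl7 cl6 t2 t0 b2_5 :=
  box_mk (TrL.c (I.pos (nat_lit 0) (nat_lit 0)) (xa T2.l0 T2.l0)
  (TrL.c (I.pos (nat_lit 0) (nat_lit 0)) (xa T0.l4 T0.l4)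
  (TrL.c (I.pos (nat_lit 0) (nat_lit 111196574)) (xR T2.l5 T2.l5)
  (TrL.c (I.pos (nat_lit 0) (nat_lit 77433728)) T0.l5
  (TrL.c (I.pos (nat_lit 0) (nat_lit 0)) (xa T0.l7 T0.l7)
  (TrL.c (I.pos (nat_lit 0) (nat_lit 0)) T2.l6
  (TrL.c (I.mix (nat_lit 29511666) (nat_lit 77433728)) T0.l6
  (TrL.c (I.mix (nat_lit 29511666) (nat_lit 46070178)) T2.l7
  TrL.n)))))))) (by decide +kernel)
theorem bx2_6 : BoxOK sI cl7 cl7 cl6 t2 t0 b2_6 :=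
  box_mk (TrL.c (I.pos (nat_lit 0) (nat_lit 0)) T2.l0
  (TrL.c (I.pos (nat_lit 0) (nat_lit 0)) T0.l4
  (TrL.c (I.pos (nat_lit 0) (nat_lit 111196574)) (xR T2.l5 T2.l5)
  (TrL.c (I.pos (nat_lit 0) (nat_lit 77433728)) (xR T0.l5 T0.l5)
  (TrL.c (I.pos (nat_lit 0) (nat_lit 0)) T0.l7
  (TrL.c (I.pos (nat_lit 0) (nat_lit 0)) T2.l6
  (TrL.c (I.mix (nat_lit 29511666) (nat_lit 77433728)) (xR T0.l6 T0.l6)
  (TrL.c (I.mix (nat_lit 29511666) (nat_lit 46070178)) T2.l7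
  TrL.n)))))))) (by decide +kernel)
theorem bx2_7 : BoxOK sI cl7 cl7 cl6 t2 t0 b2_7 :=
  box_mk (TrL.c (I.pos (nat_lit 0) (nat_lit 0)) (xa (xa T2.l0 T2.l0) T2.l0)
  (TrL.c (I.pos (nat_lit 0) (nat_lit 0)) T0.l4
  (TrL.c (I.pos (nat_lit 0) (nat_lit 111196574)) T2.l5
  (TrL.c (I.pos (nat_lit 0) (nat_lit 77433728)) T0.l6
  (TrL.c (I.pos (nat_lit 0) (nat_lit 0)) T0.l7
  (TrL.c (I.pos (nat_lit 0) (nat_lit 0)) T2.l6
  (TrL.c (I.mix (nat_lit 29511666) (nat_lit 77433728)) T0.l6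
  (TrL.c (I.mix (nat_lit 29511666) (nat_lit 46070178)) T2.l4
  TrL.n)))))))) (by decide +kernel)
theorem sv2 : StarV sI cl7 cl7 cl6 t2 t0 t2 :=
  (bt_n (bt_n (bt_n (bt_b bx2_0) (bt_b bx2_1)) (bt_n (bt_b bx2_2) (bt_b bx2_3))) (bt_n (bt_n (bt_b bx2_4) (bt_b bx2_5)) (bt_n (bt_b bx2_6) (bt_b bx2_7))))
def S2 : StarD := StarD.mk cl7 cl7 cl6 2 0 t2
def G : List StarD := [S0, S1, S2]
theorem so0 : StarOK sI G S0 :=
  star_mk (by decide) (by decide) rfl rfl rfl rfl rfl rfl (rfl : _ = t1) (rfl : _ = t1)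
  (st_mk (Pth.l (Pth.l (Pth.l Pth.z))) (nat_lit 141866632) (nat_lit 164314087) (by decide +kernel))
  (st_mk (Pth.l (Pth.l (Pth.l Pth.z))) (nat_lit 177809898) (nat_lit 200570415) (by decide +kernel))
  (st_mk (Pth.l (Pth.l (Pth.l Pth.z))) (nat_lit 219582454) (nat_lit 242763377) (by decide +kernel)) sv0
theorem so1 : StarOK sI G S1 :=
  star_mk (by decide) (by decide) rfl rfl rfl rfl rfl rfl (rfl : _ = t0) (rfl : _ = t2)
  (st_mk (Pth.l (Pth.l (Pth.l Pth.z))) (nat_lit 187467804) (nat_lit 188968877) (by decide +kernel))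
  (st_mk (Pth.l (Pth.l (Pth.l Pth.z))) (nat_lit 223038443) (nat_lit 224945059) (by decide +kernel))
  (st_mk (Pth.l (Pth.l (Pth.l Pth.z))) (nat_lit 264230070) (nat_lit 266698929) (by decide +kernel)) sv1
theorem so2 : StarOK sI G S2 :=
  star_mk (by decide) (by decide) rfl rfl rfl rfl rfl rfl (rfl : _ = t2) (rfl : _ = t0)
  (st_mk (Pth.l (Pth.l (Pth.l Pth.z))) (nat_lit 141084746) (nat_lit 163632524) (by decide +kernel))
  (st_mk (Pth.l (Pth.l (Pth.l Pth.z))) (nat_lit 176586149) (nat_lit 199542782) (by decide +kernel))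
  (st_mk (Pth.l (Pth.l (Pth.l Pth.z))) (nat_lit 217718416) (nat_lit 241240402) (by decide +kernel)) sv2
theorem ok : GroupOK (nat_lit 91226112) (nat_lit 150339584) G := grp_mk (allS_c so0 (allS_c so1 (allS_c so2 allS_n)))
theorem cov : GCov G cl6 cl7 cl7 := cov_mk
  ⟨0, by decide, rfl, rfl, rfl⟩ ⟨0, by decide, rfl, rfl, rfl⟩ ⟨1, by decide, rfl, rfl, rfl⟩ ⟨2, by decide, rfl, rfl, rfl⟩ ⟨1, by decide, rfl, rfl, rfl⟩ ⟨2, by decide, rfl, rfl, rfl⟩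
end Q344_1

namespace Q344_2
def sI : I := I.pos (nat_lit 150274048) (nat_lit 209387520)
def b0_0 : Bx := Bx.mk (St.mk (I.pos (nat_lit 158531584) (nat_lit 233046016)) (I.mix (nat_lit 1720320) (nat_lit 56164352)) (I.mix (nat_lit 2588672) (nat_lit 87949312)) (I.pos (nat_lit 140656640) (nat_lit 265748480)) (I.mix (nat_lit 105152512) (nat_lit 56590336)) (I.mix (nat_lit 68976640) (nat_lit 55525376)) (I.mix (nat_lit 91635712) (nat_lit 76349440)))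
  false (nat_lit 0)
def b0_1 : Bx := Bx.mk (St.mk (I.mix (nat_lit 24576000) (nat_lit 122454016)) (I.mix (nat_lit 10092544) (nat_lit 34144256)) (I.mix (nat_lit 18022400) (nat_lit 19578880)) (I.pos (nat_lit 40189952) (nat_lit 117964800)) (I.mix (nat_lit 40730624) (nat_lit 33292288)) (I.mix (nat_lit 28213248) (nat_lit 23478272)) (I.mix (nat_lit 20791296) (nat_lit 15794176)))
  false (nat_lit 0)
def b0_2 : Bx := Bx.mk (St.mk (I.pos (nat_lit 90980352) (nat_lit 138018816)) (I.mix (nat_lit 53444608) (nat_lit 9043968)) (I.mix (nat_lit 53673984) (nat_lit 294912)) (I.pos (nat_lit 77856768) (nat_lit 132038656)) (I.mix (nat_lit 76988416) (nat_lit 23101440)) (I.mix (nat_lit 29196288) (nat_lit 64159744)) (I.mix (nat_lit 20561920) (nat_lit 47693824)))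
  false (nat_lit 0)
def b0_3 : Bx := Bx.mk (St.mk (I.mix (nat_lit 37404672) (nat_lit 69812224)) (I.mix (nat_lit 29999104) (nat_lit 5128192)) (I.mix (nat_lit 17793024) (nat_lit 1474560)) (I.pos (nat_lit 41664512) (nat_lit 81510400)) (I.mix (nat_lit 34078720) (nat_lit 18923520)) (I.mix (nat_lit 16089088) (nat_lit 25952256)) (I.mix (nat_lit 7897088) (nat_lit 10190848)))
  false (nat_lit 0)
def b0_4 : Bx := Bx.mk (St.mk (I.pos (nat_lit 196165632) (nat_lit 285556736)) (I.mix (nat_lit 28344320) (nat_lit 38420480)) (I.mix (nat_lit 85803008) (nat_lit 52199424)) (I.pos (nat_lit 215793664) (nat_lit 376651776)) (I.mix (nat_lit 71270400) (nat_lit 46989312)) (I.mix (nat_lit 48840704) (nat_lit 41926656)) (I.mix (nat_lit 87621632) (nat_lit 72122368)))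
  false (nat_lit 0)
def b0_5 : Bx := Bx.mk (St.mk (I.pos (nat_lit 103956480) (nat_lit 175505408)) (I.neg (nat_lit 6668288) (nat_lit 52838400)) (I.neg (nat_lit 2818048) (nat_lit 52690944)) (I.pos (nat_lit 96813056) (nat_lit 180174848)) (I.mix (nat_lit 69009408) (nat_lit 36569088)) (I.mix (nat_lit 35766272) (nat_lit 47972352)) (I.mix (nat_lit 30457856) (nat_lit 44433408)))
  false (nat_lit 0)
def b0_6 : Bx := Bx.mk (St.mk (I.mix (nat_lit 27803648) (nat_lit 85295104)) (I.mix (nat_lit 32145408) (nat_lit 6963200)) (I.mix (nat_lit 21086208) (nat_lit 2965504)) (I.pos (nat_lit 39043072) (nat_lit 90636288)) (I.mix (nat_lit 36306944) (nat_lit 31211520)) (I.mix (nat_lit 23363584) (nat_lit 29425664)) (I.mix (nat_lit 13107200) (nat_lit 16318464)))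
  false (nat_lit 0)
def b0_7 : Bx := Bx.mk (St.mk (I.pos (nat_lit 164724736) (nat_lit 213942272)) (I.mix (nat_lit 8142848) (nat_lit 56426496)) (I.pos (nat_lit 5046272) (nat_lit 84525056)) (I.pos (nat_lit 156270592) (nat_lit 236404736)) (I.mix (nat_lit 118259712) (nat_lit 41631744)) (I.mix (nat_lit 107888640) (nat_lit 58671104)) (I.mix (nat_lit 114343936) (nat_lit 58146816)))
  false (nat_lit 0)
def b0_8 : Bx := Bx.mk (St.mk (I.mix (nat_lit 38141952) (nat_lit 107347968)) (I.mix (nat_lit 13221888) (nat_lit 34766848)) (I.mix (nat_lit 10633216) (nat_lit 21594112)) (I.pos (nat_lit 40665088) (nat_lit 106266624)) (I.mix (nat_lit 49577984) (nat_lit 23281664)) (I.mix (nat_lit 40943616) (nat_lit 26001408)) (I.mix (nat_lit 21856256) (nat_lit 15663104)))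
  false (nat_lit 0)
def b0_9 : Bx := Bx.mk (St.mk (I.pos (nat_lit 140967936) (nat_lit 204292096)) (I.mix (nat_lit 39075840) (nat_lit 14532608)) (I.mix (nat_lit 41123840) (nat_lit 28868608)) (I.pos (nat_lit 127598592) (nat_lit 214990848)) (I.mix (nat_lit 50888704) (nat_lit 44335104)) (I.mix (nat_lit 46546944) (nat_lit 40386560)) (I.mix (nat_lit 47366144) (nat_lit 40845312)))
  false (nat_lit 0)
def b0_10 : Bx := Bx.mk (St.mk (I.pos (nat_lit 164298752) (nat_lit 206045184)) (I.mix (nat_lit 14204928) (nat_lit 32440320)) (I.mix (nat_lit 4554752) (nat_lit 54427648)) (I.pos (nat_lit 156729344) (nat_lit 219627520)) (I.mix (nat_lit 101662720) (nat_lit 46563328)) (I.mix (nat_lit 102400000) (nat_lit 43401216)) (I.mix (nat_lit 108806144) (nat_lit 44335104)))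
  false (nat_lit 0)
def b0_11 : Bx := Bx.mk (St.mk (I.pos (nat_lit 181780480) (nat_lit 234405888)) (I.pos (nat_lit 9715712) (nat_lit 55296000)) (I.pos (nat_lit 11059200) (nat_lit 85524480)) (I.pos (nat_lit 204029952) (nat_lit 264339456)) (I.mix (nat_lit 89309184) (nat_lit 62668800)) (I.mix (nat_lit 72974336) (nat_lit 53919744)) (I.mix (nat_lit 112082944) (nat_lit 65388544)))
  false (nat_lit 0)
def t0 : BTr := (BTr.n (BTr.n (BTr.n (BTr.b b0_0) (BTr.n (BTr.b b0_1) (BTr.b b0_2))) (BTr.n (BTr.b b0_3) (BTr.n (BTr.b b0_4) (BTr.b b0_5)))) (BTr.n (BTr.n (BTr.b b0_6) (BTr.n (BTr.b b0_7) (BTr.b b0_8))) (BTr.n (BTr.b b0_9) (BTr.n (BTr.b b0_10) (BTr.b b0_11)))))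
namespace T0
def l0 : Tr := Tr.L (Pth.l (Pth.l (Pth.l Pth.z)))
def l1 : Tr := Tr.L (Pth.l (Pth.l (Pth.r (Pth.l Pth.z))))
def l2 : Tr := Tr.L (Pth.l (Pth.l (Pth.r (Pth.r Pth.z))))
def l3 : Tr := Tr.L (Pth.l (Pth.r (Pth.l Pth.z)))
def l4 : Tr := Tr.L (Pth.l (Pth.r (Pth.r (Pth.l Pth.z))))
def l5 : Tr := Tr.L (Pth.l (Pth.r (Pth.r (Pth.r Pth.z))))
def l6 : Tr := Tr.L (Pth.r (Pth.l (Pth.l Pth.z)))
def l7 : Tr := Tr.L (Pth.r (Pth.l (Pth.r (Pth.l Pth.z))))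
def l8 : Tr := Tr.L (Pth.r (Pth.l (Pth.r (Pth.r Pth.z))))
def l9 : Tr := Tr.L (Pth.r (Pth.r (Pth.l Pth.z)))
def l10 : Tr := Tr.L (Pth.r (Pth.r (Pth.r (Pth.l Pth.z))))
def l11 : Tr := Tr.L (Pth.r (Pth.r (Pth.r (Pth.r Pth.z))))
end T0
def b1_0 : Bx := Bx.mk (St.mk (I.pos (nat_lit 154435584) (nat_lit 229457920)) (I.mix (nat_lit 1835008) (nat_lit 60014592)) (I.mix (nat_lit 2752512) (nat_lit 93093888)) (I.pos (nat_lit 184401920) (nat_lit 286982144)) (I.mix (nat_lit 106070016) (nat_lit 60604416)) (I.mix (nat_lit 66633728) (nat_lit 56885248)) (I.mix (nat_lit 89325568) (nat_lit 76283904)))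
  false (nat_lit 1375624)
def b1_1 : Bx := Bx.mk (St.mk (I.pos (nat_lit 88817664) (nat_lit 162136064)) (I.neg (nat_lit 6209536) (nat_lit 57360384)) (I.mix (nat_lit 51593216) (nat_lit 2162688)) (I.pos (nat_lit 126107648) (nat_lit 189448192)) (I.mix (nat_lit 68763648) (nat_lit 40189952)) (I.mix (nat_lit 31604736) (nat_lit 52084736)) (I.mix (nat_lit 24608768) (nat_lit 44711936)))
  false (nat_lit 0)
def b1_2 : Bx := Bx.mk (St.mk (I.mix (nat_lit 32735232) (nat_lit 99958784)) (I.mix (nat_lit 9093120) (nat_lit 37502976)) (I.mix (nat_lit 16498688) (nat_lit 16564224)) (I.pos (nat_lit 78626816) (nat_lit 125861888)) (I.mix (nat_lit 37388288) (nat_lit 44728320)) (I.mix (nat_lit 38338560) (nat_lit 27803648)) (I.mix (nat_lit 25149440) (nat_lit 15597568)))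
  false (nat_lit 0)
def b1_3 : Bx := Bx.mk (St.mk (I.mix (nat_lit 32620544) (nat_lit 49266688)) (I.mix (nat_lit 32964608) (nat_lit 7110656)) (I.mix (nat_lit 12468224) (nat_lit 3801088)) (I.pos (nat_lit 82804736) (nat_lit 101105664)) (I.mix (nat_lit 27557888) (nat_lit 29081600)) (I.mix (nat_lit 17612800) (nat_lit 25919488)) (I.mix (nat_lit 7438336) (nat_lit 9715712)))
  false (nat_lit 0)
def b1_4 : Bx := Bx.mk (St.mk (I.pos (nat_lit 160235520) (nat_lit 208338944)) (I.mix (nat_lit 1622016) (nat_lit 59473920)) (I.pos (nat_lit 14745600) (nat_lit 89735168)) (I.pos (nat_lit 192708608) (nat_lit 255098880)) (I.mix (nat_lit 115621888) (nat_lit 34111488)) (I.mix (nat_lit 96878592) (nat_lit 55033856)) (I.mix (nat_lit 94126080) (nat_lit 49496064)))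
  false (nat_lit 0)
def b1_5 : Bx := Bx.mk (St.mk (I.pos (nat_lit 77938688) (nat_lit 122748928)) (I.mix (nat_lit 58212352) (nat_lit 9994240)) (I.neg (nat_lit 802816) (nat_lit 52117504)) (I.pos (nat_lit 112574464) (nat_lit 147750912)) (I.mix (nat_lit 75415552) (nat_lit 22511616)) (I.mix (nat_lit 29736960) (nat_lit 59392000)) (I.mix (nat_lit 22216704) (nat_lit 40026112)))
  false (nat_lit 0)
def b1_6 : Bx := Bx.mk (St.mk (I.mix (nat_lit 50315264) (nat_lit 76972032)) (I.mix (nat_lit 10485760) (nat_lit 38797312)) (I.mix (nat_lit 14647296) (nat_lit 13434880)) (I.pos (nat_lit 82870272) (nat_lit 110542848)) (I.mix (nat_lit 41418752) (nat_lit 28966912)) (I.mix (nat_lit 34865152) (nat_lit 23330816)) (I.mix (nat_lit 12746752) (nat_lit 13156352)))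
  false (nat_lit 0)
def b1_7 : Bx := Bx.mk (St.mk (I.mix (nat_lit 49954816) (nat_lit 30523392)) (I.mix (nat_lit 32849920) (nat_lit 7274496)) (I.mix (nat_lit 10846208) (nat_lit 4243456)) (I.pos (nat_lit 83279872) (nat_lit 101187584)) (I.mix (nat_lit 32161792) (nat_lit 22462464)) (I.mix (nat_lit 16957440) (nat_lit 26640384)) (I.mix (nat_lit 10059776) (nat_lit 6029312)))
  false (nat_lit 0)
def b1_8 : Bx := Bx.mk (St.mk (I.pos (nat_lit 189120512) (nat_lit 287391744)) (I.mix (nat_lit 27508736) (nat_lit 45187072)) (I.mix (nat_lit 84197376) (nat_lit 63291392)) (I.pos (nat_lit 244989952) (nat_lit 400048128)) (I.mix (nat_lit 74727424) (nat_lit 57196544)) (I.mix (nat_lit 56819712) (nat_lit 42057728)) (I.mix (nat_lit 100876288) (nat_lit 77004800)))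
  false (nat_lit 0)
def b1_9 : Bx := Bx.mk (St.mk (I.pos (nat_lit 137232384) (nat_lit 197640192)) (I.mix (nat_lit 39288832) (nat_lit 14270464)) (I.mix (nat_lit 33931264) (nat_lit 33521664)) (I.pos (nat_lit 164315136) (nat_lit 230227968)) (I.mix (nat_lit 50233344) (nat_lit 44056576)) (I.mix (nat_lit 41697280) (nat_lit 38371328)) (I.mix (nat_lit 38649856) (nat_lit 36716544)))
  false (nat_lit 0)
def b1_10 : Bx := Bx.mk (St.mk (I.pos (nat_lit 175767552) (nat_lit 231686144)) (I.pos (nat_lit 11059200) (nat_lit 60260352)) (I.pos (nat_lit 13959168) (nat_lit 92127232)) (I.pos (nat_lit 233734144) (nat_lit 286883840)) (I.mix (nat_lit 98271232) (nat_lit 72466432)) (I.mix (nat_lit 81510400) (nat_lit 59555840)) (I.mix (nat_lit 118915072) (nat_lit 73007104)))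
  false (nat_lit 6068006)
def b1_11 : Bx := Bx.mk (St.mk (I.pos (nat_lit 158892032) (nat_lit 198066176)) (I.mix (nat_lit 9961472) (nat_lit 34373632)) (I.pos (nat_lit 3211264) (nat_lit 60768256)) (I.pos (nat_lit 192282624) (nat_lit 235323392)) (I.mix (nat_lit 103219200) (nat_lit 45498368)) (I.mix (nat_lit 102580224) (nat_lit 42876928)) (I.mix (nat_lit 101646336) (nat_lit 41074688)))
  false (nat_lit 0)
def t1 : BTr := (BTr.n (BTr.n (BTr.n (BTr.b b1_0) (BTr.n (BTr.b b1_1) (BTr.b b1_2))) (BTr.n (BTr.b b1_3) (BTr.n (BTr.b b1_4) (BTr.b b1_5)))) (BTr.n (BTr.n (BTr.b b1_6) (BTr.n (BTr.b b1_7) (BTr.b b1_8))) (BTr.n (BTr.b b1_9) (BTr.n (BTr.b b1_10) (BTr.b b1_11)))))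
namespace T1
def l0 : Tr := Tr.L (Pth.l (Pth.l (Pth.l Pth.z)))
def l1 : Tr := Tr.L (Pth.l (Pth.l (Pth.r (Pth.l Pth.z))))
def l2 : Tr := Tr.L (Pth.l (Pth.l (Pth.r (Pth.r Pth.z))))
def l3 : Tr := Tr.L (Pth.l (Pth.r (Pth.l Pth.z)))
def l4 : Tr := Tr.L (Pth.l (Pth.r (Pth.r (Pth.l Pth.z))))
def l5 : Tr := Tr.L (Pth.l (Pth.r (Pth.r (Pth.r Pth.z))))
def l6 : Tr := Tr.L (Pth.r (Pth.l (Pth.l Pth.z)))
def l7 : Tr := Tr.L (Pth.r (Pth.l (Pth.r (Pth.l Pth.z))))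
def l8 : Tr := Tr.L (Pth.r (Pth.l (Pth.r (Pth.r Pth.z))))
def l9 : Tr := Tr.L (Pth.r (Pth.r (Pth.l Pth.z)))
def l10 : Tr := Tr.L (Pth.r (Pth.r (Pth.r (Pth.l Pth.z))))
def l11 : Tr := Tr.L (Pth.r (Pth.r (Pth.r (Pth.r Pth.z))))
end T1
def b2_0 : Bx := Bx.mk (St.mk (I.pos (nat_lit 152403968) (nat_lit 233832448)) (I.mix (nat_lit 1671168) (nat_lit 54706176)) (I.mix (nat_lit 2834432) (nat_lit 98385920)) (I.pos (nat_lit 139886592) (nat_lit 261619712)) (I.mix (nat_lit 116916224) (nat_lit 69582848)) (I.mix (nat_lit 82739200) (nat_lit 69582848)) (I.mix (nat_lit 112918528) (nat_lit 90062848)))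
  false (nat_lit 12250645)
def b2_1 : Bx := Bx.mk (St.mk (I.pos (nat_lit 102776832) (nat_lit 174833664)) (I.neg (nat_lit 5390336) (nat_lit 54853632)) (I.mix (nat_lit 48758784) (nat_lit 7520256)) (I.pos (nat_lit 99794944) (nat_lit 178683904)) (I.mix (nat_lit 64897024) (nat_lit 36683776)) (I.mix (nat_lit 30654464) (nat_lit 45416448)) (I.mix (nat_lit 26836992) (nat_lit 42336256)))
  false (nat_lit 0)
def b2_2 : Bx := Bx.mk (St.mk (I.mix (nat_lit 33161216) (nat_lit 86917120)) (I.mix (nat_lit 34209792) (nat_lit 5652480)) (I.mix (nat_lit 17809408) (nat_lit 7667712)) (I.pos (nat_lit 38371328) (nat_lit 91193344)) (I.mix (nat_lit 36159488) (nat_lit 30294016)) (I.mix (nat_lit 21889024) (nat_lit 26378240)) (I.mix (nat_lit 11255808) (nat_lit 14286848)))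
  false (nat_lit 0)
def b2_3 : Bx := Bx.mk (St.mk (I.pos (nat_lit 164102144) (nat_lit 210894848)) (I.mix (nat_lit 8142848) (nat_lit 54165504)) (I.pos (nat_lit 12451840) (nat_lit 91832320)) (I.pos (nat_lit 152305664) (nat_lit 228999168)) (I.mix (nat_lit 119242752) (nat_lit 40009728)) (I.mix (nat_lit 103841792) (nat_lit 57753600)) (I.mix (nat_lit 112984064) (nat_lit 54444032)))
  false (nat_lit 0)
def b2_4 : Bx := Bx.mk (St.mk (I.mix (nat_lit 38682624) (nat_lit 106004480)) (I.mix (nat_lit 13008896) (nat_lit 36093952)) (I.mix (nat_lit 5963776) (nat_lit 27688960)) (I.pos (nat_lit 41058304) (nat_lit 105349120)) (I.mix (nat_lit 48857088) (nat_lit 21069824)) (I.mix (nat_lit 38699008) (nat_lit 24051712)) (I.mix (nat_lit 21168128) (nat_lit 14565376)))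
  false (nat_lit 0)
def b2_5 : Bx := Bx.mk (St.mk (I.pos (nat_lit 145113088) (nat_lit 202948608)) (I.mix (nat_lit 39288832) (nat_lit 13336576)) (I.mix (nat_lit 31801344) (nat_lit 38567936)) (I.pos (nat_lit 130957312) (nat_lit 213467136)) (I.mix (nat_lit 43794432) (nat_lit 44318720)) (I.mix (nat_lit 40419328) (nat_lit 40091648)) (I.mix (nat_lit 40091648) (nat_lit 41222144)))
  false (nat_lit 0)
def b2_6 : Bx := Bx.mk (St.mk (I.mix (nat_lit 27000832) (nat_lit 121520128)) (I.mix (nat_lit 8044544) (nat_lit 33865728)) (I.mix (nat_lit 9945088) (nat_lit 25772032)) (I.pos (nat_lit 40222720) (nat_lit 117030912)) (I.mix (nat_lit 45219840) (nat_lit 35733504)) (I.mix (nat_lit 32292864) (nat_lit 26738688)) (I.mix (nat_lit 23478272) (nat_lit 18759680)))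
  false (nat_lit 0)
def b2_7 : Bx := Bx.mk (St.mk (I.pos (nat_lit 91389952) (nat_lit 141164544)) (I.mix (nat_lit 53231616) (nat_lit 8880128)) (I.mix (nat_lit 46727168) (nat_lit 6045696)) (I.pos (nat_lit 79282176) (nat_lit 135626752)) (I.mix (nat_lit 77168640) (nat_lit 24657920)) (I.mix (nat_lit 30408704) (nat_lit 66174976)) (I.mix (nat_lit 22216704) (nat_lit 47710208)))
  false (nat_lit 0)
def b2_8 : Bx := Bx.mk (St.mk (I.mix (nat_lit 35373056) (nat_lit 70107136)) (I.mix (nat_lit 29163520) (nat_lit 4964352)) (I.mix (nat_lit 13582336) (nat_lit 5423104)) (I.pos (nat_lit 41795584) (nat_lit 82018304)) (I.mix (nat_lit 31817728) (nat_lit 17743872)) (I.mix (nat_lit 13320192) (nat_lit 26738688)) (I.mix (nat_lit 7733248) (nat_lit 10059776)))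
  false (nat_lit 0)
def b2_9 : Bx := Bx.mk (St.mk (I.pos (nat_lit 189218816) (nat_lit 286769152)) (I.mix (nat_lit 26361856) (nat_lit 41664512)) (I.mix (nat_lit 60915712) (nat_lit 75644928)) (I.pos (nat_lit 205946880) (nat_lit 373194752)) (I.mix (nat_lit 73334784) (nat_lit 55197696)) (I.mix (nat_lit 52985856) (nat_lit 41566208)) (I.mix (nat_lit 93618176) (nat_lit 70565888)))
  false (nat_lit 0)
def b2_10 : Bx := Bx.mk (St.mk (I.pos (nat_lit 176439296) (nat_lit 233603072)) (I.pos (nat_lit 9371648) (nat_lit 53985280)) (I.pos (nat_lit 21250048) (nat_lit 96059392)) (I.pos (nat_lit 195231744) (nat_lit 258211840)) (I.mix (nat_lit 97533952) (nat_lit 70746112)) (I.mix (nat_lit 83214336) (nat_lit 61767680)) (I.mix (nat_lit 125648896) (nat_lit 74481664)))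
  false (nat_lit 0)
def b2_11 : Bx := Bx.mk (St.mk (I.pos (nat_lit 163069952) (nat_lit 205471744)) (I.mix (nat_lit 15319040) (nat_lit 30310400)) (I.pos (nat_lit 4014080) (nat_lit 62226432)) (I.pos (nat_lit 151846912) (nat_lit 215023616)) (I.mix (nat_lit 99598336) (nat_lit 42958848)) (I.mix (nat_lit 97517568) (nat_lit 40222720)) (I.mix (nat_lit 105250816) (nat_lit 40058880)))
  false (nat_lit 0)
def t2 : BTr := (BTr.n (BTr.n (BTr.n (BTr.b b2_0) (BTr.n (BTr.b b2_1) (BTr.b b2_2))) (BTr.n (BTr.b b2_3) (BTr.n (BTr.b b2_4) (BTr.b b2_5)))) (BTr.n (BTr.n (BTr.b b2_6) (BTr.n (BTr.b b2_7) (BTr.b b2_8))) (BTr.n (BTr.b b2_9) (BTr.n (BTr.b b2_10) (BTr.b b2_11)))))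
namespace T2
def l0 : Tr := Tr.L (Pth.l (Pth.l (Pth.l Pth.z)))
def l1 : Tr := Tr.L (Pth.l (Pth.l (Pth.r (Pth.l Pth.z))))
def l2 : Tr := Tr.L (Pth.l (Pth.l (Pth.r (Pth.r Pth.z))))
def l3 : Tr := Tr.L (Pth.l (Pth.r (Pth.l Pth.z)))
def l4 : Tr := Tr.L (Pth.l (Pth.r (Pth.r (Pth.l Pth.z))))
def l5 : Tr := Tr.L (Pth.l (Pth.r (Pth.r (Pth.r Pth.z))))
def l6 : Tr := Tr.L (Pth.r (Pth.l (Pth.l Pth.z)))
def l7 : Tr := Tr.L (Pth.r (Pth.l (Pth.r (Pth.l Pth.z))))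
def l8 : Tr := Tr.L (Pth.r (Pth.l (Pth.r (Pth.r Pth.z))))
def l9 : Tr := Tr.L (Pth.r (Pth.r (Pth.l Pth.z)))
def l10 : Tr := Tr.L (Pth.r (Pth.r (Pth.r (Pth.l Pth.z))))
def l11 : Tr := Tr.L (Pth.r (Pth.r (Pth.r (Pth.r Pth.z))))
end T2
theorem bx0_0 : BoxOK sI cl6 cl7 cl7 t1 t1 b0_0 :=
  box_mk (TrL.c (I.pos (nat_lit 0) (nat_lit 0)) (xa (xb T1.l10 (xa T1.l0 T1.l0)) (xb T1.l0 (xa T1.l0 T1.l0)))
  (TrL.c (I.pos (nat_lit 0) (nat_lit 0)) (xa T1.l1 T1.l1)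
  (TrL.c (I.pos (nat_lit 0) (nat_lit 89480386)) T1.l2
  (TrL.c (I.pos (nat_lit 0) (nat_lit 41530880)) T1.l3
  (TrL.c (I.pos (nat_lit 0) (nat_lit 0)) (xa T1.l4 (xb T1.l4 T1.l4))
  (TrL.c (I.pos (nat_lit 0) (nat_lit 0)) T1.l5
  (TrL.c (I.mix (nat_lit 41527258) (nat_lit 41530880)) T1.l6
  (TrL.c (I.mix (nat_lit 41527258) (nat_lit 4274)) T1.l7
  TrL.n)))))))) (by decide +kernel)
theorem bx0_1 : BoxOK sI cl6 cl7 cl7 t1 t1 b0_1 :=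
  box_mk (TrL.c (I.pos (nat_lit 0) (nat_lit 0)) (xa (xa T1.l8 T1.l8) (xa T1.l8 T1.l8))
  (TrL.c (I.pos (nat_lit 0) (nat_lit 0)) T1.l1
  (TrL.c (I.pos (nat_lit 0) (nat_lit 89480386)) T1.l2
  (TrL.c (I.pos (nat_lit 0) (nat_lit 41530880)) T1.l3
  (TrL.c (I.pos (nat_lit 0) (nat_lit 0)) (xa T1.l9 T1.l9)
  (TrL.c (I.pos (nat_lit 0) (nat_lit 0)) T1.l5
  (TrL.c (I.mix (nat_lit 41527258) (nat_lit 41530880)) T1.l6
  (TrL.c (I.mix (nat_lit 41527258) (nat_lit 4274)) T1.l7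
  TrL.n)))))))) (by decide +kernel)
theorem bx0_2 : BoxOK sI cl6 cl7 cl7 t1 t1 b0_2 :=
  box_mk (TrL.c (I.pos (nat_lit 0) (nat_lit 0)) (xb T1.l8 T1.l8)
  (TrL.c (I.pos (nat_lit 0) (nat_lit 0)) T1.l1
  (TrL.c (I.pos (nat_lit 0) (nat_lit 89480386)) T1.l2
  (TrL.c (I.pos (nat_lit 0) (nat_lit 41530880)) T1.l3
  (TrL.c (I.pos (nat_lit 0) (nat_lit 0)) T1.l9
  (TrL.c (I.pos (nat_lit 0) (nat_lit 0)) T1.l5
  (TrL.c (I.mix (nat_lit 41527258) (nat_lit 41530880)) T1.l6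
  (TrL.c (I.mix (nat_lit 41527258) (nat_lit 4274)) T1.l7
  TrL.n)))))))) (by decide +kernel)
theorem bx0_3 : BoxOK sI cl6 cl7 cl7 t1 t1 b0_3 :=
  box_mk (TrL.c (I.pos (nat_lit 0) (nat_lit 0)) (xa (xa T1.l8 T1.l8) T1.l8)
  (TrL.c (I.pos (nat_lit 0) (nat_lit 0)) T1.l1
  (TrL.c (I.pos (nat_lit 0) (nat_lit 89480386)) T1.l2
  (TrL.c (I.pos (nat_lit 0) (nat_lit 41530880)) T1.l3
  (TrL.c (I.pos (nat_lit 0) (nat_lit 0)) T1.l9
  (TrL.c (I.pos (nat_lit 0) (nat_lit 0)) T1.l5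
  (TrL.c (I.mix (nat_lit 41527258) (nat_lit 41530880)) T1.l6
  (TrL.c (I.mix (nat_lit 41527258) (nat_lit 4274)) T1.l7
  TrL.n)))))))) (by decide +kernel)
theorem bx0_4 : BoxOK sI cl6 cl7 cl7 t1 t1 b0_4 :=
  box_mk (TrL.c (I.pos (nat_lit 0) (nat_lit 0)) (xa (xb T1.l0 (xa T1.l0 T1.l0)) (xb (xa T1.l0 T1.l0) (xa T1.l0 T1.l0)))
  (TrL.c (I.pos (nat_lit 0) (nat_lit 0)) (xa T1.l1 T1.l5)
  (TrL.c (I.pos (nat_lit 0) (nat_lit 89480386)) (xR T1.l2 T1.l2)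
  (TrL.c (I.pos (nat_lit 0) (nat_lit 41530880)) T1.l3
  (TrL.c (I.pos (nat_lit 0) (nat_lit 0)) (xa (xb (xa T1.l4 T1.l0) T1.l4) (xb (xa T1.l4 (xb T1.l4 T1.l4)) (xa T1.l4 (xb T1.l4 T1.l4))))
  (TrL.c (I.pos (nat_lit 0) (nat_lit 0)) (xa T1.l5 T1.l5)
  (TrL.c (I.mix (nat_lit 41527258) (nat_lit 41530880)) (xR T1.l2 T1.l2)
  (TrL.c (I.mix (nat_lit 41527258) (nat_lit 4274)) T1.l7
  TrL.n)))))))) (by decide +kernel)
theorem bx0_5 : BoxOK sI cl6 cl7 cl7 t1 t1 b0_5 :=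
  box_mk (TrL.c (I.pos (nat_lit 0) (nat_lit 0)) (xa T1.l8 T1.l8)
  (TrL.c (I.pos (nat_lit 0) (nat_lit 0)) T1.l1
  (TrL.c (I.pos (nat_lit 0) (nat_lit 89480386)) T1.l2
  (TrL.c (I.pos (nat_lit 0) (nat_lit 41530880)) T1.l3
  (TrL.c (I.pos (nat_lit 0) (nat_lit 0)) (xa T1.l9 T1.l9)
  (TrL.c (I.pos (nat_lit 0) (nat_lit 0)) T1.l5
  (TrL.c (I.mix (nat_lit 41527258) (nat_lit 41530880)) T1.l6
  (TrL.c (I.mix (nat_lit 41527258) (nat_lit 4274)) T1.l7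
  TrL.n)))))))) (by decide +kernel)
theorem bx0_6 : BoxOK sI cl6 cl7 cl7 t1 t1 b0_6 :=
  box_mk (TrL.c (I.pos (nat_lit 0) (nat_lit 0)) (xa (xa T1.l8 T1.l8) T1.l8)
  (TrL.c (I.pos (nat_lit 0) (nat_lit 0)) T1.l1
  (TrL.c (I.pos (nat_lit 0) (nat_lit 89480386)) T1.l2
  (TrL.c (I.pos (nat_lit 0) (nat_lit 41530880)) T1.l3
  (TrL.c (I.pos (nat_lit 0) (nat_lit 0)) T1.l9
  (TrL.c (I.pos (nat_lit 0) (nat_lit 0)) T1.l5
  (TrL.c (I.mix (nat_lit 41527258) (nat_lit 41530880)) T1.l6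
  (TrL.c (I.mix (nat_lit 41527258) (nat_lit 4274)) T1.l7
  TrL.n)))))))) (by decide +kernel)
theorem bx0_7 : BoxOK sI cl6 cl7 cl7 t1 t1 b0_7 :=
  box_mk (TrL.c (I.pos (nat_lit 0) (nat_lit 0)) (xb (xa T1.l10 T1.l10) (xa T1.l10 T1.l10))
  (TrL.c (I.pos (nat_lit 0) (nat_lit 0)) T1.l1
  (TrL.c (I.pos (nat_lit 0) (nat_lit 89480386)) T1.l2
  (TrL.c (I.pos (nat_lit 0) (nat_lit 41530880)) T1.l3
  (TrL.c (I.pos (nat_lit 0) (nat_lit 0)) (xb T1.l11 T1.l11)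
  (TrL.c (I.pos (nat_lit 0) (nat_lit 0)) T1.l5
  (TrL.c (I.mix (nat_lit 41527258) (nat_lit 41530880)) T1.l6
  (TrL.c (I.mix (nat_lit 41527258) (nat_lit 4274)) T1.l7
  TrL.n)))))))) (by decide +kernel)
theorem bx0_8 : BoxOK sI cl6 cl7 cl7 t1 t1 b0_8 :=
  box_mk (TrL.c (I.pos (nat_lit 0) (nat_lit 0)) (xa (xa (xb T1.l8 T1.l8) T1.l8) (xa T1.l8 T1.l8))
  (TrL.c (I.pos (nat_lit 0) (nat_lit 0)) (xa T1.l9 T1.l1)
  (TrL.c (I.pos (nat_lit 0) (nat_lit 89480386)) T1.l2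
  (TrL.c (I.pos (nat_lit 0) (nat_lit 41530880)) T1.l3
  (TrL.c (I.pos (nat_lit 0) (nat_lit 0)) (xa T1.l9 T1.l9)
  (TrL.c (I.pos (nat_lit 0) (nat_lit 0)) T1.l5
  (TrL.c (I.mix (nat_lit 41527258) (nat_lit 41530880)) T1.l6
  (TrL.c (I.mix (nat_lit 41527258) (nat_lit 4274)) T1.l7
  TrL.n)))))))) (by decide +kernel)
theorem bx0_9 : BoxOK sI cl6 cl7 cl7 t1 t1 b0_9 :=
  box_mk (TrL.c (I.pos (nat_lit 0) (nat_lit 0)) (xa T1.l10 T1.l0)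
  (TrL.c (I.pos (nat_lit 0) (nat_lit 0)) T1.l1
  (TrL.c (I.pos (nat_lit 0) (nat_lit 89480386)) T1.l2
  (TrL.c (I.pos (nat_lit 0) (nat_lit 41530880)) T1.l3
  (TrL.c (I.pos (nat_lit 0) (nat_lit 0)) (xa T1.l11 T1.l11)
  (TrL.c (I.pos (nat_lit 0) (nat_lit 0)) T1.l5
  (TrL.c (I.mix (nat_lit 41527258) (nat_lit 41530880)) T1.l6
  (TrL.c (I.mix (nat_lit 41527258) (nat_lit 4274)) T1.l7
  TrL.n)))))))) (by decide +kernel)
theorem bx0_10 : BoxOK sI cl6 cl7 cl7 t1 t1 b0_10 :=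
  box_mk (TrL.c (I.pos (nat_lit 0) (nat_lit 0)) (xb T1.l10 T1.l10)
  (TrL.c (I.pos (nat_lit 0) (nat_lit 0)) T1.l1
  (TrL.c (I.pos (nat_lit 0) (nat_lit 89480386)) T1.l2
  (TrL.c (I.pos (nat_lit 0) (nat_lit 41530880)) T1.l3
  (TrL.c (I.pos (nat_lit 0) (nat_lit 0)) T1.l11
  (TrL.c (I.pos (nat_lit 0) (nat_lit 0)) T1.l5
  (TrL.c (I.mix (nat_lit 41527258) (nat_lit 41530880)) T1.l6
  (TrL.c (I.mix (nat_lit 41527258) (nat_lit 4274)) T1.l7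
  TrL.n)))))))) (by decide +kernel)
theorem bx0_11 : BoxOK sI cl6 cl7 cl7 t1 t1 b0_11 :=
  box_mk (TrL.c (I.pos (nat_lit 0) (nat_lit 0)) (xa (xb T1.l0 T1.l0) (xb T1.l0 T1.l0))
  (TrL.c (I.pos (nat_lit 0) (nat_lit 0)) T1.l1
  (TrL.c (I.pos (nat_lit 0) (nat_lit 89480386)) T1.l2
  (TrL.c (I.pos (nat_lit 0) (nat_lit 41530880)) T1.l3
  (TrL.c (I.pos (nat_lit 0) (nat_lit 0)) (xa T1.l4 T1.l4)
  (TrL.c (I.pos (nat_lit 0) (nat_lit 0)) T1.l5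
  (TrL.c (I.mix (nat_lit 41527258) (nat_lit 41530880)) T1.l6
  (TrL.c (I.mix (nat_lit 41527258) (nat_lit 4274)) T1.l7
  TrL.n)))))))) (by decide +kernel)
theorem sv0 : StarV sI cl6 cl7 cl7 t1 t1 t0 :=
  (bt_n (bt_n (bt_n (bt_b bx0_0) (bt_n (bt_b bx0_1) (bt_b bx0_2))) (bt_n (bt_b bx0_3) (bt_n (bt_b bx0_4) (bt_b bx0_5)))) (bt_n (bt_n (bt_b bx0_6) (bt_n (bt_b bx0_7) (bt_b bx0_8))) (bt_n (bt_b bx0_9) (bt_n (bt_b bx0_10) (bt_b bx0_11)))))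
def S0 : StarD := StarD.mk cl6 cl7 cl7 1 1 t0
theorem bx1_0 : BoxOK sI cl7 cl6 cl7 t0 t2 b1_0 :=
  box_mk (TrL.c (I.pos (nat_lit 0) (nat_lit 0)) (xa (xb T0.l0 (xa T0.l0 T0.l0)) (xb T0.l0 (xa T0.l0 T0.l0)))
  (TrL.c (I.pos (nat_lit 0) (nat_lit 0)) (xa (xk T2.l1 T2.l1) (xk T2.l1 T2.l1))
  (TrL.c (I.pos (nat_lit 0) (nat_lit 111196574)) (xR T0.l1 T0.l1)
  (TrL.c (I.pos (nat_lit 0) (nat_lit 77433728)) T2.l2
  (TrL.c (I.pos (nat_lit 0) (nat_lit 0)) (xa (xk (xb T2.l3 T2.l3) T2.l3) (xk (xb T2.l3 T2.l3) (xb T2.l3 T2.l3)))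
  (TrL.c (I.pos (nat_lit 0) (nat_lit 0)) T0.l2
  (TrL.c (I.mix (nat_lit 29511666) (nat_lit 77433728)) (xR T2.l4 T2.l4)
  (TrL.c (I.mix (nat_lit 29511666) (nat_lit 46070178)) T0.l3
  TrL.n)))))))) (by decide +kernel)
theorem bx1_1 : BoxOK sI cl7 cl6 cl7 t0 t2 b1_1 :=
  box_mk (TrL.c (I.pos (nat_lit 0) (nat_lit 0)) (xa T0.l4 T0.l4)
  (TrL.c (I.pos (nat_lit 0) (nat_lit 0)) T2.l1
  (TrL.c (I.pos (nat_lit 0) (nat_lit 111196574)) (xR T0.l1 T0.l1)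
  (TrL.c (I.pos (nat_lit 0) (nat_lit 77433728)) T2.l2
  (TrL.c (I.pos (nat_lit 0) (nat_lit 0)) (xa T2.l5 (xk T2.l5 T2.l5))
  (TrL.c (I.pos (nat_lit 0) (nat_lit 0)) T0.l2
  (TrL.c (I.mix (nat_lit 29511666) (nat_lit 77433728)) (xR T2.l4 T2.l4)
  (TrL.c (I.mix (nat_lit 29511666) (nat_lit 46070178)) T0.l3
  TrL.n)))))))) (by decide +kernel)
theorem bx1_2 : BoxOK sI cl7 cl6 cl7 t0 t2 b1_2 :=
  box_mk (TrL.c (I.pos (nat_lit 0) (nat_lit 0)) (xa (xa (xb T0.l4 T0.l4) T0.l4) (xa T0.l4 T0.l4))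
  (TrL.c (I.pos (nat_lit 0) (nat_lit 0)) (xa T2.l1 T2.l1)
  (TrL.c (I.pos (nat_lit 0) (nat_lit 111196574)) T0.l1
  (TrL.c (I.pos (nat_lit 0) (nat_lit 77433728)) T2.l2
  (TrL.c (I.pos (nat_lit 0) (nat_lit 0)) (xa T2.l5 T2.l5)
  (TrL.c (I.pos (nat_lit 0) (nat_lit 0)) T0.l2
  (TrL.c (I.mix (nat_lit 29511666) (nat_lit 77433728)) T2.l4
  (TrL.c (I.mix (nat_lit 29511666) (nat_lit 46070178)) T0.l3
  TrL.n)))))))) (by decide +kernel)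
theorem bx1_3 : BoxOK sI cl7 cl6 cl7 t0 t2 b1_3 :=
  box_mk (TrL.c (I.pos (nat_lit 0) (nat_lit 0)) (xa T0.l4 T0.l4)
  (TrL.c (I.pos (nat_lit 0) (nat_lit 0)) T2.l1
  (TrL.c (I.pos (nat_lit 0) (nat_lit 111196574)) T0.l1
  (TrL.c (I.pos (nat_lit 0) (nat_lit 77433728)) T2.l2
  (TrL.c (I.pos (nat_lit 0) (nat_lit 0)) T2.l5
  (TrL.c (I.pos (nat_lit 0) (nat_lit 0)) T0.l2
  (TrL.c (I.mix (nat_lit 29511666) (nat_lit 77433728)) T2.l4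
  (TrL.c (I.mix (nat_lit 29511666) (nat_lit 46070178)) T0.l3
  TrL.n)))))))) (by decide +kernel)
theorem bx1_4 : BoxOK sI cl7 cl6 cl7 t0 t2 b1_4 :=
  box_mk (TrL.c (I.pos (nat_lit 0) (nat_lit 0)) (xa (xb T0.l11 T0.l11) (xb T0.l11 T0.l11))
  (TrL.c (I.pos (nat_lit 0) (nat_lit 0)) (xk T2.l1 T2.l1)
  (TrL.c (I.pos (nat_lit 0) (nat_lit 111196574)) (xR T0.l1 T0.l1)
  (TrL.c (I.pos (nat_lit 0) (nat_lit 77433728)) T2.l2
  (TrL.c (I.pos (nat_lit 0) (nat_lit 0)) (xk (xb T2.l11 T2.l11) (xb T2.l11 T2.l11))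
  (TrL.c (I.pos (nat_lit 0) (nat_lit 0)) T0.l2
  (TrL.c (I.mix (nat_lit 29511666) (nat_lit 77433728)) (xR T2.l4 T2.l4)
  (TrL.c (I.mix (nat_lit 29511666) (nat_lit 46070178)) T0.l6
  TrL.n)))))))) (by decide +kernel)
theorem bx1_5 : BoxOK sI cl7 cl6 cl7 t0 t2 b1_5 :=
  box_mk (TrL.c (I.pos (nat_lit 0) (nat_lit 0)) (xb T0.l4 T0.l4)
  (TrL.c (I.pos (nat_lit 0) (nat_lit 0)) T2.l1
  (TrL.c (I.pos (nat_lit 0) (nat_lit 111196574)) T0.l1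
  (TrL.c (I.pos (nat_lit 0) (nat_lit 77433728)) T2.l2
  (TrL.c (I.pos (nat_lit 0) (nat_lit 0)) (xb T2.l5 T2.l5)
  (TrL.c (I.pos (nat_lit 0) (nat_lit 0)) T0.l2
  (TrL.c (I.mix (nat_lit 29511666) (nat_lit 77433728)) T2.l4
  (TrL.c (I.mix (nat_lit 29511666) (nat_lit 46070178)) T0.l3
  TrL.n)))))))) (by decide +kernel)
theorem bx1_6 : BoxOK sI cl7 cl6 cl7 t0 t2 b1_6 :=
  box_mk (TrL.c (I.pos (nat_lit 0) (nat_lit 0)) (xa (xa (xb T0.l4 T0.l4) T0.l4) (xa T0.l4 T0.l4))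
  (TrL.c (I.pos (nat_lit 0) (nat_lit 0)) (xa T2.l5 T2.l1)
  (TrL.c (I.pos (nat_lit 0) (nat_lit 111196574)) T0.l1
  (TrL.c (I.pos (nat_lit 0) (nat_lit 77433728)) T2.l2
  (TrL.c (I.pos (nat_lit 0) (nat_lit 0)) (xa T2.l1 T2.l5)
  (TrL.c (I.pos (nat_lit 0) (nat_lit 0)) T0.l2
  (TrL.c (I.mix (nat_lit 29511666) (nat_lit 77433728)) T2.l4
  (TrL.c (I.mix (nat_lit 29511666) (nat_lit 46070178)) T0.l3
  TrL.n)))))))) (by decide +kernel)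
theorem bx1_7 : BoxOK sI cl7 cl6 cl7 t0 t2 b1_7 :=
  box_mk (TrL.c (I.pos (nat_lit 0) (nat_lit 0)) (xa (xb T0.l4 T0.l4) T0.l4)
  (TrL.c (I.pos (nat_lit 0) (nat_lit 0)) T2.l5
  (TrL.c (I.pos (nat_lit 0) (nat_lit 111196574)) T0.l1
  (TrL.c (I.pos (nat_lit 0) (nat_lit 77433728)) T2.l4
  (TrL.c (I.pos (nat_lit 0) (nat_lit 0)) T2.l1
  (TrL.c (I.pos (nat_lit 0) (nat_lit 0)) T0.l1
  (TrL.c (I.mix (nat_lit 29511666) (nat_lit 77433728)) T2.l4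
  (TrL.c (I.mix (nat_lit 29511666) (nat_lit 46070178)) T0.l8
  TrL.n)))))))) (by decide +kernel)
theorem bx1_8 : BoxOK sI cl7 cl6 cl7 t0 t2 b1_8 :=
  box_mk (TrL.c (I.pos (nat_lit 0) (nat_lit 0)) (xa (xb T0.l0 (xa T0.l0 T0.l0)) (xb (xa T0.l0 T0.l0) (xa T0.l0 T0.l0)))
  (TrL.c (I.pos (nat_lit 0) (nat_lit 0)) (xa (xb T2.l1 T2.l1) (xk (xb T2.l7 T2.l7) (xb T2.l7 T2.l7)))
  (TrL.c (I.pos (nat_lit 0) (nat_lit 111196574)) (xR T0.l8 T0.l1)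
  (TrL.c (I.pos (nat_lit 0) (nat_lit 77433728)) T2.l2
  (TrL.c (I.pos (nat_lit 0) (nat_lit 0)) (xa (xb (xk (xa T2.l3 T2.l0) (xa T2.l3 T2.l3)) (xk (xa T2.l3 T2.l3) T2.l3)) (xb (xk (xa (xb T2.l0 T2.l3) (xb (xk T2.l3 T2.l3) T2.l3)) (xa (xb T2.l0 T2.l3) (xb (xk T2.l3 T2.l3) T2.l3))) (xk (xa T2.l3 (xb (xk T2.l3 T2.l3) (xk T2.l3 T2.l3))) (xa T2.l3 (xb (xk T2.l3 T2.l3) (xk T2.l3 T2.l3))))))
  (TrL.c (I.pos (nat_lit 0) (nat_lit 0)) (xk (xa T0.l2 (xb T0.l2 T0.l2)) (xa T0.l2 (xb T0.l2 T0.l2)))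
  (TrL.c (I.mix (nat_lit 29511666) (nat_lit 77433728)) (xR T2.l4 (xR T2.l4 T2.l4))
  (TrL.c (I.mix (nat_lit 29511666) (nat_lit 46070178)) T0.l6
  TrL.n)))))))) (by decide +kernel)
theorem bx1_9 : BoxOK sI cl7 cl6 cl7 t0 t2 b1_9 :=
  box_mk (TrL.c (I.pos (nat_lit 0) (nat_lit 0)) (xa T0.l11 T0.l11)
  (TrL.c (I.pos (nat_lit 0) (nat_lit 0)) T2.l1
  (TrL.c (I.pos (nat_lit 0) (nat_lit 111196574)) (xR T0.l1 T0.l1)
  (TrL.c (I.pos (nat_lit 0) (nat_lit 77433728)) T2.l2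
  (TrL.c (I.pos (nat_lit 0) (nat_lit 0)) (xk (xb T2.l11 T2.l11) (xb T2.l11 T2.l11))
  (TrL.c (I.pos (nat_lit 0) (nat_lit 0)) T0.l2
  (TrL.c (I.mix (nat_lit 29511666) (nat_lit 77433728)) (xR T2.l4 T2.l4)
  (TrL.c (I.mix (nat_lit 29511666) (nat_lit 46070178)) T0.l3
  TrL.n)))))))) (by decide +kernel)
theorem bx1_10 : BoxOK sI cl7 cl6 cl7 t0 t2 b1_10 :=
  box_mk (TrL.c (I.pos (nat_lit 0) (nat_lit 0)) (xa (xb T0.l0 T0.l0) (xb T0.l0 T0.l0))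
  (TrL.c (I.pos (nat_lit 0) (nat_lit 0)) (xk (xa T2.l1 T2.l1) (xa T2.l1 T2.l1))
  (TrL.c (I.pos (nat_lit 0) (nat_lit 111196574)) (xR T0.l1 T0.l1)
  (TrL.c (I.pos (nat_lit 0) (nat_lit 77433728)) T2.l2
  (TrL.c (I.pos (nat_lit 0) (nat_lit 0)) (xk (xa T2.l3 (xb T2.l3 T2.l3)) (xa T2.l3 T2.l3))
  (TrL.c (I.pos (nat_lit 0) (nat_lit 0)) T0.l2
  (TrL.c (I.mix (nat_lit 29511666) (nat_lit 77433728)) (xR T2.l4 T2.l4)
  (TrL.c (I.mix (nat_lit 29511666) (nat_lit 46070178)) T0.l6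
  TrL.n)))))))) (by decide +kernel)
theorem bx1_11 : BoxOK sI cl7 cl6 cl7 t0 t2 b1_11 :=
  box_mk (TrL.c (I.pos (nat_lit 0) (nat_lit 0)) T0.l11
  (TrL.c (I.pos (nat_lit 0) (nat_lit 0)) T2.l1
  (TrL.c (I.pos (nat_lit 0) (nat_lit 111196574)) (xR T0.l1 T0.l1)
  (TrL.c (I.pos (nat_lit 0) (nat_lit 77433728)) T2.l2
  (TrL.c (I.pos (nat_lit 0) (nat_lit 0)) (xk T2.l11 T2.l11)
  (TrL.c (I.pos (nat_lit 0) (nat_lit 0)) T0.l2
  (TrL.c (I.mix (nat_lit 29511666) (nat_lit 77433728)) (xR T2.l4 T2.l4)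
  (TrL.c (I.mix (nat_lit 29511666) (nat_lit 46070178)) T0.l3
  TrL.n)))))))) (by decide +kernel)
theorem sv1 : StarV sI cl7 cl6 cl7 t0 t2 t1 :=
  (bt_n (bt_n (bt_n (bt_b bx1_0) (bt_n (bt_b bx1_1) (bt_b bx1_2))) (bt_n (bt_b bx1_3) (bt_n (bt_b bx1_4) (bt_b bx1_5)))) (bt_n (bt_n (bt_b bx1_6) (bt_n (bt_b bx1_7) (bt_b bx1_8))) (bt_n (bt_b bx1_9) (bt_n (bt_b bx1_10) (bt_b bx1_11)))))
def S1 : StarD := StarD.mk cl7 cl6 cl7 0 2 t1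
theorem bx2_0 : BoxOK sI cl7 cl7 cl6 t2 t0 b2_0 :=
  box_mk (TrL.c (I.pos (nat_lit 0) (nat_lit 0)) (xa (xb T2.l0 (xa T2.l0 T2.l0)) (xa (xb T2.l0 T2.l0) T2.l0))
  (TrL.c (I.pos (nat_lit 0) (nat_lit 0)) (xa (xk (xb T0.l5 T0.l5) T0.l5) (xk (xb T0.l5 T0.l5) (xb T0.l5 T0.l5)))
  (TrL.c (I.pos (nat_lit 0) (nat_lit 111196574)) (xR T2.l6 T2.l6)
  (TrL.c (I.pos (nat_lit 0) (nat_lit 77433728)) T0.l6
  (TrL.c (I.pos (nat_lit 0) (nat_lit 0)) (xa (xk (xb T0.l7 T0.l7) (xb T0.l7 T0.l7)) (xk (xb (xa T0.l7 T0.l7) (xa T0.l7 T0.l7)) (xb T0.l7 (xa T0.l7 T0.l7))))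
  (TrL.c (I.pos (nat_lit 0) (nat_lit 0)) (xk T2.l7 T2.l7)
  (TrL.c (I.mix (nat_lit 29511666) (nat_lit 77433728)) (xR T0.l8 T0.l8)
  (TrL.c (I.mix (nat_lit 29511666) (nat_lit 46070178)) T2.l2
  TrL.n)))))))) (by decide +kernel)
theorem bx2_1 : BoxOK sI cl7 cl7 cl6 t2 t0 b2_1 :=
  box_mk (TrL.c (I.pos (nat_lit 0) (nat_lit 0)) (xa T2.l9 T2.l0)
  (TrL.c (I.pos (nat_lit 0) (nat_lit 0)) (xa T0.l5 T0.l5)
  (TrL.c (I.pos (nat_lit 0) (nat_lit 111196574)) (xR T2.l6 T2.l6)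
  (TrL.c (I.pos (nat_lit 0) (nat_lit 77433728)) T0.l6
  (TrL.c (I.pos (nat_lit 0) (nat_lit 0)) (xa T0.l9 (xk T0.l9 T0.l9))
  (TrL.c (I.pos (nat_lit 0) (nat_lit 0)) T2.l7
  (TrL.c (I.mix (nat_lit 29511666) (nat_lit 77433728)) (xR T0.l8 T0.l8)
  (TrL.c (I.mix (nat_lit 29511666) (nat_lit 46070178)) T2.l8
  TrL.n)))))))) (by decide +kernel)
theorem bx2_2 : BoxOK sI cl7 cl7 cl6 t2 t0 b2_2 :=
  box_mk (TrL.c (I.pos (nat_lit 0) (nat_lit 0)) (xa (xa T2.l9 T2.l9) T2.l9)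
  (TrL.c (I.pos (nat_lit 0) (nat_lit 0)) (xa T0.l9 T0.l5)
  (TrL.c (I.pos (nat_lit 0) (nat_lit 111196574)) (xR T2.l6 T2.l6)
  (TrL.c (I.pos (nat_lit 0) (nat_lit 77433728)) T0.l6
  (TrL.c (I.pos (nat_lit 0) (nat_lit 0)) (xa T0.l5 T0.l9)
  (TrL.c (I.pos (nat_lit 0) (nat_lit 0)) T2.l7
  (TrL.c (I.mix (nat_lit 29511666) (nat_lit 77433728)) (xR T0.l8 T0.l8)
  (TrL.c (I.mix (nat_lit 29511666) (nat_lit 46070178)) T2.l2
  TrL.n)))))))) (by decide +kernel)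
theorem bx2_3 : BoxOK sI cl7 cl7 cl6 t2 t0 b2_3 :=
  box_mk (TrL.c (I.pos (nat_lit 0) (nat_lit 0)) (xb T2.l10 (xa T2.l10 T2.l10))
  (TrL.c (I.pos (nat_lit 0) (nat_lit 0)) (xk (xb T0.l5 T0.l5) (xb T0.l5 T0.l5))
  (TrL.c (I.pos (nat_lit 0) (nat_lit 111196574)) (xR T2.l6 T2.l6)
  (TrL.c (I.pos (nat_lit 0) (nat_lit 77433728)) T0.l6
  (TrL.c (I.pos (nat_lit 0) (nat_lit 0)) (xb (xk T0.l10 T0.l10) (xk T0.l10 T0.l7))
  (TrL.c (I.pos (nat_lit 0) (nat_lit 0)) T2.l7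
  (TrL.c (I.mix (nat_lit 29511666) (nat_lit 77433728)) (xR T0.l8 T0.l8)
  (TrL.c (I.mix (nat_lit 29511666) (nat_lit 46070178)) T2.l8
  TrL.n)))))))) (by decide +kernel)
theorem bx2_4 : BoxOK sI cl7 cl7 cl6 t2 t0 b2_4 :=
  box_mk (TrL.c (I.pos (nat_lit 0) (nat_lit 0)) (xa (xa (xb T2.l9 T2.l9) T2.l9) (xa T2.l9 T2.l9))
  (TrL.c (I.pos (nat_lit 0) (nat_lit 0)) (xa (xa T0.l9 T0.l5) T0.l5)
  (TrL.c (I.pos (nat_lit 0) (nat_lit 111196574)) T2.l6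
  (TrL.c (I.pos (nat_lit 0) (nat_lit 77433728)) T0.l6
  (TrL.c (I.pos (nat_lit 0) (nat_lit 0)) (xa T0.l9 T0.l9)
  (TrL.c (I.pos (nat_lit 0) (nat_lit 0)) T2.l7
  (TrL.c (I.mix (nat_lit 29511666) (nat_lit 77433728)) T0.l8
  (TrL.c (I.mix (nat_lit 29511666) (nat_lit 46070178)) T2.l8
  TrL.n)))))))) (by decide +kernel)
theorem bx2_5 : BoxOK sI cl7 cl7 cl6 t2 t0 b2_5 :=
  box_mk (TrL.c (I.pos (nat_lit 0) (nat_lit 0)) (xa T2.l0 T2.l10)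
  (TrL.c (I.pos (nat_lit 0) (nat_lit 0)) T0.l5
  (TrL.c (I.pos (nat_lit 0) (nat_lit 111196574)) (xR T2.l6 T2.l6)
  (TrL.c (I.pos (nat_lit 0) (nat_lit 77433728)) T0.l6
  (TrL.c (I.pos (nat_lit 0) (nat_lit 0)) (xk (xa T0.l10 T0.l10) (xa T0.l10 T0.l10))
  (TrL.c (I.pos (nat_lit 0) (nat_lit 0)) T2.l7
  (TrL.c (I.mix (nat_lit 29511666) (nat_lit 77433728)) (xR T0.l8 T0.l8)
  (TrL.c (I.mix (nat_lit 29511666) (nat_lit 46070178)) T2.l8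
  TrL.n)))))))) (by decide +kernel)
theorem bx2_6 : BoxOK sI cl7 cl7 cl6 t2 t0 b2_6 :=
  box_mk (TrL.c (I.pos (nat_lit 0) (nat_lit 0)) (xa (xa (xb T2.l9 T2.l9) T2.l9) (xa T2.l9 T2.l9))
  (TrL.c (I.pos (nat_lit 0) (nat_lit 0)) (xa T0.l5 T0.l5)
  (TrL.c (I.pos (nat_lit 0) (nat_lit 111196574)) T2.l6
  (TrL.c (I.pos (nat_lit 0) (nat_lit 77433728)) T0.l6
  (TrL.c (I.pos (nat_lit 0) (nat_lit 0)) (xa T0.l9 T0.l9)
  (TrL.c (I.pos (nat_lit 0) (nat_lit 0)) T2.l7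
  (TrL.c (I.mix (nat_lit 29511666) (nat_lit 77433728)) T0.l8
  (TrL.c (I.mix (nat_lit 29511666) (nat_lit 46070178)) T2.l8
  TrL.n)))))))) (by decide +kernel)
theorem bx2_7 : BoxOK sI cl7 cl7 cl6 t2 t0 b2_7 :=
  box_mk (TrL.c (I.pos (nat_lit 0) (nat_lit 0)) (xb T2.l9 T2.l9)
  (TrL.c (I.pos (nat_lit 0) (nat_lit 0)) T0.l5
  (TrL.c (I.pos (nat_lit 0) (nat_lit 111196574)) (xR T2.l6 T2.l6)
  (TrL.c (I.pos (nat_lit 0) (nat_lit 77433728)) T0.l6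
  (TrL.c (I.pos (nat_lit 0) (nat_lit 0)) (xb T0.l9 T0.l9)
  (TrL.c (I.pos (nat_lit 0) (nat_lit 0)) T2.l7
  (TrL.c (I.mix (nat_lit 29511666) (nat_lit 77433728)) (xR T0.l8 T0.l8)
  (TrL.c (I.mix (nat_lit 29511666) (nat_lit 46070178)) T2.l8
  TrL.n)))))))) (by decide +kernel)
theorem bx2_8 : BoxOK sI cl7 cl7 cl6 t2 t0 b2_8 :=
  box_mk (TrL.c (I.pos (nat_lit 0) (nat_lit 0)) T2.l9
  (TrL.c (I.pos (nat_lit 0) (nat_lit 0)) (xa T0.l9 T0.l5)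
  (TrL.c (I.pos (nat_lit 0) (nat_lit 111196574)) T2.l6
  (TrL.c (I.pos (nat_lit 0) (nat_lit 77433728)) T0.l6
  (TrL.c (I.pos (nat_lit 0) (nat_lit 0)) (xa T0.l9 T0.l9)
  (TrL.c (I.pos (nat_lit 0) (nat_lit 0)) T2.l7
  (TrL.c (I.mix (nat_lit 29511666) (nat_lit 77433728)) T0.l8
  (TrL.c (I.mix (nat_lit 29511666) (nat_lit 46070178)) T2.l8
  TrL.n)))))))) (by decide +kernel)
theorem bx2_9 : BoxOK sI cl7 cl7 cl6 t2 t0 b2_9 :=
  box_mk (TrL.c (I.pos (nat_lit 0) (nat_lit 0)) (xa (xb T2.l0 T2.l0) (xb T2.l0 (xa T2.l0 T2.l0)))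
  (TrL.c (I.pos (nat_lit 0) (nat_lit 0)) (xa (xb T0.l5 (xk T0.l5 T0.l5)) (xk (xb T0.l2 T0.l2) (xb T0.l2 (xa T0.l5 T0.l2))))
  (TrL.c (I.pos (nat_lit 0) (nat_lit 111196574)) (xR T2.l6 T2.l6)
  (TrL.c (I.pos (nat_lit 0) (nat_lit 77433728)) (xR T0.l6 T0.l6)
  (TrL.c (I.pos (nat_lit 0) (nat_lit 0)) (xa (xb (xk (xa T0.l7 T0.l7) (xa T0.l7 T0.l7)) (xk T0.l7 T0.l7)) (xb (xk (xa (xb T0.l7 T0.l7) (xb (xk T0.l7 T0.l7) T0.l7)) (xa (xb T0.l7 T0.l7) (xb (xk T0.l7 T0.l7) T0.l7))) (xk (xa T0.l7 (xb (xk T0.l7 T0.l7) (xk T0.l7 T0.l7))) (xa T0.l7 (xb (xk T0.l7 T0.l7) (xk T0.l7 T0.l7))))))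
  (TrL.c (I.pos (nat_lit 0) (nat_lit 0)) (xk (xa T2.l7 (xb T2.l7 T2.l7)) (xa T2.l7 (xb T2.l7 T2.l7)))
  (TrL.c (I.mix (nat_lit 29511666) (nat_lit 77433728)) (xR T0.l8 (xR T0.l8 (xR T0.l8 T0.l8)))
  (TrL.c (I.mix (nat_lit 29511666) (nat_lit 46070178)) T2.l2
  TrL.n)))))))) (by decide +kernel)
theorem bx2_10 : BoxOK sI cl7 cl7 cl6 t2 t0 b2_10 :=
  box_mk (TrL.c (I.pos (nat_lit 0) (nat_lit 0)) (xa (xb T2.l0 T2.l0) T2.l0)
  (TrL.c (I.pos (nat_lit 0) (nat_lit 0)) (xk (xa T0.l5 T0.l5) (xa T0.l5 T0.l5))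
  (TrL.c (I.pos (nat_lit 0) (nat_lit 111196574)) (xR T2.l6 T2.l6)
  (TrL.c (I.pos (nat_lit 0) (nat_lit 77433728)) T0.l6
  (TrL.c (I.pos (nat_lit 0) (nat_lit 0)) (xk (xa T0.l7 T0.l7) (xa T0.l7 T0.l7))
  (TrL.c (I.pos (nat_lit 0) (nat_lit 0)) T2.l7
  (TrL.c (I.mix (nat_lit 29511666) (nat_lit 77433728)) (xR T0.l8 T0.l8)
  (TrL.c (I.mix (nat_lit 29511666) (nat_lit 46070178)) T2.l2
  TrL.n)))))))) (by decide +kernel)
theorem bx2_11 : BoxOK sI cl7 cl7 cl6 t2 t0 b2_11 :=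
  box_mk (TrL.c (I.pos (nat_lit 0) (nat_lit 0)) T2.l10
  (TrL.c (I.pos (nat_lit 0) (nat_lit 0)) (xk T0.l5 T0.l5)
  (TrL.c (I.pos (nat_lit 0) (nat_lit 111196574)) (xR T2.l6 T2.l6)
  (TrL.c (I.pos (nat_lit 0) (nat_lit 77433728)) T0.l6
  (TrL.c (I.pos (nat_lit 0) (nat_lit 0)) (xk T0.l10 T0.l10)
  (TrL.c (I.pos (nat_lit 0) (nat_lit 0)) T2.l7
  (TrL.c (I.mix (nat_lit 29511666) (nat_lit 77433728)) (xR T0.l8 T0.l8)
  (TrL.c (I.mix (nat_lit 29511666) (nat_lit 46070178)) T2.l8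
  TrL.n)))))))) (by decide +kernel)
theorem sv2 : StarV sI cl7 cl7 cl6 t2 t0 t2 :=
  (bt_n (bt_n (bt_n (bt_b bx2_0) (bt_n (bt_b bx2_1) (bt_b bx2_2))) (bt_n (bt_b bx2_3) (bt_n (bt_b bx2_4) (bt_b bx2_5)))) (bt_n (bt_n (bt_b bx2_6) (bt_n (bt_b bx2_7) (bt_b bx2_8))) (bt_n (bt_b bx2_9) (bt_n (bt_b bx2_10) (bt_b bx2_11)))))
def S2 : StarD := StarD.mk cl7 cl7 cl6 2 0 t2
def G : List StarD := [S0, S1, S2]
theorem so0 : StarOK sI G S0 :=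
  star_mk (by decide) (by decide) rfl rfl rfl rfl rfl rfl (rfl : _ = t1) (rfl : _ = t1)
  (st_mk (Pth.l (Pth.l (Pth.l Pth.z))) (nat_lit 142183520) (nat_lit 164713732) (by decide +kernel))
  (st_mk (Pth.l (Pth.l (Pth.l Pth.z))) (nat_lit 178307831) (nat_lit 201174906) (by decide +kernel))
  (st_mk (Pth.l (Pth.l (Pth.l Pth.z))) (nat_lit 220344456) (nat_lit 243662640) (by decide +kernel)) sv0
theorem so1 : StarOK sI G S1 :=
  star_mk (by decide) (by decide) rfl rfl rfl rfl rfl rfl (rfl : _ = t0) (rfl : _ = t2)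
  (st_mk (Pth.l (Pth.l (Pth.l Pth.z))) (nat_lit 187740045) (nat_lit 189345118) (by decide +kernel))
  (st_mk (Pth.l (Pth.l (Pth.l Pth.z))) (nat_lit 223425131) (nat_lit 225481749) (by decide +kernel))
  (st_mk (Pth.l (Pth.l (Pth.l Pth.z))) (nat_lit 264775047) (nat_lit 267459106) (by decide +kernel)) sv1
theorem so2 : StarOK sI G S2 :=
  star_mk (by decide) (by decide) rfl rfl rfl rfl rfl rfl (rfl : _ = t2) (rfl : _ = t0)
  (st_mk (Pth.l (Pth.l (Pth.l Pth.z))) (nat_lit 141266921) (nat_lit 163929279) (by decide +kernel))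
  (st_mk (Pth.l (Pth.l (Pth.l Pth.z))) (nat_lit 176870666) (nat_lit 199989713) (by decide +kernel))
  (st_mk (Pth.l (Pth.l (Pth.l Pth.z))) (nat_lit 218150709) (nat_lit 241901881) (by decide +kernel)) sv2
theorem ok : GroupOK (nat_lit 150274048) (nat_lit 209387520) G := grp_mk (allS_c so0 (allS_c so1 (allS_c so2 allS_n)))
theorem cov : GCov G cl6 cl7 cl7 := cov_mk
  ⟨0, by decide, rfl, rfl, rfl⟩ ⟨0, by decide, rfl, rfl, rfl⟩ ⟨1, by decide, rfl, rfl, rfl⟩ ⟨2, by decide, rfl, rfl, rfl⟩ ⟨1, by decide, rfl, rfl, rfl⟩ ⟨2, by decide, rfl, rfl, rfl⟩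
end Q344_2

namespace Q344_3
def sI : I := I.pos (nat_lit 209321984) (nat_lit 268435456)
def b0_0 : Bx := Bx.mk (St.mk (I.pos (nat_lit 154861568) (nat_lit 232701952)) (I.mix (nat_lit 1753088) (nat_lit 55508992)) (I.mix (nat_lit 2572288) (nat_lit 86147072)) (I.pos (nat_lit 140951552) (nat_lit 268156928)) (I.mix (nat_lit 125730816) (nat_lit 76005376)) (I.mix (nat_lit 76709888) (nat_lit 72482816)) (I.mix (nat_lit 99647488) (nat_lit 98713600)))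
  false (nat_lit 40937081)
def b0_1 : Bx := Bx.mk (St.mk (I.mix (nat_lit 22069248) (nat_lit 122880000)) (I.mix (nat_lit 9994240) (nat_lit 28753920)) (I.mix (nat_lit 17973248) (nat_lit 16711680)) (I.pos (nat_lit 42024960) (nat_lit 118636544)) (I.mix (nat_lit 38158336) (nat_lit 34521088)) (I.mix (nat_lit 28524544) (nat_lit 26034176)) (I.mix (nat_lit 20430848) (nat_lit 17219584)))
  false (nat_lit 0)
def b0_2 : Bx := Bx.mk (St.mk (I.pos (nat_lit 90275840) (nat_lit 137117696)) (I.mix (nat_lit 50266112) (nat_lit 8830976)) (I.mix (nat_lit 50806784) (nat_lit 344064)) (I.pos (nat_lit 77824000) (nat_lit 131497984)) (I.mix (nat_lit 82526208) (nat_lit 33423360)) (I.mix (nat_lit 33341440) (nat_lit 65224704)) (I.mix (nat_lit 22790144) (nat_lit 48791552)))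
  false (nat_lit 0)
def b0_3 : Bx := Bx.mk (St.mk (I.mix (nat_lit 37961728) (nat_lit 69025792)) (I.mix (nat_lit 29753344) (nat_lit 5259264)) (I.mix (nat_lit 17874944) (nat_lit 1523712)) (I.pos (nat_lit 43073536) (nat_lit 81559552)) (I.mix (nat_lit 38780928) (nat_lit 16728064)) (I.mix (nat_lit 18841600) (nat_lit 27115520)) (I.mix (nat_lit 8716288) (nat_lit 10649600)))
  false (nat_lit 0)
def b0_4 : Bx := Bx.mk (St.mk (I.pos (nat_lit 199180288) (nat_lit 285900800)) (I.mix (nat_lit 27475968) (nat_lit 37109760)) (I.mix (nat_lit 83918848) (nat_lit 50561024)) (I.pos (nat_lit 215252992) (nat_lit 378503168)) (I.mix (nat_lit 69222400) (nat_lit 52068352)) (I.mix (nat_lit 54018048) (nat_lit 43204608)) (I.mix (nat_lit 95879168) (nat_lit 79331328)))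
  false (nat_lit 29366336)
def b0_5 : Bx := Bx.mk (St.mk (I.pos (nat_lit 97239040) (nat_lit 173473792)) (I.neg (nat_lit 5734400) (nat_lit 51347456)) (I.neg (nat_lit 1753088) (nat_lit 51314688)) (I.pos (nat_lit 92913664) (nat_lit 177668096)) (I.mix (nat_lit 82001920) (nat_lit 52199424)) (I.mix (nat_lit 42778624) (nat_lit 56623104)) (I.mix (nat_lit 37797888) (nat_lit 53854208)))
  false (nat_lit 15570107)
def b0_6 : Bx := Bx.mk (St.mk (I.mix (nat_lit 24281088) (nat_lit 85786624)) (I.mix (nat_lit 29327360) (nat_lit 3063808)) (I.mix (nat_lit 18759680) (nat_lit 1671168)) (I.pos (nat_lit 42237952) (nat_lit 90980352)) (I.mix (nat_lit 38584320) (nat_lit 34701312)) (I.mix (nat_lit 26132480) (nat_lit 31817728)) (I.mix (nat_lit 13811712) (nat_lit 17055744)))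
  false (nat_lit 0)
def b0_7 : Bx := Bx.mk (St.mk (I.pos (nat_lit 159858688) (nat_lit 214859776)) (I.mix (nat_lit 9027584) (nat_lit 60194816)) (I.pos (nat_lit 3883008) (nat_lit 90587136)) (I.pos (nat_lit 151781376) (nat_lit 240779264)) (I.mix (nat_lit 156041216) (nat_lit 64438272)) (I.mix (nat_lit 123158528) (nat_lit 79265792)) (I.mix (nat_lit 126386176) (nat_lit 73252864)))
  false (nat_lit 0)
def b0_8 : Bx := Bx.mk (St.mk (I.mix (nat_lit 38092800) (nat_lit 108281856)) (I.mix (nat_lit 13844480) (nat_lit 33570816)) (I.mix (nat_lit 11091968) (nat_lit 20463616)) (I.pos (nat_lit 41730048) (nat_lit 107429888)) (I.mix (nat_lit 54738944) (nat_lit 27000832)) (I.mix (nat_lit 44613632) (nat_lit 28475392)) (I.mix (nat_lit 24444928) (nat_lit 17186816)))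
  false (nat_lit 0)
def b0_9 : Bx := Bx.mk (St.mk (I.pos (nat_lit 141197312) (nat_lit 207306752)) (I.mix (nat_lit 37027840) (nat_lit 15073280)) (I.mix (nat_lit 38535168) (nat_lit 30228480)) (I.pos (nat_lit 126173184) (nat_lit 219807744)) (I.mix (nat_lit 64536576) (nat_lit 54181888)) (I.mix (nat_lit 54001664) (nat_lit 47644672)) (I.mix (nat_lit 53444608) (nat_lit 47972352)))
  false (nat_lit 36423221)
def b0_10 : Bx := Bx.mk (St.mk (I.pos (nat_lit 161841152) (nat_lit 207159296)) (I.mix (nat_lit 15417344) (nat_lit 32063488)) (I.mix (nat_lit 6062080) (nat_lit 54444032)) (I.pos (nat_lit 153288704) (nat_lit 221839360)) (I.mix (nat_lit 128892928) (nat_lit 66420736)) (I.mix (nat_lit 124108800) (nat_lit 59490304)) (I.mix (nat_lit 130498560) (nat_lit 57704448)))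
  false (nat_lit 19711104)
def b0_11 : Bx := Bx.mk (St.mk (I.pos (nat_lit 181370880) (nat_lit 231882752)) (I.pos (nat_lit 10371072) (nat_lit 52690944)) (I.pos (nat_lit 10960896) (nat_lit 81870848)) (I.pos (nat_lit 202686464) (nat_lit 264241152)) (I.mix (nat_lit 95944704) (nat_lit 72941568)) (I.mix (nat_lit 74629120) (nat_lit 57049088)) (I.mix (nat_lit 117391360) (nat_lit 72679424)))
  false (nat_lit 23251880)
def t0 : BTr := (BTr.n (BTr.n (BTr.n (BTr.b b0_0) (BTr.n (BTr.b b0_1) (BTr.b b0_2))) (BTr.n (BTr.b b0_3) (BTr.n (BTr.b b0_4) (BTr.b b0_5)))) (BTr.n (BTr.n (BTr.b b0_6) (BTr.n (BTr.b b0_7) (BTr.b b0_8))) (BTr.n (BTr.b b0_9) (BTr.n (BTr.b b0_10) (BTr.b b0_11)))))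
namespace T0
def l0 : Tr := Tr.L (Pth.l (Pth.l (Pth.l Pth.z)))
def l1 : Tr := Tr.L (Pth.l (Pth.l (Pth.r (Pth.l Pth.z))))
def l2 : Tr := Tr.L (Pth.l (Pth.l (Pth.r (Pth.r Pth.z))))
def l3 : Tr := Tr.L (Pth.l (Pth.r (Pth.l Pth.z)))
def l4 : Tr := Tr.L (Pth.l (Pth.r (Pth.r (Pth.l Pth.z))))
def l5 : Tr := Tr.L (Pth.l (Pth.r (Pth.r (Pth.r Pth.z))))
def l6 : Tr := Tr.L (Pth.r (Pth.l (Pth.l Pth.z)))
def l7 : Tr := Tr.L (Pth.r (Pth.l (Pth.r (Pth.l Pth.z))))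
def l8 : Tr := Tr.L (Pth.r (Pth.l (Pth.r (Pth.r Pth.z))))
def l9 : Tr := Tr.L (Pth.r (Pth.r (Pth.l Pth.z)))
def l10 : Tr := Tr.L (Pth.r (Pth.r (Pth.r (Pth.l Pth.z))))
def l11 : Tr := Tr.L (Pth.r (Pth.r (Pth.r (Pth.r Pth.z))))
end T0
def b1_0 : Bx := Bx.mk (St.mk (I.pos (nat_lit 149291008) (nat_lit 228343808)) (I.mix (nat_lit 1867776) (nat_lit 59768832)) (I.mix (nat_lit 2752512) (nat_lit 91701248)) (I.pos (nat_lit 184647680) (nat_lit 288817152)) (I.mix (nat_lit 127811584) (nat_lit 79970304)) (I.mix (nat_lit 73842688) (nat_lit 74137600)) (I.mix (nat_lit 101842944) (nat_lit 98271232)))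
  false (nat_lit 87197061)
def b1_1 : Bx := Bx.mk (St.mk (I.pos (nat_lit 88276992) (nat_lit 166625280)) (I.neg (nat_lit 7618560) (nat_lit 55754752)) (I.mix (nat_lit 50528256) (nat_lit 1146880)) (I.pos (nat_lit 124649472) (nat_lit 194281472)) (I.mix (nat_lit 77774848) (nat_lit 50790400)) (I.mix (nat_lit 37928960) (nat_lit 56524800)) (I.mix (nat_lit 31850496) (nat_lit 49070080)))
  false (nat_lit 0)
def b1_2 : Bx := Bx.mk (St.mk (I.mix (nat_lit 29982720) (nat_lit 100777984)) (I.mix (nat_lit 9076736) (nat_lit 33161216)) (I.mix (nat_lit 16498688) (nat_lit 15007744)) (I.pos (nat_lit 85983232) (nat_lit 126320640)) (I.mix (nat_lit 38354944) (nat_lit 46120960)) (I.mix (nat_lit 37421056) (nat_lit 25935872)) (I.mix (nat_lit 23658496) (nat_lit 14876672)))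
  false (nat_lit 0)
def b1_3 : Bx := Bx.mk (St.mk (I.mix (nat_lit 30113792) (nat_lit 49725440)) (I.mix (nat_lit 31375360) (nat_lit 5373952)) (I.mix (nat_lit 12009472) (nat_lit 3538944)) (I.pos (nat_lit 86032384) (nat_lit 99483648)) (I.mix (nat_lit 30261248) (nat_lit 36159488)) (I.mix (nat_lit 20807680) (nat_lit 29900800)) (I.mix (nat_lit 7667712) (nat_lit 11042816)))
  false (nat_lit 0)
def b1_4 : Bx := Bx.mk (St.mk (I.pos (nat_lit 155336704) (nat_lit 206749696)) (I.mix (nat_lit 2949120) (nat_lit 57393152)) (I.pos (nat_lit 13303808) (nat_lit 87212032)) (I.pos (nat_lit 187973632) (nat_lit 254672896)) (I.mix (nat_lit 129990656) (nat_lit 45531136)) (I.mix (nat_lit 110985216) (nat_lit 60784640)) (I.mix (nat_lit 104038400) (nat_lit 53805056)))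
  false (nat_lit 46043419)
def b1_5 : Bx := Bx.mk (St.mk (I.pos (nat_lit 75956224) (nat_lit 122339328)) (I.mix (nat_lit 58376192) (nat_lit 10305536)) (I.neg (nat_lit 671744) (nat_lit 52379648)) (I.pos (nat_lit 110854144) (nat_lit 148209664)) (I.mix (nat_lit 88752128) (nat_lit 35962880)) (I.mix (nat_lit 32899072) (nat_lit 76087296)) (I.mix (nat_lit 24330240) (nat_lit 50348032)))
  false (nat_lit 0)
def b1_6 : Bx := Bx.mk (St.mk (I.mix (nat_lit 50921472) (nat_lit 72024064)) (I.mix (nat_lit 10715136) (nat_lit 33013760)) (I.mix (nat_lit 12500992) (nat_lit 14008320)) (I.pos (nat_lit 85377024) (nat_lit 111263744)) (I.mix (nat_lit 46825472) (nat_lit 29016064)) (I.mix (nat_lit 38305792) (nat_lit 20807680)) (I.mix (nat_lit 13860864) (nat_lit 11042816)))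
  false (nat_lit 0)
def b1_7 : Bx := Bx.mk (St.mk (I.mix (nat_lit 49741824) (nat_lit 20824064)) (I.mix (nat_lit 31047680) (nat_lit 6324224)) (I.mix (nat_lit 10780672) (nat_lit 4341760)) (I.pos (nat_lit 86818816) (nat_lit 99024896)) (I.mix (nat_lit 39321600) (nat_lit 24887296)) (I.mix (nat_lit 20086784) (nat_lit 30359552)) (I.mix (nat_lit 11337728) (nat_lit 6144000)))
  false (nat_lit 0)
def b1_8 : Bx := Bx.mk (St.mk (I.pos (nat_lit 190562304) (nat_lit 288800768)) (I.mix (nat_lit 28065792) (nat_lit 41074688)) (I.mix (nat_lit 84918272) (nat_lit 58507264)) (I.pos (nat_lit 242368512) (nat_lit 404062208)) (I.mix (nat_lit 74661888) (nat_lit 63406080)) (I.mix (nat_lit 63045632) (nat_lit 43139072)) (I.mix (nat_lit 111919104) (nat_lit 78036992)))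
  false (nat_lit 61891786)
def b1_9 : Bx := Bx.mk (St.mk (I.pos (nat_lit 134266880) (nat_lit 198017024)) (I.mix (nat_lit 34816000) (nat_lit 14581760)) (I.mix (nat_lit 29360128) (nat_lit 34275328)) (I.pos (nat_lit 162332672) (nat_lit 233160704)) (I.mix (nat_lit 60178432) (nat_lit 55934976)) (I.mix (nat_lit 51494912) (nat_lit 49807360)) (I.mix (nat_lit 47300608) (nat_lit 47251456)))
  false (nat_lit 0)
def b1_10 : Bx := Bx.mk (St.mk (I.pos (nat_lit 171458560) (nat_lit 228442112)) (I.pos (nat_lit 14368768) (nat_lit 60440576)) (I.pos (nat_lit 18710528) (nat_lit 92160000)) (I.pos (nat_lit 230244352) (nat_lit 287375360)) (I.mix (nat_lit 120700928) (nat_lit 101924864)) (I.mix (nat_lit 93126656) (nat_lit 78348288)) (I.mix (nat_lit 138444800) (nat_lit 98992128)))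
  false (nat_lit 41204194)
def b1_11 : Bx := Bx.mk (St.mk (I.pos (nat_lit 155254784) (nat_lit 199213056)) (I.mix (nat_lit 10027008) (nat_lit 34013184)) (I.pos (nat_lit 2998272) (nat_lit 60719104)) (I.pos (nat_lit 188284928) (nat_lit 238010368)) (I.mix (nat_lit 129597440) (nat_lit 66289664)) (I.mix (nat_lit 122060800) (nat_lit 56213504)) (I.mix (nat_lit 119717888) (nat_lit 50839552)))
  false (nat_lit 4114582)
def t1 : BTr := (BTr.n (BTr.n (BTr.n (BTr.b b1_0) (BTr.n (BTr.b b1_1) (BTr.b b1_2))) (BTr.n (BTr.b b1_3) (BTr.n (BTr.b b1_4) (BTr.b b1_5)))) (BTr.n (BTr.n (BTr.b b1_6) (BTr.n (BTr.b b1_7) (BTr.b b1_8))) (BTr.n (BTr.b b1_9) (BTr.n (BTr.b b1_10) (BTr.b b1_11)))))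
namespace T1
def l0 : Tr := Tr.L (Pth.l (Pth.l (Pth.l Pth.z)))
def l1 : Tr := Tr.L (Pth.l (Pth.l (Pth.r (Pth.l Pth.z))))
def l2 : Tr := Tr.L (Pth.l (Pth.l (Pth.r (Pth.r Pth.z))))
def l3 : Tr := Tr.L (Pth.l (Pth.r (Pth.l Pth.z)))
def l4 : Tr := Tr.L (Pth.l (Pth.r (Pth.r (Pth.l Pth.z))))
def l5 : Tr := Tr.L (Pth.l (Pth.r (Pth.r (Pth.r Pth.z))))
def l6 : Tr := Tr.L (Pth.r (Pth.l (Pth.l Pth.z)))
def l7 : Tr := Tr.L (Pth.r (Pth.l (Pth.r (Pth.l Pth.z))))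
def l8 : Tr := Tr.L (Pth.r (Pth.l (Pth.r (Pth.r Pth.z))))
def l9 : Tr := Tr.L (Pth.r (Pth.r (Pth.l Pth.z)))
def l10 : Tr := Tr.L (Pth.r (Pth.r (Pth.r (Pth.l Pth.z))))
def l11 : Tr := Tr.L (Pth.r (Pth.r (Pth.r (Pth.r Pth.z))))
end T1
def b2_0 : Bx := Bx.mk (St.mk (I.pos (nat_lit 150142976) (nat_lit 232947712)) (I.mix (nat_lit 1671168) (nat_lit 55246848)) (I.mix (nat_lit 2801664) (nat_lit 96878592)) (I.pos (nat_lit 140099584) (nat_lit 261455872)) (I.mix (nat_lit 141148160) (nat_lit 93863936)) (I.mix (nat_lit 89784320) (nat_lit 92962816)) (I.mix (nat_lit 122716160) (nat_lit 117899264)))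
  false (nat_lit 37725972)
def b2_1 : Bx := Bx.mk (St.mk (I.pos (nat_lit 107479040) (nat_lit 179044352)) (I.neg (nat_lit 7454720) (nat_lit 52887552)) (I.mix (nat_lit 46071808) (nat_lit 7503872)) (I.pos (nat_lit 99696640) (nat_lit 183304192)) (I.mix (nat_lit 78364672) (nat_lit 41910272)) (I.mix (nat_lit 38600704) (nat_lit 49741824)) (I.mix (nat_lit 34750464) (nat_lit 48152576)))
  false (nat_lit 0)
def b2_2 : Bx := Bx.mk (St.mk (I.mix (nat_lit 22069248) (nat_lit 87539712)) (I.mix (nat_lit 29147136) (nat_lit 3358720)) (I.mix (nat_lit 14630912) (nat_lit 6930432)) (I.pos (nat_lit 42696704) (nat_lit 91586560)) (I.mix (nat_lit 33275904) (nat_lit 29540352)) (I.mix (nat_lit 22151168) (nat_lit 24117248)) (I.mix (nat_lit 11534336) (nat_lit 12828672)))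
  false (nat_lit 0)
def b2_3 : Bx := Bx.mk (St.mk (I.pos (nat_lit 157974528) (nat_lit 211992576)) (I.mix (nat_lit 9207808) (nat_lit 57835520)) (I.pos (nat_lit 11796480) (nat_lit 97927168)) (I.pos (nat_lit 147603456) (nat_lit 232734720)) (I.mix (nat_lit 156975104) (nat_lit 67174400)) (I.mix (nat_lit 124485632) (nat_lit 77774848)) (I.mix (nat_lit 129761280) (nat_lit 67108864)))
  false (nat_lit 31081055)
def b2_4 : Bx := Bx.mk (St.mk (I.mix (nat_lit 39059456) (nat_lit 106463232)) (I.mix (nat_lit 12369920) (nat_lit 33439744)) (I.mix (nat_lit 5455872) (nat_lit 25739264)) (I.pos (nat_lit 42270720) (nat_lit 105545728)) (I.mix (nat_lit 53297152) (nat_lit 25313280)) (I.mix (nat_lit 40517632) (nat_lit 27279360)) (I.mix (nat_lit 22118400) (nat_lit 16056320)))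
  false (nat_lit 0)
def b2_5 : Bx := Bx.mk (St.mk (I.pos (nat_lit 138657792) (nat_lit 204390400)) (I.mix (nat_lit 35880960) (nat_lit 12222464)) (I.mix (nat_lit 28180480) (nat_lit 37240832)) (I.pos (nat_lit 124960768) (nat_lit 214368256)) (I.mix (nat_lit 59211776) (nat_lit 55934976)) (I.mix (nat_lit 49496064) (nat_lit 49987584)) (I.mix (nat_lit 47218688) (nat_lit 50266112)))
  false (nat_lit 15912835)
def b2_6 : Bx := Bx.mk (St.mk (I.pos (nat_lit 158924800) (nat_lit 203898880)) (I.mix (nat_lit 17399808) (nat_lit 28377088)) (I.pos (nat_lit 1900544) (nat_lit 59785216)) (I.pos (nat_lit 146784256) (nat_lit 215957504)) (I.mix (nat_lit 112918528) (nat_lit 66027520)) (I.mix (nat_lit 106217472) (nat_lit 51363840)) (I.mix (nat_lit 112705536) (nat_lit 50135040)))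
  false (nat_lit 23658573)
def b2_7 : Bx := Bx.mk (St.mk (I.mix (nat_lit 23232512) (nat_lit 121946112)) (I.mix (nat_lit 8290304) (nat_lit 27492352)) (I.mix (nat_lit 10387456) (nat_lit 20283392)) (I.pos (nat_lit 42139648) (nat_lit 117571584)) (I.mix (nat_lit 43368448) (nat_lit 41631744)) (I.mix (nat_lit 36192256) (nat_lit 29704192)) (I.mix (nat_lit 25657344) (nat_lit 20054016)))
  false (nat_lit 0)
def b2_8 : Bx := Bx.mk (St.mk (I.pos (nat_lit 92635136) (nat_lit 140230656)) (I.mix (nat_lit 52625408) (nat_lit 9715712)) (I.mix (nat_lit 46448640) (nat_lit 6930432)) (I.pos (nat_lit 78708736) (nat_lit 135593984)) (I.mix (nat_lit 88260608) (nat_lit 37142528)) (I.mix (nat_lit 37421056) (nat_lit 73908224)) (I.mix (nat_lit 27656192) (nat_lit 52871168)))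
  false (nat_lit 0)
def b2_9 : Bx := Bx.mk (St.mk (I.mix (nat_lit 36241408) (nat_lit 70385664)) (I.mix (nat_lit 30130176) (nat_lit 4276224)) (I.mix (nat_lit 13697024) (nat_lit 5242880)) (I.pos (nat_lit 43008000) (nat_lit 82427904)) (I.mix (nat_lit 40501248) (nat_lit 19578880)) (I.mix (nat_lit 19972096) (nat_lit 31686656)) (I.mix (nat_lit 9175040) (nat_lit 11862016)))
  false (nat_lit 0)
def b2_10 : Bx := Bx.mk (St.mk (I.pos (nat_lit 192299008) (nat_lit 288391168)) (I.mix (nat_lit 25755648) (nat_lit 37552128)) (I.mix (nat_lit 60375040) (nat_lit 68304896)) (I.pos (nat_lit 202326016) (nat_lit 376913920)) (I.mix (nat_lit 69173248) (nat_lit 64667648)) (I.mix (nat_lit 59310080) (nat_lit 44351488)) (I.mix (nat_lit 103956480) (nat_lit 73105408)))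
  false (nat_lit 37109247)
def b2_11 : Bx := Bx.mk (St.mk (I.pos (nat_lit 173391872) (nat_lit 230359040)) (I.pos (nat_lit 9519104) (nat_lit 54411264)) (I.pos (nat_lit 20529152) (nat_lit 95731712)) (I.pos (nat_lit 191070208) (nat_lit 257507328)) (I.mix (nat_lit 119160832) (nat_lit 101662720)) (I.mix (nat_lit 95109120) (nat_lit 81330176)) (I.mix (nat_lit 141279232) (nat_lit 100368384)))
  false (nat_lit 37670757)
def t2 : BTr := (BTr.n (BTr.n (BTr.n (BTr.b b2_0) (BTr.n (BTr.b b2_1) (BTr.b b2_2))) (BTr.n (BTr.b b2_3) (BTr.n (BTr.b b2_4) (BTr.b b2_5)))) (BTr.n (BTr.n (BTr.b b2_6) (BTr.n (BTr.b b2_7) (BTr.b b2_8))) (BTr.n (BTr.b b2_9) (BTr.n (BTr.b b2_10) (BTr.b b2_11)))))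
namespace T2
def l0 : Tr := Tr.L (Pth.l (Pth.l (Pth.l Pth.z)))
def l1 : Tr := Tr.L (Pth.l (Pth.l (Pth.r (Pth.l Pth.z))))
def l2 : Tr := Tr.L (Pth.l (Pth.l (Pth.r (Pth.r Pth.z))))
def l3 : Tr := Tr.L (Pth.l (Pth.r (Pth.l Pth.z)))
def l4 : Tr := Tr.L (Pth.l (Pth.r (Pth.r (Pth.l Pth.z))))
def l5 : Tr := Tr.L (Pth.l (Pth.r (Pth.r (Pth.r Pth.z))))
def l6 : Tr := Tr.L (Pth.r (Pth.l (Pth.l Pth.z)))
def l7 : Tr := Tr.L (Pth.r (Pth.l (Pth.r (Pth.l Pth.z))))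
def l8 : Tr := Tr.L (Pth.r (Pth.l (Pth.r (Pth.r Pth.z))))
def l9 : Tr := Tr.L (Pth.r (Pth.r (Pth.l Pth.z)))
def l10 : Tr := Tr.L (Pth.r (Pth.r (Pth.r (Pth.l Pth.z))))
def l11 : Tr := Tr.L (Pth.r (Pth.r (Pth.r (Pth.r Pth.z))))
end T2
theorem bx0_0 : BoxOK sI cl6 cl7 cl7 t1 t1 b0_0 :=
  box_mk (TrL.c (I.pos (nat_lit 0) (nat_lit 0)) (xa (xb (xa T1.l10 T1.l0) (xa (xb T1.l0 T1.l0) (xb T1.l0 T1.l0))) (xb (xa T1.l0 T1.l0) (xa (xb T1.l0 T1.l0) (xb T1.l0 T1.l0))))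
  (TrL.c (I.pos (nat_lit 0) (nat_lit 0)) (xa (xb T1.l1 T1.l1) (xb T1.l1 T1.l1))
  (TrL.c (I.pos (nat_lit 0) (nat_lit 89480386)) (xR (xR T1.l2 T1.l2) (xR T1.l2 (xR T1.l2 (xa T1.l2 T1.l2))))
  (TrL.c (I.pos (nat_lit 0) (nat_lit 41530880)) (xR T1.l3 (xR T1.l3 T1.l3))
  (TrL.c (I.pos (nat_lit 0) (nat_lit 0)) (xa (xb T1.l4 T1.l4) (xb T1.l4 T1.l4))
  (TrL.c (I.pos (nat_lit 0) (nat_lit 0)) T1.l5
  (TrL.c (I.mix (nat_lit 41527258) (nat_lit 41530880)) (xR (xR (xR T1.l6 T1.l6) T1.l6) (xR T1.l6 (xR T1.l6 T1.l6)))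
  (TrL.c (I.mix (nat_lit 41527258) (nat_lit 4274)) (xR (xR T1.l7 T1.l7) T1.l7)
  TrL.n)))))))) (by decide +kernel)
theorem bx0_1 : BoxOK sI cl6 cl7 cl7 t1 t1 b0_1 :=
  box_mk (TrL.c (I.pos (nat_lit 0) (nat_lit 0)) (xa (xa T1.l8 T1.l8) (xa T1.l8 (xb T1.l8 (xa T1.l8 T1.l8))))
  (TrL.c (I.pos (nat_lit 0) (nat_lit 0)) (xa T1.l1 T1.l1)
  (TrL.c (I.pos (nat_lit 0) (nat_lit 89480386)) (xR T1.l6 T1.l2)
  (TrL.c (I.pos (nat_lit 0) (nat_lit 41530880)) T1.l3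
  (TrL.c (I.pos (nat_lit 0) (nat_lit 0)) (xa T1.l9 T1.l9)
  (TrL.c (I.pos (nat_lit 0) (nat_lit 0)) T1.l5
  (TrL.c (I.mix (nat_lit 41527258) (nat_lit 41530880)) T1.l6
  (TrL.c (I.mix (nat_lit 41527258) (nat_lit 4274)) (xR T1.l7 T1.l7)
  TrL.n)))))))) (by decide +kernel)
theorem bx0_2 : BoxOK sI cl6 cl7 cl7 t1 t1 b0_2 :=
  box_mk (TrL.c (I.pos (nat_lit 0) (nat_lit 0)) (xb (xa T1.l8 T1.l8) T1.l8)
  (TrL.c (I.pos (nat_lit 0) (nat_lit 0)) T1.l1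
  (TrL.c (I.pos (nat_lit 0) (nat_lit 89480386)) (xR (xR T1.l2 T1.l2) T1.l2)
  (TrL.c (I.pos (nat_lit 0) (nat_lit 41530880)) (xR T1.l3 T1.l3)
  (TrL.c (I.pos (nat_lit 0) (nat_lit 0)) T1.l9
  (TrL.c (I.pos (nat_lit 0) (nat_lit 0)) T1.l5
  (TrL.c (I.mix (nat_lit 41527258) (nat_lit 41530880)) (xR (xR T1.l6 T1.l6) T1.l6)
  (TrL.c (I.mix (nat_lit 41527258) (nat_lit 4274)) (xR (xR T1.l7 T1.l7) T1.l7)
  TrL.n)))))))) (by decide +kernel)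
theorem bx0_3 : BoxOK sI cl6 cl7 cl7 t1 t1 b0_3 :=
  box_mk (TrL.c (I.pos (nat_lit 0) (nat_lit 0)) (xa (xa T1.l8 T1.l8) T1.l8)
  (TrL.c (I.pos (nat_lit 0) (nat_lit 0)) (xa T1.l9 T1.l1)
  (TrL.c (I.pos (nat_lit 0) (nat_lit 89480386)) (xR T1.l2 T1.l2)
  (TrL.c (I.pos (nat_lit 0) (nat_lit 41530880)) T1.l6
  (TrL.c (I.pos (nat_lit 0) (nat_lit 0)) (xa T1.l1 T1.l9)
  (TrL.c (I.pos (nat_lit 0) (nat_lit 0)) T1.l5
  (TrL.c (I.mix (nat_lit 41527258) (nat_lit 41530880)) T1.l6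
  (TrL.c (I.mix (nat_lit 41527258) (nat_lit 4274)) T1.l6
  TrL.n)))))))) (by decide +kernel)
theorem bx0_4 : BoxOK sI cl6 cl7 cl7 t1 t1 b0_4 :=
  box_mk (TrL.c (I.pos (nat_lit 0) (nat_lit 0)) (xa (xb T1.l0 (xa T1.l0 T1.l0)) (xb (xa T1.l0 (xb T1.l0 T1.l0)) (xa T1.l0 (xb T1.l0 T1.l0))))
  (TrL.c (I.pos (nat_lit 0) (nat_lit 0)) (xa T1.l1 T1.l5)
  (TrL.c (I.pos (nat_lit 0) (nat_lit 89480386)) (xR (xR T1.l2 (xR T1.l2 T1.l2)) (xR (xR T1.l2 T1.l2) (xR (xa T1.l2 T1.l2) (xa T1.l2 T1.l2))))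
  (TrL.c (I.pos (nat_lit 0) (nat_lit 41530880)) (xR T1.l3 (xR T1.l3 T1.l3))
  (TrL.c (I.pos (nat_lit 0) (nat_lit 0)) (xa (xb (xa T1.l4 T1.l4) T1.l4) (xb (xa T1.l4 (xb T1.l4 T1.l4)) (xa T1.l4 (xb T1.l4 T1.l4))))
  (TrL.c (I.pos (nat_lit 0) (nat_lit 0)) (xa T1.l5 (xb T1.l5 T1.l5))
  (TrL.c (I.mix (nat_lit 41527258) (nat_lit 41530880)) (xR (xR (xR T1.l2 T1.l6) T1.l6) (xR T1.l6 (xR T1.l6 T1.l2)))
  (TrL.c (I.mix (nat_lit 41527258) (nat_lit 4274)) (xR (xR T1.l7 T1.l7) T1.l3)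
  TrL.n)))))))) (by decide +kernel)
theorem bx0_5 : BoxOK sI cl6 cl7 cl7 t1 t1 b0_5 :=
  box_mk (TrL.c (I.pos (nat_lit 0) (nat_lit 0)) (xa (xb (xa T1.l8 T1.l8) (xa T1.l8 T1.l8)) (xb T1.l0 (xa T1.l8 T1.l8)))
  (TrL.c (I.pos (nat_lit 0) (nat_lit 0)) T1.l1
  (TrL.c (I.pos (nat_lit 0) (nat_lit 89480386)) (xR (xR T1.l2 T1.l6) (xR T1.l2 T1.l2))
  (TrL.c (I.pos (nat_lit 0) (nat_lit 41530880)) (xR T1.l3 (xR T1.l3 T1.l3))
  (TrL.c (I.pos (nat_lit 0) (nat_lit 0)) (xa T1.l9 T1.l9)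
  (TrL.c (I.pos (nat_lit 0) (nat_lit 0)) T1.l5
  (TrL.c (I.mix (nat_lit 41527258) (nat_lit 41530880)) (xR (xR T1.l6 T1.l6) T1.l6)
  (TrL.c (I.mix (nat_lit 41527258) (nat_lit 4274)) (xR (xR T1.l7 T1.l7) T1.l7)
  TrL.n)))))))) (by decide +kernel)
theorem bx0_6 : BoxOK sI cl6 cl7 cl7 t1 t1 b0_6 :=
  box_mk (TrL.c (I.pos (nat_lit 0) (nat_lit 0)) (xa (xa T1.l8 T1.l8) T1.l8)
  (TrL.c (I.pos (nat_lit 0) (nat_lit 0)) (xa T1.l1 T1.l1)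
  (TrL.c (I.pos (nat_lit 0) (nat_lit 89480386)) (xR T1.l2 T1.l2)
  (TrL.c (I.pos (nat_lit 0) (nat_lit 41530880)) T1.l3
  (TrL.c (I.pos (nat_lit 0) (nat_lit 0)) (xa T1.l9 T1.l9)
  (TrL.c (I.pos (nat_lit 0) (nat_lit 0)) T1.l5
  (TrL.c (I.mix (nat_lit 41527258) (nat_lit 41530880)) T1.l6
  (TrL.c (I.mix (nat_lit 41527258) (nat_lit 4274)) T1.l6
  TrL.n)))))))) (by decide +kernel)
theorem bx0_7 : BoxOK sI cl6 cl7 cl7 t1 t1 b0_7 :=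
  box_mk (TrL.c (I.pos (nat_lit 0) (nat_lit 0)) (xb (xa (xb T1.l10 T1.l10) (xb (xa T1.l10 T1.l10) T1.l10)) (xa (xb (xa T1.l10 T1.l10) (xa T1.l10 T1.l10)) (xb (xa T1.l10 T1.l10) (xa T1.l10 T1.l10))))
  (TrL.c (I.pos (nat_lit 0) (nat_lit 0)) (xb (xa T1.l1 T1.l1) (xa T1.l1 T1.l1))
  (TrL.c (I.pos (nat_lit 0) (nat_lit 89480386)) (xR (xR T1.l2 T1.l2) (xR T1.l2 (xR T1.l2 T1.l2)))
  (TrL.c (I.pos (nat_lit 0) (nat_lit 41530880)) (xR (xR T1.l3 T1.l3) (xR T1.l3 T1.l3))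
  (TrL.c (I.pos (nat_lit 0) (nat_lit 0)) (xb (xa T1.l11 T1.l11) (xa (xb T1.l11 T1.l11) (xb T1.l11 (xb T1.l11 (xs T1.l11 (xa T1.l11 T1.l11))))))
  (TrL.c (I.pos (nat_lit 0) (nat_lit 0)) T1.l5
  (TrL.c (I.mix (nat_lit 41527258) (nat_lit 41530880)) (xR (xR (xR T1.l6 T1.l6) T1.l6) (xR T1.l6 (xR T1.l6 T1.l6)))
  (TrL.c (I.mix (nat_lit 41527258) (nat_lit 4274)) (xR (xR T1.l7 T1.l7) (xR T1.l7 T1.l7))
  TrL.n)))))))) (by decide +kernel)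
theorem bx0_8 : BoxOK sI cl6 cl7 cl7 t1 t1 b0_8 :=
  box_mk (TrL.c (I.pos (nat_lit 0) (nat_lit 0)) (xa (xa (xb T1.l8 (xa T1.l8 T1.l8)) (xb T1.l8 T1.l8)) (xa T1.l8 (xb T1.l8 (xa T1.l8 T1.l8))))
  (TrL.c (I.pos (nat_lit 0) (nat_lit 0)) (xa T1.l1 T1.l1)
  (TrL.c (I.pos (nat_lit 0) (nat_lit 89480386)) (xR T1.l6 (xR T1.l2 T1.l2))
  (TrL.c (I.pos (nat_lit 0) (nat_lit 41530880)) (xR T1.l3 (xa T1.l3 T1.l3))
  (TrL.c (I.pos (nat_lit 0) (nat_lit 0)) (xa T1.l9 T1.l9)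
  (TrL.c (I.pos (nat_lit 0) (nat_lit 0)) T1.l5
  (TrL.c (I.mix (nat_lit 41527258) (nat_lit 41530880)) T1.l6
  (TrL.c (I.mix (nat_lit 41527258) (nat_lit 4274)) (xR (xa T1.l7 T1.l7) T1.l7)
  TrL.n)))))))) (by decide +kernel)
theorem bx0_9 : BoxOK sI cl6 cl7 cl7 t1 t1 b0_9 :=
  box_mk (TrL.c (I.pos (nat_lit 0) (nat_lit 0)) (xa (xb T1.l0 (xa T1.l10 T1.l10)) T1.l0)
  (TrL.c (I.pos (nat_lit 0) (nat_lit 0)) T1.l1
  (TrL.c (I.pos (nat_lit 0) (nat_lit 89480386)) (xR (xR T1.l2 T1.l6) (xR T1.l2 T1.l2))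
  (TrL.c (I.pos (nat_lit 0) (nat_lit 41530880)) (xR T1.l3 (xR T1.l3 T1.l3))
  (TrL.c (I.pos (nat_lit 0) (nat_lit 0)) (xa T1.l11 (xb T1.l11 T1.l11))
  (TrL.c (I.pos (nat_lit 0) (nat_lit 0)) T1.l5
  (TrL.c (I.mix (nat_lit 41527258) (nat_lit 41530880)) (xR (xR T1.l6 T1.l6) T1.l6)
  (TrL.c (I.mix (nat_lit 41527258) (nat_lit 4274)) (xR (xR T1.l7 T1.l7) T1.l7)
  TrL.n)))))))) (by decide +kernel)
theorem bx0_10 : BoxOK sI cl6 cl7 cl7 t1 t1 b0_10 :=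
  box_mk (TrL.c (I.pos (nat_lit 0) (nat_lit 0)) (xb T1.l10 (xa T1.l10 T1.l10))
  (TrL.c (I.pos (nat_lit 0) (nat_lit 0)) T1.l1
  (TrL.c (I.pos (nat_lit 0) (nat_lit 89480386)) (xR (xR T1.l2 T1.l2) (xR T1.l2 T1.l2))
  (TrL.c (I.pos (nat_lit 0) (nat_lit 41530880)) (xR T1.l3 T1.l3)
  (TrL.c (I.pos (nat_lit 0) (nat_lit 0)) (xb T1.l11 T1.l11)
  (TrL.c (I.pos (nat_lit 0) (nat_lit 0)) T1.l5
  (TrL.c (I.mix (nat_lit 41527258) (nat_lit 41530880)) (xR (xR T1.l6 T1.l6) T1.l6)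
  (TrL.c (I.mix (nat_lit 41527258) (nat_lit 4274)) (xR (xR T1.l7 T1.l7) T1.l7)
  TrL.n)))))))) (by decide +kernel)
theorem bx0_11 : BoxOK sI cl6 cl7 cl7 t1 t1 b0_11 :=
  box_mk (TrL.c (I.pos (nat_lit 0) (nat_lit 0)) (xa (xb T1.l0 (xa T1.l0 T1.l0)) (xb T1.l0 (xa T1.l0 T1.l0)))
  (TrL.c (I.pos (nat_lit 0) (nat_lit 0)) (xa T1.l1 T1.l1)
  (TrL.c (I.pos (nat_lit 0) (nat_lit 89480386)) (xR (xR T1.l2 T1.l2) (xR T1.l2 T1.l2))
  (TrL.c (I.pos (nat_lit 0) (nat_lit 41530880)) (xR T1.l3 T1.l3)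
  (TrL.c (I.pos (nat_lit 0) (nat_lit 0)) (xa T1.l4 T1.l4)
  (TrL.c (I.pos (nat_lit 0) (nat_lit 0)) T1.l5
  (TrL.c (I.mix (nat_lit 41527258) (nat_lit 41530880)) (xR (xR T1.l6 T1.l6) T1.l6)
  (TrL.c (I.mix (nat_lit 41527258) (nat_lit 4274)) (xR T1.l7 T1.l7)
  TrL.n)))))))) (by decide +kernel)
theorem sv0 : StarV sI cl6 cl7 cl7 t1 t1 t0 :=
  (bt_n (bt_n (bt_n (bt_b bx0_0) (bt_n (bt_b bx0_1) (bt_b bx0_2))) (bt_n (bt_b bx0_3) (bt_n (bt_b bx0_4) (bt_b bx0_5)))) (bt_n (bt_n (bt_b bx0_6) (bt_n (bt_b bx0_7) (bt_b bx0_8))) (bt_n (bt_b bx0_9) (bt_n (bt_b bx0_10) (bt_b bx0_11)))))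
def S0 : StarD := StarD.mk cl6 cl7 cl7 1 1 t0
theorem bx1_0 : BoxOK sI cl7 cl6 cl7 t0 t2 b1_0 :=
  box_mk (TrL.c (I.pos (nat_lit 0) (nat_lit 0)) (xa (xb (xa (xb T0.l0 T0.l0) T0.l0) (xa (xb T0.l0 T0.l0) (xb T0.l0 T0.l0))) (xb (xa T0.l0 T0.l0) (xa (xb T0.l0 T0.l0) (xb T0.l0 T0.l0))))
  (TrL.c (I.pos (nat_lit 0) (nat_lit 0)) (xa (xk (xb T2.l1 T2.l1) (xb T2.l1 T2.l1)) (xk (xb T2.l1 (xa T2.l1 T2.l1)) (xb T2.l1 (xa T2.l1 T2.l1))))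
  (TrL.c (I.pos (nat_lit 0) (nat_lit 111196574)) (xR (xR T0.l1 T0.l1) (xR T0.l1 (xR T0.l1 (xa T0.l1 T0.l1))))
  (TrL.c (I.pos (nat_lit 0) (nat_lit 77433728)) (xR T2.l2 (xR T2.l2 (xR T2.l2 T2.l2)))
  (TrL.c (I.pos (nat_lit 0) (nat_lit 0)) (xa (xb (xk T2.l3 T2.l3) (xk T2.l3 T2.l6)) (xb T2.l3 (xk T2.l3 T2.l3)))
  (TrL.c (I.pos (nat_lit 0) (nat_lit 0)) (xk (xa T0.l2 T0.l2) T0.l2)
  (TrL.c (I.mix (nat_lit 29511666) (nat_lit 77433728)) (xR T2.l4 (xR T2.l4 (xR T2.l4 (xk T2.l4 T2.l4))))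
  (TrL.c (I.mix (nat_lit 29511666) (nat_lit 46070178)) (xR T0.l3 (xR T0.l3 (xR T0.l3 T0.l3)))
  TrL.n)))))))) (by decide +kernel)
theorem bx1_1 : BoxOK sI cl7 cl6 cl7 t0 t2 b1_1 :=
  box_mk (TrL.c (I.pos (nat_lit 0) (nat_lit 0)) (xa (xb (xa T0.l4 T0.l4) T0.l4) (xb T0.l0 T0.l0))
  (TrL.c (I.pos (nat_lit 0) (nat_lit 0)) (xa T2.l1 T2.l1)
  (TrL.c (I.pos (nat_lit 0) (nat_lit 111196574)) (xR T0.l8 T0.l1)
  (TrL.c (I.pos (nat_lit 0) (nat_lit 77433728)) (xR T2.l2 T2.l2)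
  (TrL.c (I.pos (nat_lit 0) (nat_lit 0)) (xa (xb T2.l5 T2.l5) (xk T2.l5 T2.l5))
  (TrL.c (I.pos (nat_lit 0) (nat_lit 0)) T0.l2
  (TrL.c (I.mix (nat_lit 29511666) (nat_lit 77433728)) (xR T2.l4 T2.l4)
  (TrL.c (I.mix (nat_lit 29511666) (nat_lit 46070178)) (xR T0.l3 T0.l3)
  TrL.n)))))))) (by decide +kernel)
theorem bx1_2 : BoxOK sI cl7 cl6 cl7 t0 t2 b1_2 :=
  box_mk (TrL.c (I.pos (nat_lit 0) (nat_lit 0)) (xa (xa (xb T0.l4 T0.l4) T0.l4) (xa T0.l4 (xb T0.l4 T0.l4)))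
  (TrL.c (I.pos (nat_lit 0) (nat_lit 0)) (xa T2.l1 T2.l1)
  (TrL.c (I.pos (nat_lit 0) (nat_lit 111196574)) (xR T0.l1 T0.l1)
  (TrL.c (I.pos (nat_lit 0) (nat_lit 77433728)) (xR T2.l2 T2.l2)
  (TrL.c (I.pos (nat_lit 0) (nat_lit 0)) (xa T2.l5 T2.l5)
  (TrL.c (I.pos (nat_lit 0) (nat_lit 0)) T0.l2
  (TrL.c (I.mix (nat_lit 29511666) (nat_lit 77433728)) T2.l4
  (TrL.c (I.mix (nat_lit 29511666) (nat_lit 46070178)) T0.l3
  TrL.n)))))))) (by decide +kernel)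
theorem bx1_3 : BoxOK sI cl7 cl6 cl7 t0 t2 b1_3 :=
  box_mk (TrL.c (I.pos (nat_lit 0) (nat_lit 0)) (xa T0.l4 T0.l4)
  (TrL.c (I.pos (nat_lit 0) (nat_lit 0)) T2.l5
  (TrL.c (I.pos (nat_lit 0) (nat_lit 111196574)) T0.l1
  (TrL.c (I.pos (nat_lit 0) (nat_lit 77433728)) T2.l4
  (TrL.c (I.pos (nat_lit 0) (nat_lit 0)) T2.l1
  (TrL.c (I.pos (nat_lit 0) (nat_lit 0)) T0.l2
  (TrL.c (I.mix (nat_lit 29511666) (nat_lit 77433728)) T2.l4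
  (TrL.c (I.mix (nat_lit 29511666) (nat_lit 46070178)) T0.l3
  TrL.n)))))))) (by decide +kernel)
theorem bx1_4 : BoxOK sI cl7 cl6 cl7 t0 t2 b1_4 :=
  box_mk (TrL.c (I.pos (nat_lit 0) (nat_lit 0)) (xb (xa (xb T0.l11 T0.l11) (xb (xa T0.l11 T0.l0) T0.l11)) (xa (xb (xa T0.l11 T0.l11) (xa T0.l11 T0.l11)) (xb (xa T0.l11 T0.l11) (xa T0.l11 T0.l11))))
  (TrL.c (I.pos (nat_lit 0) (nat_lit 0)) (xk (xb T2.l1 (xa T2.l1 T2.l1)) (xb T2.l1 (xa T2.l1 T2.l1)))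
  (TrL.c (I.pos (nat_lit 0) (nat_lit 111196574)) (xR T0.l1 (xR T0.l1 (xR T0.l1 (xb T0.l1 T0.l1))))
  (TrL.c (I.pos (nat_lit 0) (nat_lit 77433728)) (xR T2.l2 (xR T2.l2 (xR T2.l2 T2.l2)))
  (TrL.c (I.pos (nat_lit 0) (nat_lit 0)) (xb (xk T2.l6 T2.l6) (xk T2.l3 T2.l6))
  (TrL.c (I.pos (nat_lit 0) (nat_lit 0)) (xk T0.l2 T0.l2)
  (TrL.c (I.mix (nat_lit 29511666) (nat_lit 77433728)) (xR T2.l4 (xR T2.l4 (xR T2.l4 T2.l4)))
  (TrL.c (I.mix (nat_lit 29511666) (nat_lit 46070178)) (xR T0.l3 T0.l6)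
  TrL.n)))))))) (by decide +kernel)
theorem bx1_5 : BoxOK sI cl7 cl6 cl7 t0 t2 b1_5 :=
  box_mk (TrL.c (I.pos (nat_lit 0) (nat_lit 0)) (xb (xa T0.l4 T0.l4) (xa T0.l4 T0.l4))
  (TrL.c (I.pos (nat_lit 0) (nat_lit 0)) T2.l1
  (TrL.c (I.pos (nat_lit 0) (nat_lit 111196574)) (xR T0.l1 T0.l1)
  (TrL.c (I.pos (nat_lit 0) (nat_lit 77433728)) (xR T2.l2 T2.l2)
  (TrL.c (I.pos (nat_lit 0) (nat_lit 0)) (xb (xk T2.l5 T2.l5) T2.l5)
  (TrL.c (I.pos (nat_lit 0) (nat_lit 0)) T0.l2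
  (TrL.c (I.mix (nat_lit 29511666) (nat_lit 77433728)) T2.l4
  (TrL.c (I.mix (nat_lit 29511666) (nat_lit 46070178)) T0.l3
  TrL.n)))))))) (by decide +kernel)
theorem bx1_6 : BoxOK sI cl7 cl6 cl7 t0 t2 b1_6 :=
  box_mk (TrL.c (I.pos (nat_lit 0) (nat_lit 0)) (xa (xa (xb T0.l4 T0.l4) T0.l4) T0.l4)
  (TrL.c (I.pos (nat_lit 0) (nat_lit 0)) (xa T2.l1 T2.l1)
  (TrL.c (I.pos (nat_lit 0) (nat_lit 111196574)) T0.l1
  (TrL.c (I.pos (nat_lit 0) (nat_lit 77433728)) (xR T2.l4 (xR T2.l2 T2.l2))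
  (TrL.c (I.pos (nat_lit 0) (nat_lit 0)) (xa T2.l5 T2.l5)
  (TrL.c (I.pos (nat_lit 0) (nat_lit 0)) T0.l2
  (TrL.c (I.mix (nat_lit 29511666) (nat_lit 77433728)) T2.l4
  (TrL.c (I.mix (nat_lit 29511666) (nat_lit 46070178)) T0.l3
  TrL.n)))))))) (by decide +kernel)
theorem bx1_7 : BoxOK sI cl7 cl6 cl7 t0 t2 b1_7 :=
  box_mk (TrL.c (I.pos (nat_lit 0) (nat_lit 0)) (xa (xb T0.l4 T0.l4) T0.l4)
  (TrL.c (I.pos (nat_lit 0) (nat_lit 0)) T2.l5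
  (TrL.c (I.pos (nat_lit 0) (nat_lit 111196574)) T0.l1
  (TrL.c (I.pos (nat_lit 0) (nat_lit 77433728)) T2.l4
  (TrL.c (I.pos (nat_lit 0) (nat_lit 0)) T2.l1
  (TrL.c (I.pos (nat_lit 0) (nat_lit 0)) T0.l1
  (TrL.c (I.mix (nat_lit 29511666) (nat_lit 77433728)) (xR T2.l4 T2.l2)
  (TrL.c (I.mix (nat_lit 29511666) (nat_lit 46070178)) T0.l8
  TrL.n)))))))) (by decide +kernel)
theorem bx1_8 : BoxOK sI cl7 cl6 cl7 t0 t2 b1_8 :=
  box_mk (TrL.c (I.pos (nat_lit 0) (nat_lit 0)) (xa (xb T0.l0 (xa T0.l0 T0.l0)) (xb (xa T0.l0 (xb T0.l0 T0.l0)) (xa T0.l0 (xb T0.l0 T0.l0))))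
  (TrL.c (I.pos (nat_lit 0) (nat_lit 0)) (xa (xb (xk T2.l8 T2.l1) (xk (xa T2.l1 T2.l8) T2.l1)) (xk (xb T2.l8 T2.l8) (xb T2.l8 T2.l8)))
  (TrL.c (I.pos (nat_lit 0) (nat_lit 111196574)) (xR (xR T0.l1 T0.l1) (xR T0.l1 T0.l8))
  (TrL.c (I.pos (nat_lit 0) (nat_lit 77433728)) (xR (xR T2.l2 T2.l2) (xR T2.l2 (xR T2.l2 (xa T2.l2 T2.l2))))
  (TrL.c (I.pos (nat_lit 0) (nat_lit 0)) (xa (xb (xk T2.l3 T2.l3) (xk T2.l3 T2.l3)) (xb (xk (xa T2.l3 T2.l3) (xa T2.l3 T2.l3)) (xk (xa T2.l3 T2.l3) (xa T2.l3 T2.l3))))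
  (TrL.c (I.pos (nat_lit 0) (nat_lit 0)) (xk (xb T0.l5 (xa T0.l2 T0.l2)) (xa T0.l2 (xb T0.l2 T0.l2)))
  (TrL.c (I.mix (nat_lit 29511666) (nat_lit 77433728)) (xR (xR T2.l4 T2.l4) (xR T2.l4 (xR T2.l4 (xk T2.l4 T2.l4))))
  (TrL.c (I.mix (nat_lit 29511666) (nat_lit 46070178)) (xR (xR (xR T0.l3 T0.l3) T0.l3) (xR T0.l3 (xR T0.l3 T0.l3)))
  TrL.n)))))))) (by decide +kernel)
theorem bx1_9 : BoxOK sI cl7 cl6 cl7 t0 t2 b1_9 :=
  box_mk (TrL.c (I.pos (nat_lit 0) (nat_lit 0)) (xa (xb T0.l0 (xa T0.l0 T0.l11)) T0.l0)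
  (TrL.c (I.pos (nat_lit 0) (nat_lit 0)) T2.l1
  (TrL.c (I.pos (nat_lit 0) (nat_lit 111196574)) (xR T0.l8 T0.l1)
  (TrL.c (I.pos (nat_lit 0) (nat_lit 77433728)) (xR T2.l2 T2.l2)
  (TrL.c (I.pos (nat_lit 0) (nat_lit 0)) (xa (xb T2.l6 T2.l6) (xk (xb T2.l6 T2.l6) T2.l6))
  (TrL.c (I.pos (nat_lit 0) (nat_lit 0)) T0.l2
  (TrL.c (I.mix (nat_lit 29511666) (nat_lit 77433728)) (xR T2.l4 T2.l4)
  (TrL.c (I.mix (nat_lit 29511666) (nat_lit 46070178)) (xR T0.l3 T0.l3)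
  TrL.n)))))))) (by decide +kernel)
theorem bx1_10 : BoxOK sI cl7 cl6 cl7 t0 t2 b1_10 :=
  box_mk (TrL.c (I.pos (nat_lit 0) (nat_lit 0)) (xa (xb (xa (xb T0.l0 T0.l0) T0.l0) (xa (xb T0.l0 T0.l0) (xb T0.l0 T0.l0))) (xb (xa T0.l0 T0.l0) (xa (xb T0.l0 T0.l0) (xb T0.l0 T0.l0))))
  (TrL.c (I.pos (nat_lit 0) (nat_lit 0)) (xk (xa (xb T2.l1 T2.l1) (xb T2.l1 T2.l1)) (xa T2.l1 (xb T2.l1 T2.l1)))
  (TrL.c (I.pos (nat_lit 0) (nat_lit 111196574)) (xR T0.l1 (xR T0.l1 (xR T0.l1 (xR T0.l1 T0.l1))))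
  (TrL.c (I.pos (nat_lit 0) (nat_lit 77433728)) (xR T2.l2 (xR T2.l2 (xR T2.l2 T2.l2)))
  (TrL.c (I.pos (nat_lit 0) (nat_lit 0)) (xk (xa (xb T2.l3 (xb T2.l3 T2.l3)) (xb T2.l3 (xb (xs T2.l3 T2.l3) (xs (xk T2.l3 T2.l3) (xk (xa T2.l6 T2.l3) (xa T2.l3 (xb T2.l6 T2.l6))))))) (xa (xb T2.l3 (xb T2.l3 (xs T2.l6 T2.l6))) (xb (xb T2.l3 T2.l3) (xb (xs T2.l3 (xk T2.l6 T2.l6)) (xs (xk (xa T2.l6 T2.l3) (xa T2.l6 T2.l6)) (xk (xa T2.l3 (xb T2.l6 T2.l6)) (xa T2.l6 (xb T2.l3 (xs T2.l6 T2.l6)))))))))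
  (TrL.c (I.pos (nat_lit 0) (nat_lit 0)) (xk T0.l2 T0.l2)
  (TrL.c (I.mix (nat_lit 29511666) (nat_lit 77433728)) (xR T2.l4 (xR T2.l4 (xR T2.l4 T2.l4)))
  (TrL.c (I.mix (nat_lit 29511666) (nat_lit 46070178)) (xR T0.l3 (xR T0.l3 T0.l3))
  TrL.n)))))))) (by decide +kernel)
theorem bx1_11 : BoxOK sI cl7 cl6 cl7 t0 t2 b1_11 :=
  box_mk (TrL.c (I.pos (nat_lit 0) (nat_lit 0)) (xb (xa (xb T0.l11 T0.l11) T0.l11) (xa (xa T0.l11 T0.l11) (xa T0.l11 T0.l11)))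
  (TrL.c (I.pos (nat_lit 0) (nat_lit 0)) (xk (xb T2.l1 T2.l1) T2.l1)
  (TrL.c (I.pos (nat_lit 0) (nat_lit 111196574)) (xR T0.l1 (xR T0.l1 (xR T0.l1 T0.l1)))
  (TrL.c (I.pos (nat_lit 0) (nat_lit 77433728)) (xR T2.l2 (xR T2.l2 (xR T2.l2 T2.l2)))
  (TrL.c (I.pos (nat_lit 0) (nat_lit 0)) (xk T2.l3 T2.l6)
  (TrL.c (I.pos (nat_lit 0) (nat_lit 0)) T0.l2
  (TrL.c (I.mix (nat_lit 29511666) (nat_lit 77433728)) (xR T2.l4 (xR T2.l4 (xR T2.l4 T2.l4)))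
  (TrL.c (I.mix (nat_lit 29511666) (nat_lit 46070178)) (xR (xR T0.l3 T0.l3) T0.l6)
  TrL.n)))))))) (by decide +kernel)
theorem sv1 : StarV sI cl7 cl6 cl7 t0 t2 t1 :=
  (bt_n (bt_n (bt_n (bt_b bx1_0) (bt_n (bt_b bx1_1) (bt_b bx1_2))) (bt_n (bt_b bx1_3) (bt_n (bt_b bx1_4) (bt_b bx1_5)))) (bt_n (bt_n (bt_b bx1_6) (bt_n (bt_b bx1_7) (bt_b bx1_8))) (bt_n (bt_b bx1_9) (bt_n (bt_b bx1_10) (bt_b bx1_11)))))
def S1 : StarD := StarD.mk cl7 cl6 cl7 0 2 t1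
theorem bx2_0 : BoxOK sI cl7 cl7 cl6 t2 t0 b2_0 :=
  box_mk (TrL.c (I.pos (nat_lit 0) (nat_lit 0)) (xa (xb (xa (xb T2.l0 T2.l0) (xb T2.l0 T2.l0)) (xa (xb T2.l0 T2.l0) (xb T2.l0 T2.l0))) (xb (xa (xb T2.l0 T2.l0) (xb (xa T2.l0 T2.l3) (xs T2.l0 T2.l0))) (xa (xb T2.l0 T2.l0) (xb (xs T2.l0 T2.l0) (xs T2.l0 T2.l0)))))
  (TrL.c (I.pos (nat_lit 0) (nat_lit 0)) (xa (xk (xb T0.l5 (xa T0.l5 T0.l5)) (xb T0.l5 (xa T0.l5 T0.l5))) (xk (xb T0.l5 (xa T0.l5 T0.l5)) (xb T0.l5 (xa T0.l5 T0.l5))))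
  (TrL.c (I.pos (nat_lit 0) (nat_lit 111196574)) (xR (xR T2.l7 T2.l7) (xR T2.l7 (xR T2.l7 (xa T2.l7 T2.l7))))
  (TrL.c (I.pos (nat_lit 0) (nat_lit 77433728)) (xR T0.l6 (xR T0.l6 (xR T0.l6 T0.l6)))
  (TrL.c (I.pos (nat_lit 0) (nat_lit 0)) (xa (xk (xb T0.l7 T0.l7) (xb T0.l7 (xb T0.l7 (xa T0.l7 T0.l7)))) (xb (xk (xa T0.l7 T0.l7) (xa T0.l7 T0.l7)) (xk (xa (xb T0.l7 (xs T0.l7 T0.l7)) (xb T0.l7 (xs (xk T0.l7 T0.l7) (xk (xb T0.l7 T0.l7) (xb T0.l7 (xa T0.l7 T0.l7)))))) (xa (xb T0.l7 (xs T0.l7 (xk T0.l7 (xb T0.l7 T0.l7)))) (xb (xs T0.l7 (xk T0.l7 T0.l7)) (xs (xk T0.l7 (xb T0.l7 T0.l7)) (xk (xb T0.l7 (xa T0.l7 (xd T0.l7 T0.l7))) (xb (xa T0.l7 T0.l7) (xa T0.l7 (xd (xs T0.l7 T0.l7) (xs T0.l7 T0.l7)))))))))))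
  (TrL.c (I.pos (nat_lit 0) (nat_lit 0)) (xk (xa T2.l8 T2.l8) (xa T2.l8 T2.l8))
  (TrL.c (I.mix (nat_lit 29511666) (nat_lit 77433728)) (xR T0.l8 (xR T0.l8 (xR T0.l8 (xk T0.l8 T0.l8))))
  (TrL.c (I.mix (nat_lit 29511666) (nat_lit 46070178)) (xR (xR T2.l9 T2.l9) (xR T2.l9 (xR T2.l9 T2.l9)))
  TrL.n)))))))) (by decide +kernel)
theorem bx2_1 : BoxOK sI cl7 cl7 cl6 t2 t0 b2_1 :=
  box_mk (TrL.c (I.pos (nat_lit 0) (nat_lit 0)) (xa (xb (xa T2.l10 T2.l0) (xa T2.l10 T2.l10)) T2.l0)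
  (TrL.c (I.pos (nat_lit 0) (nat_lit 0)) (xa T0.l5 T0.l5)
  (TrL.c (I.pos (nat_lit 0) (nat_lit 111196574)) (xR (xR T2.l7 T2.l7) T2.l7)
  (TrL.c (I.pos (nat_lit 0) (nat_lit 77433728)) (xR T0.l6 T0.l6)
  (TrL.c (I.pos (nat_lit 0) (nat_lit 0)) (xa (xb T0.l9 T0.l9) (xk (xb T0.l9 T0.l9) T0.l9))
  (TrL.c (I.pos (nat_lit 0) (nat_lit 0)) T2.l8
  (TrL.c (I.mix (nat_lit 29511666) (nat_lit 77433728)) (xR T0.l8 T0.l8)
  (TrL.c (I.mix (nat_lit 29511666) (nat_lit 46070178)) T2.l9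
  TrL.n)))))))) (by decide +kernel)
theorem bx2_2 : BoxOK sI cl7 cl7 cl6 t2 t0 b2_2 :=
  box_mk (TrL.c (I.pos (nat_lit 0) (nat_lit 0)) (xa T2.l10 T2.l10)
  (TrL.c (I.pos (nat_lit 0) (nat_lit 0)) (xa T0.l5 T0.l5)
  (TrL.c (I.pos (nat_lit 0) (nat_lit 111196574)) (xR T2.l7 T2.l7)
  (TrL.c (I.pos (nat_lit 0) (nat_lit 77433728)) T0.l8
  (TrL.c (I.pos (nat_lit 0) (nat_lit 0)) (xa T0.l9 T0.l9)
  (TrL.c (I.pos (nat_lit 0) (nat_lit 0)) T2.l8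
  (TrL.c (I.mix (nat_lit 29511666) (nat_lit 77433728)) T0.l8
  (TrL.c (I.mix (nat_lit 29511666) (nat_lit 46070178)) T2.l9
  TrL.n)))))))) (by decide +kernel)
theorem bx2_3 : BoxOK sI cl7 cl7 cl6 t2 t0 b2_3 :=
  box_mk (TrL.c (I.pos (nat_lit 0) (nat_lit 0)) (xb (xa (xb T2.l11 T2.l11) (xb (xa T2.l0 T2.l0) T2.l11)) (xa (xb (xa T2.l11 T2.l11) (xa T2.l11 T2.l11)) (xb (xa T2.l11 T2.l11) (xa T2.l11 T2.l11))))
  (TrL.c (I.pos (nat_lit 0) (nat_lit 0)) (xb (xk (xa T0.l5 T0.l5) (xa T0.l5 T0.l5)) (xk (xa T0.l5 (xb T0.l5 T0.l5)) (xa T0.l5 T0.l5)))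
  (TrL.c (I.pos (nat_lit 0) (nat_lit 111196574)) (xR (xR T2.l7 T2.l7) (xR T2.l7 (xR T2.l7 (xb T2.l7 T2.l7))))
  (TrL.c (I.pos (nat_lit 0) (nat_lit 77433728)) (xR T0.l6 (xR T0.l6 (xR T0.l6 T0.l6)))
  (TrL.c (I.pos (nat_lit 0) (nat_lit 0)) (xb (xk (xa T0.l10 T0.l10) (xa T0.l10 T0.l10)) (xk (xa (xb T0.l7 T0.l7) (xb T0.l7 (xb T0.l7 (xs T0.l7 (xk T0.l7 T0.l7))))) (xa (xb T0.l7 T0.l7) (xb T0.l7 (xs (xb T0.l7 T0.l7) (xb T0.l7 (xk T0.l7 (xa T0.l7 T0.l7))))))))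
  (TrL.c (I.pos (nat_lit 0) (nat_lit 0)) (xk T2.l8 T2.l8)
  (TrL.c (I.mix (nat_lit 29511666) (nat_lit 77433728)) (xR T0.l8 (xR T0.l8 (xR T0.l8 (xk T0.l8 T0.l8))))
  (TrL.c (I.mix (nat_lit 29511666) (nat_lit 46070178)) (xR (xR T2.l9 T2.l9) (xR T2.l9 (xR T2.l9 T2.l9)))
  TrL.n)))))))) (by decide +kernel)
theorem bx2_4 : BoxOK sI cl7 cl7 cl6 t2 t0 b2_4 :=
  box_mk (TrL.c (I.pos (nat_lit 0) (nat_lit 0)) (xa (xa (xb T2.l10 T2.l10) T2.l10) (xa T2.l10 (xb T2.l10 (xa T2.l10 T2.l10))))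
  (TrL.c (I.pos (nat_lit 0) (nat_lit 0)) (xa (xa T0.l9 T0.l5) T0.l5)
  (TrL.c (I.pos (nat_lit 0) (nat_lit 111196574)) (xR T2.l7 T2.l7)
  (TrL.c (I.pos (nat_lit 0) (nat_lit 77433728)) (xR T0.l3 (xR T0.l3 (xa T0.l6 T0.l6)))
  (TrL.c (I.pos (nat_lit 0) (nat_lit 0)) (xa (xa T0.l5 T0.l9) T0.l9)
  (TrL.c (I.pos (nat_lit 0) (nat_lit 0)) (xa T2.l8 T2.l8)
  (TrL.c (I.mix (nat_lit 29511666) (nat_lit 77433728)) (xR T0.l8 T0.l8)
  (TrL.c (I.mix (nat_lit 29511666) (nat_lit 46070178)) T2.l9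
  TrL.n)))))))) (by decide +kernel)
theorem bx2_5 : BoxOK sI cl7 cl7 cl6 t2 t0 b2_5 :=
  box_mk (TrL.c (I.pos (nat_lit 0) (nat_lit 0)) (xa (xb T2.l0 T2.l0) T2.l0)
  (TrL.c (I.pos (nat_lit 0) (nat_lit 0)) T0.l5
  (TrL.c (I.pos (nat_lit 0) (nat_lit 111196574)) (xR (xR T2.l7 T2.l7) T2.l7)
  (TrL.c (I.pos (nat_lit 0) (nat_lit 77433728)) (xR T0.l6 T0.l6)
  (TrL.c (I.pos (nat_lit 0) (nat_lit 0)) (xk (xa T0.l10 T0.l10) (xa T0.l10 (xb T0.l10 T0.l10)))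
  (TrL.c (I.pos (nat_lit 0) (nat_lit 0)) T2.l8
  (TrL.c (I.mix (nat_lit 29511666) (nat_lit 77433728)) (xR T0.l8 T0.l8)
  (TrL.c (I.mix (nat_lit 29511666) (nat_lit 46070178)) (xR T2.l9 T2.l9)
  TrL.n)))))))) (by decide +kernel)
theorem bx2_6 : BoxOK sI cl7 cl7 cl6 t2 t0 b2_6 :=
  box_mk (TrL.c (I.pos (nat_lit 0) (nat_lit 0)) (xb (xa T2.l0 T2.l0) (xa T2.l11 T2.l11))
  (TrL.c (I.pos (nat_lit 0) (nat_lit 0)) (xk T0.l5 T0.l5)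
  (TrL.c (I.pos (nat_lit 0) (nat_lit 111196574)) (xR (xR T2.l7 T2.l7) T2.l7)
  (TrL.c (I.pos (nat_lit 0) (nat_lit 77433728)) (xR T0.l6 T0.l6)
  (TrL.c (I.pos (nat_lit 0) (nat_lit 0)) (xb (xk T0.l10 T0.l10) T0.l10)
  (TrL.c (I.pos (nat_lit 0) (nat_lit 0)) T2.l8
  (TrL.c (I.mix (nat_lit 29511666) (nat_lit 77433728)) (xR T0.l8 (xR T0.l8 (xR T0.l8 T0.l8)))
  (TrL.c (I.mix (nat_lit 29511666) (nat_lit 46070178)) (xR T2.l9 T2.l9)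
  TrL.n)))))))) (by decide +kernel)
theorem bx2_7 : BoxOK sI cl7 cl7 cl6 t2 t0 b2_7 :=
  box_mk (TrL.c (I.pos (nat_lit 0) (nat_lit 0)) (xa (xa (xb T2.l10 T2.l10) T2.l10) (xa T2.l10 (xb T2.l10 (xa T2.l10 T2.l10))))
  (TrL.c (I.pos (nat_lit 0) (nat_lit 0)) (xa T0.l5 T0.l5)
  (TrL.c (I.pos (nat_lit 0) (nat_lit 111196574)) (xR T2.l7 T2.l7)
  (TrL.c (I.pos (nat_lit 0) (nat_lit 77433728)) (xR T0.l6 T0.l6)
  (TrL.c (I.pos (nat_lit 0) (nat_lit 0)) (xa T0.l9 T0.l9)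
  (TrL.c (I.pos (nat_lit 0) (nat_lit 0)) (xa T2.l8 T2.l8)
  (TrL.c (I.mix (nat_lit 29511666) (nat_lit 77433728)) T0.l8
  (TrL.c (I.mix (nat_lit 29511666) (nat_lit 46070178)) T2.l9
  TrL.n)))))))) (by decide +kernel)
theorem bx2_8 : BoxOK sI cl7 cl7 cl6 t2 t0 b2_8 :=
  box_mk (TrL.c (I.pos (nat_lit 0) (nat_lit 0)) (xb (xa (xb T2.l10 T2.l10) (xb T2.l10 T2.l10)) (xa T2.l10 T2.l10))
  (TrL.c (I.pos (nat_lit 0) (nat_lit 0)) T0.l5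
  (TrL.c (I.pos (nat_lit 0) (nat_lit 111196574)) (xR T2.l7 T2.l7)
  (TrL.c (I.pos (nat_lit 0) (nat_lit 77433728)) (xR T0.l6 T0.l6)
  (TrL.c (I.pos (nat_lit 0) (nat_lit 0)) (xb (xk T0.l9 T0.l9) T0.l9)
  (TrL.c (I.pos (nat_lit 0) (nat_lit 0)) T2.l8
  (TrL.c (I.mix (nat_lit 29511666) (nat_lit 77433728)) (xR T0.l8 T0.l8)
  (TrL.c (I.mix (nat_lit 29511666) (nat_lit 46070178)) T2.l9
  TrL.n)))))))) (by decide +kernel)
theorem bx2_9 : BoxOK sI cl7 cl7 cl6 t2 t0 b2_9 :=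
  box_mk (TrL.c (I.pos (nat_lit 0) (nat_lit 0)) (xa (xa T2.l10 T2.l10) T2.l10)
  (TrL.c (I.pos (nat_lit 0) (nat_lit 0)) (xa T0.l9 T0.l5)
  (TrL.c (I.pos (nat_lit 0) (nat_lit 111196574)) (xR T2.l7 T2.l7)
  (TrL.c (I.pos (nat_lit 0) (nat_lit 77433728)) T0.l8
  (TrL.c (I.pos (nat_lit 0) (nat_lit 0)) (xa T0.l5 T0.l9)
  (TrL.c (I.pos (nat_lit 0) (nat_lit 0)) T2.l8
  (TrL.c (I.mix (nat_lit 29511666) (nat_lit 77433728)) T0.l8
  (TrL.c (I.mix (nat_lit 29511666) (nat_lit 46070178)) T2.l4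
  TrL.n)))))))) (by decide +kernel)
theorem bx2_10 : BoxOK sI cl7 cl7 cl6 t2 t0 b2_10 :=
  box_mk (TrL.c (I.pos (nat_lit 0) (nat_lit 0)) (xa (xb T2.l0 (xa T2.l0 T2.l0)) (xb (xa T2.l0 (xb T2.l0 T2.l0)) (xa T2.l0 (xb T2.l0 T2.l0))))
  (TrL.c (I.pos (nat_lit 0) (nat_lit 0)) (xa (xb T0.l5 (xk T0.l5 T0.l5)) (xk (xb T0.l2 (xa T0.l5 T0.l2)) (xb T0.l2 T0.l2)))
  (TrL.c (I.pos (nat_lit 0) (nat_lit 111196574)) (xR (xR T2.l7 T2.l7) (xR T2.l7 T2.l4))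
  (TrL.c (I.pos (nat_lit 0) (nat_lit 77433728)) (xR (xR T0.l6 T0.l6) (xR T0.l6 (xR T0.l6 (xa T0.l6 T0.l6))))
  (TrL.c (I.pos (nat_lit 0) (nat_lit 0)) (xa (xb (xk T0.l7 T0.l7) (xk T0.l7 T0.l7)) (xb (xk (xa T0.l7 T0.l7) (xa T0.l7 T0.l7)) (xk (xa T0.l7 T0.l7) (xa T0.l7 T0.l7))))
  (TrL.c (I.pos (nat_lit 0) (nat_lit 0)) (xk (xa T2.l8 (xb T2.l8 T2.l8)) (xa T2.l8 (xb T2.l8 T2.l8)))
  (TrL.c (I.mix (nat_lit 29511666) (nat_lit 77433728)) (xR (xR T0.l8 T0.l8) (xR T0.l8 (xR T0.l8 (xk T0.l8 T0.l8))))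
  (TrL.c (I.mix (nat_lit 29511666) (nat_lit 46070178)) (xR (xR T2.l9 T2.l9) (xR T2.l9 (xR T2.l9 T2.l9)))
  TrL.n)))))))) (by decide +kernel)
theorem bx2_11 : BoxOK sI cl7 cl7 cl6 t2 t0 b2_11 :=
  box_mk (TrL.c (I.pos (nat_lit 0) (nat_lit 0)) (xa (xb (xb (xa T2.l0 T2.l0) (xa T2.l0 T2.l0)) (xa (xb T2.l0 T2.l0) (xb T2.l0 T2.l0))) (xb (xb (xa T2.l0 T2.l3) (xa T2.l0 (xs T2.l3 T2.l3))) (xa (xb T2.l0 T2.l0) (xb (xs T2.l3 T2.l3) (xs T2.l0 T2.l0)))))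
  (TrL.c (I.pos (nat_lit 0) (nat_lit 0)) (xk (xa (xb T0.l5 T0.l5) (xb T0.l5 (xk T0.l5 T0.l5))) (xa (xb T0.l5 T0.l5) (xb T0.l5 T0.l5)))
  (TrL.c (I.pos (nat_lit 0) (nat_lit 111196574)) (xR (xR T2.l7 T2.l7) (xR T2.l7 (xR T2.l7 (xR T2.l7 T2.l7))))
  (TrL.c (I.pos (nat_lit 0) (nat_lit 77433728)) (xR T0.l6 (xR T0.l6 T0.l6))
  (TrL.c (I.pos (nat_lit 0) (nat_lit 0)) (xk (xa T0.l7 (xb T0.l7 T0.l7)) (xa T0.l7 (xb T0.l7 (xb T0.l7 (xs T0.l7 T0.l7)))))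
  (TrL.c (I.pos (nat_lit 0) (nat_lit 0)) (xk T2.l8 T2.l8)
  (TrL.c (I.mix (nat_lit 29511666) (nat_lit 77433728)) (xR T0.l8 (xR T0.l8 (xR T0.l8 T0.l8)))
  (TrL.c (I.mix (nat_lit 29511666) (nat_lit 46070178)) (xR (xR T2.l9 T2.l9) (xR T2.l9 T2.l9))
  TrL.n)))))))) (by decide +kernel)
theorem sv2 : StarV sI cl7 cl7 cl6 t2 t0 t2 :=
  (bt_n (bt_n (bt_n (bt_b bx2_0) (bt_n (bt_b bx2_1) (bt_b bx2_2))) (bt_n (bt_b bx2_3) (bt_n (bt_b bx2_4) (bt_b bx2_5)))) (bt_n (bt_n (bt_b bx2_6) (bt_n (bt_b bx2_7) (bt_b bx2_8))) (bt_n (bt_b bx2_9) (bt_n (bt_b bx2_10) (bt_b bx2_11)))))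
def S2 : StarD := StarD.mk cl7 cl7 cl6 2 0 t2
def G : List StarD := [S0, S1, S2]
theorem so0 : StarOK sI G S0 :=
  star_mk (by decide) (by decide) rfl rfl rfl rfl rfl rfl (rfl : _ = t1) (rfl : _ = t1)
  (st_mk (Pth.l (Pth.l (Pth.l Pth.z))) (nat_lit 142503229) (nat_lit 165117400) (by decide +kernel))
  (st_mk (Pth.l (Pth.l (Pth.l Pth.z))) (nat_lit 178811359) (nat_lit 201786946) (by decide +kernel))
  (st_mk (Pth.l (Pth.l (Pth.l Pth.z))) (nat_lit 221117147) (nat_lit 244575740) (by decide +kernel)) sv0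
theorem so1 : StarOK sI G S1 :=
  star_mk (by decide) (by decide) rfl rfl rfl rfl rfl rfl (rfl : _ = t0) (rfl : _ = t2)
  (st_mk (Pth.l (Pth.l (Pth.l Pth.z))) (nat_lit 188013881) (nat_lit 189724403) (by decide +kernel))
  (st_mk (Pth.l (Pth.l (Pth.l Pth.z))) (nat_lit 223814528) (nat_lit 226023654) (by decide +kernel))
  (st_mk (Pth.l (Pth.l (Pth.l Pth.z))) (nat_lit 264787707) (nat_lit 268765008) (by decide +kernel)) sv1
theorem so2 : StarOK sI G S2 :=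
  star_mk (by decide) (by decide) rfl rfl rfl rfl rfl rfl (rfl : _ = t2) (rfl : _ = t0)
  (st_mk (Pth.l (Pth.l (Pth.l Pth.z))) (nat_lit 141450026) (nat_lit 164228251) (by decide +kernel))
  (st_mk (Pth.l (Pth.l (Pth.l Pth.z))) (nat_lit 177157008) (nat_lit 200440769) (by decide +kernel))
  (st_mk (Pth.l (Pth.l (Pth.l Pth.z))) (nat_lit 218586437) (nat_lit 242570842) (by decide +kernel)) sv2
theorem ok : GroupOK (nat_lit 209321984) (nat_lit 268435456) G := grp_mk (allS_c so0 (allS_c so1 (allS_c so2 allS_n)))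
theorem cov : GCov G cl6 cl7 cl7 := cov_mk
  ⟨0, by decide, rfl, rfl, rfl⟩ ⟨0, by decide, rfl, rfl, rfl⟩ ⟨1, by decide, rfl, rfl, rfl⟩ ⟨2, by decide, rfl, rfl, rfl⟩ ⟨1, by decide, rfl, rfl, rfl⟩ ⟨2, by decide, rfl, rfl, rfl⟩
end Q344_3


end Pool.Agent.Helper6.MONO
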