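import Pool.Agent.Helper6.MONO.Cert.C40

/-!
Certificate data (generated).
-/

set_option autoImplicit false
set_option linter.all false
noncomputable section
namespace Pool.Agent.Helper6.MONO


namespace Q345_0
def sI : I := I.pos (nat_lit 0) (nat_lit 91291648)
def b0_0 : Bx := Bx.mk (St.mk (I.pos (nat_lit 153354240) (nat_lit 287719424)) (I.mix (nat_lit 33619968) (nat_lit 63569920)) (I.mix (nat_lit 105234432) (nat_lit 97255424)) (I.pos (nat_lit 130072576) (nat_lit 375422976)) (I.mix (nat_lit 82984960) (nat_lit 59080704)) (I.mix (nat_lit 75251712) (nat_lit 49856512)) (I.mix (nat_lit 120897536) (nat_lit 75841536)))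
  false (nat_lit 0)
def b0_1 : Bx := Bx.mk (St.mk (I.mix (nat_lit 25935872) (nat_lit 125091840)) (I.mix (nat_lit 11698176) (nat_lit 35635200)) (I.mix (nat_lit 21839872) (nat_lit 18759680)) (I.pos (nat_lit 37863424) (nat_lit 118784000)) (I.mix (nat_lit 29032448) (nat_lit 26771456)) (I.mix (nat_lit 29589504) (nat_lit 19955712)) (I.mix (nat_lit 21069824) (nat_lit 13172736)))
  false (nat_lit 0)
def b0_2 : Bx := Bx.mk (St.mk (I.pos (nat_lit 92127232) (nat_lit 147095552)) (I.mix (nat_lit 62504960) (nat_lit 11370496)) (I.mix (nat_lit 66142208) (nat_lit 1196032)) (I.pos (nat_lit 77021184) (nat_lit 142786560)) (I.mix (nat_lit 82853888) (nat_lit 25427968)) (I.mix (nat_lit 41713664) (nat_lit 81100800)) (I.mix (nat_lit 30752768) (nat_lit 63160320)))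
  false (nat_lit 0)
def b0_3 : Bx := Bx.mk (St.mk (I.mix (nat_lit 39387136) (nat_lit 71974912)) (I.mix (nat_lit 31457280) (nat_lit 7471104)) (I.mix (nat_lit 20529152) (nat_lit 1032192)) (I.pos (nat_lit 40599552) (nat_lit 82149376)) (I.mix (nat_lit 28442624) (nat_lit 12828672)) (I.mix (nat_lit 15843328) (nat_lit 26394624)) (I.mix (nat_lit 7471104) (nat_lit 10764288)))
  false (nat_lit 0)
def b0_4 : Bx := Bx.mk (St.mk (I.pos (nat_lit 95338496) (nat_lit 175030272)) (I.mix (nat_lit 71958528) (nat_lit 4063232)) (I.neg (nat_lit 1409024) (nat_lit 74678272)) (I.pos (nat_lit 92880896) (nat_lit 177848320)) (I.mix (nat_lit 78987264) (nat_lit 40091648)) (I.mix (nat_lit 38617088) (nat_lit 68304896)) (I.mix (nat_lit 29704192) (nat_lit 66240512)))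
  false (nat_lit 0)
def b0_5 : Bx := Bx.mk (St.mk (I.mix (nat_lit 28606464) (nat_lit 86425600)) (I.mix (nat_lit 35766272) (nat_lit 5898240)) (I.mix (nat_lit 25001984) (nat_lit 1392640)) (I.pos (nat_lit 38764544) (nat_lit 90996736)) (I.mix (nat_lit 28442624) (nat_lit 21364736)) (I.mix (nat_lit 16973824) (nat_lit 29769728)) (I.mix (nat_lit 9994240) (nat_lit 16236544)))
  false (nat_lit 0)
def b0_6 : Bx := Bx.mk (St.mk (I.mix (nat_lit 40878080) (nat_lit 120602624)) (I.mix (nat_lit 14270464) (nat_lit 39174144)) (I.mix (nat_lit 13565952) (nat_lit 23461888)) (I.pos (nat_lit 38518784) (nat_lit 111788032)) (I.mix (nat_lit 37519360) (nat_lit 21495808)) (I.mix (nat_lit 40583168) (nat_lit 23625728)) (I.mix (nat_lit 22593536) (nat_lit 13664256)))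
  false (nat_lit 0)
def b0_7 : Bx := Bx.mk (St.mk (I.pos (nat_lit 145735680) (nat_lit 224067584)) (I.mix (nat_lit 49971200) (nat_lit 73072640)) (I.mix (nat_lit 59408384) (nat_lit 101679104)) (I.pos (nat_lit 127778816) (nat_lit 247365632)) (I.mix (nat_lit 116555776) (nat_lit 50511872)) (I.mix (nat_lit 130596864) (nat_lit 66355200)) (I.mix (nat_lit 146620416) (nat_lit 70090752)))
  false (nat_lit 0)
def t0 : BTr := (BTr.n (BTr.n (BTr.n (BTr.b b0_0) (BTr.b b0_1)) (BTr.n (BTr.b b0_2) (BTr.b b0_3))) (BTr.n (BTr.n (BTr.b b0_4) (BTr.b b0_5)) (BTr.n (BTr.b b0_6) (BTr.b b0_7))))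
namespace T0
def l0 : Tr := Tr.L (Pth.l (Pth.l (Pth.l Pth.z)))
def l1 : Tr := Tr.L (Pth.l (Pth.l (Pth.r Pth.z)))
def l2 : Tr := Tr.L (Pth.l (Pth.r (Pth.l Pth.z)))
def l3 : Tr := Tr.L (Pth.l (Pth.r (Pth.r Pth.z)))
def l4 : Tr := Tr.L (Pth.r (Pth.l (Pth.l Pth.z)))
def l5 : Tr := Tr.L (Pth.r (Pth.l (Pth.r Pth.z)))
def l6 : Tr := Tr.L (Pth.r (Pth.r (Pth.l Pth.z)))
def l7 : Tr := Tr.L (Pth.r (Pth.r (Pth.r Pth.z)))
end T0
def b1_0 : Bx := Bx.mk (St.mk (I.pos (nat_lit 153370624) (nat_lit 287260672)) (I.mix (nat_lit 31178752) (nat_lit 57884672)) (I.mix (nat_lit 82886656) (nat_lit 97910784)) (I.pos (nat_lit 102973440) (nat_lit 347275264)) (I.mix (nat_lit 82034688) (nat_lit 56295424)) (I.mix (nat_lit 73482240) (nat_lit 51494912)) (I.mix (nat_lit 118603776) (nat_lit 76333056)))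
  false (nat_lit 0)
def b1_1 : Bx := Bx.mk (St.mk (I.mix (nat_lit 19857408) (nat_lit 138264576)) (I.mix (nat_lit 10043392) (nat_lit 29573120)) (I.mix (nat_lit 15548416) (nat_lit 22347776)) (I.pos (nat_lit 12746752) (nat_lit 103940096)) (I.mix (nat_lit 26378240) (nat_lit 22347776)) (I.mix (nat_lit 26755072) (nat_lit 16465920)) (I.mix (nat_lit 21315584) (nat_lit 12484608)))
  false (nat_lit 0)
def b1_2 : Bx := Bx.mk (St.mk (I.pos (nat_lit 106168320) (nat_lit 157302784)) (I.mix (nat_lit 57049088) (nat_lit 10076160)) (I.mix (nat_lit 60194816) (nat_lit 5357568)) (I.pos (nat_lit 61669376) (nat_lit 126910464)) (I.mix (nat_lit 77332480) (nat_lit 24887296)) (I.mix (nat_lit 36864000) (nat_lit 79314944)) (I.mix (nat_lit 28721152) (nat_lit 67403776)))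
  false (nat_lit 0)
def b1_3 : Bx := Bx.mk (St.mk (I.mix (nat_lit 26443776) (nat_lit 96387072)) (I.mix (nat_lit 27099136) (nat_lit 4096000)) (I.mix (nat_lit 19120128) (nat_lit 1605632)) (I.pos (nat_lit 15089664) (nat_lit 68288512)) (I.mix (nat_lit 27033600) (nat_lit 11943936)) (I.mix (nat_lit 13942784) (nat_lit 25772032)) (I.mix (nat_lit 7700480) (nat_lit 13697024)))
  false (nat_lit 0)
def b1_4 : Bx := Bx.mk (St.mk (I.pos (nat_lit 109707264) (nat_lit 183500800)) (I.mix (nat_lit 64913408) (nat_lit 2621440)) (I.mix (nat_lit 66060288) (nat_lit 1327104)) (I.pos (nat_lit 79462400) (nat_lit 161792000)) (I.mix (nat_lit 73777152) (nat_lit 39665664)) (I.mix (nat_lit 39632896) (nat_lit 66420736)) (I.mix (nat_lit 33357824) (nat_lit 67993600)))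
  false (nat_lit 0)
def b1_5 : Bx := Bx.mk (St.mk (I.mix (nat_lit 21544960) (nat_lit 107233280)) (I.mix (nat_lit 29720576) (nat_lit 5783552)) (I.mix (nat_lit 21102592) (nat_lit 3538944)) (I.pos (nat_lit 13418496) (nat_lit 77529088)) (I.mix (nat_lit 23887872) (nat_lit 20283392)) (I.mix (nat_lit 14860288) (nat_lit 27066368)) (I.mix (nat_lit 9191424) (nat_lit 17219584)))
  false (nat_lit 0)
def b1_6 : Bx := Bx.mk (St.mk (I.pos (nat_lit 150421504) (nat_lit 223985664)) (I.mix (nat_lit 45088768) (nat_lit 64913408)) (I.mix (nat_lit 49463296) (nat_lit 100319232)) (I.pos (nat_lit 109412352) (nat_lit 221347840)) (I.mix (nat_lit 111607808) (nat_lit 48922624)) (I.mix (nat_lit 129187840) (nat_lit 59768832)) (I.mix (nat_lit 156925952) (nat_lit 66027520)))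
  false (nat_lit 0)
def b1_7 : Bx := Bx.mk (St.mk (I.mix (nat_lit 28213248) (nat_lit 128860160)) (I.mix (nat_lit 14516224) (nat_lit 35045376)) (I.mix (nat_lit 11943936) (nat_lit 25985024)) (I.pos (nat_lit 13615104) (nat_lit 93765632)) (I.mix (nat_lit 38944768) (nat_lit 18857984)) (I.mix (nat_lit 42074112) (nat_lit 21282816)) (I.mix (nat_lit 27541504) (nat_lit 13336576)))
  false (nat_lit 0)
def t1 : BTr := (BTr.n (BTr.n (BTr.n (BTr.b b1_0) (BTr.b b1_1)) (BTr.n (BTr.b b1_2) (BTr.b b1_3))) (BTr.n (BTr.n (BTr.b b1_4) (BTr.b b1_5)) (BTr.n (BTr.b b1_6) (BTr.b b1_7))))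
namespace T1
def l0 : Tr := Tr.L (Pth.l (Pth.l (Pth.l Pth.z)))
def l1 : Tr := Tr.L (Pth.l (Pth.l (Pth.r Pth.z)))
def l2 : Tr := Tr.L (Pth.l (Pth.r (Pth.l Pth.z)))
def l3 : Tr := Tr.L (Pth.l (Pth.r (Pth.r Pth.z)))
def l4 : Tr := Tr.L (Pth.r (Pth.l (Pth.l Pth.z)))
def l5 : Tr := Tr.L (Pth.r (Pth.l (Pth.r Pth.z)))
def l6 : Tr := Tr.L (Pth.r (Pth.r (Pth.l Pth.z)))
def l7 : Tr := Tr.L (Pth.r (Pth.r (Pth.r Pth.z)))
end T1
def b2_0 : Bx := Bx.mk (St.mk (I.pos (nat_lit 153337856) (nat_lit 287850496)) (I.mix (nat_lit 29704192) (nat_lit 68681728)) (I.mix (nat_lit 97370112) (nat_lit 102580224)) (I.pos (nat_lit 174522368) (nat_lit 397541376)) (I.mix (nat_lit 85180416) (nat_lit 65683456)) (I.mix (nat_lit 81969152) (nat_lit 55033856)) (I.mix (nat_lit 124256256) (nat_lit 77512704)))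
  false (nat_lit 13704220)
def b2_1 : Bx := Bx.mk (St.mk (I.mix (nat_lit 34455552) (nat_lit 102481920)) (I.mix (nat_lit 10452992) (nat_lit 39813120)) (I.mix (nat_lit 20119552) (nat_lit 15646720)) (I.pos (nat_lit 80101376) (nat_lit 126435328)) (I.mix (nat_lit 28508160) (nat_lit 32063488)) (I.mix (nat_lit 34848768) (nat_lit 20938752)) (I.mix (nat_lit 22036480) (nat_lit 12599296)))
  false (nat_lit 0)
def b2_2 : Bx := Bx.mk (St.mk (I.pos (nat_lit 79167488) (nat_lit 127565824)) (I.mix (nat_lit 63094784) (nat_lit 12025856)) (I.neg (nat_lit 1572864) (nat_lit 58621952)) (I.pos (nat_lit 112754688) (nat_lit 149127168)) (I.mix (nat_lit 71614464) (nat_lit 26476544)) (I.mix (nat_lit 36519936) (nat_lit 66961408)) (I.mix (nat_lit 26509312) (nat_lit 47366144)))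
  false (nat_lit 0)
def b2_3 : Bx := Bx.mk (St.mk (I.mix (nat_lit 50495488) (nat_lit 31031296)) (I.mix (nat_lit 36143104) (nat_lit 8470528)) (I.mix (nat_lit 13385728) (nat_lit 3014656)) (I.pos (nat_lit 82067456) (nat_lit 100450304)) (I.mix (nat_lit 27246592) (nat_lit 17858560)) (I.mix (nat_lit 16039936) (nat_lit 27836416)) (I.mix (nat_lit 10158080) (nat_lit 6275072)))
  false (nat_lit 0)
def b2_4 : Bx := Bx.mk (St.mk (I.pos (nat_lit 91406336) (nat_lit 163610624)) (I.neg (nat_lit 3866624) (nat_lit 70254592)) (I.neg (nat_lit 720896) (nat_lit 66732032)) (I.pos (nat_lit 127696896) (nat_lit 189087744)) (I.mix (nat_lit 74514432) (nat_lit 38633472)) (I.mix (nat_lit 32768000) (nat_lit 60391424)) (I.mix (nat_lit 25051136) (nat_lit 52346880)))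
  false (nat_lit 0)
def b2_5 : Bx := Bx.mk (St.mk (I.mix (nat_lit 33701888) (nat_lit 49037312)) (I.mix (nat_lit 36388864) (nat_lit 7290880)) (I.mix (nat_lit 15695872) (nat_lit 1736704)) (I.pos (nat_lit 81412096) (nat_lit 100958208)) (I.mix (nat_lit 23576576) (nat_lit 22724608)) (I.mix (nat_lit 16678912) (nat_lit 27918336)) (I.mix (nat_lit 7782400) (nat_lit 9928704)))
  false (nat_lit 0)
def b2_6 : Bx := Bx.mk (St.mk (I.pos (nat_lit 138985472) (nat_lit 217497600)) (I.mix (nat_lit 42991616) (nat_lit 74416128)) (I.mix (nat_lit 42827776) (nat_lit 102645760)) (I.pos (nat_lit 165920768) (nat_lit 261750784)) (I.mix (nat_lit 118718464) (nat_lit 50757632)) (I.mix (nat_lit 124665856) (nat_lit 68960256)) (I.mix (nat_lit 128188416) (nat_lit 66764800)))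
  false (nat_lit 225943)
def b2_7 : Bx := Bx.mk (St.mk (I.mix (nat_lit 51478528) (nat_lit 77381632)) (I.mix (nat_lit 10813440) (nat_lit 38436864)) (I.mix (nat_lit 16351232) (nat_lit 13418496)) (I.pos (nat_lit 80871424) (nat_lit 110526464)) (I.mix (nat_lit 29130752) (nat_lit 23822336)) (I.mix (nat_lit 32227328) (nat_lit 19038208)) (I.mix (nat_lit 12124160) (nat_lit 10092544)))
  false (nat_lit 0)
def t2 : BTr := (BTr.n (BTr.n (BTr.n (BTr.b b2_0) (BTr.b b2_1)) (BTr.n (BTr.b b2_2) (BTr.b b2_3))) (BTr.n (BTr.n (BTr.b b2_4) (BTr.b b2_5)) (BTr.n (BTr.b b2_6) (BTr.b b2_7))))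
namespace T2
def l0 : Tr := Tr.L (Pth.l (Pth.l (Pth.l Pth.z)))
def l1 : Tr := Tr.L (Pth.l (Pth.l (Pth.r Pth.z)))
def l2 : Tr := Tr.L (Pth.l (Pth.r (Pth.l Pth.z)))
def l3 : Tr := Tr.L (Pth.l (Pth.r (Pth.r Pth.z)))
def l4 : Tr := Tr.L (Pth.r (Pth.l (Pth.l Pth.z)))
def l5 : Tr := Tr.L (Pth.r (Pth.l (Pth.r Pth.z)))
def l6 : Tr := Tr.L (Pth.r (Pth.r (Pth.l Pth.z)))
def l7 : Tr := Tr.L (Pth.r (Pth.r (Pth.r Pth.z)))
end T2
def b3_0 : Bx := Bx.mk (St.mk (I.pos (nat_lit 153387008) (nat_lit 286932992)) (I.mix (nat_lit 23150592) (nat_lit 55967744)) (I.mix (nat_lit 47759360) (nat_lit 107102208)) (I.pos (nat_lit 102776832) (nat_lit 343244800)) (I.mix (nat_lit 82771968) (nat_lit 54149120)) (I.mix (nat_lit 82051072) (nat_lit 54231040)) (I.mix (nat_lit 128237568) (nat_lit 71499776)))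
  false (nat_lit 0)
def b3_1 : Bx := Bx.mk (St.mk (I.pos (nat_lit 113213440) (nat_lit 185843712)) (I.neg (nat_lit 245760) (nat_lit 64471040)) (I.mix (nat_lit 60129280) (nat_lit 9043968)) (I.pos (nat_lit 81739776) (nat_lit 164167680)) (I.mix (nat_lit 70467584) (nat_lit 37371904)) (I.mix (nat_lit 35667968) (nat_lit 56983552)) (I.mix (nat_lit 30457856) (nat_lit 57491456)))
  false (nat_lit 0)
def b3_2 : Bx := Bx.mk (St.mk (I.mix (nat_lit 20578304) (nat_lit 108429312)) (I.mix (nat_lit 29261824) (nat_lit 5488640)) (I.mix (nat_lit 17547264) (nat_lit 7700480)) (I.pos (nat_lit 13549568) (nat_lit 78053376)) (I.mix (nat_lit 22118400) (nat_lit 18874368)) (I.mix (nat_lit 13811712) (nat_lit 22609920)) (I.mix (nat_lit 8536064) (nat_lit 14188544)))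
  false (nat_lit 0)
def b3_3 : Bx := Bx.mk (St.mk (I.pos (nat_lit 151191552) (nat_lit 222314496)) (I.mix (nat_lit 42385408) (nat_lit 63062016)) (I.mix (nat_lit 37797888) (nat_lit 107855872)) (I.pos (nat_lit 109182976) (nat_lit 214007808)) (I.mix (nat_lit 114360320) (nat_lit 48316416)) (I.mix (nat_lit 131923968) (nat_lit 63078400)) (I.mix (nat_lit 165249024) (nat_lit 69009408)))
  false (nat_lit 0)
def b3_4 : Bx := Bx.mk (St.mk (I.mix (nat_lit 28557312) (nat_lit 127893504)) (I.mix (nat_lit 14188544) (nat_lit 34963456)) (I.mix (nat_lit 7815168) (nat_lit 30408704)) (I.pos (nat_lit 13631488) (nat_lit 92798976)) (I.mix (nat_lit 41287680) (nat_lit 18546688)) (I.mix (nat_lit 40009728) (nat_lit 22577152)) (I.mix (nat_lit 26247168) (nat_lit 14057472)))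
  false (nat_lit 0)
def b3_5 : Bx := Bx.mk (St.mk (I.mix (nat_lit 20611072) (nat_lit 137461760)) (I.mix (nat_lit 7749632) (nat_lit 28934144)) (I.mix (nat_lit 8077312) (nat_lit 26968064)) (I.pos (nat_lit 12713984) (nat_lit 102989824)) (I.mix (nat_lit 27967488) (nat_lit 23838720)) (I.mix (nat_lit 31850496) (nat_lit 17235968)) (I.mix (nat_lit 25444352) (nat_lit 13123584)))
  false (nat_lit 0)
def b3_6 : Bx := Bx.mk (St.mk (I.pos (nat_lit 106512384) (nat_lit 159711232)) (I.mix (nat_lit 58212352) (nat_lit 9879552)) (I.mix (nat_lit 54853632) (nat_lit 10698752)) (I.pos (nat_lit 62210048) (nat_lit 128892928)) (I.mix (nat_lit 74383360) (nat_lit 25837568)) (I.mix (nat_lit 34897920) (nat_lit 76267520)) (I.mix (nat_lit 27066368) (nat_lit 62324736)))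
  false (nat_lit 0)
def b3_7 : Bx := Bx.mk (St.mk (I.mix (nat_lit 22020096) (nat_lit 97353728)) (I.mix (nat_lit 27328512) (nat_lit 5292032)) (I.mix (nat_lit 15777792) (nat_lit 3899392)) (I.pos (nat_lit 15073280) (nat_lit 68976640)) (I.mix (nat_lit 25133056) (nat_lit 12009472)) (I.mix (nat_lit 12943360) (nat_lit 27148288)) (I.mix (nat_lit 7028736) (nat_lit 14123008)))
  false (nat_lit 0)
def t3 : BTr := (BTr.n (BTr.n (BTr.n (BTr.b b3_0) (BTr.b b3_1)) (BTr.n (BTr.b b3_2) (BTr.b b3_3))) (BTr.n (BTr.n (BTr.b b3_4) (BTr.b b3_5)) (BTr.n (BTr.b b3_6) (BTr.b b3_7))))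
namespace T3
def l0 : Tr := Tr.L (Pth.l (Pth.l (Pth.l Pth.z)))
def l1 : Tr := Tr.L (Pth.l (Pth.l (Pth.r Pth.z)))
def l2 : Tr := Tr.L (Pth.l (Pth.r (Pth.l Pth.z)))
def l3 : Tr := Tr.L (Pth.l (Pth.r (Pth.r Pth.z)))
def l4 : Tr := Tr.L (Pth.r (Pth.l (Pth.l Pth.z)))
def l5 : Tr := Tr.L (Pth.r (Pth.l (Pth.r Pth.z)))
def l6 : Tr := Tr.L (Pth.r (Pth.r (Pth.l Pth.z)))
def l7 : Tr := Tr.L (Pth.r (Pth.r (Pth.r Pth.z)))
end T3
def b4_0 : Bx := Bx.mk (St.mk (I.pos (nat_lit 153485312) (nat_lit 285229056)) (I.mix (nat_lit 22986752) (nat_lit 64864256)) (I.mix (nat_lit 66486272) (nat_lit 109346816)) (I.pos (nat_lit 174309376) (nat_lit 389545984)) (I.mix (nat_lit 87523328) (nat_lit 63193088)) (I.mix (nat_lit 83918848) (nat_lit 51363840)) (I.mix (nat_lit 126107648) (nat_lit 74383360)))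
  false (nat_lit 27877929)
def b4_1 : Bx := Bx.mk (St.mk (I.pos (nat_lit 94453760) (nat_lit 166346752)) (I.neg (nat_lit 4669440) (nat_lit 70221824)) (I.mix (nat_lit 60735488) (nat_lit 9273344)) (I.pos (nat_lit 129957888) (nat_lit 191610880)) (I.mix (nat_lit 70664192) (nat_lit 39960576)) (I.mix (nat_lit 31277056) (nat_lit 58900480)) (I.mix (nat_lit 26624000) (nat_lit 50315264)))
  false (nat_lit 0)
def b4_2 : Bx := Bx.mk (St.mk (I.mix (nat_lit 32047104) (nat_lit 50413568)) (I.mix (nat_lit 36814848) (nat_lit 8208384)) (I.mix (nat_lit 11075584) (nat_lit 6438912)) (I.pos (nat_lit 81772544) (nat_lit 100630528)) (I.mix (nat_lit 21528576) (nat_lit 24936448)) (I.mix (nat_lit 16433152) (nat_lit 27164672)) (I.mix (nat_lit 7061504) (nat_lit 9519104)))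
  false (nat_lit 0)
def b4_3 : Bx := Bx.mk (St.mk (I.pos (nat_lit 137986048) (nat_lit 215613440)) (I.mix (nat_lit 43270144) (nat_lit 74121216)) (I.mix (nat_lit 35045376) (nat_lit 112148480)) (I.pos (nat_lit 164675584) (nat_lit 257867776)) (I.mix (nat_lit 119242752) (nat_lit 52477952)) (I.mix (nat_lit 121831424) (nat_lit 69189632)) (I.mix (nat_lit 129089536) (nat_lit 66600960)))
  false (nat_lit 17595272)
def b4_4 : Bx := Bx.mk (St.mk (I.mix (nat_lit 52887552) (nat_lit 75825152)) (I.mix (nat_lit 11845632) (nat_lit 38764544)) (I.mix (nat_lit 11747328) (nat_lit 18137088)) (I.pos (nat_lit 81264640) (nat_lit 109772800)) (I.mix (nat_lit 31834112) (nat_lit 21610496)) (I.mix (nat_lit 33341440) (nat_lit 19103744)) (I.mix (nat_lit 12402688) (nat_lit 9830400)))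
  false (nat_lit 0)
def b4_5 : Bx := Bx.mk (St.mk (I.mix (nat_lit 36012032) (nat_lit 100925440)) (I.mix (nat_lit 8355840) (nat_lit 39272448)) (I.mix (nat_lit 13320192) (nat_lit 20725760)) (I.pos (nat_lit 80035840) (nat_lit 125288448)) (I.mix (nat_lit 30588928) (nat_lit 29032448)) (I.mix (nat_lit 35340288) (nat_lit 20316160)) (I.mix (nat_lit 21774336) (nat_lit 12992512)))
  false (nat_lit 0)
def b4_6 : Bx := Bx.mk (St.mk (I.pos (nat_lit 80773120) (nat_lit 129613824)) (I.mix (nat_lit 63684608) (nat_lit 10125312)) (I.mix (nat_lit 52723712) (nat_lit 2228224)) (I.pos (nat_lit 114016256) (nat_lit 150437888)) (I.mix (nat_lit 68485120) (nat_lit 26263552)) (I.mix (nat_lit 36421632) (nat_lit 63537152)) (I.mix (nat_lit 26230784) (nat_lit 43712512)))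
  false (nat_lit 0)
def b4_7 : Bx := Bx.mk (St.mk (I.mix (nat_lit 49250304) (nat_lit 32571392)) (I.mix (nat_lit 35897344) (nat_lit 6553600)) (I.mix (nat_lit 8585216) (nat_lit 7569408)) (I.pos (nat_lit 81952768) (nat_lit 100483072)) (I.mix (nat_lit 24936448) (nat_lit 19660800)) (I.mix (nat_lit 16531456) (nat_lit 27066368)) (I.mix (nat_lit 9781248) (nat_lit 6668288)))
  false (nat_lit 0)
def t4 : BTr := (BTr.n (BTr.n (BTr.n (BTr.b b4_0) (BTr.b b4_1)) (BTr.n (BTr.b b4_2) (BTr.b b4_3))) (BTr.n (BTr.n (BTr.b b4_4) (BTr.b b4_5)) (BTr.n (BTr.b b4_6) (BTr.b b4_7))))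
namespace T4
def l0 : Tr := Tr.L (Pth.l (Pth.l (Pth.l Pth.z)))
def l1 : Tr := Tr.L (Pth.l (Pth.l (Pth.r Pth.z)))
def l2 : Tr := Tr.L (Pth.l (Pth.r (Pth.l Pth.z)))
def l3 : Tr := Tr.L (Pth.l (Pth.r (Pth.r Pth.z)))
def l4 : Tr := Tr.L (Pth.r (Pth.l (Pth.l Pth.z)))
def l5 : Tr := Tr.L (Pth.r (Pth.l (Pth.r Pth.z)))
def l6 : Tr := Tr.L (Pth.r (Pth.r (Pth.l Pth.z)))
def l7 : Tr := Tr.L (Pth.r (Pth.r (Pth.r Pth.z)))
end T4
def b5_0 : Bx := Bx.mk (St.mk (I.pos (nat_lit 153518080) (nat_lit 284753920)) (I.mix (nat_lit 20004864) (nat_lit 58277888)) (I.mix (nat_lit 40763392) (nat_lit 110510080)) (I.pos (nat_lit 129695744) (nat_lit 363823104)) (I.mix (nat_lit 85344256) (nat_lit 53624832)) (I.mix (nat_lit 84557824) (nat_lit 52461568)) (I.mix (nat_lit 128516096) (nat_lit 69337088)))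
  false (nat_lit 13517578)
def b5_1 : Bx := Bx.mk (St.mk (I.pos (nat_lit 103350272) (nat_lit 180305920)) (I.neg (nat_lit 2457600) (nat_lit 69484544)) (I.mix (nat_lit 60751872) (nat_lit 15384576)) (I.pos (nat_lit 97927168) (nat_lit 182861824)) (I.mix (nat_lit 73662464) (nat_lit 38944768)) (I.mix (nat_lit 35160064) (nat_lit 57458688)) (I.mix (nat_lit 29704192) (nat_lit 54673408)))
  false (nat_lit 0)
def b5_2 : Bx := Bx.mk (St.mk (I.mix (nat_lit 25657344) (nat_lit 88915968)) (I.mix (nat_lit 34750464) (nat_lit 5308416)) (I.mix (nat_lit 16056320) (nat_lit 10240000)) (I.pos (nat_lit 39223296) (nat_lit 91799552)) (I.mix (nat_lit 24363008) (nat_lit 22462464)) (I.mix (nat_lit 16924672) (nat_lit 25001984)) (I.mix (nat_lit 9224192) (nat_lit 13205504)))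
  false (nat_lit 0)
def b5_3 : Bx := Bx.mk (St.mk (I.pos (nat_lit 144539648) (nat_lit 220135424)) (I.mix (nat_lit 43614208) (nat_lit 70549504)) (I.mix (nat_lit 34226176) (nat_lit 118751232)) (I.pos (nat_lit 126812160) (nat_lit 239124480)) (I.mix (nat_lit 123715584) (nat_lit 45711360)) (I.mix (nat_lit 136151040) (nat_lit 68255744)) (I.mix (nat_lit 162381824) (nat_lit 72220672)))
  false (nat_lit 11118446)
def b5_4 : Bx := Bx.mk (St.mk (I.mix (nat_lit 41844736) (nat_lit 111099904)) (I.mix (nat_lit 14368768) (nat_lit 38502400)) (I.mix (nat_lit 5685248) (nat_lit 31473664)) (I.pos (nat_lit 39141376) (nat_lit 106348544)) (I.mix (nat_lit 42483712) (nat_lit 18268160)) (I.mix (nat_lit 40599552) (nat_lit 24608768)) (I.mix (nat_lit 23379968) (nat_lit 15007744)))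
  false (nat_lit 0)
def b5_5 : Bx := Bx.mk (St.mk (I.mix (nat_lit 25460736) (nat_lit 122814464)) (I.mix (nat_lit 7569408) (nat_lit 35504128)) (I.mix (nat_lit 7159808) (nat_lit 29442048)) (I.pos (nat_lit 37158912) (nat_lit 116850688)) (I.mix (nat_lit 32784384) (nat_lit 25296896)) (I.mix (nat_lit 34308096) (nat_lit 19726336)) (I.mix (nat_lit 24379392) (nat_lit 13795328)))
  false (nat_lit 0)
def b5_6 : Bx := Bx.mk (St.mk (I.pos (nat_lit 93732864) (nat_lit 152354816)) (I.mix (nat_lit 66404352) (nat_lit 10354688)) (I.mix (nat_lit 56377344) (nat_lit 10469376)) (I.pos (nat_lit 78544896) (nat_lit 146915328)) (I.mix (nat_lit 76267520) (nat_lit 27820032)) (I.mix (nat_lit 39010304) (nat_lit 74956800)) (I.mix (nat_lit 28524544) (nat_lit 53805056)))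
  false (nat_lit 0)
def b5_7 : Bx := Bx.mk (St.mk (I.mix (nat_lit 31113216) (nat_lit 77660160)) (I.mix (nat_lit 31784960) (nat_lit 5980160)) (I.mix (nat_lit 13778944) (nat_lit 7864320)) (I.pos (nat_lit 40337408) (nat_lit 84115456)) (I.mix (nat_lit 24330240) (nat_lit 14352384)) (I.mix (nat_lit 14221312) (nat_lit 26607616)) (I.mix (nat_lit 6520832) (nat_lit 10240000)))
  false (nat_lit 0)
def t5 : BTr := (BTr.n (BTr.n (BTr.n (BTr.b b5_0) (BTr.b b5_1)) (BTr.n (BTr.b b5_2) (BTr.b b5_3))) (BTr.n (BTr.n (BTr.b b5_4) (BTr.b b5_5)) (BTr.n (BTr.b b5_6) (BTr.b b5_7))))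
namespace T5
def l0 : Tr := Tr.L (Pth.l (Pth.l (Pth.l Pth.z)))
def l1 : Tr := Tr.L (Pth.l (Pth.l (Pth.r Pth.z)))
def l2 : Tr := Tr.L (Pth.l (Pth.r (Pth.l Pth.z)))
def l3 : Tr := Tr.L (Pth.l (Pth.r (Pth.r Pth.z)))
def l4 : Tr := Tr.L (Pth.r (Pth.l (Pth.l Pth.z)))
def l5 : Tr := Tr.L (Pth.r (Pth.l (Pth.r Pth.z)))
def l6 : Tr := Tr.L (Pth.r (Pth.r (Pth.l Pth.z)))
def l7 : Tr := Tr.L (Pth.r (Pth.r (Pth.r Pth.z)))
end T5
theorem bx0_0 : BoxOK sI cl6 cl7 cl9 t2 t4 b0_0 :=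
  box_mk (TrL.c (I.pos (nat_lit 0) (nat_lit 0)) (xa (xb T2.l0 (xa T2.l0 T2.l0)) (xa (xb T2.l0 T2.l0) T2.l6))
  (TrL.c (I.pos (nat_lit 0) (nat_lit 0)) T4.l1
  (TrL.c (I.pos (nat_lit 0) (nat_lit 89480386)) (xR T2.l1 (xR T2.l1 T2.l1))
  (TrL.c (I.pos (nat_lit 0) (nat_lit 41530880)) T4.l2
  (TrL.c (I.pos (nat_lit 0) (nat_lit 0)) (xa T4.l3 (xb (xa T4.l3 T4.l3) (xa T4.l3 (xs T4.l3 (xb T4.l3 T4.l3)))))
  (TrL.c (I.pos (nat_lit 0) (nat_lit 0)) T2.l2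
  (TrL.c (I.mix (nat_lit 41527258) (nat_lit 41530880)) (xR T4.l4 T4.l4)
  (TrL.c (I.mix (nat_lit 41527258) (nat_lit 4274)) T2.l3
  TrL.n)))))))) (by decide +kernel)
theorem bx0_1 : BoxOK sI cl6 cl7 cl9 t2 t4 b0_1 :=
  box_mk (TrL.c (I.pos (nat_lit 0) (nat_lit 0)) T2.l0
  (TrL.c (I.pos (nat_lit 0) (nat_lit 0)) T4.l1
  (TrL.c (I.pos (nat_lit 0) (nat_lit 89480386)) T2.l1
  (TrL.c (I.pos (nat_lit 0) (nat_lit 41530880)) T4.l2
  (TrL.c (I.pos (nat_lit 0) (nat_lit 0)) T4.l3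
  (TrL.c (I.pos (nat_lit 0) (nat_lit 0)) T2.l2
  (TrL.c (I.mix (nat_lit 41527258) (nat_lit 41530880)) T4.l4
  (TrL.c (I.mix (nat_lit 41527258) (nat_lit 4274)) T2.l3
  TrL.n)))))))) (by decide +kernel)
theorem bx0_2 : BoxOK sI cl6 cl7 cl9 t2 t4 b0_2 :=
  box_mk (TrL.c (I.pos (nat_lit 0) (nat_lit 0)) T2.l0
  (TrL.c (I.pos (nat_lit 0) (nat_lit 0)) T4.l1
  (TrL.c (I.pos (nat_lit 0) (nat_lit 89480386)) T2.l1
  (TrL.c (I.pos (nat_lit 0) (nat_lit 41530880)) T4.l2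
  (TrL.c (I.pos (nat_lit 0) (nat_lit 0)) T4.l3
  (TrL.c (I.pos (nat_lit 0) (nat_lit 0)) T2.l2
  (TrL.c (I.mix (nat_lit 41527258) (nat_lit 41530880)) T4.l4
  (TrL.c (I.mix (nat_lit 41527258) (nat_lit 4274)) T2.l3
  TrL.n)))))))) (by decide +kernel)
theorem bx0_3 : BoxOK sI cl6 cl7 cl9 t2 t4 b0_3 :=
  box_mk (TrL.c (I.pos (nat_lit 0) (nat_lit 0)) T2.l0
  (TrL.c (I.pos (nat_lit 0) (nat_lit 0)) T4.l1
  (TrL.c (I.pos (nat_lit 0) (nat_lit 89480386)) T2.l1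
  (TrL.c (I.pos (nat_lit 0) (nat_lit 41530880)) T4.l2
  (TrL.c (I.pos (nat_lit 0) (nat_lit 0)) T4.l3
  (TrL.c (I.pos (nat_lit 0) (nat_lit 0)) T2.l2
  (TrL.c (I.mix (nat_lit 41527258) (nat_lit 41530880)) T4.l4
  (TrL.c (I.mix (nat_lit 41527258) (nat_lit 4274)) T2.l3
  TrL.n)))))))) (by decide +kernel)
theorem bx0_4 : BoxOK sI cl6 cl7 cl9 t2 t4 b0_4 :=
  box_mk (TrL.c (I.pos (nat_lit 0) (nat_lit 0)) T2.l0
  (TrL.c (I.pos (nat_lit 0) (nat_lit 0)) T4.l1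
  (TrL.c (I.pos (nat_lit 0) (nat_lit 89480386)) T2.l1
  (TrL.c (I.pos (nat_lit 0) (nat_lit 41530880)) T4.l2
  (TrL.c (I.pos (nat_lit 0) (nat_lit 0)) T4.l3
  (TrL.c (I.pos (nat_lit 0) (nat_lit 0)) T2.l2
  (TrL.c (I.mix (nat_lit 41527258) (nat_lit 41530880)) T4.l4
  (TrL.c (I.mix (nat_lit 41527258) (nat_lit 4274)) T2.l3
  TrL.n)))))))) (by decide +kernel)
theorem bx0_5 : BoxOK sI cl6 cl7 cl9 t2 t4 b0_5 :=
  box_mk (TrL.c (I.pos (nat_lit 0) (nat_lit 0)) T2.l0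
  (TrL.c (I.pos (nat_lit 0) (nat_lit 0)) T4.l1
  (TrL.c (I.pos (nat_lit 0) (nat_lit 89480386)) T2.l1
  (TrL.c (I.pos (nat_lit 0) (nat_lit 41530880)) T4.l2
  (TrL.c (I.pos (nat_lit 0) (nat_lit 0)) T4.l3
  (TrL.c (I.pos (nat_lit 0) (nat_lit 0)) T2.l2
  (TrL.c (I.mix (nat_lit 41527258) (nat_lit 41530880)) T4.l4
  (TrL.c (I.mix (nat_lit 41527258) (nat_lit 4274)) T2.l3
  TrL.n)))))))) (by decide +kernel)
theorem bx0_6 : BoxOK sI cl6 cl7 cl9 t2 t4 b0_6 :=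
  box_mk (TrL.c (I.pos (nat_lit 0) (nat_lit 0)) (xa T2.l0 T2.l0)
  (TrL.c (I.pos (nat_lit 0) (nat_lit 0)) T4.l1
  (TrL.c (I.pos (nat_lit 0) (nat_lit 89480386)) T2.l1
  (TrL.c (I.pos (nat_lit 0) (nat_lit 41530880)) T4.l2
  (TrL.c (I.pos (nat_lit 0) (nat_lit 0)) T4.l3
  (TrL.c (I.pos (nat_lit 0) (nat_lit 0)) T2.l2
  (TrL.c (I.mix (nat_lit 41527258) (nat_lit 41530880)) T4.l4
  (TrL.c (I.mix (nat_lit 41527258) (nat_lit 4274)) T2.l3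
  TrL.n)))))))) (by decide +kernel)
theorem bx0_7 : BoxOK sI cl6 cl7 cl9 t2 t4 b0_7 :=
  box_mk (TrL.c (I.pos (nat_lit 0) (nat_lit 0)) (xb (xa (xb T2.l0 T2.l0) T2.l0) (xa (xb T2.l0 (xs T2.l0 T2.l0)) (xb T2.l0 T2.l0)))
  (TrL.c (I.pos (nat_lit 0) (nat_lit 0)) T4.l1
  (TrL.c (I.pos (nat_lit 0) (nat_lit 89480386)) (xR T2.l1 T2.l1)
  (TrL.c (I.pos (nat_lit 0) (nat_lit 41530880)) T4.l2
  (TrL.c (I.pos (nat_lit 0) (nat_lit 0)) (xb (xa T4.l3 T4.l3) (xa T4.l3 T4.l3))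
  (TrL.c (I.pos (nat_lit 0) (nat_lit 0)) T2.l2
  (TrL.c (I.mix (nat_lit 41527258) (nat_lit 41530880)) (xR T4.l4 T4.l4)
  (TrL.c (I.mix (nat_lit 41527258) (nat_lit 4274)) T2.l3
  TrL.n)))))))) (by decide +kernel)
theorem sv0 : StarV sI cl6 cl7 cl9 t2 t4 t0 :=
  (bt_n (bt_n (bt_n (bt_b bx0_0) (bt_b bx0_1)) (bt_n (bt_b bx0_2) (bt_b bx0_3))) (bt_n (bt_n (bt_b bx0_4) (bt_b bx0_5)) (bt_n (bt_b bx0_6) (bt_b bx0_7))))
def S0 : StarD := StarD.mk cl6 cl7 cl9 2 4 t0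
theorem bx1_0 : BoxOK sI cl6 cl9 cl7 t4 t2 b1_0 :=
  box_mk (TrL.c (I.pos (nat_lit 0) (nat_lit 0)) (xa (xa (xb T4.l0 T4.l0) (xb T4.l0 T4.l0)) (xa (xb T4.l0 T4.l0) T4.l3))
  (TrL.c (I.pos (nat_lit 0) (nat_lit 0)) T2.l4
  (TrL.c (I.pos (nat_lit 0) (nat_lit 89480386)) (xR T4.l5 (xR T4.l5 T4.l5))
  (TrL.c (I.pos (nat_lit 0) (nat_lit 41530880)) T2.l5
  (TrL.c (I.pos (nat_lit 0) (nat_lit 0)) (xa T2.l6 (xb (xa T2.l6 T2.l6) (xa T2.l6 (xa T2.l6 T2.l6))))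
  (TrL.c (I.pos (nat_lit 0) (nat_lit 0)) T4.l6
  (TrL.c (I.mix (nat_lit 41527258) (nat_lit 41530880)) (xR T2.l7 T2.l7)
  (TrL.c (I.mix (nat_lit 41527258) (nat_lit 4274)) T4.l7
  TrL.n)))))))) (by decide +kernel)
theorem bx1_1 : BoxOK sI cl6 cl9 cl7 t4 t2 b1_1 :=
  box_mk (TrL.c (I.pos (nat_lit 0) (nat_lit 0)) (xa T4.l0 T4.l0)
  (TrL.c (I.pos (nat_lit 0) (nat_lit 0)) T2.l4
  (TrL.c (I.pos (nat_lit 0) (nat_lit 89480386)) T4.l5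
  (TrL.c (I.pos (nat_lit 0) (nat_lit 41530880)) T2.l5
  (TrL.c (I.pos (nat_lit 0) (nat_lit 0)) T2.l6
  (TrL.c (I.pos (nat_lit 0) (nat_lit 0)) T4.l6
  (TrL.c (I.mix (nat_lit 41527258) (nat_lit 41530880)) T2.l7
  (TrL.c (I.mix (nat_lit 41527258) (nat_lit 4274)) T4.l7
  TrL.n)))))))) (by decide +kernel)
theorem bx1_2 : BoxOK sI cl6 cl9 cl7 t4 t2 b1_2 :=
  box_mk (TrL.c (I.pos (nat_lit 0) (nat_lit 0)) T4.l0
  (TrL.c (I.pos (nat_lit 0) (nat_lit 0)) T2.l4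
  (TrL.c (I.pos (nat_lit 0) (nat_lit 89480386)) T4.l5
  (TrL.c (I.pos (nat_lit 0) (nat_lit 41530880)) T2.l5
  (TrL.c (I.pos (nat_lit 0) (nat_lit 0)) T2.l6
  (TrL.c (I.pos (nat_lit 0) (nat_lit 0)) T4.l6
  (TrL.c (I.mix (nat_lit 41527258) (nat_lit 41530880)) T2.l7
  (TrL.c (I.mix (nat_lit 41527258) (nat_lit 4274)) T4.l7
  TrL.n)))))))) (by decide +kernel)
theorem bx1_3 : BoxOK sI cl6 cl9 cl7 t4 t2 b1_3 :=
  box_mk (TrL.c (I.pos (nat_lit 0) (nat_lit 0)) T4.l0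
  (TrL.c (I.pos (nat_lit 0) (nat_lit 0)) T2.l4
  (TrL.c (I.pos (nat_lit 0) (nat_lit 89480386)) T4.l5
  (TrL.c (I.pos (nat_lit 0) (nat_lit 41530880)) T2.l5
  (TrL.c (I.pos (nat_lit 0) (nat_lit 0)) T2.l6
  (TrL.c (I.pos (nat_lit 0) (nat_lit 0)) T4.l6
  (TrL.c (I.mix (nat_lit 41527258) (nat_lit 41530880)) T2.l7
  (TrL.c (I.mix (nat_lit 41527258) (nat_lit 4274)) T4.l7
  TrL.n)))))))) (by decide +kernel)
theorem bx1_4 : BoxOK sI cl6 cl9 cl7 t4 t2 b1_4 :=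
  box_mk (TrL.c (I.pos (nat_lit 0) (nat_lit 0)) T4.l0
  (TrL.c (I.pos (nat_lit 0) (nat_lit 0)) T2.l4
  (TrL.c (I.pos (nat_lit 0) (nat_lit 89480386)) (xR T4.l5 T4.l5)
  (TrL.c (I.pos (nat_lit 0) (nat_lit 41530880)) T2.l5
  (TrL.c (I.pos (nat_lit 0) (nat_lit 0)) T2.l6
  (TrL.c (I.pos (nat_lit 0) (nat_lit 0)) T4.l6
  (TrL.c (I.mix (nat_lit 41527258) (nat_lit 41530880)) T2.l7
  (TrL.c (I.mix (nat_lit 41527258) (nat_lit 4274)) T4.l7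
  TrL.n)))))))) (by decide +kernel)
theorem bx1_5 : BoxOK sI cl6 cl9 cl7 t4 t2 b1_5 :=
  box_mk (TrL.c (I.pos (nat_lit 0) (nat_lit 0)) T4.l0
  (TrL.c (I.pos (nat_lit 0) (nat_lit 0)) T2.l4
  (TrL.c (I.pos (nat_lit 0) (nat_lit 89480386)) T4.l5
  (TrL.c (I.pos (nat_lit 0) (nat_lit 41530880)) T2.l5
  (TrL.c (I.pos (nat_lit 0) (nat_lit 0)) T2.l6
  (TrL.c (I.pos (nat_lit 0) (nat_lit 0)) T4.l6
  (TrL.c (I.mix (nat_lit 41527258) (nat_lit 41530880)) T2.l7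
  (TrL.c (I.mix (nat_lit 41527258) (nat_lit 4274)) T4.l7
  TrL.n)))))))) (by decide +kernel)
theorem bx1_6 : BoxOK sI cl6 cl9 cl7 t4 t2 b1_6 :=
  box_mk (TrL.c (I.pos (nat_lit 0) (nat_lit 0)) (xb (xa (xb T4.l0 T4.l0) T4.l0) (xa (xa T4.l0 T4.l0) (xs T4.l0 (xb T4.l0 T4.l0))))
  (TrL.c (I.pos (nat_lit 0) (nat_lit 0)) T2.l4
  (TrL.c (I.pos (nat_lit 0) (nat_lit 89480386)) (xR T4.l5 T4.l5)
  (TrL.c (I.pos (nat_lit 0) (nat_lit 41530880)) T2.l5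
  (TrL.c (I.pos (nat_lit 0) (nat_lit 0)) (xb T2.l6 T2.l6)
  (TrL.c (I.pos (nat_lit 0) (nat_lit 0)) T4.l6
  (TrL.c (I.mix (nat_lit 41527258) (nat_lit 41530880)) (xR T2.l7 T2.l7)
  (TrL.c (I.mix (nat_lit 41527258) (nat_lit 4274)) T4.l7
  TrL.n)))))))) (by decide +kernel)
theorem bx1_7 : BoxOK sI cl6 cl9 cl7 t4 t2 b1_7 :=
  box_mk (TrL.c (I.pos (nat_lit 0) (nat_lit 0)) (xa T4.l0 T4.l0)
  (TrL.c (I.pos (nat_lit 0) (nat_lit 0)) T2.l4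
  (TrL.c (I.pos (nat_lit 0) (nat_lit 89480386)) T4.l5
  (TrL.c (I.pos (nat_lit 0) (nat_lit 41530880)) T2.l5
  (TrL.c (I.pos (nat_lit 0) (nat_lit 0)) T2.l6
  (TrL.c (I.pos (nat_lit 0) (nat_lit 0)) T4.l6
  (TrL.c (I.mix (nat_lit 41527258) (nat_lit 41530880)) T2.l7
  (TrL.c (I.mix (nat_lit 41527258) (nat_lit 4274)) T4.l7
  TrL.n)))))))) (by decide +kernel)
theorem sv1 : StarV sI cl6 cl9 cl7 t4 t2 t1 :=
  (bt_n (bt_n (bt_n (bt_b bx1_0) (bt_b bx1_1)) (bt_n (bt_b bx1_2) (bt_b bx1_3))) (bt_n (bt_n (bt_b bx1_4) (bt_b bx1_5)) (bt_n (bt_b bx1_6) (bt_b bx1_7))))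
def S1 : StarD := StarD.mk cl6 cl9 cl7 4 2 t1
theorem bx2_0 : BoxOK sI cl7 cl6 cl9 t0 t5 b2_0 :=
  box_mk (TrL.c (I.pos (nat_lit 0) (nat_lit 0)) (xa (xb T0.l0 (xa T0.l0 T0.l0)) (xa (xb T0.l0 T0.l0) T0.l7))
  (TrL.c (I.pos (nat_lit 0) (nat_lit 0)) T5.l1
  (TrL.c (I.pos (nat_lit 0) (nat_lit 111196574)) (xR T0.l1 (xR T0.l1 T0.l1))
  (TrL.c (I.pos (nat_lit 0) (nat_lit 77433728)) (xR T5.l2 T5.l2)
  (TrL.c (I.pos (nat_lit 0) (nat_lit 0)) (xa (xb T5.l3 T5.l3) (xb (xa (xk T5.l3 T5.l3) (xk (xb (xa T5.l3 T5.l3) T5.l3) (xb (xa T5.l3 T5.l3) T5.l3))) (xk (xa T5.l3 (xs (xa T5.l3 T5.l3) (xb T5.l3 T5.l3))) (xa T5.l3 (xs (xa T5.l3 T5.l3) (xb T5.l3 T5.l3))))))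
  (TrL.c (I.pos (nat_lit 0) (nat_lit 0)) T0.l2
  (TrL.c (I.mix (nat_lit 29511666) (nat_lit 77433728)) (xR T5.l4 (xR T5.l4 T5.l4))
  (TrL.c (I.mix (nat_lit 29511666) (nat_lit 46070178)) (xR T0.l3 T0.l3)
  TrL.n)))))))) (by decide +kernel)
theorem bx2_1 : BoxOK sI cl7 cl6 cl9 t0 t5 b2_1 :=
  box_mk (TrL.c (I.pos (nat_lit 0) (nat_lit 0)) T0.l0
  (TrL.c (I.pos (nat_lit 0) (nat_lit 0)) T5.l1
  (TrL.c (I.pos (nat_lit 0) (nat_lit 111196574)) T0.l1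
  (TrL.c (I.pos (nat_lit 0) (nat_lit 77433728)) T5.l2
  (TrL.c (I.pos (nat_lit 0) (nat_lit 0)) T5.l3
  (TrL.c (I.pos (nat_lit 0) (nat_lit 0)) T0.l2
  (TrL.c (I.mix (nat_lit 29511666) (nat_lit 77433728)) T5.l4
  (TrL.c (I.mix (nat_lit 29511666) (nat_lit 46070178)) T0.l3
  TrL.n)))))))) (by decide +kernel)
theorem bx2_2 : BoxOK sI cl7 cl6 cl9 t0 t5 b2_2 :=
  box_mk (TrL.c (I.pos (nat_lit 0) (nat_lit 0)) T0.l0
  (TrL.c (I.pos (nat_lit 0) (nat_lit 0)) T5.l1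
  (TrL.c (I.pos (nat_lit 0) (nat_lit 111196574)) T0.l1
  (TrL.c (I.pos (nat_lit 0) (nat_lit 77433728)) T5.l2
  (TrL.c (I.pos (nat_lit 0) (nat_lit 0)) T5.l3
  (TrL.c (I.pos (nat_lit 0) (nat_lit 0)) T0.l2
  (TrL.c (I.mix (nat_lit 29511666) (nat_lit 77433728)) T5.l4
  (TrL.c (I.mix (nat_lit 29511666) (nat_lit 46070178)) T0.l3
  TrL.n)))))))) (by decide +kernel)
theorem bx2_3 : BoxOK sI cl7 cl6 cl9 t0 t5 b2_3 :=
  box_mk (TrL.c (I.pos (nat_lit 0) (nat_lit 0)) T0.l0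
  (TrL.c (I.pos (nat_lit 0) (nat_lit 0)) T5.l3
  (TrL.c (I.pos (nat_lit 0) (nat_lit 111196574)) T0.l1
  (TrL.c (I.pos (nat_lit 0) (nat_lit 77433728)) T5.l4
  (TrL.c (I.pos (nat_lit 0) (nat_lit 0)) T5.l3
  (TrL.c (I.pos (nat_lit 0) (nat_lit 0)) T0.l2
  (TrL.c (I.mix (nat_lit 29511666) (nat_lit 77433728)) T5.l4
  (TrL.c (I.mix (nat_lit 29511666) (nat_lit 46070178)) T0.l3
  TrL.n)))))))) (by decide +kernel)
theorem bx2_4 : BoxOK sI cl7 cl6 cl9 t0 t5 b2_4 :=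
  box_mk (TrL.c (I.pos (nat_lit 0) (nat_lit 0)) T0.l0
  (TrL.c (I.pos (nat_lit 0) (nat_lit 0)) T5.l1
  (TrL.c (I.pos (nat_lit 0) (nat_lit 111196574)) T0.l1
  (TrL.c (I.pos (nat_lit 0) (nat_lit 77433728)) T5.l2
  (TrL.c (I.pos (nat_lit 0) (nat_lit 0)) T5.l3
  (TrL.c (I.pos (nat_lit 0) (nat_lit 0)) T0.l2
  (TrL.c (I.mix (nat_lit 29511666) (nat_lit 77433728)) T5.l4
  (TrL.c (I.mix (nat_lit 29511666) (nat_lit 46070178)) T0.l3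
  TrL.n)))))))) (by decide +kernel)
theorem bx2_5 : BoxOK sI cl7 cl6 cl9 t0 t5 b2_5 :=
  box_mk (TrL.c (I.pos (nat_lit 0) (nat_lit 0)) T0.l0
  (TrL.c (I.pos (nat_lit 0) (nat_lit 0)) T5.l1
  (TrL.c (I.pos (nat_lit 0) (nat_lit 111196574)) T0.l1
  (TrL.c (I.pos (nat_lit 0) (nat_lit 77433728)) T5.l4
  (TrL.c (I.pos (nat_lit 0) (nat_lit 0)) T5.l3
  (TrL.c (I.pos (nat_lit 0) (nat_lit 0)) T0.l2
  (TrL.c (I.mix (nat_lit 29511666) (nat_lit 77433728)) T5.l4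
  (TrL.c (I.mix (nat_lit 29511666) (nat_lit 46070178)) T0.l3
  TrL.n)))))))) (by decide +kernel)
theorem bx2_6 : BoxOK sI cl7 cl6 cl9 t0 t5 b2_6 :=
  box_mk (TrL.c (I.pos (nat_lit 0) (nat_lit 0)) (xb (xa T0.l0 T0.l0) (xa (xa T0.l0 T0.l0) (xs T0.l0 (xb T0.l0 T0.l0))))
  (TrL.c (I.pos (nat_lit 0) (nat_lit 0)) T5.l1
  (TrL.c (I.pos (nat_lit 0) (nat_lit 111196574)) (xR T0.l1 (xR T0.l1 T0.l1))
  (TrL.c (I.pos (nat_lit 0) (nat_lit 77433728)) (xR T5.l2 T5.l2)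
  (TrL.c (I.pos (nat_lit 0) (nat_lit 0)) (xb (xa T5.l3 (xk T5.l3 T5.l3)) T5.l3)
  (TrL.c (I.pos (nat_lit 0) (nat_lit 0)) T0.l2
  (TrL.c (I.mix (nat_lit 29511666) (nat_lit 77433728)) (xR T5.l4 (xR T5.l4 T5.l4))
  (TrL.c (I.mix (nat_lit 29511666) (nat_lit 46070178)) T0.l5
  TrL.n)))))))) (by decide +kernel)
theorem bx2_7 : BoxOK sI cl7 cl6 cl9 t0 t5 b2_7 :=
  box_mk (TrL.c (I.pos (nat_lit 0) (nat_lit 0)) T0.l0
  (TrL.c (I.pos (nat_lit 0) (nat_lit 0)) T5.l1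
  (TrL.c (I.pos (nat_lit 0) (nat_lit 111196574)) T0.l1
  (TrL.c (I.pos (nat_lit 0) (nat_lit 77433728)) (xR T5.l2 T5.l2)
  (TrL.c (I.pos (nat_lit 0) (nat_lit 0)) T5.l3
  (TrL.c (I.pos (nat_lit 0) (nat_lit 0)) T0.l2
  (TrL.c (I.mix (nat_lit 29511666) (nat_lit 77433728)) T5.l4
  (TrL.c (I.mix (nat_lit 29511666) (nat_lit 46070178)) T0.l3
  TrL.n)))))))) (by decide +kernel)
theorem sv2 : StarV sI cl7 cl6 cl9 t0 t5 t2 :=
  (bt_n (bt_n (bt_n (bt_b bx2_0) (bt_b bx2_1)) (bt_n (bt_b bx2_2) (bt_b bx2_3))) (bt_n (bt_n (bt_b bx2_4) (bt_b bx2_5)) (bt_n (bt_b bx2_6) (bt_b bx2_7))))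
def S2 : StarD := StarD.mk cl7 cl6 cl9 0 5 t2
theorem bx3_0 : BoxOK sI cl7 cl9 cl6 t5 t0 b3_0 :=
  box_mk (TrL.c (I.pos (nat_lit 0) (nat_lit 0)) (xa (xa (xb T5.l0 (xs T5.l0 T5.l0)) (xb T5.l0 T5.l0)) (xa (xb T5.l0 T5.l0) T5.l3))
  (TrL.c (I.pos (nat_lit 0) (nat_lit 0)) (xa T0.l4 T0.l4)
  (TrL.c (I.pos (nat_lit 0) (nat_lit 111196574)) (xR T5.l5 (xR T5.l5 T5.l5))
  (TrL.c (I.pos (nat_lit 0) (nat_lit 77433728)) (xR T0.l5 T0.l5)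
  (TrL.c (I.pos (nat_lit 0) (nat_lit 0)) (xa T0.l7 (xa (xb T0.l7 T0.l7) (xb (xk (xb T0.l7 T0.l7) (xb T0.l7 T0.l7)) (xk (xa T0.l7 (xs T0.l7 T0.l7)) (xa T0.l7 (xs T0.l7 T0.l7))))))
  (TrL.c (I.pos (nat_lit 0) (nat_lit 0)) T5.l6
  (TrL.c (I.mix (nat_lit 29511666) (nat_lit 77433728)) (xR T0.l6 (xR T0.l6 T0.l6))
  (TrL.c (I.mix (nat_lit 29511666) (nat_lit 46070178)) (xR T5.l7 T5.l2)
  TrL.n)))))))) (by decide +kernel)
theorem bx3_1 : BoxOK sI cl7 cl9 cl6 t5 t0 b3_1 :=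
  box_mk (TrL.c (I.pos (nat_lit 0) (nat_lit 0)) T5.l0
  (TrL.c (I.pos (nat_lit 0) (nat_lit 0)) T0.l4
  (TrL.c (I.pos (nat_lit 0) (nat_lit 111196574)) T5.l5
  (TrL.c (I.pos (nat_lit 0) (nat_lit 77433728)) T0.l5
  (TrL.c (I.pos (nat_lit 0) (nat_lit 0)) T0.l7
  (TrL.c (I.pos (nat_lit 0) (nat_lit 0)) T5.l6
  (TrL.c (I.mix (nat_lit 29511666) (nat_lit 77433728)) (xR T0.l6 T0.l6)
  (TrL.c (I.mix (nat_lit 29511666) (nat_lit 46070178)) T5.l7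
  TrL.n)))))))) (by decide +kernel)
theorem bx3_2 : BoxOK sI cl7 cl9 cl6 t5 t0 b3_2 :=
  box_mk (TrL.c (I.pos (nat_lit 0) (nat_lit 0)) (xa T5.l0 T5.l0)
  (TrL.c (I.pos (nat_lit 0) (nat_lit 0)) T0.l4
  (TrL.c (I.pos (nat_lit 0) (nat_lit 111196574)) T5.l5
  (TrL.c (I.pos (nat_lit 0) (nat_lit 77433728)) (xR T0.l5 T0.l5)
  (TrL.c (I.pos (nat_lit 0) (nat_lit 0)) T0.l7
  (TrL.c (I.pos (nat_lit 0) (nat_lit 0)) T5.l6
  (TrL.c (I.mix (nat_lit 29511666) (nat_lit 77433728)) T0.l6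
  (TrL.c (I.mix (nat_lit 29511666) (nat_lit 46070178)) T5.l4
  TrL.n)))))))) (by decide +kernel)
theorem bx3_3 : BoxOK sI cl7 cl9 cl6 t5 t0 b3_3 :=
  box_mk (TrL.c (I.pos (nat_lit 0) (nat_lit 0)) (xb (xa (xb T5.l0 T5.l0) (xa T5.l0 T5.l0)) (xa (xs T5.l0 (xa (xb T5.l0 T5.l0) T5.l0)) (xs T5.l0 (xa T5.l0 T5.l0))))
  (TrL.c (I.pos (nat_lit 0) (nat_lit 0)) T0.l4
  (TrL.c (I.pos (nat_lit 0) (nat_lit 111196574)) (xR T5.l5 (xR T5.l5 T5.l5))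
  (TrL.c (I.pos (nat_lit 0) (nat_lit 77433728)) (xR T0.l5 T0.l5)
  (TrL.c (I.pos (nat_lit 0) (nat_lit 0)) (xb (xa T0.l7 (xk T0.l7 T0.l7)) (xa T0.l7 T0.l7))
  (TrL.c (I.pos (nat_lit 0) (nat_lit 0)) T5.l6
  (TrL.c (I.mix (nat_lit 29511666) (nat_lit 77433728)) (xR T0.l6 (xR T0.l6 T0.l6))
  (TrL.c (I.mix (nat_lit 29511666) (nat_lit 46070178)) (xR T5.l7 T5.l7)
  TrL.n)))))))) (by decide +kernel)
theorem bx3_4 : BoxOK sI cl7 cl9 cl6 t5 t0 b3_4 :=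
  box_mk (TrL.c (I.pos (nat_lit 0) (nat_lit 0)) (xa T5.l0 T5.l0)
  (TrL.c (I.pos (nat_lit 0) (nat_lit 0)) T0.l4
  (TrL.c (I.pos (nat_lit 0) (nat_lit 111196574)) T5.l5
  (TrL.c (I.pos (nat_lit 0) (nat_lit 77433728)) T0.l5
  (TrL.c (I.pos (nat_lit 0) (nat_lit 0)) (xa T0.l7 T0.l7)
  (TrL.c (I.pos (nat_lit 0) (nat_lit 0)) T5.l6
  (TrL.c (I.mix (nat_lit 29511666) (nat_lit 77433728)) T0.l6
  (TrL.c (I.mix (nat_lit 29511666) (nat_lit 46070178)) T5.l4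
  TrL.n)))))))) (by decide +kernel)
theorem bx3_5 : BoxOK sI cl7 cl9 cl6 t5 t0 b3_5 :=
  box_mk (TrL.c (I.pos (nat_lit 0) (nat_lit 0)) (xa T5.l0 T5.l0)
  (TrL.c (I.pos (nat_lit 0) (nat_lit 0)) T0.l4
  (TrL.c (I.pos (nat_lit 0) (nat_lit 111196574)) T5.l5
  (TrL.c (I.pos (nat_lit 0) (nat_lit 77433728)) T0.l5
  (TrL.c (I.pos (nat_lit 0) (nat_lit 0)) T0.l7
  (TrL.c (I.pos (nat_lit 0) (nat_lit 0)) T5.l6
  (TrL.c (I.mix (nat_lit 29511666) (nat_lit 77433728)) T0.l6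
  (TrL.c (I.mix (nat_lit 29511666) (nat_lit 46070178)) T5.l4
  TrL.n)))))))) (by decide +kernel)
theorem bx3_6 : BoxOK sI cl7 cl9 cl6 t5 t0 b3_6 :=
  box_mk (TrL.c (I.pos (nat_lit 0) (nat_lit 0)) T5.l0
  (TrL.c (I.pos (nat_lit 0) (nat_lit 0)) T0.l4
  (TrL.c (I.pos (nat_lit 0) (nat_lit 111196574)) T5.l5
  (TrL.c (I.pos (nat_lit 0) (nat_lit 77433728)) T0.l5
  (TrL.c (I.pos (nat_lit 0) (nat_lit 0)) T0.l7
  (TrL.c (I.pos (nat_lit 0) (nat_lit 0)) T5.l6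
  (TrL.c (I.mix (nat_lit 29511666) (nat_lit 77433728)) (xR T0.l6 T0.l6)
  (TrL.c (I.mix (nat_lit 29511666) (nat_lit 46070178)) T5.l7
  TrL.n)))))))) (by decide +kernel)
theorem bx3_7 : BoxOK sI cl7 cl9 cl6 t5 t0 b3_7 :=
  box_mk (TrL.c (I.pos (nat_lit 0) (nat_lit 0)) (xa T5.l0 T5.l0)
  (TrL.c (I.pos (nat_lit 0) (nat_lit 0)) T0.l4
  (TrL.c (I.pos (nat_lit 0) (nat_lit 111196574)) T5.l5
  (TrL.c (I.pos (nat_lit 0) (nat_lit 77433728)) T0.l5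
  (TrL.c (I.pos (nat_lit 0) (nat_lit 0)) T0.l7
  (TrL.c (I.pos (nat_lit 0) (nat_lit 0)) T5.l6
  (TrL.c (I.mix (nat_lit 29511666) (nat_lit 77433728)) T0.l6
  (TrL.c (I.mix (nat_lit 29511666) (nat_lit 46070178)) T5.l4
  TrL.n)))))))) (by decide +kernel)
theorem sv3 : StarV sI cl7 cl9 cl6 t5 t0 t3 :=
  (bt_n (bt_n (bt_n (bt_b bx3_0) (bt_b bx3_1)) (bt_n (bt_b bx3_2) (bt_b bx3_3))) (bt_n (bt_n (bt_b bx3_4) (bt_b bx3_5)) (bt_n (bt_b bx3_6) (bt_b bx3_7))))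
def S3 : StarD := StarD.mk cl7 cl9 cl6 5 0 t3
theorem bx4_0 : BoxOK sI cl9 cl6 cl7 t1 t3 b4_0 :=
  box_mk (TrL.c (I.pos (nat_lit 0) (nat_lit 0)) (xa (xa T1.l0 T1.l0) (xa T1.l0 T1.l6))
  (TrL.c (I.pos (nat_lit 0) (nat_lit 0)) T3.l1
  (TrL.c (I.pos (nat_lit 0) (nat_lit 124588530)) (xR T1.l1 (xR T1.l1 T1.l7))
  (TrL.c (I.pos (nat_lit 0) (nat_lit 96881482)) (xR T3.l2 (xR T3.l2 T3.l2))
  (TrL.c (I.pos (nat_lit 0) (nat_lit 0)) (xa (xb T3.l3 T3.l3) (xa (xb (xk T3.l3 T3.l3) T3.l3) (xk (xb (xb T3.l3 T3.l3) (xs (xa T3.l3 T3.l3) (xa T3.l3 T3.l3))) (xb (xb T3.l3 T3.l3) (xs (xa T3.l3 T3.l3) (xa T3.l3 T3.l3))))))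
  (TrL.c (I.pos (nat_lit 0) (nat_lit 0)) T1.l2
  (TrL.c (I.mix (nat_lit 17240550) (nat_lit 96881482)) (xR T3.l4 (xR T3.l4 T3.l4))
  (TrL.c (I.mix (nat_lit 17240550) (nat_lit 71940500)) (xR T1.l3 T1.l3)
  TrL.n)))))))) (by decide +kernel)
theorem bx4_1 : BoxOK sI cl9 cl6 cl7 t1 t3 b4_1 :=
  box_mk (TrL.c (I.pos (nat_lit 0) (nat_lit 0)) T1.l0
  (TrL.c (I.pos (nat_lit 0) (nat_lit 0)) T3.l1
  (TrL.c (I.pos (nat_lit 0) (nat_lit 124588530)) T1.l1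
  (TrL.c (I.pos (nat_lit 0) (nat_lit 96881482)) T3.l2
  (TrL.c (I.pos (nat_lit 0) (nat_lit 0)) T3.l3
  (TrL.c (I.pos (nat_lit 0) (nat_lit 0)) T1.l2
  (TrL.c (I.mix (nat_lit 17240550) (nat_lit 96881482)) T3.l4
  (TrL.c (I.mix (nat_lit 17240550) (nat_lit 71940500)) T1.l3
  TrL.n)))))))) (by decide +kernel)
theorem bx4_2 : BoxOK sI cl9 cl6 cl7 t1 t3 b4_2 :=
  box_mk (TrL.c (I.pos (nat_lit 0) (nat_lit 0)) T1.l0
  (TrL.c (I.pos (nat_lit 0) (nat_lit 0)) T3.l1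
  (TrL.c (I.pos (nat_lit 0) (nat_lit 124588530)) T1.l1
  (TrL.c (I.pos (nat_lit 0) (nat_lit 96881482)) T3.l2
  (TrL.c (I.pos (nat_lit 0) (nat_lit 0)) T3.l3
  (TrL.c (I.pos (nat_lit 0) (nat_lit 0)) T1.l2
  (TrL.c (I.mix (nat_lit 17240550) (nat_lit 96881482)) T3.l4
  (TrL.c (I.mix (nat_lit 17240550) (nat_lit 71940500)) T1.l3
  TrL.n)))))))) (by decide +kernel)
theorem bx4_3 : BoxOK sI cl9 cl6 cl7 t1 t3 b4_3 :=
  box_mk (TrL.c (I.pos (nat_lit 0) (nat_lit 0)) (xb (xa T1.l0 T1.l0) (xa (xa T1.l0 T1.l0) (xs T1.l0 (xb T1.l0 T1.l0))))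
  (TrL.c (I.pos (nat_lit 0) (nat_lit 0)) T3.l1
  (TrL.c (I.pos (nat_lit 0) (nat_lit 124588530)) (xR T1.l1 (xR T1.l1 T1.l1))
  (TrL.c (I.pos (nat_lit 0) (nat_lit 96881482)) (xR T3.l2 T3.l2)
  (TrL.c (I.pos (nat_lit 0) (nat_lit 0)) (xb (xa T3.l3 T3.l3) T3.l3)
  (TrL.c (I.pos (nat_lit 0) (nat_lit 0)) T1.l2
  (TrL.c (I.mix (nat_lit 17240550) (nat_lit 96881482)) (xR T3.l4 (xR T3.l4 T3.l4))
  (TrL.c (I.mix (nat_lit 17240550) (nat_lit 71940500)) (xR T1.l3 T1.l3)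
  TrL.n)))))))) (by decide +kernel)
theorem bx4_4 : BoxOK sI cl9 cl6 cl7 t1 t3 b4_4 :=
  box_mk (TrL.c (I.pos (nat_lit 0) (nat_lit 0)) T1.l0
  (TrL.c (I.pos (nat_lit 0) (nat_lit 0)) T3.l1
  (TrL.c (I.pos (nat_lit 0) (nat_lit 124588530)) T1.l1
  (TrL.c (I.pos (nat_lit 0) (nat_lit 96881482)) T3.l2
  (TrL.c (I.pos (nat_lit 0) (nat_lit 0)) T3.l3
  (TrL.c (I.pos (nat_lit 0) (nat_lit 0)) T1.l2
  (TrL.c (I.mix (nat_lit 17240550) (nat_lit 96881482)) T3.l4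
  (TrL.c (I.mix (nat_lit 17240550) (nat_lit 71940500)) T1.l3
  TrL.n)))))))) (by decide +kernel)
theorem bx4_5 : BoxOK sI cl9 cl6 cl7 t1 t3 b4_5 :=
  box_mk (TrL.c (I.pos (nat_lit 0) (nat_lit 0)) T1.l0
  (TrL.c (I.pos (nat_lit 0) (nat_lit 0)) T3.l1
  (TrL.c (I.pos (nat_lit 0) (nat_lit 124588530)) T1.l1
  (TrL.c (I.pos (nat_lit 0) (nat_lit 96881482)) T3.l2
  (TrL.c (I.pos (nat_lit 0) (nat_lit 0)) T3.l3
  (TrL.c (I.pos (nat_lit 0) (nat_lit 0)) T1.l2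
  (TrL.c (I.mix (nat_lit 17240550) (nat_lit 96881482)) T3.l4
  (TrL.c (I.mix (nat_lit 17240550) (nat_lit 71940500)) T1.l3
  TrL.n)))))))) (by decide +kernel)
theorem bx4_6 : BoxOK sI cl9 cl6 cl7 t1 t3 b4_6 :=
  box_mk (TrL.c (I.pos (nat_lit 0) (nat_lit 0)) T1.l0
  (TrL.c (I.pos (nat_lit 0) (nat_lit 0)) T3.l1
  (TrL.c (I.pos (nat_lit 0) (nat_lit 124588530)) T1.l1
  (TrL.c (I.pos (nat_lit 0) (nat_lit 96881482)) T3.l2
  (TrL.c (I.pos (nat_lit 0) (nat_lit 0)) T3.l3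
  (TrL.c (I.pos (nat_lit 0) (nat_lit 0)) T1.l2
  (TrL.c (I.mix (nat_lit 17240550) (nat_lit 96881482)) T3.l4
  (TrL.c (I.mix (nat_lit 17240550) (nat_lit 71940500)) T1.l3
  TrL.n)))))))) (by decide +kernel)
theorem bx4_7 : BoxOK sI cl9 cl6 cl7 t1 t3 b4_7 :=
  box_mk (TrL.c (I.pos (nat_lit 0) (nat_lit 0)) T1.l0
  (TrL.c (I.pos (nat_lit 0) (nat_lit 0)) T3.l3
  (TrL.c (I.pos (nat_lit 0) (nat_lit 124588530)) T1.l1
  (TrL.c (I.pos (nat_lit 0) (nat_lit 96881482)) T3.l4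
  (TrL.c (I.pos (nat_lit 0) (nat_lit 0)) T3.l3
  (TrL.c (I.pos (nat_lit 0) (nat_lit 0)) T1.l2
  (TrL.c (I.mix (nat_lit 17240550) (nat_lit 96881482)) T3.l4
  (TrL.c (I.mix (nat_lit 17240550) (nat_lit 71940500)) T1.l5
  TrL.n)))))))) (by decide +kernel)
theorem sv4 : StarV sI cl9 cl6 cl7 t1 t3 t4 :=
  (bt_n (bt_n (bt_n (bt_b bx4_0) (bt_b bx4_1)) (bt_n (bt_b bx4_2) (bt_b bx4_3))) (bt_n (bt_n (bt_b bx4_4) (bt_b bx4_5)) (bt_n (bt_b bx4_6) (bt_b bx4_7))))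
def S4 : StarD := StarD.mk cl9 cl6 cl7 1 3 t4
theorem bx5_0 : BoxOK sI cl9 cl7 cl6 t3 t1 b5_0 :=
  box_mk (TrL.c (I.pos (nat_lit 0) (nat_lit 0)) (xa (xa T3.l0 T3.l0) (xa T3.l0 (xb T3.l0 T3.l0)))
  (TrL.c (I.pos (nat_lit 0) (nat_lit 0)) T1.l4
  (TrL.c (I.pos (nat_lit 0) (nat_lit 124588530)) (xR T3.l5 (xR T3.l5 T3.l4))
  (TrL.c (I.pos (nat_lit 0) (nat_lit 96881482)) (xR T1.l5 (xR T1.l5 T1.l5))
  (TrL.c (I.pos (nat_lit 0) (nat_lit 0)) (xa T1.l6 (xa (xb (xk T1.l6 T1.l6) T1.l6) (xk (xb (xb T1.l6 T1.l6) (xs (xa T1.l6 T1.l6) (xa T1.l6 T1.l6))) (xb (xb T1.l6 T1.l6) (xs (xa T1.l6 T1.l6) (xa T1.l6 T1.l6))))))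
  (TrL.c (I.pos (nat_lit 0) (nat_lit 0)) T3.l6
  (TrL.c (I.mix (nat_lit 17240550) (nat_lit 96881482)) (xR T1.l7 (xR T1.l7 T1.l7))
  (TrL.c (I.mix (nat_lit 17240550) (nat_lit 71940500)) (xR T3.l7 T3.l7)
  TrL.n)))))))) (by decide +kernel)
theorem bx5_1 : BoxOK sI cl9 cl7 cl6 t3 t1 b5_1 :=
  box_mk (TrL.c (I.pos (nat_lit 0) (nat_lit 0)) T3.l0
  (TrL.c (I.pos (nat_lit 0) (nat_lit 0)) T1.l4
  (TrL.c (I.pos (nat_lit 0) (nat_lit 124588530)) (xR T3.l5 T3.l5)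
  (TrL.c (I.pos (nat_lit 0) (nat_lit 96881482)) T1.l5
  (TrL.c (I.pos (nat_lit 0) (nat_lit 0)) T1.l6
  (TrL.c (I.pos (nat_lit 0) (nat_lit 0)) T3.l6
  (TrL.c (I.mix (nat_lit 17240550) (nat_lit 96881482)) T1.l7
  (TrL.c (I.mix (nat_lit 17240550) (nat_lit 71940500)) T3.l7
  TrL.n)))))))) (by decide +kernel)
theorem bx5_2 : BoxOK sI cl9 cl7 cl6 t3 t1 b5_2 :=
  box_mk (TrL.c (I.pos (nat_lit 0) (nat_lit 0)) T3.l0
  (TrL.c (I.pos (nat_lit 0) (nat_lit 0)) T1.l4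
  (TrL.c (I.pos (nat_lit 0) (nat_lit 124588530)) T3.l5
  (TrL.c (I.pos (nat_lit 0) (nat_lit 96881482)) T1.l5
  (TrL.c (I.pos (nat_lit 0) (nat_lit 0)) T1.l6
  (TrL.c (I.pos (nat_lit 0) (nat_lit 0)) T3.l6
  (TrL.c (I.mix (nat_lit 17240550) (nat_lit 96881482)) T1.l7
  (TrL.c (I.mix (nat_lit 17240550) (nat_lit 71940500)) T3.l7
  TrL.n)))))))) (by decide +kernel)
theorem bx5_3 : BoxOK sI cl9 cl7 cl6 t3 t1 b5_3 :=
  box_mk (TrL.c (I.pos (nat_lit 0) (nat_lit 0)) (xb (xa (xb T3.l0 T3.l0) T3.l0) (xa (xs T3.l0 (xa (xb T3.l0 T3.l0) T3.l0)) (xs T3.l0 (xa T3.l0 T3.l0))))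
  (TrL.c (I.pos (nat_lit 0) (nat_lit 0)) T1.l4
  (TrL.c (I.pos (nat_lit 0) (nat_lit 124588530)) (xR T3.l5 (xR T3.l5 T3.l5))
  (TrL.c (I.pos (nat_lit 0) (nat_lit 96881482)) (xR T1.l5 T1.l5)
  (TrL.c (I.pos (nat_lit 0) (nat_lit 0)) (xb (xa T1.l6 (xk T1.l6 T1.l6)) (xa T1.l6 (xk T1.l6 T1.l6)))
  (TrL.c (I.pos (nat_lit 0) (nat_lit 0)) T3.l6
  (TrL.c (I.mix (nat_lit 17240550) (nat_lit 96881482)) (xR T1.l7 (xR T1.l7 T1.l7))
  (TrL.c (I.mix (nat_lit 17240550) (nat_lit 71940500)) (xR T3.l7 T3.l7)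
  TrL.n)))))))) (by decide +kernel)
theorem bx5_4 : BoxOK sI cl9 cl7 cl6 t3 t1 b5_4 :=
  box_mk (TrL.c (I.pos (nat_lit 0) (nat_lit 0)) (xa T3.l0 T3.l0)
  (TrL.c (I.pos (nat_lit 0) (nat_lit 0)) T1.l4
  (TrL.c (I.pos (nat_lit 0) (nat_lit 124588530)) T3.l5
  (TrL.c (I.pos (nat_lit 0) (nat_lit 96881482)) (xR T1.l5 T1.l5)
  (TrL.c (I.pos (nat_lit 0) (nat_lit 0)) T1.l6
  (TrL.c (I.pos (nat_lit 0) (nat_lit 0)) T3.l6
  (TrL.c (I.mix (nat_lit 17240550) (nat_lit 96881482)) T1.l7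
  (TrL.c (I.mix (nat_lit 17240550) (nat_lit 71940500)) T3.l7
  TrL.n)))))))) (by decide +kernel)
theorem bx5_5 : BoxOK sI cl9 cl7 cl6 t3 t1 b5_5 :=
  box_mk (TrL.c (I.pos (nat_lit 0) (nat_lit 0)) (xa T3.l0 T3.l0)
  (TrL.c (I.pos (nat_lit 0) (nat_lit 0)) T1.l4
  (TrL.c (I.pos (nat_lit 0) (nat_lit 124588530)) T3.l5
  (TrL.c (I.pos (nat_lit 0) (nat_lit 96881482)) T1.l5
  (TrL.c (I.pos (nat_lit 0) (nat_lit 0)) T1.l6
  (TrL.c (I.pos (nat_lit 0) (nat_lit 0)) T3.l6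
  (TrL.c (I.mix (nat_lit 17240550) (nat_lit 96881482)) T1.l7
  (TrL.c (I.mix (nat_lit 17240550) (nat_lit 71940500)) T3.l7
  TrL.n)))))))) (by decide +kernel)
theorem bx5_6 : BoxOK sI cl9 cl7 cl6 t3 t1 b5_6 :=
  box_mk (TrL.c (I.pos (nat_lit 0) (nat_lit 0)) T3.l0
  (TrL.c (I.pos (nat_lit 0) (nat_lit 0)) T1.l4
  (TrL.c (I.pos (nat_lit 0) (nat_lit 124588530)) T3.l5
  (TrL.c (I.pos (nat_lit 0) (nat_lit 96881482)) T1.l5
  (TrL.c (I.pos (nat_lit 0) (nat_lit 0)) T1.l6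
  (TrL.c (I.pos (nat_lit 0) (nat_lit 0)) T3.l6
  (TrL.c (I.mix (nat_lit 17240550) (nat_lit 96881482)) T1.l7
  (TrL.c (I.mix (nat_lit 17240550) (nat_lit 71940500)) T3.l7
  TrL.n)))))))) (by decide +kernel)
theorem bx5_7 : BoxOK sI cl9 cl7 cl6 t3 t1 b5_7 :=
  box_mk (TrL.c (I.pos (nat_lit 0) (nat_lit 0)) (xa T3.l0 T3.l0)
  (TrL.c (I.pos (nat_lit 0) (nat_lit 0)) T1.l4
  (TrL.c (I.pos (nat_lit 0) (nat_lit 124588530)) T3.l5
  (TrL.c (I.pos (nat_lit 0) (nat_lit 96881482)) T1.l5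
  (TrL.c (I.pos (nat_lit 0) (nat_lit 0)) T1.l6
  (TrL.c (I.pos (nat_lit 0) (nat_lit 0)) T3.l6
  (TrL.c (I.mix (nat_lit 17240550) (nat_lit 96881482)) T1.l7
  (TrL.c (I.mix (nat_lit 17240550) (nat_lit 71940500)) T3.l7
  TrL.n)))))))) (by decide +kernel)
theorem sv5 : StarV sI cl9 cl7 cl6 t3 t1 t5 :=
  (bt_n (bt_n (bt_n (bt_b bx5_0) (bt_b bx5_1)) (bt_n (bt_b bx5_2) (bt_b bx5_3))) (bt_n (bt_n (bt_b bx5_4) (bt_b bx5_5)) (bt_n (bt_b bx5_6) (bt_b bx5_7))))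
def S5 : StarD := StarD.mk cl9 cl7 cl6 3 1 t5
def G : List StarD := [S0, S1, S2, S3, S4, S5]
theorem so0 : StarOK sI G S0 :=
  star_mk (by decide) (by decide) rfl rfl rfl rfl rfl rfl (rfl : _ = t2) (rfl : _ = t4)
  (st_mk (Pth.l (Pth.l (Pth.l Pth.z))) (nat_lit 141315969) (nat_lit 163811795) (by decide +kernel))
  (st_mk (Pth.l (Pth.l (Pth.l Pth.z))) (nat_lit 176947332) (nat_lit 199812682) (by decide +kernel))
  (st_mk (Pth.l (Pth.l (Pth.l Pth.z))) (nat_lit 218267307) (nat_lit 241639705) (by decide +kernel)) sv0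
theorem so1 : StarOK sI G S1 :=
  star_mk (by decide) (by decide) rfl rfl rfl rfl rfl rfl (rfl : _ = t4) (rfl : _ = t2)
  (st_mk (Pth.l (Pth.l (Pth.l Pth.z))) (nat_lit 116046978) (nat_lit 134710498) (by decide +kernel))
  (st_mk (Pth.l (Pth.l (Pth.l Pth.z))) (nat_lit 151614928) (nat_lit 170629302) (by decide +kernel))
  (st_mk (Pth.l (Pth.l (Pth.l Pth.z))) (nat_lit 192881399) (nat_lit 212386892) (by decide +kernel)) sv1
theorem so2 : StarOK sI G S2 :=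
  star_mk (by decide) (by decide) rfl rfl rfl rfl rfl rfl (rfl : _ = t0) (rfl : _ = t5)
  (st_mk (Pth.l (Pth.l (Pth.l Pth.z))) (nat_lit 186992786) (nat_lit 188494965) (by decide +kernel))
  (st_mk (Pth.l (Pth.l (Pth.l Pth.z))) (nat_lit 222364781) (nat_lit 224270266) (by decide +kernel))
  (st_mk (Pth.l (Pth.l (Pth.l Pth.z))) (nat_lit 263282367) (nat_lit 265745164) (by decide +kernel)) sv2
theorem so3 : StarOK sI G S3 :=
  star_mk (by decide) (by decide) rfl rfl rfl rfl rfl rfl (rfl : _ = t5) (rfl : _ = t0)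
  (st_mk (Pth.l (Pth.l (Pth.l Pth.z))) (nat_lit 115647824) (nat_lit 134290968) (by decide +kernel))
  (st_mk (Pth.l (Pth.l (Pth.l Pth.z))) (nat_lit 150933796) (nat_lit 169951014) (by decide +kernel))
  (st_mk (Pth.l (Pth.l (Pth.l Pth.z))) (nat_lit 191777742) (nat_lit 211327647) (by decide +kernel)) sv3
theorem so4 : StarOK sI G S4 :=
  star_mk (by decide) (by decide) rfl rfl rfl rfl rfl rfl (rfl : _ = t1) (rfl : _ = t3)
  (st_mk (Pth.l (Pth.l (Pth.l Pth.z))) (nat_lit 186368559) (nat_lit 187693101) (by decide +kernel))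
  (st_mk (Pth.l (Pth.l (Pth.l Pth.z))) (nat_lit 221481516) (nat_lit 223131557) (by decide +kernel))
  (st_mk (Pth.l (Pth.l (Pth.l Pth.z))) (nat_lit 262043063) (nat_lit 264140729) (by decide +kernel)) sv4
theorem so5 : StarOK sI G S5 :=
  star_mk (by decide) (by decide) rfl rfl rfl rfl rfl rfl (rfl : _ = t3) (rfl : _ = t1)
  (st_mk (Pth.l (Pth.l (Pth.l Pth.z))) (nat_lit 140346791) (nat_lit 162623201) (by decide +kernel))
  (st_mk (Pth.l (Pth.l (Pth.l Pth.z))) (nat_lit 175437342) (nat_lit 198028395) (by decide +kernel))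
  (st_mk (Pth.l (Pth.l (Pth.l Pth.z))) (nat_lit 215979502) (nat_lit 239008952) (by decide +kernel)) sv5
theorem ok : GroupOK (nat_lit 0) (nat_lit 91291648) G := grp_mk (allS_c so0 (allS_c so1 (allS_c so2 (allS_c so3 (allS_c so4 (allS_c so5 allS_n))))))
theorem cov : GCov G cl6 cl7 cl9 := cov_mk
  ⟨0, by decide, rfl, rfl, rfl⟩ ⟨1, by decide, rfl, rfl, rfl⟩ ⟨2, by decide, rfl, rfl, rfl⟩ ⟨3, by decide, rfl, rfl, rfl⟩ ⟨4, by decide, rfl, rfl, rfl⟩ ⟨5, by decide, rfl, rfl, rfl⟩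
end Q345_0

namespace Q345_1
def sI : I := I.pos (nat_lit 91226112) (nat_lit 150339584)
def b0_0 : Bx := Bx.mk (St.mk (I.pos (nat_lit 153288704) (nat_lit 288817152)) (I.mix (nat_lit 31948800) (nat_lit 56967168)) (I.mix (nat_lit 102416384) (nat_lit 85573632)) (I.pos (nat_lit 130187264) (nat_lit 381911040)) (I.mix (nat_lit 87588864) (nat_lit 59326464)) (I.mix (nat_lit 70565888) (nat_lit 49659904)) (I.mix (nat_lit 111312896) (nat_lit 75988992)))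
  false (nat_lit 0)
def b0_1 : Bx := Bx.mk (St.mk (I.mix (nat_lit 26509312) (nat_lit 125796352)) (I.mix (nat_lit 11468800) (nat_lit 32260096)) (I.mix (nat_lit 22282240) (nat_lit 17563648)) (I.pos (nat_lit 39321600) (nat_lit 119439360)) (I.mix (nat_lit 32309248) (nat_lit 30867456)) (I.mix (nat_lit 30326784) (nat_lit 19759104)) (I.mix (nat_lit 21020672) (nat_lit 12713984)))
  false (nat_lit 0)
def b0_2 : Bx := Bx.mk (St.mk (I.pos (nat_lit 90488832) (nat_lit 141770752)) (I.mix (nat_lit 57425920) (nat_lit 10911744)) (I.mix (nat_lit 59179008) (nat_lit 1146880)) (I.pos (nat_lit 75726848) (nat_lit 135774208)) (I.mix (nat_lit 87408640) (nat_lit 31801344)) (I.mix (nat_lit 41041920) (nat_lit 79380480)) (I.mix (nat_lit 28327936) (nat_lit 58195968)))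
  false (nat_lit 0)
def b0_3 : Bx := Bx.mk (St.mk (I.mix (nat_lit 40026112) (nat_lit 71761920)) (I.mix (nat_lit 30998528) (nat_lit 7831552)) (I.mix (nat_lit 20529152) (nat_lit 1146880)) (I.pos (nat_lit 40943616) (nat_lit 82264064)) (I.mix (nat_lit 32620544) (nat_lit 16269312)) (I.mix (nat_lit 15908864) (nat_lit 27099136)) (I.mix (nat_lit 7503872) (nat_lit 10764288)))
  false (nat_lit 0)
def b0_4 : Bx := Bx.mk (St.mk (I.pos (nat_lit 94404608) (nat_lit 172441600)) (I.neg (nat_lit 4685824) (nat_lit 60293120)) (I.neg (nat_lit 4423680) (nat_lit 62242816)) (I.pos (nat_lit 91652096) (nat_lit 176619520)) (I.mix (nat_lit 82100224) (nat_lit 47595520)) (I.mix (nat_lit 40878080) (nat_lit 65175552)) (I.mix (nat_lit 32178176) (nat_lit 61374464)))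
  false (nat_lit 0)
def b0_5 : Bx := Bx.mk (St.mk (I.mix (nat_lit 23379968) (nat_lit 86441984)) (I.mix (nat_lit 32653312) (nat_lit 5046272)) (I.mix (nat_lit 22822912) (nat_lit 884736)) (I.pos (nat_lit 38010880) (nat_lit 91111424)) (I.mix (nat_lit 33980416) (nat_lit 24576000)) (I.mix (nat_lit 18268160) (nat_lit 31145984)) (I.mix (nat_lit 10371072) (nat_lit 16891904)))
  false (nat_lit 0)
def b0_6 : Bx := Bx.mk (St.mk (I.mix (nat_lit 40927232) (nat_lit 121241600)) (I.mix (nat_lit 14270464) (nat_lit 35504128)) (I.mix (nat_lit 13418496) (nat_lit 19775488)) (I.pos (nat_lit 39321600) (nat_lit 109051904)) (I.mix (nat_lit 42369024) (nat_lit 27639808)) (I.mix (nat_lit 43663360) (nat_lit 26443776)) (I.mix (nat_lit 24150016) (nat_lit 14991360)))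
  false (nat_lit 0)
def b0_7 : Bx := Bx.mk (St.mk (I.pos (nat_lit 142311424) (nat_lit 217841664)) (I.mix (nat_lit 49709056) (nat_lit 65503232)) (I.mix (nat_lit 60882944) (nat_lit 92569600)) (I.pos (nat_lit 119799808) (nat_lit 243367936)) (I.mix (nat_lit 127041536) (nat_lit 56377344)) (I.mix (nat_lit 126681088) (nat_lit 71319552)) (I.mix (nat_lit 138182656) (nat_lit 73777152)))
  false (nat_lit 0)
def t0 : BTr := (BTr.n (BTr.n (BTr.n (BTr.b b0_0) (BTr.b b0_1)) (BTr.n (BTr.b b0_2) (BTr.b b0_3))) (BTr.n (BTr.n (BTr.b b0_4) (BTr.b b0_5)) (BTr.n (BTr.b b0_6) (BTr.b b0_7))))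
namespace T0
def l0 : Tr := Tr.L (Pth.l (Pth.l (Pth.l Pth.z)))
def l1 : Tr := Tr.L (Pth.l (Pth.l (Pth.r Pth.z)))
def l2 : Tr := Tr.L (Pth.l (Pth.r (Pth.l Pth.z)))
def l3 : Tr := Tr.L (Pth.l (Pth.r (Pth.r Pth.z)))
def l4 : Tr := Tr.L (Pth.r (Pth.l (Pth.l Pth.z)))
def l5 : Tr := Tr.L (Pth.r (Pth.l (Pth.r Pth.z)))
def l6 : Tr := Tr.L (Pth.r (Pth.r (Pth.l Pth.z)))
def l7 : Tr := Tr.L (Pth.r (Pth.r (Pth.r Pth.z)))
end T0
def b1_0 : Bx := Bx.mk (St.mk (I.pos (nat_lit 153370624) (nat_lit 287293440)) (I.mix (nat_lit 25952256) (nat_lit 51838976)) (I.mix (nat_lit 72204288) (nat_lit 84901888)) (I.pos (nat_lit 103088128) (nat_lit 351289344)) (I.mix (nat_lit 80674816) (nat_lit 57393152)) (I.mix (nat_lit 71270400) (nat_lit 50266112)) (I.mix (nat_lit 113917952) (nat_lit 73236480)))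
  false (nat_lit 0)
def b1_1 : Bx := Bx.mk (St.mk (I.mix (nat_lit 16662528) (nat_lit 139493376)) (I.mix (nat_lit 8945664) (nat_lit 25968640)) (I.mix (nat_lit 14532608) (nat_lit 19890176)) (I.pos (nat_lit 13123584) (nat_lit 105218048)) (I.mix (nat_lit 29540352) (nat_lit 25788416)) (I.mix (nat_lit 28917760) (nat_lit 17481728)) (I.mix (nat_lit 22740992) (nat_lit 13090816)))
  false (nat_lit 0)
def b1_2 : Bx := Bx.mk (St.mk (I.pos (nat_lit 104398848) (nat_lit 152289280)) (I.mix (nat_lit 52150272) (nat_lit 9830400)) (I.mix (nat_lit 53231616) (nat_lit 4636672)) (I.pos (nat_lit 60817408) (nat_lit 119308288)) (I.mix (nat_lit 82657280) (nat_lit 30932992)) (I.mix (nat_lit 38125568) (nat_lit 76726272)) (I.mix (nat_lit 26886144) (nat_lit 62898176)))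
  false (nat_lit 0)
def b1_3 : Bx := Bx.mk (St.mk (I.mix (nat_lit 26804224) (nat_lit 96452608)) (I.mix (nat_lit 27459584) (nat_lit 4112384)) (I.mix (nat_lit 19398656) (nat_lit 1556480)) (I.pos (nat_lit 15122432) (nat_lit 68993024)) (I.mix (nat_lit 31375360) (nat_lit 12943360)) (I.mix (nat_lit 15859712) (nat_lit 25772032)) (I.mix (nat_lit 8355840) (nat_lit 13287424)))
  false (nat_lit 0)
def b1_4 : Bx := Bx.mk (St.mk (I.pos (nat_lit 108380160) (nat_lit 184205312)) (I.neg (nat_lit 1228800) (nat_lit 55558144)) (I.mix (nat_lit 57409536) (nat_lit 344064)) (I.pos (nat_lit 79347712) (nat_lit 162643968)) (I.mix (nat_lit 74858496) (nat_lit 45989888)) (I.mix (nat_lit 42991616) (nat_lit 63111168)) (I.mix (nat_lit 36028416) (nat_lit 62865408)))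
  false (nat_lit 0)
def b1_5 : Bx := Bx.mk (St.mk (I.mix (nat_lit 16613376) (nat_lit 107118592)) (I.mix (nat_lit 29360128) (nat_lit 4751360)) (I.mix (nat_lit 20660224) (nat_lit 2326528)) (I.pos (nat_lit 14303232) (nat_lit 77692928)) (I.mix (nat_lit 30425088) (nat_lit 22102016)) (I.mix (nat_lit 15089664) (nat_lit 27639808)) (I.mix (nat_lit 9191424) (nat_lit 17301504)))
  false (nat_lit 0)
def b1_6 : Bx := Bx.mk (St.mk (I.pos (nat_lit 150650880) (nat_lit 217808896)) (I.mix (nat_lit 36995072) (nat_lit 57163776)) (I.mix (nat_lit 39485440) (nat_lit 90193920)) (I.pos (nat_lit 107806720) (nat_lit 215498752)) (I.mix (nat_lit 118226944) (nat_lit 54280192)) (I.mix (nat_lit 121602048) (nat_lit 64241664)) (I.mix (nat_lit 143032320) (nat_lit 68222976)))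
  false (nat_lit 0)
def b1_7 : Bx := Bx.mk (St.mk (I.mix (nat_lit 27852800) (nat_lit 128434176)) (I.mix (nat_lit 14630912) (nat_lit 31604736)) (I.mix (nat_lit 12058624) (nat_lit 23445504)) (I.pos (nat_lit 13697024) (nat_lit 93126656)) (I.mix (nat_lit 43352064) (nat_lit 24739840)) (I.mix (nat_lit 44253184) (nat_lit 23822336)) (I.mix (nat_lit 28639232) (nat_lit 14286848)))
  false (nat_lit 0)
def t1 : BTr := (BTr.n (BTr.n (BTr.n (BTr.b b1_0) (BTr.b b1_1)) (BTr.n (BTr.b b1_2) (BTr.b b1_3))) (BTr.n (BTr.n (BTr.b b1_4) (BTr.b b1_5)) (BTr.n (BTr.b b1_6) (BTr.b b1_7))))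
namespace T1
def l0 : Tr := Tr.L (Pth.l (Pth.l (Pth.l Pth.z)))
def l1 : Tr := Tr.L (Pth.l (Pth.l (Pth.r Pth.z)))
def l2 : Tr := Tr.L (Pth.l (Pth.r (Pth.l Pth.z)))
def l3 : Tr := Tr.L (Pth.l (Pth.r (Pth.r Pth.z)))
def l4 : Tr := Tr.L (Pth.r (Pth.l (Pth.l Pth.z)))
def l5 : Tr := Tr.L (Pth.r (Pth.l (Pth.r Pth.z)))
def l6 : Tr := Tr.L (Pth.r (Pth.r (Pth.l Pth.z)))
def l7 : Tr := Tr.L (Pth.r (Pth.r (Pth.r Pth.z)))
end T1
def b2_0 : Bx := Bx.mk (St.mk (I.pos (nat_lit 153288704) (nat_lit 288718848)) (I.mix (nat_lit 28917760) (nat_lit 60899328)) (I.mix (nat_lit 93159424) (nat_lit 93372416)) (I.pos (nat_lit 174784512) (nat_lit 400211968)) (I.mix (nat_lit 91422720) (nat_lit 70598656)) (I.mix (nat_lit 84934656) (nat_lit 55771136)) (I.mix (nat_lit 128663552) (nat_lit 84295680)))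
  false (nat_lit 59164723)
def b2_1 : Bx := Bx.mk (St.mk (I.mix (nat_lit 32440320) (nat_lit 103956480)) (I.mix (nat_lit 10387456) (nat_lit 39763968)) (I.mix (nat_lit 20234240) (nat_lit 15187968)) (I.pos (nat_lit 83722240) (nat_lit 126697472)) (I.mix (nat_lit 34832384) (nat_lit 36110336)) (I.mix (nat_lit 35946496) (nat_lit 22249472)) (I.mix (nat_lit 22020096) (nat_lit 13156352)))
  false (nat_lit 0)
def b2_2 : Bx := Bx.mk (St.mk (I.pos (nat_lit 77398016) (nat_lit 126517248)) (I.mix (nat_lit 62406656) (nat_lit 12386304)) (I.neg (nat_lit 802816) (nat_lit 58966016)) (I.pos (nat_lit 110870528) (nat_lit 148357120)) (I.mix (nat_lit 84131840) (nat_lit 34897920)) (I.mix (nat_lit 38928384) (nat_lit 70467584)) (I.mix (nat_lit 27623424) (nat_lit 48578560)))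
  false (nat_lit 0)
def b2_3 : Bx := Bx.mk (St.mk (I.mix (nat_lit 51920896) (nat_lit 28688384)) (I.mix (nat_lit 33832960) (nat_lit 7716864)) (I.mix (nat_lit 13451264) (nat_lit 2949120)) (I.pos (nat_lit 84328448) (nat_lit 98762752)) (I.mix (nat_lit 30228480) (nat_lit 22069248)) (I.mix (nat_lit 16154624) (nat_lit 28049408)) (I.mix (nat_lit 10190848) (nat_lit 6193152)))
  false (nat_lit 0)
def b2_4 : Bx := Bx.mk (St.mk (I.pos (nat_lit 86048768) (nat_lit 168935424)) (I.neg (nat_lit 4653056) (nat_lit 61161472)) (I.neg (nat_lit 2375680) (nat_lit 58359808)) (I.pos (nat_lit 122339328) (nat_lit 195592192)) (I.mix (nat_lit 74006528) (nat_lit 44236800)) (I.mix (nat_lit 34177024) (nat_lit 64487424)) (I.mix (nat_lit 27410432) (nat_lit 54951936)))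
  false (nat_lit 0)
def b2_5 : Bx := Bx.mk (St.mk (I.mix (nat_lit 31358976) (nat_lit 50331648)) (I.mix (nat_lit 34308096) (nat_lit 5750784)) (I.mix (nat_lit 15237120) (nat_lit 1605632)) (I.pos (nat_lit 83345408) (nat_lit 98844672)) (I.mix (nat_lit 27148288) (nat_lit 24559616)) (I.mix (nat_lit 16711680) (nat_lit 27262976)) (I.mix (nat_lit 7864320) (nat_lit 9830400)))
  false (nat_lit 0)
def b2_6 : Bx := Bx.mk (St.mk (I.pos (nat_lit 135544832) (nat_lit 212975616)) (I.mix (nat_lit 44154880) (nat_lit 67026944)) (I.mix (nat_lit 44204032) (nat_lit 95617024)) (I.pos (nat_lit 158302208) (nat_lit 260194304)) (I.mix (nat_lit 118964224) (nat_lit 54738944)) (I.mix (nat_lit 111788032) (nat_lit 65437696)) (I.mix (nat_lit 111558656) (nat_lit 61489152)))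
  false (nat_lit 39596877)
def b2_7 : Bx := Bx.mk (St.mk (I.mix (nat_lit 54116352) (nat_lit 77463552)) (I.mix (nat_lit 11550720) (nat_lit 36864000)) (I.mix (nat_lit 16220160) (nat_lit 13697024)) (I.pos (nat_lit 83574784) (nat_lit 111083520)) (I.mix (nat_lit 27131904) (nat_lit 27197440)) (I.mix (nat_lit 27967488) (nat_lit 16744448)) (I.mix (nat_lit 8323072) (nat_lit 9830400)))
  false (nat_lit 0)
def t2 : BTr := (BTr.n (BTr.n (BTr.n (BTr.b b2_0) (BTr.b b2_1)) (BTr.n (BTr.b b2_2) (BTr.b b2_3))) (BTr.n (BTr.n (BTr.b b2_4) (BTr.b b2_5)) (BTr.n (BTr.b b2_6) (BTr.b b2_7))))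
namespace T2
def l0 : Tr := Tr.L (Pth.l (Pth.l (Pth.l Pth.z)))
def l1 : Tr := Tr.L (Pth.l (Pth.l (Pth.r Pth.z)))
def l2 : Tr := Tr.L (Pth.l (Pth.r (Pth.l Pth.z)))
def l3 : Tr := Tr.L (Pth.l (Pth.r (Pth.r Pth.z)))
def l4 : Tr := Tr.L (Pth.r (Pth.l (Pth.l Pth.z)))
def l5 : Tr := Tr.L (Pth.r (Pth.l (Pth.r Pth.z)))
def l6 : Tr := Tr.L (Pth.r (Pth.r (Pth.l Pth.z)))
def l7 : Tr := Tr.L (Pth.r (Pth.r (Pth.r Pth.z)))
end T2
def b3_0 : Bx := Bx.mk (St.mk (I.pos (nat_lit 153354240) (nat_lit 287670272)) (I.mix (nat_lit 22151168) (nat_lit 48857088)) (I.mix (nat_lit 45629440) (nat_lit 94224384)) (I.pos (nat_lit 102760448) (nat_lit 347095040)) (I.mix (nat_lit 84459520) (nat_lit 62799872)) (I.mix (nat_lit 83591168) (nat_lit 57589760)) (I.mix (nat_lit 132366336) (nat_lit 75923456)))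
  false (nat_lit 0)
def b3_1 : Bx := Bx.mk (St.mk (I.pos (nat_lit 111050752) (nat_lit 182517760)) (I.neg (nat_lit 5668864) (nat_lit 56573952)) (I.mix (nat_lit 52035584) (nat_lit 6520832)) (I.pos (nat_lit 80560128) (nat_lit 161595392)) (I.mix (nat_lit 73039872) (nat_lit 45580288)) (I.mix (nat_lit 39436288) (nat_lit 64520192)) (I.mix (nat_lit 32145408) (nat_lit 65454080)))
  false (nat_lit 0)
def b3_2 : Bx := Bx.mk (St.mk (I.mix (nat_lit 15663104) (nat_lit 109035520)) (I.mix (nat_lit 29540352) (nat_lit 3571712)) (I.mix (nat_lit 17645568) (nat_lit 6586368)) (I.pos (nat_lit 14352384) (nat_lit 78643200)) (I.mix (nat_lit 27934720) (nat_lit 19709952)) (I.mix (nat_lit 14385152) (nat_lit 22855680)) (I.mix (nat_lit 8404992) (nat_lit 14139392)))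
  false (nat_lit 0)
def b3_3 : Bx := Bx.mk (St.mk (I.pos (nat_lit 152682496) (nat_lit 216268800)) (I.mix (nat_lit 39682048) (nat_lit 57032704)) (I.mix (nat_lit 35946496) (nat_lit 99483648)) (I.pos (nat_lit 108937216) (nat_lit 211189760)) (I.mix (nat_lit 126894080) (nat_lit 51462144)) (I.mix (nat_lit 130891776) (nat_lit 64094208)) (I.mix (nat_lit 157073408) (nat_lit 65650688)))
  false (nat_lit 0)
def b3_4 : Bx := Bx.mk (St.mk (I.mix (nat_lit 28475392) (nat_lit 126828544)) (I.mix (nat_lit 14090240) (nat_lit 32096256)) (I.mix (nat_lit 7553024) (nat_lit 29097984)) (I.pos (nat_lit 13811712) (nat_lit 92405760)) (I.mix (nat_lit 47104000) (nat_lit 23412736)) (I.mix (nat_lit 42156032) (nat_lit 25362432)) (I.mix (nat_lit 26902528) (nat_lit 15171584)))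
  false (nat_lit 0)
def b3_5 : Bx := Bx.mk (St.mk (I.pos (nat_lit 39878656) (nat_lit 134529024)) (I.mix (nat_lit 7503872) (nat_lit 23511040)) (I.mix (nat_lit 8060928) (nat_lit 22151168)) (I.pos (nat_lit 23347200) (nat_lit 103055360)) (I.mix (nat_lit 34095104) (nat_lit 28622848)) (I.mix (nat_lit 34684928) (nat_lit 19415040)) (I.mix (nat_lit 27525120) (nat_lit 14712832)))
  false (nat_lit 0)
def b3_6 : Bx := Bx.mk (St.mk (I.pos (nat_lit 105398272) (nat_lit 155287552)) (I.mix (nat_lit 56721408) (nat_lit 10158080)) (I.mix (nat_lit 53837824) (nat_lit 10928128)) (I.pos (nat_lit 61915136) (nat_lit 126484480)) (I.mix (nat_lit 83591168) (nat_lit 34226176)) (I.mix (nat_lit 38076416) (nat_lit 78118912)) (I.mix (nat_lit 29294592) (nat_lit 63471616)))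
  false (nat_lit 0)
def b3_7 : Bx := Bx.mk (St.mk (I.mix (nat_lit 22872064) (nat_lit 114065408)) (I.mix (nat_lit 27181056) (nat_lit 5603328)) (I.mix (nat_lit 15368192) (nat_lit 3506176)) (I.pos (nat_lit 14794752) (nat_lit 74383360)) (I.mix (nat_lit 28688384) (nat_lit 15384576)) (I.mix (nat_lit 14843904) (nat_lit 27983872)) (I.mix (nat_lit 7782400) (nat_lit 14352384)))
  false (nat_lit 0)
def t3 : BTr := (BTr.n (BTr.n (BTr.n (BTr.b b3_0) (BTr.b b3_1)) (BTr.n (BTr.b b3_2) (BTr.b b3_3))) (BTr.n (BTr.n (BTr.b b3_4) (BTr.b b3_5)) (BTr.n (BTr.b b3_6) (BTr.b b3_7))))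
namespace T3
def l0 : Tr := Tr.L (Pth.l (Pth.l (Pth.l Pth.z)))
def l1 : Tr := Tr.L (Pth.l (Pth.l (Pth.r Pth.z)))
def l2 : Tr := Tr.L (Pth.l (Pth.r (Pth.l Pth.z)))
def l3 : Tr := Tr.L (Pth.l (Pth.r (Pth.r Pth.z)))
def l4 : Tr := Tr.L (Pth.r (Pth.l (Pth.l Pth.z)))
def l5 : Tr := Tr.L (Pth.r (Pth.l (Pth.r Pth.z)))
def l6 : Tr := Tr.L (Pth.r (Pth.r (Pth.l Pth.z)))
def l7 : Tr := Tr.L (Pth.r (Pth.r (Pth.r Pth.z)))
end T3
def b4_0 : Bx := Bx.mk (St.mk (I.pos (nat_lit 153190400) (nat_lit 290439168)) (I.mix (nat_lit 22069248) (nat_lit 57524224)) (I.mix (nat_lit 64995328) (nat_lit 96518144)) (I.pos (nat_lit 173916160) (nat_lit 399884288)) (I.mix (nat_lit 89456640) (nat_lit 67616768)) (I.mix (nat_lit 82640896) (nat_lit 54050816)) (I.mix (nat_lit 127221760) (nat_lit 77447168)))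
  false (nat_lit 55130874)
def b4_1 : Bx := Bx.mk (St.mk (I.pos (nat_lit 91734016) (nat_lit 170311680)) (I.neg (nat_lit 5423104) (nat_lit 61865984)) (I.mix (nat_lit 53805056) (nat_lit 7405568)) (I.pos (nat_lit 126091264) (nat_lit 196706304)) (I.mix (nat_lit 74809344) (nat_lit 46907392)) (I.mix (nat_lit 36864000) (nat_lit 66584576)) (I.mix (nat_lit 30457856) (nat_lit 55656448)))
  false (nat_lit 0)
def b4_2 : Bx := Bx.mk (St.mk (I.mix (nat_lit 30752768) (nat_lit 51200000)) (I.mix (nat_lit 34553856) (nat_lit 7421952)) (I.mix (nat_lit 11108352) (nat_lit 6291456)) (I.pos (nat_lit 83787776) (nat_lit 99188736)) (I.mix (nat_lit 25395200) (nat_lit 27508736)) (I.mix (nat_lit 16613376) (nat_lit 27803648)) (I.mix (nat_lit 7176192) (nat_lit 9617408)))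
  false (nat_lit 0)
def b4_3 : Bx := Bx.mk (St.mk (I.pos (nat_lit 136740864) (nat_lit 210780160)) (I.mix (nat_lit 41091072) (nat_lit 66027520)) (I.mix (nat_lit 34390016) (nat_lit 103776256)) (I.pos (nat_lit 160219136) (nat_lit 255574016)) (I.mix (nat_lit 124993536) (nat_lit 59768832)) (I.mix (nat_lit 118865920) (nat_lit 63340544)) (I.mix (nat_lit 121454592) (nat_lit 59785216)))
  false (nat_lit 36795955)
def b4_4 : Bx := Bx.mk (St.mk (I.mix (nat_lit 54902784) (nat_lit 76447744)) (I.mix (nat_lit 11780096) (nat_lit 37748736)) (I.mix (nat_lit 12238848) (nat_lit 18644992)) (I.pos (nat_lit 83984384) (nat_lit 110723072)) (I.mix (nat_lit 36290560) (nat_lit 25395200)) (I.mix (nat_lit 35225600) (nat_lit 19349504)) (I.mix (nat_lit 13500416) (nat_lit 9617408)))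
  false (nat_lit 0)
def b4_5 : Bx := Bx.mk (St.mk (I.mix (nat_lit 26001408) (nat_lit 102694912)) (I.mix (nat_lit 8290304) (nat_lit 39124992)) (I.mix (nat_lit 13254656) (nat_lit 19890176)) (I.pos (nat_lit 83329024) (nat_lit 126156800)) (I.mix (nat_lit 36782080) (nat_lit 31309824)) (I.mix (nat_lit 34291712) (nat_lit 21823488)) (I.mix (nat_lit 21544960) (nat_lit 13877248)))
  false (nat_lit 0)
def b4_6 : Bx := Bx.mk (St.mk (I.pos (nat_lit 77791232) (nat_lit 128352256)) (I.mix (nat_lit 63225856) (nat_lit 11812864)) (I.mix (nat_lit 53035008) (nat_lit 3702784)) (I.pos (nat_lit 111411200) (nat_lit 150568960)) (I.mix (nat_lit 78577664) (nat_lit 31145984)) (I.mix (nat_lit 37945344) (nat_lit 64749568)) (I.mix (nat_lit 26886144) (nat_lit 43155456)))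
  false (nat_lit 0)
def b4_7 : Bx := Bx.mk (St.mk (I.mix (nat_lit 46448640) (nat_lit 29884416)) (I.mix (nat_lit 33308672) (nat_lit 4685824)) (I.mix (nat_lit 8306688) (nat_lit 7094272)) (I.pos (nat_lit 84295680) (nat_lit 98369536)) (I.mix (nat_lit 26673152) (nat_lit 22691840)) (I.mix (nat_lit 16416768) (nat_lit 27000832)) (I.mix (nat_lit 9666560) (nat_lit 6537216)))
  false (nat_lit 0)
def t4 : BTr := (BTr.n (BTr.n (BTr.n (BTr.b b4_0) (BTr.b b4_1)) (BTr.n (BTr.b b4_2) (BTr.b b4_3))) (BTr.n (BTr.n (BTr.b b4_4) (BTr.b b4_5)) (BTr.n (BTr.b b4_6) (BTr.b b4_7))))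
namespace T4
def l0 : Tr := Tr.L (Pth.l (Pth.l (Pth.l Pth.z)))
def l1 : Tr := Tr.L (Pth.l (Pth.l (Pth.r Pth.z)))
def l2 : Tr := Tr.L (Pth.l (Pth.r (Pth.l Pth.z)))
def l3 : Tr := Tr.L (Pth.l (Pth.r (Pth.r Pth.z)))
def l4 : Tr := Tr.L (Pth.r (Pth.l (Pth.l Pth.z)))
def l5 : Tr := Tr.L (Pth.r (Pth.l (Pth.r Pth.z)))
def l6 : Tr := Tr.L (Pth.r (Pth.r (Pth.l Pth.z)))
def l7 : Tr := Tr.L (Pth.r (Pth.r (Pth.r Pth.z)))
end T4
def b5_0 : Bx := Bx.mk (St.mk (I.pos (nat_lit 153452544) (nat_lit 285851648)) (I.mix (nat_lit 19726336) (nat_lit 51822592)) (I.mix (nat_lit 41041920) (nat_lit 98238464)) (I.pos (nat_lit 129646592) (nat_lit 366968832)) (I.mix (nat_lit 85835776) (nat_lit 63258624)) (I.mix (nat_lit 89178112) (nat_lit 56016896)) (I.mix (nat_lit 137871360) (nat_lit 70959104)))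
  false (nat_lit 36209086)
def b5_1 : Bx := Bx.mk (St.mk (I.pos (nat_lit 100745216) (nat_lit 180551680)) (I.neg (nat_lit 8503296) (nat_lit 62521344)) (I.mix (nat_lit 52363264) (nat_lit 8388608)) (I.pos (nat_lit 98189312) (nat_lit 186531840)) (I.mix (nat_lit 75759616) (nat_lit 42860544)) (I.mix (nat_lit 37273600) (nat_lit 53641216)) (I.mix (nat_lit 31391744) (nat_lit 48316416)))
  false (nat_lit 0)
def b5_2 : Bx := Bx.mk (St.mk (I.mix (nat_lit 25444352) (nat_lit 90161152)) (I.mix (nat_lit 32669696) (nat_lit 4931584)) (I.mix (nat_lit 15106048) (nat_lit 10174464)) (I.pos (nat_lit 40714240) (nat_lit 92389376)) (I.mix (nat_lit 28639232) (nat_lit 23740416)) (I.mix (nat_lit 17350656) (nat_lit 24133632)) (I.mix (nat_lit 9256960) (nat_lit 12550144)))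
  false (nat_lit 0)
def b5_3 : Bx := Bx.mk (St.mk (I.pos (nat_lit 144277504) (nat_lit 213811200)) (I.mix (nat_lit 39337984) (nat_lit 62750720)) (I.mix (nat_lit 30785536) (nat_lit 107855872)) (I.pos (nat_lit 123617280) (nat_lit 232931328)) (I.mix (nat_lit 133840896) (nat_lit 53067776)) (I.mix (nat_lit 134987776) (nat_lit 72073216)) (I.mix (nat_lit 154222592) (nat_lit 70615040)))
  false (nat_lit 33785401)
def b5_4 : Bx := Bx.mk (St.mk (I.mix (nat_lit 42303488) (nat_lit 110821376)) (I.mix (nat_lit 14303232) (nat_lit 35749888)) (I.mix (nat_lit 5799936) (nat_lit 30130176)) (I.pos (nat_lit 40026112) (nat_lit 106070016)) (I.mix (nat_lit 48676864) (nat_lit 23724032)) (I.mix (nat_lit 41762816) (nat_lit 26820608)) (I.mix (nat_lit 23740416) (nat_lit 15925248)))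
  false (nat_lit 0)
def b5_5 : Bx := Bx.mk (St.mk (I.mix (nat_lit 38322176) (nat_lit 124043264)) (I.mix (nat_lit 7602176) (nat_lit 27262976)) (I.mix (nat_lit 7700480) (nat_lit 23396352)) (I.pos (nat_lit 32555008) (nat_lit 117506048)) (I.mix (nat_lit 35373056) (nat_lit 31178752)) (I.mix (nat_lit 38912000) (nat_lit 20725760)) (I.mix (nat_lit 27344896) (nat_lit 14794752)))
  false (nat_lit 0)
def b5_6 : Bx := Bx.mk (St.mk (I.pos (nat_lit 92602368) (nat_lit 147767296)) (I.mix (nat_lit 63193088) (nat_lit 11288576)) (I.mix (nat_lit 54362112) (nat_lit 11108352)) (I.pos (nat_lit 78331904) (nat_lit 145129472)) (I.mix (nat_lit 86048768) (nat_lit 36651008)) (I.mix (nat_lit 42713088) (nat_lit 77594624)) (I.mix (nat_lit 31375360) (nat_lit 56115200)))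
  false (nat_lit 0)
def b5_7 : Bx := Bx.mk (St.mk (I.mix (nat_lit 31129600) (nat_lit 91455488)) (I.neg (nat_lit 2408448) (nat_lit 31948800)) (I.mix (nat_lit 15990784) (nat_lit 7356416)) (I.pos (nat_lit 40763392) (nat_lit 87523328)) (I.mix (nat_lit 27983872) (nat_lit 18464768)) (I.mix (nat_lit 14270464) (nat_lit 29048832)) (I.mix (nat_lit 6127616) (nat_lit 11239424)))
  false (nat_lit 0)
def t5 : BTr := (BTr.n (BTr.n (BTr.n (BTr.b b5_0) (BTr.b b5_1)) (BTr.n (BTr.b b5_2) (BTr.b b5_3))) (BTr.n (BTr.n (BTr.b b5_4) (BTr.b b5_5)) (BTr.n (BTr.b b5_6) (BTr.b b5_7))))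
namespace T5
def l0 : Tr := Tr.L (Pth.l (Pth.l (Pth.l Pth.z)))
def l1 : Tr := Tr.L (Pth.l (Pth.l (Pth.r Pth.z)))
def l2 : Tr := Tr.L (Pth.l (Pth.r (Pth.l Pth.z)))
def l3 : Tr := Tr.L (Pth.l (Pth.r (Pth.r Pth.z)))
def l4 : Tr := Tr.L (Pth.r (Pth.l (Pth.l Pth.z)))
def l5 : Tr := Tr.L (Pth.r (Pth.l (Pth.r Pth.z)))
def l6 : Tr := Tr.L (Pth.r (Pth.r (Pth.l Pth.z)))
def l7 : Tr := Tr.L (Pth.r (Pth.r (Pth.r Pth.z)))
end T5
theorem bx0_0 : BoxOK sI cl6 cl7 cl9 t2 t4 b0_0 :=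
  box_mk (TrL.c (I.pos (nat_lit 0) (nat_lit 0)) (xa (xb (xa T2.l0 T2.l0) (xa (xb T2.l0 T2.l0) (xb T2.l0 (xa T2.l0 T2.l0)))) (xa (xb T2.l0 (xb T2.l0 (xa T2.l0 T2.l0))) (xb T2.l6 T2.l6)))
  (TrL.c (I.pos (nat_lit 0) (nat_lit 0)) (xa T4.l1 T4.l1)
  (TrL.c (I.pos (nat_lit 0) (nat_lit 89480386)) (xR (xR T2.l1 T2.l1) (xR T2.l1 T2.l1))
  (TrL.c (I.pos (nat_lit 0) (nat_lit 41530880)) (xR T4.l2 T4.l2)
  (TrL.c (I.pos (nat_lit 0) (nat_lit 0)) (xa (xb T4.l3 T4.l3) (xb (xa T4.l3 (xb (xa T4.l3 T4.l3) T4.l3)) (xa T4.l3 (xb T4.l3 (xa T4.l3 T4.l3)))))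
  (TrL.c (I.pos (nat_lit 0) (nat_lit 0)) T2.l2
  (TrL.c (I.mix (nat_lit 41527258) (nat_lit 41530880)) (xR (xR T4.l4 T4.l4) T4.l5)
  (TrL.c (I.mix (nat_lit 41527258) (nat_lit 4274)) (xR T2.l3 T2.l3)
  TrL.n)))))))) (by decide +kernel)
theorem bx0_1 : BoxOK sI cl6 cl7 cl9 t2 t4 b0_1 :=
  box_mk (TrL.c (I.pos (nat_lit 0) (nat_lit 0)) (xa T2.l0 T2.l0)
  (TrL.c (I.pos (nat_lit 0) (nat_lit 0)) T4.l1
  (TrL.c (I.pos (nat_lit 0) (nat_lit 89480386)) (xR T2.l1 T2.l1)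
  (TrL.c (I.pos (nat_lit 0) (nat_lit 41530880)) T4.l2
  (TrL.c (I.pos (nat_lit 0) (nat_lit 0)) T4.l3
  (TrL.c (I.pos (nat_lit 0) (nat_lit 0)) T2.l2
  (TrL.c (I.mix (nat_lit 41527258) (nat_lit 41530880)) T4.l4
  (TrL.c (I.mix (nat_lit 41527258) (nat_lit 4274)) T2.l3
  TrL.n)))))))) (by decide +kernel)
theorem bx0_2 : BoxOK sI cl6 cl7 cl9 t2 t4 b0_2 :=
  box_mk (TrL.c (I.pos (nat_lit 0) (nat_lit 0)) T2.l0
  (TrL.c (I.pos (nat_lit 0) (nat_lit 0)) T4.l1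
  (TrL.c (I.pos (nat_lit 0) (nat_lit 89480386)) (xR T2.l1 T2.l1)
  (TrL.c (I.pos (nat_lit 0) (nat_lit 41530880)) T4.l2
  (TrL.c (I.pos (nat_lit 0) (nat_lit 0)) T4.l3
  (TrL.c (I.pos (nat_lit 0) (nat_lit 0)) T2.l2
  (TrL.c (I.mix (nat_lit 41527258) (nat_lit 41530880)) T4.l4
  (TrL.c (I.mix (nat_lit 41527258) (nat_lit 4274)) T2.l3
  TrL.n)))))))) (by decide +kernel)
theorem bx0_3 : BoxOK sI cl6 cl7 cl9 t2 t4 b0_3 :=
  box_mk (TrL.c (I.pos (nat_lit 0) (nat_lit 0)) (xa (xa (xb T2.l0 T2.l0) T2.l0) T2.l0)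
  (TrL.c (I.pos (nat_lit 0) (nat_lit 0)) T4.l1
  (TrL.c (I.pos (nat_lit 0) (nat_lit 89480386)) T2.l1
  (TrL.c (I.pos (nat_lit 0) (nat_lit 41530880)) T4.l2
  (TrL.c (I.pos (nat_lit 0) (nat_lit 0)) T4.l3
  (TrL.c (I.pos (nat_lit 0) (nat_lit 0)) T2.l2
  (TrL.c (I.mix (nat_lit 41527258) (nat_lit 41530880)) T4.l4
  (TrL.c (I.mix (nat_lit 41527258) (nat_lit 4274)) T2.l3
  TrL.n)))))))) (by decide +kernel)
theorem bx0_4 : BoxOK sI cl6 cl7 cl9 t2 t4 b0_4 :=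
  box_mk (TrL.c (I.pos (nat_lit 0) (nat_lit 0)) T2.l0
  (TrL.c (I.pos (nat_lit 0) (nat_lit 0)) T4.l1
  (TrL.c (I.pos (nat_lit 0) (nat_lit 89480386)) (xR T2.l1 T2.l1)
  (TrL.c (I.pos (nat_lit 0) (nat_lit 41530880)) T4.l2
  (TrL.c (I.pos (nat_lit 0) (nat_lit 0)) T4.l3
  (TrL.c (I.pos (nat_lit 0) (nat_lit 0)) T2.l2
  (TrL.c (I.mix (nat_lit 41527258) (nat_lit 41530880)) T4.l4
  (TrL.c (I.mix (nat_lit 41527258) (nat_lit 4274)) T2.l3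
  TrL.n)))))))) (by decide +kernel)
theorem bx0_5 : BoxOK sI cl6 cl7 cl9 t2 t4 b0_5 :=
  box_mk (TrL.c (I.pos (nat_lit 0) (nat_lit 0)) T2.l0
  (TrL.c (I.pos (nat_lit 0) (nat_lit 0)) T4.l1
  (TrL.c (I.pos (nat_lit 0) (nat_lit 89480386)) T2.l1
  (TrL.c (I.pos (nat_lit 0) (nat_lit 41530880)) T4.l2
  (TrL.c (I.pos (nat_lit 0) (nat_lit 0)) T4.l3
  (TrL.c (I.pos (nat_lit 0) (nat_lit 0)) T2.l2
  (TrL.c (I.mix (nat_lit 41527258) (nat_lit 41530880)) T4.l4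
  (TrL.c (I.mix (nat_lit 41527258) (nat_lit 4274)) T2.l3
  TrL.n)))))))) (by decide +kernel)
theorem bx0_6 : BoxOK sI cl6 cl7 cl9 t2 t4 b0_6 :=
  box_mk (TrL.c (I.pos (nat_lit 0) (nat_lit 0)) (xa T2.l0 T2.l0)
  (TrL.c (I.pos (nat_lit 0) (nat_lit 0)) (xa T4.l1 T4.l1)
  (TrL.c (I.pos (nat_lit 0) (nat_lit 89480386)) (xR T2.l1 T2.l1)
  (TrL.c (I.pos (nat_lit 0) (nat_lit 41530880)) T4.l2
  (TrL.c (I.pos (nat_lit 0) (nat_lit 0)) T4.l3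
  (TrL.c (I.pos (nat_lit 0) (nat_lit 0)) T2.l2
  (TrL.c (I.mix (nat_lit 41527258) (nat_lit 41530880)) T4.l4
  (TrL.c (I.mix (nat_lit 41527258) (nat_lit 4274)) T2.l3
  TrL.n)))))))) (by decide +kernel)
theorem bx0_7 : BoxOK sI cl6 cl7 cl9 t2 t4 b0_7 :=
  box_mk (TrL.c (I.pos (nat_lit 0) (nat_lit 0)) (xb (xa (xb T2.l0 T2.l0) (xb T2.l0 T2.l0)) (xa (xb (xa T2.l0 T2.l0) (xa (xb T2.l0 T2.l0) (xb T2.l0 T2.l0))) (xb T2.l0 (xa T2.l0 T2.l0))))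
  (TrL.c (I.pos (nat_lit 0) (nat_lit 0)) T4.l1
  (TrL.c (I.pos (nat_lit 0) (nat_lit 89480386)) (xR (xR T2.l1 T2.l1) (xR T2.l1 T2.l1))
  (TrL.c (I.pos (nat_lit 0) (nat_lit 41530880)) (xR T4.l2 T4.l2)
  (TrL.c (I.pos (nat_lit 0) (nat_lit 0)) (xb (xa T4.l3 (xb T4.l3 T4.l3)) (xa T4.l3 T4.l3))
  (TrL.c (I.pos (nat_lit 0) (nat_lit 0)) T2.l2
  (TrL.c (I.mix (nat_lit 41527258) (nat_lit 41530880)) (xR (xR T4.l4 T4.l4) (xR T4.l4 T4.l4))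
  (TrL.c (I.mix (nat_lit 41527258) (nat_lit 4274)) (xR T2.l3 T2.l3)
  TrL.n)))))))) (by decide +kernel)
theorem sv0 : StarV sI cl6 cl7 cl9 t2 t4 t0 :=
  (bt_n (bt_n (bt_n (bt_b bx0_0) (bt_b bx0_1)) (bt_n (bt_b bx0_2) (bt_b bx0_3))) (bt_n (bt_n (bt_b bx0_4) (bt_b bx0_5)) (bt_n (bt_b bx0_6) (bt_b bx0_7))))
def S0 : StarD := StarD.mk cl6 cl7 cl9 2 4 t0
theorem bx1_0 : BoxOK sI cl6 cl9 cl7 t4 t2 b1_0 :=
  box_mk (TrL.c (I.pos (nat_lit 0) (nat_lit 0)) (xa (xa (xb T4.l0 (xa T4.l0 T4.l0)) (xb T4.l0 (xa T4.l0 T4.l0))) (xa (xb (xa T4.l0 T4.l0) (xa T4.l0 T4.l0)) (xb T4.l3 T4.l3)))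
  (TrL.c (I.pos (nat_lit 0) (nat_lit 0)) (xa T2.l4 T2.l4)
  (TrL.c (I.pos (nat_lit 0) (nat_lit 89480386)) (xR (xR T4.l4 T4.l5) (xR T4.l5 T4.l5))
  (TrL.c (I.pos (nat_lit 0) (nat_lit 41530880)) (xR T2.l5 T2.l5)
  (TrL.c (I.pos (nat_lit 0) (nat_lit 0)) (xa T2.l6 (xb (xa T2.l6 (xb T2.l6 T2.l6)) (xa T2.l6 (xb T2.l6 (xa T2.l6 T2.l6)))))
  (TrL.c (I.pos (nat_lit 0) (nat_lit 0)) T4.l6
  (TrL.c (I.mix (nat_lit 41527258) (nat_lit 41530880)) (xR (xR T2.l7 T2.l7) T2.l1)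
  (TrL.c (I.mix (nat_lit 41527258) (nat_lit 4274)) (xR T4.l7 T4.l7)
  TrL.n)))))))) (by decide +kernel)
theorem bx1_1 : BoxOK sI cl6 cl9 cl7 t4 t2 b1_1 :=
  box_mk (TrL.c (I.pos (nat_lit 0) (nat_lit 0)) (xa T4.l0 T4.l0)
  (TrL.c (I.pos (nat_lit 0) (nat_lit 0)) T2.l4
  (TrL.c (I.pos (nat_lit 0) (nat_lit 89480386)) (xR T4.l5 T4.l5)
  (TrL.c (I.pos (nat_lit 0) (nat_lit 41530880)) T2.l5
  (TrL.c (I.pos (nat_lit 0) (nat_lit 0)) T2.l6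
  (TrL.c (I.pos (nat_lit 0) (nat_lit 0)) T4.l6
  (TrL.c (I.mix (nat_lit 41527258) (nat_lit 41530880)) T2.l7
  (TrL.c (I.mix (nat_lit 41527258) (nat_lit 4274)) T4.l7
  TrL.n)))))))) (by decide +kernel)
theorem bx1_2 : BoxOK sI cl6 cl9 cl7 t4 t2 b1_2 :=
  box_mk (TrL.c (I.pos (nat_lit 0) (nat_lit 0)) T4.l0
  (TrL.c (I.pos (nat_lit 0) (nat_lit 0)) T2.l4
  (TrL.c (I.pos (nat_lit 0) (nat_lit 89480386)) (xR T4.l5 T4.l5)
  (TrL.c (I.pos (nat_lit 0) (nat_lit 41530880)) T2.l5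
  (TrL.c (I.pos (nat_lit 0) (nat_lit 0)) T2.l6
  (TrL.c (I.pos (nat_lit 0) (nat_lit 0)) T4.l6
  (TrL.c (I.mix (nat_lit 41527258) (nat_lit 41530880)) T2.l7
  (TrL.c (I.mix (nat_lit 41527258) (nat_lit 4274)) T4.l7
  TrL.n)))))))) (by decide +kernel)
theorem bx1_3 : BoxOK sI cl6 cl9 cl7 t4 t2 b1_3 :=
  box_mk (TrL.c (I.pos (nat_lit 0) (nat_lit 0)) (xa (xa (xb T4.l0 T4.l0) T4.l0) T4.l0)
  (TrL.c (I.pos (nat_lit 0) (nat_lit 0)) T2.l4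
  (TrL.c (I.pos (nat_lit 0) (nat_lit 89480386)) T4.l5
  (TrL.c (I.pos (nat_lit 0) (nat_lit 41530880)) T2.l5
  (TrL.c (I.pos (nat_lit 0) (nat_lit 0)) T2.l6
  (TrL.c (I.pos (nat_lit 0) (nat_lit 0)) T4.l6
  (TrL.c (I.mix (nat_lit 41527258) (nat_lit 41530880)) T2.l7
  (TrL.c (I.mix (nat_lit 41527258) (nat_lit 4274)) T4.l4
  TrL.n)))))))) (by decide +kernel)
theorem bx1_4 : BoxOK sI cl6 cl9 cl7 t4 t2 b1_4 :=
  box_mk (TrL.c (I.pos (nat_lit 0) (nat_lit 0)) T4.l0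
  (TrL.c (I.pos (nat_lit 0) (nat_lit 0)) T2.l4
  (TrL.c (I.pos (nat_lit 0) (nat_lit 89480386)) (xR T4.l5 T4.l5)
  (TrL.c (I.pos (nat_lit 0) (nat_lit 41530880)) T2.l5
  (TrL.c (I.pos (nat_lit 0) (nat_lit 0)) T2.l6
  (TrL.c (I.pos (nat_lit 0) (nat_lit 0)) T4.l6
  (TrL.c (I.mix (nat_lit 41527258) (nat_lit 41530880)) T2.l7
  (TrL.c (I.mix (nat_lit 41527258) (nat_lit 4274)) T4.l7
  TrL.n)))))))) (by decide +kernel)
theorem bx1_5 : BoxOK sI cl6 cl9 cl7 t4 t2 b1_5 :=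
  box_mk (TrL.c (I.pos (nat_lit 0) (nat_lit 0)) T4.l0
  (TrL.c (I.pos (nat_lit 0) (nat_lit 0)) T2.l4
  (TrL.c (I.pos (nat_lit 0) (nat_lit 89480386)) (xR T4.l5 T4.l5)
  (TrL.c (I.pos (nat_lit 0) (nat_lit 41530880)) T2.l5
  (TrL.c (I.pos (nat_lit 0) (nat_lit 0)) T2.l6
  (TrL.c (I.pos (nat_lit 0) (nat_lit 0)) T4.l6
  (TrL.c (I.mix (nat_lit 41527258) (nat_lit 41530880)) T2.l7
  (TrL.c (I.mix (nat_lit 41527258) (nat_lit 4274)) T4.l7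
  TrL.n)))))))) (by decide +kernel)
theorem bx1_6 : BoxOK sI cl6 cl9 cl7 t4 t2 b1_6 :=
  box_mk (TrL.c (I.pos (nat_lit 0) (nat_lit 0)) (xb (xa (xb T4.l0 T4.l0) (xb T4.l0 T4.l0)) (xa (xb (xa T4.l0 T4.l0) (xa T4.l0 T4.l0)) (xa (xb T4.l0 T4.l0) (xb T4.l0 T4.l0))))
  (TrL.c (I.pos (nat_lit 0) (nat_lit 0)) T2.l4
  (TrL.c (I.pos (nat_lit 0) (nat_lit 89480386)) (xR T4.l5 (xR T4.l5 T4.l5))
  (TrL.c (I.pos (nat_lit 0) (nat_lit 41530880)) (xR T2.l5 T2.l5)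
  (TrL.c (I.pos (nat_lit 0) (nat_lit 0)) (xb (xa T2.l6 T2.l6) (xa T2.l6 T2.l6))
  (TrL.c (I.pos (nat_lit 0) (nat_lit 0)) T4.l6
  (TrL.c (I.mix (nat_lit 41527258) (nat_lit 41530880)) (xR (xR T2.l7 T2.l7) T2.l1)
  (TrL.c (I.mix (nat_lit 41527258) (nat_lit 4274)) (xR T4.l7 T4.l7)
  TrL.n)))))))) (by decide +kernel)
theorem bx1_7 : BoxOK sI cl6 cl9 cl7 t4 t2 b1_7 :=
  box_mk (TrL.c (I.pos (nat_lit 0) (nat_lit 0)) (xa T4.l0 T4.l0)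
  (TrL.c (I.pos (nat_lit 0) (nat_lit 0)) (xa T2.l4 T2.l4)
  (TrL.c (I.pos (nat_lit 0) (nat_lit 89480386)) (xR T4.l5 T4.l5)
  (TrL.c (I.pos (nat_lit 0) (nat_lit 41530880)) T2.l5
  (TrL.c (I.pos (nat_lit 0) (nat_lit 0)) T2.l6
  (TrL.c (I.pos (nat_lit 0) (nat_lit 0)) T4.l6
  (TrL.c (I.mix (nat_lit 41527258) (nat_lit 41530880)) T2.l7
  (TrL.c (I.mix (nat_lit 41527258) (nat_lit 4274)) T4.l7
  TrL.n)))))))) (by decide +kernel)
theorem sv1 : StarV sI cl6 cl9 cl7 t4 t2 t1 :=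
  (bt_n (bt_n (bt_n (bt_b bx1_0) (bt_b bx1_1)) (bt_n (bt_b bx1_2) (bt_b bx1_3))) (bt_n (bt_n (bt_b bx1_4) (bt_b bx1_5)) (bt_n (bt_b bx1_6) (bt_b bx1_7))))
def S1 : StarD := StarD.mk cl6 cl9 cl7 4 2 t1
theorem bx2_0 : BoxOK sI cl7 cl6 cl9 t0 t5 b2_0 :=
  box_mk (TrL.c (I.pos (nat_lit 0) (nat_lit 0)) (xa (xb (xa T0.l0 T0.l0) (xa (xb T0.l0 T0.l0) (xb T0.l0 T0.l0))) (xa (xb T0.l0 (xa T0.l0 T0.l0)) (xb T0.l7 T0.l7)))
  (TrL.c (I.pos (nat_lit 0) (nat_lit 0)) (xa T5.l1 T5.l6)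
  (TrL.c (I.pos (nat_lit 0) (nat_lit 111196574)) (xR T0.l1 (xR T0.l1 T0.l6))
  (TrL.c (I.pos (nat_lit 0) (nat_lit 77433728)) (xR T5.l2 (xR T5.l2 T5.l2))
  (TrL.c (I.pos (nat_lit 0) (nat_lit 0)) (xa (xb (xa T5.l3 (xk T5.l3 T5.l3)) T5.l3) (xb (xk (xa T5.l3 (xb (xa T5.l3 T5.l3) T5.l3)) (xa T5.l3 (xb (xa T5.l3 T5.l3) T5.l3))) (xa T5.l3 (xk (xb T5.l3 (xa T5.l3 T5.l3)) (xb T5.l3 (xa T5.l3 T5.l3))))))
  (TrL.c (I.pos (nat_lit 0) (nat_lit 0)) (xk T0.l2 T0.l2)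
  (TrL.c (I.mix (nat_lit 29511666) (nat_lit 77433728)) (xR T5.l4 (xR T5.l4 (xR T5.l4 T5.l4)))
  (TrL.c (I.mix (nat_lit 29511666) (nat_lit 46070178)) (xR T0.l3 T0.l5)
  TrL.n)))))))) (by decide +kernel)
theorem bx2_1 : BoxOK sI cl7 cl6 cl9 t0 t5 b2_1 :=
  box_mk (TrL.c (I.pos (nat_lit 0) (nat_lit 0)) (xa T0.l0 T0.l0)
  (TrL.c (I.pos (nat_lit 0) (nat_lit 0)) (xa T5.l1 T5.l1)
  (TrL.c (I.pos (nat_lit 0) (nat_lit 111196574)) T0.l1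
  (TrL.c (I.pos (nat_lit 0) (nat_lit 77433728)) T5.l2
  (TrL.c (I.pos (nat_lit 0) (nat_lit 0)) T5.l3
  (TrL.c (I.pos (nat_lit 0) (nat_lit 0)) T0.l2
  (TrL.c (I.mix (nat_lit 29511666) (nat_lit 77433728)) T5.l4
  (TrL.c (I.mix (nat_lit 29511666) (nat_lit 46070178)) T0.l3
  TrL.n)))))))) (by decide +kernel)
theorem bx2_2 : BoxOK sI cl7 cl6 cl9 t0 t5 b2_2 :=
  box_mk (TrL.c (I.pos (nat_lit 0) (nat_lit 0)) T0.l0
  (TrL.c (I.pos (nat_lit 0) (nat_lit 0)) T5.l1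
  (TrL.c (I.pos (nat_lit 0) (nat_lit 111196574)) T0.l1
  (TrL.c (I.pos (nat_lit 0) (nat_lit 77433728)) T5.l2
  (TrL.c (I.pos (nat_lit 0) (nat_lit 0)) T5.l3
  (TrL.c (I.pos (nat_lit 0) (nat_lit 0)) T0.l2
  (TrL.c (I.mix (nat_lit 29511666) (nat_lit 77433728)) T5.l4
  (TrL.c (I.mix (nat_lit 29511666) (nat_lit 46070178)) T0.l3
  TrL.n)))))))) (by decide +kernel)
theorem bx2_3 : BoxOK sI cl7 cl6 cl9 t0 t5 b2_3 :=
  box_mk (TrL.c (I.pos (nat_lit 0) (nat_lit 0)) (xa (xb T0.l0 T0.l0) T0.l0)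
  (TrL.c (I.pos (nat_lit 0) (nat_lit 0)) T5.l3
  (TrL.c (I.pos (nat_lit 0) (nat_lit 111196574)) T0.l1
  (TrL.c (I.pos (nat_lit 0) (nat_lit 77433728)) T5.l4
  (TrL.c (I.pos (nat_lit 0) (nat_lit 0)) T5.l1
  (TrL.c (I.pos (nat_lit 0) (nat_lit 0)) T0.l2
  (TrL.c (I.mix (nat_lit 29511666) (nat_lit 77433728)) T5.l4
  (TrL.c (I.mix (nat_lit 29511666) (nat_lit 46070178)) T0.l3
  TrL.n)))))))) (by decide +kernel)
theorem bx2_4 : BoxOK sI cl7 cl6 cl9 t0 t5 b2_4 :=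
  box_mk (TrL.c (I.pos (nat_lit 0) (nat_lit 0)) T0.l0
  (TrL.c (I.pos (nat_lit 0) (nat_lit 0)) T5.l1
  (TrL.c (I.pos (nat_lit 0) (nat_lit 111196574)) T0.l1
  (TrL.c (I.pos (nat_lit 0) (nat_lit 77433728)) T5.l2
  (TrL.c (I.pos (nat_lit 0) (nat_lit 0)) T5.l3
  (TrL.c (I.pos (nat_lit 0) (nat_lit 0)) T0.l2
  (TrL.c (I.mix (nat_lit 29511666) (nat_lit 77433728)) T5.l4
  (TrL.c (I.mix (nat_lit 29511666) (nat_lit 46070178)) T0.l3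
  TrL.n)))))))) (by decide +kernel)
theorem bx2_5 : BoxOK sI cl7 cl6 cl9 t0 t5 b2_5 :=
  box_mk (TrL.c (I.pos (nat_lit 0) (nat_lit 0)) T0.l0
  (TrL.c (I.pos (nat_lit 0) (nat_lit 0)) T5.l3
  (TrL.c (I.pos (nat_lit 0) (nat_lit 111196574)) T0.l1
  (TrL.c (I.pos (nat_lit 0) (nat_lit 77433728)) T5.l4
  (TrL.c (I.pos (nat_lit 0) (nat_lit 0)) T5.l3
  (TrL.c (I.pos (nat_lit 0) (nat_lit 0)) T0.l2
  (TrL.c (I.mix (nat_lit 29511666) (nat_lit 77433728)) T5.l4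
  (TrL.c (I.mix (nat_lit 29511666) (nat_lit 46070178)) T0.l3
  TrL.n)))))))) (by decide +kernel)
theorem bx2_6 : BoxOK sI cl7 cl6 cl9 t0 t5 b2_6 :=
  box_mk (TrL.c (I.pos (nat_lit 0) (nat_lit 0)) (xb (xa (xb T0.l0 T0.l0) (xb T0.l0 T0.l0)) (xa (xb (xa T0.l0 T0.l0) (xa (xb T0.l0 T0.l0) T0.l0)) (xb T0.l0 (xa T0.l0 T0.l0))))
  (TrL.c (I.pos (nat_lit 0) (nat_lit 0)) (xb T5.l1 T5.l1)
  (TrL.c (I.pos (nat_lit 0) (nat_lit 111196574)) (xR T0.l1 (xR T0.l1 T0.l1))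
  (TrL.c (I.pos (nat_lit 0) (nat_lit 77433728)) (xR T5.l2 (xR T5.l2 T5.l2))
  (TrL.c (I.pos (nat_lit 0) (nat_lit 0)) (xb (xa (xk T5.l3 T5.l3) (xk (xb T5.l3 T5.l3) (xb T5.l3 T5.l3))) T5.l3)
  (TrL.c (I.pos (nat_lit 0) (nat_lit 0)) T0.l2
  (TrL.c (I.mix (nat_lit 29511666) (nat_lit 77433728)) (xR T5.l4 (xR T5.l4 T5.l4))
  (TrL.c (I.mix (nat_lit 29511666) (nat_lit 46070178)) (xR T0.l3 T0.l5)
  TrL.n)))))))) (by decide +kernel)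
theorem bx2_7 : BoxOK sI cl7 cl6 cl9 t0 t5 b2_7 :=
  box_mk (TrL.c (I.pos (nat_lit 0) (nat_lit 0)) (xa T0.l0 T0.l0)
  (TrL.c (I.pos (nat_lit 0) (nat_lit 0)) (xa T5.l3 T5.l1)
  (TrL.c (I.pos (nat_lit 0) (nat_lit 111196574)) T0.l1
  (TrL.c (I.pos (nat_lit 0) (nat_lit 77433728)) (xR T5.l2 T5.l2)
  (TrL.c (I.pos (nat_lit 0) (nat_lit 0)) (xa T5.l3 T5.l3)
  (TrL.c (I.pos (nat_lit 0) (nat_lit 0)) T0.l2
  (TrL.c (I.mix (nat_lit 29511666) (nat_lit 77433728)) T5.l4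
  (TrL.c (I.mix (nat_lit 29511666) (nat_lit 46070178)) T0.l3
  TrL.n)))))))) (by decide +kernel)
theorem sv2 : StarV sI cl7 cl6 cl9 t0 t5 t2 :=
  (bt_n (bt_n (bt_n (bt_b bx2_0) (bt_b bx2_1)) (bt_n (bt_b bx2_2) (bt_b bx2_3))) (bt_n (bt_n (bt_b bx2_4) (bt_b bx2_5)) (bt_n (bt_b bx2_6) (bt_b bx2_7))))
def S2 : StarD := StarD.mk cl7 cl6 cl9 0 5 t2
theorem bx3_0 : BoxOK sI cl7 cl9 cl6 t5 t0 b3_0 :=
  box_mk (TrL.c (I.pos (nat_lit 0) (nat_lit 0)) (xa (xa (xb T5.l0 (xa (xb T5.l0 T5.l0) T5.l0)) (xb (xa T5.l0 T5.l0) (xa T5.l0 (xb T5.l0 T5.l0)))) (xa (xb (xa T5.l0 T5.l0) (xa (xb T5.l0 T5.l0) (xb T5.l0 T5.l0))) (xb T5.l3 (xa T5.l3 T5.l3))))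
  (TrL.c (I.pos (nat_lit 0) (nat_lit 0)) (xa T0.l4 T0.l4)
  (TrL.c (I.pos (nat_lit 0) (nat_lit 111196574)) (xR T5.l5 (xR T5.l4 (xa T5.l5 T5.l4)))
  (TrL.c (I.pos (nat_lit 0) (nat_lit 77433728)) (xR (xR T0.l5 T0.l5) (xR T0.l5 T0.l5))
  (TrL.c (I.pos (nat_lit 0) (nat_lit 0)) (xa (xb T0.l7 T0.l7) (xa (xb (xk T0.l7 T0.l7) T0.l7) (xb (xk (xa T0.l7 (xb T0.l7 T0.l7)) (xa T0.l7 (xb T0.l7 T0.l7))) (xk (xa T0.l7 (xb T0.l7 T0.l7)) (xa T0.l7 (xb T0.l7 T0.l7))))))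
  (TrL.c (I.pos (nat_lit 0) (nat_lit 0)) (xa T5.l6 T5.l6)
  (TrL.c (I.mix (nat_lit 29511666) (nat_lit 77433728)) (xR T0.l6 (xR T0.l6 (xR T0.l6 T0.l6)))
  (TrL.c (I.mix (nat_lit 29511666) (nat_lit 46070178)) (xR T5.l7 T5.l2)
  TrL.n)))))))) (by decide +kernel)
theorem bx3_1 : BoxOK sI cl7 cl9 cl6 t5 t0 b3_1 :=
  box_mk (TrL.c (I.pos (nat_lit 0) (nat_lit 0)) T5.l0
  (TrL.c (I.pos (nat_lit 0) (nat_lit 0)) T0.l4
  (TrL.c (I.pos (nat_lit 0) (nat_lit 111196574)) T5.l5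
  (TrL.c (I.pos (nat_lit 0) (nat_lit 77433728)) T0.l5
  (TrL.c (I.pos (nat_lit 0) (nat_lit 0)) T0.l7
  (TrL.c (I.pos (nat_lit 0) (nat_lit 0)) T5.l6
  (TrL.c (I.mix (nat_lit 29511666) (nat_lit 77433728)) (xR T0.l6 T0.l6)
  (TrL.c (I.mix (nat_lit 29511666) (nat_lit 46070178)) (xR T5.l2 T5.l2)
  TrL.n)))))))) (by decide +kernel)
theorem bx3_2 : BoxOK sI cl7 cl9 cl6 t5 t0 b3_2 :=
  box_mk (TrL.c (I.pos (nat_lit 0) (nat_lit 0)) (xa T5.l0 T5.l0)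
  (TrL.c (I.pos (nat_lit 0) (nat_lit 0)) (xa T0.l4 T0.l4)
  (TrL.c (I.pos (nat_lit 0) (nat_lit 111196574)) T5.l5
  (TrL.c (I.pos (nat_lit 0) (nat_lit 77433728)) (xR T0.l5 T0.l5)
  (TrL.c (I.pos (nat_lit 0) (nat_lit 0)) T0.l7
  (TrL.c (I.pos (nat_lit 0) (nat_lit 0)) T5.l6
  (TrL.c (I.mix (nat_lit 29511666) (nat_lit 77433728)) T0.l6
  (TrL.c (I.mix (nat_lit 29511666) (nat_lit 46070178)) T5.l4
  TrL.n)))))))) (by decide +kernel)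
theorem bx3_3 : BoxOK sI cl7 cl9 cl6 t5 t0 b3_3 :=
  box_mk (TrL.c (I.pos (nat_lit 0) (nat_lit 0)) (xb (xa (xb T5.l0 T5.l0) (xb T5.l0 T5.l0)) (xa (xb (xa T5.l0 T5.l0) (xa (xs T5.l0 (xb T5.l0 T5.l0)) (xs T5.l0 (xb T5.l0 T5.l0)))) (xb T5.l0 (xa (xs T5.l0 T5.l0) (xs T5.l0 T5.l0)))))
  (TrL.c (I.pos (nat_lit 0) (nat_lit 0)) (xb T0.l4 T0.l4)
  (TrL.c (I.pos (nat_lit 0) (nat_lit 111196574)) (xR T5.l5 (xR T5.l5 T5.l5))
  (TrL.c (I.pos (nat_lit 0) (nat_lit 77433728)) (xR T0.l5 (xR T0.l5 T0.l5))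
  (TrL.c (I.pos (nat_lit 0) (nat_lit 0)) (xb (xa (xk T0.l7 T0.l7) (xk (xb T0.l7 T0.l7) (xb T0.l7 T0.l7))) (xa T0.l7 (xk T0.l7 T0.l7)))
  (TrL.c (I.pos (nat_lit 0) (nat_lit 0)) T5.l6
  (TrL.c (I.mix (nat_lit 29511666) (nat_lit 77433728)) (xR T0.l6 (xR T0.l6 T0.l6))
  (TrL.c (I.mix (nat_lit 29511666) (nat_lit 46070178)) (xR T5.l7 T5.l7)
  TrL.n)))))))) (by decide +kernel)
theorem bx3_4 : BoxOK sI cl7 cl9 cl6 t5 t0 b3_4 :=
  box_mk (TrL.c (I.pos (nat_lit 0) (nat_lit 0)) (xa T5.l0 T5.l0)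
  (TrL.c (I.pos (nat_lit 0) (nat_lit 0)) (xa T0.l7 T0.l4)
  (TrL.c (I.pos (nat_lit 0) (nat_lit 111196574)) T5.l5
  (TrL.c (I.pos (nat_lit 0) (nat_lit 77433728)) (xR T0.l5 T0.l5)
  (TrL.c (I.pos (nat_lit 0) (nat_lit 0)) (xa T0.l7 T0.l7)
  (TrL.c (I.pos (nat_lit 0) (nat_lit 0)) T5.l6
  (TrL.c (I.mix (nat_lit 29511666) (nat_lit 77433728)) T0.l6
  (TrL.c (I.mix (nat_lit 29511666) (nat_lit 46070178)) T5.l4
  TrL.n)))))))) (by decide +kernel)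
theorem bx3_5 : BoxOK sI cl7 cl9 cl6 t5 t0 b3_5 :=
  box_mk (TrL.c (I.pos (nat_lit 0) (nat_lit 0)) T5.l0
  (TrL.c (I.pos (nat_lit 0) (nat_lit 0)) T0.l4
  (TrL.c (I.pos (nat_lit 0) (nat_lit 111196574)) T5.l5
  (TrL.c (I.pos (nat_lit 0) (nat_lit 77433728)) T0.l5
  (TrL.c (I.pos (nat_lit 0) (nat_lit 0)) T0.l7
  (TrL.c (I.pos (nat_lit 0) (nat_lit 0)) T5.l6
  (TrL.c (I.mix (nat_lit 29511666) (nat_lit 77433728)) T0.l6
  (TrL.c (I.mix (nat_lit 29511666) (nat_lit 46070178)) T5.l4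
  TrL.n)))))))) (by decide +kernel)
theorem bx3_6 : BoxOK sI cl7 cl9 cl6 t5 t0 b3_6 :=
  box_mk (TrL.c (I.pos (nat_lit 0) (nat_lit 0)) T5.l0
  (TrL.c (I.pos (nat_lit 0) (nat_lit 0)) T0.l4
  (TrL.c (I.pos (nat_lit 0) (nat_lit 111196574)) T5.l5
  (TrL.c (I.pos (nat_lit 0) (nat_lit 77433728)) T0.l5
  (TrL.c (I.pos (nat_lit 0) (nat_lit 0)) T0.l7
  (TrL.c (I.pos (nat_lit 0) (nat_lit 0)) T5.l6
  (TrL.c (I.mix (nat_lit 29511666) (nat_lit 77433728)) (xR T0.l6 T0.l6)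
  (TrL.c (I.mix (nat_lit 29511666) (nat_lit 46070178)) T5.l4
  TrL.n)))))))) (by decide +kernel)
theorem bx3_7 : BoxOK sI cl7 cl9 cl6 t5 t0 b3_7 :=
  box_mk (TrL.c (I.pos (nat_lit 0) (nat_lit 0)) (xa (xa T5.l0 T5.l0) T5.l0)
  (TrL.c (I.pos (nat_lit 0) (nat_lit 0)) (xa T0.l4 T0.l4)
  (TrL.c (I.pos (nat_lit 0) (nat_lit 111196574)) T5.l5
  (TrL.c (I.pos (nat_lit 0) (nat_lit 77433728)) (xR T0.l5 T0.l5)
  (TrL.c (I.pos (nat_lit 0) (nat_lit 0)) T0.l7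
  (TrL.c (I.pos (nat_lit 0) (nat_lit 0)) T5.l6
  (TrL.c (I.mix (nat_lit 29511666) (nat_lit 77433728)) T0.l6
  (TrL.c (I.mix (nat_lit 29511666) (nat_lit 46070178)) T5.l4
  TrL.n)))))))) (by decide +kernel)
theorem sv3 : StarV sI cl7 cl9 cl6 t5 t0 t3 :=
  (bt_n (bt_n (bt_n (bt_b bx3_0) (bt_b bx3_1)) (bt_n (bt_b bx3_2) (bt_b bx3_3))) (bt_n (bt_n (bt_b bx3_4) (bt_b bx3_5)) (bt_n (bt_b bx3_6) (bt_b bx3_7))))
def S3 : StarD := StarD.mk cl7 cl9 cl6 5 0 t3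
theorem bx4_0 : BoxOK sI cl9 cl6 cl7 t1 t3 b4_0 :=
  box_mk (TrL.c (I.pos (nat_lit 0) (nat_lit 0)) (xa (xa (xb T1.l0 (xa T1.l0 T1.l0)) (xb T1.l0 (xa T1.l0 T1.l0))) (xa (xb T1.l0 (xa T1.l0 T1.l0)) (xb T1.l6 (xa T1.l6 T1.l6))))
  (TrL.c (I.pos (nat_lit 0) (nat_lit 0)) (xa T3.l1 T3.l1)
  (TrL.c (I.pos (nat_lit 0) (nat_lit 124588530)) (xR T1.l7 (xR T1.l1 T1.l7))
  (TrL.c (I.pos (nat_lit 0) (nat_lit 96881482)) (xR T3.l2 (xR T3.l2 T3.l2))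
  (TrL.c (I.pos (nat_lit 0) (nat_lit 0)) (xa (xb (xa T3.l3 T3.l3) T3.l3) (xb (xk (xa T3.l3 (xb (xa T3.l3 T3.l3) T3.l3)) (xa T3.l3 (xb (xa T3.l3 T3.l3) T3.l3))) (xa T3.l3 (xk (xk (xa T3.l3 T3.l3) (xa T3.l3 T3.l3)) (xa T3.l3 (xb T3.l3 T3.l3))))))
  (TrL.c (I.pos (nat_lit 0) (nat_lit 0)) (xk T1.l2 T1.l2)
  (TrL.c (I.mix (nat_lit 17240550) (nat_lit 96881482)) (xR T3.l4 (xR T3.l4 (xR T3.l4 T3.l4)))
  (TrL.c (I.mix (nat_lit 17240550) (nat_lit 71940500)) (xR T1.l3 (xR T1.l3 T1.l3))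
  TrL.n)))))))) (by decide +kernel)
theorem bx4_1 : BoxOK sI cl9 cl6 cl7 t1 t3 b4_1 :=
  box_mk (TrL.c (I.pos (nat_lit 0) (nat_lit 0)) T1.l0
  (TrL.c (I.pos (nat_lit 0) (nat_lit 0)) T3.l1
  (TrL.c (I.pos (nat_lit 0) (nat_lit 124588530)) (xR T1.l1 T1.l1)
  (TrL.c (I.pos (nat_lit 0) (nat_lit 96881482)) (xR T3.l2 T3.l2)
  (TrL.c (I.pos (nat_lit 0) (nat_lit 0)) T3.l3
  (TrL.c (I.pos (nat_lit 0) (nat_lit 0)) T1.l2
  (TrL.c (I.mix (nat_lit 17240550) (nat_lit 96881482)) T3.l4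
  (TrL.c (I.mix (nat_lit 17240550) (nat_lit 71940500)) T1.l3
  TrL.n)))))))) (by decide +kernel)
theorem bx4_2 : BoxOK sI cl9 cl6 cl7 t1 t3 b4_2 :=
  box_mk (TrL.c (I.pos (nat_lit 0) (nat_lit 0)) T1.l0
  (TrL.c (I.pos (nat_lit 0) (nat_lit 0)) T3.l3
  (TrL.c (I.pos (nat_lit 0) (nat_lit 124588530)) T1.l1
  (TrL.c (I.pos (nat_lit 0) (nat_lit 96881482)) T3.l4
  (TrL.c (I.pos (nat_lit 0) (nat_lit 0)) T3.l3
  (TrL.c (I.pos (nat_lit 0) (nat_lit 0)) T1.l2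
  (TrL.c (I.mix (nat_lit 17240550) (nat_lit 96881482)) T3.l4
  (TrL.c (I.mix (nat_lit 17240550) (nat_lit 71940500)) T1.l3
  TrL.n)))))))) (by decide +kernel)
theorem bx4_3 : BoxOK sI cl9 cl6 cl7 t1 t3 b4_3 :=
  box_mk (TrL.c (I.pos (nat_lit 0) (nat_lit 0)) (xb (xa (xb T1.l0 T1.l0) (xb T1.l0 T1.l0)) (xa (xb (xa T1.l0 T1.l0) (xa (xs T1.l0 T1.l0) T1.l0)) (xa (xb T1.l0 T1.l0) (xb T1.l0 T1.l0))))
  (TrL.c (I.pos (nat_lit 0) (nat_lit 0)) T3.l1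
  (TrL.c (I.pos (nat_lit 0) (nat_lit 124588530)) (xR T1.l1 (xR T1.l1 T1.l1))
  (TrL.c (I.pos (nat_lit 0) (nat_lit 96881482)) (xR T3.l2 (xR T3.l2 T3.l2))
  (TrL.c (I.pos (nat_lit 0) (nat_lit 0)) (xb (xa (xk T3.l3 T3.l3) (xk (xb T3.l3 T3.l3) (xb T3.l3 T3.l3))) T3.l3)
  (TrL.c (I.pos (nat_lit 0) (nat_lit 0)) T1.l2
  (TrL.c (I.mix (nat_lit 17240550) (nat_lit 96881482)) (xR T3.l4 (xR T3.l4 T3.l4))
  (TrL.c (I.mix (nat_lit 17240550) (nat_lit 71940500)) (xR T1.l3 T1.l5)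
  TrL.n)))))))) (by decide +kernel)
theorem bx4_4 : BoxOK sI cl9 cl6 cl7 t1 t3 b4_4 :=
  box_mk (TrL.c (I.pos (nat_lit 0) (nat_lit 0)) (xa (xa (xb T1.l0 T1.l0) T1.l0) T1.l0)
  (TrL.c (I.pos (nat_lit 0) (nat_lit 0)) (xa T3.l3 T3.l1)
  (TrL.c (I.pos (nat_lit 0) (nat_lit 124588530)) T1.l1
  (TrL.c (I.pos (nat_lit 0) (nat_lit 96881482)) (xR T3.l2 (xR T3.l2 T3.l2))
  (TrL.c (I.pos (nat_lit 0) (nat_lit 0)) (xa T3.l1 T3.l3)
  (TrL.c (I.pos (nat_lit 0) (nat_lit 0)) T1.l2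
  (TrL.c (I.mix (nat_lit 17240550) (nat_lit 96881482)) T3.l4
  (TrL.c (I.mix (nat_lit 17240550) (nat_lit 71940500)) T1.l3
  TrL.n)))))))) (by decide +kernel)
theorem bx4_5 : BoxOK sI cl9 cl6 cl7 t1 t3 b4_5 :=
  box_mk (TrL.c (I.pos (nat_lit 0) (nat_lit 0)) T1.l0
  (TrL.c (I.pos (nat_lit 0) (nat_lit 0)) (xa T3.l1 T3.l1)
  (TrL.c (I.pos (nat_lit 0) (nat_lit 124588530)) T1.l1
  (TrL.c (I.pos (nat_lit 0) (nat_lit 96881482)) T3.l2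
  (TrL.c (I.pos (nat_lit 0) (nat_lit 0)) T3.l3
  (TrL.c (I.pos (nat_lit 0) (nat_lit 0)) T1.l2
  (TrL.c (I.mix (nat_lit 17240550) (nat_lit 96881482)) T3.l4
  (TrL.c (I.mix (nat_lit 17240550) (nat_lit 71940500)) T1.l3
  TrL.n)))))))) (by decide +kernel)
theorem bx4_6 : BoxOK sI cl9 cl6 cl7 t1 t3 b4_6 :=
  box_mk (TrL.c (I.pos (nat_lit 0) (nat_lit 0)) T1.l0
  (TrL.c (I.pos (nat_lit 0) (nat_lit 0)) T3.l1
  (TrL.c (I.pos (nat_lit 0) (nat_lit 124588530)) (xR T1.l1 T1.l1)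
  (TrL.c (I.pos (nat_lit 0) (nat_lit 96881482)) T3.l2
  (TrL.c (I.pos (nat_lit 0) (nat_lit 0)) T3.l3
  (TrL.c (I.pos (nat_lit 0) (nat_lit 0)) T1.l2
  (TrL.c (I.mix (nat_lit 17240550) (nat_lit 96881482)) T3.l4
  (TrL.c (I.mix (nat_lit 17240550) (nat_lit 71940500)) T1.l3
  TrL.n)))))))) (by decide +kernel)
theorem bx4_7 : BoxOK sI cl9 cl6 cl7 t1 t3 b4_7 :=
  box_mk (TrL.c (I.pos (nat_lit 0) (nat_lit 0)) (xa (xb T1.l0 T1.l0) T1.l0)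
  (TrL.c (I.pos (nat_lit 0) (nat_lit 0)) T3.l3
  (TrL.c (I.pos (nat_lit 0) (nat_lit 124588530)) T1.l1
  (TrL.c (I.pos (nat_lit 0) (nat_lit 96881482)) T3.l4
  (TrL.c (I.pos (nat_lit 0) (nat_lit 0)) T3.l3
  (TrL.c (I.pos (nat_lit 0) (nat_lit 0)) T1.l2
  (TrL.c (I.mix (nat_lit 17240550) (nat_lit 96881482)) T3.l4
  (TrL.c (I.mix (nat_lit 17240550) (nat_lit 71940500)) T1.l7
  TrL.n)))))))) (by decide +kernel)
theorem sv4 : StarV sI cl9 cl6 cl7 t1 t3 t4 :=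
  (bt_n (bt_n (bt_n (bt_b bx4_0) (bt_b bx4_1)) (bt_n (bt_b bx4_2) (bt_b bx4_3))) (bt_n (bt_n (bt_b bx4_4) (bt_b bx4_5)) (bt_n (bt_b bx4_6) (bt_b bx4_7))))
def S4 : StarD := StarD.mk cl9 cl6 cl7 1 3 t4
theorem bx5_0 : BoxOK sI cl9 cl7 cl6 t3 t1 b5_0 :=
  box_mk (TrL.c (I.pos (nat_lit 0) (nat_lit 0)) (xa (xa (xb T3.l0 (xa T3.l0 T3.l0)) (xb T3.l0 (xa T3.l0 T3.l0))) (xa (xb T3.l0 (xa T3.l0 T3.l0)) (xb T3.l0 (xa T3.l0 T3.l0))))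
  (TrL.c (I.pos (nat_lit 0) (nat_lit 0)) (xa T1.l4 T1.l4)
  (TrL.c (I.pos (nat_lit 0) (nat_lit 124588530)) (xR T3.l4 (xR T3.l4 T3.l4))
  (TrL.c (I.pos (nat_lit 0) (nat_lit 96881482)) (xR T1.l5 (xR T1.l5 T1.l5))
  (TrL.c (I.pos (nat_lit 0) (nat_lit 0)) (xa (xb (xa T1.l6 T1.l6) T1.l6) (xa (xb (xk T1.l6 T1.l6) (xk T1.l6 T1.l6)) (xb (xk (xa T1.l6 (xb T1.l6 T1.l6)) (xa T1.l6 (xb T1.l6 T1.l6))) (xk (xa T1.l6 (xk T1.l6 T1.l6)) (xa T1.l6 (xk T1.l6 T1.l6))))))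
  (TrL.c (I.pos (nat_lit 0) (nat_lit 0)) (xa T3.l6 T3.l6)
  (TrL.c (I.mix (nat_lit 17240550) (nat_lit 96881482)) (xR T1.l7 (xR T1.l7 (xR T1.l7 T1.l7)))
  (TrL.c (I.mix (nat_lit 17240550) (nat_lit 71940500)) (xR T3.l7 (xR T3.l7 T3.l7))
  TrL.n)))))))) (by decide +kernel)
theorem bx5_1 : BoxOK sI cl9 cl7 cl6 t3 t1 b5_1 :=
  box_mk (TrL.c (I.pos (nat_lit 0) (nat_lit 0)) T3.l0
  (TrL.c (I.pos (nat_lit 0) (nat_lit 0)) T1.l4
  (TrL.c (I.pos (nat_lit 0) (nat_lit 124588530)) (xR T3.l4 T3.l4)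
  (TrL.c (I.pos (nat_lit 0) (nat_lit 96881482)) (xR T1.l5 T1.l5)
  (TrL.c (I.pos (nat_lit 0) (nat_lit 0)) T1.l6
  (TrL.c (I.pos (nat_lit 0) (nat_lit 0)) T3.l6
  (TrL.c (I.mix (nat_lit 17240550) (nat_lit 96881482)) T1.l7
  (TrL.c (I.mix (nat_lit 17240550) (nat_lit 71940500)) T3.l7
  TrL.n)))))))) (by decide +kernel)
theorem bx5_2 : BoxOK sI cl9 cl7 cl6 t3 t1 b5_2 :=
  box_mk (TrL.c (I.pos (nat_lit 0) (nat_lit 0)) (xa T3.l0 T3.l0)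
  (TrL.c (I.pos (nat_lit 0) (nat_lit 0)) T1.l4
  (TrL.c (I.pos (nat_lit 0) (nat_lit 124588530)) (xR T3.l4 T3.l5)
  (TrL.c (I.pos (nat_lit 0) (nat_lit 96881482)) T1.l7
  (TrL.c (I.pos (nat_lit 0) (nat_lit 0)) (xa T1.l6 T1.l6)
  (TrL.c (I.pos (nat_lit 0) (nat_lit 0)) T3.l6
  (TrL.c (I.mix (nat_lit 17240550) (nat_lit 96881482)) T1.l7
  (TrL.c (I.mix (nat_lit 17240550) (nat_lit 71940500)) T3.l7
  TrL.n)))))))) (by decide +kernel)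
theorem bx5_3 : BoxOK sI cl9 cl7 cl6 t3 t1 b5_3 :=
  box_mk (TrL.c (I.pos (nat_lit 0) (nat_lit 0)) (xb (xa (xb T3.l0 T3.l0) (xb T3.l0 T3.l0)) (xa (xb (xa T3.l0 T3.l0) (xa (xs T3.l0 (xb T3.l0 T3.l0)) (xs T3.l0 (xb T3.l0 T3.l0)))) (xa (xb T3.l0 (xs T3.l0 T3.l0)) (xb T3.l0 (xs T3.l0 T3.l0)))))
  (TrL.c (I.pos (nat_lit 0) (nat_lit 0)) (xb T1.l4 T1.l4)
  (TrL.c (I.pos (nat_lit 0) (nat_lit 124588530)) (xR T3.l4 (xR T3.l5 T3.l5))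
  (TrL.c (I.pos (nat_lit 0) (nat_lit 96881482)) (xR T1.l5 (xR T1.l5 T1.l5))
  (TrL.c (I.pos (nat_lit 0) (nat_lit 0)) (xb (xa (xk T1.l6 T1.l6) (xk (xb T1.l6 T1.l6) (xb T1.l6 T1.l6))) (xa T1.l6 (xk T1.l6 T1.l6)))
  (TrL.c (I.pos (nat_lit 0) (nat_lit 0)) T3.l6
  (TrL.c (I.mix (nat_lit 17240550) (nat_lit 96881482)) (xR T1.l7 (xR T1.l7 T1.l7))
  (TrL.c (I.mix (nat_lit 17240550) (nat_lit 71940500)) (xR T3.l7 (xR T3.l7 T3.l7))
  TrL.n)))))))) (by decide +kernel)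
theorem bx5_4 : BoxOK sI cl9 cl7 cl6 t3 t1 b5_4 :=
  box_mk (TrL.c (I.pos (nat_lit 0) (nat_lit 0)) (xa (xa (xb T3.l0 T3.l0) T3.l0) T3.l0)
  (TrL.c (I.pos (nat_lit 0) (nat_lit 0)) (xa T1.l4 T1.l4)
  (TrL.c (I.pos (nat_lit 0) (nat_lit 124588530)) (xR T3.l4 T3.l5)
  (TrL.c (I.pos (nat_lit 0) (nat_lit 96881482)) (xR T1.l5 T1.l5)
  (TrL.c (I.pos (nat_lit 0) (nat_lit 0)) (xa T1.l6 T1.l6)
  (TrL.c (I.pos (nat_lit 0) (nat_lit 0)) T3.l6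
  (TrL.c (I.mix (nat_lit 17240550) (nat_lit 96881482)) T1.l7
  (TrL.c (I.mix (nat_lit 17240550) (nat_lit 71940500)) T3.l7
  TrL.n)))))))) (by decide +kernel)
theorem bx5_5 : BoxOK sI cl9 cl7 cl6 t3 t1 b5_5 :=
  box_mk (TrL.c (I.pos (nat_lit 0) (nat_lit 0)) (xa T3.l0 T3.l0)
  (TrL.c (I.pos (nat_lit 0) (nat_lit 0)) (xa T1.l4 T1.l4)
  (TrL.c (I.pos (nat_lit 0) (nat_lit 124588530)) (xR T3.l4 T3.l5)
  (TrL.c (I.pos (nat_lit 0) (nat_lit 96881482)) (xR T1.l5 T1.l5)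
  (TrL.c (I.pos (nat_lit 0) (nat_lit 0)) (xa T1.l6 T1.l6)
  (TrL.c (I.pos (nat_lit 0) (nat_lit 0)) T3.l6
  (TrL.c (I.mix (nat_lit 17240550) (nat_lit 96881482)) T1.l7
  (TrL.c (I.mix (nat_lit 17240550) (nat_lit 71940500)) T3.l7
  TrL.n)))))))) (by decide +kernel)
theorem bx5_6 : BoxOK sI cl9 cl7 cl6 t3 t1 b5_6 :=
  box_mk (TrL.c (I.pos (nat_lit 0) (nat_lit 0)) T3.l0
  (TrL.c (I.pos (nat_lit 0) (nat_lit 0)) T1.l4
  (TrL.c (I.pos (nat_lit 0) (nat_lit 124588530)) (xR T3.l4 T3.l5)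
  (TrL.c (I.pos (nat_lit 0) (nat_lit 96881482)) T1.l5
  (TrL.c (I.pos (nat_lit 0) (nat_lit 0)) T1.l6
  (TrL.c (I.pos (nat_lit 0) (nat_lit 0)) T3.l6
  (TrL.c (I.mix (nat_lit 17240550) (nat_lit 96881482)) T1.l7
  (TrL.c (I.mix (nat_lit 17240550) (nat_lit 71940500)) T3.l7
  TrL.n)))))))) (by decide +kernel)
theorem bx5_7 : BoxOK sI cl9 cl7 cl6 t3 t1 b5_7 :=
  box_mk (TrL.c (I.pos (nat_lit 0) (nat_lit 0)) (xa (xa (xa T3.l0 T3.l0) T3.l0) T3.l0)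
  (TrL.c (I.pos (nat_lit 0) (nat_lit 0)) T1.l4
  (TrL.c (I.pos (nat_lit 0) (nat_lit 124588530)) (xR T3.l4 T3.l5)
  (TrL.c (I.pos (nat_lit 0) (nat_lit 96881482)) T1.l7
  (TrL.c (I.pos (nat_lit 0) (nat_lit 0)) (xa T1.l6 T1.l6)
  (TrL.c (I.pos (nat_lit 0) (nat_lit 0)) T3.l6
  (TrL.c (I.mix (nat_lit 17240550) (nat_lit 96881482)) T1.l7
  (TrL.c (I.mix (nat_lit 17240550) (nat_lit 71940500)) T3.l7
  TrL.n)))))))) (by decide +kernel)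
theorem sv5 : StarV sI cl9 cl7 cl6 t3 t1 t5 :=
  (bt_n (bt_n (bt_n (bt_b bx5_0) (bt_b bx5_1)) (bt_n (bt_b bx5_2) (bt_b bx5_3))) (bt_n (bt_n (bt_b bx5_4) (bt_b bx5_5)) (bt_n (bt_b bx5_6) (bt_b bx5_7))))
def S5 : StarD := StarD.mk cl9 cl7 cl6 3 1 t5
def G : List StarD := [S0, S1, S2, S3, S4, S5]
theorem so0 : StarOK sI G S0 :=
  star_mk (by decide) (by decide) rfl rfl rfl rfl rfl rfl (rfl : _ = t2) (rfl : _ = t4)
  (st_mk (Pth.l (Pth.l (Pth.l Pth.z))) (nat_lit 141776325) (nat_lit 164188792) (by decide +kernel))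
  (st_mk (Pth.l (Pth.l (Pth.l Pth.z))) (nat_lit 177668206) (nat_lit 200381192) (by decide +kernel))
  (st_mk (Pth.l (Pth.l (Pth.l Pth.z))) (nat_lit 219365997) (nat_lit 242482403) (by decide +kernel)) sv0
theorem so1 : StarOK sI G S1 :=
  star_mk (by decide) (by decide) rfl rfl rfl rfl rfl rfl (rfl : _ = t4) (rfl : _ = t2)
  (st_mk (Pth.l (Pth.l (Pth.l Pth.z))) (nat_lit 116379560) (nat_lit 134994579) (by decide +kernel))
  (st_mk (Pth.l (Pth.l (Pth.l Pth.z))) (nat_lit 152184694) (nat_lit 171089954) (by decide +kernel))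
  (st_mk (Pth.l (Pth.l (Pth.l Pth.z))) (nat_lit 193808880) (nat_lit 213108783) (by decide +kernel)) sv1
theorem so2 : StarOK sI G S2 :=
  star_mk (by decide) (by decide) rfl rfl rfl rfl rfl rfl (rfl : _ = t0) (rfl : _ = t5)
  (st_mk (Pth.l (Pth.l (Pth.l Pth.z))) (nat_lit 187390071) (nat_lit 188850769) (by decide +kernel))
  (st_mk (Pth.l (Pth.l (Pth.l Pth.z))) (nat_lit 222928113) (nat_lit 224776762) (by decide +kernel))
  (st_mk (Pth.l (Pth.l (Pth.l Pth.z))) (nat_lit 264074709) (nat_lit 266460844) (by decide +kernel)) sv2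
theorem so3 : StarOK sI G S3 :=
  star_mk (by decide) (by decide) rfl rfl rfl rfl rfl rfl (rfl : _ = t5) (rfl : _ = t0)
  (st_mk (Pth.l (Pth.l (Pth.l Pth.z))) (nat_lit 115839914) (nat_lit 134502531) (by decide +kernel))
  (st_mk (Pth.l (Pth.l (Pth.l Pth.z))) (nat_lit 151261224) (nat_lit 170292769) (by decide +kernel))
  (st_mk (Pth.l (Pth.l (Pth.l Pth.z))) (nat_lit 192307594) (nat_lit 211860800) (by decide +kernel)) sv3
theorem so4 : StarOK sI G S4 :=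
  star_mk (by decide) (by decide) rfl rfl rfl rfl rfl rfl (rfl : _ = t1) (rfl : _ = t3)
  (st_mk (Pth.l (Pth.l (Pth.l Pth.z))) (nat_lit 186548520) (nat_lit 187911537) (by decide +kernel))
  (st_mk (Pth.l (Pth.l (Pth.l Pth.z))) (nat_lit 221735925) (nat_lit 223441376) (by decide +kernel))
  (st_mk (Pth.l (Pth.l (Pth.l Pth.z))) (nat_lit 262399645) (nat_lit 264576642) (by decide +kernel)) sv4
theorem so5 : StarOK sI G S5 :=
  star_mk (by decide) (by decide) rfl rfl rfl rfl rfl rfl (rfl : _ = t3) (rfl : _ = t1)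
  (st_mk (Pth.l (Pth.l (Pth.l Pth.z))) (nat_lit 140467235) (nat_lit 162795568) (by decide +kernel))
  (st_mk (Pth.l (Pth.l (Pth.l Pth.z))) (nat_lit 175624439) (nat_lit 198286396) (by decide +kernel))
  (st_mk (Pth.l (Pth.l (Pth.l Pth.z))) (nat_lit 216261995) (nat_lit 239388049) (by decide +kernel)) sv5
theorem ok : GroupOK (nat_lit 91226112) (nat_lit 150339584) G := grp_mk (allS_c so0 (allS_c so1 (allS_c so2 (allS_c so3 (allS_c so4 (allS_c so5 allS_n))))))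
theorem cov : GCov G cl6 cl7 cl9 := cov_mk
  ⟨0, by decide, rfl, rfl, rfl⟩ ⟨1, by decide, rfl, rfl, rfl⟩ ⟨2, by decide, rfl, rfl, rfl⟩ ⟨3, by decide, rfl, rfl, rfl⟩ ⟨4, by decide, rfl, rfl, rfl⟩ ⟨5, by decide, rfl, rfl, rfl⟩
end Q345_1

namespace Q345_2
def sI : I := I.pos (nat_lit 150274048) (nat_lit 209387520)
def b0_0 : Bx := Bx.mk (St.mk (I.pos (nat_lit 156942336) (nat_lit 235241472)) (I.mix (nat_lit 278528) (nat_lit 63930368)) (I.mix (nat_lit 278528) (nat_lit 91488256)) (I.pos (nat_lit 143933440) (nat_lit 271859712)) (I.mix (nat_lit 116490240) (nat_lit 68632576)) (I.mix (nat_lit 75612160) (nat_lit 71516160)) (I.mix (nat_lit 102432768) (nat_lit 93257728)))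
  false (nat_lit 31274809)
def b0_1 : Bx := Bx.mk (St.mk (I.mix (nat_lit 24805376) (nat_lit 122978304)) (I.mix (nat_lit 10190848) (nat_lit 34783232)) (I.mix (nat_lit 20676608) (nat_lit 17514496)) (I.pos (nat_lit 40550400) (nat_lit 116375552)) (I.mix (nat_lit 39501824) (nat_lit 39649280)) (I.mix (nat_lit 32489472) (nat_lit 27459584)) (I.mix (nat_lit 23904256) (nat_lit 17317888)))
  false (nat_lit 0)
def b0_2 : Bx := Bx.mk (St.mk (I.pos (nat_lit 91815936) (nat_lit 143048704)) (I.mix (nat_lit 59293696) (nat_lit 8192000)) (I.neg (nat_lit 2244608) (nat_lit 62881792)) (I.pos (nat_lit 78381056) (nat_lit 139280384)) (I.mix (nat_lit 101056512) (nat_lit 29982720)) (I.mix (nat_lit 40402944) (nat_lit 80199680)) (I.mix (nat_lit 27623424) (nat_lit 60162048)))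
  false (nat_lit 0)
def b0_3 : Bx := Bx.mk (St.mk (I.mix (nat_lit 35880960) (nat_lit 67469312)) (I.mix (nat_lit 29818880) (nat_lit 6504448)) (I.neg (nat_lit 32768) (nat_lit 19628032)) (I.pos (nat_lit 42041344) (nat_lit 81346560)) (I.mix (nat_lit 39600128) (nat_lit 19906560)) (I.mix (nat_lit 18497536) (nat_lit 30097408)) (I.mix (nat_lit 9289728) (nat_lit 12320768)))
  false (nat_lit 0)
def b0_4 : Bx := Bx.mk (St.mk (I.pos (nat_lit 191578112) (nat_lit 282656768)) (I.mix (nat_lit 28786688) (nat_lit 38043648)) (I.mix (nat_lit 94765056) (nat_lit 44367872)) (I.pos (nat_lit 210894848) (nat_lit 371539968)) (I.mix (nat_lit 80052224) (nat_lit 44154880)) (I.mix (nat_lit 55083008) (nat_lit 38944768)) (I.mix (nat_lit 81395712) (nat_lit 74530816)))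
  false (nat_lit 0)
def b0_5 : Bx := Bx.mk (St.mk (I.pos (nat_lit 85884928) (nat_lit 173539328)) (I.neg (nat_lit 720896) (nat_lit 67715072)) (I.neg (nat_lit 3424256) (nat_lit 70828032)) (I.pos (nat_lit 89325568) (nat_lit 176701440)) (I.mix (nat_lit 96239616) (nat_lit 55721984)) (I.mix (nat_lit 54935552) (nat_lit 72843264)) (I.mix (nat_lit 41746432) (nat_lit 69582848)))
  false (nat_lit 602169)
def b0_6 : Bx := Bx.mk (St.mk (I.mix (nat_lit 30949376) (nat_lit 82067456)) (I.mix (nat_lit 32997376) (nat_lit 7028736)) (I.mix (nat_lit 23150592) (nat_lit 360448)) (I.pos (nat_lit 39878656) (nat_lit 89440256)) (I.mix (nat_lit 38764544) (nat_lit 30228480)) (I.mix (nat_lit 23412736) (nat_lit 33931264)) (I.mix (nat_lit 12926976) (nat_lit 18464768)))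
  false (nat_lit 0)
def b0_7 : Bx := Bx.mk (St.mk (I.pos (nat_lit 161808384) (nat_lit 216989696)) (I.mix (nat_lit 11370496) (nat_lit 62275584)) (I.pos (nat_lit 131072) (nat_lit 88522752)) (I.pos (nat_lit 151470080) (nat_lit 242909184)) (I.mix (nat_lit 135217152) (nat_lit 51380224)) (I.mix (nat_lit 126566400) (nat_lit 68730880)) (I.mix (nat_lit 131284992) (nat_lit 67207168)))
  false (nat_lit 26109954)
def b0_8 : Bx := Bx.mk (St.mk (I.mix (nat_lit 33800192) (nat_lit 118849536)) (I.mix (nat_lit 13303808) (nat_lit 38862848)) (I.mix (nat_lit 12140544) (nat_lit 21970944)) (I.pos (nat_lit 42549248) (nat_lit 111017984)) (I.mix (nat_lit 51707904) (nat_lit 31260672)) (I.mix (nat_lit 48152576) (nat_lit 28655616)) (I.mix (nat_lit 26460160) (nat_lit 17022976)))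
  false (nat_lit 0)
def b0_9 : Bx := Bx.mk (St.mk (I.pos (nat_lit 180748288) (nat_lit 236224512)) (I.pos (nat_lit 7798784) (nat_lit 58114048)) (I.pos (nat_lit 3538944) (nat_lit 83804160)) (I.pos (nat_lit 204668928) (nat_lit 269533184)) (I.mix (nat_lit 99352576) (nat_lit 72515584)) (I.mix (nat_lit 82313216) (nat_lit 58785792)) (I.mix (nat_lit 126124032) (nat_lit 74448896)))
  false (nat_lit 11715570)
def b0_10 : Bx := Bx.mk (St.mk (I.pos (nat_lit 143114240) (nat_lit 211943424)) (I.mix (nat_lit 40845312) (nat_lit 22364160)) (I.mix (nat_lit 46809088) (nat_lit 33439744)) (I.pos (nat_lit 126566400) (nat_lit 227311616)) (I.mix (nat_lit 60522496) (nat_lit 60653568)) (I.mix (nat_lit 66584576) (nat_lit 58671104)) (I.mix (nat_lit 68091904) (nat_lit 59342848)))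
  false (nat_lit 8246222)
def b0_11 : Bx := Bx.mk (St.mk (I.pos (nat_lit 162512896) (nat_lit 213630976)) (I.mix (nat_lit 18956288) (nat_lit 40009728)) (I.mix (nat_lit 16121856) (nat_lit 59588608)) (I.pos (nat_lit 153370624) (nat_lit 232816640)) (I.mix (nat_lit 117506048) (nat_lit 68173824)) (I.mix (nat_lit 125468672) (nat_lit 63373312)) (I.mix (nat_lit 133808128) (nat_lit 65372160)))
  false (nat_lit 18870504)
def t0 : BTr := (BTr.n (BTr.n (BTr.n (BTr.b b0_0) (BTr.n (BTr.b b0_1) (BTr.b b0_2))) (BTr.n (BTr.b b0_3) (BTr.n (BTr.b b0_4) (BTr.b b0_5)))) (BTr.n (BTr.n (BTr.b b0_6) (BTr.n (BTr.b b0_7) (BTr.b b0_8))) (BTr.n (BTr.b b0_9) (BTr.n (BTr.b b0_10) (BTr.b b0_11)))))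
namespace T0
def l0 : Tr := Tr.L (Pth.l (Pth.l (Pth.l Pth.z)))
def l1 : Tr := Tr.L (Pth.l (Pth.l (Pth.r (Pth.l Pth.z))))
def l2 : Tr := Tr.L (Pth.l (Pth.l (Pth.r (Pth.r Pth.z))))
def l3 : Tr := Tr.L (Pth.l (Pth.r (Pth.l Pth.z)))
def l4 : Tr := Tr.L (Pth.l (Pth.r (Pth.r (Pth.l Pth.z))))
def l5 : Tr := Tr.L (Pth.l (Pth.r (Pth.r (Pth.r Pth.z))))
def l6 : Tr := Tr.L (Pth.r (Pth.l (Pth.l Pth.z)))
def l7 : Tr := Tr.L (Pth.r (Pth.l (Pth.r (Pth.l Pth.z))))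
def l8 : Tr := Tr.L (Pth.r (Pth.l (Pth.r (Pth.r Pth.z))))
def l9 : Tr := Tr.L (Pth.r (Pth.r (Pth.l Pth.z)))
def l10 : Tr := Tr.L (Pth.r (Pth.r (Pth.r (Pth.l Pth.z))))
def l11 : Tr := Tr.L (Pth.r (Pth.r (Pth.r (Pth.r Pth.z))))
end T0
def b1_0 : Bx := Bx.mk (St.mk (I.pos (nat_lit 160514048) (nat_lit 237535232)) (I.mix (nat_lit 278528) (nat_lit 58130432)) (I.mix (nat_lit 278528) (nat_lit 91783168)) (I.pos (nat_lit 116572160) (nat_lit 244170752)) (I.mix (nat_lit 109789184) (nat_lit 65781760)) (I.mix (nat_lit 77332480) (nat_lit 66764800)) (I.mix (nat_lit 109215744) (nat_lit 84049920)))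
  false (nat_lit 34877339)
def b1_1 : Bx := Bx.mk (St.mk (I.mix (nat_lit 18448384) (nat_lit 139886592)) (I.mix (nat_lit 8683520) (nat_lit 28196864)) (I.mix (nat_lit 14270464) (nat_lit 21889024)) (I.pos (nat_lit 16384000) (nat_lit 102400000)) (I.mix (nat_lit 34045952) (nat_lit 32014336)) (I.mix (nat_lit 30785536) (nat_lit 22577152)) (I.mix (nat_lit 24952832) (nat_lit 17088512)))
  false (nat_lit 0)
def b1_2 : Bx := Bx.mk (St.mk (I.pos (nat_lit 105562112) (nat_lit 154730496)) (I.mix (nat_lit 55721984) (nat_lit 7487488)) (I.mix (nat_lit 58654720) (nat_lit 1916928)) (I.pos (nat_lit 63356928) (nat_lit 124370944)) (I.mix (nat_lit 94519296) (nat_lit 34291712)) (I.mix (nat_lit 36061184) (nat_lit 84541440)) (I.mix (nat_lit 26394624) (nat_lit 69517312)))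
  false (nat_lit 0)
def b1_3 : Bx := Bx.mk (St.mk (I.mix (nat_lit 19660800) (nat_lit 98713600)) (I.mix (nat_lit 26443776) (nat_lit 3670016)) (I.mix (nat_lit 18268160) (nat_lit 475136)) (I.pos (nat_lit 17809408) (nat_lit 69713920)) (I.mix (nat_lit 34078720) (nat_lit 13451264)) (I.mix (nat_lit 14155776) (nat_lit 27377664)) (I.mix (nat_lit 7733248) (nat_lit 14483456)))
  false (nat_lit 0)
def b1_4 : Bx := Bx.mk (St.mk (I.pos (nat_lit 193249280) (nat_lit 284164096)) (I.mix (nat_lit 26820608) (nat_lit 34865152)) (I.mix (nat_lit 73498624) (nat_lit 53805056)) (I.pos (nat_lit 186548224) (nat_lit 345358336)) (I.mix (nat_lit 81297408) (nat_lit 40304640)) (I.mix (nat_lit 57278464) (nat_lit 37093376)) (I.mix (nat_lit 88064000) (nat_lit 68304896)))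
  false (nat_lit 27885918)
def b1_5 : Bx := Bx.mk (St.mk (I.pos (nat_lit 99958784) (nat_lit 181125120)) (I.mix (nat_lit 58376192) (nat_lit 491520)) (I.neg (nat_lit 1114112) (nat_lit 59752448)) (I.pos (nat_lit 75579392) (nat_lit 159645696)) (I.mix (nat_lit 90783744) (nat_lit 55115776)) (I.mix (nat_lit 51707904) (nat_lit 68517888)) (I.mix (nat_lit 42647552) (nat_lit 69009408)))
  false (nat_lit 27668639)
def b1_6 : Bx := Bx.mk (St.mk (I.mix (nat_lit 17825792) (nat_lit 108478464)) (I.mix (nat_lit 28917760) (nat_lit 4603904)) (I.mix (nat_lit 22118400) (nat_lit 2342912)) (I.pos (nat_lit 16531456) (nat_lit 76382208)) (I.mix (nat_lit 34258944) (nat_lit 28147712)) (I.mix (nat_lit 20889600) (nat_lit 29491200)) (I.mix (nat_lit 12845056) (nat_lit 18661376)))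
  false (nat_lit 0)
def b1_7 : Bx := Bx.mk (St.mk (I.pos (nat_lit 167575552) (nat_lit 217350144)) (I.mix (nat_lit 13451264) (nat_lit 54394880)) (I.pos (nat_lit 491520) (nat_lit 86589440)) (I.pos (nat_lit 129826816) (nat_lit 214646784)) (I.mix (nat_lit 127565824) (nat_lit 52477952)) (I.mix (nat_lit 121634816) (nat_lit 65716224)) (I.mix (nat_lit 135954432) (nat_lit 66387968)))
  false (nat_lit 0)
def b1_8 : Bx := Bx.mk (St.mk (I.mix (nat_lit 20905984) (nat_lit 135462912)) (I.mix (nat_lit 12943360) (nat_lit 35602432)) (I.mix (nat_lit 10584064) (nat_lit 25935872)) (I.pos (nat_lit 17825792) (nat_lit 98271232)) (I.mix (nat_lit 51363840) (nat_lit 25608192)) (I.mix (nat_lit 45006848) (nat_lit 27000832)) (I.mix (nat_lit 29425664) (nat_lit 17465344)))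
  false (nat_lit 0)
def b1_9 : Bx := Bx.mk (St.mk (I.pos (nat_lit 146489344) (nat_lit 215023616)) (I.mix (nat_lit 43679744) (nat_lit 19021824)) (I.mix (nat_lit 47824896) (nat_lit 35995648)) (I.pos (nat_lit 108298240) (nat_lit 204521472)) (I.mix (nat_lit 64208896) (nat_lit 60801024)) (I.mix (nat_lit 65650688) (nat_lit 55459840)) (I.mix (nat_lit 68976640) (nat_lit 58540032)))
  false (nat_lit 63459241)
def b1_10 : Bx := Bx.mk (St.mk (I.pos (nat_lit 165363712) (nat_lit 213008384)) (I.mix (nat_lit 21102592) (nat_lit 36683776)) (I.mix (nat_lit 11812864) (nat_lit 61554688)) (I.pos (nat_lit 128368640) (nat_lit 201768960)) (I.mix (nat_lit 120340480) (nat_lit 64143360)) (I.mix (nat_lit 127123456) (nat_lit 61489152)) (I.mix (nat_lit 142835712) (nat_lit 61800448)))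
  false (nat_lit 11813746)
def b1_11 : Bx := Bx.mk (St.mk (I.pos (nat_lit 180289536) (nat_lit 237895680)) (I.pos (nat_lit 5718016) (nat_lit 52183040)) (I.pos (nat_lit 8470528) (nat_lit 85983232)) (I.pos (nat_lit 175210496) (nat_lit 242614272)) (I.mix (nat_lit 97992704) (nat_lit 75333632)) (I.mix (nat_lit 81149952) (nat_lit 59588608)) (I.mix (nat_lit 124796928) (nat_lit 72302592)))
  false (nat_lit 34552643)
def t1 : BTr := (BTr.n (BTr.n (BTr.n (BTr.b b1_0) (BTr.n (BTr.b b1_1) (BTr.b b1_2))) (BTr.n (BTr.b b1_3) (BTr.n (BTr.b b1_4) (BTr.b b1_5)))) (BTr.n (BTr.n (BTr.b b1_6) (BTr.n (BTr.b b1_7) (BTr.b b1_8))) (BTr.n (BTr.b b1_9) (BTr.n (BTr.b b1_10) (BTr.b b1_11)))))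
namespace T1
def l0 : Tr := Tr.L (Pth.l (Pth.l (Pth.l Pth.z)))
def l1 : Tr := Tr.L (Pth.l (Pth.l (Pth.r (Pth.l Pth.z))))
def l2 : Tr := Tr.L (Pth.l (Pth.l (Pth.r (Pth.r Pth.z))))
def l3 : Tr := Tr.L (Pth.l (Pth.r (Pth.l Pth.z)))
def l4 : Tr := Tr.L (Pth.l (Pth.r (Pth.r (Pth.l Pth.z))))
def l5 : Tr := Tr.L (Pth.l (Pth.r (Pth.r (Pth.r Pth.z))))
def l6 : Tr := Tr.L (Pth.r (Pth.l (Pth.l Pth.z)))
def l7 : Tr := Tr.L (Pth.r (Pth.l (Pth.r (Pth.l Pth.z))))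
def l8 : Tr := Tr.L (Pth.r (Pth.l (Pth.r (Pth.r Pth.z))))
def l9 : Tr := Tr.L (Pth.r (Pth.r (Pth.l Pth.z)))
def l10 : Tr := Tr.L (Pth.r (Pth.r (Pth.r (Pth.l Pth.z))))
def l11 : Tr := Tr.L (Pth.r (Pth.r (Pth.r (Pth.r Pth.z))))
end T1
def b2_0 : Bx := Bx.mk (St.mk (I.pos (nat_lit 153534464) (nat_lit 232013824)) (I.mix (nat_lit 278528) (nat_lit 66797568)) (I.mix (nat_lit 278528) (nat_lit 98435072)) (I.pos (nat_lit 187088896) (nat_lit 292618240)) (I.mix (nat_lit 122454016) (nat_lit 71696384)) (I.mix (nat_lit 77070336) (nat_lit 73433088)) (I.mix (nat_lit 102694912) (nat_lit 94879744)))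
  false (nat_lit 79789286)
def b2_1 : Bx := Bx.mk (St.mk (I.mix (nat_lit 29704192) (nat_lit 98631680)) (I.mix (nat_lit 8503296) (nat_lit 37355520)) (I.mix (nat_lit 18677760) (nat_lit 13910016)) (I.pos (nat_lit 82313216) (nat_lit 126091264)) (I.mix (nat_lit 35536896) (nat_lit 43237376)) (I.mix (nat_lit 37683200) (nat_lit 28114944)) (I.mix (nat_lit 24510464) (nat_lit 15237120)))
  false (nat_lit 0)
def b2_2 : Bx := Bx.mk (St.mk (I.pos (nat_lit 76906496) (nat_lit 124354560)) (I.mix (nat_lit 58114048) (nat_lit 10059776)) (I.neg (nat_lit 2752512) (nat_lit 54755328)) (I.pos (nat_lit 111443968) (nat_lit 147390464)) (I.mix (nat_lit 79691776) (nat_lit 33570816)) (I.mix (nat_lit 32440320) (nat_lit 70008832)) (I.mix (nat_lit 22052864) (nat_lit 47562752)))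
  false (nat_lit 0)
def b2_3 : Bx := Bx.mk (St.mk (I.mix (nat_lit 49299456) (nat_lit 29081600)) (I.mix (nat_lit 32555008) (nat_lit 7028736)) (I.mix (nat_lit 12730368) (nat_lit 2031616)) (I.pos (nat_lit 82804736) (nat_lit 100761600)) (I.mix (nat_lit 36700160) (nat_lit 23543808)) (I.mix (nat_lit 19939328) (nat_lit 31293440)) (I.mix (nat_lit 11436032) (nat_lit 6389760)))
  false (nat_lit 0)
def b2_4 : Bx := Bx.mk (St.mk (I.pos (nat_lit 82182144) (nat_lit 166494208)) (I.neg (nat_lit 3637248) (nat_lit 66781184)) (I.neg (nat_lit 2228224) (nat_lit 63111168)) (I.pos (nat_lit 123076608) (nat_lit 194396160)) (I.mix (nat_lit 82100224) (nat_lit 45744128)) (I.mix (nat_lit 41156608) (nat_lit 59899904)) (I.mix (nat_lit 31391744) (nat_lit 51970048)))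
  false (nat_lit 0)
def b2_5 : Bx := Bx.mk (St.mk (I.mix (nat_lit 33865728) (nat_lit 48185344)) (I.mix (nat_lit 32931840) (nat_lit 6635520)) (I.mix (nat_lit 15122432) (nat_lit 999424)) (I.pos (nat_lit 82067456) (nat_lit 101318656)) (I.mix (nat_lit 29196288) (nat_lit 30457856)) (I.mix (nat_lit 20692992) (nat_lit 29720576)) (I.mix (nat_lit 8372224) (nat_lit 11206656)))
  false (nat_lit 0)
def b2_6 : Bx := Bx.mk (St.mk (I.pos (nat_lit 157302784) (nat_lit 213319680)) (I.mix (nat_lit 2359296) (nat_lit 62799872)) (I.pos (nat_lit 10944512) (nat_lit 89243648)) (I.pos (nat_lit 189874176) (nat_lit 259784704)) (I.mix (nat_lit 126746624) (nat_lit 44351488)) (I.mix (nat_lit 115490816) (nat_lit 62144512)) (I.mix (nat_lit 110166016) (nat_lit 57098240)))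
  false (nat_lit 52941124)
def b2_7 : Bx := Bx.mk (St.mk (I.mix (nat_lit 48185344) (nat_lit 74842112)) (I.mix (nat_lit 8667136) (nat_lit 32931840)) (I.mix (nat_lit 15384576) (nat_lit 11255808)) (I.pos (nat_lit 81854464) (nat_lit 107708416)) (I.mix (nat_lit 39600128) (nat_lit 29196288)) (I.mix (nat_lit 35012608) (nat_lit 21643264)) (I.mix (nat_lit 12943360) (nat_lit 11206656)))
  false (nat_lit 0)
def b2_8 : Bx := Bx.mk (St.mk (I.pos (nat_lit 189431808) (nat_lit 287588352)) (I.mix (nat_lit 25542656) (nat_lit 47054848)) (I.mix (nat_lit 88358912) (nat_lit 58408960)) (I.pos (nat_lit 243712000) (nat_lit 400064512)) (I.mix (nat_lit 85753856) (nat_lit 62881792)) (I.mix (nat_lit 63062016) (nat_lit 45596672)) (I.mix (nat_lit 108314624) (nat_lit 76939264)))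
  false (nat_lit 64442793)
def b2_9 : Bx := Bx.mk (St.mk (I.pos (nat_lit 139378688) (nat_lit 204800000)) (I.mix (nat_lit 39452672) (nat_lit 20103168)) (I.mix (nat_lit 37928960) (nat_lit 34455552)) (I.pos (nat_lit 166723584) (nat_lit 238157824)) (I.mix (nat_lit 65191936) (nat_lit 66043904)) (I.mix (nat_lit 69419008) (nat_lit 59719680)) (I.mix (nat_lit 64684032) (nat_lit 55508992)))
  false (nat_lit 0)
def b2_10 : Bx := Bx.mk (St.mk (I.pos (nat_lit 158597120) (nat_lit 205979648)) (I.mix (nat_lit 13795328) (nat_lit 39829504)) (I.mix (nat_lit 5603328) (nat_lit 63684608)) (I.pos (nat_lit 193380352) (nat_lit 245071872)) (I.mix (nat_lit 124993536) (nat_lit 68747264)) (I.mix (nat_lit 126320640) (nat_lit 61194240)) (I.mix (nat_lit 122961920) (nat_lit 56508416)))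
  false (nat_lit 0)
def b2_11 : Bx := Bx.mk (St.mk (I.pos (nat_lit 175751168) (nat_lit 234242048)) (I.pos (nat_lit 7536640) (nat_lit 65863680)) (I.pos (nat_lit 4341760) (nat_lit 91815936)) (I.pos (nat_lit 231915520) (nat_lit 292143104)) (I.mix (nat_lit 112295936) (nat_lit 82722816)) (I.mix (nat_lit 92291072) (nat_lit 66895872)) (I.mix (nat_lit 133152768) (nat_lit 85327872)))
  false (nat_lit 68432987)
def t2 : BTr := (BTr.n (BTr.n (BTr.n (BTr.b b2_0) (BTr.n (BTr.b b2_1) (BTr.b b2_2))) (BTr.n (BTr.b b2_3) (BTr.n (BTr.b b2_4) (BTr.b b2_5)))) (BTr.n (BTr.n (BTr.b b2_6) (BTr.n (BTr.b b2_7) (BTr.b b2_8))) (BTr.n (BTr.b b2_9) (BTr.n (BTr.b b2_10) (BTr.b b2_11)))))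
namespace T2
def l0 : Tr := Tr.L (Pth.l (Pth.l (Pth.l Pth.z)))
def l1 : Tr := Tr.L (Pth.l (Pth.l (Pth.r (Pth.l Pth.z))))
def l2 : Tr := Tr.L (Pth.l (Pth.l (Pth.r (Pth.r Pth.z))))
def l3 : Tr := Tr.L (Pth.l (Pth.r (Pth.l Pth.z)))
def l4 : Tr := Tr.L (Pth.l (Pth.r (Pth.r (Pth.l Pth.z))))
def l5 : Tr := Tr.L (Pth.l (Pth.r (Pth.r (Pth.r Pth.z))))
def l6 : Tr := Tr.L (Pth.r (Pth.l (Pth.l Pth.z)))
def l7 : Tr := Tr.L (Pth.r (Pth.l (Pth.r (Pth.l Pth.z))))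
def l8 : Tr := Tr.L (Pth.r (Pth.l (Pth.r (Pth.r Pth.z))))
def l9 : Tr := Tr.L (Pth.r (Pth.r (Pth.l Pth.z)))
def l10 : Tr := Tr.L (Pth.r (Pth.r (Pth.r (Pth.l Pth.z))))
def l11 : Tr := Tr.L (Pth.r (Pth.r (Pth.r (Pth.r Pth.z))))
end T2
def b3_0 : Bx := Bx.mk (St.mk (I.pos (nat_lit 158613504) (nat_lit 238387200)) (I.mix (nat_lit 278528) (nat_lit 58032128)) (I.mix (nat_lit 278528) (nat_lit 107266048)) (I.pos (nat_lit 115949568) (nat_lit 239255552)) (I.mix (nat_lit 113639424) (nat_lit 68239360)) (I.mix (nat_lit 85852160) (nat_lit 73695232)) (I.mix (nat_lit 117276672) (nat_lit 95879168)))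
  false (nat_lit 44702422)
def b3_1 : Bx := Bx.mk (St.mk (I.pos (nat_lit 100876288) (nat_lit 185614336)) (I.neg (nat_lit 1654784) (nat_lit 58458112)) (I.mix (nat_lit 53641216) (nat_lit 5242880)) (I.pos (nat_lit 78168064) (nat_lit 164184064)) (I.mix (nat_lit 86409216) (nat_lit 47251456)) (I.mix (nat_lit 46039040) (nat_lit 59244544)) (I.mix (nat_lit 35749888) (nat_lit 57458688)))
  false (nat_lit 9996623)
def b3_2 : Bx := Bx.mk (St.mk (I.mix (nat_lit 16367616) (nat_lit 108855296)) (I.mix (nat_lit 28049408) (nat_lit 4096000)) (I.mix (nat_lit 17776640) (nat_lit 6602752)) (I.pos (nat_lit 16777216) (nat_lit 76873728)) (I.mix (nat_lit 30916608) (nat_lit 24264704)) (I.mix (nat_lit 17612800) (nat_lit 24395776)) (I.mix (nat_lit 10878976) (nat_lit 15515648)))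
  false (nat_lit 0)
def b3_3 : Bx := Bx.mk (St.mk (I.pos (nat_lit 167460864) (nat_lit 214679552)) (I.mix (nat_lit 13811712) (nat_lit 52690944)) (I.pos (nat_lit 6389760) (nat_lit 94076928)) (I.pos (nat_lit 126894080) (nat_lit 208240640)) (I.mix (nat_lit 137379840) (nat_lit 51265536)) (I.mix (nat_lit 131055616) (nat_lit 62373888)) (I.mix (nat_lit 149291008) (nat_lit 58834944)))
  false (nat_lit 28350405)
def b3_4 : Bx := Bx.mk (St.mk (I.mix (nat_lit 21299200) (nat_lit 134152192)) (I.mix (nat_lit 12582912) (nat_lit 36093952)) (I.mix (nat_lit 6176768) (nat_lit 30457856)) (I.pos (nat_lit 17727488) (nat_lit 96829440)) (I.mix (nat_lit 57032704) (nat_lit 25608192)) (I.mix (nat_lit 46891008) (nat_lit 25346048)) (I.mix (nat_lit 29851648) (nat_lit 16007168)))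
  false (nat_lit 0)
def b3_5 : Bx := Bx.mk (St.mk (I.pos (nat_lit 146980864) (nat_lit 213778432)) (I.mix (nat_lit 38895616) (nat_lit 17432576)) (I.mix (nat_lit 32653312) (nat_lit 44171264)) (I.pos (nat_lit 107610112) (nat_lit 200523776)) (I.mix (nat_lit 58245120) (nat_lit 59949056)) (I.mix (nat_lit 58392576) (nat_lit 55984128)) (I.mix (nat_lit 58212352) (nat_lit 58720256)))
  false (nat_lit 39775012)
def b3_6 : Bx := Bx.mk (St.mk (I.mix (nat_lit 19972096) (nat_lit 139689984)) (I.mix (nat_lit 7045120) (nat_lit 28147712)) (I.mix (nat_lit 7208960) (nat_lit 27934720)) (I.pos (nat_lit 16121856) (nat_lit 101695488)) (I.mix (nat_lit 38797312) (nat_lit 33554432)) (I.mix (nat_lit 34930688) (nat_lit 26902528)) (I.mix (nat_lit 28213248) (nat_lit 20627456)))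
  false (nat_lit 0)
def b3_7 : Bx := Bx.mk (St.mk (I.pos (nat_lit 105005056) (nat_lit 156893184)) (I.mix (nat_lit 56459264) (nat_lit 8224768)) (I.mix (nat_lit 52903936) (nat_lit 9076736)) (I.pos (nat_lit 63864832) (nat_lit 127139840)) (I.mix (nat_lit 88260608) (nat_lit 34193408)) (I.mix (nat_lit 35504128) (nat_lit 73203712)) (I.mix (nat_lit 26378240) (nat_lit 61440000)))
  false (nat_lit 0)
def b3_8 : Bx := Bx.mk (St.mk (I.mix (nat_lit 16220160) (nat_lit 100270080)) (I.mix (nat_lit 22183936) (nat_lit 4931584)) (I.mix (nat_lit 14434304) (nat_lit 2703360)) (I.pos (nat_lit 17907712) (nat_lit 70729728)) (I.mix (nat_lit 32243712) (nat_lit 14876672)) (I.mix (nat_lit 15319040) (nat_lit 29016064)) (I.mix (nat_lit 8667136) (nat_lit 14843904)))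
  false (nat_lit 0)
def b3_9 : Bx := Bx.mk (St.mk (I.pos (nat_lit 199049216) (nat_lit 285130752)) (I.mix (nat_lit 23068672) (nat_lit 39813120)) (I.mix (nat_lit 48644096) (nat_lit 79249408)) (I.pos (nat_lit 193593344) (nat_lit 343343104)) (I.mix (nat_lit 87752704) (nat_lit 53624832)) (I.mix (nat_lit 65978368) (nat_lit 40206336)) (I.mix (nat_lit 103350272) (nat_lit 67141632)))
  false (nat_lit 36412521)
def b3_10 : Bx := Bx.mk (St.mk (I.pos (nat_lit 179503104) (nat_lit 236355584)) (I.pos (nat_lit 13795328) (nat_lit 52461568)) (I.pos (nat_lit 32079872) (nat_lit 97828864)) (I.pos (nat_lit 170950656) (nat_lit 235438080)) (I.mix (nat_lit 99696640) (nat_lit 80609280)) (I.mix (nat_lit 90374144) (nat_lit 69402624)) (I.mix (nat_lit 137674752) (nat_lit 88702976)))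
  false (nat_lit 36124868)
def b3_11 : Bx := Bx.mk (St.mk (I.pos (nat_lit 165183488) (nat_lit 211550208)) (I.mix (nat_lit 18563072) (nat_lit 32210944)) (I.pos (nat_lit 638976) (nat_lit 65060864)) (I.pos (nat_lit 124518400) (nat_lit 196820992)) (I.mix (nat_lit 113655808) (nat_lit 60866560)) (I.mix (nat_lit 131055616) (nat_lit 58949632)) (I.mix (nat_lit 147210240) (nat_lit 62537728)))
  false (nat_lit 26796706)
def t3 : BTr := (BTr.n (BTr.n (BTr.n (BTr.b b3_0) (BTr.n (BTr.b b3_1) (BTr.b b3_2))) (BTr.n (BTr.b b3_3) (BTr.n (BTr.b b3_4) (BTr.b b3_5)))) (BTr.n (BTr.n (BTr.b b3_6) (BTr.n (BTr.b b3_7) (BTr.b b3_8))) (BTr.n (BTr.b b3_9) (BTr.n (BTr.b b3_10) (BTr.b b3_11)))))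
namespace T3
def l0 : Tr := Tr.L (Pth.l (Pth.l (Pth.l Pth.z)))
def l1 : Tr := Tr.L (Pth.l (Pth.l (Pth.r (Pth.l Pth.z))))
def l2 : Tr := Tr.L (Pth.l (Pth.l (Pth.r (Pth.r Pth.z))))
def l3 : Tr := Tr.L (Pth.l (Pth.r (Pth.l Pth.z)))
def l4 : Tr := Tr.L (Pth.l (Pth.r (Pth.r (Pth.l Pth.z))))
def l5 : Tr := Tr.L (Pth.l (Pth.r (Pth.r (Pth.r Pth.z))))
def l6 : Tr := Tr.L (Pth.r (Pth.l (Pth.l Pth.z)))
def l7 : Tr := Tr.L (Pth.r (Pth.l (Pth.r (Pth.l Pth.z))))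
def l8 : Tr := Tr.L (Pth.r (Pth.l (Pth.r (Pth.r Pth.z))))
def l9 : Tr := Tr.L (Pth.r (Pth.r (Pth.l Pth.z)))
def l10 : Tr := Tr.L (Pth.r (Pth.r (Pth.r (Pth.l Pth.z))))
def l11 : Tr := Tr.L (Pth.r (Pth.r (Pth.r (Pth.r Pth.z))))
end T3
def b4_0 : Bx := Bx.mk (St.mk (I.pos (nat_lit 149372928) (nat_lit 230195200)) (I.mix (nat_lit 278528) (nat_lit 61652992)) (I.mix (nat_lit 278528) (nat_lit 99155968)) (I.pos (nat_lit 186105856) (nat_lit 286326784)) (I.mix (nat_lit 125042688) (nat_lit 69386240)) (I.mix (nat_lit 83722240) (nat_lit 68354048)) (I.mix (nat_lit 104054784) (nat_lit 90669056)))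
  false (nat_lit 103967291)
def b4_1 : Bx := Bx.mk (St.mk (I.pos (nat_lit 85426176) (nat_lit 167985152)) (I.neg (nat_lit 5849088) (nat_lit 66928640)) (I.mix (nat_lit 57114624) (nat_lit 6455296)) (I.pos (nat_lit 126779392) (nat_lit 195428352)) (I.mix (nat_lit 78462976) (nat_lit 49807360)) (I.mix (nat_lit 41467904) (nat_lit 59637760)) (I.mix (nat_lit 32882688) (nat_lit 51380224)))
  false (nat_lit 0)
def b4_2 : Bx := Bx.mk (St.mk (I.mix (nat_lit 31113216) (nat_lit 49004544)) (I.mix (nat_lit 32997376) (nat_lit 6504448)) (I.mix (nat_lit 10272768) (nat_lit 5685248)) (I.pos (nat_lit 82673664) (nat_lit 100925440)) (I.mix (nat_lit 26443776) (nat_lit 33685504)) (I.mix (nat_lit 20938752) (nat_lit 29900800)) (I.mix (nat_lit 7290880) (nat_lit 10895360)))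
  false (nat_lit 0)
def b4_3 : Bx := Bx.mk (St.mk (I.pos (nat_lit 152174592) (nat_lit 207831040)) (I.mix (nat_lit 2473984) (nat_lit 62013440)) (I.pos (nat_lit 17596416) (nat_lit 96600064)) (I.pos (nat_lit 183828480) (nat_lit 251920384)) (I.mix (nat_lit 132595712) (nat_lit 42090496)) (I.mix (nat_lit 120029184) (nat_lit 57376768)) (I.mix (nat_lit 116260864) (nat_lit 51773440)))
  false (nat_lit 50385413)
def b4_4 : Bx := Bx.mk (St.mk (I.mix (nat_lit 49004544) (nat_lit 73433088)) (I.mix (nat_lit 9584640) (nat_lit 35520512)) (I.mix (nat_lit 10272768) (nat_lit 16285696)) (I.pos (nat_lit 82673664) (nat_lit 110247936)) (I.mix (nat_lit 42860544) (nat_lit 26443776)) (I.mix (nat_lit 36913152) (nat_lit 20938752)) (I.mix (nat_lit 13303808) (nat_lit 10928128)))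
  false (nat_lit 0)
def b4_5 : Bx := Bx.mk (St.mk (I.mix (nat_lit 34013184) (nat_lit 96550912)) (I.mix (nat_lit 6979584) (nat_lit 37076992)) (I.mix (nat_lit 11681792) (nat_lit 19628032)) (I.pos (nat_lit 81002496) (nat_lit 124944384)) (I.mix (nat_lit 38633472) (nat_lit 38944768)) (I.mix (nat_lit 36896768) (nat_lit 27541504)) (I.mix (nat_lit 23511040) (nat_lit 16400384)))
  false (nat_lit 0)
def b4_6 : Bx := Bx.mk (St.mk (I.pos (nat_lit 78577664) (nat_lit 126697472)) (I.mix (nat_lit 60096512) (nat_lit 9420800)) (I.mix (nat_lit 50085888) (nat_lit 1654784)) (I.pos (nat_lit 112476160) (nat_lit 150011904)) (I.mix (nat_lit 76283904) (nat_lit 33095680)) (I.mix (nat_lit 31899648) (nat_lit 64864256)) (I.mix (nat_lit 22413312) (nat_lit 43728896)))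
  false (nat_lit 0)
def b4_7 : Bx := Bx.mk (St.mk (I.mix (nat_lit 48709632) (nat_lit 31506432)) (I.mix (nat_lit 32686080) (nat_lit 6307840)) (I.mix (nat_lit 8372224) (nat_lit 6832128)) (I.pos (nat_lit 83083264) (nat_lit 100876288)) (I.mix (nat_lit 33456128) (nat_lit 26017792)) (I.mix (nat_lit 19955712) (nat_lit 29605888)) (I.mix (nat_lit 11108352) (nat_lit 6897664)))
  false (nat_lit 0)
def b4_8 : Bx := Bx.mk (St.mk (I.pos (nat_lit 137232384) (nat_lit 200818688)) (I.mix (nat_lit 39256064) (nat_lit 18087936)) (I.mix (nat_lit 29327360) (nat_lit 42696704)) (I.pos (nat_lit 165478400) (nat_lit 234340352)) (I.mix (nat_lit 64208896) (nat_lit 64864256)) (I.mix (nat_lit 63291392) (nat_lit 60489728)) (I.mix (nat_lit 58736640) (nat_lit 57884672)))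
  false (nat_lit 3184867)
def b4_9 : Bx := Bx.mk (St.mk (I.pos (nat_lit 182435840) (nat_lit 284753920)) (I.mix (nat_lit 19873792) (nat_lit 48644096)) (I.mix (nat_lit 59195392) (nat_lit 77578240)) (I.pos (nat_lit 234897408) (nat_lit 391151616)) (I.mix (nat_lit 94371840) (nat_lit 61407232)) (I.mix (nat_lit 68026368) (nat_lit 45973504)) (I.mix (nat_lit 97796096) (nat_lit 74072064)))
  false (nat_lit 93964314)
def b4_10 : Bx := Bx.mk (St.mk (I.pos (nat_lit 174096384) (nat_lit 231292928)) (I.pos (nat_lit 14811136) (nat_lit 62193664)) (I.pos (nat_lit 27787264) (nat_lit 99418112)) (I.pos (nat_lit 227164160) (nat_lit 284262400)) (I.mix (nat_lit 108756992) (nat_lit 82214912)) (I.mix (nat_lit 92684288) (nat_lit 66387968)) (I.mix (nat_lit 136937472) (nat_lit 80363520)))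
  false (nat_lit 61028888)
def b4_11 : Bx := Bx.mk (St.mk (I.pos (nat_lit 161267712) (nat_lit 204963840)) (I.mix (nat_lit 13287424) (nat_lit 34537472)) (I.pos (nat_lit 3964928) (nat_lit 65716224)) (I.pos (nat_lit 193200128) (nat_lit 238665728)) (I.mix (nat_lit 102760448) (nat_lit 67272704)) (I.mix (nat_lit 110149632) (nat_lit 60751872)) (I.mix (nat_lit 109887488) (nat_lit 54968320)))
  false (nat_lit 16706172)
def t4 : BTr := (BTr.n (BTr.n (BTr.n (BTr.b b4_0) (BTr.n (BTr.b b4_1) (BTr.b b4_2))) (BTr.n (BTr.b b4_3) (BTr.n (BTr.b b4_4) (BTr.b b4_5)))) (BTr.n (BTr.n (BTr.b b4_6) (BTr.n (BTr.b b4_7) (BTr.b b4_8))) (BTr.n (BTr.b b4_9) (BTr.n (BTr.b b4_10) (BTr.b b4_11)))))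
namespace T4
def l0 : Tr := Tr.L (Pth.l (Pth.l (Pth.l Pth.z)))
def l1 : Tr := Tr.L (Pth.l (Pth.l (Pth.r (Pth.l Pth.z))))
def l2 : Tr := Tr.L (Pth.l (Pth.l (Pth.r (Pth.r Pth.z))))
def l3 : Tr := Tr.L (Pth.l (Pth.r (Pth.l Pth.z)))
def l4 : Tr := Tr.L (Pth.l (Pth.r (Pth.r (Pth.l Pth.z))))
def l5 : Tr := Tr.L (Pth.l (Pth.r (Pth.r (Pth.r Pth.z))))
def l6 : Tr := Tr.L (Pth.r (Pth.l (Pth.l Pth.z)))
def l7 : Tr := Tr.L (Pth.r (Pth.l (Pth.r (Pth.l Pth.z))))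
def l8 : Tr := Tr.L (Pth.r (Pth.l (Pth.r (Pth.r Pth.z))))
def l9 : Tr := Tr.L (Pth.r (Pth.r (Pth.l Pth.z)))
def l10 : Tr := Tr.L (Pth.r (Pth.r (Pth.r (Pth.l Pth.z))))
def l11 : Tr := Tr.L (Pth.r (Pth.r (Pth.r (Pth.r Pth.z))))
end T4
def b5_0 : Bx := Bx.mk (St.mk (I.pos (nat_lit 152928256) (nat_lit 233979904)) (I.mix (nat_lit 278528) (nat_lit 58720256)) (I.mix (nat_lit 278528) (nat_lit 104841216)) (I.pos (nat_lit 142409728) (nat_lit 258048000)) (I.mix (nat_lit 116998144) (nat_lit 75415552)) (I.mix (nat_lit 84688896) (nat_lit 79249408)) (I.mix (nat_lit 117211136) (nat_lit 98877440)))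
  false (nat_lit 60078818)
def b5_1 : Bx := Bx.mk (St.mk (I.pos (nat_lit 92717056) (nat_lit 179421184)) (I.neg (nat_lit 5062656) (nat_lit 63291392)) (I.mix (nat_lit 54345728) (nat_lit 13041664)) (I.pos (nat_lit 95289344) (nat_lit 182484992)) (I.mix (nat_lit 87359488) (nat_lit 49479680)) (I.mix (nat_lit 48644096) (nat_lit 57737216)) (I.mix (nat_lit 38436864) (nat_lit 52510720)))
  false (nat_lit 29372257)
def b5_2 : Bx := Bx.mk (St.mk (I.mix (nat_lit 21921792) (nat_lit 85278720)) (I.mix (nat_lit 32145408) (nat_lit 6258688)) (I.mix (nat_lit 14712832) (nat_lit 9846784)) (I.pos (nat_lit 40681472) (nat_lit 90112000)) (I.mix (nat_lit 31080448) (nat_lit 30130176)) (I.mix (nat_lit 21102592) (nat_lit 25821184)) (I.mix (nat_lit 10698752) (nat_lit 13877248)))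
  false (nat_lit 0)
def b5_3 : Bx := Bx.mk (St.mk (I.pos (nat_lit 160645120) (nat_lit 213909504)) (I.mix (nat_lit 11517952) (nat_lit 59310080)) (I.pos (nat_lit 13107200) (nat_lit 104038400)) (I.pos (nat_lit 144097280) (nat_lit 229982208)) (I.mix (nat_lit 142721024) (nat_lit 49184768)) (I.mix (nat_lit 126943232) (nat_lit 70991872)) (I.mix (nat_lit 139132928) (nat_lit 63225856)))
  false (nat_lit 40802783)
def b5_4 : Bx := Bx.mk (St.mk (I.mix (nat_lit 35192832) (nat_lit 114163712)) (I.mix (nat_lit 12304384) (nat_lit 39010304)) (I.mix (nat_lit 4325376) (nat_lit 31440896)) (I.pos (nat_lit 42303488) (nat_lit 107905024)) (I.mix (nat_lit 54870016) (nat_lit 25526272)) (I.mix (nat_lit 44580864) (nat_lit 26771456)) (I.mix (nat_lit 24903680) (nat_lit 16613376)))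
  false (nat_lit 0)
def b5_5 : Bx := Bx.mk (St.mk (I.pos (nat_lit 141885440) (nat_lit 209829888)) (I.mix (nat_lit 39239680) (nat_lit 20004864)) (I.mix (nat_lit 28409856) (nat_lit 51986432)) (I.pos (nat_lit 129138688) (nat_lit 220217344)) (I.mix (nat_lit 60784640) (nat_lit 61440000)) (I.mix (nat_lit 58425344) (nat_lit 56754176)) (I.mix (nat_lit 56475648) (nat_lit 56688640)))
  false (nat_lit 36633635)
def b5_6 : Bx := Bx.mk (St.mk (I.mix (nat_lit 28884992) (nat_lit 122208256)) (I.mix (nat_lit 7045120) (nat_lit 33898496)) (I.mix (nat_lit 6012928) (nat_lit 30490624)) (I.pos (nat_lit 39813120) (nat_lit 115933184)) (I.mix (nat_lit 47644672) (nat_lit 37945344)) (I.mix (nat_lit 39256064) (nat_lit 29704192)) (I.mix (nat_lit 28426240) (nat_lit 20889600)))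
  false (nat_lit 0)
def b5_7 : Bx := Bx.mk (St.mk (I.pos (nat_lit 91717632) (nat_lit 149766144)) (I.mix (nat_lit 62390272) (nat_lit 8716288)) (I.mix (nat_lit 52396032) (nat_lit 8781824)) (I.pos (nat_lit 80101376) (nat_lit 146276352)) (I.mix (nat_lit 92405760) (nat_lit 36470784)) (I.mix (nat_lit 38551552) (nat_lit 77611008)) (I.mix (nat_lit 27017216) (nat_lit 55853056)))
  false (nat_lit 0)
def b5_8 : Bx := Bx.mk (St.mk (I.mix (nat_lit 35799040) (nat_lit 67485696)) (I.mix (nat_lit 28098560) (nat_lit 4210688)) (I.mix (nat_lit 11730944) (nat_lit 7503872)) (I.pos (nat_lit 42582016) (nat_lit 79740928)) (I.mix (nat_lit 36536320) (nat_lit 24641536)) (I.mix (nat_lit 20742144) (nat_lit 30523392)) (I.mix (nat_lit 8978432) (nat_lit 11567104)))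
  false (nat_lit 0)
def b5_9 : Bx := Bx.mk (St.mk (I.pos (nat_lit 166363136) (nat_lit 208257024)) (I.mix (nat_lit 18874368) (nat_lit 29147136)) (I.pos (nat_lit 3358720) (nat_lit 65060864)) (I.pos (nat_lit 153387008) (nat_lit 221167616)) (I.mix (nat_lit 98975744) (nat_lit 62029824)) (I.mix (nat_lit 108789760) (nat_lit 64176128)) (I.mix (nat_lit 116178944) (nat_lit 64258048)))
  false (nat_lit 25463651)
def b5_10 : Bx := Bx.mk (St.mk (I.pos (nat_lit 194363392) (nat_lit 284180480)) (I.mix (nat_lit 21954560) (nat_lit 41435136)) (I.mix (nat_lit 45481984) (nat_lit 82526208)) (I.pos (nat_lit 211828736) (nat_lit 364462080)) (I.mix (nat_lit 77201408) (nat_lit 57966592)) (I.mix (nat_lit 58064896) (nat_lit 38027264)) (I.mix (nat_lit 98582528) (nat_lit 61865984)))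
  false (nat_lit 49042508)
def b5_11 : Bx := Bx.mk (St.mk (I.pos (nat_lit 176324608) (nat_lit 231997440)) (I.pos (nat_lit 14974976) (nat_lit 54870016)) (I.pos (nat_lit 35012608) (nat_lit 103350272)) (I.pos (nat_lit 188973056) (nat_lit 253558784)) (I.mix (nat_lit 105480192) (nat_lit 81805312)) (I.mix (nat_lit 94846976) (nat_lit 66486272)) (I.mix (nat_lit 148897792) (nat_lit 81051648)))
  false (nat_lit 52670247)
def t5 : BTr := (BTr.n (BTr.n (BTr.n (BTr.b b5_0) (BTr.n (BTr.b b5_1) (BTr.b b5_2))) (BTr.n (BTr.b b5_3) (BTr.n (BTr.b b5_4) (BTr.b b5_5)))) (BTr.n (BTr.n (BTr.b b5_6) (BTr.n (BTr.b b5_7) (BTr.b b5_8))) (BTr.n (BTr.b b5_9) (BTr.n (BTr.b b5_10) (BTr.b b5_11)))))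
namespace T5
def l0 : Tr := Tr.L (Pth.l (Pth.l (Pth.l Pth.z)))
def l1 : Tr := Tr.L (Pth.l (Pth.l (Pth.r (Pth.l Pth.z))))
def l2 : Tr := Tr.L (Pth.l (Pth.l (Pth.r (Pth.r Pth.z))))
def l3 : Tr := Tr.L (Pth.l (Pth.r (Pth.l Pth.z)))
def l4 : Tr := Tr.L (Pth.l (Pth.r (Pth.r (Pth.l Pth.z))))
def l5 : Tr := Tr.L (Pth.l (Pth.r (Pth.r (Pth.r Pth.z))))
def l6 : Tr := Tr.L (Pth.r (Pth.l (Pth.l Pth.z)))
def l7 : Tr := Tr.L (Pth.r (Pth.l (Pth.r (Pth.l Pth.z))))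
def l8 : Tr := Tr.L (Pth.r (Pth.l (Pth.r (Pth.r Pth.z))))
def l9 : Tr := Tr.L (Pth.r (Pth.r (Pth.l Pth.z)))
def l10 : Tr := Tr.L (Pth.r (Pth.r (Pth.r (Pth.l Pth.z))))
def l11 : Tr := Tr.L (Pth.r (Pth.r (Pth.r (Pth.r Pth.z))))
end T5
theorem bx0_0 : BoxOK sI cl6 cl7 cl9 t2 t4 b0_0 :=
  box_mk (TrL.c (I.pos (nat_lit 0) (nat_lit 0)) (xa (xb T2.l0 (xa (xb T2.l0 T2.l0) T2.l0)) (xb T2.l0 (xa T2.l0 T2.l0)))
  (TrL.c (I.pos (nat_lit 0) (nat_lit 0)) T4.l1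
  (TrL.c (I.pos (nat_lit 0) (nat_lit 89480386)) (xR T2.l1 T2.l1)
  (TrL.c (I.pos (nat_lit 0) (nat_lit 41530880)) T4.l2
  (TrL.c (I.pos (nat_lit 0) (nat_lit 0)) (xa T4.l3 (xb T4.l3 T4.l3))
  (TrL.c (I.pos (nat_lit 0) (nat_lit 0)) T2.l2
  (TrL.c (I.mix (nat_lit 41527258) (nat_lit 41530880)) (xR T4.l4 T4.l4)
  (TrL.c (I.mix (nat_lit 41527258) (nat_lit 4274)) T2.l3
  TrL.n)))))))) (by decide +kernel)
theorem bx0_1 : BoxOK sI cl6 cl7 cl9 t2 t4 b0_1 :=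
  box_mk (TrL.c (I.pos (nat_lit 0) (nat_lit 0)) (xa (xa T2.l8 T2.l8) (xa T2.l8 T2.l8))
  (TrL.c (I.pos (nat_lit 0) (nat_lit 0)) T4.l1
  (TrL.c (I.pos (nat_lit 0) (nat_lit 89480386)) T2.l1
  (TrL.c (I.pos (nat_lit 0) (nat_lit 41530880)) T4.l2
  (TrL.c (I.pos (nat_lit 0) (nat_lit 0)) T4.l8
  (TrL.c (I.pos (nat_lit 0) (nat_lit 0)) T2.l2
  (TrL.c (I.mix (nat_lit 41527258) (nat_lit 41530880)) T4.l4
  (TrL.c (I.mix (nat_lit 41527258) (nat_lit 4274)) T2.l3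
  TrL.n)))))))) (by decide +kernel)
theorem bx0_2 : BoxOK sI cl6 cl7 cl9 t2 t4 b0_2 :=
  box_mk (TrL.c (I.pos (nat_lit 0) (nat_lit 0)) (xb T2.l8 T2.l8)
  (TrL.c (I.pos (nat_lit 0) (nat_lit 0)) T4.l1
  (TrL.c (I.pos (nat_lit 0) (nat_lit 89480386)) (xR T2.l1 T2.l1)
  (TrL.c (I.pos (nat_lit 0) (nat_lit 41530880)) T4.l2
  (TrL.c (I.pos (nat_lit 0) (nat_lit 0)) T4.l8
  (TrL.c (I.pos (nat_lit 0) (nat_lit 0)) T2.l2
  (TrL.c (I.mix (nat_lit 41527258) (nat_lit 41530880)) T4.l4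
  (TrL.c (I.mix (nat_lit 41527258) (nat_lit 4274)) T2.l3
  TrL.n)))))))) (by decide +kernel)
theorem bx0_3 : BoxOK sI cl6 cl7 cl9 t2 t4 b0_3 :=
  box_mk (TrL.c (I.pos (nat_lit 0) (nat_lit 0)) (xa (xa (xb T2.l8 T2.l8) T2.l8) T2.l8)
  (TrL.c (I.pos (nat_lit 0) (nat_lit 0)) T4.l1
  (TrL.c (I.pos (nat_lit 0) (nat_lit 89480386)) T2.l1
  (TrL.c (I.pos (nat_lit 0) (nat_lit 41530880)) T4.l2
  (TrL.c (I.pos (nat_lit 0) (nat_lit 0)) T4.l8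
  (TrL.c (I.pos (nat_lit 0) (nat_lit 0)) T2.l2
  (TrL.c (I.mix (nat_lit 41527258) (nat_lit 41530880)) T4.l4
  (TrL.c (I.mix (nat_lit 41527258) (nat_lit 4274)) T2.l3
  TrL.n)))))))) (by decide +kernel)
theorem bx0_4 : BoxOK sI cl6 cl7 cl9 t2 t4 b0_4 :=
  box_mk (TrL.c (I.pos (nat_lit 0) (nat_lit 0)) (xa (xb T2.l0 T2.l0) (xb T2.l0 T2.l0))
  (TrL.c (I.pos (nat_lit 0) (nat_lit 0)) T4.l1
  (TrL.c (I.pos (nat_lit 0) (nat_lit 89480386)) (xR T2.l1 T2.l1)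
  (TrL.c (I.pos (nat_lit 0) (nat_lit 41530880)) T4.l2
  (TrL.c (I.pos (nat_lit 0) (nat_lit 0)) (xa (xb T4.l3 T4.l3) (xb (xa T4.l3 T4.l3) T4.l3))
  (TrL.c (I.pos (nat_lit 0) (nat_lit 0)) T2.l2
  (TrL.c (I.mix (nat_lit 41527258) (nat_lit 41530880)) (xR T4.l4 T4.l4)
  (TrL.c (I.mix (nat_lit 41527258) (nat_lit 4274)) T2.l3
  TrL.n)))))))) (by decide +kernel)
theorem bx0_5 : BoxOK sI cl6 cl7 cl9 t2 t4 b0_5 :=
  box_mk (TrL.c (I.pos (nat_lit 0) (nat_lit 0)) (xa (xb (xa T2.l8 T2.l8) T2.l8) (xb T2.l8 T2.l8))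
  (TrL.c (I.pos (nat_lit 0) (nat_lit 0)) T4.l1
  (TrL.c (I.pos (nat_lit 0) (nat_lit 89480386)) (xR T2.l1 T2.l1)
  (TrL.c (I.pos (nat_lit 0) (nat_lit 41530880)) T4.l2
  (TrL.c (I.pos (nat_lit 0) (nat_lit 0)) (xa T4.l8 T4.l8)
  (TrL.c (I.pos (nat_lit 0) (nat_lit 0)) T2.l2
  (TrL.c (I.mix (nat_lit 41527258) (nat_lit 41530880)) (xR T4.l4 T4.l4)
  (TrL.c (I.mix (nat_lit 41527258) (nat_lit 4274)) T2.l3
  TrL.n)))))))) (by decide +kernel)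
theorem bx0_6 : BoxOK sI cl6 cl7 cl9 t2 t4 b0_6 :=
  box_mk (TrL.c (I.pos (nat_lit 0) (nat_lit 0)) (xa (xa (xb (xa T2.l8 T2.l8) T2.l8) T2.l8) T2.l8)
  (TrL.c (I.pos (nat_lit 0) (nat_lit 0)) T4.l1
  (TrL.c (I.pos (nat_lit 0) (nat_lit 89480386)) T2.l1
  (TrL.c (I.pos (nat_lit 0) (nat_lit 41530880)) T4.l2
  (TrL.c (I.pos (nat_lit 0) (nat_lit 0)) T4.l8
  (TrL.c (I.pos (nat_lit 0) (nat_lit 0)) T2.l2
  (TrL.c (I.mix (nat_lit 41527258) (nat_lit 41530880)) T4.l4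
  (TrL.c (I.mix (nat_lit 41527258) (nat_lit 4274)) T2.l3
  TrL.n)))))))) (by decide +kernel)
theorem bx0_7 : BoxOK sI cl6 cl7 cl9 t2 t4 b0_7 :=
  box_mk (TrL.c (I.pos (nat_lit 0) (nat_lit 0)) (xb (xa T2.l11 T2.l11) (xa (xb T2.l11 (xa T2.l11 T2.l11)) (xb T2.l11 T2.l11)))
  (TrL.c (I.pos (nat_lit 0) (nat_lit 0)) T4.l1
  (TrL.c (I.pos (nat_lit 0) (nat_lit 89480386)) (xR T2.l1 T2.l1)
  (TrL.c (I.pos (nat_lit 0) (nat_lit 41530880)) T4.l2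
  (TrL.c (I.pos (nat_lit 0) (nat_lit 0)) (xb (xa T4.l11 T4.l11) (xa T4.l3 T4.l3))
  (TrL.c (I.pos (nat_lit 0) (nat_lit 0)) T2.l2
  (TrL.c (I.mix (nat_lit 41527258) (nat_lit 41530880)) (xR T4.l4 T4.l4)
  (TrL.c (I.mix (nat_lit 41527258) (nat_lit 4274)) T2.l3
  TrL.n)))))))) (by decide +kernel)
theorem bx0_8 : BoxOK sI cl6 cl7 cl9 t2 t4 b0_8 :=
  box_mk (TrL.c (I.pos (nat_lit 0) (nat_lit 0)) (xa (xa (xb T2.l8 (xa T2.l8 T2.l8)) T2.l8) (xa T2.l8 (xb T2.l8 T2.l8)))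
  (TrL.c (I.pos (nat_lit 0) (nat_lit 0)) T4.l1
  (TrL.c (I.pos (nat_lit 0) (nat_lit 89480386)) T2.l1
  (TrL.c (I.pos (nat_lit 0) (nat_lit 41530880)) T4.l2
  (TrL.c (I.pos (nat_lit 0) (nat_lit 0)) (xa T4.l8 T4.l8)
  (TrL.c (I.pos (nat_lit 0) (nat_lit 0)) T2.l2
  (TrL.c (I.mix (nat_lit 41527258) (nat_lit 41530880)) (xR T4.l4 T4.l4)
  (TrL.c (I.mix (nat_lit 41527258) (nat_lit 4274)) T2.l3
  TrL.n)))))))) (by decide +kernel)
theorem bx0_9 : BoxOK sI cl6 cl7 cl9 t2 t4 b0_9 :=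
  box_mk (TrL.c (I.pos (nat_lit 0) (nat_lit 0)) (xa (xb T2.l0 T2.l0) T2.l0)
  (TrL.c (I.pos (nat_lit 0) (nat_lit 0)) T4.l1
  (TrL.c (I.pos (nat_lit 0) (nat_lit 89480386)) (xR T2.l1 T2.l1)
  (TrL.c (I.pos (nat_lit 0) (nat_lit 41530880)) T4.l2
  (TrL.c (I.pos (nat_lit 0) (nat_lit 0)) T4.l3
  (TrL.c (I.pos (nat_lit 0) (nat_lit 0)) T2.l2
  (TrL.c (I.mix (nat_lit 41527258) (nat_lit 41530880)) (xR T4.l4 T4.l4)
  (TrL.c (I.mix (nat_lit 41527258) (nat_lit 4274)) T2.l3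
  TrL.n)))))))) (by decide +kernel)
theorem bx0_10 : BoxOK sI cl6 cl7 cl9 t2 t4 b0_10 :=
  box_mk (TrL.c (I.pos (nat_lit 0) (nat_lit 0)) (xa T2.l11 T2.l11)
  (TrL.c (I.pos (nat_lit 0) (nat_lit 0)) T4.l1
  (TrL.c (I.pos (nat_lit 0) (nat_lit 89480386)) (xR T2.l1 T2.l1)
  (TrL.c (I.pos (nat_lit 0) (nat_lit 41530880)) T4.l2
  (TrL.c (I.pos (nat_lit 0) (nat_lit 0)) (xb T4.l11 T4.l11)
  (TrL.c (I.pos (nat_lit 0) (nat_lit 0)) T2.l2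
  (TrL.c (I.mix (nat_lit 41527258) (nat_lit 41530880)) (xR T4.l4 T4.l4)
  (TrL.c (I.mix (nat_lit 41527258) (nat_lit 4274)) T2.l3
  TrL.n)))))))) (by decide +kernel)
theorem bx0_11 : BoxOK sI cl6 cl7 cl9 t2 t4 b0_11 :=
  box_mk (TrL.c (I.pos (nat_lit 0) (nat_lit 0)) (xb T2.l11 T2.l11)
  (TrL.c (I.pos (nat_lit 0) (nat_lit 0)) T4.l1
  (TrL.c (I.pos (nat_lit 0) (nat_lit 89480386)) (xR T2.l1 T2.l1)
  (TrL.c (I.pos (nat_lit 0) (nat_lit 41530880)) T4.l2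
  (TrL.c (I.pos (nat_lit 0) (nat_lit 0)) (xb T4.l11 T4.l11)
  (TrL.c (I.pos (nat_lit 0) (nat_lit 0)) T2.l2
  (TrL.c (I.mix (nat_lit 41527258) (nat_lit 41530880)) (xR T4.l4 T4.l4)
  (TrL.c (I.mix (nat_lit 41527258) (nat_lit 4274)) T2.l3
  TrL.n)))))))) (by decide +kernel)
theorem sv0 : StarV sI cl6 cl7 cl9 t2 t4 t0 :=
  (bt_n (bt_n (bt_n (bt_b bx0_0) (bt_n (bt_b bx0_1) (bt_b bx0_2))) (bt_n (bt_b bx0_3) (bt_n (bt_b bx0_4) (bt_b bx0_5)))) (bt_n (bt_n (bt_b bx0_6) (bt_n (bt_b bx0_7) (bt_b bx0_8))) (bt_n (bt_b bx0_9) (bt_n (bt_b bx0_10) (bt_b bx0_11)))))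
def S0 : StarD := StarD.mk cl6 cl7 cl9 2 4 t0
theorem bx1_0 : BoxOK sI cl6 cl9 cl7 t4 t2 b1_0 :=
  box_mk (TrL.c (I.pos (nat_lit 0) (nat_lit 0)) (xa (xb T4.l0 (xa (xb T4.l0 T4.l0) T4.l0)) (xb T4.l0 (xa T4.l0 T4.l0)))
  (TrL.c (I.pos (nat_lit 0) (nat_lit 0)) T2.l4
  (TrL.c (I.pos (nat_lit 0) (nat_lit 89480386)) (xR T4.l5 T4.l5)
  (TrL.c (I.pos (nat_lit 0) (nat_lit 41530880)) T2.l5
  (TrL.c (I.pos (nat_lit 0) (nat_lit 0)) (xa T2.l6 (xb T2.l6 T2.l6))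
  (TrL.c (I.pos (nat_lit 0) (nat_lit 0)) T4.l6
  (TrL.c (I.mix (nat_lit 41527258) (nat_lit 41530880)) (xR T2.l7 T2.l7)
  (TrL.c (I.mix (nat_lit 41527258) (nat_lit 4274)) T4.l7
  TrL.n)))))))) (by decide +kernel)
theorem bx1_1 : BoxOK sI cl6 cl9 cl7 t4 t2 b1_1 :=
  box_mk (TrL.c (I.pos (nat_lit 0) (nat_lit 0)) (xa T4.l9 (xa T4.l9 T4.l9))
  (TrL.c (I.pos (nat_lit 0) (nat_lit 0)) T2.l4
  (TrL.c (I.pos (nat_lit 0) (nat_lit 89480386)) T4.l5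
  (TrL.c (I.pos (nat_lit 0) (nat_lit 41530880)) T2.l5
  (TrL.c (I.pos (nat_lit 0) (nat_lit 0)) (xa T2.l9 T2.l9)
  (TrL.c (I.pos (nat_lit 0) (nat_lit 0)) T4.l6
  (TrL.c (I.mix (nat_lit 41527258) (nat_lit 41530880)) T2.l7
  (TrL.c (I.mix (nat_lit 41527258) (nat_lit 4274)) T4.l7
  TrL.n)))))))) (by decide +kernel)
theorem bx1_2 : BoxOK sI cl6 cl9 cl7 t4 t2 b1_2 :=
  box_mk (TrL.c (I.pos (nat_lit 0) (nat_lit 0)) (xb T4.l9 T4.l9)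
  (TrL.c (I.pos (nat_lit 0) (nat_lit 0)) T2.l4
  (TrL.c (I.pos (nat_lit 0) (nat_lit 89480386)) (xR T4.l5 T4.l5)
  (TrL.c (I.pos (nat_lit 0) (nat_lit 41530880)) T2.l5
  (TrL.c (I.pos (nat_lit 0) (nat_lit 0)) T2.l9
  (TrL.c (I.pos (nat_lit 0) (nat_lit 0)) T4.l6
  (TrL.c (I.mix (nat_lit 41527258) (nat_lit 41530880)) T2.l7
  (TrL.c (I.mix (nat_lit 41527258) (nat_lit 4274)) T4.l7
  TrL.n)))))))) (by decide +kernel)
theorem bx1_3 : BoxOK sI cl6 cl9 cl7 t4 t2 b1_3 :=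
  box_mk (TrL.c (I.pos (nat_lit 0) (nat_lit 0)) (xa T4.l9 T4.l9)
  (TrL.c (I.pos (nat_lit 0) (nat_lit 0)) T2.l4
  (TrL.c (I.pos (nat_lit 0) (nat_lit 89480386)) T4.l5
  (TrL.c (I.pos (nat_lit 0) (nat_lit 41530880)) T2.l5
  (TrL.c (I.pos (nat_lit 0) (nat_lit 0)) T2.l9
  (TrL.c (I.pos (nat_lit 0) (nat_lit 0)) T4.l6
  (TrL.c (I.mix (nat_lit 41527258) (nat_lit 41530880)) T2.l7
  (TrL.c (I.mix (nat_lit 41527258) (nat_lit 4274)) T4.l7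
  TrL.n)))))))) (by decide +kernel)
theorem bx1_4 : BoxOK sI cl6 cl9 cl7 t4 t2 b1_4 :=
  box_mk (TrL.c (I.pos (nat_lit 0) (nat_lit 0)) (xa (xb T4.l0 T4.l0) (xb T4.l0 T4.l0))
  (TrL.c (I.pos (nat_lit 0) (nat_lit 0)) T2.l4
  (TrL.c (I.pos (nat_lit 0) (nat_lit 89480386)) (xR T4.l5 T4.l5)
  (TrL.c (I.pos (nat_lit 0) (nat_lit 41530880)) T2.l5
  (TrL.c (I.pos (nat_lit 0) (nat_lit 0)) (xa T2.l6 (xb T2.l6 T2.l6))
  (TrL.c (I.pos (nat_lit 0) (nat_lit 0)) T4.l6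
  (TrL.c (I.mix (nat_lit 41527258) (nat_lit 41530880)) (xR T2.l7 T2.l1)
  (TrL.c (I.mix (nat_lit 41527258) (nat_lit 4274)) T4.l7
  TrL.n)))))))) (by decide +kernel)
theorem bx1_5 : BoxOK sI cl6 cl9 cl7 t4 t2 b1_5 :=
  box_mk (TrL.c (I.pos (nat_lit 0) (nat_lit 0)) (xa (xb T4.l9 T4.l9) (xb T4.l9 T4.l9))
  (TrL.c (I.pos (nat_lit 0) (nat_lit 0)) T2.l4
  (TrL.c (I.pos (nat_lit 0) (nat_lit 89480386)) (xR T4.l5 T4.l5)
  (TrL.c (I.pos (nat_lit 0) (nat_lit 41530880)) T2.l5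
  (TrL.c (I.pos (nat_lit 0) (nat_lit 0)) (xa T2.l9 T2.l9)
  (TrL.c (I.pos (nat_lit 0) (nat_lit 0)) T4.l6
  (TrL.c (I.mix (nat_lit 41527258) (nat_lit 41530880)) (xR T2.l7 T2.l7)
  (TrL.c (I.mix (nat_lit 41527258) (nat_lit 4274)) T4.l7
  TrL.n)))))))) (by decide +kernel)
theorem bx1_6 : BoxOK sI cl6 cl9 cl7 t4 t2 b1_6 :=
  box_mk (TrL.c (I.pos (nat_lit 0) (nat_lit 0)) (xa (xa (xb T4.l9 T4.l9) T4.l9) T4.l9)
  (TrL.c (I.pos (nat_lit 0) (nat_lit 0)) T2.l4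
  (TrL.c (I.pos (nat_lit 0) (nat_lit 89480386)) T4.l5
  (TrL.c (I.pos (nat_lit 0) (nat_lit 41530880)) T2.l5
  (TrL.c (I.pos (nat_lit 0) (nat_lit 0)) T2.l9
  (TrL.c (I.pos (nat_lit 0) (nat_lit 0)) T4.l6
  (TrL.c (I.mix (nat_lit 41527258) (nat_lit 41530880)) (xR T2.l7 T2.l7)
  (TrL.c (I.mix (nat_lit 41527258) (nat_lit 4274)) T4.l7
  TrL.n)))))))) (by decide +kernel)
theorem bx1_7 : BoxOK sI cl6 cl9 cl7 t4 t2 b1_7 :=
  box_mk (TrL.c (I.pos (nat_lit 0) (nat_lit 0)) (xb (xa T4.l10 T4.l10) (xa (xb T4.l10 T4.l10) (xb T4.l10 T4.l10)))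
  (TrL.c (I.pos (nat_lit 0) (nat_lit 0)) T2.l4
  (TrL.c (I.pos (nat_lit 0) (nat_lit 89480386)) (xR T4.l5 T4.l5)
  (TrL.c (I.pos (nat_lit 0) (nat_lit 41530880)) T2.l5
  (TrL.c (I.pos (nat_lit 0) (nat_lit 0)) T2.l10
  (TrL.c (I.pos (nat_lit 0) (nat_lit 0)) T4.l6
  (TrL.c (I.mix (nat_lit 41527258) (nat_lit 41530880)) (xR T2.l7 T2.l7)
  (TrL.c (I.mix (nat_lit 41527258) (nat_lit 4274)) T4.l7
  TrL.n)))))))) (by decide +kernel)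
theorem bx1_8 : BoxOK sI cl6 cl9 cl7 t4 t2 b1_8 :=
  box_mk (TrL.c (I.pos (nat_lit 0) (nat_lit 0)) (xa (xa (xb T4.l9 (xa T4.l9 T4.l9)) T4.l9) (xa T4.l9 (xb T4.l9 T4.l9)))
  (TrL.c (I.pos (nat_lit 0) (nat_lit 0)) T2.l4
  (TrL.c (I.pos (nat_lit 0) (nat_lit 89480386)) T4.l5
  (TrL.c (I.pos (nat_lit 0) (nat_lit 41530880)) T2.l5
  (TrL.c (I.pos (nat_lit 0) (nat_lit 0)) (xa T2.l9 T2.l9)
  (TrL.c (I.pos (nat_lit 0) (nat_lit 0)) T4.l6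
  (TrL.c (I.mix (nat_lit 41527258) (nat_lit 41530880)) T2.l7
  (TrL.c (I.mix (nat_lit 41527258) (nat_lit 4274)) T4.l7
  TrL.n)))))))) (by decide +kernel)
theorem bx1_9 : BoxOK sI cl6 cl9 cl7 t4 t2 b1_9 :=
  box_mk (TrL.c (I.pos (nat_lit 0) (nat_lit 0)) (xa (xb T4.l0 T4.l10) T4.l0)
  (TrL.c (I.pos (nat_lit 0) (nat_lit 0)) T2.l4
  (TrL.c (I.pos (nat_lit 0) (nat_lit 89480386)) (xR T4.l5 T4.l5)
  (TrL.c (I.pos (nat_lit 0) (nat_lit 41530880)) T2.l5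
  (TrL.c (I.pos (nat_lit 0) (nat_lit 0)) (xb T2.l10 T2.l10)
  (TrL.c (I.pos (nat_lit 0) (nat_lit 0)) T4.l6
  (TrL.c (I.mix (nat_lit 41527258) (nat_lit 41530880)) (xR T2.l7 T2.l7)
  (TrL.c (I.mix (nat_lit 41527258) (nat_lit 4274)) T4.l7
  TrL.n)))))))) (by decide +kernel)
theorem bx1_10 : BoxOK sI cl6 cl9 cl7 t4 t2 b1_10 :=
  box_mk (TrL.c (I.pos (nat_lit 0) (nat_lit 0)) (xb (xa T4.l10 T4.l10) (xa T4.l10 T4.l10))
  (TrL.c (I.pos (nat_lit 0) (nat_lit 0)) T2.l4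
  (TrL.c (I.pos (nat_lit 0) (nat_lit 89480386)) (xR T4.l5 T4.l5)
  (TrL.c (I.pos (nat_lit 0) (nat_lit 41530880)) T2.l5
  (TrL.c (I.pos (nat_lit 0) (nat_lit 0)) T2.l10
  (TrL.c (I.pos (nat_lit 0) (nat_lit 0)) T4.l6
  (TrL.c (I.mix (nat_lit 41527258) (nat_lit 41530880)) (xR T2.l7 T2.l7)
  (TrL.c (I.mix (nat_lit 41527258) (nat_lit 4274)) T4.l7
  TrL.n)))))))) (by decide +kernel)
theorem bx1_11 : BoxOK sI cl6 cl9 cl7 t4 t2 b1_11 :=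
  box_mk (TrL.c (I.pos (nat_lit 0) (nat_lit 0)) (xa (xb T4.l0 T4.l0) (xb T4.l0 T4.l0))
  (TrL.c (I.pos (nat_lit 0) (nat_lit 0)) T2.l4
  (TrL.c (I.pos (nat_lit 0) (nat_lit 89480386)) (xR T4.l5 T4.l5)
  (TrL.c (I.pos (nat_lit 0) (nat_lit 41530880)) T2.l5
  (TrL.c (I.pos (nat_lit 0) (nat_lit 0)) (xa T2.l6 T2.l6)
  (TrL.c (I.pos (nat_lit 0) (nat_lit 0)) T4.l6
  (TrL.c (I.mix (nat_lit 41527258) (nat_lit 41530880)) (xR T2.l7 T2.l7)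
  (TrL.c (I.mix (nat_lit 41527258) (nat_lit 4274)) T4.l7
  TrL.n)))))))) (by decide +kernel)
theorem sv1 : StarV sI cl6 cl9 cl7 t4 t2 t1 :=
  (bt_n (bt_n (bt_n (bt_b bx1_0) (bt_n (bt_b bx1_1) (bt_b bx1_2))) (bt_n (bt_b bx1_3) (bt_n (bt_b bx1_4) (bt_b bx1_5)))) (bt_n (bt_n (bt_b bx1_6) (bt_n (bt_b bx1_7) (bt_b bx1_8))) (bt_n (bt_b bx1_9) (bt_n (bt_b bx1_10) (bt_b bx1_11)))))
def S1 : StarD := StarD.mk cl6 cl9 cl7 4 2 t1
theorem bx2_0 : BoxOK sI cl7 cl6 cl9 t0 t5 b2_0 :=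
  box_mk (TrL.c (I.pos (nat_lit 0) (nat_lit 0)) (xa (xb T0.l0 (xa (xb T0.l0 T0.l0) T0.l0)) (xb T0.l0 T0.l0))
  (TrL.c (I.pos (nat_lit 0) (nat_lit 0)) T5.l1
  (TrL.c (I.pos (nat_lit 0) (nat_lit 111196574)) (xR T0.l1 T0.l1)
  (TrL.c (I.pos (nat_lit 0) (nat_lit 77433728)) (xR T5.l2 T5.l2)
  (TrL.c (I.pos (nat_lit 0) (nat_lit 0)) (xa (xb T5.l3 T5.l3) (xb T5.l3 (xk T5.l3 T5.l3)))
  (TrL.c (I.pos (nat_lit 0) (nat_lit 0)) T0.l2
  (TrL.c (I.mix (nat_lit 29511666) (nat_lit 77433728)) (xR T5.l4 T5.l4)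
  (TrL.c (I.mix (nat_lit 29511666) (nat_lit 46070178)) T0.l3
  TrL.n)))))))) (by decide +kernel)
theorem bx2_1 : BoxOK sI cl7 cl6 cl9 t0 t5 b2_1 :=
  box_mk (TrL.c (I.pos (nat_lit 0) (nat_lit 0)) (xa (xa (xb T0.l4 (xa T0.l4 T0.l4)) T0.l4) (xa T0.l4 T0.l4))
  (TrL.c (I.pos (nat_lit 0) (nat_lit 0)) T5.l1
  (TrL.c (I.pos (nat_lit 0) (nat_lit 111196574)) T0.l1
  (TrL.c (I.pos (nat_lit 0) (nat_lit 77433728)) T5.l2
  (TrL.c (I.pos (nat_lit 0) (nat_lit 0)) T5.l5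
  (TrL.c (I.pos (nat_lit 0) (nat_lit 0)) T0.l2
  (TrL.c (I.mix (nat_lit 29511666) (nat_lit 77433728)) (xR T5.l4 T5.l4)
  (TrL.c (I.mix (nat_lit 29511666) (nat_lit 46070178)) T0.l3
  TrL.n)))))))) (by decide +kernel)
theorem bx2_2 : BoxOK sI cl7 cl6 cl9 t0 t5 b2_2 :=
  box_mk (TrL.c (I.pos (nat_lit 0) (nat_lit 0)) (xb T0.l4 (xa T0.l4 T0.l4))
  (TrL.c (I.pos (nat_lit 0) (nat_lit 0)) T5.l1
  (TrL.c (I.pos (nat_lit 0) (nat_lit 111196574)) (xR T0.l1 T0.l1)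
  (TrL.c (I.pos (nat_lit 0) (nat_lit 77433728)) T5.l2
  (TrL.c (I.pos (nat_lit 0) (nat_lit 0)) T5.l5
  (TrL.c (I.pos (nat_lit 0) (nat_lit 0)) T0.l2
  (TrL.c (I.mix (nat_lit 29511666) (nat_lit 77433728)) T5.l4
  (TrL.c (I.mix (nat_lit 29511666) (nat_lit 46070178)) T0.l3
  TrL.n)))))))) (by decide +kernel)
theorem bx2_3 : BoxOK sI cl7 cl6 cl9 t0 t5 b2_3 :=
  box_mk (TrL.c (I.pos (nat_lit 0) (nat_lit 0)) (xa (xb (xa (xb T0.l4 T0.l4) T0.l4) T0.l4) T0.l4)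
  (TrL.c (I.pos (nat_lit 0) (nat_lit 0)) T5.l5
  (TrL.c (I.pos (nat_lit 0) (nat_lit 111196574)) T0.l1
  (TrL.c (I.pos (nat_lit 0) (nat_lit 77433728)) T5.l4
  (TrL.c (I.pos (nat_lit 0) (nat_lit 0)) T5.l1
  (TrL.c (I.pos (nat_lit 0) (nat_lit 0)) T0.l1
  (TrL.c (I.mix (nat_lit 29511666) (nat_lit 77433728)) (xR T5.l4 T5.l2)
  (TrL.c (I.mix (nat_lit 29511666) (nat_lit 46070178)) T0.l3
  TrL.n)))))))) (by decide +kernel)
theorem bx2_4 : BoxOK sI cl7 cl6 cl9 t0 t5 b2_4 :=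
  box_mk (TrL.c (I.pos (nat_lit 0) (nat_lit 0)) (xa (xb T0.l4 T0.l4) (xb T0.l4 T0.l4))
  (TrL.c (I.pos (nat_lit 0) (nat_lit 0)) T5.l1
  (TrL.c (I.pos (nat_lit 0) (nat_lit 111196574)) (xR T0.l1 T0.l1)
  (TrL.c (I.pos (nat_lit 0) (nat_lit 77433728)) T5.l2
  (TrL.c (I.pos (nat_lit 0) (nat_lit 0)) (xa T5.l5 (xb T5.l5 T5.l5))
  (TrL.c (I.pos (nat_lit 0) (nat_lit 0)) T0.l2
  (TrL.c (I.mix (nat_lit 29511666) (nat_lit 77433728)) (xR T5.l4 T5.l4)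
  (TrL.c (I.mix (nat_lit 29511666) (nat_lit 46070178)) T0.l3
  TrL.n)))))))) (by decide +kernel)
theorem bx2_5 : BoxOK sI cl7 cl6 cl9 t0 t5 b2_5 :=
  box_mk (TrL.c (I.pos (nat_lit 0) (nat_lit 0)) (xa (xb T0.l4 T0.l4) T0.l4)
  (TrL.c (I.pos (nat_lit 0) (nat_lit 0)) T5.l1
  (TrL.c (I.pos (nat_lit 0) (nat_lit 111196574)) T0.l1
  (TrL.c (I.pos (nat_lit 0) (nat_lit 77433728)) T5.l2
  (TrL.c (I.pos (nat_lit 0) (nat_lit 0)) T5.l5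
  (TrL.c (I.pos (nat_lit 0) (nat_lit 0)) T0.l2
  (TrL.c (I.mix (nat_lit 29511666) (nat_lit 77433728)) T5.l4
  (TrL.c (I.mix (nat_lit 29511666) (nat_lit 46070178)) T0.l3
  TrL.n)))))))) (by decide +kernel)
theorem bx2_6 : BoxOK sI cl7 cl6 cl9 t0 t5 b2_6 :=
  box_mk (TrL.c (I.pos (nat_lit 0) (nat_lit 0)) (xa (xb T0.l9 (xb T0.l9 T0.l9)) (xb T0.l9 T0.l9))
  (TrL.c (I.pos (nat_lit 0) (nat_lit 0)) T5.l1
  (TrL.c (I.pos (nat_lit 0) (nat_lit 111196574)) (xR T0.l1 T0.l1)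
  (TrL.c (I.pos (nat_lit 0) (nat_lit 77433728)) (xR T5.l2 T5.l2)
  (TrL.c (I.pos (nat_lit 0) (nat_lit 0)) (xb (xk T5.l9 T5.l9) (xk T5.l3 T5.l3))
  (TrL.c (I.pos (nat_lit 0) (nat_lit 0)) T0.l2
  (TrL.c (I.mix (nat_lit 29511666) (nat_lit 77433728)) (xR T5.l4 T5.l4)
  (TrL.c (I.mix (nat_lit 29511666) (nat_lit 46070178)) T0.l3
  TrL.n)))))))) (by decide +kernel)
theorem bx2_7 : BoxOK sI cl7 cl6 cl9 t0 t5 b2_7 :=
  box_mk (TrL.c (I.pos (nat_lit 0) (nat_lit 0)) (xa (xa (xb T0.l4 (xa T0.l4 T0.l4)) T0.l4) T0.l4)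
  (TrL.c (I.pos (nat_lit 0) (nat_lit 0)) T5.l1
  (TrL.c (I.pos (nat_lit 0) (nat_lit 111196574)) T0.l1
  (TrL.c (I.pos (nat_lit 0) (nat_lit 77433728)) T5.l2
  (TrL.c (I.pos (nat_lit 0) (nat_lit 0)) T5.l5
  (TrL.c (I.pos (nat_lit 0) (nat_lit 0)) T0.l2
  (TrL.c (I.mix (nat_lit 29511666) (nat_lit 77433728)) (xR T5.l4 T5.l4)
  (TrL.c (I.mix (nat_lit 29511666) (nat_lit 46070178)) T0.l3
  TrL.n)))))))) (by decide +kernel)
theorem bx2_8 : BoxOK sI cl7 cl6 cl9 t0 t5 b2_8 :=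
  box_mk (TrL.c (I.pos (nat_lit 0) (nat_lit 0)) (xa (xb T0.l0 T0.l0) (xb T0.l0 (xa T0.l0 T0.l0)))
  (TrL.c (I.pos (nat_lit 0) (nat_lit 0)) T5.l1
  (TrL.c (I.pos (nat_lit 0) (nat_lit 111196574)) (xR T0.l1 T0.l1)
  (TrL.c (I.pos (nat_lit 0) (nat_lit 77433728)) (xR T5.l2 T5.l2)
  (TrL.c (I.pos (nat_lit 0) (nat_lit 0)) (xa (xb (xk T5.l3 T5.l3) T5.l3) (xb (xk (xa T5.l3 T5.l3) (xa T5.l3 T5.l3)) (xk (xa T5.l3 T5.l3) (xa T5.l3 T5.l3))))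
  (TrL.c (I.pos (nat_lit 0) (nat_lit 0)) (xa T0.l2 T0.l2)
  (TrL.c (I.mix (nat_lit 29511666) (nat_lit 77433728)) (xR T5.l4 (xR T5.l4 T5.l4))
  (TrL.c (I.mix (nat_lit 29511666) (nat_lit 46070178)) T0.l6
  TrL.n)))))))) (by decide +kernel)
theorem bx2_9 : BoxOK sI cl7 cl6 cl9 t0 t5 b2_9 :=
  box_mk (TrL.c (I.pos (nat_lit 0) (nat_lit 0)) (xa T0.l9 T0.l0)
  (TrL.c (I.pos (nat_lit 0) (nat_lit 0)) T5.l1
  (TrL.c (I.pos (nat_lit 0) (nat_lit 111196574)) (xR T0.l1 T0.l1)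
  (TrL.c (I.pos (nat_lit 0) (nat_lit 77433728)) (xR T5.l2 T5.l2)
  (TrL.c (I.pos (nat_lit 0) (nat_lit 0)) (xk (xb T5.l9 T5.l9) T5.l9)
  (TrL.c (I.pos (nat_lit 0) (nat_lit 0)) T0.l2
  (TrL.c (I.mix (nat_lit 29511666) (nat_lit 77433728)) (xR T5.l4 T5.l4)
  (TrL.c (I.mix (nat_lit 29511666) (nat_lit 46070178)) T0.l3
  TrL.n)))))))) (by decide +kernel)
theorem bx2_10 : BoxOK sI cl7 cl6 cl9 t0 t5 b2_10 :=
  box_mk (TrL.c (I.pos (nat_lit 0) (nat_lit 0)) (xb T0.l9 T0.l9)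
  (TrL.c (I.pos (nat_lit 0) (nat_lit 0)) T5.l1
  (TrL.c (I.pos (nat_lit 0) (nat_lit 111196574)) (xR T0.l1 T0.l1)
  (TrL.c (I.pos (nat_lit 0) (nat_lit 77433728)) (xR T5.l2 T5.l2)
  (TrL.c (I.pos (nat_lit 0) (nat_lit 0)) (xk (xb T5.l9 T5.l9) (xb T5.l9 T5.l9))
  (TrL.c (I.pos (nat_lit 0) (nat_lit 0)) T0.l2
  (TrL.c (I.mix (nat_lit 29511666) (nat_lit 77433728)) (xR T5.l4 T5.l4)
  (TrL.c (I.mix (nat_lit 29511666) (nat_lit 46070178)) T0.l3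
  TrL.n)))))))) (by decide +kernel)
theorem bx2_11 : BoxOK sI cl7 cl6 cl9 t0 t5 b2_11 :=
  box_mk (TrL.c (I.pos (nat_lit 0) (nat_lit 0)) (xa (xb T0.l0 T0.l0) (xb T0.l0 T0.l0))
  (TrL.c (I.pos (nat_lit 0) (nat_lit 0)) T5.l1
  (TrL.c (I.pos (nat_lit 0) (nat_lit 111196574)) (xR T0.l1 T0.l1)
  (TrL.c (I.pos (nat_lit 0) (nat_lit 77433728)) (xR T5.l2 T5.l2)
  (TrL.c (I.pos (nat_lit 0) (nat_lit 0)) (xk (xa T5.l3 T5.l3) (xa T5.l3 (xb T5.l3 T5.l3)))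
  (TrL.c (I.pos (nat_lit 0) (nat_lit 0)) T0.l2
  (TrL.c (I.mix (nat_lit 29511666) (nat_lit 77433728)) (xR T5.l4 T5.l4)
  (TrL.c (I.mix (nat_lit 29511666) (nat_lit 46070178)) T0.l6
  TrL.n)))))))) (by decide +kernel)
theorem sv2 : StarV sI cl7 cl6 cl9 t0 t5 t2 :=
  (bt_n (bt_n (bt_n (bt_b bx2_0) (bt_n (bt_b bx2_1) (bt_b bx2_2))) (bt_n (bt_b bx2_3) (bt_n (bt_b bx2_4) (bt_b bx2_5)))) (bt_n (bt_n (bt_b bx2_6) (bt_n (bt_b bx2_7) (bt_b bx2_8))) (bt_n (bt_b bx2_9) (bt_n (bt_b bx2_10) (bt_b bx2_11)))))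
def S2 : StarD := StarD.mk cl7 cl6 cl9 0 5 t2
theorem bx3_0 : BoxOK sI cl7 cl9 cl6 t5 t0 b3_0 :=
  box_mk (TrL.c (I.pos (nat_lit 0) (nat_lit 0)) (xa (xb (xa T5.l0 T5.l0) (xa (xb T5.l0 T5.l0) T5.l0)) (xb T5.l0 (xa T5.l0 T5.l0)))
  (TrL.c (I.pos (nat_lit 0) (nat_lit 0)) T0.l5
  (TrL.c (I.pos (nat_lit 0) (nat_lit 111196574)) (xR T5.l6 T5.l6)
  (TrL.c (I.pos (nat_lit 0) (nat_lit 77433728)) (xR T0.l6 T0.l6)
  (TrL.c (I.pos (nat_lit 0) (nat_lit 0)) (xa (xb T0.l7 T0.l7) (xk (xb T0.l7 (xb T0.l7 T0.l7)) (xb T0.l7 (xb T0.l11 (xa T0.l11 T0.l7)))))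
  (TrL.c (I.pos (nat_lit 0) (nat_lit 0)) T5.l7
  (TrL.c (I.mix (nat_lit 29511666) (nat_lit 77433728)) (xR T0.l8 T0.l8)
  (TrL.c (I.mix (nat_lit 29511666) (nat_lit 46070178)) T5.l8
  TrL.n)))))))) (by decide +kernel)
theorem bx3_1 : BoxOK sI cl7 cl9 cl6 t5 t0 b3_1 :=
  box_mk (TrL.c (I.pos (nat_lit 0) (nat_lit 0)) (xa (xb T5.l10 (xa T5.l10 T5.l10)) (xb T5.l0 T5.l0))
  (TrL.c (I.pos (nat_lit 0) (nat_lit 0)) T0.l5
  (TrL.c (I.pos (nat_lit 0) (nat_lit 111196574)) (xR T5.l6 T5.l6)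
  (TrL.c (I.pos (nat_lit 0) (nat_lit 77433728)) (xR T0.l6 T0.l6)
  (TrL.c (I.pos (nat_lit 0) (nat_lit 0)) (xa T0.l10 (xb (xk T0.l10 T0.l10) T0.l10))
  (TrL.c (I.pos (nat_lit 0) (nat_lit 0)) T5.l7
  (TrL.c (I.mix (nat_lit 29511666) (nat_lit 77433728)) (xR T0.l8 T0.l8)
  (TrL.c (I.mix (nat_lit 29511666) (nat_lit 46070178)) T5.l8
  TrL.n)))))))) (by decide +kernel)
theorem bx3_2 : BoxOK sI cl7 cl9 cl6 t5 t0 b3_2 :=
  box_mk (TrL.c (I.pos (nat_lit 0) (nat_lit 0)) (xa T5.l10 T5.l10)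
  (TrL.c (I.pos (nat_lit 0) (nat_lit 0)) T0.l5
  (TrL.c (I.pos (nat_lit 0) (nat_lit 111196574)) T5.l6
  (TrL.c (I.pos (nat_lit 0) (nat_lit 77433728)) T0.l6
  (TrL.c (I.pos (nat_lit 0) (nat_lit 0)) (xa T0.l10 T0.l10)
  (TrL.c (I.pos (nat_lit 0) (nat_lit 0)) T5.l7
  (TrL.c (I.mix (nat_lit 29511666) (nat_lit 77433728)) T0.l8
  (TrL.c (I.mix (nat_lit 29511666) (nat_lit 46070178)) T5.l8
  TrL.n)))))))) (by decide +kernel)
theorem bx3_3 : BoxOK sI cl7 cl9 cl6 t5 t0 b3_3 :=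
  box_mk (TrL.c (I.pos (nat_lit 0) (nat_lit 0)) (xb (xa T5.l11 T5.l11) (xa (xb T5.l11 (xa T5.l11 T5.l11)) (xb T5.l11 T5.l11)))
  (TrL.c (I.pos (nat_lit 0) (nat_lit 0)) T0.l5
  (TrL.c (I.pos (nat_lit 0) (nat_lit 111196574)) (xR T5.l6 (xR T5.l6 T5.l6))
  (TrL.c (I.pos (nat_lit 0) (nat_lit 77433728)) (xR T0.l6 T0.l6)
  (TrL.c (I.pos (nat_lit 0) (nat_lit 0)) (xb (xk T0.l11 T0.l11) (xk T0.l11 T0.l11))
  (TrL.c (I.pos (nat_lit 0) (nat_lit 0)) T5.l7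
  (TrL.c (I.mix (nat_lit 29511666) (nat_lit 77433728)) (xR T0.l8 T0.l8)
  (TrL.c (I.mix (nat_lit 29511666) (nat_lit 46070178)) (xR T5.l8 T5.l8)
  TrL.n)))))))) (by decide +kernel)
theorem bx3_4 : BoxOK sI cl7 cl9 cl6 t5 t0 b3_4 :=
  box_mk (TrL.c (I.pos (nat_lit 0) (nat_lit 0)) (xa (xa (xb T5.l10 (xa T5.l10 T5.l10)) T5.l10) (xa T5.l10 (xb T5.l10 (xa T5.l10 T5.l10))))
  (TrL.c (I.pos (nat_lit 0) (nat_lit 0)) (xa T0.l5 T0.l5)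
  (TrL.c (I.pos (nat_lit 0) (nat_lit 111196574)) T5.l6
  (TrL.c (I.pos (nat_lit 0) (nat_lit 77433728)) T0.l6
  (TrL.c (I.pos (nat_lit 0) (nat_lit 0)) (xa T0.l10 T0.l10)
  (TrL.c (I.pos (nat_lit 0) (nat_lit 0)) T5.l7
  (TrL.c (I.mix (nat_lit 29511666) (nat_lit 77433728)) (xR T0.l8 T0.l8)
  (TrL.c (I.mix (nat_lit 29511666) (nat_lit 46070178)) T5.l8
  TrL.n)))))))) (by decide +kernel)
theorem bx3_5 : BoxOK sI cl7 cl9 cl6 t5 t0 b3_5 :=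
  box_mk (TrL.c (I.pos (nat_lit 0) (nat_lit 0)) (xa (xb T5.l0 T5.l0) T5.l0)
  (TrL.c (I.pos (nat_lit 0) (nat_lit 0)) T0.l5
  (TrL.c (I.pos (nat_lit 0) (nat_lit 111196574)) (xR T5.l6 T5.l6)
  (TrL.c (I.pos (nat_lit 0) (nat_lit 77433728)) (xR T0.l6 T0.l6)
  (TrL.c (I.pos (nat_lit 0) (nat_lit 0)) (xa T0.l11 (xb T0.l11 T0.l11))
  (TrL.c (I.pos (nat_lit 0) (nat_lit 0)) T5.l7
  (TrL.c (I.mix (nat_lit 29511666) (nat_lit 77433728)) (xR T0.l8 T0.l8)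
  (TrL.c (I.mix (nat_lit 29511666) (nat_lit 46070178)) T5.l8
  TrL.n)))))))) (by decide +kernel)
theorem bx3_6 : BoxOK sI cl7 cl9 cl6 t5 t0 b3_6 :=
  box_mk (TrL.c (I.pos (nat_lit 0) (nat_lit 0)) (xa (xa (xa (xb T5.l10 T5.l10) T5.l10) T5.l10) (xa T5.l10 (xa T5.l10 T5.l10)))
  (TrL.c (I.pos (nat_lit 0) (nat_lit 0)) (xa T0.l5 T0.l5)
  (TrL.c (I.pos (nat_lit 0) (nat_lit 111196574)) T5.l6
  (TrL.c (I.pos (nat_lit 0) (nat_lit 77433728)) T0.l6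
  (TrL.c (I.pos (nat_lit 0) (nat_lit 0)) (xa T0.l10 T0.l10)
  (TrL.c (I.pos (nat_lit 0) (nat_lit 0)) T5.l7
  (TrL.c (I.mix (nat_lit 29511666) (nat_lit 77433728)) (xR T0.l8 T0.l8)
  (TrL.c (I.mix (nat_lit 29511666) (nat_lit 46070178)) T5.l8
  TrL.n)))))))) (by decide +kernel)
theorem bx3_7 : BoxOK sI cl7 cl9 cl6 t5 t0 b3_7 :=
  box_mk (TrL.c (I.pos (nat_lit 0) (nat_lit 0)) (xb (xa T5.l10 T5.l10) (xa (xb T5.l10 T5.l10) T5.l10))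
  (TrL.c (I.pos (nat_lit 0) (nat_lit 0)) T0.l5
  (TrL.c (I.pos (nat_lit 0) (nat_lit 111196574)) (xR T5.l6 T5.l6)
  (TrL.c (I.pos (nat_lit 0) (nat_lit 77433728)) T0.l6
  (TrL.c (I.pos (nat_lit 0) (nat_lit 0)) (xb T0.l10 T0.l10)
  (TrL.c (I.pos (nat_lit 0) (nat_lit 0)) T5.l7
  (TrL.c (I.mix (nat_lit 29511666) (nat_lit 77433728)) (xR T0.l8 T0.l8)
  (TrL.c (I.mix (nat_lit 29511666) (nat_lit 46070178)) T5.l8
  TrL.n)))))))) (by decide +kernel)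
theorem bx3_8 : BoxOK sI cl7 cl9 cl6 t5 t0 b3_8 :=
  box_mk (TrL.c (I.pos (nat_lit 0) (nat_lit 0)) T5.l10
  (TrL.c (I.pos (nat_lit 0) (nat_lit 0)) T0.l5
  (TrL.c (I.pos (nat_lit 0) (nat_lit 111196574)) T5.l6
  (TrL.c (I.pos (nat_lit 0) (nat_lit 77433728)) T0.l6
  (TrL.c (I.pos (nat_lit 0) (nat_lit 0)) T0.l10
  (TrL.c (I.pos (nat_lit 0) (nat_lit 0)) T5.l7
  (TrL.c (I.mix (nat_lit 29511666) (nat_lit 77433728)) T0.l8
  (TrL.c (I.mix (nat_lit 29511666) (nat_lit 46070178)) T5.l8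
  TrL.n)))))))) (by decide +kernel)
theorem bx3_9 : BoxOK sI cl7 cl9 cl6 t5 t0 b3_9 :=
  box_mk (TrL.c (I.pos (nat_lit 0) (nat_lit 0)) (xa (xb T5.l0 T5.l0) (xb T5.l0 (xa T5.l0 T5.l0)))
  (TrL.c (I.pos (nat_lit 0) (nat_lit 0)) T0.l5
  (TrL.c (I.pos (nat_lit 0) (nat_lit 111196574)) (xR T5.l6 T5.l6)
  (TrL.c (I.pos (nat_lit 0) (nat_lit 77433728)) (xR T0.l6 T0.l6)
  (TrL.c (I.pos (nat_lit 0) (nat_lit 0)) (xa (xb (xk T0.l7 T0.l7) T0.l7) (xb (xk (xa T0.l7 T0.l7) (xa T0.l7 T0.l7)) (xk (xa T0.l7 T0.l7) (xa T0.l7 T0.l7))))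
  (TrL.c (I.pos (nat_lit 0) (nat_lit 0)) T5.l7
  (TrL.c (I.mix (nat_lit 29511666) (nat_lit 77433728)) (xR T0.l1 T0.l8)
  (TrL.c (I.mix (nat_lit 29511666) (nat_lit 46070178)) (xR T5.l8 T5.l2)
  TrL.n)))))))) (by decide +kernel)
theorem bx3_10 : BoxOK sI cl7 cl9 cl6 t5 t0 b3_10 :=
  box_mk (TrL.c (I.pos (nat_lit 0) (nat_lit 0)) (xa (xb T5.l0 T5.l0) (xb T5.l0 (xa T5.l0 T5.l0)))
  (TrL.c (I.pos (nat_lit 0) (nat_lit 0)) T0.l5
  (TrL.c (I.pos (nat_lit 0) (nat_lit 111196574)) (xR T5.l6 T5.l6)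
  (TrL.c (I.pos (nat_lit 0) (nat_lit 77433728)) (xR T0.l6 T0.l6)
  (TrL.c (I.pos (nat_lit 0) (nat_lit 0)) (xk T0.l7 T0.l7)
  (TrL.c (I.pos (nat_lit 0) (nat_lit 0)) T5.l7
  (TrL.c (I.mix (nat_lit 29511666) (nat_lit 77433728)) (xR T0.l8 T0.l8)
  (TrL.c (I.mix (nat_lit 29511666) (nat_lit 46070178)) T5.l8
  TrL.n)))))))) (by decide +kernel)
theorem bx3_11 : BoxOK sI cl7 cl9 cl6 t5 t0 b3_11 :=
  box_mk (TrL.c (I.pos (nat_lit 0) (nat_lit 0)) (xa (xb T5.l11 T5.l11) (xb T5.l11 T5.l11))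
  (TrL.c (I.pos (nat_lit 0) (nat_lit 0)) T0.l5
  (TrL.c (I.pos (nat_lit 0) (nat_lit 111196574)) (xR T5.l6 T5.l6)
  (TrL.c (I.pos (nat_lit 0) (nat_lit 77433728)) (xR T0.l6 T0.l6)
  (TrL.c (I.pos (nat_lit 0) (nat_lit 0)) (xk T0.l11 T0.l11)
  (TrL.c (I.pos (nat_lit 0) (nat_lit 0)) T5.l7
  (TrL.c (I.mix (nat_lit 29511666) (nat_lit 77433728)) (xR T0.l8 T0.l8)
  (TrL.c (I.mix (nat_lit 29511666) (nat_lit 46070178)) T5.l8
  TrL.n)))))))) (by decide +kernel)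
theorem sv3 : StarV sI cl7 cl9 cl6 t5 t0 t3 :=
  (bt_n (bt_n (bt_n (bt_b bx3_0) (bt_n (bt_b bx3_1) (bt_b bx3_2))) (bt_n (bt_b bx3_3) (bt_n (bt_b bx3_4) (bt_b bx3_5)))) (bt_n (bt_n (bt_b bx3_6) (bt_n (bt_b bx3_7) (bt_b bx3_8))) (bt_n (bt_b bx3_9) (bt_n (bt_b bx3_10) (bt_b bx3_11)))))
def S3 : StarD := StarD.mk cl7 cl9 cl6 5 0 t3
theorem bx4_0 : BoxOK sI cl9 cl6 cl7 t1 t3 b4_0 :=
  box_mk (TrL.c (I.pos (nat_lit 0) (nat_lit 0)) (xa (xb T1.l0 (xa (xb T1.l0 T1.l0) T1.l0)) (xb T1.l0 T1.l0))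
  (TrL.c (I.pos (nat_lit 0) (nat_lit 0)) T3.l1
  (TrL.c (I.pos (nat_lit 0) (nat_lit 124588530)) (xR T1.l1 T1.l1)
  (TrL.c (I.pos (nat_lit 0) (nat_lit 96881482)) (xR T3.l2 T3.l2)
  (TrL.c (I.pos (nat_lit 0) (nat_lit 0)) (xa T3.l3 (xk T3.l3 T3.l3))
  (TrL.c (I.pos (nat_lit 0) (nat_lit 0)) T1.l2
  (TrL.c (I.mix (nat_lit 17240550) (nat_lit 96881482)) (xR T3.l4 T3.l4)
  (TrL.c (I.mix (nat_lit 17240550) (nat_lit 71940500)) T1.l6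
  TrL.n)))))))) (by decide +kernel)
theorem bx4_1 : BoxOK sI cl9 cl6 cl7 t1 t3 b4_1 :=
  box_mk (TrL.c (I.pos (nat_lit 0) (nat_lit 0)) (xa (xb T1.l4 T1.l4) T1.l4)
  (TrL.c (I.pos (nat_lit 0) (nat_lit 0)) T3.l1
  (TrL.c (I.pos (nat_lit 0) (nat_lit 124588530)) (xR T1.l1 T1.l1)
  (TrL.c (I.pos (nat_lit 0) (nat_lit 96881482)) (xR T3.l2 T3.l2)
  (TrL.c (I.pos (nat_lit 0) (nat_lit 0)) (xa T3.l5 (xb T3.l5 T3.l5))
  (TrL.c (I.pos (nat_lit 0) (nat_lit 0)) T1.l2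
  (TrL.c (I.mix (nat_lit 17240550) (nat_lit 96881482)) T3.l4
  (TrL.c (I.mix (nat_lit 17240550) (nat_lit 71940500)) T1.l6
  TrL.n)))))))) (by decide +kernel)
theorem bx4_2 : BoxOK sI cl9 cl6 cl7 t1 t3 b4_2 :=
  box_mk (TrL.c (I.pos (nat_lit 0) (nat_lit 0)) (xa (xb T1.l4 T1.l4) T1.l4)
  (TrL.c (I.pos (nat_lit 0) (nat_lit 0)) T3.l5
  (TrL.c (I.pos (nat_lit 0) (nat_lit 124588530)) T1.l1
  (TrL.c (I.pos (nat_lit 0) (nat_lit 96881482)) T3.l4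
  (TrL.c (I.pos (nat_lit 0) (nat_lit 0)) T3.l5
  (TrL.c (I.pos (nat_lit 0) (nat_lit 0)) T1.l2
  (TrL.c (I.mix (nat_lit 17240550) (nat_lit 96881482)) (xR T3.l4 T3.l4)
  (TrL.c (I.mix (nat_lit 17240550) (nat_lit 71940500)) T1.l8
  TrL.n)))))))) (by decide +kernel)
theorem bx4_3 : BoxOK sI cl9 cl6 cl7 t1 t3 b4_3 :=
  box_mk (TrL.c (I.pos (nat_lit 0) (nat_lit 0)) (xa (xb T1.l11 T1.l11) (xb T1.l11 T1.l11))
  (TrL.c (I.pos (nat_lit 0) (nat_lit 0)) T3.l1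
  (TrL.c (I.pos (nat_lit 0) (nat_lit 124588530)) (xR T1.l1 T1.l1)
  (TrL.c (I.pos (nat_lit 0) (nat_lit 96881482)) (xR T3.l2 T3.l2)
  (TrL.c (I.pos (nat_lit 0) (nat_lit 0)) (xb T3.l11 (xk (xb T3.l3 T3.l3) (xb T3.l3 (xa T3.l3 T3.l3))))
  (TrL.c (I.pos (nat_lit 0) (nat_lit 0)) T1.l2
  (TrL.c (I.mix (nat_lit 17240550) (nat_lit 96881482)) (xR T3.l4 T3.l4)
  (TrL.c (I.mix (nat_lit 17240550) (nat_lit 71940500)) T1.l6
  TrL.n)))))))) (by decide +kernel)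
theorem bx4_4 : BoxOK sI cl9 cl6 cl7 t1 t3 b4_4 :=
  box_mk (TrL.c (I.pos (nat_lit 0) (nat_lit 0)) (xa (xa (xb T1.l4 T1.l4) T1.l4) T1.l4)
  (TrL.c (I.pos (nat_lit 0) (nat_lit 0)) T3.l1
  (TrL.c (I.pos (nat_lit 0) (nat_lit 124588530)) T1.l1
  (TrL.c (I.pos (nat_lit 0) (nat_lit 96881482)) (xR T3.l2 T3.l2)
  (TrL.c (I.pos (nat_lit 0) (nat_lit 0)) T3.l5
  (TrL.c (I.pos (nat_lit 0) (nat_lit 0)) T1.l2
  (TrL.c (I.mix (nat_lit 17240550) (nat_lit 96881482)) (xR T3.l4 T3.l4)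
  (TrL.c (I.mix (nat_lit 17240550) (nat_lit 71940500)) (xR T1.l8 T1.l3)
  TrL.n)))))))) (by decide +kernel)
theorem bx4_5 : BoxOK sI cl9 cl6 cl7 t1 t3 b4_5 :=
  box_mk (TrL.c (I.pos (nat_lit 0) (nat_lit 0)) (xa (xa (xb T1.l4 (xa T1.l4 T1.l4)) T1.l4) (xa T1.l4 T1.l4))
  (TrL.c (I.pos (nat_lit 0) (nat_lit 0)) T3.l1
  (TrL.c (I.pos (nat_lit 0) (nat_lit 124588530)) T1.l1
  (TrL.c (I.pos (nat_lit 0) (nat_lit 96881482)) T3.l2
  (TrL.c (I.pos (nat_lit 0) (nat_lit 0)) T3.l5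
  (TrL.c (I.pos (nat_lit 0) (nat_lit 0)) T1.l2
  (TrL.c (I.mix (nat_lit 17240550) (nat_lit 96881482)) (xR T3.l4 T3.l4)
  (TrL.c (I.mix (nat_lit 17240550) (nat_lit 71940500)) (xR T1.l8 T1.l3)
  TrL.n)))))))) (by decide +kernel)
theorem bx4_6 : BoxOK sI cl9 cl6 cl7 t1 t3 b4_6 :=
  box_mk (TrL.c (I.pos (nat_lit 0) (nat_lit 0)) (xb T1.l4 T1.l4)
  (TrL.c (I.pos (nat_lit 0) (nat_lit 0)) T3.l1
  (TrL.c (I.pos (nat_lit 0) (nat_lit 124588530)) T1.l1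
  (TrL.c (I.pos (nat_lit 0) (nat_lit 96881482)) T3.l2
  (TrL.c (I.pos (nat_lit 0) (nat_lit 0)) T3.l5
  (TrL.c (I.pos (nat_lit 0) (nat_lit 0)) T1.l2
  (TrL.c (I.mix (nat_lit 17240550) (nat_lit 96881482)) T3.l4
  (TrL.c (I.mix (nat_lit 17240550) (nat_lit 71940500)) T1.l3
  TrL.n)))))))) (by decide +kernel)
theorem bx4_7 : BoxOK sI cl9 cl6 cl7 t1 t3 b4_7 :=
  box_mk (TrL.c (I.pos (nat_lit 0) (nat_lit 0)) (xa (xb (xa T1.l4 T1.l4) T1.l4) T1.l4)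
  (TrL.c (I.pos (nat_lit 0) (nat_lit 0)) T3.l5
  (TrL.c (I.pos (nat_lit 0) (nat_lit 124588530)) T1.l1
  (TrL.c (I.pos (nat_lit 0) (nat_lit 96881482)) T3.l4
  (TrL.c (I.pos (nat_lit 0) (nat_lit 0)) T3.l1
  (TrL.c (I.pos (nat_lit 0) (nat_lit 0)) T1.l1
  (TrL.c (I.mix (nat_lit 17240550) (nat_lit 96881482)) (xR T3.l4 T3.l2)
  (TrL.c (I.mix (nat_lit 17240550) (nat_lit 71940500)) T1.l8
  TrL.n)))))))) (by decide +kernel)
theorem bx4_8 : BoxOK sI cl9 cl6 cl7 t1 t3 b4_8 :=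
  box_mk (TrL.c (I.pos (nat_lit 0) (nat_lit 0)) (xa T1.l11 T1.l11)
  (TrL.c (I.pos (nat_lit 0) (nat_lit 0)) T3.l1
  (TrL.c (I.pos (nat_lit 0) (nat_lit 124588530)) (xR T1.l1 T1.l1)
  (TrL.c (I.pos (nat_lit 0) (nat_lit 96881482)) (xR T3.l2 T3.l2)
  (TrL.c (I.pos (nat_lit 0) (nat_lit 0)) (xk (xb T3.l11 T3.l11) T3.l11)
  (TrL.c (I.pos (nat_lit 0) (nat_lit 0)) T1.l2
  (TrL.c (I.mix (nat_lit 17240550) (nat_lit 96881482)) (xR T3.l4 T3.l4)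
  (TrL.c (I.mix (nat_lit 17240550) (nat_lit 71940500)) T1.l6
  TrL.n)))))))) (by decide +kernel)
theorem bx4_9 : BoxOK sI cl9 cl6 cl7 t1 t3 b4_9 :=
  box_mk (TrL.c (I.pos (nat_lit 0) (nat_lit 0)) (xa (xb T1.l0 T1.l0) (xb T1.l0 T1.l0))
  (TrL.c (I.pos (nat_lit 0) (nat_lit 0)) T3.l1
  (TrL.c (I.pos (nat_lit 0) (nat_lit 124588530)) (xR T1.l1 T1.l8)
  (TrL.c (I.pos (nat_lit 0) (nat_lit 96881482)) (xR T3.l2 T3.l2)
  (TrL.c (I.pos (nat_lit 0) (nat_lit 0)) (xa (xb (xk T3.l3 T3.l3) (xk T3.l3 T3.l3)) (xb (xk (xa T3.l3 T3.l3) (xa T3.l3 T3.l3)) (xk (xa T3.l3 T3.l3) (xa T3.l3 T3.l3))))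
  (TrL.c (I.pos (nat_lit 0) (nat_lit 0)) (xa T1.l2 T1.l2)
  (TrL.c (I.mix (nat_lit 17240550) (nat_lit 96881482)) (xR T3.l4 T3.l4)
  (TrL.c (I.mix (nat_lit 17240550) (nat_lit 71940500)) (xR T1.l3 T1.l6)
  TrL.n)))))))) (by decide +kernel)
theorem bx4_10 : BoxOK sI cl9 cl6 cl7 t1 t3 b4_10 :=
  box_mk (TrL.c (I.pos (nat_lit 0) (nat_lit 0)) (xa T1.l0 (xb T1.l0 T1.l0))
  (TrL.c (I.pos (nat_lit 0) (nat_lit 0)) T3.l1
  (TrL.c (I.pos (nat_lit 0) (nat_lit 124588530)) (xR T1.l1 T1.l1)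
  (TrL.c (I.pos (nat_lit 0) (nat_lit 96881482)) (xR T3.l2 T3.l2)
  (TrL.c (I.pos (nat_lit 0) (nat_lit 0)) (xk (xb T3.l11 (xa T3.l11 T3.l3)) (xb T3.l11 (xa T3.l3 (xs T3.l11 T3.l11))))
  (TrL.c (I.pos (nat_lit 0) (nat_lit 0)) T1.l2
  (TrL.c (I.mix (nat_lit 17240550) (nat_lit 96881482)) (xR T3.l4 T3.l4)
  (TrL.c (I.mix (nat_lit 17240550) (nat_lit 71940500)) T1.l6
  TrL.n)))))))) (by decide +kernel)
theorem bx4_11 : BoxOK sI cl9 cl6 cl7 t1 t3 b4_11 :=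
  box_mk (TrL.c (I.pos (nat_lit 0) (nat_lit 0)) T1.l11
  (TrL.c (I.pos (nat_lit 0) (nat_lit 0)) T3.l1
  (TrL.c (I.pos (nat_lit 0) (nat_lit 124588530)) (xR T1.l1 T1.l1)
  (TrL.c (I.pos (nat_lit 0) (nat_lit 96881482)) (xR T3.l2 T3.l2)
  (TrL.c (I.pos (nat_lit 0) (nat_lit 0)) (xk T3.l11 T3.l11)
  (TrL.c (I.pos (nat_lit 0) (nat_lit 0)) T1.l2
  (TrL.c (I.mix (nat_lit 17240550) (nat_lit 96881482)) (xR T3.l4 T3.l4)
  (TrL.c (I.mix (nat_lit 17240550) (nat_lit 71940500)) T1.l6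
  TrL.n)))))))) (by decide +kernel)
theorem sv4 : StarV sI cl9 cl6 cl7 t1 t3 t4 :=
  (bt_n (bt_n (bt_n (bt_b bx4_0) (bt_n (bt_b bx4_1) (bt_b bx4_2))) (bt_n (bt_b bx4_3) (bt_n (bt_b bx4_4) (bt_b bx4_5)))) (bt_n (bt_n (bt_b bx4_6) (bt_n (bt_b bx4_7) (bt_b bx4_8))) (bt_n (bt_b bx4_9) (bt_n (bt_b bx4_10) (bt_b bx4_11)))))
def S4 : StarD := StarD.mk cl9 cl6 cl7 1 3 t4
theorem bx5_0 : BoxOK sI cl9 cl7 cl6 t3 t1 b5_0 :=
  box_mk (TrL.c (I.pos (nat_lit 0) (nat_lit 0)) (xa (xb T3.l0 (xa (xb T3.l0 T3.l0) T3.l0)) (xb T3.l0 (xa T3.l0 T3.l0)))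
  (TrL.c (I.pos (nat_lit 0) (nat_lit 0)) T1.l5
  (TrL.c (I.pos (nat_lit 0) (nat_lit 124588530)) (xR T3.l6 T3.l6)
  (TrL.c (I.pos (nat_lit 0) (nat_lit 96881482)) (xR T1.l6 T1.l6)
  (TrL.c (I.pos (nat_lit 0) (nat_lit 0)) (xa (xk T1.l7 T1.l7) (xk (xb T1.l7 T1.l7) (xb T1.l7 (xb T1.l7 T1.l7))))
  (TrL.c (I.pos (nat_lit 0) (nat_lit 0)) T3.l7
  (TrL.c (I.mix (nat_lit 17240550) (nat_lit 96881482)) (xR T1.l8 T1.l8)
  (TrL.c (I.mix (nat_lit 17240550) (nat_lit 71940500)) (xR T3.l8 T3.l8)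
  TrL.n)))))))) (by decide +kernel)
theorem bx5_1 : BoxOK sI cl9 cl7 cl6 t3 t1 b5_1 :=
  box_mk (TrL.c (I.pos (nat_lit 0) (nat_lit 0)) (xa T3.l9 T3.l0)
  (TrL.c (I.pos (nat_lit 0) (nat_lit 0)) T1.l5
  (TrL.c (I.pos (nat_lit 0) (nat_lit 124588530)) (xR T3.l6 T3.l6)
  (TrL.c (I.pos (nat_lit 0) (nat_lit 96881482)) (xR T1.l6 T1.l6)
  (TrL.c (I.pos (nat_lit 0) (nat_lit 0)) (xa T1.l9 (xb (xk T1.l9 T1.l9) T1.l9))
  (TrL.c (I.pos (nat_lit 0) (nat_lit 0)) T3.l7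
  (TrL.c (I.mix (nat_lit 17240550) (nat_lit 96881482)) (xR T1.l8 T1.l8)
  (TrL.c (I.mix (nat_lit 17240550) (nat_lit 71940500)) T3.l2
  TrL.n)))))))) (by decide +kernel)
theorem bx5_2 : BoxOK sI cl9 cl7 cl6 t3 t1 b5_2 :=
  box_mk (TrL.c (I.pos (nat_lit 0) (nat_lit 0)) T3.l9
  (TrL.c (I.pos (nat_lit 0) (nat_lit 0)) T1.l5
  (TrL.c (I.pos (nat_lit 0) (nat_lit 124588530)) T3.l6
  (TrL.c (I.pos (nat_lit 0) (nat_lit 96881482)) (xR T1.l6 T1.l6)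
  (TrL.c (I.pos (nat_lit 0) (nat_lit 0)) T1.l9
  (TrL.c (I.pos (nat_lit 0) (nat_lit 0)) T3.l7
  (TrL.c (I.mix (nat_lit 17240550) (nat_lit 96881482)) (xR T1.l8 T1.l8)
  (TrL.c (I.mix (nat_lit 17240550) (nat_lit 71940500)) T3.l4
  TrL.n)))))))) (by decide +kernel)
theorem bx5_3 : BoxOK sI cl9 cl7 cl6 t3 t1 b5_3 :=
  box_mk (TrL.c (I.pos (nat_lit 0) (nat_lit 0)) (xb (xa T3.l10 T3.l10) (xa (xb T3.l10 (xa T3.l10 T3.l10)) (xb T3.l10 T3.l10)))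
  (TrL.c (I.pos (nat_lit 0) (nat_lit 0)) T1.l5
  (TrL.c (I.pos (nat_lit 0) (nat_lit 124588530)) (xR T3.l6 (xR T3.l6 T3.l6))
  (TrL.c (I.pos (nat_lit 0) (nat_lit 96881482)) (xR T1.l6 T1.l6)
  (TrL.c (I.pos (nat_lit 0) (nat_lit 0)) (xb (xk T1.l10 T1.l10) (xk (xb T1.l7 (xa T1.l7 T1.l7)) (xb T1.l7 (xa T1.l7 (xs T1.l7 T1.l7)))))
  (TrL.c (I.pos (nat_lit 0) (nat_lit 0)) T3.l7
  (TrL.c (I.mix (nat_lit 17240550) (nat_lit 96881482)) (xR T1.l8 (xR T1.l8 T1.l8))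
  (TrL.c (I.mix (nat_lit 17240550) (nat_lit 71940500)) (xR T3.l8 T3.l8)
  TrL.n)))))))) (by decide +kernel)
theorem bx5_4 : BoxOK sI cl9 cl7 cl6 t3 t1 b5_4 :=
  box_mk (TrL.c (I.pos (nat_lit 0) (nat_lit 0)) (xa (xa (xb T3.l9 (xa T3.l9 T3.l9)) (xb T3.l9 T3.l9)) (xa T3.l9 T3.l9))
  (TrL.c (I.pos (nat_lit 0) (nat_lit 0)) (xa T1.l9 T1.l5)
  (TrL.c (I.pos (nat_lit 0) (nat_lit 124588530)) T3.l6
  (TrL.c (I.pos (nat_lit 0) (nat_lit 96881482)) (xR T1.l6 T1.l6)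
  (TrL.c (I.pos (nat_lit 0) (nat_lit 0)) (xa T1.l9 T1.l9)
  (TrL.c (I.pos (nat_lit 0) (nat_lit 0)) T3.l7
  (TrL.c (I.mix (nat_lit 17240550) (nat_lit 96881482)) (xR T1.l8 T1.l8)
  (TrL.c (I.mix (nat_lit 17240550) (nat_lit 71940500)) (xR T3.l4 T3.l8)
  TrL.n)))))))) (by decide +kernel)
theorem bx5_5 : BoxOK sI cl9 cl7 cl6 t3 t1 b5_5 :=
  box_mk (TrL.c (I.pos (nat_lit 0) (nat_lit 0)) (xa T3.l0 T3.l0)
  (TrL.c (I.pos (nat_lit 0) (nat_lit 0)) T1.l5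
  (TrL.c (I.pos (nat_lit 0) (nat_lit 124588530)) (xR T3.l6 T3.l6)
  (TrL.c (I.pos (nat_lit 0) (nat_lit 96881482)) (xR T1.l6 T1.l6)
  (TrL.c (I.pos (nat_lit 0) (nat_lit 0)) (xa T1.l10 (xb (xk T1.l10 T1.l10) T1.l10))
  (TrL.c (I.pos (nat_lit 0) (nat_lit 0)) T3.l7
  (TrL.c (I.mix (nat_lit 17240550) (nat_lit 96881482)) (xR T1.l8 T1.l8)
  (TrL.c (I.mix (nat_lit 17240550) (nat_lit 71940500)) T3.l2
  TrL.n)))))))) (by decide +kernel)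
theorem bx5_6 : BoxOK sI cl9 cl7 cl6 t3 t1 b5_6 :=
  box_mk (TrL.c (I.pos (nat_lit 0) (nat_lit 0)) (xa (xa (xb T3.l9 (xa T3.l9 T3.l9)) T3.l9) (xa T3.l9 T3.l9))
  (TrL.c (I.pos (nat_lit 0) (nat_lit 0)) T1.l5
  (TrL.c (I.pos (nat_lit 0) (nat_lit 124588530)) T3.l6
  (TrL.c (I.pos (nat_lit 0) (nat_lit 96881482)) (xR T1.l6 T1.l6)
  (TrL.c (I.pos (nat_lit 0) (nat_lit 0)) (xa T1.l9 T1.l9)
  (TrL.c (I.pos (nat_lit 0) (nat_lit 0)) T3.l7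
  (TrL.c (I.mix (nat_lit 17240550) (nat_lit 96881482)) (xR T1.l8 T1.l8)
  (TrL.c (I.mix (nat_lit 17240550) (nat_lit 71940500)) (xR T3.l4 T3.l8)
  TrL.n)))))))) (by decide +kernel)
theorem bx5_7 : BoxOK sI cl9 cl7 cl6 t3 t1 b5_7 :=
  box_mk (TrL.c (I.pos (nat_lit 0) (nat_lit 0)) (xb T3.l9 (xa T3.l9 T3.l9))
  (TrL.c (I.pos (nat_lit 0) (nat_lit 0)) T1.l5
  (TrL.c (I.pos (nat_lit 0) (nat_lit 124588530)) (xR T3.l6 T3.l6)
  (TrL.c (I.pos (nat_lit 0) (nat_lit 96881482)) (xR T1.l6 T1.l6)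
  (TrL.c (I.pos (nat_lit 0) (nat_lit 0)) (xb T1.l9 T1.l9)
  (TrL.c (I.pos (nat_lit 0) (nat_lit 0)) T3.l7
  (TrL.c (I.mix (nat_lit 17240550) (nat_lit 96881482)) T1.l8
  (TrL.c (I.mix (nat_lit 17240550) (nat_lit 71940500)) (xR T3.l8 T3.l8)
  TrL.n)))))))) (by decide +kernel)
theorem bx5_8 : BoxOK sI cl9 cl7 cl6 t3 t1 b5_8 :=
  box_mk (TrL.c (I.pos (nat_lit 0) (nat_lit 0)) (xa (xa T3.l9 T3.l9) T3.l9)
  (TrL.c (I.pos (nat_lit 0) (nat_lit 0)) T1.l5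
  (TrL.c (I.pos (nat_lit 0) (nat_lit 124588530)) T3.l6
  (TrL.c (I.pos (nat_lit 0) (nat_lit 96881482)) (xR T1.l6 T1.l8)
  (TrL.c (I.pos (nat_lit 0) (nat_lit 0)) T1.l9
  (TrL.c (I.pos (nat_lit 0) (nat_lit 0)) T3.l7
  (TrL.c (I.mix (nat_lit 17240550) (nat_lit 96881482)) (xR T1.l8 T1.l8)
  (TrL.c (I.mix (nat_lit 17240550) (nat_lit 71940500)) T3.l4
  TrL.n)))))))) (by decide +kernel)
theorem bx5_9 : BoxOK sI cl9 cl7 cl6 t3 t1 b5_9 :=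
  box_mk (TrL.c (I.pos (nat_lit 0) (nat_lit 0)) (xa T3.l10 T3.l10)
  (TrL.c (I.pos (nat_lit 0) (nat_lit 0)) T1.l5
  (TrL.c (I.pos (nat_lit 0) (nat_lit 124588530)) (xR T3.l6 T3.l6)
  (TrL.c (I.pos (nat_lit 0) (nat_lit 96881482)) (xR T1.l6 T1.l6)
  (TrL.c (I.pos (nat_lit 0) (nat_lit 0)) (xk T1.l10 T1.l10)
  (TrL.c (I.pos (nat_lit 0) (nat_lit 0)) T3.l7
  (TrL.c (I.mix (nat_lit 17240550) (nat_lit 96881482)) (xR T1.l8 T1.l8)
  (TrL.c (I.mix (nat_lit 17240550) (nat_lit 71940500)) T3.l2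
  TrL.n)))))))) (by decide +kernel)
theorem bx5_10 : BoxOK sI cl9 cl7 cl6 t3 t1 b5_10 :=
  box_mk (TrL.c (I.pos (nat_lit 0) (nat_lit 0)) (xa T3.l0 (xb T3.l0 T3.l0))
  (TrL.c (I.pos (nat_lit 0) (nat_lit 0)) T1.l5
  (TrL.c (I.pos (nat_lit 0) (nat_lit 124588530)) (xR T3.l6 T3.l4)
  (TrL.c (I.pos (nat_lit 0) (nat_lit 96881482)) (xR T1.l6 T1.l6)
  (TrL.c (I.pos (nat_lit 0) (nat_lit 0)) (xa (xb (xk T1.l7 T1.l7) T1.l7) (xb (xk (xa T1.l7 T1.l7) (xa T1.l7 T1.l7)) (xk (xa T1.l7 T1.l7) (xa T1.l7 T1.l7))))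
  (TrL.c (I.pos (nat_lit 0) (nat_lit 0)) T3.l7
  (TrL.c (I.mix (nat_lit 17240550) (nat_lit 96881482)) (xR T1.l8 T1.l8)
  (TrL.c (I.mix (nat_lit 17240550) (nat_lit 71940500)) (xR T3.l8 T3.l2)
  TrL.n)))))))) (by decide +kernel)
theorem bx5_11 : BoxOK sI cl9 cl7 cl6 t3 t1 b5_11 :=
  box_mk (TrL.c (I.pos (nat_lit 0) (nat_lit 0)) (xa T3.l0 T3.l0)
  (TrL.c (I.pos (nat_lit 0) (nat_lit 0)) T1.l5
  (TrL.c (I.pos (nat_lit 0) (nat_lit 124588530)) (xR T3.l6 T3.l6)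
  (TrL.c (I.pos (nat_lit 0) (nat_lit 96881482)) (xR T1.l6 T1.l6)
  (TrL.c (I.pos (nat_lit 0) (nat_lit 0)) (xk T1.l7 T1.l7)
  (TrL.c (I.pos (nat_lit 0) (nat_lit 0)) T3.l7
  (TrL.c (I.mix (nat_lit 17240550) (nat_lit 96881482)) (xR T1.l8 T1.l8)
  (TrL.c (I.mix (nat_lit 17240550) (nat_lit 71940500)) (xR T3.l8 T3.l8)
  TrL.n)))))))) (by decide +kernel)
theorem sv5 : StarV sI cl9 cl7 cl6 t3 t1 t5 :=
  (bt_n (bt_n (bt_n (bt_b bx5_0) (bt_n (bt_b bx5_1) (bt_b bx5_2))) (bt_n (bt_b bx5_3) (bt_n (bt_b bx5_4) (bt_b bx5_5)))) (bt_n (bt_n (bt_b bx5_6) (bt_n (bt_b bx5_7) (bt_b bx5_8))) (bt_n (bt_b bx5_9) (bt_n (bt_b bx5_10) (bt_b bx5_11)))))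
def S5 : StarD := StarD.mk cl9 cl7 cl6 3 1 t5
def G : List StarD := [S0, S1, S2, S3, S4, S5]
theorem so0 : StarOK sI G S0 :=
  star_mk (by decide) (by decide) rfl rfl rfl rfl rfl rfl (rfl : _ = t2) (rfl : _ = t4)
  (st_mk (Pth.l (Pth.l (Pth.l Pth.z))) (nat_lit 143933440) (nat_lit 164569372) (by decide +kernel))
  (st_mk (Pth.l (Pth.l (Pth.l Pth.z))) (nat_lit 178141079) (nat_lit 200956386) (by decide +kernel))
  (st_mk (Pth.l (Pth.l (Pth.l Pth.z))) (nat_lit 220089038) (nat_lit 243337269) (by decide +kernel)) sv0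
theorem so1 : StarOK sI G S1 :=
  star_mk (by decide) (by decide) rfl rfl rfl rfl rfl rfl (rfl : _ = t4) (rfl : _ = t2)
  (st_mk (Pth.l (Pth.l (Pth.l Pth.z))) (nat_lit 116596872) (nat_lit 135281103) (by decide +kernel))
  (st_mk (Pth.l (Pth.l (Pth.l Pth.z))) (nat_lit 152558098) (nat_lit 171555695) (by decide +kernel))
  (st_mk (Pth.l (Pth.l (Pth.l Pth.z))) (nat_lit 194418871) (nat_lit 213840751) (by decide +kernel)) sv1
theorem so2 : StarOK sI G S2 :=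
  star_mk (by decide) (by decide) rfl rfl rfl rfl rfl rfl (rfl : _ = t0) (rfl : _ = t5)
  (st_mk (Pth.l (Pth.l (Pth.l Pth.z))) (nat_lit 187649035) (nat_lit 189209297) (by decide +kernel))
  (st_mk (Pth.l (Pth.l (Pth.l Pth.z))) (nat_lit 223295812) (nat_lit 225287907) (by decide +kernel))
  (st_mk (Pth.l (Pth.l (Pth.l Pth.z))) (nat_lit 264592712) (nat_lit 267184379) (by decide +kernel)) sv2
theorem so3 : StarOK sI G S3 :=
  star_mk (by decide) (by decide) rfl rfl rfl rfl rfl rfl (rfl : _ = t5) (rfl : _ = t0)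
  (st_mk (Pth.l (Pth.l (Pth.l Pth.z))) (nat_lit 115964928) (nat_lit 134715450) (by decide +kernel))
  (st_mk (Pth.l (Pth.l (Pth.l Pth.z))) (nat_lit 151474678) (nat_lit 170637323) (by decide +kernel))
  (st_mk (Pth.l (Pth.l (Pth.l Pth.z))) (nat_lit 192653696) (nat_lit 212399444) (by decide +kernel)) sv3
theorem so4 : StarOK sI G S4 :=
  star_mk (by decide) (by decide) rfl rfl rfl rfl rfl rfl (rfl : _ = t1) (rfl : _ = t3)
  (st_mk (Pth.l (Pth.l (Pth.l Pth.z))) (nat_lit 186665375) (nat_lit 188130998) (by decide +kernel))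
  (st_mk (Pth.l (Pth.l (Pth.l Pth.z))) (nat_lit 221901221) (nat_lit 223752933) (by decide +kernel))
  (st_mk (Pth.l (Pth.l (Pth.l Pth.z))) (nat_lit 262631490) (nat_lit 265015467) (by decide +kernel)) sv4
theorem so5 : StarOK sI G S5 :=
  star_mk (by decide) (by decide) rfl rfl rfl rfl rfl rfl (rfl : _ = t3) (rfl : _ = t1)
  (st_mk (Pth.l (Pth.l (Pth.l Pth.z))) (nat_lit 142409728) (nat_lit 162968683) (by decide +kernel))
  (st_mk (Pth.l (Pth.l (Pth.l Pth.z))) (nat_lit 175745962) (nat_lit 198545771) (by decide +kernel))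
  (st_mk (Pth.l (Pth.l (Pth.l Pth.z))) (nat_lit 216445626) (nat_lit 239769604) (by decide +kernel)) sv5
theorem ok : GroupOK (nat_lit 150274048) (nat_lit 209387520) G := grp_mk (allS_c so0 (allS_c so1 (allS_c so2 (allS_c so3 (allS_c so4 (allS_c so5 allS_n))))))
theorem cov : GCov G cl6 cl7 cl9 := cov_mk
  ⟨0, by decide, rfl, rfl, rfl⟩ ⟨1, by decide, rfl, rfl, rfl⟩ ⟨2, by decide, rfl, rfl, rfl⟩ ⟨3, by decide, rfl, rfl, rfl⟩ ⟨4, by decide, rfl, rfl, rfl⟩ ⟨5, by decide, rfl, rfl, rfl⟩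
end Q345_2


end Pool.Agent.Helper6.MONO
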