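import Pool.Agent.Helper6.MONO.Cert.C10

/-!
Certificate data (generated).
-/

set_option autoImplicit false
set_option linter.all false
noncomputable section
namespace Pool.Agent.Helper6.MONO


namespace Q345_3
def sI : I := I.pos (nat_lit 209321984) (nat_lit 268435456)
def b0_0 : Bx := Bx.mk (St.mk (I.pos (nat_lit 158498816) (nat_lit 232718336)) (I.mix (nat_lit 1769472) (nat_lit 55246848)) (I.mix (nat_lit 2457600) (nat_lit 81117184)) (I.pos (nat_lit 140705792) (nat_lit 269074432)) (I.mix (nat_lit 112263168) (nat_lit 65257472)) (I.mix (nat_lit 66142208) (nat_lit 60964864)) (I.mix (nat_lit 85540864) (nat_lit 84312064)))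
  false (nat_lit 42798293)
def b0_1 : Bx := Bx.mk (St.mk (I.mix (nat_lit 21774336) (nat_lit 122601472)) (I.mix (nat_lit 9945088) (nat_lit 28524544)) (I.mix (nat_lit 20381696) (nat_lit 14516224)) (I.pos (nat_lit 41811968) (nat_lit 118112256)) (I.mix (nat_lit 32423936) (nat_lit 31490048)) (I.mix (nat_lit 24543232) (nat_lit 21921792)) (I.mix (nat_lit 17498112) (nat_lit 14139392)))
  false (nat_lit 0)
def b0_2 : Bx := Bx.mk (St.mk (I.pos (nat_lit 90144768) (nat_lit 136069120)) (I.mix (nat_lit 48644096) (nat_lit 8781824)) (I.neg (nat_lit 1507328) (nat_lit 52199424)) (I.pos (nat_lit 76578816) (nat_lit 129335296)) (I.mix (nat_lit 79822848) (nat_lit 29081600)) (I.mix (nat_lit 28213248) (nat_lit 64372736)) (I.mix (nat_lit 18415616) (nat_lit 48824320)))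
  false (nat_lit 0)
def b0_3 : Bx := Bx.mk (St.mk (I.mix (nat_lit 37830656) (nat_lit 68370432)) (I.mix (nat_lit 29147136) (nat_lit 6225920)) (I.mix (nat_lit 19464192) (nat_lit 376832)) (I.pos (nat_lit 42926080) (nat_lit 80920576)) (I.mix (nat_lit 36569088) (nat_lit 15024128)) (I.mix (nat_lit 15876096) (nat_lit 24903680)) (I.mix (nat_lit 7520256) (nat_lit 10010624)))
  false (nat_lit 0)
def b0_4 : Bx := Bx.mk (St.mk (I.pos (nat_lit 202309632) (nat_lit 284557312)) (I.mix (nat_lit 26820608) (nat_lit 37371904)) (I.mix (nat_lit 90095616) (nat_lit 44285952)) (I.pos (nat_lit 218660864) (nat_lit 374784000)) (I.mix (nat_lit 66764800) (nat_lit 47628288)) (I.mix (nat_lit 47054848) (nat_lit 38879232)) (I.mix (nat_lit 82182144) (nat_lit 73547776)))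
  false (nat_lit 7404733)
def b0_5 : Bx := Bx.mk (St.mk (I.pos (nat_lit 103301120) (nat_lit 174161920)) (I.neg (nat_lit 6242304) (nat_lit 49610752)) (I.neg (nat_lit 5079040) (nat_lit 52215808)) (I.pos (nat_lit 95518720) (nat_lit 177963008)) (I.mix (nat_lit 78397440) (nat_lit 43089920)) (I.mix (nat_lit 36569088) (nat_lit 51200000)) (I.mix (nat_lit 30687232) (nat_lit 48758784)))
  false (nat_lit 0)
def b0_6 : Bx := Bx.mk (St.mk (I.mix (nat_lit 19251200) (nat_lit 84164608)) (I.mix (nat_lit 28835840) (nat_lit 1556480)) (I.mix (nat_lit 20086784) (nat_lit 114688)) (I.pos (nat_lit 42024960) (nat_lit 90013696)) (I.mix (nat_lit 36077568) (nat_lit 29769728)) (I.mix (nat_lit 22675456) (nat_lit 29278208)) (I.mix (nat_lit 12042240) (nat_lit 15712256)))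
  false (nat_lit 0)
def b0_7 : Bx := Bx.mk (St.mk (I.pos (nat_lit 163151872) (nat_lit 214728704)) (I.mix (nat_lit 7782400) (nat_lit 59179008)) (I.pos (nat_lit 278528) (nat_lit 85278720)) (I.pos (nat_lit 155795456) (nat_lit 241369088)) (I.mix (nat_lit 140296192) (nat_lit 53215232)) (I.mix (nat_lit 108822528) (nat_lit 66437120)) (I.mix (nat_lit 111198208) (nat_lit 64651264)))
  false (nat_lit 5538502)
def b0_8 : Bx := Bx.mk (St.mk (I.mix (nat_lit 36945920) (nat_lit 108429312)) (I.mix (nat_lit 11534336) (nat_lit 32686080)) (I.mix (nat_lit 11632640) (nat_lit 17711104)) (I.pos (nat_lit 41500672) (nat_lit 107560960)) (I.mix (nat_lit 47792128) (nat_lit 26705920)) (I.mix (nat_lit 41369600) (nat_lit 25755648)) (I.mix (nat_lit 22347776) (nat_lit 15269888)))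
  false (nat_lit 0)
def b0_9 : Bx := Bx.mk (St.mk (I.pos (nat_lit 184074240) (nat_lit 232833024)) (I.pos (nat_lit 11075584) (nat_lit 52936704)) (I.pos (nat_lit 7602176) (nat_lit 77185024)) (I.pos (nat_lit 205881344) (nat_lit 266059776)) (I.mix (nat_lit 88866816) (nat_lit 64012288)) (I.mix (nat_lit 65486848) (nat_lit 49643520)) (I.mix (nat_lit 104120320) (nat_lit 64274432)))
  false (nat_lit 19647668)
def b0_10 : Bx := Bx.mk (St.mk (I.pos (nat_lit 142327808) (nat_lit 209027072)) (I.mix (nat_lit 36978688) (nat_lit 17481728)) (I.mix (nat_lit 42565632) (nat_lit 28688384)) (I.pos (nat_lit 126500864) (nat_lit 222609408)) (I.mix (nat_lit 59310080) (nat_lit 47628288)) (I.mix (nat_lit 47841280) (nat_lit 41828352)) (I.mix (nat_lit 48889856) (nat_lit 42024960)))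
  false (nat_lit 19217256)
def b0_11 : Bx := Bx.mk (St.mk (I.pos (nat_lit 163938304) (nat_lit 208486400)) (I.mix (nat_lit 12681216) (nat_lit 31916032)) (I.mix (nat_lit 6881280) (nat_lit 49627136)) (I.pos (nat_lit 157564928) (nat_lit 224854016)) (I.mix (nat_lit 111558656) (nat_lit 58638336)) (I.mix (nat_lit 109330432) (nat_lit 50692096)) (I.mix (nat_lit 115572736) (nat_lit 48906240)))
  false (nat_lit 20619823)
def t0 : BTr := (BTr.n (BTr.n (BTr.n (BTr.b b0_0) (BTr.n (BTr.b b0_1) (BTr.b b0_2))) (BTr.n (BTr.b b0_3) (BTr.n (BTr.b b0_4) (BTr.b b0_5)))) (BTr.n (BTr.n (BTr.b b0_6) (BTr.n (BTr.b b0_7) (BTr.b b0_8))) (BTr.n (BTr.b b0_9) (BTr.n (BTr.b b0_10) (BTr.b b0_11)))))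
namespace T0
def l0 : Tr := Tr.L (Pth.l (Pth.l (Pth.l Pth.z)))
def l1 : Tr := Tr.L (Pth.l (Pth.l (Pth.r (Pth.l Pth.z))))
def l2 : Tr := Tr.L (Pth.l (Pth.l (Pth.r (Pth.r Pth.z))))
def l3 : Tr := Tr.L (Pth.l (Pth.r (Pth.l Pth.z)))
def l4 : Tr := Tr.L (Pth.l (Pth.r (Pth.r (Pth.l Pth.z))))
def l5 : Tr := Tr.L (Pth.l (Pth.r (Pth.r (Pth.r Pth.z))))
def l6 : Tr := Tr.L (Pth.r (Pth.l (Pth.l Pth.z)))
def l7 : Tr := Tr.L (Pth.r (Pth.l (Pth.r (Pth.l Pth.z))))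
def l8 : Tr := Tr.L (Pth.r (Pth.l (Pth.r (Pth.r Pth.z))))
def l9 : Tr := Tr.L (Pth.r (Pth.r (Pth.l Pth.z)))
def l10 : Tr := Tr.L (Pth.r (Pth.r (Pth.r (Pth.l Pth.z))))
def l11 : Tr := Tr.L (Pth.r (Pth.r (Pth.r (Pth.r Pth.z))))
end T0
def b1_0 : Bx := Bx.mk (St.mk (I.pos (nat_lit 158482432) (nat_lit 234815488)) (I.mix (nat_lit 1605632) (nat_lit 49872896)) (I.mix (nat_lit 2506752) (nat_lit 82100224)) (I.pos (nat_lit 113328128) (nat_lit 241795072)) (I.mix (nat_lit 105070592) (nat_lit 63963136)) (I.mix (nat_lit 63864832) (nat_lit 63193088)) (I.mix (nat_lit 88883200) (nat_lit 83017728)))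
  false (nat_lit 44709933)
def b1_1 : Bx := Bx.mk (St.mk (I.mix (nat_lit 12337152) (nat_lit 135282688)) (I.mix (nat_lit 7962624) (nat_lit 23822336)) (I.mix (nat_lit 13565952) (nat_lit 17170432)) (I.pos (nat_lit 15564800) (nat_lit 103088128)) (I.mix (nat_lit 31490048) (nat_lit 27672576)) (I.mix (nat_lit 23625728) (nat_lit 18972672)) (I.mix (nat_lit 18710528) (nat_lit 14008320)))
  false (nat_lit 0)
def b1_2 : Bx := Bx.mk (St.mk (I.pos (nat_lit 104169472) (nat_lit 146128896)) (I.mix (nat_lit 44761088) (nat_lit 8306688)) (I.mix (nat_lit 47366144) (nat_lit 2834432)) (I.pos (nat_lit 61652992) (nat_lit 115113984)) (I.mix (nat_lit 79446016) (nat_lit 29655040)) (I.mix (nat_lit 27951104) (nat_lit 60489728)) (I.mix (nat_lit 20496384) (nat_lit 50315264)))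
  false (nat_lit 0)
def b1_3 : Bx := Bx.mk (St.mk (I.mix (nat_lit 23658496) (nat_lit 91013120)) (I.mix (nat_lit 25116672) (nat_lit 3260416)) (I.mix (nat_lit 17891328) (nat_lit 917504)) (I.pos (nat_lit 16711680) (nat_lit 66846720)) (I.mix (nat_lit 33439744) (nat_lit 12369920)) (I.mix (nat_lit 12992512) (nat_lit 23724032)) (I.mix (nat_lit 6586368) (nat_lit 11780096)))
  false (nat_lit 0)
def b1_4 : Bx := Bx.mk (St.mk (I.pos (nat_lit 200032256) (nat_lit 284590080)) (I.mix (nat_lit 24428544) (nat_lit 33816576)) (I.mix (nat_lit 68763648) (nat_lit 53182464)) (I.pos (nat_lit 190005248) (nat_lit 347734016)) (I.mix (nat_lit 66355200) (nat_lit 42532864)) (I.mix (nat_lit 45793280) (nat_lit 36192256)) (I.mix (nat_lit 81330176) (nat_lit 65175552)))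
  false (nat_lit 34877600)
def b1_5 : Bx := Bx.mk (St.mk (I.pos (nat_lit 115900416) (nat_lit 177848320)) (I.neg (nat_lit 5849088) (nat_lit 46956544)) (I.neg (nat_lit 2342912) (nat_lit 47677440)) (I.pos (nat_lit 79478784) (nat_lit 156188672)) (I.mix (nat_lit 71270400) (nat_lit 45006848)) (I.mix (nat_lit 37191680) (nat_lit 50135040)) (I.mix (nat_lit 31244288) (nat_lit 49856512)))
  false (nat_lit 24454562)
def b1_6 : Bx := Bx.mk (St.mk (I.mix (nat_lit 11911168) (nat_lit 104562688)) (I.mix (nat_lit 25198592) (nat_lit 2818048)) (I.mix (nat_lit 17563648) (nat_lit 1507328)) (I.pos (nat_lit 16596992) (nat_lit 76578816)) (I.mix (nat_lit 31047680) (nat_lit 27721728)) (I.mix (nat_lit 18104320) (nat_lit 26329088)) (I.mix (nat_lit 10616832) (nat_lit 16400384)))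
  false (nat_lit 0)
def b1_7 : Bx := Bx.mk (St.mk (I.pos (nat_lit 167198720) (nat_lit 214122496)) (I.mix (nat_lit 10502144) (nat_lit 50675712)) (I.pos (nat_lit 2654208) (nat_lit 82378752)) (I.pos (nat_lit 132775936) (nat_lit 211222528)) (I.mix (nat_lit 132644864) (nat_lit 53706752)) (I.mix (nat_lit 110788608) (nat_lit 61767680)) (I.mix (nat_lit 121585664) (nat_lit 63471616)))
  false (nat_lit 0)
def b1_8 : Bx := Bx.mk (St.mk (I.mix (nat_lit 24068096) (nat_lit 123551744)) (I.mix (nat_lit 13058048) (nat_lit 28557312)) (I.mix (nat_lit 10862592) (nat_lit 21331968)) (I.pos (nat_lit 15777792) (nat_lit 91521024)) (I.mix (nat_lit 48185344) (nat_lit 24182784)) (I.mix (nat_lit 42385408) (nat_lit 21643264)) (I.mix (nat_lit 26951680) (nat_lit 13615104)))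
  false (nat_lit 0)
def b1_9 : Bx := Bx.mk (St.mk (I.pos (nat_lit 147832832) (nat_lit 210845696)) (I.mix (nat_lit 36552704) (nat_lit 12845056)) (I.mix (nat_lit 38699008) (nat_lit 28344320)) (I.pos (nat_lit 108216320) (nat_lit 198246400)) (I.mix (nat_lit 56655872) (nat_lit 49594368)) (I.mix (nat_lit 49070080) (nat_lit 43057152)) (I.mix (nat_lit 49790976) (nat_lit 44564480)))
  false (nat_lit 56419322)
def b1_10 : Bx := Bx.mk (St.mk (I.pos (nat_lit 168968192) (nat_lit 211304448)) (I.mix (nat_lit 15663104) (nat_lit 27410432)) (I.mix (nat_lit 5701632) (nat_lit 49987584)) (I.pos (nat_lit 134103040) (nat_lit 200310784)) (I.mix (nat_lit 115605504) (nat_lit 59260928)) (I.mix (nat_lit 112115712) (nat_lit 51183616)) (I.mix (nat_lit 124747776) (nat_lit 51003392)))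
  false (nat_lit 9389183)
def b1_11 : Bx := Bx.mk (St.mk (I.pos (nat_lit 187154432) (nat_lit 234520576)) (I.pos (nat_lit 8962048) (nat_lit 47284224)) (I.pos (nat_lit 12894208) (nat_lit 78528512)) (I.pos (nat_lit 181108736) (nat_lit 239583232)) (I.mix (nat_lit 85311488) (nat_lit 61964288)) (I.mix (nat_lit 65552384) (nat_lit 50053120)) (I.mix (nat_lit 103366656) (nat_lit 61800448)))
  false (nat_lit 34764397)
def t1 : BTr := (BTr.n (BTr.n (BTr.n (BTr.b b1_0) (BTr.n (BTr.b b1_1) (BTr.b b1_2))) (BTr.n (BTr.b b1_3) (BTr.n (BTr.b b1_4) (BTr.b b1_5)))) (BTr.n (BTr.n (BTr.b b1_6) (BTr.n (BTr.b b1_7) (BTr.b b1_8))) (BTr.n (BTr.b b1_9) (BTr.n (BTr.b b1_10) (BTr.b b1_11)))))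
namespace T1
def l0 : Tr := Tr.L (Pth.l (Pth.l (Pth.l Pth.z)))
def l1 : Tr := Tr.L (Pth.l (Pth.l (Pth.r (Pth.l Pth.z))))
def l2 : Tr := Tr.L (Pth.l (Pth.l (Pth.r (Pth.r Pth.z))))
def l3 : Tr := Tr.L (Pth.l (Pth.r (Pth.l Pth.z)))
def l4 : Tr := Tr.L (Pth.l (Pth.r (Pth.r (Pth.l Pth.z))))
def l5 : Tr := Tr.L (Pth.l (Pth.r (Pth.r (Pth.r Pth.z))))
def l6 : Tr := Tr.L (Pth.r (Pth.l (Pth.l Pth.z)))
def l7 : Tr := Tr.L (Pth.r (Pth.l (Pth.r (Pth.l Pth.z))))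
def l8 : Tr := Tr.L (Pth.r (Pth.l (Pth.r (Pth.r Pth.z))))
def l9 : Tr := Tr.L (Pth.r (Pth.r (Pth.l Pth.z)))
def l10 : Tr := Tr.L (Pth.r (Pth.r (Pth.r (Pth.l Pth.z))))
def l11 : Tr := Tr.L (Pth.r (Pth.r (Pth.r (Pth.r Pth.z))))
end T1
def b2_0 : Bx := Bx.mk (St.mk (I.pos (nat_lit 153321472) (nat_lit 228409344)) (I.mix (nat_lit 1884160) (nat_lit 59490304)) (I.mix (nat_lit 2637824) (nat_lit 86409216)) (I.pos (nat_lit 184418304) (nat_lit 289964032)) (I.mix (nat_lit 114343936) (nat_lit 68583424)) (I.mix (nat_lit 62783488) (nat_lit 62259200)) (I.mix (nat_lit 87015424) (nat_lit 84164608)))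
  false (nat_lit 88737390)
def b2_1 : Bx := Bx.mk (St.mk (I.mix (nat_lit 28835840) (nat_lit 100532224)) (I.mix (nat_lit 8994816) (nat_lit 32915456)) (I.mix (nat_lit 19136512) (nat_lit 12500992)) (I.pos (nat_lit 85671936) (nat_lit 125911040)) (I.mix (nat_lit 33226752) (nat_lit 41844736)) (I.mix (nat_lit 32260096) (nat_lit 21905408)) (I.mix (nat_lit 20873216) (nat_lit 11862016)))
  false (nat_lit 0)
def b2_2 : Bx := Bx.mk (St.mk (I.pos (nat_lit 76234752) (nat_lit 122732544)) (I.mix (nat_lit 54591488) (nat_lit 10141696)) (I.neg (nat_lit 3112960) (nat_lit 52412416)) (I.pos (nat_lit 110297088) (nat_lit 146702336)) (I.mix (nat_lit 81821696) (nat_lit 29163520)) (I.mix (nat_lit 27181056) (nat_lit 68960256)) (I.mix (nat_lit 20135936) (nat_lit 46284800)))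
  false (nat_lit 0)
def b2_3 : Bx := Bx.mk (St.mk (I.mix (nat_lit 49774592) (nat_lit 27279360)) (I.mix (nat_lit 31031296) (nat_lit 7061504)) (I.mix (nat_lit 12910592) (nat_lit 2146304)) (I.pos (nat_lit 86245376) (nat_lit 98795520)) (I.mix (nat_lit 36274176) (nat_lit 21168128)) (I.mix (nat_lit 16908288) (nat_lit 27049984)) (I.mix (nat_lit 10174464) (nat_lit 5111808)))
  false (nat_lit 0)
def b2_4 : Bx := Bx.mk (St.mk (I.pos (nat_lit 93634560) (nat_lit 163381248)) (I.neg (nat_lit 9633792) (nat_lit 54394880)) (I.neg (nat_lit 3391488) (nat_lit 52379648)) (I.pos (nat_lit 127483904) (nat_lit 190201856)) (I.mix (nat_lit 73220096) (nat_lit 40140800)) (I.mix (nat_lit 32096256) (nat_lit 52953088)) (I.mix (nat_lit 26411008) (nat_lit 45973504)))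
  false (nat_lit 0)
def b2_5 : Bx := Bx.mk (St.mk (I.mix (nat_lit 23199744) (nat_lit 47726592)) (I.mix (nat_lit 31178752) (nat_lit 2768896)) (I.mix (nat_lit 14090240) (nat_lit 1032192)) (I.pos (nat_lit 85508096) (nat_lit 98910208)) (I.mix (nat_lit 28983296) (nat_lit 30277632)) (I.mix (nat_lit 18710528) (nat_lit 27000832)) (I.mix (nat_lit 7258112) (nat_lit 10092544)))
  false (nat_lit 0)
def b2_6 : Bx := Bx.mk (St.mk (I.pos (nat_lit 157941760) (nat_lit 207831040)) (I.mix (nat_lit 1916928) (nat_lit 57606144)) (I.pos (nat_lit 9404416) (nat_lit 83116032)) (I.pos (nat_lit 191594496) (nat_lit 257064960)) (I.mix (nat_lit 118652928) (nat_lit 40599552)) (I.mix (nat_lit 97468416) (nat_lit 52019200)) (I.mix (nat_lit 90275840) (nat_lit 47923200)))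
  false (nat_lit 53669695)
def b2_7 : Bx := Bx.mk (St.mk (I.mix (nat_lit 49233920) (nat_lit 74563584)) (I.mix (nat_lit 8912896) (nat_lit 32702464)) (I.mix (nat_lit 14401536) (nat_lit 11583488)) (I.pos (nat_lit 85311488) (nat_lit 112066560)) (I.mix (nat_lit 38797312) (nat_lit 28983296)) (I.mix (nat_lit 32899072) (nat_lit 18710528)) (I.mix (nat_lit 11976704) (nat_lit 10092544)))
  false (nat_lit 0)
def b2_8 : Bx := Bx.mk (St.mk (I.pos (nat_lit 196427776) (nat_lit 288702464)) (I.mix (nat_lit 25477120) (nat_lit 41140224)) (I.mix (nat_lit 87064576) (nat_lit 51462144)) (I.pos (nat_lit 250216448) (nat_lit 401801216)) (I.mix (nat_lit 66387968) (nat_lit 62636032)) (I.mix (nat_lit 59195392) (nat_lit 39223296)) (I.mix (nat_lit 102088704) (nat_lit 69206016)))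
  false (nat_lit 75437164)
def b2_9 : Bx := Bx.mk (St.mk (I.pos (nat_lit 137527296) (nat_lit 198295552)) (I.mix (nat_lit 34701312) (nat_lit 15712256)) (I.mix (nat_lit 33439744) (nat_lit 30769152)) (I.pos (nat_lit 164708352) (nat_lit 234553344)) (I.mix (nat_lit 56950784) (nat_lit 49315840)) (I.mix (nat_lit 45203456) (nat_lit 44105728)) (I.mix (nat_lit 41975808) (nat_lit 41828352)))
  false (nat_lit 0)
def b2_10 : Bx := Bx.mk (St.mk (I.pos (nat_lit 156598272) (nat_lit 201474048)) (I.mix (nat_lit 8601600) (nat_lit 33734656)) (I.mix (nat_lit 98304) (nat_lit 55263232)) (I.pos (nat_lit 191414272) (nat_lit 241434624)) (I.mix (nat_lit 115834880) (nat_lit 61145088)) (I.mix (nat_lit 110624768) (nat_lit 51068928)) (I.mix (nat_lit 106446848) (nat_lit 44646400)))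
  false (nat_lit 11696111)
def b2_11 : Bx := Bx.mk (St.mk (I.pos (nat_lit 175325184) (nat_lit 229818368)) (I.pos (nat_lit 12812288) (nat_lit 59883520)) (I.pos (nat_lit 10715136) (nat_lit 86081536)) (I.pos (nat_lit 234586112) (nat_lit 288686080)) (I.mix (nat_lit 107692032) (nat_lit 86982656)) (I.mix (nat_lit 80642048) (nat_lit 65536000)) (I.mix (nat_lit 119996416) (nat_lit 83853312)))
  false (nat_lit 74243862)
def t2 : BTr := (BTr.n (BTr.n (BTr.n (BTr.b b2_0) (BTr.n (BTr.b b2_1) (BTr.b b2_2))) (BTr.n (BTr.b b2_3) (BTr.n (BTr.b b2_4) (BTr.b b2_5)))) (BTr.n (BTr.n (BTr.b b2_6) (BTr.n (BTr.b b2_7) (BTr.b b2_8))) (BTr.n (BTr.b b2_9) (BTr.n (BTr.b b2_10) (BTr.b b2_11)))))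
namespace T2
def l0 : Tr := Tr.L (Pth.l (Pth.l (Pth.l Pth.z)))
def l1 : Tr := Tr.L (Pth.l (Pth.l (Pth.r (Pth.l Pth.z))))
def l2 : Tr := Tr.L (Pth.l (Pth.l (Pth.r (Pth.r Pth.z))))
def l3 : Tr := Tr.L (Pth.l (Pth.r (Pth.l Pth.z)))
def l4 : Tr := Tr.L (Pth.l (Pth.r (Pth.r (Pth.l Pth.z))))
def l5 : Tr := Tr.L (Pth.l (Pth.r (Pth.r (Pth.r Pth.z))))
def l6 : Tr := Tr.L (Pth.r (Pth.l (Pth.l Pth.z)))
def l7 : Tr := Tr.L (Pth.r (Pth.l (Pth.r (Pth.l Pth.z))))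
def l8 : Tr := Tr.L (Pth.r (Pth.l (Pth.r (Pth.r Pth.z))))
def l9 : Tr := Tr.L (Pth.r (Pth.r (Pth.l Pth.z)))
def l10 : Tr := Tr.L (Pth.r (Pth.r (Pth.r (Pth.l Pth.z))))
def l11 : Tr := Tr.L (Pth.r (Pth.r (Pth.r (Pth.r Pth.z))))
end T2
def b3_0 : Bx := Bx.mk (St.mk (I.pos (nat_lit 158482432) (nat_lit 234930176)) (I.mix (nat_lit 1556480) (nat_lit 49348608)) (I.mix (nat_lit 2719744) (nat_lit 92536832)) (I.pos (nat_lit 112754688) (nat_lit 235061248)) (I.mix (nat_lit 118276096) (nat_lit 77004800)) (I.mix (nat_lit 76840960) (nat_lit 78200832)) (I.mix (nat_lit 107741184) (nat_lit 100401152)))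
  false (nat_lit 48530787)
def b3_1 : Bx := Bx.mk (St.mk (I.pos (nat_lit 112148480) (nat_lit 185286656)) (I.neg (nat_lit 5357568) (nat_lit 48431104)) (I.mix (nat_lit 43483136) (nat_lit 5619712)) (I.pos (nat_lit 80379904) (nat_lit 165543936)) (I.mix (nat_lit 69451776) (nat_lit 34029568)) (I.mix (nat_lit 33849344) (nat_lit 44498944)) (I.mix (nat_lit 29212672) (nat_lit 44417024)))
  false (nat_lit 0)
def b3_2 : Bx := Bx.mk (St.mk (I.mix (nat_lit 14237696) (nat_lit 106315776)) (I.mix (nat_lit 24395776) (nat_lit 2473984)) (I.mix (nat_lit 14139392) (nat_lit 5783552)) (I.pos (nat_lit 16400384) (nat_lit 77201408)) (I.mix (nat_lit 27115520) (nat_lit 22921216)) (I.mix (nat_lit 16023552) (nat_lit 19628032)) (I.mix (nat_lit 9125888) (nat_lit 12156928)))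
  false (nat_lit 0)
def b3_3 : Bx := Bx.mk (St.mk (I.pos (nat_lit 165347328) (nat_lit 212238336)) (I.mix (nat_lit 11108352) (nat_lit 49332224)) (I.pos (nat_lit 8290304) (nat_lit 89505792)) (I.pos (nat_lit 128466944) (nat_lit 205127680)) (I.mix (nat_lit 137232384) (nat_lit 53772288)) (I.mix (nat_lit 110313472) (nat_lit 61046784)) (I.mix (nat_lit 124502016) (nat_lit 53805056)))
  false (nat_lit 39034410)
def b3_4 : Bx := Bx.mk (St.mk (I.mix (nat_lit 24592384) (nat_lit 122437632)) (I.mix (nat_lit 12402688) (nat_lit 28573696)) (I.mix (nat_lit 6422528) (nat_lit 25788416)) (I.pos (nat_lit 15925248) (nat_lit 90128384)) (I.mix (nat_lit 46563328) (nat_lit 21348352)) (I.mix (nat_lit 36044800) (nat_lit 20398080)) (I.mix (nat_lit 23117824) (nat_lit 12156928)))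
  false (nat_lit 0)
def b3_5 : Bx := Bx.mk (St.mk (I.pos (nat_lit 151945216) (nat_lit 208699392)) (I.mix (nat_lit 33488896) (nat_lit 10354688)) (I.mix (nat_lit 26558464) (nat_lit 35078144)) (I.pos (nat_lit 112246784) (nat_lit 193511424)) (I.mix (nat_lit 52510720) (nat_lit 51101696)) (I.mix (nat_lit 44613632) (nat_lit 44171264)) (I.mix (nat_lit 45039616) (nat_lit 45940736)))
  false (nat_lit 26673603)
def b3_6 : Bx := Bx.mk (St.mk (I.pos (nat_lit 166346752) (nat_lit 208617472)) (I.mix (nat_lit 16629760) (nat_lit 24117248)) (I.pos (nat_lit 1163264) (nat_lit 54640640)) (I.pos (nat_lit 127336448) (nat_lit 194985984)) (I.mix (nat_lit 100007936) (nat_lit 58802176)) (I.mix (nat_lit 94240768) (nat_lit 45449216)) (I.mix (nat_lit 105955328) (nat_lit 46170112)))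
  false (nat_lit 27246465)
def b3_7 : Bx := Bx.mk (St.mk (I.pos (nat_lit 46235648) (nat_lit 132595712)) (I.mix (nat_lit 6406144) (nat_lit 22315008)) (I.mix (nat_lit 6848512) (nat_lit 20676608)) (I.pos (nat_lit 29114368) (nat_lit 101744640)) (I.mix (nat_lit 36044800) (nat_lit 34390016)) (I.mix (nat_lit 30916608) (nat_lit 23068672)) (I.mix (nat_lit 23986176) (nat_lit 17334272)))
  false (nat_lit 0)
def b3_8 : Bx := Bx.mk (St.mk (I.pos (nat_lit 104660992) (nat_lit 148570112)) (I.mix (nat_lit 47808512) (nat_lit 7815168)) (I.mix (nat_lit 44089344) (nat_lit 8667136)) (I.pos (nat_lit 63340544) (nat_lit 118177792)) (I.mix (nat_lit 78528512) (nat_lit 33980416)) (I.mix (nat_lit 30375936) (nat_lit 64929792)) (I.mix (nat_lit 23625728) (nat_lit 52330496)))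
  false (nat_lit 0)
def b3_9 : Bx := Bx.mk (St.mk (I.mix (nat_lit 18317312) (nat_lit 92241920)) (I.neg (nat_lit 671744) (nat_lit 25198592)) (I.mix (nat_lit 14630912) (nat_lit 2916352)) (I.pos (nat_lit 16760832) (nat_lit 67846144)) (I.mix (nat_lit 34127872) (nat_lit 15777792)) (I.mix (nat_lit 14778368) (nat_lit 27967488)) (I.mix (nat_lit 7864320) (nat_lit 13991936)))
  false (nat_lit 0)
def b3_10 : Bx := Bx.mk (St.mk (I.pos (nat_lit 199245824) (nat_lit 286523392)) (I.mix (nat_lit 20267008) (nat_lit 34045952)) (I.mix (nat_lit 41533440) (nat_lit 68354048)) (I.pos (nat_lit 185483264) (nat_lit 346062848)) (I.mix (nat_lit 63766528) (nat_lit 56672256)) (I.mix (nat_lit 52297728) (nat_lit 38404096)) (I.mix (nat_lit 90816512) (nat_lit 63176704)))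
  false (nat_lit 40413180)
def b3_11 : Bx := Bx.mk (St.mk (I.pos (nat_lit 179961856) (nat_lit 232816640)) (I.pos (nat_lit 9306112) (nat_lit 48857088)) (I.pos (nat_lit 23838720) (nat_lit 91832320)) (I.pos (nat_lit 170196992) (nat_lit 231849984)) (I.mix (nat_lit 104054784) (nat_lit 89079808)) (I.mix (nat_lit 85164032) (nat_lit 72466432)) (I.mix (nat_lit 127352832) (nat_lit 92995584)))
  false (nat_lit 58336735)
def t3 : BTr := (BTr.n (BTr.n (BTr.n (BTr.b b3_0) (BTr.n (BTr.b b3_1) (BTr.b b3_2))) (BTr.n (BTr.b b3_3) (BTr.n (BTr.b b3_4) (BTr.b b3_5)))) (BTr.n (BTr.n (BTr.b b3_6) (BTr.n (BTr.b b3_7) (BTr.b b3_8))) (BTr.n (BTr.b b3_9) (BTr.n (BTr.b b3_10) (BTr.b b3_11)))))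
namespace T3
def l0 : Tr := Tr.L (Pth.l (Pth.l (Pth.l Pth.z)))
def l1 : Tr := Tr.L (Pth.l (Pth.l (Pth.r (Pth.l Pth.z))))
def l2 : Tr := Tr.L (Pth.l (Pth.l (Pth.r (Pth.r Pth.z))))
def l3 : Tr := Tr.L (Pth.l (Pth.r (Pth.l Pth.z)))
def l4 : Tr := Tr.L (Pth.l (Pth.r (Pth.r (Pth.l Pth.z))))
def l5 : Tr := Tr.L (Pth.l (Pth.r (Pth.r (Pth.r Pth.z))))
def l6 : Tr := Tr.L (Pth.r (Pth.l (Pth.l Pth.z)))
def l7 : Tr := Tr.L (Pth.r (Pth.l (Pth.r (Pth.l Pth.z))))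
def l8 : Tr := Tr.L (Pth.r (Pth.l (Pth.r (Pth.r Pth.z))))
def l9 : Tr := Tr.L (Pth.r (Pth.r (Pth.l Pth.z)))
def l10 : Tr := Tr.L (Pth.r (Pth.r (Pth.r (Pth.l Pth.z))))
def l11 : Tr := Tr.L (Pth.r (Pth.r (Pth.r (Pth.r Pth.z))))
end T3
def b4_0 : Bx := Bx.mk (St.mk (I.pos (nat_lit 149651456) (nat_lit 227475456)) (I.mix (nat_lit 1835008) (nat_lit 57868288)) (I.mix (nat_lit 2850816) (nat_lit 94076928)) (I.pos (nat_lit 183468032) (nat_lit 283295744)) (I.mix (nat_lit 117620736) (nat_lit 67354624)) (I.mix (nat_lit 67764224) (nat_lit 66174976)) (I.mix (nat_lit 88113152) (nat_lit 84885504)))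
  false (nat_lit 110639325)
def b4_1 : Bx := Bx.mk (St.mk (I.pos (nat_lit 90275840) (nat_lit 167116800)) (I.neg (nat_lit 6881280) (nat_lit 55640064)) (I.mix (nat_lit 47415296) (nat_lit 6209536)) (I.pos (nat_lit 126533632) (nat_lit 193708032)) (I.mix (nat_lit 70074368) (nat_lit 43794432)) (I.mix (nat_lit 32014336) (nat_lit 49479680)) (I.mix (nat_lit 27033600) (nat_lit 43040768)))
  false (nat_lit 0)
def b4_2 : Bx := Bx.mk (St.mk (I.mix (nat_lit 28721152) (nat_lit 49692672)) (I.mix (nat_lit 31145984) (nat_lit 5767168)) (I.mix (nat_lit 9830400) (nat_lit 5668864)) (I.pos (nat_lit 86409216) (nat_lit 99254272)) (I.mix (nat_lit 26247168) (nat_lit 32702464)) (I.mix (nat_lit 17596416) (nat_lit 25706496)) (I.mix (nat_lit 6422528) (nat_lit 9535488)))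
  false (nat_lit 0)
def b4_3 : Bx := Bx.mk (St.mk (I.pos (nat_lit 156057600) (nat_lit 205438976)) (I.mix (nat_lit 2408448) (nat_lit 55820288)) (I.pos (nat_lit 17694720) (nat_lit 89735168)) (I.pos (nat_lit 186187776) (nat_lit 250019840)) (I.mix (nat_lit 121946112) (nat_lit 41533440)) (I.mix (nat_lit 101203968) (nat_lit 54263808)) (I.mix (nat_lit 96124928) (nat_lit 45350912)))
  false (nat_lit 66682217)
def b4_4 : Bx := Bx.mk (St.mk (I.mix (nat_lit 50987008) (nat_lit 72794112)) (I.mix (nat_lit 10436608) (nat_lit 32686080)) (I.mix (nat_lit 10272768) (nat_lit 16302080)) (I.pos (nat_lit 85753856) (nat_lit 111296512)) (I.mix (nat_lit 43352064) (nat_lit 26263552)) (I.mix (nat_lit 34422784) (nat_lit 17596416)) (I.mix (nat_lit 12599296) (nat_lit 9535488)))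
  false (nat_lit 0)
def b4_5 : Bx := Bx.mk (St.mk (I.mix (nat_lit 23166976) (nat_lit 98713600)) (I.mix (nat_lit 6832128) (nat_lit 32456704)) (I.mix (nat_lit 12271616) (nat_lit 17219584)) (I.pos (nat_lit 86425600) (nat_lit 124682240)) (I.mix (nat_lit 35553280) (nat_lit 37502976)) (I.mix (nat_lit 33046528) (nat_lit 22478848)) (I.mix (nat_lit 20627456) (nat_lit 13139968)))
  false (nat_lit 0)
def b4_6 : Bx := Bx.mk (St.mk (I.pos (nat_lit 77987840) (nat_lit 123322368)) (I.mix (nat_lit 58392576) (nat_lit 8110080)) (I.mix (nat_lit 49381376) (nat_lit 622592)) (I.pos (nat_lit 112214016) (nat_lit 149143552)) (I.mix (nat_lit 79560704) (nat_lit 31834112)) (I.mix (nat_lit 28950528) (nat_lit 64880640)) (I.mix (nat_lit 21643264) (nat_lit 42860544)))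
  false (nat_lit 0)
def b4_7 : Bx := Bx.mk (St.mk (I.mix (nat_lit 44318720) (nat_lit 22429696)) (I.mix (nat_lit 30523392) (nat_lit 1015808)) (I.mix (nat_lit 7897088) (nat_lit 6471680)) (I.pos (nat_lit 86605824) (nat_lit 97599488)) (I.mix (nat_lit 32227328) (nat_lit 23625728)) (I.mix (nat_lit 17760256) (nat_lit 26116096)) (I.mix (nat_lit 9797632) (nat_lit 5799936)))
  false (nat_lit 0)
def b4_8 : Bx := Bx.mk (St.mk (I.pos (nat_lit 136396800) (nat_lit 197623808)) (I.mix (nat_lit 36683776) (nat_lit 14843904)) (I.mix (nat_lit 27131904) (nat_lit 39665664)) (I.pos (nat_lit 163790848) (nat_lit 231587840)) (I.mix (nat_lit 56573952) (nat_lit 49905664)) (I.mix (nat_lit 46891008) (nat_lit 43909120)) (I.mix (nat_lit 43548672) (nat_lit 41615360)))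
  false (nat_lit 6595526)
def b4_9 : Bx := Bx.mk (St.mk (I.pos (nat_lit 196198400) (nat_lit 286212096)) (I.mix (nat_lit 20824064) (nat_lit 41271296)) (I.mix (nat_lit 61128704) (nat_lit 65765376)) (I.pos (nat_lit 247988224) (nat_lit 393330688)) (I.mix (nat_lit 67436544) (nat_lit 59949056)) (I.mix (nat_lit 56180736) (nat_lit 34455552)) (I.mix (nat_lit 96485376) (nat_lit 56131584)))
  false (nat_lit 88068046)
def b4_10 : Bx := Bx.mk (St.mk (I.pos (nat_lit 174030848) (nat_lit 227164160)) (I.pos (nat_lit 13058048) (nat_lit 56410112)) (I.pos (nat_lit 21397504) (nat_lit 91766784)) (I.pos (nat_lit 227901440) (nat_lit 280510464)) (I.mix (nat_lit 106840064) (nat_lit 82886656)) (I.mix (nat_lit 82280448) (nat_lit 63307776)) (I.mix (nat_lit 120504320) (nat_lit 76251136)))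
  false (nat_lit 54859432)
def b4_11 : Bx := Bx.mk (St.mk (I.pos (nat_lit 155418624) (nat_lit 199639040)) (I.mix (nat_lit 9879552) (nat_lit 33128448)) (I.pos (nat_lit 7700480) (nat_lit 64061440)) (I.pos (nat_lit 186286080) (nat_lit 236765184)) (I.mix (nat_lit 118996992) (nat_lit 56770560)) (I.mix (nat_lit 110706688) (nat_lit 46202880)) (I.mix (nat_lit 109002752) (nat_lit 42156032)))
  false (nat_lit 15157434)
def t4 : BTr := (BTr.n (BTr.n (BTr.n (BTr.b b4_0) (BTr.n (BTr.b b4_1) (BTr.b b4_2))) (BTr.n (BTr.b b4_3) (BTr.n (BTr.b b4_4) (BTr.b b4_5)))) (BTr.n (BTr.n (BTr.b b4_6) (BTr.n (BTr.b b4_7) (BTr.b b4_8))) (BTr.n (BTr.b b4_9) (BTr.n (BTr.b b4_10) (BTr.b b4_11)))))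
namespace T4
def l0 : Tr := Tr.L (Pth.l (Pth.l (Pth.l Pth.z)))
def l1 : Tr := Tr.L (Pth.l (Pth.l (Pth.r (Pth.l Pth.z))))
def l2 : Tr := Tr.L (Pth.l (Pth.l (Pth.r (Pth.r Pth.z))))
def l3 : Tr := Tr.L (Pth.l (Pth.r (Pth.l Pth.z)))
def l4 : Tr := Tr.L (Pth.l (Pth.r (Pth.r (Pth.l Pth.z))))
def l5 : Tr := Tr.L (Pth.l (Pth.r (Pth.r (Pth.r Pth.z))))
def l6 : Tr := Tr.L (Pth.r (Pth.l (Pth.l Pth.z)))
def l7 : Tr := Tr.L (Pth.r (Pth.l (Pth.r (Pth.l Pth.z))))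
def l8 : Tr := Tr.L (Pth.r (Pth.l (Pth.r (Pth.r Pth.z))))
def l9 : Tr := Tr.L (Pth.r (Pth.r (Pth.l Pth.z)))
def l10 : Tr := Tr.L (Pth.r (Pth.r (Pth.r (Pth.l Pth.z))))
def l11 : Tr := Tr.L (Pth.r (Pth.r (Pth.r (Pth.r Pth.z))))
end T4
def b5_0 : Bx := Bx.mk (St.mk (I.pos (nat_lit 151764992) (nat_lit 230998016)) (I.mix (nat_lit 1654784) (nat_lit 53018624)) (I.mix (nat_lit 2883584) (nat_lit 98697216)) (I.pos (nat_lit 139329536) (nat_lit 253706240)) (I.mix (nat_lit 126222336) (nat_lit 77824000)) (I.mix (nat_lit 80789504) (nat_lit 80330752)) (I.mix (nat_lit 106676224) (nat_lit 99008512)))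
  false (nat_lit 57971710)
def b5_1 : Bx := Bx.mk (St.mk (I.pos (nat_lit 102563840) (nat_lit 175767552)) (I.neg (nat_lit 6537216) (nat_lit 52690944)) (I.mix (nat_lit 43384832) (nat_lit 9928704)) (I.pos (nat_lit 99139584) (nat_lit 178634752)) (I.mix (nat_lit 72138752) (nat_lit 36421632)) (I.mix (nat_lit 32948224) (nat_lit 45383680)) (I.mix (nat_lit 30605312) (nat_lit 42631168)))
  false (nat_lit 0)
def b5_2 : Bx := Bx.mk (St.mk (I.mix (nat_lit 21233664) (nat_lit 85639168)) (I.mix (nat_lit 28950528) (nat_lit 3129344)) (I.mix (nat_lit 12402688) (nat_lit 7733248)) (I.pos (nat_lit 42598400) (nat_lit 90324992)) (I.mix (nat_lit 30113792) (nat_lit 26214400)) (I.mix (nat_lit 18792448) (nat_lit 20955136)) (I.mix (nat_lit 9502720) (nat_lit 11042816)))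
  false (nat_lit 0)
def b5_3 : Bx := Bx.mk (St.mk (I.pos (nat_lit 158711808) (nat_lit 210632704)) (I.mix (nat_lit 8454144) (nat_lit 56229888)) (I.pos (nat_lit 15237120) (nat_lit 100024320)) (I.pos (nat_lit 146833408) (nat_lit 227966976)) (I.mix (nat_lit 150421504) (nat_lit 58376192)) (I.mix (nat_lit 116129792) (nat_lit 71057408)) (I.mix (nat_lit 123715584) (nat_lit 59621376)))
  false (nat_lit 54575487)
def b5_4 : Bx := Bx.mk (St.mk (I.mix (nat_lit 39026688) (nat_lit 105676800)) (I.mix (nat_lit 12156928) (nat_lit 32849920)) (I.mix (nat_lit 3817472) (nat_lit 27590656)) (I.pos (nat_lit 42156032) (nat_lit 104464384)) (I.mix (nat_lit 50331648) (nat_lit 22773760)) (I.mix (nat_lit 37715968) (nat_lit 23379968)) (I.mix (nat_lit 20774912) (nat_lit 13926400)))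
  false (nat_lit 0)
def b5_5 : Bx := Bx.mk (St.mk (I.pos (nat_lit 145129472) (nat_lit 204046336)) (I.mix (nat_lit 37126144) (nat_lit 10911744)) (I.mix (nat_lit 25165824) (nat_lit 40026112)) (I.pos (nat_lit 130121728) (nat_lit 211959808)) (I.mix (nat_lit 54509568) (nat_lit 49790976)) (I.mix (nat_lit 44056576) (nat_lit 43630592)) (I.mix (nat_lit 42172416) (nat_lit 43368448)))
  false (nat_lit 29791301)
def b5_6 : Bx := Bx.mk (St.mk (I.mix (nat_lit 18612224) (nat_lit 120324096)) (I.mix (nat_lit 5832704) (nat_lit 26607616)) (I.mix (nat_lit 5767168) (nat_lit 21872640)) (I.pos (nat_lit 41746432) (nat_lit 115802112)) (I.mix (nat_lit 40730624) (nat_lit 35438592)) (I.mix (nat_lit 32686080) (nat_lit 25755648)) (I.mix (nat_lit 22953984) (nat_lit 17285120)))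
  false (nat_lit 0)
def b5_7 : Bx := Bx.mk (St.mk (I.pos (nat_lit 94896128) (nat_lit 140525568)) (I.mix (nat_lit 52264960) (nat_lit 7323648)) (I.mix (nat_lit 43450368) (nat_lit 7864320)) (I.pos (nat_lit 79822848) (nat_lit 136380416)) (I.mix (nat_lit 80035840) (nat_lit 32538624)) (I.mix (nat_lit 33144832) (nat_lit 64421888)) (I.mix (nat_lit 24084480) (nat_lit 46071808)))
  false (nat_lit 0)
def b5_8 : Bx := Bx.mk (St.mk (I.mix (nat_lit 27541504) (nat_lit 71122944)) (I.mix (nat_lit 29573120) (nat_lit 3702784)) (I.mix (nat_lit 12025856) (nat_lit 6619136)) (I.pos (nat_lit 42926080) (nat_lit 83017728)) (I.mix (nat_lit 35028992) (nat_lit 17940480)) (I.mix (nat_lit 17580032) (nat_lit 27721728)) (I.mix (nat_lit 8060928) (nat_lit 10403840)))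
  false (nat_lit 0)
def b5_9 : Bx := Bx.mk (St.mk (I.pos (nat_lit 159236096) (nat_lit 204079104)) (I.mix (nat_lit 14794752) (nat_lit 28360704)) (I.pos (nat_lit 6832128) (nat_lit 63733760)) (I.pos (nat_lit 145424384) (nat_lit 214351872)) (I.mix (nat_lit 106840064) (nat_lit 60227584)) (I.mix (nat_lit 99041280) (nat_lit 46825472)) (I.mix (nat_lit 105791488) (nat_lit 44941312)))
  false (nat_lit 44462292)
def b5_10 : Bx := Bx.mk (St.mk (I.pos (nat_lit 199065600) (nat_lit 284917760)) (I.mix (nat_lit 17399808) (nat_lit 37732352)) (I.mix (nat_lit 34947072) (nat_lit 75464704)) (I.pos (nat_lit 209616896) (nat_lit 366182400)) (I.mix (nat_lit 66977792) (nat_lit 55836672)) (I.mix (nat_lit 49348608) (nat_lit 35684352)) (I.mix (nat_lit 84541440) (nat_lit 58163200)))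
  false (nat_lit 35247823)
def b5_11 : Bx := Bx.mk (St.mk (I.pos (nat_lit 175636480) (nat_lit 228425728)) (I.pos (nat_lit 15646720) (nat_lit 50987008)) (I.pos (nat_lit 37535744) (nat_lit 95617024)) (I.pos (nat_lit 188858368) (nat_lit 249970688)) (I.mix (nat_lit 104710144) (nat_lit 85770240)) (I.mix (nat_lit 84901888) (nat_lit 66797568)) (I.mix (nat_lit 124567552) (nat_lit 81068032)))
  false (nat_lit 54353584)
def t5 : BTr := (BTr.n (BTr.n (BTr.n (BTr.b b5_0) (BTr.n (BTr.b b5_1) (BTr.b b5_2))) (BTr.n (BTr.b b5_3) (BTr.n (BTr.b b5_4) (BTr.b b5_5)))) (BTr.n (BTr.n (BTr.b b5_6) (BTr.n (BTr.b b5_7) (BTr.b b5_8))) (BTr.n (BTr.b b5_9) (BTr.n (BTr.b b5_10) (BTr.b b5_11)))))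
namespace T5
def l0 : Tr := Tr.L (Pth.l (Pth.l (Pth.l Pth.z)))
def l1 : Tr := Tr.L (Pth.l (Pth.l (Pth.r (Pth.l Pth.z))))
def l2 : Tr := Tr.L (Pth.l (Pth.l (Pth.r (Pth.r Pth.z))))
def l3 : Tr := Tr.L (Pth.l (Pth.r (Pth.l Pth.z)))
def l4 : Tr := Tr.L (Pth.l (Pth.r (Pth.r (Pth.l Pth.z))))
def l5 : Tr := Tr.L (Pth.l (Pth.r (Pth.r (Pth.r Pth.z))))
def l6 : Tr := Tr.L (Pth.r (Pth.l (Pth.l Pth.z)))
def l7 : Tr := Tr.L (Pth.r (Pth.l (Pth.r (Pth.l Pth.z))))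
def l8 : Tr := Tr.L (Pth.r (Pth.l (Pth.r (Pth.r Pth.z))))
def l9 : Tr := Tr.L (Pth.r (Pth.r (Pth.l Pth.z)))
def l10 : Tr := Tr.L (Pth.r (Pth.r (Pth.r (Pth.l Pth.z))))
def l11 : Tr := Tr.L (Pth.r (Pth.r (Pth.r (Pth.r Pth.z))))
end T5
theorem bx0_0 : BoxOK sI cl6 cl7 cl9 t2 t4 b0_0 :=
  box_mk (TrL.c (I.pos (nat_lit 0) (nat_lit 0)) (xa (xb (xa T2.l11 T2.l0) (xa (xb T2.l0 T2.l0) (xb T2.l0 T2.l0))) (xb (xa T2.l0 T2.l0) (xa (xb T2.l0 T2.l0) (xb T2.l0 T2.l0))))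
  (TrL.c (I.pos (nat_lit 0) (nat_lit 0)) (xa (xb T4.l1 T4.l1) (xb T4.l1 T4.l1))
  (TrL.c (I.pos (nat_lit 0) (nat_lit 89480386)) (xR (xR T2.l1 T2.l1) (xR T2.l1 (xR T2.l1 (xa T2.l1 T2.l1))))
  (TrL.c (I.pos (nat_lit 0) (nat_lit 41530880)) (xR T4.l2 (xR T4.l2 T4.l2))
  (TrL.c (I.pos (nat_lit 0) (nat_lit 0)) (xa T4.l3 (xb T4.l3 T4.l3))
  (TrL.c (I.pos (nat_lit 0) (nat_lit 0)) T2.l2
  (TrL.c (I.mix (nat_lit 41527258) (nat_lit 41530880)) (xR (xR (xR T4.l4 T4.l4) T4.l4) (xR T4.l4 (xR T4.l4 T4.l4)))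
  (TrL.c (I.mix (nat_lit 41527258) (nat_lit 4274)) (xR (xR T2.l3 T2.l3) T2.l3)
  TrL.n)))))))) (by decide +kernel)
theorem bx0_1 : BoxOK sI cl6 cl7 cl9 t2 t4 b0_1 :=
  box_mk (TrL.c (I.pos (nat_lit 0) (nat_lit 0)) (xa (xa T2.l8 T2.l8) (xa T2.l8 (xb T2.l8 (xa T2.l8 T2.l8))))
  (TrL.c (I.pos (nat_lit 0) (nat_lit 0)) T4.l1
  (TrL.c (I.pos (nat_lit 0) (nat_lit 89480386)) (xR T2.l7 T2.l1)
  (TrL.c (I.pos (nat_lit 0) (nat_lit 41530880)) (xR T4.l2 T4.l2)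
  (TrL.c (I.pos (nat_lit 0) (nat_lit 0)) T4.l8
  (TrL.c (I.pos (nat_lit 0) (nat_lit 0)) T2.l2
  (TrL.c (I.mix (nat_lit 41527258) (nat_lit 41530880)) T4.l4
  (TrL.c (I.mix (nat_lit 41527258) (nat_lit 4274)) (xR T2.l3 T2.l3)
  TrL.n)))))))) (by decide +kernel)
theorem bx0_2 : BoxOK sI cl6 cl7 cl9 t2 t4 b0_2 :=
  box_mk (TrL.c (I.pos (nat_lit 0) (nat_lit 0)) (xb (xa T2.l8 T2.l8) T2.l8)
  (TrL.c (I.pos (nat_lit 0) (nat_lit 0)) T4.l1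
  (TrL.c (I.pos (nat_lit 0) (nat_lit 89480386)) (xR (xR T2.l1 T2.l1) T2.l1)
  (TrL.c (I.pos (nat_lit 0) (nat_lit 41530880)) (xR T4.l2 T4.l2)
  (TrL.c (I.pos (nat_lit 0) (nat_lit 0)) T4.l8
  (TrL.c (I.pos (nat_lit 0) (nat_lit 0)) T2.l2
  (TrL.c (I.mix (nat_lit 41527258) (nat_lit 41530880)) (xR (xR T4.l4 T4.l4) T4.l4)
  (TrL.c (I.mix (nat_lit 41527258) (nat_lit 4274)) (xR T2.l3 T2.l3)
  TrL.n)))))))) (by decide +kernel)
theorem bx0_3 : BoxOK sI cl6 cl7 cl9 t2 t4 b0_3 :=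
  box_mk (TrL.c (I.pos (nat_lit 0) (nat_lit 0)) (xa (xa (xb T2.l8 T2.l8) T2.l8) T2.l8)
  (TrL.c (I.pos (nat_lit 0) (nat_lit 0)) T4.l1
  (TrL.c (I.pos (nat_lit 0) (nat_lit 89480386)) (xR T2.l1 T2.l1)
  (TrL.c (I.pos (nat_lit 0) (nat_lit 41530880)) T4.l4
  (TrL.c (I.pos (nat_lit 0) (nat_lit 0)) (xa T4.l8 T4.l8)
  (TrL.c (I.pos (nat_lit 0) (nat_lit 0)) T2.l2
  (TrL.c (I.mix (nat_lit 41527258) (nat_lit 41530880)) T4.l4
  (TrL.c (I.mix (nat_lit 41527258) (nat_lit 4274)) T2.l3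
  TrL.n)))))))) (by decide +kernel)
theorem bx0_4 : BoxOK sI cl6 cl7 cl9 t2 t4 b0_4 :=
  box_mk (TrL.c (I.pos (nat_lit 0) (nat_lit 0)) (xa (xb (xa T2.l0 T2.l0) (xa T2.l0 T2.l0)) (xb (xa T2.l0 (xb T2.l0 T2.l0)) (xa (xb T2.l0 T2.l0) (xb T2.l0 T2.l0))))
  (TrL.c (I.pos (nat_lit 0) (nat_lit 0)) (xa (xb T4.l1 T4.l1) T4.l6)
  (TrL.c (I.pos (nat_lit 0) (nat_lit 89480386)) (xR (xR T2.l1 (xR T2.l1 T2.l1)) (xR (xR T2.l1 T2.l1) (xR (xa T2.l1 T2.l1) (xa T2.l1 T2.l1))))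
  (TrL.c (I.pos (nat_lit 0) (nat_lit 41530880)) (xR T4.l2 (xR T4.l2 T4.l2))
  (TrL.c (I.pos (nat_lit 0) (nat_lit 0)) (xb (xa (xa T4.l3 T4.l3) (xa (xb T4.l3 T4.l3) (xb T4.l3 T4.l3))) (xa T4.l3 (xa T4.l3 (xb T4.l3 T4.l3))))
  (TrL.c (I.pos (nat_lit 0) (nat_lit 0)) (xb (xa T2.l2 T2.l2) T2.l2)
  (TrL.c (I.mix (nat_lit 41527258) (nat_lit 41530880)) (xR (xR (xR T4.l4 T4.l4) T4.l4) (xR T4.l4 (xR T4.l4 T4.l4)))
  (TrL.c (I.mix (nat_lit 41527258) (nat_lit 4274)) (xR (xR T2.l3 T2.l3) T2.l3)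
  TrL.n)))))))) (by decide +kernel)
theorem bx0_5 : BoxOK sI cl6 cl7 cl9 t2 t4 b0_5 :=
  box_mk (TrL.c (I.pos (nat_lit 0) (nat_lit 0)) (xa (xb (xa T2.l8 T2.l8) T2.l8) (xb T2.l0 (xa T2.l8 T2.l0)))
  (TrL.c (I.pos (nat_lit 0) (nat_lit 0)) T4.l1
  (TrL.c (I.pos (nat_lit 0) (nat_lit 89480386)) (xR (xR T2.l1 T2.l1) T2.l1)
  (TrL.c (I.pos (nat_lit 0) (nat_lit 41530880)) (xR T4.l2 (xR T4.l2 T4.l2))
  (TrL.c (I.pos (nat_lit 0) (nat_lit 0)) (xa T4.l8 T4.l8)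
  (TrL.c (I.pos (nat_lit 0) (nat_lit 0)) T2.l2
  (TrL.c (I.mix (nat_lit 41527258) (nat_lit 41530880)) (xR (xR T4.l4 T4.l4) T4.l4)
  (TrL.c (I.mix (nat_lit 41527258) (nat_lit 4274)) (xR (xR T2.l3 T2.l3) T2.l3)
  TrL.n)))))))) (by decide +kernel)
theorem bx0_6 : BoxOK sI cl6 cl7 cl9 t2 t4 b0_6 :=
  box_mk (TrL.c (I.pos (nat_lit 0) (nat_lit 0)) (xa (xa T2.l8 T2.l8) T2.l8)
  (TrL.c (I.pos (nat_lit 0) (nat_lit 0)) T4.l1
  (TrL.c (I.pos (nat_lit 0) (nat_lit 89480386)) (xR T2.l1 T2.l1)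
  (TrL.c (I.pos (nat_lit 0) (nat_lit 41530880)) T4.l2
  (TrL.c (I.pos (nat_lit 0) (nat_lit 0)) T4.l8
  (TrL.c (I.pos (nat_lit 0) (nat_lit 0)) T2.l2
  (TrL.c (I.mix (nat_lit 41527258) (nat_lit 41530880)) T4.l4
  (TrL.c (I.mix (nat_lit 41527258) (nat_lit 4274)) T2.l7
  TrL.n)))))))) (by decide +kernel)
theorem bx0_7 : BoxOK sI cl6 cl7 cl9 t2 t4 b0_7 :=
  box_mk (TrL.c (I.pos (nat_lit 0) (nat_lit 0)) (xb (xa (xb T2.l11 T2.l11) (xb (xa T2.l11 T2.l11) T2.l11)) (xa (xb (xa T2.l11 T2.l11) (xa T2.l11 T2.l11)) (xb (xa T2.l11 T2.l11) (xa T2.l11 T2.l11))))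
  (TrL.c (I.pos (nat_lit 0) (nat_lit 0)) (xb T4.l1 (xa T4.l1 T4.l1))
  (TrL.c (I.pos (nat_lit 0) (nat_lit 89480386)) (xR (xR T2.l1 T2.l1) (xR T2.l1 (xR T2.l1 T2.l1)))
  (TrL.c (I.pos (nat_lit 0) (nat_lit 41530880)) (xR (xR T4.l2 T4.l2) (xR T4.l2 T4.l2))
  (TrL.c (I.pos (nat_lit 0) (nat_lit 0)) (xb (xa T4.l11 T4.l11) (xa T4.l11 T4.l11))
  (TrL.c (I.pos (nat_lit 0) (nat_lit 0)) T2.l2
  (TrL.c (I.mix (nat_lit 41527258) (nat_lit 41530880)) (xR (xR (xR T4.l4 T4.l4) T4.l4) (xR T4.l4 (xR T4.l4 T4.l4)))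
  (TrL.c (I.mix (nat_lit 41527258) (nat_lit 4274)) (xR (xR T2.l3 T2.l3) (xR T2.l3 T2.l3))
  TrL.n)))))))) (by decide +kernel)
theorem bx0_8 : BoxOK sI cl6 cl7 cl9 t2 t4 b0_8 :=
  box_mk (TrL.c (I.pos (nat_lit 0) (nat_lit 0)) (xa (xa (xb T2.l8 T2.l8) T2.l8) (xa T2.l8 (xb T2.l8 (xa T2.l8 T2.l8))))
  (TrL.c (I.pos (nat_lit 0) (nat_lit 0)) (xa T4.l1 T4.l1)
  (TrL.c (I.pos (nat_lit 0) (nat_lit 89480386)) (xR T2.l7 (xR T2.l1 T2.l1))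
  (TrL.c (I.pos (nat_lit 0) (nat_lit 41530880)) (xR T4.l2 (xa T4.l2 T4.l2))
  (TrL.c (I.pos (nat_lit 0) (nat_lit 0)) (xa T4.l8 T4.l8)
  (TrL.c (I.pos (nat_lit 0) (nat_lit 0)) T2.l2
  (TrL.c (I.mix (nat_lit 41527258) (nat_lit 41530880)) T4.l4
  (TrL.c (I.mix (nat_lit 41527258) (nat_lit 4274)) (xR (xa T2.l3 T2.l3) T2.l3)
  TrL.n)))))))) (by decide +kernel)
theorem bx0_9 : BoxOK sI cl6 cl7 cl9 t2 t4 b0_9 :=
  box_mk (TrL.c (I.pos (nat_lit 0) (nat_lit 0)) (xa (xb T2.l0 (xa T2.l0 T2.l0)) (xb T2.l0 (xa T2.l0 T2.l0)))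
  (TrL.c (I.pos (nat_lit 0) (nat_lit 0)) (xa T4.l1 T4.l1)
  (TrL.c (I.pos (nat_lit 0) (nat_lit 89480386)) (xR (xR T2.l1 T2.l1) (xR T2.l1 T2.l1))
  (TrL.c (I.pos (nat_lit 0) (nat_lit 41530880)) (xR T4.l2 T4.l2)
  (TrL.c (I.pos (nat_lit 0) (nat_lit 0)) (xa T4.l3 T4.l3)
  (TrL.c (I.pos (nat_lit 0) (nat_lit 0)) T2.l2
  (TrL.c (I.mix (nat_lit 41527258) (nat_lit 41530880)) (xR (xR T4.l4 T4.l4) (xR T4.l4 T4.l4))
  (TrL.c (I.mix (nat_lit 41527258) (nat_lit 4274)) (xR T2.l3 T2.l3)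
  TrL.n)))))))) (by decide +kernel)
theorem bx0_10 : BoxOK sI cl6 cl7 cl9 t2 t4 b0_10 :=
  box_mk (TrL.c (I.pos (nat_lit 0) (nat_lit 0)) (xa (xb T2.l0 (xa T2.l11 T2.l11)) T2.l0)
  (TrL.c (I.pos (nat_lit 0) (nat_lit 0)) T4.l1
  (TrL.c (I.pos (nat_lit 0) (nat_lit 89480386)) (xR (xR T2.l1 T2.l7) (xR T2.l1 T2.l1))
  (TrL.c (I.pos (nat_lit 0) (nat_lit 41530880)) (xR T4.l2 (xR T4.l2 T4.l2))
  (TrL.c (I.pos (nat_lit 0) (nat_lit 0)) (xa T4.l11 (xb T4.l11 T4.l11))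
  (TrL.c (I.pos (nat_lit 0) (nat_lit 0)) T2.l2
  (TrL.c (I.mix (nat_lit 41527258) (nat_lit 41530880)) (xR (xR T4.l4 T4.l4) T4.l4)
  (TrL.c (I.mix (nat_lit 41527258) (nat_lit 4274)) (xR (xR T2.l3 T2.l3) T2.l3)
  TrL.n)))))))) (by decide +kernel)
theorem bx0_11 : BoxOK sI cl6 cl7 cl9 t2 t4 b0_11 :=
  box_mk (TrL.c (I.pos (nat_lit 0) (nat_lit 0)) (xb T2.l11 (xa T2.l11 T2.l11))
  (TrL.c (I.pos (nat_lit 0) (nat_lit 0)) T4.l1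
  (TrL.c (I.pos (nat_lit 0) (nat_lit 89480386)) (xR (xR T2.l1 T2.l1) (xR T2.l1 T2.l1))
  (TrL.c (I.pos (nat_lit 0) (nat_lit 41530880)) (xR T4.l2 T4.l2)
  (TrL.c (I.pos (nat_lit 0) (nat_lit 0)) (xb T4.l11 T4.l11)
  (TrL.c (I.pos (nat_lit 0) (nat_lit 0)) T2.l2
  (TrL.c (I.mix (nat_lit 41527258) (nat_lit 41530880)) (xR (xR T4.l4 T4.l4) T4.l4)
  (TrL.c (I.mix (nat_lit 41527258) (nat_lit 4274)) (xR (xR T2.l3 T2.l3) T2.l3)
  TrL.n)))))))) (by decide +kernel)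
theorem sv0 : StarV sI cl6 cl7 cl9 t2 t4 t0 :=
  (bt_n (bt_n (bt_n (bt_b bx0_0) (bt_n (bt_b bx0_1) (bt_b bx0_2))) (bt_n (bt_b bx0_3) (bt_n (bt_b bx0_4) (bt_b bx0_5)))) (bt_n (bt_n (bt_b bx0_6) (bt_n (bt_b bx0_7) (bt_b bx0_8))) (bt_n (bt_b bx0_9) (bt_n (bt_b bx0_10) (bt_b bx0_11)))))
def S0 : StarD := StarD.mk cl6 cl7 cl9 2 4 t0
theorem bx1_0 : BoxOK sI cl6 cl9 cl7 t4 t2 b1_0 :=
  box_mk (TrL.c (I.pos (nat_lit 0) (nat_lit 0)) (xa (xb (xa T4.l10 T4.l0) (xa (xb T4.l0 T4.l0) (xb T4.l0 T4.l0))) (xb (xa T4.l0 T4.l0) (xa (xb T4.l0 T4.l0) (xb T4.l0 T4.l0))))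
  (TrL.c (I.pos (nat_lit 0) (nat_lit 0)) (xa (xb T2.l4 T2.l4) (xb T2.l4 T2.l4))
  (TrL.c (I.pos (nat_lit 0) (nat_lit 89480386)) (xR (xR T4.l5 (xR T4.l5 T4.l5)) (xR T4.l5 (xR T4.l5 (xa T4.l5 T4.l5))))
  (TrL.c (I.pos (nat_lit 0) (nat_lit 41530880)) (xR T2.l5 (xR T2.l5 T2.l5))
  (TrL.c (I.pos (nat_lit 0) (nat_lit 0)) (xa T2.l6 (xb T2.l6 T2.l6))
  (TrL.c (I.pos (nat_lit 0) (nat_lit 0)) T4.l6
  (TrL.c (I.mix (nat_lit 41527258) (nat_lit 41530880)) (xR (xR (xR T2.l7 T2.l7) T2.l7) (xR T2.l7 (xR T2.l7 T2.l7)))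
  (TrL.c (I.mix (nat_lit 41527258) (nat_lit 4274)) (xR (xR T4.l7 T4.l7) T4.l7)
  TrL.n)))))))) (by decide +kernel)
theorem bx1_1 : BoxOK sI cl6 cl9 cl7 t4 t2 b1_1 :=
  box_mk (TrL.c (I.pos (nat_lit 0) (nat_lit 0)) (xa (xa T4.l9 T4.l9) (xa T4.l9 (xa T4.l9 T4.l9)))
  (TrL.c (I.pos (nat_lit 0) (nat_lit 0)) (xa T2.l4 T2.l4)
  (TrL.c (I.pos (nat_lit 0) (nat_lit 89480386)) (xR (xR T4.l5 T4.l5) T4.l5)
  (TrL.c (I.pos (nat_lit 0) (nat_lit 41530880)) (xR T2.l5 T2.l5)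
  (TrL.c (I.pos (nat_lit 0) (nat_lit 0)) (xa T2.l9 T2.l9)
  (TrL.c (I.pos (nat_lit 0) (nat_lit 0)) T4.l6
  (TrL.c (I.mix (nat_lit 41527258) (nat_lit 41530880)) T2.l7
  (TrL.c (I.mix (nat_lit 41527258) (nat_lit 4274)) (xa T4.l4 (xR T4.l7 T4.l7))
  TrL.n)))))))) (by decide +kernel)
theorem bx1_2 : BoxOK sI cl6 cl9 cl7 t4 t2 b1_2 :=
  box_mk (TrL.c (I.pos (nat_lit 0) (nat_lit 0)) (xb (xa T4.l9 T4.l9) (xa T4.l9 T4.l9))
  (TrL.c (I.pos (nat_lit 0) (nat_lit 0)) T2.l4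
  (TrL.c (I.pos (nat_lit 0) (nat_lit 89480386)) (xR (xR T4.l5 T4.l5) T4.l5)
  (TrL.c (I.pos (nat_lit 0) (nat_lit 41530880)) (xR T2.l5 T2.l5)
  (TrL.c (I.pos (nat_lit 0) (nat_lit 0)) T2.l9
  (TrL.c (I.pos (nat_lit 0) (nat_lit 0)) T4.l6
  (TrL.c (I.mix (nat_lit 41527258) (nat_lit 41530880)) (xR (xR T2.l7 T2.l7) T2.l7)
  (TrL.c (I.mix (nat_lit 41527258) (nat_lit 4274)) (xR T4.l7 T4.l7)
  TrL.n)))))))) (by decide +kernel)
theorem bx1_3 : BoxOK sI cl6 cl9 cl7 t4 t2 b1_3 :=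
  box_mk (TrL.c (I.pos (nat_lit 0) (nat_lit 0)) (xa (xa T4.l9 T4.l9) T4.l9)
  (TrL.c (I.pos (nat_lit 0) (nat_lit 0)) (xa T2.l4 T2.l4)
  (TrL.c (I.pos (nat_lit 0) (nat_lit 89480386)) (xR T4.l4 T4.l5)
  (TrL.c (I.pos (nat_lit 0) (nat_lit 41530880)) (xR T2.l3 (xa T2.l1 T2.l5))
  (TrL.c (I.pos (nat_lit 0) (nat_lit 0)) (xa T2.l9 T2.l9)
  (TrL.c (I.pos (nat_lit 0) (nat_lit 0)) T4.l6
  (TrL.c (I.mix (nat_lit 41527258) (nat_lit 41530880)) T2.l7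
  (TrL.c (I.mix (nat_lit 41527258) (nat_lit 4274)) T4.l4
  TrL.n)))))))) (by decide +kernel)
theorem bx1_4 : BoxOK sI cl6 cl9 cl7 t4 t2 b1_4 :=
  box_mk (TrL.c (I.pos (nat_lit 0) (nat_lit 0)) (xa (xb (xa T4.l0 T4.l0) (xa T4.l0 T4.l0)) (xb (xa T4.l0 (xb T4.l0 T4.l0)) (xa T4.l0 (xb T4.l0 T4.l0))))
  (TrL.c (I.pos (nat_lit 0) (nat_lit 0)) (xa (xb T2.l4 T2.l4) T2.l2)
  (TrL.c (I.pos (nat_lit 0) (nat_lit 89480386)) (xR (xR T4.l4 (xR T4.l5 T4.l5)) (xR (xR T4.l5 T4.l5) (xR (xa T4.l5 T4.l5) (xa T4.l5 T4.l5))))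
  (TrL.c (I.pos (nat_lit 0) (nat_lit 41530880)) (xR T2.l3 (xR T2.l5 T2.l5))
  (TrL.c (I.pos (nat_lit 0) (nat_lit 0)) (xa (xb (xa T2.l6 T2.l6) T2.l6) (xb (xa T2.l6 (xb T2.l6 T2.l6)) (xa T2.l6 (xb T2.l6 T2.l6))))
  (TrL.c (I.pos (nat_lit 0) (nat_lit 0)) (xa T4.l6 T4.l6)
  (TrL.c (I.mix (nat_lit 41527258) (nat_lit 41530880)) (xR (xR (xR T2.l7 T2.l7) T2.l7) (xR T2.l7 (xR T2.l7 T2.l7)))
  (TrL.c (I.mix (nat_lit 41527258) (nat_lit 4274)) (xR (xR T4.l7 T4.l7) T4.l2)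
  TrL.n)))))))) (by decide +kernel)
theorem bx1_5 : BoxOK sI cl6 cl9 cl7 t4 t2 b1_5 :=
  box_mk (TrL.c (I.pos (nat_lit 0) (nat_lit 0)) (xa (xb (xa T4.l9 T4.l0) (xa T4.l9 T4.l9)) (xb T4.l0 T4.l0))
  (TrL.c (I.pos (nat_lit 0) (nat_lit 0)) T2.l4
  (TrL.c (I.pos (nat_lit 0) (nat_lit 89480386)) (xR (xR T4.l5 T4.l4) (xR T4.l5 T4.l5))
  (TrL.c (I.pos (nat_lit 0) (nat_lit 41530880)) (xR T2.l5 (xR T2.l5 T2.l5))
  (TrL.c (I.pos (nat_lit 0) (nat_lit 0)) (xa T2.l9 T2.l9)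
  (TrL.c (I.pos (nat_lit 0) (nat_lit 0)) T4.l6
  (TrL.c (I.mix (nat_lit 41527258) (nat_lit 41530880)) (xR (xR T2.l7 T2.l7) T2.l7)
  (TrL.c (I.mix (nat_lit 41527258) (nat_lit 4274)) (xR (xR T4.l7 T4.l7) T4.l7)
  TrL.n)))))))) (by decide +kernel)
theorem bx1_6 : BoxOK sI cl6 cl9 cl7 t4 t2 b1_6 :=
  box_mk (TrL.c (I.pos (nat_lit 0) (nat_lit 0)) (xa (xa T4.l9 T4.l9) T4.l9)
  (TrL.c (I.pos (nat_lit 0) (nat_lit 0)) (xa T2.l4 T2.l4)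
  (TrL.c (I.pos (nat_lit 0) (nat_lit 89480386)) (xR T4.l4 T4.l5)
  (TrL.c (I.pos (nat_lit 0) (nat_lit 41530880)) (xR T2.l3 T2.l5)
  (TrL.c (I.pos (nat_lit 0) (nat_lit 0)) (xa T2.l9 T2.l9)
  (TrL.c (I.pos (nat_lit 0) (nat_lit 0)) T4.l6
  (TrL.c (I.mix (nat_lit 41527258) (nat_lit 41530880)) T2.l7
  (TrL.c (I.mix (nat_lit 41527258) (nat_lit 4274)) T4.l4
  TrL.n)))))))) (by decide +kernel)
theorem bx1_7 : BoxOK sI cl6 cl9 cl7 t4 t2 b1_7 :=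
  box_mk (TrL.c (I.pos (nat_lit 0) (nat_lit 0)) (xb (xa (xb T4.l10 T4.l10) (xb (xa T4.l10 T4.l10) T4.l10)) (xa (xb (xa T4.l10 T4.l10) (xa T4.l10 T4.l10)) (xb (xa T4.l10 T4.l10) (xa T4.l10 T4.l10))))
  (TrL.c (I.pos (nat_lit 0) (nat_lit 0)) (xb T2.l4 (xa T2.l4 T2.l4))
  (TrL.c (I.pos (nat_lit 0) (nat_lit 89480386)) (xR (xR T4.l5 T4.l5) (xR T4.l5 (xR T4.l5 T4.l5)))
  (TrL.c (I.pos (nat_lit 0) (nat_lit 41530880)) (xR T2.l5 (xR T2.l5 T2.l5))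
  (TrL.c (I.pos (nat_lit 0) (nat_lit 0)) (xb T2.l10 T2.l10)
  (TrL.c (I.pos (nat_lit 0) (nat_lit 0)) T4.l6
  (TrL.c (I.mix (nat_lit 41527258) (nat_lit 41530880)) (xR (xR (xR T2.l7 T2.l7) T2.l7) (xR T2.l7 (xR T2.l7 T2.l7)))
  (TrL.c (I.mix (nat_lit 41527258) (nat_lit 4274)) (xR (xR T4.l7 T4.l7) (xR T4.l7 T4.l7))
  TrL.n)))))))) (by decide +kernel)
theorem bx1_8 : BoxOK sI cl6 cl9 cl7 t4 t2 b1_8 :=
  box_mk (TrL.c (I.pos (nat_lit 0) (nat_lit 0)) (xa (xa (xb T4.l9 T4.l9) T4.l9) (xa T4.l9 (xb T4.l9 (xa T4.l9 T4.l9))))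
  (TrL.c (I.pos (nat_lit 0) (nat_lit 0)) (xa T2.l4 T2.l4)
  (TrL.c (I.pos (nat_lit 0) (nat_lit 89480386)) (xR (xR T4.l5 T4.l5) (xR T4.l5 T4.l5))
  (TrL.c (I.pos (nat_lit 0) (nat_lit 41530880)) (xR T2.l3 (xa T2.l5 T2.l5))
  (TrL.c (I.pos (nat_lit 0) (nat_lit 0)) (xa T2.l9 T2.l9)
  (TrL.c (I.pos (nat_lit 0) (nat_lit 0)) T4.l6
  (TrL.c (I.mix (nat_lit 41527258) (nat_lit 41530880)) T2.l7
  (TrL.c (I.mix (nat_lit 41527258) (nat_lit 4274)) (xa T4.l4 (xR T4.l7 T4.l7))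
  TrL.n)))))))) (by decide +kernel)
theorem bx1_9 : BoxOK sI cl6 cl9 cl7 t4 t2 b1_9 :=
  box_mk (TrL.c (I.pos (nat_lit 0) (nat_lit 0)) (xa (xb T4.l0 (xa T4.l0 T4.l10)) T4.l0)
  (TrL.c (I.pos (nat_lit 0) (nat_lit 0)) T2.l4
  (TrL.c (I.pos (nat_lit 0) (nat_lit 89480386)) (xR (xR T4.l5 (xR T4.l5 T4.l5)) (xR T4.l5 T4.l5))
  (TrL.c (I.pos (nat_lit 0) (nat_lit 41530880)) (xR T2.l5 (xR T2.l5 T2.l5))
  (TrL.c (I.pos (nat_lit 0) (nat_lit 0)) (xa T2.l10 T2.l0)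
  (TrL.c (I.pos (nat_lit 0) (nat_lit 0)) T4.l6
  (TrL.c (I.mix (nat_lit 41527258) (nat_lit 41530880)) (xR (xR (xR T2.l7 T2.l7) T2.l7) T2.l7)
  (TrL.c (I.mix (nat_lit 41527258) (nat_lit 4274)) (xR (xR T4.l7 T4.l7) T4.l7)
  TrL.n)))))))) (by decide +kernel)
theorem bx1_10 : BoxOK sI cl6 cl9 cl7 t4 t2 b1_10 :=
  box_mk (TrL.c (I.pos (nat_lit 0) (nat_lit 0)) (xb (xa T4.l10 T4.l10) (xa T4.l10 T4.l10))
  (TrL.c (I.pos (nat_lit 0) (nat_lit 0)) T2.l4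
  (TrL.c (I.pos (nat_lit 0) (nat_lit 89480386)) (xR (xR T4.l5 T4.l5) (xR T4.l5 T4.l5))
  (TrL.c (I.pos (nat_lit 0) (nat_lit 41530880)) (xR T2.l5 T2.l5)
  (TrL.c (I.pos (nat_lit 0) (nat_lit 0)) (xb T2.l10 T2.l10)
  (TrL.c (I.pos (nat_lit 0) (nat_lit 0)) T4.l6
  (TrL.c (I.mix (nat_lit 41527258) (nat_lit 41530880)) (xR (xR T2.l7 T2.l7) T2.l7)
  (TrL.c (I.mix (nat_lit 41527258) (nat_lit 4274)) (xR (xR T4.l7 T4.l7) T4.l7)
  TrL.n)))))))) (by decide +kernel)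
theorem bx1_11 : BoxOK sI cl6 cl9 cl7 t4 t2 b1_11 :=
  box_mk (TrL.c (I.pos (nat_lit 0) (nat_lit 0)) (xa (xb T4.l0 (xa T4.l0 T4.l0)) (xb T4.l0 (xa T4.l0 T4.l0)))
  (TrL.c (I.pos (nat_lit 0) (nat_lit 0)) (xa T2.l4 T2.l4)
  (TrL.c (I.pos (nat_lit 0) (nat_lit 89480386)) (xR (xR T4.l5 T4.l5) (xR T4.l5 T4.l5))
  (TrL.c (I.pos (nat_lit 0) (nat_lit 41530880)) (xR T2.l5 T2.l5)
  (TrL.c (I.pos (nat_lit 0) (nat_lit 0)) (xa T2.l6 T2.l6)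
  (TrL.c (I.pos (nat_lit 0) (nat_lit 0)) T4.l6
  (TrL.c (I.mix (nat_lit 41527258) (nat_lit 41530880)) (xR (xR T2.l7 T2.l7) T2.l7)
  (TrL.c (I.mix (nat_lit 41527258) (nat_lit 4274)) (xR (xR T4.l7 T4.l7) T4.l7)
  TrL.n)))))))) (by decide +kernel)
theorem sv1 : StarV sI cl6 cl9 cl7 t4 t2 t1 :=
  (bt_n (bt_n (bt_n (bt_b bx1_0) (bt_n (bt_b bx1_1) (bt_b bx1_2))) (bt_n (bt_b bx1_3) (bt_n (bt_b bx1_4) (bt_b bx1_5)))) (bt_n (bt_n (bt_b bx1_6) (bt_n (bt_b bx1_7) (bt_b bx1_8))) (bt_n (bt_b bx1_9) (bt_n (bt_b bx1_10) (bt_b bx1_11)))))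
def S1 : StarD := StarD.mk cl6 cl9 cl7 4 2 t1
theorem bx2_0 : BoxOK sI cl7 cl6 cl9 t0 t5 b2_0 :=
  box_mk (TrL.c (I.pos (nat_lit 0) (nat_lit 0)) (xa (xb (xa (xb T0.l0 T0.l0) T0.l0) (xa (xb T0.l0 T0.l0) (xb T0.l0 T0.l0))) (xb (xa T0.l0 T0.l0) (xa (xb T0.l0 T0.l0) (xb T0.l0 T0.l0))))
  (TrL.c (I.pos (nat_lit 0) (nat_lit 0)) (xa (xk (xb T5.l1 T5.l1) (xb T5.l1 T5.l1)) (xk (xb T5.l1 (xa T5.l1 T5.l1)) (xb T5.l1 T5.l1)))
  (TrL.c (I.pos (nat_lit 0) (nat_lit 111196574)) (xR T0.l1 (xR T0.l1 (xR T0.l1 (xa T0.l1 T0.l1))))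
  (TrL.c (I.pos (nat_lit 0) (nat_lit 77433728)) (xR T5.l2 (xR T5.l2 (xR T5.l2 T5.l2)))
  (TrL.c (I.pos (nat_lit 0) (nat_lit 0)) (xa (xb (xk T5.l3 T5.l3) (xk T5.l3 T5.l9)) (xb T5.l3 (xk T5.l3 T5.l3)))
  (TrL.c (I.pos (nat_lit 0) (nat_lit 0)) (xk T0.l2 T0.l2)
  (TrL.c (I.mix (nat_lit 29511666) (nat_lit 77433728)) (xR T5.l4 (xR T5.l4 (xR T5.l4 (xk T5.l4 T5.l4))))
  (TrL.c (I.mix (nat_lit 29511666) (nat_lit 46070178)) (xR T0.l3 (xR T0.l3 (xR T0.l3 T0.l3)))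
  TrL.n)))))))) (by decide +kernel)
theorem bx2_1 : BoxOK sI cl7 cl6 cl9 t0 t5 b2_1 :=
  box_mk (TrL.c (I.pos (nat_lit 0) (nat_lit 0)) (xa (xa (xb T0.l4 T0.l4) T0.l4) (xa T0.l4 (xb T0.l4 T0.l4)))
  (TrL.c (I.pos (nat_lit 0) (nat_lit 0)) (xa T5.l1 T5.l1)
  (TrL.c (I.pos (nat_lit 0) (nat_lit 111196574)) (xR T0.l1 T0.l1)
  (TrL.c (I.pos (nat_lit 0) (nat_lit 77433728)) (xR T5.l2 (xR T5.l2 T5.l2))
  (TrL.c (I.pos (nat_lit 0) (nat_lit 0)) (xa T5.l5 T5.l5)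
  (TrL.c (I.pos (nat_lit 0) (nat_lit 0)) T0.l2
  (TrL.c (I.mix (nat_lit 29511666) (nat_lit 77433728)) T5.l4
  (TrL.c (I.mix (nat_lit 29511666) (nat_lit 46070178)) T0.l3
  TrL.n)))))))) (by decide +kernel)
theorem bx2_2 : BoxOK sI cl7 cl6 cl9 t0 t5 b2_2 :=
  box_mk (TrL.c (I.pos (nat_lit 0) (nat_lit 0)) (xb T0.l4 (xa T0.l4 T0.l4))
  (TrL.c (I.pos (nat_lit 0) (nat_lit 0)) T5.l1
  (TrL.c (I.pos (nat_lit 0) (nat_lit 111196574)) (xR T0.l1 T0.l1)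
  (TrL.c (I.pos (nat_lit 0) (nat_lit 77433728)) (xR T5.l2 T5.l2)
  (TrL.c (I.pos (nat_lit 0) (nat_lit 0)) (xb T5.l5 T5.l5)
  (TrL.c (I.pos (nat_lit 0) (nat_lit 0)) T0.l2
  (TrL.c (I.mix (nat_lit 29511666) (nat_lit 77433728)) T5.l4
  (TrL.c (I.mix (nat_lit 29511666) (nat_lit 46070178)) T0.l3
  TrL.n)))))))) (by decide +kernel)
theorem bx2_3 : BoxOK sI cl7 cl6 cl9 t0 t5 b2_3 :=
  box_mk (TrL.c (I.pos (nat_lit 0) (nat_lit 0)) (xa (xb T0.l4 T0.l4) T0.l4)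
  (TrL.c (I.pos (nat_lit 0) (nat_lit 0)) T5.l5
  (TrL.c (I.pos (nat_lit 0) (nat_lit 111196574)) T0.l1
  (TrL.c (I.pos (nat_lit 0) (nat_lit 77433728)) T5.l4
  (TrL.c (I.pos (nat_lit 0) (nat_lit 0)) T5.l1
  (TrL.c (I.pos (nat_lit 0) (nat_lit 0)) T0.l1
  (TrL.c (I.mix (nat_lit 29511666) (nat_lit 77433728)) (xR T5.l4 (xR T5.l4 T5.l2))
  (TrL.c (I.mix (nat_lit 29511666) (nat_lit 46070178)) T0.l3
  TrL.n)))))))) (by decide +kernel)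
theorem bx2_4 : BoxOK sI cl7 cl6 cl9 t0 t5 b2_4 :=
  box_mk (TrL.c (I.pos (nat_lit 0) (nat_lit 0)) (xa (xb T0.l4 T0.l4) (xb T0.l0 T0.l0))
  (TrL.c (I.pos (nat_lit 0) (nat_lit 0)) T5.l1
  (TrL.c (I.pos (nat_lit 0) (nat_lit 111196574)) (xR T0.l1 T0.l1)
  (TrL.c (I.pos (nat_lit 0) (nat_lit 77433728)) (xR T5.l2 T5.l2)
  (TrL.c (I.pos (nat_lit 0) (nat_lit 0)) (xk (xa T5.l5 T5.l5) (xa T5.l5 T5.l5))
  (TrL.c (I.pos (nat_lit 0) (nat_lit 0)) T0.l2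
  (TrL.c (I.mix (nat_lit 29511666) (nat_lit 77433728)) (xR T5.l4 T5.l4)
  (TrL.c (I.mix (nat_lit 29511666) (nat_lit 46070178)) (xR T0.l3 T0.l3)
  TrL.n)))))))) (by decide +kernel)
theorem bx2_5 : BoxOK sI cl7 cl6 cl9 t0 t5 b2_5 :=
  box_mk (TrL.c (I.pos (nat_lit 0) (nat_lit 0)) (xa T0.l4 T0.l4)
  (TrL.c (I.pos (nat_lit 0) (nat_lit 0)) T5.l1
  (TrL.c (I.pos (nat_lit 0) (nat_lit 111196574)) T0.l1
  (TrL.c (I.pos (nat_lit 0) (nat_lit 77433728)) T5.l4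
  (TrL.c (I.pos (nat_lit 0) (nat_lit 0)) T5.l5
  (TrL.c (I.pos (nat_lit 0) (nat_lit 0)) T0.l2
  (TrL.c (I.mix (nat_lit 29511666) (nat_lit 77433728)) T5.l4
  (TrL.c (I.mix (nat_lit 29511666) (nat_lit 46070178)) T0.l3
  TrL.n)))))))) (by decide +kernel)
theorem bx2_6 : BoxOK sI cl7 cl6 cl9 t0 t5 b2_6 :=
  box_mk (TrL.c (I.pos (nat_lit 0) (nat_lit 0)) (xb (xa (xb T0.l9 T0.l9) (xb (xa T0.l9 T0.l9) T0.l9)) (xa (xb (xa T0.l9 T0.l9) (xa T0.l9 T0.l9)) (xb (xa T0.l9 T0.l9) (xa T0.l9 T0.l9))))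
  (TrL.c (I.pos (nat_lit 0) (nat_lit 0)) (xk (xb T5.l1 (xa T5.l1 T5.l1)) (xb T5.l1 (xa T5.l1 T5.l1)))
  (TrL.c (I.pos (nat_lit 0) (nat_lit 111196574)) (xR T0.l1 (xR T0.l1 (xR T0.l1 (xb T0.l1 T0.l1))))
  (TrL.c (I.pos (nat_lit 0) (nat_lit 77433728)) (xR T5.l2 (xR T5.l2 (xR T5.l2 T5.l2)))
  (TrL.c (I.pos (nat_lit 0) (nat_lit 0)) (xb (xk T5.l9 T5.l9) (xk T5.l3 T5.l9))
  (TrL.c (I.pos (nat_lit 0) (nat_lit 0)) T0.l2
  (TrL.c (I.mix (nat_lit 29511666) (nat_lit 77433728)) (xR T5.l4 (xR T5.l4 (xR T5.l4 T5.l4)))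
  (TrL.c (I.mix (nat_lit 29511666) (nat_lit 46070178)) (xR T0.l3 T0.l6)
  TrL.n)))))))) (by decide +kernel)
theorem bx2_7 : BoxOK sI cl7 cl6 cl9 t0 t5 b2_7 :=
  box_mk (TrL.c (I.pos (nat_lit 0) (nat_lit 0)) (xa (xa (xb T0.l4 T0.l4) T0.l4) T0.l4)
  (TrL.c (I.pos (nat_lit 0) (nat_lit 0)) (xa T5.l5 T5.l1)
  (TrL.c (I.pos (nat_lit 0) (nat_lit 111196574)) T0.l1
  (TrL.c (I.pos (nat_lit 0) (nat_lit 77433728)) (xR T5.l4 (xR T5.l2 (xa T5.l4 T5.l2)))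
  (TrL.c (I.pos (nat_lit 0) (nat_lit 0)) (xa T5.l1 T5.l5)
  (TrL.c (I.pos (nat_lit 0) (nat_lit 0)) T0.l2
  (TrL.c (I.mix (nat_lit 29511666) (nat_lit 77433728)) T5.l4
  (TrL.c (I.mix (nat_lit 29511666) (nat_lit 46070178)) T0.l3
  TrL.n)))))))) (by decide +kernel)
theorem bx2_8 : BoxOK sI cl7 cl6 cl9 t0 t5 b2_8 :=
  box_mk (TrL.c (I.pos (nat_lit 0) (nat_lit 0)) (xa (xb (xa T0.l0 T0.l0) (xa T0.l0 T0.l0)) (xb (xa T0.l0 (xb T0.l0 T0.l0)) (xa (xb T0.l0 T0.l0) (xb T0.l0 T0.l0))))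
  (TrL.c (I.pos (nat_lit 0) (nat_lit 0)) (xa (xb T5.l1 (xk T5.l1 T5.l1)) (xk (xb T5.l7 (xa T5.l1 T5.l7)) (xb T5.l7 T5.l7)))
  (TrL.c (I.pos (nat_lit 0) (nat_lit 111196574)) (xR (xR T0.l1 T0.l1) (xR T0.l1 T0.l8))
  (TrL.c (I.pos (nat_lit 0) (nat_lit 77433728)) (xR (xR T5.l2 T5.l2) (xR T5.l2 (xR T5.l2 (xk T5.l2 T5.l2))))
  (TrL.c (I.pos (nat_lit 0) (nat_lit 0)) (xa (xb (xk T5.l3 T5.l3) (xk T5.l3 T5.l3)) (xb (xk (xa T5.l3 T5.l3) (xa T5.l3 T5.l3)) (xk (xa T5.l3 T5.l3) (xa T5.l3 T5.l3))))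
  (TrL.c (I.pos (nat_lit 0) (nat_lit 0)) (xk (xb (xa T0.l2 T0.l5) (xa T0.l2 T0.l2)) (xa T0.l2 (xb T0.l2 T0.l2)))
  (TrL.c (I.mix (nat_lit 29511666) (nat_lit 77433728)) (xR (xR T5.l4 T5.l4) (xR T5.l4 (xR T5.l4 (xk T5.l4 T5.l4))))
  (TrL.c (I.mix (nat_lit 29511666) (nat_lit 46070178)) (xR (xR T0.l3 T0.l3) (xR T0.l3 (xR T0.l3 T0.l3)))
  TrL.n)))))))) (by decide +kernel)
theorem bx2_9 : BoxOK sI cl7 cl6 cl9 t0 t5 b2_9 :=
  box_mk (TrL.c (I.pos (nat_lit 0) (nat_lit 0)) (xa (xb T0.l0 (xa T0.l9 T0.l9)) T0.l0)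
  (TrL.c (I.pos (nat_lit 0) (nat_lit 0)) T5.l1
  (TrL.c (I.pos (nat_lit 0) (nat_lit 111196574)) (xR T0.l8 T0.l1)
  (TrL.c (I.pos (nat_lit 0) (nat_lit 77433728)) (xR T5.l2 T5.l2)
  (TrL.c (I.pos (nat_lit 0) (nat_lit 0)) (xk (xb (xa T5.l9 T5.l9) T5.l9) (xa T5.l9 T5.l9))
  (TrL.c (I.pos (nat_lit 0) (nat_lit 0)) T0.l2
  (TrL.c (I.mix (nat_lit 29511666) (nat_lit 77433728)) (xR T5.l4 T5.l4)
  (TrL.c (I.mix (nat_lit 29511666) (nat_lit 46070178)) (xR T0.l3 T0.l3)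
  TrL.n)))))))) (by decide +kernel)
theorem bx2_10 : BoxOK sI cl7 cl6 cl9 t0 t5 b2_10 :=
  box_mk (TrL.c (I.pos (nat_lit 0) (nat_lit 0)) (xa (xb T0.l9 (xa T0.l9 T0.l9)) (xb T0.l9 (xa T0.l9 T0.l9)))
  (TrL.c (I.pos (nat_lit 0) (nat_lit 0)) (xk T5.l1 T5.l1)
  (TrL.c (I.pos (nat_lit 0) (nat_lit 111196574)) (xR T0.l1 (xR T0.l1 (xR T0.l1 T0.l8)))
  (TrL.c (I.pos (nat_lit 0) (nat_lit 77433728)) (xR T5.l2 (xR T5.l2 (xR T5.l2 T5.l2)))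
  (TrL.c (I.pos (nat_lit 0) (nat_lit 0)) (xk (xb T5.l9 T5.l9) T5.l9)
  (TrL.c (I.pos (nat_lit 0) (nat_lit 0)) T0.l2
  (TrL.c (I.mix (nat_lit 29511666) (nat_lit 77433728)) (xR T5.l4 (xR T5.l4 (xR T5.l4 T5.l4)))
  (TrL.c (I.mix (nat_lit 29511666) (nat_lit 46070178)) (xR T0.l3 T0.l6)
  TrL.n)))))))) (by decide +kernel)
theorem bx2_11 : BoxOK sI cl7 cl6 cl9 t0 t5 b2_11 :=
  box_mk (TrL.c (I.pos (nat_lit 0) (nat_lit 0)) (xa (xb (xa (xb T0.l0 T0.l0) T0.l0) (xa (xb T0.l0 T0.l0) (xb T0.l0 T0.l0))) (xb (xa T0.l0 T0.l0) (xa (xb T0.l0 T0.l0) (xb T0.l0 T0.l0))))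
  (TrL.c (I.pos (nat_lit 0) (nat_lit 0)) (xk (xa T5.l1 (xb T5.l1 T5.l1)) (xa T5.l1 (xb T5.l1 T5.l1)))
  (TrL.c (I.pos (nat_lit 0) (nat_lit 111196574)) (xR T0.l1 (xR T0.l1 (xR T0.l1 (xR T0.l1 T0.l1))))
  (TrL.c (I.pos (nat_lit 0) (nat_lit 77433728)) (xR T5.l2 (xR T5.l2 (xR T5.l2 T5.l2)))
  (TrL.c (I.pos (nat_lit 0) (nat_lit 0)) (xk (xa T5.l3 (xb T5.l3 T5.l3)) (xa T5.l3 (xb T5.l3 (xb T5.l3 (xs T5.l3 T5.l3)))))
  (TrL.c (I.pos (nat_lit 0) (nat_lit 0)) (xk T0.l2 T0.l2)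
  (TrL.c (I.mix (nat_lit 29511666) (nat_lit 77433728)) (xR T5.l4 (xR T5.l4 (xR T5.l4 T5.l4)))
  (TrL.c (I.mix (nat_lit 29511666) (nat_lit 46070178)) (xR T0.l3 (xR T0.l3 T0.l3))
  TrL.n)))))))) (by decide +kernel)
theorem sv2 : StarV sI cl7 cl6 cl9 t0 t5 t2 :=
  (bt_n (bt_n (bt_n (bt_b bx2_0) (bt_n (bt_b bx2_1) (bt_b bx2_2))) (bt_n (bt_b bx2_3) (bt_n (bt_b bx2_4) (bt_b bx2_5)))) (bt_n (bt_n (bt_b bx2_6) (bt_n (bt_b bx2_7) (bt_b bx2_8))) (bt_n (bt_b bx2_9) (bt_n (bt_b bx2_10) (bt_b bx2_11)))))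
def S2 : StarD := StarD.mk cl7 cl6 cl9 0 5 t2
theorem bx3_0 : BoxOK sI cl7 cl9 cl6 t5 t0 b3_0 :=
  box_mk (TrL.c (I.pos (nat_lit 0) (nat_lit 0)) (xa (xb (xa (xb T5.l0 T5.l0) T5.l0) (xa (xb T5.l0 T5.l0) (xb T5.l0 T5.l0))) (xb (xa T5.l0 (xb T5.l0 T5.l0)) (xa (xb T5.l0 T5.l0) (xb T5.l0 T5.l0))))
  (TrL.c (I.pos (nat_lit 0) (nat_lit 0)) (xa (xk (xb T0.l5 (xa T0.l5 T0.l5)) (xb T0.l5 (xa T0.l5 T0.l5))) (xk (xb (xa T0.l5 T0.l5) (xa T0.l5 T0.l5)) (xb T0.l5 (xa T0.l5 T0.l5))))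
  (TrL.c (I.pos (nat_lit 0) (nat_lit 111196574)) (xR (xR T5.l6 T5.l6) (xR T5.l6 (xR T5.l6 (xa T5.l6 T5.l6))))
  (TrL.c (I.pos (nat_lit 0) (nat_lit 77433728)) (xR (xR T0.l6 T0.l6) (xR T0.l6 (xR T0.l6 T0.l6)))
  (TrL.c (I.pos (nat_lit 0) (nat_lit 0)) (xa (xk (xb T0.l7 T0.l7) (xb T0.l7 T0.l7)) (xk (xb (xa T0.l7 T0.l7) (xa T0.l7 T0.l7)) (xb (xa T0.l7 T0.l7) (xa T0.l7 (xb T0.l7 T0.l7)))))
  (TrL.c (I.pos (nat_lit 0) (nat_lit 0)) (xk (xa T5.l7 T5.l7) T5.l7)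
  (TrL.c (I.mix (nat_lit 29511666) (nat_lit 77433728)) (xR T0.l8 (xR T0.l8 (xR T0.l8 (xk T0.l8 T0.l8))))
  (TrL.c (I.mix (nat_lit 29511666) (nat_lit 46070178)) (xR (xR T5.l8 T5.l8) (xR T5.l8 (xR T5.l8 T5.l8)))
  TrL.n)))))))) (by decide +kernel)
theorem bx3_1 : BoxOK sI cl7 cl9 cl6 t5 t0 b3_1 :=
  box_mk (TrL.c (I.pos (nat_lit 0) (nat_lit 0)) (xa (xb (xa T5.l10 T5.l10) (xa T5.l10 T5.l10)) (xb T5.l0 T5.l0))
  (TrL.c (I.pos (nat_lit 0) (nat_lit 0)) (xa T0.l5 T0.l5)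
  (TrL.c (I.pos (nat_lit 0) (nat_lit 111196574)) (xR (xR T5.l6 T5.l6) T5.l6)
  (TrL.c (I.pos (nat_lit 0) (nat_lit 77433728)) (xR T0.l6 T0.l6)
  (TrL.c (I.pos (nat_lit 0) (nat_lit 0)) (xa (xb T0.l10 T0.l10) (xk (xb T0.l10 T0.l10) (xb T0.l10 T0.l10)))
  (TrL.c (I.pos (nat_lit 0) (nat_lit 0)) T5.l7
  (TrL.c (I.mix (nat_lit 29511666) (nat_lit 77433728)) (xR T0.l8 T0.l8)
  (TrL.c (I.mix (nat_lit 29511666) (nat_lit 46070178)) (xR T5.l8 T5.l8)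
  TrL.n)))))))) (by decide +kernel)
theorem bx3_2 : BoxOK sI cl7 cl9 cl6 t5 t0 b3_2 :=
  box_mk (TrL.c (I.pos (nat_lit 0) (nat_lit 0)) (xa T5.l10 T5.l10)
  (TrL.c (I.pos (nat_lit 0) (nat_lit 0)) (xa T0.l5 T0.l5)
  (TrL.c (I.pos (nat_lit 0) (nat_lit 111196574)) (xR T5.l6 T5.l6)
  (TrL.c (I.pos (nat_lit 0) (nat_lit 77433728)) (xR T0.l1 (xR T0.l3 (xa T0.l6 T0.l6)))
  (TrL.c (I.pos (nat_lit 0) (nat_lit 0)) (xa T0.l10 T0.l10)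
  (TrL.c (I.pos (nat_lit 0) (nat_lit 0)) T5.l7
  (TrL.c (I.mix (nat_lit 29511666) (nat_lit 77433728)) (xR T0.l8 T0.l8)
  (TrL.c (I.mix (nat_lit 29511666) (nat_lit 46070178)) T5.l4
  TrL.n)))))))) (by decide +kernel)
theorem bx3_3 : BoxOK sI cl7 cl9 cl6 t5 t0 b3_3 :=
  box_mk (TrL.c (I.pos (nat_lit 0) (nat_lit 0)) (xb (xa (xb T5.l11 T5.l11) (xb T5.l11 T5.l11)) (xa (xb (xa T5.l11 T5.l11) (xa T5.l11 T5.l11)) (xb (xa T5.l11 T5.l11) (xa T5.l11 T5.l11))))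
  (TrL.c (I.pos (nat_lit 0) (nat_lit 0)) (xb (xk (xa T0.l5 T0.l5) (xa T0.l5 T0.l5)) (xk (xa T0.l5 T0.l5) (xa T0.l5 T0.l5)))
  (TrL.c (I.pos (nat_lit 0) (nat_lit 111196574)) (xR (xR T5.l6 T5.l6) (xR T5.l6 (xR T5.l6 (xb T5.l6 T5.l6))))
  (TrL.c (I.pos (nat_lit 0) (nat_lit 77433728)) (xR T0.l6 (xR T0.l6 (xR T0.l6 T0.l6)))
  (TrL.c (I.pos (nat_lit 0) (nat_lit 0)) (xb (xk (xa T0.l11 T0.l11) (xa T0.l11 T0.l11)) (xk (xa T0.l11 T0.l11) (xa T0.l11 T0.l11)))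
  (TrL.c (I.pos (nat_lit 0) (nat_lit 0)) (xk T5.l7 T5.l7)
  (TrL.c (I.mix (nat_lit 29511666) (nat_lit 77433728)) (xR T0.l8 (xR T0.l8 (xR T0.l8 T0.l8)))
  (TrL.c (I.mix (nat_lit 29511666) (nat_lit 46070178)) (xR (xR T5.l8 T5.l8) (xR T5.l8 T5.l8))
  TrL.n)))))))) (by decide +kernel)
theorem bx3_4 : BoxOK sI cl7 cl9 cl6 t5 t0 b3_4 :=
  box_mk (TrL.c (I.pos (nat_lit 0) (nat_lit 0)) (xa (xa (xb T5.l10 T5.l10) T5.l10) (xa T5.l10 (xb T5.l10 (xa T5.l10 T5.l10))))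
  (TrL.c (I.pos (nat_lit 0) (nat_lit 0)) (xa T0.l5 (xa T0.l5 T0.l5))
  (TrL.c (I.pos (nat_lit 0) (nat_lit 111196574)) (xR T5.l6 T5.l6)
  (TrL.c (I.pos (nat_lit 0) (nat_lit 77433728)) (xR T0.l3 (xR T0.l3 (xa T0.l6 T0.l6)))
  (TrL.c (I.pos (nat_lit 0) (nat_lit 0)) (xa (xa T0.l10 T0.l10) T0.l10)
  (TrL.c (I.pos (nat_lit 0) (nat_lit 0)) (xa T5.l7 T5.l7)
  (TrL.c (I.mix (nat_lit 29511666) (nat_lit 77433728)) (xR T0.l8 T0.l8)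
  (TrL.c (I.mix (nat_lit 29511666) (nat_lit 46070178)) (xR T5.l4 T5.l8)
  TrL.n)))))))) (by decide +kernel)
theorem bx3_5 : BoxOK sI cl7 cl9 cl6 t5 t0 b3_5 :=
  box_mk (TrL.c (I.pos (nat_lit 0) (nat_lit 0)) (xa (xb T5.l0 T5.l0) T5.l0)
  (TrL.c (I.pos (nat_lit 0) (nat_lit 0)) (xa T0.l5 T0.l5)
  (TrL.c (I.pos (nat_lit 0) (nat_lit 111196574)) (xR (xR T5.l6 T5.l6) T5.l6)
  (TrL.c (I.pos (nat_lit 0) (nat_lit 77433728)) (xR (xR T0.l6 T0.l6) T0.l6)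
  (TrL.c (I.pos (nat_lit 0) (nat_lit 0)) (xk (xa T0.l11 T0.l7) (xa T0.l11 T0.l7))
  (TrL.c (I.pos (nat_lit 0) (nat_lit 0)) T5.l7
  (TrL.c (I.mix (nat_lit 29511666) (nat_lit 77433728)) (xR T0.l8 T0.l8)
  (TrL.c (I.mix (nat_lit 29511666) (nat_lit 46070178)) (xR T5.l8 T5.l8)
  TrL.n)))))))) (by decide +kernel)
theorem bx3_6 : BoxOK sI cl7 cl9 cl6 t5 t0 b3_6 :=
  box_mk (TrL.c (I.pos (nat_lit 0) (nat_lit 0)) (xa (xb T5.l0 T5.l11) (xb T5.l11 T5.l11))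
  (TrL.c (I.pos (nat_lit 0) (nat_lit 0)) (xk T0.l5 T0.l5)
  (TrL.c (I.pos (nat_lit 0) (nat_lit 111196574)) (xR (xR T5.l6 T5.l6) T5.l6)
  (TrL.c (I.pos (nat_lit 0) (nat_lit 77433728)) (xR T0.l6 T0.l6)
  (TrL.c (I.pos (nat_lit 0) (nat_lit 0)) (xk (xb T0.l11 T0.l11) (xb T0.l11 T0.l11))
  (TrL.c (I.pos (nat_lit 0) (nat_lit 0)) T5.l7
  (TrL.c (I.mix (nat_lit 29511666) (nat_lit 77433728)) (xR T0.l8 (xR T0.l8 T0.l8))
  (TrL.c (I.mix (nat_lit 29511666) (nat_lit 46070178)) (xR T5.l8 T5.l2)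
  TrL.n)))))))) (by decide +kernel)
theorem bx3_7 : BoxOK sI cl7 cl9 cl6 t5 t0 b3_7 :=
  box_mk (TrL.c (I.pos (nat_lit 0) (nat_lit 0)) (xa T5.l10 (xa T5.l10 T5.l10))
  (TrL.c (I.pos (nat_lit 0) (nat_lit 0)) (xa T0.l5 T0.l5)
  (TrL.c (I.pos (nat_lit 0) (nat_lit 111196574)) (xR T5.l6 T5.l6)
  (TrL.c (I.pos (nat_lit 0) (nat_lit 77433728)) (xR T0.l6 T0.l6)
  (TrL.c (I.pos (nat_lit 0) (nat_lit 0)) T0.l10
  (TrL.c (I.pos (nat_lit 0) (nat_lit 0)) T5.l7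
  (TrL.c (I.mix (nat_lit 29511666) (nat_lit 77433728)) (xR T0.l8 T0.l8)
  (TrL.c (I.mix (nat_lit 29511666) (nat_lit 46070178)) (xR T5.l4 T5.l8)
  TrL.n)))))))) (by decide +kernel)
theorem bx3_8 : BoxOK sI cl7 cl9 cl6 t5 t0 b3_8 :=
  box_mk (TrL.c (I.pos (nat_lit 0) (nat_lit 0)) (xb (xa T5.l10 (xb T5.l10 T5.l10)) (xa (xb T5.l10 T5.l10) T5.l10))
  (TrL.c (I.pos (nat_lit 0) (nat_lit 0)) T0.l5
  (TrL.c (I.pos (nat_lit 0) (nat_lit 111196574)) (xR T5.l6 T5.l6)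
  (TrL.c (I.pos (nat_lit 0) (nat_lit 77433728)) (xR T0.l6 T0.l6)
  (TrL.c (I.pos (nat_lit 0) (nat_lit 0)) (xb (xk T0.l10 T0.l10) T0.l10)
  (TrL.c (I.pos (nat_lit 0) (nat_lit 0)) T5.l7
  (TrL.c (I.mix (nat_lit 29511666) (nat_lit 77433728)) (xR T0.l8 T0.l8)
  (TrL.c (I.mix (nat_lit 29511666) (nat_lit 46070178)) T5.l8
  TrL.n)))))))) (by decide +kernel)
theorem bx3_9 : BoxOK sI cl7 cl9 cl6 t5 t0 b3_9 :=
  box_mk (TrL.c (I.pos (nat_lit 0) (nat_lit 0)) (xa (xa T5.l10 T5.l10) T5.l10)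
  (TrL.c (I.pos (nat_lit 0) (nat_lit 0)) (xa T0.l5 T0.l5)
  (TrL.c (I.pos (nat_lit 0) (nat_lit 111196574)) (xR T5.l6 T5.l6)
  (TrL.c (I.pos (nat_lit 0) (nat_lit 77433728)) (xR T0.l1 (xR T0.l3 (xa T0.l1 T0.l6)))
  (TrL.c (I.pos (nat_lit 0) (nat_lit 0)) (xa T0.l10 T0.l10)
  (TrL.c (I.pos (nat_lit 0) (nat_lit 0)) T5.l7
  (TrL.c (I.mix (nat_lit 29511666) (nat_lit 77433728)) (xR T0.l8 T0.l8)
  (TrL.c (I.mix (nat_lit 29511666) (nat_lit 46070178)) T5.l4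
  TrL.n)))))))) (by decide +kernel)
theorem bx3_10 : BoxOK sI cl7 cl9 cl6 t5 t0 b3_10 :=
  box_mk (TrL.c (I.pos (nat_lit 0) (nat_lit 0)) (xa (xb T5.l0 (xa T5.l0 T5.l0)) (xb (xa T5.l0 (xb T5.l0 T5.l0)) (xa T5.l0 (xb T5.l0 T5.l0))))
  (TrL.c (I.pos (nat_lit 0) (nat_lit 0)) (xa (xk (xb (xa T0.l5 T0.l5) (xa T0.l5 T0.l2)) (xb T0.l5 T0.l5)) (xk (xb T0.l2 (xa T0.l2 T0.l2)) (xb T0.l2 T0.l2)))
  (TrL.c (I.pos (nat_lit 0) (nat_lit 111196574)) (xR (xR T5.l4 T5.l6) (xR T5.l6 T5.l4))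
  (TrL.c (I.pos (nat_lit 0) (nat_lit 77433728)) (xR (xR T0.l3 T0.l6) (xR T0.l6 (xR T0.l6 (xa T0.l6 T0.l6))))
  (TrL.c (I.pos (nat_lit 0) (nat_lit 0)) (xa (xb (xk T0.l7 T0.l7) (xk T0.l7 T0.l7)) (xb (xk (xa T0.l7 T0.l7) (xa T0.l7 T0.l7)) (xk (xa T0.l7 T0.l7) (xa T0.l7 T0.l7))))
  (TrL.c (I.pos (nat_lit 0) (nat_lit 0)) (xk (xa T5.l7 (xb T5.l7 T5.l7)) (xa T5.l7 (xb T5.l7 T5.l7)))
  (TrL.c (I.mix (nat_lit 29511666) (nat_lit 77433728)) (xR (xR T0.l8 T0.l8) (xR T0.l8 (xR T0.l8 (xk T0.l8 T0.l8))))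
  (TrL.c (I.mix (nat_lit 29511666) (nat_lit 46070178)) (xR (xR (xR T5.l8 T5.l8) T5.l8) (xR T5.l8 T5.l8))
  TrL.n)))))))) (by decide +kernel)
theorem bx3_11 : BoxOK sI cl7 cl9 cl6 t5 t0 b3_11 :=
  box_mk (TrL.c (I.pos (nat_lit 0) (nat_lit 0)) (xa (xb (xa T5.l0 T5.l0) (xa (xb T5.l0 T5.l0) (xb T5.l0 T5.l0))) (xb (xa T5.l0 T5.l0) (xa (xs T5.l0 T5.l0) (xs T5.l0 T5.l0))))
  (TrL.c (I.pos (nat_lit 0) (nat_lit 0)) (xk (xa (xb T0.l5 T0.l5) (xb T0.l5 T0.l5)) (xa T0.l5 (xb T0.l5 T0.l5)))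
  (TrL.c (I.pos (nat_lit 0) (nat_lit 111196574)) (xR (xR T5.l6 T5.l6) (xR T5.l6 (xR T5.l6 (xR T5.l6 T5.l6))))
  (TrL.c (I.pos (nat_lit 0) (nat_lit 77433728)) (xR (xR T0.l6 T0.l6) (xR T0.l6 (xR T0.l6 T0.l6)))
  (TrL.c (I.pos (nat_lit 0) (nat_lit 0)) (xk (xa T0.l7 (xb T0.l7 T0.l7)) (xa T0.l7 (xb T0.l7 T0.l7)))
  (TrL.c (I.pos (nat_lit 0) (nat_lit 0)) (xk T5.l7 T5.l7)
  (TrL.c (I.mix (nat_lit 29511666) (nat_lit 77433728)) (xR T0.l8 (xR T0.l8 (xR T0.l8 T0.l8)))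
  (TrL.c (I.mix (nat_lit 29511666) (nat_lit 46070178)) (xR (xR T5.l8 T5.l8) (xR T5.l8 T5.l8))
  TrL.n)))))))) (by decide +kernel)
theorem sv3 : StarV sI cl7 cl9 cl6 t5 t0 t3 :=
  (bt_n (bt_n (bt_n (bt_b bx3_0) (bt_n (bt_b bx3_1) (bt_b bx3_2))) (bt_n (bt_b bx3_3) (bt_n (bt_b bx3_4) (bt_b bx3_5)))) (bt_n (bt_n (bt_b bx3_6) (bt_n (bt_b bx3_7) (bt_b bx3_8))) (bt_n (bt_b bx3_9) (bt_n (bt_b bx3_10) (bt_b bx3_11)))))
def S3 : StarD := StarD.mk cl7 cl9 cl6 5 0 t3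
theorem bx4_0 : BoxOK sI cl9 cl6 cl7 t1 t3 b4_0 :=
  box_mk (TrL.c (I.pos (nat_lit 0) (nat_lit 0)) (xa (xb (xa (xb T1.l0 T1.l0) T1.l0) (xa (xb T1.l0 T1.l0) (xb T1.l0 T1.l0))) (xb (xa T1.l0 T1.l0) (xa (xb T1.l0 T1.l0) (xb T1.l0 T1.l0))))
  (TrL.c (I.pos (nat_lit 0) (nat_lit 0)) (xa (xk (xb T3.l1 T3.l1) (xb T3.l1 T3.l1)) (xk (xb T3.l1 (xa T3.l1 T3.l1)) (xb T3.l1 T3.l1)))
  (TrL.c (I.pos (nat_lit 0) (nat_lit 124588530)) (xR T1.l8 (xR T1.l1 (xR T1.l1 (xa T1.l1 T1.l1))))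
  (TrL.c (I.pos (nat_lit 0) (nat_lit 96881482)) (xR T3.l2 (xR T3.l2 (xR T3.l2 T3.l2)))
  (TrL.c (I.pos (nat_lit 0) (nat_lit 0)) (xa (xk T3.l3 T3.l3) (xb (xk T3.l3 T3.l3) (xk T3.l3 T3.l3)))
  (TrL.c (I.pos (nat_lit 0) (nat_lit 0)) (xk T1.l2 T1.l2)
  (TrL.c (I.mix (nat_lit 17240550) (nat_lit 96881482)) (xR T3.l4 (xR T3.l4 (xR T3.l4 (xk T3.l4 T3.l4))))
  (TrL.c (I.mix (nat_lit 17240550) (nat_lit 71940500)) (xR T1.l3 (xR T1.l3 (xR T1.l3 T1.l3)))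
  TrL.n)))))))) (by decide +kernel)
theorem bx4_1 : BoxOK sI cl9 cl6 cl7 t1 t3 b4_1 :=
  box_mk (TrL.c (I.pos (nat_lit 0) (nat_lit 0)) (xa (xb T1.l4 T1.l4) (xb T1.l0 T1.l0))
  (TrL.c (I.pos (nat_lit 0) (nat_lit 0)) T3.l1
  (TrL.c (I.pos (nat_lit 0) (nat_lit 124588530)) (xR T1.l1 T1.l1)
  (TrL.c (I.pos (nat_lit 0) (nat_lit 96881482)) (xR T3.l2 T3.l2)
  (TrL.c (I.pos (nat_lit 0) (nat_lit 0)) (xa T3.l5 (xk T3.l5 T3.l5))
  (TrL.c (I.pos (nat_lit 0) (nat_lit 0)) T1.l2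
  (TrL.c (I.mix (nat_lit 17240550) (nat_lit 96881482)) (xR T3.l4 (xR T3.l4 T3.l4))
  (TrL.c (I.mix (nat_lit 17240550) (nat_lit 71940500)) T1.l8
  TrL.n)))))))) (by decide +kernel)
theorem bx4_2 : BoxOK sI cl9 cl6 cl7 t1 t3 b4_2 :=
  box_mk (TrL.c (I.pos (nat_lit 0) (nat_lit 0)) (xa T1.l4 T1.l4)
  (TrL.c (I.pos (nat_lit 0) (nat_lit 0)) T3.l1
  (TrL.c (I.pos (nat_lit 0) (nat_lit 124588530)) T1.l1
  (TrL.c (I.pos (nat_lit 0) (nat_lit 96881482)) T3.l4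
  (TrL.c (I.pos (nat_lit 0) (nat_lit 0)) T3.l1
  (TrL.c (I.pos (nat_lit 0) (nat_lit 0)) T1.l2
  (TrL.c (I.mix (nat_lit 17240550) (nat_lit 96881482)) T3.l4
  (TrL.c (I.mix (nat_lit 17240550) (nat_lit 71940500)) T1.l8
  TrL.n)))))))) (by decide +kernel)
theorem bx4_3 : BoxOK sI cl9 cl6 cl7 t1 t3 b4_3 :=
  box_mk (TrL.c (I.pos (nat_lit 0) (nat_lit 0)) (xb (xa (xb T1.l11 T1.l11) (xb (xa T1.l11 T1.l11) T1.l11)) (xa (xb (xa T1.l11 T1.l11) (xa T1.l11 T1.l11)) (xa (xb T1.l11 T1.l11) (xb T1.l11 T1.l11))))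
  (TrL.c (I.pos (nat_lit 0) (nat_lit 0)) (xk (xb T3.l1 (xa T3.l1 T3.l1)) (xb T3.l1 (xa T3.l1 T3.l1)))
  (TrL.c (I.pos (nat_lit 0) (nat_lit 124588530)) (xR T1.l1 (xR T1.l1 (xR T1.l1 (xR T1.l1 T1.l1))))
  (TrL.c (I.pos (nat_lit 0) (nat_lit 96881482)) (xR T3.l2 (xR T3.l2 (xR T3.l2 T3.l2)))
  (TrL.c (I.pos (nat_lit 0) (nat_lit 0)) (xb (xk T3.l6 T3.l6) (xk T3.l3 T3.l6))
  (TrL.c (I.pos (nat_lit 0) (nat_lit 0)) T1.l2
  (TrL.c (I.mix (nat_lit 17240550) (nat_lit 96881482)) (xR T3.l4 (xR T3.l4 (xR T3.l4 T3.l4)))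
  (TrL.c (I.mix (nat_lit 17240550) (nat_lit 71940500)) (xR T1.l3 (xR T1.l3 T1.l6))
  TrL.n)))))))) (by decide +kernel)
theorem bx4_4 : BoxOK sI cl9 cl6 cl7 t1 t3 b4_4 :=
  box_mk (TrL.c (I.pos (nat_lit 0) (nat_lit 0)) (xa (xa (xb T1.l4 T1.l4) T1.l4) (xa T1.l4 T1.l4))
  (TrL.c (I.pos (nat_lit 0) (nat_lit 0)) (xa T3.l1 T3.l1)
  (TrL.c (I.pos (nat_lit 0) (nat_lit 124588530)) T1.l1
  (TrL.c (I.pos (nat_lit 0) (nat_lit 96881482)) (xR T3.l4 (xR T3.l2 (xR T3.l2 T3.l2)))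
  (TrL.c (I.pos (nat_lit 0) (nat_lit 0)) (xa T3.l1 T3.l5)
  (TrL.c (I.pos (nat_lit 0) (nat_lit 0)) T1.l2
  (TrL.c (I.mix (nat_lit 17240550) (nat_lit 96881482)) (xR T3.l4 T3.l4)
  (TrL.c (I.mix (nat_lit 17240550) (nat_lit 71940500)) T1.l8
  TrL.n)))))))) (by decide +kernel)
theorem bx4_5 : BoxOK sI cl9 cl6 cl7 t1 t3 b4_5 :=
  box_mk (TrL.c (I.pos (nat_lit 0) (nat_lit 0)) (xa (xa T1.l4 T1.l4) (xa T1.l4 T1.l4))
  (TrL.c (I.pos (nat_lit 0) (nat_lit 0)) (xa T3.l1 T3.l1)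
  (TrL.c (I.pos (nat_lit 0) (nat_lit 124588530)) (xR T1.l1 T1.l1)
  (TrL.c (I.pos (nat_lit 0) (nat_lit 96881482)) (xR T3.l2 T3.l2)
  (TrL.c (I.pos (nat_lit 0) (nat_lit 0)) (xa T3.l5 T3.l5)
  (TrL.c (I.pos (nat_lit 0) (nat_lit 0)) T1.l2
  (TrL.c (I.mix (nat_lit 17240550) (nat_lit 96881482)) T3.l4
  (TrL.c (I.mix (nat_lit 17240550) (nat_lit 71940500)) T1.l3
  TrL.n)))))))) (by decide +kernel)
theorem bx4_6 : BoxOK sI cl9 cl6 cl7 t1 t3 b4_6 :=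
  box_mk (TrL.c (I.pos (nat_lit 0) (nat_lit 0)) (xb (xa T1.l4 T1.l4) (xa T1.l4 T1.l4))
  (TrL.c (I.pos (nat_lit 0) (nat_lit 0)) T3.l1
  (TrL.c (I.pos (nat_lit 0) (nat_lit 124588530)) (xR T1.l1 T1.l1)
  (TrL.c (I.pos (nat_lit 0) (nat_lit 96881482)) (xR T3.l2 T3.l2)
  (TrL.c (I.pos (nat_lit 0) (nat_lit 0)) (xb T3.l5 T3.l5)
  (TrL.c (I.pos (nat_lit 0) (nat_lit 0)) T1.l2
  (TrL.c (I.mix (nat_lit 17240550) (nat_lit 96881482)) T3.l4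
  (TrL.c (I.mix (nat_lit 17240550) (nat_lit 71940500)) T1.l8
  TrL.n)))))))) (by decide +kernel)
theorem bx4_7 : BoxOK sI cl9 cl6 cl7 t1 t3 b4_7 :=
  box_mk (TrL.c (I.pos (nat_lit 0) (nat_lit 0)) (xa T1.l4 T1.l4)
  (TrL.c (I.pos (nat_lit 0) (nat_lit 0)) T3.l5
  (TrL.c (I.pos (nat_lit 0) (nat_lit 124588530)) T1.l1
  (TrL.c (I.pos (nat_lit 0) (nat_lit 96881482)) T3.l4
  (TrL.c (I.pos (nat_lit 0) (nat_lit 0)) T3.l1
  (TrL.c (I.pos (nat_lit 0) (nat_lit 0)) T1.l2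
  (TrL.c (I.mix (nat_lit 17240550) (nat_lit 96881482)) T3.l4
  (TrL.c (I.mix (nat_lit 17240550) (nat_lit 71940500)) T1.l8
  TrL.n)))))))) (by decide +kernel)
theorem bx4_8 : BoxOK sI cl9 cl6 cl7 t1 t3 b4_8 :=
  box_mk (TrL.c (I.pos (nat_lit 0) (nat_lit 0)) (xa (xb T1.l0 (xa T1.l11 T1.l11)) T1.l0)
  (TrL.c (I.pos (nat_lit 0) (nat_lit 0)) T3.l1
  (TrL.c (I.pos (nat_lit 0) (nat_lit 124588530)) (xR T1.l8 T1.l1)
  (TrL.c (I.pos (nat_lit 0) (nat_lit 96881482)) (xR T3.l2 T3.l2)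
  (TrL.c (I.pos (nat_lit 0) (nat_lit 0)) (xk (xb (xa T3.l6 T3.l6) T3.l6) (xa T3.l6 T3.l6))
  (TrL.c (I.pos (nat_lit 0) (nat_lit 0)) T1.l2
  (TrL.c (I.mix (nat_lit 17240550) (nat_lit 96881482)) (xR T3.l4 (xR T3.l4 T3.l4))
  (TrL.c (I.mix (nat_lit 17240550) (nat_lit 71940500)) (xR T1.l3 T1.l6)
  TrL.n)))))))) (by decide +kernel)
theorem bx4_9 : BoxOK sI cl9 cl6 cl7 t1 t3 b4_9 :=
  box_mk (TrL.c (I.pos (nat_lit 0) (nat_lit 0)) (xa (xb T1.l0 (xa T1.l0 T1.l0)) (xb (xa T1.l0 T1.l0) (xa T1.l0 (xb T1.l0 T1.l0))))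
  (TrL.c (I.pos (nat_lit 0) (nat_lit 0)) (xa (xk T3.l1 T3.l1) (xk (xb T3.l8 T3.l8) (xb T3.l1 T3.l1)))
  (TrL.c (I.pos (nat_lit 0) (nat_lit 124588530)) (xR T1.l8 T1.l8)
  (TrL.c (I.pos (nat_lit 0) (nat_lit 96881482)) (xR T3.l9 (xR T3.l2 (xR T3.l2 (xa T3.l2 T3.l9))))
  (TrL.c (I.pos (nat_lit 0) (nat_lit 0)) (xa (xb (xk T3.l3 T3.l3) (xk T3.l3 T3.l3)) (xb (xk (xa T3.l3 T3.l3) (xa T3.l3 T3.l3)) (xk (xa T3.l3 T3.l3) (xa T3.l3 T3.l3))))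
  (TrL.c (I.pos (nat_lit 0) (nat_lit 0)) (xk (xb (xa T1.l2 T1.l2) T1.l2) (xa T1.l2 T1.l2))
  (TrL.c (I.mix (nat_lit 17240550) (nat_lit 96881482)) (xR T3.l4 (xR T3.l4 (xR T3.l4 (xk T3.l4 T3.l4))))
  (TrL.c (I.mix (nat_lit 17240550) (nat_lit 71940500)) (xR T1.l3 (xR T1.l3 (xR T1.l3 T1.l3)))
  TrL.n)))))))) (by decide +kernel)
theorem bx4_10 : BoxOK sI cl9 cl6 cl7 t1 t3 b4_10 :=
  box_mk (TrL.c (I.pos (nat_lit 0) (nat_lit 0)) (xa (xb (xa T1.l0 T1.l0) (xa (xb T1.l0 T1.l0) (xb T1.l0 T1.l0))) (xb (xa T1.l0 T1.l0) (xa (xb T1.l0 T1.l0) (xb T1.l0 T1.l0))))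
  (TrL.c (I.pos (nat_lit 0) (nat_lit 0)) (xk (xa T3.l1 T3.l1) (xa T3.l1 T3.l1))
  (TrL.c (I.pos (nat_lit 0) (nat_lit 124588530)) (xR T1.l8 (xR T1.l1 (xR T1.l1 (xR T1.l1 T1.l1))))
  (TrL.c (I.pos (nat_lit 0) (nat_lit 96881482)) (xR T3.l2 (xR T3.l2 (xR T3.l2 T3.l2)))
  (TrL.c (I.pos (nat_lit 0) (nat_lit 0)) (xk (xa (xb T3.l3 T3.l6) (xb T3.l3 (xb T3.l3 (xs T3.l3 (xk T3.l3 T3.l6))))) (xa (xb T3.l3 T3.l6) (xb T3.l3 (xb (xs T3.l3 T3.l3) (xs (xk T3.l6 T3.l6) (xk T3.l6 T3.l6))))))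
  (TrL.c (I.pos (nat_lit 0) (nat_lit 0)) T1.l2
  (TrL.c (I.mix (nat_lit 17240550) (nat_lit 96881482)) (xR T3.l4 (xR T3.l4 (xR T3.l4 T3.l4)))
  (TrL.c (I.mix (nat_lit 17240550) (nat_lit 71940500)) (xR T1.l3 (xR T1.l3 (xR T1.l3 T1.l3)))
  TrL.n)))))))) (by decide +kernel)
theorem bx4_11 : BoxOK sI cl9 cl6 cl7 t1 t3 b4_11 :=
  box_mk (TrL.c (I.pos (nat_lit 0) (nat_lit 0)) (xb (xa T1.l11 T1.l11) (xa (xa T1.l11 T1.l11) (xa T1.l11 T1.l11)))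
  (TrL.c (I.pos (nat_lit 0) (nat_lit 0)) (xk T3.l1 T3.l1)
  (TrL.c (I.pos (nat_lit 0) (nat_lit 124588530)) (xR T1.l1 (xR T1.l1 T1.l8))
  (TrL.c (I.pos (nat_lit 0) (nat_lit 96881482)) (xR T3.l2 (xR T3.l2 (xR T3.l2 T3.l2)))
  (TrL.c (I.pos (nat_lit 0) (nat_lit 0)) (xk T3.l6 T3.l6)
  (TrL.c (I.pos (nat_lit 0) (nat_lit 0)) T1.l2
  (TrL.c (I.mix (nat_lit 17240550) (nat_lit 96881482)) (xR T3.l4 (xR T3.l4 (xR T3.l4 T3.l4)))
  (TrL.c (I.mix (nat_lit 17240550) (nat_lit 71940500)) (xR T1.l3 T1.l6)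
  TrL.n)))))))) (by decide +kernel)
theorem sv4 : StarV sI cl9 cl6 cl7 t1 t3 t4 :=
  (bt_n (bt_n (bt_n (bt_b bx4_0) (bt_n (bt_b bx4_1) (bt_b bx4_2))) (bt_n (bt_b bx4_3) (bt_n (bt_b bx4_4) (bt_b bx4_5)))) (bt_n (bt_n (bt_b bx4_6) (bt_n (bt_b bx4_7) (bt_b bx4_8))) (bt_n (bt_b bx4_9) (bt_n (bt_b bx4_10) (bt_b bx4_11)))))
def S4 : StarD := StarD.mk cl9 cl6 cl7 1 3 t4
theorem bx5_0 : BoxOK sI cl9 cl7 cl6 t3 t1 b5_0 :=
  box_mk (TrL.c (I.pos (nat_lit 0) (nat_lit 0)) (xa (xb (xa (xb T3.l0 T3.l0) T3.l0) (xa (xb T3.l0 T3.l0) (xb T3.l0 T3.l0))) (xb (xa T3.l0 (xb T3.l0 T3.l0)) (xa (xb T3.l0 T3.l0) (xb T3.l0 T3.l0))))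
  (TrL.c (I.pos (nat_lit 0) (nat_lit 0)) (xa (xk (xb T1.l5 (xa T1.l5 T1.l5)) (xb T1.l5 (xa T1.l5 T1.l5))) (xk (xb (xa T1.l5 T1.l5) (xa T1.l5 T1.l5)) (xb T1.l5 (xa T1.l5 T1.l5))))
  (TrL.c (I.pos (nat_lit 0) (nat_lit 124588530)) (xR T3.l4 (xR (xR T3.l4 T3.l7) (xR T3.l7 (xa T3.l7 T3.l7))))
  (TrL.c (I.pos (nat_lit 0) (nat_lit 96881482)) (xR (xR T1.l6 T1.l6) (xR T1.l6 (xR T1.l6 (xk T1.l6 T1.l6))))
  (TrL.c (I.pos (nat_lit 0) (nat_lit 0)) (xa (xk (xb T1.l7 T1.l7) (xb T1.l7 T1.l7)) (xk (xb (xa T1.l7 T1.l7) (xa T1.l7 (xb T1.l7 (xs T1.l7 T1.l7)))) (xb T1.l7 (xb (xa T1.l7 T1.l7) (xa T1.l7 (xs T1.l7 (xk T1.l7 (xb T1.l7 T1.l7))))))))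
  (TrL.c (I.pos (nat_lit 0) (nat_lit 0)) (xk T3.l8 T3.l8)
  (TrL.c (I.mix (nat_lit 17240550) (nat_lit 96881482)) (xR T1.l8 (xR T1.l8 (xR T1.l8 (xk T1.l8 T1.l8))))
  (TrL.c (I.mix (nat_lit 17240550) (nat_lit 71940500)) (xR T3.l9 (xR T3.l9 (xR T3.l9 T3.l9)))
  TrL.n)))))))) (by decide +kernel)
theorem bx5_1 : BoxOK sI cl9 cl7 cl6 t3 t1 b5_1 :=
  box_mk (TrL.c (I.pos (nat_lit 0) (nat_lit 0)) (xa (xb (xa T3.l10 T3.l10) (xa T3.l10 T3.l10)) (xb T3.l0 T3.l0))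
  (TrL.c (I.pos (nat_lit 0) (nat_lit 0)) (xa T1.l5 T1.l5)
  (TrL.c (I.pos (nat_lit 0) (nat_lit 124588530)) (xR T3.l4 (xR T3.l4 T3.l7))
  (TrL.c (I.pos (nat_lit 0) (nat_lit 96881482)) (xR T1.l6 T1.l6)
  (TrL.c (I.pos (nat_lit 0) (nat_lit 0)) (xa (xb T1.l9 T1.l9) (xk T1.l9 T1.l9))
  (TrL.c (I.pos (nat_lit 0) (nat_lit 0)) T3.l8
  (TrL.c (I.mix (nat_lit 17240550) (nat_lit 96881482)) (xR T1.l8 T1.l8)
  (TrL.c (I.mix (nat_lit 17240550) (nat_lit 71940500)) (xR T3.l9 T3.l9)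
  TrL.n)))))))) (by decide +kernel)
theorem bx5_2 : BoxOK sI cl9 cl7 cl6 t3 t1 b5_2 :=
  box_mk (TrL.c (I.pos (nat_lit 0) (nat_lit 0)) (xa T3.l10 T3.l10)
  (TrL.c (I.pos (nat_lit 0) (nat_lit 0)) (xa T1.l5 T1.l5)
  (TrL.c (I.pos (nat_lit 0) (nat_lit 124588530)) (xR T3.l4 T3.l7)
  (TrL.c (I.pos (nat_lit 0) (nat_lit 96881482)) (xR T1.l6 T1.l8)
  (TrL.c (I.pos (nat_lit 0) (nat_lit 0)) (xa T1.l9 T1.l9)
  (TrL.c (I.pos (nat_lit 0) (nat_lit 0)) T3.l8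
  (TrL.c (I.mix (nat_lit 17240550) (nat_lit 96881482)) T1.l8
  (TrL.c (I.mix (nat_lit 17240550) (nat_lit 71940500)) T3.l4
  TrL.n)))))))) (by decide +kernel)
theorem bx5_3 : BoxOK sI cl9 cl7 cl6 t3 t1 b5_3 :=
  box_mk (TrL.c (I.pos (nat_lit 0) (nat_lit 0)) (xb (xa (xb T3.l11 T3.l11) (xb T3.l11 T3.l11)) (xa (xb (xa T3.l11 T3.l11) (xa T3.l11 T3.l11)) (xb (xa T3.l11 T3.l11) (xa T3.l11 T3.l11))))
  (TrL.c (I.pos (nat_lit 0) (nat_lit 0)) (xb (xk (xa T1.l5 T1.l5) (xa T1.l5 T1.l5)) (xk (xa T1.l5 T1.l5) (xa T1.l5 T1.l5)))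
  (TrL.c (I.pos (nat_lit 0) (nat_lit 124588530)) (xR (xR T3.l4 T3.l4) (xR (xR T3.l7 T3.l7) (xR T3.l7 (xb T3.l7 T3.l7))))
  (TrL.c (I.pos (nat_lit 0) (nat_lit 96881482)) (xR (xR T1.l6 T1.l6) (xR T1.l6 (xR T1.l6 T1.l6)))
  (TrL.c (I.pos (nat_lit 0) (nat_lit 0)) (xb (xk (xa T1.l10 T1.l10) (xa T1.l10 T1.l10)) (xk (xa (xb T1.l7 T1.l7) (xb T1.l7 (xs T1.l7 T1.l7))) (xa (xb T1.l7 T1.l7) (xb T1.l7 (xs T1.l7 (xb T1.l7 (xa T1.l7 T1.l7)))))))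
  (TrL.c (I.pos (nat_lit 0) (nat_lit 0)) (xk T3.l8 T3.l8)
  (TrL.c (I.mix (nat_lit 17240550) (nat_lit 96881482)) (xR T1.l8 (xR T1.l8 (xR T1.l8 T1.l8)))
  (TrL.c (I.mix (nat_lit 17240550) (nat_lit 71940500)) (xR T3.l9 (xR T3.l9 (xR T3.l9 T3.l9)))
  TrL.n)))))))) (by decide +kernel)
theorem bx5_4 : BoxOK sI cl9 cl7 cl6 t3 t1 b5_4 :=
  box_mk (TrL.c (I.pos (nat_lit 0) (nat_lit 0)) (xa (xa (xb T3.l10 T3.l10) T3.l10) (xa T3.l10 (xb T3.l10 (xa T3.l10 T3.l10))))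
  (TrL.c (I.pos (nat_lit 0) (nat_lit 0)) (xa (xa T1.l9 T1.l5) (xa T1.l5 T1.l5))
  (TrL.c (I.pos (nat_lit 0) (nat_lit 124588530)) (xR T3.l4 T3.l7)
  (TrL.c (I.pos (nat_lit 0) (nat_lit 96881482)) (xR T1.l3 (xR T1.l6 (xa T1.l6 T1.l6)))
  (TrL.c (I.pos (nat_lit 0) (nat_lit 0)) (xa (xa T1.l5 T1.l9) T1.l9)
  (TrL.c (I.pos (nat_lit 0) (nat_lit 0)) T3.l8
  (TrL.c (I.mix (nat_lit 17240550) (nat_lit 96881482)) (xR T1.l8 T1.l8)
  (TrL.c (I.mix (nat_lit 17240550) (nat_lit 71940500)) T3.l4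
  TrL.n)))))))) (by decide +kernel)
theorem bx5_5 : BoxOK sI cl9 cl7 cl6 t3 t1 b5_5 :=
  box_mk (TrL.c (I.pos (nat_lit 0) (nat_lit 0)) (xa (xb T3.l0 T3.l0) T3.l0)
  (TrL.c (I.pos (nat_lit 0) (nat_lit 0)) (xa T1.l5 T1.l5)
  (TrL.c (I.pos (nat_lit 0) (nat_lit 124588530)) (xR T3.l4 T3.l4)
  (TrL.c (I.pos (nat_lit 0) (nat_lit 96881482)) (xR T1.l3 T1.l6)
  (TrL.c (I.pos (nat_lit 0) (nat_lit 0)) (xk (xa T1.l10 T1.l10) (xa T1.l10 T1.l10))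
  (TrL.c (I.pos (nat_lit 0) (nat_lit 0)) T3.l8
  (TrL.c (I.mix (nat_lit 17240550) (nat_lit 96881482)) (xR T1.l8 T1.l8)
  (TrL.c (I.mix (nat_lit 17240550) (nat_lit 71940500)) (xR T3.l9 T3.l9)
  TrL.n)))))))) (by decide +kernel)
theorem bx5_6 : BoxOK sI cl9 cl7 cl6 t3 t1 b5_6 :=
  box_mk (TrL.c (I.pos (nat_lit 0) (nat_lit 0)) (xa (xa T3.l10 T3.l10) (xa T3.l10 (xa T3.l10 T3.l10)))
  (TrL.c (I.pos (nat_lit 0) (nat_lit 0)) (xa T1.l5 T1.l5)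
  (TrL.c (I.pos (nat_lit 0) (nat_lit 124588530)) (xR T3.l4 (xR T3.l7 T3.l7))
  (TrL.c (I.pos (nat_lit 0) (nat_lit 96881482)) (xR T1.l6 T1.l6)
  (TrL.c (I.pos (nat_lit 0) (nat_lit 0)) (xa T1.l9 T1.l9)
  (TrL.c (I.pos (nat_lit 0) (nat_lit 0)) T3.l8
  (TrL.c (I.mix (nat_lit 17240550) (nat_lit 96881482)) T1.l8
  (TrL.c (I.mix (nat_lit 17240550) (nat_lit 71940500)) T3.l4
  TrL.n)))))))) (by decide +kernel)
theorem bx5_7 : BoxOK sI cl9 cl7 cl6 t3 t1 b5_7 :=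
  box_mk (TrL.c (I.pos (nat_lit 0) (nat_lit 0)) (xb (xa T3.l10 (xb T3.l10 T3.l10)) (xa T3.l10 T3.l10))
  (TrL.c (I.pos (nat_lit 0) (nat_lit 0)) T1.l5
  (TrL.c (I.pos (nat_lit 0) (nat_lit 124588530)) (xR T3.l4 (xR T3.l7 T3.l7))
  (TrL.c (I.pos (nat_lit 0) (nat_lit 96881482)) (xR T1.l6 T1.l6)
  (TrL.c (I.pos (nat_lit 0) (nat_lit 0)) (xb (xk T1.l9 T1.l9) T1.l9)
  (TrL.c (I.pos (nat_lit 0) (nat_lit 0)) T3.l8
  (TrL.c (I.mix (nat_lit 17240550) (nat_lit 96881482)) T1.l8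
  (TrL.c (I.mix (nat_lit 17240550) (nat_lit 71940500)) T3.l4
  TrL.n)))))))) (by decide +kernel)
theorem bx5_8 : BoxOK sI cl9 cl7 cl6 t3 t1 b5_8 :=
  box_mk (TrL.c (I.pos (nat_lit 0) (nat_lit 0)) (xa (xa T3.l10 T3.l10) T3.l10)
  (TrL.c (I.pos (nat_lit 0) (nat_lit 0)) (xa T1.l9 T1.l5)
  (TrL.c (I.pos (nat_lit 0) (nat_lit 124588530)) (xR T3.l4 T3.l7)
  (TrL.c (I.pos (nat_lit 0) (nat_lit 96881482)) T1.l8
  (TrL.c (I.pos (nat_lit 0) (nat_lit 0)) (xa T1.l9 T1.l9)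
  (TrL.c (I.pos (nat_lit 0) (nat_lit 0)) T3.l8
  (TrL.c (I.mix (nat_lit 17240550) (nat_lit 96881482)) T1.l8
  (TrL.c (I.mix (nat_lit 17240550) (nat_lit 71940500)) T3.l4
  TrL.n)))))))) (by decide +kernel)
theorem bx5_9 : BoxOK sI cl9 cl7 cl6 t3 t1 b5_9 :=
  box_mk (TrL.c (I.pos (nat_lit 0) (nat_lit 0)) (xa (xb T3.l11 T3.l11) (xb T3.l11 T3.l11))
  (TrL.c (I.pos (nat_lit 0) (nat_lit 0)) (xk T1.l5 T1.l5)
  (TrL.c (I.pos (nat_lit 0) (nat_lit 124588530)) (xR T3.l4 (xR T3.l4 T3.l7))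
  (TrL.c (I.pos (nat_lit 0) (nat_lit 96881482)) (xR T1.l3 T1.l6)
  (TrL.c (I.pos (nat_lit 0) (nat_lit 0)) (xk (xb T1.l10 T1.l10) (xb T1.l10 T1.l10))
  (TrL.c (I.pos (nat_lit 0) (nat_lit 0)) T3.l8
  (TrL.c (I.mix (nat_lit 17240550) (nat_lit 96881482)) (xR T1.l8 (xR T1.l8 T1.l8))
  (TrL.c (I.mix (nat_lit 17240550) (nat_lit 71940500)) (xR T3.l9 T3.l9)
  TrL.n)))))))) (by decide +kernel)
theorem bx5_10 : BoxOK sI cl9 cl7 cl6 t3 t1 b5_10 :=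
  box_mk (TrL.c (I.pos (nat_lit 0) (nat_lit 0)) (xa (xb T3.l0 T3.l0) (xb (xa T3.l0 T3.l0) (xa T3.l0 (xb T3.l0 T3.l0))))
  (TrL.c (I.pos (nat_lit 0) (nat_lit 0)) (xa (xk (xb (xa T1.l5 T1.l5) (xa T1.l5 T1.l2)) (xb T1.l5 T1.l5)) (xk (xb T1.l2 (xa T1.l2 T1.l2)) (xb T1.l2 (xa T1.l5 T1.l2))))
  (TrL.c (I.pos (nat_lit 0) (nat_lit 124588530)) (xR T3.l4 (xR T3.l4 T3.l4))
  (TrL.c (I.pos (nat_lit 0) (nat_lit 96881482)) (xR T1.l3 (xR T1.l6 (xR T1.l6 (xk T1.l6 T1.l6))))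
  (TrL.c (I.pos (nat_lit 0) (nat_lit 0)) (xa (xb (xk T1.l7 T1.l7) (xk T1.l7 T1.l7)) (xb (xk (xa T1.l7 T1.l7) (xa T1.l7 T1.l7)) (xk (xa T1.l7 T1.l7) (xa T1.l7 T1.l7))))
  (TrL.c (I.pos (nat_lit 0) (nat_lit 0)) (xk (xa T3.l8 T3.l8) (xa T3.l8 T3.l8))
  (TrL.c (I.mix (nat_lit 17240550) (nat_lit 96881482)) (xR T1.l8 (xR T1.l8 (xR T1.l8 (xk T1.l8 T1.l8))))
  (TrL.c (I.mix (nat_lit 17240550) (nat_lit 71940500)) (xR T3.l9 (xR T3.l9 T3.l9))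
  TrL.n)))))))) (by decide +kernel)
theorem bx5_11 : BoxOK sI cl9 cl7 cl6 t3 t1 b5_11 :=
  box_mk (TrL.c (I.pos (nat_lit 0) (nat_lit 0)) (xa (xb T3.l0 (xa T3.l0 T3.l0)) (xb (xa T3.l0 T3.l0) (xa T3.l0 T3.l0)))
  (TrL.c (I.pos (nat_lit 0) (nat_lit 0)) (xk (xa T1.l5 (xb T1.l5 T1.l5)) (xa T1.l5 T1.l5))
  (TrL.c (I.pos (nat_lit 0) (nat_lit 124588530)) (xR T3.l4 (xR T3.l4 (xR T3.l7 (xR T3.l7 T3.l7))))
  (TrL.c (I.pos (nat_lit 0) (nat_lit 96881482)) (xR (xR T1.l6 T1.l6) (xR T1.l6 (xR T1.l6 T1.l6)))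
  (TrL.c (I.pos (nat_lit 0) (nat_lit 0)) (xk (xa T1.l7 T1.l7) (xa T1.l7 T1.l7))
  (TrL.c (I.pos (nat_lit 0) (nat_lit 0)) T3.l8
  (TrL.c (I.mix (nat_lit 17240550) (nat_lit 96881482)) (xR T1.l8 (xR T1.l8 (xR T1.l8 T1.l8)))
  (TrL.c (I.mix (nat_lit 17240550) (nat_lit 71940500)) (xR T3.l9 (xR T3.l9 T3.l9))
  TrL.n)))))))) (by decide +kernel)
theorem sv5 : StarV sI cl9 cl7 cl6 t3 t1 t5 :=
  (bt_n (bt_n (bt_n (bt_b bx5_0) (bt_n (bt_b bx5_1) (bt_b bx5_2))) (bt_n (bt_b bx5_3) (bt_n (bt_b bx5_4) (bt_b bx5_5)))) (bt_n (bt_n (bt_b bx5_6) (bt_n (bt_b bx5_7) (bt_b bx5_8))) (bt_n (bt_b bx5_9) (bt_n (bt_b bx5_10) (bt_b bx5_11)))))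
def S5 : StarD := StarD.mk cl9 cl7 cl6 3 1 t5
def G : List StarD := [S0, S1, S2, S3, S4, S5]
theorem so0 : StarOK sI G S0 :=
  star_mk (by decide) (by decide) rfl rfl rfl rfl rfl rfl (rfl : _ = t2) (rfl : _ = t4)
  (st_mk (Pth.l (Pth.l (Pth.l Pth.z))) (nat_lit 142381179) (nat_lit 164953600) (by decide +kernel))
  (st_mk (Pth.l (Pth.l (Pth.l Pth.z))) (nat_lit 178618997) (nat_lit 201538414) (by decide +kernel))
  (st_mk (Pth.l (Pth.l (Pth.l Pth.z))) (nat_lit 220821702) (nat_lit 244204638) (by decide +kernel)) sv0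
theorem so1 : StarOK sI G S1 :=
  star_mk (by decide) (by decide) rfl rfl rfl rfl rfl rfl (rfl : _ = t4) (rfl : _ = t2)
  (st_mk (Pth.l (Pth.l (Pth.l Pth.z))) (nat_lit 116815817) (nat_lit 135570113) (by decide +kernel))
  (st_mk (Pth.l (Pth.l (Pth.l Pth.z))) (nat_lit 152935207) (nat_lit 172026630) (by decide +kernel))
  (st_mk (Pth.l (Pth.l (Pth.l Pth.z))) (nat_lit 195036670) (nat_lit 214583064) (by decide +kernel)) sv1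
theorem so2 : StarOK sI G S2 :=
  star_mk (by decide) (by decide) rfl rfl rfl rfl rfl rfl (rfl : _ = t0) (rfl : _ = t5)
  (st_mk (Pth.l (Pth.l (Pth.l Pth.z))) (nat_lit 187909441) (nat_lit 189570588) (by decide +kernel))
  (st_mk (Pth.l (Pth.l (Pth.l Pth.z))) (nat_lit 223665961) (nat_lit 225803783) (by decide +kernel))
  (st_mk (Pth.l (Pth.l (Pth.l Pth.z))) (nat_lit 264577957) (nat_lit 268452805) (by decide +kernel)) sv2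
theorem so3 : StarOK sI G S3 :=
  star_mk (by decide) (by decide) rfl rfl rfl rfl rfl rfl (rfl : _ = t5) (rfl : _ = t0)
  (st_mk (Pth.l (Pth.l (Pth.l Pth.z))) (nat_lit 116090482) (nat_lit 134929741) (by decide +kernel))
  (st_mk (Pth.l (Pth.l (Pth.l Pth.z))) (nat_lit 151689342) (nat_lit 170984720) (by decide +kernel))
  (st_mk (Pth.l (Pth.l (Pth.l Pth.z))) (nat_lit 191123260) (nat_lit 214822736) (by decide +kernel)) sv3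
theorem so4 : StarOK sI G S4 :=
  star_mk (by decide) (by decide) rfl rfl rfl rfl rfl rfl (rfl : _ = t1) (rfl : _ = t3)
  (st_mk (Pth.l (Pth.l (Pth.l Pth.z))) (nat_lit 186782523) (nat_lit 188351495) (by decide +kernel))
  (st_mk (Pth.l (Pth.l (Pth.l Pth.z))) (nat_lit 222067012) (nat_lit 224066248) (by decide +kernel))
  (st_mk (Pth.l (Pth.l (Pth.l Pth.z))) (nat_lit 262864158) (nat_lit 265457241) (by decide +kernel)) sv4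
theorem so5 : StarOK sI G S5 :=
  star_mk (by decide) (by decide) rfl rfl rfl rfl rfl rfl (rfl : _ = t3) (rfl : _ = t1)
  (st_mk (Pth.l (Pth.l (Pth.l Pth.z))) (nat_lit 140623760) (nat_lit 163142553) (by decide +kernel))
  (st_mk (Pth.l (Pth.l (Pth.l Pth.z))) (nat_lit 175867817) (nat_lit 198806535) (by decide +kernel))
  (st_mk (Pth.l (Pth.l (Pth.l Pth.z))) (nat_lit 216629877) (nat_lit 240153648) (by decide +kernel)) sv5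
theorem ok : GroupOK (nat_lit 209321984) (nat_lit 268435456) G := grp_mk (allS_c so0 (allS_c so1 (allS_c so2 (allS_c so3 (allS_c so4 (allS_c so5 allS_n))))))
theorem cov : GCov G cl6 cl7 cl9 := cov_mk
  ⟨0, by decide, rfl, rfl, rfl⟩ ⟨1, by decide, rfl, rfl, rfl⟩ ⟨2, by decide, rfl, rfl, rfl⟩ ⟨3, by decide, rfl, rfl, rfl⟩ ⟨4, by decide, rfl, rfl, rfl⟩ ⟨5, by decide, rfl, rfl, rfl⟩
end Q345_3

namespace Q346_0
def sI : I := I.pos (nat_lit 0) (nat_lit 91291648)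
def b0_0 : Bx := Bx.mk (St.mk (I.pos (nat_lit 156975104) (nat_lit 282738688)) (I.mix (nat_lit 29016064) (nat_lit 58523648)) (I.mix (nat_lit 101859328) (nat_lit 82903040)) (I.pos (nat_lit 136642560) (nat_lit 366575616)) (I.mix (nat_lit 79822848) (nat_lit 52936704)) (I.mix (nat_lit 72892416) (nat_lit 42369024)) (I.mix (nat_lit 112345088) (nat_lit 63389696)))
  false (nat_lit 0)
def b0_1 : Bx := Bx.mk (St.mk (I.mix (nat_lit 21053440) (nat_lit 120324096)) (I.mix (nat_lit 9781248) (nat_lit 33030144)) (I.mix (nat_lit 22118400) (nat_lit 14647296)) (I.pos (nat_lit 40878080) (nat_lit 116195328)) (I.mix (nat_lit 24395776) (nat_lit 24018944)) (I.mix (nat_lit 25608192) (nat_lit 16580608)) (I.mix (nat_lit 18644992) (nat_lit 10665984)))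
  false (nat_lit 0)
def b0_2 : Bx := Bx.mk (St.mk (I.pos (nat_lit 94158848) (nat_lit 142622720)) (I.mix (nat_lit 57688064) (nat_lit 8192000)) (I.neg (nat_lit 2703360) (nat_lit 64421888)) (I.pos (nat_lit 79085568) (nat_lit 138559488)) (I.mix (nat_lit 74874880) (nat_lit 19824640)) (I.mix (nat_lit 32587776) (nat_lit 72417280)) (I.mix (nat_lit 24199168) (nat_lit 58867712)))
  false (nat_lit 0)
def b0_3 : Bx := Bx.mk (St.mk (I.mix (nat_lit 36044800) (nat_lit 68206592)) (I.mix (nat_lit 29376512) (nat_lit 6078464)) (I.neg (nat_lit 344064) (nat_lit 20856832)) (I.pos (nat_lit 42237952) (nat_lit 80707584)) (I.mix (nat_lit 26181632) (nat_lit 10207232)) (I.mix (nat_lit 11763712) (nat_lit 24166400)) (I.mix (nat_lit 5652480) (nat_lit 9830400)))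
  false (nat_lit 0)
def b0_4 : Bx := Bx.mk (St.mk (I.pos (nat_lit 110936064) (nat_lit 170262528)) (I.neg (nat_lit 2408448) (nat_lit 56377344)) (I.neg (nat_lit 8028160) (nat_lit 61833216)) (I.pos (nat_lit 101351424) (nat_lit 172654592)) (I.mix (nat_lit 58146816) (nat_lit 30015488)) (I.mix (nat_lit 26968064) (nat_lit 53280768)) (I.mix (nat_lit 22593536) (nat_lit 52297728)))
  false (nat_lit 0)
def b0_5 : Bx := Bx.mk (St.mk (I.mix (nat_lit 22888448) (nat_lit 82067456)) (I.mix (nat_lit 32964608) (nat_lit 3457024)) (I.neg (nat_lit 540672) (nat_lit 24608768)) (I.pos (nat_lit 41451520) (nat_lit 88883200)) (I.mix (nat_lit 27738112) (nat_lit 19169280)) (I.mix (nat_lit 15908864) (nat_lit 27967488)) (I.mix (nat_lit 9289728) (nat_lit 15351808)))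
  false (nat_lit 0)
def b0_6 : Bx := Bx.mk (St.mk (I.mix (nat_lit 35078144) (nat_lit 108707840)) (I.mix (nat_lit 12025856) (nat_lit 35553280)) (I.mix (nat_lit 13729792) (nat_lit 18006016)) (I.pos (nat_lit 40894464) (nat_lit 106217472)) (I.mix (nat_lit 33406976) (nat_lit 19726336)) (I.mix (nat_lit 36569088) (nat_lit 22069248)) (I.mix (nat_lit 20299776) (nat_lit 12533760)))
  false (nat_lit 0)
def b0_7 : Bx := Bx.mk (St.mk (I.pos (nat_lit 151977984) (nat_lit 220528640)) (I.mix (nat_lit 37126144) (nat_lit 64356352)) (I.mix (nat_lit 45809664) (nat_lit 86294528)) (I.pos (nat_lit 133726208) (nat_lit 242974720)) (I.mix (nat_lit 104792064) (nat_lit 42123264)) (I.mix (nat_lit 115933184) (nat_lit 61587456)) (I.mix (nat_lit 129286144) (nat_lit 65536000)))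
  false (nat_lit 0)
def t0 : BTr := (BTr.n (BTr.n (BTr.n (BTr.b b0_0) (BTr.b b0_1)) (BTr.n (BTr.b b0_2) (BTr.b b0_3))) (BTr.n (BTr.n (BTr.b b0_4) (BTr.b b0_5)) (BTr.n (BTr.b b0_6) (BTr.b b0_7))))
namespace T0
def l0 : Tr := Tr.L (Pth.l (Pth.l (Pth.l Pth.z)))
def l1 : Tr := Tr.L (Pth.l (Pth.l (Pth.r Pth.z)))
def l2 : Tr := Tr.L (Pth.l (Pth.r (Pth.l Pth.z)))
def l3 : Tr := Tr.L (Pth.l (Pth.r (Pth.r Pth.z)))
def l4 : Tr := Tr.L (Pth.r (Pth.l (Pth.l Pth.z)))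
def l5 : Tr := Tr.L (Pth.r (Pth.l (Pth.r Pth.z)))
def l6 : Tr := Tr.L (Pth.r (Pth.r (Pth.l Pth.z)))
def l7 : Tr := Tr.L (Pth.r (Pth.r (Pth.r Pth.z)))
end T0
def b1_0 : Bx := Bx.mk (St.mk (I.pos (nat_lit 156991488) (nat_lit 282198016)) (I.mix (nat_lit 23969792) (nat_lit 51347456)) (I.mix (nat_lit 61964288) (nat_lit 90980352)) (I.pos (nat_lit 90062848) (nat_lit 318373888)) (I.mix (nat_lit 81395712) (nat_lit 48054272)) (I.mix (nat_lit 71139328) (nat_lit 45039616)) (I.mix (nat_lit 113131520) (nat_lit 62455808)))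
  false (nat_lit 0)
def b1_1 : Bx := Bx.mk (St.mk (I.mix (nat_lit 9535488) (nat_lit 142950400)) (I.mix (nat_lit 7045120) (nat_lit 23691264)) (I.mix (nat_lit 11124736) (nat_lit 20676608)) (I.mix (nat_lit 3211264) (nat_lit 91111424)) (I.mix (nat_lit 21250048) (nat_lit 17580032)) (I.mix (nat_lit 22265856) (nat_lit 12615680)) (I.mix (nat_lit 19562496) (nat_lit 10534912)))
  false (nat_lit 0)
def b1_2 : Bx := Bx.mk (St.mk (I.pos (nat_lit 118079488) (nat_lit 161202176)) (I.mix (nat_lit 49119232) (nat_lit 7110656)) (I.mix (nat_lit 53870592) (nat_lit 4734976)) (I.pos (nat_lit 53608448) (nat_lit 112148480)) (I.mix (nat_lit 69763072) (nat_lit 18792448)) (I.mix (nat_lit 30588928) (nat_lit 74547200)) (I.mix (nat_lit 26066944) (nat_lit 69435392)))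
  false (nat_lit 0)
def b1_3 : Bx := Bx.mk (St.mk (I.mix (nat_lit 12779520) (nat_lit 106905600)) (I.mix (nat_lit 22380544) (nat_lit 2179072)) (I.mix (nat_lit 17563648) (nat_lit 1064960)) (I.mix (nat_lit 2244608) (nat_lit 58048512)) (I.mix (nat_lit 24952832) (nat_lit 9027584)) (I.mix (nat_lit 11796480) (nat_lit 23969792)) (I.mix (nat_lit 7159808) (nat_lit 15138816)))
  false (nat_lit 0)
def b1_4 : Bx := Bx.mk (St.mk (I.pos (nat_lit 128761856) (nat_lit 185188352)) (I.neg (nat_lit 3571712) (nat_lit 51920896)) (I.neg (nat_lit 2408448) (nat_lit 53903360)) (I.pos (nat_lit 75530240) (nat_lit 145162240)) (I.mix (nat_lit 52838400) (nat_lit 29360128)) (I.mix (nat_lit 30310400) (nat_lit 47775744)) (I.mix (nat_lit 26984448) (nat_lit 49823744)))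
  false (nat_lit 0)
def b1_5 : Bx := Bx.mk (St.mk (I.pos (nat_lit 39059456) (nat_lit 115523584)) (I.mix (nat_lit 25214976) (nat_lit 3604480)) (I.mix (nat_lit 19333120) (nat_lit 1556480)) (I.pos (nat_lit 7487488) (nat_lit 66437120)) (I.mix (nat_lit 22200320) (nat_lit 14630912)) (I.mix (nat_lit 11616256) (nat_lit 20365312)) (I.mix (nat_lit 7585792) (nat_lit 14680064)))
  false (nat_lit 0)
def b1_6 : Bx := Bx.mk (St.mk (I.pos (nat_lit 161251328) (nat_lit 222363648)) (I.mix (nat_lit 38518784) (nat_lit 54575104)) (I.mix (nat_lit 40976384) (nat_lit 88915968)) (I.pos (nat_lit 101449728) (nat_lit 198918144)) (I.mix (nat_lit 103104512) (nat_lit 37863424)) (I.mix (nat_lit 120963072) (nat_lit 57196544)) (I.mix (nat_lit 152371200) (nat_lit 65011712)))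
  false (nat_lit 0)
def b1_7 : Bx := Bx.mk (St.mk (I.mix (nat_lit 13500416) (nat_lit 135200768)) (I.mix (nat_lit 12828672) (nat_lit 30097408)) (I.mix (nat_lit 10878976) (nat_lit 24625152)) (I.mix (nat_lit 2949120) (nat_lit 81969152)) (I.mix (nat_lit 37470208) (nat_lit 16089088)) (I.mix (nat_lit 37961728) (nat_lit 20480000)) (I.mix (nat_lit 27738112) (nat_lit 14073856)))
  false (nat_lit 0)
def t1 : BTr := (BTr.n (BTr.n (BTr.n (BTr.b b1_0) (BTr.b b1_1)) (BTr.n (BTr.b b1_2) (BTr.b b1_3))) (BTr.n (BTr.n (BTr.b b1_4) (BTr.b b1_5)) (BTr.n (BTr.b b1_6) (BTr.b b1_7))))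
namespace T1
def l0 : Tr := Tr.L (Pth.l (Pth.l (Pth.l Pth.z)))
def l1 : Tr := Tr.L (Pth.l (Pth.l (Pth.r Pth.z)))
def l2 : Tr := Tr.L (Pth.l (Pth.r (Pth.l Pth.z)))
def l3 : Tr := Tr.L (Pth.l (Pth.r (Pth.r Pth.z)))
def l4 : Tr := Tr.L (Pth.r (Pth.l (Pth.l Pth.z)))
def l5 : Tr := Tr.L (Pth.r (Pth.l (Pth.r Pth.z)))
def l6 : Tr := Tr.L (Pth.r (Pth.r (Pth.l Pth.z)))
def l7 : Tr := Tr.L (Pth.r (Pth.r (Pth.r Pth.z)))
end T1
def b2_0 : Bx := Bx.mk (St.mk (I.pos (nat_lit 156975104) (nat_lit 282804224)) (I.mix (nat_lit 25919488) (nat_lit 62701568)) (I.mix (nat_lit 96419840) (nat_lit 88489984)) (I.pos (nat_lit 180518912) (nat_lit 388841472)) (I.mix (nat_lit 85147648) (nat_lit 55902208)) (I.mix (nat_lit 72187904) (nat_lit 44515328)) (I.mix (nat_lit 108871680) (nat_lit 66846720)))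
  false (nat_lit 0)
def b2_1 : Bx := Bx.mk (St.mk (I.mix (nat_lit 27443200) (nat_lit 98140160)) (I.mix (nat_lit 8667136) (nat_lit 37126144)) (I.mix (nat_lit 20971520) (nat_lit 11517952)) (I.pos (nat_lit 82722816) (nat_lit 124567552)) (I.mix (nat_lit 24281088) (nat_lit 28409856)) (I.mix (nat_lit 29491200) (nat_lit 17629184)) (I.mix (nat_lit 19251200) (nat_lit 10371072)))
  false (nat_lit 0)
def b2_2 : Bx := Bx.mk (St.mk (I.pos (nat_lit 81248256) (nat_lit 123879424)) (I.mix (nat_lit 58343424) (nat_lit 9535488)) (I.neg (nat_lit 5210112) (nat_lit 57524224)) (I.pos (nat_lit 113885184) (nat_lit 147128320)) (I.mix (nat_lit 64716800) (nat_lit 19529728)) (I.mix (nat_lit 29114368) (nat_lit 58228736)) (I.mix (nat_lit 21626880) (nat_lit 42844160)))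
  false (nat_lit 0)
def b2_3 : Bx := Bx.mk (St.mk (I.mix (nat_lit 47808512) (nat_lit 25968640)) (I.mix (nat_lit 33177600) (nat_lit 6946816)) (I.mix (nat_lit 14516224) (nat_lit 557056)) (I.pos (nat_lit 83197952) (nat_lit 99172352)) (I.mix (nat_lit 24723456) (nat_lit 14630912)) (I.mix (nat_lit 13697024) (nat_lit 24625152)) (I.mix (nat_lit 9027584) (nat_lit 5341184)))
  false (nat_lit 0)
def b2_4 : Bx := Bx.mk (St.mk (I.pos (nat_lit 97517568) (nat_lit 159350784)) (I.neg (nat_lit 8290304) (nat_lit 60112896)) (I.neg (nat_lit 7962624) (nat_lit 58834944)) (I.pos (nat_lit 130187264) (nat_lit 184893440)) (I.mix (nat_lit 60112896) (nat_lit 32325632)) (I.mix (nat_lit 25886720) (nat_lit 54427648)) (I.mix (nat_lit 21135360) (nat_lit 47890432)))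
  false (nat_lit 0)
def b2_5 : Bx := Bx.mk (St.mk (I.mix (nat_lit 29868032) (nat_lit 45481984)) (I.mix (nat_lit 33800192) (nat_lit 4194304)) (I.neg (nat_lit 606208) (nat_lit 16400384)) (I.pos (nat_lit 82411520) (nat_lit 99778560)) (I.mix (nat_lit 21938176) (nat_lit 20250624)) (I.mix (nat_lit 14663680) (nat_lit 26443776)) (I.mix (nat_lit 6946816) (nat_lit 9568256)))
  false (nat_lit 0)
def b2_6 : Bx := Bx.mk (St.mk (I.pos (nat_lit 145850368) (nat_lit 214597632)) (I.mix (nat_lit 36012032) (nat_lit 69500928)) (I.mix (nat_lit 37797888) (nat_lit 92913664)) (I.pos (nat_lit 170868736) (nat_lit 259440640)) (I.mix (nat_lit 107937792) (nat_lit 42156032)) (I.mix (nat_lit 115064832) (nat_lit 57688064)) (I.mix (nat_lit 116277248) (nat_lit 55312384)))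
  false (nat_lit 0)
def b2_7 : Bx := Bx.mk (St.mk (I.mix (nat_lit 46792704) (nat_lit 73596928)) (I.mix (nat_lit 4194304) (nat_lit 35815424)) (I.mix (nat_lit 16400384) (nat_lit 10076160)) (I.pos (nat_lit 82411520) (nat_lit 109641728)) (I.mix (nat_lit 26214400) (nat_lit 21938176)) (I.mix (nat_lit 29589504) (nat_lit 16531456)) (I.mix (nat_lit 11272192) (nat_lit 9568256)))
  false (nat_lit 0)
def t2 : BTr := (BTr.n (BTr.n (BTr.n (BTr.b b2_0) (BTr.b b2_1)) (BTr.n (BTr.b b2_2) (BTr.b b2_3))) (BTr.n (BTr.n (BTr.b b2_4) (BTr.b b2_5)) (BTr.n (BTr.b b2_6) (BTr.b b2_7))))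
namespace T2
def l0 : Tr := Tr.L (Pth.l (Pth.l (Pth.l Pth.z)))
def l1 : Tr := Tr.L (Pth.l (Pth.l (Pth.r Pth.z)))
def l2 : Tr := Tr.L (Pth.l (Pth.r (Pth.l Pth.z)))
def l3 : Tr := Tr.L (Pth.l (Pth.r (Pth.r Pth.z)))
def l4 : Tr := Tr.L (Pth.r (Pth.l (Pth.l Pth.z)))
def l5 : Tr := Tr.L (Pth.r (Pth.l (Pth.r Pth.z)))
def l6 : Tr := Tr.L (Pth.r (Pth.r (Pth.l Pth.z)))
def l7 : Tr := Tr.L (Pth.r (Pth.r (Pth.r Pth.z)))
end T2
def b3_0 : Bx := Bx.mk (St.mk (I.pos (nat_lit 156991488) (nat_lit 281985024)) (I.mix (nat_lit 18694144) (nat_lit 48644096)) (I.mix (nat_lit 33865728) (nat_lit 96272384)) (I.pos (nat_lit 89866240) (nat_lit 314523648)) (I.mix (nat_lit 76038144) (nat_lit 52232192)) (I.mix (nat_lit 79462400) (nat_lit 50675712)) (I.mix (nat_lit 124878848) (nat_lit 68730880)))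
  false (nat_lit 0)
def b3_1 : Bx := Bx.mk (St.mk (I.pos (nat_lit 129630208) (nat_lit 186875904)) (I.neg (nat_lit 4898816) (nat_lit 51789824)) (I.mix (nat_lit 48447488) (nat_lit 4210688)) (I.pos (nat_lit 76709888) (nat_lit 146866176)) (I.mix (nat_lit 50053120) (nat_lit 27803648)) (I.mix (nat_lit 28065792) (nat_lit 42106880)) (I.mix (nat_lit 24166400) (nat_lit 43548672)))
  false (nat_lit 0)
def b3_2 : Bx := Bx.mk (St.mk (I.mix (nat_lit 9273344) (nat_lit 118046720)) (I.mix (nat_lit 24772608) (nat_lit 3080192)) (I.mix (nat_lit 16236544) (nat_lit 5423104)) (I.mix (nat_lit 2523136) (nat_lit 67321856)) (I.mix (nat_lit 19742720) (nat_lit 13565952)) (I.mix (nat_lit 10354688) (nat_lit 17661952)) (I.mix (nat_lit 6914048) (nat_lit 12681216)))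
  false (nat_lit 0)
def b3_3 : Bx := Bx.mk (St.mk (I.pos (nat_lit 160382976) (nat_lit 220250112)) (I.mix (nat_lit 37093376) (nat_lit 54476800)) (I.mix (nat_lit 32161792) (nat_lit 97878016)) (I.pos (nat_lit 102662144) (nat_lit 195084288)) (I.mix (nat_lit 103071744) (nat_lit 40075264)) (I.mix (nat_lit 123109376) (nat_lit 54558720)) (I.mix (nat_lit 158728192) (nat_lit 59949056)))
  false (nat_lit 0)
def b3_4 : Bx := Bx.mk (St.mk (I.mix (nat_lit 13631488) (nat_lit 134201344)) (I.mix (nat_lit 12337152) (nat_lit 29884416)) (I.mix (nat_lit 6995968) (nat_lit 28508160)) (I.mix (nat_lit 2916352) (nat_lit 81002496)) (I.mix (nat_lit 38928384) (nat_lit 15450112)) (I.mix (nat_lit 39616512) (nat_lit 19759104)) (I.mix (nat_lit 30015488) (nat_lit 13189120)))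
  false (nat_lit 0)
def b3_5 : Bx := Bx.mk (St.mk (I.pos (nat_lit 69189632) (nat_lit 139984896)) (I.mix (nat_lit 5881856) (nat_lit 23494656)) (I.mix (nat_lit 5128192) (nat_lit 25051136)) (I.pos (nat_lit 19988480) (nat_lit 89587712)) (I.mix (nat_lit 25788416) (nat_lit 18612224)) (I.mix (nat_lit 25608192) (nat_lit 14909440)) (I.mix (nat_lit 22560768) (nat_lit 12025856)))
  false (nat_lit 0)
def b3_6 : Bx := Bx.mk (St.mk (I.pos (nat_lit 118521856) (nat_lit 162365440)) (I.mix (nat_lit 49577984) (nat_lit 7208960)) (I.mix (nat_lit 48676864) (nat_lit 9863168)) (I.pos (nat_lit 54132736) (nat_lit 113836032)) (I.mix (nat_lit 63160320) (nat_lit 20725760)) (I.mix (nat_lit 28508160) (nat_lit 64634880)) (I.mix (nat_lit 24608768) (nat_lit 58310656)))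
  false (nat_lit 0)
def b3_7 : Bx := Bx.mk (St.mk (I.pos (nat_lit 39141376) (nat_lit 106381312)) (I.mix (nat_lit 22675456) (nat_lit 311296)) (I.mix (nat_lit 14761984) (nat_lit 737280)) (I.pos (nat_lit 4521984) (nat_lit 58408960)) (I.mix (nat_lit 23756800) (nat_lit 9650176)) (I.mix (nat_lit 12107776) (nat_lit 22773760)) (I.mix (nat_lit 7454720) (nat_lit 13926400)))
  false (nat_lit 0)
def t3 : BTr := (BTr.n (BTr.n (BTr.n (BTr.b b3_0) (BTr.b b3_1)) (BTr.n (BTr.b b3_2) (BTr.b b3_3))) (BTr.n (BTr.n (BTr.b b3_4) (BTr.b b3_5)) (BTr.n (BTr.b b3_6) (BTr.b b3_7))))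
namespace T3
def l0 : Tr := Tr.L (Pth.l (Pth.l (Pth.l Pth.z)))
def l1 : Tr := Tr.L (Pth.l (Pth.l (Pth.r Pth.z)))
def l2 : Tr := Tr.L (Pth.l (Pth.r (Pth.l Pth.z)))
def l3 : Tr := Tr.L (Pth.l (Pth.r (Pth.r Pth.z)))
def l4 : Tr := Tr.L (Pth.r (Pth.l (Pth.l Pth.z)))
def l5 : Tr := Tr.L (Pth.r (Pth.l (Pth.r Pth.z)))
def l6 : Tr := Tr.L (Pth.r (Pth.r (Pth.l Pth.z)))
def l7 : Tr := Tr.L (Pth.r (Pth.r (Pth.r Pth.z)))
end T3
def b4_0 : Bx := Bx.mk (St.mk (I.pos (nat_lit 157106176) (nat_lit 278380544)) (I.mix (nat_lit 14598144) (nat_lit 59375616)) (I.mix (nat_lit 43679744) (nat_lit 103792640)) (I.pos (nat_lit 179765248) (nat_lit 375734272)) (I.mix (nat_lit 88866816) (nat_lit 57622528)) (I.mix (nat_lit 89423872) (nat_lit 48791552)) (I.mix (nat_lit 130760704) (nat_lit 64782336)))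
  false (nat_lit 35420211)
def b4_1 : Bx := Bx.mk (St.mk (I.pos (nat_lit 102531072) (nat_lit 164134912)) (I.neg (nat_lit 8011776) (nat_lit 60719104)) (I.mix (nat_lit 48644096) (nat_lit 9961472)) (I.pos (nat_lit 134070272) (nat_lit 189153280)) (I.mix (nat_lit 54968320) (nat_lit 32227328)) (I.mix (nat_lit 25804800) (nat_lit 47595520)) (I.mix (nat_lit 22069248) (nat_lit 40943616)))
  false (nat_lit 0)
def b4_2 : Bx := Bx.mk (St.mk (I.mix (nat_lit 26935296) (nat_lit 47808512)) (I.mix (nat_lit 33898496) (nat_lit 5750784)) (I.mix (nat_lit 8224768) (nat_lit 7454720)) (I.pos (nat_lit 83001344) (nat_lit 99221504)) (I.mix (nat_lit 18382848) (nat_lit 22364160)) (I.mix (nat_lit 14221312) (nat_lit 23265280)) (I.mix (nat_lit 5816320) (nat_lit 8273920)))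
  false (nat_lit 0)
def b4_3 : Bx := Bx.mk (St.mk (I.pos (nat_lit 142999552) (nat_lit 211337216)) (I.mix (nat_lit 39190528) (nat_lit 67780608)) (I.mix (nat_lit 26918912) (nat_lit 108691456)) (I.pos (nat_lit 168148992) (nat_lit 252755968)) (I.mix (nat_lit 106430464) (nat_lit 40566784)) (I.mix (nat_lit 112377856) (nat_lit 58212352)) (I.mix (nat_lit 119341056) (nat_lit 55328768)))
  false (nat_lit 8570256)
def b4_4 : Bx := Bx.mk (St.mk (I.mix (nat_lit 49119232) (nat_lit 71303168)) (I.mix (nat_lit 10174464) (nat_lit 35979264)) (I.mix (nat_lit 8552448) (nat_lit 18448384)) (I.pos (nat_lit 83001344) (nat_lit 108380160)) (I.mix (nat_lit 28966912) (nat_lit 18382848)) (I.mix (nat_lit 29212672) (nat_lit 16449536)) (I.mix (nat_lit 10944512) (nat_lit 8273920)))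
  false (nat_lit 0)
def b4_5 : Bx := Bx.mk (St.mk (I.mix (nat_lit 29507584) (nat_lit 95485952)) (I.mix (nat_lit 5193728) (nat_lit 36716544)) (I.mix (nat_lit 9158656) (nat_lit 20987904)) (I.pos (nat_lit 82411520) (nat_lit 122667008)) (I.mix (nat_lit 27951104) (nat_lit 25247744)) (I.mix (nat_lit 32587776) (nat_lit 17416192)) (I.mix (nat_lit 20185088) (nat_lit 11583488)))
  false (nat_lit 0)
def b4_6 : Bx := Bx.mk (St.mk (I.pos (nat_lit 83787776) (nat_lit 127139840)) (I.mix (nat_lit 59998208) (nat_lit 6193152)) (I.mix (nat_lit 47611904) (nat_lit 1671168)) (I.pos (nat_lit 115884032) (nat_lit 149405696)) (I.mix (nat_lit 60702720) (nat_lit 21790720)) (I.mix (nat_lit 29196288) (nat_lit 56934400)) (I.mix (nat_lit 21626880) (nat_lit 39010304)))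
  false (nat_lit 0)
def b4_7 : Bx := Bx.mk (St.mk (I.mix (nat_lit 43991040) (nat_lit 28737536)) (I.mix (nat_lit 33210368) (nat_lit 3407872)) (I.mix (nat_lit 6094848) (nat_lit 8323072)) (I.pos (nat_lit 82935808) (nat_lit 99221504)) (I.mix (nat_lit 22102016) (nat_lit 18087936)) (I.mix (nat_lit 14417920) (nat_lit 25247744)) (I.mix (nat_lit 9043968) (nat_lit 5881856)))
  false (nat_lit 0)
def t4 : BTr := (BTr.n (BTr.n (BTr.n (BTr.b b4_0) (BTr.b b4_1)) (BTr.n (BTr.b b4_2) (BTr.b b4_3))) (BTr.n (BTr.n (BTr.b b4_4) (BTr.b b4_5)) (BTr.n (BTr.b b4_6) (BTr.b b4_7))))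
namespace T4
def l0 : Tr := Tr.L (Pth.l (Pth.l (Pth.l Pth.z)))
def l1 : Tr := Tr.L (Pth.l (Pth.l (Pth.r Pth.z)))
def l2 : Tr := Tr.L (Pth.l (Pth.r (Pth.l Pth.z)))
def l3 : Tr := Tr.L (Pth.l (Pth.r (Pth.r Pth.z)))
def l4 : Tr := Tr.L (Pth.r (Pth.l (Pth.l Pth.z)))
def l5 : Tr := Tr.L (Pth.r (Pth.l (Pth.r Pth.z)))
def l6 : Tr := Tr.L (Pth.r (Pth.r (Pth.l Pth.z)))
def l7 : Tr := Tr.L (Pth.r (Pth.r (Pth.r Pth.z)))
end T4
def b5_0 : Bx := Bx.mk (St.mk (I.pos (nat_lit 157106176) (nat_lit 278102016)) (I.mix (nat_lit 13729792) (nat_lit 54411264)) (I.mix (nat_lit 22462464) (nat_lit 107610112)) (I.pos (nat_lit 135823360) (nat_lit 349601792)) (I.mix (nat_lit 87392256) (nat_lit 57737216)) (I.mix (nat_lit 84852736) (nat_lit 52461568)) (I.mix (nat_lit 127827968) (nat_lit 66519040)))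
  false (nat_lit 26673439)
def b5_1 : Bx := Bx.mk (St.mk (I.pos (nat_lit 114130944) (nat_lit 176717824)) (I.neg (nat_lit 6914048) (nat_lit 58638336)) (I.mix (nat_lit 47284224) (nat_lit 14450688)) (I.pos (nat_lit 105283584) (nat_lit 178388992)) (I.mix (nat_lit 52412416) (nat_lit 31817728)) (I.mix (nat_lit 27230208) (nat_lit 42696704)) (I.mix (nat_lit 23625728) (nat_lit 40599552)))
  false (nat_lit 0)
def b5_2 : Bx := Bx.mk (St.mk (I.mix (nat_lit 19841024) (nat_lit 85409792)) (I.mix (nat_lit 32505856) (nat_lit 2850816)) (I.mix (nat_lit 12894208) (nat_lit 10059776)) (I.pos (nat_lit 42008576) (nat_lit 90062848)) (I.mix (nat_lit 20611072) (nat_lit 20480000)) (I.mix (nat_lit 14237696) (nat_lit 21889024)) (I.mix (nat_lit 7471104) (nat_lit 11698176)))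
  false (nat_lit 0)
def b5_3 : Bx := Bx.mk (St.mk (I.pos (nat_lit 149340160) (nat_lit 216252416)) (I.mix (nat_lit 39174144) (nat_lit 62619648)) (I.mix (nat_lit 25395200) (nat_lit 111099904)) (I.pos (nat_lit 133038080) (nat_lit 232620032)) (I.mix (nat_lit 107347968) (nat_lit 38174720)) (I.mix (nat_lit 116916224) (nat_lit 57622528)) (I.mix (nat_lit 140705792) (nat_lit 59031552)))
  false (nat_lit 6424867)
def b5_4 : Bx := Bx.mk (St.mk (I.mix (nat_lit 37306368) (nat_lit 105414656)) (I.mix (nat_lit 13565952) (nat_lit 35536896)) (I.mix (nat_lit 3342336) (nat_lit 30982144)) (I.pos (nat_lit 40976384) (nat_lit 102957056)) (I.mix (nat_lit 39485440) (nat_lit 15089664)) (I.mix (nat_lit 36651008) (nat_lit 20398080)) (I.mix (nat_lit 21397504) (nat_lit 12468224)))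
  false (nat_lit 0)
def b5_5 : Bx := Bx.mk (St.mk (I.mix (nat_lit 19824640) (nat_lit 117374976)) (I.mix (nat_lit 4915200) (nat_lit 31965184)) (I.mix (nat_lit 3244032) (nat_lit 28557312)) (I.pos (nat_lit 41205760) (nat_lit 113147904)) (I.mix (nat_lit 31277056) (nat_lit 22462464)) (I.mix (nat_lit 31752192) (nat_lit 18415616)) (I.mix (nat_lit 22593536) (nat_lit 12861440)))
  false (nat_lit 0)
def b5_6 : Bx := Bx.mk (St.mk (I.pos (nat_lit 97140736) (nat_lit 145539072)) (I.mix (nat_lit 56836096) (nat_lit 6586368)) (I.mix (nat_lit 44482560) (nat_lit 9338880)) (I.pos (nat_lit 81526784) (nat_lit 138100736)) (I.mix (nat_lit 60325888) (nat_lit 24363008)) (I.mix (nat_lit 31047680) (nat_lit 63225856)) (I.mix (nat_lit 22904832) (nat_lit 47562752)))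
  false (nat_lit 0)
def b5_7 : Bx := Bx.mk (St.mk (I.mix (nat_lit 26574848) (nat_lit 70942720)) (I.neg (nat_lit 3571712) (nat_lit 29474816)) (I.mix (nat_lit 10600448) (nat_lit 7815168)) (I.pos (nat_lit 41877504) (nat_lit 81788928)) (I.mix (nat_lit 21659648) (nat_lit 13303808)) (I.mix (nat_lit 13418496) (nat_lit 24084480)) (I.mix (nat_lit 5865472) (nat_lit 9240576)))
  false (nat_lit 0)
def t5 : BTr := (BTr.n (BTr.n (BTr.n (BTr.b b5_0) (BTr.b b5_1)) (BTr.n (BTr.b b5_2) (BTr.b b5_3))) (BTr.n (BTr.n (BTr.b b5_4) (BTr.b b5_5)) (BTr.n (BTr.b b5_6) (BTr.b b5_7))))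
namespace T5
def l0 : Tr := Tr.L (Pth.l (Pth.l (Pth.l Pth.z)))
def l1 : Tr := Tr.L (Pth.l (Pth.l (Pth.r Pth.z)))
def l2 : Tr := Tr.L (Pth.l (Pth.r (Pth.l Pth.z)))
def l3 : Tr := Tr.L (Pth.l (Pth.r (Pth.r Pth.z)))
def l4 : Tr := Tr.L (Pth.r (Pth.l (Pth.l Pth.z)))
def l5 : Tr := Tr.L (Pth.r (Pth.l (Pth.r Pth.z)))
def l6 : Tr := Tr.L (Pth.r (Pth.r (Pth.l Pth.z)))
def l7 : Tr := Tr.L (Pth.r (Pth.r (Pth.r Pth.z)))
end T5
theorem bx0_0 : BoxOK sI cl6 cl7 cl13 t2 t4 b0_0 :=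
  box_mk (TrL.c (I.pos (nat_lit 0) (nat_lit 0)) (xa (xa T2.l0 T2.l0) (xa T2.l0 T2.l0))
  (TrL.c (I.pos (nat_lit 0) (nat_lit 0)) (xa T4.l1 T4.l1)
  (TrL.c (I.pos (nat_lit 0) (nat_lit 89480386)) (xR T2.l1 (xR T2.l1 T2.l1))
  (TrL.c (I.pos (nat_lit 0) (nat_lit 41530880)) T4.l2
  (TrL.c (I.pos (nat_lit 0) (nat_lit 0)) (xa T4.l3 (xb (xa T4.l3 T4.l3) (xa T4.l3 (xs T4.l3 T4.l3))))
  (TrL.c (I.pos (nat_lit 0) (nat_lit 0)) (xa T2.l2 T2.l2)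
  (TrL.c (I.mix (nat_lit 41527258) (nat_lit 41530880)) (xR T4.l4 T4.l4)
  (TrL.c (I.mix (nat_lit 41527258) (nat_lit 4274)) T2.l3
  TrL.n)))))))) (by decide +kernel)
theorem bx0_1 : BoxOK sI cl6 cl7 cl13 t2 t4 b0_1 :=
  box_mk (TrL.c (I.pos (nat_lit 0) (nat_lit 0)) T2.l0
  (TrL.c (I.pos (nat_lit 0) (nat_lit 0)) T4.l1
  (TrL.c (I.pos (nat_lit 0) (nat_lit 89480386)) T2.l1
  (TrL.c (I.pos (nat_lit 0) (nat_lit 41530880)) T4.l2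
  (TrL.c (I.pos (nat_lit 0) (nat_lit 0)) T4.l3
  (TrL.c (I.pos (nat_lit 0) (nat_lit 0)) T2.l2
  (TrL.c (I.mix (nat_lit 41527258) (nat_lit 41530880)) T4.l4
  (TrL.c (I.mix (nat_lit 41527258) (nat_lit 4274)) T2.l3
  TrL.n)))))))) (by decide +kernel)
theorem bx0_2 : BoxOK sI cl6 cl7 cl13 t2 t4 b0_2 :=
  box_mk (TrL.c (I.pos (nat_lit 0) (nat_lit 0)) T2.l0
  (TrL.c (I.pos (nat_lit 0) (nat_lit 0)) T4.l1
  (TrL.c (I.pos (nat_lit 0) (nat_lit 89480386)) (xR T2.l1 T2.l1)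
  (TrL.c (I.pos (nat_lit 0) (nat_lit 41530880)) T4.l2
  (TrL.c (I.pos (nat_lit 0) (nat_lit 0)) T4.l3
  (TrL.c (I.pos (nat_lit 0) (nat_lit 0)) T2.l2
  (TrL.c (I.mix (nat_lit 41527258) (nat_lit 41530880)) T4.l4
  (TrL.c (I.mix (nat_lit 41527258) (nat_lit 4274)) T2.l3
  TrL.n)))))))) (by decide +kernel)
theorem bx0_3 : BoxOK sI cl6 cl7 cl13 t2 t4 b0_3 :=
  box_mk (TrL.c (I.pos (nat_lit 0) (nat_lit 0)) (xa T2.l0 T2.l0)
  (TrL.c (I.pos (nat_lit 0) (nat_lit 0)) T4.l1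
  (TrL.c (I.pos (nat_lit 0) (nat_lit 89480386)) T2.l1
  (TrL.c (I.pos (nat_lit 0) (nat_lit 41530880)) T4.l2
  (TrL.c (I.pos (nat_lit 0) (nat_lit 0)) T4.l3
  (TrL.c (I.pos (nat_lit 0) (nat_lit 0)) T2.l2
  (TrL.c (I.mix (nat_lit 41527258) (nat_lit 41530880)) T4.l4
  (TrL.c (I.mix (nat_lit 41527258) (nat_lit 4274)) T2.l3
  TrL.n)))))))) (by decide +kernel)
theorem bx0_4 : BoxOK sI cl6 cl7 cl13 t2 t4 b0_4 :=
  box_mk (TrL.c (I.pos (nat_lit 0) (nat_lit 0)) T2.l0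
  (TrL.c (I.pos (nat_lit 0) (nat_lit 0)) T4.l1
  (TrL.c (I.pos (nat_lit 0) (nat_lit 89480386)) (xR T2.l1 T2.l1)
  (TrL.c (I.pos (nat_lit 0) (nat_lit 41530880)) T4.l2
  (TrL.c (I.pos (nat_lit 0) (nat_lit 0)) T4.l3
  (TrL.c (I.pos (nat_lit 0) (nat_lit 0)) T2.l2
  (TrL.c (I.mix (nat_lit 41527258) (nat_lit 41530880)) T4.l4
  (TrL.c (I.mix (nat_lit 41527258) (nat_lit 4274)) T2.l3
  TrL.n)))))))) (by decide +kernel)
theorem bx0_5 : BoxOK sI cl6 cl7 cl13 t2 t4 b0_5 :=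
  box_mk (TrL.c (I.pos (nat_lit 0) (nat_lit 0)) T2.l0
  (TrL.c (I.pos (nat_lit 0) (nat_lit 0)) T4.l1
  (TrL.c (I.pos (nat_lit 0) (nat_lit 89480386)) T2.l1
  (TrL.c (I.pos (nat_lit 0) (nat_lit 41530880)) T4.l2
  (TrL.c (I.pos (nat_lit 0) (nat_lit 0)) T4.l3
  (TrL.c (I.pos (nat_lit 0) (nat_lit 0)) T2.l2
  (TrL.c (I.mix (nat_lit 41527258) (nat_lit 41530880)) T4.l4
  (TrL.c (I.mix (nat_lit 41527258) (nat_lit 4274)) T2.l3
  TrL.n)))))))) (by decide +kernel)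
theorem bx0_6 : BoxOK sI cl6 cl7 cl13 t2 t4 b0_6 :=
  box_mk (TrL.c (I.pos (nat_lit 0) (nat_lit 0)) (xa T2.l0 T2.l0)
  (TrL.c (I.pos (nat_lit 0) (nat_lit 0)) T4.l1
  (TrL.c (I.pos (nat_lit 0) (nat_lit 89480386)) T2.l1
  (TrL.c (I.pos (nat_lit 0) (nat_lit 41530880)) T4.l2
  (TrL.c (I.pos (nat_lit 0) (nat_lit 0)) T4.l3
  (TrL.c (I.pos (nat_lit 0) (nat_lit 0)) T2.l2
  (TrL.c (I.mix (nat_lit 41527258) (nat_lit 41530880)) T4.l4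
  (TrL.c (I.mix (nat_lit 41527258) (nat_lit 4274)) T2.l3
  TrL.n)))))))) (by decide +kernel)
theorem bx0_7 : BoxOK sI cl6 cl7 cl13 t2 t4 b0_7 :=
  box_mk (TrL.c (I.pos (nat_lit 0) (nat_lit 0)) (xb (xa T2.l0 T2.l0) (xa T2.l0 T2.l0))
  (TrL.c (I.pos (nat_lit 0) (nat_lit 0)) T4.l1
  (TrL.c (I.pos (nat_lit 0) (nat_lit 89480386)) (xR T2.l1 T2.l1)
  (TrL.c (I.pos (nat_lit 0) (nat_lit 41530880)) T4.l2
  (TrL.c (I.pos (nat_lit 0) (nat_lit 0)) (xb T4.l3 T4.l3)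
  (TrL.c (I.pos (nat_lit 0) (nat_lit 0)) T2.l2
  (TrL.c (I.mix (nat_lit 41527258) (nat_lit 41530880)) (xR T4.l4 T4.l4)
  (TrL.c (I.mix (nat_lit 41527258) (nat_lit 4274)) T2.l3
  TrL.n)))))))) (by decide +kernel)
theorem sv0 : StarV sI cl6 cl7 cl13 t2 t4 t0 :=
  (bt_n (bt_n (bt_n (bt_b bx0_0) (bt_b bx0_1)) (bt_n (bt_b bx0_2) (bt_b bx0_3))) (bt_n (bt_n (bt_b bx0_4) (bt_b bx0_5)) (bt_n (bt_b bx0_6) (bt_b bx0_7))))
def S0 : StarD := StarD.mk cl6 cl7 cl13 2 4 t0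
theorem bx1_0 : BoxOK sI cl6 cl13 cl7 t4 t2 b1_0 :=
  box_mk (TrL.c (I.pos (nat_lit 0) (nat_lit 0)) (xa (xa T4.l0 T4.l0) (xa T4.l0 T4.l0))
  (TrL.c (I.pos (nat_lit 0) (nat_lit 0)) (xa T2.l4 T2.l4)
  (TrL.c (I.pos (nat_lit 0) (nat_lit 89480386)) (xR T4.l5 (xR T4.l5 T4.l5))
  (TrL.c (I.pos (nat_lit 0) (nat_lit 41530880)) T2.l5
  (TrL.c (I.pos (nat_lit 0) (nat_lit 0)) (xa T2.l6 (xb (xa T2.l6 T2.l6) (xa T2.l6 T2.l6)))
  (TrL.c (I.pos (nat_lit 0) (nat_lit 0)) (xa T4.l6 T4.l6)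
  (TrL.c (I.mix (nat_lit 41527258) (nat_lit 41530880)) (xR T2.l7 T2.l7)
  (TrL.c (I.mix (nat_lit 41527258) (nat_lit 4274)) T4.l7
  TrL.n)))))))) (by decide +kernel)
theorem bx1_1 : BoxOK sI cl6 cl13 cl7 t4 t2 b1_1 :=
  box_mk (TrL.c (I.pos (nat_lit 0) (nat_lit 0)) (xa T4.l0 T4.l0)
  (TrL.c (I.pos (nat_lit 0) (nat_lit 0)) (xa T2.l4 T2.l4)
  (TrL.c (I.pos (nat_lit 0) (nat_lit 89480386)) (xR T4.l5 T4.l5)
  (TrL.c (I.pos (nat_lit 0) (nat_lit 41530880)) T2.l5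
  (TrL.c (I.pos (nat_lit 0) (nat_lit 0)) (xa T2.l6 T2.l6)
  (TrL.c (I.pos (nat_lit 0) (nat_lit 0)) T4.l6
  (TrL.c (I.mix (nat_lit 41527258) (nat_lit 41530880)) (xR T2.l7 T2.l1)
  (TrL.c (I.mix (nat_lit 41527258) (nat_lit 4274)) T4.l7
  TrL.n)))))))) (by decide +kernel)
theorem bx1_2 : BoxOK sI cl6 cl13 cl7 t4 t2 b1_2 :=
  box_mk (TrL.c (I.pos (nat_lit 0) (nat_lit 0)) T4.l0
  (TrL.c (I.pos (nat_lit 0) (nat_lit 0)) T2.l4
  (TrL.c (I.pos (nat_lit 0) (nat_lit 89480386)) (xR T4.l5 T4.l5)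
  (TrL.c (I.pos (nat_lit 0) (nat_lit 41530880)) T2.l5
  (TrL.c (I.pos (nat_lit 0) (nat_lit 0)) T2.l6
  (TrL.c (I.pos (nat_lit 0) (nat_lit 0)) T4.l6
  (TrL.c (I.mix (nat_lit 41527258) (nat_lit 41530880)) T2.l7
  (TrL.c (I.mix (nat_lit 41527258) (nat_lit 4274)) T4.l7
  TrL.n)))))))) (by decide +kernel)
theorem bx1_3 : BoxOK sI cl6 cl13 cl7 t4 t2 b1_3 :=
  box_mk (TrL.c (I.pos (nat_lit 0) (nat_lit 0)) (xa T4.l0 T4.l0)
  (TrL.c (I.pos (nat_lit 0) (nat_lit 0)) T2.l4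
  (TrL.c (I.pos (nat_lit 0) (nat_lit 89480386)) T4.l5
  (TrL.c (I.pos (nat_lit 0) (nat_lit 41530880)) T2.l5
  (TrL.c (I.pos (nat_lit 0) (nat_lit 0)) T2.l6
  (TrL.c (I.pos (nat_lit 0) (nat_lit 0)) T4.l6
  (TrL.c (I.mix (nat_lit 41527258) (nat_lit 41530880)) (xR T2.l7 T2.l1)
  (TrL.c (I.mix (nat_lit 41527258) (nat_lit 4274)) T4.l7
  TrL.n)))))))) (by decide +kernel)
theorem bx1_4 : BoxOK sI cl6 cl13 cl7 t4 t2 b1_4 :=
  box_mk (TrL.c (I.pos (nat_lit 0) (nat_lit 0)) T4.l0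
  (TrL.c (I.pos (nat_lit 0) (nat_lit 0)) T2.l4
  (TrL.c (I.pos (nat_lit 0) (nat_lit 89480386)) (xR T4.l5 T4.l5)
  (TrL.c (I.pos (nat_lit 0) (nat_lit 41530880)) T2.l5
  (TrL.c (I.pos (nat_lit 0) (nat_lit 0)) T2.l6
  (TrL.c (I.pos (nat_lit 0) (nat_lit 0)) T4.l6
  (TrL.c (I.mix (nat_lit 41527258) (nat_lit 41530880)) T2.l7
  (TrL.c (I.mix (nat_lit 41527258) (nat_lit 4274)) T4.l7
  TrL.n)))))))) (by decide +kernel)
theorem bx1_5 : BoxOK sI cl6 cl13 cl7 t4 t2 b1_5 :=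
  box_mk (TrL.c (I.pos (nat_lit 0) (nat_lit 0)) T4.l0
  (TrL.c (I.pos (nat_lit 0) (nat_lit 0)) T2.l4
  (TrL.c (I.pos (nat_lit 0) (nat_lit 89480386)) T4.l5
  (TrL.c (I.pos (nat_lit 0) (nat_lit 41530880)) T2.l5
  (TrL.c (I.pos (nat_lit 0) (nat_lit 0)) T2.l6
  (TrL.c (I.pos (nat_lit 0) (nat_lit 0)) T4.l6
  (TrL.c (I.mix (nat_lit 41527258) (nat_lit 41530880)) T2.l7
  (TrL.c (I.mix (nat_lit 41527258) (nat_lit 4274)) T4.l7
  TrL.n)))))))) (by decide +kernel)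
theorem bx1_6 : BoxOK sI cl6 cl13 cl7 t4 t2 b1_6 :=
  box_mk (TrL.c (I.pos (nat_lit 0) (nat_lit 0)) (xb T4.l0 (xa T4.l0 T4.l0))
  (TrL.c (I.pos (nat_lit 0) (nat_lit 0)) T2.l4
  (TrL.c (I.pos (nat_lit 0) (nat_lit 89480386)) (xR T4.l5 T4.l5)
  (TrL.c (I.pos (nat_lit 0) (nat_lit 41530880)) T2.l5
  (TrL.c (I.pos (nat_lit 0) (nat_lit 0)) (xb T2.l6 T2.l6)
  (TrL.c (I.pos (nat_lit 0) (nat_lit 0)) T4.l6
  (TrL.c (I.mix (nat_lit 41527258) (nat_lit 41530880)) (xR T2.l7 T2.l7)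
  (TrL.c (I.mix (nat_lit 41527258) (nat_lit 4274)) T4.l7
  TrL.n)))))))) (by decide +kernel)
theorem bx1_7 : BoxOK sI cl6 cl13 cl7 t4 t2 b1_7 :=
  box_mk (TrL.c (I.pos (nat_lit 0) (nat_lit 0)) (xa T4.l0 T4.l0)
  (TrL.c (I.pos (nat_lit 0) (nat_lit 0)) (xa T2.l4 T2.l4)
  (TrL.c (I.pos (nat_lit 0) (nat_lit 89480386)) (xR T4.l5 T4.l5)
  (TrL.c (I.pos (nat_lit 0) (nat_lit 41530880)) T2.l5
  (TrL.c (I.pos (nat_lit 0) (nat_lit 0)) (xa T2.l6 T2.l6)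
  (TrL.c (I.pos (nat_lit 0) (nat_lit 0)) T4.l6
  (TrL.c (I.mix (nat_lit 41527258) (nat_lit 41530880)) (xR T2.l7 T2.l1)
  (TrL.c (I.mix (nat_lit 41527258) (nat_lit 4274)) T4.l7
  TrL.n)))))))) (by decide +kernel)
theorem sv1 : StarV sI cl6 cl13 cl7 t4 t2 t1 :=
  (bt_n (bt_n (bt_n (bt_b bx1_0) (bt_b bx1_1)) (bt_n (bt_b bx1_2) (bt_b bx1_3))) (bt_n (bt_n (bt_b bx1_4) (bt_b bx1_5)) (bt_n (bt_b bx1_6) (bt_b bx1_7))))
def S1 : StarD := StarD.mk cl6 cl13 cl7 4 2 t1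
theorem bx2_0 : BoxOK sI cl7 cl6 cl13 t0 t5 b2_0 :=
  box_mk (TrL.c (I.pos (nat_lit 0) (nat_lit 0)) (xa (xa T0.l0 T0.l0) (xa T0.l0 T0.l0))
  (TrL.c (I.pos (nat_lit 0) (nat_lit 0)) (xa T5.l1 (xk T5.l1 T5.l1))
  (TrL.c (I.pos (nat_lit 0) (nat_lit 111196574)) (xR T0.l1 (xR T0.l1 T0.l1))
  (TrL.c (I.pos (nat_lit 0) (nat_lit 77433728)) (xR T5.l2 T5.l2)
  (TrL.c (I.pos (nat_lit 0) (nat_lit 0)) (xa (xb T5.l3 T5.l3) (xb (xk (xa T5.l3 (xb T5.l3 T5.l3)) (xa T5.l3 (xb T5.l3 T5.l3))) (xk (xa T5.l3 (xs (xk T5.l3 T5.l3) (xk T5.l3 T5.l3))) (xa T5.l3 (xs (xk T5.l3 T5.l3) (xk T5.l3 T5.l3))))))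
  (TrL.c (I.pos (nat_lit 0) (nat_lit 0)) (xa T0.l2 T0.l2)
  (TrL.c (I.mix (nat_lit 29511666) (nat_lit 77433728)) (xR T5.l4 (xR T5.l4 T5.l4))
  (TrL.c (I.mix (nat_lit 29511666) (nat_lit 46070178)) (xR T0.l3 T0.l5)
  TrL.n)))))))) (by decide +kernel)
theorem bx2_1 : BoxOK sI cl7 cl6 cl13 t0 t5 b2_1 :=
  box_mk (TrL.c (I.pos (nat_lit 0) (nat_lit 0)) T0.l0
  (TrL.c (I.pos (nat_lit 0) (nat_lit 0)) T5.l1
  (TrL.c (I.pos (nat_lit 0) (nat_lit 111196574)) T0.l1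
  (TrL.c (I.pos (nat_lit 0) (nat_lit 77433728)) (xR T5.l2 T5.l2)
  (TrL.c (I.pos (nat_lit 0) (nat_lit 0)) T5.l3
  (TrL.c (I.pos (nat_lit 0) (nat_lit 0)) T0.l2
  (TrL.c (I.mix (nat_lit 29511666) (nat_lit 77433728)) T5.l4
  (TrL.c (I.mix (nat_lit 29511666) (nat_lit 46070178)) T0.l3
  TrL.n)))))))) (by decide +kernel)
theorem bx2_2 : BoxOK sI cl7 cl6 cl13 t0 t5 b2_2 :=
  box_mk (TrL.c (I.pos (nat_lit 0) (nat_lit 0)) T0.l0
  (TrL.c (I.pos (nat_lit 0) (nat_lit 0)) T5.l1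
  (TrL.c (I.pos (nat_lit 0) (nat_lit 111196574)) T0.l1
  (TrL.c (I.pos (nat_lit 0) (nat_lit 77433728)) T5.l2
  (TrL.c (I.pos (nat_lit 0) (nat_lit 0)) T5.l3
  (TrL.c (I.pos (nat_lit 0) (nat_lit 0)) T0.l2
  (TrL.c (I.mix (nat_lit 29511666) (nat_lit 77433728)) T5.l4
  (TrL.c (I.mix (nat_lit 29511666) (nat_lit 46070178)) T0.l3
  TrL.n)))))))) (by decide +kernel)
theorem bx2_3 : BoxOK sI cl7 cl6 cl13 t0 t5 b2_3 :=
  box_mk (TrL.c (I.pos (nat_lit 0) (nat_lit 0)) (xa (xb T0.l0 T0.l0) T0.l0)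
  (TrL.c (I.pos (nat_lit 0) (nat_lit 0)) T5.l3
  (TrL.c (I.pos (nat_lit 0) (nat_lit 111196574)) T0.l1
  (TrL.c (I.pos (nat_lit 0) (nat_lit 77433728)) T5.l4
  (TrL.c (I.pos (nat_lit 0) (nat_lit 0)) T5.l3
  (TrL.c (I.pos (nat_lit 0) (nat_lit 0)) T0.l1
  (TrL.c (I.mix (nat_lit 29511666) (nat_lit 77433728)) T5.l4
  (TrL.c (I.mix (nat_lit 29511666) (nat_lit 46070178)) T0.l3
  TrL.n)))))))) (by decide +kernel)
theorem bx2_4 : BoxOK sI cl7 cl6 cl13 t0 t5 b2_4 :=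
  box_mk (TrL.c (I.pos (nat_lit 0) (nat_lit 0)) T0.l0
  (TrL.c (I.pos (nat_lit 0) (nat_lit 0)) T5.l1
  (TrL.c (I.pos (nat_lit 0) (nat_lit 111196574)) (xR T0.l1 T0.l1)
  (TrL.c (I.pos (nat_lit 0) (nat_lit 77433728)) (xR T5.l2 T5.l2)
  (TrL.c (I.pos (nat_lit 0) (nat_lit 0)) T5.l3
  (TrL.c (I.pos (nat_lit 0) (nat_lit 0)) T0.l2
  (TrL.c (I.mix (nat_lit 29511666) (nat_lit 77433728)) T5.l4
  (TrL.c (I.mix (nat_lit 29511666) (nat_lit 46070178)) T0.l3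
  TrL.n)))))))) (by decide +kernel)
theorem bx2_5 : BoxOK sI cl7 cl6 cl13 t0 t5 b2_5 :=
  box_mk (TrL.c (I.pos (nat_lit 0) (nat_lit 0)) T0.l0
  (TrL.c (I.pos (nat_lit 0) (nat_lit 0)) T5.l1
  (TrL.c (I.pos (nat_lit 0) (nat_lit 111196574)) T0.l1
  (TrL.c (I.pos (nat_lit 0) (nat_lit 77433728)) T5.l4
  (TrL.c (I.pos (nat_lit 0) (nat_lit 0)) T5.l3
  (TrL.c (I.pos (nat_lit 0) (nat_lit 0)) T0.l2
  (TrL.c (I.mix (nat_lit 29511666) (nat_lit 77433728)) T5.l4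
  (TrL.c (I.mix (nat_lit 29511666) (nat_lit 46070178)) T0.l3
  TrL.n)))))))) (by decide +kernel)
theorem bx2_6 : BoxOK sI cl7 cl6 cl13 t0 t5 b2_6 :=
  box_mk (TrL.c (I.pos (nat_lit 0) (nat_lit 0)) (xb T0.l0 (xa T0.l0 T0.l0))
  (TrL.c (I.pos (nat_lit 0) (nat_lit 0)) (xb T5.l1 T5.l1)
  (TrL.c (I.pos (nat_lit 0) (nat_lit 111196574)) (xR T0.l1 (xR T0.l1 T0.l1))
  (TrL.c (I.pos (nat_lit 0) (nat_lit 77433728)) (xR T5.l2 T5.l2)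
  (TrL.c (I.pos (nat_lit 0) (nat_lit 0)) (xb (xa T5.l3 (xk T5.l3 T5.l3)) (xa T5.l3 T5.l3))
  (TrL.c (I.pos (nat_lit 0) (nat_lit 0)) T0.l2
  (TrL.c (I.mix (nat_lit 29511666) (nat_lit 77433728)) (xR T5.l4 (xR T5.l4 T5.l4))
  (TrL.c (I.mix (nat_lit 29511666) (nat_lit 46070178)) (xR T0.l3 T0.l5)
  TrL.n)))))))) (by decide +kernel)
theorem bx2_7 : BoxOK sI cl7 cl6 cl13 t0 t5 b2_7 :=
  box_mk (TrL.c (I.pos (nat_lit 0) (nat_lit 0)) (xa T0.l0 T0.l0)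
  (TrL.c (I.pos (nat_lit 0) (nat_lit 0)) T5.l1
  (TrL.c (I.pos (nat_lit 0) (nat_lit 111196574)) T0.l1
  (TrL.c (I.pos (nat_lit 0) (nat_lit 77433728)) (xR T5.l4 T5.l2)
  (TrL.c (I.pos (nat_lit 0) (nat_lit 0)) T5.l3
  (TrL.c (I.pos (nat_lit 0) (nat_lit 0)) T0.l2
  (TrL.c (I.mix (nat_lit 29511666) (nat_lit 77433728)) T5.l4
  (TrL.c (I.mix (nat_lit 29511666) (nat_lit 46070178)) T0.l3
  TrL.n)))))))) (by decide +kernel)
theorem sv2 : StarV sI cl7 cl6 cl13 t0 t5 t2 :=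
  (bt_n (bt_n (bt_n (bt_b bx2_0) (bt_b bx2_1)) (bt_n (bt_b bx2_2) (bt_b bx2_3))) (bt_n (bt_n (bt_b bx2_4) (bt_b bx2_5)) (bt_n (bt_b bx2_6) (bt_b bx2_7))))
def S2 : StarD := StarD.mk cl7 cl6 cl13 0 5 t2
theorem bx3_0 : BoxOK sI cl7 cl13 cl6 t5 t0 b3_0 :=
  box_mk (TrL.c (I.pos (nat_lit 0) (nat_lit 0)) (xa (xa T5.l0 T5.l0) (xa T5.l0 T5.l0))
  (TrL.c (I.pos (nat_lit 0) (nat_lit 0)) (xa (xa T0.l4 T0.l4) (xa T0.l4 T0.l2))
  (TrL.c (I.pos (nat_lit 0) (nat_lit 111196574)) (xR (xR T5.l4 T5.l5) (xR T5.l5 T5.l5))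
  (TrL.c (I.pos (nat_lit 0) (nat_lit 77433728)) (xR T0.l5 T0.l5)
  (TrL.c (I.pos (nat_lit 0) (nat_lit 0)) (xa T0.l7 (xa (xb T0.l7 T0.l7) (xk (xb (xa T0.l7 T0.l7) (xk (xa T0.l7 T0.l7) T0.l7)) (xb (xa T0.l7 T0.l7) (xk T0.l7 T0.l7)))))
  (TrL.c (I.pos (nat_lit 0) (nat_lit 0)) (xk (xa T5.l6 T5.l6) (xa T5.l6 T5.l6))
  (TrL.c (I.mix (nat_lit 29511666) (nat_lit 77433728)) (xR T0.l6 (xR T0.l6 T0.l6))
  (TrL.c (I.mix (nat_lit 29511666) (nat_lit 46070178)) (xR T5.l7 T5.l7)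
  TrL.n)))))))) (by decide +kernel)
theorem bx3_1 : BoxOK sI cl7 cl13 cl6 t5 t0 b3_1 :=
  box_mk (TrL.c (I.pos (nat_lit 0) (nat_lit 0)) T5.l0
  (TrL.c (I.pos (nat_lit 0) (nat_lit 0)) T0.l4
  (TrL.c (I.pos (nat_lit 0) (nat_lit 111196574)) (xR T5.l5 T5.l5)
  (TrL.c (I.pos (nat_lit 0) (nat_lit 77433728)) (xR T0.l5 T0.l5)
  (TrL.c (I.pos (nat_lit 0) (nat_lit 0)) T0.l7
  (TrL.c (I.pos (nat_lit 0) (nat_lit 0)) T5.l6
  (TrL.c (I.mix (nat_lit 29511666) (nat_lit 77433728)) (xR T0.l6 T0.l6)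
  (TrL.c (I.mix (nat_lit 29511666) (nat_lit 46070178)) (xR T5.l4 T5.l2)
  TrL.n)))))))) (by decide +kernel)
theorem bx3_2 : BoxOK sI cl7 cl13 cl6 t5 t0 b3_2 :=
  box_mk (TrL.c (I.pos (nat_lit 0) (nat_lit 0)) (xa (xa T5.l0 T5.l0) T5.l0)
  (TrL.c (I.pos (nat_lit 0) (nat_lit 0)) T0.l4
  (TrL.c (I.pos (nat_lit 0) (nat_lit 111196574)) (xR T5.l5 T5.l5)
  (TrL.c (I.pos (nat_lit 0) (nat_lit 77433728)) (xR T0.l3 T0.l5)
  (TrL.c (I.pos (nat_lit 0) (nat_lit 0)) (xa T0.l7 T0.l7)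
  (TrL.c (I.pos (nat_lit 0) (nat_lit 0)) T5.l6
  (TrL.c (I.mix (nat_lit 29511666) (nat_lit 77433728)) T0.l6
  (TrL.c (I.mix (nat_lit 29511666) (nat_lit 46070178)) T5.l4
  TrL.n)))))))) (by decide +kernel)
theorem bx3_3 : BoxOK sI cl7 cl13 cl6 t5 t0 b3_3 :=
  box_mk (TrL.c (I.pos (nat_lit 0) (nat_lit 0)) (xa (xb T5.l0 T5.l0) (xb T5.l0 T5.l0))
  (TrL.c (I.pos (nat_lit 0) (nat_lit 0)) (xb T0.l4 (xa T0.l4 T0.l4))
  (TrL.c (I.pos (nat_lit 0) (nat_lit 111196574)) (xR T5.l5 (xR T5.l5 T5.l5))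
  (TrL.c (I.pos (nat_lit 0) (nat_lit 77433728)) (xR T0.l5 T0.l5)
  (TrL.c (I.pos (nat_lit 0) (nat_lit 0)) (xb (xa T0.l7 (xk T0.l7 T0.l7)) (xa T0.l7 T0.l7))
  (TrL.c (I.pos (nat_lit 0) (nat_lit 0)) T5.l6
  (TrL.c (I.mix (nat_lit 29511666) (nat_lit 77433728)) (xR T0.l6 (xR T0.l6 T0.l6))
  (TrL.c (I.mix (nat_lit 29511666) (nat_lit 46070178)) (xR T5.l7 T5.l7)
  TrL.n)))))))) (by decide +kernel)
theorem bx3_4 : BoxOK sI cl7 cl13 cl6 t5 t0 b3_4 :=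
  box_mk (TrL.c (I.pos (nat_lit 0) (nat_lit 0)) (xa T5.l0 T5.l0)
  (TrL.c (I.pos (nat_lit 0) (nat_lit 0)) (xa T0.l4 T0.l4)
  (TrL.c (I.pos (nat_lit 0) (nat_lit 111196574)) (xR T5.l5 T5.l5)
  (TrL.c (I.pos (nat_lit 0) (nat_lit 77433728)) (xR T0.l5 T0.l5)
  (TrL.c (I.pos (nat_lit 0) (nat_lit 0)) (xa T0.l7 T0.l7)
  (TrL.c (I.pos (nat_lit 0) (nat_lit 0)) T5.l6
  (TrL.c (I.mix (nat_lit 29511666) (nat_lit 77433728)) (xR T0.l6 T0.l6)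
  (TrL.c (I.mix (nat_lit 29511666) (nat_lit 46070178)) (xR T5.l4 T5.l2)
  TrL.n)))))))) (by decide +kernel)
theorem bx3_5 : BoxOK sI cl7 cl13 cl6 t5 t0 b3_5 :=
  box_mk (TrL.c (I.pos (nat_lit 0) (nat_lit 0)) T5.l0
  (TrL.c (I.pos (nat_lit 0) (nat_lit 0)) T0.l4
  (TrL.c (I.pos (nat_lit 0) (nat_lit 111196574)) (xR T5.l5 T5.l5)
  (TrL.c (I.pos (nat_lit 0) (nat_lit 77433728)) T0.l5
  (TrL.c (I.pos (nat_lit 0) (nat_lit 0)) T0.l7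
  (TrL.c (I.pos (nat_lit 0) (nat_lit 0)) T5.l6
  (TrL.c (I.mix (nat_lit 29511666) (nat_lit 77433728)) (xR T0.l6 T0.l6)
  (TrL.c (I.mix (nat_lit 29511666) (nat_lit 46070178)) (xR T5.l4 T5.l2)
  TrL.n)))))))) (by decide +kernel)
theorem bx3_6 : BoxOK sI cl7 cl13 cl6 t5 t0 b3_6 :=
  box_mk (TrL.c (I.pos (nat_lit 0) (nat_lit 0)) T5.l0
  (TrL.c (I.pos (nat_lit 0) (nat_lit 0)) T0.l4
  (TrL.c (I.pos (nat_lit 0) (nat_lit 111196574)) (xR T5.l5 T5.l5)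
  (TrL.c (I.pos (nat_lit 0) (nat_lit 77433728)) (xR T0.l5 T0.l5)
  (TrL.c (I.pos (nat_lit 0) (nat_lit 0)) T0.l7
  (TrL.c (I.pos (nat_lit 0) (nat_lit 0)) T5.l6
  (TrL.c (I.mix (nat_lit 29511666) (nat_lit 77433728)) (xR T0.l6 T0.l6)
  (TrL.c (I.mix (nat_lit 29511666) (nat_lit 46070178)) (xR T5.l4 T5.l2)
  TrL.n)))))))) (by decide +kernel)
theorem bx3_7 : BoxOK sI cl7 cl13 cl6 t5 t0 b3_7 :=
  box_mk (TrL.c (I.pos (nat_lit 0) (nat_lit 0)) T5.l0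
  (TrL.c (I.pos (nat_lit 0) (nat_lit 0)) T0.l4
  (TrL.c (I.pos (nat_lit 0) (nat_lit 111196574)) T5.l5
  (TrL.c (I.pos (nat_lit 0) (nat_lit 77433728)) T0.l5
  (TrL.c (I.pos (nat_lit 0) (nat_lit 0)) T0.l7
  (TrL.c (I.pos (nat_lit 0) (nat_lit 0)) T5.l6
  (TrL.c (I.mix (nat_lit 29511666) (nat_lit 77433728)) T0.l6
  (TrL.c (I.mix (nat_lit 29511666) (nat_lit 46070178)) T5.l4
  TrL.n)))))))) (by decide +kernel)
theorem sv3 : StarV sI cl7 cl13 cl6 t5 t0 t3 :=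
  (bt_n (bt_n (bt_n (bt_b bx3_0) (bt_b bx3_1)) (bt_n (bt_b bx3_2) (bt_b bx3_3))) (bt_n (bt_n (bt_b bx3_4) (bt_b bx3_5)) (bt_n (bt_b bx3_6) (bt_b bx3_7))))
def S3 : StarD := StarD.mk cl7 cl13 cl6 5 0 t3
theorem bx4_0 : BoxOK sI cl13 cl6 cl7 t1 t3 b4_0 :=
  box_mk (TrL.c (I.pos (nat_lit 0) (nat_lit 0)) (xa (xa T1.l0 T1.l0) T1.l0)
  (TrL.c (I.pos (nat_lit 0) (nat_lit 0)) (xa T3.l1 (xk T3.l1 T3.l1))
  (TrL.c (I.pos (nat_lit 0) (nat_lit 134217730)) (xR T1.l7 (xR T1.l1 T1.l7))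
  (TrL.c (I.pos (nat_lit 0) (nat_lit 110514882)) (xR T3.l2 (xR T3.l2 T3.l2))
  (TrL.c (I.pos (nat_lit 0) (nat_lit 0)) (xa (xa T3.l3 T3.l3) (xk (xa T3.l3 (xb T3.l3 (xs T3.l3 T3.l3))) (xa T3.l3 (xb T3.l3 (xs T3.l3 T3.l3)))))
  (TrL.c (I.pos (nat_lit 0) (nat_lit 0)) T1.l2
  (TrL.c (I.mix (nat_lit 8088324) (nat_lit 110514882)) (xR T3.l4 (xR T3.l4 T3.l4))
  (TrL.c (I.mix (nat_lit 8088324) (nat_lit 89478486)) (xR T1.l3 T1.l3)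
  TrL.n)))))))) (by decide +kernel)
theorem bx4_1 : BoxOK sI cl13 cl6 cl7 t1 t3 b4_1 :=
  box_mk (TrL.c (I.pos (nat_lit 0) (nat_lit 0)) T1.l0
  (TrL.c (I.pos (nat_lit 0) (nat_lit 0)) T3.l1
  (TrL.c (I.pos (nat_lit 0) (nat_lit 134217730)) (xR T1.l1 T1.l1)
  (TrL.c (I.pos (nat_lit 0) (nat_lit 110514882)) (xR T3.l2 T3.l2)
  (TrL.c (I.pos (nat_lit 0) (nat_lit 0)) T3.l3
  (TrL.c (I.pos (nat_lit 0) (nat_lit 0)) T1.l2
  (TrL.c (I.mix (nat_lit 8088324) (nat_lit 110514882)) T3.l4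
  (TrL.c (I.mix (nat_lit 8088324) (nat_lit 89478486)) T1.l3
  TrL.n)))))))) (by decide +kernel)
theorem bx4_2 : BoxOK sI cl13 cl6 cl7 t1 t3 b4_2 :=
  box_mk (TrL.c (I.pos (nat_lit 0) (nat_lit 0)) T1.l0
  (TrL.c (I.pos (nat_lit 0) (nat_lit 0)) T3.l1
  (TrL.c (I.pos (nat_lit 0) (nat_lit 134217730)) T1.l1
  (TrL.c (I.pos (nat_lit 0) (nat_lit 110514882)) T3.l4
  (TrL.c (I.pos (nat_lit 0) (nat_lit 0)) T3.l3
  (TrL.c (I.pos (nat_lit 0) (nat_lit 0)) T1.l2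
  (TrL.c (I.mix (nat_lit 8088324) (nat_lit 110514882)) T3.l4
  (TrL.c (I.mix (nat_lit 8088324) (nat_lit 89478486)) T1.l7
  TrL.n)))))))) (by decide +kernel)
theorem bx4_3 : BoxOK sI cl13 cl6 cl7 t1 t3 b4_3 :=
  box_mk (TrL.c (I.pos (nat_lit 0) (nat_lit 0)) (xb T1.l0 (xa T1.l0 T1.l0))
  (TrL.c (I.pos (nat_lit 0) (nat_lit 0)) (xb T3.l1 T3.l1)
  (TrL.c (I.pos (nat_lit 0) (nat_lit 134217730)) (xR T1.l1 (xR T1.l1 T1.l1))
  (TrL.c (I.pos (nat_lit 0) (nat_lit 110514882)) (xR T3.l2 (xR T3.l2 T3.l2))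
  (TrL.c (I.pos (nat_lit 0) (nat_lit 0)) (xb (xa T3.l3 T3.l3) T3.l3)
  (TrL.c (I.pos (nat_lit 0) (nat_lit 0)) T1.l2
  (TrL.c (I.mix (nat_lit 8088324) (nat_lit 110514882)) (xR T3.l4 (xR T3.l4 T3.l4))
  (TrL.c (I.mix (nat_lit 8088324) (nat_lit 89478486)) (xR T1.l3 T1.l3)
  TrL.n)))))))) (by decide +kernel)
theorem bx4_4 : BoxOK sI cl13 cl6 cl7 t1 t3 b4_4 :=
  box_mk (TrL.c (I.pos (nat_lit 0) (nat_lit 0)) T1.l0
  (TrL.c (I.pos (nat_lit 0) (nat_lit 0)) T3.l1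
  (TrL.c (I.pos (nat_lit 0) (nat_lit 134217730)) T1.l1
  (TrL.c (I.pos (nat_lit 0) (nat_lit 110514882)) (xR T3.l2 (xR T3.l2 T3.l2))
  (TrL.c (I.pos (nat_lit 0) (nat_lit 0)) T3.l3
  (TrL.c (I.pos (nat_lit 0) (nat_lit 0)) T1.l2
  (TrL.c (I.mix (nat_lit 8088324) (nat_lit 110514882)) T3.l4
  (TrL.c (I.mix (nat_lit 8088324) (nat_lit 89478486)) T1.l7
  TrL.n)))))))) (by decide +kernel)
theorem bx4_5 : BoxOK sI cl13 cl6 cl7 t1 t3 b4_5 :=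
  box_mk (TrL.c (I.pos (nat_lit 0) (nat_lit 0)) T1.l0
  (TrL.c (I.pos (nat_lit 0) (nat_lit 0)) T3.l1
  (TrL.c (I.pos (nat_lit 0) (nat_lit 134217730)) (xR T1.l1 T1.l1)
  (TrL.c (I.pos (nat_lit 0) (nat_lit 110514882)) (xR T3.l2 T3.l2)
  (TrL.c (I.pos (nat_lit 0) (nat_lit 0)) T3.l3
  (TrL.c (I.pos (nat_lit 0) (nat_lit 0)) T1.l2
  (TrL.c (I.mix (nat_lit 8088324) (nat_lit 110514882)) T3.l4
  (TrL.c (I.mix (nat_lit 8088324) (nat_lit 89478486)) T1.l3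
  TrL.n)))))))) (by decide +kernel)
theorem bx4_6 : BoxOK sI cl13 cl6 cl7 t1 t3 b4_6 :=
  box_mk (TrL.c (I.pos (nat_lit 0) (nat_lit 0)) T1.l0
  (TrL.c (I.pos (nat_lit 0) (nat_lit 0)) T3.l1
  (TrL.c (I.pos (nat_lit 0) (nat_lit 134217730)) (xR T1.l1 T1.l1)
  (TrL.c (I.pos (nat_lit 0) (nat_lit 110514882)) (xR T3.l2 T3.l2)
  (TrL.c (I.pos (nat_lit 0) (nat_lit 0)) T3.l3
  (TrL.c (I.pos (nat_lit 0) (nat_lit 0)) T1.l2
  (TrL.c (I.mix (nat_lit 8088324) (nat_lit 110514882)) T3.l4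
  (TrL.c (I.mix (nat_lit 8088324) (nat_lit 89478486)) T1.l3
  TrL.n)))))))) (by decide +kernel)
theorem bx4_7 : BoxOK sI cl13 cl6 cl7 t1 t3 b4_7 :=
  box_mk (TrL.c (I.pos (nat_lit 0) (nat_lit 0)) (xa T1.l0 T1.l0)
  (TrL.c (I.pos (nat_lit 0) (nat_lit 0)) T3.l3
  (TrL.c (I.pos (nat_lit 0) (nat_lit 134217730)) T1.l1
  (TrL.c (I.pos (nat_lit 0) (nat_lit 110514882)) T3.l4
  (TrL.c (I.pos (nat_lit 0) (nat_lit 0)) T3.l3
  (TrL.c (I.pos (nat_lit 0) (nat_lit 0)) T1.l2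
  (TrL.c (I.mix (nat_lit 8088324) (nat_lit 110514882)) T3.l4
  (TrL.c (I.mix (nat_lit 8088324) (nat_lit 89478486)) T1.l7
  TrL.n)))))))) (by decide +kernel)
theorem sv4 : StarV sI cl13 cl6 cl7 t1 t3 t4 :=
  (bt_n (bt_n (bt_n (bt_b bx4_0) (bt_b bx4_1)) (bt_n (bt_b bx4_2) (bt_b bx4_3))) (bt_n (bt_n (bt_b bx4_4) (bt_b bx4_5)) (bt_n (bt_b bx4_6) (bt_b bx4_7))))
def S4 : StarD := StarD.mk cl13 cl6 cl7 1 3 t4
theorem bx5_0 : BoxOK sI cl13 cl7 cl6 t3 t1 b5_0 :=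
  box_mk (TrL.c (I.pos (nat_lit 0) (nat_lit 0)) (xa (xa T3.l0 T3.l0) (xa T3.l0 T3.l0))
  (TrL.c (I.pos (nat_lit 0) (nat_lit 0)) (xa T1.l4 (xk T1.l4 T1.l4))
  (TrL.c (I.pos (nat_lit 0) (nat_lit 134217730)) (xR T3.l4 (xR T3.l4 T3.l5))
  (TrL.c (I.pos (nat_lit 0) (nat_lit 110514882)) (xR T1.l3 (xR T1.l5 T1.l5))
  (TrL.c (I.pos (nat_lit 0) (nat_lit 0)) (xa (xa T1.l6 T1.l6) (xk (xa T1.l6 (xb T1.l6 (xk T1.l6 T1.l6))) (xa T1.l6 (xb T1.l6 (xs T1.l6 T1.l6)))))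
  (TrL.c (I.pos (nat_lit 0) (nat_lit 0)) (xk T3.l6 T3.l6)
  (TrL.c (I.mix (nat_lit 8088324) (nat_lit 110514882)) (xR T1.l7 (xR T1.l7 T1.l7))
  (TrL.c (I.mix (nat_lit 8088324) (nat_lit 89478486)) (xR T3.l2 T3.l7)
  TrL.n)))))))) (by decide +kernel)
theorem bx5_1 : BoxOK sI cl13 cl7 cl6 t3 t1 b5_1 :=
  box_mk (TrL.c (I.pos (nat_lit 0) (nat_lit 0)) T3.l0
  (TrL.c (I.pos (nat_lit 0) (nat_lit 0)) T1.l4
  (TrL.c (I.pos (nat_lit 0) (nat_lit 134217730)) (xR T3.l4 T3.l4)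
  (TrL.c (I.pos (nat_lit 0) (nat_lit 110514882)) (xR T1.l1 T1.l5)
  (TrL.c (I.pos (nat_lit 0) (nat_lit 0)) T1.l6
  (TrL.c (I.pos (nat_lit 0) (nat_lit 0)) T3.l6
  (TrL.c (I.mix (nat_lit 8088324) (nat_lit 110514882)) T1.l7
  (TrL.c (I.mix (nat_lit 8088324) (nat_lit 89478486)) T3.l2
  TrL.n)))))))) (by decide +kernel)
theorem bx5_2 : BoxOK sI cl13 cl7 cl6 t3 t1 b5_2 :=
  box_mk (TrL.c (I.pos (nat_lit 0) (nat_lit 0)) (xa T3.l0 T3.l0)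
  (TrL.c (I.pos (nat_lit 0) (nat_lit 0)) T1.l4
  (TrL.c (I.pos (nat_lit 0) (nat_lit 134217730)) (xR T3.l2 (xR T3.l4 T3.l5))
  (TrL.c (I.pos (nat_lit 0) (nat_lit 110514882)) T1.l7
  (TrL.c (I.pos (nat_lit 0) (nat_lit 0)) T1.l6
  (TrL.c (I.pos (nat_lit 0) (nat_lit 0)) T3.l6
  (TrL.c (I.mix (nat_lit 8088324) (nat_lit 110514882)) T1.l7
  (TrL.c (I.mix (nat_lit 8088324) (nat_lit 89478486)) T3.l4
  TrL.n)))))))) (by decide +kernel)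
theorem bx5_3 : BoxOK sI cl13 cl7 cl6 t3 t1 b5_3 :=
  box_mk (TrL.c (I.pos (nat_lit 0) (nat_lit 0)) (xa (xb T3.l0 T3.l0) (xb T3.l0 T3.l0))
  (TrL.c (I.pos (nat_lit 0) (nat_lit 0)) (xb T1.l4 T1.l4)
  (TrL.c (I.pos (nat_lit 0) (nat_lit 134217730)) (xR T3.l4 (xR T3.l4 T3.l5))
  (TrL.c (I.pos (nat_lit 0) (nat_lit 110514882)) (xR T1.l3 (xR T1.l5 T1.l5))
  (TrL.c (I.pos (nat_lit 0) (nat_lit 0)) (xb (xa T1.l6 (xk T1.l6 T1.l6)) T1.l6)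
  (TrL.c (I.pos (nat_lit 0) (nat_lit 0)) T3.l6
  (TrL.c (I.mix (nat_lit 8088324) (nat_lit 110514882)) (xR T1.l7 (xR T1.l7 T1.l7))
  (TrL.c (I.mix (nat_lit 8088324) (nat_lit 89478486)) (xR T3.l2 T3.l7)
  TrL.n)))))))) (by decide +kernel)
theorem bx5_4 : BoxOK sI cl13 cl7 cl6 t3 t1 b5_4 :=
  box_mk (TrL.c (I.pos (nat_lit 0) (nat_lit 0)) (xa T3.l0 T3.l0)
  (TrL.c (I.pos (nat_lit 0) (nat_lit 0)) (xa T1.l4 T1.l4)
  (TrL.c (I.pos (nat_lit 0) (nat_lit 134217730)) (xR T3.l4 (xR T3.l4 T3.l5))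
  (TrL.c (I.pos (nat_lit 0) (nat_lit 110514882)) (xR T1.l1 (xR T1.l5 T1.l5))
  (TrL.c (I.pos (nat_lit 0) (nat_lit 0)) (xa T1.l6 T1.l6)
  (TrL.c (I.pos (nat_lit 0) (nat_lit 0)) T3.l6
  (TrL.c (I.mix (nat_lit 8088324) (nat_lit 110514882)) T1.l7
  (TrL.c (I.mix (nat_lit 8088324) (nat_lit 89478486)) T3.l4
  TrL.n)))))))) (by decide +kernel)
theorem bx5_5 : BoxOK sI cl13 cl7 cl6 t3 t1 b5_5 :=
  box_mk (TrL.c (I.pos (nat_lit 0) (nat_lit 0)) (xa T3.l0 T3.l0)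
  (TrL.c (I.pos (nat_lit 0) (nat_lit 0)) (xa T1.l4 T1.l4)
  (TrL.c (I.pos (nat_lit 0) (nat_lit 134217730)) (xR T3.l4 (xR T3.l4 T3.l5))
  (TrL.c (I.pos (nat_lit 0) (nat_lit 110514882)) (xR T1.l1 T1.l5)
  (TrL.c (I.pos (nat_lit 0) (nat_lit 0)) T1.l6
  (TrL.c (I.pos (nat_lit 0) (nat_lit 0)) T3.l6
  (TrL.c (I.mix (nat_lit 8088324) (nat_lit 110514882)) T1.l7
  (TrL.c (I.mix (nat_lit 8088324) (nat_lit 89478486)) T3.l4
  TrL.n)))))))) (by decide +kernel)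
theorem bx5_6 : BoxOK sI cl13 cl7 cl6 t3 t1 b5_6 :=
  box_mk (TrL.c (I.pos (nat_lit 0) (nat_lit 0)) T3.l0
  (TrL.c (I.pos (nat_lit 0) (nat_lit 0)) T1.l4
  (TrL.c (I.pos (nat_lit 0) (nat_lit 134217730)) (xR T3.l4 T3.l4)
  (TrL.c (I.pos (nat_lit 0) (nat_lit 110514882)) (xR T1.l1 T1.l5)
  (TrL.c (I.pos (nat_lit 0) (nat_lit 0)) T1.l6
  (TrL.c (I.pos (nat_lit 0) (nat_lit 0)) T3.l6
  (TrL.c (I.mix (nat_lit 8088324) (nat_lit 110514882)) T1.l7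
  (TrL.c (I.mix (nat_lit 8088324) (nat_lit 89478486)) T3.l2
  TrL.n)))))))) (by decide +kernel)
theorem bx5_7 : BoxOK sI cl13 cl7 cl6 t3 t1 b5_7 :=
  box_mk (TrL.c (I.pos (nat_lit 0) (nat_lit 0)) (xa T3.l0 T3.l0)
  (TrL.c (I.pos (nat_lit 0) (nat_lit 0)) T1.l4
  (TrL.c (I.pos (nat_lit 0) (nat_lit 134217730)) (xR T3.l2 (xR T3.l4 T3.l5))
  (TrL.c (I.pos (nat_lit 0) (nat_lit 110514882)) T1.l7
  (TrL.c (I.pos (nat_lit 0) (nat_lit 0)) T1.l6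
  (TrL.c (I.pos (nat_lit 0) (nat_lit 0)) T3.l6
  (TrL.c (I.mix (nat_lit 8088324) (nat_lit 110514882)) T1.l7
  (TrL.c (I.mix (nat_lit 8088324) (nat_lit 89478486)) T3.l4
  TrL.n)))))))) (by decide +kernel)
theorem sv5 : StarV sI cl13 cl7 cl6 t3 t1 t5 :=
  (bt_n (bt_n (bt_n (bt_b bx5_0) (bt_b bx5_1)) (bt_n (bt_b bx5_2) (bt_b bx5_3))) (bt_n (bt_n (bt_b bx5_4) (bt_b bx5_5)) (bt_n (bt_b bx5_6) (bt_b bx5_7))))
def S5 : StarD := StarD.mk cl13 cl7 cl6 3 1 t5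
def G : List StarD := [S0, S1, S2, S3, S4, S5]
theorem so0 : StarOK sI G S0 :=
  star_mk (by decide) (by decide) rfl rfl rfl rfl rfl rfl (rfl : _ = t2) (rfl : _ = t4)
  (st_mk (Pth.l (Pth.l (Pth.l Pth.z))) (nat_lit 141265568) (nat_lit 163731395) (by decide +kernel))
  (st_mk (Pth.l (Pth.l (Pth.l Pth.z))) (nat_lit 176868553) (nat_lit 199691601) (by decide +kernel))
  (st_mk (Pth.l (Pth.l (Pth.l Pth.z))) (nat_lit 218147495) (nat_lit 241460511) (by decide +kernel)) sv0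
theorem so1 : StarOK sI G S1 :=
  star_mk (by decide) (by decide) rfl rfl rfl rfl rfl rfl (rfl : _ = t4) (rfl : _ = t2)
  (st_mk (Pth.l (Pth.l (Pth.l Pth.z))) (nat_lit 96519800) (nat_lit 115129334) (by decide +kernel))
  (st_mk (Pth.l (Pth.l (Pth.l Pth.z))) (nat_lit 132009956) (nat_lit 150944058) (by decide +kernel))
  (st_mk (Pth.l (Pth.l (Pth.l Pth.z))) (nat_lit 173193508) (nat_lit 192589660) (by decide +kernel)) sv1
theorem so2 : StarOK sI G S2 :=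
  star_mk (by decide) (by decide) rfl rfl rfl rfl rfl rfl (rfl : _ = t0) (rfl : _ = t5)
  (st_mk (Pth.l (Pth.l (Pth.l Pth.z))) (nat_lit 186949185) (nat_lit 188419001) (by decide +kernel))
  (st_mk (Pth.l (Pth.l (Pth.l Pth.z))) (nat_lit 222303014) (nat_lit 224162228) (by decide +kernel))
  (st_mk (Pth.l (Pth.l (Pth.l Pth.z))) (nat_lit 263195581) (nat_lit 265592669) (by decide +kernel)) sv2
theorem so3 : StarOK sI G S3 :=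
  star_mk (by decide) (by decide) rfl rfl rfl rfl rfl rfl (rfl : _ = t5) (rfl : _ = t0)
  (st_mk (Pth.l (Pth.l (Pth.l Pth.z))) (nat_lit 96232209) (nat_lit 114812434) (by decide +kernel))
  (st_mk (Pth.l (Pth.l (Pth.l Pth.z))) (nat_lit 131472749) (nat_lit 150394589) (by decide +kernel))
  (st_mk (Pth.l (Pth.l (Pth.l Pth.z))) (nat_lit 172268228) (nat_lit 191687499) (by decide +kernel)) sv3
theorem so4 : StarOK sI G S4 :=
  star_mk (by decide) (by decide) rfl rfl rfl rfl rfl rfl (rfl : _ = t1) (rfl : _ = t3)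
  (st_mk (Pth.l (Pth.l (Pth.l Pth.z))) (nat_lit 185843017) (nat_lit 187004300) (by decide +kernel))
  (st_mk (Pth.l (Pth.l (Pth.l Pth.z))) (nat_lit 220739626) (nat_lit 222156420) (by decide +kernel))
  (st_mk (Pth.l (Pth.l (Pth.l Pth.z))) (nat_lit 261004945) (nat_lit 262771698) (by decide +kernel)) sv4
theorem so5 : StarOK sI G S5 :=
  star_mk (by decide) (by decide) rfl rfl rfl rfl rfl rfl (rfl : _ = t3) (rfl : _ = t1)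
  (st_mk (Pth.l (Pth.l (Pth.l Pth.z))) (nat_lit 141873768) (nat_lit 160199590) (by decide +kernel))
  (st_mk (Pth.l (Pth.l (Pth.l Pth.z))) (nat_lit 174891329) (nat_lit 197214938) (by decide +kernel))
  (st_mk (Pth.l (Pth.l (Pth.l Pth.z))) (nat_lit 215156648) (nat_lit 237816500) (by decide +kernel)) sv5
theorem ok : GroupOK (nat_lit 0) (nat_lit 91291648) G := grp_mk (allS_c so0 (allS_c so1 (allS_c so2 (allS_c so3 (allS_c so4 (allS_c so5 allS_n))))))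
theorem cov : GCov G cl6 cl7 cl13 := cov_mk
  ⟨0, by decide, rfl, rfl, rfl⟩ ⟨1, by decide, rfl, rfl, rfl⟩ ⟨2, by decide, rfl, rfl, rfl⟩ ⟨3, by decide, rfl, rfl, rfl⟩ ⟨4, by decide, rfl, rfl, rfl⟩ ⟨5, by decide, rfl, rfl, rfl⟩
end Q346_0

namespace Q346_1
def sI : I := I.pos (nat_lit 91226112) (nat_lit 150339584)
def b0_0 : Bx := Bx.mk (St.mk (I.pos (nat_lit 158105600) (nat_lit 243646464)) (I.mix (nat_lit 2457600) (nat_lit 75005952)) (I.mix (nat_lit 3178496) (nat_lit 99745792)) (I.pos (nat_lit 139689984) (nat_lit 277250048)) (I.mix (nat_lit 84246528) (nat_lit 50085888)) (I.mix (nat_lit 56934400) (nat_lit 52248576)) (I.mix (nat_lit 78987264) (nat_lit 71204864)))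
  false (nat_lit 0)
def b0_1 : Bx := Bx.mk (St.mk (I.mix (nat_lit 26968064) (nat_lit 126992384)) (I.mix (nat_lit 11288576) (nat_lit 34455552)) (I.mix (nat_lit 23494656) (nat_lit 15564800)) (I.pos (nat_lit 38518784) (nat_lit 117833728)) (I.mix (nat_lit 29065216) (nat_lit 30162944)) (I.mix (nat_lit 26771456) (nat_lit 20283392)) (I.mix (nat_lit 20086784) (nat_lit 12484608)))
  false (nat_lit 0)
def b0_2 : Bx := Bx.mk (St.mk (I.pos (nat_lit 91684864) (nat_lit 143785984)) (I.mix (nat_lit 58228736) (nat_lit 9732096)) (I.neg (nat_lit 1769472) (nat_lit 64471040)) (I.pos (nat_lit 77348864) (nat_lit 139870208)) (I.mix (nat_lit 79560704) (nat_lit 27394048)) (I.mix (nat_lit 29802496) (nat_lit 65961984)) (I.mix (nat_lit 20725760) (nat_lit 52281344)))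
  false (nat_lit 0)
def b0_3 : Bx := Bx.mk (St.mk (I.mix (nat_lit 38125568) (nat_lit 71434240)) (I.mix (nat_lit 29769728) (nat_lit 7421952)) (I.neg (nat_lit 229376) (nat_lit 20955136)) (I.pos (nat_lit 40730624) (nat_lit 81887232)) (I.mix (nat_lit 32686080) (nat_lit 16318464)) (I.mix (nat_lit 14434304) (nat_lit 26099712)) (I.mix (nat_lit 7520256) (nat_lit 10813440)))
  false (nat_lit 0)
def b0_4 : Bx := Bx.mk (St.mk (I.pos (nat_lit 198574080) (nat_lit 284475392)) (I.mix (nat_lit 31145984) (nat_lit 38993920)) (I.mix (nat_lit 105758720) (nat_lit 42254336)) (I.pos (nat_lit 215023616) (nat_lit 372015104)) (I.mix (nat_lit 66879488) (nat_lit 36208640)) (I.mix (nat_lit 50020352) (nat_lit 33636352)) (I.mix (nat_lit 74940416) (nat_lit 67928064)))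
  false (nat_lit 0)
def b0_5 : Bx := Bx.mk (St.mk (I.pos (nat_lit 93995008) (nat_lit 174735360)) (I.mix (nat_lit 68550656) (nat_lit 2867200)) (I.neg (nat_lit 2883584) (nat_lit 73531392)) (I.pos (nat_lit 90472448) (nat_lit 178454528)) (I.mix (nat_lit 78790656) (nat_lit 38256640)) (I.mix (nat_lit 40337408) (nat_lit 57737216)) (I.mix (nat_lit 31129600) (nat_lit 56410112)))
  false (nat_lit 0)
def b0_6 : Bx := Bx.mk (St.mk (I.mix (nat_lit 34193408) (nat_lit 84754432)) (I.mix (nat_lit 33980416) (nat_lit 8585216)) (I.mix (nat_lit 24870912) (nat_lit 376832)) (I.pos (nat_lit 38289408) (nat_lit 90505216)) (I.mix (nat_lit 30490624) (nat_lit 22478848)) (I.mix (nat_lit 17809408) (nat_lit 27541504)) (I.mix (nat_lit 9748480) (nat_lit 15204352)))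
  false (nat_lit 0)
def b0_7 : Bx := Bx.mk (St.mk (I.pos (nat_lit 167821312) (nat_lit 219693056)) (I.mix (nat_lit 8273920) (nat_lit 64159744)) (I.mix (nat_lit 2932736) (nat_lit 86016000)) (I.pos (nat_lit 160350208) (nat_lit 245940224)) (I.mix (nat_lit 106119168) (nat_lit 33439744)) (I.mix (nat_lit 99532800) (nat_lit 50544640)) (I.mix (nat_lit 105938944) (nat_lit 50348032)))
  false (nat_lit 0)
def b0_8 : Bx := Bx.mk (St.mk (I.mix (nat_lit 37847040) (nat_lit 124321792)) (I.mix (nat_lit 14843904) (nat_lit 38617088)) (I.mix (nat_lit 14909440) (nat_lit 21053440)) (I.pos (nat_lit 40026112) (nat_lit 113246208)) (I.mix (nat_lit 39321600) (nat_lit 23330816)) (I.mix (nat_lit 39010304) (nat_lit 21151744)) (I.mix (nat_lit 21233664) (nat_lit 12763136)))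
  false (nat_lit 0)
def b0_9 : Bx := Bx.mk (St.mk (I.pos (nat_lit 186155008) (nat_lit 236634112)) (I.pos (nat_lit 17448960) (nat_lit 59392000)) (I.pos (nat_lit 18464768) (nat_lit 81149952)) (I.pos (nat_lit 204963840) (nat_lit 268173312)) (I.mix (nat_lit 76677120) (nat_lit 55787520)) (I.mix (nat_lit 67239936) (nat_lit 45268992)) (I.mix (nat_lit 104792064) (nat_lit 60391424)))
  false (nat_lit 0)
def b0_10 : Bx := Bx.mk (St.mk (I.pos (nat_lit 143704064) (nat_lit 211288064)) (I.mix (nat_lit 42385408) (nat_lit 24854528)) (I.mix (nat_lit 52756480) (nat_lit 33570816)) (I.pos (nat_lit 124878848) (nat_lit 227573760)) (I.mix (nat_lit 47169536) (nat_lit 43417600)) (I.mix (nat_lit 50003968) (nat_lit 43433984)) (I.mix (nat_lit 50380800) (nat_lit 42942464)))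
  false (nat_lit 0)
def b0_11 : Bx := Bx.mk (St.mk (I.pos (nat_lit 167608320) (nat_lit 212172800)) (I.mix (nat_lit 18923520) (nat_lit 44761088)) (I.mix (nat_lit 19972096) (nat_lit 62046208)) (I.pos (nat_lit 158515200) (nat_lit 228212736)) (I.mix (nat_lit 99516416) (nat_lit 50249728)) (I.mix (nat_lit 110247936) (nat_lit 52363264)) (I.mix (nat_lit 119373824) (nat_lit 51544064)))
  false (nat_lit 0)
def t0 : BTr := (BTr.n (BTr.n (BTr.n (BTr.b b0_0) (BTr.n (BTr.b b0_1) (BTr.b b0_2))) (BTr.n (BTr.b b0_3) (BTr.n (BTr.b b0_4) (BTr.b b0_5)))) (BTr.n (BTr.n (BTr.b b0_6) (BTr.n (BTr.b b0_7) (BTr.b b0_8))) (BTr.n (BTr.b b0_9) (BTr.n (BTr.b b0_10) (BTr.b b0_11)))))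
namespace T0
def l0 : Tr := Tr.L (Pth.l (Pth.l (Pth.l Pth.z)))
def l1 : Tr := Tr.L (Pth.l (Pth.l (Pth.r (Pth.l Pth.z))))
def l2 : Tr := Tr.L (Pth.l (Pth.l (Pth.r (Pth.r Pth.z))))
def l3 : Tr := Tr.L (Pth.l (Pth.r (Pth.l Pth.z)))
def l4 : Tr := Tr.L (Pth.l (Pth.r (Pth.r (Pth.l Pth.z))))
def l5 : Tr := Tr.L (Pth.l (Pth.r (Pth.r (Pth.r Pth.z))))
def l6 : Tr := Tr.L (Pth.r (Pth.l (Pth.l Pth.z)))
def l7 : Tr := Tr.L (Pth.r (Pth.l (Pth.r (Pth.l Pth.z))))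
def l8 : Tr := Tr.L (Pth.r (Pth.l (Pth.r (Pth.r Pth.z))))
def l9 : Tr := Tr.L (Pth.r (Pth.r (Pth.l Pth.z)))
def l10 : Tr := Tr.L (Pth.r (Pth.r (Pth.r (Pth.l Pth.z))))
def l11 : Tr := Tr.L (Pth.r (Pth.r (Pth.r (Pth.r Pth.z))))
end T0
def b1_0 : Bx := Bx.mk (St.mk (I.pos (nat_lit 158007296) (nat_lit 247382016)) (I.mix (nat_lit 2113536) (nat_lit 63569920)) (I.mix (nat_lit 3457024) (nat_lit 109248512)) (I.pos (nat_lit 92798976) (nat_lit 232980480)) (I.mix (nat_lit 83247104) (nat_lit 43450368)) (I.mix (nat_lit 60358656) (nat_lit 50741248)) (I.mix (nat_lit 87457792) (nat_lit 66076672)))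
  false (nat_lit 0)
def b1_1 : Bx := Bx.mk (St.mk (I.mix (nat_lit 13860864) (nat_lit 157204480)) (I.mix (nat_lit 8830976) (nat_lit 26574848)) (I.mix (nat_lit 12992512) (nat_lit 24346624)) (I.mix (nat_lit 3342336) (nat_lit 95895552)) (I.mix (nat_lit 24428544) (nat_lit 22151168)) (I.mix (nat_lit 22413312) (nat_lit 17432576)) (I.mix (nat_lit 19365888) (nat_lit 13926400)))
  false (nat_lit 0)
def b1_2 : Bx := Bx.mk (St.mk (I.pos (nat_lit 116195328) (nat_lit 163053568)) (I.mix (nat_lit 53362688) (nat_lit 8273920)) (I.mix (nat_lit 58310656) (nat_lit 5898240)) (I.pos (nat_lit 52428800) (nat_lit 115359744)) (I.mix (nat_lit 74760192) (nat_lit 23527424)) (I.mix (nat_lit 27443200) (nat_lit 66551808)) (I.mix (nat_lit 22200320) (nat_lit 60817408)))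
  false (nat_lit 0)
def b1_3 : Bx := Bx.mk (St.mk (I.mix (nat_lit 13631488) (nat_lit 120586240)) (I.mix (nat_lit 24018944) (nat_lit 2572288)) (I.mix (nat_lit 18481152) (nat_lit 1097728)) (I.mix (nat_lit 2457600) (nat_lit 65257472)) (I.mix (nat_lit 27099136) (nat_lit 10321920)) (I.mix (nat_lit 10797056) (nat_lit 21872640)) (I.mix (nat_lit 6504448) (nat_lit 13959168)))
  false (nat_lit 0)
def b1_4 : Bx := Bx.mk (St.mk (I.pos (nat_lit 209862656) (nat_lit 283525120)) (I.mix (nat_lit 27639808) (nat_lit 33685504)) (I.mix (nat_lit 69599232) (nat_lit 58425344)) (I.pos (nat_lit 186007552) (nat_lit 322535424)) (I.mix (nat_lit 67289088) (nat_lit 32653312)) (I.mix (nat_lit 49692672) (nat_lit 30474240)) (I.mix (nat_lit 79069184) (nat_lit 55754752)))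
  false (nat_lit 0)
def b1_5 : Bx := Bx.mk (St.mk (I.pos (nat_lit 114376704) (nat_lit 187547648)) (I.mix (nat_lit 54214656) (nat_lit 1933312)) (I.mix (nat_lit 58933248) (nat_lit 278528)) (I.pos (nat_lit 66584576) (nat_lit 148275200)) (I.mix (nat_lit 68386816) (nat_lit 35651584)) (I.mix (nat_lit 33898496) (nat_lit 52822016)) (I.mix (nat_lit 29655040) (nat_lit 55787520)))
  false (nat_lit 0)
def b1_6 : Bx := Bx.mk (St.mk (I.mix (nat_lit 12533760) (nat_lit 129744896)) (I.mix (nat_lit 28786688) (nat_lit 6225920)) (I.mix (nat_lit 23248896) (nat_lit 2965504)) (I.mix (nat_lit 2621440) (nat_lit 70828032)) (I.mix (nat_lit 27115520) (nat_lit 20709376)) (I.mix (nat_lit 15220736) (nat_lit 23003136)) (I.mix (nat_lit 9535488) (nat_lit 16531456)))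
  false (nat_lit 0)
def b1_7 : Bx := Bx.mk (St.mk (I.pos (nat_lit 176324608) (nat_lit 221675520)) (I.mix (nat_lit 15056896) (nat_lit 53297152)) (I.mix (nat_lit 1277952) (nat_lit 86966272)) (I.pos (nat_lit 120176640) (nat_lit 201310208)) (I.mix (nat_lit 107233280) (nat_lit 33193984)) (I.mix (nat_lit 106381312) (nat_lit 49168384)) (I.mix (nat_lit 128745472) (nat_lit 51691520)))
  false (nat_lit 0)
def b1_8 : Bx := Bx.mk (St.mk (I.mix (nat_lit 31391744) (nat_lit 140525568)) (I.mix (nat_lit 13828096) (nat_lit 35897344)) (I.mix (nat_lit 11878400) (nat_lit 29147136)) (I.mix (nat_lit 5750784) (nat_lit 85803008)) (I.mix (nat_lit 43368448) (nat_lit 20512768)) (I.mix (nat_lit 36913152) (nat_lit 20578304)) (I.mix (nat_lit 27541504) (nat_lit 13729792)))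
  false (nat_lit 0)
def b1_9 : Bx := Bx.mk (St.mk (I.pos (nat_lit 154173440) (nat_lit 216596480)) (I.mix (nat_lit 42876928) (nat_lit 17432576)) (I.mix (nat_lit 47890432) (nat_lit 34226176)) (I.pos (nat_lit 96043008) (nat_lit 186515456)) (I.mix (nat_lit 54411264) (nat_lit 46465024)) (I.mix (nat_lit 49577984) (nat_lit 44302336)) (I.mix (nat_lit 52576256) (nat_lit 47874048)))
  false (nat_lit 0)
def b1_10 : Bx := Bx.mk (St.mk (I.pos (nat_lit 177815552) (nat_lit 216023040)) (I.mix (nat_lit 20447232) (nat_lit 31113216)) (I.mix (nat_lit 10960896) (nat_lit 55721984)) (I.pos (nat_lit 123961344) (nat_lit 188776448)) (I.mix (nat_lit 87097344) (nat_lit 46202880)) (I.mix (nat_lit 98271232) (nat_lit 52822016)) (I.mix (nat_lit 116834304) (nat_lit 59392000)))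
  false (nat_lit 0)
def b1_11 : Bx := Bx.mk (St.mk (I.pos (nat_lit 193036288) (nat_lit 239976448)) (I.pos (nat_lit 13189120) (nat_lit 51986432)) (I.pos (nat_lit 24707072) (nat_lit 91095040)) (I.pos (nat_lit 165953536) (nat_lit 223936512)) (I.mix (nat_lit 72548352) (nat_lit 49872896)) (I.mix (nat_lit 70418432) (nat_lit 46743552)) (I.mix (nat_lit 112754688) (nat_lit 59572224)))
  false (nat_lit 0)
def t1 : BTr := (BTr.n (BTr.n (BTr.n (BTr.b b1_0) (BTr.n (BTr.b b1_1) (BTr.b b1_2))) (BTr.n (BTr.b b1_3) (BTr.n (BTr.b b1_4) (BTr.b b1_5)))) (BTr.n (BTr.n (BTr.b b1_6) (BTr.n (BTr.b b1_7) (BTr.b b1_8))) (BTr.n (BTr.b b1_9) (BTr.n (BTr.b b1_10) (BTr.b b1_11)))))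
namespace T1
def l0 : Tr := Tr.L (Pth.l (Pth.l (Pth.l Pth.z)))
def l1 : Tr := Tr.L (Pth.l (Pth.l (Pth.r (Pth.l Pth.z))))
def l2 : Tr := Tr.L (Pth.l (Pth.l (Pth.r (Pth.r Pth.z))))
def l3 : Tr := Tr.L (Pth.l (Pth.r (Pth.l Pth.z)))
def l4 : Tr := Tr.L (Pth.l (Pth.r (Pth.r (Pth.l Pth.z))))
def l5 : Tr := Tr.L (Pth.l (Pth.r (Pth.r (Pth.r Pth.z))))
def l6 : Tr := Tr.L (Pth.r (Pth.l (Pth.l Pth.z)))
def l7 : Tr := Tr.L (Pth.r (Pth.l (Pth.r (Pth.l Pth.z))))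
def l8 : Tr := Tr.L (Pth.r (Pth.l (Pth.r (Pth.r Pth.z))))
def l9 : Tr := Tr.L (Pth.r (Pth.r (Pth.l Pth.z)))
def l10 : Tr := Tr.L (Pth.r (Pth.r (Pth.r (Pth.l Pth.z))))
def l11 : Tr := Tr.L (Pth.r (Pth.r (Pth.r (Pth.r Pth.z))))
end T1
def b2_0 : Bx := Bx.mk (St.mk (I.pos (nat_lit 158367744) (nat_lit 234864640)) (I.mix (nat_lit 2342912) (nat_lit 71352320)) (I.mix (nat_lit 3211264) (nat_lit 101105664)) (I.pos (nat_lit 183615488) (nat_lit 296157184)) (I.mix (nat_lit 95420416) (nat_lit 49856512)) (I.mix (nat_lit 66469888) (nat_lit 55721984)) (I.mix (nat_lit 78266368) (nat_lit 75988992)))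
  false (nat_lit 17721738)
def b2_1 : Bx := Bx.mk (St.mk (I.mix (nat_lit 31277056) (nat_lit 100712448)) (I.mix (nat_lit 9371648) (nat_lit 38404096)) (I.mix (nat_lit 21381120) (nat_lit 12156928)) (I.pos (nat_lit 81248256) (nat_lit 126222336)) (I.mix (nat_lit 27607040) (nat_lit 33669120)) (I.mix (nat_lit 28098560) (nat_lit 22511616)) (I.mix (nat_lit 18890752) (nat_lit 11403264)))
  false (nat_lit 0)
def b2_2 : Bx := Bx.mk (St.mk (I.pos (nat_lit 78217216) (nat_lit 124436480)) (I.mix (nat_lit 58048512) (nat_lit 11681792)) (I.neg (nat_lit 3162112) (nat_lit 56934400)) (I.pos (nat_lit 111607808) (nat_lit 146898944)) (I.mix (nat_lit 77070336) (nat_lit 26034176)) (I.mix (nat_lit 25067520) (nat_lit 59555840)) (I.mix (nat_lit 18104320) (nat_lit 41943040)))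
  false (nat_lit 0)
def b2_3 : Bx := Bx.mk (St.mk (I.mix (nat_lit 50593792) (nat_lit 29310976)) (I.mix (nat_lit 34471936) (nat_lit 7962624)) (I.mix (nat_lit 14581760) (nat_lit 557056)) (I.pos (nat_lit 82493440) (nat_lit 100466688)) (I.mix (nat_lit 32899072) (nat_lit 17727488)) (I.mix (nat_lit 15302656) (nat_lit 24444928)) (I.mix (nat_lit 9322496) (nat_lit 5177344)))
  false (nat_lit 0)
def b2_4 : Bx := Bx.mk (St.mk (I.pos (nat_lit 89128960) (nat_lit 166674432)) (I.neg (nat_lit 1097728) (nat_lit 70762496)) (I.neg (nat_lit 3063808) (nat_lit 69009408)) (I.pos (nat_lit 124207104) (nat_lit 193757184)) (I.mix (nat_lit 75235328) (nat_lit 39518208)) (I.mix (nat_lit 37879808) (nat_lit 50479104)) (I.mix (nat_lit 26558464) (nat_lit 43778048)))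
  false (nat_lit 0)
def b2_5 : Bx := Bx.mk (St.mk (I.mix (nat_lit 34471936) (nat_lit 49561600)) (I.mix (nat_lit 35586048) (nat_lit 7634944)) (I.mix (nat_lit 17022976) (nat_lit 131072)) (I.pos (nat_lit 81641472) (nat_lit 101105664)) (I.mix (nat_lit 24788992) (nat_lit 26673152)) (I.mix (nat_lit 16384000) (nat_lit 25608192)) (I.mix (nat_lit 6733824) (nat_lit 9830400)))
  false (nat_lit 0)
def b2_6 : Bx := Bx.mk (St.mk (I.pos (nat_lit 160825344) (nat_lit 216858624)) (I.mix (nat_lit 4046848) (nat_lit 65781760)) (I.pos (nat_lit 5931008) (nat_lit 87719936)) (I.pos (nat_lit 193626112) (nat_lit 264437760)) (I.mix (nat_lit 108724224) (nat_lit 34406400)) (I.mix (nat_lit 102416384) (nat_lit 47218688)) (I.mix (nat_lit 97697792) (nat_lit 41271296)))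
  false (nat_lit 0)
def b2_7 : Bx := Bx.mk (St.mk (I.mix (nat_lit 50839552) (nat_lit 78905344)) (I.mix (nat_lit 9797632) (nat_lit 35635200)) (I.mix (nat_lit 17317888) (nat_lit 10862592)) (I.pos (nat_lit 81444864) (nat_lit 108150784)) (I.mix (nat_lit 31916032) (nat_lit 24936448)) (I.mix (nat_lit 29523968) (nat_lit 16711680)) (I.mix (nat_lit 11010048) (nat_lit 9945088)))
  false (nat_lit 0)
def b2_8 : Bx := Bx.mk (St.mk (I.pos (nat_lit 191807488) (nat_lit 286638080)) (I.mix (nat_lit 28377088) (nat_lit 47104000)) (I.mix (nat_lit 101548032) (nat_lit 54378496)) (I.pos (nat_lit 245907456) (nat_lit 396460032)) (I.mix (nat_lit 72712192) (nat_lit 43188224)) (I.mix (nat_lit 53575680) (nat_lit 34881536)) (I.mix (nat_lit 86032384) (nat_lit 69173248)))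
  false (nat_lit 6836738)
def b2_9 : Bx := Bx.mk (St.mk (I.pos (nat_lit 139214848) (nat_lit 202358784)) (I.mix (nat_lit 40697856) (nat_lit 20905984)) (I.mix (nat_lit 43024384) (nat_lit 32473088)) (I.pos (nat_lit 165003264) (nat_lit 237322240)) (I.mix (nat_lit 45252608) (nat_lit 42762240)) (I.mix (nat_lit 46415872) (nat_lit 41254912)) (I.mix (nat_lit 44138496) (nat_lit 39976960)))
  false (nat_lit 0)
def b2_10 : Bx := Bx.mk (St.mk (I.pos (nat_lit 166166528) (nat_lit 204537856)) (I.mix (nat_lit 9666560) (nat_lit 44007424)) (I.mix (nat_lit 5046272) (nat_lit 64028672)) (I.pos (nat_lit 201736192) (nat_lit 241025024)) (I.mix (nat_lit 98729984) (nat_lit 47251456)) (I.mix (nat_lit 104677376) (nat_lit 53018624)) (I.mix (nat_lit 104316928) (nat_lit 50053120)))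
  false (nat_lit 0)
def b2_11 : Bx := Bx.mk (St.mk (I.pos (nat_lit 181010432) (nat_lit 235978752)) (I.pos (nat_lit 8421376) (nat_lit 63946752)) (I.mix (nat_lit 606208) (nat_lit 86360064)) (I.pos (nat_lit 237387776) (nat_lit 291799040)) (I.mix (nat_lit 84688896) (nat_lit 56033280)) (I.mix (nat_lit 70942720) (nat_lit 48218112)) (I.mix (nat_lit 103776256) (nat_lit 60538880)))
  false (nat_lit 2448186)
def t2 : BTr := (BTr.n (BTr.n (BTr.n (BTr.b b2_0) (BTr.n (BTr.b b2_1) (BTr.b b2_2))) (BTr.n (BTr.b b2_3) (BTr.n (BTr.b b2_4) (BTr.b b2_5)))) (BTr.n (BTr.n (BTr.b b2_6) (BTr.n (BTr.b b2_7) (BTr.b b2_8))) (BTr.n (BTr.b b2_9) (BTr.n (BTr.b b2_10) (BTr.b b2_11)))))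
namespace T2
def l0 : Tr := Tr.L (Pth.l (Pth.l (Pth.l Pth.z)))
def l1 : Tr := Tr.L (Pth.l (Pth.l (Pth.r (Pth.l Pth.z))))
def l2 : Tr := Tr.L (Pth.l (Pth.l (Pth.r (Pth.r Pth.z))))
def l3 : Tr := Tr.L (Pth.l (Pth.r (Pth.l Pth.z)))
def l4 : Tr := Tr.L (Pth.l (Pth.r (Pth.r (Pth.l Pth.z))))
def l5 : Tr := Tr.L (Pth.l (Pth.r (Pth.r (Pth.r Pth.z))))
def l6 : Tr := Tr.L (Pth.r (Pth.l (Pth.l Pth.z)))
def l7 : Tr := Tr.L (Pth.r (Pth.l (Pth.r (Pth.l Pth.z))))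
def l8 : Tr := Tr.L (Pth.r (Pth.l (Pth.r (Pth.r Pth.z))))
def l9 : Tr := Tr.L (Pth.r (Pth.r (Pth.l Pth.z)))
def l10 : Tr := Tr.L (Pth.r (Pth.r (Pth.r (Pth.l Pth.z))))
def l11 : Tr := Tr.L (Pth.r (Pth.r (Pth.r (Pth.r Pth.z))))
end T2
def b3_0 : Bx := Bx.mk (St.mk (I.pos (nat_lit 158089216) (nat_lit 244383744)) (I.mix (nat_lit 1884160) (nat_lit 55541760)) (I.mix (nat_lit 3440640) (nat_lit 108756992)) (I.pos (nat_lit 92667904) (nat_lit 223330304)) (I.mix (nat_lit 86540288) (nat_lit 43368448)) (I.mix (nat_lit 67485696) (nat_lit 54853632)) (I.mix (nat_lit 90783744) (nat_lit 71892992)))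
  false (nat_lit 0)
def b3_1 : Bx := Bx.mk (St.mk (I.pos (nat_lit 117293056) (nat_lit 190595072)) (I.neg (nat_lit 2686976) (nat_lit 54427648)) (I.mix (nat_lit 51150848) (nat_lit 5242880)) (I.pos (nat_lit 69025792) (nat_lit 151191552)) (I.mix (nat_lit 61882368) (nat_lit 30769152)) (I.mix (nat_lit 33751040) (nat_lit 42811392)) (I.mix (nat_lit 29114368) (nat_lit 44072960)))
  false (nat_lit 0)
def b3_2 : Bx := Bx.mk (St.mk (I.mix (nat_lit 11649024) (nat_lit 130039808)) (I.mix (nat_lit 27901952) (nat_lit 5160960)) (I.mix (nat_lit 19333120) (nat_lit 6668288)) (I.mix (nat_lit 2637824) (nat_lit 71368704)) (I.mix (nat_lit 24051712) (nat_lit 17842176)) (I.mix (nat_lit 14008320) (nat_lit 19087360)) (I.mix (nat_lit 9027584) (nat_lit 13910016)))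
  false (nat_lit 0)
def b3_3 : Bx := Bx.mk (St.mk (I.pos (nat_lit 175718400) (nat_lit 218775552)) (I.mix (nat_lit 15286272) (nat_lit 51953664)) (I.pos (nat_lit 4259840) (nat_lit 94617600)) (I.pos (nat_lit 117112832) (nat_lit 195067904)) (I.mix (nat_lit 111132672) (nat_lit 34914304)) (I.mix (nat_lit 108691456) (nat_lit 49135616)) (I.mix (nat_lit 134807552) (nat_lit 47693824)))
  false (nat_lit 0)
def b3_4 : Bx := Bx.mk (St.mk (I.mix (nat_lit 15335424) (nat_lit 152911872)) (I.mix (nat_lit 13713408) (nat_lit 34897920)) (I.mix (nat_lit 7766016) (nat_lit 31997952)) (I.mix (nat_lit 3244032) (nat_lit 92520448)) (I.mix (nat_lit 46055424) (nat_lit 19562496)) (I.mix (nat_lit 38060032) (nat_lit 20250624)) (I.mix (nat_lit 27951104) (nat_lit 12976128)))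
  false (nat_lit 0)
def b3_5 : Bx := Bx.mk (St.mk (I.pos (nat_lit 153796608) (nat_lit 214810624)) (I.mix (nat_lit 38371328) (nat_lit 15499264)) (I.mix (nat_lit 33357824) (nat_lit 40976384)) (I.pos (nat_lit 94781440) (nat_lit 184025088)) (I.mix (nat_lit 42680320) (nat_lit 47693824)) (I.mix (nat_lit 46841856) (nat_lit 40714240)) (I.mix (nat_lit 49922048) (nat_lit 45088768)))
  false (nat_lit 0)
def b3_6 : Bx := Bx.mk (St.mk (I.mix (nat_lit 33128448) (nat_lit 144457728)) (I.mix (nat_lit 7225344) (nat_lit 23527424)) (I.mix (nat_lit 6029312) (nat_lit 25182208)) (I.mix (nat_lit 6881280) (nat_lit 91422720)) (I.mix (nat_lit 26689536) (nat_lit 23494656)) (I.mix (nat_lit 25870336) (nat_lit 18874368)) (I.mix (nat_lit 22740992) (nat_lit 14778368)))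
  false (nat_lit 0)
def b3_7 : Bx := Bx.mk (St.mk (I.pos (nat_lit 115671040) (nat_lit 166100992)) (I.mix (nat_lit 55115776) (nat_lit 9420800)) (I.mix (nat_lit 53886976) (nat_lit 12599296)) (I.pos (nat_lit 52772864) (nat_lit 118685696)) (I.mix (nat_lit 73875456) (nat_lit 22593536)) (I.mix (nat_lit 28606464) (nat_lit 66420736)) (I.mix (nat_lit 23871488) (nat_lit 57556992)))
  false (nat_lit 0)
def b3_8 : Bx := Bx.mk (St.mk (I.pos (nat_lit 33587200) (nat_lit 108658688)) (I.mix (nat_lit 24870912) (nat_lit 4866048)) (I.mix (nat_lit 16236544) (nat_lit 5210112)) (I.pos (nat_lit 3997696) (nat_lit 60309504)) (I.mix (nat_lit 24772608) (nat_lit 10272768)) (I.mix (nat_lit 10862592) (nat_lit 24199168)) (I.mix (nat_lit 6668288) (nat_lit 14974976)))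
  false (nat_lit 0)
def b3_9 : Bx := Bx.mk (St.mk (I.pos (nat_lit 206667776) (nat_lit 283394048)) (I.mix (nat_lit 23117824) (nat_lit 37175296)) (I.mix (nat_lit 43073536) (nat_lit 79183872)) (I.pos (nat_lit 181338112) (nat_lit 318930944)) (I.mix (nat_lit 64864256) (nat_lit 40108032)) (I.mix (nat_lit 50020352) (nat_lit 31965184)) (I.mix (nat_lit 80281600) (nat_lit 52641792)))
  false (nat_lit 0)
def b3_10 : Bx := Bx.mk (St.mk (I.pos (nat_lit 188891136) (nat_lit 238321664)) (I.pos (nat_lit 11091968) (nat_lit 46317568)) (I.pos (nat_lit 29605888) (nat_lit 92061696)) (I.pos (nat_lit 159662080) (nat_lit 215859200)) (I.mix (nat_lit 78331904) (nat_lit 50397184)) (I.mix (nat_lit 72318976) (nat_lit 48529408)) (I.mix (nat_lit 112934912) (nat_lit 62078976)))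
  false (nat_lit 0)
def b3_11 : Bx := Bx.mk (St.mk (I.pos (nat_lit 178634752) (nat_lit 212942848)) (I.mix (nat_lit 19791872) (nat_lit 28639232)) (I.mix (nat_lit 1310720) (nat_lit 60424192)) (I.pos (nat_lit 120389632) (nat_lit 181256192)) (I.mix (nat_lit 85803008) (nat_lit 45694976)) (I.mix (nat_lit 108724224) (nat_lit 52117504)) (I.mix (nat_lit 132055040) (nat_lit 57114624)))
  false (nat_lit 0)
def t3 : BTr := (BTr.n (BTr.n (BTr.n (BTr.b b3_0) (BTr.n (BTr.b b3_1) (BTr.b b3_2))) (BTr.n (BTr.b b3_3) (BTr.n (BTr.b b3_4) (BTr.b b3_5)))) (BTr.n (BTr.n (BTr.b b3_6) (BTr.n (BTr.b b3_7) (BTr.b b3_8))) (BTr.n (BTr.b b3_9) (BTr.n (BTr.b b3_10) (BTr.b b3_11)))))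
namespace T3
def l0 : Tr := Tr.L (Pth.l (Pth.l (Pth.l Pth.z)))
def l1 : Tr := Tr.L (Pth.l (Pth.l (Pth.r (Pth.l Pth.z))))
def l2 : Tr := Tr.L (Pth.l (Pth.l (Pth.r (Pth.r Pth.z))))
def l3 : Tr := Tr.L (Pth.l (Pth.r (Pth.l Pth.z)))
def l4 : Tr := Tr.L (Pth.l (Pth.r (Pth.r (Pth.l Pth.z))))
def l5 : Tr := Tr.L (Pth.l (Pth.r (Pth.r (Pth.r Pth.z))))
def l6 : Tr := Tr.L (Pth.r (Pth.l (Pth.l Pth.z)))
def l7 : Tr := Tr.L (Pth.r (Pth.l (Pth.r (Pth.l Pth.z))))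
def l8 : Tr := Tr.L (Pth.r (Pth.l (Pth.r (Pth.r Pth.z))))
def l9 : Tr := Tr.L (Pth.r (Pth.r (Pth.l Pth.z)))
def l10 : Tr := Tr.L (Pth.r (Pth.r (Pth.r (Pth.l Pth.z))))
def l11 : Tr := Tr.L (Pth.r (Pth.r (Pth.r (Pth.r Pth.z))))
end T3
def b4_0 : Bx := Bx.mk (St.mk (I.pos (nat_lit 155877376) (nat_lit 233439232)) (I.mix (nat_lit 2179072) (nat_lit 65536000)) (I.mix (nat_lit 3407872) (nat_lit 107839488)) (I.pos (nat_lit 182321152) (nat_lit 287522816)) (I.mix (nat_lit 90570752) (nat_lit 51888128)) (I.mix (nat_lit 71270400) (nat_lit 57655296)) (I.mix (nat_lit 85966848) (nat_lit 74383360)))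
  false (nat_lit 41312689)
def b4_1 : Bx := Bx.mk (St.mk (I.pos (nat_lit 93470720) (nat_lit 169181184)) (I.neg (nat_lit 5488640) (nat_lit 70746112)) (I.mix (nat_lit 58277888) (nat_lit 11075584)) (I.pos (nat_lit 129351680) (nat_lit 195264512)) (I.mix (nat_lit 66191360) (nat_lit 37519360)) (I.mix (nat_lit 33243136) (nat_lit 42139648)) (I.mix (nat_lit 26099712) (nat_lit 36519936)))
  false (nat_lit 0)
def b4_2 : Bx := Bx.mk (St.mk (I.mix (nat_lit 30834688) (nat_lit 50593792)) (I.mix (nat_lit 35586048) (nat_lit 7307264)) (I.mix (nat_lit 8617984) (nat_lit 7716864)) (I.pos (nat_lit 82493440) (nat_lit 100532224)) (I.mix (nat_lit 20938752) (nat_lit 29376512)) (I.mix (nat_lit 16039936) (nat_lit 22806528)) (I.mix (nat_lit 5439488) (nat_lit 8650752)))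
  false (nat_lit 0)
def b4_3 : Bx := Bx.mk (St.mk (I.pos (nat_lit 157990912) (nat_lit 212238336)) (I.mix (nat_lit 4456448) (nat_lit 63209472)) (I.pos (nat_lit 18972672) (nat_lit 102039552)) (I.pos (nat_lit 185942016) (nat_lit 253034496)) (I.mix (nat_lit 107233280) (nat_lit 32964608)) (I.mix (nat_lit 97124352) (nat_lit 50184192)) (I.mix (nat_lit 99450880) (nat_lit 43122688)))
  false (nat_lit 21699930)
def b4_4 : Bx := Bx.mk (St.mk (I.mix (nat_lit 51920896) (nat_lit 76840960)) (I.mix (nat_lit 10747904) (nat_lit 35684352)) (I.mix (nat_lit 8945664) (nat_lit 18710528)) (I.pos (nat_lit 82231296) (nat_lit 109527040)) (I.mix (nat_lit 35405824) (nat_lit 21118976)) (I.mix (nat_lit 29081600) (nat_lit 16220160)) (I.mix (nat_lit 10780672) (nat_lit 8716288)))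
  false (nat_lit 0)
def b4_5 : Bx := Bx.mk (St.mk (I.mix (nat_lit 34734080) (nat_lit 99680256)) (I.mix (nat_lit 7225344) (nat_lit 38207488)) (I.mix (nat_lit 10715136) (nat_lit 22102016)) (I.pos (nat_lit 79970304) (nat_lit 125616128)) (I.mix (nat_lit 31440896) (nat_lit 30425088)) (I.mix (nat_lit 30752768) (nat_lit 21889024)) (I.mix (nat_lit 19480576) (nat_lit 12943360)))
  false (nat_lit 0)
def b4_6 : Bx := Bx.mk (St.mk (I.pos (nat_lit 78807040) (nat_lit 128450560)) (I.mix (nat_lit 59817984) (nat_lit 10616832)) (I.mix (nat_lit 47153152) (nat_lit 4734976)) (I.pos (nat_lit 112394240) (nat_lit 150601728)) (I.mix (nat_lit 73826304) (nat_lit 22528000)) (I.mix (nat_lit 25870336) (nat_lit 58425344)) (I.mix (nat_lit 17891328) (nat_lit 37748736)))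
  false (nat_lit 0)
def b4_7 : Bx := Bx.mk (St.mk (I.mix (nat_lit 49774592) (nat_lit 32686080)) (I.mix (nat_lit 34717696) (nat_lit 6750208)) (I.mix (nat_lit 7143424) (nat_lit 8765440)) (I.pos (nat_lit 82509824) (nat_lit 100515840)) (I.mix (nat_lit 29622272) (nat_lit 20168704)) (I.mix (nat_lit 15745024) (nat_lit 24870912)) (I.mix (nat_lit 9453568) (nat_lit 5472256)))
  false (nat_lit 0)
def b4_8 : Bx := Bx.mk (St.mk (I.pos (nat_lit 137314304) (nat_lit 200704000)) (I.mix (nat_lit 39895040) (nat_lit 19169280)) (I.mix (nat_lit 27049984) (nat_lit 47677440)) (I.pos (nat_lit 164921344) (nat_lit 230752256)) (I.mix (nat_lit 49135616) (nat_lit 53706752)) (I.mix (nat_lit 52543488) (nat_lit 47579136)) (I.mix (nat_lit 48594944) (nat_lit 44318720)))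
  false (nat_lit 0)
def b4_9 : Bx := Bx.mk (St.mk (I.pos (nat_lit 198492160) (nat_lit 288456704)) (I.mix (nat_lit 19955712) (nat_lit 49610752)) (I.mix (nat_lit 55017472) (nat_lit 85590016)) (I.pos (nat_lit 251068416) (nat_lit 395313152)) (I.mix (nat_lit 64061440) (nat_lit 49610752)) (I.mix (nat_lit 51167232) (nat_lit 33488896)) (I.mix (nat_lit 85295104) (nat_lit 53035008)))
  false (nat_lit 37914578)
def b4_10 : Bx := Bx.mk (St.mk (I.pos (nat_lit 178995200) (nat_lit 227016704)) (I.pos (nat_lit 18038784) (nat_lit 58982400)) (I.pos (nat_lit 35471360) (nat_lit 101384192)) (I.pos (nat_lit 229933056) (nat_lit 276021248)) (I.mix (nat_lit 87359488) (nat_lit 58163200)) (I.mix (nat_lit 77807616) (nat_lit 49102848)) (I.mix (nat_lit 114884608) (nat_lit 57262080)))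
  false (nat_lit 16620443)
def b4_11 : Bx := Bx.mk (St.mk (I.pos (nat_lit 161726464) (nat_lit 200998912)) (I.mix (nat_lit 11583488) (nat_lit 42975232)) (I.pos (nat_lit 8945664) (nat_lit 80445440)) (I.pos (nat_lit 191594496) (nat_lit 233750528)) (I.mix (nat_lit 111034368) (nat_lit 45252608)) (I.mix (nat_lit 120684544) (nat_lit 50085888)) (I.mix (nat_lit 125321216) (nat_lit 47300608)))
  false (nat_lit 0)
def t4 : BTr := (BTr.n (BTr.n (BTr.n (BTr.b b4_0) (BTr.n (BTr.b b4_1) (BTr.b b4_2))) (BTr.n (BTr.b b4_3) (BTr.n (BTr.b b4_4) (BTr.b b4_5)))) (BTr.n (BTr.n (BTr.b b4_6) (BTr.n (BTr.b b4_7) (BTr.b b4_8))) (BTr.n (BTr.b b4_9) (BTr.n (BTr.b b4_10) (BTr.b b4_11)))))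
namespace T4
def l0 : Tr := Tr.L (Pth.l (Pth.l (Pth.l Pth.z)))
def l1 : Tr := Tr.L (Pth.l (Pth.l (Pth.r (Pth.l Pth.z))))
def l2 : Tr := Tr.L (Pth.l (Pth.l (Pth.r (Pth.r Pth.z))))
def l3 : Tr := Tr.L (Pth.l (Pth.r (Pth.l Pth.z)))
def l4 : Tr := Tr.L (Pth.l (Pth.r (Pth.r (Pth.l Pth.z))))
def l5 : Tr := Tr.L (Pth.l (Pth.r (Pth.r (Pth.r Pth.z))))
def l6 : Tr := Tr.L (Pth.r (Pth.l (Pth.l Pth.z)))
def l7 : Tr := Tr.L (Pth.r (Pth.l (Pth.r (Pth.l Pth.z))))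
def l8 : Tr := Tr.L (Pth.r (Pth.l (Pth.r (Pth.r Pth.z))))
def l9 : Tr := Tr.L (Pth.r (Pth.r (Pth.l Pth.z)))
def l10 : Tr := Tr.L (Pth.r (Pth.r (Pth.r (Pth.l Pth.z))))
def l11 : Tr := Tr.L (Pth.r (Pth.r (Pth.r (Pth.r Pth.z))))
end T4
def b5_0 : Bx := Bx.mk (St.mk (I.pos (nat_lit 158302208) (nat_lit 236863488)) (I.mix (nat_lit 1933312) (nat_lit 57262080)) (I.mix (nat_lit 3506176) (nat_lit 111345664)) (I.pos (nat_lit 138428416) (nat_lit 259850240)) (I.mix (nat_lit 85557248) (nat_lit 49856512)) (I.mix (nat_lit 64733184) (nat_lit 58212352)) (I.mix (nat_lit 89964544) (nat_lit 72368128)))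
  false (nat_lit 26632597)
def b5_1 : Bx := Bx.mk (St.mk (I.pos (nat_lit 101842944) (nat_lit 180797440)) (I.neg (nat_lit 4816896) (nat_lit 63537152)) (I.mix (nat_lit 52412416) (nat_lit 17498112)) (I.pos (nat_lit 97468416) (nat_lit 183664640)) (I.mix (nat_lit 65093632) (nat_lit 35749888)) (I.mix (nat_lit 36143104) (nat_lit 44318720)) (I.mix (nat_lit 29360128) (nat_lit 41664512)))
  false (nat_lit 0)
def b5_2 : Bx := Bx.mk (St.mk (I.mix (nat_lit 23281664) (nat_lit 88326144)) (I.mix (nat_lit 32374784) (nat_lit 7405568)) (I.mix (nat_lit 13271040) (nat_lit 12042240)) (I.pos (nat_lit 38862848) (nat_lit 91045888)) (I.mix (nat_lit 23232512) (nat_lit 25231360)) (I.mix (nat_lit 15925248) (nat_lit 23969792)) (I.mix (nat_lit 7749632) (nat_lit 12877824)))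
  false (nat_lit 0)
def b5_3 : Bx := Bx.mk (St.mk (I.pos (nat_lit 166100992) (nat_lit 214450176)) (I.mix (nat_lit 8830976) (nat_lit 61046784)) (I.pos (nat_lit 16957440) (nat_lit 109592576)) (I.pos (nat_lit 151928832) (nat_lit 231161856)) (I.mix (nat_lit 119717888) (nat_lit 34652160)) (I.mix (nat_lit 114376704) (nat_lit 53051392)) (I.mix (nat_lit 129859584) (nat_lit 47906816)))
  false (nat_lit 25692466)
def b5_4 : Bx := Bx.mk (St.mk (I.mix (nat_lit 39010304) (nat_lit 118849536)) (I.mix (nat_lit 13697024) (nat_lit 38502400)) (I.mix (nat_lit 3801088) (nat_lit 32620544)) (I.pos (nat_lit 40452096) (nat_lit 109297664)) (I.mix (nat_lit 44613632) (nat_lit 21872640)) (I.mix (nat_lit 38666240) (nat_lit 19595264)) (I.mix (nat_lit 22118400) (nat_lit 12337152)))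
  false (nat_lit 0)
def b5_5 : Bx := Bx.mk (St.mk (I.pos (nat_lit 143818752) (nat_lit 207486976)) (I.mix (nat_lit 40337408) (nat_lit 20119552)) (I.mix (nat_lit 27148288) (nat_lit 55410688)) (I.pos (nat_lit 128352256) (nat_lit 217513984)) (I.mix (nat_lit 47300608) (nat_lit 50020352)) (I.mix (nat_lit 50102272) (nat_lit 47153152)) (I.mix (nat_lit 50905088) (nat_lit 47988736)))
  false (nat_lit 0)
def b5_6 : Bx := Bx.mk (St.mk (I.mix (nat_lit 31571968) (nat_lit 126156800)) (I.mix (nat_lit 8110080) (nat_lit 34193408)) (I.mix (nat_lit 4521984) (nat_lit 33226752)) (I.pos (nat_lit 37715968) (nat_lit 116883456)) (I.mix (nat_lit 31621120) (nat_lit 28098560)) (I.mix (nat_lit 32407552) (nat_lit 22462464)) (I.mix (nat_lit 23822336) (nat_lit 15482880)))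
  false (nat_lit 0)
def b5_7 : Bx := Bx.mk (St.mk (I.pos (nat_lit 92848128) (nat_lit 151240704)) (I.mix (nat_lit 61947904) (nat_lit 11108352)) (I.mix (nat_lit 49954816) (nat_lit 13139968)) (I.pos (nat_lit 79265792) (nat_lit 147456000)) (I.mix (nat_lit 71892992) (nat_lit 24576000)) (I.mix (nat_lit 29245440) (nat_lit 63062016)) (I.mix (nat_lit 21397504) (nat_lit 47022080)))
  false (nat_lit 0)
def b5_8 : Bx := Bx.mk (St.mk (I.mix (nat_lit 36765696) (nat_lit 70795264)) (I.mix (nat_lit 29032448) (nat_lit 5865472)) (I.mix (nat_lit 10797056) (nat_lit 9666560)) (I.pos (nat_lit 41451520) (nat_lit 80707584)) (I.mix (nat_lit 28459008) (nat_lit 18366464)) (I.mix (nat_lit 15122432) (nat_lit 24952832)) (I.mix (nat_lit 7569408) (nat_lit 9502720)))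
  false (nat_lit 0)
def b5_9 : Bx := Bx.mk (St.mk (I.pos (nat_lit 165412864) (nat_lit 208945152)) (I.mix (nat_lit 18808832) (nat_lit 36995072)) (I.pos (nat_lit 6275072) (nat_lit 77611008)) (I.pos (nat_lit 150781952) (nat_lit 219742208)) (I.mix (nat_lit 96485376) (nat_lit 44040192)) (I.mix (nat_lit 100188160) (nat_lit 46268416)) (I.mix (nat_lit 113672192) (nat_lit 45973504)))
  false (nat_lit 0)
def b5_10 : Bx := Bx.mk (St.mk (I.pos (nat_lit 197132288) (nat_lit 285900800)) (I.mix (nat_lit 22593536) (nat_lit 43335680)) (I.mix (nat_lit 40026112) (nat_lit 90882048)) (I.pos (nat_lit 210173952) (nat_lit 364462080)) (I.mix (nat_lit 65798144) (nat_lit 46383104)) (I.mix (nat_lit 53329920) (nat_lit 32391168)) (I.mix (nat_lit 82640896) (nat_lit 51789824)))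
  false (nat_lit 20706001)
def b5_11 : Bx := Bx.mk (St.mk (I.pos (nat_lit 180781056) (nat_lit 231129088)) (I.pos (nat_lit 14745600) (nat_lit 53313536)) (I.pos (nat_lit 38567936) (nat_lit 104185856)) (I.pos (nat_lit 192462848) (nat_lit 249774080)) (I.mix (nat_lit 84639744) (nat_lit 57376768)) (I.mix (nat_lit 81166336) (nat_lit 51691520)) (I.mix (nat_lit 123240448) (nat_lit 65683456)))
  false (nat_lit 844686)
def t5 : BTr := (BTr.n (BTr.n (BTr.n (BTr.b b5_0) (BTr.n (BTr.b b5_1) (BTr.b b5_2))) (BTr.n (BTr.b b5_3) (BTr.n (BTr.b b5_4) (BTr.b b5_5)))) (BTr.n (BTr.n (BTr.b b5_6) (BTr.n (BTr.b b5_7) (BTr.b b5_8))) (BTr.n (BTr.b b5_9) (BTr.n (BTr.b b5_10) (BTr.b b5_11)))))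
namespace T5
def l0 : Tr := Tr.L (Pth.l (Pth.l (Pth.l Pth.z)))
def l1 : Tr := Tr.L (Pth.l (Pth.l (Pth.r (Pth.l Pth.z))))
def l2 : Tr := Tr.L (Pth.l (Pth.l (Pth.r (Pth.r Pth.z))))
def l3 : Tr := Tr.L (Pth.l (Pth.r (Pth.l Pth.z)))
def l4 : Tr := Tr.L (Pth.l (Pth.r (Pth.r (Pth.l Pth.z))))
def l5 : Tr := Tr.L (Pth.l (Pth.r (Pth.r (Pth.r Pth.z))))
def l6 : Tr := Tr.L (Pth.r (Pth.l (Pth.l Pth.z)))
def l7 : Tr := Tr.L (Pth.r (Pth.l (Pth.r (Pth.l Pth.z))))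
def l8 : Tr := Tr.L (Pth.r (Pth.l (Pth.r (Pth.r Pth.z))))
def l9 : Tr := Tr.L (Pth.r (Pth.r (Pth.l Pth.z)))
def l10 : Tr := Tr.L (Pth.r (Pth.r (Pth.r (Pth.l Pth.z))))
def l11 : Tr := Tr.L (Pth.r (Pth.r (Pth.r (Pth.r Pth.z))))
end T5
theorem bx0_0 : BoxOK sI cl6 cl7 cl13 t2 t4 b0_0 :=
  box_mk (TrL.c (I.pos (nat_lit 0) (nat_lit 0)) (xa (xb T2.l0 (xa T2.l0 T2.l0)) (xb T2.l0 (xa T2.l0 T2.l0)))
  (TrL.c (I.pos (nat_lit 0) (nat_lit 0)) T4.l1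
  (TrL.c (I.pos (nat_lit 0) (nat_lit 89480386)) (xR T2.l1 T2.l1)
  (TrL.c (I.pos (nat_lit 0) (nat_lit 41530880)) T4.l2
  (TrL.c (I.pos (nat_lit 0) (nat_lit 0)) (xa T4.l3 (xb T4.l3 (xa T4.l3 T4.l3)))
  (TrL.c (I.pos (nat_lit 0) (nat_lit 0)) T2.l2
  (TrL.c (I.mix (nat_lit 41527258) (nat_lit 41530880)) (xR T4.l4 T4.l4)
  (TrL.c (I.mix (nat_lit 41527258) (nat_lit 4274)) T2.l3
  TrL.n)))))))) (by decide +kernel)
theorem bx0_1 : BoxOK sI cl6 cl7 cl13 t2 t4 b0_1 :=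
  box_mk (TrL.c (I.pos (nat_lit 0) (nat_lit 0)) (xa (xa T2.l8 T2.l8) (xa T2.l8 T2.l8))
  (TrL.c (I.pos (nat_lit 0) (nat_lit 0)) T4.l1
  (TrL.c (I.pos (nat_lit 0) (nat_lit 89480386)) T2.l1
  (TrL.c (I.pos (nat_lit 0) (nat_lit 41530880)) T4.l2
  (TrL.c (I.pos (nat_lit 0) (nat_lit 0)) T4.l8
  (TrL.c (I.pos (nat_lit 0) (nat_lit 0)) T2.l2
  (TrL.c (I.mix (nat_lit 41527258) (nat_lit 41530880)) T4.l4
  (TrL.c (I.mix (nat_lit 41527258) (nat_lit 4274)) T2.l3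
  TrL.n)))))))) (by decide +kernel)
theorem bx0_2 : BoxOK sI cl6 cl7 cl13 t2 t4 b0_2 :=
  box_mk (TrL.c (I.pos (nat_lit 0) (nat_lit 0)) (xb T2.l8 T2.l8)
  (TrL.c (I.pos (nat_lit 0) (nat_lit 0)) T4.l1
  (TrL.c (I.pos (nat_lit 0) (nat_lit 89480386)) (xR T2.l1 T2.l1)
  (TrL.c (I.pos (nat_lit 0) (nat_lit 41530880)) T4.l2
  (TrL.c (I.pos (nat_lit 0) (nat_lit 0)) T4.l8
  (TrL.c (I.pos (nat_lit 0) (nat_lit 0)) T2.l2
  (TrL.c (I.mix (nat_lit 41527258) (nat_lit 41530880)) T4.l4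
  (TrL.c (I.mix (nat_lit 41527258) (nat_lit 4274)) T2.l3
  TrL.n)))))))) (by decide +kernel)
theorem bx0_3 : BoxOK sI cl6 cl7 cl13 t2 t4 b0_3 :=
  box_mk (TrL.c (I.pos (nat_lit 0) (nat_lit 0)) (xa T2.l8 T2.l8)
  (TrL.c (I.pos (nat_lit 0) (nat_lit 0)) T4.l1
  (TrL.c (I.pos (nat_lit 0) (nat_lit 89480386)) T2.l1
  (TrL.c (I.pos (nat_lit 0) (nat_lit 41530880)) T4.l2
  (TrL.c (I.pos (nat_lit 0) (nat_lit 0)) T4.l8
  (TrL.c (I.pos (nat_lit 0) (nat_lit 0)) T2.l2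
  (TrL.c (I.mix (nat_lit 41527258) (nat_lit 41530880)) T4.l4
  (TrL.c (I.mix (nat_lit 41527258) (nat_lit 4274)) T2.l3
  TrL.n)))))))) (by decide +kernel)
theorem bx0_4 : BoxOK sI cl6 cl7 cl13 t2 t4 b0_4 :=
  box_mk (TrL.c (I.pos (nat_lit 0) (nat_lit 0)) (xa T2.l0 T2.l0)
  (TrL.c (I.pos (nat_lit 0) (nat_lit 0)) T4.l1
  (TrL.c (I.pos (nat_lit 0) (nat_lit 89480386)) (xR T2.l1 T2.l1)
  (TrL.c (I.pos (nat_lit 0) (nat_lit 41530880)) T4.l2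
  (TrL.c (I.pos (nat_lit 0) (nat_lit 0)) (xb (xa T4.l3 T4.l3) (xa T4.l3 T4.l3))
  (TrL.c (I.pos (nat_lit 0) (nat_lit 0)) T2.l2
  (TrL.c (I.mix (nat_lit 41527258) (nat_lit 41530880)) (xR T4.l4 T4.l4)
  (TrL.c (I.mix (nat_lit 41527258) (nat_lit 4274)) T2.l3
  TrL.n)))))))) (by decide +kernel)
theorem bx0_5 : BoxOK sI cl6 cl7 cl13 t2 t4 b0_5 :=
  box_mk (TrL.c (I.pos (nat_lit 0) (nat_lit 0)) (xa (xb T2.l8 T2.l8) (xb T2.l8 T2.l8))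
  (TrL.c (I.pos (nat_lit 0) (nat_lit 0)) T4.l1
  (TrL.c (I.pos (nat_lit 0) (nat_lit 89480386)) (xR T2.l1 T2.l1)
  (TrL.c (I.pos (nat_lit 0) (nat_lit 41530880)) T4.l2
  (TrL.c (I.pos (nat_lit 0) (nat_lit 0)) (xa T4.l8 T4.l8)
  (TrL.c (I.pos (nat_lit 0) (nat_lit 0)) T2.l2
  (TrL.c (I.mix (nat_lit 41527258) (nat_lit 41530880)) T4.l4
  (TrL.c (I.mix (nat_lit 41527258) (nat_lit 4274)) T2.l3
  TrL.n)))))))) (by decide +kernel)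
theorem bx0_6 : BoxOK sI cl6 cl7 cl13 t2 t4 b0_6 :=
  box_mk (TrL.c (I.pos (nat_lit 0) (nat_lit 0)) (xa (xa (xb (xa T2.l8 T2.l8) T2.l8) T2.l8) T2.l8)
  (TrL.c (I.pos (nat_lit 0) (nat_lit 0)) T4.l1
  (TrL.c (I.pos (nat_lit 0) (nat_lit 89480386)) T2.l1
  (TrL.c (I.pos (nat_lit 0) (nat_lit 41530880)) T4.l2
  (TrL.c (I.pos (nat_lit 0) (nat_lit 0)) T4.l8
  (TrL.c (I.pos (nat_lit 0) (nat_lit 0)) T2.l2
  (TrL.c (I.mix (nat_lit 41527258) (nat_lit 41530880)) T4.l4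
  (TrL.c (I.mix (nat_lit 41527258) (nat_lit 4274)) T2.l3
  TrL.n)))))))) (by decide +kernel)
theorem bx0_7 : BoxOK sI cl6 cl7 cl13 t2 t4 b0_7 :=
  box_mk (TrL.c (I.pos (nat_lit 0) (nat_lit 0)) (xa (xb T2.l11 T2.l11) (xb T2.l11 T2.l11))
  (TrL.c (I.pos (nat_lit 0) (nat_lit 0)) T4.l1
  (TrL.c (I.pos (nat_lit 0) (nat_lit 89480386)) (xR T2.l1 T2.l1)
  (TrL.c (I.pos (nat_lit 0) (nat_lit 41530880)) T4.l2
  (TrL.c (I.pos (nat_lit 0) (nat_lit 0)) T4.l11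
  (TrL.c (I.pos (nat_lit 0) (nat_lit 0)) T2.l2
  (TrL.c (I.mix (nat_lit 41527258) (nat_lit 41530880)) (xR T4.l4 T4.l4)
  (TrL.c (I.mix (nat_lit 41527258) (nat_lit 4274)) T2.l3
  TrL.n)))))))) (by decide +kernel)
theorem bx0_8 : BoxOK sI cl6 cl7 cl13 t2 t4 b0_8 :=
  box_mk (TrL.c (I.pos (nat_lit 0) (nat_lit 0)) (xa (xa (xb T2.l8 (xa T2.l8 T2.l8)) (xb T2.l8 T2.l8)) (xa T2.l8 T2.l8))
  (TrL.c (I.pos (nat_lit 0) (nat_lit 0)) T4.l1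
  (TrL.c (I.pos (nat_lit 0) (nat_lit 89480386)) T2.l1
  (TrL.c (I.pos (nat_lit 0) (nat_lit 41530880)) T4.l2
  (TrL.c (I.pos (nat_lit 0) (nat_lit 0)) T4.l8
  (TrL.c (I.pos (nat_lit 0) (nat_lit 0)) T2.l2
  (TrL.c (I.mix (nat_lit 41527258) (nat_lit 41530880)) T4.l4
  (TrL.c (I.mix (nat_lit 41527258) (nat_lit 4274)) T2.l3
  TrL.n)))))))) (by decide +kernel)
theorem bx0_9 : BoxOK sI cl6 cl7 cl13 t2 t4 b0_9 :=
  box_mk (TrL.c (I.pos (nat_lit 0) (nat_lit 0)) (xa T2.l0 T2.l0)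
  (TrL.c (I.pos (nat_lit 0) (nat_lit 0)) T4.l1
  (TrL.c (I.pos (nat_lit 0) (nat_lit 89480386)) (xR T2.l1 T2.l1)
  (TrL.c (I.pos (nat_lit 0) (nat_lit 41530880)) T4.l2
  (TrL.c (I.pos (nat_lit 0) (nat_lit 0)) T4.l3
  (TrL.c (I.pos (nat_lit 0) (nat_lit 0)) T2.l2
  (TrL.c (I.mix (nat_lit 41527258) (nat_lit 41530880)) (xR T4.l4 T4.l4)
  (TrL.c (I.mix (nat_lit 41527258) (nat_lit 4274)) T2.l3
  TrL.n)))))))) (by decide +kernel)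
theorem bx0_10 : BoxOK sI cl6 cl7 cl13 t2 t4 b0_10 :=
  box_mk (TrL.c (I.pos (nat_lit 0) (nat_lit 0)) (xa T2.l11 T2.l11)
  (TrL.c (I.pos (nat_lit 0) (nat_lit 0)) T4.l1
  (TrL.c (I.pos (nat_lit 0) (nat_lit 89480386)) (xR T2.l1 T2.l1)
  (TrL.c (I.pos (nat_lit 0) (nat_lit 41530880)) T4.l2
  (TrL.c (I.pos (nat_lit 0) (nat_lit 0)) T4.l11
  (TrL.c (I.pos (nat_lit 0) (nat_lit 0)) T2.l2
  (TrL.c (I.mix (nat_lit 41527258) (nat_lit 41530880)) T4.l4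
  (TrL.c (I.mix (nat_lit 41527258) (nat_lit 4274)) T2.l3
  TrL.n)))))))) (by decide +kernel)
theorem bx0_11 : BoxOK sI cl6 cl7 cl13 t2 t4 b0_11 :=
  box_mk (TrL.c (I.pos (nat_lit 0) (nat_lit 0)) (xb T2.l11 (xa T2.l11 T2.l11))
  (TrL.c (I.pos (nat_lit 0) (nat_lit 0)) T4.l1
  (TrL.c (I.pos (nat_lit 0) (nat_lit 89480386)) (xR T2.l1 T2.l1)
  (TrL.c (I.pos (nat_lit 0) (nat_lit 41530880)) T4.l2
  (TrL.c (I.pos (nat_lit 0) (nat_lit 0)) T4.l11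
  (TrL.c (I.pos (nat_lit 0) (nat_lit 0)) T2.l2
  (TrL.c (I.mix (nat_lit 41527258) (nat_lit 41530880)) (xR T4.l4 T4.l4)
  (TrL.c (I.mix (nat_lit 41527258) (nat_lit 4274)) T2.l3
  TrL.n)))))))) (by decide +kernel)
theorem sv0 : StarV sI cl6 cl7 cl13 t2 t4 t0 :=
  (bt_n (bt_n (bt_n (bt_b bx0_0) (bt_n (bt_b bx0_1) (bt_b bx0_2))) (bt_n (bt_b bx0_3) (bt_n (bt_b bx0_4) (bt_b bx0_5)))) (bt_n (bt_n (bt_b bx0_6) (bt_n (bt_b bx0_7) (bt_b bx0_8))) (bt_n (bt_b bx0_9) (bt_n (bt_b bx0_10) (bt_b bx0_11)))))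
def S0 : StarD := StarD.mk cl6 cl7 cl13 2 4 t0
theorem bx1_0 : BoxOK sI cl6 cl13 cl7 t4 t2 b1_0 :=
  box_mk (TrL.c (I.pos (nat_lit 0) (nat_lit 0)) (xa (xb (xa T4.l0 T4.l0) (xa (xb T4.l0 T4.l0) T4.l0)) (xb T4.l0 (xa T4.l0 (xb T4.l0 T4.l0))))
  (TrL.c (I.pos (nat_lit 0) (nat_lit 0)) T2.l4
  (TrL.c (I.pos (nat_lit 0) (nat_lit 89480386)) (xR T4.l5 T4.l5)
  (TrL.c (I.pos (nat_lit 0) (nat_lit 41530880)) T2.l5
  (TrL.c (I.pos (nat_lit 0) (nat_lit 0)) (xa T2.l6 (xb T2.l6 T2.l6))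
  (TrL.c (I.pos (nat_lit 0) (nat_lit 0)) T4.l6
  (TrL.c (I.mix (nat_lit 41527258) (nat_lit 41530880)) (xR T2.l7 T2.l7)
  (TrL.c (I.mix (nat_lit 41527258) (nat_lit 4274)) T4.l7
  TrL.n)))))))) (by decide +kernel)
theorem bx1_1 : BoxOK sI cl6 cl13 cl7 t4 t2 b1_1 :=
  box_mk (TrL.c (I.pos (nat_lit 0) (nat_lit 0)) (xa T4.l9 (xa T4.l9 T4.l9))
  (TrL.c (I.pos (nat_lit 0) (nat_lit 0)) T2.l4
  (TrL.c (I.pos (nat_lit 0) (nat_lit 89480386)) T4.l5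
  (TrL.c (I.pos (nat_lit 0) (nat_lit 41530880)) T2.l5
  (TrL.c (I.pos (nat_lit 0) (nat_lit 0)) T2.l9
  (TrL.c (I.pos (nat_lit 0) (nat_lit 0)) T4.l6
  (TrL.c (I.mix (nat_lit 41527258) (nat_lit 41530880)) T2.l7
  (TrL.c (I.mix (nat_lit 41527258) (nat_lit 4274)) T4.l7
  TrL.n)))))))) (by decide +kernel)
theorem bx1_2 : BoxOK sI cl6 cl13 cl7 t4 t2 b1_2 :=
  box_mk (TrL.c (I.pos (nat_lit 0) (nat_lit 0)) (xb T4.l9 T4.l9)
  (TrL.c (I.pos (nat_lit 0) (nat_lit 0)) T2.l4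
  (TrL.c (I.pos (nat_lit 0) (nat_lit 89480386)) (xR T4.l5 T4.l5)
  (TrL.c (I.pos (nat_lit 0) (nat_lit 41530880)) T2.l5
  (TrL.c (I.pos (nat_lit 0) (nat_lit 0)) T2.l9
  (TrL.c (I.pos (nat_lit 0) (nat_lit 0)) T4.l6
  (TrL.c (I.mix (nat_lit 41527258) (nat_lit 41530880)) T2.l7
  (TrL.c (I.mix (nat_lit 41527258) (nat_lit 4274)) T4.l7
  TrL.n)))))))) (by decide +kernel)
theorem bx1_3 : BoxOK sI cl6 cl13 cl7 t4 t2 b1_3 :=
  box_mk (TrL.c (I.pos (nat_lit 0) (nat_lit 0)) T4.l9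
  (TrL.c (I.pos (nat_lit 0) (nat_lit 0)) T2.l4
  (TrL.c (I.pos (nat_lit 0) (nat_lit 89480386)) T4.l5
  (TrL.c (I.pos (nat_lit 0) (nat_lit 41530880)) T2.l5
  (TrL.c (I.pos (nat_lit 0) (nat_lit 0)) T2.l9
  (TrL.c (I.pos (nat_lit 0) (nat_lit 0)) T4.l6
  (TrL.c (I.mix (nat_lit 41527258) (nat_lit 41530880)) T2.l7
  (TrL.c (I.mix (nat_lit 41527258) (nat_lit 4274)) T4.l7
  TrL.n)))))))) (by decide +kernel)
theorem bx1_4 : BoxOK sI cl6 cl13 cl7 t4 t2 b1_4 :=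
  box_mk (TrL.c (I.pos (nat_lit 0) (nat_lit 0)) (xa (xb T4.l0 T4.l0) (xb T4.l0 T4.l0))
  (TrL.c (I.pos (nat_lit 0) (nat_lit 0)) T2.l4
  (TrL.c (I.pos (nat_lit 0) (nat_lit 89480386)) (xR T4.l5 T4.l5)
  (TrL.c (I.pos (nat_lit 0) (nat_lit 41530880)) T2.l5
  (TrL.c (I.pos (nat_lit 0) (nat_lit 0)) (xa T2.l6 (xb (xa T2.l6 T2.l6) T2.l6))
  (TrL.c (I.pos (nat_lit 0) (nat_lit 0)) T4.l6
  (TrL.c (I.mix (nat_lit 41527258) (nat_lit 41530880)) T2.l1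
  (TrL.c (I.mix (nat_lit 41527258) (nat_lit 4274)) T4.l7
  TrL.n)))))))) (by decide +kernel)
theorem bx1_5 : BoxOK sI cl6 cl13 cl7 t4 t2 b1_5 :=
  box_mk (TrL.c (I.pos (nat_lit 0) (nat_lit 0)) (xa (xb T4.l9 T4.l9) T4.l0)
  (TrL.c (I.pos (nat_lit 0) (nat_lit 0)) T2.l4
  (TrL.c (I.pos (nat_lit 0) (nat_lit 89480386)) (xR T4.l5 T4.l5)
  (TrL.c (I.pos (nat_lit 0) (nat_lit 41530880)) T2.l5
  (TrL.c (I.pos (nat_lit 0) (nat_lit 0)) (xa T2.l9 T2.l9)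
  (TrL.c (I.pos (nat_lit 0) (nat_lit 0)) T4.l6
  (TrL.c (I.mix (nat_lit 41527258) (nat_lit 41530880)) T2.l7
  (TrL.c (I.mix (nat_lit 41527258) (nat_lit 4274)) T4.l7
  TrL.n)))))))) (by decide +kernel)
theorem bx1_6 : BoxOK sI cl6 cl13 cl7 t4 t2 b1_6 :=
  box_mk (TrL.c (I.pos (nat_lit 0) (nat_lit 0)) (xa T4.l9 T4.l9)
  (TrL.c (I.pos (nat_lit 0) (nat_lit 0)) T2.l4
  (TrL.c (I.pos (nat_lit 0) (nat_lit 89480386)) T4.l5
  (TrL.c (I.pos (nat_lit 0) (nat_lit 41530880)) T2.l5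
  (TrL.c (I.pos (nat_lit 0) (nat_lit 0)) T2.l9
  (TrL.c (I.pos (nat_lit 0) (nat_lit 0)) T4.l6
  (TrL.c (I.mix (nat_lit 41527258) (nat_lit 41530880)) T2.l7
  (TrL.c (I.mix (nat_lit 41527258) (nat_lit 4274)) T4.l7
  TrL.n)))))))) (by decide +kernel)
theorem bx1_7 : BoxOK sI cl6 cl13 cl7 t4 t2 b1_7 :=
  box_mk (TrL.c (I.pos (nat_lit 0) (nat_lit 0)) (xb (xa T4.l10 T4.l10) (xa (xb T4.l10 T4.l10) T4.l10))
  (TrL.c (I.pos (nat_lit 0) (nat_lit 0)) T2.l4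
  (TrL.c (I.pos (nat_lit 0) (nat_lit 89480386)) (xR T4.l5 T4.l5)
  (TrL.c (I.pos (nat_lit 0) (nat_lit 41530880)) T2.l5
  (TrL.c (I.pos (nat_lit 0) (nat_lit 0)) (xb T2.l10 T2.l10)
  (TrL.c (I.pos (nat_lit 0) (nat_lit 0)) T4.l6
  (TrL.c (I.mix (nat_lit 41527258) (nat_lit 41530880)) (xR T2.l7 T2.l7)
  (TrL.c (I.mix (nat_lit 41527258) (nat_lit 4274)) T4.l7
  TrL.n)))))))) (by decide +kernel)
theorem bx1_8 : BoxOK sI cl6 cl13 cl7 t4 t2 b1_8 :=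
  box_mk (TrL.c (I.pos (nat_lit 0) (nat_lit 0)) (xa (xa (xb T4.l9 (xa T4.l9 T4.l9)) T4.l9) (xa T4.l9 T4.l9))
  (TrL.c (I.pos (nat_lit 0) (nat_lit 0)) T2.l4
  (TrL.c (I.pos (nat_lit 0) (nat_lit 89480386)) T4.l5
  (TrL.c (I.pos (nat_lit 0) (nat_lit 41530880)) T2.l5
  (TrL.c (I.pos (nat_lit 0) (nat_lit 0)) (xa T2.l9 T2.l9)
  (TrL.c (I.pos (nat_lit 0) (nat_lit 0)) T4.l6
  (TrL.c (I.mix (nat_lit 41527258) (nat_lit 41530880)) T2.l7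
  (TrL.c (I.mix (nat_lit 41527258) (nat_lit 4274)) T4.l7
  TrL.n)))))))) (by decide +kernel)
theorem bx1_9 : BoxOK sI cl6 cl13 cl7 t4 t2 b1_9 :=
  box_mk (TrL.c (I.pos (nat_lit 0) (nat_lit 0)) (xa T4.l0 T4.l0)
  (TrL.c (I.pos (nat_lit 0) (nat_lit 0)) T2.l4
  (TrL.c (I.pos (nat_lit 0) (nat_lit 89480386)) (xR T4.l5 T4.l5)
  (TrL.c (I.pos (nat_lit 0) (nat_lit 41530880)) T2.l5
  (TrL.c (I.pos (nat_lit 0) (nat_lit 0)) T2.l10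
  (TrL.c (I.pos (nat_lit 0) (nat_lit 0)) T4.l6
  (TrL.c (I.mix (nat_lit 41527258) (nat_lit 41530880)) (xR T2.l7 T2.l7)
  (TrL.c (I.mix (nat_lit 41527258) (nat_lit 4274)) T4.l7
  TrL.n)))))))) (by decide +kernel)
theorem bx1_10 : BoxOK sI cl6 cl13 cl7 t4 t2 b1_10 :=
  box_mk (TrL.c (I.pos (nat_lit 0) (nat_lit 0)) (xb T4.l10 T4.l10)
  (TrL.c (I.pos (nat_lit 0) (nat_lit 0)) T2.l4
  (TrL.c (I.pos (nat_lit 0) (nat_lit 89480386)) (xR T4.l5 T4.l5)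
  (TrL.c (I.pos (nat_lit 0) (nat_lit 41530880)) T2.l5
  (TrL.c (I.pos (nat_lit 0) (nat_lit 0)) T2.l10
  (TrL.c (I.pos (nat_lit 0) (nat_lit 0)) T4.l6
  (TrL.c (I.mix (nat_lit 41527258) (nat_lit 41530880)) (xR T2.l7 T2.l7)
  (TrL.c (I.mix (nat_lit 41527258) (nat_lit 4274)) T4.l7
  TrL.n)))))))) (by decide +kernel)
theorem bx1_11 : BoxOK sI cl6 cl13 cl7 t4 t2 b1_11 :=
  box_mk (TrL.c (I.pos (nat_lit 0) (nat_lit 0)) (xa T4.l0 T4.l0)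
  (TrL.c (I.pos (nat_lit 0) (nat_lit 0)) T2.l4
  (TrL.c (I.pos (nat_lit 0) (nat_lit 89480386)) (xR T4.l5 T4.l5)
  (TrL.c (I.pos (nat_lit 0) (nat_lit 41530880)) T2.l5
  (TrL.c (I.pos (nat_lit 0) (nat_lit 0)) T2.l6
  (TrL.c (I.pos (nat_lit 0) (nat_lit 0)) T4.l6
  (TrL.c (I.mix (nat_lit 41527258) (nat_lit 41530880)) (xR T2.l7 T2.l7)
  (TrL.c (I.mix (nat_lit 41527258) (nat_lit 4274)) T4.l7
  TrL.n)))))))) (by decide +kernel)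
theorem sv1 : StarV sI cl6 cl13 cl7 t4 t2 t1 :=
  (bt_n (bt_n (bt_n (bt_b bx1_0) (bt_n (bt_b bx1_1) (bt_b bx1_2))) (bt_n (bt_b bx1_3) (bt_n (bt_b bx1_4) (bt_b bx1_5)))) (bt_n (bt_n (bt_b bx1_6) (bt_n (bt_b bx1_7) (bt_b bx1_8))) (bt_n (bt_b bx1_9) (bt_n (bt_b bx1_10) (bt_b bx1_11)))))
def S1 : StarD := StarD.mk cl6 cl13 cl7 4 2 t1
theorem bx2_0 : BoxOK sI cl7 cl6 cl13 t0 t5 b2_0 :=
  box_mk (TrL.c (I.pos (nat_lit 0) (nat_lit 0)) (xa (xb T0.l0 (xa T0.l0 T0.l0)) (xb T0.l0 T0.l0))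
  (TrL.c (I.pos (nat_lit 0) (nat_lit 0)) T5.l1
  (TrL.c (I.pos (nat_lit 0) (nat_lit 111196574)) (xR T0.l1 T0.l1)
  (TrL.c (I.pos (nat_lit 0) (nat_lit 77433728)) (xR T5.l2 T5.l2)
  (TrL.c (I.pos (nat_lit 0) (nat_lit 0)) (xa (xb T5.l9 (xk T5.l3 T5.l3)) (xb T5.l3 (xk T5.l3 T5.l3)))
  (TrL.c (I.pos (nat_lit 0) (nat_lit 0)) T0.l2
  (TrL.c (I.mix (nat_lit 29511666) (nat_lit 77433728)) (xR T5.l4 T5.l4)
  (TrL.c (I.mix (nat_lit 29511666) (nat_lit 46070178)) T0.l3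
  TrL.n)))))))) (by decide +kernel)
theorem bx2_1 : BoxOK sI cl7 cl6 cl13 t0 t5 b2_1 :=
  box_mk (TrL.c (I.pos (nat_lit 0) (nat_lit 0)) (xa (xa (xb T0.l4 T0.l4) T0.l4) (xa T0.l4 T0.l4))
  (TrL.c (I.pos (nat_lit 0) (nat_lit 0)) T5.l1
  (TrL.c (I.pos (nat_lit 0) (nat_lit 111196574)) T0.l1
  (TrL.c (I.pos (nat_lit 0) (nat_lit 77433728)) T5.l2
  (TrL.c (I.pos (nat_lit 0) (nat_lit 0)) T5.l5
  (TrL.c (I.pos (nat_lit 0) (nat_lit 0)) T0.l2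
  (TrL.c (I.mix (nat_lit 29511666) (nat_lit 77433728)) T5.l4
  (TrL.c (I.mix (nat_lit 29511666) (nat_lit 46070178)) T0.l3
  TrL.n)))))))) (by decide +kernel)
theorem bx2_2 : BoxOK sI cl7 cl6 cl13 t0 t5 b2_2 :=
  box_mk (TrL.c (I.pos (nat_lit 0) (nat_lit 0)) (xb T0.l4 T0.l4)
  (TrL.c (I.pos (nat_lit 0) (nat_lit 0)) T5.l1
  (TrL.c (I.pos (nat_lit 0) (nat_lit 111196574)) T0.l1
  (TrL.c (I.pos (nat_lit 0) (nat_lit 77433728)) T5.l2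
  (TrL.c (I.pos (nat_lit 0) (nat_lit 0)) T5.l5
  (TrL.c (I.pos (nat_lit 0) (nat_lit 0)) T0.l2
  (TrL.c (I.mix (nat_lit 29511666) (nat_lit 77433728)) T5.l4
  (TrL.c (I.mix (nat_lit 29511666) (nat_lit 46070178)) T0.l3
  TrL.n)))))))) (by decide +kernel)
theorem bx2_3 : BoxOK sI cl7 cl6 cl13 t0 t5 b2_3 :=
  box_mk (TrL.c (I.pos (nat_lit 0) (nat_lit 0)) (xa (xb (xa (xb T0.l4 T0.l4) T0.l4) T0.l4) T0.l4)
  (TrL.c (I.pos (nat_lit 0) (nat_lit 0)) T5.l5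
  (TrL.c (I.pos (nat_lit 0) (nat_lit 111196574)) T0.l1
  (TrL.c (I.pos (nat_lit 0) (nat_lit 77433728)) T5.l2
  (TrL.c (I.pos (nat_lit 0) (nat_lit 0)) T5.l5
  (TrL.c (I.pos (nat_lit 0) (nat_lit 0)) T0.l2
  (TrL.c (I.mix (nat_lit 29511666) (nat_lit 77433728)) T5.l4
  (TrL.c (I.mix (nat_lit 29511666) (nat_lit 46070178)) T0.l3
  TrL.n)))))))) (by decide +kernel)
theorem bx2_4 : BoxOK sI cl7 cl6 cl13 t0 t5 b2_4 :=
  box_mk (TrL.c (I.pos (nat_lit 0) (nat_lit 0)) (xa T0.l4 T0.l4)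
  (TrL.c (I.pos (nat_lit 0) (nat_lit 0)) T5.l1
  (TrL.c (I.pos (nat_lit 0) (nat_lit 111196574)) T0.l1
  (TrL.c (I.pos (nat_lit 0) (nat_lit 77433728)) T5.l2
  (TrL.c (I.pos (nat_lit 0) (nat_lit 0)) (xa T5.l5 T5.l5)
  (TrL.c (I.pos (nat_lit 0) (nat_lit 0)) T0.l2
  (TrL.c (I.mix (nat_lit 29511666) (nat_lit 77433728)) T5.l4
  (TrL.c (I.mix (nat_lit 29511666) (nat_lit 46070178)) T0.l3
  TrL.n)))))))) (by decide +kernel)
theorem bx2_5 : BoxOK sI cl7 cl6 cl13 t0 t5 b2_5 :=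
  box_mk (TrL.c (I.pos (nat_lit 0) (nat_lit 0)) (xa (xb (xa (xb T0.l4 T0.l4) T0.l4) T0.l4) T0.l4)
  (TrL.c (I.pos (nat_lit 0) (nat_lit 0)) T5.l1
  (TrL.c (I.pos (nat_lit 0) (nat_lit 111196574)) T0.l1
  (TrL.c (I.pos (nat_lit 0) (nat_lit 77433728)) T5.l2
  (TrL.c (I.pos (nat_lit 0) (nat_lit 0)) T5.l5
  (TrL.c (I.pos (nat_lit 0) (nat_lit 0)) T0.l2
  (TrL.c (I.mix (nat_lit 29511666) (nat_lit 77433728)) T5.l4
  (TrL.c (I.mix (nat_lit 29511666) (nat_lit 46070178)) T0.l3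
  TrL.n)))))))) (by decide +kernel)
theorem bx2_6 : BoxOK sI cl7 cl6 cl13 t0 t5 b2_6 :=
  box_mk (TrL.c (I.pos (nat_lit 0) (nat_lit 0)) (xa (xb T0.l9 T0.l9) (xb T0.l9 T0.l9))
  (TrL.c (I.pos (nat_lit 0) (nat_lit 0)) T5.l1
  (TrL.c (I.pos (nat_lit 0) (nat_lit 111196574)) (xR T0.l1 T0.l1)
  (TrL.c (I.pos (nat_lit 0) (nat_lit 77433728)) (xR T5.l2 T5.l2)
  (TrL.c (I.pos (nat_lit 0) (nat_lit 0)) (xk (xb T5.l9 T5.l3) (xb T5.l9 T5.l3))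
  (TrL.c (I.pos (nat_lit 0) (nat_lit 0)) T0.l2
  (TrL.c (I.mix (nat_lit 29511666) (nat_lit 77433728)) (xR T5.l4 T5.l4)
  (TrL.c (I.mix (nat_lit 29511666) (nat_lit 46070178)) T0.l3
  TrL.n)))))))) (by decide +kernel)
theorem bx2_7 : BoxOK sI cl7 cl6 cl13 t0 t5 b2_7 :=
  box_mk (TrL.c (I.pos (nat_lit 0) (nat_lit 0)) (xa (xa T0.l4 T0.l4) T0.l4)
  (TrL.c (I.pos (nat_lit 0) (nat_lit 0)) T5.l1
  (TrL.c (I.pos (nat_lit 0) (nat_lit 111196574)) T0.l1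
  (TrL.c (I.pos (nat_lit 0) (nat_lit 77433728)) T5.l2
  (TrL.c (I.pos (nat_lit 0) (nat_lit 0)) T5.l5
  (TrL.c (I.pos (nat_lit 0) (nat_lit 0)) T0.l2
  (TrL.c (I.mix (nat_lit 29511666) (nat_lit 77433728)) T5.l4
  (TrL.c (I.mix (nat_lit 29511666) (nat_lit 46070178)) T0.l3
  TrL.n)))))))) (by decide +kernel)
theorem bx2_8 : BoxOK sI cl7 cl6 cl13 t0 t5 b2_8 :=
  box_mk (TrL.c (I.pos (nat_lit 0) (nat_lit 0)) (xa (xb T0.l0 T0.l0) (xb T0.l0 (xa T0.l0 T0.l0)))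
  (TrL.c (I.pos (nat_lit 0) (nat_lit 0)) T5.l7
  (TrL.c (I.pos (nat_lit 0) (nat_lit 111196574)) (xR T0.l1 T0.l1)
  (TrL.c (I.pos (nat_lit 0) (nat_lit 77433728)) (xR T5.l2 T5.l2)
  (TrL.c (I.pos (nat_lit 0) (nat_lit 0)) (xa (xb (xk T5.l3 T5.l3) T5.l3) (xb (xk (xa T5.l3 T5.l3) (xa T5.l3 T5.l3)) (xk (xa T5.l3 T5.l3) (xa T5.l3 T5.l3))))
  (TrL.c (I.pos (nat_lit 0) (nat_lit 0)) (xa T0.l2 T0.l2)
  (TrL.c (I.mix (nat_lit 29511666) (nat_lit 77433728)) (xR T5.l4 T5.l4)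
  (TrL.c (I.mix (nat_lit 29511666) (nat_lit 46070178)) T0.l3
  TrL.n)))))))) (by decide +kernel)
theorem bx2_9 : BoxOK sI cl7 cl6 cl13 t0 t5 b2_9 :=
  box_mk (TrL.c (I.pos (nat_lit 0) (nat_lit 0)) T0.l0
  (TrL.c (I.pos (nat_lit 0) (nat_lit 0)) T5.l1
  (TrL.c (I.pos (nat_lit 0) (nat_lit 111196574)) T0.l1
  (TrL.c (I.pos (nat_lit 0) (nat_lit 77433728)) T5.l2
  (TrL.c (I.pos (nat_lit 0) (nat_lit 0)) (xb T5.l9 T5.l9)
  (TrL.c (I.pos (nat_lit 0) (nat_lit 0)) T0.l2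
  (TrL.c (I.mix (nat_lit 29511666) (nat_lit 77433728)) T5.l4
  (TrL.c (I.mix (nat_lit 29511666) (nat_lit 46070178)) T0.l3
  TrL.n)))))))) (by decide +kernel)
theorem bx2_10 : BoxOK sI cl7 cl6 cl13 t0 t5 b2_10 :=
  box_mk (TrL.c (I.pos (nat_lit 0) (nat_lit 0)) T0.l9
  (TrL.c (I.pos (nat_lit 0) (nat_lit 0)) T5.l1
  (TrL.c (I.pos (nat_lit 0) (nat_lit 111196574)) (xR T0.l1 T0.l1)
  (TrL.c (I.pos (nat_lit 0) (nat_lit 77433728)) T5.l2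
  (TrL.c (I.pos (nat_lit 0) (nat_lit 0)) T5.l9
  (TrL.c (I.pos (nat_lit 0) (nat_lit 0)) T0.l2
  (TrL.c (I.mix (nat_lit 29511666) (nat_lit 77433728)) T5.l4
  (TrL.c (I.mix (nat_lit 29511666) (nat_lit 46070178)) T0.l3
  TrL.n)))))))) (by decide +kernel)
theorem bx2_11 : BoxOK sI cl7 cl6 cl13 t0 t5 b2_11 :=
  box_mk (TrL.c (I.pos (nat_lit 0) (nat_lit 0)) (xa T0.l0 T0.l0)
  (TrL.c (I.pos (nat_lit 0) (nat_lit 0)) T5.l1
  (TrL.c (I.pos (nat_lit 0) (nat_lit 111196574)) (xR T0.l1 T0.l1)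
  (TrL.c (I.pos (nat_lit 0) (nat_lit 77433728)) (xR T5.l2 T5.l2)
  (TrL.c (I.pos (nat_lit 0) (nat_lit 0)) (xk T5.l3 T5.l3)
  (TrL.c (I.pos (nat_lit 0) (nat_lit 0)) T0.l2
  (TrL.c (I.mix (nat_lit 29511666) (nat_lit 77433728)) (xR T5.l4 T5.l4)
  (TrL.c (I.mix (nat_lit 29511666) (nat_lit 46070178)) T0.l3
  TrL.n)))))))) (by decide +kernel)
theorem sv2 : StarV sI cl7 cl6 cl13 t0 t5 t2 :=
  (bt_n (bt_n (bt_n (bt_b bx2_0) (bt_n (bt_b bx2_1) (bt_b bx2_2))) (bt_n (bt_b bx2_3) (bt_n (bt_b bx2_4) (bt_b bx2_5)))) (bt_n (bt_n (bt_b bx2_6) (bt_n (bt_b bx2_7) (bt_b bx2_8))) (bt_n (bt_b bx2_9) (bt_n (bt_b bx2_10) (bt_b bx2_11)))))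
def S2 : StarD := StarD.mk cl7 cl6 cl13 0 5 t2
theorem bx3_0 : BoxOK sI cl7 cl13 cl6 t5 t0 b3_0 :=
  box_mk (TrL.c (I.pos (nat_lit 0) (nat_lit 0)) (xa (xa (xb T5.l0 (xb T5.l0 T5.l0)) (xb T5.l0 T5.l0)) (xa (xb T5.l0 T5.l0) (xb T5.l0 T5.l0)))
  (TrL.c (I.pos (nat_lit 0) (nat_lit 0)) (xa T0.l5 T0.l5)
  (TrL.c (I.pos (nat_lit 0) (nat_lit 111196574)) (xR T5.l6 T5.l6)
  (TrL.c (I.pos (nat_lit 0) (nat_lit 77433728)) (xR T0.l6 T0.l6)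
  (TrL.c (I.pos (nat_lit 0) (nat_lit 0)) (xa (xk T0.l7 T0.l7) (xk (xb T0.l7 (xa T0.l7 T0.l7)) (xb T0.l7 (xa T0.l7 T0.l7))))
  (TrL.c (I.pos (nat_lit 0) (nat_lit 0)) T5.l7
  (TrL.c (I.mix (nat_lit 29511666) (nat_lit 77433728)) (xR T0.l8 T0.l8)
  (TrL.c (I.mix (nat_lit 29511666) (nat_lit 46070178)) T5.l8
  TrL.n)))))))) (by decide +kernel)
theorem bx3_1 : BoxOK sI cl7 cl13 cl6 t5 t0 b3_1 :=
  box_mk (TrL.c (I.pos (nat_lit 0) (nat_lit 0)) (xa T5.l10 T5.l0)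
  (TrL.c (I.pos (nat_lit 0) (nat_lit 0)) T0.l5
  (TrL.c (I.pos (nat_lit 0) (nat_lit 111196574)) T5.l6
  (TrL.c (I.pos (nat_lit 0) (nat_lit 77433728)) T0.l6
  (TrL.c (I.pos (nat_lit 0) (nat_lit 0)) (xa T0.l10 (xb T0.l10 T0.l10))
  (TrL.c (I.pos (nat_lit 0) (nat_lit 0)) T5.l7
  (TrL.c (I.mix (nat_lit 29511666) (nat_lit 77433728)) T0.l1
  (TrL.c (I.mix (nat_lit 29511666) (nat_lit 46070178)) T5.l8
  TrL.n)))))))) (by decide +kernel)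
theorem bx3_2 : BoxOK sI cl7 cl13 cl6 t5 t0 b3_2 :=
  box_mk (TrL.c (I.pos (nat_lit 0) (nat_lit 0)) (xa T5.l10 T5.l10)
  (TrL.c (I.pos (nat_lit 0) (nat_lit 0)) T0.l5
  (TrL.c (I.pos (nat_lit 0) (nat_lit 111196574)) T5.l6
  (TrL.c (I.pos (nat_lit 0) (nat_lit 77433728)) T0.l6
  (TrL.c (I.pos (nat_lit 0) (nat_lit 0)) (xa T0.l10 T0.l10)
  (TrL.c (I.pos (nat_lit 0) (nat_lit 0)) T5.l7
  (TrL.c (I.mix (nat_lit 29511666) (nat_lit 77433728)) T0.l8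
  (TrL.c (I.mix (nat_lit 29511666) (nat_lit 46070178)) T5.l8
  TrL.n)))))))) (by decide +kernel)
theorem bx3_3 : BoxOK sI cl7 cl13 cl6 t5 t0 b3_3 :=
  box_mk (TrL.c (I.pos (nat_lit 0) (nat_lit 0)) (xb (xa T5.l11 T5.l11) (xa (xb T5.l11 T5.l11) (xb T5.l11 T5.l11)))
  (TrL.c (I.pos (nat_lit 0) (nat_lit 0)) T0.l5
  (TrL.c (I.pos (nat_lit 0) (nat_lit 111196574)) (xR T5.l6 (xR T5.l6 T5.l6))
  (TrL.c (I.pos (nat_lit 0) (nat_lit 77433728)) (xR T0.l6 T0.l6)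
  (TrL.c (I.pos (nat_lit 0) (nat_lit 0)) (xb T0.l11 (xk T0.l11 T0.l11))
  (TrL.c (I.pos (nat_lit 0) (nat_lit 0)) T5.l7
  (TrL.c (I.mix (nat_lit 29511666) (nat_lit 77433728)) (xR T0.l8 T0.l8)
  (TrL.c (I.mix (nat_lit 29511666) (nat_lit 46070178)) (xR T5.l8 T5.l8)
  TrL.n)))))))) (by decide +kernel)
theorem bx3_4 : BoxOK sI cl7 cl13 cl6 t5 t0 b3_4 :=
  box_mk (TrL.c (I.pos (nat_lit 0) (nat_lit 0)) (xa (xa (xb T5.l10 (xa T5.l10 T5.l10)) T5.l10) (xa T5.l10 (xa T5.l10 T5.l10)))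
  (TrL.c (I.pos (nat_lit 0) (nat_lit 0)) (xa T0.l5 T0.l5)
  (TrL.c (I.pos (nat_lit 0) (nat_lit 111196574)) T5.l6
  (TrL.c (I.pos (nat_lit 0) (nat_lit 77433728)) T0.l6
  (TrL.c (I.pos (nat_lit 0) (nat_lit 0)) (xa T0.l10 T0.l10)
  (TrL.c (I.pos (nat_lit 0) (nat_lit 0)) T5.l7
  (TrL.c (I.mix (nat_lit 29511666) (nat_lit 77433728)) (xR T0.l8 T0.l8)
  (TrL.c (I.mix (nat_lit 29511666) (nat_lit 46070178)) T5.l8
  TrL.n)))))))) (by decide +kernel)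
theorem bx3_5 : BoxOK sI cl7 cl13 cl6 t5 t0 b3_5 :=
  box_mk (TrL.c (I.pos (nat_lit 0) (nat_lit 0)) (xa T5.l0 T5.l0)
  (TrL.c (I.pos (nat_lit 0) (nat_lit 0)) T0.l5
  (TrL.c (I.pos (nat_lit 0) (nat_lit 111196574)) (xR T5.l6 T5.l6)
  (TrL.c (I.pos (nat_lit 0) (nat_lit 77433728)) T0.l6
  (TrL.c (I.pos (nat_lit 0) (nat_lit 0)) (xa T0.l11 (xk T0.l11 T0.l11))
  (TrL.c (I.pos (nat_lit 0) (nat_lit 0)) T5.l7
  (TrL.c (I.mix (nat_lit 29511666) (nat_lit 77433728)) T0.l1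
  (TrL.c (I.mix (nat_lit 29511666) (nat_lit 46070178)) T5.l8
  TrL.n)))))))) (by decide +kernel)
theorem bx3_6 : BoxOK sI cl7 cl13 cl6 t5 t0 b3_6 :=
  box_mk (TrL.c (I.pos (nat_lit 0) (nat_lit 0)) (xa (xa T5.l10 T5.l10) (xa T5.l10 T5.l10))
  (TrL.c (I.pos (nat_lit 0) (nat_lit 0)) (xa T0.l5 T0.l5)
  (TrL.c (I.pos (nat_lit 0) (nat_lit 111196574)) T5.l6
  (TrL.c (I.pos (nat_lit 0) (nat_lit 77433728)) T0.l6
  (TrL.c (I.pos (nat_lit 0) (nat_lit 0)) (xa T0.l10 T0.l10)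
  (TrL.c (I.pos (nat_lit 0) (nat_lit 0)) T5.l7
  (TrL.c (I.mix (nat_lit 29511666) (nat_lit 77433728)) (xR T0.l8 T0.l8)
  (TrL.c (I.mix (nat_lit 29511666) (nat_lit 46070178)) T5.l8
  TrL.n)))))))) (by decide +kernel)
theorem bx3_7 : BoxOK sI cl7 cl13 cl6 t5 t0 b3_7 :=
  box_mk (TrL.c (I.pos (nat_lit 0) (nat_lit 0)) (xb T5.l10 (xa T5.l10 T5.l10))
  (TrL.c (I.pos (nat_lit 0) (nat_lit 0)) T0.l5
  (TrL.c (I.pos (nat_lit 0) (nat_lit 111196574)) T5.l6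
  (TrL.c (I.pos (nat_lit 0) (nat_lit 77433728)) T0.l6
  (TrL.c (I.pos (nat_lit 0) (nat_lit 0)) (xb (xa T0.l10 T0.l10) (xk T0.l10 T0.l10))
  (TrL.c (I.pos (nat_lit 0) (nat_lit 0)) T5.l7
  (TrL.c (I.mix (nat_lit 29511666) (nat_lit 77433728)) T0.l1
  (TrL.c (I.mix (nat_lit 29511666) (nat_lit 46070178)) T5.l8
  TrL.n)))))))) (by decide +kernel)
theorem bx3_8 : BoxOK sI cl7 cl13 cl6 t5 t0 b3_8 :=
  box_mk (TrL.c (I.pos (nat_lit 0) (nat_lit 0)) T5.l10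
  (TrL.c (I.pos (nat_lit 0) (nat_lit 0)) T0.l5
  (TrL.c (I.pos (nat_lit 0) (nat_lit 111196574)) T5.l6
  (TrL.c (I.pos (nat_lit 0) (nat_lit 77433728)) T0.l6
  (TrL.c (I.pos (nat_lit 0) (nat_lit 0)) T0.l10
  (TrL.c (I.pos (nat_lit 0) (nat_lit 0)) T5.l7
  (TrL.c (I.mix (nat_lit 29511666) (nat_lit 77433728)) T0.l8
  (TrL.c (I.mix (nat_lit 29511666) (nat_lit 46070178)) T5.l8
  TrL.n)))))))) (by decide +kernel)
theorem bx3_9 : BoxOK sI cl7 cl13 cl6 t5 t0 b3_9 :=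
  box_mk (TrL.c (I.pos (nat_lit 0) (nat_lit 0)) (xa (xb T5.l0 T5.l0) (xb T5.l0 (xa T5.l0 T5.l0)))
  (TrL.c (I.pos (nat_lit 0) (nat_lit 0)) T0.l5
  (TrL.c (I.pos (nat_lit 0) (nat_lit 111196574)) (xR T5.l6 T5.l4)
  (TrL.c (I.pos (nat_lit 0) (nat_lit 77433728)) (xR T0.l6 T0.l6)
  (TrL.c (I.pos (nat_lit 0) (nat_lit 0)) (xa (xb (xk T0.l7 T0.l7) T0.l7) (xb (xk (xa T0.l7 T0.l7) (xa T0.l7 T0.l7)) (xk (xa T0.l7 T0.l7) (xa T0.l7 T0.l7))))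
  (TrL.c (I.pos (nat_lit 0) (nat_lit 0)) T5.l7
  (TrL.c (I.mix (nat_lit 29511666) (nat_lit 77433728)) (xR T0.l8 T0.l8)
  (TrL.c (I.mix (nat_lit 29511666) (nat_lit 46070178)) (xR T5.l8 T5.l2)
  TrL.n)))))))) (by decide +kernel)
theorem bx3_10 : BoxOK sI cl7 cl13 cl6 t5 t0 b3_10 :=
  box_mk (TrL.c (I.pos (nat_lit 0) (nat_lit 0)) (xa T5.l0 T5.l0)
  (TrL.c (I.pos (nat_lit 0) (nat_lit 0)) T0.l5
  (TrL.c (I.pos (nat_lit 0) (nat_lit 111196574)) (xR T5.l6 T5.l6)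
  (TrL.c (I.pos (nat_lit 0) (nat_lit 77433728)) (xR T0.l6 T0.l6)
  (TrL.c (I.pos (nat_lit 0) (nat_lit 0)) (xk T0.l7 T0.l7)
  (TrL.c (I.pos (nat_lit 0) (nat_lit 0)) T5.l7
  (TrL.c (I.mix (nat_lit 29511666) (nat_lit 77433728)) (xR T0.l8 T0.l8)
  (TrL.c (I.mix (nat_lit 29511666) (nat_lit 46070178)) T5.l8
  TrL.n)))))))) (by decide +kernel)
theorem bx3_11 : BoxOK sI cl7 cl13 cl6 t5 t0 b3_11 :=
  box_mk (TrL.c (I.pos (nat_lit 0) (nat_lit 0)) T5.l11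
  (TrL.c (I.pos (nat_lit 0) (nat_lit 0)) T0.l5
  (TrL.c (I.pos (nat_lit 0) (nat_lit 111196574)) (xR T5.l6 T5.l6)
  (TrL.c (I.pos (nat_lit 0) (nat_lit 77433728)) (xR T0.l6 T0.l6)
  (TrL.c (I.pos (nat_lit 0) (nat_lit 0)) T0.l11
  (TrL.c (I.pos (nat_lit 0) (nat_lit 0)) T5.l7
  (TrL.c (I.mix (nat_lit 29511666) (nat_lit 77433728)) (xR T0.l8 T0.l8)
  (TrL.c (I.mix (nat_lit 29511666) (nat_lit 46070178)) T5.l8
  TrL.n)))))))) (by decide +kernel)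
theorem sv3 : StarV sI cl7 cl13 cl6 t5 t0 t3 :=
  (bt_n (bt_n (bt_n (bt_b bx3_0) (bt_n (bt_b bx3_1) (bt_b bx3_2))) (bt_n (bt_b bx3_3) (bt_n (bt_b bx3_4) (bt_b bx3_5)))) (bt_n (bt_n (bt_b bx3_6) (bt_n (bt_b bx3_7) (bt_b bx3_8))) (bt_n (bt_b bx3_9) (bt_n (bt_b bx3_10) (bt_b bx3_11)))))
def S3 : StarD := StarD.mk cl7 cl13 cl6 5 0 t3
theorem bx4_0 : BoxOK sI cl13 cl6 cl7 t1 t3 b4_0 :=
  box_mk (TrL.c (I.pos (nat_lit 0) (nat_lit 0)) (xa (xb T1.l0 (xa T1.l0 T1.l0)) (xb T1.l0 T1.l0))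
  (TrL.c (I.pos (nat_lit 0) (nat_lit 0)) T3.l1
  (TrL.c (I.pos (nat_lit 0) (nat_lit 134217730)) (xR T1.l1 T1.l1)
  (TrL.c (I.pos (nat_lit 0) (nat_lit 110514882)) (xR T3.l2 T3.l2)
  (TrL.c (I.pos (nat_lit 0) (nat_lit 0)) (xa T3.l3 (xk T3.l3 T3.l3))
  (TrL.c (I.pos (nat_lit 0) (nat_lit 0)) T1.l2
  (TrL.c (I.mix (nat_lit 8088324) (nat_lit 110514882)) (xR T3.l4 T3.l4)
  (TrL.c (I.mix (nat_lit 8088324) (nat_lit 89478486)) T1.l3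
  TrL.n)))))))) (by decide +kernel)
theorem bx4_1 : BoxOK sI cl13 cl6 cl7 t1 t3 b4_1 :=
  box_mk (TrL.c (I.pos (nat_lit 0) (nat_lit 0)) (xa T1.l4 T1.l0)
  (TrL.c (I.pos (nat_lit 0) (nat_lit 0)) T3.l1
  (TrL.c (I.pos (nat_lit 0) (nat_lit 134217730)) T1.l8
  (TrL.c (I.pos (nat_lit 0) (nat_lit 110514882)) (xR T3.l2 T3.l2)
  (TrL.c (I.pos (nat_lit 0) (nat_lit 0)) (xa T3.l5 (xb T3.l5 T3.l5))
  (TrL.c (I.pos (nat_lit 0) (nat_lit 0)) T1.l2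
  (TrL.c (I.mix (nat_lit 8088324) (nat_lit 110514882)) T3.l4
  (TrL.c (I.mix (nat_lit 8088324) (nat_lit 89478486)) T1.l6
  TrL.n)))))))) (by decide +kernel)
theorem bx4_2 : BoxOK sI cl13 cl6 cl7 t1 t3 b4_2 :=
  box_mk (TrL.c (I.pos (nat_lit 0) (nat_lit 0)) (xa T1.l4 T1.l4)
  (TrL.c (I.pos (nat_lit 0) (nat_lit 0)) T3.l1
  (TrL.c (I.pos (nat_lit 0) (nat_lit 134217730)) T1.l1
  (TrL.c (I.pos (nat_lit 0) (nat_lit 110514882)) T3.l2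
  (TrL.c (I.pos (nat_lit 0) (nat_lit 0)) T3.l5
  (TrL.c (I.pos (nat_lit 0) (nat_lit 0)) T1.l2
  (TrL.c (I.mix (nat_lit 8088324) (nat_lit 110514882)) T3.l4
  (TrL.c (I.mix (nat_lit 8088324) (nat_lit 89478486)) T1.l1
  TrL.n)))))))) (by decide +kernel)
theorem bx4_3 : BoxOK sI cl13 cl6 cl7 t1 t3 b4_3 :=
  box_mk (TrL.c (I.pos (nat_lit 0) (nat_lit 0)) (xa (xb T1.l11 T1.l11) T1.l11)
  (TrL.c (I.pos (nat_lit 0) (nat_lit 0)) T3.l1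
  (TrL.c (I.pos (nat_lit 0) (nat_lit 134217730)) (xR T1.l1 T1.l1)
  (TrL.c (I.pos (nat_lit 0) (nat_lit 110514882)) (xR T3.l2 T3.l2)
  (TrL.c (I.pos (nat_lit 0) (nat_lit 0)) (xk T3.l3 T3.l3)
  (TrL.c (I.pos (nat_lit 0) (nat_lit 0)) T1.l2
  (TrL.c (I.mix (nat_lit 8088324) (nat_lit 110514882)) (xR T3.l4 T3.l4)
  (TrL.c (I.mix (nat_lit 8088324) (nat_lit 89478486)) T1.l6
  TrL.n)))))))) (by decide +kernel)
theorem bx4_4 : BoxOK sI cl13 cl6 cl7 t1 t3 b4_4 :=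
  box_mk (TrL.c (I.pos (nat_lit 0) (nat_lit 0)) (xa (xa T1.l4 T1.l4) T1.l4)
  (TrL.c (I.pos (nat_lit 0) (nat_lit 0)) T3.l1
  (TrL.c (I.pos (nat_lit 0) (nat_lit 134217730)) T1.l1
  (TrL.c (I.pos (nat_lit 0) (nat_lit 110514882)) T3.l2
  (TrL.c (I.pos (nat_lit 0) (nat_lit 0)) T3.l5
  (TrL.c (I.pos (nat_lit 0) (nat_lit 0)) T1.l2
  (TrL.c (I.mix (nat_lit 8088324) (nat_lit 110514882)) T3.l4
  (TrL.c (I.mix (nat_lit 8088324) (nat_lit 89478486)) T1.l1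
  TrL.n)))))))) (by decide +kernel)
theorem bx4_5 : BoxOK sI cl13 cl6 cl7 t1 t3 b4_5 :=
  box_mk (TrL.c (I.pos (nat_lit 0) (nat_lit 0)) (xa (xa (xb T1.l4 T1.l4) T1.l4) (xa T1.l4 T1.l4))
  (TrL.c (I.pos (nat_lit 0) (nat_lit 0)) T3.l1
  (TrL.c (I.pos (nat_lit 0) (nat_lit 134217730)) T1.l1
  (TrL.c (I.pos (nat_lit 0) (nat_lit 110514882)) T3.l2
  (TrL.c (I.pos (nat_lit 0) (nat_lit 0)) T3.l5
  (TrL.c (I.pos (nat_lit 0) (nat_lit 0)) T1.l2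
  (TrL.c (I.mix (nat_lit 8088324) (nat_lit 110514882)) T3.l4
  (TrL.c (I.mix (nat_lit 8088324) (nat_lit 89478486)) T1.l3
  TrL.n)))))))) (by decide +kernel)
theorem bx4_6 : BoxOK sI cl13 cl6 cl7 t1 t3 b4_6 :=
  box_mk (TrL.c (I.pos (nat_lit 0) (nat_lit 0)) (xb T1.l4 T1.l4)
  (TrL.c (I.pos (nat_lit 0) (nat_lit 0)) T3.l1
  (TrL.c (I.pos (nat_lit 0) (nat_lit 134217730)) T1.l8
  (TrL.c (I.pos (nat_lit 0) (nat_lit 110514882)) (xR T3.l2 T3.l2)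
  (TrL.c (I.pos (nat_lit 0) (nat_lit 0)) (xb T3.l5 T3.l5)
  (TrL.c (I.pos (nat_lit 0) (nat_lit 0)) T1.l2
  (TrL.c (I.mix (nat_lit 8088324) (nat_lit 110514882)) T3.l4
  (TrL.c (I.mix (nat_lit 8088324) (nat_lit 89478486)) T1.l3
  TrL.n)))))))) (by decide +kernel)
theorem bx4_7 : BoxOK sI cl13 cl6 cl7 t1 t3 b4_7 :=
  box_mk (TrL.c (I.pos (nat_lit 0) (nat_lit 0)) (xa (xb (xa T1.l4 T1.l4) T1.l4) T1.l4)
  (TrL.c (I.pos (nat_lit 0) (nat_lit 0)) T3.l5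
  (TrL.c (I.pos (nat_lit 0) (nat_lit 134217730)) T1.l1
  (TrL.c (I.pos (nat_lit 0) (nat_lit 110514882)) T3.l4
  (TrL.c (I.pos (nat_lit 0) (nat_lit 0)) T3.l1
  (TrL.c (I.pos (nat_lit 0) (nat_lit 0)) T1.l2
  (TrL.c (I.mix (nat_lit 8088324) (nat_lit 110514882)) T3.l4
  (TrL.c (I.mix (nat_lit 8088324) (nat_lit 89478486)) T1.l1
  TrL.n)))))))) (by decide +kernel)
theorem bx4_8 : BoxOK sI cl13 cl6 cl7 t1 t3 b4_8 :=
  box_mk (TrL.c (I.pos (nat_lit 0) (nat_lit 0)) T1.l0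
  (TrL.c (I.pos (nat_lit 0) (nat_lit 0)) T3.l1
  (TrL.c (I.pos (nat_lit 0) (nat_lit 134217730)) T1.l8
  (TrL.c (I.pos (nat_lit 0) (nat_lit 110514882)) (xR T3.l2 T3.l2)
  (TrL.c (I.pos (nat_lit 0) (nat_lit 0)) (xk T3.l11 T3.l11)
  (TrL.c (I.pos (nat_lit 0) (nat_lit 0)) T1.l2
  (TrL.c (I.mix (nat_lit 8088324) (nat_lit 110514882)) (xR T3.l4 T3.l4)
  (TrL.c (I.mix (nat_lit 8088324) (nat_lit 89478486)) T1.l3
  TrL.n)))))))) (by decide +kernel)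
theorem bx4_9 : BoxOK sI cl13 cl6 cl7 t1 t3 b4_9 :=
  box_mk (TrL.c (I.pos (nat_lit 0) (nat_lit 0)) (xa T1.l0 (xb T1.l0 T1.l0))
  (TrL.c (I.pos (nat_lit 0) (nat_lit 0)) T3.l7
  (TrL.c (I.pos (nat_lit 0) (nat_lit 134217730)) (xR T1.l1 T1.l8)
  (TrL.c (I.pos (nat_lit 0) (nat_lit 110514882)) (xR T3.l2 T3.l2)
  (TrL.c (I.pos (nat_lit 0) (nat_lit 0)) (xa (xb (xk T3.l3 T3.l3) T3.l3) (xk (xb (xa T3.l3 T3.l3) (xa T3.l3 T3.l3)) (xb (xa T3.l3 T3.l3) (xa T3.l3 T3.l3))))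
  (TrL.c (I.pos (nat_lit 0) (nat_lit 0)) (xa T1.l2 T1.l2)
  (TrL.c (I.mix (nat_lit 8088324) (nat_lit 110514882)) (xR T3.l4 (xR T3.l4 T3.l4))
  (TrL.c (I.mix (nat_lit 8088324) (nat_lit 89478486)) (xR T1.l3 T1.l6)
  TrL.n)))))))) (by decide +kernel)
theorem bx4_10 : BoxOK sI cl13 cl6 cl7 t1 t3 b4_10 :=
  box_mk (TrL.c (I.pos (nat_lit 0) (nat_lit 0)) (xa T1.l0 T1.l0)
  (TrL.c (I.pos (nat_lit 0) (nat_lit 0)) T3.l1
  (TrL.c (I.pos (nat_lit 0) (nat_lit 134217730)) (xR T1.l1 T1.l1)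
  (TrL.c (I.pos (nat_lit 0) (nat_lit 110514882)) (xR T3.l2 T3.l2)
  (TrL.c (I.pos (nat_lit 0) (nat_lit 0)) T3.l3
  (TrL.c (I.pos (nat_lit 0) (nat_lit 0)) T1.l2
  (TrL.c (I.mix (nat_lit 8088324) (nat_lit 110514882)) (xR T3.l4 T3.l4)
  (TrL.c (I.mix (nat_lit 8088324) (nat_lit 89478486)) T1.l3
  TrL.n)))))))) (by decide +kernel)
theorem bx4_11 : BoxOK sI cl13 cl6 cl7 t1 t3 b4_11 :=
  box_mk (TrL.c (I.pos (nat_lit 0) (nat_lit 0)) (xb T1.l11 T1.l11)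
  (TrL.c (I.pos (nat_lit 0) (nat_lit 0)) T3.l1
  (TrL.c (I.pos (nat_lit 0) (nat_lit 134217730)) (xR T1.l1 T1.l8)
  (TrL.c (I.pos (nat_lit 0) (nat_lit 110514882)) (xR T3.l2 T3.l2)
  (TrL.c (I.pos (nat_lit 0) (nat_lit 0)) T3.l11
  (TrL.c (I.pos (nat_lit 0) (nat_lit 0)) T1.l2
  (TrL.c (I.mix (nat_lit 8088324) (nat_lit 110514882)) (xR T3.l4 T3.l4)
  (TrL.c (I.mix (nat_lit 8088324) (nat_lit 89478486)) T1.l3
  TrL.n)))))))) (by decide +kernel)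
theorem sv4 : StarV sI cl13 cl6 cl7 t1 t3 t4 :=
  (bt_n (bt_n (bt_n (bt_b bx4_0) (bt_n (bt_b bx4_1) (bt_b bx4_2))) (bt_n (bt_b bx4_3) (bt_n (bt_b bx4_4) (bt_b bx4_5)))) (bt_n (bt_n (bt_b bx4_6) (bt_n (bt_b bx4_7) (bt_b bx4_8))) (bt_n (bt_b bx4_9) (bt_n (bt_b bx4_10) (bt_b bx4_11)))))
def S4 : StarD := StarD.mk cl13 cl6 cl7 1 3 t4
theorem bx5_0 : BoxOK sI cl13 cl7 cl6 t3 t1 b5_0 :=
  box_mk (TrL.c (I.pos (nat_lit 0) (nat_lit 0)) (xa (xb T3.l0 (xa T3.l0 T3.l0)) (xb T3.l0 T3.l0))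
  (TrL.c (I.pos (nat_lit 0) (nat_lit 0)) T1.l5
  (TrL.c (I.pos (nat_lit 0) (nat_lit 134217730)) (xR T3.l6 T3.l6)
  (TrL.c (I.pos (nat_lit 0) (nat_lit 110514882)) (xR T1.l6 T1.l6)
  (TrL.c (I.pos (nat_lit 0) (nat_lit 0)) (xa T1.l7 (xk T1.l7 T1.l7))
  (TrL.c (I.pos (nat_lit 0) (nat_lit 0)) T3.l7
  (TrL.c (I.mix (nat_lit 8088324) (nat_lit 110514882)) (xR T1.l8 T1.l8)
  (TrL.c (I.mix (nat_lit 8088324) (nat_lit 89478486)) (xR T3.l2 T3.l8)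
  TrL.n)))))))) (by decide +kernel)
theorem bx5_1 : BoxOK sI cl13 cl7 cl6 t3 t1 b5_1 :=
  box_mk (TrL.c (I.pos (nat_lit 0) (nat_lit 0)) (xa T3.l9 T3.l0)
  (TrL.c (I.pos (nat_lit 0) (nat_lit 0)) T1.l5
  (TrL.c (I.pos (nat_lit 0) (nat_lit 134217730)) T3.l6
  (TrL.c (I.pos (nat_lit 0) (nat_lit 110514882)) (xR T1.l6 T1.l6)
  (TrL.c (I.pos (nat_lit 0) (nat_lit 0)) (xa T1.l9 (xb T1.l9 T1.l9))
  (TrL.c (I.pos (nat_lit 0) (nat_lit 0)) T3.l7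
  (TrL.c (I.mix (nat_lit 8088324) (nat_lit 110514882)) T1.l8
  (TrL.c (I.mix (nat_lit 8088324) (nat_lit 89478486)) T3.l2
  TrL.n)))))))) (by decide +kernel)
theorem bx5_2 : BoxOK sI cl13 cl7 cl6 t3 t1 b5_2 :=
  box_mk (TrL.c (I.pos (nat_lit 0) (nat_lit 0)) (xa T3.l9 T3.l9)
  (TrL.c (I.pos (nat_lit 0) (nat_lit 0)) T1.l5
  (TrL.c (I.pos (nat_lit 0) (nat_lit 134217730)) T3.l6
  (TrL.c (I.pos (nat_lit 0) (nat_lit 110514882)) T1.l6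
  (TrL.c (I.pos (nat_lit 0) (nat_lit 0)) T1.l9
  (TrL.c (I.pos (nat_lit 0) (nat_lit 0)) T3.l7
  (TrL.c (I.mix (nat_lit 8088324) (nat_lit 110514882)) T1.l8
  (TrL.c (I.mix (nat_lit 8088324) (nat_lit 89478486)) T3.l2
  TrL.n)))))))) (by decide +kernel)
theorem bx5_3 : BoxOK sI cl13 cl7 cl6 t3 t1 b5_3 :=
  box_mk (TrL.c (I.pos (nat_lit 0) (nat_lit 0)) (xb (xa T3.l10 T3.l10) (xa (xb T3.l10 (xs T3.l10 T3.l10)) (xb T3.l10 T3.l10)))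
  (TrL.c (I.pos (nat_lit 0) (nat_lit 0)) T1.l5
  (TrL.c (I.pos (nat_lit 0) (nat_lit 134217730)) (xR T3.l6 (xR T3.l6 T3.l6))
  (TrL.c (I.pos (nat_lit 0) (nat_lit 110514882)) (xR T1.l6 T1.l6)
  (TrL.c (I.pos (nat_lit 0) (nat_lit 0)) (xk (xb T1.l10 T1.l7) (xb T1.l10 T1.l7))
  (TrL.c (I.pos (nat_lit 0) (nat_lit 0)) T3.l7
  (TrL.c (I.mix (nat_lit 8088324) (nat_lit 110514882)) (xR T1.l8 (xR T1.l8 T1.l8))
  (TrL.c (I.mix (nat_lit 8088324) (nat_lit 89478486)) (xR T3.l2 T3.l8)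
  TrL.n)))))))) (by decide +kernel)
theorem bx5_4 : BoxOK sI cl13 cl7 cl6 t3 t1 b5_4 :=
  box_mk (TrL.c (I.pos (nat_lit 0) (nat_lit 0)) (xa (xa (xb T3.l9 (xa T3.l9 T3.l9)) T3.l9) (xa T3.l9 T3.l9))
  (TrL.c (I.pos (nat_lit 0) (nat_lit 0)) T1.l5
  (TrL.c (I.pos (nat_lit 0) (nat_lit 134217730)) T3.l6
  (TrL.c (I.pos (nat_lit 0) (nat_lit 110514882)) T1.l6
  (TrL.c (I.pos (nat_lit 0) (nat_lit 0)) (xa T1.l9 T1.l9)
  (TrL.c (I.pos (nat_lit 0) (nat_lit 0)) T3.l7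
  (TrL.c (I.mix (nat_lit 8088324) (nat_lit 110514882)) T1.l8
  (TrL.c (I.mix (nat_lit 8088324) (nat_lit 89478486)) T3.l4
  TrL.n)))))))) (by decide +kernel)
theorem bx5_5 : BoxOK sI cl13 cl7 cl6 t3 t1 b5_5 :=
  box_mk (TrL.c (I.pos (nat_lit 0) (nat_lit 0)) T3.l0
  (TrL.c (I.pos (nat_lit 0) (nat_lit 0)) T1.l5
  (TrL.c (I.pos (nat_lit 0) (nat_lit 134217730)) (xR T3.l6 T3.l6)
  (TrL.c (I.pos (nat_lit 0) (nat_lit 110514882)) (xR T1.l6 T1.l6)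
  (TrL.c (I.pos (nat_lit 0) (nat_lit 0)) (xa (xb T1.l9 T1.l10) (xb T1.l10 T1.l10))
  (TrL.c (I.pos (nat_lit 0) (nat_lit 0)) T3.l7
  (TrL.c (I.mix (nat_lit 8088324) (nat_lit 110514882)) (xR T1.l8 T1.l8)
  (TrL.c (I.mix (nat_lit 8088324) (nat_lit 89478486)) T3.l2
  TrL.n)))))))) (by decide +kernel)
theorem bx5_6 : BoxOK sI cl13 cl7 cl6 t3 t1 b5_6 :=
  box_mk (TrL.c (I.pos (nat_lit 0) (nat_lit 0)) (xa (xa (xb T3.l9 (xa T3.l9 T3.l9)) T3.l9) (xa T3.l9 T3.l9))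
  (TrL.c (I.pos (nat_lit 0) (nat_lit 0)) T1.l5
  (TrL.c (I.pos (nat_lit 0) (nat_lit 134217730)) T3.l6
  (TrL.c (I.pos (nat_lit 0) (nat_lit 110514882)) T1.l6
  (TrL.c (I.pos (nat_lit 0) (nat_lit 0)) T1.l9
  (TrL.c (I.pos (nat_lit 0) (nat_lit 0)) T3.l7
  (TrL.c (I.mix (nat_lit 8088324) (nat_lit 110514882)) T1.l8
  (TrL.c (I.mix (nat_lit 8088324) (nat_lit 89478486)) T3.l4
  TrL.n)))))))) (by decide +kernel)
theorem bx5_7 : BoxOK sI cl13 cl7 cl6 t3 t1 b5_7 :=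
  box_mk (TrL.c (I.pos (nat_lit 0) (nat_lit 0)) (xb T3.l9 T3.l9)
  (TrL.c (I.pos (nat_lit 0) (nat_lit 0)) T1.l5
  (TrL.c (I.pos (nat_lit 0) (nat_lit 134217730)) T3.l6
  (TrL.c (I.pos (nat_lit 0) (nat_lit 110514882)) (xR T1.l6 T1.l6)
  (TrL.c (I.pos (nat_lit 0) (nat_lit 0)) T1.l9
  (TrL.c (I.pos (nat_lit 0) (nat_lit 0)) T3.l7
  (TrL.c (I.mix (nat_lit 8088324) (nat_lit 110514882)) T1.l8
  (TrL.c (I.mix (nat_lit 8088324) (nat_lit 89478486)) T3.l2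
  TrL.n)))))))) (by decide +kernel)
theorem bx5_8 : BoxOK sI cl13 cl7 cl6 t3 t1 b5_8 :=
  box_mk (TrL.c (I.pos (nat_lit 0) (nat_lit 0)) (xa T3.l9 T3.l9)
  (TrL.c (I.pos (nat_lit 0) (nat_lit 0)) T1.l5
  (TrL.c (I.pos (nat_lit 0) (nat_lit 134217730)) T3.l6
  (TrL.c (I.pos (nat_lit 0) (nat_lit 110514882)) T1.l8
  (TrL.c (I.pos (nat_lit 0) (nat_lit 0)) T1.l9
  (TrL.c (I.pos (nat_lit 0) (nat_lit 0)) T3.l7
  (TrL.c (I.mix (nat_lit 8088324) (nat_lit 110514882)) T1.l8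
  (TrL.c (I.mix (nat_lit 8088324) (nat_lit 89478486)) T3.l2
  TrL.n)))))))) (by decide +kernel)
theorem bx5_9 : BoxOK sI cl13 cl7 cl6 t3 t1 b5_9 :=
  box_mk (TrL.c (I.pos (nat_lit 0) (nat_lit 0)) (xb T3.l10 T3.l10)
  (TrL.c (I.pos (nat_lit 0) (nat_lit 0)) T1.l5
  (TrL.c (I.pos (nat_lit 0) (nat_lit 134217730)) (xR T3.l6 T3.l6)
  (TrL.c (I.pos (nat_lit 0) (nat_lit 110514882)) (xR T1.l6 T1.l6)
  (TrL.c (I.pos (nat_lit 0) (nat_lit 0)) T1.l10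
  (TrL.c (I.pos (nat_lit 0) (nat_lit 0)) T3.l7
  (TrL.c (I.mix (nat_lit 8088324) (nat_lit 110514882)) (xR T1.l8 T1.l8)
  (TrL.c (I.mix (nat_lit 8088324) (nat_lit 89478486)) (xR T3.l2 T3.l8)
  TrL.n)))))))) (by decide +kernel)
theorem bx5_10 : BoxOK sI cl13 cl7 cl6 t3 t1 b5_10 :=
  box_mk (TrL.c (I.pos (nat_lit 0) (nat_lit 0)) (xa (xb T3.l0 T3.l0) (xb T3.l0 T3.l0))
  (TrL.c (I.pos (nat_lit 0) (nat_lit 0)) T1.l5
  (TrL.c (I.pos (nat_lit 0) (nat_lit 134217730)) (xR T3.l6 T3.l4)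
  (TrL.c (I.pos (nat_lit 0) (nat_lit 110514882)) (xR T1.l6 T1.l6)
  (TrL.c (I.pos (nat_lit 0) (nat_lit 0)) (xa (xb (xk T1.l7 T1.l7) T1.l7) (xb (xk (xa T1.l7 T1.l7) (xa T1.l7 T1.l7)) (xk (xa T1.l7 T1.l7) (xa T1.l7 T1.l7))))
  (TrL.c (I.pos (nat_lit 0) (nat_lit 0)) T3.l7
  (TrL.c (I.mix (nat_lit 8088324) (nat_lit 110514882)) (xR T1.l8 T1.l8)
  (TrL.c (I.mix (nat_lit 8088324) (nat_lit 89478486)) (xR T3.l2 T3.l8)
  TrL.n)))))))) (by decide +kernel)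
theorem bx5_11 : BoxOK sI cl13 cl7 cl6 t3 t1 b5_11 :=
  box_mk (TrL.c (I.pos (nat_lit 0) (nat_lit 0)) (xa T3.l0 T3.l0)
  (TrL.c (I.pos (nat_lit 0) (nat_lit 0)) T1.l5
  (TrL.c (I.pos (nat_lit 0) (nat_lit 134217730)) (xR T3.l6 T3.l6)
  (TrL.c (I.pos (nat_lit 0) (nat_lit 110514882)) (xR T1.l6 T1.l6)
  (TrL.c (I.pos (nat_lit 0) (nat_lit 0)) (xk T1.l7 T1.l7)
  (TrL.c (I.pos (nat_lit 0) (nat_lit 0)) T3.l7
  (TrL.c (I.mix (nat_lit 8088324) (nat_lit 110514882)) (xR T1.l8 T1.l8)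
  (TrL.c (I.mix (nat_lit 8088324) (nat_lit 89478486)) (xR T3.l2 T3.l8)
  TrL.n)))))))) (by decide +kernel)
theorem sv5 : StarV sI cl13 cl7 cl6 t3 t1 t5 :=
  (bt_n (bt_n (bt_n (bt_b bx5_0) (bt_n (bt_b bx5_1) (bt_b bx5_2))) (bt_n (bt_b bx5_3) (bt_n (bt_b bx5_4) (bt_b bx5_5)))) (bt_n (bt_n (bt_b bx5_6) (bt_n (bt_b bx5_7) (bt_b bx5_8))) (bt_n (bt_b bx5_9) (bt_n (bt_b bx5_10) (bt_b bx5_11)))))
def S5 : StarD := StarD.mk cl13 cl7 cl6 3 1 t5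
def G : List StarD := [S0, S1, S2, S3, S4, S5]
theorem so0 : StarOK sI G S0 :=
  star_mk (by decide) (by decide) rfl rfl rfl rfl rfl rfl (rfl : _ = t2) (rfl : _ = t4)
  (st_mk (Pth.l (Pth.l (Pth.l Pth.z))) (nat_lit 141707940) (nat_lit 164094325) (by decide +kernel))
  (st_mk (Pth.l (Pth.l (Pth.l Pth.z))) (nat_lit 177560971) (nat_lit 200238618) (by decide +kernel))
  (st_mk (Pth.l (Pth.l (Pth.l Pth.z))) (nat_lit 219202289) (nat_lit 242270860) (by decide +kernel)) sv0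
theorem so1 : StarOK sI G S1 :=
  star_mk (by decide) (by decide) rfl rfl rfl rfl rfl rfl (rfl : _ = t4) (rfl : _ = t2)
  (st_mk (Pth.l (Pth.l (Pth.l Pth.z))) (nat_lit 96758253) (nat_lit 115342806) (by decide +kernel))
  (st_mk (Pth.l (Pth.l (Pth.l Pth.z))) (nat_lit 132457184) (nat_lit 151315318) (by decide +kernel))
  (st_mk (Pth.l (Pth.l (Pth.l Pth.z))) (nat_lit 173967489) (nat_lit 193201414) (by decide +kernel)) sv1
theorem so2 : StarOK sI G S2 :=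
  star_mk (by decide) (by decide) rfl rfl rfl rfl rfl rfl (rfl : _ = t0) (rfl : _ = t5)
  (st_mk (Pth.l (Pth.l (Pth.l Pth.z))) (nat_lit 187331164) (nat_lit 188761673) (by decide +kernel))
  (st_mk (Pth.l (Pth.l (Pth.l Pth.z))) (nat_lit 222844526) (nat_lit 224649861) (by decide +kernel))
  (st_mk (Pth.l (Pth.l (Pth.l Pth.z))) (nat_lit 263957046) (nat_lit 266281414) (by decide +kernel)) sv2
theorem so3 : StarOK sI G S3 :=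
  star_mk (by decide) (by decide) rfl rfl rfl rfl rfl rfl (rfl : _ = t5) (rfl : _ = t0)
  (st_mk (Pth.l (Pth.l (Pth.l Pth.z))) (nat_lit 96369927) (nat_lit 114971463) (by decide +kernel))
  (st_mk (Pth.l (Pth.l (Pth.l Pth.z))) (nat_lit 131729705) (nat_lit 150670079) (by decide +kernel))
  (st_mk (Pth.l (Pth.l (Pth.l Pth.z))) (nat_lit 172710211) (nat_lit 192139340) (by decide +kernel)) sv3
theorem so4 : StarOK sI G S4 :=
  star_mk (by decide) (by decide) rfl rfl rfl rfl rfl rfl (rfl : _ = t1) (rfl : _ = t3)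
  (st_mk (Pth.l (Pth.l (Pth.l Pth.z))) (nat_lit 185843017) (nat_lit 187106911) (by decide +kernel))
  (st_mk (Pth.l (Pth.l (Pth.l Pth.z))) (nat_lit 220739626) (nat_lit 222301511) (by decide +kernel))
  (st_mk (Pth.l (Pth.l (Pth.l Pth.z))) (nat_lit 261004945) (nat_lit 262975113) (by decide +kernel)) sv4
theorem so5 : StarOK sI G S5 :=
  star_mk (by decide) (by decide) rfl rfl rfl rfl rfl rfl (rfl : _ = t3) (rfl : _ = t1)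
  (st_mk (Pth.l (Pth.l (Pth.l Pth.z))) (nat_lit 141873768) (nat_lit 160280552) (by decide +kernel))
  (st_mk (Pth.l (Pth.l (Pth.l Pth.z))) (nat_lit 174891329) (nat_lit 197335719) (by decide +kernel))
  (st_mk (Pth.l (Pth.l (Pth.l Pth.z))) (nat_lit 215156648) (nat_lit 237993286) (by decide +kernel)) sv5
theorem ok : GroupOK (nat_lit 91226112) (nat_lit 150339584) G := grp_mk (allS_c so0 (allS_c so1 (allS_c so2 (allS_c so3 (allS_c so4 (allS_c so5 allS_n))))))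
theorem cov : GCov G cl6 cl7 cl13 := cov_mk
  ⟨0, by decide, rfl, rfl, rfl⟩ ⟨1, by decide, rfl, rfl, rfl⟩ ⟨2, by decide, rfl, rfl, rfl⟩ ⟨3, by decide, rfl, rfl, rfl⟩ ⟨4, by decide, rfl, rfl, rfl⟩ ⟨5, by decide, rfl, rfl, rfl⟩
end Q346_1


end Pool.Agent.Helper6.MONO
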