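import Pool.Agent.Helper6.MONO.Cert.C56

/-!
Certificate data (generated).
-/

set_option autoImplicit false
set_option linter.all false
noncomputable section
namespace Pool.Agent.Helper6.MONO


namespace Q346_2
def sI : I := I.pos (nat_lit 150274048) (nat_lit 209387520)
def b0_0 : Bx := Bx.mk (St.mk (I.pos (nat_lit 158466048) (nat_lit 234012672)) (I.mix (nat_lit 1753088) (nat_lit 57262080)) (I.mix (nat_lit 2359296) (nat_lit 79478784)) (I.pos (nat_lit 140296192) (nat_lit 268533760)) (I.mix (nat_lit 100876288) (nat_lit 52461568)) (I.mix (nat_lit 62963712) (nat_lit 50659328)) (I.mix (nat_lit 88326144) (nat_lit 71270400)))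
  false (nat_lit 7226358)
def b0_1 : Bx := Bx.mk (St.mk (I.mix (nat_lit 22724608) (nat_lit 122290176)) (I.mix (nat_lit 9879552) (nat_lit 33538048)) (I.mix (nat_lit 22233088) (nat_lit 14614528)) (I.pos (nat_lit 39796736) (nat_lit 117440512)) (I.mix (nat_lit 35012608) (nat_lit 33521664)) (I.mix (nat_lit 27836416) (nat_lit 21659648)) (I.mix (nat_lit 20643840) (nat_lit 13516800)))
  false (nat_lit 0)
def b0_2 : Bx := Bx.mk (St.mk (I.pos (nat_lit 90996736) (nat_lit 136118272)) (I.mix (nat_lit 51740672) (nat_lit 8077312)) (I.neg (nat_lit 3014656) (nat_lit 57081856)) (I.pos (nat_lit 77348864) (nat_lit 128958464)) (I.mix (nat_lit 78790656) (nat_lit 21544960)) (I.mix (nat_lit 29999104) (nat_lit 62767104)) (I.mix (nat_lit 19955712) (nat_lit 48758784)))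
  false (nat_lit 0)
def b0_3 : Bx := Bx.mk (St.mk (I.mix (nat_lit 37191680) (nat_lit 68124672)) (I.mix (nat_lit 29229056) (nat_lit 6144000)) (I.neg (nat_lit 360448) (nat_lit 20561920)) (I.pos (nat_lit 41402368) (nat_lit 80805888)) (I.mix (nat_lit 32784384) (nat_lit 15204352)) (I.mix (nat_lit 14155776) (nat_lit 25231360)) (I.mix (nat_lit 7274496) (nat_lit 10420224)))
  false (nat_lit 0)
def b0_4 : Bx := Bx.mk (St.mk (I.pos (nat_lit 200966144) (nat_lit 283312128)) (I.mix (nat_lit 27344896) (nat_lit 39485440)) (I.mix (nat_lit 97107968) (nat_lit 41107456)) (I.pos (nat_lit 220708864) (nat_lit 369770496)) (I.mix (nat_lit 64585728) (nat_lit 48201728)) (I.mix (nat_lit 49201152) (nat_lit 43024384)) (I.mix (nat_lit 84787200) (nat_lit 77594624)))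
  false (nat_lit 0)
def b0_5 : Bx := Bx.mk (St.mk (I.pos (nat_lit 101761024) (nat_lit 171311104)) (I.neg (nat_lit 6701056) (nat_lit 52166656)) (I.neg (nat_lit 8568832) (nat_lit 56393728)) (I.pos (nat_lit 93650944) (nat_lit 173948928)) (I.mix (nat_lit 72744960) (nat_lit 33849344)) (I.mix (nat_lit 37158912) (nat_lit 47104000)) (I.mix (nat_lit 30097408) (nat_lit 44515328)))
  false (nat_lit 0)
def b0_6 : Bx := Bx.mk (St.mk (I.mix (nat_lit 30277632) (nat_lit 83001344)) (I.mix (nat_lit 31899648) (nat_lit 5570560)) (I.neg (nat_lit 442368) (nat_lit 24395776)) (I.pos (nat_lit 38141952) (nat_lit 89128960)) (I.mix (nat_lit 39108608) (nat_lit 32686080)) (I.mix (nat_lit 26722304) (nat_lit 31211520)) (I.mix (nat_lit 15171584) (nat_lit 17973248)))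
  false (nat_lit 0)
def b0_7 : Bx := Bx.mk (St.mk (I.pos (nat_lit 167231488) (nat_lit 216317952)) (I.mix (nat_lit 6979584) (nat_lit 56508416)) (I.pos (nat_lit 16384) (nat_lit 76824576)) (I.pos (nat_lit 160301056) (nat_lit 240336896)) (I.mix (nat_lit 116817920) (nat_lit 43220992)) (I.mix (nat_lit 110166016) (nat_lit 63471616)) (I.mix (nat_lit 114933760) (nat_lit 65814528)))
  false (nat_lit 0)
def b0_8 : Bx := Bx.mk (St.mk (I.mix (nat_lit 35995648) (nat_lit 108593152)) (I.mix (nat_lit 12173312) (nat_lit 35258368)) (I.mix (nat_lit 13860864) (nat_lit 17842176)) (I.pos (nat_lit 40189952) (nat_lit 106971136)) (I.mix (nat_lit 49397760) (nat_lit 27836416)) (I.mix (nat_lit 40878080) (nat_lit 30425088)) (I.mix (nat_lit 21331968) (nat_lit 17563648)))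
  false (nat_lit 0)
def b0_9 : Bx := Bx.mk (St.mk (I.pos (nat_lit 185925632) (nat_lit 235470848)) (I.pos (nat_lit 11173888) (nat_lit 56246272)) (I.pos (nat_lit 5734400) (nat_lit 77053952)) (I.pos (nat_lit 209108992) (nat_lit 266764288)) (I.mix (nat_lit 82739200) (nat_lit 60014592)) (I.mix (nat_lit 67223552) (nat_lit 48726016)) (I.mix (nat_lit 103251968) (nat_lit 63012864)))
  false (nat_lit 0)
def b0_10 : Bx := Bx.mk (St.mk (I.pos (nat_lit 145637376) (nat_lit 207323136)) (I.mix (nat_lit 36454400) (nat_lit 18038784)) (I.mix (nat_lit 44711936) (nat_lit 25116672)) (I.pos (nat_lit 130777088) (nat_lit 219774976)) (I.mix (nat_lit 51625984) (nat_lit 41615360)) (I.mix (nat_lit 48873472) (nat_lit 43515904)) (I.mix (nat_lit 50036736) (nat_lit 44171264)))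
  false (nat_lit 0)
def b0_11 : Bx := Bx.mk (St.mk (I.pos (nat_lit 171524096) (nat_lit 209551360)) (I.mix (nat_lit 11878400) (nat_lit 32096256)) (I.mix (nat_lit 9469952) (nat_lit 46137344)) (I.pos (nat_lit 166232064) (nat_lit 225148928)) (I.mix (nat_lit 75792384) (nat_lit 48545792)) (I.mix (nat_lit 90734592) (nat_lit 46252032)) (I.mix (nat_lit 96354304) (nat_lit 48070656)))
  false (nat_lit 0)
def t0 : BTr := (BTr.n (BTr.n (BTr.n (BTr.b b0_0) (BTr.n (BTr.b b0_1) (BTr.b b0_2))) (BTr.n (BTr.b b0_3) (BTr.n (BTr.b b0_4) (BTr.b b0_5)))) (BTr.n (BTr.n (BTr.b b0_6) (BTr.n (BTr.b b0_7) (BTr.b b0_8))) (BTr.n (BTr.b b0_9) (BTr.n (BTr.b b0_10) (BTr.b b0_11)))))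
namespace T0
def l0 : Tr := Tr.L (Pth.l (Pth.l (Pth.l Pth.z)))
def l1 : Tr := Tr.L (Pth.l (Pth.l (Pth.r (Pth.l Pth.z))))
def l2 : Tr := Tr.L (Pth.l (Pth.l (Pth.r (Pth.r Pth.z))))
def l3 : Tr := Tr.L (Pth.l (Pth.r (Pth.l Pth.z)))
def l4 : Tr := Tr.L (Pth.l (Pth.r (Pth.r (Pth.l Pth.z))))
def l5 : Tr := Tr.L (Pth.l (Pth.r (Pth.r (Pth.r Pth.z))))
def l6 : Tr := Tr.L (Pth.r (Pth.l (Pth.l Pth.z)))
def l7 : Tr := Tr.L (Pth.r (Pth.l (Pth.r (Pth.l Pth.z))))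
def l8 : Tr := Tr.L (Pth.r (Pth.l (Pth.r (Pth.r Pth.z))))
def l9 : Tr := Tr.L (Pth.r (Pth.r (Pth.l Pth.z)))
def l10 : Tr := Tr.L (Pth.r (Pth.r (Pth.r (Pth.l Pth.z))))
def l11 : Tr := Tr.L (Pth.r (Pth.r (Pth.r (Pth.r Pth.z))))
end T0
def b1_0 : Bx := Bx.mk (St.mk (I.pos (nat_lit 158367744) (nat_lit 239452160)) (I.mix (nat_lit 1523712) (nat_lit 50364416)) (I.mix (nat_lit 2490368) (nat_lit 87834624)) (I.pos (nat_lit 93339648) (nat_lit 224477184)) (I.mix (nat_lit 102940672) (nat_lit 62095360)) (I.mix (nat_lit 74366976) (nat_lit 63225856)) (I.mix (nat_lit 104284160) (nat_lit 79921152)))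
  false (nat_lit 32301473)
def b1_1 : Bx := Bx.mk (St.mk (I.mix (nat_lit 9601024) (nat_lit 144310272)) (I.mix (nat_lit 7585792) (nat_lit 24248320)) (I.mix (nat_lit 11681792) (nat_lit 21037056)) (I.mix (nat_lit 3244032) (nat_lit 92340224)) (I.mix (nat_lit 30343168) (nat_lit 26755072)) (I.mix (nat_lit 23724032) (nat_lit 20021248)) (I.mix (nat_lit 20234240) (nat_lit 15679488)))
  false (nat_lit 0)
def b1_2 : Bx := Bx.mk (St.mk (I.pos (nat_lit 115998720) (nat_lit 156565504)) (I.mix (nat_lit 43270144) (nat_lit 7290880)) (I.mix (nat_lit 46465024) (nat_lit 4734976)) (I.pos (nat_lit 52428800) (nat_lit 104202240)) (I.mix (nat_lit 72597504) (nat_lit 23445504)) (I.mix (nat_lit 25624576) (nat_lit 64307200)) (I.mix (nat_lit 21217280) (nat_lit 58081280)))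
  false (nat_lit 0)
def b1_3 : Bx := Bx.mk (St.mk (I.mix (nat_lit 13074432) (nat_lit 106364928)) (I.mix (nat_lit 22724608) (nat_lit 2310144)) (I.mix (nat_lit 17743872) (nat_lit 1064960)) (I.mix (nat_lit 2244608) (nat_lit 58064896)) (I.mix (nat_lit 31014912) (nat_lit 12238848)) (I.mix (nat_lit 12861440) (nat_lit 24690688)) (I.mix (nat_lit 7618560) (nat_lit 15368192)))
  false (nat_lit 0)
def b1_4 : Bx := Bx.mk (St.mk (I.pos (nat_lit 198049792) (nat_lit 283688960)) (I.mix (nat_lit 24870912) (nat_lit 36962304)) (I.mix (nat_lit 63750144) (nat_lit 62603264)) (I.pos (nat_lit 177520640) (nat_lit 324042752)) (I.mix (nat_lit 72712192) (nat_lit 44236800)) (I.mix (nat_lit 47349760) (nat_lit 41844736)) (I.mix (nat_lit 83705856) (nat_lit 69550080)))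
  false (nat_lit 16328679)
def b1_5 : Bx := Bx.mk (St.mk (I.pos (nat_lit 119668736) (nat_lit 186466304)) (I.neg (nat_lit 2490368) (nat_lit 46972928)) (I.neg (nat_lit 1785856) (nat_lit 47890432)) (I.pos (nat_lit 70205440) (nat_lit 147685376)) (I.mix (nat_lit 66027520) (nat_lit 33898496)) (I.mix (nat_lit 35700736) (nat_lit 46153728)) (I.mix (nat_lit 31211520) (nat_lit 47792128)))
  false (nat_lit 0)
def b1_6 : Bx := Bx.mk (St.mk (I.mix (nat_lit 14368768) (nat_lit 117915648)) (I.mix (nat_lit 25690112) (nat_lit 5455872)) (I.mix (nat_lit 20021248) (nat_lit 2490368)) (I.mix (nat_lit 2293760) (nat_lit 67354624)) (I.mix (nat_lit 31752192) (nat_lit 24854528)) (I.mix (nat_lit 19922944) (nat_lit 23183360)) (I.mix (nat_lit 12189696) (nat_lit 16187392)))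
  false (nat_lit 0)
def b1_7 : Bx := Bx.mk (St.mk (I.pos (nat_lit 175489024) (nat_lit 217907200)) (I.mix (nat_lit 11255808) (nat_lit 45154304)) (I.pos (nat_lit 1753088) (nat_lit 76529664)) (I.pos (nat_lit 122470400) (nat_lit 191168512)) (I.mix (nat_lit 112787456) (nat_lit 45432832)) (I.mix (nat_lit 110198784) (nat_lit 58032128)) (I.mix (nat_lit 126992384) (nat_lit 62046208)))
  false (nat_lit 0)
def b1_8 : Bx := Bx.mk (St.mk (I.mix (nat_lit 14548992) (nat_lit 133578752)) (I.mix (nat_lit 12992512) (nat_lit 29966336)) (I.mix (nat_lit 11026432) (nat_lit 24625152)) (I.mix (nat_lit 2932736) (nat_lit 81723392)) (I.mix (nat_lit 50020352) (nat_lit 24231936)) (I.mix (nat_lit 43057152) (nat_lit 25477120)) (I.mix (nat_lit 30572544) (nat_lit 17514496)))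
  false (nat_lit 0)
def b1_9 : Bx := Bx.mk (St.mk (I.pos (nat_lit 154533888) (nat_lit 212631552)) (I.mix (nat_lit 36225024) (nat_lit 11730944)) (I.mix (nat_lit 38584320) (nat_lit 27623424)) (I.pos (nat_lit 98189312) (nat_lit 180404224)) (I.mix (nat_lit 48300032) (nat_lit 41730048)) (I.mix (nat_lit 45432832) (nat_lit 38518784)) (I.mix (nat_lit 49790976) (nat_lit 41844736)))
  false (nat_lit 2219894)
def b1_10 : Bx := Bx.mk (St.mk (I.pos (nat_lit 179830784) (nat_lit 213090304)) (I.mix (nat_lit 16171008) (nat_lit 21790720)) (I.mix (nat_lit 6504448) (nat_lit 43270144)) (I.pos (nat_lit 127926272) (nat_lit 182534144)) (I.mix (nat_lit 68075520) (nat_lit 39731200)) (I.mix (nat_lit 76857344) (nat_lit 41566208)) (I.mix (nat_lit 89047040) (nat_lit 45531136)))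
  false (nat_lit 0)
def b1_11 : Bx := Bx.mk (St.mk (I.pos (nat_lit 187613184) (nat_lit 239566848)) (I.pos (nat_lit 6963200) (nat_lit 50806784)) (I.pos (nat_lit 13729792) (nat_lit 88162304)) (I.pos (nat_lit 166739968) (nat_lit 221741056)) (I.mix (nat_lit 86949888) (nat_lit 63717376)) (I.mix (nat_lit 73859072) (nat_lit 56918016)) (I.mix (nat_lit 110460928) (nat_lit 70598656)))
  false (nat_lit 27789244)
def t1 : BTr := (BTr.n (BTr.n (BTr.n (BTr.b b1_0) (BTr.n (BTr.b b1_1) (BTr.b b1_2))) (BTr.n (BTr.b b1_3) (BTr.n (BTr.b b1_4) (BTr.b b1_5)))) (BTr.n (BTr.n (BTr.b b1_6) (BTr.n (BTr.b b1_7) (BTr.b b1_8))) (BTr.n (BTr.b b1_9) (BTr.n (BTr.b b1_10) (BTr.b b1_11)))))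
namespace T1
def l0 : Tr := Tr.L (Pth.l (Pth.l (Pth.l Pth.z)))
def l1 : Tr := Tr.L (Pth.l (Pth.l (Pth.r (Pth.l Pth.z))))
def l2 : Tr := Tr.L (Pth.l (Pth.l (Pth.r (Pth.r Pth.z))))
def l3 : Tr := Tr.L (Pth.l (Pth.r (Pth.l Pth.z)))
def l4 : Tr := Tr.L (Pth.l (Pth.r (Pth.r (Pth.l Pth.z))))
def l5 : Tr := Tr.L (Pth.l (Pth.r (Pth.r (Pth.r Pth.z))))
def l6 : Tr := Tr.L (Pth.r (Pth.l (Pth.l Pth.z)))
def l7 : Tr := Tr.L (Pth.r (Pth.l (Pth.r (Pth.l Pth.z))))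
def l8 : Tr := Tr.L (Pth.r (Pth.l (Pth.r (Pth.r Pth.z))))
def l9 : Tr := Tr.L (Pth.r (Pth.r (Pth.l Pth.z)))
def l10 : Tr := Tr.L (Pth.r (Pth.r (Pth.r (Pth.l Pth.z))))
def l11 : Tr := Tr.L (Pth.r (Pth.r (Pth.r (Pth.r Pth.z))))
end T1
def b2_0 : Bx := Bx.mk (St.mk (I.pos (nat_lit 158531584) (nat_lit 231587840)) (I.mix (nat_lit 1884160) (nat_lit 61325312)) (I.mix (nat_lit 2523136) (nat_lit 84246528)) (I.pos (nat_lit 184041472) (nat_lit 291979264)) (I.mix (nat_lit 101875712) (nat_lit 57688064)) (I.mix (nat_lit 61210624) (nat_lit 49266688)) (I.mix (nat_lit 81543168) (nat_lit 69763072)))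
  false (nat_lit 36432484)
def b2_1 : Bx := Bx.mk (St.mk (I.mix (nat_lit 40189952) (nat_lit 99549184)) (I.mix (nat_lit 8781824) (nat_lit 40747008)) (I.mix (nat_lit 21102592) (nat_lit 12550144)) (I.pos (nat_lit 76267520) (nat_lit 125370368)) (I.mix (nat_lit 37699584) (nat_lit 45596672)) (I.mix (nat_lit 38273024) (nat_lit 25346048)) (I.mix (nat_lit 24854528) (nat_lit 13926400)))
  false (nat_lit 0)
def b2_2 : Bx := Bx.mk (St.mk (I.pos (nat_lit 78168064) (nat_lit 121962496)) (I.mix (nat_lit 53903360) (nat_lit 9601024)) (I.neg (nat_lit 5193728) (nat_lit 54493184)) (I.pos (nat_lit 111591424) (nat_lit 145195008)) (I.mix (nat_lit 71745536) (nat_lit 20922368)) (I.mix (nat_lit 24625152) (nat_lit 59326464)) (I.mix (nat_lit 17924096) (nat_lit 41189376)))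
  false (nat_lit 0)
def b2_3 : Bx := Bx.mk (St.mk (I.mix (nat_lit 49741824) (nat_lit 28475392)) (I.mix (nat_lit 32210944) (nat_lit 7012352)) (I.mix (nat_lit 14565376) (nat_lit 294912)) (I.pos (nat_lit 82886656) (nat_lit 100810752)) (I.mix (nat_lit 33243136) (nat_lit 18808832)) (I.mix (nat_lit 15286272) (nat_lit 27000832)) (I.mix (nat_lit 10092544) (nat_lit 5603328)))
  false (nat_lit 0)
def b2_4 : Bx := Bx.mk (St.mk (I.pos (nat_lit 87539712) (nat_lit 160432128)) (I.neg (nat_lit 7077888) (nat_lit 56950784)) (I.neg (nat_lit 7602176) (nat_lit 56524800)) (I.pos (nat_lit 123355136) (nat_lit 186744832)) (I.mix (nat_lit 72482816) (nat_lit 36192256)) (I.mix (nat_lit 31653888) (nat_lit 52871168)) (I.mix (nat_lit 26329088) (nat_lit 46383104)))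
  false (nat_lit 0)
def b2_5 : Bx := Bx.mk (St.mk (I.mix (nat_lit 34308096) (nat_lit 46366720)) (I.mix (nat_lit 32997376) (nat_lit 5357568)) (I.neg (nat_lit 393216) (nat_lit 16629760)) (I.pos (nat_lit 81969152) (nat_lit 101007360)) (I.mix (nat_lit 29327360) (nat_lit 27557888)) (I.mix (nat_lit 19578880) (nat_lit 27131904)) (I.mix (nat_lit 8011776) (nat_lit 10289152)))
  false (nat_lit 0)
def b2_6 : Bx := Bx.mk (St.mk (I.pos (nat_lit 162562048) (nat_lit 210911232)) (I.mix (nat_lit 1179648) (nat_lit 60751872)) (I.pos (nat_lit 6930432) (nat_lit 83001344)) (I.pos (nat_lit 196591616) (nat_lit 259670016)) (I.mix (nat_lit 112689152) (nat_lit 37847040)) (I.mix (nat_lit 100450304) (nat_lit 53870592)) (I.mix (nat_lit 95633408) (nat_lit 50282496)))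
  false (nat_lit 40470008)
def b2_7 : Bx := Bx.mk (St.mk (I.mix (nat_lit 47546368) (nat_lit 70696960)) (I.mix (nat_lit 8568832) (nat_lit 34373632)) (I.mix (nat_lit 16777216) (nat_lit 8470528)) (I.pos (nat_lit 82755584) (nat_lit 107692032)) (I.mix (nat_lit 40566784) (nat_lit 32096256)) (I.mix (nat_lit 35684352) (nat_lit 25985024)) (I.mix (nat_lit 13664256) (nat_lit 14237696)))
  false (nat_lit 0)
def b2_8 : Bx := Bx.mk (St.mk (I.pos (nat_lit 193953792) (nat_lit 286654464)) (I.mix (nat_lit 26640384) (nat_lit 44662784)) (I.mix (nat_lit 97124352) (nat_lit 49135616)) (I.pos (nat_lit 252313600) (nat_lit 396820480)) (I.mix (nat_lit 67551232) (nat_lit 58556416)) (I.mix (nat_lit 56328192) (nat_lit 44466176)) (I.mix (nat_lit 99926016) (nat_lit 84656128)))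
  false (nat_lit 30448418)
def b2_9 : Bx := Bx.mk (St.mk (I.pos (nat_lit 141590528) (nat_lit 198574080)) (I.mix (nat_lit 36978688) (nat_lit 18612224)) (I.mix (nat_lit 38862848) (nat_lit 30261248)) (I.pos (nat_lit 168165376) (nat_lit 234717184)) (I.mix (nat_lit 48381952) (nat_lit 41205760)) (I.mix (nat_lit 42844160) (nat_lit 38551552)) (I.mix (nat_lit 40894464) (nat_lit 36274176)))
  false (nat_lit 0)
def b2_10 : Bx := Bx.mk (St.mk (I.pos (nat_lit 164364288) (nat_lit 201719808)) (I.mix (nat_lit 6619136) (nat_lit 36143104)) (I.mix (nat_lit 1523712) (nat_lit 54657024)) (I.pos (nat_lit 200196096) (nat_lit 238829568)) (I.mix (nat_lit 95240192) (nat_lit 48005120)) (I.mix (nat_lit 99319808) (nat_lit 45776896)) (I.mix (nat_lit 98254848) (nat_lit 41074688)))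
  false (nat_lit 0)
def b2_11 : Bx := Bx.mk (St.mk (I.pos (nat_lit 180486144) (nat_lit 232570880)) (I.pos (nat_lit 12845056) (nat_lit 60719104)) (I.pos (nat_lit 8060928) (nat_lit 82280448)) (I.pos (nat_lit 239566848) (nat_lit 289112064)) (I.mix (nat_lit 92241920) (nat_lit 68386816)) (I.mix (nat_lit 76103680) (nat_lit 55197696)) (I.mix (nat_lit 112934912) (nat_lit 72564736)))
  false (nat_lit 39512752)
def t2 : BTr := (BTr.n (BTr.n (BTr.n (BTr.b b2_0) (BTr.n (BTr.b b2_1) (BTr.b b2_2))) (BTr.n (BTr.b b2_3) (BTr.n (BTr.b b2_4) (BTr.b b2_5)))) (BTr.n (BTr.n (BTr.b b2_6) (BTr.n (BTr.b b2_7) (BTr.b b2_8))) (BTr.n (BTr.b b2_9) (BTr.n (BTr.b b2_10) (BTr.b b2_11)))))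
namespace T2
def l0 : Tr := Tr.L (Pth.l (Pth.l (Pth.l Pth.z)))
def l1 : Tr := Tr.L (Pth.l (Pth.l (Pth.r (Pth.l Pth.z))))
def l2 : Tr := Tr.L (Pth.l (Pth.l (Pth.r (Pth.r Pth.z))))
def l3 : Tr := Tr.L (Pth.l (Pth.r (Pth.l Pth.z)))
def l4 : Tr := Tr.L (Pth.l (Pth.r (Pth.r (Pth.l Pth.z))))
def l5 : Tr := Tr.L (Pth.l (Pth.r (Pth.r (Pth.r Pth.z))))
def l6 : Tr := Tr.L (Pth.r (Pth.l (Pth.l Pth.z)))
def l7 : Tr := Tr.L (Pth.r (Pth.l (Pth.r (Pth.l Pth.z))))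
def l8 : Tr := Tr.L (Pth.r (Pth.l (Pth.r (Pth.r Pth.z))))
def l9 : Tr := Tr.L (Pth.r (Pth.r (Pth.l Pth.z)))
def l10 : Tr := Tr.L (Pth.r (Pth.r (Pth.r (Pth.l Pth.z))))
def l11 : Tr := Tr.L (Pth.r (Pth.r (Pth.r (Pth.r Pth.z))))
end T2
def b3_0 : Bx := Bx.mk (St.mk (I.pos (nat_lit 158351360) (nat_lit 239861760)) (I.mix (nat_lit 1474560) (nat_lit 49889280)) (I.mix (nat_lit 2703360) (nat_lit 98664448)) (I.pos (nat_lit 92995584) (nat_lit 219824128)) (I.mix (nat_lit 110395392) (nat_lit 73023488)) (I.mix (nat_lit 83034112) (nat_lit 77561856)) (I.mix (nat_lit 122011648) (nat_lit 101548032)))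
  false (nat_lit 61519194)
def b3_1 : Bx := Bx.mk (St.mk (I.pos (nat_lit 121470976) (nat_lit 185925632)) (I.neg (nat_lit 5390336) (nat_lit 48611328)) (I.mix (nat_lit 45121536) (nat_lit 3948544)) (I.pos (nat_lit 72908800) (nat_lit 146849792)) (I.mix (nat_lit 59703296) (nat_lit 31670272)) (I.mix (nat_lit 30490624) (nat_lit 40583168)) (I.mix (nat_lit 27099136) (nat_lit 41877504)))
  false (nat_lit 22825483)
def b3_2 : Bx := Bx.mk (St.mk (I.mix (nat_lit 11304960) (nat_lit 119193600)) (I.mix (nat_lit 24952832) (nat_lit 4128768)) (I.mix (nat_lit 16629760) (nat_lit 5996544)) (I.mix (nat_lit 2539520) (nat_lit 68091904)) (I.mix (nat_lit 27705344) (nat_lit 21331968)) (I.mix (nat_lit 15990784) (nat_lit 18694144)) (I.mix (nat_lit 9977856) (nat_lit 13221888)))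
  false (nat_lit 0)
def b3_3 : Bx := Bx.mk (St.mk (I.pos (nat_lit 174866432) (nat_lit 215597056)) (I.mix (nat_lit 11616256) (nat_lit 43417600)) (I.pos (nat_lit 7258112) (nat_lit 82444288)) (I.pos (nat_lit 119324672) (nat_lit 185565184)) (I.mix (nat_lit 107675648) (nat_lit 40058880)) (I.mix (nat_lit 101498880) (nat_lit 47890432)) (I.mix (nat_lit 119291904) (nat_lit 48447488)))
  false (nat_lit 18218950)
def b3_4 : Bx := Bx.mk (St.mk (I.mix (nat_lit 14696448) (nat_lit 132284416)) (I.mix (nat_lit 12550144) (nat_lit 29769728)) (I.mix (nat_lit 7077888) (nat_lit 28524544)) (I.mix (nat_lit 2883584) (nat_lit 80150528)) (I.mix (nat_lit 48152576) (nat_lit 21938176)) (I.mix (nat_lit 40894464) (nat_lit 20955136)) (I.mix (nat_lit 29900800) (nat_lit 13107200)))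
  false (nat_lit 0)
def b3_5 : Bx := Bx.mk (St.mk (I.pos (nat_lit 158318592) (nat_lit 212385792)) (I.mix (nat_lit 36487168) (nat_lit 11436032)) (I.mix (nat_lit 30982144) (nat_lit 35536896)) (I.pos (nat_lit 101203968) (nat_lit 179814400)) (I.mix (nat_lit 48529408) (nat_lit 45432832)) (I.mix (nat_lit 42516480) (nat_lit 42401792)) (I.mix (nat_lit 43581440) (nat_lit 45563904)))
  false (nat_lit 34386428)
def b3_6 : Bx := Bx.mk (St.mk (I.pos (nat_lit 31850496) (nat_lit 141443072)) (I.mix (nat_lit 6324224) (nat_lit 24363008)) (I.mix (nat_lit 5242880) (nat_lit 26017792)) (I.pos (nat_lit 11829248) (nat_lit 90652672)) (I.mix (nat_lit 37650432) (nat_lit 30310400)) (I.mix (nat_lit 29294592) (nat_lit 25116672)) (I.mix (nat_lit 24723456) (nat_lit 19398656)))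
  false (nat_lit 0)
def b3_7 : Bx := Bx.mk (St.mk (I.pos (nat_lit 116326400) (nat_lit 156565504)) (I.mix (nat_lit 44548096) (nat_lit 7241728)) (I.mix (nat_lit 42450944) (nat_lit 10010624)) (I.pos (nat_lit 53526528) (nat_lit 106774528)) (I.mix (nat_lit 75923456) (nat_lit 28508160)) (I.mix (nat_lit 31145984) (nat_lit 68321280)) (I.mix (nat_lit 26902528) (nat_lit 59981824)))
  false (nat_lit 3781693)
def b3_8 : Bx := Bx.mk (St.mk (I.mix (nat_lit 11780096) (nat_lit 107724800)) (I.mix (nat_lit 22953984) (nat_lit 3686400)) (I.mix (nat_lit 14991360) (nat_lit 4128768)) (I.mix (nat_lit 2048000) (nat_lit 58966016)) (I.mix (nat_lit 31997952) (nat_lit 16629760)) (I.mix (nat_lit 16171008) (nat_lit 26050560)) (I.mix (nat_lit 9715712) (nat_lit 15532032)))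
  false (nat_lit 0)
def b3_9 : Bx := Bx.mk (St.mk (I.pos (nat_lit 190136320) (nat_lit 284295168)) (I.mix (nat_lit 22200320) (nat_lit 34947072)) (I.mix (nat_lit 39534592) (nat_lit 74481664)) (I.pos (nat_lit 167706624) (nat_lit 320946176)) (I.mix (nat_lit 80183296) (nat_lit 49201152)) (I.mix (nat_lit 55902208) (nat_lit 42893312)) (I.mix (nat_lit 88522752) (nat_lit 71270400)))
  false (nat_lit 60752551)
def b3_10 : Bx := Bx.mk (St.mk (I.pos (nat_lit 183222272) (nat_lit 237617152)) (I.pos (nat_lit 9175040) (nat_lit 48726016)) (I.pos (nat_lit 25657344) (nat_lit 96714752)) (I.pos (nat_lit 159039488) (nat_lit 214220800)) (I.mix (nat_lit 94650368) (nat_lit 68435968)) (I.mix (nat_lit 83263488) (nat_lit 61849600)) (I.mix (nat_lit 124829696) (nat_lit 78741504)))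
  false (nat_lit 73308690)
def b3_11 : Bx := Bx.mk (St.mk (I.pos (nat_lit 174899200) (nat_lit 212877312)) (I.mix (nat_lit 16678912) (nat_lit 24559616)) (I.pos (nat_lit 1490944) (nat_lit 55967744)) (I.pos (nat_lit 118931456) (nat_lit 178618368)) (I.mix (nat_lit 93667328) (nat_lit 43384832)) (I.mix (nat_lit 96190464) (nat_lit 41222144)) (I.mix (nat_lit 115032064) (nat_lit 42713088)))
  false (nat_lit 15129552)
def t3 : BTr := (BTr.n (BTr.n (BTr.n (BTr.b b3_0) (BTr.n (BTr.b b3_1) (BTr.b b3_2))) (BTr.n (BTr.b b3_3) (BTr.n (BTr.b b3_4) (BTr.b b3_5)))) (BTr.n (BTr.n (BTr.b b3_6) (BTr.n (BTr.b b3_7) (BTr.b b3_8))) (BTr.n (BTr.b b3_9) (BTr.n (BTr.b b3_10) (BTr.b b3_11)))))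
namespace T3
def l0 : Tr := Tr.L (Pth.l (Pth.l (Pth.l Pth.z)))
def l1 : Tr := Tr.L (Pth.l (Pth.l (Pth.r (Pth.l Pth.z))))
def l2 : Tr := Tr.L (Pth.l (Pth.l (Pth.r (Pth.r Pth.z))))
def l3 : Tr := Tr.L (Pth.l (Pth.r (Pth.l Pth.z)))
def l4 : Tr := Tr.L (Pth.l (Pth.r (Pth.r (Pth.l Pth.z))))
def l5 : Tr := Tr.L (Pth.l (Pth.r (Pth.r (Pth.r Pth.z))))
def l6 : Tr := Tr.L (Pth.r (Pth.l (Pth.l Pth.z)))
def l7 : Tr := Tr.L (Pth.r (Pth.l (Pth.r (Pth.l Pth.z))))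
def l8 : Tr := Tr.L (Pth.r (Pth.l (Pth.r (Pth.r Pth.z))))
def l9 : Tr := Tr.L (Pth.r (Pth.r (Pth.l Pth.z)))
def l10 : Tr := Tr.L (Pth.r (Pth.r (Pth.r (Pth.l Pth.z))))
def l11 : Tr := Tr.L (Pth.r (Pth.r (Pth.r (Pth.r Pth.z))))
end T3
def b4_0 : Bx := Bx.mk (St.mk (I.pos (nat_lit 151306240) (nat_lit 230588416)) (I.mix (nat_lit 1785856) (nat_lit 59080704)) (I.mix (nat_lit 2949120) (nat_lit 101974016)) (I.pos (nat_lit 182566912) (nat_lit 283148288)) (I.mix (nat_lit 115654656) (nat_lit 65093632)) (I.mix (nat_lit 77463552) (nat_lit 64143360)) (I.mix (nat_lit 102711296) (nat_lit 83640320)))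
  false (nat_lit 88737720)
def b4_1 : Bx := Bx.mk (St.mk (I.pos (nat_lit 92356608) (nat_lit 165363712)) (I.neg (nat_lit 7618560) (nat_lit 57163776)) (I.mix (nat_lit 45940736) (nat_lit 9207808)) (I.pos (nat_lit 128876544) (nat_lit 190906368)) (I.mix (nat_lit 62259200) (nat_lit 38584320)) (I.mix (nat_lit 29835264) (nat_lit 48283648)) (I.mix (nat_lit 24346624) (nat_lit 41320448)))
  false (nat_lit 0)
def b4_2 : Bx := Bx.mk (St.mk (I.mix (nat_lit 29868032) (nat_lit 49364992)) (I.mix (nat_lit 32702464) (nat_lit 6717440)) (I.mix (nat_lit 8093696) (nat_lit 7618560)) (I.pos (nat_lit 83279872) (nat_lit 100417536)) (I.mix (nat_lit 23724032) (nat_lit 30097408)) (I.mix (nat_lit 16023552) (nat_lit 25346048)) (I.mix (nat_lit 6373376) (nat_lit 9338880)))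
  false (nat_lit 0)
def b4_3 : Bx := Bx.mk (St.mk (I.pos (nat_lit 159825920) (nat_lit 206274560)) (I.mix (nat_lit 1769472) (nat_lit 58949632)) (I.pos (nat_lit 20987904) (nat_lit 97583104)) (I.pos (nat_lit 189005824) (nat_lit 248037376)) (I.mix (nat_lit 118308864) (nat_lit 32800768)) (I.mix (nat_lit 93995008) (nat_lit 49627136)) (I.mix (nat_lit 93650944) (nat_lit 43171840)))
  false (nat_lit 60198077)
def b4_4 : Bx := Bx.mk (St.mk (I.mix (nat_lit 50626560) (nat_lit 74498048)) (I.mix (nat_lit 10174464) (nat_lit 39124992)) (I.mix (nat_lit 9617408) (nat_lit 17760256)) (I.pos (nat_lit 82264064) (nat_lit 109723648)) (I.mix (nat_lit 42172416) (nat_lit 30539776)) (I.mix (nat_lit 34865152) (nat_lit 21807104)) (I.mix (nat_lit 12894208) (nat_lit 12976128)))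
  false (nat_lit 0)
def b4_5 : Bx := Bx.mk (St.mk (I.mix (nat_lit 35586048) (nat_lit 97026048)) (I.mix (nat_lit 5423104) (nat_lit 37060608)) (I.mix (nat_lit 9289728) (nat_lit 21512192)) (I.pos (nat_lit 77135872) (nat_lit 123617280)) (I.mix (nat_lit 38715392) (nat_lit 42401792)) (I.mix (nat_lit 38731776) (nat_lit 30048256)) (I.mix (nat_lit 24952832) (nat_lit 18202624)))
  false (nat_lit 0)
def b4_6 : Bx := Bx.mk (St.mk (I.pos (nat_lit 80756736) (nat_lit 124895232)) (I.mix (nat_lit 58916864) (nat_lit 6193152)) (I.mix (nat_lit 47169536) (nat_lit 1720320)) (I.pos (nat_lit 114442240) (nat_lit 149438464)) (I.mix (nat_lit 72105984) (nat_lit 24870912)) (I.mix (nat_lit 29147136) (nat_lit 56918016)) (I.mix (nat_lit 21774336) (nat_lit 37650432)))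
  false (nat_lit 0)
def b4_7 : Bx := Bx.mk (St.mk (I.mix (nat_lit 47136768) (nat_lit 32030720)) (I.mix (nat_lit 32669696) (nat_lit 4390912)) (I.mix (nat_lit 6537216) (nat_lit 8339456)) (I.pos (nat_lit 83099648) (nat_lit 100859904)) (I.mix (nat_lit 30244864) (nat_lit 23969792)) (I.mix (nat_lit 18841600) (nat_lit 26116096)) (I.mix (nat_lit 9830400) (nat_lit 6553600)))
  false (nat_lit 0)
def b4_8 : Bx := Bx.mk (St.mk (I.pos (nat_lit 140165120) (nat_lit 196788224)) (I.mix (nat_lit 38174720) (nat_lit 13303808)) (I.mix (nat_lit 24788992) (nat_lit 41025536)) (I.pos (nat_lit 166608896) (nat_lit 226770944)) (I.mix (nat_lit 46743552) (nat_lit 46333952)) (I.mix (nat_lit 44335104) (nat_lit 38764544)) (I.mix (nat_lit 40730624) (nat_lit 35667968)))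
  false (nat_lit 0)
def b4_9 : Bx := Bx.mk (St.mk (I.pos (nat_lit 185122816) (nat_lit 282984448)) (I.mix (nat_lit 17694720) (nat_lit 46219264)) (I.mix (nat_lit 48267264) (nat_lit 78725120)) (I.pos (nat_lit 239468544) (nat_lit 384630784)) (I.mix (nat_lit 69877760) (nat_lit 57491456)) (I.mix (nat_lit 52363264) (nat_lit 36487168)) (I.mix (nat_lit 90882048) (nat_lit 55508992)))
  false (nat_lit 67819725)
def b4_10 : Bx := Bx.mk (St.mk (I.pos (nat_lit 174571520) (nat_lit 224952320)) (I.pos (nat_lit 19349504) (nat_lit 55787520)) (I.pos (nat_lit 37666816) (nat_lit 95862784)) (I.pos (nat_lit 226852864) (nat_lit 273317888)) (I.mix (nat_lit 99139584) (nat_lit 67584000)) (I.mix (nat_lit 84787200) (nat_lit 56328192)) (I.mix (nat_lit 124534784) (nat_lit 66371584)))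
  false (nat_lit 60931145)
def b4_11 : Bx := Bx.mk (St.mk (I.pos (nat_lit 159449088) (nat_lit 199917568)) (I.mix (nat_lit 8667136) (nat_lit 34242560)) (I.pos (nat_lit 12664832) (nat_lit 68747264)) (I.pos (nat_lit 188874752) (nat_lit 233029632)) (I.mix (nat_lit 104366080) (nat_lit 43892736)) (I.mix (nat_lit 103219200) (nat_lit 41959424)) (I.mix (nat_lit 103350272) (nat_lit 38748160)))
  false (nat_lit 0)
def t4 : BTr := (BTr.n (BTr.n (BTr.n (BTr.b b4_0) (BTr.n (BTr.b b4_1) (BTr.b b4_2))) (BTr.n (BTr.b b4_3) (BTr.n (BTr.b b4_4) (BTr.b b4_5)))) (BTr.n (BTr.n (BTr.b b4_6) (BTr.n (BTr.b b4_7) (BTr.b b4_8))) (BTr.n (BTr.b b4_9) (BTr.n (BTr.b b4_10) (BTr.b b4_11)))))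
namespace T4
def l0 : Tr := Tr.L (Pth.l (Pth.l (Pth.l Pth.z)))
def l1 : Tr := Tr.L (Pth.l (Pth.l (Pth.r (Pth.l Pth.z))))
def l2 : Tr := Tr.L (Pth.l (Pth.l (Pth.r (Pth.r Pth.z))))
def l3 : Tr := Tr.L (Pth.l (Pth.r (Pth.l Pth.z)))
def l4 : Tr := Tr.L (Pth.l (Pth.r (Pth.r (Pth.l Pth.z))))
def l5 : Tr := Tr.L (Pth.l (Pth.r (Pth.r (Pth.r Pth.z))))
def l6 : Tr := Tr.L (Pth.r (Pth.l (Pth.l Pth.z)))
def l7 : Tr := Tr.L (Pth.r (Pth.l (Pth.r (Pth.l Pth.z))))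
def l8 : Tr := Tr.L (Pth.r (Pth.l (Pth.r (Pth.r Pth.z))))
def l9 : Tr := Tr.L (Pth.r (Pth.r (Pth.l Pth.z)))
def l10 : Tr := Tr.L (Pth.r (Pth.r (Pth.r (Pth.l Pth.z))))
def l11 : Tr := Tr.L (Pth.r (Pth.r (Pth.r (Pth.r Pth.z))))
end T4
def b5_0 : Bx := Bx.mk (St.mk (I.pos (nat_lit 153026560) (nat_lit 234045440)) (I.mix (nat_lit 1638400) (nat_lit 54263808)) (I.mix (nat_lit 2998272) (nat_lit 105693184)) (I.pos (nat_lit 138674176) (nat_lit 255344640)) (I.mix (nat_lit 121192448) (nat_lit 71843840)) (I.mix (nat_lit 87703552) (nat_lit 77692928)) (I.mix (nat_lit 117391360) (nat_lit 97042432)))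
  false (nat_lit 88499274)
def b5_1 : Bx := Bx.mk (St.mk (I.pos (nat_lit 106184704) (nat_lit 178831360)) (I.neg (nat_lit 6471680) (nat_lit 56082432)) (I.mix (nat_lit 45056000) (nat_lit 14598144)) (I.pos (nat_lit 102252544) (nat_lit 180813824)) (I.mix (nat_lit 62636032) (nat_lit 35389440)) (I.mix (nat_lit 28164096) (nat_lit 42532864)) (I.mix (nat_lit 25116672) (nat_lit 39370752)))
  false (nat_lit 27759320)
def b5_2 : Bx := Bx.mk (St.mk (I.mix (nat_lit 30425088) (nat_lit 87195648)) (I.mix (nat_lit 33865728) (nat_lit 5193728)) (I.mix (nat_lit 13697024) (nat_lit 10878976)) (I.pos (nat_lit 38862848) (nat_lit 90931200)) (I.mix (nat_lit 32014336) (nat_lit 31178752)) (I.mix (nat_lit 20332544) (nat_lit 25919488)) (I.mix (nat_lit 9797632) (nat_lit 13926400)))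
  false (nat_lit 0)
def b5_3 : Bx := Bx.mk (St.mk (I.pos (nat_lit 164626432) (nat_lit 209780736)) (I.mix (nat_lit 7503872) (nat_lit 52150272)) (I.pos (nat_lit 18235392) (nat_lit 96206848)) (I.pos (nat_lit 149831680) (nat_lit 223100928)) (I.mix (nat_lit 115359744) (nat_lit 39387136)) (I.mix (nat_lit 100777984) (nat_lit 51970048)) (I.mix (nat_lit 110510080) (nat_lit 47775744)))
  false (nat_lit 39416577)
def b5_4 : Bx := Bx.mk (St.mk (I.mix (nat_lit 38633472) (nat_lit 104808448)) (I.mix (nat_lit 13746176) (nat_lit 35225600)) (I.mix (nat_lit 3211264) (nat_lit 30982144)) (I.pos (nat_lit 40828928) (nat_lit 103923712)) (I.mix (nat_lit 48791552) (nat_lit 20316160)) (I.mix (nat_lit 39878656) (nat_lit 24002560)) (I.mix (nat_lit 22364160) (nat_lit 14499840)))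
  false (nat_lit 0)
def b5_5 : Bx := Bx.mk (St.mk (I.pos (nat_lit 145817600) (nat_lit 203325440)) (I.mix (nat_lit 38518784) (nat_lit 10256384)) (I.mix (nat_lit 24018944) (nat_lit 42221568)) (I.pos (nat_lit 130842624) (nat_lit 206880768)) (I.mix (nat_lit 46972928) (nat_lit 47136768)) (I.mix (nat_lit 42942464) (nat_lit 41402368)) (I.mix (nat_lit 41680896) (nat_lit 41058304)))
  false (nat_lit 39869245)
def b5_6 : Bx := Bx.mk (St.mk (I.mix (nat_lit 27983872) (nat_lit 118587392)) (I.mix (nat_lit 5341184) (nat_lit 32620544)) (I.mix (nat_lit 3178496) (nat_lit 29507584)) (I.pos (nat_lit 39878656) (nat_lit 114196480)) (I.mix (nat_lit 45613056) (nat_lit 36716544)) (I.mix (nat_lit 34078720) (nat_lit 30359552)) (I.mix (nat_lit 24133632) (nat_lit 21348352)))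
  false (nat_lit 0)
def b5_7 : Bx := Bx.mk (St.mk (I.pos (nat_lit 94453760) (nat_lit 143163392)) (I.mix (nat_lit 54247424) (nat_lit 6438912)) (I.mix (nat_lit 42647552) (nat_lit 9207808)) (I.pos (nat_lit 81166336) (nat_lit 137314304)) (I.mix (nat_lit 73990144) (nat_lit 26591232)) (I.mix (nat_lit 34308096) (nat_lit 61964288)) (I.mix (nat_lit 25149440) (nat_lit 43368448)))
  false (nat_lit 5403972)
def b5_8 : Bx := Bx.mk (St.mk (I.mix (nat_lit 33259520) (nat_lit 71024640)) (I.mix (nat_lit 28426240) (nat_lit 2785280)) (I.mix (nat_lit 10321920) (nat_lit 8355840)) (I.pos (nat_lit 41435136) (nat_lit 82165760)) (I.mix (nat_lit 34455552) (nat_lit 22921216)) (I.mix (nat_lit 21299200) (nat_lit 25640960)) (I.mix (nat_lit 8929280) (nat_lit 9666560)))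
  false (nat_lit 0)
def b5_9 : Bx := Bx.mk (St.mk (I.pos (nat_lit 163414016) (nat_lit 205340672)) (I.mix (nat_lit 13942784) (nat_lit 30621696)) (I.pos (nat_lit 11403264) (nat_lit 69763072)) (I.pos (nat_lit 149028864) (nat_lit 212369408)) (I.mix (nat_lit 99876864) (nat_lit 40927232)) (I.mix (nat_lit 98975744) (nat_lit 39452672)) (I.mix (nat_lit 108085248) (nat_lit 38273024)))
  false (nat_lit 50459113)
def b5_10 : Bx := Bx.mk (St.mk (I.pos (nat_lit 182255616) (nat_lit 281985024)) (I.mix (nat_lit 15630336) (nat_lit 43859968)) (I.mix (nat_lit 24936448) (nat_lit 92176384)) (I.pos (nat_lit 198836224) (nat_lit 357629952)) (I.mix (nat_lit 84000768) (nat_lit 53346304)) (I.mix (nat_lit 60375040) (nat_lit 40321024)) (I.mix (nat_lit 89407488) (nat_lit 60653568)))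
  false (nat_lit 86644451)
def b5_11 : Bx := Bx.mk (St.mk (I.pos (nat_lit 174718976) (nat_lit 230637568)) (I.pos (nat_lit 14598144) (nat_lit 53362688)) (I.pos (nat_lit 37896192) (nat_lit 105578496)) (I.pos (nat_lit 189054976) (nat_lit 245923840)) (I.mix (nat_lit 95698944) (nat_lit 64208896)) (I.mix (nat_lit 82444288) (nat_lit 52887552)) (I.mix (nat_lit 123863040) (nat_lit 60604416)))
  false (nat_lit 53297908)
def t5 : BTr := (BTr.n (BTr.n (BTr.n (BTr.b b5_0) (BTr.n (BTr.b b5_1) (BTr.b b5_2))) (BTr.n (BTr.b b5_3) (BTr.n (BTr.b b5_4) (BTr.b b5_5)))) (BTr.n (BTr.n (BTr.b b5_6) (BTr.n (BTr.b b5_7) (BTr.b b5_8))) (BTr.n (BTr.b b5_9) (BTr.n (BTr.b b5_10) (BTr.b b5_11)))))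
namespace T5
def l0 : Tr := Tr.L (Pth.l (Pth.l (Pth.l Pth.z)))
def l1 : Tr := Tr.L (Pth.l (Pth.l (Pth.r (Pth.l Pth.z))))
def l2 : Tr := Tr.L (Pth.l (Pth.l (Pth.r (Pth.r Pth.z))))
def l3 : Tr := Tr.L (Pth.l (Pth.r (Pth.l Pth.z)))
def l4 : Tr := Tr.L (Pth.l (Pth.r (Pth.r (Pth.l Pth.z))))
def l5 : Tr := Tr.L (Pth.l (Pth.r (Pth.r (Pth.r Pth.z))))
def l6 : Tr := Tr.L (Pth.r (Pth.l (Pth.l Pth.z)))
def l7 : Tr := Tr.L (Pth.r (Pth.l (Pth.r (Pth.l Pth.z))))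
def l8 : Tr := Tr.L (Pth.r (Pth.l (Pth.r (Pth.r Pth.z))))
def l9 : Tr := Tr.L (Pth.r (Pth.r (Pth.l Pth.z)))
def l10 : Tr := Tr.L (Pth.r (Pth.r (Pth.r (Pth.l Pth.z))))
def l11 : Tr := Tr.L (Pth.r (Pth.r (Pth.r (Pth.r Pth.z))))
end T5
theorem bx0_0 : BoxOK sI cl6 cl7 cl13 t2 t4 b0_0 :=
  box_mk (TrL.c (I.pos (nat_lit 0) (nat_lit 0)) (xa (xb T2.l11 (xa T2.l0 T2.l0)) (xb T2.l0 (xa T2.l0 T2.l0)))
  (TrL.c (I.pos (nat_lit 0) (nat_lit 0)) (xa T4.l1 T4.l1)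
  (TrL.c (I.pos (nat_lit 0) (nat_lit 89480386)) T2.l1
  (TrL.c (I.pos (nat_lit 0) (nat_lit 41530880)) T4.l2
  (TrL.c (I.pos (nat_lit 0) (nat_lit 0)) (xa T4.l11 (xb T4.l3 T4.l3))
  (TrL.c (I.pos (nat_lit 0) (nat_lit 0)) T2.l2
  (TrL.c (I.mix (nat_lit 41527258) (nat_lit 41530880)) T4.l4
  (TrL.c (I.mix (nat_lit 41527258) (nat_lit 4274)) T2.l3
  TrL.n)))))))) (by decide +kernel)
theorem bx0_1 : BoxOK sI cl6 cl7 cl13 t2 t4 b0_1 :=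
  box_mk (TrL.c (I.pos (nat_lit 0) (nat_lit 0)) (xa (xa T2.l8 T2.l8) (xa T2.l8 T2.l8))
  (TrL.c (I.pos (nat_lit 0) (nat_lit 0)) T4.l1
  (TrL.c (I.pos (nat_lit 0) (nat_lit 89480386)) T2.l1
  (TrL.c (I.pos (nat_lit 0) (nat_lit 41530880)) T4.l2
  (TrL.c (I.pos (nat_lit 0) (nat_lit 0)) (xa T4.l8 T4.l8)
  (TrL.c (I.pos (nat_lit 0) (nat_lit 0)) T2.l2
  (TrL.c (I.mix (nat_lit 41527258) (nat_lit 41530880)) T4.l4
  (TrL.c (I.mix (nat_lit 41527258) (nat_lit 4274)) T2.l3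
  TrL.n)))))))) (by decide +kernel)
theorem bx0_2 : BoxOK sI cl6 cl7 cl13 t2 t4 b0_2 :=
  box_mk (TrL.c (I.pos (nat_lit 0) (nat_lit 0)) T2.l8
  (TrL.c (I.pos (nat_lit 0) (nat_lit 0)) T4.l1
  (TrL.c (I.pos (nat_lit 0) (nat_lit 89480386)) T2.l1
  (TrL.c (I.pos (nat_lit 0) (nat_lit 41530880)) T4.l2
  (TrL.c (I.pos (nat_lit 0) (nat_lit 0)) T4.l8
  (TrL.c (I.pos (nat_lit 0) (nat_lit 0)) T2.l2
  (TrL.c (I.mix (nat_lit 41527258) (nat_lit 41530880)) T4.l4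
  (TrL.c (I.mix (nat_lit 41527258) (nat_lit 4274)) T2.l3
  TrL.n)))))))) (by decide +kernel)
theorem bx0_3 : BoxOK sI cl6 cl7 cl13 t2 t4 b0_3 :=
  box_mk (TrL.c (I.pos (nat_lit 0) (nat_lit 0)) (xa (xa T2.l8 T2.l8) T2.l8)
  (TrL.c (I.pos (nat_lit 0) (nat_lit 0)) T4.l1
  (TrL.c (I.pos (nat_lit 0) (nat_lit 89480386)) T2.l1
  (TrL.c (I.pos (nat_lit 0) (nat_lit 41530880)) T4.l2
  (TrL.c (I.pos (nat_lit 0) (nat_lit 0)) T4.l8
  (TrL.c (I.pos (nat_lit 0) (nat_lit 0)) T2.l2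
  (TrL.c (I.mix (nat_lit 41527258) (nat_lit 41530880)) T4.l4
  (TrL.c (I.mix (nat_lit 41527258) (nat_lit 4274)) T2.l3
  TrL.n)))))))) (by decide +kernel)
theorem bx0_4 : BoxOK sI cl6 cl7 cl13 t2 t4 b0_4 :=
  box_mk (TrL.c (I.pos (nat_lit 0) (nat_lit 0)) (xa (xb T2.l0 (xa T2.l0 T2.l0)) (xb T2.l0 (xa T2.l0 T2.l0)))
  (TrL.c (I.pos (nat_lit 0) (nat_lit 0)) (xa T4.l1 T4.l6)
  (TrL.c (I.pos (nat_lit 0) (nat_lit 89480386)) T2.l1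
  (TrL.c (I.pos (nat_lit 0) (nat_lit 41530880)) T4.l2
  (TrL.c (I.pos (nat_lit 0) (nat_lit 0)) (xb (xa T4.l0 (xa T4.l0 (xb T4.l0 T4.l3))) (xa T4.l3 (xa T4.l3 T4.l3)))
  (TrL.c (I.pos (nat_lit 0) (nat_lit 0)) (xb T2.l4 T2.l2)
  (TrL.c (I.mix (nat_lit 41527258) (nat_lit 41530880)) T4.l4
  (TrL.c (I.mix (nat_lit 41527258) (nat_lit 4274)) T2.l3
  TrL.n)))))))) (by decide +kernel)
theorem bx0_5 : BoxOK sI cl6 cl7 cl13 t2 t4 b0_5 :=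
  box_mk (TrL.c (I.pos (nat_lit 0) (nat_lit 0)) (xa T2.l8 T2.l8)
  (TrL.c (I.pos (nat_lit 0) (nat_lit 0)) T4.l1
  (TrL.c (I.pos (nat_lit 0) (nat_lit 89480386)) T2.l1
  (TrL.c (I.pos (nat_lit 0) (nat_lit 41530880)) T4.l2
  (TrL.c (I.pos (nat_lit 0) (nat_lit 0)) T4.l8
  (TrL.c (I.pos (nat_lit 0) (nat_lit 0)) T2.l2
  (TrL.c (I.mix (nat_lit 41527258) (nat_lit 41530880)) T4.l4
  (TrL.c (I.mix (nat_lit 41527258) (nat_lit 4274)) T2.l3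
  TrL.n)))))))) (by decide +kernel)
theorem bx0_6 : BoxOK sI cl6 cl7 cl13 t2 t4 b0_6 :=
  box_mk (TrL.c (I.pos (nat_lit 0) (nat_lit 0)) (xa (xa T2.l8 T2.l8) T2.l8)
  (TrL.c (I.pos (nat_lit 0) (nat_lit 0)) T4.l1
  (TrL.c (I.pos (nat_lit 0) (nat_lit 89480386)) T2.l1
  (TrL.c (I.pos (nat_lit 0) (nat_lit 41530880)) T4.l2
  (TrL.c (I.pos (nat_lit 0) (nat_lit 0)) T4.l8
  (TrL.c (I.pos (nat_lit 0) (nat_lit 0)) T2.l2
  (TrL.c (I.mix (nat_lit 41527258) (nat_lit 41530880)) T4.l4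
  (TrL.c (I.mix (nat_lit 41527258) (nat_lit 4274)) T2.l3
  TrL.n)))))))) (by decide +kernel)
theorem bx0_7 : BoxOK sI cl6 cl7 cl13 t2 t4 b0_7 :=
  box_mk (TrL.c (I.pos (nat_lit 0) (nat_lit 0)) (xb (xa T2.l11 T2.l11) (xa T2.l11 T2.l11))
  (TrL.c (I.pos (nat_lit 0) (nat_lit 0)) T4.l1
  (TrL.c (I.pos (nat_lit 0) (nat_lit 89480386)) T2.l1
  (TrL.c (I.pos (nat_lit 0) (nat_lit 41530880)) T4.l2
  (TrL.c (I.pos (nat_lit 0) (nat_lit 0)) (xb T4.l11 T4.l11)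
  (TrL.c (I.pos (nat_lit 0) (nat_lit 0)) T2.l2
  (TrL.c (I.mix (nat_lit 41527258) (nat_lit 41530880)) T4.l4
  (TrL.c (I.mix (nat_lit 41527258) (nat_lit 4274)) T2.l3
  TrL.n)))))))) (by decide +kernel)
theorem bx0_8 : BoxOK sI cl6 cl7 cl13 t2 t4 b0_8 :=
  box_mk (TrL.c (I.pos (nat_lit 0) (nat_lit 0)) (xa (xa (xb T2.l8 T2.l8) T2.l8) (xa T2.l8 T2.l8))
  (TrL.c (I.pos (nat_lit 0) (nat_lit 0)) (xa T4.l8 T4.l1)
  (TrL.c (I.pos (nat_lit 0) (nat_lit 89480386)) T2.l1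
  (TrL.c (I.pos (nat_lit 0) (nat_lit 41530880)) T4.l2
  (TrL.c (I.pos (nat_lit 0) (nat_lit 0)) (xa T4.l8 T4.l8)
  (TrL.c (I.pos (nat_lit 0) (nat_lit 0)) T2.l2
  (TrL.c (I.mix (nat_lit 41527258) (nat_lit 41530880)) T4.l4
  (TrL.c (I.mix (nat_lit 41527258) (nat_lit 4274)) T2.l3
  TrL.n)))))))) (by decide +kernel)
theorem bx0_9 : BoxOK sI cl6 cl7 cl13 t2 t4 b0_9 :=
  box_mk (TrL.c (I.pos (nat_lit 0) (nat_lit 0)) (xa T2.l0 T2.l0)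
  (TrL.c (I.pos (nat_lit 0) (nat_lit 0)) T4.l1
  (TrL.c (I.pos (nat_lit 0) (nat_lit 89480386)) T2.l1
  (TrL.c (I.pos (nat_lit 0) (nat_lit 41530880)) T4.l2
  (TrL.c (I.pos (nat_lit 0) (nat_lit 0)) (xa T4.l3 T4.l3)
  (TrL.c (I.pos (nat_lit 0) (nat_lit 0)) T2.l2
  (TrL.c (I.mix (nat_lit 41527258) (nat_lit 41530880)) T4.l4
  (TrL.c (I.mix (nat_lit 41527258) (nat_lit 4274)) T2.l5
  TrL.n)))))))) (by decide +kernel)
theorem bx0_10 : BoxOK sI cl6 cl7 cl13 t2 t4 b0_10 :=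
  box_mk (TrL.c (I.pos (nat_lit 0) (nat_lit 0)) (xa T2.l11 T2.l0)
  (TrL.c (I.pos (nat_lit 0) (nat_lit 0)) T4.l1
  (TrL.c (I.pos (nat_lit 0) (nat_lit 89480386)) T2.l1
  (TrL.c (I.pos (nat_lit 0) (nat_lit 41530880)) T4.l2
  (TrL.c (I.pos (nat_lit 0) (nat_lit 0)) (xb T4.l11 T4.l11)
  (TrL.c (I.pos (nat_lit 0) (nat_lit 0)) T2.l2
  (TrL.c (I.mix (nat_lit 41527258) (nat_lit 41530880)) T4.l4
  (TrL.c (I.mix (nat_lit 41527258) (nat_lit 4274)) T2.l3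
  TrL.n)))))))) (by decide +kernel)
theorem bx0_11 : BoxOK sI cl6 cl7 cl13 t2 t4 b0_11 :=
  box_mk (TrL.c (I.pos (nat_lit 0) (nat_lit 0)) T2.l11
  (TrL.c (I.pos (nat_lit 0) (nat_lit 0)) T4.l1
  (TrL.c (I.pos (nat_lit 0) (nat_lit 89480386)) T2.l1
  (TrL.c (I.pos (nat_lit 0) (nat_lit 41530880)) T4.l2
  (TrL.c (I.pos (nat_lit 0) (nat_lit 0)) T4.l11
  (TrL.c (I.pos (nat_lit 0) (nat_lit 0)) T2.l2
  (TrL.c (I.mix (nat_lit 41527258) (nat_lit 41530880)) T4.l4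
  (TrL.c (I.mix (nat_lit 41527258) (nat_lit 4274)) T2.l3
  TrL.n)))))))) (by decide +kernel)
theorem sv0 : StarV sI cl6 cl7 cl13 t2 t4 t0 :=
  (bt_n (bt_n (bt_n (bt_b bx0_0) (bt_n (bt_b bx0_1) (bt_b bx0_2))) (bt_n (bt_b bx0_3) (bt_n (bt_b bx0_4) (bt_b bx0_5)))) (bt_n (bt_n (bt_b bx0_6) (bt_n (bt_b bx0_7) (bt_b bx0_8))) (bt_n (bt_b bx0_9) (bt_n (bt_b bx0_10) (bt_b bx0_11)))))
def S0 : StarD := StarD.mk cl6 cl7 cl13 2 4 t0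
theorem bx1_0 : BoxOK sI cl6 cl13 cl7 t4 t2 b1_0 :=
  box_mk (TrL.c (I.pos (nat_lit 0) (nat_lit 0)) (xa (xb T4.l0 (xa T4.l0 T4.l0)) (xa (xb T4.l0 T4.l0) T4.l0))
  (TrL.c (I.pos (nat_lit 0) (nat_lit 0)) (xa T2.l4 T2.l4)
  (TrL.c (I.pos (nat_lit 0) (nat_lit 89480386)) T4.l5
  (TrL.c (I.pos (nat_lit 0) (nat_lit 41530880)) T2.l5
  (TrL.c (I.pos (nat_lit 0) (nat_lit 0)) (xa T2.l6 (xb T2.l6 T2.l6))
  (TrL.c (I.pos (nat_lit 0) (nat_lit 0)) T4.l6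
  (TrL.c (I.mix (nat_lit 41527258) (nat_lit 41530880)) T2.l7
  (TrL.c (I.mix (nat_lit 41527258) (nat_lit 4274)) T4.l7
  TrL.n)))))))) (by decide +kernel)
theorem bx1_1 : BoxOK sI cl6 cl13 cl7 t4 t2 b1_1 :=
  box_mk (TrL.c (I.pos (nat_lit 0) (nat_lit 0)) (xa (xa T4.l9 T4.l9) (xa T4.l9 T4.l9))
  (TrL.c (I.pos (nat_lit 0) (nat_lit 0)) (xa T2.l4 T2.l4)
  (TrL.c (I.pos (nat_lit 0) (nat_lit 89480386)) T4.l5
  (TrL.c (I.pos (nat_lit 0) (nat_lit 41530880)) T2.l5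
  (TrL.c (I.pos (nat_lit 0) (nat_lit 0)) (xa T2.l9 T2.l9)
  (TrL.c (I.pos (nat_lit 0) (nat_lit 0)) T4.l6
  (TrL.c (I.mix (nat_lit 41527258) (nat_lit 41530880)) T2.l7
  (TrL.c (I.mix (nat_lit 41527258) (nat_lit 4274)) T4.l7
  TrL.n)))))))) (by decide +kernel)
theorem bx1_2 : BoxOK sI cl6 cl13 cl7 t4 t2 b1_2 :=
  box_mk (TrL.c (I.pos (nat_lit 0) (nat_lit 0)) T4.l9
  (TrL.c (I.pos (nat_lit 0) (nat_lit 0)) T2.l4
  (TrL.c (I.pos (nat_lit 0) (nat_lit 89480386)) T4.l5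
  (TrL.c (I.pos (nat_lit 0) (nat_lit 41530880)) T2.l5
  (TrL.c (I.pos (nat_lit 0) (nat_lit 0)) T2.l9
  (TrL.c (I.pos (nat_lit 0) (nat_lit 0)) T4.l6
  (TrL.c (I.mix (nat_lit 41527258) (nat_lit 41530880)) T2.l7
  (TrL.c (I.mix (nat_lit 41527258) (nat_lit 4274)) T4.l7
  TrL.n)))))))) (by decide +kernel)
theorem bx1_3 : BoxOK sI cl6 cl13 cl7 t4 t2 b1_3 :=
  box_mk (TrL.c (I.pos (nat_lit 0) (nat_lit 0)) T4.l9
  (TrL.c (I.pos (nat_lit 0) (nat_lit 0)) T2.l4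
  (TrL.c (I.pos (nat_lit 0) (nat_lit 89480386)) T4.l5
  (TrL.c (I.pos (nat_lit 0) (nat_lit 41530880)) T2.l5
  (TrL.c (I.pos (nat_lit 0) (nat_lit 0)) T2.l9
  (TrL.c (I.pos (nat_lit 0) (nat_lit 0)) T4.l6
  (TrL.c (I.mix (nat_lit 41527258) (nat_lit 41530880)) T2.l7
  (TrL.c (I.mix (nat_lit 41527258) (nat_lit 4274)) T4.l7
  TrL.n)))))))) (by decide +kernel)
theorem bx1_4 : BoxOK sI cl6 cl13 cl7 t4 t2 b1_4 :=
  box_mk (TrL.c (I.pos (nat_lit 0) (nat_lit 0)) (xa (xb T4.l0 T4.l0) (xb T4.l0 (xa T4.l0 T4.l0)))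
  (TrL.c (I.pos (nat_lit 0) (nat_lit 0)) (xa T2.l4 (xb T2.l4 T2.l4))
  (TrL.c (I.pos (nat_lit 0) (nat_lit 89480386)) (xR T4.l5 T4.l5)
  (TrL.c (I.pos (nat_lit 0) (nat_lit 41530880)) T2.l5
  (TrL.c (I.pos (nat_lit 0) (nat_lit 0)) (xa (xb (xa T2.l6 T2.l6) T2.l6) (xb (xa T2.l6 (xb T2.l6 T2.l6)) (xa T2.l6 (xb T2.l6 T2.l6))))
  (TrL.c (I.pos (nat_lit 0) (nat_lit 0)) (xa T4.l6 T4.l6)
  (TrL.c (I.mix (nat_lit 41527258) (nat_lit 41530880)) T2.l1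
  (TrL.c (I.mix (nat_lit 41527258) (nat_lit 4274)) T4.l7
  TrL.n)))))))) (by decide +kernel)
theorem bx1_5 : BoxOK sI cl6 cl13 cl7 t4 t2 b1_5 :=
  box_mk (TrL.c (I.pos (nat_lit 0) (nat_lit 0)) (xa T4.l9 T4.l0)
  (TrL.c (I.pos (nat_lit 0) (nat_lit 0)) T2.l4
  (TrL.c (I.pos (nat_lit 0) (nat_lit 89480386)) T4.l5
  (TrL.c (I.pos (nat_lit 0) (nat_lit 41530880)) T2.l5
  (TrL.c (I.pos (nat_lit 0) (nat_lit 0)) (xa T2.l9 T2.l9)
  (TrL.c (I.pos (nat_lit 0) (nat_lit 0)) T4.l6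
  (TrL.c (I.mix (nat_lit 41527258) (nat_lit 41530880)) T2.l7
  (TrL.c (I.mix (nat_lit 41527258) (nat_lit 4274)) T4.l7
  TrL.n)))))))) (by decide +kernel)
theorem bx1_6 : BoxOK sI cl6 cl13 cl7 t4 t2 b1_6 :=
  box_mk (TrL.c (I.pos (nat_lit 0) (nat_lit 0)) (xa (xa T4.l9 T4.l9) T4.l9)
  (TrL.c (I.pos (nat_lit 0) (nat_lit 0)) (xa T2.l4 T2.l4)
  (TrL.c (I.pos (nat_lit 0) (nat_lit 89480386)) T4.l5
  (TrL.c (I.pos (nat_lit 0) (nat_lit 41530880)) T2.l5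
  (TrL.c (I.pos (nat_lit 0) (nat_lit 0)) (xa T2.l9 T2.l9)
  (TrL.c (I.pos (nat_lit 0) (nat_lit 0)) T4.l6
  (TrL.c (I.mix (nat_lit 41527258) (nat_lit 41530880)) T2.l7
  (TrL.c (I.mix (nat_lit 41527258) (nat_lit 4274)) T4.l7
  TrL.n)))))))) (by decide +kernel)
theorem bx1_7 : BoxOK sI cl6 cl13 cl7 t4 t2 b1_7 :=
  box_mk (TrL.c (I.pos (nat_lit 0) (nat_lit 0)) (xb T4.l10 (xa T4.l10 T4.l10))
  (TrL.c (I.pos (nat_lit 0) (nat_lit 0)) T2.l4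
  (TrL.c (I.pos (nat_lit 0) (nat_lit 89480386)) T4.l5
  (TrL.c (I.pos (nat_lit 0) (nat_lit 41530880)) T2.l5
  (TrL.c (I.pos (nat_lit 0) (nat_lit 0)) (xb T2.l10 T2.l10)
  (TrL.c (I.pos (nat_lit 0) (nat_lit 0)) T4.l6
  (TrL.c (I.mix (nat_lit 41527258) (nat_lit 41530880)) T2.l7
  (TrL.c (I.mix (nat_lit 41527258) (nat_lit 4274)) T4.l7
  TrL.n)))))))) (by decide +kernel)
theorem bx1_8 : BoxOK sI cl6 cl13 cl7 t4 t2 b1_8 :=
  box_mk (TrL.c (I.pos (nat_lit 0) (nat_lit 0)) (xa (xa (xb T4.l9 T4.l9) T4.l9) (xa T4.l9 T4.l9))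
  (TrL.c (I.pos (nat_lit 0) (nat_lit 0)) (xa T2.l4 T2.l4)
  (TrL.c (I.pos (nat_lit 0) (nat_lit 89480386)) T4.l5
  (TrL.c (I.pos (nat_lit 0) (nat_lit 41530880)) T2.l5
  (TrL.c (I.pos (nat_lit 0) (nat_lit 0)) (xa T2.l9 T2.l9)
  (TrL.c (I.pos (nat_lit 0) (nat_lit 0)) T4.l6
  (TrL.c (I.mix (nat_lit 41527258) (nat_lit 41530880)) T2.l7
  (TrL.c (I.mix (nat_lit 41527258) (nat_lit 4274)) T4.l7
  TrL.n)))))))) (by decide +kernel)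
theorem bx1_9 : BoxOK sI cl6 cl13 cl7 t4 t2 b1_9 :=
  box_mk (TrL.c (I.pos (nat_lit 0) (nat_lit 0)) (xa T4.l0 T4.l0)
  (TrL.c (I.pos (nat_lit 0) (nat_lit 0)) T2.l4
  (TrL.c (I.pos (nat_lit 0) (nat_lit 89480386)) T4.l5
  (TrL.c (I.pos (nat_lit 0) (nat_lit 41530880)) T2.l5
  (TrL.c (I.pos (nat_lit 0) (nat_lit 0)) (xa T2.l10 T2.l0)
  (TrL.c (I.pos (nat_lit 0) (nat_lit 0)) T4.l6
  (TrL.c (I.mix (nat_lit 41527258) (nat_lit 41530880)) T2.l7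
  (TrL.c (I.mix (nat_lit 41527258) (nat_lit 4274)) T4.l7
  TrL.n)))))))) (by decide +kernel)
theorem bx1_10 : BoxOK sI cl6 cl13 cl7 t4 t2 b1_10 :=
  box_mk (TrL.c (I.pos (nat_lit 0) (nat_lit 0)) T4.l0
  (TrL.c (I.pos (nat_lit 0) (nat_lit 0)) T2.l4
  (TrL.c (I.pos (nat_lit 0) (nat_lit 89480386)) T4.l5
  (TrL.c (I.pos (nat_lit 0) (nat_lit 41530880)) T2.l5
  (TrL.c (I.pos (nat_lit 0) (nat_lit 0)) T2.l10
  (TrL.c (I.pos (nat_lit 0) (nat_lit 0)) T4.l6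
  (TrL.c (I.mix (nat_lit 41527258) (nat_lit 41530880)) T2.l7
  (TrL.c (I.mix (nat_lit 41527258) (nat_lit 4274)) T4.l7
  TrL.n)))))))) (by decide +kernel)
theorem bx1_11 : BoxOK sI cl6 cl13 cl7 t4 t2 b1_11 :=
  box_mk (TrL.c (I.pos (nat_lit 0) (nat_lit 0)) (xa (xb T4.l0 T4.l0) T4.l0)
  (TrL.c (I.pos (nat_lit 0) (nat_lit 0)) T2.l4
  (TrL.c (I.pos (nat_lit 0) (nat_lit 89480386)) T4.l5
  (TrL.c (I.pos (nat_lit 0) (nat_lit 41530880)) T2.l5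
  (TrL.c (I.pos (nat_lit 0) (nat_lit 0)) (xa T2.l6 T2.l6)
  (TrL.c (I.pos (nat_lit 0) (nat_lit 0)) T4.l6
  (TrL.c (I.mix (nat_lit 41527258) (nat_lit 41530880)) T2.l7
  (TrL.c (I.mix (nat_lit 41527258) (nat_lit 4274)) T4.l7
  TrL.n)))))))) (by decide +kernel)
theorem sv1 : StarV sI cl6 cl13 cl7 t4 t2 t1 :=
  (bt_n (bt_n (bt_n (bt_b bx1_0) (bt_n (bt_b bx1_1) (bt_b bx1_2))) (bt_n (bt_b bx1_3) (bt_n (bt_b bx1_4) (bt_b bx1_5)))) (bt_n (bt_n (bt_b bx1_6) (bt_n (bt_b bx1_7) (bt_b bx1_8))) (bt_n (bt_b bx1_9) (bt_n (bt_b bx1_10) (bt_b bx1_11)))))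
def S1 : StarD := StarD.mk cl6 cl13 cl7 4 2 t1
theorem bx2_0 : BoxOK sI cl7 cl6 cl13 t0 t5 b2_0 :=
  box_mk (TrL.c (I.pos (nat_lit 0) (nat_lit 0)) (xa (xb T0.l0 (xa T0.l0 T0.l0)) (xb T0.l0 (xa T0.l0 T0.l0)))
  (TrL.c (I.pos (nat_lit 0) (nat_lit 0)) (xa (xk T5.l1 T5.l1) (xk T5.l1 T5.l1))
  (TrL.c (I.pos (nat_lit 0) (nat_lit 111196574)) (xR T0.l1 T0.l1)
  (TrL.c (I.pos (nat_lit 0) (nat_lit 77433728)) T5.l2
  (TrL.c (I.pos (nat_lit 0) (nat_lit 0)) (xa (xk (xb T5.l3 T5.l3) T5.l3) (xk (xb T5.l3 T5.l3) (xb T5.l3 T5.l3)))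
  (TrL.c (I.pos (nat_lit 0) (nat_lit 0)) T0.l2
  (TrL.c (I.mix (nat_lit 29511666) (nat_lit 77433728)) (xR T5.l4 T5.l4)
  (TrL.c (I.mix (nat_lit 29511666) (nat_lit 46070178)) T0.l6
  TrL.n)))))))) (by decide +kernel)
theorem bx2_1 : BoxOK sI cl7 cl6 cl13 t0 t5 b2_1 :=
  box_mk (TrL.c (I.pos (nat_lit 0) (nat_lit 0)) (xa (xa (xb T0.l4 T0.l4) T0.l4) (xa T0.l4 T0.l4))
  (TrL.c (I.pos (nat_lit 0) (nat_lit 0)) (xa T5.l1 T5.l1)
  (TrL.c (I.pos (nat_lit 0) (nat_lit 111196574)) T0.l1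
  (TrL.c (I.pos (nat_lit 0) (nat_lit 77433728)) T5.l2
  (TrL.c (I.pos (nat_lit 0) (nat_lit 0)) (xa T5.l5 T5.l5)
  (TrL.c (I.pos (nat_lit 0) (nat_lit 0)) T0.l2
  (TrL.c (I.mix (nat_lit 29511666) (nat_lit 77433728)) T5.l4
  (TrL.c (I.mix (nat_lit 29511666) (nat_lit 46070178)) T0.l3
  TrL.n)))))))) (by decide +kernel)
theorem bx2_2 : BoxOK sI cl7 cl6 cl13 t0 t5 b2_2 :=
  box_mk (TrL.c (I.pos (nat_lit 0) (nat_lit 0)) T0.l4
  (TrL.c (I.pos (nat_lit 0) (nat_lit 0)) T5.l1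
  (TrL.c (I.pos (nat_lit 0) (nat_lit 111196574)) T0.l1
  (TrL.c (I.pos (nat_lit 0) (nat_lit 77433728)) T5.l2
  (TrL.c (I.pos (nat_lit 0) (nat_lit 0)) T5.l5
  (TrL.c (I.pos (nat_lit 0) (nat_lit 0)) T0.l2
  (TrL.c (I.mix (nat_lit 29511666) (nat_lit 77433728)) T5.l4
  (TrL.c (I.mix (nat_lit 29511666) (nat_lit 46070178)) T0.l3
  TrL.n)))))))) (by decide +kernel)
theorem bx2_3 : BoxOK sI cl7 cl6 cl13 t0 t5 b2_3 :=
  box_mk (TrL.c (I.pos (nat_lit 0) (nat_lit 0)) (xa (xb T0.l4 T0.l4) T0.l4)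
  (TrL.c (I.pos (nat_lit 0) (nat_lit 0)) T5.l5
  (TrL.c (I.pos (nat_lit 0) (nat_lit 111196574)) T0.l1
  (TrL.c (I.pos (nat_lit 0) (nat_lit 77433728)) T5.l4
  (TrL.c (I.pos (nat_lit 0) (nat_lit 0)) T5.l1
  (TrL.c (I.pos (nat_lit 0) (nat_lit 0)) T0.l1
  (TrL.c (I.mix (nat_lit 29511666) (nat_lit 77433728)) T5.l4
  (TrL.c (I.mix (nat_lit 29511666) (nat_lit 46070178)) T0.l3
  TrL.n)))))))) (by decide +kernel)
theorem bx2_4 : BoxOK sI cl7 cl6 cl13 t0 t5 b2_4 :=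
  box_mk (TrL.c (I.pos (nat_lit 0) (nat_lit 0)) (xa T0.l4 T0.l4)
  (TrL.c (I.pos (nat_lit 0) (nat_lit 0)) T5.l1
  (TrL.c (I.pos (nat_lit 0) (nat_lit 111196574)) (xR T0.l1 T0.l1)
  (TrL.c (I.pos (nat_lit 0) (nat_lit 77433728)) T5.l2
  (TrL.c (I.pos (nat_lit 0) (nat_lit 0)) (xk (xa T5.l5 T5.l5) T5.l5)
  (TrL.c (I.pos (nat_lit 0) (nat_lit 0)) T0.l2
  (TrL.c (I.mix (nat_lit 29511666) (nat_lit 77433728)) (xR T5.l4 T5.l4)
  (TrL.c (I.mix (nat_lit 29511666) (nat_lit 46070178)) T0.l3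
  TrL.n)))))))) (by decide +kernel)
theorem bx2_5 : BoxOK sI cl7 cl6 cl13 t0 t5 b2_5 :=
  box_mk (TrL.c (I.pos (nat_lit 0) (nat_lit 0)) T0.l4
  (TrL.c (I.pos (nat_lit 0) (nat_lit 0)) T5.l1
  (TrL.c (I.pos (nat_lit 0) (nat_lit 111196574)) T0.l1
  (TrL.c (I.pos (nat_lit 0) (nat_lit 77433728)) T5.l4
  (TrL.c (I.pos (nat_lit 0) (nat_lit 0)) T5.l5
  (TrL.c (I.pos (nat_lit 0) (nat_lit 0)) T0.l2
  (TrL.c (I.mix (nat_lit 29511666) (nat_lit 77433728)) T5.l4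
  (TrL.c (I.mix (nat_lit 29511666) (nat_lit 46070178)) T0.l3
  TrL.n)))))))) (by decide +kernel)
theorem bx2_6 : BoxOK sI cl7 cl6 cl13 t0 t5 b2_6 :=
  box_mk (TrL.c (I.pos (nat_lit 0) (nat_lit 0)) (xb T0.l9 (xa T0.l9 T0.l9))
  (TrL.c (I.pos (nat_lit 0) (nat_lit 0)) (xk T5.l1 T5.l1)
  (TrL.c (I.pos (nat_lit 0) (nat_lit 111196574)) (xR T0.l1 T0.l1)
  (TrL.c (I.pos (nat_lit 0) (nat_lit 77433728)) T5.l2
  (TrL.c (I.pos (nat_lit 0) (nat_lit 0)) (xk (xb T5.l9 T5.l9) (xb T5.l9 T5.l9))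
  (TrL.c (I.pos (nat_lit 0) (nat_lit 0)) T0.l2
  (TrL.c (I.mix (nat_lit 29511666) (nat_lit 77433728)) (xR T5.l4 T5.l4)
  (TrL.c (I.mix (nat_lit 29511666) (nat_lit 46070178)) T0.l6
  TrL.n)))))))) (by decide +kernel)
theorem bx2_7 : BoxOK sI cl7 cl6 cl13 t0 t5 b2_7 :=
  box_mk (TrL.c (I.pos (nat_lit 0) (nat_lit 0)) (xa (xa (xb T0.l4 T0.l4) T0.l4) T0.l4)
  (TrL.c (I.pos (nat_lit 0) (nat_lit 0)) (xa T5.l5 T5.l1)
  (TrL.c (I.pos (nat_lit 0) (nat_lit 111196574)) T0.l1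
  (TrL.c (I.pos (nat_lit 0) (nat_lit 77433728)) T5.l2
  (TrL.c (I.pos (nat_lit 0) (nat_lit 0)) (xa T5.l1 T5.l5)
  (TrL.c (I.pos (nat_lit 0) (nat_lit 0)) T0.l2
  (TrL.c (I.mix (nat_lit 29511666) (nat_lit 77433728)) T5.l4
  (TrL.c (I.mix (nat_lit 29511666) (nat_lit 46070178)) T0.l3
  TrL.n)))))))) (by decide +kernel)
theorem bx2_8 : BoxOK sI cl7 cl6 cl13 t0 t5 b2_8 :=
  box_mk (TrL.c (I.pos (nat_lit 0) (nat_lit 0)) (xa (xb T0.l0 (xa T0.l0 T0.l0)) (xb T0.l0 (xa T0.l0 T0.l0)))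
  (TrL.c (I.pos (nat_lit 0) (nat_lit 0)) (xa (xb T5.l1 T5.l1) (xk T5.l7 T5.l7))
  (TrL.c (I.pos (nat_lit 0) (nat_lit 111196574)) (xR T0.l1 T0.l8)
  (TrL.c (I.pos (nat_lit 0) (nat_lit 77433728)) T5.l2
  (TrL.c (I.pos (nat_lit 0) (nat_lit 0)) (xa (xb (xk (xa T5.l3 T5.l0) (xa T5.l3 T5.l0)) (xk T5.l3 T5.l3)) (xb (xk (xa T5.l0 (xb (xk T5.l0 T5.l0) (xk T5.l3 T5.l3))) (xa T5.l0 (xb T5.l0 (xk T5.l3 T5.l3)))) (xk (xa T5.l3 (xb (xk T5.l3 T5.l3) (xk T5.l3 T5.l3))) (xa T5.l3 (xb (xk T5.l3 T5.l3) (xk T5.l3 T5.l3))))))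
  (TrL.c (I.pos (nat_lit 0) (nat_lit 0)) (xk (xa T0.l2 T0.l2) (xa T0.l2 T0.l2))
  (TrL.c (I.mix (nat_lit 29511666) (nat_lit 77433728)) (xR T5.l4 (xR T5.l4 T5.l4))
  (TrL.c (I.mix (nat_lit 29511666) (nat_lit 46070178)) T0.l6
  TrL.n)))))))) (by decide +kernel)
theorem bx2_9 : BoxOK sI cl7 cl6 cl13 t0 t5 b2_9 :=
  box_mk (TrL.c (I.pos (nat_lit 0) (nat_lit 0)) (xa T0.l9 T0.l9)
  (TrL.c (I.pos (nat_lit 0) (nat_lit 0)) T5.l1
  (TrL.c (I.pos (nat_lit 0) (nat_lit 111196574)) (xR T0.l1 T0.l1)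
  (TrL.c (I.pos (nat_lit 0) (nat_lit 77433728)) T5.l2
  (TrL.c (I.pos (nat_lit 0) (nat_lit 0)) (xk (xb T5.l9 T5.l9) (xb T5.l9 T5.l9))
  (TrL.c (I.pos (nat_lit 0) (nat_lit 0)) T0.l2
  (TrL.c (I.mix (nat_lit 29511666) (nat_lit 77433728)) T5.l4
  (TrL.c (I.mix (nat_lit 29511666) (nat_lit 46070178)) T0.l3
  TrL.n)))))))) (by decide +kernel)
theorem bx2_10 : BoxOK sI cl7 cl6 cl13 t0 t5 b2_10 :=
  box_mk (TrL.c (I.pos (nat_lit 0) (nat_lit 0)) T0.l9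
  (TrL.c (I.pos (nat_lit 0) (nat_lit 0)) T5.l1
  (TrL.c (I.pos (nat_lit 0) (nat_lit 111196574)) (xR T0.l1 T0.l1)
  (TrL.c (I.pos (nat_lit 0) (nat_lit 77433728)) T5.l2
  (TrL.c (I.pos (nat_lit 0) (nat_lit 0)) (xk T5.l9 T5.l9)
  (TrL.c (I.pos (nat_lit 0) (nat_lit 0)) T0.l2
  (TrL.c (I.mix (nat_lit 29511666) (nat_lit 77433728)) (xR T5.l4 T5.l4)
  (TrL.c (I.mix (nat_lit 29511666) (nat_lit 46070178)) T0.l3
  TrL.n)))))))) (by decide +kernel)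
theorem bx2_11 : BoxOK sI cl7 cl6 cl13 t0 t5 b2_11 :=
  box_mk (TrL.c (I.pos (nat_lit 0) (nat_lit 0)) (xa T0.l0 T0.l0)
  (TrL.c (I.pos (nat_lit 0) (nat_lit 0)) (xk T5.l1 T5.l1)
  (TrL.c (I.pos (nat_lit 0) (nat_lit 111196574)) (xR T0.l1 T0.l1)
  (TrL.c (I.pos (nat_lit 0) (nat_lit 77433728)) T5.l2
  (TrL.c (I.pos (nat_lit 0) (nat_lit 0)) (xk (xa T5.l3 T5.l3) (xa T5.l3 T5.l3))
  (TrL.c (I.pos (nat_lit 0) (nat_lit 0)) T0.l2
  (TrL.c (I.mix (nat_lit 29511666) (nat_lit 77433728)) (xR T5.l4 T5.l4)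
  (TrL.c (I.mix (nat_lit 29511666) (nat_lit 46070178)) T0.l6
  TrL.n)))))))) (by decide +kernel)
theorem sv2 : StarV sI cl7 cl6 cl13 t0 t5 t2 :=
  (bt_n (bt_n (bt_n (bt_b bx2_0) (bt_n (bt_b bx2_1) (bt_b bx2_2))) (bt_n (bt_b bx2_3) (bt_n (bt_b bx2_4) (bt_b bx2_5)))) (bt_n (bt_n (bt_b bx2_6) (bt_n (bt_b bx2_7) (bt_b bx2_8))) (bt_n (bt_b bx2_9) (bt_n (bt_b bx2_10) (bt_b bx2_11)))))
def S2 : StarD := StarD.mk cl7 cl6 cl13 0 5 t2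
theorem bx3_0 : BoxOK sI cl7 cl13 cl6 t5 t0 b3_0 :=
  box_mk (TrL.c (I.pos (nat_lit 0) (nat_lit 0)) (xa (xa (xb T5.l0 T5.l0) (xb T5.l0 T5.l0)) (xa (xb T5.l0 T5.l0) (xb T5.l0 T5.l0)))
  (TrL.c (I.pos (nat_lit 0) (nat_lit 0)) (xa (xk (xb T0.l5 T0.l5) (xb T0.l5 T0.l5)) (xk (xb T0.l5 T0.l5) (xb T0.l5 T0.l5)))
  (TrL.c (I.pos (nat_lit 0) (nat_lit 111196574)) (xR T5.l6 T5.l6)
  (TrL.c (I.pos (nat_lit 0) (nat_lit 77433728)) T0.l6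
  (TrL.c (I.pos (nat_lit 0) (nat_lit 0)) (xa (xk (xb T0.l7 T0.l7) (xb T0.l7 T0.l7)) (xk (xb (xa T0.l7 T0.l7) (xa T0.l7 T0.l7)) (xb (xa T0.l7 T0.l7) (xa T0.l7 T0.l7))))
  (TrL.c (I.pos (nat_lit 0) (nat_lit 0)) (xk T5.l7 T5.l7)
  (TrL.c (I.mix (nat_lit 29511666) (nat_lit 77433728)) (xR T0.l8 T0.l8)
  (TrL.c (I.mix (nat_lit 29511666) (nat_lit 46070178)) T5.l8
  TrL.n)))))))) (by decide +kernel)
theorem bx3_1 : BoxOK sI cl7 cl13 cl6 t5 t0 b3_1 :=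
  box_mk (TrL.c (I.pos (nat_lit 0) (nat_lit 0)) T5.l10
  (TrL.c (I.pos (nat_lit 0) (nat_lit 0)) (xa T0.l5 T0.l5)
  (TrL.c (I.pos (nat_lit 0) (nat_lit 111196574)) (xR T5.l6 T5.l6)
  (TrL.c (I.pos (nat_lit 0) (nat_lit 77433728)) T0.l6
  (TrL.c (I.pos (nat_lit 0) (nat_lit 0)) (xk (xa T0.l10 T0.l10) (xa T0.l10 T0.l10))
  (TrL.c (I.pos (nat_lit 0) (nat_lit 0)) T5.l7
  (TrL.c (I.mix (nat_lit 29511666) (nat_lit 77433728)) (xR T0.l8 T0.l8)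
  (TrL.c (I.mix (nat_lit 29511666) (nat_lit 46070178)) T5.l8
  TrL.n)))))))) (by decide +kernel)
theorem bx3_2 : BoxOK sI cl7 cl13 cl6 t5 t0 b3_2 :=
  box_mk (TrL.c (I.pos (nat_lit 0) (nat_lit 0)) (xa (xa T5.l10 T5.l10) T5.l10)
  (TrL.c (I.pos (nat_lit 0) (nat_lit 0)) (xa T0.l5 T0.l5)
  (TrL.c (I.pos (nat_lit 0) (nat_lit 111196574)) T5.l6
  (TrL.c (I.pos (nat_lit 0) (nat_lit 77433728)) T0.l6
  (TrL.c (I.pos (nat_lit 0) (nat_lit 0)) (xa T0.l10 T0.l10)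
  (TrL.c (I.pos (nat_lit 0) (nat_lit 0)) T5.l7
  (TrL.c (I.mix (nat_lit 29511666) (nat_lit 77433728)) (xR T0.l8 T0.l8)
  (TrL.c (I.mix (nat_lit 29511666) (nat_lit 46070178)) T5.l4
  TrL.n)))))))) (by decide +kernel)
theorem bx3_3 : BoxOK sI cl7 cl13 cl6 t5 t0 b3_3 :=
  box_mk (TrL.c (I.pos (nat_lit 0) (nat_lit 0)) (xb T5.l11 (xa T5.l0 T5.l0))
  (TrL.c (I.pos (nat_lit 0) (nat_lit 0)) (xk (xb T0.l5 T0.l5) (xb T0.l5 T0.l5))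
  (TrL.c (I.pos (nat_lit 0) (nat_lit 111196574)) (xR T5.l6 T5.l6)
  (TrL.c (I.pos (nat_lit 0) (nat_lit 77433728)) T0.l6
  (TrL.c (I.pos (nat_lit 0) (nat_lit 0)) (xk (xb T0.l11 T0.l7) (xb T0.l11 T0.l7))
  (TrL.c (I.pos (nat_lit 0) (nat_lit 0)) T5.l7
  (TrL.c (I.mix (nat_lit 29511666) (nat_lit 77433728)) (xR T0.l8 T0.l8)
  (TrL.c (I.mix (nat_lit 29511666) (nat_lit 46070178)) T5.l8
  TrL.n)))))))) (by decide +kernel)
theorem bx3_4 : BoxOK sI cl7 cl13 cl6 t5 t0 b3_4 :=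
  box_mk (TrL.c (I.pos (nat_lit 0) (nat_lit 0)) (xa (xa (xb T5.l10 T5.l10) T5.l10) (xa T5.l10 T5.l10))
  (TrL.c (I.pos (nat_lit 0) (nat_lit 0)) (xa (xa T0.l5 T0.l5) (xa T0.l5 T0.l5))
  (TrL.c (I.pos (nat_lit 0) (nat_lit 111196574)) T5.l6
  (TrL.c (I.pos (nat_lit 0) (nat_lit 77433728)) T0.l6
  (TrL.c (I.pos (nat_lit 0) (nat_lit 0)) (xa T0.l10 T0.l10)
  (TrL.c (I.pos (nat_lit 0) (nat_lit 0)) T5.l7
  (TrL.c (I.mix (nat_lit 29511666) (nat_lit 77433728)) (xR T0.l8 T0.l8)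
  (TrL.c (I.mix (nat_lit 29511666) (nat_lit 46070178)) T5.l8
  TrL.n)))))))) (by decide +kernel)
theorem bx3_5 : BoxOK sI cl7 cl13 cl6 t5 t0 b3_5 :=
  box_mk (TrL.c (I.pos (nat_lit 0) (nat_lit 0)) (xa T5.l0 T5.l0)
  (TrL.c (I.pos (nat_lit 0) (nat_lit 0)) T0.l5
  (TrL.c (I.pos (nat_lit 0) (nat_lit 111196574)) (xR T5.l6 T5.l6)
  (TrL.c (I.pos (nat_lit 0) (nat_lit 77433728)) T0.l6
  (TrL.c (I.pos (nat_lit 0) (nat_lit 0)) (xk (xa T0.l11 (xb T0.l11 T0.l11)) (xa T0.l11 T0.l11))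
  (TrL.c (I.pos (nat_lit 0) (nat_lit 0)) T5.l7
  (TrL.c (I.mix (nat_lit 29511666) (nat_lit 77433728)) (xR T0.l8 T0.l8)
  (TrL.c (I.mix (nat_lit 29511666) (nat_lit 46070178)) T5.l8
  TrL.n)))))))) (by decide +kernel)
theorem bx3_6 : BoxOK sI cl7 cl13 cl6 t5 t0 b3_6 :=
  box_mk (TrL.c (I.pos (nat_lit 0) (nat_lit 0)) (xa T5.l10 T5.l10)
  (TrL.c (I.pos (nat_lit 0) (nat_lit 0)) (xa T0.l5 T0.l5)
  (TrL.c (I.pos (nat_lit 0) (nat_lit 111196574)) T5.l6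
  (TrL.c (I.pos (nat_lit 0) (nat_lit 77433728)) T0.l6
  (TrL.c (I.pos (nat_lit 0) (nat_lit 0)) T0.l10
  (TrL.c (I.pos (nat_lit 0) (nat_lit 0)) T5.l7
  (TrL.c (I.mix (nat_lit 29511666) (nat_lit 77433728)) (xR T0.l8 T0.l8)
  (TrL.c (I.mix (nat_lit 29511666) (nat_lit 46070178)) T5.l8
  TrL.n)))))))) (by decide +kernel)
theorem bx3_7 : BoxOK sI cl7 cl13 cl6 t5 t0 b3_7 :=
  box_mk (TrL.c (I.pos (nat_lit 0) (nat_lit 0)) T5.l10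
  (TrL.c (I.pos (nat_lit 0) (nat_lit 0)) T0.l5
  (TrL.c (I.pos (nat_lit 0) (nat_lit 111196574)) (xR T5.l6 T5.l6)
  (TrL.c (I.pos (nat_lit 0) (nat_lit 77433728)) T0.l6
  (TrL.c (I.pos (nat_lit 0) (nat_lit 0)) (xb T0.l10 T0.l10)
  (TrL.c (I.pos (nat_lit 0) (nat_lit 0)) T5.l7
  (TrL.c (I.mix (nat_lit 29511666) (nat_lit 77433728)) (xR T0.l8 T0.l8)
  (TrL.c (I.mix (nat_lit 29511666) (nat_lit 46070178)) T5.l8
  TrL.n)))))))) (by decide +kernel)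
theorem bx3_8 : BoxOK sI cl7 cl13 cl6 t5 t0 b3_8 :=
  box_mk (TrL.c (I.pos (nat_lit 0) (nat_lit 0)) (xa T5.l10 T5.l10)
  (TrL.c (I.pos (nat_lit 0) (nat_lit 0)) (xa T0.l5 T0.l5)
  (TrL.c (I.pos (nat_lit 0) (nat_lit 111196574)) T5.l6
  (TrL.c (I.pos (nat_lit 0) (nat_lit 77433728)) T0.l6
  (TrL.c (I.pos (nat_lit 0) (nat_lit 0)) (xa T0.l10 T0.l10)
  (TrL.c (I.pos (nat_lit 0) (nat_lit 0)) T5.l7
  (TrL.c (I.mix (nat_lit 29511666) (nat_lit 77433728)) T0.l8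
  (TrL.c (I.mix (nat_lit 29511666) (nat_lit 46070178)) T5.l4
  TrL.n)))))))) (by decide +kernel)
theorem bx3_9 : BoxOK sI cl7 cl13 cl6 t5 t0 b3_9 :=
  box_mk (TrL.c (I.pos (nat_lit 0) (nat_lit 0)) (xa (xb T5.l0 T5.l0) (xb T5.l0 (xa T5.l0 T5.l0)))
  (TrL.c (I.pos (nat_lit 0) (nat_lit 0)) (xa (xk T0.l5 T0.l5) (xk (xb T0.l2 T0.l2) (xb T0.l5 (xa T0.l5 T0.l5))))
  (TrL.c (I.pos (nat_lit 0) (nat_lit 111196574)) (xR T5.l6 T5.l6)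
  (TrL.c (I.pos (nat_lit 0) (nat_lit 77433728)) (xR T0.l6 T0.l6)
  (TrL.c (I.pos (nat_lit 0) (nat_lit 0)) (xa (xb (xk (xa T0.l7 T0.l7) (xa T0.l7 T0.l7)) (xk T0.l7 T0.l7)) (xb (xk (xa T0.l7 (xk T0.l7 T0.l7)) (xa T0.l7 (xb (xk T0.l7 T0.l7) T0.l7))) (xk (xa T0.l7 (xk (xb T0.l7 T0.l7) (xb T0.l7 T0.l7))) (xa T0.l7 (xk (xb T0.l7 T0.l7) (xb T0.l7 T0.l7))))))
  (TrL.c (I.pos (nat_lit 0) (nat_lit 0)) (xk (xa T5.l7 (xb T5.l7 T5.l7)) (xa T5.l7 (xb T5.l7 T5.l7)))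
  (TrL.c (I.mix (nat_lit 29511666) (nat_lit 77433728)) (xR T0.l8 (xR T0.l8 T0.l8))
  (TrL.c (I.mix (nat_lit 29511666) (nat_lit 46070178)) T5.l2
  TrL.n)))))))) (by decide +kernel)
theorem bx3_10 : BoxOK sI cl7 cl13 cl6 t5 t0 b3_10 :=
  box_mk (TrL.c (I.pos (nat_lit 0) (nat_lit 0)) (xa T5.l0 T5.l0)
  (TrL.c (I.pos (nat_lit 0) (nat_lit 0)) (xk (xa T0.l5 T0.l5) (xa T0.l5 T0.l5))
  (TrL.c (I.pos (nat_lit 0) (nat_lit 111196574)) (xR T5.l6 T5.l6)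
  (TrL.c (I.pos (nat_lit 0) (nat_lit 77433728)) T0.l6
  (TrL.c (I.pos (nat_lit 0) (nat_lit 0)) (xk (xa T0.l7 T0.l7) (xa T0.l7 T0.l7))
  (TrL.c (I.pos (nat_lit 0) (nat_lit 0)) T5.l7
  (TrL.c (I.mix (nat_lit 29511666) (nat_lit 77433728)) (xR T0.l8 T0.l8)
  (TrL.c (I.mix (nat_lit 29511666) (nat_lit 46070178)) T5.l8
  TrL.n)))))))) (by decide +kernel)
theorem bx3_11 : BoxOK sI cl7 cl13 cl6 t5 t0 b3_11 :=
  box_mk (TrL.c (I.pos (nat_lit 0) (nat_lit 0)) T5.l11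
  (TrL.c (I.pos (nat_lit 0) (nat_lit 0)) (xk T0.l5 T0.l5)
  (TrL.c (I.pos (nat_lit 0) (nat_lit 111196574)) (xR T5.l6 T5.l6)
  (TrL.c (I.pos (nat_lit 0) (nat_lit 77433728)) T0.l6
  (TrL.c (I.pos (nat_lit 0) (nat_lit 0)) (xk T0.l11 T0.l11)
  (TrL.c (I.pos (nat_lit 0) (nat_lit 0)) T5.l7
  (TrL.c (I.mix (nat_lit 29511666) (nat_lit 77433728)) (xR T0.l8 T0.l8)
  (TrL.c (I.mix (nat_lit 29511666) (nat_lit 46070178)) T5.l8
  TrL.n)))))))) (by decide +kernel)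
theorem sv3 : StarV sI cl7 cl13 cl6 t5 t0 t3 :=
  (bt_n (bt_n (bt_n (bt_b bx3_0) (bt_n (bt_b bx3_1) (bt_b bx3_2))) (bt_n (bt_b bx3_3) (bt_n (bt_b bx3_4) (bt_b bx3_5)))) (bt_n (bt_n (bt_b bx3_6) (bt_n (bt_b bx3_7) (bt_b bx3_8))) (bt_n (bt_b bx3_9) (bt_n (bt_b bx3_10) (bt_b bx3_11)))))
def S3 : StarD := StarD.mk cl7 cl13 cl6 5 0 t3
theorem bx4_0 : BoxOK sI cl13 cl6 cl7 t1 t3 b4_0 :=
  box_mk (TrL.c (I.pos (nat_lit 0) (nat_lit 0)) (xa (xb T1.l0 T1.l0) (xb T1.l0 T1.l0))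
  (TrL.c (I.pos (nat_lit 0) (nat_lit 0)) (xa (xk T3.l1 T3.l1) (xk T3.l1 T3.l1))
  (TrL.c (I.pos (nat_lit 0) (nat_lit 134217730)) (xR T1.l1 T1.l1)
  (TrL.c (I.pos (nat_lit 0) (nat_lit 110514882)) (xR T3.l2 T3.l2)
  (TrL.c (I.pos (nat_lit 0) (nat_lit 0)) (xa (xk T3.l3 T3.l3) (xk (xb T3.l3 T3.l3) (xb T3.l3 T3.l3)))
  (TrL.c (I.pos (nat_lit 0) (nat_lit 0)) T1.l2
  (TrL.c (I.mix (nat_lit 8088324) (nat_lit 110514882)) (xR T3.l4 T3.l4)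
  (TrL.c (I.mix (nat_lit 8088324) (nat_lit 89478486)) T1.l3
  TrL.n)))))))) (by decide +kernel)
theorem bx4_1 : BoxOK sI cl13 cl6 cl7 t1 t3 b4_1 :=
  box_mk (TrL.c (I.pos (nat_lit 0) (nat_lit 0)) T1.l4
  (TrL.c (I.pos (nat_lit 0) (nat_lit 0)) T3.l1
  (TrL.c (I.pos (nat_lit 0) (nat_lit 134217730)) (xR T1.l1 T1.l1)
  (TrL.c (I.pos (nat_lit 0) (nat_lit 110514882)) (xR T3.l2 T3.l2)
  (TrL.c (I.pos (nat_lit 0) (nat_lit 0)) (xa T3.l5 T3.l5)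
  (TrL.c (I.pos (nat_lit 0) (nat_lit 0)) T1.l2
  (TrL.c (I.mix (nat_lit 8088324) (nat_lit 110514882)) T3.l4
  (TrL.c (I.mix (nat_lit 8088324) (nat_lit 89478486)) T1.l3
  TrL.n)))))))) (by decide +kernel)
theorem bx4_2 : BoxOK sI cl13 cl6 cl7 t1 t3 b4_2 :=
  box_mk (TrL.c (I.pos (nat_lit 0) (nat_lit 0)) T1.l4
  (TrL.c (I.pos (nat_lit 0) (nat_lit 0)) T3.l1
  (TrL.c (I.pos (nat_lit 0) (nat_lit 134217730)) T1.l1
  (TrL.c (I.pos (nat_lit 0) (nat_lit 110514882)) T3.l4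
  (TrL.c (I.pos (nat_lit 0) (nat_lit 0)) T3.l5
  (TrL.c (I.pos (nat_lit 0) (nat_lit 0)) T1.l2
  (TrL.c (I.mix (nat_lit 8088324) (nat_lit 110514882)) T3.l4
  (TrL.c (I.mix (nat_lit 8088324) (nat_lit 89478486)) T1.l6
  TrL.n)))))))) (by decide +kernel)
theorem bx4_3 : BoxOK sI cl13 cl6 cl7 t1 t3 b4_3 :=
  box_mk (TrL.c (I.pos (nat_lit 0) (nat_lit 0)) (xb T1.l11 T1.l11)
  (TrL.c (I.pos (nat_lit 0) (nat_lit 0)) (xk T3.l1 T3.l1)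
  (TrL.c (I.pos (nat_lit 0) (nat_lit 134217730)) (xR T1.l1 T1.l1)
  (TrL.c (I.pos (nat_lit 0) (nat_lit 110514882)) (xR T3.l2 T3.l2)
  (TrL.c (I.pos (nat_lit 0) (nat_lit 0)) (xk (xb T3.l11 T3.l11) T3.l11)
  (TrL.c (I.pos (nat_lit 0) (nat_lit 0)) T1.l2
  (TrL.c (I.mix (nat_lit 8088324) (nat_lit 110514882)) (xR T3.l4 T3.l4)
  (TrL.c (I.mix (nat_lit 8088324) (nat_lit 89478486)) T1.l3
  TrL.n)))))))) (by decide +kernel)
theorem bx4_4 : BoxOK sI cl13 cl6 cl7 t1 t3 b4_4 :=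
  box_mk (TrL.c (I.pos (nat_lit 0) (nat_lit 0)) (xa (xa T1.l4 T1.l4) T1.l4)
  (TrL.c (I.pos (nat_lit 0) (nat_lit 0)) (xa T3.l5 T3.l1)
  (TrL.c (I.pos (nat_lit 0) (nat_lit 134217730)) (xR T1.l1 T1.l1)
  (TrL.c (I.pos (nat_lit 0) (nat_lit 110514882)) (xR T3.l2 T3.l2)
  (TrL.c (I.pos (nat_lit 0) (nat_lit 0)) (xa T3.l1 T3.l5)
  (TrL.c (I.pos (nat_lit 0) (nat_lit 0)) T1.l2
  (TrL.c (I.mix (nat_lit 8088324) (nat_lit 110514882)) (xR T3.l4 T3.l4)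
  (TrL.c (I.mix (nat_lit 8088324) (nat_lit 89478486)) T1.l6
  TrL.n)))))))) (by decide +kernel)
theorem bx4_5 : BoxOK sI cl13 cl6 cl7 t1 t3 b4_5 :=
  box_mk (TrL.c (I.pos (nat_lit 0) (nat_lit 0)) (xa (xa T1.l4 T1.l4) T1.l4)
  (TrL.c (I.pos (nat_lit 0) (nat_lit 0)) (xa T3.l1 T3.l1)
  (TrL.c (I.pos (nat_lit 0) (nat_lit 134217730)) (xR T1.l1 T1.l1)
  (TrL.c (I.pos (nat_lit 0) (nat_lit 110514882)) T3.l2
  (TrL.c (I.pos (nat_lit 0) (nat_lit 0)) (xa T3.l5 T3.l5)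
  (TrL.c (I.pos (nat_lit 0) (nat_lit 0)) T1.l2
  (TrL.c (I.mix (nat_lit 8088324) (nat_lit 110514882)) T3.l4
  (TrL.c (I.mix (nat_lit 8088324) (nat_lit 89478486)) T1.l6
  TrL.n)))))))) (by decide +kernel)
theorem bx4_6 : BoxOK sI cl13 cl6 cl7 t1 t3 b4_6 :=
  box_mk (TrL.c (I.pos (nat_lit 0) (nat_lit 0)) T1.l4
  (TrL.c (I.pos (nat_lit 0) (nat_lit 0)) T3.l1
  (TrL.c (I.pos (nat_lit 0) (nat_lit 134217730)) (xR T1.l1 T1.l1)
  (TrL.c (I.pos (nat_lit 0) (nat_lit 110514882)) (xR T3.l2 T3.l2)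
  (TrL.c (I.pos (nat_lit 0) (nat_lit 0)) T3.l5
  (TrL.c (I.pos (nat_lit 0) (nat_lit 0)) T1.l2
  (TrL.c (I.mix (nat_lit 8088324) (nat_lit 110514882)) T3.l4
  (TrL.c (I.mix (nat_lit 8088324) (nat_lit 89478486)) T1.l3
  TrL.n)))))))) (by decide +kernel)
theorem bx4_7 : BoxOK sI cl13 cl6 cl7 t1 t3 b4_7 :=
  box_mk (TrL.c (I.pos (nat_lit 0) (nat_lit 0)) (xa T1.l4 T1.l4)
  (TrL.c (I.pos (nat_lit 0) (nat_lit 0)) T3.l5
  (TrL.c (I.pos (nat_lit 0) (nat_lit 134217730)) T1.l1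
  (TrL.c (I.pos (nat_lit 0) (nat_lit 110514882)) T3.l4
  (TrL.c (I.pos (nat_lit 0) (nat_lit 0)) T3.l1
  (TrL.c (I.pos (nat_lit 0) (nat_lit 0)) T1.l1
  (TrL.c (I.mix (nat_lit 8088324) (nat_lit 110514882)) T3.l4
  (TrL.c (I.mix (nat_lit 8088324) (nat_lit 89478486)) T1.l6
  TrL.n)))))))) (by decide +kernel)
theorem bx4_8 : BoxOK sI cl13 cl6 cl7 t1 t3 b4_8 :=
  box_mk (TrL.c (I.pos (nat_lit 0) (nat_lit 0)) T1.l11
  (TrL.c (I.pos (nat_lit 0) (nat_lit 0)) T3.l1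
  (TrL.c (I.pos (nat_lit 0) (nat_lit 134217730)) (xR T1.l1 T1.l1)
  (TrL.c (I.pos (nat_lit 0) (nat_lit 110514882)) (xR T3.l2 T3.l2)
  (TrL.c (I.pos (nat_lit 0) (nat_lit 0)) (xk T3.l11 T3.l11)
  (TrL.c (I.pos (nat_lit 0) (nat_lit 0)) T1.l2
  (TrL.c (I.mix (nat_lit 8088324) (nat_lit 110514882)) T3.l4
  (TrL.c (I.mix (nat_lit 8088324) (nat_lit 89478486)) T1.l3
  TrL.n)))))))) (by decide +kernel)
theorem bx4_9 : BoxOK sI cl13 cl6 cl7 t1 t3 b4_9 :=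
  box_mk (TrL.c (I.pos (nat_lit 0) (nat_lit 0)) (xa T1.l0 T1.l0)
  (TrL.c (I.pos (nat_lit 0) (nat_lit 0)) (xa (xb T3.l1 T3.l1) (xk (xb T3.l1 T3.l1) T3.l1))
  (TrL.c (I.pos (nat_lit 0) (nat_lit 134217730)) (xR T1.l8 T1.l8)
  (TrL.c (I.pos (nat_lit 0) (nat_lit 110514882)) (xR T3.l2 T3.l2)
  (TrL.c (I.pos (nat_lit 0) (nat_lit 0)) (xa (xk (xb (xa T3.l3 T3.l3) T3.l3) (xb (xa T3.l3 T3.l3) T3.l3)) (xk (xb (xa T3.l0 (xk T3.l3 T3.l3)) (xa T3.l3 (xk T3.l3 T3.l3))) (xb (xa T3.l3 (xb T3.l0 T3.l3)) (xa T3.l3 (xk T3.l3 T3.l3)))))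
  (TrL.c (I.pos (nat_lit 0) (nat_lit 0)) (xk (xa T1.l2 T1.l2) T1.l2)
  (TrL.c (I.mix (nat_lit 8088324) (nat_lit 110514882)) (xR T3.l4 (xR T3.l4 T3.l4))
  (TrL.c (I.mix (nat_lit 8088324) (nat_lit 89478486)) T1.l6
  TrL.n)))))))) (by decide +kernel)
theorem bx4_10 : BoxOK sI cl13 cl6 cl7 t1 t3 b4_10 :=
  box_mk (TrL.c (I.pos (nat_lit 0) (nat_lit 0)) T1.l0
  (TrL.c (I.pos (nat_lit 0) (nat_lit 0)) (xk T3.l1 T3.l1)
  (TrL.c (I.pos (nat_lit 0) (nat_lit 134217730)) (xR T1.l1 T1.l1)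
  (TrL.c (I.pos (nat_lit 0) (nat_lit 110514882)) (xR T3.l2 T3.l2)
  (TrL.c (I.pos (nat_lit 0) (nat_lit 0)) (xk T3.l3 T3.l3)
  (TrL.c (I.pos (nat_lit 0) (nat_lit 0)) T1.l2
  (TrL.c (I.mix (nat_lit 8088324) (nat_lit 110514882)) (xR T3.l4 T3.l4)
  (TrL.c (I.mix (nat_lit 8088324) (nat_lit 89478486)) T1.l3
  TrL.n)))))))) (by decide +kernel)
theorem bx4_11 : BoxOK sI cl13 cl6 cl7 t1 t3 b4_11 :=
  box_mk (TrL.c (I.pos (nat_lit 0) (nat_lit 0)) T1.l11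
  (TrL.c (I.pos (nat_lit 0) (nat_lit 0)) T3.l1
  (TrL.c (I.pos (nat_lit 0) (nat_lit 134217730)) (xR T1.l1 T1.l1)
  (TrL.c (I.pos (nat_lit 0) (nat_lit 110514882)) (xR T3.l2 T3.l2)
  (TrL.c (I.pos (nat_lit 0) (nat_lit 0)) (xk T3.l11 T3.l11)
  (TrL.c (I.pos (nat_lit 0) (nat_lit 0)) T1.l2
  (TrL.c (I.mix (nat_lit 8088324) (nat_lit 110514882)) (xR T3.l4 T3.l4)
  (TrL.c (I.mix (nat_lit 8088324) (nat_lit 89478486)) T1.l3
  TrL.n)))))))) (by decide +kernel)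
theorem sv4 : StarV sI cl13 cl6 cl7 t1 t3 t4 :=
  (bt_n (bt_n (bt_n (bt_b bx4_0) (bt_n (bt_b bx4_1) (bt_b bx4_2))) (bt_n (bt_b bx4_3) (bt_n (bt_b bx4_4) (bt_b bx4_5)))) (bt_n (bt_n (bt_b bx4_6) (bt_n (bt_b bx4_7) (bt_b bx4_8))) (bt_n (bt_b bx4_9) (bt_n (bt_b bx4_10) (bt_b bx4_11)))))
def S4 : StarD := StarD.mk cl13 cl6 cl7 1 3 t4
theorem bx5_0 : BoxOK sI cl13 cl7 cl6 t3 t1 b5_0 :=
  box_mk (TrL.c (I.pos (nat_lit 0) (nat_lit 0)) (xa (xb T3.l0 T3.l0) (xb T3.l0 (xa T3.l0 T3.l0)))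
  (TrL.c (I.pos (nat_lit 0) (nat_lit 0)) (xa (xk T1.l5 T1.l5) (xk T1.l5 T1.l5))
  (TrL.c (I.pos (nat_lit 0) (nat_lit 134217730)) (xR T3.l4 T3.l6)
  (TrL.c (I.pos (nat_lit 0) (nat_lit 110514882)) (xR T1.l6 T1.l6)
  (TrL.c (I.pos (nat_lit 0) (nat_lit 0)) (xa (xk T1.l7 T1.l7) (xk (xb T1.l7 T1.l7) (xb T1.l7 T1.l7)))
  (TrL.c (I.pos (nat_lit 0) (nat_lit 0)) T3.l7
  (TrL.c (I.mix (nat_lit 8088324) (nat_lit 110514882)) (xR T1.l8 T1.l8)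
  (TrL.c (I.mix (nat_lit 8088324) (nat_lit 89478486)) T3.l8
  TrL.n)))))))) (by decide +kernel)
theorem bx5_1 : BoxOK sI cl13 cl7 cl6 t3 t1 b5_1 :=
  box_mk (TrL.c (I.pos (nat_lit 0) (nat_lit 0)) T3.l9
  (TrL.c (I.pos (nat_lit 0) (nat_lit 0)) T1.l5
  (TrL.c (I.pos (nat_lit 0) (nat_lit 134217730)) (xR T3.l4 T3.l6)
  (TrL.c (I.pos (nat_lit 0) (nat_lit 110514882)) (xR T1.l6 T1.l6)
  (TrL.c (I.pos (nat_lit 0) (nat_lit 0)) (xa T1.l9 (xk T1.l9 T1.l9))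
  (TrL.c (I.pos (nat_lit 0) (nat_lit 0)) T3.l7
  (TrL.c (I.mix (nat_lit 8088324) (nat_lit 110514882)) T1.l8
  (TrL.c (I.mix (nat_lit 8088324) (nat_lit 89478486)) T3.l8
  TrL.n)))))))) (by decide +kernel)
theorem bx5_2 : BoxOK sI cl13 cl7 cl6 t3 t1 b5_2 :=
  box_mk (TrL.c (I.pos (nat_lit 0) (nat_lit 0)) (xa (xa T3.l9 T3.l9) T3.l9)
  (TrL.c (I.pos (nat_lit 0) (nat_lit 0)) (xa T1.l9 T1.l5)
  (TrL.c (I.pos (nat_lit 0) (nat_lit 134217730)) (xR T3.l2 T3.l6)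
  (TrL.c (I.pos (nat_lit 0) (nat_lit 110514882)) (xR T1.l6 T1.l6)
  (TrL.c (I.pos (nat_lit 0) (nat_lit 0)) (xa T1.l5 T1.l9)
  (TrL.c (I.pos (nat_lit 0) (nat_lit 0)) T3.l7
  (TrL.c (I.mix (nat_lit 8088324) (nat_lit 110514882)) T1.l8
  (TrL.c (I.mix (nat_lit 8088324) (nat_lit 89478486)) T3.l8
  TrL.n)))))))) (by decide +kernel)
theorem bx5_3 : BoxOK sI cl13 cl7 cl6 t3 t1 b5_3 :=
  box_mk (TrL.c (I.pos (nat_lit 0) (nat_lit 0)) (xb T3.l10 T3.l10)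
  (TrL.c (I.pos (nat_lit 0) (nat_lit 0)) (xk T1.l5 T1.l5)
  (TrL.c (I.pos (nat_lit 0) (nat_lit 134217730)) (xR T3.l4 T3.l6)
  (TrL.c (I.pos (nat_lit 0) (nat_lit 110514882)) (xR T1.l6 T1.l6)
  (TrL.c (I.pos (nat_lit 0) (nat_lit 0)) (xk (xb T1.l7 T1.l7) (xb T1.l7 T1.l7))
  (TrL.c (I.pos (nat_lit 0) (nat_lit 0)) T3.l7
  (TrL.c (I.mix (nat_lit 8088324) (nat_lit 110514882)) (xR T1.l8 T1.l8)
  (TrL.c (I.mix (nat_lit 8088324) (nat_lit 89478486)) T3.l8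
  TrL.n)))))))) (by decide +kernel)
theorem bx5_4 : BoxOK sI cl13 cl7 cl6 t3 t1 b5_4 :=
  box_mk (TrL.c (I.pos (nat_lit 0) (nat_lit 0)) (xa (xa (xb T3.l9 T3.l9) T3.l9) (xa T3.l9 T3.l9))
  (TrL.c (I.pos (nat_lit 0) (nat_lit 0)) (xa T1.l5 T1.l5)
  (TrL.c (I.pos (nat_lit 0) (nat_lit 134217730)) (xR T3.l4 T3.l6)
  (TrL.c (I.pos (nat_lit 0) (nat_lit 110514882)) (xR T1.l6 T1.l6)
  (TrL.c (I.pos (nat_lit 0) (nat_lit 0)) (xa T1.l9 T1.l9)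
  (TrL.c (I.pos (nat_lit 0) (nat_lit 0)) T3.l7
  (TrL.c (I.mix (nat_lit 8088324) (nat_lit 110514882)) (xR T1.l8 T1.l8)
  (TrL.c (I.mix (nat_lit 8088324) (nat_lit 89478486)) T3.l4
  TrL.n)))))))) (by decide +kernel)
theorem bx5_5 : BoxOK sI cl13 cl7 cl6 t3 t1 b5_5 :=
  box_mk (TrL.c (I.pos (nat_lit 0) (nat_lit 0)) T3.l0
  (TrL.c (I.pos (nat_lit 0) (nat_lit 0)) T1.l5
  (TrL.c (I.pos (nat_lit 0) (nat_lit 134217730)) (xR T3.l4 T3.l6)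
  (TrL.c (I.pos (nat_lit 0) (nat_lit 110514882)) (xR T1.l6 T1.l6)
  (TrL.c (I.pos (nat_lit 0) (nat_lit 0)) (xk (xa T1.l10 T1.l10) (xa T1.l10 T1.l10))
  (TrL.c (I.pos (nat_lit 0) (nat_lit 0)) T3.l7
  (TrL.c (I.mix (nat_lit 8088324) (nat_lit 110514882)) T1.l8
  (TrL.c (I.mix (nat_lit 8088324) (nat_lit 89478486)) T3.l8
  TrL.n)))))))) (by decide +kernel)
theorem bx5_6 : BoxOK sI cl13 cl7 cl6 t3 t1 b5_6 :=
  box_mk (TrL.c (I.pos (nat_lit 0) (nat_lit 0)) (xa (xa T3.l9 T3.l9) (xa T3.l9 T3.l9))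
  (TrL.c (I.pos (nat_lit 0) (nat_lit 0)) (xa T1.l5 T1.l5)
  (TrL.c (I.pos (nat_lit 0) (nat_lit 134217730)) (xR T3.l4 T3.l6)
  (TrL.c (I.pos (nat_lit 0) (nat_lit 110514882)) T1.l6
  (TrL.c (I.pos (nat_lit 0) (nat_lit 0)) (xa T1.l9 T1.l9)
  (TrL.c (I.pos (nat_lit 0) (nat_lit 0)) T3.l7
  (TrL.c (I.mix (nat_lit 8088324) (nat_lit 110514882)) T1.l8
  (TrL.c (I.mix (nat_lit 8088324) (nat_lit 89478486)) T3.l4
  TrL.n)))))))) (by decide +kernel)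
theorem bx5_7 : BoxOK sI cl13 cl7 cl6 t3 t1 b5_7 :=
  box_mk (TrL.c (I.pos (nat_lit 0) (nat_lit 0)) T3.l9
  (TrL.c (I.pos (nat_lit 0) (nat_lit 0)) T1.l5
  (TrL.c (I.pos (nat_lit 0) (nat_lit 134217730)) (xR T3.l4 T3.l6)
  (TrL.c (I.pos (nat_lit 0) (nat_lit 110514882)) (xR T1.l6 T1.l6)
  (TrL.c (I.pos (nat_lit 0) (nat_lit 0)) (xb T1.l9 T1.l9)
  (TrL.c (I.pos (nat_lit 0) (nat_lit 0)) T3.l7
  (TrL.c (I.mix (nat_lit 8088324) (nat_lit 110514882)) T1.l8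
  (TrL.c (I.mix (nat_lit 8088324) (nat_lit 89478486)) T3.l8
  TrL.n)))))))) (by decide +kernel)
theorem bx5_8 : BoxOK sI cl13 cl7 cl6 t3 t1 b5_8 :=
  box_mk (TrL.c (I.pos (nat_lit 0) (nat_lit 0)) (xa T3.l9 T3.l9)
  (TrL.c (I.pos (nat_lit 0) (nat_lit 0)) T1.l5
  (TrL.c (I.pos (nat_lit 0) (nat_lit 134217730)) (xR T3.l2 T3.l6)
  (TrL.c (I.pos (nat_lit 0) (nat_lit 110514882)) T1.l8
  (TrL.c (I.pos (nat_lit 0) (nat_lit 0)) (xa T1.l9 T1.l9)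
  (TrL.c (I.pos (nat_lit 0) (nat_lit 0)) T3.l7
  (TrL.c (I.mix (nat_lit 8088324) (nat_lit 110514882)) T1.l8
  (TrL.c (I.mix (nat_lit 8088324) (nat_lit 89478486)) T3.l8
  TrL.n)))))))) (by decide +kernel)
theorem bx5_9 : BoxOK sI cl13 cl7 cl6 t3 t1 b5_9 :=
  box_mk (TrL.c (I.pos (nat_lit 0) (nat_lit 0)) T3.l10
  (TrL.c (I.pos (nat_lit 0) (nat_lit 0)) T1.l5
  (TrL.c (I.pos (nat_lit 0) (nat_lit 134217730)) (xR T3.l4 T3.l6)
  (TrL.c (I.pos (nat_lit 0) (nat_lit 110514882)) (xR T1.l6 T1.l6)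
  (TrL.c (I.pos (nat_lit 0) (nat_lit 0)) (xk T1.l7 T1.l7)
  (TrL.c (I.pos (nat_lit 0) (nat_lit 0)) T3.l7
  (TrL.c (I.mix (nat_lit 8088324) (nat_lit 110514882)) (xR T1.l8 T1.l8)
  (TrL.c (I.mix (nat_lit 8088324) (nat_lit 89478486)) T3.l8
  TrL.n)))))))) (by decide +kernel)
theorem bx5_10 : BoxOK sI cl13 cl7 cl6 t3 t1 b5_10 :=
  box_mk (TrL.c (I.pos (nat_lit 0) (nat_lit 0)) (xa T3.l0 T3.l0)
  (TrL.c (I.pos (nat_lit 0) (nat_lit 0)) (xa (xk T1.l5 T1.l5) (xk (xb T1.l5 T1.l5) (xb T1.l5 T1.l5)))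
  (TrL.c (I.pos (nat_lit 0) (nat_lit 134217730)) (xR T3.l4 T3.l6)
  (TrL.c (I.pos (nat_lit 0) (nat_lit 110514882)) (xR T1.l6 T1.l6)
  (TrL.c (I.pos (nat_lit 0) (nat_lit 0)) (xa (xk (xb T1.l7 T1.l7) (xb T1.l7 T1.l7)) (xk (xb (xa T1.l7 (xk T1.l7 T1.l7)) (xa T1.l7 (xk T1.l7 T1.l7))) (xb (xa T1.l7 (xb T1.l7 T1.l7)) (xa T1.l7 (xk T1.l7 T1.l7)))))
  (TrL.c (I.pos (nat_lit 0) (nat_lit 0)) (xk (xa T3.l7 T3.l7) (xa T3.l7 T3.l7))
  (TrL.c (I.mix (nat_lit 8088324) (nat_lit 110514882)) (xR T1.l8 (xR T1.l8 T1.l8))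
  (TrL.c (I.mix (nat_lit 8088324) (nat_lit 89478486)) T3.l8
  TrL.n)))))))) (by decide +kernel)
theorem bx5_11 : BoxOK sI cl13 cl7 cl6 t3 t1 b5_11 :=
  box_mk (TrL.c (I.pos (nat_lit 0) (nat_lit 0)) (xa T3.l0 T3.l0)
  (TrL.c (I.pos (nat_lit 0) (nat_lit 0)) (xk T1.l5 T1.l5)
  (TrL.c (I.pos (nat_lit 0) (nat_lit 134217730)) (xR T3.l4 T3.l6)
  (TrL.c (I.pos (nat_lit 0) (nat_lit 110514882)) (xR T1.l6 T1.l6)
  (TrL.c (I.pos (nat_lit 0) (nat_lit 0)) (xk (xa T1.l7 T1.l7) (xa T1.l7 T1.l7))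
  (TrL.c (I.pos (nat_lit 0) (nat_lit 0)) T3.l7
  (TrL.c (I.mix (nat_lit 8088324) (nat_lit 110514882)) (xR T1.l8 T1.l8)
  (TrL.c (I.mix (nat_lit 8088324) (nat_lit 89478486)) T3.l8
  TrL.n)))))))) (by decide +kernel)
theorem sv5 : StarV sI cl13 cl7 cl6 t3 t1 t5 :=
  (bt_n (bt_n (bt_n (bt_b bx5_0) (bt_n (bt_b bx5_1) (bt_b bx5_2))) (bt_n (bt_b bx5_3) (bt_n (bt_b bx5_4) (bt_b bx5_5)))) (bt_n (bt_n (bt_b bx5_6) (bt_n (bt_b bx5_7) (bt_b bx5_8))) (bt_n (bt_b bx5_9) (bt_n (bt_b bx5_10) (bt_b bx5_11)))))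
def S5 : StarD := StarD.mk cl13 cl7 cl6 3 1 t5
def G : List StarD := [S0, S1, S2, S3, S4, S5]
theorem so0 : StarOK sI G S0 :=
  star_mk (by decide) (by decide) rfl rfl rfl rfl rfl rfl (rfl : _ = t2) (rfl : _ = t4)
  (st_mk (Pth.l (Pth.l (Pth.l Pth.z))) (nat_lit 141997209) (nat_lit 164460576) (by decide +kernel))
  (st_mk (Pth.l (Pth.l (Pth.l Pth.z))) (nat_lit 178014939) (nat_lit 200791823) (by decide +kernel))
  (st_mk (Pth.l (Pth.l (Pth.l Pth.z))) (nat_lit 219895982) (nat_lit 243092458) (by decide +kernel)) sv0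
theorem so1 : StarOK sI G S1 :=
  star_mk (by decide) (by decide) rfl rfl rfl rfl rfl rfl (rfl : _ = t4) (rfl : _ = t2)
  (st_mk (Pth.l (Pth.l (Pth.l Pth.z))) (nat_lit 96913855) (nat_lit 115557892) (by decide +kernel))
  (st_mk (Pth.l (Pth.l (Pth.l Pth.z))) (nat_lit 132749918) (nat_lit 151690310) (by decide +kernel))
  (st_mk (Pth.l (Pth.l (Pth.l Pth.z))) (nat_lit 174475942) (nat_lit 193821139) (by decide +kernel)) sv1
theorem so2 : StarOK sI G S2 :=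
  star_mk (by decide) (by decide) rfl rfl rfl rfl rfl rfl (rfl : _ = t0) (rfl : _ = t5)
  (st_mk (Pth.l (Pth.l (Pth.l Pth.z))) (nat_lit 187580083) (nat_lit 189106872) (by decide +kernel))
  (st_mk (Pth.l (Pth.l (Pth.l Pth.z))) (nat_lit 223197869) (nat_lit 225141803) (by decide +kernel))
  (st_mk (Pth.l (Pth.l (Pth.l Pth.z))) (nat_lit 264454669) (nat_lit 266977434) (by decide +kernel)) sv2
theorem so3 : StarOK sI G S3 :=
  star_mk (by decide) (by decide) rfl rfl rfl rfl rfl rfl (rfl : _ = t5) (rfl : _ = t0)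
  (st_mk (Pth.l (Pth.l (Pth.l Pth.z))) (nat_lit 96459487) (nat_lit 115131386) (by decide +kernel))
  (st_mk (Pth.l (Pth.l (Pth.l Pth.z))) (nat_lit 131897098) (nat_lit 150947623) (by decide +kernel))
  (st_mk (Pth.l (Pth.l (Pth.l Pth.z))) (nat_lit 172998725) (nat_lit 192595526) (by decide +kernel)) sv3
theorem so4 : StarOK sI G S4 :=
  star_mk (by decide) (by decide) rfl rfl rfl rfl rfl rfl (rfl : _ = t1) (rfl : _ = t3)
  (st_mk (Pth.l (Pth.l (Pth.l Pth.z))) (nat_lit 185843017) (nat_lit 187209748) (by decide +kernel))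
  (st_mk (Pth.l (Pth.l (Pth.l Pth.z))) (nat_lit 220739626) (nat_lit 222446984) (by decide +kernel))
  (st_mk (Pth.l (Pth.l (Pth.l Pth.z))) (nat_lit 261004945) (nat_lit 263179162) (by decide +kernel)) sv4
theorem so5 : StarOK sI G S5 :=
  star_mk (by decide) (by decide) rfl rfl rfl rfl rfl rfl (rfl : _ = t3) (rfl : _ = t1)
  (st_mk (Pth.l (Pth.l (Pth.l Pth.z))) (nat_lit 141873768) (nat_lit 160361678) (by decide +kernel))
  (st_mk (Pth.l (Pth.l (Pth.l Pth.z))) (nat_lit 174891329) (nat_lit 197456802) (by decide +kernel))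
  (st_mk (Pth.l (Pth.l (Pth.l Pth.z))) (nat_lit 215156648) (nat_lit 238170606) (by decide +kernel)) sv5
theorem ok : GroupOK (nat_lit 150274048) (nat_lit 209387520) G := grp_mk (allS_c so0 (allS_c so1 (allS_c so2 (allS_c so3 (allS_c so4 (allS_c so5 allS_n))))))
theorem cov : GCov G cl6 cl7 cl13 := cov_mk
  ⟨0, by decide, rfl, rfl, rfl⟩ ⟨1, by decide, rfl, rfl, rfl⟩ ⟨2, by decide, rfl, rfl, rfl⟩ ⟨3, by decide, rfl, rfl, rfl⟩ ⟨4, by decide, rfl, rfl, rfl⟩ ⟨5, by decide, rfl, rfl, rfl⟩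
end Q346_2

namespace Q346_3
def sI : I := I.pos (nat_lit 209321984) (nat_lit 268435456)
def b0_0 : Bx := Bx.mk (St.mk (I.pos (nat_lit 156467200) (nat_lit 233390080)) (I.mix (nat_lit 3325952) (nat_lit 55672832)) (I.mix (nat_lit 4505600) (nat_lit 77938688)) (I.pos (nat_lit 136937472) (nat_lit 272089088)) (I.mix (nat_lit 110116864) (nat_lit 62799872)) (I.mix (nat_lit 69713920) (nat_lit 56852480)) (I.mix (nat_lit 84967424) (nat_lit 80789504)))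
  false (nat_lit 57884675)
def b0_1 : Bx := Bx.mk (St.mk (I.mix (nat_lit 26951680) (nat_lit 127975424)) (I.mix (nat_lit 11632640) (nat_lit 33570816)) (I.mix (nat_lit 23691264) (nat_lit 15417344)) (I.pos (nat_lit 37306368) (nat_lit 120717312)) (I.mix (nat_lit 36814848) (nat_lit 39469056)) (I.mix (nat_lit 29278208) (nat_lit 27934720)) (I.mix (nat_lit 21413888) (nat_lit 17416192)))
  false (nat_lit 0)
def b0_2 : Bx := Bx.mk (St.mk (I.pos (nat_lit 88326144) (nat_lit 136134656)) (I.mix (nat_lit 49577984) (nat_lit 11272192)) (I.neg (nat_lit 589824) (nat_lit 55279616)) (I.pos (nat_lit 74366976) (nat_lit 130957312)) (I.mix (nat_lit 83181568) (nat_lit 27901952)) (I.mix (nat_lit 30982144) (nat_lit 65601536)) (I.mix (nat_lit 20283392) (nat_lit 49971200)))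
  false (nat_lit 5984455)
def b0_3 : Bx := Bx.mk (St.mk (I.mix (nat_lit 41107456) (nat_lit 72138752)) (I.mix (nat_lit 30703616) (nat_lit 7421952)) (I.mix (nat_lit 21790720) (nat_lit 278528)) (I.pos (nat_lit 40108032) (nat_lit 82984960)) (I.mix (nat_lit 37306368) (nat_lit 15974400)) (I.mix (nat_lit 15613952) (nat_lit 25542656)) (I.mix (nat_lit 7602176) (nat_lit 10272768)))
  false (nat_lit 0)
def b0_4 : Bx := Bx.mk (St.mk (I.pos (nat_lit 197066752) (nat_lit 285491200)) (I.mix (nat_lit 27049984) (nat_lit 38027264)) (I.mix (nat_lit 95879168) (nat_lit 42942464)) (I.pos (nat_lit 215023616) (nat_lit 374980608)) (I.mix (nat_lit 71499776) (nat_lit 49840128)) (I.mix (nat_lit 50446336) (nat_lit 45481984)) (I.mix (nat_lit 89538560) (nat_lit 82411520)))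
  false (nat_lit 41166215)
def b0_5 : Bx := Bx.mk (St.mk (I.pos (nat_lit 91406336) (nat_lit 174047232)) (I.neg (nat_lit 6799360) (nat_lit 50839552)) (I.neg (nat_lit 6455296) (nat_lit 55443456)) (I.pos (nat_lit 88899584) (nat_lit 175833088)) (I.mix (nat_lit 84606976) (nat_lit 44957696)) (I.mix (nat_lit 41107456) (nat_lit 56410112)) (I.mix (nat_lit 32030720) (nat_lit 54099968)))
  false (nat_lit 27086246)
def b0_6 : Bx := Bx.mk (St.mk (I.mix (nat_lit 33865728) (nat_lit 87261184)) (I.mix (nat_lit 31719424) (nat_lit 5881856)) (I.mix (nat_lit 23674880) (nat_lit 393216)) (I.pos (nat_lit 37814272) (nat_lit 91602944)) (I.mix (nat_lit 42467328) (nat_lit 35536896)) (I.mix (nat_lit 26378240) (nat_lit 35635200)) (I.mix (nat_lit 14581760) (nat_lit 19529728)))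
  false (nat_lit 15281996)
def b0_7 : Bx := Bx.mk (St.mk (I.pos (nat_lit 164052992) (nat_lit 217169920)) (I.mix (nat_lit 8912896) (nat_lit 61063168)) (I.mix (nat_lit 3129344) (nat_lit 83886080)) (I.pos (nat_lit 157794304) (nat_lit 245006336)) (I.mix (nat_lit 144900096) (nat_lit 58621952)) (I.mix (nat_lit 111165440) (nat_lit 71729152)) (I.mix (nat_lit 111067136) (nat_lit 68141056)))
  false (nat_lit 24758274)
def b0_8 : Bx := Bx.mk (St.mk (I.mix (nat_lit 40648704) (nat_lit 114720768)) (I.mix (nat_lit 14204928) (nat_lit 34406400)) (I.mix (nat_lit 15122432) (nat_lit 17514496)) (I.pos (nat_lit 37961728) (nat_lit 109936640)) (I.mix (nat_lit 56262656) (nat_lit 37142528)) (I.mix (nat_lit 48447488) (nat_lit 34013184)) (I.mix (nat_lit 26148864) (nat_lit 19480576)))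
  false (nat_lit 14371665)
def b0_9 : Bx := Bx.mk (St.mk (I.pos (nat_lit 185253888) (nat_lit 233832448)) (I.pos (nat_lit 10043392) (nat_lit 53788672)) (I.pos (nat_lit 2375680) (nat_lit 74416128)) (I.pos (nat_lit 207159296) (nat_lit 268533760)) (I.mix (nat_lit 86081536) (nat_lit 63619072)) (I.mix (nat_lit 62816256) (nat_lit 49971200)) (I.mix (nat_lit 98713600) (nat_lit 65667072)))
  false (nat_lit 49461534)
def b0_10 : Bx := Bx.mk (St.mk (I.pos (nat_lit 144015360) (nat_lit 209977344)) (I.mix (nat_lit 35012608) (nat_lit 19070976)) (I.mix (nat_lit 41975808) (nat_lit 26689536)) (I.pos (nat_lit 125599744) (nat_lit 226492416)) (I.mix (nat_lit 54394880) (nat_lit 46317568)) (I.mix (nat_lit 50610176) (nat_lit 49102848)) (I.mix (nat_lit 51855360) (nat_lit 50790400)))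
  false (nat_lit 23862837)
def b0_11 : Bx := Bx.mk (St.mk (I.pos (nat_lit 167264256) (nat_lit 208257024)) (I.mix (nat_lit 13844480) (nat_lit 32145408)) (I.mix (nat_lit 12386304) (nat_lit 46186496)) (I.pos (nat_lit 162267136) (nat_lit 224673792)) (I.mix (nat_lit 108068864) (nat_lit 61865984)) (I.mix (nat_lit 107888640) (nat_lit 56655872)) (I.mix (nat_lit 114589696) (nat_lit 56328192)))
  false (nat_lit 22120774)
def t0 : BTr := (BTr.n (BTr.n (BTr.n (BTr.b b0_0) (BTr.n (BTr.b b0_1) (BTr.b b0_2))) (BTr.n (BTr.b b0_3) (BTr.n (BTr.b b0_4) (BTr.b b0_5)))) (BTr.n (BTr.n (BTr.b b0_6) (BTr.n (BTr.b b0_7) (BTr.b b0_8))) (BTr.n (BTr.b b0_9) (BTr.n (BTr.b b0_10) (BTr.b b0_11)))))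
namespace T0
def l0 : Tr := Tr.L (Pth.l (Pth.l (Pth.l Pth.z)))
def l1 : Tr := Tr.L (Pth.l (Pth.l (Pth.r (Pth.l Pth.z))))
def l2 : Tr := Tr.L (Pth.l (Pth.l (Pth.r (Pth.r Pth.z))))
def l3 : Tr := Tr.L (Pth.l (Pth.r (Pth.l Pth.z)))
def l4 : Tr := Tr.L (Pth.l (Pth.r (Pth.r (Pth.l Pth.z))))
def l5 : Tr := Tr.L (Pth.l (Pth.r (Pth.r (Pth.r Pth.z))))
def l6 : Tr := Tr.L (Pth.r (Pth.l (Pth.l Pth.z)))
def l7 : Tr := Tr.L (Pth.r (Pth.l (Pth.r (Pth.l Pth.z))))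
def l8 : Tr := Tr.L (Pth.r (Pth.l (Pth.r (Pth.r Pth.z))))
def l9 : Tr := Tr.L (Pth.r (Pth.r (Pth.l Pth.z)))
def l10 : Tr := Tr.L (Pth.r (Pth.r (Pth.r (Pth.l Pth.z))))
def l11 : Tr := Tr.L (Pth.r (Pth.r (Pth.r (Pth.r Pth.z))))
end T0
def b1_0 : Bx := Bx.mk (St.mk (I.pos (nat_lit 156254208) (nat_lit 237060096)) (I.mix (nat_lit 2703360) (nat_lit 46350336)) (I.mix (nat_lit 4554752) (nat_lit 79986688)) (I.pos (nat_lit 89866240) (nat_lit 224722944)) (I.mix (nat_lit 98910208) (nat_lit 60932096)) (I.mix (nat_lit 63324160) (nat_lit 60801024)) (I.mix (nat_lit 88588288) (nat_lit 78872576)))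
  false (nat_lit 50632539)
def b1_1 : Bx := Bx.mk (St.mk (I.mix (nat_lit 14073856) (nat_lit 149929984)) (I.mix (nat_lit 8798208) (nat_lit 23937024)) (I.mix (nat_lit 12910592) (nat_lit 21069824)) (I.mix (nat_lit 5996544) (nat_lit 96124928)) (I.mix (nat_lit 32833536) (nat_lit 26705920)) (I.mix (nat_lit 22380544) (nat_lit 18497536)) (I.mix (nat_lit 19267584) (nat_lit 15204352)))
  false (nat_lit 0)
def b1_2 : Bx := Bx.mk (St.mk (I.pos (nat_lit 113049600) (nat_lit 155189248)) (I.mix (nat_lit 43401216) (nat_lit 9125888)) (I.mix (nat_lit 46825472) (nat_lit 6766592)) (I.pos (nat_lit 49987584) (nat_lit 106889216)) (I.mix (nat_lit 84279296) (nat_lit 29573120)) (I.mix (nat_lit 29261824) (nat_lit 63258624)) (I.mix (nat_lit 23199744) (nat_lit 55984128)))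
  false (nat_lit 26658410)
def b1_3 : Bx := Bx.mk (St.mk (I.mix (nat_lit 16859136) (nat_lit 112001024)) (I.mix (nat_lit 23658496) (nat_lit 3129344)) (I.mix (nat_lit 18579456) (nat_lit 1605632)) (I.mix (nat_lit 3997696) (nat_lit 60833792)) (I.mix (nat_lit 36126720) (nat_lit 15515648)) (I.mix (nat_lit 15204352) (nat_lit 25018368)) (I.mix (nat_lit 8798208) (nat_lit 15171584)))
  false (nat_lit 0)
def b1_4 : Bx := Bx.mk (St.mk (I.pos (nat_lit 201015296) (nat_lit 285523968)) (I.mix (nat_lit 24199168) (nat_lit 32292864)) (I.mix (nat_lit 62619648) (nat_lit 57065472)) (I.pos (nat_lit 170246144) (nat_lit 331579392)) (I.mix (nat_lit 62767104) (nat_lit 44367872)) (I.mix (nat_lit 48807936) (nat_lit 39583744)) (I.mix (nat_lit 88653824) (nat_lit 64929792)))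
  false (nat_lit 46893662)
def b1_5 : Bx := Bx.mk (St.mk (I.pos (nat_lit 120061952) (nat_lit 189775872)) (I.neg (nat_lit 4308992) (nat_lit 45137920)) (I.neg (nat_lit 704512) (nat_lit 46465024)) (I.pos (nat_lit 66469888) (nat_lit 151994368)) (I.mix (nat_lit 74465280) (nat_lit 46055424)) (I.mix (nat_lit 39731200) (nat_lit 52363264)) (I.mix (nat_lit 34717696) (nat_lit 54837248)))
  false (nat_lit 49759955)
def b1_6 : Bx := Bx.mk (St.mk (I.mix (nat_lit 24444928) (nat_lit 122667008)) (I.mix (nat_lit 25542656) (nat_lit 5701632)) (I.mix (nat_lit 19365888) (nat_lit 2899968)) (I.mix (nat_lit 5259264) (nat_lit 69943296)) (I.mix (nat_lit 36274176) (nat_lit 33112064)) (I.mix (nat_lit 22839296) (nat_lit 30654464)) (I.mix (nat_lit 13991936) (nat_lit 21774336)))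
  false (nat_lit 2252747)
def b1_7 : Bx := Bx.mk (St.mk (I.pos (nat_lit 170524672) (nat_lit 216793088)) (I.mix (nat_lit 12091392) (nat_lit 47300608)) (I.mix (nat_lit 98304) (nat_lit 79773696)) (I.pos (nat_lit 120242176) (nat_lit 195002368)) (I.mix (nat_lit 138477568) (nat_lit 56803328)) (I.mix (nat_lit 111886336) (nat_lit 62373888)) (I.mix (nat_lit 127893504) (nat_lit 63438848)))
  false (nat_lit 0)
def b1_8 : Bx := Bx.mk (St.mk (I.mix (nat_lit 19333120) (nat_lit 141934592)) (I.mix (nat_lit 14548992) (nat_lit 28590080)) (I.mix (nat_lit 12369920) (nat_lit 24035328)) (I.mix (nat_lit 5373952) (nat_lit 85245952)) (I.mix (nat_lit 57409536) (nat_lit 37355520)) (I.mix (nat_lit 51183616) (nat_lit 26820608)) (I.mix (nat_lit 36732928) (nat_lit 18153472)))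
  false (nat_lit 13741570)
def b1_9 : Bx := Bx.mk (St.mk (I.pos (nat_lit 150274048) (nat_lit 215613440)) (I.mix (nat_lit 34783232) (nat_lit 12681216)) (I.mix (nat_lit 36470784) (nat_lit 28721152)) (I.pos (nat_lit 92225536) (nat_lit 186892288)) (I.mix (nat_lit 55181312) (nat_lit 44367872)) (I.mix (nat_lit 46252032) (nat_lit 42926080)) (I.mix (nat_lit 50610176) (nat_lit 47693824)))
  false (nat_lit 56671375)
def b1_10 : Bx := Bx.mk (St.mk (I.pos (nat_lit 173965312) (nat_lit 213057536)) (I.mix (nat_lit 12238848) (nat_lit 23724032)) (I.mix (nat_lit 1441792) (nat_lit 45531136)) (I.pos (nat_lit 120160256) (nat_lit 183255040)) (I.mix (nat_lit 101515264) (nat_lit 59392000)) (I.mix (nat_lit 103563264) (nat_lit 54034432)) (I.mix (nat_lit 118587392) (nat_lit 56803328)))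
  false (nat_lit 9475795)
def b1_11 : Bx := Bx.mk (St.mk (I.pos (nat_lit 190595072) (nat_lit 235241472)) (I.pos (nat_lit 7585792) (nat_lit 43958272)) (I.pos (nat_lit 13533184) (nat_lit 76365824)) (I.pos (nat_lit 164970496) (nat_lit 220413952)) (I.mix (nat_lit 79527936) (nat_lit 59392000)) (I.mix (nat_lit 61079552) (nat_lit 49823744)) (I.mix (nat_lit 96092160) (nat_lit 63111168)))
  false (nat_lit 37141292)
def t1 : BTr := (BTr.n (BTr.n (BTr.n (BTr.b b1_0) (BTr.n (BTr.b b1_1) (BTr.b b1_2))) (BTr.n (BTr.b b1_3) (BTr.n (BTr.b b1_4) (BTr.b b1_5)))) (BTr.n (BTr.n (BTr.b b1_6) (BTr.n (BTr.b b1_7) (BTr.b b1_8))) (BTr.n (BTr.b b1_9) (BTr.n (BTr.b b1_10) (BTr.b b1_11)))))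
namespace T1
def l0 : Tr := Tr.L (Pth.l (Pth.l (Pth.l Pth.z)))
def l1 : Tr := Tr.L (Pth.l (Pth.l (Pth.r (Pth.l Pth.z))))
def l2 : Tr := Tr.L (Pth.l (Pth.l (Pth.r (Pth.r Pth.z))))
def l3 : Tr := Tr.L (Pth.l (Pth.r (Pth.l Pth.z)))
def l4 : Tr := Tr.L (Pth.l (Pth.r (Pth.r (Pth.l Pth.z))))
def l5 : Tr := Tr.L (Pth.l (Pth.r (Pth.r (Pth.r Pth.z))))
def l6 : Tr := Tr.L (Pth.r (Pth.l (Pth.l Pth.z)))
def l7 : Tr := Tr.L (Pth.r (Pth.l (Pth.r (Pth.l Pth.z))))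
def l8 : Tr := Tr.L (Pth.r (Pth.l (Pth.r (Pth.r Pth.z))))
def l9 : Tr := Tr.L (Pth.r (Pth.r (Pth.l Pth.z)))
def l10 : Tr := Tr.L (Pth.r (Pth.r (Pth.r (Pth.l Pth.z))))
def l11 : Tr := Tr.L (Pth.r (Pth.r (Pth.r (Pth.r Pth.z))))
end T1
def b2_0 : Bx := Bx.mk (St.mk (I.pos (nat_lit 154959872) (nat_lit 230621184)) (I.mix (nat_lit 3588096) (nat_lit 59949056)) (I.mix (nat_lit 4915200) (nat_lit 83017728)) (I.pos (nat_lit 181207040) (nat_lit 294862848)) (I.mix (nat_lit 109707264) (nat_lit 68190208)) (I.mix (nat_lit 63160320) (nat_lit 58392576)) (I.mix (nat_lit 88113152) (nat_lit 80920576)))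
  false (nat_lit 101650951)
def b2_1 : Bx := Bx.mk (St.mk (I.mix (nat_lit 36601856) (nat_lit 105955328)) (I.mix (nat_lit 10584064) (nat_lit 37847040)) (I.mix (nat_lit 22331392) (nat_lit 12222464)) (I.pos (nat_lit 79659008) (nat_lit 128073728)) (I.mix (nat_lit 39305216) (nat_lit 51085312)) (I.mix (nat_lit 38404096) (nat_lit 26198016)) (I.mix (nat_lit 24936448) (nat_lit 13647872)))
  false (nat_lit 0)
def b2_2 : Bx := Bx.mk (St.mk (I.pos (nat_lit 74809344) (nat_lit 120471552)) (I.mix (nat_lit 54394880) (nat_lit 11894784)) (I.neg (nat_lit 3522560) (nat_lit 55115776)) (I.pos (nat_lit 108593152) (nat_lit 144900096)) (I.mix (nat_lit 85344256) (nat_lit 30507008)) (I.mix (nat_lit 27623424) (nat_lit 71680000)) (I.mix (nat_lit 19005440) (nat_lit 48709632)))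
  false (nat_lit 0)
def b2_3 : Bx := Bx.mk (St.mk (I.mix (nat_lit 53346304) (nat_lit 32980992)) (I.mix (nat_lit 34324480) (nat_lit 8519680)) (I.mix (nat_lit 15089664) (nat_lit 901120)) (I.pos (nat_lit 81641472) (nat_lit 102219776)) (I.mix (nat_lit 43253760) (nat_lit 23265280)) (I.mix (nat_lit 18366464) (nat_lit 32145408)) (I.mix (nat_lit 11894784) (nat_lit 5963776)))
  false (nat_lit 0)
def b2_4 : Bx := Bx.mk (St.mk (I.pos (nat_lit 84164608) (nat_lit 164659200)) (I.neg (nat_lit 7438336) (nat_lit 55197696)) (I.neg (nat_lit 4669440) (nat_lit 55672832)) (I.pos (nat_lit 119619584) (nat_lit 190545920)) (I.mix (nat_lit 75677696) (nat_lit 48103424)) (I.mix (nat_lit 35454976) (nat_lit 56311808)) (I.mix (nat_lit 26968064) (nat_lit 48545792)))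
  false (nat_lit 0)
def b2_5 : Bx := Bx.mk (St.mk (I.mix (nat_lit 40599552) (nat_lit 50085888)) (I.mix (nat_lit 34553856) (nat_lit 7536640)) (I.mix (nat_lit 17711104) (nat_lit 245760)) (I.pos (nat_lit 80412672) (nat_lit 102957056)) (I.mix (nat_lit 34340864) (nat_lit 34684928)) (I.mix (nat_lit 20168704) (nat_lit 31784960)) (I.mix (nat_lit 8667136) (nat_lit 12156928)))
  false (nat_lit 0)
def b2_6 : Bx := Bx.mk (St.mk (I.pos (nat_lit 159531008) (nat_lit 210042880)) (I.mix (nat_lit 2064384) (nat_lit 59129856)) (I.pos (nat_lit 5079040) (nat_lit 81248256)) (I.pos (nat_lit 193757184) (nat_lit 260554752)) (I.mix (nat_lit 119455744) (nat_lit 38289408)) (I.mix (nat_lit 91045888) (nat_lit 56033280)) (I.mix (nat_lit 85196800) (nat_lit 48840704)))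
  false (nat_lit 85957060)
def b2_7 : Bx := Bx.mk (St.mk (I.mix (nat_lit 52002816) (nat_lit 74547200)) (I.mix (nat_lit 11108352) (nat_lit 34750464)) (I.mix (nat_lit 18219008) (nat_lit 9453568)) (I.pos (nat_lit 80068608) (nat_lit 109068288)) (I.mix (nat_lit 42352640) (nat_lit 31522816)) (I.mix (nat_lit 36225024) (nat_lit 19660800)) (I.mix (nat_lit 13385728) (nat_lit 8323072)))
  false (nat_lit 0)
def b2_8 : Bx := Bx.mk (St.mk (I.pos (nat_lit 197099520) (nat_lit 289357824)) (I.mix (nat_lit 26853376) (nat_lit 43991040)) (I.mix (nat_lit 96190464) (nat_lit 52068352)) (I.pos (nat_lit 250429440) (nat_lit 403439616)) (I.mix (nat_lit 74301440) (nat_lit 68042752)) (I.mix (nat_lit 67960832) (nat_lit 48611328)) (I.mix (nat_lit 118980608) (nat_lit 86130688)))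
  false (nat_lit 120993649)
def b2_9 : Bx := Bx.mk (St.mk (I.pos (nat_lit 138412032) (nat_lit 202850304)) (I.mix (nat_lit 35962880) (nat_lit 19660800)) (I.mix (nat_lit 37765120) (nat_lit 31784960)) (I.pos (nat_lit 163561472) (nat_lit 240828416)) (I.mix (nat_lit 53854208) (nat_lit 47677440)) (I.mix (nat_lit 45121536) (nat_lit 43876352)) (I.mix (nat_lit 42663936) (nat_lit 41697280)))
  false (nat_lit 0)
def b2_10 : Bx := Bx.mk (St.mk (I.pos (nat_lit 162136064) (nat_lit 201719808)) (I.mix (nat_lit 9027584) (nat_lit 34635776)) (I.mix (nat_lit 4767744) (nat_lit 52854784)) (I.pos (nat_lit 196345856) (nat_lit 243466240)) (I.mix (nat_lit 110559232) (nat_lit 59342848)) (I.mix (nat_lit 109215744) (nat_lit 52051968)) (I.mix (nat_lit 107692032) (nat_lit 46940160)))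
  false (nat_lit 35920772)
def b2_11 : Bx := Bx.mk (St.mk (I.pos (nat_lit 176340992) (nat_lit 230408192)) (I.pos (nat_lit 19759104) (nat_lit 61128704)) (I.pos (nat_lit 19873792) (nat_lit 83394560)) (I.pos (nat_lit 236208128) (nat_lit 291356672)) (I.mix (nat_lit 109510656) (nat_lit 90112000)) (I.mix (nat_lit 81281024) (nat_lit 67108864)) (I.mix (nat_lit 122060800) (nat_lit 88948736)))
  false (nat_lit 89537091)
def t2 : BTr := (BTr.n (BTr.n (BTr.n (BTr.b b2_0) (BTr.n (BTr.b b2_1) (BTr.b b2_2))) (BTr.n (BTr.b b2_3) (BTr.n (BTr.b b2_4) (BTr.b b2_5)))) (BTr.n (BTr.n (BTr.b b2_6) (BTr.n (BTr.b b2_7) (BTr.b b2_8))) (BTr.n (BTr.b b2_9) (BTr.n (BTr.b b2_10) (BTr.b b2_11)))))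
namespace T2
def l0 : Tr := Tr.L (Pth.l (Pth.l (Pth.l Pth.z)))
def l1 : Tr := Tr.L (Pth.l (Pth.l (Pth.r (Pth.l Pth.z))))
def l2 : Tr := Tr.L (Pth.l (Pth.l (Pth.r (Pth.r Pth.z))))
def l3 : Tr := Tr.L (Pth.l (Pth.r (Pth.l Pth.z)))
def l4 : Tr := Tr.L (Pth.l (Pth.r (Pth.r (Pth.l Pth.z))))
def l5 : Tr := Tr.L (Pth.l (Pth.r (Pth.r (Pth.r Pth.z))))
def l6 : Tr := Tr.L (Pth.r (Pth.l (Pth.l Pth.z)))
def l7 : Tr := Tr.L (Pth.r (Pth.l (Pth.r (Pth.l Pth.z))))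
def l8 : Tr := Tr.L (Pth.r (Pth.l (Pth.r (Pth.r Pth.z))))
def l9 : Tr := Tr.L (Pth.r (Pth.r (Pth.l Pth.z)))
def l10 : Tr := Tr.L (Pth.r (Pth.r (Pth.r (Pth.l Pth.z))))
def l11 : Tr := Tr.L (Pth.r (Pth.r (Pth.r (Pth.r Pth.z))))
end T2
def b3_0 : Bx := Bx.mk (St.mk (I.pos (nat_lit 156319744) (nat_lit 237518848)) (I.mix (nat_lit 2621440) (nat_lit 46284800)) (I.mix (nat_lit 4898816) (nat_lit 90750976)) (I.pos (nat_lit 89751552) (nat_lit 218234880)) (I.mix (nat_lit 114458624) (nat_lit 76316672)) (I.mix (nat_lit 76808192) (nat_lit 78282752)) (I.mix (nat_lit 109838336) (nat_lit 103596032)))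
  false (nat_lit 35807733)
def b3_1 : Bx := Bx.mk (St.mk (I.pos (nat_lit 117358592) (nat_lit 189972480)) (I.neg (nat_lit 6209536) (nat_lit 47120384)) (I.mix (nat_lit 43106304) (nat_lit 3899392)) (I.pos (nat_lit 67567616) (nat_lit 152551424)) (I.mix (nat_lit 73089024) (nat_lit 35635200)) (I.mix (nat_lit 34062336) (nat_lit 45596672)) (I.mix (nat_lit 29442048) (nat_lit 47185920)))
  false (nat_lit 5846581)
def b3_2 : Bx := Bx.mk (St.mk (I.mix (nat_lit 15319040) (nat_lit 123912192)) (I.mix (nat_lit 25329664) (nat_lit 5636096)) (I.mix (nat_lit 16629760) (nat_lit 7176192)) (I.mix (nat_lit 4554752) (nat_lit 70680576)) (I.mix (nat_lit 31440896) (nat_lit 24412160)) (I.mix (nat_lit 17629184) (nat_lit 20709376)) (I.mix (nat_lit 11288576) (nat_lit 14548992)))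
  false (nat_lit 0)
def b3_3 : Bx := Bx.mk (St.mk (I.pos (nat_lit 169033728) (nat_lit 214974464)) (I.mix (nat_lit 13139968) (nat_lit 45842432)) (I.pos (nat_lit 4915200) (nat_lit 86671360)) (I.pos (nat_lit 116277248) (nat_lit 189317120)) (I.mix (nat_lit 142295040) (nat_lit 62029824)) (I.mix (nat_lit 115539968) (nat_lit 66863104)) (I.mix (nat_lit 134840320) (nat_lit 60604416)))
  false (nat_lit 37533199)
def b3_4 : Bx := Bx.mk (St.mk (I.mix (nat_lit 19398656) (nat_lit 138444800)) (I.mix (nat_lit 14057472) (nat_lit 28639232)) (I.mix (nat_lit 8421376) (nat_lit 28196864)) (I.mix (nat_lit 5308416) (nat_lit 83968000)) (I.mix (nat_lit 54689792) (nat_lit 27459584)) (I.mix (nat_lit 40517632) (nat_lit 24723456)) (I.mix (nat_lit 29376512) (nat_lit 15482880)))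
  false (nat_lit 0)
def b3_5 : Bx := Bx.mk (St.mk (I.pos (nat_lit 149929984) (nat_lit 212402176)) (I.mix (nat_lit 35684352) (nat_lit 8929280)) (I.mix (nat_lit 31014912) (nat_lit 32325632)) (I.pos (nat_lit 92782592) (nat_lit 180584448)) (I.mix (nat_lit 45203456) (nat_lit 51265536)) (I.mix (nat_lit 45023232) (nat_lit 44171264)) (I.mix (nat_lit 45826048) (nat_lit 48365568)))
  false (nat_lit 34176767)
def b3_6 : Bx := Bx.mk (St.mk (I.pos (nat_lit 57016320) (nat_lit 144375808)) (I.mix (nat_lit 6979584) (nat_lit 21708800)) (I.mix (nat_lit 5931008) (nat_lit 23298048)) (I.pos (nat_lit 14745600) (nat_lit 93372416)) (I.mix (nat_lit 40402944) (nat_lit 37289984)) (I.mix (nat_lit 35291136) (nat_lit 25313280)) (I.mix (nat_lit 30392320) (nat_lit 20381696)))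
  false (nat_lit 0)
def b3_7 : Bx := Bx.mk (St.mk (I.pos (nat_lit 113115136) (nat_lit 158760960)) (I.mix (nat_lit 44924928) (nat_lit 9142272)) (I.mix (nat_lit 42778624) (nat_lit 11878400)) (I.pos (nat_lit 50528256) (nat_lit 110362624)) (I.mix (nat_lit 87392256) (nat_lit 46628864)) (I.mix (nat_lit 34439168) (nat_lit 75382784)) (I.mix (nat_lit 29392896) (nat_lit 67158016)))
  false (nat_lit 434618)
def b3_8 : Bx := Bx.mk (St.mk (I.pos (nat_lit 31735808) (nat_lit 109756416)) (I.mix (nat_lit 24117248) (nat_lit 4882432)) (I.mix (nat_lit 15826944) (nat_lit 4980736)) (I.pos (nat_lit 2441216) (nat_lit 61472768)) (I.mix (nat_lit 34471936) (nat_lit 19841024)) (I.mix (nat_lit 14860288) (nat_lit 29507584)) (I.mix (nat_lit 9191424) (nat_lit 18087936)))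
  false (nat_lit 0)
def b3_9 : Bx := Bx.mk (St.mk (I.pos (nat_lit 197558272) (nat_lit 287490048)) (I.mix (nat_lit 20414464) (nat_lit 33161216)) (I.mix (nat_lit 37519360) (nat_lit 70795264)) (I.pos (nat_lit 163692544) (nat_lit 329089024)) (I.mix (nat_lit 63438848) (nat_lit 58589184)) (I.mix (nat_lit 55738368) (nat_lit 41811968)) (I.mix (nat_lit 97599488) (nat_lit 70500352)))
  false (nat_lit 49142479)
def b3_10 : Bx := Bx.mk (St.mk (I.pos (nat_lit 183533568) (nat_lit 235421696)) (I.pos (nat_lit 7340032) (nat_lit 46137344)) (I.pos (nat_lit 22315008) (nat_lit 90750976)) (I.pos (nat_lit 154828800) (nat_lit 214974464)) (I.mix (nat_lit 105775104) (nat_lit 92520448)) (I.mix (nat_lit 88178688) (nat_lit 75776000)) (I.mix (nat_lit 132907008) (nat_lit 100909056)))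
  false (nat_lit 63164514)
def b3_11 : Bx := Bx.mk (St.mk (I.pos (nat_lit 178880512) (nat_lit 211730432)) (I.mix (nat_lit 17088512) (nat_lit 15843328)) (I.pos (nat_lit 524288) (nat_lit 44236800)) (I.pos (nat_lit 122159104) (nat_lit 177668096)) (I.mix (nat_lit 63062016) (nat_lit 37240832)) (I.mix (nat_lit 62652416) (nat_lit 33751040)) (I.mix (nat_lit 73433088) (nat_lit 35405824)))
  false (nat_lit 3401218)
def t3 : BTr := (BTr.n (BTr.n (BTr.n (BTr.b b3_0) (BTr.n (BTr.b b3_1) (BTr.b b3_2))) (BTr.n (BTr.b b3_3) (BTr.n (BTr.b b3_4) (BTr.b b3_5)))) (BTr.n (BTr.n (BTr.b b3_6) (BTr.n (BTr.b b3_7) (BTr.b b3_8))) (BTr.n (BTr.b b3_9) (BTr.n (BTr.b b3_10) (BTr.b b3_11)))))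
namespace T3
def l0 : Tr := Tr.L (Pth.l (Pth.l (Pth.l Pth.z)))
def l1 : Tr := Tr.L (Pth.l (Pth.l (Pth.r (Pth.l Pth.z))))
def l2 : Tr := Tr.L (Pth.l (Pth.l (Pth.r (Pth.r Pth.z))))
def l3 : Tr := Tr.L (Pth.l (Pth.r (Pth.l Pth.z)))
def l4 : Tr := Tr.L (Pth.l (Pth.r (Pth.r (Pth.l Pth.z))))
def l5 : Tr := Tr.L (Pth.l (Pth.r (Pth.r (Pth.r Pth.z))))
def l6 : Tr := Tr.L (Pth.r (Pth.l (Pth.l Pth.z)))
def l7 : Tr := Tr.L (Pth.r (Pth.l (Pth.r (Pth.l Pth.z))))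
def l8 : Tr := Tr.L (Pth.r (Pth.l (Pth.r (Pth.r Pth.z))))
def l9 : Tr := Tr.L (Pth.r (Pth.r (Pth.l Pth.z)))
def l10 : Tr := Tr.L (Pth.r (Pth.r (Pth.r (Pth.l Pth.z))))
def l11 : Tr := Tr.L (Pth.r (Pth.r (Pth.r (Pth.r Pth.z))))
end T3
def b4_0 : Bx := Bx.mk (St.mk (I.pos (nat_lit 148537344) (nat_lit 228687872)) (I.mix (nat_lit 3309568) (nat_lit 57163776)) (I.mix (nat_lit 5586944) (nat_lit 96698368)) (I.pos (nat_lit 179912704) (nat_lit 282214400)) (I.mix (nat_lit 115818496) (nat_lit 66633728)) (I.mix (nat_lit 69025792) (nat_lit 65699840)) (I.mix (nat_lit 89178112) (nat_lit 82690048)))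
  false (nat_lit 113678447)
def b4_1 : Bx := Bx.mk (St.mk (I.pos (nat_lit 86704128) (nat_lit 168165376)) (I.neg (nat_lit 7913472) (nat_lit 58392576)) (I.mix (nat_lit 47906816) (nat_lit 10878976)) (I.pos (nat_lit 124583936) (nat_lit 193609728)) (I.mix (nat_lit 74170368) (nat_lit 51871744)) (I.mix (nat_lit 38600704) (nat_lit 53215232)) (I.mix (nat_lit 30425088) (nat_lit 45006848)))
  false (nat_lit 17872688)
def b4_2 : Bx := Bx.mk (St.mk (I.mix (nat_lit 35651584) (nat_lit 53100544)) (I.mix (nat_lit 34766848) (nat_lit 8208384)) (I.mix (nat_lit 9175040) (nat_lit 8192000)) (I.pos (nat_lit 82051072) (nat_lit 102268928)) (I.mix (nat_lit 28426240) (nat_lit 39583744)) (I.mix (nat_lit 19349504) (nat_lit 30031872)) (I.mix (nat_lit 7274496) (nat_lit 11108352)))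
  false (nat_lit 0)
def b4_3 : Bx := Bx.mk (St.mk (I.pos (nat_lit 158040064) (nat_lit 205570048)) (I.mix (nat_lit 3719168) (nat_lit 55672832)) (I.pos (nat_lit 19070976) (nat_lit 92864512)) (I.pos (nat_lit 184909824) (nat_lit 247562240)) (I.mix (nat_lit 126959616) (nat_lit 40681472)) (I.mix (nat_lit 95043584) (nat_lit 57606144)) (I.mix (nat_lit 90488832) (nat_lit 46792704)))
  false (nat_lit 94059973)
def b4_4 : Bx := Bx.mk (St.mk (I.mix (nat_lit 55443456) (nat_lit 77381632)) (I.mix (nat_lit 11894784) (nat_lit 37388288)) (I.mix (nat_lit 9814016) (nat_lit 19546112)) (I.pos (nat_lit 81494016) (nat_lit 112033792)) (I.mix (nat_lit 49266688) (nat_lit 24756224)) (I.mix (nat_lit 38060032) (nat_lit 19333120)) (I.mix (nat_lit 13926400) (nat_lit 10240000)))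
  false (nat_lit 0)
def b4_5 : Bx := Bx.mk (St.mk (I.mix (nat_lit 41172992) (nat_lit 102793216)) (I.mix (nat_lit 7995392) (nat_lit 37355520)) (I.mix (nat_lit 11026432) (nat_lit 21708800)) (I.pos (nat_lit 79986688) (nat_lit 126107648)) (I.mix (nat_lit 44957696) (nat_lit 43778048)) (I.mix (nat_lit 39010304) (nat_lit 26361856)) (I.mix (nat_lit 24526848) (nat_lit 15925248)))
  false (nat_lit 0)
def b4_6 : Bx := Bx.mk (St.mk (I.pos (nat_lit 77529088) (nat_lit 122961920)) (I.mix (nat_lit 57769984) (nat_lit 9797632)) (I.mix (nat_lit 46858240) (nat_lit 3997696)) (I.pos (nat_lit 111820800) (nat_lit 149012480)) (I.mix (nat_lit 76939264) (nat_lit 34029568)) (I.mix (nat_lit 28999680) (nat_lit 66289664)) (I.mix (nat_lit 21479424) (nat_lit 43778048)))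
  false (nat_lit 0)
def b4_7 : Bx := Bx.mk (St.mk (I.mix (nat_lit 50544640) (nat_lit 37437440)) (I.mix (nat_lit 34226176) (nat_lit 6520832)) (I.mix (nat_lit 7159808) (nat_lit 9256960)) (I.pos (nat_lit 82001920) (nat_lit 102268928)) (I.mix (nat_lit 36929536) (nat_lit 28164096)) (I.mix (nat_lit 19267584) (nat_lit 30556160)) (I.mix (nat_lit 11436032) (nat_lit 6995968)))
  false (nat_lit 0)
def b4_8 : Bx := Bx.mk (St.mk (I.pos (nat_lit 139493376) (nat_lit 198721536)) (I.mix (nat_lit 37601280) (nat_lit 14188544)) (I.mix (nat_lit 25640960) (nat_lit 42156032)) (I.pos (nat_lit 165298176) (nat_lit 231620608)) (I.mix (nat_lit 51986432) (nat_lit 51429376)) (I.mix (nat_lit 48087040) (nat_lit 44007424)) (I.mix (nat_lit 44613632) (nat_lit 42008576)))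
  false (nat_lit 27736979)
def b4_9 : Bx := Bx.mk (St.mk (I.pos (nat_lit 194297856) (nat_lit 286949376)) (I.mix (nat_lit 21168128) (nat_lit 43843584)) (I.mix (nat_lit 55083008) (nat_lit 75726848)) (I.pos (nat_lit 241729536) (nat_lit 392396800)) (I.mix (nat_lit 69632000) (nat_lit 66535424)) (I.mix (nat_lit 64503808) (nat_lit 42598400)) (I.mix (nat_lit 110772224) (nat_lit 67502080)))
  false (nat_lit 138696328)
def b4_10 : Bx := Bx.mk (St.mk (I.pos (nat_lit 173228032) (nat_lit 227229696)) (I.pos (nat_lit 16252928) (nat_lit 55672832)) (I.pos (nat_lit 32292864) (nat_lit 94191616)) (I.pos (nat_lit 224149504) (nat_lit 277594112)) (I.mix (nat_lit 107708416) (nat_lit 87130112)) (I.mix (nat_lit 84557824) (nat_lit 64831488)) (I.mix (nat_lit 123568128) (nat_lit 75137024)))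
  false (nat_lit 49115764)
def b4_11 : Bx := Bx.mk (St.mk (I.pos (nat_lit 156712960) (nat_lit 197443584)) (I.mix (nat_lit 9420800) (nat_lit 32243712)) (I.pos (nat_lit 11288576) (nat_lit 65830912)) (I.pos (nat_lit 184532992) (nat_lit 234176512)) (I.mix (nat_lit 116064256) (nat_lit 53870592)) (I.mix (nat_lit 107233280) (nat_lit 47415296)) (I.mix (nat_lit 106872832) (nat_lit 42008576)))
  false (nat_lit 31002641)
def t4 : BTr := (BTr.n (BTr.n (BTr.n (BTr.b b4_0) (BTr.n (BTr.b b4_1) (BTr.b b4_2))) (BTr.n (BTr.b b4_3) (BTr.n (BTr.b b4_4) (BTr.b b4_5)))) (BTr.n (BTr.n (BTr.b b4_6) (BTr.n (BTr.b b4_7) (BTr.b b4_8))) (BTr.n (BTr.b b4_9) (BTr.n (BTr.b b4_10) (BTr.b b4_11)))))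
namespace T4
def l0 : Tr := Tr.L (Pth.l (Pth.l (Pth.l Pth.z)))
def l1 : Tr := Tr.L (Pth.l (Pth.l (Pth.r (Pth.l Pth.z))))
def l2 : Tr := Tr.L (Pth.l (Pth.l (Pth.r (Pth.r Pth.z))))
def l3 : Tr := Tr.L (Pth.l (Pth.r (Pth.l Pth.z)))
def l4 : Tr := Tr.L (Pth.l (Pth.r (Pth.r (Pth.l Pth.z))))
def l5 : Tr := Tr.L (Pth.l (Pth.r (Pth.r (Pth.r Pth.z))))
def l6 : Tr := Tr.L (Pth.r (Pth.l (Pth.l Pth.z)))
def l7 : Tr := Tr.L (Pth.r (Pth.l (Pth.r (Pth.l Pth.z))))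
def l8 : Tr := Tr.L (Pth.r (Pth.l (Pth.r (Pth.r Pth.z))))
def l9 : Tr := Tr.L (Pth.r (Pth.r (Pth.l Pth.z)))
def l10 : Tr := Tr.L (Pth.r (Pth.r (Pth.r (Pth.l Pth.z))))
def l11 : Tr := Tr.L (Pth.r (Pth.r (Pth.r (Pth.r Pth.z))))
end T4
def b5_0 : Bx := Bx.mk (St.mk (I.pos (nat_lit 150437888) (nat_lit 232357888)) (I.mix (nat_lit 2965504) (nat_lit 52822016)) (I.mix (nat_lit 5570560) (nat_lit 102137856)) (I.pos (nat_lit 135593984) (nat_lit 253067264)) (I.mix (nat_lit 127221760) (nat_lit 80117760)) (I.mix (nat_lit 83623936) (nat_lit 83230720)) (I.mix (nat_lit 110166016) (nat_lit 102727680)))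
  false (nat_lit 52844517)
def b5_1 : Bx := Bx.mk (St.mk (I.pos (nat_lit 99844096) (nat_lit 183074816)) (I.neg (nat_lit 6848512) (nat_lit 55214080)) (I.mix (nat_lit 44122112) (nat_lit 13991936)) (I.pos (nat_lit 96141312) (nat_lit 183943168)) (I.mix (nat_lit 72515584) (nat_lit 39485440)) (I.mix (nat_lit 32210944) (nat_lit 43008000)) (I.mix (nat_lit 30720000) (nat_lit 40075264)))
  false (nat_lit 2797092)
def b5_2 : Bx := Bx.mk (St.mk (I.mix (nat_lit 27918336) (nat_lit 91668480)) (I.mix (nat_lit 32456704) (nat_lit 6176768)) (I.mix (nat_lit 13697024) (nat_lit 12156928)) (I.pos (nat_lit 38993920) (nat_lit 92995584)) (I.mix (nat_lit 35700736) (nat_lit 30867456)) (I.mix (nat_lit 21856256) (nat_lit 23068672)) (I.mix (nat_lit 10665984) (nat_lit 12386304)))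
  false (nat_lit 0)
def b5_3 : Bx := Bx.mk (St.mk (I.pos (nat_lit 157728768) (nat_lit 210960384)) (I.mix (nat_lit 9224192) (nat_lit 56442880)) (I.pos (nat_lit 16826368) (nat_lit 104333312)) (I.pos (nat_lit 147324928) (nat_lit 226066432)) (I.mix (nat_lit 160497664) (nat_lit 67960832)) (I.mix (nat_lit 126271488) (nat_lit 79151104)) (I.mix (nat_lit 134791168) (nat_lit 65011712)))
  false (nat_lit 75859866)
def b5_4 : Bx := Bx.mk (St.mk (I.mix (nat_lit 43679744) (nat_lit 110559232)) (I.mix (nat_lit 14647296) (nat_lit 34521088)) (I.mix (nat_lit 4325376) (nat_lit 30883840)) (I.pos (nat_lit 38895616) (nat_lit 106217472)) (I.mix (nat_lit 57131008) (nat_lit 26542080)) (I.mix (nat_lit 42565632) (nat_lit 27754496)) (I.mix (nat_lit 23707648) (nat_lit 16072704)))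
  false (nat_lit 0)
def b5_5 : Bx := Bx.mk (St.mk (I.pos (nat_lit 144457728) (nat_lit 204341248)) (I.mix (nat_lit 33112064) (nat_lit 10682368)) (I.mix (nat_lit 16875520) (nat_lit 42237952)) (I.pos (nat_lit 127434752) (nat_lit 212910080)) (I.mix (nat_lit 50806784) (nat_lit 51183616)) (I.mix (nat_lit 43302912) (nat_lit 44646400)) (I.mix (nat_lit 41648128) (nat_lit 45694976)))
  false (nat_lit 51210356)
def b5_6 : Bx := Bx.mk (St.mk (I.mix (nat_lit 26771456) (nat_lit 123912192)) (I.mix (nat_lit 7241728) (nat_lit 31506432)) (I.mix (nat_lit 4636672) (nat_lit 28590080)) (I.pos (nat_lit 36569088) (nat_lit 117604352)) (I.mix (nat_lit 46678016) (nat_lit 40812544)) (I.mix (nat_lit 39354368) (nat_lit 30228480)) (I.mix (nat_lit 27869184) (nat_lit 20398080)))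
  false (nat_lit 0)
def b5_7 : Bx := Bx.mk (St.mk (I.pos (nat_lit 91062272) (nat_lit 143572992)) (I.mix (nat_lit 54083584) (nat_lit 9699328)) (I.mix (nat_lit 43466752) (nat_lit 12042240)) (I.pos (nat_lit 77824000) (nat_lit 139706368)) (I.mix (nat_lit 83607552) (nat_lit 43057152)) (I.mix (nat_lit 40255488) (nat_lit 74416128)) (I.mix (nat_lit 29802496) (nat_lit 54263808)))
  false (nat_lit 401019)
def b5_8 : Bx := Bx.mk (St.mk (I.mix (nat_lit 28721152) (nat_lit 66568192)) (I.neg (nat_lit 901120) (nat_lit 24494080)) (I.mix (nat_lit 8912896) (nat_lit 8437760)) (I.pos (nat_lit 40763392) (nat_lit 79527936)) (I.mix (nat_lit 35422208) (nat_lit 22102016)) (I.mix (nat_lit 19824640) (nat_lit 29409280)) (I.mix (nat_lit 8765440) (nat_lit 11124736)))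
  false (nat_lit 0)
def b5_9 : Bx := Bx.mk (St.mk (I.pos (nat_lit 164659200) (nat_lit 201981952)) (I.mix (nat_lit 14106624) (nat_lit 21970944)) (I.pos (nat_lit 10895360) (nat_lit 59916288)) (I.pos (nat_lit 146505728) (nat_lit 211206144)) (I.mix (nat_lit 84049920) (nat_lit 43089920)) (I.mix (nat_lit 78135296) (nat_lit 38633472)) (I.mix (nat_lit 82477056) (nat_lit 38305792)))
  false (nat_lit 22628840)
def b5_10 : Bx := Bx.mk (St.mk (I.pos (nat_lit 194641920) (nat_lit 286162944)) (I.mix (nat_lit 17088512) (nat_lit 39763968)) (I.mix (nat_lit 29196288) (nat_lit 83869696)) (I.pos (nat_lit 200556544) (nat_lit 365412352)) (I.mix (nat_lit 69468160) (nat_lit 63209472)) (I.mix (nat_lit 54706176) (nat_lit 43286528)) (I.mix (nat_lit 93077504) (nat_lit 69107712)))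
  false (nat_lit 74107670)
def b5_11 : Bx := Bx.mk (St.mk (I.pos (nat_lit 175030272) (nat_lit 230211584)) (I.pos (nat_lit 14663680) (nat_lit 50364416)) (I.pos (nat_lit 40091648) (nat_lit 98451456)) (I.pos (nat_lit 185483264) (nat_lit 250724352)) (I.mix (nat_lit 108773376) (nat_lit 90898432)) (I.mix (nat_lit 89309184) (nat_lit 70909952)) (I.mix (nat_lit 130187264) (nat_lit 86671360)))
  false (nat_lit 40718102)
def t5 : BTr := (BTr.n (BTr.n (BTr.n (BTr.b b5_0) (BTr.n (BTr.b b5_1) (BTr.b b5_2))) (BTr.n (BTr.b b5_3) (BTr.n (BTr.b b5_4) (BTr.b b5_5)))) (BTr.n (BTr.n (BTr.b b5_6) (BTr.n (BTr.b b5_7) (BTr.b b5_8))) (BTr.n (BTr.b b5_9) (BTr.n (BTr.b b5_10) (BTr.b b5_11)))))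
namespace T5
def l0 : Tr := Tr.L (Pth.l (Pth.l (Pth.l Pth.z)))
def l1 : Tr := Tr.L (Pth.l (Pth.l (Pth.r (Pth.l Pth.z))))
def l2 : Tr := Tr.L (Pth.l (Pth.l (Pth.r (Pth.r Pth.z))))
def l3 : Tr := Tr.L (Pth.l (Pth.r (Pth.l Pth.z)))
def l4 : Tr := Tr.L (Pth.l (Pth.r (Pth.r (Pth.l Pth.z))))
def l5 : Tr := Tr.L (Pth.l (Pth.r (Pth.r (Pth.r Pth.z))))
def l6 : Tr := Tr.L (Pth.r (Pth.l (Pth.l Pth.z)))
def l7 : Tr := Tr.L (Pth.r (Pth.l (Pth.r (Pth.l Pth.z))))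
def l8 : Tr := Tr.L (Pth.r (Pth.l (Pth.r (Pth.r Pth.z))))
def l9 : Tr := Tr.L (Pth.r (Pth.r (Pth.l Pth.z)))
def l10 : Tr := Tr.L (Pth.r (Pth.r (Pth.r (Pth.l Pth.z))))
def l11 : Tr := Tr.L (Pth.r (Pth.r (Pth.r (Pth.r Pth.z))))
end T5
theorem bx0_0 : BoxOK sI cl6 cl7 cl13 t2 t4 b0_0 :=
  box_mk (TrL.c (I.pos (nat_lit 0) (nat_lit 0)) (xa (xb T2.l11 (xa (xb T2.l0 T2.l0) T2.l11)) (xb (xa T2.l0 T2.l0) (xa (xb T2.l0 T2.l0) (xb T2.l0 T2.l0))))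
  (TrL.c (I.pos (nat_lit 0) (nat_lit 0)) (xa T4.l1 T4.l1)
  (TrL.c (I.pos (nat_lit 0) (nat_lit 89480386)) (xR T2.l1 T2.l1)
  (TrL.c (I.pos (nat_lit 0) (nat_lit 41530880)) T4.l2
  (TrL.c (I.pos (nat_lit 0) (nat_lit 0)) (xa (xb T4.l3 (xa T4.l3 T4.l3)) (xb T4.l3 (xa T4.l3 (xb T4.l3 T4.l3))))
  (TrL.c (I.pos (nat_lit 0) (nat_lit 0)) T2.l2
  (TrL.c (I.mix (nat_lit 41527258) (nat_lit 41530880)) (xR T4.l4 T4.l4)
  (TrL.c (I.mix (nat_lit 41527258) (nat_lit 4274)) T2.l3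
  TrL.n)))))))) (by decide +kernel)
theorem bx0_1 : BoxOK sI cl6 cl7 cl13 t2 t4 b0_1 :=
  box_mk (TrL.c (I.pos (nat_lit 0) (nat_lit 0)) (xa (xa (xb T2.l8 T2.l8) T2.l8) (xa T2.l8 (xb T2.l8 (xa T2.l8 T2.l8))))
  (TrL.c (I.pos (nat_lit 0) (nat_lit 0)) (xa T4.l1 T4.l1)
  (TrL.c (I.pos (nat_lit 0) (nat_lit 89480386)) T2.l1
  (TrL.c (I.pos (nat_lit 0) (nat_lit 41530880)) T4.l2
  (TrL.c (I.pos (nat_lit 0) (nat_lit 0)) (xa T4.l8 T4.l8)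
  (TrL.c (I.pos (nat_lit 0) (nat_lit 0)) T2.l2
  (TrL.c (I.mix (nat_lit 41527258) (nat_lit 41530880)) T4.l4
  (TrL.c (I.mix (nat_lit 41527258) (nat_lit 4274)) T2.l3
  TrL.n)))))))) (by decide +kernel)
theorem bx0_2 : BoxOK sI cl6 cl7 cl13 t2 t4 b0_2 :=
  box_mk (TrL.c (I.pos (nat_lit 0) (nat_lit 0)) (xb T2.l8 T2.l8)
  (TrL.c (I.pos (nat_lit 0) (nat_lit 0)) T4.l1
  (TrL.c (I.pos (nat_lit 0) (nat_lit 89480386)) T2.l1
  (TrL.c (I.pos (nat_lit 0) (nat_lit 41530880)) T4.l2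
  (TrL.c (I.pos (nat_lit 0) (nat_lit 0)) (xb T4.l8 T4.l8)
  (TrL.c (I.pos (nat_lit 0) (nat_lit 0)) T2.l2
  (TrL.c (I.mix (nat_lit 41527258) (nat_lit 41530880)) T4.l4
  (TrL.c (I.mix (nat_lit 41527258) (nat_lit 4274)) T2.l3
  TrL.n)))))))) (by decide +kernel)
theorem bx0_3 : BoxOK sI cl6 cl7 cl13 t2 t4 b0_3 :=
  box_mk (TrL.c (I.pos (nat_lit 0) (nat_lit 0)) (xa (xb (xa (xa T2.l8 T2.l8) T2.l8) T2.l8) T2.l8)
  (TrL.c (I.pos (nat_lit 0) (nat_lit 0)) (xa T4.l1 T4.l1)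
  (TrL.c (I.pos (nat_lit 0) (nat_lit 89480386)) T2.l1
  (TrL.c (I.pos (nat_lit 0) (nat_lit 41530880)) T4.l2
  (TrL.c (I.pos (nat_lit 0) (nat_lit 0)) (xa T4.l8 T4.l8)
  (TrL.c (I.pos (nat_lit 0) (nat_lit 0)) T2.l2
  (TrL.c (I.mix (nat_lit 41527258) (nat_lit 41530880)) T4.l4
  (TrL.c (I.mix (nat_lit 41527258) (nat_lit 4274)) T2.l3
  TrL.n)))))))) (by decide +kernel)
theorem bx0_4 : BoxOK sI cl6 cl7 cl13 t2 t4 b0_4 :=
  box_mk (TrL.c (I.pos (nat_lit 0) (nat_lit 0)) (xa (xb (xa T2.l0 T2.l0) (xa T2.l0 (xb T2.l0 T2.l0))) (xb (xa T2.l0 (xb T2.l0 T2.l0)) (xa (xb T2.l0 T2.l0) (xb T2.l0 T2.l0))))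
  (TrL.c (I.pos (nat_lit 0) (nat_lit 0)) (xa T4.l1 (xb T4.l1 T4.l1))
  (TrL.c (I.pos (nat_lit 0) (nat_lit 89480386)) (xR T2.l1 T2.l1)
  (TrL.c (I.pos (nat_lit 0) (nat_lit 41530880)) T4.l2
  (TrL.c (I.pos (nat_lit 0) (nat_lit 0)) (xa (xb (xa T4.l0 (xb T4.l3 T4.l3)) (xa T4.l3 T4.l3)) (xb (xa (xb T4.l3 T4.l3) (xb T4.l3 T4.l3)) (xa T4.l3 (xb T4.l3 T4.l3))))
  (TrL.c (I.pos (nat_lit 0) (nat_lit 0)) (xa T2.l2 (xb T2.l4 T2.l2))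
  (TrL.c (I.mix (nat_lit 41527258) (nat_lit 41530880)) (xR T4.l5 T4.l5)
  (TrL.c (I.mix (nat_lit 41527258) (nat_lit 4274)) T2.l5
  TrL.n)))))))) (by decide +kernel)
theorem bx0_5 : BoxOK sI cl6 cl7 cl13 t2 t4 b0_5 :=
  box_mk (TrL.c (I.pos (nat_lit 0) (nat_lit 0)) (xa (xb T2.l8 T2.l8) (xb T2.l0 (xa T2.l8 T2.l0)))
  (TrL.c (I.pos (nat_lit 0) (nat_lit 0)) T4.l1
  (TrL.c (I.pos (nat_lit 0) (nat_lit 89480386)) (xR T2.l1 T2.l1)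
  (TrL.c (I.pos (nat_lit 0) (nat_lit 41530880)) T4.l2
  (TrL.c (I.pos (nat_lit 0) (nat_lit 0)) (xa T4.l8 (xb T4.l8 T4.l8))
  (TrL.c (I.pos (nat_lit 0) (nat_lit 0)) T2.l2
  (TrL.c (I.mix (nat_lit 41527258) (nat_lit 41530880)) T4.l4
  (TrL.c (I.mix (nat_lit 41527258) (nat_lit 4274)) T2.l3
  TrL.n)))))))) (by decide +kernel)
theorem bx0_6 : BoxOK sI cl6 cl7 cl13 t2 t4 b0_6 :=
  box_mk (TrL.c (I.pos (nat_lit 0) (nat_lit 0)) (xa (xa (xb (xa T2.l8 T2.l8) T2.l8) T2.l8) T2.l8)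
  (TrL.c (I.pos (nat_lit 0) (nat_lit 0)) (xa T4.l1 T4.l1)
  (TrL.c (I.pos (nat_lit 0) (nat_lit 89480386)) T2.l1
  (TrL.c (I.pos (nat_lit 0) (nat_lit 41530880)) T4.l2
  (TrL.c (I.pos (nat_lit 0) (nat_lit 0)) (xa T4.l8 T4.l8)
  (TrL.c (I.pos (nat_lit 0) (nat_lit 0)) T2.l2
  (TrL.c (I.mix (nat_lit 41527258) (nat_lit 41530880)) T4.l4
  (TrL.c (I.mix (nat_lit 41527258) (nat_lit 4274)) T2.l3
  TrL.n)))))))) (by decide +kernel)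
theorem bx0_7 : BoxOK sI cl6 cl7 cl13 t2 t4 b0_7 :=
  box_mk (TrL.c (I.pos (nat_lit 0) (nat_lit 0)) (xb (xa (xb T2.l11 T2.l11) (xb (xa T2.l11 T2.l11) T2.l11)) (xa (xb (xa T2.l11 T2.l11) (xa T2.l11 T2.l11)) (xb (xa T2.l11 T2.l11) (xa T2.l11 T2.l11))))
  (TrL.c (I.pos (nat_lit 0) (nat_lit 0)) (xb T4.l1 T4.l1)
  (TrL.c (I.pos (nat_lit 0) (nat_lit 89480386)) (xR T2.l1 T2.l1)
  (TrL.c (I.pos (nat_lit 0) (nat_lit 41530880)) T4.l2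
  (TrL.c (I.pos (nat_lit 0) (nat_lit 0)) (xb (xa T4.l11 (xb T4.l11 T4.l11)) (xa T4.l11 (xb T4.l11 T4.l11)))
  (TrL.c (I.pos (nat_lit 0) (nat_lit 0)) T2.l2
  (TrL.c (I.mix (nat_lit 41527258) (nat_lit 41530880)) (xR T4.l5 T4.l4)
  (TrL.c (I.mix (nat_lit 41527258) (nat_lit 4274)) T2.l3
  TrL.n)))))))) (by decide +kernel)
theorem bx0_8 : BoxOK sI cl6 cl7 cl13 t2 t4 b0_8 :=
  box_mk (TrL.c (I.pos (nat_lit 0) (nat_lit 0)) (xa (xa (xb (xa T2.l8 T2.l8) (xa T2.l8 T2.l8)) (xb T2.l8 T2.l8)) (xa T2.l8 (xb T2.l8 (xa T2.l8 T2.l8))))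
  (TrL.c (I.pos (nat_lit 0) (nat_lit 0)) (xa (xa T4.l8 T4.l1) T4.l1)
  (TrL.c (I.pos (nat_lit 0) (nat_lit 89480386)) T2.l1
  (TrL.c (I.pos (nat_lit 0) (nat_lit 41530880)) T4.l2
  (TrL.c (I.pos (nat_lit 0) (nat_lit 0)) (xa T4.l1 T4.l8)
  (TrL.c (I.pos (nat_lit 0) (nat_lit 0)) T2.l2
  (TrL.c (I.mix (nat_lit 41527258) (nat_lit 41530880)) T4.l4
  (TrL.c (I.mix (nat_lit 41527258) (nat_lit 4274)) T2.l3
  TrL.n)))))))) (by decide +kernel)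
theorem bx0_9 : BoxOK sI cl6 cl7 cl13 t2 t4 b0_9 :=
  box_mk (TrL.c (I.pos (nat_lit 0) (nat_lit 0)) (xa (xb T2.l0 T2.l11) (xb T2.l0 (xa T2.l0 T2.l0)))
  (TrL.c (I.pos (nat_lit 0) (nat_lit 0)) T4.l1
  (TrL.c (I.pos (nat_lit 0) (nat_lit 89480386)) (xR T2.l1 T2.l1)
  (TrL.c (I.pos (nat_lit 0) (nat_lit 41530880)) T4.l2
  (TrL.c (I.pos (nat_lit 0) (nat_lit 0)) (xa T4.l3 T4.l3)
  (TrL.c (I.pos (nat_lit 0) (nat_lit 0)) T2.l2
  (TrL.c (I.mix (nat_lit 41527258) (nat_lit 41530880)) T4.l5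
  (TrL.c (I.mix (nat_lit 41527258) (nat_lit 4274)) T2.l3
  TrL.n)))))))) (by decide +kernel)
theorem bx0_10 : BoxOK sI cl6 cl7 cl13 t2 t4 b0_10 :=
  box_mk (TrL.c (I.pos (nat_lit 0) (nat_lit 0)) (xa (xb T2.l0 (xa T2.l0 T2.l11)) T2.l0)
  (TrL.c (I.pos (nat_lit 0) (nat_lit 0)) T4.l1
  (TrL.c (I.pos (nat_lit 0) (nat_lit 89480386)) (xR T2.l1 T2.l1)
  (TrL.c (I.pos (nat_lit 0) (nat_lit 41530880)) T4.l2
  (TrL.c (I.pos (nat_lit 0) (nat_lit 0)) (xa T4.l11 T4.l0)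
  (TrL.c (I.pos (nat_lit 0) (nat_lit 0)) T2.l2
  (TrL.c (I.mix (nat_lit 41527258) (nat_lit 41530880)) T4.l5
  (TrL.c (I.mix (nat_lit 41527258) (nat_lit 4274)) T2.l3
  TrL.n)))))))) (by decide +kernel)
theorem bx0_11 : BoxOK sI cl6 cl7 cl13 t2 t4 b0_11 :=
  box_mk (TrL.c (I.pos (nat_lit 0) (nat_lit 0)) (xb (xa T2.l11 T2.l11) T2.l11)
  (TrL.c (I.pos (nat_lit 0) (nat_lit 0)) T4.l1
  (TrL.c (I.pos (nat_lit 0) (nat_lit 89480386)) (xR T2.l1 T2.l1)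
  (TrL.c (I.pos (nat_lit 0) (nat_lit 41530880)) T4.l2
  (TrL.c (I.pos (nat_lit 0) (nat_lit 0)) (xb (xa T4.l11 T4.l11) T4.l11)
  (TrL.c (I.pos (nat_lit 0) (nat_lit 0)) T2.l2
  (TrL.c (I.mix (nat_lit 41527258) (nat_lit 41530880)) T4.l5
  (TrL.c (I.mix (nat_lit 41527258) (nat_lit 4274)) T2.l3
  TrL.n)))))))) (by decide +kernel)
theorem sv0 : StarV sI cl6 cl7 cl13 t2 t4 t0 :=
  (bt_n (bt_n (bt_n (bt_b bx0_0) (bt_n (bt_b bx0_1) (bt_b bx0_2))) (bt_n (bt_b bx0_3) (bt_n (bt_b bx0_4) (bt_b bx0_5)))) (bt_n (bt_n (bt_b bx0_6) (bt_n (bt_b bx0_7) (bt_b bx0_8))) (bt_n (bt_b bx0_9) (bt_n (bt_b bx0_10) (bt_b bx0_11)))))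
def S0 : StarD := StarD.mk cl6 cl7 cl13 2 4 t0
theorem bx1_0 : BoxOK sI cl6 cl13 cl7 t4 t2 b1_0 :=
  box_mk (TrL.c (I.pos (nat_lit 0) (nat_lit 0)) (xa (xb (xa T4.l10 T4.l0) (xa (xb T4.l0 T4.l0) (xb T4.l0 T4.l0))) (xb (xa T4.l0 T4.l0) (xa (xb T4.l0 T4.l0) (xb T4.l0 T4.l0))))
  (TrL.c (I.pos (nat_lit 0) (nat_lit 0)) (xa T2.l4 (xb T2.l4 T2.l4))
  (TrL.c (I.pos (nat_lit 0) (nat_lit 89480386)) (xR T4.l5 T4.l5)
  (TrL.c (I.pos (nat_lit 0) (nat_lit 41530880)) T2.l5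
  (TrL.c (I.pos (nat_lit 0) (nat_lit 0)) (xa (xb T2.l6 T2.l6) (xb (xa T2.l6 T2.l6) (xa T2.l6 T2.l6)))
  (TrL.c (I.pos (nat_lit 0) (nat_lit 0)) T4.l6
  (TrL.c (I.mix (nat_lit 41527258) (nat_lit 41530880)) (xR T2.l1 T2.l1)
  (TrL.c (I.mix (nat_lit 41527258) (nat_lit 4274)) T4.l7
  TrL.n)))))))) (by decide +kernel)
theorem bx1_1 : BoxOK sI cl6 cl13 cl7 t4 t2 b1_1 :=
  box_mk (TrL.c (I.pos (nat_lit 0) (nat_lit 0)) (xa T4.l9 (xa T4.l9 (xa T4.l9 T4.l9)))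
  (TrL.c (I.pos (nat_lit 0) (nat_lit 0)) (xa T2.l4 T2.l4)
  (TrL.c (I.pos (nat_lit 0) (nat_lit 89480386)) T4.l5
  (TrL.c (I.pos (nat_lit 0) (nat_lit 41530880)) T2.l5
  (TrL.c (I.pos (nat_lit 0) (nat_lit 0)) (xa T2.l9 T2.l9)
  (TrL.c (I.pos (nat_lit 0) (nat_lit 0)) T4.l6
  (TrL.c (I.mix (nat_lit 41527258) (nat_lit 41530880)) T2.l7
  (TrL.c (I.mix (nat_lit 41527258) (nat_lit 4274)) T4.l7
  TrL.n)))))))) (by decide +kernel)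
theorem bx1_2 : BoxOK sI cl6 cl13 cl7 t4 t2 b1_2 :=
  box_mk (TrL.c (I.pos (nat_lit 0) (nat_lit 0)) (xb (xa T4.l9 T4.l9) T4.l9)
  (TrL.c (I.pos (nat_lit 0) (nat_lit 0)) T2.l4
  (TrL.c (I.pos (nat_lit 0) (nat_lit 89480386)) (xR T4.l5 T4.l5)
  (TrL.c (I.pos (nat_lit 0) (nat_lit 41530880)) T2.l5
  (TrL.c (I.pos (nat_lit 0) (nat_lit 0)) (xb T2.l9 T2.l9)
  (TrL.c (I.pos (nat_lit 0) (nat_lit 0)) T4.l6
  (TrL.c (I.mix (nat_lit 41527258) (nat_lit 41530880)) T2.l1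
  (TrL.c (I.mix (nat_lit 41527258) (nat_lit 4274)) T4.l7
  TrL.n)))))))) (by decide +kernel)
theorem bx1_3 : BoxOK sI cl6 cl13 cl7 t4 t2 b1_3 :=
  box_mk (TrL.c (I.pos (nat_lit 0) (nat_lit 0)) (xa T4.l9 T4.l9)
  (TrL.c (I.pos (nat_lit 0) (nat_lit 0)) (xa T2.l4 T2.l4)
  (TrL.c (I.pos (nat_lit 0) (nat_lit 89480386)) T4.l5
  (TrL.c (I.pos (nat_lit 0) (nat_lit 41530880)) T2.l5
  (TrL.c (I.pos (nat_lit 0) (nat_lit 0)) (xa T2.l9 T2.l9)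
  (TrL.c (I.pos (nat_lit 0) (nat_lit 0)) T4.l6
  (TrL.c (I.mix (nat_lit 41527258) (nat_lit 41530880)) T2.l7
  (TrL.c (I.mix (nat_lit 41527258) (nat_lit 4274)) T4.l7
  TrL.n)))))))) (by decide +kernel)
theorem bx1_4 : BoxOK sI cl6 cl13 cl7 t4 t2 b1_4 :=
  box_mk (TrL.c (I.pos (nat_lit 0) (nat_lit 0)) (xa (xb (xa T4.l0 T4.l0) (xa T4.l0 T4.l0)) (xb (xa T4.l0 (xb T4.l0 T4.l0)) (xa (xb T4.l0 T4.l0) (xb T4.l0 T4.l0))))
  (TrL.c (I.pos (nat_lit 0) (nat_lit 0)) (xa T2.l4 T2.l2)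
  (TrL.c (I.pos (nat_lit 0) (nat_lit 89480386)) (xR T4.l5 T4.l5)
  (TrL.c (I.pos (nat_lit 0) (nat_lit 41530880)) T2.l5
  (TrL.c (I.pos (nat_lit 0) (nat_lit 0)) (xa (xb (xa T2.l0 (xb T2.l6 T2.l6)) T2.l6) (xb (xa (xb T2.l6 T2.l6) (xb T2.l6 T2.l6)) (xa T2.l6 (xb T2.l6 T2.l6))))
  (TrL.c (I.pos (nat_lit 0) (nat_lit 0)) (xa T4.l6 (xb T4.l1 T4.l6))
  (TrL.c (I.mix (nat_lit 41527258) (nat_lit 41530880)) (xR T2.l1 T2.l1)
  (TrL.c (I.mix (nat_lit 41527258) (nat_lit 4274)) T4.l7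
  TrL.n)))))))) (by decide +kernel)
theorem bx1_5 : BoxOK sI cl6 cl13 cl7 t4 t2 b1_5 :=
  box_mk (TrL.c (I.pos (nat_lit 0) (nat_lit 0)) (xa (xb (xa T4.l9 T4.l0) (xa T4.l9 T4.l9)) T4.l0)
  (TrL.c (I.pos (nat_lit 0) (nat_lit 0)) T2.l4
  (TrL.c (I.pos (nat_lit 0) (nat_lit 89480386)) (xR T4.l5 T4.l5)
  (TrL.c (I.pos (nat_lit 0) (nat_lit 41530880)) T2.l5
  (TrL.c (I.pos (nat_lit 0) (nat_lit 0)) (xa (xb T2.l9 T2.l9) T2.l10)
  (TrL.c (I.pos (nat_lit 0) (nat_lit 0)) T4.l6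
  (TrL.c (I.mix (nat_lit 41527258) (nat_lit 41530880)) T2.l7
  (TrL.c (I.mix (nat_lit 41527258) (nat_lit 4274)) T4.l7
  TrL.n)))))))) (by decide +kernel)
theorem bx1_6 : BoxOK sI cl6 cl13 cl7 t4 t2 b1_6 :=
  box_mk (TrL.c (I.pos (nat_lit 0) (nat_lit 0)) (xa (xa (xb (xa T4.l9 T4.l9) T4.l9) T4.l9) (xa T4.l9 T4.l9))
  (TrL.c (I.pos (nat_lit 0) (nat_lit 0)) (xa T2.l4 T2.l4)
  (TrL.c (I.pos (nat_lit 0) (nat_lit 89480386)) T4.l5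
  (TrL.c (I.pos (nat_lit 0) (nat_lit 41530880)) T2.l5
  (TrL.c (I.pos (nat_lit 0) (nat_lit 0)) (xa T2.l9 T2.l9)
  (TrL.c (I.pos (nat_lit 0) (nat_lit 0)) T4.l6
  (TrL.c (I.mix (nat_lit 41527258) (nat_lit 41530880)) T2.l7
  (TrL.c (I.mix (nat_lit 41527258) (nat_lit 4274)) T4.l7
  TrL.n)))))))) (by decide +kernel)
theorem bx1_7 : BoxOK sI cl6 cl13 cl7 t4 t2 b1_7 :=
  box_mk (TrL.c (I.pos (nat_lit 0) (nat_lit 0)) (xb (xa (xb T4.l10 T4.l10) (xb (xa T4.l10 T4.l10) T4.l10)) (xa (xb (xa T4.l10 T4.l10) (xa T4.l10 T4.l10)) (xb (xa T4.l10 T4.l10) (xa T4.l10 T4.l10))))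
  (TrL.c (I.pos (nat_lit 0) (nat_lit 0)) (xb T2.l4 T2.l4)
  (TrL.c (I.pos (nat_lit 0) (nat_lit 89480386)) (xR T4.l5 T4.l5)
  (TrL.c (I.pos (nat_lit 0) (nat_lit 41530880)) T2.l5
  (TrL.c (I.pos (nat_lit 0) (nat_lit 0)) (xb (xa T2.l10 T2.l10) (xa T2.l10 (xb T2.l10 (xb T2.l10 (xs T2.l10 T2.l10)))))
  (TrL.c (I.pos (nat_lit 0) (nat_lit 0)) T4.l6
  (TrL.c (I.mix (nat_lit 41527258) (nat_lit 41530880)) (xR T2.l1 T2.l7)
  (TrL.c (I.mix (nat_lit 41527258) (nat_lit 4274)) T4.l7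
  TrL.n)))))))) (by decide +kernel)
theorem bx1_8 : BoxOK sI cl6 cl13 cl7 t4 t2 b1_8 :=
  box_mk (TrL.c (I.pos (nat_lit 0) (nat_lit 0)) (xa (xa (xb T4.l9 (xa T4.l9 T4.l9)) (xb T4.l9 T4.l9)) (xa (xb T4.l9 T4.l9) (xb (xa T4.l9 T4.l9) (xa T4.l9 T4.l9))))
  (TrL.c (I.pos (nat_lit 0) (nat_lit 0)) (xa T2.l4 T2.l4)
  (TrL.c (I.pos (nat_lit 0) (nat_lit 89480386)) T4.l5
  (TrL.c (I.pos (nat_lit 0) (nat_lit 41530880)) T2.l5
  (TrL.c (I.pos (nat_lit 0) (nat_lit 0)) (xa (xa T2.l9 T2.l9) T2.l9)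
  (TrL.c (I.pos (nat_lit 0) (nat_lit 0)) T4.l6
  (TrL.c (I.mix (nat_lit 41527258) (nat_lit 41530880)) T2.l7
  (TrL.c (I.mix (nat_lit 41527258) (nat_lit 4274)) T4.l7
  TrL.n)))))))) (by decide +kernel)
theorem bx1_9 : BoxOK sI cl6 cl13 cl7 t4 t2 b1_9 :=
  box_mk (TrL.c (I.pos (nat_lit 0) (nat_lit 0)) (xa (xb T4.l0 (xa T4.l0 T4.l10)) T4.l0)
  (TrL.c (I.pos (nat_lit 0) (nat_lit 0)) T2.l4
  (TrL.c (I.pos (nat_lit 0) (nat_lit 89480386)) (xR T4.l5 T4.l5)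
  (TrL.c (I.pos (nat_lit 0) (nat_lit 41530880)) T2.l5
  (TrL.c (I.pos (nat_lit 0) (nat_lit 0)) (xa T2.l10 T2.l0)
  (TrL.c (I.pos (nat_lit 0) (nat_lit 0)) T4.l6
  (TrL.c (I.mix (nat_lit 41527258) (nat_lit 41530880)) T2.l1
  (TrL.c (I.mix (nat_lit 41527258) (nat_lit 4274)) T4.l7
  TrL.n)))))))) (by decide +kernel)
theorem bx1_10 : BoxOK sI cl6 cl13 cl7 t4 t2 b1_10 :=
  box_mk (TrL.c (I.pos (nat_lit 0) (nat_lit 0)) (xa T4.l10 (xb T4.l10 T4.l10))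
  (TrL.c (I.pos (nat_lit 0) (nat_lit 0)) T2.l4
  (TrL.c (I.pos (nat_lit 0) (nat_lit 89480386)) (xR T4.l5 T4.l5)
  (TrL.c (I.pos (nat_lit 0) (nat_lit 41530880)) T2.l5
  (TrL.c (I.pos (nat_lit 0) (nat_lit 0)) (xb T2.l10 T2.l10)
  (TrL.c (I.pos (nat_lit 0) (nat_lit 0)) T4.l6
  (TrL.c (I.mix (nat_lit 41527258) (nat_lit 41530880)) T2.l1
  (TrL.c (I.mix (nat_lit 41527258) (nat_lit 4274)) T4.l7
  TrL.n)))))))) (by decide +kernel)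
theorem bx1_11 : BoxOK sI cl6 cl13 cl7 t4 t2 b1_11 :=
  box_mk (TrL.c (I.pos (nat_lit 0) (nat_lit 0)) (xa (xb T4.l0 T4.l0) (xb T4.l0 T4.l0))
  (TrL.c (I.pos (nat_lit 0) (nat_lit 0)) T2.l4
  (TrL.c (I.pos (nat_lit 0) (nat_lit 89480386)) (xR T4.l5 T4.l5)
  (TrL.c (I.pos (nat_lit 0) (nat_lit 41530880)) T2.l5
  (TrL.c (I.pos (nat_lit 0) (nat_lit 0)) (xa T2.l6 T2.l6)
  (TrL.c (I.pos (nat_lit 0) (nat_lit 0)) T4.l6
  (TrL.c (I.mix (nat_lit 41527258) (nat_lit 41530880)) T2.l1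
  (TrL.c (I.mix (nat_lit 41527258) (nat_lit 4274)) T4.l7
  TrL.n)))))))) (by decide +kernel)
theorem sv1 : StarV sI cl6 cl13 cl7 t4 t2 t1 :=
  (bt_n (bt_n (bt_n (bt_b bx1_0) (bt_n (bt_b bx1_1) (bt_b bx1_2))) (bt_n (bt_b bx1_3) (bt_n (bt_b bx1_4) (bt_b bx1_5)))) (bt_n (bt_n (bt_b bx1_6) (bt_n (bt_b bx1_7) (bt_b bx1_8))) (bt_n (bt_b bx1_9) (bt_n (bt_b bx1_10) (bt_b bx1_11)))))
def S1 : StarD := StarD.mk cl6 cl13 cl7 4 2 t1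
theorem bx2_0 : BoxOK sI cl7 cl6 cl13 t0 t5 b2_0 :=
  box_mk (TrL.c (I.pos (nat_lit 0) (nat_lit 0)) (xa (xb (xa T0.l0 T0.l0) (xa (xb T0.l0 T0.l0) (xb T0.l0 T0.l0))) (xb T0.l0 (xa (xb T0.l0 T0.l0) (xb T0.l0 T0.l0))))
  (TrL.c (I.pos (nat_lit 0) (nat_lit 0)) (xa (xb T5.l1 (xk T5.l1 T5.l1)) (xk (xb T5.l1 T5.l1) (xb T5.l1 T5.l1)))
  (TrL.c (I.pos (nat_lit 0) (nat_lit 111196574)) (xR T0.l1 (xR T0.l1 T0.l1))
  (TrL.c (I.pos (nat_lit 0) (nat_lit 77433728)) (xR T5.l2 T5.l2)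
  (TrL.c (I.pos (nat_lit 0) (nat_lit 0)) (xa (xb (xk T5.l3 T5.l3) (xk T5.l3 (xa T5.l3 T5.l3))) (xb T5.l3 (xk T5.l3 (xa T5.l3 T5.l3))))
  (TrL.c (I.pos (nat_lit 0) (nat_lit 0)) (xk T0.l2 T0.l2)
  (TrL.c (I.mix (nat_lit 29511666) (nat_lit 77433728)) (xR T5.l4 T5.l4)
  (TrL.c (I.mix (nat_lit 29511666) (nat_lit 46070178)) T0.l6
  TrL.n)))))))) (by decide +kernel)
theorem bx2_1 : BoxOK sI cl7 cl6 cl13 t0 t5 b2_1 :=
  box_mk (TrL.c (I.pos (nat_lit 0) (nat_lit 0)) (xa (xb (xa (xa T0.l4 T0.l4) T0.l4) (xa (xa T0.l4 T0.l4) T0.l4)) (xa T0.l4 (xb T0.l4 (xa T0.l4 T0.l4))))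
  (TrL.c (I.pos (nat_lit 0) (nat_lit 0)) (xa T5.l1 T5.l1)
  (TrL.c (I.pos (nat_lit 0) (nat_lit 111196574)) T0.l1
  (TrL.c (I.pos (nat_lit 0) (nat_lit 77433728)) T5.l2
  (TrL.c (I.pos (nat_lit 0) (nat_lit 0)) (xa (xa T5.l1 T5.l5) T5.l5)
  (TrL.c (I.pos (nat_lit 0) (nat_lit 0)) T0.l2
  (TrL.c (I.mix (nat_lit 29511666) (nat_lit 77433728)) T5.l4
  (TrL.c (I.mix (nat_lit 29511666) (nat_lit 46070178)) T0.l3
  TrL.n)))))))) (by decide +kernel)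
theorem bx2_2 : BoxOK sI cl7 cl6 cl13 t0 t5 b2_2 :=
  box_mk (TrL.c (I.pos (nat_lit 0) (nat_lit 0)) (xb T0.l4 (xa (xb T0.l4 T0.l4) T0.l4))
  (TrL.c (I.pos (nat_lit 0) (nat_lit 0)) T5.l1
  (TrL.c (I.pos (nat_lit 0) (nat_lit 111196574)) T0.l1
  (TrL.c (I.pos (nat_lit 0) (nat_lit 77433728)) T5.l2
  (TrL.c (I.pos (nat_lit 0) (nat_lit 0)) (xb (xk T5.l5 T5.l5) (xk T5.l5 T5.l5))
  (TrL.c (I.pos (nat_lit 0) (nat_lit 0)) T0.l2
  (TrL.c (I.mix (nat_lit 29511666) (nat_lit 77433728)) T5.l4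
  (TrL.c (I.mix (nat_lit 29511666) (nat_lit 46070178)) T0.l3
  TrL.n)))))))) (by decide +kernel)
theorem bx2_3 : BoxOK sI cl7 cl6 cl13 t0 t5 b2_3 :=
  box_mk (TrL.c (I.pos (nat_lit 0) (nat_lit 0)) (xa (xb (xa (xb T0.l4 T0.l4) T0.l4) T0.l4) T0.l4)
  (TrL.c (I.pos (nat_lit 0) (nat_lit 0)) (xa T5.l5 T5.l1)
  (TrL.c (I.pos (nat_lit 0) (nat_lit 111196574)) T0.l1
  (TrL.c (I.pos (nat_lit 0) (nat_lit 77433728)) T5.l4
  (TrL.c (I.pos (nat_lit 0) (nat_lit 0)) T5.l1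
  (TrL.c (I.pos (nat_lit 0) (nat_lit 0)) T0.l2
  (TrL.c (I.mix (nat_lit 29511666) (nat_lit 77433728)) T5.l4
  (TrL.c (I.mix (nat_lit 29511666) (nat_lit 46070178)) T0.l3
  TrL.n)))))))) (by decide +kernel)
theorem bx2_4 : BoxOK sI cl7 cl6 cl13 t0 t5 b2_4 :=
  box_mk (TrL.c (I.pos (nat_lit 0) (nat_lit 0)) (xa (xb T0.l4 T0.l4) (xb T0.l4 T0.l4))
  (TrL.c (I.pos (nat_lit 0) (nat_lit 0)) T5.l1
  (TrL.c (I.pos (nat_lit 0) (nat_lit 111196574)) T0.l1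
  (TrL.c (I.pos (nat_lit 0) (nat_lit 77433728)) T5.l2
  (TrL.c (I.pos (nat_lit 0) (nat_lit 0)) (xa (xb (xk T5.l5 T5.l5) T5.l5) (xk (xb (xa T5.l5 T5.l5) T5.l5) (xb T5.l5 T5.l5)))
  (TrL.c (I.pos (nat_lit 0) (nat_lit 0)) T0.l2
  (TrL.c (I.mix (nat_lit 29511666) (nat_lit 77433728)) (xR T5.l4 T5.l4)
  (TrL.c (I.mix (nat_lit 29511666) (nat_lit 46070178)) T0.l6
  TrL.n)))))))) (by decide +kernel)
theorem bx2_5 : BoxOK sI cl7 cl6 cl13 t0 t5 b2_5 :=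
  box_mk (TrL.c (I.pos (nat_lit 0) (nat_lit 0)) (xa (xb (xa (xb T0.l4 T0.l4) T0.l4) T0.l4) T0.l4)
  (TrL.c (I.pos (nat_lit 0) (nat_lit 0)) (xa T5.l5 T5.l1)
  (TrL.c (I.pos (nat_lit 0) (nat_lit 111196574)) T0.l1
  (TrL.c (I.pos (nat_lit 0) (nat_lit 77433728)) T5.l4
  (TrL.c (I.pos (nat_lit 0) (nat_lit 0)) (xa T5.l1 T5.l5)
  (TrL.c (I.pos (nat_lit 0) (nat_lit 0)) T0.l2
  (TrL.c (I.mix (nat_lit 29511666) (nat_lit 77433728)) T5.l4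
  (TrL.c (I.mix (nat_lit 29511666) (nat_lit 46070178)) T0.l3
  TrL.n)))))))) (by decide +kernel)
theorem bx2_6 : BoxOK sI cl7 cl6 cl13 t0 t5 b2_6 :=
  box_mk (TrL.c (I.pos (nat_lit 0) (nat_lit 0)) (xb (xa (xb T0.l9 T0.l9) (xb T0.l9 T0.l9)) (xa (xb (xa T0.l9 T0.l9) (xa T0.l9 T0.l9)) (xb (xa T0.l9 T0.l9) (xa T0.l9 T0.l9))))
  (TrL.c (I.pos (nat_lit 0) (nat_lit 0)) (xk (xb T5.l1 T5.l1) (xb T5.l1 T5.l1))
  (TrL.c (I.pos (nat_lit 0) (nat_lit 111196574)) (xR T0.l1 T0.l1)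
  (TrL.c (I.pos (nat_lit 0) (nat_lit 77433728)) (xR T5.l2 T5.l2)
  (TrL.c (I.pos (nat_lit 0) (nat_lit 0)) (xb (xk T5.l3 T5.l3) (xk T5.l3 (xa T5.l0 T5.l3)))
  (TrL.c (I.pos (nat_lit 0) (nat_lit 0)) T0.l2
  (TrL.c (I.mix (nat_lit 29511666) (nat_lit 77433728)) (xR T5.l4 T5.l4)
  (TrL.c (I.mix (nat_lit 29511666) (nat_lit 46070178)) T0.l6
  TrL.n)))))))) (by decide +kernel)
theorem bx2_7 : BoxOK sI cl7 cl6 cl13 t0 t5 b2_7 :=
  box_mk (TrL.c (I.pos (nat_lit 0) (nat_lit 0)) (xa (xb T0.l4 (xa (xa T0.l4 T0.l4) T0.l4)) (xa T0.l4 T0.l4))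
  (TrL.c (I.pos (nat_lit 0) (nat_lit 0)) (xa (xb T5.l5 T5.l1) T5.l1)
  (TrL.c (I.pos (nat_lit 0) (nat_lit 111196574)) T0.l1
  (TrL.c (I.pos (nat_lit 0) (nat_lit 77433728)) T5.l2
  (TrL.c (I.pos (nat_lit 0) (nat_lit 0)) (xa T5.l1 T5.l5)
  (TrL.c (I.pos (nat_lit 0) (nat_lit 0)) T0.l2
  (TrL.c (I.mix (nat_lit 29511666) (nat_lit 77433728)) T5.l4
  (TrL.c (I.mix (nat_lit 29511666) (nat_lit 46070178)) T0.l3
  TrL.n)))))))) (by decide +kernel)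
theorem bx2_8 : BoxOK sI cl7 cl6 cl13 t0 t5 b2_8 :=
  box_mk (TrL.c (I.pos (nat_lit 0) (nat_lit 0)) (xa (xb (xa T0.l0 T0.l0) (xa T0.l0 (xb T0.l0 T0.l0))) (xb (xa T0.l0 T0.l0) (xa (xb T0.l0 T0.l0) (xb T0.l0 T0.l0))))
  (TrL.c (I.pos (nat_lit 0) (nat_lit 0)) (xa (xb T5.l1 (xk T5.l1 T5.l1)) (xb T5.l7 (xk T5.l1 T5.l1)))
  (TrL.c (I.pos (nat_lit 0) (nat_lit 111196574)) (xR T0.l1 (xR T0.l1 T0.l8))
  (TrL.c (I.pos (nat_lit 0) (nat_lit 77433728)) (xR T5.l2 T5.l2)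
  (TrL.c (I.pos (nat_lit 0) (nat_lit 0)) (xa (xb (xk T5.l3 T5.l3) (xk T5.l3 (xa T5.l3 T5.l3))) (xb (xk (xa T5.l3 T5.l3) (xa T5.l3 T5.l3)) (xk (xa T5.l3 T5.l3) (xa T5.l3 T5.l3))))
  (TrL.c (I.pos (nat_lit 0) (nat_lit 0)) (xk (xb (xa T0.l2 T0.l5) (xa T0.l2 T0.l2)) (xb (xa T0.l2 T0.l2) (xa T0.l2 T0.l2)))
  (TrL.c (I.mix (nat_lit 29511666) (nat_lit 77433728)) (xR T5.l4 (xR T5.l4 (xR T5.l4 T5.l4)))
  (TrL.c (I.mix (nat_lit 29511666) (nat_lit 46070178)) T0.l6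
  TrL.n)))))))) (by decide +kernel)
theorem bx2_9 : BoxOK sI cl7 cl6 cl13 t0 t5 b2_9 :=
  box_mk (TrL.c (I.pos (nat_lit 0) (nat_lit 0)) (xa (xb T0.l9 (xa T0.l9 T0.l9)) T0.l0)
  (TrL.c (I.pos (nat_lit 0) (nat_lit 0)) T5.l1
  (TrL.c (I.pos (nat_lit 0) (nat_lit 111196574)) (xR T0.l1 T0.l1)
  (TrL.c (I.pos (nat_lit 0) (nat_lit 77433728)) T5.l2
  (TrL.c (I.pos (nat_lit 0) (nat_lit 0)) (xb (xk (xa (xb T5.l9 T5.l9) T5.l3) (xa T5.l9 T5.l3)) (xk (xa T5.l9 T5.l3) (xa T5.l9 T5.l3)))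
  (TrL.c (I.pos (nat_lit 0) (nat_lit 0)) T0.l2
  (TrL.c (I.mix (nat_lit 29511666) (nat_lit 77433728)) T5.l4
  (TrL.c (I.mix (nat_lit 29511666) (nat_lit 46070178)) T0.l3
  TrL.n)))))))) (by decide +kernel)
theorem bx2_10 : BoxOK sI cl7 cl6 cl13 t0 t5 b2_10 :=
  box_mk (TrL.c (I.pos (nat_lit 0) (nat_lit 0)) (xb (xa T0.l9 T0.l9) (xa (xb T0.l9 T0.l9) (xb T0.l9 T0.l9)))
  (TrL.c (I.pos (nat_lit 0) (nat_lit 0)) (xk T5.l1 T5.l1)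
  (TrL.c (I.pos (nat_lit 0) (nat_lit 111196574)) (xR T0.l1 T0.l1)
  (TrL.c (I.pos (nat_lit 0) (nat_lit 77433728)) (xR T5.l2 T5.l2)
  (TrL.c (I.pos (nat_lit 0) (nat_lit 0)) (xk T5.l3 (xb T5.l3 T5.l3))
  (TrL.c (I.pos (nat_lit 0) (nat_lit 0)) T0.l2
  (TrL.c (I.mix (nat_lit 29511666) (nat_lit 77433728)) (xR T5.l4 T5.l4)
  (TrL.c (I.mix (nat_lit 29511666) (nat_lit 46070178)) T0.l6
  TrL.n)))))))) (by decide +kernel)
theorem bx2_11 : BoxOK sI cl7 cl6 cl13 t0 t5 b2_11 :=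
  box_mk (TrL.c (I.pos (nat_lit 0) (nat_lit 0)) (xa (xb (xa T0.l0 T0.l0) (xa (xb T0.l0 T0.l0) (xb T0.l0 T0.l0))) (xb (xa T0.l0 T0.l0) (xa (xb T0.l0 T0.l0) (xb T0.l0 T0.l7))))
  (TrL.c (I.pos (nat_lit 0) (nat_lit 0)) (xk (xa T5.l1 T5.l7) (xa T5.l1 T5.l1))
  (TrL.c (I.pos (nat_lit 0) (nat_lit 111196574)) (xR T0.l1 T0.l1)
  (TrL.c (I.pos (nat_lit 0) (nat_lit 77433728)) (xR T5.l2 T5.l2)
  (TrL.c (I.pos (nat_lit 0) (nat_lit 0)) (xk (xa T5.l3 (xb T5.l3 (xb T5.l3 (xs T5.l3 T5.l3)))) (xa (xb T5.l3 (xk T5.l3 T5.l3)) (xb T5.l3 (xk (xb T5.l3 T5.l3) (xb T5.l3 (xs T5.l0 T5.l0))))))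
  (TrL.c (I.pos (nat_lit 0) (nat_lit 0)) T0.l2
  (TrL.c (I.mix (nat_lit 29511666) (nat_lit 77433728)) (xR T5.l4 T5.l4)
  (TrL.c (I.mix (nat_lit 29511666) (nat_lit 46070178)) T0.l6
  TrL.n)))))))) (by decide +kernel)
theorem sv2 : StarV sI cl7 cl6 cl13 t0 t5 t2 :=
  (bt_n (bt_n (bt_n (bt_b bx2_0) (bt_n (bt_b bx2_1) (bt_b bx2_2))) (bt_n (bt_b bx2_3) (bt_n (bt_b bx2_4) (bt_b bx2_5)))) (bt_n (bt_n (bt_b bx2_6) (bt_n (bt_b bx2_7) (bt_b bx2_8))) (bt_n (bt_b bx2_9) (bt_n (bt_b bx2_10) (bt_b bx2_11)))))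
def S2 : StarD := StarD.mk cl7 cl6 cl13 0 5 t2
theorem bx3_0 : BoxOK sI cl7 cl13 cl6 t5 t0 b3_0 :=
  box_mk (TrL.c (I.pos (nat_lit 0) (nat_lit 0)) (xa (xb (xa (xb T5.l0 T5.l0) (xb T5.l11 T5.l0)) (xa (xb T5.l0 T5.l0) (xb T5.l0 T5.l0))) (xa (xb (xb T5.l0 T5.l0) (xb T5.l0 T5.l0)) (xb (xb (xa T5.l0 T5.l0) (xa T5.l0 (xs T5.l0 T5.l0))) (xb (xs T5.l0 T5.l0) (xs T5.l0 T5.l0)))))
  (TrL.c (I.pos (nat_lit 0) (nat_lit 0)) (xa (xk (xb T0.l5 T0.l5) (xb T0.l5 T0.l5)) (xk (xb T0.l5 (xa T0.l5 T0.l5)) (xb T0.l5 T0.l5)))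
  (TrL.c (I.pos (nat_lit 0) (nat_lit 111196574)) (xR T5.l6 (xR T5.l6 T5.l6))
  (TrL.c (I.pos (nat_lit 0) (nat_lit 77433728)) (xR T0.l6 T0.l6)
  (TrL.c (I.pos (nat_lit 0) (nat_lit 0)) (xa (xk (xb T0.l7 T0.l7) (xb T0.l7 (xa T0.l7 T0.l7))) (xk (xb (xa T0.l7 T0.l7) (xa T0.l7 (xb T0.l7 (xk T0.l7 (xs T0.l7 T0.l7))))) (xb (xa T0.l7 T0.l7) (xa (xb T0.l11 T0.l11) (xb T0.l7 (xs (xk T0.l7 T0.l7) (xk (xb T0.l7 T0.l7) (xb T0.l7 (xa T0.l11 T0.l7)))))))))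
  (TrL.c (I.pos (nat_lit 0) (nat_lit 0)) (xk T5.l7 T5.l7)
  (TrL.c (I.mix (nat_lit 29511666) (nat_lit 77433728)) (xR T0.l8 T0.l8)
  (TrL.c (I.mix (nat_lit 29511666) (nat_lit 46070178)) (xR T5.l8 T5.l8)
  TrL.n)))))))) (by decide +kernel)
theorem bx3_1 : BoxOK sI cl7 cl13 cl6 t5 t0 b3_1 :=
  box_mk (TrL.c (I.pos (nat_lit 0) (nat_lit 0)) (xa (xb (xa T5.l10 T5.l10) T5.l10) T5.l0)
  (TrL.c (I.pos (nat_lit 0) (nat_lit 0)) (xa T0.l5 T0.l5)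
  (TrL.c (I.pos (nat_lit 0) (nat_lit 111196574)) (xR T5.l6 T5.l6)
  (TrL.c (I.pos (nat_lit 0) (nat_lit 77433728)) T0.l6
  (TrL.c (I.pos (nat_lit 0) (nat_lit 0)) (xa (xk (xb T0.l10 T0.l10) (xb T0.l10 T0.l10)) (xk (xb (xa T0.l10 T0.l10) T0.l10) (xb (xa T0.l10 T0.l10) T0.l10)))
  (TrL.c (I.pos (nat_lit 0) (nat_lit 0)) T5.l7
  (TrL.c (I.mix (nat_lit 29511666) (nat_lit 77433728)) (xR T0.l8 T0.l8)
  (TrL.c (I.mix (nat_lit 29511666) (nat_lit 46070178)) T5.l8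
  TrL.n)))))))) (by decide +kernel)
theorem bx3_2 : BoxOK sI cl7 cl13 cl6 t5 t0 b3_2 :=
  box_mk (TrL.c (I.pos (nat_lit 0) (nat_lit 0)) (xa (xa (xb T5.l10 T5.l10) T5.l10) T5.l10)
  (TrL.c (I.pos (nat_lit 0) (nat_lit 0)) (xa (xa T0.l5 T0.l5) T0.l5)
  (TrL.c (I.pos (nat_lit 0) (nat_lit 111196574)) T5.l6
  (TrL.c (I.pos (nat_lit 0) (nat_lit 77433728)) (xR T0.l6 T0.l6)
  (TrL.c (I.pos (nat_lit 0) (nat_lit 0)) (xa (xa T0.l5 T0.l10) T0.l10)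
  (TrL.c (I.pos (nat_lit 0) (nat_lit 0)) T5.l7
  (TrL.c (I.mix (nat_lit 29511666) (nat_lit 77433728)) T0.l8
  (TrL.c (I.mix (nat_lit 29511666) (nat_lit 46070178)) T5.l4
  TrL.n)))))))) (by decide +kernel)
theorem bx3_3 : BoxOK sI cl7 cl13 cl6 t5 t0 b3_3 :=
  box_mk (TrL.c (I.pos (nat_lit 0) (nat_lit 0)) (xb (xa (xb (xa T5.l11 T5.l11) T5.l11) (xb T5.l11 T5.l11)) (xa (xb (xa T5.l11 T5.l11) (xa T5.l11 T5.l11)) (xb (xa T5.l11 T5.l11) (xa T5.l11 T5.l11))))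
  (TrL.c (I.pos (nat_lit 0) (nat_lit 0)) (xb (xk T0.l5 T0.l5) (xk (xa T0.l5 T0.l5) (xa T0.l5 T0.l5)))
  (TrL.c (I.pos (nat_lit 0) (nat_lit 111196574)) (xR T5.l6 (xR T5.l6 T5.l6))
  (TrL.c (I.pos (nat_lit 0) (nat_lit 77433728)) (xR T0.l6 T0.l6)
  (TrL.c (I.pos (nat_lit 0) (nat_lit 0)) (xb (xk (xa T0.l11 (xb T0.l11 T0.l11)) (xa T0.l11 (xb T0.l11 T0.l11))) (xk (xa T0.l11 (xb T0.l11 T0.l11)) (xa (xb T0.l11 T0.l7) (xb T0.l11 (xb T0.l7 T0.l11)))))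
  (TrL.c (I.pos (nat_lit 0) (nat_lit 0)) T5.l7
  (TrL.c (I.mix (nat_lit 29511666) (nat_lit 77433728)) (xR T0.l8 T0.l8)
  (TrL.c (I.mix (nat_lit 29511666) (nat_lit 46070178)) (xR T5.l8 T5.l8)
  TrL.n)))))))) (by decide +kernel)
theorem bx3_4 : BoxOK sI cl7 cl13 cl6 t5 t0 b3_4 :=
  box_mk (TrL.c (I.pos (nat_lit 0) (nat_lit 0)) (xa (xa (xb T5.l10 (xa T5.l10 T5.l10)) (xb T5.l10 T5.l10)) (xa (xb T5.l10 (xa T5.l10 T5.l10)) (xb T5.l10 (xa T5.l10 T5.l10))))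
  (TrL.c (I.pos (nat_lit 0) (nat_lit 0)) (xa (xa (xb T0.l5 T0.l5) T0.l5) (xa T0.l5 T0.l5))
  (TrL.c (I.pos (nat_lit 0) (nat_lit 111196574)) T5.l6
  (TrL.c (I.pos (nat_lit 0) (nat_lit 77433728)) (xR T0.l6 T0.l6)
  (TrL.c (I.pos (nat_lit 0) (nat_lit 0)) (xa (xa (xb T0.l10 T0.l10) T0.l10) (xa T0.l10 T0.l10))
  (TrL.c (I.pos (nat_lit 0) (nat_lit 0)) T5.l7
  (TrL.c (I.mix (nat_lit 29511666) (nat_lit 77433728)) (xR T0.l8 T0.l8)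
  (TrL.c (I.mix (nat_lit 29511666) (nat_lit 46070178)) T5.l4
  TrL.n)))))))) (by decide +kernel)
theorem bx3_5 : BoxOK sI cl7 cl13 cl6 t5 t0 b3_5 :=
  box_mk (TrL.c (I.pos (nat_lit 0) (nat_lit 0)) (xa (xb T5.l0 T5.l0) T5.l0)
  (TrL.c (I.pos (nat_lit 0) (nat_lit 0)) (xa T0.l5 T0.l5)
  (TrL.c (I.pos (nat_lit 0) (nat_lit 111196574)) (xR T5.l6 T5.l6)
  (TrL.c (I.pos (nat_lit 0) (nat_lit 77433728)) T0.l6
  (TrL.c (I.pos (nat_lit 0) (nat_lit 0)) (xk (xa T0.l11 T0.l7) (xa T0.l11 T0.l7))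
  (TrL.c (I.pos (nat_lit 0) (nat_lit 0)) T5.l7
  (TrL.c (I.mix (nat_lit 29511666) (nat_lit 77433728)) (xR T0.l8 T0.l8)
  (TrL.c (I.mix (nat_lit 29511666) (nat_lit 46070178)) T5.l2
  TrL.n)))))))) (by decide +kernel)
theorem bx3_6 : BoxOK sI cl7 cl13 cl6 t5 t0 b3_6 :=
  box_mk (TrL.c (I.pos (nat_lit 0) (nat_lit 0)) (xa T5.l10 (xa T5.l10 T5.l10))
  (TrL.c (I.pos (nat_lit 0) (nat_lit 0)) (xa T0.l5 T0.l5)
  (TrL.c (I.pos (nat_lit 0) (nat_lit 111196574)) T5.l6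
  (TrL.c (I.pos (nat_lit 0) (nat_lit 77433728)) T0.l6
  (TrL.c (I.pos (nat_lit 0) (nat_lit 0)) T0.l10
  (TrL.c (I.pos (nat_lit 0) (nat_lit 0)) T5.l7
  (TrL.c (I.mix (nat_lit 29511666) (nat_lit 77433728)) (xR T0.l8 T0.l8)
  (TrL.c (I.mix (nat_lit 29511666) (nat_lit 46070178)) T5.l4
  TrL.n)))))))) (by decide +kernel)
theorem bx3_7 : BoxOK sI cl7 cl13 cl6 t5 t0 b3_7 :=
  box_mk (TrL.c (I.pos (nat_lit 0) (nat_lit 0)) (xb (xa (xb T5.l10 T5.l10) T5.l0) (xa (xb T5.l10 (xa T5.l10 T5.l10)) (xb T5.l10 T5.l10)))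
  (TrL.c (I.pos (nat_lit 0) (nat_lit 0)) (xb T0.l5 T0.l5)
  (TrL.c (I.pos (nat_lit 0) (nat_lit 111196574)) (xR T5.l6 T5.l6)
  (TrL.c (I.pos (nat_lit 0) (nat_lit 77433728)) T0.l6
  (TrL.c (I.pos (nat_lit 0) (nat_lit 0)) (xb (xk (xa T0.l10 T0.l10) (xa T0.l10 T0.l10)) (xk (xa T0.l10 T0.l11) (xa T0.l10 T0.l11)))
  (TrL.c (I.pos (nat_lit 0) (nat_lit 0)) T5.l7
  (TrL.c (I.mix (nat_lit 29511666) (nat_lit 77433728)) (xR T0.l8 T0.l8)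
  (TrL.c (I.mix (nat_lit 29511666) (nat_lit 46070178)) T5.l8
  TrL.n)))))))) (by decide +kernel)
theorem bx3_8 : BoxOK sI cl7 cl13 cl6 t5 t0 b3_8 :=
  box_mk (TrL.c (I.pos (nat_lit 0) (nat_lit 0)) T5.l10
  (TrL.c (I.pos (nat_lit 0) (nat_lit 0)) T0.l5
  (TrL.c (I.pos (nat_lit 0) (nat_lit 111196574)) T5.l6
  (TrL.c (I.pos (nat_lit 0) (nat_lit 77433728)) T0.l6
  (TrL.c (I.pos (nat_lit 0) (nat_lit 0)) T0.l10
  (TrL.c (I.pos (nat_lit 0) (nat_lit 0)) T5.l7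
  (TrL.c (I.mix (nat_lit 29511666) (nat_lit 77433728)) T0.l8
  (TrL.c (I.mix (nat_lit 29511666) (nat_lit 46070178)) T5.l4
  TrL.n)))))))) (by decide +kernel)
theorem bx3_9 : BoxOK sI cl7 cl13 cl6 t5 t0 b3_9 :=
  box_mk (TrL.c (I.pos (nat_lit 0) (nat_lit 0)) (xa (xb T5.l0 (xa T5.l0 T5.l0)) (xb (xa T5.l0 (xb T5.l0 T5.l0)) (xa T5.l0 (xb T5.l0 T5.l0))))
  (TrL.c (I.pos (nat_lit 0) (nat_lit 0)) (xa (xk T0.l5 T0.l5) (xk (xb T0.l5 (xa T0.l5 T0.l5)) (xb T0.l5 T0.l5)))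
  (TrL.c (I.pos (nat_lit 0) (nat_lit 111196574)) (xR T5.l4 (xR T5.l6 T5.l4))
  (TrL.c (I.pos (nat_lit 0) (nat_lit 77433728)) (xR T0.l6 (xR T0.l6 T0.l6))
  (TrL.c (I.pos (nat_lit 0) (nat_lit 0)) (xa (xb (xk T0.l7 T0.l7) (xk T0.l7 T0.l7)) (xb (xk (xa T0.l7 T0.l7) (xa T0.l7 T0.l7)) (xk (xa T0.l7 T0.l7) (xa T0.l7 T0.l7))))
  (TrL.c (I.pos (nat_lit 0) (nat_lit 0)) (xk (xa T5.l7 (xb T5.l7 T5.l7)) (xa T5.l7 (xb T5.l7 T5.l7)))
  (TrL.c (I.mix (nat_lit 29511666) (nat_lit 77433728)) (xR T0.l8 (xR T0.l8 (xR T0.l8 T0.l8)))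
  (TrL.c (I.mix (nat_lit 29511666) (nat_lit 46070178)) (xR T5.l8 T5.l2)
  TrL.n)))))))) (by decide +kernel)
theorem bx3_10 : BoxOK sI cl7 cl13 cl6 t5 t0 b3_10 :=
  box_mk (TrL.c (I.pos (nat_lit 0) (nat_lit 0)) (xa (xb (xa T5.l0 T5.l0) (xa (xb T5.l0 T5.l0) (xb T5.l0 T5.l0))) (xb (xa T5.l0 (xb T5.l0 T5.l0)) (xa (xs T5.l0 T5.l0) (xs T5.l0 T5.l0))))
  (TrL.c (I.pos (nat_lit 0) (nat_lit 0)) (xk (xa T0.l5 T0.l5) (xa T0.l5 T0.l5))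
  (TrL.c (I.pos (nat_lit 0) (nat_lit 111196574)) (xR T5.l6 (xR T5.l6 T5.l6))
  (TrL.c (I.pos (nat_lit 0) (nat_lit 77433728)) (xR T0.l6 T0.l6)
  (TrL.c (I.pos (nat_lit 0) (nat_lit 0)) (xk (xa T0.l7 (xb (xk T0.l7 T0.l7) T0.l7)) (xa T0.l7 (xb (xk T0.l7 T0.l7) T0.l7)))
  (TrL.c (I.pos (nat_lit 0) (nat_lit 0)) T5.l7
  (TrL.c (I.mix (nat_lit 29511666) (nat_lit 77433728)) (xR T0.l8 T0.l8)
  (TrL.c (I.mix (nat_lit 29511666) (nat_lit 46070178)) (xR T5.l8 T5.l8)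
  TrL.n)))))))) (by decide +kernel)
theorem bx3_11 : BoxOK sI cl7 cl13 cl6 t5 t0 b3_11 :=
  box_mk (TrL.c (I.pos (nat_lit 0) (nat_lit 0)) T5.l0
  (TrL.c (I.pos (nat_lit 0) (nat_lit 0)) T0.l5
  (TrL.c (I.pos (nat_lit 0) (nat_lit 111196574)) (xR T5.l6 T5.l6)
  (TrL.c (I.pos (nat_lit 0) (nat_lit 77433728)) T0.l6
  (TrL.c (I.pos (nat_lit 0) (nat_lit 0)) T0.l7
  (TrL.c (I.pos (nat_lit 0) (nat_lit 0)) T5.l7
  (TrL.c (I.mix (nat_lit 29511666) (nat_lit 77433728)) (xR T0.l8 T0.l8)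
  (TrL.c (I.mix (nat_lit 29511666) (nat_lit 46070178)) T5.l8
  TrL.n)))))))) (by decide +kernel)
theorem sv3 : StarV sI cl7 cl13 cl6 t5 t0 t3 :=
  (bt_n (bt_n (bt_n (bt_b bx3_0) (bt_n (bt_b bx3_1) (bt_b bx3_2))) (bt_n (bt_b bx3_3) (bt_n (bt_b bx3_4) (bt_b bx3_5)))) (bt_n (bt_n (bt_b bx3_6) (bt_n (bt_b bx3_7) (bt_b bx3_8))) (bt_n (bt_b bx3_9) (bt_n (bt_b bx3_10) (bt_b bx3_11)))))
def S3 : StarD := StarD.mk cl7 cl13 cl6 5 0 t3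
theorem bx4_0 : BoxOK sI cl13 cl6 cl7 t1 t3 b4_0 :=
  box_mk (TrL.c (I.pos (nat_lit 0) (nat_lit 0)) (xa (xb (xa (xb T1.l0 T1.l0) T1.l0) (xa (xb T1.l0 T1.l0) (xb T1.l0 T1.l0))) (xb (xa T1.l0 T1.l0) (xa (xb T1.l0 T1.l0) (xb T1.l0 T1.l0))))
  (TrL.c (I.pos (nat_lit 0) (nat_lit 0)) (xa (xk (xb T3.l1 T3.l1) T3.l1) (xk T3.l1 T3.l1))
  (TrL.c (I.pos (nat_lit 0) (nat_lit 134217730)) (xR T1.l1 T1.l8)
  (TrL.c (I.pos (nat_lit 0) (nat_lit 110514882)) (xR T3.l2 T3.l2)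
  (TrL.c (I.pos (nat_lit 0) (nat_lit 0)) (xa (xk T3.l3 (xb T3.l3 (xa T3.l3 T3.l3))) (xk (xb T3.l3 (xb T3.l3 T3.l3)) (xb T3.l3 (xa T3.l3 (xb T3.l3 T3.l3)))))
  (TrL.c (I.pos (nat_lit 0) (nat_lit 0)) (xk T1.l2 T1.l2)
  (TrL.c (I.mix (nat_lit 8088324) (nat_lit 110514882)) (xR T3.l4 (xR T3.l4 T3.l4))
  (TrL.c (I.mix (nat_lit 8088324) (nat_lit 89478486)) T1.l6
  TrL.n)))))))) (by decide +kernel)
theorem bx4_1 : BoxOK sI cl13 cl6 cl7 t1 t3 b4_1 :=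
  box_mk (TrL.c (I.pos (nat_lit 0) (nat_lit 0)) (xa (xb (xa T1.l4 T1.l0) (xa T1.l4 T1.l4)) (xb T1.l0 T1.l0))
  (TrL.c (I.pos (nat_lit 0) (nat_lit 0)) (xa T3.l1 T3.l1)
  (TrL.c (I.pos (nat_lit 0) (nat_lit 134217730)) (xR T1.l1 T1.l1)
  (TrL.c (I.pos (nat_lit 0) (nat_lit 110514882)) (xR T3.l2 T3.l2)
  (TrL.c (I.pos (nat_lit 0) (nat_lit 0)) (xa (xb (xk T3.l5 T3.l5) T3.l5) (xk (xb T3.l5 T3.l5) (xb T3.l5 T3.l5)))
  (TrL.c (I.pos (nat_lit 0) (nat_lit 0)) T1.l2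
  (TrL.c (I.mix (nat_lit 8088324) (nat_lit 110514882)) T3.l4
  (TrL.c (I.mix (nat_lit 8088324) (nat_lit 89478486)) T1.l3
  TrL.n)))))))) (by decide +kernel)
theorem bx4_2 : BoxOK sI cl13 cl6 cl7 t1 t3 b4_2 :=
  box_mk (TrL.c (I.pos (nat_lit 0) (nat_lit 0)) (xa (xb (xa (xb T1.l4 T1.l4) T1.l4) T1.l4) T1.l4)
  (TrL.c (I.pos (nat_lit 0) (nat_lit 0)) T3.l5
  (TrL.c (I.pos (nat_lit 0) (nat_lit 134217730)) T1.l1
  (TrL.c (I.pos (nat_lit 0) (nat_lit 110514882)) T3.l2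
  (TrL.c (I.pos (nat_lit 0) (nat_lit 0)) (xa T3.l5 T3.l5)
  (TrL.c (I.pos (nat_lit 0) (nat_lit 0)) T1.l2
  (TrL.c (I.mix (nat_lit 8088324) (nat_lit 110514882)) T3.l4
  (TrL.c (I.mix (nat_lit 8088324) (nat_lit 89478486)) T1.l1
  TrL.n)))))))) (by decide +kernel)
theorem bx4_3 : BoxOK sI cl13 cl6 cl7 t1 t3 b4_3 :=
  box_mk (TrL.c (I.pos (nat_lit 0) (nat_lit 0)) (xb (xa (xb T1.l11 T1.l11) (xb T1.l11 T1.l11)) (xa (xb (xa T1.l11 T1.l11) (xa T1.l11 T1.l11)) (xb (xa T1.l11 T1.l11) (xa T1.l11 T1.l0))))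
  (TrL.c (I.pos (nat_lit 0) (nat_lit 0)) (xk (xb T3.l1 T3.l1) (xb T3.l1 T3.l1))
  (TrL.c (I.pos (nat_lit 0) (nat_lit 134217730)) (xR T1.l1 T1.l8)
  (TrL.c (I.pos (nat_lit 0) (nat_lit 110514882)) (xR T3.l2 T3.l2)
  (TrL.c (I.pos (nat_lit 0) (nat_lit 0)) (xb (xk T3.l3 T3.l3) (xk T3.l3 (xa T3.l3 T3.l3)))
  (TrL.c (I.pos (nat_lit 0) (nat_lit 0)) T1.l2
  (TrL.c (I.mix (nat_lit 8088324) (nat_lit 110514882)) (xR T3.l4 T3.l4)
  (TrL.c (I.mix (nat_lit 8088324) (nat_lit 89478486)) T1.l6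
  TrL.n)))))))) (by decide +kernel)
theorem bx4_4 : BoxOK sI cl13 cl6 cl7 t1 t3 b4_4 :=
  box_mk (TrL.c (I.pos (nat_lit 0) (nat_lit 0)) (xa (xb T1.l4 (xa (xa T1.l4 T1.l4) T1.l4)) (xa T1.l4 T1.l4))
  (TrL.c (I.pos (nat_lit 0) (nat_lit 0)) (xa (xb T3.l5 T3.l1) T3.l1)
  (TrL.c (I.pos (nat_lit 0) (nat_lit 134217730)) T1.l1
  (TrL.c (I.pos (nat_lit 0) (nat_lit 110514882)) T3.l2
  (TrL.c (I.pos (nat_lit 0) (nat_lit 0)) (xa T3.l5 T3.l5)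
  (TrL.c (I.pos (nat_lit 0) (nat_lit 0)) T1.l2
  (TrL.c (I.mix (nat_lit 8088324) (nat_lit 110514882)) T3.l4
  (TrL.c (I.mix (nat_lit 8088324) (nat_lit 89478486)) T1.l1
  TrL.n)))))))) (by decide +kernel)
theorem bx4_5 : BoxOK sI cl13 cl6 cl7 t1 t3 b4_5 :=
  box_mk (TrL.c (I.pos (nat_lit 0) (nat_lit 0)) (xa (xa (xb (xa T1.l4 T1.l4) (xa T1.l4 T1.l4)) (xb T1.l4 T1.l4)) (xa T1.l4 (xb T1.l4 (xa T1.l4 T1.l4))))
  (TrL.c (I.pos (nat_lit 0) (nat_lit 0)) (xa T3.l1 T3.l1)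
  (TrL.c (I.pos (nat_lit 0) (nat_lit 134217730)) T1.l1
  (TrL.c (I.pos (nat_lit 0) (nat_lit 110514882)) T3.l2
  (TrL.c (I.pos (nat_lit 0) (nat_lit 0)) (xa T3.l5 T3.l5)
  (TrL.c (I.pos (nat_lit 0) (nat_lit 0)) T1.l2
  (TrL.c (I.mix (nat_lit 8088324) (nat_lit 110514882)) T3.l4
  (TrL.c (I.mix (nat_lit 8088324) (nat_lit 89478486)) T1.l3
  TrL.n)))))))) (by decide +kernel)
theorem bx4_6 : BoxOK sI cl13 cl6 cl7 t1 t3 b4_6 :=
  box_mk (TrL.c (I.pos (nat_lit 0) (nat_lit 0)) (xb (xa T1.l4 T1.l4) T1.l4)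
  (TrL.c (I.pos (nat_lit 0) (nat_lit 0)) T3.l1
  (TrL.c (I.pos (nat_lit 0) (nat_lit 134217730)) T1.l8
  (TrL.c (I.pos (nat_lit 0) (nat_lit 110514882)) T3.l2
  (TrL.c (I.pos (nat_lit 0) (nat_lit 0)) (xb (xk T3.l5 T3.l5) (xk T3.l5 T3.l5))
  (TrL.c (I.pos (nat_lit 0) (nat_lit 0)) T1.l2
  (TrL.c (I.mix (nat_lit 8088324) (nat_lit 110514882)) T3.l4
  (TrL.c (I.mix (nat_lit 8088324) (nat_lit 89478486)) T1.l3
  TrL.n)))))))) (by decide +kernel)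
theorem bx4_7 : BoxOK sI cl13 cl6 cl7 t1 t3 b4_7 :=
  box_mk (TrL.c (I.pos (nat_lit 0) (nat_lit 0)) (xa (xb (xa (xb T1.l4 T1.l4) T1.l4) T1.l4) T1.l4)
  (TrL.c (I.pos (nat_lit 0) (nat_lit 0)) T3.l5
  (TrL.c (I.pos (nat_lit 0) (nat_lit 134217730)) T1.l1
  (TrL.c (I.pos (nat_lit 0) (nat_lit 110514882)) T3.l4
  (TrL.c (I.pos (nat_lit 0) (nat_lit 0)) T3.l1
  (TrL.c (I.pos (nat_lit 0) (nat_lit 0)) T1.l2
  (TrL.c (I.mix (nat_lit 8088324) (nat_lit 110514882)) T3.l4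
  (TrL.c (I.mix (nat_lit 8088324) (nat_lit 89478486)) T1.l1
  TrL.n)))))))) (by decide +kernel)
theorem bx4_8 : BoxOK sI cl13 cl6 cl7 t1 t3 b4_8 :=
  box_mk (TrL.c (I.pos (nat_lit 0) (nat_lit 0)) (xa (xb T1.l11 T1.l0) T1.l0)
  (TrL.c (I.pos (nat_lit 0) (nat_lit 0)) T3.l1
  (TrL.c (I.pos (nat_lit 0) (nat_lit 134217730)) (xR T1.l1 T1.l1)
  (TrL.c (I.pos (nat_lit 0) (nat_lit 110514882)) (xR T3.l2 T3.l2)
  (TrL.c (I.pos (nat_lit 0) (nat_lit 0)) (xk (xb (xa T3.l5 T3.l3) T3.l3) (xb (xa T3.l5 T3.l3) T3.l3))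
  (TrL.c (I.pos (nat_lit 0) (nat_lit 0)) T1.l2
  (TrL.c (I.mix (nat_lit 8088324) (nat_lit 110514882)) T3.l4
  (TrL.c (I.mix (nat_lit 8088324) (nat_lit 89478486)) T1.l3
  TrL.n)))))))) (by decide +kernel)
theorem bx4_9 : BoxOK sI cl13 cl6 cl7 t1 t3 b4_9 :=
  box_mk (TrL.c (I.pos (nat_lit 0) (nat_lit 0)) (xa (xb (xa T1.l0 T1.l0) (xa (xb T1.l0 T1.l0) (xb T1.l0 T1.l0))) (xb (xa T1.l0 T1.l0) (xa (xb T1.l0 T1.l0) (xb T1.l0 T1.l0))))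
  (TrL.c (I.pos (nat_lit 0) (nat_lit 0)) (xa (xb T3.l1 (xk T3.l1 T3.l1)) (xk (xb T3.l1 T3.l1) T3.l1))
  (TrL.c (I.pos (nat_lit 0) (nat_lit 134217730)) (xR T1.l1 T1.l8)
  (TrL.c (I.pos (nat_lit 0) (nat_lit 110514882)) (xR T3.l2 (xR T3.l2 T3.l8))
  (TrL.c (I.pos (nat_lit 0) (nat_lit 0)) (xa (xb (xk T3.l3 (xa T3.l3 T3.l3)) (xk T3.l3 T3.l3)) (xb (xk (xa T3.l3 T3.l3) (xa T3.l3 T3.l3)) (xk (xa T3.l3 T3.l3) (xa T3.l3 T3.l3))))
  (TrL.c (I.pos (nat_lit 0) (nat_lit 0)) (xk (xa T1.l2 T1.l2) (xa T1.l2 T1.l2))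
  (TrL.c (I.mix (nat_lit 8088324) (nat_lit 110514882)) (xR T3.l4 (xR T3.l4 (xR T3.l4 T3.l4)))
  (TrL.c (I.mix (nat_lit 8088324) (nat_lit 89478486)) (xR T1.l3 T1.l3)
  TrL.n)))))))) (by decide +kernel)
theorem c4_10_0 : chkTag sI cl13 cl6 cl7 t1 b4_10 (tg true true false RT.r2) (I.pos (nat_lit 0) (nat_lit 0))
  (xa (xb (xa T1.l0 T1.l0) (xa (xb T1.l0 T1.l0) (xs T1.l0 T1.l0))) (xb (xa T1.l0 T1.l0) (xa (xs T1.l0 T1.l0) (xs T1.l0 T1.l0)))) = true := by decide +kernel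
theorem c4_10_1 : chkTag sI cl13 cl6 cl7 t3 b4_10 (tg true false false RT.r3) (I.pos (nat_lit 0) (nat_lit 0))
  (xk T3.l1 T3.l1) = true := by decide +kernel
theorem c4_10_2 : chkTag sI cl13 cl6 cl7 t1 b4_10 (Tag.mk true true false RT.tl RT.r4) (I.pos (nat_lit 0) (nat_lit 134217730))
  (xR T1.l1 T1.l8) = true := by decide +kernel
theorem c4_10_3 : chkTag sI cl13 cl6 cl7 t3 b4_10 (Tag.mk true false false RT.tl RT.r5) (I.pos (nat_lit 0) (nat_lit 110514882))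
  (xR T3.l2 T3.l2) = true := by decide +kernel
def rc4_10_4_l : Tr := (xb (xa T3.l3 (xb T3.l3 (xk T3.l0 T3.l0))) (xa (xb (xs T3.l0 T3.l0) (xs T3.l3 (xk T3.l0 (xa T3.l0 T3.l0)))) (xb (xs (xk T3.l0 T3.l0) (xk (xa T3.l0 T3.l0) (xa T3.l0 (xb T3.l3 T3.l3)))) (xs (xk (xa T3.l0 (xs T3.l0 T3.l0)) (xa T3.l0 (xs T3.l0 (xb T3.l0 T3.l0)))) (xk (xa (xb T3.l0 T3.l0) (xb (xs T3.l0 T3.l0) (xs (xe T3.l0 T3.l0) (xe T3.l0 T3.l0)))) (xa (xb T3.l0 (xs T3.l0 T3.l0)) (xb (xs T3.l0 (xe T3.l3 T3.l3)) (xs (xe T3.l0 T3.l0) (xe (xa T3.l0 T3.l0) (xa T3.l0 T3.l0))))))))))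
theorem qc4_10_4_l : chkTr (tg false false false RT.r3) b4_10 t3 rc4_10_4_l
  (upd lo Co.k (rc sI cl13 cl6 cl7 b4_10 (I.pos (nat_lit 0) (nat_lit 0)))) = true := by decide +kernel
def rc4_10_4_r : Tr := (xa (xb T3.l3 (xb (xs T3.l3 (xa T3.l3 T3.l0)) (xs (xa T3.l0 T3.l0) (xa (xk T3.l0 T3.l0) (xk T3.l0 (xb T3.l0 T3.l0)))))) (xb (xb T3.l3 (xa T3.l3 (xs T3.l0 (xk T3.l0 T3.l0)))) (xb (xs (xa T3.l0 (xk T3.l0 T3.l0)) (xa (xk T3.l0 T3.l0) (xk (xb T3.l0 (xs T3.l3 T3.l3)) (xb T3.l0 (xs T3.l0 (xe T3.l0 T3.l0)))))) (xs (xa (xk T3.l0 (xs T3.l0 T3.l0)) (xk (xs T3.l0 (xb T3.l0 (xe T3.l0 T3.l0))) (xs (xb T3.l0 (xe T3.l0 T3.l0)) (xb T3.l0 (xe (xa T3.l0 T3.l0) T3.l0))))) (xa (xk (xb T3.l0 (xs T3.l0 (xe T3.l0 T3.l0))) (xb (xs T3.l0 T3.l0) (xs T3.l0 (xe (xa T3.l11 T3.l0) T3.l0)))) (xk (xb (xs T3.l0 (xe T3.l0 T3.l0)) (xs (xe (xa T3.l0 T3.l0) (xa T3.l3 T3.l3))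 (xe (xa T3.l0 (xk T3.l0 T3.l0)) (xa T3.l0 (xk T3.l0 T3.l0))))) (xb (xs (xe T3.l0 T3.l0) (xe (xa T3.l0 T3.l0) (xa T3.l0 T3.l0))) (xs (xe (xa T3.l0 (xk T3.l3 T3.l3)) (xa T3.l0 (xk T3.l0 T3.l0))) (xe (xa (xk T3.l11 T3.l11) (xk (xs T3.l0 T3.l0) (xs T3.l0 T3.l11))) (xa (xk T3.l11 T3.l11) (xk T3.l0 T3.l11)))))))))))
theorem qc4_10_4_r : chkTr (tg false false false RT.r3) b4_10 t3 rc4_10_4_r
  (upd hi Co.k (rc sI cl13 cl6 cl7 b4_10 (I.pos (nat_lit 0) (nat_lit 0)))) = true := by decide +kernel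
theorem qc4_10_4_ : chkTr (tg false false false RT.r3) b4_10 t3 (Tr.N Co.k rc4_10_4_l rc4_10_4_r)
  (rc sI cl13 cl6 cl7 b4_10 (I.pos (nat_lit 0) (nat_lit 0))) = true := tr_split qc4_10_4_l qc4_10_4_r
theorem c4_10_4 : chkTag sI cl13 cl6 cl7 t3 b4_10 (tg false false false RT.r3) (I.pos (nat_lit 0) (nat_lit 0))
  (Tr.N Co.k rc4_10_4_l rc4_10_4_r) = true := tag_mk (by decide +kernel) qc4_10_4_
theorem c4_10_5 : chkTag sI cl13 cl6 cl7 t1 b4_10 (tg false true false RT.r4) (I.pos (nat_lit 0) (nat_lit 0))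
  T1.l2 = true := by decide +kernel
theorem c4_10_6 : chkTag sI cl13 cl6 cl7 t3 b4_10 (Tag.mk false false false RT.tl RT.r5) (I.mix (nat_lit 8088324) (nat_lit 110514882))
  (xR T3.l4 T3.l4) = true := by decide +kernel
theorem c4_10_7 : chkTag sI cl13 cl6 cl7 t1 b4_10 (Tag.mk false true false RT.tl RT.r6) (I.mix (nat_lit 8088324) (nat_lit 89478486))
  T1.l6 = true := by decide +kernel
theorem bx4_10 : BoxOK sI cl13 cl6 cl7 t1 t3 b4_10 :=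
  box_mk' [(tg true true false RT.r2), (tg true false false RT.r3), (Tag.mk true true false RT.tl RT.r4), (Tag.mk true false false RT.tl RT.r5), (tg false false false RT.r3), (tg false true false RT.r4), (Tag.mk false false false RT.tl RT.r5), (Tag.mk false true false RT.tl RT.r6)] rfl (allL_c (ex_mk c4_10_0) (allL_c (ex_mk c4_10_1) (allL_c (ex_mk c4_10_2) (allL_c (ex_mk c4_10_3) (allL_c (ex_mk c4_10_4) (allL_c (ex_mk c4_10_5) (allL_c (ex_mk c4_10_6) (allL_c (ex_mk c4_10_7) allL_n))))))))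
theorem bx4_11 : BoxOK sI cl13 cl6 cl7 t1 t3 b4_11 :=
  box_mk (TrL.c (I.pos (nat_lit 0) (nat_lit 0)) (xb (xa T1.l11 T1.l11) (xa (xb T1.l11 T1.l11) T1.l11))
  (TrL.c (I.pos (nat_lit 0) (nat_lit 0)) T3.l1
  (TrL.c (I.pos (nat_lit 0) (nat_lit 134217730)) (xR T1.l1 T1.l8)
  (TrL.c (I.pos (nat_lit 0) (nat_lit 110514882)) (xR T3.l2 T3.l2)
  (TrL.c (I.pos (nat_lit 0) (nat_lit 0)) (xk T3.l3 (xb T3.l3 T3.l3))
  (TrL.c (I.pos (nat_lit 0) (nat_lit 0)) T1.l2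
  (TrL.c (I.mix (nat_lit 8088324) (nat_lit 110514882)) (xR T3.l4 T3.l4)
  (TrL.c (I.mix (nat_lit 8088324) (nat_lit 89478486)) T1.l6
  TrL.n)))))))) (by decide +kernel)
theorem sv4 : StarV sI cl13 cl6 cl7 t1 t3 t4 :=
  (bt_n (bt_n (bt_n (bt_b bx4_0) (bt_n (bt_b bx4_1) (bt_b bx4_2))) (bt_n (bt_b bx4_3) (bt_n (bt_b bx4_4) (bt_b bx4_5)))) (bt_n (bt_n (bt_b bx4_6) (bt_n (bt_b bx4_7) (bt_b bx4_8))) (bt_n (bt_b bx4_9) (bt_n (bt_b bx4_10) (bt_b bx4_11)))))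
def S4 : StarD := StarD.mk cl13 cl6 cl7 1 3 t4
theorem c5_0_0 : chkTag sI cl13 cl7 cl6 t3 b5_0 (tg true true false RT.r2) (I.pos (nat_lit 0) (nat_lit 0))
  (xa (xb (xa (xb T3.l0 T3.l0) (xb T3.l0 T3.l0)) (xa (xb T3.l0 T3.l0) (xb T3.l0 T3.l0))) (xb (xa (xb T3.l0 T3.l0) (xb (xa T3.l0 T3.l0) (xs T3.l0 T3.l0))) (xa (xb T3.l0 T3.l0) (xb (xs T3.l0 T3.l0) (xs T3.l0 T3.l0))))) = true := by decide +kernel
theorem c5_0_1 : chkTag sI cl13 cl7 cl6 t1 b5_0 (tg true false false RT.r3) (I.pos (nat_lit 0) (nat_lit 0))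
  (xa (xk (xb T1.l5 T1.l5) (xb T1.l5 T1.l5)) (xk (xb T1.l5 T1.l5) (xb T1.l5 T1.l5))) = true := by decide +kernel
theorem c5_0_2 : chkTag sI cl13 cl7 cl6 t3 b5_0 (Tag.mk true true false RT.tl RT.r4) (I.pos (nat_lit 0) (nat_lit 134217730))
  (xR T3.l4 (xR T3.l4 T3.l6)) = true := by decide +kernel
theorem c5_0_3 : chkTag sI cl13 cl7 cl6 t1 b5_0 (Tag.mk true false false RT.tl RT.r5) (I.pos (nat_lit 0) (nat_lit 110514882))
  (xR T1.l6 T1.l6) = true := by decide +kernel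
def rc5_0_4_l : Tr := (xk (xb T1.l7 (xb T1.l7 (xa T1.l7 (xs T1.l7 T1.l7)))) (xb (xa T1.l7 T1.l7) (xa T1.l7 (xb T1.l7 (xs T1.l7 (xb T1.l7 T1.l7))))))
theorem qc5_0_4_l : chkTr (tg false false false RT.r3) b5_0 t1 rc5_0_4_l
  (upd lo Co.a (rc sI cl13 cl7 cl6 b5_0 (I.pos (nat_lit 0) (nat_lit 0)))) = true := by decide +kernel
def rc5_0_4_rl : Tr := (xb (xa T1.l7 (xb T1.l7 T1.l7)) (xa (xb T1.l7 (xs T1.l7 (xk (xb T1.l7 T1.l7) (xb T1.l7 (xa T1.l7 T1.l7))))) (xb (xs T1.l7 (xk T1.l7 (xb T1.l7 T1.l7))) (xs (xk (xb T1.l7 (xa T1.l7 T1.l7)) (xb T1.l7 (xa T1.l7 (xs T1.l7 T1.l7)))) (xk (xb (xa T1.l7 T1.l7) (xa T1.l7 (xd (xs T1.l7 T1.l7) (xs T1.l7 T1.l7)))) (xb (xa T1.l7 (xd T1.l7 T1.l7)) (xa (xd T1.l7 T1.l7) (xd (xs T1.l7 (xk T1.l7 T1.l7)) (xs T1.l7 (xk T1.l7 T1.l7))))))))))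
theorem qc5_0_4_rl : chkTr (tg false false false RT.r3) b5_0 t1 rc5_0_4_rl
  (upd lo Co.k (upd hi Co.a (rc sI cl13 cl7 cl6 b5_0 (I.pos (nat_lit 0) (nat_lit 0))))) = true := by decide +kernel
def rc5_0_4_rr : Tr := (xb (xa T1.l7 (xb T1.l7 (xk T1.l7 T1.l7))) (xa (xb (xs T1.l7 T1.l7) (xs (xk T1.l7 (xb T1.l7 T1.l7)) (xb (xk T1.l7 T1.l7) (xk (xa T1.l7 T1.l7) (xa T1.l7 (xd T1.l7 T1.l7)))))) (xb (xs (xk T1.l7 T1.l7) (xk (xb T1.l7 (xa T1.l7 T1.l7)) (xb T1.l7 (xa T1.l7 T1.l7)))) (xs (xk (xb T1.l7 (xa T1.l7 (xs T1.l7 (xd T1.l7 T1.l7)))) (xb (xa T1.l7 T1.l7) (xa (xs T1.l7 T1.l7) (xs T1.l7 (xd T1.l7 T1.l7))))) (xk (xb (xa T1.l7 (xd T1.l7 (xs T1.l7 T1.l7))) (xa (xd (xs T1.l7 T1.l7) (xs T1.l7 T1.l7)) (xd (xs T1.l7 (xk T1.l7 (xb T1.l7 T1.l7))) (xs (xk T1.l7 T1.l7) (xk (xb T1.l7 T1.l7) (xb T1.l7 T1.l7)))))) (xb (xa (xd T1.l7 T1.l7) (xd (xs T1.l7 T1.l7)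 (xs T1.l7 T1.l7))) (xa (xd (xs T1.l7 (xk T1.l7 T1.l7)) (xs T1.l7 (xk T1.l7 T1.l7))) (xd (xs (xk T1.l7 T1.l7) (xk (xb T1.l7 (xa T1.l7 T1.l7)) (xb T1.l7 (xa T1.l7 T1.l7)))) (xs (xk T1.l7 (xa T1.l7 T1.l7)) (xk (xb T1.l7 (xa T1.l7 T1.l7)) (xb T1.l7 (xa T1.l7 T1.l7))))))))))))
theorem qc5_0_4_rr : chkTr (tg false false false RT.r3) b5_0 t1 rc5_0_4_rr
  (upd hi Co.k (upd hi Co.a (rc sI cl13 cl7 cl6 b5_0 (I.pos (nat_lit 0) (nat_lit 0))))) = true := by decide +kernel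
theorem qc5_0_4_r : chkTr (tg false false false RT.r3) b5_0 t1 (Tr.N Co.k rc5_0_4_rl rc5_0_4_rr)
  (upd hi Co.a (rc sI cl13 cl7 cl6 b5_0 (I.pos (nat_lit 0) (nat_lit 0)))) = true := tr_split qc5_0_4_rl qc5_0_4_rr
theorem qc5_0_4_ : chkTr (tg false false false RT.r3) b5_0 t1 (Tr.N Co.a rc5_0_4_l (Tr.N Co.k rc5_0_4_rl rc5_0_4_rr))
  (rc sI cl13 cl7 cl6 b5_0 (I.pos (nat_lit 0) (nat_lit 0))) = true := tr_split qc5_0_4_l qc5_0_4_r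
theorem c5_0_4 : chkTag sI cl13 cl7 cl6 t1 b5_0 (tg false false false RT.r3) (I.pos (nat_lit 0) (nat_lit 0))
  (Tr.N Co.a rc5_0_4_l (Tr.N Co.k rc5_0_4_rl rc5_0_4_rr)) = true := tag_mk (by decide +kernel) qc5_0_4_
theorem c5_0_5 : chkTag sI cl13 cl7 cl6 t3 b5_0 (tg false true false RT.r4) (I.pos (nat_lit 0) (nat_lit 0))
  (xb T3.l7 T3.l7) = true := by decide +kernel
theorem c5_0_6 : chkTag sI cl13 cl7 cl6 t1 b5_0 (Tag.mk false false false RT.tl RT.r5) (I.mix (nat_lit 8088324) (nat_lit 110514882))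
  (xR T1.l8 (xR T1.l8 T1.l8)) = true := by decide +kernel
theorem c5_0_7 : chkTag sI cl13 cl7 cl6 t3 b5_0 (Tag.mk false true false RT.tl RT.r6) (I.mix (nat_lit 8088324) (nat_lit 89478486))
  (xR T3.l2 T3.l8) = true := by decide +kernel
theorem bx5_0 : BoxOK sI cl13 cl7 cl6 t3 t1 b5_0 :=
  box_mk' [(tg true true false RT.r2), (tg true false false RT.r3), (Tag.mk true true false RT.tl RT.r4), (Tag.mk true false false RT.tl RT.r5), (tg false false false RT.r3), (tg false true false RT.r4), (Tag.mk false false false RT.tl RT.r5), (Tag.mk false true false RT.tl RT.r6)] rfl (allL_c (ex_mk c5_0_0) (allL_c (ex_mk c5_0_1) (allL_c (ex_mk c5_0_2) (allL_c (ex_mk c5_0_3) (allL_c (ex_mk c5_0_4) (allL_c (ex_mk c5_0_5) (allL_c (ex_mk c5_0_6) (allL_c (ex_mk c5_0_7) allL_n))))))))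
theorem bx5_1 : BoxOK sI cl13 cl7 cl6 t3 t1 b5_1 :=
  box_mk (TrL.c (I.pos (nat_lit 0) (nat_lit 0)) (xa (xb (xa T3.l9 T3.l9) (xa T3.l9 T3.l9)) (xb T3.l0 T3.l0))
  (TrL.c (I.pos (nat_lit 0) (nat_lit 0)) (xa T1.l5 T1.l5)
  (TrL.c (I.pos (nat_lit 0) (nat_lit 134217730)) (xR T3.l4 T3.l4)
  (TrL.c (I.pos (nat_lit 0) (nat_lit 110514882)) T1.l6
  (TrL.c (I.pos (nat_lit 0) (nat_lit 0)) (xa (xb (xk T1.l9 T1.l9) T1.l9) (xk (xb (xa T1.l9 T1.l9) T1.l9) (xb (xa T1.l9 T1.l9) T1.l9)))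
  (TrL.c (I.pos (nat_lit 0) (nat_lit 0)) T3.l7
  (TrL.c (I.mix (nat_lit 8088324) (nat_lit 110514882)) T1.l8
  (TrL.c (I.mix (nat_lit 8088324) (nat_lit 89478486)) T3.l2
  TrL.n)))))))) (by decide +kernel)
theorem bx5_2 : BoxOK sI cl13 cl7 cl6 t3 t1 b5_2 :=
  box_mk (TrL.c (I.pos (nat_lit 0) (nat_lit 0)) (xa (xa (xb T3.l9 T3.l9) T3.l9) (xa T3.l9 T3.l9))
  (TrL.c (I.pos (nat_lit 0) (nat_lit 0)) (xa T1.l5 T1.l5)
  (TrL.c (I.pos (nat_lit 0) (nat_lit 134217730)) (xR T3.l2 (xR T3.l6 T3.l6))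
  (TrL.c (I.pos (nat_lit 0) (nat_lit 110514882)) T1.l8
  (TrL.c (I.pos (nat_lit 0) (nat_lit 0)) (xa T1.l5 T1.l9)
  (TrL.c (I.pos (nat_lit 0) (nat_lit 0)) T3.l7
  (TrL.c (I.mix (nat_lit 8088324) (nat_lit 110514882)) T1.l8
  (TrL.c (I.mix (nat_lit 8088324) (nat_lit 89478486)) T3.l2
  TrL.n)))))))) (by decide +kernel)
theorem bx5_3 : BoxOK sI cl13 cl7 cl6 t3 t1 b5_3 :=
  box_mk (TrL.c (I.pos (nat_lit 0) (nat_lit 0)) (xb (xa (xb (xa T3.l10 T3.l10) (xa T3.l10 T3.l10)) (xb (xa (xb T3.l0 T3.l0) T3.l0) (xa T3.l10 T3.l10))) (xa (xb (xa T3.l10 T3.l10) (xa T3.l10 T3.l10)) (xb (xa T3.l10 T3.l10) (xa T3.l10 T3.l10))))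
  (TrL.c (I.pos (nat_lit 0) (nat_lit 0)) (xb (xk T1.l5 T1.l5) (xk (xa T1.l5 T1.l5) (xa T1.l5 T1.l5)))
  (TrL.c (I.pos (nat_lit 0) (nat_lit 134217730)) (xR T3.l4 (xR T3.l4 T3.l6))
  (TrL.c (I.pos (nat_lit 0) (nat_lit 110514882)) (xR T1.l6 T1.l6)
  (TrL.c (I.pos (nat_lit 0) (nat_lit 0)) (xb (xk (xa T1.l10 (xb T1.l10 T1.l7)) (xa T1.l10 (xb T1.l10 T1.l10))) (xk (xa (xb T1.l7 T1.l7) (xb T1.l7 (xs (xa T1.l7 T1.l7) (xb T1.l7 (xa T1.l7 (xk T1.l7 T1.l7)))))) (xa (xb T1.l7 (xs T1.l7 (xb T1.l7 T1.l7))) (xb (xa T1.l7 T1.l7) (xs (xa T1.l7 (xb T1.l7 T1.l7)) (xa (xb T1.l7 T1.l7) (xb T1.l7 (xk T1.l7 (xd T1.l7 T1.l7)))))))))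
  (TrL.c (I.pos (nat_lit 0) (nat_lit 0)) T3.l7
  (TrL.c (I.mix (nat_lit 8088324) (nat_lit 110514882)) (xR T1.l8 T1.l8)
  (TrL.c (I.mix (nat_lit 8088324) (nat_lit 89478486)) (xR T3.l2 T3.l8)
  TrL.n)))))))) (by decide +kernel)
theorem bx5_4 : BoxOK sI cl13 cl7 cl6 t3 t1 b5_4 :=
  box_mk (TrL.c (I.pos (nat_lit 0) (nat_lit 0)) (xa (xa (xb (xa T3.l9 T3.l9) (xa T3.l9 T3.l9)) (xb T3.l9 T3.l9)) (xa (xb T3.l9 T3.l9) (xb T3.l9 (xa T3.l9 T3.l9))))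
  (TrL.c (I.pos (nat_lit 0) (nat_lit 0)) (xa T1.l5 (xa T1.l5 T1.l5))
  (TrL.c (I.pos (nat_lit 0) (nat_lit 134217730)) (xR T3.l2 (xR T3.l6 T3.l6))
  (TrL.c (I.pos (nat_lit 0) (nat_lit 110514882)) (xR T1.l6 T1.l6)
  (TrL.c (I.pos (nat_lit 0) (nat_lit 0)) (xa (xa T1.l9 T1.l9) T1.l9)
  (TrL.c (I.pos (nat_lit 0) (nat_lit 0)) T3.l7
  (TrL.c (I.mix (nat_lit 8088324) (nat_lit 110514882)) T1.l8
  (TrL.c (I.mix (nat_lit 8088324) (nat_lit 89478486)) T3.l2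
  TrL.n)))))))) (by decide +kernel)
theorem bx5_5 : BoxOK sI cl13 cl7 cl6 t3 t1 b5_5 :=
  box_mk (TrL.c (I.pos (nat_lit 0) (nat_lit 0)) (xa T3.l0 T3.l10)
  (TrL.c (I.pos (nat_lit 0) (nat_lit 0)) T1.l5
  (TrL.c (I.pos (nat_lit 0) (nat_lit 134217730)) (xR T3.l4 T3.l4)
  (TrL.c (I.pos (nat_lit 0) (nat_lit 110514882)) T1.l6
  (TrL.c (I.pos (nat_lit 0) (nat_lit 0)) (xa (xk T1.l9 T1.l9) (xk T1.l10 T1.l7))
  (TrL.c (I.pos (nat_lit 0) (nat_lit 0)) T3.l7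
  (TrL.c (I.mix (nat_lit 8088324) (nat_lit 110514882)) T1.l8
  (TrL.c (I.mix (nat_lit 8088324) (nat_lit 89478486)) T3.l2
  TrL.n)))))))) (by decide +kernel)
theorem bx5_6 : BoxOK sI cl13 cl7 cl6 t3 t1 b5_6 :=
  box_mk (TrL.c (I.pos (nat_lit 0) (nat_lit 0)) (xa (xa (xb T3.l9 (xa T3.l9 T3.l9)) T3.l9) (xa (xb T3.l9 T3.l9) (xa T3.l9 (xb T3.l9 T3.l9))))
  (TrL.c (I.pos (nat_lit 0) (nat_lit 0)) (xa T1.l5 (xa T1.l5 T1.l5))
  (TrL.c (I.pos (nat_lit 0) (nat_lit 134217730)) (xR T3.l2 (xR T3.l6 T3.l6))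
  (TrL.c (I.pos (nat_lit 0) (nat_lit 110514882)) T1.l6
  (TrL.c (I.pos (nat_lit 0) (nat_lit 0)) (xa T1.l9 T1.l9)
  (TrL.c (I.pos (nat_lit 0) (nat_lit 0)) T3.l7
  (TrL.c (I.mix (nat_lit 8088324) (nat_lit 110514882)) T1.l8
  (TrL.c (I.mix (nat_lit 8088324) (nat_lit 89478486)) T3.l2
  TrL.n)))))))) (by decide +kernel)
theorem bx5_7 : BoxOK sI cl13 cl7 cl6 t3 t1 b5_7 :=
  box_mk (TrL.c (I.pos (nat_lit 0) (nat_lit 0)) (xb (xa (xb T3.l9 T3.l9) (xb T3.l0 T3.l9)) (xa (xb T3.l9 T3.l9) (xb T3.l9 T3.l9)))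
  (TrL.c (I.pos (nat_lit 0) (nat_lit 0)) (xb T1.l5 T1.l5)
  (TrL.c (I.pos (nat_lit 0) (nat_lit 134217730)) (xR T3.l2 T3.l4)
  (TrL.c (I.pos (nat_lit 0) (nat_lit 110514882)) T1.l6
  (TrL.c (I.pos (nat_lit 0) (nat_lit 0)) (xb (xa (xk T1.l9 T1.l9) (xk T1.l9 T1.l9)) (xk (xa T1.l9 T1.l9) T1.l9))
  (TrL.c (I.pos (nat_lit 0) (nat_lit 0)) T3.l7
  (TrL.c (I.mix (nat_lit 8088324) (nat_lit 110514882)) T1.l8
  (TrL.c (I.mix (nat_lit 8088324) (nat_lit 89478486)) T3.l2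
  TrL.n)))))))) (by decide +kernel)
theorem bx5_8 : BoxOK sI cl13 cl7 cl6 t3 t1 b5_8 :=
  box_mk (TrL.c (I.pos (nat_lit 0) (nat_lit 0)) T3.l9
  (TrL.c (I.pos (nat_lit 0) (nat_lit 0)) (xa T1.l5 T1.l5)
  (TrL.c (I.pos (nat_lit 0) (nat_lit 134217730)) (xR T3.l2 T3.l6)
  (TrL.c (I.pos (nat_lit 0) (nat_lit 110514882)) T1.l6
  (TrL.c (I.pos (nat_lit 0) (nat_lit 0)) (xa T1.l9 T1.l9)
  (TrL.c (I.pos (nat_lit 0) (nat_lit 0)) T3.l7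
  (TrL.c (I.mix (nat_lit 8088324) (nat_lit 110514882)) T1.l8
  (TrL.c (I.mix (nat_lit 8088324) (nat_lit 89478486)) T3.l2
  TrL.n)))))))) (by decide +kernel)
theorem bx5_9 : BoxOK sI cl13 cl7 cl6 t3 t1 b5_9 :=
  box_mk (TrL.c (I.pos (nat_lit 0) (nat_lit 0)) T3.l0
  (TrL.c (I.pos (nat_lit 0) (nat_lit 0)) T1.l5
  (TrL.c (I.pos (nat_lit 0) (nat_lit 134217730)) (xR T3.l4 T3.l4)
  (TrL.c (I.pos (nat_lit 0) (nat_lit 110514882)) T1.l6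
  (TrL.c (I.pos (nat_lit 0) (nat_lit 0)) (xk T1.l10 T1.l10)
  (TrL.c (I.pos (nat_lit 0) (nat_lit 0)) T3.l7
  (TrL.c (I.mix (nat_lit 8088324) (nat_lit 110514882)) T1.l8
  (TrL.c (I.mix (nat_lit 8088324) (nat_lit 89478486)) T3.l2
  TrL.n)))))))) (by decide +kernel)
theorem bx5_10 : BoxOK sI cl13 cl7 cl6 t3 t1 b5_10 :=
  box_mk (TrL.c (I.pos (nat_lit 0) (nat_lit 0)) (xa (xb T3.l0 (xa T3.l0 T3.l0)) (xb T3.l0 (xa T3.l0 T3.l0)))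
  (TrL.c (I.pos (nat_lit 0) (nat_lit 0)) (xa (xk (xb T1.l5 T1.l5) T1.l5) (xk (xb T1.l2 T1.l2) (xb T1.l5 T1.l2)))
  (TrL.c (I.pos (nat_lit 0) (nat_lit 134217730)) (xR T3.l4 T3.l4)
  (TrL.c (I.pos (nat_lit 0) (nat_lit 110514882)) (xR T1.l6 (xR T1.l6 T1.l6))
  (TrL.c (I.pos (nat_lit 0) (nat_lit 0)) (xa (xk (xb T1.l7 T1.l7) (xb T1.l7 T1.l7)) (xb (xk (xa T1.l7 T1.l7) (xa T1.l7 T1.l7)) (xk (xa T1.l7 T1.l7) (xa T1.l7 (xb T1.l7 T1.l7)))))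
  (TrL.c (I.pos (nat_lit 0) (nat_lit 0)) (xk (xa T3.l7 T3.l7) (xa T3.l7 T3.l7))
  (TrL.c (I.mix (nat_lit 8088324) (nat_lit 110514882)) (xR T1.l8 (xR T1.l8 (xR T1.l8 T1.l8)))
  (TrL.c (I.mix (nat_lit 8088324) (nat_lit 89478486)) (xR T3.l2 T3.l8)
  TrL.n)))))))) (by decide +kernel)
theorem bx5_11 : BoxOK sI cl13 cl7 cl6 t3 t1 b5_11 :=
  box_mk (TrL.c (I.pos (nat_lit 0) (nat_lit 0)) (xa (xb (xa (xb T3.l0 T3.l0) (xb T3.l0 T3.l0)) (xa (xb T3.l0 T3.l0) (xs T3.l0 (xb T3.l0 T3.l0)))) (xb (xa (xb (xs T3.l0 T3.l0) (xs T3.l0 T3.l0)) (xb (xs T3.l0 (xa T3.l0 T3.l3)) (xs T3.l0 T3.l0))) (xa (xs T3.l0 (xb T3.l0 T3.l0)) (xs T3.l0 (xb T3.l0 T3.l0)))))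
  (TrL.c (I.pos (nat_lit 0) (nat_lit 0)) (xk (xa T1.l5 T1.l5) (xa T1.l5 T1.l5))
  (TrL.c (I.pos (nat_lit 0) (nat_lit 134217730)) (xR T3.l4 (xR T3.l4 T3.l6))
  (TrL.c (I.pos (nat_lit 0) (nat_lit 110514882)) (xR T1.l6 T1.l6)
  (TrL.c (I.pos (nat_lit 0) (nat_lit 0)) (xk (xa (xb T1.l7 T1.l7) (xb T1.l7 (xb (xa T1.l7 T1.l7) (xs T1.l7 (xa T1.l7 (xk T1.l7 T1.l7)))))) (xa (xb T1.l7 (xb T1.l7 T1.l7)) (xb (xb T1.l7 T1.l7) (xb (xa T1.l7 (xs T1.l7 T1.l7)) (xs (xa T1.l7 T1.l7) (xa T1.l7 (xk T1.l7 (xd T1.l7 T1.l7))))))))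
  (TrL.c (I.pos (nat_lit 0) (nat_lit 0)) T3.l7
  (TrL.c (I.mix (nat_lit 8088324) (nat_lit 110514882)) (xR T1.l8 T1.l8)
  (TrL.c (I.mix (nat_lit 8088324) (nat_lit 89478486)) (xR T3.l2 T3.l8)
  TrL.n)))))))) (by decide +kernel)
theorem sv5 : StarV sI cl13 cl7 cl6 t3 t1 t5 :=
  (bt_n (bt_n (bt_n (bt_b bx5_0) (bt_n (bt_b bx5_1) (bt_b bx5_2))) (bt_n (bt_b bx5_3) (bt_n (bt_b bx5_4) (bt_b bx5_5)))) (bt_n (bt_n (bt_b bx5_6) (bt_n (bt_b bx5_7) (bt_b bx5_8))) (bt_n (bt_b bx5_9) (bt_n (bt_b bx5_10) (bt_b bx5_11)))))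
def S5 : StarD := StarD.mk cl13 cl7 cl6 3 1 t5
def G : List StarD := [S0, S1, S2, S3, S4, S5]
theorem so0 : StarOK sI G S0 :=
  star_mk (by decide) (by decide) rfl rfl rfl rfl rfl rfl (rfl : _ = t2) (rfl : _ = t4)
  (st_mk (Pth.l (Pth.l (Pth.l Pth.z))) (nat_lit 142288828) (nat_lit 164830205) (by decide +kernel))
  (st_mk (Pth.l (Pth.l (Pth.l Pth.z))) (nat_lit 178473556) (nat_lit 201351349) (by decide +kernel))
  (st_mk (Pth.l (Pth.l (Pth.l Pth.z))) (nat_lit 220598532) (nat_lit 243925604) (by decide +kernel)) sv0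
theorem so1 : StarOK sI G S1 :=
  star_mk (by decide) (by decide) rfl rfl rfl rfl rfl rfl (rfl : _ = t4) (rfl : _ = t2)
  (st_mk (Pth.l (Pth.l (Pth.l Pth.z))) (nat_lit 97070461) (nat_lit 115774615) (by decide +kernel))
  (st_mk (Pth.l (Pth.l (Pth.l Pth.z))) (nat_lit 133045261) (nat_lit 152069106) (by decide +kernel))
  (st_mk (Pth.l (Pth.l (Pth.l Pth.z))) (nat_lit 174990426) (nat_lit 194449034) (by decide +kernel)) sv1
theorem so2 : StarOK sI G S2 :=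
  star_mk (by decide) (by decide) rfl rfl rfl rfl rfl rfl (rfl : _ = t0) (rfl : _ = t5)
  (st_mk (Pth.l (Pth.l (Pth.l Pth.z))) (nat_lit 187830334) (nat_lit 189454632) (by decide +kernel))
  (st_mk (Pth.l (Pth.l (Pth.l Pth.z))) (nat_lit 223553474) (nat_lit 225638127) (by decide +kernel))
  (st_mk (Pth.l (Pth.l (Pth.l Pth.z))) (nat_lit 264956087) (nat_lit 267680874) (by decide +kernel)) sv2
theorem so3 : StarOK sI G S3 :=
  star_mk (by decide) (by decide) rfl rfl rfl rfl rfl rfl (rfl : _ = t5) (rfl : _ = t0)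
  (st_mk (Pth.l (Pth.l (Pth.l Pth.z))) (nat_lit 96549379) (nat_lit 115292215) (by decide +kernel))
  (st_mk (Pth.l (Pth.l (Pth.l Pth.z))) (nat_lit 132065343) (nat_lit 151227251) (by decide +kernel))
  (st_mk (Pth.l (Pth.l (Pth.l Pth.z))) (nat_lit 173289179) (nat_lit 193056138) (by decide +kernel)) sv3
theorem so4 : StarOK sI G S4 :=
  star_mk (by decide) (by decide) rfl rfl rfl rfl rfl rfl (rfl : _ = t1) (rfl : _ = t3)
  (st_mk (Pth.l (Pth.l (Pth.l Pth.z))) (nat_lit 185843017) (nat_lit 187312812) (by decide +kernel))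
  (st_mk (Pth.l (Pth.l (Pth.l Pth.z))) (nat_lit 220739626) (nat_lit 222592840) (by decide +kernel))
  (st_mk (Pth.l (Pth.l (Pth.l Pth.z))) (nat_lit 261004945) (nat_lit 263383849) (by decide +kernel)) sv4
theorem so5 : StarOK sI G S5 :=
  star_mk (by decide) (by decide) rfl rfl rfl rfl rfl rfl (rfl : _ = t3) (rfl : _ = t1)
  (st_mk (Pth.l (Pth.l (Pth.l Pth.z))) (nat_lit 139994720) (nat_lit 162322019) (by decide +kernel))
  (st_mk (Pth.l (Pth.l (Pth.l Pth.z))) (nat_lit 174891329) (nat_lit 197578187) (by decide +kernel))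
  (st_mk (Pth.l (Pth.l (Pth.l Pth.z))) (nat_lit 215156648) (nat_lit 238348463) (by decide +kernel)) sv5
theorem ok : GroupOK (nat_lit 209321984) (nat_lit 268435456) G := grp_mk (allS_c so0 (allS_c so1 (allS_c so2 (allS_c so3 (allS_c so4 (allS_c so5 allS_n))))))
theorem cov : GCov G cl6 cl7 cl13 := cov_mk
  ⟨0, by decide, rfl, rfl, rfl⟩ ⟨1, by decide, rfl, rfl, rfl⟩ ⟨2, by decide, rfl, rfl, rfl⟩ ⟨3, by decide, rfl, rfl, rfl⟩ ⟨4, by decide, rfl, rfl, rfl⟩ ⟨5, by decide, rfl, rfl, rfl⟩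
end Q346_3

namespace Q355_0
def sI : I := I.pos (nat_lit 0) (nat_lit 91291648)
def b0_0 : Bx := Bx.mk (St.mk (I.pos (nat_lit 156975104) (nat_lit 282460160)) (I.mix (nat_lit 27000832) (nat_lit 53903360)) (I.mix (nat_lit 81920000) (nat_lit 83509248)) (I.pos (nat_lit 109510656) (nat_lit 338526208)) (I.mix (nat_lit 77053952) (nat_lit 50806784)) (I.mix (nat_lit 74678272) (nat_lit 45645824)) (I.mix (nat_lit 115621888) (nat_lit 64471040)))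
  false (nat_lit 0)
def b0_1 : Bx := Bx.mk (St.mk (I.mix (nat_lit 15073280) (nat_lit 133693440)) (I.mix (nat_lit 8601600) (nat_lit 29212672)) (I.mix (nat_lit 16334848) (nat_lit 19349504)) (I.pos (nat_lit 15187968) (nat_lit 101122048)) (I.mix (nat_lit 24920064) (nat_lit 22200320)) (I.mix (nat_lit 25608192) (nat_lit 15319040)) (I.mix (nat_lit 20316160) (nat_lit 11337728)))
  false (nat_lit 0)
def b0_2 : Bx := Bx.mk (St.mk (I.pos (nat_lit 108150784) (nat_lit 150765568)) (I.mix (nat_lit 48873472) (nat_lit 7585792)) (I.mix (nat_lit 52985856) (nat_lit 1179648)) (I.pos (nat_lit 63750144) (nat_lit 117178368)) (I.mix (nat_lit 65339392) (nat_lit 19546112)) (I.mix (nat_lit 30097408) (nat_lit 65536000)) (I.mix (nat_lit 23363584) (nat_lit 57065472)))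
  false (nat_lit 0)
def b0_3 : Bx := Bx.mk (St.mk (I.mix (nat_lit 22953984) (nat_lit 91324416)) (I.mix (nat_lit 25165824) (nat_lit 3915776)) (I.mix (nat_lit 19447808) (nat_lit 622592)) (I.pos (nat_lit 16498688) (nat_lit 66568192)) (I.mix (nat_lit 26869760) (nat_lit 10928128)) (I.mix (nat_lit 14254080) (nat_lit 24313856)) (I.mix (nat_lit 7569408) (nat_lit 13107200)))
  false (nat_lit 0)
def b0_4 : Bx := Bx.mk (St.mk (I.pos (nat_lit 118685696) (nat_lit 178569216)) (I.neg (nat_lit 2424832) (nat_lit 52281344)) (I.neg (nat_lit 5177344) (nat_lit 54755328)) (I.pos (nat_lit 83755008) (nat_lit 155860992)) (I.mix (nat_lit 58163200) (nat_lit 31440896)) (I.mix (nat_lit 29097984) (nat_lit 52822016)) (I.mix (nat_lit 25182208) (nat_lit 55001088)))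
  false (nat_lit 0)
def b0_5 : Bx := Bx.mk (St.mk (I.mix (nat_lit 18202624) (nat_lit 102629376)) (I.mix (nat_lit 28868608) (nat_lit 4489216)) (I.mix (nat_lit 22429696) (nat_lit 819200)) (I.pos (nat_lit 15089664) (nat_lit 74989568)) (I.mix (nat_lit 26329088) (nat_lit 19169280)) (I.mix (nat_lit 15122432) (nat_lit 26935296)) (I.mix (nat_lit 9109504) (nat_lit 17252352)))
  false (nat_lit 0)
def b0_6 : Bx := Bx.mk (St.mk (I.mix (nat_lit 23347200) (nat_lit 123879424)) (I.mix (nat_lit 12632064) (nat_lit 34439168)) (I.mix (nat_lit 12271616) (nat_lit 23461888)) (I.pos (nat_lit 15745024) (nat_lit 91439104)) (I.mix (nat_lit 38617088) (nat_lit 20234240)) (I.mix (nat_lit 41762816) (nat_lit 24887296)) (I.mix (nat_lit 27213824) (nat_lit 15794176)))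
  false (nat_lit 0)
def b0_7 : Bx := Bx.mk (St.mk (I.pos (nat_lit 157368320) (nat_lit 222347264)) (I.mix (nat_lit 40747008) (nat_lit 61407232)) (I.mix (nat_lit 46940160) (nat_lit 90865664)) (I.pos (nat_lit 114819072) (nat_lit 217874432)) (I.mix (nat_lit 112443392) (nat_lit 42795008)) (I.mix (nat_lit 130580480) (nat_lit 65683456)) (I.mix (nat_lit 154943488) (nat_lit 73170944)))
  false (nat_lit 0)
def t0 : BTr := (BTr.n (BTr.n (BTr.n (BTr.b b0_0) (BTr.b b0_1)) (BTr.n (BTr.b b0_2) (BTr.b b0_3))) (BTr.n (BTr.n (BTr.b b0_4) (BTr.b b0_5)) (BTr.n (BTr.b b0_6) (BTr.b b0_7))))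
namespace T0
def l0 : Tr := Tr.L (Pth.l (Pth.l (Pth.l Pth.z)))
def l1 : Tr := Tr.L (Pth.l (Pth.l (Pth.r Pth.z)))
def l2 : Tr := Tr.L (Pth.l (Pth.r (Pth.l Pth.z)))
def l3 : Tr := Tr.L (Pth.l (Pth.r (Pth.r Pth.z)))
def l4 : Tr := Tr.L (Pth.r (Pth.l (Pth.l Pth.z)))
def l5 : Tr := Tr.L (Pth.r (Pth.l (Pth.r Pth.z)))
def l6 : Tr := Tr.L (Pth.r (Pth.r (Pth.l Pth.z)))
def l7 : Tr := Tr.L (Pth.r (Pth.r (Pth.r Pth.z)))
end T0
def b1_0 : Bx := Bx.mk (St.mk (I.pos (nat_lit 157024256) (nat_lit 280690688)) (I.mix (nat_lit 19447808) (nat_lit 61898752)) (I.mix (nat_lit 67993600) (nat_lit 95944704)) (I.pos (nat_lit 180109312) (nat_lit 381861888)) (I.mix (nat_lit 86884352) (nat_lit 62046208)) (I.mix (nat_lit 83263488) (nat_lit 50937856)) (I.mix (nat_lit 124239872) (nat_lit 71761920)))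
  false (nat_lit 31478205)
def b1_1 : Bx := Bx.mk (St.mk (I.pos (nat_lit 100122624) (nat_lit 161546240)) (I.neg (nat_lit 7716864) (nat_lit 60243968)) (I.neg (nat_lit 196608) (nat_lit 53739520)) (I.pos (nat_lit 132169728) (nat_lit 186892288)) (I.mix (nat_lit 57589760) (nat_lit 35160064)) (I.mix (nat_lit 27475968) (nat_lit 55066624)) (I.mix (nat_lit 23543808) (nat_lit 47939584)))
  false (nat_lit 0)
def b1_2 : Bx := Bx.mk (St.mk (I.mix (nat_lit 31145984) (nat_lit 96993280)) (I.mix (nat_lit 6733824) (nat_lit 38551552)) (I.mix (nat_lit 14893056) (nat_lit 17104896)) (I.pos (nat_lit 80248832) (nat_lit 123813888)) (I.mix (nat_lit 27885568) (nat_lit 28672000)) (I.mix (nat_lit 33718272) (nat_lit 19283968)) (I.mix (nat_lit 21020672) (nat_lit 12173312)))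
  false (nat_lit 0)
def b1_3 : Bx := Bx.mk (St.mk (I.mix (nat_lit 30228480) (nat_lit 46661632)) (I.mix (nat_lit 34160640) (nat_lit 5619712)) (I.mix (nat_lit 12632064) (nat_lit 3391488)) (I.pos (nat_lit 82100224) (nat_lit 100155392)) (I.mix (nat_lit 20283392) (nat_lit 22380544)) (I.mix (nat_lit 14499840) (nat_lit 26918912)) (I.mix (nat_lit 6488064) (nat_lit 9404416)))
  false (nat_lit 0)
def b1_4 : Bx := Bx.mk (St.mk (I.pos (nat_lit 143736832) (nat_lit 213073920)) (I.mix (nat_lit 37011456) (nat_lit 68812800)) (I.mix (nat_lit 31358976) (nat_lit 100777984)) (I.pos (nat_lit 169623552) (nat_lit 256294912)) (I.mix (nat_lit 109199360) (nat_lit 45367296)) (I.mix (nat_lit 114917376) (nat_lit 59097088)) (I.mix (nat_lit 118800384) (nat_lit 56590336)))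
  false (nat_lit 0)
def b1_5 : Bx := Bx.mk (St.mk (I.pos (nat_lit 82526208) (nat_lit 125534208)) (I.mix (nat_lit 59097088) (nat_lit 7700480)) (I.neg (nat_lit 1900544) (nat_lit 52592640)) (I.pos (nat_lit 114900992) (nat_lit 148307968)) (I.mix (nat_lit 62013440) (nat_lit 22822912)) (I.mix (nat_lit 29704192) (nat_lit 62095360)) (I.mix (nat_lit 22003712) (nat_lit 43548672)))
  false (nat_lit 0)
def b1_6 : Bx := Bx.mk (St.mk (I.mix (nat_lit 47890432) (nat_lit 72531968)) (I.mix (nat_lit 8978432) (nat_lit 39747584)) (I.mix (nat_lit 14532608) (nat_lit 14303232)) (I.pos (nat_lit 81838080) (nat_lit 109051904)) (I.mix (nat_lit 31227904) (nat_lit 25509888)) (I.mix (nat_lit 34258944) (nat_lit 20512768)) (I.mix (nat_lit 12795904) (nat_lit 12402688)))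
  false (nat_lit 0)
def b1_7 : Bx := Bx.mk (St.mk (I.mix (nat_lit 46858240) (nat_lit 29212672)) (I.mix (nat_lit 33521664) (nat_lit 5455872)) (I.mix (nat_lit 10305536) (nat_lit 4587520)) (I.pos (nat_lit 82493440) (nat_lit 99844096)) (I.mix (nat_lit 24805376) (nat_lit 16662528)) (I.mix (nat_lit 14286848) (nat_lit 26935296)) (I.mix (nat_lit 9732096) (nat_lit 5570560)))
  false (nat_lit 0)
def t1 : BTr := (BTr.n (BTr.n (BTr.n (BTr.b b1_0) (BTr.b b1_1)) (BTr.n (BTr.b b1_2) (BTr.b b1_3))) (BTr.n (BTr.n (BTr.b b1_4) (BTr.b b1_5)) (BTr.n (BTr.b b1_6) (BTr.b b1_7))))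
namespace T1
def l0 : Tr := Tr.L (Pth.l (Pth.l (Pth.l Pth.z)))
def l1 : Tr := Tr.L (Pth.l (Pth.l (Pth.r Pth.z)))
def l2 : Tr := Tr.L (Pth.l (Pth.r (Pth.l Pth.z)))
def l3 : Tr := Tr.L (Pth.l (Pth.r (Pth.r Pth.z)))
def l4 : Tr := Tr.L (Pth.r (Pth.l (Pth.l Pth.z)))
def l5 : Tr := Tr.L (Pth.r (Pth.l (Pth.r Pth.z)))
def l6 : Tr := Tr.L (Pth.r (Pth.r (Pth.l Pth.z)))
def l7 : Tr := Tr.L (Pth.r (Pth.r (Pth.r Pth.z)))
end T1
def b2_0 : Bx := Bx.mk (St.mk (I.pos (nat_lit 157057024) (nat_lit 279805952)) (I.mix (nat_lit 16220160) (nat_lit 51544064)) (I.mix (nat_lit 26836992) (nat_lit 102727680)) (I.pos (nat_lit 109150208) (nat_lit 327647232)) (I.mix (nat_lit 83492864) (nat_lit 61472768)) (I.mix (nat_lit 87441408) (nat_lit 56279040)) (I.mix (nat_lit 135135232) (nat_lit 74334208)))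
  false (nat_lit 6067073)
def b2_1 : Bx := Bx.mk (St.mk (I.pos (nat_lit 124469248) (nat_lit 182976512)) (I.neg (nat_lit 5980160) (nat_lit 54722560)) (I.mix (nat_lit 47808512) (nat_lit 9797632)) (I.pos (nat_lit 89145344) (nat_lit 160219136)) (I.mix (nat_lit 51298304) (nat_lit 29900800)) (I.mix (nat_lit 27967488) (nat_lit 42303488)) (I.mix (nat_lit 24395776) (nat_lit 42106880)))
  false (nat_lit 0)
def b2_2 : Bx := Bx.mk (St.mk (I.mix (nat_lit 16449536) (nat_lit 104906752)) (I.mix (nat_lit 28213248) (nat_lit 4112384)) (I.mix (nat_lit 15351808) (nat_lit 8437760)) (I.pos (nat_lit 15319040) (nat_lit 76169216)) (I.mix (nat_lit 21053440) (nat_lit 16941056)) (I.mix (nat_lit 12959744) (nat_lit 20004864)) (I.mix (nat_lit 7749632) (nat_lit 12468224)))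
  false (nat_lit 0)
def b2_3 : Bx := Bx.mk (St.mk (I.pos (nat_lit 155729920) (nat_lit 218595328)) (I.mix (nat_lit 38551552) (nat_lit 60047360)) (I.mix (nat_lit 29523968) (nat_lit 107347968)) (I.pos (nat_lit 115228672) (nat_lit 210714624)) (I.mix (nat_lit 118358016) (nat_lit 41402368)) (I.mix (nat_lit 135692288) (nat_lit 61112320)) (I.mix (nat_lit 169066496) (nat_lit 65372160)))
  false (nat_lit 0)
def b2_4 : Bx := Bx.mk (St.mk (I.mix (nat_lit 24199168) (nat_lit 122093568)) (I.mix (nat_lit 12288000) (nat_lit 34177024)) (I.mix (nat_lit 4800512) (nat_lit 31473664)) (I.pos (nat_lit 15745024) (nat_lit 88997888)) (I.mix (nat_lit 41975808) (nat_lit 16662528)) (I.mix (nat_lit 41009152) (nat_lit 22495232)) (I.mix (nat_lit 27426816) (nat_lit 14319616)))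
  false (nat_lit 0)
def b2_5 : Bx := Bx.mk (St.mk (I.mix (nat_lit 16433152) (nat_lit 131792896)) (I.mix (nat_lit 5586944) (nat_lit 28622848)) (I.mix (nat_lit 3686400) (nat_lit 28852224)) (I.pos (nat_lit 15138816) (nat_lit 99123200)) (I.mix (nat_lit 31784960) (nat_lit 24199168)) (I.mix (nat_lit 33996800) (nat_lit 19218432)) (I.mix (nat_lit 27459584) (nat_lit 14598144)))
  false (nat_lit 0)
def b2_6 : Bx := Bx.mk (St.mk (I.pos (nat_lit 109805568) (nat_lit 154714112)) (I.mix (nat_lit 50987008) (nat_lit 6963200)) (I.mix (nat_lit 43712512) (nat_lit 10207232)) (I.pos (nat_lit 65224704) (nat_lit 120127488)) (I.mix (nat_lit 61587456) (nat_lit 24150016)) (I.mix (nat_lit 32751616) (nat_lit 67829760)) (I.mix (nat_lit 25772032) (nat_lit 56950784)))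
  false (nat_lit 0)
def b2_7 : Bx := Bx.mk (St.mk (I.mix (nat_lit 19611648) (nat_lit 93175808)) (I.mix (nat_lit 25509888) (nat_lit 3342336)) (I.mix (nat_lit 13336576) (nat_lit 6291456)) (I.pos (nat_lit 16515072) (nat_lit 67584000)) (I.mix (nat_lit 24543232) (nat_lit 15253504)) (I.mix (nat_lit 15908864) (nat_lit 26591232)) (I.mix (nat_lit 8175616) (nat_lit 13680640)))
  false (nat_lit 0)
def t2 : BTr := (BTr.n (BTr.n (BTr.n (BTr.b b2_0) (BTr.b b2_1)) (BTr.n (BTr.b b2_2) (BTr.b b2_3))) (BTr.n (BTr.n (BTr.b b2_4) (BTr.b b2_5)) (BTr.n (BTr.b b2_6) (BTr.b b2_7))))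
namespace T2
def l0 : Tr := Tr.L (Pth.l (Pth.l (Pth.l Pth.z)))
def l1 : Tr := Tr.L (Pth.l (Pth.l (Pth.r Pth.z)))
def l2 : Tr := Tr.L (Pth.l (Pth.r (Pth.l Pth.z)))
def l3 : Tr := Tr.L (Pth.l (Pth.r (Pth.r Pth.z)))
def l4 : Tr := Tr.L (Pth.r (Pth.l (Pth.l Pth.z)))
def l5 : Tr := Tr.L (Pth.r (Pth.l (Pth.r Pth.z)))
def l6 : Tr := Tr.L (Pth.r (Pth.r (Pth.l Pth.z)))
def l7 : Tr := Tr.L (Pth.r (Pth.r (Pth.r Pth.z)))
end T2
theorem bx0_0 : BoxOK sI cl6 cl9 cl9 t1 t1 b0_0 :=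
  box_mk (TrL.c (I.pos (nat_lit 0) (nat_lit 0)) (xa (xa T1.l0 T1.l0) (xa T1.l0 T1.l0))
  (TrL.c (I.pos (nat_lit 0) (nat_lit 0)) (xa T1.l1 T1.l1)
  (TrL.c (I.pos (nat_lit 0) (nat_lit 89480386)) (xR T1.l2 T1.l2)
  (TrL.c (I.pos (nat_lit 0) (nat_lit 41530880)) T1.l3
  (TrL.c (I.pos (nat_lit 0) (nat_lit 0)) (xa T1.l4 (xb (xa T1.l4 T1.l4) (xa T1.l4 T1.l4)))
  (TrL.c (I.pos (nat_lit 0) (nat_lit 0)) (xa T1.l5 T1.l5)
  (TrL.c (I.mix (nat_lit 41527258) (nat_lit 41530880)) T1.l6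
  (TrL.c (I.mix (nat_lit 41527258) (nat_lit 4274)) T1.l7
  TrL.n)))))))) (by decide +kernel)
theorem bx0_1 : BoxOK sI cl6 cl9 cl9 t1 t1 b0_1 :=
  box_mk (TrL.c (I.pos (nat_lit 0) (nat_lit 0)) (xa T1.l0 T1.l0)
  (TrL.c (I.pos (nat_lit 0) (nat_lit 0)) T1.l1
  (TrL.c (I.pos (nat_lit 0) (nat_lit 89480386)) T1.l2
  (TrL.c (I.pos (nat_lit 0) (nat_lit 41530880)) T1.l3
  (TrL.c (I.pos (nat_lit 0) (nat_lit 0)) T1.l4
  (TrL.c (I.pos (nat_lit 0) (nat_lit 0)) T1.l5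
  (TrL.c (I.mix (nat_lit 41527258) (nat_lit 41530880)) T1.l6
  (TrL.c (I.mix (nat_lit 41527258) (nat_lit 4274)) T1.l7
  TrL.n)))))))) (by decide +kernel)
theorem bx0_2 : BoxOK sI cl6 cl9 cl9 t1 t1 b0_2 :=
  box_mk (TrL.c (I.pos (nat_lit 0) (nat_lit 0)) T1.l0
  (TrL.c (I.pos (nat_lit 0) (nat_lit 0)) T1.l1
  (TrL.c (I.pos (nat_lit 0) (nat_lit 89480386)) T1.l2
  (TrL.c (I.pos (nat_lit 0) (nat_lit 41530880)) T1.l3
  (TrL.c (I.pos (nat_lit 0) (nat_lit 0)) T1.l4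
  (TrL.c (I.pos (nat_lit 0) (nat_lit 0)) T1.l5
  (TrL.c (I.mix (nat_lit 41527258) (nat_lit 41530880)) T1.l6
  (TrL.c (I.mix (nat_lit 41527258) (nat_lit 4274)) T1.l7
  TrL.n)))))))) (by decide +kernel)
theorem bx0_3 : BoxOK sI cl6 cl9 cl9 t1 t1 b0_3 :=
  box_mk (TrL.c (I.pos (nat_lit 0) (nat_lit 0)) (xa T1.l0 T1.l0)
  (TrL.c (I.pos (nat_lit 0) (nat_lit 0)) T1.l1
  (TrL.c (I.pos (nat_lit 0) (nat_lit 89480386)) T1.l2
  (TrL.c (I.pos (nat_lit 0) (nat_lit 41530880)) T1.l3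
  (TrL.c (I.pos (nat_lit 0) (nat_lit 0)) T1.l4
  (TrL.c (I.pos (nat_lit 0) (nat_lit 0)) T1.l5
  (TrL.c (I.mix (nat_lit 41527258) (nat_lit 41530880)) T1.l6
  (TrL.c (I.mix (nat_lit 41527258) (nat_lit 4274)) T1.l7
  TrL.n)))))))) (by decide +kernel)
theorem bx0_4 : BoxOK sI cl6 cl9 cl9 t1 t1 b0_4 :=
  box_mk (TrL.c (I.pos (nat_lit 0) (nat_lit 0)) T1.l0
  (TrL.c (I.pos (nat_lit 0) (nat_lit 0)) T1.l1
  (TrL.c (I.pos (nat_lit 0) (nat_lit 89480386)) T1.l2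
  (TrL.c (I.pos (nat_lit 0) (nat_lit 41530880)) T1.l3
  (TrL.c (I.pos (nat_lit 0) (nat_lit 0)) T1.l4
  (TrL.c (I.pos (nat_lit 0) (nat_lit 0)) T1.l5
  (TrL.c (I.mix (nat_lit 41527258) (nat_lit 41530880)) T1.l6
  (TrL.c (I.mix (nat_lit 41527258) (nat_lit 4274)) T1.l7
  TrL.n)))))))) (by decide +kernel)
theorem bx0_5 : BoxOK sI cl6 cl9 cl9 t1 t1 b0_5 :=
  box_mk (TrL.c (I.pos (nat_lit 0) (nat_lit 0)) (xa T1.l0 T1.l0)
  (TrL.c (I.pos (nat_lit 0) (nat_lit 0)) T1.l1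
  (TrL.c (I.pos (nat_lit 0) (nat_lit 89480386)) T1.l2
  (TrL.c (I.pos (nat_lit 0) (nat_lit 41530880)) T1.l3
  (TrL.c (I.pos (nat_lit 0) (nat_lit 0)) T1.l4
  (TrL.c (I.pos (nat_lit 0) (nat_lit 0)) T1.l5
  (TrL.c (I.mix (nat_lit 41527258) (nat_lit 41530880)) T1.l6
  (TrL.c (I.mix (nat_lit 41527258) (nat_lit 4274)) T1.l7
  TrL.n)))))))) (by decide +kernel)
theorem bx0_6 : BoxOK sI cl6 cl9 cl9 t1 t1 b0_6 :=
  box_mk (TrL.c (I.pos (nat_lit 0) (nat_lit 0)) (xa T1.l0 T1.l0)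
  (TrL.c (I.pos (nat_lit 0) (nat_lit 0)) (xa T1.l1 T1.l1)
  (TrL.c (I.pos (nat_lit 0) (nat_lit 89480386)) T1.l2
  (TrL.c (I.pos (nat_lit 0) (nat_lit 41530880)) T1.l3
  (TrL.c (I.pos (nat_lit 0) (nat_lit 0)) (xa T1.l4 T1.l4)
  (TrL.c (I.pos (nat_lit 0) (nat_lit 0)) T1.l5
  (TrL.c (I.mix (nat_lit 41527258) (nat_lit 41530880)) T1.l6
  (TrL.c (I.mix (nat_lit 41527258) (nat_lit 4274)) T1.l7
  TrL.n)))))))) (by decide +kernel)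
theorem bx0_7 : BoxOK sI cl6 cl9 cl9 t1 t1 b0_7 :=
  box_mk (TrL.c (I.pos (nat_lit 0) (nat_lit 0)) (xb (xa T1.l0 T1.l0) (xa T1.l0 T1.l0))
  (TrL.c (I.pos (nat_lit 0) (nat_lit 0)) T1.l1
  (TrL.c (I.pos (nat_lit 0) (nat_lit 89480386)) (xR T1.l2 T1.l2)
  (TrL.c (I.pos (nat_lit 0) (nat_lit 41530880)) T1.l3
  (TrL.c (I.pos (nat_lit 0) (nat_lit 0)) (xb T1.l4 T1.l4)
  (TrL.c (I.pos (nat_lit 0) (nat_lit 0)) T1.l5
  (TrL.c (I.mix (nat_lit 41527258) (nat_lit 41530880)) T1.l6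
  (TrL.c (I.mix (nat_lit 41527258) (nat_lit 4274)) T1.l7
  TrL.n)))))))) (by decide +kernel)
theorem sv0 : StarV sI cl6 cl9 cl9 t1 t1 t0 :=
  (bt_n (bt_n (bt_n (bt_b bx0_0) (bt_b bx0_1)) (bt_n (bt_b bx0_2) (bt_b bx0_3))) (bt_n (bt_n (bt_b bx0_4) (bt_b bx0_5)) (bt_n (bt_b bx0_6) (bt_b bx0_7))))
def S0 : StarD := StarD.mk cl6 cl9 cl9 1 1 t0
theorem bx1_0 : BoxOK sI cl9 cl6 cl9 t0 t2 b1_0 :=
  box_mk (TrL.c (I.pos (nat_lit 0) (nat_lit 0)) (xa (xa T0.l0 T0.l0) (xa T0.l0 T0.l0))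
  (TrL.c (I.pos (nat_lit 0) (nat_lit 0)) (xa T2.l1 (xk T2.l1 T2.l1))
  (TrL.c (I.pos (nat_lit 0) (nat_lit 124588530)) (xR T0.l1 T0.l6)
  (TrL.c (I.pos (nat_lit 0) (nat_lit 96881482)) (xR T2.l2 T2.l2)
  (TrL.c (I.pos (nat_lit 0) (nat_lit 0)) (xa (xb T2.l3 T2.l3) (xk (xb (xa T2.l3 T2.l3) (xa T2.l3 T2.l3)) (xa T2.l3 (xb T2.l3 T2.l3))))
  (TrL.c (I.pos (nat_lit 0) (nat_lit 0)) (xk T0.l2 T0.l2)
  (TrL.c (I.mix (nat_lit 17240550) (nat_lit 96881482)) (xR T2.l4 T2.l4)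
  (TrL.c (I.mix (nat_lit 17240550) (nat_lit 71940500)) T0.l3
  TrL.n)))))))) (by decide +kernel)
theorem bx1_1 : BoxOK sI cl9 cl6 cl9 t0 t2 b1_1 :=
  box_mk (TrL.c (I.pos (nat_lit 0) (nat_lit 0)) T0.l0
  (TrL.c (I.pos (nat_lit 0) (nat_lit 0)) T2.l1
  (TrL.c (I.pos (nat_lit 0) (nat_lit 124588530)) (xR T0.l1 T0.l1)
  (TrL.c (I.pos (nat_lit 0) (nat_lit 96881482)) T2.l2
  (TrL.c (I.pos (nat_lit 0) (nat_lit 0)) T2.l3
  (TrL.c (I.pos (nat_lit 0) (nat_lit 0)) T0.l2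
  (TrL.c (I.mix (nat_lit 17240550) (nat_lit 96881482)) T2.l4
  (TrL.c (I.mix (nat_lit 17240550) (nat_lit 71940500)) T0.l3
  TrL.n)))))))) (by decide +kernel)
theorem bx1_2 : BoxOK sI cl9 cl6 cl9 t0 t2 b1_2 :=
  box_mk (TrL.c (I.pos (nat_lit 0) (nat_lit 0)) T0.l0
  (TrL.c (I.pos (nat_lit 0) (nat_lit 0)) T2.l1
  (TrL.c (I.pos (nat_lit 0) (nat_lit 124588530)) T0.l1
  (TrL.c (I.pos (nat_lit 0) (nat_lit 96881482)) T2.l2
  (TrL.c (I.pos (nat_lit 0) (nat_lit 0)) T2.l3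
  (TrL.c (I.pos (nat_lit 0) (nat_lit 0)) T0.l2
  (TrL.c (I.mix (nat_lit 17240550) (nat_lit 96881482)) T2.l4
  (TrL.c (I.mix (nat_lit 17240550) (nat_lit 71940500)) T0.l3
  TrL.n)))))))) (by decide +kernel)
theorem bx1_3 : BoxOK sI cl9 cl6 cl9 t0 t2 b1_3 :=
  box_mk (TrL.c (I.pos (nat_lit 0) (nat_lit 0)) T0.l0
  (TrL.c (I.pos (nat_lit 0) (nat_lit 0)) T2.l1
  (TrL.c (I.pos (nat_lit 0) (nat_lit 124588530)) T0.l1
  (TrL.c (I.pos (nat_lit 0) (nat_lit 96881482)) T2.l4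
  (TrL.c (I.pos (nat_lit 0) (nat_lit 0)) T2.l3
  (TrL.c (I.pos (nat_lit 0) (nat_lit 0)) T0.l2
  (TrL.c (I.mix (nat_lit 17240550) (nat_lit 96881482)) T2.l4
  (TrL.c (I.mix (nat_lit 17240550) (nat_lit 71940500)) T0.l3
  TrL.n)))))))) (by decide +kernel)
theorem bx1_4 : BoxOK sI cl9 cl6 cl9 t0 t2 b1_4 :=
  box_mk (TrL.c (I.pos (nat_lit 0) (nat_lit 0)) (xa (xb T0.l0 T0.l0) (xb T0.l0 T0.l0))
  (TrL.c (I.pos (nat_lit 0) (nat_lit 0)) (xb T2.l1 T2.l1)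
  (TrL.c (I.pos (nat_lit 0) (nat_lit 124588530)) (xR T0.l1 T0.l1)
  (TrL.c (I.pos (nat_lit 0) (nat_lit 96881482)) (xR T2.l2 T2.l2)
  (TrL.c (I.pos (nat_lit 0) (nat_lit 0)) (xb (xa T2.l3 T2.l3) T2.l3)
  (TrL.c (I.pos (nat_lit 0) (nat_lit 0)) T0.l2
  (TrL.c (I.mix (nat_lit 17240550) (nat_lit 96881482)) (xR T2.l4 T2.l4)
  (TrL.c (I.mix (nat_lit 17240550) (nat_lit 71940500)) T0.l3
  TrL.n)))))))) (by decide +kernel)
theorem bx1_5 : BoxOK sI cl9 cl6 cl9 t0 t2 b1_5 :=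
  box_mk (TrL.c (I.pos (nat_lit 0) (nat_lit 0)) T0.l0
  (TrL.c (I.pos (nat_lit 0) (nat_lit 0)) T2.l1
  (TrL.c (I.pos (nat_lit 0) (nat_lit 124588530)) T0.l1
  (TrL.c (I.pos (nat_lit 0) (nat_lit 96881482)) T2.l2
  (TrL.c (I.pos (nat_lit 0) (nat_lit 0)) T2.l3
  (TrL.c (I.pos (nat_lit 0) (nat_lit 0)) T0.l2
  (TrL.c (I.mix (nat_lit 17240550) (nat_lit 96881482)) T2.l4
  (TrL.c (I.mix (nat_lit 17240550) (nat_lit 71940500)) T0.l3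
  TrL.n)))))))) (by decide +kernel)
theorem bx1_6 : BoxOK sI cl9 cl6 cl9 t0 t2 b1_6 :=
  box_mk (TrL.c (I.pos (nat_lit 0) (nat_lit 0)) (xa T0.l0 T0.l0)
  (TrL.c (I.pos (nat_lit 0) (nat_lit 0)) T2.l1
  (TrL.c (I.pos (nat_lit 0) (nat_lit 124588530)) T0.l1
  (TrL.c (I.pos (nat_lit 0) (nat_lit 96881482)) (xR T2.l2 T2.l2)
  (TrL.c (I.pos (nat_lit 0) (nat_lit 0)) T2.l3
  (TrL.c (I.pos (nat_lit 0) (nat_lit 0)) T0.l2
  (TrL.c (I.mix (nat_lit 17240550) (nat_lit 96881482)) T2.l4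
  (TrL.c (I.mix (nat_lit 17240550) (nat_lit 71940500)) T0.l3
  TrL.n)))))))) (by decide +kernel)
theorem bx1_7 : BoxOK sI cl9 cl6 cl9 t0 t2 b1_7 :=
  box_mk (TrL.c (I.pos (nat_lit 0) (nat_lit 0)) T0.l0
  (TrL.c (I.pos (nat_lit 0) (nat_lit 0)) T2.l3
  (TrL.c (I.pos (nat_lit 0) (nat_lit 124588530)) T0.l1
  (TrL.c (I.pos (nat_lit 0) (nat_lit 96881482)) T2.l4
  (TrL.c (I.pos (nat_lit 0) (nat_lit 0)) T2.l3
  (TrL.c (I.pos (nat_lit 0) (nat_lit 0)) T0.l1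
  (TrL.c (I.mix (nat_lit 17240550) (nat_lit 96881482)) T2.l4
  (TrL.c (I.mix (nat_lit 17240550) (nat_lit 71940500)) T0.l6
  TrL.n)))))))) (by decide +kernel)
theorem sv1 : StarV sI cl9 cl6 cl9 t0 t2 t1 :=
  (bt_n (bt_n (bt_n (bt_b bx1_0) (bt_b bx1_1)) (bt_n (bt_b bx1_2) (bt_b bx1_3))) (bt_n (bt_n (bt_b bx1_4) (bt_b bx1_5)) (bt_n (bt_b bx1_6) (bt_b bx1_7))))
def S1 : StarD := StarD.mk cl9 cl6 cl9 0 2 t1
theorem bx2_0 : BoxOK sI cl9 cl9 cl6 t2 t0 b2_0 :=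
  box_mk (TrL.c (I.pos (nat_lit 0) (nat_lit 0)) (xa (xa T2.l0 T2.l0) (xa T2.l0 T2.l0))
  (TrL.c (I.pos (nat_lit 0) (nat_lit 0)) (xa (xa T0.l4 T0.l4) (xk T0.l4 T0.l4))
  (TrL.c (I.pos (nat_lit 0) (nat_lit 124588530)) (xR T2.l4 T2.l5)
  (TrL.c (I.pos (nat_lit 0) (nat_lit 96881482)) (xR T0.l5 T0.l5)
  (TrL.c (I.pos (nat_lit 0) (nat_lit 0)) (xa T0.l7 (xk (xa T0.l7 (xb T0.l7 T0.l7)) (xa T0.l7 (xb T0.l7 T0.l7))))
  (TrL.c (I.pos (nat_lit 0) (nat_lit 0)) (xk T2.l6 T2.l6)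
  (TrL.c (I.mix (nat_lit 17240550) (nat_lit 96881482)) (xR T0.l6 T0.l6)
  (TrL.c (I.mix (nat_lit 17240550) (nat_lit 71940500)) T2.l7
  TrL.n)))))))) (by decide +kernel)
theorem bx2_1 : BoxOK sI cl9 cl9 cl6 t2 t0 b2_1 :=
  box_mk (TrL.c (I.pos (nat_lit 0) (nat_lit 0)) T2.l0
  (TrL.c (I.pos (nat_lit 0) (nat_lit 0)) T0.l4
  (TrL.c (I.pos (nat_lit 0) (nat_lit 124588530)) (xR T2.l5 T2.l5)
  (TrL.c (I.pos (nat_lit 0) (nat_lit 96881482)) T0.l5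
  (TrL.c (I.pos (nat_lit 0) (nat_lit 0)) T0.l7
  (TrL.c (I.pos (nat_lit 0) (nat_lit 0)) T2.l6
  (TrL.c (I.mix (nat_lit 17240550) (nat_lit 96881482)) (xR T0.l6 T0.l6)
  (TrL.c (I.mix (nat_lit 17240550) (nat_lit 71940500)) T2.l7
  TrL.n)))))))) (by decide +kernel)
theorem bx2_2 : BoxOK sI cl9 cl9 cl6 t2 t0 b2_2 :=
  box_mk (TrL.c (I.pos (nat_lit 0) (nat_lit 0)) (xa (xa T2.l0 T2.l0) T2.l0)
  (TrL.c (I.pos (nat_lit 0) (nat_lit 0)) T0.l4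
  (TrL.c (I.pos (nat_lit 0) (nat_lit 124588530)) T2.l5
  (TrL.c (I.pos (nat_lit 0) (nat_lit 96881482)) (xR T0.l5 T0.l5)
  (TrL.c (I.pos (nat_lit 0) (nat_lit 0)) T0.l7
  (TrL.c (I.pos (nat_lit 0) (nat_lit 0)) T2.l6
  (TrL.c (I.mix (nat_lit 17240550) (nat_lit 96881482)) T0.l6
  (TrL.c (I.mix (nat_lit 17240550) (nat_lit 71940500)) T2.l7
  TrL.n)))))))) (by decide +kernel)
theorem bx2_3 : BoxOK sI cl9 cl9 cl6 t2 t0 b2_3 :=
  box_mk (TrL.c (I.pos (nat_lit 0) (nat_lit 0)) (xa (xb T2.l0 T2.l0) (xb T2.l0 T2.l0))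
  (TrL.c (I.pos (nat_lit 0) (nat_lit 0)) (xb T0.l4 (xa T0.l4 T0.l4))
  (TrL.c (I.pos (nat_lit 0) (nat_lit 124588530)) (xR T2.l5 T2.l5)
  (TrL.c (I.pos (nat_lit 0) (nat_lit 96881482)) (xR T0.l5 T0.l5)
  (TrL.c (I.pos (nat_lit 0) (nat_lit 0)) (xb (xa T0.l7 (xk T0.l7 T0.l7)) T0.l7)
  (TrL.c (I.pos (nat_lit 0) (nat_lit 0)) T2.l6
  (TrL.c (I.mix (nat_lit 17240550) (nat_lit 96881482)) (xR T0.l6 T0.l6)
  (TrL.c (I.mix (nat_lit 17240550) (nat_lit 71940500)) T2.l7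
  TrL.n)))))))) (by decide +kernel)
theorem bx2_4 : BoxOK sI cl9 cl9 cl6 t2 t0 b2_4 :=
  box_mk (TrL.c (I.pos (nat_lit 0) (nat_lit 0)) (xa T2.l0 T2.l0)
  (TrL.c (I.pos (nat_lit 0) (nat_lit 0)) (xa T0.l4 T0.l4)
  (TrL.c (I.pos (nat_lit 0) (nat_lit 124588530)) T2.l5
  (TrL.c (I.pos (nat_lit 0) (nat_lit 96881482)) (xR T0.l5 T0.l5)
  (TrL.c (I.pos (nat_lit 0) (nat_lit 0)) (xa T0.l7 T0.l7)
  (TrL.c (I.pos (nat_lit 0) (nat_lit 0)) T2.l6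
  (TrL.c (I.mix (nat_lit 17240550) (nat_lit 96881482)) T0.l6
  (TrL.c (I.mix (nat_lit 17240550) (nat_lit 71940500)) T2.l4
  TrL.n)))))))) (by decide +kernel)
theorem bx2_5 : BoxOK sI cl9 cl9 cl6 t2 t0 b2_5 :=
  box_mk (TrL.c (I.pos (nat_lit 0) (nat_lit 0)) (xa T2.l0 T2.l0)
  (TrL.c (I.pos (nat_lit 0) (nat_lit 0)) (xa T0.l4 T0.l4)
  (TrL.c (I.pos (nat_lit 0) (nat_lit 124588530)) T2.l5
  (TrL.c (I.pos (nat_lit 0) (nat_lit 96881482)) T0.l5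
  (TrL.c (I.pos (nat_lit 0) (nat_lit 0)) (xa T0.l7 T0.l7)
  (TrL.c (I.pos (nat_lit 0) (nat_lit 0)) T2.l6
  (TrL.c (I.mix (nat_lit 17240550) (nat_lit 96881482)) T0.l6
  (TrL.c (I.mix (nat_lit 17240550) (nat_lit 71940500)) T2.l7
  TrL.n)))))))) (by decide +kernel)
theorem bx2_6 : BoxOK sI cl9 cl9 cl6 t2 t0 b2_6 :=
  box_mk (TrL.c (I.pos (nat_lit 0) (nat_lit 0)) T2.l0
  (TrL.c (I.pos (nat_lit 0) (nat_lit 0)) T0.l4
  (TrL.c (I.pos (nat_lit 0) (nat_lit 124588530)) (xR T2.l5 T2.l5)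
  (TrL.c (I.pos (nat_lit 0) (nat_lit 96881482)) T0.l5
  (TrL.c (I.pos (nat_lit 0) (nat_lit 0)) T0.l7
  (TrL.c (I.pos (nat_lit 0) (nat_lit 0)) T2.l6
  (TrL.c (I.mix (nat_lit 17240550) (nat_lit 96881482)) T0.l6
  (TrL.c (I.mix (nat_lit 17240550) (nat_lit 71940500)) T2.l7
  TrL.n)))))))) (by decide +kernel)
theorem bx2_7 : BoxOK sI cl9 cl9 cl6 t2 t0 b2_7 :=
  box_mk (TrL.c (I.pos (nat_lit 0) (nat_lit 0)) (xa (xa T2.l0 T2.l0) T2.l0)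
  (TrL.c (I.pos (nat_lit 0) (nat_lit 0)) T0.l4
  (TrL.c (I.pos (nat_lit 0) (nat_lit 124588530)) T2.l5
  (TrL.c (I.pos (nat_lit 0) (nat_lit 96881482)) (xR T0.l5 T0.l5)
  (TrL.c (I.pos (nat_lit 0) (nat_lit 0)) T0.l7
  (TrL.c (I.pos (nat_lit 0) (nat_lit 0)) T2.l6
  (TrL.c (I.mix (nat_lit 17240550) (nat_lit 96881482)) T0.l6
  (TrL.c (I.mix (nat_lit 17240550) (nat_lit 71940500)) T2.l7
  TrL.n)))))))) (by decide +kernel)
theorem sv2 : StarV sI cl9 cl9 cl6 t2 t0 t2 :=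
  (bt_n (bt_n (bt_n (bt_b bx2_0) (bt_b bx2_1)) (bt_n (bt_b bx2_2) (bt_b bx2_3))) (bt_n (bt_n (bt_b bx2_4) (bt_b bx2_5)) (bt_n (bt_b bx2_6) (bt_b bx2_7))))
def S2 : StarD := StarD.mk cl9 cl9 cl6 2 0 t2
def G : List StarD := [S0, S1, S2]
theorem so0 : StarOK sI G S0 :=
  star_mk (by decide) (by decide) rfl rfl rfl rfl rfl rfl (rfl : _ = t1) (rfl : _ = t1)
  (st_mk (Pth.l (Pth.l (Pth.l Pth.z))) (nat_lit 116002141) (nat_lit 134635353) (by decide +kernel))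
  (st_mk (Pth.l (Pth.l (Pth.l Pth.z))) (nat_lit 151538272) (nat_lit 170507634) (by decide +kernel))
  (st_mk (Pth.l (Pth.l (Pth.l Pth.z))) (nat_lit 192756915) (nat_lit 212196566) (by decide +kernel)) sv0
theorem so1 : StarOK sI G S1 :=
  star_mk (by decide) (by decide) rfl rfl rfl rfl rfl rfl (rfl : _ = t0) (rfl : _ = t2)
  (st_mk (Pth.l (Pth.l (Pth.l Pth.z))) (nat_lit 186344194) (nat_lit 187635179) (by decide +kernel))
  (st_mk (Pth.l (Pth.l (Pth.l Pth.z))) (nat_lit 221447085) (nat_lit 223049450) (by decide +kernel))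
  (st_mk (Pth.l (Pth.l (Pth.l Pth.z))) (nat_lit 261994828) (nat_lit 264025282) (by decide +kernel)) sv1
theorem so2 : StarOK sI G S2 :=
  star_mk (by decide) (by decide) rfl rfl rfl rfl rfl rfl (rfl : _ = t2) (rfl : _ = t0)
  (st_mk (Pth.l (Pth.l (Pth.l Pth.z))) (nat_lit 115332261) (nat_lit 133776072) (by decide +kernel))
  (st_mk (Pth.l (Pth.l (Pth.l Pth.z))) (nat_lit 150397344) (nat_lit 169121758) (by decide +kernel))
  (st_mk (Pth.l (Pth.l (Pth.l Pth.z))) (nat_lit 190912353) (nat_lit 210038522) (by decide +kernel)) sv2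
theorem ok : GroupOK (nat_lit 0) (nat_lit 91291648) G := grp_mk (allS_c so0 (allS_c so1 (allS_c so2 allS_n)))
theorem cov : GCov G cl6 cl9 cl9 := cov_mk
  ⟨0, by decide, rfl, rfl, rfl⟩ ⟨0, by decide, rfl, rfl, rfl⟩ ⟨1, by decide, rfl, rfl, rfl⟩ ⟨2, by decide, rfl, rfl, rfl⟩ ⟨1, by decide, rfl, rfl, rfl⟩ ⟨2, by decide, rfl, rfl, rfl⟩
end Q355_0

namespace Q355_1
def sI : I := I.pos (nat_lit 91226112) (nat_lit 150339584)
def b0_0 : Bx := Bx.mk (St.mk (I.pos (nat_lit 156975104) (nat_lit 282558464)) (I.mix (nat_lit 26066944) (nat_lit 53886976)) (I.mix (nat_lit 79609856) (nat_lit 83853312)) (I.pos (nat_lit 109772800) (nat_lit 340934656)) (I.mix (nat_lit 100188160) (nat_lit 69713920)) (I.mix (nat_lit 89833472) (nat_lit 60243968)) (I.mix (nat_lit 139902976) (nat_lit 87851008)))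
  false (nat_lit 9692037)
def b0_1 : Bx := Bx.mk (St.mk (I.mix (nat_lit 15302656) (nat_lit 134316032)) (I.mix (nat_lit 8634368) (nat_lit 28246016)) (I.mix (nat_lit 16384000) (nat_lit 18628608)) (I.pos (nat_lit 15155200) (nat_lit 101597184)) (I.mix (nat_lit 31227904) (nat_lit 27049984)) (I.mix (nat_lit 29474816) (nat_lit 18989056)) (I.mix (nat_lit 23248896) (nat_lit 14204928)))
  false (nat_lit 0)
def b0_2 : Bx := Bx.mk (St.mk (I.pos (nat_lit 106872832) (nat_lit 150700032)) (I.mix (nat_lit 52133888) (nat_lit 7667712)) (I.mix (nat_lit 58228736) (nat_lit 983040)) (I.pos (nat_lit 62980096) (nat_lit 120406016)) (I.mix (nat_lit 88342528) (nat_lit 31817728)) (I.mix (nat_lit 40402944) (nat_lit 85721088)) (I.mix (nat_lit 30441472) (nat_lit 73367552)))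
  false (nat_lit 0)
def b0_3 : Bx := Bx.mk (St.mk (I.mix (nat_lit 23035904) (nat_lit 91029504)) (I.mix (nat_lit 25526272) (nat_lit 3784704)) (I.mix (nat_lit 19513344) (nat_lit 606208)) (I.pos (nat_lit 16547840) (nat_lit 66453504)) (I.mix (nat_lit 33636352) (nat_lit 15433728)) (I.mix (nat_lit 17219584) (nat_lit 29130752)) (I.mix (nat_lit 9306112) (nat_lit 15384576)))
  false (nat_lit 0)
def b0_4 : Bx := Bx.mk (St.mk (I.pos (nat_lit 116293632) (nat_lit 178782208)) (I.neg (nat_lit 2113536) (nat_lit 51052544)) (I.neg (nat_lit 5160960) (nat_lit 53510144)) (I.pos (nat_lit 81608704) (nat_lit 156418048)) (I.mix (nat_lit 67764224) (nat_lit 36470784)) (I.mix (nat_lit 34291712) (nat_lit 57704448)) (I.mix (nat_lit 29769728) (nat_lit 59031552)))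
  false (nat_lit 0)
def b0_5 : Bx := Bx.mk (St.mk (I.mix (nat_lit 15908864) (nat_lit 102825984)) (I.mix (nat_lit 28213248) (nat_lit 3866624)) (I.mix (nat_lit 21528576) (nat_lit 704512)) (I.pos (nat_lit 15990784) (nat_lit 75202560)) (I.mix (nat_lit 32112640) (nat_lit 20627456)) (I.mix (nat_lit 17219584) (nat_lit 27312128)) (I.mix (nat_lit 10108928) (nat_lit 17088512)))
  false (nat_lit 0)
def b0_6 : Bx := Bx.mk (St.mk (I.mix (nat_lit 23150592) (nat_lit 123764736)) (I.mix (nat_lit 12533760) (nat_lit 32653312)) (I.mix (nat_lit 12206080) (nat_lit 22331392)) (I.pos (nat_lit 15745024) (nat_lit 91750400)) (I.mix (nat_lit 47251456) (nat_lit 25985024)) (I.mix (nat_lit 44662784) (nat_lit 28393472)) (I.mix (nat_lit 27508736) (nat_lit 17563648)))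
  false (nat_lit 0)
def b0_7 : Bx := Bx.mk (St.mk (I.pos (nat_lit 154599424) (nat_lit 220069888)) (I.mix (nat_lit 40828928) (nat_lit 57311232)) (I.mix (nat_lit 47005696) (nat_lit 86491136)) (I.pos (nat_lit 112738304) (nat_lit 216678400)) (I.mix (nat_lit 125370368) (nat_lit 61194240)) (I.mix (nat_lit 134692864) (nat_lit 75038720)) (I.mix (nat_lit 154271744) (nat_lit 81084416)))
  false (nat_lit 0)
def t0 : BTr := (BTr.n (BTr.n (BTr.n (BTr.b b0_0) (BTr.b b0_1)) (BTr.n (BTr.b b0_2) (BTr.b b0_3))) (BTr.n (BTr.n (BTr.b b0_4) (BTr.b b0_5)) (BTr.n (BTr.b b0_6) (BTr.b b0_7))))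
namespace T0
def l0 : Tr := Tr.L (Pth.l (Pth.l (Pth.l Pth.z)))
def l1 : Tr := Tr.L (Pth.l (Pth.l (Pth.r Pth.z)))
def l2 : Tr := Tr.L (Pth.l (Pth.r (Pth.l Pth.z)))
def l3 : Tr := Tr.L (Pth.l (Pth.r (Pth.r Pth.z)))
def l4 : Tr := Tr.L (Pth.r (Pth.l (Pth.l Pth.z)))
def l5 : Tr := Tr.L (Pth.r (Pth.l (Pth.r Pth.z)))
def l6 : Tr := Tr.L (Pth.r (Pth.r (Pth.l Pth.z)))
def l7 : Tr := Tr.L (Pth.r (Pth.r (Pth.r Pth.z)))
end T0
def b1_0 : Bx := Bx.mk (St.mk (I.pos (nat_lit 156975104) (nat_lit 282689536)) (I.mix (nat_lit 19759104) (nat_lit 62111744)) (I.mix (nat_lit 68091904) (nat_lit 95830016)) (I.pos (nat_lit 180158464) (nat_lit 385925120)) (I.mix (nat_lit 103645184) (nat_lit 78413824)) (I.mix (nat_lit 98107392) (nat_lit 64684032)) (I.mix (nat_lit 143818752) (nat_lit 90210304)))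
  false (nat_lit 57624887)
def b1_1 : Bx := Bx.mk (St.mk (I.pos (nat_lit 93061120) (nat_lit 162463744)) (I.neg (nat_lit 8060928) (nat_lit 59850752)) (I.neg (nat_lit 114688) (nat_lit 53772288)) (I.pos (nat_lit 128598016) (nat_lit 188186624)) (I.mix (nat_lit 67043328) (nat_lit 39698432)) (I.mix (nat_lit 32423936) (nat_lit 55148544)) (I.mix (nat_lit 28000256) (nat_lit 47300608)))
  false (nat_lit 0)
def b1_2 : Bx := Bx.mk (St.mk (I.mix (nat_lit 29032448) (nat_lit 97468416)) (I.mix (nat_lit 6766592) (nat_lit 37814272)) (I.mix (nat_lit 14909440) (nat_lit 16646144)) (I.pos (nat_lit 83394560) (nat_lit 123764736)) (I.mix (nat_lit 36667392) (nat_lit 33275904)) (I.mix (nat_lit 36093952) (nat_lit 24231936)) (I.mix (nat_lit 21921792) (nat_lit 15007744)))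
  false (nat_lit 0)
def b1_3 : Bx := Bx.mk (St.mk (I.mix (nat_lit 30195712) (nat_lit 47202304)) (I.mix (nat_lit 33980416) (nat_lit 5210112)) (I.mix (nat_lit 12533760) (nat_lit 3260416)) (I.pos (nat_lit 82526208) (nat_lit 100089856)) (I.mix (nat_lit 28311552) (nat_lit 27738112)) (I.mix (nat_lit 19857408) (nat_lit 30212096)) (I.mix (nat_lit 8749056) (nat_lit 10633216)))
  false (nat_lit 0)
def b1_4 : Bx := Bx.mk (St.mk (I.pos (nat_lit 140673024) (nat_lit 210911232)) (I.mix (nat_lit 36798464) (nat_lit 66060288)) (I.mix (nat_lit 31293440) (nat_lit 97714176)) (I.pos (nat_lit 168083456) (nat_lit 254443520)) (I.mix (nat_lit 132153344) (nat_lit 67584000)) (I.mix (nat_lit 133840896) (nat_lit 77348864)) (I.mix (nat_lit 133693440) (nat_lit 71647232)))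
  false (nat_lit 45372977)
def b1_5 : Bx := Bx.mk (St.mk (I.pos (nat_lit 80936960) (nat_lit 123994112)) (I.mix (nat_lit 59473920) (nat_lit 7749632)) (I.neg (nat_lit 1884160) (nat_lit 53018624)) (I.pos (nat_lit 113704960) (nat_lit 147193856)) (I.mix (nat_lit 78397440) (nat_lit 34095104)) (I.mix (nat_lit 38977536) (nat_lit 69271552)) (I.mix (nat_lit 28164096) (nat_lit 47955968)))
  false (nat_lit 0)
def b1_6 : Bx := Bx.mk (St.mk (I.mix (nat_lit 48480256) (nat_lit 72695808)) (I.mix (nat_lit 8994816) (nat_lit 33980416)) (I.mix (nat_lit 12697600) (nat_lit 14368768)) (I.pos (nat_lit 82526208) (nat_lit 109772800)) (I.mix (nat_lit 28246016) (nat_lit 28311552)) (I.mix (nat_lit 30212096) (nat_lit 19857408)) (I.mix (nat_lit 9551872) (nat_lit 10682368)))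
  false (nat_lit 0)
def b1_7 : Bx := Bx.mk (St.mk (I.mix (nat_lit 47579136) (nat_lit 28540928)) (I.mix (nat_lit 33685504) (nat_lit 5472256)) (I.mix (nat_lit 10321920) (nat_lit 4538368)) (I.pos (nat_lit 83001344) (nat_lit 99778560)) (I.mix (nat_lit 30490624) (nat_lit 23855104)) (I.mix (nat_lit 19578880) (nat_lit 29999104)) (I.mix (nat_lit 10797056) (nat_lit 7421952)))
  false (nat_lit 0)
def t1 : BTr := (BTr.n (BTr.n (BTr.n (BTr.b b1_0) (BTr.b b1_1)) (BTr.n (BTr.b b1_2) (BTr.b b1_3))) (BTr.n (BTr.n (BTr.b b1_4) (BTr.b b1_5)) (BTr.n (BTr.b b1_6) (BTr.b b1_7))))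
namespace T1
def l0 : Tr := Tr.L (Pth.l (Pth.l (Pth.l Pth.z)))
def l1 : Tr := Tr.L (Pth.l (Pth.l (Pth.r Pth.z)))
def l2 : Tr := Tr.L (Pth.l (Pth.r (Pth.l Pth.z)))
def l3 : Tr := Tr.L (Pth.l (Pth.r (Pth.r Pth.z)))
def l4 : Tr := Tr.L (Pth.r (Pth.l (Pth.l Pth.z)))
def l5 : Tr := Tr.L (Pth.r (Pth.l (Pth.r Pth.z)))
def l6 : Tr := Tr.L (Pth.r (Pth.r (Pth.l Pth.z)))
def l7 : Tr := Tr.L (Pth.r (Pth.r (Pth.r Pth.z)))
end T1
def b2_0 : Bx := Bx.mk (St.mk (I.pos (nat_lit 157007872) (nat_lit 281477120)) (I.mix (nat_lit 16285696) (nat_lit 50806784)) (I.mix (nat_lit 26443776) (nat_lit 100777984)) (I.pos (nat_lit 109117440) (nat_lit 331333632)) (I.mix (nat_lit 103858176) (nat_lit 73547776)) (I.mix (nat_lit 96272384) (nat_lit 67518464)) (I.mix (nat_lit 146259968) (nat_lit 88981504)))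
  false (nat_lit 30960849)
def b2_1 : Bx := Bx.mk (St.mk (I.pos (nat_lit 117669888) (nat_lit 183746560)) (I.neg (nat_lit 5652480) (nat_lit 54968320)) (I.mix (nat_lit 48234496) (nat_lit 9322496)) (I.pos (nat_lit 86523904) (nat_lit 161153024)) (I.mix (nat_lit 62013440) (nat_lit 41238528)) (I.mix (nat_lit 37912576) (nat_lit 53493760)) (I.mix (nat_lit 32915456) (nat_lit 53002240)))
  false (nat_lit 0)
def b2_2 : Bx := Bx.mk (St.mk (I.mix (nat_lit 14254080) (nat_lit 105283584)) (I.mix (nat_lit 27508736) (nat_lit 3244032)) (I.mix (nat_lit 14942208) (nat_lit 7864320)) (I.pos (nat_lit 16039936) (nat_lit 76414976)) (I.mix (nat_lit 26591232) (nat_lit 20496384)) (I.mix (nat_lit 15220736) (nat_lit 23166976)) (I.mix (nat_lit 8978432) (nat_lit 14286848)))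
  false (nat_lit 0)
def b2_3 : Bx := Bx.mk (St.mk (I.pos (nat_lit 152993792) (nat_lit 215941120)) (I.mix (nat_lit 38387712) (nat_lit 54001664)) (I.mix (nat_lit 29212672) (nat_lit 98713600)) (I.pos (nat_lit 113737728) (nat_lit 207159296)) (I.mix (nat_lit 124338176) (nat_lit 59031552)) (I.mix (nat_lit 131072000) (nat_lit 72646656)) (I.mix (nat_lit 157433856) (nat_lit 73728000)))
  false (nat_lit 19030277)
def b2_4 : Bx := Bx.mk (St.mk (I.mix (nat_lit 24035328) (nat_lit 122208256)) (I.mix (nat_lit 12484608) (nat_lit 32587776)) (I.mix (nat_lit 4784128) (nat_lit 30490624)) (I.pos (nat_lit 15810560) (nat_lit 89178112)) (I.mix (nat_lit 51527680) (nat_lit 24461312)) (I.mix (nat_lit 47513600) (nat_lit 27803648)) (I.mix (nat_lit 31014912) (nat_lit 16924672)))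
  false (nat_lit 0)
def b2_5 : Bx := Bx.mk (St.mk (I.mix (nat_lit 14336000) (nat_lit 132268032)) (I.mix (nat_lit 5521408) (nat_lit 27246592)) (I.mix (nat_lit 3588096) (nat_lit 27312128)) (I.pos (nat_lit 15155200) (nat_lit 99631104)) (I.mix (nat_lit 38453248) (nat_lit 26542080)) (I.mix (nat_lit 34078720) (nat_lit 22036480)) (I.mix (nat_lit 26951680) (nat_lit 16007168)))
  false (nat_lit 0)
def b2_6 : Bx := Bx.mk (St.mk (I.pos (nat_lit 108527616) (nat_lit 155467776)) (I.mix (nat_lit 54788096) (nat_lit 6848512)) (I.mix (nat_lit 48988160) (nat_lit 10125312)) (I.pos (nat_lit 64602112) (nat_lit 125452288)) (I.mix (nat_lit 84836352) (nat_lit 34897920)) (I.mix (nat_lit 42156032) (nat_lit 82378752)) (I.mix (nat_lit 33144832) (nat_lit 66355200)))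
  false (nat_lit 0)
def b2_7 : Bx := Bx.mk (St.mk (I.mix (nat_lit 18399232) (nat_lit 93126656)) (I.mix (nat_lit 25919488) (nat_lit 3571712)) (I.mix (nat_lit 13418496) (nat_lit 4194304)) (I.pos (nat_lit 16580608) (nat_lit 67731456)) (I.mix (nat_lit 30212096) (nat_lit 16728064)) (I.mix (nat_lit 17170432) (nat_lit 26804224)) (I.mix (nat_lit 9207808) (nat_lit 13729792)))
  false (nat_lit 0)
def t2 : BTr := (BTr.n (BTr.n (BTr.n (BTr.b b2_0) (BTr.b b2_1)) (BTr.n (BTr.b b2_2) (BTr.b b2_3))) (BTr.n (BTr.n (BTr.b b2_4) (BTr.b b2_5)) (BTr.n (BTr.b b2_6) (BTr.b b2_7))))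
namespace T2
def l0 : Tr := Tr.L (Pth.l (Pth.l (Pth.l Pth.z)))
def l1 : Tr := Tr.L (Pth.l (Pth.l (Pth.r Pth.z)))
def l2 : Tr := Tr.L (Pth.l (Pth.r (Pth.l Pth.z)))
def l3 : Tr := Tr.L (Pth.l (Pth.r (Pth.r Pth.z)))
def l4 : Tr := Tr.L (Pth.r (Pth.l (Pth.l Pth.z)))
def l5 : Tr := Tr.L (Pth.r (Pth.l (Pth.r Pth.z)))
def l6 : Tr := Tr.L (Pth.r (Pth.r (Pth.l Pth.z)))
def l7 : Tr := Tr.L (Pth.r (Pth.r (Pth.r Pth.z)))
end T2
theorem bx0_0 : BoxOK sI cl6 cl9 cl9 t1 t1 b0_0 :=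
  box_mk (TrL.c (I.pos (nat_lit 0) (nat_lit 0)) (xa (xa (xb T1.l0 T1.l0) (xb T1.l0 T1.l0)) (xa (xb T1.l0 T1.l0) (xb T1.l0 T1.l0)))
  (TrL.c (I.pos (nat_lit 0) (nat_lit 0)) (xa T1.l1 (xb T1.l1 T1.l1))
  (TrL.c (I.pos (nat_lit 0) (nat_lit 89480386)) (xR (xR T1.l2 T1.l2) (xR T1.l2 T1.l2))
  (TrL.c (I.pos (nat_lit 0) (nat_lit 41530880)) T1.l3
  (TrL.c (I.pos (nat_lit 0) (nat_lit 0)) (xa T1.l4 (xb (xa T1.l4 T1.l4) (xa T1.l4 T1.l4)))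
  (TrL.c (I.pos (nat_lit 0) (nat_lit 0)) (xa T1.l5 T1.l5)
  (TrL.c (I.mix (nat_lit 41527258) (nat_lit 41530880)) (xR T1.l6 T1.l2)
  (TrL.c (I.mix (nat_lit 41527258) (nat_lit 4274)) T1.l7
  TrL.n)))))))) (by decide +kernel)
theorem bx0_1 : BoxOK sI cl6 cl9 cl9 t1 t1 b0_1 :=
  box_mk (TrL.c (I.pos (nat_lit 0) (nat_lit 0)) (xa T1.l0 T1.l0)
  (TrL.c (I.pos (nat_lit 0) (nat_lit 0)) (xa T1.l1 T1.l1)
  (TrL.c (I.pos (nat_lit 0) (nat_lit 89480386)) (xR T1.l2 T1.l2)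
  (TrL.c (I.pos (nat_lit 0) (nat_lit 41530880)) T1.l3
  (TrL.c (I.pos (nat_lit 0) (nat_lit 0)) T1.l4
  (TrL.c (I.pos (nat_lit 0) (nat_lit 0)) T1.l5
  (TrL.c (I.mix (nat_lit 41527258) (nat_lit 41530880)) T1.l6
  (TrL.c (I.mix (nat_lit 41527258) (nat_lit 4274)) T1.l7
  TrL.n)))))))) (by decide +kernel)
theorem bx0_2 : BoxOK sI cl6 cl9 cl9 t1 t1 b0_2 :=
  box_mk (TrL.c (I.pos (nat_lit 0) (nat_lit 0)) T1.l0
  (TrL.c (I.pos (nat_lit 0) (nat_lit 0)) T1.l1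
  (TrL.c (I.pos (nat_lit 0) (nat_lit 89480386)) (xR T1.l2 T1.l2)
  (TrL.c (I.pos (nat_lit 0) (nat_lit 41530880)) T1.l3
  (TrL.c (I.pos (nat_lit 0) (nat_lit 0)) T1.l4
  (TrL.c (I.pos (nat_lit 0) (nat_lit 0)) T1.l5
  (TrL.c (I.mix (nat_lit 41527258) (nat_lit 41530880)) T1.l6
  (TrL.c (I.mix (nat_lit 41527258) (nat_lit 4274)) T1.l7
  TrL.n)))))))) (by decide +kernel)
theorem bx0_3 : BoxOK sI cl6 cl9 cl9 t1 t1 b0_3 :=
  box_mk (TrL.c (I.pos (nat_lit 0) (nat_lit 0)) (xa (xa T1.l0 T1.l0) T1.l0)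
  (TrL.c (I.pos (nat_lit 0) (nat_lit 0)) T1.l1
  (TrL.c (I.pos (nat_lit 0) (nat_lit 89480386)) T1.l2
  (TrL.c (I.pos (nat_lit 0) (nat_lit 41530880)) T1.l3
  (TrL.c (I.pos (nat_lit 0) (nat_lit 0)) T1.l4
  (TrL.c (I.pos (nat_lit 0) (nat_lit 0)) T1.l5
  (TrL.c (I.mix (nat_lit 41527258) (nat_lit 41530880)) T1.l6
  (TrL.c (I.mix (nat_lit 41527258) (nat_lit 4274)) T1.l7
  TrL.n)))))))) (by decide +kernel)
theorem bx0_4 : BoxOK sI cl6 cl9 cl9 t1 t1 b0_4 :=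
  box_mk (TrL.c (I.pos (nat_lit 0) (nat_lit 0)) T1.l0
  (TrL.c (I.pos (nat_lit 0) (nat_lit 0)) T1.l1
  (TrL.c (I.pos (nat_lit 0) (nat_lit 89480386)) (xR T1.l2 T1.l2)
  (TrL.c (I.pos (nat_lit 0) (nat_lit 41530880)) T1.l3
  (TrL.c (I.pos (nat_lit 0) (nat_lit 0)) T1.l4
  (TrL.c (I.pos (nat_lit 0) (nat_lit 0)) T1.l5
  (TrL.c (I.mix (nat_lit 41527258) (nat_lit 41530880)) T1.l6
  (TrL.c (I.mix (nat_lit 41527258) (nat_lit 4274)) T1.l7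
  TrL.n)))))))) (by decide +kernel)
theorem bx0_5 : BoxOK sI cl6 cl9 cl9 t1 t1 b0_5 :=
  box_mk (TrL.c (I.pos (nat_lit 0) (nat_lit 0)) T1.l0
  (TrL.c (I.pos (nat_lit 0) (nat_lit 0)) T1.l1
  (TrL.c (I.pos (nat_lit 0) (nat_lit 89480386)) (xR T1.l2 T1.l2)
  (TrL.c (I.pos (nat_lit 0) (nat_lit 41530880)) T1.l3
  (TrL.c (I.pos (nat_lit 0) (nat_lit 0)) T1.l4
  (TrL.c (I.pos (nat_lit 0) (nat_lit 0)) T1.l5
  (TrL.c (I.mix (nat_lit 41527258) (nat_lit 41530880)) T1.l6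
  (TrL.c (I.mix (nat_lit 41527258) (nat_lit 4274)) T1.l7
  TrL.n)))))))) (by decide +kernel)
theorem bx0_6 : BoxOK sI cl6 cl9 cl9 t1 t1 b0_6 :=
  box_mk (TrL.c (I.pos (nat_lit 0) (nat_lit 0)) (xa (xa T1.l0 T1.l0) T1.l0)
  (TrL.c (I.pos (nat_lit 0) (nat_lit 0)) (xa T1.l1 T1.l1)
  (TrL.c (I.pos (nat_lit 0) (nat_lit 89480386)) (xR T1.l2 T1.l2)
  (TrL.c (I.pos (nat_lit 0) (nat_lit 41530880)) T1.l3
  (TrL.c (I.pos (nat_lit 0) (nat_lit 0)) T1.l4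
  (TrL.c (I.pos (nat_lit 0) (nat_lit 0)) T1.l5
  (TrL.c (I.mix (nat_lit 41527258) (nat_lit 41530880)) T1.l6
  (TrL.c (I.mix (nat_lit 41527258) (nat_lit 4274)) T1.l7
  TrL.n)))))))) (by decide +kernel)
theorem bx0_7 : BoxOK sI cl6 cl9 cl9 t1 t1 b0_7 :=
  box_mk (TrL.c (I.pos (nat_lit 0) (nat_lit 0)) (xb (xa T1.l0 T1.l0) (xa T1.l0 T1.l0))
  (TrL.c (I.pos (nat_lit 0) (nat_lit 0)) (xb T1.l1 T1.l1)
  (TrL.c (I.pos (nat_lit 0) (nat_lit 89480386)) (xR T1.l2 (xR T1.l2 T1.l2))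
  (TrL.c (I.pos (nat_lit 0) (nat_lit 41530880)) T1.l3
  (TrL.c (I.pos (nat_lit 0) (nat_lit 0)) (xb T1.l4 T1.l4)
  (TrL.c (I.pos (nat_lit 0) (nat_lit 0)) T1.l5
  (TrL.c (I.mix (nat_lit 41527258) (nat_lit 41530880)) (xR T1.l6 T1.l2)
  (TrL.c (I.mix (nat_lit 41527258) (nat_lit 4274)) T1.l7
  TrL.n)))))))) (by decide +kernel)
theorem sv0 : StarV sI cl6 cl9 cl9 t1 t1 t0 :=
  (bt_n (bt_n (bt_n (bt_b bx0_0) (bt_b bx0_1)) (bt_n (bt_b bx0_2) (bt_b bx0_3))) (bt_n (bt_n (bt_b bx0_4) (bt_b bx0_5)) (bt_n (bt_b bx0_6) (bt_b bx0_7))))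
def S0 : StarD := StarD.mk cl6 cl9 cl9 1 1 t0
theorem bx1_0 : BoxOK sI cl9 cl6 cl9 t0 t2 b1_0 :=
  box_mk (TrL.c (I.pos (nat_lit 0) (nat_lit 0)) (xa (xa T0.l0 T0.l0) (xa T0.l0 T0.l0))
  (TrL.c (I.pos (nat_lit 0) (nat_lit 0)) (xa (xb T2.l1 T2.l1) (xk T2.l6 T2.l6))
  (TrL.c (I.pos (nat_lit 0) (nat_lit 124588530)) (xR T0.l6 (xR T0.l1 T0.l6))
  (TrL.c (I.pos (nat_lit 0) (nat_lit 96881482)) (xR T2.l2 (xR T2.l2 T2.l2))
  (TrL.c (I.pos (nat_lit 0) (nat_lit 0)) (xa (xb (xa T2.l3 T2.l3) T2.l3) (xb (xk (xa T2.l3 (xb T2.l3 T2.l3)) (xa T2.l3 (xb T2.l3 T2.l3))) (xa (xk T2.l3 (xb T2.l3 T2.l3)) (xk (xb T2.l3 (xk (xs T2.l3 (xa T2.l3 T2.l3)) (xa T2.l3 (xs T2.l3 T2.l3)))) (xb (xs T2.l3 T2.l3) (xa (xs T2.l3 (xk T2.l3 T2.l3)) (xk (xs T2.l3 (xb T2.l3 (xs T2.l3 T2.l3))) (xs T2.l3 (xb T2.l3 (xs T2.l3 T2.l3))))))))))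
  (TrL.c (I.pos (nat_lit 0) (nat_lit 0)) (xa T0.l2 T0.l2)
  (TrL.c (I.mix (nat_lit 17240550) (nat_lit 96881482)) (xR T2.l4 (xR T2.l4 T2.l4))
  (TrL.c (I.mix (nat_lit 17240550) (nat_lit 71940500)) (xR T0.l3 T0.l3)
  TrL.n)))))))) (by decide +kernel)
theorem bx1_1 : BoxOK sI cl9 cl6 cl9 t0 t2 b1_1 :=
  box_mk (TrL.c (I.pos (nat_lit 0) (nat_lit 0)) T0.l0
  (TrL.c (I.pos (nat_lit 0) (nat_lit 0)) T2.l1
  (TrL.c (I.pos (nat_lit 0) (nat_lit 124588530)) (xR T0.l1 T0.l1)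
  (TrL.c (I.pos (nat_lit 0) (nat_lit 96881482)) (xR T2.l2 T2.l2)
  (TrL.c (I.pos (nat_lit 0) (nat_lit 0)) T2.l3
  (TrL.c (I.pos (nat_lit 0) (nat_lit 0)) T0.l2
  (TrL.c (I.mix (nat_lit 17240550) (nat_lit 96881482)) T2.l4
  (TrL.c (I.mix (nat_lit 17240550) (nat_lit 71940500)) T0.l3
  TrL.n)))))))) (by decide +kernel)
theorem bx1_2 : BoxOK sI cl9 cl6 cl9 t0 t2 b1_2 :=
  box_mk (TrL.c (I.pos (nat_lit 0) (nat_lit 0)) T0.l0
  (TrL.c (I.pos (nat_lit 0) (nat_lit 0)) T2.l1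
  (TrL.c (I.pos (nat_lit 0) (nat_lit 124588530)) T0.l1
  (TrL.c (I.pos (nat_lit 0) (nat_lit 96881482)) T2.l2
  (TrL.c (I.pos (nat_lit 0) (nat_lit 0)) T2.l3
  (TrL.c (I.pos (nat_lit 0) (nat_lit 0)) T0.l2
  (TrL.c (I.mix (nat_lit 17240550) (nat_lit 96881482)) T2.l4
  (TrL.c (I.mix (nat_lit 17240550) (nat_lit 71940500)) T0.l3
  TrL.n)))))))) (by decide +kernel)
theorem bx1_3 : BoxOK sI cl9 cl6 cl9 t0 t2 b1_3 :=
  box_mk (TrL.c (I.pos (nat_lit 0) (nat_lit 0)) T0.l0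
  (TrL.c (I.pos (nat_lit 0) (nat_lit 0)) T2.l1
  (TrL.c (I.pos (nat_lit 0) (nat_lit 124588530)) T0.l1
  (TrL.c (I.pos (nat_lit 0) (nat_lit 96881482)) T2.l4
  (TrL.c (I.pos (nat_lit 0) (nat_lit 0)) T2.l3
  (TrL.c (I.pos (nat_lit 0) (nat_lit 0)) T0.l2
  (TrL.c (I.mix (nat_lit 17240550) (nat_lit 96881482)) T2.l4
  (TrL.c (I.mix (nat_lit 17240550) (nat_lit 71940500)) T0.l3
  TrL.n)))))))) (by decide +kernel)
theorem bx1_4 : BoxOK sI cl9 cl6 cl9 t0 t2 b1_4 :=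
  box_mk (TrL.c (I.pos (nat_lit 0) (nat_lit 0)) (xb T0.l0 (xa T0.l0 T0.l0))
  (TrL.c (I.pos (nat_lit 0) (nat_lit 0)) (xb T2.l1 T2.l1)
  (TrL.c (I.pos (nat_lit 0) (nat_lit 124588530)) (xR T0.l1 (xR T0.l1 T0.l1))
  (TrL.c (I.pos (nat_lit 0) (nat_lit 96881482)) (xR T2.l2 (xR T2.l2 T2.l2))
  (TrL.c (I.pos (nat_lit 0) (nat_lit 0)) (xb (xa T2.l3 (xk T2.l3 T2.l3)) (xa T2.l3 (xb T2.l3 (xk T2.l3 T2.l3))))
  (TrL.c (I.pos (nat_lit 0) (nat_lit 0)) T0.l2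
  (TrL.c (I.mix (nat_lit 17240550) (nat_lit 96881482)) (xR T2.l4 (xR T2.l4 T2.l4))
  (TrL.c (I.mix (nat_lit 17240550) (nat_lit 71940500)) (xR T0.l3 T0.l3)
  TrL.n)))))))) (by decide +kernel)
theorem bx1_5 : BoxOK sI cl9 cl6 cl9 t0 t2 b1_5 :=
  box_mk (TrL.c (I.pos (nat_lit 0) (nat_lit 0)) T0.l0
  (TrL.c (I.pos (nat_lit 0) (nat_lit 0)) T2.l1
  (TrL.c (I.pos (nat_lit 0) (nat_lit 124588530)) (xR T0.l1 T0.l1)
  (TrL.c (I.pos (nat_lit 0) (nat_lit 96881482)) T2.l2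
  (TrL.c (I.pos (nat_lit 0) (nat_lit 0)) T2.l3
  (TrL.c (I.pos (nat_lit 0) (nat_lit 0)) T0.l2
  (TrL.c (I.mix (nat_lit 17240550) (nat_lit 96881482)) T2.l4
  (TrL.c (I.mix (nat_lit 17240550) (nat_lit 71940500)) T0.l3
  TrL.n)))))))) (by decide +kernel)
theorem bx1_6 : BoxOK sI cl9 cl6 cl9 t0 t2 b1_6 :=
  box_mk (TrL.c (I.pos (nat_lit 0) (nat_lit 0)) (xa T0.l0 T0.l0)
  (TrL.c (I.pos (nat_lit 0) (nat_lit 0)) T2.l1
  (TrL.c (I.pos (nat_lit 0) (nat_lit 124588530)) T0.l1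
  (TrL.c (I.pos (nat_lit 0) (nat_lit 96881482)) (xR T2.l2 T2.l2)
  (TrL.c (I.pos (nat_lit 0) (nat_lit 0)) T2.l3
  (TrL.c (I.pos (nat_lit 0) (nat_lit 0)) T0.l2
  (TrL.c (I.mix (nat_lit 17240550) (nat_lit 96881482)) T2.l4
  (TrL.c (I.mix (nat_lit 17240550) (nat_lit 71940500)) T0.l3
  TrL.n)))))))) (by decide +kernel)
theorem bx1_7 : BoxOK sI cl9 cl6 cl9 t0 t2 b1_7 :=
  box_mk (TrL.c (I.pos (nat_lit 0) (nat_lit 0)) (xa (xb T0.l0 T0.l0) T0.l0)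
  (TrL.c (I.pos (nat_lit 0) (nat_lit 0)) T2.l3
  (TrL.c (I.pos (nat_lit 0) (nat_lit 124588530)) T0.l1
  (TrL.c (I.pos (nat_lit 0) (nat_lit 96881482)) T2.l4
  (TrL.c (I.pos (nat_lit 0) (nat_lit 0)) T2.l3
  (TrL.c (I.pos (nat_lit 0) (nat_lit 0)) T0.l1
  (TrL.c (I.mix (nat_lit 17240550) (nat_lit 96881482)) T2.l4
  (TrL.c (I.mix (nat_lit 17240550) (nat_lit 71940500)) T0.l6
  TrL.n)))))))) (by decide +kernel)
theorem sv1 : StarV sI cl9 cl6 cl9 t0 t2 t1 :=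
  (bt_n (bt_n (bt_n (bt_b bx1_0) (bt_b bx1_1)) (bt_n (bt_b bx1_2) (bt_b bx1_3))) (bt_n (bt_n (bt_b bx1_4) (bt_b bx1_5)) (bt_n (bt_b bx1_6) (bt_b bx1_7))))
def S1 : StarD := StarD.mk cl9 cl6 cl9 0 2 t1
theorem bx2_0 : BoxOK sI cl9 cl9 cl6 t2 t0 b2_0 :=
  box_mk (TrL.c (I.pos (nat_lit 0) (nat_lit 0)) (xa (xa T2.l0 T2.l0) (xa (xb T2.l0 T2.l0) (xb T2.l0 T2.l0)))
  (TrL.c (I.pos (nat_lit 0) (nat_lit 0)) (xa (xa T0.l4 T0.l4) (xa T0.l4 T0.l2))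
  (TrL.c (I.pos (nat_lit 0) (nat_lit 124588530)) (xR T2.l4 (xR T2.l5 T2.l5))
  (TrL.c (I.pos (nat_lit 0) (nat_lit 96881482)) (xR T0.l3 (xR T0.l5 T0.l5))
  (TrL.c (I.pos (nat_lit 0) (nat_lit 0)) (xa (xa T0.l7 T0.l7) (xa (xb (xk T0.l7 T0.l7) (xk T0.l7 T0.l7)) (xb (xk (xa T0.l7 T0.l7) (xa T0.l7 T0.l7)) (xk (xk (xb T0.l7 (xs T0.l7 T0.l7)) (xb T0.l7 (xs T0.l7 T0.l7))) (xa (xb T0.l7 T0.l7) (xk (xb T0.l7 (xs T0.l7 T0.l7)) (xb T0.l7 (xs T0.l7 (xb T0.l7 T0.l7)))))))))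
  (TrL.c (I.pos (nat_lit 0) (nat_lit 0)) (xa T2.l6 T2.l6)
  (TrL.c (I.mix (nat_lit 17240550) (nat_lit 96881482)) (xR T0.l6 (xR T0.l6 T0.l6))
  (TrL.c (I.mix (nat_lit 17240550) (nat_lit 71940500)) (xR T2.l7 T2.l7)
  TrL.n)))))))) (by decide +kernel)
theorem bx2_1 : BoxOK sI cl9 cl9 cl6 t2 t0 b2_1 :=
  box_mk (TrL.c (I.pos (nat_lit 0) (nat_lit 0)) T2.l0
  (TrL.c (I.pos (nat_lit 0) (nat_lit 0)) T0.l4
  (TrL.c (I.pos (nat_lit 0) (nat_lit 124588530)) (xR T2.l5 T2.l5)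
  (TrL.c (I.pos (nat_lit 0) (nat_lit 96881482)) (xR T0.l5 T0.l5)
  (TrL.c (I.pos (nat_lit 0) (nat_lit 0)) T0.l7
  (TrL.c (I.pos (nat_lit 0) (nat_lit 0)) T2.l6
  (TrL.c (I.mix (nat_lit 17240550) (nat_lit 96881482)) (xR T0.l6 T0.l6)
  (TrL.c (I.mix (nat_lit 17240550) (nat_lit 71940500)) (xR T2.l7 T2.l7)
  TrL.n)))))))) (by decide +kernel)
theorem bx2_2 : BoxOK sI cl9 cl9 cl6 t2 t0 b2_2 :=
  box_mk (TrL.c (I.pos (nat_lit 0) (nat_lit 0)) (xa T2.l0 T2.l0)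
  (TrL.c (I.pos (nat_lit 0) (nat_lit 0)) T0.l4
  (TrL.c (I.pos (nat_lit 0) (nat_lit 124588530)) T2.l5
  (TrL.c (I.pos (nat_lit 0) (nat_lit 96881482)) (xR T0.l5 T0.l5)
  (TrL.c (I.pos (nat_lit 0) (nat_lit 0)) T0.l7
  (TrL.c (I.pos (nat_lit 0) (nat_lit 0)) T2.l6
  (TrL.c (I.mix (nat_lit 17240550) (nat_lit 96881482)) T0.l6
  (TrL.c (I.mix (nat_lit 17240550) (nat_lit 71940500)) T2.l4
  TrL.n)))))))) (by decide +kernel)
theorem bx2_3 : BoxOK sI cl9 cl9 cl6 t2 t0 b2_3 :=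
  box_mk (TrL.c (I.pos (nat_lit 0) (nat_lit 0)) (xb (xa T2.l0 T2.l0) (xa T2.l0 T2.l0))
  (TrL.c (I.pos (nat_lit 0) (nat_lit 0)) (xb T0.l4 (xa T0.l4 T0.l4))
  (TrL.c (I.pos (nat_lit 0) (nat_lit 124588530)) (xR T2.l5 (xR T2.l5 T2.l5))
  (TrL.c (I.pos (nat_lit 0) (nat_lit 96881482)) (xR T0.l5 (xR T0.l5 T0.l5))
  (TrL.c (I.pos (nat_lit 0) (nat_lit 0)) (xb (xa T0.l7 (xk T0.l7 T0.l7)) (xb T0.l7 (xa T0.l7 T0.l7)))
  (TrL.c (I.pos (nat_lit 0) (nat_lit 0)) T2.l6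
  (TrL.c (I.mix (nat_lit 17240550) (nat_lit 96881482)) (xR T0.l6 (xR T0.l6 T0.l6))
  (TrL.c (I.mix (nat_lit 17240550) (nat_lit 71940500)) (xR T2.l7 T2.l7)
  TrL.n)))))))) (by decide +kernel)
theorem bx2_4 : BoxOK sI cl9 cl9 cl6 t2 t0 b2_4 :=
  box_mk (TrL.c (I.pos (nat_lit 0) (nat_lit 0)) (xa T2.l0 T2.l0)
  (TrL.c (I.pos (nat_lit 0) (nat_lit 0)) (xa T0.l4 T0.l4)
  (TrL.c (I.pos (nat_lit 0) (nat_lit 124588530)) (xR T2.l5 T2.l5)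
  (TrL.c (I.pos (nat_lit 0) (nat_lit 96881482)) (xR T0.l5 T0.l5)
  (TrL.c (I.pos (nat_lit 0) (nat_lit 0)) (xa T0.l7 T0.l7)
  (TrL.c (I.pos (nat_lit 0) (nat_lit 0)) T2.l6
  (TrL.c (I.mix (nat_lit 17240550) (nat_lit 96881482)) T0.l6
  (TrL.c (I.mix (nat_lit 17240550) (nat_lit 71940500)) T2.l4
  TrL.n)))))))) (by decide +kernel)
theorem bx2_5 : BoxOK sI cl9 cl9 cl6 t2 t0 b2_5 :=
  box_mk (TrL.c (I.pos (nat_lit 0) (nat_lit 0)) (xa T2.l0 T2.l0)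
  (TrL.c (I.pos (nat_lit 0) (nat_lit 0)) (xa T0.l4 T0.l4)
  (TrL.c (I.pos (nat_lit 0) (nat_lit 124588530)) (xR T2.l5 T2.l5)
  (TrL.c (I.pos (nat_lit 0) (nat_lit 96881482)) (xR T0.l5 T0.l5)
  (TrL.c (I.pos (nat_lit 0) (nat_lit 0)) (xa T0.l7 T0.l7)
  (TrL.c (I.pos (nat_lit 0) (nat_lit 0)) T2.l6
  (TrL.c (I.mix (nat_lit 17240550) (nat_lit 96881482)) T0.l6
  (TrL.c (I.mix (nat_lit 17240550) (nat_lit 71940500)) (xR T2.l4 T2.l7)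
  TrL.n)))))))) (by decide +kernel)
theorem bx2_6 : BoxOK sI cl9 cl9 cl6 t2 t0 b2_6 :=
  box_mk (TrL.c (I.pos (nat_lit 0) (nat_lit 0)) T2.l0
  (TrL.c (I.pos (nat_lit 0) (nat_lit 0)) T0.l4
  (TrL.c (I.pos (nat_lit 0) (nat_lit 124588530)) (xR T2.l5 T2.l5)
  (TrL.c (I.pos (nat_lit 0) (nat_lit 96881482)) (xR T0.l5 T0.l5)
  (TrL.c (I.pos (nat_lit 0) (nat_lit 0)) T0.l7
  (TrL.c (I.pos (nat_lit 0) (nat_lit 0)) T2.l6
  (TrL.c (I.mix (nat_lit 17240550) (nat_lit 96881482)) T0.l6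
  (TrL.c (I.mix (nat_lit 17240550) (nat_lit 71940500)) T2.l7
  TrL.n)))))))) (by decide +kernel)
theorem bx2_7 : BoxOK sI cl9 cl9 cl6 t2 t0 b2_7 :=
  box_mk (TrL.c (I.pos (nat_lit 0) (nat_lit 0)) (xa (xa T2.l0 T2.l0) T2.l0)
  (TrL.c (I.pos (nat_lit 0) (nat_lit 0)) T0.l4
  (TrL.c (I.pos (nat_lit 0) (nat_lit 124588530)) T2.l5
  (TrL.c (I.pos (nat_lit 0) (nat_lit 96881482)) (xR T0.l5 T0.l5)
  (TrL.c (I.pos (nat_lit 0) (nat_lit 0)) T0.l7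
  (TrL.c (I.pos (nat_lit 0) (nat_lit 0)) T2.l6
  (TrL.c (I.mix (nat_lit 17240550) (nat_lit 96881482)) T0.l6
  (TrL.c (I.mix (nat_lit 17240550) (nat_lit 71940500)) T2.l4
  TrL.n)))))))) (by decide +kernel)
theorem sv2 : StarV sI cl9 cl9 cl6 t2 t0 t2 :=
  (bt_n (bt_n (bt_n (bt_b bx2_0) (bt_b bx2_1)) (bt_n (bt_b bx2_2) (bt_b bx2_3))) (bt_n (bt_n (bt_b bx2_4) (bt_b bx2_5)) (bt_n (bt_b bx2_6) (bt_b bx2_7))))
def S2 : StarD := StarD.mk cl9 cl9 cl6 2 0 t2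
def G : List StarD := [S0, S1, S2]
theorem so0 : StarOK sI G S0 :=
  star_mk (by decide) (by decide) rfl rfl rfl rfl rfl rfl (rfl : _ = t1) (rfl : _ = t1)
  (st_mk (Pth.l (Pth.l (Pth.l Pth.z))) (nat_lit 116318812) (nat_lit 134906365) (by decide +kernel))
  (st_mk (Pth.l (Pth.l (Pth.l Pth.z))) (nat_lit 152080470) (nat_lit 170946793) (by decide +kernel))
  (st_mk (Pth.l (Pth.l (Pth.l Pth.z))) (nat_lit 193638927) (nat_lit 212884214) (by decide +kernel)) sv0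
theorem so1 : StarOK sI G S1 :=
  star_mk (by decide) (by decide) rfl rfl rfl rfl rfl rfl (rfl : _ = t0) (rfl : _ = t2)
  (st_mk (Pth.l (Pth.l (Pth.l Pth.z))) (nat_lit 186515751) (nat_lit 187843798) (by decide +kernel))
  (st_mk (Pth.l (Pth.l (Pth.l Pth.z))) (nat_lit 221689585) (nat_lit 223345268) (by decide +kernel))
  (st_mk (Pth.l (Pth.l (Pth.l Pth.z))) (nat_lit 262334673) (nat_lit 264441370) (by decide +kernel)) sv1
theorem so2 : StarOK sI G S2 :=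
  star_mk (by decide) (by decide) rfl rfl rfl rfl rfl rfl (rfl : _ = t2) (rfl : _ = t0)
  (st_mk (Pth.l (Pth.l (Pth.l Pth.z))) (nat_lit 115415104) (nat_lit 133900082) (by decide +kernel))
  (st_mk (Pth.l (Pth.l (Pth.l Pth.z))) (nat_lit 150538003) (nat_lit 169321160) (by decide +kernel))
  (st_mk (Pth.l (Pth.l (Pth.l Pth.z))) (nat_lit 191138937) (nat_lit 210347920) (by decide +kernel)) sv2
theorem ok : GroupOK (nat_lit 91226112) (nat_lit 150339584) G := grp_mk (allS_c so0 (allS_c so1 (allS_c so2 allS_n)))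
theorem cov : GCov G cl6 cl9 cl9 := cov_mk
  ⟨0, by decide, rfl, rfl, rfl⟩ ⟨0, by decide, rfl, rfl, rfl⟩ ⟨1, by decide, rfl, rfl, rfl⟩ ⟨2, by decide, rfl, rfl, rfl⟩ ⟨1, by decide, rfl, rfl, rfl⟩ ⟨2, by decide, rfl, rfl, rfl⟩
end Q355_1

namespace Q355_2
def sI : I := I.pos (nat_lit 150274048) (nat_lit 209387520)
def b0_0 : Bx := Bx.mk (St.mk (I.pos (nat_lit 160514048) (nat_lit 238632960)) (I.mix (nat_lit 278528) (nat_lit 55918592)) (I.mix (nat_lit 278528) (nat_lit 86622208)) (I.pos (nat_lit 116506624) (nat_lit 244695040)) (I.mix (nat_lit 102301696) (nat_lit 65863680)) (I.mix (nat_lit 69894144) (nat_lit 65748992)) (I.mix (nat_lit 100155392) (nat_lit 84115456)))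
  false (nat_lit 26930678)
def b0_1 : Bx := Bx.mk (St.mk (I.mix (nat_lit 17416192) (nat_lit 132202496)) (I.mix (nat_lit 8077312) (nat_lit 28901376)) (I.mix (nat_lit 15843328) (nat_lit 19005440)) (I.pos (nat_lit 16449536) (nat_lit 100892672)) (I.mix (nat_lit 34947072) (nat_lit 31358976)) (I.mix (nat_lit 27033600) (nat_lit 21692416)) (I.mix (nat_lit 21413888) (nat_lit 15663104)))
  false (nat_lit 0)
def b0_2 : Bx := Bx.mk (St.mk (I.pos (nat_lit 105005056) (nat_lit 153731072)) (I.mix (nat_lit 54132736) (nat_lit 7028736)) (I.neg (nat_lit 245760) (nat_lit 59686912)) (I.pos (nat_lit 62799872) (nat_lit 122781696)) (I.mix (nat_lit 93487104) (nat_lit 32047104)) (I.mix (nat_lit 36306944) (nat_lit 80199680)) (I.mix (nat_lit 25755648) (nat_lit 66912256)))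
  false (nat_lit 0)
def b0_3 : Bx := Bx.mk (St.mk (I.mix (nat_lit 21659648) (nat_lit 91209728)) (I.mix (nat_lit 26624000) (nat_lit 3194880)) (I.mix (nat_lit 20119552) (nat_lit 81920)) (I.pos (nat_lit 17072128) (nat_lit 66879488)) (I.mix (nat_lit 34258944) (nat_lit 15728640)) (I.mix (nat_lit 15335424) (nat_lit 24608768)) (I.mix (nat_lit 8192000) (nat_lit 13271040)))
  false (nat_lit 0)
def b0_4 : Bx := Bx.mk (St.mk (I.pos (nat_lit 199655424) (nat_lit 283312128)) (I.mix (nat_lit 24821760) (nat_lit 36601856)) (I.mix (nat_lit 76464128) (nat_lit 50069504)) (I.pos (nat_lit 193904640) (nat_lit 343097344)) (I.mix (nat_lit 70991872) (nat_lit 43859968)) (I.mix (nat_lit 47955968) (nat_lit 41746432)) (I.mix (nat_lit 81936384) (nat_lit 74235904)))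
  false (nat_lit 21263269)
def b0_5 : Bx := Bx.mk (St.mk (I.pos (nat_lit 97452032) (nat_lit 180633600)) (I.mix (nat_lit 57425920) (nat_lit 2637824)) (I.neg (nat_lit 2785280) (nat_lit 60981248)) (I.pos (nat_lit 74809344) (nat_lit 158941184)) (I.mix (nat_lit 91062272) (nat_lit 50626560)) (I.mix (nat_lit 42926080) (nat_lit 66420736)) (I.mix (nat_lit 35340288) (nat_lit 67584000)))
  false (nat_lit 9536894)
def b0_6 : Bx := Bx.mk (St.mk (I.mix (nat_lit 34258944) (nat_lit 101564416)) (I.mix (nat_lit 30556160) (nat_lit 6881280)) (I.mix (nat_lit 25067520) (nat_lit 1654784)) (I.pos (nat_lit 14139392) (nat_lit 74858496)) (I.mix (nat_lit 41238528) (nat_lit 29556736)) (I.mix (nat_lit 21643264) (nat_lit 31948800)) (I.mix (nat_lit 13647872) (nat_lit 20856832)))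
  false (nat_lit 0)
def b0_7 : Bx := Bx.mk (St.mk (I.pos (nat_lit 170065920) (nat_lit 219873280)) (I.mix (nat_lit 11812864) (nat_lit 56066048)) (I.mix (nat_lit 671744) (nat_lit 84639744)) (I.pos (nat_lit 134774784) (nat_lit 218431488)) (I.mix (nat_lit 127942656) (nat_lit 51150848)) (I.mix (nat_lit 121028608) (nat_lit 62586880)) (I.mix (nat_lit 134529024) (nat_lit 63586304)))
  false (nat_lit 0)
def b0_8 : Bx := Bx.mk (St.mk (I.mix (nat_lit 24559616) (nat_lit 124960768)) (I.mix (nat_lit 13778944) (nat_lit 35291136)) (I.mix (nat_lit 13123584) (nat_lit 24166400)) (I.pos (nat_lit 17612800) (nat_lit 92667904)) (I.mix (nat_lit 50102272) (nat_lit 28278784)) (I.mix (nat_lit 46055424) (nat_lit 25608192)) (I.mix (nat_lit 29491200) (nat_lit 15974400)))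
  false (nat_lit 0)
def b0_9 : Bx := Bx.mk (St.mk (I.pos (nat_lit 148799488) (nat_lit 214155264)) (I.mix (nat_lit 44007424) (nat_lit 18350080)) (I.mix (nat_lit 51331072) (nat_lit 30703616)) (I.pos (nat_lit 111214592) (nat_lit 203915264)) (I.mix (nat_lit 60784640) (nat_lit 53608448)) (I.mix (nat_lit 58523648) (nat_lit 51085312)) (I.mix (nat_lit 62259200) (nat_lit 54231040)))
  false (nat_lit 24019292)
def b0_10 : Bx := Bx.mk (St.mk (I.pos (nat_lit 168804352) (nat_lit 214466560)) (I.mix (nat_lit 17235968) (nat_lit 36192256)) (I.mix (nat_lit 11239424) (nat_lit 56868864)) (I.pos (nat_lit 133152768) (nat_lit 204013568)) (I.mix (nat_lit 112656384) (nat_lit 64782336)) (I.mix (nat_lit 119914496) (nat_lit 60325888)) (I.mix (nat_lit 134283264) (nat_lit 61751296)))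
  false (nat_lit 4951319)
def b0_11 : Bx := Bx.mk (St.mk (I.pos (nat_lit 183648256) (nat_lit 238780416)) (I.pos (nat_lit 7258112) (nat_lit 52838400)) (I.pos (nat_lit 7274496) (nat_lit 81461248)) (I.pos (nat_lit 179929088) (nat_lit 243171328)) (I.mix (nat_lit 95993856) (nat_lit 63963136)) (I.mix (nat_lit 79233024) (nat_lit 55394304)) (I.mix (nat_lit 123715584) (nat_lit 64962560)))
  false (nat_lit 27988001)
def t0 : BTr := (BTr.n (BTr.n (BTr.n (BTr.b b0_0) (BTr.n (BTr.b b0_1) (BTr.b b0_2))) (BTr.n (BTr.b b0_3) (BTr.n (BTr.b b0_4) (BTr.b b0_5)))) (BTr.n (BTr.n (BTr.b b0_6) (BTr.n (BTr.b b0_7) (BTr.b b0_8))) (BTr.n (BTr.b b0_9) (BTr.n (BTr.b b0_10) (BTr.b b0_11)))))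
namespace T0
def l0 : Tr := Tr.L (Pth.l (Pth.l (Pth.l Pth.z)))
def l1 : Tr := Tr.L (Pth.l (Pth.l (Pth.r (Pth.l Pth.z))))
def l2 : Tr := Tr.L (Pth.l (Pth.l (Pth.r (Pth.r Pth.z))))
def l3 : Tr := Tr.L (Pth.l (Pth.r (Pth.l Pth.z)))
def l4 : Tr := Tr.L (Pth.l (Pth.r (Pth.r (Pth.l Pth.z))))
def l5 : Tr := Tr.L (Pth.l (Pth.r (Pth.r (Pth.r Pth.z))))
def l6 : Tr := Tr.L (Pth.r (Pth.l (Pth.l Pth.z)))
def l7 : Tr := Tr.L (Pth.r (Pth.l (Pth.r (Pth.l Pth.z))))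
def l8 : Tr := Tr.L (Pth.r (Pth.l (Pth.r (Pth.r Pth.z))))
def l9 : Tr := Tr.L (Pth.r (Pth.r (Pth.l Pth.z)))
def l10 : Tr := Tr.L (Pth.r (Pth.r (Pth.r (Pth.l Pth.z))))
def l11 : Tr := Tr.L (Pth.r (Pth.r (Pth.r (Pth.r Pth.z))))
end T0
def b1_0 : Bx := Bx.mk (St.mk (I.pos (nat_lit 153763840) (nat_lit 232128512)) (I.mix (nat_lit 278528) (nat_lit 64176128)) (I.mix (nat_lit 278528) (nat_lit 98992128)) (I.pos (nat_lit 186073088) (nat_lit 287457280)) (I.mix (nat_lit 117309440) (nat_lit 62980096)) (I.mix (nat_lit 74170368) (nat_lit 66469888)) (I.mix (nat_lit 101138432) (nat_lit 85803008)))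
  false (nat_lit 109807375)
def b1_1 : Bx := Bx.mk (St.mk (I.pos (nat_lit 85458944) (nat_lit 163414016)) (I.neg (nat_lit 3883008) (nat_lit 62062592)) (I.mix (nat_lit 55918592) (nat_lit 2473984)) (I.pos (nat_lit 125239296) (nat_lit 189906944)) (I.mix (nat_lit 77070336) (nat_lit 45203456)) (I.mix (nat_lit 37699584) (nat_lit 57819136)) (I.mix (nat_lit 29786112) (nat_lit 49725440)))
  false (nat_lit 0)
def b1_2 : Bx := Bx.mk (St.mk (I.mix (nat_lit 43024384) (nat_lit 97058816)) (I.mix (nat_lit 8781824) (nat_lit 41123840)) (I.mix (nat_lit 16220160) (nat_lit 18415616)) (I.pos (nat_lit 75366400) (nat_lit 125124608)) (I.mix (nat_lit 40157184) (nat_lit 45170688)) (I.mix (nat_lit 39534592) (nat_lit 30883840)) (I.mix (nat_lit 25690112) (nat_lit 17154048)))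
  false (nat_lit 0)
def b1_3 : Bx := Bx.mk (St.mk (I.mix (nat_lit 32145408) (nat_lit 46743552)) (I.mix (nat_lit 32833536) (nat_lit 6815744)) (I.mix (nat_lit 12582912) (nat_lit 3620864)) (I.pos (nat_lit 82411520) (nat_lit 100958208)) (I.mix (nat_lit 26542080) (nat_lit 30949376)) (I.mix (nat_lit 19791872) (nat_lit 28966912)) (I.mix (nat_lit 7471104) (nat_lit 10633216)))
  false (nat_lit 0)
def b1_4 : Bx := Bx.mk (St.mk (I.pos (nat_lit 159547392) (nat_lit 211746816)) (I.mix (nat_lit 1163264) (nat_lit 61505536)) (I.pos (nat_lit 14925824) (nat_lit 92798976)) (I.pos (nat_lit 191725568) (nat_lit 255623168)) (I.mix (nat_lit 121798656) (nat_lit 39600128)) (I.mix (nat_lit 108658688) (nat_lit 57425920)) (I.mix (nat_lit 104071168) (nat_lit 50806784)))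
  false (nat_lit 66434649)
def b1_5 : Bx := Bx.mk (St.mk (I.pos (nat_lit 78741504) (nat_lit 124911616)) (I.mix (nat_lit 58081280) (nat_lit 9371648)) (I.neg (nat_lit 1556480) (nat_lit 51855360)) (I.pos (nat_lit 112541696) (nat_lit 148062208)) (I.mix (nat_lit 75169792) (nat_lit 28901376)) (I.mix (nat_lit 29343744) (nat_lit 65765376)) (I.mix (nat_lit 21331968) (nat_lit 44564480)))
  false (nat_lit 0)
def b1_6 : Bx := Bx.mk (St.mk (I.mix (nat_lit 47939584) (nat_lit 75776000)) (I.mix (nat_lit 10387456) (nat_lit 37699584)) (I.mix (nat_lit 14336000) (nat_lit 13221888)) (I.pos (nat_lit 82870272) (nat_lit 110034944)) (I.mix (nat_lit 43581440) (nat_lit 31735808)) (I.mix (nat_lit 38944768) (nat_lit 26099712)) (I.mix (nat_lit 14254080) (nat_lit 14368768)))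
  false (nat_lit 0)
def b1_7 : Bx := Bx.mk (St.mk (I.mix (nat_lit 47415296) (nat_lit 29933568)) (I.mix (nat_lit 32555008) (nat_lit 6750208)) (I.mix (nat_lit 10665984) (nat_lit 4358144)) (I.pos (nat_lit 82984960) (nat_lit 100646912)) (I.mix (nat_lit 34013184) (nat_lit 22986752)) (I.mix (nat_lit 19054592) (nat_lit 29655040)) (I.mix (nat_lit 10829824) (nat_lit 6258688)))
  false (nat_lit 0)
def b1_8 : Bx := Bx.mk (St.mk (I.pos (nat_lit 186204160) (nat_lit 285753344)) (I.mix (nat_lit 27230208) (nat_lit 46841856)) (I.mix (nat_lit 81444864) (nat_lit 66355200)) (I.pos (nat_lit 240992256) (nat_lit 392544256)) (I.mix (nat_lit 86966272) (nat_lit 57606144)) (I.mix (nat_lit 62373888) (nat_lit 41762816)) (I.mix (nat_lit 98467840) (nat_lit 74678272)))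
  false (nat_lit 93206808)
def b1_9 : Bx := Bx.mk (St.mk (I.pos (nat_lit 138625024) (nat_lit 202620928)) (I.mix (nat_lit 42303488) (nat_lit 19480576)) (I.mix (nat_lit 37011456) (nat_lit 39337984)) (I.pos (nat_lit 166969344) (nat_lit 233635840)) (I.mix (nat_lit 66355200) (nat_lit 60522496)) (I.mix (nat_lit 62619648) (nat_lit 56721408)) (I.mix (nat_lit 57737216) (nat_lit 52494336)))
  false (nat_lit 0)
def b1_10 : Bx := Bx.mk (St.mk (I.pos (nat_lit 174292992) (nat_lit 228687872)) (I.pos (nat_lit 11681792) (nat_lit 60489728)) (I.pos (nat_lit 19611648) (nat_lit 93224960)) (I.pos (nat_lit 228048896) (nat_lit 282492928)) (I.mix (nat_lit 105988096) (nat_lit 77512704)) (I.mix (nat_lit 87834624) (nat_lit 61407232)) (I.mix (nat_lit 127025152) (nat_lit 75988992)))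
  false (nat_lit 59538153)
def b1_11 : Bx := Bx.mk (St.mk (I.pos (nat_lit 159875072) (nat_lit 205324288)) (I.mix (nat_lit 10813440) (nat_lit 39665664)) (I.pos (nat_lit 2097152) (nat_lit 67551232)) (I.pos (nat_lit 192561152) (nat_lit 240746496)) (I.mix (nat_lit 116834304) (nat_lit 61341696)) (I.mix (nat_lit 118734848) (nat_lit 57950208)) (I.mix (nat_lit 116523008) (nat_lit 52084736)))
  false (nat_lit 14978134)
def t1 : BTr := (BTr.n (BTr.n (BTr.n (BTr.b b1_0) (BTr.n (BTr.b b1_1) (BTr.b b1_2))) (BTr.n (BTr.b b1_3) (BTr.n (BTr.b b1_4) (BTr.b b1_5)))) (BTr.n (BTr.n (BTr.b b1_6) (BTr.n (BTr.b b1_7) (BTr.b b1_8))) (BTr.n (BTr.b b1_9) (BTr.n (BTr.b b1_10) (BTr.b b1_11)))))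
namespace T1
def l0 : Tr := Tr.L (Pth.l (Pth.l (Pth.l Pth.z)))
def l1 : Tr := Tr.L (Pth.l (Pth.l (Pth.r (Pth.l Pth.z))))
def l2 : Tr := Tr.L (Pth.l (Pth.l (Pth.r (Pth.r Pth.z))))
def l3 : Tr := Tr.L (Pth.l (Pth.r (Pth.l Pth.z)))
def l4 : Tr := Tr.L (Pth.l (Pth.r (Pth.r (Pth.l Pth.z))))
def l5 : Tr := Tr.L (Pth.l (Pth.r (Pth.r (Pth.r Pth.z))))
def l6 : Tr := Tr.L (Pth.r (Pth.l (Pth.l Pth.z)))
def l7 : Tr := Tr.L (Pth.r (Pth.l (Pth.r (Pth.l Pth.z))))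
def l8 : Tr := Tr.L (Pth.r (Pth.l (Pth.r (Pth.r Pth.z))))
def l9 : Tr := Tr.L (Pth.r (Pth.r (Pth.l Pth.z)))
def l10 : Tr := Tr.L (Pth.r (Pth.r (Pth.r (Pth.l Pth.z))))
def l11 : Tr := Tr.L (Pth.r (Pth.r (Pth.r (Pth.r Pth.z))))
end T1
def b2_0 : Bx := Bx.mk (St.mk (I.pos (nat_lit 159842304) (nat_lit 234668032)) (I.mix (nat_lit 278528) (nat_lit 48889856)) (I.mix (nat_lit 278528) (nat_lit 97484800)) (I.pos (nat_lit 115458048) (nat_lit 231063552)) (I.mix (nat_lit 109494272) (nat_lit 58523648)) (I.mix (nat_lit 82378752) (nat_lit 60473344)) (I.mix (nat_lit 110575616) (nat_lit 75382784)))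
  false (nat_lit 37054364)
def b2_1 : Bx := Bx.mk (St.mk (I.pos (nat_lit 103890944) (nat_lit 185712640)) (I.neg (nat_lit 2473984) (nat_lit 57573376)) (I.mix (nat_lit 50905088) (nat_lit 8945664)) (I.pos (nat_lit 80166912) (nat_lit 163233792)) (I.mix (nat_lit 81149952) (nat_lit 43040768)) (I.mix (nat_lit 42991616) (nat_lit 55066624)) (I.mix (nat_lit 33767424) (nat_lit 49315840)))
  false (nat_lit 0)
def b2_2 : Bx := Bx.mk (St.mk (I.mix (nat_lit 29638656) (nat_lit 104054784)) (I.mix (nat_lit 30801920) (nat_lit 4947968)) (I.mix (nat_lit 17137664) (nat_lit 8912896)) (I.pos (nat_lit 14827520) (nat_lit 75743232)) (I.mix (nat_lit 33456128) (nat_lit 29900800)) (I.mix (nat_lit 20250624) (nat_lit 26050560)) (I.mix (nat_lit 11796480) (nat_lit 16007168)))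
  false (nat_lit 0)
def b2_3 : Bx := Bx.mk (St.mk (I.pos (nat_lit 168083456) (nat_lit 215760896)) (I.mix (nat_lit 12795904) (nat_lit 52953088)) (I.pos (nat_lit 10698752) (nat_lit 97452032)) (I.pos (nat_lit 126058496) (nat_lit 207683584)) (I.mix (nat_lit 134021120) (nat_lit 52428800)) (I.mix (nat_lit 125714432) (nat_lit 64569344)) (I.mix (nat_lit 145588224) (nat_lit 59637760)))
  false (nat_lit 34433849)
def b2_4 : Bx := Bx.mk (St.mk (I.mix (nat_lit 25460736) (nat_lit 122470400)) (I.mix (nat_lit 12648448) (nat_lit 35930112)) (I.mix (nat_lit 4915200) (nat_lit 32931840)) (I.pos (nat_lit 17383424) (nat_lit 90963968)) (I.mix (nat_lit 56213504) (nat_lit 25231360)) (I.mix (nat_lit 45334528) (nat_lit 25509888)) (I.mix (nat_lit 29540352) (nat_lit 15679488)))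
  false (nat_lit 0)
def b2_5 : Bx := Bx.mk (St.mk (I.pos (nat_lit 148668416) (nat_lit 211091456)) (I.mix (nat_lit 38764544) (nat_lit 14712832)) (I.mix (nat_lit 27705344) (nat_lit 44384256)) (I.pos (nat_lit 111558656) (nat_lit 195674112)) (I.mix (nat_lit 52936704) (nat_lit 53215232)) (I.mix (nat_lit 51347456) (nat_lit 48644096)) (I.mix (nat_lit 52297728) (nat_lit 50495488)))
  false (nat_lit 15241943)
def b2_6 : Bx := Bx.mk (St.mk (I.mix (nat_lit 19841024) (nat_lit 130465792)) (I.mix (nat_lit 7258112) (nat_lit 28065792)) (I.mix (nat_lit 4947968) (nat_lit 28360704)) (I.pos (nat_lit 16023552) (nat_lit 99352576)) (I.mix (nat_lit 43401216) (nat_lit 34275328)) (I.mix (nat_lit 37470208) (nat_lit 23511040)) (I.mix (nat_lit 30081024) (nat_lit 17825792)))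
  false (nat_lit 0)
def b2_7 : Bx := Bx.mk (St.mk (I.pos (nat_lit 106496000) (nat_lit 158105600)) (I.mix (nat_lit 56066048) (nat_lit 8257536)) (I.mix (nat_lit 49528832) (nat_lit 11321344)) (I.pos (nat_lit 64602112) (nat_lit 127582208)) (I.mix (nat_lit 87965696) (nat_lit 33800192)) (I.mix (nat_lit 35880960) (nat_lit 74842112)) (I.mix (nat_lit 26673152) (nat_lit 57835520)))
  false (nat_lit 0)
def b2_8 : Bx := Bx.mk (St.mk (I.pos (nat_lit 188055552) (nat_lit 284409856)) (I.mix (nat_lit 22609920) (nat_lit 40288256)) (I.mix (nat_lit 37797888) (nat_lit 85704704)) (I.pos (nat_lit 177897472) (nat_lit 337952768)) (I.mix (nat_lit 82280448) (nat_lit 55820288)) (I.mix (nat_lit 60719104) (nat_lit 37126144)) (I.mix (nat_lit 92225536) (nat_lit 60309504)))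
  false (nat_lit 33855471)
def b2_9 : Bx := Bx.mk (St.mk (I.pos (nat_lit 180174848) (nat_lit 237453312)) (I.pos (nat_lit 7536640) (nat_lit 49315840)) (I.pos (nat_lit 24985600) (nat_lit 97910784)) (I.pos (nat_lit 167886848) (nat_lit 233652224)) (I.mix (nat_lit 99368960) (nat_lit 73449472)) (I.mix (nat_lit 86294528) (nat_lit 63242240)) (I.mix (nat_lit 133775360) (nat_lit 80330752)))
  false (nat_lit 36580168)
def b2_10 : Bx := Bx.mk (St.mk (I.mix (nat_lit 21676032) (nat_lit 94339072)) (I.mix (nat_lit 26214400) (nat_lit 3457024)) (I.mix (nat_lit 13664256) (nat_lit 6848512)) (I.pos (nat_lit 17563648) (nat_lit 67698688)) (I.mix (nat_lit 31571968) (nat_lit 21708800)) (I.mix (nat_lit 16957440) (nat_lit 29294592)) (I.mix (nat_lit 8781824) (nat_lit 14876672)))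
  false (nat_lit 0)
def b2_11 : Bx := Bx.mk (St.mk (I.pos (nat_lit 167215104) (nat_lit 216498176)) (I.mix (nat_lit 21102592) (nat_lit 32079872)) (I.pos (nat_lit 1638400) (nat_lit 69206016)) (I.pos (nat_lit 125583360) (nat_lit 202473472)) (I.mix (nat_lit 111230976) (nat_lit 61718528)) (I.mix (nat_lit 113147904) (nat_lit 61276160)) (I.mix (nat_lit 128925696) (nat_lit 61620224)))
  false (nat_lit 22542628)
def t2 : BTr := (BTr.n (BTr.n (BTr.n (BTr.b b2_0) (BTr.n (BTr.b b2_1) (BTr.b b2_2))) (BTr.n (BTr.b b2_3) (BTr.n (BTr.b b2_4) (BTr.b b2_5)))) (BTr.n (BTr.n (BTr.b b2_6) (BTr.n (BTr.b b2_7) (BTr.b b2_8))) (BTr.n (BTr.b b2_9) (BTr.n (BTr.b b2_10) (BTr.b b2_11)))))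
namespace T2
def l0 : Tr := Tr.L (Pth.l (Pth.l (Pth.l Pth.z)))
def l1 : Tr := Tr.L (Pth.l (Pth.l (Pth.r (Pth.l Pth.z))))
def l2 : Tr := Tr.L (Pth.l (Pth.l (Pth.r (Pth.r Pth.z))))
def l3 : Tr := Tr.L (Pth.l (Pth.r (Pth.l Pth.z)))
def l4 : Tr := Tr.L (Pth.l (Pth.r (Pth.r (Pth.l Pth.z))))
def l5 : Tr := Tr.L (Pth.l (Pth.r (Pth.r (Pth.r Pth.z))))
def l6 : Tr := Tr.L (Pth.r (Pth.l (Pth.l Pth.z)))
def l7 : Tr := Tr.L (Pth.r (Pth.l (Pth.r (Pth.l Pth.z))))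
def l8 : Tr := Tr.L (Pth.r (Pth.l (Pth.r (Pth.r Pth.z))))
def l9 : Tr := Tr.L (Pth.r (Pth.r (Pth.l Pth.z)))
def l10 : Tr := Tr.L (Pth.r (Pth.r (Pth.r (Pth.l Pth.z))))
def l11 : Tr := Tr.L (Pth.r (Pth.r (Pth.r (Pth.r Pth.z))))
end T2
theorem bx0_0 : BoxOK sI cl6 cl9 cl9 t1 t1 b0_0 :=
  box_mk (TrL.c (I.pos (nat_lit 0) (nat_lit 0)) (xa (xb T1.l0 (xa (xb T1.l0 T1.l0) T1.l0)) (xb T1.l0 (xa T1.l0 T1.l0)))
  (TrL.c (I.pos (nat_lit 0) (nat_lit 0)) T1.l1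
  (TrL.c (I.pos (nat_lit 0) (nat_lit 89480386)) T1.l2
  (TrL.c (I.pos (nat_lit 0) (nat_lit 41530880)) T1.l3
  (TrL.c (I.pos (nat_lit 0) (nat_lit 0)) (xa T1.l4 (xb T1.l4 T1.l4))
  (TrL.c (I.pos (nat_lit 0) (nat_lit 0)) T1.l5
  (TrL.c (I.mix (nat_lit 41527258) (nat_lit 41530880)) T1.l6
  (TrL.c (I.mix (nat_lit 41527258) (nat_lit 4274)) T1.l7
  TrL.n)))))))) (by decide +kernel)
theorem bx0_1 : BoxOK sI cl6 cl9 cl9 t1 t1 b0_1 :=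
  box_mk (TrL.c (I.pos (nat_lit 0) (nat_lit 0)) (xa T1.l8 (xa T1.l8 T1.l8))
  (TrL.c (I.pos (nat_lit 0) (nat_lit 0)) T1.l1
  (TrL.c (I.pos (nat_lit 0) (nat_lit 89480386)) T1.l2
  (TrL.c (I.pos (nat_lit 0) (nat_lit 41530880)) T1.l3
  (TrL.c (I.pos (nat_lit 0) (nat_lit 0)) T1.l9
  (TrL.c (I.pos (nat_lit 0) (nat_lit 0)) T1.l5
  (TrL.c (I.mix (nat_lit 41527258) (nat_lit 41530880)) T1.l6
  (TrL.c (I.mix (nat_lit 41527258) (nat_lit 4274)) T1.l7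
  TrL.n)))))))) (by decide +kernel)
theorem bx0_2 : BoxOK sI cl6 cl9 cl9 t1 t1 b0_2 :=
  box_mk (TrL.c (I.pos (nat_lit 0) (nat_lit 0)) (xb T1.l8 (xa T1.l8 T1.l8))
  (TrL.c (I.pos (nat_lit 0) (nat_lit 0)) T1.l1
  (TrL.c (I.pos (nat_lit 0) (nat_lit 89480386)) T1.l2
  (TrL.c (I.pos (nat_lit 0) (nat_lit 41530880)) T1.l3
  (TrL.c (I.pos (nat_lit 0) (nat_lit 0)) T1.l9
  (TrL.c (I.pos (nat_lit 0) (nat_lit 0)) T1.l5
  (TrL.c (I.mix (nat_lit 41527258) (nat_lit 41530880)) T1.l6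
  (TrL.c (I.mix (nat_lit 41527258) (nat_lit 4274)) T1.l7
  TrL.n)))))))) (by decide +kernel)
theorem bx0_3 : BoxOK sI cl6 cl9 cl9 t1 t1 b0_3 :=
  box_mk (TrL.c (I.pos (nat_lit 0) (nat_lit 0)) T1.l8
  (TrL.c (I.pos (nat_lit 0) (nat_lit 0)) T1.l1
  (TrL.c (I.pos (nat_lit 0) (nat_lit 89480386)) T1.l2
  (TrL.c (I.pos (nat_lit 0) (nat_lit 41530880)) T1.l3
  (TrL.c (I.pos (nat_lit 0) (nat_lit 0)) T1.l9
  (TrL.c (I.pos (nat_lit 0) (nat_lit 0)) T1.l5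
  (TrL.c (I.mix (nat_lit 41527258) (nat_lit 41530880)) T1.l6
  (TrL.c (I.mix (nat_lit 41527258) (nat_lit 4274)) T1.l7
  TrL.n)))))))) (by decide +kernel)
theorem bx0_4 : BoxOK sI cl6 cl9 cl9 t1 t1 b0_4 :=
  box_mk (TrL.c (I.pos (nat_lit 0) (nat_lit 0)) (xa (xb T1.l0 T1.l0) (xb T1.l0 T1.l0))
  (TrL.c (I.pos (nat_lit 0) (nat_lit 0)) T1.l1
  (TrL.c (I.pos (nat_lit 0) (nat_lit 89480386)) (xR T1.l2 T1.l2)
  (TrL.c (I.pos (nat_lit 0) (nat_lit 41530880)) T1.l3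
  (TrL.c (I.pos (nat_lit 0) (nat_lit 0)) (xa (xb T1.l4 T1.l4) (xb (xa T1.l4 T1.l4) (xa T1.l4 T1.l4)))
  (TrL.c (I.pos (nat_lit 0) (nat_lit 0)) T1.l5
  (TrL.c (I.mix (nat_lit 41527258) (nat_lit 41530880)) T1.l2
  (TrL.c (I.mix (nat_lit 41527258) (nat_lit 4274)) T1.l7
  TrL.n)))))))) (by decide +kernel)
theorem bx0_5 : BoxOK sI cl6 cl9 cl9 t1 t1 b0_5 :=
  box_mk (TrL.c (I.pos (nat_lit 0) (nat_lit 0)) (xa (xb T1.l8 T1.l8) (xb T1.l8 T1.l8))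
  (TrL.c (I.pos (nat_lit 0) (nat_lit 0)) T1.l1
  (TrL.c (I.pos (nat_lit 0) (nat_lit 89480386)) T1.l2
  (TrL.c (I.pos (nat_lit 0) (nat_lit 41530880)) T1.l3
  (TrL.c (I.pos (nat_lit 0) (nat_lit 0)) (xa T1.l9 T1.l9)
  (TrL.c (I.pos (nat_lit 0) (nat_lit 0)) T1.l5
  (TrL.c (I.mix (nat_lit 41527258) (nat_lit 41530880)) T1.l6
  (TrL.c (I.mix (nat_lit 41527258) (nat_lit 4274)) T1.l7
  TrL.n)))))))) (by decide +kernel)
theorem bx0_6 : BoxOK sI cl6 cl9 cl9 t1 t1 b0_6 :=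
  box_mk (TrL.c (I.pos (nat_lit 0) (nat_lit 0)) (xa (xa (xb (xa T1.l8 T1.l8) T1.l8) T1.l8) T1.l8)
  (TrL.c (I.pos (nat_lit 0) (nat_lit 0)) T1.l1
  (TrL.c (I.pos (nat_lit 0) (nat_lit 89480386)) T1.l2
  (TrL.c (I.pos (nat_lit 0) (nat_lit 41530880)) T1.l3
  (TrL.c (I.pos (nat_lit 0) (nat_lit 0)) T1.l9
  (TrL.c (I.pos (nat_lit 0) (nat_lit 0)) T1.l5
  (TrL.c (I.mix (nat_lit 41527258) (nat_lit 41530880)) T1.l6
  (TrL.c (I.mix (nat_lit 41527258) (nat_lit 4274)) T1.l7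
  TrL.n)))))))) (by decide +kernel)
theorem bx0_7 : BoxOK sI cl6 cl9 cl9 t1 t1 b0_7 :=
  box_mk (TrL.c (I.pos (nat_lit 0) (nat_lit 0)) (xb (xa T1.l10 T1.l10) (xa (xb T1.l10 T1.l10) (xb T1.l10 T1.l10)))
  (TrL.c (I.pos (nat_lit 0) (nat_lit 0)) T1.l1
  (TrL.c (I.pos (nat_lit 0) (nat_lit 89480386)) (xR T1.l2 T1.l2)
  (TrL.c (I.pos (nat_lit 0) (nat_lit 41530880)) T1.l3
  (TrL.c (I.pos (nat_lit 0) (nat_lit 0)) (xb T1.l11 T1.l11)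
  (TrL.c (I.pos (nat_lit 0) (nat_lit 0)) T1.l5
  (TrL.c (I.mix (nat_lit 41527258) (nat_lit 41530880)) T1.l6
  (TrL.c (I.mix (nat_lit 41527258) (nat_lit 4274)) T1.l7
  TrL.n)))))))) (by decide +kernel)
theorem bx0_8 : BoxOK sI cl6 cl9 cl9 t1 t1 b0_8 :=
  box_mk (TrL.c (I.pos (nat_lit 0) (nat_lit 0)) (xa (xa (xb T1.l8 (xa T1.l8 T1.l8)) (xb T1.l8 T1.l8)) (xa T1.l8 (xb T1.l8 T1.l8)))
  (TrL.c (I.pos (nat_lit 0) (nat_lit 0)) T1.l1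
  (TrL.c (I.pos (nat_lit 0) (nat_lit 89480386)) T1.l2
  (TrL.c (I.pos (nat_lit 0) (nat_lit 41530880)) T1.l3
  (TrL.c (I.pos (nat_lit 0) (nat_lit 0)) (xa T1.l9 T1.l9)
  (TrL.c (I.pos (nat_lit 0) (nat_lit 0)) T1.l5
  (TrL.c (I.mix (nat_lit 41527258) (nat_lit 41530880)) T1.l6
  (TrL.c (I.mix (nat_lit 41527258) (nat_lit 4274)) T1.l7
  TrL.n)))))))) (by decide +kernel)
theorem bx0_9 : BoxOK sI cl6 cl9 cl9 t1 t1 b0_9 :=
  box_mk (TrL.c (I.pos (nat_lit 0) (nat_lit 0)) (xa (xb T1.l0 T1.l0) T1.l10)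
  (TrL.c (I.pos (nat_lit 0) (nat_lit 0)) T1.l1
  (TrL.c (I.pos (nat_lit 0) (nat_lit 89480386)) T1.l2
  (TrL.c (I.pos (nat_lit 0) (nat_lit 41530880)) T1.l3
  (TrL.c (I.pos (nat_lit 0) (nat_lit 0)) (xb T1.l11 T1.l11)
  (TrL.c (I.pos (nat_lit 0) (nat_lit 0)) T1.l5
  (TrL.c (I.mix (nat_lit 41527258) (nat_lit 41530880)) T1.l6
  (TrL.c (I.mix (nat_lit 41527258) (nat_lit 4274)) T1.l7
  TrL.n)))))))) (by decide +kernel)
theorem bx0_10 : BoxOK sI cl6 cl9 cl9 t1 t1 b0_10 :=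
  box_mk (TrL.c (I.pos (nat_lit 0) (nat_lit 0)) (xb T1.l10 (xa T1.l10 T1.l10))
  (TrL.c (I.pos (nat_lit 0) (nat_lit 0)) T1.l1
  (TrL.c (I.pos (nat_lit 0) (nat_lit 89480386)) T1.l2
  (TrL.c (I.pos (nat_lit 0) (nat_lit 41530880)) T1.l3
  (TrL.c (I.pos (nat_lit 0) (nat_lit 0)) (xb T1.l11 T1.l11)
  (TrL.c (I.pos (nat_lit 0) (nat_lit 0)) T1.l5
  (TrL.c (I.mix (nat_lit 41527258) (nat_lit 41530880)) T1.l2
  (TrL.c (I.mix (nat_lit 41527258) (nat_lit 4274)) T1.l7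
  TrL.n)))))))) (by decide +kernel)
theorem bx0_11 : BoxOK sI cl6 cl9 cl9 t1 t1 b0_11 :=
  box_mk (TrL.c (I.pos (nat_lit 0) (nat_lit 0)) (xa T1.l0 (xb T1.l0 T1.l0))
  (TrL.c (I.pos (nat_lit 0) (nat_lit 0)) T1.l1
  (TrL.c (I.pos (nat_lit 0) (nat_lit 89480386)) T1.l2
  (TrL.c (I.pos (nat_lit 0) (nat_lit 41530880)) T1.l3
  (TrL.c (I.pos (nat_lit 0) (nat_lit 0)) (xa T1.l4 T1.l4)
  (TrL.c (I.pos (nat_lit 0) (nat_lit 0)) T1.l5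
  (TrL.c (I.mix (nat_lit 41527258) (nat_lit 41530880)) T1.l6
  (TrL.c (I.mix (nat_lit 41527258) (nat_lit 4274)) T1.l7
  TrL.n)))))))) (by decide +kernel)
theorem sv0 : StarV sI cl6 cl9 cl9 t1 t1 t0 :=
  (bt_n (bt_n (bt_n (bt_b bx0_0) (bt_n (bt_b bx0_1) (bt_b bx0_2))) (bt_n (bt_b bx0_3) (bt_n (bt_b bx0_4) (bt_b bx0_5)))) (bt_n (bt_n (bt_b bx0_6) (bt_n (bt_b bx0_7) (bt_b bx0_8))) (bt_n (bt_b bx0_9) (bt_n (bt_b bx0_10) (bt_b bx0_11)))))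
def S0 : StarD := StarD.mk cl6 cl9 cl9 1 1 t0
theorem bx1_0 : BoxOK sI cl9 cl6 cl9 t0 t2 b1_0 :=
  box_mk (TrL.c (I.pos (nat_lit 0) (nat_lit 0)) (xa (xb T0.l0 (xa T0.l0 T0.l0)) (xb T0.l0 (xa T0.l0 T0.l0)))
  (TrL.c (I.pos (nat_lit 0) (nat_lit 0)) T2.l1
  (TrL.c (I.pos (nat_lit 0) (nat_lit 124588530)) (xR T0.l1 T0.l1)
  (TrL.c (I.pos (nat_lit 0) (nat_lit 96881482)) T2.l2
  (TrL.c (I.pos (nat_lit 0) (nat_lit 0)) (xa (xb T2.l11 T2.l3) (xk T2.l3 T2.l3))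
  (TrL.c (I.pos (nat_lit 0) (nat_lit 0)) T0.l2
  (TrL.c (I.mix (nat_lit 17240550) (nat_lit 96881482)) (xR T2.l4 T2.l4)
  (TrL.c (I.mix (nat_lit 17240550) (nat_lit 71940500)) T0.l6
  TrL.n)))))))) (by decide +kernel)
theorem bx1_1 : BoxOK sI cl9 cl6 cl9 t0 t2 b1_1 :=
  box_mk (TrL.c (I.pos (nat_lit 0) (nat_lit 0)) (xa (xb T0.l4 T0.l4) T0.l4)
  (TrL.c (I.pos (nat_lit 0) (nat_lit 0)) T2.l1
  (TrL.c (I.pos (nat_lit 0) (nat_lit 124588530)) (xR T0.l1 T0.l1)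
  (TrL.c (I.pos (nat_lit 0) (nat_lit 96881482)) T2.l2
  (TrL.c (I.pos (nat_lit 0) (nat_lit 0)) (xa T2.l5 (xb T2.l5 T2.l5))
  (TrL.c (I.pos (nat_lit 0) (nat_lit 0)) T0.l2
  (TrL.c (I.mix (nat_lit 17240550) (nat_lit 96881482)) T2.l4
  (TrL.c (I.mix (nat_lit 17240550) (nat_lit 71940500)) T0.l3
  TrL.n)))))))) (by decide +kernel)
theorem bx1_2 : BoxOK sI cl9 cl6 cl9 t0 t2 b1_2 :=
  box_mk (TrL.c (I.pos (nat_lit 0) (nat_lit 0)) (xa (xa (xb (xa T0.l4 T0.l4) (xa T0.l4 T0.l4)) (xb T0.l4 T0.l4)) (xa T0.l4 T0.l4))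
  (TrL.c (I.pos (nat_lit 0) (nat_lit 0)) T2.l1
  (TrL.c (I.pos (nat_lit 0) (nat_lit 124588530)) (xR T0.l1 T0.l1)
  (TrL.c (I.pos (nat_lit 0) (nat_lit 96881482)) T2.l2
  (TrL.c (I.pos (nat_lit 0) (nat_lit 0)) T2.l5
  (TrL.c (I.pos (nat_lit 0) (nat_lit 0)) T0.l2
  (TrL.c (I.mix (nat_lit 17240550) (nat_lit 96881482)) T2.l4
  (TrL.c (I.mix (nat_lit 17240550) (nat_lit 71940500)) T0.l6
  TrL.n)))))))) (by decide +kernel)
theorem bx1_3 : BoxOK sI cl9 cl6 cl9 t0 t2 b1_3 :=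
  box_mk (TrL.c (I.pos (nat_lit 0) (nat_lit 0)) T0.l4
  (TrL.c (I.pos (nat_lit 0) (nat_lit 0)) T2.l5
  (TrL.c (I.pos (nat_lit 0) (nat_lit 124588530)) T0.l1
  (TrL.c (I.pos (nat_lit 0) (nat_lit 96881482)) T2.l2
  (TrL.c (I.pos (nat_lit 0) (nat_lit 0)) T2.l5
  (TrL.c (I.pos (nat_lit 0) (nat_lit 0)) T0.l2
  (TrL.c (I.mix (nat_lit 17240550) (nat_lit 96881482)) T2.l4
  (TrL.c (I.mix (nat_lit 17240550) (nat_lit 71940500)) T0.l6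
  TrL.n)))))))) (by decide +kernel)
theorem bx1_4 : BoxOK sI cl9 cl6 cl9 t0 t2 b1_4 :=
  box_mk (TrL.c (I.pos (nat_lit 0) (nat_lit 0)) (xa (xb T0.l11 (xb T0.l11 T0.l11)) (xb T0.l11 T0.l11))
  (TrL.c (I.pos (nat_lit 0) (nat_lit 0)) T2.l1
  (TrL.c (I.pos (nat_lit 0) (nat_lit 124588530)) (xR T0.l1 T0.l1)
  (TrL.c (I.pos (nat_lit 0) (nat_lit 96881482)) T2.l2
  (TrL.c (I.pos (nat_lit 0) (nat_lit 0)) (xk T2.l11 T2.l11)
  (TrL.c (I.pos (nat_lit 0) (nat_lit 0)) T0.l2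
  (TrL.c (I.mix (nat_lit 17240550) (nat_lit 96881482)) T2.l4
  (TrL.c (I.mix (nat_lit 17240550) (nat_lit 71940500)) T0.l6
  TrL.n)))))))) (by decide +kernel)
theorem bx1_5 : BoxOK sI cl9 cl6 cl9 t0 t2 b1_5 :=
  box_mk (TrL.c (I.pos (nat_lit 0) (nat_lit 0)) (xb T0.l4 T0.l4)
  (TrL.c (I.pos (nat_lit 0) (nat_lit 0)) T2.l1
  (TrL.c (I.pos (nat_lit 0) (nat_lit 124588530)) T0.l1
  (TrL.c (I.pos (nat_lit 0) (nat_lit 96881482)) T2.l2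
  (TrL.c (I.pos (nat_lit 0) (nat_lit 0)) T2.l5
  (TrL.c (I.pos (nat_lit 0) (nat_lit 0)) T0.l2
  (TrL.c (I.mix (nat_lit 17240550) (nat_lit 96881482)) T2.l4
  (TrL.c (I.mix (nat_lit 17240550) (nat_lit 71940500)) T0.l3
  TrL.n)))))))) (by decide +kernel)
theorem bx1_6 : BoxOK sI cl9 cl6 cl9 t0 t2 b1_6 :=
  box_mk (TrL.c (I.pos (nat_lit 0) (nat_lit 0)) (xa (xa (xb T0.l4 (xa T0.l4 T0.l4)) T0.l4) (xa T0.l4 T0.l4))
  (TrL.c (I.pos (nat_lit 0) (nat_lit 0)) T2.l1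
  (TrL.c (I.pos (nat_lit 0) (nat_lit 124588530)) (xR T0.l1 T0.l1)
  (TrL.c (I.pos (nat_lit 0) (nat_lit 96881482)) T2.l2
  (TrL.c (I.pos (nat_lit 0) (nat_lit 0)) T2.l5
  (TrL.c (I.pos (nat_lit 0) (nat_lit 0)) T0.l2
  (TrL.c (I.mix (nat_lit 17240550) (nat_lit 96881482)) T2.l4
  (TrL.c (I.mix (nat_lit 17240550) (nat_lit 71940500)) T0.l6
  TrL.n)))))))) (by decide +kernel)
theorem bx1_7 : BoxOK sI cl9 cl6 cl9 t0 t2 b1_7 :=
  box_mk (TrL.c (I.pos (nat_lit 0) (nat_lit 0)) (xa (xb (xa T0.l4 T0.l4) T0.l4) T0.l4)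
  (TrL.c (I.pos (nat_lit 0) (nat_lit 0)) T2.l5
  (TrL.c (I.pos (nat_lit 0) (nat_lit 124588530)) T0.l1
  (TrL.c (I.pos (nat_lit 0) (nat_lit 96881482)) T2.l4
  (TrL.c (I.pos (nat_lit 0) (nat_lit 0)) T2.l1
  (TrL.c (I.pos (nat_lit 0) (nat_lit 0)) T0.l1
  (TrL.c (I.mix (nat_lit 17240550) (nat_lit 96881482)) T2.l4
  (TrL.c (I.mix (nat_lit 17240550) (nat_lit 71940500)) T0.l6
  TrL.n)))))))) (by decide +kernel)
theorem bx1_8 : BoxOK sI cl9 cl6 cl9 t0 t2 b1_8 :=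
  box_mk (TrL.c (I.pos (nat_lit 0) (nat_lit 0)) (xa (xb T0.l0 T0.l0) (xb T0.l0 (xa T0.l0 T0.l0)))
  (TrL.c (I.pos (nat_lit 0) (nat_lit 0)) (xa T2.l1 T2.l1)
  (TrL.c (I.pos (nat_lit 0) (nat_lit 124588530)) (xR T0.l1 T0.l8)
  (TrL.c (I.pos (nat_lit 0) (nat_lit 96881482)) T2.l2
  (TrL.c (I.pos (nat_lit 0) (nat_lit 0)) (xa (xb (xk T2.l3 T2.l3) (xk T2.l3 T2.l3)) (xb (xk (xa T2.l3 T2.l3) (xa T2.l3 T2.l3)) (xk (xa T2.l3 T2.l3) (xa T2.l3 T2.l3))))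
  (TrL.c (I.pos (nat_lit 0) (nat_lit 0)) (xa T0.l2 T0.l2)
  (TrL.c (I.mix (nat_lit 17240550) (nat_lit 96881482)) (xR T2.l4 T2.l4)
  (TrL.c (I.mix (nat_lit 17240550) (nat_lit 71940500)) T0.l6
  TrL.n)))))))) (by decide +kernel)
theorem bx1_9 : BoxOK sI cl9 cl6 cl9 t0 t2 b1_9 :=
  box_mk (TrL.c (I.pos (nat_lit 0) (nat_lit 0)) (xa T0.l11 T0.l11)
  (TrL.c (I.pos (nat_lit 0) (nat_lit 0)) T2.l1
  (TrL.c (I.pos (nat_lit 0) (nat_lit 124588530)) (xR T0.l1 T0.l1)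
  (TrL.c (I.pos (nat_lit 0) (nat_lit 96881482)) T2.l2
  (TrL.c (I.pos (nat_lit 0) (nat_lit 0)) (xb (xa T2.l11 T2.l11) T2.l11)
  (TrL.c (I.pos (nat_lit 0) (nat_lit 0)) T0.l2
  (TrL.c (I.mix (nat_lit 17240550) (nat_lit 96881482)) T2.l6
  (TrL.c (I.mix (nat_lit 17240550) (nat_lit 71940500)) T0.l3
  TrL.n)))))))) (by decide +kernel)
theorem bx1_10 : BoxOK sI cl9 cl6 cl9 t0 t2 b1_10 :=
  box_mk (TrL.c (I.pos (nat_lit 0) (nat_lit 0)) (xa (xb T0.l0 T0.l0) (xb T0.l0 T0.l0))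
  (TrL.c (I.pos (nat_lit 0) (nat_lit 0)) T2.l1
  (TrL.c (I.pos (nat_lit 0) (nat_lit 124588530)) (xR T0.l1 T0.l1)
  (TrL.c (I.pos (nat_lit 0) (nat_lit 96881482)) T2.l2
  (TrL.c (I.pos (nat_lit 0) (nat_lit 0)) (xk (xb T2.l11 T2.l11) (xb T2.l11 T2.l11))
  (TrL.c (I.pos (nat_lit 0) (nat_lit 0)) T0.l2
  (TrL.c (I.mix (nat_lit 17240550) (nat_lit 96881482)) (xR T2.l4 T2.l4)
  (TrL.c (I.mix (nat_lit 17240550) (nat_lit 71940500)) T0.l6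
  TrL.n)))))))) (by decide +kernel)
theorem bx1_11 : BoxOK sI cl9 cl6 cl9 t0 t2 b1_11 :=
  box_mk (TrL.c (I.pos (nat_lit 0) (nat_lit 0)) (xb T0.l11 T0.l11)
  (TrL.c (I.pos (nat_lit 0) (nat_lit 0)) T2.l1
  (TrL.c (I.pos (nat_lit 0) (nat_lit 124588530)) (xR T0.l1 T0.l1)
  (TrL.c (I.pos (nat_lit 0) (nat_lit 96881482)) T2.l2
  (TrL.c (I.pos (nat_lit 0) (nat_lit 0)) (xk T2.l11 T2.l11)
  (TrL.c (I.pos (nat_lit 0) (nat_lit 0)) T0.l2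
  (TrL.c (I.mix (nat_lit 17240550) (nat_lit 96881482)) (xR T2.l4 T2.l4)
  (TrL.c (I.mix (nat_lit 17240550) (nat_lit 71940500)) T0.l3
  TrL.n)))))))) (by decide +kernel)
theorem sv1 : StarV sI cl9 cl6 cl9 t0 t2 t1 :=
  (bt_n (bt_n (bt_n (bt_b bx1_0) (bt_n (bt_b bx1_1) (bt_b bx1_2))) (bt_n (bt_b bx1_3) (bt_n (bt_b bx1_4) (bt_b bx1_5)))) (bt_n (bt_n (bt_b bx1_6) (bt_n (bt_b bx1_7) (bt_b bx1_8))) (bt_n (bt_b bx1_9) (bt_n (bt_b bx1_10) (bt_b bx1_11)))))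
def S1 : StarD := StarD.mk cl9 cl6 cl9 0 2 t1
theorem bx2_0 : BoxOK sI cl9 cl9 cl6 t2 t0 b2_0 :=
  box_mk (TrL.c (I.pos (nat_lit 0) (nat_lit 0)) (xa (xb T2.l0 (xa T2.l9 T2.l0)) (xa (xb T2.l0 T2.l0) T2.l0))
  (TrL.c (I.pos (nat_lit 0) (nat_lit 0)) T0.l5
  (TrL.c (I.pos (nat_lit 0) (nat_lit 124588530)) (xR T2.l6 T2.l6)
  (TrL.c (I.pos (nat_lit 0) (nat_lit 96881482)) T0.l6
  (TrL.c (I.pos (nat_lit 0) (nat_lit 0)) (xa T0.l7 (xk T0.l7 T0.l7))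
  (TrL.c (I.pos (nat_lit 0) (nat_lit 0)) T2.l7
  (TrL.c (I.mix (nat_lit 17240550) (nat_lit 96881482)) (xR T0.l8 T0.l8)
  (TrL.c (I.mix (nat_lit 17240550) (nat_lit 71940500)) T2.l10
  TrL.n)))))))) (by decide +kernel)
theorem bx2_1 : BoxOK sI cl9 cl9 cl6 t2 t0 b2_1 :=
  box_mk (TrL.c (I.pos (nat_lit 0) (nat_lit 0)) (xa (xb T2.l8 T2.l8) (xb T2.l8 T2.l8))
  (TrL.c (I.pos (nat_lit 0) (nat_lit 0)) T0.l5
  (TrL.c (I.pos (nat_lit 0) (nat_lit 124588530)) (xR T2.l6 T2.l6)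
  (TrL.c (I.pos (nat_lit 0) (nat_lit 96881482)) T0.l6
  (TrL.c (I.pos (nat_lit 0) (nat_lit 0)) (xa T0.l9 (xk (xb T0.l9 T0.l9) (xb T0.l9 T0.l9)))
  (TrL.c (I.pos (nat_lit 0) (nat_lit 0)) T2.l7
  (TrL.c (I.mix (nat_lit 17240550) (nat_lit 96881482)) (xR T0.l8 T0.l8)
  (TrL.c (I.mix (nat_lit 17240550) (nat_lit 71940500)) T2.l10
  TrL.n)))))))) (by decide +kernel)
theorem bx2_2 : BoxOK sI cl9 cl9 cl6 t2 t0 b2_2 :=
  box_mk (TrL.c (I.pos (nat_lit 0) (nat_lit 0)) (xa (xa (xb T2.l8 T2.l8) T2.l8) T2.l8)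
  (TrL.c (I.pos (nat_lit 0) (nat_lit 0)) T0.l5
  (TrL.c (I.pos (nat_lit 0) (nat_lit 124588530)) T2.l6
  (TrL.c (I.pos (nat_lit 0) (nat_lit 96881482)) T0.l6
  (TrL.c (I.pos (nat_lit 0) (nat_lit 0)) (xa T0.l9 T0.l9)
  (TrL.c (I.pos (nat_lit 0) (nat_lit 0)) T2.l7
  (TrL.c (I.mix (nat_lit 17240550) (nat_lit 96881482)) T0.l8
  (TrL.c (I.mix (nat_lit 17240550) (nat_lit 71940500)) T2.l2
  TrL.n)))))))) (by decide +kernel)
theorem bx2_3 : BoxOK sI cl9 cl9 cl6 t2 t0 b2_3 :=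
  box_mk (TrL.c (I.pos (nat_lit 0) (nat_lit 0)) (xb (xa T2.l9 T2.l9) (xa (xb T2.l9 (xa T2.l9 T2.l9)) (xb T2.l9 T2.l9)))
  (TrL.c (I.pos (nat_lit 0) (nat_lit 0)) T0.l5
  (TrL.c (I.pos (nat_lit 0) (nat_lit 124588530)) (xR T2.l6 T2.l6)
  (TrL.c (I.pos (nat_lit 0) (nat_lit 96881482)) (xR T0.l6 T0.l6)
  (TrL.c (I.pos (nat_lit 0) (nat_lit 0)) (xb (xk T0.l10 T0.l10) (xk (xb T0.l7 T0.l7) (xb T0.l7 T0.l7)))
  (TrL.c (I.pos (nat_lit 0) (nat_lit 0)) T2.l7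
  (TrL.c (I.mix (nat_lit 17240550) (nat_lit 96881482)) (xR T0.l8 T0.l8)
  (TrL.c (I.mix (nat_lit 17240550) (nat_lit 71940500)) T2.l10
  TrL.n)))))))) (by decide +kernel)
theorem bx2_4 : BoxOK sI cl9 cl9 cl6 t2 t0 b2_4 :=
  box_mk (TrL.c (I.pos (nat_lit 0) (nat_lit 0)) (xa (xa (xb T2.l8 (xa T2.l8 T2.l8)) (xb T2.l8 T2.l8)) (xa T2.l8 T2.l8))
  (TrL.c (I.pos (nat_lit 0) (nat_lit 0)) (xa T0.l5 T0.l5)
  (TrL.c (I.pos (nat_lit 0) (nat_lit 124588530)) T2.l6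
  (TrL.c (I.pos (nat_lit 0) (nat_lit 96881482)) T0.l6
  (TrL.c (I.pos (nat_lit 0) (nat_lit 0)) (xa T0.l9 T0.l9)
  (TrL.c (I.pos (nat_lit 0) (nat_lit 0)) T2.l7
  (TrL.c (I.mix (nat_lit 17240550) (nat_lit 96881482)) T0.l8
  (TrL.c (I.mix (nat_lit 17240550) (nat_lit 71940500)) T2.l10
  TrL.n)))))))) (by decide +kernel)
theorem bx2_5 : BoxOK sI cl9 cl9 cl6 t2 t0 b2_5 :=
  box_mk (TrL.c (I.pos (nat_lit 0) (nat_lit 0)) (xa T2.l9 T2.l9)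
  (TrL.c (I.pos (nat_lit 0) (nat_lit 0)) T0.l5
  (TrL.c (I.pos (nat_lit 0) (nat_lit 124588530)) (xR T2.l6 T2.l6)
  (TrL.c (I.pos (nat_lit 0) (nat_lit 96881482)) T0.l6
  (TrL.c (I.pos (nat_lit 0) (nat_lit 0)) (xk (xa T0.l10 T0.l10) (xa T0.l10 T0.l10))
  (TrL.c (I.pos (nat_lit 0) (nat_lit 0)) T2.l7
  (TrL.c (I.mix (nat_lit 17240550) (nat_lit 96881482)) (xR T0.l8 T0.l8)
  (TrL.c (I.mix (nat_lit 17240550) (nat_lit 71940500)) T2.l10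
  TrL.n)))))))) (by decide +kernel)
theorem bx2_6 : BoxOK sI cl9 cl9 cl6 t2 t0 b2_6 :=
  box_mk (TrL.c (I.pos (nat_lit 0) (nat_lit 0)) (xa (xa (xb T2.l8 (xa T2.l8 T2.l8)) T2.l8) (xa T2.l8 T2.l8))
  (TrL.c (I.pos (nat_lit 0) (nat_lit 0)) (xa T0.l5 T0.l5)
  (TrL.c (I.pos (nat_lit 0) (nat_lit 124588530)) T2.l6
  (TrL.c (I.pos (nat_lit 0) (nat_lit 96881482)) T0.l6
  (TrL.c (I.pos (nat_lit 0) (nat_lit 0)) (xa T0.l9 T0.l9)
  (TrL.c (I.pos (nat_lit 0) (nat_lit 0)) T2.l7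
  (TrL.c (I.mix (nat_lit 17240550) (nat_lit 96881482)) T0.l8
  (TrL.c (I.mix (nat_lit 17240550) (nat_lit 71940500)) T2.l10
  TrL.n)))))))) (by decide +kernel)
theorem bx2_7 : BoxOK sI cl9 cl9 cl6 t2 t0 b2_7 :=
  box_mk (TrL.c (I.pos (nat_lit 0) (nat_lit 0)) (xb T2.l8 (xa T2.l8 T2.l8))
  (TrL.c (I.pos (nat_lit 0) (nat_lit 0)) T0.l5
  (TrL.c (I.pos (nat_lit 0) (nat_lit 124588530)) (xR T2.l6 T2.l6)
  (TrL.c (I.pos (nat_lit 0) (nat_lit 96881482)) T0.l6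
  (TrL.c (I.pos (nat_lit 0) (nat_lit 0)) (xb (xa T0.l9 T0.l9) T0.l9)
  (TrL.c (I.pos (nat_lit 0) (nat_lit 0)) T2.l7
  (TrL.c (I.mix (nat_lit 17240550) (nat_lit 96881482)) T0.l8
  (TrL.c (I.mix (nat_lit 17240550) (nat_lit 71940500)) T2.l10
  TrL.n)))))))) (by decide +kernel)
theorem bx2_8 : BoxOK sI cl9 cl9 cl6 t2 t0 b2_8 :=
  box_mk (TrL.c (I.pos (nat_lit 0) (nat_lit 0)) (xa (xb T2.l0 (xa T2.l0 T2.l0)) (xb T2.l0 (xa T2.l0 T2.l0)))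
  (TrL.c (I.pos (nat_lit 0) (nat_lit 0)) T0.l5
  (TrL.c (I.pos (nat_lit 0) (nat_lit 124588530)) (xR T2.l6 T2.l6)
  (TrL.c (I.pos (nat_lit 0) (nat_lit 96881482)) T0.l6
  (TrL.c (I.pos (nat_lit 0) (nat_lit 0)) (xa (xb (xk T0.l7 T0.l7) (xk T0.l7 T0.l7)) (xb (xk (xa T0.l7 T0.l7) (xa T0.l7 T0.l7)) (xk (xa T0.l7 T0.l7) (xa T0.l7 T0.l7))))
  (TrL.c (I.pos (nat_lit 0) (nat_lit 0)) T2.l7
  (TrL.c (I.mix (nat_lit 17240550) (nat_lit 96881482)) (xR T0.l8 T0.l8)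
  (TrL.c (I.mix (nat_lit 17240550) (nat_lit 71940500)) T2.l10
  TrL.n)))))))) (by decide +kernel)
theorem bx2_9 : BoxOK sI cl9 cl9 cl6 t2 t0 b2_9 :=
  box_mk (TrL.c (I.pos (nat_lit 0) (nat_lit 0)) (xa (xb T2.l0 (xa T2.l0 T2.l0)) (xb T2.l0 T2.l0))
  (TrL.c (I.pos (nat_lit 0) (nat_lit 0)) T0.l5
  (TrL.c (I.pos (nat_lit 0) (nat_lit 124588530)) (xR T2.l6 T2.l6)
  (TrL.c (I.pos (nat_lit 0) (nat_lit 96881482)) T0.l6
  (TrL.c (I.pos (nat_lit 0) (nat_lit 0)) (xk (xa T0.l7 T0.l7) T0.l7)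
  (TrL.c (I.pos (nat_lit 0) (nat_lit 0)) T2.l7
  (TrL.c (I.mix (nat_lit 17240550) (nat_lit 96881482)) (xR T0.l8 T0.l8)
  (TrL.c (I.mix (nat_lit 17240550) (nat_lit 71940500)) T2.l2
  TrL.n)))))))) (by decide +kernel)
theorem bx2_10 : BoxOK sI cl9 cl9 cl6 t2 t0 b2_10 :=
  box_mk (TrL.c (I.pos (nat_lit 0) (nat_lit 0)) T2.l8
  (TrL.c (I.pos (nat_lit 0) (nat_lit 0)) T0.l5
  (TrL.c (I.pos (nat_lit 0) (nat_lit 124588530)) T2.l6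
  (TrL.c (I.pos (nat_lit 0) (nat_lit 96881482)) T0.l6
  (TrL.c (I.pos (nat_lit 0) (nat_lit 0)) T0.l9
  (TrL.c (I.pos (nat_lit 0) (nat_lit 0)) T2.l7
  (TrL.c (I.mix (nat_lit 17240550) (nat_lit 96881482)) T0.l8
  (TrL.c (I.mix (nat_lit 17240550) (nat_lit 71940500)) T2.l10
  TrL.n)))))))) (by decide +kernel)
theorem bx2_11 : BoxOK sI cl9 cl9 cl6 t2 t0 b2_11 :=
  box_mk (TrL.c (I.pos (nat_lit 0) (nat_lit 0)) (xa (xb T2.l9 T2.l9) (xb T2.l9 T2.l9))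
  (TrL.c (I.pos (nat_lit 0) (nat_lit 0)) T0.l5
  (TrL.c (I.pos (nat_lit 0) (nat_lit 124588530)) (xR T2.l6 T2.l6)
  (TrL.c (I.pos (nat_lit 0) (nat_lit 96881482)) T0.l6
  (TrL.c (I.pos (nat_lit 0) (nat_lit 0)) (xk (xb T0.l10 T0.l10) T0.l10)
  (TrL.c (I.pos (nat_lit 0) (nat_lit 0)) T2.l7
  (TrL.c (I.mix (nat_lit 17240550) (nat_lit 96881482)) (xR T0.l8 T0.l8)
  (TrL.c (I.mix (nat_lit 17240550) (nat_lit 71940500)) T2.l10
  TrL.n)))))))) (by decide +kernel)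
theorem sv2 : StarV sI cl9 cl9 cl6 t2 t0 t2 :=
  (bt_n (bt_n (bt_n (bt_b bx2_0) (bt_n (bt_b bx2_1) (bt_b bx2_2))) (bt_n (bt_b bx2_3) (bt_n (bt_b bx2_4) (bt_b bx2_5)))) (bt_n (bt_n (bt_b bx2_6) (bt_n (bt_b bx2_7) (bt_b bx2_8))) (bt_n (bt_b bx2_9) (bt_n (bt_b bx2_10) (bt_b bx2_11)))))
def S2 : StarD := StarD.mk cl9 cl9 cl6 2 0 t2
def G : List StarD := [S0, S1, S2]
theorem so0 : StarOK sI G S0 :=
  star_mk (by decide) (by decide) rfl rfl rfl rfl rfl rfl (rfl : _ = t1) (rfl : _ = t1)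
  (st_mk (Pth.l (Pth.l (Pth.l Pth.z))) (nat_lit 116525635) (nat_lit 135179603) (by decide +kernel))
  (st_mk (Pth.l (Pth.l (Pth.l Pth.z))) (nat_lit 152435594) (nat_lit 171390577) (by decide +kernel))
  (st_mk (Pth.l (Pth.l (Pth.l Pth.z))) (nat_lit 194218560) (nat_lit 213581005) (by decide +kernel)) sv0
theorem so1 : StarOK sI G S1 :=
  star_mk (by decide) (by decide) rfl rfl rfl rfl rfl rfl (rfl : _ = t0) (rfl : _ = t2)
  (st_mk (Pth.l (Pth.l (Pth.l Pth.z))) (nat_lit 186627132) (nat_lit 188053352) (by decide +kernel))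
  (st_mk (Pth.l (Pth.l (Pth.l Pth.z))) (nat_lit 221847116) (nat_lit 223642671) (by decide +kernel))
  (st_mk (Pth.l (Pth.l (Pth.l Pth.z))) (nat_lit 262555589) (nat_lit 264860111) (by decide +kernel)) sv1
theorem so2 : StarOK sI G S2 :=
  star_mk (by decide) (by decide) rfl rfl rfl rfl rfl rfl (rfl : _ = t2) (rfl : _ = t0)
  (st_mk (Pth.l (Pth.l (Pth.l Pth.z))) (nat_lit 115468852) (nat_lit 134024558) (by decide +kernel))
  (st_mk (Pth.l (Pth.l (Pth.l Pth.z))) (nat_lit 150629327) (nat_lit 169521514) (by decide +kernel))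
  (st_mk (Pth.l (Pth.l (Pth.l Pth.z))) (nat_lit 191286171) (nat_lit 210659166) (by decide +kernel)) sv2
theorem ok : GroupOK (nat_lit 150274048) (nat_lit 209387520) G := grp_mk (allS_c so0 (allS_c so1 (allS_c so2 allS_n)))
theorem cov : GCov G cl6 cl9 cl9 := cov_mk
  ⟨0, by decide, rfl, rfl, rfl⟩ ⟨0, by decide, rfl, rfl, rfl⟩ ⟨1, by decide, rfl, rfl, rfl⟩ ⟨2, by decide, rfl, rfl, rfl⟩ ⟨1, by decide, rfl, rfl, rfl⟩ ⟨2, by decide, rfl, rfl, rfl⟩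
end Q355_2


end Pool.Agent.Helper6.MONO
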