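import Pool.Agent.Helper6.MONO.Cert.C46

/-!
Certificate data (generated).
-/

set_option autoImplicit false
set_option linter.all false
noncomputable section
namespace Pool.Agent.Helper6.MONO


namespace Q355_3
def sI : I := I.pos (nat_lit 209321984) (nat_lit 268435456)
def b0_0 : Bx := Bx.mk (St.mk (I.pos (nat_lit 156450816) (nat_lit 235241472)) (I.mix (nat_lit 2850816) (nat_lit 50167808)) (I.mix (nat_lit 4325376) (nat_lit 78299136)) (I.pos (nat_lit 109658112) (nat_lit 243433472)) (I.mix (nat_lit 99745792) (nat_lit 59015168)) (I.mix (nat_lit 64028672) (nat_lit 57180160)) (I.mix (nat_lit 81526784) (nat_lit 77004800)))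
  false (nat_lit 31390331)
def b0_1 : Bx := Bx.mk (St.mk (I.mix (nat_lit 20824064) (nat_lit 140836864)) (I.mix (nat_lit 9928704) (nat_lit 27721728)) (I.mix (nat_lit 17629184) (nat_lit 18726912)) (I.pos (nat_lit 12599296) (nat_lit 105840640)) (I.mix (nat_lit 33849344) (nat_lit 25608192)) (I.mix (nat_lit 20643840) (nat_lit 14516224)) (I.mix (nat_lit 16171008) (nat_lit 9945088)))
  false (nat_lit 0)
def b0_2 : Bx := Bx.mk (St.mk (I.pos (nat_lit 102875136) (nat_lit 144703488)) (I.mix (nat_lit 42024960) (nat_lit 9666560)) (I.mix (nat_lit 46661632) (nat_lit 2572288)) (I.pos (nat_lit 59883520) (nat_lit 113917952)) (I.mix (nat_lit 72335360) (nat_lit 23740416)) (I.mix (nat_lit 23150592) (nat_lit 52281344)) (I.mix (nat_lit 18268160) (nat_lit 42942464)))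
  false (nat_lit 0)
def b0_3 : Bx := Bx.mk (St.mk (I.mix (nat_lit 27443200) (nat_lit 94896128)) (I.mix (nat_lit 26656768) (nat_lit 4194304)) (I.mix (nat_lit 20414464) (nat_lit 1163264)) (I.pos (nat_lit 14843904) (nat_lit 68829184)) (I.mix (nat_lit 33439744) (nat_lit 11845632)) (I.mix (nat_lit 12353536) (nat_lit 22970368)) (I.mix (nat_lit 6717440) (nat_lit 11993088)))
  false (nat_lit 0)
def b0_4 : Bx := Bx.mk (St.mk (I.pos (nat_lit 204865536) (nat_lit 284901376)) (I.mix (nat_lit 24854528) (nat_lit 33849344)) (I.mix (nat_lit 76562432) (nat_lit 47579136)) (I.pos (nat_lit 193003520) (nat_lit 349388800)) (I.mix (nat_lit 61308928) (nat_lit 44859392)) (I.mix (nat_lit 48316416) (nat_lit 40009728)) (I.mix (nat_lit 87113728) (nat_lit 69140480)))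
  false (nat_lit 26924971)
def b0_5 : Bx := Bx.mk (St.mk (I.pos (nat_lit 104857600) (nat_lit 181207040)) (I.neg (nat_lit 7831552) (nat_lit 46661632)) (I.neg (nat_lit 5636096) (nat_lit 49332224)) (I.pos (nat_lit 73269248) (nat_lit 153714688)) (I.mix (nat_lit 74989568) (nat_lit 43237376)) (I.mix (nat_lit 35160064) (nat_lit 50839552)) (I.mix (nat_lit 28803072) (nat_lit 52215808)))
  false (nat_lit 12591334)
def b0_6 : Bx := Bx.mk (St.mk (I.mix (nat_lit 25509888) (nat_lit 107839488)) (I.mix (nat_lit 28147712) (nat_lit 5947392)) (I.mix (nat_lit 21970944) (nat_lit 1425408)) (I.pos (nat_lit 12877824) (nat_lit 77873152)) (I.mix (nat_lit 39567360) (nat_lit 32047104)) (I.mix (nat_lit 21839872) (nat_lit 31539200)) (I.mix (nat_lit 12992512) (nat_lit 19890176)))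
  false (nat_lit 0)
def b0_7 : Bx := Bx.mk (St.mk (I.pos (nat_lit 167886848) (nat_lit 217251840)) (I.mix (nat_lit 9011200) (nat_lit 53018624)) (I.mix (nat_lit 196608) (nat_lit 81248256)) (I.pos (nat_lit 138493952) (nat_lit 216678400)) (I.mix (nat_lit 136282112) (nat_lit 52396032)) (I.mix (nat_lit 104742912) (nat_lit 61521920)) (I.mix (nat_lit 113082368) (nat_lit 60571648)))
  false (nat_lit 0)
def b0_8 : Bx := Bx.mk (St.mk (I.mix (nat_lit 28803072) (nat_lit 130629632)) (I.mix (nat_lit 14401536) (nat_lit 30523392)) (I.mix (nat_lit 13598720) (nat_lit 20922368)) (I.pos (nat_lit 13451264) (nat_lit 94535680)) (I.mix (nat_lit 53264384) (nat_lit 33357824)) (I.mix (nat_lit 47759360) (nat_lit 28508160)) (I.mix (nat_lit 30212096) (nat_lit 18087936)))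
  false (nat_lit 0)
def b0_9 : Bx := Bx.mk (St.mk (I.pos (nat_lit 151044096) (nat_lit 210911232)) (I.mix (nat_lit 33521664) (nat_lit 14188544)) (I.mix (nat_lit 37388288) (nat_lit 25755648)) (I.pos (nat_lit 111001600) (nat_lit 199917568)) (I.mix (nat_lit 43876352) (nat_lit 41713664)) (I.mix (nat_lit 41385984) (nat_lit 36126720)) (I.mix (nat_lit 43302912) (nat_lit 38993920)))
  false (nat_lit 24506424)
def b0_10 : Bx := Bx.mk (St.mk (I.pos (nat_lit 171458560) (nat_lit 209764352)) (I.mix (nat_lit 9977856) (nat_lit 27197440)) (I.mix (nat_lit 2244608) (nat_lit 45514752)) (I.pos (nat_lit 137543680) (nat_lit 198197248)) (I.mix (nat_lit 104595456) (nat_lit 56475648)) (I.mix (nat_lit 103546880) (nat_lit 50708480)) (I.mix (nat_lit 115965952) (nat_lit 52248576)))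
  false (nat_lit 10050045)
def b0_11 : Bx := Bx.mk (St.mk (I.pos (nat_lit 189005824) (nat_lit 233586688)) (I.pos (nat_lit 8716288) (nat_lit 47923200)) (I.pos (nat_lit 8044544) (nat_lit 74809344)) (I.pos (nat_lit 183615488) (nat_lit 240123904)) (I.mix (nat_lit 79855616) (nat_lit 57442304)) (I.mix (nat_lit 58179584) (nat_lit 47464448)) (I.mix (nat_lit 87867392) (nat_lit 59080704)))
  false (nat_lit 17123638)
def t0 : BTr := (BTr.n (BTr.n (BTr.n (BTr.b b0_0) (BTr.n (BTr.b b0_1) (BTr.b b0_2))) (BTr.n (BTr.b b0_3) (BTr.n (BTr.b b0_4) (BTr.b b0_5)))) (BTr.n (BTr.n (BTr.b b0_6) (BTr.n (BTr.b b0_7) (BTr.b b0_8))) (BTr.n (BTr.b b0_9) (BTr.n (BTr.b b0_10) (BTr.b b0_11)))))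
namespace T0
def l0 : Tr := Tr.L (Pth.l (Pth.l (Pth.l Pth.z)))
def l1 : Tr := Tr.L (Pth.l (Pth.l (Pth.r (Pth.l Pth.z))))
def l2 : Tr := Tr.L (Pth.l (Pth.l (Pth.r (Pth.r Pth.z))))
def l3 : Tr := Tr.L (Pth.l (Pth.r (Pth.l Pth.z)))
def l4 : Tr := Tr.L (Pth.l (Pth.r (Pth.r (Pth.l Pth.z))))
def l5 : Tr := Tr.L (Pth.l (Pth.r (Pth.r (Pth.r Pth.z))))
def l6 : Tr := Tr.L (Pth.r (Pth.l (Pth.l Pth.z)))
def l7 : Tr := Tr.L (Pth.r (Pth.l (Pth.r (Pth.l Pth.z))))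
def l8 : Tr := Tr.L (Pth.r (Pth.l (Pth.r (Pth.r Pth.z))))
def l9 : Tr := Tr.L (Pth.r (Pth.r (Pth.l Pth.z)))
def l10 : Tr := Tr.L (Pth.r (Pth.r (Pth.r (Pth.l Pth.z))))
def l11 : Tr := Tr.L (Pth.r (Pth.r (Pth.r (Pth.r Pth.z))))
end T0
def b1_0 : Bx := Bx.mk (St.mk (I.pos (nat_lit 152879104) (nat_lit 229457920)) (I.mix (nat_lit 3293184) (nat_lit 58310656)) (I.mix (nat_lit 5079040) (nat_lit 89980928)) (I.pos (nat_lit 180551680) (nat_lit 287997952)) (I.mix (nat_lit 110690304) (nat_lit 64323584)) (I.mix (nat_lit 63111168) (nat_lit 60276736)) (I.mix (nat_lit 84819968) (nat_lit 79839232)))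
  false (nat_lit 106955759)
def b1_1 : Bx := Bx.mk (St.mk (I.pos (nat_lit 84344832) (nat_lit 166494208)) (I.neg (nat_lit 9486336) (nat_lit 56377344)) (I.mix (nat_lit 51003392) (nat_lit 1605632)) (I.pos (nat_lit 121421824) (nat_lit 192561152)) (I.mix (nat_lit 72122368) (nat_lit 47349760)) (I.mix (nat_lit 34947072) (nat_lit 52330496)) (I.mix (nat_lit 26132480) (nat_lit 44367872)))
  false (nat_lit 0)
def b1_2 : Bx := Bx.mk (St.mk (I.mix (nat_lit 38584320) (nat_lit 104218624)) (I.mix (nat_lit 8323072) (nat_lit 37142528)) (I.mix (nat_lit 15974400) (nat_lit 16547840)) (I.pos (nat_lit 80199680) (nat_lit 126910464)) (I.mix (nat_lit 40747008) (nat_lit 45367296)) (I.mix (nat_lit 36110336) (nat_lit 25247744)) (I.mix (nat_lit 23592960) (nat_lit 13926400)))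
  false (nat_lit 0)
def b1_3 : Bx := Bx.mk (St.mk (I.mix (nat_lit 37765120) (nat_lit 51167232)) (I.mix (nat_lit 34160640) (nat_lit 7061504)) (I.mix (nat_lit 13303808) (nat_lit 3899392)) (I.pos (nat_lit 81461248) (nat_lit 102531072)) (I.mix (nat_lit 30310400) (nat_lit 35143680)) (I.mix (nat_lit 18677760) (nat_lit 29409280)) (I.mix (nat_lit 7700480) (nat_lit 10928128)))
  false (nat_lit 0)
def b1_4 : Bx := Bx.mk (St.mk (I.pos (nat_lit 160907264) (nat_lit 207175680)) (I.mix (nat_lit 2867200) (nat_lit 56836096)) (I.pos (nat_lit 12861440) (nat_lit 86786048)) (I.pos (nat_lit 190758912) (nat_lit 253378560)) (I.mix (nat_lit 119193600) (nat_lit 36126720)) (I.mix (nat_lit 86818816) (nat_lit 53805056)) (I.mix (nat_lit 82804736) (nat_lit 45416448)))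
  false (nat_lit 79610140)
def b1_5 : Bx := Bx.mk (St.mk (I.pos (nat_lit 76840960) (nat_lit 122519552)) (I.mix (nat_lit 55410688) (nat_lit 9961472)) (I.neg (nat_lit 425984) (nat_lit 50544640)) (I.pos (nat_lit 110608384) (nat_lit 147685376)) (I.mix (nat_lit 77611008) (nat_lit 29163520)) (I.mix (nat_lit 25247744) (nat_lit 66781184)) (I.mix (nat_lit 18432000) (nat_lit 44679168)))
  false (nat_lit 0)
def b1_6 : Bx := Bx.mk (St.mk (I.mix (nat_lit 53510144) (nat_lit 79249408)) (I.mix (nat_lit 10584064) (nat_lit 36782080)) (I.mix (nat_lit 14155776) (nat_lit 15138816)) (I.pos (nat_lit 80789504) (nat_lit 112623616)) (I.mix (nat_lit 43696128) (nat_lit 26574848)) (I.mix (nat_lit 35569664) (nat_lit 17825792)) (I.mix (nat_lit 12845056) (nat_lit 8404992)))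
  false (nat_lit 0)
def b1_7 : Bx := Bx.mk (St.mk (I.mix (nat_lit 51871744) (nat_lit 34897920)) (I.mix (nat_lit 33865728) (nat_lit 6799360)) (I.mix (nat_lit 10895360) (nat_lit 4915200)) (I.pos (nat_lit 82149376) (nat_lit 102137856)) (I.mix (nat_lit 38371328) (nat_lit 24576000)) (I.mix (nat_lit 17825792) (nat_lit 30195712)) (I.mix (nat_lit 11059200) (nat_lit 6193152)))
  false (nat_lit 0)
def b1_8 : Bx := Bx.mk (St.mk (I.pos (nat_lit 188907520) (nat_lit 288129024)) (I.mix (nat_lit 21495808) (nat_lit 43302912)) (I.mix (nat_lit 70369280) (nat_lit 62750720)) (I.pos (nat_lit 236109824) (nat_lit 397639680)) (I.mix (nat_lit 63176704) (nat_lit 63766528)) (I.mix (nat_lit 62308352) (nat_lit 40960000)) (I.mix (nat_lit 107888640) (nat_lit 70057984)))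
  false (nat_lit 116737670)
def b1_9 : Bx := Bx.mk (St.mk (I.pos (nat_lit 139132928) (nat_lit 198705152)) (I.mix (nat_lit 34832384) (nat_lit 13762560)) (I.mix (nat_lit 29999104) (nat_lit 33554432)) (I.pos (nat_lit 164200448) (nat_lit 235552768)) (I.mix (nat_lit 43450368) (nat_lit 43614208)) (I.mix (nat_lit 41877504) (nat_lit 40124416)) (I.mix (nat_lit 39911424) (nat_lit 39469056)))
  false (nat_lit 0)
def b1_10 : Bx := Bx.mk (St.mk (I.pos (nat_lit 174981120) (nat_lit 225869824)) (I.pos (nat_lit 21577728) (nat_lit 58261504)) (I.pos (nat_lit 32407552) (nat_lit 88752128)) (I.pos (nat_lit 230211584) (nat_lit 282722304)) (I.mix (nat_lit 104562688) (nat_lit 83886080)) (I.mix (nat_lit 78774272) (nat_lit 62373888)) (I.mix (nat_lit 115900416) (nat_lit 76939264)))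
  false (nat_lit 65706285)
def b1_11 : Bx := Bx.mk (St.mk (I.pos (nat_lit 161644544) (nat_lit 198115328)) (I.mix (nat_lit 7340032) (nat_lit 32505856)) (I.pos (nat_lit 5341184) (nat_lit 58621952)) (I.pos (nat_lit 192315392) (nat_lit 237666304)) (I.mix (nat_lit 102760448) (nat_lit 46333952)) (I.mix (nat_lit 97812480) (nat_lit 42631168)) (I.mix (nat_lit 98500608) (nat_lit 38944768)))
  false (nat_lit 18081376)
def t1 : BTr := (BTr.n (BTr.n (BTr.n (BTr.b b1_0) (BTr.n (BTr.b b1_1) (BTr.b b1_2))) (BTr.n (BTr.b b1_3) (BTr.n (BTr.b b1_4) (BTr.b b1_5)))) (BTr.n (BTr.n (BTr.b b1_6) (BTr.n (BTr.b b1_7) (BTr.b b1_8))) (BTr.n (BTr.b b1_9) (BTr.n (BTr.b b1_10) (BTr.b b1_11)))))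
namespace T1
def l0 : Tr := Tr.L (Pth.l (Pth.l (Pth.l Pth.z)))
def l1 : Tr := Tr.L (Pth.l (Pth.l (Pth.r (Pth.l Pth.z))))
def l2 : Tr := Tr.L (Pth.l (Pth.l (Pth.r (Pth.r Pth.z))))
def l3 : Tr := Tr.L (Pth.l (Pth.r (Pth.l Pth.z)))
def l4 : Tr := Tr.L (Pth.l (Pth.r (Pth.r (Pth.l Pth.z))))
def l5 : Tr := Tr.L (Pth.l (Pth.r (Pth.r (Pth.r Pth.z))))
def l6 : Tr := Tr.L (Pth.r (Pth.l (Pth.l Pth.z)))
def l7 : Tr := Tr.L (Pth.r (Pth.l (Pth.r (Pth.l Pth.z))))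
def l8 : Tr := Tr.L (Pth.r (Pth.l (Pth.r (Pth.r Pth.z))))
def l9 : Tr := Tr.L (Pth.r (Pth.r (Pth.l Pth.z)))
def l10 : Tr := Tr.L (Pth.r (Pth.r (Pth.r (Pth.l Pth.z))))
def l11 : Tr := Tr.L (Pth.r (Pth.r (Pth.r (Pth.r Pth.z))))
end T1
def b2_0 : Bx := Bx.mk (St.mk (I.pos (nat_lit 156532736) (nat_lit 234487808)) (I.mix (nat_lit 2654208) (nat_lit 48267264)) (I.mix (nat_lit 5095424) (nat_lit 95420416)) (I.pos (nat_lit 109084672) (nat_lit 230424576)) (I.mix (nat_lit 114147328) (nat_lit 72138752)) (I.mix (nat_lit 75890688) (nat_lit 75169792)) (I.mix (nat_lit 104038400) (nat_lit 96124928)))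
  false (nat_lit 34606852)
def b2_1 : Bx := Bx.mk (St.mk (I.pos (nat_lit 110329856) (nat_lit 185188352)) (I.neg (nat_lit 7798784) (nat_lit 49430528)) (I.mix (nat_lit 42598400) (nat_lit 8634368)) (I.pos (nat_lit 83083264) (nat_lit 162611200)) (I.mix (nat_lit 66076672) (nat_lit 34914304)) (I.mix (nat_lit 30998528) (nat_lit 39616512)) (I.mix (nat_lit 27230208) (nat_lit 37273600)))
  false (nat_lit 0)
def b2_2 : Bx := Bx.mk (St.mk (I.mix (nat_lit 22691840) (nat_lit 111149056)) (I.mix (nat_lit 27607040) (nat_lit 5439488)) (I.mix (nat_lit 15204352) (nat_lit 9453568)) (I.pos (nat_lit 13352960) (nat_lit 79347712)) (I.mix (nat_lit 33259520) (nat_lit 25198592)) (I.mix (nat_lit 17465344) (nat_lit 19939328)) (I.mix (nat_lit 10420224) (nat_lit 12173312)))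
  false (nat_lit 0)
def b2_3 : Bx := Bx.mk (St.mk (I.pos (nat_lit 164249600) (nat_lit 212893696)) (I.mix (nat_lit 10141696) (nat_lit 49905664)) (I.pos (nat_lit 12369920) (nat_lit 94846976)) (I.pos (nat_lit 129417216) (nat_lit 203751424)) (I.mix (nat_lit 146145280) (nat_lit 58671104)) (I.mix (nat_lit 114900992) (nat_lit 67158016)) (I.mix (nat_lit 130367488) (nat_lit 57524224)))
  false (nat_lit 50847615)
def b2_4 : Bx := Bx.mk (St.mk (I.mix (nat_lit 29736960) (nat_lit 126304256)) (I.mix (nat_lit 13975552) (nat_lit 28803072)) (I.mix (nat_lit 6062080) (nat_lit 28246016)) (I.pos (nat_lit 13451264) (nat_lit 91488256)) (I.mix (nat_lit 51658752) (nat_lit 23560192)) (I.mix (nat_lit 39976960) (nat_lit 23576576)) (I.mix (nat_lit 26017792) (nat_lit 14106624)))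
  false (nat_lit 0)
def b2_5 : Bx := Bx.mk (St.mk (I.pos (nat_lit 153010176) (nat_lit 207142912)) (I.mix (nat_lit 31916032) (nat_lit 8552448)) (I.mix (nat_lit 21561344) (nat_lit 35913728)) (I.pos (nat_lit 115539968) (nat_lit 190955520)) (I.mix (nat_lit 43204608) (nat_lit 46284800)) (I.mix (nat_lit 39944192) (nat_lit 40763392)) (I.mix (nat_lit 39911424) (nat_lit 44072960)))
  false (nat_lit 3883449)
def b2_6 : Bx := Bx.mk (St.mk (I.mix (nat_lit 28901376) (nat_lit 138674176)) (I.mix (nat_lit 6832128) (nat_lit 25165824)) (I.mix (nat_lit 4571136) (nat_lit 25477120)) (I.pos (nat_lit 11419648) (nat_lit 103383040)) (I.mix (nat_lit 41746432) (nat_lit 36880384)) (I.mix (nat_lit 35373056) (nat_lit 25329664)) (I.mix (nat_lit 27787264) (nat_lit 18399232)))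
  false (nat_lit 0)
def b2_7 : Bx := Bx.mk (St.mk (I.pos (nat_lit 107642880) (nat_lit 151568384)) (I.mix (nat_lit 46252032) (nat_lit 9060352)) (I.mix (nat_lit 40697856) (nat_lit 12320768)) (I.pos (nat_lit 62685184) (nat_lit 121176064)) (I.mix (nat_lit 71729152) (nat_lit 34799616)) (I.mix (nat_lit 28966912) (nat_lit 63455232)) (I.mix (nat_lit 22609920) (nat_lit 50839552)))
  false (nat_lit 0)
def b2_8 : Bx := Bx.mk (St.mk (I.pos (nat_lit 193331200) (nat_lit 285966336)) (I.mix (nat_lit 18481152) (nat_lit 35307520)) (I.mix (nat_lit 30212096) (nat_lit 76365824)) (I.pos (nat_lit 172130304) (nat_lit 341180416)) (I.mix (nat_lit 57360384) (nat_lit 55525376)) (I.mix (nat_lit 50774016) (nat_lit 38961152)) (I.mix (nat_lit 87425024) (nat_lit 65028096)))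
  false (nat_lit 33948388)
def b2_9 : Bx := Bx.mk (St.mk (I.pos (nat_lit 180371456) (nat_lit 231997440)) (I.pos (nat_lit 10158080) (nat_lit 47316992)) (I.pos (nat_lit 29671424) (nat_lit 94027776)) (I.pos (nat_lit 167165952) (nat_lit 226590720)) (I.mix (nat_lit 101793792) (nat_lit 87588864)) (I.mix (nat_lit 85213184) (nat_lit 69632000)) (I.mix (nat_lit 125878272) (nat_lit 88997888)))
  false (nat_lit 48946379)
def b2_10 : Bx := Bx.mk (St.mk (I.mix (nat_lit 21774336) (nat_lit 97304576)) (I.mix (nat_lit 27049984) (nat_lit 4931584)) (I.mix (nat_lit 14155776) (nat_lit 4866048)) (I.pos (nat_lit 15024128) (nat_lit 70369280)) (I.mix (nat_lit 33275904) (nat_lit 17874944)) (I.mix (nat_lit 15679488) (nat_lit 28213248)) (I.mix (nat_lit 8617984) (nat_lit 14303232)))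
  false (nat_lit 0)
def b2_11 : Bx := Bx.mk (St.mk (I.pos (nat_lit 171687936) (nat_lit 205422592)) (I.mix (nat_lit 11878400) (nat_lit 21364736)) (I.pos (nat_lit 9175040) (nat_lit 53903360)) (I.pos (nat_lit 130351104) (nat_lit 189792256)) (I.mix (nat_lit 82755584) (nat_lit 31588352)) (I.mix (nat_lit 75661312) (nat_lit 27541504)) (I.mix (nat_lit 88817664) (nat_lit 26951680)))
  false (nat_lit 0)
def t2 : BTr := (BTr.n (BTr.n (BTr.n (BTr.b b2_0) (BTr.n (BTr.b b2_1) (BTr.b b2_2))) (BTr.n (BTr.b b2_3) (BTr.n (BTr.b b2_4) (BTr.b b2_5)))) (BTr.n (BTr.n (BTr.b b2_6) (BTr.n (BTr.b b2_7) (BTr.b b2_8))) (BTr.n (BTr.b b2_9) (BTr.n (BTr.b b2_10) (BTr.b b2_11)))))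
namespace T2
def l0 : Tr := Tr.L (Pth.l (Pth.l (Pth.l Pth.z)))
def l1 : Tr := Tr.L (Pth.l (Pth.l (Pth.r (Pth.l Pth.z))))
def l2 : Tr := Tr.L (Pth.l (Pth.l (Pth.r (Pth.r Pth.z))))
def l3 : Tr := Tr.L (Pth.l (Pth.r (Pth.l Pth.z)))
def l4 : Tr := Tr.L (Pth.l (Pth.r (Pth.r (Pth.l Pth.z))))
def l5 : Tr := Tr.L (Pth.l (Pth.r (Pth.r (Pth.r Pth.z))))
def l6 : Tr := Tr.L (Pth.r (Pth.l (Pth.l Pth.z)))
def l7 : Tr := Tr.L (Pth.r (Pth.l (Pth.r (Pth.l Pth.z))))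
def l8 : Tr := Tr.L (Pth.r (Pth.l (Pth.r (Pth.r Pth.z))))
def l9 : Tr := Tr.L (Pth.r (Pth.r (Pth.l Pth.z)))
def l10 : Tr := Tr.L (Pth.r (Pth.r (Pth.r (Pth.l Pth.z))))
def l11 : Tr := Tr.L (Pth.r (Pth.r (Pth.r (Pth.r Pth.z))))
end T2
theorem bx0_0 : BoxOK sI cl6 cl9 cl9 t1 t1 b0_0 :=
  box_mk (TrL.c (I.pos (nat_lit 0) (nat_lit 0)) (xa (xb (xa (xb T1.l0 T1.l0) T1.l0) (xa (xb T1.l0 T1.l0) (xb T1.l0 T1.l0))) (xb (xa T1.l0 T1.l0) (xa (xb T1.l0 T1.l0) (xb T1.l0 T1.l0))))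
  (TrL.c (I.pos (nat_lit 0) (nat_lit 0)) (xa (xb T1.l1 T1.l1) (xb T1.l1 T1.l1))
  (TrL.c (I.pos (nat_lit 0) (nat_lit 89480386)) (xR T1.l2 T1.l2)
  (TrL.c (I.pos (nat_lit 0) (nat_lit 41530880)) T1.l3
  (TrL.c (I.pos (nat_lit 0) (nat_lit 0)) (xa (xb T1.l11 (xa T1.l4 T1.l4)) (xb (xa T1.l4 T1.l4) (xa T1.l4 (xb T1.l4 T1.l4))))
  (TrL.c (I.pos (nat_lit 0) (nat_lit 0)) (xa T1.l5 T1.l5)
  (TrL.c (I.mix (nat_lit 41527258) (nat_lit 41530880)) (xR T1.l2 T1.l2)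
  (TrL.c (I.mix (nat_lit 41527258) (nat_lit 4274)) T1.l7
  TrL.n)))))))) (by decide +kernel)
theorem bx0_1 : BoxOK sI cl6 cl9 cl9 t1 t1 b0_1 :=
  box_mk (TrL.c (I.pos (nat_lit 0) (nat_lit 0)) (xa T1.l8 (xa T1.l8 (xa T1.l8 (xb T1.l8 T1.l8))))
  (TrL.c (I.pos (nat_lit 0) (nat_lit 0)) (xa T1.l1 T1.l1)
  (TrL.c (I.pos (nat_lit 0) (nat_lit 89480386)) T1.l2
  (TrL.c (I.pos (nat_lit 0) (nat_lit 41530880)) T1.l3
  (TrL.c (I.pos (nat_lit 0) (nat_lit 0)) (xa T1.l9 T1.l9)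
  (TrL.c (I.pos (nat_lit 0) (nat_lit 0)) T1.l5
  (TrL.c (I.mix (nat_lit 41527258) (nat_lit 41530880)) T1.l6
  (TrL.c (I.mix (nat_lit 41527258) (nat_lit 4274)) T1.l7
  TrL.n)))))))) (by decide +kernel)
theorem bx0_2 : BoxOK sI cl6 cl9 cl9 t1 t1 b0_2 :=
  box_mk (TrL.c (I.pos (nat_lit 0) (nat_lit 0)) (xb T1.l8 T1.l8)
  (TrL.c (I.pos (nat_lit 0) (nat_lit 0)) T1.l1
  (TrL.c (I.pos (nat_lit 0) (nat_lit 89480386)) T1.l2
  (TrL.c (I.pos (nat_lit 0) (nat_lit 41530880)) T1.l3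
  (TrL.c (I.pos (nat_lit 0) (nat_lit 0)) (xb T1.l9 (xa T1.l9 T1.l9))
  (TrL.c (I.pos (nat_lit 0) (nat_lit 0)) T1.l5
  (TrL.c (I.mix (nat_lit 41527258) (nat_lit 41530880)) T1.l6
  (TrL.c (I.mix (nat_lit 41527258) (nat_lit 4274)) T1.l7
  TrL.n)))))))) (by decide +kernel)
theorem bx0_3 : BoxOK sI cl6 cl9 cl9 t1 t1 b0_3 :=
  box_mk (TrL.c (I.pos (nat_lit 0) (nat_lit 0)) (xa (xa (xb (xa T1.l8 T1.l8) T1.l8) T1.l8) T1.l8)
  (TrL.c (I.pos (nat_lit 0) (nat_lit 0)) (xa T1.l1 T1.l1)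
  (TrL.c (I.pos (nat_lit 0) (nat_lit 89480386)) T1.l2
  (TrL.c (I.pos (nat_lit 0) (nat_lit 41530880)) T1.l3
  (TrL.c (I.pos (nat_lit 0) (nat_lit 0)) (xa T1.l9 T1.l9)
  (TrL.c (I.pos (nat_lit 0) (nat_lit 0)) T1.l5
  (TrL.c (I.mix (nat_lit 41527258) (nat_lit 41530880)) T1.l6
  (TrL.c (I.mix (nat_lit 41527258) (nat_lit 4274)) T1.l7
  TrL.n)))))))) (by decide +kernel)
theorem bx0_4 : BoxOK sI cl6 cl9 cl9 t1 t1 b0_4 :=
  box_mk (TrL.c (I.pos (nat_lit 0) (nat_lit 0)) (xa (xb (xa T1.l0 T1.l0) (xa T1.l0 T1.l0)) (xb (xa T1.l0 (xb T1.l0 T1.l0)) (xa (xb T1.l0 T1.l0) (xb T1.l0 T1.l0))))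
  (TrL.c (I.pos (nat_lit 0) (nat_lit 0)) (xa T1.l1 T1.l5)
  (TrL.c (I.pos (nat_lit 0) (nat_lit 89480386)) (xR T1.l2 T1.l2)
  (TrL.c (I.pos (nat_lit 0) (nat_lit 41530880)) T1.l3
  (TrL.c (I.pos (nat_lit 0) (nat_lit 0)) (xa (xb (xa T1.l0 (xb T1.l4 T1.l4)) (xa T1.l4 T1.l4)) (xb (xa (xb T1.l4 T1.l4) (xb T1.l4 T1.l4)) (xa T1.l4 (xb T1.l4 T1.l4))))
  (TrL.c (I.pos (nat_lit 0) (nat_lit 0)) (xa T1.l1 (xb T1.l1 T1.l5))
  (TrL.c (I.mix (nat_lit 41527258) (nat_lit 41530880)) (xR T1.l2 T1.l2)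
  (TrL.c (I.mix (nat_lit 41527258) (nat_lit 4274)) T1.l7
  TrL.n)))))))) (by decide +kernel)
theorem bx0_5 : BoxOK sI cl6 cl9 cl9 t1 t1 b0_5 :=
  box_mk (TrL.c (I.pos (nat_lit 0) (nat_lit 0)) (xa (xb (xa (xb T1.l8 T1.l8) (xb T1.l8 T1.l8)) (xa T1.l8 T1.l8)) (xb T1.l0 T1.l0))
  (TrL.c (I.pos (nat_lit 0) (nat_lit 0)) T1.l1
  (TrL.c (I.pos (nat_lit 0) (nat_lit 89480386)) (xR T1.l2 T1.l2)
  (TrL.c (I.pos (nat_lit 0) (nat_lit 41530880)) T1.l3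
  (TrL.c (I.pos (nat_lit 0) (nat_lit 0)) (xa (xb (xa T1.l9 T1.l9) T1.l9) (xb (xa T1.l9 T1.l9) T1.l11))
  (TrL.c (I.pos (nat_lit 0) (nat_lit 0)) T1.l5
  (TrL.c (I.mix (nat_lit 41527258) (nat_lit 41530880)) T1.l6
  (TrL.c (I.mix (nat_lit 41527258) (nat_lit 4274)) T1.l7
  TrL.n)))))))) (by decide +kernel)
theorem bx0_6 : BoxOK sI cl6 cl9 cl9 t1 t1 b0_6 :=
  box_mk (TrL.c (I.pos (nat_lit 0) (nat_lit 0)) (xa (xa (xb (xa T1.l8 T1.l8) T1.l8) T1.l8) (xa T1.l8 T1.l8))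
  (TrL.c (I.pos (nat_lit 0) (nat_lit 0)) (xa T1.l1 T1.l1)
  (TrL.c (I.pos (nat_lit 0) (nat_lit 89480386)) T1.l2
  (TrL.c (I.pos (nat_lit 0) (nat_lit 41530880)) T1.l3
  (TrL.c (I.pos (nat_lit 0) (nat_lit 0)) (xa (xa T1.l9 T1.l9) T1.l9)
  (TrL.c (I.pos (nat_lit 0) (nat_lit 0)) T1.l5
  (TrL.c (I.mix (nat_lit 41527258) (nat_lit 41530880)) T1.l6
  (TrL.c (I.mix (nat_lit 41527258) (nat_lit 4274)) T1.l7
  TrL.n)))))))) (by decide +kernel)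
theorem bx0_7 : BoxOK sI cl6 cl9 cl9 t1 t1 b0_7 :=
  box_mk (TrL.c (I.pos (nat_lit 0) (nat_lit 0)) (xb (xa (xb (xa T1.l10 T1.l10) T1.l10) (xb T1.l10 T1.l10)) (xa (xb (xa T1.l10 T1.l10) (xa T1.l10 T1.l10)) (xb (xa T1.l10 T1.l10) (xa T1.l10 T1.l10))))
  (TrL.c (I.pos (nat_lit 0) (nat_lit 0)) (xb T1.l1 T1.l1)
  (TrL.c (I.pos (nat_lit 0) (nat_lit 89480386)) (xR T1.l2 T1.l2)
  (TrL.c (I.pos (nat_lit 0) (nat_lit 41530880)) T1.l3
  (TrL.c (I.pos (nat_lit 0) (nat_lit 0)) (xb (xa (xb (xa T1.l11 T1.l11) T1.l11) (xb (xa T1.l11 T1.l11) T1.l11)) (xa (xb T1.l11 (xa T1.l11 T1.l11)) (xb (xa T1.l11 T1.l11) (xa T1.l11 T1.l11))))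
  (TrL.c (I.pos (nat_lit 0) (nat_lit 0)) T1.l5
  (TrL.c (I.mix (nat_lit 41527258) (nat_lit 41530880)) (xR T1.l2 T1.l6)
  (TrL.c (I.mix (nat_lit 41527258) (nat_lit 4274)) T1.l7
  TrL.n)))))))) (by decide +kernel)
theorem bx0_8 : BoxOK sI cl6 cl9 cl9 t1 t1 b0_8 :=
  box_mk (TrL.c (I.pos (nat_lit 0) (nat_lit 0)) (xa (xa (xb (xa T1.l8 T1.l8) (xa T1.l8 T1.l8)) (xb T1.l8 T1.l8)) (xa (xb T1.l8 T1.l8) (xb T1.l8 (xa T1.l8 T1.l8))))
  (TrL.c (I.pos (nat_lit 0) (nat_lit 0)) (xa T1.l1 T1.l1)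
  (TrL.c (I.pos (nat_lit 0) (nat_lit 89480386)) T1.l2
  (TrL.c (I.pos (nat_lit 0) (nat_lit 41530880)) T1.l3
  (TrL.c (I.pos (nat_lit 0) (nat_lit 0)) (xa (xa T1.l1 T1.l9) (xa T1.l9 T1.l9))
  (TrL.c (I.pos (nat_lit 0) (nat_lit 0)) T1.l5
  (TrL.c (I.mix (nat_lit 41527258) (nat_lit 41530880)) T1.l6
  (TrL.c (I.mix (nat_lit 41527258) (nat_lit 4274)) T1.l7
  TrL.n)))))))) (by decide +kernel)
theorem bx0_9 : BoxOK sI cl6 cl9 cl9 t1 t1 b0_9 :=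
  box_mk (TrL.c (I.pos (nat_lit 0) (nat_lit 0)) (xa (xb T1.l0 T1.l0) T1.l0)
  (TrL.c (I.pos (nat_lit 0) (nat_lit 0)) T1.l1
  (TrL.c (I.pos (nat_lit 0) (nat_lit 89480386)) (xR T1.l2 T1.l2)
  (TrL.c (I.pos (nat_lit 0) (nat_lit 41530880)) T1.l3
  (TrL.c (I.pos (nat_lit 0) (nat_lit 0)) (xa T1.l11 T1.l0)
  (TrL.c (I.pos (nat_lit 0) (nat_lit 0)) T1.l5
  (TrL.c (I.mix (nat_lit 41527258) (nat_lit 41530880)) T1.l2
  (TrL.c (I.mix (nat_lit 41527258) (nat_lit 4274)) T1.l7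
  TrL.n)))))))) (by decide +kernel)
theorem bx0_10 : BoxOK sI cl6 cl9 cl9 t1 t1 b0_10 :=
  box_mk (TrL.c (I.pos (nat_lit 0) (nat_lit 0)) (xa (xb T1.l10 T1.l10) T1.l10)
  (TrL.c (I.pos (nat_lit 0) (nat_lit 0)) T1.l1
  (TrL.c (I.pos (nat_lit 0) (nat_lit 89480386)) (xR T1.l2 T1.l2)
  (TrL.c (I.pos (nat_lit 0) (nat_lit 41530880)) T1.l3
  (TrL.c (I.pos (nat_lit 0) (nat_lit 0)) (xb (xa T1.l11 (xb T1.l11 T1.l11)) T1.l11)
  (TrL.c (I.pos (nat_lit 0) (nat_lit 0)) T1.l5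
  (TrL.c (I.mix (nat_lit 41527258) (nat_lit 41530880)) T1.l2
  (TrL.c (I.mix (nat_lit 41527258) (nat_lit 4274)) T1.l7
  TrL.n)))))))) (by decide +kernel)
theorem bx0_11 : BoxOK sI cl6 cl9 cl9 t1 t1 b0_11 :=
  box_mk (TrL.c (I.pos (nat_lit 0) (nat_lit 0)) (xa (xb T1.l0 T1.l0) (xb T1.l0 T1.l0))
  (TrL.c (I.pos (nat_lit 0) (nat_lit 0)) T1.l1
  (TrL.c (I.pos (nat_lit 0) (nat_lit 89480386)) (xR T1.l2 T1.l2)
  (TrL.c (I.pos (nat_lit 0) (nat_lit 41530880)) T1.l3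
  (TrL.c (I.pos (nat_lit 0) (nat_lit 0)) (xa T1.l4 T1.l4)
  (TrL.c (I.pos (nat_lit 0) (nat_lit 0)) T1.l5
  (TrL.c (I.mix (nat_lit 41527258) (nat_lit 41530880)) T1.l2
  (TrL.c (I.mix (nat_lit 41527258) (nat_lit 4274)) T1.l7
  TrL.n)))))))) (by decide +kernel)
theorem sv0 : StarV sI cl6 cl9 cl9 t1 t1 t0 :=
  (bt_n (bt_n (bt_n (bt_b bx0_0) (bt_n (bt_b bx0_1) (bt_b bx0_2))) (bt_n (bt_b bx0_3) (bt_n (bt_b bx0_4) (bt_b bx0_5)))) (bt_n (bt_n (bt_b bx0_6) (bt_n (bt_b bx0_7) (bt_b bx0_8))) (bt_n (bt_b bx0_9) (bt_n (bt_b bx0_10) (bt_b bx0_11)))))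
def S0 : StarD := StarD.mk cl6 cl9 cl9 1 1 t0
theorem bx1_0 : BoxOK sI cl9 cl6 cl9 t0 t2 b1_0 :=
  box_mk (TrL.c (I.pos (nat_lit 0) (nat_lit 0)) (xa (xb (xa (xb T0.l0 T0.l0) T0.l0) (xa (xb T0.l0 T0.l0) (xb T0.l0 T0.l0))) (xb (xa T0.l0 T0.l0) (xa (xb T0.l0 T0.l0) (xb T0.l0 T0.l0))))
  (TrL.c (I.pos (nat_lit 0) (nat_lit 0)) (xa (xk (xb T2.l1 T2.l1) (xb T2.l1 T2.l1)) (xk (xb T2.l1 T2.l1) (xb T2.l1 T2.l1)))
  (TrL.c (I.pos (nat_lit 0) (nat_lit 124588530)) (xR T0.l1 T0.l8)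
  (TrL.c (I.pos (nat_lit 0) (nat_lit 96881482)) (xR T2.l2 T2.l2)
  (TrL.c (I.pos (nat_lit 0) (nat_lit 0)) (xa (xk (xb (xa T2.l3 T2.l3) T2.l3) (xb (xa T2.l3 T2.l3) (xa T2.l3 T2.l3))) (xb T2.l3 (xk T2.l3 (xa T2.l3 T2.l3))))
  (TrL.c (I.pos (nat_lit 0) (nat_lit 0)) (xk (xb T0.l2 T0.l2) (xb T0.l2 T0.l2))
  (TrL.c (I.mix (nat_lit 17240550) (nat_lit 96881482)) (xR T2.l4 (xR T2.l4 T2.l4))
  (TrL.c (I.mix (nat_lit 17240550) (nat_lit 71940500)) T0.l6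
  TrL.n)))))))) (by decide +kernel)
theorem bx1_1 : BoxOK sI cl9 cl6 cl9 t0 t2 b1_1 :=
  box_mk (TrL.c (I.pos (nat_lit 0) (nat_lit 0)) (xa (xb (xa T0.l4 T0.l4) T0.l4) (xb T0.l0 (xa T0.l4 T0.l0)))
  (TrL.c (I.pos (nat_lit 0) (nat_lit 0)) (xa T2.l1 T2.l1)
  (TrL.c (I.pos (nat_lit 0) (nat_lit 124588530)) (xR T0.l1 T0.l8)
  (TrL.c (I.pos (nat_lit 0) (nat_lit 96881482)) T2.l2
  (TrL.c (I.pos (nat_lit 0) (nat_lit 0)) (xa (xk (xb T2.l5 T2.l5) (xb T2.l5 T2.l5)) (xk (xb (xa T2.l5 T2.l5) (xa T2.l5 T2.l5)) (xb (xa T2.l5 T2.l5) (xa T2.l5 T2.l5))))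
  (TrL.c (I.pos (nat_lit 0) (nat_lit 0)) (xk T0.l2 T0.l2)
  (TrL.c (I.mix (nat_lit 17240550) (nat_lit 96881482)) (xR T2.l4 T2.l4)
  (TrL.c (I.mix (nat_lit 17240550) (nat_lit 71940500)) T0.l6
  TrL.n)))))))) (by decide +kernel)
theorem bx1_2 : BoxOK sI cl9 cl6 cl9 t0 t2 b1_2 :=
  box_mk (TrL.c (I.pos (nat_lit 0) (nat_lit 0)) (xa (xa (xb (xa T0.l4 T0.l4) (xa T0.l4 T0.l4)) (xb T0.l4 T0.l4)) (xa T0.l4 (xb T0.l4 (xa T0.l4 T0.l4))))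
  (TrL.c (I.pos (nat_lit 0) (nat_lit 0)) (xa T2.l1 T2.l1)
  (TrL.c (I.pos (nat_lit 0) (nat_lit 124588530)) T0.l1
  (TrL.c (I.pos (nat_lit 0) (nat_lit 96881482)) T2.l2
  (TrL.c (I.pos (nat_lit 0) (nat_lit 0)) (xa (xa T2.l1 T2.l5) T2.l5)
  (TrL.c (I.pos (nat_lit 0) (nat_lit 0)) T0.l2
  (TrL.c (I.mix (nat_lit 17240550) (nat_lit 96881482)) T2.l4
  (TrL.c (I.mix (nat_lit 17240550) (nat_lit 71940500)) T0.l3
  TrL.n)))))))) (by decide +kernel)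
theorem bx1_3 : BoxOK sI cl9 cl6 cl9 t0 t2 b1_3 :=
  box_mk (TrL.c (I.pos (nat_lit 0) (nat_lit 0)) (xa (xb (xa (xb T0.l4 T0.l4) T0.l4) T0.l4) T0.l4)
  (TrL.c (I.pos (nat_lit 0) (nat_lit 0)) (xa T2.l5 T2.l1)
  (TrL.c (I.pos (nat_lit 0) (nat_lit 124588530)) T0.l1
  (TrL.c (I.pos (nat_lit 0) (nat_lit 96881482)) T2.l2
  (TrL.c (I.pos (nat_lit 0) (nat_lit 0)) (xa T2.l1 (xb (xk T2.l5 T2.l5) T2.l5))
  (TrL.c (I.pos (nat_lit 0) (nat_lit 0)) T0.l2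
  (TrL.c (I.mix (nat_lit 17240550) (nat_lit 96881482)) T2.l4
  (TrL.c (I.mix (nat_lit 17240550) (nat_lit 71940500)) T0.l3
  TrL.n)))))))) (by decide +kernel)
theorem bx1_4 : BoxOK sI cl9 cl6 cl9 t0 t2 b1_4 :=
  box_mk (TrL.c (I.pos (nat_lit 0) (nat_lit 0)) (xb (xa (xb T0.l11 T0.l11) (xb T0.l11 T0.l11)) (xa (xb (xa T0.l11 T0.l11) (xa T0.l11 T0.l11)) (xb (xa T0.l11 T0.l11) (xa T0.l11 T0.l11))))
  (TrL.c (I.pos (nat_lit 0) (nat_lit 0)) (xk (xb T2.l1 T2.l1) (xb T2.l1 T2.l1))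
  (TrL.c (I.pos (nat_lit 0) (nat_lit 124588530)) (xR T0.l1 T0.l8)
  (TrL.c (I.pos (nat_lit 0) (nat_lit 96881482)) (xR T2.l2 T2.l2)
  (TrL.c (I.pos (nat_lit 0) (nat_lit 0)) (xb (xk T2.l3 T2.l3) (xk T2.l3 (xa T2.l3 T2.l3)))
  (TrL.c (I.pos (nat_lit 0) (nat_lit 0)) (xk T0.l2 T0.l2)
  (TrL.c (I.mix (nat_lit 17240550) (nat_lit 96881482)) (xR T2.l4 T2.l4)
  (TrL.c (I.mix (nat_lit 17240550) (nat_lit 71940500)) T0.l6
  TrL.n)))))))) (by decide +kernel)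
theorem bx1_5 : BoxOK sI cl9 cl6 cl9 t0 t2 b1_5 :=
  box_mk (TrL.c (I.pos (nat_lit 0) (nat_lit 0)) (xb (xa T0.l4 T0.l4) (xa T0.l4 T0.l4))
  (TrL.c (I.pos (nat_lit 0) (nat_lit 0)) T2.l1
  (TrL.c (I.pos (nat_lit 0) (nat_lit 124588530)) (xR T0.l1 T0.l1)
  (TrL.c (I.pos (nat_lit 0) (nat_lit 96881482)) T2.l2
  (TrL.c (I.pos (nat_lit 0) (nat_lit 0)) (xb (xk T2.l5 T2.l5) (xk (xa T2.l5 T2.l5) (xa T2.l5 T2.l5)))
  (TrL.c (I.pos (nat_lit 0) (nat_lit 0)) T0.l2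
  (TrL.c (I.mix (nat_lit 17240550) (nat_lit 96881482)) T2.l4
  (TrL.c (I.mix (nat_lit 17240550) (nat_lit 71940500)) T0.l3
  TrL.n)))))))) (by decide +kernel)
theorem bx1_6 : BoxOK sI cl9 cl6 cl9 t0 t2 b1_6 :=
  box_mk (TrL.c (I.pos (nat_lit 0) (nat_lit 0)) (xa (xb (xa T0.l4 T0.l4) (xa (xa T0.l4 T0.l4) T0.l4)) (xa T0.l4 T0.l4))
  (TrL.c (I.pos (nat_lit 0) (nat_lit 0)) (xa (xk T2.l1 (xa T2.l5 T2.l1)) T2.l1)
  (TrL.c (I.pos (nat_lit 0) (nat_lit 124588530)) T0.l1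
  (TrL.c (I.pos (nat_lit 0) (nat_lit 96881482)) T2.l2
  (TrL.c (I.pos (nat_lit 0) (nat_lit 0)) (xa (xk T2.l1 T2.l1) T2.l5)
  (TrL.c (I.pos (nat_lit 0) (nat_lit 0)) T0.l2
  (TrL.c (I.mix (nat_lit 17240550) (nat_lit 96881482)) T2.l4
  (TrL.c (I.mix (nat_lit 17240550) (nat_lit 71940500)) T0.l3
  TrL.n)))))))) (by decide +kernel)
theorem bx1_7 : BoxOK sI cl9 cl6 cl9 t0 t2 b1_7 :=
  box_mk (TrL.c (I.pos (nat_lit 0) (nat_lit 0)) (xa (xb (xa (xb T0.l4 T0.l4) T0.l4) T0.l4) T0.l4)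
  (TrL.c (I.pos (nat_lit 0) (nat_lit 0)) (xa T2.l5 T2.l1)
  (TrL.c (I.pos (nat_lit 0) (nat_lit 124588530)) T0.l1
  (TrL.c (I.pos (nat_lit 0) (nat_lit 96881482)) T2.l4
  (TrL.c (I.pos (nat_lit 0) (nat_lit 0)) T2.l1
  (TrL.c (I.pos (nat_lit 0) (nat_lit 0)) T0.l2
  (TrL.c (I.mix (nat_lit 17240550) (nat_lit 96881482)) T2.l4
  (TrL.c (I.mix (nat_lit 17240550) (nat_lit 71940500)) T0.l6
  TrL.n)))))))) (by decide +kernel)
theorem bx1_8 : BoxOK sI cl9 cl6 cl9 t0 t2 b1_8 :=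
  box_mk (TrL.c (I.pos (nat_lit 0) (nat_lit 0)) (xa (xb (xa T0.l0 T0.l0) (xa T0.l0 (xb T0.l0 T0.l0))) (xb (xa T0.l0 T0.l0) (xa (xb T0.l0 T0.l0) (xb T0.l0 T0.l0))))
  (TrL.c (I.pos (nat_lit 0) (nat_lit 0)) (xa (xb T2.l1 (xk T2.l1 T2.l1)) (xk (xb T2.l1 (xa T2.l1 T2.l1)) (xb T2.l7 T2.l1)))
  (TrL.c (I.pos (nat_lit 0) (nat_lit 124588530)) (xR T0.l1 T0.l8)
  (TrL.c (I.pos (nat_lit 0) (nat_lit 96881482)) (xR T2.l2 T2.l2)
  (TrL.c (I.pos (nat_lit 0) (nat_lit 0)) (xa (xb (xk T2.l3 T2.l3) (xk T2.l3 (xa T2.l3 T2.l3))) (xb (xk (xa T2.l3 T2.l3) (xa T2.l3 T2.l3)) (xk (xa T2.l3 T2.l3) (xa T2.l3 T2.l3))))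
  (TrL.c (I.pos (nat_lit 0) (nat_lit 0)) (xa (xk T0.l5 (xb T0.l5 T0.l2)) (xk (xb T0.l5 (xa T0.l2 T0.l2)) (xb T0.l5 (xa T0.l2 T0.l2))))
  (TrL.c (I.mix (nat_lit 17240550) (nat_lit 96881482)) (xR T2.l4 (xR T2.l4 (xR T2.l4 (xk T2.l4 T2.l4))))
  (TrL.c (I.mix (nat_lit 17240550) (nat_lit 71940500)) T0.l6
  TrL.n)))))))) (by decide +kernel)
theorem bx1_9 : BoxOK sI cl9 cl6 cl9 t0 t2 b1_9 :=
  box_mk (TrL.c (I.pos (nat_lit 0) (nat_lit 0)) (xa (xb T0.l11 T0.l0) T0.l0)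
  (TrL.c (I.pos (nat_lit 0) (nat_lit 0)) T2.l1
  (TrL.c (I.pos (nat_lit 0) (nat_lit 124588530)) (xR T0.l1 T0.l1)
  (TrL.c (I.pos (nat_lit 0) (nat_lit 96881482)) T2.l2
  (TrL.c (I.pos (nat_lit 0) (nat_lit 0)) (xk (xb (xa (xk T2.l5 T2.l5) T2.l3) (xa (xb T2.l11 T2.l11) T2.l3)) (xb (xa T2.l5 (xa T2.l3 T2.l3)) (xa (xb T2.l11 T2.l11) T2.l3)))
  (TrL.c (I.pos (nat_lit 0) (nat_lit 0)) T0.l2
  (TrL.c (I.mix (nat_lit 17240550) (nat_lit 96881482)) T2.l4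
  (TrL.c (I.mix (nat_lit 17240550) (nat_lit 71940500)) T0.l6
  TrL.n)))))))) (by decide +kernel)
theorem bx1_10 : BoxOK sI cl9 cl6 cl9 t0 t2 b1_10 :=
  box_mk (TrL.c (I.pos (nat_lit 0) (nat_lit 0)) (xa (xb (xa T0.l0 T0.l0) (xa (xs T0.l0 T0.l0) (xs T0.l0 T0.l0))) (xb (xa T0.l0 T0.l0) (xa (xs T0.l0 T0.l0) (xs T0.l0 T0.l0))))
  (TrL.c (I.pos (nat_lit 0) (nat_lit 0)) (xk (xa T2.l1 T2.l1) (xa T2.l1 T2.l1))
  (TrL.c (I.pos (nat_lit 0) (nat_lit 124588530)) (xR T0.l1 T0.l8)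
  (TrL.c (I.pos (nat_lit 0) (nat_lit 96881482)) (xR T2.l2 T2.l2)
  (TrL.c (I.pos (nat_lit 0) (nat_lit 0)) (xk (xb T2.l3 (xa T2.l3 (xs (xb T2.l3 T2.l3) (xb T2.l3 (xk T2.l0 T2.l0))))) (xa (xb T2.l3 T2.l0) (xb T2.l3 (xs (xb T2.l3 (xk T2.l0 T2.l0)) (xb T2.l3 (xk (xa T2.l0 T2.l0) (xa T2.l0 T2.l0)))))))
  (TrL.c (I.pos (nat_lit 0) (nat_lit 0)) (xk T0.l2 T0.l2)
  (TrL.c (I.mix (nat_lit 17240550) (nat_lit 96881482)) (xR T2.l4 T2.l4)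
  (TrL.c (I.mix (nat_lit 17240550) (nat_lit 71940500)) T0.l6
  TrL.n)))))))) (by decide +kernel)
theorem bx1_11 : BoxOK sI cl9 cl6 cl9 t0 t2 b1_11 :=
  box_mk (TrL.c (I.pos (nat_lit 0) (nat_lit 0)) (xb (xa T0.l11 T0.l11) (xa (xb T0.l11 T0.l11) T0.l11))
  (TrL.c (I.pos (nat_lit 0) (nat_lit 0)) (xk T2.l1 T2.l1)
  (TrL.c (I.pos (nat_lit 0) (nat_lit 124588530)) (xR T0.l1 T0.l8)
  (TrL.c (I.pos (nat_lit 0) (nat_lit 96881482)) (xR T2.l2 T2.l2)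
  (TrL.c (I.pos (nat_lit 0) (nat_lit 0)) (xk T2.l3 T2.l3)
  (TrL.c (I.pos (nat_lit 0) (nat_lit 0)) T0.l2
  (TrL.c (I.mix (nat_lit 17240550) (nat_lit 96881482)) (xR T2.l4 T2.l4)
  (TrL.c (I.mix (nat_lit 17240550) (nat_lit 71940500)) T0.l6
  TrL.n)))))))) (by decide +kernel)
theorem sv1 : StarV sI cl9 cl6 cl9 t0 t2 t1 :=
  (bt_n (bt_n (bt_n (bt_b bx1_0) (bt_n (bt_b bx1_1) (bt_b bx1_2))) (bt_n (bt_b bx1_3) (bt_n (bt_b bx1_4) (bt_b bx1_5)))) (bt_n (bt_n (bt_b bx1_6) (bt_n (bt_b bx1_7) (bt_b bx1_8))) (bt_n (bt_b bx1_9) (bt_n (bt_b bx1_10) (bt_b bx1_11)))))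
def S1 : StarD := StarD.mk cl9 cl6 cl9 0 2 t1
theorem bx2_0 : BoxOK sI cl9 cl9 cl6 t2 t0 b2_0 :=
  box_mk (TrL.c (I.pos (nat_lit 0) (nat_lit 0)) (xa (xb (xa (xb T2.l0 T2.l0) T2.l0) (xa (xb T2.l0 T2.l0) (xb T2.l0 T2.l0))) (xb (xa (xb T2.l0 T2.l0) (xb T2.l0 T2.l0)) (xa (xb T2.l0 T2.l0) (xb T2.l0 T2.l0))))
  (TrL.c (I.pos (nat_lit 0) (nat_lit 0)) (xa (xk (xb T0.l5 (xa T0.l5 T0.l5)) (xb T0.l5 (xa T0.l5 T0.l5))) (xk (xb T0.l5 (xa T0.l5 T0.l5)) (xb T0.l5 T0.l5)))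
  (TrL.c (I.pos (nat_lit 0) (nat_lit 124588530)) (xR T2.l6 (xR T2.l6 T2.l6))
  (TrL.c (I.pos (nat_lit 0) (nat_lit 96881482)) (xR T0.l6 T0.l6)
  (TrL.c (I.pos (nat_lit 0) (nat_lit 0)) (xa (xk (xb (xa T0.l10 T0.l7) T0.l7) (xb (xa T0.l10 T0.l7) (xa T0.l10 T0.l7))) (xk (xb (xa T0.l7 T0.l7) (xa (xb T0.l7 T0.l7) (xb T0.l7 (xs T0.l7 (xk T0.l7 T0.l7))))) (xb (xa T0.l7 T0.l7) (xa (xb T0.l7 (xs T0.l7 T0.l7)) (xb T0.l7 (xs (xk T0.l7 T0.l7) (xk (xb T0.l7 T0.l7) (xb T0.l7 (xa T0.l7 T0.l7)))))))))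
  (TrL.c (I.pos (nat_lit 0) (nat_lit 0)) (xk (xa T2.l7 T2.l7) (xa T2.l7 T2.l7))
  (TrL.c (I.mix (nat_lit 17240550) (nat_lit 96881482)) (xR T0.l8 (xR T0.l8 T0.l8))
  (TrL.c (I.mix (nat_lit 17240550) (nat_lit 71940500)) (xR T2.l10 T2.l10)
  TrL.n)))))))) (by decide +kernel)
theorem bx2_1 : BoxOK sI cl9 cl9 cl6 t2 t0 b2_1 :=
  box_mk (TrL.c (I.pos (nat_lit 0) (nat_lit 0)) (xa (xb (xa (xb T2.l8 T2.l8) T2.l0) (xa T2.l8 (xb T2.l8 T2.l8))) (xb T2.l0 T2.l0))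
  (TrL.c (I.pos (nat_lit 0) (nat_lit 0)) (xa (xk T0.l5 T0.l5) (xk T0.l5 T0.l5))
  (TrL.c (I.pos (nat_lit 0) (nat_lit 124588530)) T2.l6
  (TrL.c (I.pos (nat_lit 0) (nat_lit 96881482)) T0.l6
  (TrL.c (I.pos (nat_lit 0) (nat_lit 0)) (xa (xk (xb T0.l9 T0.l9) (xb T0.l9 T0.l9)) (xk (xb (xa T0.l9 T0.l9) (xa T0.l9 T0.l9)) (xb (xa T0.l9 T0.l9) T0.l9)))
  (TrL.c (I.pos (nat_lit 0) (nat_lit 0)) T2.l7
  (TrL.c (I.mix (nat_lit 17240550) (nat_lit 96881482)) T0.l8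
  (TrL.c (I.mix (nat_lit 17240550) (nat_lit 71940500)) T2.l10
  TrL.n)))))))) (by decide +kernel)
theorem bx2_2 : BoxOK sI cl9 cl9 cl6 t2 t0 b2_2 :=
  box_mk (TrL.c (I.pos (nat_lit 0) (nat_lit 0)) (xa (xa (xb (xa T2.l8 T2.l8) T2.l8) T2.l8) (xa T2.l8 T2.l8))
  (TrL.c (I.pos (nat_lit 0) (nat_lit 0)) (xa (xa T0.l9 T0.l5) (xa T0.l5 T0.l5))
  (TrL.c (I.pos (nat_lit 0) (nat_lit 124588530)) T2.l6
  (TrL.c (I.pos (nat_lit 0) (nat_lit 96881482)) T0.l6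
  (TrL.c (I.pos (nat_lit 0) (nat_lit 0)) (xa (xa (xk T0.l9 T0.l9) T0.l9) T0.l9)
  (TrL.c (I.pos (nat_lit 0) (nat_lit 0)) T2.l7
  (TrL.c (I.mix (nat_lit 17240550) (nat_lit 96881482)) T0.l8
  (TrL.c (I.mix (nat_lit 17240550) (nat_lit 71940500)) T2.l10
  TrL.n)))))))) (by decide +kernel)
theorem bx2_3 : BoxOK sI cl9 cl9 cl6 t2 t0 b2_3 :=
  box_mk (TrL.c (I.pos (nat_lit 0) (nat_lit 0)) (xb (xa (xb T2.l9 T2.l9) (xb T2.l9 T2.l9)) (xa (xb (xa T2.l9 T2.l9) (xa T2.l9 T2.l9)) (xb (xa T2.l9 T2.l9) (xa T2.l9 T2.l9))))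
  (TrL.c (I.pos (nat_lit 0) (nat_lit 0)) (xb (xk (xa T0.l5 T0.l5) T0.l5) (xk (xa T0.l5 T0.l5) (xa T0.l5 T0.l5)))
  (TrL.c (I.pos (nat_lit 0) (nat_lit 124588530)) (xR T2.l6 (xR T2.l6 T2.l6))
  (TrL.c (I.pos (nat_lit 0) (nat_lit 96881482)) (xR T0.l6 T0.l6)
  (TrL.c (I.pos (nat_lit 0) (nat_lit 0)) (xb (xk (xa T0.l10 (xb T0.l10 T0.l10)) (xa T0.l10 (xb T0.l10 T0.l10))) (xk (xa T0.l10 (xb T0.l10 (xs T0.l10 T0.l7))) (xa (xb T0.l7 T0.l10) (xb T0.l10 (xs T0.l10 T0.l7)))))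
  (TrL.c (I.pos (nat_lit 0) (nat_lit 0)) (xk T2.l7 T2.l7)
  (TrL.c (I.mix (nat_lit 17240550) (nat_lit 96881482)) (xR T0.l8 T0.l8)
  (TrL.c (I.mix (nat_lit 17240550) (nat_lit 71940500)) (xR T2.l10 T2.l10)
  TrL.n)))))))) (by decide +kernel)
theorem bx2_4 : BoxOK sI cl9 cl9 cl6 t2 t0 b2_4 :=
  box_mk (TrL.c (I.pos (nat_lit 0) (nat_lit 0)) (xa (xa (xb T2.l8 (xa T2.l8 T2.l8)) (xb T2.l8 T2.l8)) (xa (xb T2.l8 T2.l8) (xb (xa T2.l8 T2.l8) (xa T2.l8 T2.l8))))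
  (TrL.c (I.pos (nat_lit 0) (nat_lit 0)) (xa (xa (xb T0.l9 (xk T0.l9 T0.l5)) T0.l5) (xa T0.l5 T0.l5))
  (TrL.c (I.pos (nat_lit 0) (nat_lit 124588530)) T2.l6
  (TrL.c (I.pos (nat_lit 0) (nat_lit 96881482)) T0.l6
  (TrL.c (I.pos (nat_lit 0) (nat_lit 0)) (xa (xa (xb T0.l9 T0.l5) T0.l9) (xa T0.l9 (xb T0.l9 T0.l9)))
  (TrL.c (I.pos (nat_lit 0) (nat_lit 0)) (xa T2.l7 T2.l7)
  (TrL.c (I.mix (nat_lit 17240550) (nat_lit 96881482)) T0.l8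
  (TrL.c (I.mix (nat_lit 17240550) (nat_lit 71940500)) T2.l2
  TrL.n)))))))) (by decide +kernel)
theorem bx2_5 : BoxOK sI cl9 cl9 cl6 t2 t0 b2_5 :=
  box_mk (TrL.c (I.pos (nat_lit 0) (nat_lit 0)) (xa T2.l0 T2.l0)
  (TrL.c (I.pos (nat_lit 0) (nat_lit 0)) (xk T0.l5 T0.l5)
  (TrL.c (I.pos (nat_lit 0) (nat_lit 124588530)) (xR T2.l6 T2.l6)
  (TrL.c (I.pos (nat_lit 0) (nat_lit 96881482)) T0.l6
  (TrL.c (I.pos (nat_lit 0) (nat_lit 0)) (xk (xa (xb T0.l9 T0.l10) T0.l7) (xa (xb T0.l9 T0.l10) T0.l7))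
  (TrL.c (I.pos (nat_lit 0) (nat_lit 0)) T2.l7
  (TrL.c (I.mix (nat_lit 17240550) (nat_lit 96881482)) (xR T0.l8 T0.l8)
  (TrL.c (I.mix (nat_lit 17240550) (nat_lit 71940500)) T2.l2
  TrL.n)))))))) (by decide +kernel)
theorem bx2_6 : BoxOK sI cl9 cl9 cl6 t2 t0 b2_6 :=
  box_mk (TrL.c (I.pos (nat_lit 0) (nat_lit 0)) (xa (xa (xa (xb T2.l8 T2.l8) T2.l8) (xa T2.l8 T2.l8)) (xa (xa T2.l8 (xb T2.l8 T2.l8)) (xa (xb T2.l8 T2.l8) (xb T2.l8 T2.l8))))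
  (TrL.c (I.pos (nat_lit 0) (nat_lit 0)) (xa (xa (xk T0.l9 T0.l5) T0.l5) (xa T0.l5 T0.l5))
  (TrL.c (I.pos (nat_lit 0) (nat_lit 124588530)) T2.l6
  (TrL.c (I.pos (nat_lit 0) (nat_lit 96881482)) T0.l6
  (TrL.c (I.pos (nat_lit 0) (nat_lit 0)) (xa (xa T0.l5 T0.l9) (xa T0.l9 T0.l9))
  (TrL.c (I.pos (nat_lit 0) (nat_lit 0)) (xa T2.l7 T2.l7)
  (TrL.c (I.mix (nat_lit 17240550) (nat_lit 96881482)) T0.l8
  (TrL.c (I.mix (nat_lit 17240550) (nat_lit 71940500)) T2.l2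
  TrL.n)))))))) (by decide +kernel)
theorem bx2_7 : BoxOK sI cl9 cl9 cl6 t2 t0 b2_7 :=
  box_mk (TrL.c (I.pos (nat_lit 0) (nat_lit 0)) (xb (xa (xb (xa T2.l8 T2.l8) T2.l8) (xb T2.l0 (xa T2.l8 T2.l8))) (xa (xb T2.l8 T2.l8) (xb T2.l8 T2.l8)))
  (TrL.c (I.pos (nat_lit 0) (nat_lit 0)) (xb (xk T0.l5 T0.l5) T0.l5)
  (TrL.c (I.pos (nat_lit 0) (nat_lit 124588530)) T2.l6
  (TrL.c (I.pos (nat_lit 0) (nat_lit 96881482)) T0.l6
  (TrL.c (I.pos (nat_lit 0) (nat_lit 0)) (xb (xk (xa T0.l9 (xb T0.l9 T0.l9)) (xa T0.l9 (xb T0.l9 T0.l9))) (xk (xa T0.l9 (xb T0.l9 T0.l9)) (xa T0.l9 (xb T0.l9 T0.l9))))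
  (TrL.c (I.pos (nat_lit 0) (nat_lit 0)) T2.l7
  (TrL.c (I.mix (nat_lit 17240550) (nat_lit 96881482)) T0.l8
  (TrL.c (I.mix (nat_lit 17240550) (nat_lit 71940500)) T2.l10
  TrL.n)))))))) (by decide +kernel)
theorem bx2_8 : BoxOK sI cl9 cl9 cl6 t2 t0 b2_8 :=
  box_mk (TrL.c (I.pos (nat_lit 0) (nat_lit 0)) (xa (xb T2.l0 (xa T2.l0 T2.l0)) (xa (xb T2.l0 T2.l0) (xb T2.l0 (xb T2.l0 T2.l0))))
  (TrL.c (I.pos (nat_lit 0) (nat_lit 0)) (xa (xk (xb T0.l5 T0.l5) T0.l5) (xk (xb T0.l5 (xa T0.l5 T0.l5)) (xb T0.l5 T0.l5)))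
  (TrL.c (I.pos (nat_lit 0) (nat_lit 124588530)) (xR T2.l6 T2.l4)
  (TrL.c (I.pos (nat_lit 0) (nat_lit 96881482)) (xR T0.l6 T0.l6)
  (TrL.c (I.pos (nat_lit 0) (nat_lit 0)) (xa (xk (xb T0.l7 T0.l7) (xb T0.l7 T0.l7)) (xb (xk (xa T0.l7 T0.l7) (xa T0.l7 T0.l7)) (xk (xa T0.l7 T0.l7) (xa T0.l7 T0.l7))))
  (TrL.c (I.pos (nat_lit 0) (nat_lit 0)) (xk (xa T2.l7 (xb T2.l7 T2.l7)) (xa T2.l7 (xb T2.l7 T2.l7)))
  (TrL.c (I.mix (nat_lit 17240550) (nat_lit 96881482)) (xR T0.l8 (xR T0.l8 (xR T0.l8 T0.l8)))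
  (TrL.c (I.mix (nat_lit 17240550) (nat_lit 71940500)) (xR T2.l10 T2.l10)
  TrL.n)))))))) (by decide +kernel)
theorem bx2_9 : BoxOK sI cl9 cl9 cl6 t2 t0 b2_9 :=
  box_mk (TrL.c (I.pos (nat_lit 0) (nat_lit 0)) (xa (xb (xb T2.l0 T2.l0) (xa (xs T2.l0 T2.l0) (xs T2.l0 T2.l0))) (xb (xa T2.l0 T2.l0) (xa (xs T2.l0 T2.l0) (xs T2.l0 T2.l0))))
  (TrL.c (I.pos (nat_lit 0) (nat_lit 0)) (xk (xa T0.l5 T0.l5) (xa T0.l5 T0.l5))
  (TrL.c (I.pos (nat_lit 0) (nat_lit 124588530)) (xR T2.l6 (xR T2.l6 T2.l6))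
  (TrL.c (I.pos (nat_lit 0) (nat_lit 96881482)) (xR T0.l6 T0.l6)
  (TrL.c (I.pos (nat_lit 0) (nat_lit 0)) (xk (xa T0.l7 (xb (xk T0.l7 T0.l7) T0.l7)) (xa T0.l7 (xb (xk T0.l7 T0.l7) T0.l7)))
  (TrL.c (I.pos (nat_lit 0) (nat_lit 0)) (xk T2.l7 T2.l7)
  (TrL.c (I.mix (nat_lit 17240550) (nat_lit 96881482)) (xR T0.l8 T0.l8)
  (TrL.c (I.mix (nat_lit 17240550) (nat_lit 71940500)) (xR T2.l10 T2.l10)
  TrL.n)))))))) (by decide +kernel)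
theorem bx2_10 : BoxOK sI cl9 cl9 cl6 t2 t0 b2_10 :=
  box_mk (TrL.c (I.pos (nat_lit 0) (nat_lit 0)) (xa (xa (xb T2.l8 T2.l8) T2.l8) T2.l8)
  (TrL.c (I.pos (nat_lit 0) (nat_lit 0)) (xa (xa T0.l9 T0.l5) T0.l5)
  (TrL.c (I.pos (nat_lit 0) (nat_lit 124588530)) T2.l6
  (TrL.c (I.pos (nat_lit 0) (nat_lit 96881482)) T0.l6
  (TrL.c (I.pos (nat_lit 0) (nat_lit 0)) (xa (xa (xk T0.l9 T0.l9) T0.l9) T0.l9)
  (TrL.c (I.pos (nat_lit 0) (nat_lit 0)) T2.l7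
  (TrL.c (I.mix (nat_lit 17240550) (nat_lit 96881482)) T0.l8
  (TrL.c (I.mix (nat_lit 17240550) (nat_lit 71940500)) T2.l10
  TrL.n)))))))) (by decide +kernel)
theorem bx2_11 : BoxOK sI cl9 cl9 cl6 t2 t0 b2_11 :=
  box_mk (TrL.c (I.pos (nat_lit 0) (nat_lit 0)) T2.l0
  (TrL.c (I.pos (nat_lit 0) (nat_lit 0)) T0.l5
  (TrL.c (I.pos (nat_lit 0) (nat_lit 124588530)) (xR T2.l6 T2.l6)
  (TrL.c (I.pos (nat_lit 0) (nat_lit 96881482)) T0.l6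
  (TrL.c (I.pos (nat_lit 0) (nat_lit 0)) (xk T0.l10 T0.l10)
  (TrL.c (I.pos (nat_lit 0) (nat_lit 0)) T2.l7
  (TrL.c (I.mix (nat_lit 17240550) (nat_lit 96881482)) (xR T0.l8 T0.l8)
  (TrL.c (I.mix (nat_lit 17240550) (nat_lit 71940500)) T2.l10
  TrL.n)))))))) (by decide +kernel)
theorem sv2 : StarV sI cl9 cl9 cl6 t2 t0 t2 :=
  (bt_n (bt_n (bt_n (bt_b bx2_0) (bt_n (bt_b bx2_1) (bt_b bx2_2))) (bt_n (bt_b bx2_3) (bt_n (bt_b bx2_4) (bt_b bx2_5)))) (bt_n (bt_n (bt_b bx2_6) (bt_n (bt_b bx2_7) (bt_b bx2_8))) (bt_n (bt_b bx2_9) (bt_n (bt_b bx2_10) (bt_b bx2_11)))))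
def S2 : StarD := StarD.mk cl9 cl9 cl6 2 0 t2
def G : List StarD := [S0, S1, S2]
theorem so0 : StarOK sI G S0 :=
  star_mk (by decide) (by decide) rfl rfl rfl rfl rfl rfl (rfl : _ = t1) (rfl : _ = t1)
  (st_mk (Pth.l (Pth.l (Pth.l Pth.z))) (nat_lit 116733935) (nat_lit 135455099) (by decide +kernel))
  (st_mk (Pth.l (Pth.l (Pth.l Pth.z))) (nat_lit 152794069) (nat_lit 171839078) (by decide +kernel))
  (st_mk (Pth.l (Pth.l (Pth.l Pth.z))) (nat_lit 194805241) (nat_lit 214287169) (by decide +kernel)) sv0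
theorem so1 : StarOK sI G S1 :=
  star_mk (by decide) (by decide) rfl rfl rfl rfl rfl rfl (rfl : _ = t0) (rfl : _ = t2)
  (st_mk (Pth.l (Pth.l (Pth.l Pth.z))) (nat_lit 186738780) (nat_lit 188263851) (by decide +kernel))
  (st_mk (Pth.l (Pth.l (Pth.l Pth.z))) (nat_lit 222005097) (nat_lit 223941675) (by decide +kernel))
  (st_mk (Pth.l (Pth.l (Pth.l Pth.z))) (nat_lit 262777252) (nat_lit 265281536) (by decide +kernel)) sv1
theorem so2 : StarOK sI G S2 :=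
  star_mk (by decide) (by decide) rfl rfl rfl rfl rfl rfl (rfl : _ = t2) (rfl : _ = t0)
  (st_mk (Pth.l (Pth.l (Pth.l Pth.z))) (nat_lit 115522700) (nat_lit 134149502) (by decide +kernel))
  (st_mk (Pth.l (Pth.l (Pth.l Pth.z))) (nat_lit 150720873) (nat_lit 169722829) (by decide +kernel))
  (st_mk (Pth.l (Pth.l (Pth.l Pth.z))) (nat_lit 191433859) (nat_lit 210972281) (by decide +kernel)) sv2
theorem ok : GroupOK (nat_lit 209321984) (nat_lit 268435456) G := grp_mk (allS_c so0 (allS_c so1 (allS_c so2 allS_n)))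
theorem cov : GCov G cl6 cl9 cl9 := cov_mk
  ⟨0, by decide, rfl, rfl, rfl⟩ ⟨0, by decide, rfl, rfl, rfl⟩ ⟨1, by decide, rfl, rfl, rfl⟩ ⟨2, by decide, rfl, rfl, rfl⟩ ⟨1, by decide, rfl, rfl, rfl⟩ ⟨2, by decide, rfl, rfl, rfl⟩
end Q355_3

namespace Q356_0
def sI : I := I.pos (nat_lit 0) (nat_lit 91291648)
def b0_0 : Bx := Bx.mk (St.mk (I.pos (nat_lit 156991488) (nat_lit 282230784)) (I.mix (nat_lit 27197440) (nat_lit 57163776)) (I.mix (nat_lit 88031232) (nat_lit 87228416)) (I.pos (nat_lit 109510656) (nat_lit 337821696)) (I.mix (nat_lit 83787776) (nat_lit 50839552)) (I.mix (nat_lit 71303168) (nat_lit 42876928)) (I.mix (nat_lit 111771648) (nat_lit 64847872)))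
  false (nat_lit 0)
def b0_1 : Bx := Bx.mk (St.mk (I.mix (nat_lit 14876672) (nat_lit 133562368)) (I.mix (nat_lit 8601600) (nat_lit 27394048)) (I.mix (nat_lit 18038784) (nat_lit 16695296)) (I.pos (nat_lit 15171584) (nat_lit 100925440)) (I.mix (nat_lit 22118400) (nat_lit 20381696)) (I.mix (nat_lit 23412736) (nat_lit 14139392)) (I.mix (nat_lit 18612224) (nat_lit 10371072)))
  false (nat_lit 0)
def b0_2 : Bx := Bx.mk (St.mk (I.pos (nat_lit 108118016) (nat_lit 153174016)) (I.mix (nat_lit 52002816) (nat_lit 7569408)) (I.mix (nat_lit 60456960) (nat_lit 212992)) (I.pos (nat_lit 63471616) (nat_lit 123191296)) (I.mix (nat_lit 72024064) (nat_lit 20054016)) (I.mix (nat_lit 32833536) (nat_lit 74203136)) (I.mix (nat_lit 25280512) (nat_lit 65568768)))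
  false (nat_lit 0)
def b0_3 : Bx := Bx.mk (St.mk (I.mix (nat_lit 22708224) (nat_lit 90767360)) (I.mix (nat_lit 25100288) (nat_lit 3833856)) (I.mix (nat_lit 20398080) (nat_lit 344064)) (I.pos (nat_lit 16531456) (nat_lit 66125824)) (I.mix (nat_lit 26050560) (nat_lit 9977856)) (I.mix (nat_lit 12926976) (nat_lit 24051712)) (I.mix (nat_lit 7061504) (nat_lit 13123584)))
  false (nat_lit 0)
def b0_4 : Bx := Bx.mk (St.mk (I.pos (nat_lit 111804416) (nat_lit 177766400)) (I.mix (nat_lit 61259776) (nat_lit 2146304)) (I.neg (nat_lit 7585792) (nat_lit 66846720)) (I.pos (nat_lit 80740352) (nat_lit 154533888)) (I.mix (nat_lit 74399744) (nat_lit 35012608)) (I.mix (nat_lit 34701312) (nat_lit 62930944)) (I.mix (nat_lit 27852800) (nat_lit 65290240)))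
  false (nat_lit 0)
def b0_5 : Bx := Bx.mk (St.mk (I.mix (nat_lit 22216704) (nat_lit 101941248)) (I.mix (nat_lit 27885568) (nat_lit 3555328)) (I.mix (nat_lit 22446080) (nat_lit 638976)) (I.pos (nat_lit 14516224) (nat_lit 74416128)) (I.mix (nat_lit 25280512) (nat_lit 16941056)) (I.mix (nat_lit 13402112) (nat_lit 25411584)) (I.mix (nat_lit 7831552) (nat_lit 16154624)))
  false (nat_lit 0)
def b0_6 : Bx := Bx.mk (St.mk (I.mix (nat_lit 22593536) (nat_lit 126304256)) (I.mix (nat_lit 12861440) (nat_lit 32129024)) (I.mix (nat_lit 13877248) (nat_lit 20430848)) (I.pos (nat_lit 15695872) (nat_lit 92897280)) (I.mix (nat_lit 34504704) (nat_lit 19808256)) (I.mix (nat_lit 39157760) (nat_lit 22626304)) (I.mix (nat_lit 25247744) (nat_lit 13746176)))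
  false (nat_lit 0)
def b0_7 : Bx := Bx.mk (St.mk (I.pos (nat_lit 158367744) (nat_lit 223608832)) (I.mix (nat_lit 40812544) (nat_lit 61685760)) (I.mix (nat_lit 49840128) (nat_lit 87851008)) (I.pos (nat_lit 114475008) (nat_lit 219873280)) (I.mix (nat_lit 108347392) (nat_lit 49233920)) (I.mix (nat_lit 126844928) (nat_lit 64077824)) (I.mix (nat_lit 148176896) (nat_lit 71041024)))
  false (nat_lit 0)
def t0 : BTr := (BTr.n (BTr.n (BTr.n (BTr.b b0_0) (BTr.b b0_1)) (BTr.n (BTr.b b0_2) (BTr.b b0_3))) (BTr.n (BTr.n (BTr.b b0_4) (BTr.b b0_5)) (BTr.n (BTr.b b0_6) (BTr.b b0_7))))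
namespace T0
def l0 : Tr := Tr.L (Pth.l (Pth.l (Pth.l Pth.z)))
def l1 : Tr := Tr.L (Pth.l (Pth.l (Pth.r Pth.z)))
def l2 : Tr := Tr.L (Pth.l (Pth.r (Pth.l Pth.z)))
def l3 : Tr := Tr.L (Pth.l (Pth.r (Pth.r Pth.z)))
def l4 : Tr := Tr.L (Pth.r (Pth.l (Pth.l Pth.z)))
def l5 : Tr := Tr.L (Pth.r (Pth.l (Pth.r Pth.z)))
def l6 : Tr := Tr.L (Pth.r (Pth.r (Pth.l Pth.z)))
def l7 : Tr := Tr.L (Pth.r (Pth.r (Pth.r Pth.z)))
end T0
def b1_0 : Bx := Bx.mk (St.mk (I.pos (nat_lit 156991488) (nat_lit 281870336)) (I.mix (nat_lit 25591808) (nat_lit 52232192)) (I.mix (nat_lit 72302592) (nat_lit 87670784)) (I.pos (nat_lit 90046464) (nat_lit 317358080)) (I.mix (nat_lit 80429056) (nat_lit 49889280)) (I.mix (nat_lit 71860224) (nat_lit 44122112)) (I.mix (nat_lit 114360320) (nat_lit 63422464)))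
  false (nat_lit 0)
def b1_1 : Bx := Bx.mk (St.mk (I.mix (nat_lit 9437184) (nat_lit 142950400)) (I.mix (nat_lit 7733248) (nat_lit 23920640)) (I.mix (nat_lit 13795328) (nat_lit 19169280)) (I.mix (nat_lit 3211264) (nat_lit 91029504)) (I.mix (nat_lit 20611072) (nat_lit 17924096)) (I.mix (nat_lit 22282240) (nat_lit 12238848)) (I.mix (nat_lit 19480576) (nat_lit 10141696)))
  false (nat_lit 0)
def b1_2 : Bx := Bx.mk (St.mk (I.pos (nat_lit 118095872) (nat_lit 161071104)) (I.mix (nat_lit 49184768) (nat_lit 6979584)) (I.mix (nat_lit 56786944) (nat_lit 2899968)) (I.pos (nat_lit 53379072) (nat_lit 113098752)) (I.mix (nat_lit 70696960) (nat_lit 19808256)) (I.mix (nat_lit 31211520) (nat_lit 75710464)) (I.mix (nat_lit 26509312) (nat_lit 71516160)))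
  false (nat_lit 0)
def b1_3 : Bx := Bx.mk (St.mk (I.mix (nat_lit 12763136) (nat_lit 106676224)) (I.mix (nat_lit 22659072) (nat_lit 2228224)) (I.mix (nat_lit 19087360) (nat_lit 1114112)) (I.mix (nat_lit 2244608) (nat_lit 57884672)) (I.mix (nat_lit 25427968) (nat_lit 9502720)) (I.mix (nat_lit 12173312) (nat_lit 24559616)) (I.mix (nat_lit 7307264) (nat_lit 15712256)))
  false (nat_lit 0)
def b1_4 : Bx := Bx.mk (St.mk (I.pos (nat_lit 121421824) (nat_lit 184139776)) (I.mix (nat_lit 57671680) (nat_lit 1687552)) (I.neg (nat_lit 3883008) (nat_lit 61734912)) (I.pos (nat_lit 71663616) (nat_lit 143441920)) (I.mix (nat_lit 69435392) (nat_lit 33177600)) (I.mix (nat_lit 32866304) (nat_lit 59490304)) (I.mix (nat_lit 29261824) (nat_lit 63750144)))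
  false (nat_lit 0)
def b1_5 : Bx := Bx.mk (St.mk (I.pos (nat_lit 38584320) (nat_lit 114671616)) (I.mix (nat_lit 25264128) (nat_lit 3407872)) (I.mix (nat_lit 20578304) (nat_lit 802816)) (I.pos (nat_lit 7487488) (nat_lit 65732608)) (I.mix (nat_lit 23396352) (nat_lit 15974400)) (I.mix (nat_lit 12304384) (nat_lit 23150592)) (I.mix (nat_lit 7880704) (nat_lit 16744448)))
  false (nat_lit 0)
def b1_6 : Bx := Bx.mk (St.mk (I.pos (nat_lit 159793152) (nat_lit 223870976)) (I.mix (nat_lit 40796160) (nat_lit 56180736)) (I.mix (nat_lit 46465024) (nat_lit 86933504)) (I.pos (nat_lit 102498304) (nat_lit 201277440)) (I.mix (nat_lit 107167744) (nat_lit 53313536)) (I.mix (nat_lit 128532480) (nat_lit 62930944)) (I.mix (nat_lit 158695424) (nat_lit 69468160)))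
  false (nat_lit 0)
def b1_7 : Bx := Bx.mk (St.mk (I.mix (nat_lit 13254656) (nat_lit 136462336)) (I.mix (nat_lit 12681216) (nat_lit 30130176)) (I.mix (nat_lit 12337152) (nat_lit 22970368)) (I.mix (nat_lit 2965504) (nat_lit 82968576)) (I.mix (nat_lit 36290560) (nat_lit 18317312)) (I.mix (nat_lit 39043072) (nat_lit 21774336)) (I.mix (nat_lit 28901376) (nat_lit 15089664)))
  false (nat_lit 0)
def t1 : BTr := (BTr.n (BTr.n (BTr.n (BTr.b b1_0) (BTr.b b1_1)) (BTr.n (BTr.b b1_2) (BTr.b b1_3))) (BTr.n (BTr.n (BTr.b b1_4) (BTr.b b1_5)) (BTr.n (BTr.b b1_6) (BTr.b b1_7))))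
namespace T1
def l0 : Tr := Tr.L (Pth.l (Pth.l (Pth.l Pth.z)))
def l1 : Tr := Tr.L (Pth.l (Pth.l (Pth.r Pth.z)))
def l2 : Tr := Tr.L (Pth.l (Pth.r (Pth.l Pth.z)))
def l3 : Tr := Tr.L (Pth.l (Pth.r (Pth.r Pth.z)))
def l4 : Tr := Tr.L (Pth.r (Pth.l (Pth.l Pth.z)))
def l5 : Tr := Tr.L (Pth.r (Pth.l (Pth.r Pth.z)))
def l6 : Tr := Tr.L (Pth.r (Pth.r (Pth.l Pth.z)))
def l7 : Tr := Tr.L (Pth.r (Pth.r (Pth.r Pth.z)))
end T1
def b2_0 : Bx := Bx.mk (St.mk (I.pos (nat_lit 157040640) (nat_lit 280576000)) (I.mix (nat_lit 20086784) (nat_lit 62160896)) (I.mix (nat_lit 75235328) (nat_lit 93880320)) (I.pos (nat_lit 180092928) (nat_lit 381419520)) (I.mix (nat_lit 84066304) (nat_lit 59473920)) (I.mix (nat_lit 86753280) (nat_lit 47923200)) (I.mix (nat_lit 127631360) (nat_lit 71221248)))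
  false (nat_lit 41316137)
def b2_1 : Bx := Bx.mk (St.mk (I.mix (nat_lit 27869184) (nat_lit 96813056)) (I.mix (nat_lit 6897664) (nat_lit 37158912)) (I.mix (nat_lit 17072128) (nat_lit 14336000)) (I.pos (nat_lit 82591744) (nat_lit 123420672)) (I.mix (nat_lit 25018368) (nat_lit 28409856)) (I.mix (nat_lit 32243712) (nat_lit 19136512)) (I.mix (nat_lit 20332544) (nat_lit 11845632)))
  false (nat_lit 0)
def b2_2 : Bx := Bx.mk (St.mk (I.pos (nat_lit 82509824) (nat_lit 126189568)) (I.mix (nat_lit 59326464) (nat_lit 8028160)) (I.neg (nat_lit 3653632) (nat_lit 55017472)) (I.pos (nat_lit 114671616) (nat_lit 147685376)) (I.mix (nat_lit 65503232) (nat_lit 22904832)) (I.mix (nat_lit 30326784) (nat_lit 60801024)) (I.mix (nat_lit 22003712) (nat_lit 43237376)))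
  false (nat_lit 0)
def b2_3 : Bx := Bx.mk (St.mk (I.mix (nat_lit 46743552) (nat_lit 26640384)) (I.mix (nat_lit 33292288) (nat_lit 5570560)) (I.mix (nat_lit 11943936) (nat_lit 2752512)) (I.pos (nat_lit 83017728) (nat_lit 99139584)) (I.mix (nat_lit 24707072) (nat_lit 16318464)) (I.mix (nat_lit 14090240) (nat_lit 26247168)) (I.mix (nat_lit 9486336) (nat_lit 5586944)))
  false (nat_lit 0)
def b2_4 : Bx := Bx.mk (St.mk (I.pos (nat_lit 95338496) (nat_lit 160923648)) (I.neg (nat_lit 7241728) (nat_lit 66551808)) (I.neg (nat_lit 3686400) (nat_lit 62750720)) (I.pos (nat_lit 130039808) (nat_lit 186220544)) (I.mix (nat_lit 66912256) (nat_lit 33685504)) (I.mix (nat_lit 27770880) (nat_lit 55345152)) (I.mix (nat_lit 23789568) (nat_lit 48300032)))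
  false (nat_lit 0)
def b2_5 : Bx := Bx.mk (St.mk (I.mix (nat_lit 28950528) (nat_lit 46039040)) (I.mix (nat_lit 33570816) (nat_lit 3981312)) (I.mix (nat_lit 14090240) (nat_lit 1310720)) (I.pos (nat_lit 82444288) (nat_lit 99614720)) (I.mix (nat_lit 21495808) (nat_lit 20889600)) (I.mix (nat_lit 15220736) (nat_lit 26886144)) (I.mix (nat_lit 6750208) (nat_lit 9453568)))
  false (nat_lit 0)
def b2_6 : Bx := Bx.mk (St.mk (I.pos (nat_lit 144965632) (nat_lit 215810048)) (I.mix (nat_lit 37519360) (nat_lit 69763072)) (I.mix (nat_lit 35471360) (nat_lit 97304576)) (I.pos (nat_lit 169082880) (nat_lit 257900544)) (I.mix (nat_lit 110247936) (nat_lit 48578560)) (I.mix (nat_lit 117932032) (nat_lit 61030400)) (I.mix (nat_lit 117850112) (nat_lit 56360960)))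
  false (nat_lit 12144393)
def b2_7 : Bx := Bx.mk (St.mk (I.mix (nat_lit 47398912) (nat_lit 72908800)) (I.mix (nat_lit 8142848) (nat_lit 35782656)) (I.mix (nat_lit 14139392) (nat_lit 12566528)) (I.pos (nat_lit 82477056) (nat_lit 109166592)) (I.mix (nat_lit 27066368) (nat_lit 21495808)) (I.mix (nat_lit 30949376) (nat_lit 17022976)) (I.mix (nat_lit 11698176) (nat_lit 9453568)))
  false (nat_lit 0)
def t2 : BTr := (BTr.n (BTr.n (BTr.n (BTr.b b2_0) (BTr.b b2_1)) (BTr.n (BTr.b b2_2) (BTr.b b2_3))) (BTr.n (BTr.n (BTr.b b2_4) (BTr.b b2_5)) (BTr.n (BTr.b b2_6) (BTr.b b2_7))))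
namespace T2
def l0 : Tr := Tr.L (Pth.l (Pth.l (Pth.l Pth.z)))
def l1 : Tr := Tr.L (Pth.l (Pth.l (Pth.r Pth.z)))
def l2 : Tr := Tr.L (Pth.l (Pth.r (Pth.l Pth.z)))
def l3 : Tr := Tr.L (Pth.l (Pth.r (Pth.r Pth.z)))
def l4 : Tr := Tr.L (Pth.r (Pth.l (Pth.l Pth.z)))
def l5 : Tr := Tr.L (Pth.r (Pth.l (Pth.r Pth.z)))
def l6 : Tr := Tr.L (Pth.r (Pth.r (Pth.l Pth.z)))
def l7 : Tr := Tr.L (Pth.r (Pth.r (Pth.r Pth.z)))
end T2
def b3_0 : Bx := Bx.mk (St.mk (I.pos (nat_lit 157057024) (nat_lit 279674880)) (I.mix (nat_lit 15794176) (nat_lit 48480256)) (I.mix (nat_lit 21331968) (nat_lit 100253696)) (I.pos (nat_lit 89849856) (nat_lit 307724288)) (I.mix (nat_lit 77578240) (nat_lit 57540608)) (I.mix (nat_lit 87719936) (nat_lit 53788672)) (I.mix (nat_lit 137773056) (nat_lit 73318400)))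
  false (nat_lit 0)
def b3_1 : Bx := Bx.mk (St.mk (I.pos (nat_lit 125796352) (nat_lit 188956672)) (I.neg (nat_lit 2916352) (nat_lit 57786368)) (I.mix (nat_lit 52379648) (nat_lit 7815168)) (I.pos (nat_lit 75005952) (nat_lit 148619264)) (I.mix (nat_lit 60522496) (nat_lit 30179328)) (I.mix (nat_lit 28966912) (nat_lit 48611328)) (I.mix (nat_lit 25051136) (nat_lit 50741248)))
  false (nat_lit 0)
def b3_2 : Bx := Bx.mk (St.mk (I.mix (nat_lit 8404992) (nat_lit 118226944)) (I.mix (nat_lit 24805376) (nat_lit 2686976)) (I.mix (nat_lit 15155200) (nat_lit 6766592)) (I.mix (nat_lit 2523136) (nat_lit 67420160)) (I.mix (nat_lit 18939904) (nat_lit 13893632)) (I.mix (nat_lit 10207232) (nat_lit 17858560)) (I.mix (nat_lit 6815744) (nat_lit 12779520)))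
  false (nat_lit 0)
def b3_3 : Bx := Bx.mk (St.mk (I.pos (nat_lit 160333824) (nat_lit 220626944)) (I.mix (nat_lit 37568512) (nat_lit 55410688)) (I.mix (nat_lit 29048832) (nat_lit 102776832)) (I.pos (nat_lit 101056512) (nat_lit 195035136)) (I.mix (nat_lit 113672192) (nat_lit 47611904)) (I.mix (nat_lit 135888896) (nat_lit 56311808)) (I.mix (nat_lit 175652864) (nat_lit 61210624)))
  false (nat_lit 0)
def b3_4 : Bx := Bx.mk (St.mk (I.mix (nat_lit 13680640) (nat_lit 134873088)) (I.mix (nat_lit 12222464) (nat_lit 29999104)) (I.mix (nat_lit 5505024) (nat_lit 30343168)) (I.mix (nat_lit 2932736) (nat_lit 81412096)) (I.mix (nat_lit 39682048) (nat_lit 16449536)) (I.mix (nat_lit 40599552) (nat_lit 20480000)) (I.mix (nat_lit 31145984) (nat_lit 13516800)))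
  false (nat_lit 0)
def b3_5 : Bx := Bx.mk (St.mk (I.pos (nat_lit 67633152) (nat_lit 139051008)) (I.mix (nat_lit 5406720) (nat_lit 23478272)) (I.mix (nat_lit 2441216) (nat_lit 26755072)) (I.pos (nat_lit 19005440) (nat_lit 88506368)) (I.mix (nat_lit 27131904) (nat_lit 20135936)) (I.mix (nat_lit 29114368) (nat_lit 15253504)) (I.mix (nat_lit 25591808) (nat_lit 12288000)))
  false (nat_lit 0)
def b3_6 : Bx := Bx.mk (St.mk (I.pos (nat_lit 119521280) (nat_lit 166019072)) (I.mix (nat_lit 52035584) (nat_lit 6864896)) (I.mix (nat_lit 47923200) (nat_lit 11993088)) (I.pos (nat_lit 54673408) (nat_lit 117063680)) (I.mix (nat_lit 67387392) (nat_lit 24133632)) (I.mix (nat_lit 34144256) (nat_lit 72384512)) (I.mix (nat_lit 29474816) (nat_lit 63700992)))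
  false (nat_lit 0)
def b3_7 : Bx := Bx.mk (St.mk (I.pos (nat_lit 36634624) (nat_lit 107118592)) (I.mix (nat_lit 23101440) (nat_lit 3440640)) (I.mix (nat_lit 13795328) (nat_lit 5210112)) (I.pos (nat_lit 3506176) (nat_lit 58867712)) (I.mix (nat_lit 22953984) (nat_lit 11665408)) (I.mix (nat_lit 13074432) (nat_lit 24821760)) (I.mix (nat_lit 7847936) (nat_lit 15155200)))
  false (nat_lit 0)
def t3 : BTr := (BTr.n (BTr.n (BTr.n (BTr.b b3_0) (BTr.b b3_1)) (BTr.n (BTr.b b3_2) (BTr.b b3_3))) (BTr.n (BTr.n (BTr.b b3_4) (BTr.b b3_5)) (BTr.n (BTr.b b3_6) (BTr.b b3_7))))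
namespace T3
def l0 : Tr := Tr.L (Pth.l (Pth.l (Pth.l Pth.z)))
def l1 : Tr := Tr.L (Pth.l (Pth.l (Pth.r Pth.z)))
def l2 : Tr := Tr.L (Pth.l (Pth.r (Pth.l Pth.z)))
def l3 : Tr := Tr.L (Pth.l (Pth.r (Pth.r Pth.z)))
def l4 : Tr := Tr.L (Pth.r (Pth.l (Pth.l Pth.z)))
def l5 : Tr := Tr.L (Pth.r (Pth.l (Pth.r Pth.z)))
def l6 : Tr := Tr.L (Pth.r (Pth.r (Pth.l Pth.z)))
def l7 : Tr := Tr.L (Pth.r (Pth.r (Pth.r Pth.z)))
end T3
def b4_0 : Bx := Bx.mk (St.mk (I.pos (nat_lit 157040640) (nat_lit 280526848)) (I.mix (nat_lit 14893056) (nat_lit 60456960)) (I.mix (nat_lit 52150272) (nat_lit 99713024)) (I.pos (nat_lit 179650560) (nat_lit 379535360)) (I.mix (nat_lit 87228416) (nat_lit 59899904)) (I.mix (nat_lit 91422720) (nat_lit 49463296)) (I.mix (nat_lit 133775360) (nat_lit 72204288)))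
  false (nat_lit 55766153)
def b4_1 : Bx := Bx.mk (St.mk (I.pos (nat_lit 97632256) (nat_lit 161972224)) (I.neg (nat_lit 7454720) (nat_lit 66502656)) (I.mix (nat_lit 57884672) (nat_lit 3260416)) (I.pos (nat_lit 131825664) (nat_lit 186974208)) (I.mix (nat_lit 63946752) (nat_lit 33832960)) (I.mix (nat_lit 27181056) (nat_lit 52314112)) (I.mix (nat_lit 23527424) (nat_lit 45416448)))
  false (nat_lit 0)
def b4_2 : Bx := Bx.mk (St.mk (I.mix (nat_lit 27656192) (nat_lit 46661632)) (I.mix (nat_lit 33931264) (nat_lit 5177344)) (I.mix (nat_lit 10551296) (nat_lit 4915200)) (I.pos (nat_lit 82722816) (nat_lit 99352576)) (I.mix (nat_lit 19283968) (nat_lit 22298624)) (I.mix (nat_lit 14696448) (nat_lit 25706496)) (I.mix (nat_lit 6078464) (nat_lit 8978432)))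
  false (nat_lit 0)
def b4_3 : Bx := Bx.mk (St.mk (I.pos (nat_lit 144474112) (nat_lit 214204416)) (I.mix (nat_lit 39108608) (nat_lit 69091328)) (I.mix (nat_lit 30539776) (nat_lit 104939520)) (I.pos (nat_lit 169443328) (nat_lit 254935040)) (I.mix (nat_lit 112820224) (nat_lit 46415872)) (I.mix (nat_lit 119996416) (nat_lit 60456960)) (I.mix (nat_lit 125829120) (nat_lit 55754752)))
  false (nat_lit 20904256)
def b4_4 : Bx := Bx.mk (St.mk (I.mix (nat_lit 48005120) (nat_lit 71811072)) (I.mix (nat_lit 8978432) (nat_lit 36061184)) (I.mix (nat_lit 10747904) (nat_lit 16187392)) (I.pos (nat_lit 82739200) (nat_lit 108609536)) (I.mix (nat_lit 28622848) (nat_lit 19283968)) (I.mix (nat_lit 31047680) (nat_lit 16351232)) (I.mix (nat_lit 11649024) (nat_lit 8994816)))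
  false (nat_lit 0)
def b4_5 : Bx := Bx.mk (St.mk (I.mix (nat_lit 28786688) (nat_lit 95649792)) (I.mix (nat_lit 5242880) (nat_lit 36749312)) (I.mix (nat_lit 11862016) (nat_lit 18333696)) (I.pos (nat_lit 82493440) (nat_lit 122650624)) (I.mix (nat_lit 27148288) (nat_lit 26771456)) (I.mix (nat_lit 33521664) (nat_lit 19611648)) (I.mix (nat_lit 20660224) (nat_lit 12894208)))
  false (nat_lit 0)
def b4_6 : Bx := Bx.mk (St.mk (I.pos (nat_lit 83263488) (nat_lit 127778816)) (I.mix (nat_lit 59736064) (nat_lit 6291456)) (I.neg (nat_lit 737280) (nat_lit 50577408)) (I.pos (nat_lit 115146752) (nat_lit 148701184)) (I.mix (nat_lit 62357504) (nat_lit 24707072)) (I.mix (nat_lit 30670848) (nat_lit 59916288)) (I.mix (nat_lit 22052864) (nat_lit 41713664)))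
  false (nat_lit 0)
def b4_7 : Bx := Bx.mk (St.mk (I.mix (nat_lit 46235648) (nat_lit 27869184)) (I.mix (nat_lit 33095680) (nat_lit 4276224)) (I.mix (nat_lit 8339456) (nat_lit 6094848)) (I.pos (nat_lit 82935808) (nat_lit 99188736)) (I.mix (nat_lit 23281664) (nat_lit 18464768)) (I.mix (nat_lit 14876672) (nat_lit 26247168)) (I.mix (nat_lit 9420800) (nat_lit 5980160)))
  false (nat_lit 0)
def t4 : BTr := (BTr.n (BTr.n (BTr.n (BTr.b b4_0) (BTr.b b4_1)) (BTr.n (BTr.b b4_2) (BTr.b b4_3))) (BTr.n (BTr.n (BTr.b b4_4) (BTr.b b4_5)) (BTr.n (BTr.b b4_6) (BTr.b b4_7))))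
namespace T4
def l0 : Tr := Tr.L (Pth.l (Pth.l (Pth.l Pth.z)))
def l1 : Tr := Tr.L (Pth.l (Pth.l (Pth.r Pth.z)))
def l2 : Tr := Tr.L (Pth.l (Pth.r (Pth.l Pth.z)))
def l3 : Tr := Tr.L (Pth.l (Pth.r (Pth.r Pth.z)))
def l4 : Tr := Tr.L (Pth.r (Pth.l (Pth.l Pth.z)))
def l5 : Tr := Tr.L (Pth.r (Pth.l (Pth.r Pth.z)))
def l6 : Tr := Tr.L (Pth.r (Pth.r (Pth.l Pth.z)))
def l7 : Tr := Tr.L (Pth.r (Pth.r (Pth.r Pth.z)))
end T4
def b5_0 : Bx := Bx.mk (St.mk (I.pos (nat_lit 157106176) (nat_lit 278118400)) (I.mix (nat_lit 12812288) (nat_lit 50675712)) (I.mix (nat_lit 14237696) (nat_lit 104693760)) (I.pos (nat_lit 109035520) (nat_lit 322617344)) (I.mix (nat_lit 82673664) (nat_lit 59998208)) (I.mix (nat_lit 91750400) (nat_lit 53821440)) (I.mix (nat_lit 141295616) (nat_lit 71122944)))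
  false (nat_lit 27024016)
def b5_1 : Bx := Bx.mk (St.mk (I.pos (nat_lit 119177216) (nat_lit 184827904)) (I.neg (nat_lit 5226496) (nat_lit 61063168)) (I.mix (nat_lit 52494336) (nat_lit 12484608)) (I.pos (nat_lit 86261760) (nat_lit 161742848)) (I.mix (nat_lit 61423616) (nat_lit 31277056)) (I.mix (nat_lit 28540928) (nat_lit 47923200)) (I.mix (nat_lit 25329664) (nat_lit 47988736)))
  false (nat_lit 0)
def b5_2 : Bx := Bx.mk (St.mk (I.mix (nat_lit 13664256) (nat_lit 104857600)) (I.mix (nat_lit 26984448) (nat_lit 3096576)) (I.mix (nat_lit 13533184) (nat_lit 8912896)) (I.pos (nat_lit 16007168) (nat_lit 76087296)) (I.mix (nat_lit 18743296) (nat_lit 17514496)) (I.mix (nat_lit 12107776) (nat_lit 19988480)) (I.mix (nat_lit 7159808) (nat_lit 12369920)))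
  false (nat_lit 0)
def b5_3 : Bx := Bx.mk (St.mk (I.pos (nat_lit 156663808) (nat_lit 218513408)) (I.mix (nat_lit 37994496) (nat_lit 59539456)) (I.mix (nat_lit 26148864) (nat_lit 109707264)) (I.pos (nat_lit 115097600) (nat_lit 210026496)) (I.mix (nat_lit 115490816) (nat_lit 48070656)) (I.mix (nat_lit 134430720) (nat_lit 59408384)) (I.mix (nat_lit 170098688) (nat_lit 62701568)))
  false (nat_lit 11889875)
def b5_4 : Bx := Bx.mk (St.mk (I.mix (nat_lit 23740416) (nat_lit 122568704)) (I.mix (nat_lit 12238848) (nat_lit 31735808)) (I.mix (nat_lit 3440640) (nat_lit 31227904)) (I.pos (nat_lit 15794176) (nat_lit 89522176)) (I.mix (nat_lit 39370752) (nat_lit 16105472)) (I.mix (nat_lit 38731776) (nat_lit 20807680)) (I.mix (nat_lit 26230784) (nat_lit 12828672)))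
  false (nat_lit 0)
def b5_5 : Bx := Bx.mk (St.mk (I.mix (nat_lit 14188544) (nat_lit 130924544)) (I.mix (nat_lit 4866048) (nat_lit 26673152)) (I.mix (nat_lit 1228800) (nat_lit 28311552)) (I.pos (nat_lit 15187968) (nat_lit 98205696)) (I.mix (nat_lit 29491200) (nat_lit 21626880)) (I.mix (nat_lit 31604736) (nat_lit 17137664)) (I.mix (nat_lit 25247744) (nat_lit 12402688)))
  false (nat_lit 0)
def b5_6 : Bx := Bx.mk (St.mk (I.pos (nat_lit 110542848) (nat_lit 160448512)) (I.mix (nat_lit 57147392) (nat_lit 7094272)) (I.mix (nat_lit 48496640) (nat_lit 12353536)) (I.pos (nat_lit 65585152) (nat_lit 128729088)) (I.mix (nat_lit 66748416) (nat_lit 25493504)) (I.mix (nat_lit 35799040) (nat_lit 68665344)) (I.mix (nat_lit 27770880) (nat_lit 55328768)))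
  false (nat_lit 0)
def b5_7 : Bx := Bx.mk (St.mk (I.mix (nat_lit 18628608) (nat_lit 100712448)) (I.mix (nat_lit 26624000) (nat_lit 3440640)) (I.mix (nat_lit 13221888) (nat_lit 5324800)) (I.pos (nat_lit 16269312) (nat_lit 70287360)) (I.mix (nat_lit 22183936) (nat_lit 12926976)) (I.mix (nat_lit 13762560) (nat_lit 25411584)) (I.mix (nat_lit 7159808) (nat_lit 13025280)))
  false (nat_lit 0)
def t5 : BTr := (BTr.n (BTr.n (BTr.n (BTr.b b5_0) (BTr.b b5_1)) (BTr.n (BTr.b b5_2) (BTr.b b5_3))) (BTr.n (BTr.n (BTr.b b5_4) (BTr.b b5_5)) (BTr.n (BTr.b b5_6) (BTr.b b5_7))))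
namespace T5
def l0 : Tr := Tr.L (Pth.l (Pth.l (Pth.l Pth.z)))
def l1 : Tr := Tr.L (Pth.l (Pth.l (Pth.r Pth.z)))
def l2 : Tr := Tr.L (Pth.l (Pth.r (Pth.l Pth.z)))
def l3 : Tr := Tr.L (Pth.l (Pth.r (Pth.r Pth.z)))
def l4 : Tr := Tr.L (Pth.r (Pth.l (Pth.l Pth.z)))
def l5 : Tr := Tr.L (Pth.r (Pth.l (Pth.r Pth.z)))
def l6 : Tr := Tr.L (Pth.r (Pth.r (Pth.l Pth.z)))
def l7 : Tr := Tr.L (Pth.r (Pth.r (Pth.r Pth.z)))
end T5
theorem bx0_0 : BoxOK sI cl6 cl9 cl13 t2 t4 b0_0 :=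
  box_mk (TrL.c (I.pos (nat_lit 0) (nat_lit 0)) (xa (xa T2.l0 T2.l0) (xa T2.l0 T2.l6))
  (TrL.c (I.pos (nat_lit 0) (nat_lit 0)) T4.l1
  (TrL.c (I.pos (nat_lit 0) (nat_lit 89480386)) (xR T2.l1 (xR T2.l1 T2.l1))
  (TrL.c (I.pos (nat_lit 0) (nat_lit 41530880)) T4.l2
  (TrL.c (I.pos (nat_lit 0) (nat_lit 0)) (xa T4.l3 (xb T4.l3 (xa T4.l3 T4.l3)))
  (TrL.c (I.pos (nat_lit 0) (nat_lit 0)) T2.l2
  (TrL.c (I.mix (nat_lit 41527258) (nat_lit 41530880)) (xR T4.l4 T4.l4)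
  (TrL.c (I.mix (nat_lit 41527258) (nat_lit 4274)) T2.l3
  TrL.n)))))))) (by decide +kernel)
theorem bx0_1 : BoxOK sI cl6 cl9 cl13 t2 t4 b0_1 :=
  box_mk (TrL.c (I.pos (nat_lit 0) (nat_lit 0)) T2.l0
  (TrL.c (I.pos (nat_lit 0) (nat_lit 0)) T4.l1
  (TrL.c (I.pos (nat_lit 0) (nat_lit 89480386)) T2.l1
  (TrL.c (I.pos (nat_lit 0) (nat_lit 41530880)) T4.l2
  (TrL.c (I.pos (nat_lit 0) (nat_lit 0)) T4.l3
  (TrL.c (I.pos (nat_lit 0) (nat_lit 0)) T2.l2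
  (TrL.c (I.mix (nat_lit 41527258) (nat_lit 41530880)) T4.l4
  (TrL.c (I.mix (nat_lit 41527258) (nat_lit 4274)) T2.l3
  TrL.n)))))))) (by decide +kernel)
theorem bx0_2 : BoxOK sI cl6 cl9 cl13 t2 t4 b0_2 :=
  box_mk (TrL.c (I.pos (nat_lit 0) (nat_lit 0)) T2.l0
  (TrL.c (I.pos (nat_lit 0) (nat_lit 0)) T4.l1
  (TrL.c (I.pos (nat_lit 0) (nat_lit 89480386)) (xR T2.l1 T2.l1)
  (TrL.c (I.pos (nat_lit 0) (nat_lit 41530880)) T4.l2
  (TrL.c (I.pos (nat_lit 0) (nat_lit 0)) T4.l3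
  (TrL.c (I.pos (nat_lit 0) (nat_lit 0)) T2.l2
  (TrL.c (I.mix (nat_lit 41527258) (nat_lit 41530880)) T4.l4
  (TrL.c (I.mix (nat_lit 41527258) (nat_lit 4274)) T2.l3
  TrL.n)))))))) (by decide +kernel)
theorem bx0_3 : BoxOK sI cl6 cl9 cl13 t2 t4 b0_3 :=
  box_mk (TrL.c (I.pos (nat_lit 0) (nat_lit 0)) T2.l0
  (TrL.c (I.pos (nat_lit 0) (nat_lit 0)) T4.l1
  (TrL.c (I.pos (nat_lit 0) (nat_lit 89480386)) T2.l1
  (TrL.c (I.pos (nat_lit 0) (nat_lit 41530880)) T4.l2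
  (TrL.c (I.pos (nat_lit 0) (nat_lit 0)) T4.l3
  (TrL.c (I.pos (nat_lit 0) (nat_lit 0)) T2.l2
  (TrL.c (I.mix (nat_lit 41527258) (nat_lit 41530880)) T4.l4
  (TrL.c (I.mix (nat_lit 41527258) (nat_lit 4274)) T2.l3
  TrL.n)))))))) (by decide +kernel)
theorem bx0_4 : BoxOK sI cl6 cl9 cl13 t2 t4 b0_4 :=
  box_mk (TrL.c (I.pos (nat_lit 0) (nat_lit 0)) T2.l0
  (TrL.c (I.pos (nat_lit 0) (nat_lit 0)) T4.l1
  (TrL.c (I.pos (nat_lit 0) (nat_lit 89480386)) (xR T2.l1 T2.l1)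
  (TrL.c (I.pos (nat_lit 0) (nat_lit 41530880)) T4.l2
  (TrL.c (I.pos (nat_lit 0) (nat_lit 0)) T4.l3
  (TrL.c (I.pos (nat_lit 0) (nat_lit 0)) T2.l2
  (TrL.c (I.mix (nat_lit 41527258) (nat_lit 41530880)) T4.l4
  (TrL.c (I.mix (nat_lit 41527258) (nat_lit 4274)) T2.l3
  TrL.n)))))))) (by decide +kernel)
theorem bx0_5 : BoxOK sI cl6 cl9 cl13 t2 t4 b0_5 :=
  box_mk (TrL.c (I.pos (nat_lit 0) (nat_lit 0)) (xa T2.l0 T2.l0)
  (TrL.c (I.pos (nat_lit 0) (nat_lit 0)) T4.l1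
  (TrL.c (I.pos (nat_lit 0) (nat_lit 89480386)) T2.l1
  (TrL.c (I.pos (nat_lit 0) (nat_lit 41530880)) T4.l2
  (TrL.c (I.pos (nat_lit 0) (nat_lit 0)) T4.l3
  (TrL.c (I.pos (nat_lit 0) (nat_lit 0)) T2.l2
  (TrL.c (I.mix (nat_lit 41527258) (nat_lit 41530880)) T4.l4
  (TrL.c (I.mix (nat_lit 41527258) (nat_lit 4274)) T2.l3
  TrL.n)))))))) (by decide +kernel)
theorem bx0_6 : BoxOK sI cl6 cl9 cl13 t2 t4 b0_6 :=
  box_mk (TrL.c (I.pos (nat_lit 0) (nat_lit 0)) (xa T2.l0 T2.l0)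
  (TrL.c (I.pos (nat_lit 0) (nat_lit 0)) T4.l1
  (TrL.c (I.pos (nat_lit 0) (nat_lit 89480386)) T2.l1
  (TrL.c (I.pos (nat_lit 0) (nat_lit 41530880)) T4.l2
  (TrL.c (I.pos (nat_lit 0) (nat_lit 0)) T4.l3
  (TrL.c (I.pos (nat_lit 0) (nat_lit 0)) T2.l2
  (TrL.c (I.mix (nat_lit 41527258) (nat_lit 41530880)) T4.l4
  (TrL.c (I.mix (nat_lit 41527258) (nat_lit 4274)) T2.l3
  TrL.n)))))))) (by decide +kernel)
theorem bx0_7 : BoxOK sI cl6 cl9 cl13 t2 t4 b0_7 :=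
  box_mk (TrL.c (I.pos (nat_lit 0) (nat_lit 0)) (xb T2.l0 (xa T2.l0 T2.l0))
  (TrL.c (I.pos (nat_lit 0) (nat_lit 0)) T4.l1
  (TrL.c (I.pos (nat_lit 0) (nat_lit 89480386)) (xR T2.l1 T2.l1)
  (TrL.c (I.pos (nat_lit 0) (nat_lit 41530880)) T4.l2
  (TrL.c (I.pos (nat_lit 0) (nat_lit 0)) (xb T4.l3 T4.l3)
  (TrL.c (I.pos (nat_lit 0) (nat_lit 0)) T2.l2
  (TrL.c (I.mix (nat_lit 41527258) (nat_lit 41530880)) (xR T4.l4 T4.l4)
  (TrL.c (I.mix (nat_lit 41527258) (nat_lit 4274)) T2.l3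
  TrL.n)))))))) (by decide +kernel)
theorem sv0 : StarV sI cl6 cl9 cl13 t2 t4 t0 :=
  (bt_n (bt_n (bt_n (bt_b bx0_0) (bt_b bx0_1)) (bt_n (bt_b bx0_2) (bt_b bx0_3))) (bt_n (bt_n (bt_b bx0_4) (bt_b bx0_5)) (bt_n (bt_b bx0_6) (bt_b bx0_7))))
def S0 : StarD := StarD.mk cl6 cl9 cl13 2 4 t0
theorem bx1_0 : BoxOK sI cl6 cl13 cl9 t4 t2 b1_0 :=
  box_mk (TrL.c (I.pos (nat_lit 0) (nat_lit 0)) (xa (xa T4.l0 T4.l0) (xa T4.l0 T4.l0))
  (TrL.c (I.pos (nat_lit 0) (nat_lit 0)) T2.l4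
  (TrL.c (I.pos (nat_lit 0) (nat_lit 89480386)) (xR T4.l5 (xR T4.l5 T4.l5))
  (TrL.c (I.pos (nat_lit 0) (nat_lit 41530880)) T2.l5
  (TrL.c (I.pos (nat_lit 0) (nat_lit 0)) (xa T2.l6 (xb T2.l6 T2.l6))
  (TrL.c (I.pos (nat_lit 0) (nat_lit 0)) T4.l6
  (TrL.c (I.mix (nat_lit 41527258) (nat_lit 41530880)) (xR T2.l7 T2.l7)
  (TrL.c (I.mix (nat_lit 41527258) (nat_lit 4274)) T4.l7
  TrL.n)))))))) (by decide +kernel)
theorem bx1_1 : BoxOK sI cl6 cl13 cl9 t4 t2 b1_1 :=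
  box_mk (TrL.c (I.pos (nat_lit 0) (nat_lit 0)) (xa T4.l0 T4.l0)
  (TrL.c (I.pos (nat_lit 0) (nat_lit 0)) T2.l4
  (TrL.c (I.pos (nat_lit 0) (nat_lit 89480386)) (xR T4.l5 T4.l5)
  (TrL.c (I.pos (nat_lit 0) (nat_lit 41530880)) T2.l5
  (TrL.c (I.pos (nat_lit 0) (nat_lit 0)) T2.l6
  (TrL.c (I.pos (nat_lit 0) (nat_lit 0)) T4.l6
  (TrL.c (I.mix (nat_lit 41527258) (nat_lit 41530880)) T2.l7
  (TrL.c (I.mix (nat_lit 41527258) (nat_lit 4274)) T4.l7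
  TrL.n)))))))) (by decide +kernel)
theorem bx1_2 : BoxOK sI cl6 cl13 cl9 t4 t2 b1_2 :=
  box_mk (TrL.c (I.pos (nat_lit 0) (nat_lit 0)) T4.l0
  (TrL.c (I.pos (nat_lit 0) (nat_lit 0)) T2.l4
  (TrL.c (I.pos (nat_lit 0) (nat_lit 89480386)) (xR T4.l5 T4.l5)
  (TrL.c (I.pos (nat_lit 0) (nat_lit 41530880)) T2.l5
  (TrL.c (I.pos (nat_lit 0) (nat_lit 0)) T2.l6
  (TrL.c (I.pos (nat_lit 0) (nat_lit 0)) T4.l6
  (TrL.c (I.mix (nat_lit 41527258) (nat_lit 41530880)) T2.l7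
  (TrL.c (I.mix (nat_lit 41527258) (nat_lit 4274)) T4.l7
  TrL.n)))))))) (by decide +kernel)
theorem bx1_3 : BoxOK sI cl6 cl13 cl9 t4 t2 b1_3 :=
  box_mk (TrL.c (I.pos (nat_lit 0) (nat_lit 0)) (xa T4.l0 T4.l0)
  (TrL.c (I.pos (nat_lit 0) (nat_lit 0)) T2.l4
  (TrL.c (I.pos (nat_lit 0) (nat_lit 89480386)) T4.l5
  (TrL.c (I.pos (nat_lit 0) (nat_lit 41530880)) T2.l5
  (TrL.c (I.pos (nat_lit 0) (nat_lit 0)) T2.l6
  (TrL.c (I.pos (nat_lit 0) (nat_lit 0)) T4.l6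
  (TrL.c (I.mix (nat_lit 41527258) (nat_lit 41530880)) T2.l7
  (TrL.c (I.mix (nat_lit 41527258) (nat_lit 4274)) T4.l7
  TrL.n)))))))) (by decide +kernel)
theorem bx1_4 : BoxOK sI cl6 cl13 cl9 t4 t2 b1_4 :=
  box_mk (TrL.c (I.pos (nat_lit 0) (nat_lit 0)) T4.l0
  (TrL.c (I.pos (nat_lit 0) (nat_lit 0)) T2.l4
  (TrL.c (I.pos (nat_lit 0) (nat_lit 89480386)) (xR T4.l5 T4.l5)
  (TrL.c (I.pos (nat_lit 0) (nat_lit 41530880)) T2.l5
  (TrL.c (I.pos (nat_lit 0) (nat_lit 0)) T2.l6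
  (TrL.c (I.pos (nat_lit 0) (nat_lit 0)) T4.l6
  (TrL.c (I.mix (nat_lit 41527258) (nat_lit 41530880)) T2.l7
  (TrL.c (I.mix (nat_lit 41527258) (nat_lit 4274)) T4.l7
  TrL.n)))))))) (by decide +kernel)
theorem bx1_5 : BoxOK sI cl6 cl13 cl9 t4 t2 b1_5 :=
  box_mk (TrL.c (I.pos (nat_lit 0) (nat_lit 0)) T4.l0
  (TrL.c (I.pos (nat_lit 0) (nat_lit 0)) T2.l4
  (TrL.c (I.pos (nat_lit 0) (nat_lit 89480386)) T4.l5
  (TrL.c (I.pos (nat_lit 0) (nat_lit 41530880)) T2.l5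
  (TrL.c (I.pos (nat_lit 0) (nat_lit 0)) T2.l6
  (TrL.c (I.pos (nat_lit 0) (nat_lit 0)) T4.l6
  (TrL.c (I.mix (nat_lit 41527258) (nat_lit 41530880)) T2.l7
  (TrL.c (I.mix (nat_lit 41527258) (nat_lit 4274)) T4.l7
  TrL.n)))))))) (by decide +kernel)
theorem bx1_6 : BoxOK sI cl6 cl13 cl9 t4 t2 b1_6 :=
  box_mk (TrL.c (I.pos (nat_lit 0) (nat_lit 0)) (xb T4.l0 (xa T4.l0 T4.l0))
  (TrL.c (I.pos (nat_lit 0) (nat_lit 0)) T2.l4
  (TrL.c (I.pos (nat_lit 0) (nat_lit 89480386)) (xR T4.l5 T4.l5)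
  (TrL.c (I.pos (nat_lit 0) (nat_lit 41530880)) T2.l5
  (TrL.c (I.pos (nat_lit 0) (nat_lit 0)) (xb T2.l6 T2.l6)
  (TrL.c (I.pos (nat_lit 0) (nat_lit 0)) T4.l6
  (TrL.c (I.mix (nat_lit 41527258) (nat_lit 41530880)) (xR T2.l7 T2.l7)
  (TrL.c (I.mix (nat_lit 41527258) (nat_lit 4274)) T4.l7
  TrL.n)))))))) (by decide +kernel)
theorem bx1_7 : BoxOK sI cl6 cl13 cl9 t4 t2 b1_7 :=
  box_mk (TrL.c (I.pos (nat_lit 0) (nat_lit 0)) (xa T4.l0 T4.l0)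
  (TrL.c (I.pos (nat_lit 0) (nat_lit 0)) T2.l4
  (TrL.c (I.pos (nat_lit 0) (nat_lit 89480386)) (xR T4.l5 T4.l5)
  (TrL.c (I.pos (nat_lit 0) (nat_lit 41530880)) T2.l5
  (TrL.c (I.pos (nat_lit 0) (nat_lit 0)) T2.l6
  (TrL.c (I.pos (nat_lit 0) (nat_lit 0)) T4.l6
  (TrL.c (I.mix (nat_lit 41527258) (nat_lit 41530880)) T2.l7
  (TrL.c (I.mix (nat_lit 41527258) (nat_lit 4274)) T4.l7
  TrL.n)))))))) (by decide +kernel)
theorem sv1 : StarV sI cl6 cl13 cl9 t4 t2 t1 :=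
  (bt_n (bt_n (bt_n (bt_b bx1_0) (bt_b bx1_1)) (bt_n (bt_b bx1_2) (bt_b bx1_3))) (bt_n (bt_n (bt_b bx1_4) (bt_b bx1_5)) (bt_n (bt_b bx1_6) (bt_b bx1_7))))
def S1 : StarD := StarD.mk cl6 cl13 cl9 4 2 t1
theorem bx2_0 : BoxOK sI cl9 cl6 cl13 t0 t5 b2_0 :=
  box_mk (TrL.c (I.pos (nat_lit 0) (nat_lit 0)) (xa (xa T0.l0 T0.l0) T0.l0)
  (TrL.c (I.pos (nat_lit 0) (nat_lit 0)) T5.l1
  (TrL.c (I.pos (nat_lit 0) (nat_lit 124588530)) (xR T0.l1 T0.l6)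
  (TrL.c (I.pos (nat_lit 0) (nat_lit 96881482)) (xR T5.l2 (xR T5.l2 T5.l2))
  (TrL.c (I.pos (nat_lit 0) (nat_lit 0)) (xa (xb T5.l3 T5.l3) (xk (xb (xa T5.l3 T5.l3) (xa T5.l3 (xs T5.l3 T5.l3))) (xa T5.l3 (xb T5.l3 T5.l3))))
  (TrL.c (I.pos (nat_lit 0) (nat_lit 0)) T0.l2
  (TrL.c (I.mix (nat_lit 17240550) (nat_lit 96881482)) (xR T5.l4 (xR T5.l4 T5.l4))
  (TrL.c (I.mix (nat_lit 17240550) (nat_lit 71940500)) (xR T0.l3 T0.l3)
  TrL.n)))))))) (by decide +kernel)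
theorem bx2_1 : BoxOK sI cl9 cl6 cl13 t0 t5 b2_1 :=
  box_mk (TrL.c (I.pos (nat_lit 0) (nat_lit 0)) T0.l0
  (TrL.c (I.pos (nat_lit 0) (nat_lit 0)) T5.l1
  (TrL.c (I.pos (nat_lit 0) (nat_lit 124588530)) T0.l1
  (TrL.c (I.pos (nat_lit 0) (nat_lit 96881482)) T5.l2
  (TrL.c (I.pos (nat_lit 0) (nat_lit 0)) T5.l3
  (TrL.c (I.pos (nat_lit 0) (nat_lit 0)) T0.l2
  (TrL.c (I.mix (nat_lit 17240550) (nat_lit 96881482)) T5.l4
  (TrL.c (I.mix (nat_lit 17240550) (nat_lit 71940500)) T0.l3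
  TrL.n)))))))) (by decide +kernel)
theorem bx2_2 : BoxOK sI cl9 cl6 cl13 t0 t5 b2_2 :=
  box_mk (TrL.c (I.pos (nat_lit 0) (nat_lit 0)) T0.l0
  (TrL.c (I.pos (nat_lit 0) (nat_lit 0)) T5.l1
  (TrL.c (I.pos (nat_lit 0) (nat_lit 124588530)) T0.l1
  (TrL.c (I.pos (nat_lit 0) (nat_lit 96881482)) T5.l2
  (TrL.c (I.pos (nat_lit 0) (nat_lit 0)) T5.l3
  (TrL.c (I.pos (nat_lit 0) (nat_lit 0)) T0.l2
  (TrL.c (I.mix (nat_lit 17240550) (nat_lit 96881482)) T5.l4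
  (TrL.c (I.mix (nat_lit 17240550) (nat_lit 71940500)) T0.l3
  TrL.n)))))))) (by decide +kernel)
theorem bx2_3 : BoxOK sI cl9 cl6 cl13 t0 t5 b2_3 :=
  box_mk (TrL.c (I.pos (nat_lit 0) (nat_lit 0)) T0.l0
  (TrL.c (I.pos (nat_lit 0) (nat_lit 0)) T5.l3
  (TrL.c (I.pos (nat_lit 0) (nat_lit 124588530)) T0.l1
  (TrL.c (I.pos (nat_lit 0) (nat_lit 96881482)) T5.l4
  (TrL.c (I.pos (nat_lit 0) (nat_lit 0)) T5.l3
  (TrL.c (I.pos (nat_lit 0) (nat_lit 0)) T0.l2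
  (TrL.c (I.mix (nat_lit 17240550) (nat_lit 96881482)) T5.l4
  (TrL.c (I.mix (nat_lit 17240550) (nat_lit 71940500)) T0.l6
  TrL.n)))))))) (by decide +kernel)
theorem bx2_4 : BoxOK sI cl9 cl6 cl13 t0 t5 b2_4 :=
  box_mk (TrL.c (I.pos (nat_lit 0) (nat_lit 0)) T0.l0
  (TrL.c (I.pos (nat_lit 0) (nat_lit 0)) T5.l1
  (TrL.c (I.pos (nat_lit 0) (nat_lit 124588530)) (xR T0.l1 T0.l1)
  (TrL.c (I.pos (nat_lit 0) (nat_lit 96881482)) T5.l2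
  (TrL.c (I.pos (nat_lit 0) (nat_lit 0)) T5.l3
  (TrL.c (I.pos (nat_lit 0) (nat_lit 0)) T0.l2
  (TrL.c (I.mix (nat_lit 17240550) (nat_lit 96881482)) T5.l4
  (TrL.c (I.mix (nat_lit 17240550) (nat_lit 71940500)) T0.l3
  TrL.n)))))))) (by decide +kernel)
theorem bx2_5 : BoxOK sI cl9 cl6 cl13 t0 t5 b2_5 :=
  box_mk (TrL.c (I.pos (nat_lit 0) (nat_lit 0)) T0.l0
  (TrL.c (I.pos (nat_lit 0) (nat_lit 0)) T5.l1
  (TrL.c (I.pos (nat_lit 0) (nat_lit 124588530)) T0.l1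
  (TrL.c (I.pos (nat_lit 0) (nat_lit 96881482)) T5.l4
  (TrL.c (I.pos (nat_lit 0) (nat_lit 0)) T5.l3
  (TrL.c (I.pos (nat_lit 0) (nat_lit 0)) T0.l2
  (TrL.c (I.mix (nat_lit 17240550) (nat_lit 96881482)) T5.l4
  (TrL.c (I.mix (nat_lit 17240550) (nat_lit 71940500)) T0.l3
  TrL.n)))))))) (by decide +kernel)
theorem bx2_6 : BoxOK sI cl9 cl6 cl13 t0 t5 b2_6 :=
  box_mk (TrL.c (I.pos (nat_lit 0) (nat_lit 0)) (xb T0.l0 (xa T0.l0 T0.l0))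
  (TrL.c (I.pos (nat_lit 0) (nat_lit 0)) T5.l1
  (TrL.c (I.pos (nat_lit 0) (nat_lit 124588530)) (xR T0.l1 (xR T0.l1 T0.l1))
  (TrL.c (I.pos (nat_lit 0) (nat_lit 96881482)) (xR T5.l2 T5.l2)
  (TrL.c (I.pos (nat_lit 0) (nat_lit 0)) (xb T5.l3 T5.l3)
  (TrL.c (I.pos (nat_lit 0) (nat_lit 0)) T0.l2
  (TrL.c (I.mix (nat_lit 17240550) (nat_lit 96881482)) (xR T5.l4 (xR T5.l4 T5.l4))
  (TrL.c (I.mix (nat_lit 17240550) (nat_lit 71940500)) T0.l5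
  TrL.n)))))))) (by decide +kernel)
theorem bx2_7 : BoxOK sI cl9 cl6 cl13 t0 t5 b2_7 :=
  box_mk (TrL.c (I.pos (nat_lit 0) (nat_lit 0)) (xa T0.l0 T0.l0)
  (TrL.c (I.pos (nat_lit 0) (nat_lit 0)) T5.l1
  (TrL.c (I.pos (nat_lit 0) (nat_lit 124588530)) T0.l1
  (TrL.c (I.pos (nat_lit 0) (nat_lit 96881482)) (xR T5.l2 T5.l2)
  (TrL.c (I.pos (nat_lit 0) (nat_lit 0)) T5.l3
  (TrL.c (I.pos (nat_lit 0) (nat_lit 0)) T0.l2
  (TrL.c (I.mix (nat_lit 17240550) (nat_lit 96881482)) T5.l4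
  (TrL.c (I.mix (nat_lit 17240550) (nat_lit 71940500)) T0.l3
  TrL.n)))))))) (by decide +kernel)
theorem sv2 : StarV sI cl9 cl6 cl13 t0 t5 t2 :=
  (bt_n (bt_n (bt_n (bt_b bx2_0) (bt_b bx2_1)) (bt_n (bt_b bx2_2) (bt_b bx2_3))) (bt_n (bt_n (bt_b bx2_4) (bt_b bx2_5)) (bt_n (bt_b bx2_6) (bt_b bx2_7))))
def S2 : StarD := StarD.mk cl9 cl6 cl13 0 5 t2
theorem bx3_0 : BoxOK sI cl9 cl13 cl6 t5 t0 b3_0 :=
  box_mk (TrL.c (I.pos (nat_lit 0) (nat_lit 0)) (xa (xa T5.l0 T5.l0) (xa T5.l0 T5.l0))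
  (TrL.c (I.pos (nat_lit 0) (nat_lit 0)) T0.l4
  (TrL.c (I.pos (nat_lit 0) (nat_lit 124588530)) (xR T5.l4 (xR T5.l5 T5.l5))
  (TrL.c (I.pos (nat_lit 0) (nat_lit 96881482)) (xR T0.l5 (xR T0.l5 T0.l5))
  (TrL.c (I.pos (nat_lit 0) (nat_lit 0)) (xa T0.l7 (xk (xa T0.l7 (xb T0.l7 T0.l7)) (xa T0.l7 (xb T0.l7 T0.l7))))
  (TrL.c (I.pos (nat_lit 0) (nat_lit 0)) T5.l6
  (TrL.c (I.mix (nat_lit 17240550) (nat_lit 96881482)) (xR T0.l6 (xR T0.l6 T0.l6))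
  (TrL.c (I.mix (nat_lit 17240550) (nat_lit 71940500)) (xR T5.l7 T5.l7)
  TrL.n)))))))) (by decide +kernel)
theorem bx3_1 : BoxOK sI cl9 cl13 cl6 t5 t0 b3_1 :=
  box_mk (TrL.c (I.pos (nat_lit 0) (nat_lit 0)) T5.l0
  (TrL.c (I.pos (nat_lit 0) (nat_lit 0)) T0.l4
  (TrL.c (I.pos (nat_lit 0) (nat_lit 124588530)) (xR T5.l5 T5.l5)
  (TrL.c (I.pos (nat_lit 0) (nat_lit 96881482)) T0.l5
  (TrL.c (I.pos (nat_lit 0) (nat_lit 0)) T0.l7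
  (TrL.c (I.pos (nat_lit 0) (nat_lit 0)) T5.l6
  (TrL.c (I.mix (nat_lit 17240550) (nat_lit 96881482)) (xR T0.l6 T0.l6)
  (TrL.c (I.mix (nat_lit 17240550) (nat_lit 71940500)) (xR T5.l7 T5.l7)
  TrL.n)))))))) (by decide +kernel)
theorem bx3_2 : BoxOK sI cl9 cl13 cl6 t5 t0 b3_2 :=
  box_mk (TrL.c (I.pos (nat_lit 0) (nat_lit 0)) (xa (xa T5.l0 T5.l0) T5.l0)
  (TrL.c (I.pos (nat_lit 0) (nat_lit 0)) T0.l4
  (TrL.c (I.pos (nat_lit 0) (nat_lit 124588530)) T5.l5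
  (TrL.c (I.pos (nat_lit 0) (nat_lit 96881482)) (xR T0.l5 T0.l5)
  (TrL.c (I.pos (nat_lit 0) (nat_lit 0)) T0.l7
  (TrL.c (I.pos (nat_lit 0) (nat_lit 0)) T5.l6
  (TrL.c (I.mix (nat_lit 17240550) (nat_lit 96881482)) T0.l6
  (TrL.c (I.mix (nat_lit 17240550) (nat_lit 71940500)) T5.l7
  TrL.n)))))))) (by decide +kernel)
theorem bx3_3 : BoxOK sI cl9 cl13 cl6 t5 t0 b3_3 :=
  box_mk (TrL.c (I.pos (nat_lit 0) (nat_lit 0)) (xa (xb T5.l0 T5.l0) (xb T5.l0 T5.l0))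
  (TrL.c (I.pos (nat_lit 0) (nat_lit 0)) T0.l4
  (TrL.c (I.pos (nat_lit 0) (nat_lit 124588530)) (xR T5.l5 (xR T5.l5 T5.l5))
  (TrL.c (I.pos (nat_lit 0) (nat_lit 96881482)) (xR T0.l5 (xR T0.l5 T0.l5))
  (TrL.c (I.pos (nat_lit 0) (nat_lit 0)) (xb (xa T0.l7 T0.l7) T0.l7)
  (TrL.c (I.pos (nat_lit 0) (nat_lit 0)) T5.l6
  (TrL.c (I.mix (nat_lit 17240550) (nat_lit 96881482)) (xR T0.l6 (xR T0.l6 T0.l6))
  (TrL.c (I.mix (nat_lit 17240550) (nat_lit 71940500)) (xR T5.l7 T5.l7)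
  TrL.n)))))))) (by decide +kernel)
theorem bx3_4 : BoxOK sI cl9 cl13 cl6 t5 t0 b3_4 :=
  box_mk (TrL.c (I.pos (nat_lit 0) (nat_lit 0)) (xa T5.l0 T5.l0)
  (TrL.c (I.pos (nat_lit 0) (nat_lit 0)) T0.l4
  (TrL.c (I.pos (nat_lit 0) (nat_lit 124588530)) (xR T5.l5 T5.l5)
  (TrL.c (I.pos (nat_lit 0) (nat_lit 96881482)) (xR T0.l5 T0.l5)
  (TrL.c (I.pos (nat_lit 0) (nat_lit 0)) (xa T0.l7 T0.l7)
  (TrL.c (I.pos (nat_lit 0) (nat_lit 0)) T5.l6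
  (TrL.c (I.mix (nat_lit 17240550) (nat_lit 96881482)) T0.l6
  (TrL.c (I.mix (nat_lit 17240550) (nat_lit 71940500)) (xR T5.l7 T5.l7)
  TrL.n)))))))) (by decide +kernel)
theorem bx3_5 : BoxOK sI cl9 cl13 cl6 t5 t0 b3_5 :=
  box_mk (TrL.c (I.pos (nat_lit 0) (nat_lit 0)) T5.l0
  (TrL.c (I.pos (nat_lit 0) (nat_lit 0)) T0.l4
  (TrL.c (I.pos (nat_lit 0) (nat_lit 124588530)) (xR T5.l5 T5.l5)
  (TrL.c (I.pos (nat_lit 0) (nat_lit 96881482)) T0.l5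
  (TrL.c (I.pos (nat_lit 0) (nat_lit 0)) T0.l7
  (TrL.c (I.pos (nat_lit 0) (nat_lit 0)) T5.l6
  (TrL.c (I.mix (nat_lit 17240550) (nat_lit 96881482)) T0.l6
  (TrL.c (I.mix (nat_lit 17240550) (nat_lit 71940500)) T5.l7
  TrL.n)))))))) (by decide +kernel)
theorem bx3_6 : BoxOK sI cl9 cl13 cl6 t5 t0 b3_6 :=
  box_mk (TrL.c (I.pos (nat_lit 0) (nat_lit 0)) T5.l0
  (TrL.c (I.pos (nat_lit 0) (nat_lit 0)) T0.l4
  (TrL.c (I.pos (nat_lit 0) (nat_lit 124588530)) (xR T5.l5 T5.l5)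
  (TrL.c (I.pos (nat_lit 0) (nat_lit 96881482)) T0.l5
  (TrL.c (I.pos (nat_lit 0) (nat_lit 0)) T0.l7
  (TrL.c (I.pos (nat_lit 0) (nat_lit 0)) T5.l6
  (TrL.c (I.mix (nat_lit 17240550) (nat_lit 96881482)) (xR T0.l6 T0.l6)
  (TrL.c (I.mix (nat_lit 17240550) (nat_lit 71940500)) (xR T5.l7 T5.l7)
  TrL.n)))))))) (by decide +kernel)
theorem bx3_7 : BoxOK sI cl9 cl13 cl6 t5 t0 b3_7 :=
  box_mk (TrL.c (I.pos (nat_lit 0) (nat_lit 0)) T5.l0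
  (TrL.c (I.pos (nat_lit 0) (nat_lit 0)) T0.l4
  (TrL.c (I.pos (nat_lit 0) (nat_lit 124588530)) T5.l5
  (TrL.c (I.pos (nat_lit 0) (nat_lit 96881482)) T0.l5
  (TrL.c (I.pos (nat_lit 0) (nat_lit 0)) T0.l7
  (TrL.c (I.pos (nat_lit 0) (nat_lit 0)) T5.l6
  (TrL.c (I.mix (nat_lit 17240550) (nat_lit 96881482)) T0.l6
  (TrL.c (I.mix (nat_lit 17240550) (nat_lit 71940500)) T5.l7
  TrL.n)))))))) (by decide +kernel)
theorem sv3 : StarV sI cl9 cl13 cl6 t5 t0 t3 :=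
  (bt_n (bt_n (bt_n (bt_b bx3_0) (bt_b bx3_1)) (bt_n (bt_b bx3_2) (bt_b bx3_3))) (bt_n (bt_n (bt_b bx3_4) (bt_b bx3_5)) (bt_n (bt_b bx3_6) (bt_b bx3_7))))
def S3 : StarD := StarD.mk cl9 cl13 cl6 5 0 t3
theorem bx4_0 : BoxOK sI cl13 cl6 cl9 t1 t3 b4_0 :=
  box_mk (TrL.c (I.pos (nat_lit 0) (nat_lit 0)) (xa (xa T1.l0 T1.l0) T1.l0)
  (TrL.c (I.pos (nat_lit 0) (nat_lit 0)) T3.l1
  (TrL.c (I.pos (nat_lit 0) (nat_lit 134217730)) (xR T1.l7 T1.l7)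
  (TrL.c (I.pos (nat_lit 0) (nat_lit 110514882)) (xR T3.l2 (xR T3.l2 T3.l2))
  (TrL.c (I.pos (nat_lit 0) (nat_lit 0)) (xa (xk T3.l3 T3.l3) (xk (xa T3.l3 (xb T3.l3 T3.l3)) (xa T3.l3 (xb T3.l3 T3.l3))))
  (TrL.c (I.pos (nat_lit 0) (nat_lit 0)) T1.l2
  (TrL.c (I.mix (nat_lit 8088324) (nat_lit 110514882)) (xR T3.l4 (xR T3.l4 T3.l4))
  (TrL.c (I.mix (nat_lit 8088324) (nat_lit 89478486)) (xR T1.l3 T1.l3)
  TrL.n)))))))) (by decide +kernel)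
theorem bx4_1 : BoxOK sI cl13 cl6 cl9 t1 t3 b4_1 :=
  box_mk (TrL.c (I.pos (nat_lit 0) (nat_lit 0)) T1.l0
  (TrL.c (I.pos (nat_lit 0) (nat_lit 0)) T3.l1
  (TrL.c (I.pos (nat_lit 0) (nat_lit 134217730)) (xR T1.l1 T1.l1)
  (TrL.c (I.pos (nat_lit 0) (nat_lit 110514882)) (xR T3.l2 T3.l2)
  (TrL.c (I.pos (nat_lit 0) (nat_lit 0)) T3.l3
  (TrL.c (I.pos (nat_lit 0) (nat_lit 0)) T1.l2
  (TrL.c (I.mix (nat_lit 8088324) (nat_lit 110514882)) T3.l4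
  (TrL.c (I.mix (nat_lit 8088324) (nat_lit 89478486)) T1.l3
  TrL.n)))))))) (by decide +kernel)
theorem bx4_2 : BoxOK sI cl13 cl6 cl9 t1 t3 b4_2 :=
  box_mk (TrL.c (I.pos (nat_lit 0) (nat_lit 0)) T1.l0
  (TrL.c (I.pos (nat_lit 0) (nat_lit 0)) T3.l1
  (TrL.c (I.pos (nat_lit 0) (nat_lit 134217730)) T1.l1
  (TrL.c (I.pos (nat_lit 0) (nat_lit 110514882)) T3.l4
  (TrL.c (I.pos (nat_lit 0) (nat_lit 0)) T3.l3
  (TrL.c (I.pos (nat_lit 0) (nat_lit 0)) T1.l2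
  (TrL.c (I.mix (nat_lit 8088324) (nat_lit 110514882)) T3.l4
  (TrL.c (I.mix (nat_lit 8088324) (nat_lit 89478486)) T1.l7
  TrL.n)))))))) (by decide +kernel)
theorem bx4_3 : BoxOK sI cl13 cl6 cl9 t1 t3 b4_3 :=
  box_mk (TrL.c (I.pos (nat_lit 0) (nat_lit 0)) (xb T1.l0 (xa T1.l0 T1.l0))
  (TrL.c (I.pos (nat_lit 0) (nat_lit 0)) T3.l1
  (TrL.c (I.pos (nat_lit 0) (nat_lit 134217730)) (xR T1.l1 (xR T1.l1 T1.l7))
  (TrL.c (I.pos (nat_lit 0) (nat_lit 110514882)) (xR T3.l2 (xR T3.l2 T3.l2))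
  (TrL.c (I.pos (nat_lit 0) (nat_lit 0)) (xb T3.l3 T3.l3)
  (TrL.c (I.pos (nat_lit 0) (nat_lit 0)) T1.l2
  (TrL.c (I.mix (nat_lit 8088324) (nat_lit 110514882)) (xR T3.l4 (xR T3.l4 T3.l4))
  (TrL.c (I.mix (nat_lit 8088324) (nat_lit 89478486)) (xR T1.l3 T1.l3)
  TrL.n)))))))) (by decide +kernel)
theorem bx4_4 : BoxOK sI cl13 cl6 cl9 t1 t3 b4_4 :=
  box_mk (TrL.c (I.pos (nat_lit 0) (nat_lit 0)) T1.l0
  (TrL.c (I.pos (nat_lit 0) (nat_lit 0)) T3.l1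
  (TrL.c (I.pos (nat_lit 0) (nat_lit 134217730)) T1.l1
  (TrL.c (I.pos (nat_lit 0) (nat_lit 110514882)) (xR T3.l2 (xR T3.l2 T3.l2))
  (TrL.c (I.pos (nat_lit 0) (nat_lit 0)) T3.l3
  (TrL.c (I.pos (nat_lit 0) (nat_lit 0)) T1.l2
  (TrL.c (I.mix (nat_lit 8088324) (nat_lit 110514882)) T3.l4
  (TrL.c (I.mix (nat_lit 8088324) (nat_lit 89478486)) T1.l7
  TrL.n)))))))) (by decide +kernel)
theorem bx4_5 : BoxOK sI cl13 cl6 cl9 t1 t3 b4_5 :=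
  box_mk (TrL.c (I.pos (nat_lit 0) (nat_lit 0)) T1.l0
  (TrL.c (I.pos (nat_lit 0) (nat_lit 0)) T3.l1
  (TrL.c (I.pos (nat_lit 0) (nat_lit 134217730)) (xR T1.l1 T1.l1)
  (TrL.c (I.pos (nat_lit 0) (nat_lit 110514882)) (xR T3.l2 T3.l2)
  (TrL.c (I.pos (nat_lit 0) (nat_lit 0)) T3.l3
  (TrL.c (I.pos (nat_lit 0) (nat_lit 0)) T1.l2
  (TrL.c (I.mix (nat_lit 8088324) (nat_lit 110514882)) T3.l4
  (TrL.c (I.mix (nat_lit 8088324) (nat_lit 89478486)) T1.l3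
  TrL.n)))))))) (by decide +kernel)
theorem bx4_6 : BoxOK sI cl13 cl6 cl9 t1 t3 b4_6 :=
  box_mk (TrL.c (I.pos (nat_lit 0) (nat_lit 0)) T1.l0
  (TrL.c (I.pos (nat_lit 0) (nat_lit 0)) T3.l1
  (TrL.c (I.pos (nat_lit 0) (nat_lit 134217730)) (xR T1.l1 T1.l1)
  (TrL.c (I.pos (nat_lit 0) (nat_lit 110514882)) (xR T3.l2 T3.l2)
  (TrL.c (I.pos (nat_lit 0) (nat_lit 0)) T3.l3
  (TrL.c (I.pos (nat_lit 0) (nat_lit 0)) T1.l2
  (TrL.c (I.mix (nat_lit 8088324) (nat_lit 110514882)) T3.l4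
  (TrL.c (I.mix (nat_lit 8088324) (nat_lit 89478486)) T1.l3
  TrL.n)))))))) (by decide +kernel)
theorem bx4_7 : BoxOK sI cl13 cl6 cl9 t1 t3 b4_7 :=
  box_mk (TrL.c (I.pos (nat_lit 0) (nat_lit 0)) T1.l0
  (TrL.c (I.pos (nat_lit 0) (nat_lit 0)) T3.l3
  (TrL.c (I.pos (nat_lit 0) (nat_lit 134217730)) T1.l1
  (TrL.c (I.pos (nat_lit 0) (nat_lit 110514882)) T3.l4
  (TrL.c (I.pos (nat_lit 0) (nat_lit 0)) T3.l3
  (TrL.c (I.pos (nat_lit 0) (nat_lit 0)) T1.l2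
  (TrL.c (I.mix (nat_lit 8088324) (nat_lit 110514882)) T3.l4
  (TrL.c (I.mix (nat_lit 8088324) (nat_lit 89478486)) T1.l7
  TrL.n)))))))) (by decide +kernel)
theorem sv4 : StarV sI cl13 cl6 cl9 t1 t3 t4 :=
  (bt_n (bt_n (bt_n (bt_b bx4_0) (bt_b bx4_1)) (bt_n (bt_b bx4_2) (bt_b bx4_3))) (bt_n (bt_n (bt_b bx4_4) (bt_b bx4_5)) (bt_n (bt_b bx4_6) (bt_b bx4_7))))
def S4 : StarD := StarD.mk cl13 cl6 cl9 1 3 t4
theorem bx5_0 : BoxOK sI cl13 cl9 cl6 t3 t1 b5_0 :=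
  box_mk (TrL.c (I.pos (nat_lit 0) (nat_lit 0)) (xa (xa T3.l0 T3.l0) (xa T3.l0 T3.l0))
  (TrL.c (I.pos (nat_lit 0) (nat_lit 0)) T1.l4
  (TrL.c (I.pos (nat_lit 0) (nat_lit 134217730)) (xR T3.l4 (xR T3.l4 T3.l4))
  (TrL.c (I.pos (nat_lit 0) (nat_lit 110514882)) (xR T1.l3 (xR T1.l5 T1.l5))
  (TrL.c (I.pos (nat_lit 0) (nat_lit 0)) (xa T1.l6 (xk (xa T1.l6 (xb T1.l6 T1.l6)) (xa T1.l6 (xb T1.l6 T1.l6))))
  (TrL.c (I.pos (nat_lit 0) (nat_lit 0)) T3.l6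
  (TrL.c (I.mix (nat_lit 8088324) (nat_lit 110514882)) (xR T1.l7 (xR T1.l7 T1.l7))
  (TrL.c (I.mix (nat_lit 8088324) (nat_lit 89478486)) (xR T3.l2 T3.l7)
  TrL.n)))))))) (by decide +kernel)
theorem bx5_1 : BoxOK sI cl13 cl9 cl6 t3 t1 b5_1 :=
  box_mk (TrL.c (I.pos (nat_lit 0) (nat_lit 0)) T3.l0
  (TrL.c (I.pos (nat_lit 0) (nat_lit 0)) T1.l4
  (TrL.c (I.pos (nat_lit 0) (nat_lit 134217730)) (xR T3.l4 T3.l4)
  (TrL.c (I.pos (nat_lit 0) (nat_lit 110514882)) (xR T1.l1 T1.l5)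
  (TrL.c (I.pos (nat_lit 0) (nat_lit 0)) T1.l6
  (TrL.c (I.pos (nat_lit 0) (nat_lit 0)) T3.l6
  (TrL.c (I.mix (nat_lit 8088324) (nat_lit 110514882)) T1.l7
  (TrL.c (I.mix (nat_lit 8088324) (nat_lit 89478486)) T3.l2
  TrL.n)))))))) (by decide +kernel)
theorem bx5_2 : BoxOK sI cl13 cl9 cl6 t3 t1 b5_2 :=
  box_mk (TrL.c (I.pos (nat_lit 0) (nat_lit 0)) (xa T3.l0 T3.l0)
  (TrL.c (I.pos (nat_lit 0) (nat_lit 0)) T1.l4
  (TrL.c (I.pos (nat_lit 0) (nat_lit 134217730)) (xR T3.l4 (xR T3.l4 T3.l5))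
  (TrL.c (I.pos (nat_lit 0) (nat_lit 110514882)) (xR T1.l1 (xR T1.l5 T1.l5))
  (TrL.c (I.pos (nat_lit 0) (nat_lit 0)) T1.l6
  (TrL.c (I.pos (nat_lit 0) (nat_lit 0)) T3.l6
  (TrL.c (I.mix (nat_lit 8088324) (nat_lit 110514882)) T1.l7
  (TrL.c (I.mix (nat_lit 8088324) (nat_lit 89478486)) T3.l4
  TrL.n)))))))) (by decide +kernel)
theorem bx5_3 : BoxOK sI cl13 cl9 cl6 t3 t1 b5_3 :=
  box_mk (TrL.c (I.pos (nat_lit 0) (nat_lit 0)) (xa (xb T3.l0 T3.l0) (xb T3.l0 T3.l0))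
  (TrL.c (I.pos (nat_lit 0) (nat_lit 0)) T1.l4
  (TrL.c (I.pos (nat_lit 0) (nat_lit 134217730)) (xR T3.l4 (xR T3.l4 T3.l5))
  (TrL.c (I.pos (nat_lit 0) (nat_lit 110514882)) (xR T1.l3 (xR T1.l5 T1.l5))
  (TrL.c (I.pos (nat_lit 0) (nat_lit 0)) (xb T1.l6 T1.l6)
  (TrL.c (I.pos (nat_lit 0) (nat_lit 0)) T3.l6
  (TrL.c (I.mix (nat_lit 8088324) (nat_lit 110514882)) (xR T1.l7 (xR T1.l7 T1.l7))
  (TrL.c (I.mix (nat_lit 8088324) (nat_lit 89478486)) (xR T3.l2 T3.l7)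
  TrL.n)))))))) (by decide +kernel)
theorem bx5_4 : BoxOK sI cl13 cl9 cl6 t3 t1 b5_4 :=
  box_mk (TrL.c (I.pos (nat_lit 0) (nat_lit 0)) (xa T3.l0 T3.l0)
  (TrL.c (I.pos (nat_lit 0) (nat_lit 0)) T1.l4
  (TrL.c (I.pos (nat_lit 0) (nat_lit 134217730)) (xR T3.l4 (xR T3.l4 T3.l5))
  (TrL.c (I.pos (nat_lit 0) (nat_lit 110514882)) (xR T1.l1 (xR T1.l5 T1.l5))
  (TrL.c (I.pos (nat_lit 0) (nat_lit 0)) T1.l6
  (TrL.c (I.pos (nat_lit 0) (nat_lit 0)) T3.l6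
  (TrL.c (I.mix (nat_lit 8088324) (nat_lit 110514882)) T1.l7
  (TrL.c (I.mix (nat_lit 8088324) (nat_lit 89478486)) T3.l4
  TrL.n)))))))) (by decide +kernel)
theorem bx5_5 : BoxOK sI cl13 cl9 cl6 t3 t1 b5_5 :=
  box_mk (TrL.c (I.pos (nat_lit 0) (nat_lit 0)) (xa T3.l0 T3.l0)
  (TrL.c (I.pos (nat_lit 0) (nat_lit 0)) T1.l4
  (TrL.c (I.pos (nat_lit 0) (nat_lit 134217730)) (xR T3.l4 (xR T3.l4 T3.l5))
  (TrL.c (I.pos (nat_lit 0) (nat_lit 110514882)) (xR T1.l1 T1.l5)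
  (TrL.c (I.pos (nat_lit 0) (nat_lit 0)) T1.l6
  (TrL.c (I.pos (nat_lit 0) (nat_lit 0)) T3.l6
  (TrL.c (I.mix (nat_lit 8088324) (nat_lit 110514882)) T1.l7
  (TrL.c (I.mix (nat_lit 8088324) (nat_lit 89478486)) T3.l4
  TrL.n)))))))) (by decide +kernel)
theorem bx5_6 : BoxOK sI cl13 cl9 cl6 t3 t1 b5_6 :=
  box_mk (TrL.c (I.pos (nat_lit 0) (nat_lit 0)) T3.l0
  (TrL.c (I.pos (nat_lit 0) (nat_lit 0)) T1.l4
  (TrL.c (I.pos (nat_lit 0) (nat_lit 134217730)) (xR T3.l4 T3.l4)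
  (TrL.c (I.pos (nat_lit 0) (nat_lit 110514882)) (xR T1.l1 T1.l5)
  (TrL.c (I.pos (nat_lit 0) (nat_lit 0)) T1.l6
  (TrL.c (I.pos (nat_lit 0) (nat_lit 0)) T3.l6
  (TrL.c (I.mix (nat_lit 8088324) (nat_lit 110514882)) T1.l7
  (TrL.c (I.mix (nat_lit 8088324) (nat_lit 89478486)) T3.l2
  TrL.n)))))))) (by decide +kernel)
theorem bx5_7 : BoxOK sI cl13 cl9 cl6 t3 t1 b5_7 :=
  box_mk (TrL.c (I.pos (nat_lit 0) (nat_lit 0)) (xa (xa T3.l0 T3.l0) T3.l0)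
  (TrL.c (I.pos (nat_lit 0) (nat_lit 0)) T1.l4
  (TrL.c (I.pos (nat_lit 0) (nat_lit 134217730)) (xR T3.l4 (xR T3.l4 T3.l5))
  (TrL.c (I.pos (nat_lit 0) (nat_lit 110514882)) (xR T1.l1 (xR T1.l5 T1.l5))
  (TrL.c (I.pos (nat_lit 0) (nat_lit 0)) T1.l6
  (TrL.c (I.pos (nat_lit 0) (nat_lit 0)) T3.l6
  (TrL.c (I.mix (nat_lit 8088324) (nat_lit 110514882)) T1.l7
  (TrL.c (I.mix (nat_lit 8088324) (nat_lit 89478486)) T3.l4
  TrL.n)))))))) (by decide +kernel)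
theorem sv5 : StarV sI cl13 cl9 cl6 t3 t1 t5 :=
  (bt_n (bt_n (bt_n (bt_b bx5_0) (bt_b bx5_1)) (bt_n (bt_b bx5_2) (bt_b bx5_3))) (bt_n (bt_n (bt_b bx5_4) (bt_b bx5_5)) (bt_n (bt_b bx5_6) (bt_b bx5_7))))
def S5 : StarD := StarD.mk cl13 cl9 cl6 3 1 t5
def G : List StarD := [S0, S1, S2, S3, S4, S5]
theorem so0 : StarOK sI G S0 :=
  star_mk (by decide) (by decide) rfl rfl rfl rfl rfl rfl (rfl : _ = t2) (rfl : _ = t4)
  (st_mk (Pth.l (Pth.l (Pth.l Pth.z))) (nat_lit 115968115) (nat_lit 134578586) (by decide +kernel))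
  (st_mk (Pth.l (Pth.l (Pth.l Pth.z))) (nat_lit 151480123) (nat_lit 170415774) (by decide +kernel))
  (st_mk (Pth.l (Pth.l (Pth.l Pth.z))) (nat_lit 192662532) (nat_lit 212052964) (by decide +kernel)) sv0
theorem so1 : StarOK sI G S1 :=
  star_mk (by decide) (by decide) rfl rfl rfl rfl rfl rfl (rfl : _ = t4) (rfl : _ = t2)
  (st_mk (Pth.l (Pth.l (Pth.l Pth.z))) (nat_lit 96488136) (nat_lit 115073674) (by decide +kernel))
  (st_mk (Pth.l (Pth.l (Pth.l Pth.z))) (nat_lit 131950692) (nat_lit 150847406) (by decide +kernel))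
  (st_mk (Pth.l (Pth.l (Pth.l Pth.z))) (nat_lit 173091198) (nat_lit 192430690) (by decide +kernel)) sv1
theorem so2 : StarOK sI G S2 :=
  star_mk (by decide) (by decide) rfl rfl rfl rfl rfl rfl (rfl : _ = t0) (rfl : _ = t5)
  (st_mk (Pth.l (Pth.l (Pth.l Pth.z))) (nat_lit 186325686) (nat_lit 187591385) (by decide +kernel))
  (st_mk (Pth.l (Pth.l (Pth.l Pth.z))) (nat_lit 221420935) (nat_lit 222987383) (by decide +kernel))
  (st_mk (Pth.l (Pth.l (Pth.l Pth.z))) (nat_lit 261958196) (nat_lit 263938033) (by decide +kernel)) sv2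
theorem so3 : StarOK sI G S3 :=
  star_mk (by decide) (by decide) rfl rfl rfl rfl rfl rfl (rfl : _ = t5) (rfl : _ = t0)
  (st_mk (Pth.l (Pth.l (Pth.l Pth.z))) (nat_lit 96005557) (nat_lit 114424501) (by decide +kernel))
  (st_mk (Pth.l (Pth.l (Pth.l Pth.z))) (nat_lit 131051029) (nat_lit 149724627) (by decide +kernel))
  (st_mk (Pth.l (Pth.l (Pth.l Pth.z))) (nat_lit 171545175) (nat_lit 190592643) (by decide +kernel)) sv3
theorem so4 : StarOK sI G S4 :=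
  star_mk (by decide) (by decide) rfl rfl rfl rfl rfl rfl (rfl : _ = t1) (rfl : _ = t3)
  (st_mk (Pth.l (Pth.l (Pth.l Pth.z))) (nat_lit 185843017) (nat_lit 186977456) (by decide +kernel))
  (st_mk (Pth.l (Pth.l (Pth.l Pth.z))) (nat_lit 220739626) (nat_lit 222118472) (by decide +kernel))
  (st_mk (Pth.l (Pth.l (Pth.l Pth.z))) (nat_lit 261004945) (nat_lit 262718513) (by decide +kernel)) sv4
theorem so5 : StarOK sI G S5 :=
  star_mk (by decide) (by decide) rfl rfl rfl rfl rfl rfl (rfl : _ = t3) (rfl : _ = t1)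
  (st_mk (Pth.l (Pth.l (Pth.l Pth.z))) (nat_lit 115089857) (nat_lit 133383567) (by decide +kernel))
  (st_mk (Pth.l (Pth.l (Pth.l Pth.z))) (nat_lit 149986467) (nat_lit 168491955) (by decide +kernel))
  (st_mk (Pth.l (Pth.l (Pth.l Pth.z))) (nat_lit 190251785) (nat_lit 209063692) (by decide +kernel)) sv5
theorem ok : GroupOK (nat_lit 0) (nat_lit 91291648) G := grp_mk (allS_c so0 (allS_c so1 (allS_c so2 (allS_c so3 (allS_c so4 (allS_c so5 allS_n))))))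
theorem cov : GCov G cl6 cl9 cl13 := cov_mk
  ⟨0, by decide, rfl, rfl, rfl⟩ ⟨1, by decide, rfl, rfl, rfl⟩ ⟨2, by decide, rfl, rfl, rfl⟩ ⟨3, by decide, rfl, rfl, rfl⟩ ⟨4, by decide, rfl, rfl, rfl⟩ ⟨5, by decide, rfl, rfl, rfl⟩
end Q356_0

namespace Q356_1
def sI : I := I.pos (nat_lit 91226112) (nat_lit 150339584)
def b0_0 : Bx := Bx.mk (St.mk (I.pos (nat_lit 160514048) (nat_lit 238813184)) (I.mix (nat_lit 278528) (nat_lit 58736640)) (I.mix (nat_lit 278528) (nat_lit 87621632)) (I.pos (nat_lit 116260864) (nat_lit 243679232)) (I.mix (nat_lit 98123776) (nat_lit 54575104)) (I.mix (nat_lit 73891840) (nat_lit 57802752)) (I.mix (nat_lit 105644032) (nat_lit 76660736)))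
  false (nat_lit 0)
def b0_1 : Bx := Bx.mk (St.mk (I.mix (nat_lit 15089664) (nat_lit 130351104)) (I.mix (nat_lit 7602176) (nat_lit 26984448)) (I.mix (nat_lit 17072128) (nat_lit 16023552)) (I.pos (nat_lit 16646144) (nat_lit 99368960)) (I.mix (nat_lit 25067520) (nat_lit 24461312)) (I.mix (nat_lit 22822912) (nat_lit 19447808)) (I.mix (nat_lit 18186240) (nat_lit 14254080)))
  false (nat_lit 0)
def b0_2 : Bx := Bx.mk (St.mk (I.pos (nat_lit 107642880) (nat_lit 150831104)) (I.mix (nat_lit 49446912) (nat_lit 6111232)) (I.neg (nat_lit 1409024) (nat_lit 57606144)) (I.pos (nat_lit 64274432) (nat_lit 119881728)) (I.mix (nat_lit 72695808) (nat_lit 16449536)) (I.mix (nat_lit 26542080) (nat_lit 64585728)) (I.mix (nat_lit 20234240) (nat_lit 56393728)))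
  false (nat_lit 0)
def b0_3 : Bx := Bx.mk (St.mk (I.mix (nat_lit 21577728) (nat_lit 88752128)) (I.mix (nat_lit 24264704) (nat_lit 4227072)) (I.neg (nat_lit 245760) (nat_lit 19791872)) (I.pos (nat_lit 17596416) (nat_lit 65208320)) (I.mix (nat_lit 27377664) (nat_lit 9797632)) (I.mix (nat_lit 12550144) (nat_lit 22593536)) (I.mix (nat_lit 6848512) (nat_lit 12255232)))
  false (nat_lit 0)
def b0_4 : Bx := Bx.mk (St.mk (I.pos (nat_lit 207290368) (nat_lit 279986176)) (I.mix (nat_lit 25034752) (nat_lit 38305792)) (I.mix (nat_lit 83017728) (nat_lit 46481408)) (I.pos (nat_lit 204455936) (nat_lit 334921728)) (I.mix (nat_lit 58966016) (nat_lit 34897920)) (I.mix (nat_lit 41418752) (nat_lit 36519936)) (I.mix (nat_lit 70483968) (nat_lit 65290240)))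
  false (nat_lit 0)
def b0_5 : Bx := Bx.mk (St.mk (I.pos (nat_lit 108183552) (nat_lit 176832512)) (I.neg (nat_lit 180224) (nat_lit 55754752)) (I.neg (nat_lit 7356416) (nat_lit 64241664)) (I.pos (nat_lit 79020032) (nat_lit 153632768)) (I.mix (nat_lit 72056832) (nat_lit 34783232)) (I.mix (nat_lit 39010304) (nat_lit 55164928)) (I.mix (nat_lit 32292864) (nat_lit 56852480)))
  false (nat_lit 0)
def b0_6 : Bx := Bx.mk (St.mk (I.mix (nat_lit 25313280) (nat_lit 99139584)) (I.mix (nat_lit 28082176) (nat_lit 4587520)) (I.neg (nat_lit 114688) (nat_lit 24150016)) (I.pos (nat_lit 15286272) (nat_lit 73302016)) (I.mix (nat_lit 31096832) (nat_lit 24526848)) (I.mix (nat_lit 20070400) (nat_lit 30064640)) (I.mix (nat_lit 12779520) (nat_lit 19759104)))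
  false (nat_lit 0)
def b0_7 : Bx := Bx.mk (St.mk (I.pos (nat_lit 173637632) (nat_lit 222838784)) (I.mix (nat_lit 11632640) (nat_lit 59162624)) (I.mix (nat_lit 4046848) (nat_lit 84754432)) (I.pos (nat_lit 139476992) (nat_lit 219856896)) (I.mix (nat_lit 114655232) (nat_lit 45400064)) (I.mix (nat_lit 123174912) (nat_lit 65880064)) (I.mix (nat_lit 137609216) (nat_lit 67371008)))
  false (nat_lit 0)
def b0_8 : Bx := Bx.mk (St.mk (I.mix (nat_lit 19267584) (nat_lit 123617280)) (I.mix (nat_lit 11452416) (nat_lit 33275904)) (I.mix (nat_lit 12812288) (nat_lit 21069824)) (I.pos (nat_lit 17776640) (nat_lit 91521024)) (I.mix (nat_lit 39337984) (nat_lit 21741568)) (I.mix (nat_lit 39256064) (nat_lit 23838720)) (I.mix (nat_lit 25001984) (nat_lit 14925824)))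
  false (nat_lit 0)
def b0_9 : Bx := Bx.mk (St.mk (I.pos (nat_lit 189808640) (nat_lit 239042560)) (I.pos (nat_lit 9486336) (nat_lit 57491456)) (I.pos (nat_lit 8634368) (nat_lit 84344832)) (I.pos (nat_lit 187154432) (nat_lit 242352128)) (I.mix (nat_lit 79626240) (nat_lit 55787520)) (I.mix (nat_lit 71614464) (nat_lit 50626560)) (I.mix (nat_lit 109068288) (nat_lit 58949632)))
  false (nat_lit 0)
def b0_10 : Bx := Bx.mk (St.mk (I.pos (nat_lit 152633344) (nat_lit 215302144)) (I.mix (nat_lit 40927232) (nat_lit 20463616)) (I.mix (nat_lit 49643520) (nat_lit 30015488)) (I.pos (nat_lit 115081216) (nat_lit 203669504)) (I.mix (nat_lit 50298880) (nat_lit 44449792)) (I.mix (nat_lit 50937856) (nat_lit 43466752)) (I.mix (nat_lit 53231616) (nat_lit 44498944)))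
  false (nat_lit 0)
def b0_11 : Bx := Bx.mk (St.mk (I.pos (nat_lit 175013888) (nat_lit 217137152)) (I.mix (nat_lit 17743872) (nat_lit 39911424)) (I.mix (nat_lit 14778368) (nat_lit 58605568)) (I.pos (nat_lit 140656640) (nat_lit 207552512)) (I.mix (nat_lit 104120320) (nat_lit 54607872)) (I.mix (nat_lit 122994688) (nat_lit 57360384)) (I.mix (nat_lit 139689984) (nat_lit 58097664)))
  false (nat_lit 0)
def t0 : BTr := (BTr.n (BTr.n (BTr.n (BTr.b b0_0) (BTr.n (BTr.b b0_1) (BTr.b b0_2))) (BTr.n (BTr.b b0_3) (BTr.n (BTr.b b0_4) (BTr.b b0_5)))) (BTr.n (BTr.n (BTr.b b0_6) (BTr.n (BTr.b b0_7) (BTr.b b0_8))) (BTr.n (BTr.b b0_9) (BTr.n (BTr.b b0_10) (BTr.b b0_11)))))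
namespace T0
def l0 : Tr := Tr.L (Pth.l (Pth.l (Pth.l Pth.z)))
def l1 : Tr := Tr.L (Pth.l (Pth.l (Pth.r (Pth.l Pth.z))))
def l2 : Tr := Tr.L (Pth.l (Pth.l (Pth.r (Pth.r Pth.z))))
def l3 : Tr := Tr.L (Pth.l (Pth.r (Pth.l Pth.z)))
def l4 : Tr := Tr.L (Pth.l (Pth.r (Pth.r (Pth.l Pth.z))))
def l5 : Tr := Tr.L (Pth.l (Pth.r (Pth.r (Pth.r Pth.z))))
def l6 : Tr := Tr.L (Pth.r (Pth.l (Pth.l Pth.z)))
def l7 : Tr := Tr.L (Pth.r (Pth.l (Pth.r (Pth.l Pth.z))))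
def l8 : Tr := Tr.L (Pth.r (Pth.l (Pth.r (Pth.r Pth.z))))
def l9 : Tr := Tr.L (Pth.r (Pth.r (Pth.l Pth.z)))
def l10 : Tr := Tr.L (Pth.r (Pth.r (Pth.r (Pth.l Pth.z))))
def l11 : Tr := Tr.L (Pth.r (Pth.r (Pth.r (Pth.r Pth.z))))
end T0
def b1_0 : Bx := Bx.mk (St.mk (I.pos (nat_lit 160514048) (nat_lit 240353280)) (I.mix (nat_lit 278528) (nat_lit 52920320)) (I.mix (nat_lit 278528) (nat_lit 88031232)) (I.pos (nat_lit 96698368) (nat_lit 225689600)) (I.mix (nat_lit 92323840) (nat_lit 50462720)) (I.mix (nat_lit 71630848) (nat_lit 54853632)) (I.mix (nat_lit 103727104) (nat_lit 71155712)))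
  false (nat_lit 0)
def b1_1 : Bx := Bx.mk (St.mk (I.mix (nat_lit 10649600) (nat_lit 139739136)) (I.mix (nat_lit 6832128) (nat_lit 23117824)) (I.mix (nat_lit 12828672) (nat_lit 18251776)) (I.mix (nat_lit 557056) (nat_lit 89178112)) (I.mix (nat_lit 24772608) (nat_lit 21086208)) (I.mix (nat_lit 21676032) (nat_lit 17383424)) (I.mix (nat_lit 18743296) (nat_lit 14385152)))
  false (nat_lit 0)
def b1_2 : Bx := Bx.mk (St.mk (I.pos (nat_lit 117653504) (nat_lit 158318592)) (I.mix (nat_lit 45547520) (nat_lit 5636096)) (I.mix (nat_lit 52838400) (nat_lit 1392640)) (I.pos (nat_lit 54345728) (nat_lit 109543424)) (I.mix (nat_lit 68173824) (nat_lit 15941632)) (I.mix (nat_lit 24838144) (nat_lit 62521344)) (I.mix (nat_lit 21118976) (nat_lit 58490880)))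
  false (nat_lit 0)
def b1_3 : Bx := Bx.mk (St.mk (I.mix (nat_lit 12075008) (nat_lit 104235008)) (I.mix (nat_lit 21659648) (nat_lit 3620864)) (I.mix (nat_lit 18317312) (nat_lit 557056)) (I.mix (nat_lit 557056) (nat_lit 56672256)) (I.mix (nat_lit 26460160) (nat_lit 10731520)) (I.mix (nat_lit 13352960) (nat_lit 23871488)) (I.mix (nat_lit 7979008) (nat_lit 15138816)))
  false (nat_lit 0)
def b1_4 : Bx := Bx.mk (St.mk (I.pos (nat_lit 207912960) (nat_lit 280428544)) (I.mix (nat_lit 23330816) (nat_lit 36175872)) (I.mix (nat_lit 67371008) (nat_lit 54771712)) (I.pos (nat_lit 186318848) (nat_lit 316047360)) (I.mix (nat_lit 58392576) (nat_lit 33521664)) (I.mix (nat_lit 40697856) (nat_lit 34947072)) (I.mix (nat_lit 69779456) (nat_lit 59228160)))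
  false (nat_lit 0)
def b1_5 : Bx := Bx.mk (St.mk (I.pos (nat_lit 117915648) (nat_lit 183353344)) (I.neg (nat_lit 245760) (nat_lit 52740096)) (I.neg (nat_lit 3817472) (nat_lit 58834944)) (I.pos (nat_lit 70123520) (nat_lit 142770176)) (I.mix (nat_lit 68714496) (nat_lit 33701888)) (I.mix (nat_lit 38010880) (nat_lit 52576256)) (I.mix (nat_lit 33177600) (nat_lit 55705600)))
  false (nat_lit 0)
def b1_6 : Bx := Bx.mk (St.mk (I.mix (nat_lit 10338304) (nat_lit 113328128)) (I.mix (nat_lit 25083904) (nat_lit 5357568)) (I.mix (nat_lit 20709376) (nat_lit 655360)) (I.mix (nat_lit 557056) (nat_lit 64618496)) (I.mix (nat_lit 25722880) (nat_lit 20267008)) (I.mix (nat_lit 17235968) (nat_lit 23740416)) (I.mix (nat_lit 10272768) (nat_lit 17072128)))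
  false (nat_lit 0)
def b1_7 : Bx := Bx.mk (St.mk (I.pos (nat_lit 177111040) (nat_lit 222429184)) (I.mix (nat_lit 13041664) (nat_lit 53084160)) (I.mix (nat_lit 1851392) (nat_lit 83214336)) (I.pos (nat_lit 124092416) (nat_lit 199852032)) (I.mix (nat_lit 115376128) (nat_lit 46039040)) (I.mix (nat_lit 126124032) (nat_lit 64503808)) (I.mix (nat_lit 147619840) (nat_lit 66650112)))
  false (nat_lit 0)
def b1_8 : Bx := Bx.mk (St.mk (I.mix (nat_lit 9715712) (nat_lit 133660672)) (I.mix (nat_lit 12664832) (nat_lit 31293440)) (I.mix (nat_lit 12255232) (nat_lit 23691264)) (I.mix (nat_lit 557056) (nat_lit 81543168)) (I.mix (nat_lit 40878080) (nat_lit 20267008)) (I.mix (nat_lit 39419904) (nat_lit 22609920)) (I.mix (nat_lit 28508160) (nat_lit 15745024)))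
  false (nat_lit 0)
def b1_9 : Bx := Bx.mk (St.mk (I.pos (nat_lit 156762112) (nat_lit 217169920)) (I.mix (nat_lit 42319872) (nat_lit 17317888)) (I.mix (nat_lit 49217536) (nat_lit 30130176)) (I.pos (nat_lit 101744640) (nat_lit 186990592)) (I.mix (nat_lit 48955392) (nat_lit 44646400)) (I.mix (nat_lit 50790400) (nat_lit 43237376)) (I.mix (nat_lit 54001664) (nat_lit 45875200)))
  false (nat_lit 0)
def b1_10 : Bx := Bx.mk (St.mk (I.pos (nat_lit 177717248) (nat_lit 218546176)) (I.mix (nat_lit 19496960) (nat_lit 36765696)) (I.mix (nat_lit 12730368) (nat_lit 59162624)) (I.pos (nat_lit 124059648) (nat_lit 190136320)) (I.mix (nat_lit 102809600) (nat_lit 51609600)) (I.mix (nat_lit 122028032) (nat_lit 50708480)) (I.mix (nat_lit 144310272) (nat_lit 51036160)))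
  false (nat_lit 0)
def b1_11 : Bx := Bx.mk (St.mk (I.pos (nat_lit 192921600) (nat_lit 240156672)) (I.pos (nat_lit 8503296) (nat_lit 52527104)) (I.pos (nat_lit 12566528) (nat_lit 85524480)) (I.pos (nat_lit 171081728) (nat_lit 223920128)) (I.mix (nat_lit 77987840) (nat_lit 54853632)) (I.mix (nat_lit 72450048) (nat_lit 51003392)) (I.mix (nat_lit 113000448) (nat_lit 62603264)))
  false (nat_lit 0)
def t1 : BTr := (BTr.n (BTr.n (BTr.n (BTr.b b1_0) (BTr.n (BTr.b b1_1) (BTr.b b1_2))) (BTr.n (BTr.b b1_3) (BTr.n (BTr.b b1_4) (BTr.b b1_5)))) (BTr.n (BTr.n (BTr.b b1_6) (BTr.n (BTr.b b1_7) (BTr.b b1_8))) (BTr.n (BTr.b b1_9) (BTr.n (BTr.b b1_10) (BTr.b b1_11)))))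
namespace T1
def l0 : Tr := Tr.L (Pth.l (Pth.l (Pth.l Pth.z)))
def l1 : Tr := Tr.L (Pth.l (Pth.l (Pth.r (Pth.l Pth.z))))
def l2 : Tr := Tr.L (Pth.l (Pth.l (Pth.r (Pth.r Pth.z))))
def l3 : Tr := Tr.L (Pth.l (Pth.r (Pth.l Pth.z)))
def l4 : Tr := Tr.L (Pth.l (Pth.r (Pth.r (Pth.l Pth.z))))
def l5 : Tr := Tr.L (Pth.l (Pth.r (Pth.r (Pth.r Pth.z))))
def l6 : Tr := Tr.L (Pth.r (Pth.l (Pth.l Pth.z)))
def l7 : Tr := Tr.L (Pth.r (Pth.l (Pth.r (Pth.l Pth.z))))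
def l8 : Tr := Tr.L (Pth.r (Pth.l (Pth.r (Pth.r Pth.z))))
def l9 : Tr := Tr.L (Pth.r (Pth.r (Pth.l Pth.z)))
def l10 : Tr := Tr.L (Pth.r (Pth.r (Pth.r (Pth.l Pth.z))))
def l11 : Tr := Tr.L (Pth.r (Pth.r (Pth.r (Pth.r Pth.z))))
end T1
def b2_0 : Bx := Bx.mk (St.mk (I.pos (nat_lit 158728192) (nat_lit 233766912)) (I.mix (nat_lit 278528) (nat_lit 65912832)) (I.mix (nat_lit 278528) (nat_lit 96976896)) (I.pos (nat_lit 185942016) (nat_lit 288833536)) (I.mix (nat_lit 96944128) (nat_lit 59768832)) (I.mix (nat_lit 68632576) (nat_lit 57556992)) (I.mix (nat_lit 98172928) (nat_lit 77594624)))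
  false (nat_lit 66276581)
def b2_1 : Bx := Bx.mk (St.mk (I.mix (nat_lit 38207488) (nat_lit 94863360)) (I.mix (nat_lit 6586368) (nat_lit 39518208)) (I.mix (nat_lit 16760832) (nat_lit 15089664)) (I.pos (nat_lit 76611584) (nat_lit 123781120)) (I.mix (nat_lit 28966912) (nat_lit 39780352)) (I.mix (nat_lit 38174720) (nat_lit 24920064)) (I.mix (nat_lit 24870912) (nat_lit 13582336)))
  false (nat_lit 0)
def b2_2 : Bx := Bx.mk (St.mk (I.pos (nat_lit 81592320) (nat_lit 123027456)) (I.mix (nat_lit 55345152) (nat_lit 7028736)) (I.neg (nat_lit 4767744) (nat_lit 52264960)) (I.pos (nat_lit 114065408) (nat_lit 145899520)) (I.mix (nat_lit 62996480) (nat_lit 21069824)) (I.mix (nat_lit 24166400) (nat_lit 60801024)) (I.mix (nat_lit 17645568) (nat_lit 42303488)))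
  false (nat_lit 0)
def b2_3 : Bx := Bx.mk (St.mk (I.mix (nat_lit 45809664) (nat_lit 27295744)) (I.mix (nat_lit 31309824) (nat_lit 5062656)) (I.mix (nat_lit 11567104) (nat_lit 2064384)) (I.pos (nat_lit 83247104) (nat_lit 99778560)) (I.mix (nat_lit 29081600) (nat_lit 17186816)) (I.mix (nat_lit 15253504) (nat_lit 27049984)) (I.mix (nat_lit 9863168) (nat_lit 5259264)))
  false (nat_lit 0)
def b2_4 : Bx := Bx.mk (St.mk (I.pos (nat_lit 93372416) (nat_lit 159383552)) (I.neg (nat_lit 7372800) (nat_lit 60112896)) (I.neg (nat_lit 4620288) (nat_lit 56573952)) (I.pos (nat_lit 128303104) (nat_lit 184926208)) (I.mix (nat_lit 62046208) (nat_lit 33751040)) (I.mix (nat_lit 29392896) (nat_lit 51494912)) (I.mix (nat_lit 23101440) (nat_lit 45531136)))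
  false (nat_lit 0)
def b2_5 : Bx := Bx.mk (St.mk (I.mix (nat_lit 30326784) (nat_lit 44269568)) (I.mix (nat_lit 31932416) (nat_lit 4276224)) (I.mix (nat_lit 13762560) (nat_lit 1081344)) (I.pos (nat_lit 82624512) (nat_lit 100220928)) (I.mix (nat_lit 21872640) (nat_lit 24870912)) (I.mix (nat_lit 15532032) (nat_lit 27246592)) (I.mix (nat_lit 6520832) (nat_lit 9961472)))
  false (nat_lit 0)
def b2_6 : Bx := Bx.mk (St.mk (I.pos (nat_lit 161611776) (nat_lit 214614016)) (I.mix (nat_lit 196608) (nat_lit 65044480)) (I.pos (nat_lit 12353536) (nat_lit 93192192)) (I.pos (nat_lit 196034560) (nat_lit 256098304)) (I.mix (nat_lit 105283584) (nat_lit 32620544)) (I.mix (nat_lit 102416384) (nat_lit 49053696)) (I.mix (nat_lit 98287616) (nat_lit 43909120)))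
  false (nat_lit 16086664)
def b2_7 : Bx := Bx.mk (St.mk (I.mix (nat_lit 45088768) (nat_lit 68108288)) (I.mix (nat_lit 7618560) (nat_lit 34193408)) (I.mix (nat_lit 13942784) (nat_lit 10584064)) (I.pos (nat_lit 82624512) (nat_lit 106545152)) (I.mix (nat_lit 35143680) (nat_lit 26640384)) (I.mix (nat_lit 35946496) (nat_lit 20594688)) (I.mix (nat_lit 13385728) (nat_lit 13500416)))
  false (nat_lit 0)
def b2_8 : Bx := Bx.mk (St.mk (I.pos (nat_lit 194494464) (nat_lit 280494080)) (I.mix (nat_lit 21970944) (nat_lit 48316416)) (I.mix (nat_lit 78397440) (nat_lit 61980672)) (I.pos (nat_lit 252559360) (nat_lit 381747200)) (I.mix (nat_lit 72138752) (nat_lit 43515904)) (I.mix (nat_lit 56934400) (nat_lit 33701888)) (I.mix (nat_lit 80740352) (nat_lit 64126976)))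
  false (nat_lit 44436489)
def b2_9 : Bx := Bx.mk (St.mk (I.pos (nat_lit 142852096) (nat_lit 198049792)) (I.mix (nat_lit 36536320) (nat_lit 18284544)) (I.mix (nat_lit 33882112) (nat_lit 34422784)) (I.pos (nat_lit 171556864) (nat_lit 230293504)) (I.mix (nat_lit 42221568) (nat_lit 41828352)) (I.mix (nat_lit 45613056) (nat_lit 40812544)) (I.mix (nat_lit 43253760) (nat_lit 38273024)))
  false (nat_lit 0)
def b2_10 : Bx := Bx.mk (St.mk (I.pos (nat_lit 167215104) (nat_lit 203685888)) (I.mix (nat_lit 7651328) (nat_lit 41091072)) (I.pos (nat_lit 2195456) (nat_lit 65290240)) (I.pos (nat_lit 201113600) (nat_lit 239091712)) (I.mix (nat_lit 100139008) (nat_lit 47464448)) (I.mix (nat_lit 115982336) (nat_lit 51085312)) (I.mix (nat_lit 117571584) (nat_lit 45858816)))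
  false (nat_lit 0)
def b2_11 : Bx := Bx.mk (St.mk (I.pos (nat_lit 176685056) (nat_lit 233979904)) (I.pos (nat_lit 10895360) (nat_lit 67174400)) (I.pos (nat_lit 11976704) (nat_lit 96862208)) (I.pos (nat_lit 234274816) (nat_lit 285327360)) (I.mix (nat_lit 102563840) (nat_lit 73662464)) (I.mix (nat_lit 96174080) (nat_lit 65830912)) (I.mix (nat_lit 139411456) (nat_lit 78331904)))
  false (nat_lit 67345972)
def t2 : BTr := (BTr.n (BTr.n (BTr.n (BTr.b b2_0) (BTr.n (BTr.b b2_1) (BTr.b b2_2))) (BTr.n (BTr.b b2_3) (BTr.n (BTr.b b2_4) (BTr.b b2_5)))) (BTr.n (BTr.n (BTr.b b2_6) (BTr.n (BTr.b b2_7) (BTr.b b2_8))) (BTr.n (BTr.b b2_9) (BTr.n (BTr.b b2_10) (BTr.b b2_11)))))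
namespace T2
def l0 : Tr := Tr.L (Pth.l (Pth.l (Pth.l Pth.z)))
def l1 : Tr := Tr.L (Pth.l (Pth.l (Pth.r (Pth.l Pth.z))))
def l2 : Tr := Tr.L (Pth.l (Pth.l (Pth.r (Pth.r Pth.z))))
def l3 : Tr := Tr.L (Pth.l (Pth.r (Pth.l Pth.z)))
def l4 : Tr := Tr.L (Pth.l (Pth.r (Pth.r (Pth.l Pth.z))))
def l5 : Tr := Tr.L (Pth.l (Pth.r (Pth.r (Pth.r Pth.z))))
def l6 : Tr := Tr.L (Pth.r (Pth.l (Pth.l Pth.z)))
def l7 : Tr := Tr.L (Pth.r (Pth.l (Pth.r (Pth.l Pth.z))))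
def l8 : Tr := Tr.L (Pth.r (Pth.l (Pth.r (Pth.r Pth.z))))
def l9 : Tr := Tr.L (Pth.r (Pth.r (Pth.l Pth.z)))
def l10 : Tr := Tr.L (Pth.r (Pth.r (Pth.r (Pth.l Pth.z))))
def l11 : Tr := Tr.L (Pth.r (Pth.r (Pth.r (Pth.r Pth.z))))
end T2
def b3_0 : Bx := Bx.mk (St.mk (I.pos (nat_lit 160514048) (nat_lit 239796224)) (I.mix (nat_lit 278528) (nat_lit 50020352)) (I.mix (nat_lit 278528) (nat_lit 103219200)) (I.pos (nat_lit 96043008) (nat_lit 217776128)) (I.mix (nat_lit 99057664) (nat_lit 58130432)) (I.mix (nat_lit 84541440) (nat_lit 65388544)) (I.mix (nat_lit 119963648) (nat_lit 86130688)))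
  false (nat_lit 27615490)
def b3_1 : Bx := Bx.mk (St.mk (I.pos (nat_lit 124010496) (nat_lit 188235776)) (I.neg (nat_lit 5160960) (nat_lit 52969472)) (I.mix (nat_lit 47431680) (nat_lit 6406144)) (I.pos (nat_lit 74825728) (nat_lit 147947520)) (I.mix (nat_lit 58736640) (nat_lit 29425664)) (I.mix (nat_lit 31506432) (nat_lit 41304064)) (I.mix (nat_lit 26738688) (nat_lit 42795008)))
  false (nat_lit 0)
def b3_2 : Bx := Bx.mk (St.mk (I.mix (nat_lit 7258112) (nat_lit 115490816)) (I.mix (nat_lit 24182784) (nat_lit 3407872)) (I.mix (nat_lit 14860288) (nat_lit 7159808)) (I.mix (nat_lit 557056) (nat_lit 65896448)) (I.mix (nat_lit 20725760) (nat_lit 16629760)) (I.mix (nat_lit 13598720) (nat_lit 17121280)) (I.mix (nat_lit 9240576) (nat_lit 12206080)))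
  false (nat_lit 0)
def b3_3 : Bx := Bx.mk (St.mk (I.pos (nat_lit 175734784) (nat_lit 218529792)) (I.mix (nat_lit 13533184) (nat_lit 48840704)) (I.pos (nat_lit 9011200) (nat_lit 94437376)) (I.pos (nat_lit 117620736) (nat_lit 190595072)) (I.mix (nat_lit 110559232) (nat_lit 44908544)) (I.mix (nat_lit 119422976) (nat_lit 62570496)) (I.mix (nat_lit 144195584) (nat_lit 59539456)))
  false (nat_lit 11248588)
def b3_4 : Bx := Bx.mk (St.mk (I.mix (nat_lit 10305536) (nat_lit 132153344)) (I.mix (nat_lit 11354112) (nat_lit 30916608)) (I.mix (nat_lit 4636672) (nat_lit 30949376)) (I.mix (nat_lit 557056) (nat_lit 79773696)) (I.mix (nat_lit 42778624) (nat_lit 18644992)) (I.mix (nat_lit 38780928) (nat_lit 21479424)) (I.mix (nat_lit 29147136) (nat_lit 13615104)))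
  false (nat_lit 0)
def b3_5 : Bx := Bx.mk (St.mk (I.pos (nat_lit 158728192) (nat_lit 211107840)) (I.mix (nat_lit 35733504) (nat_lit 10240000)) (I.mix (nat_lit 26263552) (nat_lit 37224448)) (I.pos (nat_lit 101826560) (nat_lit 176619520)) (I.mix (nat_lit 36683776) (nat_lit 41271296)) (I.mix (nat_lit 39698432) (nat_lit 39288832)) (I.mix (nat_lit 41451520) (nat_lit 42450944)))
  false (nat_lit 0)
def b3_6 : Bx := Bx.mk (St.mk (I.mix (nat_lit 12124160) (nat_lit 137969664)) (I.mix (nat_lit 5799936) (nat_lit 22675456)) (I.mix (nat_lit 2621440) (nat_lit 26066944)) (I.mix (nat_lit 344064) (nat_lit 87326720)) (I.mix (nat_lit 29769728) (nat_lit 24444928)) (I.mix (nat_lit 29704192) (nat_lit 21643264)) (I.mix (nat_lit 25935872) (nat_lit 16334848)))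
  false (nat_lit 0)
def b3_7 : Bx := Bx.mk (St.mk (I.pos (nat_lit 119193600) (nat_lit 163037184)) (I.mix (nat_lit 49102848) (nat_lit 6799360)) (I.mix (nat_lit 45137920) (nat_lit 11730944)) (I.pos (nat_lit 55689216) (nat_lit 114622464)) (I.mix (nat_lit 66027520) (nat_lit 21561344)) (I.mix (nat_lit 27410432) (nat_lit 62717952)) (I.mix (nat_lit 24100864) (nat_lit 54968320)))
  false (nat_lit 0)
def b3_8 : Bx := Bx.mk (St.mk (I.mix (nat_lit 11059200) (nat_lit 106954752)) (I.mix (nat_lit 22282240) (nat_lit 2523136)) (I.mix (nat_lit 13238272) (nat_lit 5603328)) (I.mix (nat_lit 65536) (nat_lit 57819136)) (I.mix (nat_lit 26230784) (nat_lit 14139392)) (I.mix (nat_lit 15220736) (nat_lit 24707072)) (I.mix (nat_lit 8978432) (nat_lit 14860288)))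
  false (nat_lit 0)
def b3_9 : Bx := Bx.mk (St.mk (I.pos (nat_lit 197017600) (nat_lit 279298048)) (I.mix (nat_lit 19513344) (nat_lit 35274752)) (I.mix (nat_lit 27443200) (nat_lit 80232448)) (I.pos (nat_lit 171294720) (nat_lit 306905088)) (I.mix (nat_lit 67665920) (nat_lit 42680320)) (I.mix (nat_lit 52887552) (nat_lit 28950528)) (I.mix (nat_lit 82362368) (nat_lit 47710208)))
  false (nat_lit 16714325)
def b3_10 : Bx := Bx.mk (St.mk (I.pos (nat_lit 185057280) (nat_lit 238829568)) (I.pos (nat_lit 11960320) (nat_lit 49643520)) (I.pos (nat_lit 34308096) (nat_lit 102301696)) (I.pos (nat_lit 158351360) (nat_lit 213975040)) (I.mix (nat_lit 91586560) (nat_lit 65830912)) (I.mix (nat_lit 93077504) (nat_lit 63340544)) (I.mix (nat_lit 145129472) (nat_lit 81428480)))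
  false (nat_lit 37441930)
def b3_11 : Bx := Bx.mk (St.mk (I.pos (nat_lit 176259072) (nat_lit 214351872)) (I.mix (nat_lit 19038208) (nat_lit 32325632)) (I.pos (nat_lit 2801664) (nat_lit 69795840)) (I.pos (nat_lit 117637120) (nat_lit 181796864)) (I.mix (nat_lit 95764480) (nat_lit 39862272)) (I.mix (nat_lit 108003328) (nat_lit 42369024)) (I.mix (nat_lit 131153920) (nat_lit 43663360)))
  false (nat_lit 0)
def t3 : BTr := (BTr.n (BTr.n (BTr.n (BTr.b b3_0) (BTr.n (BTr.b b3_1) (BTr.b b3_2))) (BTr.n (BTr.b b3_3) (BTr.n (BTr.b b3_4) (BTr.b b3_5)))) (BTr.n (BTr.n (BTr.b b3_6) (BTr.n (BTr.b b3_7) (BTr.b b3_8))) (BTr.n (BTr.b b3_9) (BTr.n (BTr.b b3_10) (BTr.b b3_11)))))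
namespace T3
def l0 : Tr := Tr.L (Pth.l (Pth.l (Pth.l Pth.z)))
def l1 : Tr := Tr.L (Pth.l (Pth.l (Pth.r (Pth.l Pth.z))))
def l2 : Tr := Tr.L (Pth.l (Pth.l (Pth.r (Pth.r Pth.z))))
def l3 : Tr := Tr.L (Pth.l (Pth.r (Pth.l Pth.z)))
def l4 : Tr := Tr.L (Pth.l (Pth.r (Pth.r (Pth.l Pth.z))))
def l5 : Tr := Tr.L (Pth.l (Pth.r (Pth.r (Pth.r Pth.z))))
def l6 : Tr := Tr.L (Pth.r (Pth.l (Pth.l Pth.z)))
def l7 : Tr := Tr.L (Pth.r (Pth.l (Pth.r (Pth.l Pth.z))))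
def l8 : Tr := Tr.L (Pth.r (Pth.l (Pth.r (Pth.r Pth.z))))
def l9 : Tr := Tr.L (Pth.r (Pth.r (Pth.l Pth.z)))
def l10 : Tr := Tr.L (Pth.r (Pth.r (Pth.r (Pth.l Pth.z))))
def l11 : Tr := Tr.L (Pth.r (Pth.r (Pth.r (Pth.r Pth.z))))
end T3
def b4_0 : Bx := Bx.mk (St.mk (I.pos (nat_lit 155910144) (nat_lit 233046016)) (I.mix (nat_lit 278528) (nat_lit 63684608)) (I.mix (nat_lit 278528) (nat_lit 103350272)) (I.pos (nat_lit 185286656) (nat_lit 285278208)) (I.mix (nat_lit 98467840) (nat_lit 57573376)) (I.mix (nat_lit 69533696) (nat_lit 57671680)) (I.mix (nat_lit 99254272) (nat_lit 74448896)))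
  false (nat_lit 65475199)
def b4_1 : Bx := Bx.mk (St.mk (I.pos (nat_lit 95961088) (nat_lit 161497088)) (I.neg (nat_lit 7618560) (nat_lit 60637184)) (I.mix (nat_lit 52117504) (nat_lit 2785280)) (I.pos (nat_lit 130564096) (nat_lit 186990592)) (I.mix (nat_lit 60276736) (nat_lit 34258944)) (I.mix (nat_lit 29638656) (nat_lit 49086464)) (I.mix (nat_lit 24461312) (nat_lit 42860544)))
  false (nat_lit 0)
def b4_2 : Bx := Bx.mk (St.mk (I.mix (nat_lit 28770304) (nat_lit 45531136)) (I.mix (nat_lit 32014336) (nat_lit 5013504)) (I.mix (nat_lit 10141696) (nat_lit 4620288)) (I.pos (nat_lit 83001344) (nat_lit 99991552)) (I.mix (nat_lit 20135936) (nat_lit 26329088)) (I.mix (nat_lit 15974400) (nat_lit 26034176)) (I.mix (nat_lit 5881856) (nat_lit 9437184)))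
  false (nat_lit 0)
def b4_3 : Bx := Bx.mk (St.mk (I.pos (nat_lit 160546816) (nat_lit 210075648)) (I.mix (nat_lit 671744) (nat_lit 64110592)) (I.pos (nat_lit 18284544) (nat_lit 99614720)) (I.pos (nat_lit 192430080) (nat_lit 251576320)) (I.mix (nat_lit 108675072) (nat_lit 33587200)) (I.mix (nat_lit 107855872) (nat_lit 50249728)) (I.mix (nat_lit 105791488) (nat_lit 44974080)))
  false (nat_lit 41568712)
def b4_4 : Bx := Bx.mk (St.mk (I.mix (nat_lit 46202880) (nat_lit 73105408)) (I.mix (nat_lit 8519680) (nat_lit 37961728)) (I.mix (nat_lit 11993088) (nat_lit 15007744)) (I.pos (nat_lit 82886656) (nat_lit 108740608)) (I.mix (nat_lit 36929536) (nat_lit 23887872)) (I.mix (nat_lit 34979840) (nat_lit 21020672)) (I.mix (nat_lit 12812288) (nat_lit 12861440)))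
  false (nat_lit 0)
def b4_5 : Bx := Bx.mk (St.mk (I.mix (nat_lit 40206336) (nat_lit 93585408)) (I.mix (nat_lit 4685824) (nat_lit 39731200)) (I.mix (nat_lit 11386880) (nat_lit 19972096)) (I.pos (nat_lit 75825152) (nat_lit 123813888)) (I.mix (nat_lit 31391744) (nat_lit 38141952)) (I.mix (nat_lit 39190528) (nat_lit 24100864)) (I.mix (nat_lit 25329664) (nat_lit 14548992)))
  false (nat_lit 0)
def b4_6 : Bx := Bx.mk (St.mk (I.pos (nat_lit 82788352) (nat_lit 124846080)) (I.mix (nat_lit 56475648) (nat_lit 5079040)) (I.neg (nat_lit 1818624) (nat_lit 48316416)) (I.pos (nat_lit 115130368) (nat_lit 147537920)) (I.mix (nat_lit 59785216) (nat_lit 22478848)) (I.mix (nat_lit 24461312) (nat_lit 60129280)) (I.mix (nat_lit 17481728) (nat_lit 41123840)))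
  false (nat_lit 0)
def b4_7 : Bx := Bx.mk (St.mk (I.mix (nat_lit 44810240) (nat_lit 28721152)) (I.mix (nat_lit 31473664) (nat_lit 3653632)) (I.mix (nat_lit 8273920) (nat_lit 5652480)) (I.pos (nat_lit 83296256) (nat_lit 99794944)) (I.mix (nat_lit 27574272) (nat_lit 18677760)) (I.mix (nat_lit 15007744) (nat_lit 27394048)) (I.mix (nat_lit 10010624) (nat_lit 5570560)))
  false (nat_lit 0)
def b4_8 : Bx := Bx.mk (St.mk (I.pos (nat_lit 142376960) (nat_lit 196362240)) (I.mix (nat_lit 37830656) (nat_lit 16318464)) (I.mix (nat_lit 28672000) (nat_lit 39485440)) (I.pos (nat_lit 170065920) (nat_lit 226983936)) (I.mix (nat_lit 42631168) (nat_lit 42811392)) (I.mix (nat_lit 45219840) (nat_lit 41009152)) (I.mix (nat_lit 42614784) (nat_lit 38731776)))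
  false (nat_lit 0)
def b4_9 : Bx := Bx.mk (St.mk (I.pos (nat_lit 191168512) (nat_lit 278593536)) (I.mix (nat_lit 15073280) (nat_lit 45367296)) (I.mix (nat_lit 51625984) (nat_lit 70664192)) (I.pos (nat_lit 246530048) (nat_lit 376324096)) (I.mix (nat_lit 73302016) (nat_lit 43991040)) (I.mix (nat_lit 57262080) (nat_lit 30408704)) (I.mix (nat_lit 82034688) (nat_lit 46137344)))
  false (nat_lit 48473383)
def b4_10 : Bx := Bx.mk (St.mk (I.pos (nat_lit 175603712) (nat_lit 230113280)) (I.pos (nat_lit 18923520) (nat_lit 64094208)) (I.pos (nat_lit 32309248) (nat_lit 102383616)) (I.pos (nat_lit 230047744) (nat_lit 278020096)) (I.mix (nat_lit 103268352) (nat_lit 73957376)) (I.mix (nat_lit 99516416) (nat_lit 65994752)) (I.mix (nat_lit 145178624) (nat_lit 76087296)))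
  false (nat_lit 61776208)
def b4_11 : Bx := Bx.mk (St.mk (I.pos (nat_lit 164970496) (nat_lit 202014720)) (I.mix (nat_lit 8273920) (nat_lit 41598976)) (I.pos (nat_lit 8404992) (nat_lit 73351168)) (I.pos (nat_lit 196444160) (nat_lit 235765760)) (I.mix (nat_lit 104841216) (nat_lit 46301184)) (I.mix (nat_lit 117522432) (nat_lit 50233344)) (I.mix (nat_lit 119783424) (nat_lit 46153728)))
  false (nat_lit 0)
def t4 : BTr := (BTr.n (BTr.n (BTr.n (BTr.b b4_0) (BTr.n (BTr.b b4_1) (BTr.b b4_2))) (BTr.n (BTr.b b4_3) (BTr.n (BTr.b b4_4) (BTr.b b4_5)))) (BTr.n (BTr.n (BTr.b b4_6) (BTr.n (BTr.b b4_7) (BTr.b b4_8))) (BTr.n (BTr.b b4_9) (BTr.n (BTr.b b4_10) (BTr.b b4_11)))))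
namespace T4
def l0 : Tr := Tr.L (Pth.l (Pth.l (Pth.l Pth.z)))
def l1 : Tr := Tr.L (Pth.l (Pth.l (Pth.r (Pth.l Pth.z))))
def l2 : Tr := Tr.L (Pth.l (Pth.l (Pth.r (Pth.r Pth.z))))
def l3 : Tr := Tr.L (Pth.l (Pth.r (Pth.l Pth.z)))
def l4 : Tr := Tr.L (Pth.l (Pth.r (Pth.r (Pth.l Pth.z))))
def l5 : Tr := Tr.L (Pth.l (Pth.r (Pth.r (Pth.r Pth.z))))
def l6 : Tr := Tr.L (Pth.r (Pth.l (Pth.l Pth.z)))
def l7 : Tr := Tr.L (Pth.r (Pth.l (Pth.r (Pth.l Pth.z))))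
def l8 : Tr := Tr.L (Pth.r (Pth.l (Pth.r (Pth.r Pth.z))))
def l9 : Tr := Tr.L (Pth.r (Pth.r (Pth.l Pth.z)))
def l10 : Tr := Tr.L (Pth.r (Pth.r (Pth.r (Pth.l Pth.z))))
def l11 : Tr := Tr.L (Pth.r (Pth.r (Pth.r (Pth.r Pth.z))))
end T4
def b5_0 : Bx := Bx.mk (St.mk (I.pos (nat_lit 160514048) (nat_lit 238272512)) (I.mix (nat_lit 278528) (nat_lit 53313536)) (I.mix (nat_lit 278528) (nat_lit 109527040)) (I.pos (nat_lit 115064832) (nat_lit 233308160)) (I.mix (nat_lit 104579072) (nat_lit 59506688)) (I.mix (nat_lit 88473600) (nat_lit 67158016)) (I.mix (nat_lit 122142720) (nat_lit 86196224)))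
  false (nat_lit 54260643)
def b5_1 : Bx := Bx.mk (St.mk (I.pos (nat_lit 116408320) (nat_lit 183844864)) (I.neg (nat_lit 6111232) (nat_lit 56180736)) (I.mix (nat_lit 47316992) (nat_lit 10764288)) (I.pos (nat_lit 85819392) (nat_lit 160628736)) (I.mix (nat_lit 59785216) (nat_lit 30441472)) (I.mix (nat_lit 31703040) (nat_lit 41500672)) (I.mix (nat_lit 28360704) (nat_lit 40386560)))
  false (nat_lit 0)
def b5_2 : Bx := Bx.mk (St.mk (I.mix (nat_lit 24805376) (nat_lit 102580224)) (I.mix (nat_lit 29704192) (nat_lit 4161536)) (I.mix (nat_lit 14876672) (nat_lit 9486336)) (I.pos (nat_lit 15548416) (nat_lit 74743808)) (I.mix (nat_lit 23887872) (nat_lit 24723456)) (I.mix (nat_lit 18972672) (nat_lit 22462464)) (I.mix (nat_lit 10960896) (nat_lit 13582336)))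
  false (nat_lit 0)
def b5_3 : Bx := Bx.mk (St.mk (I.pos (nat_lit 170754048) (nat_lit 216924160)) (I.mix (nat_lit 11780096) (nat_lit 53051392)) (I.pos (nat_lit 13418496) (nat_lit 100450304)) (I.pos (nat_lit 129826816) (nat_lit 206635008)) (I.mix (nat_lit 114769920) (nat_lit 39403520)) (I.mix (nat_lit 117866496) (nat_lit 56705024)) (I.mix (nat_lit 139509760) (nat_lit 54427648)))
  false (nat_lit 32693358)
def b5_4 : Bx := Bx.mk (St.mk (I.mix (nat_lit 20381696) (nat_lit 120012800)) (I.mix (nat_lit 12107776) (nat_lit 33046528)) (I.mix (nat_lit 3276800) (nat_lit 32129024)) (I.pos (nat_lit 17661952) (nat_lit 88817664)) (I.mix (nat_lit 43761664) (nat_lit 17252352)) (I.mix (nat_lit 39976960) (nat_lit 21905408)) (I.mix (nat_lit 26836992) (nat_lit 13320192)))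
  false (nat_lit 0)
def b5_5 : Bx := Bx.mk (St.mk (I.pos (nat_lit 154484736) (nat_lit 207503360)) (I.mix (nat_lit 36339712) (nat_lit 11091968)) (I.mix (nat_lit 23281664) (nat_lit 42057728)) (I.pos (nat_lit 114573312) (nat_lit 189841408)) (I.mix (nat_lit 37650432) (nat_lit 41877504)) (I.mix (nat_lit 39534592) (nat_lit 39829504)) (I.mix (nat_lit 40189952) (nat_lit 41713664)))
  false (nat_lit 0)
def b5_6 : Bx := Bx.mk (St.mk (I.mix (nat_lit 18104320) (nat_lit 127729664)) (I.mix (nat_lit 4325376) (nat_lit 26230784)) (I.mix (nat_lit 606208) (nat_lit 28475392)) (I.pos (nat_lit 16187392) (nat_lit 96862208)) (I.mix (nat_lit 32210944) (nat_lit 25493504)) (I.mix (nat_lit 32145408) (nat_lit 21692416)) (I.mix (nat_lit 25985024) (nat_lit 16351232)))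
  false (nat_lit 0)
def b5_7 : Bx := Bx.mk (St.mk (I.pos (nat_lit 110231552) (nat_lit 157564928)) (I.mix (nat_lit 53510144) (nat_lit 5095424)) (I.mix (nat_lit 45121536) (nat_lit 10305536)) (I.pos (nat_lit 66551808) (nat_lit 126779392)) (I.mix (nat_lit 65454080) (nat_lit 23953408)) (I.mix (nat_lit 28835840) (nat_lit 60833792)) (I.mix (nat_lit 23216128) (nat_lit 49987584)))
  false (nat_lit 0)
def b5_8 : Bx := Bx.mk (St.mk (I.pos (nat_lit 171327488) (nat_lit 211320832)) (I.mix (nat_lit 17793024) (nat_lit 36306944)) (I.pos (nat_lit 6651904) (nat_lit 78577664)) (I.pos (nat_lit 129728512) (nat_lit 196050944)) (I.mix (nat_lit 102383616) (nat_lit 41582592)) (I.mix (nat_lit 114130944) (nat_lit 43384832)) (I.mix (nat_lit 134561792) (nat_lit 43204608)))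
  false (nat_lit 3693014)
def b5_9 : Bx := Bx.mk (St.mk (I.mix (nat_lit 15958016) (nat_lit 90849280)) (I.neg (nat_lit 1835008) (nat_lit 24641536)) (I.mix (nat_lit 11698176) (nat_lit 6848512)) (I.pos (nat_lit 17842176) (nat_lit 66732032)) (I.mix (nat_lit 26165248) (nat_lit 16269312)) (I.mix (nat_lit 16400384) (nat_lit 25133056)) (I.mix (nat_lit 8142848) (nat_lit 12615680)))
  false (nat_lit 0)
def b5_10 : Bx := Bx.mk (St.mk (I.pos (nat_lit 193200128) (nat_lit 278134784)) (I.mix (nat_lit 13778944) (nat_lit 38420480)) (I.mix (nat_lit 14303232) (nat_lit 86687744)) (I.pos (nat_lit 183681024) (nat_lit 322158592)) (I.mix (nat_lit 69419008) (nat_lit 44023808)) (I.mix (nat_lit 54345728) (nat_lit 32063488)) (I.mix (nat_lit 83427328) (nat_lit 48807936)))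
  false (nat_lit 12625304)
def b5_11 : Bx := Bx.mk (St.mk (I.pos (nat_lit 181567488) (nat_lit 235880448)) (I.pos (nat_lit 13156352) (nat_lit 51576832)) (I.pos (nat_lit 37617664) (nat_lit 106201088)) (I.pos (nat_lit 170950656) (nat_lit 227082240)) (I.mix (nat_lit 96698368) (nat_lit 66666496)) (I.mix (nat_lit 96124928) (nat_lit 65290240)) (I.mix (nat_lit 147750912) (nat_lit 82608128)))
  false (nat_lit 30404258)
def t5 : BTr := (BTr.n (BTr.n (BTr.n (BTr.b b5_0) (BTr.n (BTr.b b5_1) (BTr.b b5_2))) (BTr.n (BTr.b b5_3) (BTr.n (BTr.b b5_4) (BTr.b b5_5)))) (BTr.n (BTr.n (BTr.b b5_6) (BTr.n (BTr.b b5_7) (BTr.b b5_8))) (BTr.n (BTr.b b5_9) (BTr.n (BTr.b b5_10) (BTr.b b5_11)))))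
namespace T5
def l0 : Tr := Tr.L (Pth.l (Pth.l (Pth.l Pth.z)))
def l1 : Tr := Tr.L (Pth.l (Pth.l (Pth.r (Pth.l Pth.z))))
def l2 : Tr := Tr.L (Pth.l (Pth.l (Pth.r (Pth.r Pth.z))))
def l3 : Tr := Tr.L (Pth.l (Pth.r (Pth.l Pth.z)))
def l4 : Tr := Tr.L (Pth.l (Pth.r (Pth.r (Pth.l Pth.z))))
def l5 : Tr := Tr.L (Pth.l (Pth.r (Pth.r (Pth.r Pth.z))))
def l6 : Tr := Tr.L (Pth.r (Pth.l (Pth.l Pth.z)))
def l7 : Tr := Tr.L (Pth.r (Pth.l (Pth.r (Pth.l Pth.z))))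
def l8 : Tr := Tr.L (Pth.r (Pth.l (Pth.r (Pth.r Pth.z))))
def l9 : Tr := Tr.L (Pth.r (Pth.r (Pth.l Pth.z)))
def l10 : Tr := Tr.L (Pth.r (Pth.r (Pth.r (Pth.l Pth.z))))
def l11 : Tr := Tr.L (Pth.r (Pth.r (Pth.r (Pth.r Pth.z))))
end T5
theorem bx0_0 : BoxOK sI cl6 cl9 cl13 t2 t4 b0_0 :=
  box_mk (TrL.c (I.pos (nat_lit 0) (nat_lit 0)) (xa T2.l0 T2.l0)
  (TrL.c (I.pos (nat_lit 0) (nat_lit 0)) T4.l1
  (TrL.c (I.pos (nat_lit 0) (nat_lit 89480386)) T2.l1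
  (TrL.c (I.pos (nat_lit 0) (nat_lit 41530880)) T4.l2
  (TrL.c (I.pos (nat_lit 0) (nat_lit 0)) T4.l3
  (TrL.c (I.pos (nat_lit 0) (nat_lit 0)) T2.l2
  (TrL.c (I.mix (nat_lit 41527258) (nat_lit 41530880)) T4.l4
  (TrL.c (I.mix (nat_lit 41527258) (nat_lit 4274)) T2.l3
  TrL.n)))))))) (by decide +kernel)
theorem bx0_1 : BoxOK sI cl6 cl9 cl13 t2 t4 b0_1 :=
  box_mk (TrL.c (I.pos (nat_lit 0) (nat_lit 0)) (xa T2.l8 T2.l8)
  (TrL.c (I.pos (nat_lit 0) (nat_lit 0)) T4.l1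
  (TrL.c (I.pos (nat_lit 0) (nat_lit 89480386)) T2.l1
  (TrL.c (I.pos (nat_lit 0) (nat_lit 41530880)) T4.l2
  (TrL.c (I.pos (nat_lit 0) (nat_lit 0)) T4.l8
  (TrL.c (I.pos (nat_lit 0) (nat_lit 0)) T2.l2
  (TrL.c (I.mix (nat_lit 41527258) (nat_lit 41530880)) T4.l4
  (TrL.c (I.mix (nat_lit 41527258) (nat_lit 4274)) T2.l3
  TrL.n)))))))) (by decide +kernel)
theorem bx0_2 : BoxOK sI cl6 cl9 cl13 t2 t4 b0_2 :=
  box_mk (TrL.c (I.pos (nat_lit 0) (nat_lit 0)) T2.l8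
  (TrL.c (I.pos (nat_lit 0) (nat_lit 0)) T4.l1
  (TrL.c (I.pos (nat_lit 0) (nat_lit 89480386)) T2.l1
  (TrL.c (I.pos (nat_lit 0) (nat_lit 41530880)) T4.l2
  (TrL.c (I.pos (nat_lit 0) (nat_lit 0)) T4.l8
  (TrL.c (I.pos (nat_lit 0) (nat_lit 0)) T2.l2
  (TrL.c (I.mix (nat_lit 41527258) (nat_lit 41530880)) T4.l4
  (TrL.c (I.mix (nat_lit 41527258) (nat_lit 4274)) T2.l3
  TrL.n)))))))) (by decide +kernel)
theorem bx0_3 : BoxOK sI cl6 cl9 cl13 t2 t4 b0_3 :=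
  box_mk (TrL.c (I.pos (nat_lit 0) (nat_lit 0)) T2.l8
  (TrL.c (I.pos (nat_lit 0) (nat_lit 0)) T4.l1
  (TrL.c (I.pos (nat_lit 0) (nat_lit 89480386)) T2.l1
  (TrL.c (I.pos (nat_lit 0) (nat_lit 41530880)) T4.l2
  (TrL.c (I.pos (nat_lit 0) (nat_lit 0)) T4.l8
  (TrL.c (I.pos (nat_lit 0) (nat_lit 0)) T2.l2
  (TrL.c (I.mix (nat_lit 41527258) (nat_lit 41530880)) T4.l4
  (TrL.c (I.mix (nat_lit 41527258) (nat_lit 4274)) T2.l3
  TrL.n)))))))) (by decide +kernel)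
theorem bx0_4 : BoxOK sI cl6 cl9 cl13 t2 t4 b0_4 :=
  box_mk (TrL.c (I.pos (nat_lit 0) (nat_lit 0)) (xa T2.l0 T2.l0)
  (TrL.c (I.pos (nat_lit 0) (nat_lit 0)) T4.l1
  (TrL.c (I.pos (nat_lit 0) (nat_lit 89480386)) T2.l1
  (TrL.c (I.pos (nat_lit 0) (nat_lit 41530880)) T4.l2
  (TrL.c (I.pos (nat_lit 0) (nat_lit 0)) (xa T4.l3 T4.l3)
  (TrL.c (I.pos (nat_lit 0) (nat_lit 0)) T2.l2
  (TrL.c (I.mix (nat_lit 41527258) (nat_lit 41530880)) T4.l4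
  (TrL.c (I.mix (nat_lit 41527258) (nat_lit 4274)) T2.l3
  TrL.n)))))))) (by decide +kernel)
theorem bx0_5 : BoxOK sI cl6 cl9 cl13 t2 t4 b0_5 :=
  box_mk (TrL.c (I.pos (nat_lit 0) (nat_lit 0)) T2.l8
  (TrL.c (I.pos (nat_lit 0) (nat_lit 0)) T4.l1
  (TrL.c (I.pos (nat_lit 0) (nat_lit 89480386)) T2.l1
  (TrL.c (I.pos (nat_lit 0) (nat_lit 41530880)) T4.l2
  (TrL.c (I.pos (nat_lit 0) (nat_lit 0)) T4.l8
  (TrL.c (I.pos (nat_lit 0) (nat_lit 0)) T2.l2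
  (TrL.c (I.mix (nat_lit 41527258) (nat_lit 41530880)) T4.l4
  (TrL.c (I.mix (nat_lit 41527258) (nat_lit 4274)) T2.l3
  TrL.n)))))))) (by decide +kernel)
theorem bx0_6 : BoxOK sI cl6 cl9 cl13 t2 t4 b0_6 :=
  box_mk (TrL.c (I.pos (nat_lit 0) (nat_lit 0)) (xa (xa T2.l8 T2.l8) T2.l8)
  (TrL.c (I.pos (nat_lit 0) (nat_lit 0)) T4.l1
  (TrL.c (I.pos (nat_lit 0) (nat_lit 89480386)) T2.l1
  (TrL.c (I.pos (nat_lit 0) (nat_lit 41530880)) T4.l2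
  (TrL.c (I.pos (nat_lit 0) (nat_lit 0)) T4.l8
  (TrL.c (I.pos (nat_lit 0) (nat_lit 0)) T2.l2
  (TrL.c (I.mix (nat_lit 41527258) (nat_lit 41530880)) T4.l4
  (TrL.c (I.mix (nat_lit 41527258) (nat_lit 4274)) T2.l3
  TrL.n)))))))) (by decide +kernel)
theorem bx0_7 : BoxOK sI cl6 cl9 cl13 t2 t4 b0_7 :=
  box_mk (TrL.c (I.pos (nat_lit 0) (nat_lit 0)) T2.l11
  (TrL.c (I.pos (nat_lit 0) (nat_lit 0)) T4.l1
  (TrL.c (I.pos (nat_lit 0) (nat_lit 89480386)) T2.l1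
  (TrL.c (I.pos (nat_lit 0) (nat_lit 41530880)) T4.l2
  (TrL.c (I.pos (nat_lit 0) (nat_lit 0)) T4.l11
  (TrL.c (I.pos (nat_lit 0) (nat_lit 0)) T2.l2
  (TrL.c (I.mix (nat_lit 41527258) (nat_lit 41530880)) T4.l4
  (TrL.c (I.mix (nat_lit 41527258) (nat_lit 4274)) T2.l3
  TrL.n)))))))) (by decide +kernel)
theorem bx0_8 : BoxOK sI cl6 cl9 cl13 t2 t4 b0_8 :=
  box_mk (TrL.c (I.pos (nat_lit 0) (nat_lit 0)) (xa (xa (xb T2.l8 T2.l8) T2.l8) (xa T2.l8 T2.l8))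
  (TrL.c (I.pos (nat_lit 0) (nat_lit 0)) T4.l1
  (TrL.c (I.pos (nat_lit 0) (nat_lit 89480386)) T2.l1
  (TrL.c (I.pos (nat_lit 0) (nat_lit 41530880)) T4.l2
  (TrL.c (I.pos (nat_lit 0) (nat_lit 0)) T4.l8
  (TrL.c (I.pos (nat_lit 0) (nat_lit 0)) T2.l2
  (TrL.c (I.mix (nat_lit 41527258) (nat_lit 41530880)) T4.l4
  (TrL.c (I.mix (nat_lit 41527258) (nat_lit 4274)) T2.l3
  TrL.n)))))))) (by decide +kernel)
theorem bx0_9 : BoxOK sI cl6 cl9 cl13 t2 t4 b0_9 :=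
  box_mk (TrL.c (I.pos (nat_lit 0) (nat_lit 0)) T2.l0
  (TrL.c (I.pos (nat_lit 0) (nat_lit 0)) T4.l1
  (TrL.c (I.pos (nat_lit 0) (nat_lit 89480386)) T2.l1
  (TrL.c (I.pos (nat_lit 0) (nat_lit 41530880)) T4.l2
  (TrL.c (I.pos (nat_lit 0) (nat_lit 0)) T4.l3
  (TrL.c (I.pos (nat_lit 0) (nat_lit 0)) T2.l2
  (TrL.c (I.mix (nat_lit 41527258) (nat_lit 41530880)) T4.l4
  (TrL.c (I.mix (nat_lit 41527258) (nat_lit 4274)) T2.l3
  TrL.n)))))))) (by decide +kernel)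
theorem bx0_10 : BoxOK sI cl6 cl9 cl13 t2 t4 b0_10 :=
  box_mk (TrL.c (I.pos (nat_lit 0) (nat_lit 0)) T2.l11
  (TrL.c (I.pos (nat_lit 0) (nat_lit 0)) T4.l1
  (TrL.c (I.pos (nat_lit 0) (nat_lit 89480386)) T2.l1
  (TrL.c (I.pos (nat_lit 0) (nat_lit 41530880)) T4.l2
  (TrL.c (I.pos (nat_lit 0) (nat_lit 0)) T4.l11
  (TrL.c (I.pos (nat_lit 0) (nat_lit 0)) T2.l2
  (TrL.c (I.mix (nat_lit 41527258) (nat_lit 41530880)) T4.l4
  (TrL.c (I.mix (nat_lit 41527258) (nat_lit 4274)) T2.l3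
  TrL.n)))))))) (by decide +kernel)
theorem bx0_11 : BoxOK sI cl6 cl9 cl13 t2 t4 b0_11 :=
  box_mk (TrL.c (I.pos (nat_lit 0) (nat_lit 0)) T2.l11
  (TrL.c (I.pos (nat_lit 0) (nat_lit 0)) T4.l1
  (TrL.c (I.pos (nat_lit 0) (nat_lit 89480386)) T2.l1
  (TrL.c (I.pos (nat_lit 0) (nat_lit 41530880)) T4.l2
  (TrL.c (I.pos (nat_lit 0) (nat_lit 0)) T4.l11
  (TrL.c (I.pos (nat_lit 0) (nat_lit 0)) T2.l2
  (TrL.c (I.mix (nat_lit 41527258) (nat_lit 41530880)) T4.l5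
  (TrL.c (I.mix (nat_lit 41527258) (nat_lit 4274)) T2.l3
  TrL.n)))))))) (by decide +kernel)
theorem sv0 : StarV sI cl6 cl9 cl13 t2 t4 t0 :=
  (bt_n (bt_n (bt_n (bt_b bx0_0) (bt_n (bt_b bx0_1) (bt_b bx0_2))) (bt_n (bt_b bx0_3) (bt_n (bt_b bx0_4) (bt_b bx0_5)))) (bt_n (bt_n (bt_b bx0_6) (bt_n (bt_b bx0_7) (bt_b bx0_8))) (bt_n (bt_b bx0_9) (bt_n (bt_b bx0_10) (bt_b bx0_11)))))
def S0 : StarD := StarD.mk cl6 cl9 cl13 2 4 t0
theorem bx1_0 : BoxOK sI cl6 cl13 cl9 t4 t2 b1_0 :=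
  box_mk (TrL.c (I.pos (nat_lit 0) (nat_lit 0)) (xa T4.l0 T4.l0)
  (TrL.c (I.pos (nat_lit 0) (nat_lit 0)) T2.l4
  (TrL.c (I.pos (nat_lit 0) (nat_lit 89480386)) T4.l5
  (TrL.c (I.pos (nat_lit 0) (nat_lit 41530880)) T2.l5
  (TrL.c (I.pos (nat_lit 0) (nat_lit 0)) T2.l6
  (TrL.c (I.pos (nat_lit 0) (nat_lit 0)) T4.l6
  (TrL.c (I.mix (nat_lit 41527258) (nat_lit 41530880)) T2.l7
  (TrL.c (I.mix (nat_lit 41527258) (nat_lit 4274)) T4.l7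
  TrL.n)))))))) (by decide +kernel)
theorem bx1_1 : BoxOK sI cl6 cl13 cl9 t4 t2 b1_1 :=
  box_mk (TrL.c (I.pos (nat_lit 0) (nat_lit 0)) (xa T4.l9 (xa T4.l9 T4.l9))
  (TrL.c (I.pos (nat_lit 0) (nat_lit 0)) T2.l4
  (TrL.c (I.pos (nat_lit 0) (nat_lit 89480386)) T4.l5
  (TrL.c (I.pos (nat_lit 0) (nat_lit 41530880)) T2.l5
  (TrL.c (I.pos (nat_lit 0) (nat_lit 0)) T2.l9
  (TrL.c (I.pos (nat_lit 0) (nat_lit 0)) T4.l6
  (TrL.c (I.mix (nat_lit 41527258) (nat_lit 41530880)) T2.l7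
  (TrL.c (I.mix (nat_lit 41527258) (nat_lit 4274)) T4.l7
  TrL.n)))))))) (by decide +kernel)
theorem bx1_2 : BoxOK sI cl6 cl13 cl9 t4 t2 b1_2 :=
  box_mk (TrL.c (I.pos (nat_lit 0) (nat_lit 0)) T4.l9
  (TrL.c (I.pos (nat_lit 0) (nat_lit 0)) T2.l4
  (TrL.c (I.pos (nat_lit 0) (nat_lit 89480386)) T4.l5
  (TrL.c (I.pos (nat_lit 0) (nat_lit 41530880)) T2.l5
  (TrL.c (I.pos (nat_lit 0) (nat_lit 0)) T2.l9
  (TrL.c (I.pos (nat_lit 0) (nat_lit 0)) T4.l6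
  (TrL.c (I.mix (nat_lit 41527258) (nat_lit 41530880)) T2.l7
  (TrL.c (I.mix (nat_lit 41527258) (nat_lit 4274)) T4.l7
  TrL.n)))))))) (by decide +kernel)
theorem bx1_3 : BoxOK sI cl6 cl13 cl9 t4 t2 b1_3 :=
  box_mk (TrL.c (I.pos (nat_lit 0) (nat_lit 0)) (xa T4.l9 T4.l9)
  (TrL.c (I.pos (nat_lit 0) (nat_lit 0)) T2.l4
  (TrL.c (I.pos (nat_lit 0) (nat_lit 89480386)) T4.l5
  (TrL.c (I.pos (nat_lit 0) (nat_lit 41530880)) T2.l5
  (TrL.c (I.pos (nat_lit 0) (nat_lit 0)) T2.l9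
  (TrL.c (I.pos (nat_lit 0) (nat_lit 0)) T4.l6
  (TrL.c (I.mix (nat_lit 41527258) (nat_lit 41530880)) T2.l7
  (TrL.c (I.mix (nat_lit 41527258) (nat_lit 4274)) T4.l7
  TrL.n)))))))) (by decide +kernel)
theorem bx1_4 : BoxOK sI cl6 cl13 cl9 t4 t2 b1_4 :=
  box_mk (TrL.c (I.pos (nat_lit 0) (nat_lit 0)) (xa T4.l0 T4.l0)
  (TrL.c (I.pos (nat_lit 0) (nat_lit 0)) T2.l4
  (TrL.c (I.pos (nat_lit 0) (nat_lit 89480386)) T4.l5
  (TrL.c (I.pos (nat_lit 0) (nat_lit 41530880)) T2.l5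
  (TrL.c (I.pos (nat_lit 0) (nat_lit 0)) (xa T2.l6 T2.l6)
  (TrL.c (I.pos (nat_lit 0) (nat_lit 0)) T4.l6
  (TrL.c (I.mix (nat_lit 41527258) (nat_lit 41530880)) T2.l1
  (TrL.c (I.mix (nat_lit 41527258) (nat_lit 4274)) T4.l7
  TrL.n)))))))) (by decide +kernel)
theorem bx1_5 : BoxOK sI cl6 cl13 cl9 t4 t2 b1_5 :=
  box_mk (TrL.c (I.pos (nat_lit 0) (nat_lit 0)) T4.l9
  (TrL.c (I.pos (nat_lit 0) (nat_lit 0)) T2.l4
  (TrL.c (I.pos (nat_lit 0) (nat_lit 89480386)) T4.l5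
  (TrL.c (I.pos (nat_lit 0) (nat_lit 41530880)) T2.l5
  (TrL.c (I.pos (nat_lit 0) (nat_lit 0)) T2.l9
  (TrL.c (I.pos (nat_lit 0) (nat_lit 0)) T4.l6
  (TrL.c (I.mix (nat_lit 41527258) (nat_lit 41530880)) T2.l7
  (TrL.c (I.mix (nat_lit 41527258) (nat_lit 4274)) T4.l7
  TrL.n)))))))) (by decide +kernel)
theorem bx1_6 : BoxOK sI cl6 cl13 cl9 t4 t2 b1_6 :=
  box_mk (TrL.c (I.pos (nat_lit 0) (nat_lit 0)) (xa (xa T4.l9 T4.l9) T4.l9)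
  (TrL.c (I.pos (nat_lit 0) (nat_lit 0)) T2.l4
  (TrL.c (I.pos (nat_lit 0) (nat_lit 89480386)) T4.l5
  (TrL.c (I.pos (nat_lit 0) (nat_lit 41530880)) T2.l5
  (TrL.c (I.pos (nat_lit 0) (nat_lit 0)) T2.l9
  (TrL.c (I.pos (nat_lit 0) (nat_lit 0)) T4.l6
  (TrL.c (I.mix (nat_lit 41527258) (nat_lit 41530880)) T2.l7
  (TrL.c (I.mix (nat_lit 41527258) (nat_lit 4274)) T4.l7
  TrL.n)))))))) (by decide +kernel)
theorem bx1_7 : BoxOK sI cl6 cl13 cl9 t4 t2 b1_7 :=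
  box_mk (TrL.c (I.pos (nat_lit 0) (nat_lit 0)) T4.l10
  (TrL.c (I.pos (nat_lit 0) (nat_lit 0)) T2.l4
  (TrL.c (I.pos (nat_lit 0) (nat_lit 89480386)) T4.l5
  (TrL.c (I.pos (nat_lit 0) (nat_lit 41530880)) T2.l5
  (TrL.c (I.pos (nat_lit 0) (nat_lit 0)) T2.l10
  (TrL.c (I.pos (nat_lit 0) (nat_lit 0)) T4.l6
  (TrL.c (I.mix (nat_lit 41527258) (nat_lit 41530880)) T2.l7
  (TrL.c (I.mix (nat_lit 41527258) (nat_lit 4274)) T4.l7
  TrL.n)))))))) (by decide +kernel)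
theorem bx1_8 : BoxOK sI cl6 cl13 cl9 t4 t2 b1_8 :=
  box_mk (TrL.c (I.pos (nat_lit 0) (nat_lit 0)) (xa (xa (xb T4.l9 T4.l9) T4.l9) (xa T4.l9 T4.l9))
  (TrL.c (I.pos (nat_lit 0) (nat_lit 0)) T2.l4
  (TrL.c (I.pos (nat_lit 0) (nat_lit 89480386)) T4.l5
  (TrL.c (I.pos (nat_lit 0) (nat_lit 41530880)) T2.l5
  (TrL.c (I.pos (nat_lit 0) (nat_lit 0)) T2.l9
  (TrL.c (I.pos (nat_lit 0) (nat_lit 0)) T4.l6
  (TrL.c (I.mix (nat_lit 41527258) (nat_lit 41530880)) T2.l7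
  (TrL.c (I.mix (nat_lit 41527258) (nat_lit 4274)) T4.l7
  TrL.n)))))))) (by decide +kernel)
theorem bx1_9 : BoxOK sI cl6 cl13 cl9 t4 t2 b1_9 :=
  box_mk (TrL.c (I.pos (nat_lit 0) (nat_lit 0)) T4.l0
  (TrL.c (I.pos (nat_lit 0) (nat_lit 0)) T2.l4
  (TrL.c (I.pos (nat_lit 0) (nat_lit 89480386)) T4.l5
  (TrL.c (I.pos (nat_lit 0) (nat_lit 41530880)) T2.l5
  (TrL.c (I.pos (nat_lit 0) (nat_lit 0)) T2.l10
  (TrL.c (I.pos (nat_lit 0) (nat_lit 0)) T4.l6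
  (TrL.c (I.mix (nat_lit 41527258) (nat_lit 41530880)) T2.l7
  (TrL.c (I.mix (nat_lit 41527258) (nat_lit 4274)) T4.l7
  TrL.n)))))))) (by decide +kernel)
theorem bx1_10 : BoxOK sI cl6 cl13 cl9 t4 t2 b1_10 :=
  box_mk (TrL.c (I.pos (nat_lit 0) (nat_lit 0)) T4.l10
  (TrL.c (I.pos (nat_lit 0) (nat_lit 0)) T2.l4
  (TrL.c (I.pos (nat_lit 0) (nat_lit 89480386)) T4.l5
  (TrL.c (I.pos (nat_lit 0) (nat_lit 41530880)) T2.l5
  (TrL.c (I.pos (nat_lit 0) (nat_lit 0)) T2.l10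
  (TrL.c (I.pos (nat_lit 0) (nat_lit 0)) T4.l6
  (TrL.c (I.mix (nat_lit 41527258) (nat_lit 41530880)) T2.l1
  (TrL.c (I.mix (nat_lit 41527258) (nat_lit 4274)) T4.l7
  TrL.n)))))))) (by decide +kernel)
theorem bx1_11 : BoxOK sI cl6 cl13 cl9 t4 t2 b1_11 :=
  box_mk (TrL.c (I.pos (nat_lit 0) (nat_lit 0)) T4.l0
  (TrL.c (I.pos (nat_lit 0) (nat_lit 0)) T2.l4
  (TrL.c (I.pos (nat_lit 0) (nat_lit 89480386)) T4.l5
  (TrL.c (I.pos (nat_lit 0) (nat_lit 41530880)) T2.l5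
  (TrL.c (I.pos (nat_lit 0) (nat_lit 0)) T2.l6
  (TrL.c (I.pos (nat_lit 0) (nat_lit 0)) T4.l6
  (TrL.c (I.mix (nat_lit 41527258) (nat_lit 41530880)) T2.l7
  (TrL.c (I.mix (nat_lit 41527258) (nat_lit 4274)) T4.l7
  TrL.n)))))))) (by decide +kernel)
theorem sv1 : StarV sI cl6 cl13 cl9 t4 t2 t1 :=
  (bt_n (bt_n (bt_n (bt_b bx1_0) (bt_n (bt_b bx1_1) (bt_b bx1_2))) (bt_n (bt_b bx1_3) (bt_n (bt_b bx1_4) (bt_b bx1_5)))) (bt_n (bt_n (bt_b bx1_6) (bt_n (bt_b bx1_7) (bt_b bx1_8))) (bt_n (bt_b bx1_9) (bt_n (bt_b bx1_10) (bt_b bx1_11)))))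
def S1 : StarD := StarD.mk cl6 cl13 cl9 4 2 t1
theorem bx2_0 : BoxOK sI cl9 cl6 cl13 t0 t5 b2_0 :=
  box_mk (TrL.c (I.pos (nat_lit 0) (nat_lit 0)) (xa T0.l0 T0.l0)
  (TrL.c (I.pos (nat_lit 0) (nat_lit 0)) T5.l1
  (TrL.c (I.pos (nat_lit 0) (nat_lit 124588530)) (xR T0.l1 T0.l1)
  (TrL.c (I.pos (nat_lit 0) (nat_lit 96881482)) T5.l2
  (TrL.c (I.pos (nat_lit 0) (nat_lit 0)) (xa T5.l3 T5.l3)
  (TrL.c (I.pos (nat_lit 0) (nat_lit 0)) T0.l2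
  (TrL.c (I.mix (nat_lit 17240550) (nat_lit 96881482)) (xR T5.l4 T5.l4)
  (TrL.c (I.mix (nat_lit 17240550) (nat_lit 71940500)) T0.l6
  TrL.n)))))))) (by decide +kernel)
theorem bx2_1 : BoxOK sI cl9 cl6 cl13 t0 t5 b2_1 :=
  box_mk (TrL.c (I.pos (nat_lit 0) (nat_lit 0)) (xa (xa T0.l4 T0.l4) T0.l4)
  (TrL.c (I.pos (nat_lit 0) (nat_lit 0)) T5.l1
  (TrL.c (I.pos (nat_lit 0) (nat_lit 124588530)) (xR T0.l1 T0.l1)
  (TrL.c (I.pos (nat_lit 0) (nat_lit 96881482)) T5.l2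
  (TrL.c (I.pos (nat_lit 0) (nat_lit 0)) T5.l5
  (TrL.c (I.pos (nat_lit 0) (nat_lit 0)) T0.l2
  (TrL.c (I.mix (nat_lit 17240550) (nat_lit 96881482)) (xR T5.l4 T5.l4)
  (TrL.c (I.mix (nat_lit 17240550) (nat_lit 71940500)) T0.l3
  TrL.n)))))))) (by decide +kernel)
theorem bx2_2 : BoxOK sI cl9 cl6 cl13 t0 t5 b2_2 :=
  box_mk (TrL.c (I.pos (nat_lit 0) (nat_lit 0)) T0.l4
  (TrL.c (I.pos (nat_lit 0) (nat_lit 0)) T5.l1
  (TrL.c (I.pos (nat_lit 0) (nat_lit 124588530)) T0.l1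
  (TrL.c (I.pos (nat_lit 0) (nat_lit 96881482)) T5.l2
  (TrL.c (I.pos (nat_lit 0) (nat_lit 0)) T5.l5
  (TrL.c (I.pos (nat_lit 0) (nat_lit 0)) T0.l2
  (TrL.c (I.mix (nat_lit 17240550) (nat_lit 96881482)) T5.l4
  (TrL.c (I.mix (nat_lit 17240550) (nat_lit 71940500)) T0.l3
  TrL.n)))))))) (by decide +kernel)
theorem bx2_3 : BoxOK sI cl9 cl6 cl13 t0 t5 b2_3 :=
  box_mk (TrL.c (I.pos (nat_lit 0) (nat_lit 0)) (xa T0.l4 T0.l4)
  (TrL.c (I.pos (nat_lit 0) (nat_lit 0)) T5.l5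
  (TrL.c (I.pos (nat_lit 0) (nat_lit 124588530)) T0.l1
  (TrL.c (I.pos (nat_lit 0) (nat_lit 96881482)) T5.l4
  (TrL.c (I.pos (nat_lit 0) (nat_lit 0)) T5.l1
  (TrL.c (I.pos (nat_lit 0) (nat_lit 0)) T0.l1
  (TrL.c (I.mix (nat_lit 17240550) (nat_lit 96881482)) T5.l2
  (TrL.c (I.mix (nat_lit 17240550) (nat_lit 71940500)) T0.l3
  TrL.n)))))))) (by decide +kernel)
theorem bx2_4 : BoxOK sI cl9 cl6 cl13 t0 t5 b2_4 :=
  box_mk (TrL.c (I.pos (nat_lit 0) (nat_lit 0)) T0.l4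
  (TrL.c (I.pos (nat_lit 0) (nat_lit 0)) T5.l1
  (TrL.c (I.pos (nat_lit 0) (nat_lit 124588530)) (xR T0.l1 T0.l1)
  (TrL.c (I.pos (nat_lit 0) (nat_lit 96881482)) T5.l2
  (TrL.c (I.pos (nat_lit 0) (nat_lit 0)) T5.l5
  (TrL.c (I.pos (nat_lit 0) (nat_lit 0)) T0.l2
  (TrL.c (I.mix (nat_lit 17240550) (nat_lit 96881482)) T5.l4
  (TrL.c (I.mix (nat_lit 17240550) (nat_lit 71940500)) T0.l3
  TrL.n)))))))) (by decide +kernel)
theorem bx2_5 : BoxOK sI cl9 cl6 cl13 t0 t5 b2_5 :=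
  box_mk (TrL.c (I.pos (nat_lit 0) (nat_lit 0)) T0.l4
  (TrL.c (I.pos (nat_lit 0) (nat_lit 0)) T5.l5
  (TrL.c (I.pos (nat_lit 0) (nat_lit 124588530)) T0.l1
  (TrL.c (I.pos (nat_lit 0) (nat_lit 96881482)) T5.l4
  (TrL.c (I.pos (nat_lit 0) (nat_lit 0)) T5.l5
  (TrL.c (I.pos (nat_lit 0) (nat_lit 0)) T0.l2
  (TrL.c (I.mix (nat_lit 17240550) (nat_lit 96881482)) (xR T5.l4 T5.l4)
  (TrL.c (I.mix (nat_lit 17240550) (nat_lit 71940500)) T0.l3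
  TrL.n)))))))) (by decide +kernel)
theorem bx2_6 : BoxOK sI cl9 cl6 cl13 t0 t5 b2_6 :=
  box_mk (TrL.c (I.pos (nat_lit 0) (nat_lit 0)) T0.l9
  (TrL.c (I.pos (nat_lit 0) (nat_lit 0)) T5.l1
  (TrL.c (I.pos (nat_lit 0) (nat_lit 124588530)) (xR T0.l1 T0.l1)
  (TrL.c (I.pos (nat_lit 0) (nat_lit 96881482)) T5.l2
  (TrL.c (I.pos (nat_lit 0) (nat_lit 0)) T5.l8
  (TrL.c (I.pos (nat_lit 0) (nat_lit 0)) T0.l2
  (TrL.c (I.mix (nat_lit 17240550) (nat_lit 96881482)) (xR T5.l4 T5.l4)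
  (TrL.c (I.mix (nat_lit 17240550) (nat_lit 71940500)) T0.l6
  TrL.n)))))))) (by decide +kernel)
theorem bx2_7 : BoxOK sI cl9 cl6 cl13 t0 t5 b2_7 :=
  box_mk (TrL.c (I.pos (nat_lit 0) (nat_lit 0)) (xa (xa T0.l4 T0.l4) T0.l4)
  (TrL.c (I.pos (nat_lit 0) (nat_lit 0)) T5.l1
  (TrL.c (I.pos (nat_lit 0) (nat_lit 124588530)) (xR T0.l1 T0.l1)
  (TrL.c (I.pos (nat_lit 0) (nat_lit 96881482)) T5.l2
  (TrL.c (I.pos (nat_lit 0) (nat_lit 0)) T5.l5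
  (TrL.c (I.pos (nat_lit 0) (nat_lit 0)) T0.l2
  (TrL.c (I.mix (nat_lit 17240550) (nat_lit 96881482)) (xR T5.l4 T5.l4)
  (TrL.c (I.mix (nat_lit 17240550) (nat_lit 71940500)) T0.l3
  TrL.n)))))))) (by decide +kernel)
theorem bx2_8 : BoxOK sI cl9 cl6 cl13 t0 t5 b2_8 :=
  box_mk (TrL.c (I.pos (nat_lit 0) (nat_lit 0)) (xa T0.l0 T0.l0)
  (TrL.c (I.pos (nat_lit 0) (nat_lit 0)) T5.l1
  (TrL.c (I.pos (nat_lit 0) (nat_lit 124588530)) (xR T0.l1 T0.l8)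
  (TrL.c (I.pos (nat_lit 0) (nat_lit 96881482)) T5.l2
  (TrL.c (I.pos (nat_lit 0) (nat_lit 0)) (xa (xb T5.l3 T5.l3) (xk (xb T5.l3 T5.l3) (xb T5.l3 T5.l3)))
  (TrL.c (I.pos (nat_lit 0) (nat_lit 0)) T0.l2
  (TrL.c (I.mix (nat_lit 17240550) (nat_lit 96881482)) (xR T5.l4 T5.l4)
  (TrL.c (I.mix (nat_lit 17240550) (nat_lit 71940500)) T0.l6
  TrL.n)))))))) (by decide +kernel)
theorem bx2_9 : BoxOK sI cl9 cl6 cl13 t0 t5 b2_9 :=
  box_mk (TrL.c (I.pos (nat_lit 0) (nat_lit 0)) T0.l9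
  (TrL.c (I.pos (nat_lit 0) (nat_lit 0)) T5.l1
  (TrL.c (I.pos (nat_lit 0) (nat_lit 124588530)) (xR T0.l1 T0.l1)
  (TrL.c (I.pos (nat_lit 0) (nat_lit 96881482)) T5.l2
  (TrL.c (I.pos (nat_lit 0) (nat_lit 0)) T5.l8
  (TrL.c (I.pos (nat_lit 0) (nat_lit 0)) T0.l2
  (TrL.c (I.mix (nat_lit 17240550) (nat_lit 96881482)) T5.l4
  (TrL.c (I.mix (nat_lit 17240550) (nat_lit 71940500)) T0.l3
  TrL.n)))))))) (by decide +kernel)
theorem bx2_10 : BoxOK sI cl9 cl6 cl13 t0 t5 b2_10 :=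
  box_mk (TrL.c (I.pos (nat_lit 0) (nat_lit 0)) T0.l9
  (TrL.c (I.pos (nat_lit 0) (nat_lit 0)) T5.l1
  (TrL.c (I.pos (nat_lit 0) (nat_lit 124588530)) (xR T0.l1 T0.l1)
  (TrL.c (I.pos (nat_lit 0) (nat_lit 96881482)) T5.l2
  (TrL.c (I.pos (nat_lit 0) (nat_lit 0)) T5.l8
  (TrL.c (I.pos (nat_lit 0) (nat_lit 0)) T0.l2
  (TrL.c (I.mix (nat_lit 17240550) (nat_lit 96881482)) (xR T5.l4 T5.l4)
  (TrL.c (I.mix (nat_lit 17240550) (nat_lit 71940500)) T0.l6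
  TrL.n)))))))) (by decide +kernel)
theorem bx2_11 : BoxOK sI cl9 cl6 cl13 t0 t5 b2_11 :=
  box_mk (TrL.c (I.pos (nat_lit 0) (nat_lit 0)) T0.l0
  (TrL.c (I.pos (nat_lit 0) (nat_lit 0)) T5.l1
  (TrL.c (I.pos (nat_lit 0) (nat_lit 124588530)) (xR T0.l1 T0.l1)
  (TrL.c (I.pos (nat_lit 0) (nat_lit 96881482)) T5.l2
  (TrL.c (I.pos (nat_lit 0) (nat_lit 0)) (xk T5.l3 T5.l3)
  (TrL.c (I.pos (nat_lit 0) (nat_lit 0)) T0.l2
  (TrL.c (I.mix (nat_lit 17240550) (nat_lit 96881482)) (xR T5.l4 T5.l4)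
  (TrL.c (I.mix (nat_lit 17240550) (nat_lit 71940500)) T0.l6
  TrL.n)))))))) (by decide +kernel)
theorem sv2 : StarV sI cl9 cl6 cl13 t0 t5 t2 :=
  (bt_n (bt_n (bt_n (bt_b bx2_0) (bt_n (bt_b bx2_1) (bt_b bx2_2))) (bt_n (bt_b bx2_3) (bt_n (bt_b bx2_4) (bt_b bx2_5)))) (bt_n (bt_n (bt_b bx2_6) (bt_n (bt_b bx2_7) (bt_b bx2_8))) (bt_n (bt_b bx2_9) (bt_n (bt_b bx2_10) (bt_b bx2_11)))))
def S2 : StarD := StarD.mk cl9 cl6 cl13 0 5 t2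
theorem bx3_0 : BoxOK sI cl9 cl13 cl6 t5 t0 b3_0 :=
  box_mk (TrL.c (I.pos (nat_lit 0) (nat_lit 0)) (xa T5.l0 T5.l0)
  (TrL.c (I.pos (nat_lit 0) (nat_lit 0)) T0.l5
  (TrL.c (I.pos (nat_lit 0) (nat_lit 124588530)) (xR T5.l6 T5.l6)
  (TrL.c (I.pos (nat_lit 0) (nat_lit 96881482)) T0.l6
  (TrL.c (I.pos (nat_lit 0) (nat_lit 0)) (xa T0.l7 T0.l7)
  (TrL.c (I.pos (nat_lit 0) (nat_lit 0)) T5.l7
  (TrL.c (I.mix (nat_lit 17240550) (nat_lit 96881482)) (xR T0.l8 T0.l8)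
  (TrL.c (I.mix (nat_lit 17240550) (nat_lit 71940500)) T5.l9
  TrL.n)))))))) (by decide +kernel)
theorem bx3_1 : BoxOK sI cl9 cl13 cl6 t5 t0 b3_1 :=
  box_mk (TrL.c (I.pos (nat_lit 0) (nat_lit 0)) T5.l10
  (TrL.c (I.pos (nat_lit 0) (nat_lit 0)) T0.l5
  (TrL.c (I.pos (nat_lit 0) (nat_lit 124588530)) (xR T5.l6 T5.l6)
  (TrL.c (I.pos (nat_lit 0) (nat_lit 96881482)) T0.l6
  (TrL.c (I.pos (nat_lit 0) (nat_lit 0)) T0.l10
  (TrL.c (I.pos (nat_lit 0) (nat_lit 0)) T5.l7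
  (TrL.c (I.mix (nat_lit 17240550) (nat_lit 96881482)) (xR T0.l8 T0.l8)
  (TrL.c (I.mix (nat_lit 17240550) (nat_lit 71940500)) T5.l2
  TrL.n)))))))) (by decide +kernel)
theorem bx3_2 : BoxOK sI cl9 cl13 cl6 t5 t0 b3_2 :=
  box_mk (TrL.c (I.pos (nat_lit 0) (nat_lit 0)) (xa T5.l10 T5.l10)
  (TrL.c (I.pos (nat_lit 0) (nat_lit 0)) T0.l5
  (TrL.c (I.pos (nat_lit 0) (nat_lit 124588530)) T5.l6
  (TrL.c (I.pos (nat_lit 0) (nat_lit 96881482)) T0.l6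
  (TrL.c (I.pos (nat_lit 0) (nat_lit 0)) T0.l10
  (TrL.c (I.pos (nat_lit 0) (nat_lit 0)) T5.l7
  (TrL.c (I.mix (nat_lit 17240550) (nat_lit 96881482)) (xR T0.l8 T0.l8)
  (TrL.c (I.mix (nat_lit 17240550) (nat_lit 71940500)) T5.l2
  TrL.n)))))))) (by decide +kernel)
theorem bx3_3 : BoxOK sI cl9 cl13 cl6 t5 t0 b3_3 :=
  box_mk (TrL.c (I.pos (nat_lit 0) (nat_lit 0)) T5.l11
  (TrL.c (I.pos (nat_lit 0) (nat_lit 0)) T0.l5
  (TrL.c (I.pos (nat_lit 0) (nat_lit 124588530)) (xR T5.l6 T5.l6)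
  (TrL.c (I.pos (nat_lit 0) (nat_lit 96881482)) T0.l6
  (TrL.c (I.pos (nat_lit 0) (nat_lit 0)) T0.l11
  (TrL.c (I.pos (nat_lit 0) (nat_lit 0)) T5.l7
  (TrL.c (I.mix (nat_lit 17240550) (nat_lit 96881482)) (xR T0.l8 T0.l8)
  (TrL.c (I.mix (nat_lit 17240550) (nat_lit 71940500)) T5.l9
  TrL.n)))))))) (by decide +kernel)
theorem bx3_4 : BoxOK sI cl9 cl13 cl6 t5 t0 b3_4 :=
  box_mk (TrL.c (I.pos (nat_lit 0) (nat_lit 0)) (xa (xa T5.l10 T5.l10) (xa T5.l10 T5.l10))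
  (TrL.c (I.pos (nat_lit 0) (nat_lit 0)) T0.l5
  (TrL.c (I.pos (nat_lit 0) (nat_lit 124588530)) T5.l6
  (TrL.c (I.pos (nat_lit 0) (nat_lit 96881482)) T0.l6
  (TrL.c (I.pos (nat_lit 0) (nat_lit 0)) T0.l10
  (TrL.c (I.pos (nat_lit 0) (nat_lit 0)) T5.l7
  (TrL.c (I.mix (nat_lit 17240550) (nat_lit 96881482)) (xR T0.l8 T0.l8)
  (TrL.c (I.mix (nat_lit 17240550) (nat_lit 71940500)) T5.l2
  TrL.n)))))))) (by decide +kernel)
theorem bx3_5 : BoxOK sI cl9 cl13 cl6 t5 t0 b3_5 :=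
  box_mk (TrL.c (I.pos (nat_lit 0) (nat_lit 0)) T5.l0
  (TrL.c (I.pos (nat_lit 0) (nat_lit 0)) T0.l5
  (TrL.c (I.pos (nat_lit 0) (nat_lit 124588530)) (xR T5.l6 T5.l6)
  (TrL.c (I.pos (nat_lit 0) (nat_lit 96881482)) T0.l6
  (TrL.c (I.pos (nat_lit 0) (nat_lit 0)) T0.l11
  (TrL.c (I.pos (nat_lit 0) (nat_lit 0)) T5.l7
  (TrL.c (I.mix (nat_lit 17240550) (nat_lit 96881482)) (xR T0.l8 T0.l8)
  (TrL.c (I.mix (nat_lit 17240550) (nat_lit 71940500)) T5.l2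
  TrL.n)))))))) (by decide +kernel)
theorem bx3_6 : BoxOK sI cl9 cl13 cl6 t5 t0 b3_6 :=
  box_mk (TrL.c (I.pos (nat_lit 0) (nat_lit 0)) (xa (xa T5.l10 T5.l10) (xa T5.l10 T5.l10))
  (TrL.c (I.pos (nat_lit 0) (nat_lit 0)) T0.l5
  (TrL.c (I.pos (nat_lit 0) (nat_lit 124588530)) T5.l6
  (TrL.c (I.pos (nat_lit 0) (nat_lit 96881482)) T0.l6
  (TrL.c (I.pos (nat_lit 0) (nat_lit 0)) T0.l10
  (TrL.c (I.pos (nat_lit 0) (nat_lit 0)) T5.l7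
  (TrL.c (I.mix (nat_lit 17240550) (nat_lit 96881482)) (xR T0.l8 T0.l8)
  (TrL.c (I.mix (nat_lit 17240550) (nat_lit 71940500)) T5.l2
  TrL.n)))))))) (by decide +kernel)
theorem bx3_7 : BoxOK sI cl9 cl13 cl6 t5 t0 b3_7 :=
  box_mk (TrL.c (I.pos (nat_lit 0) (nat_lit 0)) T5.l10
  (TrL.c (I.pos (nat_lit 0) (nat_lit 0)) T0.l5
  (TrL.c (I.pos (nat_lit 0) (nat_lit 124588530)) (xR T5.l6 T5.l6)
  (TrL.c (I.pos (nat_lit 0) (nat_lit 96881482)) T0.l6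
  (TrL.c (I.pos (nat_lit 0) (nat_lit 0)) T0.l10
  (TrL.c (I.pos (nat_lit 0) (nat_lit 0)) T5.l7
  (TrL.c (I.mix (nat_lit 17240550) (nat_lit 96881482)) (xR T0.l8 T0.l8)
  (TrL.c (I.mix (nat_lit 17240550) (nat_lit 71940500)) T5.l2
  TrL.n)))))))) (by decide +kernel)
theorem bx3_8 : BoxOK sI cl9 cl13 cl6 t5 t0 b3_8 :=
  box_mk (TrL.c (I.pos (nat_lit 0) (nat_lit 0)) (xa T5.l10 T5.l10)
  (TrL.c (I.pos (nat_lit 0) (nat_lit 0)) T0.l5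
  (TrL.c (I.pos (nat_lit 0) (nat_lit 124588530)) T5.l6
  (TrL.c (I.pos (nat_lit 0) (nat_lit 96881482)) T0.l6
  (TrL.c (I.pos (nat_lit 0) (nat_lit 0)) T0.l10
  (TrL.c (I.pos (nat_lit 0) (nat_lit 0)) T5.l7
  (TrL.c (I.mix (nat_lit 17240550) (nat_lit 96881482)) (xR T0.l8 T0.l8)
  (TrL.c (I.mix (nat_lit 17240550) (nat_lit 71940500)) T5.l2
  TrL.n)))))))) (by decide +kernel)
theorem bx3_9 : BoxOK sI cl9 cl13 cl6 t5 t0 b3_9 :=
  box_mk (TrL.c (I.pos (nat_lit 0) (nat_lit 0)) (xa T5.l0 T5.l0)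
  (TrL.c (I.pos (nat_lit 0) (nat_lit 0)) T0.l5
  (TrL.c (I.pos (nat_lit 0) (nat_lit 124588530)) (xR T5.l6 T5.l4)
  (TrL.c (I.pos (nat_lit 0) (nat_lit 96881482)) (xR T0.l6 T0.l6)
  (TrL.c (I.pos (nat_lit 0) (nat_lit 0)) (xa T0.l7 (xk T0.l7 T0.l7))
  (TrL.c (I.pos (nat_lit 0) (nat_lit 0)) T5.l7
  (TrL.c (I.mix (nat_lit 17240550) (nat_lit 96881482)) (xR T0.l8 T0.l8)
  (TrL.c (I.mix (nat_lit 17240550) (nat_lit 71940500)) T5.l2
  TrL.n)))))))) (by decide +kernel)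
theorem bx3_10 : BoxOK sI cl9 cl13 cl6 t5 t0 b3_10 :=
  box_mk (TrL.c (I.pos (nat_lit 0) (nat_lit 0)) T5.l0
  (TrL.c (I.pos (nat_lit 0) (nat_lit 0)) T0.l5
  (TrL.c (I.pos (nat_lit 0) (nat_lit 124588530)) (xR T5.l6 T5.l6)
  (TrL.c (I.pos (nat_lit 0) (nat_lit 96881482)) T0.l6
  (TrL.c (I.pos (nat_lit 0) (nat_lit 0)) T0.l7
  (TrL.c (I.pos (nat_lit 0) (nat_lit 0)) T5.l7
  (TrL.c (I.mix (nat_lit 17240550) (nat_lit 96881482)) (xR T0.l8 T0.l8)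
  (TrL.c (I.mix (nat_lit 17240550) (nat_lit 71940500)) T5.l9
  TrL.n)))))))) (by decide +kernel)
theorem bx3_11 : BoxOK sI cl9 cl13 cl6 t5 t0 b3_11 :=
  box_mk (TrL.c (I.pos (nat_lit 0) (nat_lit 0)) T5.l11
  (TrL.c (I.pos (nat_lit 0) (nat_lit 0)) T0.l5
  (TrL.c (I.pos (nat_lit 0) (nat_lit 124588530)) (xR T5.l6 T5.l6)
  (TrL.c (I.pos (nat_lit 0) (nat_lit 96881482)) T0.l6
  (TrL.c (I.pos (nat_lit 0) (nat_lit 0)) T0.l11
  (TrL.c (I.pos (nat_lit 0) (nat_lit 0)) T5.l7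
  (TrL.c (I.mix (nat_lit 17240550) (nat_lit 96881482)) (xR T0.l8 T0.l8)
  (TrL.c (I.mix (nat_lit 17240550) (nat_lit 71940500)) T5.l9
  TrL.n)))))))) (by decide +kernel)
theorem sv3 : StarV sI cl9 cl13 cl6 t5 t0 t3 :=
  (bt_n (bt_n (bt_n (bt_b bx3_0) (bt_n (bt_b bx3_1) (bt_b bx3_2))) (bt_n (bt_b bx3_3) (bt_n (bt_b bx3_4) (bt_b bx3_5)))) (bt_n (bt_n (bt_b bx3_6) (bt_n (bt_b bx3_7) (bt_b bx3_8))) (bt_n (bt_b bx3_9) (bt_n (bt_b bx3_10) (bt_b bx3_11)))))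
def S3 : StarD := StarD.mk cl9 cl13 cl6 5 0 t3
theorem bx4_0 : BoxOK sI cl13 cl6 cl9 t1 t3 b4_0 :=
  box_mk (TrL.c (I.pos (nat_lit 0) (nat_lit 0)) (xa T1.l0 T1.l0)
  (TrL.c (I.pos (nat_lit 0) (nat_lit 0)) T3.l1
  (TrL.c (I.pos (nat_lit 0) (nat_lit 134217730)) (xR T1.l1 T1.l1)
  (TrL.c (I.pos (nat_lit 0) (nat_lit 110514882)) (xR T3.l2 T3.l2)
  (TrL.c (I.pos (nat_lit 0) (nat_lit 0)) (xa T3.l3 T3.l3)
  (TrL.c (I.pos (nat_lit 0) (nat_lit 0)) T1.l2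
  (TrL.c (I.mix (nat_lit 8088324) (nat_lit 110514882)) (xR T3.l4 T3.l4)
  (TrL.c (I.mix (nat_lit 8088324) (nat_lit 89478486)) T1.l3
  TrL.n)))))))) (by decide +kernel)
theorem bx4_1 : BoxOK sI cl13 cl6 cl9 t1 t3 b4_1 :=
  box_mk (TrL.c (I.pos (nat_lit 0) (nat_lit 0)) T1.l4
  (TrL.c (I.pos (nat_lit 0) (nat_lit 0)) T3.l1
  (TrL.c (I.pos (nat_lit 0) (nat_lit 134217730)) (xR T1.l1 T1.l1)
  (TrL.c (I.pos (nat_lit 0) (nat_lit 110514882)) (xR T3.l2 T3.l2)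
  (TrL.c (I.pos (nat_lit 0) (nat_lit 0)) T3.l5
  (TrL.c (I.pos (nat_lit 0) (nat_lit 0)) T1.l2
  (TrL.c (I.mix (nat_lit 8088324) (nat_lit 110514882)) T3.l4
  (TrL.c (I.mix (nat_lit 8088324) (nat_lit 89478486)) T1.l3
  TrL.n)))))))) (by decide +kernel)
theorem bx4_2 : BoxOK sI cl13 cl6 cl9 t1 t3 b4_2 :=
  box_mk (TrL.c (I.pos (nat_lit 0) (nat_lit 0)) T1.l4
  (TrL.c (I.pos (nat_lit 0) (nat_lit 0)) T3.l5
  (TrL.c (I.pos (nat_lit 0) (nat_lit 134217730)) T1.l1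
  (TrL.c (I.pos (nat_lit 0) (nat_lit 110514882)) T3.l4
  (TrL.c (I.pos (nat_lit 0) (nat_lit 0)) T3.l5
  (TrL.c (I.pos (nat_lit 0) (nat_lit 0)) T1.l2
  (TrL.c (I.mix (nat_lit 8088324) (nat_lit 110514882)) (xR T3.l4 T3.l4)
  (TrL.c (I.mix (nat_lit 8088324) (nat_lit 89478486)) T1.l3
  TrL.n)))))))) (by decide +kernel)
theorem bx4_3 : BoxOK sI cl13 cl6 cl9 t1 t3 b4_3 :=
  box_mk (TrL.c (I.pos (nat_lit 0) (nat_lit 0)) T1.l11
  (TrL.c (I.pos (nat_lit 0) (nat_lit 0)) T3.l1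
  (TrL.c (I.pos (nat_lit 0) (nat_lit 134217730)) (xR T1.l1 T1.l1)
  (TrL.c (I.pos (nat_lit 0) (nat_lit 110514882)) (xR T3.l2 T3.l2)
  (TrL.c (I.pos (nat_lit 0) (nat_lit 0)) T3.l3
  (TrL.c (I.pos (nat_lit 0) (nat_lit 0)) T1.l2
  (TrL.c (I.mix (nat_lit 8088324) (nat_lit 110514882)) (xR T3.l4 T3.l4)
  (TrL.c (I.mix (nat_lit 8088324) (nat_lit 89478486)) T1.l3
  TrL.n)))))))) (by decide +kernel)
theorem bx4_4 : BoxOK sI cl13 cl6 cl9 t1 t3 b4_4 :=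
  box_mk (TrL.c (I.pos (nat_lit 0) (nat_lit 0)) (xa (xa T1.l4 T1.l4) T1.l4)
  (TrL.c (I.pos (nat_lit 0) (nat_lit 0)) T3.l1
  (TrL.c (I.pos (nat_lit 0) (nat_lit 134217730)) (xR T1.l1 T1.l1)
  (TrL.c (I.pos (nat_lit 0) (nat_lit 110514882)) (xR T3.l2 T3.l2)
  (TrL.c (I.pos (nat_lit 0) (nat_lit 0)) T3.l5
  (TrL.c (I.pos (nat_lit 0) (nat_lit 0)) T1.l2
  (TrL.c (I.mix (nat_lit 8088324) (nat_lit 110514882)) (xR T3.l4 T3.l4)
  (TrL.c (I.mix (nat_lit 8088324) (nat_lit 89478486)) T1.l3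
  TrL.n)))))))) (by decide +kernel)
theorem bx4_5 : BoxOK sI cl13 cl6 cl9 t1 t3 b4_5 :=
  box_mk (TrL.c (I.pos (nat_lit 0) (nat_lit 0)) (xa (xa T1.l4 T1.l4) T1.l4)
  (TrL.c (I.pos (nat_lit 0) (nat_lit 0)) T3.l1
  (TrL.c (I.pos (nat_lit 0) (nat_lit 134217730)) (xR T1.l1 T1.l1)
  (TrL.c (I.pos (nat_lit 0) (nat_lit 110514882)) (xR T3.l2 T3.l2)
  (TrL.c (I.pos (nat_lit 0) (nat_lit 0)) T3.l5
  (TrL.c (I.pos (nat_lit 0) (nat_lit 0)) T1.l2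
  (TrL.c (I.mix (nat_lit 8088324) (nat_lit 110514882)) (xR T3.l4 T3.l4)
  (TrL.c (I.mix (nat_lit 8088324) (nat_lit 89478486)) T1.l3
  TrL.n)))))))) (by decide +kernel)
theorem bx4_6 : BoxOK sI cl13 cl6 cl9 t1 t3 b4_6 :=
  box_mk (TrL.c (I.pos (nat_lit 0) (nat_lit 0)) T1.l4
  (TrL.c (I.pos (nat_lit 0) (nat_lit 0)) T3.l1
  (TrL.c (I.pos (nat_lit 0) (nat_lit 134217730)) (xR T1.l1 T1.l1)
  (TrL.c (I.pos (nat_lit 0) (nat_lit 110514882)) (xR T3.l2 T3.l2)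
  (TrL.c (I.pos (nat_lit 0) (nat_lit 0)) T3.l5
  (TrL.c (I.pos (nat_lit 0) (nat_lit 0)) T1.l2
  (TrL.c (I.mix (nat_lit 8088324) (nat_lit 110514882)) T3.l4
  (TrL.c (I.mix (nat_lit 8088324) (nat_lit 89478486)) T1.l3
  TrL.n)))))))) (by decide +kernel)
theorem bx4_7 : BoxOK sI cl13 cl6 cl9 t1 t3 b4_7 :=
  box_mk (TrL.c (I.pos (nat_lit 0) (nat_lit 0)) (xa T1.l4 T1.l4)
  (TrL.c (I.pos (nat_lit 0) (nat_lit 0)) T3.l5
  (TrL.c (I.pos (nat_lit 0) (nat_lit 134217730)) T1.l1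
  (TrL.c (I.pos (nat_lit 0) (nat_lit 110514882)) T3.l4
  (TrL.c (I.pos (nat_lit 0) (nat_lit 0)) T3.l1
  (TrL.c (I.pos (nat_lit 0) (nat_lit 0)) T1.l1
  (TrL.c (I.mix (nat_lit 8088324) (nat_lit 110514882)) (xR T3.l4 T3.l2)
  (TrL.c (I.mix (nat_lit 8088324) (nat_lit 89478486)) T1.l3
  TrL.n)))))))) (by decide +kernel)
theorem bx4_8 : BoxOK sI cl13 cl6 cl9 t1 t3 b4_8 :=
  box_mk (TrL.c (I.pos (nat_lit 0) (nat_lit 0)) T1.l0
  (TrL.c (I.pos (nat_lit 0) (nat_lit 0)) T3.l1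
  (TrL.c (I.pos (nat_lit 0) (nat_lit 134217730)) (xR T1.l1 T1.l1)
  (TrL.c (I.pos (nat_lit 0) (nat_lit 110514882)) (xR T3.l2 T3.l2)
  (TrL.c (I.pos (nat_lit 0) (nat_lit 0)) T3.l11
  (TrL.c (I.pos (nat_lit 0) (nat_lit 0)) T1.l2
  (TrL.c (I.mix (nat_lit 8088324) (nat_lit 110514882)) (xR T3.l4 T3.l4)
  (TrL.c (I.mix (nat_lit 8088324) (nat_lit 89478486)) T1.l3
  TrL.n)))))))) (by decide +kernel)
theorem bx4_9 : BoxOK sI cl13 cl6 cl9 t1 t3 b4_9 :=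
  box_mk (TrL.c (I.pos (nat_lit 0) (nat_lit 0)) T1.l0
  (TrL.c (I.pos (nat_lit 0) (nat_lit 0)) T3.l1
  (TrL.c (I.pos (nat_lit 0) (nat_lit 134217730)) (xR T1.l1 T1.l8)
  (TrL.c (I.pos (nat_lit 0) (nat_lit 110514882)) (xR T3.l4 T3.l2)
  (TrL.c (I.pos (nat_lit 0) (nat_lit 0)) (xa T3.l3 (xk (xb T3.l3 T3.l3) T3.l3))
  (TrL.c (I.pos (nat_lit 0) (nat_lit 0)) T1.l2
  (TrL.c (I.mix (nat_lit 8088324) (nat_lit 110514882)) (xR T3.l4 T3.l4)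
  (TrL.c (I.mix (nat_lit 8088324) (nat_lit 89478486)) T1.l3
  TrL.n)))))))) (by decide +kernel)
theorem bx4_10 : BoxOK sI cl13 cl6 cl9 t1 t3 b4_10 :=
  box_mk (TrL.c (I.pos (nat_lit 0) (nat_lit 0)) T1.l0
  (TrL.c (I.pos (nat_lit 0) (nat_lit 0)) T3.l1
  (TrL.c (I.pos (nat_lit 0) (nat_lit 134217730)) (xR T1.l1 T1.l1)
  (TrL.c (I.pos (nat_lit 0) (nat_lit 110514882)) (xR T3.l2 T3.l2)
  (TrL.c (I.pos (nat_lit 0) (nat_lit 0)) (xb T3.l3 T3.l3)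
  (TrL.c (I.pos (nat_lit 0) (nat_lit 0)) T1.l2
  (TrL.c (I.mix (nat_lit 8088324) (nat_lit 110514882)) (xR T3.l4 T3.l4)
  (TrL.c (I.mix (nat_lit 8088324) (nat_lit 89478486)) T1.l3
  TrL.n)))))))) (by decide +kernel)
theorem bx4_11 : BoxOK sI cl13 cl6 cl9 t1 t3 b4_11 :=
  box_mk (TrL.c (I.pos (nat_lit 0) (nat_lit 0)) T1.l11
  (TrL.c (I.pos (nat_lit 0) (nat_lit 0)) T3.l1
  (TrL.c (I.pos (nat_lit 0) (nat_lit 134217730)) (xR T1.l1 T1.l1)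
  (TrL.c (I.pos (nat_lit 0) (nat_lit 110514882)) (xR T3.l2 T3.l2)
  (TrL.c (I.pos (nat_lit 0) (nat_lit 0)) T3.l3
  (TrL.c (I.pos (nat_lit 0) (nat_lit 0)) T1.l2
  (TrL.c (I.mix (nat_lit 8088324) (nat_lit 110514882)) (xR T3.l4 T3.l4)
  (TrL.c (I.mix (nat_lit 8088324) (nat_lit 89478486)) T1.l3
  TrL.n)))))))) (by decide +kernel)
theorem sv4 : StarV sI cl13 cl6 cl9 t1 t3 t4 :=
  (bt_n (bt_n (bt_n (bt_b bx4_0) (bt_n (bt_b bx4_1) (bt_b bx4_2))) (bt_n (bt_b bx4_3) (bt_n (bt_b bx4_4) (bt_b bx4_5)))) (bt_n (bt_n (bt_b bx4_6) (bt_n (bt_b bx4_7) (bt_b bx4_8))) (bt_n (bt_b bx4_9) (bt_n (bt_b bx4_10) (bt_b bx4_11)))))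
def S4 : StarD := StarD.mk cl13 cl6 cl9 1 3 t4
theorem bx5_0 : BoxOK sI cl13 cl9 cl6 t3 t1 b5_0 :=
  box_mk (TrL.c (I.pos (nat_lit 0) (nat_lit 0)) (xa T3.l0 T3.l0)
  (TrL.c (I.pos (nat_lit 0) (nat_lit 0)) T1.l5
  (TrL.c (I.pos (nat_lit 0) (nat_lit 134217730)) (xR T3.l6 T3.l6)
  (TrL.c (I.pos (nat_lit 0) (nat_lit 110514882)) (xR T1.l6 T1.l6)
  (TrL.c (I.pos (nat_lit 0) (nat_lit 0)) (xa T1.l7 T1.l7)
  (TrL.c (I.pos (nat_lit 0) (nat_lit 0)) T3.l7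
  (TrL.c (I.mix (nat_lit 8088324) (nat_lit 110514882)) (xR T1.l8 T1.l8)
  (TrL.c (I.mix (nat_lit 8088324) (nat_lit 89478486)) T3.l8
  TrL.n)))))))) (by decide +kernel)
theorem bx5_1 : BoxOK sI cl13 cl9 cl6 t3 t1 b5_1 :=
  box_mk (TrL.c (I.pos (nat_lit 0) (nat_lit 0)) T3.l9
  (TrL.c (I.pos (nat_lit 0) (nat_lit 0)) T1.l5
  (TrL.c (I.pos (nat_lit 0) (nat_lit 134217730)) (xR T3.l6 T3.l6)
  (TrL.c (I.pos (nat_lit 0) (nat_lit 110514882)) (xR T1.l6 T1.l6)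
  (TrL.c (I.pos (nat_lit 0) (nat_lit 0)) T1.l9
  (TrL.c (I.pos (nat_lit 0) (nat_lit 0)) T3.l7
  (TrL.c (I.mix (nat_lit 8088324) (nat_lit 110514882)) (xR T1.l8 T1.l8)
  (TrL.c (I.mix (nat_lit 8088324) (nat_lit 89478486)) T3.l8
  TrL.n)))))))) (by decide +kernel)
theorem bx5_2 : BoxOK sI cl13 cl9 cl6 t3 t1 b5_2 :=
  box_mk (TrL.c (I.pos (nat_lit 0) (nat_lit 0)) (xa (xa T3.l9 T3.l9) T3.l9)
  (TrL.c (I.pos (nat_lit 0) (nat_lit 0)) T1.l5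
  (TrL.c (I.pos (nat_lit 0) (nat_lit 134217730)) (xR T3.l6 T3.l6)
  (TrL.c (I.pos (nat_lit 0) (nat_lit 110514882)) (xR T1.l6 T1.l6)
  (TrL.c (I.pos (nat_lit 0) (nat_lit 0)) T1.l9
  (TrL.c (I.pos (nat_lit 0) (nat_lit 0)) T3.l7
  (TrL.c (I.mix (nat_lit 8088324) (nat_lit 110514882)) (xR T1.l8 T1.l8)
  (TrL.c (I.mix (nat_lit 8088324) (nat_lit 89478486)) T3.l4
  TrL.n)))))))) (by decide +kernel)
theorem bx5_3 : BoxOK sI cl13 cl9 cl6 t3 t1 b5_3 :=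
  box_mk (TrL.c (I.pos (nat_lit 0) (nat_lit 0)) T3.l10
  (TrL.c (I.pos (nat_lit 0) (nat_lit 0)) T1.l5
  (TrL.c (I.pos (nat_lit 0) (nat_lit 134217730)) (xR T3.l6 T3.l6)
  (TrL.c (I.pos (nat_lit 0) (nat_lit 110514882)) (xR T1.l6 T1.l6)
  (TrL.c (I.pos (nat_lit 0) (nat_lit 0)) T1.l10
  (TrL.c (I.pos (nat_lit 0) (nat_lit 0)) T3.l7
  (TrL.c (I.mix (nat_lit 8088324) (nat_lit 110514882)) (xR T1.l8 T1.l8)
  (TrL.c (I.mix (nat_lit 8088324) (nat_lit 89478486)) T3.l8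
  TrL.n)))))))) (by decide +kernel)
theorem bx5_4 : BoxOK sI cl13 cl9 cl6 t3 t1 b5_4 :=
  box_mk (TrL.c (I.pos (nat_lit 0) (nat_lit 0)) (xa (xa T3.l9 T3.l9) (xa T3.l9 T3.l9))
  (TrL.c (I.pos (nat_lit 0) (nat_lit 0)) T1.l5
  (TrL.c (I.pos (nat_lit 0) (nat_lit 134217730)) (xR T3.l6 T3.l6)
  (TrL.c (I.pos (nat_lit 0) (nat_lit 110514882)) (xR T1.l6 T1.l6)
  (TrL.c (I.pos (nat_lit 0) (nat_lit 0)) T1.l9
  (TrL.c (I.pos (nat_lit 0) (nat_lit 0)) T3.l7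
  (TrL.c (I.mix (nat_lit 8088324) (nat_lit 110514882)) (xR T1.l8 T1.l8)
  (TrL.c (I.mix (nat_lit 8088324) (nat_lit 89478486)) T3.l8
  TrL.n)))))))) (by decide +kernel)
theorem bx5_5 : BoxOK sI cl13 cl9 cl6 t3 t1 b5_5 :=
  box_mk (TrL.c (I.pos (nat_lit 0) (nat_lit 0)) T3.l0
  (TrL.c (I.pos (nat_lit 0) (nat_lit 0)) T1.l5
  (TrL.c (I.pos (nat_lit 0) (nat_lit 134217730)) (xR T3.l6 T3.l6)
  (TrL.c (I.pos (nat_lit 0) (nat_lit 110514882)) (xR T1.l6 T1.l6)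
  (TrL.c (I.pos (nat_lit 0) (nat_lit 0)) T1.l10
  (TrL.c (I.pos (nat_lit 0) (nat_lit 0)) T3.l7
  (TrL.c (I.mix (nat_lit 8088324) (nat_lit 110514882)) (xR T1.l8 T1.l8)
  (TrL.c (I.mix (nat_lit 8088324) (nat_lit 89478486)) T3.l8
  TrL.n)))))))) (by decide +kernel)
theorem bx5_6 : BoxOK sI cl13 cl9 cl6 t3 t1 b5_6 :=
  box_mk (TrL.c (I.pos (nat_lit 0) (nat_lit 0)) (xa (xa T3.l9 T3.l9) (xa T3.l9 T3.l9))
  (TrL.c (I.pos (nat_lit 0) (nat_lit 0)) T1.l5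
  (TrL.c (I.pos (nat_lit 0) (nat_lit 134217730)) (xR T3.l6 T3.l6)
  (TrL.c (I.pos (nat_lit 0) (nat_lit 110514882)) (xR T1.l6 T1.l6)
  (TrL.c (I.pos (nat_lit 0) (nat_lit 0)) T1.l9
  (TrL.c (I.pos (nat_lit 0) (nat_lit 0)) T3.l7
  (TrL.c (I.mix (nat_lit 8088324) (nat_lit 110514882)) (xR T1.l8 T1.l8)
  (TrL.c (I.mix (nat_lit 8088324) (nat_lit 89478486)) T3.l8
  TrL.n)))))))) (by decide +kernel)
theorem bx5_7 : BoxOK sI cl13 cl9 cl6 t3 t1 b5_7 :=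
  box_mk (TrL.c (I.pos (nat_lit 0) (nat_lit 0)) T3.l9
  (TrL.c (I.pos (nat_lit 0) (nat_lit 0)) T1.l5
  (TrL.c (I.pos (nat_lit 0) (nat_lit 134217730)) (xR T3.l6 T3.l6)
  (TrL.c (I.pos (nat_lit 0) (nat_lit 110514882)) (xR T1.l6 T1.l6)
  (TrL.c (I.pos (nat_lit 0) (nat_lit 0)) T1.l9
  (TrL.c (I.pos (nat_lit 0) (nat_lit 0)) T3.l7
  (TrL.c (I.mix (nat_lit 8088324) (nat_lit 110514882)) T1.l8
  (TrL.c (I.mix (nat_lit 8088324) (nat_lit 89478486)) T3.l8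
  TrL.n)))))))) (by decide +kernel)
theorem bx5_8 : BoxOK sI cl13 cl9 cl6 t3 t1 b5_8 :=
  box_mk (TrL.c (I.pos (nat_lit 0) (nat_lit 0)) T3.l10
  (TrL.c (I.pos (nat_lit 0) (nat_lit 0)) T1.l5
  (TrL.c (I.pos (nat_lit 0) (nat_lit 134217730)) (xR T3.l6 T3.l6)
  (TrL.c (I.pos (nat_lit 0) (nat_lit 110514882)) (xR T1.l6 T1.l6)
  (TrL.c (I.pos (nat_lit 0) (nat_lit 0)) T1.l10
  (TrL.c (I.pos (nat_lit 0) (nat_lit 0)) T3.l7
  (TrL.c (I.mix (nat_lit 8088324) (nat_lit 110514882)) (xR T1.l8 T1.l8)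
  (TrL.c (I.mix (nat_lit 8088324) (nat_lit 89478486)) T3.l8
  TrL.n)))))))) (by decide +kernel)
theorem bx5_9 : BoxOK sI cl13 cl9 cl6 t3 t1 b5_9 :=
  box_mk (TrL.c (I.pos (nat_lit 0) (nat_lit 0)) T3.l9
  (TrL.c (I.pos (nat_lit 0) (nat_lit 0)) T1.l5
  (TrL.c (I.pos (nat_lit 0) (nat_lit 134217730)) T3.l6
  (TrL.c (I.pos (nat_lit 0) (nat_lit 110514882)) T1.l6
  (TrL.c (I.pos (nat_lit 0) (nat_lit 0)) T1.l9
  (TrL.c (I.pos (nat_lit 0) (nat_lit 0)) T3.l7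
  (TrL.c (I.mix (nat_lit 8088324) (nat_lit 110514882)) (xR T1.l8 T1.l8)
  (TrL.c (I.mix (nat_lit 8088324) (nat_lit 89478486)) T3.l4
  TrL.n)))))))) (by decide +kernel)
theorem bx5_10 : BoxOK sI cl13 cl9 cl6 t3 t1 b5_10 :=
  box_mk (TrL.c (I.pos (nat_lit 0) (nat_lit 0)) (xa T3.l0 T3.l0)
  (TrL.c (I.pos (nat_lit 0) (nat_lit 0)) T1.l5
  (TrL.c (I.pos (nat_lit 0) (nat_lit 134217730)) (xR T3.l6 T3.l4)
  (TrL.c (I.pos (nat_lit 0) (nat_lit 110514882)) (xR T1.l6 T1.l6)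
  (TrL.c (I.pos (nat_lit 0) (nat_lit 0)) (xa T1.l7 (xk T1.l7 T1.l7))
  (TrL.c (I.pos (nat_lit 0) (nat_lit 0)) T3.l7
  (TrL.c (I.mix (nat_lit 8088324) (nat_lit 110514882)) (xR T1.l8 T1.l8)
  (TrL.c (I.mix (nat_lit 8088324) (nat_lit 89478486)) T3.l8
  TrL.n)))))))) (by decide +kernel)
theorem bx5_11 : BoxOK sI cl13 cl9 cl6 t3 t1 b5_11 :=
  box_mk (TrL.c (I.pos (nat_lit 0) (nat_lit 0)) T3.l0
  (TrL.c (I.pos (nat_lit 0) (nat_lit 0)) T1.l5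
  (TrL.c (I.pos (nat_lit 0) (nat_lit 134217730)) (xR T3.l6 T3.l6)
  (TrL.c (I.pos (nat_lit 0) (nat_lit 110514882)) (xR T1.l6 T1.l6)
  (TrL.c (I.pos (nat_lit 0) (nat_lit 0)) (xb T1.l7 T1.l7)
  (TrL.c (I.pos (nat_lit 0) (nat_lit 0)) T3.l7
  (TrL.c (I.mix (nat_lit 8088324) (nat_lit 110514882)) (xR T1.l8 T1.l8)
  (TrL.c (I.mix (nat_lit 8088324) (nat_lit 89478486)) T3.l8
  TrL.n)))))))) (by decide +kernel)
theorem sv5 : StarV sI cl13 cl9 cl6 t3 t1 t5 :=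
  (bt_n (bt_n (bt_n (bt_b bx5_0) (bt_n (bt_b bx5_1) (bt_b bx5_2))) (bt_n (bt_b bx5_3) (bt_n (bt_b bx5_4) (bt_b bx5_5)))) (bt_n (bt_n (bt_b bx5_6) (bt_n (bt_b bx5_7) (bt_b bx5_8))) (bt_n (bt_b bx5_9) (bt_n (bt_b bx5_10) (bt_b bx5_11)))))
def S5 : StarD := StarD.mk cl13 cl9 cl6 3 1 t5
def G : List StarD := [S0, S1, S2, S3, S4, S5]
theorem so0 : StarOK sI G S0 :=
  star_mk (by decide) (by decide) rfl rfl rfl rfl rfl rfl (rfl : _ = t2) (rfl : _ = t4)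
  (st_mk (Pth.l (Pth.l (Pth.l Pth.z))) (nat_lit 116272733) (nat_lit 134839750) (by decide +kernel))
  (st_mk (Pth.l (Pth.l (Pth.l Pth.z))) (nat_lit 152001459) (nat_lit 170838755) (by decide +kernel))
  (st_mk (Pth.l (Pth.l (Pth.l Pth.z))) (nat_lit 193510174) (nat_lit 212714872) (by decide +kernel)) sv0
theorem so1 : StarOK sI G S1 :=
  star_mk (by decide) (by decide) rfl rfl rfl rfl rfl rfl (rfl : _ = t4) (rfl : _ = t2)
  (st_mk (Pth.l (Pth.l (Pth.l Pth.z))) (nat_lit 96715419) (nat_lit 115277532) (by decide +kernel))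
  (st_mk (Pth.l (Pth.l (Pth.l Pth.z))) (nat_lit 132376724) (nat_lit 151201700) (by decide +kernel))
  (st_mk (Pth.l (Pth.l (Pth.l Pth.z))) (nat_lit 173827995) (nat_lit 193014007) (by decide +kernel)) sv1
theorem so2 : StarOK sI G S2 :=
  star_mk (by decide) (by decide) rfl rfl rfl rfl rfl rfl (rfl : _ = t0) (rfl : _ = t5)
  (st_mk (Pth.l (Pth.l (Pth.l Pth.z))) (nat_lit 186490864) (nat_lit 187792590) (by decide +kernel))
  (st_mk (Pth.l (Pth.l (Pth.l Pth.z))) (nat_lit 221654397) (nat_lit 223272634) (by decide +kernel))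
  (st_mk (Pth.l (Pth.l (Pth.l Pth.z))) (nat_lit 262285342) (nat_lit 264339165) (by decide +kernel)) sv2
theorem so3 : StarOK sI G S3 :=
  star_mk (by decide) (by decide) rfl rfl rfl rfl rfl rfl (rfl : _ = t5) (rfl : _ = t0)
  (st_mk (Pth.l (Pth.l (Pth.l Pth.z))) (nat_lit 96065010) (nat_lit 114517839) (by decide +kernel))
  (st_mk (Pth.l (Pth.l (Pth.l Pth.z))) (nat_lit 131161510) (nat_lit 149885557) (by decide +kernel))
  (st_mk (Pth.l (Pth.l (Pth.l Pth.z))) (nat_lit 171734321) (nat_lit 190855126) (by decide +kernel)) sv3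
theorem so4 : StarOK sI G S4 :=
  star_mk (by decide) (by decide) rfl rfl rfl rfl rfl rfl (rfl : _ = t1) (rfl : _ = t3)
  (st_mk (Pth.l (Pth.l (Pth.l Pth.z))) (nat_lit 185843017) (nat_lit 187075593) (by decide +kernel))
  (st_mk (Pth.l (Pth.l (Pth.l Pth.z))) (nat_lit 220739626) (nat_lit 222257221) (by decide +kernel))
  (st_mk (Pth.l (Pth.l (Pth.l Pth.z))) (nat_lit 261004945) (nat_lit 262913010) (by decide +kernel)) sv4
theorem so5 : StarOK sI G S5 :=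
  star_mk (by decide) (by decide) rfl rfl rfl rfl rfl rfl (rfl : _ = t3) (rfl : _ = t1)
  (st_mk (Pth.l (Pth.l (Pth.l Pth.z))) (nat_lit 115089857) (nat_lit 133441891) (by decide +kernel))
  (st_mk (Pth.l (Pth.l (Pth.l Pth.z))) (nat_lit 149986467) (nat_lit 168585413) (by decide +kernel))
  (st_mk (Pth.l (Pth.l (Pth.l Pth.z))) (nat_lit 190251785) (nat_lit 209208121) (by decide +kernel)) sv5
theorem ok : GroupOK (nat_lit 91226112) (nat_lit 150339584) G := grp_mk (allS_c so0 (allS_c so1 (allS_c so2 (allS_c so3 (allS_c so4 (allS_c so5 allS_n))))))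
theorem cov : GCov G cl6 cl9 cl13 := cov_mk
  ⟨0, by decide, rfl, rfl, rfl⟩ ⟨1, by decide, rfl, rfl, rfl⟩ ⟨2, by decide, rfl, rfl, rfl⟩ ⟨3, by decide, rfl, rfl, rfl⟩ ⟨4, by decide, rfl, rfl, rfl⟩ ⟨5, by decide, rfl, rfl, rfl⟩
end Q356_1

namespace Q356_2
def sI : I := I.pos (nat_lit 150274048) (nat_lit 209387520)
def b0_0 : Bx := Bx.mk (St.mk (I.pos (nat_lit 158351360) (nat_lit 238223360)) (I.mix (nat_lit 1638400) (nat_lit 55443456)) (I.mix (nat_lit 2342912) (nat_lit 82395136)) (I.pos (nat_lit 112771072) (nat_lit 244727808)) (I.mix (nat_lit 97583104) (nat_lit 59932672)) (I.mix (nat_lit 64241664) (nat_lit 59375616)) (I.mix (nat_lit 92700672) (nat_lit 77742080)))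
  false (nat_lit 47277959)
def b0_1 : Bx := Bx.mk (St.mk (I.mix (nat_lit 15482880) (nat_lit 135397376)) (I.mix (nat_lit 8650752) (nat_lit 28049408)) (I.mix (nat_lit 18055168) (nat_lit 16547840)) (I.pos (nat_lit 15073280) (nat_lit 102350848)) (I.mix (nat_lit 30228480) (nat_lit 29966336)) (I.mix (nat_lit 25034752) (nat_lit 20234240)) (I.mix (nat_lit 19660800) (nat_lit 14073856)))
  false (nat_lit 0)
def b0_2 : Bx := Bx.mk (St.mk (I.pos (nat_lit 105431040) (nat_lit 150929408)) (I.mix (nat_lit 50446336) (nat_lit 7782400)) (I.mix (nat_lit 58408960) (nat_lit 98304)) (I.pos (nat_lit 61898752) (nat_lit 119717888)) (I.mix (nat_lit 87801856) (nat_lit 26509312)) (I.mix (nat_lit 31129600) (nat_lit 74186752)) (I.mix (nat_lit 21446656) (nat_lit 63176704)))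
  false (nat_lit 0)
def b0_3 : Bx := Bx.mk (St.mk (I.mix (nat_lit 23707648) (nat_lit 90931200)) (I.mix (nat_lit 25018368) (nat_lit 3997696)) (I.mix (nat_lit 20332544) (nat_lit 327680)) (I.pos (nat_lit 16302080) (nat_lit 66633728)) (I.mix (nat_lit 32325632) (nat_lit 12894208)) (I.mix (nat_lit 12746752) (nat_lit 24936448)) (I.mix (nat_lit 6766592) (nat_lit 13484032)))
  false (nat_lit 0)
def b0_4 : Bx := Bx.mk (St.mk (I.pos (nat_lit 203112448) (nat_lit 281640960)) (I.mix (nat_lit 24608768) (nat_lit 36241408)) (I.mix (nat_lit 81887232) (nat_lit 44777472)) (I.pos (nat_lit 196968448) (nat_lit 340459520)) (I.mix (nat_lit 63864832) (nat_lit 40452096)) (I.mix (nat_lit 44318720) (nat_lit 38879232)) (I.mix (nat_lit 75169792) (nat_lit 70287360)))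
  false (nat_lit 13236479)
def b0_5 : Bx := Bx.mk (St.mk (I.pos (nat_lit 98533376) (nat_lit 178962432)) (I.mix (nat_lit 55689216) (nat_lit 1359872)) (I.neg (nat_lit 6733824) (nat_lit 60456960)) (I.pos (nat_lit 74776576) (nat_lit 156008448)) (I.mix (nat_lit 86196224) (nat_lit 41058304)) (I.mix (nat_lit 40353792) (nat_lit 61128704)) (I.mix (nat_lit 32571392) (nat_lit 59293696)))
  false (nat_lit 2755099)
def b0_6 : Bx := Bx.mk (St.mk (I.mix (nat_lit 27099136) (nat_lit 103022592)) (I.mix (nat_lit 28131328) (nat_lit 5095424)) (I.mix (nat_lit 23871488) (nat_lit 491520)) (I.pos (nat_lit 14712832) (nat_lit 75268096)) (I.mix (nat_lit 36667392) (nat_lit 28639232)) (I.mix (nat_lit 21184512) (nat_lit 31473664)) (I.mix (nat_lit 13090816) (nat_lit 20578304)))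
  false (nat_lit 0)
def b0_7 : Bx := Bx.mk (St.mk (I.pos (nat_lit 172081152) (nat_lit 219725824)) (I.mix (nat_lit 12402688) (nat_lit 54788096)) (I.mix (nat_lit 5144576) (nat_lit 79904768)) (I.pos (nat_lit 136396800) (nat_lit 218497024)) (I.mix (nat_lit 118341632) (nat_lit 47431680)) (I.mix (nat_lit 109477888) (nat_lit 59621376)) (I.mix (nat_lit 121733120) (nat_lit 60801024)))
  false (nat_lit 7227639)
def b0_8 : Bx := Bx.mk (St.mk (I.mix (nat_lit 23478272) (nat_lit 126304256)) (I.mix (nat_lit 12713984) (nat_lit 34308096)) (I.mix (nat_lit 13746176) (nat_lit 21987328)) (I.pos (nat_lit 15548416) (nat_lit 93372416)) (I.mix (nat_lit 46661632) (nat_lit 26181632)) (I.mix (nat_lit 39747584) (nat_lit 24887296)) (I.mix (nat_lit 25100288) (nat_lit 15417344)))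
  false (nat_lit 0)
def b0_9 : Bx := Bx.mk (St.mk (I.pos (nat_lit 187449344) (nat_lit 239091712)) (I.pos (nat_lit 8568832) (nat_lit 55476224)) (I.pos (nat_lit 8093696) (nat_lit 81543168)) (I.pos (nat_lit 186417152) (nat_lit 242188288)) (I.mix (nat_lit 88195072) (nat_lit 58245120)) (I.mix (nat_lit 68927488) (nat_lit 48660480)) (I.mix (nat_lit 107364352) (nat_lit 61079552)))
  false (nat_lit 32086051)
def b0_10 : Bx := Bx.mk (St.mk (I.pos (nat_lit 152551424) (nat_lit 215302144)) (I.mix (nat_lit 40124416) (nat_lit 20463616)) (I.mix (nat_lit 49020928) (nat_lit 30212096)) (I.pos (nat_lit 112852992) (nat_lit 205324288)) (I.mix (nat_lit 55296000) (nat_lit 48726016)) (I.mix (nat_lit 52772864) (nat_lit 47120384)) (I.mix (nat_lit 56049664) (nat_lit 49676288)))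
  false (nat_lit 33119125)
def b0_11 : Bx := Bx.mk (St.mk (I.pos (nat_lit 174063616) (nat_lit 214548480)) (I.mix (nat_lit 18333696) (nat_lit 33357824)) (I.mix (nat_lit 15728640) (nat_lit 50135040)) (I.pos (nat_lit 140099584) (nat_lit 204849152)) (I.mix (nat_lit 99008512) (nat_lit 54394880)) (I.mix (nat_lit 108199936) (nat_lit 50626560)) (I.mix (nat_lit 121651200) (nat_lit 52789248)))
  false (nat_lit 6134843)
def t0 : BTr := (BTr.n (BTr.n (BTr.n (BTr.b b0_0) (BTr.n (BTr.b b0_1) (BTr.b b0_2))) (BTr.n (BTr.b b0_3) (BTr.n (BTr.b b0_4) (BTr.b b0_5)))) (BTr.n (BTr.n (BTr.b b0_6) (BTr.n (BTr.b b0_7) (BTr.b b0_8))) (BTr.n (BTr.b b0_9) (BTr.n (BTr.b b0_10) (BTr.b b0_11)))))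
namespace T0
def l0 : Tr := Tr.L (Pth.l (Pth.l (Pth.l Pth.z)))
def l1 : Tr := Tr.L (Pth.l (Pth.l (Pth.r (Pth.l Pth.z))))
def l2 : Tr := Tr.L (Pth.l (Pth.l (Pth.r (Pth.r Pth.z))))
def l3 : Tr := Tr.L (Pth.l (Pth.r (Pth.l Pth.z)))
def l4 : Tr := Tr.L (Pth.l (Pth.r (Pth.r (Pth.l Pth.z))))
def l5 : Tr := Tr.L (Pth.l (Pth.r (Pth.r (Pth.r Pth.z))))
def l6 : Tr := Tr.L (Pth.r (Pth.l (Pth.l Pth.z)))
def l7 : Tr := Tr.L (Pth.r (Pth.l (Pth.r (Pth.l Pth.z))))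
def l8 : Tr := Tr.L (Pth.r (Pth.l (Pth.r (Pth.r Pth.z))))
def l9 : Tr := Tr.L (Pth.r (Pth.r (Pth.l Pth.z)))
def l10 : Tr := Tr.L (Pth.r (Pth.r (Pth.r (Pth.l Pth.z))))
def l11 : Tr := Tr.L (Pth.r (Pth.r (Pth.r (Pth.r Pth.z))))
end T0
def b1_0 : Bx := Bx.mk (St.mk (I.pos (nat_lit 158334976) (nat_lit 239648768)) (I.mix (nat_lit 1523712) (nat_lit 50511872)) (I.mix (nat_lit 2375680) (nat_lit 82984960)) (I.pos (nat_lit 93208576) (nat_lit 225738752)) (I.mix (nat_lit 92848128) (nat_lit 57589760)) (I.mix (nat_lit 65273856) (nat_lit 57180160)) (I.mix (nat_lit 93503488) (nat_lit 72237056)))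
  false (nat_lit 33045093)
def b1_1 : Bx := Bx.mk (St.mk (I.mix (nat_lit 9437184) (nat_lit 144490496)) (I.mix (nat_lit 7716864) (nat_lit 22822912)) (I.mix (nat_lit 13746176) (nat_lit 17694720)) (I.mix (nat_lit 3244032) (nat_lit 92323840)) (I.mix (nat_lit 26476544) (nat_lit 24182784)) (I.mix (nat_lit 22331392) (nat_lit 17039360)) (I.mix (nat_lit 19021824) (nat_lit 13008896)))
  false (nat_lit 0)
def b1_2 : Bx := Bx.mk (St.mk (I.pos (nat_lit 115687424) (nat_lit 157761536)) (I.mix (nat_lit 46628864) (nat_lit 7176192)) (I.mix (nat_lit 53870592) (nat_lit 2883584)) (I.pos (nat_lit 52150272) (nat_lit 109035520)) (I.mix (nat_lit 83279872) (nat_lit 24576000)) (I.mix (nat_lit 27475968) (nat_lit 71778304)) (I.mix (nat_lit 21676032) (nat_lit 65814528)))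
  false (nat_lit 0)
def b1_3 : Bx := Bx.mk (St.mk (I.mix (nat_lit 13582336) (nat_lit 106692608)) (I.mix (nat_lit 22495232) (nat_lit 2293760)) (I.mix (nat_lit 18792448) (nat_lit 1097728)) (I.mix (nat_lit 2260992) (nat_lit 58310656)) (I.mix (nat_lit 32276480) (nat_lit 12894208)) (I.mix (nat_lit 12566528) (nat_lit 24707072)) (I.mix (nat_lit 7192576) (nat_lit 15695872)))
  false (nat_lit 0)
def b1_4 : Bx := Bx.mk (St.mk (I.pos (nat_lit 203800576) (nat_lit 282918912)) (I.mix (nat_lit 23330816) (nat_lit 33800192)) (I.mix (nat_lit 67158016) (nat_lit 51576832)) (I.pos (nat_lit 178831360) (nat_lit 322437120)) (I.mix (nat_lit 63717376) (nat_lit 41484288)) (I.mix (nat_lit 43892736) (nat_lit 38420480)) (I.mix (nat_lit 74858496) (nat_lit 62914560)))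
  false (nat_lit 0)
def b1_5 : Bx := Bx.mk (St.mk (I.pos (nat_lit 110346240) (nat_lit 185450496)) (I.mix (nat_lit 51822592) (nat_lit 49152)) (I.neg (nat_lit 4194304) (nat_lit 55705600)) (I.pos (nat_lit 65437696) (nat_lit 145424384)) (I.mix (nat_lit 77283328) (nat_lit 42483712)) (I.mix (nat_lit 39632896) (nat_lit 58294272)) (I.mix (nat_lit 33669120) (nat_lit 61079552)))
  false (nat_lit 0)
def b1_6 : Bx := Bx.mk (St.mk (I.pos (nat_lit 27246592) (nat_lit 115720192)) (I.mix (nat_lit 25280512) (nat_lit 5668864)) (I.mix (nat_lit 20807680) (nat_lit 753664)) (I.pos (nat_lit 7094272) (nat_lit 66535424)) (I.mix (nat_lit 31768576) (nat_lit 24821760)) (I.mix (nat_lit 17547264) (nat_lit 26247168)) (I.mix (nat_lit 10027008) (nat_lit 18661376)))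
  false (nat_lit 0)
def b1_7 : Bx := Bx.mk (St.mk (I.pos (nat_lit 175767552) (nat_lit 219021312)) (I.mix (nat_lit 13729792) (nat_lit 48168960)) (I.mix (nat_lit 2916352) (nat_lit 77004800)) (I.pos (nat_lit 121044992) (nat_lit 197361664)) (I.mix (nat_lit 109887488) (nat_lit 46792704)) (I.mix (nat_lit 108314624) (nat_lit 54706176)) (I.mix (nat_lit 124469248) (nat_lit 55934976)))
  false (nat_lit 0)
def b1_8 : Bx := Bx.mk (St.mk (I.mix (nat_lit 14352384) (nat_lit 136904704)) (I.mix (nat_lit 13008896) (nat_lit 32030720)) (I.mix (nat_lit 12582912) (nat_lit 24330240)) (I.mix (nat_lit 2998272) (nat_lit 83673088)) (I.mix (nat_lit 47398912) (nat_lit 26656768)) (I.mix (nat_lit 42057728) (nat_lit 22233088)) (I.mix (nat_lit 30081024) (nat_lit 15187968)))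
  false (nat_lit 0)
def b1_9 : Bx := Bx.mk (St.mk (I.pos (nat_lit 156352512) (nat_lit 215678976)) (I.mix (nat_lit 39747584) (nat_lit 14761984)) (I.mix (nat_lit 45842432) (nat_lit 27787264)) (I.pos (nat_lit 98533376) (nat_lit 184532992)) (I.mix (nat_lit 56983552) (nat_lit 49364992)) (I.mix (nat_lit 53936128) (nat_lit 46235648)) (I.mix (nat_lit 59064320) (nat_lit 50266112)))
  false (nat_lit 4413954)
def b1_10 : Bx := Bx.mk (St.mk (I.pos (nat_lit 176472064) (nat_lit 219299840)) (I.mix (nat_lit 19824640) (nat_lit 29736960)) (I.mix (nat_lit 13631488) (nat_lit 50462720)) (I.pos (nat_lit 124878848) (nat_lit 192397312)) (I.mix (nat_lit 104120320) (nat_lit 60047360)) (I.mix (nat_lit 113475584) (nat_lit 54542336)) (I.mix (nat_lit 131792896) (nat_lit 58802176)))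
  false (nat_lit 0)
def b1_11 : Bx := Bx.mk (St.mk (I.pos (nat_lit 188743680) (nat_lit 240041984)) (I.pos (nat_lit 7503872) (nat_lit 51003392)) (I.pos (nat_lit 11485184) (nat_lit 83427328)) (I.pos (nat_lit 165969920) (nat_lit 224870400)) (I.mix (nat_lit 84836352) (nat_lit 62226432)) (I.mix (nat_lit 71991296) (nat_lit 51904512)) (I.mix (nat_lit 114376704) (nat_lit 63602688)))
  false (nat_lit 22987074)
def t1 : BTr := (BTr.n (BTr.n (BTr.n (BTr.b b1_0) (BTr.n (BTr.b b1_1) (BTr.b b1_2))) (BTr.n (BTr.b b1_3) (BTr.n (BTr.b b1_4) (BTr.b b1_5)))) (BTr.n (BTr.n (BTr.b b1_6) (BTr.n (BTr.b b1_7) (BTr.b b1_8))) (BTr.n (BTr.b b1_9) (BTr.n (BTr.b b1_10) (BTr.b b1_11)))))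
namespace T1
def l0 : Tr := Tr.L (Pth.l (Pth.l (Pth.l Pth.z)))
def l1 : Tr := Tr.L (Pth.l (Pth.l (Pth.r (Pth.l Pth.z))))
def l2 : Tr := Tr.L (Pth.l (Pth.l (Pth.r (Pth.r Pth.z))))
def l3 : Tr := Tr.L (Pth.l (Pth.r (Pth.l Pth.z)))
def l4 : Tr := Tr.L (Pth.l (Pth.r (Pth.r (Pth.l Pth.z))))
def l5 : Tr := Tr.L (Pth.l (Pth.r (Pth.r (Pth.r Pth.z))))
def l6 : Tr := Tr.L (Pth.r (Pth.l (Pth.l Pth.z)))
def l7 : Tr := Tr.L (Pth.r (Pth.l (Pth.r (Pth.l Pth.z))))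
def l8 : Tr := Tr.L (Pth.r (Pth.l (Pth.r (Pth.r Pth.z))))
def l9 : Tr := Tr.L (Pth.r (Pth.r (Pth.l Pth.z)))
def l10 : Tr := Tr.L (Pth.r (Pth.r (Pth.r (Pth.l Pth.z))))
def l11 : Tr := Tr.L (Pth.r (Pth.r (Pth.r (Pth.r Pth.z))))
end T1
def b2_0 : Bx := Bx.mk (St.mk (I.pos (nat_lit 157630464) (nat_lit 232046592)) (I.mix (nat_lit 1867776) (nat_lit 64290816)) (I.mix (nat_lit 2670592) (nat_lit 94765056)) (I.pos (nat_lit 183074816) (nat_lit 290324480)) (I.mix (nat_lit 110002176) (nat_lit 60342272)) (I.mix (nat_lit 67960832) (nat_lit 61128704)) (I.mix (nat_lit 89210880) (nat_lit 79724544)))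
  false (nat_lit 115472397)
def b2_1 : Bx := Bx.mk (St.mk (I.mix (nat_lit 40927232) (nat_lit 99516416)) (I.mix (nat_lit 6963200) (nat_lit 40206336)) (I.mix (nat_lit 17055744) (nat_lit 15400960)) (I.pos (nat_lit 76201984) (nat_lit 124977152)) (I.mix (nat_lit 36405248) (nat_lit 45137920)) (I.mix (nat_lit 38862848) (nat_lit 28016640)) (I.mix (nat_lit 25034752) (nat_lit 14909440)))
  false (nat_lit 0)
def b2_2 : Bx := Bx.mk (St.mk (I.pos (nat_lit 78839808) (nat_lit 123502592)) (I.mix (nat_lit 56180736) (nat_lit 7815168)) (I.neg (nat_lit 3719168) (nat_lit 53067776)) (I.pos (nat_lit 111837184) (nat_lit 146636800)) (I.mix (nat_lit 72220672) (nat_lit 25214976)) (I.mix (nat_lit 26673152) (nat_lit 60817408)) (I.mix (nat_lit 19300352) (nat_lit 41762816)))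
  false (nat_lit 0)
def b2_3 : Bx := Bx.mk (St.mk (I.mix (nat_lit 48857088) (nat_lit 30408704)) (I.mix (nat_lit 32194560) (nat_lit 5505024)) (I.mix (nat_lit 12042240) (nat_lit 2490368)) (I.pos (nat_lit 82640896) (nat_lit 100827136)) (I.mix (nat_lit 32489472) (nat_lit 19841024)) (I.mix (nat_lit 16941056) (nat_lit 27082752)) (I.mix (nat_lit 9928704) (nat_lit 5128192)))
  false (nat_lit 0)
def b2_4 : Bx := Bx.mk (St.mk (I.pos (nat_lit 85573632) (nat_lit 162136064)) (I.neg (nat_lit 5537792) (nat_lit 60375040)) (I.neg (nat_lit 4456448) (nat_lit 56852480)) (I.pos (nat_lit 124403712) (nat_lit 187645952)) (I.mix (nat_lit 75169792) (nat_lit 36569088)) (I.mix (nat_lit 34734080) (nat_lit 51953664)) (I.mix (nat_lit 26394624) (nat_lit 44843008)))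
  false (nat_lit 0)
def b2_5 : Bx := Bx.mk (St.mk (I.mix (nat_lit 34308096) (nat_lit 47022080)) (I.mix (nat_lit 32587776) (nat_lit 4882432)) (I.mix (nat_lit 14417920) (nat_lit 1523712)) (I.pos (nat_lit 81903616) (nat_lit 101302272)) (I.mix (nat_lit 26755072) (nat_lit 26247168)) (I.mix (nat_lit 17629184) (nat_lit 25772032)) (I.mix (nat_lit 6963200) (nat_lit 9551872)))
  false (nat_lit 0)
def b2_6 : Bx := Bx.mk (St.mk (I.pos (nat_lit 161529856) (nat_lit 212123648)) (I.mix (nat_lit 1196032) (nat_lit 61521920)) (I.pos (nat_lit 11288576) (nat_lit 88539136)) (I.pos (nat_lit 194756608) (nat_lit 257015808)) (I.mix (nat_lit 115310592) (nat_lit 37011456)) (I.mix (nat_lit 100892672) (nat_lit 54657024)) (I.mix (nat_lit 95813632) (nat_lit 47398912)))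
  false (nat_lit 85634296)
def b2_7 : Bx := Bx.mk (St.mk (I.mix (nat_lit 48218112) (nat_lit 75399168)) (I.mix (nat_lit 8192000) (nat_lit 34865152)) (I.mix (nat_lit 14729216) (nat_lit 12206080)) (I.pos (nat_lit 81608704) (nat_lit 110968832)) (I.mix (nat_lit 38469632) (nat_lit 30703616)) (I.mix (nat_lit 34308096) (nat_lit 23543808)) (I.mix (nat_lit 12877824) (nat_lit 13074432)))
  false (nat_lit 0)
def b2_8 : Bx := Bx.mk (St.mk (I.pos (nat_lit 189808640) (nat_lit 284672000)) (I.mix (nat_lit 21987328) (nat_lit 46235648)) (I.mix (nat_lit 77545472) (nat_lit 60030976)) (I.pos (nat_lit 245481472) (nat_lit 390316032)) (I.mix (nat_lit 79937536) (nat_lit 53215232)) (I.mix (nat_lit 57147392) (nat_lit 37208064)) (I.mix (nat_lit 88866816) (nat_lit 69222400)))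
  false (nat_lit 94235999)
def b2_9 : Bx := Bx.mk (St.mk (I.pos (nat_lit 142540800) (nat_lit 202260480)) (I.mix (nat_lit 36306944) (nat_lit 19939328)) (I.mix (nat_lit 33636352) (nat_lit 36339712)) (I.pos (nat_lit 168230912) (nat_lit 234307584)) (I.mix (nat_lit 57278464) (nat_lit 55083008)) (I.mix (nat_lit 55263232) (nat_lit 51429376)) (I.mix (nat_lit 50954240) (nat_lit 47529984)))
  false (nat_lit 0)
def b2_10 : Bx := Bx.mk (St.mk (I.pos (nat_lit 163151872) (nat_lit 205111296)) (I.mix (nat_lit 7290880) (nat_lit 38731776)) (I.pos (nat_lit 2686976) (nat_lit 62586880)) (I.pos (nat_lit 197017600) (nat_lit 241041408)) (I.mix (nat_lit 105906176) (nat_lit 60129280)) (I.mix (nat_lit 109461504) (nat_lit 56279040)) (I.mix (nat_lit 107675648) (nat_lit 50610176)))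
  false (nat_lit 28023981)
def b2_11 : Bx := Bx.mk (St.mk (I.pos (nat_lit 176881664) (nat_lit 232243200)) (I.pos (nat_lit 13336576) (nat_lit 60653568)) (I.pos (nat_lit 14548992) (nat_lit 88408064)) (I.pos (nat_lit 234045440) (nat_lit 285966336)) (I.mix (nat_lit 99008512) (nat_lit 72941568)) (I.mix (nat_lit 83066880) (nat_lit 57688064)) (I.mix (nat_lit 121421824) (nat_lit 72892416)))
  false (nat_lit 86641179)
def t2 : BTr := (BTr.n (BTr.n (BTr.n (BTr.b b2_0) (BTr.n (BTr.b b2_1) (BTr.b b2_2))) (BTr.n (BTr.b b2_3) (BTr.n (BTr.b b2_4) (BTr.b b2_5)))) (BTr.n (BTr.n (BTr.b b2_6) (BTr.n (BTr.b b2_7) (BTr.b b2_8))) (BTr.n (BTr.b b2_9) (BTr.n (BTr.b b2_10) (BTr.b b2_11)))))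
namespace T2
def l0 : Tr := Tr.L (Pth.l (Pth.l (Pth.l Pth.z)))
def l1 : Tr := Tr.L (Pth.l (Pth.l (Pth.r (Pth.l Pth.z))))
def l2 : Tr := Tr.L (Pth.l (Pth.l (Pth.r (Pth.r Pth.z))))
def l3 : Tr := Tr.L (Pth.l (Pth.r (Pth.l Pth.z)))
def l4 : Tr := Tr.L (Pth.l (Pth.r (Pth.r (Pth.l Pth.z))))
def l5 : Tr := Tr.L (Pth.l (Pth.r (Pth.r (Pth.r Pth.z))))
def l6 : Tr := Tr.L (Pth.r (Pth.l (Pth.l Pth.z)))
def l7 : Tr := Tr.L (Pth.r (Pth.l (Pth.r (Pth.l Pth.z))))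
def l8 : Tr := Tr.L (Pth.r (Pth.l (Pth.r (Pth.r Pth.z))))
def l9 : Tr := Tr.L (Pth.r (Pth.r (Pth.l Pth.z)))
def l10 : Tr := Tr.L (Pth.r (Pth.r (Pth.r (Pth.l Pth.z))))
def l11 : Tr := Tr.L (Pth.r (Pth.r (Pth.r (Pth.r Pth.z))))
end T2
def b3_0 : Bx := Bx.mk (St.mk (I.pos (nat_lit 158367744) (nat_lit 237240320)) (I.mix (nat_lit 1425408) (nat_lit 44777472)) (I.mix (nat_lit 2719744) (nat_lit 93044736)) (I.pos (nat_lit 92700672) (nat_lit 214892544)) (I.mix (nat_lit 97173504) (nat_lit 55590912)) (I.mix (nat_lit 73973760) (nat_lit 56295424)) (I.mix (nat_lit 106545152) (nat_lit 72433664)))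
  false (nat_lit 40936409)
def b3_1 : Bx := Bx.mk (St.mk (I.pos (nat_lit 116473856) (nat_lit 190152704)) (I.neg (nat_lit 3833856) (nat_lit 53067776)) (I.mix (nat_lit 47661056) (nat_lit 8077312)) (I.pos (nat_lit 70369280) (nat_lit 150093824)) (I.mix (nat_lit 70008832) (nat_lit 37502976)) (I.mix (nat_lit 37421056) (nat_lit 46825472)) (I.mix (nat_lit 30228480) (nat_lit 47595520)))
  false (nat_lit 15505499)
def b3_2 : Bx := Bx.mk (St.mk (I.mix (nat_lit 11042816) (nat_lit 119603200)) (I.mix (nat_lit 24543232) (nat_lit 4308992)) (I.mix (nat_lit 15106048) (nat_lit 7749632)) (I.mix (nat_lit 2539520) (nat_lit 68173824)) (I.mix (nat_lit 25247744) (nat_lit 19841024)) (I.mix (nat_lit 14417920) (nat_lit 18841600)) (I.mix (nat_lit 8880128) (nat_lit 13238272)))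
  false (nat_lit 0)
def b3_3 : Bx := Bx.mk (St.mk (I.pos (nat_lit 174800896) (nat_lit 214695936)) (I.mix (nat_lit 11190272) (nat_lit 45662208)) (I.pos (nat_lit 10043392) (nat_lit 89096192)) (I.pos (nat_lit 118161408) (nat_lit 186417152)) (I.mix (nat_lit 116293632) (nat_lit 38600704)) (I.mix (nat_lit 108773376) (nat_lit 47955968)) (I.mix (nat_lit 133185536) (nat_lit 43450368)))
  false (nat_lit 15043242)
def b3_4 : Bx := Bx.mk (St.mk (I.mix (nat_lit 14876672) (nat_lit 135168000)) (I.mix (nat_lit 12599296) (nat_lit 31948800)) (I.mix (nat_lit 5734400) (nat_lit 31834112)) (I.mix (nat_lit 2932736) (nat_lit 81526784)) (I.mix (nat_lit 53592064) (nat_lit 23789568)) (I.mix (nat_lit 43253760) (nat_lit 21807104)) (I.mix (nat_lit 32079872) (nat_lit 13221888)))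
  false (nat_lit 0)
def b3_5 : Bx := Bx.mk (St.mk (I.pos (nat_lit 154812416) (nat_lit 213614592)) (I.mix (nat_lit 36749312) (nat_lit 12009472)) (I.mix (nat_lit 27803648) (nat_lit 40124416)) (I.pos (nat_lit 99631104) (nat_lit 180060160)) (I.mix (nat_lit 48939008) (nat_lit 50020352)) (I.mix (nat_lit 47710208) (nat_lit 45760512)) (I.mix (nat_lit 49889280) (nat_lit 48676864)))
  false (nat_lit 29748440)
def b3_6 : Bx := Bx.mk (St.mk (I.pos (nat_lit 38191104) (nat_lit 140492800)) (I.mix (nat_lit 5357568) (nat_lit 22233088)) (I.mix (nat_lit 2211840) (nat_lit 25624576)) (I.pos (nat_lit 12402688) (nat_lit 89620480)) (I.mix (nat_lit 33882112) (nat_lit 29884416)) (I.mix (nat_lit 32768000) (nat_lit 21856256)) (I.mix (nat_lit 28311552) (nat_lit 15876096)))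
  false (nat_lit 0)
def b3_7 : Bx := Bx.mk (St.mk (I.pos (nat_lit 116817920) (nat_lit 163004416)) (I.mix (nat_lit 50085888) (nat_lit 6946816)) (I.mix (nat_lit 46055424) (nat_lit 11894784)) (I.pos (nat_lit 53559296) (nat_lit 115048448)) (I.mix (nat_lit 78462976) (nat_lit 30556160)) (I.mix (nat_lit 28983296) (nat_lit 67158016)) (I.mix (nat_lit 23904256) (nat_lit 56967168)))
  false (nat_lit 0)
def b3_8 : Bx := Bx.mk (St.mk (I.mix (nat_lit 8142848) (nat_lit 107986944)) (I.mix (nat_lit 22855680) (nat_lit 3276800)) (I.mix (nat_lit 13697024) (nat_lit 5701632)) (I.mix (nat_lit 65536) (nat_lit 59588608)) (I.mix (nat_lit 28901376) (nat_lit 18219008)) (I.mix (nat_lit 14925824) (nat_lit 26345472)) (I.mix (nat_lit 8617984) (nat_lit 15761408)))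
  false (nat_lit 0)
def b3_9 : Bx := Bx.mk (St.mk (I.pos (nat_lit 192987136) (nat_lit 282771456)) (I.mix (nat_lit 17940480) (nat_lit 36798464)) (I.mix (nat_lit 23789568) (nat_lit 83116032)) (I.pos (nat_lit 164069376) (nat_lit 315031552)) (I.mix (nat_lit 74858496) (nat_lit 50724864)) (I.mix (nat_lit 55410688) (nat_lit 35864576)) (I.mix (nat_lit 87736320) (nat_lit 55115776)))
  false (nat_lit 42709926)
def b3_10 : Bx := Bx.mk (St.mk (I.pos (nat_lit 184975360) (nat_lit 238092288)) (I.pos (nat_lit 7290880) (nat_lit 45203456)) (I.pos (nat_lit 25952256) (nat_lit 93814784)) (I.pos (nat_lit 156057600) (nat_lit 214990848)) (I.mix (nat_lit 89636864) (nat_lit 69730304)) (I.mix (nat_lit 83968000) (nat_lit 58703872)) (I.mix (nat_lit 129941504) (nat_lit 76398592)))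
  false (nat_lit 59057283)
def b3_11 : Bx := Bx.mk (St.mk (I.pos (nat_lit 174407680) (nat_lit 214466560)) (I.mix (nat_lit 16793600) (nat_lit 26279936)) (I.pos (nat_lit 4128768) (nat_lit 61882368)) (I.pos (nat_lit 117358592) (nat_lit 179257344)) (I.mix (nat_lit 100532224) (nat_lit 54099968)) (I.mix (nat_lit 104546304) (nat_lit 51986432)) (I.mix (nat_lit 122912768) (nat_lit 53149696)))
  false (nat_lit 31643639)
def t3 : BTr := (BTr.n (BTr.n (BTr.n (BTr.b b3_0) (BTr.n (BTr.b b3_1) (BTr.b b3_2))) (BTr.n (BTr.b b3_3) (BTr.n (BTr.b b3_4) (BTr.b b3_5)))) (BTr.n (BTr.n (BTr.b b3_6) (BTr.n (BTr.b b3_7) (BTr.b b3_8))) (BTr.n (BTr.b b3_9) (BTr.n (BTr.b b3_10) (BTr.b b3_11)))))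
namespace T3
def l0 : Tr := Tr.L (Pth.l (Pth.l (Pth.l Pth.z)))
def l1 : Tr := Tr.L (Pth.l (Pth.l (Pth.r (Pth.l Pth.z))))
def l2 : Tr := Tr.L (Pth.l (Pth.l (Pth.r (Pth.r Pth.z))))
def l3 : Tr := Tr.L (Pth.l (Pth.r (Pth.l Pth.z)))
def l4 : Tr := Tr.L (Pth.l (Pth.r (Pth.r (Pth.l Pth.z))))
def l5 : Tr := Tr.L (Pth.l (Pth.r (Pth.r (Pth.r Pth.z))))
def l6 : Tr := Tr.L (Pth.r (Pth.l (Pth.l Pth.z)))
def l7 : Tr := Tr.L (Pth.r (Pth.l (Pth.r (Pth.l Pth.z))))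
def l8 : Tr := Tr.L (Pth.r (Pth.l (Pth.r (Pth.r Pth.z))))
def l9 : Tr := Tr.L (Pth.r (Pth.r (Pth.l Pth.z)))
def l10 : Tr := Tr.L (Pth.r (Pth.r (Pth.r (Pth.l Pth.z))))
def l11 : Tr := Tr.L (Pth.r (Pth.r (Pth.r (Pth.r Pth.z))))
end T3
def b4_0 : Bx := Bx.mk (St.mk (I.pos (nat_lit 154157056) (nat_lit 231456768)) (I.mix (nat_lit 1818624) (nat_lit 60309504)) (I.mix (nat_lit 2850816) (nat_lit 97157120)) (I.pos (nat_lit 182419456) (nat_lit 285949952)) (I.mix (nat_lit 110247936) (nat_lit 58490880)) (I.mix (nat_lit 72581120) (nat_lit 57901056)) (I.mix (nat_lit 94519296) (nat_lit 77266944)))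
  false (nat_lit 78148537)
def b4_1 : Bx := Bx.mk (St.mk (I.pos (nat_lit 88686592) (nat_lit 164380672)) (I.neg (nat_lit 6569984) (nat_lit 60882944)) (I.mix (nat_lit 52346880) (nat_lit 3194880)) (I.pos (nat_lit 126173184) (nat_lit 189792256)) (I.mix (nat_lit 72450048) (nat_lit 39960576)) (I.mix (nat_lit 34652160) (nat_lit 51707904)) (I.mix (nat_lit 27410432) (nat_lit 44007424)))
  false (nat_lit 0)
def b4_2 : Bx := Bx.mk (St.mk (I.mix (nat_lit 32505856) (nat_lit 48414720)) (I.mix (nat_lit 32800768) (nat_lit 5472256)) (I.mix (nat_lit 10698752) (nat_lit 5062656)) (I.pos (nat_lit 82411520) (nat_lit 101056512)) (I.mix (nat_lit 23117824) (nat_lit 29458432)) (I.mix (nat_lit 17809408) (nat_lit 26017792)) (I.mix (nat_lit 6242304) (nat_lit 9551872)))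
  false (nat_lit 0)
def b4_3 : Bx := Bx.mk (St.mk (I.pos (nat_lit 159858688) (nat_lit 209944576)) (I.mix (nat_lit 1622016) (nat_lit 59817984)) (I.pos (nat_lit 17170432) (nat_lit 93683712)) (I.pos (nat_lit 190808064) (nat_lit 251985920)) (I.mix (nat_lit 118276096) (nat_lit 35405824)) (I.mix (nat_lit 104906752) (nat_lit 53248000)) (I.mix (nat_lit 101433344) (nat_lit 45645824)))
  false (nat_lit 87011029)
def b4_4 : Bx := Bx.mk (St.mk (I.mix (nat_lit 49610752) (nat_lit 75251712)) (I.mix (nat_lit 8880128) (nat_lit 38535168)) (I.mix (nat_lit 12337152) (nat_lit 15892480)) (I.pos (nat_lit 82132992) (nat_lit 110329856)) (I.mix (nat_lit 41664512) (nat_lit 29769728)) (I.mix (nat_lit 35405824) (nat_lit 23527424)) (I.mix (nat_lit 13107200) (nat_lit 13123584)))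
  false (nat_lit 0)
def b4_5 : Bx := Bx.mk (St.mk (I.mix (nat_lit 42991616) (nat_lit 98222080)) (I.mix (nat_lit 5308416) (nat_lit 39649280)) (I.mix (nat_lit 11878400) (nat_lit 19972096)) (I.pos (nat_lit 75366400) (nat_lit 124616704)) (I.mix (nat_lit 38158336) (nat_lit 40960000)) (I.mix (nat_lit 37601280) (nat_lit 27607040)) (I.mix (nat_lit 24051712) (nat_lit 15990784)))
  false (nat_lit 0)
def b4_6 : Bx := Bx.mk (St.mk (I.pos (nat_lit 79937536) (nat_lit 125517824)) (I.mix (nat_lit 57622528) (nat_lit 6275072)) (I.neg (nat_lit 753664) (nat_lit 49135616)) (I.pos (nat_lit 113115136) (nat_lit 148652032)) (I.mix (nat_lit 70533120) (nat_lit 28377088)) (I.mix (nat_lit 27639808) (nat_lit 56688640)) (I.mix (nat_lit 20168704) (nat_lit 38289408)))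
  false (nat_lit 0)
def b4_7 : Bx := Bx.mk (St.mk (I.mix (nat_lit 47726592) (nat_lit 32063488)) (I.mix (nat_lit 32145408) (nat_lit 4308992)) (I.mix (nat_lit 8732672) (nat_lit 6127616)) (I.pos (nat_lit 82788352) (nat_lit 100843520)) (I.mix (nat_lit 29179904) (nat_lit 23101440)) (I.mix (nat_lit 17039360) (nat_lit 25690112)) (I.mix (nat_lit 9502720) (nat_lit 5816320)))
  false (nat_lit 0)
def b4_8 : Bx := Bx.mk (St.mk (I.pos (nat_lit 141885440) (nat_lit 201113600)) (I.mix (nat_lit 38977536) (nat_lit 18366464)) (I.mix (nat_lit 29818880) (nat_lit 42074112)) (I.pos (nat_lit 167542784) (nat_lit 231129088)) (I.mix (nat_lit 60588032) (nat_lit 56442880)) (I.mix (nat_lit 57278464) (nat_lit 51396608)) (I.mix (nat_lit 52674560) (nat_lit 47349760)))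
  false (nat_lit 0)
def b4_9 : Bx := Bx.mk (St.mk (I.pos (nat_lit 199639040) (nat_lit 283148288)) (I.mix (nat_lit 15482880) (nat_lit 47153152)) (I.mix (nat_lit 52527104) (nat_lit 73793536)) (I.pos (nat_lit 254296064) (nat_lit 385089536)) (I.mix (nat_lit 76546048) (nat_lit 53182464)) (I.mix (nat_lit 56836096) (nat_lit 36945920)) (I.mix (nat_lit 86458368) (nat_lit 58114048)))
  false (nat_lit 79277318)
def b4_10 : Bx := Bx.mk (St.mk (I.pos (nat_lit 175980544) (nat_lit 226557952)) (I.pos (nat_lit 18202624) (nat_lit 57622528)) (I.pos (nat_lit 31080448) (nat_lit 92946432)) (I.pos (nat_lit 229523456) (nat_lit 276987904)) (I.mix (nat_lit 100335616) (nat_lit 67420160)) (I.mix (nat_lit 83263488) (nat_lit 54362112)) (I.mix (nat_lit 120995840) (nat_lit 66387968)))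
  false (nat_lit 54211832)
def b4_11 : Bx := Bx.mk (St.mk (I.pos (nat_lit 160661504) (nat_lit 203915264)) (I.mix (nat_lit 8339456) (nat_lit 38289408)) (I.pos (nat_lit 8896512) (nat_lit 69517312)) (I.pos (nat_lit 191660032) (nat_lit 238288896)) (I.mix (nat_lit 105496576) (nat_lit 53985280)) (I.mix (nat_lit 106397696) (nat_lit 50118656)) (I.mix (nat_lit 105988096) (nat_lit 46399488)))
  false (nat_lit 33602040)
def t4 : BTr := (BTr.n (BTr.n (BTr.n (BTr.b b4_0) (BTr.n (BTr.b b4_1) (BTr.b b4_2))) (BTr.n (BTr.b b4_3) (BTr.n (BTr.b b4_4) (BTr.b b4_5)))) (BTr.n (BTr.n (BTr.b b4_6) (BTr.n (BTr.b b4_7) (BTr.b b4_8))) (BTr.n (BTr.b b4_9) (BTr.n (BTr.b b4_10) (BTr.b b4_11)))))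
namespace T4
def l0 : Tr := Tr.L (Pth.l (Pth.l (Pth.l Pth.z)))
def l1 : Tr := Tr.L (Pth.l (Pth.l (Pth.r (Pth.l Pth.z))))
def l2 : Tr := Tr.L (Pth.l (Pth.l (Pth.r (Pth.r Pth.z))))
def l3 : Tr := Tr.L (Pth.l (Pth.r (Pth.l Pth.z)))
def l4 : Tr := Tr.L (Pth.l (Pth.r (Pth.r (Pth.l Pth.z))))
def l5 : Tr := Tr.L (Pth.l (Pth.r (Pth.r (Pth.r Pth.z))))
def l6 : Tr := Tr.L (Pth.r (Pth.l (Pth.l Pth.z)))
def l7 : Tr := Tr.L (Pth.r (Pth.l (Pth.r (Pth.l Pth.z))))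
def l8 : Tr := Tr.L (Pth.r (Pth.l (Pth.r (Pth.r Pth.z))))
def l9 : Tr := Tr.L (Pth.r (Pth.r (Pth.l Pth.z)))
def l10 : Tr := Tr.L (Pth.r (Pth.r (Pth.r (Pth.l Pth.z))))
def l11 : Tr := Tr.L (Pth.r (Pth.r (Pth.r (Pth.r Pth.z))))
end T4
def b5_0 : Bx := Bx.mk (St.mk (I.pos (nat_lit 158433280) (nat_lit 235700224)) (I.mix (nat_lit 1490944) (nat_lit 47185920)) (I.mix (nat_lit 2818048) (nat_lit 98156544)) (I.pos (nat_lit 111771648) (nat_lit 230588416)) (I.mix (nat_lit 105496576) (nat_lit 56934400)) (I.mix (nat_lit 80068608) (nat_lit 58146816)) (I.mix (nat_lit 109723648) (nat_lit 73924608)))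
  false (nat_lit 57070666)
def b5_1 : Bx := Bx.mk (St.mk (I.pos (nat_lit 108068864) (nat_lit 186023936)) (I.neg (nat_lit 4915200) (nat_lit 56672256)) (I.mix (nat_lit 47955968) (nat_lit 11157504)) (I.pos (nat_lit 81510400) (nat_lit 162693120)) (I.mix (nat_lit 74399744) (nat_lit 39337984)) (I.mix (nat_lit 39026688) (nat_lit 48660480)) (I.mix (nat_lit 31211520) (nat_lit 44990464)))
  false (nat_lit 15203454)
def b5_2 : Bx := Bx.mk (St.mk (I.mix (nat_lit 21266432) (nat_lit 106725376)) (I.mix (nat_lit 27623424) (nat_lit 4587520)) (I.mix (nat_lit 13565952) (nat_lit 9797632)) (I.pos (nat_lit 15237120) (nat_lit 77004800)) (I.mix (nat_lit 26705920) (nat_lit 28966912)) (I.mix (nat_lit 19267584) (nat_lit 24182784)) (I.mix (nat_lit 10846208) (nat_lit 14647296)))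
  false (nat_lit 0)
def b5_3 : Bx := Bx.mk (St.mk (I.pos (nat_lit 170295296) (nat_lit 213991424)) (I.mix (nat_lit 9715712) (nat_lit 50774016)) (I.pos (nat_lit 14532608) (nat_lit 97566720)) (I.pos (nat_lit 130318336) (nat_lit 203309056)) (I.mix (nat_lit 124895232) (nat_lit 43466752)) (I.mix (nat_lit 115605504) (nat_lit 55050240)) (I.mix (nat_lit 137101312) (nat_lit 48807936)))
  false (nat_lit 49782244)
def b5_4 : Bx := Bx.mk (St.mk (I.mix (nat_lit 25116672) (nat_lit 122994688)) (I.mix (nat_lit 13484032) (nat_lit 34013184)) (I.mix (nat_lit 4341760) (nat_lit 32964608)) (I.pos (nat_lit 15695872) (nat_lit 90374144)) (I.mix (nat_lit 53821440) (nat_lit 22118400)) (I.mix (nat_lit 42549248) (nat_lit 22708224)) (I.mix (nat_lit 28147712) (nat_lit 13697024)))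
  false (nat_lit 0)
def b5_5 : Bx := Bx.mk (St.mk (I.pos (nat_lit 151076864) (nat_lit 210141184)) (I.mix (nat_lit 37306368) (nat_lit 13041664)) (I.mix (nat_lit 24756224) (nat_lit 45268992)) (I.pos (nat_lit 111296512) (nat_lit 193495040)) (I.mix (nat_lit 50184192) (nat_lit 50069504)) (I.mix (nat_lit 48005120) (nat_lit 45006848)) (I.mix (nat_lit 49414144) (nat_lit 46006272)))
  false (nat_lit 38599240)
def b5_6 : Bx := Bx.mk (St.mk (I.mix (nat_lit 18022400) (nat_lit 132546560)) (I.mix (nat_lit 5095424) (nat_lit 27262976)) (I.mix (nat_lit 1277952) (nat_lit 29229056)) (I.pos (nat_lit 14974976) (nat_lit 99450880)) (I.mix (nat_lit 40943616) (nat_lit 29573120)) (I.mix (nat_lit 33538048) (nat_lit 22544384)) (I.mix (nat_lit 26886144) (nat_lit 16875520)))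
  false (nat_lit 0)
def b5_7 : Bx := Bx.mk (St.mk (I.pos (nat_lit 107708416) (nat_lit 157990912)) (I.mix (nat_lit 55263232) (nat_lit 6684672)) (I.mix (nat_lit 46465024) (nat_lit 11780096)) (I.pos (nat_lit 64471040) (nat_lit 127451136)) (I.mix (nat_lit 81756160) (nat_lit 29310976)) (I.mix (nat_lit 31981568) (nat_lit 67633152)) (I.mix (nat_lit 23789568) (nat_lit 51347456)))
  false (nat_lit 0)
def b5_8 : Bx := Bx.mk (St.mk (I.pos (nat_lit 169689088) (nat_lit 211042304)) (I.mix (nat_lit 15400960) (nat_lit 28966912)) (I.pos (nat_lit 8388608) (nat_lit 68419584)) (I.pos (nat_lit 129318912) (nat_lit 192757760)) (I.mix (nat_lit 104251392) (nat_lit 51019776)) (I.mix (nat_lit 106168320) (nat_lit 51970048)) (I.mix (nat_lit 122961920) (nat_lit 51265536)))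
  false (nat_lit 48786104)
def b5_9 : Bx := Bx.mk (St.mk (I.pos (nat_lit 199671808) (nat_lit 281837568)) (I.mix (nat_lit 14598144) (nat_lit 36700160)) (I.mix (nat_lit 16334848) (nat_lit 83034112)) (I.pos (nat_lit 183664640) (nat_lit 330530816)) (I.mix (nat_lit 74022912) (nat_lit 53280768)) (I.mix (nat_lit 56098816) (nat_lit 33439744)) (I.mix (nat_lit 87343104) (nat_lit 54624256)))
  false (nat_lit 29680541)
def b5_10 : Bx := Bx.mk (St.mk (I.pos (nat_lit 182108160) (nat_lit 236011520)) (I.pos (nat_lit 8159232) (nat_lit 46579712)) (I.pos (nat_lit 28901376) (nat_lit 96862208)) (I.pos (nat_lit 168722432) (nat_lit 229228544)) (I.mix (nat_lit 88621056) (nat_lit 66961408)) (I.mix (nat_lit 83247104) (nat_lit 54575104)) (I.mix (nat_lit 126779392) (nat_lit 68141056)))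
  false (nat_lit 45304056)
def b5_11 : Bx := Bx.mk (St.mk (I.mix (nat_lit 18137088) (nat_lit 94322688)) (I.neg (nat_lit 1687552) (nat_lit 25657344)) (I.mix (nat_lit 12156928) (nat_lit 7913472)) (I.pos (nat_lit 16252928) (nat_lit 68517888)) (I.mix (nat_lit 29212672) (nat_lit 20971520)) (I.mix (nat_lit 17072128) (nat_lit 25509888)) (I.mix (nat_lit 8421376) (nat_lit 12730368)))
  false (nat_lit 0)
def t5 : BTr := (BTr.n (BTr.n (BTr.n (BTr.b b5_0) (BTr.n (BTr.b b5_1) (BTr.b b5_2))) (BTr.n (BTr.b b5_3) (BTr.n (BTr.b b5_4) (BTr.b b5_5)))) (BTr.n (BTr.n (BTr.b b5_6) (BTr.n (BTr.b b5_7) (BTr.b b5_8))) (BTr.n (BTr.b b5_9) (BTr.n (BTr.b b5_10) (BTr.b b5_11)))))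
namespace T5
def l0 : Tr := Tr.L (Pth.l (Pth.l (Pth.l Pth.z)))
def l1 : Tr := Tr.L (Pth.l (Pth.l (Pth.r (Pth.l Pth.z))))
def l2 : Tr := Tr.L (Pth.l (Pth.l (Pth.r (Pth.r Pth.z))))
def l3 : Tr := Tr.L (Pth.l (Pth.r (Pth.l Pth.z)))
def l4 : Tr := Tr.L (Pth.l (Pth.r (Pth.r (Pth.l Pth.z))))
def l5 : Tr := Tr.L (Pth.l (Pth.r (Pth.r (Pth.r Pth.z))))
def l6 : Tr := Tr.L (Pth.r (Pth.l (Pth.l Pth.z)))
def l7 : Tr := Tr.L (Pth.r (Pth.l (Pth.r (Pth.l Pth.z))))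
def l8 : Tr := Tr.L (Pth.r (Pth.l (Pth.r (Pth.r Pth.z))))
def l9 : Tr := Tr.L (Pth.r (Pth.r (Pth.l Pth.z)))
def l10 : Tr := Tr.L (Pth.r (Pth.r (Pth.r (Pth.l Pth.z))))
def l11 : Tr := Tr.L (Pth.r (Pth.r (Pth.r (Pth.r Pth.z))))
end T5
theorem bx0_0 : BoxOK sI cl6 cl9 cl13 t2 t4 b0_0 :=
  box_mk (TrL.c (I.pos (nat_lit 0) (nat_lit 0)) (xa (xb T2.l0 (xa T2.l0 T2.l0)) (xb T2.l0 T2.l0))
  (TrL.c (I.pos (nat_lit 0) (nat_lit 0)) T4.l1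
  (TrL.c (I.pos (nat_lit 0) (nat_lit 89480386)) T2.l1
  (TrL.c (I.pos (nat_lit 0) (nat_lit 41530880)) T4.l2
  (TrL.c (I.pos (nat_lit 0) (nat_lit 0)) (xa T4.l3 T4.l3)
  (TrL.c (I.pos (nat_lit 0) (nat_lit 0)) T2.l2
  (TrL.c (I.mix (nat_lit 41527258) (nat_lit 41530880)) T4.l4
  (TrL.c (I.mix (nat_lit 41527258) (nat_lit 4274)) T2.l3
  TrL.n)))))))) (by decide +kernel)
theorem bx0_1 : BoxOK sI cl6 cl9 cl13 t2 t4 b0_1 :=
  box_mk (TrL.c (I.pos (nat_lit 0) (nat_lit 0)) (xa (xa T2.l8 T2.l8) (xa T2.l8 T2.l8))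
  (TrL.c (I.pos (nat_lit 0) (nat_lit 0)) T4.l1
  (TrL.c (I.pos (nat_lit 0) (nat_lit 89480386)) T2.l1
  (TrL.c (I.pos (nat_lit 0) (nat_lit 41530880)) T4.l2
  (TrL.c (I.pos (nat_lit 0) (nat_lit 0)) (xa T4.l8 T4.l8)
  (TrL.c (I.pos (nat_lit 0) (nat_lit 0)) T2.l2
  (TrL.c (I.mix (nat_lit 41527258) (nat_lit 41530880)) T4.l4
  (TrL.c (I.mix (nat_lit 41527258) (nat_lit 4274)) T2.l3
  TrL.n)))))))) (by decide +kernel)
theorem bx0_2 : BoxOK sI cl6 cl9 cl13 t2 t4 b0_2 :=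
  box_mk (TrL.c (I.pos (nat_lit 0) (nat_lit 0)) (xb T2.l8 T2.l8)
  (TrL.c (I.pos (nat_lit 0) (nat_lit 0)) T4.l1
  (TrL.c (I.pos (nat_lit 0) (nat_lit 89480386)) T2.l1
  (TrL.c (I.pos (nat_lit 0) (nat_lit 41530880)) T4.l2
  (TrL.c (I.pos (nat_lit 0) (nat_lit 0)) T4.l8
  (TrL.c (I.pos (nat_lit 0) (nat_lit 0)) T2.l2
  (TrL.c (I.mix (nat_lit 41527258) (nat_lit 41530880)) T4.l4
  (TrL.c (I.mix (nat_lit 41527258) (nat_lit 4274)) T2.l3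
  TrL.n)))))))) (by decide +kernel)
theorem bx0_3 : BoxOK sI cl6 cl9 cl13 t2 t4 b0_3 :=
  box_mk (TrL.c (I.pos (nat_lit 0) (nat_lit 0)) T2.l8
  (TrL.c (I.pos (nat_lit 0) (nat_lit 0)) T4.l1
  (TrL.c (I.pos (nat_lit 0) (nat_lit 89480386)) T2.l1
  (TrL.c (I.pos (nat_lit 0) (nat_lit 41530880)) T4.l2
  (TrL.c (I.pos (nat_lit 0) (nat_lit 0)) T4.l8
  (TrL.c (I.pos (nat_lit 0) (nat_lit 0)) T2.l2
  (TrL.c (I.mix (nat_lit 41527258) (nat_lit 41530880)) T4.l4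
  (TrL.c (I.mix (nat_lit 41527258) (nat_lit 4274)) T2.l3
  TrL.n)))))))) (by decide +kernel)
theorem bx0_4 : BoxOK sI cl6 cl9 cl13 t2 t4 b0_4 :=
  box_mk (TrL.c (I.pos (nat_lit 0) (nat_lit 0)) (xa (xb T2.l0 T2.l0) (xb T2.l0 T2.l0))
  (TrL.c (I.pos (nat_lit 0) (nat_lit 0)) T4.l1
  (TrL.c (I.pos (nat_lit 0) (nat_lit 89480386)) T2.l1
  (TrL.c (I.pos (nat_lit 0) (nat_lit 41530880)) T4.l2
  (TrL.c (I.pos (nat_lit 0) (nat_lit 0)) (xa (xb T4.l3 T4.l3) (xb T4.l3 T4.l3))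
  (TrL.c (I.pos (nat_lit 0) (nat_lit 0)) T2.l2
  (TrL.c (I.mix (nat_lit 41527258) (nat_lit 41530880)) T4.l4
  (TrL.c (I.mix (nat_lit 41527258) (nat_lit 4274)) T2.l3
  TrL.n)))))))) (by decide +kernel)
theorem bx0_5 : BoxOK sI cl6 cl9 cl13 t2 t4 b0_5 :=
  box_mk (TrL.c (I.pos (nat_lit 0) (nat_lit 0)) (xa (xb T2.l8 T2.l8) T2.l8)
  (TrL.c (I.pos (nat_lit 0) (nat_lit 0)) T4.l1
  (TrL.c (I.pos (nat_lit 0) (nat_lit 89480386)) T2.l1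
  (TrL.c (I.pos (nat_lit 0) (nat_lit 41530880)) T4.l2
  (TrL.c (I.pos (nat_lit 0) (nat_lit 0)) T4.l8
  (TrL.c (I.pos (nat_lit 0) (nat_lit 0)) T2.l2
  (TrL.c (I.mix (nat_lit 41527258) (nat_lit 41530880)) T4.l4
  (TrL.c (I.mix (nat_lit 41527258) (nat_lit 4274)) T2.l3
  TrL.n)))))))) (by decide +kernel)
theorem bx0_6 : BoxOK sI cl6 cl9 cl13 t2 t4 b0_6 :=
  box_mk (TrL.c (I.pos (nat_lit 0) (nat_lit 0)) (xa (xa (xb T2.l8 T2.l8) T2.l8) T2.l8)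
  (TrL.c (I.pos (nat_lit 0) (nat_lit 0)) T4.l1
  (TrL.c (I.pos (nat_lit 0) (nat_lit 89480386)) T2.l1
  (TrL.c (I.pos (nat_lit 0) (nat_lit 41530880)) T4.l2
  (TrL.c (I.pos (nat_lit 0) (nat_lit 0)) T4.l8
  (TrL.c (I.pos (nat_lit 0) (nat_lit 0)) T2.l2
  (TrL.c (I.mix (nat_lit 41527258) (nat_lit 41530880)) T4.l4
  (TrL.c (I.mix (nat_lit 41527258) (nat_lit 4274)) T2.l3
  TrL.n)))))))) (by decide +kernel)
theorem bx0_7 : BoxOK sI cl6 cl9 cl13 t2 t4 b0_7 :=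
  box_mk (TrL.c (I.pos (nat_lit 0) (nat_lit 0)) (xb T2.l11 (xa T2.l11 T2.l11))
  (TrL.c (I.pos (nat_lit 0) (nat_lit 0)) T4.l1
  (TrL.c (I.pos (nat_lit 0) (nat_lit 89480386)) T2.l1
  (TrL.c (I.pos (nat_lit 0) (nat_lit 41530880)) T4.l2
  (TrL.c (I.pos (nat_lit 0) (nat_lit 0)) (xb T4.l11 T4.l11)
  (TrL.c (I.pos (nat_lit 0) (nat_lit 0)) T2.l2
  (TrL.c (I.mix (nat_lit 41527258) (nat_lit 41530880)) T4.l4
  (TrL.c (I.mix (nat_lit 41527258) (nat_lit 4274)) T2.l3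
  TrL.n)))))))) (by decide +kernel)
theorem bx0_8 : BoxOK sI cl6 cl9 cl13 t2 t4 b0_8 :=
  box_mk (TrL.c (I.pos (nat_lit 0) (nat_lit 0)) (xa (xa (xb T2.l8 (xa T2.l8 T2.l8)) (xb T2.l8 T2.l8)) (xa T2.l8 (xb T2.l8 T2.l8)))
  (TrL.c (I.pos (nat_lit 0) (nat_lit 0)) T4.l1
  (TrL.c (I.pos (nat_lit 0) (nat_lit 89480386)) T2.l1
  (TrL.c (I.pos (nat_lit 0) (nat_lit 41530880)) T4.l2
  (TrL.c (I.pos (nat_lit 0) (nat_lit 0)) (xa T4.l8 T4.l8)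
  (TrL.c (I.pos (nat_lit 0) (nat_lit 0)) T2.l2
  (TrL.c (I.mix (nat_lit 41527258) (nat_lit 41530880)) T4.l4
  (TrL.c (I.mix (nat_lit 41527258) (nat_lit 4274)) T2.l3
  TrL.n)))))))) (by decide +kernel)
theorem bx0_9 : BoxOK sI cl6 cl9 cl13 t2 t4 b0_9 :=
  box_mk (TrL.c (I.pos (nat_lit 0) (nat_lit 0)) (xa T2.l0 T2.l0)
  (TrL.c (I.pos (nat_lit 0) (nat_lit 0)) T4.l1
  (TrL.c (I.pos (nat_lit 0) (nat_lit 89480386)) T2.l1
  (TrL.c (I.pos (nat_lit 0) (nat_lit 41530880)) T4.l2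
  (TrL.c (I.pos (nat_lit 0) (nat_lit 0)) T4.l3
  (TrL.c (I.pos (nat_lit 0) (nat_lit 0)) T2.l2
  (TrL.c (I.mix (nat_lit 41527258) (nat_lit 41530880)) T4.l4
  (TrL.c (I.mix (nat_lit 41527258) (nat_lit 4274)) T2.l3
  TrL.n)))))))) (by decide +kernel)
theorem bx0_10 : BoxOK sI cl6 cl9 cl13 t2 t4 b0_10 :=
  box_mk (TrL.c (I.pos (nat_lit 0) (nat_lit 0)) (xa (xb T2.l0 T2.l11) T2.l0)
  (TrL.c (I.pos (nat_lit 0) (nat_lit 0)) T4.l1
  (TrL.c (I.pos (nat_lit 0) (nat_lit 89480386)) T2.l1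
  (TrL.c (I.pos (nat_lit 0) (nat_lit 41530880)) T4.l2
  (TrL.c (I.pos (nat_lit 0) (nat_lit 0)) (xb T4.l11 T4.l11)
  (TrL.c (I.pos (nat_lit 0) (nat_lit 0)) T2.l2
  (TrL.c (I.mix (nat_lit 41527258) (nat_lit 41530880)) T4.l4
  (TrL.c (I.mix (nat_lit 41527258) (nat_lit 4274)) T2.l3
  TrL.n)))))))) (by decide +kernel)
theorem bx0_11 : BoxOK sI cl6 cl9 cl13 t2 t4 b0_11 :=
  box_mk (TrL.c (I.pos (nat_lit 0) (nat_lit 0)) (xb T2.l11 T2.l11)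
  (TrL.c (I.pos (nat_lit 0) (nat_lit 0)) T4.l1
  (TrL.c (I.pos (nat_lit 0) (nat_lit 89480386)) T2.l1
  (TrL.c (I.pos (nat_lit 0) (nat_lit 41530880)) T4.l2
  (TrL.c (I.pos (nat_lit 0) (nat_lit 0)) T4.l11
  (TrL.c (I.pos (nat_lit 0) (nat_lit 0)) T2.l2
  (TrL.c (I.mix (nat_lit 41527258) (nat_lit 41530880)) T4.l4
  (TrL.c (I.mix (nat_lit 41527258) (nat_lit 4274)) T2.l3
  TrL.n)))))))) (by decide +kernel)
theorem sv0 : StarV sI cl6 cl9 cl13 t2 t4 t0 :=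
  (bt_n (bt_n (bt_n (bt_b bx0_0) (bt_n (bt_b bx0_1) (bt_b bx0_2))) (bt_n (bt_b bx0_3) (bt_n (bt_b bx0_4) (bt_b bx0_5)))) (bt_n (bt_n (bt_b bx0_6) (bt_n (bt_b bx0_7) (bt_b bx0_8))) (bt_n (bt_b bx0_9) (bt_n (bt_b bx0_10) (bt_b bx0_11)))))
def S0 : StarD := StarD.mk cl6 cl9 cl13 2 4 t0
theorem bx1_0 : BoxOK sI cl6 cl13 cl9 t4 t2 b1_0 :=
  box_mk (TrL.c (I.pos (nat_lit 0) (nat_lit 0)) (xa (xb T4.l0 (xa T4.l0 T4.l0)) (xa T4.l0 T4.l0))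
  (TrL.c (I.pos (nat_lit 0) (nat_lit 0)) T2.l4
  (TrL.c (I.pos (nat_lit 0) (nat_lit 89480386)) T4.l5
  (TrL.c (I.pos (nat_lit 0) (nat_lit 41530880)) T2.l5
  (TrL.c (I.pos (nat_lit 0) (nat_lit 0)) (xa T2.l6 T2.l6)
  (TrL.c (I.pos (nat_lit 0) (nat_lit 0)) T4.l6
  (TrL.c (I.mix (nat_lit 41527258) (nat_lit 41530880)) T2.l7
  (TrL.c (I.mix (nat_lit 41527258) (nat_lit 4274)) T4.l7
  TrL.n)))))))) (by decide +kernel)
theorem bx1_1 : BoxOK sI cl6 cl13 cl9 t4 t2 b1_1 :=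
  box_mk (TrL.c (I.pos (nat_lit 0) (nat_lit 0)) (xa T4.l9 (xa T4.l9 T4.l9))
  (TrL.c (I.pos (nat_lit 0) (nat_lit 0)) T2.l4
  (TrL.c (I.pos (nat_lit 0) (nat_lit 89480386)) T4.l5
  (TrL.c (I.pos (nat_lit 0) (nat_lit 41530880)) T2.l5
  (TrL.c (I.pos (nat_lit 0) (nat_lit 0)) (xa T2.l9 T2.l9)
  (TrL.c (I.pos (nat_lit 0) (nat_lit 0)) T4.l6
  (TrL.c (I.mix (nat_lit 41527258) (nat_lit 41530880)) T2.l7
  (TrL.c (I.mix (nat_lit 41527258) (nat_lit 4274)) T4.l7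
  TrL.n)))))))) (by decide +kernel)
theorem bx1_2 : BoxOK sI cl6 cl13 cl9 t4 t2 b1_2 :=
  box_mk (TrL.c (I.pos (nat_lit 0) (nat_lit 0)) (xb T4.l9 T4.l9)
  (TrL.c (I.pos (nat_lit 0) (nat_lit 0)) T2.l4
  (TrL.c (I.pos (nat_lit 0) (nat_lit 89480386)) T4.l5
  (TrL.c (I.pos (nat_lit 0) (nat_lit 41530880)) T2.l5
  (TrL.c (I.pos (nat_lit 0) (nat_lit 0)) T2.l9
  (TrL.c (I.pos (nat_lit 0) (nat_lit 0)) T4.l6
  (TrL.c (I.mix (nat_lit 41527258) (nat_lit 41530880)) T2.l7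
  (TrL.c (I.mix (nat_lit 41527258) (nat_lit 4274)) T4.l7
  TrL.n)))))))) (by decide +kernel)
theorem bx1_3 : BoxOK sI cl6 cl13 cl9 t4 t2 b1_3 :=
  box_mk (TrL.c (I.pos (nat_lit 0) (nat_lit 0)) (xa (xa T4.l9 T4.l9) T4.l9)
  (TrL.c (I.pos (nat_lit 0) (nat_lit 0)) T2.l4
  (TrL.c (I.pos (nat_lit 0) (nat_lit 89480386)) T4.l5
  (TrL.c (I.pos (nat_lit 0) (nat_lit 41530880)) T2.l5
  (TrL.c (I.pos (nat_lit 0) (nat_lit 0)) T2.l9
  (TrL.c (I.pos (nat_lit 0) (nat_lit 0)) T4.l6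
  (TrL.c (I.mix (nat_lit 41527258) (nat_lit 41530880)) T2.l7
  (TrL.c (I.mix (nat_lit 41527258) (nat_lit 4274)) T4.l7
  TrL.n)))))))) (by decide +kernel)
theorem bx1_4 : BoxOK sI cl6 cl13 cl9 t4 t2 b1_4 :=
  box_mk (TrL.c (I.pos (nat_lit 0) (nat_lit 0)) (xa T4.l0 (xb T4.l0 T4.l0))
  (TrL.c (I.pos (nat_lit 0) (nat_lit 0)) T2.l4
  (TrL.c (I.pos (nat_lit 0) (nat_lit 89480386)) (xR T4.l5 T4.l5)
  (TrL.c (I.pos (nat_lit 0) (nat_lit 41530880)) T2.l5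
  (TrL.c (I.pos (nat_lit 0) (nat_lit 0)) (xa T2.l6 (xb T2.l6 T2.l6))
  (TrL.c (I.pos (nat_lit 0) (nat_lit 0)) T4.l6
  (TrL.c (I.mix (nat_lit 41527258) (nat_lit 41530880)) T2.l1
  (TrL.c (I.mix (nat_lit 41527258) (nat_lit 4274)) T4.l7
  TrL.n)))))))) (by decide +kernel)
theorem bx1_5 : BoxOK sI cl6 cl13 cl9 t4 t2 b1_5 :=
  box_mk (TrL.c (I.pos (nat_lit 0) (nat_lit 0)) (xa T4.l9 T4.l0)
  (TrL.c (I.pos (nat_lit 0) (nat_lit 0)) T2.l4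
  (TrL.c (I.pos (nat_lit 0) (nat_lit 89480386)) T4.l5
  (TrL.c (I.pos (nat_lit 0) (nat_lit 41530880)) T2.l5
  (TrL.c (I.pos (nat_lit 0) (nat_lit 0)) T2.l9
  (TrL.c (I.pos (nat_lit 0) (nat_lit 0)) T4.l6
  (TrL.c (I.mix (nat_lit 41527258) (nat_lit 41530880)) T2.l7
  (TrL.c (I.mix (nat_lit 41527258) (nat_lit 4274)) T4.l7
  TrL.n)))))))) (by decide +kernel)
theorem bx1_6 : BoxOK sI cl6 cl13 cl9 t4 t2 b1_6 :=
  box_mk (TrL.c (I.pos (nat_lit 0) (nat_lit 0)) T4.l9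
  (TrL.c (I.pos (nat_lit 0) (nat_lit 0)) T2.l4
  (TrL.c (I.pos (nat_lit 0) (nat_lit 89480386)) T4.l5
  (TrL.c (I.pos (nat_lit 0) (nat_lit 41530880)) T2.l5
  (TrL.c (I.pos (nat_lit 0) (nat_lit 0)) T2.l9
  (TrL.c (I.pos (nat_lit 0) (nat_lit 0)) T4.l6
  (TrL.c (I.mix (nat_lit 41527258) (nat_lit 41530880)) T2.l7
  (TrL.c (I.mix (nat_lit 41527258) (nat_lit 4274)) T4.l7
  TrL.n)))))))) (by decide +kernel)
theorem bx1_7 : BoxOK sI cl6 cl13 cl9 t4 t2 b1_7 :=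
  box_mk (TrL.c (I.pos (nat_lit 0) (nat_lit 0)) (xb T4.l10 (xa T4.l10 T4.l10))
  (TrL.c (I.pos (nat_lit 0) (nat_lit 0)) T2.l4
  (TrL.c (I.pos (nat_lit 0) (nat_lit 89480386)) T4.l5
  (TrL.c (I.pos (nat_lit 0) (nat_lit 41530880)) T2.l5
  (TrL.c (I.pos (nat_lit 0) (nat_lit 0)) T2.l10
  (TrL.c (I.pos (nat_lit 0) (nat_lit 0)) T4.l6
  (TrL.c (I.mix (nat_lit 41527258) (nat_lit 41530880)) T2.l7
  (TrL.c (I.mix (nat_lit 41527258) (nat_lit 4274)) T4.l7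
  TrL.n)))))))) (by decide +kernel)
theorem bx1_8 : BoxOK sI cl6 cl13 cl9 t4 t2 b1_8 :=
  box_mk (TrL.c (I.pos (nat_lit 0) (nat_lit 0)) (xa (xa (xb T4.l9 (xa T4.l9 T4.l9)) T4.l9) (xa T4.l9 (xb T4.l9 T4.l9)))
  (TrL.c (I.pos (nat_lit 0) (nat_lit 0)) T2.l4
  (TrL.c (I.pos (nat_lit 0) (nat_lit 89480386)) T4.l5
  (TrL.c (I.pos (nat_lit 0) (nat_lit 41530880)) T2.l5
  (TrL.c (I.pos (nat_lit 0) (nat_lit 0)) (xa T2.l9 T2.l9)
  (TrL.c (I.pos (nat_lit 0) (nat_lit 0)) T4.l6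
  (TrL.c (I.mix (nat_lit 41527258) (nat_lit 41530880)) T2.l7
  (TrL.c (I.mix (nat_lit 41527258) (nat_lit 4274)) T4.l7
  TrL.n)))))))) (by decide +kernel)
theorem bx1_9 : BoxOK sI cl6 cl13 cl9 t4 t2 b1_9 :=
  box_mk (TrL.c (I.pos (nat_lit 0) (nat_lit 0)) (xa T4.l0 T4.l0)
  (TrL.c (I.pos (nat_lit 0) (nat_lit 0)) T2.l4
  (TrL.c (I.pos (nat_lit 0) (nat_lit 89480386)) T4.l5
  (TrL.c (I.pos (nat_lit 0) (nat_lit 41530880)) T2.l5
  (TrL.c (I.pos (nat_lit 0) (nat_lit 0)) T2.l10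
  (TrL.c (I.pos (nat_lit 0) (nat_lit 0)) T4.l6
  (TrL.c (I.mix (nat_lit 41527258) (nat_lit 41530880)) T2.l7
  (TrL.c (I.mix (nat_lit 41527258) (nat_lit 4274)) T4.l7
  TrL.n)))))))) (by decide +kernel)
theorem bx1_10 : BoxOK sI cl6 cl13 cl9 t4 t2 b1_10 :=
  box_mk (TrL.c (I.pos (nat_lit 0) (nat_lit 0)) (xb T4.l10 T4.l10)
  (TrL.c (I.pos (nat_lit 0) (nat_lit 0)) T2.l4
  (TrL.c (I.pos (nat_lit 0) (nat_lit 89480386)) T4.l5
  (TrL.c (I.pos (nat_lit 0) (nat_lit 41530880)) T2.l5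
  (TrL.c (I.pos (nat_lit 0) (nat_lit 0)) T2.l10
  (TrL.c (I.pos (nat_lit 0) (nat_lit 0)) T4.l6
  (TrL.c (I.mix (nat_lit 41527258) (nat_lit 41530880)) T2.l1
  (TrL.c (I.mix (nat_lit 41527258) (nat_lit 4274)) T4.l7
  TrL.n)))))))) (by decide +kernel)
theorem bx1_11 : BoxOK sI cl6 cl13 cl9 t4 t2 b1_11 :=
  box_mk (TrL.c (I.pos (nat_lit 0) (nat_lit 0)) (xa T4.l0 T4.l0)
  (TrL.c (I.pos (nat_lit 0) (nat_lit 0)) T2.l4
  (TrL.c (I.pos (nat_lit 0) (nat_lit 89480386)) T4.l5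
  (TrL.c (I.pos (nat_lit 0) (nat_lit 41530880)) T2.l5
  (TrL.c (I.pos (nat_lit 0) (nat_lit 0)) T2.l6
  (TrL.c (I.pos (nat_lit 0) (nat_lit 0)) T4.l6
  (TrL.c (I.mix (nat_lit 41527258) (nat_lit 41530880)) T2.l7
  (TrL.c (I.mix (nat_lit 41527258) (nat_lit 4274)) T4.l7
  TrL.n)))))))) (by decide +kernel)
theorem sv1 : StarV sI cl6 cl13 cl9 t4 t2 t1 :=
  (bt_n (bt_n (bt_n (bt_b bx1_0) (bt_n (bt_b bx1_1) (bt_b bx1_2))) (bt_n (bt_b bx1_3) (bt_n (bt_b bx1_4) (bt_b bx1_5)))) (bt_n (bt_n (bt_b bx1_6) (bt_n (bt_b bx1_7) (bt_b bx1_8))) (bt_n (bt_b bx1_9) (bt_n (bt_b bx1_10) (bt_b bx1_11)))))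
def S1 : StarD := StarD.mk cl6 cl13 cl9 4 2 t1
theorem bx2_0 : BoxOK sI cl9 cl6 cl13 t0 t5 b2_0 :=
  box_mk (TrL.c (I.pos (nat_lit 0) (nat_lit 0)) (xa (xb T0.l0 T0.l0) (xb T0.l0 T0.l0))
  (TrL.c (I.pos (nat_lit 0) (nat_lit 0)) T5.l1
  (TrL.c (I.pos (nat_lit 0) (nat_lit 124588530)) (xR T0.l1 T0.l1)
  (TrL.c (I.pos (nat_lit 0) (nat_lit 96881482)) T5.l2
  (TrL.c (I.pos (nat_lit 0) (nat_lit 0)) (xa (xk T5.l3 T5.l8) (xk (xb T5.l3 T5.l3) T5.l3))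
  (TrL.c (I.pos (nat_lit 0) (nat_lit 0)) T0.l2
  (TrL.c (I.mix (nat_lit 17240550) (nat_lit 96881482)) (xR T5.l4 T5.l4)
  (TrL.c (I.mix (nat_lit 17240550) (nat_lit 71940500)) T0.l6
  TrL.n)))))))) (by decide +kernel)
theorem bx2_1 : BoxOK sI cl9 cl6 cl13 t0 t5 b2_1 :=
  box_mk (TrL.c (I.pos (nat_lit 0) (nat_lit 0)) (xa (xa (xb (xa T0.l4 T0.l4) (xa T0.l4 T0.l4)) (xb T0.l4 T0.l4)) (xa T0.l4 T0.l4))
  (TrL.c (I.pos (nat_lit 0) (nat_lit 0)) T5.l1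
  (TrL.c (I.pos (nat_lit 0) (nat_lit 124588530)) T0.l1
  (TrL.c (I.pos (nat_lit 0) (nat_lit 96881482)) T5.l2
  (TrL.c (I.pos (nat_lit 0) (nat_lit 0)) (xa T5.l5 T5.l5)
  (TrL.c (I.pos (nat_lit 0) (nat_lit 0)) T0.l2
  (TrL.c (I.mix (nat_lit 17240550) (nat_lit 96881482)) T5.l4
  (TrL.c (I.mix (nat_lit 17240550) (nat_lit 71940500)) T0.l3
  TrL.n)))))))) (by decide +kernel)
theorem bx2_2 : BoxOK sI cl9 cl6 cl13 t0 t5 b2_2 :=
  box_mk (TrL.c (I.pos (nat_lit 0) (nat_lit 0)) (xb T0.l4 T0.l4)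
  (TrL.c (I.pos (nat_lit 0) (nat_lit 0)) T5.l1
  (TrL.c (I.pos (nat_lit 0) (nat_lit 124588530)) (xR T0.l1 T0.l1)
  (TrL.c (I.pos (nat_lit 0) (nat_lit 96881482)) T5.l2
  (TrL.c (I.pos (nat_lit 0) (nat_lit 0)) T5.l5
  (TrL.c (I.pos (nat_lit 0) (nat_lit 0)) T0.l2
  (TrL.c (I.mix (nat_lit 17240550) (nat_lit 96881482)) T5.l4
  (TrL.c (I.mix (nat_lit 17240550) (nat_lit 71940500)) T0.l3
  TrL.n)))))))) (by decide +kernel)
theorem bx2_3 : BoxOK sI cl9 cl6 cl13 t0 t5 b2_3 :=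
  box_mk (TrL.c (I.pos (nat_lit 0) (nat_lit 0)) (xa (xb (xa T0.l4 T0.l4) T0.l4) T0.l4)
  (TrL.c (I.pos (nat_lit 0) (nat_lit 0)) T5.l5
  (TrL.c (I.pos (nat_lit 0) (nat_lit 124588530)) T0.l1
  (TrL.c (I.pos (nat_lit 0) (nat_lit 96881482)) T5.l4
  (TrL.c (I.pos (nat_lit 0) (nat_lit 0)) T5.l1
  (TrL.c (I.pos (nat_lit 0) (nat_lit 0)) T0.l1
  (TrL.c (I.mix (nat_lit 17240550) (nat_lit 96881482)) T5.l4
  (TrL.c (I.mix (nat_lit 17240550) (nat_lit 71940500)) T0.l6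
  TrL.n)))))))) (by decide +kernel)
theorem bx2_4 : BoxOK sI cl9 cl6 cl13 t0 t5 b2_4 :=
  box_mk (TrL.c (I.pos (nat_lit 0) (nat_lit 0)) (xa T0.l4 T0.l4)
  (TrL.c (I.pos (nat_lit 0) (nat_lit 0)) T5.l1
  (TrL.c (I.pos (nat_lit 0) (nat_lit 124588530)) (xR T0.l1 T0.l1)
  (TrL.c (I.pos (nat_lit 0) (nat_lit 96881482)) T5.l2
  (TrL.c (I.pos (nat_lit 0) (nat_lit 0)) (xa T5.l5 T5.l5)
  (TrL.c (I.pos (nat_lit 0) (nat_lit 0)) T0.l2
  (TrL.c (I.mix (nat_lit 17240550) (nat_lit 96881482)) T5.l4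
  (TrL.c (I.mix (nat_lit 17240550) (nat_lit 71940500)) T0.l3
  TrL.n)))))))) (by decide +kernel)
theorem bx2_5 : BoxOK sI cl9 cl6 cl13 t0 t5 b2_5 :=
  box_mk (TrL.c (I.pos (nat_lit 0) (nat_lit 0)) T0.l4
  (TrL.c (I.pos (nat_lit 0) (nat_lit 0)) T5.l5
  (TrL.c (I.pos (nat_lit 0) (nat_lit 124588530)) T0.l1
  (TrL.c (I.pos (nat_lit 0) (nat_lit 96881482)) T5.l4
  (TrL.c (I.pos (nat_lit 0) (nat_lit 0)) T5.l5
  (TrL.c (I.pos (nat_lit 0) (nat_lit 0)) T0.l2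
  (TrL.c (I.mix (nat_lit 17240550) (nat_lit 96881482)) T5.l4
  (TrL.c (I.mix (nat_lit 17240550) (nat_lit 71940500)) T0.l3
  TrL.n)))))))) (by decide +kernel)
theorem bx2_6 : BoxOK sI cl9 cl6 cl13 t0 t5 b2_6 :=
  box_mk (TrL.c (I.pos (nat_lit 0) (nat_lit 0)) (xb T0.l9 (xa T0.l9 T0.l9))
  (TrL.c (I.pos (nat_lit 0) (nat_lit 0)) T5.l1
  (TrL.c (I.pos (nat_lit 0) (nat_lit 124588530)) (xR T0.l1 T0.l1)
  (TrL.c (I.pos (nat_lit 0) (nat_lit 96881482)) T5.l2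
  (TrL.c (I.pos (nat_lit 0) (nat_lit 0)) (xk (xb T5.l8 T5.l8) T5.l8)
  (TrL.c (I.pos (nat_lit 0) (nat_lit 0)) T0.l2
  (TrL.c (I.mix (nat_lit 17240550) (nat_lit 96881482)) (xR T5.l4 T5.l4)
  (TrL.c (I.mix (nat_lit 17240550) (nat_lit 71940500)) T0.l6
  TrL.n)))))))) (by decide +kernel)
theorem bx2_7 : BoxOK sI cl9 cl6 cl13 t0 t5 b2_7 :=
  box_mk (TrL.c (I.pos (nat_lit 0) (nat_lit 0)) (xa (xa (xb T0.l4 (xa T0.l4 T0.l4)) T0.l4) T0.l4)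
  (TrL.c (I.pos (nat_lit 0) (nat_lit 0)) T5.l1
  (TrL.c (I.pos (nat_lit 0) (nat_lit 124588530)) T0.l1
  (TrL.c (I.pos (nat_lit 0) (nat_lit 96881482)) T5.l2
  (TrL.c (I.pos (nat_lit 0) (nat_lit 0)) T5.l5
  (TrL.c (I.pos (nat_lit 0) (nat_lit 0)) T0.l2
  (TrL.c (I.mix (nat_lit 17240550) (nat_lit 96881482)) T5.l4
  (TrL.c (I.mix (nat_lit 17240550) (nat_lit 71940500)) T0.l3
  TrL.n)))))))) (by decide +kernel)
theorem bx2_8 : BoxOK sI cl9 cl6 cl13 t0 t5 b2_8 :=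
  box_mk (TrL.c (I.pos (nat_lit 0) (nat_lit 0)) (xa (xb T0.l0 T0.l0) (xb T0.l0 T0.l0))
  (TrL.c (I.pos (nat_lit 0) (nat_lit 0)) T5.l1
  (TrL.c (I.pos (nat_lit 0) (nat_lit 124588530)) (xR T0.l8 T0.l8)
  (TrL.c (I.pos (nat_lit 0) (nat_lit 96881482)) (xR T5.l2 T5.l2)
  (TrL.c (I.pos (nat_lit 0) (nat_lit 0)) (xa (xb (xk T5.l3 T5.l3) (xk T5.l3 T5.l3)) (xb (xk (xa T5.l3 T5.l3) (xa T5.l3 T5.l3)) (xk (xa T5.l3 T5.l3) (xa T5.l3 T5.l3))))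
  (TrL.c (I.pos (nat_lit 0) (nat_lit 0)) T0.l2
  (TrL.c (I.mix (nat_lit 17240550) (nat_lit 96881482)) (xR T5.l4 T5.l4)
  (TrL.c (I.mix (nat_lit 17240550) (nat_lit 71940500)) T0.l6
  TrL.n)))))))) (by decide +kernel)
theorem bx2_9 : BoxOK sI cl9 cl6 cl13 t0 t5 b2_9 :=
  box_mk (TrL.c (I.pos (nat_lit 0) (nat_lit 0)) (xa T0.l0 T0.l9)
  (TrL.c (I.pos (nat_lit 0) (nat_lit 0)) T5.l1
  (TrL.c (I.pos (nat_lit 0) (nat_lit 124588530)) (xR T0.l1 T0.l1)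
  (TrL.c (I.pos (nat_lit 0) (nat_lit 96881482)) T5.l2
  (TrL.c (I.pos (nat_lit 0) (nat_lit 0)) (xk T5.l8 T5.l8)
  (TrL.c (I.pos (nat_lit 0) (nat_lit 0)) T0.l2
  (TrL.c (I.mix (nat_lit 17240550) (nat_lit 96881482)) (xR T5.l4 T5.l4)
  (TrL.c (I.mix (nat_lit 17240550) (nat_lit 71940500)) T0.l3
  TrL.n)))))))) (by decide +kernel)
theorem bx2_10 : BoxOK sI cl9 cl6 cl13 t0 t5 b2_10 :=
  box_mk (TrL.c (I.pos (nat_lit 0) (nat_lit 0)) T0.l9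
  (TrL.c (I.pos (nat_lit 0) (nat_lit 0)) T5.l1
  (TrL.c (I.pos (nat_lit 0) (nat_lit 124588530)) (xR T0.l1 T0.l1)
  (TrL.c (I.pos (nat_lit 0) (nat_lit 96881482)) T5.l2
  (TrL.c (I.pos (nat_lit 0) (nat_lit 0)) (xk T5.l8 T5.l8)
  (TrL.c (I.pos (nat_lit 0) (nat_lit 0)) T0.l2
  (TrL.c (I.mix (nat_lit 17240550) (nat_lit 96881482)) (xR T5.l4 T5.l4)
  (TrL.c (I.mix (nat_lit 17240550) (nat_lit 71940500)) T0.l6
  TrL.n)))))))) (by decide +kernel)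
theorem bx2_11 : BoxOK sI cl9 cl6 cl13 t0 t5 b2_11 :=
  box_mk (TrL.c (I.pos (nat_lit 0) (nat_lit 0)) (xa T0.l0 T0.l0)
  (TrL.c (I.pos (nat_lit 0) (nat_lit 0)) T5.l1
  (TrL.c (I.pos (nat_lit 0) (nat_lit 124588530)) (xR T0.l1 T0.l1)
  (TrL.c (I.pos (nat_lit 0) (nat_lit 96881482)) T5.l2
  (TrL.c (I.pos (nat_lit 0) (nat_lit 0)) (xk (xa T5.l3 T5.l3) (xa T5.l3 T5.l3))
  (TrL.c (I.pos (nat_lit 0) (nat_lit 0)) T0.l2
  (TrL.c (I.mix (nat_lit 17240550) (nat_lit 96881482)) (xR T5.l4 T5.l4)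
  (TrL.c (I.mix (nat_lit 17240550) (nat_lit 71940500)) T0.l6
  TrL.n)))))))) (by decide +kernel)
theorem sv2 : StarV sI cl9 cl6 cl13 t0 t5 t2 :=
  (bt_n (bt_n (bt_n (bt_b bx2_0) (bt_n (bt_b bx2_1) (bt_b bx2_2))) (bt_n (bt_b bx2_3) (bt_n (bt_b bx2_4) (bt_b bx2_5)))) (bt_n (bt_n (bt_b bx2_6) (bt_n (bt_b bx2_7) (bt_b bx2_8))) (bt_n (bt_b bx2_9) (bt_n (bt_b bx2_10) (bt_b bx2_11)))))
def S2 : StarD := StarD.mk cl9 cl6 cl13 0 5 t2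
theorem bx3_0 : BoxOK sI cl9 cl13 cl6 t5 t0 b3_0 :=
  box_mk (TrL.c (I.pos (nat_lit 0) (nat_lit 0)) (xa (xa (xb T5.l0 T5.l0) (xb T5.l0 T5.l0)) (xa T5.l0 T5.l0))
  (TrL.c (I.pos (nat_lit 0) (nat_lit 0)) T0.l5
  (TrL.c (I.pos (nat_lit 0) (nat_lit 124588530)) (xR T5.l6 T5.l6)
  (TrL.c (I.pos (nat_lit 0) (nat_lit 96881482)) (xR T0.l6 T0.l6)
  (TrL.c (I.pos (nat_lit 0) (nat_lit 0)) (xa T0.l7 (xk T0.l7 T0.l7))
  (TrL.c (I.pos (nat_lit 0) (nat_lit 0)) T5.l7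
  (TrL.c (I.mix (nat_lit 17240550) (nat_lit 96881482)) (xR T0.l8 T0.l8)
  (TrL.c (I.mix (nat_lit 17240550) (nat_lit 71940500)) T5.l11
  TrL.n)))))))) (by decide +kernel)
theorem bx3_1 : BoxOK sI cl9 cl13 cl6 t5 t0 b3_1 :=
  box_mk (TrL.c (I.pos (nat_lit 0) (nat_lit 0)) (xa T5.l9 T5.l0)
  (TrL.c (I.pos (nat_lit 0) (nat_lit 0)) T0.l5
  (TrL.c (I.pos (nat_lit 0) (nat_lit 124588530)) (xR T5.l6 T5.l6)
  (TrL.c (I.pos (nat_lit 0) (nat_lit 96881482)) T0.l6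
  (TrL.c (I.pos (nat_lit 0) (nat_lit 0)) (xa T0.l10 (xk T0.l10 T0.l10))
  (TrL.c (I.pos (nat_lit 0) (nat_lit 0)) T5.l7
  (TrL.c (I.mix (nat_lit 17240550) (nat_lit 96881482)) (xR T0.l8 T0.l8)
  (TrL.c (I.mix (nat_lit 17240550) (nat_lit 71940500)) T5.l2
  TrL.n)))))))) (by decide +kernel)
theorem bx3_2 : BoxOK sI cl9 cl13 cl6 t5 t0 b3_2 :=
  box_mk (TrL.c (I.pos (nat_lit 0) (nat_lit 0)) (xa (xa T5.l9 T5.l9) T5.l9)
  (TrL.c (I.pos (nat_lit 0) (nat_lit 0)) T0.l5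
  (TrL.c (I.pos (nat_lit 0) (nat_lit 124588530)) T5.l6
  (TrL.c (I.pos (nat_lit 0) (nat_lit 96881482)) T0.l6
  (TrL.c (I.pos (nat_lit 0) (nat_lit 0)) (xa T0.l10 T0.l10)
  (TrL.c (I.pos (nat_lit 0) (nat_lit 0)) T5.l7
  (TrL.c (I.mix (nat_lit 17240550) (nat_lit 96881482)) T0.l8
  (TrL.c (I.mix (nat_lit 17240550) (nat_lit 71940500)) T5.l2
  TrL.n)))))))) (by decide +kernel)
theorem bx3_3 : BoxOK sI cl9 cl13 cl6 t5 t0 b3_3 :=
  box_mk (TrL.c (I.pos (nat_lit 0) (nat_lit 0)) (xb T5.l10 (xa T5.l10 T5.l10))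
  (TrL.c (I.pos (nat_lit 0) (nat_lit 0)) T0.l5
  (TrL.c (I.pos (nat_lit 0) (nat_lit 124588530)) (xR T5.l6 T5.l6)
  (TrL.c (I.pos (nat_lit 0) (nat_lit 96881482)) T0.l6
  (TrL.c (I.pos (nat_lit 0) (nat_lit 0)) (xk T0.l11 T0.l11)
  (TrL.c (I.pos (nat_lit 0) (nat_lit 0)) T5.l7
  (TrL.c (I.mix (nat_lit 17240550) (nat_lit 96881482)) (xR T0.l8 T0.l8)
  (TrL.c (I.mix (nat_lit 17240550) (nat_lit 71940500)) T5.l11
  TrL.n)))))))) (by decide +kernel)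
theorem bx3_4 : BoxOK sI cl9 cl13 cl6 t5 t0 b3_4 :=
  box_mk (TrL.c (I.pos (nat_lit 0) (nat_lit 0)) (xa (xa (xb T5.l9 (xa T5.l9 T5.l9)) (xb T5.l9 T5.l9)) (xa (xb T5.l9 (xa T5.l9 T5.l9)) (xb T5.l9 (xa T5.l9 T5.l9))))
  (TrL.c (I.pos (nat_lit 0) (nat_lit 0)) (xa T0.l5 T0.l5)
  (TrL.c (I.pos (nat_lit 0) (nat_lit 124588530)) (xR T5.l6 T5.l6)
  (TrL.c (I.pos (nat_lit 0) (nat_lit 96881482)) T0.l6
  (TrL.c (I.pos (nat_lit 0) (nat_lit 0)) (xa T0.l10 T0.l10)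
  (TrL.c (I.pos (nat_lit 0) (nat_lit 0)) T5.l7
  (TrL.c (I.mix (nat_lit 17240550) (nat_lit 96881482)) T0.l8
  (TrL.c (I.mix (nat_lit 17240550) (nat_lit 71940500)) T5.l2
  TrL.n)))))))) (by decide +kernel)
theorem bx3_5 : BoxOK sI cl9 cl13 cl6 t5 t0 b3_5 :=
  box_mk (TrL.c (I.pos (nat_lit 0) (nat_lit 0)) (xa T5.l10 T5.l0)
  (TrL.c (I.pos (nat_lit 0) (nat_lit 0)) T0.l5
  (TrL.c (I.pos (nat_lit 0) (nat_lit 124588530)) (xR T5.l6 T5.l6)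
  (TrL.c (I.pos (nat_lit 0) (nat_lit 96881482)) T0.l6
  (TrL.c (I.pos (nat_lit 0) (nat_lit 0)) (xa T0.l11 (xk T0.l7 T0.l7))
  (TrL.c (I.pos (nat_lit 0) (nat_lit 0)) T5.l7
  (TrL.c (I.mix (nat_lit 17240550) (nat_lit 96881482)) (xR T0.l8 T0.l8)
  (TrL.c (I.mix (nat_lit 17240550) (nat_lit 71940500)) T5.l2
  TrL.n)))))))) (by decide +kernel)
theorem bx3_6 : BoxOK sI cl9 cl13 cl6 t5 t0 b3_6 :=
  box_mk (TrL.c (I.pos (nat_lit 0) (nat_lit 0)) (xa T5.l9 (xa T5.l9 T5.l9))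
  (TrL.c (I.pos (nat_lit 0) (nat_lit 0)) T0.l5
  (TrL.c (I.pos (nat_lit 0) (nat_lit 124588530)) T5.l6
  (TrL.c (I.pos (nat_lit 0) (nat_lit 96881482)) T0.l6
  (TrL.c (I.pos (nat_lit 0) (nat_lit 0)) T0.l10
  (TrL.c (I.pos (nat_lit 0) (nat_lit 0)) T5.l7
  (TrL.c (I.mix (nat_lit 17240550) (nat_lit 96881482)) T0.l8
  (TrL.c (I.mix (nat_lit 17240550) (nat_lit 71940500)) T5.l2
  TrL.n)))))))) (by decide +kernel)
theorem bx3_7 : BoxOK sI cl9 cl13 cl6 t5 t0 b3_7 :=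
  box_mk (TrL.c (I.pos (nat_lit 0) (nat_lit 0)) (xb T5.l9 (xa T5.l9 T5.l9))
  (TrL.c (I.pos (nat_lit 0) (nat_lit 0)) T0.l5
  (TrL.c (I.pos (nat_lit 0) (nat_lit 124588530)) (xR T5.l6 T5.l6)
  (TrL.c (I.pos (nat_lit 0) (nat_lit 96881482)) T0.l6
  (TrL.c (I.pos (nat_lit 0) (nat_lit 0)) (xb T0.l10 T0.l10)
  (TrL.c (I.pos (nat_lit 0) (nat_lit 0)) T5.l7
  (TrL.c (I.mix (nat_lit 17240550) (nat_lit 96881482)) (xR T0.l8 T0.l8)
  (TrL.c (I.mix (nat_lit 17240550) (nat_lit 71940500)) T5.l2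
  TrL.n)))))))) (by decide +kernel)
theorem bx3_8 : BoxOK sI cl9 cl13 cl6 t5 t0 b3_8 :=
  box_mk (TrL.c (I.pos (nat_lit 0) (nat_lit 0)) (xa T5.l9 T5.l9)
  (TrL.c (I.pos (nat_lit 0) (nat_lit 0)) T0.l5
  (TrL.c (I.pos (nat_lit 0) (nat_lit 124588530)) T5.l6
  (TrL.c (I.pos (nat_lit 0) (nat_lit 96881482)) T0.l6
  (TrL.c (I.pos (nat_lit 0) (nat_lit 0)) T0.l10
  (TrL.c (I.pos (nat_lit 0) (nat_lit 0)) T5.l7
  (TrL.c (I.mix (nat_lit 17240550) (nat_lit 96881482)) T0.l8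
  (TrL.c (I.mix (nat_lit 17240550) (nat_lit 71940500)) T5.l2
  TrL.n)))))))) (by decide +kernel)
theorem bx3_9 : BoxOK sI cl9 cl13 cl6 t5 t0 b3_9 :=
  box_mk (TrL.c (I.pos (nat_lit 0) (nat_lit 0)) (xa (xb T5.l0 (xa T5.l0 T5.l0)) (xb T5.l0 T5.l0))
  (TrL.c (I.pos (nat_lit 0) (nat_lit 0)) T0.l5
  (TrL.c (I.pos (nat_lit 0) (nat_lit 124588530)) (xR T5.l4 T5.l4)
  (TrL.c (I.pos (nat_lit 0) (nat_lit 96881482)) (xR T0.l6 T0.l6)
  (TrL.c (I.pos (nat_lit 0) (nat_lit 0)) (xa (xb (xk T0.l7 T0.l7) (xk T0.l7 T0.l7)) (xk (xb (xa T0.l7 T0.l7) (xa T0.l7 T0.l7)) (xb (xa T0.l7 T0.l7) (xa T0.l7 T0.l7))))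
  (TrL.c (I.pos (nat_lit 0) (nat_lit 0)) T5.l7
  (TrL.c (I.mix (nat_lit 17240550) (nat_lit 96881482)) (xR T0.l8 T0.l8)
  (TrL.c (I.mix (nat_lit 17240550) (nat_lit 71940500)) T5.l11
  TrL.n)))))))) (by decide +kernel)
theorem bx3_10 : BoxOK sI cl9 cl13 cl6 t5 t0 b3_10 :=
  box_mk (TrL.c (I.pos (nat_lit 0) (nat_lit 0)) (xa (xb T5.l0 T5.l0) T5.l0)
  (TrL.c (I.pos (nat_lit 0) (nat_lit 0)) T0.l5
  (TrL.c (I.pos (nat_lit 0) (nat_lit 124588530)) (xR T5.l6 T5.l6)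
  (TrL.c (I.pos (nat_lit 0) (nat_lit 96881482)) T0.l6
  (TrL.c (I.pos (nat_lit 0) (nat_lit 0)) (xk T0.l7 T0.l7)
  (TrL.c (I.pos (nat_lit 0) (nat_lit 0)) T5.l7
  (TrL.c (I.mix (nat_lit 17240550) (nat_lit 96881482)) (xR T0.l8 T0.l8)
  (TrL.c (I.mix (nat_lit 17240550) (nat_lit 71940500)) T5.l11
  TrL.n)))))))) (by decide +kernel)
theorem bx3_11 : BoxOK sI cl9 cl13 cl6 t5 t0 b3_11 :=
  box_mk (TrL.c (I.pos (nat_lit 0) (nat_lit 0)) (xa T5.l10 T5.l10)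
  (TrL.c (I.pos (nat_lit 0) (nat_lit 0)) T0.l5
  (TrL.c (I.pos (nat_lit 0) (nat_lit 124588530)) (xR T5.l6 T5.l6)
  (TrL.c (I.pos (nat_lit 0) (nat_lit 96881482)) T0.l6
  (TrL.c (I.pos (nat_lit 0) (nat_lit 0)) (xk T0.l11 T0.l11)
  (TrL.c (I.pos (nat_lit 0) (nat_lit 0)) T5.l7
  (TrL.c (I.mix (nat_lit 17240550) (nat_lit 96881482)) (xR T0.l8 T0.l8)
  (TrL.c (I.mix (nat_lit 17240550) (nat_lit 71940500)) T5.l11
  TrL.n)))))))) (by decide +kernel)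
theorem sv3 : StarV sI cl9 cl13 cl6 t5 t0 t3 :=
  (bt_n (bt_n (bt_n (bt_b bx3_0) (bt_n (bt_b bx3_1) (bt_b bx3_2))) (bt_n (bt_b bx3_3) (bt_n (bt_b bx3_4) (bt_b bx3_5)))) (bt_n (bt_n (bt_b bx3_6) (bt_n (bt_b bx3_7) (bt_b bx3_8))) (bt_n (bt_b bx3_9) (bt_n (bt_b bx3_10) (bt_b bx3_11)))))
def S3 : StarD := StarD.mk cl9 cl13 cl6 5 0 t3
theorem bx4_0 : BoxOK sI cl13 cl6 cl9 t1 t3 b4_0 :=
  box_mk (TrL.c (I.pos (nat_lit 0) (nat_lit 0)) (xa (xb T1.l0 T1.l0) (xb T1.l0 T1.l0))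
  (TrL.c (I.pos (nat_lit 0) (nat_lit 0)) T3.l1
  (TrL.c (I.pos (nat_lit 0) (nat_lit 134217730)) (xR T1.l1 T1.l8)
  (TrL.c (I.pos (nat_lit 0) (nat_lit 110514882)) (xR T3.l2 T3.l2)
  (TrL.c (I.pos (nat_lit 0) (nat_lit 0)) (xa (xk T3.l3 T3.l3) (xk (xb T3.l3 T3.l3) (xb T3.l3 T3.l3)))
  (TrL.c (I.pos (nat_lit 0) (nat_lit 0)) T1.l2
  (TrL.c (I.mix (nat_lit 8088324) (nat_lit 110514882)) (xR T3.l4 T3.l4)
  (TrL.c (I.mix (nat_lit 8088324) (nat_lit 89478486)) T1.l3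
  TrL.n)))))))) (by decide +kernel)
theorem bx4_1 : BoxOK sI cl13 cl6 cl9 t1 t3 b4_1 :=
  box_mk (TrL.c (I.pos (nat_lit 0) (nat_lit 0)) (xa T1.l4 T1.l4)
  (TrL.c (I.pos (nat_lit 0) (nat_lit 0)) T3.l1
  (TrL.c (I.pos (nat_lit 0) (nat_lit 134217730)) (xR T1.l1 T1.l1)
  (TrL.c (I.pos (nat_lit 0) (nat_lit 110514882)) (xR T3.l2 T3.l2)
  (TrL.c (I.pos (nat_lit 0) (nat_lit 0)) (xa T3.l5 T3.l5)
  (TrL.c (I.pos (nat_lit 0) (nat_lit 0)) T1.l2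
  (TrL.c (I.mix (nat_lit 8088324) (nat_lit 110514882)) T3.l4
  (TrL.c (I.mix (nat_lit 8088324) (nat_lit 89478486)) T1.l3
  TrL.n)))))))) (by decide +kernel)
theorem bx4_2 : BoxOK sI cl13 cl6 cl9 t1 t3 b4_2 :=
  box_mk (TrL.c (I.pos (nat_lit 0) (nat_lit 0)) (xa T1.l4 T1.l4)
  (TrL.c (I.pos (nat_lit 0) (nat_lit 0)) T3.l1
  (TrL.c (I.pos (nat_lit 0) (nat_lit 134217730)) T1.l1
  (TrL.c (I.pos (nat_lit 0) (nat_lit 110514882)) T3.l4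
  (TrL.c (I.pos (nat_lit 0) (nat_lit 0)) T3.l5
  (TrL.c (I.pos (nat_lit 0) (nat_lit 0)) T1.l2
  (TrL.c (I.mix (nat_lit 8088324) (nat_lit 110514882)) T3.l4
  (TrL.c (I.mix (nat_lit 8088324) (nat_lit 89478486)) T1.l8
  TrL.n)))))))) (by decide +kernel)
theorem bx4_3 : BoxOK sI cl13 cl6 cl9 t1 t3 b4_3 :=
  box_mk (TrL.c (I.pos (nat_lit 0) (nat_lit 0)) (xa T1.l11 T1.l11)
  (TrL.c (I.pos (nat_lit 0) (nat_lit 0)) T3.l1
  (TrL.c (I.pos (nat_lit 0) (nat_lit 134217730)) (xR T1.l1 T1.l8)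
  (TrL.c (I.pos (nat_lit 0) (nat_lit 110514882)) (xR T3.l2 T3.l2)
  (TrL.c (I.pos (nat_lit 0) (nat_lit 0)) (xk T3.l11 T3.l11)
  (TrL.c (I.pos (nat_lit 0) (nat_lit 0)) T1.l2
  (TrL.c (I.mix (nat_lit 8088324) (nat_lit 110514882)) (xR T3.l4 T3.l4)
  (TrL.c (I.mix (nat_lit 8088324) (nat_lit 89478486)) T1.l3
  TrL.n)))))))) (by decide +kernel)
theorem bx4_4 : BoxOK sI cl13 cl6 cl9 t1 t3 b4_4 :=
  box_mk (TrL.c (I.pos (nat_lit 0) (nat_lit 0)) (xa (xa (xb T1.l4 T1.l4) T1.l4) T1.l4)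
  (TrL.c (I.pos (nat_lit 0) (nat_lit 0)) T3.l1
  (TrL.c (I.pos (nat_lit 0) (nat_lit 134217730)) T1.l1
  (TrL.c (I.pos (nat_lit 0) (nat_lit 110514882)) (xR T3.l2 T3.l2)
  (TrL.c (I.pos (nat_lit 0) (nat_lit 0)) T3.l5
  (TrL.c (I.pos (nat_lit 0) (nat_lit 0)) T1.l2
  (TrL.c (I.mix (nat_lit 8088324) (nat_lit 110514882)) (xR T3.l4 T3.l4)
  (TrL.c (I.mix (nat_lit 8088324) (nat_lit 89478486)) T1.l8
  TrL.n)))))))) (by decide +kernel)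
theorem bx4_5 : BoxOK sI cl13 cl6 cl9 t1 t3 b4_5 :=
  box_mk (TrL.c (I.pos (nat_lit 0) (nat_lit 0)) (xa (xa (xb T1.l4 T1.l4) T1.l4) (xa T1.l4 T1.l4))
  (TrL.c (I.pos (nat_lit 0) (nat_lit 0)) T3.l1
  (TrL.c (I.pos (nat_lit 0) (nat_lit 134217730)) (xR T1.l1 T1.l1)
  (TrL.c (I.pos (nat_lit 0) (nat_lit 110514882)) T3.l2
  (TrL.c (I.pos (nat_lit 0) (nat_lit 0)) T3.l5
  (TrL.c (I.pos (nat_lit 0) (nat_lit 0)) T1.l2
  (TrL.c (I.mix (nat_lit 8088324) (nat_lit 110514882)) (xR T3.l4 T3.l4)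
  (TrL.c (I.mix (nat_lit 8088324) (nat_lit 89478486)) T1.l8
  TrL.n)))))))) (by decide +kernel)
theorem bx4_6 : BoxOK sI cl13 cl6 cl9 t1 t3 b4_6 :=
  box_mk (TrL.c (I.pos (nat_lit 0) (nat_lit 0)) T1.l4
  (TrL.c (I.pos (nat_lit 0) (nat_lit 0)) T3.l1
  (TrL.c (I.pos (nat_lit 0) (nat_lit 134217730)) (xR T1.l1 T1.l1)
  (TrL.c (I.pos (nat_lit 0) (nat_lit 110514882)) (xR T3.l2 T3.l2)
  (TrL.c (I.pos (nat_lit 0) (nat_lit 0)) T3.l5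
  (TrL.c (I.pos (nat_lit 0) (nat_lit 0)) T1.l2
  (TrL.c (I.mix (nat_lit 8088324) (nat_lit 110514882)) T3.l4
  (TrL.c (I.mix (nat_lit 8088324) (nat_lit 89478486)) T1.l3
  TrL.n)))))))) (by decide +kernel)
theorem bx4_7 : BoxOK sI cl13 cl6 cl9 t1 t3 b4_7 :=
  box_mk (TrL.c (I.pos (nat_lit 0) (nat_lit 0)) (xa (xb T1.l4 T1.l4) T1.l4)
  (TrL.c (I.pos (nat_lit 0) (nat_lit 0)) T3.l5
  (TrL.c (I.pos (nat_lit 0) (nat_lit 134217730)) T1.l1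
  (TrL.c (I.pos (nat_lit 0) (nat_lit 110514882)) T3.l4
  (TrL.c (I.pos (nat_lit 0) (nat_lit 0)) T3.l1
  (TrL.c (I.pos (nat_lit 0) (nat_lit 0)) T1.l2
  (TrL.c (I.mix (nat_lit 8088324) (nat_lit 110514882)) T3.l4
  (TrL.c (I.mix (nat_lit 8088324) (nat_lit 89478486)) T1.l8
  TrL.n)))))))) (by decide +kernel)
theorem bx4_8 : BoxOK sI cl13 cl6 cl9 t1 t3 b4_8 :=
  box_mk (TrL.c (I.pos (nat_lit 0) (nat_lit 0)) (xa T1.l11 T1.l11)
  (TrL.c (I.pos (nat_lit 0) (nat_lit 0)) T3.l1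
  (TrL.c (I.pos (nat_lit 0) (nat_lit 134217730)) (xR T1.l1 T1.l1)
  (TrL.c (I.pos (nat_lit 0) (nat_lit 110514882)) (xR T3.l2 T3.l2)
  (TrL.c (I.pos (nat_lit 0) (nat_lit 0)) (xk T3.l11 T3.l11)
  (TrL.c (I.pos (nat_lit 0) (nat_lit 0)) T1.l2
  (TrL.c (I.mix (nat_lit 8088324) (nat_lit 110514882)) (xR T3.l4 T3.l4)
  (TrL.c (I.mix (nat_lit 8088324) (nat_lit 89478486)) T1.l3
  TrL.n)))))))) (by decide +kernel)
theorem bx4_9 : BoxOK sI cl13 cl6 cl9 t1 t3 b4_9 :=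
  box_mk (TrL.c (I.pos (nat_lit 0) (nat_lit 0)) (xa T1.l0 T1.l0)
  (TrL.c (I.pos (nat_lit 0) (nat_lit 0)) T3.l1
  (TrL.c (I.pos (nat_lit 0) (nat_lit 134217730)) (xR T1.l8 T1.l8)
  (TrL.c (I.pos (nat_lit 0) (nat_lit 110514882)) (xR T3.l2 T3.l2)
  (TrL.c (I.pos (nat_lit 0) (nat_lit 0)) (xa (xk (xb T3.l3 T3.l3) (xb T3.l3 T3.l3)) (xk (xb (xa T3.l3 T3.l3) (xa T3.l3 T3.l3)) (xb (xa T3.l3 T3.l3) (xa T3.l3 T3.l3))))
  (TrL.c (I.pos (nat_lit 0) (nat_lit 0)) T1.l2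
  (TrL.c (I.mix (nat_lit 8088324) (nat_lit 110514882)) (xR T3.l4 T3.l4)
  (TrL.c (I.mix (nat_lit 8088324) (nat_lit 89478486)) T1.l3
  TrL.n)))))))) (by decide +kernel)
theorem bx4_10 : BoxOK sI cl13 cl6 cl9 t1 t3 b4_10 :=
  box_mk (TrL.c (I.pos (nat_lit 0) (nat_lit 0)) (xa T1.l0 T1.l0)
  (TrL.c (I.pos (nat_lit 0) (nat_lit 0)) T3.l1
  (TrL.c (I.pos (nat_lit 0) (nat_lit 134217730)) (xR T1.l1 T1.l8)
  (TrL.c (I.pos (nat_lit 0) (nat_lit 110514882)) (xR T3.l2 T3.l2)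
  (TrL.c (I.pos (nat_lit 0) (nat_lit 0)) (xk T3.l3 (xb T3.l3 T3.l3))
  (TrL.c (I.pos (nat_lit 0) (nat_lit 0)) T1.l2
  (TrL.c (I.mix (nat_lit 8088324) (nat_lit 110514882)) (xR T3.l4 T3.l4)
  (TrL.c (I.mix (nat_lit 8088324) (nat_lit 89478486)) T1.l3
  TrL.n)))))))) (by decide +kernel)
theorem bx4_11 : BoxOK sI cl13 cl6 cl9 t1 t3 b4_11 :=
  box_mk (TrL.c (I.pos (nat_lit 0) (nat_lit 0)) T1.l11
  (TrL.c (I.pos (nat_lit 0) (nat_lit 0)) T3.l1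
  (TrL.c (I.pos (nat_lit 0) (nat_lit 134217730)) (xR T1.l1 T1.l1)
  (TrL.c (I.pos (nat_lit 0) (nat_lit 110514882)) (xR T3.l2 T3.l2)
  (TrL.c (I.pos (nat_lit 0) (nat_lit 0)) T3.l11
  (TrL.c (I.pos (nat_lit 0) (nat_lit 0)) T1.l2
  (TrL.c (I.mix (nat_lit 8088324) (nat_lit 110514882)) (xR T3.l4 T3.l4)
  (TrL.c (I.mix (nat_lit 8088324) (nat_lit 89478486)) T1.l3
  TrL.n)))))))) (by decide +kernel)
theorem sv4 : StarV sI cl13 cl6 cl9 t1 t3 t4 :=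
  (bt_n (bt_n (bt_n (bt_b bx4_0) (bt_n (bt_b bx4_1) (bt_b bx4_2))) (bt_n (bt_b bx4_3) (bt_n (bt_b bx4_4) (bt_b bx4_5)))) (bt_n (bt_n (bt_b bx4_6) (bt_n (bt_b bx4_7) (bt_b bx4_8))) (bt_n (bt_b bx4_9) (bt_n (bt_b bx4_10) (bt_b bx4_11)))))
def S4 : StarD := StarD.mk cl13 cl6 cl9 1 3 t4
theorem bx5_0 : BoxOK sI cl13 cl9 cl6 t3 t1 b5_0 :=
  box_mk (TrL.c (I.pos (nat_lit 0) (nat_lit 0)) (xa (xa (xb T3.l0 T3.l10) (xb T3.l0 T3.l0)) (xa T3.l0 T3.l0))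
  (TrL.c (I.pos (nat_lit 0) (nat_lit 0)) T1.l5
  (TrL.c (I.pos (nat_lit 0) (nat_lit 134217730)) (xR T3.l4 T3.l6)
  (TrL.c (I.pos (nat_lit 0) (nat_lit 110514882)) (xR T1.l3 T1.l6)
  (TrL.c (I.pos (nat_lit 0) (nat_lit 0)) (xa T1.l7 (xk T1.l7 T1.l7))
  (TrL.c (I.pos (nat_lit 0) (nat_lit 0)) T3.l7
  (TrL.c (I.mix (nat_lit 8088324) (nat_lit 110514882)) (xR T1.l8 T1.l8)
  (TrL.c (I.mix (nat_lit 8088324) (nat_lit 89478486)) T3.l8
  TrL.n)))))))) (by decide +kernel)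
theorem bx5_1 : BoxOK sI cl13 cl9 cl6 t3 t1 b5_1 :=
  box_mk (TrL.c (I.pos (nat_lit 0) (nat_lit 0)) (xa T3.l9 T3.l9)
  (TrL.c (I.pos (nat_lit 0) (nat_lit 0)) T1.l5
  (TrL.c (I.pos (nat_lit 0) (nat_lit 134217730)) (xR T3.l4 T3.l6)
  (TrL.c (I.pos (nat_lit 0) (nat_lit 110514882)) (xR T1.l1 T1.l6)
  (TrL.c (I.pos (nat_lit 0) (nat_lit 0)) (xa T1.l9 (xk T1.l9 T1.l9))
  (TrL.c (I.pos (nat_lit 0) (nat_lit 0)) T3.l7
  (TrL.c (I.mix (nat_lit 8088324) (nat_lit 110514882)) T1.l8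
  (TrL.c (I.mix (nat_lit 8088324) (nat_lit 89478486)) T3.l8
  TrL.n)))))))) (by decide +kernel)
theorem bx5_2 : BoxOK sI cl13 cl9 cl6 t3 t1 b5_2 :=
  box_mk (TrL.c (I.pos (nat_lit 0) (nat_lit 0)) (xa (xa T3.l9 T3.l9) T3.l9)
  (TrL.c (I.pos (nat_lit 0) (nat_lit 0)) T1.l5
  (TrL.c (I.pos (nat_lit 0) (nat_lit 134217730)) (xR T3.l2 T3.l6)
  (TrL.c (I.pos (nat_lit 0) (nat_lit 110514882)) (xR T1.l1 T1.l6)
  (TrL.c (I.pos (nat_lit 0) (nat_lit 0)) (xa T1.l9 T1.l9)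
  (TrL.c (I.pos (nat_lit 0) (nat_lit 0)) T3.l7
  (TrL.c (I.mix (nat_lit 8088324) (nat_lit 110514882)) T1.l8
  (TrL.c (I.mix (nat_lit 8088324) (nat_lit 89478486)) T3.l2
  TrL.n)))))))) (by decide +kernel)
theorem bx5_3 : BoxOK sI cl13 cl9 cl6 t3 t1 b5_3 :=
  box_mk (TrL.c (I.pos (nat_lit 0) (nat_lit 0)) (xb T3.l10 (xa T3.l10 T3.l10))
  (TrL.c (I.pos (nat_lit 0) (nat_lit 0)) T1.l5
  (TrL.c (I.pos (nat_lit 0) (nat_lit 134217730)) (xR T3.l4 T3.l6)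
  (TrL.c (I.pos (nat_lit 0) (nat_lit 110514882)) (xR T1.l3 T1.l6)
  (TrL.c (I.pos (nat_lit 0) (nat_lit 0)) (xk T1.l10 (xb T1.l10 T1.l7))
  (TrL.c (I.pos (nat_lit 0) (nat_lit 0)) T3.l7
  (TrL.c (I.mix (nat_lit 8088324) (nat_lit 110514882)) (xR T1.l8 T1.l8)
  (TrL.c (I.mix (nat_lit 8088324) (nat_lit 89478486)) T3.l8
  TrL.n)))))))) (by decide +kernel)
theorem bx5_4 : BoxOK sI cl13 cl9 cl6 t3 t1 b5_4 :=
  box_mk (TrL.c (I.pos (nat_lit 0) (nat_lit 0)) (xa (xa (xb T3.l9 (xa T3.l9 T3.l9)) T3.l9) (xa T3.l9 (xb T3.l9 T3.l9)))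
  (TrL.c (I.pos (nat_lit 0) (nat_lit 0)) (xa T1.l5 T1.l5)
  (TrL.c (I.pos (nat_lit 0) (nat_lit 134217730)) (xR T3.l4 T3.l6)
  (TrL.c (I.pos (nat_lit 0) (nat_lit 110514882)) (xR T1.l1 T1.l6)
  (TrL.c (I.pos (nat_lit 0) (nat_lit 0)) (xa T1.l9 T1.l9)
  (TrL.c (I.pos (nat_lit 0) (nat_lit 0)) T3.l7
  (TrL.c (I.mix (nat_lit 8088324) (nat_lit 110514882)) (xR T1.l8 T1.l8)
  (TrL.c (I.mix (nat_lit 8088324) (nat_lit 89478486)) T3.l4
  TrL.n)))))))) (by decide +kernel)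
theorem bx5_5 : BoxOK sI cl13 cl9 cl6 t3 t1 b5_5 :=
  box_mk (TrL.c (I.pos (nat_lit 0) (nat_lit 0)) (xa T3.l10 T3.l10)
  (TrL.c (I.pos (nat_lit 0) (nat_lit 0)) T1.l5
  (TrL.c (I.pos (nat_lit 0) (nat_lit 134217730)) (xR T3.l4 T3.l6)
  (TrL.c (I.pos (nat_lit 0) (nat_lit 110514882)) (xR T1.l3 T1.l6)
  (TrL.c (I.pos (nat_lit 0) (nat_lit 0)) (xa T1.l10 T1.l10)
  (TrL.c (I.pos (nat_lit 0) (nat_lit 0)) T3.l7
  (TrL.c (I.mix (nat_lit 8088324) (nat_lit 110514882)) (xR T1.l8 T1.l8)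
  (TrL.c (I.mix (nat_lit 8088324) (nat_lit 89478486)) T3.l8
  TrL.n)))))))) (by decide +kernel)
theorem bx5_6 : BoxOK sI cl13 cl9 cl6 t3 t1 b5_6 :=
  box_mk (TrL.c (I.pos (nat_lit 0) (nat_lit 0)) (xa (xa (xb T3.l9 T3.l9) T3.l9) (xa T3.l9 T3.l9))
  (TrL.c (I.pos (nat_lit 0) (nat_lit 0)) (xa T1.l5 T1.l5)
  (TrL.c (I.pos (nat_lit 0) (nat_lit 134217730)) (xR T3.l4 T3.l6)
  (TrL.c (I.pos (nat_lit 0) (nat_lit 110514882)) (xR T1.l1 T1.l6)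
  (TrL.c (I.pos (nat_lit 0) (nat_lit 0)) (xa T1.l9 T1.l9)
  (TrL.c (I.pos (nat_lit 0) (nat_lit 0)) T3.l7
  (TrL.c (I.mix (nat_lit 8088324) (nat_lit 110514882)) T1.l8
  (TrL.c (I.mix (nat_lit 8088324) (nat_lit 89478486)) T3.l4
  TrL.n)))))))) (by decide +kernel)
theorem bx5_7 : BoxOK sI cl13 cl9 cl6 t3 t1 b5_7 :=
  box_mk (TrL.c (I.pos (nat_lit 0) (nat_lit 0)) (xb T3.l9 T3.l9)
  (TrL.c (I.pos (nat_lit 0) (nat_lit 0)) T1.l5
  (TrL.c (I.pos (nat_lit 0) (nat_lit 134217730)) (xR T3.l4 T3.l6)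
  (TrL.c (I.pos (nat_lit 0) (nat_lit 110514882)) (xR T1.l1 T1.l6)
  (TrL.c (I.pos (nat_lit 0) (nat_lit 0)) (xb T1.l9 T1.l9)
  (TrL.c (I.pos (nat_lit 0) (nat_lit 0)) T3.l7
  (TrL.c (I.mix (nat_lit 8088324) (nat_lit 110514882)) T1.l8
  (TrL.c (I.mix (nat_lit 8088324) (nat_lit 89478486)) T3.l8
  TrL.n)))))))) (by decide +kernel)
theorem bx5_8 : BoxOK sI cl13 cl9 cl6 t3 t1 b5_8 :=
  box_mk (TrL.c (I.pos (nat_lit 0) (nat_lit 0)) (xa T3.l10 T3.l10)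
  (TrL.c (I.pos (nat_lit 0) (nat_lit 0)) T1.l5
  (TrL.c (I.pos (nat_lit 0) (nat_lit 134217730)) (xR T3.l4 T3.l6)
  (TrL.c (I.pos (nat_lit 0) (nat_lit 110514882)) (xR T1.l3 T1.l6)
  (TrL.c (I.pos (nat_lit 0) (nat_lit 0)) T1.l10
  (TrL.c (I.pos (nat_lit 0) (nat_lit 0)) T3.l7
  (TrL.c (I.mix (nat_lit 8088324) (nat_lit 110514882)) (xR T1.l8 T1.l8)
  (TrL.c (I.mix (nat_lit 8088324) (nat_lit 89478486)) T3.l8
  TrL.n)))))))) (by decide +kernel)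
theorem bx5_9 : BoxOK sI cl13 cl9 cl6 t3 t1 b5_9 :=
  box_mk (TrL.c (I.pos (nat_lit 0) (nat_lit 0)) (xa (xb T3.l0 T3.l0) (xb T3.l0 T3.l0))
  (TrL.c (I.pos (nat_lit 0) (nat_lit 0)) T1.l5
  (TrL.c (I.pos (nat_lit 0) (nat_lit 134217730)) (xR T3.l4 T3.l4)
  (TrL.c (I.pos (nat_lit 0) (nat_lit 110514882)) (xR T1.l3 T1.l6)
  (TrL.c (I.pos (nat_lit 0) (nat_lit 0)) (xa (xk T1.l7 T1.l7) (xk (xb (xa T1.l7 T1.l7) (xa T1.l7 T1.l7)) (xb (xa T1.l7 T1.l7) (xa T1.l7 T1.l7))))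
  (TrL.c (I.pos (nat_lit 0) (nat_lit 0)) T3.l7
  (TrL.c (I.mix (nat_lit 8088324) (nat_lit 110514882)) (xR T1.l8 T1.l8)
  (TrL.c (I.mix (nat_lit 8088324) (nat_lit 89478486)) T3.l8
  TrL.n)))))))) (by decide +kernel)
theorem bx5_10 : BoxOK sI cl13 cl9 cl6 t3 t1 b5_10 :=
  box_mk (TrL.c (I.pos (nat_lit 0) (nat_lit 0)) (xa T3.l0 T3.l0)
  (TrL.c (I.pos (nat_lit 0) (nat_lit 0)) T1.l5
  (TrL.c (I.pos (nat_lit 0) (nat_lit 134217730)) (xR T3.l4 T3.l6)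
  (TrL.c (I.pos (nat_lit 0) (nat_lit 110514882)) (xR T1.l3 T1.l6)
  (TrL.c (I.pos (nat_lit 0) (nat_lit 0)) (xk T1.l7 T1.l7)
  (TrL.c (I.pos (nat_lit 0) (nat_lit 0)) T3.l7
  (TrL.c (I.mix (nat_lit 8088324) (nat_lit 110514882)) (xR T1.l8 T1.l8)
  (TrL.c (I.mix (nat_lit 8088324) (nat_lit 89478486)) T3.l8
  TrL.n)))))))) (by decide +kernel)
theorem bx5_11 : BoxOK sI cl13 cl9 cl6 t3 t1 b5_11 :=
  box_mk (TrL.c (I.pos (nat_lit 0) (nat_lit 0)) (xa T3.l9 T3.l9)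
  (TrL.c (I.pos (nat_lit 0) (nat_lit 0)) T1.l5
  (TrL.c (I.pos (nat_lit 0) (nat_lit 134217730)) (xR T3.l2 T3.l6)
  (TrL.c (I.pos (nat_lit 0) (nat_lit 110514882)) T1.l8
  (TrL.c (I.pos (nat_lit 0) (nat_lit 0)) T1.l9
  (TrL.c (I.pos (nat_lit 0) (nat_lit 0)) T3.l7
  (TrL.c (I.mix (nat_lit 8088324) (nat_lit 110514882)) T1.l8
  (TrL.c (I.mix (nat_lit 8088324) (nat_lit 89478486)) T3.l2
  TrL.n)))))))) (by decide +kernel)
theorem sv5 : StarV sI cl13 cl9 cl6 t3 t1 t5 :=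
  (bt_n (bt_n (bt_n (bt_b bx5_0) (bt_n (bt_b bx5_1) (bt_b bx5_2))) (bt_n (bt_b bx5_3) (bt_n (bt_b bx5_4) (bt_b bx5_5)))) (bt_n (bt_n (bt_b bx5_6) (bt_n (bt_b bx5_7) (bt_b bx5_8))) (bt_n (bt_b bx5_9) (bt_n (bt_b bx5_10) (bt_b bx5_11)))))
def S5 : StarD := StarD.mk cl13 cl9 cl6 3 1 t5
def G : List StarD := [S0, S1, S2, S3, S4, S5]
theorem so0 : StarOK sI G S0 :=
  star_mk (by decide) (by decide) rfl rfl rfl rfl rfl rfl (rfl : _ = t2) (rfl : _ = t4)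
  (st_mk (Pth.l (Pth.l (Pth.l Pth.z))) (nat_lit 116471616) (nat_lit 135102980) (by decide +kernel))
  (st_mk (Pth.l (Pth.l (Pth.l Pth.z))) (nat_lit 152342764) (nat_lit 171266025) (by decide +kernel))
  (st_mk (Pth.l (Pth.l (Pth.l Pth.z))) (nat_lit 194066892) (nat_lit 213385250) (by decide +kernel)) sv0
theorem so1 : StarOK sI G S1 :=
  star_mk (by decide) (by decide) rfl rfl rfl rfl rfl rfl (rfl : _ = t4) (rfl : _ = t2)
  (st_mk (Pth.l (Pth.l (Pth.l Pth.z))) (nat_lit 96863676) (nat_lit 115482862) (by decide +kernel))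
  (st_mk (Pth.l (Pth.l (Pth.l Pth.z))) (nat_lit 132655437) (nat_lit 151559392) (by decide +kernel))
  (st_mk (Pth.l (Pth.l (Pth.l Pth.z))) (nat_lit 174311676) (nat_lit 193604571) (by decide +kernel)) sv1
theorem so2 : StarOK sI G S2 :=
  star_mk (by decide) (by decide) rfl rfl rfl rfl rfl rfl (rfl : _ = t0) (rfl : _ = t5)
  (st_mk (Pth.l (Pth.l (Pth.l Pth.z))) (nat_lit 186598092) (nat_lit 187994667) (by decide +kernel))
  (st_mk (Pth.l (Pth.l (Pth.l Pth.z))) (nat_lit 221806036) (nat_lit 223559358) (by decide +kernel))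
  (st_mk (Pth.l (Pth.l (Pth.l Pth.z))) (nat_lit 262497968) (nat_lit 264742763) (by decide +kernel)) sv2
theorem so3 : StarOK sI G S3 :=
  star_mk (by decide) (by decide) rfl rfl rfl rfl rfl rfl (rfl : _ = t5) (rfl : _ = t0)
  (st_mk (Pth.l (Pth.l (Pth.l Pth.z))) (nat_lit 96103571) (nat_lit 114611486) (by decide +kernel))
  (st_mk (Pth.l (Pth.l (Pth.l Pth.z))) (nat_lit 131233220) (nat_lit 150047187) (by decide +kernel))
  (st_mk (Pth.l (Pth.l (Pth.l Pth.z))) (nat_lit 171857194) (nat_lit 191119075) (by decide +kernel)) sv3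
theorem so4 : StarOK sI G S4 :=
  star_mk (by decide) (by decide) rfl rfl rfl rfl rfl rfl (rfl : _ = t1) (rfl : _ = t3)
  (st_mk (Pth.l (Pth.l (Pth.l Pth.z))) (nat_lit 185843017) (nat_lit 187173937) (by decide +kernel))
  (st_mk (Pth.l (Pth.l (Pth.l Pth.z))) (nat_lit 220739626) (nat_lit 222396320) (by decide +kernel))
  (st_mk (Pth.l (Pth.l (Pth.l Pth.z))) (nat_lit 261004945) (nat_lit 263108085) (by decide +kernel)) sv4
theorem so5 : StarOK sI G S5 :=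
  star_mk (by decide) (by decide) rfl rfl rfl rfl rfl rfl (rfl : _ = t3) (rfl : _ = t1)
  (st_mk (Pth.l (Pth.l (Pth.l Pth.z))) (nat_lit 115089857) (nat_lit 133500318) (by decide +kernel))
  (st_mk (Pth.l (Pth.l (Pth.l Pth.z))) (nat_lit 149986467) (nat_lit 168679080) (by decide +kernel))
  (st_mk (Pth.l (Pth.l (Pth.l Pth.z))) (nat_lit 190251785) (nat_lit 209352953) (by decide +kernel)) sv5
theorem ok : GroupOK (nat_lit 150274048) (nat_lit 209387520) G := grp_mk (allS_c so0 (allS_c so1 (allS_c so2 (allS_c so3 (allS_c so4 (allS_c so5 allS_n))))))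
theorem cov : GCov G cl6 cl9 cl13 := cov_mk
  ⟨0, by decide, rfl, rfl, rfl⟩ ⟨1, by decide, rfl, rfl, rfl⟩ ⟨2, by decide, rfl, rfl, rfl⟩ ⟨3, by decide, rfl, rfl, rfl⟩ ⟨4, by decide, rfl, rfl, rfl⟩ ⟨5, by decide, rfl, rfl, rfl⟩
end Q356_2


end Pool.Agent.Helper6.MONO
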