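import Pool.Agent.Helper6.MONO.Cert.C34

/-!
Certificate data (generated).
-/

set_option autoImplicit false
set_option linter.all false
noncomputable section
namespace Pool.Agent.Helper6.MONO


namespace Q356_3
def sI : I := I.pos (nat_lit 209321984) (nat_lit 268435456)
def b0_0 : Bx := Bx.mk (St.mk (I.pos (nat_lit 156385280) (nat_lit 235339776)) (I.mix (nat_lit 2883584) (nat_lit 51625984)) (I.mix (nat_lit 4161536) (nat_lit 76234752)) (I.pos (nat_lit 109445120) (nat_lit 244662272)) (I.mix (nat_lit 104038400) (nat_lit 56164352)) (I.mix (nat_lit 62947328) (nat_lit 53460992)) (I.mix (nat_lit 85573632) (nat_lit 74383360)))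
  false (nat_lit 47495050)
def b0_1 : Bx := Bx.mk (St.mk (I.mix (nat_lit 17973248) (nat_lit 137166848)) (I.mix (nat_lit 8421376) (nat_lit 25018368)) (I.mix (nat_lit 17809408) (nat_lit 14712832)) (I.pos (nat_lit 13123584) (nat_lit 103006208)) (I.mix (nat_lit 28966912) (nat_lit 26132480)) (I.mix (nat_lit 20840448) (nat_lit 17711104)) (I.mix (nat_lit 16384000) (nat_lit 12566528)))
  false (nat_lit 0)
def b0_2 : Bx := Bx.mk (St.mk (I.pos (nat_lit 105054208) (nat_lit 146948096)) (I.mix (nat_lit 46071808) (nat_lit 8159232)) (I.mix (nat_lit 52248576) (nat_lit 786432)) (I.pos (nat_lit 61194240) (nat_lit 112574464)) (I.mix (nat_lit 83951616) (nat_lit 27131904)) (I.mix (nat_lit 27394048) (nat_lit 64487424)) (I.mix (nat_lit 20480000) (nat_lit 54001664)))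
  false (nat_lit 0)
def b0_3 : Bx := Bx.mk (St.mk (I.mix (nat_lit 26624000) (nat_lit 92078080)) (I.mix (nat_lit 24412160) (nat_lit 4374528)) (I.mix (nat_lit 19824640) (nat_lit 770048)) (I.pos (nat_lit 15335424) (nat_lit 66060288)) (I.mix (nat_lit 34045952) (nat_lit 11730944)) (I.mix (nat_lit 12681216) (nat_lit 23347200)) (I.mix (nat_lit 6488064) (nat_lit 12206080)))
  false (nat_lit 0)
def b0_4 : Bx := Bx.mk (St.mk (I.pos (nat_lit 198721536) (nat_lit 282181632)) (I.mix (nat_lit 23232512) (nat_lit 34308096)) (I.mix (nat_lit 78446592) (nat_lit 42237952)) (I.pos (nat_lit 194035712) (nat_lit 342900736)) (I.mix (nat_lit 72810496) (nat_lit 42418176)) (I.mix (nat_lit 43417600) (nat_lit 32210944)) (I.mix (nat_lit 71663616) (nat_lit 62603264)))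
  false (nat_lit 13565156)
def b0_5 : Bx := Bx.mk (St.mk (I.pos (nat_lit 101695488) (nat_lit 179208192)) (I.neg (nat_lit 4194304) (nat_lit 49201152)) (I.neg (nat_lit 8028160) (nat_lit 54607872)) (I.pos (nat_lit 74432512) (nat_lit 156631040)) (I.mix (nat_lit 79495168) (nat_lit 42156032)) (I.mix (nat_lit 39518208) (nat_lit 55476224)) (I.mix (nat_lit 32948224) (nat_lit 56213504)))
  false (nat_lit 15172822)
def b0_6 : Bx := Bx.mk (St.mk (I.pos (nat_lit 9715712) (nat_lit 102416384)) (I.mix (nat_lit 25640960) (nat_lit 2801664)) (I.neg (nat_lit 196608) (nat_lit 20332544)) (I.pos (nat_lit 18792448) (nat_lit 75350016)) (I.mix (nat_lit 33751040) (nat_lit 23855104)) (I.mix (nat_lit 18415616) (nat_lit 25772032)) (I.mix (nat_lit 10502144) (nat_lit 16072704)))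
  false (nat_lit 0)
def b0_7 : Bx := Bx.mk (St.mk (I.pos (nat_lit 170344448) (nat_lit 217677824)) (I.mix (nat_lit 9994240) (nat_lit 52740096)) (I.mix (nat_lit 2736128) (nat_lit 77873152)) (I.pos (nat_lit 137412608) (nat_lit 217317376)) (I.mix (nat_lit 128303104) (nat_lit 52068352)) (I.mix (nat_lit 106348544) (nat_lit 57917440)) (I.mix (nat_lit 115343360) (nat_lit 61292544)))
  false (nat_lit 9248264)
def b0_8 : Bx := Bx.mk (St.mk (I.mix (nat_lit 27000832) (nat_lit 127025152)) (I.mix (nat_lit 11829248) (nat_lit 30015488)) (I.mix (nat_lit 13008896) (nat_lit 19185664)) (I.pos (nat_lit 13484032) (nat_lit 93863936)) (I.mix (nat_lit 46104576) (nat_lit 24920064)) (I.mix (nat_lit 37814272) (nat_lit 23330816)) (I.mix (nat_lit 23707648) (nat_lit 14286848)))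
  false (nat_lit 0)
def b0_9 : Bx := Bx.mk (St.mk (I.pos (nat_lit 188776448) (nat_lit 236486656)) (I.pos (nat_lit 12238848) (nat_lit 50413568)) (I.pos (nat_lit 11223040) (nat_lit 74530816)) (I.pos (nat_lit 184320000) (nat_lit 242827264)) (I.mix (nat_lit 85704704) (nat_lit 60473344)) (I.mix (nat_lit 63733760) (nat_lit 47104000)) (I.mix (nat_lit 99188736) (nat_lit 57294848)))
  false (nat_lit 32189362)
def b0_10 : Bx := Bx.mk (St.mk (I.pos (nat_lit 149372928) (nat_lit 213958656)) (I.mix (nat_lit 35749888) (nat_lit 15613952)) (I.mix (nat_lit 43548672) (nat_lit 24526848)) (I.pos (nat_lit 110690304) (nat_lit 202653696)) (I.mix (nat_lit 56508416) (nat_lit 51216384)) (I.mix (nat_lit 51806208) (nat_lit 46776320)) (I.mix (nat_lit 54837248) (nat_lit 49692672)))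
  false (nat_lit 43090185)
def b0_11 : Bx := Bx.mk (St.mk (I.pos (nat_lit 170606592) (nat_lit 214515712)) (I.mix (nat_lit 13778944) (nat_lit 28786688)) (I.mix (nat_lit 10223616) (nat_lit 44335104)) (I.pos (nat_lit 138231808) (nat_lit 205553664)) (I.mix (nat_lit 103596032) (nat_lit 62341120)) (I.mix (nat_lit 104595456) (nat_lit 49496064)) (I.mix (nat_lit 115687424) (nat_lit 51134464)))
  false (nat_lit 19034199)
def t0 : BTr := (BTr.n (BTr.n (BTr.n (BTr.b b0_0) (BTr.n (BTr.b b0_1) (BTr.b b0_2))) (BTr.n (BTr.b b0_3) (BTr.n (BTr.b b0_4) (BTr.b b0_5)))) (BTr.n (BTr.n (BTr.b b0_6) (BTr.n (BTr.b b0_7) (BTr.b b0_8))) (BTr.n (BTr.b b0_9) (BTr.n (BTr.b b0_10) (BTr.b b0_11)))))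
namespace T0
def l0 : Tr := Tr.L (Pth.l (Pth.l (Pth.l Pth.z)))
def l1 : Tr := Tr.L (Pth.l (Pth.l (Pth.r (Pth.l Pth.z))))
def l2 : Tr := Tr.L (Pth.l (Pth.l (Pth.r (Pth.r Pth.z))))
def l3 : Tr := Tr.L (Pth.l (Pth.r (Pth.l Pth.z)))
def l4 : Tr := Tr.L (Pth.l (Pth.r (Pth.r (Pth.l Pth.z))))
def l5 : Tr := Tr.L (Pth.l (Pth.r (Pth.r (Pth.r Pth.z))))
def l6 : Tr := Tr.L (Pth.r (Pth.l (Pth.l Pth.z)))
def l7 : Tr := Tr.L (Pth.r (Pth.l (Pth.r (Pth.l Pth.z))))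
def l8 : Tr := Tr.L (Pth.r (Pth.l (Pth.r (Pth.r Pth.z))))
def l9 : Tr := Tr.L (Pth.r (Pth.r (Pth.l Pth.z)))
def l10 : Tr := Tr.L (Pth.r (Pth.r (Pth.r (Pth.l Pth.z))))
def l11 : Tr := Tr.L (Pth.r (Pth.r (Pth.r (Pth.r Pth.z))))
end T0
def b1_0 : Bx := Bx.mk (St.mk (I.pos (nat_lit 156286976) (nat_lit 236863488)) (I.mix (nat_lit 2654208) (nat_lit 46743552)) (I.mix (nat_lit 4210688) (nat_lit 76939264)) (I.pos (nat_lit 89800704) (nat_lit 224706560)) (I.mix (nat_lit 99074048) (nat_lit 54951936)) (I.mix (nat_lit 62799872) (nat_lit 54165504)) (I.mix (nat_lit 85475328) (nat_lit 72417280)))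
  false (nat_lit 46401018)
def b1_1 : Bx := Bx.mk (St.mk (I.mix (nat_lit 12648448) (nat_lit 146063360)) (I.mix (nat_lit 6979584) (nat_lit 21217280)) (I.mix (nat_lit 12746752) (nat_lit 16236544)) (I.mix (nat_lit 5832704) (nat_lit 93208576)) (I.mix (nat_lit 29081600) (nat_lit 24477696)) (I.mix (nat_lit 19283968) (nat_lit 17055744)) (I.mix (nat_lit 16334848) (nat_lit 13697024)))
  false (nat_lit 0)
def b1_2 : Bx := Bx.mk (St.mk (I.pos (nat_lit 115245056) (nat_lit 154599424)) (I.mix (nat_lit 42729472) (nat_lit 7684096)) (I.mix (nat_lit 48136192) (nat_lit 3457024)) (I.pos (nat_lit 51953664) (nat_lit 103415808)) (I.mix (nat_lit 82083840) (nat_lit 28426240)) (I.mix (nat_lit 25804800) (nat_lit 64438272)) (I.mix (nat_lit 22396928) (nat_lit 57982976)))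
  false (nat_lit 10327036)
def b1_3 : Bx := Bx.mk (St.mk (I.mix (nat_lit 16269312) (nat_lit 108003328)) (I.mix (nat_lit 21774336) (nat_lit 2752512)) (I.mix (nat_lit 18333696) (nat_lit 1572864)) (I.mix (nat_lit 3850240) (nat_lit 58163200)) (I.mix (nat_lit 33456128) (nat_lit 11386880)) (I.mix (nat_lit 11894784) (nat_lit 23298048)) (I.mix (nat_lit 6406144) (nat_lit 14401536)))
  false (nat_lit 0)
def b1_4 : Bx := Bx.mk (St.mk (I.pos (nat_lit 198246400) (nat_lit 282247168)) (I.mix (nat_lit 21692416) (nat_lit 31703040)) (I.mix (nat_lit 63946752) (nat_lit 48627712)) (I.pos (nat_lit 175046656) (nat_lit 324009984)) (I.mix (nat_lit 74137600) (nat_lit 36913152)) (I.mix (nat_lit 44548096) (nat_lit 30916608)) (I.mix (nat_lit 71843840) (nat_lit 57950208)))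
  false (nat_lit 35354532)
def b1_5 : Bx := Bx.mk (St.mk (I.pos (nat_lit 112017408) (nat_lit 185745408)) (I.neg (nat_lit 1556480) (nat_lit 47497216)) (I.neg (nat_lit 5685248) (nat_lit 51396608)) (I.pos (nat_lit 65568768) (nat_lit 146079744)) (I.mix (nat_lit 75825152) (nat_lit 46874624)) (I.mix (nat_lit 38715392) (nat_lit 57606144)) (I.mix (nat_lit 33898496) (nat_lit 59539456)))
  false (nat_lit 48147841)
def b1_6 : Bx := Bx.mk (St.mk (I.pos (nat_lit 39976960) (nat_lit 116178944)) (I.mix (nat_lit 23330816) (nat_lit 2998272)) (I.mix (nat_lit 18612224) (nat_lit 475136)) (I.pos (nat_lit 9191424) (nat_lit 67485696)) (I.mix (nat_lit 32145408) (nat_lit 22347776)) (I.mix (nat_lit 17154048) (nat_lit 24133632)) (I.mix (nat_lit 11124736) (nat_lit 17088512)))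
  false (nat_lit 0)
def b1_7 : Bx := Bx.mk (St.mk (I.pos (nat_lit 173293568) (nat_lit 217432064)) (I.mix (nat_lit 11173888) (nat_lit 46841856)) (I.mix (nat_lit 1179648) (nat_lit 75612160)) (I.pos (nat_lit 121683968) (nat_lit 196182016)) (I.mix (nat_lit 125698048) (nat_lit 51527680)) (I.mix (nat_lit 106020864) (nat_lit 56360960)) (I.mix (nat_lit 120848384) (nat_lit 60506112)))
  false (nat_lit 0)
def b1_8 : Bx := Bx.mk (St.mk (I.mix (nat_lit 17498112) (nat_lit 137527296)) (I.mix (nat_lit 12369920) (nat_lit 27918336)) (I.mix (nat_lit 11927552) (nat_lit 21839872)) (I.mix (nat_lit 5324800) (nat_lit 84312064)) (I.mix (nat_lit 47366144) (nat_lit 24018944)) (I.mix (nat_lit 38535168) (nat_lit 22495232)) (I.mix (nat_lit 27918336) (nat_lit 15515648)))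
  false (nat_lit 0)
def b1_9 : Bx := Bx.mk (St.mk (I.pos (nat_lit 152977408) (nat_lit 216154112)) (I.mix (nat_lit 35045376) (nat_lit 12599296)) (I.mix (nat_lit 39813120) (nat_lit 24641536)) (I.pos (nat_lit 97484800) (nat_lit 186236928)) (I.mix (nat_lit 60735488) (nat_lit 51249152)) (I.mix (nat_lit 52297728) (nat_lit 45252608)) (I.mix (nat_lit 57442304) (nat_lit 48988160)))
  false (nat_lit 71145038)
def b1_10 : Bx := Bx.mk (St.mk (I.pos (nat_lit 173441024) (nat_lit 216137728)) (I.mix (nat_lit 15400960) (nat_lit 25640960)) (I.mix (nat_lit 8601600) (nat_lit 44711936)) (I.pos (nat_lit 121126912) (nat_lit 187252736)) (I.mix (nat_lit 105480192) (nat_lit 63062016)) (I.mix (nat_lit 105218048) (nat_lit 49823744)) (I.mix (nat_lit 120209408) (nat_lit 54034432)))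
  false (nat_lit 13930970)
def b1_11 : Bx := Bx.mk (St.mk (I.pos (nat_lit 190824448) (nat_lit 238190592)) (I.pos (nat_lit 9043968) (nat_lit 46137344)) (I.pos (nat_lit 13139968) (nat_lit 75677696)) (I.pos (nat_lit 166789120) (nat_lit 223117312)) (I.mix (nat_lit 87900160) (nat_lit 59342848)) (I.mix (nat_lit 67256320) (nat_lit 47202304)) (I.mix (nat_lit 108363776) (nat_lit 57245696)))
  false (nat_lit 45235015)
def t1 : BTr := (BTr.n (BTr.n (BTr.n (BTr.b b1_0) (BTr.n (BTr.b b1_1) (BTr.b b1_2))) (BTr.n (BTr.b b1_3) (BTr.n (BTr.b b1_4) (BTr.b b1_5)))) (BTr.n (BTr.n (BTr.b b1_6) (BTr.n (BTr.b b1_7) (BTr.b b1_8))) (BTr.n (BTr.b b1_9) (BTr.n (BTr.b b1_10) (BTr.b b1_11)))))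
namespace T1
def l0 : Tr := Tr.L (Pth.l (Pth.l (Pth.l Pth.z)))
def l1 : Tr := Tr.L (Pth.l (Pth.l (Pth.r (Pth.l Pth.z))))
def l2 : Tr := Tr.L (Pth.l (Pth.l (Pth.r (Pth.r Pth.z))))
def l3 : Tr := Tr.L (Pth.l (Pth.r (Pth.l Pth.z)))
def l4 : Tr := Tr.L (Pth.l (Pth.r (Pth.r (Pth.l Pth.z))))
def l5 : Tr := Tr.L (Pth.l (Pth.r (Pth.r (Pth.r Pth.z))))
def l6 : Tr := Tr.L (Pth.r (Pth.l (Pth.l Pth.z)))
def l7 : Tr := Tr.L (Pth.r (Pth.l (Pth.r (Pth.l Pth.z))))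
def l8 : Tr := Tr.L (Pth.r (Pth.l (Pth.r (Pth.r Pth.z))))
def l9 : Tr := Tr.L (Pth.r (Pth.r (Pth.l Pth.z)))
def l10 : Tr := Tr.L (Pth.r (Pth.r (Pth.r (Pth.l Pth.z))))
def l11 : Tr := Tr.L (Pth.r (Pth.r (Pth.r (Pth.r Pth.z))))
end T1
def b2_0 : Bx := Bx.mk (St.mk (I.pos (nat_lit 156188672) (nat_lit 230670336)) (I.mix (nat_lit 3325952) (nat_lit 59031552)) (I.mix (nat_lit 4882432) (nat_lit 87097344)) (I.pos (nat_lit 180355072) (nat_lit 291028992)) (I.mix (nat_lit 106512384) (nat_lit 66699264)) (I.mix (nat_lit 60768256) (nat_lit 57835520)) (I.mix (nat_lit 86605824) (nat_lit 76824576)))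
  false (nat_lit 108279025)
def b2_1 : Bx := Bx.mk (St.mk (I.mix (nat_lit 31096832) (nat_lit 101695488)) (I.mix (nat_lit 7405568) (nat_lit 33783808)) (I.mix (nat_lit 17530880) (nat_lit 13041664)) (I.pos (nat_lit 84639744) (nat_lit 124993536)) (I.mix (nat_lit 32571392) (nat_lit 39370752)) (I.mix (nat_lit 31834112) (nat_lit 20938752)) (I.mix (nat_lit 20316160) (nat_lit 11468800)))
  false (nat_lit 0)
def b2_2 : Bx := Bx.mk (St.mk (I.pos (nat_lit 77381632) (nat_lit 122798080)) (I.mix (nat_lit 56557568) (nat_lit 9093120)) (I.neg (nat_lit 2621440) (nat_lit 53198848)) (I.pos (nat_lit 111116288) (nat_lit 146194432)) (I.mix (nat_lit 82067456) (nat_lit 28917760)) (I.mix (nat_lit 27869184) (nat_lit 64208896)) (I.mix (nat_lit 19988480) (nat_lit 43450368)))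
  false (nat_lit 0)
def b2_3 : Bx := Bx.mk (St.mk (I.mix (nat_lit 50233344) (nat_lit 28033024)) (I.mix (nat_lit 30687232) (nat_lit 5505024)) (I.mix (nat_lit 12206080) (nat_lit 2654208)) (I.pos (nat_lit 84885504) (nat_lit 98697216)) (I.mix (nat_lit 34144256) (nat_lit 21643264)) (I.mix (nat_lit 15532032) (nat_lit 26492928)) (I.mix (nat_lit 9781248) (nat_lit 5013504)))
  false (nat_lit 0)
def b2_4 : Bx := Bx.mk (St.mk (I.pos (nat_lit 91766784) (nat_lit 162922496)) (I.neg (nat_lit 7159808) (nat_lit 55574528)) (I.neg (nat_lit 4161536) (nat_lit 52510720)) (I.pos (nat_lit 125878272) (nat_lit 188514304)) (I.mix (nat_lit 78331904) (nat_lit 47251456)) (I.mix (nat_lit 34324480) (nat_lit 57688064)) (I.mix (nat_lit 24788992) (nat_lit 49135616)))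
  false (nat_lit 0)
def b2_5 : Bx := Bx.mk (St.mk (I.mix (nat_lit 24543232) (nat_lit 48447488)) (I.mix (nat_lit 31096832) (nat_lit 3391488)) (I.mix (nat_lit 13565952) (nat_lit 1884160)) (I.pos (nat_lit 83656704) (nat_lit 98893824)) (I.mix (nat_lit 27820032) (nat_lit 29196288)) (I.mix (nat_lit 16793600) (nat_lit 26443776)) (I.mix (nat_lit 6635520) (nat_lit 9846784)))
  false (nat_lit 0)
def b2_6 : Bx := Bx.mk (St.mk (I.pos (nat_lit 159268864) (nat_lit 207618048)) (I.mix (nat_lit 2654208) (nat_lit 56360960)) (I.pos (nat_lit 9453568) (nat_lit 82755584)) (I.pos (nat_lit 191414272) (nat_lit 254656512)) (I.mix (nat_lit 112820224) (nat_lit 37879808)) (I.mix (nat_lit 94519296) (nat_lit 46678016)) (I.mix (nat_lit 88064000) (nat_lit 41893888)))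
  false (nat_lit 72605639)
def b2_7 : Bx := Bx.mk (St.mk (I.mix (nat_lit 51298304) (nat_lit 75333632)) (I.mix (nat_lit 8568832) (nat_lit 31883264)) (I.mix (nat_lit 13582336) (nat_lit 12107776)) (I.pos (nat_lit 83656704) (nat_lit 111214592)) (I.mix (nat_lit 37453824) (nat_lit 27213824)) (I.mix (nat_lit 31866880) (nat_lit 16793600)) (I.mix (nat_lit 11747328) (nat_lit 9846784)))
  false (nat_lit 0)
def b2_8 : Bx := Bx.mk (St.mk (I.pos (nat_lit 200409088) (nat_lit 287047680)) (I.mix (nat_lit 19939328) (nat_lit 42598400)) (I.mix (nat_lit 73678848) (nat_lit 55001088)) (I.pos (nat_lit 251396096) (nat_lit 394903552)) (I.mix (nat_lit 71892992) (nat_lit 56410112)) (I.mix (nat_lit 51691520) (nat_lit 33832960)) (I.mix (nat_lit 90128384) (nat_lit 54378496)))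
  false (nat_lit 111384199)
def b2_9 : Bx := Bx.mk (St.mk (I.pos (nat_lit 140165120) (nat_lit 201359360)) (I.mix (nat_lit 32751616) (nat_lit 19873792)) (I.mix (nat_lit 29999104) (nat_lit 36700160)) (I.pos (nat_lit 166100992) (nat_lit 236666880)) (I.mix (nat_lit 60096512) (nat_lit 54263808)) (I.mix (nat_lit 50872320) (nat_lit 50839552)) (I.mix (nat_lit 46596096) (nat_lit 47988736)))
  false (nat_lit 0)
def b2_10 : Bx := Bx.mk (St.mk (I.pos (nat_lit 158990336) (nat_lit 199131136)) (I.mix (nat_lit 6733824) (nat_lit 34504704)) (I.pos (nat_lit 2981888) (nat_lit 57180160)) (I.pos (nat_lit 192757760) (nat_lit 238845952)) (I.mix (nat_lit 110313472) (nat_lit 61095936)) (I.mix (nat_lit 106561536) (nat_lit 52019200)) (I.mix (nat_lit 102973440) (nat_lit 46497792)))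
  false (nat_lit 25725627)
def b2_11 : Bx := Bx.mk (St.mk (I.pos (nat_lit 175702016) (nat_lit 226492416)) (I.pos (nat_lit 21381120) (nat_lit 59621376)) (I.pos (nat_lit 27164672) (nat_lit 84803584)) (I.pos (nat_lit 231424000) (nat_lit 283836416)) (I.mix (nat_lit 101875712) (nat_lit 78381056)) (I.mix (nat_lit 77856768) (nat_lit 57376768)) (I.mix (nat_lit 114606080) (nat_lit 72941568)))
  false (nat_lit 81582382)
def t2 : BTr := (BTr.n (BTr.n (BTr.n (BTr.b b2_0) (BTr.n (BTr.b b2_1) (BTr.b b2_2))) (BTr.n (BTr.b b2_3) (BTr.n (BTr.b b2_4) (BTr.b b2_5)))) (BTr.n (BTr.n (BTr.b b2_6) (BTr.n (BTr.b b2_7) (BTr.b b2_8))) (BTr.n (BTr.b b2_9) (BTr.n (BTr.b b2_10) (BTr.b b2_11)))))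
namespace T2
def l0 : Tr := Tr.L (Pth.l (Pth.l (Pth.l Pth.z)))
def l1 : Tr := Tr.L (Pth.l (Pth.l (Pth.r (Pth.l Pth.z))))
def l2 : Tr := Tr.L (Pth.l (Pth.l (Pth.r (Pth.r Pth.z))))
def l3 : Tr := Tr.L (Pth.l (Pth.r (Pth.l Pth.z)))
def l4 : Tr := Tr.L (Pth.l (Pth.r (Pth.r (Pth.l Pth.z))))
def l5 : Tr := Tr.L (Pth.l (Pth.r (Pth.r (Pth.r Pth.z))))
def l6 : Tr := Tr.L (Pth.r (Pth.l (Pth.l Pth.z)))
def l7 : Tr := Tr.L (Pth.r (Pth.l (Pth.r (Pth.l Pth.z))))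
def l8 : Tr := Tr.L (Pth.r (Pth.l (Pth.r (Pth.r Pth.z))))
def l9 : Tr := Tr.L (Pth.r (Pth.r (Pth.l Pth.z)))
def l10 : Tr := Tr.L (Pth.r (Pth.r (Pth.r (Pth.l Pth.z))))
def l11 : Tr := Tr.L (Pth.r (Pth.r (Pth.r (Pth.r Pth.z))))
end T2
def b3_0 : Bx := Bx.mk (St.mk (I.pos (nat_lit 156368896) (nat_lit 236716032)) (I.mix (nat_lit 2473984) (nat_lit 45137920)) (I.mix (nat_lit 4947968) (nat_lit 92962816)) (I.pos (nat_lit 89554944) (nat_lit 213123072)) (I.mix (nat_lit 108724224) (nat_lit 69386240)) (I.mix (nat_lit 73875456) (nat_lit 72925184)) (I.mix (nat_lit 103710720) (nat_lit 95682560)))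
  false (nat_lit 43668675)
def b3_1 : Bx := Bx.mk (St.mk (I.pos (nat_lit 118226944) (nat_lit 187056128)) (I.neg (nat_lit 5505024) (nat_lit 49594368)) (I.mix (nat_lit 44138496) (nat_lit 6668288)) (I.pos (nat_lit 71729152) (nat_lit 146079744)) (I.mix (nat_lit 73957376) (nat_lit 41795584)) (I.mix (nat_lit 36225024) (nat_lit 49004544)) (I.mix (nat_lit 30834688) (nat_lit 49381376)))
  false (nat_lit 33622821)
def b3_2 : Bx := Bx.mk (St.mk (I.mix (nat_lit 11272192) (nat_lit 122912768)) (I.mix (nat_lit 23150592) (nat_lit 2588672)) (I.mix (nat_lit 13762560) (nat_lit 6864896)) (I.mix (nat_lit 4538368) (nat_lit 70238208)) (I.mix (nat_lit 26066944) (nat_lit 18857984)) (I.mix (nat_lit 13271040) (nat_lit 17809408)) (I.mix (nat_lit 8732672) (nat_lit 12550144)))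
  false (nat_lit 0)
def b3_3 : Bx := Bx.mk (St.mk (I.pos (nat_lit 170393600) (nat_lit 213204992)) (I.mix (nat_lit 11583488) (nat_lit 43745280)) (I.pos (nat_lit 10059776) (nat_lit 86343680)) (I.pos (nat_lit 114720768) (nat_lit 184205312)) (I.mix (nat_lit 128679936) (nat_lit 50315264)) (I.mix (nat_lit 109330432) (nat_lit 52445184)) (I.mix (nat_lit 130498560) (nat_lit 44449792)))
  false (nat_lit 48717958)
def b3_4 : Bx := Bx.mk (St.mk (I.mix (nat_lit 17858560) (nat_lit 135282688)) (I.mix (nat_lit 12271616) (nat_lit 27541504)) (I.mix (nat_lit 5341184) (nat_lit 28999680)) (I.mix (nat_lit 5144576) (nat_lit 81100800)) (I.mix (nat_lit 52412416) (nat_lit 21168128)) (I.mix (nat_lit 39010304) (nat_lit 20299776)) (I.mix (nat_lit 28884992) (nat_lit 12288000)))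
  false (nat_lit 0)
def b3_5 : Bx := Bx.mk (St.mk (I.pos (nat_lit 158957568) (nat_lit 212729856)) (I.mix (nat_lit 36175872) (nat_lit 8765440)) (I.mix (nat_lit 27246592) (nat_lit 36700160)) (I.pos (nat_lit 101220352) (nat_lit 176979968)) (I.mix (nat_lit 53133312) (nat_lit 53215232)) (I.mix (nat_lit 46415872) (nat_lit 47087616)) (I.mix (nat_lit 48087040) (nat_lit 49938432)))
  false (nat_lit 52212361)
def b3_6 : Bx := Bx.mk (St.mk (I.pos (nat_lit 67600384) (nat_lit 141115392)) (I.mix (nat_lit 5226496) (nat_lit 20791296)) (I.mix (nat_lit 2506752) (nat_lit 23789568)) (I.pos (nat_lit 21118976) (nat_lit 90849280)) (I.mix (nat_lit 37617664) (nat_lit 29114368)) (I.mix (nat_lit 29917184) (nat_lit 22380544)) (I.mix (nat_lit 25739264) (nat_lit 17793024)))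
  false (nat_lit 0)
def b3_7 : Bx := Bx.mk (St.mk (I.pos (nat_lit 115949568) (nat_lit 159399936)) (I.mix (nat_lit 46317568) (nat_lit 6619136)) (I.mix (nat_lit 41140224) (nat_lit 11436032)) (I.pos (nat_lit 52936704) (nat_lit 108986368)) (I.mix (nat_lit 83148800) (nat_lit 40681472)) (I.mix (nat_lit 32276480) (nat_lit 67485696)) (I.mix (nat_lit 27656192) (nat_lit 57589760)))
  false (nat_lit 2703270)
def b3_8 : Bx := Bx.mk (St.mk (I.pos (nat_lit 63258624) (nat_lit 106020864)) (I.mix (nat_lit 22593536) (nat_lit 3260416)) (I.mix (nat_lit 13287424) (nat_lit 4866048)) (I.pos (nat_lit 13402112) (nat_lit 59326464)) (I.mix (nat_lit 31162368) (nat_lit 15630336)) (I.mix (nat_lit 13434880) (nat_lit 24723456)) (I.mix (nat_lit 7962624) (nat_lit 14827520)))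
  false (nat_lit 0)
def b3_9 : Bx := Bx.mk (St.mk (I.pos (nat_lit 203112448) (nat_lit 284983296)) (I.mix (nat_lit 16039936) (nat_lit 33062912)) (I.mix (nat_lit 20692992) (nat_lit 75481088)) (I.pos (nat_lit 169164800) (nat_lit 319242240)) (I.mix (nat_lit 70762496) (nat_lit 53084160)) (I.mix (nat_lit 48005120) (nat_lit 35160064)) (I.mix (nat_lit 78692352) (nat_lit 55771136)))
  false (nat_lit 46543541)
def b3_10 : Bx := Bx.mk (St.mk (I.pos (nat_lit 185466880) (nat_lit 233537536)) (I.pos (nat_lit 9781248) (nat_lit 43040768)) (I.pos (nat_lit 31129600) (nat_lit 89456640)) (I.pos (nat_lit 153157632) (nat_lit 208289792)) (I.mix (nat_lit 91340800) (nat_lit 76120064)) (I.mix (nat_lit 78397440) (nat_lit 59408384)) (I.mix (nat_lit 116752384) (nat_lit 77332480)))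
  false (nat_lit 54866303)
def b3_11 : Bx := Bx.mk (St.mk (I.pos (nat_lit 172310528) (nat_lit 211075072)) (I.mix (nat_lit 15532032) (nat_lit 21381120)) (I.pos (nat_lit 4718592) (nat_lit 54231040)) (I.pos (nat_lit 114212864) (nat_lit 176865280)) (I.mix (nat_lit 91209728) (nat_lit 57491456)) (I.mix (nat_lit 87801856) (nat_lit 42303488)) (I.mix (nat_lit 102563840) (nat_lit 42680320)))
  false (nat_lit 36156476)
def t3 : BTr := (BTr.n (BTr.n (BTr.n (BTr.b b3_0) (BTr.n (BTr.b b3_1) (BTr.b b3_2))) (BTr.n (BTr.b b3_3) (BTr.n (BTr.b b3_4) (BTr.b b3_5)))) (BTr.n (BTr.n (BTr.b b3_6) (BTr.n (BTr.b b3_7) (BTr.b b3_8))) (BTr.n (BTr.b b3_9) (BTr.n (BTr.b b3_10) (BTr.b b3_11)))))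
namespace T3
def l0 : Tr := Tr.L (Pth.l (Pth.l (Pth.l Pth.z)))
def l1 : Tr := Tr.L (Pth.l (Pth.l (Pth.r (Pth.l Pth.z))))
def l2 : Tr := Tr.L (Pth.l (Pth.l (Pth.r (Pth.r Pth.z))))
def l3 : Tr := Tr.L (Pth.l (Pth.r (Pth.l Pth.z)))
def l4 : Tr := Tr.L (Pth.l (Pth.r (Pth.r (Pth.l Pth.z))))
def l5 : Tr := Tr.L (Pth.l (Pth.r (Pth.r (Pth.r Pth.z))))
def l6 : Tr := Tr.L (Pth.r (Pth.l (Pth.l Pth.z)))
def l7 : Tr := Tr.L (Pth.r (Pth.l (Pth.r (Pth.l Pth.z))))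
def l8 : Tr := Tr.L (Pth.r (Pth.l (Pth.r (Pth.r Pth.z))))
def l9 : Tr := Tr.L (Pth.r (Pth.r (Pth.l Pth.z)))
def l10 : Tr := Tr.L (Pth.r (Pth.r (Pth.r (Pth.l Pth.z))))
def l11 : Tr := Tr.L (Pth.r (Pth.r (Pth.r (Pth.r Pth.z))))
end T3
def b4_0 : Bx := Bx.mk (St.mk (I.pos (nat_lit 153387008) (nat_lit 229818368)) (I.mix (nat_lit 3244032) (nat_lit 57491456)) (I.mix (nat_lit 5210112) (nat_lit 92618752)) (I.pos (nat_lit 179748864) (nat_lit 285720576)) (I.mix (nat_lit 108052480) (nat_lit 65159168)) (I.mix (nat_lit 64045056) (nat_lit 59752448)) (I.mix (nat_lit 88326144) (nat_lit 76136448)))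
  false (nat_lit 125979422)
def b4_1 : Bx := Bx.mk (St.mk (I.pos (nat_lit 86327296) (nat_lit 166051840)) (I.neg (nat_lit 7782400) (nat_lit 57049088)) (I.mix (nat_lit 48627712) (nat_lit 2457600)) (I.pos (nat_lit 124895232) (nat_lit 191463424)) (I.mix (nat_lit 77447168) (nat_lit 49053696)) (I.mix (nat_lit 35160064) (nat_lit 56459264)) (I.mix (nat_lit 26279936) (nat_lit 47333376)))
  false (nat_lit 0)
def b4_2 : Bx := Bx.mk (St.mk (I.mix (nat_lit 29343744) (nat_lit 50069504)) (I.mix (nat_lit 30932992) (nat_lit 4325376)) (I.mix (nat_lit 10207232) (nat_lit 5046272)) (I.pos (nat_lit 84328448) (nat_lit 98975744)) (I.mix (nat_lit 25100288) (nat_lit 30818304)) (I.mix (nat_lit 16334848) (nat_lit 25460736)) (I.mix (nat_lit 6029312) (nat_lit 9388032)))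
  false (nat_lit 0)
def b4_3 : Bx := Bx.mk (St.mk (I.pos (nat_lit 157515776) (nat_lit 205717504)) (I.mix (nat_lit 2768896) (nat_lit 54935552)) (I.pos (nat_lit 15958016) (nat_lit 87965696)) (I.pos (nat_lit 187236352) (nat_lit 249184256)) (I.mix (nat_lit 115654656) (nat_lit 37142528)) (I.mix (nat_lit 97550336) (nat_lit 47284224)) (I.mix (nat_lit 92602368) (nat_lit 39534592)))
  false (nat_lit 84764384)
def b4_4 : Bx := Bx.mk (St.mk (I.mix (nat_lit 52658176) (nat_lit 75038720)) (I.mix (nat_lit 9420800) (nat_lit 32948224)) (I.mix (nat_lit 10878976) (nat_lit 15810560)) (I.pos (nat_lit 84328448) (nat_lit 111034368)) (I.mix (nat_lit 40321024) (nat_lit 25100288)) (I.mix (nat_lit 32833536) (nat_lit 16334848)) (I.mix (nat_lit 12173312) (nat_lit 9388032)))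
  false (nat_lit 0)
def b4_5 : Bx := Bx.mk (St.mk (I.mix (nat_lit 26460160) (nat_lit 100384768)) (I.mix (nat_lit 5849088) (nat_lit 33488896)) (I.mix (nat_lit 12369920) (nat_lit 16629760)) (I.pos (nat_lit 84983808) (nat_lit 124207104)) (I.mix (nat_lit 34373632) (nat_lit 36454400)) (I.mix (nat_lit 32342016) (nat_lit 20922368)) (I.mix (nat_lit 20103168) (nat_lit 12189696)))
  false (nat_lit 0)
def b4_6 : Bx := Bx.mk (St.mk (I.pos (nat_lit 78577664) (nat_lit 125026304)) (I.mix (nat_lit 57802752) (nat_lit 7585792)) (I.mix (nat_lit 49266688) (nat_lit 327680)) (I.pos (nat_lit 112607232) (nat_lit 148553728)) (I.mix (nat_lit 79446016) (nat_lit 30670848)) (I.mix (nat_lit 26968064) (nat_lit 61767680)) (I.mix (nat_lit 19382272) (nat_lit 41140224)))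
  false (nat_lit 0)
def b4_7 : Bx := Bx.mk (St.mk (I.mix (nat_lit 46759936) (nat_lit 23298048)) (I.mix (nat_lit 30605312) (nat_lit 3751936)) (I.mix (nat_lit 8650752) (nat_lit 5963776)) (I.pos (nat_lit 84983808) (nat_lit 98467840)) (I.mix (nat_lit 31670272) (nat_lit 23822336)) (I.mix (nat_lit 16039936) (nat_lit 25853952)) (I.mix (nat_lit 9617408) (nat_lit 5439488)))
  false (nat_lit 0)
def b4_8 : Bx := Bx.mk (St.mk (I.pos (nat_lit 139608064) (nat_lit 199720960)) (I.mix (nat_lit 32653312) (nat_lit 17154048)) (I.mix (nat_lit 22593536) (nat_lit 41140224)) (I.pos (nat_lit 165511168) (nat_lit 232882176)) (I.mix (nat_lit 58556416) (nat_lit 53198848)) (I.mix (nat_lit 50348032) (nat_lit 47104000)) (I.mix (nat_lit 46530560) (nat_lit 44023808)))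
  false (nat_lit 11846803)
def b4_9 : Bx := Bx.mk (St.mk (I.pos (nat_lit 197394432) (nat_lit 285786112)) (I.mix (nat_lit 15777792) (nat_lit 43237376)) (I.mix (nat_lit 52625408) (nat_lit 67698688)) (I.pos (nat_lit 247922688) (nat_lit 389660672)) (I.mix (nat_lit 76333056) (nat_lit 57376768)) (I.mix (nat_lit 50380800) (nat_lit 35274752)) (I.mix (nat_lit 87097344) (nat_lit 56000512)))
  false (nat_lit 134498274)
def b4_10 : Bx := Bx.mk (St.mk (I.pos (nat_lit 175652864) (nat_lit 224657408)) (I.pos (nat_lit 20627456) (nat_lit 57229312)) (I.pos (nat_lit 33718272) (nat_lit 90914816)) (I.pos (nat_lit 227901440) (nat_lit 276381696)) (I.mix (nat_lit 101564416) (nat_lit 76546048)) (I.mix (nat_lit 79036416) (nat_lit 56852480)) (I.mix (nat_lit 115490816) (nat_lit 68419584)))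
  false (nat_lit 62879920)
def b4_11 : Bx := Bx.mk (St.mk (I.pos (nat_lit 156237824) (nat_lit 200671232)) (I.mix (nat_lit 7766016) (nat_lit 34488320)) (I.pos (nat_lit 8667136) (nat_lit 64323584)) (I.pos (nat_lit 186892288) (nat_lit 237551616)) (I.mix (nat_lit 116391936) (nat_lit 58294272)) (I.mix (nat_lit 110198784) (nat_lit 49299456)) (I.mix (nat_lit 106479616) (nat_lit 43597824)))
  false (nat_lit 35846934)
def t4 : BTr := (BTr.n (BTr.n (BTr.n (BTr.b b4_0) (BTr.n (BTr.b b4_1) (BTr.b b4_2))) (BTr.n (BTr.b b4_3) (BTr.n (BTr.b b4_4) (BTr.b b4_5)))) (BTr.n (BTr.n (BTr.b b4_6) (BTr.n (BTr.b b4_7) (BTr.b b4_8))) (BTr.n (BTr.b b4_9) (BTr.n (BTr.b b4_10) (BTr.b b4_11)))))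
namespace T4
def l0 : Tr := Tr.L (Pth.l (Pth.l (Pth.l Pth.z)))
def l1 : Tr := Tr.L (Pth.l (Pth.l (Pth.r (Pth.l Pth.z))))
def l2 : Tr := Tr.L (Pth.l (Pth.l (Pth.r (Pth.r Pth.z))))
def l3 : Tr := Tr.L (Pth.l (Pth.r (Pth.l Pth.z)))
def l4 : Tr := Tr.L (Pth.l (Pth.r (Pth.r (Pth.l Pth.z))))
def l5 : Tr := Tr.L (Pth.l (Pth.r (Pth.r (Pth.r Pth.z))))
def l6 : Tr := Tr.L (Pth.r (Pth.l (Pth.l Pth.z)))
def l7 : Tr := Tr.L (Pth.r (Pth.l (Pth.r (Pth.l Pth.z))))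
def l8 : Tr := Tr.L (Pth.r (Pth.l (Pth.r (Pth.r Pth.z))))
def l9 : Tr := Tr.L (Pth.r (Pth.r (Pth.l Pth.z)))
def l10 : Tr := Tr.L (Pth.r (Pth.r (Pth.r (Pth.l Pth.z))))
def l11 : Tr := Tr.L (Pth.r (Pth.r (Pth.r (Pth.r Pth.z))))
end T4
def b5_0 : Bx := Bx.mk (St.mk (I.pos (nat_lit 156516352) (nat_lit 235143168)) (I.mix (nat_lit 2621440) (nat_lit 48005120)) (I.mix (nat_lit 5177344) (nat_lit 98140160)) (I.pos (nat_lit 108724224) (nat_lit 228720640)) (I.mix (nat_lit 113180672) (nat_lit 71778304)) (I.mix (nat_lit 76546048) (nat_lit 75317248)) (I.mix (nat_lit 104660992) (nat_lit 96174080)))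
  false (nat_lit 52195504)
def b5_1 : Bx := Bx.mk (St.mk (I.pos (nat_lit 109953024) (nat_lit 183566336)) (I.neg (nat_lit 7323648) (nat_lit 53477376)) (I.mix (nat_lit 44924928) (nat_lit 9814016)) (I.pos (nat_lit 83034112) (nat_lit 160464896)) (I.mix (nat_lit 76906496) (nat_lit 42876928)) (I.mix (nat_lit 36077568) (nat_lit 48545792)) (I.mix (nat_lit 31014912) (nat_lit 46694400)))
  false (nat_lit 18985186)
def b5_2 : Bx := Bx.mk (St.mk (I.mix (nat_lit 16809984) (nat_lit 108068864)) (I.mix (nat_lit 25231360) (nat_lit 2228224)) (I.mix (nat_lit 12288000) (nat_lit 8716288)) (I.pos (nat_lit 14630912) (nat_lit 77578240)) (I.mix (nat_lit 25673728) (nat_lit 21659648)) (I.mix (nat_lit 14811136) (nat_lit 17776640)) (I.mix (nat_lit 8503296) (nat_lit 10846208)))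
  false (nat_lit 0)
def b5_3 : Bx := Bx.mk (St.mk (I.pos (nat_lit 165576704) (nat_lit 211746816)) (I.mix (nat_lit 9961472) (nat_lit 48349184)) (I.pos (nat_lit 14729216) (nat_lit 94601216)) (I.pos (nat_lit 126599168) (nat_lit 199950336)) (I.mix (nat_lit 134840320) (nat_lit 51576832)) (I.mix (nat_lit 110903296) (nat_lit 56918016)) (I.mix (nat_lit 129155072) (nat_lit 47169536)))
  false (nat_lit 54999609)
def b5_4 : Bx := Bx.mk (St.mk (I.mix (nat_lit 28442624) (nat_lit 123650048)) (I.mix (nat_lit 12632064) (nat_lit 29720576)) (I.mix (nat_lit 3735552) (nat_lit 30113792)) (I.pos (nat_lit 13860864) (nat_lit 89276416)) (I.mix (nat_lit 51462144) (nat_lit 20316160)) (I.mix (nat_lit 36700160) (nat_lit 20627456)) (I.mix (nat_lit 23707648) (nat_lit 11468800)))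
  false (nat_lit 0)
def b5_5 : Bx := Bx.mk (St.mk (I.pos (nat_lit 153600000) (nat_lit 208715776)) (I.mix (nat_lit 35995648) (nat_lit 9601024)) (I.mix (nat_lit 22888448) (nat_lit 41140224)) (I.pos (nat_lit 113836032) (nat_lit 189759488)) (I.mix (nat_lit 53903360) (nat_lit 52281344)) (I.mix (nat_lit 46006272) (nat_lit 46956544)) (I.mix (nat_lit 46891008) (nat_lit 48300032)))
  false (nat_lit 48176975)
def b5_6 : Bx := Bx.mk (St.mk (I.pos (nat_lit 55427072) (nat_lit 130121728)) (I.mix (nat_lit 4538368) (nat_lit 23379968)) (I.mix (nat_lit 1343488) (nat_lit 25018368)) (I.pos (nat_lit 33783808) (nat_lit 99401728)) (I.mix (nat_lit 39731200) (nat_lit 30785536)) (I.mix (nat_lit 31440896) (nat_lit 23822336)) (I.mix (nat_lit 24559616) (nat_lit 17022976)))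
  false (nat_lit 0)
def b5_7 : Bx := Bx.mk (St.mk (I.pos (nat_lit 106790912) (nat_lit 153829376)) (I.mix (nat_lit 50806784) (nat_lit 6275072)) (I.mix (nat_lit 41304064) (nat_lit 11239424)) (I.pos (nat_lit 63930368) (nat_lit 120913920)) (I.mix (nat_lit 83361792) (nat_lit 39600128)) (I.mix (nat_lit 33587200) (nat_lit 66027520)) (I.mix (nat_lit 26083328) (nat_lit 52101120)))
  false (nat_lit 2850922)
def b5_8 : Bx := Bx.mk (St.mk (I.pos (nat_lit 169705472) (nat_lit 208338944)) (I.mix (nat_lit 14745600) (nat_lit 22790144)) (I.pos (nat_lit 8486912) (nat_lit 58884096)) (I.pos (nat_lit 126287872) (nat_lit 191168512)) (I.mix (nat_lit 86933504) (nat_lit 50397184)) (I.mix (nat_lit 79167488) (nat_lit 44040192)) (I.mix (nat_lit 91455488) (nat_lit 43974656)))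
  false (nat_lit 45875847)
def b5_9 : Bx := Bx.mk (St.mk (I.mix (nat_lit 20332544) (nat_lit 94388224)) (I.mix (nat_lit 25444352) (nat_lit 3948544)) (I.mix (nat_lit 11894784) (nat_lit 5619712)) (I.pos (nat_lit 15220736) (nat_lit 68616192)) (I.mix (nat_lit 31096832) (nat_lit 15990784)) (I.mix (nat_lit 14270464) (nat_lit 24690688)) (I.mix (nat_lit 7700480) (nat_lit 12369920)))
  false (nat_lit 0)
def b5_10 : Bx := Bx.mk (St.mk (I.pos (nat_lit 200654848) (nat_lit 284246016)) (I.mix (nat_lit 13778944) (nat_lit 35799040)) (I.mix (nat_lit 14958592) (nat_lit 81100800)) (I.pos (nat_lit 181501952) (nat_lit 334626816)) (I.mix (nat_lit 72859648) (nat_lit 56524800)) (I.mix (nat_lit 49709056) (nat_lit 36192256)) (I.mix (nat_lit 82198528) (nat_lit 56868864)))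
  false (nat_lit 62759040)
def b5_11 : Bx := Bx.mk (St.mk (I.pos (nat_lit 182157312) (nat_lit 230342656)) (I.pos (nat_lit 14778368) (nat_lit 44515328)) (I.pos (nat_lit 39518208) (nat_lit 92717056)) (I.pos (nat_lit 165855232) (nat_lit 220938240)) (I.mix (nat_lit 92618752) (nat_lit 75759616)) (I.mix (nat_lit 79593472) (nat_lit 57065472)) (I.mix (nat_lit 117145600) (nat_lit 71565312)))
  false (nat_lit 59284548)
def t5 : BTr := (BTr.n (BTr.n (BTr.n (BTr.b b5_0) (BTr.n (BTr.b b5_1) (BTr.b b5_2))) (BTr.n (BTr.b b5_3) (BTr.n (BTr.b b5_4) (BTr.b b5_5)))) (BTr.n (BTr.n (BTr.b b5_6) (BTr.n (BTr.b b5_7) (BTr.b b5_8))) (BTr.n (BTr.b b5_9) (BTr.n (BTr.b b5_10) (BTr.b b5_11)))))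
namespace T5
def l0 : Tr := Tr.L (Pth.l (Pth.l (Pth.l Pth.z)))
def l1 : Tr := Tr.L (Pth.l (Pth.l (Pth.r (Pth.l Pth.z))))
def l2 : Tr := Tr.L (Pth.l (Pth.l (Pth.r (Pth.r Pth.z))))
def l3 : Tr := Tr.L (Pth.l (Pth.r (Pth.l Pth.z)))
def l4 : Tr := Tr.L (Pth.l (Pth.r (Pth.r (Pth.l Pth.z))))
def l5 : Tr := Tr.L (Pth.l (Pth.r (Pth.r (Pth.r Pth.z))))
def l6 : Tr := Tr.L (Pth.r (Pth.l (Pth.l Pth.z)))
def l7 : Tr := Tr.L (Pth.r (Pth.l (Pth.r (Pth.l Pth.z))))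
def l8 : Tr := Tr.L (Pth.r (Pth.l (Pth.r (Pth.r Pth.z))))
def l9 : Tr := Tr.L (Pth.r (Pth.r (Pth.l Pth.z)))
def l10 : Tr := Tr.L (Pth.r (Pth.r (Pth.r (Pth.l Pth.z))))
def l11 : Tr := Tr.L (Pth.r (Pth.r (Pth.r (Pth.r Pth.z))))
end T5
theorem bx0_0 : BoxOK sI cl6 cl9 cl13 t2 t4 b0_0 :=
  box_mk (TrL.c (I.pos (nat_lit 0) (nat_lit 0)) (xa (xb (xa T2.l0 T2.l0) (xa (xb T2.l0 T2.l0) (xb T2.l0 T2.l0))) (xb (xa T2.l0 T2.l0) (xa (xb T2.l0 T2.l0) (xb T2.l0 T2.l0))))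
  (TrL.c (I.pos (nat_lit 0) (nat_lit 0)) (xa T4.l1 T4.l1)
  (TrL.c (I.pos (nat_lit 0) (nat_lit 89480386)) (xR (xR T2.l1 T2.l1) (xR T2.l1 (xR T2.l1 T2.l1)))
  (TrL.c (I.pos (nat_lit 0) (nat_lit 41530880)) (xR T4.l2 T4.l2)
  (TrL.c (I.pos (nat_lit 0) (nat_lit 0)) (xa T4.l11 (xb T4.l3 T4.l3))
  (TrL.c (I.pos (nat_lit 0) (nat_lit 0)) T2.l2
  (TrL.c (I.mix (nat_lit 41527258) (nat_lit 41530880)) (xR (xR T4.l4 T4.l4) (xR T4.l4 T4.l4))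
  (TrL.c (I.mix (nat_lit 41527258) (nat_lit 4274)) (xR T2.l3 T2.l3)
  TrL.n)))))))) (by decide +kernel)
theorem bx0_1 : BoxOK sI cl6 cl9 cl13 t2 t4 b0_1 :=
  box_mk (TrL.c (I.pos (nat_lit 0) (nat_lit 0)) (xa (xa T2.l8 T2.l8) (xa T2.l8 (xa T2.l8 T2.l8)))
  (TrL.c (I.pos (nat_lit 0) (nat_lit 0)) (xa T4.l1 T4.l1)
  (TrL.c (I.pos (nat_lit 0) (nat_lit 89480386)) (xR T2.l1 T2.l1)
  (TrL.c (I.pos (nat_lit 0) (nat_lit 41530880)) T4.l2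
  (TrL.c (I.pos (nat_lit 0) (nat_lit 0)) (xa T4.l8 T4.l8)
  (TrL.c (I.pos (nat_lit 0) (nat_lit 0)) T2.l2
  (TrL.c (I.mix (nat_lit 41527258) (nat_lit 41530880)) T4.l4
  (TrL.c (I.mix (nat_lit 41527258) (nat_lit 4274)) T2.l3
  TrL.n)))))))) (by decide +kernel)
theorem bx0_2 : BoxOK sI cl6 cl9 cl13 t2 t4 b0_2 :=
  box_mk (TrL.c (I.pos (nat_lit 0) (nat_lit 0)) (xb T2.l8 (xa T2.l8 T2.l8))
  (TrL.c (I.pos (nat_lit 0) (nat_lit 0)) T4.l1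
  (TrL.c (I.pos (nat_lit 0) (nat_lit 89480386)) (xR T2.l7 T2.l1)
  (TrL.c (I.pos (nat_lit 0) (nat_lit 41530880)) T4.l2
  (TrL.c (I.pos (nat_lit 0) (nat_lit 0)) T4.l8
  (TrL.c (I.pos (nat_lit 0) (nat_lit 0)) T2.l2
  (TrL.c (I.mix (nat_lit 41527258) (nat_lit 41530880)) T4.l4
  (TrL.c (I.mix (nat_lit 41527258) (nat_lit 4274)) (xR T2.l3 T2.l3)
  TrL.n)))))))) (by decide +kernel)
theorem bx0_3 : BoxOK sI cl6 cl9 cl13 t2 t4 b0_3 :=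
  box_mk (TrL.c (I.pos (nat_lit 0) (nat_lit 0)) (xa (xa (xb (xa T2.l8 T2.l8) T2.l8) T2.l8) T2.l8)
  (TrL.c (I.pos (nat_lit 0) (nat_lit 0)) T4.l1
  (TrL.c (I.pos (nat_lit 0) (nat_lit 89480386)) (xR T2.l1 T2.l1)
  (TrL.c (I.pos (nat_lit 0) (nat_lit 41530880)) (xR T4.l2 T4.l2)
  (TrL.c (I.pos (nat_lit 0) (nat_lit 0)) (xa T4.l1 T4.l8)
  (TrL.c (I.pos (nat_lit 0) (nat_lit 0)) T2.l2
  (TrL.c (I.mix (nat_lit 41527258) (nat_lit 41530880)) T4.l4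
  (TrL.c (I.mix (nat_lit 41527258) (nat_lit 4274)) T2.l3
  TrL.n)))))))) (by decide +kernel)
theorem bx0_4 : BoxOK sI cl6 cl9 cl13 t2 t4 b0_4 :=
  box_mk (TrL.c (I.pos (nat_lit 0) (nat_lit 0)) (xa (xb (xa T2.l0 T2.l0) (xa T2.l0 T2.l0)) (xb (xa T2.l0 (xb T2.l0 T2.l0)) (xa T2.l0 (xb T2.l0 T2.l0))))
  (TrL.c (I.pos (nat_lit 0) (nat_lit 0)) (xa T4.l1 T4.l6)
  (TrL.c (I.pos (nat_lit 0) (nat_lit 89480386)) (xR (xR T2.l1 T2.l1) (xR T2.l1 (xR T2.l1 T2.l1)))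
  (TrL.c (I.pos (nat_lit 0) (nat_lit 41530880)) (xR T4.l2 T4.l2)
  (TrL.c (I.pos (nat_lit 0) (nat_lit 0)) (xa (xb (xa T4.l3 T4.l3) T4.l3) (xb (xa T4.l3 (xb T4.l3 T4.l3)) (xa T4.l3 (xb T4.l3 T4.l3))))
  (TrL.c (I.pos (nat_lit 0) (nat_lit 0)) T2.l2
  (TrL.c (I.mix (nat_lit 41527258) (nat_lit 41530880)) (xR (xR T4.l4 T4.l4) (xR T4.l4 T4.l4))
  (TrL.c (I.mix (nat_lit 41527258) (nat_lit 4274)) (xR T2.l3 T2.l3)
  TrL.n)))))))) (by decide +kernel)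
theorem bx0_5 : BoxOK sI cl6 cl9 cl13 t2 t4 b0_5 :=
  box_mk (TrL.c (I.pos (nat_lit 0) (nat_lit 0)) (xa (xb T2.l8 T2.l8) (xb T2.l0 T2.l0))
  (TrL.c (I.pos (nat_lit 0) (nat_lit 0)) T4.l1
  (TrL.c (I.pos (nat_lit 0) (nat_lit 89480386)) (xR (xR T2.l1 T2.l1) T2.l1)
  (TrL.c (I.pos (nat_lit 0) (nat_lit 41530880)) (xR T4.l2 T4.l2)
  (TrL.c (I.pos (nat_lit 0) (nat_lit 0)) (xa T4.l8 T4.l8)
  (TrL.c (I.pos (nat_lit 0) (nat_lit 0)) T2.l2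
  (TrL.c (I.mix (nat_lit 41527258) (nat_lit 41530880)) (xR (xR T4.l4 T4.l4) T4.l4)
  (TrL.c (I.mix (nat_lit 41527258) (nat_lit 4274)) (xR T2.l3 T2.l3)
  TrL.n)))))))) (by decide +kernel)
theorem bx0_6 : BoxOK sI cl6 cl9 cl13 t2 t4 b0_6 :=
  box_mk (TrL.c (I.pos (nat_lit 0) (nat_lit 0)) T2.l8
  (TrL.c (I.pos (nat_lit 0) (nat_lit 0)) T4.l1
  (TrL.c (I.pos (nat_lit 0) (nat_lit 89480386)) (xR T2.l1 T2.l1)
  (TrL.c (I.pos (nat_lit 0) (nat_lit 41530880)) T4.l2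
  (TrL.c (I.pos (nat_lit 0) (nat_lit 0)) T4.l8
  (TrL.c (I.pos (nat_lit 0) (nat_lit 0)) T2.l2
  (TrL.c (I.mix (nat_lit 41527258) (nat_lit 41530880)) T4.l4
  (TrL.c (I.mix (nat_lit 41527258) (nat_lit 4274)) T2.l3
  TrL.n)))))))) (by decide +kernel)
theorem bx0_7 : BoxOK sI cl6 cl9 cl13 t2 t4 b0_7 :=
  box_mk (TrL.c (I.pos (nat_lit 0) (nat_lit 0)) (xb (xa (xb T2.l11 T2.l11) (xb T2.l11 T2.l11)) (xa (xb T2.l11 (xa T2.l11 T2.l11)) (xb T2.l11 (xa T2.l11 T2.l11))))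
  (TrL.c (I.pos (nat_lit 0) (nat_lit 0)) T4.l1
  (TrL.c (I.pos (nat_lit 0) (nat_lit 89480386)) (xR (xR T2.l1 T2.l1) (xR T2.l1 T2.l1))
  (TrL.c (I.pos (nat_lit 0) (nat_lit 41530880)) (xR T4.l2 T4.l2)
  (TrL.c (I.pos (nat_lit 0) (nat_lit 0)) (xb (xa T4.l11 T4.l11) T4.l11)
  (TrL.c (I.pos (nat_lit 0) (nat_lit 0)) T2.l2
  (TrL.c (I.mix (nat_lit 41527258) (nat_lit 41530880)) (xR (xR T4.l4 T4.l4) (xR T4.l4 T4.l4))
  (TrL.c (I.mix (nat_lit 41527258) (nat_lit 4274)) (xR T2.l3 T2.l3)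
  TrL.n)))))))) (by decide +kernel)
theorem bx0_8 : BoxOK sI cl6 cl9 cl13 t2 t4 b0_8 :=
  box_mk (TrL.c (I.pos (nat_lit 0) (nat_lit 0)) (xa (xa (xb (xa T2.l8 T2.l8) (xa T2.l8 T2.l8)) (xb T2.l8 T2.l8)) (xa T2.l8 (xb T2.l8 (xa T2.l8 T2.l8))))
  (TrL.c (I.pos (nat_lit 0) (nat_lit 0)) (xa T4.l1 T4.l1)
  (TrL.c (I.pos (nat_lit 0) (nat_lit 89480386)) (xR T2.l1 T2.l1)
  (TrL.c (I.pos (nat_lit 0) (nat_lit 41530880)) T4.l2
  (TrL.c (I.pos (nat_lit 0) (nat_lit 0)) (xa T4.l8 T4.l8)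
  (TrL.c (I.pos (nat_lit 0) (nat_lit 0)) T2.l2
  (TrL.c (I.mix (nat_lit 41527258) (nat_lit 41530880)) T4.l4
  (TrL.c (I.mix (nat_lit 41527258) (nat_lit 4274)) T2.l3
  TrL.n)))))))) (by decide +kernel)
theorem bx0_9 : BoxOK sI cl6 cl9 cl13 t2 t4 b0_9 :=
  box_mk (TrL.c (I.pos (nat_lit 0) (nat_lit 0)) (xa (xb T2.l0 (xa T2.l0 T2.l0)) (xb T2.l0 (xa T2.l0 T2.l0)))
  (TrL.c (I.pos (nat_lit 0) (nat_lit 0)) T4.l1
  (TrL.c (I.pos (nat_lit 0) (nat_lit 89480386)) (xR (xR T2.l1 T2.l1) (xR T2.l1 T2.l1))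
  (TrL.c (I.pos (nat_lit 0) (nat_lit 41530880)) (xR T4.l2 T4.l2)
  (TrL.c (I.pos (nat_lit 0) (nat_lit 0)) (xa T4.l3 T4.l3)
  (TrL.c (I.pos (nat_lit 0) (nat_lit 0)) T2.l2
  (TrL.c (I.mix (nat_lit 41527258) (nat_lit 41530880)) (xR (xR T4.l4 T4.l4) (xR T4.l4 T4.l4))
  (TrL.c (I.mix (nat_lit 41527258) (nat_lit 4274)) (xR T2.l3 T2.l3)
  TrL.n)))))))) (by decide +kernel)
theorem bx0_10 : BoxOK sI cl6 cl9 cl13 t2 t4 b0_10 :=
  box_mk (TrL.c (I.pos (nat_lit 0) (nat_lit 0)) (xa (xb T2.l0 T2.l0) T2.l0)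
  (TrL.c (I.pos (nat_lit 0) (nat_lit 0)) T4.l1
  (TrL.c (I.pos (nat_lit 0) (nat_lit 89480386)) (xR (xR T2.l1 T2.l1) T2.l1)
  (TrL.c (I.pos (nat_lit 0) (nat_lit 41530880)) (xR T4.l2 T4.l2)
  (TrL.c (I.pos (nat_lit 0) (nat_lit 0)) (xa T4.l11 T4.l0)
  (TrL.c (I.pos (nat_lit 0) (nat_lit 0)) T2.l2
  (TrL.c (I.mix (nat_lit 41527258) (nat_lit 41530880)) (xR (xR T4.l4 T4.l4) T4.l4)
  (TrL.c (I.mix (nat_lit 41527258) (nat_lit 4274)) (xR T2.l3 T2.l3)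
  TrL.n)))))))) (by decide +kernel)
theorem bx0_11 : BoxOK sI cl6 cl9 cl13 t2 t4 b0_11 :=
  box_mk (TrL.c (I.pos (nat_lit 0) (nat_lit 0)) (xa (xb T2.l11 T2.l11) (xb T2.l11 T2.l11))
  (TrL.c (I.pos (nat_lit 0) (nat_lit 0)) T4.l1
  (TrL.c (I.pos (nat_lit 0) (nat_lit 89480386)) (xR (xR T2.l1 T2.l1) (xR T2.l1 T2.l1))
  (TrL.c (I.pos (nat_lit 0) (nat_lit 41530880)) (xR T4.l2 T4.l2)
  (TrL.c (I.pos (nat_lit 0) (nat_lit 0)) (xb T4.l11 T4.l11)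
  (TrL.c (I.pos (nat_lit 0) (nat_lit 0)) T2.l2
  (TrL.c (I.mix (nat_lit 41527258) (nat_lit 41530880)) (xR (xR T4.l4 T4.l4) T4.l4)
  (TrL.c (I.mix (nat_lit 41527258) (nat_lit 4274)) (xR T2.l3 T2.l3)
  TrL.n)))))))) (by decide +kernel)
theorem sv0 : StarV sI cl6 cl9 cl13 t2 t4 t0 :=
  (bt_n (bt_n (bt_n (bt_b bx0_0) (bt_n (bt_b bx0_1) (bt_b bx0_2))) (bt_n (bt_b bx0_3) (bt_n (bt_b bx0_4) (bt_b bx0_5)))) (bt_n (bt_n (bt_b bx0_6) (bt_n (bt_b bx0_7) (bt_b bx0_8))) (bt_n (bt_b bx0_9) (bt_n (bt_b bx0_10) (bt_b bx0_11)))))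
def S0 : StarD := StarD.mk cl6 cl9 cl13 2 4 t0
theorem bx1_0 : BoxOK sI cl6 cl13 cl9 t4 t2 b1_0 :=
  box_mk (TrL.c (I.pos (nat_lit 0) (nat_lit 0)) (xa (xb (xa T4.l0 T4.l0) (xa (xb T4.l0 T4.l0) (xb T4.l0 T4.l0))) (xb (xa T4.l0 T4.l0) (xa (xb T4.l0 T4.l0) (xb T4.l0 T4.l0))))
  (TrL.c (I.pos (nat_lit 0) (nat_lit 0)) (xa T2.l4 T2.l4)
  (TrL.c (I.pos (nat_lit 0) (nat_lit 89480386)) (xR (xR T4.l5 T4.l5) (xR T4.l5 (xR T4.l5 T4.l5)))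
  (TrL.c (I.pos (nat_lit 0) (nat_lit 41530880)) (xR T2.l5 T2.l5)
  (TrL.c (I.pos (nat_lit 0) (nat_lit 0)) (xa (xb T2.l6 T2.l6) (xb T2.l6 T2.l6))
  (TrL.c (I.pos (nat_lit 0) (nat_lit 0)) T4.l6
  (TrL.c (I.mix (nat_lit 41527258) (nat_lit 41530880)) (xR (xR T2.l7 T2.l7) (xR T2.l7 T2.l7))
  (TrL.c (I.mix (nat_lit 41527258) (nat_lit 4274)) (xR T4.l7 T4.l7)
  TrL.n)))))))) (by decide +kernel)
theorem bx1_1 : BoxOK sI cl6 cl13 cl9 t4 t2 b1_1 :=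
  box_mk (TrL.c (I.pos (nat_lit 0) (nat_lit 0)) (xa T4.l9 (xa T4.l9 (xa T4.l9 T4.l9)))
  (TrL.c (I.pos (nat_lit 0) (nat_lit 0)) (xa T2.l4 T2.l4)
  (TrL.c (I.pos (nat_lit 0) (nat_lit 89480386)) (xR T4.l5 T4.l5)
  (TrL.c (I.pos (nat_lit 0) (nat_lit 41530880)) T2.l5
  (TrL.c (I.pos (nat_lit 0) (nat_lit 0)) (xa T2.l9 T2.l9)
  (TrL.c (I.pos (nat_lit 0) (nat_lit 0)) T4.l6
  (TrL.c (I.mix (nat_lit 41527258) (nat_lit 41530880)) T2.l7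
  (TrL.c (I.mix (nat_lit 41527258) (nat_lit 4274)) T4.l7
  TrL.n)))))))) (by decide +kernel)
theorem bx1_2 : BoxOK sI cl6 cl13 cl9 t4 t2 b1_2 :=
  box_mk (TrL.c (I.pos (nat_lit 0) (nat_lit 0)) (xb (xa T4.l9 T4.l9) (xa T4.l9 T4.l9))
  (TrL.c (I.pos (nat_lit 0) (nat_lit 0)) T2.l4
  (TrL.c (I.pos (nat_lit 0) (nat_lit 89480386)) (xR T4.l4 T4.l5)
  (TrL.c (I.pos (nat_lit 0) (nat_lit 41530880)) T2.l5
  (TrL.c (I.pos (nat_lit 0) (nat_lit 0)) T2.l9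
  (TrL.c (I.pos (nat_lit 0) (nat_lit 0)) T4.l6
  (TrL.c (I.mix (nat_lit 41527258) (nat_lit 41530880)) T2.l7
  (TrL.c (I.mix (nat_lit 41527258) (nat_lit 4274)) (xR T4.l7 T4.l7)
  TrL.n)))))))) (by decide +kernel)
theorem bx1_3 : BoxOK sI cl6 cl13 cl9 t4 t2 b1_3 :=
  box_mk (TrL.c (I.pos (nat_lit 0) (nat_lit 0)) (xa (xa (xb (xa T4.l9 T4.l9) T4.l9) T4.l9) T4.l9)
  (TrL.c (I.pos (nat_lit 0) (nat_lit 0)) T2.l4
  (TrL.c (I.pos (nat_lit 0) (nat_lit 89480386)) (xR T4.l5 T4.l5)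
  (TrL.c (I.pos (nat_lit 0) (nat_lit 41530880)) (xR T2.l3 T2.l5)
  (TrL.c (I.pos (nat_lit 0) (nat_lit 0)) (xa T2.l9 T2.l9)
  (TrL.c (I.pos (nat_lit 0) (nat_lit 0)) T4.l6
  (TrL.c (I.mix (nat_lit 41527258) (nat_lit 41530880)) T2.l7
  (TrL.c (I.mix (nat_lit 41527258) (nat_lit 4274)) T4.l7
  TrL.n)))))))) (by decide +kernel)
theorem bx1_4 : BoxOK sI cl6 cl13 cl9 t4 t2 b1_4 :=
  box_mk (TrL.c (I.pos (nat_lit 0) (nat_lit 0)) (xa (xb (xa T4.l0 T4.l0) (xa T4.l0 T4.l0)) (xb (xa T4.l0 (xb T4.l0 T4.l0)) (xa T4.l0 (xb T4.l0 T4.l0))))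
  (TrL.c (I.pos (nat_lit 0) (nat_lit 0)) (xa T2.l4 T2.l2)
  (TrL.c (I.pos (nat_lit 0) (nat_lit 89480386)) (xR (xR T4.l4 T4.l4) (xR T4.l5 (xR T4.l5 T4.l5)))
  (TrL.c (I.pos (nat_lit 0) (nat_lit 41530880)) (xR T2.l3 T2.l5)
  (TrL.c (I.pos (nat_lit 0) (nat_lit 0)) (xa (xb (xa T2.l6 T2.l6) T2.l6) (xb (xa T2.l6 (xb T2.l6 T2.l6)) (xa T2.l6 (xb T2.l6 T2.l6))))
  (TrL.c (I.pos (nat_lit 0) (nat_lit 0)) T4.l6
  (TrL.c (I.mix (nat_lit 41527258) (nat_lit 41530880)) (xR (xR T2.l7 T2.l7) (xR T2.l7 T2.l1))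
  (TrL.c (I.mix (nat_lit 41527258) (nat_lit 4274)) (xR T4.l7 T4.l2)
  TrL.n)))))))) (by decide +kernel)
theorem bx1_5 : BoxOK sI cl6 cl13 cl9 t4 t2 b1_5 :=
  box_mk (TrL.c (I.pos (nat_lit 0) (nat_lit 0)) (xa (xb T4.l9 (xa T4.l9 T4.l9)) (xb T4.l0 T4.l0))
  (TrL.c (I.pos (nat_lit 0) (nat_lit 0)) T2.l4
  (TrL.c (I.pos (nat_lit 0) (nat_lit 89480386)) (xR (xR T4.l5 T4.l5) (xR T4.l5 T4.l5))
  (TrL.c (I.pos (nat_lit 0) (nat_lit 41530880)) (xR T2.l5 T2.l5)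
  (TrL.c (I.pos (nat_lit 0) (nat_lit 0)) (xa T2.l9 T2.l9)
  (TrL.c (I.pos (nat_lit 0) (nat_lit 0)) T4.l6
  (TrL.c (I.mix (nat_lit 41527258) (nat_lit 41530880)) (xR (xR T2.l7 T2.l7) T2.l7)
  (TrL.c (I.mix (nat_lit 41527258) (nat_lit 4274)) (xR T4.l7 T4.l7)
  TrL.n)))))))) (by decide +kernel)
theorem bx1_6 : BoxOK sI cl6 cl13 cl9 t4 t2 b1_6 :=
  box_mk (TrL.c (I.pos (nat_lit 0) (nat_lit 0)) T4.l9
  (TrL.c (I.pos (nat_lit 0) (nat_lit 0)) T2.l4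
  (TrL.c (I.pos (nat_lit 0) (nat_lit 89480386)) (xR T4.l5 T4.l5)
  (TrL.c (I.pos (nat_lit 0) (nat_lit 41530880)) T2.l5
  (TrL.c (I.pos (nat_lit 0) (nat_lit 0)) T2.l9
  (TrL.c (I.pos (nat_lit 0) (nat_lit 0)) T4.l6
  (TrL.c (I.mix (nat_lit 41527258) (nat_lit 41530880)) T2.l7
  (TrL.c (I.mix (nat_lit 41527258) (nat_lit 4274)) T4.l7
  TrL.n)))))))) (by decide +kernel)
theorem bx1_7 : BoxOK sI cl6 cl13 cl9 t4 t2 b1_7 :=
  box_mk (TrL.c (I.pos (nat_lit 0) (nat_lit 0)) (xb (xa (xb T4.l10 T4.l10) (xb T4.l10 T4.l10)) (xa (xb T4.l10 (xa T4.l10 T4.l10)) (xb T4.l10 (xa T4.l10 T4.l10))))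
  (TrL.c (I.pos (nat_lit 0) (nat_lit 0)) T2.l4
  (TrL.c (I.pos (nat_lit 0) (nat_lit 89480386)) (xR (xR T4.l5 T4.l5) (xR T4.l5 T4.l5))
  (TrL.c (I.pos (nat_lit 0) (nat_lit 41530880)) (xR T2.l5 T2.l5)
  (TrL.c (I.pos (nat_lit 0) (nat_lit 0)) (xb T2.l10 T2.l10)
  (TrL.c (I.pos (nat_lit 0) (nat_lit 0)) T4.l6
  (TrL.c (I.mix (nat_lit 41527258) (nat_lit 41530880)) (xR (xR T2.l7 T2.l7) (xR T2.l7 T2.l7))
  (TrL.c (I.mix (nat_lit 41527258) (nat_lit 4274)) (xR T4.l7 T4.l7)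
  TrL.n)))))))) (by decide +kernel)
theorem bx1_8 : BoxOK sI cl6 cl13 cl9 t4 t2 b1_8 :=
  box_mk (TrL.c (I.pos (nat_lit 0) (nat_lit 0)) (xa (xa (xb T4.l9 (xa T4.l9 T4.l9)) (xb T4.l9 T4.l9)) (xa T4.l9 (xb T4.l9 (xa T4.l9 T4.l9))))
  (TrL.c (I.pos (nat_lit 0) (nat_lit 0)) (xa T2.l4 T2.l4)
  (TrL.c (I.pos (nat_lit 0) (nat_lit 89480386)) (xR T4.l5 T4.l5)
  (TrL.c (I.pos (nat_lit 0) (nat_lit 41530880)) (xR T2.l5 T2.l5)
  (TrL.c (I.pos (nat_lit 0) (nat_lit 0)) (xa T2.l9 T2.l9)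
  (TrL.c (I.pos (nat_lit 0) (nat_lit 0)) T4.l6
  (TrL.c (I.mix (nat_lit 41527258) (nat_lit 41530880)) T2.l7
  (TrL.c (I.mix (nat_lit 41527258) (nat_lit 4274)) T4.l7
  TrL.n)))))))) (by decide +kernel)
theorem bx1_9 : BoxOK sI cl6 cl13 cl9 t4 t2 b1_9 :=
  box_mk (TrL.c (I.pos (nat_lit 0) (nat_lit 0)) (xa (xb T4.l0 T4.l0) T4.l0)
  (TrL.c (I.pos (nat_lit 0) (nat_lit 0)) T2.l4
  (TrL.c (I.pos (nat_lit 0) (nat_lit 89480386)) (xR (xR T4.l5 T4.l5) (xR T4.l5 T4.l5))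
  (TrL.c (I.pos (nat_lit 0) (nat_lit 41530880)) (xR T2.l5 T2.l5)
  (TrL.c (I.pos (nat_lit 0) (nat_lit 0)) (xa T2.l10 T2.l0)
  (TrL.c (I.pos (nat_lit 0) (nat_lit 0)) T4.l6
  (TrL.c (I.mix (nat_lit 41527258) (nat_lit 41530880)) (xR (xR T2.l7 T2.l7) T2.l7)
  (TrL.c (I.mix (nat_lit 41527258) (nat_lit 4274)) (xR T4.l7 T4.l7)
  TrL.n)))))))) (by decide +kernel)
theorem bx1_10 : BoxOK sI cl6 cl13 cl9 t4 t2 b1_10 :=
  box_mk (TrL.c (I.pos (nat_lit 0) (nat_lit 0)) (xa (xb T4.l10 T4.l10) (xb T4.l10 T4.l10))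
  (TrL.c (I.pos (nat_lit 0) (nat_lit 0)) T2.l4
  (TrL.c (I.pos (nat_lit 0) (nat_lit 89480386)) (xR (xR T4.l5 T4.l5) (xR T4.l5 T4.l5))
  (TrL.c (I.pos (nat_lit 0) (nat_lit 41530880)) (xR T2.l5 T2.l5)
  (TrL.c (I.pos (nat_lit 0) (nat_lit 0)) (xb T2.l10 T2.l10)
  (TrL.c (I.pos (nat_lit 0) (nat_lit 0)) T4.l6
  (TrL.c (I.mix (nat_lit 41527258) (nat_lit 41530880)) (xR (xR T2.l1 T2.l7) T2.l1)
  (TrL.c (I.mix (nat_lit 41527258) (nat_lit 4274)) (xR T4.l7 T4.l7)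
  TrL.n)))))))) (by decide +kernel)
theorem bx1_11 : BoxOK sI cl6 cl13 cl9 t4 t2 b1_11 :=
  box_mk (TrL.c (I.pos (nat_lit 0) (nat_lit 0)) (xa (xb T4.l0 (xa T4.l0 T4.l0)) (xb T4.l0 (xa T4.l0 T4.l0)))
  (TrL.c (I.pos (nat_lit 0) (nat_lit 0)) T2.l4
  (TrL.c (I.pos (nat_lit 0) (nat_lit 89480386)) (xR (xR T4.l5 T4.l5) (xR T4.l5 T4.l5))
  (TrL.c (I.pos (nat_lit 0) (nat_lit 41530880)) (xR T2.l5 T2.l5)
  (TrL.c (I.pos (nat_lit 0) (nat_lit 0)) (xa T2.l6 T2.l6)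
  (TrL.c (I.pos (nat_lit 0) (nat_lit 0)) T4.l6
  (TrL.c (I.mix (nat_lit 41527258) (nat_lit 41530880)) (xR (xR T2.l7 T2.l7) (xR T2.l7 T2.l7))
  (TrL.c (I.mix (nat_lit 41527258) (nat_lit 4274)) (xR T4.l7 T4.l7)
  TrL.n)))))))) (by decide +kernel)
theorem sv1 : StarV sI cl6 cl13 cl9 t4 t2 t1 :=
  (bt_n (bt_n (bt_n (bt_b bx1_0) (bt_n (bt_b bx1_1) (bt_b bx1_2))) (bt_n (bt_b bx1_3) (bt_n (bt_b bx1_4) (bt_b bx1_5)))) (bt_n (bt_n (bt_b bx1_6) (bt_n (bt_b bx1_7) (bt_b bx1_8))) (bt_n (bt_b bx1_9) (bt_n (bt_b bx1_10) (bt_b bx1_11)))))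
def S1 : StarD := StarD.mk cl6 cl13 cl9 4 2 t1
theorem bx2_0 : BoxOK sI cl9 cl6 cl13 t0 t5 b2_0 :=
  box_mk (TrL.c (I.pos (nat_lit 0) (nat_lit 0)) (xa (xb T0.l0 (xa (xb T0.l0 T0.l0) (xb T0.l0 T0.l0))) (xb T0.l0 (xa (xb T0.l0 T0.l0) T0.l0)))
  (TrL.c (I.pos (nat_lit 0) (nat_lit 0)) (xa T5.l1 T5.l1)
  (TrL.c (I.pos (nat_lit 0) (nat_lit 124588530)) (xR T0.l1 (xR T0.l1 (xR T0.l1 T0.l1)))
  (TrL.c (I.pos (nat_lit 0) (nat_lit 96881482)) (xR T5.l2 (xR T5.l2 T5.l2))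
  (TrL.c (I.pos (nat_lit 0) (nat_lit 0)) (xa (xk (xb T5.l3 T5.l3) (xb T5.l8 T5.l3)) (xk (xb T5.l3 T5.l3) (xb T5.l3 (xa T5.l3 T5.l3))))
  (TrL.c (I.pos (nat_lit 0) (nat_lit 0)) T0.l2
  (TrL.c (I.mix (nat_lit 17240550) (nat_lit 96881482)) (xR T5.l4 (xR T5.l4 (xR T5.l4 T5.l4)))
  (TrL.c (I.mix (nat_lit 17240550) (nat_lit 71940500)) (xR T0.l3 (xR T0.l3 T0.l6))
  TrL.n)))))))) (by decide +kernel)
theorem bx2_1 : BoxOK sI cl9 cl6 cl13 t0 t5 b2_1 :=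
  box_mk (TrL.c (I.pos (nat_lit 0) (nat_lit 0)) (xa (xa (xb T0.l4 (xa T0.l4 T0.l4)) T0.l4) (xa T0.l4 (xb T0.l4 T0.l4)))
  (TrL.c (I.pos (nat_lit 0) (nat_lit 0)) (xa T5.l1 T5.l1)
  (TrL.c (I.pos (nat_lit 0) (nat_lit 124588530)) T0.l1
  (TrL.c (I.pos (nat_lit 0) (nat_lit 96881482)) (xR T5.l2 T5.l2)
  (TrL.c (I.pos (nat_lit 0) (nat_lit 0)) (xa T5.l5 T5.l5)
  (TrL.c (I.pos (nat_lit 0) (nat_lit 0)) T0.l2
  (TrL.c (I.mix (nat_lit 17240550) (nat_lit 96881482)) T5.l4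
  (TrL.c (I.mix (nat_lit 17240550) (nat_lit 71940500)) T0.l3
  TrL.n)))))))) (by decide +kernel)
theorem bx2_2 : BoxOK sI cl9 cl6 cl13 t0 t5 b2_2 :=
  box_mk (TrL.c (I.pos (nat_lit 0) (nat_lit 0)) (xb T0.l4 (xa T0.l4 T0.l4))
  (TrL.c (I.pos (nat_lit 0) (nat_lit 0)) T5.l1
  (TrL.c (I.pos (nat_lit 0) (nat_lit 124588530)) T0.l1
  (TrL.c (I.pos (nat_lit 0) (nat_lit 96881482)) T5.l2
  (TrL.c (I.pos (nat_lit 0) (nat_lit 0)) (xb T5.l5 T5.l5)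
  (TrL.c (I.pos (nat_lit 0) (nat_lit 0)) T0.l2
  (TrL.c (I.mix (nat_lit 17240550) (nat_lit 96881482)) T5.l4
  (TrL.c (I.mix (nat_lit 17240550) (nat_lit 71940500)) T0.l3
  TrL.n)))))))) (by decide +kernel)
theorem bx2_3 : BoxOK sI cl9 cl6 cl13 t0 t5 b2_3 :=
  box_mk (TrL.c (I.pos (nat_lit 0) (nat_lit 0)) (xa (xb (xa (xb T0.l4 T0.l4) T0.l4) T0.l4) T0.l4)
  (TrL.c (I.pos (nat_lit 0) (nat_lit 0)) T5.l5
  (TrL.c (I.pos (nat_lit 0) (nat_lit 124588530)) T0.l1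
  (TrL.c (I.pos (nat_lit 0) (nat_lit 96881482)) T5.l4
  (TrL.c (I.pos (nat_lit 0) (nat_lit 0)) T5.l1
  (TrL.c (I.pos (nat_lit 0) (nat_lit 0)) T0.l2
  (TrL.c (I.mix (nat_lit 17240550) (nat_lit 96881482)) T5.l4
  (TrL.c (I.mix (nat_lit 17240550) (nat_lit 71940500)) T0.l8
  TrL.n)))))))) (by decide +kernel)
theorem bx2_4 : BoxOK sI cl9 cl6 cl13 t0 t5 b2_4 :=
  box_mk (TrL.c (I.pos (nat_lit 0) (nat_lit 0)) (xa (xb T0.l4 T0.l4) T0.l4)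
  (TrL.c (I.pos (nat_lit 0) (nat_lit 0)) T5.l1
  (TrL.c (I.pos (nat_lit 0) (nat_lit 124588530)) (xR T0.l1 T0.l1)
  (TrL.c (I.pos (nat_lit 0) (nat_lit 96881482)) (xR T5.l2 T5.l2)
  (TrL.c (I.pos (nat_lit 0) (nat_lit 0)) (xk (xa T5.l5 T5.l5) (xa T5.l5 T5.l5))
  (TrL.c (I.pos (nat_lit 0) (nat_lit 0)) T0.l2
  (TrL.c (I.mix (nat_lit 17240550) (nat_lit 96881482)) (xR T5.l4 (xR T5.l4 (xR T5.l4 T5.l4)))
  (TrL.c (I.mix (nat_lit 17240550) (nat_lit 71940500)) T0.l8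
  TrL.n)))))))) (by decide +kernel)
theorem bx2_5 : BoxOK sI cl9 cl6 cl13 t0 t5 b2_5 :=
  box_mk (TrL.c (I.pos (nat_lit 0) (nat_lit 0)) (xa (xb T0.l4 T0.l4) T0.l4)
  (TrL.c (I.pos (nat_lit 0) (nat_lit 0)) T5.l1
  (TrL.c (I.pos (nat_lit 0) (nat_lit 124588530)) T0.l1
  (TrL.c (I.pos (nat_lit 0) (nat_lit 96881482)) T5.l4
  (TrL.c (I.pos (nat_lit 0) (nat_lit 0)) T5.l5
  (TrL.c (I.pos (nat_lit 0) (nat_lit 0)) T0.l2
  (TrL.c (I.mix (nat_lit 17240550) (nat_lit 96881482)) T5.l4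
  (TrL.c (I.mix (nat_lit 17240550) (nat_lit 71940500)) T0.l3
  TrL.n)))))))) (by decide +kernel)
theorem bx2_6 : BoxOK sI cl9 cl6 cl13 t0 t5 b2_6 :=
  box_mk (TrL.c (I.pos (nat_lit 0) (nat_lit 0)) (xb (xa T0.l9 T0.l9) (xa (xb T0.l9 T0.l9) (xb T0.l9 T0.l9)))
  (TrL.c (I.pos (nat_lit 0) (nat_lit 0)) T5.l1
  (TrL.c (I.pos (nat_lit 0) (nat_lit 124588530)) (xR T0.l1 (xR T0.l1 (xR T0.l1 T0.l8)))
  (TrL.c (I.pos (nat_lit 0) (nat_lit 96881482)) (xR T5.l2 (xR T5.l2 T5.l2))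
  (TrL.c (I.pos (nat_lit 0) (nat_lit 0)) (xb (xk T5.l3 T5.l3) (xk T5.l3 (xa T5.l8 T5.l3)))
  (TrL.c (I.pos (nat_lit 0) (nat_lit 0)) T0.l2
  (TrL.c (I.mix (nat_lit 17240550) (nat_lit 96881482)) (xR T5.l4 (xR T5.l4 (xR T5.l4 T5.l4)))
  (TrL.c (I.mix (nat_lit 17240550) (nat_lit 71940500)) (xR T0.l3 T0.l6)
  TrL.n)))))))) (by decide +kernel)
theorem bx2_7 : BoxOK sI cl9 cl6 cl13 t0 t5 b2_7 :=
  box_mk (TrL.c (I.pos (nat_lit 0) (nat_lit 0)) (xa (xa (xb T0.l4 (xa T0.l4 T0.l4)) T0.l4) T0.l4)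
  (TrL.c (I.pos (nat_lit 0) (nat_lit 0)) (xa T5.l5 T5.l1)
  (TrL.c (I.pos (nat_lit 0) (nat_lit 124588530)) T0.l1
  (TrL.c (I.pos (nat_lit 0) (nat_lit 96881482)) (xR T5.l4 (xR T5.l4 T5.l2))
  (TrL.c (I.pos (nat_lit 0) (nat_lit 0)) (xa T5.l1 T5.l5)
  (TrL.c (I.pos (nat_lit 0) (nat_lit 0)) T0.l2
  (TrL.c (I.mix (nat_lit 17240550) (nat_lit 96881482)) T5.l4
  (TrL.c (I.mix (nat_lit 17240550) (nat_lit 71940500)) T0.l3
  TrL.n)))))))) (by decide +kernel)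
theorem bx2_8 : BoxOK sI cl9 cl6 cl13 t0 t5 b2_8 :=
  box_mk (TrL.c (I.pos (nat_lit 0) (nat_lit 0)) (xa (xb T0.l0 (xa T0.l0 T0.l0)) (xb T0.l0 (xa T0.l0 T0.l0)))
  (TrL.c (I.pos (nat_lit 0) (nat_lit 0)) (xa T5.l1 (xk T5.l7 T5.l1))
  (TrL.c (I.pos (nat_lit 0) (nat_lit 124588530)) (xR T0.l1 T0.l8)
  (TrL.c (I.pos (nat_lit 0) (nat_lit 96881482)) (xR T5.l2 (xR T5.l2 (xR T5.l2 T5.l2)))
  (TrL.c (I.pos (nat_lit 0) (nat_lit 0)) (xa (xk (xb (xa T5.l3 T5.l3) T5.l3) (xb (xa T5.l3 T5.l3) T5.l3)) (xb (xk (xa T5.l3 T5.l3) (xa T5.l3 T5.l3)) (xk (xa T5.l3 T5.l3) (xa T5.l3 T5.l3))))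
  (TrL.c (I.pos (nat_lit 0) (nat_lit 0)) (xk T0.l2 T0.l2)
  (TrL.c (I.mix (nat_lit 17240550) (nat_lit 96881482)) (xR T5.l4 (xR T5.l4 (xR T5.l4 T5.l4)))
  (TrL.c (I.mix (nat_lit 17240550) (nat_lit 71940500)) (xR T0.l3 (xR T0.l3 T0.l3))
  TrL.n)))))))) (by decide +kernel)
theorem bx2_9 : BoxOK sI cl9 cl6 cl13 t0 t5 b2_9 :=
  box_mk (TrL.c (I.pos (nat_lit 0) (nat_lit 0)) (xa (xb T0.l0 T0.l9) T0.l0)
  (TrL.c (I.pos (nat_lit 0) (nat_lit 0)) T5.l1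
  (TrL.c (I.pos (nat_lit 0) (nat_lit 124588530)) (xR T0.l1 T0.l1)
  (TrL.c (I.pos (nat_lit 0) (nat_lit 96881482)) (xR T5.l2 T5.l2)
  (TrL.c (I.pos (nat_lit 0) (nat_lit 0)) (xk (xa T5.l8 (xb T5.l3 T5.l8)) (xa T5.l8 (xb T5.l3 T5.l8)))
  (TrL.c (I.pos (nat_lit 0) (nat_lit 0)) T0.l2
  (TrL.c (I.mix (nat_lit 17240550) (nat_lit 96881482)) (xR T5.l4 (xR T5.l4 T5.l4))
  (TrL.c (I.mix (nat_lit 17240550) (nat_lit 71940500)) (xR T0.l3 T0.l6)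
  TrL.n)))))))) (by decide +kernel)
theorem bx2_10 : BoxOK sI cl9 cl6 cl13 t0 t5 b2_10 :=
  box_mk (TrL.c (I.pos (nat_lit 0) (nat_lit 0)) (xb T0.l9 (xa T0.l9 T0.l9))
  (TrL.c (I.pos (nat_lit 0) (nat_lit 0)) T5.l1
  (TrL.c (I.pos (nat_lit 0) (nat_lit 124588530)) (xR T0.l1 (xR T0.l1 T0.l8))
  (TrL.c (I.pos (nat_lit 0) (nat_lit 96881482)) (xR T5.l2 (xR T5.l2 T5.l2))
  (TrL.c (I.pos (nat_lit 0) (nat_lit 0)) (xk (xb T5.l3 T5.l3) (xb T5.l8 T5.l8))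
  (TrL.c (I.pos (nat_lit 0) (nat_lit 0)) T0.l2
  (TrL.c (I.mix (nat_lit 17240550) (nat_lit 96881482)) (xR T5.l4 (xR T5.l4 (xR T5.l4 T5.l6)))
  (TrL.c (I.mix (nat_lit 17240550) (nat_lit 71940500)) (xR T0.l3 T0.l6)
  TrL.n)))))))) (by decide +kernel)
theorem bx2_11 : BoxOK sI cl9 cl6 cl13 t0 t5 b2_11 :=
  box_mk (TrL.c (I.pos (nat_lit 0) (nat_lit 0)) (xa (xb T0.l0 T0.l0) (xb T0.l0 (xa T0.l0 T0.l0)))
  (TrL.c (I.pos (nat_lit 0) (nat_lit 0)) T5.l1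
  (TrL.c (I.pos (nat_lit 0) (nat_lit 124588530)) (xR T0.l1 (xR T0.l1 (xR T0.l1 T0.l8)))
  (TrL.c (I.pos (nat_lit 0) (nat_lit 96881482)) (xR T5.l2 (xR T5.l2 T5.l2))
  (TrL.c (I.pos (nat_lit 0) (nat_lit 0)) (xk (xa T5.l3 (xb T5.l3 (xs T5.l3 T5.l3))) (xa T5.l3 (xb T5.l3 (xs T5.l3 (xb T5.l3 T5.l3)))))
  (TrL.c (I.pos (nat_lit 0) (nat_lit 0)) T0.l2
  (TrL.c (I.mix (nat_lit 17240550) (nat_lit 96881482)) (xR T5.l4 (xR T5.l4 T5.l4))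
  (TrL.c (I.mix (nat_lit 17240550) (nat_lit 71940500)) (xR T0.l3 T0.l6)
  TrL.n)))))))) (by decide +kernel)
theorem sv2 : StarV sI cl9 cl6 cl13 t0 t5 t2 :=
  (bt_n (bt_n (bt_n (bt_b bx2_0) (bt_n (bt_b bx2_1) (bt_b bx2_2))) (bt_n (bt_b bx2_3) (bt_n (bt_b bx2_4) (bt_b bx2_5)))) (bt_n (bt_n (bt_b bx2_6) (bt_n (bt_b bx2_7) (bt_b bx2_8))) (bt_n (bt_b bx2_9) (bt_n (bt_b bx2_10) (bt_b bx2_11)))))
def S2 : StarD := StarD.mk cl9 cl6 cl13 0 5 t2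
theorem bx3_0 : BoxOK sI cl9 cl13 cl6 t5 t0 b3_0 :=
  box_mk (TrL.c (I.pos (nat_lit 0) (nat_lit 0)) (xa (xb (xa (xb T5.l0 T5.l0) (xb T5.l0 T5.l0)) (xa (xb T5.l0 T5.l0) (xb T5.l0 T5.l0))) (xa (xb (xb T5.l0 T5.l0) (xb T5.l0 T5.l0)) (xb (xb (xa T5.l0 T5.l0) (xa T5.l0 T5.l0)) (xb (xs T5.l0 T5.l0) (xs T5.l0 T5.l0)))))
  (TrL.c (I.pos (nat_lit 0) (nat_lit 0)) (xa (xk T0.l5 T0.l5) (xk T0.l5 T0.l5))
  (TrL.c (I.pos (nat_lit 0) (nat_lit 124588530)) (xR T5.l4 (xR (xR T5.l4 T5.l6) (xR T5.l6 T5.l6)))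
  (TrL.c (I.pos (nat_lit 0) (nat_lit 96881482)) (xR (xR T0.l8 T0.l6) (xR T0.l6 (xR T0.l6 T0.l6)))
  (TrL.c (I.pos (nat_lit 0) (nat_lit 0)) (xa (xk (xb T0.l7 T0.l7) (xb T0.l7 T0.l7)) (xk (xb (xa T0.l7 T0.l7) (xa T0.l7 (xb T0.l7 (xs T0.l7 (xk T0.l7 T0.l7))))) (xb (xa T0.l7 T0.l7) (xb T0.l7 (xa T0.l7 (xs T0.l7 (xk T0.l7 (xa T0.l7 T0.l7))))))))
  (TrL.c (I.pos (nat_lit 0) (nat_lit 0)) T5.l7
  (TrL.c (I.mix (nat_lit 17240550) (nat_lit 96881482)) (xR T0.l8 (xR T0.l8 (xR T0.l8 T0.l8)))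
  (TrL.c (I.mix (nat_lit 17240550) (nat_lit 71940500)) (xR T5.l9 (xR T5.l9 T5.l9))
  TrL.n)))))))) (by decide +kernel)
theorem bx3_1 : BoxOK sI cl9 cl13 cl6 t5 t0 b3_1 :=
  box_mk (TrL.c (I.pos (nat_lit 0) (nat_lit 0)) (xa (xb T5.l10 (xa T5.l10 T5.l10)) T5.l0)
  (TrL.c (I.pos (nat_lit 0) (nat_lit 0)) (xa T0.l5 T0.l5)
  (TrL.c (I.pos (nat_lit 0) (nat_lit 124588530)) (xR T5.l4 (xR T5.l4 T5.l6))
  (TrL.c (I.pos (nat_lit 0) (nat_lit 96881482)) (xR T0.l3 T0.l6)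
  (TrL.c (I.pos (nat_lit 0) (nat_lit 0)) (xa (xk T0.l10 T0.l10) (xk (xb T0.l10 T0.l11) (xb T0.l10 T0.l10)))
  (TrL.c (I.pos (nat_lit 0) (nat_lit 0)) T5.l7
  (TrL.c (I.mix (nat_lit 17240550) (nat_lit 96881482)) (xR T0.l8 (xR T0.l8 T0.l8))
  (TrL.c (I.mix (nat_lit 17240550) (nat_lit 71940500)) T5.l2
  TrL.n)))))))) (by decide +kernel)
theorem bx3_2 : BoxOK sI cl9 cl13 cl6 t5 t0 b3_2 :=
  box_mk (TrL.c (I.pos (nat_lit 0) (nat_lit 0)) (xa (xa (xb T5.l10 T5.l10) T5.l10) T5.l10)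
  (TrL.c (I.pos (nat_lit 0) (nat_lit 0)) (xa T0.l5 T0.l5)
  (TrL.c (I.pos (nat_lit 0) (nat_lit 124588530)) (xR T5.l4 (xR T5.l4 (xa T5.l6 T5.l6)))
  (TrL.c (I.pos (nat_lit 0) (nat_lit 96881482)) (xR T0.l1 (xR T0.l6 T0.l6))
  (TrL.c (I.pos (nat_lit 0) (nat_lit 0)) (xa T0.l10 T0.l10)
  (TrL.c (I.pos (nat_lit 0) (nat_lit 0)) T5.l7
  (TrL.c (I.mix (nat_lit 17240550) (nat_lit 96881482)) (xR T0.l8 (xR T0.l8 (xR T0.l8 T0.l8)))
  (TrL.c (I.mix (nat_lit 17240550) (nat_lit 71940500)) T5.l9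
  TrL.n)))))))) (by decide +kernel)
theorem bx3_3 : BoxOK sI cl9 cl13 cl6 t5 t0 b3_3 :=
  box_mk (TrL.c (I.pos (nat_lit 0) (nat_lit 0)) (xb (xa (xb T5.l11 T5.l11) (xb T5.l11 T5.l11)) (xa (xb (xa T5.l11 T5.l11) (xa T5.l11 T5.l11)) (xb (xa T5.l11 T5.l11) (xa T5.l11 T5.l11))))
  (TrL.c (I.pos (nat_lit 0) (nat_lit 0)) (xb T0.l5 (xk T0.l5 T0.l5))
  (TrL.c (I.pos (nat_lit 0) (nat_lit 124588530)) (xR T5.l4 (xR (xR T5.l4 T5.l6) (xR T5.l6 T5.l6)))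
  (TrL.c (I.pos (nat_lit 0) (nat_lit 96881482)) (xR (xR T0.l8 T0.l6) (xR T0.l6 (xR T0.l6 T0.l6)))
  (TrL.c (I.pos (nat_lit 0) (nat_lit 0)) (xb (xk T0.l11 T0.l11) (xk T0.l11 (xb T0.l7 T0.l7)))
  (TrL.c (I.pos (nat_lit 0) (nat_lit 0)) T5.l7
  (TrL.c (I.mix (nat_lit 17240550) (nat_lit 96881482)) (xR T0.l8 (xR T0.l8 (xR T0.l8 T0.l8)))
  (TrL.c (I.mix (nat_lit 17240550) (nat_lit 71940500)) (xR T5.l9 (xR T5.l9 T5.l9))
  TrL.n)))))))) (by decide +kernel)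
theorem bx3_4 : BoxOK sI cl9 cl13 cl6 t5 t0 b3_4 :=
  box_mk (TrL.c (I.pos (nat_lit 0) (nat_lit 0)) (xa (xa (xb (xa T5.l10 T5.l10) (xa T5.l10 T5.l10)) (xb T5.l10 T5.l10)) (xa (xb T5.l10 (xa T5.l10 T5.l10)) (xa T5.l10 (xb T5.l10 T5.l10))))
  (TrL.c (I.pos (nat_lit 0) (nat_lit 0)) (xa T0.l5 T0.l5)
  (TrL.c (I.pos (nat_lit 0) (nat_lit 124588530)) (xR T5.l4 (xR T5.l4 T5.l6))
  (TrL.c (I.pos (nat_lit 0) (nat_lit 96881482)) (xR T0.l3 (xR T0.l6 (xa T0.l6 T0.l6)))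
  (TrL.c (I.pos (nat_lit 0) (nat_lit 0)) (xa T0.l10 T0.l10)
  (TrL.c (I.pos (nat_lit 0) (nat_lit 0)) T5.l7
  (TrL.c (I.mix (nat_lit 17240550) (nat_lit 96881482)) (xR T0.l8 (xR T0.l8 (xR T0.l8 T0.l8)))
  (TrL.c (I.mix (nat_lit 17240550) (nat_lit 71940500)) (xR T5.l9 T5.l9)
  TrL.n)))))))) (by decide +kernel)
theorem bx3_5 : BoxOK sI cl9 cl13 cl6 t5 t0 b3_5 :=
  box_mk (TrL.c (I.pos (nat_lit 0) (nat_lit 0)) (xa T5.l0 T5.l0)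
  (TrL.c (I.pos (nat_lit 0) (nat_lit 0)) T0.l5
  (TrL.c (I.pos (nat_lit 0) (nat_lit 124588530)) (xR T5.l4 T5.l4)
  (TrL.c (I.pos (nat_lit 0) (nat_lit 96881482)) (xR T0.l3 T0.l6)
  (TrL.c (I.pos (nat_lit 0) (nat_lit 0)) (xk (xa T0.l11 (xb T0.l7 T0.l11)) (xa T0.l11 (xb T0.l7 T0.l11)))
  (TrL.c (I.pos (nat_lit 0) (nat_lit 0)) T5.l7
  (TrL.c (I.mix (nat_lit 17240550) (nat_lit 96881482)) (xR T0.l8 (xR T0.l8 T0.l8))
  (TrL.c (I.mix (nat_lit 17240550) (nat_lit 71940500)) T5.l2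
  TrL.n)))))))) (by decide +kernel)
theorem bx3_6 : BoxOK sI cl9 cl13 cl6 t5 t0 b3_6 :=
  box_mk (TrL.c (I.pos (nat_lit 0) (nat_lit 0)) (xa T5.l10 (xa T5.l10 T5.l10))
  (TrL.c (I.pos (nat_lit 0) (nat_lit 0)) T0.l5
  (TrL.c (I.pos (nat_lit 0) (nat_lit 124588530)) (xR T5.l4 (xR T5.l4 T5.l6))
  (TrL.c (I.pos (nat_lit 0) (nat_lit 96881482)) (xR T0.l3 T0.l6)
  (TrL.c (I.pos (nat_lit 0) (nat_lit 0)) T0.l10
  (TrL.c (I.pos (nat_lit 0) (nat_lit 0)) T5.l7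
  (TrL.c (I.mix (nat_lit 17240550) (nat_lit 96881482)) T0.l8
  (TrL.c (I.mix (nat_lit 17240550) (nat_lit 71940500)) T5.l9
  TrL.n)))))))) (by decide +kernel)
theorem bx3_7 : BoxOK sI cl9 cl13 cl6 t5 t0 b3_7 :=
  box_mk (TrL.c (I.pos (nat_lit 0) (nat_lit 0)) (xb (xa T5.l10 T5.l0) (xa (xb T5.l10 T5.l10) T5.l10))
  (TrL.c (I.pos (nat_lit 0) (nat_lit 0)) T0.l5
  (TrL.c (I.pos (nat_lit 0) (nat_lit 124588530)) (xR T5.l4 (xR T5.l4 T5.l6))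
  (TrL.c (I.pos (nat_lit 0) (nat_lit 96881482)) (xR T0.l3 T0.l6)
  (TrL.c (I.pos (nat_lit 0) (nat_lit 0)) (xb (xk T0.l10 T0.l10) (xk T0.l10 T0.l10))
  (TrL.c (I.pos (nat_lit 0) (nat_lit 0)) T5.l7
  (TrL.c (I.mix (nat_lit 17240550) (nat_lit 96881482)) (xR T0.l8 T0.l8)
  (TrL.c (I.mix (nat_lit 17240550) (nat_lit 71940500)) T5.l9
  TrL.n)))))))) (by decide +kernel)
theorem bx3_8 : BoxOK sI cl9 cl13 cl6 t5 t0 b3_8 :=
  box_mk (TrL.c (I.pos (nat_lit 0) (nat_lit 0)) T5.l10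
  (TrL.c (I.pos (nat_lit 0) (nat_lit 0)) T0.l5
  (TrL.c (I.pos (nat_lit 0) (nat_lit 124588530)) (xR T5.l4 (xR T5.l4 T5.l6))
  (TrL.c (I.pos (nat_lit 0) (nat_lit 96881482)) (xR T0.l1 T0.l6)
  (TrL.c (I.pos (nat_lit 0) (nat_lit 0)) T0.l10
  (TrL.c (I.pos (nat_lit 0) (nat_lit 0)) T5.l7
  (TrL.c (I.mix (nat_lit 17240550) (nat_lit 96881482)) T0.l8
  (TrL.c (I.mix (nat_lit 17240550) (nat_lit 71940500)) T5.l9
  TrL.n)))))))) (by decide +kernel)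
theorem bx3_9 : BoxOK sI cl9 cl13 cl6 t5 t0 b3_9 :=
  box_mk (TrL.c (I.pos (nat_lit 0) (nat_lit 0)) (xa (xb T5.l0 T5.l0) (xb (xa T5.l0 T5.l0) (xa T5.l0 T5.l0)))
  (TrL.c (I.pos (nat_lit 0) (nat_lit 0)) (xa T0.l5 (xk T0.l5 T0.l5))
  (TrL.c (I.pos (nat_lit 0) (nat_lit 124588530)) (xR T5.l4 (xR T5.l4 T5.l4))
  (TrL.c (I.pos (nat_lit 0) (nat_lit 96881482)) (xR T0.l3 (xR T0.l6 (xR T0.l6 T0.l6)))
  (TrL.c (I.pos (nat_lit 0) (nat_lit 0)) (xa (xk (xb T0.l7 T0.l7) (xb T0.l7 T0.l7)) (xk (xb (xa T0.l7 T0.l7) (xa T0.l7 T0.l7)) (xb (xa T0.l7 T0.l7) (xa T0.l7 T0.l7))))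
  (TrL.c (I.pos (nat_lit 0) (nat_lit 0)) (xk T5.l7 T5.l7)
  (TrL.c (I.mix (nat_lit 17240550) (nat_lit 96881482)) (xR T0.l8 (xR T0.l8 (xR T0.l8 T0.l8)))
  (TrL.c (I.mix (nat_lit 17240550) (nat_lit 71940500)) (xR T5.l9 (xR T5.l9 T5.l9))
  TrL.n)))))))) (by decide +kernel)
theorem bx3_10 : BoxOK sI cl9 cl13 cl6 t5 t0 b3_10 :=
  box_mk (TrL.c (I.pos (nat_lit 0) (nat_lit 0)) (xa (xb T5.l0 (xa T5.l0 T5.l0)) (xb (xa T5.l0 T5.l0) (xa T5.l0 T5.l0)))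
  (TrL.c (I.pos (nat_lit 0) (nat_lit 0)) (xk T0.l5 T0.l5)
  (TrL.c (I.pos (nat_lit 0) (nat_lit 124588530)) (xR T5.l4 (xR T5.l4 T5.l6))
  (TrL.c (I.pos (nat_lit 0) (nat_lit 96881482)) (xR (xR T0.l3 T0.l6) (xR T0.l6 T0.l6))
  (TrL.c (I.pos (nat_lit 0) (nat_lit 0)) (xk (xa T0.l7 T0.l7) (xa T0.l7 T0.l7))
  (TrL.c (I.pos (nat_lit 0) (nat_lit 0)) T5.l7
  (TrL.c (I.mix (nat_lit 17240550) (nat_lit 96881482)) (xR T0.l8 (xR T0.l8 T0.l8))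
  (TrL.c (I.mix (nat_lit 17240550) (nat_lit 71940500)) (xR T5.l9 (xR T5.l9 T5.l9))
  TrL.n)))))))) (by decide +kernel)
theorem bx3_11 : BoxOK sI cl9 cl13 cl6 t5 t0 b3_11 :=
  box_mk (TrL.c (I.pos (nat_lit 0) (nat_lit 0)) (xa (xb T5.l0 T5.l11) (xb T5.l0 T5.l11))
  (TrL.c (I.pos (nat_lit 0) (nat_lit 0)) T0.l5
  (TrL.c (I.pos (nat_lit 0) (nat_lit 124588530)) (xR T5.l4 (xR T5.l4 T5.l6))
  (TrL.c (I.pos (nat_lit 0) (nat_lit 96881482)) (xR T0.l3 T0.l6)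
  (TrL.c (I.pos (nat_lit 0) (nat_lit 0)) (xk T0.l11 T0.l11)
  (TrL.c (I.pos (nat_lit 0) (nat_lit 0)) T5.l7
  (TrL.c (I.mix (nat_lit 17240550) (nat_lit 96881482)) (xR T0.l8 (xR T0.l8 T0.l8))
  (TrL.c (I.mix (nat_lit 17240550) (nat_lit 71940500)) (xR T5.l9 (xR T5.l9 T5.l9))
  TrL.n)))))))) (by decide +kernel)
theorem sv3 : StarV sI cl9 cl13 cl6 t5 t0 t3 :=
  (bt_n (bt_n (bt_n (bt_b bx3_0) (bt_n (bt_b bx3_1) (bt_b bx3_2))) (bt_n (bt_b bx3_3) (bt_n (bt_b bx3_4) (bt_b bx3_5)))) (bt_n (bt_n (bt_b bx3_6) (bt_n (bt_b bx3_7) (bt_b bx3_8))) (bt_n (bt_b bx3_9) (bt_n (bt_b bx3_10) (bt_b bx3_11)))))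
def S3 : StarD := StarD.mk cl9 cl13 cl6 5 0 t3
theorem bx4_0 : BoxOK sI cl13 cl6 cl9 t1 t3 b4_0 :=
  box_mk (TrL.c (I.pos (nat_lit 0) (nat_lit 0)) (xa (xb (xa T1.l0 T1.l0) (xa (xb T1.l0 T1.l0) (xb T1.l0 T1.l0))) (xb T1.l0 (xa T1.l0 T1.l0)))
  (TrL.c (I.pos (nat_lit 0) (nat_lit 0)) (xa T3.l1 T3.l1)
  (TrL.c (I.pos (nat_lit 0) (nat_lit 134217730)) (xR T1.l1 (xR T1.l1 (xR T1.l1 T1.l1)))
  (TrL.c (I.pos (nat_lit 0) (nat_lit 110514882)) (xR T3.l2 (xR T3.l2 (xR T3.l2 T3.l2)))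
  (TrL.c (I.pos (nat_lit 0) (nat_lit 0)) (xa (xk (xb T3.l3 T3.l3) (xb T3.l3 T3.l3)) (xk (xb T3.l3 T3.l3) (xb T3.l3 (xa T3.l3 T3.l3))))
  (TrL.c (I.pos (nat_lit 0) (nat_lit 0)) T1.l2
  (TrL.c (I.mix (nat_lit 8088324) (nat_lit 110514882)) (xR T3.l4 (xR T3.l4 (xR T3.l4 T3.l4)))
  (TrL.c (I.mix (nat_lit 8088324) (nat_lit 89478486)) (xR T1.l3 (xR T1.l3 T1.l3))
  TrL.n)))))))) (by decide +kernel)
theorem bx4_1 : BoxOK sI cl13 cl6 cl9 t1 t3 b4_1 :=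
  box_mk (TrL.c (I.pos (nat_lit 0) (nat_lit 0)) (xa (xb T1.l4 T1.l4) T1.l4)
  (TrL.c (I.pos (nat_lit 0) (nat_lit 0)) T3.l1
  (TrL.c (I.pos (nat_lit 0) (nat_lit 134217730)) (xR T1.l1 T1.l1)
  (TrL.c (I.pos (nat_lit 0) (nat_lit 110514882)) (xR T3.l2 T3.l2)
  (TrL.c (I.pos (nat_lit 0) (nat_lit 0)) (xa T3.l5 (xk T3.l5 T3.l5))
  (TrL.c (I.pos (nat_lit 0) (nat_lit 0)) T1.l2
  (TrL.c (I.mix (nat_lit 8088324) (nat_lit 110514882)) (xR T3.l4 (xR T3.l4 (xR T3.l4 T3.l4)))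
  (TrL.c (I.mix (nat_lit 8088324) (nat_lit 89478486)) T1.l8
  TrL.n)))))))) (by decide +kernel)
theorem bx4_2 : BoxOK sI cl13 cl6 cl9 t1 t3 b4_2 :=
  box_mk (TrL.c (I.pos (nat_lit 0) (nat_lit 0)) (xa (xb T1.l4 T1.l4) T1.l4)
  (TrL.c (I.pos (nat_lit 0) (nat_lit 0)) T3.l1
  (TrL.c (I.pos (nat_lit 0) (nat_lit 134217730)) T1.l1
  (TrL.c (I.pos (nat_lit 0) (nat_lit 110514882)) T3.l4
  (TrL.c (I.pos (nat_lit 0) (nat_lit 0)) T3.l5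
  (TrL.c (I.pos (nat_lit 0) (nat_lit 0)) T1.l2
  (TrL.c (I.mix (nat_lit 8088324) (nat_lit 110514882)) T3.l4
  (TrL.c (I.mix (nat_lit 8088324) (nat_lit 89478486)) T1.l1
  TrL.n)))))))) (by decide +kernel)
theorem bx4_3 : BoxOK sI cl13 cl6 cl9 t1 t3 b4_3 :=
  box_mk (TrL.c (I.pos (nat_lit 0) (nat_lit 0)) (xb (xa T1.l11 T1.l11) (xa (xb T1.l11 T1.l11) (xb T1.l11 T1.l11)))
  (TrL.c (I.pos (nat_lit 0) (nat_lit 0)) T3.l1
  (TrL.c (I.pos (nat_lit 0) (nat_lit 134217730)) (xR T1.l1 (xR T1.l1 (xR T1.l1 T1.l8)))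
  (TrL.c (I.pos (nat_lit 0) (nat_lit 110514882)) (xR T3.l2 (xR T3.l2 (xR T3.l2 T3.l2)))
  (TrL.c (I.pos (nat_lit 0) (nat_lit 0)) (xk (xb T3.l11 T3.l3) (xb T3.l11 T3.l11))
  (TrL.c (I.pos (nat_lit 0) (nat_lit 0)) T1.l2
  (TrL.c (I.mix (nat_lit 8088324) (nat_lit 110514882)) (xR T3.l4 (xR T3.l4 (xR T3.l4 T3.l4)))
  (TrL.c (I.mix (nat_lit 8088324) (nat_lit 89478486)) (xR T1.l3 (xR T1.l3 T1.l6))
  TrL.n)))))))) (by decide +kernel)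
theorem bx4_4 : BoxOK sI cl13 cl6 cl9 t1 t3 b4_4 :=
  box_mk (TrL.c (I.pos (nat_lit 0) (nat_lit 0)) (xa (xa (xb T1.l4 (xa T1.l4 T1.l4)) (xb T1.l4 T1.l4)) (xa T1.l4 T1.l4))
  (TrL.c (I.pos (nat_lit 0) (nat_lit 0)) (xa T3.l5 T3.l1)
  (TrL.c (I.pos (nat_lit 0) (nat_lit 134217730)) T1.l1
  (TrL.c (I.pos (nat_lit 0) (nat_lit 110514882)) (xR T3.l2 (xR T3.l2 T3.l2))
  (TrL.c (I.pos (nat_lit 0) (nat_lit 0)) (xa T3.l1 T3.l5)
  (TrL.c (I.pos (nat_lit 0) (nat_lit 0)) T1.l2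
  (TrL.c (I.mix (nat_lit 8088324) (nat_lit 110514882)) T3.l4
  (TrL.c (I.mix (nat_lit 8088324) (nat_lit 89478486)) T1.l8
  TrL.n)))))))) (by decide +kernel)
theorem bx4_5 : BoxOK sI cl13 cl6 cl9 t1 t3 b4_5 :=
  box_mk (TrL.c (I.pos (nat_lit 0) (nat_lit 0)) (xa (xa (xb T1.l4 T1.l4) T1.l4) (xa T1.l4 (xb T1.l4 T1.l4)))
  (TrL.c (I.pos (nat_lit 0) (nat_lit 0)) (xa T3.l1 T3.l1)
  (TrL.c (I.pos (nat_lit 0) (nat_lit 134217730)) T1.l1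
  (TrL.c (I.pos (nat_lit 0) (nat_lit 110514882)) (xR T3.l2 T3.l2)
  (TrL.c (I.pos (nat_lit 0) (nat_lit 0)) (xa T3.l5 T3.l5)
  (TrL.c (I.pos (nat_lit 0) (nat_lit 0)) T1.l2
  (TrL.c (I.mix (nat_lit 8088324) (nat_lit 110514882)) T3.l4
  (TrL.c (I.mix (nat_lit 8088324) (nat_lit 89478486)) T1.l3
  TrL.n)))))))) (by decide +kernel)
theorem bx4_6 : BoxOK sI cl13 cl6 cl9 t1 t3 b4_6 :=
  box_mk (TrL.c (I.pos (nat_lit 0) (nat_lit 0)) (xb T1.l4 (xa T1.l4 T1.l4))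
  (TrL.c (I.pos (nat_lit 0) (nat_lit 0)) T3.l1
  (TrL.c (I.pos (nat_lit 0) (nat_lit 134217730)) T1.l8
  (TrL.c (I.pos (nat_lit 0) (nat_lit 110514882)) (xR T3.l2 T3.l2)
  (TrL.c (I.pos (nat_lit 0) (nat_lit 0)) (xb T3.l5 T3.l5)
  (TrL.c (I.pos (nat_lit 0) (nat_lit 0)) T1.l2
  (TrL.c (I.mix (nat_lit 8088324) (nat_lit 110514882)) T3.l4
  (TrL.c (I.mix (nat_lit 8088324) (nat_lit 89478486)) T1.l3
  TrL.n)))))))) (by decide +kernel)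
theorem bx4_7 : BoxOK sI cl13 cl6 cl9 t1 t3 b4_7 :=
  box_mk (TrL.c (I.pos (nat_lit 0) (nat_lit 0)) (xa (xb (xa T1.l4 T1.l4) T1.l4) T1.l4)
  (TrL.c (I.pos (nat_lit 0) (nat_lit 0)) T3.l5
  (TrL.c (I.pos (nat_lit 0) (nat_lit 134217730)) (xR T1.l1 (xR T1.l1 T1.l1))
  (TrL.c (I.pos (nat_lit 0) (nat_lit 110514882)) T3.l4
  (TrL.c (I.pos (nat_lit 0) (nat_lit 0)) T3.l1
  (TrL.c (I.pos (nat_lit 0) (nat_lit 0)) T1.l2
  (TrL.c (I.mix (nat_lit 8088324) (nat_lit 110514882)) T3.l4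
  (TrL.c (I.mix (nat_lit 8088324) (nat_lit 89478486)) T1.l1
  TrL.n)))))))) (by decide +kernel)
theorem bx4_8 : BoxOK sI cl13 cl6 cl9 t1 t3 b4_8 :=
  box_mk (TrL.c (I.pos (nat_lit 0) (nat_lit 0)) (xa (xb T1.l0 T1.l11) T1.l0)
  (TrL.c (I.pos (nat_lit 0) (nat_lit 0)) T3.l1
  (TrL.c (I.pos (nat_lit 0) (nat_lit 134217730)) (xR T1.l1 T1.l1)
  (TrL.c (I.pos (nat_lit 0) (nat_lit 110514882)) (xR T3.l2 T3.l2)
  (TrL.c (I.pos (nat_lit 0) (nat_lit 0)) (xk (xa T3.l11 (xb T3.l3 T3.l11)) (xa T3.l11 (xb T3.l3 T3.l11)))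
  (TrL.c (I.pos (nat_lit 0) (nat_lit 0)) T1.l2
  (TrL.c (I.mix (nat_lit 8088324) (nat_lit 110514882)) (xR T3.l4 (xR T3.l4 T3.l4))
  (TrL.c (I.mix (nat_lit 8088324) (nat_lit 89478486)) (xR T1.l3 (xR T1.l3 T1.l3))
  TrL.n)))))))) (by decide +kernel)
theorem bx4_9 : BoxOK sI cl13 cl6 cl9 t1 t3 b4_9 :=
  box_mk (TrL.c (I.pos (nat_lit 0) (nat_lit 0)) (xa (xb T1.l0 (xa T1.l0 T1.l0)) (xb T1.l0 (xa T1.l0 T1.l0)))
  (TrL.c (I.pos (nat_lit 0) (nat_lit 0)) (xa T3.l1 (xk T3.l7 T3.l1))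
  (TrL.c (I.pos (nat_lit 0) (nat_lit 134217730)) (xR T1.l1 T1.l8)
  (TrL.c (I.pos (nat_lit 0) (nat_lit 110514882)) (xR T3.l2 (xR T3.l2 (xR T3.l2 T3.l2)))
  (TrL.c (I.pos (nat_lit 0) (nat_lit 0)) (xa (xk (xb (xa T3.l3 T3.l3) T3.l3) (xb (xa T3.l3 T3.l3) T3.l3)) (xk (xb (xa T3.l3 T3.l3) (xa T3.l3 T3.l3)) (xb (xa T3.l3 T3.l3) (xa T3.l3 T3.l3))))
  (TrL.c (I.pos (nat_lit 0) (nat_lit 0)) (xk T1.l2 T1.l2)
  (TrL.c (I.mix (nat_lit 8088324) (nat_lit 110514882)) (xR T3.l4 (xR T3.l4 (xR T3.l4 T3.l4)))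
  (TrL.c (I.mix (nat_lit 8088324) (nat_lit 89478486)) (xR T1.l3 (xR T1.l3 T1.l3))
  TrL.n)))))))) (by decide +kernel)
theorem bx4_10 : BoxOK sI cl13 cl6 cl9 t1 t3 b4_10 :=
  box_mk (TrL.c (I.pos (nat_lit 0) (nat_lit 0)) (xa (xb T1.l0 T1.l0) (xb T1.l0 (xa T1.l0 T1.l0)))
  (TrL.c (I.pos (nat_lit 0) (nat_lit 0)) T3.l1
  (TrL.c (I.pos (nat_lit 0) (nat_lit 134217730)) (xR T1.l1 (xR T1.l1 T1.l8))
  (TrL.c (I.pos (nat_lit 0) (nat_lit 110514882)) (xR T3.l2 (xR T3.l2 (xR T3.l2 T3.l2)))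
  (TrL.c (I.pos (nat_lit 0) (nat_lit 0)) (xk (xa (xb T3.l11 T3.l11) (xb T3.l3 (xs (xb T3.l3 (xk T3.l11 T3.l11)) (xb (xk T3.l11 T3.l11) (xk T3.l11 T3.l11))))) (xa (xb T3.l3 (xb T3.l11 T3.l11)) (xb (xb T3.l11 T3.l11) (xs (xb T3.l11 (xk T3.l11 T3.l11)) (xb T3.l11 (xk T3.l11 (xa T3.l11 T3.l11)))))))
  (TrL.c (I.pos (nat_lit 0) (nat_lit 0)) T1.l2
  (TrL.c (I.mix (nat_lit 8088324) (nat_lit 110514882)) (xR T3.l4 (xR T3.l4 T3.l4))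
  (TrL.c (I.mix (nat_lit 8088324) (nat_lit 89478486)) (xR T1.l3 (xR T1.l3 T1.l3))
  TrL.n)))))))) (by decide +kernel)
theorem bx4_11 : BoxOK sI cl13 cl6 cl9 t1 t3 b4_11 :=
  box_mk (TrL.c (I.pos (nat_lit 0) (nat_lit 0)) (xa (xb T1.l11 T1.l11) T1.l11)
  (TrL.c (I.pos (nat_lit 0) (nat_lit 0)) T3.l1
  (TrL.c (I.pos (nat_lit 0) (nat_lit 134217730)) (xR T1.l1 T1.l8)
  (TrL.c (I.pos (nat_lit 0) (nat_lit 110514882)) (xR T3.l2 (xR T3.l2 T3.l2))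
  (TrL.c (I.pos (nat_lit 0) (nat_lit 0)) (xk (xb T3.l11 T3.l11) (xb T3.l11 T3.l11))
  (TrL.c (I.pos (nat_lit 0) (nat_lit 0)) T1.l2
  (TrL.c (I.mix (nat_lit 8088324) (nat_lit 110514882)) (xR T3.l4 (xR T3.l4 (xR T3.l4 T3.l4)))
  (TrL.c (I.mix (nat_lit 8088324) (nat_lit 89478486)) (xR T1.l3 (xR T1.l3 T1.l6))
  TrL.n)))))))) (by decide +kernel)
theorem sv4 : StarV sI cl13 cl6 cl9 t1 t3 t4 :=
  (bt_n (bt_n (bt_n (bt_b bx4_0) (bt_n (bt_b bx4_1) (bt_b bx4_2))) (bt_n (bt_b bx4_3) (bt_n (bt_b bx4_4) (bt_b bx4_5)))) (bt_n (bt_n (bt_b bx4_6) (bt_n (bt_b bx4_7) (bt_b bx4_8))) (bt_n (bt_b bx4_9) (bt_n (bt_b bx4_10) (bt_b bx4_11)))))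
def S4 : StarD := StarD.mk cl13 cl6 cl9 1 3 t4
theorem bx5_0 : BoxOK sI cl13 cl9 cl6 t3 t1 b5_0 :=
  box_mk (TrL.c (I.pos (nat_lit 0) (nat_lit 0)) (xa (xb (xa (xb T3.l0 T3.l0) (xb T3.l0 T3.l0)) (xa (xb T3.l0 T3.l0) (xb T3.l0 T3.l0))) (xb (xa (xb (xa T3.l0 T3.l0) T3.l0) (xb (xa T3.l0 T3.l0) T3.l0)) (xa (xb T3.l0 T3.l0) (xb (xs T3.l0 T3.l0) (xs T3.l0 T3.l0)))))
  (TrL.c (I.pos (nat_lit 0) (nat_lit 0)) (xa (xk T1.l5 T1.l5) (xk T1.l5 T1.l5))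
  (TrL.c (I.pos (nat_lit 0) (nat_lit 134217730)) (xR T3.l4 (xR T3.l4 (xR T3.l6 T3.l6)))
  (TrL.c (I.pos (nat_lit 0) (nat_lit 110514882)) (xR T1.l3 (xR T1.l6 (xR T1.l6 T1.l6)))
  (TrL.c (I.pos (nat_lit 0) (nat_lit 0)) (xa (xk (xb T1.l7 T1.l7) (xb T1.l7 (xb T1.l7 T1.l7))) (xk (xb (xa T1.l7 T1.l7) (xa (xb T1.l7 T1.l7) (xb T1.l7 (xs T1.l7 (xk (xb T1.l7 T1.l7) (xb T1.l7 (xa T1.l7 T1.l7))))))) (xb (xa T1.l7 T1.l7) (xb (xa T1.l7 (xs T1.l7 (xk T1.l7 T1.l7))) (xa (xs T1.l7 (xk T1.l7 T1.l7)) (xs (xk T1.l7 (xa T1.l7 T1.l7)) (xk (xb T1.l7 (xa T1.l7 T1.l7)) (xb T1.l7 (xa T1.l7 (xd T1.l7 T1.l7))))))))))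
  (TrL.c (I.pos (nat_lit 0) (nat_lit 0)) T3.l7
  (TrL.c (I.mix (nat_lit 8088324) (nat_lit 110514882)) (xR T1.l8 (xR T1.l8 (xR T1.l8 T1.l8)))
  (TrL.c (I.mix (nat_lit 8088324) (nat_lit 89478486)) (xR T3.l2 (xR T3.l2 T3.l8))
  TrL.n)))))))) (by decide +kernel)
theorem bx5_1 : BoxOK sI cl13 cl9 cl6 t3 t1 b5_1 :=
  box_mk (TrL.c (I.pos (nat_lit 0) (nat_lit 0)) (xa (xb T3.l9 (xa T3.l9 T3.l9)) (xb T3.l0 T3.l0))
  (TrL.c (I.pos (nat_lit 0) (nat_lit 0)) (xa T1.l5 T1.l5)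
  (TrL.c (I.pos (nat_lit 0) (nat_lit 134217730)) (xR T3.l4 T3.l4)
  (TrL.c (I.pos (nat_lit 0) (nat_lit 110514882)) (xR T1.l1 (xR T1.l6 T1.l6))
  (TrL.c (I.pos (nat_lit 0) (nat_lit 0)) (xa (xb T1.l9 T1.l9) (xk (xb T1.l9 T1.l10) (xb T1.l9 T1.l9)))
  (TrL.c (I.pos (nat_lit 0) (nat_lit 0)) T3.l7
  (TrL.c (I.mix (nat_lit 8088324) (nat_lit 110514882)) (xR T1.l8 (xR T1.l8 T1.l8))
  (TrL.c (I.mix (nat_lit 8088324) (nat_lit 89478486)) T3.l2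
  TrL.n)))))))) (by decide +kernel)
theorem bx5_2 : BoxOK sI cl13 cl9 cl6 t3 t1 b5_2 :=
  box_mk (TrL.c (I.pos (nat_lit 0) (nat_lit 0)) (xa (xa T3.l9 T3.l9) T3.l9)
  (TrL.c (I.pos (nat_lit 0) (nat_lit 0)) (xa T1.l5 T1.l5)
  (TrL.c (I.pos (nat_lit 0) (nat_lit 134217730)) (xR T3.l4 (xR T3.l4 T3.l6))
  (TrL.c (I.pos (nat_lit 0) (nat_lit 110514882)) (xR T1.l1 (xR T1.l6 T1.l6))
  (TrL.c (I.pos (nat_lit 0) (nat_lit 0)) (xa T1.l9 T1.l9)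
  (TrL.c (I.pos (nat_lit 0) (nat_lit 0)) T3.l7
  (TrL.c (I.mix (nat_lit 8088324) (nat_lit 110514882)) T1.l8
  (TrL.c (I.mix (nat_lit 8088324) (nat_lit 89478486)) T3.l4
  TrL.n)))))))) (by decide +kernel)
theorem bx5_3 : BoxOK sI cl13 cl9 cl6 t3 t1 b5_3 :=
  box_mk (TrL.c (I.pos (nat_lit 0) (nat_lit 0)) (xb (xa (xb T3.l10 T3.l10) (xb T3.l10 T3.l10)) (xa (xb (xa T3.l10 T3.l10) (xa T3.l10 T3.l10)) (xb (xa T3.l10 T3.l10) (xa T3.l10 T3.l10))))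
  (TrL.c (I.pos (nat_lit 0) (nat_lit 0)) (xk T1.l5 T1.l5)
  (TrL.c (I.pos (nat_lit 0) (nat_lit 134217730)) (xR T3.l4 (xR T3.l4 (xR T3.l6 T3.l6)))
  (TrL.c (I.pos (nat_lit 0) (nat_lit 110514882)) (xR T1.l3 (xR T1.l6 (xR T1.l6 T1.l6)))
  (TrL.c (I.pos (nat_lit 0) (nat_lit 0)) (xb (xk T1.l10 T1.l10) (xk (xb T1.l7 T1.l7) (xb T1.l7 (xa T1.l7 T1.l7))))
  (TrL.c (I.pos (nat_lit 0) (nat_lit 0)) T3.l7
  (TrL.c (I.mix (nat_lit 8088324) (nat_lit 110514882)) (xR T1.l8 (xR T1.l8 (xR T1.l8 T1.l8)))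
  (TrL.c (I.mix (nat_lit 8088324) (nat_lit 89478486)) (xR T3.l2 (xR T3.l2 T3.l8))
  TrL.n)))))))) (by decide +kernel)
theorem bx5_4 : BoxOK sI cl13 cl9 cl6 t3 t1 b5_4 :=
  box_mk (TrL.c (I.pos (nat_lit 0) (nat_lit 0)) (xa (xa (xb T3.l9 (xa T3.l9 T3.l9)) (xb T3.l9 T3.l9)) (xa (xb T3.l9 (xa T3.l9 T3.l9)) (xb T3.l9 (xa T3.l9 T3.l9))))
  (TrL.c (I.pos (nat_lit 0) (nat_lit 0)) (xa (xa T1.l5 T1.l5) T1.l5)
  (TrL.c (I.pos (nat_lit 0) (nat_lit 134217730)) (xR T3.l4 (xR T3.l4 T3.l6))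
  (TrL.c (I.pos (nat_lit 0) (nat_lit 110514882)) (xR T1.l1 (xR T1.l6 (xR T1.l6 T1.l6)))
  (TrL.c (I.pos (nat_lit 0) (nat_lit 0)) (xa T1.l9 T1.l9)
  (TrL.c (I.pos (nat_lit 0) (nat_lit 0)) T3.l7
  (TrL.c (I.mix (nat_lit 8088324) (nat_lit 110514882)) (xR T1.l8 T1.l8)
  (TrL.c (I.mix (nat_lit 8088324) (nat_lit 89478486)) T3.l4
  TrL.n)))))))) (by decide +kernel)
theorem bx5_5 : BoxOK sI cl13 cl9 cl6 t3 t1 b5_5 :=
  box_mk (TrL.c (I.pos (nat_lit 0) (nat_lit 0)) (xa (xb T3.l0 T3.l0) T3.l0)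
  (TrL.c (I.pos (nat_lit 0) (nat_lit 0)) T1.l5
  (TrL.c (I.pos (nat_lit 0) (nat_lit 134217730)) (xR T3.l4 T3.l4)
  (TrL.c (I.pos (nat_lit 0) (nat_lit 110514882)) (xR T1.l3 (xR T1.l6 T1.l6))
  (TrL.c (I.pos (nat_lit 0) (nat_lit 0)) (xk (xa T1.l10 T1.l7) (xa T1.l10 T1.l10))
  (TrL.c (I.pos (nat_lit 0) (nat_lit 0)) T3.l7
  (TrL.c (I.mix (nat_lit 8088324) (nat_lit 110514882)) (xR T1.l8 (xR T1.l8 T1.l8))
  (TrL.c (I.mix (nat_lit 8088324) (nat_lit 89478486)) T3.l2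
  TrL.n)))))))) (by decide +kernel)
theorem bx5_6 : BoxOK sI cl13 cl9 cl6 t3 t1 b5_6 :=
  box_mk (TrL.c (I.pos (nat_lit 0) (nat_lit 0)) (xa T3.l9 (xa T3.l9 T3.l9))
  (TrL.c (I.pos (nat_lit 0) (nat_lit 0)) T1.l5
  (TrL.c (I.pos (nat_lit 0) (nat_lit 134217730)) (xR T3.l4 (xR T3.l4 T3.l6))
  (TrL.c (I.pos (nat_lit 0) (nat_lit 110514882)) (xR T1.l1 T1.l6)
  (TrL.c (I.pos (nat_lit 0) (nat_lit 0)) T1.l9
  (TrL.c (I.pos (nat_lit 0) (nat_lit 0)) T3.l7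
  (TrL.c (I.mix (nat_lit 8088324) (nat_lit 110514882)) T1.l8
  (TrL.c (I.mix (nat_lit 8088324) (nat_lit 89478486)) T3.l2
  TrL.n)))))))) (by decide +kernel)
theorem bx5_7 : BoxOK sI cl13 cl9 cl6 t3 t1 b5_7 :=
  box_mk (TrL.c (I.pos (nat_lit 0) (nat_lit 0)) (xb (xa T3.l9 T3.l9) (xa T3.l9 T3.l9))
  (TrL.c (I.pos (nat_lit 0) (nat_lit 0)) T1.l5
  (TrL.c (I.pos (nat_lit 0) (nat_lit 134217730)) (xR T3.l4 T3.l4)
  (TrL.c (I.pos (nat_lit 0) (nat_lit 110514882)) (xR T1.l1 (xR T1.l6 T1.l6))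
  (TrL.c (I.pos (nat_lit 0) (nat_lit 0)) (xb (xk T1.l9 T1.l9) T1.l9)
  (TrL.c (I.pos (nat_lit 0) (nat_lit 0)) T3.l7
  (TrL.c (I.mix (nat_lit 8088324) (nat_lit 110514882)) (xR T1.l8 T1.l8)
  (TrL.c (I.mix (nat_lit 8088324) (nat_lit 89478486)) T3.l2
  TrL.n)))))))) (by decide +kernel)
theorem bx5_8 : BoxOK sI cl13 cl9 cl6 t3 t1 b5_8 :=
  box_mk (TrL.c (I.pos (nat_lit 0) (nat_lit 0)) (xa T3.l10 T3.l0)
  (TrL.c (I.pos (nat_lit 0) (nat_lit 0)) T1.l5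
  (TrL.c (I.pos (nat_lit 0) (nat_lit 134217730)) (xR T3.l4 T3.l4)
  (TrL.c (I.pos (nat_lit 0) (nat_lit 110514882)) (xR T1.l3 (xR T1.l6 T1.l6))
  (TrL.c (I.pos (nat_lit 0) (nat_lit 0)) (xk T1.l10 T1.l10)
  (TrL.c (I.pos (nat_lit 0) (nat_lit 0)) T3.l7
  (TrL.c (I.mix (nat_lit 8088324) (nat_lit 110514882)) (xR T1.l8 T1.l8)
  (TrL.c (I.mix (nat_lit 8088324) (nat_lit 89478486)) (xR T3.l2 T3.l2)
  TrL.n)))))))) (by decide +kernel)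
theorem bx5_9 : BoxOK sI cl13 cl9 cl6 t3 t1 b5_9 :=
  box_mk (TrL.c (I.pos (nat_lit 0) (nat_lit 0)) (xa (xa (xb T3.l9 T3.l9) T3.l9) T3.l9)
  (TrL.c (I.pos (nat_lit 0) (nat_lit 0)) (xa T1.l9 T1.l5)
  (TrL.c (I.pos (nat_lit 0) (nat_lit 134217730)) (xR T3.l4 (xR T3.l4 T3.l6))
  (TrL.c (I.pos (nat_lit 0) (nat_lit 110514882)) (xR T1.l1 (xR T1.l6 T1.l6))
  (TrL.c (I.pos (nat_lit 0) (nat_lit 0)) (xa T1.l9 T1.l9)
  (TrL.c (I.pos (nat_lit 0) (nat_lit 0)) T3.l7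
  (TrL.c (I.mix (nat_lit 8088324) (nat_lit 110514882)) T1.l8
  (TrL.c (I.mix (nat_lit 8088324) (nat_lit 89478486)) T3.l4
  TrL.n)))))))) (by decide +kernel)
theorem bx5_10 : BoxOK sI cl13 cl9 cl6 t3 t1 b5_10 :=
  box_mk (TrL.c (I.pos (nat_lit 0) (nat_lit 0)) (xa (xb T3.l0 T3.l0) (xb T3.l0 T3.l0))
  (TrL.c (I.pos (nat_lit 0) (nat_lit 0)) (xa T1.l5 (xk T1.l5 T1.l5))
  (TrL.c (I.pos (nat_lit 0) (nat_lit 134217730)) (xR T3.l4 (xR T3.l4 T3.l4))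
  (TrL.c (I.pos (nat_lit 0) (nat_lit 110514882)) (xR T1.l3 (xR T1.l3 (xR T1.l6 T1.l6)))
  (TrL.c (I.pos (nat_lit 0) (nat_lit 0)) (xa (xk (xb T1.l7 T1.l7) (xb T1.l7 T1.l7)) (xk (xb (xa T1.l7 T1.l7) (xa T1.l7 T1.l7)) (xb (xa T1.l7 T1.l7) (xa T1.l7 T1.l7))))
  (TrL.c (I.pos (nat_lit 0) (nat_lit 0)) (xk T3.l7 T3.l7)
  (TrL.c (I.mix (nat_lit 8088324) (nat_lit 110514882)) (xR T1.l8 (xR T1.l8 (xR T1.l8 T1.l8)))
  (TrL.c (I.mix (nat_lit 8088324) (nat_lit 89478486)) (xR T3.l2 (xR T3.l2 T3.l8))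
  TrL.n)))))))) (by decide +kernel)
theorem bx5_11 : BoxOK sI cl13 cl9 cl6 t3 t1 b5_11 :=
  box_mk (TrL.c (I.pos (nat_lit 0) (nat_lit 0)) (xa (xb T3.l0 T3.l0) (xb T3.l0 T3.l0))
  (TrL.c (I.pos (nat_lit 0) (nat_lit 0)) (xk T1.l5 T1.l5)
  (TrL.c (I.pos (nat_lit 0) (nat_lit 134217730)) (xR T3.l4 (xR T3.l4 T3.l6))
  (TrL.c (I.pos (nat_lit 0) (nat_lit 110514882)) (xR T1.l3 (xR T1.l6 T1.l6))
  (TrL.c (I.pos (nat_lit 0) (nat_lit 0)) (xk T1.l7 T1.l7)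
  (TrL.c (I.pos (nat_lit 0) (nat_lit 0)) T3.l7
  (TrL.c (I.mix (nat_lit 8088324) (nat_lit 110514882)) (xR T1.l8 (xR T1.l8 T1.l8))
  (TrL.c (I.mix (nat_lit 8088324) (nat_lit 89478486)) (xR T3.l2 (xR T3.l2 T3.l8))
  TrL.n)))))))) (by decide +kernel)
theorem sv5 : StarV sI cl13 cl9 cl6 t3 t1 t5 :=
  (bt_n (bt_n (bt_n (bt_b bx5_0) (bt_n (bt_b bx5_1) (bt_b bx5_2))) (bt_n (bt_b bx5_3) (bt_n (bt_b bx5_4) (bt_b bx5_5)))) (bt_n (bt_n (bt_b bx5_6) (bt_n (bt_b bx5_7) (bt_b bx5_8))) (bt_n (bt_b bx5_9) (bt_n (bt_b bx5_10) (bt_b bx5_11)))))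
def S5 : StarD := StarD.mk cl13 cl9 cl6 3 1 t5
def G : List StarD := [S0, S1, S2, S3, S4, S5]
theorem so0 : StarOK sI G S0 :=
  star_mk (by decide) (by decide) rfl rfl rfl rfl rfl rfl (rfl : _ = t2) (rfl : _ = t4)
  (st_mk (Pth.l (Pth.l (Pth.l Pth.z))) (nat_lit 116671865) (nat_lit 135368307) (by decide +kernel))
  (st_mk (Pth.l (Pth.l (Pth.l Pth.z))) (nat_lit 152687163) (nat_lit 171697668) (by decide +kernel))
  (st_mk (Pth.l (Pth.l (Pth.l Pth.z))) (nat_lit 194630112) (nat_lit 214064304) (by decide +kernel)) sv0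
theorem so1 : StarOK sI G S1 :=
  star_mk (by decide) (by decide) rfl rfl rfl rfl rfl rfl (rfl : _ = t4) (rfl : _ = t2)
  (st_mk (Pth.l (Pth.l (Pth.l Pth.z))) (nat_lit 97012843) (nat_lit 115689684) (by decide +kernel))
  (st_mk (Pth.l (Pth.l (Pth.l Pth.z))) (nat_lit 132936514) (nat_lit 151920546) (by decide +kernel))
  (st_mk (Pth.l (Pth.l (Pth.l Pth.z))) (nat_lit 174800814) (nat_lit 194202554) (by decide +kernel)) sv1
theorem so2 : StarOK sI G S2 :=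
  star_mk (by decide) (by decide) rfl rfl rfl rfl rfl rfl (rfl : _ = t0) (rfl : _ = t5)
  (st_mk (Pth.l (Pth.l (Pth.l Pth.z))) (nat_lit 186705566) (nat_lit 188197621) (by decide +kernel))
  (st_mk (Pth.l (Pth.l (Pth.l Pth.z))) (nat_lit 221958092) (nat_lit 223847570) (by decide +kernel))
  (st_mk (Pth.l (Pth.l (Pth.l Pth.z))) (nat_lit 262711287) (nat_lit 265148855) (by decide +kernel)) sv2
theorem so3 : StarOK sI G S3 :=
  star_mk (by decide) (by decide) rfl rfl rfl rfl rfl rfl (rfl : _ = t5) (rfl : _ = t0)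
  (st_mk (Pth.l (Pth.l (Pth.l Pth.z))) (nat_lit 96142192) (nat_lit 114705443) (by decide +kernel))
  (st_mk (Pth.l (Pth.l (Pth.l Pth.z))) (nat_lit 131305086) (nat_lit 150209523) (by decide +kernel))
  (st_mk (Pth.l (Pth.l (Pth.l Pth.z))) (nat_lit 171980419) (nat_lit 191384504) (by decide +kernel)) sv3
theorem so4 : StarOK sI G S4 :=
  star_mk (by decide) (by decide) rfl rfl rfl rfl rfl rfl (rfl : _ = t1) (rfl : _ = t3)
  (st_mk (Pth.l (Pth.l (Pth.l Pth.z))) (nat_lit 185843017) (nat_lit 187272489) (by decide +kernel))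
  (st_mk (Pth.l (Pth.l (Pth.l Pth.z))) (nat_lit 220739626) (nat_lit 222535768) (by decide +kernel))
  (st_mk (Pth.l (Pth.l (Pth.l Pth.z))) (nat_lit 261004945) (nat_lit 263303744) (by decide +kernel)) sv4
theorem so5 : StarOK sI G S5 :=
  star_mk (by decide) (by decide) rfl rfl rfl rfl rfl rfl (rfl : _ = t3) (rfl : _ = t1)
  (st_mk (Pth.l (Pth.l (Pth.l Pth.z))) (nat_lit 115089857) (nat_lit 133558847) (by decide +kernel))
  (st_mk (Pth.l (Pth.l (Pth.l Pth.z))) (nat_lit 149986467) (nat_lit 168772957) (by decide +kernel))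
  (st_mk (Pth.l (Pth.l (Pth.l Pth.z))) (nat_lit 190251785) (nat_lit 209498190) (by decide +kernel)) sv5
theorem ok : GroupOK (nat_lit 209321984) (nat_lit 268435456) G := grp_mk (allS_c so0 (allS_c so1 (allS_c so2 (allS_c so3 (allS_c so4 (allS_c so5 allS_n))))))
theorem cov : GCov G cl6 cl9 cl13 := cov_mk
  ⟨0, by decide, rfl, rfl, rfl⟩ ⟨1, by decide, rfl, rfl, rfl⟩ ⟨2, by decide, rfl, rfl, rfl⟩ ⟨3, by decide, rfl, rfl, rfl⟩ ⟨4, by decide, rfl, rfl, rfl⟩ ⟨5, by decide, rfl, rfl, rfl⟩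
end Q356_3

namespace Q366_0
def sI : I := I.pos (nat_lit 0) (nat_lit 91291648)
def b0_0 : Bx := Bx.mk (St.mk (I.pos (nat_lit 157007872) (nat_lit 281509888)) (I.mix (nat_lit 24969216) (nat_lit 56868864)) (I.mix (nat_lit 76136448) (nat_lit 87965696)) (I.pos (nat_lit 90062848) (nat_lit 316325888)) (I.mix (nat_lit 86032384) (nat_lit 58163200)) (I.mix (nat_lit 89456640) (nat_lit 57556992)) (I.mix (nat_lit 140050432) (nat_lit 75153408)))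
  false (nat_lit 4107321)
def b0_1 : Bx := Bx.mk (St.mk (I.mix (nat_lit 9306112) (nat_lit 142835712)) (I.mix (nat_lit 7602176) (nat_lit 25788416)) (I.mix (nat_lit 15138816) (nat_lit 18956288)) (I.mix (nat_lit 3194880) (nat_lit 90832896)) (I.mix (nat_lit 21741568) (nat_lit 17973248)) (I.mix (nat_lit 20037632) (nat_lit 13238272)) (I.mix (nat_lit 17137664) (nat_lit 9977856)))
  false (nat_lit 0)
def b0_2 : Bx := Bx.mk (St.mk (I.pos (nat_lit 118489088) (nat_lit 160169984)) (I.mix (nat_lit 49250304) (nat_lit 6799360)) (I.mix (nat_lit 58179584) (nat_lit 1474560)) (I.pos (nat_lit 53641216) (nat_lit 110985216)) (I.mix (nat_lit 76414976) (nat_lit 21921792)) (I.mix (nat_lit 38010880) (nat_lit 83918848)) (I.mix (nat_lit 32735232) (nat_lit 80134144)))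
  false (nat_lit 0)
def b0_3 : Bx := Bx.mk (St.mk (I.mix (nat_lit 13107200) (nat_lit 106577920)) (I.mix (nat_lit 22691840) (nat_lit 2637824)) (I.mix (nat_lit 19873792) (nat_lit 1130496)) (I.mix (nat_lit 2244608) (nat_lit 57884672)) (I.mix (nat_lit 28622848) (nat_lit 11026432)) (I.mix (nat_lit 15728640) (nat_lit 28377088)) (I.mix (nat_lit 9388032) (nat_lit 18251776)))
  false (nat_lit 0)
def b0_4 : Bx := Bx.mk (St.mk (I.pos (nat_lit 124452864) (nat_lit 182632448)) (I.mix (nat_lit 52428800) (nat_lit 540672)) (I.neg (nat_lit 5472256) (nat_lit 62455808)) (I.pos (nat_lit 72761344) (nat_lit 141426688)) (I.mix (nat_lit 64487424) (nat_lit 36405248)) (I.mix (nat_lit 36798464) (nat_lit 64765952)) (I.mix (nat_lit 33210368) (nat_lit 69844992)))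
  false (nat_lit 0)
def b0_5 : Bx := Bx.mk (St.mk (I.mix (nat_lit 20316160) (nat_lit 115589120)) (I.mix (nat_lit 26738688) (nat_lit 6389760)) (I.mix (nat_lit 23232512) (nat_lit 966656)) (I.mix (nat_lit 2244608) (nat_lit 65470464)) (I.mix (nat_lit 28246016) (nat_lit 24199168)) (I.mix (nat_lit 21643264) (nat_lit 33308672)) (I.mix (nat_lit 14450688) (nat_lit 24559616)))
  false (nat_lit 0)
def b0_6 : Bx := Bx.mk (St.mk (I.mix (nat_lit 13500416) (nat_lit 135757824)) (I.mix (nat_lit 12812288) (nat_lit 33177600)) (I.mix (nat_lit 13598720) (nat_lit 23789568)) (I.mix (nat_lit 2965504) (nat_lit 83001344)) (I.mix (nat_lit 43089920) (nat_lit 23756800)) (I.mix (nat_lit 47284224) (nat_lit 30687232)) (I.mix (nat_lit 33587200) (nat_lit 21135360)))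
  false (nat_lit 0)
def b0_7 : Bx := Bx.mk (St.mk (I.pos (nat_lit 160874496) (nat_lit 225558528)) (I.mix (nat_lit 43335680) (nat_lit 58458112)) (I.mix (nat_lit 53297152) (nat_lit 86540288)) (I.pos (nat_lit 104005632) (nat_lit 203472896)) (I.mix (nat_lit 118341632) (nat_lit 52477952)) (I.mix (nat_lit 147521536) (nat_lit 77742080)) (I.mix (nat_lit 181010432) (nat_lit 90374144)))
  false (nat_lit 0)
def t0 : BTr := (BTr.n (BTr.n (BTr.n (BTr.b b0_0) (BTr.b b0_1)) (BTr.n (BTr.b b0_2) (BTr.b b0_3))) (BTr.n (BTr.n (BTr.b b0_4) (BTr.b b0_5)) (BTr.n (BTr.b b0_6) (BTr.b b0_7))))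
namespace T0
def l0 : Tr := Tr.L (Pth.l (Pth.l (Pth.l Pth.z)))
def l1 : Tr := Tr.L (Pth.l (Pth.l (Pth.r Pth.z)))
def l2 : Tr := Tr.L (Pth.l (Pth.r (Pth.l Pth.z)))
def l3 : Tr := Tr.L (Pth.l (Pth.r (Pth.r Pth.z)))
def l4 : Tr := Tr.L (Pth.r (Pth.l (Pth.l Pth.z)))
def l5 : Tr := Tr.L (Pth.r (Pth.l (Pth.r Pth.z)))
def l6 : Tr := Tr.L (Pth.r (Pth.r (Pth.l Pth.z)))
def l7 : Tr := Tr.L (Pth.r (Pth.r (Pth.r Pth.z)))
end T0
def b1_0 : Bx := Bx.mk (St.mk (I.pos (nat_lit 157089792) (nat_lit 278478848)) (I.mix (nat_lit 19382272) (nat_lit 68091904)) (I.mix (nat_lit 67387392) (nat_lit 106627072)) (I.pos (nat_lit 179765248) (nat_lit 375439360)) (I.mix (nat_lit 101367808) (nat_lit 72433664)) (I.mix (nat_lit 102383616) (nat_lit 66355200)) (I.mix (nat_lit 146423808) (nat_lit 84312064)))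
  false (nat_lit 84644227)
def b1_1 : Bx := Bx.mk (St.mk (I.pos (nat_lit 100564992) (nat_lit 160153600)) (I.neg (nat_lit 7159808) (nat_lit 60866560)) (I.neg (nat_lit 933888) (nat_lit 54345728)) (I.pos (nat_lit 132268032) (nat_lit 184877056)) (I.mix (nat_lit 59572224) (nat_lit 36880384)) (I.mix (nat_lit 30097408) (nat_lit 59179008)) (I.mix (nat_lit 26214400) (nat_lit 51658752)))
  false (nat_lit 0)
def b1_2 : Bx := Bx.mk (St.mk (I.mix (nat_lit 37076992) (nat_lit 95895552)) (I.mix (nat_lit 5816320) (nat_lit 42156032)) (I.mix (nat_lit 14172160) (nat_lit 18808832)) (I.pos (nat_lit 76201984) (nat_lit 123092992)) (I.mix (nat_lit 32620544) (nat_lit 34635776)) (I.mix (nat_lit 41795584) (nat_lit 25853952)) (I.mix (nat_lit 26230784) (nat_lit 16220160)))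
  false (nat_lit 0)
def b1_3 : Bx := Bx.mk (St.mk (I.mix (nat_lit 29933568) (nat_lit 45711360)) (I.mix (nat_lit 33882112) (nat_lit 4947968)) (I.mix (nat_lit 12582912) (nat_lit 3211264)) (I.pos (nat_lit 82018304) (nat_lit 99975168)) (I.mix (nat_lit 21561344) (nat_lit 23150592)) (I.mix (nat_lit 16646144) (nat_lit 29523968)) (I.mix (nat_lit 7258112) (nat_lit 10240000)))
  false (nat_lit 0)
def b1_4 : Bx := Bx.mk (St.mk (I.pos (nat_lit 145555456) (nat_lit 215007232)) (I.mix (nat_lit 38076416) (nat_lit 70189056)) (I.mix (nat_lit 32276480) (nat_lit 101892096)) (I.pos (nat_lit 171556864) (nat_lit 255868928)) (I.mix (nat_lit 117932032) (nat_lit 52330496)) (I.mix (nat_lit 130072576) (nat_lit 70320128)) (I.mix (nat_lit 132349952) (nat_lit 65699840)))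
  false (nat_lit 55509367)
def b1_5 : Bx := Bx.mk (St.mk (I.pos (nat_lit 83689472) (nat_lit 126173184)) (I.mix (nat_lit 59621376) (nat_lit 6586368)) (I.neg (nat_lit 2490368) (nat_lit 52805632)) (I.pos (nat_lit 115425280) (nat_lit 147898368)) (I.mix (nat_lit 66420736) (nat_lit 26329088)) (I.mix (nat_lit 35110912) (nat_lit 66486272)) (I.mix (nat_lit 24985600) (nat_lit 46776320)))
  false (nat_lit 0)
def b1_6 : Bx := Bx.mk (St.mk (I.mix (nat_lit 46940160) (nat_lit 72269824)) (I.mix (nat_lit 8339456) (nat_lit 39927808)) (I.mix (nat_lit 14614528) (nat_lit 14270464)) (I.pos (nat_lit 81756160) (nat_lit 108789760)) (I.mix (nat_lit 31719424) (nat_lit 26853376)) (I.mix (nat_lit 29917184) (nat_lit 23216128)) (I.mix (nat_lit 12058624) (nat_lit 11452416)))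
  false (nat_lit 0)
def b1_7 : Bx := Bx.mk (St.mk (I.mix (nat_lit 45940736) (nat_lit 28917760)) (I.mix (nat_lit 33275904) (nat_lit 4521984)) (I.mix (nat_lit 10240000) (nat_lit 4538368)) (I.pos (nat_lit 82427904) (nat_lit 99631104)) (I.mix (nat_lit 25559040) (nat_lit 18595840)) (I.mix (nat_lit 16400384) (nat_lit 29392896)) (I.mix (nat_lit 10469376) (nat_lit 6504448)))
  false (nat_lit 0)
def t1 : BTr := (BTr.n (BTr.n (BTr.n (BTr.b b1_0) (BTr.b b1_1)) (BTr.n (BTr.b b1_2) (BTr.b b1_3))) (BTr.n (BTr.n (BTr.b b1_4) (BTr.b b1_5)) (BTr.n (BTr.b b1_6) (BTr.b b1_7))))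
namespace T1
def l0 : Tr := Tr.L (Pth.l (Pth.l (Pth.l Pth.z)))
def l1 : Tr := Tr.L (Pth.l (Pth.l (Pth.r Pth.z)))
def l2 : Tr := Tr.L (Pth.l (Pth.r (Pth.l Pth.z)))
def l3 : Tr := Tr.L (Pth.l (Pth.r (Pth.r Pth.z)))
def l4 : Tr := Tr.L (Pth.r (Pth.l (Pth.l Pth.z)))
def l5 : Tr := Tr.L (Pth.r (Pth.l (Pth.r Pth.z)))
def l6 : Tr := Tr.L (Pth.r (Pth.r (Pth.l Pth.z)))
def l7 : Tr := Tr.L (Pth.r (Pth.r (Pth.r Pth.z)))
end T1
def b2_0 : Bx := Bx.mk (St.mk (I.pos (nat_lit 157122560) (nat_lit 277790720)) (I.mix (nat_lit 19136512) (nat_lit 53116928)) (I.mix (nat_lit 19529728) (nat_lit 112787456)) (I.pos (nat_lit 89817088) (nat_lit 302514176)) (I.mix (nat_lit 98238464) (nat_lit 70287360)) (I.mix (nat_lit 106512384) (nat_lit 71958528)) (I.mix (nat_lit 162840576) (nat_lit 96485376)))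
  false (nat_lit 46975780)
def b2_1 : Bx := Bx.mk (St.mk (I.pos (nat_lit 128548864) (nat_lit 188055552)) (I.neg (nat_lit 4390912) (nat_lit 57475072)) (I.mix (nat_lit 50446336) (nat_lit 10567680)) (I.pos (nat_lit 78053376) (nat_lit 147177472)) (I.mix (nat_lit 55967744) (nat_lit 31031296)) (I.mix (nat_lit 29966336) (nat_lit 48726016)) (I.mix (nat_lit 27115520) (nat_lit 50954240)))
  false (nat_lit 0)
def b2_2 : Bx := Bx.mk (St.mk (I.mix (nat_lit 20971520) (nat_lit 118505472)) (I.mix (nat_lit 28377088) (nat_lit 4866048)) (I.mix (nat_lit 16531456) (nat_lit 8814592)) (I.mix (nat_lit 2523136) (nat_lit 67403776)) (I.mix (nat_lit 24313856) (nat_lit 19873792)) (I.mix (nat_lit 17317888) (nat_lit 23183360)) (I.mix (nat_lit 11272192) (nat_lit 16220160)))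
  false (nat_lit 0)
def b2_3 : Bx := Bx.mk (St.mk (I.pos (nat_lit 162381824) (nat_lit 221986816)) (I.mix (nat_lit 37076992) (nat_lit 57442304)) (I.mix (nat_lit 26689536) (nat_lit 107642880)) (I.pos (nat_lit 103890944) (nat_lit 194838528)) (I.mix (nat_lit 126550016) (nat_lit 50266112)) (I.mix (nat_lit 153731072) (nat_lit 73646080)) (I.mix (nat_lit 195297280) (nat_lit 79708160)))
  false (nat_lit 23119949)
def b2_4 : Bx := Bx.mk (St.mk (I.mix (nat_lit 14188544) (nat_lit 133824512)) (I.mix (nat_lit 12058624) (nat_lit 32620544)) (I.mix (nat_lit 4440064) (nat_lit 33406976)) (I.mix (nat_lit 2899968) (nat_lit 80609280)) (I.mix (nat_lit 46465024) (nat_lit 20070400)) (I.mix (nat_lit 48644096) (nat_lit 26574848)) (I.mix (nat_lit 37470208) (nat_lit 17596416)))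
  false (nat_lit 0)
def b2_5 : Bx := Bx.mk (St.mk (I.pos (nat_lit 36814848) (nat_lit 138772480)) (I.mix (nat_lit 5603328) (nat_lit 25509888)) (I.mix (nat_lit 851968) (nat_lit 30326784)) (I.pos (nat_lit 11567104) (nat_lit 87851008)) (I.mix (nat_lit 33406976) (nat_lit 24199168)) (I.mix (nat_lit 36290560) (nat_lit 22708224)) (I.mix (nat_lit 31834112) (nat_lit 17121280)))
  false (nat_lit 0)
def b2_6 : Bx := Bx.mk (St.mk (I.pos (nat_lit 120700928) (nat_lit 166035456)) (I.mix (nat_lit 53886976) (nat_lit 6782976)) (I.mix (nat_lit 46923776) (nat_lit 13451264)) (I.pos (nat_lit 55541760) (nat_lit 116441088)) (I.mix (nat_lit 74203136) (nat_lit 27262976)) (I.mix (nat_lit 43614208) (nat_lit 82837504)) (I.mix (nat_lit 37863424) (nat_lit 72007680)))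
  false (nat_lit 0)
def b2_7 : Bx := Bx.mk (St.mk (I.mix (nat_lit 11829248) (nat_lit 109166592)) (I.mix (nat_lit 23740416) (nat_lit 999424)) (I.mix (nat_lit 13025280) (nat_lit 6979584)) (I.mix (nat_lit 2064384) (nat_lit 59342848)) (I.mix (nat_lit 26705920) (nat_lit 16826368)) (I.mix (nat_lit 19005440) (nat_lit 28835840)) (I.mix (nat_lit 11010048) (nat_lit 17383424)))
  false (nat_lit 0)
def t2 : BTr := (BTr.n (BTr.n (BTr.n (BTr.b b2_0) (BTr.b b2_1)) (BTr.n (BTr.b b2_2) (BTr.b b2_3))) (BTr.n (BTr.n (BTr.b b2_4) (BTr.b b2_5)) (BTr.n (BTr.b b2_6) (BTr.b b2_7))))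
namespace T2
def l0 : Tr := Tr.L (Pth.l (Pth.l (Pth.l Pth.z)))
def l1 : Tr := Tr.L (Pth.l (Pth.l (Pth.r Pth.z)))
def l2 : Tr := Tr.L (Pth.l (Pth.r (Pth.l Pth.z)))
def l3 : Tr := Tr.L (Pth.l (Pth.r (Pth.r Pth.z)))
def l4 : Tr := Tr.L (Pth.r (Pth.l (Pth.l Pth.z)))
def l5 : Tr := Tr.L (Pth.r (Pth.l (Pth.r Pth.z)))
def l6 : Tr := Tr.L (Pth.r (Pth.r (Pth.l Pth.z)))
def l7 : Tr := Tr.L (Pth.r (Pth.r (Pth.r Pth.z)))
end T2
theorem bx0_0 : BoxOK sI cl6 cl13 cl13 t1 t1 b0_0 :=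
  box_mk (TrL.c (I.pos (nat_lit 0) (nat_lit 0)) (xa T1.l0 T1.l0)
  (TrL.c (I.pos (nat_lit 0) (nat_lit 0)) (xa T1.l1 T1.l1)
  (TrL.c (I.pos (nat_lit 0) (nat_lit 89480386)) T1.l2
  (TrL.c (I.pos (nat_lit 0) (nat_lit 41530880)) T1.l3
  (TrL.c (I.pos (nat_lit 0) (nat_lit 0)) (xa T1.l4 (xb T1.l4 T1.l4))
  (TrL.c (I.pos (nat_lit 0) (nat_lit 0)) T1.l5
  (TrL.c (I.mix (nat_lit 41527258) (nat_lit 41530880)) T1.l6
  (TrL.c (I.mix (nat_lit 41527258) (nat_lit 4274)) T1.l7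
  TrL.n)))))))) (by decide +kernel)
theorem bx0_1 : BoxOK sI cl6 cl13 cl13 t1 t1 b0_1 :=
  box_mk (TrL.c (I.pos (nat_lit 0) (nat_lit 0)) T1.l0
  (TrL.c (I.pos (nat_lit 0) (nat_lit 0)) T1.l1
  (TrL.c (I.pos (nat_lit 0) (nat_lit 89480386)) T1.l2
  (TrL.c (I.pos (nat_lit 0) (nat_lit 41530880)) T1.l3
  (TrL.c (I.pos (nat_lit 0) (nat_lit 0)) T1.l4
  (TrL.c (I.pos (nat_lit 0) (nat_lit 0)) T1.l5
  (TrL.c (I.mix (nat_lit 41527258) (nat_lit 41530880)) T1.l6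
  (TrL.c (I.mix (nat_lit 41527258) (nat_lit 4274)) T1.l7
  TrL.n)))))))) (by decide +kernel)
theorem bx0_2 : BoxOK sI cl6 cl13 cl13 t1 t1 b0_2 :=
  box_mk (TrL.c (I.pos (nat_lit 0) (nat_lit 0)) T1.l0
  (TrL.c (I.pos (nat_lit 0) (nat_lit 0)) T1.l1
  (TrL.c (I.pos (nat_lit 0) (nat_lit 89480386)) T1.l2
  (TrL.c (I.pos (nat_lit 0) (nat_lit 41530880)) T1.l3
  (TrL.c (I.pos (nat_lit 0) (nat_lit 0)) T1.l4
  (TrL.c (I.pos (nat_lit 0) (nat_lit 0)) T1.l5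
  (TrL.c (I.mix (nat_lit 41527258) (nat_lit 41530880)) T1.l6
  (TrL.c (I.mix (nat_lit 41527258) (nat_lit 4274)) T1.l7
  TrL.n)))))))) (by decide +kernel)
theorem bx0_3 : BoxOK sI cl6 cl13 cl13 t1 t1 b0_3 :=
  box_mk (TrL.c (I.pos (nat_lit 0) (nat_lit 0)) T1.l0
  (TrL.c (I.pos (nat_lit 0) (nat_lit 0)) T1.l1
  (TrL.c (I.pos (nat_lit 0) (nat_lit 89480386)) T1.l2
  (TrL.c (I.pos (nat_lit 0) (nat_lit 41530880)) T1.l3
  (TrL.c (I.pos (nat_lit 0) (nat_lit 0)) T1.l4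
  (TrL.c (I.pos (nat_lit 0) (nat_lit 0)) T1.l5
  (TrL.c (I.mix (nat_lit 41527258) (nat_lit 41530880)) T1.l6
  (TrL.c (I.mix (nat_lit 41527258) (nat_lit 4274)) T1.l7
  TrL.n)))))))) (by decide +kernel)
theorem bx0_4 : BoxOK sI cl6 cl13 cl13 t1 t1 b0_4 :=
  box_mk (TrL.c (I.pos (nat_lit 0) (nat_lit 0)) T1.l0
  (TrL.c (I.pos (nat_lit 0) (nat_lit 0)) T1.l1
  (TrL.c (I.pos (nat_lit 0) (nat_lit 89480386)) T1.l2
  (TrL.c (I.pos (nat_lit 0) (nat_lit 41530880)) T1.l3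
  (TrL.c (I.pos (nat_lit 0) (nat_lit 0)) T1.l4
  (TrL.c (I.pos (nat_lit 0) (nat_lit 0)) T1.l5
  (TrL.c (I.mix (nat_lit 41527258) (nat_lit 41530880)) T1.l6
  (TrL.c (I.mix (nat_lit 41527258) (nat_lit 4274)) T1.l7
  TrL.n)))))))) (by decide +kernel)
theorem bx0_5 : BoxOK sI cl6 cl13 cl13 t1 t1 b0_5 :=
  box_mk (TrL.c (I.pos (nat_lit 0) (nat_lit 0)) (xa (xa T1.l0 T1.l0) T1.l0)
  (TrL.c (I.pos (nat_lit 0) (nat_lit 0)) T1.l1
  (TrL.c (I.pos (nat_lit 0) (nat_lit 89480386)) T1.l2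
  (TrL.c (I.pos (nat_lit 0) (nat_lit 41530880)) T1.l3
  (TrL.c (I.pos (nat_lit 0) (nat_lit 0)) T1.l4
  (TrL.c (I.pos (nat_lit 0) (nat_lit 0)) T1.l5
  (TrL.c (I.mix (nat_lit 41527258) (nat_lit 41530880)) T1.l6
  (TrL.c (I.mix (nat_lit 41527258) (nat_lit 4274)) T1.l7
  TrL.n)))))))) (by decide +kernel)
theorem bx0_6 : BoxOK sI cl6 cl13 cl13 t1 t1 b0_6 :=
  box_mk (TrL.c (I.pos (nat_lit 0) (nat_lit 0)) (xa T1.l0 T1.l0)
  (TrL.c (I.pos (nat_lit 0) (nat_lit 0)) T1.l1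
  (TrL.c (I.pos (nat_lit 0) (nat_lit 89480386)) T1.l2
  (TrL.c (I.pos (nat_lit 0) (nat_lit 41530880)) T1.l3
  (TrL.c (I.pos (nat_lit 0) (nat_lit 0)) T1.l4
  (TrL.c (I.pos (nat_lit 0) (nat_lit 0)) T1.l5
  (TrL.c (I.mix (nat_lit 41527258) (nat_lit 41530880)) T1.l6
  (TrL.c (I.mix (nat_lit 41527258) (nat_lit 4274)) T1.l7
  TrL.n)))))))) (by decide +kernel)
theorem bx0_7 : BoxOK sI cl6 cl13 cl13 t1 t1 b0_7 :=
  box_mk (TrL.c (I.pos (nat_lit 0) (nat_lit 0)) (xb T1.l0 T1.l0)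
  (TrL.c (I.pos (nat_lit 0) (nat_lit 0)) T1.l1
  (TrL.c (I.pos (nat_lit 0) (nat_lit 89480386)) T1.l2
  (TrL.c (I.pos (nat_lit 0) (nat_lit 41530880)) T1.l3
  (TrL.c (I.pos (nat_lit 0) (nat_lit 0)) (xb T1.l4 T1.l4)
  (TrL.c (I.pos (nat_lit 0) (nat_lit 0)) T1.l5
  (TrL.c (I.mix (nat_lit 41527258) (nat_lit 41530880)) T1.l2
  (TrL.c (I.mix (nat_lit 41527258) (nat_lit 4274)) T1.l7
  TrL.n)))))))) (by decide +kernel)
theorem sv0 : StarV sI cl6 cl13 cl13 t1 t1 t0 :=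
  (bt_n (bt_n (bt_n (bt_b bx0_0) (bt_b bx0_1)) (bt_n (bt_b bx0_2) (bt_b bx0_3))) (bt_n (bt_n (bt_b bx0_4) (bt_b bx0_5)) (bt_n (bt_b bx0_6) (bt_b bx0_7))))
def S0 : StarD := StarD.mk cl6 cl13 cl13 1 1 t0
theorem bx1_0 : BoxOK sI cl13 cl6 cl13 t0 t2 b1_0 :=
  box_mk (TrL.c (I.pos (nat_lit 0) (nat_lit 0)) (xa T0.l0 T0.l0)
  (TrL.c (I.pos (nat_lit 0) (nat_lit 0)) (xa T2.l1 T2.l1)
  (TrL.c (I.pos (nat_lit 0) (nat_lit 134217730)) (xR T0.l6 T0.l6)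
  (TrL.c (I.pos (nat_lit 0) (nat_lit 110514882)) T2.l2
  (TrL.c (I.pos (nat_lit 0) (nat_lit 0)) (xa T2.l3 (xk (xb T2.l3 (xa T2.l3 (xs T2.l3 T2.l3))) (xa T2.l3 (xb T2.l3 (xs T2.l3 (xb T2.l3 (xs T2.l3 T2.l3)))))))
  (TrL.c (I.pos (nat_lit 0) (nat_lit 0)) T0.l2
  (TrL.c (I.mix (nat_lit 8088324) (nat_lit 110514882)) (xR T2.l4 T2.l4)
  (TrL.c (I.mix (nat_lit 8088324) (nat_lit 89478486)) T0.l3
  TrL.n)))))))) (by decide +kernel)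
theorem bx1_1 : BoxOK sI cl13 cl6 cl13 t0 t2 b1_1 :=
  box_mk (TrL.c (I.pos (nat_lit 0) (nat_lit 0)) T0.l0
  (TrL.c (I.pos (nat_lit 0) (nat_lit 0)) T2.l1
  (TrL.c (I.pos (nat_lit 0) (nat_lit 134217730)) (xR T0.l1 T0.l1)
  (TrL.c (I.pos (nat_lit 0) (nat_lit 110514882)) T2.l2
  (TrL.c (I.pos (nat_lit 0) (nat_lit 0)) T2.l3
  (TrL.c (I.pos (nat_lit 0) (nat_lit 0)) T0.l2
  (TrL.c (I.mix (nat_lit 8088324) (nat_lit 110514882)) T2.l4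
  (TrL.c (I.mix (nat_lit 8088324) (nat_lit 89478486)) T0.l3
  TrL.n)))))))) (by decide +kernel)
theorem bx1_2 : BoxOK sI cl13 cl6 cl13 t0 t2 b1_2 :=
  box_mk (TrL.c (I.pos (nat_lit 0) (nat_lit 0)) T0.l0
  (TrL.c (I.pos (nat_lit 0) (nat_lit 0)) T2.l1
  (TrL.c (I.pos (nat_lit 0) (nat_lit 134217730)) (xR T0.l1 T0.l1)
  (TrL.c (I.pos (nat_lit 0) (nat_lit 110514882)) T2.l2
  (TrL.c (I.pos (nat_lit 0) (nat_lit 0)) T2.l3
  (TrL.c (I.pos (nat_lit 0) (nat_lit 0)) T0.l2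
  (TrL.c (I.mix (nat_lit 8088324) (nat_lit 110514882)) T2.l4
  (TrL.c (I.mix (nat_lit 8088324) (nat_lit 89478486)) T0.l3
  TrL.n)))))))) (by decide +kernel)
theorem bx1_3 : BoxOK sI cl13 cl6 cl13 t0 t2 b1_3 :=
  box_mk (TrL.c (I.pos (nat_lit 0) (nat_lit 0)) T0.l0
  (TrL.c (I.pos (nat_lit 0) (nat_lit 0)) T2.l1
  (TrL.c (I.pos (nat_lit 0) (nat_lit 134217730)) T0.l1
  (TrL.c (I.pos (nat_lit 0) (nat_lit 110514882)) T2.l2
  (TrL.c (I.pos (nat_lit 0) (nat_lit 0)) T2.l3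
  (TrL.c (I.pos (nat_lit 0) (nat_lit 0)) T0.l2
  (TrL.c (I.mix (nat_lit 8088324) (nat_lit 110514882)) T2.l4
  (TrL.c (I.mix (nat_lit 8088324) (nat_lit 89478486)) T0.l5
  TrL.n)))))))) (by decide +kernel)
theorem bx1_4 : BoxOK sI cl13 cl6 cl13 t0 t2 b1_4 :=
  box_mk (TrL.c (I.pos (nat_lit 0) (nat_lit 0)) T0.l0
  (TrL.c (I.pos (nat_lit 0) (nat_lit 0)) T2.l1
  (TrL.c (I.pos (nat_lit 0) (nat_lit 134217730)) (xR T0.l1 T0.l6)
  (TrL.c (I.pos (nat_lit 0) (nat_lit 110514882)) T2.l2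
  (TrL.c (I.pos (nat_lit 0) (nat_lit 0)) (xb T2.l3 T2.l3)
  (TrL.c (I.pos (nat_lit 0) (nat_lit 0)) T0.l2
  (TrL.c (I.mix (nat_lit 8088324) (nat_lit 110514882)) (xR T2.l4 T2.l4)
  (TrL.c (I.mix (nat_lit 8088324) (nat_lit 89478486)) T0.l3
  TrL.n)))))))) (by decide +kernel)
theorem bx1_5 : BoxOK sI cl13 cl6 cl13 t0 t2 b1_5 :=
  box_mk (TrL.c (I.pos (nat_lit 0) (nat_lit 0)) T0.l0
  (TrL.c (I.pos (nat_lit 0) (nat_lit 0)) T2.l1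
  (TrL.c (I.pos (nat_lit 0) (nat_lit 134217730)) (xR T0.l1 T0.l1)
  (TrL.c (I.pos (nat_lit 0) (nat_lit 110514882)) T2.l2
  (TrL.c (I.pos (nat_lit 0) (nat_lit 0)) T2.l3
  (TrL.c (I.pos (nat_lit 0) (nat_lit 0)) T0.l2
  (TrL.c (I.mix (nat_lit 8088324) (nat_lit 110514882)) T2.l4
  (TrL.c (I.mix (nat_lit 8088324) (nat_lit 89478486)) T0.l3
  TrL.n)))))))) (by decide +kernel)
theorem bx1_6 : BoxOK sI cl13 cl6 cl13 t0 t2 b1_6 :=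
  box_mk (TrL.c (I.pos (nat_lit 0) (nat_lit 0)) (xa T0.l0 T0.l0)
  (TrL.c (I.pos (nat_lit 0) (nat_lit 0)) T2.l1
  (TrL.c (I.pos (nat_lit 0) (nat_lit 134217730)) T0.l1
  (TrL.c (I.pos (nat_lit 0) (nat_lit 110514882)) T2.l2
  (TrL.c (I.pos (nat_lit 0) (nat_lit 0)) T2.l3
  (TrL.c (I.pos (nat_lit 0) (nat_lit 0)) T0.l2
  (TrL.c (I.mix (nat_lit 8088324) (nat_lit 110514882)) T2.l4
  (TrL.c (I.mix (nat_lit 8088324) (nat_lit 89478486)) T0.l5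
  TrL.n)))))))) (by decide +kernel)
theorem bx1_7 : BoxOK sI cl13 cl6 cl13 t0 t2 b1_7 :=
  box_mk (TrL.c (I.pos (nat_lit 0) (nat_lit 0)) T0.l0
  (TrL.c (I.pos (nat_lit 0) (nat_lit 0)) T2.l3
  (TrL.c (I.pos (nat_lit 0) (nat_lit 134217730)) T0.l1
  (TrL.c (I.pos (nat_lit 0) (nat_lit 110514882)) T2.l4
  (TrL.c (I.pos (nat_lit 0) (nat_lit 0)) T2.l3
  (TrL.c (I.pos (nat_lit 0) (nat_lit 0)) T0.l2
  (TrL.c (I.mix (nat_lit 8088324) (nat_lit 110514882)) T2.l4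
  (TrL.c (I.mix (nat_lit 8088324) (nat_lit 89478486)) T0.l5
  TrL.n)))))))) (by decide +kernel)
theorem sv1 : StarV sI cl13 cl6 cl13 t0 t2 t1 :=
  (bt_n (bt_n (bt_n (bt_b bx1_0) (bt_b bx1_1)) (bt_n (bt_b bx1_2) (bt_b bx1_3))) (bt_n (bt_n (bt_b bx1_4) (bt_b bx1_5)) (bt_n (bt_b bx1_6) (bt_b bx1_7))))
def S1 : StarD := StarD.mk cl13 cl6 cl13 0 2 t1
theorem bx2_0 : BoxOK sI cl13 cl13 cl6 t2 t0 b2_0 :=
  box_mk (TrL.c (I.pos (nat_lit 0) (nat_lit 0)) (xa T2.l0 (xb T2.l0 T2.l0))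
  (TrL.c (I.pos (nat_lit 0) (nat_lit 0)) (xa T0.l4 T0.l4)
  (TrL.c (I.pos (nat_lit 0) (nat_lit 134217730)) (xR T2.l4 T2.l5)
  (TrL.c (I.pos (nat_lit 0) (nat_lit 110514882)) (xR T0.l5 T0.l5)
  (TrL.c (I.pos (nat_lit 0) (nat_lit 0)) (xa T0.l7 (xk (xa T0.l7 (xb T0.l7 T0.l7)) (xa T0.l7 (xb T0.l7 (xs T0.l7 T0.l7)))))
  (TrL.c (I.pos (nat_lit 0) (nat_lit 0)) T2.l6
  (TrL.c (I.mix (nat_lit 8088324) (nat_lit 110514882)) (xR T0.l6 T0.l6)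
  (TrL.c (I.mix (nat_lit 8088324) (nat_lit 89478486)) T2.l7
  TrL.n)))))))) (by decide +kernel)
theorem bx2_1 : BoxOK sI cl13 cl13 cl6 t2 t0 b2_1 :=
  box_mk (TrL.c (I.pos (nat_lit 0) (nat_lit 0)) T2.l0
  (TrL.c (I.pos (nat_lit 0) (nat_lit 0)) T0.l4
  (TrL.c (I.pos (nat_lit 0) (nat_lit 134217730)) (xR T2.l4 T2.l5)
  (TrL.c (I.pos (nat_lit 0) (nat_lit 110514882)) T0.l5
  (TrL.c (I.pos (nat_lit 0) (nat_lit 0)) T0.l7
  (TrL.c (I.pos (nat_lit 0) (nat_lit 0)) T2.l6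
  (TrL.c (I.mix (nat_lit 8088324) (nat_lit 110514882)) T0.l6
  (TrL.c (I.mix (nat_lit 8088324) (nat_lit 89478486)) T2.l7
  TrL.n)))))))) (by decide +kernel)
theorem bx2_2 : BoxOK sI cl13 cl13 cl6 t2 t0 b2_2 :=
  box_mk (TrL.c (I.pos (nat_lit 0) (nat_lit 0)) (xa T2.l0 T2.l0)
  (TrL.c (I.pos (nat_lit 0) (nat_lit 0)) T0.l4
  (TrL.c (I.pos (nat_lit 0) (nat_lit 134217730)) (xR T2.l2 T2.l5)
  (TrL.c (I.pos (nat_lit 0) (nat_lit 110514882)) T0.l5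
  (TrL.c (I.pos (nat_lit 0) (nat_lit 0)) T0.l7
  (TrL.c (I.pos (nat_lit 0) (nat_lit 0)) T2.l6
  (TrL.c (I.mix (nat_lit 8088324) (nat_lit 110514882)) T0.l6
  (TrL.c (I.mix (nat_lit 8088324) (nat_lit 89478486)) T2.l2
  TrL.n)))))))) (by decide +kernel)
theorem bx2_3 : BoxOK sI cl13 cl13 cl6 t2 t0 b2_3 :=
  box_mk (TrL.c (I.pos (nat_lit 0) (nat_lit 0)) (xb T2.l0 T2.l0)
  (TrL.c (I.pos (nat_lit 0) (nat_lit 0)) T0.l4
  (TrL.c (I.pos (nat_lit 0) (nat_lit 134217730)) (xR T2.l4 T2.l5)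
  (TrL.c (I.pos (nat_lit 0) (nat_lit 110514882)) T0.l5
  (TrL.c (I.pos (nat_lit 0) (nat_lit 0)) (xb (xa T0.l7 T0.l7) (xa T0.l7 (xs T0.l7 T0.l7)))
  (TrL.c (I.pos (nat_lit 0) (nat_lit 0)) T2.l6
  (TrL.c (I.mix (nat_lit 8088324) (nat_lit 110514882)) (xR T0.l6 T0.l6)
  (TrL.c (I.mix (nat_lit 8088324) (nat_lit 89478486)) T2.l7
  TrL.n)))))))) (by decide +kernel)
theorem bx2_4 : BoxOK sI cl13 cl13 cl6 t2 t0 b2_4 :=
  box_mk (TrL.c (I.pos (nat_lit 0) (nat_lit 0)) (xa T2.l0 T2.l0)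
  (TrL.c (I.pos (nat_lit 0) (nat_lit 0)) T0.l4
  (TrL.c (I.pos (nat_lit 0) (nat_lit 134217730)) (xR T2.l4 T2.l5)
  (TrL.c (I.pos (nat_lit 0) (nat_lit 110514882)) T0.l5
  (TrL.c (I.pos (nat_lit 0) (nat_lit 0)) T0.l7
  (TrL.c (I.pos (nat_lit 0) (nat_lit 0)) T2.l6
  (TrL.c (I.mix (nat_lit 8088324) (nat_lit 110514882)) T0.l6
  (TrL.c (I.mix (nat_lit 8088324) (nat_lit 89478486)) T2.l2
  TrL.n)))))))) (by decide +kernel)
theorem bx2_5 : BoxOK sI cl13 cl13 cl6 t2 t0 b2_5 :=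
  box_mk (TrL.c (I.pos (nat_lit 0) (nat_lit 0)) T2.l0
  (TrL.c (I.pos (nat_lit 0) (nat_lit 0)) T0.l4
  (TrL.c (I.pos (nat_lit 0) (nat_lit 134217730)) (xR T2.l4 T2.l5)
  (TrL.c (I.pos (nat_lit 0) (nat_lit 110514882)) T0.l5
  (TrL.c (I.pos (nat_lit 0) (nat_lit 0)) T0.l7
  (TrL.c (I.pos (nat_lit 0) (nat_lit 0)) T2.l6
  (TrL.c (I.mix (nat_lit 8088324) (nat_lit 110514882)) T0.l6
  (TrL.c (I.mix (nat_lit 8088324) (nat_lit 89478486)) T2.l7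
  TrL.n)))))))) (by decide +kernel)
theorem bx2_6 : BoxOK sI cl13 cl13 cl6 t2 t0 b2_6 :=
  box_mk (TrL.c (I.pos (nat_lit 0) (nat_lit 0)) T2.l0
  (TrL.c (I.pos (nat_lit 0) (nat_lit 0)) T0.l4
  (TrL.c (I.pos (nat_lit 0) (nat_lit 134217730)) (xR T2.l4 T2.l5)
  (TrL.c (I.pos (nat_lit 0) (nat_lit 110514882)) T0.l5
  (TrL.c (I.pos (nat_lit 0) (nat_lit 0)) T0.l7
  (TrL.c (I.pos (nat_lit 0) (nat_lit 0)) T2.l6
  (TrL.c (I.mix (nat_lit 8088324) (nat_lit 110514882)) T0.l6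
  (TrL.c (I.mix (nat_lit 8088324) (nat_lit 89478486)) T2.l7
  TrL.n)))))))) (by decide +kernel)
theorem bx2_7 : BoxOK sI cl13 cl13 cl6 t2 t0 b2_7 :=
  box_mk (TrL.c (I.pos (nat_lit 0) (nat_lit 0)) T2.l0
  (TrL.c (I.pos (nat_lit 0) (nat_lit 0)) T0.l4
  (TrL.c (I.pos (nat_lit 0) (nat_lit 134217730)) (xR T2.l2 T2.l5)
  (TrL.c (I.pos (nat_lit 0) (nat_lit 110514882)) T0.l5
  (TrL.c (I.pos (nat_lit 0) (nat_lit 0)) T0.l7
  (TrL.c (I.pos (nat_lit 0) (nat_lit 0)) T2.l6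
  (TrL.c (I.mix (nat_lit 8088324) (nat_lit 110514882)) T0.l6
  (TrL.c (I.mix (nat_lit 8088324) (nat_lit 89478486)) T2.l2
  TrL.n)))))))) (by decide +kernel)
theorem sv2 : StarV sI cl13 cl13 cl6 t2 t0 t2 :=
  (bt_n (bt_n (bt_n (bt_b bx2_0) (bt_b bx2_1)) (bt_n (bt_b bx2_2) (bt_b bx2_3))) (bt_n (bt_n (bt_b bx2_4) (bt_b bx2_5)) (bt_n (bt_b bx2_6) (bt_b bx2_7))))
def S2 : StarD := StarD.mk cl13 cl13 cl6 2 0 t2
def G : List StarD := [S0, S1, S2]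
theorem so0 : StarOK sI G S0 :=
  star_mk (by decide) (by decide) rfl rfl rfl rfl rfl rfl (rfl : _ = t1) (rfl : _ = t1)
  (st_mk (Pth.l (Pth.l (Pth.l Pth.z))) (nat_lit 96464076) (nat_lit 115031578) (by decide +kernel))
  (st_mk (Pth.l (Pth.l (Pth.l Pth.z))) (nat_lit 131905681) (nat_lit 150774348) (by decide +kernel))
  (st_mk (Pth.l (Pth.l (Pth.l Pth.z))) (nat_lit 173013532) (nat_lit 192310607) (by decide +kernel)) sv0
theorem so1 : StarOK sI G S1 :=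
  star_mk (by decide) (by decide) rfl rfl rfl rfl rfl rfl (rfl : _ = t0) (rfl : _ = t2)
  (st_mk (Pth.l (Pth.l (Pth.l Pth.z))) (nat_lit 185843017) (nat_lit 186957129) (by decide +kernel))
  (st_mk (Pth.l (Pth.l (Pth.l Pth.z))) (nat_lit 220739626) (nat_lit 222089740) (by decide +kernel))
  (st_mk (Pth.l (Pth.l (Pth.l Pth.z))) (nat_lit 261004945) (nat_lit 262678248) (by decide +kernel)) sv1
theorem so2 : StarOK sI G S2 :=
  star_mk (by decide) (by decide) rfl rfl rfl rfl rfl rfl (rfl : _ = t2) (rfl : _ = t0)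
  (st_mk (Pth.l (Pth.l (Pth.l Pth.z))) (nat_lit 96368329) (nat_lit 113591788) (by decide +kernel))
  (st_mk (Pth.l (Pth.l (Pth.l Pth.z))) (nat_lit 130728068) (nat_lit 149215652) (by decide +kernel))
  (st_mk (Pth.l (Pth.l (Pth.l Pth.z))) (nat_lit 170993386) (nat_lit 189764574) (by decide +kernel)) sv2
theorem ok : GroupOK (nat_lit 0) (nat_lit 91291648) G := grp_mk (allS_c so0 (allS_c so1 (allS_c so2 allS_n)))
theorem cov : GCov G cl6 cl13 cl13 := cov_mk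
  ⟨0, by decide, rfl, rfl, rfl⟩ ⟨0, by decide, rfl, rfl, rfl⟩ ⟨1, by decide, rfl, rfl, rfl⟩ ⟨2, by decide, rfl, rfl, rfl⟩ ⟨1, by decide, rfl, rfl, rfl⟩ ⟨2, by decide, rfl, rfl, rfl⟩
end Q366_0

namespace Q366_1
def sI : I := I.pos (nat_lit 91226112) (nat_lit 150339584)
def b0_0 : Bx := Bx.mk (St.mk (I.pos (nat_lit 158154752) (nat_lit 242204672)) (I.mix (nat_lit 1769472) (nat_lit 53870592)) (I.mix (nat_lit 2637824) (nat_lit 85819392)) (I.pos (nat_lit 92831744) (nat_lit 228802560)) (I.mix (nat_lit 90144768) (nat_lit 48824320)) (I.mix (nat_lit 68648960) (nat_lit 52592640)) (I.mix (nat_lit 97419264) (nat_lit 68780032)))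
  false (nat_lit 0)
def b0_1 : Bx := Bx.mk (St.mk (I.mix (nat_lit 14827520) (nat_lit 143884288)) (I.mix (nat_lit 7634944) (nat_lit 23412736)) (I.mix (nat_lit 15171584) (nat_lit 16908288)) (I.mix (nat_lit 3227648) (nat_lit 91570176)) (I.mix (nat_lit 20692992) (nat_lit 19595264)) (I.mix (nat_lit 18481152) (nat_lit 13959168)) (I.mix (nat_lit 15810560) (nat_lit 10878976)))
  false (nat_lit 0)
def b0_2 : Bx := Bx.mk (St.mk (I.pos (nat_lit 117407744) (nat_lit 158564352)) (I.mix (nat_lit 46219264) (nat_lit 7012352)) (I.mix (nat_lit 55476224) (nat_lit 1638400)) (I.pos (nat_lit 52822016) (nat_lit 110133248)) (I.mix (nat_lit 69861376) (nat_lit 15925248)) (I.mix (nat_lit 23281664) (nat_lit 64143360)) (I.mix (nat_lit 19349504) (nat_lit 60768256)))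
  false (nat_lit 0)
def b0_3 : Bx := Bx.mk (St.mk (I.mix (nat_lit 12894208) (nat_lit 106414080)) (I.mix (nat_lit 22020096) (nat_lit 2260992)) (I.mix (nat_lit 19693568) (nat_lit 1130496)) (I.mix (nat_lit 2244608) (nat_lit 57966592)) (I.mix (nat_lit 25346048) (nat_lit 8060928)) (I.mix (nat_lit 9404416) (nat_lit 21544960)) (I.mix (nat_lit 5521408) (nat_lit 13828096)))
  false (nat_lit 0)
def b0_4 : Bx := Bx.mk (St.mk (I.pos (nat_lit 208093184) (nat_lit 280543232)) (I.mix (nat_lit 24231936) (nat_lit 36618240)) (I.mix (nat_lit 74432512) (nat_lit 50462720)) (I.pos (nat_lit 184991744) (nat_lit 315867136)) (I.mix (nat_lit 56557568) (nat_lit 33128448)) (I.mix (nat_lit 39993344) (nat_lit 33718272)) (I.mix (nat_lit 65486848) (nat_lit 58605568)))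
  false (nat_lit 0)
def b0_5 : Bx := Bx.mk (St.mk (I.pos (nat_lit 116916224) (nat_lit 183664640)) (I.mix (nat_lit 52822016) (nat_lit 950272)) (I.neg (nat_lit 5570560) (nat_lit 62586880)) (I.pos (nat_lit 67682304) (nat_lit 142606336)) (I.mix (nat_lit 70139904) (nat_lit 33325056)) (I.mix (nat_lit 37945344) (nat_lit 54460416)) (I.mix (nat_lit 33144832) (nat_lit 56639488)))
  false (nat_lit 0)
def b0_6 : Bx := Bx.mk (St.mk (I.mix (nat_lit 14221312) (nat_lit 116326400)) (I.mix (nat_lit 26001408) (nat_lit 6602752)) (I.mix (nat_lit 22265856) (nat_lit 983040)) (I.mix (nat_lit 2260992) (nat_lit 65961984)) (I.mix (nat_lit 26968064) (nat_lit 20381696)) (I.mix (nat_lit 17612800) (nat_lit 24674304)) (I.mix (nat_lit 10223616) (nat_lit 17825792)))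
  false (nat_lit 0)
def b0_7 : Bx := Bx.mk (St.mk (I.pos (nat_lit 177946624) (nat_lit 224280576)) (I.mix (nat_lit 14106624) (nat_lit 54640640)) (I.mix (nat_lit 6422528) (nat_lit 82198528)) (I.pos (nat_lit 125124608) (nat_lit 202555392)) (I.mix (nat_lit 107970560) (nat_lit 47071232)) (I.mix (nat_lit 116981760) (nat_lit 64831488)) (I.mix (nat_lit 135856128) (nat_lit 67321856)))
  false (nat_lit 0)
def b0_8 : Bx := Bx.mk (St.mk (I.mix (nat_lit 13746176) (nat_lit 138559488)) (I.mix (nat_lit 12877824) (nat_lit 32260096)) (I.mix (nat_lit 13697024) (nat_lit 23248896)) (I.mix (nat_lit 3014656) (nat_lit 84344832)) (I.mix (nat_lit 39829504) (nat_lit 21774336)) (I.mix (nat_lit 39436288) (nat_lit 23511040)) (I.mix (nat_lit 28147712) (nat_lit 16236544)))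
  false (nat_lit 0)
def b0_9 : Bx := Bx.mk (St.mk (I.pos (nat_lit 156991488) (nat_lit 219054080)) (I.mix (nat_lit 41402368) (nat_lit 19562496)) (I.mix (nat_lit 50561024) (nat_lit 30113792)) (I.pos (nat_lit 101564416) (nat_lit 189759488)) (I.mix (nat_lit 48676864) (nat_lit 44122112)) (I.mix (nat_lit 51019776) (nat_lit 43204608)) (I.mix (nat_lit 54329344) (nat_lit 45547520)))
  false (nat_lit 0)
def b0_10 : Bx := Bx.mk (St.mk (I.pos (nat_lit 178978816) (nat_lit 220807168)) (I.mix (nat_lit 19496960) (nat_lit 37748736)) (I.mix (nat_lit 15646720) (nat_lit 57360384)) (I.pos (nat_lit 126238720) (nat_lit 193249280)) (I.mix (nat_lit 102612992) (nat_lit 55246848)) (I.mix (nat_lit 122486784) (nat_lit 56164352)) (I.mix (nat_lit 144195584) (nat_lit 58261504)))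
  false (nat_lit 0)
def b0_11 : Bx := Bx.mk (St.mk (I.pos (nat_lit 193855488) (nat_lit 241369088)) (I.pos (nat_lit 7831552) (nat_lit 53215232)) (I.pos (nat_lit 8781824) (nat_lit 82509824)) (I.pos (nat_lit 172294144) (nat_lit 225640448)) (I.mix (nat_lit 76201984) (nat_lit 52838400)) (I.mix (nat_lit 69255168) (nat_lit 48513024)) (I.mix (nat_lit 107347968) (nat_lit 58589184)))
  false (nat_lit 0)
def t0 : BTr := (BTr.n (BTr.n (BTr.n (BTr.b b0_0) (BTr.n (BTr.b b0_1) (BTr.b b0_2))) (BTr.n (BTr.b b0_3) (BTr.n (BTr.b b0_4) (BTr.b b0_5)))) (BTr.n (BTr.n (BTr.b b0_6) (BTr.n (BTr.b b0_7) (BTr.b b0_8))) (BTr.n (BTr.b b0_9) (BTr.n (BTr.b b0_10) (BTr.b b0_11)))))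
namespace T0
def l0 : Tr := Tr.L (Pth.l (Pth.l (Pth.l Pth.z)))
def l1 : Tr := Tr.L (Pth.l (Pth.l (Pth.r (Pth.l Pth.z))))
def l2 : Tr := Tr.L (Pth.l (Pth.l (Pth.r (Pth.r Pth.z))))
def l3 : Tr := Tr.L (Pth.l (Pth.r (Pth.l Pth.z)))
def l4 : Tr := Tr.L (Pth.l (Pth.r (Pth.r (Pth.l Pth.z))))
def l5 : Tr := Tr.L (Pth.l (Pth.r (Pth.r (Pth.r Pth.z))))
def l6 : Tr := Tr.L (Pth.r (Pth.l (Pth.l Pth.z)))
def l7 : Tr := Tr.L (Pth.r (Pth.l (Pth.r (Pth.l Pth.z))))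
def l8 : Tr := Tr.L (Pth.r (Pth.l (Pth.r (Pth.r Pth.z))))
def l9 : Tr := Tr.L (Pth.r (Pth.r (Pth.l Pth.z)))
def l10 : Tr := Tr.L (Pth.r (Pth.r (Pth.r (Pth.l Pth.z))))
def l11 : Tr := Tr.L (Pth.r (Pth.r (Pth.r (Pth.r Pth.z))))
end T0
def b1_0 : Bx := Bx.mk (St.mk (I.pos (nat_lit 157089792) (nat_lit 234553344)) (I.mix (nat_lit 2097152) (nat_lit 64323584)) (I.mix (nat_lit 3129344) (nat_lit 99581952)) (I.pos (nat_lit 182304768) (nat_lit 288276480)) (I.mix (nat_lit 94961664) (nat_lit 56885248)) (I.mix (nat_lit 67502080) (nat_lit 55607296)) (I.mix (nat_lit 95862784) (nat_lit 72892416)))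
  false (nat_lit 77642914)
def b1_1 : Bx := Bx.mk (St.mk (I.pos (nat_lit 94273536) (nat_lit 161628160)) (I.neg (nat_lit 6995968) (nat_lit 60899328)) (I.neg (nat_lit 802816) (nat_lit 55115776)) (I.pos (nat_lit 128122880) (nat_lit 186548224)) (I.mix (nat_lit 60653568) (nat_lit 31899648)) (I.mix (nat_lit 28606464) (nat_lit 48365568)) (I.mix (nat_lit 23134208) (nat_lit 42188800)))
  false (nat_lit 0)
def b1_2 : Bx := Bx.mk (St.mk (I.mix (nat_lit 39141376) (nat_lit 97320960)) (I.mix (nat_lit 5816320) (nat_lit 39567360)) (I.mix (nat_lit 14319616) (nat_lit 17563648)) (I.pos (nat_lit 76201984) (nat_lit 123748352)) (I.mix (nat_lit 30670848) (nat_lit 37584896)) (I.mix (nat_lit 36487168) (nat_lit 23511040)) (I.mix (nat_lit 23642112) (nat_lit 13991936)))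
  false (nat_lit 0)
def b1_3 : Bx := Bx.mk (St.mk (I.mix (nat_lit 31473664) (nat_lit 46596096)) (I.mix (nat_lit 32374784) (nat_lit 5095424)) (I.mix (nat_lit 12337152) (nat_lit 3260416)) (I.pos (nat_lit 82296832) (nat_lit 100483072)) (I.mix (nat_lit 21479424) (nat_lit 24641536)) (I.mix (nat_lit 15450112) (nat_lit 25100288)) (I.mix (nat_lit 6176768) (nat_lit 9175040)))
  false (nat_lit 0)
def b1_4 : Bx := Bx.mk (St.mk (I.pos (nat_lit 160874496) (nat_lit 211861504)) (I.mix (nat_lit 1622016) (nat_lit 64864256)) (I.pos (nat_lit 13254656) (nat_lit 96813056)) (I.pos (nat_lit 193806336) (nat_lit 254279680)) (I.mix (nat_lit 105103360) (nat_lit 33062912)) (I.mix (nat_lit 102907904) (nat_lit 48070656)) (I.mix (nat_lit 99418112) (nat_lit 42582016)))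
  false (nat_lit 53543279)
def b1_5 : Bx := Bx.mk (St.mk (I.pos (nat_lit 81526784) (nat_lit 124895232)) (I.mix (nat_lit 55885824) (nat_lit 6815744)) (I.neg (nat_lit 2375680) (nat_lit 50544640)) (I.pos (nat_lit 113852416) (nat_lit 147357696)) (I.mix (nat_lit 60391424) (nat_lit 22429696)) (I.mix (nat_lit 25231360) (nat_lit 57933824)) (I.mix (nat_lit 17580032) (nat_lit 39960576)))
  false (nat_lit 0)
def b1_6 : Bx := Bx.mk (St.mk (I.mix (nat_lit 47644672) (nat_lit 67731456)) (I.mix (nat_lit 8306688) (nat_lit 34406400)) (I.mix (nat_lit 12615680) (nat_lit 13025280)) (I.pos (nat_lit 82100224) (nat_lit 106954752)) (I.mix (nat_lit 34881536) (nat_lit 25182208)) (I.mix (nat_lit 33357824) (nat_lit 19922944)) (I.mix (nat_lit 12222464) (nat_lit 12288000)))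
  false (nat_lit 0)
def b1_7 : Bx := Bx.mk (St.mk (I.mix (nat_lit 47038464) (nat_lit 29917184)) (I.mix (nat_lit 31686656) (nat_lit 4669440)) (I.mix (nat_lit 10338304) (nat_lit 4227072)) (I.pos (nat_lit 82771968) (nat_lit 100139008)) (I.mix (nat_lit 27410432) (nat_lit 18317312)) (I.mix (nat_lit 14778368) (nat_lit 25706496)) (I.mix (nat_lit 9437184) (nat_lit 5390336)))
  false (nat_lit 0)
def b1_8 : Bx := Bx.mk (St.mk (I.pos (nat_lit 192495616) (nat_lit 280756224)) (I.mix (nat_lit 17006592) (nat_lit 47235072)) (I.mix (nat_lit 61898752) (nat_lit 68780032)) (I.pos (nat_lit 248512512) (nat_lit 379207680)) (I.mix (nat_lit 71647232) (nat_lit 45301760)) (I.mix (nat_lit 56573952) (nat_lit 30785536)) (I.mix (nat_lit 80379904) (nat_lit 48857088)))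
  false (nat_lit 55553248)
def b1_9 : Bx := Bx.mk (St.mk (I.pos (nat_lit 142540800) (nat_lit 198197248)) (I.mix (nat_lit 37486592) (nat_lit 18808832)) (I.mix (nat_lit 31801344) (nat_lit 39288832)) (I.pos (nat_lit 170360832) (nat_lit 229916672)) (I.mix (nat_lit 43614208) (nat_lit 41893888)) (I.mix (nat_lit 45613056) (nat_lit 41353216)) (I.mix (nat_lit 43155456) (nat_lit 38879232)))
  false (nat_lit 0)
def b1_10 : Bx := Bx.mk (St.mk (I.pos (nat_lit 176422912) (nat_lit 230817792)) (I.pos (nat_lit 19202048) (nat_lit 65191936)) (I.pos (nat_lit 29294592) (nat_lit 99155968)) (I.pos (nat_lit 231702528) (nat_lit 279674880)) (I.mix (nat_lit 102023168) (nat_lit 69435392)) (I.mix (nat_lit 93863936) (nat_lit 63864832)) (I.mix (nat_lit 135430144) (nat_lit 76365824)))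
  false (nat_lit 73844511)
def b1_11 : Bx := Bx.mk (St.mk (I.pos (nat_lit 166838272) (nat_lit 203866112)) (I.mix (nat_lit 7487488) (nat_lit 42074112)) (I.pos (nat_lit 5685248) (nat_lit 70156288)) (I.pos (nat_lit 199360512) (nat_lit 238403584)) (I.mix (nat_lit 100794368) (nat_lit 48644096)) (I.mix (nat_lit 112459776) (nat_lit 52576256)) (I.mix (nat_lit 113868800) (nat_lit 48168960)))
  false (nat_lit 2890)
def t1 : BTr := (BTr.n (BTr.n (BTr.n (BTr.b b1_0) (BTr.n (BTr.b b1_1) (BTr.b b1_2))) (BTr.n (BTr.b b1_3) (BTr.n (BTr.b b1_4) (BTr.b b1_5)))) (BTr.n (BTr.n (BTr.b b1_6) (BTr.n (BTr.b b1_7) (BTr.b b1_8))) (BTr.n (BTr.b b1_9) (BTr.n (BTr.b b1_10) (BTr.b b1_11)))))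
namespace T1
def l0 : Tr := Tr.L (Pth.l (Pth.l (Pth.l Pth.z)))
def l1 : Tr := Tr.L (Pth.l (Pth.l (Pth.r (Pth.l Pth.z))))
def l2 : Tr := Tr.L (Pth.l (Pth.l (Pth.r (Pth.r Pth.z))))
def l3 : Tr := Tr.L (Pth.l (Pth.r (Pth.l Pth.z)))
def l4 : Tr := Tr.L (Pth.l (Pth.r (Pth.r (Pth.l Pth.z))))
def l5 : Tr := Tr.L (Pth.l (Pth.r (Pth.r (Pth.r Pth.z))))
def l6 : Tr := Tr.L (Pth.r (Pth.l (Pth.l Pth.z)))
def l7 : Tr := Tr.L (Pth.r (Pth.l (Pth.r (Pth.l Pth.z))))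
def l8 : Tr := Tr.L (Pth.r (Pth.l (Pth.r (Pth.r Pth.z))))
def l9 : Tr := Tr.L (Pth.r (Pth.r (Pth.l Pth.z)))
def l10 : Tr := Tr.L (Pth.r (Pth.r (Pth.r (Pth.l Pth.z))))
def l11 : Tr := Tr.L (Pth.r (Pth.r (Pth.r (Pth.r Pth.z))))
end T1
def b2_0 : Bx := Bx.mk (St.mk (I.pos (nat_lit 158203904) (nat_lit 240730112)) (I.mix (nat_lit 1572864) (nat_lit 49250304)) (I.mix (nat_lit 3129344) (nat_lit 104923136)) (I.pos (nat_lit 92241920) (nat_lit 219152384)) (I.mix (nat_lit 98369536) (nat_lit 57753600)) (I.mix (nat_lit 85016576) (nat_lit 65699840)) (I.mix (nat_lit 121831424) (nat_lit 86720512)))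
  false (nat_lit 32836988)
def b2_1 : Bx := Bx.mk (St.mk (I.pos (nat_lit 124715008) (nat_lit 189939712)) (I.neg (nat_lit 5488640) (nat_lit 53411840)) (I.mix (nat_lit 46235648) (nat_lit 10518528)) (I.pos (nat_lit 75546624) (nat_lit 149307392)) (I.mix (nat_lit 57065472) (nat_lit 28540928)) (I.mix (nat_lit 30097408) (nat_lit 39321600)) (I.mix (nat_lit 25952256) (nat_lit 40468480)))
  false (nat_lit 0)
def b2_2 : Bx := Bx.mk (St.mk (I.mix (nat_lit 10731520) (nat_lit 119160832)) (I.mix (nat_lit 24870912) (nat_lit 4194304)) (I.mix (nat_lit 14385152) (nat_lit 8962048)) (I.mix (nat_lit 2523136) (nat_lit 67698688)) (I.mix (nat_lit 19759104) (nat_lit 16334848)) (I.mix (nat_lit 12959744) (nat_lit 16465920)) (I.mix (nat_lit 8699904) (nat_lit 11534336)))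
  false (nat_lit 0)
def b2_3 : Bx := Bx.mk (St.mk (I.pos (nat_lit 175833088) (nat_lit 219119616)) (I.mix (nat_lit 14630912) (nat_lit 48627712)) (I.pos (nat_lit 9191424) (nat_lit 95698944)) (I.pos (nat_lit 116424704) (nat_lit 190316544)) (I.mix (nat_lit 110985216) (nat_lit 42827776)) (I.mix (nat_lit 118685696) (nat_lit 59555840)) (I.mix (nat_lit 144474112) (nat_lit 55164928)))
  false (nat_lit 22922397)
def b2_4 : Bx := Bx.mk (St.mk (I.mix (nat_lit 14024704) (nat_lit 136167424)) (I.mix (nat_lit 12386304) (nat_lit 31981568)) (I.mix (nat_lit 4636672) (nat_lit 33161216)) (I.mix (nat_lit 2932736) (nat_lit 81838080)) (I.mix (nat_lit 44171264) (nat_lit 17891328)) (I.mix (nat_lit 38731776) (nat_lit 20709376)) (I.mix (nat_lit 29360128) (nat_lit 12730368)))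
  false (nat_lit 0)
def b2_5 : Bx := Bx.mk (St.mk (I.pos (nat_lit 159219712) (nat_lit 212500480)) (I.mix (nat_lit 36306944) (nat_lit 11190272)) (I.mix (nat_lit 25378816) (nat_lit 41304064)) (I.pos (nat_lit 100777984) (nat_lit 177979392)) (I.mix (nat_lit 36814848) (nat_lit 41254912)) (I.mix (nat_lit 39190528) (nat_lit 38748160)) (I.mix (nat_lit 40976384) (nat_lit 41369600)))
  false (nat_lit 0)
def b2_6 : Bx := Bx.mk (St.mk (I.mix (nat_lit 16809984) (nat_lit 141590528)) (I.mix (nat_lit 4931584) (nat_lit 22822912)) (I.mix (nat_lit 1146880) (nat_lit 27754496)) (I.mix (nat_lit 2932736) (nat_lit 88981504)) (I.mix (nat_lit 30539776) (nat_lit 24150016)) (I.mix (nat_lit 30720000) (nat_lit 21921792)) (I.mix (nat_lit 26853376) (nat_lit 16236544)))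
  false (nat_lit 0)
def b2_7 : Bx := Bx.mk (St.mk (I.pos (nat_lit 118865920) (nat_lit 165052416)) (I.mix (nat_lit 50544640) (nat_lit 6651904)) (I.mix (nat_lit 44482560) (nat_lit 13336576)) (I.pos (nat_lit 54525952) (nat_lit 117096448)) (I.mix (nat_lit 66043904) (nat_lit 23543808)) (I.mix (nat_lit 28246016) (nat_lit 61456384)) (I.mix (nat_lit 24559616) (nat_lit 53411840)))
  false (nat_lit 0)
def b2_8 : Bx := Bx.mk (St.mk (I.pos (nat_lit 195837952) (nat_lit 279396352)) (I.mix (nat_lit 14647296) (nat_lit 37076992)) (I.mix (nat_lit 10551296) (nat_lit 87310336)) (I.pos (nat_lit 167264256) (nat_lit 305283072)) (I.mix (nat_lit 66863104) (nat_lit 45400064)) (I.mix (nat_lit 52690944) (nat_lit 31653888)) (I.mix (nat_lit 82542592) (nat_lit 49266688)))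
  false (nat_lit 8230701)
def b2_9 : Bx := Bx.mk (St.mk (I.mix (nat_lit 8142848) (nat_lit 107855872)) (I.mix (nat_lit 22773760) (nat_lit 786432)) (I.mix (nat_lit 12632064) (nat_lit 6946816)) (I.mix (nat_lit 65536) (nat_lit 59523072)) (I.mix (nat_lit 25542656) (nat_lit 15253504)) (I.mix (nat_lit 15597568) (nat_lit 24756224)) (I.mix (nat_lit 9011200) (nat_lit 14696448)))
  false (nat_lit 0)
def b2_10 : Bx := Bx.mk (St.mk (I.pos (nat_lit 185090048) (nat_lit 238026752)) (I.pos (nat_lit 7929856) (nat_lit 48168960)) (I.pos (nat_lit 30081024) (nat_lit 102989824)) (I.pos (nat_lit 156549120) (nat_lit 210911232)) (I.mix (nat_lit 92012544) (nat_lit 64159744)) (I.mix (nat_lit 93552640) (nat_lit 62226432)) (I.mix (nat_lit 145899520) (nat_lit 80609280)))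
  false (nat_lit 29824831)
def b2_11 : Bx := Bx.mk (St.mk (I.pos (nat_lit 176160768) (nat_lit 215056384)) (I.mix (nat_lit 19070976) (nat_lit 33046528)) (I.pos (nat_lit 4784128) (nat_lit 73596928)) (I.pos (nat_lit 116654080) (nat_lit 181829632)) (I.mix (nat_lit 95993856) (nat_lit 40910848)) (I.mix (nat_lit 108068864) (nat_lit 43352064)) (I.mix (nat_lit 132071424) (nat_lit 43827200)))
  false (nat_lit 0)
def t2 : BTr := (BTr.n (BTr.n (BTr.n (BTr.b b2_0) (BTr.n (BTr.b b2_1) (BTr.b b2_2))) (BTr.n (BTr.b b2_3) (BTr.n (BTr.b b2_4) (BTr.b b2_5)))) (BTr.n (BTr.n (BTr.b b2_6) (BTr.n (BTr.b b2_7) (BTr.b b2_8))) (BTr.n (BTr.b b2_9) (BTr.n (BTr.b b2_10) (BTr.b b2_11)))))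
namespace T2
def l0 : Tr := Tr.L (Pth.l (Pth.l (Pth.l Pth.z)))
def l1 : Tr := Tr.L (Pth.l (Pth.l (Pth.r (Pth.l Pth.z))))
def l2 : Tr := Tr.L (Pth.l (Pth.l (Pth.r (Pth.r Pth.z))))
def l3 : Tr := Tr.L (Pth.l (Pth.r (Pth.l Pth.z)))
def l4 : Tr := Tr.L (Pth.l (Pth.r (Pth.r (Pth.l Pth.z))))
def l5 : Tr := Tr.L (Pth.l (Pth.r (Pth.r (Pth.r Pth.z))))
def l6 : Tr := Tr.L (Pth.r (Pth.l (Pth.l Pth.z)))
def l7 : Tr := Tr.L (Pth.r (Pth.l (Pth.r (Pth.l Pth.z))))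
def l8 : Tr := Tr.L (Pth.r (Pth.l (Pth.r (Pth.r Pth.z))))
def l9 : Tr := Tr.L (Pth.r (Pth.r (Pth.l Pth.z)))
def l10 : Tr := Tr.L (Pth.r (Pth.r (Pth.r (Pth.l Pth.z))))
def l11 : Tr := Tr.L (Pth.r (Pth.r (Pth.r (Pth.r Pth.z))))
end T2
theorem bx0_0 : BoxOK sI cl6 cl13 cl13 t1 t1 b0_0 :=
  box_mk (TrL.c (I.pos (nat_lit 0) (nat_lit 0)) (xa T1.l0 T1.l0)
  (TrL.c (I.pos (nat_lit 0) (nat_lit 0)) T1.l1
  (TrL.c (I.pos (nat_lit 0) (nat_lit 89480386)) T1.l2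
  (TrL.c (I.pos (nat_lit 0) (nat_lit 41530880)) T1.l3
  (TrL.c (I.pos (nat_lit 0) (nat_lit 0)) T1.l4
  (TrL.c (I.pos (nat_lit 0) (nat_lit 0)) T1.l5
  (TrL.c (I.mix (nat_lit 41527258) (nat_lit 41530880)) T1.l6
  (TrL.c (I.mix (nat_lit 41527258) (nat_lit 4274)) T1.l7
  TrL.n)))))))) (by decide +kernel)
theorem bx0_1 : BoxOK sI cl6 cl13 cl13 t1 t1 b0_1 :=
  box_mk (TrL.c (I.pos (nat_lit 0) (nat_lit 0)) (xa T1.l8 (xa T1.l8 T1.l8))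
  (TrL.c (I.pos (nat_lit 0) (nat_lit 0)) T1.l1
  (TrL.c (I.pos (nat_lit 0) (nat_lit 89480386)) T1.l2
  (TrL.c (I.pos (nat_lit 0) (nat_lit 41530880)) T1.l3
  (TrL.c (I.pos (nat_lit 0) (nat_lit 0)) T1.l9
  (TrL.c (I.pos (nat_lit 0) (nat_lit 0)) T1.l5
  (TrL.c (I.mix (nat_lit 41527258) (nat_lit 41530880)) T1.l6
  (TrL.c (I.mix (nat_lit 41527258) (nat_lit 4274)) T1.l7
  TrL.n)))))))) (by decide +kernel)
theorem bx0_2 : BoxOK sI cl6 cl13 cl13 t1 t1 b0_2 :=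
  box_mk (TrL.c (I.pos (nat_lit 0) (nat_lit 0)) T1.l8
  (TrL.c (I.pos (nat_lit 0) (nat_lit 0)) T1.l1
  (TrL.c (I.pos (nat_lit 0) (nat_lit 89480386)) T1.l2
  (TrL.c (I.pos (nat_lit 0) (nat_lit 41530880)) T1.l3
  (TrL.c (I.pos (nat_lit 0) (nat_lit 0)) T1.l9
  (TrL.c (I.pos (nat_lit 0) (nat_lit 0)) T1.l5
  (TrL.c (I.mix (nat_lit 41527258) (nat_lit 41530880)) T1.l6
  (TrL.c (I.mix (nat_lit 41527258) (nat_lit 4274)) T1.l7
  TrL.n)))))))) (by decide +kernel)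
theorem bx0_3 : BoxOK sI cl6 cl13 cl13 t1 t1 b0_3 :=
  box_mk (TrL.c (I.pos (nat_lit 0) (nat_lit 0)) T1.l8
  (TrL.c (I.pos (nat_lit 0) (nat_lit 0)) T1.l1
  (TrL.c (I.pos (nat_lit 0) (nat_lit 89480386)) T1.l2
  (TrL.c (I.pos (nat_lit 0) (nat_lit 41530880)) T1.l3
  (TrL.c (I.pos (nat_lit 0) (nat_lit 0)) T1.l9
  (TrL.c (I.pos (nat_lit 0) (nat_lit 0)) T1.l5
  (TrL.c (I.mix (nat_lit 41527258) (nat_lit 41530880)) T1.l6
  (TrL.c (I.mix (nat_lit 41527258) (nat_lit 4274)) T1.l7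
  TrL.n)))))))) (by decide +kernel)
theorem bx0_4 : BoxOK sI cl6 cl13 cl13 t1 t1 b0_4 :=
  box_mk (TrL.c (I.pos (nat_lit 0) (nat_lit 0)) (xa T1.l0 T1.l0)
  (TrL.c (I.pos (nat_lit 0) (nat_lit 0)) T1.l1
  (TrL.c (I.pos (nat_lit 0) (nat_lit 89480386)) T1.l2
  (TrL.c (I.pos (nat_lit 0) (nat_lit 41530880)) T1.l3
  (TrL.c (I.pos (nat_lit 0) (nat_lit 0)) (xa T1.l4 T1.l4)
  (TrL.c (I.pos (nat_lit 0) (nat_lit 0)) T1.l5
  (TrL.c (I.mix (nat_lit 41527258) (nat_lit 41530880)) T1.l2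
  (TrL.c (I.mix (nat_lit 41527258) (nat_lit 4274)) T1.l7
  TrL.n)))))))) (by decide +kernel)
theorem bx0_5 : BoxOK sI cl6 cl13 cl13 t1 t1 b0_5 :=
  box_mk (TrL.c (I.pos (nat_lit 0) (nat_lit 0)) T1.l8
  (TrL.c (I.pos (nat_lit 0) (nat_lit 0)) T1.l1
  (TrL.c (I.pos (nat_lit 0) (nat_lit 89480386)) T1.l2
  (TrL.c (I.pos (nat_lit 0) (nat_lit 41530880)) T1.l3
  (TrL.c (I.pos (nat_lit 0) (nat_lit 0)) T1.l9
  (TrL.c (I.pos (nat_lit 0) (nat_lit 0)) T1.l5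
  (TrL.c (I.mix (nat_lit 41527258) (nat_lit 41530880)) T1.l6
  (TrL.c (I.mix (nat_lit 41527258) (nat_lit 4274)) T1.l7
  TrL.n)))))))) (by decide +kernel)
theorem bx0_6 : BoxOK sI cl6 cl13 cl13 t1 t1 b0_6 :=
  box_mk (TrL.c (I.pos (nat_lit 0) (nat_lit 0)) (xa (xa T1.l8 T1.l8) T1.l8)
  (TrL.c (I.pos (nat_lit 0) (nat_lit 0)) T1.l1
  (TrL.c (I.pos (nat_lit 0) (nat_lit 89480386)) T1.l2
  (TrL.c (I.pos (nat_lit 0) (nat_lit 41530880)) T1.l3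
  (TrL.c (I.pos (nat_lit 0) (nat_lit 0)) T1.l9
  (TrL.c (I.pos (nat_lit 0) (nat_lit 0)) T1.l5
  (TrL.c (I.mix (nat_lit 41527258) (nat_lit 41530880)) T1.l6
  (TrL.c (I.mix (nat_lit 41527258) (nat_lit 4274)) T1.l7
  TrL.n)))))))) (by decide +kernel)
theorem bx0_7 : BoxOK sI cl6 cl13 cl13 t1 t1 b0_7 :=
  box_mk (TrL.c (I.pos (nat_lit 0) (nat_lit 0)) T1.l10
  (TrL.c (I.pos (nat_lit 0) (nat_lit 0)) T1.l1
  (TrL.c (I.pos (nat_lit 0) (nat_lit 89480386)) T1.l2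
  (TrL.c (I.pos (nat_lit 0) (nat_lit 41530880)) T1.l3
  (TrL.c (I.pos (nat_lit 0) (nat_lit 0)) T1.l11
  (TrL.c (I.pos (nat_lit 0) (nat_lit 0)) T1.l5
  (TrL.c (I.mix (nat_lit 41527258) (nat_lit 41530880)) T1.l6
  (TrL.c (I.mix (nat_lit 41527258) (nat_lit 4274)) T1.l7
  TrL.n)))))))) (by decide +kernel)
theorem bx0_8 : BoxOK sI cl6 cl13 cl13 t1 t1 b0_8 :=
  box_mk (TrL.c (I.pos (nat_lit 0) (nat_lit 0)) (xa (xa (xb T1.l8 T1.l8) T1.l8) (xa T1.l8 T1.l8))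
  (TrL.c (I.pos (nat_lit 0) (nat_lit 0)) T1.l1
  (TrL.c (I.pos (nat_lit 0) (nat_lit 89480386)) T1.l2
  (TrL.c (I.pos (nat_lit 0) (nat_lit 41530880)) T1.l3
  (TrL.c (I.pos (nat_lit 0) (nat_lit 0)) T1.l9
  (TrL.c (I.pos (nat_lit 0) (nat_lit 0)) T1.l5
  (TrL.c (I.mix (nat_lit 41527258) (nat_lit 41530880)) T1.l6
  (TrL.c (I.mix (nat_lit 41527258) (nat_lit 4274)) T1.l7
  TrL.n)))))))) (by decide +kernel)
theorem bx0_9 : BoxOK sI cl6 cl13 cl13 t1 t1 b0_9 :=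
  box_mk (TrL.c (I.pos (nat_lit 0) (nat_lit 0)) T1.l0
  (TrL.c (I.pos (nat_lit 0) (nat_lit 0)) T1.l1
  (TrL.c (I.pos (nat_lit 0) (nat_lit 89480386)) T1.l2
  (TrL.c (I.pos (nat_lit 0) (nat_lit 41530880)) T1.l3
  (TrL.c (I.pos (nat_lit 0) (nat_lit 0)) T1.l11
  (TrL.c (I.pos (nat_lit 0) (nat_lit 0)) T1.l5
  (TrL.c (I.mix (nat_lit 41527258) (nat_lit 41530880)) T1.l6
  (TrL.c (I.mix (nat_lit 41527258) (nat_lit 4274)) T1.l7
  TrL.n)))))))) (by decide +kernel)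
theorem bx0_10 : BoxOK sI cl6 cl13 cl13 t1 t1 b0_10 :=
  box_mk (TrL.c (I.pos (nat_lit 0) (nat_lit 0)) T1.l10
  (TrL.c (I.pos (nat_lit 0) (nat_lit 0)) T1.l1
  (TrL.c (I.pos (nat_lit 0) (nat_lit 89480386)) T1.l2
  (TrL.c (I.pos (nat_lit 0) (nat_lit 41530880)) T1.l3
  (TrL.c (I.pos (nat_lit 0) (nat_lit 0)) T1.l11
  (TrL.c (I.pos (nat_lit 0) (nat_lit 0)) T1.l5
  (TrL.c (I.mix (nat_lit 41527258) (nat_lit 41530880)) T1.l2
  (TrL.c (I.mix (nat_lit 41527258) (nat_lit 4274)) T1.l7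
  TrL.n)))))))) (by decide +kernel)
theorem bx0_11 : BoxOK sI cl6 cl13 cl13 t1 t1 b0_11 :=
  box_mk (TrL.c (I.pos (nat_lit 0) (nat_lit 0)) T1.l0
  (TrL.c (I.pos (nat_lit 0) (nat_lit 0)) T1.l1
  (TrL.c (I.pos (nat_lit 0) (nat_lit 89480386)) T1.l2
  (TrL.c (I.pos (nat_lit 0) (nat_lit 41530880)) T1.l3
  (TrL.c (I.pos (nat_lit 0) (nat_lit 0)) T1.l4
  (TrL.c (I.pos (nat_lit 0) (nat_lit 0)) T1.l5
  (TrL.c (I.mix (nat_lit 41527258) (nat_lit 41530880)) T1.l6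
  (TrL.c (I.mix (nat_lit 41527258) (nat_lit 4274)) T1.l7
  TrL.n)))))))) (by decide +kernel)
theorem sv0 : StarV sI cl6 cl13 cl13 t1 t1 t0 :=
  (bt_n (bt_n (bt_n (bt_b bx0_0) (bt_n (bt_b bx0_1) (bt_b bx0_2))) (bt_n (bt_b bx0_3) (bt_n (bt_b bx0_4) (bt_b bx0_5)))) (bt_n (bt_n (bt_b bx0_6) (bt_n (bt_b bx0_7) (bt_b bx0_8))) (bt_n (bt_b bx0_9) (bt_n (bt_b bx0_10) (bt_b bx0_11)))))
def S0 : StarD := StarD.mk cl6 cl13 cl13 1 1 t0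
theorem bx1_0 : BoxOK sI cl13 cl6 cl13 t0 t2 b1_0 :=
  box_mk (TrL.c (I.pos (nat_lit 0) (nat_lit 0)) (xa T0.l0 T0.l0)
  (TrL.c (I.pos (nat_lit 0) (nat_lit 0)) T2.l1
  (TrL.c (I.pos (nat_lit 0) (nat_lit 134217730)) (xR T0.l1 T0.l8)
  (TrL.c (I.pos (nat_lit 0) (nat_lit 110514882)) (xR T2.l2 T2.l2)
  (TrL.c (I.pos (nat_lit 0) (nat_lit 0)) (xa T2.l3 T2.l3)
  (TrL.c (I.pos (nat_lit 0) (nat_lit 0)) T0.l2
  (TrL.c (I.mix (nat_lit 8088324) (nat_lit 110514882)) (xR T2.l4 T2.l4)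
  (TrL.c (I.mix (nat_lit 8088324) (nat_lit 89478486)) T0.l6
  TrL.n)))))))) (by decide +kernel)
theorem bx1_1 : BoxOK sI cl13 cl6 cl13 t0 t2 b1_1 :=
  box_mk (TrL.c (I.pos (nat_lit 0) (nat_lit 0)) T0.l4
  (TrL.c (I.pos (nat_lit 0) (nat_lit 0)) T2.l1
  (TrL.c (I.pos (nat_lit 0) (nat_lit 134217730)) (xR T0.l1 T0.l1)
  (TrL.c (I.pos (nat_lit 0) (nat_lit 110514882)) (xR T2.l2 T2.l2)
  (TrL.c (I.pos (nat_lit 0) (nat_lit 0)) T2.l5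
  (TrL.c (I.pos (nat_lit 0) (nat_lit 0)) T0.l2
  (TrL.c (I.mix (nat_lit 8088324) (nat_lit 110514882)) T2.l4
  (TrL.c (I.mix (nat_lit 8088324) (nat_lit 89478486)) T0.l6
  TrL.n)))))))) (by decide +kernel)
theorem bx1_2 : BoxOK sI cl13 cl6 cl13 t0 t2 b1_2 :=
  box_mk (TrL.c (I.pos (nat_lit 0) (nat_lit 0)) (xa (xa T0.l4 T0.l4) T0.l4)
  (TrL.c (I.pos (nat_lit 0) (nat_lit 0)) T2.l1
  (TrL.c (I.pos (nat_lit 0) (nat_lit 134217730)) T0.l1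
  (TrL.c (I.pos (nat_lit 0) (nat_lit 110514882)) T2.l2
  (TrL.c (I.pos (nat_lit 0) (nat_lit 0)) T2.l5
  (TrL.c (I.pos (nat_lit 0) (nat_lit 0)) T0.l2
  (TrL.c (I.mix (nat_lit 8088324) (nat_lit 110514882)) T2.l4
  (TrL.c (I.mix (nat_lit 8088324) (nat_lit 89478486)) T0.l1
  TrL.n)))))))) (by decide +kernel)
theorem bx1_3 : BoxOK sI cl13 cl6 cl13 t0 t2 b1_3 :=
  box_mk (TrL.c (I.pos (nat_lit 0) (nat_lit 0)) T0.l4
  (TrL.c (I.pos (nat_lit 0) (nat_lit 0)) T2.l1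
  (TrL.c (I.pos (nat_lit 0) (nat_lit 134217730)) T0.l1
  (TrL.c (I.pos (nat_lit 0) (nat_lit 110514882)) T2.l2
  (TrL.c (I.pos (nat_lit 0) (nat_lit 0)) T2.l5
  (TrL.c (I.pos (nat_lit 0) (nat_lit 0)) T0.l2
  (TrL.c (I.mix (nat_lit 8088324) (nat_lit 110514882)) T2.l4
  (TrL.c (I.mix (nat_lit 8088324) (nat_lit 89478486)) T0.l1
  TrL.n)))))))) (by decide +kernel)
theorem bx1_4 : BoxOK sI cl13 cl6 cl13 t0 t2 b1_4 :=
  box_mk (TrL.c (I.pos (nat_lit 0) (nat_lit 0)) T0.l11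
  (TrL.c (I.pos (nat_lit 0) (nat_lit 0)) T2.l1
  (TrL.c (I.pos (nat_lit 0) (nat_lit 134217730)) (xR T0.l1 T0.l8)
  (TrL.c (I.pos (nat_lit 0) (nat_lit 110514882)) (xR T2.l2 T2.l2)
  (TrL.c (I.pos (nat_lit 0) (nat_lit 0)) T2.l3
  (TrL.c (I.pos (nat_lit 0) (nat_lit 0)) T0.l2
  (TrL.c (I.mix (nat_lit 8088324) (nat_lit 110514882)) (xR T2.l4 T2.l4)
  (TrL.c (I.mix (nat_lit 8088324) (nat_lit 89478486)) T0.l6
  TrL.n)))))))) (by decide +kernel)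
theorem bx1_5 : BoxOK sI cl13 cl6 cl13 t0 t2 b1_5 :=
  box_mk (TrL.c (I.pos (nat_lit 0) (nat_lit 0)) T0.l4
  (TrL.c (I.pos (nat_lit 0) (nat_lit 0)) T2.l1
  (TrL.c (I.pos (nat_lit 0) (nat_lit 134217730)) T0.l1
  (TrL.c (I.pos (nat_lit 0) (nat_lit 110514882)) T2.l2
  (TrL.c (I.pos (nat_lit 0) (nat_lit 0)) T2.l5
  (TrL.c (I.pos (nat_lit 0) (nat_lit 0)) T0.l2
  (TrL.c (I.mix (nat_lit 8088324) (nat_lit 110514882)) T2.l4
  (TrL.c (I.mix (nat_lit 8088324) (nat_lit 89478486)) T0.l3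
  TrL.n)))))))) (by decide +kernel)
theorem bx1_6 : BoxOK sI cl13 cl6 cl13 t0 t2 b1_6 :=
  box_mk (TrL.c (I.pos (nat_lit 0) (nat_lit 0)) (xa (xa T0.l4 T0.l4) T0.l4)
  (TrL.c (I.pos (nat_lit 0) (nat_lit 0)) T2.l1
  (TrL.c (I.pos (nat_lit 0) (nat_lit 134217730)) T0.l1
  (TrL.c (I.pos (nat_lit 0) (nat_lit 110514882)) T2.l2
  (TrL.c (I.pos (nat_lit 0) (nat_lit 0)) T2.l5
  (TrL.c (I.pos (nat_lit 0) (nat_lit 0)) T0.l2
  (TrL.c (I.mix (nat_lit 8088324) (nat_lit 110514882)) T2.l4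
  (TrL.c (I.mix (nat_lit 8088324) (nat_lit 89478486)) T0.l1
  TrL.n)))))))) (by decide +kernel)
theorem bx1_7 : BoxOK sI cl13 cl6 cl13 t0 t2 b1_7 :=
  box_mk (TrL.c (I.pos (nat_lit 0) (nat_lit 0)) (xa T0.l4 T0.l4)
  (TrL.c (I.pos (nat_lit 0) (nat_lit 0)) T2.l5
  (TrL.c (I.pos (nat_lit 0) (nat_lit 134217730)) T0.l1
  (TrL.c (I.pos (nat_lit 0) (nat_lit 110514882)) T2.l4
  (TrL.c (I.pos (nat_lit 0) (nat_lit 0)) T2.l1
  (TrL.c (I.pos (nat_lit 0) (nat_lit 0)) T0.l2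
  (TrL.c (I.mix (nat_lit 8088324) (nat_lit 110514882)) T2.l4
  (TrL.c (I.mix (nat_lit 8088324) (nat_lit 89478486)) T0.l1
  TrL.n)))))))) (by decide +kernel)
theorem bx1_8 : BoxOK sI cl13 cl6 cl13 t0 t2 b1_8 :=
  box_mk (TrL.c (I.pos (nat_lit 0) (nat_lit 0)) T0.l0
  (TrL.c (I.pos (nat_lit 0) (nat_lit 0)) T2.l1
  (TrL.c (I.pos (nat_lit 0) (nat_lit 134217730)) (xR T0.l1 T0.l8)
  (TrL.c (I.pos (nat_lit 0) (nat_lit 110514882)) (xR T2.l2 T2.l2)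
  (TrL.c (I.pos (nat_lit 0) (nat_lit 0)) (xa T2.l3 (xk (xb T2.l3 T2.l3) (xb T2.l3 T2.l3)))
  (TrL.c (I.pos (nat_lit 0) (nat_lit 0)) T0.l2
  (TrL.c (I.mix (nat_lit 8088324) (nat_lit 110514882)) (xR T2.l4 T2.l4)
  (TrL.c (I.mix (nat_lit 8088324) (nat_lit 89478486)) T0.l6
  TrL.n)))))))) (by decide +kernel)
theorem bx1_9 : BoxOK sI cl13 cl6 cl13 t0 t2 b1_9 :=
  box_mk (TrL.c (I.pos (nat_lit 0) (nat_lit 0)) T0.l11
  (TrL.c (I.pos (nat_lit 0) (nat_lit 0)) T2.l1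
  (TrL.c (I.pos (nat_lit 0) (nat_lit 134217730)) (xR T0.l1 T0.l1)
  (TrL.c (I.pos (nat_lit 0) (nat_lit 110514882)) (xR T2.l2 T2.l2)
  (TrL.c (I.pos (nat_lit 0) (nat_lit 0)) T2.l11
  (TrL.c (I.pos (nat_lit 0) (nat_lit 0)) T0.l2
  (TrL.c (I.mix (nat_lit 8088324) (nat_lit 110514882)) T2.l4
  (TrL.c (I.mix (nat_lit 8088324) (nat_lit 89478486)) T0.l6
  TrL.n)))))))) (by decide +kernel)
theorem bx1_10 : BoxOK sI cl13 cl6 cl13 t0 t2 b1_10 :=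
  box_mk (TrL.c (I.pos (nat_lit 0) (nat_lit 0)) T0.l0
  (TrL.c (I.pos (nat_lit 0) (nat_lit 0)) T2.l1
  (TrL.c (I.pos (nat_lit 0) (nat_lit 134217730)) (xR T0.l1 T0.l8)
  (TrL.c (I.pos (nat_lit 0) (nat_lit 110514882)) (xR T2.l2 T2.l2)
  (TrL.c (I.pos (nat_lit 0) (nat_lit 0)) (xb T2.l3 T2.l3)
  (TrL.c (I.pos (nat_lit 0) (nat_lit 0)) T0.l2
  (TrL.c (I.mix (nat_lit 8088324) (nat_lit 110514882)) (xR T2.l4 T2.l4)
  (TrL.c (I.mix (nat_lit 8088324) (nat_lit 89478486)) T0.l6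
  TrL.n)))))))) (by decide +kernel)
theorem bx1_11 : BoxOK sI cl13 cl6 cl13 t0 t2 b1_11 :=
  box_mk (TrL.c (I.pos (nat_lit 0) (nat_lit 0)) T0.l11
  (TrL.c (I.pos (nat_lit 0) (nat_lit 0)) T2.l1
  (TrL.c (I.pos (nat_lit 0) (nat_lit 134217730)) (xR T0.l1 T0.l8)
  (TrL.c (I.pos (nat_lit 0) (nat_lit 110514882)) (xR T2.l2 T2.l2)
  (TrL.c (I.pos (nat_lit 0) (nat_lit 0)) T2.l3
  (TrL.c (I.pos (nat_lit 0) (nat_lit 0)) T0.l2
  (TrL.c (I.mix (nat_lit 8088324) (nat_lit 110514882)) (xR T2.l4 T2.l4)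
  (TrL.c (I.mix (nat_lit 8088324) (nat_lit 89478486)) T0.l6
  TrL.n)))))))) (by decide +kernel)
theorem sv1 : StarV sI cl13 cl6 cl13 t0 t2 t1 :=
  (bt_n (bt_n (bt_n (bt_b bx1_0) (bt_n (bt_b bx1_1) (bt_b bx1_2))) (bt_n (bt_b bx1_3) (bt_n (bt_b bx1_4) (bt_b bx1_5)))) (bt_n (bt_n (bt_b bx1_6) (bt_n (bt_b bx1_7) (bt_b bx1_8))) (bt_n (bt_b bx1_9) (bt_n (bt_b bx1_10) (bt_b bx1_11)))))
def S1 : StarD := StarD.mk cl13 cl6 cl13 0 2 t1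
theorem bx2_0 : BoxOK sI cl13 cl13 cl6 t2 t0 b2_0 :=
  box_mk (TrL.c (I.pos (nat_lit 0) (nat_lit 0)) (xa T2.l0 T2.l0)
  (TrL.c (I.pos (nat_lit 0) (nat_lit 0)) T0.l5
  (TrL.c (I.pos (nat_lit 0) (nat_lit 134217730)) (xR T2.l6 T2.l6)
  (TrL.c (I.pos (nat_lit 0) (nat_lit 110514882)) (xR T0.l6 T0.l6)
  (TrL.c (I.pos (nat_lit 0) (nat_lit 0)) (xa T0.l7 (xk T0.l7 T0.l7))
  (TrL.c (I.pos (nat_lit 0) (nat_lit 0)) T2.l7
  (TrL.c (I.mix (nat_lit 8088324) (nat_lit 110514882)) (xR T0.l8 T0.l8)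
  (TrL.c (I.mix (nat_lit 8088324) (nat_lit 89478486)) T2.l9
  TrL.n)))))))) (by decide +kernel)
theorem bx2_1 : BoxOK sI cl13 cl13 cl6 t2 t0 b2_1 :=
  box_mk (TrL.c (I.pos (nat_lit 0) (nat_lit 0)) T2.l8
  (TrL.c (I.pos (nat_lit 0) (nat_lit 0)) T0.l5
  (TrL.c (I.pos (nat_lit 0) (nat_lit 134217730)) (xR T2.l6 T2.l6)
  (TrL.c (I.pos (nat_lit 0) (nat_lit 110514882)) (xR T0.l6 T0.l6)
  (TrL.c (I.pos (nat_lit 0) (nat_lit 0)) T0.l9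
  (TrL.c (I.pos (nat_lit 0) (nat_lit 0)) T2.l7
  (TrL.c (I.mix (nat_lit 8088324) (nat_lit 110514882)) T0.l8
  (TrL.c (I.mix (nat_lit 8088324) (nat_lit 89478486)) T2.l9
  TrL.n)))))))) (by decide +kernel)
theorem bx2_2 : BoxOK sI cl13 cl13 cl6 t2 t0 b2_2 :=
  box_mk (TrL.c (I.pos (nat_lit 0) (nat_lit 0)) (xa T2.l8 T2.l8)
  (TrL.c (I.pos (nat_lit 0) (nat_lit 0)) T0.l5
  (TrL.c (I.pos (nat_lit 0) (nat_lit 134217730)) T2.l6
  (TrL.c (I.pos (nat_lit 0) (nat_lit 110514882)) T0.l6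
  (TrL.c (I.pos (nat_lit 0) (nat_lit 0)) T0.l9
  (TrL.c (I.pos (nat_lit 0) (nat_lit 0)) T2.l7
  (TrL.c (I.mix (nat_lit 8088324) (nat_lit 110514882)) T0.l8
  (TrL.c (I.mix (nat_lit 8088324) (nat_lit 89478486)) T2.l2
  TrL.n)))))))) (by decide +kernel)
theorem bx2_3 : BoxOK sI cl13 cl13 cl6 t2 t0 b2_3 :=
  box_mk (TrL.c (I.pos (nat_lit 0) (nat_lit 0)) T2.l10
  (TrL.c (I.pos (nat_lit 0) (nat_lit 0)) T0.l5
  (TrL.c (I.pos (nat_lit 0) (nat_lit 134217730)) (xR T2.l6 T2.l6)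
  (TrL.c (I.pos (nat_lit 0) (nat_lit 110514882)) (xR T0.l6 T0.l6)
  (TrL.c (I.pos (nat_lit 0) (nat_lit 0)) (xb T0.l10 T0.l7)
  (TrL.c (I.pos (nat_lit 0) (nat_lit 0)) T2.l7
  (TrL.c (I.mix (nat_lit 8088324) (nat_lit 110514882)) (xR T0.l8 T0.l8)
  (TrL.c (I.mix (nat_lit 8088324) (nat_lit 89478486)) T2.l9
  TrL.n)))))))) (by decide +kernel)
theorem bx2_4 : BoxOK sI cl13 cl13 cl6 t2 t0 b2_4 :=
  box_mk (TrL.c (I.pos (nat_lit 0) (nat_lit 0)) (xa (xa T2.l8 T2.l8) (xa T2.l8 T2.l8))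
  (TrL.c (I.pos (nat_lit 0) (nat_lit 0)) (xa T0.l5 T0.l5)
  (TrL.c (I.pos (nat_lit 0) (nat_lit 134217730)) T2.l6
  (TrL.c (I.pos (nat_lit 0) (nat_lit 110514882)) T0.l6
  (TrL.c (I.pos (nat_lit 0) (nat_lit 0)) (xa T0.l9 T0.l9)
  (TrL.c (I.pos (nat_lit 0) (nat_lit 0)) T2.l7
  (TrL.c (I.mix (nat_lit 8088324) (nat_lit 110514882)) T0.l8
  (TrL.c (I.mix (nat_lit 8088324) (nat_lit 89478486)) T2.l4
  TrL.n)))))))) (by decide +kernel)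
theorem bx2_5 : BoxOK sI cl13 cl13 cl6 t2 t0 b2_5 :=
  box_mk (TrL.c (I.pos (nat_lit 0) (nat_lit 0)) T2.l0
  (TrL.c (I.pos (nat_lit 0) (nat_lit 0)) T0.l5
  (TrL.c (I.pos (nat_lit 0) (nat_lit 134217730)) (xR T2.l6 T2.l6)
  (TrL.c (I.pos (nat_lit 0) (nat_lit 110514882)) (xR T0.l6 T0.l6)
  (TrL.c (I.pos (nat_lit 0) (nat_lit 0)) T0.l10
  (TrL.c (I.pos (nat_lit 0) (nat_lit 0)) T2.l7
  (TrL.c (I.mix (nat_lit 8088324) (nat_lit 110514882)) (xR T0.l8 T0.l8)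
  (TrL.c (I.mix (nat_lit 8088324) (nat_lit 89478486)) T2.l9
  TrL.n)))))))) (by decide +kernel)
theorem bx2_6 : BoxOK sI cl13 cl13 cl6 t2 t0 b2_6 :=
  box_mk (TrL.c (I.pos (nat_lit 0) (nat_lit 0)) (xa (xa T2.l8 T2.l8) (xa T2.l8 T2.l8))
  (TrL.c (I.pos (nat_lit 0) (nat_lit 0)) T0.l5
  (TrL.c (I.pos (nat_lit 0) (nat_lit 134217730)) T2.l6
  (TrL.c (I.pos (nat_lit 0) (nat_lit 110514882)) T0.l6
  (TrL.c (I.pos (nat_lit 0) (nat_lit 0)) T0.l9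
  (TrL.c (I.pos (nat_lit 0) (nat_lit 0)) T2.l7
  (TrL.c (I.mix (nat_lit 8088324) (nat_lit 110514882)) T0.l8
  (TrL.c (I.mix (nat_lit 8088324) (nat_lit 89478486)) T2.l2
  TrL.n)))))))) (by decide +kernel)
theorem bx2_7 : BoxOK sI cl13 cl13 cl6 t2 t0 b2_7 :=
  box_mk (TrL.c (I.pos (nat_lit 0) (nat_lit 0)) T2.l8
  (TrL.c (I.pos (nat_lit 0) (nat_lit 0)) T0.l5
  (TrL.c (I.pos (nat_lit 0) (nat_lit 134217730)) (xR T2.l6 T2.l6)
  (TrL.c (I.pos (nat_lit 0) (nat_lit 110514882)) (xR T0.l6 T0.l6)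
  (TrL.c (I.pos (nat_lit 0) (nat_lit 0)) T0.l9
  (TrL.c (I.pos (nat_lit 0) (nat_lit 0)) T2.l7
  (TrL.c (I.mix (nat_lit 8088324) (nat_lit 110514882)) T0.l8
  (TrL.c (I.mix (nat_lit 8088324) (nat_lit 89478486)) T2.l9
  TrL.n)))))))) (by decide +kernel)
theorem bx2_8 : BoxOK sI cl13 cl13 cl6 t2 t0 b2_8 :=
  box_mk (TrL.c (I.pos (nat_lit 0) (nat_lit 0)) (xa T2.l0 T2.l0)
  (TrL.c (I.pos (nat_lit 0) (nat_lit 0)) T0.l5
  (TrL.c (I.pos (nat_lit 0) (nat_lit 134217730)) (xR T2.l6 T2.l4)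
  (TrL.c (I.pos (nat_lit 0) (nat_lit 110514882)) (xR T0.l6 T0.l6)
  (TrL.c (I.pos (nat_lit 0) (nat_lit 0)) (xa T0.l7 (xk T0.l7 T0.l7))
  (TrL.c (I.pos (nat_lit 0) (nat_lit 0)) T2.l7
  (TrL.c (I.mix (nat_lit 8088324) (nat_lit 110514882)) (xR T0.l8 T0.l8)
  (TrL.c (I.mix (nat_lit 8088324) (nat_lit 89478486)) T2.l9
  TrL.n)))))))) (by decide +kernel)
theorem bx2_9 : BoxOK sI cl13 cl13 cl6 t2 t0 b2_9 :=
  box_mk (TrL.c (I.pos (nat_lit 0) (nat_lit 0)) (xa T2.l8 T2.l8)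
  (TrL.c (I.pos (nat_lit 0) (nat_lit 0)) T0.l5
  (TrL.c (I.pos (nat_lit 0) (nat_lit 134217730)) T2.l6
  (TrL.c (I.pos (nat_lit 0) (nat_lit 110514882)) T0.l6
  (TrL.c (I.pos (nat_lit 0) (nat_lit 0)) T0.l9
  (TrL.c (I.pos (nat_lit 0) (nat_lit 0)) T2.l7
  (TrL.c (I.mix (nat_lit 8088324) (nat_lit 110514882)) T0.l8
  (TrL.c (I.mix (nat_lit 8088324) (nat_lit 89478486)) T2.l2
  TrL.n)))))))) (by decide +kernel)
theorem bx2_10 : BoxOK sI cl13 cl13 cl6 t2 t0 b2_10 :=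
  box_mk (TrL.c (I.pos (nat_lit 0) (nat_lit 0)) T2.l0
  (TrL.c (I.pos (nat_lit 0) (nat_lit 0)) T0.l5
  (TrL.c (I.pos (nat_lit 0) (nat_lit 134217730)) (xR T2.l6 T2.l6)
  (TrL.c (I.pos (nat_lit 0) (nat_lit 110514882)) (xR T0.l6 T0.l6)
  (TrL.c (I.pos (nat_lit 0) (nat_lit 0)) T0.l7
  (TrL.c (I.pos (nat_lit 0) (nat_lit 0)) T2.l7
  (TrL.c (I.mix (nat_lit 8088324) (nat_lit 110514882)) (xR T0.l8 T0.l8)
  (TrL.c (I.mix (nat_lit 8088324) (nat_lit 89478486)) T2.l9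
  TrL.n)))))))) (by decide +kernel)
theorem bx2_11 : BoxOK sI cl13 cl13 cl6 t2 t0 b2_11 :=
  box_mk (TrL.c (I.pos (nat_lit 0) (nat_lit 0)) T2.l10
  (TrL.c (I.pos (nat_lit 0) (nat_lit 0)) T0.l5
  (TrL.c (I.pos (nat_lit 0) (nat_lit 134217730)) (xR T2.l6 T2.l6)
  (TrL.c (I.pos (nat_lit 0) (nat_lit 110514882)) (xR T0.l6 T0.l6)
  (TrL.c (I.pos (nat_lit 0) (nat_lit 0)) T0.l10
  (TrL.c (I.pos (nat_lit 0) (nat_lit 0)) T2.l7
  (TrL.c (I.mix (nat_lit 8088324) (nat_lit 110514882)) (xR T0.l8 T0.l8)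
  (TrL.c (I.mix (nat_lit 8088324) (nat_lit 89478486)) T2.l9
  TrL.n)))))))) (by decide +kernel)
theorem sv2 : StarV sI cl13 cl13 cl6 t2 t0 t2 :=
  (bt_n (bt_n (bt_n (bt_b bx2_0) (bt_n (bt_b bx2_1) (bt_b bx2_2))) (bt_n (bt_b bx2_3) (bt_n (bt_b bx2_4) (bt_b bx2_5)))) (bt_n (bt_n (bt_b bx2_6) (bt_n (bt_b bx2_7) (bt_b bx2_8))) (bt_n (bt_b bx2_9) (bt_n (bt_b bx2_10) (bt_b bx2_11)))))
def S2 : StarD := StarD.mk cl13 cl13 cl6 2 0 t2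
def G : List StarD := [S0, S1, S2]
theorem so0 : StarOK sI G S0 :=
  star_mk (by decide) (by decide) rfl rfl rfl rfl rfl rfl (rfl : _ = t1) (rfl : _ = t1)
  (st_mk (Pth.l (Pth.l (Pth.l Pth.z))) (nat_lit 96682885) (nat_lit 115228180) (by decide +kernel))
  (st_mk (Pth.l (Pth.l (Pth.l Pth.z))) (nat_lit 132315649) (nat_lit 151115852) (by decide +kernel))
  (st_mk (Pth.l (Pth.l (Pth.l Pth.z))) (nat_lit 173722181) (nat_lit 192872518) (by decide +kernel)) sv0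
theorem so1 : StarOK sI G S1 :=
  star_mk (by decide) (by decide) rfl rfl rfl rfl rfl rfl (rfl : _ = t0) (rfl : _ = t2)
  (st_mk (Pth.l (Pth.l (Pth.l Pth.z))) (nat_lit 185843017) (nat_lit 187051881) (by decide +kernel))
  (st_mk (Pth.l (Pth.l (Pth.l Pth.z))) (nat_lit 220739626) (nat_lit 222223691) (by decide +kernel))
  (st_mk (Pth.l (Pth.l (Pth.l Pth.z))) (nat_lit 261004945) (nat_lit 262865999) (by decide +kernel)) sv1
theorem so2 : StarOK sI G S2 :=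
  star_mk (by decide) (by decide) rfl rfl rfl rfl rfl rfl (rfl : _ = t2) (rfl : _ = t0)
  (st_mk (Pth.l (Pth.l (Pth.l Pth.z))) (nat_lit 96368329) (nat_lit 113635730) (by decide +kernel))
  (st_mk (Pth.l (Pth.l (Pth.l Pth.z))) (nat_lit 130728068) (nat_lit 149291146) (by decide +kernel))
  (st_mk (Pth.l (Pth.l (Pth.l Pth.z))) (nat_lit 170993386) (nat_lit 189887198) (by decide +kernel)) sv2
theorem ok : GroupOK (nat_lit 91226112) (nat_lit 150339584) G := grp_mk (allS_c so0 (allS_c so1 (allS_c so2 allS_n)))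
theorem cov : GCov G cl6 cl13 cl13 := cov_mk
  ⟨0, by decide, rfl, rfl, rfl⟩ ⟨0, by decide, rfl, rfl, rfl⟩ ⟨1, by decide, rfl, rfl, rfl⟩ ⟨2, by decide, rfl, rfl, rfl⟩ ⟨1, by decide, rfl, rfl, rfl⟩ ⟨2, by decide, rfl, rfl, rfl⟩
end Q366_1

namespace Q366_2
def sI : I := I.pos (nat_lit 150274048) (nat_lit 209387520)
def b0_0 : Bx := Bx.mk (St.mk (I.pos (nat_lit 158302208) (nat_lit 239353856)) (I.mix (nat_lit 1556480) (nat_lit 50741248)) (I.mix (nat_lit 2310144) (nat_lit 79577088)) (I.pos (nat_lit 93077504) (nat_lit 225755136)) (I.mix (nat_lit 92323840) (nat_lit 52346880)) (I.mix (nat_lit 62324736) (nat_lit 51478528)) (I.mix (nat_lit 88276992) (nat_lit 66437120)))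
  false (nat_lit 37842561)
def b0_1 : Bx := Bx.mk (St.mk (I.mix (nat_lit 9289728) (nat_lit 143900672)) (I.mix (nat_lit 7634944) (nat_lit 24084480)) (I.mix (nat_lit 15155200) (nat_lit 17367040)) (I.mix (nat_lit 3227648) (nat_lit 91750400)) (I.mix (nat_lit 25591808) (nat_lit 23986176)) (I.mix (nat_lit 19431424) (nat_lit 16187392)) (I.mix (nat_lit 15794176) (nat_lit 12615680)))
  false (nat_lit 0)
def b0_2 : Bx := Bx.mk (St.mk (I.pos (nat_lit 115851264) (nat_lit 154845184)) (I.mix (nat_lit 42106880) (nat_lit 6602752)) (I.mix (nat_lit 49250304) (nat_lit 1097728)) (I.pos (nat_lit 52445184) (nat_lit 102629376)) (I.mix (nat_lit 71467008) (nat_lit 19595264)) (I.mix (nat_lit 23478272) (nat_lit 60522496)) (I.mix (nat_lit 17793024) (nat_lit 56098816)))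
  false (nat_lit 0)
def b0_3 : Bx := Bx.mk (St.mk (I.mix (nat_lit 13434880) (nat_lit 105480192)) (I.mix (nat_lit 22200320) (nat_lit 2277376)) (I.mix (nat_lit 19611648) (nat_lit 1114112)) (I.mix (nat_lit 2228224) (nat_lit 57180160)) (I.mix (nat_lit 31752192) (nat_lit 11599872)) (I.mix (nat_lit 12599296) (nat_lit 23904256)) (I.mix (nat_lit 7241728) (nat_lit 15138816)))
  false (nat_lit 0)
def b0_4 : Bx := Bx.mk (St.mk (I.pos (nat_lit 203587584) (nat_lit 282689536)) (I.mix (nat_lit 24346624) (nat_lit 33636352)) (I.mix (nat_lit 74547200) (nat_lit 46448640)) (I.pos (nat_lit 182681600) (nat_lit 320749568)) (I.mix (nat_lit 64323584) (nat_lit 44761088)) (I.mix (nat_lit 45105152) (nat_lit 40206336)) (I.mix (nat_lit 77561856) (nat_lit 68337664)))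
  false (nat_lit 24137588)
def b0_5 : Bx := Bx.mk (St.mk (I.pos (nat_lit 122699776) (nat_lit 182976512)) (I.neg (nat_lit 6029312) (nat_lit 44826624)) (I.neg (nat_lit 7733248) (nat_lit 49135616)) (I.pos (nat_lit 68927488) (nat_lit 142049280)) (I.mix (nat_lit 65601536) (nat_lit 30343168)) (I.mix (nat_lit 32915456) (nat_lit 48103424)) (I.mix (nat_lit 28999680) (nat_lit 48119808)))
  false (nat_lit 0)
def b0_6 : Bx := Bx.mk (St.mk (I.pos (nat_lit 26312704) (nat_lit 114671616)) (I.mix (nat_lit 25788416) (nat_lit 6291456)) (I.mix (nat_lit 22183936) (nat_lit 540672)) (I.pos (nat_lit 7045120) (nat_lit 65568768)) (I.mix (nat_lit 33751040) (nat_lit 24395776)) (I.mix (nat_lit 20135936) (nat_lit 24346624)) (I.mix (nat_lit 11698176) (nat_lit 17006592)))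
  false (nat_lit 0)
def b0_7 : Bx := Bx.mk (St.mk (I.pos (nat_lit 178176000) (nat_lit 219004928)) (I.mix (nat_lit 10534912) (nat_lit 46366720)) (I.mix (nat_lit 2883584) (nat_lit 71712768)) (I.pos (nat_lit 126451712) (nat_lit 196329472)) (I.mix (nat_lit 106512384) (nat_lit 44335104)) (I.mix (nat_lit 104103936) (nat_lit 56983552)) (I.mix (nat_lit 120668160) (nat_lit 62717952)))
  false (nat_lit 0)
def b0_8 : Bx := Bx.mk (St.mk (I.mix (nat_lit 13893632) (nat_lit 134692864)) (I.mix (nat_lit 12533760) (nat_lit 29786112)) (I.mix (nat_lit 13451264) (nat_lit 21446656)) (I.mix (nat_lit 2965504) (nat_lit 82771968)) (I.mix (nat_lit 47153152) (nat_lit 24756224)) (I.mix (nat_lit 40681472) (nat_lit 26689536)) (I.mix (nat_lit 27787264) (nat_lit 18268160)))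
  false (nat_lit 0)
def b0_9 : Bx := Bx.mk (St.mk (I.pos (nat_lit 158547968) (nat_lit 215187456)) (I.mix (nat_lit 34717696) (nat_lit 14483456)) (I.mix (nat_lit 42008576) (nat_lit 24543232)) (I.pos (nat_lit 101220352) (nat_lit 184811520)) (I.mix (nat_lit 49692672) (nat_lit 39223296)) (I.mix (nat_lit 47579136) (nat_lit 41910272)) (I.mix (nat_lit 52297728) (nat_lit 45809664)))
  false (nat_lit 24818826)
def b0_10 : Bx := Bx.mk (St.mk (I.pos (nat_lit 179372032) (nat_lit 216236032)) (I.mix (nat_lit 14630912) (nat_lit 26968064)) (I.mix (nat_lit 10485760) (nat_lit 43466752)) (I.pos (nat_lit 128778240) (nat_lit 187629568)) (I.mix (nat_lit 76988416) (nat_lit 46874624)) (I.mix (nat_lit 82804736) (nat_lit 40796160)) (I.mix (nat_lit 96780288) (nat_lit 42532864)))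
  false (nat_lit 0)
def b0_11 : Bx := Bx.mk (St.mk (I.pos (nat_lit 191332352) (nat_lit 240254976)) (I.pos (nat_lit 8175616) (nat_lit 51642368)) (I.pos (nat_lit 10027008) (nat_lit 80297984)) (I.pos (nat_lit 171655168) (nat_lit 224149504)) (I.mix (nat_lit 80936960) (nat_lit 58097664)) (I.mix (nat_lit 67076096) (nat_lit 52281344)) (I.mix (nat_lit 99516416) (nat_lit 63700992)))
  false (nat_lit 36152682)
def t0 : BTr := (BTr.n (BTr.n (BTr.n (BTr.b b0_0) (BTr.n (BTr.b b0_1) (BTr.b b0_2))) (BTr.n (BTr.b b0_3) (BTr.n (BTr.b b0_4) (BTr.b b0_5)))) (BTr.n (BTr.n (BTr.b b0_6) (BTr.n (BTr.b b0_7) (BTr.b b0_8))) (BTr.n (BTr.b b0_9) (BTr.n (BTr.b b0_10) (BTr.b b0_11)))))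
namespace T0
def l0 : Tr := Tr.L (Pth.l (Pth.l (Pth.l Pth.z)))
def l1 : Tr := Tr.L (Pth.l (Pth.l (Pth.r (Pth.l Pth.z))))
def l2 : Tr := Tr.L (Pth.l (Pth.l (Pth.r (Pth.r Pth.z))))
def l3 : Tr := Tr.L (Pth.l (Pth.r (Pth.l Pth.z)))
def l4 : Tr := Tr.L (Pth.l (Pth.r (Pth.r (Pth.l Pth.z))))
def l5 : Tr := Tr.L (Pth.l (Pth.r (Pth.r (Pth.r Pth.z))))
def l6 : Tr := Tr.L (Pth.r (Pth.l (Pth.l Pth.z)))
def l7 : Tr := Tr.L (Pth.r (Pth.l (Pth.r (Pth.l Pth.z))))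
def l8 : Tr := Tr.L (Pth.r (Pth.l (Pth.r (Pth.r Pth.z))))
def l9 : Tr := Tr.L (Pth.r (Pth.r (Pth.l Pth.z)))
def l10 : Tr := Tr.L (Pth.r (Pth.r (Pth.r (Pth.l Pth.z))))
def l11 : Tr := Tr.L (Pth.r (Pth.r (Pth.r (Pth.r Pth.z))))
end T0
def b1_0 : Bx := Bx.mk (St.mk (I.pos (nat_lit 158285824) (nat_lit 232357888)) (I.mix (nat_lit 1835008) (nat_lit 60407808)) (I.mix (nat_lit 2736128) (nat_lit 93290496)) (I.pos (nat_lit 182370304) (nat_lit 288129024)) (I.mix (nat_lit 104480768) (nat_lit 57016320)) (I.mix (nat_lit 65601536) (nat_lit 52822016)) (I.mix (nat_lit 86163456) (nat_lit 71221248)))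
  false (nat_lit 116875998)
def b1_1 : Bx := Bx.mk (St.mk (I.pos (nat_lit 90488832) (nat_lit 161562624)) (I.neg (nat_lit 8945664) (nat_lit 56836096)) (I.neg (nat_lit 2162688) (nat_lit 51281920)) (I.pos (nat_lit 126091264) (nat_lit 186744832)) (I.mix (nat_lit 65011712) (nat_lit 33030144)) (I.mix (nat_lit 26902528) (nat_lit 47431680)) (I.mix (nat_lit 22577152) (nat_lit 40779776)))
  false (nat_lit 0)
def b1_2 : Bx := Bx.mk (St.mk (I.mix (nat_lit 42041344) (nat_lit 97107968)) (I.mix (nat_lit 5144576) (nat_lit 40157184)) (I.mix (nat_lit 13860864) (nat_lit 17842176)) (I.pos (nat_lit 75661312) (nat_lit 124485632)) (I.mix (nat_lit 38846464) (nat_lit 40239104)) (I.mix (nat_lit 35602432) (nat_lit 26279936)) (I.mix (nat_lit 22953984) (nat_lit 14581760)))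
  false (nat_lit 0)
def b1_3 : Bx := Bx.mk (St.mk (I.mix (nat_lit 31506432) (nat_lit 46661632)) (I.mix (nat_lit 32129024) (nat_lit 4521984)) (I.mix (nat_lit 12222464) (nat_lit 3162112)) (I.pos (nat_lit 82624512) (nat_lit 100401152)) (I.mix (nat_lit 24969216) (nat_lit 25968640)) (I.mix (nat_lit 16662528) (nat_lit 24215552)) (I.mix (nat_lit 6668288) (nat_lit 8962048)))
  false (nat_lit 0)
def b1_4 : Bx := Bx.mk (St.mk (I.pos (nat_lit 162643968) (nat_lit 209043456)) (I.mix (nat_lit 1261568) (nat_lit 59899904)) (I.pos (nat_lit 14073856) (nat_lit 90832896)) (I.pos (nat_lit 193200128) (nat_lit 253427712)) (I.mix (nat_lit 111263744) (nat_lit 31637504)) (I.mix (nat_lit 91553792) (nat_lit 53248000)) (I.mix (nat_lit 89014272) (nat_lit 47120384)))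
  false (nat_lit 101216297)
def b1_5 : Bx := Bx.mk (St.mk (I.pos (nat_lit 80658432) (nat_lit 122191872)) (I.mix (nat_lit 55934976) (nat_lit 6012928)) (I.neg (nat_lit 2768896) (nat_lit 50692096)) (I.pos (nat_lit 113442816) (nat_lit 146259968)) (I.mix (nat_lit 68321280) (nat_lit 21692416)) (I.mix (nat_lit 26345472) (nat_lit 54214656)) (I.mix (nat_lit 19480576) (nat_lit 36978688)))
  false (nat_lit 0)
def b1_6 : Bx := Bx.mk (St.mk (I.mix (nat_lit 47759360) (nat_lit 76300288)) (I.mix (nat_lit 7749632) (nat_lit 38420480)) (I.mix (nat_lit 14598144) (nat_lit 13500416)) (I.pos (nat_lit 82558976) (nat_lit 109789184)) (I.mix (nat_lit 37322752) (nat_lit 32178176)) (I.mix (nat_lit 26116096) (nat_lit 20758528)) (I.mix (nat_lit 10158080) (nat_lit 10551296)))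
  false (nat_lit 0)
def b1_7 : Bx := Bx.mk (St.mk (I.mix (nat_lit 47366144) (nat_lit 30916608)) (I.mix (nat_lit 31899648) (nat_lit 4194304)) (I.mix (nat_lit 10338304) (nat_lit 4341760)) (I.pos (nat_lit 82739200) (nat_lit 100696064)) (I.mix (nat_lit 28934144) (nat_lit 20004864)) (I.mix (nat_lit 16007168) (nat_lit 24723456)) (I.mix (nat_lit 9158656) (nat_lit 5488640)))
  false (nat_lit 0)
def b1_8 : Bx := Bx.mk (St.mk (I.pos (nat_lit 189218816) (nat_lit 282820608)) (I.mix (nat_lit 15482880) (nat_lit 46366720)) (I.mix (nat_lit 58277888) (nat_lit 66060288)) (I.pos (nat_lit 245055488) (nat_lit 383025152)) (I.mix (nat_lit 72531968) (nat_lit 55640064)) (I.mix (nat_lit 51150848) (nat_lit 33292288)) (I.mix (nat_lit 85803008) (nat_lit 51003392)))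
  false (nat_lit 110443835)
def b1_9 : Bx := Bx.mk (St.mk (I.pos (nat_lit 143949824) (nat_lit 199016448)) (I.mix (nat_lit 35602432) (nat_lit 16826368)) (I.mix (nat_lit 29425664) (nat_lit 37060608)) (I.pos (nat_lit 169787392) (nat_lit 230916096)) (I.mix (nat_lit 45219840) (nat_lit 41353216)) (I.mix (nat_lit 41762816) (nat_lit 37601280)) (I.mix (nat_lit 38846464) (nat_lit 34865152)))
  false (nat_lit 0)
def b1_10 : Bx := Bx.mk (St.mk (I.pos (nat_lit 178978816) (nat_lit 226263040)) (I.pos (nat_lit 20004864) (nat_lit 56950784)) (I.pos (nat_lit 30703616) (nat_lit 87441408)) (I.pos (nat_lit 232865792) (nat_lit 277381120)) (I.mix (nat_lit 91570176) (nat_lit 61456384)) (I.mix (nat_lit 76234752) (nat_lit 50708480)) (I.mix (nat_lit 111443968) (nat_lit 64110592)))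
  false (nat_lit 80076025)
def b1_11 : Bx := Bx.mk (St.mk (I.pos (nat_lit 164397056) (nat_lit 200785920)) (I.mix (nat_lit 5259264) (nat_lit 35209216)) (I.pos (nat_lit 7749632) (nat_lit 61702144)) (I.pos (nat_lit 196558848) (nat_lit 235896832)) (I.mix (nat_lit 94208000) (nat_lit 45121536)) (I.mix (nat_lit 95453184) (nat_lit 43401216)) (I.mix (nat_lit 94945280) (nat_lit 38486016)))
  false (nat_lit 17929123)
def t1 : BTr := (BTr.n (BTr.n (BTr.n (BTr.b b1_0) (BTr.n (BTr.b b1_1) (BTr.b b1_2))) (BTr.n (BTr.b b1_3) (BTr.n (BTr.b b1_4) (BTr.b b1_5)))) (BTr.n (BTr.n (BTr.b b1_6) (BTr.n (BTr.b b1_7) (BTr.b b1_8))) (BTr.n (BTr.b b1_9) (BTr.n (BTr.b b1_10) (BTr.b b1_11)))))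
namespace T1
def l0 : Tr := Tr.L (Pth.l (Pth.l (Pth.l Pth.z)))
def l1 : Tr := Tr.L (Pth.l (Pth.l (Pth.r (Pth.l Pth.z))))
def l2 : Tr := Tr.L (Pth.l (Pth.l (Pth.r (Pth.r Pth.z))))
def l3 : Tr := Tr.L (Pth.l (Pth.r (Pth.l Pth.z)))
def l4 : Tr := Tr.L (Pth.l (Pth.r (Pth.r (Pth.l Pth.z))))
def l5 : Tr := Tr.L (Pth.l (Pth.r (Pth.r (Pth.r Pth.z))))
def l6 : Tr := Tr.L (Pth.r (Pth.l (Pth.l Pth.z)))
def l7 : Tr := Tr.L (Pth.r (Pth.l (Pth.r (Pth.l Pth.z))))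
def l8 : Tr := Tr.L (Pth.r (Pth.l (Pth.r (Pth.r Pth.z))))
def l9 : Tr := Tr.L (Pth.r (Pth.r (Pth.l Pth.z)))
def l10 : Tr := Tr.L (Pth.r (Pth.r (Pth.r (Pth.l Pth.z))))
def l11 : Tr := Tr.L (Pth.r (Pth.r (Pth.r (Pth.r Pth.z))))
end T1
def b2_0 : Bx := Bx.mk (St.mk (I.pos (nat_lit 158318592) (nat_lit 240156672)) (I.mix (nat_lit 1441792) (nat_lit 46268416)) (I.mix (nat_lit 2834432) (nat_lit 98893824)) (I.pos (nat_lit 92422144) (nat_lit 216612864)) (I.mix (nat_lit 105168896) (nat_lit 66043904)) (I.mix (nat_lit 81068032) (nat_lit 69517312)) (I.mix (nat_lit 119832576) (nat_lit 91914240)))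
  false (nat_lit 43613075)
def b2_1 : Bx := Bx.mk (St.mk (I.pos (nat_lit 124370944) (nat_lit 189497344)) (I.neg (nat_lit 8060928) (nat_lit 49037312)) (I.mix (nat_lit 41713664) (nat_lit 7585792)) (I.pos (nat_lit 75513856) (nat_lit 149045248)) (I.mix (nat_lit 58015744) (nat_lit 30326784)) (I.mix (nat_lit 29573120) (nat_lit 36683776)) (I.mix (nat_lit 25624576) (nat_lit 37142528)))
  false (nat_lit 35142063)
def b2_2 : Bx := Bx.mk (St.mk (I.mix (nat_lit 10829824) (nat_lit 119406592)) (I.mix (nat_lit 24592384) (nat_lit 3883008)) (I.mix (nat_lit 14024704) (nat_lit 8585216)) (I.mix (nat_lit 2539520) (nat_lit 67895296)) (I.mix (nat_lit 24182784) (nat_lit 18923520)) (I.mix (nat_lit 13205504) (nat_lit 17006592)) (I.mix (nat_lit 8257536) (nat_lit 11730944)))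
  false (nat_lit 0)
def b2_3 : Bx := Bx.mk (St.mk (I.pos (nat_lit 175636480) (nat_lit 214597632)) (I.mix (nat_lit 10633216) (nat_lit 42582016)) (I.pos (nat_lit 12484608) (nat_lit 87359488)) (I.pos (nat_lit 117899264) (nat_lit 181256192)) (I.mix (nat_lit 104513536) (nat_lit 35831808)) (I.mix (nat_lit 95485952) (nat_lit 43335680)) (I.mix (nat_lit 119799808) (nat_lit 39747584)))
  false (nat_lit 62237107)
def b2_4 : Bx := Bx.mk (St.mk (I.mix (nat_lit 14581760) (nat_lit 131727360)) (I.mix (nat_lit 12075008) (nat_lit 29065216)) (I.mix (nat_lit 4308992) (nat_lit 30998528)) (I.mix (nat_lit 2850816) (nat_lit 78987264)) (I.mix (nat_lit 48300032) (nat_lit 21069824)) (I.mix (nat_lit 39583744) (nat_lit 19955712)) (I.mix (nat_lit 29605888) (nat_lit 11943936)))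
  false (nat_lit 0)
def b2_5 : Bx := Bx.mk (St.mk (I.pos (nat_lit 158466048) (nat_lit 212549632)) (I.mix (nat_lit 35815424) (nat_lit 10534912)) (I.mix (nat_lit 24494080) (nat_lit 40960000)) (I.pos (nat_lit 100941824) (nat_lit 178110464)) (I.mix (nat_lit 42696704) (nat_lit 43139072)) (I.mix (nat_lit 39632896) (nat_lit 39190528)) (I.mix (nat_lit 41697280) (nat_lit 40992768)))
  false (nat_lit 27938990)
def b2_6 : Bx := Bx.mk (St.mk (I.pos (nat_lit 30900224) (nat_lit 140001280)) (I.mix (nat_lit 4734976) (nat_lit 24002560)) (I.mix (nat_lit 688128) (nat_lit 28835840)) (I.pos (nat_lit 10371072) (nat_lit 88670208)) (I.mix (nat_lit 39305216) (nat_lit 28590080)) (I.mix (nat_lit 30375936) (nat_lit 25149440)) (I.mix (nat_lit 25444352) (nat_lit 18530304)))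
  false (nat_lit 0)
def b2_7 : Bx := Bx.mk (St.mk (I.pos (nat_lit 118702080) (nat_lit 158744576)) (I.mix (nat_lit 46006272) (nat_lit 6193152)) (I.mix (nat_lit 39223296) (nat_lit 12877824)) (I.pos (nat_lit 55115776) (nat_lit 109592576)) (I.mix (nat_lit 72990720) (nat_lit 28409856)) (I.mix (nat_lit 31129600) (nat_lit 64667648)) (I.mix (nat_lit 26853376) (nat_lit 54935552)))
  false (nat_lit 18360807)
def b2_8 : Bx := Bx.mk (St.mk (I.pos (nat_lit 189792256) (nat_lit 281624576)) (I.mix (nat_lit 15073280) (nat_lit 38043648)) (I.mix (nat_lit 10682368) (nat_lit 89505792)) (I.pos (nat_lit 162775040) (nat_lit 308346880)) (I.mix (nat_lit 75431936) (nat_lit 53559296)) (I.mix (nat_lit 55738368) (nat_lit 36618240)) (I.mix (nat_lit 86638592) (nat_lit 53821440)))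
  false (nat_lit 75046212)
def b2_9 : Bx := Bx.mk (St.mk (I.mix (nat_lit 8142848) (nat_lit 108658688)) (I.mix (nat_lit 23330816) (nat_lit 688128)) (I.mix (nat_lit 12779520) (nat_lit 7077888)) (I.mix (nat_lit 65536) (nat_lit 59211776)) (I.mix (nat_lit 30162944) (nat_lit 19136512)) (I.mix (nat_lit 17317888) (nat_lit 24690688)) (I.mix (nat_lit 9977856) (nat_lit 13975552)))
  false (nat_lit 0)
def b2_10 : Bx := Bx.mk (St.mk (I.pos (nat_lit 179519488) (nat_lit 237551616)) (I.pos (nat_lit 8601600) (nat_lit 46301184)) (I.pos (nat_lit 31227904) (nat_lit 99352576)) (I.pos (nat_lit 151601152) (nat_lit 208715776)) (I.mix (nat_lit 96681984) (nat_lit 67682304)) (I.mix (nat_lit 89112576) (nat_lit 58228736)) (I.mix (nat_lit 136675328) (nat_lit 72564736)))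
  false (nat_lit 62546829)
def b2_11 : Bx := Bx.mk (St.mk (I.pos (nat_lit 175439872) (nat_lit 213303296)) (I.mix (nat_lit 15663104) (nat_lit 24936448)) (I.pos (nat_lit 7127040) (nat_lit 62586880)) (I.pos (nat_lit 117063680) (nat_lit 177127424)) (I.mix (nat_lit 94928896) (nat_lit 44384256)) (I.mix (nat_lit 95895552) (nat_lit 39174144)) (I.mix (nat_lit 115539968) (nat_lit 39124992)))
  false (nat_lit 53379254)
def t2 : BTr := (BTr.n (BTr.n (BTr.n (BTr.b b2_0) (BTr.n (BTr.b b2_1) (BTr.b b2_2))) (BTr.n (BTr.b b2_3) (BTr.n (BTr.b b2_4) (BTr.b b2_5)))) (BTr.n (BTr.n (BTr.b b2_6) (BTr.n (BTr.b b2_7) (BTr.b b2_8))) (BTr.n (BTr.b b2_9) (BTr.n (BTr.b b2_10) (BTr.b b2_11)))))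
namespace T2
def l0 : Tr := Tr.L (Pth.l (Pth.l (Pth.l Pth.z)))
def l1 : Tr := Tr.L (Pth.l (Pth.l (Pth.r (Pth.l Pth.z))))
def l2 : Tr := Tr.L (Pth.l (Pth.l (Pth.r (Pth.r Pth.z))))
def l3 : Tr := Tr.L (Pth.l (Pth.r (Pth.l Pth.z)))
def l4 : Tr := Tr.L (Pth.l (Pth.r (Pth.r (Pth.l Pth.z))))
def l5 : Tr := Tr.L (Pth.l (Pth.r (Pth.r (Pth.r Pth.z))))
def l6 : Tr := Tr.L (Pth.r (Pth.l (Pth.l Pth.z)))
def l7 : Tr := Tr.L (Pth.r (Pth.l (Pth.r (Pth.l Pth.z))))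
def l8 : Tr := Tr.L (Pth.r (Pth.l (Pth.r (Pth.r Pth.z))))
def l9 : Tr := Tr.L (Pth.r (Pth.r (Pth.l Pth.z)))
def l10 : Tr := Tr.L (Pth.r (Pth.r (Pth.r (Pth.l Pth.z))))
def l11 : Tr := Tr.L (Pth.r (Pth.r (Pth.r (Pth.r Pth.z))))
end T2
theorem bx0_0 : BoxOK sI cl6 cl13 cl13 t1 t1 b0_0 :=
  box_mk (TrL.c (I.pos (nat_lit 0) (nat_lit 0)) (xa (xb T1.l0 (xa T1.l0 T1.l0)) (xa (xb T1.l0 T1.l0) T1.l0))
  (TrL.c (I.pos (nat_lit 0) (nat_lit 0)) (xa T1.l1 T1.l1)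
  (TrL.c (I.pos (nat_lit 0) (nat_lit 89480386)) T1.l2
  (TrL.c (I.pos (nat_lit 0) (nat_lit 41530880)) T1.l3
  (TrL.c (I.pos (nat_lit 0) (nat_lit 0)) (xa T1.l4 (xb T1.l4 T1.l4))
  (TrL.c (I.pos (nat_lit 0) (nat_lit 0)) T1.l5
  (TrL.c (I.mix (nat_lit 41527258) (nat_lit 41530880)) T1.l2
  (TrL.c (I.mix (nat_lit 41527258) (nat_lit 4274)) T1.l7
  TrL.n)))))))) (by decide +kernel)
theorem bx0_1 : BoxOK sI cl6 cl13 cl13 t1 t1 b0_1 :=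
  box_mk (TrL.c (I.pos (nat_lit 0) (nat_lit 0)) (xa T1.l8 (xa T1.l8 T1.l8))
  (TrL.c (I.pos (nat_lit 0) (nat_lit 0)) (xa T1.l1 T1.l1)
  (TrL.c (I.pos (nat_lit 0) (nat_lit 89480386)) T1.l2
  (TrL.c (I.pos (nat_lit 0) (nat_lit 41530880)) T1.l3
  (TrL.c (I.pos (nat_lit 0) (nat_lit 0)) (xa T1.l9 T1.l9)
  (TrL.c (I.pos (nat_lit 0) (nat_lit 0)) T1.l5
  (TrL.c (I.mix (nat_lit 41527258) (nat_lit 41530880)) T1.l6
  (TrL.c (I.mix (nat_lit 41527258) (nat_lit 4274)) T1.l7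
  TrL.n)))))))) (by decide +kernel)
theorem bx0_2 : BoxOK sI cl6 cl13 cl13 t1 t1 b0_2 :=
  box_mk (TrL.c (I.pos (nat_lit 0) (nat_lit 0)) T1.l8
  (TrL.c (I.pos (nat_lit 0) (nat_lit 0)) T1.l1
  (TrL.c (I.pos (nat_lit 0) (nat_lit 89480386)) T1.l2
  (TrL.c (I.pos (nat_lit 0) (nat_lit 41530880)) T1.l3
  (TrL.c (I.pos (nat_lit 0) (nat_lit 0)) T1.l9
  (TrL.c (I.pos (nat_lit 0) (nat_lit 0)) T1.l5
  (TrL.c (I.mix (nat_lit 41527258) (nat_lit 41530880)) T1.l6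
  (TrL.c (I.mix (nat_lit 41527258) (nat_lit 4274)) T1.l7
  TrL.n)))))))) (by decide +kernel)
theorem bx0_3 : BoxOK sI cl6 cl13 cl13 t1 t1 b0_3 :=
  box_mk (TrL.c (I.pos (nat_lit 0) (nat_lit 0)) (xa T1.l8 T1.l8)
  (TrL.c (I.pos (nat_lit 0) (nat_lit 0)) T1.l1
  (TrL.c (I.pos (nat_lit 0) (nat_lit 89480386)) T1.l2
  (TrL.c (I.pos (nat_lit 0) (nat_lit 41530880)) T1.l3
  (TrL.c (I.pos (nat_lit 0) (nat_lit 0)) T1.l9
  (TrL.c (I.pos (nat_lit 0) (nat_lit 0)) T1.l5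
  (TrL.c (I.mix (nat_lit 41527258) (nat_lit 41530880)) T1.l6
  (TrL.c (I.mix (nat_lit 41527258) (nat_lit 4274)) T1.l7
  TrL.n)))))))) (by decide +kernel)
theorem bx0_4 : BoxOK sI cl6 cl13 cl13 t1 t1 b0_4 :=
  box_mk (TrL.c (I.pos (nat_lit 0) (nat_lit 0)) (xa (xb T1.l0 T1.l0) (xb T1.l0 (xa T1.l0 T1.l0)))
  (TrL.c (I.pos (nat_lit 0) (nat_lit 0)) (xa T1.l1 T1.l1)
  (TrL.c (I.pos (nat_lit 0) (nat_lit 89480386)) T1.l2
  (TrL.c (I.pos (nat_lit 0) (nat_lit 41530880)) T1.l3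
  (TrL.c (I.pos (nat_lit 0) (nat_lit 0)) (xa (xb T1.l0 T1.l4) (xb (xa T1.l4 T1.l4) (xa T1.l4 T1.l4)))
  (TrL.c (I.pos (nat_lit 0) (nat_lit 0)) (xa T1.l5 T1.l5)
  (TrL.c (I.mix (nat_lit 41527258) (nat_lit 41530880)) T1.l6
  (TrL.c (I.mix (nat_lit 41527258) (nat_lit 4274)) T1.l7
  TrL.n)))))))) (by decide +kernel)
theorem bx0_5 : BoxOK sI cl6 cl13 cl13 t1 t1 b0_5 :=
  box_mk (TrL.c (I.pos (nat_lit 0) (nat_lit 0)) T1.l8
  (TrL.c (I.pos (nat_lit 0) (nat_lit 0)) T1.l1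
  (TrL.c (I.pos (nat_lit 0) (nat_lit 89480386)) T1.l2
  (TrL.c (I.pos (nat_lit 0) (nat_lit 41530880)) T1.l3
  (TrL.c (I.pos (nat_lit 0) (nat_lit 0)) T1.l9
  (TrL.c (I.pos (nat_lit 0) (nat_lit 0)) T1.l5
  (TrL.c (I.mix (nat_lit 41527258) (nat_lit 41530880)) T1.l6
  (TrL.c (I.mix (nat_lit 41527258) (nat_lit 4274)) T1.l7
  TrL.n)))))))) (by decide +kernel)
theorem bx0_6 : BoxOK sI cl6 cl13 cl13 t1 t1 b0_6 :=
  box_mk (TrL.c (I.pos (nat_lit 0) (nat_lit 0)) T1.l8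
  (TrL.c (I.pos (nat_lit 0) (nat_lit 0)) T1.l1
  (TrL.c (I.pos (nat_lit 0) (nat_lit 89480386)) T1.l2
  (TrL.c (I.pos (nat_lit 0) (nat_lit 41530880)) T1.l3
  (TrL.c (I.pos (nat_lit 0) (nat_lit 0)) T1.l9
  (TrL.c (I.pos (nat_lit 0) (nat_lit 0)) T1.l5
  (TrL.c (I.mix (nat_lit 41527258) (nat_lit 41530880)) T1.l6
  (TrL.c (I.mix (nat_lit 41527258) (nat_lit 4274)) T1.l7
  TrL.n)))))))) (by decide +kernel)
theorem bx0_7 : BoxOK sI cl6 cl13 cl13 t1 t1 b0_7 :=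
  box_mk (TrL.c (I.pos (nat_lit 0) (nat_lit 0)) (xb T1.l10 (xa T1.l10 T1.l10))
  (TrL.c (I.pos (nat_lit 0) (nat_lit 0)) T1.l1
  (TrL.c (I.pos (nat_lit 0) (nat_lit 89480386)) T1.l2
  (TrL.c (I.pos (nat_lit 0) (nat_lit 41530880)) T1.l3
  (TrL.c (I.pos (nat_lit 0) (nat_lit 0)) (xb T1.l11 T1.l11)
  (TrL.c (I.pos (nat_lit 0) (nat_lit 0)) T1.l5
  (TrL.c (I.mix (nat_lit 41527258) (nat_lit 41530880)) T1.l2
  (TrL.c (I.mix (nat_lit 41527258) (nat_lit 4274)) T1.l7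
  TrL.n)))))))) (by decide +kernel)
theorem bx0_8 : BoxOK sI cl6 cl13 cl13 t1 t1 b0_8 :=
  box_mk (TrL.c (I.pos (nat_lit 0) (nat_lit 0)) (xa (xa (xb T1.l8 T1.l8) T1.l8) (xa T1.l8 T1.l8))
  (TrL.c (I.pos (nat_lit 0) (nat_lit 0)) (xa T1.l1 T1.l1)
  (TrL.c (I.pos (nat_lit 0) (nat_lit 89480386)) T1.l2
  (TrL.c (I.pos (nat_lit 0) (nat_lit 41530880)) T1.l3
  (TrL.c (I.pos (nat_lit 0) (nat_lit 0)) (xa T1.l9 T1.l9)
  (TrL.c (I.pos (nat_lit 0) (nat_lit 0)) T1.l5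
  (TrL.c (I.mix (nat_lit 41527258) (nat_lit 41530880)) T1.l6
  (TrL.c (I.mix (nat_lit 41527258) (nat_lit 4274)) T1.l7
  TrL.n)))))))) (by decide +kernel)
theorem bx0_9 : BoxOK sI cl6 cl13 cl13 t1 t1 b0_9 :=
  box_mk (TrL.c (I.pos (nat_lit 0) (nat_lit 0)) T1.l0
  (TrL.c (I.pos (nat_lit 0) (nat_lit 0)) T1.l1
  (TrL.c (I.pos (nat_lit 0) (nat_lit 89480386)) T1.l2
  (TrL.c (I.pos (nat_lit 0) (nat_lit 41530880)) T1.l3
  (TrL.c (I.pos (nat_lit 0) (nat_lit 0)) (xa T1.l11 T1.l0)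
  (TrL.c (I.pos (nat_lit 0) (nat_lit 0)) T1.l5
  (TrL.c (I.mix (nat_lit 41527258) (nat_lit 41530880)) T1.l6
  (TrL.c (I.mix (nat_lit 41527258) (nat_lit 4274)) T1.l7
  TrL.n)))))))) (by decide +kernel)
theorem bx0_10 : BoxOK sI cl6 cl13 cl13 t1 t1 b0_10 :=
  box_mk (TrL.c (I.pos (nat_lit 0) (nat_lit 0)) T1.l10
  (TrL.c (I.pos (nat_lit 0) (nat_lit 0)) T1.l1
  (TrL.c (I.pos (nat_lit 0) (nat_lit 89480386)) T1.l2
  (TrL.c (I.pos (nat_lit 0) (nat_lit 41530880)) T1.l3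
  (TrL.c (I.pos (nat_lit 0) (nat_lit 0)) T1.l11
  (TrL.c (I.pos (nat_lit 0) (nat_lit 0)) T1.l5
  (TrL.c (I.mix (nat_lit 41527258) (nat_lit 41530880)) T1.l6
  (TrL.c (I.mix (nat_lit 41527258) (nat_lit 4274)) T1.l7
  TrL.n)))))))) (by decide +kernel)
theorem bx0_11 : BoxOK sI cl6 cl13 cl13 t1 t1 b0_11 :=
  box_mk (TrL.c (I.pos (nat_lit 0) (nat_lit 0)) (xa T1.l0 T1.l0)
  (TrL.c (I.pos (nat_lit 0) (nat_lit 0)) T1.l1
  (TrL.c (I.pos (nat_lit 0) (nat_lit 89480386)) T1.l2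
  (TrL.c (I.pos (nat_lit 0) (nat_lit 41530880)) T1.l3
  (TrL.c (I.pos (nat_lit 0) (nat_lit 0)) (xa T1.l4 T1.l4)
  (TrL.c (I.pos (nat_lit 0) (nat_lit 0)) T1.l5
  (TrL.c (I.mix (nat_lit 41527258) (nat_lit 41530880)) T1.l2
  (TrL.c (I.mix (nat_lit 41527258) (nat_lit 4274)) T1.l7
  TrL.n)))))))) (by decide +kernel)
theorem sv0 : StarV sI cl6 cl13 cl13 t1 t1 t0 :=
  (bt_n (bt_n (bt_n (bt_b bx0_0) (bt_n (bt_b bx0_1) (bt_b bx0_2))) (bt_n (bt_b bx0_3) (bt_n (bt_b bx0_4) (bt_b bx0_5)))) (bt_n (bt_n (bt_b bx0_6) (bt_n (bt_b bx0_7) (bt_b bx0_8))) (bt_n (bt_b bx0_9) (bt_n (bt_b bx0_10) (bt_b bx0_11)))))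
def S0 : StarD := StarD.mk cl6 cl13 cl13 1 1 t0
theorem bx1_0 : BoxOK sI cl13 cl6 cl13 t0 t2 b1_0 :=
  box_mk (TrL.c (I.pos (nat_lit 0) (nat_lit 0)) (xa (xb T0.l0 T0.l0) (xb T0.l0 T0.l0))
  (TrL.c (I.pos (nat_lit 0) (nat_lit 0)) (xa T2.l1 (xk T2.l1 T2.l1))
  (TrL.c (I.pos (nat_lit 0) (nat_lit 134217730)) (xR T0.l1 T0.l8)
  (TrL.c (I.pos (nat_lit 0) (nat_lit 110514882)) (xR T2.l2 T2.l2)
  (TrL.c (I.pos (nat_lit 0) (nat_lit 0)) (xa (xk T2.l3 T2.l3) (xk (xb T2.l3 T2.l3) (xb T2.l3 T2.l3)))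
  (TrL.c (I.pos (nat_lit 0) (nat_lit 0)) T0.l2
  (TrL.c (I.mix (nat_lit 8088324) (nat_lit 110514882)) (xR T2.l4 T2.l4)
  (TrL.c (I.mix (nat_lit 8088324) (nat_lit 89478486)) T0.l3
  TrL.n)))))))) (by decide +kernel)
theorem bx1_1 : BoxOK sI cl13 cl6 cl13 t0 t2 b1_1 :=
  box_mk (TrL.c (I.pos (nat_lit 0) (nat_lit 0)) T0.l4
  (TrL.c (I.pos (nat_lit 0) (nat_lit 0)) T2.l1
  (TrL.c (I.pos (nat_lit 0) (nat_lit 134217730)) (xR T0.l1 T0.l1)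
  (TrL.c (I.pos (nat_lit 0) (nat_lit 110514882)) (xR T2.l2 T2.l2)
  (TrL.c (I.pos (nat_lit 0) (nat_lit 0)) (xa T2.l5 T2.l5)
  (TrL.c (I.pos (nat_lit 0) (nat_lit 0)) T0.l2
  (TrL.c (I.mix (nat_lit 8088324) (nat_lit 110514882)) T2.l4
  (TrL.c (I.mix (nat_lit 8088324) (nat_lit 89478486)) T0.l3
  TrL.n)))))))) (by decide +kernel)
theorem bx1_2 : BoxOK sI cl13 cl6 cl13 t0 t2 b1_2 :=
  box_mk (TrL.c (I.pos (nat_lit 0) (nat_lit 0)) (xa (xa T0.l4 T0.l4) (xa T0.l4 T0.l4))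
  (TrL.c (I.pos (nat_lit 0) (nat_lit 0)) (xa T2.l1 T2.l1)
  (TrL.c (I.pos (nat_lit 0) (nat_lit 134217730)) (xR T0.l1 T0.l1)
  (TrL.c (I.pos (nat_lit 0) (nat_lit 110514882)) T2.l2
  (TrL.c (I.pos (nat_lit 0) (nat_lit 0)) (xa T2.l5 T2.l5)
  (TrL.c (I.pos (nat_lit 0) (nat_lit 0)) T0.l2
  (TrL.c (I.mix (nat_lit 8088324) (nat_lit 110514882)) (xR T2.l4 T2.l4)
  (TrL.c (I.mix (nat_lit 8088324) (nat_lit 89478486)) T0.l8
  TrL.n)))))))) (by decide +kernel)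
theorem bx1_3 : BoxOK sI cl13 cl6 cl13 t0 t2 b1_3 :=
  box_mk (TrL.c (I.pos (nat_lit 0) (nat_lit 0)) T0.l4
  (TrL.c (I.pos (nat_lit 0) (nat_lit 0)) T2.l5
  (TrL.c (I.pos (nat_lit 0) (nat_lit 134217730)) T0.l1
  (TrL.c (I.pos (nat_lit 0) (nat_lit 110514882)) T2.l4
  (TrL.c (I.pos (nat_lit 0) (nat_lit 0)) T2.l5
  (TrL.c (I.pos (nat_lit 0) (nat_lit 0)) T0.l2
  (TrL.c (I.mix (nat_lit 8088324) (nat_lit 110514882)) T2.l4
  (TrL.c (I.mix (nat_lit 8088324) (nat_lit 89478486)) T0.l8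
  TrL.n)))))))) (by decide +kernel)
theorem bx1_4 : BoxOK sI cl13 cl6 cl13 t0 t2 b1_4 :=
  box_mk (TrL.c (I.pos (nat_lit 0) (nat_lit 0)) (xb T0.l11 T0.l11)
  (TrL.c (I.pos (nat_lit 0) (nat_lit 0)) (xk T2.l1 T2.l1)
  (TrL.c (I.pos (nat_lit 0) (nat_lit 134217730)) (xR T0.l1 T0.l8)
  (TrL.c (I.pos (nat_lit 0) (nat_lit 110514882)) (xR T2.l2 T2.l2)
  (TrL.c (I.pos (nat_lit 0) (nat_lit 0)) (xk (xb T2.l11 T2.l11) T2.l11)
  (TrL.c (I.pos (nat_lit 0) (nat_lit 0)) T0.l2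
  (TrL.c (I.mix (nat_lit 8088324) (nat_lit 110514882)) (xR T2.l4 T2.l4)
  (TrL.c (I.mix (nat_lit 8088324) (nat_lit 89478486)) T0.l3
  TrL.n)))))))) (by decide +kernel)
theorem bx1_5 : BoxOK sI cl13 cl6 cl13 t0 t2 b1_5 :=
  box_mk (TrL.c (I.pos (nat_lit 0) (nat_lit 0)) T0.l4
  (TrL.c (I.pos (nat_lit 0) (nat_lit 0)) T2.l1
  (TrL.c (I.pos (nat_lit 0) (nat_lit 134217730)) (xR T0.l1 T0.l1)
  (TrL.c (I.pos (nat_lit 0) (nat_lit 110514882)) (xR T2.l2 T2.l2)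
  (TrL.c (I.pos (nat_lit 0) (nat_lit 0)) T2.l5
  (TrL.c (I.pos (nat_lit 0) (nat_lit 0)) T0.l2
  (TrL.c (I.mix (nat_lit 8088324) (nat_lit 110514882)) T2.l4
  (TrL.c (I.mix (nat_lit 8088324) (nat_lit 89478486)) T0.l3
  TrL.n)))))))) (by decide +kernel)
theorem bx1_6 : BoxOK sI cl13 cl6 cl13 t0 t2 b1_6 :=
  box_mk (TrL.c (I.pos (nat_lit 0) (nat_lit 0)) (xa (xa T0.l4 T0.l4) T0.l4)
  (TrL.c (I.pos (nat_lit 0) (nat_lit 0)) (xa T2.l5 T2.l1)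
  (TrL.c (I.pos (nat_lit 0) (nat_lit 134217730)) T0.l1
  (TrL.c (I.pos (nat_lit 0) (nat_lit 110514882)) (xR T2.l2 T2.l2)
  (TrL.c (I.pos (nat_lit 0) (nat_lit 0)) (xa T2.l5 T2.l5)
  (TrL.c (I.pos (nat_lit 0) (nat_lit 0)) T0.l2
  (TrL.c (I.mix (nat_lit 8088324) (nat_lit 110514882)) (xR T2.l4 T2.l4)
  (TrL.c (I.mix (nat_lit 8088324) (nat_lit 89478486)) T0.l8
  TrL.n)))))))) (by decide +kernel)
theorem bx1_7 : BoxOK sI cl13 cl6 cl13 t0 t2 b1_7 :=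
  box_mk (TrL.c (I.pos (nat_lit 0) (nat_lit 0)) (xa T0.l4 T0.l4)
  (TrL.c (I.pos (nat_lit 0) (nat_lit 0)) T2.l5
  (TrL.c (I.pos (nat_lit 0) (nat_lit 134217730)) T0.l1
  (TrL.c (I.pos (nat_lit 0) (nat_lit 110514882)) T2.l4
  (TrL.c (I.pos (nat_lit 0) (nat_lit 0)) T2.l1
  (TrL.c (I.pos (nat_lit 0) (nat_lit 0)) T0.l1
  (TrL.c (I.mix (nat_lit 8088324) (nat_lit 110514882)) T2.l4
  (TrL.c (I.mix (nat_lit 8088324) (nat_lit 89478486)) T0.l8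
  TrL.n)))))))) (by decide +kernel)
theorem bx1_8 : BoxOK sI cl13 cl6 cl13 t0 t2 b1_8 :=
  box_mk (TrL.c (I.pos (nat_lit 0) (nat_lit 0)) (xa T0.l0 (xb T0.l0 T0.l0))
  (TrL.c (I.pos (nat_lit 0) (nat_lit 0)) (xa T2.l1 (xk T2.l1 T2.l1))
  (TrL.c (I.pos (nat_lit 0) (nat_lit 134217730)) (xR T0.l8 T0.l8)
  (TrL.c (I.pos (nat_lit 0) (nat_lit 110514882)) (xR T2.l2 T2.l2)
  (TrL.c (I.pos (nat_lit 0) (nat_lit 0)) (xa (xk (xb (xa T2.l3 T2.l3) T2.l3) (xb (xa T2.l3 T2.l3) T2.l3)) (xk (xb (xa T2.l0 (xk T2.l3 T2.l3)) (xa T2.l3 (xk T2.l3 T2.l3))) (xb (xa T2.l0 (xb T2.l0 T2.l3)) (xa T2.l3 (xk T2.l3 T2.l3)))))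
  (TrL.c (I.pos (nat_lit 0) (nat_lit 0)) (xk T0.l2 T0.l2)
  (TrL.c (I.mix (nat_lit 8088324) (nat_lit 110514882)) (xR T2.l4 (xR T2.l4 T2.l4))
  (TrL.c (I.mix (nat_lit 8088324) (nat_lit 89478486)) T0.l3
  TrL.n)))))))) (by decide +kernel)
theorem bx1_9 : BoxOK sI cl13 cl6 cl13 t0 t2 b1_9 :=
  box_mk (TrL.c (I.pos (nat_lit 0) (nat_lit 0)) T0.l11
  (TrL.c (I.pos (nat_lit 0) (nat_lit 0)) T2.l1
  (TrL.c (I.pos (nat_lit 0) (nat_lit 134217730)) (xR T0.l1 T0.l1)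
  (TrL.c (I.pos (nat_lit 0) (nat_lit 110514882)) (xR T2.l2 T2.l2)
  (TrL.c (I.pos (nat_lit 0) (nat_lit 0)) (xk (xb T2.l11 T2.l11) T2.l11)
  (TrL.c (I.pos (nat_lit 0) (nat_lit 0)) T0.l2
  (TrL.c (I.mix (nat_lit 8088324) (nat_lit 110514882)) T2.l4
  (TrL.c (I.mix (nat_lit 8088324) (nat_lit 89478486)) T0.l3
  TrL.n)))))))) (by decide +kernel)
theorem bx1_10 : BoxOK sI cl13 cl6 cl13 t0 t2 b1_10 :=
  box_mk (TrL.c (I.pos (nat_lit 0) (nat_lit 0)) T0.l0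
  (TrL.c (I.pos (nat_lit 0) (nat_lit 0)) T2.l1
  (TrL.c (I.pos (nat_lit 0) (nat_lit 134217730)) (xR T0.l1 T0.l1)
  (TrL.c (I.pos (nat_lit 0) (nat_lit 110514882)) (xR T2.l2 T2.l2)
  (TrL.c (I.pos (nat_lit 0) (nat_lit 0)) (xk (xb T2.l3 T2.l3) (xb T2.l3 (xa T2.l11 T2.l0)))
  (TrL.c (I.pos (nat_lit 0) (nat_lit 0)) T0.l2
  (TrL.c (I.mix (nat_lit 8088324) (nat_lit 110514882)) (xR T2.l4 T2.l4)
  (TrL.c (I.mix (nat_lit 8088324) (nat_lit 89478486)) T0.l3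
  TrL.n)))))))) (by decide +kernel)
theorem bx1_11 : BoxOK sI cl13 cl6 cl13 t0 t2 b1_11 :=
  box_mk (TrL.c (I.pos (nat_lit 0) (nat_lit 0)) T0.l11
  (TrL.c (I.pos (nat_lit 0) (nat_lit 0)) T2.l1
  (TrL.c (I.pos (nat_lit 0) (nat_lit 134217730)) (xR T0.l1 T0.l8)
  (TrL.c (I.pos (nat_lit 0) (nat_lit 110514882)) (xR T2.l2 T2.l2)
  (TrL.c (I.pos (nat_lit 0) (nat_lit 0)) (xk T2.l11 T2.l11)
  (TrL.c (I.pos (nat_lit 0) (nat_lit 0)) T0.l2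
  (TrL.c (I.mix (nat_lit 8088324) (nat_lit 110514882)) (xR T2.l4 T2.l4)
  (TrL.c (I.mix (nat_lit 8088324) (nat_lit 89478486)) T0.l3
  TrL.n)))))))) (by decide +kernel)
theorem sv1 : StarV sI cl13 cl6 cl13 t0 t2 t1 :=
  (bt_n (bt_n (bt_n (bt_b bx1_0) (bt_n (bt_b bx1_1) (bt_b bx1_2))) (bt_n (bt_b bx1_3) (bt_n (bt_b bx1_4) (bt_b bx1_5)))) (bt_n (bt_n (bt_b bx1_6) (bt_n (bt_b bx1_7) (bt_b bx1_8))) (bt_n (bt_b bx1_9) (bt_n (bt_b bx1_10) (bt_b bx1_11)))))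
def S1 : StarD := StarD.mk cl13 cl6 cl13 0 2 t1
theorem bx2_0 : BoxOK sI cl13 cl13 cl6 t2 t0 b2_0 :=
  box_mk (TrL.c (I.pos (nat_lit 0) (nat_lit 0)) (xa (xa (xb T2.l0 T2.l0) (xb T2.l0 T2.l0)) (xa (xb T2.l0 T2.l0) (xb T2.l0 T2.l0)))
  (TrL.c (I.pos (nat_lit 0) (nat_lit 0)) (xa (xk T0.l5 T0.l5) (xk T0.l5 T0.l5))
  (TrL.c (I.pos (nat_lit 0) (nat_lit 134217730)) (xR T2.l4 T2.l6)
  (TrL.c (I.pos (nat_lit 0) (nat_lit 110514882)) (xR T0.l3 T0.l6)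
  (TrL.c (I.pos (nat_lit 0) (nat_lit 0)) (xa (xk (xb T0.l7 T0.l7) T0.l7) (xk (xb (xa T0.l7 T0.l7) (xa T0.l7 T0.l7)) (xb T0.l7 (xa T0.l7 (xb T0.l7 (xs T0.l7 T0.l7))))))
  (TrL.c (I.pos (nat_lit 0) (nat_lit 0)) T2.l7
  (TrL.c (I.mix (nat_lit 8088324) (nat_lit 110514882)) (xR T0.l8 T0.l8)
  (TrL.c (I.mix (nat_lit 8088324) (nat_lit 89478486)) T2.l9
  TrL.n)))))))) (by decide +kernel)
theorem bx2_1 : BoxOK sI cl13 cl13 cl6 t2 t0 b2_1 :=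
  box_mk (TrL.c (I.pos (nat_lit 0) (nat_lit 0)) T2.l8
  (TrL.c (I.pos (nat_lit 0) (nat_lit 0)) (xa T0.l5 T0.l5)
  (TrL.c (I.pos (nat_lit 0) (nat_lit 134217730)) (xR T2.l4 T2.l6)
  (TrL.c (I.pos (nat_lit 0) (nat_lit 110514882)) (xR T0.l1 T0.l6)
  (TrL.c (I.pos (nat_lit 0) (nat_lit 0)) (xk (xa T0.l9 T0.l9) (xa T0.l9 T0.l9))
  (TrL.c (I.pos (nat_lit 0) (nat_lit 0)) T2.l7
  (TrL.c (I.mix (nat_lit 8088324) (nat_lit 110514882)) (xR T0.l8 T0.l8)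
  (TrL.c (I.mix (nat_lit 8088324) (nat_lit 89478486)) T2.l9
  TrL.n)))))))) (by decide +kernel)
theorem bx2_2 : BoxOK sI cl13 cl13 cl6 t2 t0 b2_2 :=
  box_mk (TrL.c (I.pos (nat_lit 0) (nat_lit 0)) (xa T2.l8 T2.l8)
  (TrL.c (I.pos (nat_lit 0) (nat_lit 0)) (xa T0.l5 T0.l5)
  (TrL.c (I.pos (nat_lit 0) (nat_lit 134217730)) (xR T2.l4 T2.l6)
  (TrL.c (I.pos (nat_lit 0) (nat_lit 110514882)) (xR T0.l1 T0.l6)
  (TrL.c (I.pos (nat_lit 0) (nat_lit 0)) (xa T0.l9 T0.l9)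
  (TrL.c (I.pos (nat_lit 0) (nat_lit 0)) T2.l7
  (TrL.c (I.mix (nat_lit 8088324) (nat_lit 110514882)) T0.l8
  (TrL.c (I.mix (nat_lit 8088324) (nat_lit 89478486)) T2.l2
  TrL.n)))))))) (by decide +kernel)
theorem bx2_3 : BoxOK sI cl13 cl13 cl6 t2 t0 b2_3 :=
  box_mk (TrL.c (I.pos (nat_lit 0) (nat_lit 0)) T2.l10
  (TrL.c (I.pos (nat_lit 0) (nat_lit 0)) (xk T0.l5 T0.l5)
  (TrL.c (I.pos (nat_lit 0) (nat_lit 134217730)) (xR T2.l4 T2.l6)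
  (TrL.c (I.pos (nat_lit 0) (nat_lit 110514882)) (xR T0.l3 T0.l6)
  (TrL.c (I.pos (nat_lit 0) (nat_lit 0)) (xk (xb T0.l10 T0.l7) (xb T0.l10 T0.l7))
  (TrL.c (I.pos (nat_lit 0) (nat_lit 0)) T2.l7
  (TrL.c (I.mix (nat_lit 8088324) (nat_lit 110514882)) (xR T0.l8 T0.l8)
  (TrL.c (I.mix (nat_lit 8088324) (nat_lit 89478486)) T2.l9
  TrL.n)))))))) (by decide +kernel)
theorem bx2_4 : BoxOK sI cl13 cl13 cl6 t2 t0 b2_4 :=
  box_mk (TrL.c (I.pos (nat_lit 0) (nat_lit 0)) (xa (xa T2.l8 T2.l8) (xa T2.l8 T2.l8))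
  (TrL.c (I.pos (nat_lit 0) (nat_lit 0)) (xa T0.l5 (xa T0.l5 T0.l5))
  (TrL.c (I.pos (nat_lit 0) (nat_lit 134217730)) (xR T2.l4 T2.l6)
  (TrL.c (I.pos (nat_lit 0) (nat_lit 110514882)) (xR T0.l1 T0.l6)
  (TrL.c (I.pos (nat_lit 0) (nat_lit 0)) (xa T0.l9 T0.l9)
  (TrL.c (I.pos (nat_lit 0) (nat_lit 0)) T2.l7
  (TrL.c (I.mix (nat_lit 8088324) (nat_lit 110514882)) (xR T0.l8 T0.l8)
  (TrL.c (I.mix (nat_lit 8088324) (nat_lit 89478486)) T2.l4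
  TrL.n)))))))) (by decide +kernel)
theorem bx2_5 : BoxOK sI cl13 cl13 cl6 t2 t0 b2_5 :=
  box_mk (TrL.c (I.pos (nat_lit 0) (nat_lit 0)) T2.l0
  (TrL.c (I.pos (nat_lit 0) (nat_lit 0)) (xk T0.l5 T0.l5)
  (TrL.c (I.pos (nat_lit 0) (nat_lit 134217730)) (xR T2.l4 T2.l6)
  (TrL.c (I.pos (nat_lit 0) (nat_lit 110514882)) (xR T0.l3 T0.l6)
  (TrL.c (I.pos (nat_lit 0) (nat_lit 0)) (xk (xa T0.l10 T0.l7) (xa T0.l10 T0.l7))
  (TrL.c (I.pos (nat_lit 0) (nat_lit 0)) T2.l7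
  (TrL.c (I.mix (nat_lit 8088324) (nat_lit 110514882)) (xR T0.l8 T0.l8)
  (TrL.c (I.mix (nat_lit 8088324) (nat_lit 89478486)) T2.l9
  TrL.n)))))))) (by decide +kernel)
theorem bx2_6 : BoxOK sI cl13 cl13 cl6 t2 t0 b2_6 :=
  box_mk (TrL.c (I.pos (nat_lit 0) (nat_lit 0)) (xa T2.l8 T2.l8)
  (TrL.c (I.pos (nat_lit 0) (nat_lit 0)) (xa T0.l5 T0.l5)
  (TrL.c (I.pos (nat_lit 0) (nat_lit 134217730)) (xR T2.l4 T2.l6)
  (TrL.c (I.pos (nat_lit 0) (nat_lit 110514882)) (xR T0.l1 T0.l6)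
  (TrL.c (I.pos (nat_lit 0) (nat_lit 0)) T0.l9
  (TrL.c (I.pos (nat_lit 0) (nat_lit 0)) T2.l7
  (TrL.c (I.mix (nat_lit 8088324) (nat_lit 110514882)) T0.l8
  (TrL.c (I.mix (nat_lit 8088324) (nat_lit 89478486)) T2.l2
  TrL.n)))))))) (by decide +kernel)
theorem bx2_7 : BoxOK sI cl13 cl13 cl6 t2 t0 b2_7 :=
  box_mk (TrL.c (I.pos (nat_lit 0) (nat_lit 0)) T2.l8
  (TrL.c (I.pos (nat_lit 0) (nat_lit 0)) T0.l5
  (TrL.c (I.pos (nat_lit 0) (nat_lit 134217730)) (xR T2.l4 T2.l6)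
  (TrL.c (I.pos (nat_lit 0) (nat_lit 110514882)) (xR T0.l1 T0.l6)
  (TrL.c (I.pos (nat_lit 0) (nat_lit 0)) (xb T0.l9 T0.l9)
  (TrL.c (I.pos (nat_lit 0) (nat_lit 0)) T2.l7
  (TrL.c (I.mix (nat_lit 8088324) (nat_lit 110514882)) T0.l8
  (TrL.c (I.mix (nat_lit 8088324) (nat_lit 89478486)) T2.l9
  TrL.n)))))))) (by decide +kernel)
theorem bx2_8 : BoxOK sI cl13 cl13 cl6 t2 t0 b2_8 :=
  box_mk (TrL.c (I.pos (nat_lit 0) (nat_lit 0)) (xa (xb T2.l0 T2.l0) T2.l0)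
  (TrL.c (I.pos (nat_lit 0) (nat_lit 0)) (xa (xk T0.l5 T0.l5) (xk (xa T0.l2 T0.l2) (xb T0.l5 T0.l5)))
  (TrL.c (I.pos (nat_lit 0) (nat_lit 134217730)) (xR T2.l4 T2.l6)
  (TrL.c (I.pos (nat_lit 0) (nat_lit 110514882)) (xR T0.l3 T0.l6)
  (TrL.c (I.pos (nat_lit 0) (nat_lit 0)) (xa (xk (xb T0.l7 T0.l7) (xb T0.l7 T0.l7)) (xk (xb (xa T0.l7 (xk T0.l7 T0.l7)) (xa T0.l7 (xk T0.l7 T0.l7))) (xb (xa T0.l7 (xk T0.l7 T0.l7)) (xa T0.l7 (xk T0.l7 T0.l7)))))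
  (TrL.c (I.pos (nat_lit 0) (nat_lit 0)) (xk (xa T2.l7 T2.l7) (xa T2.l7 T2.l7))
  (TrL.c (I.mix (nat_lit 8088324) (nat_lit 110514882)) (xR T0.l8 (xR T0.l8 (xR T0.l8 T0.l8)))
  (TrL.c (I.mix (nat_lit 8088324) (nat_lit 89478486)) T2.l9
  TrL.n)))))))) (by decide +kernel)
theorem bx2_9 : BoxOK sI cl13 cl13 cl6 t2 t0 b2_9 :=
  box_mk (TrL.c (I.pos (nat_lit 0) (nat_lit 0)) (xa T2.l8 T2.l8)
  (TrL.c (I.pos (nat_lit 0) (nat_lit 0)) (xa T0.l5 T0.l5)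
  (TrL.c (I.pos (nat_lit 0) (nat_lit 134217730)) (xR T2.l2 T2.l6)
  (TrL.c (I.pos (nat_lit 0) (nat_lit 110514882)) (xR T0.l1 T0.l6)
  (TrL.c (I.pos (nat_lit 0) (nat_lit 0)) (xa T0.l9 T0.l9)
  (TrL.c (I.pos (nat_lit 0) (nat_lit 0)) T2.l7
  (TrL.c (I.mix (nat_lit 8088324) (nat_lit 110514882)) T0.l8
  (TrL.c (I.mix (nat_lit 8088324) (nat_lit 89478486)) T2.l2
  TrL.n)))))))) (by decide +kernel)
theorem bx2_10 : BoxOK sI cl13 cl13 cl6 t2 t0 b2_10 :=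
  box_mk (TrL.c (I.pos (nat_lit 0) (nat_lit 0)) (xa T2.l0 T2.l0)
  (TrL.c (I.pos (nat_lit 0) (nat_lit 0)) (xk (xa T0.l5 T0.l5) (xa T0.l5 T0.l5))
  (TrL.c (I.pos (nat_lit 0) (nat_lit 134217730)) (xR T2.l4 T2.l6)
  (TrL.c (I.pos (nat_lit 0) (nat_lit 110514882)) (xR T0.l3 T0.l6)
  (TrL.c (I.pos (nat_lit 0) (nat_lit 0)) (xk (xa T0.l7 T0.l7) (xa T0.l7 T0.l7))
  (TrL.c (I.pos (nat_lit 0) (nat_lit 0)) T2.l7
  (TrL.c (I.mix (nat_lit 8088324) (nat_lit 110514882)) (xR T0.l8 T0.l8)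
  (TrL.c (I.mix (nat_lit 8088324) (nat_lit 89478486)) T2.l9
  TrL.n)))))))) (by decide +kernel)
theorem bx2_11 : BoxOK sI cl13 cl13 cl6 t2 t0 b2_11 :=
  box_mk (TrL.c (I.pos (nat_lit 0) (nat_lit 0)) T2.l10
  (TrL.c (I.pos (nat_lit 0) (nat_lit 0)) T0.l5
  (TrL.c (I.pos (nat_lit 0) (nat_lit 134217730)) (xR T2.l4 T2.l6)
  (TrL.c (I.pos (nat_lit 0) (nat_lit 110514882)) (xR T0.l3 T0.l6)
  (TrL.c (I.pos (nat_lit 0) (nat_lit 0)) (xk T0.l10 T0.l10)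
  (TrL.c (I.pos (nat_lit 0) (nat_lit 0)) T2.l7
  (TrL.c (I.mix (nat_lit 8088324) (nat_lit 110514882)) (xR T0.l8 T0.l8)
  (TrL.c (I.mix (nat_lit 8088324) (nat_lit 89478486)) T2.l9
  TrL.n)))))))) (by decide +kernel)
theorem sv2 : StarV sI cl13 cl13 cl6 t2 t0 t2 :=
  (bt_n (bt_n (bt_n (bt_b bx2_0) (bt_n (bt_b bx2_1) (bt_b bx2_2))) (bt_n (bt_b bx2_3) (bt_n (bt_b bx2_4) (bt_b bx2_5)))) (bt_n (bt_n (bt_b bx2_6) (bt_n (bt_b bx2_7) (bt_b bx2_8))) (bt_n (bt_b bx2_9) (bt_n (bt_b bx2_10) (bt_b bx2_11)))))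
def S2 : StarD := StarD.mk cl13 cl13 cl6 2 0 t2
def G : List StarD := [S0, S1, S2]
theorem so0 : StarOK sI G S0 :=
  star_mk (by decide) (by decide) rfl rfl rfl rfl rfl rfl (rfl : _ = t1) (rfl : _ = t1)
  (st_mk (Pth.l (Pth.l (Pth.l Pth.z))) (nat_lit 96825573) (nat_lit 115426150) (by decide +kernel))
  (st_mk (Pth.l (Pth.l (Pth.l Pth.z))) (nat_lit 132583745) (nat_lit 151460514) (by decide +kernel))
  (st_mk (Pth.l (Pth.l (Pth.l Pth.z))) (nat_lit 174187134) (nat_lit 193441152) (by decide +kernel)) sv0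
theorem so1 : StarOK sI G S1 :=
  star_mk (by decide) (by decide) rfl rfl rfl rfl rfl rfl (rfl : _ = t0) (rfl : _ = t2)
  (st_mk (Pth.l (Pth.l (Pth.l Pth.z))) (nat_lit 185843017) (nat_lit 187146825) (by decide +kernel))
  (st_mk (Pth.l (Pth.l (Pth.l Pth.z))) (nat_lit 220739626) (nat_lit 222357966) (by decide +kernel))
  (st_mk (Pth.l (Pth.l (Pth.l Pth.z))) (nat_lit 261004945) (nat_lit 263054289) (by decide +kernel)) sv1
theorem so2 : StarOK sI G S2 :=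
  star_mk (by decide) (by decide) rfl rfl rfl rfl rfl rfl (rfl : _ = t2) (rfl : _ = t0)
  (st_mk (Pth.l (Pth.l (Pth.l Pth.z))) (nat_lit 95831458) (nat_lit 114216611) (by decide +kernel))
  (st_mk (Pth.l (Pth.l (Pth.l Pth.z))) (nat_lit 130728068) (nat_lit 149366793) (by decide +kernel))
  (st_mk (Pth.l (Pth.l (Pth.l Pth.z))) (nat_lit 170993386) (nat_lit 190010141) (by decide +kernel)) sv2
theorem ok : GroupOK (nat_lit 150274048) (nat_lit 209387520) G := grp_mk (allS_c so0 (allS_c so1 (allS_c so2 allS_n)))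
theorem cov : GCov G cl6 cl13 cl13 := cov_mk
  ⟨0, by decide, rfl, rfl, rfl⟩ ⟨0, by decide, rfl, rfl, rfl⟩ ⟨1, by decide, rfl, rfl, rfl⟩ ⟨2, by decide, rfl, rfl, rfl⟩ ⟨1, by decide, rfl, rfl, rfl⟩ ⟨2, by decide, rfl, rfl, rfl⟩
end Q366_2

namespace Q366_3
def sI : I := I.pos (nat_lit 209321984) (nat_lit 268435456)
def b0_0 : Bx := Bx.mk (St.mk (I.pos (nat_lit 158334976) (nat_lit 236683264)) (I.mix (nat_lit 1540096) (nat_lit 46268416)) (I.mix (nat_lit 2277376) (nat_lit 72613888)) (I.pos (nat_lit 93208576) (nat_lit 225755136)) (I.mix (nat_lit 89505792) (nat_lit 48021504)) (I.mix (nat_lit 57753600) (nat_lit 47349760)) (I.mix (nat_lit 73039872) (nat_lit 63684608)))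
  false (nat_lit 30581347)
def b0_1 : Bx := Bx.mk (St.mk (I.mix (nat_lit 15941632) (nat_lit 145227776)) (I.mix (nat_lit 7913472) (nat_lit 22822912)) (I.mix (nat_lit 15450112) (nat_lit 16121856)) (I.mix (nat_lit 3244032) (nat_lit 92569600)) (I.mix (nat_lit 26148864) (nat_lit 24543232)) (I.mix (nat_lit 19824640) (nat_lit 15024128)) (I.mix (nat_lit 16433152) (nat_lit 11042816)))
  false (nat_lit 0)
def b0_2 : Bx := Bx.mk (St.mk (I.pos (nat_lit 114524160) (nat_lit 152715264)) (I.mix (nat_lit 41140224) (nat_lit 7258112)) (I.mix (nat_lit 48349184) (nat_lit 1490944)) (I.pos (nat_lit 51216384) (nat_lit 103546880)) (I.mix (nat_lit 80887808) (nat_lit 24903680)) (I.mix (nat_lit 26247168) (nat_lit 60653568)) (I.mix (nat_lit 22118400) (nat_lit 55508992)))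
  false (nat_lit 17847381)
def b0_3 : Bx := Bx.mk (St.mk (I.mix (nat_lit 13238272) (nat_lit 106627072)) (I.mix (nat_lit 22446080) (nat_lit 2342912)) (I.mix (nat_lit 19972096) (nat_lit 1130496)) (I.mix (nat_lit 2244608) (nat_lit 58179584)) (I.mix (nat_lit 33193984) (nat_lit 12386304)) (I.mix (nat_lit 11911168) (nat_lit 22052864)) (I.mix (nat_lit 6717440) (nat_lit 14041088)))
  false (nat_lit 0)
def b0_4 : Bx := Bx.mk (St.mk (I.pos (nat_lit 203489280) (nat_lit 281247744)) (I.mix (nat_lit 21905408) (nat_lit 31260672)) (I.mix (nat_lit 68911104) (nat_lit 44646400)) (I.pos (nat_lit 176881664) (nat_lit 321126400)) (I.mix (nat_lit 63111168) (nat_lit 38502400)) (I.mix (nat_lit 43188224) (nat_lit 33652736)) (I.mix (nat_lit 78413824) (nat_lit 59899904)))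
  false (nat_lit 33424898)
def b0_5 : Bx := Bx.mk (St.mk (I.pos (nat_lit 107364352) (nat_lit 183418880)) (I.neg (nat_lit 2179072) (nat_lit 47022080)) (I.neg (nat_lit 7290880) (nat_lit 52002816)) (I.pos (nat_lit 62734336) (nat_lit 142639104)) (I.mix (nat_lit 78970880) (nat_lit 46874624)) (I.mix (nat_lit 37584896) (nat_lit 57704448)) (I.mix (nat_lit 31948800) (nat_lit 59998208)))
  false (nat_lit 48378976)
def b0_6 : Bx := Bx.mk (St.mk (I.mix (nat_lit 15859712) (nat_lit 117178368)) (I.mix (nat_lit 26214400) (nat_lit 7356416)) (I.mix (nat_lit 22462464) (nat_lit 983040)) (I.mix (nat_lit 2277376) (nat_lit 66502656)) (I.mix (nat_lit 39419904) (nat_lit 30703616)) (I.mix (nat_lit 21741568) (nat_lit 30081024)) (I.mix (nat_lit 12369920) (nat_lit 21266432)))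
  false (nat_lit 4436310)
def b0_7 : Bx := Bx.mk (St.mk (I.pos (nat_lit 174292992) (nat_lit 219217920)) (I.mix (nat_lit 10616832) (nat_lit 47644672)) (I.mix (nat_lit 3440640) (nat_lit 73613312)) (I.pos (nat_lit 125157376) (nat_lit 198934528)) (I.mix (nat_lit 128565248) (nat_lit 52117504)) (I.mix (nat_lit 102481920) (nat_lit 58900480)) (I.mix (nat_lit 115261440) (nat_lit 60768256)))
  false (nat_lit 0)
def b0_8 : Bx := Bx.mk (St.mk (I.mix (nat_lit 14155776) (nat_lit 138002432)) (I.mix (nat_lit 13221888) (nat_lit 32456704)) (I.mix (nat_lit 14008320) (nat_lit 23330816)) (I.mix (nat_lit 3014656) (nat_lit 84443136)) (I.mix (nat_lit 53870592) (nat_lit 35323904)) (I.mix (nat_lit 45760512) (nat_lit 27590656)) (I.mix (nat_lit 31916032) (nat_lit 18382848)))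
  false (nat_lit 8158298)
def b0_9 : Bx := Bx.mk (St.mk (I.pos (nat_lit 157089792) (nat_lit 216449024)) (I.mix (nat_lit 32374784) (nat_lit 14909440)) (I.mix (nat_lit 39010304) (nat_lit 24969216)) (I.pos (nat_lit 98484224) (nat_lit 188416000)) (I.mix (nat_lit 52609024) (nat_lit 44138496)) (I.mix (nat_lit 46874624) (nat_lit 42369024)) (I.mix (nat_lit 50954240) (nat_lit 47382528)))
  false (nat_lit 53191715)
def b0_10 : Bx := Bx.mk (St.mk (I.pos (nat_lit 178438144) (nat_lit 216596480)) (I.mix (nat_lit 10125312) (nat_lit 23363584)) (I.mix (nat_lit 3997696) (nat_lit 39354368)) (I.pos (nat_lit 126844928) (nat_lit 185892864)) (I.mix (nat_lit 86736896) (nat_lit 53788672)) (I.mix (nat_lit 93388800) (nat_lit 47792128)) (I.mix (nat_lit 107806720) (nat_lit 50839552)))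
  false (nat_lit 0)
def b0_11 : Bx := Bx.mk (St.mk (I.pos (nat_lit 195100672) (nat_lit 236371968)) (I.pos (nat_lit 12730368) (nat_lit 44040192)) (I.pos (nat_lit 16400384) (nat_lit 69255168)) (I.pos (nat_lit 171180032) (nat_lit 223117312)) (I.mix (nat_lit 71712768) (nat_lit 48463872)) (I.mix (nat_lit 53018624) (nat_lit 39649280)) (I.mix (nat_lit 84295680) (nat_lit 49250304)))
  false (nat_lit 15591860)
def t0 : BTr := (BTr.n (BTr.n (BTr.n (BTr.b b0_0) (BTr.n (BTr.b b0_1) (BTr.b b0_2))) (BTr.n (BTr.b b0_3) (BTr.n (BTr.b b0_4) (BTr.b b0_5)))) (BTr.n (BTr.n (BTr.b b0_6) (BTr.n (BTr.b b0_7) (BTr.b b0_8))) (BTr.n (BTr.b b0_9) (BTr.n (BTr.b b0_10) (BTr.b b0_11)))))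
namespace T0
def l0 : Tr := Tr.L (Pth.l (Pth.l (Pth.l Pth.z)))
def l1 : Tr := Tr.L (Pth.l (Pth.l (Pth.r (Pth.l Pth.z))))
def l2 : Tr := Tr.L (Pth.l (Pth.l (Pth.r (Pth.r Pth.z))))
def l3 : Tr := Tr.L (Pth.l (Pth.r (Pth.l Pth.z)))
def l4 : Tr := Tr.L (Pth.l (Pth.r (Pth.r (Pth.l Pth.z))))
def l5 : Tr := Tr.L (Pth.l (Pth.r (Pth.r (Pth.r Pth.z))))
def l6 : Tr := Tr.L (Pth.r (Pth.l (Pth.l Pth.z)))
def l7 : Tr := Tr.L (Pth.r (Pth.l (Pth.r (Pth.l Pth.z))))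
def l8 : Tr := Tr.L (Pth.r (Pth.l (Pth.r (Pth.r Pth.z))))
def l9 : Tr := Tr.L (Pth.r (Pth.r (Pth.l Pth.z)))
def l10 : Tr := Tr.L (Pth.r (Pth.r (Pth.r (Pth.l Pth.z))))
def l11 : Tr := Tr.L (Pth.r (Pth.r (Pth.r (Pth.r Pth.z))))
end T0
def b1_0 : Bx := Bx.mk (St.mk (I.pos (nat_lit 156565504) (nat_lit 229851136)) (I.mix (nat_lit 1835008) (nat_lit 57081856)) (I.mix (nat_lit 2736128) (nat_lit 88539136)) (I.pos (nat_lit 182370304) (nat_lit 286900224)) (I.mix (nat_lit 99172352) (nat_lit 56852480)) (I.mix (nat_lit 57458688) (nat_lit 51855360)) (I.mix (nat_lit 76152832) (nat_lit 67387392)))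
  false (nat_lit 130001129)
def b1_1 : Bx := Bx.mk (St.mk (I.pos (nat_lit 81690624) (nat_lit 163790848)) (I.neg (nat_lit 10174464) (nat_lit 59375616)) (I.neg (nat_lit 999424) (nat_lit 53608448)) (I.pos (nat_lit 122011648) (nat_lit 189071360)) (I.mix (nat_lit 78757888) (nat_lit 47300608)) (I.mix (nat_lit 34209792) (nat_lit 55623680)) (I.mix (nat_lit 25329664) (nat_lit 47022080)))
  false (nat_lit 0)
def b1_2 : Bx := Bx.mk (St.mk (I.mix (nat_lit 34160640) (nat_lit 99647488)) (I.mix (nat_lit 6258688) (nat_lit 36798464)) (I.mix (nat_lit 14581760) (nat_lit 16547840)) (I.pos (nat_lit 78462976) (nat_lit 125009920)) (I.mix (nat_lit 36356096) (nat_lit 42024960)) (I.mix (nat_lit 34324480) (nat_lit 22216704)) (I.mix (nat_lit 21905408) (nat_lit 12959744)))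
  false (nat_lit 0)
def b1_3 : Bx := Bx.mk (St.mk (I.mix (nat_lit 34766848) (nat_lit 47939584)) (I.mix (nat_lit 32866304) (nat_lit 5357568)) (I.mix (nat_lit 12763136) (nat_lit 3309568)) (I.pos (nat_lit 81870848) (nat_lit 101646336)) (I.mix (nat_lit 27230208) (nat_lit 32784384)) (I.mix (nat_lit 16957440) (nat_lit 27672576)) (I.mix (nat_lit 6750208) (nat_lit 10305536)))
  false (nat_lit 0)
def b1_4 : Bx := Bx.mk (St.mk (I.pos (nat_lit 160792576) (nat_lit 206684160)) (I.pos (nat_lit 1884160) (nat_lit 55115776)) (I.pos (nat_lit 14417920) (nat_lit 84869120)) (I.pos (nat_lit 191283200) (nat_lit 251461632)) (I.mix (nat_lit 110280704) (nat_lit 31801344)) (I.mix (nat_lit 82132992) (nat_lit 46022656)) (I.mix (nat_lit 77185024) (nat_lit 38060032)))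
  false (nat_lit 96054439)
def b1_5 : Bx := Bx.mk (St.mk (I.pos (nat_lit 78069760) (nat_lit 123486208)) (I.mix (nat_lit 56377344) (nat_lit 7241728)) (I.neg (nat_lit 2129920) (nat_lit 50937856)) (I.pos (nat_lit 111280128) (nat_lit 146898944)) (I.mix (nat_lit 77627392) (nat_lit 28606464)) (I.mix (nat_lit 26607616) (nat_lit 62455808)) (I.mix (nat_lit 19070976) (nat_lit 42024960)))
  false (nat_lit 0)
def b1_6 : Bx := Bx.mk (St.mk (I.mix (nat_lit 48889856) (nat_lit 68943872)) (I.mix (nat_lit 8470528) (nat_lit 33390592)) (I.mix (nat_lit 11698176) (nat_lit 12763136)) (I.pos (nat_lit 82739200) (nat_lit 107560960)) (I.mix (nat_lit 46563328) (nat_lit 34226176)) (I.mix (nat_lit 37355520) (nat_lit 22151168)) (I.mix (nat_lit 13778944) (nat_lit 13959168)))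
  false (nat_lit 0)
def b1_7 : Bx := Bx.mk (St.mk (I.mix (nat_lit 48758784) (nat_lit 31981568)) (I.mix (nat_lit 32489472) (nat_lit 4947968)) (I.mix (nat_lit 10518528) (nat_lit 4472832)) (I.pos (nat_lit 82526208) (nat_lit 101269504)) (I.mix (nat_lit 35995648) (nat_lit 22888448)) (I.mix (nat_lit 16039936) (nat_lit 28295168)) (I.mix (nat_lit 10321920) (nat_lit 5521408)))
  false (nat_lit 0)
def b1_8 : Bx := Bx.mk (St.mk (I.pos (nat_lit 191184896) (nat_lit 286392320)) (I.mix (nat_lit 17448960) (nat_lit 45301760)) (I.mix (nat_lit 61358080) (nat_lit 65748992)) (I.pos (nat_lit 239550464) (nat_lit 390004736)) (I.mix (nat_lit 67944448) (nat_lit 67125248)) (I.mix (nat_lit 58195968) (nat_lit 40189952)) (I.mix (nat_lit 100532224) (nat_lit 62390272)))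
  false (nat_lit 147865702)
def b1_9 : Bx := Bx.mk (St.mk (I.pos (nat_lit 142131200) (nat_lit 200507392)) (I.mix (nat_lit 33783808) (nat_lit 17514496)) (I.mix (nat_lit 27901952) (nat_lit 37355520)) (I.pos (nat_lit 167247872) (nat_lit 234733568)) (I.mix (nat_lit 53166080) (nat_lit 50905088)) (I.mix (nat_lit 47480832) (nat_lit 46546944)) (I.mix (nat_lit 44056576) (nat_lit 44548096)))
  false (nat_lit 0)
def b1_10 : Bx := Bx.mk (St.mk (I.pos (nat_lit 177602560) (nat_lit 224755712)) (I.pos (nat_lit 17252352) (nat_lit 55869440)) (I.pos (nat_lit 27951104) (nat_lit 86179840)) (I.pos (nat_lit 229490688) (nat_lit 278806528)) (I.mix (nat_lit 98811904) (nat_lit 76775424)) (I.mix (nat_lit 74711040) (nat_lit 56442880)) (I.mix (nat_lit 109527040) (nat_lit 70172672)))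
  false (nat_lit 66808692)
def b1_11 : Bx := Bx.mk (St.mk (I.pos (nat_lit 162512896) (nat_lit 200179712)) (I.mix (nat_lit 5242880) (nat_lit 32964608)) (I.pos (nat_lit 7766016) (nat_lit 58998784)) (I.pos (nat_lit 193298432) (nat_lit 239009792)) (I.mix (nat_lit 101367808) (nat_lit 51085312)) (I.mix (nat_lit 97091584) (nat_lit 44859392)) (I.mix (nat_lit 96616448) (nat_lit 40124416)))
  false (nat_lit 39505606)
def t1 : BTr := (BTr.n (BTr.n (BTr.n (BTr.b b1_0) (BTr.n (BTr.b b1_1) (BTr.b b1_2))) (BTr.n (BTr.b b1_3) (BTr.n (BTr.b b1_4) (BTr.b b1_5)))) (BTr.n (BTr.n (BTr.b b1_6) (BTr.n (BTr.b b1_7) (BTr.b b1_8))) (BTr.n (BTr.b b1_9) (BTr.n (BTr.b b1_10) (BTr.b b1_11)))))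
namespace T1
def l0 : Tr := Tr.L (Pth.l (Pth.l (Pth.l Pth.z)))
def l1 : Tr := Tr.L (Pth.l (Pth.l (Pth.r (Pth.l Pth.z))))
def l2 : Tr := Tr.L (Pth.l (Pth.l (Pth.r (Pth.r Pth.z))))
def l3 : Tr := Tr.L (Pth.l (Pth.r (Pth.l Pth.z)))
def l4 : Tr := Tr.L (Pth.l (Pth.r (Pth.r (Pth.l Pth.z))))
def l5 : Tr := Tr.L (Pth.l (Pth.r (Pth.r (Pth.r Pth.z))))
def l6 : Tr := Tr.L (Pth.r (Pth.l (Pth.l Pth.z)))
def l7 : Tr := Tr.L (Pth.r (Pth.l (Pth.r (Pth.l Pth.z))))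
def l8 : Tr := Tr.L (Pth.r (Pth.l (Pth.r (Pth.r Pth.z))))
def l9 : Tr := Tr.L (Pth.r (Pth.r (Pth.l Pth.z)))
def l10 : Tr := Tr.L (Pth.r (Pth.r (Pth.r (Pth.l Pth.z))))
def l11 : Tr := Tr.L (Pth.r (Pth.r (Pth.r (Pth.r Pth.z))))
end T1
def b2_0 : Bx := Bx.mk (St.mk (I.pos (nat_lit 158400512) (nat_lit 236650496)) (I.mix (nat_lit 1425408) (nat_lit 44417024)) (I.mix (nat_lit 2752512) (nat_lit 94633984)) (I.pos (nat_lit 92520448) (nat_lit 210436096)) (I.mix (nat_lit 103694336) (nat_lit 64733184)) (I.mix (nat_lit 71024640) (nat_lit 68927488)) (I.mix (nat_lit 99663872) (nat_lit 89800704)))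
  false (nat_lit 34985554)
def b2_1 : Bx := Bx.mk (St.mk (I.pos (nat_lit 114442240) (nat_lit 191086592)) (I.neg (nat_lit 5554176) (nat_lit 49348608)) (I.mix (nat_lit 42090496) (nat_lit 10551296)) (I.pos (nat_lit 70156288) (nat_lit 150552576)) (I.mix (nat_lit 73269248) (nat_lit 37355520)) (I.mix (nat_lit 32096256) (nat_lit 46153728)) (I.mix (nat_lit 27508736) (nat_lit 42319872)))
  false (nat_lit 2844177)
def b2_2 : Bx := Bx.mk (St.mk (I.mix (nat_lit 11010048) (nat_lit 120520704)) (I.mix (nat_lit 25346048) (nat_lit 4440064)) (I.mix (nat_lit 14712832) (nat_lit 9060352)) (I.mix (nat_lit 2539520) (nat_lit 68386816)) (I.mix (nat_lit 30179328) (nat_lit 20627456)) (I.mix (nat_lit 14336000) (nat_lit 17219584)) (I.mix (nat_lit 9338880) (nat_lit 11632640)))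
  false (nat_lit 0)
def b2_3 : Bx := Bx.mk (St.mk (I.pos (nat_lit 169705472) (nat_lit 214007808)) (I.mix (nat_lit 10403840) (nat_lit 44204032)) (I.pos (nat_lit 12943360) (nat_lit 89735168)) (I.pos (nat_lit 113786880) (nat_lit 183549952)) (I.mix (nat_lit 137641984) (nat_lit 54444032)) (I.mix (nat_lit 111181824) (nat_lit 61292544)) (I.mix (nat_lit 133513216) (nat_lit 53067776)))
  false (nat_lit 49955945)
def b2_4 : Bx := Bx.mk (St.mk (I.mix (nat_lit 14417920) (nat_lit 134774784)) (I.mix (nat_lit 12713984) (nat_lit 29835264)) (I.mix (nat_lit 4833280) (nat_lit 31703040)) (I.mix (nat_lit 2916352) (nat_lit 80986112)) (I.mix (nat_lit 57917440) (nat_lit 25542656)) (I.mix (nat_lit 42844160) (nat_lit 25247744)) (I.mix (nat_lit 31817728) (nat_lit 14860288)))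
  false (nat_lit 0)
def b2_5 : Bx := Bx.mk (St.mk (I.pos (nat_lit 158285824) (nat_lit 212451328)) (I.mix (nat_lit 33226752) (nat_lit 6897664)) (I.mix (nat_lit 21659648) (nat_lit 35979264)) (I.pos (nat_lit 101433344) (nat_lit 176553984)) (I.mix (nat_lit 45219840) (nat_lit 50069504)) (I.mix (nat_lit 42860544) (nat_lit 42827776)) (I.mix (nat_lit 43171840) (nat_lit 46170112)))
  false (nat_lit 32656281)
def b2_6 : Bx := Bx.mk (St.mk (I.mix (nat_lit 18628608) (nat_lit 142786560)) (I.mix (nat_lit 5193728) (nat_lit 23691264)) (I.mix (nat_lit 1097728) (nat_lit 28557312)) (I.mix (nat_lit 2949120) (nat_lit 89882624)) (I.mix (nat_lit 44875776) (nat_lit 36700160)) (I.mix (nat_lit 37371904) (nat_lit 27066368)) (I.mix (nat_lit 31932416) (nat_lit 19644416)))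
  false (nat_lit 0)
def b2_7 : Bx := Bx.mk (St.mk (I.pos (nat_lit 116686848) (nat_lit 160120832)) (I.mix (nat_lit 45465600) (nat_lit 6930432)) (I.mix (nat_lit 38895616) (nat_lit 13631488)) (I.pos (nat_lit 53706752) (nat_lit 111050752)) (I.mix (nat_lit 79462400) (nat_lit 42467328)) (I.mix (nat_lit 30097408) (nat_lit 66289664)) (I.mix (nat_lit 25722880) (nat_lit 57933824)))
  false (nat_lit 0)
def b2_8 : Bx := Bx.mk (St.mk (I.pos (nat_lit 196231168) (nat_lit 283115520)) (I.mix (nat_lit 13746176) (nat_lit 34258944)) (I.mix (nat_lit 11091968) (nat_lit 81149952)) (I.pos (nat_lit 158564352) (nat_lit 312967168)) (I.mix (nat_lit 62078976) (nat_lit 61898752)) (I.mix (nat_lit 52133888) (nat_lit 39665664)) (I.mix (nat_lit 88227840) (nat_lit 66928640)))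
  false (nat_lit 53785631)
def b2_9 : Bx := Bx.mk (St.mk (I.mix (nat_lit 8142848) (nat_lit 108576768)) (I.mix (nat_lit 23281664) (nat_lit 819200)) (I.mix (nat_lit 12845056) (nat_lit 6275072)) (I.mix (nat_lit 65536) (nat_lit 60030976)) (I.mix (nat_lit 32686080) (nat_lit 23838720)) (I.mix (nat_lit 17809408) (nat_lit 28688384)) (I.mix (nat_lit 10141696) (nat_lit 16728064)))
  false (nat_lit 0)
def b2_10 : Bx := Bx.mk (St.mk (I.pos (nat_lit 185647104) (nat_lit 232980480)) (I.pos (nat_lit 8388608) (nat_lit 41844736)) (I.pos (nat_lit 30785536) (nat_lit 90439680)) (I.pos (nat_lit 150863872) (nat_lit 204570624)) (I.mix (nat_lit 91602944) (nat_lit 77561856)) (I.mix (nat_lit 79118336) (nat_lit 60833792)) (I.mix (nat_lit 117194752) (nat_lit 79446016)))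
  false (nat_lit 46182157)
def b2_11 : Bx := Bx.mk (St.mk (I.pos (nat_lit 176455680) (nat_lit 209649664)) (I.mix (nat_lit 15302656) (nat_lit 18186240)) (I.pos (nat_lit 6963200) (nat_lit 52199424)) (I.pos (nat_lit 118505472) (nat_lit 172146688)) (I.mix (nat_lit 70107136) (nat_lit 40615936)) (I.mix (nat_lit 62996480) (nat_lit 36798464)) (I.mix (nat_lit 76464128) (nat_lit 38223872)))
  false (nat_lit 19098710)
def t2 : BTr := (BTr.n (BTr.n (BTr.n (BTr.b b2_0) (BTr.n (BTr.b b2_1) (BTr.b b2_2))) (BTr.n (BTr.b b2_3) (BTr.n (BTr.b b2_4) (BTr.b b2_5)))) (BTr.n (BTr.n (BTr.b b2_6) (BTr.n (BTr.b b2_7) (BTr.b b2_8))) (BTr.n (BTr.b b2_9) (BTr.n (BTr.b b2_10) (BTr.b b2_11)))))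
namespace T2
def l0 : Tr := Tr.L (Pth.l (Pth.l (Pth.l Pth.z)))
def l1 : Tr := Tr.L (Pth.l (Pth.l (Pth.r (Pth.l Pth.z))))
def l2 : Tr := Tr.L (Pth.l (Pth.l (Pth.r (Pth.r Pth.z))))
def l3 : Tr := Tr.L (Pth.l (Pth.r (Pth.l Pth.z)))
def l4 : Tr := Tr.L (Pth.l (Pth.r (Pth.r (Pth.l Pth.z))))
def l5 : Tr := Tr.L (Pth.l (Pth.r (Pth.r (Pth.r Pth.z))))
def l6 : Tr := Tr.L (Pth.r (Pth.l (Pth.l Pth.z)))
def l7 : Tr := Tr.L (Pth.r (Pth.l (Pth.r (Pth.l Pth.z))))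
def l8 : Tr := Tr.L (Pth.r (Pth.l (Pth.r (Pth.r Pth.z))))
def l9 : Tr := Tr.L (Pth.r (Pth.r (Pth.l Pth.z)))
def l10 : Tr := Tr.L (Pth.r (Pth.r (Pth.r (Pth.l Pth.z))))
def l11 : Tr := Tr.L (Pth.r (Pth.r (Pth.r (Pth.r Pth.z))))
end T2
theorem bx0_0 : BoxOK sI cl6 cl13 cl13 t1 t1 b0_0 :=
  box_mk (TrL.c (I.pos (nat_lit 0) (nat_lit 0)) (xa (xb (xa (xb T1.l0 T1.l0) T1.l0) (xa (xb T1.l0 T1.l0) (xb T1.l0 T1.l0))) (xb (xa T1.l0 T1.l0) (xa (xb T1.l0 T1.l0) (xb T1.l0 T1.l0))))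
  (TrL.c (I.pos (nat_lit 0) (nat_lit 0)) T1.l1
  (TrL.c (I.pos (nat_lit 0) (nat_lit 89480386)) (xR T1.l2 T1.l2)
  (TrL.c (I.pos (nat_lit 0) (nat_lit 41530880)) T1.l3
  (TrL.c (I.pos (nat_lit 0) (nat_lit 0)) (xa (xb T1.l11 (xa T1.l4 T1.l4)) (xb (xa T1.l4 T1.l4) (xa T1.l4 (xb T1.l4 T1.l4))))
  (TrL.c (I.pos (nat_lit 0) (nat_lit 0)) T1.l5
  (TrL.c (I.mix (nat_lit 41527258) (nat_lit 41530880)) T1.l6
  (TrL.c (I.mix (nat_lit 41527258) (nat_lit 4274)) T1.l7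
  TrL.n)))))))) (by decide +kernel)
theorem bx0_1 : BoxOK sI cl6 cl13 cl13 t1 t1 b0_1 :=
  box_mk (TrL.c (I.pos (nat_lit 0) (nat_lit 0)) (xa T1.l8 (xa T1.l8 (xa T1.l8 T1.l8)))
  (TrL.c (I.pos (nat_lit 0) (nat_lit 0)) (xa T1.l1 T1.l1)
  (TrL.c (I.pos (nat_lit 0) (nat_lit 89480386)) T1.l2
  (TrL.c (I.pos (nat_lit 0) (nat_lit 41530880)) T1.l3
  (TrL.c (I.pos (nat_lit 0) (nat_lit 0)) (xa T1.l9 T1.l9)
  (TrL.c (I.pos (nat_lit 0) (nat_lit 0)) T1.l5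
  (TrL.c (I.mix (nat_lit 41527258) (nat_lit 41530880)) T1.l6
  (TrL.c (I.mix (nat_lit 41527258) (nat_lit 4274)) T1.l7
  TrL.n)))))))) (by decide +kernel)
theorem bx0_2 : BoxOK sI cl6 cl13 cl13 t1 t1 b0_2 :=
  box_mk (TrL.c (I.pos (nat_lit 0) (nat_lit 0)) (xb T1.l8 T1.l8)
  (TrL.c (I.pos (nat_lit 0) (nat_lit 0)) T1.l1
  (TrL.c (I.pos (nat_lit 0) (nat_lit 89480386)) T1.l2
  (TrL.c (I.pos (nat_lit 0) (nat_lit 41530880)) T1.l3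
  (TrL.c (I.pos (nat_lit 0) (nat_lit 0)) (xb T1.l9 T1.l9)
  (TrL.c (I.pos (nat_lit 0) (nat_lit 0)) T1.l5
  (TrL.c (I.mix (nat_lit 41527258) (nat_lit 41530880)) T1.l6
  (TrL.c (I.mix (nat_lit 41527258) (nat_lit 4274)) T1.l7
  TrL.n)))))))) (by decide +kernel)
theorem bx0_3 : BoxOK sI cl6 cl13 cl13 t1 t1 b0_3 :=
  box_mk (TrL.c (I.pos (nat_lit 0) (nat_lit 0)) T1.l8
  (TrL.c (I.pos (nat_lit 0) (nat_lit 0)) (xa T1.l1 T1.l1)
  (TrL.c (I.pos (nat_lit 0) (nat_lit 89480386)) T1.l2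
  (TrL.c (I.pos (nat_lit 0) (nat_lit 41530880)) T1.l3
  (TrL.c (I.pos (nat_lit 0) (nat_lit 0)) (xa T1.l9 T1.l9)
  (TrL.c (I.pos (nat_lit 0) (nat_lit 0)) T1.l5
  (TrL.c (I.mix (nat_lit 41527258) (nat_lit 41530880)) T1.l6
  (TrL.c (I.mix (nat_lit 41527258) (nat_lit 4274)) T1.l7
  TrL.n)))))))) (by decide +kernel)
theorem bx0_4 : BoxOK sI cl6 cl13 cl13 t1 t1 b0_4 :=
  box_mk (TrL.c (I.pos (nat_lit 0) (nat_lit 0)) (xa (xb (xa T1.l0 T1.l0) (xa T1.l0 T1.l0)) (xb (xa T1.l0 (xb T1.l0 T1.l0)) (xa (xb T1.l0 T1.l0) (xb T1.l0 T1.l0))))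
  (TrL.c (I.pos (nat_lit 0) (nat_lit 0)) T1.l1
  (TrL.c (I.pos (nat_lit 0) (nat_lit 89480386)) (xR T1.l2 T1.l2)
  (TrL.c (I.pos (nat_lit 0) (nat_lit 41530880)) T1.l3
  (TrL.c (I.pos (nat_lit 0) (nat_lit 0)) (xa (xb (xa T1.l0 (xb T1.l4 T1.l4)) T1.l4) (xb (xa (xb T1.l4 T1.l4) (xb T1.l4 T1.l4)) (xa T1.l4 (xb T1.l4 T1.l4))))
  (TrL.c (I.pos (nat_lit 0) (nat_lit 0)) T1.l5
  (TrL.c (I.mix (nat_lit 41527258) (nat_lit 41530880)) (xR T1.l2 T1.l2)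
  (TrL.c (I.mix (nat_lit 41527258) (nat_lit 4274)) T1.l7
  TrL.n)))))))) (by decide +kernel)
theorem bx0_5 : BoxOK sI cl6 cl13 cl13 t1 t1 b0_5 :=
  box_mk (TrL.c (I.pos (nat_lit 0) (nat_lit 0)) (xa (xb (xa T1.l8 T1.l8) (xa T1.l8 T1.l8)) (xb T1.l0 (xa T1.l8 T1.l0)))
  (TrL.c (I.pos (nat_lit 0) (nat_lit 0)) T1.l1
  (TrL.c (I.pos (nat_lit 0) (nat_lit 89480386)) T1.l2
  (TrL.c (I.pos (nat_lit 0) (nat_lit 41530880)) T1.l3
  (TrL.c (I.pos (nat_lit 0) (nat_lit 0)) (xa T1.l9 (xb T1.l9 T1.l9))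
  (TrL.c (I.pos (nat_lit 0) (nat_lit 0)) T1.l5
  (TrL.c (I.mix (nat_lit 41527258) (nat_lit 41530880)) T1.l6
  (TrL.c (I.mix (nat_lit 41527258) (nat_lit 4274)) T1.l7
  TrL.n)))))))) (by decide +kernel)
theorem bx0_6 : BoxOK sI cl6 cl13 cl13 t1 t1 b0_6 :=
  box_mk (TrL.c (I.pos (nat_lit 0) (nat_lit 0)) (xa (xa (xb (xa T1.l8 T1.l8) T1.l8) T1.l8) T1.l8)
  (TrL.c (I.pos (nat_lit 0) (nat_lit 0)) (xa T1.l1 T1.l1)
  (TrL.c (I.pos (nat_lit 0) (nat_lit 89480386)) T1.l2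
  (TrL.c (I.pos (nat_lit 0) (nat_lit 41530880)) T1.l3
  (TrL.c (I.pos (nat_lit 0) (nat_lit 0)) (xa T1.l9 T1.l9)
  (TrL.c (I.pos (nat_lit 0) (nat_lit 0)) T1.l5
  (TrL.c (I.mix (nat_lit 41527258) (nat_lit 41530880)) T1.l6
  (TrL.c (I.mix (nat_lit 41527258) (nat_lit 4274)) T1.l7
  TrL.n)))))))) (by decide +kernel)
theorem bx0_7 : BoxOK sI cl6 cl13 cl13 t1 t1 b0_7 :=
  box_mk (TrL.c (I.pos (nat_lit 0) (nat_lit 0)) (xb (xa (xb T1.l10 T1.l10) (xb T1.l10 T1.l10)) (xa (xb (xa T1.l10 T1.l10) (xa T1.l10 T1.l10)) (xb (xa T1.l10 T1.l10) (xa T1.l10 T1.l10))))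
  (TrL.c (I.pos (nat_lit 0) (nat_lit 0)) T1.l1
  (TrL.c (I.pos (nat_lit 0) (nat_lit 89480386)) (xR T1.l2 T1.l2)
  (TrL.c (I.pos (nat_lit 0) (nat_lit 41530880)) T1.l3
  (TrL.c (I.pos (nat_lit 0) (nat_lit 0)) (xb (xa T1.l11 (xb T1.l11 T1.l11)) (xa T1.l11 (xb T1.l11 T1.l11)))
  (TrL.c (I.pos (nat_lit 0) (nat_lit 0)) T1.l5
  (TrL.c (I.mix (nat_lit 41527258) (nat_lit 41530880)) T1.l6
  (TrL.c (I.mix (nat_lit 41527258) (nat_lit 4274)) T1.l7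
  TrL.n)))))))) (by decide +kernel)
theorem bx0_8 : BoxOK sI cl6 cl13 cl13 t1 t1 b0_8 :=
  box_mk (TrL.c (I.pos (nat_lit 0) (nat_lit 0)) (xa (xa (xb (xa T1.l8 T1.l8) (xa T1.l8 T1.l8)) (xb T1.l8 T1.l8)) (xa (xb T1.l8 T1.l8) (xb T1.l8 (xa T1.l8 T1.l8))))
  (TrL.c (I.pos (nat_lit 0) (nat_lit 0)) (xa T1.l1 T1.l1)
  (TrL.c (I.pos (nat_lit 0) (nat_lit 89480386)) T1.l2
  (TrL.c (I.pos (nat_lit 0) (nat_lit 41530880)) T1.l3
  (TrL.c (I.pos (nat_lit 0) (nat_lit 0)) (xa (xa T1.l9 T1.l9) T1.l9)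
  (TrL.c (I.pos (nat_lit 0) (nat_lit 0)) T1.l5
  (TrL.c (I.mix (nat_lit 41527258) (nat_lit 41530880)) T1.l6
  (TrL.c (I.mix (nat_lit 41527258) (nat_lit 4274)) T1.l7
  TrL.n)))))))) (by decide +kernel)
theorem bx0_9 : BoxOK sI cl6 cl13 cl13 t1 t1 b0_9 :=
  box_mk (TrL.c (I.pos (nat_lit 0) (nat_lit 0)) (xa (xb T1.l0 T1.l0) T1.l0)
  (TrL.c (I.pos (nat_lit 0) (nat_lit 0)) T1.l1
  (TrL.c (I.pos (nat_lit 0) (nat_lit 89480386)) (xR T1.l2 T1.l2)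
  (TrL.c (I.pos (nat_lit 0) (nat_lit 41530880)) T1.l3
  (TrL.c (I.pos (nat_lit 0) (nat_lit 0)) (xa (xb T1.l11 T1.l11) T1.l0)
  (TrL.c (I.pos (nat_lit 0) (nat_lit 0)) T1.l5
  (TrL.c (I.mix (nat_lit 41527258) (nat_lit 41530880)) T1.l6
  (TrL.c (I.mix (nat_lit 41527258) (nat_lit 4274)) T1.l7
  TrL.n)))))))) (by decide +kernel)
theorem bx0_10 : BoxOK sI cl6 cl13 cl13 t1 t1 b0_10 :=
  box_mk (TrL.c (I.pos (nat_lit 0) (nat_lit 0)) (xa T1.l10 (xb T1.l10 T1.l10))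
  (TrL.c (I.pos (nat_lit 0) (nat_lit 0)) T1.l1
  (TrL.c (I.pos (nat_lit 0) (nat_lit 89480386)) T1.l2
  (TrL.c (I.pos (nat_lit 0) (nat_lit 41530880)) T1.l3
  (TrL.c (I.pos (nat_lit 0) (nat_lit 0)) (xb T1.l11 T1.l11)
  (TrL.c (I.pos (nat_lit 0) (nat_lit 0)) T1.l5
  (TrL.c (I.mix (nat_lit 41527258) (nat_lit 41530880)) T1.l6
  (TrL.c (I.mix (nat_lit 41527258) (nat_lit 4274)) T1.l7
  TrL.n)))))))) (by decide +kernel)
theorem bx0_11 : BoxOK sI cl6 cl13 cl13 t1 t1 b0_11 :=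
  box_mk (TrL.c (I.pos (nat_lit 0) (nat_lit 0)) (xa (xb T1.l0 T1.l0) (xb T1.l0 T1.l0))
  (TrL.c (I.pos (nat_lit 0) (nat_lit 0)) T1.l1
  (TrL.c (I.pos (nat_lit 0) (nat_lit 89480386)) (xR T1.l2 T1.l2)
  (TrL.c (I.pos (nat_lit 0) (nat_lit 41530880)) T1.l3
  (TrL.c (I.pos (nat_lit 0) (nat_lit 0)) (xa T1.l4 T1.l4)
  (TrL.c (I.pos (nat_lit 0) (nat_lit 0)) T1.l5
  (TrL.c (I.mix (nat_lit 41527258) (nat_lit 41530880)) T1.l6
  (TrL.c (I.mix (nat_lit 41527258) (nat_lit 4274)) T1.l7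
  TrL.n)))))))) (by decide +kernel)
theorem sv0 : StarV sI cl6 cl13 cl13 t1 t1 t0 :=
  (bt_n (bt_n (bt_n (bt_b bx0_0) (bt_n (bt_b bx0_1) (bt_b bx0_2))) (bt_n (bt_b bx0_3) (bt_n (bt_b bx0_4) (bt_b bx0_5)))) (bt_n (bt_n (bt_b bx0_6) (bt_n (bt_b bx0_7) (bt_b bx0_8))) (bt_n (bt_b bx0_9) (bt_n (bt_b bx0_10) (bt_b bx0_11)))))
def S0 : StarD := StarD.mk cl6 cl13 cl13 1 1 t0
theorem bx1_0 : BoxOK sI cl13 cl6 cl13 t0 t2 b1_0 :=
  box_mk (TrL.c (I.pos (nat_lit 0) (nat_lit 0)) (xa (xb (xa T0.l0 T0.l0) (xa (xb T0.l0 T0.l0) (xb T0.l0 T0.l0))) (xb (xa T0.l0 T0.l0) (xa (xb T0.l0 T0.l0) (xb T0.l0 T0.l0))))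
  (TrL.c (I.pos (nat_lit 0) (nat_lit 0)) (xa T2.l1 T2.l1)
  (TrL.c (I.pos (nat_lit 0) (nat_lit 134217730)) (xR T0.l1 T0.l8)
  (TrL.c (I.pos (nat_lit 0) (nat_lit 110514882)) (xR T2.l2 T2.l2)
  (TrL.c (I.pos (nat_lit 0) (nat_lit 0)) (xa (xk (xb (xa T2.l3 T2.l3) T2.l3) (xb (xa T2.l3 T2.l3) T2.l3)) (xk T2.l3 (xb T2.l3 (xa T2.l3 T2.l3))))
  (TrL.c (I.pos (nat_lit 0) (nat_lit 0)) T0.l2
  (TrL.c (I.mix (nat_lit 8088324) (nat_lit 110514882)) (xR T2.l4 T2.l4)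
  (TrL.c (I.mix (nat_lit 8088324) (nat_lit 89478486)) T0.l6
  TrL.n)))))))) (by decide +kernel)
theorem bx1_1 : BoxOK sI cl13 cl6 cl13 t0 t2 b1_1 :=
  box_mk (TrL.c (I.pos (nat_lit 0) (nat_lit 0)) (xa (xb T0.l4 T0.l4) (xb T0.l0 T0.l4))
  (TrL.c (I.pos (nat_lit 0) (nat_lit 0)) T2.l1
  (TrL.c (I.pos (nat_lit 0) (nat_lit 134217730)) (xR T0.l1 T0.l1)
  (TrL.c (I.pos (nat_lit 0) (nat_lit 110514882)) (xR T2.l2 T2.l2)
  (TrL.c (I.pos (nat_lit 0) (nat_lit 0)) (xa (xb T2.l5 T2.l5) (xk (xb T2.l5 T2.l5) (xb T2.l5 T2.l5)))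
  (TrL.c (I.pos (nat_lit 0) (nat_lit 0)) T0.l2
  (TrL.c (I.mix (nat_lit 8088324) (nat_lit 110514882)) T2.l4
  (TrL.c (I.mix (nat_lit 8088324) (nat_lit 89478486)) T0.l6
  TrL.n)))))))) (by decide +kernel)
theorem bx1_2 : BoxOK sI cl13 cl6 cl13 t0 t2 b1_2 :=
  box_mk (TrL.c (I.pos (nat_lit 0) (nat_lit 0)) (xa (xa (xb T0.l4 (xa T0.l4 T0.l4)) (xb T0.l4 T0.l4)) (xa T0.l4 (xb T0.l4 (xa T0.l4 T0.l4))))
  (TrL.c (I.pos (nat_lit 0) (nat_lit 0)) (xa T2.l1 T2.l1)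
  (TrL.c (I.pos (nat_lit 0) (nat_lit 134217730)) T0.l1
  (TrL.c (I.pos (nat_lit 0) (nat_lit 110514882)) T2.l2
  (TrL.c (I.pos (nat_lit 0) (nat_lit 0)) (xa T2.l5 T2.l5)
  (TrL.c (I.pos (nat_lit 0) (nat_lit 0)) T0.l2
  (TrL.c (I.mix (nat_lit 8088324) (nat_lit 110514882)) (xR T2.l4 T2.l4)
  (TrL.c (I.mix (nat_lit 8088324) (nat_lit 89478486)) T0.l1
  TrL.n)))))))) (by decide +kernel)
theorem bx1_3 : BoxOK sI cl13 cl6 cl13 t0 t2 b1_3 :=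
  box_mk (TrL.c (I.pos (nat_lit 0) (nat_lit 0)) (xa (xb (xa (xb T0.l4 T0.l4) T0.l4) T0.l4) T0.l4)
  (TrL.c (I.pos (nat_lit 0) (nat_lit 0)) T2.l1
  (TrL.c (I.pos (nat_lit 0) (nat_lit 134217730)) T0.l1
  (TrL.c (I.pos (nat_lit 0) (nat_lit 110514882)) T2.l4
  (TrL.c (I.pos (nat_lit 0) (nat_lit 0)) T2.l1
  (TrL.c (I.pos (nat_lit 0) (nat_lit 0)) T0.l2
  (TrL.c (I.mix (nat_lit 8088324) (nat_lit 110514882)) T2.l4
  (TrL.c (I.mix (nat_lit 8088324) (nat_lit 89478486)) T0.l1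
  TrL.n)))))))) (by decide +kernel)
theorem bx1_4 : BoxOK sI cl13 cl6 cl13 t0 t2 b1_4 :=
  box_mk (TrL.c (I.pos (nat_lit 0) (nat_lit 0)) (xb (xa T0.l11 (xb T0.l11 T0.l11)) (xa (xb T0.l11 (xa T0.l11 T0.l11)) (xa (xb T0.l11 T0.l11) (xb T0.l11 T0.l11))))
  (TrL.c (I.pos (nat_lit 0) (nat_lit 0)) T2.l1
  (TrL.c (I.pos (nat_lit 0) (nat_lit 134217730)) (xR T0.l1 T0.l8)
  (TrL.c (I.pos (nat_lit 0) (nat_lit 110514882)) (xR T2.l2 T2.l2)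
  (TrL.c (I.pos (nat_lit 0) (nat_lit 0)) (xk T2.l3 (xb T2.l3 (xa T2.l3 T2.l3)))
  (TrL.c (I.pos (nat_lit 0) (nat_lit 0)) T0.l2
  (TrL.c (I.mix (nat_lit 8088324) (nat_lit 110514882)) (xR T2.l4 T2.l4)
  (TrL.c (I.mix (nat_lit 8088324) (nat_lit 89478486)) T0.l6
  TrL.n)))))))) (by decide +kernel)
theorem bx1_5 : BoxOK sI cl13 cl6 cl13 t0 t2 b1_5 :=
  box_mk (TrL.c (I.pos (nat_lit 0) (nat_lit 0)) (xb T0.l4 (xa T0.l4 T0.l4))
  (TrL.c (I.pos (nat_lit 0) (nat_lit 0)) T2.l1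
  (TrL.c (I.pos (nat_lit 0) (nat_lit 134217730)) (xR T0.l1 T0.l1)
  (TrL.c (I.pos (nat_lit 0) (nat_lit 110514882)) (xR T2.l2 T2.l2)
  (TrL.c (I.pos (nat_lit 0) (nat_lit 0)) (xb (xk T2.l5 T2.l5) (xk T2.l5 T2.l5))
  (TrL.c (I.pos (nat_lit 0) (nat_lit 0)) T0.l2
  (TrL.c (I.mix (nat_lit 8088324) (nat_lit 110514882)) T2.l4
  (TrL.c (I.mix (nat_lit 8088324) (nat_lit 89478486)) T0.l3
  TrL.n)))))))) (by decide +kernel)
theorem bx1_6 : BoxOK sI cl13 cl6 cl13 t0 t2 b1_6 :=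
  box_mk (TrL.c (I.pos (nat_lit 0) (nat_lit 0)) (xa (xb (xa T0.l4 T0.l4) (xa (xa T0.l4 T0.l4) (xa T0.l4 T0.l4))) (xa (xb T0.l4 T0.l4) T0.l4))
  (TrL.c (I.pos (nat_lit 0) (nat_lit 0)) (xa T2.l1 T2.l1)
  (TrL.c (I.pos (nat_lit 0) (nat_lit 134217730)) T0.l1
  (TrL.c (I.pos (nat_lit 0) (nat_lit 110514882)) (xR T2.l2 T2.l2)
  (TrL.c (I.pos (nat_lit 0) (nat_lit 0)) (xa T2.l1 T2.l5)
  (TrL.c (I.pos (nat_lit 0) (nat_lit 0)) T0.l2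
  (TrL.c (I.mix (nat_lit 8088324) (nat_lit 110514882)) (xR T2.l4 T2.l4)
  (TrL.c (I.mix (nat_lit 8088324) (nat_lit 89478486)) T0.l1
  TrL.n)))))))) (by decide +kernel)
theorem bx1_7 : BoxOK sI cl13 cl6 cl13 t0 t2 b1_7 :=
  box_mk (TrL.c (I.pos (nat_lit 0) (nat_lit 0)) (xa (xb (xa (xb T0.l4 T0.l4) T0.l4) T0.l4) T0.l4)
  (TrL.c (I.pos (nat_lit 0) (nat_lit 0)) T2.l5
  (TrL.c (I.pos (nat_lit 0) (nat_lit 134217730)) T0.l1
  (TrL.c (I.pos (nat_lit 0) (nat_lit 110514882)) T2.l4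
  (TrL.c (I.pos (nat_lit 0) (nat_lit 0)) T2.l1
  (TrL.c (I.pos (nat_lit 0) (nat_lit 0)) T0.l1
  (TrL.c (I.mix (nat_lit 8088324) (nat_lit 110514882)) T2.l4
  (TrL.c (I.mix (nat_lit 8088324) (nat_lit 89478486)) T0.l1
  TrL.n)))))))) (by decide +kernel)
theorem bx1_8 : BoxOK sI cl13 cl6 cl13 t0 t2 b1_8 :=
  box_mk (TrL.c (I.pos (nat_lit 0) (nat_lit 0)) (xa (xb (xa T0.l0 T0.l0) (xa (xb T0.l0 T0.l0) (xb T0.l0 T0.l0))) (xb (xa T0.l0 T0.l0) (xa (xb T0.l0 T0.l0) (xb T0.l0 T0.l0))))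
  (TrL.c (I.pos (nat_lit 0) (nat_lit 0)) (xa T2.l1 T2.l1)
  (TrL.c (I.pos (nat_lit 0) (nat_lit 134217730)) (xR T0.l1 T0.l8)
  (TrL.c (I.pos (nat_lit 0) (nat_lit 110514882)) (xR T2.l2 T2.l2)
  (TrL.c (I.pos (nat_lit 0) (nat_lit 0)) (xa (xk (xb T2.l3 T2.l3) (xb (xa T2.l3 T2.l3) (xa T2.l3 T2.l3))) (xb (xk (xa T2.l3 T2.l3) (xa T2.l3 T2.l3)) (xk (xa T2.l3 T2.l3) (xa T2.l3 T2.l3))))
  (TrL.c (I.pos (nat_lit 0) (nat_lit 0)) (xk (xa T0.l2 T0.l2) (xa T0.l2 T0.l2))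
  (TrL.c (I.mix (nat_lit 8088324) (nat_lit 110514882)) (xR T2.l4 (xR T2.l4 T2.l4))
  (TrL.c (I.mix (nat_lit 8088324) (nat_lit 89478486)) T0.l6
  TrL.n)))))))) (by decide +kernel)
theorem bx1_9 : BoxOK sI cl13 cl6 cl13 t0 t2 b1_9 :=
  box_mk (TrL.c (I.pos (nat_lit 0) (nat_lit 0)) (xa (xb T0.l0 (xa T0.l0 T0.l11)) T0.l0)
  (TrL.c (I.pos (nat_lit 0) (nat_lit 0)) T2.l1
  (TrL.c (I.pos (nat_lit 0) (nat_lit 134217730)) (xR T0.l1 T0.l1)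
  (TrL.c (I.pos (nat_lit 0) (nat_lit 110514882)) (xR T2.l2 T2.l2)
  (TrL.c (I.pos (nat_lit 0) (nat_lit 0)) (xk (xb (xa T2.l11 (xk T2.l3 T2.l3)) (xa T2.l11 T2.l11)) (xb (xa T2.l11 (xk T2.l3 T2.l3)) (xa T2.l11 T2.l11)))
  (TrL.c (I.pos (nat_lit 0) (nat_lit 0)) T0.l2
  (TrL.c (I.mix (nat_lit 8088324) (nat_lit 110514882)) T2.l4
  (TrL.c (I.mix (nat_lit 8088324) (nat_lit 89478486)) T0.l3
  TrL.n)))))))) (by decide +kernel)
theorem bx1_10 : BoxOK sI cl13 cl6 cl13 t0 t2 b1_10 :=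
  box_mk (TrL.c (I.pos (nat_lit 0) (nat_lit 0)) (xa (xb (xa T0.l0 T0.l0) (xa (xb T0.l0 T0.l0) T0.l0)) (xb (xa T0.l0 T0.l0) (xa T0.l0 T0.l0)))
  (TrL.c (I.pos (nat_lit 0) (nat_lit 0)) T2.l1
  (TrL.c (I.pos (nat_lit 0) (nat_lit 134217730)) (xR T0.l1 T0.l8)
  (TrL.c (I.pos (nat_lit 0) (nat_lit 110514882)) (xR T2.l2 T2.l2)
  (TrL.c (I.pos (nat_lit 0) (nat_lit 0)) (xk (xb T2.l3 (xa (xb T2.l3 T2.l0) (xb (xs T2.l3 T2.l3) (xs T2.l3 (xk T2.l0 T2.l0))))) (xa (xb T2.l3 (xb T2.l3 (xs T2.l0 T2.l3))) (xb T2.l3 (xb (xs T2.l0 T2.l0) (xs (xk T2.l0 T2.l0) (xk (xa T2.l11 T2.l0) (xa T2.l11 T2.l0)))))))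
  (TrL.c (I.pos (nat_lit 0) (nat_lit 0)) T0.l2
  (TrL.c (I.mix (nat_lit 8088324) (nat_lit 110514882)) (xR T2.l4 T2.l4)
  (TrL.c (I.mix (nat_lit 8088324) (nat_lit 89478486)) T0.l6
  TrL.n)))))))) (by decide +kernel)
theorem bx1_11 : BoxOK sI cl13 cl6 cl13 t0 t2 b1_11 :=
  box_mk (TrL.c (I.pos (nat_lit 0) (nat_lit 0)) (xb (xa T0.l11 T0.l11) (xa T0.l11 T0.l11))
  (TrL.c (I.pos (nat_lit 0) (nat_lit 0)) T2.l1
  (TrL.c (I.pos (nat_lit 0) (nat_lit 134217730)) (xR T0.l1 T0.l8)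
  (TrL.c (I.pos (nat_lit 0) (nat_lit 110514882)) (xR T2.l2 T2.l2)
  (TrL.c (I.pos (nat_lit 0) (nat_lit 0)) (xk T2.l3 T2.l3)
  (TrL.c (I.pos (nat_lit 0) (nat_lit 0)) T0.l2
  (TrL.c (I.mix (nat_lit 8088324) (nat_lit 110514882)) (xR T2.l4 T2.l4)
  (TrL.c (I.mix (nat_lit 8088324) (nat_lit 89478486)) T0.l6
  TrL.n)))))))) (by decide +kernel)
theorem sv1 : StarV sI cl13 cl6 cl13 t0 t2 t1 :=
  (bt_n (bt_n (bt_n (bt_b bx1_0) (bt_n (bt_b bx1_1) (bt_b bx1_2))) (bt_n (bt_b bx1_3) (bt_n (bt_b bx1_4) (bt_b bx1_5)))) (bt_n (bt_n (bt_b bx1_6) (bt_n (bt_b bx1_7) (bt_b bx1_8))) (bt_n (bt_b bx1_9) (bt_n (bt_b bx1_10) (bt_b bx1_11)))))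
def S1 : StarD := StarD.mk cl13 cl6 cl13 0 2 t1
theorem bx2_0 : BoxOK sI cl13 cl13 cl6 t2 t0 b2_0 :=
  box_mk (TrL.c (I.pos (nat_lit 0) (nat_lit 0)) (xa (xb (xa T2.l0 (xb T2.l0 T2.l0)) (xa (xb T2.l0 T2.l0) (xb T2.l0 T2.l0))) (xa (xb (xb T2.l0 T2.l0) (xb T2.l0 T2.l0)) (xb (xb T2.l0 T2.l0) (xb (xs T2.l0 T2.l0) (xs T2.l0 T2.l0)))))
  (TrL.c (I.pos (nat_lit 0) (nat_lit 0)) (xa (xk T0.l5 T0.l5) (xk T0.l5 T0.l5))
  (TrL.c (I.pos (nat_lit 0) (nat_lit 134217730)) (xR T2.l6 T2.l6)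
  (TrL.c (I.pos (nat_lit 0) (nat_lit 110514882)) (xR T0.l6 T0.l6)
  (TrL.c (I.pos (nat_lit 0) (nat_lit 0)) (xa (xk (xb T0.l7 T0.l7) (xb (xa T0.l7 T0.l7) (xa T0.l7 T0.l7))) (xk (xb T0.l7 (xa (xb T0.l7 T0.l7) (xb T0.l7 (xs T0.l7 (xk (xa T0.l7 T0.l7) (xa T0.l7 T0.l7)))))) (xb T0.l7 (xa (xb T0.l7 (xs T0.l7 (xk T0.l10 T0.l10))) (xb (xk T0.l7 T0.l7) (xs (xk T0.l7 (xa T0.l7 T0.l7)) (xk (xa T0.l7 (xb T0.l7 T0.l7)) (xa T0.l7 (xb T0.l7 (xd T0.l7 T0.l7))))))))))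
  (TrL.c (I.pos (nat_lit 0) (nat_lit 0)) T2.l7
  (TrL.c (I.mix (nat_lit 8088324) (nat_lit 110514882)) (xR T0.l8 T0.l8)
  (TrL.c (I.mix (nat_lit 8088324) (nat_lit 89478486)) (xR T2.l9 T2.l9)
  TrL.n)))))))) (by decide +kernel)
theorem bx2_1 : BoxOK sI cl13 cl13 cl6 t2 t0 b2_1 :=
  box_mk (TrL.c (I.pos (nat_lit 0) (nat_lit 0)) (xa (xb (xa T2.l8 T2.l8) (xa T2.l8 T2.l8)) (xb T2.l0 T2.l0))
  (TrL.c (I.pos (nat_lit 0) (nat_lit 0)) (xa T0.l5 T0.l5)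
  (TrL.c (I.pos (nat_lit 0) (nat_lit 134217730)) (xR T2.l6 T2.l6)
  (TrL.c (I.pos (nat_lit 0) (nat_lit 110514882)) (xR T0.l6 T0.l6)
  (TrL.c (I.pos (nat_lit 0) (nat_lit 0)) (xa (xk (xb T0.l9 T0.l9) (xb T0.l9 T0.l9)) (xk (xb (xa T0.l9 T0.l9) (xa T0.l9 T0.l7)) (xb (xa T0.l9 T0.l9) T0.l9)))
  (TrL.c (I.pos (nat_lit 0) (nat_lit 0)) T2.l7
  (TrL.c (I.mix (nat_lit 8088324) (nat_lit 110514882)) (xR T0.l8 T0.l8)
  (TrL.c (I.mix (nat_lit 8088324) (nat_lit 89478486)) T2.l9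
  TrL.n)))))))) (by decide +kernel)
theorem bx2_2 : BoxOK sI cl13 cl13 cl6 t2 t0 b2_2 :=
  box_mk (TrL.c (I.pos (nat_lit 0) (nat_lit 0)) (xa (xa (xb (xa T2.l8 T2.l8) T2.l8) T2.l8) T2.l8)
  (TrL.c (I.pos (nat_lit 0) (nat_lit 0)) (xa T0.l5 T0.l5)
  (TrL.c (I.pos (nat_lit 0) (nat_lit 134217730)) T2.l6
  (TrL.c (I.pos (nat_lit 0) (nat_lit 110514882)) T0.l6
  (TrL.c (I.pos (nat_lit 0) (nat_lit 0)) (xa (xa T0.l9 T0.l9) T0.l9)
  (TrL.c (I.pos (nat_lit 0) (nat_lit 0)) T2.l7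
  (TrL.c (I.mix (nat_lit 8088324) (nat_lit 110514882)) T0.l8
  (TrL.c (I.mix (nat_lit 8088324) (nat_lit 89478486)) T2.l2
  TrL.n)))))))) (by decide +kernel)
theorem bx2_3 : BoxOK sI cl13 cl13 cl6 t2 t0 b2_3 :=
  box_mk (TrL.c (I.pos (nat_lit 0) (nat_lit 0)) (xb (xa (xb T2.l10 T2.l10) (xb (xa T2.l10 T2.l10) T2.l10)) (xa (xb (xa T2.l10 T2.l10) (xa T2.l10 T2.l10)) (xb (xa T2.l10 T2.l10) (xa T2.l10 T2.l10))))
  (TrL.c (I.pos (nat_lit 0) (nat_lit 0)) (xk T0.l5 T0.l5)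
  (TrL.c (I.pos (nat_lit 0) (nat_lit 134217730)) (xR T2.l6 T2.l6)
  (TrL.c (I.pos (nat_lit 0) (nat_lit 110514882)) (xR T0.l6 T0.l6)
  (TrL.c (I.pos (nat_lit 0) (nat_lit 0)) (xk (xb (xa T0.l10 (xb T0.l10 T0.l10)) (xa T0.l7 (xk T0.l7 T0.l7))) (xb (xa T0.l10 (xb T0.l10 T0.l10)) (xa T0.l7 (xb T0.l7 (xs T0.l7 (xb T0.l10 T0.l10))))))
  (TrL.c (I.pos (nat_lit 0) (nat_lit 0)) T2.l7
  (TrL.c (I.mix (nat_lit 8088324) (nat_lit 110514882)) (xR T0.l8 T0.l8)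
  (TrL.c (I.mix (nat_lit 8088324) (nat_lit 89478486)) T2.l9
  TrL.n)))))))) (by decide +kernel)
theorem bx2_4 : BoxOK sI cl13 cl13 cl6 t2 t0 b2_4 :=
  box_mk (TrL.c (I.pos (nat_lit 0) (nat_lit 0)) (xa (xa (xb (xa T2.l8 T2.l8) (xa T2.l8 T2.l8)) (xb T2.l8 T2.l8)) (xa (xb T2.l8 (xa T2.l8 T2.l8)) (xb T2.l8 (xa T2.l8 T2.l8))))
  (TrL.c (I.pos (nat_lit 0) (nat_lit 0)) (xa (xa (xb T0.l5 T0.l5) T0.l5) (xa T0.l5 T0.l5))
  (TrL.c (I.pos (nat_lit 0) (nat_lit 134217730)) (xR T2.l6 T2.l6)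
  (TrL.c (I.pos (nat_lit 0) (nat_lit 110514882)) (xR T0.l6 T0.l6)
  (TrL.c (I.pos (nat_lit 0) (nat_lit 0)) (xa (xa T0.l9 T0.l9) (xa T0.l9 T0.l9))
  (TrL.c (I.pos (nat_lit 0) (nat_lit 0)) T2.l7
  (TrL.c (I.mix (nat_lit 8088324) (nat_lit 110514882)) (xR T0.l8 T0.l8)
  (TrL.c (I.mix (nat_lit 8088324) (nat_lit 89478486)) T2.l4
  TrL.n)))))))) (by decide +kernel)
theorem bx2_5 : BoxOK sI cl13 cl13 cl6 t2 t0 b2_5 :=
  box_mk (TrL.c (I.pos (nat_lit 0) (nat_lit 0)) (xa T2.l0 T2.l0)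
  (TrL.c (I.pos (nat_lit 0) (nat_lit 0)) T0.l5
  (TrL.c (I.pos (nat_lit 0) (nat_lit 134217730)) (xR T2.l6 T2.l6)
  (TrL.c (I.pos (nat_lit 0) (nat_lit 110514882)) (xR T0.l6 T0.l6)
  (TrL.c (I.pos (nat_lit 0) (nat_lit 0)) (xk (xa (xb T0.l9 T0.l10) T0.l7) (xa (xb T0.l9 T0.l10) T0.l7))
  (TrL.c (I.pos (nat_lit 0) (nat_lit 0)) T2.l7
  (TrL.c (I.mix (nat_lit 8088324) (nat_lit 110514882)) (xR T0.l8 T0.l8)
  (TrL.c (I.mix (nat_lit 8088324) (nat_lit 89478486)) T2.l9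
  TrL.n)))))))) (by decide +kernel)
theorem bx2_6 : BoxOK sI cl13 cl13 cl6 t2 t0 b2_6 :=
  box_mk (TrL.c (I.pos (nat_lit 0) (nat_lit 0)) (xa (xa (xa (xb T2.l8 T2.l8) T2.l8) T2.l8) (xa (xa T2.l8 T2.l8) (xa T2.l8 T2.l8)))
  (TrL.c (I.pos (nat_lit 0) (nat_lit 0)) (xa (xa T0.l5 T0.l5) T0.l5)
  (TrL.c (I.pos (nat_lit 0) (nat_lit 134217730)) (xR T2.l6 T2.l6)
  (TrL.c (I.pos (nat_lit 0) (nat_lit 110514882)) (xR T0.l6 T0.l6)
  (TrL.c (I.pos (nat_lit 0) (nat_lit 0)) (xa (xa T0.l9 T0.l9) T0.l9)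
  (TrL.c (I.pos (nat_lit 0) (nat_lit 0)) T2.l7
  (TrL.c (I.mix (nat_lit 8088324) (nat_lit 110514882)) (xR T0.l8 T0.l8)
  (TrL.c (I.mix (nat_lit 8088324) (nat_lit 89478486)) T2.l4
  TrL.n)))))))) (by decide +kernel)
theorem bx2_7 : BoxOK sI cl13 cl13 cl6 t2 t0 b2_7 :=
  box_mk (TrL.c (I.pos (nat_lit 0) (nat_lit 0)) (xb (xa (xb T2.l8 T2.l8) (xb T2.l8 T2.l8)) (xa (xb T2.l8 T2.l8) (xb T2.l8 T2.l8)))
  (TrL.c (I.pos (nat_lit 0) (nat_lit 0)) T0.l5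
  (TrL.c (I.pos (nat_lit 0) (nat_lit 134217730)) (xR T2.l6 T2.l6)
  (TrL.c (I.pos (nat_lit 0) (nat_lit 110514882)) (xR T0.l6 T0.l6)
  (TrL.c (I.pos (nat_lit 0) (nat_lit 0)) (xb (xk (xa T0.l9 T0.l9) (xa T0.l9 T0.l9)) (xk (xa T0.l9 T0.l9) T0.l9))
  (TrL.c (I.pos (nat_lit 0) (nat_lit 0)) T2.l7
  (TrL.c (I.mix (nat_lit 8088324) (nat_lit 110514882)) T0.l8
  (TrL.c (I.mix (nat_lit 8088324) (nat_lit 89478486)) T2.l9
  TrL.n)))))))) (by decide +kernel)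
theorem bx2_8 : BoxOK sI cl13 cl13 cl6 t2 t0 b2_8 :=
  box_mk (TrL.c (I.pos (nat_lit 0) (nat_lit 0)) (xa (xa (xb T2.l0 T2.l0) (xb T2.l0 T2.l0)) (xa (xb T2.l0 T2.l0) (xb T2.l0 T2.l0)))
  (TrL.c (I.pos (nat_lit 0) (nat_lit 0)) (xa T0.l5 T0.l5)
  (TrL.c (I.pos (nat_lit 0) (nat_lit 134217730)) (xR T2.l6 T2.l4)
  (TrL.c (I.pos (nat_lit 0) (nat_lit 110514882)) (xR T0.l6 T0.l6)
  (TrL.c (I.pos (nat_lit 0) (nat_lit 0)) (xa (xk (xb T0.l7 T0.l7) (xb T0.l7 T0.l7)) (xk (xb (xa T0.l7 T0.l7) (xa T0.l7 T0.l7)) (xb (xa T0.l7 T0.l7) (xa T0.l7 T0.l7))))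
  (TrL.c (I.pos (nat_lit 0) (nat_lit 0)) (xk (xa T2.l7 T2.l7) (xa T2.l7 T2.l7))
  (TrL.c (I.mix (nat_lit 8088324) (nat_lit 110514882)) (xR T0.l8 T0.l8)
  (TrL.c (I.mix (nat_lit 8088324) (nat_lit 89478486)) (xR T2.l9 T2.l9)
  TrL.n)))))))) (by decide +kernel)
theorem bx2_9 : BoxOK sI cl13 cl13 cl6 t2 t0 b2_9 :=
  box_mk (TrL.c (I.pos (nat_lit 0) (nat_lit 0)) (xa T2.l8 T2.l8)
  (TrL.c (I.pos (nat_lit 0) (nat_lit 0)) (xa T0.l5 T0.l5)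
  (TrL.c (I.pos (nat_lit 0) (nat_lit 134217730)) T2.l6
  (TrL.c (I.pos (nat_lit 0) (nat_lit 110514882)) T0.l6
  (TrL.c (I.pos (nat_lit 0) (nat_lit 0)) (xa (xa T0.l9 T0.l9) T0.l9)
  (TrL.c (I.pos (nat_lit 0) (nat_lit 0)) T2.l7
  (TrL.c (I.mix (nat_lit 8088324) (nat_lit 110514882)) T0.l8
  (TrL.c (I.mix (nat_lit 8088324) (nat_lit 89478486)) T2.l2
  TrL.n)))))))) (by decide +kernel)
theorem bx2_10 : BoxOK sI cl13 cl13 cl6 t2 t0 b2_10 :=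
  box_mk (TrL.c (I.pos (nat_lit 0) (nat_lit 0)) (xa (xb (xa T2.l0 T2.l0) (xa T2.l0 T2.l0)) (xb (xa T2.l0 (xb T2.l0 T2.l0)) (xa (xs T2.l0 T2.l0) (xs T2.l0 T2.l0))))
  (TrL.c (I.pos (nat_lit 0) (nat_lit 0)) (xk T0.l5 T0.l5)
  (TrL.c (I.pos (nat_lit 0) (nat_lit 134217730)) (xR T2.l6 T2.l6)
  (TrL.c (I.pos (nat_lit 0) (nat_lit 110514882)) (xR T0.l6 T0.l6)
  (TrL.c (I.pos (nat_lit 0) (nat_lit 0)) (xk (xa T0.l7 T0.l7) (xa T0.l7 (xb T0.l7 T0.l7)))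
  (TrL.c (I.pos (nat_lit 0) (nat_lit 0)) T2.l7
  (TrL.c (I.mix (nat_lit 8088324) (nat_lit 110514882)) (xR T0.l8 T0.l8)
  (TrL.c (I.mix (nat_lit 8088324) (nat_lit 89478486)) T2.l9
  TrL.n)))))))) (by decide +kernel)
theorem bx2_11 : BoxOK sI cl13 cl13 cl6 t2 t0 b2_11 :=
  box_mk (TrL.c (I.pos (nat_lit 0) (nat_lit 0)) T2.l0
  (TrL.c (I.pos (nat_lit 0) (nat_lit 0)) T0.l5
  (TrL.c (I.pos (nat_lit 0) (nat_lit 134217730)) (xR T2.l6 T2.l6)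
  (TrL.c (I.pos (nat_lit 0) (nat_lit 110514882)) (xR T0.l6 T0.l6)
  (TrL.c (I.pos (nat_lit 0) (nat_lit 0)) (xk T0.l10 T0.l10)
  (TrL.c (I.pos (nat_lit 0) (nat_lit 0)) T2.l7
  (TrL.c (I.mix (nat_lit 8088324) (nat_lit 110514882)) (xR T0.l8 T0.l8)
  (TrL.c (I.mix (nat_lit 8088324) (nat_lit 89478486)) T2.l9
  TrL.n)))))))) (by decide +kernel)
theorem sv2 : StarV sI cl13 cl13 cl6 t2 t0 t2 :=
  (bt_n (bt_n (bt_n (bt_b bx2_0) (bt_n (bt_b bx2_1) (bt_b bx2_2))) (bt_n (bt_b bx2_3) (bt_n (bt_b bx2_4) (bt_b bx2_5)))) (bt_n (bt_n (bt_b bx2_6) (bt_n (bt_b bx2_7) (bt_b bx2_8))) (bt_n (bt_b bx2_9) (bt_n (bt_b bx2_10) (bt_b bx2_11)))))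
def S2 : StarD := StarD.mk cl13 cl13 cl6 2 0 t2
def G : List StarD := [S0, S1, S2]
theorem so0 : StarOK sI G S0 :=
  star_mk (by decide) (by decide) rfl rfl rfl rfl rfl rfl (rfl : _ = t1) (rfl : _ = t1)
  (st_mk (Pth.l (Pth.l (Pth.l Pth.z))) (nat_lit 96969104) (nat_lit 115625508) (by decide +kernel))
  (st_mk (Pth.l (Pth.l (Pth.l Pth.z))) (nat_lit 132854028) (nat_lit 151808389) (by decide +kernel))
  (st_mk (Pth.l (Pth.l (Pth.l Pth.z))) (nat_lit 174657129) (nat_lit 194016664) (by decide +kernel)) sv0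
theorem so1 : StarOK sI G S1 :=
  star_mk (by decide) (by decide) rfl rfl rfl rfl rfl rfl (rfl : _ = t0) (rfl : _ = t2)
  (st_mk (Pth.l (Pth.l (Pth.l Pth.z))) (nat_lit 185843017) (nat_lit 187241963) (by decide +kernel))
  (st_mk (Pth.l (Pth.l (Pth.l Pth.z))) (nat_lit 220739626) (nat_lit 222492568) (by decide +kernel))
  (st_mk (Pth.l (Pth.l (Pth.l Pth.z))) (nat_lit 261004945) (nat_lit 263243122) (by decide +kernel)) sv1
theorem so2 : StarOK sI G S2 :=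
  star_mk (by decide) (by decide) rfl rfl rfl rfl rfl rfl (rfl : _ = t2) (rfl : _ = t0)
  (st_mk (Pth.l (Pth.l (Pth.l Pth.z))) (nat_lit 95831458) (nat_lit 114260690) (by decide +kernel))
  (st_mk (Pth.l (Pth.l (Pth.l Pth.z))) (nat_lit 130728068) (nat_lit 149442596) (by decide +kernel))
  (st_mk (Pth.l (Pth.l (Pth.l Pth.z))) (nat_lit 170993386) (nat_lit 190133406) (by decide +kernel)) sv2
theorem ok : GroupOK (nat_lit 209321984) (nat_lit 268435456) G := grp_mk (allS_c so0 (allS_c so1 (allS_c so2 allS_n)))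
theorem cov : GCov G cl6 cl13 cl13 := cov_mk
  ⟨0, by decide, rfl, rfl, rfl⟩ ⟨0, by decide, rfl, rfl, rfl⟩ ⟨1, by decide, rfl, rfl, rfl⟩ ⟨2, by decide, rfl, rfl, rfl⟩ ⟨1, by decide, rfl, rfl, rfl⟩ ⟨2, by decide, rfl, rfl, rfl⟩
end Q366_3

namespace Q444_0
def sI : I := I.pos (nat_lit 0) (nat_lit 91291648)
def b0_0 : Bx := Bx.mk (St.mk (I.pos (nat_lit 153354240) (nat_lit 287621120)) (I.mix (nat_lit 28311552) (nat_lit 60424192)) (I.mix (nat_lit 77676544) (nat_lit 105873408)) (I.pos (nat_lit 129662976) (nat_lit 371818496)) (I.mix (nat_lit 87375872) (nat_lit 60669952)) (I.mix (nat_lit 86114304) (nat_lit 56786944)) (I.mix (nat_lit 135839744) (nat_lit 80396288)))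
  false (nat_lit 0)
def b0_1 : Bx := Bx.mk (St.mk (I.pos (nat_lit 99303424) (nat_lit 177815552)) (I.mix (nat_lit 70303744) (nat_lit 1409024)) (I.mix (nat_lit 68108288) (nat_lit 8290304)) (I.pos (nat_lit 95404032) (nat_lit 180977664)) (I.mix (nat_lit 77856768) (nat_lit 44335104)) (I.mix (nat_lit 42188800) (nat_lit 71368704)) (I.mix (nat_lit 33210368) (nat_lit 67993600)))
  false (nat_lit 0)
def b0_2 : Bx := Bx.mk (St.mk (I.mix (nat_lit 31195136) (nat_lit 124862464)) (I.mix (nat_lit 9994240) (nat_lit 37486592)) (I.mix (nat_lit 15548416) (nat_lit 26017792)) (I.pos (nat_lit 36405248) (nat_lit 118358016)) (I.mix (nat_lit 34635776) (nat_lit 30588928)) (I.mix (nat_lit 38535168) (nat_lit 22413312)) (I.mix (nat_lit 27492352) (nat_lit 15925248)))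
  false (nat_lit 0)
def b0_3 : Bx := Bx.mk (St.mk (I.mix (nat_lit 27131904) (nat_lit 88047616)) (I.mix (nat_lit 34799616) (nat_lit 8355840)) (I.mix (nat_lit 21037056) (nat_lit 7307264)) (I.pos (nat_lit 37027840) (nat_lit 91717632)) (I.mix (nat_lit 27164672) (nat_lit 23035904)) (I.mix (nat_lit 16990208) (nat_lit 30375936)) (I.mix (nat_lit 9814016) (nat_lit 16171008)))
  false (nat_lit 0)
def b0_4 : Bx := Bx.mk (St.mk (I.pos (nat_lit 145457152) (nat_lit 222199808)) (I.mix (nat_lit 47071232) (nat_lit 73039872)) (I.mix (nat_lit 47579136) (nat_lit 113164288)) (I.pos (nat_lit 127188992) (nat_lit 241532928)) (I.mix (nat_lit 126402560) (nat_lit 51412992)) (I.mix (nat_lit 143917056) (nat_lit 72400896)) (I.mix (nat_lit 163840000) (nat_lit 76021760)))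
  false (nat_lit 0)
def b0_5 : Bx := Bx.mk (St.mk (I.pos (nat_lit 92209152) (nat_lit 149749760)) (I.mix (nat_lit 64471040) (nat_lit 11943936)) (I.mix (nat_lit 62062592) (nat_lit 6537216)) (I.pos (nat_lit 77479936) (nat_lit 144818176)) (I.mix (nat_lit 82329600) (nat_lit 29589504)) (I.mix (nat_lit 42876928) (nat_lit 82165760)) (I.mix (nat_lit 31326208) (nat_lit 62783488)))
  false (nat_lit 0)
def b0_6 : Bx := Bx.mk (St.mk (I.mix (nat_lit 41304064) (nat_lit 113393664)) (I.mix (nat_lit 15269888) (nat_lit 41222144)) (I.mix (nat_lit 10452992) (nat_lit 28753920)) (I.pos (nat_lit 38895616) (nat_lit 108003328)) (I.mix (nat_lit 43286528) (nat_lit 22773760)) (I.mix (nat_lit 47431680) (nat_lit 26705920)) (I.mix (nat_lit 26853376) (nat_lit 16220160)))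
  false (nat_lit 0)
def b0_7 : Bx := Bx.mk (St.mk (I.mix (nat_lit 39780352) (nat_lit 74498048)) (I.mix (nat_lit 31752192) (nat_lit 5865472)) (I.mix (nat_lit 17399808) (nat_lit 5292032)) (I.pos (nat_lit 40173568) (nat_lit 82739200)) (I.mix (nat_lit 29261824) (nat_lit 17809408)) (I.mix (nat_lit 16056320) (nat_lit 31539200)) (I.mix (nat_lit 8617984) (nat_lit 12271616)))
  false (nat_lit 0)
def t0 : BTr := (BTr.n (BTr.n (BTr.n (BTr.b b0_0) (BTr.b b0_1)) (BTr.n (BTr.b b0_2) (BTr.b b0_3))) (BTr.n (BTr.n (BTr.b b0_4) (BTr.b b0_5)) (BTr.n (BTr.b b0_6) (BTr.b b0_7))))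
namespace T0
def l0 : Tr := Tr.L (Pth.l (Pth.l (Pth.l Pth.z)))
def l1 : Tr := Tr.L (Pth.l (Pth.l (Pth.r Pth.z)))
def l2 : Tr := Tr.L (Pth.l (Pth.r (Pth.l Pth.z)))
def l3 : Tr := Tr.L (Pth.l (Pth.r (Pth.r Pth.z)))
def l4 : Tr := Tr.L (Pth.r (Pth.l (Pth.l Pth.z)))
def l5 : Tr := Tr.L (Pth.r (Pth.l (Pth.r Pth.z)))
def l6 : Tr := Tr.L (Pth.r (Pth.r (Pth.l Pth.z)))
def l7 : Tr := Tr.L (Pth.r (Pth.r (Pth.r Pth.z)))
end T0
theorem bx0_0 : BoxOK sI cl7 cl7 cl7 t0 t0 b0_0 :=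
  box_mk (TrL.c (I.pos (nat_lit 0) (nat_lit 0)) (xa (xa T0.l0 (xb T0.l0 T0.l0)) (xa (xb T0.l0 T0.l0) T0.l4))
  (TrL.c (I.pos (nat_lit 0) (nat_lit 0)) (xa T0.l1 T0.l1)
  (TrL.c (I.pos (nat_lit 0) (nat_lit 111196574)) (xR T0.l2 T0.l2)
  (TrL.c (I.pos (nat_lit 0) (nat_lit 77433728)) (xR T0.l3 T0.l3)
  (TrL.c (I.pos (nat_lit 0) (nat_lit 0)) (xa (xb T0.l4 T0.l4) (xb (xa (xk T0.l4 T0.l4) (xk (xb (xa T0.l4 T0.l4) T0.l4) (xb (xa T0.l4 T0.l4) T0.l4))) (xk (xa T0.l4 (xs (xa T0.l4 T0.l4) (xa T0.l4 T0.l4))) (xa T0.l4 (xs (xa T0.l4 T0.l4) (xa T0.l4 T0.l4))))))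
  (TrL.c (I.pos (nat_lit 0) (nat_lit 0)) T0.l5
  (TrL.c (I.mix (nat_lit 29511666) (nat_lit 77433728)) (xR T0.l6 T0.l6)
  (TrL.c (I.mix (nat_lit 29511666) (nat_lit 46070178)) (xR T0.l7 T0.l7)
  TrL.n)))))))) (by decide +kernel)
theorem bx0_1 : BoxOK sI cl7 cl7 cl7 t0 t0 b0_1 :=
  box_mk (TrL.c (I.pos (nat_lit 0) (nat_lit 0)) T0.l0
  (TrL.c (I.pos (nat_lit 0) (nat_lit 0)) T0.l1
  (TrL.c (I.pos (nat_lit 0) (nat_lit 111196574)) T0.l2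
  (TrL.c (I.pos (nat_lit 0) (nat_lit 77433728)) T0.l3
  (TrL.c (I.pos (nat_lit 0) (nat_lit 0)) T0.l4
  (TrL.c (I.pos (nat_lit 0) (nat_lit 0)) T0.l5
  (TrL.c (I.mix (nat_lit 29511666) (nat_lit 77433728)) T0.l6
  (TrL.c (I.mix (nat_lit 29511666) (nat_lit 46070178)) T0.l7
  TrL.n)))))))) (by decide +kernel)
theorem bx0_2 : BoxOK sI cl7 cl7 cl7 t0 t0 b0_2 :=
  box_mk (TrL.c (I.pos (nat_lit 0) (nat_lit 0)) (xa T0.l0 T0.l0)
  (TrL.c (I.pos (nat_lit 0) (nat_lit 0)) T0.l1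
  (TrL.c (I.pos (nat_lit 0) (nat_lit 111196574)) T0.l2
  (TrL.c (I.pos (nat_lit 0) (nat_lit 77433728)) T0.l3
  (TrL.c (I.pos (nat_lit 0) (nat_lit 0)) T0.l4
  (TrL.c (I.pos (nat_lit 0) (nat_lit 0)) T0.l5
  (TrL.c (I.mix (nat_lit 29511666) (nat_lit 77433728)) T0.l6
  (TrL.c (I.mix (nat_lit 29511666) (nat_lit 46070178)) T0.l7
  TrL.n)))))))) (by decide +kernel)
theorem bx0_3 : BoxOK sI cl7 cl7 cl7 t0 t0 b0_3 :=
  box_mk (TrL.c (I.pos (nat_lit 0) (nat_lit 0)) T0.l0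
  (TrL.c (I.pos (nat_lit 0) (nat_lit 0)) T0.l1
  (TrL.c (I.pos (nat_lit 0) (nat_lit 111196574)) T0.l2
  (TrL.c (I.pos (nat_lit 0) (nat_lit 77433728)) T0.l3
  (TrL.c (I.pos (nat_lit 0) (nat_lit 0)) T0.l4
  (TrL.c (I.pos (nat_lit 0) (nat_lit 0)) T0.l5
  (TrL.c (I.mix (nat_lit 29511666) (nat_lit 77433728)) T0.l6
  (TrL.c (I.mix (nat_lit 29511666) (nat_lit 46070178)) T0.l7
  TrL.n)))))))) (by decide +kernel)
theorem bx0_4 : BoxOK sI cl7 cl7 cl7 t0 t0 b0_4 :=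
  box_mk (TrL.c (I.pos (nat_lit 0) (nat_lit 0)) (xb (xa (xb T0.l0 T0.l0) (xb T0.l0 T0.l0)) (xa (xs T0.l0 (xb T0.l0 (xa T0.l0 T0.l0))) (xs T0.l0 (xa (xb T0.l0 T0.l0) T0.l0))))
  (TrL.c (I.pos (nat_lit 0) (nat_lit 0)) T0.l1
  (TrL.c (I.pos (nat_lit 0) (nat_lit 111196574)) (xR T0.l2 T0.l2)
  (TrL.c (I.pos (nat_lit 0) (nat_lit 77433728)) (xR T0.l3 T0.l3)
  (TrL.c (I.pos (nat_lit 0) (nat_lit 0)) (xb (xa (xk T0.l4 T0.l4) (xk (xb T0.l4 T0.l4) (xb T0.l4 T0.l4))) (xa T0.l4 (xk T0.l4 T0.l4)))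
  (TrL.c (I.pos (nat_lit 0) (nat_lit 0)) T0.l5
  (TrL.c (I.mix (nat_lit 29511666) (nat_lit 77433728)) (xR T0.l6 T0.l6)
  (TrL.c (I.mix (nat_lit 29511666) (nat_lit 46070178)) T0.l7
  TrL.n)))))))) (by decide +kernel)
theorem bx0_5 : BoxOK sI cl7 cl7 cl7 t0 t0 b0_5 :=
  box_mk (TrL.c (I.pos (nat_lit 0) (nat_lit 0)) T0.l0
  (TrL.c (I.pos (nat_lit 0) (nat_lit 0)) T0.l1
  (TrL.c (I.pos (nat_lit 0) (nat_lit 111196574)) T0.l2
  (TrL.c (I.pos (nat_lit 0) (nat_lit 77433728)) T0.l3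
  (TrL.c (I.pos (nat_lit 0) (nat_lit 0)) T0.l4
  (TrL.c (I.pos (nat_lit 0) (nat_lit 0)) T0.l5
  (TrL.c (I.mix (nat_lit 29511666) (nat_lit 77433728)) T0.l6
  (TrL.c (I.mix (nat_lit 29511666) (nat_lit 46070178)) T0.l7
  TrL.n)))))))) (by decide +kernel)
theorem bx0_6 : BoxOK sI cl7 cl7 cl7 t0 t0 b0_6 :=
  box_mk (TrL.c (I.pos (nat_lit 0) (nat_lit 0)) (xa T0.l0 T0.l0)
  (TrL.c (I.pos (nat_lit 0) (nat_lit 0)) T0.l1
  (TrL.c (I.pos (nat_lit 0) (nat_lit 111196574)) T0.l2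
  (TrL.c (I.pos (nat_lit 0) (nat_lit 77433728)) T0.l3
  (TrL.c (I.pos (nat_lit 0) (nat_lit 0)) (xa T0.l4 T0.l4)
  (TrL.c (I.pos (nat_lit 0) (nat_lit 0)) T0.l5
  (TrL.c (I.mix (nat_lit 29511666) (nat_lit 77433728)) T0.l6
  (TrL.c (I.mix (nat_lit 29511666) (nat_lit 46070178)) T0.l7
  TrL.n)))))))) (by decide +kernel)
theorem bx0_7 : BoxOK sI cl7 cl7 cl7 t0 t0 b0_7 :=
  box_mk (TrL.c (I.pos (nat_lit 0) (nat_lit 0)) (xa T0.l0 T0.l0)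
  (TrL.c (I.pos (nat_lit 0) (nat_lit 0)) T0.l1
  (TrL.c (I.pos (nat_lit 0) (nat_lit 111196574)) T0.l2
  (TrL.c (I.pos (nat_lit 0) (nat_lit 77433728)) T0.l3
  (TrL.c (I.pos (nat_lit 0) (nat_lit 0)) T0.l4
  (TrL.c (I.pos (nat_lit 0) (nat_lit 0)) T0.l5
  (TrL.c (I.mix (nat_lit 29511666) (nat_lit 77433728)) T0.l6
  (TrL.c (I.mix (nat_lit 29511666) (nat_lit 46070178)) T0.l7
  TrL.n)))))))) (by decide +kernel)
theorem sv0 : StarV sI cl7 cl7 cl7 t0 t0 t0 :=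
  (bt_n (bt_n (bt_n (bt_b bx0_0) (bt_b bx0_1)) (bt_n (bt_b bx0_2) (bt_b bx0_3))) (bt_n (bt_n (bt_b bx0_4) (bt_b bx0_5)) (bt_n (bt_b bx0_6) (bt_b bx0_7))))
def S0 : StarD := StarD.mk cl7 cl7 cl7 0 0 t0
def G : List StarD := [S0]
theorem so0 : StarOK sI G S0 :=
  star_mk (by decide) (by decide) rfl rfl rfl rfl rfl rfl (rfl : _ = t0) (rfl : _ = t0)
  (st_mk (Pth.l (Pth.l (Pth.l Pth.z))) (nat_lit 140752642) (nat_lit 163265844) (by decide +kernel))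
  (st_mk (Pth.l (Pth.l (Pth.l Pth.z))) (nat_lit 176068414) (nat_lit 198991600) (by decide +kernel))
  (st_mk (Pth.l (Pth.l (Pth.l Pth.z))) (nat_lit 216933443) (nat_lit 240426478) (by decide +kernel)) sv0
theorem ok : GroupOK (nat_lit 0) (nat_lit 91291648) G := grp_mk (allS_c so0 allS_n)
theorem cov : GCov G cl7 cl7 cl7 := cov_mk
  ⟨0, by decide, rfl, rfl, rfl⟩ ⟨0, by decide, rfl, rfl, rfl⟩ ⟨0, by decide, rfl, rfl, rfl⟩ ⟨0, by decide, rfl, rfl, rfl⟩ ⟨0, by decide, rfl, rfl, rfl⟩ ⟨0, by decide, rfl, rfl, rfl⟩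
end Q444_0

namespace Q444_1
def sI : I := I.pos (nat_lit 91226112) (nat_lit 150339584)
def b0_0 : Bx := Bx.mk (St.mk (I.pos (nat_lit 153354240) (nat_lit 287604736)) (I.mix (nat_lit 24559616) (nat_lit 56688640)) (I.mix (nat_lit 69582848) (nat_lit 95666176)) (I.pos (nat_lit 129810432) (nat_lit 374177792)) (I.mix (nat_lit 101023744) (nat_lit 84754432)) (I.mix (nat_lit 101580800) (nat_lit 74481664)) (I.mix (nat_lit 153272320) (nat_lit 106037248)))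
  false (nat_lit 26603182)
def b0_1 : Bx := Bx.mk (St.mk (I.pos (nat_lit 96813056) (nat_lit 176324608)) (I.neg (nat_lit 2867200) (nat_lit 62291968)) (I.mix (nat_lit 59752448) (nat_lit 4702208)) (I.pos (nat_lit 95633408) (nat_lit 179814400)) (I.mix (nat_lit 89915392) (nat_lit 58343424)) (I.mix (nat_lit 54149120) (nat_lit 83509248)) (I.mix (nat_lit 43139072) (nat_lit 78823424)))
  false (nat_lit 0)
def b0_2 : Bx := Bx.mk (St.mk (I.mix (nat_lit 26394624) (nat_lit 124698624)) (I.mix (nat_lit 8863744) (nat_lit 31064064)) (I.mix (nat_lit 14581760) (nat_lit 20955136)) (I.pos (nat_lit 39944192) (nat_lit 118128640)) (I.mix (nat_lit 39223296) (nat_lit 36175872)) (I.mix (nat_lit 41418752) (nat_lit 26607616)) (I.mix (nat_lit 29065216) (nat_lit 18644992)))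
  false (nat_lit 0)
def b0_3 : Bx := Bx.mk (St.mk (I.mix (nat_lit 24592384) (nat_lit 87883776)) (I.mix (nat_lit 32702464) (nat_lit 4161536)) (I.mix (nat_lit 19365888) (nat_lit 5619712)) (I.pos (nat_lit 41058304) (nat_lit 91422720)) (I.mix (nat_lit 35127296) (nat_lit 28262400)) (I.mix (nat_lit 21643264) (nat_lit 33521664)) (I.mix (nat_lit 11960320) (nat_lit 17694720)))
  false (nat_lit 0)
def b0_4 : Bx := Bx.mk (St.mk (I.pos (nat_lit 144719872) (nat_lit 216596480)) (I.mix (nat_lit 42254336) (nat_lit 65814528)) (I.mix (nat_lit 40648704) (nat_lit 103972864)) (I.pos (nat_lit 128040960) (nat_lit 238780416)) (I.mix (nat_lit 147423232) (nat_lit 75825152)) (I.mix (nat_lit 153272320) (nat_lit 91947008)) (I.mix (nat_lit 168525824) (nat_lit 93159424)))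
  false (nat_lit 0)
def b0_5 : Bx := Bx.mk (St.mk (I.pos (nat_lit 92585984) (nat_lit 148078592)) (I.mix (nat_lit 63668224) (nat_lit 10862592)) (I.mix (nat_lit 61046784) (nat_lit 5603328)) (I.pos (nat_lit 77905920) (nat_lit 142966784)) (I.mix (nat_lit 102858752) (nat_lit 43466752)) (I.mix (nat_lit 56393728) (nat_lit 96305152)) (I.mix (nat_lit 40353792) (nat_lit 69861376)))
  false (nat_lit 0)
def b0_6 : Bx := Bx.mk (St.mk (I.mix (nat_lit 41238528) (nat_lit 111083520)) (I.mix (nat_lit 14467072) (nat_lit 36454400)) (I.mix (nat_lit 9814016) (nat_lit 25968640)) (I.pos (nat_lit 40288256) (nat_lit 106741760)) (I.mix (nat_lit 50544640) (nat_lit 30801920)) (I.mix (nat_lit 51822592) (nat_lit 32440320)) (I.mix (nat_lit 28917760) (nat_lit 18956288)))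
  false (nat_lit 0)
def b0_7 : Bx := Bx.mk (St.mk (I.mix (nat_lit 34684928) (nat_lit 72433664)) (I.mix (nat_lit 30851072) (nat_lit 229376)) (I.mix (nat_lit 17219584) (nat_lit 4440064)) (I.pos (nat_lit 41484288) (nat_lit 82837504)) (I.mix (nat_lit 34324480) (nat_lit 21331968)) (I.mix (nat_lit 19578880) (nat_lit 34209792)) (I.mix (nat_lit 8388608) (nat_lit 13336576)))
  false (nat_lit 0)
def t0 : BTr := (BTr.n (BTr.n (BTr.n (BTr.b b0_0) (BTr.b b0_1)) (BTr.n (BTr.b b0_2) (BTr.b b0_3))) (BTr.n (BTr.n (BTr.b b0_4) (BTr.b b0_5)) (BTr.n (BTr.b b0_6) (BTr.b b0_7))))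
namespace T0
def l0 : Tr := Tr.L (Pth.l (Pth.l (Pth.l Pth.z)))
def l1 : Tr := Tr.L (Pth.l (Pth.l (Pth.r Pth.z)))
def l2 : Tr := Tr.L (Pth.l (Pth.r (Pth.l Pth.z)))
def l3 : Tr := Tr.L (Pth.l (Pth.r (Pth.r Pth.z)))
def l4 : Tr := Tr.L (Pth.r (Pth.l (Pth.l Pth.z)))
def l5 : Tr := Tr.L (Pth.r (Pth.l (Pth.r Pth.z)))
def l6 : Tr := Tr.L (Pth.r (Pth.r (Pth.l Pth.z)))
def l7 : Tr := Tr.L (Pth.r (Pth.r (Pth.r Pth.z)))
end T0
theorem bx0_0 : BoxOK sI cl7 cl7 cl7 t0 t0 b0_0 :=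
  box_mk (TrL.c (I.pos (nat_lit 0) (nat_lit 0)) (xa (xa (xb T0.l0 (xa T0.l0 T0.l0)) (xb T0.l0 (xa T0.l0 T0.l0))) (xa (xb T0.l0 (xa T0.l0 T0.l0)) (xb T0.l4 (xa T0.l4 T0.l4))))
  (TrL.c (I.pos (nat_lit 0) (nat_lit 0)) (xa T0.l1 T0.l1)
  (TrL.c (I.pos (nat_lit 0) (nat_lit 111196574)) (xR T0.l2 (xR T0.l2 T0.l6))
  (TrL.c (I.pos (nat_lit 0) (nat_lit 77433728)) (xR T0.l3 (xR T0.l3 T0.l3))
  (TrL.c (I.pos (nat_lit 0) (nat_lit 0)) (xa (xb T0.l4 T0.l4) (xb (xa (xk T0.l4 T0.l4) (xk (xb (xa T0.l4 T0.l4) T0.l4) (xb (xa T0.l4 T0.l4) T0.l4))) (xa T0.l4 (xk (xb T0.l4 (xa T0.l4 (xs T0.l4 T0.l4))) (xb T0.l4 (xa T0.l4 (xs T0.l4 (xk (xb T0.l4 T0.l4) (xb T0.l4 (xs T0.l4 T0.l4))))))))))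
  (TrL.c (I.pos (nat_lit 0) (nat_lit 0)) T0.l5
  (TrL.c (I.mix (nat_lit 29511666) (nat_lit 77433728)) (xR T0.l6 (xR T0.l6 (xR T0.l6 T0.l6)))
  (TrL.c (I.mix (nat_lit 29511666) (nat_lit 46070178)) (xR T0.l7 T0.l3)
  TrL.n)))))))) (by decide +kernel)
theorem bx0_1 : BoxOK sI cl7 cl7 cl7 t0 t0 b0_1 :=
  box_mk (TrL.c (I.pos (nat_lit 0) (nat_lit 0)) T0.l0
  (TrL.c (I.pos (nat_lit 0) (nat_lit 0)) T0.l1
  (TrL.c (I.pos (nat_lit 0) (nat_lit 111196574)) (xR T0.l2 T0.l2)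
  (TrL.c (I.pos (nat_lit 0) (nat_lit 77433728)) (xR T0.l3 T0.l3)
  (TrL.c (I.pos (nat_lit 0) (nat_lit 0)) T0.l4
  (TrL.c (I.pos (nat_lit 0) (nat_lit 0)) T0.l5
  (TrL.c (I.mix (nat_lit 29511666) (nat_lit 77433728)) (xR T0.l6 T0.l6)
  (TrL.c (I.mix (nat_lit 29511666) (nat_lit 46070178)) T0.l7
  TrL.n)))))))) (by decide +kernel)
theorem bx0_2 : BoxOK sI cl7 cl7 cl7 t0 t0 b0_2 :=
  box_mk (TrL.c (I.pos (nat_lit 0) (nat_lit 0)) (xa T0.l0 T0.l0)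
  (TrL.c (I.pos (nat_lit 0) (nat_lit 0)) (xa T0.l1 T0.l1)
  (TrL.c (I.pos (nat_lit 0) (nat_lit 111196574)) T0.l2
  (TrL.c (I.pos (nat_lit 0) (nat_lit 77433728)) (xR T0.l3 T0.l3)
  (TrL.c (I.pos (nat_lit 0) (nat_lit 0)) (xa T0.l4 T0.l4)
  (TrL.c (I.pos (nat_lit 0) (nat_lit 0)) T0.l5
  (TrL.c (I.mix (nat_lit 29511666) (nat_lit 77433728)) T0.l6
  (TrL.c (I.mix (nat_lit 29511666) (nat_lit 46070178)) T0.l6
  TrL.n)))))))) (by decide +kernel)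
theorem bx0_3 : BoxOK sI cl7 cl7 cl7 t0 t0 b0_3 :=
  box_mk (TrL.c (I.pos (nat_lit 0) (nat_lit 0)) T0.l0
  (TrL.c (I.pos (nat_lit 0) (nat_lit 0)) T0.l1
  (TrL.c (I.pos (nat_lit 0) (nat_lit 111196574)) T0.l2
  (TrL.c (I.pos (nat_lit 0) (nat_lit 77433728)) T0.l6
  (TrL.c (I.pos (nat_lit 0) (nat_lit 0)) T0.l4
  (TrL.c (I.pos (nat_lit 0) (nat_lit 0)) T0.l5
  (TrL.c (I.mix (nat_lit 29511666) (nat_lit 77433728)) T0.l6
  (TrL.c (I.mix (nat_lit 29511666) (nat_lit 46070178)) T0.l6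
  TrL.n)))))))) (by decide +kernel)
theorem bx0_4 : BoxOK sI cl7 cl7 cl7 t0 t0 b0_4 :=
  box_mk (TrL.c (I.pos (nat_lit 0) (nat_lit 0)) (xb (xa (xb (xb T0.l0 T0.l0) T0.l0) (xb (xa T0.l0 T0.l0) T0.l0)) (xa (xb (xa T0.l0 T0.l0) (xa T0.l0 T0.l0)) (xa (xb T0.l0 T0.l0) (xb T0.l0 T0.l0))))
  (TrL.c (I.pos (nat_lit 0) (nat_lit 0)) T0.l1
  (TrL.c (I.pos (nat_lit 0) (nat_lit 111196574)) (xR T0.l2 (xR T0.l2 T0.l2))
  (TrL.c (I.pos (nat_lit 0) (nat_lit 77433728)) (xR T0.l3 (xR T0.l3 T0.l3))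
  (TrL.c (I.pos (nat_lit 0) (nat_lit 0)) (xb (xa T0.l4 (xk T0.l4 T0.l4)) (xa (xb T0.l4 (xk T0.l4 (xb T0.l4 T0.l4))) (xk (xb T0.l4 (xs (xb T0.l4 T0.l4) (xb T0.l4 (xa T0.l4 (xk (xs T0.l4 T0.l4) (xs T0.l4 (xb T0.l4 T0.l4))))))) (xb T0.l4 (xs (xb T0.l4 (xa T0.l4 (xk T0.l4 T0.l4))) (xb (xa T0.l4 T0.l4) (xa (xk T0.l4 T0.l4) (xk (xs T0.l4 (xb T0.l4 (xd T0.l4 T0.l4))) (xs (xb T0.l4 (xd T0.l4 T0.l4)) (xb T0.l4 (xd (xa (xe T0.l4 T0.l4) T0.l4) (xa (xe T0.l4 T0.l4) (xe (xk T0.l4 T0.l4) (xk T0.l4 T0.l4))))))))))))))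
  (TrL.c (I.pos (nat_lit 0) (nat_lit 0)) T0.l5
  (TrL.c (I.mix (nat_lit 29511666) (nat_lit 77433728)) (xR T0.l6 (xR T0.l6 T0.l6))
  (TrL.c (I.mix (nat_lit 29511666) (nat_lit 46070178)) (xR T0.l7 T0.l7)
  TrL.n)))))))) (by decide +kernel)
theorem bx0_5 : BoxOK sI cl7 cl7 cl7 t0 t0 b0_5 :=
  box_mk (TrL.c (I.pos (nat_lit 0) (nat_lit 0)) T0.l0
  (TrL.c (I.pos (nat_lit 0) (nat_lit 0)) T0.l1
  (TrL.c (I.pos (nat_lit 0) (nat_lit 111196574)) (xR T0.l2 T0.l2)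
  (TrL.c (I.pos (nat_lit 0) (nat_lit 77433728)) (xR T0.l3 T0.l3)
  (TrL.c (I.pos (nat_lit 0) (nat_lit 0)) T0.l4
  (TrL.c (I.pos (nat_lit 0) (nat_lit 0)) T0.l5
  (TrL.c (I.mix (nat_lit 29511666) (nat_lit 77433728)) T0.l6
  (TrL.c (I.mix (nat_lit 29511666) (nat_lit 46070178)) T0.l7
  TrL.n)))))))) (by decide +kernel)
theorem bx0_6 : BoxOK sI cl7 cl7 cl7 t0 t0 b0_6 :=
  box_mk (TrL.c (I.pos (nat_lit 0) (nat_lit 0)) (xa T0.l0 T0.l0)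
  (TrL.c (I.pos (nat_lit 0) (nat_lit 0)) (xa T0.l1 T0.l1)
  (TrL.c (I.pos (nat_lit 0) (nat_lit 111196574)) T0.l2
  (TrL.c (I.pos (nat_lit 0) (nat_lit 77433728)) (xR T0.l6 (xR T0.l3 T0.l3))
  (TrL.c (I.pos (nat_lit 0) (nat_lit 0)) (xa T0.l4 T0.l4)
  (TrL.c (I.pos (nat_lit 0) (nat_lit 0)) T0.l5
  (TrL.c (I.mix (nat_lit 29511666) (nat_lit 77433728)) T0.l6
  (TrL.c (I.mix (nat_lit 29511666) (nat_lit 46070178)) T0.l6
  TrL.n)))))))) (by decide +kernel)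
theorem bx0_7 : BoxOK sI cl7 cl7 cl7 t0 t0 b0_7 :=
  box_mk (TrL.c (I.pos (nat_lit 0) (nat_lit 0)) (xa (xa (xb T0.l0 T0.l0) T0.l0) T0.l0)
  (TrL.c (I.pos (nat_lit 0) (nat_lit 0)) T0.l1
  (TrL.c (I.pos (nat_lit 0) (nat_lit 111196574)) T0.l2
  (TrL.c (I.pos (nat_lit 0) (nat_lit 77433728)) T0.l6
  (TrL.c (I.pos (nat_lit 0) (nat_lit 0)) T0.l4
  (TrL.c (I.pos (nat_lit 0) (nat_lit 0)) T0.l5
  (TrL.c (I.mix (nat_lit 29511666) (nat_lit 77433728)) T0.l6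
  (TrL.c (I.mix (nat_lit 29511666) (nat_lit 46070178)) T0.l6
  TrL.n)))))))) (by decide +kernel)
theorem sv0 : StarV sI cl7 cl7 cl7 t0 t0 t0 :=
  (bt_n (bt_n (bt_n (bt_b bx0_0) (bt_b bx0_1)) (bt_n (bt_b bx0_2) (bt_b bx0_3))) (bt_n (bt_n (bt_b bx0_4) (bt_b bx0_5)) (bt_n (bt_b bx0_6) (bt_b bx0_7))))
def S0 : StarD := StarD.mk cl7 cl7 cl7 0 0 t0
def G : List StarD := [S0]
theorem so0 : StarOK sI G S0 :=
  star_mk (by decide) (by decide) rfl rfl rfl rfl rfl rfl (rfl : _ = t0) (rfl : _ = t0)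
  (st_mk (Pth.l (Pth.l (Pth.l Pth.z))) (nat_lit 141013920) (nat_lit 163547967) (by decide +kernel))
  (st_mk (Pth.l (Pth.l (Pth.l Pth.z))) (nat_lit 176475633) (nat_lit 199415575) (by decide +kernel))
  (st_mk (Pth.l (Pth.l (Pth.l Pth.z))) (nat_lit 217550676) (nat_lit 241052377) (by decide +kernel)) sv0
theorem ok : GroupOK (nat_lit 91226112) (nat_lit 150339584) G := grp_mk (allS_c so0 allS_n)
theorem cov : GCov G cl7 cl7 cl7 := cov_mk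
  ⟨0, by decide, rfl, rfl, rfl⟩ ⟨0, by decide, rfl, rfl, rfl⟩ ⟨0, by decide, rfl, rfl, rfl⟩ ⟨0, by decide, rfl, rfl, rfl⟩ ⟨0, by decide, rfl, rfl, rfl⟩ ⟨0, by decide, rfl, rfl, rfl⟩
end Q444_1

namespace Q444_2
def sI : I := I.pos (nat_lit 150274048) (nat_lit 209387520)
def b0_0 : Bx := Bx.mk (St.mk (I.pos (nat_lit 157007872) (nat_lit 234553344)) (I.mix (nat_lit 1703936) (nat_lit 57425920)) (I.mix (nat_lit 2719744) (nat_lit 96239616)) (I.pos (nat_lit 139657216) (nat_lit 263815168)) (I.mix (nat_lit 117948416) (nat_lit 71401472)) (I.mix (nat_lit 83083264) (nat_lit 71139328)) (I.mix (nat_lit 108806144) (nat_lit 93159424)))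
  false (nat_lit 29392811)
def b0_1 : Bx := Bx.mk (St.mk (I.pos (nat_lit 101629952) (nat_lit 176603136)) (I.neg (nat_lit 7045120) (nat_lit 54657024)) (I.mix (nat_lit 51789824) (nat_lit 1703936)) (I.pos (nat_lit 97271808) (nat_lit 180453376)) (I.mix (nat_lit 71892992) (nat_lit 41353216)) (I.mix (nat_lit 37027840) (nat_lit 52248576)) (I.mix (nat_lit 31768576) (nat_lit 47874048)))
  false (nat_lit 0)
def b0_2 : Bx := Bx.mk (St.mk (I.mix (nat_lit 25755648) (nat_lit 121585664)) (I.mix (nat_lit 8273920) (nat_lit 34357248)) (I.mix (nat_lit 14008320) (nat_lit 23396352)) (I.pos (nat_lit 40222720) (nat_lit 116899840)) (I.mix (nat_lit 44105728) (nat_lit 36732928)) (I.mix (nat_lit 34373632) (nat_lit 27279360)) (I.mix (nat_lit 24657920) (nat_lit 18464768)))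
  false (nat_lit 0)
def b0_3 : Bx := Bx.mk (St.mk (I.mix (nat_lit 26804224) (nat_lit 85671936)) (I.mix (nat_lit 31916032) (nat_lit 5881856)) (I.mix (nat_lit 19365888) (nat_lit 5914624)) (I.pos (nat_lit 39288832) (nat_lit 90587136)) (I.mix (nat_lit 35127296) (nat_lit 33259520)) (I.mix (nat_lit 24707072) (nat_lit 31850496)) (I.mix (nat_lit 13451264) (nat_lit 17154048)))
  false (nat_lit 0)
def b0_4 : Bx := Bx.mk (St.mk (I.pos (nat_lit 164364288) (nat_lit 214073344)) (I.mix (nat_lit 7798784) (nat_lit 57311232)) (I.pos (nat_lit 8519680) (nat_lit 92110848)) (I.pos (nat_lit 153862144) (nat_lit 234258432)) (I.mix (nat_lit 125665280) (nat_lit 43958272)) (I.mix (nat_lit 115818496) (nat_lit 64389120)) (I.mix (nat_lit 122683392) (nat_lit 60686336)))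
  false (nat_lit 2695359)
def b0_5 : Bx := Bx.mk (St.mk (I.pos (nat_lit 91258880) (nat_lit 140132352)) (I.mix (nat_lit 52854784) (nat_lit 9371648)) (I.mix (nat_lit 50544640) (nat_lit 4096000)) (I.pos (nat_lit 78970880) (nat_lit 134922240)) (I.mix (nat_lit 79970304) (nat_lit 28934144)) (I.mix (nat_lit 34357248) (nat_lit 71745536)) (I.mix (nat_lit 24641536) (nat_lit 53805056)))
  false (nat_lit 0)
def b0_6 : Bx := Bx.mk (St.mk (I.mix (nat_lit 38191104) (nat_lit 107036672)) (I.mix (nat_lit 13402112) (nat_lit 36126720)) (I.mix (nat_lit 9027584) (nat_lit 25722880)) (I.pos (nat_lit 40714240) (nat_lit 105906176)) (I.mix (nat_lit 52412416) (nat_lit 23445504)) (I.mix (nat_lit 44695552) (nat_lit 26902528)) (I.mix (nat_lit 24510464) (nat_lit 16007168)))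
  false (nat_lit 0)
def b0_7 : Bx := Bx.mk (St.mk (I.mix (nat_lit 35127296) (nat_lit 71188480)) (I.mix (nat_lit 30326784) (nat_lit 4898816)) (I.mix (nat_lit 16367616) (nat_lit 4308992)) (I.pos (nat_lit 41697280) (nat_lit 81723392)) (I.mix (nat_lit 37240832) (nat_lit 23117824)) (I.mix (nat_lit 19972096) (nat_lit 30081024)) (I.mix (nat_lit 8978432) (nat_lit 11649024)))
  false (nat_lit 0)
def b0_8 : Bx := Bx.mk (St.mk (I.pos (nat_lit 188874752) (nat_lit 286851072)) (I.mix (nat_lit 25198592) (nat_lit 42500096)) (I.mix (nat_lit 70713344) (nat_lit 69713920)) (I.pos (nat_lit 208191488) (nat_lit 372162560)) (I.mix (nat_lit 74989568) (nat_lit 58834944)) (I.mix (nat_lit 59703296) (nat_lit 41861120)) (I.mix (nat_lit 105103360) (nat_lit 75186176)))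
  false (nat_lit 0)
def b0_9 : Bx := Bx.mk (St.mk (I.pos (nat_lit 142360576) (nat_lit 205651968)) (I.mix (nat_lit 37257216) (nat_lit 15728640)) (I.mix (nat_lit 35176448) (nat_lit 37257216)) (I.pos (nat_lit 128565248) (nat_lit 215040000)) (I.mix (nat_lit 53248000) (nat_lit 48824320)) (I.mix (nat_lit 49496064) (nat_lit 46546944)) (I.mix (nat_lit 48955392) (nat_lit 46940160)))
  false (nat_lit 0)
def b0_10 : Bx := Bx.mk (St.mk (I.pos (nat_lit 177569792) (nat_lit 235962368)) (I.pos (nat_lit 9437184) (nat_lit 56934400)) (I.pos (nat_lit 15679488) (nat_lit 94961664)) (I.pos (nat_lit 196984832) (nat_lit 263061504)) (I.mix (nat_lit 101744640) (nat_lit 79544320)) (I.mix (nat_lit 89128960) (nat_lit 68272128)) (I.mix (nat_lit 131776512) (nat_lit 81166336)))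
  false (nat_lit 16151915)
def b0_11 : Bx := Bx.mk (St.mk (I.pos (nat_lit 165314560) (nat_lit 206831616)) (I.mix (nat_lit 14237696) (nat_lit 33734656)) (I.mix (nat_lit 688128) (nat_lit 62816256)) (I.pos (nat_lit 153403392) (nat_lit 219234304)) (I.mix (nat_lit 104185856) (nat_lit 49496064)) (I.mix (nat_lit 106905600) (nat_lit 46710784)) (I.mix (nat_lit 115343360) (nat_lit 47349760)))
  false (nat_lit 0)
def t0 : BTr := (BTr.n (BTr.n (BTr.n (BTr.b b0_0) (BTr.n (BTr.b b0_1) (BTr.b b0_2))) (BTr.n (BTr.b b0_3) (BTr.n (BTr.b b0_4) (BTr.b b0_5)))) (BTr.n (BTr.n (BTr.b b0_6) (BTr.n (BTr.b b0_7) (BTr.b b0_8))) (BTr.n (BTr.b b0_9) (BTr.n (BTr.b b0_10) (BTr.b b0_11)))))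
namespace T0
def l0 : Tr := Tr.L (Pth.l (Pth.l (Pth.l Pth.z)))
def l1 : Tr := Tr.L (Pth.l (Pth.l (Pth.r (Pth.l Pth.z))))
def l2 : Tr := Tr.L (Pth.l (Pth.l (Pth.r (Pth.r Pth.z))))
def l3 : Tr := Tr.L (Pth.l (Pth.r (Pth.l Pth.z)))
def l4 : Tr := Tr.L (Pth.l (Pth.r (Pth.r (Pth.l Pth.z))))
def l5 : Tr := Tr.L (Pth.l (Pth.r (Pth.r (Pth.r Pth.z))))
def l6 : Tr := Tr.L (Pth.r (Pth.l (Pth.l Pth.z)))
def l7 : Tr := Tr.L (Pth.r (Pth.l (Pth.r (Pth.l Pth.z))))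
def l8 : Tr := Tr.L (Pth.r (Pth.l (Pth.r (Pth.r Pth.z))))
def l9 : Tr := Tr.L (Pth.r (Pth.r (Pth.l Pth.z)))
def l10 : Tr := Tr.L (Pth.r (Pth.r (Pth.r (Pth.l Pth.z))))
def l11 : Tr := Tr.L (Pth.r (Pth.r (Pth.r (Pth.r Pth.z))))
end T0
theorem bx0_0 : BoxOK sI cl7 cl7 cl7 t0 t0 b0_0 :=
  box_mk (TrL.c (I.pos (nat_lit 0) (nat_lit 0)) (xa (xb (xa T0.l0 T0.l0) (xa T0.l0 T0.l0)) (xb T0.l0 (xa T0.l0 T0.l0)))
  (TrL.c (I.pos (nat_lit 0) (nat_lit 0)) (xa (xk (xb T0.l1 T0.l1) T0.l1) (xk (xb T0.l1 T0.l1) (xb T0.l1 T0.l1)))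
  (TrL.c (I.pos (nat_lit 0) (nat_lit 111196574)) (xR T0.l2 T0.l2)
  (TrL.c (I.pos (nat_lit 0) (nat_lit 77433728)) T0.l3
  (TrL.c (I.pos (nat_lit 0) (nat_lit 0)) (xa (xk (xb T0.l4 T0.l4) (xb T0.l4 T0.l4)) (xk (xb (xa T0.l4 T0.l4) (xa T0.l4 T0.l4)) (xb (xa T0.l4 T0.l4) (xa T0.l4 T0.l4))))
  (TrL.c (I.pos (nat_lit 0) (nat_lit 0)) (xk T0.l5 T0.l5)
  (TrL.c (I.mix (nat_lit 29511666) (nat_lit 77433728)) (xR T0.l6 T0.l6)
  (TrL.c (I.mix (nat_lit 29511666) (nat_lit 46070178)) T0.l7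
  TrL.n)))))))) (by decide +kernel)
theorem bx0_1 : BoxOK sI cl7 cl7 cl7 t0 t0 b0_1 :=
  box_mk (TrL.c (I.pos (nat_lit 0) (nat_lit 0)) (xa T0.l8 T0.l0)
  (TrL.c (I.pos (nat_lit 0) (nat_lit 0)) (xa T0.l1 T0.l1)
  (TrL.c (I.pos (nat_lit 0) (nat_lit 111196574)) (xR T0.l2 T0.l2)
  (TrL.c (I.pos (nat_lit 0) (nat_lit 77433728)) T0.l3
  (TrL.c (I.pos (nat_lit 0) (nat_lit 0)) (xa (xb T0.l9 T0.l9) (xk T0.l9 T0.l9))
  (TrL.c (I.pos (nat_lit 0) (nat_lit 0)) T0.l5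
  (TrL.c (I.mix (nat_lit 29511666) (nat_lit 77433728)) (xR T0.l6 T0.l6)
  (TrL.c (I.mix (nat_lit 29511666) (nat_lit 46070178)) T0.l7
  TrL.n)))))))) (by decide +kernel)
theorem bx0_2 : BoxOK sI cl7 cl7 cl7 t0 t0 b0_2 :=
  box_mk (TrL.c (I.pos (nat_lit 0) (nat_lit 0)) (xa (xa (xb T0.l8 T0.l8) T0.l8) (xa T0.l8 T0.l8))
  (TrL.c (I.pos (nat_lit 0) (nat_lit 0)) (xa T0.l1 T0.l1)
  (TrL.c (I.pos (nat_lit 0) (nat_lit 111196574)) T0.l2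
  (TrL.c (I.pos (nat_lit 0) (nat_lit 77433728)) T0.l3
  (TrL.c (I.pos (nat_lit 0) (nat_lit 0)) (xa T0.l9 T0.l9)
  (TrL.c (I.pos (nat_lit 0) (nat_lit 0)) T0.l5
  (TrL.c (I.mix (nat_lit 29511666) (nat_lit 77433728)) T0.l6
  (TrL.c (I.mix (nat_lit 29511666) (nat_lit 46070178)) T0.l7
  TrL.n)))))))) (by decide +kernel)
theorem bx0_3 : BoxOK sI cl7 cl7 cl7 t0 t0 b0_3 :=
  box_mk (TrL.c (I.pos (nat_lit 0) (nat_lit 0)) (xa (xa T0.l8 T0.l8) T0.l8)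
  (TrL.c (I.pos (nat_lit 0) (nat_lit 0)) (xa T0.l9 T0.l1)
  (TrL.c (I.pos (nat_lit 0) (nat_lit 111196574)) T0.l2
  (TrL.c (I.pos (nat_lit 0) (nat_lit 77433728)) T0.l3
  (TrL.c (I.pos (nat_lit 0) (nat_lit 0)) (xa T0.l1 T0.l9)
  (TrL.c (I.pos (nat_lit 0) (nat_lit 0)) T0.l5
  (TrL.c (I.mix (nat_lit 29511666) (nat_lit 77433728)) T0.l6
  (TrL.c (I.mix (nat_lit 29511666) (nat_lit 46070178)) T0.l7
  TrL.n)))))))) (by decide +kernel)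
theorem bx0_4 : BoxOK sI cl7 cl7 cl7 t0 t0 b0_4 :=
  box_mk (TrL.c (I.pos (nat_lit 0) (nat_lit 0)) (xb (xa T0.l10 T0.l10) (xa T0.l10 T0.l10))
  (TrL.c (I.pos (nat_lit 0) (nat_lit 0)) (xk (xb T0.l1 T0.l1) (xb T0.l1 T0.l1))
  (TrL.c (I.pos (nat_lit 0) (nat_lit 111196574)) (xR T0.l2 T0.l2)
  (TrL.c (I.pos (nat_lit 0) (nat_lit 77433728)) T0.l3
  (TrL.c (I.pos (nat_lit 0) (nat_lit 0)) (xb (xk (xa T0.l11 T0.l11) (xa T0.l11 T0.l11)) (xk (xa T0.l11 (xb T0.l11 T0.l4)) (xa T0.l11 (xb T0.l11 T0.l11))))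
  (TrL.c (I.pos (nat_lit 0) (nat_lit 0)) T0.l5
  (TrL.c (I.mix (nat_lit 29511666) (nat_lit 77433728)) (xR T0.l6 T0.l6)
  (TrL.c (I.mix (nat_lit 29511666) (nat_lit 46070178)) T0.l7
  TrL.n)))))))) (by decide +kernel)
theorem bx0_5 : BoxOK sI cl7 cl7 cl7 t0 t0 b0_5 :=
  box_mk (TrL.c (I.pos (nat_lit 0) (nat_lit 0)) (xb T0.l8 T0.l8)
  (TrL.c (I.pos (nat_lit 0) (nat_lit 0)) T0.l1
  (TrL.c (I.pos (nat_lit 0) (nat_lit 111196574)) (xR T0.l2 T0.l2)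
  (TrL.c (I.pos (nat_lit 0) (nat_lit 77433728)) T0.l3
  (TrL.c (I.pos (nat_lit 0) (nat_lit 0)) (xb T0.l9 T0.l9)
  (TrL.c (I.pos (nat_lit 0) (nat_lit 0)) T0.l5
  (TrL.c (I.mix (nat_lit 29511666) (nat_lit 77433728)) (xR T0.l6 T0.l6)
  (TrL.c (I.mix (nat_lit 29511666) (nat_lit 46070178)) T0.l7
  TrL.n)))))))) (by decide +kernel)
theorem bx0_6 : BoxOK sI cl7 cl7 cl7 t0 t0 b0_6 :=
  box_mk (TrL.c (I.pos (nat_lit 0) (nat_lit 0)) (xa (xa (xb T0.l8 T0.l8) T0.l8) (xa T0.l8 T0.l8))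
  (TrL.c (I.pos (nat_lit 0) (nat_lit 0)) (xa T0.l1 T0.l1)
  (TrL.c (I.pos (nat_lit 0) (nat_lit 111196574)) T0.l2
  (TrL.c (I.pos (nat_lit 0) (nat_lit 77433728)) T0.l3
  (TrL.c (I.pos (nat_lit 0) (nat_lit 0)) (xa T0.l9 T0.l9)
  (TrL.c (I.pos (nat_lit 0) (nat_lit 0)) T0.l5
  (TrL.c (I.mix (nat_lit 29511666) (nat_lit 77433728)) T0.l6
  (TrL.c (I.mix (nat_lit 29511666) (nat_lit 46070178)) T0.l6
  TrL.n)))))))) (by decide +kernel)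
theorem bx0_7 : BoxOK sI cl7 cl7 cl7 t0 t0 b0_7 :=
  box_mk (TrL.c (I.pos (nat_lit 0) (nat_lit 0)) (xa (xa T0.l8 T0.l8) T0.l8)
  (TrL.c (I.pos (nat_lit 0) (nat_lit 0)) (xa T0.l9 T0.l1)
  (TrL.c (I.pos (nat_lit 0) (nat_lit 111196574)) T0.l2
  (TrL.c (I.pos (nat_lit 0) (nat_lit 77433728)) T0.l6
  (TrL.c (I.pos (nat_lit 0) (nat_lit 0)) (xa T0.l1 T0.l9)
  (TrL.c (I.pos (nat_lit 0) (nat_lit 0)) T0.l5
  (TrL.c (I.mix (nat_lit 29511666) (nat_lit 77433728)) T0.l6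
  (TrL.c (I.mix (nat_lit 29511666) (nat_lit 46070178)) T0.l7
  TrL.n)))))))) (by decide +kernel)
theorem bx0_8 : BoxOK sI cl7 cl7 cl7 t0 t0 b0_8 :=
  box_mk (TrL.c (I.pos (nat_lit 0) (nat_lit 0)) (xa (xb T0.l0 T0.l0) (xb (xa T0.l0 T0.l0) (xa T0.l0 T0.l0)))
  (TrL.c (I.pos (nat_lit 0) (nat_lit 0)) (xa (xb T0.l1 (xk T0.l1 T0.l1)) (xk (xb T0.l5 (xa T0.l1 T0.l5)) (xb T0.l5 T0.l5)))
  (TrL.c (I.pos (nat_lit 0) (nat_lit 111196574)) (xR T0.l6 T0.l2)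
  (TrL.c (I.pos (nat_lit 0) (nat_lit 77433728)) (xR T0.l3 T0.l3)
  (TrL.c (I.pos (nat_lit 0) (nat_lit 0)) (xa (xb (xk (xa T0.l4 T0.l0) (xa T0.l4 T0.l0)) (xk T0.l4 T0.l4)) (xb (xk (xa (xb (xk T0.l4 T0.l4) T0.l4) (xb (xk T0.l4 T0.l4) T0.l4)) (xa (xb (xk T0.l4 T0.l4) T0.l4) (xb (xk T0.l4 T0.l4) T0.l4))) (xk (xa T0.l4 (xb (xk T0.l4 T0.l4) (xk T0.l4 T0.l4))) (xa T0.l4 (xb (xk T0.l4 T0.l4) (xk T0.l4 T0.l4))))))
  (TrL.c (I.pos (nat_lit 0) (nat_lit 0)) (xk (xa T0.l5 (xb T0.l5 T0.l5)) (xa T0.l5 (xb T0.l5 T0.l5)))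
  (TrL.c (I.mix (nat_lit 29511666) (nat_lit 77433728)) (xR T0.l6 (xR T0.l6 (xR T0.l6 T0.l6)))
  (TrL.c (I.mix (nat_lit 29511666) (nat_lit 46070178)) T0.l7
  TrL.n)))))))) (by decide +kernel)
theorem bx0_9 : BoxOK sI cl7 cl7 cl7 t0 t0 b0_9 :=
  box_mk (TrL.c (I.pos (nat_lit 0) (nat_lit 0)) (xa T0.l10 T0.l10)
  (TrL.c (I.pos (nat_lit 0) (nat_lit 0)) T0.l1
  (TrL.c (I.pos (nat_lit 0) (nat_lit 111196574)) (xR T0.l2 T0.l2)
  (TrL.c (I.pos (nat_lit 0) (nat_lit 77433728)) T0.l3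
  (TrL.c (I.pos (nat_lit 0) (nat_lit 0)) (xk (xa T0.l11 (xb T0.l11 T0.l11)) (xa T0.l11 (xb T0.l11 T0.l11)))
  (TrL.c (I.pos (nat_lit 0) (nat_lit 0)) T0.l5
  (TrL.c (I.mix (nat_lit 29511666) (nat_lit 77433728)) (xR T0.l6 T0.l6)
  (TrL.c (I.mix (nat_lit 29511666) (nat_lit 46070178)) T0.l7
  TrL.n)))))))) (by decide +kernel)
theorem bx0_10 : BoxOK sI cl7 cl7 cl7 t0 t0 b0_10 :=
  box_mk (TrL.c (I.pos (nat_lit 0) (nat_lit 0)) (xa (xb T0.l0 T0.l0) (xb T0.l0 T0.l0))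
  (TrL.c (I.pos (nat_lit 0) (nat_lit 0)) (xk (xa T0.l1 T0.l1) (xa T0.l1 T0.l1))
  (TrL.c (I.pos (nat_lit 0) (nat_lit 111196574)) (xR T0.l2 T0.l2)
  (TrL.c (I.pos (nat_lit 0) (nat_lit 77433728)) T0.l3
  (TrL.c (I.pos (nat_lit 0) (nat_lit 0)) (xk (xa T0.l4 (xb T0.l4 T0.l4)) (xa T0.l4 (xb T0.l4 T0.l4)))
  (TrL.c (I.pos (nat_lit 0) (nat_lit 0)) T0.l5
  (TrL.c (I.mix (nat_lit 29511666) (nat_lit 77433728)) (xR T0.l6 T0.l6)
  (TrL.c (I.mix (nat_lit 29511666) (nat_lit 46070178)) T0.l7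
  TrL.n)))))))) (by decide +kernel)
theorem bx0_11 : BoxOK sI cl7 cl7 cl7 t0 t0 b0_11 :=
  box_mk (TrL.c (I.pos (nat_lit 0) (nat_lit 0)) (xb T0.l10 T0.l10)
  (TrL.c (I.pos (nat_lit 0) (nat_lit 0)) (xk T0.l1 T0.l1)
  (TrL.c (I.pos (nat_lit 0) (nat_lit 111196574)) (xR T0.l2 T0.l2)
  (TrL.c (I.pos (nat_lit 0) (nat_lit 77433728)) T0.l3
  (TrL.c (I.pos (nat_lit 0) (nat_lit 0)) (xk (xb T0.l11 T0.l11) (xb T0.l11 T0.l11))
  (TrL.c (I.pos (nat_lit 0) (nat_lit 0)) T0.l5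
  (TrL.c (I.mix (nat_lit 29511666) (nat_lit 77433728)) (xR T0.l6 T0.l6)
  (TrL.c (I.mix (nat_lit 29511666) (nat_lit 46070178)) T0.l7
  TrL.n)))))))) (by decide +kernel)
theorem sv0 : StarV sI cl7 cl7 cl7 t0 t0 t0 :=
  (bt_n (bt_n (bt_n (bt_b bx0_0) (bt_n (bt_b bx0_1) (bt_b bx0_2))) (bt_n (bt_b bx0_3) (bt_n (bt_b bx0_4) (bt_b bx0_5)))) (bt_n (bt_n (bt_b bx0_6) (bt_n (bt_b bx0_7) (bt_b bx0_8))) (bt_n (bt_b bx0_9) (bt_n (bt_b bx0_10) (bt_b bx0_11)))))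
def S0 : StarD := StarD.mk cl7 cl7 cl7 0 0 t0
def G : List StarD := [S0]
theorem so0 : StarOK sI G S0 :=
  star_mk (by decide) (by decide) rfl rfl rfl rfl rfl rfl (rfl : _ = t0) (rfl : _ = t0)
  (st_mk (Pth.l (Pth.l (Pth.l Pth.z))) (nat_lit 141184060) (nat_lit 163832096) (by decide +kernel))
  (st_mk (Pth.l (Pth.l (Pth.l Pth.z))) (nat_lit 176741211) (nat_lit 199843265) (by decide +kernel))
  (st_mk (Pth.l (Pth.l (Pth.l Pth.z))) (nat_lit 217953934) (nat_lit 241684981) (by decide +kernel)) sv0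
theorem ok : GroupOK (nat_lit 150274048) (nat_lit 209387520) G := grp_mk (allS_c so0 allS_n)
theorem cov : GCov G cl7 cl7 cl7 := cov_mk
  ⟨0, by decide, rfl, rfl, rfl⟩ ⟨0, by decide, rfl, rfl, rfl⟩ ⟨0, by decide, rfl, rfl, rfl⟩ ⟨0, by decide, rfl, rfl, rfl⟩ ⟨0, by decide, rfl, rfl, rfl⟩ ⟨0, by decide, rfl, rfl, rfl⟩
end Q444_2


end Pool.Agent.Helper6.MONO
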