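import Pool.Agent.Helper6.MONO.Cert.C32

/-!
Certificate data (generated).
-/

set_option autoImplicit false
set_option linter.all false
noncomputable section
namespace Pool.Agent.Helper6.MONO


namespace Q444_3
def sI : I := I.pos (nat_lit 209321984) (nat_lit 268435456)
def b0_0 : Bx := Bx.mk (St.mk (I.pos (nat_lit 158531584) (nat_lit 229376000)) (I.mix (nat_lit 1720320) (nat_lit 51118080)) (I.mix (nat_lit 2686976) (nat_lit 86769664)) (I.pos (nat_lit 139837440) (nat_lit 259670016)) (I.mix (nat_lit 103284736) (nat_lit 49758208)) (I.mix (nat_lit 64045056) (nat_lit 52740096)) (I.mix (nat_lit 84869120) (nat_lit 67305472)))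
  false (nat_lit 19630259)
def b0_1 : Bx := Bx.mk (St.mk (I.pos (nat_lit 100581376) (nat_lit 178143232)) (I.neg (nat_lit 6275072) (nat_lit 51822592)) (I.mix (nat_lit 48857088) (nat_lit 2326528)) (I.pos (nat_lit 94535680) (nat_lit 182894592)) (I.mix (nat_lit 75153408) (nat_lit 44105728)) (I.mix (nat_lit 34668544) (nat_lit 52068352)) (I.mix (nat_lit 28180480) (nat_lit 48758784)))
  false (nat_lit 0)
def b0_2 : Bx := Bx.mk (St.mk (I.mix (nat_lit 22757376) (nat_lit 121929728)) (I.mix (nat_lit 7716864) (nat_lit 27279360)) (I.mix (nat_lit 13533184) (nat_lit 18366464)) (I.pos (nat_lit 42123264) (nat_lit 117424128)) (I.mix (nat_lit 38371328) (nat_lit 34963456)) (I.mix (nat_lit 30867456) (nat_lit 21708800)) (I.mix (nat_lit 21708800) (nat_lit 14254080)))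
  false (nat_lit 0)
def b0_3 : Bx := Bx.mk (St.mk (I.mix (nat_lit 23216128) (nat_lit 86245376)) (I.mix (nat_lit 30179328) (nat_lit 3145728)) (I.mix (nat_lit 17842176) (nat_lit 4915200)) (I.pos (nat_lit 42434560) (nat_lit 90882048)) (I.mix (nat_lit 35127296) (nat_lit 29097984)) (I.mix (nat_lit 18694144) (nat_lit 27066368)) (I.mix (nat_lit 9895936) (nat_lit 14319616)))
  false (nat_lit 0)
def b0_4 : Bx := Bx.mk (St.mk (I.pos (nat_lit 160956416) (nat_lit 211156992)) (I.mix (nat_lit 8060928) (nat_lit 53657600)) (I.pos (nat_lit 6176768) (nat_lit 87834624)) (I.pos (nat_lit 151371776) (nat_lit 231882752)) (I.mix (nat_lit 133562368) (nat_lit 50364416)) (I.mix (nat_lit 111411200) (nat_lit 62455808)) (I.mix (nat_lit 115523584) (nat_lit 56737792)))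
  false (nat_lit 7542194)
def b0_5 : Bx := Bx.mk (St.mk (I.pos (nat_lit 89948160) (nat_lit 138444800)) (I.mix (nat_lit 52789248) (nat_lit 9109504)) (I.mix (nat_lit 50724864) (nat_lit 3899392)) (I.pos (nat_lit 78430208) (nat_lit 132972544)) (I.mix (nat_lit 87441408) (nat_lit 41648128)) (I.mix (nat_lit 36356096) (nat_lit 74399744)) (I.mix (nat_lit 26148864) (nat_lit 54771712)))
  false (nat_lit 0)
def b0_6 : Bx := Bx.mk (St.mk (I.mix (nat_lit 38060032) (nat_lit 107266048)) (I.mix (nat_lit 12189696) (nat_lit 31834112)) (I.mix (nat_lit 8355840) (nat_lit 22986752)) (I.pos (nat_lit 42123264) (nat_lit 106430464)) (I.mix (nat_lit 49119232) (nat_lit 29900800)) (I.mix (nat_lit 42713088) (nat_lit 23658496)) (I.mix (nat_lit 23117824) (nat_lit 13549568)))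
  false (nat_lit 0)
def b0_7 : Bx := Bx.mk (St.mk (I.mix (nat_lit 32309248) (nat_lit 69861376)) (I.neg (nat_lit 589824) (nat_lit 28901376)) (I.mix (nat_lit 16269312) (nat_lit 3866624)) (I.pos (nat_lit 43253760) (nat_lit 82100224)) (I.mix (nat_lit 35651584) (nat_lit 18841600)) (I.mix (nat_lit 12697600) (nat_lit 29048832)) (I.mix (nat_lit 5996544) (nat_lit 11026432)))
  false (nat_lit 0)
def b0_8 : Bx := Bx.mk (St.mk (I.pos (nat_lit 201113600) (nat_lit 286621696)) (I.mix (nat_lit 22003712) (nat_lit 37896192)) (I.mix (nat_lit 63668224) (nat_lit 62996480)) (I.pos (nat_lit 215908352) (nat_lit 374030336)) (I.mix (nat_lit 73318400) (nat_lit 56262656)) (I.mix (nat_lit 55853056) (nat_lit 42237952)) (I.mix (nat_lit 98238464) (nat_lit 69746688)))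
  false (nat_lit 14110539)
def b0_9 : Bx := Bx.mk (St.mk (I.pos (nat_lit 139935744) (nat_lit 208257024)) (I.mix (nat_lit 36683776) (nat_lit 17678336)) (I.mix (nat_lit 33767424) (nat_lit 39927808)) (I.pos (nat_lit 125566976) (nat_lit 218185728)) (I.mix (nat_lit 64831488) (nat_lit 53460992)) (I.mix (nat_lit 51101696) (nat_lit 47792128)) (I.mix (nat_lit 50135040) (nat_lit 47874048)))
  false (nat_lit 0)
def b0_10 : Bx := Bx.mk (St.mk (I.pos (nat_lit 182173696) (nat_lit 232996864)) (I.pos (nat_lit 9240576) (nat_lit 52215808)) (I.pos (nat_lit 14237696) (nat_lit 87474176)) (I.pos (nat_lit 196837376) (nat_lit 262651904)) (I.mix (nat_lit 99991552) (nat_lit 75628544)) (I.mix (nat_lit 77873152) (nat_lit 61554688)) (I.mix (nat_lit 117293056) (nat_lit 72892416)))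
  false (nat_lit 7009718)
def b0_11 : Bx := Bx.mk (St.mk (I.pos (nat_lit 160071680) (nat_lit 209076224)) (I.mix (nat_lit 18759680) (nat_lit 31555584)) (I.mix (nat_lit 5259264) (nat_lit 60030976)) (I.pos (nat_lit 148766720) (nat_lit 222658560)) (I.mix (nat_lit 122486784) (nat_lit 77856768)) (I.mix (nat_lit 117473280) (nat_lit 68091904)) (I.mix (nat_lit 122781696) (nat_lit 64765952)))
  false (nat_lit 0)
def t0 : BTr := (BTr.n (BTr.n (BTr.n (BTr.b b0_0) (BTr.n (BTr.b b0_1) (BTr.b b0_2))) (BTr.n (BTr.b b0_3) (BTr.n (BTr.b b0_4) (BTr.b b0_5)))) (BTr.n (BTr.n (BTr.b b0_6) (BTr.n (BTr.b b0_7) (BTr.b b0_8))) (BTr.n (BTr.b b0_9) (BTr.n (BTr.b b0_10) (BTr.b b0_11)))))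
namespace T0
def l0 : Tr := Tr.L (Pth.l (Pth.l (Pth.l Pth.z)))
def l1 : Tr := Tr.L (Pth.l (Pth.l (Pth.r (Pth.l Pth.z))))
def l2 : Tr := Tr.L (Pth.l (Pth.l (Pth.r (Pth.r Pth.z))))
def l3 : Tr := Tr.L (Pth.l (Pth.r (Pth.l Pth.z)))
def l4 : Tr := Tr.L (Pth.l (Pth.r (Pth.r (Pth.l Pth.z))))
def l5 : Tr := Tr.L (Pth.l (Pth.r (Pth.r (Pth.r Pth.z))))
def l6 : Tr := Tr.L (Pth.r (Pth.l (Pth.l Pth.z)))
def l7 : Tr := Tr.L (Pth.r (Pth.l (Pth.r (Pth.l Pth.z))))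
def l8 : Tr := Tr.L (Pth.r (Pth.l (Pth.r (Pth.r Pth.z))))
def l9 : Tr := Tr.L (Pth.r (Pth.r (Pth.l Pth.z)))
def l10 : Tr := Tr.L (Pth.r (Pth.r (Pth.r (Pth.l Pth.z))))
def l11 : Tr := Tr.L (Pth.r (Pth.r (Pth.r (Pth.r Pth.z))))
end T0
theorem bx0_0 : BoxOK sI cl7 cl7 cl7 t0 t0 b0_0 :=
  box_mk (TrL.c (I.pos (nat_lit 0) (nat_lit 0)) (xa (xb (xa T0.l10 T0.l10) (xa (xb T0.l10 (xa T0.l10 T0.l10)) (xb T0.l10 (xa T0.l10 T0.l10)))) (xb (xa (xb T0.l0 T0.l0) T0.l0) (xa (xb (xa T0.l0 T0.l0) (xa (xs T0.l0 T0.l0) (xs T0.l0 T0.l0))) (xb T0.l0 (xa (xs T0.l0 T0.l0) (xs T0.l0 T0.l0))))))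
  (TrL.c (I.pos (nat_lit 0) (nat_lit 0)) (xa (xk (xb T0.l1 T0.l1) T0.l1) (xk (xb T0.l1 (xa T0.l1 T0.l1)) (xb T0.l1 T0.l1)))
  (TrL.c (I.pos (nat_lit 0) (nat_lit 111196574)) (xR (xR T0.l2 T0.l2) (xR T0.l2 (xR T0.l2 (xa T0.l2 T0.l2))))
  (TrL.c (I.pos (nat_lit 0) (nat_lit 77433728)) (xR T0.l3 T0.l3)
  (TrL.c (I.pos (nat_lit 0) (nat_lit 0)) (xa (xk T0.l4 T0.l11) (xk (xb T0.l4 T0.l4) (xb T0.l4 T0.l4)))
  (TrL.c (I.pos (nat_lit 0) (nat_lit 0)) T0.l5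
  (TrL.c (I.mix (nat_lit 29511666) (nat_lit 77433728)) (xR T0.l6 (xR T0.l6 T0.l6))
  (TrL.c (I.mix (nat_lit 29511666) (nat_lit 46070178)) (xR T0.l7 T0.l3)
  TrL.n)))))))) (by decide +kernel)
theorem bx0_1 : BoxOK sI cl7 cl7 cl7 t0 t0 b0_1 :=
  box_mk (TrL.c (I.pos (nat_lit 0) (nat_lit 0)) (xa (xb (xa T0.l8 T0.l8) T0.l8) (xb (xa T0.l0 T0.l0) (xa T0.l10 T0.l0)))
  (TrL.c (I.pos (nat_lit 0) (nat_lit 0)) (xa T0.l1 T0.l1)
  (TrL.c (I.pos (nat_lit 0) (nat_lit 111196574)) (xR (xR T0.l2 T0.l2) T0.l2)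
  (TrL.c (I.pos (nat_lit 0) (nat_lit 77433728)) (xR T0.l3 T0.l3)
  (TrL.c (I.pos (nat_lit 0) (nat_lit 0)) (xa (xb T0.l9 T0.l9) (xk T0.l11 T0.l11))
  (TrL.c (I.pos (nat_lit 0) (nat_lit 0)) T0.l5
  (TrL.c (I.mix (nat_lit 29511666) (nat_lit 77433728)) (xR T0.l6 T0.l6)
  (TrL.c (I.mix (nat_lit 29511666) (nat_lit 46070178)) (xR T0.l7 T0.l7)
  TrL.n)))))))) (by decide +kernel)
theorem bx0_2 : BoxOK sI cl7 cl7 cl7 t0 t0 b0_2 :=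
  box_mk (TrL.c (I.pos (nat_lit 0) (nat_lit 0)) (xa (xa T0.l8 T0.l8) (xa T0.l8 (xb T0.l8 (xa T0.l8 T0.l8))))
  (TrL.c (I.pos (nat_lit 0) (nat_lit 0)) (xa T0.l1 T0.l1)
  (TrL.c (I.pos (nat_lit 0) (nat_lit 111196574)) (xR T0.l2 T0.l2)
  (TrL.c (I.pos (nat_lit 0) (nat_lit 77433728)) (xR T0.l3 T0.l3)
  (TrL.c (I.pos (nat_lit 0) (nat_lit 0)) (xa T0.l9 T0.l9)
  (TrL.c (I.pos (nat_lit 0) (nat_lit 0)) T0.l5
  (TrL.c (I.mix (nat_lit 29511666) (nat_lit 77433728)) T0.l6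
  (TrL.c (I.mix (nat_lit 29511666) (nat_lit 46070178)) (xR T0.l6 T0.l3)
  TrL.n)))))))) (by decide +kernel)
theorem bx0_3 : BoxOK sI cl7 cl7 cl7 t0 t0 b0_3 :=
  box_mk (TrL.c (I.pos (nat_lit 0) (nat_lit 0)) (xa T0.l8 T0.l8)
  (TrL.c (I.pos (nat_lit 0) (nat_lit 0)) (xa T0.l1 T0.l1)
  (TrL.c (I.pos (nat_lit 0) (nat_lit 111196574)) (xR T0.l2 T0.l2)
  (TrL.c (I.pos (nat_lit 0) (nat_lit 77433728)) (xR T0.l6 (xR T0.l3 T0.l3))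
  (TrL.c (I.pos (nat_lit 0) (nat_lit 0)) (xa T0.l1 T0.l9)
  (TrL.c (I.pos (nat_lit 0) (nat_lit 0)) T0.l5
  (TrL.c (I.mix (nat_lit 29511666) (nat_lit 77433728)) T0.l6
  (TrL.c (I.mix (nat_lit 29511666) (nat_lit 46070178)) T0.l6
  TrL.n)))))))) (by decide +kernel)
theorem bx0_4 : BoxOK sI cl7 cl7 cl7 t0 t0 b0_4 :=
  box_mk (TrL.c (I.pos (nat_lit 0) (nat_lit 0)) (xb (xa (xb (xa T0.l10 T0.l10) (xa T0.l10 T0.l10)) (xb (xa T0.l10 (xb T0.l10 T0.l10)) (xa T0.l10 (xk (xb T0.l10 T0.l10) T0.l10)))) (xa (xb (xa (xb T0.l10 T0.l10) T0.l10) (xa (xs T0.l10 (xb T0.l10 T0.l10)) (xs T0.l10 (xb T0.l10 T0.l10)))) (xb (xa T0.l10 (xs T0.l10 (xb T0.l10 T0.l10))) (xa (xs (xk T0.l10 T0.l10) (xb T0.l10 (xk T0.l10 T0.l10))) (xs (xk T0.l10 T0.l10) (xb (xk T0.l10 T0.l10) (xk T0.l10 T0.l10)))))))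
  (TrL.c (I.pos (nat_lit 0) (nat_lit 0)) (xb (xk (xa T0.l1 T0.l1) T0.l1) (xk (xa T0.l1 T0.l1) (xa T0.l1 T0.l1)))
  (TrL.c (I.pos (nat_lit 0) (nat_lit 111196574)) (xR (xR T0.l2 T0.l2) (xR T0.l2 (xR T0.l2 (xb T0.l2 T0.l2))))
  (TrL.c (I.pos (nat_lit 0) (nat_lit 77433728)) (xR T0.l3 (xR T0.l3 (xR T0.l3 T0.l3)))
  (TrL.c (I.pos (nat_lit 0) (nat_lit 0)) (xb (xk T0.l11 T0.l11) (xk (xa T0.l11 (xb T0.l11 (xs T0.l11 T0.l11))) (xb T0.l11 (xa T0.l11 (xs T0.l11 (xb T0.l11 (xk T0.l11 T0.l11)))))))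
  (TrL.c (I.pos (nat_lit 0) (nat_lit 0)) T0.l5
  (TrL.c (I.mix (nat_lit 29511666) (nat_lit 77433728)) (xR T0.l6 (xR T0.l6 (xR T0.l6 T0.l6)))
  (TrL.c (I.mix (nat_lit 29511666) (nat_lit 46070178)) (xR T0.l7 (xR T0.l7 T0.l7))
  TrL.n)))))))) (by decide +kernel)
theorem bx0_5 : BoxOK sI cl7 cl7 cl7 t0 t0 b0_5 :=
  box_mk (TrL.c (I.pos (nat_lit 0) (nat_lit 0)) (xb (xa T0.l8 T0.l8) (xa T0.l8 T0.l8))
  (TrL.c (I.pos (nat_lit 0) (nat_lit 0)) T0.l1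
  (TrL.c (I.pos (nat_lit 0) (nat_lit 111196574)) (xR T0.l2 T0.l2)
  (TrL.c (I.pos (nat_lit 0) (nat_lit 77433728)) (xR T0.l3 T0.l3)
  (TrL.c (I.pos (nat_lit 0) (nat_lit 0)) (xb (xk T0.l9 T0.l9) T0.l9)
  (TrL.c (I.pos (nat_lit 0) (nat_lit 0)) T0.l5
  (TrL.c (I.mix (nat_lit 29511666) (nat_lit 77433728)) (xR T0.l6 T0.l6)
  (TrL.c (I.mix (nat_lit 29511666) (nat_lit 46070178)) (xR T0.l7 T0.l7)
  TrL.n)))))))) (by decide +kernel)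
theorem bx0_6 : BoxOK sI cl7 cl7 cl7 t0 t0 b0_6 :=
  box_mk (TrL.c (I.pos (nat_lit 0) (nat_lit 0)) (xa (xa (xb T0.l8 (xa T0.l8 T0.l8)) (xb T0.l8 T0.l8)) (xa T0.l8 (xb T0.l8 (xa T0.l8 T0.l8))))
  (TrL.c (I.pos (nat_lit 0) (nat_lit 0)) (xa T0.l1 T0.l1)
  (TrL.c (I.pos (nat_lit 0) (nat_lit 111196574)) (xR T0.l2 T0.l2)
  (TrL.c (I.pos (nat_lit 0) (nat_lit 77433728)) (xR T0.l6 (xR T0.l3 T0.l3))
  (TrL.c (I.pos (nat_lit 0) (nat_lit 0)) (xa T0.l9 T0.l9)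
  (TrL.c (I.pos (nat_lit 0) (nat_lit 0)) T0.l5
  (TrL.c (I.mix (nat_lit 29511666) (nat_lit 77433728)) (xR T0.l6 T0.l6)
  (TrL.c (I.mix (nat_lit 29511666) (nat_lit 46070178)) (xR T0.l6 (xa T0.l2 T0.l7))
  TrL.n)))))))) (by decide +kernel)
theorem bx0_7 : BoxOK sI cl7 cl7 cl7 t0 t0 b0_7 :=
  box_mk (TrL.c (I.pos (nat_lit 0) (nat_lit 0)) (xa (xa (xb T0.l8 T0.l8) T0.l8) T0.l8)
  (TrL.c (I.pos (nat_lit 0) (nat_lit 0)) (xa T0.l9 T0.l1)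
  (TrL.c (I.pos (nat_lit 0) (nat_lit 111196574)) (xR T0.l2 T0.l2)
  (TrL.c (I.pos (nat_lit 0) (nat_lit 77433728)) (xR T0.l2 T0.l6)
  (TrL.c (I.pos (nat_lit 0) (nat_lit 0)) (xa T0.l1 T0.l9)
  (TrL.c (I.pos (nat_lit 0) (nat_lit 0)) T0.l5
  (TrL.c (I.mix (nat_lit 29511666) (nat_lit 77433728)) (xR T0.l6 T0.l6)
  (TrL.c (I.mix (nat_lit 29511666) (nat_lit 46070178)) T0.l6
  TrL.n)))))))) (by decide +kernel)
theorem bx0_8 : BoxOK sI cl7 cl7 cl7 t0 t0 b0_8 :=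
  box_mk (TrL.c (I.pos (nat_lit 0) (nat_lit 0)) (xa (xb (xa (xb T0.l0 T0.l0) (xb T0.l0 T0.l0)) (xa (xb T0.l0 (xc T0.l0 T0.l0)) (xb T0.l0 (xc T0.l0 T0.l0)))) (xb (xa (xb T0.l0 T0.l0) (xb (xa T0.l0 T0.l0) (xa T0.l0 T0.l0))) (xa (xb (xc T0.l0 T0.l0) (xc (xa T0.l0 T0.l0) T0.l0)) (xb (xa T0.l0 (xc T0.l0 (xk T0.l0 T0.l0))) (xa (xc T0.l0 T0.l0) (xc T0.l0 (xs T0.l0 T0.l0)))))))
  (TrL.c (I.pos (nat_lit 0) (nat_lit 0)) (xa (xk (xb T0.l1 T0.l1) (xb T0.l1 T0.l1)) (xk (xb T0.l5 T0.l5) (xb T0.l5 T0.l5)))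
  (TrL.c (I.pos (nat_lit 0) (nat_lit 111196574)) (xR (xR T0.l2 T0.l2) (xR T0.l6 T0.l6))
  (TrL.c (I.pos (nat_lit 0) (nat_lit 77433728)) (xR (xR T0.l3 T0.l3) (xR T0.l3 (xR T0.l3 T0.l3)))
  (TrL.c (I.pos (nat_lit 0) (nat_lit 0)) (xa (xb (xk (xa T0.l4 T0.l4) (xa T0.l4 T0.l4)) (xk (xa T0.l4 T0.l4) T0.l4)) (xb (xk (xa (xb (xk T0.l4 T0.l4) T0.l4) (xb (xk T0.l4 T0.l4) (xk T0.l4 T0.l4))) (xa (xb T0.l4 T0.l4) (xb (xk T0.l4 T0.l4) (xk T0.l4 T0.l4)))) (xk (xa T0.l4 (xb (xk T0.l4 T0.l4) (xk T0.l4 T0.l4))) (xa T0.l4 (xb (xk T0.l4 T0.l4) (xk T0.l4 T0.l4))))))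
  (TrL.c (I.pos (nat_lit 0) (nat_lit 0)) (xk (xa T0.l5 (xb T0.l5 T0.l5)) (xa T0.l5 T0.l5))
  (TrL.c (I.mix (nat_lit 29511666) (nat_lit 77433728)) (xR (xR T0.l6 T0.l6) (xR T0.l6 (xR T0.l6 (xk (xb T0.l6 (xa T0.l6 T0.l6)) T0.l6))))
  (TrL.c (I.mix (nat_lit 29511666) (nat_lit 46070178)) (xR (xR T0.l7 T0.l7) T0.l3)
  TrL.n)))))))) (by decide +kernel)
theorem bx0_9 : BoxOK sI cl7 cl7 cl7 t0 t0 b0_9 :=
  box_mk (TrL.c (I.pos (nat_lit 0) (nat_lit 0)) (xa (xb (xa T0.l10 T0.l10) (xa (xb T0.l10 T0.l10) T0.l10)) (xb T0.l0 T0.l0))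
  (TrL.c (I.pos (nat_lit 0) (nat_lit 0)) (xa T0.l1 T0.l1)
  (TrL.c (I.pos (nat_lit 0) (nat_lit 111196574)) (xR (xR T0.l2 T0.l2) T0.l2)
  (TrL.c (I.pos (nat_lit 0) (nat_lit 77433728)) (xR T0.l3 T0.l3)
  (TrL.c (I.pos (nat_lit 0) (nat_lit 0)) (xb (xa T0.l11 (xk T0.l11 T0.l11)) (xa T0.l11 T0.l4))
  (TrL.c (I.pos (nat_lit 0) (nat_lit 0)) (xk T0.l5 T0.l5)
  (TrL.c (I.mix (nat_lit 29511666) (nat_lit 77433728)) (xR T0.l6 T0.l6)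
  (TrL.c (I.mix (nat_lit 29511666) (nat_lit 46070178)) (xR T0.l7 T0.l3)
  TrL.n)))))))) (by decide +kernel)
theorem bx0_10 : BoxOK sI cl7 cl7 cl7 t0 t0 b0_10 :=
  box_mk (TrL.c (I.pos (nat_lit 0) (nat_lit 0)) (xa (xb (xa (xb T0.l0 (xs T0.l0 T0.l0)) (xb T0.l0 T0.l0)) (xa (xb (xs T0.l0 T0.l0) (xs T0.l10 (xk T0.l0 T0.l0))) (xb (xs T0.l0 T0.l0) (xs T0.l0 (xk T0.l0 T0.l0))))) (xb (xa (xb T0.l0 T0.l0) (xb T0.l0 (xs T0.l0 T0.l0))) (xa (xb (xs T0.l0 (xk T0.l0 T0.l0)) (xs (xk T0.l0 T0.l0) (xk (xa T0.l0 T0.l0) T0.l0))) (xb (xs T0.l0 (xk T0.l0 T0.l0)) (xs (xk T0.l0 T0.l0) (xk T0.l4 (xa T0.l0 T0.l0)))))))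
  (TrL.c (I.pos (nat_lit 0) (nat_lit 0)) (xk (xa T0.l1 (xb T0.l1 T0.l1)) (xa T0.l1 (xb T0.l1 T0.l1)))
  (TrL.c (I.pos (nat_lit 0) (nat_lit 111196574)) (xR (xR T0.l2 T0.l2) (xR T0.l2 (xR T0.l2 (xR T0.l2 T0.l2))))
  (TrL.c (I.pos (nat_lit 0) (nat_lit 77433728)) (xR T0.l3 (xR T0.l3 (xR T0.l3 T0.l3)))
  (TrL.c (I.pos (nat_lit 0) (nat_lit 0)) (xk (xa T0.l4 (xb T0.l4 (xb T0.l4 (xs T0.l4 T0.l4)))) (xa (xb T0.l11 T0.l11) (xb T0.l4 (xb T0.l4 (xs T0.l4 (xk T0.l11 T0.l11))))))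
  (TrL.c (I.pos (nat_lit 0) (nat_lit 0)) T0.l5
  (TrL.c (I.mix (nat_lit 29511666) (nat_lit 77433728)) (xR T0.l6 (xR T0.l6 (xR T0.l6 T0.l6)))
  (TrL.c (I.mix (nat_lit 29511666) (nat_lit 46070178)) (xR (xR T0.l7 T0.l7) (xR T0.l3 T0.l3))
  TrL.n)))))))) (by decide +kernel)
theorem bx0_11 : BoxOK sI cl7 cl7 cl7 t0 t0 b0_11 :=
  box_mk (TrL.c (I.pos (nat_lit 0) (nat_lit 0)) (xa (xb (xb (xa T0.l10 T0.l10) (xa T0.l10 T0.l10)) (xa (xb T0.l10 T0.l10) (xb T0.l10 T0.l10))) (xb (xb (xa T0.l10 T0.l10) (xa T0.l10 T0.l10)) (xa (xb T0.l10 (xs T0.l10 T0.l10)) (xb T0.l10 (xs T0.l10 T0.l10)))))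
  (TrL.c (I.pos (nat_lit 0) (nat_lit 0)) (xk (xb T0.l1 T0.l1) (xb T0.l1 T0.l1))
  (TrL.c (I.pos (nat_lit 0) (nat_lit 111196574)) (xR (xR T0.l2 T0.l2) (xR T0.l2 (xR T0.l2 T0.l2)))
  (TrL.c (I.pos (nat_lit 0) (nat_lit 77433728)) (xR T0.l3 (xR T0.l3 (xR T0.l3 T0.l3)))
  (TrL.c (I.pos (nat_lit 0) (nat_lit 0)) (xb (xk T0.l11 T0.l11) (xk T0.l11 T0.l11))
  (TrL.c (I.pos (nat_lit 0) (nat_lit 0)) T0.l5
  (TrL.c (I.mix (nat_lit 29511666) (nat_lit 77433728)) (xR T0.l6 (xR T0.l6 (xR T0.l6 T0.l6)))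
  (TrL.c (I.mix (nat_lit 29511666) (nat_lit 46070178)) (xR (xR T0.l7 T0.l7) T0.l3)
  TrL.n)))))))) (by decide +kernel)
theorem sv0 : StarV sI cl7 cl7 cl7 t0 t0 t0 :=
  (bt_n (bt_n (bt_n (bt_b bx0_0) (bt_n (bt_b bx0_1) (bt_b bx0_2))) (bt_n (bt_b bx0_3) (bt_n (bt_b bx0_4) (bt_b bx0_5)))) (bt_n (bt_n (bt_b bx0_6) (bt_n (bt_b bx0_7) (bt_b bx0_8))) (bt_n (bt_b bx0_9) (bt_n (bt_b bx0_10) (bt_b bx0_11)))))
def S0 : StarD := StarD.mk cl7 cl7 cl7 0 0 t0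
def G : List StarD := [S0]
theorem so0 : StarOK sI G S0 :=
  star_mk (by decide) (by decide) rfl rfl rfl rfl rfl rfl (rfl : _ = t0) (rfl : _ = t0)
  (st_mk (Pth.l (Pth.l (Pth.l Pth.z))) (nat_lit 141355012) (nat_lit 164118258) (by decide +kernel))
  (st_mk (Pth.l (Pth.l (Pth.l Pth.z))) (nat_lit 177008378) (nat_lit 200274732) (by decide +kernel))
  (st_mk (Pth.l (Pth.l (Pth.l Pth.z))) (nat_lit 218360182) (nat_lit 242324429) (by decide +kernel)) sv0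
theorem ok : GroupOK (nat_lit 209321984) (nat_lit 268435456) G := grp_mk (allS_c so0 allS_n)
theorem cov : GCov G cl7 cl7 cl7 := cov_mk
  ⟨0, by decide, rfl, rfl, rfl⟩ ⟨0, by decide, rfl, rfl, rfl⟩ ⟨0, by decide, rfl, rfl, rfl⟩ ⟨0, by decide, rfl, rfl, rfl⟩ ⟨0, by decide, rfl, rfl, rfl⟩ ⟨0, by decide, rfl, rfl, rfl⟩
end Q444_3

namespace Q445_0
def sI : I := I.pos (nat_lit 0) (nat_lit 91291648)
def b0_0 : Bx := Bx.mk (St.mk (I.pos (nat_lit 156942336) (nat_lit 283672576)) (I.mix (nat_lit 25133056) (nat_lit 61095936)) (I.mix (nat_lit 78970880) (nat_lit 96976896)) (I.pos (nat_lit 136134656) (nat_lit 364494848)) (I.mix (nat_lit 90374144) (nat_lit 61784064)) (I.mix (nat_lit 86441984) (nat_lit 60063744)) (I.mix (nat_lit 131579904) (nat_lit 83099648)))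
  false (nat_lit 14353042)
def b0_1 : Bx := Bx.mk (St.mk (I.mix (nat_lit 36601856) (nat_lit 120963072)) (I.mix (nat_lit 8568832) (nat_lit 39600128)) (I.mix (nat_lit 16728064) (nat_lit 24199168)) (I.pos (nat_lit 36339712) (nat_lit 116195328)) (I.mix (nat_lit 36503552) (nat_lit 35012608)) (I.mix (nat_lit 40615936) (nat_lit 27639808)) (I.mix (nat_lit 29097984) (nat_lit 19070976)))
  false (nat_lit 0)
def b0_2 : Bx := Bx.mk (St.mk (I.pos (nat_lit 94076928) (nat_lit 146194432)) (I.mix (nat_lit 61292544) (nat_lit 9453568)) (I.mix (nat_lit 62095360) (nat_lit 1785856)) (I.pos (nat_lit 79429632) (nat_lit 140640256)) (I.mix (nat_lit 80773120) (nat_lit 27541504)) (I.mix (nat_lit 41254912) (nat_lit 80805888)) (I.mix (nat_lit 30310400) (nat_lit 61865984)))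
  false (nat_lit 0)
def b0_3 : Bx := Bx.mk (St.mk (I.mix (nat_lit 36126720) (nat_lit 70877184)) (I.mix (nat_lit 30359552) (nat_lit 5668864)) (I.mix (nat_lit 18333696) (nat_lit 2883584)) (I.pos (nat_lit 41205760) (nat_lit 81330176)) (I.mix (nat_lit 26673152) (nat_lit 13860864)) (I.mix (nat_lit 13926400) (nat_lit 26361856)) (I.mix (nat_lit 7127040) (nat_lit 10420224)))
  false (nat_lit 0)
def b0_4 : Bx := Bx.mk (St.mk (I.pos (nat_lit 105447424) (nat_lit 173457408)) (I.neg (nat_lit 1474560) (nat_lit 61407232)) (I.neg (nat_lit 16384) (nat_lit 61390848)) (I.pos (nat_lit 99074048) (nat_lit 176275456)) (I.mix (nat_lit 67928064) (nat_lit 39141376)) (I.mix (nat_lit 37732352) (nat_lit 59703296)) (I.mix (nat_lit 30195712) (nat_lit 56492032)))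
  false (nat_lit 0)
def b0_5 : Bx := Bx.mk (St.mk (I.mix (nat_lit 29786112) (nat_lit 83673088)) (I.mix (nat_lit 34750464) (nat_lit 6733824)) (I.mix (nat_lit 23281664) (nat_lit 4014080)) (I.pos (nat_lit 38060032) (nat_lit 89686016)) (I.mix (nat_lit 30048256) (nat_lit 23887872)) (I.mix (nat_lit 19595264) (nat_lit 32866304)) (I.mix (nat_lit 11583488) (nat_lit 17940480)))
  false (nat_lit 0)
def b0_6 : Bx := Bx.mk (St.mk (I.mix (nat_lit 38289408) (nat_lit 109117440)) (I.mix (nat_lit 13172736) (nat_lit 43057152)) (I.mix (nat_lit 18628608) (nat_lit 25018368)) (I.pos (nat_lit 40894464) (nat_lit 105742336)) (I.mix (nat_lit 44728320) (nat_lit 32980992)) (I.mix (nat_lit 46874624) (nat_lit 32489472)) (I.mix (nat_lit 26165248) (nat_lit 17907712)))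
  false (nat_lit 0)
def b0_7 : Bx := Bx.mk (St.mk (I.pos (nat_lit 149356544) (nat_lit 221167616)) (I.mix (nat_lit 43876352) (nat_lit 70647808)) (I.mix (nat_lit 46694400) (nat_lit 105185280)) (I.pos (nat_lit 131907584) (nat_lit 241352704)) (I.mix (nat_lit 120864768) (nat_lit 55115776)) (I.mix (nat_lit 135086080) (nat_lit 73482240)) (I.mix (nat_lit 151846912) (nat_lit 77299712)))
  false (nat_lit 5302657)
def t0 : BTr := (BTr.n (BTr.n (BTr.n (BTr.b b0_0) (BTr.b b0_1)) (BTr.n (BTr.b b0_2) (BTr.b b0_3))) (BTr.n (BTr.n (BTr.b b0_4) (BTr.b b0_5)) (BTr.n (BTr.b b0_6) (BTr.b b0_7))))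
namespace T0
def l0 : Tr := Tr.L (Pth.l (Pth.l (Pth.l Pth.z)))
def l1 : Tr := Tr.L (Pth.l (Pth.l (Pth.r Pth.z)))
def l2 : Tr := Tr.L (Pth.l (Pth.r (Pth.l Pth.z)))
def l3 : Tr := Tr.L (Pth.l (Pth.r (Pth.r Pth.z)))
def l4 : Tr := Tr.L (Pth.r (Pth.l (Pth.l Pth.z)))
def l5 : Tr := Tr.L (Pth.r (Pth.l (Pth.r Pth.z)))
def l6 : Tr := Tr.L (Pth.r (Pth.r (Pth.l Pth.z)))
def l7 : Tr := Tr.L (Pth.r (Pth.r (Pth.r Pth.z)))
end T0
def b1_0 : Bx := Bx.mk (St.mk (I.pos (nat_lit 156958720) (nat_lit 283246592)) (I.mix (nat_lit 23166976) (nat_lit 54771712)) (I.mix (nat_lit 59047936) (nat_lit 97976320)) (I.pos (nat_lit 109166592) (nat_lit 336691200)) (I.mix (nat_lit 85803008) (nat_lit 62177280)) (I.mix (nat_lit 85852160) (nat_lit 60047360)) (I.mix (nat_lit 132874240) (nat_lit 81379328)))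
  false (nat_lit 0)
def b1_1 : Bx := Bx.mk (St.mk (I.pos (nat_lit 118128640) (nat_lit 182059008)) (I.neg (nat_lit 1376256) (nat_lit 57098240)) (I.mix (nat_lit 55869440) (nat_lit 3997696)) (I.pos (nat_lit 84918272) (nat_lit 159924224)) (I.mix (nat_lit 63995904) (nat_lit 36995072)) (I.mix (nat_lit 37371904) (nat_lit 61964288)) (I.mix (nat_lit 31145984) (nat_lit 62783488)))
  false (nat_lit 0)
def b1_2 : Bx := Bx.mk (St.mk (I.mix (nat_lit 33980416) (nat_lit 133627904)) (I.mix (nat_lit 7405568) (nat_lit 33669120)) (I.mix (nat_lit 11010048) (nat_lit 28491776)) (I.pos (nat_lit 14073856) (nat_lit 100827136)) (I.mix (nat_lit 36356096) (nat_lit 29048832)) (I.mix (nat_lit 37552128) (nat_lit 24264704)) (I.mix (nat_lit 30097408) (nat_lit 18759680)))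
  false (nat_lit 0)
def b1_3 : Bx := Bx.mk (St.mk (I.mix (nat_lit 25722880) (nat_lit 104464384)) (I.mix (nat_lit 31096832) (nat_lit 6356992)) (I.mix (nat_lit 21626880) (nat_lit 6242304)) (I.pos (nat_lit 13762560) (nat_lit 75923456)) (I.mix (nat_lit 28164096) (nat_lit 21397504)) (I.mix (nat_lit 17760256) (nat_lit 28426240)) (I.mix (nat_lit 11157504) (nat_lit 17989632)))
  false (nat_lit 0)
def b1_4 : Bx := Bx.mk (St.mk (I.pos (nat_lit 153157632) (nat_lit 222183424)) (I.mix (nat_lit 41664512) (nat_lit 64012288)) (I.mix (nat_lit 40960000) (nat_lit 105168896)) (I.pos (nat_lit 113065984) (nat_lit 216629248)) (I.mix (nat_lit 118308864) (nat_lit 52969472)) (I.mix (nat_lit 139853824) (nat_lit 70402048)) (I.mix (nat_lit 170491904) (nat_lit 77070336)))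
  false (nat_lit 0)
def b1_5 : Bx := Bx.mk (St.mk (I.pos (nat_lit 108036096) (nat_lit 156565504)) (I.mix (nat_lit 56131584) (nat_lit 8503296)) (I.mix (nat_lit 56557568) (nat_lit 7110656)) (I.pos (nat_lit 64077824) (nat_lit 124911616)) (I.mix (nat_lit 77692928) (nat_lit 25870336)) (I.mix (nat_lit 39747584) (nat_lit 81281024)) (I.mix (nat_lit 31096832) (nat_lit 68124672)))
  false (nat_lit 0)
def b1_6 : Bx := Bx.mk (St.mk (I.mix (nat_lit 26722304) (nat_lit 124239872)) (I.mix (nat_lit 13565952) (nat_lit 38912000)) (I.mix (nat_lit 12091392) (nat_lit 29835264)) (I.pos (nat_lit 15728640) (nat_lit 90963968)) (I.mix (nat_lit 48218112) (nat_lit 27164672)) (I.mix (nat_lit 47153152) (nat_lit 30621696)) (I.mix (nat_lit 30212096) (nat_lit 19234816)))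
  false (nat_lit 0)
def b1_7 : Bx := Bx.mk (St.mk (I.mix (nat_lit 19496960) (nat_lit 93487104)) (I.neg (nat_lit 540672) (nat_lit 25935872)) (I.mix (nat_lit 17252352) (nat_lit 3702784)) (I.pos (nat_lit 16285696) (nat_lit 67305472)) (I.mix (nat_lit 25542656) (nat_lit 11550720)) (I.mix (nat_lit 12599296) (nat_lit 21938176)) (I.mix (nat_lit 6701056) (nat_lit 11337728)))
  false (nat_lit 0)
def t1 : BTr := (BTr.n (BTr.n (BTr.n (BTr.b b1_0) (BTr.b b1_1)) (BTr.n (BTr.b b1_2) (BTr.b b1_3))) (BTr.n (BTr.n (BTr.b b1_4) (BTr.b b1_5)) (BTr.n (BTr.b b1_6) (BTr.b b1_7))))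
namespace T1
def l0 : Tr := Tr.L (Pth.l (Pth.l (Pth.l Pth.z)))
def l1 : Tr := Tr.L (Pth.l (Pth.l (Pth.r Pth.z)))
def l2 : Tr := Tr.L (Pth.l (Pth.r (Pth.l Pth.z)))
def l3 : Tr := Tr.L (Pth.l (Pth.r (Pth.r Pth.z)))
def l4 : Tr := Tr.L (Pth.r (Pth.l (Pth.l Pth.z)))
def l5 : Tr := Tr.L (Pth.r (Pth.l (Pth.r Pth.z)))
def l6 : Tr := Tr.L (Pth.r (Pth.r (Pth.l Pth.z)))
def l7 : Tr := Tr.L (Pth.r (Pth.r (Pth.r Pth.z)))
end T1
def b2_0 : Bx := Bx.mk (St.mk (I.pos (nat_lit 157007872) (nat_lit 282591232)) (I.mix (nat_lit 22265856) (nat_lit 59047936)) (I.mix (nat_lit 56655872) (nat_lit 105168896)) (I.pos (nat_lit 135905280) (nat_lit 360742912)) (I.mix (nat_lit 92504064) (nat_lit 62537728)) (I.mix (nat_lit 91750400) (nat_lit 62160896)) (I.mix (nat_lit 139558912) (nat_lit 77938688)))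
  false (nat_lit 32263773)
def b2_1 : Bx := Bx.mk (St.mk (I.pos (nat_lit 108183552) (nat_lit 176144384)) (I.neg (nat_lit 2818048) (nat_lit 61751296)) (I.mix (nat_lit 56279040) (nat_lit 9437184)) (I.pos (nat_lit 101056512) (nat_lit 178487296)) (I.mix (nat_lit 65519616) (nat_lit 40484864)) (I.mix (nat_lit 38305792) (nat_lit 63815680)) (I.mix (nat_lit 31834112) (nat_lit 60440576)))
  false (nat_lit 0)
def b2_2 : Bx := Bx.mk (St.mk (I.mix (nat_lit 30261248) (nat_lit 85245952)) (I.mix (nat_lit 35176448) (nat_lit 6881280)) (I.mix (nat_lit 19070976) (nat_lit 8486912)) (I.pos (nat_lit 37355520) (nat_lit 90161152)) (I.mix (nat_lit 27525120) (nat_lit 25657344)) (I.mix (nat_lit 19824640) (nat_lit 30769152)) (I.mix (nat_lit 10993664) (nat_lit 16318464)))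
  false (nat_lit 0)
def b2_3 : Bx := Bx.mk (St.mk (I.pos (nat_lit 147341312) (nat_lit 219463680)) (I.mix (nat_lit 41877504) (nat_lit 67174400)) (I.mix (nat_lit 36257792) (nat_lit 110575616)) (I.pos (nat_lit 130990080) (nat_lit 237748224)) (I.mix (nat_lit 118636544) (nat_lit 55132160)) (I.mix (nat_lit 134184960) (nat_lit 71991296)) (I.mix (nat_lit 154845184) (nat_lit 74727424)))
  false (nat_lit 17400180)
def b2_4 : Bx := Bx.mk (St.mk (I.mix (nat_lit 39190528) (nat_lit 107708416)) (I.mix (nat_lit 13271040) (nat_lit 43253760)) (I.mix (nat_lit 12779520) (nat_lit 29507584)) (I.pos (nat_lit 40763392) (nat_lit 104906752)) (I.mix (nat_lit 47841280) (nat_lit 29261824)) (I.mix (nat_lit 47316992) (nat_lit 31309824)) (I.mix (nat_lit 26492928) (nat_lit 17514496)))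
  false (nat_lit 0)
def b2_5 : Bx := Bx.mk (St.mk (I.mix (nat_lit 38567936) (nat_lit 119554048)) (I.mix (nat_lit 7077888) (nat_lit 39272448)) (I.mix (nat_lit 10600448) (nat_lit 29802496)) (I.pos (nat_lit 35962880) (nat_lit 115179520)) (I.mix (nat_lit 39600128) (nat_lit 33161216)) (I.mix (nat_lit 43139072) (nat_lit 27279360)) (I.mix (nat_lit 31227904) (nat_lit 20070400)))
  false (nat_lit 0)
def b2_6 : Bx := Bx.mk (St.mk (I.pos (nat_lit 95010816) (nat_lit 148291584)) (I.mix (nat_lit 62029824) (nat_lit 8355840)) (I.mix (nat_lit 56770560) (nat_lit 6193152)) (I.pos (nat_lit 80330752) (nat_lit 142278656)) (I.mix (nat_lit 76890112) (nat_lit 28540928)) (I.mix (nat_lit 42057728) (nat_lit 76513280)) (I.mix (nat_lit 30982144) (nat_lit 57786368)))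
  false (nat_lit 0)
def b2_7 : Bx := Bx.mk (St.mk (I.mix (nat_lit 35389440) (nat_lit 72253440)) (I.mix (nat_lit 30277632) (nat_lit 3145728)) (I.mix (nat_lit 14942208) (nat_lit 6881280)) (I.pos (nat_lit 41320448) (nat_lit 81674240)) (I.mix (nat_lit 25870336) (nat_lit 16875520)) (I.mix (nat_lit 16269312) (nat_lit 28278784)) (I.mix (nat_lit 7634944) (nat_lit 10895360)))
  false (nat_lit 0)
def t2 : BTr := (BTr.n (BTr.n (BTr.n (BTr.b b2_0) (BTr.b b2_1)) (BTr.n (BTr.b b2_2) (BTr.b b2_3))) (BTr.n (BTr.n (BTr.b b2_4) (BTr.b b2_5)) (BTr.n (BTr.b b2_6) (BTr.b b2_7))))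
namespace T2
def l0 : Tr := Tr.L (Pth.l (Pth.l (Pth.l Pth.z)))
def l1 : Tr := Tr.L (Pth.l (Pth.l (Pth.r Pth.z)))
def l2 : Tr := Tr.L (Pth.l (Pth.r (Pth.l Pth.z)))
def l3 : Tr := Tr.L (Pth.l (Pth.r (Pth.r Pth.z)))
def l4 : Tr := Tr.L (Pth.r (Pth.l (Pth.l Pth.z)))
def l5 : Tr := Tr.L (Pth.r (Pth.l (Pth.r Pth.z)))
def l6 : Tr := Tr.L (Pth.r (Pth.r (Pth.l Pth.z)))
def l7 : Tr := Tr.L (Pth.r (Pth.r (Pth.r Pth.z)))
end T2
theorem bx0_0 : BoxOK sI cl7 cl7 cl9 t0 t2 b0_0 :=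
  box_mk (TrL.c (I.pos (nat_lit 0) (nat_lit 0)) (xa (xa T0.l0 T0.l0) (xa T0.l0 T0.l0))
  (TrL.c (I.pos (nat_lit 0) (nat_lit 0)) (xa T2.l1 T2.l6)
  (TrL.c (I.pos (nat_lit 0) (nat_lit 111196574)) T0.l1
  (TrL.c (I.pos (nat_lit 0) (nat_lit 77433728)) T2.l2
  (TrL.c (I.pos (nat_lit 0) (nat_lit 0)) (xa T2.l3 (xb (xk (xa T2.l3 (xb T2.l3 T2.l3)) (xa T2.l3 (xb T2.l3 T2.l3))) (xk (xa T2.l3 (xs (xk T2.l3 T2.l3) (xk T2.l3 T2.l3))) (xa T2.l3 (xs (xk T2.l3 T2.l3) (xk T2.l3 T2.l3))))))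
  (TrL.c (I.pos (nat_lit 0) (nat_lit 0)) T0.l2
  (TrL.c (I.mix (nat_lit 29511666) (nat_lit 77433728)) T2.l4
  (TrL.c (I.mix (nat_lit 29511666) (nat_lit 46070178)) T0.l5
  TrL.n)))))))) (by decide +kernel)
theorem bx0_1 : BoxOK sI cl7 cl7 cl9 t0 t2 b0_1 :=
  box_mk (TrL.c (I.pos (nat_lit 0) (nat_lit 0)) (xa T0.l0 T0.l0)
  (TrL.c (I.pos (nat_lit 0) (nat_lit 0)) T2.l1
  (TrL.c (I.pos (nat_lit 0) (nat_lit 111196574)) T0.l1
  (TrL.c (I.pos (nat_lit 0) (nat_lit 77433728)) T2.l2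
  (TrL.c (I.pos (nat_lit 0) (nat_lit 0)) (xa T2.l3 T2.l3)
  (TrL.c (I.pos (nat_lit 0) (nat_lit 0)) T0.l2
  (TrL.c (I.mix (nat_lit 29511666) (nat_lit 77433728)) T2.l4
  (TrL.c (I.mix (nat_lit 29511666) (nat_lit 46070178)) T0.l3
  TrL.n)))))))) (by decide +kernel)
theorem bx0_2 : BoxOK sI cl7 cl7 cl9 t0 t2 b0_2 :=
  box_mk (TrL.c (I.pos (nat_lit 0) (nat_lit 0)) T0.l0
  (TrL.c (I.pos (nat_lit 0) (nat_lit 0)) T2.l1
  (TrL.c (I.pos (nat_lit 0) (nat_lit 111196574)) T0.l1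
  (TrL.c (I.pos (nat_lit 0) (nat_lit 77433728)) T2.l2
  (TrL.c (I.pos (nat_lit 0) (nat_lit 0)) T2.l3
  (TrL.c (I.pos (nat_lit 0) (nat_lit 0)) T0.l2
  (TrL.c (I.mix (nat_lit 29511666) (nat_lit 77433728)) T2.l4
  (TrL.c (I.mix (nat_lit 29511666) (nat_lit 46070178)) T0.l3
  TrL.n)))))))) (by decide +kernel)
theorem bx0_3 : BoxOK sI cl7 cl7 cl9 t0 t2 b0_3 :=
  box_mk (TrL.c (I.pos (nat_lit 0) (nat_lit 0)) (xa (xa T0.l0 T0.l0) T0.l0)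
  (TrL.c (I.pos (nat_lit 0) (nat_lit 0)) T2.l1
  (TrL.c (I.pos (nat_lit 0) (nat_lit 111196574)) T0.l1
  (TrL.c (I.pos (nat_lit 0) (nat_lit 77433728)) T2.l2
  (TrL.c (I.pos (nat_lit 0) (nat_lit 0)) T2.l3
  (TrL.c (I.pos (nat_lit 0) (nat_lit 0)) T0.l2
  (TrL.c (I.mix (nat_lit 29511666) (nat_lit 77433728)) T2.l4
  (TrL.c (I.mix (nat_lit 29511666) (nat_lit 46070178)) T0.l3
  TrL.n)))))))) (by decide +kernel)
theorem bx0_4 : BoxOK sI cl7 cl7 cl9 t0 t2 b0_4 :=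
  box_mk (TrL.c (I.pos (nat_lit 0) (nat_lit 0)) T0.l0
  (TrL.c (I.pos (nat_lit 0) (nat_lit 0)) T2.l1
  (TrL.c (I.pos (nat_lit 0) (nat_lit 111196574)) T0.l1
  (TrL.c (I.pos (nat_lit 0) (nat_lit 77433728)) T2.l2
  (TrL.c (I.pos (nat_lit 0) (nat_lit 0)) T2.l3
  (TrL.c (I.pos (nat_lit 0) (nat_lit 0)) T0.l2
  (TrL.c (I.mix (nat_lit 29511666) (nat_lit 77433728)) T2.l4
  (TrL.c (I.mix (nat_lit 29511666) (nat_lit 46070178)) T0.l3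
  TrL.n)))))))) (by decide +kernel)
theorem bx0_5 : BoxOK sI cl7 cl7 cl9 t0 t2 b0_5 :=
  box_mk (TrL.c (I.pos (nat_lit 0) (nat_lit 0)) (xa T0.l0 T0.l0)
  (TrL.c (I.pos (nat_lit 0) (nat_lit 0)) T2.l1
  (TrL.c (I.pos (nat_lit 0) (nat_lit 111196574)) T0.l1
  (TrL.c (I.pos (nat_lit 0) (nat_lit 77433728)) T2.l2
  (TrL.c (I.pos (nat_lit 0) (nat_lit 0)) T2.l3
  (TrL.c (I.pos (nat_lit 0) (nat_lit 0)) T0.l2
  (TrL.c (I.mix (nat_lit 29511666) (nat_lit 77433728)) T2.l4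
  (TrL.c (I.mix (nat_lit 29511666) (nat_lit 46070178)) T0.l3
  TrL.n)))))))) (by decide +kernel)
theorem bx0_6 : BoxOK sI cl7 cl7 cl9 t0 t2 b0_6 :=
  box_mk (TrL.c (I.pos (nat_lit 0) (nat_lit 0)) (xa (xa T0.l0 T0.l0) T0.l0)
  (TrL.c (I.pos (nat_lit 0) (nat_lit 0)) T2.l1
  (TrL.c (I.pos (nat_lit 0) (nat_lit 111196574)) T0.l1
  (TrL.c (I.pos (nat_lit 0) (nat_lit 77433728)) T2.l2
  (TrL.c (I.pos (nat_lit 0) (nat_lit 0)) (xa T2.l3 T2.l3)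
  (TrL.c (I.pos (nat_lit 0) (nat_lit 0)) T0.l2
  (TrL.c (I.mix (nat_lit 29511666) (nat_lit 77433728)) T2.l4
  (TrL.c (I.mix (nat_lit 29511666) (nat_lit 46070178)) T0.l3
  TrL.n)))))))) (by decide +kernel)
theorem bx0_7 : BoxOK sI cl7 cl7 cl9 t0 t2 b0_7 :=
  box_mk (TrL.c (I.pos (nat_lit 0) (nat_lit 0)) (xb (xa T0.l0 T0.l0) (xa (xs T0.l0 T0.l0) T0.l0))
  (TrL.c (I.pos (nat_lit 0) (nat_lit 0)) T2.l1
  (TrL.c (I.pos (nat_lit 0) (nat_lit 111196574)) T0.l1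
  (TrL.c (I.pos (nat_lit 0) (nat_lit 77433728)) T2.l2
  (TrL.c (I.pos (nat_lit 0) (nat_lit 0)) (xb (xa T2.l3 T2.l3) (xa T2.l3 (xk T2.l3 T2.l3)))
  (TrL.c (I.pos (nat_lit 0) (nat_lit 0)) T0.l2
  (TrL.c (I.mix (nat_lit 29511666) (nat_lit 77433728)) T2.l4
  (TrL.c (I.mix (nat_lit 29511666) (nat_lit 46070178)) T0.l5
  TrL.n)))))))) (by decide +kernel)
theorem sv0 : StarV sI cl7 cl7 cl9 t0 t2 t0 :=
  (bt_n (bt_n (bt_n (bt_b bx0_0) (bt_b bx0_1)) (bt_n (bt_b bx0_2) (bt_b bx0_3))) (bt_n (bt_n (bt_b bx0_4) (bt_b bx0_5)) (bt_n (bt_b bx0_6) (bt_b bx0_7))))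
def S0 : StarD := StarD.mk cl7 cl7 cl9 0 2 t0
theorem bx1_0 : BoxOK sI cl7 cl9 cl7 t2 t0 b1_0 :=
  box_mk (TrL.c (I.pos (nat_lit 0) (nat_lit 0)) (xa (xa T2.l0 T2.l0) (xa T2.l0 T2.l0))
  (TrL.c (I.pos (nat_lit 0) (nat_lit 0)) (xa T0.l4 T0.l4)
  (TrL.c (I.pos (nat_lit 0) (nat_lit 111196574)) T2.l5
  (TrL.c (I.pos (nat_lit 0) (nat_lit 77433728)) T0.l5
  (TrL.c (I.pos (nat_lit 0) (nat_lit 0)) (xa T0.l7 (xk (xb (xa T0.l7 (xb T0.l7 T0.l7)) (xa T0.l7 (xk T0.l7 T0.l7))) (xb (xa T0.l7 (xb T0.l7 T0.l7)) (xa T0.l7 (xs (xa T0.l7 T0.l7) (xa T0.l7 T0.l7))))))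
  (TrL.c (I.pos (nat_lit 0) (nat_lit 0)) T2.l6
  (TrL.c (I.mix (nat_lit 29511666) (nat_lit 77433728)) T0.l6
  (TrL.c (I.mix (nat_lit 29511666) (nat_lit 46070178)) T2.l2
  TrL.n)))))))) (by decide +kernel)
theorem bx1_1 : BoxOK sI cl7 cl9 cl7 t2 t0 b1_1 :=
  box_mk (TrL.c (I.pos (nat_lit 0) (nat_lit 0)) T2.l0
  (TrL.c (I.pos (nat_lit 0) (nat_lit 0)) T0.l4
  (TrL.c (I.pos (nat_lit 0) (nat_lit 111196574)) T2.l5
  (TrL.c (I.pos (nat_lit 0) (nat_lit 77433728)) T0.l5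
  (TrL.c (I.pos (nat_lit 0) (nat_lit 0)) T0.l7
  (TrL.c (I.pos (nat_lit 0) (nat_lit 0)) T2.l6
  (TrL.c (I.mix (nat_lit 29511666) (nat_lit 77433728)) T0.l6
  (TrL.c (I.mix (nat_lit 29511666) (nat_lit 46070178)) T2.l7
  TrL.n)))))))) (by decide +kernel)
theorem bx1_2 : BoxOK sI cl7 cl9 cl7 t2 t0 b1_2 :=
  box_mk (TrL.c (I.pos (nat_lit 0) (nat_lit 0)) (xa (xa (xa T2.l0 T2.l0) T2.l0) T2.l0)
  (TrL.c (I.pos (nat_lit 0) (nat_lit 0)) (xa T0.l4 T0.l4)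
  (TrL.c (I.pos (nat_lit 0) (nat_lit 111196574)) T2.l5
  (TrL.c (I.pos (nat_lit 0) (nat_lit 77433728)) T0.l5
  (TrL.c (I.pos (nat_lit 0) (nat_lit 0)) (xa T0.l7 T0.l7)
  (TrL.c (I.pos (nat_lit 0) (nat_lit 0)) T2.l6
  (TrL.c (I.mix (nat_lit 29511666) (nat_lit 77433728)) T0.l6
  (TrL.c (I.mix (nat_lit 29511666) (nat_lit 46070178)) T2.l4
  TrL.n)))))))) (by decide +kernel)
theorem bx1_3 : BoxOK sI cl7 cl9 cl7 t2 t0 b1_3 :=
  box_mk (TrL.c (I.pos (nat_lit 0) (nat_lit 0)) (xa (xa T2.l0 T2.l0) T2.l0)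
  (TrL.c (I.pos (nat_lit 0) (nat_lit 0)) T0.l4
  (TrL.c (I.pos (nat_lit 0) (nat_lit 111196574)) T2.l5
  (TrL.c (I.pos (nat_lit 0) (nat_lit 77433728)) T0.l5
  (TrL.c (I.pos (nat_lit 0) (nat_lit 0)) T0.l7
  (TrL.c (I.pos (nat_lit 0) (nat_lit 0)) T2.l6
  (TrL.c (I.mix (nat_lit 29511666) (nat_lit 77433728)) T0.l6
  (TrL.c (I.mix (nat_lit 29511666) (nat_lit 46070178)) T2.l4
  TrL.n)))))))) (by decide +kernel)
theorem bx1_4 : BoxOK sI cl7 cl9 cl7 t2 t0 b1_4 :=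
  box_mk (TrL.c (I.pos (nat_lit 0) (nat_lit 0)) (xa (xb T2.l0 (xs T2.l0 (xb T2.l0 T2.l0))) (xb T2.l0 T2.l0))
  (TrL.c (I.pos (nat_lit 0) (nat_lit 0)) (xb T0.l4 T0.l4)
  (TrL.c (I.pos (nat_lit 0) (nat_lit 111196574)) T2.l5
  (TrL.c (I.pos (nat_lit 0) (nat_lit 77433728)) T0.l5
  (TrL.c (I.pos (nat_lit 0) (nat_lit 0)) (xb (xa T0.l7 T0.l7) (xa T0.l7 (xk T0.l7 T0.l7)))
  (TrL.c (I.pos (nat_lit 0) (nat_lit 0)) T2.l6
  (TrL.c (I.mix (nat_lit 29511666) (nat_lit 77433728)) T0.l6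
  (TrL.c (I.mix (nat_lit 29511666) (nat_lit 46070178)) T2.l2
  TrL.n)))))))) (by decide +kernel)
theorem bx1_5 : BoxOK sI cl7 cl9 cl7 t2 t0 b1_5 :=
  box_mk (TrL.c (I.pos (nat_lit 0) (nat_lit 0)) T2.l0
  (TrL.c (I.pos (nat_lit 0) (nat_lit 0)) T0.l4
  (TrL.c (I.pos (nat_lit 0) (nat_lit 111196574)) T2.l5
  (TrL.c (I.pos (nat_lit 0) (nat_lit 77433728)) T0.l5
  (TrL.c (I.pos (nat_lit 0) (nat_lit 0)) T0.l7
  (TrL.c (I.pos (nat_lit 0) (nat_lit 0)) T2.l6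
  (TrL.c (I.mix (nat_lit 29511666) (nat_lit 77433728)) T0.l6
  (TrL.c (I.mix (nat_lit 29511666) (nat_lit 46070178)) T2.l7
  TrL.n)))))))) (by decide +kernel)
theorem bx1_6 : BoxOK sI cl7 cl9 cl7 t2 t0 b1_6 :=
  box_mk (TrL.c (I.pos (nat_lit 0) (nat_lit 0)) (xa T2.l0 T2.l0)
  (TrL.c (I.pos (nat_lit 0) (nat_lit 0)) (xa T0.l4 T0.l4)
  (TrL.c (I.pos (nat_lit 0) (nat_lit 111196574)) T2.l5
  (TrL.c (I.pos (nat_lit 0) (nat_lit 77433728)) T0.l5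
  (TrL.c (I.pos (nat_lit 0) (nat_lit 0)) (xa T0.l7 T0.l7)
  (TrL.c (I.pos (nat_lit 0) (nat_lit 0)) T2.l6
  (TrL.c (I.mix (nat_lit 29511666) (nat_lit 77433728)) T0.l6
  (TrL.c (I.mix (nat_lit 29511666) (nat_lit 46070178)) T2.l4
  TrL.n)))))))) (by decide +kernel)
theorem bx1_7 : BoxOK sI cl7 cl9 cl7 t2 t0 b1_7 :=
  box_mk (TrL.c (I.pos (nat_lit 0) (nat_lit 0)) T2.l0
  (TrL.c (I.pos (nat_lit 0) (nat_lit 0)) T0.l4
  (TrL.c (I.pos (nat_lit 0) (nat_lit 111196574)) T2.l5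
  (TrL.c (I.pos (nat_lit 0) (nat_lit 77433728)) T0.l5
  (TrL.c (I.pos (nat_lit 0) (nat_lit 0)) T0.l7
  (TrL.c (I.pos (nat_lit 0) (nat_lit 0)) T2.l6
  (TrL.c (I.mix (nat_lit 29511666) (nat_lit 77433728)) T0.l6
  (TrL.c (I.mix (nat_lit 29511666) (nat_lit 46070178)) T2.l4
  TrL.n)))))))) (by decide +kernel)
theorem sv1 : StarV sI cl7 cl9 cl7 t2 t0 t1 :=
  (bt_n (bt_n (bt_n (bt_b bx1_0) (bt_b bx1_1)) (bt_n (bt_b bx1_2) (bt_b bx1_3))) (bt_n (bt_n (bt_b bx1_4) (bt_b bx1_5)) (bt_n (bt_b bx1_6) (bt_b bx1_7))))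
def S1 : StarD := StarD.mk cl7 cl9 cl7 2 0 t1
theorem bx2_0 : BoxOK sI cl9 cl7 cl7 t1 t1 b2_0 :=
  box_mk (TrL.c (I.pos (nat_lit 0) (nat_lit 0)) (xa (xa T1.l0 T1.l0) (xa T1.l0 T1.l0))
  (TrL.c (I.pos (nat_lit 0) (nat_lit 0)) (xa T1.l1 T1.l1)
  (TrL.c (I.pos (nat_lit 0) (nat_lit 124588530)) T1.l2
  (TrL.c (I.pos (nat_lit 0) (nat_lit 96881482)) T1.l3
  (TrL.c (I.pos (nat_lit 0) (nat_lit 0)) (xa T1.l4 (xa (xb (xk T1.l4 T1.l4) T1.l4) (xk (xb (xb T1.l4 T1.l4) (xs (xa T1.l4 T1.l4) (xa T1.l4 T1.l4))) (xb (xb T1.l4 T1.l4) (xs (xa T1.l4 T1.l4) (xa T1.l4 T1.l4))))))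
  (TrL.c (I.pos (nat_lit 0) (nat_lit 0)) T1.l5
  (TrL.c (I.mix (nat_lit 17240550) (nat_lit 96881482)) T1.l6
  (TrL.c (I.mix (nat_lit 17240550) (nat_lit 71940500)) T1.l3
  TrL.n)))))))) (by decide +kernel)
theorem bx2_1 : BoxOK sI cl9 cl7 cl7 t1 t1 b2_1 :=
  box_mk (TrL.c (I.pos (nat_lit 0) (nat_lit 0)) T1.l0
  (TrL.c (I.pos (nat_lit 0) (nat_lit 0)) T1.l1
  (TrL.c (I.pos (nat_lit 0) (nat_lit 124588530)) T1.l2
  (TrL.c (I.pos (nat_lit 0) (nat_lit 96881482)) T1.l3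
  (TrL.c (I.pos (nat_lit 0) (nat_lit 0)) T1.l4
  (TrL.c (I.pos (nat_lit 0) (nat_lit 0)) T1.l5
  (TrL.c (I.mix (nat_lit 17240550) (nat_lit 96881482)) T1.l6
  (TrL.c (I.mix (nat_lit 17240550) (nat_lit 71940500)) T1.l7
  TrL.n)))))))) (by decide +kernel)
theorem bx2_2 : BoxOK sI cl9 cl7 cl7 t1 t1 b2_2 :=
  box_mk (TrL.c (I.pos (nat_lit 0) (nat_lit 0)) (xa (xa T1.l0 T1.l0) T1.l0)
  (TrL.c (I.pos (nat_lit 0) (nat_lit 0)) T1.l1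
  (TrL.c (I.pos (nat_lit 0) (nat_lit 124588530)) T1.l2
  (TrL.c (I.pos (nat_lit 0) (nat_lit 96881482)) T1.l3
  (TrL.c (I.pos (nat_lit 0) (nat_lit 0)) T1.l4
  (TrL.c (I.pos (nat_lit 0) (nat_lit 0)) T1.l5
  (TrL.c (I.mix (nat_lit 17240550) (nat_lit 96881482)) T1.l6
  (TrL.c (I.mix (nat_lit 17240550) (nat_lit 71940500)) T1.l2
  TrL.n)))))))) (by decide +kernel)
theorem bx2_3 : BoxOK sI cl9 cl7 cl7 t1 t1 b2_3 :=
  box_mk (TrL.c (I.pos (nat_lit 0) (nat_lit 0)) (xa (xb T1.l0 T1.l0) (xb T1.l0 T1.l0))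
  (TrL.c (I.pos (nat_lit 0) (nat_lit 0)) T1.l1
  (TrL.c (I.pos (nat_lit 0) (nat_lit 124588530)) T1.l2
  (TrL.c (I.pos (nat_lit 0) (nat_lit 96881482)) T1.l3
  (TrL.c (I.pos (nat_lit 0) (nat_lit 0)) (xb (xa T1.l4 T1.l4) T1.l4)
  (TrL.c (I.pos (nat_lit 0) (nat_lit 0)) T1.l5
  (TrL.c (I.mix (nat_lit 17240550) (nat_lit 96881482)) T1.l6
  (TrL.c (I.mix (nat_lit 17240550) (nat_lit 71940500)) T1.l3
  TrL.n)))))))) (by decide +kernel)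
theorem bx2_4 : BoxOK sI cl9 cl7 cl7 t1 t1 b2_4 :=
  box_mk (TrL.c (I.pos (nat_lit 0) (nat_lit 0)) (xa (xa T1.l0 T1.l0) T1.l0)
  (TrL.c (I.pos (nat_lit 0) (nat_lit 0)) T1.l1
  (TrL.c (I.pos (nat_lit 0) (nat_lit 124588530)) T1.l2
  (TrL.c (I.pos (nat_lit 0) (nat_lit 96881482)) T1.l3
  (TrL.c (I.pos (nat_lit 0) (nat_lit 0)) T1.l4
  (TrL.c (I.pos (nat_lit 0) (nat_lit 0)) T1.l5
  (TrL.c (I.mix (nat_lit 17240550) (nat_lit 96881482)) T1.l6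
  (TrL.c (I.mix (nat_lit 17240550) (nat_lit 71940500)) T1.l3
  TrL.n)))))))) (by decide +kernel)
theorem bx2_5 : BoxOK sI cl9 cl7 cl7 t1 t1 b2_5 :=
  box_mk (TrL.c (I.pos (nat_lit 0) (nat_lit 0)) (xa T1.l0 T1.l0)
  (TrL.c (I.pos (nat_lit 0) (nat_lit 0)) T1.l1
  (TrL.c (I.pos (nat_lit 0) (nat_lit 124588530)) T1.l2
  (TrL.c (I.pos (nat_lit 0) (nat_lit 96881482)) T1.l3
  (TrL.c (I.pos (nat_lit 0) (nat_lit 0)) (xa T1.l4 T1.l4)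
  (TrL.c (I.pos (nat_lit 0) (nat_lit 0)) T1.l5
  (TrL.c (I.mix (nat_lit 17240550) (nat_lit 96881482)) T1.l6
  (TrL.c (I.mix (nat_lit 17240550) (nat_lit 71940500)) T1.l3
  TrL.n)))))))) (by decide +kernel)
theorem bx2_6 : BoxOK sI cl9 cl7 cl7 t1 t1 b2_6 :=
  box_mk (TrL.c (I.pos (nat_lit 0) (nat_lit 0)) T1.l0
  (TrL.c (I.pos (nat_lit 0) (nat_lit 0)) T1.l1
  (TrL.c (I.pos (nat_lit 0) (nat_lit 124588530)) T1.l2
  (TrL.c (I.pos (nat_lit 0) (nat_lit 96881482)) T1.l3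
  (TrL.c (I.pos (nat_lit 0) (nat_lit 0)) T1.l4
  (TrL.c (I.pos (nat_lit 0) (nat_lit 0)) T1.l5
  (TrL.c (I.mix (nat_lit 17240550) (nat_lit 96881482)) T1.l6
  (TrL.c (I.mix (nat_lit 17240550) (nat_lit 71940500)) T1.l3
  TrL.n)))))))) (by decide +kernel)
theorem bx2_7 : BoxOK sI cl9 cl7 cl7 t1 t1 b2_7 :=
  box_mk (TrL.c (I.pos (nat_lit 0) (nat_lit 0)) (xa T1.l0 T1.l0)
  (TrL.c (I.pos (nat_lit 0) (nat_lit 0)) T1.l1
  (TrL.c (I.pos (nat_lit 0) (nat_lit 124588530)) T1.l2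
  (TrL.c (I.pos (nat_lit 0) (nat_lit 96881482)) T1.l3
  (TrL.c (I.pos (nat_lit 0) (nat_lit 0)) T1.l4
  (TrL.c (I.pos (nat_lit 0) (nat_lit 0)) T1.l5
  (TrL.c (I.mix (nat_lit 17240550) (nat_lit 96881482)) T1.l6
  (TrL.c (I.mix (nat_lit 17240550) (nat_lit 71940500)) T1.l2
  TrL.n)))))))) (by decide +kernel)
theorem sv2 : StarV sI cl9 cl7 cl7 t1 t1 t2 :=
  (bt_n (bt_n (bt_n (bt_b bx2_0) (bt_b bx2_1)) (bt_n (bt_b bx2_2) (bt_b bx2_3))) (bt_n (bt_n (bt_b bx2_4) (bt_b bx2_5)) (bt_n (bt_b bx2_6) (bt_b bx2_7))))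
def S2 : StarD := StarD.mk cl9 cl7 cl7 1 1 t2
def G : List StarD := [S0, S1, S2]
theorem so0 : StarOK sI G S0 :=
  star_mk (by decide) (by decide) rfl rfl rfl rfl rfl rfl (rfl : _ = t0) (rfl : _ = t2)
  (st_mk (Pth.l (Pth.l (Pth.l Pth.z))) (nat_lit 140717663) (nat_lit 163191060) (by decide +kernel))
  (st_mk (Pth.l (Pth.l (Pth.l Pth.z))) (nat_lit 176013953) (nat_lit 198879331) (by decide +kernel))
  (st_mk (Pth.l (Pth.l (Pth.l Pth.z))) (nat_lit 216850995) (nat_lit 240260939) (by decide +kernel)) sv0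
theorem so1 : StarOK sI G S1 :=
  star_mk (by decide) (by decide) rfl rfl rfl rfl rfl rfl (rfl : _ = t2) (rfl : _ = t0)
  (st_mk (Pth.l (Pth.l (Pth.l Pth.z))) (nat_lit 115612519) (nat_lit 134240166) (by decide +kernel))
  (st_mk (Pth.l (Pth.l (Pth.l Pth.z))) (nat_lit 150873689) (nat_lit 169869040) (by decide +kernel))
  (st_mk (Pth.l (Pth.l (Pth.l Pth.z))) (nat_lit 191680612) (nat_lit 211199928) (by decide +kernel)) sv1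
theorem so2 : StarOK sI G S2 :=
  star_mk (by decide) (by decide) rfl rfl rfl rfl rfl rfl (rfl : _ = t1) (rfl : _ = t1)
  (st_mk (Pth.l (Pth.l (Pth.l Pth.z))) (nat_lit 140324612) (nat_lit 162581759) (by decide +kernel))
  (st_mk (Pth.l (Pth.l (Pth.l Pth.z))) (nat_lit 175402906) (nat_lit 197966402) (by decide +kernel))
  (st_mk (Pth.l (Pth.l (Pth.l Pth.z))) (nat_lit 215927537) (nat_lit 238917926) (by decide +kernel)) sv2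
theorem ok : GroupOK (nat_lit 0) (nat_lit 91291648) G := grp_mk (allS_c so0 (allS_c so1 (allS_c so2 allS_n)))
theorem cov : GCov G cl7 cl7 cl9 := cov_mk
  ⟨0, by decide, rfl, rfl, rfl⟩ ⟨1, by decide, rfl, rfl, rfl⟩ ⟨0, by decide, rfl, rfl, rfl⟩ ⟨1, by decide, rfl, rfl, rfl⟩ ⟨2, by decide, rfl, rfl, rfl⟩ ⟨2, by decide, rfl, rfl, rfl⟩
end Q445_0

namespace Q445_1
def sI : I := I.pos (nat_lit 91226112) (nat_lit 150339584)
def b0_0 : Bx := Bx.mk (St.mk (I.pos (nat_lit 156073984) (nat_lit 239435776)) (I.mix (nat_lit 3620864) (nat_lit 59260928)) (I.mix (nat_lit 5603328) (nat_lit 94355456)) (I.pos (nat_lit 135659520) (nat_lit 270008320)) (I.mix (nat_lit 88653824) (nat_lit 46301184)) (I.mix (nat_lit 62144512) (nat_lit 47136768)) (I.mix (nat_lit 83312640) (nat_lit 62160896)))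
  false (nat_lit 7289280)
def b0_1 : Bx := Bx.mk (St.mk (I.mix (nat_lit 31817728) (nat_lit 126255104)) (I.mix (nat_lit 9797632) (nat_lit 34324480)) (I.mix (nat_lit 17858560) (nat_lit 21479424)) (I.pos (nat_lit 36356096) (nat_lit 119193600)) (I.mix (nat_lit 29655040) (nat_lit 29048832)) (I.mix (nat_lit 27541504) (nat_lit 19415040)) (I.mix (nat_lit 19857408) (nat_lit 13123584)))
  false (nat_lit 0)
def b0_2 : Bx := Bx.mk (St.mk (I.pos (nat_lit 90390528) (nat_lit 147275776)) (I.mix (nat_lit 61276160) (nat_lit 11747328)) (I.mix (nat_lit 62603264) (nat_lit 3735552)) (I.pos (nat_lit 76136448) (nat_lit 143360000)) (I.mix (nat_lit 78397440) (nat_lit 26132480)) (I.mix (nat_lit 31227904) (nat_lit 70074368)) (I.mix (nat_lit 22216704) (nat_lit 54460416)))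
  false (nat_lit 0)
def b0_3 : Bx := Bx.mk (St.mk (I.mix (nat_lit 40779776) (nat_lit 74792960)) (I.mix (nat_lit 30457856) (nat_lit 6832128)) (I.mix (nat_lit 18563072) (nat_lit 3227648)) (I.pos (nat_lit 39862272) (nat_lit 82984960)) (I.mix (nat_lit 29229056) (nat_lit 15155200)) (I.mix (nat_lit 14581760) (nat_lit 27181056)) (I.mix (nat_lit 7700480) (nat_lit 10469376)))
  false (nat_lit 0)
def b0_4 : Bx := Bx.mk (St.mk (I.pos (nat_lit 193511424) (nat_lit 287440896)) (I.mix (nat_lit 26640384) (nat_lit 43941888)) (I.mix (nat_lit 81641472) (nat_lit 66650112)) (I.pos (nat_lit 207110144) (nat_lit 372293632)) (I.mix (nat_lit 68517888) (nat_lit 43663360)) (I.mix (nat_lit 51101696) (nat_lit 32374784)) (I.mix (nat_lit 88129536) (nat_lit 61014016)))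
  false (nat_lit 3039918)
def b0_5 : Bx := Bx.mk (St.mk (I.pos (nat_lit 93143040) (nat_lit 176914432)) (I.mix (nat_lit 64274432) (nat_lit 540672)) (I.mix (nat_lit 64962560) (nat_lit 1654784)) (I.pos (nat_lit 90390528) (nat_lit 179896320)) (I.mix (nat_lit 74366976) (nat_lit 41009152)) (I.mix (nat_lit 36880384) (nat_lit 59588608)) (I.mix (nat_lit 28393472) (nat_lit 56999936)))
  false (nat_lit 0)
def b0_6 : Bx := Bx.mk (St.mk (I.mix (nat_lit 29065216) (nat_lit 87375872)) (I.mix (nat_lit 33456128) (nat_lit 7438336)) (I.mix (nat_lit 22134784) (nat_lit 4407296)) (I.pos (nat_lit 36569088) (nat_lit 91553792)) (I.mix (nat_lit 28246016) (nat_lit 23347200)) (I.mix (nat_lit 16285696) (nat_lit 27164672)) (I.mix (nat_lit 9125888) (nat_lit 14712832)))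
  false (nat_lit 0)
def b0_7 : Bx := Bx.mk (St.mk (I.pos (nat_lit 167591936) (nat_lit 218742784)) (I.mix (nat_lit 10174464) (nat_lit 65536000)) (I.mix (nat_lit 131072) (nat_lit 99155968)) (I.pos (nat_lit 156827648) (nat_lit 241401856)) (I.mix (nat_lit 117260288) (nat_lit 34160640)) (I.mix (nat_lit 111509504) (nat_lit 54296576)) (I.mix (nat_lit 119963648) (nat_lit 51740672)))
  false (nat_lit 17792593)
def b0_8 : Bx := Bx.mk (St.mk (I.mix (nat_lit 41189376) (nat_lit 115032064)) (I.mix (nat_lit 14270464) (nat_lit 40271872)) (I.mix (nat_lit 12075008) (nat_lit 25886720)) (I.pos (nat_lit 38584320) (nat_lit 109461504)) (I.mix (nat_lit 40517632) (nat_lit 21921792)) (I.mix (nat_lit 42237952) (nat_lit 21102592)) (I.mix (nat_lit 23412736) (nat_lit 12648448)))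
  false (nat_lit 0)
def b0_9 : Bx := Bx.mk (St.mk (I.pos (nat_lit 144982016) (nat_lit 211353600)) (I.mix (nat_lit 44580864) (nat_lit 26230784)) (I.mix (nat_lit 47890432) (nat_lit 46350336)) (I.pos (nat_lit 127221760) (nat_lit 226000896)) (I.mix (nat_lit 49201152) (nat_lit 46530560)) (I.mix (nat_lit 51527680) (nat_lit 45940736)) (I.mix (nat_lit 51068928) (nat_lit 46137344)))
  false (nat_lit 0)
def b0_10 : Bx := Bx.mk (St.mk (I.pos (nat_lit 168378368) (nat_lit 212434944)) (I.mix (nat_lit 17235968) (nat_lit 39337984)) (I.mix (nat_lit 8601600) (nat_lit 65110016)) (I.pos (nat_lit 159023104) (nat_lit 225361920)) (I.mix (nat_lit 90095616) (nat_lit 48480256)) (I.mix (nat_lit 100352000) (nat_lit 52805632)) (I.mix (nat_lit 110526464) (nat_lit 53788672)))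
  false (nat_lit 0)
def b0_11 : Bx := Bx.mk (St.mk (I.pos (nat_lit 184631296) (nat_lit 239452160)) (I.pos (nat_lit 6914048) (nat_lit 58343424)) (I.pos (nat_lit 6881280) (nat_lit 92733440)) (I.pos (nat_lit 201965568) (nat_lit 267403264)) (I.mix (nat_lit 79429632) (nat_lit 56819712)) (I.mix (nat_lit 69959680) (nat_lit 49496064)) (I.mix (nat_lit 104202240) (nat_lit 61505536)))
  false (nat_lit 0)
def t0 : BTr := (BTr.n (BTr.n (BTr.n (BTr.b b0_0) (BTr.n (BTr.b b0_1) (BTr.b b0_2))) (BTr.n (BTr.b b0_3) (BTr.n (BTr.b b0_4) (BTr.b b0_5)))) (BTr.n (BTr.n (BTr.b b0_6) (BTr.n (BTr.b b0_7) (BTr.b b0_8))) (BTr.n (BTr.b b0_9) (BTr.n (BTr.b b0_10) (BTr.b b0_11)))))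
namespace T0
def l0 : Tr := Tr.L (Pth.l (Pth.l (Pth.l Pth.z)))
def l1 : Tr := Tr.L (Pth.l (Pth.l (Pth.r (Pth.l Pth.z))))
def l2 : Tr := Tr.L (Pth.l (Pth.l (Pth.r (Pth.r Pth.z))))
def l3 : Tr := Tr.L (Pth.l (Pth.r (Pth.l Pth.z)))
def l4 : Tr := Tr.L (Pth.l (Pth.r (Pth.r (Pth.l Pth.z))))
def l5 : Tr := Tr.L (Pth.l (Pth.r (Pth.r (Pth.r Pth.z))))
def l6 : Tr := Tr.L (Pth.r (Pth.l (Pth.l Pth.z)))
def l7 : Tr := Tr.L (Pth.r (Pth.l (Pth.r (Pth.l Pth.z))))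
def l8 : Tr := Tr.L (Pth.r (Pth.l (Pth.r (Pth.r Pth.z))))
def l9 : Tr := Tr.L (Pth.r (Pth.r (Pth.l Pth.z)))
def l10 : Tr := Tr.L (Pth.r (Pth.r (Pth.r (Pth.l Pth.z))))
def l11 : Tr := Tr.L (Pth.r (Pth.r (Pth.r (Pth.r Pth.z))))
end T0
def b1_0 : Bx := Bx.mk (St.mk (I.pos (nat_lit 155959296) (nat_lit 241516544)) (I.mix (nat_lit 3375104) (nat_lit 54886400)) (I.mix (nat_lit 5816320) (nat_lit 98041856)) (I.pos (nat_lit 108560384) (nat_lit 243843072)) (I.mix (nat_lit 84606976) (nat_lit 48480256)) (I.mix (nat_lit 62062592) (nat_lit 52838400)) (I.mix (nat_lit 87982080) (nat_lit 65404928)))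
  false (nat_lit 0)
def b1_1 : Bx := Bx.mk (St.mk (I.pos (nat_lit 106496000) (nat_lit 185548800)) (I.mix (nat_lit 59047936) (nat_lit 1146880)) (I.mix (nat_lit 57737216) (nat_lit 5341184)) (I.pos (nat_lit 76857344) (nat_lit 164052992)) (I.mix (nat_lit 70631424) (nat_lit 39993344)) (I.mix (nat_lit 36929536) (nat_lit 56410112)) (I.mix (nat_lit 29491200) (nat_lit 56557568)))
  false (nat_lit 0)
def b1_2 : Bx := Bx.mk (St.mk (I.mix (nat_lit 25968640) (nat_lit 139165696)) (I.mix (nat_lit 8110080) (nat_lit 29310976)) (I.mix (nat_lit 11747328) (nat_lit 25214976)) (I.pos (nat_lit 11485184) (nat_lit 104185856)) (I.mix (nat_lit 29458432) (nat_lit 25657344)) (I.mix (nat_lit 27082752) (nat_lit 17629184)) (I.mix (nat_lit 21610496) (nat_lit 13352960)))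
  false (nat_lit 0)
def b1_3 : Bx := Bx.mk (St.mk (I.mix (nat_lit 22233088) (nat_lit 108511232)) (I.mix (nat_lit 29294592) (nat_lit 5783552)) (I.mix (nat_lit 19972096) (nat_lit 5996544)) (I.pos (nat_lit 13336576) (nat_lit 78102528)) (I.mix (nat_lit 25919488) (nat_lit 20987904)) (I.mix (nat_lit 13959168) (nat_lit 23805952)) (I.mix (nat_lit 8601600) (nat_lit 15089664)))
  false (nat_lit 0)
def b1_4 : Bx := Bx.mk (St.mk (I.pos (nat_lit 172441600) (nat_lit 218906624)) (I.mix (nat_lit 15040512) (nat_lit 58294272)) (I.pos (nat_lit 0) (nat_lit 97779712)) (I.pos (nat_lit 132448256) (nat_lit 214040576)) (I.mix (nat_lit 117374976) (nat_lit 33292288)) (I.mix (nat_lit 116146176) (nat_lit 51281920)) (I.mix (nat_lit 134643712) (nat_lit 50298880)))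
  false (nat_lit 0)
def b1_5 : Bx := Bx.mk (St.mk (I.pos (nat_lit 104660992) (nat_lit 157433856)) (I.mix (nat_lit 55984128) (nat_lit 10321920)) (I.mix (nat_lit 57114624) (nat_lit 8896512)) (I.pos (nat_lit 61046784) (nat_lit 127647744)) (I.mix (nat_lit 74924032) (nat_lit 24395776)) (I.mix (nat_lit 28246016) (nat_lit 68780032)) (I.mix (nat_lit 23248896) (nat_lit 58605568)))
  false (nat_lit 0)
def b1_6 : Bx := Bx.mk (St.mk (I.mix (nat_lit 28884992) (nat_lit 130793472)) (I.mix (nat_lit 14794752) (nat_lit 36847616)) (I.mix (nat_lit 10731520) (nat_lit 30130176)) (I.pos (nat_lit 13467648) (nat_lit 94683136)) (I.mix (nat_lit 43335680) (nat_lit 20185088)) (I.mix (nat_lit 40534016) (nat_lit 19464192)) (I.mix (nat_lit 26640384) (nat_lit 12664832)))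
  false (nat_lit 0)
def b1_7 : Bx := Bx.mk (St.mk (I.mix (nat_lit 22380544) (nat_lit 96747520)) (I.mix (nat_lit 26591232) (nat_lit 1081344)) (I.mix (nat_lit 17694720) (nat_lit 3031040)) (I.pos (nat_lit 15007744) (nat_lit 69042176)) (I.mix (nat_lit 27361280) (nat_lit 10289152)) (I.mix (nat_lit 11173888) (nat_lit 26705920)) (I.mix (nat_lit 6356992) (nat_lit 13877248)))
  false (nat_lit 0)
def b1_8 : Bx := Bx.mk (St.mk (I.pos (nat_lit 195739648) (nat_lit 286277632)) (I.mix (nat_lit 23871488) (nat_lit 40239104)) (I.mix (nat_lit 60375040) (nat_lit 74055680)) (I.pos (nat_lit 183468032) (nat_lit 343130112)) (I.mix (nat_lit 66895872) (nat_lit 41680896)) (I.mix (nat_lit 48545792) (nat_lit 30310400)) (I.mix (nat_lit 84066304) (nat_lit 51658752)))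
  false (nat_lit 0)
def b1_9 : Bx := Bx.mk (St.mk (I.pos (nat_lit 150585344) (nat_lit 214433792)) (I.mix (nat_lit 43876352) (nat_lit 21168128)) (I.mix (nat_lit 44400640) (nat_lit 44810240)) (I.pos (nat_lit 108789760) (nat_lit 202440704)) (I.mix (nat_lit 50954240) (nat_lit 48218112)) (I.mix (nat_lit 52707328) (nat_lit 47448064)) (I.mix (nat_lit 54149120) (nat_lit 49905664)))
  false (nat_lit 0)
def b1_10 : Bx := Bx.mk (St.mk (I.pos (nat_lit 186695680) (nat_lit 240713728)) (I.pos (nat_lit 5636096) (nat_lit 52903936)) (I.pos (nat_lit 12615680) (nat_lit 94568448)) (I.pos (nat_lit 177455104) (nat_lit 241909760)) (I.mix (nat_lit 77283328) (nat_lit 56410112)) (I.mix (nat_lit 71761920) (nat_lit 51806208)) (I.mix (nat_lit 109330432) (nat_lit 64667648)))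
  false (nat_lit 0)
def b1_11 : Bx := Bx.mk (St.mk (I.pos (nat_lit 171835392) (nat_lit 216203264)) (I.mix (nat_lit 22151168) (nat_lit 35651584)) (I.mix (nat_lit 9502720) (nat_lit 66502656)) (I.pos (nat_lit 135217152) (nat_lit 206766080)) (I.mix (nat_lit 93224960) (nat_lit 48136192)) (I.mix (nat_lit 107970560) (nat_lit 53788672)) (I.mix (nat_lit 126730240) (nat_lit 57540608)))
  false (nat_lit 0)
def t1 : BTr := (BTr.n (BTr.n (BTr.n (BTr.b b1_0) (BTr.n (BTr.b b1_1) (BTr.b b1_2))) (BTr.n (BTr.b b1_3) (BTr.n (BTr.b b1_4) (BTr.b b1_5)))) (BTr.n (BTr.n (BTr.b b1_6) (BTr.n (BTr.b b1_7) (BTr.b b1_8))) (BTr.n (BTr.b b1_9) (BTr.n (BTr.b b1_10) (BTr.b b1_11)))))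
namespace T1
def l0 : Tr := Tr.L (Pth.l (Pth.l (Pth.l Pth.z)))
def l1 : Tr := Tr.L (Pth.l (Pth.l (Pth.r (Pth.l Pth.z))))
def l2 : Tr := Tr.L (Pth.l (Pth.l (Pth.r (Pth.r Pth.z))))
def l3 : Tr := Tr.L (Pth.l (Pth.r (Pth.l Pth.z)))
def l4 : Tr := Tr.L (Pth.l (Pth.r (Pth.r (Pth.l Pth.z))))
def l5 : Tr := Tr.L (Pth.l (Pth.r (Pth.r (Pth.r Pth.z))))
def l6 : Tr := Tr.L (Pth.r (Pth.l (Pth.l Pth.z)))
def l7 : Tr := Tr.L (Pth.r (Pth.l (Pth.r (Pth.l Pth.z))))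
def l8 : Tr := Tr.L (Pth.r (Pth.l (Pth.r (Pth.r Pth.z))))
def l9 : Tr := Tr.L (Pth.r (Pth.r (Pth.l Pth.z)))
def l10 : Tr := Tr.L (Pth.r (Pth.r (Pth.r (Pth.l Pth.z))))
def l11 : Tr := Tr.L (Pth.r (Pth.r (Pth.r (Pth.r Pth.z))))
end T1
def b2_0 : Bx := Bx.mk (St.mk (I.pos (nat_lit 156155904) (nat_lit 238092288)) (I.mix (nat_lit 3489792) (nat_lit 56934400)) (I.mix (nat_lit 6029312) (nat_lit 101892096)) (I.pos (nat_lit 135331840) (nat_lit 266010624)) (I.mix (nat_lit 91357184) (nat_lit 46546944)) (I.mix (nat_lit 65306624) (nat_lit 51462144)) (I.mix (nat_lit 90128384) (nat_lit 67436544)))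
  false (nat_lit 10937980)
def b2_1 : Bx := Bx.mk (St.mk (I.pos (nat_lit 96256000) (nat_lit 180355072)) (I.neg (nat_lit 311296) (nat_lit 63700992)) (I.mix (nat_lit 59162624) (nat_lit 11747328)) (I.pos (nat_lit 93175808) (nat_lit 182894592)) (I.mix (nat_lit 71647232) (nat_lit 40747008)) (I.mix (nat_lit 35700736) (nat_lit 55066624)) (I.mix (nat_lit 26230784) (nat_lit 51691520)))
  false (nat_lit 0)
def b2_2 : Bx := Bx.mk (St.mk (I.mix (nat_lit 27754496) (nat_lit 89358336)) (I.mix (nat_lit 33095680) (nat_lit 8044544)) (I.mix (nat_lit 18317312) (nat_lit 9224192)) (I.pos (nat_lit 36995072) (nat_lit 92192768)) (I.mix (nat_lit 25870336) (nat_lit 23789568)) (I.mix (nat_lit 15335424) (nat_lit 24461312)) (I.mix (nat_lit 8208384) (nat_lit 13107200)))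
  false (nat_lit 0)
def b2_3 : Bx := Bx.mk (St.mk (I.pos (nat_lit 166576128) (nat_lit 218333184)) (I.mix (nat_lit 10387456) (nat_lit 64880640)) (I.pos (nat_lit 6488064) (nat_lit 107134976)) (I.pos (nat_lit 153436160) (nat_lit 238977024)) (I.mix (nat_lit 122535936) (nat_lit 36306944)) (I.mix (nat_lit 116948992) (nat_lit 56852480)) (I.mix (nat_lit 129220608) (nat_lit 52690944)))
  false (nat_lit 25984070)
def b2_4 : Bx := Bx.mk (St.mk (I.mix (nat_lit 42205184) (nat_lit 113410048)) (I.mix (nat_lit 14974976) (nat_lit 39976960)) (I.mix (nat_lit 8634368) (nat_lit 30261248)) (I.pos (nat_lit 38797312) (nat_lit 108527616)) (I.mix (nat_lit 42713088) (nat_lit 20250624)) (I.mix (nat_lit 42516480) (nat_lit 20004864)) (I.mix (nat_lit 23658496) (nat_lit 12500992)))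
  false (nat_lit 0)
def b2_5 : Bx := Bx.mk (St.mk (I.pos (nat_lit 144195584) (nat_lit 210124800)) (I.mix (nat_lit 44351488) (nat_lit 23101440)) (I.mix (nat_lit 39976960) (nat_lit 51380224)) (I.pos (nat_lit 126844928) (nat_lit 221970432)) (I.mix (nat_lit 51052544) (nat_lit 49758208)) (I.mix (nat_lit 53215232) (nat_lit 48693248)) (I.mix (nat_lit 52494336) (nat_lit 49070080)))
  false (nat_lit 0)
def b2_6 : Bx := Bx.mk (St.mk (I.mix (nat_lit 33636352) (nat_lit 124682240)) (I.mix (nat_lit 7569408) (nat_lit 34586624)) (I.mix (nat_lit 11010048) (nat_lit 26853376)) (I.pos (nat_lit 36044800) (nat_lit 117948416)) (I.mix (nat_lit 34226176) (nat_lit 27443200)) (I.mix (nat_lit 30326784) (nat_lit 20398080)) (I.mix (nat_lit 21708800) (nat_lit 14352384)))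
  false (nat_lit 0)
def b2_7 : Bx := Bx.mk (St.mk (I.pos (nat_lit 91684864) (nat_lit 149979136)) (I.mix (nat_lit 63094784) (nat_lit 9863168)) (I.mix (nat_lit 58261504) (nat_lit 7585792)) (I.pos (nat_lit 77332480) (nat_lit 146161664)) (I.mix (nat_lit 74612736) (nat_lit 26083328)) (I.mix (nat_lit 30031872) (nat_lit 69451776)) (I.mix (nat_lit 22691840) (nat_lit 52903936)))
  false (nat_lit 0)
def b2_8 : Bx := Bx.mk (St.mk (I.mix (nat_lit 39518208) (nat_lit 71155712)) (I.mix (nat_lit 26722304) (nat_lit 4718592)) (I.mix (nat_lit 13942784) (nat_lit 6111232)) (I.pos (nat_lit 40599552) (nat_lit 81051648)) (I.mix (nat_lit 27656192) (nat_lit 17367040)) (I.mix (nat_lit 15646720) (nat_lit 26558464)) (I.mix (nat_lit 7503872) (nat_lit 10076160)))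
  false (nat_lit 0)
def b2_9 : Bx := Bx.mk (St.mk (I.pos (nat_lit 165838848) (nat_lit 212582400)) (I.mix (nat_lit 15155200) (nat_lit 39239680)) (I.pos (nat_lit 2932736) (nat_lit 73596928)) (I.pos (nat_lit 153812992) (nat_lit 227753984)) (I.mix (nat_lit 95469568) (nat_lit 48119808)) (I.mix (nat_lit 102744064) (nat_lit 54083584)) (I.mix (nat_lit 113524736) (nat_lit 55066624)))
  false (nat_lit 0)
def b2_10 : Bx := Bx.mk (St.mk (I.pos (nat_lit 190709760) (nat_lit 285229056)) (I.mix (nat_lit 19660800) (nat_lit 45367296)) (I.mix (nat_lit 51281920) (nat_lit 83263488)) (I.pos (nat_lit 200867840) (nat_lit 364822528)) (I.mix (nat_lit 69992448) (nat_lit 44974080)) (I.mix (nat_lit 51216384) (nat_lit 32538624)) (I.mix (nat_lit 82509824) (nat_lit 52723712)))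
  false (nat_lit 10280494)
def b2_11 : Bx := Bx.mk (St.mk (I.pos (nat_lit 182927360) (nat_lit 237682688)) (I.pos (nat_lit 7077888) (nat_lit 55394304)) (I.pos (nat_lit 15794176) (nat_lit 99024896)) (I.pos (nat_lit 196935680) (nat_lit 261881856)) (I.mix (nat_lit 81788928) (nat_lit 57737216)) (I.mix (nat_lit 74514432) (nat_lit 50036736)) (I.mix (nat_lit 111607808) (nat_lit 59588608)))
  false (nat_lit 0)
def t2 : BTr := (BTr.n (BTr.n (BTr.n (BTr.b b2_0) (BTr.n (BTr.b b2_1) (BTr.b b2_2))) (BTr.n (BTr.b b2_3) (BTr.n (BTr.b b2_4) (BTr.b b2_5)))) (BTr.n (BTr.n (BTr.b b2_6) (BTr.n (BTr.b b2_7) (BTr.b b2_8))) (BTr.n (BTr.b b2_9) (BTr.n (BTr.b b2_10) (BTr.b b2_11)))))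
namespace T2
def l0 : Tr := Tr.L (Pth.l (Pth.l (Pth.l Pth.z)))
def l1 : Tr := Tr.L (Pth.l (Pth.l (Pth.r (Pth.l Pth.z))))
def l2 : Tr := Tr.L (Pth.l (Pth.l (Pth.r (Pth.r Pth.z))))
def l3 : Tr := Tr.L (Pth.l (Pth.r (Pth.l Pth.z)))
def l4 : Tr := Tr.L (Pth.l (Pth.r (Pth.r (Pth.l Pth.z))))
def l5 : Tr := Tr.L (Pth.l (Pth.r (Pth.r (Pth.r Pth.z))))
def l6 : Tr := Tr.L (Pth.r (Pth.l (Pth.l Pth.z)))
def l7 : Tr := Tr.L (Pth.r (Pth.l (Pth.r (Pth.l Pth.z))))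
def l8 : Tr := Tr.L (Pth.r (Pth.l (Pth.r (Pth.r Pth.z))))
def l9 : Tr := Tr.L (Pth.r (Pth.r (Pth.l Pth.z)))
def l10 : Tr := Tr.L (Pth.r (Pth.r (Pth.r (Pth.l Pth.z))))
def l11 : Tr := Tr.L (Pth.r (Pth.r (Pth.r (Pth.r Pth.z))))
end T2
theorem bx0_0 : BoxOK sI cl7 cl7 cl9 t0 t2 b0_0 :=
  box_mk (TrL.c (I.pos (nat_lit 0) (nat_lit 0)) (xa (xb T0.l0 (xa (xb T0.l0 T0.l0) T0.l0)) (xb T0.l0 (xa T0.l0 T0.l0)))
  (TrL.c (I.pos (nat_lit 0) (nat_lit 0)) T2.l1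
  (TrL.c (I.pos (nat_lit 0) (nat_lit 111196574)) (xR T0.l1 T0.l1)
  (TrL.c (I.pos (nat_lit 0) (nat_lit 77433728)) (xR T2.l2 T2.l2)
  (TrL.c (I.pos (nat_lit 0) (nat_lit 0)) (xa (xk T2.l3 T2.l3) (xk T2.l3 T2.l3))
  (TrL.c (I.pos (nat_lit 0) (nat_lit 0)) T0.l2
  (TrL.c (I.mix (nat_lit 29511666) (nat_lit 77433728)) (xR T2.l4 T2.l4)
  (TrL.c (I.mix (nat_lit 29511666) (nat_lit 46070178)) T0.l3
  TrL.n)))))))) (by decide +kernel)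
theorem bx0_1 : BoxOK sI cl7 cl7 cl9 t0 t2 b0_1 :=
  box_mk (TrL.c (I.pos (nat_lit 0) (nat_lit 0)) (xa (xa (xb T0.l4 T0.l4) T0.l4) (xa T0.l4 T0.l4))
  (TrL.c (I.pos (nat_lit 0) (nat_lit 0)) T2.l1
  (TrL.c (I.pos (nat_lit 0) (nat_lit 111196574)) T0.l1
  (TrL.c (I.pos (nat_lit 0) (nat_lit 77433728)) T2.l2
  (TrL.c (I.pos (nat_lit 0) (nat_lit 0)) T2.l5
  (TrL.c (I.pos (nat_lit 0) (nat_lit 0)) T0.l2
  (TrL.c (I.mix (nat_lit 29511666) (nat_lit 77433728)) T2.l4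
  (TrL.c (I.mix (nat_lit 29511666) (nat_lit 46070178)) T0.l3
  TrL.n)))))))) (by decide +kernel)
theorem bx0_2 : BoxOK sI cl7 cl7 cl9 t0 t2 b0_2 :=
  box_mk (TrL.c (I.pos (nat_lit 0) (nat_lit 0)) (xb (xa T0.l4 T0.l4) (xa T0.l4 T0.l4))
  (TrL.c (I.pos (nat_lit 0) (nat_lit 0)) T2.l1
  (TrL.c (I.pos (nat_lit 0) (nat_lit 111196574)) T0.l1
  (TrL.c (I.pos (nat_lit 0) (nat_lit 77433728)) T2.l2
  (TrL.c (I.pos (nat_lit 0) (nat_lit 0)) (xb T2.l5 T2.l5)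
  (TrL.c (I.pos (nat_lit 0) (nat_lit 0)) T0.l2
  (TrL.c (I.mix (nat_lit 29511666) (nat_lit 77433728)) T2.l4
  (TrL.c (I.mix (nat_lit 29511666) (nat_lit 46070178)) T0.l3
  TrL.n)))))))) (by decide +kernel)
theorem bx0_3 : BoxOK sI cl7 cl7 cl9 t0 t2 b0_3 :=
  box_mk (TrL.c (I.pos (nat_lit 0) (nat_lit 0)) (xa (xa (xb T0.l4 T0.l4) T0.l4) T0.l4)
  (TrL.c (I.pos (nat_lit 0) (nat_lit 0)) T2.l1
  (TrL.c (I.pos (nat_lit 0) (nat_lit 111196574)) T0.l1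
  (TrL.c (I.pos (nat_lit 0) (nat_lit 77433728)) T2.l2
  (TrL.c (I.pos (nat_lit 0) (nat_lit 0)) T2.l5
  (TrL.c (I.pos (nat_lit 0) (nat_lit 0)) T0.l2
  (TrL.c (I.mix (nat_lit 29511666) (nat_lit 77433728)) T2.l4
  (TrL.c (I.mix (nat_lit 29511666) (nat_lit 46070178)) T0.l3
  TrL.n)))))))) (by decide +kernel)
theorem bx0_4 : BoxOK sI cl7 cl7 cl9 t0 t2 b0_4 :=
  box_mk (TrL.c (I.pos (nat_lit 0) (nat_lit 0)) (xa (xb T0.l0 T0.l0) (xb T0.l0 (xa T0.l0 T0.l0)))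
  (TrL.c (I.pos (nat_lit 0) (nat_lit 0)) T2.l7
  (TrL.c (I.pos (nat_lit 0) (nat_lit 111196574)) (xR T0.l1 T0.l8)
  (TrL.c (I.pos (nat_lit 0) (nat_lit 77433728)) (xR T2.l2 T2.l2)
  (TrL.c (I.pos (nat_lit 0) (nat_lit 0)) (xa (xb (xk T2.l3 T2.l3) T2.l3) (xb (xk (xa T2.l3 T2.l3) (xa T2.l3 T2.l3)) (xk (xa T2.l3 T2.l3) (xa T2.l3 T2.l3))))
  (TrL.c (I.pos (nat_lit 0) (nat_lit 0)) (xa T0.l2 T0.l2)
  (TrL.c (I.mix (nat_lit 29511666) (nat_lit 77433728)) (xR T2.l4 T2.l4)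
  (TrL.c (I.mix (nat_lit 29511666) (nat_lit 46070178)) T0.l6
  TrL.n)))))))) (by decide +kernel)
theorem bx0_5 : BoxOK sI cl7 cl7 cl9 t0 t2 b0_5 :=
  box_mk (TrL.c (I.pos (nat_lit 0) (nat_lit 0)) (xa (xb (xa T0.l4 T0.l4) T0.l4) T0.l0)
  (TrL.c (I.pos (nat_lit 0) (nat_lit 0)) T2.l1
  (TrL.c (I.pos (nat_lit 0) (nat_lit 111196574)) T0.l1
  (TrL.c (I.pos (nat_lit 0) (nat_lit 77433728)) T2.l2
  (TrL.c (I.pos (nat_lit 0) (nat_lit 0)) (xa T2.l5 (xb (xk T2.l5 T2.l5) T2.l5))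
  (TrL.c (I.pos (nat_lit 0) (nat_lit 0)) T0.l2
  (TrL.c (I.mix (nat_lit 29511666) (nat_lit 77433728)) T2.l6
  (TrL.c (I.mix (nat_lit 29511666) (nat_lit 46070178)) T0.l3
  TrL.n)))))))) (by decide +kernel)
theorem bx0_6 : BoxOK sI cl7 cl7 cl9 t0 t2 b0_6 :=
  box_mk (TrL.c (I.pos (nat_lit 0) (nat_lit 0)) (xa (xa (xb (xa T0.l4 T0.l4) T0.l4) T0.l4) T0.l4)
  (TrL.c (I.pos (nat_lit 0) (nat_lit 0)) T2.l1
  (TrL.c (I.pos (nat_lit 0) (nat_lit 111196574)) T0.l1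
  (TrL.c (I.pos (nat_lit 0) (nat_lit 77433728)) T2.l2
  (TrL.c (I.pos (nat_lit 0) (nat_lit 0)) T2.l5
  (TrL.c (I.pos (nat_lit 0) (nat_lit 0)) T0.l2
  (TrL.c (I.mix (nat_lit 29511666) (nat_lit 77433728)) T2.l4
  (TrL.c (I.mix (nat_lit 29511666) (nat_lit 46070178)) T0.l3
  TrL.n)))))))) (by decide +kernel)
theorem bx0_7 : BoxOK sI cl7 cl7 cl9 t0 t2 b0_7 :=
  box_mk (TrL.c (I.pos (nat_lit 0) (nat_lit 0)) (xb (xa (xb T0.l11 T0.l11) (xb T0.l11 T0.l11)) (xa (xb T0.l11 (xa T0.l11 T0.l11)) (xb T0.l11 (xa T0.l11 T0.l11))))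
  (TrL.c (I.pos (nat_lit 0) (nat_lit 0)) T2.l1
  (TrL.c (I.pos (nat_lit 0) (nat_lit 111196574)) (xR T0.l1 (xR T0.l1 T0.l1))
  (TrL.c (I.pos (nat_lit 0) (nat_lit 77433728)) (xR T2.l2 T2.l2)
  (TrL.c (I.pos (nat_lit 0) (nat_lit 0)) (xb (xk (xa T2.l9 T2.l9) T2.l9) (xk T2.l3 T2.l3))
  (TrL.c (I.pos (nat_lit 0) (nat_lit 0)) T0.l2
  (TrL.c (I.mix (nat_lit 29511666) (nat_lit 77433728)) (xR T2.l4 T2.l4)
  (TrL.c (I.mix (nat_lit 29511666) (nat_lit 46070178)) (xR T0.l3 T0.l3)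
  TrL.n)))))))) (by decide +kernel)
theorem bx0_8 : BoxOK sI cl7 cl7 cl9 t0 t2 b0_8 :=
  box_mk (TrL.c (I.pos (nat_lit 0) (nat_lit 0)) (xa (xa (xb T0.l4 (xa T0.l4 T0.l4)) (xb T0.l4 T0.l4)) (xa T0.l4 T0.l4))
  (TrL.c (I.pos (nat_lit 0) (nat_lit 0)) T2.l1
  (TrL.c (I.pos (nat_lit 0) (nat_lit 111196574)) T0.l1
  (TrL.c (I.pos (nat_lit 0) (nat_lit 77433728)) T2.l2
  (TrL.c (I.pos (nat_lit 0) (nat_lit 0)) (xa T2.l5 T2.l5)
  (TrL.c (I.pos (nat_lit 0) (nat_lit 0)) T0.l2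
  (TrL.c (I.mix (nat_lit 29511666) (nat_lit 77433728)) T2.l4
  (TrL.c (I.mix (nat_lit 29511666) (nat_lit 46070178)) T0.l3
  TrL.n)))))))) (by decide +kernel)
theorem bx0_9 : BoxOK sI cl7 cl7 cl9 t0 t2 b0_9 :=
  box_mk (TrL.c (I.pos (nat_lit 0) (nat_lit 0)) (xa T0.l11 T0.l0)
  (TrL.c (I.pos (nat_lit 0) (nat_lit 0)) T2.l1
  (TrL.c (I.pos (nat_lit 0) (nat_lit 111196574)) T0.l1
  (TrL.c (I.pos (nat_lit 0) (nat_lit 77433728)) T2.l2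
  (TrL.c (I.pos (nat_lit 0) (nat_lit 0)) (xb (xa T2.l5 T2.l9) T2.l9)
  (TrL.c (I.pos (nat_lit 0) (nat_lit 0)) T0.l2
  (TrL.c (I.mix (nat_lit 29511666) (nat_lit 77433728)) T2.l6
  (TrL.c (I.mix (nat_lit 29511666) (nat_lit 46070178)) T0.l3
  TrL.n)))))))) (by decide +kernel)
theorem bx0_10 : BoxOK sI cl7 cl7 cl9 t0 t2 b0_10 :=
  box_mk (TrL.c (I.pos (nat_lit 0) (nat_lit 0)) (xb T0.l11 T0.l11)
  (TrL.c (I.pos (nat_lit 0) (nat_lit 0)) T2.l1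
  (TrL.c (I.pos (nat_lit 0) (nat_lit 111196574)) (xR T0.l1 T0.l1)
  (TrL.c (I.pos (nat_lit 0) (nat_lit 77433728)) T2.l2
  (TrL.c (I.pos (nat_lit 0) (nat_lit 0)) (xb T2.l9 T2.l9)
  (TrL.c (I.pos (nat_lit 0) (nat_lit 0)) T0.l2
  (TrL.c (I.mix (nat_lit 29511666) (nat_lit 77433728)) (xR T2.l4 T2.l4)
  (TrL.c (I.mix (nat_lit 29511666) (nat_lit 46070178)) T0.l3
  TrL.n)))))))) (by decide +kernel)
theorem bx0_11 : BoxOK sI cl7 cl7 cl9 t0 t2 b0_11 :=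
  box_mk (TrL.c (I.pos (nat_lit 0) (nat_lit 0)) (xa (xb T0.l0 T0.l0) (xb T0.l0 T0.l0))
  (TrL.c (I.pos (nat_lit 0) (nat_lit 0)) T2.l1
  (TrL.c (I.pos (nat_lit 0) (nat_lit 111196574)) (xR T0.l1 T0.l1)
  (TrL.c (I.pos (nat_lit 0) (nat_lit 77433728)) (xR T2.l2 T2.l2)
  (TrL.c (I.pos (nat_lit 0) (nat_lit 0)) (xk T2.l3 T2.l3)
  (TrL.c (I.pos (nat_lit 0) (nat_lit 0)) T0.l2
  (TrL.c (I.mix (nat_lit 29511666) (nat_lit 77433728)) (xR T2.l4 T2.l4)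
  (TrL.c (I.mix (nat_lit 29511666) (nat_lit 46070178)) T0.l3
  TrL.n)))))))) (by decide +kernel)
theorem sv0 : StarV sI cl7 cl7 cl9 t0 t2 t0 :=
  (bt_n (bt_n (bt_n (bt_b bx0_0) (bt_n (bt_b bx0_1) (bt_b bx0_2))) (bt_n (bt_b bx0_3) (bt_n (bt_b bx0_4) (bt_b bx0_5)))) (bt_n (bt_n (bt_b bx0_6) (bt_n (bt_b bx0_7) (bt_b bx0_8))) (bt_n (bt_b bx0_9) (bt_n (bt_b bx0_10) (bt_b bx0_11)))))
def S0 : StarD := StarD.mk cl7 cl7 cl9 0 2 t0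
theorem bx1_0 : BoxOK sI cl7 cl9 cl7 t2 t0 b1_0 :=
  box_mk (TrL.c (I.pos (nat_lit 0) (nat_lit 0)) (xa (xa (xb T2.l0 (xb T2.l0 T2.l0)) (xb T2.l0 T2.l0)) (xa (xb T2.l0 T2.l0) T2.l0))
  (TrL.c (I.pos (nat_lit 0) (nat_lit 0)) (xa T0.l5 T0.l5)
  (TrL.c (I.pos (nat_lit 0) (nat_lit 111196574)) (xR T2.l6 T2.l6)
  (TrL.c (I.pos (nat_lit 0) (nat_lit 77433728)) (xR T0.l6 T0.l6)
  (TrL.c (I.pos (nat_lit 0) (nat_lit 0)) (xa (xk T0.l7 T0.l7) (xk T0.l7 T0.l7))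
  (TrL.c (I.pos (nat_lit 0) (nat_lit 0)) T2.l7
  (TrL.c (I.mix (nat_lit 29511666) (nat_lit 77433728)) (xR T0.l8 T0.l8)
  (TrL.c (I.mix (nat_lit 29511666) (nat_lit 46070178)) T2.l8
  TrL.n)))))))) (by decide +kernel)
theorem bx1_1 : BoxOK sI cl7 cl9 cl7 t2 t0 b1_1 :=
  box_mk (TrL.c (I.pos (nat_lit 0) (nat_lit 0)) (xa (xb T2.l10 T2.l10) T2.l0)
  (TrL.c (I.pos (nat_lit 0) (nat_lit 0)) T0.l5
  (TrL.c (I.pos (nat_lit 0) (nat_lit 111196574)) T2.l6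
  (TrL.c (I.pos (nat_lit 0) (nat_lit 77433728)) T0.l6
  (TrL.c (I.pos (nat_lit 0) (nat_lit 0)) (xa T0.l9 (xb (xk T0.l9 T0.l9) T0.l9))
  (TrL.c (I.pos (nat_lit 0) (nat_lit 0)) T2.l7
  (TrL.c (I.mix (nat_lit 29511666) (nat_lit 77433728)) T0.l1
  (TrL.c (I.mix (nat_lit 29511666) (nat_lit 46070178)) T2.l8
  TrL.n)))))))) (by decide +kernel)
theorem bx1_2 : BoxOK sI cl7 cl9 cl7 t2 t0 b1_2 :=
  box_mk (TrL.c (I.pos (nat_lit 0) (nat_lit 0)) (xa (xa T2.l10 T2.l10) (xa T2.l10 T2.l10))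
  (TrL.c (I.pos (nat_lit 0) (nat_lit 0)) T0.l5
  (TrL.c (I.pos (nat_lit 0) (nat_lit 111196574)) T2.l6
  (TrL.c (I.pos (nat_lit 0) (nat_lit 77433728)) T0.l6
  (TrL.c (I.pos (nat_lit 0) (nat_lit 0)) (xa T0.l9 T0.l9)
  (TrL.c (I.pos (nat_lit 0) (nat_lit 0)) T2.l7
  (TrL.c (I.mix (nat_lit 29511666) (nat_lit 77433728)) T0.l8
  (TrL.c (I.mix (nat_lit 29511666) (nat_lit 46070178)) T2.l8
  TrL.n)))))))) (by decide +kernel)
theorem bx1_3 : BoxOK sI cl7 cl9 cl7 t2 t0 b1_3 :=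
  box_mk (TrL.c (I.pos (nat_lit 0) (nat_lit 0)) (xa (xa (xb T2.l10 T2.l10) T2.l10) T2.l10)
  (TrL.c (I.pos (nat_lit 0) (nat_lit 0)) T0.l5
  (TrL.c (I.pos (nat_lit 0) (nat_lit 111196574)) T2.l6
  (TrL.c (I.pos (nat_lit 0) (nat_lit 77433728)) T0.l6
  (TrL.c (I.pos (nat_lit 0) (nat_lit 0)) T0.l9
  (TrL.c (I.pos (nat_lit 0) (nat_lit 0)) T2.l7
  (TrL.c (I.mix (nat_lit 29511666) (nat_lit 77433728)) T0.l8
  (TrL.c (I.mix (nat_lit 29511666) (nat_lit 46070178)) T2.l8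
  TrL.n)))))))) (by decide +kernel)
theorem bx1_4 : BoxOK sI cl7 cl9 cl7 t2 t0 b1_4 :=
  box_mk (TrL.c (I.pos (nat_lit 0) (nat_lit 0)) (xb (xa (xb T2.l11 T2.l11) (xb T2.l11 T2.l11)) (xa (xb T2.l11 (xa T2.l11 T2.l11)) (xb T2.l11 (xa T2.l11 T2.l11))))
  (TrL.c (I.pos (nat_lit 0) (nat_lit 0)) T0.l5
  (TrL.c (I.pos (nat_lit 0) (nat_lit 111196574)) (xR T2.l6 (xR T2.l6 T2.l6))
  (TrL.c (I.pos (nat_lit 0) (nat_lit 77433728)) (xR T0.l6 T0.l6)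
  (TrL.c (I.pos (nat_lit 0) (nat_lit 0)) (xb (xk (xa T0.l10 (xb T0.l10 T0.l10)) (xa T0.l10 T0.l10)) (xk (xa T0.l10 (xb T0.l7 T0.l7)) (xa T0.l10 (xb T0.l7 T0.l7))))
  (TrL.c (I.pos (nat_lit 0) (nat_lit 0)) T2.l7
  (TrL.c (I.mix (nat_lit 29511666) (nat_lit 77433728)) (xR T0.l8 T0.l8)
  (TrL.c (I.mix (nat_lit 29511666) (nat_lit 46070178)) (xR T2.l8 T2.l8)
  TrL.n)))))))) (by decide +kernel)
theorem bx1_5 : BoxOK sI cl7 cl9 cl7 t2 t0 b1_5 :=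
  box_mk (TrL.c (I.pos (nat_lit 0) (nat_lit 0)) (xb T2.l10 (xa (xb T2.l10 T2.l10) T2.l10))
  (TrL.c (I.pos (nat_lit 0) (nat_lit 0)) T0.l5
  (TrL.c (I.pos (nat_lit 0) (nat_lit 111196574)) T2.l6
  (TrL.c (I.pos (nat_lit 0) (nat_lit 77433728)) T0.l6
  (TrL.c (I.pos (nat_lit 0) (nat_lit 0)) (xb T0.l9 T0.l9)
  (TrL.c (I.pos (nat_lit 0) (nat_lit 0)) T2.l7
  (TrL.c (I.mix (nat_lit 29511666) (nat_lit 77433728)) T0.l1
  (TrL.c (I.mix (nat_lit 29511666) (nat_lit 46070178)) T2.l8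
  TrL.n)))))))) (by decide +kernel)
theorem bx1_6 : BoxOK sI cl7 cl9 cl7 t2 t0 b1_6 :=
  box_mk (TrL.c (I.pos (nat_lit 0) (nat_lit 0)) (xa (xa (xb T2.l10 (xa T2.l10 T2.l10)) T2.l10) (xa T2.l10 T2.l10))
  (TrL.c (I.pos (nat_lit 0) (nat_lit 0)) (xa T0.l5 T0.l5)
  (TrL.c (I.pos (nat_lit 0) (nat_lit 111196574)) T2.l6
  (TrL.c (I.pos (nat_lit 0) (nat_lit 77433728)) T0.l6
  (TrL.c (I.pos (nat_lit 0) (nat_lit 0)) (xa T0.l9 T0.l9)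
  (TrL.c (I.pos (nat_lit 0) (nat_lit 0)) T2.l7
  (TrL.c (I.mix (nat_lit 29511666) (nat_lit 77433728)) T0.l8
  (TrL.c (I.mix (nat_lit 29511666) (nat_lit 46070178)) T2.l8
  TrL.n)))))))) (by decide +kernel)
theorem bx1_7 : BoxOK sI cl7 cl9 cl7 t2 t0 b1_7 :=
  box_mk (TrL.c (I.pos (nat_lit 0) (nat_lit 0)) (xa T2.l10 T2.l10)
  (TrL.c (I.pos (nat_lit 0) (nat_lit 0)) T0.l5
  (TrL.c (I.pos (nat_lit 0) (nat_lit 111196574)) T2.l6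
  (TrL.c (I.pos (nat_lit 0) (nat_lit 77433728)) T0.l6
  (TrL.c (I.pos (nat_lit 0) (nat_lit 0)) T0.l9
  (TrL.c (I.pos (nat_lit 0) (nat_lit 0)) T2.l7
  (TrL.c (I.mix (nat_lit 29511666) (nat_lit 77433728)) T0.l8
  (TrL.c (I.mix (nat_lit 29511666) (nat_lit 46070178)) T2.l8
  TrL.n)))))))) (by decide +kernel)
theorem bx1_8 : BoxOK sI cl7 cl9 cl7 t2 t0 b1_8 :=
  box_mk (TrL.c (I.pos (nat_lit 0) (nat_lit 0)) (xa (xb T2.l0 T2.l0) (xb T2.l0 (xa T2.l0 T2.l0)))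
  (TrL.c (I.pos (nat_lit 0) (nat_lit 0)) (xa T0.l5 T0.l5)
  (TrL.c (I.pos (nat_lit 0) (nat_lit 111196574)) (xR T2.l6 T2.l6)
  (TrL.c (I.pos (nat_lit 0) (nat_lit 77433728)) (xR T0.l6 T0.l6)
  (TrL.c (I.pos (nat_lit 0) (nat_lit 0)) (xa (xb (xk T0.l7 T0.l7) T0.l7) (xb (xk (xa T0.l7 T0.l7) (xa T0.l7 T0.l7)) (xk (xa T0.l7 T0.l7) (xa T0.l7 T0.l7))))
  (TrL.c (I.pos (nat_lit 0) (nat_lit 0)) (xa T2.l7 T2.l7)
  (TrL.c (I.mix (nat_lit 29511666) (nat_lit 77433728)) (xR T0.l8 T0.l8)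
  (TrL.c (I.mix (nat_lit 29511666) (nat_lit 46070178)) T2.l2
  TrL.n)))))))) (by decide +kernel)
theorem bx1_9 : BoxOK sI cl7 cl9 cl7 t2 t0 b1_9 :=
  box_mk (TrL.c (I.pos (nat_lit 0) (nat_lit 0)) (xa T2.l11 T2.l0)
  (TrL.c (I.pos (nat_lit 0) (nat_lit 0)) T0.l5
  (TrL.c (I.pos (nat_lit 0) (nat_lit 111196574)) T2.l6
  (TrL.c (I.pos (nat_lit 0) (nat_lit 77433728)) T0.l6
  (TrL.c (I.pos (nat_lit 0) (nat_lit 0)) (xa (xb (xk T0.l10 T0.l10) T0.l10) (xb (xk T0.l10 T0.l10) T0.l10))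
  (TrL.c (I.pos (nat_lit 0) (nat_lit 0)) T2.l7
  (TrL.c (I.mix (nat_lit 29511666) (nat_lit 77433728)) (xR T0.l8 T0.l8)
  (TrL.c (I.mix (nat_lit 29511666) (nat_lit 46070178)) T2.l8
  TrL.n)))))))) (by decide +kernel)
theorem bx1_10 : BoxOK sI cl7 cl9 cl7 t2 t0 b1_10 :=
  box_mk (TrL.c (I.pos (nat_lit 0) (nat_lit 0)) (xa (xb T2.l0 T2.l0) (xb T2.l0 T2.l0))
  (TrL.c (I.pos (nat_lit 0) (nat_lit 0)) T0.l5
  (TrL.c (I.pos (nat_lit 0) (nat_lit 111196574)) (xR T2.l6 T2.l6)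
  (TrL.c (I.pos (nat_lit 0) (nat_lit 77433728)) (xR T0.l6 T0.l6)
  (TrL.c (I.pos (nat_lit 0) (nat_lit 0)) (xk T0.l7 T0.l7)
  (TrL.c (I.pos (nat_lit 0) (nat_lit 0)) T2.l7
  (TrL.c (I.mix (nat_lit 29511666) (nat_lit 77433728)) (xR T0.l8 T0.l8)
  (TrL.c (I.mix (nat_lit 29511666) (nat_lit 46070178)) T2.l8
  TrL.n)))))))) (by decide +kernel)
theorem bx1_11 : BoxOK sI cl7 cl9 cl7 t2 t0 b1_11 :=
  box_mk (TrL.c (I.pos (nat_lit 0) (nat_lit 0)) (xb T2.l11 (xa T2.l11 T2.l11))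
  (TrL.c (I.pos (nat_lit 0) (nat_lit 0)) T0.l5
  (TrL.c (I.pos (nat_lit 0) (nat_lit 111196574)) (xR T2.l6 T2.l6)
  (TrL.c (I.pos (nat_lit 0) (nat_lit 77433728)) T0.l6
  (TrL.c (I.pos (nat_lit 0) (nat_lit 0)) (xb (xk T0.l10 T0.l10) T0.l10)
  (TrL.c (I.pos (nat_lit 0) (nat_lit 0)) T2.l7
  (TrL.c (I.mix (nat_lit 29511666) (nat_lit 77433728)) (xR T0.l8 T0.l8)
  (TrL.c (I.mix (nat_lit 29511666) (nat_lit 46070178)) T2.l8
  TrL.n)))))))) (by decide +kernel)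
theorem sv1 : StarV sI cl7 cl9 cl7 t2 t0 t1 :=
  (bt_n (bt_n (bt_n (bt_b bx1_0) (bt_n (bt_b bx1_1) (bt_b bx1_2))) (bt_n (bt_b bx1_3) (bt_n (bt_b bx1_4) (bt_b bx1_5)))) (bt_n (bt_n (bt_b bx1_6) (bt_n (bt_b bx1_7) (bt_b bx1_8))) (bt_n (bt_b bx1_9) (bt_n (bt_b bx1_10) (bt_b bx1_11)))))
def S1 : StarD := StarD.mk cl7 cl9 cl7 2 0 t1
theorem bx2_0 : BoxOK sI cl9 cl7 cl7 t1 t1 b2_0 :=
  box_mk (TrL.c (I.pos (nat_lit 0) (nat_lit 0)) (xa (xb T1.l0 (xa T1.l0 T1.l0)) (xb T1.l0 (xa T1.l0 T1.l0)))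
  (TrL.c (I.pos (nat_lit 0) (nat_lit 0)) T1.l1
  (TrL.c (I.pos (nat_lit 0) (nat_lit 124588530)) (xR T1.l2 T1.l2)
  (TrL.c (I.pos (nat_lit 0) (nat_lit 96881482)) (xR T1.l3 T1.l3)
  (TrL.c (I.pos (nat_lit 0) (nat_lit 0)) (xa (xk T1.l4 T1.l4) (xk T1.l4 T1.l4))
  (TrL.c (I.pos (nat_lit 0) (nat_lit 0)) T1.l5
  (TrL.c (I.mix (nat_lit 17240550) (nat_lit 96881482)) (xR T1.l6 T1.l6)
  (TrL.c (I.mix (nat_lit 17240550) (nat_lit 71940500)) (xR T1.l7 T1.l7)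
  TrL.n)))))))) (by decide +kernel)
theorem bx2_1 : BoxOK sI cl9 cl7 cl7 t1 t1 b2_1 :=
  box_mk (TrL.c (I.pos (nat_lit 0) (nat_lit 0)) (xa (xb T1.l8 T1.l8) T1.l0)
  (TrL.c (I.pos (nat_lit 0) (nat_lit 0)) T1.l1
  (TrL.c (I.pos (nat_lit 0) (nat_lit 124588530)) T1.l2
  (TrL.c (I.pos (nat_lit 0) (nat_lit 96881482)) T1.l3
  (TrL.c (I.pos (nat_lit 0) (nat_lit 0)) (xa T1.l9 (xb (xk T1.l9 T1.l9) T1.l9))
  (TrL.c (I.pos (nat_lit 0) (nat_lit 0)) T1.l5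
  (TrL.c (I.mix (nat_lit 17240550) (nat_lit 96881482)) (xR T1.l6 T1.l6)
  (TrL.c (I.mix (nat_lit 17240550) (nat_lit 71940500)) T1.l3
  TrL.n)))))))) (by decide +kernel)
theorem bx2_2 : BoxOK sI cl9 cl7 cl7 t1 t1 b2_2 :=
  box_mk (TrL.c (I.pos (nat_lit 0) (nat_lit 0)) (xa (xa (xb (xa T1.l8 T1.l8) T1.l8) T1.l8) T1.l8)
  (TrL.c (I.pos (nat_lit 0) (nat_lit 0)) T1.l1
  (TrL.c (I.pos (nat_lit 0) (nat_lit 124588530)) T1.l2
  (TrL.c (I.pos (nat_lit 0) (nat_lit 96881482)) T1.l3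
  (TrL.c (I.pos (nat_lit 0) (nat_lit 0)) T1.l9
  (TrL.c (I.pos (nat_lit 0) (nat_lit 0)) T1.l5
  (TrL.c (I.mix (nat_lit 17240550) (nat_lit 96881482)) T1.l6
  (TrL.c (I.mix (nat_lit 17240550) (nat_lit 71940500)) T1.l2
  TrL.n)))))))) (by decide +kernel)
theorem bx2_3 : BoxOK sI cl9 cl7 cl7 t1 t1 b2_3 :=
  box_mk (TrL.c (I.pos (nat_lit 0) (nat_lit 0)) (xb (xa (xb T1.l10 T1.l10) T1.l10) (xa (xb T1.l10 (xa T1.l10 T1.l10)) (xb T1.l10 (xa T1.l10 T1.l10))))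
  (TrL.c (I.pos (nat_lit 0) (nat_lit 0)) T1.l1
  (TrL.c (I.pos (nat_lit 0) (nat_lit 124588530)) (xR T1.l2 (xR T1.l2 T1.l2))
  (TrL.c (I.pos (nat_lit 0) (nat_lit 96881482)) (xR T1.l3 T1.l3)
  (TrL.c (I.pos (nat_lit 0) (nat_lit 0)) (xb (xk T1.l11 T1.l11) (xk (xa T1.l11 T1.l4) T1.l4))
  (TrL.c (I.pos (nat_lit 0) (nat_lit 0)) T1.l5
  (TrL.c (I.mix (nat_lit 17240550) (nat_lit 96881482)) (xR T1.l6 (xR T1.l6 T1.l6))
  (TrL.c (I.mix (nat_lit 17240550) (nat_lit 71940500)) (xR T1.l7 T1.l7)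
  TrL.n)))))))) (by decide +kernel)
theorem bx2_4 : BoxOK sI cl9 cl7 cl7 t1 t1 b2_4 :=
  box_mk (TrL.c (I.pos (nat_lit 0) (nat_lit 0)) (xa (xa (xb T1.l8 (xa T1.l8 T1.l8)) (xb T1.l8 T1.l8)) (xa T1.l8 T1.l8))
  (TrL.c (I.pos (nat_lit 0) (nat_lit 0)) T1.l1
  (TrL.c (I.pos (nat_lit 0) (nat_lit 124588530)) T1.l2
  (TrL.c (I.pos (nat_lit 0) (nat_lit 96881482)) T1.l3
  (TrL.c (I.pos (nat_lit 0) (nat_lit 0)) (xa T1.l9 T1.l9)
  (TrL.c (I.pos (nat_lit 0) (nat_lit 0)) T1.l5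
  (TrL.c (I.mix (nat_lit 17240550) (nat_lit 96881482)) T1.l6
  (TrL.c (I.mix (nat_lit 17240550) (nat_lit 71940500)) T1.l3
  TrL.n)))))))) (by decide +kernel)
theorem bx2_5 : BoxOK sI cl9 cl7 cl7 t1 t1 b2_5 :=
  box_mk (TrL.c (I.pos (nat_lit 0) (nat_lit 0)) (xa T1.l10 T1.l0)
  (TrL.c (I.pos (nat_lit 0) (nat_lit 0)) T1.l1
  (TrL.c (I.pos (nat_lit 0) (nat_lit 124588530)) (xR T1.l2 T1.l2)
  (TrL.c (I.pos (nat_lit 0) (nat_lit 96881482)) T1.l3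
  (TrL.c (I.pos (nat_lit 0) (nat_lit 0)) (xb (xa T1.l11 T1.l11) T1.l11)
  (TrL.c (I.pos (nat_lit 0) (nat_lit 0)) T1.l5
  (TrL.c (I.mix (nat_lit 17240550) (nat_lit 96881482)) (xR T1.l6 T1.l6)
  (TrL.c (I.mix (nat_lit 17240550) (nat_lit 71940500)) T1.l3
  TrL.n)))))))) (by decide +kernel)
theorem bx2_6 : BoxOK sI cl9 cl7 cl7 t1 t1 b2_6 :=
  box_mk (TrL.c (I.pos (nat_lit 0) (nat_lit 0)) (xa (xa (xb T1.l8 (xa T1.l8 T1.l8)) T1.l8) (xa T1.l8 T1.l8))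
  (TrL.c (I.pos (nat_lit 0) (nat_lit 0)) T1.l1
  (TrL.c (I.pos (nat_lit 0) (nat_lit 124588530)) T1.l2
  (TrL.c (I.pos (nat_lit 0) (nat_lit 96881482)) T1.l3
  (TrL.c (I.pos (nat_lit 0) (nat_lit 0)) (xa T1.l9 T1.l9)
  (TrL.c (I.pos (nat_lit 0) (nat_lit 0)) T1.l5
  (TrL.c (I.mix (nat_lit 17240550) (nat_lit 96881482)) T1.l6
  (TrL.c (I.mix (nat_lit 17240550) (nat_lit 71940500)) T1.l3
  TrL.n)))))))) (by decide +kernel)
theorem bx2_7 : BoxOK sI cl9 cl7 cl7 t1 t1 b2_7 :=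
  box_mk (TrL.c (I.pos (nat_lit 0) (nat_lit 0)) (xb (xa T1.l8 T1.l8) (xa (xb T1.l8 T1.l8) T1.l8))
  (TrL.c (I.pos (nat_lit 0) (nat_lit 0)) T1.l1
  (TrL.c (I.pos (nat_lit 0) (nat_lit 124588530)) T1.l2
  (TrL.c (I.pos (nat_lit 0) (nat_lit 96881482)) T1.l3
  (TrL.c (I.pos (nat_lit 0) (nat_lit 0)) (xb T1.l9 T1.l9)
  (TrL.c (I.pos (nat_lit 0) (nat_lit 0)) T1.l5
  (TrL.c (I.mix (nat_lit 17240550) (nat_lit 96881482)) T1.l6
  (TrL.c (I.mix (nat_lit 17240550) (nat_lit 71940500)) T1.l3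
  TrL.n)))))))) (by decide +kernel)
theorem bx2_8 : BoxOK sI cl9 cl7 cl7 t1 t1 b2_8 :=
  box_mk (TrL.c (I.pos (nat_lit 0) (nat_lit 0)) (xa (xa T1.l8 T1.l8) T1.l8)
  (TrL.c (I.pos (nat_lit 0) (nat_lit 0)) T1.l1
  (TrL.c (I.pos (nat_lit 0) (nat_lit 124588530)) T1.l2
  (TrL.c (I.pos (nat_lit 0) (nat_lit 96881482)) T1.l3
  (TrL.c (I.pos (nat_lit 0) (nat_lit 0)) T1.l9
  (TrL.c (I.pos (nat_lit 0) (nat_lit 0)) T1.l5
  (TrL.c (I.mix (nat_lit 17240550) (nat_lit 96881482)) T1.l6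
  (TrL.c (I.mix (nat_lit 17240550) (nat_lit 71940500)) T1.l2
  TrL.n)))))))) (by decide +kernel)
theorem bx2_9 : BoxOK sI cl9 cl7 cl7 t1 t1 b2_9 :=
  box_mk (TrL.c (I.pos (nat_lit 0) (nat_lit 0)) (xa T1.l10 T1.l10)
  (TrL.c (I.pos (nat_lit 0) (nat_lit 0)) T1.l1
  (TrL.c (I.pos (nat_lit 0) (nat_lit 124588530)) (xR T1.l2 T1.l2)
  (TrL.c (I.pos (nat_lit 0) (nat_lit 96881482)) T1.l3
  (TrL.c (I.pos (nat_lit 0) (nat_lit 0)) (xk T1.l11 T1.l11)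
  (TrL.c (I.pos (nat_lit 0) (nat_lit 0)) T1.l5
  (TrL.c (I.mix (nat_lit 17240550) (nat_lit 96881482)) (xR T1.l6 T1.l6)
  (TrL.c (I.mix (nat_lit 17240550) (nat_lit 71940500)) T1.l3
  TrL.n)))))))) (by decide +kernel)
theorem bx2_10 : BoxOK sI cl9 cl7 cl7 t1 t1 b2_10 :=
  box_mk (TrL.c (I.pos (nat_lit 0) (nat_lit 0)) (xa (xb T1.l0 T1.l0) (xb T1.l0 (xa T1.l0 T1.l0)))
  (TrL.c (I.pos (nat_lit 0) (nat_lit 0)) T1.l1
  (TrL.c (I.pos (nat_lit 0) (nat_lit 124588530)) (xR T1.l2 T1.l6)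
  (TrL.c (I.pos (nat_lit 0) (nat_lit 96881482)) (xR T1.l3 T1.l3)
  (TrL.c (I.pos (nat_lit 0) (nat_lit 0)) (xa (xb (xk T1.l4 T1.l4) T1.l4) (xk (xb (xa T1.l4 T1.l4) (xa T1.l4 T1.l4)) (xb (xa T1.l4 T1.l4) (xa T1.l4 T1.l4))))
  (TrL.c (I.pos (nat_lit 0) (nat_lit 0)) (xa T1.l5 T1.l5)
  (TrL.c (I.mix (nat_lit 17240550) (nat_lit 96881482)) (xR T1.l6 (xR T1.l6 T1.l6))
  (TrL.c (I.mix (nat_lit 17240550) (nat_lit 71940500)) (xR T1.l7 T1.l7)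
  TrL.n)))))))) (by decide +kernel)
theorem bx2_11 : BoxOK sI cl9 cl7 cl7 t1 t1 b2_11 :=
  box_mk (TrL.c (I.pos (nat_lit 0) (nat_lit 0)) (xa (xb T1.l0 T1.l0) (xb T1.l0 T1.l0))
  (TrL.c (I.pos (nat_lit 0) (nat_lit 0)) T1.l1
  (TrL.c (I.pos (nat_lit 0) (nat_lit 124588530)) (xR T1.l2 T1.l2)
  (TrL.c (I.pos (nat_lit 0) (nat_lit 96881482)) (xR T1.l3 T1.l3)
  (TrL.c (I.pos (nat_lit 0) (nat_lit 0)) (xk T1.l4 T1.l4)
  (TrL.c (I.pos (nat_lit 0) (nat_lit 0)) T1.l5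
  (TrL.c (I.mix (nat_lit 17240550) (nat_lit 96881482)) (xR T1.l6 T1.l6)
  (TrL.c (I.mix (nat_lit 17240550) (nat_lit 71940500)) T1.l3
  TrL.n)))))))) (by decide +kernel)
theorem sv2 : StarV sI cl9 cl7 cl7 t1 t1 t2 :=
  (bt_n (bt_n (bt_n (bt_b bx2_0) (bt_n (bt_b bx2_1) (bt_b bx2_2))) (bt_n (bt_b bx2_3) (bt_n (bt_b bx2_4) (bt_b bx2_5)))) (bt_n (bt_n (bt_b bx2_6) (bt_n (bt_b bx2_7) (bt_b bx2_8))) (bt_n (bt_b bx2_9) (bt_n (bt_b bx2_10) (bt_b bx2_11)))))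
def S2 : StarD := StarD.mk cl9 cl7 cl7 1 1 t2
def G : List StarD := [S0, S1, S2]
theorem so0 : StarOK sI G S0 :=
  star_mk (by decide) (by decide) rfl rfl rfl rfl rfl rfl (rfl : _ = t0) (rfl : _ = t2)
  (st_mk (Pth.l (Pth.l (Pth.l Pth.z))) (nat_lit 140966718) (nat_lit 163460305) (by decide +kernel))
  (st_mk (Pth.l (Pth.l (Pth.l Pth.z))) (nat_lit 176402010) (nat_lit 199283762) (by decide +kernel))
  (st_mk (Pth.l (Pth.l (Pth.l Pth.z))) (nat_lit 217438985) (nat_lit 240857657) (by decide +kernel)) sv0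
theorem so1 : StarOK sI G S1 :=
  star_mk (by decide) (by decide) rfl rfl rfl rfl rfl rfl (rfl : _ = t2) (rfl : _ = t0)
  (st_mk (Pth.l (Pth.l (Pth.l Pth.z))) (nat_lit 115792307) (nat_lit 134443021) (by decide +kernel))
  (st_mk (Pth.l (Pth.l (Pth.l Pth.z))) (nat_lit 151180013) (nat_lit 170196577) (by decide +kernel))
  (st_mk (Pth.l (Pth.l (Pth.l Pth.z))) (nat_lit 192176058) (nat_lit 211710623) (by decide +kernel)) sv1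
theorem so2 : StarOK sI G S2 :=
  star_mk (by decide) (by decide) rfl rfl rfl rfl rfl rfl (rfl : _ = t1) (rfl : _ = t1)
  (st_mk (Pth.l (Pth.l (Pth.l Pth.z))) (nat_lit 140437421) (nat_lit 162747119) (by decide +kernel))
  (st_mk (Pth.l (Pth.l (Pth.l Pth.z))) (nat_lit 175578111) (nat_lit 198213851) (by decide +kernel))
  (st_mk (Pth.l (Pth.l (Pth.l Pth.z))) (nat_lit 216192020) (nat_lit 239281410) (by decide +kernel)) sv2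
theorem ok : GroupOK (nat_lit 91226112) (nat_lit 150339584) G := grp_mk (allS_c so0 (allS_c so1 (allS_c so2 allS_n)))
theorem cov : GCov G cl7 cl7 cl9 := cov_mk
  ⟨0, by decide, rfl, rfl, rfl⟩ ⟨1, by decide, rfl, rfl, rfl⟩ ⟨0, by decide, rfl, rfl, rfl⟩ ⟨1, by decide, rfl, rfl, rfl⟩ ⟨2, by decide, rfl, rfl, rfl⟩ ⟨2, by decide, rfl, rfl, rfl⟩
end Q445_1

namespace Q445_2
def sI : I := I.pos (nat_lit 150274048) (nat_lit 209387520)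
def b0_0 : Bx := Bx.mk (St.mk (I.pos (nat_lit 158466048) (nat_lit 235028480)) (I.mix (nat_lit 1720320) (nat_lit 57245696)) (I.mix (nat_lit 2605056) (nat_lit 91062272)) (I.pos (nat_lit 139509760) (nat_lit 265617408)) (I.mix (nat_lit 108740608) (nat_lit 63766528)) (I.mix (nat_lit 73678848) (nat_lit 62078976)) (I.mix (nat_lit 98025472) (nat_lit 82935808)))
  false (nat_lit 42983078)
def b0_1 : Bx := Bx.mk (St.mk (I.mix (nat_lit 24674304) (nat_lit 121421824)) (I.mix (nat_lit 8404992) (nat_lit 34029568)) (I.mix (nat_lit 16564224) (nat_lit 20594688)) (I.pos (nat_lit 39911424) (nat_lit 116621312)) (I.mix (nat_lit 40370176) (nat_lit 34816000)) (I.mix (nat_lit 31752192) (nat_lit 24576000)) (I.mix (nat_lit 22904832) (nat_lit 16171008)))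
  false (nat_lit 0)
def b0_2 : Bx := Bx.mk (St.mk (I.pos (nat_lit 91586560) (nat_lit 140607488)) (I.mix (nat_lit 51609600) (nat_lit 9388032)) (I.mix (nat_lit 52215808) (nat_lit 1523712)) (I.pos (nat_lit 78839808) (nat_lit 133152768)) (I.mix (nat_lit 81674240) (nat_lit 26820608)) (I.mix (nat_lit 30162944) (nat_lit 69599232)) (I.mix (nat_lit 21676032) (nat_lit 51937280)))
  false (nat_lit 0)
def b0_3 : Bx := Bx.mk (St.mk (I.mix (nat_lit 36831232) (nat_lit 69861376)) (I.mix (nat_lit 29753344) (nat_lit 5160960)) (I.mix (nat_lit 17891328) (nat_lit 2359296)) (I.pos (nat_lit 41533440) (nat_lit 81526784)) (I.mix (nat_lit 35651584) (nat_lit 17678336)) (I.mix (nat_lit 16809984) (nat_lit 25968640)) (I.mix (nat_lit 8110080) (nat_lit 10289152)))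
  false (nat_lit 0)
def b0_4 : Bx := Bx.mk (St.mk (I.pos (nat_lit 192479232) (nat_lit 285982720)) (I.mix (nat_lit 26755072) (nat_lit 42287104)) (I.mix (nat_lit 80691200) (nat_lit 62341120)) (I.pos (nat_lit 213630976) (nat_lit 369786880)) (I.mix (nat_lit 67108864) (nat_lit 54689792)) (I.mix (nat_lit 54870016) (nat_lit 44482560)) (I.mix (nat_lit 96600064) (nat_lit 81510400)))
  false (nat_lit 20521512)
def b0_5 : Bx := Bx.mk (St.mk (I.pos (nat_lit 106856448) (nat_lit 173817856)) (I.neg (nat_lit 6012928) (nat_lit 53297152)) (I.neg (nat_lit 1032192) (nat_lit 53018624)) (I.pos (nat_lit 98942976) (nat_lit 177045504)) (I.mix (nat_lit 68452352) (nat_lit 36732928)) (I.mix (nat_lit 34930688) (nat_lit 50429952)) (I.mix (nat_lit 29114368) (nat_lit 46612480)))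
  false (nat_lit 0)
def b0_6 : Bx := Bx.mk (St.mk (I.mix (nat_lit 35061760) (nat_lit 84033536)) (I.mix (nat_lit 33292288) (nat_lit 6012928)) (I.mix (nat_lit 22757376) (nat_lit 3260416)) (I.pos (nat_lit 37601280) (nat_lit 89718784)) (I.mix (nat_lit 35389440) (nat_lit 30425088)) (I.mix (nat_lit 22790144) (nat_lit 30949376)) (I.mix (nat_lit 12615680) (nat_lit 16941056)))
  false (nat_lit 0)
def b0_7 : Bx := Bx.mk (St.mk (I.pos (nat_lit 166002688) (nat_lit 213827584)) (I.mix (nat_lit 7356416) (nat_lit 56754176)) (I.pos (nat_lit 5341184) (nat_lit 87457792)) (I.pos (nat_lit 156598272) (nat_lit 235716608)) (I.mix (nat_lit 117981184) (nat_lit 42188800)) (I.mix (nat_lit 110772224) (nat_lit 57622528)) (I.mix (nat_lit 116801536) (nat_lit 55951360)))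
  false (nat_lit 8288971)
def b0_8 : Bx := Bx.mk (St.mk (I.mix (nat_lit 37011456) (nat_lit 107380736)) (I.mix (nat_lit 12320768) (nat_lit 34947072)) (I.mix (nat_lit 10518528) (nat_lit 22822912)) (I.pos (nat_lit 40534016) (nat_lit 106004480)) (I.mix (nat_lit 48939008) (nat_lit 25100288)) (I.mix (nat_lit 41500672) (nat_lit 25477120)) (I.mix (nat_lit 22872064) (nat_lit 15155200)))
  false (nat_lit 0)
def b0_9 : Bx := Bx.mk (St.mk (I.pos (nat_lit 144867328) (nat_lit 207011840)) (I.mix (nat_lit 37896192) (nat_lit 18579456)) (I.mix (nat_lit 39796736) (nat_lit 36405248)) (I.pos (nat_lit 130334720) (nat_lit 217366528)) (I.mix (nat_lit 52723712) (nat_lit 45842432)) (I.mix (nat_lit 48939008) (nat_lit 43352064)) (I.mix (nat_lit 48775168) (nat_lit 43597824)))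
  false (nat_lit 0)
def b0_10 : Bx := Bx.mk (St.mk (I.pos (nat_lit 167854080) (nat_lit 208863232)) (I.mix (nat_lit 13369344) (nat_lit 33521664)) (I.mix (nat_lit 3883008) (nat_lit 58327040)) (I.pos (nat_lit 157384704) (nat_lit 222576640)) (I.mix (nat_lit 99155968) (nat_lit 51871744)) (I.mix (nat_lit 104611840) (nat_lit 46612480)) (I.mix (nat_lit 112721920) (nat_lit 46874624)))
  false (nat_lit 0)
def b0_11 : Bx := Bx.mk (St.mk (I.pos (nat_lit 180846592) (nat_lit 236650496)) (I.pos (nat_lit 9797632) (nat_lit 56721408)) (I.pos (nat_lit 12304384) (nat_lit 89358336)) (I.pos (nat_lit 200966144) (nat_lit 264617984)) (I.mix (nat_lit 95502336) (nat_lit 72237056)) (I.mix (nat_lit 81821696) (nat_lit 60178432)) (I.mix (nat_lit 121044992) (nat_lit 71548928)))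
  false (nat_lit 32801622)
def t0 : BTr := (BTr.n (BTr.n (BTr.n (BTr.b b0_0) (BTr.n (BTr.b b0_1) (BTr.b b0_2))) (BTr.n (BTr.b b0_3) (BTr.n (BTr.b b0_4) (BTr.b b0_5)))) (BTr.n (BTr.n (BTr.b b0_6) (BTr.n (BTr.b b0_7) (BTr.b b0_8))) (BTr.n (BTr.b b0_9) (BTr.n (BTr.b b0_10) (BTr.b b0_11)))))
namespace T0
def l0 : Tr := Tr.L (Pth.l (Pth.l (Pth.l Pth.z)))
def l1 : Tr := Tr.L (Pth.l (Pth.l (Pth.r (Pth.l Pth.z))))
def l2 : Tr := Tr.L (Pth.l (Pth.l (Pth.r (Pth.r Pth.z))))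
def l3 : Tr := Tr.L (Pth.l (Pth.r (Pth.l Pth.z)))
def l4 : Tr := Tr.L (Pth.l (Pth.r (Pth.r (Pth.l Pth.z))))
def l5 : Tr := Tr.L (Pth.l (Pth.r (Pth.r (Pth.r Pth.z))))
def l6 : Tr := Tr.L (Pth.r (Pth.l (Pth.l Pth.z)))
def l7 : Tr := Tr.L (Pth.r (Pth.l (Pth.r (Pth.l Pth.z))))
def l8 : Tr := Tr.L (Pth.r (Pth.l (Pth.r (Pth.r Pth.z))))
def l9 : Tr := Tr.L (Pth.r (Pth.r (Pth.l Pth.z)))
def l10 : Tr := Tr.L (Pth.r (Pth.r (Pth.r (Pth.l Pth.z))))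
def l11 : Tr := Tr.L (Pth.r (Pth.r (Pth.r (Pth.r Pth.z))))
end T0
def b1_0 : Bx := Bx.mk (St.mk (I.pos (nat_lit 158400512) (nat_lit 237355008)) (I.mix (nat_lit 1589248) (nat_lit 52068352)) (I.mix (nat_lit 2670592) (nat_lit 93585408)) (I.pos (nat_lit 112410624) (nat_lit 239992832)) (I.mix (nat_lit 109248512) (nat_lit 65290240)) (I.mix (nat_lit 79773696) (nat_lit 65503232)) (I.mix (nat_lit 111296512) (nat_lit 84606976)))
  false (nat_lit 17924924)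
def b1_1 : Bx := Bx.mk (St.mk (I.pos (nat_lit 111886336) (nat_lit 182763520)) (I.neg (nat_lit 3178496) (nat_lit 50511872)) (I.mix (nat_lit 48676864) (nat_lit 3571712)) (I.pos (nat_lit 82182144) (nat_lit 161464320)) (I.mix (nat_lit 65978368) (nat_lit 35258368)) (I.mix (nat_lit 34684928) (nat_lit 46563328)) (I.mix (nat_lit 29818880) (nat_lit 44974080)))
  false (nat_lit 0)
def b1_2 : Bx := Bx.mk (St.mk (I.mix (nat_lit 16891904) (nat_lit 134660096)) (I.mix (nat_lit 6946816) (nat_lit 27901952)) (I.mix (nat_lit 10371072) (nat_lit 23592960)) (I.pos (nat_lit 15155200) (nat_lit 101498880)) (I.mix (nat_lit 35110912) (nat_lit 30605312)) (I.mix (nat_lit 29540352) (nat_lit 22921216)) (I.mix (nat_lit 23625728) (nat_lit 17235968)))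
  false (nat_lit 0)
def b1_3 : Bx := Bx.mk (St.mk (I.mix (nat_lit 24641536) (nat_lit 105005056)) (I.mix (nat_lit 27852800) (nat_lit 5931008)) (I.mix (nat_lit 19120128) (nat_lit 5603328)) (I.pos (nat_lit 15007744) (nat_lit 76283904)) (I.mix (nat_lit 32456704) (nat_lit 28131328)) (I.mix (nat_lit 20889600) (nat_lit 27574272)) (I.mix (nat_lit 12763136) (nat_lit 17203200)))
  false (nat_lit 0)
def b1_4 : Bx := Bx.mk (St.mk (I.pos (nat_lit 170967040) (nat_lit 215531520)) (I.mix (nat_lit 10092544) (nat_lit 49872896)) (I.pos (nat_lit 5652480) (nat_lit 85704704)) (I.pos (nat_lit 134381568) (nat_lit 208748544)) (I.mix (nat_lit 115408896) (nat_lit 41074688)) (I.mix (nat_lit 112377856) (nat_lit 55148544)) (I.mix (nat_lit 126910464) (nat_lit 54231040)))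
  false (nat_lit 0)
def b1_5 : Bx := Bx.mk (St.mk (I.pos (nat_lit 105725952) (nat_lit 149225472)) (I.mix (nat_lit 49004544) (nat_lit 7766016)) (I.mix (nat_lit 48627712) (nat_lit 6225920)) (I.pos (nat_lit 63717376) (nat_lit 116588544)) (I.mix (nat_lit 78168064) (nat_lit 27066368)) (I.mix (nat_lit 30294016) (nat_lit 69206016)) (I.mix (nat_lit 23085056) (nat_lit 56393728)))
  false (nat_lit 0)
def b1_6 : Bx := Bx.mk (St.mk (I.mix (nat_lit 24657920) (nat_lit 122191872)) (I.mix (nat_lit 12943360) (nat_lit 32686080)) (I.mix (nat_lit 9158656) (nat_lit 27033600)) (I.pos (nat_lit 15810560) (nat_lit 90521600)) (I.mix (nat_lit 50102272) (nat_lit 22331392)) (I.mix (nat_lit 42434560) (nat_lit 23642112)) (I.mix (nat_lit 26869760) (nat_lit 14958592)))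
  false (nat_lit 0)
def b1_7 : Bx := Bx.mk (St.mk (I.mix (nat_lit 19300352) (nat_lit 91963392)) (I.mix (nat_lit 25935872) (nat_lit 32768)) (I.mix (nat_lit 16957440) (nat_lit 3047424)) (I.pos (nat_lit 16433152) (nat_lit 67158016)) (I.mix (nat_lit 33439744) (nat_lit 17825792)) (I.mix (nat_lit 16039936) (nat_lit 26198016)) (I.mix (nat_lit 8536064) (nat_lit 13254656)))
  false (nat_lit 0)
def b1_8 : Bx := Bx.mk (St.mk (I.pos (nat_lit 189513728) (nat_lit 285425664)) (I.mix (nat_lit 24461312) (nat_lit 38469632)) (I.mix (nat_lit 60211200) (nat_lit 69828608)) (I.pos (nat_lit 186138624) (nat_lit 342245376)) (I.mix (nat_lit 82460672) (nat_lit 52936704)) (I.mix (nat_lit 57769984) (nat_lit 40353792)) (I.mix (nat_lit 93650944) (nat_lit 71745536)))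
  false (nat_lit 12307702)
def b1_9 : Bx := Bx.mk (St.mk (I.pos (nat_lit 150126592) (nat_lit 210157568)) (I.mix (nat_lit 37699584) (nat_lit 13549568)) (I.mix (nat_lit 36683776) (nat_lit 35258368)) (I.pos (nat_lit 111280128) (nat_lit 194494464)) (I.mix (nat_lit 48185344) (nat_lit 46153728)) (I.mix (nat_lit 45973504) (nat_lit 43057152)) (I.mix (nat_lit 47153152) (nat_lit 45088768)))
  false (nat_lit 0)
def b1_10 : Bx := Bx.mk (St.mk (I.pos (nat_lit 182484992) (nat_lit 236093440)) (I.pos (nat_lit 9060352) (nat_lit 51003392)) (I.pos (nat_lit 17956864) (nat_lit 90570752)) (I.pos (nat_lit 176324608) (nat_lit 235438080)) (I.mix (nat_lit 97157120) (nat_lit 69025792)) (I.mix (nat_lit 84049920) (nat_lit 60686336)) (I.mix (nat_lit 129056768) (nat_lit 75300864)))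
  false (nat_lit 28986575)
def b1_11 : Bx := Bx.mk (St.mk (I.pos (nat_lit 170065920) (nat_lit 210927616)) (I.mix (nat_lit 15089664) (nat_lit 30015488)) (I.mix (nat_lit 1589248) (nat_lit 58818560)) (I.pos (nat_lit 133955584) (nat_lit 197443584)) (I.mix (nat_lit 103038976) (nat_lit 52985856)) (I.mix (nat_lit 106741760) (nat_lit 44957696)) (I.mix (nat_lit 119291904) (nat_lit 46727168)))
  false (nat_lit 0)
def t1 : BTr := (BTr.n (BTr.n (BTr.n (BTr.b b1_0) (BTr.n (BTr.b b1_1) (BTr.b b1_2))) (BTr.n (BTr.b b1_3) (BTr.n (BTr.b b1_4) (BTr.b b1_5)))) (BTr.n (BTr.n (BTr.b b1_6) (BTr.n (BTr.b b1_7) (BTr.b b1_8))) (BTr.n (BTr.b b1_9) (BTr.n (BTr.b b1_10) (BTr.b b1_11)))))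
namespace T1
def l0 : Tr := Tr.L (Pth.l (Pth.l (Pth.l Pth.z)))
def l1 : Tr := Tr.L (Pth.l (Pth.l (Pth.r (Pth.l Pth.z))))
def l2 : Tr := Tr.L (Pth.l (Pth.l (Pth.r (Pth.r Pth.z))))
def l3 : Tr := Tr.L (Pth.l (Pth.r (Pth.l Pth.z)))
def l4 : Tr := Tr.L (Pth.l (Pth.r (Pth.r (Pth.l Pth.z))))
def l5 : Tr := Tr.L (Pth.l (Pth.r (Pth.r (Pth.r Pth.z))))
def l6 : Tr := Tr.L (Pth.r (Pth.l (Pth.l Pth.z)))
def l7 : Tr := Tr.L (Pth.r (Pth.l (Pth.r (Pth.l Pth.z))))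
def l8 : Tr := Tr.L (Pth.r (Pth.l (Pth.r (Pth.r Pth.z))))
def l9 : Tr := Tr.L (Pth.r (Pth.r (Pth.l Pth.z)))
def l10 : Tr := Tr.L (Pth.r (Pth.r (Pth.r (Pth.l Pth.z))))
def l11 : Tr := Tr.L (Pth.r (Pth.r (Pth.r (Pth.r Pth.z))))
end T1
def b2_0 : Bx := Bx.mk (St.mk (I.pos (nat_lit 154583040) (nat_lit 234405888)) (I.mix (nat_lit 1703936) (nat_lit 55525376)) (I.mix (nat_lit 2867200) (nat_lit 98500608)) (I.pos (nat_lit 139034624) (nat_lit 260669440)) (I.mix (nat_lit 115048448) (nat_lit 67846144)) (I.mix (nat_lit 82870272) (nat_lit 67895296)) (I.mix (nat_lit 109723648) (nat_lit 86114304)))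
  false (nat_lit 57298811)
def b2_1 : Bx := Bx.mk (St.mk (I.pos (nat_lit 102629376) (nat_lit 177307648)) (I.neg (nat_lit 8044544) (nat_lit 55279616)) (I.mix (nat_lit 50495488) (nat_lit 5308416)) (I.pos (nat_lit 99008512) (nat_lit 179929088)) (I.mix (nat_lit 66584576) (nat_lit 37715968)) (I.mix (nat_lit 33341440) (nat_lit 47939584)) (I.mix (nat_lit 28803072) (nat_lit 43696128)))
  false (nat_lit 0)
def b2_2 : Bx := Bx.mk (St.mk (I.mix (nat_lit 33095680) (nat_lit 85835776)) (I.mix (nat_lit 34111488) (nat_lit 6373376)) (I.mix (nat_lit 18743296) (nat_lit 7962624)) (I.pos (nat_lit 38191104) (nat_lit 90390528)) (I.mix (nat_lit 33275904) (nat_lit 31637504)) (I.mix (nat_lit 22478848) (nat_lit 29589504)) (I.mix (nat_lit 11730944) (nat_lit 15761408)))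
  false (nat_lit 0)
def b2_3 : Bx := Bx.mk (St.mk (I.pos (nat_lit 164904960) (nat_lit 212664320)) (I.mix (nat_lit 7454720) (nat_lit 55410688)) (I.pos (nat_lit 11485184) (nat_lit 93945856)) (I.pos (nat_lit 152797184) (nat_lit 230162432)) (I.mix (nat_lit 119472128) (nat_lit 42188800)) (I.mix (nat_lit 108756992) (nat_lit 58949632)) (I.mix (nat_lit 116523008) (nat_lit 55033856)))
  false (nat_lit 30076004)
def b2_4 : Bx := Bx.mk (St.mk (I.mix (nat_lit 38174720) (nat_lit 106414080)) (I.mix (nat_lit 13172736) (nat_lit 36257792)) (I.mix (nat_lit 7094272) (nat_lit 28049408)) (I.pos (nat_lit 40845312) (nat_lit 105414656)) (I.mix (nat_lit 50085888) (nat_lit 21544960)) (I.mix (nat_lit 42500096) (nat_lit 24150016)) (I.mix (nat_lit 23412736) (nat_lit 14614528)))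
  false (nat_lit 0)
def b2_5 : Bx := Bx.mk (St.mk (I.pos (nat_lit 144392192) (nat_lit 205357056)) (I.mix (nat_lit 36175872) (nat_lit 15155200)) (I.mix (nat_lit 30949376) (nat_lit 41107456)) (I.pos (nat_lit 129941504) (nat_lit 212860928)) (I.mix (nat_lit 52789248) (nat_lit 45301760)) (I.mix (nat_lit 47120384) (nat_lit 42532864)) (I.mix (nat_lit 46350336) (nat_lit 42631168)))
  false (nat_lit 0)
def b2_6 : Bx := Bx.mk (St.mk (I.mix (nat_lit 26558464) (nat_lit 119848960)) (I.mix (nat_lit 6340608) (nat_lit 33636352)) (I.mix (nat_lit 9781248) (nat_lit 25608192)) (I.pos (nat_lit 40157184) (nat_lit 115277824)) (I.mix (nat_lit 43778048) (nat_lit 33832960)) (I.mix (nat_lit 33521664) (nat_lit 25444352)) (I.mix (nat_lit 24084480) (nat_lit 17727488)))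
  false (nat_lit 0)
def b2_7 : Bx := Bx.mk (St.mk (I.pos (nat_lit 92848128) (nat_lit 141443072)) (I.mix (nat_lit 53936128) (nat_lit 7159808)) (I.mix (nat_lit 48971776) (nat_lit 5144576)) (I.pos (nat_lit 80084992) (nat_lit 135299072)) (I.mix (nat_lit 74252288) (nat_lit 28229632)) (I.mix (nat_lit 30818304) (nat_lit 66469888)) (I.mix (nat_lit 22134784) (nat_lit 49709056)))
  false (nat_lit 0)
def b2_8 : Bx := Bx.mk (St.mk (I.mix (nat_lit 34357248) (nat_lit 70057984)) (I.mix (nat_lit 28737536) (nat_lit 3211264)) (I.mix (nat_lit 14401536) (nat_lit 5505024)) (I.pos (nat_lit 41697280) (nat_lit 81870848)) (I.mix (nat_lit 34603008) (nat_lit 19267584)) (I.mix (nat_lit 18464768) (nat_lit 25772032)) (I.mix (nat_lit 8142848) (nat_lit 9846784)))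
  false (nat_lit 0)
def b2_9 : Bx := Bx.mk (St.mk (I.pos (nat_lit 189530112) (nat_lit 284213248)) (I.mix (nat_lit 21315584) (nat_lit 42844160)) (I.mix (nat_lit 54181888) (nat_lit 77103104)) (I.pos (nat_lit 206520320) (nat_lit 363511808)) (I.mix (nat_lit 73416704) (nat_lit 55721984)) (I.mix (nat_lit 57655296) (nat_lit 39108608)) (I.mix (nat_lit 92897280) (nat_lit 62324736)))
  false (nat_lit 25397893)
def b2_10 : Bx := Bx.mk (St.mk (I.pos (nat_lit 177242112) (nat_lit 234979328)) (I.pos (nat_lit 9699328) (nat_lit 54165504)) (I.pos (nat_lit 20480000) (nat_lit 96583680)) (I.pos (nat_lit 194363392) (nat_lit 258441216)) (I.mix (nat_lit 97501184) (nat_lit 71827456)) (I.mix (nat_lit 87179264) (nat_lit 60309504)) (I.mix (nat_lit 130482176) (nat_lit 71319552)))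
  false (nat_lit 28855237)
def b2_11 : Bx := Bx.mk (St.mk (I.pos (nat_lit 164216832) (nat_lit 207273984)) (I.mix (nat_lit 13926400) (nat_lit 33619968)) (I.pos (nat_lit 3244032) (nat_lit 66584576)) (I.pos (nat_lit 152092672) (nat_lit 218349568)) (I.mix (nat_lit 106774528) (nat_lit 49119232)) (I.mix (nat_lit 110051328) (nat_lit 45531136)) (I.mix (nat_lit 118947840) (nat_lit 45465600)))
  false (nat_lit 7128810)
def t2 : BTr := (BTr.n (BTr.n (BTr.n (BTr.b b2_0) (BTr.n (BTr.b b2_1) (BTr.b b2_2))) (BTr.n (BTr.b b2_3) (BTr.n (BTr.b b2_4) (BTr.b b2_5)))) (BTr.n (BTr.n (BTr.b b2_6) (BTr.n (BTr.b b2_7) (BTr.b b2_8))) (BTr.n (BTr.b b2_9) (BTr.n (BTr.b b2_10) (BTr.b b2_11)))))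
namespace T2
def l0 : Tr := Tr.L (Pth.l (Pth.l (Pth.l Pth.z)))
def l1 : Tr := Tr.L (Pth.l (Pth.l (Pth.r (Pth.l Pth.z))))
def l2 : Tr := Tr.L (Pth.l (Pth.l (Pth.r (Pth.r Pth.z))))
def l3 : Tr := Tr.L (Pth.l (Pth.r (Pth.l Pth.z)))
def l4 : Tr := Tr.L (Pth.l (Pth.r (Pth.r (Pth.l Pth.z))))
def l5 : Tr := Tr.L (Pth.l (Pth.r (Pth.r (Pth.r Pth.z))))
def l6 : Tr := Tr.L (Pth.r (Pth.l (Pth.l Pth.z)))
def l7 : Tr := Tr.L (Pth.r (Pth.l (Pth.r (Pth.l Pth.z))))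
def l8 : Tr := Tr.L (Pth.r (Pth.l (Pth.r (Pth.r Pth.z))))
def l9 : Tr := Tr.L (Pth.r (Pth.r (Pth.l Pth.z)))
def l10 : Tr := Tr.L (Pth.r (Pth.r (Pth.r (Pth.l Pth.z))))
def l11 : Tr := Tr.L (Pth.r (Pth.r (Pth.r (Pth.r Pth.z))))
end T2
theorem bx0_0 : BoxOK sI cl7 cl7 cl9 t0 t2 b0_0 :=
  box_mk (TrL.c (I.pos (nat_lit 0) (nat_lit 0)) (xa (xb T0.l0 (xa T0.l0 T0.l0)) (xb T0.l0 (xa T0.l0 T0.l0)))
  (TrL.c (I.pos (nat_lit 0) (nat_lit 0)) (xa (xk T2.l1 T2.l1) (xk (xb T2.l1 T2.l1) (xb T2.l1 T2.l1)))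
  (TrL.c (I.pos (nat_lit 0) (nat_lit 111196574)) (xR T0.l1 T0.l1)
  (TrL.c (I.pos (nat_lit 0) (nat_lit 77433728)) T2.l2
  (TrL.c (I.pos (nat_lit 0) (nat_lit 0)) (xa (xk (xb T2.l3 T2.l11) (xb T2.l3 T2.l11)) (xk (xb T2.l3 (xa T2.l3 T2.l3)) (xb T2.l3 (xa T2.l3 T2.l3))))
  (TrL.c (I.pos (nat_lit 0) (nat_lit 0)) T0.l2
  (TrL.c (I.mix (nat_lit 29511666) (nat_lit 77433728)) (xR T2.l4 T2.l4)
  (TrL.c (I.mix (nat_lit 29511666) (nat_lit 46070178)) T0.l3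
  TrL.n)))))))) (by decide +kernel)
theorem bx0_1 : BoxOK sI cl7 cl7 cl9 t0 t2 b0_1 :=
  box_mk (TrL.c (I.pos (nat_lit 0) (nat_lit 0)) (xa (xa T0.l4 T0.l4) (xa T0.l4 T0.l4))
  (TrL.c (I.pos (nat_lit 0) (nat_lit 0)) (xa T2.l1 T2.l1)
  (TrL.c (I.pos (nat_lit 0) (nat_lit 111196574)) T0.l1
  (TrL.c (I.pos (nat_lit 0) (nat_lit 77433728)) T2.l2
  (TrL.c (I.pos (nat_lit 0) (nat_lit 0)) (xa T2.l5 T2.l5)
  (TrL.c (I.pos (nat_lit 0) (nat_lit 0)) T0.l2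
  (TrL.c (I.mix (nat_lit 29511666) (nat_lit 77433728)) T2.l4
  (TrL.c (I.mix (nat_lit 29511666) (nat_lit 46070178)) T0.l3
  TrL.n)))))))) (by decide +kernel)
theorem bx0_2 : BoxOK sI cl7 cl7 cl9 t0 t2 b0_2 :=
  box_mk (TrL.c (I.pos (nat_lit 0) (nat_lit 0)) (xb T0.l4 T0.l4)
  (TrL.c (I.pos (nat_lit 0) (nat_lit 0)) T2.l1
  (TrL.c (I.pos (nat_lit 0) (nat_lit 111196574)) T0.l1
  (TrL.c (I.pos (nat_lit 0) (nat_lit 77433728)) T2.l2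
  (TrL.c (I.pos (nat_lit 0) (nat_lit 0)) (xb T2.l5 T2.l5)
  (TrL.c (I.pos (nat_lit 0) (nat_lit 0)) T0.l2
  (TrL.c (I.mix (nat_lit 29511666) (nat_lit 77433728)) T2.l4
  (TrL.c (I.mix (nat_lit 29511666) (nat_lit 46070178)) T0.l3
  TrL.n)))))))) (by decide +kernel)
theorem bx0_3 : BoxOK sI cl7 cl7 cl9 t0 t2 b0_3 :=
  box_mk (TrL.c (I.pos (nat_lit 0) (nat_lit 0)) T0.l4
  (TrL.c (I.pos (nat_lit 0) (nat_lit 0)) (xa T2.l5 T2.l1)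
  (TrL.c (I.pos (nat_lit 0) (nat_lit 111196574)) T0.l1
  (TrL.c (I.pos (nat_lit 0) (nat_lit 77433728)) T2.l2
  (TrL.c (I.pos (nat_lit 0) (nat_lit 0)) (xa T2.l1 T2.l5)
  (TrL.c (I.pos (nat_lit 0) (nat_lit 0)) T0.l2
  (TrL.c (I.mix (nat_lit 29511666) (nat_lit 77433728)) T2.l4
  (TrL.c (I.mix (nat_lit 29511666) (nat_lit 46070178)) T0.l3
  TrL.n)))))))) (by decide +kernel)
theorem bx0_4 : BoxOK sI cl7 cl7 cl9 t0 t2 b0_4 :=
  box_mk (TrL.c (I.pos (nat_lit 0) (nat_lit 0)) (xa (xb T0.l0 T0.l0) (xb (xa T0.l0 T0.l0) (xa T0.l0 T0.l0)))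
  (TrL.c (I.pos (nat_lit 0) (nat_lit 0)) (xa (xb T2.l1 T2.l1) (xk (xb T2.l7 T2.l7) (xb T2.l7 T2.l7)))
  (TrL.c (I.pos (nat_lit 0) (nat_lit 111196574)) (xR T0.l8 T0.l1)
  (TrL.c (I.pos (nat_lit 0) (nat_lit 77433728)) (xR T2.l2 T2.l2)
  (TrL.c (I.pos (nat_lit 0) (nat_lit 0)) (xa (xb (xk (xa (xb T2.l3 T2.l3) T2.l0) (xa T2.l3 T2.l0)) (xk T2.l3 T2.l3)) (xb (xk (xa (xb T2.l0 T2.l3) (xb (xk (xa T2.l3 T2.l3) (xa T2.l3 T2.l3)) (xk T2.l3 T2.l3))) (xa (xb T2.l0 T2.l3) (xb (xk (xa T2.l3 T2.l3) (xa T2.l3 T2.l3)) T2.l3))) (xk (xa (xb T2.l3 T2.l3) (xb (xk T2.l3 T2.l3) (xk (xa T2.l3 T2.l3) (xa T2.l3 T2.l3)))) (xa T2.l3 (xb (xk T2.l3 T2.l3) (xk (xa T2.l3 T2.l3) (xa T2.l3 T2.l3)))))))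
  (TrL.c (I.pos (nat_lit 0) (nat_lit 0)) (xk (xb (xa T0.l2 T0.l2) (xa T0.l2 T0.l2)) (xa T0.l2 (xb T0.l2 T0.l2)))
  (TrL.c (I.mix (nat_lit 29511666) (nat_lit 77433728)) (xR T2.l4 (xR T2.l4 T2.l4))
  (TrL.c (I.mix (nat_lit 29511666) (nat_lit 46070178)) T0.l6
  TrL.n)))))))) (by decide +kernel)
theorem bx0_5 : BoxOK sI cl7 cl7 cl9 t0 t2 b0_5 :=
  box_mk (TrL.c (I.pos (nat_lit 0) (nat_lit 0)) (xa T0.l4 T0.l0)
  (TrL.c (I.pos (nat_lit 0) (nat_lit 0)) T2.l1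
  (TrL.c (I.pos (nat_lit 0) (nat_lit 111196574)) (xR T0.l1 T0.l1)
  (TrL.c (I.pos (nat_lit 0) (nat_lit 77433728)) T2.l2
  (TrL.c (I.pos (nat_lit 0) (nat_lit 0)) (xk (xa T2.l5 T2.l5) (xa T2.l5 T2.l5))
  (TrL.c (I.pos (nat_lit 0) (nat_lit 0)) T0.l2
  (TrL.c (I.mix (nat_lit 29511666) (nat_lit 77433728)) (xR T2.l4 T2.l4)
  (TrL.c (I.mix (nat_lit 29511666) (nat_lit 46070178)) T0.l3
  TrL.n)))))))) (by decide +kernel)
theorem bx0_6 : BoxOK sI cl7 cl7 cl9 t0 t2 b0_6 :=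
  box_mk (TrL.c (I.pos (nat_lit 0) (nat_lit 0)) (xa (xa T0.l4 T0.l4) T0.l4)
  (TrL.c (I.pos (nat_lit 0) (nat_lit 0)) (xa T2.l5 T2.l1)
  (TrL.c (I.pos (nat_lit 0) (nat_lit 111196574)) T0.l1
  (TrL.c (I.pos (nat_lit 0) (nat_lit 77433728)) T2.l2
  (TrL.c (I.pos (nat_lit 0) (nat_lit 0)) (xa T2.l1 T2.l5)
  (TrL.c (I.pos (nat_lit 0) (nat_lit 0)) T0.l2
  (TrL.c (I.mix (nat_lit 29511666) (nat_lit 77433728)) T2.l4
  (TrL.c (I.mix (nat_lit 29511666) (nat_lit 46070178)) T0.l3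
  TrL.n)))))))) (by decide +kernel)
theorem bx0_7 : BoxOK sI cl7 cl7 cl9 t0 t2 b0_7 :=
  box_mk (TrL.c (I.pos (nat_lit 0) (nat_lit 0)) (xb (xa T0.l11 T0.l11) (xa T0.l11 T0.l11))
  (TrL.c (I.pos (nat_lit 0) (nat_lit 0)) (xk (xb T2.l1 T2.l1) (xb T2.l1 T2.l1))
  (TrL.c (I.pos (nat_lit 0) (nat_lit 111196574)) (xR T0.l1 T0.l1)
  (TrL.c (I.pos (nat_lit 0) (nat_lit 77433728)) T2.l2
  (TrL.c (I.pos (nat_lit 0) (nat_lit 0)) (xb (xk (xa T2.l11 T2.l11) (xa T2.l11 T2.l11)) (xk (xa T2.l11 T2.l11) T2.l11))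
  (TrL.c (I.pos (nat_lit 0) (nat_lit 0)) T0.l2
  (TrL.c (I.mix (nat_lit 29511666) (nat_lit 77433728)) (xR T2.l4 T2.l4)
  (TrL.c (I.mix (nat_lit 29511666) (nat_lit 46070178)) T0.l6
  TrL.n)))))))) (by decide +kernel)
theorem bx0_8 : BoxOK sI cl7 cl7 cl9 t0 t2 b0_8 :=
  box_mk (TrL.c (I.pos (nat_lit 0) (nat_lit 0)) (xa (xa (xb T0.l4 T0.l4) T0.l4) (xa T0.l4 T0.l4))
  (TrL.c (I.pos (nat_lit 0) (nat_lit 0)) (xa T2.l1 T2.l1)
  (TrL.c (I.pos (nat_lit 0) (nat_lit 111196574)) T0.l1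
  (TrL.c (I.pos (nat_lit 0) (nat_lit 77433728)) T2.l2
  (TrL.c (I.pos (nat_lit 0) (nat_lit 0)) (xa T2.l5 T2.l5)
  (TrL.c (I.pos (nat_lit 0) (nat_lit 0)) T0.l2
  (TrL.c (I.mix (nat_lit 29511666) (nat_lit 77433728)) T2.l4
  (TrL.c (I.mix (nat_lit 29511666) (nat_lit 46070178)) T0.l3
  TrL.n)))))))) (by decide +kernel)
theorem bx0_9 : BoxOK sI cl7 cl7 cl9 t0 t2 b0_9 :=
  box_mk (TrL.c (I.pos (nat_lit 0) (nat_lit 0)) (xa T0.l11 T0.l0)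
  (TrL.c (I.pos (nat_lit 0) (nat_lit 0)) T2.l1
  (TrL.c (I.pos (nat_lit 0) (nat_lit 111196574)) (xR T0.l1 T0.l1)
  (TrL.c (I.pos (nat_lit 0) (nat_lit 77433728)) T2.l2
  (TrL.c (I.pos (nat_lit 0) (nat_lit 0)) (xk (xb (xa T2.l11 T2.l11) T2.l11) (xa T2.l11 (xb T2.l11 T2.l11)))
  (TrL.c (I.pos (nat_lit 0) (nat_lit 0)) T0.l2
  (TrL.c (I.mix (nat_lit 29511666) (nat_lit 77433728)) (xR T2.l4 T2.l4)
  (TrL.c (I.mix (nat_lit 29511666) (nat_lit 46070178)) T0.l3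
  TrL.n)))))))) (by decide +kernel)
theorem bx0_10 : BoxOK sI cl7 cl7 cl9 t0 t2 b0_10 :=
  box_mk (TrL.c (I.pos (nat_lit 0) (nat_lit 0)) (xb T0.l11 T0.l11)
  (TrL.c (I.pos (nat_lit 0) (nat_lit 0)) (xk T2.l1 T2.l1)
  (TrL.c (I.pos (nat_lit 0) (nat_lit 111196574)) (xR T0.l1 T0.l1)
  (TrL.c (I.pos (nat_lit 0) (nat_lit 77433728)) T2.l2
  (TrL.c (I.pos (nat_lit 0) (nat_lit 0)) (xk (xb T2.l11 T2.l11) (xb T2.l11 T2.l11))
  (TrL.c (I.pos (nat_lit 0) (nat_lit 0)) T0.l2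
  (TrL.c (I.mix (nat_lit 29511666) (nat_lit 77433728)) (xR T2.l4 T2.l4)
  (TrL.c (I.mix (nat_lit 29511666) (nat_lit 46070178)) T0.l3
  TrL.n)))))))) (by decide +kernel)
theorem bx0_11 : BoxOK sI cl7 cl7 cl9 t0 t2 b0_11 :=
  box_mk (TrL.c (I.pos (nat_lit 0) (nat_lit 0)) (xa (xb T0.l0 T0.l0) (xb T0.l0 T0.l0))
  (TrL.c (I.pos (nat_lit 0) (nat_lit 0)) (xk (xa T2.l1 T2.l1) (xa T2.l1 T2.l1))
  (TrL.c (I.pos (nat_lit 0) (nat_lit 111196574)) (xR T0.l1 T0.l1)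
  (TrL.c (I.pos (nat_lit 0) (nat_lit 77433728)) T2.l2
  (TrL.c (I.pos (nat_lit 0) (nat_lit 0)) (xk (xa T2.l3 (xb T2.l3 T2.l3)) (xa T2.l3 (xb T2.l3 T2.l3)))
  (TrL.c (I.pos (nat_lit 0) (nat_lit 0)) T0.l2
  (TrL.c (I.mix (nat_lit 29511666) (nat_lit 77433728)) (xR T2.l4 T2.l4)
  (TrL.c (I.mix (nat_lit 29511666) (nat_lit 46070178)) T0.l6
  TrL.n)))))))) (by decide +kernel)
theorem sv0 : StarV sI cl7 cl7 cl9 t0 t2 t0 :=
  (bt_n (bt_n (bt_n (bt_b bx0_0) (bt_n (bt_b bx0_1) (bt_b bx0_2))) (bt_n (bt_b bx0_3) (bt_n (bt_b bx0_4) (bt_b bx0_5)))) (bt_n (bt_n (bt_b bx0_6) (bt_n (bt_b bx0_7) (bt_b bx0_8))) (bt_n (bt_b bx0_9) (bt_n (bt_b bx0_10) (bt_b bx0_11)))))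
def S0 : StarD := StarD.mk cl7 cl7 cl9 0 2 t0
theorem bx1_0 : BoxOK sI cl7 cl9 cl7 t2 t0 b1_0 :=
  box_mk (TrL.c (I.pos (nat_lit 0) (nat_lit 0)) (xa (xb T2.l0 (xa T2.l0 T2.l0)) (xa (xb T2.l0 T2.l0) (xb T2.l0 T2.l0)))
  (TrL.c (I.pos (nat_lit 0) (nat_lit 0)) (xa (xk (xb T0.l5 T0.l5) T0.l5) (xk (xb T0.l5 T0.l5) (xb T0.l5 T0.l5)))
  (TrL.c (I.pos (nat_lit 0) (nat_lit 111196574)) (xR T2.l6 T2.l6)
  (TrL.c (I.pos (nat_lit 0) (nat_lit 77433728)) T0.l6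
  (TrL.c (I.pos (nat_lit 0) (nat_lit 0)) (xa (xk (xb T0.l7 T0.l7) (xb T0.l7 T0.l7)) (xk (xb (xa T0.l7 T0.l7) (xa T0.l7 T0.l7)) (xb (xa T0.l7 T0.l7) (xa T0.l7 T0.l7))))
  (TrL.c (I.pos (nat_lit 0) (nat_lit 0)) (xk T2.l7 T2.l7)
  (TrL.c (I.mix (nat_lit 29511666) (nat_lit 77433728)) (xR T0.l8 T0.l8)
  (TrL.c (I.mix (nat_lit 29511666) (nat_lit 46070178)) T2.l8
  TrL.n)))))))) (by decide +kernel)
theorem bx1_1 : BoxOK sI cl7 cl9 cl7 t2 t0 b1_1 :=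
  box_mk (TrL.c (I.pos (nat_lit 0) (nat_lit 0)) (xa T2.l9 T2.l0)
  (TrL.c (I.pos (nat_lit 0) (nat_lit 0)) T0.l5
  (TrL.c (I.pos (nat_lit 0) (nat_lit 111196574)) (xR T2.l6 T2.l6)
  (TrL.c (I.pos (nat_lit 0) (nat_lit 77433728)) T0.l6
  (TrL.c (I.pos (nat_lit 0) (nat_lit 0)) (xa (xb T0.l9 T0.l9) (xk T0.l9 T0.l9))
  (TrL.c (I.pos (nat_lit 0) (nat_lit 0)) T2.l7
  (TrL.c (I.mix (nat_lit 29511666) (nat_lit 77433728)) (xR T0.l8 T0.l8)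
  (TrL.c (I.mix (nat_lit 29511666) (nat_lit 46070178)) T2.l8
  TrL.n)))))))) (by decide +kernel)
theorem bx1_2 : BoxOK sI cl7 cl9 cl7 t2 t0 b1_2 :=
  box_mk (TrL.c (I.pos (nat_lit 0) (nat_lit 0)) (xa (xa T2.l9 T2.l9) (xa T2.l9 T2.l9))
  (TrL.c (I.pos (nat_lit 0) (nat_lit 0)) (xa T0.l5 T0.l5)
  (TrL.c (I.pos (nat_lit 0) (nat_lit 111196574)) T2.l6
  (TrL.c (I.pos (nat_lit 0) (nat_lit 77433728)) T0.l6
  (TrL.c (I.pos (nat_lit 0) (nat_lit 0)) (xa T0.l9 T0.l9)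
  (TrL.c (I.pos (nat_lit 0) (nat_lit 0)) T2.l7
  (TrL.c (I.mix (nat_lit 29511666) (nat_lit 77433728)) (xR T0.l8 T0.l8)
  (TrL.c (I.mix (nat_lit 29511666) (nat_lit 46070178)) T2.l8
  TrL.n)))))))) (by decide +kernel)
theorem bx1_3 : BoxOK sI cl7 cl9 cl7 t2 t0 b1_3 :=
  box_mk (TrL.c (I.pos (nat_lit 0) (nat_lit 0)) (xa (xa T2.l9 T2.l9) T2.l9)
  (TrL.c (I.pos (nat_lit 0) (nat_lit 0)) (xa T0.l5 T0.l5)
  (TrL.c (I.pos (nat_lit 0) (nat_lit 111196574)) (xR T2.l6 T2.l6)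
  (TrL.c (I.pos (nat_lit 0) (nat_lit 77433728)) T0.l6
  (TrL.c (I.pos (nat_lit 0) (nat_lit 0)) (xa T0.l9 T0.l9)
  (TrL.c (I.pos (nat_lit 0) (nat_lit 0)) T2.l7
  (TrL.c (I.mix (nat_lit 29511666) (nat_lit 77433728)) T0.l8
  (TrL.c (I.mix (nat_lit 29511666) (nat_lit 46070178)) T2.l2
  TrL.n)))))))) (by decide +kernel)
theorem bx1_4 : BoxOK sI cl7 cl9 cl7 t2 t0 b1_4 :=
  box_mk (TrL.c (I.pos (nat_lit 0) (nat_lit 0)) (xb T2.l10 (xa T2.l10 T2.l10))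
  (TrL.c (I.pos (nat_lit 0) (nat_lit 0)) (xk (xb T0.l5 T0.l5) (xb T0.l5 T0.l5))
  (TrL.c (I.pos (nat_lit 0) (nat_lit 111196574)) (xR T2.l6 T2.l6)
  (TrL.c (I.pos (nat_lit 0) (nat_lit 77433728)) T0.l6
  (TrL.c (I.pos (nat_lit 0) (nat_lit 0)) (xb (xk (xa T0.l10 T0.l10) T0.l10) (xk (xa T0.l10 T0.l7) T0.l7))
  (TrL.c (I.pos (nat_lit 0) (nat_lit 0)) T2.l7
  (TrL.c (I.mix (nat_lit 29511666) (nat_lit 77433728)) (xR T0.l8 T0.l8)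
  (TrL.c (I.mix (nat_lit 29511666) (nat_lit 46070178)) T2.l2
  TrL.n)))))))) (by decide +kernel)
theorem bx1_5 : BoxOK sI cl7 cl9 cl7 t2 t0 b1_5 :=
  box_mk (TrL.c (I.pos (nat_lit 0) (nat_lit 0)) T2.l9
  (TrL.c (I.pos (nat_lit 0) (nat_lit 0)) T0.l5
  (TrL.c (I.pos (nat_lit 0) (nat_lit 111196574)) (xR T2.l6 T2.l6)
  (TrL.c (I.pos (nat_lit 0) (nat_lit 77433728)) T0.l6
  (TrL.c (I.pos (nat_lit 0) (nat_lit 0)) (xb T0.l9 T0.l9)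
  (TrL.c (I.pos (nat_lit 0) (nat_lit 0)) T2.l7
  (TrL.c (I.mix (nat_lit 29511666) (nat_lit 77433728)) (xR T0.l8 T0.l8)
  (TrL.c (I.mix (nat_lit 29511666) (nat_lit 46070178)) T2.l8
  TrL.n)))))))) (by decide +kernel)
theorem bx1_6 : BoxOK sI cl7 cl9 cl7 t2 t0 b1_6 :=
  box_mk (TrL.c (I.pos (nat_lit 0) (nat_lit 0)) (xa (xa (xb T2.l9 T2.l9) T2.l9) (xa T2.l9 T2.l9))
  (TrL.c (I.pos (nat_lit 0) (nat_lit 0)) (xa (xa T0.l9 T0.l5) T0.l5)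
  (TrL.c (I.pos (nat_lit 0) (nat_lit 111196574)) T2.l6
  (TrL.c (I.pos (nat_lit 0) (nat_lit 77433728)) T0.l6
  (TrL.c (I.pos (nat_lit 0) (nat_lit 0)) (xa T0.l9 T0.l9)
  (TrL.c (I.pos (nat_lit 0) (nat_lit 0)) T2.l7
  (TrL.c (I.mix (nat_lit 29511666) (nat_lit 77433728)) (xR T0.l8 T0.l8)
  (TrL.c (I.mix (nat_lit 29511666) (nat_lit 46070178)) T2.l8
  TrL.n)))))))) (by decide +kernel)
theorem bx1_7 : BoxOK sI cl7 cl9 cl7 t2 t0 b1_7 :=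
  box_mk (TrL.c (I.pos (nat_lit 0) (nat_lit 0)) T2.l9
  (TrL.c (I.pos (nat_lit 0) (nat_lit 0)) (xa T0.l5 T0.l5)
  (TrL.c (I.pos (nat_lit 0) (nat_lit 111196574)) T2.l6
  (TrL.c (I.pos (nat_lit 0) (nat_lit 77433728)) T0.l6
  (TrL.c (I.pos (nat_lit 0) (nat_lit 0)) (xa T0.l9 T0.l9)
  (TrL.c (I.pos (nat_lit 0) (nat_lit 0)) T2.l7
  (TrL.c (I.mix (nat_lit 29511666) (nat_lit 77433728)) T0.l8
  (TrL.c (I.mix (nat_lit 29511666) (nat_lit 46070178)) T2.l2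
  TrL.n)))))))) (by decide +kernel)
theorem bx1_8 : BoxOK sI cl7 cl9 cl7 t2 t0 b1_8 :=
  box_mk (TrL.c (I.pos (nat_lit 0) (nat_lit 0)) (xa (xb T2.l0 T2.l0) (xb (xa T2.l0 T2.l0) (xa T2.l0 T2.l0)))
  (TrL.c (I.pos (nat_lit 0) (nat_lit 0)) (xa (xk (xb T0.l5 T0.l5) T0.l5) (xk (xb T0.l2 (xa T0.l2 T0.l2)) (xb T0.l2 T0.l2)))
  (TrL.c (I.pos (nat_lit 0) (nat_lit 111196574)) (xR T2.l6 T2.l6)
  (TrL.c (I.pos (nat_lit 0) (nat_lit 77433728)) (xR T0.l6 T0.l6)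
  (TrL.c (I.pos (nat_lit 0) (nat_lit 0)) (xa (xb (xk (xa T0.l7 (xb T0.l7 T0.l7)) (xa T0.l7 (xb T0.l7 T0.l7))) (xk T0.l7 T0.l7)) (xb (xk (xa (xb (xk T0.l7 T0.l7) T0.l7) (xb (xk (xa T0.l7 T0.l7) (xa T0.l7 T0.l7)) (xk T0.l7 T0.l7))) (xa (xb (xk T0.l7 T0.l7) T0.l7) (xb (xk (xa T0.l7 T0.l7) (xa T0.l7 T0.l7)) T0.l7))) (xk (xa T0.l7 (xb (xk T0.l7 T0.l7) (xk (xa T0.l7 T0.l7) (xa T0.l7 T0.l7)))) (xa T0.l7 (xb (xk T0.l7 T0.l7) (xk (xa T0.l7 T0.l7) (xa T0.l7 T0.l7)))))))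
  (TrL.c (I.pos (nat_lit 0) (nat_lit 0)) (xk (xa T2.l7 (xb T2.l7 T2.l7)) (xa T2.l7 (xb T2.l7 T2.l7)))
  (TrL.c (I.mix (nat_lit 29511666) (nat_lit 77433728)) (xR T0.l8 (xR T0.l8 (xR T0.l8 T0.l8)))
  (TrL.c (I.mix (nat_lit 29511666) (nat_lit 46070178)) T2.l2
  TrL.n)))))))) (by decide +kernel)
theorem bx1_9 : BoxOK sI cl7 cl9 cl7 t2 t0 b1_9 :=
  box_mk (TrL.c (I.pos (nat_lit 0) (nat_lit 0)) (xa T2.l10 T2.l0)
  (TrL.c (I.pos (nat_lit 0) (nat_lit 0)) T0.l5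
  (TrL.c (I.pos (nat_lit 0) (nat_lit 111196574)) (xR T2.l6 T2.l6)
  (TrL.c (I.pos (nat_lit 0) (nat_lit 77433728)) T0.l6
  (TrL.c (I.pos (nat_lit 0) (nat_lit 0)) (xk (xa T0.l10 (xb T0.l10 T0.l10)) (xa T0.l10 (xb T0.l10 T0.l10)))
  (TrL.c (I.pos (nat_lit 0) (nat_lit 0)) T2.l7
  (TrL.c (I.mix (nat_lit 29511666) (nat_lit 77433728)) (xR T0.l8 T0.l8)
  (TrL.c (I.mix (nat_lit 29511666) (nat_lit 46070178)) T2.l8
  TrL.n)))))))) (by decide +kernel)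
theorem bx1_10 : BoxOK sI cl7 cl9 cl7 t2 t0 b1_10 :=
  box_mk (TrL.c (I.pos (nat_lit 0) (nat_lit 0)) (xa (xb T2.l0 T2.l0) T2.l0)
  (TrL.c (I.pos (nat_lit 0) (nat_lit 0)) (xk (xa T0.l5 T0.l5) (xa T0.l5 T0.l5))
  (TrL.c (I.pos (nat_lit 0) (nat_lit 111196574)) (xR T2.l6 T2.l6)
  (TrL.c (I.pos (nat_lit 0) (nat_lit 77433728)) T0.l6
  (TrL.c (I.pos (nat_lit 0) (nat_lit 0)) (xk (xa T0.l7 (xb T0.l7 T0.l7)) (xa T0.l7 T0.l7))
  (TrL.c (I.pos (nat_lit 0) (nat_lit 0)) T2.l7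
  (TrL.c (I.mix (nat_lit 29511666) (nat_lit 77433728)) (xR T0.l8 T0.l8)
  (TrL.c (I.mix (nat_lit 29511666) (nat_lit 46070178)) T2.l8
  TrL.n)))))))) (by decide +kernel)
theorem bx1_11 : BoxOK sI cl7 cl9 cl7 t2 t0 b1_11 :=
  box_mk (TrL.c (I.pos (nat_lit 0) (nat_lit 0)) (xb T2.l10 T2.l10)
  (TrL.c (I.pos (nat_lit 0) (nat_lit 0)) (xk T0.l5 T0.l5)
  (TrL.c (I.pos (nat_lit 0) (nat_lit 111196574)) (xR T2.l6 T2.l6)
  (TrL.c (I.pos (nat_lit 0) (nat_lit 77433728)) T0.l6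
  (TrL.c (I.pos (nat_lit 0) (nat_lit 0)) (xk (xb T0.l10 T0.l10) (xb T0.l10 T0.l10))
  (TrL.c (I.pos (nat_lit 0) (nat_lit 0)) T2.l7
  (TrL.c (I.mix (nat_lit 29511666) (nat_lit 77433728)) (xR T0.l8 T0.l8)
  (TrL.c (I.mix (nat_lit 29511666) (nat_lit 46070178)) T2.l2
  TrL.n)))))))) (by decide +kernel)
theorem sv1 : StarV sI cl7 cl9 cl7 t2 t0 t1 :=
  (bt_n (bt_n (bt_n (bt_b bx1_0) (bt_n (bt_b bx1_1) (bt_b bx1_2))) (bt_n (bt_b bx1_3) (bt_n (bt_b bx1_4) (bt_b bx1_5)))) (bt_n (bt_n (bt_b bx1_6) (bt_n (bt_b bx1_7) (bt_b bx1_8))) (bt_n (bt_b bx1_9) (bt_n (bt_b bx1_10) (bt_b bx1_11)))))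
def S1 : StarD := StarD.mk cl7 cl9 cl7 2 0 t1
theorem bx2_0 : BoxOK sI cl9 cl7 cl7 t1 t1 b2_0 :=
  box_mk (TrL.c (I.pos (nat_lit 0) (nat_lit 0)) (xa (xb T1.l0 (xa T1.l0 T1.l0)) (xb T1.l0 (xa T1.l0 T1.l0)))
  (TrL.c (I.pos (nat_lit 0) (nat_lit 0)) (xa (xk T1.l1 T1.l1) (xk (xb T1.l1 T1.l1) T1.l1))
  (TrL.c (I.pos (nat_lit 0) (nat_lit 124588530)) (xR T1.l2 T1.l2)
  (TrL.c (I.pos (nat_lit 0) (nat_lit 96881482)) T1.l3
  (TrL.c (I.pos (nat_lit 0) (nat_lit 0)) (xa (xk (xb T1.l4 T1.l4) (xb T1.l4 T1.l4)) (xk (xb (xa T1.l4 T1.l4) (xa T1.l4 T1.l4)) (xb (xa T1.l4 T1.l4) T1.l4)))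
  (TrL.c (I.pos (nat_lit 0) (nat_lit 0)) T1.l5
  (TrL.c (I.mix (nat_lit 17240550) (nat_lit 96881482)) (xR T1.l6 T1.l6)
  (TrL.c (I.mix (nat_lit 17240550) (nat_lit 71940500)) T1.l7
  TrL.n)))))))) (by decide +kernel)
theorem bx2_1 : BoxOK sI cl9 cl7 cl7 t1 t1 b2_1 :=
  box_mk (TrL.c (I.pos (nat_lit 0) (nat_lit 0)) T1.l8
  (TrL.c (I.pos (nat_lit 0) (nat_lit 0)) T1.l1
  (TrL.c (I.pos (nat_lit 0) (nat_lit 124588530)) (xR T1.l2 T1.l2)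
  (TrL.c (I.pos (nat_lit 0) (nat_lit 96881482)) T1.l3
  (TrL.c (I.pos (nat_lit 0) (nat_lit 0)) (xa T1.l9 (xk T1.l9 T1.l9))
  (TrL.c (I.pos (nat_lit 0) (nat_lit 0)) T1.l5
  (TrL.c (I.mix (nat_lit 17240550) (nat_lit 96881482)) (xR T1.l6 T1.l6)
  (TrL.c (I.mix (nat_lit 17240550) (nat_lit 71940500)) T1.l7
  TrL.n)))))))) (by decide +kernel)
theorem bx2_2 : BoxOK sI cl9 cl7 cl7 t1 t1 b2_2 :=
  box_mk (TrL.c (I.pos (nat_lit 0) (nat_lit 0)) (xa (xa T1.l8 T1.l8) T1.l8)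
  (TrL.c (I.pos (nat_lit 0) (nat_lit 0)) (xa T1.l9 T1.l1)
  (TrL.c (I.pos (nat_lit 0) (nat_lit 124588530)) (xR T1.l2 T1.l2)
  (TrL.c (I.pos (nat_lit 0) (nat_lit 96881482)) T1.l3
  (TrL.c (I.pos (nat_lit 0) (nat_lit 0)) (xa T1.l1 T1.l9)
  (TrL.c (I.pos (nat_lit 0) (nat_lit 0)) T1.l5
  (TrL.c (I.mix (nat_lit 17240550) (nat_lit 96881482)) (xR T1.l6 T1.l6)
  (TrL.c (I.mix (nat_lit 17240550) (nat_lit 71940500)) T1.l3
  TrL.n)))))))) (by decide +kernel)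
theorem bx2_3 : BoxOK sI cl9 cl7 cl7 t1 t1 b2_3 :=
  box_mk (TrL.c (I.pos (nat_lit 0) (nat_lit 0)) (xb T1.l10 (xa T1.l10 T1.l10))
  (TrL.c (I.pos (nat_lit 0) (nat_lit 0)) (xk (xb T1.l1 T1.l1) (xb T1.l1 T1.l1))
  (TrL.c (I.pos (nat_lit 0) (nat_lit 124588530)) (xR T1.l2 T1.l2)
  (TrL.c (I.pos (nat_lit 0) (nat_lit 96881482)) T1.l3
  (TrL.c (I.pos (nat_lit 0) (nat_lit 0)) (xb (xk T1.l11 T1.l11) (xk T1.l11 T1.l11))
  (TrL.c (I.pos (nat_lit 0) (nat_lit 0)) T1.l5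
  (TrL.c (I.mix (nat_lit 17240550) (nat_lit 96881482)) (xR T1.l6 T1.l6)
  (TrL.c (I.mix (nat_lit 17240550) (nat_lit 71940500)) T1.l3
  TrL.n)))))))) (by decide +kernel)
theorem bx2_4 : BoxOK sI cl9 cl7 cl7 t1 t1 b2_4 :=
  box_mk (TrL.c (I.pos (nat_lit 0) (nat_lit 0)) (xa (xa (xb T1.l8 T1.l8) T1.l8) (xa T1.l8 T1.l8))
  (TrL.c (I.pos (nat_lit 0) (nat_lit 0)) (xa T1.l1 T1.l1)
  (TrL.c (I.pos (nat_lit 0) (nat_lit 124588530)) T1.l2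
  (TrL.c (I.pos (nat_lit 0) (nat_lit 96881482)) T1.l3
  (TrL.c (I.pos (nat_lit 0) (nat_lit 0)) (xa T1.l9 T1.l9)
  (TrL.c (I.pos (nat_lit 0) (nat_lit 0)) T1.l5
  (TrL.c (I.mix (nat_lit 17240550) (nat_lit 96881482)) (xR T1.l6 T1.l6)
  (TrL.c (I.mix (nat_lit 17240550) (nat_lit 71940500)) T1.l3
  TrL.n)))))))) (by decide +kernel)
theorem bx2_5 : BoxOK sI cl9 cl7 cl7 t1 t1 b2_5 :=
  box_mk (TrL.c (I.pos (nat_lit 0) (nat_lit 0)) (xa T1.l8 T1.l10)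
  (TrL.c (I.pos (nat_lit 0) (nat_lit 0)) T1.l1
  (TrL.c (I.pos (nat_lit 0) (nat_lit 124588530)) (xR T1.l2 T1.l2)
  (TrL.c (I.pos (nat_lit 0) (nat_lit 96881482)) T1.l3
  (TrL.c (I.pos (nat_lit 0) (nat_lit 0)) (xk (xa T1.l11 (xb T1.l11 T1.l11)) (xa T1.l11 T1.l11))
  (TrL.c (I.pos (nat_lit 0) (nat_lit 0)) T1.l5
  (TrL.c (I.mix (nat_lit 17240550) (nat_lit 96881482)) (xR T1.l6 T1.l6)
  (TrL.c (I.mix (nat_lit 17240550) (nat_lit 71940500)) T1.l7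
  TrL.n)))))))) (by decide +kernel)
theorem bx2_6 : BoxOK sI cl9 cl7 cl7 t1 t1 b2_6 :=
  box_mk (TrL.c (I.pos (nat_lit 0) (nat_lit 0)) (xa (xa T1.l8 T1.l8) (xa T1.l8 T1.l8))
  (TrL.c (I.pos (nat_lit 0) (nat_lit 0)) (xa T1.l1 T1.l1)
  (TrL.c (I.pos (nat_lit 0) (nat_lit 124588530)) T1.l2
  (TrL.c (I.pos (nat_lit 0) (nat_lit 96881482)) T1.l3
  (TrL.c (I.pos (nat_lit 0) (nat_lit 0)) (xa T1.l9 T1.l9)
  (TrL.c (I.pos (nat_lit 0) (nat_lit 0)) T1.l5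
  (TrL.c (I.mix (nat_lit 17240550) (nat_lit 96881482)) T1.l6
  (TrL.c (I.mix (nat_lit 17240550) (nat_lit 71940500)) T1.l3
  TrL.n)))))))) (by decide +kernel)
theorem bx2_7 : BoxOK sI cl9 cl7 cl7 t1 t1 b2_7 :=
  box_mk (TrL.c (I.pos (nat_lit 0) (nat_lit 0)) T1.l8
  (TrL.c (I.pos (nat_lit 0) (nat_lit 0)) T1.l1
  (TrL.c (I.pos (nat_lit 0) (nat_lit 124588530)) (xR T1.l2 T1.l2)
  (TrL.c (I.pos (nat_lit 0) (nat_lit 96881482)) T1.l3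
  (TrL.c (I.pos (nat_lit 0) (nat_lit 0)) (xb T1.l9 T1.l9)
  (TrL.c (I.pos (nat_lit 0) (nat_lit 0)) T1.l5
  (TrL.c (I.mix (nat_lit 17240550) (nat_lit 96881482)) T1.l6
  (TrL.c (I.mix (nat_lit 17240550) (nat_lit 71940500)) T1.l7
  TrL.n)))))))) (by decide +kernel)
theorem bx2_8 : BoxOK sI cl9 cl7 cl7 t1 t1 b2_8 :=
  box_mk (TrL.c (I.pos (nat_lit 0) (nat_lit 0)) T1.l8
  (TrL.c (I.pos (nat_lit 0) (nat_lit 0)) T1.l1
  (TrL.c (I.pos (nat_lit 0) (nat_lit 124588530)) T1.l2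
  (TrL.c (I.pos (nat_lit 0) (nat_lit 96881482)) T1.l3
  (TrL.c (I.pos (nat_lit 0) (nat_lit 0)) (xa T1.l9 T1.l9)
  (TrL.c (I.pos (nat_lit 0) (nat_lit 0)) T1.l5
  (TrL.c (I.mix (nat_lit 17240550) (nat_lit 96881482)) T1.l6
  (TrL.c (I.mix (nat_lit 17240550) (nat_lit 71940500)) T1.l3
  TrL.n)))))))) (by decide +kernel)
theorem bx2_9 : BoxOK sI cl9 cl7 cl7 t1 t1 b2_9 :=
  box_mk (TrL.c (I.pos (nat_lit 0) (nat_lit 0)) (xa (xb T1.l0 T1.l0) (xb T1.l0 T1.l0))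
  (TrL.c (I.pos (nat_lit 0) (nat_lit 0)) (xa (xb T1.l1 (xk T1.l1 T1.l1)) (xk (xb T1.l1 T1.l5) (xb T1.l1 T1.l1)))
  (TrL.c (I.pos (nat_lit 0) (nat_lit 124588530)) (xR T1.l6 T1.l6)
  (TrL.c (I.pos (nat_lit 0) (nat_lit 96881482)) (xR T1.l3 T1.l3)
  (TrL.c (I.pos (nat_lit 0) (nat_lit 0)) (xa (xb (xk (xa T1.l4 T1.l4) (xa T1.l4 T1.l4)) (xk (xa T1.l4 T1.l4) T1.l4)) (xb (xk (xa (xb (xk T1.l4 T1.l4) T1.l4) (xb (xk T1.l4 T1.l4) (xk T1.l4 T1.l4))) (xa (xb T1.l4 T1.l4) (xb (xk T1.l4 T1.l4) T1.l4))) (xk (xa T1.l4 (xk (xb T1.l4 T1.l4) (xb T1.l4 T1.l4))) (xa T1.l4 (xk (xb T1.l4 T1.l4) (xb T1.l4 T1.l4))))))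
  (TrL.c (I.pos (nat_lit 0) (nat_lit 0)) (xk (xa T1.l5 T1.l5) (xa T1.l5 T1.l5))
  (TrL.c (I.mix (nat_lit 17240550) (nat_lit 96881482)) (xR T1.l6 (xR T1.l6 T1.l6))
  (TrL.c (I.mix (nat_lit 17240550) (nat_lit 71940500)) T1.l7
  TrL.n)))))))) (by decide +kernel)
theorem bx2_10 : BoxOK sI cl9 cl7 cl7 t1 t1 b2_10 :=
  box_mk (TrL.c (I.pos (nat_lit 0) (nat_lit 0)) (xa T1.l0 T1.l0)
  (TrL.c (I.pos (nat_lit 0) (nat_lit 0)) (xk (xa T1.l1 T1.l1) (xa T1.l1 T1.l1))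
  (TrL.c (I.pos (nat_lit 0) (nat_lit 124588530)) (xR T1.l2 T1.l2)
  (TrL.c (I.pos (nat_lit 0) (nat_lit 96881482)) T1.l3
  (TrL.c (I.pos (nat_lit 0) (nat_lit 0)) (xk (xa T1.l4 (xb T1.l4 T1.l4)) (xa T1.l4 (xb T1.l4 T1.l4)))
  (TrL.c (I.pos (nat_lit 0) (nat_lit 0)) T1.l5
  (TrL.c (I.mix (nat_lit 17240550) (nat_lit 96881482)) (xR T1.l6 T1.l6)
  (TrL.c (I.mix (nat_lit 17240550) (nat_lit 71940500)) T1.l7
  TrL.n)))))))) (by decide +kernel)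
theorem bx2_11 : BoxOK sI cl9 cl7 cl7 t1 t1 b2_11 :=
  box_mk (TrL.c (I.pos (nat_lit 0) (nat_lit 0)) T1.l10
  (TrL.c (I.pos (nat_lit 0) (nat_lit 0)) (xk T1.l1 T1.l1)
  (TrL.c (I.pos (nat_lit 0) (nat_lit 124588530)) (xR T1.l2 T1.l2)
  (TrL.c (I.pos (nat_lit 0) (nat_lit 96881482)) T1.l3
  (TrL.c (I.pos (nat_lit 0) (nat_lit 0)) (xk (xb T1.l11 T1.l11) T1.l11)
  (TrL.c (I.pos (nat_lit 0) (nat_lit 0)) T1.l5
  (TrL.c (I.mix (nat_lit 17240550) (nat_lit 96881482)) (xR T1.l6 T1.l6)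
  (TrL.c (I.mix (nat_lit 17240550) (nat_lit 71940500)) T1.l7
  TrL.n)))))))) (by decide +kernel)
theorem sv2 : StarV sI cl9 cl7 cl7 t1 t1 t2 :=
  (bt_n (bt_n (bt_n (bt_b bx2_0) (bt_n (bt_b bx2_1) (bt_b bx2_2))) (bt_n (bt_b bx2_3) (bt_n (bt_b bx2_4) (bt_b bx2_5)))) (bt_n (bt_n (bt_b bx2_6) (bt_n (bt_b bx2_7) (bt_b bx2_8))) (bt_n (bt_b bx2_9) (bt_n (bt_b bx2_10) (bt_b bx2_11)))))
def S2 : StarD := StarD.mk cl9 cl7 cl7 1 1 t2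
def G : List StarD := [S0, S1, S2]
theorem so0 : StarOK sI G S0 :=
  star_mk (by decide) (by decide) rfl rfl rfl rfl rfl rfl (rfl : _ = t0) (rfl : _ = t2)
  (st_mk (Pth.l (Pth.l (Pth.l Pth.z))) (nat_lit 141128853) (nat_lit 163731377) (by decide +kernel))
  (st_mk (Pth.l (Pth.l (Pth.l Pth.z))) (nat_lit 176655000) (nat_lit 199691574) (by decide +kernel))
  (st_mk (Pth.l (Pth.l (Pth.l Pth.z))) (nat_lit 217822968) (nat_lit 241460471) (by decide +kernel)) sv0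
theorem so1 : StarOK sI G S1 :=
  star_mk (by decide) (by decide) rfl rfl rfl rfl rfl rfl (rfl : _ = t2) (rfl : _ = t0)
  (st_mk (Pth.l (Pth.l (Pth.l Pth.z))) (nat_lit 115909274) (nat_lit 134647122) (by decide +kernel))
  (st_mk (Pth.l (Pth.l (Pth.l Pth.z))) (nat_lit 151379617) (nat_lit 170526684) (by decide +kernel))
  (st_mk (Pth.l (Pth.l (Pth.l Pth.z))) (nat_lit 192499493) (nat_lit 212226357) (by decide +kernel)) sv1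
theorem so2 : StarOK sI G S2 :=
  star_mk (by decide) (by decide) rfl rfl rfl rfl rfl rfl (rfl : _ = t1) (rfl : _ = t1)
  (st_mk (Pth.l (Pth.l (Pth.l Pth.z))) (nat_lit 140510629) (nat_lit 162913167) (by decide +kernel))
  (st_mk (Pth.l (Pth.l (Pth.l Pth.z))) (nat_lit 175691885) (nat_lit 198462564) (by decide +kernel))
  (st_mk (Pth.l (Pth.l (Pth.l Pth.z))) (nat_lit 216363898) (nat_lit 239647154) (by decide +kernel)) sv2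
theorem ok : GroupOK (nat_lit 150274048) (nat_lit 209387520) G := grp_mk (allS_c so0 (allS_c so1 (allS_c so2 allS_n)))
theorem cov : GCov G cl7 cl7 cl9 := cov_mk
  ⟨0, by decide, rfl, rfl, rfl⟩ ⟨1, by decide, rfl, rfl, rfl⟩ ⟨0, by decide, rfl, rfl, rfl⟩ ⟨1, by decide, rfl, rfl, rfl⟩ ⟨2, by decide, rfl, rfl, rfl⟩ ⟨2, by decide, rfl, rfl, rfl⟩
end Q445_2

namespace Q445_3
def sI : I := I.pos (nat_lit 209321984) (nat_lit 268435456)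
def b0_0 : Bx := Bx.mk (St.mk (I.pos (nat_lit 156450816) (nat_lit 232865792)) (I.mix (nat_lit 3227648) (nat_lit 53149696)) (I.mix (nat_lit 4980736) (nat_lit 84869120)) (I.pos (nat_lit 136216576) (nat_lit 266158080)) (I.mix (nat_lit 107364352) (nat_lit 59604992)) (I.mix (nat_lit 64995328) (nat_lit 57393152)) (I.mix (nat_lit 83378176) (nat_lit 76234752)))
  false (nat_lit 39050061)
def b0_1 : Bx := Bx.mk (St.mk (I.mix (nat_lit 33931264) (nat_lit 126959616)) (I.mix (nat_lit 9879552) (nat_lit 32292864)) (I.mix (nat_lit 17973248) (nat_lit 19251200)) (I.pos (nat_lit 36208640) (nat_lit 119750656)) (I.mix (nat_lit 39665664) (nat_lit 38780928)) (I.mix (nat_lit 31588352) (nat_lit 25051136)) (I.mix (nat_lit 22495232) (nat_lit 15925248)))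
  false (nat_lit 0)
def b0_2 : Bx := Bx.mk (St.mk (I.pos (nat_lit 89915392) (nat_lit 136019968)) (I.mix (nat_lit 50331648) (nat_lit 11386880)) (I.mix (nat_lit 51478528) (nat_lit 3031040)) (I.pos (nat_lit 75792384) (nat_lit 131301376)) (I.mix (nat_lit 77152256) (nat_lit 28377088)) (I.mix (nat_lit 25362432) (nat_lit 61243392)) (I.mix (nat_lit 17727488) (nat_lit 44679168)))
  false (nat_lit 0)
def b0_3 : Bx := Bx.mk (St.mk (I.mix (nat_lit 41910272) (nat_lit 72007680)) (I.mix (nat_lit 30523392) (nat_lit 6946816)) (I.mix (nat_lit 18661376) (nat_lit 2965504)) (I.pos (nat_lit 39829504) (nat_lit 82575360)) (I.mix (nat_lit 39092224) (nat_lit 22806528)) (I.mix (nat_lit 17383424) (nat_lit 28704768)) (I.mix (nat_lit 8372224) (nat_lit 11501568)))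
  false (nat_lit 0)
def b0_4 : Bx := Bx.mk (St.mk (I.pos (nat_lit 195887104) (nat_lit 288030720)) (I.mix (nat_lit 24903680) (nat_lit 40058880)) (I.mix (nat_lit 77250560) (nat_lit 60391424)) (I.pos (nat_lit 207962112) (nat_lit 376258560)) (I.mix (nat_lit 65814528) (nat_lit 49594368)) (I.mix (nat_lit 50528256) (nat_lit 38502400)) (I.mix (nat_lit 90587136) (nat_lit 65191936)))
  false (nat_lit 21648759)
def b0_5 : Bx := Bx.mk (St.mk (I.pos (nat_lit 105283584) (nat_lit 175865856)) (I.neg (nat_lit 6520832) (nat_lit 50151424)) (I.mix (nat_lit 50118656) (nat_lit 98304)) (I.pos (nat_lit 95436800) (nat_lit 178749440)) (I.mix (nat_lit 68812800) (nat_lit 34766848)) (I.mix (nat_lit 30687232) (nat_lit 44793856)) (I.mix (nat_lit 25804800) (nat_lit 41762816)))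
  false (nat_lit 0)
def b0_6 : Bx := Bx.mk (St.mk (I.mix (nat_lit 27639808) (nat_lit 87654400)) (I.mix (nat_lit 30375936) (nat_lit 7028736)) (I.mix (nat_lit 19709952) (nat_lit 4145152)) (I.pos (nat_lit 37191680) (nat_lit 91570176)) (I.mix (nat_lit 35946496) (nat_lit 28295168)) (I.mix (nat_lit 19955712) (nat_lit 26820608)) (I.mix (nat_lit 10780672) (nat_lit 14368768)))
  false (nat_lit 0)
def b0_7 : Bx := Bx.mk (St.mk (I.pos (nat_lit 165560320) (nat_lit 212025344)) (I.mix (nat_lit 7979008) (nat_lit 53444608)) (I.pos (nat_lit 3571712) (nat_lit 83329024)) (I.pos (nat_lit 155435008) (nat_lit 235175936)) (I.mix (nat_lit 121012224) (nat_lit 41975808)) (I.mix (nat_lit 94519296) (nat_lit 54231040)) (I.mix (nat_lit 98762752) (nat_lit 49872896)))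
  false (nat_lit 22754000)
def b0_8 : Bx := Bx.mk (St.mk (I.mix (nat_lit 41713664) (nat_lit 112164864)) (I.mix (nat_lit 13828096) (nat_lit 33554432)) (I.mix (nat_lit 11599872) (nat_lit 21692416)) (I.pos (nat_lit 38797312) (nat_lit 108937216)) (I.mix (nat_lit 46596096) (nat_lit 26394624)) (I.mix (nat_lit 39878656) (nat_lit 21659648)) (I.mix (nat_lit 21741568) (nat_lit 12943360)))
  false (nat_lit 0)
def b0_9 : Bx := Bx.mk (St.mk (I.pos (nat_lit 142753792) (nat_lit 207519744)) (I.mix (nat_lit 33767424) (nat_lit 15073280)) (I.mix (nat_lit 34357248) (nat_lit 32178176)) (I.pos (nat_lit 129482752) (nat_lit 218365952)) (I.mix (nat_lit 53624832) (nat_lit 45760512)) (I.mix (nat_lit 43401216) (nat_lit 40189952)) (I.mix (nat_lit 42532864) (nat_lit 40419328)))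
  false (nat_lit 0)
def b0_10 : Bx := Bx.mk (St.mk (I.pos (nat_lit 166658048) (nat_lit 208093184)) (I.mix (nat_lit 13123584) (nat_lit 29999104)) (I.mix (nat_lit 3260416) (nat_lit 53411840)) (I.pos (nat_lit 158449664) (nat_lit 222003200)) (I.mix (nat_lit 94978048) (nat_lit 48136192)) (I.mix (nat_lit 92323840) (nat_lit 41631744)) (I.mix (nat_lit 97140736) (nat_lit 41762816)))
  false (nat_lit 0)
def b0_11 : Bx := Bx.mk (St.mk (I.pos (nat_lit 181338112) (nat_lit 233635840)) (I.pos (nat_lit 11321344) (nat_lit 52756480)) (I.pos (nat_lit 13746176) (nat_lit 83591168)) (I.pos (nat_lit 198475776) (nat_lit 264077312)) (I.mix (nat_lit 92127232) (nat_lit 67928064)) (I.mix (nat_lit 70238208) (nat_lit 55361536)) (I.mix (nat_lit 102711296) (nat_lit 66109440)))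
  false (nat_lit 33241075)
def t0 : BTr := (BTr.n (BTr.n (BTr.n (BTr.b b0_0) (BTr.n (BTr.b b0_1) (BTr.b b0_2))) (BTr.n (BTr.b b0_3) (BTr.n (BTr.b b0_4) (BTr.b b0_5)))) (BTr.n (BTr.n (BTr.b b0_6) (BTr.n (BTr.b b0_7) (BTr.b b0_8))) (BTr.n (BTr.b b0_9) (BTr.n (BTr.b b0_10) (BTr.b b0_11)))))
namespace T0
def l0 : Tr := Tr.L (Pth.l (Pth.l (Pth.l Pth.z)))
def l1 : Tr := Tr.L (Pth.l (Pth.l (Pth.r (Pth.l Pth.z))))
def l2 : Tr := Tr.L (Pth.l (Pth.l (Pth.r (Pth.r Pth.z))))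
def l3 : Tr := Tr.L (Pth.l (Pth.r (Pth.l Pth.z)))
def l4 : Tr := Tr.L (Pth.l (Pth.r (Pth.r (Pth.l Pth.z))))
def l5 : Tr := Tr.L (Pth.l (Pth.r (Pth.r (Pth.r Pth.z))))
def l6 : Tr := Tr.L (Pth.r (Pth.l (Pth.l Pth.z)))
def l7 : Tr := Tr.L (Pth.r (Pth.l (Pth.r (Pth.l Pth.z))))
def l8 : Tr := Tr.L (Pth.r (Pth.l (Pth.r (Pth.r Pth.z))))
def l9 : Tr := Tr.L (Pth.r (Pth.r (Pth.l Pth.z)))
def l10 : Tr := Tr.L (Pth.r (Pth.r (Pth.r (Pth.l Pth.z))))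
def l11 : Tr := Tr.L (Pth.r (Pth.r (Pth.r (Pth.r Pth.z))))
end T0
def b1_0 : Bx := Bx.mk (St.mk (I.pos (nat_lit 156336128) (nat_lit 234782720)) (I.mix (nat_lit 2899968) (nat_lit 47497216)) (I.mix (nat_lit 4947968) (nat_lit 84721664)) (I.pos (nat_lit 109101056) (nat_lit 238764032)) (I.mix (nat_lit 102105088) (nat_lit 59539456)) (I.mix (nat_lit 66174976) (nat_lit 58605568)) (I.mix (nat_lit 87834624) (nat_lit 72073216)))
  false (nat_lit 28911990)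
def b1_1 : Bx := Bx.mk (St.mk (I.pos (nat_lit 110510080) (nat_lit 180191232)) (I.neg (nat_lit 5275648) (nat_lit 46432256)) (I.mix (nat_lit 44974080) (nat_lit 2752512)) (I.pos (nat_lit 77987840) (nat_lit 157138944)) (I.mix (nat_lit 65044480) (nat_lit 36225024)) (I.mix (nat_lit 30261248) (nat_lit 43155456)) (I.mix (nat_lit 25624576) (nat_lit 42057728)))
  false (nat_lit 0)
def b1_2 : Bx := Bx.mk (St.mk (I.mix (nat_lit 27901952) (nat_lit 139722752)) (I.mix (nat_lit 8634368) (nat_lit 28606464)) (I.mix (nat_lit 12173312) (nat_lit 24035328)) (I.pos (nat_lit 11288576) (nat_lit 104759296)) (I.mix (nat_lit 42500096) (nat_lit 33439744)) (I.mix (nat_lit 30392320) (nat_lit 22364160)) (I.mix (nat_lit 24068096) (nat_lit 16449536)))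
  false (nat_lit 0)
def b1_3 : Bx := Bx.mk (St.mk (I.mix (nat_lit 24084480) (nat_lit 109117440)) (I.mix (nat_lit 26869760) (nat_lit 5996544)) (I.mix (nat_lit 17793024) (nat_lit 5816320)) (I.pos (nat_lit 13139968) (nat_lit 78430208)) (I.mix (nat_lit 32047104) (nat_lit 25837568)) (I.mix (nat_lit 17334272) (nat_lit 25313280)) (I.mix (nat_lit 10289152) (nat_lit 15663104)))
  false (nat_lit 0)
def b1_4 : Bx := Bx.mk (St.mk (I.pos (nat_lit 169754624) (nat_lit 211451904)) (I.mix (nat_lit 10059776) (nat_lit 45088768)) (I.pos (nat_lit 4554752) (nat_lit 80248832)) (I.pos (nat_lit 133611520) (nat_lit 202915840)) (I.mix (nat_lit 113770496) (nat_lit 39714816)) (I.mix (nat_lit 95010816) (nat_lit 45858816)) (I.mix (nat_lit 105185280) (nat_lit 44580864)))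
  false (nat_lit 0)
def b1_5 : Bx := Bx.mk (St.mk (I.pos (nat_lit 103628800) (nat_lit 148013056)) (I.mix (nat_lit 44285952) (nat_lit 10092544)) (I.mix (nat_lit 44630016) (nat_lit 8634368)) (I.pos (nat_lit 61849600) (nat_lit 117178368)) (I.mix (nat_lit 73383936) (nat_lit 34193408)) (I.mix (nat_lit 24887296) (nat_lit 64585728)) (I.mix (nat_lit 19644416) (nat_lit 53100544)))
  false (nat_lit 0)
def b1_6 : Bx := Bx.mk (St.mk (I.mix (nat_lit 29294592) (nat_lit 126304256)) (I.mix (nat_lit 14778368) (nat_lit 28180480)) (I.mix (nat_lit 10780672) (nat_lit 24051712)) (I.pos (nat_lit 13516800) (nat_lit 92717056)) (I.mix (nat_lit 47005696) (nat_lit 24412160)) (I.mix (nat_lit 39075840) (nat_lit 19103744)) (I.mix (nat_lit 24969216) (nat_lit 11403264)))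
  false (nat_lit 0)
def b1_7 : Bx := Bx.mk (St.mk (I.mix (nat_lit 22822912) (nat_lit 96124928)) (I.mix (nat_lit 26116096) (nat_lit 966656)) (I.mix (nat_lit 17350656) (nat_lit 3096576)) (I.pos (nat_lit 14974976) (nat_lit 68763648)) (I.mix (nat_lit 36012032) (nat_lit 18874368)) (I.mix (nat_lit 15269888) (nat_lit 26804224)) (I.mix (nat_lit 7962624) (nat_lit 13762560)))
  false (nat_lit 0)
def b1_8 : Bx := Bx.mk (St.mk (I.pos (nat_lit 193249280) (nat_lit 287211520)) (I.mix (nat_lit 23347200) (nat_lit 35864576)) (I.mix (nat_lit 58703872) (nat_lit 65978368)) (I.pos (nat_lit 183369728) (nat_lit 347684864)) (I.mix (nat_lit 67911680) (nat_lit 47824896)) (I.mix (nat_lit 51511296) (nat_lit 36814848)) (I.mix (nat_lit 92094464) (nat_lit 59359232)))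
  false (nat_lit 9047704)
def b1_9 : Bx := Bx.mk (St.mk (I.pos (nat_lit 150355968) (nat_lit 210239488)) (I.mix (nat_lit 35258368) (nat_lit 13565952)) (I.mix (nat_lit 33816576) (nat_lit 34947072)) (I.pos (nat_lit 112164864) (nat_lit 196935680)) (I.mix (nat_lit 47251456) (nat_lit 44138496)) (I.mix (nat_lit 41762816) (nat_lit 39288832)) (I.mix (nat_lit 41680896) (nat_lit 41402368)))
  false (nat_lit 4355856)
def b1_10 : Bx := Bx.mk (St.mk (I.pos (nat_lit 183123968) (nat_lit 234307584)) (I.pos (nat_lit 7897088) (nat_lit 47579136)) (I.pos (nat_lit 15646720) (nat_lit 85164032)) (I.pos (nat_lit 174145536) (nat_lit 236273664)) (I.mix (nat_lit 90931200) (nat_lit 67813376)) (I.mix (nat_lit 71041024) (nat_lit 56016896)) (I.mix (nat_lit 105627648) (nat_lit 68059136)))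
  false (nat_lit 16668331)
def b1_11 : Bx := Bx.mk (St.mk (I.pos (nat_lit 170262528) (nat_lit 210010112)) (I.mix (nat_lit 10584064) (nat_lit 25837568)) (I.pos (nat_lit 2736128) (nat_lit 53067776)) (I.pos (nat_lit 133382144) (nat_lit 198262784)) (I.mix (nat_lit 94961664) (nat_lit 47251456)) (I.mix (nat_lit 90112000) (nat_lit 42631168)) (I.mix (nat_lit 100417536) (nat_lit 44433408)))
  false (nat_lit 0)
def t1 : BTr := (BTr.n (BTr.n (BTr.n (BTr.b b1_0) (BTr.n (BTr.b b1_1) (BTr.b b1_2))) (BTr.n (BTr.b b1_3) (BTr.n (BTr.b b1_4) (BTr.b b1_5)))) (BTr.n (BTr.n (BTr.b b1_6) (BTr.n (BTr.b b1_7) (BTr.b b1_8))) (BTr.n (BTr.b b1_9) (BTr.n (BTr.b b1_10) (BTr.b b1_11)))))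
namespace T1
def l0 : Tr := Tr.L (Pth.l (Pth.l (Pth.l Pth.z)))
def l1 : Tr := Tr.L (Pth.l (Pth.l (Pth.r (Pth.l Pth.z))))
def l2 : Tr := Tr.L (Pth.l (Pth.l (Pth.r (Pth.r Pth.z))))
def l3 : Tr := Tr.L (Pth.l (Pth.r (Pth.l Pth.z)))
def l4 : Tr := Tr.L (Pth.l (Pth.r (Pth.r (Pth.l Pth.z))))
def l5 : Tr := Tr.L (Pth.l (Pth.r (Pth.r (Pth.r Pth.z))))
def l6 : Tr := Tr.L (Pth.r (Pth.l (Pth.l Pth.z)))
def l7 : Tr := Tr.L (Pth.r (Pth.l (Pth.r (Pth.l Pth.z))))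
def l8 : Tr := Tr.L (Pth.r (Pth.l (Pth.r (Pth.r Pth.z))))
def l9 : Tr := Tr.L (Pth.r (Pth.r (Pth.l Pth.z)))
def l10 : Tr := Tr.L (Pth.r (Pth.r (Pth.r (Pth.l Pth.z))))
def l11 : Tr := Tr.L (Pth.r (Pth.r (Pth.r (Pth.r Pth.z))))
end T1
def b2_0 : Bx := Bx.mk (St.mk (I.pos (nat_lit 154697728) (nat_lit 232095744)) (I.mix (nat_lit 3112960) (nat_lit 51249152)) (I.mix (nat_lit 5341184) (nat_lit 91357184)) (I.pos (nat_lit 135823360) (nat_lit 260030464)) (I.mix (nat_lit 109527040) (nat_lit 59080704)) (I.mix (nat_lit 69566464) (nat_lit 59244544)) (I.mix (nat_lit 87244800) (nat_lit 75071488)))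
  false (nat_lit 45787828)
def b2_1 : Bx := Bx.mk (St.mk (I.pos (nat_lit 100450304) (nat_lit 179634176)) (I.neg (nat_lit 7684096) (nat_lit 51806208)) (I.mix (nat_lit 46596096) (nat_lit 6979584)) (I.pos (nat_lit 94371840) (nat_lit 183287808)) (I.mix (nat_lit 67158016) (nat_lit 38043648)) (I.mix (nat_lit 30375936) (nat_lit 43761664)) (I.mix (nat_lit 26443776) (nat_lit 40271872)))
  false (nat_lit 0)
def b2_2 : Bx := Bx.mk (St.mk (I.mix (nat_lit 29884416) (nat_lit 88997888)) (I.mix (nat_lit 30113792) (nat_lit 8060928)) (I.mix (nat_lit 16171008) (nat_lit 9158656)) (I.pos (nat_lit 37994496) (nat_lit 91815936)) (I.mix (nat_lit 32571392) (nat_lit 29523968)) (I.mix (nat_lit 19251200) (nat_lit 25264128)) (I.mix (nat_lit 9814016) (nat_lit 13352960)))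
  false (nat_lit 0)
def b2_3 : Bx := Bx.mk (St.mk (I.pos (nat_lit 163446784) (nat_lit 210108416)) (I.mix (nat_lit 8224768) (nat_lit 51773440)) (I.pos (nat_lit 10043392) (nat_lit 89063424)) (I.pos (nat_lit 151011328) (nat_lit 228458496)) (I.mix (nat_lit 124567552) (nat_lit 41009152)) (I.mix (nat_lit 97091584) (nat_lit 54181888)) (I.mix (nat_lit 103153664) (nat_lit 47251456)))
  false (nat_lit 24039864)
def b2_4 : Bx := Bx.mk (St.mk (I.mix (nat_lit 43040768) (nat_lit 110886912)) (I.mix (nat_lit 14745600) (nat_lit 32260096)) (I.mix (nat_lit 8110080) (nat_lit 25542656)) (I.pos (nat_lit 38977536) (nat_lit 107429888)) (I.mix (nat_lit 51953664) (nat_lit 23674880)) (I.mix (nat_lit 42745856) (nat_lit 21118976)) (I.mix (nat_lit 23314432) (nat_lit 12582912)))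
  false (nat_lit 0)
def b2_5 : Bx := Bx.mk (St.mk (I.pos (nat_lit 143949824) (nat_lit 206766080)) (I.mix (nat_lit 34144256) (nat_lit 14778368)) (I.mix (nat_lit 27246592) (nat_lit 40239104)) (I.pos (nat_lit 126976000) (nat_lit 215891968)) (I.mix (nat_lit 51904512) (nat_lit 47235072)) (I.mix (nat_lit 43712512) (nat_lit 40435712)) (I.mix (nat_lit 41140224) (nat_lit 39813120)))
  false (nat_lit 0)
def b2_6 : Bx := Bx.mk (St.mk (I.mix (nat_lit 28950528) (nat_lit 124911616)) (I.mix (nat_lit 7192576) (nat_lit 31588352)) (I.mix (nat_lit 10649600) (nat_lit 23855104)) (I.pos (nat_lit 36962304) (nat_lit 118063104)) (I.mix (nat_lit 44171264) (nat_lit 35717120)) (I.mix (nat_lit 32423936) (nat_lit 24952832)) (I.mix (nat_lit 23068672) (nat_lit 17235968)))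
  false (nat_lit 0)
def b2_7 : Bx := Bx.mk (St.mk (I.pos (nat_lit 93618176) (nat_lit 138510336)) (I.mix (nat_lit 50216960) (nat_lit 8847360)) (I.mix (nat_lit 45744128) (nat_lit 6701056)) (I.pos (nat_lit 77692928) (nat_lit 133709824)) (I.mix (nat_lit 74334208) (nat_lit 27426816)) (I.mix (nat_lit 26034176) (nat_lit 56868864)) (I.mix (nat_lit 18284544) (nat_lit 40828928)))
  false (nat_lit 0)
def b2_8 : Bx := Bx.mk (St.mk (I.mix (nat_lit 40730624) (nat_lit 73711616)) (I.mix (nat_lit 30687232) (nat_lit 5439488)) (I.mix (nat_lit 15433728) (nat_lit 6504448)) (I.pos (nat_lit 40173568) (nat_lit 83820544)) (I.mix (nat_lit 36732928) (nat_lit 26214400)) (I.mix (nat_lit 18235392) (nat_lit 26755072)) (I.mix (nat_lit 8077312) (nat_lit 10240000)))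
  false (nat_lit 0)
def b2_9 : Bx := Bx.mk (St.mk (I.pos (nat_lit 193708032) (nat_lit 286441472)) (I.mix (nat_lit 18989056) (nat_lit 38715392)) (I.mix (nat_lit 49709056) (nat_lit 71630848)) (I.pos (nat_lit 202719232) (nat_lit 368558080)) (I.mix (nat_lit 68255744) (nat_lit 48578560)) (I.mix (nat_lit 48529408) (nat_lit 36700160)) (I.mix (nat_lit 84852736) (nat_lit 59916288)))
  false (nat_lit 22561764)
def b2_10 : Bx := Bx.mk (St.mk (I.pos (nat_lit 178995200) (nat_lit 231440384)) (I.pos (nat_lit 14925824) (nat_lit 50118656)) (I.pos (nat_lit 32194560) (nat_lit 89178112)) (I.pos (nat_lit 192954368) (nat_lit 251691008)) (I.mix (nat_lit 92782592) (nat_lit 68157440)) (I.mix (nat_lit 73121792) (nat_lit 52789248)) (I.mix (nat_lit 106512384) (nat_lit 60506112)))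
  false (nat_lit 28204177)
def b2_11 : Bx := Bx.mk (St.mk (I.pos (nat_lit 162971648) (nat_lit 205946880)) (I.mix (nat_lit 10125312) (nat_lit 30097408)) (I.pos (nat_lit 6946816) (nat_lit 61784064)) (I.pos (nat_lit 155893760) (nat_lit 218398720)) (I.mix (nat_lit 105136128) (nat_lit 48726016)) (I.mix (nat_lit 98009088) (nat_lit 43843584)) (I.mix (nat_lit 103251968) (nat_lit 43450368)))
  false (nat_lit 0)
def t2 : BTr := (BTr.n (BTr.n (BTr.n (BTr.b b2_0) (BTr.n (BTr.b b2_1) (BTr.b b2_2))) (BTr.n (BTr.b b2_3) (BTr.n (BTr.b b2_4) (BTr.b b2_5)))) (BTr.n (BTr.n (BTr.b b2_6) (BTr.n (BTr.b b2_7) (BTr.b b2_8))) (BTr.n (BTr.b b2_9) (BTr.n (BTr.b b2_10) (BTr.b b2_11)))))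
namespace T2
def l0 : Tr := Tr.L (Pth.l (Pth.l (Pth.l Pth.z)))
def l1 : Tr := Tr.L (Pth.l (Pth.l (Pth.r (Pth.l Pth.z))))
def l2 : Tr := Tr.L (Pth.l (Pth.l (Pth.r (Pth.r Pth.z))))
def l3 : Tr := Tr.L (Pth.l (Pth.r (Pth.l Pth.z)))
def l4 : Tr := Tr.L (Pth.l (Pth.r (Pth.r (Pth.l Pth.z))))
def l5 : Tr := Tr.L (Pth.l (Pth.r (Pth.r (Pth.r Pth.z))))
def l6 : Tr := Tr.L (Pth.r (Pth.l (Pth.l Pth.z)))
def l7 : Tr := Tr.L (Pth.r (Pth.l (Pth.r (Pth.l Pth.z))))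
def l8 : Tr := Tr.L (Pth.r (Pth.l (Pth.r (Pth.r Pth.z))))
def l9 : Tr := Tr.L (Pth.r (Pth.r (Pth.l Pth.z)))
def l10 : Tr := Tr.L (Pth.r (Pth.r (Pth.r (Pth.l Pth.z))))
def l11 : Tr := Tr.L (Pth.r (Pth.r (Pth.r (Pth.r Pth.z))))
end T2
theorem bx0_0 : BoxOK sI cl7 cl7 cl9 t0 t2 b0_0 :=
  box_mk (TrL.c (I.pos (nat_lit 0) (nat_lit 0)) (xa (xb (xa (xb T0.l0 T0.l11) (xb T0.l0 T0.l0)) (xa (xb (xa T0.l0 T0.l0) (xa (xs T0.l0 T0.l0) (xs T0.l0 T0.l0))) (xb (xa T0.l0 T0.l0) (xa (xs T0.l0 T0.l0) T0.l0)))) (xb (xa (xb T0.l0 T0.l0) (xb T0.l0 T0.l0)) (xa (xb T0.l0 (xa T0.l0 T0.l0)) (xb T0.l0 (xa T0.l0 T0.l0)))))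
  (TrL.c (I.pos (nat_lit 0) (nat_lit 0)) (xa (xk (xb T2.l1 (xa T2.l1 T2.l1)) (xb T2.l1 (xa T2.l1 T2.l1))) (xk (xb T2.l1 (xa T2.l1 T2.l1)) (xb T2.l1 (xa T2.l1 T2.l1))))
  (TrL.c (I.pos (nat_lit 0) (nat_lit 111196574)) (xR T0.l1 T0.l1)
  (TrL.c (I.pos (nat_lit 0) (nat_lit 77433728)) (xR T2.l2 T2.l2)
  (TrL.c (I.pos (nat_lit 0) (nat_lit 0)) (xa (xk (xb (xa T2.l3 T2.l3) (xa T2.l3 T2.l3)) (xb (xa T2.l3 T2.l3) (xa T2.l3 T2.l3))) (xb (xk (xa T2.l3 (xb T2.l3 T2.l3)) (xa T2.l3 (xb T2.l3 T2.l3))) (xk (xa T2.l3 (xb T2.l3 (xk T2.l3 T2.l3))) (xa T2.l3 (xb T2.l3 T2.l3)))))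
  (TrL.c (I.pos (nat_lit 0) (nat_lit 0)) (xk (xa T0.l2 T0.l2) (xa T0.l2 T0.l2))
  (TrL.c (I.mix (nat_lit 29511666) (nat_lit 77433728)) (xR T2.l4 (xR T2.l4 T2.l4))
  (TrL.c (I.mix (nat_lit 29511666) (nat_lit 46070178)) T0.l3
  TrL.n)))))))) (by decide +kernel)
theorem bx0_1 : BoxOK sI cl7 cl7 cl9 t0 t2 b0_1 :=
  box_mk (TrL.c (I.pos (nat_lit 0) (nat_lit 0)) (xa (xa (xb (xa (xb (xa T0.l4 T0.l4) T0.l4) T0.l4) (xa (xb T0.l4 (xa T0.l4 T0.l4)) T0.l4)) (xb T0.l4 (xa T0.l4 T0.l4))) (xa T0.l4 (xb T0.l4 (xa T0.l4 T0.l4))))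
  (TrL.c (I.pos (nat_lit 0) (nat_lit 0)) (xa (xa T2.l1 T2.l1) T2.l1)
  (TrL.c (I.pos (nat_lit 0) (nat_lit 111196574)) T0.l1
  (TrL.c (I.pos (nat_lit 0) (nat_lit 77433728)) T2.l2
  (TrL.c (I.pos (nat_lit 0) (nat_lit 0)) (xa (xa T2.l1 T2.l5) T2.l5)
  (TrL.c (I.pos (nat_lit 0) (nat_lit 0)) (xa T0.l2 T0.l2)
  (TrL.c (I.mix (nat_lit 29511666) (nat_lit 77433728)) T2.l4
  (TrL.c (I.mix (nat_lit 29511666) (nat_lit 46070178)) T0.l3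
  TrL.n)))))))) (by decide +kernel)
theorem bx0_2 : BoxOK sI cl7 cl7 cl9 t0 t2 b0_2 :=
  box_mk (TrL.c (I.pos (nat_lit 0) (nat_lit 0)) (xb (xa T0.l4 T0.l4) (xa T0.l4 T0.l4))
  (TrL.c (I.pos (nat_lit 0) (nat_lit 0)) T2.l1
  (TrL.c (I.pos (nat_lit 0) (nat_lit 111196574)) T0.l1
  (TrL.c (I.pos (nat_lit 0) (nat_lit 77433728)) T2.l2
  (TrL.c (I.pos (nat_lit 0) (nat_lit 0)) (xb (xk T2.l5 T2.l5) (xk T2.l5 T2.l5))
  (TrL.c (I.pos (nat_lit 0) (nat_lit 0)) T0.l2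
  (TrL.c (I.mix (nat_lit 29511666) (nat_lit 77433728)) T2.l4
  (TrL.c (I.mix (nat_lit 29511666) (nat_lit 46070178)) T0.l3
  TrL.n)))))))) (by decide +kernel)
theorem bx0_3 : BoxOK sI cl7 cl7 cl9 t0 t2 b0_3 :=
  box_mk (TrL.c (I.pos (nat_lit 0) (nat_lit 0)) (xa (xb (xa (xa (xb (xa T0.l4 T0.l4) T0.l4) T0.l4) T0.l4) T0.l4) T0.l4)
  (TrL.c (I.pos (nat_lit 0) (nat_lit 0)) (xa T2.l5 T2.l1)
  (TrL.c (I.pos (nat_lit 0) (nat_lit 111196574)) T0.l1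
  (TrL.c (I.pos (nat_lit 0) (nat_lit 77433728)) T2.l2
  (TrL.c (I.pos (nat_lit 0) (nat_lit 0)) (xa T2.l1 T2.l5)
  (TrL.c (I.pos (nat_lit 0) (nat_lit 0)) T0.l2
  (TrL.c (I.mix (nat_lit 29511666) (nat_lit 77433728)) T2.l4
  (TrL.c (I.mix (nat_lit 29511666) (nat_lit 46070178)) T0.l3
  TrL.n)))))))) (by decide +kernel)
theorem c0_4_0 : chkTag sI cl7 cl7 cl9 t0 b0_4 (tg true true false RT.r2) (I.pos (nat_lit 0) (nat_lit 0))
  (xa (xb (xa T0.l0 T0.l0) (xa (xb T0.l0 T0.l0) (xb T0.l0 (xc T0.l0 T0.l0)))) (xb (xa T0.l0 (xb T0.l0 T0.l0)) (xa (xb T0.l0 (xc T0.l0 T0.l0)) (xb (xc T0.l0 T0.l0) (xa T0.l0 T0.l0))))) = true := by decide +kernel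
theorem c0_4_1 : chkTag sI cl7 cl7 cl9 t2 b0_4 (tg true false false RT.r3) (I.pos (nat_lit 0) (nat_lit 0))
  (xa (xb (xk T2.l1 T2.l1) (xk (xa T2.l1 T2.l1) T2.l1)) (xb (xk T2.l7 T2.l1) (xk (xa T2.l1 (xb T2.l7 T2.l7)) (xa T2.l1 T2.l1)))) = true := by decide +kernel
theorem c0_4_2 : chkTag sI cl7 cl7 cl9 t0 b0_4 (Tag.mk true true false RT.tl RT.r4) (I.pos (nat_lit 0) (nat_lit 111196574))
  (xR T0.l1 (xR T0.l1 T0.l8)) = true := by decide +kernel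
theorem c0_4_3 : chkTag sI cl7 cl7 cl9 t2 b0_4 (Tag.mk true false false RT.tl RT.r5) (I.pos (nat_lit 0) (nat_lit 77433728))
  (xR T2.l2 (xR T2.l2 (xR T2.l2 T2.l2))) = true := by decide +kernel
theorem c0_4_4 : chkTag sI cl7 cl7 cl9 t2 b0_4 (tg false false false RT.r3) (I.pos (nat_lit 0) (nat_lit 0))
  (xa (xb (xk (xa T2.l0 (xb (xk T2.l3 T2.l3) T2.l3)) (xa (xb (xk T2.l3 T2.l3) T2.l3) (xb (xk T2.l3 T2.l3) T2.l3))) (xk (xa T2.l3 (xb T2.l3 T2.l3)) (xa T2.l3 T2.l3))) (xb (xk (xa (xb (xk (xa T2.l3 T2.l3) (xa T2.l3 T2.l3)) T2.l3) (xb (xk (xa (xb T2.l3 T2.l3) (xb T2.l3 T2.l3)) (xa (xb T2.l3 T2.l3) (xb T2.l3 T2.l3))) (xk (xa T2.l3 (xb T2.l3 T2.l3)) (xa T2.l3 T2.l3)))) (xa (xb (xk (xa T2.l3 T2.l3) (xa T2.l3 T2.l3)) T2.l3) (xb (xk (xa (xb T2.l3 T2.l3) (xb T2.l3 T2.l3)) (xa (xb T2.l3 T2.l3) (xb T2.l3 T2.l3))) (xk T2.l3 T2.l3)))) (xk (xa (xb T2.l3 (xk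 T2.l3 T2.l3)) (xb (xk (xa T2.l3 (xb T2.l3 T2.l3)) (xa T2.l3 (xb T2.l3 T2.l3))) (xk (xa T2.l3 (xb T2.l3 T2.l3)) (xa T2.l3 (xb T2.l3 T2.l3))))) (xa (xb T2.l3 T2.l3) (xb (xk (xa T2.l3 T2.l3) T2.l3) (xk (xa T2.l3 (xb T2.l3 T2.l3)) (xa T2.l3 (xb T2.l3 T2.l3)))))))) = true := by decide +kernel
theorem c0_4_5 : chkTag sI cl7 cl7 cl9 t0 b0_4 (tg false true false RT.r4) (I.pos (nat_lit 0) (nat_lit 0))
  (xk (xb (xa T0.l5 (xa T0.l2 (xk T0.l2 T0.l2))) (xa T0.l2 (xa T0.l2 (xk T0.l2 T0.l2)))) (xb (xa T0.l2 (xa T0.l2 T0.l2)) (xa T0.l2 (xa T0.l2 T0.l2)))) = true := by decide +kernel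
theorem c0_4_6 : chkTag sI cl7 cl7 cl9 t2 b0_4 (Tag.mk false false false RT.tl RT.r5) (I.mix (nat_lit 29511666) (nat_lit 77433728))
  (xR T2.l4 (xR T2.l4 (xR T2.l4 (xk (xb T2.l4 T2.l4) T2.l4)))) = true := by decide +kernel
theorem c0_4_7 : chkTag sI cl7 cl7 cl9 t0 b0_4 (Tag.mk false true false RT.tl RT.r6) (I.mix (nat_lit 29511666) (nat_lit 46070178))
  T0.l3 = true := by decide +kernel
theorem bx0_4 : BoxOK sI cl7 cl7 cl9 t0 t2 b0_4 :=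
  box_mk' [(tg true true false RT.r2), (tg true false false RT.r3), (Tag.mk true true false RT.tl RT.r4), (Tag.mk true false false RT.tl RT.r5), (tg false false false RT.r3), (tg false true false RT.r4), (Tag.mk false false false RT.tl RT.r5), (Tag.mk false true false RT.tl RT.r6)] rfl (allL_c (ex_mk c0_4_0) (allL_c (ex_mk c0_4_1) (allL_c (ex_mk c0_4_2) (allL_c (ex_mk c0_4_3) (allL_c (ex_mk c0_4_4) (allL_c (ex_mk c0_4_5) (allL_c (ex_mk c0_4_6) (allL_c (ex_mk c0_4_7) allL_n))))))))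
theorem bx0_5 : BoxOK sI cl7 cl7 cl9 t0 t2 b0_5 :=
  box_mk (TrL.c (I.pos (nat_lit 0) (nat_lit 0)) (xa (xb T0.l4 T0.l4) (xb T0.l0 T0.l0))
  (TrL.c (I.pos (nat_lit 0) (nat_lit 0)) T2.l1
  (TrL.c (I.pos (nat_lit 0) (nat_lit 111196574)) T0.l1
  (TrL.c (I.pos (nat_lit 0) (nat_lit 77433728)) T2.l2
  (TrL.c (I.pos (nat_lit 0) (nat_lit 0)) (xa (xk T2.l5 T2.l5) (xk (xb T2.l5 T2.l5) (xb T2.l5 T2.l5)))
  (TrL.c (I.pos (nat_lit 0) (nat_lit 0)) T0.l2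
  (TrL.c (I.mix (nat_lit 29511666) (nat_lit 77433728)) (xR T2.l4 T2.l4)
  (TrL.c (I.mix (nat_lit 29511666) (nat_lit 46070178)) T0.l3
  TrL.n)))))))) (by decide +kernel)
theorem bx0_6 : BoxOK sI cl7 cl7 cl9 t0 t2 b0_6 :=
  box_mk (TrL.c (I.pos (nat_lit 0) (nat_lit 0)) (xa (xa (xb (xa T0.l4 T0.l4) T0.l4) T0.l4) T0.l4)
  (TrL.c (I.pos (nat_lit 0) (nat_lit 0)) (xa T2.l5 T2.l1)
  (TrL.c (I.pos (nat_lit 0) (nat_lit 111196574)) T0.l1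
  (TrL.c (I.pos (nat_lit 0) (nat_lit 77433728)) T2.l2
  (TrL.c (I.pos (nat_lit 0) (nat_lit 0)) (xa T2.l1 T2.l5)
  (TrL.c (I.pos (nat_lit 0) (nat_lit 0)) T0.l2
  (TrL.c (I.mix (nat_lit 29511666) (nat_lit 77433728)) T2.l4
  (TrL.c (I.mix (nat_lit 29511666) (nat_lit 46070178)) T0.l3
  TrL.n)))))))) (by decide +kernel)
theorem bx0_7 : BoxOK sI cl7 cl7 cl9 t0 t2 b0_7 :=
  box_mk (TrL.c (I.pos (nat_lit 0) (nat_lit 0)) (xb (xa (xb T0.l11 (xa T0.l11 T0.l11)) (xb T0.l11 (xa T0.l11 T0.l11))) (xa (xb (xa T0.l11 T0.l11) (xa (xs T0.l11 T0.l11) (xs T0.l11 T0.l11))) (xb (xa T0.l11 T0.l11) (xa (xs T0.l11 T0.l11) (xs T0.l11 T0.l11)))))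
  (TrL.c (I.pos (nat_lit 0) (nat_lit 0)) (xb (xk (xa T2.l1 T2.l1) (xa T2.l1 T2.l1)) (xk (xa T2.l1 (xb T2.l1 T2.l1)) (xa T2.l1 T2.l1)))
  (TrL.c (I.pos (nat_lit 0) (nat_lit 111196574)) (xR T0.l1 T0.l1)
  (TrL.c (I.pos (nat_lit 0) (nat_lit 77433728)) (xR T2.l2 T2.l2)
  (TrL.c (I.pos (nat_lit 0) (nat_lit 0)) (xb (xk (xa T2.l11 (xb T2.l11 T2.l11)) (xa T2.l11 (xb T2.l11 T2.l11))) (xk (xa T2.l11 (xb T2.l11 T2.l11)) (xa T2.l3 (xb T2.l11 (xs T2.l3 T2.l3)))))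
  (TrL.c (I.pos (nat_lit 0) (nat_lit 0)) (xk T0.l2 T0.l2)
  (TrL.c (I.mix (nat_lit 29511666) (nat_lit 77433728)) (xR T2.l4 T2.l4)
  (TrL.c (I.mix (nat_lit 29511666) (nat_lit 46070178)) T0.l3
  TrL.n)))))))) (by decide +kernel)
theorem bx0_8 : BoxOK sI cl7 cl7 cl9 t0 t2 b0_8 :=
  box_mk (TrL.c (I.pos (nat_lit 0) (nat_lit 0)) (xa (xa (xb T0.l4 (xa (xb T0.l4 (xa (xb T0.l4 T0.l4) T0.l4)) (xb T0.l4 (xa T0.l4 T0.l4)))) (xb T0.l4 (xa (xb T0.l4 T0.l4) T0.l4))) (xa (xb T0.l4 T0.l4) (xb T0.l4 (xa T0.l4 T0.l4))))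
  (TrL.c (I.pos (nat_lit 0) (nat_lit 0)) (xa (xa T2.l1 T2.l1) T2.l1)
  (TrL.c (I.pos (nat_lit 0) (nat_lit 111196574)) T0.l1
  (TrL.c (I.pos (nat_lit 0) (nat_lit 77433728)) T2.l2
  (TrL.c (I.pos (nat_lit 0) (nat_lit 0)) (xa (xa T2.l1 T2.l5) T2.l5)
  (TrL.c (I.pos (nat_lit 0) (nat_lit 0)) (xa T0.l2 T0.l2)
  (TrL.c (I.mix (nat_lit 29511666) (nat_lit 77433728)) T2.l4
  (TrL.c (I.mix (nat_lit 29511666) (nat_lit 46070178)) T0.l3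
  TrL.n)))))))) (by decide +kernel)
theorem bx0_9 : BoxOK sI cl7 cl7 cl9 t0 t2 b0_9 :=
  box_mk (TrL.c (I.pos (nat_lit 0) (nat_lit 0)) (xa (xb T0.l0 (xa T0.l11 T0.l11)) T0.l0)
  (TrL.c (I.pos (nat_lit 0) (nat_lit 0)) (xa T2.l1 T2.l1)
  (TrL.c (I.pos (nat_lit 0) (nat_lit 111196574)) T0.l1
  (TrL.c (I.pos (nat_lit 0) (nat_lit 77433728)) T2.l2
  (TrL.c (I.pos (nat_lit 0) (nat_lit 0)) (xk (xa (xb T2.l5 T2.l11) (xb (xa T2.l11 T2.l11) T2.l11)) (xa (xb T2.l5 T2.l11) (xb (xa T2.l11 T2.l11) T2.l11)))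
  (TrL.c (I.pos (nat_lit 0) (nat_lit 0)) (xk T0.l2 T0.l2)
  (TrL.c (I.mix (nat_lit 29511666) (nat_lit 77433728)) (xR T2.l4 T2.l4)
  (TrL.c (I.mix (nat_lit 29511666) (nat_lit 46070178)) T0.l3
  TrL.n)))))))) (by decide +kernel)
theorem bx0_10 : BoxOK sI cl7 cl7 cl9 t0 t2 b0_10 :=
  box_mk (TrL.c (I.pos (nat_lit 0) (nat_lit 0)) (xb (xa T0.l11 T0.l11) (xa T0.l11 T0.l11))
  (TrL.c (I.pos (nat_lit 0) (nat_lit 0)) (xk (xb T2.l1 T2.l1) T2.l1)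
  (TrL.c (I.pos (nat_lit 0) (nat_lit 111196574)) (xR T0.l1 T0.l1)
  (TrL.c (I.pos (nat_lit 0) (nat_lit 77433728)) T2.l2
  (TrL.c (I.pos (nat_lit 0) (nat_lit 0)) (xk (xb (xa T2.l11 T2.l11) T2.l11) (xb (xa T2.l11 T2.l11) (xa T2.l11 T2.l11)))
  (TrL.c (I.pos (nat_lit 0) (nat_lit 0)) T0.l2
  (TrL.c (I.mix (nat_lit 29511666) (nat_lit 77433728)) (xR T2.l4 T2.l4)
  (TrL.c (I.mix (nat_lit 29511666) (nat_lit 46070178)) T0.l3
  TrL.n)))))))) (by decide +kernel)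
theorem bx0_11 : BoxOK sI cl7 cl7 cl9 t0 t2 b0_11 :=
  box_mk (TrL.c (I.pos (nat_lit 0) (nat_lit 0)) (xa (xb (xa T0.l0 T0.l0) (xa (xb T0.l0 T0.l0) (xb T0.l0 T0.l0))) (xb (xa T0.l0 T0.l0) (xa (xb T0.l0 T0.l0) (xb T0.l0 T0.l0))))
  (TrL.c (I.pos (nat_lit 0) (nat_lit 0)) (xk (xa (xb T2.l1 T2.l1) (xb T2.l1 (xk T2.l1 T2.l1))) (xa (xb T2.l1 T2.l1) (xb T2.l1 T2.l1)))
  (TrL.c (I.pos (nat_lit 0) (nat_lit 111196574)) (xR T0.l1 T0.l1)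
  (TrL.c (I.pos (nat_lit 0) (nat_lit 77433728)) (xR T2.l2 T2.l2)
  (TrL.c (I.pos (nat_lit 0) (nat_lit 0)) (xk (xa (xb T2.l3 T2.l3) (xb T2.l3 (xk T2.l3 T2.l3))) (xa T2.l3 (xb T2.l3 T2.l3)))
  (TrL.c (I.pos (nat_lit 0) (nat_lit 0)) (xk T0.l2 T0.l2)
  (TrL.c (I.mix (nat_lit 29511666) (nat_lit 77433728)) (xR T2.l4 (xR T2.l4 T2.l4))
  (TrL.c (I.mix (nat_lit 29511666) (nat_lit 46070178)) T0.l3
  TrL.n)))))))) (by decide +kernel)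
theorem sv0 : StarV sI cl7 cl7 cl9 t0 t2 t0 :=
  (bt_n (bt_n (bt_n (bt_b bx0_0) (bt_n (bt_b bx0_1) (bt_b bx0_2))) (bt_n (bt_b bx0_3) (bt_n (bt_b bx0_4) (bt_b bx0_5)))) (bt_n (bt_n (bt_b bx0_6) (bt_n (bt_b bx0_7) (bt_b bx0_8))) (bt_n (bt_b bx0_9) (bt_n (bt_b bx0_10) (bt_b bx0_11)))))
def S0 : StarD := StarD.mk cl7 cl7 cl9 0 2 t0
theorem bx1_0 : BoxOK sI cl7 cl9 cl7 t2 t0 b1_0 :=
  box_mk (TrL.c (I.pos (nat_lit 0) (nat_lit 0)) (xa (xb (xa (xb T2.l10 (xa T2.l0 T2.l0)) (xb T2.l0 T2.l0)) (xa (xb (xa T2.l0 T2.l0) (xa (xs T2.l0 T2.l0) (xs T2.l0 T2.l0))) (xb (xa T2.l0 T2.l0) (xa (xs T2.l0 T2.l0) T2.l0)))) (xb (xa (xb T2.l0 T2.l0) (xb T2.l0 T2.l0)) (xa (xb T2.l0 (xa T2.l0 T2.l0)) (xb T2.l0 (xa T2.l0 T2.l0)))))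
  (TrL.c (I.pos (nat_lit 0) (nat_lit 0)) (xa (xk (xb T0.l5 (xa T0.l5 T0.l5)) (xb T0.l5 (xa T0.l5 T0.l5))) (xk (xb (xa T0.l5 T0.l5) (xa T0.l5 (xk T0.l5 T0.l5))) (xb T0.l5 (xa T0.l5 T0.l5))))
  (TrL.c (I.pos (nat_lit 0) (nat_lit 111196574)) (xR T2.l6 T2.l6)
  (TrL.c (I.pos (nat_lit 0) (nat_lit 77433728)) (xR T0.l6 T0.l6)
  (TrL.c (I.pos (nat_lit 0) (nat_lit 0)) (xa (xk (xb (xa T0.l7 T0.l7) (xa T0.l7 T0.l7)) (xb (xa T0.l7 T0.l7) (xa T0.l7 T0.l7))) (xb (xk (xa T0.l7 (xb T0.l7 T0.l7)) (xa T0.l7 (xb T0.l7 T0.l7))) (xk (xa T0.l7 (xk (xb T0.l7 T0.l7) T0.l7)) (xa T0.l7 (xk T0.l7 T0.l7)))))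
  (TrL.c (I.pos (nat_lit 0) (nat_lit 0)) (xk (xa T2.l7 T2.l7) (xa T2.l7 T2.l7))
  (TrL.c (I.mix (nat_lit 29511666) (nat_lit 77433728)) (xR T0.l8 (xR T0.l8 (xR T0.l8 T0.l8)))
  (TrL.c (I.mix (nat_lit 29511666) (nat_lit 46070178)) T2.l8
  TrL.n)))))))) (by decide +kernel)
theorem bx1_1 : BoxOK sI cl7 cl9 cl7 t2 t0 b1_1 :=
  box_mk (TrL.c (I.pos (nat_lit 0) (nat_lit 0)) (xa (xb T2.l9 T2.l9) (xb T2.l0 T2.l0))
  (TrL.c (I.pos (nat_lit 0) (nat_lit 0)) (xa T0.l5 T0.l5)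
  (TrL.c (I.pos (nat_lit 0) (nat_lit 111196574)) (xR T2.l6 T2.l6)
  (TrL.c (I.pos (nat_lit 0) (nat_lit 77433728)) T0.l6
  (TrL.c (I.pos (nat_lit 0) (nat_lit 0)) (xa (xk T0.l9 T0.l9) (xk (xb (xa T0.l9 T0.l9) T0.l10) (xb T0.l9 T0.l10)))
  (TrL.c (I.pos (nat_lit 0) (nat_lit 0)) T2.l7
  (TrL.c (I.mix (nat_lit 29511666) (nat_lit 77433728)) T0.l1
  (TrL.c (I.mix (nat_lit 29511666) (nat_lit 46070178)) T2.l8
  TrL.n)))))))) (by decide +kernel)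
theorem bx1_2 : BoxOK sI cl7 cl9 cl7 t2 t0 b1_2 :=
  box_mk (TrL.c (I.pos (nat_lit 0) (nat_lit 0)) (xa (xa (xb T2.l9 (xa (xb T2.l9 (xa T2.l9 T2.l9)) (xb T2.l9 T2.l9))) (xb T2.l9 T2.l9)) (xa (xb T2.l9 (xa T2.l9 T2.l9)) (xa (xb T2.l9 T2.l9) (xb T2.l9 (xa T2.l9 T2.l9)))))
  (TrL.c (I.pos (nat_lit 0) (nat_lit 0)) (xa T0.l5 (xa T0.l5 T0.l5))
  (TrL.c (I.pos (nat_lit 0) (nat_lit 111196574)) T2.l6
  (TrL.c (I.pos (nat_lit 0) (nat_lit 77433728)) T0.l6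
  (TrL.c (I.pos (nat_lit 0) (nat_lit 0)) (xa (xa T0.l5 T0.l9) T0.l9)
  (TrL.c (I.pos (nat_lit 0) (nat_lit 0)) (xa T2.l7 T2.l7)
  (TrL.c (I.mix (nat_lit 29511666) (nat_lit 77433728)) T0.l8
  (TrL.c (I.mix (nat_lit 29511666) (nat_lit 46070178)) T2.l8
  TrL.n)))))))) (by decide +kernel)
theorem bx1_3 : BoxOK sI cl7 cl9 cl7 t2 t0 b1_3 :=
  box_mk (TrL.c (I.pos (nat_lit 0) (nat_lit 0)) (xa (xa (xb (xa (xb T2.l9 T2.l9) T2.l9) T2.l9) T2.l9) T2.l9)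
  (TrL.c (I.pos (nat_lit 0) (nat_lit 0)) (xa (xa T0.l5 T0.l5) T0.l5)
  (TrL.c (I.pos (nat_lit 0) (nat_lit 111196574)) T2.l6
  (TrL.c (I.pos (nat_lit 0) (nat_lit 77433728)) T0.l6
  (TrL.c (I.pos (nat_lit 0) (nat_lit 0)) (xa (xa T0.l5 T0.l9) T0.l9)
  (TrL.c (I.pos (nat_lit 0) (nat_lit 0)) T2.l7
  (TrL.c (I.mix (nat_lit 29511666) (nat_lit 77433728)) T0.l8
  (TrL.c (I.mix (nat_lit 29511666) (nat_lit 46070178)) T2.l8
  TrL.n)))))))) (by decide +kernel)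
theorem bx1_4 : BoxOK sI cl7 cl9 cl7 t2 t0 b1_4 :=
  box_mk (TrL.c (I.pos (nat_lit 0) (nat_lit 0)) (xb (xa (xb T2.l10 T2.l10) (xb T2.l10 T2.l10)) (xa (xb (xa T2.l10 T2.l10) (xa T2.l10 T2.l10)) (xb (xa T2.l10 T2.l10) (xa T2.l10 T2.l10))))
  (TrL.c (I.pos (nat_lit 0) (nat_lit 0)) (xb (xk (xa T0.l5 T0.l5) (xa T0.l5 T0.l5)) (xk (xa T0.l5 (xb T0.l5 T0.l5)) (xa T0.l5 T0.l5)))
  (TrL.c (I.pos (nat_lit 0) (nat_lit 111196574)) (xR T2.l6 T2.l6)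
  (TrL.c (I.pos (nat_lit 0) (nat_lit 77433728)) (xR T0.l6 T0.l6)
  (TrL.c (I.pos (nat_lit 0) (nat_lit 0)) (xb (xk (xa T0.l10 (xb T0.l10 T0.l10)) (xa T0.l10 (xb T0.l10 T0.l10))) (xk (xa T0.l7 (xb T0.l10 T0.l7)) (xa T0.l7 (xb T0.l10 T0.l10))))
  (TrL.c (I.pos (nat_lit 0) (nat_lit 0)) (xk T2.l7 T2.l7)
  (TrL.c (I.mix (nat_lit 29511666) (nat_lit 77433728)) (xR T0.l8 T0.l8)
  (TrL.c (I.mix (nat_lit 29511666) (nat_lit 46070178)) T2.l8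
  TrL.n)))))))) (by decide +kernel)
theorem bx1_5 : BoxOK sI cl7 cl9 cl7 t2 t0 b1_5 :=
  box_mk (TrL.c (I.pos (nat_lit 0) (nat_lit 0)) (xb (xa T2.l9 T2.l9) (xa (xb T2.l9 T2.l9) T2.l9))
  (TrL.c (I.pos (nat_lit 0) (nat_lit 0)) T0.l5
  (TrL.c (I.pos (nat_lit 0) (nat_lit 111196574)) T2.l6
  (TrL.c (I.pos (nat_lit 0) (nat_lit 77433728)) T0.l6
  (TrL.c (I.pos (nat_lit 0) (nat_lit 0)) (xb (xk (xa T0.l9 T0.l9) (xa T0.l9 T0.l9)) (xk T0.l9 T0.l9))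
  (TrL.c (I.pos (nat_lit 0) (nat_lit 0)) T2.l7
  (TrL.c (I.mix (nat_lit 29511666) (nat_lit 77433728)) T0.l1
  (TrL.c (I.mix (nat_lit 29511666) (nat_lit 46070178)) T2.l8
  TrL.n)))))))) (by decide +kernel)
theorem bx1_6 : BoxOK sI cl7 cl9 cl7 t2 t0 b1_6 :=
  box_mk (TrL.c (I.pos (nat_lit 0) (nat_lit 0)) (xa (xa (xb T2.l9 (xa (xb T2.l9 (xa T2.l9 T2.l9)) (xb T2.l9 T2.l9))) (xb T2.l9 (xa T2.l9 T2.l9))) (xa T2.l9 (xb T2.l9 (xa T2.l9 (xb T2.l9 T2.l9)))))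
  (TrL.c (I.pos (nat_lit 0) (nat_lit 0)) (xa (xa T0.l5 T0.l5) (xa T0.l5 T0.l5))
  (TrL.c (I.pos (nat_lit 0) (nat_lit 111196574)) T2.l6
  (TrL.c (I.pos (nat_lit 0) (nat_lit 77433728)) T0.l6
  (TrL.c (I.pos (nat_lit 0) (nat_lit 0)) (xa (xa T0.l5 T0.l9) T0.l9)
  (TrL.c (I.pos (nat_lit 0) (nat_lit 0)) (xa T2.l7 T2.l7)
  (TrL.c (I.mix (nat_lit 29511666) (nat_lit 77433728)) T0.l8
  (TrL.c (I.mix (nat_lit 29511666) (nat_lit 46070178)) T2.l8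
  TrL.n)))))))) (by decide +kernel)
theorem bx1_7 : BoxOK sI cl7 cl9 cl7 t2 t0 b1_7 :=
  box_mk (TrL.c (I.pos (nat_lit 0) (nat_lit 0)) (xa (xa (xb T2.l9 T2.l9) T2.l9) T2.l9)
  (TrL.c (I.pos (nat_lit 0) (nat_lit 0)) (xa T0.l5 T0.l5)
  (TrL.c (I.pos (nat_lit 0) (nat_lit 111196574)) T2.l6
  (TrL.c (I.pos (nat_lit 0) (nat_lit 77433728)) T0.l6
  (TrL.c (I.pos (nat_lit 0) (nat_lit 0)) (xa (xa T0.l5 T0.l9) T0.l9)
  (TrL.c (I.pos (nat_lit 0) (nat_lit 0)) T2.l7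
  (TrL.c (I.mix (nat_lit 29511666) (nat_lit 77433728)) T0.l8
  (TrL.c (I.mix (nat_lit 29511666) (nat_lit 46070178)) T2.l8
  TrL.n)))))))) (by decide +kernel)
theorem c1_8_0 : chkTag sI cl7 cl9 cl7 t2 b1_8 (tg true true false RT.r2) (I.pos (nat_lit 0) (nat_lit 0))
  (xa (xb (xa T2.l0 T2.l0) (xa (xb T2.l0 T2.l0) (xb T2.l0 T2.l0))) (xb (xa T2.l0 (xb T2.l0 T2.l0)) (xa (xb T2.l0 (xa T2.l0 T2.l0)) (xb (xa T2.l0 T2.l0) (xa T2.l0 T2.l0))))) = true := by decide +kernel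
theorem c1_8_1 : chkTag sI cl7 cl9 cl7 t0 b1_8 (tg true false false RT.r3) (I.pos (nat_lit 0) (nat_lit 0))
  (xa (xb (xk (xa T0.l5 T0.l2) T0.l5) (xk (xa T0.l5 (xb T0.l5 T0.l5)) (xa T0.l5 T0.l5))) (xk (xb T0.l2 (xa T0.l2 T0.l2)) (xb (xa T0.l2 T0.l2) (xa (xb T0.l5 T0.l2) T0.l2)))) = true := by decide +kernel
theorem c1_8_2 : chkTag sI cl7 cl9 cl7 t2 b1_8 (Tag.mk true true false RT.tl RT.r4) (I.pos (nat_lit 0) (nat_lit 111196574))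
  (xR T2.l6 (xR T2.l6 T2.l4)) = true := by decide +kernel
theorem c1_8_3 : chkTag sI cl7 cl9 cl7 t0 b1_8 (Tag.mk true false false RT.tl RT.r5) (I.pos (nat_lit 0) (nat_lit 77433728))
  (xR T0.l6 (xR T0.l6 (xR T0.l6 T0.l6))) = true := by decide +kernel
theorem c1_8_4 : chkTag sI cl7 cl9 cl7 t0 b1_8 (tg false false false RT.r3) (I.pos (nat_lit 0) (nat_lit 0))
  (xa (xb (xk (xa (xb T0.l0 T0.l7) (xb (xk T0.l7 T0.l7) T0.l7)) (xa (xb (xk T0.l7 T0.l7) T0.l7) (xb (xk T0.l7 T0.l7) T0.l7))) (xk (xa T0.l7 T0.l7) (xa T0.l7 T0.l7))) (xb (xk (xa (xb (xk (xa T0.l7 T0.l7) (xa T0.l7 T0.l7)) T0.l7) (xb (xk (xa T0.l7 (xb T0.l7 T0.l7)) (xa T0.l7 (xb T0.l7 T0.l7))) (xk T0.l7 T0.l7))) (xa (xb (xk (xa T0.l7 T0.l7) (xa T0.l7 T0.l7)) T0.l7) (xb (xk (xa (xb T0.l7 T0.l7) (xb T0.l7 T0.l7)) (xa (xb T0.l7 T0.l7) (xb T0.l7 T0.l7))) (xk T0.l7 T0.l7)))) (xk (xa (xb T0.l7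 (xk T0.l7 T0.l7)) (xb (xk (xa T0.l7 (xb T0.l7 T0.l7)) (xa T0.l7 T0.l7)) (xk (xa T0.l7 (xb T0.l7 T0.l7)) (xa T0.l7 (xb T0.l7 T0.l7))))) (xa (xb T0.l7 T0.l7) (xb (xk (xa T0.l7 T0.l7) (xa T0.l7 T0.l7)) (xk (xa T0.l7 (xb T0.l7 T0.l7)) (xa T0.l7 (xb T0.l7 T0.l7)))))))) = true := by decide +kernel
theorem c1_8_5 : chkTag sI cl7 cl9 cl7 t2 b1_8 (tg false true false RT.r4) (I.pos (nat_lit 0) (nat_lit 0))
  (xa (xk (xb T2.l7 T2.l7) (xb T2.l7 T2.l7)) (xk (xb (xa T2.l7 (xk T2.l7 T2.l7)) (xk (xa T2.l7 T2.l7) T2.l7)) (xb (xa T2.l7 T2.l7) (xa T2.l7 T2.l7)))) = true := by decide +kernel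
theorem c1_8_6 : chkTag sI cl7 cl9 cl7 t0 b1_8 (Tag.mk false false false RT.tl RT.r5) (I.mix (nat_lit 29511666) (nat_lit 77433728))
  (xR T0.l8 (xR T0.l8 (xR T0.l8 (xk (xa T0.l8 T0.l8) T0.l8)))) = true := by decide +kernel
theorem c1_8_7 : chkTag sI cl7 cl9 cl7 t2 b1_8 (Tag.mk false true false RT.tl RT.r6) (I.mix (nat_lit 29511666) (nat_lit 46070178))
  T2.l8 = true := by decide +kernel
theorem bx1_8 : BoxOK sI cl7 cl9 cl7 t2 t0 b1_8 :=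
  box_mk' [(tg true true false RT.r2), (tg true false false RT.r3), (Tag.mk true true false RT.tl RT.r4), (Tag.mk true false false RT.tl RT.r5), (tg false false false RT.r3), (tg false true false RT.r4), (Tag.mk false false false RT.tl RT.r5), (Tag.mk false true false RT.tl RT.r6)] rfl (allL_c (ex_mk c1_8_0) (allL_c (ex_mk c1_8_1) (allL_c (ex_mk c1_8_2) (allL_c (ex_mk c1_8_3) (allL_c (ex_mk c1_8_4) (allL_c (ex_mk c1_8_5) (allL_c (ex_mk c1_8_6) (allL_c (ex_mk c1_8_7) allL_n))))))))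
theorem bx1_9 : BoxOK sI cl7 cl9 cl7 t2 t0 b1_9 :=
  box_mk (TrL.c (I.pos (nat_lit 0) (nat_lit 0)) (xa (xb T2.l0 (xa T2.l0 T2.l0)) T2.l0)
  (TrL.c (I.pos (nat_lit 0) (nat_lit 0)) (xa T0.l5 (xb T0.l5 T0.l5))
  (TrL.c (I.pos (nat_lit 0) (nat_lit 111196574)) (xR T2.l6 T2.l6)
  (TrL.c (I.pos (nat_lit 0) (nat_lit 77433728)) T0.l6
  (TrL.c (I.pos (nat_lit 0) (nat_lit 0)) (xk (xa (xb T0.l10 T0.l10) (xb (xa T0.l10 (xk T0.l0 T0.l0)) T0.l10)) (xa (xb T0.l10 T0.l10) (xb (xa T0.l10 (xb T0.l7 T0.l10)) T0.l10)))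
  (TrL.c (I.pos (nat_lit 0) (nat_lit 0)) (xk T2.l7 T2.l7)
  (TrL.c (I.mix (nat_lit 29511666) (nat_lit 77433728)) T0.l1
  (TrL.c (I.mix (nat_lit 29511666) (nat_lit 46070178)) T2.l8
  TrL.n)))))))) (by decide +kernel)
theorem bx1_10 : BoxOK sI cl7 cl9 cl7 t2 t0 b1_10 :=
  box_mk (TrL.c (I.pos (nat_lit 0) (nat_lit 0)) (xa (xb (xa T2.l0 T2.l0) (xa (xb T2.l0 T2.l0) (xb T2.l0 T2.l0))) (xb (xa T2.l0 T2.l0) (xa (xb T2.l0 T2.l0) (xb T2.l0 T2.l0))))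
  (TrL.c (I.pos (nat_lit 0) (nat_lit 0)) (xk (xa (xb T0.l5 T0.l5) (xb T0.l5 (xk T0.l5 T0.l5))) (xa (xb T0.l5 T0.l5) (xb T0.l5 (xk T0.l5 T0.l5))))
  (TrL.c (I.pos (nat_lit 0) (nat_lit 111196574)) (xR T2.l6 T2.l6)
  (TrL.c (I.pos (nat_lit 0) (nat_lit 77433728)) (xR T0.l6 T0.l6)
  (TrL.c (I.pos (nat_lit 0) (nat_lit 0)) (xk (xa (xb T0.l7 (xk T0.l7 T0.l7)) (xb T0.l7 (xk T0.l7 T0.l7))) (xa T0.l7 (xb T0.l7 (xk T0.l7 T0.l7))))
  (TrL.c (I.pos (nat_lit 0) (nat_lit 0)) (xk T2.l7 T2.l7)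
  (TrL.c (I.mix (nat_lit 29511666) (nat_lit 77433728)) (xR T0.l8 (xR T0.l8 T0.l8))
  (TrL.c (I.mix (nat_lit 29511666) (nat_lit 46070178)) T2.l8
  TrL.n)))))))) (by decide +kernel)
theorem bx1_11 : BoxOK sI cl7 cl9 cl7 t2 t0 b1_11 :=
  box_mk (TrL.c (I.pos (nat_lit 0) (nat_lit 0)) (xa (xb T2.l10 T2.l10) (xb T2.l10 T2.l10))
  (TrL.c (I.pos (nat_lit 0) (nat_lit 0)) (xk (xb T0.l5 T0.l5) (xb T0.l5 T0.l5))
  (TrL.c (I.pos (nat_lit 0) (nat_lit 111196574)) (xR T2.l6 T2.l6)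
  (TrL.c (I.pos (nat_lit 0) (nat_lit 77433728)) T0.l6
  (TrL.c (I.pos (nat_lit 0) (nat_lit 0)) (xk (xb (xa T0.l10 T0.l10) T0.l10) (xb (xa T0.l10 T0.l10) T0.l10))
  (TrL.c (I.pos (nat_lit 0) (nat_lit 0)) T2.l7
  (TrL.c (I.mix (nat_lit 29511666) (nat_lit 77433728)) (xR T0.l8 T0.l8)
  (TrL.c (I.mix (nat_lit 29511666) (nat_lit 46070178)) T2.l8
  TrL.n)))))))) (by decide +kernel)
theorem sv1 : StarV sI cl7 cl9 cl7 t2 t0 t1 :=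
  (bt_n (bt_n (bt_n (bt_b bx1_0) (bt_n (bt_b bx1_1) (bt_b bx1_2))) (bt_n (bt_b bx1_3) (bt_n (bt_b bx1_4) (bt_b bx1_5)))) (bt_n (bt_n (bt_b bx1_6) (bt_n (bt_b bx1_7) (bt_b bx1_8))) (bt_n (bt_b bx1_9) (bt_n (bt_b bx1_10) (bt_b bx1_11)))))
def S1 : StarD := StarD.mk cl7 cl9 cl7 2 0 t1
theorem bx2_0 : BoxOK sI cl9 cl7 cl7 t1 t1 b2_0 :=
  box_mk (TrL.c (I.pos (nat_lit 0) (nat_lit 0)) (xa (xb (xa (xb T1.l0 T1.l10) (xb T1.l0 T1.l0)) (xa (xb (xa T1.l0 T1.l0) (xa (xs T1.l0 T1.l0) T1.l0)) (xb (xa T1.l0 T1.l0) (xa T1.l0 T1.l0)))) (xb (xa (xb T1.l0 T1.l0) T1.l0) (xa (xb T1.l0 (xa T1.l0 T1.l0)) (xb T1.l0 (xa T1.l0 T1.l0)))))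
  (TrL.c (I.pos (nat_lit 0) (nat_lit 0)) (xa (xk (xb T1.l1 (xa T1.l1 T1.l1)) (xb T1.l1 (xa T1.l1 T1.l1))) (xk (xb T1.l1 (xa T1.l1 T1.l1)) (xb T1.l1 (xa T1.l1 T1.l1))))
  (TrL.c (I.pos (nat_lit 0) (nat_lit 124588530)) (xR T1.l2 T1.l2)
  (TrL.c (I.pos (nat_lit 0) (nat_lit 96881482)) (xR T1.l3 T1.l3)
  (TrL.c (I.pos (nat_lit 0) (nat_lit 0)) (xa (xk (xb (xa T1.l4 T1.l4) (xa T1.l4 T1.l4)) (xb (xa T1.l11 T1.l4) (xa T1.l4 T1.l4))) (xb (xk (xa (xb T1.l4 T1.l4) (xk T1.l4 T1.l4)) (xa T1.l4 (xb T1.l4 T1.l4))) (xk (xa T1.l4 (xk T1.l4 T1.l4)) (xa T1.l4 (xb T1.l4 T1.l4)))))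
  (TrL.c (I.pos (nat_lit 0) (nat_lit 0)) (xk (xa T1.l5 T1.l5) T1.l5)
  (TrL.c (I.mix (nat_lit 17240550) (nat_lit 96881482)) (xR T1.l6 (xR T1.l6 (xR T1.l6 T1.l6)))
  (TrL.c (I.mix (nat_lit 17240550) (nat_lit 71940500)) T1.l7
  TrL.n)))))))) (by decide +kernel)
theorem bx2_1 : BoxOK sI cl9 cl7 cl7 t1 t1 b2_1 :=
  box_mk (TrL.c (I.pos (nat_lit 0) (nat_lit 0)) (xa (xb T1.l8 T1.l8) (xb T1.l0 T1.l8))
  (TrL.c (I.pos (nat_lit 0) (nat_lit 0)) (xa T1.l1 T1.l1)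
  (TrL.c (I.pos (nat_lit 0) (nat_lit 124588530)) T1.l2
  (TrL.c (I.pos (nat_lit 0) (nat_lit 96881482)) T1.l3
  (TrL.c (I.pos (nat_lit 0) (nat_lit 0)) (xa (xk (xb T1.l9 T1.l9) (xb T1.l9 T1.l9)) (xk (xb (xa T1.l9 T1.l9) T1.l9) (xb (xa T1.l9 T1.l9) T1.l9)))
  (TrL.c (I.pos (nat_lit 0) (nat_lit 0)) T1.l5
  (TrL.c (I.mix (nat_lit 17240550) (nat_lit 96881482)) (xR T1.l6 T1.l6)
  (TrL.c (I.mix (nat_lit 17240550) (nat_lit 71940500)) T1.l7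
  TrL.n)))))))) (by decide +kernel)
theorem bx2_2 : BoxOK sI cl9 cl7 cl7 t1 t1 b2_2 :=
  box_mk (TrL.c (I.pos (nat_lit 0) (nat_lit 0)) (xa (xa (xb T1.l8 T1.l8) T1.l8) T1.l8)
  (TrL.c (I.pos (nat_lit 0) (nat_lit 0)) (xa T1.l1 T1.l1)
  (TrL.c (I.pos (nat_lit 0) (nat_lit 124588530)) T1.l2
  (TrL.c (I.pos (nat_lit 0) (nat_lit 96881482)) T1.l3
  (TrL.c (I.pos (nat_lit 0) (nat_lit 0)) (xa (xa T1.l9 T1.l9) T1.l9)
  (TrL.c (I.pos (nat_lit 0) (nat_lit 0)) T1.l5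
  (TrL.c (I.mix (nat_lit 17240550) (nat_lit 96881482)) T1.l6
  (TrL.c (I.mix (nat_lit 17240550) (nat_lit 71940500)) T1.l2
  TrL.n)))))))) (by decide +kernel)
theorem bx2_3 : BoxOK sI cl9 cl7 cl7 t1 t1 b2_3 :=
  box_mk (TrL.c (I.pos (nat_lit 0) (nat_lit 0)) (xb (xa (xb T1.l10 T1.l10) (xb T1.l10 T1.l10)) (xa (xb (xa T1.l10 T1.l10) (xa (xs T1.l10 T1.l10) T1.l10)) (xb (xa T1.l10 T1.l10) (xa T1.l10 T1.l10))))
  (TrL.c (I.pos (nat_lit 0) (nat_lit 0)) (xb (xk (xa T1.l1 T1.l1) (xa T1.l1 T1.l1)) (xk (xa T1.l1 (xb T1.l1 T1.l1)) (xa T1.l1 T1.l1)))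
  (TrL.c (I.pos (nat_lit 0) (nat_lit 124588530)) (xR T1.l2 T1.l2)
  (TrL.c (I.pos (nat_lit 0) (nat_lit 96881482)) (xR T1.l3 T1.l3)
  (TrL.c (I.pos (nat_lit 0) (nat_lit 0)) (xb (xk (xa T1.l11 (xb T1.l11 T1.l11)) (xa T1.l11 (xb T1.l11 T1.l11))) (xk (xa T1.l11 (xb T1.l4 T1.l4)) (xa T1.l11 (xb T1.l11 (xs T1.l4 T1.l11)))))
  (TrL.c (I.pos (nat_lit 0) (nat_lit 0)) T1.l5
  (TrL.c (I.mix (nat_lit 17240550) (nat_lit 96881482)) (xR T1.l6 (xR T1.l6 T1.l6))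
  (TrL.c (I.mix (nat_lit 17240550) (nat_lit 71940500)) T1.l7
  TrL.n)))))))) (by decide +kernel)
theorem bx2_4 : BoxOK sI cl9 cl7 cl7 t1 t1 b2_4 :=
  box_mk (TrL.c (I.pos (nat_lit 0) (nat_lit 0)) (xa (xa (xb T1.l8 (xa (xb T1.l8 (xa T1.l8 T1.l8)) (xb T1.l8 (xa T1.l8 T1.l8)))) (xb T1.l8 (xa T1.l8 T1.l8))) (xa T1.l8 (xb T1.l8 (xa T1.l8 T1.l8))))
  (TrL.c (I.pos (nat_lit 0) (nat_lit 0)) (xa (xa T1.l9 T1.l1) (xa T1.l1 T1.l1))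
  (TrL.c (I.pos (nat_lit 0) (nat_lit 124588530)) T1.l2
  (TrL.c (I.pos (nat_lit 0) (nat_lit 96881482)) T1.l3
  (TrL.c (I.pos (nat_lit 0) (nat_lit 0)) (xa (xa T1.l1 T1.l9) (xa T1.l9 T1.l9))
  (TrL.c (I.pos (nat_lit 0) (nat_lit 0)) T1.l5
  (TrL.c (I.mix (nat_lit 17240550) (nat_lit 96881482)) T1.l6
  (TrL.c (I.mix (nat_lit 17240550) (nat_lit 71940500)) T1.l3
  TrL.n)))))))) (by decide +kernel)
theorem bx2_5 : BoxOK sI cl9 cl7 cl7 t1 t1 b2_5 :=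
  box_mk (TrL.c (I.pos (nat_lit 0) (nat_lit 0)) (xa (xb T1.l10 (xa T1.l0 T1.l10)) T1.l0)
  (TrL.c (I.pos (nat_lit 0) (nat_lit 0)) (xa T1.l1 T1.l1)
  (TrL.c (I.pos (nat_lit 0) (nat_lit 124588530)) (xR T1.l2 T1.l2)
  (TrL.c (I.pos (nat_lit 0) (nat_lit 96881482)) T1.l3
  (TrL.c (I.pos (nat_lit 0) (nat_lit 0)) (xk (xa (xb T1.l9 T1.l11) (xb (xa T1.l11 T1.l11) T1.l11)) (xa (xb T1.l9 T1.l11) (xb (xa T1.l11 T1.l11) T1.l11)))
  (TrL.c (I.pos (nat_lit 0) (nat_lit 0)) T1.l5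
  (TrL.c (I.mix (nat_lit 17240550) (nat_lit 96881482)) T1.l2
  (TrL.c (I.mix (nat_lit 17240550) (nat_lit 71940500)) T1.l7
  TrL.n)))))))) (by decide +kernel)
theorem bx2_6 : BoxOK sI cl9 cl7 cl7 t1 t1 b2_6 :=
  box_mk (TrL.c (I.pos (nat_lit 0) (nat_lit 0)) (xa (xa (xb T1.l8 (xa (xb T1.l8 T1.l8) T1.l8)) (xb T1.l8 T1.l8)) (xa T1.l8 (xa T1.l8 (xb T1.l8 T1.l8))))
  (TrL.c (I.pos (nat_lit 0) (nat_lit 0)) (xa (xa T1.l9 T1.l1) (xa T1.l1 T1.l1))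
  (TrL.c (I.pos (nat_lit 0) (nat_lit 124588530)) T1.l2
  (TrL.c (I.pos (nat_lit 0) (nat_lit 96881482)) T1.l3
  (TrL.c (I.pos (nat_lit 0) (nat_lit 0)) (xa (xa T1.l1 T1.l9) T1.l9)
  (TrL.c (I.pos (nat_lit 0) (nat_lit 0)) T1.l5
  (TrL.c (I.mix (nat_lit 17240550) (nat_lit 96881482)) T1.l6
  (TrL.c (I.mix (nat_lit 17240550) (nat_lit 71940500)) T1.l3
  TrL.n)))))))) (by decide +kernel)
theorem bx2_7 : BoxOK sI cl9 cl7 cl7 t1 t1 b2_7 :=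
  box_mk (TrL.c (I.pos (nat_lit 0) (nat_lit 0)) (xb T1.l8 T1.l8)
  (TrL.c (I.pos (nat_lit 0) (nat_lit 0)) T1.l1
  (TrL.c (I.pos (nat_lit 0) (nat_lit 124588530)) T1.l2
  (TrL.c (I.pos (nat_lit 0) (nat_lit 96881482)) T1.l3
  (TrL.c (I.pos (nat_lit 0) (nat_lit 0)) (xb (xk T1.l9 T1.l9) (xk T1.l9 T1.l9))
  (TrL.c (I.pos (nat_lit 0) (nat_lit 0)) T1.l5
  (TrL.c (I.mix (nat_lit 17240550) (nat_lit 96881482)) T1.l6
  (TrL.c (I.mix (nat_lit 17240550) (nat_lit 71940500)) T1.l7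
  TrL.n)))))))) (by decide +kernel)
theorem bx2_8 : BoxOK sI cl9 cl7 cl7 t1 t1 b2_8 :=
  box_mk (TrL.c (I.pos (nat_lit 0) (nat_lit 0)) (xa (xb (xa (xa (xb T1.l8 T1.l8) T1.l8) T1.l8) T1.l8) T1.l8)
  (TrL.c (I.pos (nat_lit 0) (nat_lit 0)) (xa T1.l9 T1.l1)
  (TrL.c (I.pos (nat_lit 0) (nat_lit 124588530)) T1.l2
  (TrL.c (I.pos (nat_lit 0) (nat_lit 96881482)) T1.l6
  (TrL.c (I.pos (nat_lit 0) (nat_lit 0)) (xa (xa T1.l1 T1.l9) T1.l9)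
  (TrL.c (I.pos (nat_lit 0) (nat_lit 0)) T1.l5
  (TrL.c (I.mix (nat_lit 17240550) (nat_lit 96881482)) T1.l6
  (TrL.c (I.mix (nat_lit 17240550) (nat_lit 71940500)) T1.l2
  TrL.n)))))))) (by decide +kernel)
theorem c2_9_0 : chkTag sI cl9 cl7 cl7 t1 b2_9 (tg true true false RT.r2) (I.pos (nat_lit 0) (nat_lit 0))
  (xa (xb T1.l0 (xa T1.l0 T1.l0)) (xb (xa T1.l0 T1.l0) (xa T1.l0 (xb T1.l0 T1.l0)))) = true := by decide +kernel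
theorem c2_9_1 : chkTag sI cl9 cl7 cl7 t1 b2_9 (tg true false false RT.r3) (I.pos (nat_lit 0) (nat_lit 0))
  (xa (xk (xb T1.l1 (xa T1.l1 T1.l1)) (xb T1.l1 T1.l1)) (xk (xb T1.l5 (xa T1.l1 (xk T1.l1 T1.l1))) (xb T1.l1 (xa T1.l1 T1.l1)))) = true := by decide +kernel
theorem c2_9_2 : chkTag sI cl9 cl7 cl7 t1 b2_9 (Tag.mk true true false RT.tl RT.r4) (I.pos (nat_lit 0) (nat_lit 124588530))
  (xR T1.l2 T1.l2) = true := by decide +kernel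
theorem c2_9_3 : chkTag sI cl9 cl7 cl7 t1 b2_9 (Tag.mk true false false RT.tl RT.r5) (I.pos (nat_lit 0) (nat_lit 96881482))
  (xR T1.l3 (xR T1.l3 T1.l3)) = true := by decide +kernel
theorem c2_9_4 : chkTag sI cl9 cl7 cl7 t1 b2_9 (tg false false false RT.r3) (I.pos (nat_lit 0) (nat_lit 0))
  (xa (xb (xk (xa (xb T1.l4 T1.l4) (xb (xk T1.l4 T1.l4) T1.l4)) (xa (xb T1.l4 T1.l4) (xb (xk T1.l4 T1.l4) T1.l4))) (xk (xa T1.l4 T1.l4) (xa T1.l4 T1.l4))) (xb (xk (xa (xb (xk (xa T1.l4 T1.l4) (xa T1.l4 T1.l4)) T1.l4) (xb (xk (xa (xb T1.l4 T1.l4) (xk T1.l4 T1.l4)) (xa (xb T1.l4 T1.l4) (xb T1.l4 T1.l4))) (xk (xa T1.l4 T1.l4) T1.l4))) (xa (xb (xk (xa T1.l4 T1.l4) (xa T1.l4 T1.l4)) T1.l4) (xb (xk (xa T1.l4 (xb T1.l4 T1.l4)) (xa T1.l4 (xb T1.l4 T1.l4))) (xk T1.l4 T1.l4)))) (xk (xa (xk T1.l4 T1.l4) (xb (xk (xa T1.l4 (xb T1.l4 T1.l4)) (xa T1.l4 T1.l4)) (xk (xa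 T1.l4 (xb T1.l4 T1.l4)) (xa T1.l4 (xs T1.l4 T1.l4))))) (xa (xb T1.l4 T1.l4) (xb (xk T1.l4 T1.l4) (xk (xa T1.l4 (xs T1.l4 T1.l4)) (xa T1.l4 (xs T1.l4 T1.l4)))))))) = true := by decide +kernel
theorem c2_9_5 : chkTag sI cl9 cl7 cl7 t1 b2_9 (tg false true false RT.r4) (I.pos (nat_lit 0) (nat_lit 0))
  (xk (xa T1.l5 (xb (xa T1.l5 T1.l5) (xa T1.l5 T1.l5))) (xa T1.l5 (xb T1.l5 T1.l5))) = true := by decide +kernel
theorem c2_9_6 : chkTag sI cl9 cl7 cl7 t1 b2_9 (Tag.mk false false false RT.tl RT.r5) (I.mix (nat_lit 17240550) (nat_lit 96881482))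
  (xR T1.l6 (xR T1.l6 (xR T1.l6 (xk (xR T1.l6 T1.l6) T1.l6)))) = true := by decide +kernel
theorem c2_9_7 : chkTag sI cl9 cl7 cl7 t1 b2_9 (Tag.mk false true false RT.tl RT.r6) (I.mix (nat_lit 17240550) (nat_lit 71940500))
  T1.l7 = true := by decide +kernel
theorem bx2_9 : BoxOK sI cl9 cl7 cl7 t1 t1 b2_9 :=
  box_mk' [(tg true true false RT.r2), (tg true false false RT.r3), (Tag.mk true true false RT.tl RT.r4), (Tag.mk true false false RT.tl RT.r5), (tg false false false RT.r3), (tg false true false RT.r4), (Tag.mk false false false RT.tl RT.r5), (Tag.mk false true false RT.tl RT.r6)] rfl (allL_c (ex_mk c2_9_0) (allL_c (ex_mk c2_9_1) (allL_c (ex_mk c2_9_2) (allL_c (ex_mk c2_9_3) (allL_c (ex_mk c2_9_4) (allL_c (ex_mk c2_9_5) (allL_c (ex_mk c2_9_6) (allL_c (ex_mk c2_9_7) allL_n))))))))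
theorem bx2_10 : BoxOK sI cl9 cl7 cl7 t1 t1 b2_10 :=
  box_mk (TrL.c (I.pos (nat_lit 0) (nat_lit 0)) (xa (xb (xa T1.l0 T1.l0) (xa T1.l0 T1.l0)) (xb T1.l0 (xa T1.l0 T1.l0)))
  (TrL.c (I.pos (nat_lit 0) (nat_lit 0)) (xk (xa (xb T1.l1 T1.l1) (xb T1.l1 T1.l1)) (xa T1.l1 (xb T1.l1 T1.l1)))
  (TrL.c (I.pos (nat_lit 0) (nat_lit 124588530)) (xR T1.l2 T1.l2)
  (TrL.c (I.pos (nat_lit 0) (nat_lit 96881482)) (xR T1.l3 T1.l3)
  (TrL.c (I.pos (nat_lit 0) (nat_lit 0)) (xk (xa T1.l4 (xb (xk T1.l4 T1.l4) T1.l4)) (xa T1.l4 (xb T1.l4 T1.l4)))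
  (TrL.c (I.pos (nat_lit 0) (nat_lit 0)) T1.l5
  (TrL.c (I.mix (nat_lit 17240550) (nat_lit 96881482)) (xR T1.l6 (xR T1.l6 T1.l6))
  (TrL.c (I.mix (nat_lit 17240550) (nat_lit 71940500)) T1.l7
  TrL.n)))))))) (by decide +kernel)
theorem bx2_11 : BoxOK sI cl9 cl7 cl7 t1 t1 b2_11 :=
  box_mk (TrL.c (I.pos (nat_lit 0) (nat_lit 0)) (xa (xb T1.l10 T1.l10) (xb T1.l10 T1.l10))
  (TrL.c (I.pos (nat_lit 0) (nat_lit 0)) (xk (xb T1.l1 T1.l1) (xb T1.l1 T1.l1))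
  (TrL.c (I.pos (nat_lit 0) (nat_lit 124588530)) (xR T1.l2 T1.l2)
  (TrL.c (I.pos (nat_lit 0) (nat_lit 96881482)) T1.l3
  (TrL.c (I.pos (nat_lit 0) (nat_lit 0)) (xk (xb (xa T1.l11 T1.l11) T1.l11) (xb (xa T1.l11 T1.l11) T1.l11))
  (TrL.c (I.pos (nat_lit 0) (nat_lit 0)) T1.l5
  (TrL.c (I.mix (nat_lit 17240550) (nat_lit 96881482)) (xR T1.l6 T1.l6)
  (TrL.c (I.mix (nat_lit 17240550) (nat_lit 71940500)) T1.l7
  TrL.n)))))))) (by decide +kernel)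
theorem sv2 : StarV sI cl9 cl7 cl7 t1 t1 t2 :=
  (bt_n (bt_n (bt_n (bt_b bx2_0) (bt_n (bt_b bx2_1) (bt_b bx2_2))) (bt_n (bt_b bx2_3) (bt_n (bt_b bx2_4) (bt_b bx2_5)))) (bt_n (bt_n (bt_b bx2_6) (bt_n (bt_b bx2_7) (bt_b bx2_8))) (bt_n (bt_b bx2_9) (bt_n (bt_b bx2_10) (bt_b bx2_11)))))
def S2 : StarD := StarD.mk cl9 cl7 cl7 1 1 t2
def G : List StarD := [S0, S1, S2]
theorem so0 : StarOK sI G S0 :=
  star_mk (by decide) (by decide) rfl rfl rfl rfl rfl rfl (rfl : _ = t0) (rfl : _ = t2)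
  (st_mk (Pth.l (Pth.l (Pth.l Pth.z))) (nat_lit 141291725) (nat_lit 164004298) (by decide +kernel))
  (st_mk (Pth.l (Pth.l (Pth.l Pth.z))) (nat_lit 176909434) (nat_lit 200102819) (by decide +kernel))
  (st_mk (Pth.l (Pth.l (Pth.l Pth.z))) (nat_lit 218209662) (nat_lit 242069498) (by decide +kernel)) sv0
theorem so1 : StarOK sI G S1 :=
  star_mk (by decide) (by decide) rfl rfl rfl rfl rfl rfl (rfl : _ = t2) (rfl : _ = t0)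
  (st_mk (Pth.l (Pth.l (Pth.l Pth.z))) (nat_lit 116026714) (nat_lit 134852483) (by decide +kernel))
  (st_mk (Pth.l (Pth.l (Pth.l Pth.z))) (nat_lit 151580278) (nat_lit 170859401) (by decide +kernel))
  (st_mk (Pth.l (Pth.l (Pth.l Pth.z))) (nat_lit 190946073) (nat_lit 214626272) (by decide +kernel)) sv1
theorem so2 : StarOK sI G S2 :=
  star_mk (by decide) (by decide) rfl rfl rfl rfl rfl rfl (rfl : _ = t1) (rfl : _ = t1)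
  (st_mk (Pth.l (Pth.l (Pth.l Pth.z))) (nat_lit 140583988) (nat_lit 163079909) (by decide +kernel))
  (st_mk (Pth.l (Pth.l (Pth.l Pth.z))) (nat_lit 175805951) (nat_lit 198712554) (by decide +kernel))
  (st_mk (Pth.l (Pth.l (Pth.l Pth.z))) (nat_lit 216536318) (nat_lit 240015185) (by decide +kernel)) sv2
theorem ok : GroupOK (nat_lit 209321984) (nat_lit 268435456) G := grp_mk (allS_c so0 (allS_c so1 (allS_c so2 allS_n)))
theorem cov : GCov G cl7 cl7 cl9 := cov_mk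
  ⟨0, by decide, rfl, rfl, rfl⟩ ⟨1, by decide, rfl, rfl, rfl⟩ ⟨0, by decide, rfl, rfl, rfl⟩ ⟨1, by decide, rfl, rfl, rfl⟩ ⟨2, by decide, rfl, rfl, rfl⟩ ⟨2, by decide, rfl, rfl, rfl⟩
end Q445_3

namespace Q446_0
def sI : I := I.pos (nat_lit 0) (nat_lit 91291648)
def b0_0 : Bx := Bx.mk (St.mk (I.pos (nat_lit 156975104) (nat_lit 282771456)) (I.mix (nat_lit 24592384) (nat_lit 60768256)) (I.mix (nat_lit 83902464) (nat_lit 92028928)) (I.pos (nat_lit 136167424) (nat_lit 362430464)) (I.mix (nat_lit 87572480) (nat_lit 63160320)) (I.mix (nat_lit 82788352) (nat_lit 56000512)) (I.mix (nat_lit 125747200) (nat_lit 79642624)))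
  false (nat_lit 27211600)
def b0_1 : Bx := Bx.mk (St.mk (I.mix (nat_lit 21626880) (nat_lit 120061952)) (I.mix (nat_lit 8273920) (nat_lit 35356672)) (I.mix (nat_lit 18432000) (nat_lit 19480576)) (I.pos (nat_lit 39518208) (nat_lit 115474432)) (I.mix (nat_lit 30064640) (nat_lit 28819456)) (I.mix (nat_lit 33243136) (nat_lit 21610496)) (I.mix (nat_lit 23576576) (nat_lit 14712832)))
  false (nat_lit 0)
def b0_2 : Bx := Bx.mk (St.mk (I.pos (nat_lit 94355456) (nat_lit 145293312)) (I.mix (nat_lit 60096512) (nat_lit 9273344)) (I.mix (nat_lit 63438848) (nat_lit 458752)) (I.pos (nat_lit 79282176) (nat_lit 140361728)) (I.mix (nat_lit 78987264) (nat_lit 25853952)) (I.mix (nat_lit 39960576) (nat_lit 78446592)) (I.mix (nat_lit 29360128) (nat_lit 61145088)))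
  false (nat_lit 0)
def b0_3 : Bx := Bx.mk (St.mk (I.mix (nat_lit 35667968) (nat_lit 69140480)) (I.mix (nat_lit 29884416) (nat_lit 5210112)) (I.mix (nat_lit 19529728) (nat_lit 1228800)) (I.pos (nat_lit 41680896) (nat_lit 81051648)) (I.mix (nat_lit 26214400) (nat_lit 12664832)) (I.mix (nat_lit 12795904) (nat_lit 24936448)) (I.mix (nat_lit 6717440) (nat_lit 10043392)))
  false (nat_lit 0)
def b0_4 : Bx := Bx.mk (St.mk (I.pos (nat_lit 100909056) (nat_lit 171507712)) (I.mix (nat_lit 66977792) (nat_lit 16384)) (I.neg (nat_lit 3948544) (nat_lit 69763072)) (I.pos (nat_lit 96813056) (nat_lit 173424640)) (I.mix (nat_lit 77217792) (nat_lit 37470208)) (I.mix (nat_lit 36634624) (nat_lit 65290240)) (I.mix (nat_lit 28557312) (nat_lit 63242240)))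
  false (nat_lit 0)
def b0_5 : Bx := Bx.mk (St.mk (I.mix (nat_lit 30179328) (nat_lit 82362368)) (I.mix (nat_lit 34357248) (nat_lit 4997120)) (I.mix (nat_lit 24772608) (nat_lit 1359872)) (I.pos (nat_lit 38338560) (nat_lit 88997888)) (I.mix (nat_lit 29556736) (nat_lit 22462464)) (I.mix (nat_lit 18661376) (nat_lit 31981568)) (I.mix (nat_lit 11059200) (nat_lit 17727488)))
  false (nat_lit 0)
def b0_6 : Bx := Bx.mk (St.mk (I.mix (nat_lit 35553280) (nat_lit 109592576)) (I.mix (nat_lit 12075008) (nat_lit 38158336)) (I.mix (nat_lit 12025856) (nat_lit 22724608)) (I.pos (nat_lit 40583168) (nat_lit 106184704)) (I.mix (nat_lit 37519360) (nat_lit 23068672)) (I.mix (nat_lit 41549824) (nat_lit 25313280)) (I.mix (nat_lit 23445504) (nat_lit 14827520)))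
  false (nat_lit 0)
def b0_7 : Bx := Bx.mk (St.mk (I.pos (nat_lit 151552000) (nat_lit 221839360)) (I.mix (nat_lit 41746432) (nat_lit 69713920)) (I.mix (nat_lit 47333376) (nat_lit 100532224)) (I.pos (nat_lit 133709824) (nat_lit 242352128)) (I.mix (nat_lit 117456896) (nat_lit 53051392)) (I.mix (nat_lit 130793472) (nat_lit 70975488)) (I.mix (nat_lit 146948096) (nat_lit 73990144)))
  false (nat_lit 18912881)
def t0 : BTr := (BTr.n (BTr.n (BTr.n (BTr.b b0_0) (BTr.b b0_1)) (BTr.n (BTr.b b0_2) (BTr.b b0_3))) (BTr.n (BTr.n (BTr.b b0_4) (BTr.b b0_5)) (BTr.n (BTr.b b0_6) (BTr.b b0_7))))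
namespace T0
def l0 : Tr := Tr.L (Pth.l (Pth.l (Pth.l Pth.z)))
def l1 : Tr := Tr.L (Pth.l (Pth.l (Pth.r Pth.z)))
def l2 : Tr := Tr.L (Pth.l (Pth.r (Pth.l Pth.z)))
def l3 : Tr := Tr.L (Pth.l (Pth.r (Pth.r Pth.z)))
def l4 : Tr := Tr.L (Pth.r (Pth.l (Pth.l Pth.z)))
def l5 : Tr := Tr.L (Pth.r (Pth.l (Pth.r Pth.z)))
def l6 : Tr := Tr.L (Pth.r (Pth.r (Pth.l Pth.z)))
def l7 : Tr := Tr.L (Pth.r (Pth.r (Pth.r Pth.z)))
end T0
def b1_0 : Bx := Bx.mk (St.mk (I.pos (nat_lit 156991488) (nat_lit 282099712)) (I.mix (nat_lit 20283392) (nat_lit 50692096)) (I.mix (nat_lit 47169536) (nat_lit 94765056)) (I.pos (nat_lit 89849856) (nat_lit 314703872)) (I.mix (nat_lit 78020608) (nat_lit 57016320)) (I.mix (nat_lit 80199680) (nat_lit 56541184)) (I.mix (nat_lit 125763584) (nat_lit 76021760)))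
  false (nat_lit 0)
def b1_1 : Bx := Bx.mk (St.mk (I.pos (nat_lit 123748352) (nat_lit 186662912)) (I.neg (nat_lit 131072) (nat_lit 58081280)) (I.mix (nat_lit 57982976) (nat_lit 1720320)) (I.pos (nat_lit 73531392) (nat_lit 146472960)) (I.mix (nat_lit 67403776) (nat_lit 33472512)) (I.mix (nat_lit 35127296) (nat_lit 57884672)) (I.mix (nat_lit 30605312) (nat_lit 60882944)))
  false (nat_lit 0)
def b1_2 : Bx := Bx.mk (St.mk (I.mix (nat_lit 9797632) (nat_lit 142442496)) (I.mix (nat_lit 5881856) (nat_lit 25362432)) (I.mix (nat_lit 8110080) (nat_lit 24920064)) (I.mix (nat_lit 3178496) (nat_lit 90308608)) (I.mix (nat_lit 25526272) (nat_lit 21315584)) (I.mix (nat_lit 29048832) (nat_lit 18169856)) (I.mix (nat_lit 25378816) (nat_lit 14188544)))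
  false (nat_lit 0)
def b1_3 : Bx := Bx.mk (St.mk (I.mix (nat_lit 11321344) (nat_lit 117506048)) (I.mix (nat_lit 26001408) (nat_lit 4751360)) (I.mix (nat_lit 19267584) (nat_lit 4734976)) (I.mix (nat_lit 2506752) (nat_lit 66879488)) (I.mix (nat_lit 23232512) (nat_lit 17334272)) (I.mix (nat_lit 14565376) (nat_lit 22806528)) (I.mix (nat_lit 8994816) (nat_lit 16433152)))
  false (nat_lit 0)
def b1_4 : Bx := Bx.mk (St.mk (I.pos (nat_lit 159465472) (nat_lit 222822400)) (I.mix (nat_lit 40304640) (nat_lit 57606144)) (I.mix (nat_lit 39714816) (nat_lit 98549760)) (I.pos (nat_lit 101482496) (nat_lit 198574080)) (I.mix (nat_lit 110182400) (nat_lit 50675712)) (I.mix (nat_lit 132644864) (nat_lit 64749568)) (I.mix (nat_lit 166248448) (nat_lit 72286208)))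
  false (nat_lit 0)
def b1_5 : Bx := Bx.mk (St.mk (I.pos (nat_lit 118308864) (nat_lit 162971648)) (I.mix (nat_lit 50954240) (nat_lit 7012352)) (I.mix (nat_lit 53444608) (nat_lit 8159232)) (I.pos (nat_lit 53772288) (nat_lit 114376704)) (I.mix (nat_lit 72466432) (nat_lit 24051712)) (I.mix (nat_lit 35405824) (nat_lit 77676544)) (I.mix (nat_lit 30539776) (nat_lit 70909952)))
  false (nat_lit 0)
def b1_6 : Bx := Bx.mk (St.mk (I.mix (nat_lit 14090240) (nat_lit 135970816)) (I.mix (nat_lit 12763136) (nat_lit 32866304)) (I.mix (nat_lit 9551872) (nat_lit 29179904)) (I.mix (nat_lit 2949120) (nat_lit 82231296)) (I.mix (nat_lit 42582016) (nat_lit 20365312)) (I.mix (nat_lit 43548672) (nat_lit 24330240)) (I.mix (nat_lit 32194560) (nat_lit 16629760)))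
  false (nat_lit 0)
def b1_7 : Bx := Bx.mk (St.mk (I.mix (nat_lit 12025856) (nat_lit 107839488)) (I.mix (nat_lit 22888448) (nat_lit 1228800)) (I.mix (nat_lit 16908288) (nat_lit 1818624)) (I.mix (nat_lit 2260992) (nat_lit 58671104)) (I.mix (nat_lit 25296896) (nat_lit 11026432)) (I.mix (nat_lit 13336576) (nat_lit 25182208)) (I.mix (nat_lit 8142848) (nat_lit 15876096)))
  false (nat_lit 0)
def t1 : BTr := (BTr.n (BTr.n (BTr.n (BTr.b b1_0) (BTr.b b1_1)) (BTr.n (BTr.b b1_2) (BTr.b b1_3))) (BTr.n (BTr.n (BTr.b b1_4) (BTr.b b1_5)) (BTr.n (BTr.b b1_6) (BTr.b b1_7))))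
namespace T1
def l0 : Tr := Tr.L (Pth.l (Pth.l (Pth.l Pth.z)))
def l1 : Tr := Tr.L (Pth.l (Pth.l (Pth.r Pth.z)))
def l2 : Tr := Tr.L (Pth.l (Pth.r (Pth.l Pth.z)))
def l3 : Tr := Tr.L (Pth.l (Pth.r (Pth.r Pth.z)))
def l4 : Tr := Tr.L (Pth.r (Pth.l (Pth.l Pth.z)))
def l5 : Tr := Tr.L (Pth.r (Pth.l (Pth.r Pth.z)))
def l6 : Tr := Tr.L (Pth.r (Pth.r (Pth.l Pth.z)))
def l7 : Tr := Tr.L (Pth.r (Pth.r (Pth.r Pth.z)))
end T1
def b2_0 : Bx := Bx.mk (St.mk (I.pos (nat_lit 157089792) (nat_lit 278577152)) (I.mix (nat_lit 14712832) (nat_lit 56688640)) (I.mix (nat_lit 35913728) (nat_lit 105824256)) (I.pos (nat_lit 135790592) (nat_lit 350552064)) (I.mix (nat_lit 89309184) (nat_lit 62685184)) (I.mix (nat_lit 89735168) (nat_lit 58343424)) (I.mix (nat_lit 135086080) (nat_lit 75776000)))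
  false (nat_lit 46162776)
def b2_1 : Bx := Bx.mk (St.mk (I.pos (nat_lit 106151936) (nat_lit 176390144)) (I.neg (nat_lit 4194304) (nat_lit 66977792)) (I.mix (nat_lit 59899904) (nat_lit 12451840)) (I.pos (nat_lit 100237312) (nat_lit 178110464)) (I.mix (nat_lit 71090176) (nat_lit 38453248)) (I.mix (nat_lit 35618816) (nat_lit 59637760)) (I.mix (nat_lit 29982720) (nat_lit 56164352)))
  false (nat_lit 0)
def b2_2 : Bx := Bx.mk (St.mk (I.mix (nat_lit 27131904) (nat_lit 84852736)) (I.mix (nat_lit 34963456) (nat_lit 5586944)) (I.mix (nat_lit 17252352) (nat_lit 9502720)) (I.pos (nat_lit 39026688) (nat_lit 89849856)) (I.mix (nat_lit 26083328) (nat_lit 25362432)) (I.mix (nat_lit 19234816) (nat_lit 29229056)) (I.mix (nat_lit 10420224) (nat_lit 15384576)))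
  false (nat_lit 0)
def b2_3 : Bx := Bx.mk (St.mk (I.pos (nat_lit 148652032) (nat_lit 218841088)) (I.mix (nat_lit 41222144) (nat_lit 65945600)) (I.mix (nat_lit 32440320) (nat_lit 112574464)) (I.pos (nat_lit 131809280) (nat_lit 236077056)) (I.mix (nat_lit 115392512) (nat_lit 52658176)) (I.mix (nat_lit 129499136) (nat_lit 69926912)) (I.mix (nat_lit 151076864) (nat_lit 72318976)))
  false (nat_lit 34922724)
def b2_4 : Bx := Bx.mk (St.mk (I.mix (nat_lit 37044224) (nat_lit 107364352)) (I.mix (nat_lit 13058048) (nat_lit 38371328)) (I.mix (nat_lit 5750784) (nat_lit 30605312)) (I.pos (nat_lit 40894464) (nat_lit 104693760)) (I.mix (nat_lit 42467328) (nat_lit 19529728)) (I.mix (nat_lit 43433984) (nat_lit 24526848)) (I.mix (nat_lit 25018368) (nat_lit 15089664)))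
  false (nat_lit 0)
def b2_5 : Bx := Bx.mk (St.mk (I.mix (nat_lit 23773184) (nat_lit 117751808)) (I.mix (nat_lit 5275648) (nat_lit 34570240)) (I.mix (nat_lit 7094272) (nat_lit 28246016)) (I.pos (nat_lit 39305216) (nat_lit 113590272)) (I.mix (nat_lit 33406976) (nat_lit 25559040)) (I.mix (nat_lit 35733504) (nat_lit 21004288)) (I.mix (nat_lit 25640960) (nat_lit 15286272)))
  false (nat_lit 0)
def b2_6 : Bx := Bx.mk (St.mk (I.pos (nat_lit 96632832) (nat_lit 148963328)) (I.mix (nat_lit 61440000) (nat_lit 6586368)) (I.mix (nat_lit 54099968) (nat_lit 7061504)) (I.pos (nat_lit 80969728) (nat_lit 143409152)) (I.mix (nat_lit 72204288) (nat_lit 27656192)) (I.mix (nat_lit 39043072) (nat_lit 70664192)) (I.mix (nat_lit 28606464) (nat_lit 53542912)))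
  false (nat_lit 0)
def b2_7 : Bx := Bx.mk (St.mk (I.mix (nat_lit 32079872) (nat_lit 70631424)) (I.mix (nat_lit 29818880) (nat_lit 2408448)) (I.mix (nat_lit 13418496) (nat_lit 7815168)) (I.pos (nat_lit 41582592) (nat_lit 81625088)) (I.mix (nat_lit 23609344) (nat_lit 16662528)) (I.mix (nat_lit 15450112) (nat_lit 25116672)) (I.mix (nat_lit 6897664) (nat_lit 9617408)))
  false (nat_lit 0)
def t2 : BTr := (BTr.n (BTr.n (BTr.n (BTr.b b2_0) (BTr.b b2_1)) (BTr.n (BTr.b b2_2) (BTr.b b2_3))) (BTr.n (BTr.n (BTr.b b2_4) (BTr.b b2_5)) (BTr.n (BTr.b b2_6) (BTr.b b2_7))))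
namespace T2
def l0 : Tr := Tr.L (Pth.l (Pth.l (Pth.l Pth.z)))
def l1 : Tr := Tr.L (Pth.l (Pth.l (Pth.r Pth.z)))
def l2 : Tr := Tr.L (Pth.l (Pth.r (Pth.l Pth.z)))
def l3 : Tr := Tr.L (Pth.l (Pth.r (Pth.r Pth.z)))
def l4 : Tr := Tr.L (Pth.r (Pth.l (Pth.l Pth.z)))
def l5 : Tr := Tr.L (Pth.r (Pth.l (Pth.r Pth.z)))
def l6 : Tr := Tr.L (Pth.r (Pth.r (Pth.l Pth.z)))
def l7 : Tr := Tr.L (Pth.r (Pth.r (Pth.r Pth.z)))
end T2
theorem bx0_0 : BoxOK sI cl7 cl7 cl13 t0 t2 b0_0 :=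
  box_mk (TrL.c (I.pos (nat_lit 0) (nat_lit 0)) (xa (xa T0.l0 T0.l0) (xa T0.l0 T0.l0))
  (TrL.c (I.pos (nat_lit 0) (nat_lit 0)) T2.l1
  (TrL.c (I.pos (nat_lit 0) (nat_lit 111196574)) (xR T0.l1 T0.l1)
  (TrL.c (I.pos (nat_lit 0) (nat_lit 77433728)) T2.l2
  (TrL.c (I.pos (nat_lit 0) (nat_lit 0)) (xa (xb T2.l3 T2.l3) (xb (xk (xa T2.l3 (xb T2.l3 T2.l3)) (xa T2.l3 (xb T2.l3 T2.l3))) (xk (xa T2.l3 (xs (xk T2.l3 T2.l3) (xk T2.l3 T2.l3))) (xa T2.l3 (xs (xk T2.l3 T2.l3) (xk T2.l3 T2.l3))))))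
  (TrL.c (I.pos (nat_lit 0) (nat_lit 0)) T0.l2
  (TrL.c (I.mix (nat_lit 29511666) (nat_lit 77433728)) (xR T2.l4 T2.l4)
  (TrL.c (I.mix (nat_lit 29511666) (nat_lit 46070178)) T0.l5
  TrL.n)))))))) (by decide +kernel)
theorem bx0_1 : BoxOK sI cl7 cl7 cl13 t0 t2 b0_1 :=
  box_mk (TrL.c (I.pos (nat_lit 0) (nat_lit 0)) T0.l0
  (TrL.c (I.pos (nat_lit 0) (nat_lit 0)) T2.l1
  (TrL.c (I.pos (nat_lit 0) (nat_lit 111196574)) T0.l1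
  (TrL.c (I.pos (nat_lit 0) (nat_lit 77433728)) T2.l2
  (TrL.c (I.pos (nat_lit 0) (nat_lit 0)) T2.l3
  (TrL.c (I.pos (nat_lit 0) (nat_lit 0)) T0.l2
  (TrL.c (I.mix (nat_lit 29511666) (nat_lit 77433728)) T2.l4
  (TrL.c (I.mix (nat_lit 29511666) (nat_lit 46070178)) T0.l3
  TrL.n)))))))) (by decide +kernel)
theorem bx0_2 : BoxOK sI cl7 cl7 cl13 t0 t2 b0_2 :=
  box_mk (TrL.c (I.pos (nat_lit 0) (nat_lit 0)) T0.l0
  (TrL.c (I.pos (nat_lit 0) (nat_lit 0)) T2.l1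
  (TrL.c (I.pos (nat_lit 0) (nat_lit 111196574)) T0.l1
  (TrL.c (I.pos (nat_lit 0) (nat_lit 77433728)) T2.l2
  (TrL.c (I.pos (nat_lit 0) (nat_lit 0)) T2.l3
  (TrL.c (I.pos (nat_lit 0) (nat_lit 0)) T0.l2
  (TrL.c (I.mix (nat_lit 29511666) (nat_lit 77433728)) T2.l4
  (TrL.c (I.mix (nat_lit 29511666) (nat_lit 46070178)) T0.l3
  TrL.n)))))))) (by decide +kernel)
theorem bx0_3 : BoxOK sI cl7 cl7 cl13 t0 t2 b0_3 :=
  box_mk (TrL.c (I.pos (nat_lit 0) (nat_lit 0)) (xa T0.l0 T0.l0)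
  (TrL.c (I.pos (nat_lit 0) (nat_lit 0)) T2.l1
  (TrL.c (I.pos (nat_lit 0) (nat_lit 111196574)) T0.l1
  (TrL.c (I.pos (nat_lit 0) (nat_lit 77433728)) T2.l2
  (TrL.c (I.pos (nat_lit 0) (nat_lit 0)) T2.l3
  (TrL.c (I.pos (nat_lit 0) (nat_lit 0)) T0.l2
  (TrL.c (I.mix (nat_lit 29511666) (nat_lit 77433728)) T2.l4
  (TrL.c (I.mix (nat_lit 29511666) (nat_lit 46070178)) T0.l3
  TrL.n)))))))) (by decide +kernel)
theorem bx0_4 : BoxOK sI cl7 cl7 cl13 t0 t2 b0_4 :=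
  box_mk (TrL.c (I.pos (nat_lit 0) (nat_lit 0)) T0.l0
  (TrL.c (I.pos (nat_lit 0) (nat_lit 0)) T2.l1
  (TrL.c (I.pos (nat_lit 0) (nat_lit 111196574)) T0.l1
  (TrL.c (I.pos (nat_lit 0) (nat_lit 77433728)) T2.l2
  (TrL.c (I.pos (nat_lit 0) (nat_lit 0)) T2.l3
  (TrL.c (I.pos (nat_lit 0) (nat_lit 0)) T0.l2
  (TrL.c (I.mix (nat_lit 29511666) (nat_lit 77433728)) T2.l4
  (TrL.c (I.mix (nat_lit 29511666) (nat_lit 46070178)) T0.l3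
  TrL.n)))))))) (by decide +kernel)
theorem bx0_5 : BoxOK sI cl7 cl7 cl13 t0 t2 b0_5 :=
  box_mk (TrL.c (I.pos (nat_lit 0) (nat_lit 0)) (xa T0.l0 T0.l0)
  (TrL.c (I.pos (nat_lit 0) (nat_lit 0)) T2.l1
  (TrL.c (I.pos (nat_lit 0) (nat_lit 111196574)) T0.l1
  (TrL.c (I.pos (nat_lit 0) (nat_lit 77433728)) T2.l2
  (TrL.c (I.pos (nat_lit 0) (nat_lit 0)) T2.l3
  (TrL.c (I.pos (nat_lit 0) (nat_lit 0)) T0.l2
  (TrL.c (I.mix (nat_lit 29511666) (nat_lit 77433728)) T2.l4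
  (TrL.c (I.mix (nat_lit 29511666) (nat_lit 46070178)) T0.l3
  TrL.n)))))))) (by decide +kernel)
theorem bx0_6 : BoxOK sI cl7 cl7 cl13 t0 t2 b0_6 :=
  box_mk (TrL.c (I.pos (nat_lit 0) (nat_lit 0)) (xa T0.l0 T0.l0)
  (TrL.c (I.pos (nat_lit 0) (nat_lit 0)) T2.l1
  (TrL.c (I.pos (nat_lit 0) (nat_lit 111196574)) T0.l1
  (TrL.c (I.pos (nat_lit 0) (nat_lit 77433728)) T2.l2
  (TrL.c (I.pos (nat_lit 0) (nat_lit 0)) T2.l3
  (TrL.c (I.pos (nat_lit 0) (nat_lit 0)) T0.l2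
  (TrL.c (I.mix (nat_lit 29511666) (nat_lit 77433728)) T2.l4
  (TrL.c (I.mix (nat_lit 29511666) (nat_lit 46070178)) T0.l3
  TrL.n)))))))) (by decide +kernel)
theorem bx0_7 : BoxOK sI cl7 cl7 cl13 t0 t2 b0_7 :=
  box_mk (TrL.c (I.pos (nat_lit 0) (nat_lit 0)) (xb (xa T0.l0 T0.l0) (xa T0.l0 T0.l0))
  (TrL.c (I.pos (nat_lit 0) (nat_lit 0)) T2.l1
  (TrL.c (I.pos (nat_lit 0) (nat_lit 111196574)) (xR T0.l1 T0.l1)
  (TrL.c (I.pos (nat_lit 0) (nat_lit 77433728)) T2.l2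
  (TrL.c (I.pos (nat_lit 0) (nat_lit 0)) (xb (xa T2.l3 T2.l3) (xa T2.l3 (xk T2.l3 T2.l3)))
  (TrL.c (I.pos (nat_lit 0) (nat_lit 0)) T0.l2
  (TrL.c (I.mix (nat_lit 29511666) (nat_lit 77433728)) (xR T2.l4 T2.l4)
  (TrL.c (I.mix (nat_lit 29511666) (nat_lit 46070178)) T0.l5
  TrL.n)))))))) (by decide +kernel)
theorem sv0 : StarV sI cl7 cl7 cl13 t0 t2 t0 :=
  (bt_n (bt_n (bt_n (bt_b bx0_0) (bt_b bx0_1)) (bt_n (bt_b bx0_2) (bt_b bx0_3))) (bt_n (bt_n (bt_b bx0_4) (bt_b bx0_5)) (bt_n (bt_b bx0_6) (bt_b bx0_7))))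
def S0 : StarD := StarD.mk cl7 cl7 cl13 0 2 t0
theorem bx1_0 : BoxOK sI cl7 cl13 cl7 t2 t0 b1_0 :=
  box_mk (TrL.c (I.pos (nat_lit 0) (nat_lit 0)) (xa (xa T2.l0 T2.l0) (xa T2.l0 T2.l0))
  (TrL.c (I.pos (nat_lit 0) (nat_lit 0)) T0.l4
  (TrL.c (I.pos (nat_lit 0) (nat_lit 111196574)) (xR T2.l5 T2.l5)
  (TrL.c (I.pos (nat_lit 0) (nat_lit 77433728)) T0.l5
  (TrL.c (I.pos (nat_lit 0) (nat_lit 0)) (xa T0.l7 (xk (xa T0.l7 (xb T0.l7 (xa T0.l7 T0.l7))) (xa T0.l7 (xb T0.l7 (xa T0.l7 T0.l7)))))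
  (TrL.c (I.pos (nat_lit 0) (nat_lit 0)) T2.l6
  (TrL.c (I.mix (nat_lit 29511666) (nat_lit 77433728)) (xR T0.l6 T0.l6)
  (TrL.c (I.mix (nat_lit 29511666) (nat_lit 46070178)) T2.l2
  TrL.n)))))))) (by decide +kernel)
theorem bx1_1 : BoxOK sI cl7 cl13 cl7 t2 t0 b1_1 :=
  box_mk (TrL.c (I.pos (nat_lit 0) (nat_lit 0)) T2.l0
  (TrL.c (I.pos (nat_lit 0) (nat_lit 0)) T0.l4
  (TrL.c (I.pos (nat_lit 0) (nat_lit 111196574)) (xR T2.l5 T2.l5)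
  (TrL.c (I.pos (nat_lit 0) (nat_lit 77433728)) T0.l5
  (TrL.c (I.pos (nat_lit 0) (nat_lit 0)) T0.l7
  (TrL.c (I.pos (nat_lit 0) (nat_lit 0)) T2.l6
  (TrL.c (I.mix (nat_lit 29511666) (nat_lit 77433728)) (xR T0.l6 T0.l6)
  (TrL.c (I.mix (nat_lit 29511666) (nat_lit 46070178)) T2.l7
  TrL.n)))))))) (by decide +kernel)
theorem bx1_2 : BoxOK sI cl7 cl13 cl7 t2 t0 b1_2 :=
  box_mk (TrL.c (I.pos (nat_lit 0) (nat_lit 0)) (xa T2.l0 T2.l0)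
  (TrL.c (I.pos (nat_lit 0) (nat_lit 0)) T0.l4
  (TrL.c (I.pos (nat_lit 0) (nat_lit 111196574)) T2.l5
  (TrL.c (I.pos (nat_lit 0) (nat_lit 77433728)) T0.l5
  (TrL.c (I.pos (nat_lit 0) (nat_lit 0)) (xa T0.l7 T0.l7)
  (TrL.c (I.pos (nat_lit 0) (nat_lit 0)) T2.l6
  (TrL.c (I.mix (nat_lit 29511666) (nat_lit 77433728)) (xR T0.l6 T0.l6)
  (TrL.c (I.mix (nat_lit 29511666) (nat_lit 46070178)) T2.l7
  TrL.n)))))))) (by decide +kernel)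
theorem bx1_3 : BoxOK sI cl7 cl13 cl7 t2 t0 b1_3 :=
  box_mk (TrL.c (I.pos (nat_lit 0) (nat_lit 0)) (xa (xa T2.l0 T2.l0) T2.l0)
  (TrL.c (I.pos (nat_lit 0) (nat_lit 0)) T0.l4
  (TrL.c (I.pos (nat_lit 0) (nat_lit 111196574)) T2.l5
  (TrL.c (I.pos (nat_lit 0) (nat_lit 77433728)) T0.l5
  (TrL.c (I.pos (nat_lit 0) (nat_lit 0)) T0.l7
  (TrL.c (I.pos (nat_lit 0) (nat_lit 0)) T2.l6
  (TrL.c (I.mix (nat_lit 29511666) (nat_lit 77433728)) T0.l6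
  (TrL.c (I.mix (nat_lit 29511666) (nat_lit 46070178)) T2.l4
  TrL.n)))))))) (by decide +kernel)
theorem bx1_4 : BoxOK sI cl7 cl13 cl7 t2 t0 b1_4 :=
  box_mk (TrL.c (I.pos (nat_lit 0) (nat_lit 0)) (xa (xb T2.l0 T2.l0) (xb T2.l0 T2.l0))
  (TrL.c (I.pos (nat_lit 0) (nat_lit 0)) T0.l4
  (TrL.c (I.pos (nat_lit 0) (nat_lit 111196574)) (xR T2.l5 T2.l5)
  (TrL.c (I.pos (nat_lit 0) (nat_lit 77433728)) T0.l5
  (TrL.c (I.pos (nat_lit 0) (nat_lit 0)) (xb (xa T0.l7 T0.l7) (xa T0.l7 T0.l7))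
  (TrL.c (I.pos (nat_lit 0) (nat_lit 0)) T2.l6
  (TrL.c (I.mix (nat_lit 29511666) (nat_lit 77433728)) (xR T0.l6 T0.l6)
  (TrL.c (I.mix (nat_lit 29511666) (nat_lit 46070178)) T2.l2
  TrL.n)))))))) (by decide +kernel)
theorem bx1_5 : BoxOK sI cl7 cl13 cl7 t2 t0 b1_5 :=
  box_mk (TrL.c (I.pos (nat_lit 0) (nat_lit 0)) T2.l0
  (TrL.c (I.pos (nat_lit 0) (nat_lit 0)) T0.l4
  (TrL.c (I.pos (nat_lit 0) (nat_lit 111196574)) T2.l5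
  (TrL.c (I.pos (nat_lit 0) (nat_lit 77433728)) T0.l5
  (TrL.c (I.pos (nat_lit 0) (nat_lit 0)) T0.l7
  (TrL.c (I.pos (nat_lit 0) (nat_lit 0)) T2.l6
  (TrL.c (I.mix (nat_lit 29511666) (nat_lit 77433728)) (xR T0.l6 T0.l6)
  (TrL.c (I.mix (nat_lit 29511666) (nat_lit 46070178)) T2.l7
  TrL.n)))))))) (by decide +kernel)
theorem bx1_6 : BoxOK sI cl7 cl13 cl7 t2 t0 b1_6 :=
  box_mk (TrL.c (I.pos (nat_lit 0) (nat_lit 0)) (xa T2.l0 T2.l0)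
  (TrL.c (I.pos (nat_lit 0) (nat_lit 0)) T0.l4
  (TrL.c (I.pos (nat_lit 0) (nat_lit 111196574)) T2.l5
  (TrL.c (I.pos (nat_lit 0) (nat_lit 77433728)) T0.l5
  (TrL.c (I.pos (nat_lit 0) (nat_lit 0)) (xa T0.l7 T0.l7)
  (TrL.c (I.pos (nat_lit 0) (nat_lit 0)) T2.l6
  (TrL.c (I.mix (nat_lit 29511666) (nat_lit 77433728)) (xR T0.l6 T0.l6)
  (TrL.c (I.mix (nat_lit 29511666) (nat_lit 46070178)) T2.l7
  TrL.n)))))))) (by decide +kernel)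
theorem bx1_7 : BoxOK sI cl7 cl13 cl7 t2 t0 b1_7 :=
  box_mk (TrL.c (I.pos (nat_lit 0) (nat_lit 0)) (xa T2.l0 T2.l0)
  (TrL.c (I.pos (nat_lit 0) (nat_lit 0)) T0.l4
  (TrL.c (I.pos (nat_lit 0) (nat_lit 111196574)) T2.l5
  (TrL.c (I.pos (nat_lit 0) (nat_lit 77433728)) T0.l5
  (TrL.c (I.pos (nat_lit 0) (nat_lit 0)) T0.l7
  (TrL.c (I.pos (nat_lit 0) (nat_lit 0)) T2.l6
  (TrL.c (I.mix (nat_lit 29511666) (nat_lit 77433728)) T0.l6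
  (TrL.c (I.mix (nat_lit 29511666) (nat_lit 46070178)) T2.l4
  TrL.n)))))))) (by decide +kernel)
theorem sv1 : StarV sI cl7 cl13 cl7 t2 t0 t1 :=
  (bt_n (bt_n (bt_n (bt_b bx1_0) (bt_b bx1_1)) (bt_n (bt_b bx1_2) (bt_b bx1_3))) (bt_n (bt_n (bt_b bx1_4) (bt_b bx1_5)) (bt_n (bt_b bx1_6) (bt_b bx1_7))))
def S1 : StarD := StarD.mk cl7 cl13 cl7 2 0 t1
theorem bx2_0 : BoxOK sI cl13 cl7 cl7 t1 t1 b2_0 :=
  box_mk (TrL.c (I.pos (nat_lit 0) (nat_lit 0)) (xa (xa T1.l0 T1.l0) (xa T1.l0 T1.l0))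
  (TrL.c (I.pos (nat_lit 0) (nat_lit 0)) T1.l1
  (TrL.c (I.pos (nat_lit 0) (nat_lit 134217730)) (xR T1.l6 T1.l6)
  (TrL.c (I.pos (nat_lit 0) (nat_lit 110514882)) (xR T1.l3 T1.l3)
  (TrL.c (I.pos (nat_lit 0) (nat_lit 0)) (xa T1.l4 (xk (xa T1.l4 (xb T1.l4 (xs T1.l4 T1.l4))) (xa T1.l4 (xb T1.l4 (xs T1.l4 T1.l4)))))
  (TrL.c (I.pos (nat_lit 0) (nat_lit 0)) T1.l5
  (TrL.c (I.mix (nat_lit 8088324) (nat_lit 110514882)) (xR T1.l6 T1.l6)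
  (TrL.c (I.mix (nat_lit 8088324) (nat_lit 89478486)) (xR T1.l7 T1.l7)
  TrL.n)))))))) (by decide +kernel)
theorem bx2_1 : BoxOK sI cl13 cl7 cl7 t1 t1 b2_1 :=
  box_mk (TrL.c (I.pos (nat_lit 0) (nat_lit 0)) T1.l0
  (TrL.c (I.pos (nat_lit 0) (nat_lit 0)) T1.l1
  (TrL.c (I.pos (nat_lit 0) (nat_lit 134217730)) (xR T1.l2 T1.l2)
  (TrL.c (I.pos (nat_lit 0) (nat_lit 110514882)) (xR T1.l3 T1.l3)
  (TrL.c (I.pos (nat_lit 0) (nat_lit 0)) T1.l4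
  (TrL.c (I.pos (nat_lit 0) (nat_lit 0)) T1.l5
  (TrL.c (I.mix (nat_lit 8088324) (nat_lit 110514882)) T1.l6
  (TrL.c (I.mix (nat_lit 8088324) (nat_lit 89478486)) T1.l7
  TrL.n)))))))) (by decide +kernel)
theorem bx2_2 : BoxOK sI cl13 cl7 cl7 t1 t1 b2_2 :=
  box_mk (TrL.c (I.pos (nat_lit 0) (nat_lit 0)) (xa (xa T1.l0 T1.l0) T1.l0)
  (TrL.c (I.pos (nat_lit 0) (nat_lit 0)) T1.l1
  (TrL.c (I.pos (nat_lit 0) (nat_lit 134217730)) T1.l2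
  (TrL.c (I.pos (nat_lit 0) (nat_lit 110514882)) (xR T1.l3 T1.l3)
  (TrL.c (I.pos (nat_lit 0) (nat_lit 0)) T1.l4
  (TrL.c (I.pos (nat_lit 0) (nat_lit 0)) T1.l5
  (TrL.c (I.mix (nat_lit 8088324) (nat_lit 110514882)) T1.l6
  (TrL.c (I.mix (nat_lit 8088324) (nat_lit 89478486)) T1.l3
  TrL.n)))))))) (by decide +kernel)
theorem bx2_3 : BoxOK sI cl13 cl7 cl7 t1 t1 b2_3 :=
  box_mk (TrL.c (I.pos (nat_lit 0) (nat_lit 0)) (xa (xb T1.l0 T1.l0) (xb T1.l0 T1.l0))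
  (TrL.c (I.pos (nat_lit 0) (nat_lit 0)) T1.l1
  (TrL.c (I.pos (nat_lit 0) (nat_lit 134217730)) (xR T1.l2 T1.l2)
  (TrL.c (I.pos (nat_lit 0) (nat_lit 110514882)) (xR T1.l3 T1.l3)
  (TrL.c (I.pos (nat_lit 0) (nat_lit 0)) (xb (xa T1.l4 T1.l4) T1.l4)
  (TrL.c (I.pos (nat_lit 0) (nat_lit 0)) T1.l5
  (TrL.c (I.mix (nat_lit 8088324) (nat_lit 110514882)) (xR T1.l6 T1.l6)
  (TrL.c (I.mix (nat_lit 8088324) (nat_lit 89478486)) (xR T1.l7 T1.l7)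
  TrL.n)))))))) (by decide +kernel)
theorem bx2_4 : BoxOK sI cl13 cl7 cl7 t1 t1 b2_4 :=
  box_mk (TrL.c (I.pos (nat_lit 0) (nat_lit 0)) (xa T1.l0 T1.l0)
  (TrL.c (I.pos (nat_lit 0) (nat_lit 0)) T1.l1
  (TrL.c (I.pos (nat_lit 0) (nat_lit 134217730)) (xR T1.l2 T1.l2)
  (TrL.c (I.pos (nat_lit 0) (nat_lit 110514882)) T1.l3
  (TrL.c (I.pos (nat_lit 0) (nat_lit 0)) T1.l4
  (TrL.c (I.pos (nat_lit 0) (nat_lit 0)) T1.l5
  (TrL.c (I.mix (nat_lit 8088324) (nat_lit 110514882)) T1.l6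
  (TrL.c (I.mix (nat_lit 8088324) (nat_lit 89478486)) T1.l6
  TrL.n)))))))) (by decide +kernel)
theorem bx2_5 : BoxOK sI cl13 cl7 cl7 t1 t1 b2_5 :=
  box_mk (TrL.c (I.pos (nat_lit 0) (nat_lit 0)) (xa T1.l0 T1.l0)
  (TrL.c (I.pos (nat_lit 0) (nat_lit 0)) T1.l1
  (TrL.c (I.pos (nat_lit 0) (nat_lit 134217730)) (xR T1.l2 T1.l2)
  (TrL.c (I.pos (nat_lit 0) (nat_lit 110514882)) T1.l3
  (TrL.c (I.pos (nat_lit 0) (nat_lit 0)) T1.l4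
  (TrL.c (I.pos (nat_lit 0) (nat_lit 0)) T1.l5
  (TrL.c (I.mix (nat_lit 8088324) (nat_lit 110514882)) T1.l6
  (TrL.c (I.mix (nat_lit 8088324) (nat_lit 89478486)) T1.l3
  TrL.n)))))))) (by decide +kernel)
theorem bx2_6 : BoxOK sI cl13 cl7 cl7 t1 t1 b2_6 :=
  box_mk (TrL.c (I.pos (nat_lit 0) (nat_lit 0)) T1.l0
  (TrL.c (I.pos (nat_lit 0) (nat_lit 0)) T1.l1
  (TrL.c (I.pos (nat_lit 0) (nat_lit 134217730)) (xR T1.l2 T1.l2)
  (TrL.c (I.pos (nat_lit 0) (nat_lit 110514882)) (xR T1.l3 T1.l3)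
  (TrL.c (I.pos (nat_lit 0) (nat_lit 0)) T1.l4
  (TrL.c (I.pos (nat_lit 0) (nat_lit 0)) T1.l5
  (TrL.c (I.mix (nat_lit 8088324) (nat_lit 110514882)) T1.l6
  (TrL.c (I.mix (nat_lit 8088324) (nat_lit 89478486)) T1.l7
  TrL.n)))))))) (by decide +kernel)
theorem bx2_7 : BoxOK sI cl13 cl7 cl7 t1 t1 b2_7 :=
  box_mk (TrL.c (I.pos (nat_lit 0) (nat_lit 0)) (xa (xa T1.l0 T1.l0) T1.l0)
  (TrL.c (I.pos (nat_lit 0) (nat_lit 0)) T1.l1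
  (TrL.c (I.pos (nat_lit 0) (nat_lit 134217730)) T1.l2
  (TrL.c (I.pos (nat_lit 0) (nat_lit 110514882)) T1.l6
  (TrL.c (I.pos (nat_lit 0) (nat_lit 0)) T1.l4
  (TrL.c (I.pos (nat_lit 0) (nat_lit 0)) T1.l5
  (TrL.c (I.mix (nat_lit 8088324) (nat_lit 110514882)) T1.l6
  (TrL.c (I.mix (nat_lit 8088324) (nat_lit 89478486)) T1.l3
  TrL.n)))))))) (by decide +kernel)
theorem sv2 : StarV sI cl13 cl7 cl7 t1 t1 t2 :=
  (bt_n (bt_n (bt_n (bt_b bx2_0) (bt_b bx2_1)) (bt_n (bt_b bx2_2) (bt_b bx2_3))) (bt_n (bt_n (bt_b bx2_4) (bt_b bx2_5)) (bt_n (bt_b bx2_6) (bt_b bx2_7))))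
def S2 : StarD := StarD.mk cl13 cl7 cl7 1 1 t2
def G : List StarD := [S0, S1, S2]
theorem so0 : StarOK sI G S0 :=
  star_mk (by decide) (by decide) rfl rfl rfl rfl rfl rfl (rfl : _ = t0) (rfl : _ = t2)
  (st_mk (Pth.l (Pth.l (Pth.l Pth.z))) (nat_lit 140691088) (nat_lit 163134552) (by decide +kernel))
  (st_mk (Pth.l (Pth.l (Pth.l Pth.z))) (nat_lit 175972587) (nat_lit 198794530) (by decide +kernel))
  (st_mk (Pth.l (Pth.l (Pth.l Pth.z))) (nat_lit 216788386) (nat_lit 240135957) (by decide +kernel)) sv0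
theorem so1 : StarOK sI G S1 :=
  star_mk (by decide) (by decide) rfl rfl rfl rfl rfl rfl (rfl : _ = t2) (rfl : _ = t0)
  (st_mk (Pth.l (Pth.l (Pth.l Pth.z))) (nat_lit 96207308) (nat_lit 114774826) (by decide +kernel))
  (st_mk (Pth.l (Pth.l (Pth.l Pth.z))) (nat_lit 131426345) (nat_lit 150329511) (by decide +kernel))
  (st_mk (Pth.l (Pth.l (Pth.l Pth.z))) (nat_lit 172188525) (nat_lit 191580903) (by decide +kernel)) sv1
theorem so2 : StarOK sI G S2 :=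
  star_mk (by decide) (by decide) rfl rfl rfl rfl rfl rfl (rfl : _ = t1) (rfl : _ = t1)
  (st_mk (Pth.l (Pth.l (Pth.l Pth.z))) (nat_lit 141873768) (nat_lit 160180402) (by decide +kernel))
  (st_mk (Pth.l (Pth.l (Pth.l Pth.z))) (nat_lit 174891329) (nat_lit 197186320) (by decide +kernel))
  (st_mk (Pth.l (Pth.l (Pth.l Pth.z))) (nat_lit 215156648) (nat_lit 237774625) (by decide +kernel)) sv2
theorem ok : GroupOK (nat_lit 0) (nat_lit 91291648) G := grp_mk (allS_c so0 (allS_c so1 (allS_c so2 allS_n)))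
theorem cov : GCov G cl7 cl7 cl13 := cov_mk
  ⟨0, by decide, rfl, rfl, rfl⟩ ⟨1, by decide, rfl, rfl, rfl⟩ ⟨0, by decide, rfl, rfl, rfl⟩ ⟨1, by decide, rfl, rfl, rfl⟩ ⟨2, by decide, rfl, rfl, rfl⟩ ⟨2, by decide, rfl, rfl, rfl⟩
end Q446_0

namespace Q446_1
def sI : I := I.pos (nat_lit 91226112) (nat_lit 150339584)
def b0_0 : Bx := Bx.mk (St.mk (I.pos (nat_lit 156008448) (nat_lit 240779264)) (I.mix (nat_lit 3801088) (nat_lit 62652416)) (I.mix (nat_lit 5668864) (nat_lit 95453184)) (I.pos (nat_lit 135495680) (nat_lit 272269312)) (I.mix (nat_lit 89571328) (nat_lit 49135616)) (I.mix (nat_lit 63717376) (nat_lit 51363840)) (I.mix (nat_lit 85655552) (nat_lit 69140480)))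
  false (nat_lit 54466810)
def b0_1 : Bx := Bx.mk (St.mk (I.mix (nat_lit 47857664) (nat_lit 128270336)) (I.mix (nat_lit 10813440) (nat_lit 40501248)) (I.mix (nat_lit 20463616) (nat_lit 23134208)) (I.pos (nat_lit 31866880) (nat_lit 120143872)) (I.mix (nat_lit 40353792) (nat_lit 41254912)) (I.mix (nat_lit 38486016) (nat_lit 27000832)) (I.mix (nat_lit 28344320) (nat_lit 17285120)))
  false (nat_lit 0)
def b0_2 : Bx := Bx.mk (St.mk (I.pos (nat_lit 89407488) (nat_lit 146898944)) (I.mix (nat_lit 61521920) (nat_lit 12533760)) (I.mix (nat_lit 65093632) (nat_lit 2752512)) (I.pos (nat_lit 75497472) (nat_lit 142688256)) (I.mix (nat_lit 85786624) (nat_lit 27164672)) (I.mix (nat_lit 38617088) (nat_lit 73105408)) (I.mix (nat_lit 27033600) (nat_lit 56999936)))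
  false (nat_lit 0)
def b0_3 : Bx := Bx.mk (St.mk (I.mix (nat_lit 41222144) (nat_lit 74481664)) (I.mix (nat_lit 31096832) (nat_lit 6127616)) (I.mix (nat_lit 20217856) (nat_lit 1884160)) (I.pos (nat_lit 39632896) (nat_lit 82984960)) (I.mix (nat_lit 29671424) (nat_lit 14336000)) (I.mix (nat_lit 13582336) (nat_lit 25411584)) (I.mix (nat_lit 7651328) (nat_lit 10403840)))
  false (nat_lit 0)
def b0_4 : Bx := Bx.mk (St.mk (I.pos (nat_lit 193282048) (nat_lit 289357824)) (I.mix (nat_lit 28606464) (nat_lit 46907392)) (I.mix (nat_lit 90521600) (nat_lit 66879488)) (I.pos (nat_lit 207224832) (nat_lit 375767040)) (I.mix (nat_lit 70631424) (nat_lit 54935552)) (I.mix (nat_lit 62259200) (nat_lit 46432256)) (I.mix (nat_lit 111329280) (nat_lit 84508672)))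
  false (nat_lit 68095963)
def b0_5 : Bx := Bx.mk (St.mk (I.pos (nat_lit 92487680) (nat_lit 179666944)) (I.mix (nat_lit 66093056) (nat_lit 4620288)) (I.mix (nat_lit 68878336) (nat_lit 1916928)) (I.pos (nat_lit 88965120) (nat_lit 183549952)) (I.mix (nat_lit 77365248) (nat_lit 45023232)) (I.mix (nat_lit 41336832) (nat_lit 65273856)) (I.mix (nat_lit 31490048) (nat_lit 62783488)))
  false (nat_lit 0)
def b0_6 : Bx := Bx.mk (St.mk (I.mix (nat_lit 40845312) (nat_lit 89325568)) (I.mix (nat_lit 36061184) (nat_lit 9355264)) (I.mix (nat_lit 26411008) (nat_lit 3833856)) (I.pos (nat_lit 34373632) (nat_lit 92536832)) (I.mix (nat_lit 34799616) (nat_lit 28508160)) (I.mix (nat_lit 20660224) (nat_lit 33734656)) (I.mix (nat_lit 11780096) (nat_lit 18890752)))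
  false (nat_lit 0)
def b0_7 : Bx := Bx.mk (St.mk (I.pos (nat_lit 167706624) (nat_lit 220807168)) (I.mix (nat_lit 10305536) (nat_lit 68026368)) (I.mix (nat_lit 3047424) (nat_lit 98664448)) (I.pos (nat_lit 157597696) (nat_lit 244908032)) (I.mix (nat_lit 122093568) (nat_lit 38158336)) (I.mix (nat_lit 113999872) (nat_lit 66994176)) (I.mix (nat_lit 121749504) (nat_lit 65994752)))
  false (nat_lit 78365192)
def b0_8 : Bx := Bx.mk (St.mk (I.mix (nat_lit 45547520) (nat_lit 122126336)) (I.mix (nat_lit 16465920) (nat_lit 45678592)) (I.mix (nat_lit 24100864) (nat_lit 25526272)) (I.pos (nat_lit 37863424) (nat_lit 110526464)) (I.mix (nat_lit 49135616) (nat_lit 39272448)) (I.mix (nat_lit 49577984) (nat_lit 30752768)) (I.mix (nat_lit 26804224) (nat_lit 16973824)))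
  false (nat_lit 0)
def b0_9 : Bx := Bx.mk (St.mk (I.pos (nat_lit 141623296) (nat_lit 213221376)) (I.mix (nat_lit 42598400) (nat_lit 28852224)) (I.mix (nat_lit 49004544) (nat_lit 46006272)) (I.pos (nat_lit 123518976) (nat_lit 228802560)) (I.mix (nat_lit 53903360) (nat_lit 48185344)) (I.mix (nat_lit 56344576) (nat_lit 51576832)) (I.mix (nat_lit 57180160) (nat_lit 52789248)))
  false (nat_lit 0)
def b0_10 : Bx := Bx.mk (St.mk (I.pos (nat_lit 168919040) (nat_lit 214548480)) (I.mix (nat_lit 18546688) (nat_lit 41943040)) (I.mix (nat_lit 13582336) (nat_lit 64667648)) (I.pos (nat_lit 160382976) (nat_lit 228474880)) (I.mix (nat_lit 108838912) (nat_lit 51576832)) (I.mix (nat_lit 126992384) (nat_lit 56197120)) (I.mix (nat_lit 137101312) (nat_lit 57065472)))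
  false (nat_lit 0)
def b0_11 : Bx := Bx.mk (St.mk (I.pos (nat_lit 185499648) (nat_lit 239845376)) (I.pos (nat_lit 12910592) (nat_lit 59736064)) (I.pos (nat_lit 14286848) (nat_lit 90685440)) (I.pos (nat_lit 203407360) (nat_lit 270139392)) (I.mix (nat_lit 82526208) (nat_lit 63406080)) (I.mix (nat_lit 78413824) (nat_lit 59408384)) (I.mix (nat_lit 117391360) (nat_lit 72269824)))
  false (nat_lit 53168736)
def t0 : BTr := (BTr.n (BTr.n (BTr.n (BTr.b b0_0) (BTr.n (BTr.b b0_1) (BTr.b b0_2))) (BTr.n (BTr.b b0_3) (BTr.n (BTr.b b0_4) (BTr.b b0_5)))) (BTr.n (BTr.n (BTr.b b0_6) (BTr.n (BTr.b b0_7) (BTr.b b0_8))) (BTr.n (BTr.b b0_9) (BTr.n (BTr.b b0_10) (BTr.b b0_11)))))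
namespace T0
def l0 : Tr := Tr.L (Pth.l (Pth.l (Pth.l Pth.z)))
def l1 : Tr := Tr.L (Pth.l (Pth.l (Pth.r (Pth.l Pth.z))))
def l2 : Tr := Tr.L (Pth.l (Pth.l (Pth.r (Pth.r Pth.z))))
def l3 : Tr := Tr.L (Pth.l (Pth.r (Pth.l Pth.z)))
def l4 : Tr := Tr.L (Pth.l (Pth.r (Pth.r (Pth.l Pth.z))))
def l5 : Tr := Tr.L (Pth.l (Pth.r (Pth.r (Pth.r Pth.z))))
def l6 : Tr := Tr.L (Pth.r (Pth.l (Pth.l Pth.z)))
def l7 : Tr := Tr.L (Pth.r (Pth.l (Pth.r (Pth.l Pth.z))))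
def l8 : Tr := Tr.L (Pth.r (Pth.l (Pth.r (Pth.r Pth.z))))
def l9 : Tr := Tr.L (Pth.r (Pth.r (Pth.l Pth.z)))
def l10 : Tr := Tr.L (Pth.r (Pth.r (Pth.r (Pth.l Pth.z))))
def l11 : Tr := Tr.L (Pth.r (Pth.r (Pth.r (Pth.r Pth.z))))
end T0
def b1_0 : Bx := Bx.mk (St.mk (I.pos (nat_lit 155713536) (nat_lit 245841920)) (I.mix (nat_lit 3260416) (nat_lit 52903936)) (I.mix (nat_lit 5865472) (nat_lit 98910208)) (I.pos (nat_lit 88834048) (nat_lit 229310464)) (I.mix (nat_lit 85000192) (nat_lit 46596096)) (I.mix (nat_lit 66420736) (nat_lit 51937280)) (I.mix (nat_lit 91471872) (nat_lit 66469888)))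
  false (nat_lit 53139883)
def b1_1 : Bx := Bx.mk (St.mk (I.pos (nat_lit 114180096) (nat_lit 191004672)) (I.mix (nat_lit 55738368) (nat_lit 2588672)) (I.mix (nat_lit 57540608) (nat_lit 6176768)) (I.pos (nat_lit 66306048) (nat_lit 151912448)) (I.mix (nat_lit 70696960) (nat_lit 40255488)) (I.mix (nat_lit 39550976) (nat_lit 56721408)) (I.mix (nat_lit 33931264) (nat_lit 59195392)))
  false (nat_lit 0)
def b1_2 : Bx := Bx.mk (St.mk (I.mix (nat_lit 45727744) (nat_lit 151093248)) (I.mix (nat_lit 8732672) (nat_lit 30932992)) (I.mix (nat_lit 10895360) (nat_lit 30638080)) (I.mix (nat_lit 5947392) (nat_lit 95158272)) (I.mix (nat_lit 40468480) (nat_lit 33456128)) (I.mix (nat_lit 36175872) (nat_lit 26902528)) (I.mix (nat_lit 31768576) (nat_lit 22183936)))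
  false (nat_lit 0)
def b1_3 : Bx := Bx.mk (St.mk (I.mix (nat_lit 35422208) (nat_lit 124207104)) (I.mix (nat_lit 30113792) (nat_lit 9682944)) (I.mix (nat_lit 23117824) (nat_lit 7307264)) (I.mix (nat_lit 4521984) (nat_lit 70074368)) (I.mix (nat_lit 32604160) (nat_lit 26230784)) (I.mix (nat_lit 20824064) (nat_lit 27787264)) (I.mix (nat_lit 13828096) (nat_lit 20103168)))
  false (nat_lit 0)
def b1_4 : Bx := Bx.mk (St.mk (I.pos (nat_lit 175407104) (nat_lit 223281152)) (I.mix (nat_lit 16990208) (nat_lit 57982976)) (I.mix (nat_lit 1703936) (nat_lit 99303424)) (I.pos (nat_lit 117014528) (nat_lit 201326592)) (I.mix (nat_lit 124715008) (nat_lit 40337408)) (I.mix (nat_lit 124436480) (nat_lit 65994752)) (I.mix (nat_lit 151060480) (nat_lit 68075520)))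
  false (nat_lit 0)
def b1_5 : Bx := Bx.mk (St.mk (I.pos (nat_lit 113606656) (nat_lit 165527552)) (I.mix (nat_lit 54902784) (nat_lit 11042816)) (I.mix (nat_lit 57671680) (nat_lit 12271616)) (I.pos (nat_lit 50298880) (nat_lit 118046720)) (I.mix (nat_lit 83148800) (nat_lit 24166400)) (I.mix (nat_lit 36421632) (nat_lit 75153408)) (I.mix (nat_lit 30048256) (nat_lit 66912256)))
  false (nat_lit 0)
def b1_6 : Bx := Bx.mk (St.mk (I.mix (nat_lit 24084480) (nat_lit 145522688)) (I.mix (nat_lit 15695872) (nat_lit 38846464)) (I.mix (nat_lit 13369344) (nat_lit 33783808)) (I.mix (nat_lit 5505024) (nat_lit 87408640)) (I.mix (nat_lit 53608448) (nat_lit 29999104)) (I.mix (nat_lit 49905664) (nat_lit 30359552)) (I.mix (nat_lit 36634624) (nat_lit 20545536)))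
  false (nat_lit 0)
def b1_7 : Bx := Bx.mk (St.mk (I.mix (nat_lit 15286272) (nat_lit 109182976)) (I.mix (nat_lit 19578880) (nat_lit 1671168)) (I.mix (nat_lit 14974976) (nat_lit 3588096)) (I.mix (nat_lit 3883008) (nat_lit 58753024)) (I.mix (nat_lit 28606464) (nat_lit 13877248)) (I.mix (nat_lit 11567104) (nat_lit 28311552)) (I.mix (nat_lit 6864896) (nat_lit 17694720)))
  false (nat_lit 0)
def b1_8 : Bx := Bx.mk (St.mk (I.pos (nat_lit 206618624) (nat_lit 288210944)) (I.mix (nat_lit 25919488) (nat_lit 40140800)) (I.mix (nat_lit 58916864) (nat_lit 79052800)) (I.pos (nat_lit 179765248) (nat_lit 327876608)) (I.mix (nat_lit 62816256) (nat_lit 49823744)) (I.mix (nat_lit 54411264) (nat_lit 42975232)) (I.mix (nat_lit 96419840) (nat_lit 70828032)))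
  false (nat_lit 46859525)
def b1_9 : Bx := Bx.mk (St.mk (I.pos (nat_lit 154583040) (nat_lit 218152960)) (I.mix (nat_lit 45465600) (nat_lit 20234240)) (I.mix (nat_lit 47316992) (nat_lit 43794432)) (I.pos (nat_lit 95567872) (nat_lit 188252160)) (I.mix (nat_lit 49102848) (nat_lit 48431104)) (I.mix (nat_lit 53624832) (nat_lit 48103424)) (I.mix (nat_lit 56639488) (nat_lit 53035008)))
  false (nat_lit 0)
def b1_10 : Bx := Bx.mk (St.mk (I.pos (nat_lit 190070784) (nat_lit 239665152)) (I.pos (nat_lit 10698752) (nat_lit 51118080)) (I.pos (nat_lit 23789568) (nat_lit 95961088)) (I.pos (nat_lit 162725888) (nat_lit 219906048)) (I.mix (nat_lit 79970304) (nat_lit 65896448)) (I.mix (nat_lit 80838656) (nat_lit 63373312)) (I.mix (nat_lit 124436480) (nat_lit 83361792)))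
  false (nat_lit 43761919)
def b1_11 : Bx := Bx.mk (St.mk (I.pos (nat_lit 176390144) (nat_lit 218071040)) (I.mix (nat_lit 23134208) (nat_lit 33161216)) (I.mix (nat_lit 10371072) (nat_lit 64307200)) (I.pos (nat_lit 121339904) (nat_lit 189399040)) (I.mix (nat_lit 103251968) (nat_lit 49364992)) (I.mix (nat_lit 121274368) (nat_lit 54444032)) (I.mix (nat_lit 144719872) (nat_lit 59588608)))
  false (nat_lit 0)
def t1 : BTr := (BTr.n (BTr.n (BTr.n (BTr.b b1_0) (BTr.n (BTr.b b1_1) (BTr.b b1_2))) (BTr.n (BTr.b b1_3) (BTr.n (BTr.b b1_4) (BTr.b b1_5)))) (BTr.n (BTr.n (BTr.b b1_6) (BTr.n (BTr.b b1_7) (BTr.b b1_8))) (BTr.n (BTr.b b1_9) (BTr.n (BTr.b b1_10) (BTr.b b1_11)))))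
namespace T1
def l0 : Tr := Tr.L (Pth.l (Pth.l (Pth.l Pth.z)))
def l1 : Tr := Tr.L (Pth.l (Pth.l (Pth.r (Pth.l Pth.z))))
def l2 : Tr := Tr.L (Pth.l (Pth.l (Pth.r (Pth.r Pth.z))))
def l3 : Tr := Tr.L (Pth.l (Pth.r (Pth.l Pth.z)))
def l4 : Tr := Tr.L (Pth.l (Pth.r (Pth.r (Pth.l Pth.z))))
def l5 : Tr := Tr.L (Pth.l (Pth.r (Pth.r (Pth.r Pth.z))))
def l6 : Tr := Tr.L (Pth.r (Pth.l (Pth.l Pth.z)))
def l7 : Tr := Tr.L (Pth.r (Pth.l (Pth.r (Pth.l Pth.z))))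
def l8 : Tr := Tr.L (Pth.r (Pth.l (Pth.r (Pth.r Pth.z))))
def l9 : Tr := Tr.L (Pth.r (Pth.r (Pth.l Pth.z)))
def l10 : Tr := Tr.L (Pth.r (Pth.r (Pth.r (Pth.l Pth.z))))
def l11 : Tr := Tr.L (Pth.r (Pth.r (Pth.r (Pth.r Pth.z))))
end T1
def b2_0 : Bx := Bx.mk (St.mk (I.pos (nat_lit 156123136) (nat_lit 238714880)) (I.mix (nat_lit 3473408) (nat_lit 56770560)) (I.mix (nat_lit 6209536) (nat_lit 105070592)) (I.pos (nat_lit 134905856) (nat_lit 265256960)) (I.mix (nat_lit 95469568) (nat_lit 48791552)) (I.mix (nat_lit 71237632) (nat_lit 54132736)) (I.mix (nat_lit 94306304) (nat_lit 69435392)))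
  false (nat_lit 41678101)
def b2_1 : Bx := Bx.mk (St.mk (I.pos (nat_lit 97107968) (nat_lit 181796864)) (I.mix (nat_lit 64274432) (nat_lit 212992)) (I.mix (nat_lit 57589760) (nat_lit 15908864)) (I.pos (nat_lit 93814784) (nat_lit 183975936)) (I.mix (nat_lit 72908800) (nat_lit 42057728)) (I.mix (nat_lit 38535168) (nat_lit 54853632)) (I.mix (nat_lit 28852224) (nat_lit 51265536)))
  false (nat_lit 0)
def b2_2 : Bx := Bx.mk (St.mk (I.mix (nat_lit 36454400) (nat_lit 90619904)) (I.mix (nat_lit 36339712) (nat_lit 8601600)) (I.mix (nat_lit 18513920) (nat_lit 11091968)) (I.pos (nat_lit 35471360) (nat_lit 92569600)) (I.mix (nat_lit 30408704) (nat_lit 30375936)) (I.mix (nat_lit 19677184) (nat_lit 28868608)) (I.mix (nat_lit 9994240) (nat_lit 15564800)))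
  false (nat_lit 0)
def b2_3 : Bx := Bx.mk (St.mk (I.pos (nat_lit 166641664) (nat_lit 218644480)) (I.mix (nat_lit 10469376) (nat_lit 66011136)) (I.pos (nat_lit 8749056) (nat_lit 111919104)) (I.pos (nat_lit 152584192) (nat_lit 236257280)) (I.mix (nat_lit 131432448) (nat_lit 41271296)) (I.mix (nat_lit 126205952) (nat_lit 70451200)) (I.mix (nat_lit 141262848) (nat_lit 65994752)))
  false (nat_lit 69293113)
def b2_4 : Bx := Bx.mk (St.mk (I.mix (nat_lit 45842432) (nat_lit 117243904)) (I.mix (nat_lit 15761408) (nat_lit 45203456)) (I.mix (nat_lit 13058048) (nat_lit 32866304)) (I.pos (nat_lit 37355520) (nat_lit 108412928)) (I.mix (nat_lit 51478528) (nat_lit 32817152)) (I.mix (nat_lit 47759360) (nat_lit 30572544)) (I.mix (nat_lit 26329088) (nat_lit 17317888)))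
  false (nat_lit 0)
def b2_5 : Bx := Bx.mk (St.mk (I.pos (nat_lit 143966208) (nat_lit 208437248)) (I.mix (nat_lit 46202880) (nat_lit 20987904)) (I.mix (nat_lit 38797312) (nat_lit 51888128)) (I.pos (nat_lit 126795776) (nat_lit 218677248)) (I.mix (nat_lit 52740096) (nat_lit 52576256)) (I.mix (nat_lit 54706176) (nat_lit 54476800)) (I.mix (nat_lit 53379072) (nat_lit 56164352)))
  false (nat_lit 10893663)
def b2_6 : Bx := Bx.mk (St.mk (I.mix (nat_lit 52969472) (nat_lit 127352832)) (I.mix (nat_lit 9748480) (nat_lit 40173568)) (I.mix (nat_lit 10895360) (nat_lit 33701888)) (I.pos (nat_lit 30556160) (nat_lit 119701504)) (I.mix (nat_lit 45563904) (nat_lit 39616512)) (I.mix (nat_lit 44007424) (nat_lit 28393472)) (I.mix (nat_lit 32243712) (nat_lit 20463616)))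
  false (nat_lit 0)
def b2_7 : Bx := Bx.mk (St.mk (I.pos (nat_lit 89800704) (nat_lit 151289856)) (I.mix (nat_lit 64552960) (nat_lit 11976704)) (I.mix (nat_lit 57114624) (nat_lit 11632640)) (I.pos (nat_lit 76365824) (nat_lit 147488768)) (I.mix (nat_lit 78790656) (nat_lit 27721728)) (I.mix (nat_lit 37011456) (nat_lit 75235328)) (I.mix (nat_lit 26673152) (nat_lit 56623104)))
  false (nat_lit 0)
def b2_8 : Bx := Bx.mk (St.mk (I.pos (nat_lit 165494784) (nat_lit 211369984)) (I.mix (nat_lit 20856832) (nat_lit 40353792)) (I.mix (nat_lit 1753088) (nat_lit 78348288)) (I.pos (nat_lit 152518656) (nat_lit 220708864)) (I.mix (nat_lit 100614144) (nat_lit 47939584)) (I.mix (nat_lit 107708416) (nat_lit 50397184)) (I.mix (nat_lit 118947840) (nat_lit 50511872)))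
  false (nat_lit 0)
def b2_9 : Bx := Bx.mk (St.mk (I.pos (nat_lit 198017024) (nat_lit 291930112)) (I.mix (nat_lit 26886144) (nat_lit 45367296)) (I.mix (nat_lit 59506688) (nat_lit 88719360)) (I.pos (nat_lit 209698816) (nat_lit 376127488)) (I.mix (nat_lit 66043904) (nat_lit 55984128)) (I.mix (nat_lit 57196544) (nat_lit 41385984)) (I.mix (nat_lit 100106240) (nat_lit 67649536)))
  false (nat_lit 57566453)
def b2_10 : Bx := Bx.mk (St.mk (I.mix (nat_lit 40534016) (nat_lit 72024064)) (I.mix (nat_lit 27410432) (nat_lit 5603328)) (I.mix (nat_lit 12943360) (nat_lit 7749632)) (I.pos (nat_lit 40697856) (nat_lit 81231872)) (I.mix (nat_lit 31145984) (nat_lit 18628608)) (I.mix (nat_lit 14827520) (nat_lit 30375936)) (I.mix (nat_lit 8470528) (nat_lit 11337728)))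
  false (nat_lit 0)
def b2_11 : Bx := Bx.mk (St.mk (I.pos (nat_lit 181895168) (nat_lit 233521152)) (I.pos (nat_lit 13533184) (nat_lit 55951360)) (I.pos (nat_lit 30588928) (nat_lit 103661568)) (I.pos (nat_lit 193708032) (nat_lit 253755392)) (I.mix (nat_lit 84000768) (nat_lit 69320704)) (I.mix (nat_lit 85082112) (nat_lit 65142784)) (I.mix (nat_lit 128974848) (nat_lit 79986688)))
  false (nat_lit 27041094)
def t2 : BTr := (BTr.n (BTr.n (BTr.n (BTr.b b2_0) (BTr.n (BTr.b b2_1) (BTr.b b2_2))) (BTr.n (BTr.b b2_3) (BTr.n (BTr.b b2_4) (BTr.b b2_5)))) (BTr.n (BTr.n (BTr.b b2_6) (BTr.n (BTr.b b2_7) (BTr.b b2_8))) (BTr.n (BTr.b b2_9) (BTr.n (BTr.b b2_10) (BTr.b b2_11)))))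
namespace T2
def l0 : Tr := Tr.L (Pth.l (Pth.l (Pth.l Pth.z)))
def l1 : Tr := Tr.L (Pth.l (Pth.l (Pth.r (Pth.l Pth.z))))
def l2 : Tr := Tr.L (Pth.l (Pth.l (Pth.r (Pth.r Pth.z))))
def l3 : Tr := Tr.L (Pth.l (Pth.r (Pth.l Pth.z)))
def l4 : Tr := Tr.L (Pth.l (Pth.r (Pth.r (Pth.l Pth.z))))
def l5 : Tr := Tr.L (Pth.l (Pth.r (Pth.r (Pth.r Pth.z))))
def l6 : Tr := Tr.L (Pth.r (Pth.l (Pth.l Pth.z)))
def l7 : Tr := Tr.L (Pth.r (Pth.l (Pth.r (Pth.l Pth.z))))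
def l8 : Tr := Tr.L (Pth.r (Pth.l (Pth.r (Pth.r Pth.z))))
def l9 : Tr := Tr.L (Pth.r (Pth.r (Pth.l Pth.z)))
def l10 : Tr := Tr.L (Pth.r (Pth.r (Pth.r (Pth.l Pth.z))))
def l11 : Tr := Tr.L (Pth.r (Pth.r (Pth.r (Pth.r Pth.z))))
end T2
theorem bx0_0 : BoxOK sI cl7 cl7 cl13 t0 t2 b0_0 :=
  box_mk (TrL.c (I.pos (nat_lit 0) (nat_lit 0)) (xa (xb T0.l0 (xa T0.l0 T0.l0)) (xb T0.l0 (xa T0.l0 T0.l0)))
  (TrL.c (I.pos (nat_lit 0) (nat_lit 0)) T2.l1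
  (TrL.c (I.pos (nat_lit 0) (nat_lit 111196574)) T0.l1
  (TrL.c (I.pos (nat_lit 0) (nat_lit 77433728)) T2.l2
  (TrL.c (I.pos (nat_lit 0) (nat_lit 0)) (xa (xb T2.l8 (xk T2.l3 T2.l3)) (xb T2.l3 (xk T2.l3 T2.l3)))
  (TrL.c (I.pos (nat_lit 0) (nat_lit 0)) T0.l2
  (TrL.c (I.mix (nat_lit 29511666) (nat_lit 77433728)) T2.l4
  (TrL.c (I.mix (nat_lit 29511666) (nat_lit 46070178)) T0.l6
  TrL.n)))))))) (by decide +kernel)
theorem bx0_1 : BoxOK sI cl7 cl7 cl13 t0 t2 b0_1 :=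
  box_mk (TrL.c (I.pos (nat_lit 0) (nat_lit 0)) (xa (xa (xb T0.l4 T0.l4) T0.l4) (xa T0.l4 T0.l4))
  (TrL.c (I.pos (nat_lit 0) (nat_lit 0)) T2.l1
  (TrL.c (I.pos (nat_lit 0) (nat_lit 111196574)) T0.l1
  (TrL.c (I.pos (nat_lit 0) (nat_lit 77433728)) T2.l2
  (TrL.c (I.pos (nat_lit 0) (nat_lit 0)) (xa T2.l5 T2.l5)
  (TrL.c (I.pos (nat_lit 0) (nat_lit 0)) T0.l2
  (TrL.c (I.mix (nat_lit 29511666) (nat_lit 77433728)) T2.l4
  (TrL.c (I.mix (nat_lit 29511666) (nat_lit 46070178)) T0.l3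
  TrL.n)))))))) (by decide +kernel)
theorem bx0_2 : BoxOK sI cl7 cl7 cl13 t0 t2 b0_2 :=
  box_mk (TrL.c (I.pos (nat_lit 0) (nat_lit 0)) T0.l4
  (TrL.c (I.pos (nat_lit 0) (nat_lit 0)) T2.l1
  (TrL.c (I.pos (nat_lit 0) (nat_lit 111196574)) T0.l1
  (TrL.c (I.pos (nat_lit 0) (nat_lit 77433728)) T2.l2
  (TrL.c (I.pos (nat_lit 0) (nat_lit 0)) (xb T2.l5 T2.l5)
  (TrL.c (I.pos (nat_lit 0) (nat_lit 0)) T0.l2
  (TrL.c (I.mix (nat_lit 29511666) (nat_lit 77433728)) T2.l4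
  (TrL.c (I.mix (nat_lit 29511666) (nat_lit 46070178)) T0.l3
  TrL.n)))))))) (by decide +kernel)
theorem bx0_3 : BoxOK sI cl7 cl7 cl13 t0 t2 b0_3 :=
  box_mk (TrL.c (I.pos (nat_lit 0) (nat_lit 0)) (xa T0.l4 T0.l4)
  (TrL.c (I.pos (nat_lit 0) (nat_lit 0)) T2.l1
  (TrL.c (I.pos (nat_lit 0) (nat_lit 111196574)) T0.l1
  (TrL.c (I.pos (nat_lit 0) (nat_lit 77433728)) T2.l2
  (TrL.c (I.pos (nat_lit 0) (nat_lit 0)) T2.l5
  (TrL.c (I.pos (nat_lit 0) (nat_lit 0)) T0.l2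
  (TrL.c (I.mix (nat_lit 29511666) (nat_lit 77433728)) T2.l4
  (TrL.c (I.mix (nat_lit 29511666) (nat_lit 46070178)) T0.l3
  TrL.n)))))))) (by decide +kernel)
theorem bx0_4 : BoxOK sI cl7 cl7 cl13 t0 t2 b0_4 :=
  box_mk (TrL.c (I.pos (nat_lit 0) (nat_lit 0)) (xa (xb T0.l0 (xa T0.l0 T0.l0)) (xb T0.l0 (xa T0.l0 T0.l0)))
  (TrL.c (I.pos (nat_lit 0) (nat_lit 0)) T2.l7
  (TrL.c (I.pos (nat_lit 0) (nat_lit 111196574)) T0.l1
  (TrL.c (I.pos (nat_lit 0) (nat_lit 77433728)) T2.l2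
  (TrL.c (I.pos (nat_lit 0) (nat_lit 0)) (xa (xb (xk (xa T2.l3 T2.l3) (xa T2.l3 T2.l3)) T2.l3) (xb (xk (xa T2.l3 T2.l3) (xa T2.l3 T2.l3)) (xk (xa T2.l3 T2.l3) (xa T2.l3 T2.l3))))
  (TrL.c (I.pos (nat_lit 0) (nat_lit 0)) T0.l2
  (TrL.c (I.mix (nat_lit 29511666) (nat_lit 77433728)) T2.l4
  (TrL.c (I.mix (nat_lit 29511666) (nat_lit 46070178)) T0.l6
  TrL.n)))))))) (by decide +kernel)
theorem bx0_5 : BoxOK sI cl7 cl7 cl13 t0 t2 b0_5 :=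
  box_mk (TrL.c (I.pos (nat_lit 0) (nat_lit 0)) (xa (xb T0.l4 T0.l4) T0.l0)
  (TrL.c (I.pos (nat_lit 0) (nat_lit 0)) T2.l1
  (TrL.c (I.pos (nat_lit 0) (nat_lit 111196574)) T0.l1
  (TrL.c (I.pos (nat_lit 0) (nat_lit 77433728)) T2.l2
  (TrL.c (I.pos (nat_lit 0) (nat_lit 0)) (xa T2.l5 (xb T2.l5 T2.l8))
  (TrL.c (I.pos (nat_lit 0) (nat_lit 0)) T0.l2
  (TrL.c (I.mix (nat_lit 29511666) (nat_lit 77433728)) T2.l4
  (TrL.c (I.mix (nat_lit 29511666) (nat_lit 46070178)) T0.l6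
  TrL.n)))))))) (by decide +kernel)
theorem bx0_6 : BoxOK sI cl7 cl7 cl13 t0 t2 b0_6 :=
  box_mk (TrL.c (I.pos (nat_lit 0) (nat_lit 0)) (xa (xa (xb (xa T0.l4 T0.l4) T0.l4) T0.l4) T0.l4)
  (TrL.c (I.pos (nat_lit 0) (nat_lit 0)) T2.l1
  (TrL.c (I.pos (nat_lit 0) (nat_lit 111196574)) T0.l1
  (TrL.c (I.pos (nat_lit 0) (nat_lit 77433728)) T2.l2
  (TrL.c (I.pos (nat_lit 0) (nat_lit 0)) T2.l5
  (TrL.c (I.pos (nat_lit 0) (nat_lit 0)) T0.l2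
  (TrL.c (I.mix (nat_lit 29511666) (nat_lit 77433728)) T2.l4
  (TrL.c (I.mix (nat_lit 29511666) (nat_lit 46070178)) T0.l3
  TrL.n)))))))) (by decide +kernel)
theorem bx0_7 : BoxOK sI cl7 cl7 cl13 t0 t2 b0_7 :=
  box_mk (TrL.c (I.pos (nat_lit 0) (nat_lit 0)) (xb (xa T0.l11 T0.l11) (xa (xb T0.l11 T0.l11) T0.l11))
  (TrL.c (I.pos (nat_lit 0) (nat_lit 0)) T2.l1
  (TrL.c (I.pos (nat_lit 0) (nat_lit 111196574)) T0.l1
  (TrL.c (I.pos (nat_lit 0) (nat_lit 77433728)) T2.l2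
  (TrL.c (I.pos (nat_lit 0) (nat_lit 0)) (xb (xk (xa T2.l8 T2.l8) T2.l8) (xk (xa T2.l8 T2.l3) T2.l3))
  (TrL.c (I.pos (nat_lit 0) (nat_lit 0)) T0.l2
  (TrL.c (I.mix (nat_lit 29511666) (nat_lit 77433728)) T2.l4
  (TrL.c (I.mix (nat_lit 29511666) (nat_lit 46070178)) T0.l6
  TrL.n)))))))) (by decide +kernel)
theorem bx0_8 : BoxOK sI cl7 cl7 cl13 t0 t2 b0_8 :=
  box_mk (TrL.c (I.pos (nat_lit 0) (nat_lit 0)) (xa (xa (xb (xa T0.l4 T0.l4) (xa T0.l4 T0.l4)) (xb T0.l4 T0.l4)) (xa T0.l4 T0.l4))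
  (TrL.c (I.pos (nat_lit 0) (nat_lit 0)) (xa T2.l1 T2.l1)
  (TrL.c (I.pos (nat_lit 0) (nat_lit 111196574)) T0.l1
  (TrL.c (I.pos (nat_lit 0) (nat_lit 77433728)) T2.l2
  (TrL.c (I.pos (nat_lit 0) (nat_lit 0)) (xa T2.l5 T2.l5)
  (TrL.c (I.pos (nat_lit 0) (nat_lit 0)) T0.l2
  (TrL.c (I.mix (nat_lit 29511666) (nat_lit 77433728)) T2.l4
  (TrL.c (I.mix (nat_lit 29511666) (nat_lit 46070178)) T0.l3
  TrL.n)))))))) (by decide +kernel)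
theorem bx0_9 : BoxOK sI cl7 cl7 cl13 t0 t2 b0_9 :=
  box_mk (TrL.c (I.pos (nat_lit 0) (nat_lit 0)) (xa T0.l0 T0.l0)
  (TrL.c (I.pos (nat_lit 0) (nat_lit 0)) T2.l1
  (TrL.c (I.pos (nat_lit 0) (nat_lit 111196574)) T0.l1
  (TrL.c (I.pos (nat_lit 0) (nat_lit 77433728)) T2.l2
  (TrL.c (I.pos (nat_lit 0) (nat_lit 0)) (xb (xa T2.l8 (xk T2.l8 T2.l8)) (xa T2.l8 T2.l8))
  (TrL.c (I.pos (nat_lit 0) (nat_lit 0)) T0.l2
  (TrL.c (I.mix (nat_lit 29511666) (nat_lit 77433728)) T2.l4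
  (TrL.c (I.mix (nat_lit 29511666) (nat_lit 46070178)) T0.l3
  TrL.n)))))))) (by decide +kernel)
theorem bx0_10 : BoxOK sI cl7 cl7 cl13 t0 t2 b0_10 :=
  box_mk (TrL.c (I.pos (nat_lit 0) (nat_lit 0)) (xb T0.l11 T0.l11)
  (TrL.c (I.pos (nat_lit 0) (nat_lit 0)) T2.l1
  (TrL.c (I.pos (nat_lit 0) (nat_lit 111196574)) T0.l1
  (TrL.c (I.pos (nat_lit 0) (nat_lit 77433728)) T2.l2
  (TrL.c (I.pos (nat_lit 0) (nat_lit 0)) (xk (xb T2.l8 T2.l8) (xb T2.l8 T2.l8))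
  (TrL.c (I.pos (nat_lit 0) (nat_lit 0)) T0.l2
  (TrL.c (I.mix (nat_lit 29511666) (nat_lit 77433728)) T2.l4
  (TrL.c (I.mix (nat_lit 29511666) (nat_lit 46070178)) T0.l6
  TrL.n)))))))) (by decide +kernel)
theorem bx0_11 : BoxOK sI cl7 cl7 cl13 t0 t2 b0_11 :=
  box_mk (TrL.c (I.pos (nat_lit 0) (nat_lit 0)) (xa T0.l0 T0.l0)
  (TrL.c (I.pos (nat_lit 0) (nat_lit 0)) T2.l1
  (TrL.c (I.pos (nat_lit 0) (nat_lit 111196574)) T0.l1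
  (TrL.c (I.pos (nat_lit 0) (nat_lit 77433728)) T2.l2
  (TrL.c (I.pos (nat_lit 0) (nat_lit 0)) (xk T2.l3 T2.l3)
  (TrL.c (I.pos (nat_lit 0) (nat_lit 0)) T0.l2
  (TrL.c (I.mix (nat_lit 29511666) (nat_lit 77433728)) T2.l4
  (TrL.c (I.mix (nat_lit 29511666) (nat_lit 46070178)) T0.l6
  TrL.n)))))))) (by decide +kernel)
theorem sv0 : StarV sI cl7 cl7 cl13 t0 t2 t0 :=
  (bt_n (bt_n (bt_n (bt_b bx0_0) (bt_n (bt_b bx0_1) (bt_b bx0_2))) (bt_n (bt_b bx0_3) (bt_n (bt_b bx0_4) (bt_b bx0_5)))) (bt_n (bt_n (bt_b bx0_6) (bt_n (bt_b bx0_7) (bt_b bx0_8))) (bt_n (bt_b bx0_9) (bt_n (bt_b bx0_10) (bt_b bx0_11)))))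
def S0 : StarD := StarD.mk cl7 cl7 cl13 0 2 t0
theorem bx1_0 : BoxOK sI cl7 cl13 cl7 t2 t0 b1_0 :=
  box_mk (TrL.c (I.pos (nat_lit 0) (nat_lit 0)) (xa (xa (xb T2.l0 T2.l0) (xb T2.l0 T2.l0)) (xa (xb T2.l0 T2.l0) T2.l0))
  (TrL.c (I.pos (nat_lit 0) (nat_lit 0)) T0.l5
  (TrL.c (I.pos (nat_lit 0) (nat_lit 111196574)) T2.l6
  (TrL.c (I.pos (nat_lit 0) (nat_lit 77433728)) T0.l6
  (TrL.c (I.pos (nat_lit 0) (nat_lit 0)) (xa (xk T0.l7 T0.l7) (xk T0.l7 T0.l7))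
  (TrL.c (I.pos (nat_lit 0) (nat_lit 0)) T2.l7
  (TrL.c (I.mix (nat_lit 29511666) (nat_lit 77433728)) T0.l8
  (TrL.c (I.mix (nat_lit 29511666) (nat_lit 46070178)) T2.l10
  TrL.n)))))))) (by decide +kernel)
theorem bx1_1 : BoxOK sI cl7 cl13 cl7 t2 t0 b1_1 :=
  box_mk (TrL.c (I.pos (nat_lit 0) (nat_lit 0)) (xa (xb T2.l9 T2.l9) T2.l0)
  (TrL.c (I.pos (nat_lit 0) (nat_lit 0)) T0.l5
  (TrL.c (I.pos (nat_lit 0) (nat_lit 111196574)) T2.l6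
  (TrL.c (I.pos (nat_lit 0) (nat_lit 77433728)) T0.l6
  (TrL.c (I.pos (nat_lit 0) (nat_lit 0)) (xa T0.l9 (xb T0.l9 T0.l9))
  (TrL.c (I.pos (nat_lit 0) (nat_lit 0)) T2.l7
  (TrL.c (I.mix (nat_lit 29511666) (nat_lit 77433728)) T0.l8
  (TrL.c (I.mix (nat_lit 29511666) (nat_lit 46070178)) T2.l10
  TrL.n)))))))) (by decide +kernel)
theorem bx1_2 : BoxOK sI cl7 cl13 cl7 t2 t0 b1_2 :=
  box_mk (TrL.c (I.pos (nat_lit 0) (nat_lit 0)) (xa (xa (xa (xb T2.l9 T2.l9) T2.l9) T2.l9) (xa T2.l9 (xa T2.l9 T2.l9)))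
  (TrL.c (I.pos (nat_lit 0) (nat_lit 0)) (xa T0.l5 T0.l5)
  (TrL.c (I.pos (nat_lit 0) (nat_lit 111196574)) T2.l6
  (TrL.c (I.pos (nat_lit 0) (nat_lit 77433728)) T0.l6
  (TrL.c (I.pos (nat_lit 0) (nat_lit 0)) (xa T0.l9 T0.l9)
  (TrL.c (I.pos (nat_lit 0) (nat_lit 0)) T2.l7
  (TrL.c (I.mix (nat_lit 29511666) (nat_lit 77433728)) T0.l8
  (TrL.c (I.mix (nat_lit 29511666) (nat_lit 46070178)) T2.l10
  TrL.n)))))))) (by decide +kernel)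
theorem bx1_3 : BoxOK sI cl7 cl13 cl7 t2 t0 b1_3 :=
  box_mk (TrL.c (I.pos (nat_lit 0) (nat_lit 0)) (xa (xa (xb T2.l9 T2.l9) T2.l9) T2.l9)
  (TrL.c (I.pos (nat_lit 0) (nat_lit 0)) T0.l5
  (TrL.c (I.pos (nat_lit 0) (nat_lit 111196574)) T2.l6
  (TrL.c (I.pos (nat_lit 0) (nat_lit 77433728)) T0.l6
  (TrL.c (I.pos (nat_lit 0) (nat_lit 0)) (xa T0.l9 T0.l9)
  (TrL.c (I.pos (nat_lit 0) (nat_lit 0)) T2.l7
  (TrL.c (I.mix (nat_lit 29511666) (nat_lit 77433728)) T0.l8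
  (TrL.c (I.mix (nat_lit 29511666) (nat_lit 46070178)) T2.l10
  TrL.n)))))))) (by decide +kernel)
theorem bx1_4 : BoxOK sI cl7 cl13 cl7 t2 t0 b1_4 :=
  box_mk (TrL.c (I.pos (nat_lit 0) (nat_lit 0)) (xb (xa T2.l11 T2.l11) (xa (xb T2.l11 T2.l11) (xb T2.l11 T2.l11)))
  (TrL.c (I.pos (nat_lit 0) (nat_lit 0)) T0.l5
  (TrL.c (I.pos (nat_lit 0) (nat_lit 111196574)) T2.l6
  (TrL.c (I.pos (nat_lit 0) (nat_lit 77433728)) T0.l6
  (TrL.c (I.pos (nat_lit 0) (nat_lit 0)) (xb (xk T0.l10 T0.l10) (xk T0.l10 T0.l10))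
  (TrL.c (I.pos (nat_lit 0) (nat_lit 0)) T2.l7
  (TrL.c (I.mix (nat_lit 29511666) (nat_lit 77433728)) T0.l8
  (TrL.c (I.mix (nat_lit 29511666) (nat_lit 46070178)) T2.l10
  TrL.n)))))))) (by decide +kernel)
theorem bx1_5 : BoxOK sI cl7 cl13 cl7 t2 t0 b1_5 :=
  box_mk (TrL.c (I.pos (nat_lit 0) (nat_lit 0)) (xb T2.l9 T2.l9)
  (TrL.c (I.pos (nat_lit 0) (nat_lit 0)) T0.l5
  (TrL.c (I.pos (nat_lit 0) (nat_lit 111196574)) T2.l6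
  (TrL.c (I.pos (nat_lit 0) (nat_lit 77433728)) T0.l6
  (TrL.c (I.pos (nat_lit 0) (nat_lit 0)) (xb T0.l9 T0.l9)
  (TrL.c (I.pos (nat_lit 0) (nat_lit 0)) T2.l7
  (TrL.c (I.mix (nat_lit 29511666) (nat_lit 77433728)) T0.l8
  (TrL.c (I.mix (nat_lit 29511666) (nat_lit 46070178)) T2.l10
  TrL.n)))))))) (by decide +kernel)
theorem bx1_6 : BoxOK sI cl7 cl13 cl7 t2 t0 b1_6 :=
  box_mk (TrL.c (I.pos (nat_lit 0) (nat_lit 0)) (xa (xa (xb T2.l9 (xa T2.l9 T2.l9)) T2.l9) (xa T2.l9 (xb T2.l9 (xa T2.l9 T2.l9))))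
  (TrL.c (I.pos (nat_lit 0) (nat_lit 0)) (xa T0.l5 T0.l5)
  (TrL.c (I.pos (nat_lit 0) (nat_lit 111196574)) T2.l6
  (TrL.c (I.pos (nat_lit 0) (nat_lit 77433728)) T0.l6
  (TrL.c (I.pos (nat_lit 0) (nat_lit 0)) (xa T0.l9 T0.l9)
  (TrL.c (I.pos (nat_lit 0) (nat_lit 0)) T2.l7
  (TrL.c (I.mix (nat_lit 29511666) (nat_lit 77433728)) T0.l8
  (TrL.c (I.mix (nat_lit 29511666) (nat_lit 46070178)) T2.l10
  TrL.n)))))))) (by decide +kernel)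
theorem bx1_7 : BoxOK sI cl7 cl13 cl7 t2 t0 b1_7 :=
  box_mk (TrL.c (I.pos (nat_lit 0) (nat_lit 0)) T2.l9
  (TrL.c (I.pos (nat_lit 0) (nat_lit 0)) T0.l5
  (TrL.c (I.pos (nat_lit 0) (nat_lit 111196574)) T2.l6
  (TrL.c (I.pos (nat_lit 0) (nat_lit 77433728)) T0.l6
  (TrL.c (I.pos (nat_lit 0) (nat_lit 0)) T0.l9
  (TrL.c (I.pos (nat_lit 0) (nat_lit 0)) T2.l7
  (TrL.c (I.mix (nat_lit 29511666) (nat_lit 77433728)) T0.l8
  (TrL.c (I.mix (nat_lit 29511666) (nat_lit 46070178)) T2.l10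
  TrL.n)))))))) (by decide +kernel)
theorem bx1_8 : BoxOK sI cl7 cl13 cl7 t2 t0 b1_8 :=
  box_mk (TrL.c (I.pos (nat_lit 0) (nat_lit 0)) (xa (xb T2.l0 T2.l0) (xb T2.l0 (xa T2.l0 T2.l0)))
  (TrL.c (I.pos (nat_lit 0) (nat_lit 0)) T0.l2
  (TrL.c (I.pos (nat_lit 0) (nat_lit 111196574)) T2.l6
  (TrL.c (I.pos (nat_lit 0) (nat_lit 77433728)) T0.l6
  (TrL.c (I.pos (nat_lit 0) (nat_lit 0)) (xa (xb (xk (xa T0.l7 T0.l7) (xa T0.l7 T0.l7)) T0.l7) (xb (xk (xa T0.l7 T0.l7) (xa T0.l7 T0.l7)) (xk (xa T0.l7 T0.l7) (xa T0.l7 T0.l7))))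
  (TrL.c (I.pos (nat_lit 0) (nat_lit 0)) T2.l7
  (TrL.c (I.mix (nat_lit 29511666) (nat_lit 77433728)) T0.l8
  (TrL.c (I.mix (nat_lit 29511666) (nat_lit 46070178)) T2.l2
  TrL.n)))))))) (by decide +kernel)
theorem bx1_9 : BoxOK sI cl7 cl13 cl7 t2 t0 b1_9 :=
  box_mk (TrL.c (I.pos (nat_lit 0) (nat_lit 0)) (xa T2.l0 T2.l0)
  (TrL.c (I.pos (nat_lit 0) (nat_lit 0)) T0.l5
  (TrL.c (I.pos (nat_lit 0) (nat_lit 111196574)) T2.l6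
  (TrL.c (I.pos (nat_lit 0) (nat_lit 77433728)) T0.l6
  (TrL.c (I.pos (nat_lit 0) (nat_lit 0)) (xa T0.l10 (xb (xk T0.l10 T0.l10) T0.l10))
  (TrL.c (I.pos (nat_lit 0) (nat_lit 0)) T2.l7
  (TrL.c (I.mix (nat_lit 29511666) (nat_lit 77433728)) T0.l8
  (TrL.c (I.mix (nat_lit 29511666) (nat_lit 46070178)) T2.l10
  TrL.n)))))))) (by decide +kernel)
theorem bx1_10 : BoxOK sI cl7 cl13 cl7 t2 t0 b1_10 :=
  box_mk (TrL.c (I.pos (nat_lit 0) (nat_lit 0)) (xa (xb T2.l0 T2.l0) T2.l0)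
  (TrL.c (I.pos (nat_lit 0) (nat_lit 0)) T0.l5
  (TrL.c (I.pos (nat_lit 0) (nat_lit 111196574)) T2.l6
  (TrL.c (I.pos (nat_lit 0) (nat_lit 77433728)) T0.l6
  (TrL.c (I.pos (nat_lit 0) (nat_lit 0)) (xk T0.l7 T0.l7)
  (TrL.c (I.pos (nat_lit 0) (nat_lit 0)) T2.l7
  (TrL.c (I.mix (nat_lit 29511666) (nat_lit 77433728)) T0.l8
  (TrL.c (I.mix (nat_lit 29511666) (nat_lit 46070178)) T2.l2
  TrL.n)))))))) (by decide +kernel)
theorem bx1_11 : BoxOK sI cl7 cl13 cl7 t2 t0 b1_11 :=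
  box_mk (TrL.c (I.pos (nat_lit 0) (nat_lit 0)) (xb T2.l11 (xa T2.l11 T2.l11))
  (TrL.c (I.pos (nat_lit 0) (nat_lit 0)) T0.l5
  (TrL.c (I.pos (nat_lit 0) (nat_lit 111196574)) T2.l6
  (TrL.c (I.pos (nat_lit 0) (nat_lit 77433728)) T0.l6
  (TrL.c (I.pos (nat_lit 0) (nat_lit 0)) (xb (xk T0.l10 T0.l10) T0.l10)
  (TrL.c (I.pos (nat_lit 0) (nat_lit 0)) T2.l7
  (TrL.c (I.mix (nat_lit 29511666) (nat_lit 77433728)) T0.l8
  (TrL.c (I.mix (nat_lit 29511666) (nat_lit 46070178)) T2.l2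
  TrL.n)))))))) (by decide +kernel)
theorem sv1 : StarV sI cl7 cl13 cl7 t2 t0 t1 :=
  (bt_n (bt_n (bt_n (bt_b bx1_0) (bt_n (bt_b bx1_1) (bt_b bx1_2))) (bt_n (bt_b bx1_3) (bt_n (bt_b bx1_4) (bt_b bx1_5)))) (bt_n (bt_n (bt_b bx1_6) (bt_n (bt_b bx1_7) (bt_b bx1_8))) (bt_n (bt_b bx1_9) (bt_n (bt_b bx1_10) (bt_b bx1_11)))))
def S1 : StarD := StarD.mk cl7 cl13 cl7 2 0 t1
theorem bx2_0 : BoxOK sI cl13 cl7 cl7 t1 t1 b2_0 :=
  box_mk (TrL.c (I.pos (nat_lit 0) (nat_lit 0)) (xa (xb T1.l0 (xa T1.l0 T1.l0)) (xb T1.l0 T1.l0))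
  (TrL.c (I.pos (nat_lit 0) (nat_lit 0)) T1.l1
  (TrL.c (I.pos (nat_lit 0) (nat_lit 134217730)) T1.l2
  (TrL.c (I.pos (nat_lit 0) (nat_lit 110514882)) T1.l3
  (TrL.c (I.pos (nat_lit 0) (nat_lit 0)) (xa T1.l4 (xk T1.l4 T1.l4))
  (TrL.c (I.pos (nat_lit 0) (nat_lit 0)) T1.l5
  (TrL.c (I.mix (nat_lit 8088324) (nat_lit 110514882)) T1.l6
  (TrL.c (I.mix (nat_lit 8088324) (nat_lit 89478486)) T1.l7
  TrL.n)))))))) (by decide +kernel)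
theorem bx2_1 : BoxOK sI cl13 cl7 cl7 t1 t1 b2_1 :=
  box_mk (TrL.c (I.pos (nat_lit 0) (nat_lit 0)) (xa (xb T1.l8 T1.l8) T1.l0)
  (TrL.c (I.pos (nat_lit 0) (nat_lit 0)) T1.l1
  (TrL.c (I.pos (nat_lit 0) (nat_lit 134217730)) T1.l2
  (TrL.c (I.pos (nat_lit 0) (nat_lit 110514882)) T1.l3
  (TrL.c (I.pos (nat_lit 0) (nat_lit 0)) (xa T1.l9 (xb T1.l9 T1.l9))
  (TrL.c (I.pos (nat_lit 0) (nat_lit 0)) T1.l5
  (TrL.c (I.mix (nat_lit 8088324) (nat_lit 110514882)) T1.l6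
  (TrL.c (I.mix (nat_lit 8088324) (nat_lit 89478486)) T1.l7
  TrL.n)))))))) (by decide +kernel)
theorem bx2_2 : BoxOK sI cl13 cl7 cl7 t1 t1 b2_2 :=
  box_mk (TrL.c (I.pos (nat_lit 0) (nat_lit 0)) (xa T1.l8 T1.l8)
  (TrL.c (I.pos (nat_lit 0) (nat_lit 0)) T1.l1
  (TrL.c (I.pos (nat_lit 0) (nat_lit 134217730)) T1.l2
  (TrL.c (I.pos (nat_lit 0) (nat_lit 110514882)) T1.l3
  (TrL.c (I.pos (nat_lit 0) (nat_lit 0)) T1.l9
  (TrL.c (I.pos (nat_lit 0) (nat_lit 0)) T1.l5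
  (TrL.c (I.mix (nat_lit 8088324) (nat_lit 110514882)) T1.l6
  (TrL.c (I.mix (nat_lit 8088324) (nat_lit 89478486)) T1.l2
  TrL.n)))))))) (by decide +kernel)
theorem bx2_3 : BoxOK sI cl13 cl7 cl7 t1 t1 b2_3 :=
  box_mk (TrL.c (I.pos (nat_lit 0) (nat_lit 0)) (xa (xb T1.l10 T1.l10) (xb T1.l10 T1.l10))
  (TrL.c (I.pos (nat_lit 0) (nat_lit 0)) T1.l1
  (TrL.c (I.pos (nat_lit 0) (nat_lit 134217730)) T1.l2
  (TrL.c (I.pos (nat_lit 0) (nat_lit 110514882)) T1.l3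
  (TrL.c (I.pos (nat_lit 0) (nat_lit 0)) (xb (xk T1.l11 T1.l11) (xk T1.l4 T1.l11))
  (TrL.c (I.pos (nat_lit 0) (nat_lit 0)) T1.l5
  (TrL.c (I.mix (nat_lit 8088324) (nat_lit 110514882)) T1.l6
  (TrL.c (I.mix (nat_lit 8088324) (nat_lit 89478486)) T1.l7
  TrL.n)))))))) (by decide +kernel)
theorem bx2_4 : BoxOK sI cl13 cl7 cl7 t1 t1 b2_4 :=
  box_mk (TrL.c (I.pos (nat_lit 0) (nat_lit 0)) (xa (xa (xb T1.l8 (xa T1.l8 T1.l8)) T1.l8) (xa T1.l8 T1.l8))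
  (TrL.c (I.pos (nat_lit 0) (nat_lit 0)) (xa T1.l1 T1.l1)
  (TrL.c (I.pos (nat_lit 0) (nat_lit 134217730)) T1.l2
  (TrL.c (I.pos (nat_lit 0) (nat_lit 110514882)) T1.l3
  (TrL.c (I.pos (nat_lit 0) (nat_lit 0)) (xa T1.l9 T1.l9)
  (TrL.c (I.pos (nat_lit 0) (nat_lit 0)) T1.l5
  (TrL.c (I.mix (nat_lit 8088324) (nat_lit 110514882)) T1.l6
  (TrL.c (I.mix (nat_lit 8088324) (nat_lit 89478486)) T1.l3
  TrL.n)))))))) (by decide +kernel)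
theorem bx2_5 : BoxOK sI cl13 cl7 cl7 t1 t1 b2_5 :=
  box_mk (TrL.c (I.pos (nat_lit 0) (nat_lit 0)) (xa T1.l0 T1.l0)
  (TrL.c (I.pos (nat_lit 0) (nat_lit 0)) T1.l1
  (TrL.c (I.pos (nat_lit 0) (nat_lit 134217730)) T1.l2
  (TrL.c (I.pos (nat_lit 0) (nat_lit 110514882)) T1.l3
  (TrL.c (I.pos (nat_lit 0) (nat_lit 0)) (xa T1.l11 (xb T1.l11 T1.l11))
  (TrL.c (I.pos (nat_lit 0) (nat_lit 0)) T1.l5
  (TrL.c (I.mix (nat_lit 8088324) (nat_lit 110514882)) T1.l6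
  (TrL.c (I.mix (nat_lit 8088324) (nat_lit 89478486)) T1.l3
  TrL.n)))))))) (by decide +kernel)
theorem bx2_6 : BoxOK sI cl13 cl7 cl7 t1 t1 b2_6 :=
  box_mk (TrL.c (I.pos (nat_lit 0) (nat_lit 0)) (xa (xa (xb (xa T1.l8 T1.l8) (xa T1.l8 T1.l8)) T1.l8) (xa T1.l8 T1.l8))
  (TrL.c (I.pos (nat_lit 0) (nat_lit 0)) (xa T1.l1 T1.l1)
  (TrL.c (I.pos (nat_lit 0) (nat_lit 134217730)) T1.l2
  (TrL.c (I.pos (nat_lit 0) (nat_lit 110514882)) T1.l3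
  (TrL.c (I.pos (nat_lit 0) (nat_lit 0)) (xa T1.l9 T1.l9)
  (TrL.c (I.pos (nat_lit 0) (nat_lit 0)) T1.l5
  (TrL.c (I.mix (nat_lit 8088324) (nat_lit 110514882)) T1.l6
  (TrL.c (I.mix (nat_lit 8088324) (nat_lit 89478486)) T1.l3
  TrL.n)))))))) (by decide +kernel)
theorem bx2_7 : BoxOK sI cl13 cl7 cl7 t1 t1 b2_7 :=
  box_mk (TrL.c (I.pos (nat_lit 0) (nat_lit 0)) (xb T1.l8 T1.l8)
  (TrL.c (I.pos (nat_lit 0) (nat_lit 0)) T1.l1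
  (TrL.c (I.pos (nat_lit 0) (nat_lit 134217730)) T1.l2
  (TrL.c (I.pos (nat_lit 0) (nat_lit 110514882)) T1.l3
  (TrL.c (I.pos (nat_lit 0) (nat_lit 0)) (xb T1.l9 T1.l9)
  (TrL.c (I.pos (nat_lit 0) (nat_lit 0)) T1.l5
  (TrL.c (I.mix (nat_lit 8088324) (nat_lit 110514882)) T1.l6
  (TrL.c (I.mix (nat_lit 8088324) (nat_lit 89478486)) T1.l7
  TrL.n)))))))) (by decide +kernel)
theorem bx2_8 : BoxOK sI cl13 cl7 cl7 t1 t1 b2_8 :=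
  box_mk (TrL.c (I.pos (nat_lit 0) (nat_lit 0)) (xb T1.l10 T1.l10)
  (TrL.c (I.pos (nat_lit 0) (nat_lit 0)) T1.l1
  (TrL.c (I.pos (nat_lit 0) (nat_lit 134217730)) T1.l2
  (TrL.c (I.pos (nat_lit 0) (nat_lit 110514882)) T1.l3
  (TrL.c (I.pos (nat_lit 0) (nat_lit 0)) (xb T1.l11 T1.l11)
  (TrL.c (I.pos (nat_lit 0) (nat_lit 0)) T1.l5
  (TrL.c (I.mix (nat_lit 8088324) (nat_lit 110514882)) T1.l6
  (TrL.c (I.mix (nat_lit 8088324) (nat_lit 89478486)) T1.l7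
  TrL.n)))))))) (by decide +kernel)
theorem bx2_9 : BoxOK sI cl13 cl7 cl7 t1 t1 b2_9 :=
  box_mk (TrL.c (I.pos (nat_lit 0) (nat_lit 0)) (xa (xb T1.l0 T1.l0) (xb T1.l0 T1.l0))
  (TrL.c (I.pos (nat_lit 0) (nat_lit 0)) T1.l5
  (TrL.c (I.pos (nat_lit 0) (nat_lit 134217730)) T1.l2
  (TrL.c (I.pos (nat_lit 0) (nat_lit 110514882)) T1.l3
  (TrL.c (I.pos (nat_lit 0) (nat_lit 0)) (xa (xb (xk (xa T1.l4 T1.l4) (xa T1.l4 T1.l4)) T1.l4) (xb (xk (xa T1.l4 T1.l4) (xa T1.l4 T1.l4)) (xk (xa T1.l4 T1.l4) (xa T1.l4 T1.l4))))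
  (TrL.c (I.pos (nat_lit 0) (nat_lit 0)) T1.l5
  (TrL.c (I.mix (nat_lit 8088324) (nat_lit 110514882)) T1.l6
  (TrL.c (I.mix (nat_lit 8088324) (nat_lit 89478486)) T1.l3
  TrL.n)))))))) (by decide +kernel)
theorem bx2_10 : BoxOK sI cl13 cl7 cl7 t1 t1 b2_10 :=
  box_mk (TrL.c (I.pos (nat_lit 0) (nat_lit 0)) T1.l8
  (TrL.c (I.pos (nat_lit 0) (nat_lit 0)) T1.l1
  (TrL.c (I.pos (nat_lit 0) (nat_lit 134217730)) T1.l2
  (TrL.c (I.pos (nat_lit 0) (nat_lit 110514882)) T1.l3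
  (TrL.c (I.pos (nat_lit 0) (nat_lit 0)) T1.l9
  (TrL.c (I.pos (nat_lit 0) (nat_lit 0)) T1.l5
  (TrL.c (I.mix (nat_lit 8088324) (nat_lit 110514882)) T1.l6
  (TrL.c (I.mix (nat_lit 8088324) (nat_lit 89478486)) T1.l2
  TrL.n)))))))) (by decide +kernel)
theorem bx2_11 : BoxOK sI cl13 cl7 cl7 t1 t1 b2_11 :=
  box_mk (TrL.c (I.pos (nat_lit 0) (nat_lit 0)) (xa T1.l0 T1.l0)
  (TrL.c (I.pos (nat_lit 0) (nat_lit 0)) T1.l1
  (TrL.c (I.pos (nat_lit 0) (nat_lit 134217730)) T1.l2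
  (TrL.c (I.pos (nat_lit 0) (nat_lit 110514882)) T1.l3
  (TrL.c (I.pos (nat_lit 0) (nat_lit 0)) (xk T1.l4 T1.l4)
  (TrL.c (I.pos (nat_lit 0) (nat_lit 0)) T1.l5
  (TrL.c (I.mix (nat_lit 8088324) (nat_lit 110514882)) T1.l6
  (TrL.c (I.mix (nat_lit 8088324) (nat_lit 89478486)) T1.l3
  TrL.n)))))))) (by decide +kernel)
theorem sv2 : StarV sI cl13 cl7 cl7 t1 t1 t2 :=
  (bt_n (bt_n (bt_n (bt_b bx2_0) (bt_n (bt_b bx2_1) (bt_b bx2_2))) (bt_n (bt_b bx2_3) (bt_n (bt_b bx2_4) (bt_b bx2_5)))) (bt_n (bt_n (bt_b bx2_6) (bt_n (bt_b bx2_7) (bt_b bx2_8))) (bt_n (bt_b bx2_9) (bt_n (bt_b bx2_10) (bt_b bx2_11)))))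
def S2 : StarD := StarD.mk cl13 cl7 cl7 1 1 t2
def G : List StarD := [S0, S1, S2]
theorem so0 : StarOK sI G S0 :=
  star_mk (by decide) (by decide) rfl rfl rfl rfl rfl rfl (rfl : _ = t0) (rfl : _ = t2)
  (st_mk (Pth.l (Pth.l (Pth.l Pth.z))) (nat_lit 140930868) (nat_lit 163394084) (by decide +kernel))
  (st_mk (Pth.l (Pth.l (Pth.l Pth.z))) (nat_lit 176346109) (nat_lit 199184234) (by decide +kernel))
  (st_mk (Pth.l (Pth.l (Pth.l Pth.z))) (nat_lit 217354209) (nat_lit 240710708) (by decide +kernel)) sv0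
theorem so1 : StarOK sI G S1 :=
  star_mk (by decide) (by decide) rfl rfl rfl rfl rfl rfl (rfl : _ = t2) (rfl : _ = t0)
  (st_mk (Pth.l (Pth.l (Pth.l Pth.z))) (nat_lit 96336379) (nat_lit 114927440) (by decide +kernel))
  (st_mk (Pth.l (Pth.l (Pth.l Pth.z))) (nat_lit 131667060) (nat_lit 150593768) (by decide +kernel))
  (st_mk (Pth.l (Pth.l (Pth.l Pth.z))) (nat_lit 172602356) (nat_lit 192014083) (by decide +kernel)) sv1
theorem so2 : StarOK sI G S2 :=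
  star_mk (by decide) (by decide) rfl rfl rfl rfl rfl rfl (rfl : _ = t1) (rfl : _ = t1)
  (st_mk (Pth.l (Pth.l (Pth.l Pth.z))) (nat_lit 141873768) (nat_lit 160258169) (by decide +kernel))
  (st_mk (Pth.l (Pth.l (Pth.l Pth.z))) (nat_lit 174891329) (nat_lit 197302322) (by decide +kernel))
  (st_mk (Pth.l (Pth.l (Pth.l Pth.z))) (nat_lit 215156648) (nat_lit 237944393) (by decide +kernel)) sv2
theorem ok : GroupOK (nat_lit 91226112) (nat_lit 150339584) G := grp_mk (allS_c so0 (allS_c so1 (allS_c so2 allS_n)))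
theorem cov : GCov G cl7 cl7 cl13 := cov_mk
  ⟨0, by decide, rfl, rfl, rfl⟩ ⟨1, by decide, rfl, rfl, rfl⟩ ⟨0, by decide, rfl, rfl, rfl⟩ ⟨1, by decide, rfl, rfl, rfl⟩ ⟨2, by decide, rfl, rfl, rfl⟩ ⟨2, by decide, rfl, rfl, rfl⟩
end Q446_1


end Pool.Agent.Helper6.MONO
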