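import Pool.Agent.Helper6.MONO.Cert.C30

/-!
Certificate data (generated).
-/

set_option autoImplicit false
set_option linter.all false
noncomputable section
namespace Pool.Agent.Helper6.MONO


namespace Q446_2
def sI : I := I.pos (nat_lit 150274048) (nat_lit 209387520)
def b0_0 : Bx := Bx.mk (St.mk (I.pos (nat_lit 158433280) (nat_lit 235732992)) (I.mix (nat_lit 1736704) (nat_lit 57311232)) (I.mix (nat_lit 2523136) (nat_lit 87244800)) (I.pos (nat_lit 139411456) (nat_lit 267567104)) (I.mix (nat_lit 104136704) (nat_lit 60096512)) (I.mix (nat_lit 68927488) (nat_lit 56836096)) (I.mix (nat_lit 89866240) (nat_lit 77430784)))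
  false (nat_lit 80551746)
def b0_1 : Bx := Bx.mk (St.mk (I.mix (nat_lit 23805952) (nat_lit 121257984)) (I.mix (nat_lit 8290304) (nat_lit 33570816)) (I.mix (nat_lit 18464768) (nat_lit 18284544)) (I.pos (nat_lit 39845888) (nat_lit 116441088)) (I.mix (nat_lit 34357248) (nat_lit 34455552)) (I.mix (nat_lit 31408128) (nat_lit 23134208)) (I.mix (nat_lit 22659072) (nat_lit 15089664)))
  false (nat_lit 0)
def b0_2 : Bx := Bx.mk (St.mk (I.pos (nat_lit 91652096) (nat_lit 139558912)) (I.mix (nat_lit 51806208) (nat_lit 9207808)) (I.mix (nat_lit 54493184) (nat_lit 180224)) (I.pos (nat_lit 78479360) (nat_lit 131792896)) (I.mix (nat_lit 79855616) (nat_lit 26836992)) (I.mix (nat_lit 30507008) (nat_lit 68354048)) (I.mix (nat_lit 19922944) (nat_lit 52510720)))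
  false (nat_lit 0)
def b0_3 : Bx := Bx.mk (St.mk (I.mix (nat_lit 36798464) (nat_lit 68927488)) (I.mix (nat_lit 29442048) (nat_lit 5193728)) (I.mix (nat_lit 19120128) (nat_lit 1114112)) (I.pos (nat_lit 41517056) (nat_lit 81133568)) (I.mix (nat_lit 31834112) (nat_lit 15761408)) (I.mix (nat_lit 13778944) (nat_lit 23330816)) (I.mix (nat_lit 6946816) (nat_lit 9404416)))
  false (nat_lit 0)
def b0_4 : Bx := Bx.mk (St.mk (I.pos (nat_lit 195395584) (nat_lit 285802496)) (I.mix (nat_lit 26673152) (nat_lit 41975808)) (I.mix (nat_lit 86540288) (nat_lit 56442880)) (I.pos (nat_lit 216760320) (nat_lit 368787456)) (I.mix (nat_lit 64258048) (nat_lit 54886400)) (I.mix (nat_lit 54116352) (nat_lit 44793856)) (I.mix (nat_lit 95141888) (nat_lit 83476480)))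
  false (nat_lit 66682187)
def b0_5 : Bx := Bx.mk (St.mk (I.pos (nat_lit 105021440) (nat_lit 172113920)) (I.neg (nat_lit 7077888) (nat_lit 53116928)) (I.neg (nat_lit 4816896) (nat_lit 54853632)) (I.pos (nat_lit 97894400) (nat_lit 174620672)) (I.mix (nat_lit 69959680) (nat_lit 35389440)) (I.mix (nat_lit 34635776) (nat_lit 50053120)) (I.mix (nat_lit 27869184) (nat_lit 46858240)))
  false (nat_lit 0)
def b0_6 : Bx := Bx.mk (St.mk (I.mix (nat_lit 35766272) (nat_lit 83034112)) (I.mix (nat_lit 33046528) (nat_lit 5275648)) (I.mix (nat_lit 24363008) (nat_lit 1114112)) (I.pos (nat_lit 37306368) (nat_lit 89112576)) (I.mix (nat_lit 35553280) (nat_lit 30212096)) (I.mix (nat_lit 22708224) (nat_lit 31621120)) (I.mix (nat_lit 12795904) (nat_lit 17645568)))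
  false (nat_lit 0)
def b0_7 : Bx := Bx.mk (St.mk (I.pos (nat_lit 166854656) (nat_lit 214646784)) (I.mix (nat_lit 7323648) (nat_lit 56852480)) (I.pos (nat_lit 2703360) (nat_lit 84279296)) (I.pos (nat_lit 158040064) (nat_lit 237486080)) (I.mix (nat_lit 116899840) (nat_lit 41041920)) (I.mix (nat_lit 112148480) (nat_lit 56066048)) (I.mix (nat_lit 117784576) (nat_lit 55836672)))
  false (nat_lit 36291446)
def b0_8 : Bx := Bx.mk (St.mk (I.mix (nat_lit 35962880) (nat_lit 107806720)) (I.mix (nat_lit 11878400) (nat_lit 35700736)) (I.mix (nat_lit 11911168) (nat_lit 21495808)) (I.pos (nat_lit 40353792) (nat_lit 106381312)) (I.mix (nat_lit 48660480) (nat_lit 26329088)) (I.mix (nat_lit 40828928) (nat_lit 26001408)) (I.mix (nat_lit 22413312) (nat_lit 15286272)))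
  false (nat_lit 0)
def b0_9 : Bx := Bx.mk (St.mk (I.pos (nat_lit 146751488) (nat_lit 208125952)) (I.mix (nat_lit 36519936) (nat_lit 20103168)) (I.mix (nat_lit 41156608) (nat_lit 34832384)) (I.pos (nat_lit 131678208) (nat_lit 219332608)) (I.mix (nat_lit 53313536) (nat_lit 44728320)) (I.mix (nat_lit 49381376) (nat_lit 43810816)) (I.mix (nat_lit 49348608) (nat_lit 44482560)))
  false (nat_lit 759458)
def b0_10 : Bx := Bx.mk (St.mk (I.pos (nat_lit 167952384) (nat_lit 210272256)) (I.mix (nat_lit 12435456) (nat_lit 35028992)) (I.mix (nat_lit 6094848) (nat_lit 56229888)) (I.pos (nat_lit 160399360) (nat_lit 224804864)) (I.mix (nat_lit 100483072) (nat_lit 53460992)) (I.mix (nat_lit 107364352) (nat_lit 49053696)) (I.mix (nat_lit 113885184) (nat_lit 46759936)))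
  false (nat_lit 1186024)
def b0_11 : Bx := Bx.mk (St.mk (I.pos (nat_lit 182779904) (nat_lit 236994560)) (I.pos (nat_lit 10485760) (nat_lit 56885248)) (I.pos (nat_lit 10174464) (nat_lit 85442560)) (I.pos (nat_lit 203341824) (nat_lit 265601024)) (I.mix (nat_lit 92323840) (nat_lit 70565888)) (I.mix (nat_lit 79724544) (nat_lit 56999936)) (I.mix (nat_lit 118276096) (nat_lit 68911104)))
  false (nat_lit 72824582)
def t0 : BTr := (BTr.n (BTr.n (BTr.n (BTr.b b0_0) (BTr.n (BTr.b b0_1) (BTr.b b0_2))) (BTr.n (BTr.b b0_3) (BTr.n (BTr.b b0_4) (BTr.b b0_5)))) (BTr.n (BTr.n (BTr.b b0_6) (BTr.n (BTr.b b0_7) (BTr.b b0_8))) (BTr.n (BTr.b b0_9) (BTr.n (BTr.b b0_10) (BTr.b b0_11)))))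
namespace T0
def l0 : Tr := Tr.L (Pth.l (Pth.l (Pth.l Pth.z)))
def l1 : Tr := Tr.L (Pth.l (Pth.l (Pth.r (Pth.l Pth.z))))
def l2 : Tr := Tr.L (Pth.l (Pth.l (Pth.r (Pth.r Pth.z))))
def l3 : Tr := Tr.L (Pth.l (Pth.r (Pth.l Pth.z)))
def l4 : Tr := Tr.L (Pth.l (Pth.r (Pth.r (Pth.l Pth.z))))
def l5 : Tr := Tr.L (Pth.l (Pth.r (Pth.r (Pth.r Pth.z))))
def l6 : Tr := Tr.L (Pth.r (Pth.l (Pth.l Pth.z)))
def l7 : Tr := Tr.L (Pth.r (Pth.l (Pth.r (Pth.l Pth.z))))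
def l8 : Tr := Tr.L (Pth.r (Pth.l (Pth.r (Pth.r Pth.z))))
def l9 : Tr := Tr.L (Pth.r (Pth.r (Pth.l Pth.z)))
def l10 : Tr := Tr.L (Pth.r (Pth.r (Pth.r (Pth.l Pth.z))))
def l11 : Tr := Tr.L (Pth.r (Pth.r (Pth.r (Pth.r Pth.z))))
end T0
def b1_0 : Bx := Bx.mk (St.mk (I.pos (nat_lit 158334976) (nat_lit 239845376)) (I.mix (nat_lit 1507328) (nat_lit 49692672)) (I.mix (nat_lit 2621440) (nat_lit 93306880)) (I.pos (nat_lit 92848128) (nat_lit 222445568)) (I.mix (nat_lit 108969984) (nat_lit 61521920)) (I.mix (nat_lit 79495168) (nat_lit 67239936)) (I.mix (nat_lit 108494848) (nat_lit 84377600)))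
  false (nat_lit 45923583)
def b1_1 : Bx := Bx.mk (St.mk (I.pos (nat_lit 121143296) (nat_lit 187367424)) (I.neg (nat_lit 3096576) (nat_lit 47693824)) (I.mix (nat_lit 46481408) (nat_lit 2359296)) (I.pos (nat_lit 72269824) (nat_lit 148160512)) (I.mix (nat_lit 65437696) (nat_lit 34488320)) (I.mix (nat_lit 34062336) (nat_lit 46874624)) (I.mix (nat_lit 29753344) (nat_lit 48726016)))
  false (nat_lit 6988703)
def b1_2 : Bx := Bx.mk (St.mk (I.mix (nat_lit 9994240) (nat_lit 143671296)) (I.mix (nat_lit 6275072) (nat_lit 24150016)) (I.mix (nat_lit 8306688) (nat_lit 23740416)) (I.mix (nat_lit 3211264) (nat_lit 91340800)) (I.mix (nat_lit 34062336) (nat_lit 27918336)) (I.mix (nat_lit 27688960) (nat_lit 22773760)) (I.mix (nat_lit 23920640) (nat_lit 17809408)))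
  false (nat_lit 0)
def b1_3 : Bx := Bx.mk (St.mk (I.mix (nat_lit 11960320) (nat_lit 118341632)) (I.mix (nat_lit 25346048) (nat_lit 4915200)) (I.mix (nat_lit 18661376) (nat_lit 4669440)) (I.mix (nat_lit 2523136) (nat_lit 67452928)) (I.mix (nat_lit 29900800) (nat_lit 22691840)) (I.mix (nat_lit 18169856) (nat_lit 22102016)) (I.mix (nat_lit 11304960) (nat_lit 15745024)))
  false (nat_lit 0)
def b1_4 : Bx := Bx.mk (St.mk (I.pos (nat_lit 174964736) (nat_lit 216203264)) (I.mix (nat_lit 11452416) (nat_lit 45088768)) (I.pos (nat_lit 3915776) (nat_lit 81969152)) (I.pos (nat_lit 120619008) (nat_lit 189956096)) (I.mix (nat_lit 114475008) (nat_lit 45760512)) (I.mix (nat_lit 111198208) (nat_lit 56295424)) (I.mix (nat_lit 128155648) (nat_lit 58081280)))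
  false (nat_lit 0)
def b1_5 : Bx := Bx.mk (St.mk (I.pos (nat_lit 116031488) (nat_lit 157859840)) (I.mix (nat_lit 44154880) (nat_lit 7094272)) (I.mix (nat_lit 45531136) (nat_lit 7995392)) (I.pos (nat_lit 52740096) (nat_lit 106037248)) (I.mix (nat_lit 76218368) (nat_lit 27328512)) (I.mix (nat_lit 29851648) (nat_lit 68124672)) (I.mix (nat_lit 25149440) (nat_lit 60456960)))
  false (nat_lit 0)
def b1_6 : Bx := Bx.mk (St.mk (I.mix (nat_lit 14565376) (nat_lit 133365760)) (I.mix (nat_lit 12828672) (nat_lit 30212096)) (I.mix (nat_lit 9486336) (nat_lit 27377664)) (I.mix (nat_lit 2916352) (nat_lit 81248256)) (I.mix (nat_lit 50069504) (nat_lit 24772608)) (I.mix (nat_lit 42516480) (nat_lit 24199168)) (I.mix (nat_lit 30621696) (nat_lit 15859712)))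
  false (nat_lit 0)
def b1_7 : Bx := Bx.mk (St.mk (I.mix (nat_lit 12009472) (nat_lit 107266048)) (I.mix (nat_lit 22970368) (nat_lit 1196032)) (I.mix (nat_lit 16842752) (nat_lit 2539520)) (I.mix (nat_lit 2260992) (nat_lit 58621952)) (I.mix (nat_lit 31817728) (nat_lit 15220736)) (I.mix (nat_lit 15007744) (nat_lit 25493504)) (I.mix (nat_lit 8929280) (nat_lit 15548416)))
  false (nat_lit 0)
def b1_8 : Bx := Bx.mk (St.mk (I.pos (nat_lit 191922176) (nat_lit 284295168)) (I.mix (nat_lit 22626304) (nat_lit 35717120)) (I.mix (nat_lit 51036160) (nat_lit 69582848)) (I.pos (nat_lit 170459136) (nat_lit 320471040)) (I.mix (nat_lit 79986688) (nat_lit 49430528)) (I.mix (nat_lit 56262656) (nat_lit 39010304)) (I.mix (nat_lit 87769088) (nat_lit 66125824)))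
  false (nat_lit 51474837)
def b1_9 : Bx := Bx.mk (St.mk (I.pos (nat_lit 155844608) (nat_lit 213516288)) (I.mix (nat_lit 36487168) (nat_lit 12959744)) (I.mix (nat_lit 35831808) (nat_lit 34881536)) (I.pos (nat_lit 99434496) (nat_lit 179830784)) (I.mix (nat_lit 48168960) (nat_lit 44466176)) (I.mix (nat_lit 45744128) (nat_lit 42303488)) (I.mix (nat_lit 48431104) (nat_lit 45449216)))
  false (nat_lit 28169249)
def b1_10 : Bx := Bx.mk (St.mk (I.pos (nat_lit 183648256) (nat_lit 241057792)) (I.pos (nat_lit 6406144) (nat_lit 50774016)) (I.pos (nat_lit 16777216) (nat_lit 94748672)) (I.pos (nat_lit 160940032) (nat_lit 220643328)) (I.mix (nat_lit 93716480) (nat_lit 64978944)) (I.mix (nat_lit 81477632) (nat_lit 58556416)) (I.mix (nat_lit 126910464) (nat_lit 74317824)))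
  false (nat_lit 42294829)
def b1_11 : Bx := Bx.mk (St.mk (I.pos (nat_lit 175374336) (nat_lit 213958656)) (I.mix (nat_lit 15794176) (nat_lit 26886144)) (I.mix (nat_lit 2555904) (nat_lit 55197696)) (I.pos (nat_lit 120504320) (nat_lit 182124544)) (I.mix (nat_lit 95928320) (nat_lit 53575680)) (I.mix (nat_lit 100466688) (nat_lit 44875776)) (I.mix (nat_lit 118505472) (nat_lit 45678592)))
  false (nat_lit 22883091)
def t1 : BTr := (BTr.n (BTr.n (BTr.n (BTr.b b1_0) (BTr.n (BTr.b b1_1) (BTr.b b1_2))) (BTr.n (BTr.b b1_3) (BTr.n (BTr.b b1_4) (BTr.b b1_5)))) (BTr.n (BTr.n (BTr.b b1_6) (BTr.n (BTr.b b1_7) (BTr.b b1_8))) (BTr.n (BTr.b b1_9) (BTr.n (BTr.b b1_10) (BTr.b b1_11)))))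
namespace T1
def l0 : Tr := Tr.L (Pth.l (Pth.l (Pth.l Pth.z)))
def l1 : Tr := Tr.L (Pth.l (Pth.l (Pth.r (Pth.l Pth.z))))
def l2 : Tr := Tr.L (Pth.l (Pth.l (Pth.r (Pth.r Pth.z))))
def l3 : Tr := Tr.L (Pth.l (Pth.r (Pth.l Pth.z)))
def l4 : Tr := Tr.L (Pth.l (Pth.r (Pth.r (Pth.l Pth.z))))
def l5 : Tr := Tr.L (Pth.l (Pth.r (Pth.r (Pth.r Pth.z))))
def l6 : Tr := Tr.L (Pth.r (Pth.l (Pth.l Pth.z)))
def l7 : Tr := Tr.L (Pth.r (Pth.l (Pth.r (Pth.l Pth.z))))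
def l8 : Tr := Tr.L (Pth.r (Pth.l (Pth.r (Pth.r Pth.z))))
def l9 : Tr := Tr.L (Pth.r (Pth.r (Pth.l Pth.z)))
def l10 : Tr := Tr.L (Pth.r (Pth.r (Pth.r (Pth.l Pth.z))))
def l11 : Tr := Tr.L (Pth.r (Pth.r (Pth.r (Pth.r Pth.z))))
end T1
def b2_0 : Bx := Bx.mk (St.mk (I.pos (nat_lit 154845184) (nat_lit 234930176)) (I.mix (nat_lit 1671168) (nat_lit 55918592)) (I.mix (nat_lit 2883584) (nat_lit 103235584)) (I.pos (nat_lit 138543104) (nat_lit 259244032)) (I.mix (nat_lit 111820800) (nat_lit 69894144)) (I.mix (nat_lit 82165760) (nat_lit 70729728)) (I.mix (nat_lit 108609536) (nat_lit 86851584)))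
  false (nat_lit 86335128)
def b2_1 : Bx := Bx.mk (St.mk (I.pos (nat_lit 103727104) (nat_lit 178044928)) (I.neg (nat_lit 4341760) (nat_lit 55296000)) (I.mix (nat_lit 48283648) (nat_lit 11534336)) (I.pos (nat_lit 100253696) (nat_lit 179830784)) (I.mix (nat_lit 63832064) (nat_lit 37011456)) (I.mix (nat_lit 30900224) (nat_lit 46645248)) (I.mix (nat_lit 26869760) (nat_lit 42483712)))
  false (nat_lit 13780495)
def b2_2 : Bx := Bx.mk (St.mk (I.mix (nat_lit 32145408) (nat_lit 86294528)) (I.mix (nat_lit 34111488) (nat_lit 6144000)) (I.mix (nat_lit 17039360) (nat_lit 9453568)) (I.pos (nat_lit 38354944) (nat_lit 90505216)) (I.mix (nat_lit 34390016) (nat_lit 31752192)) (I.mix (nat_lit 21725184) (nat_lit 29196288)) (I.mix (nat_lit 10911744) (nat_lit 15532032)))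
  false (nat_lit 0)
def b2_3 : Bx := Bx.mk (St.mk (I.pos (nat_lit 165052416) (nat_lit 212680704)) (I.mix (nat_lit 7438336) (nat_lit 54706176)) (I.pos (nat_lit 13729792) (nat_lit 96075776)) (I.pos (nat_lit 151584768) (nat_lit 227819520)) (I.mix (nat_lit 119193600) (nat_lit 42172416)) (I.mix (nat_lit 105594880) (nat_lit 58130432)) (I.mix (nat_lit 114343936) (nat_lit 53248000)))
  false (nat_lit 73893412)
def b2_4 : Bx := Bx.mk (St.mk (I.mix (nat_lit 38207488) (nat_lit 105906176)) (I.mix (nat_lit 12992512) (nat_lit 35897344)) (I.mix (nat_lit 5636096) (nat_lit 29523968)) (I.pos (nat_lit 40960000) (nat_lit 104857600)) (I.mix (nat_lit 49283072) (nat_lit 21561344)) (I.mix (nat_lit 42827776) (nat_lit 24018944)) (I.mix (nat_lit 23855104) (nat_lit 14499840)))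
  false (nat_lit 0)
def b2_5 : Bx := Bx.mk (St.mk (I.pos (nat_lit 145637376) (nat_lit 204980224)) (I.mix (nat_lit 36077568) (nat_lit 14516224)) (I.mix (nat_lit 28016640) (nat_lit 43778048)) (I.pos (nat_lit 130727936) (nat_lit 211566592)) (I.mix (nat_lit 51412992) (nat_lit 44924928)) (I.mix (nat_lit 45596672) (nat_lit 41680896)) (I.mix (nat_lit 44613632) (nat_lit 41598976)))
  false (nat_lit 12524843)
def b2_6 : Bx := Bx.mk (St.mk (I.mix (nat_lit 26968064) (nat_lit 118702080)) (I.mix (nat_lit 4980736) (nat_lit 33013760)) (I.mix (nat_lit 6799360) (nat_lit 27197440)) (I.pos (nat_lit 39944192) (nat_lit 114114560)) (I.mix (nat_lit 43417600) (nat_lit 34553856)) (I.mix (nat_lit 34275328) (nat_lit 25952256)) (I.mix (nat_lit 24690688) (nat_lit 18120704)))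
  false (nat_lit 0)
def b2_7 : Bx := Bx.mk (St.mk (I.pos (nat_lit 94060544) (nat_lit 142196736)) (I.mix (nat_lit 53985280) (nat_lit 5996544)) (I.mix (nat_lit 46874624) (nat_lit 6553600)) (I.pos (nat_lit 80920576) (nat_lit 136069120)) (I.mix (nat_lit 75792384) (nat_lit 29425664)) (I.mix (nat_lit 30982144) (nat_lit 64946176)) (I.mix (nat_lit 22331392) (nat_lit 48300032)))
  false (nat_lit 0)
def b2_8 : Bx := Bx.mk (St.mk (I.mix (nat_lit 33521664) (nat_lit 70451200)) (I.mix (nat_lit 28573696) (nat_lit 2506752)) (I.mix (nat_lit 13025280) (nat_lit 6750208)) (I.pos (nat_lit 41582592) (nat_lit 81952768)) (I.mix (nat_lit 34045952) (nat_lit 19841024)) (I.mix (nat_lit 18464768) (nat_lit 25346048)) (I.mix (nat_lit 8093696) (nat_lit 9519104)))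
  false (nat_lit 0)
def b2_9 : Bx := Bx.mk (St.mk (I.pos (nat_lit 189005824) (nat_lit 282132480)) (I.mix (nat_lit 15679488) (nat_lit 43433984)) (I.mix (nat_lit 36814848) (nat_lit 83820544)) (I.pos (nat_lit 203800576) (nat_lit 357220352)) (I.mix (nat_lit 72384512) (nat_lit 55214080)) (I.mix (nat_lit 56934400) (nat_lit 39485440)) (I.mix (nat_lit 88293376) (nat_lit 59572224)))
  false (nat_lit 58928690)
def b2_10 : Bx := Bx.mk (St.mk (I.pos (nat_lit 176881664) (nat_lit 234438656)) (I.pos (nat_lit 9371648) (nat_lit 52101120)) (I.pos (nat_lit 23986176) (nat_lit 97566720)) (I.pos (nat_lit 191840256) (nat_lit 252592128)) (I.mix (nat_lit 101974016) (nat_lit 70287360)) (I.mix (nat_lit 86654976) (nat_lit 59637760)) (I.mix (nat_lit 129859584) (nat_lit 70811648)))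
  false (nat_lit 51721716)
def b2_11 : Bx := Bx.mk (St.mk (I.pos (nat_lit 164347904) (nat_lit 208928768)) (I.mix (nat_lit 13320192) (nat_lit 33685504)) (I.pos (nat_lit 7110656) (nat_lit 69894144)) (I.pos (nat_lit 150896640) (nat_lit 217153536)) (I.mix (nat_lit 106332160) (nat_lit 50462720)) (I.mix (nat_lit 110346240) (nat_lit 45678592)) (I.mix (nat_lit 119783424) (nat_lit 44613632)))
  false (nat_lit 35939128)
def t2 : BTr := (BTr.n (BTr.n (BTr.n (BTr.b b2_0) (BTr.n (BTr.b b2_1) (BTr.b b2_2))) (BTr.n (BTr.b b2_3) (BTr.n (BTr.b b2_4) (BTr.b b2_5)))) (BTr.n (BTr.n (BTr.b b2_6) (BTr.n (BTr.b b2_7) (BTr.b b2_8))) (BTr.n (BTr.b b2_9) (BTr.n (BTr.b b2_10) (BTr.b b2_11)))))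
namespace T2
def l0 : Tr := Tr.L (Pth.l (Pth.l (Pth.l Pth.z)))
def l1 : Tr := Tr.L (Pth.l (Pth.l (Pth.r (Pth.l Pth.z))))
def l2 : Tr := Tr.L (Pth.l (Pth.l (Pth.r (Pth.r Pth.z))))
def l3 : Tr := Tr.L (Pth.l (Pth.r (Pth.l Pth.z)))
def l4 : Tr := Tr.L (Pth.l (Pth.r (Pth.r (Pth.l Pth.z))))
def l5 : Tr := Tr.L (Pth.l (Pth.r (Pth.r (Pth.r Pth.z))))
def l6 : Tr := Tr.L (Pth.r (Pth.l (Pth.l Pth.z)))
def l7 : Tr := Tr.L (Pth.r (Pth.l (Pth.r (Pth.l Pth.z))))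
def l8 : Tr := Tr.L (Pth.r (Pth.l (Pth.r (Pth.r Pth.z))))
def l9 : Tr := Tr.L (Pth.r (Pth.r (Pth.l Pth.z)))
def l10 : Tr := Tr.L (Pth.r (Pth.r (Pth.r (Pth.l Pth.z))))
def l11 : Tr := Tr.L (Pth.r (Pth.r (Pth.r (Pth.r Pth.z))))
end T2
theorem bx0_0 : BoxOK sI cl7 cl7 cl13 t0 t2 b0_0 :=
  box_mk (TrL.c (I.pos (nat_lit 0) (nat_lit 0)) (xa (xb T0.l11 (xa T0.l0 T0.l0)) (xb T0.l0 (xa T0.l0 T0.l0)))
  (TrL.c (I.pos (nat_lit 0) (nat_lit 0)) (xa (xk T2.l1 T2.l1) (xk (xb T2.l1 T2.l1) T2.l1))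
  (TrL.c (I.pos (nat_lit 0) (nat_lit 111196574)) (xR T0.l1 T0.l1)
  (TrL.c (I.pos (nat_lit 0) (nat_lit 77433728)) T2.l2
  (TrL.c (I.pos (nat_lit 0) (nat_lit 0)) (xa (xk (xb T2.l3 T2.l11) (xb T2.l3 T2.l11)) (xk (xb T2.l3 (xa T2.l3 T2.l3)) (xb T2.l3 (xa T2.l3 T2.l3))))
  (TrL.c (I.pos (nat_lit 0) (nat_lit 0)) T0.l2
  (TrL.c (I.mix (nat_lit 29511666) (nat_lit 77433728)) (xR T2.l4 T2.l4)
  (TrL.c (I.mix (nat_lit 29511666) (nat_lit 46070178)) T0.l6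
  TrL.n)))))))) (by decide +kernel)
theorem bx0_1 : BoxOK sI cl7 cl7 cl13 t0 t2 b0_1 :=
  box_mk (TrL.c (I.pos (nat_lit 0) (nat_lit 0)) (xa (xa T0.l4 T0.l4) (xa T0.l4 T0.l4))
  (TrL.c (I.pos (nat_lit 0) (nat_lit 0)) T2.l1
  (TrL.c (I.pos (nat_lit 0) (nat_lit 111196574)) T0.l1
  (TrL.c (I.pos (nat_lit 0) (nat_lit 77433728)) T2.l2
  (TrL.c (I.pos (nat_lit 0) (nat_lit 0)) (xa T2.l5 T2.l5)
  (TrL.c (I.pos (nat_lit 0) (nat_lit 0)) T0.l2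
  (TrL.c (I.mix (nat_lit 29511666) (nat_lit 77433728)) T2.l4
  (TrL.c (I.mix (nat_lit 29511666) (nat_lit 46070178)) T0.l3
  TrL.n)))))))) (by decide +kernel)
theorem bx0_2 : BoxOK sI cl7 cl7 cl13 t0 t2 b0_2 :=
  box_mk (TrL.c (I.pos (nat_lit 0) (nat_lit 0)) (xb T0.l4 T0.l4)
  (TrL.c (I.pos (nat_lit 0) (nat_lit 0)) T2.l1
  (TrL.c (I.pos (nat_lit 0) (nat_lit 111196574)) T0.l1
  (TrL.c (I.pos (nat_lit 0) (nat_lit 77433728)) T2.l2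
  (TrL.c (I.pos (nat_lit 0) (nat_lit 0)) (xb T2.l5 T2.l5)
  (TrL.c (I.pos (nat_lit 0) (nat_lit 0)) T0.l2
  (TrL.c (I.mix (nat_lit 29511666) (nat_lit 77433728)) T2.l4
  (TrL.c (I.mix (nat_lit 29511666) (nat_lit 46070178)) T0.l3
  TrL.n)))))))) (by decide +kernel)
theorem bx0_3 : BoxOK sI cl7 cl7 cl13 t0 t2 b0_3 :=
  box_mk (TrL.c (I.pos (nat_lit 0) (nat_lit 0)) T0.l4
  (TrL.c (I.pos (nat_lit 0) (nat_lit 0)) T2.l1
  (TrL.c (I.pos (nat_lit 0) (nat_lit 111196574)) T0.l1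
  (TrL.c (I.pos (nat_lit 0) (nat_lit 77433728)) T2.l2
  (TrL.c (I.pos (nat_lit 0) (nat_lit 0)) (xa T2.l1 T2.l5)
  (TrL.c (I.pos (nat_lit 0) (nat_lit 0)) T0.l2
  (TrL.c (I.mix (nat_lit 29511666) (nat_lit 77433728)) T2.l4
  (TrL.c (I.mix (nat_lit 29511666) (nat_lit 46070178)) T0.l3
  TrL.n)))))))) (by decide +kernel)
theorem bx0_4 : BoxOK sI cl7 cl7 cl13 t0 t2 b0_4 :=
  box_mk (TrL.c (I.pos (nat_lit 0) (nat_lit 0)) (xa (xb T0.l0 T0.l0) (xb T0.l0 (xa T0.l0 T0.l0)))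
  (TrL.c (I.pos (nat_lit 0) (nat_lit 0)) (xa (xb T2.l1 T2.l1) (xk (xb T2.l1 T2.l7) (xb T2.l7 T2.l7)))
  (TrL.c (I.pos (nat_lit 0) (nat_lit 111196574)) (xR T0.l8 T0.l8)
  (TrL.c (I.pos (nat_lit 0) (nat_lit 77433728)) T2.l2
  (TrL.c (I.pos (nat_lit 0) (nat_lit 0)) (xa (xb (xk (xa T2.l3 T2.l0) (xa T2.l3 T2.l0)) (xk T2.l3 T2.l3)) (xb (xk (xa (xb T2.l0 T2.l3) (xb (xk (xa T2.l3 T2.l3) (xa T2.l3 T2.l3)) (xk T2.l3 T2.l3))) (xa (xb T2.l0 T2.l3) (xb (xk (xa T2.l3 T2.l3) (xa T2.l3 T2.l3)) T2.l3))) (xk (xa T2.l3 (xb (xk T2.l3 T2.l3) (xk (xa T2.l3 T2.l3) (xa T2.l3 T2.l3)))) (xa T2.l3 (xb (xk T2.l3 T2.l3) (xk (xa T2.l3 T2.l3) T2.l3))))))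
  (TrL.c (I.pos (nat_lit 0) (nat_lit 0)) (xk (xb (xa T0.l2 T0.l5) T0.l2) (xa T0.l2 T0.l2))
  (TrL.c (I.mix (nat_lit 29511666) (nat_lit 77433728)) (xR T2.l4 (xR T2.l4 T2.l4))
  (TrL.c (I.mix (nat_lit 29511666) (nat_lit 46070178)) T0.l6
  TrL.n)))))))) (by decide +kernel)
theorem bx0_5 : BoxOK sI cl7 cl7 cl13 t0 t2 b0_5 :=
  box_mk (TrL.c (I.pos (nat_lit 0) (nat_lit 0)) (xa T0.l4 T0.l0)
  (TrL.c (I.pos (nat_lit 0) (nat_lit 0)) T2.l1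
  (TrL.c (I.pos (nat_lit 0) (nat_lit 111196574)) (xR T0.l1 T0.l1)
  (TrL.c (I.pos (nat_lit 0) (nat_lit 77433728)) T2.l2
  (TrL.c (I.pos (nat_lit 0) (nat_lit 0)) (xk (xa T2.l5 T2.l5) (xa T2.l5 T2.l5))
  (TrL.c (I.pos (nat_lit 0) (nat_lit 0)) T0.l2
  (TrL.c (I.mix (nat_lit 29511666) (nat_lit 77433728)) (xR T2.l4 T2.l4)
  (TrL.c (I.mix (nat_lit 29511666) (nat_lit 46070178)) T0.l3
  TrL.n)))))))) (by decide +kernel)
theorem bx0_6 : BoxOK sI cl7 cl7 cl13 t0 t2 b0_6 :=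
  box_mk (TrL.c (I.pos (nat_lit 0) (nat_lit 0)) (xa (xa T0.l4 T0.l4) T0.l4)
  (TrL.c (I.pos (nat_lit 0) (nat_lit 0)) (xa T2.l5 T2.l1)
  (TrL.c (I.pos (nat_lit 0) (nat_lit 111196574)) T0.l1
  (TrL.c (I.pos (nat_lit 0) (nat_lit 77433728)) T2.l2
  (TrL.c (I.pos (nat_lit 0) (nat_lit 0)) (xa T2.l1 T2.l5)
  (TrL.c (I.pos (nat_lit 0) (nat_lit 0)) T0.l2
  (TrL.c (I.mix (nat_lit 29511666) (nat_lit 77433728)) T2.l4
  (TrL.c (I.mix (nat_lit 29511666) (nat_lit 46070178)) T0.l3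
  TrL.n)))))))) (by decide +kernel)
theorem bx0_7 : BoxOK sI cl7 cl7 cl13 t0 t2 b0_7 :=
  box_mk (TrL.c (I.pos (nat_lit 0) (nat_lit 0)) (xb (xa T0.l11 T0.l11) (xa T0.l11 T0.l11))
  (TrL.c (I.pos (nat_lit 0) (nat_lit 0)) (xk (xb T2.l1 T2.l1) (xb T2.l1 T2.l1))
  (TrL.c (I.pos (nat_lit 0) (nat_lit 111196574)) (xR T0.l1 T0.l1)
  (TrL.c (I.pos (nat_lit 0) (nat_lit 77433728)) T2.l2
  (TrL.c (I.pos (nat_lit 0) (nat_lit 0)) (xb (xk (xa T2.l11 T2.l11) T2.l11) (xk (xa T2.l11 T2.l11) T2.l11))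
  (TrL.c (I.pos (nat_lit 0) (nat_lit 0)) T0.l2
  (TrL.c (I.mix (nat_lit 29511666) (nat_lit 77433728)) (xR T2.l4 T2.l4)
  (TrL.c (I.mix (nat_lit 29511666) (nat_lit 46070178)) T0.l6
  TrL.n)))))))) (by decide +kernel)
theorem bx0_8 : BoxOK sI cl7 cl7 cl13 t0 t2 b0_8 :=
  box_mk (TrL.c (I.pos (nat_lit 0) (nat_lit 0)) (xa (xa (xb T0.l4 T0.l4) T0.l4) (xa T0.l4 T0.l4))
  (TrL.c (I.pos (nat_lit 0) (nat_lit 0)) (xa T2.l1 T2.l1)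
  (TrL.c (I.pos (nat_lit 0) (nat_lit 111196574)) T0.l1
  (TrL.c (I.pos (nat_lit 0) (nat_lit 77433728)) T2.l2
  (TrL.c (I.pos (nat_lit 0) (nat_lit 0)) (xa T2.l5 T2.l5)
  (TrL.c (I.pos (nat_lit 0) (nat_lit 0)) T0.l2
  (TrL.c (I.mix (nat_lit 29511666) (nat_lit 77433728)) T2.l4
  (TrL.c (I.mix (nat_lit 29511666) (nat_lit 46070178)) T0.l3
  TrL.n)))))))) (by decide +kernel)
theorem bx0_9 : BoxOK sI cl7 cl7 cl13 t0 t2 b0_9 :=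
  box_mk (TrL.c (I.pos (nat_lit 0) (nat_lit 0)) (xa T0.l11 T0.l0)
  (TrL.c (I.pos (nat_lit 0) (nat_lit 0)) T2.l1
  (TrL.c (I.pos (nat_lit 0) (nat_lit 111196574)) (xR T0.l1 T0.l1)
  (TrL.c (I.pos (nat_lit 0) (nat_lit 77433728)) T2.l2
  (TrL.c (I.pos (nat_lit 0) (nat_lit 0)) (xk (xb (xa T2.l11 T2.l11) T2.l11) (xb (xa T2.l5 T2.l11) T2.l11))
  (TrL.c (I.pos (nat_lit 0) (nat_lit 0)) T0.l2
  (TrL.c (I.mix (nat_lit 29511666) (nat_lit 77433728)) (xR T2.l4 T2.l4)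
  (TrL.c (I.mix (nat_lit 29511666) (nat_lit 46070178)) T0.l3
  TrL.n)))))))) (by decide +kernel)
theorem bx0_10 : BoxOK sI cl7 cl7 cl13 t0 t2 b0_10 :=
  box_mk (TrL.c (I.pos (nat_lit 0) (nat_lit 0)) (xb T0.l11 T0.l11)
  (TrL.c (I.pos (nat_lit 0) (nat_lit 0)) (xk T2.l1 T2.l1)
  (TrL.c (I.pos (nat_lit 0) (nat_lit 111196574)) (xR T0.l1 T0.l1)
  (TrL.c (I.pos (nat_lit 0) (nat_lit 77433728)) T2.l2
  (TrL.c (I.pos (nat_lit 0) (nat_lit 0)) (xk (xb T2.l11 T2.l11) (xb T2.l11 T2.l11))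
  (TrL.c (I.pos (nat_lit 0) (nat_lit 0)) T0.l2
  (TrL.c (I.mix (nat_lit 29511666) (nat_lit 77433728)) (xR T2.l4 T2.l4)
  (TrL.c (I.mix (nat_lit 29511666) (nat_lit 46070178)) T0.l6
  TrL.n)))))))) (by decide +kernel)
theorem bx0_11 : BoxOK sI cl7 cl7 cl13 t0 t2 b0_11 :=
  box_mk (TrL.c (I.pos (nat_lit 0) (nat_lit 0)) (xa (xb T0.l0 T0.l0) (xb T0.l0 T0.l0))
  (TrL.c (I.pos (nat_lit 0) (nat_lit 0)) (xk (xa T2.l1 T2.l1) (xa T2.l1 T2.l1))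
  (TrL.c (I.pos (nat_lit 0) (nat_lit 111196574)) (xR T0.l1 T0.l1)
  (TrL.c (I.pos (nat_lit 0) (nat_lit 77433728)) T2.l2
  (TrL.c (I.pos (nat_lit 0) (nat_lit 0)) (xk (xa T2.l3 (xb T2.l3 T2.l3)) (xa T2.l3 (xb T2.l3 T2.l3)))
  (TrL.c (I.pos (nat_lit 0) (nat_lit 0)) T0.l2
  (TrL.c (I.mix (nat_lit 29511666) (nat_lit 77433728)) (xR T2.l4 T2.l4)
  (TrL.c (I.mix (nat_lit 29511666) (nat_lit 46070178)) T0.l6
  TrL.n)))))))) (by decide +kernel)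
theorem sv0 : StarV sI cl7 cl7 cl13 t0 t2 t0 :=
  (bt_n (bt_n (bt_n (bt_b bx0_0) (bt_n (bt_b bx0_1) (bt_b bx0_2))) (bt_n (bt_b bx0_3) (bt_n (bt_b bx0_4) (bt_b bx0_5)))) (bt_n (bt_n (bt_b bx0_6) (bt_n (bt_b bx0_7) (bt_b bx0_8))) (bt_n (bt_b bx0_9) (bt_n (bt_b bx0_10) (bt_b bx0_11)))))
def S0 : StarD := StarD.mk cl7 cl7 cl13 0 2 t0
theorem bx1_0 : BoxOK sI cl7 cl13 cl7 t2 t0 b1_0 :=
  box_mk (TrL.c (I.pos (nat_lit 0) (nat_lit 0)) (xa (xa (xb T2.l0 T2.l0) (xb T2.l0 T2.l0)) (xa (xb T2.l0 T2.l0) (xb T2.l0 T2.l0)))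
  (TrL.c (I.pos (nat_lit 0) (nat_lit 0)) (xa (xk (xb T0.l5 T0.l5) (xb T0.l5 T0.l5)) (xk (xb T0.l5 T0.l5) (xb T0.l5 T0.l5)))
  (TrL.c (I.pos (nat_lit 0) (nat_lit 111196574)) (xR T2.l6 T2.l6)
  (TrL.c (I.pos (nat_lit 0) (nat_lit 77433728)) T0.l6
  (TrL.c (I.pos (nat_lit 0) (nat_lit 0)) (xa (xk (xb T0.l7 T0.l7) (xb T0.l7 T0.l7)) (xk (xb (xa T0.l7 T0.l7) (xa T0.l7 T0.l7)) (xb (xa T0.l7 T0.l7) (xa T0.l7 T0.l7))))
  (TrL.c (I.pos (nat_lit 0) (nat_lit 0)) (xk T2.l7 T2.l7)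
  (TrL.c (I.mix (nat_lit 29511666) (nat_lit 77433728)) (xR T0.l8 T0.l8)
  (TrL.c (I.mix (nat_lit 29511666) (nat_lit 46070178)) T2.l2
  TrL.n)))))))) (by decide +kernel)
theorem bx1_1 : BoxOK sI cl7 cl13 cl7 t2 t0 b1_1 :=
  box_mk (TrL.c (I.pos (nat_lit 0) (nat_lit 0)) (xa T2.l9 T2.l0)
  (TrL.c (I.pos (nat_lit 0) (nat_lit 0)) (xa T0.l5 T0.l5)
  (TrL.c (I.pos (nat_lit 0) (nat_lit 111196574)) (xR T2.l6 T2.l6)
  (TrL.c (I.pos (nat_lit 0) (nat_lit 77433728)) T0.l6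
  (TrL.c (I.pos (nat_lit 0) (nat_lit 0)) (xk (xa T0.l9 T0.l9) (xa T0.l9 T0.l9))
  (TrL.c (I.pos (nat_lit 0) (nat_lit 0)) T2.l7
  (TrL.c (I.mix (nat_lit 29511666) (nat_lit 77433728)) (xR T0.l8 T0.l8)
  (TrL.c (I.mix (nat_lit 29511666) (nat_lit 46070178)) T2.l8
  TrL.n)))))))) (by decide +kernel)
theorem bx1_2 : BoxOK sI cl7 cl13 cl7 t2 t0 b1_2 :=
  box_mk (TrL.c (I.pos (nat_lit 0) (nat_lit 0)) (xa (xa T2.l9 T2.l9) (xa T2.l9 T2.l9))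
  (TrL.c (I.pos (nat_lit 0) (nat_lit 0)) (xa T0.l5 T0.l5)
  (TrL.c (I.pos (nat_lit 0) (nat_lit 111196574)) T2.l6
  (TrL.c (I.pos (nat_lit 0) (nat_lit 77433728)) T0.l6
  (TrL.c (I.pos (nat_lit 0) (nat_lit 0)) (xa T0.l9 T0.l9)
  (TrL.c (I.pos (nat_lit 0) (nat_lit 0)) T2.l7
  (TrL.c (I.mix (nat_lit 29511666) (nat_lit 77433728)) (xR T0.l8 T0.l8)
  (TrL.c (I.mix (nat_lit 29511666) (nat_lit 46070178)) T2.l8
  TrL.n)))))))) (by decide +kernel)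
theorem bx1_3 : BoxOK sI cl7 cl13 cl7 t2 t0 b1_3 :=
  box_mk (TrL.c (I.pos (nat_lit 0) (nat_lit 0)) (xa (xa T2.l9 T2.l9) T2.l9)
  (TrL.c (I.pos (nat_lit 0) (nat_lit 0)) (xa T0.l5 T0.l5)
  (TrL.c (I.pos (nat_lit 0) (nat_lit 111196574)) T2.l6
  (TrL.c (I.pos (nat_lit 0) (nat_lit 77433728)) T0.l6
  (TrL.c (I.pos (nat_lit 0) (nat_lit 0)) (xa T0.l9 T0.l9)
  (TrL.c (I.pos (nat_lit 0) (nat_lit 0)) T2.l7
  (TrL.c (I.mix (nat_lit 29511666) (nat_lit 77433728)) T0.l8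
  (TrL.c (I.mix (nat_lit 29511666) (nat_lit 46070178)) T2.l2
  TrL.n)))))))) (by decide +kernel)
theorem bx1_4 : BoxOK sI cl7 cl13 cl7 t2 t0 b1_4 :=
  box_mk (TrL.c (I.pos (nat_lit 0) (nat_lit 0)) (xb (xb T2.l10 T2.l10) (xa T2.l10 T2.l10))
  (TrL.c (I.pos (nat_lit 0) (nat_lit 0)) (xk (xb T0.l5 T0.l5) (xb T0.l5 T0.l5))
  (TrL.c (I.pos (nat_lit 0) (nat_lit 111196574)) (xR T2.l6 T2.l6)
  (TrL.c (I.pos (nat_lit 0) (nat_lit 77433728)) T0.l6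
  (TrL.c (I.pos (nat_lit 0) (nat_lit 0)) (xk (xb T0.l10 T0.l10) (xb T0.l10 T0.l10))
  (TrL.c (I.pos (nat_lit 0) (nat_lit 0)) T2.l7
  (TrL.c (I.mix (nat_lit 29511666) (nat_lit 77433728)) (xR T0.l8 T0.l8)
  (TrL.c (I.mix (nat_lit 29511666) (nat_lit 46070178)) T2.l2
  TrL.n)))))))) (by decide +kernel)
theorem bx1_5 : BoxOK sI cl7 cl13 cl7 t2 t0 b1_5 :=
  box_mk (TrL.c (I.pos (nat_lit 0) (nat_lit 0)) T2.l9
  (TrL.c (I.pos (nat_lit 0) (nat_lit 0)) T0.l5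
  (TrL.c (I.pos (nat_lit 0) (nat_lit 111196574)) (xR T2.l6 T2.l6)
  (TrL.c (I.pos (nat_lit 0) (nat_lit 77433728)) T0.l6
  (TrL.c (I.pos (nat_lit 0) (nat_lit 0)) (xb T0.l9 T0.l9)
  (TrL.c (I.pos (nat_lit 0) (nat_lit 0)) T2.l7
  (TrL.c (I.mix (nat_lit 29511666) (nat_lit 77433728)) (xR T0.l8 T0.l8)
  (TrL.c (I.mix (nat_lit 29511666) (nat_lit 46070178)) T2.l8
  TrL.n)))))))) (by decide +kernel)
theorem bx1_6 : BoxOK sI cl7 cl13 cl7 t2 t0 b1_6 :=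
  box_mk (TrL.c (I.pos (nat_lit 0) (nat_lit 0)) (xa (xa (xb T2.l9 T2.l9) T2.l9) (xa T2.l9 T2.l9))
  (TrL.c (I.pos (nat_lit 0) (nat_lit 0)) (xa T0.l5 T0.l5)
  (TrL.c (I.pos (nat_lit 0) (nat_lit 111196574)) T2.l6
  (TrL.c (I.pos (nat_lit 0) (nat_lit 77433728)) T0.l6
  (TrL.c (I.pos (nat_lit 0) (nat_lit 0)) (xa T0.l9 T0.l9)
  (TrL.c (I.pos (nat_lit 0) (nat_lit 0)) T2.l7
  (TrL.c (I.mix (nat_lit 29511666) (nat_lit 77433728)) (xR T0.l8 T0.l8)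
  (TrL.c (I.mix (nat_lit 29511666) (nat_lit 46070178)) T2.l8
  TrL.n)))))))) (by decide +kernel)
theorem bx1_7 : BoxOK sI cl7 cl13 cl7 t2 t0 b1_7 :=
  box_mk (TrL.c (I.pos (nat_lit 0) (nat_lit 0)) (xa T2.l9 T2.l9)
  (TrL.c (I.pos (nat_lit 0) (nat_lit 0)) (xa T0.l5 T0.l5)
  (TrL.c (I.pos (nat_lit 0) (nat_lit 111196574)) T2.l6
  (TrL.c (I.pos (nat_lit 0) (nat_lit 77433728)) T0.l6
  (TrL.c (I.pos (nat_lit 0) (nat_lit 0)) (xa T0.l9 T0.l9)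
  (TrL.c (I.pos (nat_lit 0) (nat_lit 0)) T2.l7
  (TrL.c (I.mix (nat_lit 29511666) (nat_lit 77433728)) T0.l8
  (TrL.c (I.mix (nat_lit 29511666) (nat_lit 46070178)) T2.l2
  TrL.n)))))))) (by decide +kernel)
theorem bx1_8 : BoxOK sI cl7 cl13 cl7 t2 t0 b1_8 :=
  box_mk (TrL.c (I.pos (nat_lit 0) (nat_lit 0)) (xa (xb T2.l0 T2.l0) (xb T2.l0 (xa T2.l0 T2.l0)))
  (TrL.c (I.pos (nat_lit 0) (nat_lit 0)) (xa (xk (xb T0.l5 T0.l5) T0.l5) (xk (xb T0.l2 (xa T0.l2 T0.l2)) (xb T0.l2 T0.l2)))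
  (TrL.c (I.pos (nat_lit 0) (nat_lit 111196574)) (xR T2.l6 T2.l6)
  (TrL.c (I.pos (nat_lit 0) (nat_lit 77433728)) (xR T0.l6 T0.l6)
  (TrL.c (I.pos (nat_lit 0) (nat_lit 0)) (xa (xb (xk (xa T0.l7 (xb T0.l7 T0.l7)) (xa T0.l7 T0.l7)) (xk T0.l7 T0.l7)) (xb (xk (xa (xb (xk T0.l7 T0.l7) T0.l7) (xk (xb (xa T0.l7 T0.l7) T0.l7) (xb (xa T0.l7 T0.l7) T0.l7))) (xa (xb (xk T0.l7 T0.l7) T0.l7) (xb (xk (xa T0.l7 T0.l7) (xa T0.l7 T0.l7)) T0.l7))) (xk (xa T0.l7 (xk (xb T0.l7 (xa T0.l7 T0.l7)) (xb T0.l7 (xa T0.l7 T0.l7)))) (xa T0.l7 (xk (xb T0.l7 T0.l7) (xb T0.l7 T0.l7))))))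
  (TrL.c (I.pos (nat_lit 0) (nat_lit 0)) (xk (xa T2.l7 (xb T2.l7 T2.l7)) (xa T2.l7 (xb T2.l7 T2.l7)))
  (TrL.c (I.mix (nat_lit 29511666) (nat_lit 77433728)) (xR T0.l8 (xR T0.l8 T0.l8))
  (TrL.c (I.mix (nat_lit 29511666) (nat_lit 46070178)) T2.l2
  TrL.n)))))))) (by decide +kernel)
theorem bx1_9 : BoxOK sI cl7 cl13 cl7 t2 t0 b1_9 :=
  box_mk (TrL.c (I.pos (nat_lit 0) (nat_lit 0)) (xa T2.l0 T2.l0)
  (TrL.c (I.pos (nat_lit 0) (nat_lit 0)) T0.l5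
  (TrL.c (I.pos (nat_lit 0) (nat_lit 111196574)) (xR T2.l6 T2.l6)
  (TrL.c (I.pos (nat_lit 0) (nat_lit 77433728)) T0.l6
  (TrL.c (I.pos (nat_lit 0) (nat_lit 0)) (xk (xa T0.l10 (xb T0.l10 T0.l10)) (xa T0.l10 (xb T0.l10 T0.l10)))
  (TrL.c (I.pos (nat_lit 0) (nat_lit 0)) T2.l7
  (TrL.c (I.mix (nat_lit 29511666) (nat_lit 77433728)) (xR T0.l8 T0.l8)
  (TrL.c (I.mix (nat_lit 29511666) (nat_lit 46070178)) T2.l8
  TrL.n)))))))) (by decide +kernel)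
theorem bx1_10 : BoxOK sI cl7 cl13 cl7 t2 t0 b1_10 :=
  box_mk (TrL.c (I.pos (nat_lit 0) (nat_lit 0)) (xa (xb T2.l0 T2.l0) (xb T2.l0 T2.l0))
  (TrL.c (I.pos (nat_lit 0) (nat_lit 0)) (xk (xa T0.l5 T0.l5) (xa T0.l5 T0.l5))
  (TrL.c (I.pos (nat_lit 0) (nat_lit 111196574)) (xR T2.l6 T2.l6)
  (TrL.c (I.pos (nat_lit 0) (nat_lit 77433728)) T0.l6
  (TrL.c (I.pos (nat_lit 0) (nat_lit 0)) (xk (xa T0.l7 (xb T0.l7 T0.l7)) (xa T0.l7 (xb T0.l7 T0.l7)))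
  (TrL.c (I.pos (nat_lit 0) (nat_lit 0)) T2.l7
  (TrL.c (I.mix (nat_lit 29511666) (nat_lit 77433728)) (xR T0.l8 T0.l8)
  (TrL.c (I.mix (nat_lit 29511666) (nat_lit 46070178)) T2.l2
  TrL.n)))))))) (by decide +kernel)
theorem bx1_11 : BoxOK sI cl7 cl13 cl7 t2 t0 b1_11 :=
  box_mk (TrL.c (I.pos (nat_lit 0) (nat_lit 0)) T2.l10
  (TrL.c (I.pos (nat_lit 0) (nat_lit 0)) (xk T0.l5 T0.l5)
  (TrL.c (I.pos (nat_lit 0) (nat_lit 111196574)) (xR T2.l6 T2.l6)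
  (TrL.c (I.pos (nat_lit 0) (nat_lit 77433728)) T0.l6
  (TrL.c (I.pos (nat_lit 0) (nat_lit 0)) (xk (xb T0.l10 T0.l10) (xb T0.l10 T0.l10))
  (TrL.c (I.pos (nat_lit 0) (nat_lit 0)) T2.l7
  (TrL.c (I.mix (nat_lit 29511666) (nat_lit 77433728)) (xR T0.l8 T0.l8)
  (TrL.c (I.mix (nat_lit 29511666) (nat_lit 46070178)) T2.l2
  TrL.n)))))))) (by decide +kernel)
theorem sv1 : StarV sI cl7 cl13 cl7 t2 t0 t1 :=
  (bt_n (bt_n (bt_n (bt_b bx1_0) (bt_n (bt_b bx1_1) (bt_b bx1_2))) (bt_n (bt_b bx1_3) (bt_n (bt_b bx1_4) (bt_b bx1_5)))) (bt_n (bt_n (bt_b bx1_6) (bt_n (bt_b bx1_7) (bt_b bx1_8))) (bt_n (bt_b bx1_9) (bt_n (bt_b bx1_10) (bt_b bx1_11)))))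
def S1 : StarD := StarD.mk cl7 cl13 cl7 2 0 t1
theorem bx2_0 : BoxOK sI cl13 cl7 cl7 t1 t1 b2_0 :=
  box_mk (TrL.c (I.pos (nat_lit 0) (nat_lit 0)) (xa (xb T1.l0 (xa T1.l0 T1.l0)) (xb T1.l0 T1.l0))
  (TrL.c (I.pos (nat_lit 0) (nat_lit 0)) (xa (xk T1.l1 T1.l1) (xk T1.l1 T1.l1))
  (TrL.c (I.pos (nat_lit 0) (nat_lit 134217730)) (xR T1.l2 T1.l2)
  (TrL.c (I.pos (nat_lit 0) (nat_lit 110514882)) (xR T1.l3 T1.l3)
  (TrL.c (I.pos (nat_lit 0) (nat_lit 0)) (xa (xk (xb T1.l4 T1.l4) T1.l4) (xk (xb (xa T1.l4 T1.l4) T1.l4) (xb T1.l4 T1.l4)))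
  (TrL.c (I.pos (nat_lit 0) (nat_lit 0)) T1.l5
  (TrL.c (I.mix (nat_lit 8088324) (nat_lit 110514882)) (xR T1.l6 T1.l6)
  (TrL.c (I.mix (nat_lit 8088324) (nat_lit 89478486)) T1.l7
  TrL.n)))))))) (by decide +kernel)
theorem bx2_1 : BoxOK sI cl13 cl7 cl7 t1 t1 b2_1 :=
  box_mk (TrL.c (I.pos (nat_lit 0) (nat_lit 0)) T1.l8
  (TrL.c (I.pos (nat_lit 0) (nat_lit 0)) T1.l1
  (TrL.c (I.pos (nat_lit 0) (nat_lit 134217730)) (xR T1.l2 T1.l2)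
  (TrL.c (I.pos (nat_lit 0) (nat_lit 110514882)) (xR T1.l3 T1.l3)
  (TrL.c (I.pos (nat_lit 0) (nat_lit 0)) (xa (xb T1.l9 T1.l9) (xk T1.l9 T1.l9))
  (TrL.c (I.pos (nat_lit 0) (nat_lit 0)) T1.l5
  (TrL.c (I.mix (nat_lit 8088324) (nat_lit 110514882)) T1.l6
  (TrL.c (I.mix (nat_lit 8088324) (nat_lit 89478486)) T1.l7
  TrL.n)))))))) (by decide +kernel)
theorem bx2_2 : BoxOK sI cl13 cl7 cl7 t1 t1 b2_2 :=
  box_mk (TrL.c (I.pos (nat_lit 0) (nat_lit 0)) (xa (xa T1.l8 T1.l8) T1.l8)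
  (TrL.c (I.pos (nat_lit 0) (nat_lit 0)) (xa T1.l9 T1.l1)
  (TrL.c (I.pos (nat_lit 0) (nat_lit 134217730)) (xR T1.l2 T1.l2)
  (TrL.c (I.pos (nat_lit 0) (nat_lit 110514882)) (xR T1.l3 T1.l3)
  (TrL.c (I.pos (nat_lit 0) (nat_lit 0)) (xa T1.l1 T1.l9)
  (TrL.c (I.pos (nat_lit 0) (nat_lit 0)) T1.l5
  (TrL.c (I.mix (nat_lit 8088324) (nat_lit 110514882)) (xR T1.l6 T1.l6)
  (TrL.c (I.mix (nat_lit 8088324) (nat_lit 89478486)) T1.l3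
  TrL.n)))))))) (by decide +kernel)
theorem bx2_3 : BoxOK sI cl13 cl7 cl7 t1 t1 b2_3 :=
  box_mk (TrL.c (I.pos (nat_lit 0) (nat_lit 0)) (xb T1.l10 (xa T1.l10 T1.l10))
  (TrL.c (I.pos (nat_lit 0) (nat_lit 0)) (xk (xb T1.l1 T1.l1) T1.l1)
  (TrL.c (I.pos (nat_lit 0) (nat_lit 134217730)) (xR T1.l2 T1.l2)
  (TrL.c (I.pos (nat_lit 0) (nat_lit 110514882)) (xR T1.l3 T1.l3)
  (TrL.c (I.pos (nat_lit 0) (nat_lit 0)) (xk (xb T1.l11 T1.l4) (xb T1.l11 T1.l11))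
  (TrL.c (I.pos (nat_lit 0) (nat_lit 0)) T1.l5
  (TrL.c (I.mix (nat_lit 8088324) (nat_lit 110514882)) (xR T1.l6 T1.l6)
  (TrL.c (I.mix (nat_lit 8088324) (nat_lit 89478486)) T1.l7
  TrL.n)))))))) (by decide +kernel)
theorem bx2_4 : BoxOK sI cl13 cl7 cl7 t1 t1 b2_4 :=
  box_mk (TrL.c (I.pos (nat_lit 0) (nat_lit 0)) (xa (xa (xb T1.l8 T1.l8) T1.l8) (xa T1.l8 T1.l8))
  (TrL.c (I.pos (nat_lit 0) (nat_lit 0)) (xa T1.l1 T1.l1)
  (TrL.c (I.pos (nat_lit 0) (nat_lit 134217730)) (xR T1.l2 T1.l2)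
  (TrL.c (I.pos (nat_lit 0) (nat_lit 110514882)) (xR T1.l3 T1.l3)
  (TrL.c (I.pos (nat_lit 0) (nat_lit 0)) (xa T1.l9 T1.l9)
  (TrL.c (I.pos (nat_lit 0) (nat_lit 0)) T1.l5
  (TrL.c (I.mix (nat_lit 8088324) (nat_lit 110514882)) (xR T1.l6 T1.l6)
  (TrL.c (I.mix (nat_lit 8088324) (nat_lit 89478486)) T1.l6
  TrL.n)))))))) (by decide +kernel)
theorem bx2_5 : BoxOK sI cl13 cl7 cl7 t1 t1 b2_5 :=
  box_mk (TrL.c (I.pos (nat_lit 0) (nat_lit 0)) T1.l10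
  (TrL.c (I.pos (nat_lit 0) (nat_lit 0)) T1.l1
  (TrL.c (I.pos (nat_lit 0) (nat_lit 134217730)) (xR T1.l2 T1.l2)
  (TrL.c (I.pos (nat_lit 0) (nat_lit 110514882)) (xR T1.l3 T1.l3)
  (TrL.c (I.pos (nat_lit 0) (nat_lit 0)) (xk (xa T1.l11 T1.l4) (xa T1.l11 T1.l11))
  (TrL.c (I.pos (nat_lit 0) (nat_lit 0)) T1.l5
  (TrL.c (I.mix (nat_lit 8088324) (nat_lit 110514882)) T1.l6
  (TrL.c (I.mix (nat_lit 8088324) (nat_lit 89478486)) T1.l7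
  TrL.n)))))))) (by decide +kernel)
theorem bx2_6 : BoxOK sI cl13 cl7 cl7 t1 t1 b2_6 :=
  box_mk (TrL.c (I.pos (nat_lit 0) (nat_lit 0)) (xa (xa T1.l8 T1.l8) (xa T1.l8 T1.l8))
  (TrL.c (I.pos (nat_lit 0) (nat_lit 0)) (xa T1.l1 T1.l1)
  (TrL.c (I.pos (nat_lit 0) (nat_lit 134217730)) (xR T1.l2 T1.l2)
  (TrL.c (I.pos (nat_lit 0) (nat_lit 110514882)) T1.l3
  (TrL.c (I.pos (nat_lit 0) (nat_lit 0)) (xa T1.l9 T1.l9)
  (TrL.c (I.pos (nat_lit 0) (nat_lit 0)) T1.l5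
  (TrL.c (I.mix (nat_lit 8088324) (nat_lit 110514882)) T1.l6
  (TrL.c (I.mix (nat_lit 8088324) (nat_lit 89478486)) T1.l6
  TrL.n)))))))) (by decide +kernel)
theorem bx2_7 : BoxOK sI cl13 cl7 cl7 t1 t1 b2_7 :=
  box_mk (TrL.c (I.pos (nat_lit 0) (nat_lit 0)) T1.l8
  (TrL.c (I.pos (nat_lit 0) (nat_lit 0)) T1.l1
  (TrL.c (I.pos (nat_lit 0) (nat_lit 134217730)) (xR T1.l2 T1.l2)
  (TrL.c (I.pos (nat_lit 0) (nat_lit 110514882)) (xR T1.l3 T1.l3)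
  (TrL.c (I.pos (nat_lit 0) (nat_lit 0)) (xb T1.l9 T1.l9)
  (TrL.c (I.pos (nat_lit 0) (nat_lit 0)) T1.l5
  (TrL.c (I.mix (nat_lit 8088324) (nat_lit 110514882)) T1.l6
  (TrL.c (I.mix (nat_lit 8088324) (nat_lit 89478486)) T1.l7
  TrL.n)))))))) (by decide +kernel)
theorem bx2_8 : BoxOK sI cl13 cl7 cl7 t1 t1 b2_8 :=
  box_mk (TrL.c (I.pos (nat_lit 0) (nat_lit 0)) T1.l8
  (TrL.c (I.pos (nat_lit 0) (nat_lit 0)) T1.l1
  (TrL.c (I.pos (nat_lit 0) (nat_lit 134217730)) T1.l2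
  (TrL.c (I.pos (nat_lit 0) (nat_lit 110514882)) T1.l6
  (TrL.c (I.pos (nat_lit 0) (nat_lit 0)) (xa T1.l9 T1.l9)
  (TrL.c (I.pos (nat_lit 0) (nat_lit 0)) T1.l5
  (TrL.c (I.mix (nat_lit 8088324) (nat_lit 110514882)) T1.l6
  (TrL.c (I.mix (nat_lit 8088324) (nat_lit 89478486)) T1.l3
  TrL.n)))))))) (by decide +kernel)
theorem bx2_9 : BoxOK sI cl13 cl7 cl7 t1 t1 b2_9 :=
  box_mk (TrL.c (I.pos (nat_lit 0) (nat_lit 0)) (xa T1.l0 T1.l0)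
  (TrL.c (I.pos (nat_lit 0) (nat_lit 0)) (xa (xk T1.l1 T1.l1) (xk (xb T1.l1 T1.l1) (xb T1.l1 T1.l1)))
  (TrL.c (I.pos (nat_lit 0) (nat_lit 134217730)) (xR T1.l6 T1.l6)
  (TrL.c (I.pos (nat_lit 0) (nat_lit 110514882)) (xR T1.l3 T1.l3)
  (TrL.c (I.pos (nat_lit 0) (nat_lit 0)) (xa (xk (xb T1.l4 T1.l4) (xb T1.l4 T1.l4)) (xk (xb (xa T1.l4 (xk (xb T1.l4 T1.l4) T1.l4)) (xa T1.l4 (xk (xb T1.l4 T1.l4) T1.l4))) (xb (xa T1.l4 (xb (xk T1.l4 T1.l4) T1.l4)) (xa T1.l4 (xk T1.l4 T1.l4)))))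
  (TrL.c (I.pos (nat_lit 0) (nat_lit 0)) (xk (xa T1.l5 T1.l5) (xa T1.l5 T1.l5))
  (TrL.c (I.mix (nat_lit 8088324) (nat_lit 110514882)) (xR T1.l6 (xR T1.l6 T1.l6))
  (TrL.c (I.mix (nat_lit 8088324) (nat_lit 89478486)) T1.l7
  TrL.n)))))))) (by decide +kernel)
theorem bx2_10 : BoxOK sI cl13 cl7 cl7 t1 t1 b2_10 :=
  box_mk (TrL.c (I.pos (nat_lit 0) (nat_lit 0)) (xa T1.l0 T1.l0)
  (TrL.c (I.pos (nat_lit 0) (nat_lit 0)) (xk (xa T1.l1 T1.l1) T1.l1)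
  (TrL.c (I.pos (nat_lit 0) (nat_lit 134217730)) (xR T1.l2 T1.l2)
  (TrL.c (I.pos (nat_lit 0) (nat_lit 110514882)) (xR T1.l3 T1.l3)
  (TrL.c (I.pos (nat_lit 0) (nat_lit 0)) (xk (xa T1.l4 T1.l4) (xa T1.l4 (xb T1.l4 T1.l4)))
  (TrL.c (I.pos (nat_lit 0) (nat_lit 0)) T1.l5
  (TrL.c (I.mix (nat_lit 8088324) (nat_lit 110514882)) (xR T1.l6 T1.l6)
  (TrL.c (I.mix (nat_lit 8088324) (nat_lit 89478486)) T1.l7
  TrL.n)))))))) (by decide +kernel)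
theorem bx2_11 : BoxOK sI cl13 cl7 cl7 t1 t1 b2_11 :=
  box_mk (TrL.c (I.pos (nat_lit 0) (nat_lit 0)) T1.l10
  (TrL.c (I.pos (nat_lit 0) (nat_lit 0)) (xk T1.l1 T1.l1)
  (TrL.c (I.pos (nat_lit 0) (nat_lit 134217730)) (xR T1.l2 T1.l2)
  (TrL.c (I.pos (nat_lit 0) (nat_lit 110514882)) (xR T1.l3 T1.l3)
  (TrL.c (I.pos (nat_lit 0) (nat_lit 0)) (xk T1.l11 T1.l11)
  (TrL.c (I.pos (nat_lit 0) (nat_lit 0)) T1.l5
  (TrL.c (I.mix (nat_lit 8088324) (nat_lit 110514882)) (xR T1.l6 T1.l6)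
  (TrL.c (I.mix (nat_lit 8088324) (nat_lit 89478486)) T1.l7
  TrL.n)))))))) (by decide +kernel)
theorem sv2 : StarV sI cl13 cl7 cl7 t1 t1 t2 :=
  (bt_n (bt_n (bt_n (bt_b bx2_0) (bt_n (bt_b bx2_1) (bt_b bx2_2))) (bt_n (bt_b bx2_3) (bt_n (bt_b bx2_4) (bt_b bx2_5)))) (bt_n (bt_n (bt_b bx2_6) (bt_n (bt_b bx2_7) (bt_b bx2_8))) (bt_n (bt_b bx2_9) (bt_n (bt_b bx2_10) (bt_b bx2_11)))))
def S2 : StarD := StarD.mk cl13 cl7 cl7 1 1 t2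
def G : List StarD := [S0, S1, S2]
theorem so0 : StarOK sI G S0 :=
  star_mk (by decide) (by decide) rfl rfl rfl rfl rfl rfl (rfl : _ = t0) (rfl : _ = t2)
  (st_mk (Pth.l (Pth.l (Pth.l Pth.z))) (nat_lit 141086931) (nat_lit 163655314) (by decide +kernel))
  (st_mk (Pth.l (Pth.l (Pth.l Pth.z))) (nat_lit 176589559) (nat_lit 199577077) (by decide +kernel))
  (st_mk (Pth.l (Pth.l (Pth.l Pth.z))) (nat_lit 217723594) (nat_lit 241291113) (by decide +kernel)) sv0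
theorem so1 : StarOK sI G S1 :=
  star_mk (by decide) (by decide) rfl rfl rfl rfl rfl rfl (rfl : _ = t2) (rfl : _ = t0)
  (st_mk (Pth.l (Pth.l (Pth.l Pth.z))) (nat_lit 96420290) (nat_lit 115080879) (by decide +kernel))
  (st_mk (Pth.l (Pth.l (Pth.l Pth.z))) (nat_lit 131823809) (nat_lit 150859914) (by decide +kernel))
  (st_mk (Pth.l (Pth.l (Pth.l Pth.z))) (nat_lit 172872349) (nat_lit 192451257) (by decide +kernel)) sv1
theorem so2 : StarOK sI G S2 :=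
  star_mk (by decide) (by decide) rfl rfl rfl rfl rfl rfl (rfl : _ = t1) (rfl : _ = t1)
  (st_mk (Pth.l (Pth.l (Pth.l Pth.z))) (nat_lit 141873768) (nat_lit 160336088) (by decide +kernel))
  (st_mk (Pth.l (Pth.l (Pth.l Pth.z))) (nat_lit 174891329) (nat_lit 197418602) (by decide +kernel))
  (st_mk (Pth.l (Pth.l (Pth.l Pth.z))) (nat_lit 215156648) (nat_lit 238114654) (by decide +kernel)) sv2
theorem ok : GroupOK (nat_lit 150274048) (nat_lit 209387520) G := grp_mk (allS_c so0 (allS_c so1 (allS_c so2 allS_n)))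
theorem cov : GCov G cl7 cl7 cl13 := cov_mk
  ⟨0, by decide, rfl, rfl, rfl⟩ ⟨1, by decide, rfl, rfl, rfl⟩ ⟨0, by decide, rfl, rfl, rfl⟩ ⟨1, by decide, rfl, rfl, rfl⟩ ⟨2, by decide, rfl, rfl, rfl⟩ ⟨2, by decide, rfl, rfl, rfl⟩
end Q446_2

namespace Q446_3
def sI : I := I.pos (nat_lit 209321984) (nat_lit 268435456)
def b0_0 : Bx := Bx.mk (St.mk (I.pos (nat_lit 159137792) (nat_lit 233095168)) (I.mix (nat_lit 278528) (nat_lit 53903360)) (I.mix (nat_lit 278528) (nat_lit 82280448)) (I.pos (nat_lit 143097856) (nat_lit 266534912)) (I.mix (nat_lit 106594304) (nat_lit 61128704)) (I.mix (nat_lit 63602688) (nat_lit 56541184)) (I.mix (nat_lit 81526784) (nat_lit 76496896)))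
  false (nat_lit 74941536)
def b0_1 : Bx := Bx.mk (St.mk (I.mix (nat_lit 26214400) (nat_lit 120979456)) (I.mix (nat_lit 7929856) (nat_lit 32079872)) (I.mix (nat_lit 18022400) (nat_lit 17301504)) (I.pos (nat_lit 38748160) (nat_lit 115900416)) (I.mix (nat_lit 37453824) (nat_lit 40239104)) (I.mix (nat_lit 32243712) (nat_lit 24739840)) (I.mix (nat_lit 22986752) (nat_lit 15581184)))
  false (nat_lit 0)
def b0_2 : Bx := Bx.mk (St.mk (I.pos (nat_lit 90210304) (nat_lit 134922240)) (I.mix (nat_lit 48939008) (nat_lit 8552448)) (I.neg (nat_lit 573440) (nat_lit 52133888)) (I.pos (nat_lit 77545472) (nat_lit 130629632)) (I.mix (nat_lit 77922304) (nat_lit 28459008)) (I.mix (nat_lit 27328512) (nat_lit 62636032)) (I.mix (nat_lit 18055168) (nat_lit 46170112)))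
  false (nat_lit 0)
def b0_3 : Bx := Bx.mk (St.mk (I.mix (nat_lit 36782080) (nat_lit 70729728)) (I.mix (nat_lit 30375936) (nat_lit 5177344)) (I.mix (nat_lit 19398656) (nat_lit 868352)) (I.pos (nat_lit 41222144) (nat_lit 82001920)) (I.mix (nat_lit 39272448) (nat_lit 22102016)) (I.mix (nat_lit 17727488) (nat_lit 29884416)) (I.mix (nat_lit 8732672) (nat_lit 12156928)))
  false (nat_lit 0)
def b0_4 : Bx := Bx.mk (St.mk (I.pos (nat_lit 191135744) (nat_lit 286162944)) (I.mix (nat_lit 23789568) (nat_lit 39600128)) (I.mix (nat_lit 81149952) (nat_lit 53133312)) (I.pos (nat_lit 209616896) (nat_lit 371097600)) (I.mix (nat_lit 66813952) (nat_lit 55590912)) (I.mix (nat_lit 54181888) (nat_lit 39485440)) (I.mix (nat_lit 93700096) (nat_lit 69173248)))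
  false (nat_lit 56988460)
def b0_5 : Bx := Bx.mk (St.mk (I.pos (nat_lit 104087552) (nat_lit 172408832)) (I.neg (nat_lit 8929280) (nat_lit 50036736)) (I.neg (nat_lit 5013504) (nat_lit 52166656)) (I.pos (nat_lit 95518720) (nat_lit 175112192)) (I.mix (nat_lit 71368704) (nat_lit 34848768)) (I.mix (nat_lit 33275904) (nat_lit 46022656)) (I.mix (nat_lit 27131904) (nat_lit 43286528)))
  false (nat_lit 0)
def b0_6 : Bx := Bx.mk (St.mk (I.mix (nat_lit 29507584) (nat_lit 82100224)) (I.mix (nat_lit 30294016) (nat_lit 6520832)) (I.mix (nat_lit 20758528) (nat_lit 1703936)) (I.pos (nat_lit 38240256) (nat_lit 88834048)) (I.mix (nat_lit 36798464) (nat_lit 28000256)) (I.mix (nat_lit 21610496) (nat_lit 28868608)) (I.mix (nat_lit 11812864) (nat_lit 15794176)))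
  false (nat_lit 0)
def b0_7 : Bx := Bx.mk (St.mk (I.pos (nat_lit 166412288) (nat_lit 213385216)) (I.mix (nat_lit 6668288) (nat_lit 53673984)) (I.pos (nat_lit 3096576) (nat_lit 80265216)) (I.pos (nat_lit 157237248) (nat_lit 237830144)) (I.mix (nat_lit 123371520) (nat_lit 45645824)) (I.mix (nat_lit 99090432) (nat_lit 58671104)) (I.mix (nat_lit 102432768) (nat_lit 55738368)))
  false (nat_lit 26131000)
def b0_8 : Bx := Bx.mk (St.mk (I.mix (nat_lit 34717696) (nat_lit 106577920)) (I.mix (nat_lit 12615680) (nat_lit 33423360)) (I.mix (nat_lit 14630912) (nat_lit 19939328)) (I.pos (nat_lit 41762816) (nat_lit 106528768)) (I.mix (nat_lit 47841280) (nat_lit 28622848)) (I.mix (nat_lit 37928960) (nat_lit 24051712)) (I.mix (nat_lit 20758528) (nat_lit 14221312)))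
  false (nat_lit 0)
def b0_9 : Bx := Bx.mk (St.mk (I.pos (nat_lit 141950976) (nat_lit 208666624)) (I.mix (nat_lit 34029568) (nat_lit 18563072)) (I.mix (nat_lit 38387712) (nat_lit 32604160)) (I.pos (nat_lit 130383872) (nat_lit 220020736)) (I.mix (nat_lit 52838400) (nat_lit 44941312)) (I.mix (nat_lit 44695552) (nat_lit 39632896)) (I.mix (nat_lit 44646400) (nat_lit 40370176)))
  false (nat_lit 14555785)
def b0_10 : Bx := Bx.mk (St.mk (I.pos (nat_lit 167297024) (nat_lit 208830464)) (I.mix (nat_lit 11812864) (nat_lit 31752192)) (I.mix (nat_lit 6275072) (nat_lit 52002816)) (I.pos (nat_lit 161054720) (nat_lit 223215616)) (I.mix (nat_lit 98287616) (nat_lit 51167232)) (I.mix (nat_lit 93896704) (nat_lit 44122112)) (I.mix (nat_lit 98926592) (nat_lit 43794432)))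
  false (nat_lit 13835938)
def b0_11 : Bx := Bx.mk (St.mk (I.pos (nat_lit 181485568) (nat_lit 235438080)) (I.pos (nat_lit 10928128) (nat_lit 53477376)) (I.pos (nat_lit 10371072) (nat_lit 81428480)) (I.pos (nat_lit 201375744) (nat_lit 266846208)) (I.mix (nat_lit 96124928) (nat_lit 68976640)) (I.mix (nat_lit 70320128) (nat_lit 55443456)) (I.mix (nat_lit 104005632) (nat_lit 69058560)))
  false (nat_lit 69616783)
def t0 : BTr := (BTr.n (BTr.n (BTr.n (BTr.b b0_0) (BTr.n (BTr.b b0_1) (BTr.b b0_2))) (BTr.n (BTr.b b0_3) (BTr.n (BTr.b b0_4) (BTr.b b0_5)))) (BTr.n (BTr.n (BTr.b b0_6) (BTr.n (BTr.b b0_7) (BTr.b b0_8))) (BTr.n (BTr.b b0_9) (BTr.n (BTr.b b0_10) (BTr.b b0_11)))))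
namespace T0
def l0 : Tr := Tr.L (Pth.l (Pth.l (Pth.l Pth.z)))
def l1 : Tr := Tr.L (Pth.l (Pth.l (Pth.r (Pth.l Pth.z))))
def l2 : Tr := Tr.L (Pth.l (Pth.l (Pth.r (Pth.r Pth.z))))
def l3 : Tr := Tr.L (Pth.l (Pth.r (Pth.l Pth.z)))
def l4 : Tr := Tr.L (Pth.l (Pth.r (Pth.r (Pth.l Pth.z))))
def l5 : Tr := Tr.L (Pth.l (Pth.r (Pth.r (Pth.r Pth.z))))
def l6 : Tr := Tr.L (Pth.r (Pth.l (Pth.l Pth.z)))
def l7 : Tr := Tr.L (Pth.r (Pth.l (Pth.r (Pth.l Pth.z))))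
def l8 : Tr := Tr.L (Pth.r (Pth.l (Pth.r (Pth.r Pth.z))))
def l9 : Tr := Tr.L (Pth.r (Pth.r (Pth.l Pth.z)))
def l10 : Tr := Tr.L (Pth.r (Pth.r (Pth.r (Pth.l Pth.z))))
def l11 : Tr := Tr.L (Pth.r (Pth.r (Pth.r (Pth.r Pth.z))))
end T0
def b1_0 : Bx := Bx.mk (St.mk (I.pos (nat_lit 160514048) (nat_lit 238141440)) (I.mix (nat_lit 278528) (nat_lit 46940160)) (I.mix (nat_lit 278528) (nat_lit 86949888)) (I.pos (nat_lit 96485376) (nat_lit 221446144)) (I.mix (nat_lit 104628224) (nat_lit 62750720)) (I.mix (nat_lit 68501504) (nat_lit 64552960)) (I.mix (nat_lit 98615296) (nat_lit 81723392)))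
  false (nat_lit 42317031)
def b1_1 : Bx := Bx.mk (St.mk (I.pos (nat_lit 118390784) (nat_lit 183992320)) (I.neg (nat_lit 4866048) (nat_lit 43548672)) (I.mix (nat_lit 42532864) (nat_lit 2883584)) (I.pos (nat_lit 70778880) (nat_lit 143114240)) (I.mix (nat_lit 63307776) (nat_lit 33177600)) (I.mix (nat_lit 32276480) (nat_lit 40517632)) (I.mix (nat_lit 27901952) (nat_lit 41009152)))
  false (nat_lit 0)
def b1_2 : Bx := Bx.mk (St.mk (I.mix (nat_lit 14139392) (nat_lit 141393920)) (I.mix (nat_lit 6422528) (nat_lit 25706496)) (I.mix (nat_lit 8470528) (nat_lit 25133056)) (I.mix (nat_lit 557056) (nat_lit 90259456)) (I.mix (nat_lit 43106304) (nat_lit 31850496)) (I.mix (nat_lit 28606464) (nat_lit 24412160)) (I.mix (nat_lit 24526848) (nat_lit 18726912)))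
  false (nat_lit 0)
def b1_3 : Bx := Bx.mk (St.mk (I.mix (nat_lit 22396928) (nat_lit 116473856)) (I.mix (nat_lit 24182784) (nat_lit 5144576)) (I.mix (nat_lit 17940480) (nat_lit 4751360)) (I.mix (nat_lit 557056) (nat_lit 66191360)) (I.mix (nat_lit 31621120) (nat_lit 24985600)) (I.mix (nat_lit 17399808) (nat_lit 24985600)) (I.mix (nat_lit 10633216) (nat_lit 17760256)))
  false (nat_lit 0)
def b1_4 : Bx := Bx.mk (St.mk (I.pos (nat_lit 173539328) (nat_lit 214515712)) (I.mix (nat_lit 11730944) (nat_lit 41598976)) (I.pos (nat_lit 3702784) (nat_lit 76873728)) (I.pos (nat_lit 119504896) (nat_lit 189071360)) (I.mix (nat_lit 114130944) (nat_lit 44875776)) (I.mix (nat_lit 96600064) (nat_lit 49856512)) (I.mix (nat_lit 113246208) (nat_lit 47710208)))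
  false (nat_lit 0)
def b1_5 : Bx := Bx.mk (St.mk (I.pos (nat_lit 114851840) (nat_lit 156467200)) (I.mix (nat_lit 41156608) (nat_lit 7815168)) (I.mix (nat_lit 42631168) (nat_lit 8962048)) (I.pos (nat_lit 53182464) (nat_lit 108183552)) (I.mix (nat_lit 72499200) (nat_lit 34045952)) (I.mix (nat_lit 25051136) (nat_lit 61423616)) (I.mix (nat_lit 20676608) (nat_lit 54919168)))
  false (nat_lit 0)
def b1_6 : Bx := Bx.mk (St.mk (I.mix (nat_lit 13631488) (nat_lit 131940352)) (I.mix (nat_lit 13123584) (nat_lit 27017216)) (I.mix (nat_lit 10158080) (nat_lit 25640960)) (I.mix (nat_lit 557056) (nat_lit 80871424)) (I.mix (nat_lit 49790976) (nat_lit 28442624)) (I.mix (nat_lit 37961728) (nat_lit 20725760)) (I.mix (nat_lit 27492352) (nat_lit 13238272)))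
  false (nat_lit 0)
def b1_7 : Bx := Bx.mk (St.mk (I.mix (nat_lit 24248320) (nat_lit 107954176)) (I.mix (nat_lit 24002560) (nat_lit 81920)) (I.mix (nat_lit 17530880) (nat_lit 2785280)) (I.mix (nat_lit 1687552) (nat_lit 58523648)) (I.mix (nat_lit 37912576) (nat_lit 19300352)) (I.mix (nat_lit 15826944) (nat_lit 26558464)) (I.mix (nat_lit 8962048) (nat_lit 15695872)))
  false (nat_lit 0)
def b1_8 : Bx := Bx.mk (St.mk (I.pos (nat_lit 187187200) (nat_lit 284573696)) (I.mix (nat_lit 22478848) (nat_lit 35799040)) (I.mix (nat_lit 50823168) (nat_lit 70156288)) (I.pos (nat_lit 161136640) (nat_lit 322633728)) (I.mix (nat_lit 77070336) (nat_lit 51609600)) (I.mix (nat_lit 52264960) (nat_lit 43253760)) (I.mix (nat_lit 92143616) (nat_lit 70549504)))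
  false (nat_lit 36852643)
def b1_9 : Bx := Bx.mk (St.mk (I.pos (nat_lit 155533312) (nat_lit 215941120)) (I.mix (nat_lit 36126720) (nat_lit 12828672)) (I.mix (nat_lit 35487744) (nat_lit 34291712)) (I.pos (nat_lit 100204544) (nat_lit 182976512)) (I.mix (nat_lit 48349184) (nat_lit 43925504)) (I.mix (nat_lit 42385408) (nat_lit 39141376)) (I.mix (nat_lit 43466752) (nat_lit 42385408)))
  false (nat_lit 30786407)
def b1_10 : Bx := Bx.mk (St.mk (I.pos (nat_lit 184057856) (nat_lit 239288320)) (I.pos (nat_lit 6324224) (nat_lit 46661632)) (I.pos (nat_lit 16154624) (nat_lit 87769088)) (I.pos (nat_lit 157302784) (nat_lit 219430912)) (I.mix (nat_lit 92536832) (nat_lit 70942720)) (I.mix (nat_lit 74317824) (nat_lit 59588608)) (I.mix (nat_lit 110362624) (nat_lit 75431936)))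
  false (nat_lit 38475019)
def b1_11 : Bx := Bx.mk (St.mk (I.pos (nat_lit 175292416) (nat_lit 214564864)) (I.mix (nat_lit 10715136) (nat_lit 25001984)) (I.pos (nat_lit 3260416) (nat_lit 52625408)) (I.pos (nat_lit 119734272) (nat_lit 180142080)) (I.mix (nat_lit 98795520) (nat_lit 51544064)) (I.mix (nat_lit 95059968) (nat_lit 38715392)) (I.mix (nat_lit 109019136) (nat_lit 39026688)))
  false (nat_lit 2083921)
def t1 : BTr := (BTr.n (BTr.n (BTr.n (BTr.b b1_0) (BTr.n (BTr.b b1_1) (BTr.b b1_2))) (BTr.n (BTr.b b1_3) (BTr.n (BTr.b b1_4) (BTr.b b1_5)))) (BTr.n (BTr.n (BTr.b b1_6) (BTr.n (BTr.b b1_7) (BTr.b b1_8))) (BTr.n (BTr.b b1_9) (BTr.n (BTr.b b1_10) (BTr.b b1_11)))))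
namespace T1
def l0 : Tr := Tr.L (Pth.l (Pth.l (Pth.l Pth.z)))
def l1 : Tr := Tr.L (Pth.l (Pth.l (Pth.r (Pth.l Pth.z))))
def l2 : Tr := Tr.L (Pth.l (Pth.l (Pth.r (Pth.r Pth.z))))
def l3 : Tr := Tr.L (Pth.l (Pth.r (Pth.l Pth.z)))
def l4 : Tr := Tr.L (Pth.l (Pth.r (Pth.r (Pth.l Pth.z))))
def l5 : Tr := Tr.L (Pth.l (Pth.r (Pth.r (Pth.r Pth.z))))
def l6 : Tr := Tr.L (Pth.r (Pth.l (Pth.l Pth.z)))
def l7 : Tr := Tr.L (Pth.r (Pth.l (Pth.r (Pth.l Pth.z))))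
def l8 : Tr := Tr.L (Pth.r (Pth.l (Pth.r (Pth.r Pth.z))))
def l9 : Tr := Tr.L (Pth.r (Pth.r (Pth.l Pth.z)))
def l10 : Tr := Tr.L (Pth.r (Pth.r (Pth.r (Pth.l Pth.z))))
def l11 : Tr := Tr.L (Pth.r (Pth.r (Pth.r (Pth.r Pth.z))))
end T1
def b2_0 : Bx := Bx.mk (St.mk (I.pos (nat_lit 152158208) (nat_lit 231669760)) (I.mix (nat_lit 278528) (nat_lit 51937280)) (I.mix (nat_lit 278528) (nat_lit 95911936)) (I.pos (nat_lit 141852672) (nat_lit 255524864)) (I.mix (nat_lit 115179520) (nat_lit 66977792)) (I.mix (nat_lit 75137024) (nat_lit 67665920)) (I.mix (nat_lit 93650944) (nat_lit 82427904)))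
  false (nat_lit 63002723)
def b2_1 : Bx := Bx.mk (St.mk (I.pos (nat_lit 100974592) (nat_lit 180764672)) (I.neg (nat_lit 6864896) (nat_lit 52445184)) (I.mix (nat_lit 45056000) (nat_lit 10387456)) (I.pos (nat_lit 100237312) (nat_lit 185974784)) (I.mix (nat_lit 68059136) (nat_lit 38666240)) (I.mix (nat_lit 30621696) (nat_lit 43696128)) (I.mix (nat_lit 26099712) (nat_lit 40206336)))
  false (nat_lit 5015032)
def b2_2 : Bx := Bx.mk (St.mk (I.mix (nat_lit 24330240) (nat_lit 85016576)) (I.mix (nat_lit 30277632) (nat_lit 5947392)) (I.mix (nat_lit 15171584) (nat_lit 9535488)) (I.pos (nat_lit 39780352) (nat_lit 89800704)) (I.mix (nat_lit 32702464) (nat_lit 36831232)) (I.mix (nat_lit 19496960) (nat_lit 30064640)) (I.mix (nat_lit 9666560) (nat_lit 15810560)))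
  false (nat_lit 0)
def b2_3 : Bx := Bx.mk (St.mk (I.pos (nat_lit 163282944) (nat_lit 209354752)) (I.mix (nat_lit 7077888) (nat_lit 50429952)) (I.pos (nat_lit 14532608) (nat_lit 90259456)) (I.pos (nat_lit 149684224) (nat_lit 225263616)) (I.mix (nat_lit 123551744) (nat_lit 42532864)) (I.mix (nat_lit 96649216) (nat_lit 55869440)) (I.mix (nat_lit 103219200) (nat_lit 48185344)))
  false (nat_lit 60520135)
def b2_4 : Bx := Bx.mk (St.mk (I.mix (nat_lit 38404096) (nat_lit 104251392)) (I.mix (nat_lit 12304384) (nat_lit 31637504)) (I.mix (nat_lit 5554176) (nat_lit 26624000)) (I.pos (nat_lit 42319872) (nat_lit 104169472)) (I.mix (nat_lit 53493760) (nat_lit 24838144)) (I.mix (nat_lit 44269568) (nat_lit 21495808)) (I.mix (nat_lit 24346624) (nat_lit 12763136)))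
  false (nat_lit 0)
def b2_5 : Bx := Bx.mk (St.mk (I.pos (nat_lit 147668992) (nat_lit 206422016)) (I.mix (nat_lit 32325632) (nat_lit 13778944)) (I.mix (nat_lit 21594112) (nat_lit 42156032)) (I.pos (nat_lit 132497408) (nat_lit 214220800)) (I.mix (nat_lit 50020352) (nat_lit 47923200)) (I.mix (nat_lit 44466176) (nat_lit 40484864)) (I.mix (nat_lit 42237952) (nat_lit 39747584)))
  false (nat_lit 21236271)
def b2_6 : Bx := Bx.mk (St.mk (I.mix (nat_lit 28983296) (nat_lit 120209408)) (I.mix (nat_lit 6356992) (nat_lit 31571968)) (I.mix (nat_lit 7798784) (nat_lit 25755648)) (I.pos (nat_lit 38273024) (nat_lit 113770496)) (I.mix (nat_lit 46940160) (nat_lit 38207488)) (I.mix (nat_lit 34340864) (nat_lit 27508736)) (I.mix (nat_lit 24395776) (nat_lit 18989056)))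
  false (nat_lit 0)
def b2_7 : Bx := Bx.mk (St.mk (I.pos (nat_lit 92274688) (nat_lit 139345920)) (I.mix (nat_lit 50397184) (nat_lit 7094272)) (I.mix (nat_lit 44056576) (nat_lit 7307264)) (I.pos (nat_lit 78397440) (nat_lit 133840896)) (I.mix (nat_lit 76267520) (nat_lit 30507008)) (I.mix (nat_lit 27607040) (nat_lit 58834944)) (I.mix (nat_lit 20037632) (nat_lit 40927232)))
  false (nat_lit 0)
def b2_8 : Bx := Bx.mk (St.mk (I.mix (nat_lit 35979264) (nat_lit 74907648)) (I.mix (nat_lit 30081024) (nat_lit 3129344)) (I.mix (nat_lit 13336576) (nat_lit 8306688)) (I.pos (nat_lit 42156032) (nat_lit 82280448)) (I.mix (nat_lit 37765120) (nat_lit 28049408)) (I.mix (nat_lit 19824640) (nat_lit 26869760)) (I.mix (nat_lit 8388608) (nat_lit 10158080)))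
  false (nat_lit 0)
def b2_9 : Bx := Bx.mk (St.mk (I.pos (nat_lit 184238080) (nat_lit 287424512)) (I.mix (nat_lit 20037632) (nat_lit 41009152)) (I.mix (nat_lit 45809664) (nat_lit 79495168)) (I.pos (nat_lit 196149248) (nat_lit 368345088)) (I.mix (nat_lit 79511552) (nat_lit 55689216)) (I.mix (nat_lit 52609024) (nat_lit 39092224)) (I.mix (nat_lit 84459520) (nat_lit 62537728)))
  false (nat_lit 65429177)
def b2_10 : Bx := Bx.mk (St.mk (I.pos (nat_lit 177176576) (nat_lit 232865792)) (I.pos (nat_lit 11878400) (nat_lit 49774592)) (I.pos (nat_lit 29343744) (nat_lit 93880320)) (I.pos (nat_lit 188825600) (nat_lit 253231104)) (I.mix (nat_lit 95240192) (nat_lit 69386240)) (I.mix (nat_lit 76201984) (nat_lit 54362112)) (I.mix (nat_lit 114753536) (nat_lit 63504384)))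
  false (nat_lit 44436807)
def b2_11 : Bx := Bx.mk (St.mk (I.pos (nat_lit 163037184) (nat_lit 204128256)) (I.mix (nat_lit 13647872) (nat_lit 29884416)) (I.pos (nat_lit 6373376) (nat_lit 64929792)) (I.pos (nat_lit 147914752) (nat_lit 213450752)) (I.mix (nat_lit 107773952) (nat_lit 49463296)) (I.mix (nat_lit 101171200) (nat_lit 41598976)) (I.mix (nat_lit 106774528) (nat_lit 40599552)))
  false (nat_lit 31154239)
def t2 : BTr := (BTr.n (BTr.n (BTr.n (BTr.b b2_0) (BTr.n (BTr.b b2_1) (BTr.b b2_2))) (BTr.n (BTr.b b2_3) (BTr.n (BTr.b b2_4) (BTr.b b2_5)))) (BTr.n (BTr.n (BTr.b b2_6) (BTr.n (BTr.b b2_7) (BTr.b b2_8))) (BTr.n (BTr.b b2_9) (BTr.n (BTr.b b2_10) (BTr.b b2_11)))))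
namespace T2
def l0 : Tr := Tr.L (Pth.l (Pth.l (Pth.l Pth.z)))
def l1 : Tr := Tr.L (Pth.l (Pth.l (Pth.r (Pth.l Pth.z))))
def l2 : Tr := Tr.L (Pth.l (Pth.l (Pth.r (Pth.r Pth.z))))
def l3 : Tr := Tr.L (Pth.l (Pth.r (Pth.l Pth.z)))
def l4 : Tr := Tr.L (Pth.l (Pth.r (Pth.r (Pth.l Pth.z))))
def l5 : Tr := Tr.L (Pth.l (Pth.r (Pth.r (Pth.r Pth.z))))
def l6 : Tr := Tr.L (Pth.r (Pth.l (Pth.l Pth.z)))
def l7 : Tr := Tr.L (Pth.r (Pth.l (Pth.r (Pth.l Pth.z))))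
def l8 : Tr := Tr.L (Pth.r (Pth.l (Pth.r (Pth.r Pth.z))))
def l9 : Tr := Tr.L (Pth.r (Pth.r (Pth.l Pth.z)))
def l10 : Tr := Tr.L (Pth.r (Pth.r (Pth.r (Pth.l Pth.z))))
def l11 : Tr := Tr.L (Pth.r (Pth.r (Pth.r (Pth.r Pth.z))))
end T2
theorem bx0_0 : BoxOK sI cl7 cl7 cl13 t0 t2 b0_0 :=
  box_mk (TrL.c (I.pos (nat_lit 0) (nat_lit 0)) (xa (xb (xa T0.l11 T0.l11) (xa (xb (xa T0.l0 T0.l0) (xa T0.l0 T0.l0)) (xb T0.l0 (xa T0.l0 T0.l0)))) (xb (xa T0.l0 T0.l0) (xa (xb T0.l0 (xa T0.l0 T0.l0)) (xb T0.l0 (xa T0.l0 T0.l0)))))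
  (TrL.c (I.pos (nat_lit 0) (nat_lit 0)) (xa (xk (xb T2.l1 (xa T2.l1 T2.l1)) (xb T2.l1 (xa T2.l1 T2.l1))) (xk (xb T2.l1 (xa T2.l1 T2.l1)) (xb T2.l1 (xa T2.l1 T2.l1))))
  (TrL.c (I.pos (nat_lit 0) (nat_lit 111196574)) (xR T0.l1 T0.l1)
  (TrL.c (I.pos (nat_lit 0) (nat_lit 77433728)) (xR T2.l2 T2.l2)
  (TrL.c (I.pos (nat_lit 0) (nat_lit 0)) (xa (xk (xb T2.l3 (xa T2.l3 T2.l3)) (xb (xa T2.l3 T2.l3) (xa T2.l3 T2.l3))) (xb (xk (xa T2.l3 T2.l3) (xa T2.l3 T2.l3)) (xk (xa T2.l3 (xk T2.l3 T2.l3)) (xa T2.l3 (xb T2.l3 T2.l3)))))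
  (TrL.c (I.pos (nat_lit 0) (nat_lit 0)) (xk (xa T0.l2 T0.l2) T0.l2)
  (TrL.c (I.mix (nat_lit 29511666) (nat_lit 77433728)) (xR T2.l4 (xR T2.l4 T2.l4))
  (TrL.c (I.mix (nat_lit 29511666) (nat_lit 46070178)) T0.l3
  TrL.n)))))))) (by decide +kernel)
theorem bx0_1 : BoxOK sI cl7 cl7 cl13 t0 t2 b0_1 :=
  box_mk (TrL.c (I.pos (nat_lit 0) (nat_lit 0)) (xa (xa (xb T0.l4 (xa T0.l4 T0.l4)) T0.l4) (xa T0.l4 (xb T0.l4 (xa T0.l4 T0.l4))))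
  (TrL.c (I.pos (nat_lit 0) (nat_lit 0)) (xa T2.l1 T2.l1)
  (TrL.c (I.pos (nat_lit 0) (nat_lit 111196574)) T0.l1
  (TrL.c (I.pos (nat_lit 0) (nat_lit 77433728)) T2.l2
  (TrL.c (I.pos (nat_lit 0) (nat_lit 0)) (xa (xa T2.l1 T2.l5) T2.l5)
  (TrL.c (I.pos (nat_lit 0) (nat_lit 0)) T0.l2
  (TrL.c (I.mix (nat_lit 29511666) (nat_lit 77433728)) T2.l4
  (TrL.c (I.mix (nat_lit 29511666) (nat_lit 46070178)) T0.l3
  TrL.n)))))))) (by decide +kernel)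
theorem bx0_2 : BoxOK sI cl7 cl7 cl13 t0 t2 b0_2 :=
  box_mk (TrL.c (I.pos (nat_lit 0) (nat_lit 0)) (xb T0.l4 T0.l4)
  (TrL.c (I.pos (nat_lit 0) (nat_lit 0)) T2.l1
  (TrL.c (I.pos (nat_lit 0) (nat_lit 111196574)) T0.l1
  (TrL.c (I.pos (nat_lit 0) (nat_lit 77433728)) T2.l2
  (TrL.c (I.pos (nat_lit 0) (nat_lit 0)) (xb (xk T2.l5 T2.l5) (xk T2.l5 T2.l5))
  (TrL.c (I.pos (nat_lit 0) (nat_lit 0)) T0.l2
  (TrL.c (I.mix (nat_lit 29511666) (nat_lit 77433728)) T2.l4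
  (TrL.c (I.mix (nat_lit 29511666) (nat_lit 46070178)) T0.l3
  TrL.n)))))))) (by decide +kernel)
theorem bx0_3 : BoxOK sI cl7 cl7 cl13 t0 t2 b0_3 :=
  box_mk (TrL.c (I.pos (nat_lit 0) (nat_lit 0)) (xa (xb (xa T0.l4 T0.l4) T0.l4) T0.l4)
  (TrL.c (I.pos (nat_lit 0) (nat_lit 0)) (xa T2.l5 T2.l1)
  (TrL.c (I.pos (nat_lit 0) (nat_lit 111196574)) T0.l1
  (TrL.c (I.pos (nat_lit 0) (nat_lit 77433728)) T2.l2
  (TrL.c (I.pos (nat_lit 0) (nat_lit 0)) (xa T2.l1 T2.l5)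
  (TrL.c (I.pos (nat_lit 0) (nat_lit 0)) T0.l2
  (TrL.c (I.mix (nat_lit 29511666) (nat_lit 77433728)) T2.l4
  (TrL.c (I.mix (nat_lit 29511666) (nat_lit 46070178)) T0.l3
  TrL.n)))))))) (by decide +kernel)
theorem c0_4_0 : chkTag sI cl7 cl7 cl13 t0 b0_4 (tg true true false RT.r2) (I.pos (nat_lit 0) (nat_lit 0))
  (xa (xb (xa T0.l0 T0.l0) (xa (xb T0.l0 T0.l0) (xb T0.l0 (xc T0.l0 T0.l0)))) (xb (xa T0.l0 (xb T0.l0 T0.l0)) (xa (xb T0.l0 (xa T0.l0 T0.l0)) (xb T0.l0 (xa T0.l0 T0.l0))))) = true := by decide +kernel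
theorem c0_4_1 : chkTag sI cl7 cl7 cl13 t2 b0_4 (tg true false false RT.r3) (I.pos (nat_lit 0) (nat_lit 0))
  (xa (xb (xk T2.l1 T2.l1) (xk T2.l1 T2.l1)) (xk (xb T2.l7 (xa T2.l1 (xb T2.l1 T2.l1))) (xb T2.l7 (xa T2.l1 T2.l7)))) = true := by decide +kernel
theorem c0_4_2 : chkTag sI cl7 cl7 cl13 t0 b0_4 (Tag.mk true true false RT.tl RT.r4) (I.pos (nat_lit 0) (nat_lit 111196574))
  (xR T0.l1 (xR T0.l1 T0.l8)) = true := by decide +kernel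
theorem c0_4_3 : chkTag sI cl7 cl7 cl13 t2 b0_4 (Tag.mk true false false RT.tl RT.r5) (I.pos (nat_lit 0) (nat_lit 77433728))
  (xR T2.l2 (xR T2.l2 T2.l2)) = true := by decide +kernel
theorem c0_4_4 : chkTag sI cl7 cl7 cl13 t2 b0_4 (tg false false false RT.r3) (I.pos (nat_lit 0) (nat_lit 0))
  (xa (xb (xk (xa (xb (xk T2.l3 T2.l3) T2.l3) (xb T2.l0 T2.l3)) (xa (xb (xk T2.l3 T2.l3) T2.l3) (xb T2.l0 T2.l3))) (xk (xa T2.l3 T2.l3) (xa T2.l3 T2.l3))) (xb (xk (xa (xb (xk (xa T2.l3 T2.l3) (xa T2.l3 T2.l3)) T2.l3) (xb (xk (xa (xb T2.l3 T2.l3) (xb T2.l3 T2.l3)) (xa (xb T2.l3 T2.l3) (xb T2.l3 T2.l3))) (xk (xa T2.l3 (xb T2.l3 T2.l3)) (xa T2.l3 T2.l3)))) (xa (xb (xk (xa T2.l3 T2.l3) (xa T2.l3 T2.l3)) T2.l3) (xb (xk (xa (xb T2.l3 T2.l3) (xb T2.l3 T2.l3)) (xa (xb T2.l3 T2.l3) (xb T2.l3 T2.l3))) (xk T2.l3 T2.l3)))) (xk (xa (xb T2.l3 (xk T2.l3 T2.l3)) (xb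 (xk (xa T2.l3 (xb T2.l3 T2.l3)) (xa T2.l3 (xb T2.l3 T2.l3))) (xk (xa T2.l3 (xb T2.l3 T2.l3)) (xa T2.l3 (xb T2.l3 T2.l3))))) (xa (xb T2.l3 T2.l3) (xb (xk (xa T2.l3 T2.l3) T2.l3) (xk (xa T2.l3 (xs T2.l3 T2.l3)) (xa T2.l3 (xs T2.l3 T2.l3)))))))) = true := by decide +kernel
theorem c0_4_5 : chkTag sI cl7 cl7 cl13 t0 b0_4 (tg false true false RT.r4) (I.pos (nat_lit 0) (nat_lit 0))
  (xk (xa (xb T0.l2 T0.l2) (xb (xa T0.l2 T0.l2) (xa T0.l2 T0.l2))) (xa T0.l2 (xb (xa T0.l2 T0.l2) (xa T0.l2 T0.l2)))) = true := by decide +kernel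
theorem c0_4_6 : chkTag sI cl7 cl7 cl13 t2 b0_4 (Tag.mk false false false RT.tl RT.r5) (I.mix (nat_lit 29511666) (nat_lit 77433728))
  (xR T2.l4 (xR T2.l4 (xR T2.l4 (xk (xb T2.l4 T2.l4) T2.l4)))) = true := by decide +kernel
theorem c0_4_7 : chkTag sI cl7 cl7 cl13 t0 b0_4 (Tag.mk false true false RT.tl RT.r6) (I.mix (nat_lit 29511666) (nat_lit 46070178))
  T0.l3 = true := by decide +kernel
theorem bx0_4 : BoxOK sI cl7 cl7 cl13 t0 t2 b0_4 :=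
  box_mk' [(tg true true false RT.r2), (tg true false false RT.r3), (Tag.mk true true false RT.tl RT.r4), (Tag.mk true false false RT.tl RT.r5), (tg false false false RT.r3), (tg false true false RT.r4), (Tag.mk false false false RT.tl RT.r5), (Tag.mk false true false RT.tl RT.r6)] rfl (allL_c (ex_mk c0_4_0) (allL_c (ex_mk c0_4_1) (allL_c (ex_mk c0_4_2) (allL_c (ex_mk c0_4_3) (allL_c (ex_mk c0_4_4) (allL_c (ex_mk c0_4_5) (allL_c (ex_mk c0_4_6) (allL_c (ex_mk c0_4_7) allL_n))))))))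
theorem bx0_5 : BoxOK sI cl7 cl7 cl13 t0 t2 b0_5 :=
  box_mk (TrL.c (I.pos (nat_lit 0) (nat_lit 0)) (xa (xb T0.l4 T0.l4) (xb T0.l0 T0.l4))
  (TrL.c (I.pos (nat_lit 0) (nat_lit 0)) T2.l1
  (TrL.c (I.pos (nat_lit 0) (nat_lit 111196574)) T0.l1
  (TrL.c (I.pos (nat_lit 0) (nat_lit 77433728)) T2.l2
  (TrL.c (I.pos (nat_lit 0) (nat_lit 0)) (xa (xk T2.l5 T2.l5) (xk (xb T2.l5 T2.l5) (xb T2.l5 T2.l5)))
  (TrL.c (I.pos (nat_lit 0) (nat_lit 0)) T0.l2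
  (TrL.c (I.mix (nat_lit 29511666) (nat_lit 77433728)) T2.l4
  (TrL.c (I.mix (nat_lit 29511666) (nat_lit 46070178)) T0.l3
  TrL.n)))))))) (by decide +kernel)
theorem bx0_6 : BoxOK sI cl7 cl7 cl13 t0 t2 b0_6 :=
  box_mk (TrL.c (I.pos (nat_lit 0) (nat_lit 0)) (xa (xa (xb T0.l4 T0.l4) T0.l4) T0.l4)
  (TrL.c (I.pos (nat_lit 0) (nat_lit 0)) (xa T2.l1 T2.l1)
  (TrL.c (I.pos (nat_lit 0) (nat_lit 111196574)) T0.l1
  (TrL.c (I.pos (nat_lit 0) (nat_lit 77433728)) T2.l2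
  (TrL.c (I.pos (nat_lit 0) (nat_lit 0)) (xa T2.l1 T2.l5)
  (TrL.c (I.pos (nat_lit 0) (nat_lit 0)) T0.l2
  (TrL.c (I.mix (nat_lit 29511666) (nat_lit 77433728)) T2.l4
  (TrL.c (I.mix (nat_lit 29511666) (nat_lit 46070178)) T0.l3
  TrL.n)))))))) (by decide +kernel)
theorem bx0_7 : BoxOK sI cl7 cl7 cl13 t0 t2 b0_7 :=
  box_mk (TrL.c (I.pos (nat_lit 0) (nat_lit 0)) (xb (xa (xb T0.l11 (xa T0.l11 T0.l11)) (xb T0.l11 T0.l11)) (xa (xb (xa T0.l11 T0.l11) (xa (xs T0.l11 T0.l11) (xs T0.l11 T0.l11))) (xb (xa T0.l11 T0.l11) (xa (xs T0.l11 T0.l11) T0.l11))))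
  (TrL.c (I.pos (nat_lit 0) (nat_lit 0)) (xb (xk (xa T2.l1 T2.l1) (xa T2.l1 T2.l1)) (xk (xa T2.l1 T2.l1) (xa T2.l1 T2.l1)))
  (TrL.c (I.pos (nat_lit 0) (nat_lit 111196574)) (xR T0.l1 T0.l1)
  (TrL.c (I.pos (nat_lit 0) (nat_lit 77433728)) T2.l2
  (TrL.c (I.pos (nat_lit 0) (nat_lit 0)) (xb (xk (xa (xb T2.l11 T2.l11) (xb T2.l11 T2.l11)) (xa T2.l11 (xb T2.l11 T2.l11))) (xk (xa T2.l11 (xb T2.l11 (xs T2.l11 (xk T2.l11 T2.l11)))) (xa (xb T2.l11 T2.l11) (xb T2.l11 (xs T2.l11 (xk (xb T2.l11 T2.l11) (xb T2.l11 T2.l11)))))))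
  (TrL.c (I.pos (nat_lit 0) (nat_lit 0)) (xk T0.l2 T0.l2)
  (TrL.c (I.mix (nat_lit 29511666) (nat_lit 77433728)) (xR T2.l4 T2.l4)
  (TrL.c (I.mix (nat_lit 29511666) (nat_lit 46070178)) T0.l3
  TrL.n)))))))) (by decide +kernel)
theorem bx0_8 : BoxOK sI cl7 cl7 cl13 t0 t2 b0_8 :=
  box_mk (TrL.c (I.pos (nat_lit 0) (nat_lit 0)) (xa (xa (xb T0.l4 (xa T0.l4 T0.l4)) (xb T0.l4 T0.l4)) (xa T0.l4 (xb T0.l4 (xa T0.l4 T0.l4))))
  (TrL.c (I.pos (nat_lit 0) (nat_lit 0)) (xa T2.l1 T2.l1)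
  (TrL.c (I.pos (nat_lit 0) (nat_lit 111196574)) (xR T0.l1 T0.l1)
  (TrL.c (I.pos (nat_lit 0) (nat_lit 77433728)) T2.l2
  (TrL.c (I.pos (nat_lit 0) (nat_lit 0)) (xa (xa T2.l1 T2.l5) T2.l5)
  (TrL.c (I.pos (nat_lit 0) (nat_lit 0)) T0.l2
  (TrL.c (I.mix (nat_lit 29511666) (nat_lit 77433728)) (xR T2.l4 T2.l4)
  (TrL.c (I.mix (nat_lit 29511666) (nat_lit 46070178)) T0.l3
  TrL.n)))))))) (by decide +kernel)
theorem bx0_9 : BoxOK sI cl7 cl7 cl13 t0 t2 b0_9 :=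
  box_mk (TrL.c (I.pos (nat_lit 0) (nat_lit 0)) (xa (xb (xa T0.l0 T0.l11) (xa T0.l11 T0.l11)) T0.l0)
  (TrL.c (I.pos (nat_lit 0) (nat_lit 0)) (xa T2.l1 T2.l1)
  (TrL.c (I.pos (nat_lit 0) (nat_lit 111196574)) (xR T0.l1 T0.l1)
  (TrL.c (I.pos (nat_lit 0) (nat_lit 77433728)) T2.l2
  (TrL.c (I.pos (nat_lit 0) (nat_lit 0)) (xk (xa (xb T2.l11 T2.l11) (xb (xa T2.l11 (xk T2.l3 T2.l11)) T2.l11)) (xa (xb (xa T2.l11 T2.l11) T2.l11) (xb (xa T2.l11 (xk T2.l11 T2.l3)) T2.l11)))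
  (TrL.c (I.pos (nat_lit 0) (nat_lit 0)) (xk T0.l2 T0.l2)
  (TrL.c (I.mix (nat_lit 29511666) (nat_lit 77433728)) (xR T2.l4 T2.l4)
  (TrL.c (I.mix (nat_lit 29511666) (nat_lit 46070178)) T0.l3
  TrL.n)))))))) (by decide +kernel)
theorem bx0_10 : BoxOK sI cl7 cl7 cl13 t0 t2 b0_10 :=
  box_mk (TrL.c (I.pos (nat_lit 0) (nat_lit 0)) (xb T0.l11 (xa T0.l11 T0.l11))
  (TrL.c (I.pos (nat_lit 0) (nat_lit 0)) (xk (xb T2.l1 T2.l1) T2.l1)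
  (TrL.c (I.pos (nat_lit 0) (nat_lit 111196574)) (xR T0.l1 T0.l1)
  (TrL.c (I.pos (nat_lit 0) (nat_lit 77433728)) T2.l2
  (TrL.c (I.pos (nat_lit 0) (nat_lit 0)) (xk (xb (xa T2.l11 T2.l11) T2.l11) (xb (xa T2.l11 T2.l11) T2.l11))
  (TrL.c (I.pos (nat_lit 0) (nat_lit 0)) T0.l2
  (TrL.c (I.mix (nat_lit 29511666) (nat_lit 77433728)) (xR T2.l4 T2.l4)
  (TrL.c (I.mix (nat_lit 29511666) (nat_lit 46070178)) T0.l3
  TrL.n)))))))) (by decide +kernel)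
theorem bx0_11 : BoxOK sI cl7 cl7 cl13 t0 t2 b0_11 :=
  box_mk (TrL.c (I.pos (nat_lit 0) (nat_lit 0)) (xa (xb (xa T0.l11 T0.l0) (xa (xb T0.l0 T0.l0) (xb T0.l0 T0.l0))) (xb (xa T0.l0 T0.l0) (xa (xb T0.l0 T0.l0) (xb T0.l0 T0.l0))))
  (TrL.c (I.pos (nat_lit 0) (nat_lit 0)) (xk (xa (xb T2.l1 T2.l1) (xb T2.l1 T2.l1)) (xa T2.l1 (xb T2.l1 T2.l1)))
  (TrL.c (I.pos (nat_lit 0) (nat_lit 111196574)) (xR T0.l1 T0.l1)
  (TrL.c (I.pos (nat_lit 0) (nat_lit 77433728)) (xR T2.l2 T2.l2)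
  (TrL.c (I.pos (nat_lit 0) (nat_lit 0)) (xk (xa (xb T2.l3 T2.l3) (xb T2.l3 (xk T2.l3 T2.l3))) (xa (xb T2.l3 T2.l3) (xb T2.l3 (xk T2.l3 T2.l3))))
  (TrL.c (I.pos (nat_lit 0) (nat_lit 0)) (xk T0.l2 T0.l2)
  (TrL.c (I.mix (nat_lit 29511666) (nat_lit 77433728)) (xR T2.l4 (xR T2.l4 T2.l4))
  (TrL.c (I.mix (nat_lit 29511666) (nat_lit 46070178)) T0.l3
  TrL.n)))))))) (by decide +kernel)
theorem sv0 : StarV sI cl7 cl7 cl13 t0 t2 t0 :=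
  (bt_n (bt_n (bt_n (bt_b bx0_0) (bt_n (bt_b bx0_1) (bt_b bx0_2))) (bt_n (bt_b bx0_3) (bt_n (bt_b bx0_4) (bt_b bx0_5)))) (bt_n (bt_n (bt_b bx0_6) (bt_n (bt_b bx0_7) (bt_b bx0_8))) (bt_n (bt_b bx0_9) (bt_n (bt_b bx0_10) (bt_b bx0_11)))))
def S0 : StarD := StarD.mk cl7 cl7 cl13 0 2 t0
theorem bx1_0 : BoxOK sI cl7 cl13 cl7 t2 t0 b1_0 :=
  box_mk (TrL.c (I.pos (nat_lit 0) (nat_lit 0)) (xa (xb (xa (xb T2.l0 T2.l0) (xb T2.l0 T2.l0)) (xa (xb (xa T2.l0 T2.l0) (xa T2.l0 T2.l0)) (xb T2.l0 (xa T2.l0 T2.l0)))) (xb (xa (xb T2.l0 T2.l0) T2.l0) (xa (xb T2.l0 (xa T2.l0 T2.l0)) (xb T2.l0 (xa T2.l0 T2.l0)))))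
  (TrL.c (I.pos (nat_lit 0) (nat_lit 0)) (xa (xk (xb T0.l5 (xa T0.l5 T0.l5)) (xb T0.l5 (xa T0.l5 T0.l5))) (xk (xb (xa T0.l5 T0.l5) (xa T0.l5 (xk T0.l5 T0.l5))) (xb T0.l5 (xa T0.l5 T0.l5))))
  (TrL.c (I.pos (nat_lit 0) (nat_lit 111196574)) (xR T2.l6 T2.l6)
  (TrL.c (I.pos (nat_lit 0) (nat_lit 77433728)) (xR T0.l6 (xR T0.l6 T0.l6))
  (TrL.c (I.pos (nat_lit 0) (nat_lit 0)) (xa (xk (xb T0.l7 (xa T0.l7 T0.l7)) (xb (xa T0.l7 T0.l7) (xa T0.l7 T0.l7))) (xk (xb (xa T0.l7 (xk T0.l7 T0.l7)) (xa T0.l7 (xk (xb T0.l7 T0.l7) T0.l7))) (xb (xa T0.l7 T0.l7) (xa T0.l7 (xk T0.l7 T0.l7)))))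
  (TrL.c (I.pos (nat_lit 0) (nat_lit 0)) (xk (xa T2.l7 T2.l7) (xa T2.l7 T2.l7))
  (TrL.c (I.mix (nat_lit 29511666) (nat_lit 77433728)) (xR T0.l8 (xR T0.l8 (xR T0.l8 T0.l8)))
  (TrL.c (I.mix (nat_lit 29511666) (nat_lit 46070178)) T2.l8
  TrL.n)))))))) (by decide +kernel)
theorem bx1_1 : BoxOK sI cl7 cl13 cl7 t2 t0 b1_1 :=
  box_mk (TrL.c (I.pos (nat_lit 0) (nat_lit 0)) (xa T2.l9 T2.l9)
  (TrL.c (I.pos (nat_lit 0) (nat_lit 0)) (xa T0.l5 T0.l5)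
  (TrL.c (I.pos (nat_lit 0) (nat_lit 111196574)) (xR T2.l6 T2.l6)
  (TrL.c (I.pos (nat_lit 0) (nat_lit 77433728)) T0.l6
  (TrL.c (I.pos (nat_lit 0) (nat_lit 0)) (xa (xk T0.l9 T0.l9) (xk (xb (xa T0.l9 T0.l9) T0.l9) (xb T0.l9 T0.l9)))
  (TrL.c (I.pos (nat_lit 0) (nat_lit 0)) T2.l7
  (TrL.c (I.mix (nat_lit 29511666) (nat_lit 77433728)) (xR T0.l8 T0.l8)
  (TrL.c (I.mix (nat_lit 29511666) (nat_lit 46070178)) T2.l8
  TrL.n)))))))) (by decide +kernel)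
theorem bx1_2 : BoxOK sI cl7 cl13 cl7 t2 t0 b1_2 :=
  box_mk (TrL.c (I.pos (nat_lit 0) (nat_lit 0)) (xa (xa (xb T2.l9 (xa T2.l9 T2.l9)) T2.l9) (xa T2.l9 (xa T2.l9 T2.l9)))
  (TrL.c (I.pos (nat_lit 0) (nat_lit 0)) (xa (xa T0.l5 T0.l5) (xa T0.l5 T0.l5))
  (TrL.c (I.pos (nat_lit 0) (nat_lit 111196574)) (xR T2.l6 T2.l6)
  (TrL.c (I.pos (nat_lit 0) (nat_lit 77433728)) T0.l6
  (TrL.c (I.pos (nat_lit 0) (nat_lit 0)) (xa (xa T0.l9 T0.l9) T0.l9)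
  (TrL.c (I.pos (nat_lit 0) (nat_lit 0)) T2.l7
  (TrL.c (I.mix (nat_lit 29511666) (nat_lit 77433728)) (xR T0.l8 T0.l8)
  (TrL.c (I.mix (nat_lit 29511666) (nat_lit 46070178)) T2.l8
  TrL.n)))))))) (by decide +kernel)
theorem bx1_3 : BoxOK sI cl7 cl13 cl7 t2 t0 b1_3 :=
  box_mk (TrL.c (I.pos (nat_lit 0) (nat_lit 0)) (xa (xa T2.l9 T2.l9) T2.l9)
  (TrL.c (I.pos (nat_lit 0) (nat_lit 0)) (xa (xa T0.l9 T0.l5) T0.l5)
  (TrL.c (I.pos (nat_lit 0) (nat_lit 111196574)) T2.l6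
  (TrL.c (I.pos (nat_lit 0) (nat_lit 77433728)) T0.l6
  (TrL.c (I.pos (nat_lit 0) (nat_lit 0)) (xa (xa T0.l5 T0.l9) T0.l9)
  (TrL.c (I.pos (nat_lit 0) (nat_lit 0)) T2.l7
  (TrL.c (I.mix (nat_lit 29511666) (nat_lit 77433728)) T0.l8
  (TrL.c (I.mix (nat_lit 29511666) (nat_lit 46070178)) T2.l4
  TrL.n)))))))) (by decide +kernel)
theorem bx1_4 : BoxOK sI cl7 cl13 cl7 t2 t0 b1_4 :=
  box_mk (TrL.c (I.pos (nat_lit 0) (nat_lit 0)) (xb (xa (xb T2.l10 T2.l10) (xb (xb T2.l10 T2.l10) T2.l10)) (xa (xb T2.l10 (xa T2.l10 T2.l10)) (xb T2.l10 (xa T2.l10 T2.l10))))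
  (TrL.c (I.pos (nat_lit 0) (nat_lit 0)) (xb (xk (xa T0.l5 T0.l5) (xa T0.l5 T0.l5)) (xk (xa T0.l5 (xk T0.l5 T0.l5)) (xa T0.l5 T0.l5)))
  (TrL.c (I.pos (nat_lit 0) (nat_lit 111196574)) (xR T2.l6 T2.l6)
  (TrL.c (I.pos (nat_lit 0) (nat_lit 77433728)) (xR T0.l6 T0.l6)
  (TrL.c (I.pos (nat_lit 0) (nat_lit 0)) (xb (xk (xa (xb T0.l10 T0.l10) (xb T0.l10 T0.l10)) (xa T0.l10 (xb T0.l10 T0.l10))) (xk (xa T0.l10 (xb T0.l10 T0.l7)) (xa T0.l7 (xb T0.l10 T0.l10))))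
  (TrL.c (I.pos (nat_lit 0) (nat_lit 0)) (xk T2.l7 T2.l7)
  (TrL.c (I.mix (nat_lit 29511666) (nat_lit 77433728)) (xR T0.l8 (xR T0.l8 T0.l8))
  (TrL.c (I.mix (nat_lit 29511666) (nat_lit 46070178)) T2.l8
  TrL.n)))))))) (by decide +kernel)
theorem bx1_5 : BoxOK sI cl7 cl13 cl7 t2 t0 b1_5 :=
  box_mk (TrL.c (I.pos (nat_lit 0) (nat_lit 0)) (xb T2.l9 T2.l9)
  (TrL.c (I.pos (nat_lit 0) (nat_lit 0)) (xb T0.l5 T0.l5)
  (TrL.c (I.pos (nat_lit 0) (nat_lit 111196574)) T2.l6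
  (TrL.c (I.pos (nat_lit 0) (nat_lit 77433728)) T0.l6
  (TrL.c (I.pos (nat_lit 0) (nat_lit 0)) (xb (xk (xa T0.l9 T0.l9) (xa T0.l9 T0.l9)) (xk T0.l9 T0.l9))
  (TrL.c (I.pos (nat_lit 0) (nat_lit 0)) T2.l7
  (TrL.c (I.mix (nat_lit 29511666) (nat_lit 77433728)) T0.l8
  (TrL.c (I.mix (nat_lit 29511666) (nat_lit 46070178)) T2.l8
  TrL.n)))))))) (by decide +kernel)
theorem bx1_6 : BoxOK sI cl7 cl13 cl7 t2 t0 b1_6 :=
  box_mk (TrL.c (I.pos (nat_lit 0) (nat_lit 0)) (xa (xa (xb T2.l9 (xa T2.l9 T2.l9)) T2.l9) (xa T2.l9 (xb T2.l9 (xa T2.l9 T2.l9))))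
  (TrL.c (I.pos (nat_lit 0) (nat_lit 0)) (xa (xa T0.l5 T0.l5) (xa T0.l5 T0.l5))
  (TrL.c (I.pos (nat_lit 0) (nat_lit 111196574)) (xR T2.l6 T2.l6)
  (TrL.c (I.pos (nat_lit 0) (nat_lit 77433728)) T0.l6
  (TrL.c (I.pos (nat_lit 0) (nat_lit 0)) (xa (xa T0.l9 T0.l9) T0.l9)
  (TrL.c (I.pos (nat_lit 0) (nat_lit 0)) T2.l7
  (TrL.c (I.mix (nat_lit 29511666) (nat_lit 77433728)) (xR T0.l8 T0.l8)
  (TrL.c (I.mix (nat_lit 29511666) (nat_lit 46070178)) T2.l8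
  TrL.n)))))))) (by decide +kernel)
theorem bx1_7 : BoxOK sI cl7 cl13 cl7 t2 t0 b1_7 :=
  box_mk (TrL.c (I.pos (nat_lit 0) (nat_lit 0)) (xa (xa T2.l9 T2.l9) T2.l9)
  (TrL.c (I.pos (nat_lit 0) (nat_lit 0)) (xa (xa T0.l9 T0.l5) T0.l5)
  (TrL.c (I.pos (nat_lit 0) (nat_lit 111196574)) T2.l6
  (TrL.c (I.pos (nat_lit 0) (nat_lit 77433728)) T0.l6
  (TrL.c (I.pos (nat_lit 0) (nat_lit 0)) (xa (xa T0.l5 T0.l9) T0.l9)
  (TrL.c (I.pos (nat_lit 0) (nat_lit 0)) T2.l7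
  (TrL.c (I.mix (nat_lit 29511666) (nat_lit 77433728)) T0.l8
  (TrL.c (I.mix (nat_lit 29511666) (nat_lit 46070178)) T2.l4
  TrL.n)))))))) (by decide +kernel)
theorem c1_8_0 : chkTag sI cl7 cl13 cl7 t2 b1_8 (tg true true false RT.r2) (I.pos (nat_lit 0) (nat_lit 0))
  (xa (xb (xa T2.l0 T2.l0) (xa (xb T2.l0 T2.l0) (xb T2.l0 T2.l0))) (xb (xa T2.l0 (xb T2.l0 T2.l0)) (xa (xb T2.l0 T2.l0) (xb T2.l0 (xa T2.l0 T2.l0))))) = true := by decide +kernel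
theorem c1_8_1 : chkTag sI cl7 cl13 cl7 t0 b1_8 (tg true false false RT.r3) (I.pos (nat_lit 0) (nat_lit 0))
  (xa (xb (xk (xa T0.l5 T0.l5) T0.l5) (xk (xa T0.l5 (xb T0.l5 T0.l5)) T0.l5)) (xk (xb T0.l2 (xa T0.l2 (xk T0.l2 T0.l2))) (xb (xa (xb T0.l5 T0.l5) T0.l2) (xa (xb T0.l5 T0.l5) T0.l2)))) = true := by decide +kernel
theorem c1_8_2 : chkTag sI cl7 cl13 cl7 t2 b1_8 (Tag.mk true true false RT.tl RT.r4) (I.pos (nat_lit 0) (nat_lit 111196574))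
  (xR T2.l6 (xR T2.l6 T2.l6)) = true := by decide +kernel
theorem c1_8_3 : chkTag sI cl7 cl13 cl7 t0 b1_8 (Tag.mk true false false RT.tl RT.r5) (I.pos (nat_lit 0) (nat_lit 77433728))
  (xR T0.l6 (xR T0.l6 (xR T0.l6 (xa T0.l6 T0.l6)))) = true := by decide +kernel
theorem c1_8_4 : chkTag sI cl7 cl13 cl7 t0 b1_8 (tg false false false RT.r3) (I.pos (nat_lit 0) (nat_lit 0))
  (xa (xb (xk (xa (xb T0.l7 T0.l7) (xb (xk T0.l7 T0.l7) T0.l7)) (xa (xb T0.l7 T0.l7) (xb (xk T0.l7 T0.l7) T0.l7))) (xk (xa T0.l7 T0.l7) (xa T0.l7 T0.l7))) (xb (xk (xa (xb (xk (xa T0.l7 T0.l7) (xa T0.l7 T0.l7)) T0.l7) (xb (xk (xa T0.l7 (xb T0.l7 T0.l7)) (xa T0.l7 (xb T0.l7 T0.l7))) (xk T0.l7 T0.l7))) (xa (xb (xk (xa T0.l7 T0.l7) (xa T0.l7 T0.l7)) T0.l7) (xb (xk (xa T0.l7 (xb T0.l7 T0.l7)) (xa T0.l7 (xb T0.l7 T0.l7))) (xk T0.l7 T0.l7)))) (xk (xa (xb T0.l7 (xk T0.l7 T0.l7))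 (xb (xk (xa T0.l7 T0.l7) (xa T0.l7 T0.l7)) (xk (xa T0.l7 (xb T0.l7 T0.l7)) (xa T0.l7 (xb T0.l7 T0.l7))))) (xa (xb T0.l7 T0.l7) (xb (xk (xa T0.l7 T0.l7) (xa T0.l7 T0.l7)) (xk (xa T0.l7 (xb T0.l7 T0.l7)) (xa T0.l7 (xb T0.l7 T0.l7)))))))) = true := by decide +kernel
theorem c1_8_5 : chkTag sI cl7 cl13 cl7 t2 b1_8 (tg false true false RT.r4) (I.pos (nat_lit 0) (nat_lit 0))
  (xa (xk (xb T2.l7 T2.l7) (xb T2.l7 T2.l7)) (xk (xb (xa T2.l1 (xk T2.l7 T2.l7)) (xa T2.l7 (xk T2.l7 T2.l7))) (xb (xa T2.l7 (xk T2.l7 T2.l7)) (xa T2.l7 T2.l7)))) = true := by decide +kernel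
theorem c1_8_6 : chkTag sI cl7 cl13 cl7 t0 b1_8 (Tag.mk false false false RT.tl RT.r5) (I.mix (nat_lit 29511666) (nat_lit 77433728))
  (xR T0.l8 (xR T0.l8 (xR T0.l8 (xk (xa T0.l8 T0.l8) T0.l8)))) = true := by decide +kernel
theorem c1_8_7 : chkTag sI cl7 cl13 cl7 t2 b1_8 (Tag.mk false true false RT.tl RT.r6) (I.mix (nat_lit 29511666) (nat_lit 46070178))
  T2.l8 = true := by decide +kernel
theorem bx1_8 : BoxOK sI cl7 cl13 cl7 t2 t0 b1_8 :=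
  box_mk' [(tg true true false RT.r2), (tg true false false RT.r3), (Tag.mk true true false RT.tl RT.r4), (Tag.mk true false false RT.tl RT.r5), (tg false false false RT.r3), (tg false true false RT.r4), (Tag.mk false false false RT.tl RT.r5), (Tag.mk false true false RT.tl RT.r6)] rfl (allL_c (ex_mk c1_8_0) (allL_c (ex_mk c1_8_1) (allL_c (ex_mk c1_8_2) (allL_c (ex_mk c1_8_3) (allL_c (ex_mk c1_8_4) (allL_c (ex_mk c1_8_5) (allL_c (ex_mk c1_8_6) (allL_c (ex_mk c1_8_7) allL_n))))))))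
theorem bx1_9 : BoxOK sI cl7 cl13 cl7 t2 t0 b1_9 :=
  box_mk (TrL.c (I.pos (nat_lit 0) (nat_lit 0)) (xa (xb T2.l0 T2.l10) T2.l0)
  (TrL.c (I.pos (nat_lit 0) (nat_lit 0)) (xa T0.l5 (xb T0.l5 T0.l5))
  (TrL.c (I.pos (nat_lit 0) (nat_lit 111196574)) (xR T2.l6 T2.l6)
  (TrL.c (I.pos (nat_lit 0) (nat_lit 77433728)) T0.l6
  (TrL.c (I.pos (nat_lit 0) (nat_lit 0)) (xk (xa (xb (xa T0.l9 T0.l10) T0.l10) (xb (xk (xa T0.l10 T0.l7) (xa T0.l10 T0.l7)) T0.l10)) (xa (xb (xa T0.l9 T0.l10) T0.l10) (xb (xa T0.l10 T0.l7) T0.l10)))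
  (TrL.c (I.pos (nat_lit 0) (nat_lit 0)) (xk T2.l7 T2.l7)
  (TrL.c (I.mix (nat_lit 29511666) (nat_lit 77433728)) (xR T0.l8 T0.l8)
  (TrL.c (I.mix (nat_lit 29511666) (nat_lit 46070178)) T2.l8
  TrL.n)))))))) (by decide +kernel)
theorem bx1_10 : BoxOK sI cl7 cl13 cl7 t2 t0 b1_10 :=
  box_mk (TrL.c (I.pos (nat_lit 0) (nat_lit 0)) (xa (xb (xa T2.l0 T2.l0) (xa (xb T2.l0 T2.l0) (xb T2.l0 T2.l0))) (xb (xa T2.l0 T2.l0) (xa (xb T2.l0 T2.l0) (xb T2.l0 T2.l0))))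
  (TrL.c (I.pos (nat_lit 0) (nat_lit 0)) (xk (xa (xb T0.l5 (xk T0.l5 T0.l5)) (xb (xk T0.l5 T0.l5) (xk T0.l5 T0.l5))) (xa (xb T0.l5 T0.l5) (xb T0.l5 (xa T0.l5 T0.l5))))
  (TrL.c (I.pos (nat_lit 0) (nat_lit 111196574)) (xR T2.l6 T2.l6)
  (TrL.c (I.pos (nat_lit 0) (nat_lit 77433728)) (xR T0.l6 T0.l6)
  (TrL.c (I.pos (nat_lit 0) (nat_lit 0)) (xk (xa (xb T0.l7 (xa T0.l7 T0.l7)) (xb (xa T0.l7 T0.l7) (xk (xa T0.l7 T0.l7) T0.l7))) (xa (xb T0.l7 T0.l7) (xb (xa T0.l7 T0.l7) (xa T0.l7 T0.l7))))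
  (TrL.c (I.pos (nat_lit 0) (nat_lit 0)) (xk (xa T2.l7 T2.l7) T2.l7)
  (TrL.c (I.mix (nat_lit 29511666) (nat_lit 77433728)) (xR T0.l8 (xR T0.l8 T0.l8))
  (TrL.c (I.mix (nat_lit 29511666) (nat_lit 46070178)) T2.l8
  TrL.n)))))))) (by decide +kernel)
theorem bx1_11 : BoxOK sI cl7 cl13 cl7 t2 t0 b1_11 :=
  box_mk (TrL.c (I.pos (nat_lit 0) (nat_lit 0)) (xa (xb T2.l10 T2.l10) (xb T2.l10 T2.l10))
  (TrL.c (I.pos (nat_lit 0) (nat_lit 0)) (xk (xb T0.l5 T0.l5) (xb T0.l5 T0.l5))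
  (TrL.c (I.pos (nat_lit 0) (nat_lit 111196574)) (xR T2.l6 T2.l6)
  (TrL.c (I.pos (nat_lit 0) (nat_lit 77433728)) T0.l6
  (TrL.c (I.pos (nat_lit 0) (nat_lit 0)) (xk (xb (xa T0.l10 T0.l10) T0.l10) (xb (xa T0.l10 T0.l10) T0.l10))
  (TrL.c (I.pos (nat_lit 0) (nat_lit 0)) T2.l7
  (TrL.c (I.mix (nat_lit 29511666) (nat_lit 77433728)) (xR T0.l8 T0.l8)
  (TrL.c (I.mix (nat_lit 29511666) (nat_lit 46070178)) T2.l8
  TrL.n)))))))) (by decide +kernel)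
theorem sv1 : StarV sI cl7 cl13 cl7 t2 t0 t1 :=
  (bt_n (bt_n (bt_n (bt_b bx1_0) (bt_n (bt_b bx1_1) (bt_b bx1_2))) (bt_n (bt_b bx1_3) (bt_n (bt_b bx1_4) (bt_b bx1_5)))) (bt_n (bt_n (bt_b bx1_6) (bt_n (bt_b bx1_7) (bt_b bx1_8))) (bt_n (bt_b bx1_9) (bt_n (bt_b bx1_10) (bt_b bx1_11)))))
def S1 : StarD := StarD.mk cl7 cl13 cl7 2 0 t1
theorem bx2_0 : BoxOK sI cl13 cl7 cl7 t1 t1 b2_0 :=
  box_mk (TrL.c (I.pos (nat_lit 0) (nat_lit 0)) (xa (xb (xa T1.l0 T1.l0) (xa (xb T1.l0 (xa T1.l0 T1.l0)) (xb T1.l0 T1.l0))) (xb (xa T1.l0 T1.l0) (xa (xb T1.l0 T1.l0) (xb T1.l0 T1.l0))))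
  (TrL.c (I.pos (nat_lit 0) (nat_lit 0)) (xa (xk (xb T1.l1 (xa T1.l1 T1.l1)) (xb T1.l1 (xa T1.l1 T1.l1))) (xk (xb T1.l1 (xa T1.l1 T1.l1)) (xb T1.l1 (xa T1.l1 T1.l1))))
  (TrL.c (I.pos (nat_lit 0) (nat_lit 134217730)) (xR T1.l2 T1.l2)
  (TrL.c (I.pos (nat_lit 0) (nat_lit 110514882)) (xR T1.l3 (xR T1.l3 T1.l3))
  (TrL.c (I.pos (nat_lit 0) (nat_lit 0)) (xa (xk (xb T1.l4 (xa T1.l4 T1.l4)) (xb T1.l4 (xa T1.l4 T1.l4))) (xk (xb (xa (xk T1.l4 T1.l4) (xk T1.l4 T1.l4)) (xa T1.l4 (xk (xb T1.l4 T1.l4) (xb T1.l4 (xs T1.l4 T1.l4))))) (xb (xa T1.l4 (xk T1.l4 T1.l4)) (xa (xb T1.l4 T1.l4) (xk (xb T1.l4 (xs T1.l4 T1.l4)) (xb T1.l4 (xs T1.l11 (xb T1.l11 T1.l11))))))))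
  (TrL.c (I.pos (nat_lit 0) (nat_lit 0)) (xk T1.l5 T1.l5)
  (TrL.c (I.mix (nat_lit 8088324) (nat_lit 110514882)) (xR T1.l6 (xR T1.l6 (xR T1.l6 T1.l6)))
  (TrL.c (I.mix (nat_lit 8088324) (nat_lit 89478486)) T1.l7
  TrL.n)))))))) (by decide +kernel)
theorem bx2_1 : BoxOK sI cl13 cl7 cl7 t1 t1 b2_1 :=
  box_mk (TrL.c (I.pos (nat_lit 0) (nat_lit 0)) (xa T1.l8 T1.l8)
  (TrL.c (I.pos (nat_lit 0) (nat_lit 0)) (xa T1.l1 T1.l1)
  (TrL.c (I.pos (nat_lit 0) (nat_lit 134217730)) (xR T1.l2 T1.l2)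
  (TrL.c (I.pos (nat_lit 0) (nat_lit 110514882)) T1.l3
  (TrL.c (I.pos (nat_lit 0) (nat_lit 0)) (xa (xk (xb T1.l9 T1.l9) (xb T1.l9 T1.l9)) (xk (xb (xa T1.l9 T1.l9) T1.l9) (xb (xa T1.l9 T1.l9) T1.l9)))
  (TrL.c (I.pos (nat_lit 0) (nat_lit 0)) T1.l5
  (TrL.c (I.mix (nat_lit 8088324) (nat_lit 110514882)) T1.l6
  (TrL.c (I.mix (nat_lit 8088324) (nat_lit 89478486)) T1.l7
  TrL.n)))))))) (by decide +kernel)
theorem bx2_2 : BoxOK sI cl13 cl7 cl7 t1 t1 b2_2 :=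
  box_mk (TrL.c (I.pos (nat_lit 0) (nat_lit 0)) (xa T1.l8 T1.l8)
  (TrL.c (I.pos (nat_lit 0) (nat_lit 0)) (xa T1.l1 T1.l1)
  (TrL.c (I.pos (nat_lit 0) (nat_lit 134217730)) T1.l2
  (TrL.c (I.pos (nat_lit 0) (nat_lit 110514882)) T1.l3
  (TrL.c (I.pos (nat_lit 0) (nat_lit 0)) (xa T1.l9 T1.l9)
  (TrL.c (I.pos (nat_lit 0) (nat_lit 0)) T1.l5
  (TrL.c (I.mix (nat_lit 8088324) (nat_lit 110514882)) T1.l6
  (TrL.c (I.mix (nat_lit 8088324) (nat_lit 89478486)) T1.l2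
  TrL.n)))))))) (by decide +kernel)
theorem bx2_3 : BoxOK sI cl13 cl7 cl7 t1 t1 b2_3 :=
  box_mk (TrL.c (I.pos (nat_lit 0) (nat_lit 0)) (xb (xa T1.l10 T1.l10) (xa (xb T1.l10 T1.l10) (xb T1.l10 T1.l10)))
  (TrL.c (I.pos (nat_lit 0) (nat_lit 0)) (xk (xb (xa T1.l1 T1.l1) (xa T1.l1 T1.l1)) (xb (xa T1.l1 T1.l1) (xa T1.l1 T1.l1)))
  (TrL.c (I.pos (nat_lit 0) (nat_lit 134217730)) (xR T1.l2 T1.l2)
  (TrL.c (I.pos (nat_lit 0) (nat_lit 110514882)) (xR T1.l3 T1.l3)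
  (TrL.c (I.pos (nat_lit 0) (nat_lit 0)) (xk (xb (xa T1.l11 (xb T1.l11 T1.l11)) (xa T1.l11 T1.l11)) (xb (xa T1.l11 T1.l11) (xa T1.l11 T1.l11)))
  (TrL.c (I.pos (nat_lit 0) (nat_lit 0)) T1.l5
  (TrL.c (I.mix (nat_lit 8088324) (nat_lit 110514882)) (xR T1.l6 (xR T1.l6 T1.l6))
  (TrL.c (I.mix (nat_lit 8088324) (nat_lit 89478486)) T1.l7
  TrL.n)))))))) (by decide +kernel)
theorem bx2_4 : BoxOK sI cl13 cl7 cl7 t1 t1 b2_4 :=
  box_mk (TrL.c (I.pos (nat_lit 0) (nat_lit 0)) (xa (xa (xb T1.l8 (xa T1.l8 T1.l8)) (xb T1.l8 T1.l8)) (xa T1.l8 T1.l8))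
  (TrL.c (I.pos (nat_lit 0) (nat_lit 0)) (xa (xa T1.l9 T1.l1) (xa T1.l1 T1.l1))
  (TrL.c (I.pos (nat_lit 0) (nat_lit 134217730)) T1.l2
  (TrL.c (I.pos (nat_lit 0) (nat_lit 110514882)) T1.l3
  (TrL.c (I.pos (nat_lit 0) (nat_lit 0)) (xa (xa T1.l1 T1.l9) T1.l9)
  (TrL.c (I.pos (nat_lit 0) (nat_lit 0)) T1.l5
  (TrL.c (I.mix (nat_lit 8088324) (nat_lit 110514882)) (xR T1.l6 T1.l6)
  (TrL.c (I.mix (nat_lit 8088324) (nat_lit 89478486)) T1.l3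
  TrL.n)))))))) (by decide +kernel)
theorem bx2_5 : BoxOK sI cl13 cl7 cl7 t1 t1 b2_5 :=
  box_mk (TrL.c (I.pos (nat_lit 0) (nat_lit 0)) (xa T1.l10 T1.l0)
  (TrL.c (I.pos (nat_lit 0) (nat_lit 0)) T1.l1
  (TrL.c (I.pos (nat_lit 0) (nat_lit 134217730)) (xR T1.l2 T1.l2)
  (TrL.c (I.pos (nat_lit 0) (nat_lit 110514882)) T1.l3
  (TrL.c (I.pos (nat_lit 0) (nat_lit 0)) (xk (xa (xb T1.l9 T1.l11) (xb T1.l4 T1.l11)) (xa (xb T1.l9 T1.l9) (xb T1.l4 T1.l11)))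
  (TrL.c (I.pos (nat_lit 0) (nat_lit 0)) T1.l5
  (TrL.c (I.mix (nat_lit 8088324) (nat_lit 110514882)) (xR T1.l6 T1.l6)
  (TrL.c (I.mix (nat_lit 8088324) (nat_lit 89478486)) T1.l7
  TrL.n)))))))) (by decide +kernel)
theorem bx2_6 : BoxOK sI cl13 cl7 cl7 t1 t1 b2_6 :=
  box_mk (TrL.c (I.pos (nat_lit 0) (nat_lit 0)) (xa (xa (xb T1.l8 T1.l8) T1.l8) (xa T1.l8 (xb T1.l8 T1.l8)))
  (TrL.c (I.pos (nat_lit 0) (nat_lit 0)) (xa (xa T1.l9 T1.l1) (xa T1.l1 T1.l1))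
  (TrL.c (I.pos (nat_lit 0) (nat_lit 134217730)) (xR T1.l2 T1.l2)
  (TrL.c (I.pos (nat_lit 0) (nat_lit 110514882)) T1.l3
  (TrL.c (I.pos (nat_lit 0) (nat_lit 0)) (xa (xa T1.l1 T1.l9) T1.l9)
  (TrL.c (I.pos (nat_lit 0) (nat_lit 0)) T1.l5
  (TrL.c (I.mix (nat_lit 8088324) (nat_lit 110514882)) (xR T1.l6 T1.l6)
  (TrL.c (I.mix (nat_lit 8088324) (nat_lit 89478486)) T1.l3
  TrL.n)))))))) (by decide +kernel)
theorem bx2_7 : BoxOK sI cl13 cl7 cl7 t1 t1 b2_7 :=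
  box_mk (TrL.c (I.pos (nat_lit 0) (nat_lit 0)) (xb T1.l8 T1.l8)
  (TrL.c (I.pos (nat_lit 0) (nat_lit 0)) T1.l1
  (TrL.c (I.pos (nat_lit 0) (nat_lit 134217730)) (xR T1.l2 T1.l2)
  (TrL.c (I.pos (nat_lit 0) (nat_lit 110514882)) T1.l3
  (TrL.c (I.pos (nat_lit 0) (nat_lit 0)) (xb (xk T1.l9 T1.l9) (xk T1.l9 T1.l9))
  (TrL.c (I.pos (nat_lit 0) (nat_lit 0)) T1.l5
  (TrL.c (I.mix (nat_lit 8088324) (nat_lit 110514882)) T1.l6
  (TrL.c (I.mix (nat_lit 8088324) (nat_lit 89478486)) T1.l7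
  TrL.n)))))))) (by decide +kernel)
theorem bx2_8 : BoxOK sI cl13 cl7 cl7 t1 t1 b2_8 :=
  box_mk (TrL.c (I.pos (nat_lit 0) (nat_lit 0)) (xa (xa T1.l8 T1.l8) T1.l8)
  (TrL.c (I.pos (nat_lit 0) (nat_lit 0)) (xa T1.l1 T1.l1)
  (TrL.c (I.pos (nat_lit 0) (nat_lit 134217730)) T1.l2
  (TrL.c (I.pos (nat_lit 0) (nat_lit 110514882)) T1.l6
  (TrL.c (I.pos (nat_lit 0) (nat_lit 0)) (xa T1.l9 T1.l9)
  (TrL.c (I.pos (nat_lit 0) (nat_lit 0)) T1.l5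
  (TrL.c (I.mix (nat_lit 8088324) (nat_lit 110514882)) T1.l6
  (TrL.c (I.mix (nat_lit 8088324) (nat_lit 89478486)) T1.l2
  TrL.n)))))))) (by decide +kernel)
theorem c2_9_0 : chkTag sI cl13 cl7 cl7 t1 b2_9 (tg true true false RT.r2) (I.pos (nat_lit 0) (nat_lit 0))
  (xa (xb T1.l0 (xa T1.l0 T1.l0)) (xb (xa T1.l0 T1.l0) (xa T1.l0 T1.l0))) = true := by decide +kernel
theorem c2_9_1 : chkTag sI cl13 cl7 cl7 t1 b2_9 (tg true false false RT.r3) (I.pos (nat_lit 0) (nat_lit 0))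
  (xa (xb (xk T1.l1 T1.l1) (xk (xa T1.l1 T1.l1) (xa T1.l1 T1.l1))) (xk (xb (xa T1.l1 T1.l1) (xa T1.l1 (xk T1.l1 T1.l1))) (xb T1.l5 (xa T1.l1 T1.l5)))) = true := by decide +kernel
theorem c2_9_2 : chkTag sI cl13 cl7 cl7 t1 b2_9 (Tag.mk true true false RT.tl RT.r4) (I.pos (nat_lit 0) (nat_lit 134217730))
  (xR T1.l2 T1.l2) = true := by decide +kernel
theorem c2_9_3 : chkTag sI cl13 cl7 cl7 t1 b2_9 (Tag.mk true false false RT.tl RT.r5) (I.pos (nat_lit 0) (nat_lit 110514882))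
  (xR T1.l3 (xR T1.l3 (xR T1.l3 T1.l3))) = true := by decide +kernel
theorem c2_9_4 : chkTag sI cl13 cl7 cl7 t1 b2_9 (tg false false false RT.r3) (I.pos (nat_lit 0) (nat_lit 0))
  (xa (xb (xk (xa (xb T1.l4 T1.l4) (xb (xk T1.l4 T1.l4) T1.l4)) (xa (xb T1.l4 T1.l4) (xb (xk T1.l4 T1.l4) T1.l4))) (xk (xa T1.l4 T1.l4) (xa T1.l4 T1.l4))) (xb (xk (xa (xb (xk (xa T1.l4 T1.l4) (xa T1.l4 T1.l4)) T1.l4) (xb (xk (xa (xb T1.l4 T1.l4) (xb T1.l4 T1.l4)) (xa T1.l4 (xb T1.l4 T1.l4))) (xk (xa T1.l4 T1.l4) (xa T1.l4 T1.l4)))) (xa (xb (xk (xa T1.l4 T1.l4) (xa T1.l4 T1.l4)) T1.l4) (xb (xk (xa T1.l4 (xb T1.l4 T1.l4)) (xa T1.l4 (xb T1.l4 T1.l4))) (xk T1.l4 T1.l4)))) (xk (xa (xk (xb T1.l4 T1.l4) T1.l4) (xb (xk (xa T1.l4 (xb T1.l4 T1.l4)) (xa T1.l4 T1.l4)) (xk (xa T1.l4 (xb T1.l4 T1.l4)) (xa T1.l4 (xs T1.l4 T1.l4))))) (xa (xb T1.l4 T1.l4) (xb (xk (xa T1.l4 T1.l4)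 (xa T1.l4 T1.l4)) (xk (xa T1.l4 (xs T1.l4 T1.l4)) (xa T1.l4 (xs T1.l4 T1.l4)))))))) = true := by decide +kernel
theorem c2_9_5 : chkTag sI cl13 cl7 cl7 t1 b2_9 (tg false true false RT.r4) (I.pos (nat_lit 0) (nat_lit 0))
  (xa (xk T1.l5 T1.l5) (xk (xb (xa T1.l5 T1.l5) (xa T1.l5 T1.l5)) (xb T1.l5 (xa T1.l5 T1.l5)))) = true := by decide +kernel
theorem c2_9_6 : chkTag sI cl13 cl7 cl7 t1 b2_9 (Tag.mk false false false RT.tl RT.r5) (I.mix (nat_lit 8088324) (nat_lit 110514882))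
  (xR T1.l6 (xR T1.l6 (xR T1.l6 (xk (xR T1.l6 T1.l6) T1.l6)))) = true := by decide +kernel
theorem c2_9_7 : chkTag sI cl13 cl7 cl7 t1 b2_9 (Tag.mk false true false RT.tl RT.r6) (I.mix (nat_lit 8088324) (nat_lit 89478486))
  T1.l7 = true := by decide +kernel
theorem bx2_9 : BoxOK sI cl13 cl7 cl7 t1 t1 b2_9 :=
  box_mk' [(tg true true false RT.r2), (tg true false false RT.r3), (Tag.mk true true false RT.tl RT.r4), (Tag.mk true false false RT.tl RT.r5), (tg false false false RT.r3), (tg false true false RT.r4), (Tag.mk false false false RT.tl RT.r5), (Tag.mk false true false RT.tl RT.r6)] rfl (allL_c (ex_mk c2_9_0) (allL_c (ex_mk c2_9_1) (allL_c (ex_mk c2_9_2) (allL_c (ex_mk c2_9_3) (allL_c (ex_mk c2_9_4) (allL_c (ex_mk c2_9_5) (allL_c (ex_mk c2_9_6) (allL_c (ex_mk c2_9_7) allL_n))))))))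
theorem bx2_10 : BoxOK sI cl13 cl7 cl7 t1 t1 b2_10 :=
  box_mk (TrL.c (I.pos (nat_lit 0) (nat_lit 0)) (xa (xb T1.l0 (xa T1.l0 T1.l0)) (xb T1.l0 (xa T1.l0 T1.l0)))
  (TrL.c (I.pos (nat_lit 0) (nat_lit 0)) (xk (xa (xb T1.l1 T1.l1) (xb T1.l1 T1.l1)) (xa T1.l1 T1.l1))
  (TrL.c (I.pos (nat_lit 0) (nat_lit 134217730)) (xR T1.l2 T1.l2)
  (TrL.c (I.pos (nat_lit 0) (nat_lit 110514882)) (xR T1.l3 T1.l3)
  (TrL.c (I.pos (nat_lit 0) (nat_lit 0)) (xk (xa T1.l4 (xb T1.l4 (xb T1.l4 T1.l4))) (xa T1.l4 (xb T1.l4 (xb T1.l4 (xs T1.l4 T1.l4)))))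
  (TrL.c (I.pos (nat_lit 0) (nat_lit 0)) T1.l5
  (TrL.c (I.mix (nat_lit 8088324) (nat_lit 110514882)) (xR T1.l6 (xR T1.l6 T1.l6))
  (TrL.c (I.mix (nat_lit 8088324) (nat_lit 89478486)) T1.l7
  TrL.n)))))))) (by decide +kernel)
theorem bx2_11 : BoxOK sI cl13 cl7 cl7 t1 t1 b2_11 :=
  box_mk (TrL.c (I.pos (nat_lit 0) (nat_lit 0)) (xb T1.l10 (xa T1.l10 T1.l10))
  (TrL.c (I.pos (nat_lit 0) (nat_lit 0)) (xk (xb T1.l1 T1.l1) (xb T1.l1 T1.l1))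
  (TrL.c (I.pos (nat_lit 0) (nat_lit 134217730)) (xR T1.l2 T1.l2)
  (TrL.c (I.pos (nat_lit 0) (nat_lit 110514882)) T1.l3
  (TrL.c (I.pos (nat_lit 0) (nat_lit 0)) (xk (xb (xa T1.l11 T1.l11) T1.l11) (xb (xa T1.l11 T1.l11) T1.l11))
  (TrL.c (I.pos (nat_lit 0) (nat_lit 0)) T1.l5
  (TrL.c (I.mix (nat_lit 8088324) (nat_lit 110514882)) (xR T1.l6 T1.l6)
  (TrL.c (I.mix (nat_lit 8088324) (nat_lit 89478486)) T1.l7
  TrL.n)))))))) (by decide +kernel)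
theorem sv2 : StarV sI cl13 cl7 cl7 t1 t1 t2 :=
  (bt_n (bt_n (bt_n (bt_b bx2_0) (bt_n (bt_b bx2_1) (bt_b bx2_2))) (bt_n (bt_b bx2_3) (bt_n (bt_b bx2_4) (bt_b bx2_5)))) (bt_n (bt_n (bt_b bx2_6) (bt_n (bt_b bx2_7) (bt_b bx2_8))) (bt_n (bt_b bx2_9) (bt_n (bt_b bx2_10) (bt_b bx2_11)))))
def S2 : StarD := StarD.mk cl13 cl7 cl7 1 1 t2
def G : List StarD := [S0, S1, S2]
theorem so0 : StarOK sI G S0 :=
  star_mk (by decide) (by decide) rfl rfl rfl rfl rfl rfl (rfl : _ = t0) (rfl : _ = t2)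
  (st_mk (Pth.l (Pth.l (Pth.l Pth.z))) (nat_lit 143097856) (nat_lit 163918262) (by decide +kernel))
  (st_mk (Pth.l (Pth.l (Pth.l Pth.z))) (nat_lit 176834345) (nat_lit 199973106) (by decide +kernel))
  (st_mk (Pth.l (Pth.l (Pth.l Pth.z))) (nat_lit 218095486) (nat_lit 241877277) (by decide +kernel)) sv0
theorem so1 : StarOK sI G S1 :=
  star_mk (by decide) (by decide) rfl rfl rfl rfl rfl rfl (rfl : _ = t2) (rfl : _ = t0)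
  (st_mk (Pth.l (Pth.l (Pth.l Pth.z))) (nat_lit 96504494) (nat_lit 115235151) (by decide +kernel))
  (st_mk (Pth.l (Pth.l (Pth.l Pth.z))) (nat_lit 131981305) (nat_lit 151127976) (by decide +kernel))
  (st_mk (Pth.l (Pth.l (Pth.l Pth.z))) (nat_lit 173144040) (nat_lit 192892494) (by decide +kernel)) sv1
theorem so2 : StarOK sI G S2 :=
  star_mk (by decide) (by decide) rfl rfl rfl rfl rfl rfl (rfl : _ = t1) (rfl : _ = t1)
  (st_mk (Pth.l (Pth.l (Pth.l Pth.z))) (nat_lit 141852672) (nat_lit 162293209) (by decide +kernel))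
  (st_mk (Pth.l (Pth.l (Pth.l Pth.z))) (nat_lit 174891329) (nat_lit 197535162) (by decide +kernel))
  (st_mk (Pth.l (Pth.l (Pth.l Pth.z))) (nat_lit 215156648) (nat_lit 238285410) (by decide +kernel)) sv2
theorem ok : GroupOK (nat_lit 209321984) (nat_lit 268435456) G := grp_mk (allS_c so0 (allS_c so1 (allS_c so2 allS_n)))
theorem cov : GCov G cl7 cl7 cl13 := cov_mk
  ⟨0, by decide, rfl, rfl, rfl⟩ ⟨1, by decide, rfl, rfl, rfl⟩ ⟨0, by decide, rfl, rfl, rfl⟩ ⟨1, by decide, rfl, rfl, rfl⟩ ⟨2, by decide, rfl, rfl, rfl⟩ ⟨2, by decide, rfl, rfl, rfl⟩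
end Q446_3

namespace Q455_0
def sI : I := I.pos (nat_lit 0) (nat_lit 91291648)
def b0_0 : Bx := Bx.mk (St.mk (I.pos (nat_lit 153419776) (nat_lit 286474240)) (I.mix (nat_lit 25673728) (nat_lit 58081280)) (I.mix (nat_lit 70860800) (nat_lit 99123200)) (I.pos (nat_lit 102825984) (nat_lit 341458944)) (I.mix (nat_lit 75153408) (nat_lit 52068352)) (I.mix (nat_lit 76464128) (nat_lit 52658176)) (I.mix (nat_lit 118554624) (nat_lit 69419008)))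
  false (nat_lit 1238125)
def b0_1 : Bx := Bx.mk (St.mk (I.mix (nat_lit 19873792) (nat_lit 137428992)) (I.mix (nat_lit 8323072) (nat_lit 29458432)) (I.mix (nat_lit 14041088) (nat_lit 23134208)) (I.pos (nat_lit 12763136) (nat_lit 102744064)) (I.mix (nat_lit 24821760) (nat_lit 22577152)) (I.mix (nat_lit 28901376) (nat_lit 16171008)) (I.mix (nat_lit 22790144) (nat_lit 12107776)))
  false (nat_lit 0)
def b0_2 : Bx := Bx.mk (St.mk (I.pos (nat_lit 106774528) (nat_lit 158056448)) (I.mix (nat_lit 57458688) (nat_lit 10321920)) (I.mix (nat_lit 60899328) (nat_lit 6717440)) (I.pos (nat_lit 62095360) (nat_lit 127221760)) (I.mix (nat_lit 75350016) (nat_lit 25477120)) (I.mix (nat_lit 33980416) (nat_lit 76333056)) (I.mix (nat_lit 26132480) (nat_lit 64831488)))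
  false (nat_lit 0)
def b0_3 : Bx := Bx.mk (St.mk (I.mix (nat_lit 26066944) (nat_lit 97042432)) (I.mix (nat_lit 27131904) (nat_lit 4243456)) (I.mix (nat_lit 19316736) (nat_lit 2129920)) (I.pos (nat_lit 15040512) (nat_lit 68599808)) (I.mix (nat_lit 26034176) (nat_lit 11993088)) (I.mix (nat_lit 12943360) (nat_lit 27656192)) (I.mix (nat_lit 7127040) (nat_lit 14729216)))
  false (nat_lit 0)
def b0_4 : Bx := Bx.mk (St.mk (I.pos (nat_lit 110526464) (nat_lit 181977088)) (I.mix (nat_lit 64159744) (nat_lit 2539520)) (I.mix (nat_lit 65568768) (nat_lit 1409024)) (I.pos (nat_lit 79724544) (nat_lit 159186944)) (I.mix (nat_lit 72040448) (nat_lit 36700160)) (I.mix (nat_lit 35520512) (nat_lit 63848448)) (I.mix (nat_lit 29327360) (nat_lit 65028096)))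
  false (nat_lit 0)
def b0_5 : Bx := Bx.mk (St.mk (I.mix (nat_lit 21479424) (nat_lit 106266624)) (I.mix (nat_lit 29294592) (nat_lit 5292032)) (I.mix (nat_lit 21069824) (nat_lit 3899392)) (I.pos (nat_lit 13451264) (nat_lit 76726272)) (I.mix (nat_lit 23412736) (nat_lit 18923520)) (I.mix (nat_lit 13500416) (nat_lit 26165248)) (I.mix (nat_lit 8355840) (nat_lit 16531456)))
  false (nat_lit 0)
def b0_6 : Bx := Bx.mk (St.mk (I.mix (nat_lit 27590656) (nat_lit 129024000)) (I.mix (nat_lit 14041088) (nat_lit 34750464)) (I.mix (nat_lit 11943936) (nat_lit 26836992)) (I.pos (nat_lit 13615104) (nat_lit 93896704)) (I.mix (nat_lit 37535744) (nat_lit 19218432)) (I.mix (nat_lit 41091072) (nat_lit 21151744)) (I.mix (nat_lit 26951680) (nat_lit 13172736)))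
  false (nat_lit 0)
def b0_7 : Bx := Bx.mk (St.mk (I.pos (nat_lit 154697728) (nat_lit 224608256)) (I.mix (nat_lit 45629440) (nat_lit 64831488)) (I.mix (nat_lit 50544640) (nat_lit 102219776)) (I.pos (nat_lit 112001024) (nat_lit 218398720)) (I.mix (nat_lit 110821376) (nat_lit 47808512)) (I.mix (nat_lit 126173184) (nat_lit 59146240)) (I.mix (nat_lit 151289856) (nat_lit 65060864)))
  false (nat_lit 0)
def t0 : BTr := (BTr.n (BTr.n (BTr.n (BTr.b b0_0) (BTr.b b0_1)) (BTr.n (BTr.b b0_2) (BTr.b b0_3))) (BTr.n (BTr.n (BTr.b b0_4) (BTr.b b0_5)) (BTr.n (BTr.b b0_6) (BTr.b b0_7))))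
namespace T0
def l0 : Tr := Tr.L (Pth.l (Pth.l (Pth.l Pth.z)))
def l1 : Tr := Tr.L (Pth.l (Pth.l (Pth.r Pth.z)))
def l2 : Tr := Tr.L (Pth.l (Pth.r (Pth.l Pth.z)))
def l3 : Tr := Tr.L (Pth.l (Pth.r (Pth.r Pth.z)))
def l4 : Tr := Tr.L (Pth.r (Pth.l (Pth.l Pth.z)))
def l5 : Tr := Tr.L (Pth.r (Pth.l (Pth.r Pth.z)))
def l6 : Tr := Tr.L (Pth.r (Pth.r (Pth.l Pth.z)))
def l7 : Tr := Tr.L (Pth.r (Pth.r (Pth.r Pth.z)))
end T0
def b1_0 : Bx := Bx.mk (St.mk (I.pos (nat_lit 153550848) (nat_lit 284196864)) (I.mix (nat_lit 21381120) (nat_lit 59867136)) (I.mix (nat_lit 63062016) (nat_lit 104939520)) (I.pos (nat_lit 129744896) (nat_lit 362119168)) (I.mix (nat_lit 80756736) (nat_lit 54198272)) (I.mix (nat_lit 76660736) (nat_lit 47841280)) (I.mix (nat_lit 119128064) (nat_lit 66879488)))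
  false (nat_lit 20494921)
def b1_1 : Bx := Bx.mk (St.mk (I.pos (nat_lit 100024320) (nat_lit 175718400)) (I.mix (nat_lit 71122944) (nat_lit 589824)) (I.mix (nat_lit 69042176) (nat_lit 4702208)) (I.pos (nat_lit 95551488) (nat_lit 177733632)) (I.mix (nat_lit 75284480) (nat_lit 37896192)) (I.mix (nat_lit 35700736) (nat_lit 63111168)) (I.mix (nat_lit 27836416) (nat_lit 59703296)))
  false (nat_lit 0)
def b1_2 : Bx := Bx.mk (St.mk (I.mix (nat_lit 26886144) (nat_lit 122945536)) (I.mix (nat_lit 7667712) (nat_lit 34848768)) (I.mix (nat_lit 13598720) (nat_lit 24674304)) (I.pos (nat_lit 37388288) (nat_lit 116588544)) (I.mix (nat_lit 28442624) (nat_lit 24035328)) (I.mix (nat_lit 31277056) (nat_lit 17563648)) (I.mix (nat_lit 21856256) (nat_lit 12140544)))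
  false (nat_lit 0)
def b1_3 : Bx := Bx.mk (St.mk (I.mix (nat_lit 26836992) (nat_lit 86573056)) (I.mix (nat_lit 34766848) (nat_lit 5373952)) (I.mix (nat_lit 21102592) (nat_lit 6045696)) (I.pos (nat_lit 39010304) (nat_lit 90734592)) (I.mix (nat_lit 25165824) (nat_lit 19988480)) (I.mix (nat_lit 15351808) (nat_lit 26902528)) (I.mix (nat_lit 8781824) (nat_lit 14204928)))
  false (nat_lit 0)
def b1_4 : Bx := Bx.mk (St.mk (I.pos (nat_lit 148996096) (nat_lit 222740480)) (I.mix (nat_lit 45875200) (nat_lit 72613888)) (I.mix (nat_lit 45711360) (nat_lit 112738304)) (I.pos (nat_lit 129843200) (nat_lit 241369088)) (I.mix (nat_lit 119390208) (nat_lit 49348608)) (I.mix (nat_lit 130940928) (nat_lit 64569344)) (I.mix (nat_lit 149422080) (nat_lit 67338240)))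
  false (nat_lit 18094145)
def b1_5 : Bx := Bx.mk (St.mk (I.pos (nat_lit 93962240) (nat_lit 149618688)) (I.mix (nat_lit 64225280) (nat_lit 9814016)) (I.mix (nat_lit 62357504) (nat_lit 4980736)) (I.pos (nat_lit 78364672) (nat_lit 144375808)) (I.mix (nat_lit 77414400) (nat_lit 27475968)) (I.mix (nat_lit 37896192) (nat_lit 74268672)) (I.mix (nat_lit 27639808) (nat_lit 56049664)))
  false (nat_lit 0)
def b1_6 : Bx := Bx.mk (St.mk (I.mix (nat_lit 40288256) (nat_lit 112541696)) (I.mix (nat_lit 13762560) (nat_lit 38486016)) (I.mix (nat_lit 9551872) (nat_lit 27836416)) (I.pos (nat_lit 38928384) (nat_lit 107331584)) (I.mix (nat_lit 38404096) (nat_lit 19529728)) (I.mix (nat_lit 40271872) (nat_lit 22282240)) (I.mix (nat_lit 22822912) (nat_lit 13303808)))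
  false (nat_lit 0)
def b1_7 : Bx := Bx.mk (St.mk (I.mix (nat_lit 37896192) (nat_lit 76578816)) (I.mix (nat_lit 31375360) (nat_lit 5488640)) (I.mix (nat_lit 18071552) (nat_lit 4784128)) (I.pos (nat_lit 40484864) (nat_lit 83378176)) (I.mix (nat_lit 25395200) (nat_lit 13107200)) (I.mix (nat_lit 14057472) (nat_lit 21331968)) (I.mix (nat_lit 6406144) (nat_lit 8650752)))
  false (nat_lit 0)
def t1 : BTr := (BTr.n (BTr.n (BTr.n (BTr.b b1_0) (BTr.b b1_1)) (BTr.n (BTr.b b1_2) (BTr.b b1_3))) (BTr.n (BTr.n (BTr.b b1_4) (BTr.b b1_5)) (BTr.n (BTr.b b1_6) (BTr.b b1_7))))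
namespace T1
def l0 : Tr := Tr.L (Pth.l (Pth.l (Pth.l Pth.z)))
def l1 : Tr := Tr.L (Pth.l (Pth.l (Pth.r Pth.z)))
def l2 : Tr := Tr.L (Pth.l (Pth.r (Pth.l Pth.z)))
def l3 : Tr := Tr.L (Pth.l (Pth.r (Pth.r Pth.z)))
def l4 : Tr := Tr.L (Pth.r (Pth.l (Pth.l Pth.z)))
def l5 : Tr := Tr.L (Pth.r (Pth.l (Pth.r Pth.z)))
def l6 : Tr := Tr.L (Pth.r (Pth.r (Pth.l Pth.z)))
def l7 : Tr := Tr.L (Pth.r (Pth.r (Pth.r Pth.z)))
end T1
def b2_0 : Bx := Bx.mk (St.mk (I.pos (nat_lit 153567232) (nat_lit 283869184)) (I.mix (nat_lit 19939328) (nat_lit 53805056)) (I.mix (nat_lit 44892160) (nat_lit 102891520)) (I.pos (nat_lit 102907904) (nat_lit 334823424)) (I.mix (nat_lit 76267520) (nat_lit 50954240)) (I.mix (nat_lit 80019456) (nat_lit 51789824)) (I.mix (nat_lit 123224064) (nat_lit 64782336)))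
  false (nat_lit 4728764)
def b2_1 : Bx := Bx.mk (St.mk (I.pos (nat_lit 113098752) (nat_lit 184631296)) (I.mix (nat_lit 64749568) (nat_lit 278528)) (I.mix (nat_lit 61734912) (nat_lit 9748480)) (I.pos (nat_lit 81575936) (nat_lit 161955840)) (I.mix (nat_lit 68829184) (nat_lit 37617664)) (I.mix (nat_lit 36503552) (nat_lit 61571072)) (I.mix (nat_lit 29589504) (nat_lit 61652992)))
  false (nat_lit 0)
def b2_2 : Bx := Bx.mk (St.mk (I.mix (nat_lit 20627456) (nat_lit 107675648)) (I.mix (nat_lit 29261824) (nat_lit 5750784)) (I.mix (nat_lit 18284544) (nat_lit 7946240)) (I.pos (nat_lit 13582336) (nat_lit 77414400)) (I.mix (nat_lit 21921792) (nat_lit 18874368)) (I.mix (nat_lit 13647872) (nat_lit 24559616)) (I.mix (nat_lit 8404992) (nat_lit 15269888)))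
  false (nat_lit 0)
def b2_3 : Bx := Bx.mk (St.mk (I.pos (nat_lit 154828800) (nat_lit 222265344)) (I.mix (nat_lit 44564480) (nat_lit 64503808)) (I.mix (nat_lit 42172416) (nat_lit 110067712)) (I.pos (nat_lit 111263744) (nat_lit 215105536)) (I.mix (nat_lit 115097600) (nat_lit 47546368)) (I.mix (nat_lit 130760704) (nat_lit 58408960)) (I.mix (nat_lit 160595968) (nat_lit 63111168)))
  false (nat_lit 0)
def b2_4 : Bx := Bx.mk (St.mk (I.mix (nat_lit 28114944) (nat_lit 128270336)) (I.mix (nat_lit 14548992) (nat_lit 35160064)) (I.mix (nat_lit 8978432) (nat_lit 30801920)) (I.pos (nat_lit 13565952) (nat_lit 92946432)) (I.mix (nat_lit 39895040) (nat_lit 19038208)) (I.mix (nat_lit 42401792) (nat_lit 20774912)) (I.mix (nat_lit 28459008) (nat_lit 12812288)))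
  false (nat_lit 0)
def b2_5 : Bx := Bx.mk (St.mk (I.pos (nat_lit 107888640) (nat_lit 160169984)) (I.mix (nat_lit 57622528) (nat_lit 9109504)) (I.mix (nat_lit 55885824) (nat_lit 10420224)) (I.pos (nat_lit 62930944) (nat_lit 129056768)) (I.mix (nat_lit 72286208) (nat_lit 26099712)) (I.mix (nat_lit 34553856) (nat_lit 72826880)) (I.mix (nat_lit 26624000) (nat_lit 60293120)))
  false (nat_lit 0)
def b2_6 : Bx := Bx.mk (St.mk (I.mix (nat_lit 26083328) (nat_lit 136527872)) (I.mix (nat_lit 6569984) (nat_lit 24526848)) (I.mix (nat_lit 8077312) (nat_lit 23003136)) (I.pos (nat_lit 11812864) (nat_lit 101662720)) (I.mix (nat_lit 25886720) (nat_lit 22167552)) (I.mix (nat_lit 30588928) (nat_lit 15843328)) (I.mix (nat_lit 24264704) (nat_lit 11943936)))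
  false (nat_lit 0)
def b2_7 : Bx := Bx.mk (St.mk (I.mix (nat_lit 26361856) (nat_lit 96485376)) (I.mix (nat_lit 26755072) (nat_lit 573440)) (I.mix (nat_lit 16433152) (nat_lit 4030464)) (I.pos (nat_lit 14942208) (nat_lit 69009408)) (I.mix (nat_lit 24166400) (nat_lit 12140544)) (I.mix (nat_lit 12713984) (nat_lit 26427392)) (I.mix (nat_lit 6914048) (nat_lit 13811712)))
  false (nat_lit 0)
def t2 : BTr := (BTr.n (BTr.n (BTr.n (BTr.b b2_0) (BTr.b b2_1)) (BTr.n (BTr.b b2_2) (BTr.b b2_3))) (BTr.n (BTr.n (BTr.b b2_4) (BTr.b b2_5)) (BTr.n (BTr.b b2_6) (BTr.b b2_7))))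
namespace T2
def l0 : Tr := Tr.L (Pth.l (Pth.l (Pth.l Pth.z)))
def l1 : Tr := Tr.L (Pth.l (Pth.l (Pth.r Pth.z)))
def l2 : Tr := Tr.L (Pth.l (Pth.r (Pth.l Pth.z)))
def l3 : Tr := Tr.L (Pth.l (Pth.r (Pth.r Pth.z)))
def l4 : Tr := Tr.L (Pth.r (Pth.l (Pth.l Pth.z)))
def l5 : Tr := Tr.L (Pth.r (Pth.l (Pth.r Pth.z)))
def l6 : Tr := Tr.L (Pth.r (Pth.r (Pth.l Pth.z)))
def l7 : Tr := Tr.L (Pth.r (Pth.r (Pth.r Pth.z)))
end T2
theorem bx0_0 : BoxOK sI cl7 cl9 cl9 t1 t1 b0_0 :=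
  box_mk (TrL.c (I.pos (nat_lit 0) (nat_lit 0)) (xa (xa (xb T1.l0 (xs T1.l0 T1.l0)) (xb T1.l0 T1.l0)) (xa (xb T1.l0 T1.l0) T1.l4))
  (TrL.c (I.pos (nat_lit 0) (nat_lit 0)) T1.l1
  (TrL.c (I.pos (nat_lit 0) (nat_lit 111196574)) (xR T1.l2 (xR T1.l2 T1.l6))
  (TrL.c (I.pos (nat_lit 0) (nat_lit 77433728)) (xR T1.l3 T1.l3)
  (TrL.c (I.pos (nat_lit 0) (nat_lit 0)) (xa T1.l4 (xb (xa (xk T1.l4 T1.l4) (xk (xb (xa T1.l4 T1.l4) T1.l4) (xb (xa T1.l4 T1.l4) T1.l4))) (xk (xa T1.l4 (xs (xa T1.l4 T1.l4) (xa T1.l4 T1.l4))) (xa T1.l4 (xs T1.l4 (xa T1.l4 T1.l4))))))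
  (TrL.c (I.pos (nat_lit 0) (nat_lit 0)) T1.l5
  (TrL.c (I.mix (nat_lit 29511666) (nat_lit 77433728)) (xR T1.l6 (xR T1.l6 T1.l6))
  (TrL.c (I.mix (nat_lit 29511666) (nat_lit 46070178)) (xR T1.l7 T1.l7)
  TrL.n)))))))) (by decide +kernel)
theorem bx0_1 : BoxOK sI cl7 cl9 cl9 t1 t1 b0_1 :=
  box_mk (TrL.c (I.pos (nat_lit 0) (nat_lit 0)) (xa T1.l0 T1.l0)
  (TrL.c (I.pos (nat_lit 0) (nat_lit 0)) T1.l1
  (TrL.c (I.pos (nat_lit 0) (nat_lit 111196574)) T1.l2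
  (TrL.c (I.pos (nat_lit 0) (nat_lit 77433728)) T1.l3
  (TrL.c (I.pos (nat_lit 0) (nat_lit 0)) T1.l4
  (TrL.c (I.pos (nat_lit 0) (nat_lit 0)) T1.l5
  (TrL.c (I.mix (nat_lit 29511666) (nat_lit 77433728)) T1.l6
  (TrL.c (I.mix (nat_lit 29511666) (nat_lit 46070178)) T1.l7
  TrL.n)))))))) (by decide +kernel)
theorem bx0_2 : BoxOK sI cl7 cl9 cl9 t1 t1 b0_2 :=
  box_mk (TrL.c (I.pos (nat_lit 0) (nat_lit 0)) T1.l0
  (TrL.c (I.pos (nat_lit 0) (nat_lit 0)) T1.l1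
  (TrL.c (I.pos (nat_lit 0) (nat_lit 111196574)) T1.l2
  (TrL.c (I.pos (nat_lit 0) (nat_lit 77433728)) T1.l3
  (TrL.c (I.pos (nat_lit 0) (nat_lit 0)) T1.l4
  (TrL.c (I.pos (nat_lit 0) (nat_lit 0)) T1.l5
  (TrL.c (I.mix (nat_lit 29511666) (nat_lit 77433728)) T1.l6
  (TrL.c (I.mix (nat_lit 29511666) (nat_lit 46070178)) T1.l7
  TrL.n)))))))) (by decide +kernel)
theorem bx0_3 : BoxOK sI cl7 cl9 cl9 t1 t1 b0_3 :=
  box_mk (TrL.c (I.pos (nat_lit 0) (nat_lit 0)) T1.l0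
  (TrL.c (I.pos (nat_lit 0) (nat_lit 0)) T1.l1
  (TrL.c (I.pos (nat_lit 0) (nat_lit 111196574)) T1.l2
  (TrL.c (I.pos (nat_lit 0) (nat_lit 77433728)) T1.l3
  (TrL.c (I.pos (nat_lit 0) (nat_lit 0)) T1.l4
  (TrL.c (I.pos (nat_lit 0) (nat_lit 0)) T1.l5
  (TrL.c (I.mix (nat_lit 29511666) (nat_lit 77433728)) T1.l6
  (TrL.c (I.mix (nat_lit 29511666) (nat_lit 46070178)) T1.l7
  TrL.n)))))))) (by decide +kernel)
theorem bx0_4 : BoxOK sI cl7 cl9 cl9 t1 t1 b0_4 :=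
  box_mk (TrL.c (I.pos (nat_lit 0) (nat_lit 0)) T1.l0
  (TrL.c (I.pos (nat_lit 0) (nat_lit 0)) T1.l1
  (TrL.c (I.pos (nat_lit 0) (nat_lit 111196574)) T1.l2
  (TrL.c (I.pos (nat_lit 0) (nat_lit 77433728)) T1.l3
  (TrL.c (I.pos (nat_lit 0) (nat_lit 0)) T1.l4
  (TrL.c (I.pos (nat_lit 0) (nat_lit 0)) T1.l5
  (TrL.c (I.mix (nat_lit 29511666) (nat_lit 77433728)) (xR T1.l6 T1.l6)
  (TrL.c (I.mix (nat_lit 29511666) (nat_lit 46070178)) T1.l7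
  TrL.n)))))))) (by decide +kernel)
theorem bx0_5 : BoxOK sI cl7 cl9 cl9 t1 t1 b0_5 :=
  box_mk (TrL.c (I.pos (nat_lit 0) (nat_lit 0)) T1.l0
  (TrL.c (I.pos (nat_lit 0) (nat_lit 0)) T1.l1
  (TrL.c (I.pos (nat_lit 0) (nat_lit 111196574)) T1.l2
  (TrL.c (I.pos (nat_lit 0) (nat_lit 77433728)) T1.l3
  (TrL.c (I.pos (nat_lit 0) (nat_lit 0)) T1.l4
  (TrL.c (I.pos (nat_lit 0) (nat_lit 0)) T1.l5
  (TrL.c (I.mix (nat_lit 29511666) (nat_lit 77433728)) T1.l6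
  (TrL.c (I.mix (nat_lit 29511666) (nat_lit 46070178)) T1.l7
  TrL.n)))))))) (by decide +kernel)
theorem bx0_6 : BoxOK sI cl7 cl9 cl9 t1 t1 b0_6 :=
  box_mk (TrL.c (I.pos (nat_lit 0) (nat_lit 0)) (xa T1.l0 T1.l0)
  (TrL.c (I.pos (nat_lit 0) (nat_lit 0)) T1.l1
  (TrL.c (I.pos (nat_lit 0) (nat_lit 111196574)) T1.l2
  (TrL.c (I.pos (nat_lit 0) (nat_lit 77433728)) T1.l3
  (TrL.c (I.pos (nat_lit 0) (nat_lit 0)) (xa T1.l4 T1.l4)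
  (TrL.c (I.pos (nat_lit 0) (nat_lit 0)) T1.l5
  (TrL.c (I.mix (nat_lit 29511666) (nat_lit 77433728)) T1.l6
  (TrL.c (I.mix (nat_lit 29511666) (nat_lit 46070178)) T1.l7
  TrL.n)))))))) (by decide +kernel)
theorem bx0_7 : BoxOK sI cl7 cl9 cl9 t1 t1 b0_7 :=
  box_mk (TrL.c (I.pos (nat_lit 0) (nat_lit 0)) (xb (xa (xb T1.l0 T1.l0) (xb T1.l0 T1.l0)) (xa (xb T1.l0 (xs T1.l0 (xa T1.l0 T1.l0))) (xs T1.l0 (xb T1.l0 (xa T1.l0 T1.l0)))))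
  (TrL.c (I.pos (nat_lit 0) (nat_lit 0)) T1.l1
  (TrL.c (I.pos (nat_lit 0) (nat_lit 111196574)) (xR T1.l2 (xR T1.l2 T1.l2))
  (TrL.c (I.pos (nat_lit 0) (nat_lit 77433728)) (xR T1.l3 T1.l3)
  (TrL.c (I.pos (nat_lit 0) (nat_lit 0)) (xb (xa (xk T1.l4 T1.l4) (xk T1.l4 T1.l4)) (xa T1.l4 (xk T1.l4 T1.l4)))
  (TrL.c (I.pos (nat_lit 0) (nat_lit 0)) T1.l5
  (TrL.c (I.mix (nat_lit 29511666) (nat_lit 77433728)) (xR T1.l6 (xR T1.l6 T1.l6))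
  (TrL.c (I.mix (nat_lit 29511666) (nat_lit 46070178)) (xR T1.l7 T1.l3)
  TrL.n)))))))) (by decide +kernel)
theorem sv0 : StarV sI cl7 cl9 cl9 t1 t1 t0 :=
  (bt_n (bt_n (bt_n (bt_b bx0_0) (bt_b bx0_1)) (bt_n (bt_b bx0_2) (bt_b bx0_3))) (bt_n (bt_n (bt_b bx0_4) (bt_b bx0_5)) (bt_n (bt_b bx0_6) (bt_b bx0_7))))
def S0 : StarD := StarD.mk cl7 cl9 cl9 1 1 t0
theorem bx1_0 : BoxOK sI cl9 cl7 cl9 t0 t2 b1_0 :=
  box_mk (TrL.c (I.pos (nat_lit 0) (nat_lit 0)) (xa (xa T0.l0 T0.l0) (xa (xb T0.l0 T0.l0) (xb T0.l0 T0.l0)))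
  (TrL.c (I.pos (nat_lit 0) (nat_lit 0)) T2.l1
  (TrL.c (I.pos (nat_lit 0) (nat_lit 124588530)) (xR T0.l1 T0.l6)
  (TrL.c (I.pos (nat_lit 0) (nat_lit 96881482)) (xR T2.l2 (xR T2.l2 T2.l2))
  (TrL.c (I.pos (nat_lit 0) (nat_lit 0)) (xa (xb T2.l3 T2.l3) (xa (xb (xk T2.l3 T2.l3) T2.l3) (xk (xb (xb (xa T2.l3 T2.l3) T2.l3) (xs (xa T2.l3 T2.l3) (xa T2.l3 T2.l3))) (xb (xb (xa T2.l3 T2.l3) T2.l3) (xs (xa T2.l3 T2.l3) (xa T2.l3 T2.l3))))))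
  (TrL.c (I.pos (nat_lit 0) (nat_lit 0)) T0.l2
  (TrL.c (I.mix (nat_lit 17240550) (nat_lit 96881482)) (xR T2.l4 (xR T2.l4 T2.l4))
  (TrL.c (I.mix (nat_lit 17240550) (nat_lit 71940500)) (xR T0.l3 T0.l3)
  TrL.n)))))))) (by decide +kernel)
theorem bx1_1 : BoxOK sI cl9 cl7 cl9 t0 t2 b1_1 :=
  box_mk (TrL.c (I.pos (nat_lit 0) (nat_lit 0)) T0.l0
  (TrL.c (I.pos (nat_lit 0) (nat_lit 0)) T2.l1
  (TrL.c (I.pos (nat_lit 0) (nat_lit 124588530)) (xR T0.l1 T0.l1)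
  (TrL.c (I.pos (nat_lit 0) (nat_lit 96881482)) T2.l2
  (TrL.c (I.pos (nat_lit 0) (nat_lit 0)) T2.l3
  (TrL.c (I.pos (nat_lit 0) (nat_lit 0)) T0.l2
  (TrL.c (I.mix (nat_lit 17240550) (nat_lit 96881482)) T2.l4
  (TrL.c (I.mix (nat_lit 17240550) (nat_lit 71940500)) T0.l3
  TrL.n)))))))) (by decide +kernel)
theorem bx1_2 : BoxOK sI cl9 cl7 cl9 t0 t2 b1_2 :=
  box_mk (TrL.c (I.pos (nat_lit 0) (nat_lit 0)) T0.l0
  (TrL.c (I.pos (nat_lit 0) (nat_lit 0)) T2.l1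
  (TrL.c (I.pos (nat_lit 0) (nat_lit 124588530)) T0.l1
  (TrL.c (I.pos (nat_lit 0) (nat_lit 96881482)) T2.l2
  (TrL.c (I.pos (nat_lit 0) (nat_lit 0)) T2.l3
  (TrL.c (I.pos (nat_lit 0) (nat_lit 0)) T0.l2
  (TrL.c (I.mix (nat_lit 17240550) (nat_lit 96881482)) T2.l4
  (TrL.c (I.mix (nat_lit 17240550) (nat_lit 71940500)) T0.l3
  TrL.n)))))))) (by decide +kernel)
theorem bx1_3 : BoxOK sI cl9 cl7 cl9 t0 t2 b1_3 :=
  box_mk (TrL.c (I.pos (nat_lit 0) (nat_lit 0)) T0.l0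
  (TrL.c (I.pos (nat_lit 0) (nat_lit 0)) T2.l1
  (TrL.c (I.pos (nat_lit 0) (nat_lit 124588530)) T0.l1
  (TrL.c (I.pos (nat_lit 0) (nat_lit 96881482)) T2.l2
  (TrL.c (I.pos (nat_lit 0) (nat_lit 0)) T2.l3
  (TrL.c (I.pos (nat_lit 0) (nat_lit 0)) T0.l2
  (TrL.c (I.mix (nat_lit 17240550) (nat_lit 96881482)) T2.l4
  (TrL.c (I.mix (nat_lit 17240550) (nat_lit 71940500)) T0.l3
  TrL.n)))))))) (by decide +kernel)
theorem bx1_4 : BoxOK sI cl9 cl7 cl9 t0 t2 b1_4 :=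
  box_mk (TrL.c (I.pos (nat_lit 0) (nat_lit 0)) (xb (xa (xb T0.l0 T0.l0) T0.l0) (xa (xs T0.l0 (xb T0.l0 (xa T0.l0 T0.l0))) (xs T0.l0 (xb T0.l0 T0.l0))))
  (TrL.c (I.pos (nat_lit 0) (nat_lit 0)) T2.l1
  (TrL.c (I.pos (nat_lit 0) (nat_lit 124588530)) (xR T0.l1 (xR T0.l1 T0.l1))
  (TrL.c (I.pos (nat_lit 0) (nat_lit 96881482)) (xR T2.l2 T2.l2)
  (TrL.c (I.pos (nat_lit 0) (nat_lit 0)) (xb (xa (xk T2.l3 T2.l3) (xk (xb T2.l3 T2.l3) T2.l3)) (xa T2.l3 (xk T2.l3 T2.l3)))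
  (TrL.c (I.pos (nat_lit 0) (nat_lit 0)) T0.l2
  (TrL.c (I.mix (nat_lit 17240550) (nat_lit 96881482)) (xR T2.l4 (xR T2.l4 T2.l4))
  (TrL.c (I.mix (nat_lit 17240550) (nat_lit 71940500)) (xR T0.l3 T0.l3)
  TrL.n)))))))) (by decide +kernel)
theorem bx1_5 : BoxOK sI cl9 cl7 cl9 t0 t2 b1_5 :=
  box_mk (TrL.c (I.pos (nat_lit 0) (nat_lit 0)) T0.l0
  (TrL.c (I.pos (nat_lit 0) (nat_lit 0)) T2.l1
  (TrL.c (I.pos (nat_lit 0) (nat_lit 124588530)) T0.l1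
  (TrL.c (I.pos (nat_lit 0) (nat_lit 96881482)) T2.l2
  (TrL.c (I.pos (nat_lit 0) (nat_lit 0)) T2.l3
  (TrL.c (I.pos (nat_lit 0) (nat_lit 0)) T0.l2
  (TrL.c (I.mix (nat_lit 17240550) (nat_lit 96881482)) T2.l4
  (TrL.c (I.mix (nat_lit 17240550) (nat_lit 71940500)) T0.l3
  TrL.n)))))))) (by decide +kernel)
theorem bx1_6 : BoxOK sI cl9 cl7 cl9 t0 t2 b1_6 :=
  box_mk (TrL.c (I.pos (nat_lit 0) (nat_lit 0)) (xa T0.l0 T0.l0)
  (TrL.c (I.pos (nat_lit 0) (nat_lit 0)) T2.l1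
  (TrL.c (I.pos (nat_lit 0) (nat_lit 124588530)) T0.l1
  (TrL.c (I.pos (nat_lit 0) (nat_lit 96881482)) T2.l2
  (TrL.c (I.pos (nat_lit 0) (nat_lit 0)) (xa T2.l3 T2.l3)
  (TrL.c (I.pos (nat_lit 0) (nat_lit 0)) T0.l2
  (TrL.c (I.mix (nat_lit 17240550) (nat_lit 96881482)) T2.l4
  (TrL.c (I.mix (nat_lit 17240550) (nat_lit 71940500)) T0.l3
  TrL.n)))))))) (by decide +kernel)
theorem bx1_7 : BoxOK sI cl9 cl7 cl9 t0 t2 b1_7 :=
  box_mk (TrL.c (I.pos (nat_lit 0) (nat_lit 0)) T0.l0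
  (TrL.c (I.pos (nat_lit 0) (nat_lit 0)) T2.l1
  (TrL.c (I.pos (nat_lit 0) (nat_lit 124588530)) T0.l1
  (TrL.c (I.pos (nat_lit 0) (nat_lit 96881482)) T2.l2
  (TrL.c (I.pos (nat_lit 0) (nat_lit 0)) T2.l3
  (TrL.c (I.pos (nat_lit 0) (nat_lit 0)) T0.l2
  (TrL.c (I.mix (nat_lit 17240550) (nat_lit 96881482)) T2.l4
  (TrL.c (I.mix (nat_lit 17240550) (nat_lit 71940500)) T0.l3
  TrL.n)))))))) (by decide +kernel)
theorem sv1 : StarV sI cl9 cl7 cl9 t0 t2 t1 :=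
  (bt_n (bt_n (bt_n (bt_b bx1_0) (bt_b bx1_1)) (bt_n (bt_b bx1_2) (bt_b bx1_3))) (bt_n (bt_n (bt_b bx1_4) (bt_b bx1_5)) (bt_n (bt_b bx1_6) (bt_b bx1_7))))
def S1 : StarD := StarD.mk cl9 cl7 cl9 0 2 t1
theorem bx2_0 : BoxOK sI cl9 cl9 cl7 t2 t0 b2_0 :=
  box_mk (TrL.c (I.pos (nat_lit 0) (nat_lit 0)) (xa (xa (xb T2.l0 T2.l0) T2.l0) (xa (xb T2.l0 T2.l0) (xb T2.l0 T2.l0)))
  (TrL.c (I.pos (nat_lit 0) (nat_lit 0)) T0.l4
  (TrL.c (I.pos (nat_lit 0) (nat_lit 124588530)) (xR T2.l6 (xR T2.l6 T2.l4))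
  (TrL.c (I.pos (nat_lit 0) (nat_lit 96881482)) (xR T0.l5 (xR T0.l5 T0.l5))
  (TrL.c (I.pos (nat_lit 0) (nat_lit 0)) (xa (xa T0.l7 T0.l7) (xa (xb (xk T0.l7 T0.l7) T0.l7) (xk (xb (xa T0.l7 (xb T0.l7 T0.l7)) (xk (xa T0.l7 T0.l7) (xa T0.l7 T0.l7))) (xb (xa T0.l7 (xb T0.l7 T0.l7)) (xs (xa T0.l7 T0.l7) (xa T0.l7 T0.l7))))))
  (TrL.c (I.pos (nat_lit 0) (nat_lit 0)) T2.l5
  (TrL.c (I.mix (nat_lit 17240550) (nat_lit 96881482)) (xR T0.l6 (xR T0.l6 T0.l6))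
  (TrL.c (I.mix (nat_lit 17240550) (nat_lit 71940500)) (xR T2.l7 T2.l7)
  TrL.n)))))))) (by decide +kernel)
theorem bx2_1 : BoxOK sI cl9 cl9 cl7 t2 t0 b2_1 :=
  box_mk (TrL.c (I.pos (nat_lit 0) (nat_lit 0)) T2.l0
  (TrL.c (I.pos (nat_lit 0) (nat_lit 0)) T0.l4
  (TrL.c (I.pos (nat_lit 0) (nat_lit 124588530)) T2.l6
  (TrL.c (I.pos (nat_lit 0) (nat_lit 96881482)) T0.l5
  (TrL.c (I.pos (nat_lit 0) (nat_lit 0)) T0.l7
  (TrL.c (I.pos (nat_lit 0) (nat_lit 0)) T2.l5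
  (TrL.c (I.mix (nat_lit 17240550) (nat_lit 96881482)) T0.l6
  (TrL.c (I.mix (nat_lit 17240550) (nat_lit 71940500)) T2.l7
  TrL.n)))))))) (by decide +kernel)
theorem bx2_2 : BoxOK sI cl9 cl9 cl7 t2 t0 b2_2 :=
  box_mk (TrL.c (I.pos (nat_lit 0) (nat_lit 0)) T2.l0
  (TrL.c (I.pos (nat_lit 0) (nat_lit 0)) T0.l4
  (TrL.c (I.pos (nat_lit 0) (nat_lit 124588530)) T2.l6
  (TrL.c (I.pos (nat_lit 0) (nat_lit 96881482)) T0.l5
  (TrL.c (I.pos (nat_lit 0) (nat_lit 0)) T0.l7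
  (TrL.c (I.pos (nat_lit 0) (nat_lit 0)) T2.l5
  (TrL.c (I.mix (nat_lit 17240550) (nat_lit 96881482)) T0.l6
  (TrL.c (I.mix (nat_lit 17240550) (nat_lit 71940500)) T2.l2
  TrL.n)))))))) (by decide +kernel)
theorem bx2_3 : BoxOK sI cl9 cl9 cl7 t2 t0 b2_3 :=
  box_mk (TrL.c (I.pos (nat_lit 0) (nat_lit 0)) (xb (xa (xb T2.l0 T2.l0) T2.l0) (xa (xs T2.l0 (xb T2.l0 (xa T2.l0 T2.l0))) (xs T2.l0 (xb T2.l0 T2.l0))))
  (TrL.c (I.pos (nat_lit 0) (nat_lit 0)) T0.l4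
  (TrL.c (I.pos (nat_lit 0) (nat_lit 124588530)) (xR T2.l6 (xR T2.l6 T2.l6))
  (TrL.c (I.pos (nat_lit 0) (nat_lit 96881482)) (xR T0.l5 T0.l5)
  (TrL.c (I.pos (nat_lit 0) (nat_lit 0)) (xb (xa (xk T0.l7 T0.l7) (xk T0.l7 T0.l7)) (xa T0.l7 (xk T0.l7 T0.l7)))
  (TrL.c (I.pos (nat_lit 0) (nat_lit 0)) T2.l5
  (TrL.c (I.mix (nat_lit 17240550) (nat_lit 96881482)) (xR T0.l6 (xR T0.l6 T0.l6))
  (TrL.c (I.mix (nat_lit 17240550) (nat_lit 71940500)) (xR T2.l7 T2.l7)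
  TrL.n)))))))) (by decide +kernel)
theorem bx2_4 : BoxOK sI cl9 cl9 cl7 t2 t0 b2_4 :=
  box_mk (TrL.c (I.pos (nat_lit 0) (nat_lit 0)) (xa T2.l0 T2.l0)
  (TrL.c (I.pos (nat_lit 0) (nat_lit 0)) T0.l4
  (TrL.c (I.pos (nat_lit 0) (nat_lit 124588530)) T2.l6
  (TrL.c (I.pos (nat_lit 0) (nat_lit 96881482)) T0.l5
  (TrL.c (I.pos (nat_lit 0) (nat_lit 0)) (xa T0.l7 T0.l7)
  (TrL.c (I.pos (nat_lit 0) (nat_lit 0)) T2.l5
  (TrL.c (I.mix (nat_lit 17240550) (nat_lit 96881482)) T0.l6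
  (TrL.c (I.mix (nat_lit 17240550) (nat_lit 71940500)) T2.l2
  TrL.n)))))))) (by decide +kernel)
theorem bx2_5 : BoxOK sI cl9 cl9 cl7 t2 t0 b2_5 :=
  box_mk (TrL.c (I.pos (nat_lit 0) (nat_lit 0)) T2.l0
  (TrL.c (I.pos (nat_lit 0) (nat_lit 0)) T0.l4
  (TrL.c (I.pos (nat_lit 0) (nat_lit 124588530)) T2.l6
  (TrL.c (I.pos (nat_lit 0) (nat_lit 96881482)) T0.l5
  (TrL.c (I.pos (nat_lit 0) (nat_lit 0)) T0.l7
  (TrL.c (I.pos (nat_lit 0) (nat_lit 0)) T2.l5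
  (TrL.c (I.mix (nat_lit 17240550) (nat_lit 96881482)) T0.l6
  (TrL.c (I.mix (nat_lit 17240550) (nat_lit 71940500)) T2.l7
  TrL.n)))))))) (by decide +kernel)
theorem bx2_6 : BoxOK sI cl9 cl9 cl7 t2 t0 b2_6 :=
  box_mk (TrL.c (I.pos (nat_lit 0) (nat_lit 0)) (xa T2.l0 T2.l0)
  (TrL.c (I.pos (nat_lit 0) (nat_lit 0)) T0.l4
  (TrL.c (I.pos (nat_lit 0) (nat_lit 124588530)) T2.l6
  (TrL.c (I.pos (nat_lit 0) (nat_lit 96881482)) T0.l5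
  (TrL.c (I.pos (nat_lit 0) (nat_lit 0)) T0.l7
  (TrL.c (I.pos (nat_lit 0) (nat_lit 0)) T2.l5
  (TrL.c (I.mix (nat_lit 17240550) (nat_lit 96881482)) T0.l6
  (TrL.c (I.mix (nat_lit 17240550) (nat_lit 71940500)) T2.l2
  TrL.n)))))))) (by decide +kernel)
theorem bx2_7 : BoxOK sI cl9 cl9 cl7 t2 t0 b2_7 :=
  box_mk (TrL.c (I.pos (nat_lit 0) (nat_lit 0)) (xa T2.l0 T2.l0)
  (TrL.c (I.pos (nat_lit 0) (nat_lit 0)) T0.l4
  (TrL.c (I.pos (nat_lit 0) (nat_lit 124588530)) T2.l6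
  (TrL.c (I.pos (nat_lit 0) (nat_lit 96881482)) T0.l5
  (TrL.c (I.pos (nat_lit 0) (nat_lit 0)) T0.l7
  (TrL.c (I.pos (nat_lit 0) (nat_lit 0)) T2.l5
  (TrL.c (I.mix (nat_lit 17240550) (nat_lit 96881482)) T0.l6
  (TrL.c (I.mix (nat_lit 17240550) (nat_lit 71940500)) T2.l2
  TrL.n)))))))) (by decide +kernel)
theorem sv2 : StarV sI cl9 cl9 cl7 t2 t0 t2 :=
  (bt_n (bt_n (bt_n (bt_b bx2_0) (bt_b bx2_1)) (bt_n (bt_b bx2_2) (bt_b bx2_3))) (bt_n (bt_n (bt_b bx2_4) (bt_b bx2_5)) (bt_n (bt_b bx2_6) (bt_b bx2_7))))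
def S2 : StarD := StarD.mk cl9 cl9 cl7 2 0 t2
def G : List StarD := [S0, S1, S2]
theorem so0 : StarOK sI G S0 :=
  star_mk (by decide) (by decide) rfl rfl rfl rfl rfl rfl (rfl : _ = t1) (rfl : _ = t1)
  (st_mk (Pth.l (Pth.l (Pth.l Pth.z))) (nat_lit 115588932) (nat_lit 134187400) (by decide +kernel))
  (st_mk (Pth.l (Pth.l (Pth.l Pth.z))) (nat_lit 150833544) (nat_lit 169783932) (by decide +kernel))
  (st_mk (Pth.l (Pth.l (Pth.l Pth.z))) (nat_lit 191615764) (nat_lit 211067392) (by decide +kernel)) sv0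
theorem so1 : StarOK sI G S1 :=
  star_mk (by decide) (by decide) rfl rfl rfl rfl rfl rfl (rfl : _ = t0) (rfl : _ = t2)
  (st_mk (Pth.l (Pth.l (Pth.l Pth.z))) (nat_lit 140309786) (nat_lit 162538693) (by decide +kernel))
  (st_mk (Pth.l (Pth.l (Pth.l Pth.z))) (nat_lit 175379890) (nat_lit 197901995) (by decide +kernel))
  (st_mk (Pth.l (Pth.l (Pth.l Pth.z))) (nat_lit 215892812) (nat_lit 238823381) (by decide +kernel)) sv1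
theorem so2 : StarOK sI G S2 :=
  star_mk (by decide) (by decide) rfl rfl rfl rfl rfl rfl (rfl : _ = t2) (rfl : _ = t0)
  (st_mk (Pth.l (Pth.l (Pth.l Pth.z))) (nat_lit 115317329) (nat_lit 133746848) (by decide +kernel))
  (st_mk (Pth.l (Pth.l (Pth.l Pth.z))) (nat_lit 150372005) (nat_lit 169074796) (by decide +kernel))
  (st_mk (Pth.l (Pth.l (Pth.l Pth.z))) (nat_lit 190871559) (nat_lit 209965708) (by decide +kernel)) sv2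
theorem ok : GroupOK (nat_lit 0) (nat_lit 91291648) G := grp_mk (allS_c so0 (allS_c so1 (allS_c so2 allS_n)))
theorem cov : GCov G cl7 cl9 cl9 := cov_mk
  ⟨0, by decide, rfl, rfl, rfl⟩ ⟨0, by decide, rfl, rfl, rfl⟩ ⟨1, by decide, rfl, rfl, rfl⟩ ⟨2, by decide, rfl, rfl, rfl⟩ ⟨1, by decide, rfl, rfl, rfl⟩ ⟨2, by decide, rfl, rfl, rfl⟩
end Q455_0

namespace Q455_1
def sI : I := I.pos (nat_lit 91226112) (nat_lit 150339584)
def b0_0 : Bx := Bx.mk (St.mk (I.pos (nat_lit 155795456) (nat_lit 244465664)) (I.mix (nat_lit 3506176) (nat_lit 57245696)) (I.mix (nat_lit 5668864) (nat_lit 95584256)) (I.pos (nat_lit 108281856) (nat_lit 248119296)) (I.mix (nat_lit 87965696) (nat_lit 47104000)) (I.mix (nat_lit 64913408) (nat_lit 50364416)) (I.mix (nat_lit 83558400) (nat_lit 63651840)))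
  false (nat_lit 46716057)
def b0_1 : Bx := Bx.mk (St.mk (I.mix (nat_lit 46563328) (nat_lit 141426688)) (I.mix (nat_lit 9191424) (nat_lit 34996224)) (I.mix (nat_lit 14712832) (nat_lit 27344896)) (I.pos (nat_lit 9076736) (nat_lit 105054208)) (I.mix (nat_lit 39845888) (nat_lit 34996224)) (I.mix (nat_lit 35389440) (nat_lit 24084480)) (I.mix (nat_lit 28082176) (nat_lit 18022400)))
  false (nat_lit 0)
def b0_2 : Bx := Bx.mk (St.mk (I.pos (nat_lit 103563264) (nat_lit 157696000)) (I.mix (nat_lit 57622528) (nat_lit 11124736)) (I.mix (nat_lit 61014016) (nat_lit 7208960)) (I.pos (nat_lit 60342272) (nat_lit 127598592)) (I.mix (nat_lit 81723392) (nat_lit 25477120)) (I.mix (nat_lit 35422208) (nat_lit 70500352)) (I.mix (nat_lit 26574848) (nat_lit 59539456)))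
  false (nat_lit 0)
def b0_3 : Bx := Bx.mk (St.mk (I.mix (nat_lit 27951104) (nat_lit 97779712)) (I.mix (nat_lit 27623424) (nat_lit 3948544)) (I.mix (nat_lit 19644416) (nat_lit 2736128)) (I.pos (nat_lit 14565376) (nat_lit 69402624)) (I.mix (nat_lit 29376512) (nat_lit 14204928)) (I.mix (nat_lit 14417920) (nat_lit 28098560)) (I.mix (nat_lit 7634944) (nat_lit 14827520)))
  false (nat_lit 0)
def b0_4 : Bx := Bx.mk (St.mk (I.pos (nat_lit 207011840) (nat_lit 287899648)) (I.mix (nat_lit 25739264) (nat_lit 42614784)) (I.mix (nat_lit 70205440) (nat_lit 72417280)) (I.pos (nat_lit 198918144) (nat_lit 346423296)) (I.mix (nat_lit 64815104) (nat_lit 50774016)) (I.mix (nat_lit 57671680) (nat_lit 41205760)) (I.mix (nat_lit 103317504) (nat_lit 73039872)))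
  false (nat_lit 39130543)
def b0_5 : Bx := Bx.mk (St.mk (I.pos (nat_lit 104153088) (nat_lit 186417152)) (I.mix (nat_lit 59736064) (nat_lit 2834432)) (I.mix (nat_lit 60997632) (nat_lit 2981888)) (I.pos (nat_lit 75251712) (nat_lit 164954112)) (I.mix (nat_lit 75972608) (nat_lit 43417600)) (I.mix (nat_lit 40927232) (nat_lit 62128128)) (I.mix (nat_lit 33505280) (nat_lit 62947328)))
  false (nat_lit 0)
def b0_6 : Bx := Bx.mk (St.mk (I.mix (nat_lit 37470208) (nat_lit 109527040)) (I.mix (nat_lit 32489472) (nat_lit 8241152)) (I.mix (nat_lit 24805376) (nat_lit 5472256)) (I.pos (nat_lit 11075584) (nat_lit 78462976)) (I.mix (nat_lit 33914880) (nat_lit 27213824)) (I.mix (nat_lit 19742720) (nat_lit 31178752)) (I.mix (nat_lit 12992512) (nat_lit 20103168)))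
  false (nat_lit 0)
def b0_7 : Bx := Bx.mk (St.mk (I.pos (nat_lit 171982848) (nat_lit 222494720)) (I.mix (nat_lit 15712256) (nat_lit 62881792)) (I.mix (nat_lit 3391488) (nat_lit 99713024)) (I.pos (nat_lit 132300800) (nat_lit 219856896)) (I.mix (nat_lit 126107648) (nat_lit 39960576)) (I.mix (nat_lit 122568704) (nat_lit 66158592)) (I.mix (nat_lit 139608064) (nat_lit 67354624)))
  false (nat_lit 0)
def b0_8 : Bx := Bx.mk (St.mk (I.mix (nat_lit 33226752) (nat_lit 135462912)) (I.mix (nat_lit 16121856) (nat_lit 41549824)) (I.mix (nat_lit 17727488) (nat_lit 30326784)) (I.pos (nat_lit 12730368) (nat_lit 96206848)) (I.mix (nat_lit 49446912) (nat_lit 33832960)) (I.mix (nat_lit 50741248) (nat_lit 29409280)) (I.mix (nat_lit 32768000) (nat_lit 18169856)))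
  false (nat_lit 0)
def b0_9 : Bx := Bx.mk (St.mk (I.pos (nat_lit 149520384) (nat_lit 216481792)) (I.mix (nat_lit 46874624) (nat_lit 24068096)) (I.mix (nat_lit 51740672) (nat_lit 44597248)) (I.pos (nat_lit 107642880) (nat_lit 205586432)) (I.mix (nat_lit 50675712) (nat_lit 45875200)) (I.mix (nat_lit 53346304) (nat_lit 46448640)) (I.mix (nat_lit 55246848) (nat_lit 48758784)))
  false (nat_lit 0)
def b0_10 : Bx := Bx.mk (St.mk (I.pos (nat_lit 173162496) (nat_lit 217219072)) (I.mix (nat_lit 19333120) (nat_lit 37322752)) (I.mix (nat_lit 10190848) (nat_lit 64454656)) (I.pos (nat_lit 138133504) (nat_lit 204898304)) (I.mix (nat_lit 98713600) (nat_lit 50462720)) (I.mix (nat_lit 117129216) (nat_lit 55836672)) (I.mix (nat_lit 136347648) (nat_lit 59490304)))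
  false (nat_lit 0)
def b0_11 : Bx := Bx.mk (St.mk (I.pos (nat_lit 188645376) (nat_lit 242089984)) (I.pos (nat_lit 5980160) (nat_lit 53673984)) (I.pos (nat_lit 8912896) (nat_lit 91062272)) (I.pos (nat_lit 180371456) (nat_lit 244580352)) (I.mix (nat_lit 77004800) (nat_lit 56655872)) (I.mix (nat_lit 70418432) (nat_lit 52772864)) (I.mix (nat_lit 107397120) (nat_lit 66142208)))
  false (nat_lit 29145747)
def t0 : BTr := (BTr.n (BTr.n (BTr.n (BTr.b b0_0) (BTr.n (BTr.b b0_1) (BTr.b b0_2))) (BTr.n (BTr.b b0_3) (BTr.n (BTr.b b0_4) (BTr.b b0_5)))) (BTr.n (BTr.n (BTr.b b0_6) (BTr.n (BTr.b b0_7) (BTr.b b0_8))) (BTr.n (BTr.b b0_9) (BTr.n (BTr.b b0_10) (BTr.b b0_11)))))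
namespace T0
def l0 : Tr := Tr.L (Pth.l (Pth.l (Pth.l Pth.z)))
def l1 : Tr := Tr.L (Pth.l (Pth.l (Pth.r (Pth.l Pth.z))))
def l2 : Tr := Tr.L (Pth.l (Pth.l (Pth.r (Pth.r Pth.z))))
def l3 : Tr := Tr.L (Pth.l (Pth.r (Pth.l Pth.z)))
def l4 : Tr := Tr.L (Pth.l (Pth.r (Pth.r (Pth.l Pth.z))))
def l5 : Tr := Tr.L (Pth.l (Pth.r (Pth.r (Pth.r Pth.z))))
def l6 : Tr := Tr.L (Pth.r (Pth.l (Pth.l Pth.z)))
def l7 : Tr := Tr.L (Pth.r (Pth.l (Pth.r (Pth.l Pth.z))))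
def l8 : Tr := Tr.L (Pth.r (Pth.l (Pth.r (Pth.r Pth.z))))
def l9 : Tr := Tr.L (Pth.r (Pth.r (Pth.l Pth.z)))
def l10 : Tr := Tr.L (Pth.r (Pth.r (Pth.r (Pth.l Pth.z))))
def l11 : Tr := Tr.L (Pth.r (Pth.r (Pth.r (Pth.r Pth.z))))
end T0
def b1_0 : Bx := Bx.mk (St.mk (I.pos (nat_lit 156090368) (nat_lit 239222784)) (I.mix (nat_lit 3538944) (nat_lit 57966592)) (I.mix (nat_lit 5816320) (nat_lit 98107392)) (I.pos (nat_lit 135135232) (nat_lit 269090816)) (I.mix (nat_lit 88735744) (nat_lit 48463872)) (I.mix (nat_lit 63537152) (nat_lit 50298880)) (I.mix (nat_lit 87080960) (nat_lit 65896448)))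
  false (nat_lit 51016977)
def b1_1 : Bx := Bx.mk (St.mk (I.pos (nat_lit 95633408) (nat_lit 180256768)) (I.mix (nat_lit 66027520) (nat_lit 2260992)) (I.mix (nat_lit 64176128) (nat_lit 7979008)) (I.pos (nat_lit 91734016) (nat_lit 183943168)) (I.mix (nat_lit 73302016) (nat_lit 44646400)) (I.mix (nat_lit 40615936) (nat_lit 61734912)) (I.mix (nat_lit 29999104) (nat_lit 58540032)))
  false (nat_lit 0)
def b1_2 : Bx := Bx.mk (St.mk (I.mix (nat_lit 49856512) (nat_lit 127746048)) (I.mix (nat_lit 10174464) (nat_lit 40239104)) (I.mix (nat_lit 15646720) (nat_lit 28262400)) (I.pos (nat_lit 31326208) (nat_lit 119865344)) (I.mix (nat_lit 41795584) (nat_lit 40943616)) (I.mix (nat_lit 41713664) (nat_lit 25640960)) (I.mix (nat_lit 30572544) (nat_lit 17612800)))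
  false (nat_lit 0)
def b1_3 : Bx := Bx.mk (St.mk (I.mix (nat_lit 38207488) (nat_lit 89784320)) (I.mix (nat_lit 36110336) (nat_lit 8830976)) (I.mix (nat_lit 22364160) (nat_lit 7454720)) (I.pos (nat_lit 35012608) (nat_lit 92471296)) (I.mix (nat_lit 31719424) (nat_lit 29720576)) (I.mix (nat_lit 18776064) (nat_lit 31522816)) (I.mix (nat_lit 10485760) (nat_lit 17137664)))
  false (nat_lit 0)
def b1_4 : Bx := Bx.mk (St.mk (I.pos (nat_lit 165068800) (nat_lit 218644480)) (I.mix (nat_lit 13729792) (nat_lit 66142208)) (I.pos (nat_lit 1441792) (nat_lit 104513536)) (I.pos (nat_lit 149684224) (nat_lit 239861760)) (I.mix (nat_lit 122978304) (nat_lit 37355520)) (I.mix (nat_lit 116457472) (nat_lit 65077248)) (I.mix (nat_lit 127631360) (nat_lit 62373888)))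
  false (nat_lit 62718576)
def b1_5 : Bx := Bx.mk (St.mk (I.pos (nat_lit 89604096) (nat_lit 148389888)) (I.mix (nat_lit 62308352) (nat_lit 12009472)) (I.mix (nat_lit 60719104) (nat_lit 6586368)) (I.pos (nat_lit 76021760) (nat_lit 144523264)) (I.mix (nat_lit 77791232) (nat_lit 26443776)) (I.mix (nat_lit 33996800) (nat_lit 75956224)) (I.mix (nat_lit 24674304) (nat_lit 58195968)))
  false (nat_lit 0)
def b1_6 : Bx := Bx.mk (St.mk (I.mix (nat_lit 45547520) (nat_lit 119013376)) (I.mix (nat_lit 15974400) (nat_lit 45056000)) (I.mix (nat_lit 18333696) (nat_lit 29065216)) (I.pos (nat_lit 37683200) (nat_lit 109150208)) (I.mix (nat_lit 50479104) (nat_lit 34422784)) (I.mix (nat_lit 49430528) (nat_lit 28114944)) (I.mix (nat_lit 27000832) (nat_lit 15794176)))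
  false (nat_lit 0)
def b1_7 : Bx := Bx.mk (St.mk (I.mix (nat_lit 40550400) (nat_lit 70811648)) (I.mix (nat_lit 27492352) (nat_lit 5619712)) (I.mix (nat_lit 15941632) (nat_lit 4341760)) (I.pos (nat_lit 40402944) (nat_lit 81018880)) (I.mix (nat_lit 32489472) (nat_lit 16596992)) (I.mix (nat_lit 14024704) (nat_lit 30998528)) (I.mix (nat_lit 8601600) (nat_lit 11943936)))
  false (nat_lit 0)
def b1_8 : Bx := Bx.mk (St.mk (I.pos (nat_lit 191725568) (nat_lit 291028992)) (I.mix (nat_lit 27688960) (nat_lit 48054272)) (I.mix (nat_lit 74792960) (nat_lit 81674240)) (I.pos (nat_lit 203161600) (nat_lit 376373248)) (I.mix (nat_lit 69648384) (nat_lit 53936128)) (I.mix (nat_lit 58425344) (nat_lit 40878080)) (I.mix (nat_lit 103563264) (nat_lit 70975488)))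
  false (nat_lit 64232098)
def b1_9 : Bx := Bx.mk (St.mk (I.pos (nat_lit 143179776) (nat_lit 211861504)) (I.mix (nat_lit 44204032) (nat_lit 26296320)) (I.mix (nat_lit 43548672) (nat_lit 50970624)) (I.pos (nat_lit 125829120) (nat_lit 224837632)) (I.mix (nat_lit 49512448) (nat_lit 45481984)) (I.mix (nat_lit 50266112) (nat_lit 47644672)) (I.mix (nat_lit 50774016) (nat_lit 49692672)))
  false (nat_lit 0)
def b1_10 : Bx := Bx.mk (St.mk (I.pos (nat_lit 183123968) (nat_lit 235094016)) (I.pos (nat_lit 14614528) (nat_lit 57376768)) (I.pos (nat_lit 25133056) (nat_lit 96731136)) (I.pos (nat_lit 198459392) (nat_lit 259276800)) (I.mix (nat_lit 83460096) (nat_lit 63504384)) (I.mix (nat_lit 77430784) (nat_lit 57278464)) (I.mix (nat_lit 115720192) (nat_lit 70172672)))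
  false (nat_lit 30375730)
def b1_11 : Bx := Bx.mk (St.mk (I.pos (nat_lit 167264256) (nat_lit 213598208)) (I.mix (nat_lit 17825792) (nat_lit 41238528)) (I.mix (nat_lit 4882432) (nat_lit 71925760)) (I.pos (nat_lit 156450816) (nat_lit 225280000)) (I.mix (nat_lit 103153664) (nat_lit 51314688)) (I.mix (nat_lit 118915072) (nat_lit 54607872)) (I.mix (nat_lit 131792896) (nat_lit 54771712)))
  false (nat_lit 0)
def t1 : BTr := (BTr.n (BTr.n (BTr.n (BTr.b b1_0) (BTr.n (BTr.b b1_1) (BTr.b b1_2))) (BTr.n (BTr.b b1_3) (BTr.n (BTr.b b1_4) (BTr.b b1_5)))) (BTr.n (BTr.n (BTr.b b1_6) (BTr.n (BTr.b b1_7) (BTr.b b1_8))) (BTr.n (BTr.b b1_9) (BTr.n (BTr.b b1_10) (BTr.b b1_11)))))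
namespace T1
def l0 : Tr := Tr.L (Pth.l (Pth.l (Pth.l Pth.z)))
def l1 : Tr := Tr.L (Pth.l (Pth.l (Pth.r (Pth.l Pth.z))))
def l2 : Tr := Tr.L (Pth.l (Pth.l (Pth.r (Pth.r Pth.z))))
def l3 : Tr := Tr.L (Pth.l (Pth.r (Pth.l Pth.z)))
def l4 : Tr := Tr.L (Pth.l (Pth.r (Pth.r (Pth.l Pth.z))))
def l5 : Tr := Tr.L (Pth.l (Pth.r (Pth.r (Pth.r Pth.z))))
def l6 : Tr := Tr.L (Pth.r (Pth.l (Pth.l Pth.z)))
def l7 : Tr := Tr.L (Pth.r (Pth.l (Pth.r (Pth.l Pth.z))))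
def l8 : Tr := Tr.L (Pth.r (Pth.l (Pth.r (Pth.r Pth.z))))
def l9 : Tr := Tr.L (Pth.r (Pth.r (Pth.l Pth.z)))
def l10 : Tr := Tr.L (Pth.r (Pth.r (Pth.r (Pth.l Pth.z))))
def l11 : Tr := Tr.L (Pth.r (Pth.r (Pth.r (Pth.r Pth.z))))
end T1
def b2_0 : Bx := Bx.mk (St.mk (I.pos (nat_lit 155942912) (nat_lit 241958912)) (I.mix (nat_lit 3293184) (nat_lit 53673984)) (I.mix (nat_lit 5980160) (nat_lit 100909056)) (I.pos (nat_lit 108134400) (nat_lit 244023296)) (I.mix (nat_lit 89653248) (nat_lit 49725440)) (I.mix (nat_lit 66715648) (nat_lit 51871744)) (I.mix (nat_lit 92389376) (nat_lit 66912256)))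
  false (nat_lit 17984330)
def b2_1 : Bx := Bx.mk (St.mk (I.pos (nat_lit 106790912) (nat_lit 187498496)) (I.mix (nat_lit 60080128) (nat_lit 475136)) (I.mix (nat_lit 56180736) (nat_lit 10338304)) (I.pos (nat_lit 77381632) (nat_lit 165412864)) (I.mix (nat_lit 72990720) (nat_lit 39780352)) (I.mix (nat_lit 37814272) (nat_lit 54870016)) (I.mix (nat_lit 30097408) (nat_lit 54722560)))
  false (nat_lit 0)
def b2_2 : Bx := Bx.mk (St.mk (I.mix (nat_lit 35684352) (nat_lit 110346240)) (I.mix (nat_lit 32636928) (nat_lit 7733248)) (I.mix (nat_lit 21151744) (nat_lit 8896512)) (I.pos (nat_lit 11337728) (nat_lit 78626816)) (I.mix (nat_lit 31195136) (nat_lit 25985024)) (I.mix (nat_lit 17891328) (nat_lit 26804224)) (I.mix (nat_lit 10960896) (nat_lit 16678912)))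
  false (nat_lit 0)
def b2_3 : Bx := Bx.mk (St.mk (I.pos (nat_lit 172376064) (nat_lit 221478912)) (I.mix (nat_lit 15155200) (nat_lit 62046208)) (I.pos (nat_lit 2523136) (nat_lit 106463232)) (I.pos (nat_lit 131170304) (nat_lit 215760896)) (I.mix (nat_lit 130760704) (nat_lit 40222720)) (I.mix (nat_lit 128466944) (nat_lit 66945024)) (I.mix (nat_lit 151388160) (nat_lit 66027520)))
  false (nat_lit 27893126)
def b2_4 : Bx := Bx.mk (St.mk (I.mix (nat_lit 33226752) (nat_lit 133758976)) (I.mix (nat_lit 15548416) (nat_lit 41566208)) (I.mix (nat_lit 12353536) (nat_lit 33914880)) (I.pos (nat_lit 12582912) (nat_lit 95535104)) (I.mix (nat_lit 53133312) (nat_lit 29949952)) (I.mix (nat_lit 47153152) (nat_lit 29130752)) (I.mix (nat_lit 30769152) (nat_lit 18120704)))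
  false (nat_lit 0)
def b2_5 : Bx := Bx.mk (St.mk (I.pos (nat_lit 149684224) (nat_lit 215908352)) (I.mix (nat_lit 45285376) (nat_lit 23101440)) (I.mix (nat_lit 42237952) (nat_lit 51675136)) (I.pos (nat_lit 108658688) (nat_lit 203030528)) (I.mix (nat_lit 51675136) (nat_lit 51118080)) (I.mix (nat_lit 54132736) (nat_lit 51527680)) (I.mix (nat_lit 55656448) (nat_lit 54362112)))
  false (nat_lit 0)
def b2_6 : Bx := Bx.mk (St.mk (I.pos (nat_lit 171835392) (nat_lit 215220224)) (I.mix (nat_lit 19005440) (nat_lit 35438592)) (I.mix (nat_lit 2424832) (nat_lit 69713920)) (I.pos (nat_lit 134004736) (nat_lit 200736768)) (I.mix (nat_lit 95240192) (nat_lit 46809088)) (I.mix (nat_lit 108740608) (nat_lit 49364992)) (I.mix (nat_lit 127991808) (nat_lit 51675136)))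
  false (nat_lit 0)
def b2_7 : Bx := Bx.mk (St.mk (I.mix (nat_lit 48594944) (nat_lit 141000704)) (I.mix (nat_lit 8863744) (nat_lit 34816000)) (I.mix (nat_lit 10108928) (nat_lit 32604160)) (I.pos (nat_lit 8798208) (nat_lit 104824832)) (I.mix (nat_lit 43237376) (nat_lit 36438016)) (I.mix (nat_lit 40943616) (nat_lit 27164672)) (I.mix (nat_lit 33259520) (nat_lit 21856256)))
  false (nat_lit 0)
def b2_8 : Bx := Bx.mk (St.mk (I.pos (nat_lit 103792640) (nat_lit 159678464)) (I.mix (nat_lit 58671104) (nat_lit 11010048)) (I.mix (nat_lit 56819712) (nat_lit 12058624)) (I.pos (nat_lit 60784640) (nat_lit 129662976)) (I.mix (nat_lit 78675968) (nat_lit 26132480)) (I.mix (nat_lit 34209792) (nat_lit 74399744)) (I.mix (nat_lit 25821184) (nat_lit 62767104)))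
  false (nat_lit 0)
def b2_9 : Bx := Bx.mk (St.mk (I.pos (nat_lit 195493888) (nat_lit 290357248)) (I.mix (nat_lit 24969216) (nat_lit 44351488)) (I.mix (nat_lit 54411264) (nat_lit 88195072)) (I.pos (nat_lit 179896320) (nat_lit 348651520)) (I.mix (nat_lit 64126976) (nat_lit 52510720)) (I.mix (nat_lit 54362112) (nat_lit 41893888)) (I.mix (nat_lit 95682560) (nat_lit 68714496)))
  false (nat_lit 19549277)
def b2_10 : Bx := Bx.mk (St.mk (I.pos (nat_lit 185745408) (nat_lit 236765184)) (I.pos (nat_lit 7585792) (nat_lit 51707904)) (I.pos (nat_lit 21577728) (nat_lit 97288192)) (I.pos (nat_lit 174800896) (nat_lit 233209856)) (I.mix (nat_lit 80527360) (nat_lit 62439424)) (I.mix (nat_lit 78659584) (nat_lit 60653568)) (I.mix (nat_lit 116670464) (nat_lit 77234176)))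
  false (nat_lit 0)
def b2_11 : Bx := Bx.mk (St.mk (I.mix (nat_lit 22609920) (nat_lit 98861056)) (I.neg (nat_lit 458752) (nat_lit 27017216)) (I.mix (nat_lit 16711680) (nat_lit 6242304)) (I.pos (nat_lit 14680064) (nat_lit 69812224)) (I.mix (nat_lit 30081024) (nat_lit 15384576)) (I.mix (nat_lit 12926976) (nat_lit 29769728)) (I.mix (nat_lit 6569984) (nat_lit 15302656)))
  false (nat_lit 0)
def t2 : BTr := (BTr.n (BTr.n (BTr.n (BTr.b b2_0) (BTr.n (BTr.b b2_1) (BTr.b b2_2))) (BTr.n (BTr.b b2_3) (BTr.n (BTr.b b2_4) (BTr.b b2_5)))) (BTr.n (BTr.n (BTr.b b2_6) (BTr.n (BTr.b b2_7) (BTr.b b2_8))) (BTr.n (BTr.b b2_9) (BTr.n (BTr.b b2_10) (BTr.b b2_11)))))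
namespace T2
def l0 : Tr := Tr.L (Pth.l (Pth.l (Pth.l Pth.z)))
def l1 : Tr := Tr.L (Pth.l (Pth.l (Pth.r (Pth.l Pth.z))))
def l2 : Tr := Tr.L (Pth.l (Pth.l (Pth.r (Pth.r Pth.z))))
def l3 : Tr := Tr.L (Pth.l (Pth.r (Pth.l Pth.z)))
def l4 : Tr := Tr.L (Pth.l (Pth.r (Pth.r (Pth.l Pth.z))))
def l5 : Tr := Tr.L (Pth.l (Pth.r (Pth.r (Pth.r Pth.z))))
def l6 : Tr := Tr.L (Pth.r (Pth.l (Pth.l Pth.z)))
def l7 : Tr := Tr.L (Pth.r (Pth.l (Pth.r (Pth.l Pth.z))))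
def l8 : Tr := Tr.L (Pth.r (Pth.l (Pth.r (Pth.r Pth.z))))
def l9 : Tr := Tr.L (Pth.r (Pth.r (Pth.l Pth.z)))
def l10 : Tr := Tr.L (Pth.r (Pth.r (Pth.r (Pth.l Pth.z))))
def l11 : Tr := Tr.L (Pth.r (Pth.r (Pth.r (Pth.r Pth.z))))
end T2
theorem bx0_0 : BoxOK sI cl7 cl9 cl9 t1 t1 b0_0 :=
  box_mk (TrL.c (I.pos (nat_lit 0) (nat_lit 0)) (xa (xb T1.l0 (xa (xb T1.l0 T1.l0) T1.l0)) (xa (xb T1.l0 T1.l0) (xb T1.l0 T1.l0)))
  (TrL.c (I.pos (nat_lit 0) (nat_lit 0)) T1.l1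
  (TrL.c (I.pos (nat_lit 0) (nat_lit 111196574)) T1.l2
  (TrL.c (I.pos (nat_lit 0) (nat_lit 77433728)) T1.l3
  (TrL.c (I.pos (nat_lit 0) (nat_lit 0)) (xa T1.l4 (xk T1.l4 T1.l4))
  (TrL.c (I.pos (nat_lit 0) (nat_lit 0)) T1.l5
  (TrL.c (I.mix (nat_lit 29511666) (nat_lit 77433728)) T1.l6
  (TrL.c (I.mix (nat_lit 29511666) (nat_lit 46070178)) T1.l7
  TrL.n)))))))) (by decide +kernel)
theorem bx0_1 : BoxOK sI cl7 cl9 cl9 t1 t1 b0_1 :=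
  box_mk (TrL.c (I.pos (nat_lit 0) (nat_lit 0)) (xa (xa (xb T1.l8 (xa T1.l8 T1.l8)) T1.l8) (xa T1.l8 T1.l8))
  (TrL.c (I.pos (nat_lit 0) (nat_lit 0)) (xa T1.l1 T1.l1)
  (TrL.c (I.pos (nat_lit 0) (nat_lit 111196574)) T1.l2
  (TrL.c (I.pos (nat_lit 0) (nat_lit 77433728)) T1.l3
  (TrL.c (I.pos (nat_lit 0) (nat_lit 0)) (xa T1.l9 T1.l9)
  (TrL.c (I.pos (nat_lit 0) (nat_lit 0)) T1.l5
  (TrL.c (I.mix (nat_lit 29511666) (nat_lit 77433728)) T1.l6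
  (TrL.c (I.mix (nat_lit 29511666) (nat_lit 46070178)) T1.l7
  TrL.n)))))))) (by decide +kernel)
theorem bx0_2 : BoxOK sI cl7 cl9 cl9 t1 t1 b0_2 :=
  box_mk (TrL.c (I.pos (nat_lit 0) (nat_lit 0)) (xb T1.l8 T1.l8)
  (TrL.c (I.pos (nat_lit 0) (nat_lit 0)) T1.l1
  (TrL.c (I.pos (nat_lit 0) (nat_lit 111196574)) T1.l2
  (TrL.c (I.pos (nat_lit 0) (nat_lit 77433728)) T1.l3
  (TrL.c (I.pos (nat_lit 0) (nat_lit 0)) (xb (xa T1.l9 T1.l9) (xa T1.l9 T1.l9))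
  (TrL.c (I.pos (nat_lit 0) (nat_lit 0)) T1.l5
  (TrL.c (I.mix (nat_lit 29511666) (nat_lit 77433728)) T1.l6
  (TrL.c (I.mix (nat_lit 29511666) (nat_lit 46070178)) T1.l7
  TrL.n)))))))) (by decide +kernel)
theorem bx0_3 : BoxOK sI cl7 cl9 cl9 t1 t1 b0_3 :=
  box_mk (TrL.c (I.pos (nat_lit 0) (nat_lit 0)) T1.l8
  (TrL.c (I.pos (nat_lit 0) (nat_lit 0)) T1.l1
  (TrL.c (I.pos (nat_lit 0) (nat_lit 111196574)) T1.l2
  (TrL.c (I.pos (nat_lit 0) (nat_lit 77433728)) T1.l3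
  (TrL.c (I.pos (nat_lit 0) (nat_lit 0)) T1.l9
  (TrL.c (I.pos (nat_lit 0) (nat_lit 0)) T1.l5
  (TrL.c (I.mix (nat_lit 29511666) (nat_lit 77433728)) T1.l6
  (TrL.c (I.mix (nat_lit 29511666) (nat_lit 46070178)) T1.l7
  TrL.n)))))))) (by decide +kernel)
theorem bx0_4 : BoxOK sI cl7 cl9 cl9 t1 t1 b0_4 :=
  box_mk (TrL.c (I.pos (nat_lit 0) (nat_lit 0)) (xa (xb T1.l0 (xa T1.l0 T1.l0)) (xb T1.l0 (xa T1.l0 T1.l0)))
  (TrL.c (I.pos (nat_lit 0) (nat_lit 0)) T1.l5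
  (TrL.c (I.pos (nat_lit 0) (nat_lit 111196574)) T1.l2
  (TrL.c (I.pos (nat_lit 0) (nat_lit 77433728)) T1.l3
  (TrL.c (I.pos (nat_lit 0) (nat_lit 0)) (xa (xb (xk (xa T1.l4 T1.l4) (xa T1.l4 T1.l4)) T1.l4) (xb (xk (xa T1.l4 T1.l4) (xa T1.l4 T1.l4)) (xk (xa T1.l4 T1.l4) (xa T1.l4 T1.l4))))
  (TrL.c (I.pos (nat_lit 0) (nat_lit 0)) (xk T1.l5 T1.l5)
  (TrL.c (I.mix (nat_lit 29511666) (nat_lit 77433728)) (xR T1.l6 T1.l6)
  (TrL.c (I.mix (nat_lit 29511666) (nat_lit 46070178)) T1.l3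
  TrL.n)))))))) (by decide +kernel)
theorem bx0_5 : BoxOK sI cl7 cl9 cl9 t1 t1 b0_5 :=
  box_mk (TrL.c (I.pos (nat_lit 0) (nat_lit 0)) (xa T1.l8 T1.l0)
  (TrL.c (I.pos (nat_lit 0) (nat_lit 0)) T1.l1
  (TrL.c (I.pos (nat_lit 0) (nat_lit 111196574)) T1.l2
  (TrL.c (I.pos (nat_lit 0) (nat_lit 77433728)) T1.l3
  (TrL.c (I.pos (nat_lit 0) (nat_lit 0)) (xa (xb T1.l9 T1.l9) (xb (xk T1.l9 T1.l9) T1.l11))
  (TrL.c (I.pos (nat_lit 0) (nat_lit 0)) T1.l5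
  (TrL.c (I.mix (nat_lit 29511666) (nat_lit 77433728)) T1.l6
  (TrL.c (I.mix (nat_lit 29511666) (nat_lit 46070178)) T1.l7
  TrL.n)))))))) (by decide +kernel)
theorem bx0_6 : BoxOK sI cl7 cl9 cl9 t1 t1 b0_6 :=
  box_mk (TrL.c (I.pos (nat_lit 0) (nat_lit 0)) (xa (xa (xb (xa T1.l8 T1.l8) T1.l8) T1.l8) T1.l8)
  (TrL.c (I.pos (nat_lit 0) (nat_lit 0)) T1.l1
  (TrL.c (I.pos (nat_lit 0) (nat_lit 111196574)) T1.l2
  (TrL.c (I.pos (nat_lit 0) (nat_lit 77433728)) T1.l3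
  (TrL.c (I.pos (nat_lit 0) (nat_lit 0)) (xa T1.l9 T1.l9)
  (TrL.c (I.pos (nat_lit 0) (nat_lit 0)) T1.l5
  (TrL.c (I.mix (nat_lit 29511666) (nat_lit 77433728)) T1.l6
  (TrL.c (I.mix (nat_lit 29511666) (nat_lit 46070178)) T1.l7
  TrL.n)))))))) (by decide +kernel)
theorem bx0_7 : BoxOK sI cl7 cl9 cl9 t1 t1 b0_7 :=
  box_mk (TrL.c (I.pos (nat_lit 0) (nat_lit 0)) (xb (xa (xb T1.l10 T1.l10) (xb T1.l10 T1.l10)) (xa (xb T1.l10 (xa T1.l10 T1.l10)) (xb T1.l10 (xa T1.l10 T1.l10))))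
  (TrL.c (I.pos (nat_lit 0) (nat_lit 0)) T1.l1
  (TrL.c (I.pos (nat_lit 0) (nat_lit 111196574)) T1.l2
  (TrL.c (I.pos (nat_lit 0) (nat_lit 77433728)) T1.l3
  (TrL.c (I.pos (nat_lit 0) (nat_lit 0)) (xb (xk T1.l11 T1.l11) (xk (xa T1.l11 (xb T1.l11 T1.l11)) (xa T1.l11 (xb T1.l11 T1.l11))))
  (TrL.c (I.pos (nat_lit 0) (nat_lit 0)) T1.l5
  (TrL.c (I.mix (nat_lit 29511666) (nat_lit 77433728)) T1.l6
  (TrL.c (I.mix (nat_lit 29511666) (nat_lit 46070178)) T1.l7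
  TrL.n)))))))) (by decide +kernel)
theorem bx0_8 : BoxOK sI cl7 cl9 cl9 t1 t1 b0_8 :=
  box_mk (TrL.c (I.pos (nat_lit 0) (nat_lit 0)) (xa (xa (xb T1.l8 (xa T1.l8 T1.l8)) (xb T1.l8 T1.l8)) (xa T1.l8 T1.l8))
  (TrL.c (I.pos (nat_lit 0) (nat_lit 0)) T1.l1
  (TrL.c (I.pos (nat_lit 0) (nat_lit 111196574)) T1.l2
  (TrL.c (I.pos (nat_lit 0) (nat_lit 77433728)) T1.l3
  (TrL.c (I.pos (nat_lit 0) (nat_lit 0)) (xa T1.l9 T1.l9)
  (TrL.c (I.pos (nat_lit 0) (nat_lit 0)) T1.l5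
  (TrL.c (I.mix (nat_lit 29511666) (nat_lit 77433728)) T1.l6
  (TrL.c (I.mix (nat_lit 29511666) (nat_lit 46070178)) T1.l7
  TrL.n)))))))) (by decide +kernel)
theorem bx0_9 : BoxOK sI cl7 cl9 cl9 t1 t1 b0_9 :=
  box_mk (TrL.c (I.pos (nat_lit 0) (nat_lit 0)) (xa T1.l0 T1.l0)
  (TrL.c (I.pos (nat_lit 0) (nat_lit 0)) T1.l1
  (TrL.c (I.pos (nat_lit 0) (nat_lit 111196574)) T1.l2
  (TrL.c (I.pos (nat_lit 0) (nat_lit 77433728)) T1.l3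
  (TrL.c (I.pos (nat_lit 0) (nat_lit 0)) (xb (xa (xk T1.l11 T1.l11) (xk T1.l11 T1.l11)) T1.l4)
  (TrL.c (I.pos (nat_lit 0) (nat_lit 0)) T1.l5
  (TrL.c (I.mix (nat_lit 29511666) (nat_lit 77433728)) T1.l6
  (TrL.c (I.mix (nat_lit 29511666) (nat_lit 46070178)) T1.l7
  TrL.n)))))))) (by decide +kernel)
theorem bx0_10 : BoxOK sI cl7 cl9 cl9 t1 t1 b0_10 :=
  box_mk (TrL.c (I.pos (nat_lit 0) (nat_lit 0)) (xb T1.l10 T1.l10)
  (TrL.c (I.pos (nat_lit 0) (nat_lit 0)) T1.l1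
  (TrL.c (I.pos (nat_lit 0) (nat_lit 111196574)) T1.l2
  (TrL.c (I.pos (nat_lit 0) (nat_lit 77433728)) T1.l3
  (TrL.c (I.pos (nat_lit 0) (nat_lit 0)) (xb (xk T1.l11 T1.l11) T1.l11)
  (TrL.c (I.pos (nat_lit 0) (nat_lit 0)) T1.l5
  (TrL.c (I.mix (nat_lit 29511666) (nat_lit 77433728)) T1.l6
  (TrL.c (I.mix (nat_lit 29511666) (nat_lit 46070178)) T1.l7
  TrL.n)))))))) (by decide +kernel)
theorem bx0_11 : BoxOK sI cl7 cl9 cl9 t1 t1 b0_11 :=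
  box_mk (TrL.c (I.pos (nat_lit 0) (nat_lit 0)) (xa T1.l0 (xb T1.l0 T1.l0))
  (TrL.c (I.pos (nat_lit 0) (nat_lit 0)) T1.l1
  (TrL.c (I.pos (nat_lit 0) (nat_lit 111196574)) T1.l2
  (TrL.c (I.pos (nat_lit 0) (nat_lit 77433728)) T1.l3
  (TrL.c (I.pos (nat_lit 0) (nat_lit 0)) (xk T1.l4 T1.l4)
  (TrL.c (I.pos (nat_lit 0) (nat_lit 0)) T1.l5
  (TrL.c (I.mix (nat_lit 29511666) (nat_lit 77433728)) T1.l6
  (TrL.c (I.mix (nat_lit 29511666) (nat_lit 46070178)) T1.l3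
  TrL.n)))))))) (by decide +kernel)
theorem sv0 : StarV sI cl7 cl9 cl9 t1 t1 t0 :=
  (bt_n (bt_n (bt_n (bt_b bx0_0) (bt_n (bt_b bx0_1) (bt_b bx0_2))) (bt_n (bt_b bx0_3) (bt_n (bt_b bx0_4) (bt_b bx0_5)))) (bt_n (bt_n (bt_b bx0_6) (bt_n (bt_b bx0_7) (bt_b bx0_8))) (bt_n (bt_b bx0_9) (bt_n (bt_b bx0_10) (bt_b bx0_11)))))
def S0 : StarD := StarD.mk cl7 cl9 cl9 1 1 t0
theorem bx1_0 : BoxOK sI cl9 cl7 cl9 t0 t2 b1_0 :=
  box_mk (TrL.c (I.pos (nat_lit 0) (nat_lit 0)) (xa (xb T0.l0 (xa T0.l0 T0.l0)) (xb T0.l0 T0.l0))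
  (TrL.c (I.pos (nat_lit 0) (nat_lit 0)) T2.l1
  (TrL.c (I.pos (nat_lit 0) (nat_lit 124588530)) T0.l1
  (TrL.c (I.pos (nat_lit 0) (nat_lit 96881482)) T2.l2
  (TrL.c (I.pos (nat_lit 0) (nat_lit 0)) (xa T2.l3 T2.l3)
  (TrL.c (I.pos (nat_lit 0) (nat_lit 0)) T0.l2
  (TrL.c (I.mix (nat_lit 17240550) (nat_lit 96881482)) T2.l4
  (TrL.c (I.mix (nat_lit 17240550) (nat_lit 71940500)) T0.l3
  TrL.n)))))))) (by decide +kernel)
theorem bx1_1 : BoxOK sI cl9 cl7 cl9 t0 t2 b1_1 :=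
  box_mk (TrL.c (I.pos (nat_lit 0) (nat_lit 0)) (xa (xb T0.l4 T0.l4) T0.l0)
  (TrL.c (I.pos (nat_lit 0) (nat_lit 0)) T2.l1
  (TrL.c (I.pos (nat_lit 0) (nat_lit 124588530)) T0.l1
  (TrL.c (I.pos (nat_lit 0) (nat_lit 96881482)) T2.l2
  (TrL.c (I.pos (nat_lit 0) (nat_lit 0)) (xa T2.l5 (xb (xk T2.l5 T2.l5) T2.l5))
  (TrL.c (I.pos (nat_lit 0) (nat_lit 0)) T0.l2
  (TrL.c (I.mix (nat_lit 17240550) (nat_lit 96881482)) T2.l4
  (TrL.c (I.mix (nat_lit 17240550) (nat_lit 71940500)) T0.l3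
  TrL.n)))))))) (by decide +kernel)
theorem bx1_2 : BoxOK sI cl9 cl7 cl9 t0 t2 b1_2 :=
  box_mk (TrL.c (I.pos (nat_lit 0) (nat_lit 0)) (xa (xa (xb (xa T0.l4 T0.l4) (xa T0.l4 T0.l4)) T0.l4) (xa T0.l4 T0.l4))
  (TrL.c (I.pos (nat_lit 0) (nat_lit 0)) (xa T2.l1 T2.l1)
  (TrL.c (I.pos (nat_lit 0) (nat_lit 124588530)) T0.l1
  (TrL.c (I.pos (nat_lit 0) (nat_lit 96881482)) T2.l2
  (TrL.c (I.pos (nat_lit 0) (nat_lit 0)) (xa T2.l5 T2.l5)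
  (TrL.c (I.pos (nat_lit 0) (nat_lit 0)) T0.l2
  (TrL.c (I.mix (nat_lit 17240550) (nat_lit 96881482)) T2.l4
  (TrL.c (I.mix (nat_lit 17240550) (nat_lit 71940500)) T0.l6
  TrL.n)))))))) (by decide +kernel)
theorem bx1_3 : BoxOK sI cl9 cl7 cl9 t0 t2 b1_3 :=
  box_mk (TrL.c (I.pos (nat_lit 0) (nat_lit 0)) (xa (xa (xb T0.l4 T0.l4) T0.l4) T0.l4)
  (TrL.c (I.pos (nat_lit 0) (nat_lit 0)) T2.l1
  (TrL.c (I.pos (nat_lit 0) (nat_lit 124588530)) T0.l1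
  (TrL.c (I.pos (nat_lit 0) (nat_lit 96881482)) T2.l2
  (TrL.c (I.pos (nat_lit 0) (nat_lit 0)) T2.l5
  (TrL.c (I.pos (nat_lit 0) (nat_lit 0)) T0.l2
  (TrL.c (I.mix (nat_lit 17240550) (nat_lit 96881482)) T2.l4
  (TrL.c (I.mix (nat_lit 17240550) (nat_lit 71940500)) T0.l1
  TrL.n)))))))) (by decide +kernel)
theorem bx1_4 : BoxOK sI cl9 cl7 cl9 t0 t2 b1_4 :=
  box_mk (TrL.c (I.pos (nat_lit 0) (nat_lit 0)) (xb (xa (xb T0.l11 T0.l11) T0.l11) (xa (xb T0.l11 (xa T0.l11 T0.l11)) (xb T0.l11 (xa T0.l11 T0.l11))))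
  (TrL.c (I.pos (nat_lit 0) (nat_lit 0)) T2.l1
  (TrL.c (I.pos (nat_lit 0) (nat_lit 124588530)) T0.l1
  (TrL.c (I.pos (nat_lit 0) (nat_lit 96881482)) T2.l2
  (TrL.c (I.pos (nat_lit 0) (nat_lit 0)) (xb (xk T2.l6 T2.l6) (xk T2.l3 T2.l3))
  (TrL.c (I.pos (nat_lit 0) (nat_lit 0)) T0.l2
  (TrL.c (I.mix (nat_lit 17240550) (nat_lit 96881482)) T2.l4
  (TrL.c (I.mix (nat_lit 17240550) (nat_lit 71940500)) T0.l6
  TrL.n)))))))) (by decide +kernel)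
theorem bx1_5 : BoxOK sI cl9 cl7 cl9 t0 t2 b1_5 :=
  box_mk (TrL.c (I.pos (nat_lit 0) (nat_lit 0)) (xb T0.l4 T0.l4)
  (TrL.c (I.pos (nat_lit 0) (nat_lit 0)) T2.l1
  (TrL.c (I.pos (nat_lit 0) (nat_lit 124588530)) T0.l1
  (TrL.c (I.pos (nat_lit 0) (nat_lit 96881482)) T2.l2
  (TrL.c (I.pos (nat_lit 0) (nat_lit 0)) (xb T2.l5 T2.l5)
  (TrL.c (I.pos (nat_lit 0) (nat_lit 0)) T0.l2
  (TrL.c (I.mix (nat_lit 17240550) (nat_lit 96881482)) T2.l4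
  (TrL.c (I.mix (nat_lit 17240550) (nat_lit 71940500)) T0.l3
  TrL.n)))))))) (by decide +kernel)
theorem bx1_6 : BoxOK sI cl9 cl7 cl9 t0 t2 b1_6 :=
  box_mk (TrL.c (I.pos (nat_lit 0) (nat_lit 0)) (xa (xa (xb T0.l4 (xa T0.l4 T0.l4)) (xb T0.l4 T0.l4)) (xa T0.l4 T0.l4))
  (TrL.c (I.pos (nat_lit 0) (nat_lit 0)) (xa T2.l1 T2.l1)
  (TrL.c (I.pos (nat_lit 0) (nat_lit 124588530)) T0.l1
  (TrL.c (I.pos (nat_lit 0) (nat_lit 96881482)) T2.l2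
  (TrL.c (I.pos (nat_lit 0) (nat_lit 0)) (xa T2.l5 T2.l5)
  (TrL.c (I.pos (nat_lit 0) (nat_lit 0)) T0.l2
  (TrL.c (I.mix (nat_lit 17240550) (nat_lit 96881482)) T2.l4
  (TrL.c (I.mix (nat_lit 17240550) (nat_lit 71940500)) T0.l6
  TrL.n)))))))) (by decide +kernel)
theorem bx1_7 : BoxOK sI cl9 cl7 cl9 t0 t2 b1_7 :=
  box_mk (TrL.c (I.pos (nat_lit 0) (nat_lit 0)) T0.l4
  (TrL.c (I.pos (nat_lit 0) (nat_lit 0)) T2.l1
  (TrL.c (I.pos (nat_lit 0) (nat_lit 124588530)) T0.l1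
  (TrL.c (I.pos (nat_lit 0) (nat_lit 96881482)) T2.l2
  (TrL.c (I.pos (nat_lit 0) (nat_lit 0)) T2.l5
  (TrL.c (I.pos (nat_lit 0) (nat_lit 0)) T0.l2
  (TrL.c (I.mix (nat_lit 17240550) (nat_lit 96881482)) T2.l4
  (TrL.c (I.mix (nat_lit 17240550) (nat_lit 71940500)) T0.l1
  TrL.n)))))))) (by decide +kernel)
theorem bx1_8 : BoxOK sI cl9 cl7 cl9 t0 t2 b1_8 :=
  box_mk (TrL.c (I.pos (nat_lit 0) (nat_lit 0)) (xa (xb T0.l0 (xa T0.l0 T0.l0)) (xb T0.l0 (xa T0.l0 T0.l0)))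
  (TrL.c (I.pos (nat_lit 0) (nat_lit 0)) T2.l8
  (TrL.c (I.pos (nat_lit 0) (nat_lit 124588530)) T0.l1
  (TrL.c (I.pos (nat_lit 0) (nat_lit 96881482)) T2.l2
  (TrL.c (I.pos (nat_lit 0) (nat_lit 0)) (xa (xb (xk (xa T2.l3 T2.l3) (xa T2.l3 T2.l3)) (xk T2.l3 T2.l3)) (xb (xk (xa T2.l3 T2.l3) (xa T2.l3 T2.l3)) (xk (xa T2.l3 T2.l3) (xa T2.l3 T2.l3))))
  (TrL.c (I.pos (nat_lit 0) (nat_lit 0)) (xa T0.l2 (xk T0.l2 T0.l2))
  (TrL.c (I.mix (nat_lit 17240550) (nat_lit 96881482)) T2.l4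
  (TrL.c (I.mix (nat_lit 17240550) (nat_lit 71940500)) T0.l6
  TrL.n)))))))) (by decide +kernel)
theorem bx1_9 : BoxOK sI cl9 cl7 cl9 t0 t2 b1_9 :=
  box_mk (TrL.c (I.pos (nat_lit 0) (nat_lit 0)) (xa T0.l11 T0.l11)
  (TrL.c (I.pos (nat_lit 0) (nat_lit 0)) T2.l1
  (TrL.c (I.pos (nat_lit 0) (nat_lit 124588530)) T0.l1
  (TrL.c (I.pos (nat_lit 0) (nat_lit 96881482)) T2.l2
  (TrL.c (I.pos (nat_lit 0) (nat_lit 0)) (xa (xb T2.l5 T2.l6) (xb (xk T2.l6 T2.l6) T2.l6))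
  (TrL.c (I.pos (nat_lit 0) (nat_lit 0)) T0.l2
  (TrL.c (I.mix (nat_lit 17240550) (nat_lit 96881482)) T2.l4
  (TrL.c (I.mix (nat_lit 17240550) (nat_lit 71940500)) T0.l3
  TrL.n)))))))) (by decide +kernel)
theorem bx1_10 : BoxOK sI cl9 cl7 cl9 t0 t2 b1_10 :=
  box_mk (TrL.c (I.pos (nat_lit 0) (nat_lit 0)) (xa (xb T0.l0 T0.l0) T0.l0)
  (TrL.c (I.pos (nat_lit 0) (nat_lit 0)) T2.l1
  (TrL.c (I.pos (nat_lit 0) (nat_lit 124588530)) T0.l1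
  (TrL.c (I.pos (nat_lit 0) (nat_lit 96881482)) T2.l2
  (TrL.c (I.pos (nat_lit 0) (nat_lit 0)) (xk T2.l3 T2.l3)
  (TrL.c (I.pos (nat_lit 0) (nat_lit 0)) T0.l2
  (TrL.c (I.mix (nat_lit 17240550) (nat_lit 96881482)) T2.l4
  (TrL.c (I.mix (nat_lit 17240550) (nat_lit 71940500)) T0.l3
  TrL.n)))))))) (by decide +kernel)
theorem bx1_11 : BoxOK sI cl9 cl7 cl9 t0 t2 b1_11 :=
  box_mk (TrL.c (I.pos (nat_lit 0) (nat_lit 0)) (xb (xa T0.l11 T0.l11) (xa T0.l11 T0.l11))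
  (TrL.c (I.pos (nat_lit 0) (nat_lit 0)) T2.l1
  (TrL.c (I.pos (nat_lit 0) (nat_lit 124588530)) T0.l1
  (TrL.c (I.pos (nat_lit 0) (nat_lit 96881482)) T2.l2
  (TrL.c (I.pos (nat_lit 0) (nat_lit 0)) (xk (xb T2.l6 T2.l6) (xb T2.l6 T2.l6))
  (TrL.c (I.pos (nat_lit 0) (nat_lit 0)) T0.l2
  (TrL.c (I.mix (nat_lit 17240550) (nat_lit 96881482)) T2.l4
  (TrL.c (I.mix (nat_lit 17240550) (nat_lit 71940500)) T0.l3
  TrL.n)))))))) (by decide +kernel)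
theorem sv1 : StarV sI cl9 cl7 cl9 t0 t2 t1 :=
  (bt_n (bt_n (bt_n (bt_b bx1_0) (bt_n (bt_b bx1_1) (bt_b bx1_2))) (bt_n (bt_b bx1_3) (bt_n (bt_b bx1_4) (bt_b bx1_5)))) (bt_n (bt_n (bt_b bx1_6) (bt_n (bt_b bx1_7) (bt_b bx1_8))) (bt_n (bt_b bx1_9) (bt_n (bt_b bx1_10) (bt_b bx1_11)))))
def S1 : StarD := StarD.mk cl9 cl7 cl9 0 2 t1
theorem bx2_0 : BoxOK sI cl9 cl9 cl7 t2 t0 b2_0 :=
  box_mk (TrL.c (I.pos (nat_lit 0) (nat_lit 0)) (xa (xa (xb T2.l0 T2.l0) T2.l10) (xb T2.l0 (xa T2.l0 T2.l0)))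
  (TrL.c (I.pos (nat_lit 0) (nat_lit 0)) T0.l5
  (TrL.c (I.pos (nat_lit 0) (nat_lit 124588530)) T2.l7
  (TrL.c (I.pos (nat_lit 0) (nat_lit 96881482)) T0.l6
  (TrL.c (I.pos (nat_lit 0) (nat_lit 0)) (xa T0.l7 T0.l7)
  (TrL.c (I.pos (nat_lit 0) (nat_lit 0)) T2.l8
  (TrL.c (I.mix (nat_lit 17240550) (nat_lit 96881482)) T0.l8
  (TrL.c (I.mix (nat_lit 17240550) (nat_lit 71940500)) T2.l2
  TrL.n)))))))) (by decide +kernel)
theorem bx2_1 : BoxOK sI cl9 cl9 cl7 t2 t0 b2_1 :=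
  box_mk (TrL.c (I.pos (nat_lit 0) (nat_lit 0)) (xa (xb T2.l9 T2.l9) T2.l0)
  (TrL.c (I.pos (nat_lit 0) (nat_lit 0)) T0.l5
  (TrL.c (I.pos (nat_lit 0) (nat_lit 124588530)) T2.l7
  (TrL.c (I.pos (nat_lit 0) (nat_lit 96881482)) T0.l6
  (TrL.c (I.pos (nat_lit 0) (nat_lit 0)) (xa T0.l9 (xb (xk T0.l9 T0.l9) T0.l9))
  (TrL.c (I.pos (nat_lit 0) (nat_lit 0)) T2.l8
  (TrL.c (I.mix (nat_lit 17240550) (nat_lit 96881482)) T0.l8
  (TrL.c (I.mix (nat_lit 17240550) (nat_lit 71940500)) T2.l11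
  TrL.n)))))))) (by decide +kernel)
theorem bx2_2 : BoxOK sI cl9 cl9 cl7 t2 t0 b2_2 :=
  box_mk (TrL.c (I.pos (nat_lit 0) (nat_lit 0)) (xa (xa (xb (xa T2.l9 T2.l9) T2.l9) T2.l9) T2.l9)
  (TrL.c (I.pos (nat_lit 0) (nat_lit 0)) T0.l5
  (TrL.c (I.pos (nat_lit 0) (nat_lit 124588530)) T2.l7
  (TrL.c (I.pos (nat_lit 0) (nat_lit 96881482)) T0.l6
  (TrL.c (I.pos (nat_lit 0) (nat_lit 0)) T0.l9
  (TrL.c (I.pos (nat_lit 0) (nat_lit 0)) T2.l8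
  (TrL.c (I.mix (nat_lit 17240550) (nat_lit 96881482)) T0.l8
  (TrL.c (I.mix (nat_lit 17240550) (nat_lit 71940500)) T2.l2
  TrL.n)))))))) (by decide +kernel)
theorem bx2_3 : BoxOK sI cl9 cl9 cl7 t2 t0 b2_3 :=
  box_mk (TrL.c (I.pos (nat_lit 0) (nat_lit 0)) (xb (xa (xb T2.l10 T2.l10) (xb T2.l10 T2.l10)) (xa (xb (xa T2.l10 T2.l10) (xa T2.l10 T2.l10)) (xb T2.l10 (xs T2.l10 T2.l10))))
  (TrL.c (I.pos (nat_lit 0) (nat_lit 0)) T0.l5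
  (TrL.c (I.pos (nat_lit 0) (nat_lit 124588530)) T2.l7
  (TrL.c (I.pos (nat_lit 0) (nat_lit 96881482)) T0.l6
  (TrL.c (I.pos (nat_lit 0) (nat_lit 0)) (xb (xk T0.l10 T0.l10) (xk (xa T0.l10 (xb T0.l10 T0.l10)) (xa T0.l10 (xb T0.l10 T0.l10))))
  (TrL.c (I.pos (nat_lit 0) (nat_lit 0)) T2.l8
  (TrL.c (I.mix (nat_lit 17240550) (nat_lit 96881482)) T0.l8
  (TrL.c (I.mix (nat_lit 17240550) (nat_lit 71940500)) T2.l11
  TrL.n)))))))) (by decide +kernel)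
theorem bx2_4 : BoxOK sI cl9 cl9 cl7 t2 t0 b2_4 :=
  box_mk (TrL.c (I.pos (nat_lit 0) (nat_lit 0)) (xa (xa (xb T2.l9 (xa T2.l9 T2.l9)) T2.l9) (xa T2.l9 T2.l9))
  (TrL.c (I.pos (nat_lit 0) (nat_lit 0)) (xa T0.l5 T0.l5)
  (TrL.c (I.pos (nat_lit 0) (nat_lit 124588530)) T2.l7
  (TrL.c (I.pos (nat_lit 0) (nat_lit 96881482)) T0.l6
  (TrL.c (I.pos (nat_lit 0) (nat_lit 0)) (xa T0.l9 T0.l9)
  (TrL.c (I.pos (nat_lit 0) (nat_lit 0)) T2.l8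
  (TrL.c (I.mix (nat_lit 17240550) (nat_lit 96881482)) T0.l8
  (TrL.c (I.mix (nat_lit 17240550) (nat_lit 71940500)) T2.l2
  TrL.n)))))))) (by decide +kernel)
theorem bx2_5 : BoxOK sI cl9 cl9 cl7 t2 t0 b2_5 :=
  box_mk (TrL.c (I.pos (nat_lit 0) (nat_lit 0)) (xa T2.l0 T2.l0)
  (TrL.c (I.pos (nat_lit 0) (nat_lit 0)) T0.l5
  (TrL.c (I.pos (nat_lit 0) (nat_lit 124588530)) T2.l7
  (TrL.c (I.pos (nat_lit 0) (nat_lit 96881482)) T0.l6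
  (TrL.c (I.pos (nat_lit 0) (nat_lit 0)) (xa (xb (xk T0.l10 T0.l10) T0.l10) (xb (xk T0.l10 T0.l10) T0.l10))
  (TrL.c (I.pos (nat_lit 0) (nat_lit 0)) T2.l8
  (TrL.c (I.mix (nat_lit 17240550) (nat_lit 96881482)) T0.l8
  (TrL.c (I.mix (nat_lit 17240550) (nat_lit 71940500)) T2.l11
  TrL.n)))))))) (by decide +kernel)
theorem bx2_6 : BoxOK sI cl9 cl9 cl7 t2 t0 b2_6 :=
  box_mk (TrL.c (I.pos (nat_lit 0) (nat_lit 0)) (xb T2.l10 T2.l10)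
  (TrL.c (I.pos (nat_lit 0) (nat_lit 0)) T0.l5
  (TrL.c (I.pos (nat_lit 0) (nat_lit 124588530)) T2.l7
  (TrL.c (I.pos (nat_lit 0) (nat_lit 96881482)) T0.l6
  (TrL.c (I.pos (nat_lit 0) (nat_lit 0)) (xk T0.l10 T0.l10)
  (TrL.c (I.pos (nat_lit 0) (nat_lit 0)) T2.l8
  (TrL.c (I.mix (nat_lit 17240550) (nat_lit 96881482)) T0.l8
  (TrL.c (I.mix (nat_lit 17240550) (nat_lit 71940500)) T2.l11
  TrL.n)))))))) (by decide +kernel)
theorem bx2_7 : BoxOK sI cl9 cl9 cl7 t2 t0 b2_7 :=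
  box_mk (TrL.c (I.pos (nat_lit 0) (nat_lit 0)) (xa (xa (xa (xb T2.l9 T2.l9) T2.l9) T2.l9) (xa T2.l9 T2.l9))
  (TrL.c (I.pos (nat_lit 0) (nat_lit 0)) (xa T0.l5 T0.l5)
  (TrL.c (I.pos (nat_lit 0) (nat_lit 124588530)) T2.l7
  (TrL.c (I.pos (nat_lit 0) (nat_lit 96881482)) T0.l6
  (TrL.c (I.pos (nat_lit 0) (nat_lit 0)) (xa T0.l9 T0.l9)
  (TrL.c (I.pos (nat_lit 0) (nat_lit 0)) T2.l8
  (TrL.c (I.mix (nat_lit 17240550) (nat_lit 96881482)) T0.l8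
  (TrL.c (I.mix (nat_lit 17240550) (nat_lit 71940500)) T2.l2
  TrL.n)))))))) (by decide +kernel)
theorem bx2_8 : BoxOK sI cl9 cl9 cl7 t2 t0 b2_8 :=
  box_mk (TrL.c (I.pos (nat_lit 0) (nat_lit 0)) (xb T2.l9 T2.l9)
  (TrL.c (I.pos (nat_lit 0) (nat_lit 0)) T0.l5
  (TrL.c (I.pos (nat_lit 0) (nat_lit 124588530)) T2.l7
  (TrL.c (I.pos (nat_lit 0) (nat_lit 96881482)) T0.l6
  (TrL.c (I.pos (nat_lit 0) (nat_lit 0)) (xb T0.l9 T0.l9)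
  (TrL.c (I.pos (nat_lit 0) (nat_lit 0)) T2.l8
  (TrL.c (I.mix (nat_lit 17240550) (nat_lit 96881482)) T0.l8
  (TrL.c (I.mix (nat_lit 17240550) (nat_lit 71940500)) T2.l11
  TrL.n)))))))) (by decide +kernel)
theorem bx2_9 : BoxOK sI cl9 cl9 cl7 t2 t0 b2_9 :=
  box_mk (TrL.c (I.pos (nat_lit 0) (nat_lit 0)) (xa (xb T2.l0 (xa T2.l0 T2.l0)) (xb T2.l0 (xa T2.l0 T2.l0)))
  (TrL.c (I.pos (nat_lit 0) (nat_lit 0)) (xa T0.l5 T0.l5)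
  (TrL.c (I.pos (nat_lit 0) (nat_lit 124588530)) T2.l7
  (TrL.c (I.pos (nat_lit 0) (nat_lit 96881482)) T0.l6
  (TrL.c (I.pos (nat_lit 0) (nat_lit 0)) (xa (xb (xk T0.l7 T0.l7) T0.l7) (xb (xk (xa T0.l7 T0.l7) (xa T0.l7 T0.l7)) (xk (xa T0.l7 T0.l7) (xa T0.l7 T0.l7))))
  (TrL.c (I.pos (nat_lit 0) (nat_lit 0)) (xa T2.l8 T2.l8)
  (TrL.c (I.mix (nat_lit 17240550) (nat_lit 96881482)) (xR T0.l8 T0.l8)
  (TrL.c (I.mix (nat_lit 17240550) (nat_lit 71940500)) T2.l2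
  TrL.n)))))))) (by decide +kernel)
theorem bx2_10 : BoxOK sI cl9 cl9 cl7 t2 t0 b2_10 :=
  box_mk (TrL.c (I.pos (nat_lit 0) (nat_lit 0)) (xa T2.l0 T2.l0)
  (TrL.c (I.pos (nat_lit 0) (nat_lit 0)) T0.l5
  (TrL.c (I.pos (nat_lit 0) (nat_lit 124588530)) T2.l7
  (TrL.c (I.pos (nat_lit 0) (nat_lit 96881482)) T0.l6
  (TrL.c (I.pos (nat_lit 0) (nat_lit 0)) (xk T0.l7 T0.l7)
  (TrL.c (I.pos (nat_lit 0) (nat_lit 0)) T2.l8
  (TrL.c (I.mix (nat_lit 17240550) (nat_lit 96881482)) T0.l8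
  (TrL.c (I.mix (nat_lit 17240550) (nat_lit 71940500)) T2.l2
  TrL.n)))))))) (by decide +kernel)
theorem bx2_11 : BoxOK sI cl9 cl9 cl7 t2 t0 b2_11 :=
  box_mk (TrL.c (I.pos (nat_lit 0) (nat_lit 0)) T2.l9
  (TrL.c (I.pos (nat_lit 0) (nat_lit 0)) T0.l5
  (TrL.c (I.pos (nat_lit 0) (nat_lit 124588530)) T2.l7
  (TrL.c (I.pos (nat_lit 0) (nat_lit 96881482)) T0.l6
  (TrL.c (I.pos (nat_lit 0) (nat_lit 0)) T0.l9
  (TrL.c (I.pos (nat_lit 0) (nat_lit 0)) T2.l8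
  (TrL.c (I.mix (nat_lit 17240550) (nat_lit 96881482)) T0.l8
  (TrL.c (I.mix (nat_lit 17240550) (nat_lit 71940500)) T2.l2
  TrL.n)))))))) (by decide +kernel)
theorem sv2 : StarV sI cl9 cl9 cl7 t2 t0 t2 :=
  (bt_n (bt_n (bt_n (bt_b bx2_0) (bt_n (bt_b bx2_1) (bt_b bx2_2))) (bt_n (bt_b bx2_3) (bt_n (bt_b bx2_4) (bt_b bx2_5)))) (bt_n (bt_n (bt_b bx2_6) (bt_n (bt_b bx2_7) (bt_b bx2_8))) (bt_n (bt_b bx2_9) (bt_n (bt_b bx2_10) (bt_b bx2_11)))))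
def S2 : StarD := StarD.mk cl9 cl9 cl7 2 0 t2
def G : List StarD := [S0, S1, S2]
theorem so0 : StarOK sI G S0 :=
  star_mk (by decide) (by decide) rfl rfl rfl rfl rfl rfl (rfl : _ = t1) (rfl : _ = t1)
  (st_mk (Pth.l (Pth.l (Pth.l Pth.z))) (nat_lit 115760512) (nat_lit 134381225) (by decide +kernel))
  (st_mk (Pth.l (Pth.l (Pth.l Pth.z))) (nat_lit 151125797) (nat_lit 170096741) (by decide +kernel))
  (st_mk (Pth.l (Pth.l (Pth.l Pth.z))) (nat_lit 192088290) (nat_lit 211554852) (by decide +kernel)) sv0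
theorem so1 : StarOK sI G S1 :=
  star_mk (by decide) (by decide) rfl rfl rfl rfl rfl rfl (rfl : _ = t0) (rfl : _ = t2)
  (st_mk (Pth.l (Pth.l (Pth.l Pth.z))) (nat_lit 140417496) (nat_lit 162696780) (by decide +kernel))
  (st_mk (Pth.l (Pth.l (Pth.l Pth.z))) (nat_lit 175547155) (nat_lit 198138497) (by decide +kernel))
  (st_mk (Pth.l (Pth.l (Pth.l Pth.z))) (nat_lit 216145273) (nat_lit 239170679) (by decide +kernel)) sv1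
theorem so2 : StarOK sI G S2 :=
  star_mk (by decide) (by decide) rfl rfl rfl rfl rfl rfl (rfl : _ = t2) (rfl : _ = t0)
  (st_mk (Pth.l (Pth.l (Pth.l Pth.z))) (nat_lit 115395042) (nat_lit 133865936) (by decide +kernel))
  (st_mk (Pth.l (Pth.l (Pth.l Pth.z))) (nat_lit 150503929) (nat_lit 169266234) (by decide +kernel))
  (st_mk (Pth.l (Pth.l (Pth.l Pth.z))) (nat_lit 191084028) (nat_lit 210262659) (by decide +kernel)) sv2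
theorem ok : GroupOK (nat_lit 91226112) (nat_lit 150339584) G := grp_mk (allS_c so0 (allS_c so1 (allS_c so2 allS_n)))
theorem cov : GCov G cl7 cl9 cl9 := cov_mk
  ⟨0, by decide, rfl, rfl, rfl⟩ ⟨0, by decide, rfl, rfl, rfl⟩ ⟨1, by decide, rfl, rfl, rfl⟩ ⟨2, by decide, rfl, rfl, rfl⟩ ⟨1, by decide, rfl, rfl, rfl⟩ ⟨2, by decide, rfl, rfl, rfl⟩
end Q455_1

namespace Q455_2
def sI : I := I.pos (nat_lit 150274048) (nat_lit 209387520)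
def b0_0 : Bx := Bx.mk (St.mk (I.pos (nat_lit 158367744) (nat_lit 238206976)) (I.mix (nat_lit 1589248) (nat_lit 53739520)) (I.mix (nat_lit 2555904) (nat_lit 91308032)) (I.pos (nat_lit 112295936) (nat_lit 240893952)) (I.mix (nat_lit 106430464) (nat_lit 59899904)) (I.mix (nat_lit 73400320) (nat_lit 63455232)) (I.mix (nat_lit 101269504) (nat_lit 79331328)))
  false (nat_lit 32464780)
def b0_1 : Bx := Bx.mk (St.mk (I.mix (nat_lit 17104896) (nat_lit 134676480)) (I.mix (nat_lit 7077888) (nat_lit 27820032)) (I.mix (nat_lit 12828672) (nat_lit 21266432)) (I.pos (nat_lit 15122432) (nat_lit 101285888)) (I.mix (nat_lit 32227328) (nat_lit 28934144)) (I.mix (nat_lit 28065792) (nat_lit 21364736)) (I.mix (nat_lit 22216704) (nat_lit 15794176)))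
  false (nat_lit 0)
def b0_2 : Bx := Bx.mk (St.mk (I.pos (nat_lit 105922560) (nat_lit 148307968)) (I.mix (nat_lit 47906816) (nat_lit 8126464)) (I.mix (nat_lit 50135040) (nat_lit 4325376)) (I.pos (nat_lit 63651840) (nat_lit 115900416)) (I.mix (nat_lit 76677120) (nat_lit 26705920)) (I.mix (nat_lit 28311552) (nat_lit 67108864)) (I.mix (nat_lit 21266432) (nat_lit 55459840)))
  false (nat_lit 0)
def b0_3 : Bx := Bx.mk (St.mk (I.mix (nat_lit 23314432) (nat_lit 91275264)) (I.mix (nat_lit 25231360) (nat_lit 3358720)) (I.mix (nat_lit 18022400) (nat_lit 1294336)) (I.pos (nat_lit 16384000) (nat_lit 66748416)) (I.mix (nat_lit 29065216) (nat_lit 12664832)) (I.mix (nat_lit 10616832) (nat_lit 24821760)) (I.mix (nat_lit 5718016) (nat_lit 13090816)))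
  false (nat_lit 0)
def b0_4 : Bx := Bx.mk (St.mk (I.pos (nat_lit 193167360) (nat_lit 284835840)) (I.mix (nat_lit 24133632) (nat_lit 38354944)) (I.mix (nat_lit 66748416) (nat_lit 63324160)) (I.pos (nat_lit 189972480) (nat_lit 340393984)) (I.mix (nat_lit 77430784) (nat_lit 50921472)) (I.mix (nat_lit 54198272) (nat_lit 39436288)) (I.mix (nat_lit 89604096) (nat_lit 71696384)))
  false (nat_lit 12569151)
def b0_5 : Bx := Bx.mk (St.mk (I.pos (nat_lit 111181824) (nat_lit 180436992)) (I.neg (nat_lit 5914624) (nat_lit 49135616)) (I.neg (nat_lit 1638400) (nat_lit 49463296)) (I.pos (nat_lit 81117184) (nat_lit 158334976)) (I.mix (nat_lit 64585728) (nat_lit 33439744)) (I.mix (nat_lit 34029568) (nat_lit 47923200)) (I.mix (nat_lit 28475392) (nat_lit 48300032)))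
  false (nat_lit 0)
def b0_6 : Bx := Bx.mk (St.mk (I.mix (nat_lit 25788416) (nat_lit 103415808)) (I.mix (nat_lit 27852800) (nat_lit 5406720)) (I.mix (nat_lit 20987904) (nat_lit 3194880)) (I.pos (nat_lit 14925824) (nat_lit 75399168)) (I.mix (nat_lit 33079296) (nat_lit 27492352)) (I.mix (nat_lit 20594688) (nat_lit 28082176)) (I.mix (nat_lit 12812288) (nat_lit 17907712)))
  false (nat_lit 0)
def b0_7 : Bx := Bx.mk (St.mk (I.pos (nat_lit 172195840) (nat_lit 216760320)) (I.mix (nat_lit 9486336) (nat_lit 50135040)) (I.pos (nat_lit 3506176) (nat_lit 82345984)) (I.pos (nat_lit 136691712) (nat_lit 211025920)) (I.mix (nat_lit 112050176) (nat_lit 40337408)) (I.mix (nat_lit 107053056) (nat_lit 52789248)) (I.mix (nat_lit 120143872) (nat_lit 54427648)))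
  false (nat_lit 6709947)
def b0_8 : Bx := Bx.mk (St.mk (I.mix (nat_lit 23937024) (nat_lit 122650624)) (I.mix (nat_lit 12468224) (nat_lit 32260096)) (I.mix (nat_lit 10682368) (nat_lit 24821760)) (I.pos (nat_lit 15745024) (nat_lit 90865664)) (I.mix (nat_lit 48332800) (nat_lit 23117824)) (I.mix (nat_lit 40697856) (nat_lit 23805952)) (I.mix (nat_lit 25739264) (nat_lit 14991360)))
  false (nat_lit 0)
def b0_9 : Bx := Bx.mk (St.mk (I.pos (nat_lit 152436736) (nat_lit 211369984)) (I.mix (nat_lit 36634624) (nat_lit 16285696)) (I.mix (nat_lit 38633472) (nat_lit 34897920)) (I.pos (nat_lit 112984064) (nat_lit 196689920)) (I.mix (nat_lit 49348608) (nat_lit 44040192)) (I.mix (nat_lit 47415296) (nat_lit 42942464)) (I.mix (nat_lit 49364992) (nat_lit 45236224)))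
  false (nat_lit 0)
def b0_10 : Bx := Bx.mk (St.mk (I.pos (nat_lit 172310528) (nat_lit 212877312)) (I.mix (nat_lit 14483456) (nat_lit 30769152)) (I.mix (nat_lit 4636672) (nat_lit 55934976)) (I.pos (nat_lit 137560064) (nat_lit 200785920)) (I.mix (nat_lit 96911360) (nat_lit 53788672)) (I.mix (nat_lit 103055360) (nat_lit 46645248)) (I.mix (nat_lit 115163136) (nat_lit 46546944)))
  false (nat_lit 0)
def b0_11 : Bx := Bx.mk (St.mk (I.pos (nat_lit 184729600) (nat_lit 238338048)) (I.pos (nat_lit 8978432) (nat_lit 51380224)) (I.pos (nat_lit 14548992) (nat_lit 86392832)) (I.pos (nat_lit 179339264) (nat_lit 239714304)) (I.mix (nat_lit 94142464) (nat_lit 66437120)) (I.mix (nat_lit 78348288) (nat_lit 56098816)) (I.mix (nat_lit 119357440) (nat_lit 67878912)))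
  false (nat_lit 21003039)
def t0 : BTr := (BTr.n (BTr.n (BTr.n (BTr.b b0_0) (BTr.n (BTr.b b0_1) (BTr.b b0_2))) (BTr.n (BTr.b b0_3) (BTr.n (BTr.b b0_4) (BTr.b b0_5)))) (BTr.n (BTr.n (BTr.b b0_6) (BTr.n (BTr.b b0_7) (BTr.b b0_8))) (BTr.n (BTr.b b0_9) (BTr.n (BTr.b b0_10) (BTr.b b0_11)))))
namespace T0
def l0 : Tr := Tr.L (Pth.l (Pth.l (Pth.l Pth.z)))
def l1 : Tr := Tr.L (Pth.l (Pth.l (Pth.r (Pth.l Pth.z))))
def l2 : Tr := Tr.L (Pth.l (Pth.l (Pth.r (Pth.r Pth.z))))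
def l3 : Tr := Tr.L (Pth.l (Pth.r (Pth.l Pth.z)))
def l4 : Tr := Tr.L (Pth.l (Pth.r (Pth.r (Pth.l Pth.z))))
def l5 : Tr := Tr.L (Pth.l (Pth.r (Pth.r (Pth.r Pth.z))))
def l6 : Tr := Tr.L (Pth.r (Pth.l (Pth.l Pth.z)))
def l7 : Tr := Tr.L (Pth.r (Pth.l (Pth.r (Pth.l Pth.z))))
def l8 : Tr := Tr.L (Pth.r (Pth.l (Pth.r (Pth.r Pth.z))))
def l9 : Tr := Tr.L (Pth.r (Pth.r (Pth.l Pth.z)))
def l10 : Tr := Tr.L (Pth.r (Pth.r (Pth.r (Pth.l Pth.z))))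
def l11 : Tr := Tr.L (Pth.r (Pth.r (Pth.r (Pth.r Pth.z))))
end T0
def b1_0 : Bx := Bx.mk (St.mk (I.pos (nat_lit 157941760) (nat_lit 235487232)) (I.mix (nat_lit 1703936) (nat_lit 55623680)) (I.mix (nat_lit 2703360) (nat_lit 94273536)) (I.pos (nat_lit 138919936) (nat_lit 263700480)) (I.mix (nat_lit 109871104) (nat_lit 65159168)) (I.mix (nat_lit 76251136) (nat_lit 64421888)) (I.mix (nat_lit 100548608) (nat_lit 83410944)))
  false (nat_lit 60533611)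
def b1_1 : Bx := Bx.mk (St.mk (I.pos (nat_lit 101941248) (nat_lit 174309376)) (I.neg (nat_lit 6553600) (nat_lit 54558720)) (I.mix (nat_lit 51527680) (nat_lit 2441216)) (I.pos (nat_lit 97632256) (nat_lit 176996352)) (I.mix (nat_lit 65126400) (nat_lit 35586048)) (I.mix (nat_lit 34111488) (nat_lit 47153152)) (I.mix (nat_lit 28606464) (nat_lit 43188224)))
  false (nat_lit 0)
def b1_2 : Bx := Bx.mk (St.mk (I.mix (nat_lit 25395200) (nat_lit 119980032)) (I.mix (nat_lit 6471680) (nat_lit 33390592)) (I.mix (nat_lit 12419072) (nat_lit 22773760)) (I.pos (nat_lit 40189952) (nat_lit 115081216)) (I.mix (nat_lit 40058880) (nat_lit 33587200)) (I.mix (nat_lit 31080448) (nat_lit 24199168)) (I.mix (nat_lit 22167552) (nat_lit 16351232)))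
  false (nat_lit 0)
def b1_3 : Bx := Bx.mk (St.mk (I.mix (nat_lit 33636352) (nat_lit 84312064)) (I.mix (nat_lit 33292288) (nat_lit 5701632)) (I.mix (nat_lit 20529152) (nat_lit 5275648)) (I.pos (nat_lit 37912576) (nat_lit 89571328)) (I.mix (nat_lit 32243712) (nat_lit 30588928)) (I.mix (nat_lit 21807104) (nat_lit 29016064)) (I.mix (nat_lit 11583488) (nat_lit 15597568)))
  false (nat_lit 0)
def b1_4 : Bx := Bx.mk (St.mk (I.pos (nat_lit 165871616) (nat_lit 213549056)) (I.mix (nat_lit 7405568) (nat_lit 55705600)) (I.pos (nat_lit 8404992) (nat_lit 90357760)) (I.pos (nat_lit 154812416) (nat_lit 232554496)) (I.mix (nat_lit 116932608) (nat_lit 40271872)) (I.mix (nat_lit 109035520) (nat_lit 54771712)) (I.mix (nat_lit 115998720) (nat_lit 51986432)))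
  false (nat_lit 22537872)
def b1_5 : Bx := Bx.mk (St.mk (I.pos (nat_lit 92930048) (nat_lit 140279808)) (I.mix (nat_lit 53231616) (nat_lit 7405568)) (I.mix (nat_lit 51167232) (nat_lit 2686976)) (I.pos (nat_lit 79740928) (nat_lit 133611520)) (I.mix (nat_lit 76464128) (nat_lit 26820608)) (I.mix (nat_lit 28934144) (nat_lit 65142784)) (I.mix (nat_lit 20365312) (nat_lit 49119232)))
  false (nat_lit 0)
def b1_6 : Bx := Bx.mk (St.mk (I.mix (nat_lit 37044224) (nat_lit 107003904)) (I.mix (nat_lit 12173312) (nat_lit 35766272)) (I.mix (nat_lit 8486912) (nat_lit 25493504)) (I.pos (nat_lit 40665088) (nat_lit 105562112)) (I.mix (nat_lit 49119232) (nat_lit 23314432)) (I.mix (nat_lit 40321024) (nat_lit 23085056)) (I.mix (nat_lit 22249472) (nat_lit 13942784)))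
  false (nat_lit 0)
def b1_7 : Bx := Bx.mk (St.mk (I.mix (nat_lit 35028992) (nat_lit 69550080)) (I.mix (nat_lit 28737536) (nat_lit 4194304)) (I.mix (nat_lit 16105472) (nat_lit 3981312)) (I.pos (nat_lit 41598976) (nat_lit 81739776)) (I.mix (nat_lit 34783232) (nat_lit 16678912)) (I.mix (nat_lit 17072128) (nat_lit 25264128)) (I.mix (nat_lit 7847936) (nat_lit 9814016)))
  false (nat_lit 0)
def b1_8 : Bx := Bx.mk (St.mk (I.pos (nat_lit 192020480) (nat_lit 283852800)) (I.mix (nat_lit 21659648) (nat_lit 42713088)) (I.mix (nat_lit 62537728) (nat_lit 69943296)) (I.pos (nat_lit 209698816) (nat_lit 362102784)) (I.mix (nat_lit 68763648) (nat_lit 53936128)) (I.mix (nat_lit 53067776) (nat_lit 36651008)) (I.mix (nat_lit 89047040) (nat_lit 63700992)))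
  false (nat_lit 30215098)
def b1_9 : Bx := Bx.mk (St.mk (I.pos (nat_lit 146538496) (nat_lit 206323712)) (I.mix (nat_lit 37601280) (nat_lit 17170432)) (I.mix (nat_lit 35618816) (nat_lit 39305216)) (I.pos (nat_lit 131547136) (nat_lit 215252992)) (I.mix (nat_lit 51281920) (nat_lit 44941312)) (I.mix (nat_lit 45940736) (nat_lit 41402368)) (I.mix (nat_lit 45383680) (nat_lit 41844736)))
  false (nat_lit 0)
def b1_10 : Bx := Bx.mk (St.mk (I.pos (nat_lit 179519488) (nat_lit 235503616)) (I.pos (nat_lit 10452992) (nat_lit 54607872)) (I.pos (nat_lit 17743872) (nat_lit 91602944)) (I.pos (nat_lit 197328896) (nat_lit 260177920)) (I.mix (nat_lit 93339648) (nat_lit 67747840)) (I.mix (nat_lit 81494016) (nat_lit 56262656)) (I.mix (nat_lit 121487360) (nat_lit 64978944)))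
  false (nat_lit 43479226)
def b1_11 : Bx := Bx.mk (St.mk (I.pos (nat_lit 166264832) (nat_lit 208830464)) (I.mix (nat_lit 12353536) (nat_lit 34848768)) (I.pos (nat_lit 1425408) (nat_lit 63897600)) (I.pos (nat_lit 155860992) (nat_lit 221233152)) (I.mix (nat_lit 101056512) (nat_lit 51036160)) (I.mix (nat_lit 105824256) (nat_lit 47136768)) (I.mix (nat_lit 114196480) (nat_lit 45776896)))
  false (nat_lit 0)
def t1 : BTr := (BTr.n (BTr.n (BTr.n (BTr.b b1_0) (BTr.n (BTr.b b1_1) (BTr.b b1_2))) (BTr.n (BTr.b b1_3) (BTr.n (BTr.b b1_4) (BTr.b b1_5)))) (BTr.n (BTr.n (BTr.b b1_6) (BTr.n (BTr.b b1_7) (BTr.b b1_8))) (BTr.n (BTr.b b1_9) (BTr.n (BTr.b b1_10) (BTr.b b1_11)))))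
namespace T1
def l0 : Tr := Tr.L (Pth.l (Pth.l (Pth.l Pth.z)))
def l1 : Tr := Tr.L (Pth.l (Pth.l (Pth.r (Pth.l Pth.z))))
def l2 : Tr := Tr.L (Pth.l (Pth.l (Pth.r (Pth.r Pth.z))))
def l3 : Tr := Tr.L (Pth.l (Pth.r (Pth.l Pth.z)))
def l4 : Tr := Tr.L (Pth.l (Pth.r (Pth.r (Pth.l Pth.z))))
def l5 : Tr := Tr.L (Pth.l (Pth.r (Pth.r (Pth.r Pth.z))))
def l6 : Tr := Tr.L (Pth.r (Pth.l (Pth.l Pth.z)))
def l7 : Tr := Tr.L (Pth.r (Pth.l (Pth.r (Pth.l Pth.z))))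
def l8 : Tr := Tr.L (Pth.r (Pth.l (Pth.r (Pth.r Pth.z))))
def l9 : Tr := Tr.L (Pth.r (Pth.r (Pth.l Pth.z)))
def l10 : Tr := Tr.L (Pth.r (Pth.r (Pth.r (Pth.l Pth.z))))
def l11 : Tr := Tr.L (Pth.r (Pth.r (Pth.r (Pth.r Pth.z))))
end T1
def b2_0 : Bx := Bx.mk (St.mk (I.pos (nat_lit 158400512) (nat_lit 237420544)) (I.mix (nat_lit 1556480) (nat_lit 52232192)) (I.mix (nat_lit 2752512) (nat_lit 99024896)) (I.pos (nat_lit 111984640) (nat_lit 236601344)) (I.mix (nat_lit 106921984) (nat_lit 63520768)) (I.mix (nat_lit 79593472) (nat_lit 65568768)) (I.mix (nat_lit 111738880) (nat_lit 83050496)))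
  false (nat_lit 38052724)
def b2_1 : Bx := Bx.mk (St.mk (I.pos (nat_lit 114491392) (nat_lit 183566336)) (I.neg (nat_lit 3850240) (nat_lit 50642944)) (I.mix (nat_lit 46481408) (nat_lit 6307840)) (I.pos (nat_lit 83771392) (nat_lit 161251328)) (I.mix (nat_lit 64569344) (nat_lit 35995648)) (I.mix (nat_lit 32112640) (nat_lit 47726592)) (I.mix (nat_lit 28164096) (nat_lit 47546368)))
  false (nat_lit 0)
def b2_2 : Bx := Bx.mk (St.mk (I.mix (nat_lit 23560192) (nat_lit 105234432)) (I.mix (nat_lit 27770880) (nat_lit 5603328)) (I.mix (nat_lit 17301504) (nat_lit 7225344)) (I.pos (nat_lit 15106048) (nat_lit 76201984)) (I.mix (nat_lit 29851648) (nat_lit 27754496)) (I.mix (nat_lit 20119552) (nat_lit 26755072)) (I.mix (nat_lit 11894784) (nat_lit 16416768)))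
  false (nat_lit 0)
def b2_3 : Bx := Bx.mk (St.mk (I.pos (nat_lit 171507712) (nat_lit 215203840)) (I.mix (nat_lit 9519104) (nat_lit 49070080)) (I.pos (nat_lit 8847360) (nat_lit 88244224)) (I.pos (nat_lit 133627904) (nat_lit 206356480)) (I.mix (nat_lit 112607232) (nat_lit 41435136)) (I.mix (nat_lit 108871680) (nat_lit 52805632)) (I.mix (nat_lit 123928576) (nat_lit 51970048)))
  false (nat_lit 9608740)
def b2_4 : Bx := Bx.mk (St.mk (I.mix (nat_lit 24608768) (nat_lit 121864192)) (I.mix (nat_lit 12943360) (nat_lit 32342016)) (I.mix (nat_lit 7716864) (nat_lit 28672000)) (I.pos (nat_lit 15794176) (nat_lit 89980928)) (I.mix (nat_lit 49250304) (nat_lit 22364160)) (I.mix (nat_lit 41254912) (nat_lit 21807104)) (I.mix (nat_lit 27000832) (nat_lit 13598720)))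
  false (nat_lit 0)
def b2_5 : Bx := Bx.mk (St.mk (I.pos (nat_lit 151961600) (nat_lit 209764352)) (I.mix (nat_lit 37273600) (nat_lit 13090816)) (I.mix (nat_lit 32751616) (nat_lit 38780928)) (I.pos (nat_lit 112590848) (nat_lit 192708608)) (I.mix (nat_lit 47333376) (nat_lit 45613056)) (I.mix (nat_lit 44285952) (nat_lit 40960000)) (I.mix (nat_lit 45105152) (nat_lit 42631168)))
  false (nat_lit 0)
def b2_6 : Bx := Bx.mk (St.mk (I.mix (nat_lit 17203200) (nat_lit 133169152)) (I.mix (nat_lit 5570560) (nat_lit 27721728)) (I.mix (nat_lit 6848512) (nat_lit 25788416)) (I.pos (nat_lit 15106048) (nat_lit 100073472)) (I.mix (nat_lit 38846464) (nat_lit 29835264)) (I.mix (nat_lit 30359552) (nat_lit 22970368)) (I.mix (nat_lit 24231936) (nat_lit 17252352)))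
  false (nat_lit 0)
def b2_7 : Bx := Bx.mk (St.mk (I.pos (nat_lit 107134976) (nat_lit 150323200)) (I.mix (nat_lit 49037312) (nat_lit 6520832)) (I.mix (nat_lit 46268416) (nat_lit 7766016)) (I.pos (nat_lit 64765952) (nat_lit 118865920)) (I.mix (nat_lit 76431360) (nat_lit 27770880)) (I.mix (nat_lit 29900800) (nat_lit 66912256)) (I.mix (nat_lit 22855680) (nat_lit 53739520)))
  false (nat_lit 0)
def b2_8 : Bx := Bx.mk (St.mk (I.pos (nat_lit 188350464) (nat_lit 282853376)) (I.mix (nat_lit 19316736) (nat_lit 39157760)) (I.mix (nat_lit 42614784) (nat_lit 77283328)) (I.pos (nat_lit 182616064) (nat_lit 334249984)) (I.mix (nat_lit 81838080) (nat_lit 50708480)) (I.mix (nat_lit 58458112) (nat_lit 35749888)) (I.mix (nat_lit 86589440) (nat_lit 56934400)))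
  false (nat_lit 22807036)
def b2_9 : Bx := Bx.mk (St.mk (I.mix (nat_lit 19087360) (nat_lit 92618752)) (I.neg (nat_lit 393216) (nat_lit 25542656)) (I.mix (nat_lit 15400960) (nat_lit 4816896)) (I.pos (nat_lit 16547840) (nat_lit 67420160)) (I.mix (nat_lit 32096256) (nat_lit 18546688)) (I.mix (nat_lit 16007168) (nat_lit 24870912)) (I.mix (nat_lit 8355840) (nat_lit 12386304)))
  false (nat_lit 0)
def b2_10 : Bx := Bx.mk (St.mk (I.pos (nat_lit 180502528) (nat_lit 235716608)) (I.pos (nat_lit 10027008) (nat_lit 52183040)) (I.pos (nat_lit 23920640) (nat_lit 98500608)) (I.pos (nat_lit 173490176) (nat_lit 231571456)) (I.mix (nat_lit 96878592) (nat_lit 65159168)) (I.mix (nat_lit 83132416) (nat_lit 55951360)) (I.mix (nat_lit 127369216) (nat_lit 69189632)))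
  false (nat_lit 24598625)
def b2_11 : Bx := Bx.mk (St.mk (I.pos (nat_lit 170393600) (nat_lit 211238912)) (I.mix (nat_lit 14843904) (nat_lit 29966336)) (I.pos (nat_lit 2031616) (nat_lit 62570496)) (I.pos (nat_lit 132825088) (nat_lit 196919296)) (I.mix (nat_lit 101793792) (nat_lit 51838976)) (I.mix (nat_lit 106364928) (nat_lit 44810240)) (I.mix (nat_lit 119373824) (nat_lit 44269568)))
  false (nat_lit 9494879)
def t2 : BTr := (BTr.n (BTr.n (BTr.n (BTr.b b2_0) (BTr.n (BTr.b b2_1) (BTr.b b2_2))) (BTr.n (BTr.b b2_3) (BTr.n (BTr.b b2_4) (BTr.b b2_5)))) (BTr.n (BTr.n (BTr.b b2_6) (BTr.n (BTr.b b2_7) (BTr.b b2_8))) (BTr.n (BTr.b b2_9) (BTr.n (BTr.b b2_10) (BTr.b b2_11)))))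
namespace T2
def l0 : Tr := Tr.L (Pth.l (Pth.l (Pth.l Pth.z)))
def l1 : Tr := Tr.L (Pth.l (Pth.l (Pth.r (Pth.l Pth.z))))
def l2 : Tr := Tr.L (Pth.l (Pth.l (Pth.r (Pth.r Pth.z))))
def l3 : Tr := Tr.L (Pth.l (Pth.r (Pth.l Pth.z)))
def l4 : Tr := Tr.L (Pth.l (Pth.r (Pth.r (Pth.l Pth.z))))
def l5 : Tr := Tr.L (Pth.l (Pth.r (Pth.r (Pth.r Pth.z))))
def l6 : Tr := Tr.L (Pth.r (Pth.l (Pth.l Pth.z)))
def l7 : Tr := Tr.L (Pth.r (Pth.l (Pth.r (Pth.l Pth.z))))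
def l8 : Tr := Tr.L (Pth.r (Pth.l (Pth.r (Pth.r Pth.z))))
def l9 : Tr := Tr.L (Pth.r (Pth.r (Pth.l Pth.z)))
def l10 : Tr := Tr.L (Pth.r (Pth.r (Pth.r (Pth.l Pth.z))))
def l11 : Tr := Tr.L (Pth.r (Pth.r (Pth.r (Pth.r Pth.z))))
end T2
theorem bx0_0 : BoxOK sI cl7 cl9 cl9 t1 t1 b0_0 :=
  box_mk (TrL.c (I.pos (nat_lit 0) (nat_lit 0)) (xa (xb (xa T1.l0 T1.l0) (xa T1.l0 T1.l0)) (xa (xb T1.l0 T1.l0) (xb T1.l0 T1.l0)))
  (TrL.c (I.pos (nat_lit 0) (nat_lit 0)) (xa (xk T1.l1 T1.l1) (xk (xb T1.l1 T1.l1) (xb T1.l1 T1.l1)))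
  (TrL.c (I.pos (nat_lit 0) (nat_lit 111196574)) (xR T1.l2 T1.l2)
  (TrL.c (I.pos (nat_lit 0) (nat_lit 77433728)) T1.l3
  (TrL.c (I.pos (nat_lit 0) (nat_lit 0)) (xa (xk (xb T1.l4 T1.l4) (xb T1.l4 T1.l4)) (xk (xb (xa T1.l4 T1.l4) (xa T1.l4 T1.l4)) (xb T1.l4 (xa T1.l4 T1.l4))))
  (TrL.c (I.pos (nat_lit 0) (nat_lit 0)) (xk T1.l5 T1.l5)
  (TrL.c (I.mix (nat_lit 29511666) (nat_lit 77433728)) (xR T1.l6 T1.l6)
  (TrL.c (I.mix (nat_lit 29511666) (nat_lit 46070178)) T1.l7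
  TrL.n)))))))) (by decide +kernel)
theorem bx0_1 : BoxOK sI cl7 cl9 cl9 t1 t1 b0_1 :=
  box_mk (TrL.c (I.pos (nat_lit 0) (nat_lit 0)) (xa (xa T1.l8 T1.l8) (xa T1.l8 T1.l8))
  (TrL.c (I.pos (nat_lit 0) (nat_lit 0)) (xa T1.l1 T1.l1)
  (TrL.c (I.pos (nat_lit 0) (nat_lit 111196574)) T1.l2
  (TrL.c (I.pos (nat_lit 0) (nat_lit 77433728)) T1.l3
  (TrL.c (I.pos (nat_lit 0) (nat_lit 0)) (xa T1.l9 T1.l9)
  (TrL.c (I.pos (nat_lit 0) (nat_lit 0)) T1.l5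
  (TrL.c (I.mix (nat_lit 29511666) (nat_lit 77433728)) (xR T1.l6 T1.l6)
  (TrL.c (I.mix (nat_lit 29511666) (nat_lit 46070178)) T1.l7
  TrL.n)))))))) (by decide +kernel)
theorem bx0_2 : BoxOK sI cl7 cl9 cl9 t1 t1 b0_2 :=
  box_mk (TrL.c (I.pos (nat_lit 0) (nat_lit 0)) T1.l8
  (TrL.c (I.pos (nat_lit 0) (nat_lit 0)) T1.l1
  (TrL.c (I.pos (nat_lit 0) (nat_lit 111196574)) (xR T1.l2 T1.l2)
  (TrL.c (I.pos (nat_lit 0) (nat_lit 77433728)) T1.l3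
  (TrL.c (I.pos (nat_lit 0) (nat_lit 0)) (xb T1.l9 T1.l9)
  (TrL.c (I.pos (nat_lit 0) (nat_lit 0)) T1.l5
  (TrL.c (I.mix (nat_lit 29511666) (nat_lit 77433728)) (xR T1.l6 T1.l6)
  (TrL.c (I.mix (nat_lit 29511666) (nat_lit 46070178)) T1.l7
  TrL.n)))))))) (by decide +kernel)
theorem bx0_3 : BoxOK sI cl7 cl9 cl9 t1 t1 b0_3 :=
  box_mk (TrL.c (I.pos (nat_lit 0) (nat_lit 0)) T1.l8
  (TrL.c (I.pos (nat_lit 0) (nat_lit 0)) (xa T1.l1 T1.l1)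
  (TrL.c (I.pos (nat_lit 0) (nat_lit 111196574)) T1.l2
  (TrL.c (I.pos (nat_lit 0) (nat_lit 77433728)) T1.l3
  (TrL.c (I.pos (nat_lit 0) (nat_lit 0)) (xa T1.l9 T1.l9)
  (TrL.c (I.pos (nat_lit 0) (nat_lit 0)) T1.l5
  (TrL.c (I.mix (nat_lit 29511666) (nat_lit 77433728)) T1.l6
  (TrL.c (I.mix (nat_lit 29511666) (nat_lit 46070178)) T1.l7
  TrL.n)))))))) (by decide +kernel)
theorem bx0_4 : BoxOK sI cl7 cl9 cl9 t1 t1 b0_4 :=
  box_mk (TrL.c (I.pos (nat_lit 0) (nat_lit 0)) (xa (xb T1.l0 T1.l0) (xb T1.l0 (xa T1.l0 T1.l0)))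
  (TrL.c (I.pos (nat_lit 0) (nat_lit 0)) (xa (xb T1.l1 (xk T1.l1 T1.l1)) (xk (xb T1.l5 T1.l5) (xb T1.l5 T1.l1)))
  (TrL.c (I.pos (nat_lit 0) (nat_lit 111196574)) (xR T1.l2 T1.l2)
  (TrL.c (I.pos (nat_lit 0) (nat_lit 77433728)) (xR T1.l3 T1.l3)
  (TrL.c (I.pos (nat_lit 0) (nat_lit 0)) (xa (xb (xk (xa T1.l4 (xb T1.l4 T1.l4)) (xa T1.l4 (xb T1.l4 T1.l4))) (xk T1.l4 T1.l4)) (xb (xk (xa (xb (xk T1.l4 T1.l4) T1.l4) (xb (xk (xa T1.l4 T1.l4) (xa T1.l4 T1.l4)) (xk T1.l4 T1.l4))) (xa (xb (xk T1.l4 T1.l4) T1.l4) (xb (xk (xa T1.l4 T1.l4) (xa T1.l4 T1.l4)) T1.l4))) (xk (xa T1.l4 (xb (xk T1.l4 T1.l4) (xk (xa T1.l4 T1.l4) (xa T1.l4 T1.l4)))) (xa T1.l4 (xb (xk T1.l4 T1.l4) (xk (xa T1.l4 T1.l4) T1.l4))))))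
  (TrL.c (I.pos (nat_lit 0) (nat_lit 0)) (xk (xa T1.l5 (xb T1.l5 T1.l5)) (xa T1.l5 T1.l5))
  (TrL.c (I.mix (nat_lit 29511666) (nat_lit 77433728)) (xR T1.l6 (xR T1.l6 T1.l6))
  (TrL.c (I.mix (nat_lit 29511666) (nat_lit 46070178)) T1.l3
  TrL.n)))))))) (by decide +kernel)
theorem bx0_5 : BoxOK sI cl7 cl9 cl9 t1 t1 b0_5 :=
  box_mk (TrL.c (I.pos (nat_lit 0) (nat_lit 0)) (xa T1.l8 T1.l0)
  (TrL.c (I.pos (nat_lit 0) (nat_lit 0)) T1.l1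
  (TrL.c (I.pos (nat_lit 0) (nat_lit 111196574)) (xR T1.l2 T1.l2)
  (TrL.c (I.pos (nat_lit 0) (nat_lit 77433728)) T1.l3
  (TrL.c (I.pos (nat_lit 0) (nat_lit 0)) (xa T1.l9 (xk T1.l9 T1.l9))
  (TrL.c (I.pos (nat_lit 0) (nat_lit 0)) T1.l5
  (TrL.c (I.mix (nat_lit 29511666) (nat_lit 77433728)) (xR T1.l6 T1.l6)
  (TrL.c (I.mix (nat_lit 29511666) (nat_lit 46070178)) T1.l7
  TrL.n)))))))) (by decide +kernel)
theorem bx0_6 : BoxOK sI cl7 cl9 cl9 t1 t1 b0_6 :=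
  box_mk (TrL.c (I.pos (nat_lit 0) (nat_lit 0)) (xa (xa T1.l8 T1.l8) T1.l8)
  (TrL.c (I.pos (nat_lit 0) (nat_lit 0)) (xa T1.l1 T1.l1)
  (TrL.c (I.pos (nat_lit 0) (nat_lit 111196574)) T1.l2
  (TrL.c (I.pos (nat_lit 0) (nat_lit 77433728)) T1.l3
  (TrL.c (I.pos (nat_lit 0) (nat_lit 0)) (xa T1.l9 T1.l9)
  (TrL.c (I.pos (nat_lit 0) (nat_lit 0)) T1.l5
  (TrL.c (I.mix (nat_lit 29511666) (nat_lit 77433728)) T1.l6
  (TrL.c (I.mix (nat_lit 29511666) (nat_lit 46070178)) T1.l7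
  TrL.n)))))))) (by decide +kernel)
theorem bx0_7 : BoxOK sI cl7 cl9 cl9 t1 t1 b0_7 :=
  box_mk (TrL.c (I.pos (nat_lit 0) (nat_lit 0)) (xb T1.l10 (xa T1.l10 T1.l10))
  (TrL.c (I.pos (nat_lit 0) (nat_lit 0)) (xk (xb T1.l1 T1.l1) (xb T1.l1 T1.l1))
  (TrL.c (I.pos (nat_lit 0) (nat_lit 111196574)) (xR T1.l2 T1.l2)
  (TrL.c (I.pos (nat_lit 0) (nat_lit 77433728)) T1.l3
  (TrL.c (I.pos (nat_lit 0) (nat_lit 0)) (xb (xk T1.l11 T1.l11) (xk T1.l4 T1.l4))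
  (TrL.c (I.pos (nat_lit 0) (nat_lit 0)) T1.l5
  (TrL.c (I.mix (nat_lit 29511666) (nat_lit 77433728)) (xR T1.l6 T1.l6)
  (TrL.c (I.mix (nat_lit 29511666) (nat_lit 46070178)) T1.l3
  TrL.n)))))))) (by decide +kernel)
theorem bx0_8 : BoxOK sI cl7 cl9 cl9 t1 t1 b0_8 :=
  box_mk (TrL.c (I.pos (nat_lit 0) (nat_lit 0)) (xa (xa (xb T1.l8 T1.l8) T1.l8) (xa T1.l8 T1.l8))
  (TrL.c (I.pos (nat_lit 0) (nat_lit 0)) (xa T1.l1 T1.l1)
  (TrL.c (I.pos (nat_lit 0) (nat_lit 111196574)) T1.l2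
  (TrL.c (I.pos (nat_lit 0) (nat_lit 77433728)) T1.l3
  (TrL.c (I.pos (nat_lit 0) (nat_lit 0)) (xa T1.l9 T1.l9)
  (TrL.c (I.pos (nat_lit 0) (nat_lit 0)) T1.l5
  (TrL.c (I.mix (nat_lit 29511666) (nat_lit 77433728)) T1.l6
  (TrL.c (I.mix (nat_lit 29511666) (nat_lit 46070178)) T1.l7
  TrL.n)))))))) (by decide +kernel)
theorem bx0_9 : BoxOK sI cl7 cl9 cl9 t1 t1 b0_9 :=
  box_mk (TrL.c (I.pos (nat_lit 0) (nat_lit 0)) (xa T1.l10 T1.l0)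
  (TrL.c (I.pos (nat_lit 0) (nat_lit 0)) T1.l1
  (TrL.c (I.pos (nat_lit 0) (nat_lit 111196574)) (xR T1.l2 T1.l2)
  (TrL.c (I.pos (nat_lit 0) (nat_lit 77433728)) T1.l3
  (TrL.c (I.pos (nat_lit 0) (nat_lit 0)) (xk (xb (xa T1.l11 T1.l11) T1.l11) (xa T1.l11 (xb T1.l11 T1.l11)))
  (TrL.c (I.pos (nat_lit 0) (nat_lit 0)) T1.l5
  (TrL.c (I.mix (nat_lit 29511666) (nat_lit 77433728)) (xR T1.l6 T1.l6)
  (TrL.c (I.mix (nat_lit 29511666) (nat_lit 46070178)) T1.l7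
  TrL.n)))))))) (by decide +kernel)
theorem bx0_10 : BoxOK sI cl7 cl9 cl9 t1 t1 b0_10 :=
  box_mk (TrL.c (I.pos (nat_lit 0) (nat_lit 0)) (xb T1.l10 T1.l10)
  (TrL.c (I.pos (nat_lit 0) (nat_lit 0)) (xk T1.l1 T1.l1)
  (TrL.c (I.pos (nat_lit 0) (nat_lit 111196574)) (xR T1.l2 T1.l2)
  (TrL.c (I.pos (nat_lit 0) (nat_lit 77433728)) T1.l3
  (TrL.c (I.pos (nat_lit 0) (nat_lit 0)) (xk (xb T1.l11 T1.l11) (xb T1.l11 T1.l11))
  (TrL.c (I.pos (nat_lit 0) (nat_lit 0)) T1.l5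
  (TrL.c (I.mix (nat_lit 29511666) (nat_lit 77433728)) (xR T1.l6 T1.l6)
  (TrL.c (I.mix (nat_lit 29511666) (nat_lit 46070178)) T1.l3
  TrL.n)))))))) (by decide +kernel)
theorem bx0_11 : BoxOK sI cl7 cl9 cl9 t1 t1 b0_11 :=
  box_mk (TrL.c (I.pos (nat_lit 0) (nat_lit 0)) (xa (xb T1.l0 T1.l0) T1.l0)
  (TrL.c (I.pos (nat_lit 0) (nat_lit 0)) (xk (xa T1.l1 T1.l1) (xa T1.l1 T1.l1))
  (TrL.c (I.pos (nat_lit 0) (nat_lit 111196574)) (xR T1.l2 T1.l2)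
  (TrL.c (I.pos (nat_lit 0) (nat_lit 77433728)) T1.l3
  (TrL.c (I.pos (nat_lit 0) (nat_lit 0)) (xk (xa T1.l4 (xb T1.l4 T1.l4)) (xa T1.l4 T1.l4))
  (TrL.c (I.pos (nat_lit 0) (nat_lit 0)) T1.l5
  (TrL.c (I.mix (nat_lit 29511666) (nat_lit 77433728)) (xR T1.l6 T1.l6)
  (TrL.c (I.mix (nat_lit 29511666) (nat_lit 46070178)) T1.l3
  TrL.n)))))))) (by decide +kernel)
theorem sv0 : StarV sI cl7 cl9 cl9 t1 t1 t0 :=
  (bt_n (bt_n (bt_n (bt_b bx0_0) (bt_n (bt_b bx0_1) (bt_b bx0_2))) (bt_n (bt_b bx0_3) (bt_n (bt_b bx0_4) (bt_b bx0_5)))) (bt_n (bt_n (bt_b bx0_6) (bt_n (bt_b bx0_7) (bt_b bx0_8))) (bt_n (bt_b bx0_9) (bt_n (bt_b bx0_10) (bt_b bx0_11)))))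
def S0 : StarD := StarD.mk cl7 cl9 cl9 1 1 t0
theorem bx1_0 : BoxOK sI cl9 cl7 cl9 t0 t2 b1_0 :=
  box_mk (TrL.c (I.pos (nat_lit 0) (nat_lit 0)) (xa (xb T0.l0 (xa T0.l0 T0.l0)) (xb T0.l0 T0.l0))
  (TrL.c (I.pos (nat_lit 0) (nat_lit 0)) (xa (xk T2.l1 T2.l1) (xk T2.l1 T2.l1))
  (TrL.c (I.pos (nat_lit 0) (nat_lit 124588530)) (xR T0.l1 T0.l1)
  (TrL.c (I.pos (nat_lit 0) (nat_lit 96881482)) T2.l2
  (TrL.c (I.pos (nat_lit 0) (nat_lit 0)) (xa (xk (xb T2.l3 T2.l3) (xb T2.l3 T2.l3)) (xk (xb (xa T2.l3 T2.l3) (xa T2.l3 T2.l3)) (xb T2.l3 T2.l3)))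
  (TrL.c (I.pos (nat_lit 0) (nat_lit 0)) T0.l2
  (TrL.c (I.mix (nat_lit 17240550) (nat_lit 96881482)) (xR T2.l4 T2.l4)
  (TrL.c (I.mix (nat_lit 17240550) (nat_lit 71940500)) T0.l6
  TrL.n)))))))) (by decide +kernel)
theorem bx1_1 : BoxOK sI cl9 cl7 cl9 t0 t2 b1_1 :=
  box_mk (TrL.c (I.pos (nat_lit 0) (nat_lit 0)) T0.l4
  (TrL.c (I.pos (nat_lit 0) (nat_lit 0)) T2.l1
  (TrL.c (I.pos (nat_lit 0) (nat_lit 124588530)) (xR T0.l1 T0.l1)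
  (TrL.c (I.pos (nat_lit 0) (nat_lit 96881482)) T2.l2
  (TrL.c (I.pos (nat_lit 0) (nat_lit 0)) (xa T2.l5 (xk T2.l5 T2.l5))
  (TrL.c (I.pos (nat_lit 0) (nat_lit 0)) T0.l2
  (TrL.c (I.mix (nat_lit 17240550) (nat_lit 96881482)) T2.l4
  (TrL.c (I.mix (nat_lit 17240550) (nat_lit 71940500)) T0.l3
  TrL.n)))))))) (by decide +kernel)
theorem bx1_2 : BoxOK sI cl9 cl7 cl9 t0 t2 b1_2 :=
  box_mk (TrL.c (I.pos (nat_lit 0) (nat_lit 0)) (xa (xa T0.l4 T0.l4) (xa T0.l4 T0.l4))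
  (TrL.c (I.pos (nat_lit 0) (nat_lit 0)) (xa T2.l1 T2.l1)
  (TrL.c (I.pos (nat_lit 0) (nat_lit 124588530)) T0.l1
  (TrL.c (I.pos (nat_lit 0) (nat_lit 96881482)) T2.l2
  (TrL.c (I.pos (nat_lit 0) (nat_lit 0)) (xa T2.l5 T2.l5)
  (TrL.c (I.pos (nat_lit 0) (nat_lit 0)) T0.l2
  (TrL.c (I.mix (nat_lit 17240550) (nat_lit 96881482)) T2.l4
  (TrL.c (I.mix (nat_lit 17240550) (nat_lit 71940500)) T0.l3
  TrL.n)))))))) (by decide +kernel)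
theorem bx1_3 : BoxOK sI cl9 cl7 cl9 t0 t2 b1_3 :=
  box_mk (TrL.c (I.pos (nat_lit 0) (nat_lit 0)) (xa (xa T0.l4 T0.l4) T0.l4)
  (TrL.c (I.pos (nat_lit 0) (nat_lit 0)) (xa T2.l5 T2.l1)
  (TrL.c (I.pos (nat_lit 0) (nat_lit 124588530)) T0.l1
  (TrL.c (I.pos (nat_lit 0) (nat_lit 96881482)) T2.l2
  (TrL.c (I.pos (nat_lit 0) (nat_lit 0)) (xa T2.l5 T2.l5)
  (TrL.c (I.pos (nat_lit 0) (nat_lit 0)) T0.l2
  (TrL.c (I.mix (nat_lit 17240550) (nat_lit 96881482)) T2.l4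
  (TrL.c (I.mix (nat_lit 17240550) (nat_lit 71940500)) T0.l6
  TrL.n)))))))) (by decide +kernel)
theorem bx1_4 : BoxOK sI cl9 cl7 cl9 t0 t2 b1_4 :=
  box_mk (TrL.c (I.pos (nat_lit 0) (nat_lit 0)) (xb T0.l11 (xa T0.l11 T0.l11))
  (TrL.c (I.pos (nat_lit 0) (nat_lit 0)) (xk (xb T2.l1 T2.l1) T2.l1)
  (TrL.c (I.pos (nat_lit 0) (nat_lit 124588530)) (xR T0.l1 T0.l1)
  (TrL.c (I.pos (nat_lit 0) (nat_lit 96881482)) T2.l2
  (TrL.c (I.pos (nat_lit 0) (nat_lit 0)) (xb (xk T2.l11 T2.l11) (xk (xb T2.l3 T2.l11) (xb T2.l3 (xa T2.l3 T2.l3))))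
  (TrL.c (I.pos (nat_lit 0) (nat_lit 0)) T0.l2
  (TrL.c (I.mix (nat_lit 17240550) (nat_lit 96881482)) (xR T2.l4 T2.l4)
  (TrL.c (I.mix (nat_lit 17240550) (nat_lit 71940500)) T0.l6
  TrL.n)))))))) (by decide +kernel)
theorem bx1_5 : BoxOK sI cl9 cl7 cl9 t0 t2 b1_5 :=
  box_mk (TrL.c (I.pos (nat_lit 0) (nat_lit 0)) T0.l4
  (TrL.c (I.pos (nat_lit 0) (nat_lit 0)) T2.l1
  (TrL.c (I.pos (nat_lit 0) (nat_lit 124588530)) (xR T0.l1 T0.l1)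
  (TrL.c (I.pos (nat_lit 0) (nat_lit 96881482)) T2.l2
  (TrL.c (I.pos (nat_lit 0) (nat_lit 0)) (xb T2.l5 T2.l5)
  (TrL.c (I.pos (nat_lit 0) (nat_lit 0)) T0.l2
  (TrL.c (I.mix (nat_lit 17240550) (nat_lit 96881482)) T2.l4
  (TrL.c (I.mix (nat_lit 17240550) (nat_lit 71940500)) T0.l3
  TrL.n)))))))) (by decide +kernel)
theorem bx1_6 : BoxOK sI cl9 cl7 cl9 t0 t2 b1_6 :=
  box_mk (TrL.c (I.pos (nat_lit 0) (nat_lit 0)) (xa (xa (xb T0.l4 T0.l4) T0.l4) (xa T0.l4 T0.l4))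
  (TrL.c (I.pos (nat_lit 0) (nat_lit 0)) (xa T2.l1 T2.l1)
  (TrL.c (I.pos (nat_lit 0) (nat_lit 124588530)) T0.l1
  (TrL.c (I.pos (nat_lit 0) (nat_lit 96881482)) T2.l2
  (TrL.c (I.pos (nat_lit 0) (nat_lit 0)) (xa T2.l5 T2.l5)
  (TrL.c (I.pos (nat_lit 0) (nat_lit 0)) T0.l2
  (TrL.c (I.mix (nat_lit 17240550) (nat_lit 96881482)) T2.l4
  (TrL.c (I.mix (nat_lit 17240550) (nat_lit 71940500)) T0.l3
  TrL.n)))))))) (by decide +kernel)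
theorem bx1_7 : BoxOK sI cl9 cl7 cl9 t0 t2 b1_7 :=
  box_mk (TrL.c (I.pos (nat_lit 0) (nat_lit 0)) T0.l4
  (TrL.c (I.pos (nat_lit 0) (nat_lit 0)) T2.l1
  (TrL.c (I.pos (nat_lit 0) (nat_lit 124588530)) T0.l1
  (TrL.c (I.pos (nat_lit 0) (nat_lit 96881482)) T2.l2
  (TrL.c (I.pos (nat_lit 0) (nat_lit 0)) (xa T2.l5 T2.l5)
  (TrL.c (I.pos (nat_lit 0) (nat_lit 0)) T0.l2
  (TrL.c (I.mix (nat_lit 17240550) (nat_lit 96881482)) T2.l4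
  (TrL.c (I.mix (nat_lit 17240550) (nat_lit 71940500)) T0.l6
  TrL.n)))))))) (by decide +kernel)
theorem bx1_8 : BoxOK sI cl9 cl7 cl9 t0 t2 b1_8 :=
  box_mk (TrL.c (I.pos (nat_lit 0) (nat_lit 0)) (xa (xb T0.l0 T0.l0) (xb T0.l0 T0.l0))
  (TrL.c (I.pos (nat_lit 0) (nat_lit 0)) (xa (xb T2.l1 (xk T2.l1 T2.l1)) (xk (xb T2.l1 T2.l7) (xb T2.l1 T2.l1)))
  (TrL.c (I.pos (nat_lit 0) (nat_lit 124588530)) (xR T0.l8 T0.l8)
  (TrL.c (I.pos (nat_lit 0) (nat_lit 96881482)) (xR T2.l2 T2.l2)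
  (TrL.c (I.pos (nat_lit 0) (nat_lit 0)) (xa (xb (xk (xa T2.l3 T2.l3) (xa T2.l3 T2.l3)) (xk (xa T2.l3 T2.l3) T2.l3)) (xb (xk (xa (xb T2.l0 T2.l3) (xk (xb T2.l3 T2.l3) (xb T2.l3 T2.l3))) (xa (xb T2.l3 T2.l3) (xb (xk T2.l3 T2.l3) T2.l3))) (xk (xa T2.l3 (xk (xb T2.l3 T2.l3) (xb T2.l3 T2.l3))) (xa T2.l3 (xk (xb T2.l3 T2.l3) (xb T2.l3 T2.l3))))))
  (TrL.c (I.pos (nat_lit 0) (nat_lit 0)) (xk (xa T0.l2 T0.l2) (xa T0.l2 T0.l2))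
  (TrL.c (I.mix (nat_lit 17240550) (nat_lit 96881482)) (xR T2.l4 (xR T2.l4 T2.l4))
  (TrL.c (I.mix (nat_lit 17240550) (nat_lit 71940500)) T0.l6
  TrL.n)))))))) (by decide +kernel)
theorem bx1_9 : BoxOK sI cl9 cl7 cl9 t0 t2 b1_9 :=
  box_mk (TrL.c (I.pos (nat_lit 0) (nat_lit 0)) (xa T0.l11 T0.l0)
  (TrL.c (I.pos (nat_lit 0) (nat_lit 0)) T2.l1
  (TrL.c (I.pos (nat_lit 0) (nat_lit 124588530)) (xR T0.l1 T0.l1)
  (TrL.c (I.pos (nat_lit 0) (nat_lit 96881482)) T2.l2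
  (TrL.c (I.pos (nat_lit 0) (nat_lit 0)) (xk (xa T2.l11 (xb T2.l11 T2.l11)) (xa T2.l11 (xb T2.l11 T2.l11)))
  (TrL.c (I.pos (nat_lit 0) (nat_lit 0)) T0.l2
  (TrL.c (I.mix (nat_lit 17240550) (nat_lit 96881482)) (xR T2.l4 T2.l4)
  (TrL.c (I.mix (nat_lit 17240550) (nat_lit 71940500)) T0.l3
  TrL.n)))))))) (by decide +kernel)
theorem bx1_10 : BoxOK sI cl9 cl7 cl9 t0 t2 b1_10 :=
  box_mk (TrL.c (I.pos (nat_lit 0) (nat_lit 0)) (xa T0.l0 T0.l0)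
  (TrL.c (I.pos (nat_lit 0) (nat_lit 0)) (xk (xa T2.l1 T2.l1) T2.l1)
  (TrL.c (I.pos (nat_lit 0) (nat_lit 124588530)) (xR T0.l1 T0.l1)
  (TrL.c (I.pos (nat_lit 0) (nat_lit 96881482)) T2.l2
  (TrL.c (I.pos (nat_lit 0) (nat_lit 0)) (xk (xa T2.l3 T2.l3) (xa T2.l3 T2.l3))
  (TrL.c (I.pos (nat_lit 0) (nat_lit 0)) T0.l2
  (TrL.c (I.mix (nat_lit 17240550) (nat_lit 96881482)) (xR T2.l4 T2.l4)
  (TrL.c (I.mix (nat_lit 17240550) (nat_lit 71940500)) T0.l6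
  TrL.n)))))))) (by decide +kernel)
theorem bx1_11 : BoxOK sI cl9 cl7 cl9 t0 t2 b1_11 :=
  box_mk (TrL.c (I.pos (nat_lit 0) (nat_lit 0)) T0.l11
  (TrL.c (I.pos (nat_lit 0) (nat_lit 0)) T2.l1
  (TrL.c (I.pos (nat_lit 0) (nat_lit 124588530)) (xR T0.l1 T0.l1)
  (TrL.c (I.pos (nat_lit 0) (nat_lit 96881482)) T2.l2
  (TrL.c (I.pos (nat_lit 0) (nat_lit 0)) (xk (xb T2.l11 T2.l11) T2.l11)
  (TrL.c (I.pos (nat_lit 0) (nat_lit 0)) T0.l2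
  (TrL.c (I.mix (nat_lit 17240550) (nat_lit 96881482)) (xR T2.l4 T2.l4)
  (TrL.c (I.mix (nat_lit 17240550) (nat_lit 71940500)) T0.l6
  TrL.n)))))))) (by decide +kernel)
theorem sv1 : StarV sI cl9 cl7 cl9 t0 t2 t1 :=
  (bt_n (bt_n (bt_n (bt_b bx1_0) (bt_n (bt_b bx1_1) (bt_b bx1_2))) (bt_n (bt_b bx1_3) (bt_n (bt_b bx1_4) (bt_b bx1_5)))) (bt_n (bt_n (bt_b bx1_6) (bt_n (bt_b bx1_7) (bt_b bx1_8))) (bt_n (bt_b bx1_9) (bt_n (bt_b bx1_10) (bt_b bx1_11)))))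
def S1 : StarD := StarD.mk cl9 cl7 cl9 0 2 t1
theorem bx2_0 : BoxOK sI cl9 cl9 cl7 t2 t0 b2_0 :=
  box_mk (TrL.c (I.pos (nat_lit 0) (nat_lit 0)) (xa (xb T2.l0 (xa T2.l0 T2.l0)) (xb T2.l0 (xa T2.l0 T2.l0)))
  (TrL.c (I.pos (nat_lit 0) (nat_lit 0)) (xa (xk T0.l5 T0.l5) (xk (xb T0.l5 T0.l5) (xb T0.l5 T0.l5)))
  (TrL.c (I.pos (nat_lit 0) (nat_lit 124588530)) (xR T2.l6 T2.l6)
  (TrL.c (I.pos (nat_lit 0) (nat_lit 96881482)) T0.l6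
  (TrL.c (I.pos (nat_lit 0) (nat_lit 0)) (xa (xk (xb T0.l7 T0.l7) (xb T0.l7 T0.l7)) (xk (xb (xa T0.l7 T0.l7) (xa T0.l7 T0.l7)) (xb (xa T0.l7 T0.l7) (xa T0.l7 (xb T0.l7 (xs T0.l7 T0.l7))))))
  (TrL.c (I.pos (nat_lit 0) (nat_lit 0)) T2.l7
  (TrL.c (I.mix (nat_lit 17240550) (nat_lit 96881482)) (xR T0.l8 T0.l8)
  (TrL.c (I.mix (nat_lit 17240550) (nat_lit 71940500)) T2.l9
  TrL.n)))))))) (by decide +kernel)
theorem bx2_1 : BoxOK sI cl9 cl9 cl7 t2 t0 b2_1 :=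
  box_mk (TrL.c (I.pos (nat_lit 0) (nat_lit 0)) T2.l8
  (TrL.c (I.pos (nat_lit 0) (nat_lit 0)) (xa T0.l5 T0.l5)
  (TrL.c (I.pos (nat_lit 0) (nat_lit 124588530)) (xR T2.l6 T2.l6)
  (TrL.c (I.pos (nat_lit 0) (nat_lit 96881482)) T0.l6
  (TrL.c (I.pos (nat_lit 0) (nat_lit 0)) (xa (xb T0.l9 T0.l9) (xk T0.l9 T0.l9))
  (TrL.c (I.pos (nat_lit 0) (nat_lit 0)) T2.l7
  (TrL.c (I.mix (nat_lit 17240550) (nat_lit 96881482)) (xR T0.l8 T0.l8)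
  (TrL.c (I.mix (nat_lit 17240550) (nat_lit 71940500)) T2.l9
  TrL.n)))))))) (by decide +kernel)
theorem bx2_2 : BoxOK sI cl9 cl9 cl7 t2 t0 b2_2 :=
  box_mk (TrL.c (I.pos (nat_lit 0) (nat_lit 0)) (xa (xa T2.l8 T2.l8) T2.l8)
  (TrL.c (I.pos (nat_lit 0) (nat_lit 0)) (xa T0.l5 T0.l5)
  (TrL.c (I.pos (nat_lit 0) (nat_lit 124588530)) (xR T2.l6 T2.l6)
  (TrL.c (I.pos (nat_lit 0) (nat_lit 96881482)) T0.l6
  (TrL.c (I.pos (nat_lit 0) (nat_lit 0)) (xa T0.l9 T0.l9)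
  (TrL.c (I.pos (nat_lit 0) (nat_lit 0)) T2.l7
  (TrL.c (I.mix (nat_lit 17240550) (nat_lit 96881482)) T0.l8
  (TrL.c (I.mix (nat_lit 17240550) (nat_lit 71940500)) T2.l2
  TrL.n)))))))) (by decide +kernel)
theorem bx2_3 : BoxOK sI cl9 cl9 cl7 t2 t0 b2_3 :=
  box_mk (TrL.c (I.pos (nat_lit 0) (nat_lit 0)) (xb T2.l10 (xa T2.l10 T2.l10))
  (TrL.c (I.pos (nat_lit 0) (nat_lit 0)) (xk (xb T0.l5 T0.l5) (xb T0.l5 T0.l5))
  (TrL.c (I.pos (nat_lit 0) (nat_lit 124588530)) (xR T2.l6 T2.l6)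
  (TrL.c (I.pos (nat_lit 0) (nat_lit 96881482)) T0.l6
  (TrL.c (I.pos (nat_lit 0) (nat_lit 0)) (xk (xb T0.l10 T0.l10) (xb T0.l10 T0.l10))
  (TrL.c (I.pos (nat_lit 0) (nat_lit 0)) T2.l7
  (TrL.c (I.mix (nat_lit 17240550) (nat_lit 96881482)) (xR T0.l8 T0.l8)
  (TrL.c (I.mix (nat_lit 17240550) (nat_lit 71940500)) T2.l2
  TrL.n)))))))) (by decide +kernel)
theorem bx2_4 : BoxOK sI cl9 cl9 cl7 t2 t0 b2_4 :=
  box_mk (TrL.c (I.pos (nat_lit 0) (nat_lit 0)) (xa (xa (xb T2.l8 T2.l8) T2.l8) (xa T2.l8 T2.l8))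
  (TrL.c (I.pos (nat_lit 0) (nat_lit 0)) (xa T0.l5 T0.l5)
  (TrL.c (I.pos (nat_lit 0) (nat_lit 124588530)) T2.l6
  (TrL.c (I.pos (nat_lit 0) (nat_lit 96881482)) T0.l6
  (TrL.c (I.pos (nat_lit 0) (nat_lit 0)) (xa T0.l9 T0.l9)
  (TrL.c (I.pos (nat_lit 0) (nat_lit 0)) T2.l7
  (TrL.c (I.mix (nat_lit 17240550) (nat_lit 96881482)) T0.l8
  (TrL.c (I.mix (nat_lit 17240550) (nat_lit 71940500)) T2.l2
  TrL.n)))))))) (by decide +kernel)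
theorem bx2_5 : BoxOK sI cl9 cl9 cl7 t2 t0 b2_5 :=
  box_mk (TrL.c (I.pos (nat_lit 0) (nat_lit 0)) (xa T2.l0 T2.l0)
  (TrL.c (I.pos (nat_lit 0) (nat_lit 0)) T0.l5
  (TrL.c (I.pos (nat_lit 0) (nat_lit 124588530)) (xR T2.l6 T2.l6)
  (TrL.c (I.pos (nat_lit 0) (nat_lit 96881482)) T0.l6
  (TrL.c (I.pos (nat_lit 0) (nat_lit 0)) (xk (xa T0.l10 (xb T0.l10 T0.l10)) (xa T0.l10 (xb T0.l10 T0.l10)))
  (TrL.c (I.pos (nat_lit 0) (nat_lit 0)) T2.l7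
  (TrL.c (I.mix (nat_lit 17240550) (nat_lit 96881482)) (xR T0.l8 T0.l8)
  (TrL.c (I.mix (nat_lit 17240550) (nat_lit 71940500)) T2.l9
  TrL.n)))))))) (by decide +kernel)
theorem bx2_6 : BoxOK sI cl9 cl9 cl7 t2 t0 b2_6 :=
  box_mk (TrL.c (I.pos (nat_lit 0) (nat_lit 0)) (xa (xa T2.l8 T2.l8) (xa T2.l8 T2.l8))
  (TrL.c (I.pos (nat_lit 0) (nat_lit 0)) (xa T0.l5 T0.l5)
  (TrL.c (I.pos (nat_lit 0) (nat_lit 124588530)) T2.l6
  (TrL.c (I.pos (nat_lit 0) (nat_lit 96881482)) T0.l6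
  (TrL.c (I.pos (nat_lit 0) (nat_lit 0)) (xa T0.l9 T0.l9)
  (TrL.c (I.pos (nat_lit 0) (nat_lit 0)) T2.l7
  (TrL.c (I.mix (nat_lit 17240550) (nat_lit 96881482)) T0.l8
  (TrL.c (I.mix (nat_lit 17240550) (nat_lit 71940500)) T2.l2
  TrL.n)))))))) (by decide +kernel)
theorem bx2_7 : BoxOK sI cl9 cl9 cl7 t2 t0 b2_7 :=
  box_mk (TrL.c (I.pos (nat_lit 0) (nat_lit 0)) T2.l8
  (TrL.c (I.pos (nat_lit 0) (nat_lit 0)) T0.l5
  (TrL.c (I.pos (nat_lit 0) (nat_lit 124588530)) (xR T2.l6 T2.l6)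
  (TrL.c (I.pos (nat_lit 0) (nat_lit 96881482)) T0.l6
  (TrL.c (I.pos (nat_lit 0) (nat_lit 0)) (xb T0.l9 T0.l9)
  (TrL.c (I.pos (nat_lit 0) (nat_lit 0)) T2.l7
  (TrL.c (I.mix (nat_lit 17240550) (nat_lit 96881482)) T0.l8
  (TrL.c (I.mix (nat_lit 17240550) (nat_lit 71940500)) T2.l9
  TrL.n)))))))) (by decide +kernel)
theorem bx2_8 : BoxOK sI cl9 cl9 cl7 t2 t0 b2_8 :=
  box_mk (TrL.c (I.pos (nat_lit 0) (nat_lit 0)) (xa (xb T2.l0 T2.l0) (xb T2.l0 T2.l0))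
  (TrL.c (I.pos (nat_lit 0) (nat_lit 0)) (xa (xk T0.l5 T0.l5) (xk (xb T0.l5 T0.l5) (xb T0.l5 T0.l5)))
  (TrL.c (I.pos (nat_lit 0) (nat_lit 124588530)) (xR T2.l4 T2.l6)
  (TrL.c (I.pos (nat_lit 0) (nat_lit 96881482)) (xR T0.l6 T0.l6)
  (TrL.c (I.pos (nat_lit 0) (nat_lit 0)) (xa (xk (xb (xa T0.l7 T0.l7) T0.l7) (xb (xa T0.l7 T0.l7) T0.l7)) (xb (xk (xa (xb T0.l7 T0.l7) (xk (xb T0.l7 T0.l7) (xb T0.l7 T0.l7))) (xa (xb T0.l7 T0.l7) (xb (xk T0.l7 T0.l7) T0.l7))) (xk (xa T0.l7 (xk (xb T0.l7 T0.l7) (xb T0.l7 T0.l7))) (xa T0.l7 (xk (xb T0.l7 T0.l7) (xb T0.l7 T0.l7))))))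
  (TrL.c (I.pos (nat_lit 0) (nat_lit 0)) (xk (xa T2.l7 T2.l7) (xa T2.l7 T2.l7))
  (TrL.c (I.mix (nat_lit 17240550) (nat_lit 96881482)) (xR T0.l8 (xR T0.l8 T0.l8))
  (TrL.c (I.mix (nat_lit 17240550) (nat_lit 71940500)) T2.l9
  TrL.n)))))))) (by decide +kernel)
theorem bx2_9 : BoxOK sI cl9 cl9 cl7 t2 t0 b2_9 :=
  box_mk (TrL.c (I.pos (nat_lit 0) (nat_lit 0)) T2.l8
  (TrL.c (I.pos (nat_lit 0) (nat_lit 0)) (xa T0.l5 T0.l5)
  (TrL.c (I.pos (nat_lit 0) (nat_lit 124588530)) T2.l6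
  (TrL.c (I.pos (nat_lit 0) (nat_lit 96881482)) T0.l6
  (TrL.c (I.pos (nat_lit 0) (nat_lit 0)) (xa T0.l9 T0.l9)
  (TrL.c (I.pos (nat_lit 0) (nat_lit 0)) T2.l7
  (TrL.c (I.mix (nat_lit 17240550) (nat_lit 96881482)) T0.l8
  (TrL.c (I.mix (nat_lit 17240550) (nat_lit 71940500)) T2.l2
  TrL.n)))))))) (by decide +kernel)
theorem bx2_10 : BoxOK sI cl9 cl9 cl7 t2 t0 b2_10 :=
  box_mk (TrL.c (I.pos (nat_lit 0) (nat_lit 0)) (xa T2.l0 T2.l0)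
  (TrL.c (I.pos (nat_lit 0) (nat_lit 0)) (xk (xa T0.l5 T0.l5) (xa T0.l5 T0.l5))
  (TrL.c (I.pos (nat_lit 0) (nat_lit 124588530)) (xR T2.l6 T2.l6)
  (TrL.c (I.pos (nat_lit 0) (nat_lit 96881482)) T0.l6
  (TrL.c (I.pos (nat_lit 0) (nat_lit 0)) (xk (xa T0.l7 (xb T0.l7 T0.l7)) (xa T0.l7 (xb T0.l7 (xb T0.l7 T0.l7))))
  (TrL.c (I.pos (nat_lit 0) (nat_lit 0)) T2.l7
  (TrL.c (I.mix (nat_lit 17240550) (nat_lit 96881482)) (xR T0.l8 T0.l8)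
  (TrL.c (I.mix (nat_lit 17240550) (nat_lit 71940500)) T2.l9
  TrL.n)))))))) (by decide +kernel)
theorem bx2_11 : BoxOK sI cl9 cl9 cl7 t2 t0 b2_11 :=
  box_mk (TrL.c (I.pos (nat_lit 0) (nat_lit 0)) T2.l10
  (TrL.c (I.pos (nat_lit 0) (nat_lit 0)) (xk T0.l5 T0.l5)
  (TrL.c (I.pos (nat_lit 0) (nat_lit 124588530)) (xR T2.l6 T2.l6)
  (TrL.c (I.pos (nat_lit 0) (nat_lit 96881482)) T0.l6
  (TrL.c (I.pos (nat_lit 0) (nat_lit 0)) (xk (xb T0.l10 T0.l10) T0.l10)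
  (TrL.c (I.pos (nat_lit 0) (nat_lit 0)) T2.l7
  (TrL.c (I.mix (nat_lit 17240550) (nat_lit 96881482)) (xR T0.l8 T0.l8)
  (TrL.c (I.mix (nat_lit 17240550) (nat_lit 71940500)) T2.l9
  TrL.n)))))))) (by decide +kernel)
theorem sv2 : StarV sI cl9 cl9 cl7 t2 t0 t2 :=
  (bt_n (bt_n (bt_n (bt_b bx2_0) (bt_n (bt_b bx2_1) (bt_b bx2_2))) (bt_n (bt_b bx2_3) (bt_n (bt_b bx2_4) (bt_b bx2_5)))) (bt_n (bt_n (bt_b bx2_6) (bt_n (bt_b bx2_7) (bt_b bx2_8))) (bt_n (bt_b bx2_9) (bt_n (bt_b bx2_10) (bt_b bx2_11)))))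
def S2 : StarD := StarD.mk cl9 cl9 cl7 2 0 t2
def G : List StarD := [S0, S1, S2]
theorem so0 : StarOK sI G S0 :=
  star_mk (by decide) (by decide) rfl rfl rfl rfl rfl rfl (rfl : _ = t1) (rfl : _ = t1)
  (st_mk (Pth.l (Pth.l (Pth.l Pth.z))) (nat_lit 115872113) (nat_lit 134576188) (by decide +kernel))
  (st_mk (Pth.l (Pth.l (Pth.l Pth.z))) (nat_lit 151316175) (nat_lit 170411894) (by decide +kernel))
  (st_mk (Pth.l (Pth.l (Pth.l Pth.z))) (nat_lit 192396641) (nat_lit 212046901) (by decide +kernel)) sv0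
theorem so1 : StarOK sI G S1 :=
  star_mk (by decide) (by decide) rfl rfl rfl rfl rfl rfl (rfl : _ = t0) (rfl : _ = t2)
  (st_mk (Pth.l (Pth.l (Pth.l Pth.z))) (nat_lit 140487386) (nat_lit 162855496) (by decide +kernel))
  (st_mk (Pth.l (Pth.l (Pth.l Pth.z))) (nat_lit 175655757) (nat_lit 198376155) (by decide +kernel))
  (st_mk (Pth.l (Pth.l (Pth.l Pth.z))) (nat_lit 216309308) (nat_lit 239520040) (by decide +kernel)) sv1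
theorem so2 : StarOK sI G S2 :=
  star_mk (by decide) (by decide) rfl rfl rfl rfl rfl rfl (rfl : _ = t2) (rfl : _ = t0)
  (st_mk (Pth.l (Pth.l (Pth.l Pth.z))) (nat_lit 115445455) (nat_lit 133985453) (by decide +kernel))
  (st_mk (Pth.l (Pth.l (Pth.l Pth.z))) (nat_lit 150589567) (nat_lit 169458549) (by decide +kernel))
  (st_mk (Pth.l (Pth.l (Pth.l Pth.z))) (nat_lit 191222057) (nat_lit 210561312) (by decide +kernel)) sv2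
theorem ok : GroupOK (nat_lit 150274048) (nat_lit 209387520) G := grp_mk (allS_c so0 (allS_c so1 (allS_c so2 allS_n)))
theorem cov : GCov G cl7 cl9 cl9 := cov_mk
  ⟨0, by decide, rfl, rfl, rfl⟩ ⟨0, by decide, rfl, rfl, rfl⟩ ⟨1, by decide, rfl, rfl, rfl⟩ ⟨2, by decide, rfl, rfl, rfl⟩ ⟨1, by decide, rfl, rfl, rfl⟩ ⟨2, by decide, rfl, rfl, rfl⟩
end Q455_2


end Pool.Agent.Helper6.MONO
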