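import Pool.Agent.Helper6.MONO.Cert.C29

/-!
Certificate data (generated).
-/

set_option autoImplicit false
set_option linter.all false
noncomputable section
namespace Pool.Agent.Helper6.MONO


namespace Q455_3
def sI : I := I.pos (nat_lit 209321984) (nat_lit 268435456)
def b0_0 : Bx := Bx.mk (St.mk (I.pos (nat_lit 153190400) (nat_lit 241664000)) (I.mix (nat_lit 5013504) (nat_lit 52412416)) (I.mix (nat_lit 8306688) (nat_lit 88555520)) (I.pos (nat_lit 103809024) (nat_lit 250331136)) (I.mix (nat_lit 106053632) (nat_lit 65699840)) (I.mix (nat_lit 67469312) (nat_lit 63913984)) (I.mix (nat_lit 89636864) (nat_lit 83705856)))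
  false (nat_lit 47089349)
def b0_1 : Bx := Bx.mk (St.mk (I.mix (nat_lit 27000832) (nat_lit 145965056)) (I.mix (nat_lit 9109504) (nat_lit 28704768)) (I.mix (nat_lit 14860288) (nat_lit 22675456)) (I.pos (nat_lit 9388032) (nat_lit 107855872)) (I.mix (nat_lit 36864000) (nat_lit 34832384)) (I.mix (nat_lit 31408128) (nat_lit 21561344)) (I.mix (nat_lit 24395776) (nat_lit 15433728)))
  false (nat_lit 0)
def b0_2 : Bx := Bx.mk (St.mk (I.pos (nat_lit 100810752) (nat_lit 151699456)) (I.mix (nat_lit 47972352) (nat_lit 11452416)) (I.mix (nat_lit 50593792) (nat_lit 7536640)) (I.pos (nat_lit 57622528) (nat_lit 122028032)) (I.mix (nat_lit 78102528) (nat_lit 38027264)) (I.mix (nat_lit 31899648) (nat_lit 65748992)) (I.mix (nat_lit 25231360) (nat_lit 54525952)))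
  false (nat_lit 0)
def b0_3 : Bx := Bx.mk (St.mk (I.mix (nat_lit 31506432) (nat_lit 100286464)) (I.mix (nat_lit 27983872) (nat_lit 5373952)) (I.mix (nat_lit 20037632) (nat_lit 2588672)) (I.pos (nat_lit 12926976) (nat_lit 71286784)) (I.mix (nat_lit 36634624) (nat_lit 16973824)) (I.mix (nat_lit 14761984) (nat_lit 29523968)) (I.mix (nat_lit 8208384) (nat_lit 15024128)))
  false (nat_lit 0)
def b0_4 : Bx := Bx.mk (St.mk (I.pos (nat_lit 187777024) (nat_lit 291782656)) (I.mix (nat_lit 24330240) (nat_lit 40353792)) (I.mix (nat_lit 68272128) (nat_lit 69566464)) (I.pos (nat_lit 172769280) (nat_lit 354942976)) (I.mix (nat_lit 72826880) (nat_lit 54312960)) (I.mix (nat_lit 55820288) (nat_lit 36634624)) (I.mix (nat_lit 99647488) (nat_lit 64765952)))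
  false (nat_lit 42233030)
def b0_5 : Bx := Bx.mk (St.mk (I.pos (nat_lit 103137280) (nat_lit 185958400)) (I.neg (nat_lit 2490368) (nat_lit 50282496)) (I.mix (nat_lit 51462144) (nat_lit 1933312)) (I.pos (nat_lit 71450624) (nat_lit 164446208)) (I.mix (nat_lit 70844416) (nat_lit 36454400)) (I.mix (nat_lit 33505280) (nat_lit 46694400)) (I.mix (nat_lit 27934720) (nat_lit 45793280)))
  false (nat_lit 12742704)
def b0_6 : Bx := Bx.mk (St.mk (I.mix (nat_lit 29261824) (nat_lit 112508928)) (I.mix (nat_lit 29605888) (nat_lit 6881280)) (I.mix (nat_lit 21233664) (nat_lit 4538368)) (I.pos (nat_lit 10780672) (nat_lit 80003072)) (I.mix (nat_lit 36061184) (nat_lit 26066944)) (I.mix (nat_lit 17137664) (nat_lit 26443776)) (I.mix (nat_lit 10043392) (nat_lit 16384000)))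
  false (nat_lit 0)
def b0_7 : Bx := Bx.mk (St.mk (I.pos (nat_lit 166494208) (nat_lit 216940544)) (I.mix (nat_lit 14008320) (nat_lit 50905088)) (I.mix (nat_lit 3031040) (nat_lit 83918848)) (I.pos (nat_lit 127959040) (nat_lit 212516864)) (I.mix (nat_lit 131973120) (nat_lit 56754176)) (I.mix (nat_lit 111230976) (nat_lit 59473920)) (I.mix (nat_lit 123191296) (nat_lit 56049664)))
  false (nat_lit 15471528)
def b0_8 : Bx := Bx.mk (St.mk (I.mix (nat_lit 33947648) (nat_lit 134266880)) (I.mix (nat_lit 15794176) (nat_lit 32391168)) (I.mix (nat_lit 13320192) (nat_lit 25427968)) (I.pos (nat_lit 10715136) (nat_lit 97009664)) (I.mix (nat_lit 48824320) (nat_lit 27475968)) (I.mix (nat_lit 40632320) (nat_lit 20905984)) (I.mix (nat_lit 25739264) (nat_lit 12828672)))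
  false (nat_lit 0)
def b0_9 : Bx := Bx.mk (St.mk (I.pos (nat_lit 146292736) (nat_lit 218054656)) (I.mix (nat_lit 40796160) (nat_lit 18956288)) (I.mix (nat_lit 44367872) (nat_lit 38338560)) (I.pos (nat_lit 103776256) (nat_lit 206749696)) (I.mix (nat_lit 53395456) (nat_lit 52297728)) (I.mix (nat_lit 49315840) (nat_lit 44138496)) (I.mix (nat_lit 49692672) (nat_lit 45318144)))
  false (nat_lit 31721563)
def b0_10 : Bx := Bx.mk (St.mk (I.pos (nat_lit 169345024) (nat_lit 216252416)) (I.mix (nat_lit 18563072) (nat_lit 30736384)) (I.mix (nat_lit 9682944) (nat_lit 56147968)) (I.pos (nat_lit 131940352) (nat_lit 206127104)) (I.mix (nat_lit 100089856) (nat_lit 60145664)) (I.mix (nat_lit 97206272) (nat_lit 53788672)) (I.mix (nat_lit 107970560) (nat_lit 57344000)))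
  false (nat_lit 0)
def b0_11 : Bx := Bx.mk (St.mk (I.pos (nat_lit 181911552) (nat_lit 240353280)) (I.pos (nat_lit 4784128) (nat_lit 51216384)) (I.pos (nat_lit 7602176) (nat_lit 86573056)) (I.pos (nat_lit 172687360) (nat_lit 243826688)) (I.mix (nat_lit 95764480) (nat_lit 77430784)) (I.mix (nat_lit 76775424) (nat_lit 62849024)) (I.mix (nat_lit 114278400) (nat_lit 77004800)))
  false (nat_lit 44375073)
def t0 : BTr := (BTr.n (BTr.n (BTr.n (BTr.b b0_0) (BTr.n (BTr.b b0_1) (BTr.b b0_2))) (BTr.n (BTr.b b0_3) (BTr.n (BTr.b b0_4) (BTr.b b0_5)))) (BTr.n (BTr.n (BTr.b b0_6) (BTr.n (BTr.b b0_7) (BTr.b b0_8))) (BTr.n (BTr.b b0_9) (BTr.n (BTr.b b0_10) (BTr.b b0_11)))))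
namespace T0
def l0 : Tr := Tr.L (Pth.l (Pth.l (Pth.l Pth.z)))
def l1 : Tr := Tr.L (Pth.l (Pth.l (Pth.r (Pth.l Pth.z))))
def l2 : Tr := Tr.L (Pth.l (Pth.l (Pth.r (Pth.r Pth.z))))
def l3 : Tr := Tr.L (Pth.l (Pth.r (Pth.l Pth.z)))
def l4 : Tr := Tr.L (Pth.l (Pth.r (Pth.r (Pth.l Pth.z))))
def l5 : Tr := Tr.L (Pth.l (Pth.r (Pth.r (Pth.r Pth.z))))
def l6 : Tr := Tr.L (Pth.r (Pth.l (Pth.l Pth.z)))
def l7 : Tr := Tr.L (Pth.r (Pth.l (Pth.r (Pth.l Pth.z))))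
def l8 : Tr := Tr.L (Pth.r (Pth.l (Pth.r (Pth.r Pth.z))))
def l9 : Tr := Tr.L (Pth.r (Pth.r (Pth.l Pth.z)))
def l10 : Tr := Tr.L (Pth.r (Pth.r (Pth.r (Pth.l Pth.z))))
def l11 : Tr := Tr.L (Pth.r (Pth.r (Pth.r (Pth.r Pth.z))))
end T0
def b1_0 : Bx := Bx.mk (St.mk (I.pos (nat_lit 152289280) (nat_lit 238387200)) (I.mix (nat_lit 5357568) (nat_lit 56197120)) (I.mix (nat_lit 8945664) (nat_lit 95584256)) (I.pos (nat_lit 130809856) (nat_lit 270712832)) (I.mix (nat_lit 112738304) (nat_lit 65830912)) (I.mix (nat_lit 71122944) (nat_lit 65961984)) (I.mix (nat_lit 90128384) (nat_lit 86687744)))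
  false (nat_lit 71747908)
def b1_1 : Bx := Bx.mk (St.mk (I.pos (nat_lit 92520448) (nat_lit 181420032)) (I.neg (nat_lit 2998272) (nat_lit 55132160)) (I.mix (nat_lit 53198848) (nat_lit 5832704)) (I.pos (nat_lit 88391680) (nat_lit 184795136)) (I.mix (nat_lit 74383360) (nat_lit 38256640)) (I.mix (nat_lit 33619968) (nat_lit 47054848)) (I.mix (nat_lit 28950528) (nat_lit 43450368)))
  false (nat_lit 6503594)
def b1_2 : Bx := Bx.mk (St.mk (I.mix (nat_lit 33751040) (nat_lit 131432448)) (I.mix (nat_lit 9289728) (nat_lit 34701312)) (I.mix (nat_lit 14925824) (nat_lit 24346624)) (I.pos (nat_lit 35078144) (nat_lit 121323520)) (I.mix (nat_lit 43843584) (nat_lit 36962304)) (I.mix (nat_lit 34127872) (nat_lit 24526848)) (I.mix (nat_lit 23740416) (nat_lit 16318464)))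
  false (nat_lit 0)
def b1_3 : Bx := Bx.mk (St.mk (I.mix (nat_lit 35176448) (nat_lit 93159424)) (I.mix (nat_lit 33636352) (nat_lit 6914048)) (I.mix (nat_lit 20709376) (nat_lit 6946816)) (I.pos (nat_lit 36651008) (nat_lit 93798400)) (I.mix (nat_lit 37224448) (nat_lit 30752768)) (I.mix (nat_lit 21331968) (nat_lit 28459008)) (I.mix (nat_lit 11304960) (nat_lit 14942208)))
  false (nat_lit 0)
def b1_4 : Bx := Bx.mk (St.mk (I.pos (nat_lit 161038336) (nat_lit 215203840)) (I.mix (nat_lit 11960320) (nat_lit 57556992)) (I.pos (nat_lit 606208) (nat_lit 92520448)) (I.pos (nat_lit 147390464) (nat_lit 235487232)) (I.mix (nat_lit 141344768) (nat_lit 58720256)) (I.mix (nat_lit 114262016) (nat_lit 66158592)) (I.mix (nat_lit 119144448) (nat_lit 58310656)))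
  false (nat_lit 22171987)
def b1_5 : Bx := Bx.mk (St.mk (I.pos (nat_lit 87506944) (nat_lit 142721024)) (I.mix (nat_lit 53870592) (nat_lit 11599872)) (I.mix (nat_lit 52477952) (nat_lit 6356992)) (I.pos (nat_lit 73646080) (nat_lit 139296768)) (I.mix (nat_lit 80297984) (nat_lit 37027840)) (I.mix (nat_lit 31440896) (nat_lit 64618496)) (I.mix (nat_lit 22773760) (nat_lit 48119808)))
  false (nat_lit 0)
def b1_6 : Bx := Bx.mk (St.mk (I.mix (nat_lit 46923776) (nat_lit 118341632)) (I.mix (nat_lit 15630336) (nat_lit 36814848)) (I.mix (nat_lit 10895360) (nat_lit 26525696)) (I.pos (nat_lit 36159488) (nat_lit 111001600)) (I.mix (nat_lit 52723712) (nat_lit 28082176)) (I.mix (nat_lit 43139072) (nat_lit 23494656)) (I.mix (nat_lit 23543808) (nat_lit 14041088)))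
  false (nat_lit 0)
def b1_7 : Bx := Bx.mk (St.mk (I.mix (nat_lit 43155456) (nat_lit 72318976)) (I.mix (nat_lit 26591232) (nat_lit 6356992)) (I.mix (nat_lit 16203776) (nat_lit 5275648)) (I.pos (nat_lit 39010304) (nat_lit 82591744)) (I.mix (nat_lit 37601280) (nat_lit 19775488)) (I.mix (nat_lit 15745024) (nat_lit 29704192)) (I.mix (nat_lit 7585792) (nat_lit 11501568)))
  false (nat_lit 0)
def b1_8 : Bx := Bx.mk (St.mk (I.pos (nat_lit 193708032) (nat_lit 290471936)) (I.mix (nat_lit 22593536) (nat_lit 43794432)) (I.mix (nat_lit 64733184) (nat_lit 75399168)) (I.pos (nat_lit 202981376) (nat_lit 375455744)) (I.mix (nat_lit 71090176) (nat_lit 54771712)) (I.mix (nat_lit 53395456) (nat_lit 36683776)) (I.mix (nat_lit 93421568) (nat_lit 60768256)))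
  false (nat_lit 74048739)
def b1_9 : Bx := Bx.mk (St.mk (I.pos (nat_lit 140541952) (nat_lit 213647360)) (I.mix (nat_lit 41811968) (nat_lit 20889600)) (I.mix (nat_lit 41369600) (nat_lit 44154880)) (I.pos (nat_lit 122617856) (nat_lit 225902592)) (I.mix (nat_lit 56377344) (nat_lit 51478528)) (I.mix (nat_lit 47546368) (nat_lit 44040192)) (I.mix (nat_lit 45432832) (nat_lit 43630592)))
  false (nat_lit 41375517)
def b1_10 : Bx := Bx.mk (St.mk (I.pos (nat_lit 177274880) (nat_lit 236814336)) (I.pos (nat_lit 11550720) (nat_lit 53395456)) (I.pos (nat_lit 20578304) (nat_lit 89948160)) (I.pos (nat_lit 189906944) (nat_lit 263290880)) (I.mix (nat_lit 98811904) (nat_lit 77332480)) (I.mix (nat_lit 78905344) (nat_lit 60424192)) (I.mix (nat_lit 115392512) (nat_lit 71352320)))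
  false (nat_lit 25911618)
def b1_11 : Bx := Bx.mk (St.mk (I.pos (nat_lit 162922496) (nat_lit 212729856)) (I.mix (nat_lit 16596992) (nat_lit 32374784)) (I.mix (nat_lit 3948544) (nat_lit 61128704)) (I.pos (nat_lit 149504000) (nat_lit 226639872)) (I.mix (nat_lit 94699520) (nat_lit 59949056)) (I.mix (nat_lit 91750400) (nat_lit 55967744)) (I.mix (nat_lit 96043008) (nat_lit 56770560)))
  false (nat_lit 19520345)
def t1 : BTr := (BTr.n (BTr.n (BTr.n (BTr.b b1_0) (BTr.n (BTr.b b1_1) (BTr.b b1_2))) (BTr.n (BTr.b b1_3) (BTr.n (BTr.b b1_4) (BTr.b b1_5)))) (BTr.n (BTr.n (BTr.b b1_6) (BTr.n (BTr.b b1_7) (BTr.b b1_8))) (BTr.n (BTr.b b1_9) (BTr.n (BTr.b b1_10) (BTr.b b1_11)))))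
namespace T1
def l0 : Tr := Tr.L (Pth.l (Pth.l (Pth.l Pth.z)))
def l1 : Tr := Tr.L (Pth.l (Pth.l (Pth.r (Pth.l Pth.z))))
def l2 : Tr := Tr.L (Pth.l (Pth.l (Pth.r (Pth.r Pth.z))))
def l3 : Tr := Tr.L (Pth.l (Pth.r (Pth.l Pth.z)))
def l4 : Tr := Tr.L (Pth.l (Pth.r (Pth.r (Pth.l Pth.z))))
def l5 : Tr := Tr.L (Pth.l (Pth.r (Pth.r (Pth.r Pth.z))))
def l6 : Tr := Tr.L (Pth.r (Pth.l (Pth.l Pth.z)))
def l7 : Tr := Tr.L (Pth.r (Pth.l (Pth.r (Pth.l Pth.z))))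
def l8 : Tr := Tr.L (Pth.r (Pth.l (Pth.r (Pth.r Pth.z))))
def l9 : Tr := Tr.L (Pth.r (Pth.r (Pth.l Pth.z)))
def l10 : Tr := Tr.L (Pth.r (Pth.r (Pth.r (Pth.l Pth.z))))
def l11 : Tr := Tr.L (Pth.r (Pth.r (Pth.r (Pth.r Pth.z))))
end T1
def b2_0 : Bx := Bx.mk (St.mk (I.pos (nat_lit 153387008) (nat_lit 239468544)) (I.mix (nat_lit 4767744) (nat_lit 49725440)) (I.mix (nat_lit 8863744) (nat_lit 94765056)) (I.pos (nat_lit 104054784) (nat_lit 241680384)) (I.mix (nat_lit 102563840) (nat_lit 60588032)) (I.mix (nat_lit 68550656) (nat_lit 63979520)) (I.mix (nat_lit 89243648) (nat_lit 81100800)))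
  false (nat_lit 19558299)
def b2_1 : Bx := Bx.mk (St.mk (I.pos (nat_lit 104824832) (nat_lit 187269120)) (I.neg (nat_lit 2523136) (nat_lit 52101120)) (I.mix (nat_lit 48726016) (nat_lit 9519104)) (I.pos (nat_lit 76726272) (nat_lit 165576704)) (I.mix (nat_lit 70664192) (nat_lit 39108608)) (I.mix (nat_lit 35520512) (nat_lit 45400064)) (I.mix (nat_lit 29540352) (nat_lit 43827200)))
  false (nat_lit 9746655)
def b2_2 : Bx := Bx.mk (St.mk (I.mix (nat_lit 28000256) (nat_lit 114851840)) (I.mix (nat_lit 29212672) (nat_lit 6782976)) (I.mix (nat_lit 18317312) (nat_lit 8585216)) (I.pos (nat_lit 10928128) (nat_lit 80936960)) (I.mix (nat_lit 32636928) (nat_lit 27082752)) (I.mix (nat_lit 17383424) (nat_lit 25296896)) (I.mix (nat_lit 9945088) (nat_lit 15532032)))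
  false (nat_lit 0)
def b2_3 : Bx := Bx.mk (St.mk (I.pos (nat_lit 165986304) (nat_lit 214958080)) (I.mix (nat_lit 14188544) (nat_lit 49119232)) (I.pos (nat_lit 2621440) (nat_lit 88244224)) (I.pos (nat_lit 124239872) (nat_lit 206585856)) (I.mix (nat_lit 133906432) (nat_lit 54198272)) (I.mix (nat_lit 109527040) (nat_lit 59424768)) (I.mix (nat_lit 123781120) (nat_lit 53018624)))
  false (nat_lit 20704181)
def b2_4 : Bx := Bx.mk (St.mk (I.mix (nat_lit 35012608) (nat_lit 133267456)) (I.mix (nat_lit 15843328) (nat_lit 32391168)) (I.mix (nat_lit 10027008) (nat_lit 29163520)) (I.pos (nat_lit 10829824) (nat_lit 95830016)) (I.mix (nat_lit 53493760) (nat_lit 26918912)) (I.mix (nat_lit 44482560) (nat_lit 21774336)) (I.mix (nat_lit 28409856) (nat_lit 13058048)))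
  false (nat_lit 0)
def b2_5 : Bx := Bx.mk (St.mk (I.pos (nat_lit 147423232) (nat_lit 216809472)) (I.mix (nat_lit 40861696) (nat_lit 16859136)) (I.mix (nat_lit 37765120) (nat_lit 43646976)) (I.pos (nat_lit 106086400) (nat_lit 202850304)) (I.mix (nat_lit 52789248) (nat_lit 51937280)) (I.mix (nat_lit 47448064) (nat_lit 43253760)) (I.mix (nat_lit 46579712) (nat_lit 43876352)))
  false (nat_lit 691679)
def b2_6 : Bx := Bx.mk (St.mk (I.pos (nat_lit 167100416) (nat_lit 215040000)) (I.mix (nat_lit 19021824) (nat_lit 29016064)) (I.mix (nat_lit 3244032) (nat_lit 61358080)) (I.pos (nat_lit 126533632) (nat_lit 201949184)) (I.mix (nat_lit 104726528) (nat_lit 59195392)) (I.mix (nat_lit 99844096) (nat_lit 53313536)) (I.mix (nat_lit 112640000) (nat_lit 55771136)))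
  false (nat_lit 1736069)
def b2_7 : Bx := Bx.mk (St.mk (I.mix (nat_lit 27951104) (nat_lit 144261120)) (I.mix (nat_lit 7897088) (nat_lit 28278784)) (I.mix (nat_lit 9142272) (nat_lit 26509312)) (I.pos (nat_lit 9404416) (nat_lit 106545152)) (I.mix (nat_lit 41271296) (nat_lit 33390592)) (I.mix (nat_lit 32489472) (nat_lit 21659648)) (I.mix (nat_lit 25395200) (nat_lit 15663104)))
  false (nat_lit 0)
def b2_8 : Bx := Bx.mk (St.mk (I.pos (nat_lit 102154240) (nat_lit 154042368)) (I.mix (nat_lit 49561600) (nat_lit 10633216)) (I.mix (nat_lit 47431680) (nat_lit 11747328)) (I.pos (nat_lit 58834944) (nat_lit 124616704)) (I.mix (nat_lit 76398592) (nat_lit 38797312)) (I.mix (nat_lit 32407552) (nat_lit 62177280)) (I.mix (nat_lit 25739264) (nat_lit 50855936)))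
  false (nat_lit 2613634)
def b2_9 : Bx := Bx.mk (St.mk (I.pos (nat_lit 184565760) (nat_lit 290488320)) (I.mix (nat_lit 20119552) (nat_lit 39714816)) (I.mix (nat_lit 44269568) (nat_lit 79708160)) (I.pos (nat_lit 166625280) (nat_lit 348536832)) (I.mix (nat_lit 75972608) (nat_lit 54870016)) (I.mix (nat_lit 54624256) (nat_lit 34455552)) (I.mix (nat_lit 95223808) (nat_lit 56328192)))
  false (nat_lit 63986186)
def b2_10 : Bx := Bx.mk (St.mk (I.mix (nat_lit 26886144) (nat_lit 101105664)) (I.mix (nat_lit 27688960) (nat_lit 1589248)) (I.mix (nat_lit 17203200) (nat_lit 4751360)) (I.pos (nat_lit 13058048) (nat_lit 71974912)) (I.mix (nat_lit 33931264) (nat_lit 16711680)) (I.mix (nat_lit 13942784) (nat_lit 26951680)) (I.mix (nat_lit 7766016) (nat_lit 13615104)))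
  false (nat_lit 0)
def b2_11 : Bx := Bx.mk (St.mk (I.pos (nat_lit 180584448) (nat_lit 238403584)) (I.pos (nat_lit 5931008) (nat_lit 48037888)) (I.pos (nat_lit 17039360) (nat_lit 90587136)) (I.pos (nat_lit 166330368) (nat_lit 236584960)) (I.mix (nat_lit 93159424) (nat_lit 72974336)) (I.mix (nat_lit 75333632) (nat_lit 58736640)) (I.mix (nat_lit 110919680) (nat_lit 72990720)))
  false (nat_lit 9891706)
def t2 : BTr := (BTr.n (BTr.n (BTr.n (BTr.b b2_0) (BTr.n (BTr.b b2_1) (BTr.b b2_2))) (BTr.n (BTr.b b2_3) (BTr.n (BTr.b b2_4) (BTr.b b2_5)))) (BTr.n (BTr.n (BTr.b b2_6) (BTr.n (BTr.b b2_7) (BTr.b b2_8))) (BTr.n (BTr.b b2_9) (BTr.n (BTr.b b2_10) (BTr.b b2_11)))))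
namespace T2
def l0 : Tr := Tr.L (Pth.l (Pth.l (Pth.l Pth.z)))
def l1 : Tr := Tr.L (Pth.l (Pth.l (Pth.r (Pth.l Pth.z))))
def l2 : Tr := Tr.L (Pth.l (Pth.l (Pth.r (Pth.r Pth.z))))
def l3 : Tr := Tr.L (Pth.l (Pth.r (Pth.l Pth.z)))
def l4 : Tr := Tr.L (Pth.l (Pth.r (Pth.r (Pth.l Pth.z))))
def l5 : Tr := Tr.L (Pth.l (Pth.r (Pth.r (Pth.r Pth.z))))
def l6 : Tr := Tr.L (Pth.r (Pth.l (Pth.l Pth.z)))
def l7 : Tr := Tr.L (Pth.r (Pth.l (Pth.r (Pth.l Pth.z))))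
def l8 : Tr := Tr.L (Pth.r (Pth.l (Pth.r (Pth.r Pth.z))))
def l9 : Tr := Tr.L (Pth.r (Pth.r (Pth.l Pth.z)))
def l10 : Tr := Tr.L (Pth.r (Pth.r (Pth.r (Pth.l Pth.z))))
def l11 : Tr := Tr.L (Pth.r (Pth.r (Pth.r (Pth.r Pth.z))))
end T2
theorem bx0_0 : BoxOK sI cl7 cl9 cl9 t1 t1 b0_0 :=
  box_mk (TrL.c (I.pos (nat_lit 0) (nat_lit 0)) (xa (xb (xa (xb T1.l0 (xa T1.l0 T1.l0)) (xb T1.l0 T1.l0)) (xa (xb (xa T1.l0 T1.l0) (xa (xs T1.l0 T1.l0) (xs T1.l0 T1.l0))) (xb (xa T1.l0 T1.l0) (xa T1.l0 T1.l0)))) (xb (xa (xb T1.l0 T1.l0) (xb T1.l0 T1.l0)) (xa (xb T1.l0 (xa T1.l0 T1.l0)) (xb T1.l0 (xa T1.l0 (xs T1.l0 T1.l0))))))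
  (TrL.c (I.pos (nat_lit 0) (nat_lit 0)) (xa (xb (xk T1.l1 T1.l1) (xk (xa (xb T1.l1 T1.l1) T1.l1) (xa (xb T1.l1 T1.l1) T1.l1))) (xk (xb T1.l1 (xa T1.l1 T1.l1)) (xb T1.l1 (xa T1.l1 T1.l1))))
  (TrL.c (I.pos (nat_lit 0) (nat_lit 111196574)) (xR T1.l2 (xR T1.l2 (xR T1.l2 T1.l2)))
  (TrL.c (I.pos (nat_lit 0) (nat_lit 77433728)) (xR T1.l3 (xR T1.l3 T1.l3))
  (TrL.c (I.pos (nat_lit 0) (nat_lit 0)) (xa (xb (xk T1.l4 T1.l4) (xk T1.l4 T1.l4)) (xb (xk T1.l4 T1.l4) (xk (xa T1.l4 (xb T1.l4 T1.l4)) (xa T1.l4 (xb T1.l4 (xs T1.l4 T1.l4))))))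
  (TrL.c (I.pos (nat_lit 0) (nat_lit 0)) (xk (xa T1.l5 (xb T1.l5 T1.l5)) (xa T1.l5 T1.l5))
  (TrL.c (I.mix (nat_lit 29511666) (nat_lit 77433728)) (xR T1.l6 (xR T1.l6 (xR T1.l6 T1.l6)))
  (TrL.c (I.mix (nat_lit 29511666) (nat_lit 46070178)) (xR T1.l7 T1.l7)
  TrL.n)))))))) (by decide +kernel)
theorem bx0_1 : BoxOK sI cl7 cl9 cl9 t1 t1 b0_1 :=
  box_mk (TrL.c (I.pos (nat_lit 0) (nat_lit 0)) (xa (xa (xb T1.l8 (xa (xb T1.l8 T1.l8) T1.l8)) (xb T1.l8 T1.l8)) (xa T1.l8 (xa T1.l8 T1.l8)))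
  (TrL.c (I.pos (nat_lit 0) (nat_lit 0)) (xa T1.l1 T1.l1)
  (TrL.c (I.pos (nat_lit 0) (nat_lit 111196574)) T1.l2
  (TrL.c (I.pos (nat_lit 0) (nat_lit 77433728)) T1.l3
  (TrL.c (I.pos (nat_lit 0) (nat_lit 0)) (xa T1.l9 T1.l9)
  (TrL.c (I.pos (nat_lit 0) (nat_lit 0)) T1.l5
  (TrL.c (I.mix (nat_lit 29511666) (nat_lit 77433728)) T1.l6
  (TrL.c (I.mix (nat_lit 29511666) (nat_lit 46070178)) T1.l7
  TrL.n)))))))) (by decide +kernel)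
theorem bx0_2 : BoxOK sI cl7 cl9 cl9 t1 t1 b0_2 :=
  box_mk (TrL.c (I.pos (nat_lit 0) (nat_lit 0)) (xb (xa T1.l8 T1.l8) (xa (xb T1.l8 (xa (xb T1.l8 T1.l8) T1.l8)) (xb T1.l8 T1.l8)))
  (TrL.c (I.pos (nat_lit 0) (nat_lit 0)) T1.l1
  (TrL.c (I.pos (nat_lit 0) (nat_lit 111196574)) T1.l2
  (TrL.c (I.pos (nat_lit 0) (nat_lit 77433728)) T1.l3
  (TrL.c (I.pos (nat_lit 0) (nat_lit 0)) (xb (xk (xa T1.l9 (xb T1.l9 T1.l9)) (xa T1.l9 (xb T1.l9 T1.l9))) (xk (xa T1.l9 T1.l9) (xa T1.l9 T1.l9)))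
  (TrL.c (I.pos (nat_lit 0) (nat_lit 0)) T1.l5
  (TrL.c (I.mix (nat_lit 29511666) (nat_lit 77433728)) T1.l6
  (TrL.c (I.mix (nat_lit 29511666) (nat_lit 46070178)) T1.l7
  TrL.n)))))))) (by decide +kernel)
theorem bx0_3 : BoxOK sI cl7 cl9 cl9 t1 t1 b0_3 :=
  box_mk (TrL.c (I.pos (nat_lit 0) (nat_lit 0)) (xa (xa (xb (xa (xb T1.l8 T1.l8) T1.l8) T1.l8) T1.l8) T1.l8)
  (TrL.c (I.pos (nat_lit 0) (nat_lit 0)) (xa T1.l1 T1.l1)
  (TrL.c (I.pos (nat_lit 0) (nat_lit 111196574)) T1.l2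
  (TrL.c (I.pos (nat_lit 0) (nat_lit 77433728)) T1.l3
  (TrL.c (I.pos (nat_lit 0) (nat_lit 0)) (xa T1.l9 T1.l9)
  (TrL.c (I.pos (nat_lit 0) (nat_lit 0)) T1.l5
  (TrL.c (I.mix (nat_lit 29511666) (nat_lit 77433728)) T1.l6
  (TrL.c (I.mix (nat_lit 29511666) (nat_lit 46070178)) T1.l7
  TrL.n)))))))) (by decide +kernel)
theorem bx0_4 : BoxOK sI cl7 cl9 cl9 t1 t1 b0_4 :=
  box_mk (TrL.c (I.pos (nat_lit 0) (nat_lit 0)) (xa (xb (xa T1.l0 T1.l0) (xa (xb T1.l0 (xa T1.l0 T1.l0)) (xb T1.l0 (xa T1.l0 T1.l0)))) (xb (xa T1.l0 (xb T1.l0 T1.l0)) (xa (xb T1.l0 (xa T1.l0 T1.l0)) (xb T1.l0 (xa T1.l0 T1.l0)))))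
  (TrL.c (I.pos (nat_lit 0) (nat_lit 0)) (xa (xb T1.l1 (xk T1.l1 T1.l1)) (xb (xk T1.l1 T1.l1) (xk (xa T1.l1 T1.l1) T1.l5)))
  (TrL.c (I.pos (nat_lit 0) (nat_lit 111196574)) (xR T1.l2 (xR T1.l2 T1.l6))
  (TrL.c (I.pos (nat_lit 0) (nat_lit 77433728)) (xR T1.l3 (xR T1.l3 (xR T1.l3 T1.l3)))
  (TrL.c (I.pos (nat_lit 0) (nat_lit 0)) (xa (xb (xk (xa T1.l4 T1.l4) (xa T1.l4 T1.l4)) (xk (xa T1.l4 T1.l4) T1.l4)) (xb (xk (xa (xb T1.l4 T1.l4) (xb (xk T1.l4 T1.l4) (xk T1.l4 T1.l4))) (xa (xb T1.l4 T1.l4) (xb (xk T1.l4 T1.l4) (xk T1.l4 T1.l4)))) (xk (xa T1.l4 (xb (xk T1.l4 T1.l4) (xk T1.l4 T1.l4))) (xa T1.l4 (xb (xk T1.l4 T1.l4) (xk T1.l4 T1.l4))))))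
  (TrL.c (I.pos (nat_lit 0) (nat_lit 0)) (xa (xb T1.l5 T1.l5) (xk (xb (xa T1.l5 T1.l5) (xa T1.l5 (xk T1.l5 T1.l5))) (xb T1.l5 (xa T1.l5 T1.l5))))
  (TrL.c (I.mix (nat_lit 29511666) (nat_lit 77433728)) (xR T1.l6 (xR T1.l6 (xR T1.l6 (xa T1.l6 (xk T1.l6 T1.l6)))))
  (TrL.c (I.mix (nat_lit 29511666) (nat_lit 46070178)) (xR T1.l7 T1.l3)
  TrL.n)))))))) (by decide +kernel)
theorem bx0_5 : BoxOK sI cl7 cl9 cl9 t1 t1 b0_5 :=
  box_mk (TrL.c (I.pos (nat_lit 0) (nat_lit 0)) (xa (xb T1.l8 T1.l8) T1.l0)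
  (TrL.c (I.pos (nat_lit 0) (nat_lit 0)) T1.l1
  (TrL.c (I.pos (nat_lit 0) (nat_lit 111196574)) T1.l2
  (TrL.c (I.pos (nat_lit 0) (nat_lit 77433728)) T1.l3
  (TrL.c (I.pos (nat_lit 0) (nat_lit 0)) (xa (xb (xk T1.l9 T1.l9) T1.l9) (xb (xk T1.l11 T1.l11) T1.l11))
  (TrL.c (I.pos (nat_lit 0) (nat_lit 0)) T1.l5
  (TrL.c (I.mix (nat_lit 29511666) (nat_lit 77433728)) T1.l2
  (TrL.c (I.mix (nat_lit 29511666) (nat_lit 46070178)) T1.l7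
  TrL.n)))))))) (by decide +kernel)
theorem bx0_6 : BoxOK sI cl7 cl9 cl9 t1 t1 b0_6 :=
  box_mk (TrL.c (I.pos (nat_lit 0) (nat_lit 0)) (xa (xa (xb (xa (xb T1.l8 T1.l8) T1.l8) T1.l8) T1.l8) T1.l8)
  (TrL.c (I.pos (nat_lit 0) (nat_lit 0)) (xa T1.l1 T1.l1)
  (TrL.c (I.pos (nat_lit 0) (nat_lit 111196574)) T1.l2
  (TrL.c (I.pos (nat_lit 0) (nat_lit 77433728)) T1.l3
  (TrL.c (I.pos (nat_lit 0) (nat_lit 0)) (xa T1.l9 T1.l9)
  (TrL.c (I.pos (nat_lit 0) (nat_lit 0)) T1.l5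
  (TrL.c (I.mix (nat_lit 29511666) (nat_lit 77433728)) T1.l6
  (TrL.c (I.mix (nat_lit 29511666) (nat_lit 46070178)) T1.l7
  TrL.n)))))))) (by decide +kernel)
theorem bx0_7 : BoxOK sI cl7 cl9 cl9 t1 t1 b0_7 :=
  box_mk (TrL.c (I.pos (nat_lit 0) (nat_lit 0)) (xb (xa (xb (xa T1.l10 T1.l10) (xa (xb T1.l10 T1.l10) T1.l10)) (xb T1.l10 (xa T1.l10 T1.l10))) (xa (xb (xa (xb T1.l10 T1.l10) (xb T1.l10 T1.l10)) (xa (xs (xb T1.l10 T1.l10) (xb T1.l10 T1.l10)) (xs T1.l10 (xb T1.l10 T1.l10)))) (xb (xa T1.l10 (xs T1.l10 T1.l10)) (xa (xs T1.l10 (xb T1.l10 T1.l10)) (xs T1.l10 (xb T1.l10 T1.l10))))))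
  (TrL.c (I.pos (nat_lit 0) (nat_lit 0)) (xb (xk (xa (xb T1.l1 T1.l1) T1.l5) (xa (xb T1.l1 T1.l1) T1.l5)) (xk (xa (xb T1.l1 (xk T1.l1 T1.l1)) (xb T1.l1 (xk T1.l1 T1.l1))) (xa (xb T1.l1 (xk T1.l1 T1.l1)) (xb T1.l1 T1.l1))))
  (TrL.c (I.pos (nat_lit 0) (nat_lit 111196574)) (xR T1.l2 (xR T1.l2 T1.l2))
  (TrL.c (I.pos (nat_lit 0) (nat_lit 77433728)) (xR T1.l3 (xR T1.l3 T1.l3))
  (TrL.c (I.pos (nat_lit 0) (nat_lit 0)) (xb (xk (xa (xb (xk T1.l11 T1.l11) T1.l4) (xb (xk T1.l4 T1.l4) T1.l4)) (xa (xb T1.l11 T1.l11) (xb (xk T1.l4 T1.l4) T1.l4))) (xk (xa (xb T1.l4 T1.l4) (xb T1.l4 (xb T1.l4 (xs T1.l4 (xk T1.l4 (xa T1.l11 T1.l4)))))) (xa (xb T1.l4 (xb T1.l4 T1.l4)) (xb T1.l4 (xb (xs T1.l4 (xk T1.l4 T1.l4)) (xs (xk T1.l4 T1.l4) (xk (xa T1.l11 (xd T1.l11 T1.l11)) (xa T1.l11 (xd T1.l11 T1.l11)))))))))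
  (TrL.c (I.pos (nat_lit 0) (nat_lit 0)) (xk (xb T1.l5 T1.l5) (xb T1.l5 T1.l5))
  (TrL.c (I.mix (nat_lit 29511666) (nat_lit 77433728)) (xR T1.l6 (xR T1.l6 (xR T1.l6 T1.l6)))
  (TrL.c (I.mix (nat_lit 29511666) (nat_lit 46070178)) (xR T1.l7 T1.l7)
  TrL.n)))))))) (by decide +kernel)
theorem bx0_8 : BoxOK sI cl7 cl9 cl9 t1 t1 b0_8 :=
  box_mk (TrL.c (I.pos (nat_lit 0) (nat_lit 0)) (xa (xa (xb T1.l8 (xa (xb T1.l8 (xa T1.l8 T1.l8)) (xb T1.l8 T1.l8))) (xb T1.l8 (xa T1.l8 T1.l8))) (xa T1.l8 (xb T1.l8 (xa T1.l8 T1.l8))))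
  (TrL.c (I.pos (nat_lit 0) (nat_lit 0)) (xa T1.l1 T1.l1)
  (TrL.c (I.pos (nat_lit 0) (nat_lit 111196574)) T1.l2
  (TrL.c (I.pos (nat_lit 0) (nat_lit 77433728)) T1.l3
  (TrL.c (I.pos (nat_lit 0) (nat_lit 0)) (xa T1.l9 T1.l9)
  (TrL.c (I.pos (nat_lit 0) (nat_lit 0)) T1.l5
  (TrL.c (I.mix (nat_lit 29511666) (nat_lit 77433728)) T1.l6
  (TrL.c (I.mix (nat_lit 29511666) (nat_lit 46070178)) T1.l7
  TrL.n)))))))) (by decide +kernel)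
theorem bx0_9 : BoxOK sI cl7 cl9 cl9 t1 t1 b0_9 :=
  box_mk (TrL.c (I.pos (nat_lit 0) (nat_lit 0)) (xa (xb T1.l0 T1.l10) (xb T1.l0 T1.l0))
  (TrL.c (I.pos (nat_lit 0) (nat_lit 0)) (xa T1.l1 T1.l1)
  (TrL.c (I.pos (nat_lit 0) (nat_lit 111196574)) (xR T1.l2 T1.l2)
  (TrL.c (I.pos (nat_lit 0) (nat_lit 77433728)) T1.l3
  (TrL.c (I.pos (nat_lit 0) (nat_lit 0)) (xb (xa (xk T1.l11 T1.l11) (xk (xa T1.l11 T1.l0) (xa T1.l11 T1.l11))) (xa T1.l11 T1.l4))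
  (TrL.c (I.pos (nat_lit 0) (nat_lit 0)) (xb T1.l5 T1.l5)
  (TrL.c (I.mix (nat_lit 29511666) (nat_lit 77433728)) (xR T1.l6 T1.l6)
  (TrL.c (I.mix (nat_lit 29511666) (nat_lit 46070178)) T1.l3
  TrL.n)))))))) (by decide +kernel)
theorem bx0_10 : BoxOK sI cl7 cl9 cl9 t1 t1 b0_10 :=
  box_mk (TrL.c (I.pos (nat_lit 0) (nat_lit 0)) (xb (xa T1.l10 T1.l10) (xa (xb T1.l10 T1.l10) (xb T1.l10 T1.l10)))
  (TrL.c (I.pos (nat_lit 0) (nat_lit 0)) (xb (xk T1.l1 T1.l1) (xk T1.l1 T1.l1))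
  (TrL.c (I.pos (nat_lit 0) (nat_lit 111196574)) (xR T1.l2 T1.l2)
  (TrL.c (I.pos (nat_lit 0) (nat_lit 77433728)) T1.l3
  (TrL.c (I.pos (nat_lit 0) (nat_lit 0)) (xb (xk (xa T1.l11 (xb T1.l11 T1.l11)) (xa T1.l11 (xb T1.l11 T1.l11))) (xk T1.l4 T1.l4))
  (TrL.c (I.pos (nat_lit 0) (nat_lit 0)) T1.l5
  (TrL.c (I.mix (nat_lit 29511666) (nat_lit 77433728)) (xR T1.l6 (xR T1.l6 T1.l6))
  (TrL.c (I.mix (nat_lit 29511666) (nat_lit 46070178)) T1.l3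
  TrL.n)))))))) (by decide +kernel)
theorem bx0_11 : BoxOK sI cl7 cl9 cl9 t1 t1 b0_11 :=
  box_mk (TrL.c (I.pos (nat_lit 0) (nat_lit 0)) (xa (xb (xa (xb T1.l0 T1.l0) (xb T1.l0 T1.l0)) (xa (xb T1.l0 (xs T1.l0 T1.l0)) (xb T1.l0 (xs T1.l0 T1.l0)))) (xb (xa T1.l0 T1.l0) (xa (xb T1.l0 (xs T1.l0 T1.l0)) (xb T1.l0 (xs T1.l0 (xk T1.l0 T1.l0))))))
  (TrL.c (I.pos (nat_lit 0) (nat_lit 0)) (xa (xk (xb T1.l1 T1.l1) (xb T1.l1 T1.l1)) (xk (xb T1.l1 (xk T1.l1 T1.l1)) (xb T1.l1 T1.l1)))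
  (TrL.c (I.pos (nat_lit 0) (nat_lit 111196574)) (xR T1.l2 (xR T1.l2 T1.l2))
  (TrL.c (I.pos (nat_lit 0) (nat_lit 77433728)) (xR T1.l3 (xR T1.l3 T1.l3))
  (TrL.c (I.pos (nat_lit 0) (nat_lit 0)) (xa (xk T1.l4 T1.l4) (xk (xb T1.l4 T1.l4) (xb T1.l4 (xb T1.l4 T1.l4))))
  (TrL.c (I.pos (nat_lit 0) (nat_lit 0)) (xk T1.l5 T1.l5)
  (TrL.c (I.mix (nat_lit 29511666) (nat_lit 77433728)) (xR T1.l6 (xR T1.l6 (xR T1.l6 T1.l6)))
  (TrL.c (I.mix (nat_lit 29511666) (nat_lit 46070178)) (xR T1.l7 T1.l3)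
  TrL.n)))))))) (by decide +kernel)
theorem sv0 : StarV sI cl7 cl9 cl9 t1 t1 t0 :=
  (bt_n (bt_n (bt_n (bt_b bx0_0) (bt_n (bt_b bx0_1) (bt_b bx0_2))) (bt_n (bt_b bx0_3) (bt_n (bt_b bx0_4) (bt_b bx0_5)))) (bt_n (bt_n (bt_b bx0_6) (bt_n (bt_b bx0_7) (bt_b bx0_8))) (bt_n (bt_b bx0_9) (bt_n (bt_b bx0_10) (bt_b bx0_11)))))
def S0 : StarD := StarD.mk cl7 cl9 cl9 1 1 t0
theorem bx1_0 : BoxOK sI cl9 cl7 cl9 t0 t2 b1_0 :=
  box_mk (TrL.c (I.pos (nat_lit 0) (nat_lit 0)) (xa (xb (xa (xb T0.l0 T0.l11) (xb T0.l0 T0.l0)) (xa (xb (xa T0.l0 T0.l0) (xa (xs T0.l0 T0.l0) (xs T0.l0 T0.l0))) (xb (xa T0.l0 T0.l0) (xa T0.l0 T0.l0)))) (xb (xa (xb T0.l0 T0.l0) T0.l0) (xa (xb T0.l0 (xa T0.l0 T0.l0)) (xb T0.l0 (xa T0.l0 (xs T0.l0 T0.l0))))))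
  (TrL.c (I.pos (nat_lit 0) (nat_lit 0)) (xa (xb T2.l1 (xk (xa T2.l1 T2.l1) (xa T2.l1 T2.l1))) (xk (xb T2.l1 (xa T2.l1 T2.l1)) (xb T2.l1 (xa T2.l1 T2.l1))))
  (TrL.c (I.pos (nat_lit 0) (nat_lit 124588530)) (xR T0.l1 (xR T0.l1 (xR T0.l1 T0.l1)))
  (TrL.c (I.pos (nat_lit 0) (nat_lit 96881482)) (xR T2.l2 (xR T2.l2 T2.l2))
  (TrL.c (I.pos (nat_lit 0) (nat_lit 0)) (xa (xb (xk T2.l3 T2.l3) (xk T2.l3 T2.l3)) (xb (xk (xa T2.l3 T2.l3) (xa T2.l3 T2.l3)) (xk (xa T2.l3 (xb T2.l3 (xk T2.l3 (xa T2.l3 T2.l3)))) (xa (xb T2.l3 T2.l3) (xb T2.l3 (xk (xa T2.l3 (xs T2.l3 T2.l3)) (xa T2.l3 (xs T2.l3 (xb T2.l6 T2.l6)))))))))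
  (TrL.c (I.pos (nat_lit 0) (nat_lit 0)) (xk (xa T0.l2 T0.l2) (xa T0.l2 T0.l2))
  (TrL.c (I.mix (nat_lit 17240550) (nat_lit 96881482)) (xR T2.l4 (xR T2.l4 (xR T2.l4 T2.l4)))
  (TrL.c (I.mix (nat_lit 17240550) (nat_lit 71940500)) (xR T0.l3 (xR T0.l3 T0.l3))
  TrL.n)))))))) (by decide +kernel)
theorem bx1_1 : BoxOK sI cl9 cl7 cl9 t0 t2 b1_1 :=
  box_mk (TrL.c (I.pos (nat_lit 0) (nat_lit 0)) (xa (xb T0.l4 T0.l4) T0.l0)
  (TrL.c (I.pos (nat_lit 0) (nat_lit 0)) T2.l1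
  (TrL.c (I.pos (nat_lit 0) (nat_lit 124588530)) T0.l1
  (TrL.c (I.pos (nat_lit 0) (nat_lit 96881482)) T2.l2
  (TrL.c (I.pos (nat_lit 0) (nat_lit 0)) (xa (xb (xk T2.l5 T2.l5) T2.l5) (xb (xk T2.l6 (xa T2.l5 T2.l6)) T2.l6))
  (TrL.c (I.pos (nat_lit 0) (nat_lit 0)) T0.l2
  (TrL.c (I.mix (nat_lit 17240550) (nat_lit 96881482)) T2.l4
  (TrL.c (I.mix (nat_lit 17240550) (nat_lit 71940500)) T0.l3
  TrL.n)))))))) (by decide +kernel)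
theorem bx1_2 : BoxOK sI cl9 cl7 cl9 t0 t2 b1_2 :=
  box_mk (TrL.c (I.pos (nat_lit 0) (nat_lit 0)) (xa (xa (xb (xa (xb T0.l4 T0.l4) T0.l4) (xa (xb T0.l4 (xa T0.l4 T0.l4)) (xb T0.l4 T0.l4))) (xb T0.l4 (xa T0.l4 T0.l4))) (xa T0.l4 (xb T0.l4 (xa T0.l4 T0.l4))))
  (TrL.c (I.pos (nat_lit 0) (nat_lit 0)) (xa T2.l1 T2.l1)
  (TrL.c (I.pos (nat_lit 0) (nat_lit 124588530)) T0.l1
  (TrL.c (I.pos (nat_lit 0) (nat_lit 96881482)) T2.l2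
  (TrL.c (I.pos (nat_lit 0) (nat_lit 0)) (xa T2.l5 T2.l5)
  (TrL.c (I.pos (nat_lit 0) (nat_lit 0)) T0.l2
  (TrL.c (I.mix (nat_lit 17240550) (nat_lit 96881482)) T2.l4
  (TrL.c (I.mix (nat_lit 17240550) (nat_lit 71940500)) T0.l3
  TrL.n)))))))) (by decide +kernel)
theorem bx1_3 : BoxOK sI cl9 cl7 cl9 t0 t2 b1_3 :=
  box_mk (TrL.c (I.pos (nat_lit 0) (nat_lit 0)) (xa (xa (xb (xa (xb (xa T0.l4 T0.l4) T0.l4) T0.l4) T0.l4) T0.l4) T0.l4)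
  (TrL.c (I.pos (nat_lit 0) (nat_lit 0)) (xa T2.l1 T2.l1)
  (TrL.c (I.pos (nat_lit 0) (nat_lit 124588530)) T0.l1
  (TrL.c (I.pos (nat_lit 0) (nat_lit 96881482)) T2.l2
  (TrL.c (I.pos (nat_lit 0) (nat_lit 0)) (xa T2.l5 T2.l5)
  (TrL.c (I.pos (nat_lit 0) (nat_lit 0)) T0.l2
  (TrL.c (I.mix (nat_lit 17240550) (nat_lit 96881482)) T2.l4
  (TrL.c (I.mix (nat_lit 17240550) (nat_lit 71940500)) T0.l3
  TrL.n)))))))) (by decide +kernel)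
theorem c1_4_0 : chkTag sI cl9 cl7 cl9 t0 b1_4 (tg true true false RT.r2) (I.pos (nat_lit 0) (nat_lit 0))
  (xb (xa (xb (xa T0.l11 T0.l11) (xa (xb T0.l11 T0.l11) T0.l11)) (xb (xa T0.l11 T0.l11) (xa T0.l11 T0.l11))) (xa (xb (xa (xb T0.l11 T0.l11) (xb T0.l11 T0.l11)) (xa (xs (xb T0.l11 T0.l11) (xb T0.l11 T0.l11)) (xs T0.l11 (xb T0.l11 T0.l11)))) (xb (xa T0.l11 (xs T0.l11 T0.l11)) (xa (xs T0.l11 (xb T0.l11 T0.l11)) (xs T0.l11 (xb T0.l11 T0.l11)))))) = true := by decide +kernel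
theorem c1_4_1 : chkTag sI cl9 cl7 cl9 t2 b1_4 (tg true false false RT.r3) (I.pos (nat_lit 0) (nat_lit 0))
  (xb (xk (xa T2.l8 T2.l8) (xa (xb T2.l1 T2.l1) T2.l8)) (xk (xa (xb T2.l1 (xk T2.l1 T2.l1)) (xb T2.l1 (xk T2.l1 T2.l1))) (xa (xb T2.l1 (xk T2.l1 T2.l1)) (xb T2.l1 T2.l1)))) = true := by decide +kernel
theorem c1_4_2 : chkTag sI cl9 cl7 cl9 t0 b1_4 (Tag.mk true true false RT.tl RT.r4) (I.pos (nat_lit 0) (nat_lit 124588530))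
  (xR T0.l1 (xR T0.l1 T0.l1)) = true := by decide +kernel
theorem c1_4_3 : chkTag sI cl9 cl7 cl9 t2 b1_4 (Tag.mk true false false RT.tl RT.r5) (I.pos (nat_lit 0) (nat_lit 96881482))
  (xR T2.l2 (xR T2.l2 T2.l2)) = true := by decide +kernel
def rc1_4_4_l : Tr := (xk (xa (xb T2.l6 T2.l6) (xb (xk T2.l6 T2.l6) (xk T2.l6 T2.l6))) (xa (xb T2.l6 T2.l6) (xb (xk T2.l6 T2.l6) (xk T2.l6 T2.l6))))
theorem qc1_4_4_l : chkTr (tg false false false RT.r3) b1_4 t2 rc1_4_4_l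
  (upd lo Co.b (rc sI cl9 cl7 cl9 b1_4 (I.pos (nat_lit 0) (nat_lit 0)))) = true := by decide +kernel
def rc1_4_4_rl : Tr := (xa (xb T2.l6 (xb T2.l6 (xs T2.l6 (xk T2.l6 T2.l6)))) (xb (xb (xk T2.l6 T2.l6) (xk T2.l6 (xs T2.l6 T2.l6))) (xk (xs (xb T2.l6 (xa T2.l6 (xd T2.l6 T2.l6))) (xb (xa T2.l6 T2.l6) (xa (xd T2.l6 T2.l6) (xd (xe (xs T2.l6 T2.l6) T2.l6) (xe (xs T2.l6 T2.l6) T2.l6))))) (xa (xs T2.l6 (xb T2.l6 (xd T2.l6 T2.l6))) (xs (xb T2.l6 (xd T2.l6 T2.l6)) (xb (xd T2.l6 T2.l6) (xd (xe (xs T2.l6 (xb T2.l6 T2.l6)) (xs T2.l6 T2.l6)) (xe (xs T2.l6 (xb T2.l6 T2.l6)) (xs T2.l6 T2.l6)))))))))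
theorem qc1_4_4_rl : chkTr (tg false false false RT.r3) b1_4 t2 rc1_4_4_rl
  (upd lo Co.k (upd hi Co.b (rc sI cl9 cl7 cl9 b1_4 (I.pos (nat_lit 0) (nat_lit 0))))) = true := by decide +kernel
def rc1_4_4_rr : Tr := (xa (xb T2.l6 (xb (xs T2.l6 T2.l6) (xs (xa T2.l6 T2.l6) (xa T2.l6 (xk T2.l6 (xd T2.l6 T2.l6)))))) (xb (xb (xa T2.l6 T2.l6) (xs T2.l6 (xa T2.l6 (xk T2.l6 T2.l6)))) (xk (xa (xs (xb T2.l6 T2.l6) (xb T2.l6 (xd (xe T2.l6 T2.l6) (xe T2.l6 T2.l6)))) (xs (xb T2.l6 (xd (xs T2.l6 T2.l6) (xs T2.l6 T2.l6))) (xb (xd T2.l6 (xe T2.l6 T2.l6)) (xd (xe (xs T2.l6 (xb T2.l6 (xa T2.l6 T2.l6))) (xs T2.l6 (xb T2.l6 T2.l6))) (xe (xs T2.l6 (xb T2.l6 (xa T2.l6 T2.l6))) (xs T2.l6 (xb T2.l6 T2.l6))))))) (xa (xs (xb T2.l6 (xd T2.l6 T2.l6)) (xb T2.l6 (xd (xe (xs T2.l6 T2.l6) (xs T2.l6 T2.l6)) (xe (xs T2.l6 T2.l6) (xs T2.l6 T2.l6))))) (xb (xs T2.l6 (xd (xe T2.l6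 T2.l6) (xe T2.l6 T2.l6))) (xs (xd (xs T2.l6 (xe T2.l6 T2.l6)) (xs T2.l6 (xe T2.l6 T2.l6))) (xd (xe (xs (xb T2.l6 T2.l6) (xb T2.l6 (xa T2.l6 T2.l6))) (xs (xb T2.l6 T2.l6) (xb T2.l6 (xa T2.l6 T2.l6)))) (xe (xs (xb T2.l6 T2.l6) (xb T2.l6 (xa T2.l6 (xk T2.l6 T2.l6)))) (xs (xb T2.l6 T2.l6) (xb T2.l6 (xa T2.l6 T2.l6)))))))))))
theorem qc1_4_4_rr : chkTr (tg false false false RT.r3) b1_4 t2 rc1_4_4_rr
  (upd hi Co.k (upd hi Co.b (rc sI cl9 cl7 cl9 b1_4 (I.pos (nat_lit 0) (nat_lit 0))))) = true := by decide +kernel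
theorem qc1_4_4_r : chkTr (tg false false false RT.r3) b1_4 t2 (Tr.N Co.k rc1_4_4_rl rc1_4_4_rr)
  (upd hi Co.b (rc sI cl9 cl7 cl9 b1_4 (I.pos (nat_lit 0) (nat_lit 0)))) = true := tr_split qc1_4_4_rl qc1_4_4_rr
theorem qc1_4_4_ : chkTr (tg false false false RT.r3) b1_4 t2 (Tr.N Co.b rc1_4_4_l (Tr.N Co.k rc1_4_4_rl rc1_4_4_rr))
  (rc sI cl9 cl7 cl9 b1_4 (I.pos (nat_lit 0) (nat_lit 0))) = true := tr_split qc1_4_4_l qc1_4_4_r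
theorem c1_4_4 : chkTag sI cl9 cl7 cl9 t2 b1_4 (tg false false false RT.r3) (I.pos (nat_lit 0) (nat_lit 0))
  (Tr.N Co.b rc1_4_4_l (Tr.N Co.k rc1_4_4_rl rc1_4_4_rr)) = true := tag_mk (by decide +kernel) qc1_4_4_
theorem c1_4_5 : chkTag sI cl9 cl7 cl9 t0 b1_4 (tg false true false RT.r4) (I.pos (nat_lit 0) (nat_lit 0))
  (xk (xb T0.l2 T0.l2) (xb T0.l2 T0.l2)) = true := by decide +kernel
theorem c1_4_6 : chkTag sI cl9 cl7 cl9 t2 b1_4 (Tag.mk false false false RT.tl RT.r5) (I.mix (nat_lit 17240550) (nat_lit 96881482))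
  (xR T2.l4 (xR T2.l4 (xR T2.l4 T2.l4))) = true := by decide +kernel
theorem c1_4_7 : chkTag sI cl9 cl7 cl9 t0 b1_4 (Tag.mk false true false RT.tl RT.r6) (I.mix (nat_lit 17240550) (nat_lit 71940500))
  (xR T0.l3 (xR T0.l3 T0.l3)) = true := by decide +kernel
theorem bx1_4 : BoxOK sI cl9 cl7 cl9 t0 t2 b1_4 :=
  box_mk' [(tg true true false RT.r2), (tg true false false RT.r3), (Tag.mk true true false RT.tl RT.r4), (Tag.mk true false false RT.tl RT.r5), (tg false false false RT.r3), (tg false true false RT.r4), (Tag.mk false false false RT.tl RT.r5), (Tag.mk false true false RT.tl RT.r6)] rfl (allL_c (ex_mk c1_4_0) (allL_c (ex_mk c1_4_1) (allL_c (ex_mk c1_4_2) (allL_c (ex_mk c1_4_3) (allL_c (ex_mk c1_4_4) (allL_c (ex_mk c1_4_5) (allL_c (ex_mk c1_4_6) (allL_c (ex_mk c1_4_7) allL_n))))))))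
theorem bx1_5 : BoxOK sI cl9 cl7 cl9 t0 t2 b1_5 :=
  box_mk (TrL.c (I.pos (nat_lit 0) (nat_lit 0)) (xb (xa T0.l4 T0.l4) (xa T0.l4 T0.l4))
  (TrL.c (I.pos (nat_lit 0) (nat_lit 0)) T2.l1
  (TrL.c (I.pos (nat_lit 0) (nat_lit 124588530)) T0.l1
  (TrL.c (I.pos (nat_lit 0) (nat_lit 96881482)) T2.l2
  (TrL.c (I.pos (nat_lit 0) (nat_lit 0)) (xb (xk (xa T2.l5 T2.l5) (xa T2.l5 T2.l5)) (xk (xa T2.l5 T2.l5) (xa T2.l5 T2.l5)))
  (TrL.c (I.pos (nat_lit 0) (nat_lit 0)) T0.l2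
  (TrL.c (I.mix (nat_lit 17240550) (nat_lit 96881482)) T2.l4
  (TrL.c (I.mix (nat_lit 17240550) (nat_lit 71940500)) T0.l3
  TrL.n)))))))) (by decide +kernel)
theorem bx1_6 : BoxOK sI cl9 cl7 cl9 t0 t2 b1_6 :=
  box_mk (TrL.c (I.pos (nat_lit 0) (nat_lit 0)) (xa (xa (xb (xa (xb T0.l4 T0.l4) T0.l4) (xa (xb T0.l4 (xa T0.l4 T0.l4)) (xb T0.l4 T0.l4))) (xb T0.l4 (xa T0.l4 T0.l4))) (xa T0.l4 (xb T0.l4 (xa T0.l4 T0.l4))))
  (TrL.c (I.pos (nat_lit 0) (nat_lit 0)) (xa (xa T2.l1 T2.l1) T2.l1)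
  (TrL.c (I.pos (nat_lit 0) (nat_lit 124588530)) T0.l1
  (TrL.c (I.pos (nat_lit 0) (nat_lit 96881482)) T2.l2
  (TrL.c (I.pos (nat_lit 0) (nat_lit 0)) (xa T2.l1 (xa T2.l5 T2.l5))
  (TrL.c (I.pos (nat_lit 0) (nat_lit 0)) T0.l2
  (TrL.c (I.mix (nat_lit 17240550) (nat_lit 96881482)) T2.l4
  (TrL.c (I.mix (nat_lit 17240550) (nat_lit 71940500)) T0.l3
  TrL.n)))))))) (by decide +kernel)
theorem bx1_7 : BoxOK sI cl9 cl7 cl9 t0 t2 b1_7 :=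
  box_mk (TrL.c (I.pos (nat_lit 0) (nat_lit 0)) (xa (xa (xb T0.l4 T0.l4) T0.l4) T0.l4)
  (TrL.c (I.pos (nat_lit 0) (nat_lit 0)) (xa T2.l1 T2.l1)
  (TrL.c (I.pos (nat_lit 0) (nat_lit 124588530)) T0.l1
  (TrL.c (I.pos (nat_lit 0) (nat_lit 96881482)) T2.l2
  (TrL.c (I.pos (nat_lit 0) (nat_lit 0)) (xa T2.l5 T2.l5)
  (TrL.c (I.pos (nat_lit 0) (nat_lit 0)) T0.l2
  (TrL.c (I.mix (nat_lit 17240550) (nat_lit 96881482)) T2.l4
  (TrL.c (I.mix (nat_lit 17240550) (nat_lit 71940500)) T0.l3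
  TrL.n)))))))) (by decide +kernel)
theorem bx1_8 : BoxOK sI cl9 cl7 cl9 t0 t2 b1_8 :=
  box_mk (TrL.c (I.pos (nat_lit 0) (nat_lit 0)) (xa (xb (xa T0.l0 T0.l0) (xa (xb T0.l0 T0.l0) (xb T0.l0 T0.l0))) (xb (xa T0.l0 T0.l0) (xa (xb T0.l0 (xc T0.l0 T0.l0)) (xb T0.l0 (xa T0.l0 T0.l0)))))
  (TrL.c (I.pos (nat_lit 0) (nat_lit 0)) (xa (xb T2.l1 (xk T2.l1 T2.l1)) (xb T2.l8 (xk T2.l1 T2.l1)))
  (TrL.c (I.pos (nat_lit 0) (nat_lit 124588530)) (xR T0.l1 T0.l8)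
  (TrL.c (I.pos (nat_lit 0) (nat_lit 96881482)) (xR T2.l2 (xR T2.l2 T2.l2))
  (TrL.c (I.pos (nat_lit 0) (nat_lit 0)) (xa (xb (xk (xa T2.l3 T2.l3) (xa T2.l3 T2.l3)) (xk (xa T2.l3 T2.l3) T2.l3)) (xb (xk (xa (xb (xk T2.l3 T2.l3) T2.l3) (xb (xk T2.l3 T2.l3) (xk T2.l3 T2.l3))) (xa (xb (xk T2.l3 T2.l3) T2.l3) (xb (xk T2.l3 T2.l3) (xk T2.l3 T2.l3)))) (xk (xa (xb T2.l3 T2.l3) (xb (xk T2.l3 T2.l3) (xk T2.l3 T2.l3))) (xa T2.l3 (xb (xk T2.l3 T2.l3) (xk T2.l3 (xa T2.l3 T2.l3)))))))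
  (TrL.c (I.pos (nat_lit 0) (nat_lit 0)) (xa T0.l2 (xk (xb T0.l2 (xa T0.l2 T0.l2)) (xb T0.l2 (xa T0.l2 T0.l2))))
  (TrL.c (I.mix (nat_lit 17240550) (nat_lit 96881482)) (xR T2.l4 (xR T2.l4 (xR T2.l4 (xR T2.l4 (xa T2.l4 T2.l4)))))
  (TrL.c (I.mix (nat_lit 17240550) (nat_lit 71940500)) (xR T0.l3 (xR T0.l3 T0.l3))
  TrL.n)))))))) (by decide +kernel)
theorem bx1_9 : BoxOK sI cl9 cl7 cl9 t0 t2 b1_9 :=
  box_mk (TrL.c (I.pos (nat_lit 0) (nat_lit 0)) (xa T0.l0 T0.l0)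
  (TrL.c (I.pos (nat_lit 0) (nat_lit 0)) (xb T2.l1 T2.l1)
  (TrL.c (I.pos (nat_lit 0) (nat_lit 124588530)) T0.l8
  (TrL.c (I.pos (nat_lit 0) (nat_lit 96881482)) T2.l2
  (TrL.c (I.pos (nat_lit 0) (nat_lit 0)) (xb (xa (xk T2.l6 T2.l6) (xk (xa T2.l6 T2.l6) (xa T2.l6 T2.l6))) (xa T2.l6 T2.l3))
  (TrL.c (I.pos (nat_lit 0) (nat_lit 0)) T0.l2
  (TrL.c (I.mix (nat_lit 17240550) (nat_lit 96881482)) (xR T2.l4 T2.l7)
  (TrL.c (I.mix (nat_lit 17240550) (nat_lit 71940500)) T0.l3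
  TrL.n)))))))) (by decide +kernel)
theorem bx1_10 : BoxOK sI cl9 cl7 cl9 t0 t2 b1_10 :=
  box_mk (TrL.c (I.pos (nat_lit 0) (nat_lit 0)) (xa (xb (xa T0.l0 T0.l0) (xa (xb T0.l0 T0.l0) (xb T0.l0 T0.l0))) (xb (xa T0.l0 T0.l0) (xa (xb T0.l0 T0.l0) (xb T0.l0 (xs T0.l0 T0.l0)))))
  (TrL.c (I.pos (nat_lit 0) (nat_lit 0)) (xk (xa T2.l1 T2.l8) (xa T2.l1 T2.l1))
  (TrL.c (I.pos (nat_lit 0) (nat_lit 124588530)) (xR T0.l1 (xR T0.l1 T0.l1))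
  (TrL.c (I.pos (nat_lit 0) (nat_lit 96881482)) (xR T2.l2 (xR T2.l2 T2.l2))
  (TrL.c (I.pos (nat_lit 0) (nat_lit 0)) (xa (xk (xb T2.l6 T2.l6) (xb T2.l6 (xb T2.l6 T2.l6))) (xk (xb (xb T2.l3 T2.l3) (xb (xa T2.l6 (xs T2.l3 (xk T2.l6 T2.l6))) (xs (xa T2.l6 (xk T2.l3 T2.l6)) (xa T2.l6 (xk T2.l6 T2.l6))))) (xb (xb T2.l6 (xa T2.l6 T2.l6)) (xa (xb T2.l6 (xs T2.l6 T2.l6)) (xb (xs (xk T2.l6 T2.l6) T2.l6) (xs (xk T2.l6 T2.l6) (xk T2.l6 (xd T2.l6 T2.l6))))))))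
  (TrL.c (I.pos (nat_lit 0) (nat_lit 0)) (xk T0.l2 T0.l2)
  (TrL.c (I.mix (nat_lit 17240550) (nat_lit 96881482)) (xR T2.l4 (xR T2.l4 (xR T2.l4 T2.l4)))
  (TrL.c (I.mix (nat_lit 17240550) (nat_lit 71940500)) T0.l6
  TrL.n)))))))) (by decide +kernel)
theorem bx1_11 : BoxOK sI cl9 cl7 cl9 t0 t2 b1_11 :=
  box_mk (TrL.c (I.pos (nat_lit 0) (nat_lit 0)) (xa (xb T0.l11 T0.l11) (xb T0.l11 T0.l11))
  (TrL.c (I.pos (nat_lit 0) (nat_lit 0)) (xk T2.l1 T2.l1)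
  (TrL.c (I.pos (nat_lit 0) (nat_lit 124588530)) (xR T0.l1 T0.l1)
  (TrL.c (I.pos (nat_lit 0) (nat_lit 96881482)) T2.l2
  (TrL.c (I.pos (nat_lit 0) (nat_lit 0)) (xk (xb (xa T2.l6 T2.l6) T2.l6) (xb (xa T2.l6 T2.l6) T2.l6))
  (TrL.c (I.pos (nat_lit 0) (nat_lit 0)) T0.l2
  (TrL.c (I.mix (nat_lit 17240550) (nat_lit 96881482)) (xR T2.l4 T2.l4)
  (TrL.c (I.mix (nat_lit 17240550) (nat_lit 71940500)) T0.l6
  TrL.n)))))))) (by decide +kernel)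
theorem sv1 : StarV sI cl9 cl7 cl9 t0 t2 t1 :=
  (bt_n (bt_n (bt_n (bt_b bx1_0) (bt_n (bt_b bx1_1) (bt_b bx1_2))) (bt_n (bt_b bx1_3) (bt_n (bt_b bx1_4) (bt_b bx1_5)))) (bt_n (bt_n (bt_b bx1_6) (bt_n (bt_b bx1_7) (bt_b bx1_8))) (bt_n (bt_b bx1_9) (bt_n (bt_b bx1_10) (bt_b bx1_11)))))
def S1 : StarD := StarD.mk cl9 cl7 cl9 0 2 t1
theorem c2_0_0 : chkTag sI cl9 cl9 cl7 t2 b2_0 (tg true true false RT.r2) (I.pos (nat_lit 0) (nat_lit 0))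
  (xa (xb (xa (xb T2.l11 T2.l11) (xb T2.l0 T2.l0)) (xa (xb (xa T2.l11 T2.l0) (xa (xc T2.l0 T2.l0) (xc T2.l0 T2.l0))) (xb (xa T2.l0 T2.l0) (xa (xs T2.l0 T2.l0) T2.l0)))) (xb (xa (xb T2.l0 T2.l0) (xb T2.l0 T2.l0)) (xa (xb (xa T2.l0 T2.l0) (xa T2.l0 (xs T2.l0 T2.l0))) (xb (xa T2.l0 T2.l0) (xa (xs T2.l0 T2.l0) (xs T2.l0 T2.l0)))))) = true := by decide +kernel
theorem c2_0_1 : chkTag sI cl9 cl9 cl7 t0 b2_0 (tg true false false RT.r3) (I.pos (nat_lit 0) (nat_lit 0))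
  (xa (xk (xb T0.l5 (xa T0.l5 T0.l5)) (xb T0.l5 (xa T0.l5 T0.l5))) (xk (xb T0.l5 (xa T0.l5 T0.l5)) (xb T0.l5 (xa T0.l5 T0.l5)))) = true := by decide +kernel
theorem c2_0_2 : chkTag sI cl9 cl9 cl7 t2 b2_0 (Tag.mk true true false RT.tl RT.r4) (I.pos (nat_lit 0) (nat_lit 124588530))
  (xR T2.l7 (xR T2.l7 (xR T2.l7 T2.l7))) = true := by decide +kernel
theorem c2_0_3 : chkTag sI cl9 cl9 cl7 t0 b2_0 (Tag.mk true false false RT.tl RT.r5) (I.pos (nat_lit 0) (nat_lit 96881482))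
  (xR T0.l6 (xR T0.l6 (xR T0.l6 T0.l6))) = true := by decide +kernel
theorem c2_0_4 : chkTag sI cl9 cl9 cl7 t0 b2_0 (tg false false false RT.r3) (I.pos (nat_lit 0) (nat_lit 0))
  (xa (xb (xk T0.l7 T0.l7) (xk (xb T0.l10 (xa T0.l10 T0.l10)) (xb T0.l10 T0.l10))) (xb (xk (xa T0.l7 T0.l7) (xa T0.l7 (xb T0.l10 T0.l7))) (xk (xa (xb T0.l10 (xs T0.l10 T0.l10)) (xb (xk (xs T0.l7 (xb T0.l10 T0.l10)) (xs T0.l7 (xb T0.l10 T0.l10))) (xs (xk (xb T0.l7 (xa T0.l10 (xd T0.l7 T0.l7))) (xb T0.l7 (xa T0.l10 (xd T0.l10 T0.l10)))) (xk (xb (xa T0.l10 T0.l10) (xa T0.l10 (xd T0.l10 T0.l10))) (xb T0.l10 (xa T0.l10 (xd T0.l10 T0.l10))))))) (xa (xb T0.l10 (xs T0.l10 (xb T0.l10 (xk T0.l10 T0.l10)))) (xb (xk (xs T0.l7 T0.l10) (xs T0.l10 T0.l10)) (xk (xs (xb T0.l10 (xa T0.l10 (xd T0.l10 T0.l10))) (xb T0.l10 (xa T0.l10 (xd T0.l10 T0.l10)))) (xs (xb T0.l10 (xa T0.l10 T0.l10))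 (xb (xa T0.l10 T0.l10) (xa T0.l10 (xd (xe T0.l10 T0.l10) (xs T0.l10 T0.l10))))))))))) = true := by decide +kernel
theorem c2_0_5 : chkTag sI cl9 cl9 cl7 t2 b2_0 (tg false true false RT.r4) (I.pos (nat_lit 0) (nat_lit 0))
  (xk (xa T2.l8 T2.l8) T2.l8) = true := by decide +kernel
theorem c2_0_6 : chkTag sI cl9 cl9 cl7 t0 b2_0 (Tag.mk false false false RT.tl RT.r5) (I.mix (nat_lit 17240550) (nat_lit 96881482))
  (xR T0.l8 (xR T0.l8 (xR T0.l8 T0.l8))) = true := by decide +kernel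
theorem c2_0_7 : chkTag sI cl9 cl9 cl7 t2 b2_0 (Tag.mk false true false RT.tl RT.r6) (I.mix (nat_lit 17240550) (nat_lit 71940500))
  (xR T2.l10 T2.l10) = true := by decide +kernel
theorem bx2_0 : BoxOK sI cl9 cl9 cl7 t2 t0 b2_0 :=
  box_mk' [(tg true true false RT.r2), (tg true false false RT.r3), (Tag.mk true true false RT.tl RT.r4), (Tag.mk true false false RT.tl RT.r5), (tg false false false RT.r3), (tg false true false RT.r4), (Tag.mk false false false RT.tl RT.r5), (Tag.mk false true false RT.tl RT.r6)] rfl (allL_c (ex_mk c2_0_0) (allL_c (ex_mk c2_0_1) (allL_c (ex_mk c2_0_2) (allL_c (ex_mk c2_0_3) (allL_c (ex_mk c2_0_4) (allL_c (ex_mk c2_0_5) (allL_c (ex_mk c2_0_6) (allL_c (ex_mk c2_0_7) allL_n))))))))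
theorem bx2_1 : BoxOK sI cl9 cl9 cl7 t2 t0 b2_1 :=
  box_mk (TrL.c (I.pos (nat_lit 0) (nat_lit 0)) (xa (xb T2.l9 T2.l9) T2.l0)
  (TrL.c (I.pos (nat_lit 0) (nat_lit 0)) (xa T0.l5 T0.l5)
  (TrL.c (I.pos (nat_lit 0) (nat_lit 124588530)) T2.l4
  (TrL.c (I.pos (nat_lit 0) (nat_lit 96881482)) T0.l6
  (TrL.c (I.pos (nat_lit 0) (nat_lit 0)) (xa (xk T0.l9 T0.l9) (xb (xk (xa T0.l9 T0.l10) (xa T0.l9 T0.l10)) T0.l10))
  (TrL.c (I.pos (nat_lit 0) (nat_lit 0)) T2.l8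
  (TrL.c (I.mix (nat_lit 17240550) (nat_lit 96881482)) (xR T0.l8 T0.l8)
  (TrL.c (I.mix (nat_lit 17240550) (nat_lit 71940500)) T2.l10
  TrL.n)))))))) (by decide +kernel)
theorem bx2_2 : BoxOK sI cl9 cl9 cl7 t2 t0 b2_2 :=
  box_mk (TrL.c (I.pos (nat_lit 0) (nat_lit 0)) (xa (xa (xb (xa (xb T2.l9 T2.l9) T2.l9) T2.l9) T2.l9) T2.l9)
  (TrL.c (I.pos (nat_lit 0) (nat_lit 0)) (xa T0.l5 T0.l5)
  (TrL.c (I.pos (nat_lit 0) (nat_lit 124588530)) T2.l7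
  (TrL.c (I.pos (nat_lit 0) (nat_lit 96881482)) T0.l6
  (TrL.c (I.pos (nat_lit 0) (nat_lit 0)) (xa T0.l9 T0.l9)
  (TrL.c (I.pos (nat_lit 0) (nat_lit 0)) T2.l8
  (TrL.c (I.mix (nat_lit 17240550) (nat_lit 96881482)) T0.l8
  (TrL.c (I.mix (nat_lit 17240550) (nat_lit 71940500)) T2.l2
  TrL.n)))))))) (by decide +kernel)
theorem bx2_3 : BoxOK sI cl9 cl9 cl7 t2 t0 b2_3 :=
  box_mk (TrL.c (I.pos (nat_lit 0) (nat_lit 0)) (xb (xa (xb (xa (xb T2.l11 T2.l11) T2.l11) (xa (xb T2.l11 T2.l11) T2.l11)) (xb (xa T2.l11 T2.l11) (xa T2.l11 T2.l11))) (xa (xb (xa (xb T2.l11 (xs T2.l11 T2.l11)) (xs T2.l11 T2.l11)) (xa (xs (xb T2.l11 T2.l11) (xb T2.l11 T2.l11)) (xs T2.l11 (xb T2.l11 T2.l11)))) (xb (xa T2.l11 T2.l11) (xa (xs T2.l11 (xb T2.l11 T2.l11)) (xs T2.l11 (xb T2.l11 T2.l11))))))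
  (TrL.c (I.pos (nat_lit 0) (nat_lit 0)) (xb (xk (xa T0.l2 T0.l5) (xa T0.l5 T0.l5)) (xk (xa (xb T0.l5 (xk T0.l5 T0.l5)) (xb T0.l5 T0.l5)) (xa (xb T0.l5 (xk T0.l5 T0.l5)) (xb T0.l5 T0.l5))))
  (TrL.c (I.pos (nat_lit 0) (nat_lit 124588530)) (xR T2.l7 (xR T2.l7 T2.l7))
  (TrL.c (I.pos (nat_lit 0) (nat_lit 96881482)) (xR T0.l6 (xR T0.l6 T0.l6))
  (TrL.c (I.pos (nat_lit 0) (nat_lit 0)) (xb (xk (xa T0.l10 (xb (xk T0.l10 T0.l10) T0.l7)) (xa T0.l10 (xb (xk T0.l10 T0.l10) T0.l7))) (xk (xa (xb T0.l10 T0.l10) (xb (xb T0.l10 T0.l7) (xb (xk T0.l10 T0.l10) (xs (xk T0.l10 T0.l10) (xk T0.l10 T0.l10))))) (xa (xb T0.l10 (xb T0.l10 T0.l10)) (xb (xb T0.l10 T0.l10) (xb (xs T0.l10 T0.l10) (xs (xa T0.l10 T0.l10) (xa T0.l10 (xk T0.l10 T0.l10))))))))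
  (TrL.c (I.pos (nat_lit 0) (nat_lit 0)) (xk (xb T2.l8 T2.l8) T2.l8)
  (TrL.c (I.mix (nat_lit 17240550) (nat_lit 96881482)) (xR T0.l8 (xR T0.l8 (xR T0.l8 T0.l8)))
  (TrL.c (I.mix (nat_lit 17240550) (nat_lit 71940500)) (xR T2.l10 (xR T2.l10 T2.l10))
  TrL.n)))))))) (by decide +kernel)
theorem bx2_4 : BoxOK sI cl9 cl9 cl7 t2 t0 b2_4 :=
  box_mk (TrL.c (I.pos (nat_lit 0) (nat_lit 0)) (xa (xa (xb (xa T2.l9 T2.l9) (xa (xb T2.l9 (xa T2.l9 T2.l9)) (xb T2.l9 T2.l9))) (xb T2.l9 (xa T2.l9 T2.l9))) (xa (xb T2.l9 T2.l9) (xb T2.l9 (xa T2.l9 T2.l9))))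
  (TrL.c (I.pos (nat_lit 0) (nat_lit 0)) (xa T0.l5 (xa T0.l5 T0.l5))
  (TrL.c (I.pos (nat_lit 0) (nat_lit 124588530)) T2.l7
  (TrL.c (I.pos (nat_lit 0) (nat_lit 96881482)) T0.l6
  (TrL.c (I.pos (nat_lit 0) (nat_lit 0)) (xa (xa T0.l9 T0.l9) (xa T0.l9 T0.l9))
  (TrL.c (I.pos (nat_lit 0) (nat_lit 0)) T2.l8
  (TrL.c (I.mix (nat_lit 17240550) (nat_lit 96881482)) T0.l8
  (TrL.c (I.mix (nat_lit 17240550) (nat_lit 71940500)) T2.l2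
  TrL.n)))))))) (by decide +kernel)
theorem bx2_5 : BoxOK sI cl9 cl9 cl7 t2 t0 b2_5 :=
  box_mk (TrL.c (I.pos (nat_lit 0) (nat_lit 0)) (xa (xb T2.l11 T2.l11) (xb T2.l0 T2.l0))
  (TrL.c (I.pos (nat_lit 0) (nat_lit 0)) (xa T0.l5 T0.l5)
  (TrL.c (I.pos (nat_lit 0) (nat_lit 124588530)) (xR T2.l7 T2.l7)
  (TrL.c (I.pos (nat_lit 0) (nat_lit 96881482)) T0.l6
  (TrL.c (I.pos (nat_lit 0) (nat_lit 0)) (xa (xb (xk T0.l10 T0.l10) T0.l10) (xb (xk (xa T0.l10 T0.l10) (xa T0.l10 T0.l10)) T0.l7))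
  (TrL.c (I.pos (nat_lit 0) (nat_lit 0)) T2.l8
  (TrL.c (I.mix (nat_lit 17240550) (nat_lit 96881482)) (xR T0.l8 T0.l1)
  (TrL.c (I.mix (nat_lit 17240550) (nat_lit 71940500)) T2.l2
  TrL.n)))))))) (by decide +kernel)
theorem bx2_6 : BoxOK sI cl9 cl9 cl7 t2 t0 b2_6 :=
  box_mk (TrL.c (I.pos (nat_lit 0) (nat_lit 0)) (xa (xb T2.l11 (xa T2.l11 T2.l11)) (xb (xb T2.l11 T2.l11) (xa T2.l11 T2.l11)))
  (TrL.c (I.pos (nat_lit 0) (nat_lit 0)) (xk (xb T0.l5 T0.l5) (xb T0.l5 T0.l5))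
  (TrL.c (I.pos (nat_lit 0) (nat_lit 124588530)) (xR T2.l7 T2.l7)
  (TrL.c (I.pos (nat_lit 0) (nat_lit 96881482)) (xR T0.l6 T0.l6)
  (TrL.c (I.pos (nat_lit 0) (nat_lit 0)) (xb (xk (xa T0.l10 (xk T0.l10 T0.l10)) (xa T0.l10 T0.l10)) (xk T0.l10 T0.l10))
  (TrL.c (I.pos (nat_lit 0) (nat_lit 0)) T2.l8
  (TrL.c (I.mix (nat_lit 17240550) (nat_lit 96881482)) (xR T0.l8 (xR T0.l8 T0.l8))
  (TrL.c (I.mix (nat_lit 17240550) (nat_lit 71940500)) T2.l2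
  TrL.n)))))))) (by decide +kernel)
theorem bx2_7 : BoxOK sI cl9 cl9 cl7 t2 t0 b2_7 :=
  box_mk (TrL.c (I.pos (nat_lit 0) (nat_lit 0)) (xa (xa (xb T2.l9 (xa (xa (xb T2.l9 T2.l9) T2.l9) T2.l9)) (xb T2.l9 (xa T2.l9 T2.l9))) (xa T2.l9 (xa T2.l9 T2.l9)))
  (TrL.c (I.pos (nat_lit 0) (nat_lit 0)) (xa T0.l5 T0.l5)
  (TrL.c (I.pos (nat_lit 0) (nat_lit 124588530)) T2.l7
  (TrL.c (I.pos (nat_lit 0) (nat_lit 96881482)) T0.l6
  (TrL.c (I.pos (nat_lit 0) (nat_lit 0)) (xa T0.l9 T0.l9)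
  (TrL.c (I.pos (nat_lit 0) (nat_lit 0)) T2.l8
  (TrL.c (I.mix (nat_lit 17240550) (nat_lit 96881482)) T0.l8
  (TrL.c (I.mix (nat_lit 17240550) (nat_lit 71940500)) T2.l2
  TrL.n)))))))) (by decide +kernel)
theorem bx2_8 : BoxOK sI cl9 cl9 cl7 t2 t0 b2_8 :=
  box_mk (TrL.c (I.pos (nat_lit 0) (nat_lit 0)) (xb (xa T2.l9 T2.l9) (xa (xb T2.l9 (xa (xb T2.l9 T2.l9) T2.l9)) (xb T2.l9 T2.l9)))
  (TrL.c (I.pos (nat_lit 0) (nat_lit 0)) T0.l5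
  (TrL.c (I.pos (nat_lit 0) (nat_lit 124588530)) T2.l7
  (TrL.c (I.pos (nat_lit 0) (nat_lit 96881482)) T0.l6
  (TrL.c (I.pos (nat_lit 0) (nat_lit 0)) (xb (xk (xa T0.l9 T0.l9) (xa T0.l9 T0.l9)) (xk (xa T0.l9 T0.l9) (xa T0.l9 T0.l9)))
  (TrL.c (I.pos (nat_lit 0) (nat_lit 0)) T2.l8
  (TrL.c (I.mix (nat_lit 17240550) (nat_lit 96881482)) T0.l8
  (TrL.c (I.mix (nat_lit 17240550) (nat_lit 71940500)) T2.l10
  TrL.n)))))))) (by decide +kernel)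
theorem bx2_9 : BoxOK sI cl9 cl9 cl7 t2 t0 b2_9 :=
  box_mk (TrL.c (I.pos (nat_lit 0) (nat_lit 0)) (xa (xb (xa T2.l0 T2.l0) (xa (xb T2.l0 (xa T2.l0 T2.l0)) (xb T2.l0 (xa T2.l0 T2.l0)))) (xa (xb T2.l0 (xa T2.l0 T2.l0)) (xb T2.l0 (xa T2.l0 (xb T2.l0 T2.l0)))))
  (TrL.c (I.pos (nat_lit 0) (nat_lit 0)) (xa (xb (xk T0.l5 T0.l5) (xk T0.l5 T0.l5)) (xk (xb T0.l5 (xa T0.l5 T0.l5)) (xb T0.l5 T0.l2)))
  (TrL.c (I.pos (nat_lit 0) (nat_lit 124588530)) (xR T2.l7 (xR T2.l7 T2.l4))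
  (TrL.c (I.pos (nat_lit 0) (nat_lit 96881482)) (xR T0.l6 (xR T0.l6 (xR T0.l6 T0.l6)))
  (TrL.c (I.pos (nat_lit 0) (nat_lit 0)) (xa (xb (xk (xa T0.l7 T0.l7) (xa T0.l7 T0.l7)) (xk T0.l7 T0.l7)) (xb (xk (xa (xb (xk T0.l7 T0.l7) T0.l7) (xb (xk T0.l7 T0.l7) (xk T0.l7 T0.l7))) (xa (xb T0.l7 T0.l7) (xb (xk T0.l7 T0.l7) (xa T0.l7 T0.l7)))) (xa (xk T0.l7 T0.l7) (xk (xb (xk T0.l7 T0.l7) (xk T0.l7 T0.l7)) (xb (xa T0.l7 T0.l7) (xk T0.l7 T0.l7))))))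
  (TrL.c (I.pos (nat_lit 0) (nat_lit 0)) (xa T2.l8 (xk (xb T2.l8 (xa T2.l8 T2.l8)) (xb T2.l8 (xa T2.l8 T2.l8))))
  (TrL.c (I.mix (nat_lit 17240550) (nat_lit 96881482)) (xR T0.l8 (xR T0.l8 (xR T0.l8 (xa T0.l8 (xR T0.l8 T0.l8)))))
  (TrL.c (I.mix (nat_lit 17240550) (nat_lit 71940500)) (xR T2.l10 (xR T2.l10 T2.l10))
  TrL.n)))))))) (by decide +kernel)
theorem bx2_10 : BoxOK sI cl9 cl9 cl7 t2 t0 b2_10 :=
  box_mk (TrL.c (I.pos (nat_lit 0) (nat_lit 0)) (xa (xa (xb T2.l9 T2.l9) T2.l9) T2.l9)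
  (TrL.c (I.pos (nat_lit 0) (nat_lit 0)) (xa T0.l5 T0.l5)
  (TrL.c (I.pos (nat_lit 0) (nat_lit 124588530)) T2.l7
  (TrL.c (I.pos (nat_lit 0) (nat_lit 96881482)) T0.l6
  (TrL.c (I.pos (nat_lit 0) (nat_lit 0)) (xa T0.l9 T0.l9)
  (TrL.c (I.pos (nat_lit 0) (nat_lit 0)) T2.l8
  (TrL.c (I.mix (nat_lit 17240550) (nat_lit 96881482)) T0.l8
  (TrL.c (I.mix (nat_lit 17240550) (nat_lit 71940500)) T2.l2
  TrL.n)))))))) (by decide +kernel)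
theorem bx2_11 : BoxOK sI cl9 cl9 cl7 t2 t0 b2_11 :=
  box_mk (TrL.c (I.pos (nat_lit 0) (nat_lit 0)) (xa (xb (xa (xb T2.l0 T2.l0) T2.l0) (xa (xb T2.l0 (xs T2.l0 T2.l0)) (xb T2.l0 (xs T2.l0 T2.l0)))) (xb (xa T2.l0 T2.l0) (xa (xb T2.l0 (xs T2.l0 T2.l0)) (xb T2.l0 (xs T2.l0 T2.l0)))))
  (TrL.c (I.pos (nat_lit 0) (nat_lit 0)) (xa (xk (xb T0.l5 T0.l5) T0.l5) (xk T0.l2 T0.l2))
  (TrL.c (I.pos (nat_lit 0) (nat_lit 124588530)) (xR T2.l7 (xR T2.l7 T2.l7))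
  (TrL.c (I.pos (nat_lit 0) (nat_lit 96881482)) (xR T0.l6 (xR T0.l6 T0.l6))
  (TrL.c (I.pos (nat_lit 0) (nat_lit 0)) (xk (xa (xb T0.l10 T0.l10) (xb (xb T0.l7 T0.l7) (xb (xa T0.l10 (xk T0.l10 T0.l10)) (xa T0.l10 (xs (xk T0.l7 (xd T0.l10 T0.l10)) (xk T0.l10 T0.l10)))))) (xa (xb T0.l10 (xb T0.l10 T0.l10)) (xb (xb T0.l10 (xa T0.l10 T0.l10)) (xb (xa T0.l10 (xk T0.l10 T0.l10)) (xa (xs T0.l10 (xk T0.l10 T0.l10)) (xs (xk T0.l10 T0.l10) (xk (xd T0.l10 T0.l10) (xd (xb T0.l10 T0.l10) (xb T0.l10 T0.l10)))))))))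
  (TrL.c (I.pos (nat_lit 0) (nat_lit 0)) (xk T2.l8 T2.l8)
  (TrL.c (I.mix (nat_lit 17240550) (nat_lit 96881482)) (xR T0.l8 (xR T0.l8 (xR T0.l8 T0.l8)))
  (TrL.c (I.mix (nat_lit 17240550) (nat_lit 71940500)) (xR T2.l10 T2.l10)
  TrL.n)))))))) (by decide +kernel)
theorem sv2 : StarV sI cl9 cl9 cl7 t2 t0 t2 :=
  (bt_n (bt_n (bt_n (bt_b bx2_0) (bt_n (bt_b bx2_1) (bt_b bx2_2))) (bt_n (bt_b bx2_3) (bt_n (bt_b bx2_4) (bt_b bx2_5)))) (bt_n (bt_n (bt_b bx2_6) (bt_n (bt_b bx2_7) (bt_b bx2_8))) (bt_n (bt_b bx2_9) (bt_n (bt_b bx2_10) (bt_b bx2_11)))))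
def S2 : StarD := StarD.mk cl9 cl9 cl7 2 0 t2
def G : List StarD := [S0, S1, S2]
theorem so0 : StarOK sI G S0 :=
  star_mk (by decide) (by decide) rfl rfl rfl rfl rfl rfl (rfl : _ = t1) (rfl : _ = t1)
  (st_mk (Pth.l (Pth.l (Pth.l Pth.z))) (nat_lit 115984145) (nat_lit 134772301) (by decide +kernel))
  (st_mk (Pth.l (Pth.l (Pth.l Pth.z))) (nat_lit 151507514) (nat_lit 170729426) (by decide +kernel))
  (st_mk (Pth.l (Pth.l (Pth.l Pth.z))) (nat_lit 190827937) (nat_lit 214422670) (by decide +kernel)) sv0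
theorem so1 : StarOK sI G S1 :=
  star_mk (by decide) (by decide) rfl rfl rfl rfl rfl rfl (rfl : _ = t0) (rfl : _ = t2)
  (st_mk (Pth.l (Pth.l (Pth.l Pth.z))) (nat_lit 140557414) (nat_lit 163014846) (by decide +kernel))
  (st_mk (Pth.l (Pth.l (Pth.l Pth.z))) (nat_lit 175764624) (nat_lit 198614978) (by decide +kernel))
  (st_mk (Pth.l (Pth.l (Pth.l Pth.z))) (nat_lit 216473837) (nat_lit 239871487) (by decide +kernel)) sv1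
theorem so2 : StarOK sI G S2 :=
  star_mk (by decide) (by decide) rfl rfl rfl rfl rfl rfl (rfl : _ = t2) (rfl : _ = t0)
  (st_mk (Pth.l (Pth.l (Pth.l Pth.z))) (nat_lit 115495955) (nat_lit 134105402) (by decide +kernel))
  (st_mk (Pth.l (Pth.l (Pth.l Pth.z))) (nat_lit 150675399) (nat_lit 169651750) (by decide +kernel))
  (st_mk (Pth.l (Pth.l (Pth.l Pth.z))) (nat_lit 191360485) (nat_lit 210861685) (by decide +kernel)) sv2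
theorem ok : GroupOK (nat_lit 209321984) (nat_lit 268435456) G := grp_mk (allS_c so0 (allS_c so1 (allS_c so2 allS_n)))
theorem cov : GCov G cl7 cl9 cl9 := cov_mk
  ⟨0, by decide, rfl, rfl, rfl⟩ ⟨0, by decide, rfl, rfl, rfl⟩ ⟨1, by decide, rfl, rfl, rfl⟩ ⟨2, by decide, rfl, rfl, rfl⟩ ⟨1, by decide, rfl, rfl, rfl⟩ ⟨2, by decide, rfl, rfl, rfl⟩
end Q455_3

namespace Q456_0
def sI : I := I.pos (nat_lit 0) (nat_lit 91291648)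
def b0_0 : Bx := Bx.mk (St.mk (I.pos (nat_lit 153534464) (nat_lit 284393472)) (I.mix (nat_lit 23937024) (nat_lit 53067776)) (I.mix (nat_lit 73777152) (nat_lit 86081536)) (I.pos (nat_lit 102957056) (nat_lit 338804736)) (I.mix (nat_lit 69615616) (nat_lit 46759936)) (I.mix (nat_lit 68321280) (nat_lit 43548672)) (I.mix (nat_lit 108658688) (nat_lit 62291968)))
  false (nat_lit 0)
def b0_1 : Bx := Bx.mk (St.mk (I.mix (nat_lit 19431424) (nat_lit 137199616)) (I.mix (nat_lit 8060928) (nat_lit 29540352)) (I.mix (nat_lit 15482880) (nat_lit 20922368)) (I.pos (nat_lit 12779520) (nat_lit 102481920)) (I.mix (nat_lit 24264704) (nat_lit 22429696)) (I.mix (nat_lit 27017216) (nat_lit 15761408)) (I.mix (nat_lit 21184512) (nat_lit 11714560)))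
  false (nat_lit 0)
def b0_2 : Bx := Bx.mk (St.mk (I.pos (nat_lit 107495424) (nat_lit 155533312)) (I.mix (nat_lit 54411264) (nat_lit 9633792)) (I.mix (nat_lit 59916288) (nat_lit 4227072)) (I.pos (nat_lit 62652416) (nat_lit 123846656)) (I.mix (nat_lit 71467008) (nat_lit 20873216)) (I.mix (nat_lit 30720000) (nat_lit 71106560)) (I.mix (nat_lit 23314432) (nat_lit 61472768)))
  false (nat_lit 0)
def b0_3 : Bx := Bx.mk (St.mk (I.mix (nat_lit 25575424) (nat_lit 94584832)) (I.mix (nat_lit 25837568) (nat_lit 4603904)) (I.mix (nat_lit 19644416) (nat_lit 1458176)) (I.pos (nat_lit 15138816) (nat_lit 67796992)) (I.mix (nat_lit 24936448) (nat_lit 10108928)) (I.mix (nat_lit 11632640) (nat_lit 24772608)) (I.mix (nat_lit 6373376) (nat_lit 13336576)))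
  false (nat_lit 0)
def b0_4 : Bx := Bx.mk (St.mk (I.pos (nat_lit 112197632) (nat_lit 179208192)) (I.mix (nat_lit 62210048) (nat_lit 2293760)) (I.neg (nat_lit 3817472) (nat_lit 65929216)) (I.pos (nat_lit 82984960) (nat_lit 154501120)) (I.mix (nat_lit 70483968) (nat_lit 31997952)) (I.mix (nat_lit 32571392) (nat_lit 57966592)) (I.mix (nat_lit 25624576) (nat_lit 59260928)))
  false (nat_lit 0)
def b0_5 : Bx := Bx.mk (St.mk (I.mix (nat_lit 25362432) (nat_lit 105447424)) (I.mix (nat_lit 28950528) (nat_lit 3768320)) (I.mix (nat_lit 22331392) (nat_lit 1736704)) (I.pos (nat_lit 12861440) (nat_lit 76038144)) (I.mix (nat_lit 24363008) (nat_lit 17170432)) (I.mix (nat_lit 13090816) (nat_lit 24330240)) (I.mix (nat_lit 7766016) (nat_lit 15482880)))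
  false (nat_lit 0)
def b0_6 : Bx := Bx.mk (St.mk (I.mix (nat_lit 26705920) (nat_lit 129859584)) (I.mix (nat_lit 13893632) (nat_lit 35061760)) (I.mix (nat_lit 13123584) (nat_lit 25313280)) (I.pos (nat_lit 13582336) (nat_lit 94601216)) (I.mix (nat_lit 37388288) (nat_lit 19726336)) (I.mix (nat_lit 38338560) (nat_lit 21397504)) (I.mix (nat_lit 25018368) (nat_lit 13484032)))
  false (nat_lit 0)
def b0_7 : Bx := Bx.mk (St.mk (I.pos (nat_lit 157990912) (nat_lit 221446144)) (I.mix (nat_lit 39256064) (nat_lit 60096512)) (I.mix (nat_lit 46039040) (nat_lit 92356608)) (I.pos (nat_lit 112377856) (nat_lit 215564288)) (I.mix (nat_lit 103432192) (nat_lit 44023808)) (I.mix (nat_lit 115605504) (nat_lit 52461568)) (I.mix (nat_lit 139673600) (nat_lit 57704448)))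
  false (nat_lit 0)
def t0 : BTr := (BTr.n (BTr.n (BTr.n (BTr.b b0_0) (BTr.b b0_1)) (BTr.n (BTr.b b0_2) (BTr.b b0_3))) (BTr.n (BTr.n (BTr.b b0_4) (BTr.b b0_5)) (BTr.n (BTr.b b0_6) (BTr.b b0_7))))
namespace T0
def l0 : Tr := Tr.L (Pth.l (Pth.l (Pth.l Pth.z)))
def l1 : Tr := Tr.L (Pth.l (Pth.l (Pth.r Pth.z)))
def l2 : Tr := Tr.L (Pth.l (Pth.r (Pth.l Pth.z)))
def l3 : Tr := Tr.L (Pth.l (Pth.r (Pth.r Pth.z)))
def l4 : Tr := Tr.L (Pth.r (Pth.l (Pth.l Pth.z)))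
def l5 : Tr := Tr.L (Pth.r (Pth.l (Pth.r Pth.z)))
def l6 : Tr := Tr.L (Pth.r (Pth.r (Pth.l Pth.z)))
def l7 : Tr := Tr.L (Pth.r (Pth.r (Pth.r Pth.z)))
end T0
def b1_0 : Bx := Bx.mk (St.mk (I.pos (nat_lit 153550848) (nat_lit 284065792)) (I.mix (nat_lit 22822912) (nat_lit 50479104)) (I.mix (nat_lit 59523072) (nat_lit 89948160)) (I.pos (nat_lit 83607552) (nat_lit 318701568)) (I.mix (nat_lit 70696960) (nat_lit 47022080)) (I.mix (nat_lit 68993024) (nat_lit 47153152)) (I.mix (nat_lit 111132672) (nat_lit 61636608)))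
  false (nat_lit 0)
def b1_1 : Bx := Bx.mk (St.mk (I.mix (nat_lit 13959168) (nat_lit 146571264)) (I.mix (nat_lit 7290880) (nat_lit 25673728)) (I.mix (nat_lit 11550720) (nat_lit 23166976)) (I.mix (nat_lit 5799936) (nat_lit 92717056)) (I.mix (nat_lit 23199744) (nat_lit 20332544)) (I.mix (nat_lit 26296320) (nat_lit 15941632)) (I.mix (nat_lit 22855680) (nat_lit 12009472)))
  false (nat_lit 0)
def b1_2 : Bx := Bx.mk (St.mk (I.pos (nat_lit 117506048) (nat_lit 163086336)) (I.mix (nat_lit 51265536) (nat_lit 8847360)) (I.mix (nat_lit 56426496) (nat_lit 7847936)) (I.pos (nat_lit 52658176) (nat_lit 114049024)) (I.mix (nat_lit 69550080) (nat_lit 21430272)) (I.mix (nat_lit 28262400) (nat_lit 72040448)) (I.mix (nat_lit 23871488) (nat_lit 66846720)))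
  false (nat_lit 0)
def b1_3 : Bx := Bx.mk (St.mk (I.mix (nat_lit 15974400) (nat_lit 110542848)) (I.mix (nat_lit 23216128) (nat_lit 3604480)) (I.mix (nat_lit 18399232) (nat_lit 2113536)) (I.mix (nat_lit 3948544) (nat_lit 59834368)) (I.mix (nat_lit 24182784) (nat_lit 9879552)) (I.mix (nat_lit 10731520) (nat_lit 24297472)) (I.mix (nat_lit 6586368) (nat_lit 15515648)))
  false (nat_lit 0)
def b1_4 : Bx := Bx.mk (St.mk (I.pos (nat_lit 121864192) (nat_lit 185581568)) (I.mix (nat_lit 58589184) (nat_lit 2064384)) (I.neg (nat_lit 2048000) (nat_lit 60964864)) (I.pos (nat_lit 73285632) (nat_lit 143572992)) (I.mix (nat_lit 65781760) (nat_lit 31424512)) (I.mix (nat_lit 31326208) (nat_lit 56360960)) (I.mix (nat_lit 27262976) (nat_lit 59457536)))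
  false (nat_lit 0)
def b1_5 : Bx := Bx.mk (St.mk (I.pos (nat_lit 32358400) (nat_lit 116867072)) (I.mix (nat_lit 26116096) (nat_lit 5357568)) (I.mix (nat_lit 20676608) (nat_lit 2621440)) (I.pos (nat_lit 5144576) (nat_lit 67387392)) (I.mix (nat_lit 22609920) (nat_lit 16957440)) (I.mix (nat_lit 13434880) (nat_lit 22691840)) (I.mix (nat_lit 7716864) (nat_lit 16384000)))
  false (nat_lit 0)
def b1_6 : Bx := Bx.mk (St.mk (I.pos (nat_lit 162512896) (nat_lit 221937664)) (I.mix (nat_lit 40615936) (nat_lit 54525952)) (I.mix (nat_lit 43417600) (nat_lit 90832896)) (I.pos (nat_lit 100827136) (nat_lit 197181440)) (I.mix (nat_lit 100728832) (nat_lit 42795008)) (I.mix (nat_lit 115376128) (nat_lit 49184768)) (I.mix (nat_lit 146325504) (nat_lit 54198272)))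
  false (nat_lit 0)
def b1_7 : Bx := Bx.mk (St.mk (I.mix (nat_lit 17809408) (nat_lit 146882560)) (I.mix (nat_lit 13549568) (nat_lit 33193984)) (I.mix (nat_lit 11796480) (nat_lit 27639808)) (I.mix (nat_lit 5505024) (nat_lit 87523328)) (I.mix (nat_lit 39010304) (nat_lit 18989056)) (I.mix (nat_lit 39976960) (nat_lit 20627456)) (I.mix (nat_lit 29671424) (nat_lit 13975552)))
  false (nat_lit 0)
def t1 : BTr := (BTr.n (BTr.n (BTr.n (BTr.b b1_0) (BTr.b b1_1)) (BTr.n (BTr.b b1_2) (BTr.b b1_3))) (BTr.n (BTr.n (BTr.b b1_4) (BTr.b b1_5)) (BTr.n (BTr.b b1_6) (BTr.b b1_7))))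
namespace T1
def l0 : Tr := Tr.L (Pth.l (Pth.l (Pth.l Pth.z)))
def l1 : Tr := Tr.L (Pth.l (Pth.l (Pth.r Pth.z)))
def l2 : Tr := Tr.L (Pth.l (Pth.r (Pth.l Pth.z)))
def l3 : Tr := Tr.L (Pth.l (Pth.r (Pth.r Pth.z)))
def l4 : Tr := Tr.L (Pth.r (Pth.l (Pth.l Pth.z)))
def l5 : Tr := Tr.L (Pth.r (Pth.l (Pth.r Pth.z)))
def l6 : Tr := Tr.L (Pth.r (Pth.r (Pth.l Pth.z)))
def l7 : Tr := Tr.L (Pth.r (Pth.r (Pth.r Pth.z)))
end T1
def b2_0 : Bx := Bx.mk (St.mk (I.pos (nat_lit 153616384) (nat_lit 282886144)) (I.mix (nat_lit 20561920) (nat_lit 56344576)) (I.mix (nat_lit 67387392) (nat_lit 93290496)) (I.pos (nat_lit 129859584) (nat_lit 360218624)) (I.mix (nat_lit 74612736) (nat_lit 48316416)) (I.mix (nat_lit 72515584) (nat_lit 43630592)) (I.mix (nat_lit 112197632) (nat_lit 59834368)))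
  false (nat_lit 13474053)
def b2_1 : Bx := Bx.mk (St.mk (I.mix (nat_lit 26263552) (nat_lit 122716160)) (I.mix (nat_lit 7536640) (nat_lit 34914304)) (I.mix (nat_lit 15384576) (nat_lit 21872640)) (I.pos (nat_lit 38813696) (nat_lit 116244480)) (I.mix (nat_lit 28131328) (nat_lit 24477696)) (I.mix (nat_lit 30015488) (nat_lit 17743872)) (I.mix (nat_lit 21217280) (nat_lit 12304384)))
  false (nat_lit 0)
def b2_2 : Bx := Bx.mk (St.mk (I.pos (nat_lit 94617600) (nat_lit 147062784)) (I.mix (nat_lit 60424192) (nat_lit 9404416)) (I.mix (nat_lit 60850176) (nat_lit 2768896)) (I.pos (nat_lit 78594048) (nat_lit 141213696)) (I.mix (nat_lit 72040448) (nat_lit 23019520)) (I.mix (nat_lit 32915456) (nat_lit 67764224)) (I.mix (nat_lit 23855104) (nat_lit 51707904)))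
  false (nat_lit 0)
def b2_3 : Bx := Bx.mk (St.mk (I.mix (nat_lit 37650432) (nat_lit 72220672)) (I.mix (nat_lit 30031872) (nat_lit 5472256)) (I.mix (nat_lit 18186240) (nat_lit 3178496)) (I.pos (nat_lit 40927232) (nat_lit 82067456)) (I.mix (nat_lit 24330240) (nat_lit 13959168)) (I.mix (nat_lit 12566528) (nat_lit 25477120)) (I.mix (nat_lit 6864896) (nat_lit 10108928)))
  false (nat_lit 0)
def b2_4 : Bx := Bx.mk (St.mk (I.pos (nat_lit 101941248) (nat_lit 172933120)) (I.mix (nat_lit 67141632) (nat_lit 147456)) (I.neg (nat_lit 1769472) (nat_lit 67551232)) (I.pos (nat_lit 98926592) (nat_lit 173031424)) (I.mix (nat_lit 72384512) (nat_lit 32718848)) (I.mix (nat_lit 32555008) (nat_lit 57212928)) (I.mix (nat_lit 24592384) (nat_lit 54542336)))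
  false (nat_lit 0)
def b2_5 : Bx := Bx.mk (St.mk (I.mix (nat_lit 24707072) (nat_lit 85344256)) (I.mix (nat_lit 32571392) (nat_lit 4751360)) (I.mix (nat_lit 20955136) (nat_lit 3309568)) (I.pos (nat_lit 40353792) (nat_lit 90161152)) (I.mix (nat_lit 24379392) (nat_lit 17793024)) (I.mix (nat_lit 14008320) (nat_lit 24952832)) (I.mix (nat_lit 8126464) (nat_lit 13303808)))
  false (nat_lit 0)
def b2_6 : Bx := Bx.mk (St.mk (I.pos (nat_lit 150683648) (nat_lit 221020160)) (I.mix (nat_lit 36962304) (nat_lit 66813952)) (I.mix (nat_lit 38780928) (nat_lit 100843520)) (I.pos (nat_lit 129859584) (nat_lit 241713152)) (I.mix (nat_lit 108756992) (nat_lit 44367872)) (I.mix (nat_lit 115916800) (nat_lit 58327040)) (I.mix (nat_lit 133201920) (nat_lit 60768256)))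
  false (nat_lit 2317144)
def b2_7 : Bx := Bx.mk (St.mk (I.mix (nat_lit 39354368) (nat_lit 112427008)) (I.mix (nat_lit 12681216) (nat_lit 38289408)) (I.mix (nat_lit 10502144) (nat_lit 25001984)) (I.pos (nat_lit 38879232) (nat_lit 107118592)) (I.mix (nat_lit 36503552) (nat_lit 19693568)) (I.mix (nat_lit 36962304) (nat_lit 21676032)) (I.mix (nat_lit 21102592) (nat_lit 12910592)))
  false (nat_lit 0)
def t2 : BTr := (BTr.n (BTr.n (BTr.n (BTr.b b2_0) (BTr.b b2_1)) (BTr.n (BTr.b b2_2) (BTr.b b2_3))) (BTr.n (BTr.n (BTr.b b2_4) (BTr.b b2_5)) (BTr.n (BTr.b b2_6) (BTr.b b2_7))))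
namespace T2
def l0 : Tr := Tr.L (Pth.l (Pth.l (Pth.l Pth.z)))
def l1 : Tr := Tr.L (Pth.l (Pth.l (Pth.r Pth.z)))
def l2 : Tr := Tr.L (Pth.l (Pth.r (Pth.l Pth.z)))
def l3 : Tr := Tr.L (Pth.l (Pth.r (Pth.r Pth.z)))
def l4 : Tr := Tr.L (Pth.r (Pth.l (Pth.l Pth.z)))
def l5 : Tr := Tr.L (Pth.r (Pth.l (Pth.r Pth.z)))
def l6 : Tr := Tr.L (Pth.r (Pth.r (Pth.l Pth.z)))
def l7 : Tr := Tr.L (Pth.r (Pth.r (Pth.r Pth.z)))
end T2
def b3_0 : Bx := Bx.mk (St.mk (I.pos (nat_lit 153649152) (nat_lit 282378240)) (I.mix (nat_lit 16728064) (nat_lit 48709632)) (I.mix (nat_lit 33406976) (nat_lit 96223232)) (I.pos (nat_lit 83722240) (nat_lit 312999936)) (I.mix (nat_lit 72581120) (nat_lit 46956544)) (I.mix (nat_lit 73121792) (nat_lit 47316992)) (I.mix (nat_lit 116981760) (nat_lit 62865408)))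
  false (nat_lit 0)
def b3_1 : Bx := Bx.mk (St.mk (I.pos (nat_lit 124452864) (nat_lit 186859520)) (I.neg (nat_lit 491520) (nat_lit 58605568)) (I.mix (nat_lit 56639488) (nat_lit 5783552)) (I.pos (nat_lit 75317248) (nat_lit 146096128)) (I.mix (nat_lit 61915136) (nat_lit 31703040)) (I.mix (nat_lit 31719424) (nat_lit 53575680)) (I.mix (nat_lit 26820608) (nat_lit 55640064)))
  false (nat_lit 0)
def b3_2 : Bx := Bx.mk (St.mk (I.mix (nat_lit 12156928) (nat_lit 120979456)) (I.mix (nat_lit 25886720) (nat_lit 4292608)) (I.mix (nat_lit 17874944) (nat_lit 6455296)) (I.mix (nat_lit 4440064) (nat_lit 68681728)) (I.mix (nat_lit 20447232) (nat_lit 16302080)) (I.mix (nat_lit 12812288) (nat_lit 20643840)) (I.mix (nat_lit 7651328) (nat_lit 14745600)))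
  false (nat_lit 0)
def b3_3 : Bx := Bx.mk (St.mk (I.pos (nat_lit 162775040) (nat_lit 220954624)) (I.mix (nat_lit 39567360) (nat_lit 57704448)) (I.mix (nat_lit 36044800) (nat_lit 102924288)) (I.pos (nat_lit 101728256) (nat_lit 196050944)) (I.mix (nat_lit 102547456) (nat_lit 42287104)) (I.mix (nat_lit 119226368) (nat_lit 49348608)) (I.mix (nat_lit 153223168) (nat_lit 53460992)))
  false (nat_lit 0)
def b3_4 : Bx := Bx.mk (St.mk (I.mix (nat_lit 17678336) (nat_lit 139427840)) (I.mix (nat_lit 14057472) (nat_lit 33193984)) (I.mix (nat_lit 9322496) (nat_lit 31014912)) (I.mix (nat_lit 5308416) (nat_lit 84049920)) (I.mix (nat_lit 40681472) (nat_lit 18677760)) (I.mix (nat_lit 40484864) (nat_lit 19513344)) (I.mix (nat_lit 30818304) (nat_lit 12943360)))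
  false (nat_lit 0)
def b3_5 : Bx := Bx.mk (St.mk (I.pos (nat_lit 43040768) (nat_lit 140099584)) (I.mix (nat_lit 5636096) (nat_lit 22102016)) (I.mix (nat_lit 5734400) (nat_lit 23724032)) (I.pos (nat_lit 13025280) (nat_lit 89800704)) (I.mix (nat_lit 24543232) (nat_lit 20545536)) (I.mix (nat_lit 28770304) (nat_lit 16662528)) (I.mix (nat_lit 25198592) (nat_lit 12156928)))
  false (nat_lit 0)
def b3_6 : Bx := Bx.mk (St.mk (I.pos (nat_lit 118571008) (nat_lit 164954112)) (I.mix (nat_lit 51953664) (nat_lit 7782400)) (I.mix (nat_lit 52133888) (nat_lit 11141120)) (I.pos (nat_lit 53346304) (nat_lit 115654656)) (I.mix (nat_lit 67764224) (nat_lit 22429696)) (I.mix (nat_lit 29540352) (nat_lit 69779456)) (I.mix (nat_lit 25067520) (nat_lit 62455808)))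
  false (nat_lit 0)
def b3_7 : Bx := Bx.mk (St.mk (I.pos (nat_lit 38731776) (nat_lit 107085824)) (I.mix (nat_lit 23117824) (nat_lit 475136)) (I.mix (nat_lit 15859712) (nat_lit 1228800)) (I.pos (nat_lit 5406720) (nat_lit 59506688)) (I.mix (nat_lit 22822912) (nat_lit 10321920)) (I.mix (nat_lit 10878976) (nat_lit 23789568)) (I.mix (nat_lit 6586368) (nat_lit 14778368)))
  false (nat_lit 0)
def t3 : BTr := (BTr.n (BTr.n (BTr.n (BTr.b b3_0) (BTr.b b3_1)) (BTr.n (BTr.b b3_2) (BTr.b b3_3))) (BTr.n (BTr.n (BTr.b b3_4) (BTr.b b3_5)) (BTr.n (BTr.b b3_6) (BTr.b b3_7))))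
namespace T3
def l0 : Tr := Tr.L (Pth.l (Pth.l (Pth.l Pth.z)))
def l1 : Tr := Tr.L (Pth.l (Pth.l (Pth.r Pth.z)))
def l2 : Tr := Tr.L (Pth.l (Pth.r (Pth.l Pth.z)))
def l3 : Tr := Tr.L (Pth.l (Pth.r (Pth.r Pth.z)))
def l4 : Tr := Tr.L (Pth.r (Pth.l (Pth.l Pth.z)))
def l5 : Tr := Tr.L (Pth.r (Pth.l (Pth.r Pth.z)))
def l6 : Tr := Tr.L (Pth.r (Pth.r (Pth.l Pth.z)))
def l7 : Tr := Tr.L (Pth.r (Pth.r (Pth.r Pth.z)))
end T3
def b4_0 : Bx := Bx.mk (St.mk (I.pos (nat_lit 153714688) (nat_lit 281329664)) (I.mix (nat_lit 15532032) (nat_lit 54755328)) (I.mix (nat_lit 45678592) (nat_lit 99401728)) (I.pos (nat_lit 129810432) (nat_lit 355270656)) (I.mix (nat_lit 77316096) (nat_lit 47316992)) (I.mix (nat_lit 74940416) (nat_lit 43270144)) (I.mix (nat_lit 115392512) (nat_lit 58867712)))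
  false (nat_lit 26008098)
def b4_1 : Bx := Bx.mk (St.mk (I.pos (nat_lit 104333312) (nat_lit 175144960)) (I.neg (nat_lit 2162688) (nat_lit 67059712)) (I.mix (nat_lit 63062016) (nat_lit 5439488)) (I.pos (nat_lit 100286464) (nat_lit 177553408)) (I.mix (nat_lit 68435968) (nat_lit 33325056)) (I.mix (nat_lit 30146560) (nat_lit 54771712)) (I.mix (nat_lit 24018944) (nat_lit 51625984)))
  false (nat_lit 0)
def b4_2 : Bx := Bx.mk (St.mk (I.mix (nat_lit 23937024) (nat_lit 86360064)) (I.mix (nat_lit 32407552) (nat_lit 5390336)) (I.mix (nat_lit 18087936) (nat_lit 6946816)) (I.pos (nat_lit 40386560) (nat_lit 90406912)) (I.mix (nat_lit 22413312) (nat_lit 18563072)) (I.mix (nat_lit 13451264) (nat_lit 23855104)) (I.mix (nat_lit 7602176) (nat_lit 12566528)))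
  false (nat_lit 0)
def b4_3 : Bx := Bx.mk (St.mk (I.pos (nat_lit 150929408) (nat_lit 219725824)) (I.mix (nat_lit 40747008) (nat_lit 69419008)) (I.mix (nat_lit 35569664) (nat_lit 112328704)) (I.pos (nat_lit 130072576) (nat_lit 238927872)) (I.mix (nat_lit 109658112) (nat_lit 43515904)) (I.mix (nat_lit 118177792) (nat_lit 56197120)) (I.mix (nat_lit 136462336) (nat_lit 57475072)))
  false (nat_lit 19266762)
def b4_4 : Bx := Bx.mk (St.mk (I.mix (nat_lit 39878656) (nat_lit 111525888)) (I.mix (nat_lit 13500416) (nat_lit 38191104)) (I.mix (nat_lit 8110080) (nat_lit 28327936)) (I.pos (nat_lit 39043072) (nat_lit 106414080)) (I.mix (nat_lit 37535744) (nat_lit 17743872)) (I.mix (nat_lit 37912576) (nat_lit 20332544)) (I.mix (nat_lit 21757952) (nat_lit 12484608)))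
  false (nat_lit 0)
def b4_5 : Bx := Bx.mk (St.mk (I.mix (nat_lit 34848768) (nat_lit 122372096)) (I.mix (nat_lit 5767168) (nat_lit 34766848)) (I.mix (nat_lit 10207232) (nat_lit 25837568)) (I.pos (nat_lit 37011456) (nat_lit 115851264)) (I.mix (nat_lit 30228480) (nat_lit 22953984)) (I.mix (nat_lit 30883840) (nat_lit 17989632)) (I.mix (nat_lit 21938176) (nat_lit 12992512)))
  false (nat_lit 0)
def b4_6 : Bx := Bx.mk (St.mk (I.pos (nat_lit 95076352) (nat_lit 148750336)) (I.mix (nat_lit 61407232) (nat_lit 7684096)) (I.mix (nat_lit 57049088) (nat_lit 5406720)) (I.pos (nat_lit 78987264) (nat_lit 142524416)) (I.mix (nat_lit 71008256) (nat_lit 24018944)) (I.mix (nat_lit 34045952) (nat_lit 66764800)) (I.mix (nat_lit 24739840) (nat_lit 49397760)))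
  false (nat_lit 0)
def b4_7 : Bx := Bx.mk (St.mk (I.mix (nat_lit 37486592) (nat_lit 77168640)) (I.mix (nat_lit 30031872) (nat_lit 4472832)) (I.mix (nat_lit 16105472) (nat_lit 5505024)) (I.pos (nat_lit 40861696) (nat_lit 83345408)) (I.mix (nat_lit 22921216) (nat_lit 15482880)) (I.mix (nat_lit 12566528) (nat_lit 24772608)) (I.mix (nat_lit 6750208) (nat_lit 9666560)))
  false (nat_lit 0)
def t4 : BTr := (BTr.n (BTr.n (BTr.n (BTr.b b4_0) (BTr.b b4_1)) (BTr.n (BTr.b b4_2) (BTr.b b4_3))) (BTr.n (BTr.n (BTr.b b4_4) (BTr.b b4_5)) (BTr.n (BTr.b b4_6) (BTr.b b4_7))))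
namespace T4
def l0 : Tr := Tr.L (Pth.l (Pth.l (Pth.l Pth.z)))
def l1 : Tr := Tr.L (Pth.l (Pth.l (Pth.r Pth.z)))
def l2 : Tr := Tr.L (Pth.l (Pth.r (Pth.l Pth.z)))
def l3 : Tr := Tr.L (Pth.l (Pth.r (Pth.r Pth.z)))
def l4 : Tr := Tr.L (Pth.r (Pth.l (Pth.l Pth.z)))
def l5 : Tr := Tr.L (Pth.r (Pth.l (Pth.r Pth.z)))
def l6 : Tr := Tr.L (Pth.r (Pth.r (Pth.l Pth.z)))
def l7 : Tr := Tr.L (Pth.r (Pth.r (Pth.r Pth.z)))
end T4
def b5_0 : Bx := Bx.mk (St.mk (I.pos (nat_lit 153714688) (nat_lit 281165824)) (I.mix (nat_lit 14073856) (nat_lit 50511872)) (I.mix (nat_lit 27852800) (nat_lit 99614720)) (I.pos (nat_lit 103038976) (nat_lit 328073216)) (I.mix (nat_lit 73515008) (nat_lit 47185920)) (I.mix (nat_lit 75743232) (nat_lit 46317568)) (I.mix (nat_lit 118931456) (nat_lit 59588608)))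
  false (nat_lit 19688325)
def b5_1 : Bx := Bx.mk (St.mk (I.pos (nat_lit 116965376) (nat_lit 182583296)) (I.neg (nat_lit 2277376) (nat_lit 62357504)) (I.mix (nat_lit 57458688) (nat_lit 9732096)) (I.pos (nat_lit 86196224) (nat_lit 159629312)) (I.mix (nat_lit 63488000) (nat_lit 32489472)) (I.mix (nat_lit 30932992) (nat_lit 52101120)) (I.mix (nat_lit 25575424) (nat_lit 51789824)))
  false (nat_lit 0)
def b5_2 : Bx := Bx.mk (St.mk (I.mix (nat_lit 17367040) (nat_lit 107347968)) (I.mix (nat_lit 28409856) (nat_lit 4112384)) (I.mix (nat_lit 16613376) (nat_lit 8388608)) (I.pos (nat_lit 14368768) (nat_lit 77135872)) (I.mix (nat_lit 20611072) (nat_lit 17137664)) (I.mix (nat_lit 12124160) (nat_lit 21118976)) (I.mix (nat_lit 7340032) (nat_lit 13058048)))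
  false (nat_lit 0)
def b5_3 : Bx := Bx.mk (St.mk (I.pos (nat_lit 158023680) (nat_lit 220758016)) (I.mix (nat_lit 39976960) (nat_lit 62504960)) (I.mix (nat_lit 32669696) (nat_lit 110673920)) (I.pos (nat_lit 112836608) (nat_lit 213778432)) (I.mix (nat_lit 107544576) (nat_lit 41385984)) (I.mix (nat_lit 120930304) (nat_lit 52625408)) (I.mix (nat_lit 150257664) (nat_lit 55656448)))
  false (nat_lit 7293948)
def b5_4 : Bx := Bx.mk (St.mk (I.mix (nat_lit 27525120) (nat_lit 127401984)) (I.mix (nat_lit 14024704) (nat_lit 35061760)) (I.mix (nat_lit 7389184) (nat_lit 31866880)) (I.pos (nat_lit 13680640) (nat_lit 92127232)) (I.mix (nat_lit 40402944) (nat_lit 17317888)) (I.mix (nat_lit 39698432) (nat_lit 20119552)) (I.mix (nat_lit 26902528) (nat_lit 12582912)))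
  false (nat_lit 0)
def b5_5 : Bx := Bx.mk (St.mk (I.mix (nat_lit 20676608) (nat_lit 135561216)) (I.mix (nat_lit 5128192) (nat_lit 29392896)) (I.mix (nat_lit 4931584) (nat_lit 29130752)) (I.pos (nat_lit 12894208) (nat_lit 100450304)) (I.mix (nat_lit 29507584) (nat_lit 21594112)) (I.mix (nat_lit 30605312) (nat_lit 16498688)) (I.mix (nat_lit 24494080) (nat_lit 12386304)))
  false (nat_lit 0)
def b5_6 : Bx := Bx.mk (St.mk (I.pos (nat_lit 109494272) (nat_lit 158908416)) (I.mix (nat_lit 55853056) (nat_lit 8077312)) (I.mix (nat_lit 51773440) (nat_lit 11288576)) (I.pos (nat_lit 64159744) (nat_lit 126861312)) (I.mix (nat_lit 67764224) (nat_lit 23478272)) (I.mix (nat_lit 31424512) (nat_lit 67485696)) (I.mix (nat_lit 24182784) (nat_lit 54542336)))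
  false (nat_lit 0)
def b5_7 : Bx := Bx.mk (St.mk (I.mix (nat_lit 22052864) (nat_lit 103596032)) (I.neg (nat_lit 278528) (nat_lit 26427392)) (I.mix (nat_lit 15728640) (nat_lit 4505600)) (I.pos (nat_lit 14811136) (nat_lit 71483392)) (I.mix (nat_lit 22478848) (nat_lit 11452416)) (I.mix (nat_lit 11747328) (nat_lit 23494656)) (I.mix (nat_lit 6307840) (nat_lit 12189696)))
  false (nat_lit 0)
def t5 : BTr := (BTr.n (BTr.n (BTr.n (BTr.b b5_0) (BTr.b b5_1)) (BTr.n (BTr.b b5_2) (BTr.b b5_3))) (BTr.n (BTr.n (BTr.b b5_4) (BTr.b b5_5)) (BTr.n (BTr.b b5_6) (BTr.b b5_7))))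
namespace T5
def l0 : Tr := Tr.L (Pth.l (Pth.l (Pth.l Pth.z)))
def l1 : Tr := Tr.L (Pth.l (Pth.l (Pth.r Pth.z)))
def l2 : Tr := Tr.L (Pth.l (Pth.r (Pth.l Pth.z)))
def l3 : Tr := Tr.L (Pth.l (Pth.r (Pth.r Pth.z)))
def l4 : Tr := Tr.L (Pth.r (Pth.l (Pth.l Pth.z)))
def l5 : Tr := Tr.L (Pth.r (Pth.l (Pth.r Pth.z)))
def l6 : Tr := Tr.L (Pth.r (Pth.r (Pth.l Pth.z)))
def l7 : Tr := Tr.L (Pth.r (Pth.r (Pth.r Pth.z)))
end T5
theorem bx0_0 : BoxOK sI cl7 cl9 cl13 t2 t4 b0_0 :=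
  box_mk (TrL.c (I.pos (nat_lit 0) (nat_lit 0)) (xa (xa T2.l0 T2.l0) (xa (xb T2.l0 T2.l0) (xb T2.l0 T2.l0)))
  (TrL.c (I.pos (nat_lit 0) (nat_lit 0)) T4.l1
  (TrL.c (I.pos (nat_lit 0) (nat_lit 111196574)) (xR T2.l1 T2.l1)
  (TrL.c (I.pos (nat_lit 0) (nat_lit 77433728)) (xR T4.l2 T4.l2)
  (TrL.c (I.pos (nat_lit 0) (nat_lit 0)) (xa (xb T4.l3 T4.l3) (xk (xb (xa T4.l3 (xb (xa T4.l3 T4.l3) T4.l3)) (xa T4.l3 (xs (xa T4.l3 T4.l3) (xa T4.l3 T4.l3)))) (xb (xa T4.l3 (xb (xa T4.l3 T4.l3) T4.l3)) (xa T4.l3 (xs T4.l3 (xa T4.l3 T4.l3))))))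
  (TrL.c (I.pos (nat_lit 0) (nat_lit 0)) T2.l2
  (TrL.c (I.mix (nat_lit 29511666) (nat_lit 77433728)) (xR T4.l4 T4.l4)
  (TrL.c (I.mix (nat_lit 29511666) (nat_lit 46070178)) (xR T2.l3 T2.l3)
  TrL.n)))))))) (by decide +kernel)
theorem bx0_1 : BoxOK sI cl7 cl9 cl13 t2 t4 b0_1 :=
  box_mk (TrL.c (I.pos (nat_lit 0) (nat_lit 0)) (xa T2.l0 T2.l0)
  (TrL.c (I.pos (nat_lit 0) (nat_lit 0)) T4.l1
  (TrL.c (I.pos (nat_lit 0) (nat_lit 111196574)) T2.l1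
  (TrL.c (I.pos (nat_lit 0) (nat_lit 77433728)) T4.l2
  (TrL.c (I.pos (nat_lit 0) (nat_lit 0)) (xa T4.l3 T4.l3)
  (TrL.c (I.pos (nat_lit 0) (nat_lit 0)) T2.l2
  (TrL.c (I.mix (nat_lit 29511666) (nat_lit 77433728)) T4.l4
  (TrL.c (I.mix (nat_lit 29511666) (nat_lit 46070178)) T2.l3
  TrL.n)))))))) (by decide +kernel)
theorem bx0_2 : BoxOK sI cl7 cl9 cl13 t2 t4 b0_2 :=
  box_mk (TrL.c (I.pos (nat_lit 0) (nat_lit 0)) T2.l0
  (TrL.c (I.pos (nat_lit 0) (nat_lit 0)) T4.l1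
  (TrL.c (I.pos (nat_lit 0) (nat_lit 111196574)) T2.l1
  (TrL.c (I.pos (nat_lit 0) (nat_lit 77433728)) T4.l2
  (TrL.c (I.pos (nat_lit 0) (nat_lit 0)) T4.l3
  (TrL.c (I.pos (nat_lit 0) (nat_lit 0)) T2.l2
  (TrL.c (I.mix (nat_lit 29511666) (nat_lit 77433728)) T4.l4
  (TrL.c (I.mix (nat_lit 29511666) (nat_lit 46070178)) T2.l3
  TrL.n)))))))) (by decide +kernel)
theorem bx0_3 : BoxOK sI cl7 cl9 cl13 t2 t4 b0_3 :=
  box_mk (TrL.c (I.pos (nat_lit 0) (nat_lit 0)) T2.l0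
  (TrL.c (I.pos (nat_lit 0) (nat_lit 0)) T4.l1
  (TrL.c (I.pos (nat_lit 0) (nat_lit 111196574)) T2.l1
  (TrL.c (I.pos (nat_lit 0) (nat_lit 77433728)) T4.l2
  (TrL.c (I.pos (nat_lit 0) (nat_lit 0)) T4.l3
  (TrL.c (I.pos (nat_lit 0) (nat_lit 0)) T2.l2
  (TrL.c (I.mix (nat_lit 29511666) (nat_lit 77433728)) T4.l4
  (TrL.c (I.mix (nat_lit 29511666) (nat_lit 46070178)) T2.l3
  TrL.n)))))))) (by decide +kernel)
theorem bx0_4 : BoxOK sI cl7 cl9 cl13 t2 t4 b0_4 :=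
  box_mk (TrL.c (I.pos (nat_lit 0) (nat_lit 0)) T2.l0
  (TrL.c (I.pos (nat_lit 0) (nat_lit 0)) T4.l1
  (TrL.c (I.pos (nat_lit 0) (nat_lit 111196574)) T2.l1
  (TrL.c (I.pos (nat_lit 0) (nat_lit 77433728)) T4.l2
  (TrL.c (I.pos (nat_lit 0) (nat_lit 0)) T4.l3
  (TrL.c (I.pos (nat_lit 0) (nat_lit 0)) T2.l2
  (TrL.c (I.mix (nat_lit 29511666) (nat_lit 77433728)) (xR T4.l4 T4.l4)
  (TrL.c (I.mix (nat_lit 29511666) (nat_lit 46070178)) T2.l3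
  TrL.n)))))))) (by decide +kernel)
theorem bx0_5 : BoxOK sI cl7 cl9 cl13 t2 t4 b0_5 :=
  box_mk (TrL.c (I.pos (nat_lit 0) (nat_lit 0)) (xa (xa (xa T2.l0 T2.l0) T2.l0) T2.l0)
  (TrL.c (I.pos (nat_lit 0) (nat_lit 0)) T4.l1
  (TrL.c (I.pos (nat_lit 0) (nat_lit 111196574)) T2.l1
  (TrL.c (I.pos (nat_lit 0) (nat_lit 77433728)) T4.l2
  (TrL.c (I.pos (nat_lit 0) (nat_lit 0)) (xa T4.l3 T4.l3)
  (TrL.c (I.pos (nat_lit 0) (nat_lit 0)) T2.l2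
  (TrL.c (I.mix (nat_lit 29511666) (nat_lit 77433728)) T4.l4
  (TrL.c (I.mix (nat_lit 29511666) (nat_lit 46070178)) T2.l3
  TrL.n)))))))) (by decide +kernel)
theorem bx0_6 : BoxOK sI cl7 cl9 cl13 t2 t4 b0_6 :=
  box_mk (TrL.c (I.pos (nat_lit 0) (nat_lit 0)) (xa T2.l0 T2.l0)
  (TrL.c (I.pos (nat_lit 0) (nat_lit 0)) T4.l1
  (TrL.c (I.pos (nat_lit 0) (nat_lit 111196574)) T2.l1
  (TrL.c (I.pos (nat_lit 0) (nat_lit 77433728)) T4.l2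
  (TrL.c (I.pos (nat_lit 0) (nat_lit 0)) (xa T4.l3 T4.l3)
  (TrL.c (I.pos (nat_lit 0) (nat_lit 0)) T2.l2
  (TrL.c (I.mix (nat_lit 29511666) (nat_lit 77433728)) T4.l4
  (TrL.c (I.mix (nat_lit 29511666) (nat_lit 46070178)) T2.l3
  TrL.n)))))))) (by decide +kernel)
theorem bx0_7 : BoxOK sI cl7 cl9 cl13 t2 t4 b0_7 :=
  box_mk (TrL.c (I.pos (nat_lit 0) (nat_lit 0)) (xb (xa T2.l0 T2.l0) (xa (xs T2.l0 (xb T2.l0 T2.l0)) (xs T2.l0 (xb T2.l0 T2.l0))))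
  (TrL.c (I.pos (nat_lit 0) (nat_lit 0)) T4.l1
  (TrL.c (I.pos (nat_lit 0) (nat_lit 111196574)) (xR T2.l1 T2.l1)
  (TrL.c (I.pos (nat_lit 0) (nat_lit 77433728)) (xR T4.l2 T4.l2)
  (TrL.c (I.pos (nat_lit 0) (nat_lit 0)) (xb (xa T4.l3 (xk T4.l3 T4.l3)) (xa T4.l3 (xk T4.l3 T4.l3)))
  (TrL.c (I.pos (nat_lit 0) (nat_lit 0)) T2.l2
  (TrL.c (I.mix (nat_lit 29511666) (nat_lit 77433728)) (xR T4.l4 T4.l4)
  (TrL.c (I.mix (nat_lit 29511666) (nat_lit 46070178)) T2.l3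
  TrL.n)))))))) (by decide +kernel)
theorem sv0 : StarV sI cl7 cl9 cl13 t2 t4 t0 :=
  (bt_n (bt_n (bt_n (bt_b bx0_0) (bt_b bx0_1)) (bt_n (bt_b bx0_2) (bt_b bx0_3))) (bt_n (bt_n (bt_b bx0_4) (bt_b bx0_5)) (bt_n (bt_b bx0_6) (bt_b bx0_7))))
def S0 : StarD := StarD.mk cl7 cl9 cl13 2 4 t0
theorem bx1_0 : BoxOK sI cl7 cl13 cl9 t4 t2 b1_0 :=
  box_mk (TrL.c (I.pos (nat_lit 0) (nat_lit 0)) (xa (xa (xb T4.l0 (xa T4.l0 T4.l0)) (xb T4.l0 (xs T4.l0 T4.l0))) (xa (xb T4.l0 (xs T4.l0 T4.l0)) (xb T4.l0 T4.l0)))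
  (TrL.c (I.pos (nat_lit 0) (nat_lit 0)) T2.l4
  (TrL.c (I.pos (nat_lit 0) (nat_lit 111196574)) (xR T4.l5 T4.l5)
  (TrL.c (I.pos (nat_lit 0) (nat_lit 77433728)) (xR T2.l5 T2.l5)
  (TrL.c (I.pos (nat_lit 0) (nat_lit 0)) (xa T2.l6 (xa (xb (xk T2.l6 T2.l6) T2.l6) (xk (xb (xb (xa T2.l6 T2.l6) T2.l6) (xk (xa T2.l6 T2.l6) (xa T2.l6 T2.l6))) (xb (xa T2.l6 (xb T2.l6 T2.l6)) (xk (xa T2.l6 T2.l6) (xa T2.l6 T2.l6))))))
  (TrL.c (I.pos (nat_lit 0) (nat_lit 0)) T4.l6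
  (TrL.c (I.mix (nat_lit 29511666) (nat_lit 77433728)) (xR T2.l7 T2.l7)
  (TrL.c (I.mix (nat_lit 29511666) (nat_lit 46070178)) (xR T4.l7 T4.l7)
  TrL.n)))))))) (by decide +kernel)
theorem bx1_1 : BoxOK sI cl7 cl13 cl9 t4 t2 b1_1 :=
  box_mk (TrL.c (I.pos (nat_lit 0) (nat_lit 0)) (xa T4.l0 T4.l0)
  (TrL.c (I.pos (nat_lit 0) (nat_lit 0)) T2.l4
  (TrL.c (I.pos (nat_lit 0) (nat_lit 111196574)) T4.l5
  (TrL.c (I.pos (nat_lit 0) (nat_lit 77433728)) T2.l5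
  (TrL.c (I.pos (nat_lit 0) (nat_lit 0)) (xa T2.l6 T2.l6)
  (TrL.c (I.pos (nat_lit 0) (nat_lit 0)) T4.l6
  (TrL.c (I.mix (nat_lit 29511666) (nat_lit 77433728)) (xR T2.l7 T2.l7)
  (TrL.c (I.mix (nat_lit 29511666) (nat_lit 46070178)) T4.l7
  TrL.n)))))))) (by decide +kernel)
theorem bx1_2 : BoxOK sI cl7 cl13 cl9 t4 t2 b1_2 :=
  box_mk (TrL.c (I.pos (nat_lit 0) (nat_lit 0)) T4.l0
  (TrL.c (I.pos (nat_lit 0) (nat_lit 0)) T2.l4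
  (TrL.c (I.pos (nat_lit 0) (nat_lit 111196574)) T4.l5
  (TrL.c (I.pos (nat_lit 0) (nat_lit 77433728)) T2.l5
  (TrL.c (I.pos (nat_lit 0) (nat_lit 0)) T2.l6
  (TrL.c (I.pos (nat_lit 0) (nat_lit 0)) T4.l6
  (TrL.c (I.mix (nat_lit 29511666) (nat_lit 77433728)) (xR T2.l7 T2.l7)
  (TrL.c (I.mix (nat_lit 29511666) (nat_lit 46070178)) T4.l7
  TrL.n)))))))) (by decide +kernel)
theorem bx1_3 : BoxOK sI cl7 cl13 cl9 t4 t2 b1_3 :=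
  box_mk (TrL.c (I.pos (nat_lit 0) (nat_lit 0)) (xa T4.l0 T4.l0)
  (TrL.c (I.pos (nat_lit 0) (nat_lit 0)) T2.l4
  (TrL.c (I.pos (nat_lit 0) (nat_lit 111196574)) T4.l5
  (TrL.c (I.pos (nat_lit 0) (nat_lit 77433728)) T2.l5
  (TrL.c (I.pos (nat_lit 0) (nat_lit 0)) (xa T2.l6 T2.l6)
  (TrL.c (I.pos (nat_lit 0) (nat_lit 0)) T4.l6
  (TrL.c (I.mix (nat_lit 29511666) (nat_lit 77433728)) T2.l7
  (TrL.c (I.mix (nat_lit 29511666) (nat_lit 46070178)) T4.l7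
  TrL.n)))))))) (by decide +kernel)
theorem bx1_4 : BoxOK sI cl7 cl13 cl9 t4 t2 b1_4 :=
  box_mk (TrL.c (I.pos (nat_lit 0) (nat_lit 0)) T4.l0
  (TrL.c (I.pos (nat_lit 0) (nat_lit 0)) T2.l4
  (TrL.c (I.pos (nat_lit 0) (nat_lit 111196574)) T4.l5
  (TrL.c (I.pos (nat_lit 0) (nat_lit 77433728)) T2.l5
  (TrL.c (I.pos (nat_lit 0) (nat_lit 0)) T2.l6
  (TrL.c (I.pos (nat_lit 0) (nat_lit 0)) T4.l6
  (TrL.c (I.mix (nat_lit 29511666) (nat_lit 77433728)) (xR T2.l7 T2.l7)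
  (TrL.c (I.mix (nat_lit 29511666) (nat_lit 46070178)) T4.l7
  TrL.n)))))))) (by decide +kernel)
theorem bx1_5 : BoxOK sI cl7 cl13 cl9 t4 t2 b1_5 :=
  box_mk (TrL.c (I.pos (nat_lit 0) (nat_lit 0)) T4.l0
  (TrL.c (I.pos (nat_lit 0) (nat_lit 0)) T2.l4
  (TrL.c (I.pos (nat_lit 0) (nat_lit 111196574)) T4.l5
  (TrL.c (I.pos (nat_lit 0) (nat_lit 77433728)) T2.l5
  (TrL.c (I.pos (nat_lit 0) (nat_lit 0)) T2.l6
  (TrL.c (I.pos (nat_lit 0) (nat_lit 0)) T4.l6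
  (TrL.c (I.mix (nat_lit 29511666) (nat_lit 77433728)) T2.l7
  (TrL.c (I.mix (nat_lit 29511666) (nat_lit 46070178)) T4.l7
  TrL.n)))))))) (by decide +kernel)
theorem bx1_6 : BoxOK sI cl7 cl13 cl9 t4 t2 b1_6 :=
  box_mk (TrL.c (I.pos (nat_lit 0) (nat_lit 0)) (xb (xa T4.l0 T4.l0) (xa (xs T4.l0 (xb T4.l0 T4.l0)) (xs T4.l0 (xb T4.l0 T4.l0))))
  (TrL.c (I.pos (nat_lit 0) (nat_lit 0)) T2.l4
  (TrL.c (I.pos (nat_lit 0) (nat_lit 111196574)) (xR T4.l5 T4.l5)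
  (TrL.c (I.pos (nat_lit 0) (nat_lit 77433728)) (xR T2.l5 T2.l5)
  (TrL.c (I.pos (nat_lit 0) (nat_lit 0)) (xb (xa T2.l6 (xk T2.l6 T2.l6)) (xa T2.l6 (xk T2.l6 T2.l6)))
  (TrL.c (I.pos (nat_lit 0) (nat_lit 0)) T4.l6
  (TrL.c (I.mix (nat_lit 29511666) (nat_lit 77433728)) (xR T2.l7 T2.l7)
  (TrL.c (I.mix (nat_lit 29511666) (nat_lit 46070178)) T4.l7
  TrL.n)))))))) (by decide +kernel)
theorem bx1_7 : BoxOK sI cl7 cl13 cl9 t4 t2 b1_7 :=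
  box_mk (TrL.c (I.pos (nat_lit 0) (nat_lit 0)) (xa T4.l0 T4.l0)
  (TrL.c (I.pos (nat_lit 0) (nat_lit 0)) T2.l4
  (TrL.c (I.pos (nat_lit 0) (nat_lit 111196574)) T4.l5
  (TrL.c (I.pos (nat_lit 0) (nat_lit 77433728)) (xR T2.l5 T2.l5)
  (TrL.c (I.pos (nat_lit 0) (nat_lit 0)) (xa T2.l6 T2.l6)
  (TrL.c (I.pos (nat_lit 0) (nat_lit 0)) T4.l6
  (TrL.c (I.mix (nat_lit 29511666) (nat_lit 77433728)) (xR T2.l7 T2.l7)
  (TrL.c (I.mix (nat_lit 29511666) (nat_lit 46070178)) T4.l7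
  TrL.n)))))))) (by decide +kernel)
theorem sv1 : StarV sI cl7 cl13 cl9 t4 t2 t1 :=
  (bt_n (bt_n (bt_n (bt_b bx1_0) (bt_b bx1_1)) (bt_n (bt_b bx1_2) (bt_b bx1_3))) (bt_n (bt_n (bt_b bx1_4) (bt_b bx1_5)) (bt_n (bt_b bx1_6) (bt_b bx1_7))))
def S1 : StarD := StarD.mk cl7 cl13 cl9 4 2 t1
theorem bx2_0 : BoxOK sI cl9 cl7 cl13 t0 t5 b2_0 :=
  box_mk (TrL.c (I.pos (nat_lit 0) (nat_lit 0)) (xa (xa T0.l0 T0.l0) (xa (xb T0.l0 T0.l0) (xb T0.l0 T0.l0)))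
  (TrL.c (I.pos (nat_lit 0) (nat_lit 0)) T5.l1
  (TrL.c (I.pos (nat_lit 0) (nat_lit 124588530)) (xR T0.l1 T0.l6)
  (TrL.c (I.pos (nat_lit 0) (nat_lit 96881482)) (xR T5.l2 T5.l2)
  (TrL.c (I.pos (nat_lit 0) (nat_lit 0)) (xa (xa T5.l3 T5.l3) (xk (xa T5.l3 (xb (xb (xa T5.l3 T5.l3) T5.l3) (xs (xa T5.l3 T5.l3) (xa T5.l3 T5.l3)))) (xa T5.l3 (xb (xb (xa T5.l3 T5.l3) T5.l3) (xs (xa T5.l3 T5.l3) (xa T5.l3 T5.l3))))))
  (TrL.c (I.pos (nat_lit 0) (nat_lit 0)) T0.l2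
  (TrL.c (I.mix (nat_lit 17240550) (nat_lit 96881482)) (xR T5.l4 T5.l4)
  (TrL.c (I.mix (nat_lit 17240550) (nat_lit 71940500)) (xR T0.l3 T0.l3)
  TrL.n)))))))) (by decide +kernel)
theorem bx2_1 : BoxOK sI cl9 cl7 cl13 t0 t5 b2_1 :=
  box_mk (TrL.c (I.pos (nat_lit 0) (nat_lit 0)) (xa T0.l0 T0.l0)
  (TrL.c (I.pos (nat_lit 0) (nat_lit 0)) T5.l1
  (TrL.c (I.pos (nat_lit 0) (nat_lit 124588530)) T0.l1
  (TrL.c (I.pos (nat_lit 0) (nat_lit 96881482)) T5.l2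
  (TrL.c (I.pos (nat_lit 0) (nat_lit 0)) (xa T5.l3 T5.l3)
  (TrL.c (I.pos (nat_lit 0) (nat_lit 0)) T0.l2
  (TrL.c (I.mix (nat_lit 17240550) (nat_lit 96881482)) T5.l4
  (TrL.c (I.mix (nat_lit 17240550) (nat_lit 71940500)) T0.l3
  TrL.n)))))))) (by decide +kernel)
theorem bx2_2 : BoxOK sI cl9 cl7 cl13 t0 t5 b2_2 :=
  box_mk (TrL.c (I.pos (nat_lit 0) (nat_lit 0)) T0.l0
  (TrL.c (I.pos (nat_lit 0) (nat_lit 0)) T5.l1
  (TrL.c (I.pos (nat_lit 0) (nat_lit 124588530)) T0.l1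
  (TrL.c (I.pos (nat_lit 0) (nat_lit 96881482)) T5.l2
  (TrL.c (I.pos (nat_lit 0) (nat_lit 0)) T5.l3
  (TrL.c (I.pos (nat_lit 0) (nat_lit 0)) T0.l2
  (TrL.c (I.mix (nat_lit 17240550) (nat_lit 96881482)) T5.l4
  (TrL.c (I.mix (nat_lit 17240550) (nat_lit 71940500)) T0.l3
  TrL.n)))))))) (by decide +kernel)
theorem bx2_3 : BoxOK sI cl9 cl7 cl13 t0 t5 b2_3 :=
  box_mk (TrL.c (I.pos (nat_lit 0) (nat_lit 0)) (xa T0.l0 T0.l0)
  (TrL.c (I.pos (nat_lit 0) (nat_lit 0)) T5.l1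
  (TrL.c (I.pos (nat_lit 0) (nat_lit 124588530)) T0.l1
  (TrL.c (I.pos (nat_lit 0) (nat_lit 96881482)) T5.l4
  (TrL.c (I.pos (nat_lit 0) (nat_lit 0)) T5.l3
  (TrL.c (I.pos (nat_lit 0) (nat_lit 0)) T0.l2
  (TrL.c (I.mix (nat_lit 17240550) (nat_lit 96881482)) T5.l4
  (TrL.c (I.mix (nat_lit 17240550) (nat_lit 71940500)) T0.l3
  TrL.n)))))))) (by decide +kernel)
theorem bx2_4 : BoxOK sI cl9 cl7 cl13 t0 t5 b2_4 :=
  box_mk (TrL.c (I.pos (nat_lit 0) (nat_lit 0)) T0.l0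
  (TrL.c (I.pos (nat_lit 0) (nat_lit 0)) T5.l1
  (TrL.c (I.pos (nat_lit 0) (nat_lit 124588530)) T0.l1
  (TrL.c (I.pos (nat_lit 0) (nat_lit 96881482)) T5.l2
  (TrL.c (I.pos (nat_lit 0) (nat_lit 0)) (xa T5.l3 T5.l3)
  (TrL.c (I.pos (nat_lit 0) (nat_lit 0)) T0.l2
  (TrL.c (I.mix (nat_lit 17240550) (nat_lit 96881482)) T5.l4
  (TrL.c (I.mix (nat_lit 17240550) (nat_lit 71940500)) T0.l3
  TrL.n)))))))) (by decide +kernel)
theorem bx2_5 : BoxOK sI cl9 cl7 cl13 t0 t5 b2_5 :=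
  box_mk (TrL.c (I.pos (nat_lit 0) (nat_lit 0)) T0.l0
  (TrL.c (I.pos (nat_lit 0) (nat_lit 0)) T5.l1
  (TrL.c (I.pos (nat_lit 0) (nat_lit 124588530)) T0.l1
  (TrL.c (I.pos (nat_lit 0) (nat_lit 96881482)) T5.l4
  (TrL.c (I.pos (nat_lit 0) (nat_lit 0)) T5.l3
  (TrL.c (I.pos (nat_lit 0) (nat_lit 0)) T0.l2
  (TrL.c (I.mix (nat_lit 17240550) (nat_lit 96881482)) T5.l4
  (TrL.c (I.mix (nat_lit 17240550) (nat_lit 71940500)) T0.l3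
  TrL.n)))))))) (by decide +kernel)
theorem bx2_6 : BoxOK sI cl9 cl7 cl13 t0 t5 b2_6 :=
  box_mk (TrL.c (I.pos (nat_lit 0) (nat_lit 0)) (xb (xa T0.l0 T0.l0) (xa (xs T0.l0 (xa T0.l0 T0.l0)) (xs T0.l0 (xa T0.l0 T0.l0))))
  (TrL.c (I.pos (nat_lit 0) (nat_lit 0)) T5.l1
  (TrL.c (I.pos (nat_lit 0) (nat_lit 124588530)) (xR T0.l1 T0.l1)
  (TrL.c (I.pos (nat_lit 0) (nat_lit 96881482)) (xR T5.l2 T5.l2)
  (TrL.c (I.pos (nat_lit 0) (nat_lit 0)) (xb (xa T5.l3 (xk T5.l3 T5.l3)) (xa T5.l3 (xk T5.l3 T5.l3)))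
  (TrL.c (I.pos (nat_lit 0) (nat_lit 0)) T0.l2
  (TrL.c (I.mix (nat_lit 17240550) (nat_lit 96881482)) (xR T5.l4 T5.l4)
  (TrL.c (I.mix (nat_lit 17240550) (nat_lit 71940500)) (xR T0.l3 T0.l3)
  TrL.n)))))))) (by decide +kernel)
theorem bx2_7 : BoxOK sI cl9 cl7 cl13 t0 t5 b2_7 :=
  box_mk (TrL.c (I.pos (nat_lit 0) (nat_lit 0)) (xa T0.l0 T0.l0)
  (TrL.c (I.pos (nat_lit 0) (nat_lit 0)) T5.l1
  (TrL.c (I.pos (nat_lit 0) (nat_lit 124588530)) T0.l1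
  (TrL.c (I.pos (nat_lit 0) (nat_lit 96881482)) (xR T5.l2 T5.l2)
  (TrL.c (I.pos (nat_lit 0) (nat_lit 0)) (xa T5.l3 T5.l3)
  (TrL.c (I.pos (nat_lit 0) (nat_lit 0)) T0.l2
  (TrL.c (I.mix (nat_lit 17240550) (nat_lit 96881482)) T5.l4
  (TrL.c (I.mix (nat_lit 17240550) (nat_lit 71940500)) T0.l3
  TrL.n)))))))) (by decide +kernel)
theorem sv2 : StarV sI cl9 cl7 cl13 t0 t5 t2 :=
  (bt_n (bt_n (bt_n (bt_b bx2_0) (bt_b bx2_1)) (bt_n (bt_b bx2_2) (bt_b bx2_3))) (bt_n (bt_n (bt_b bx2_4) (bt_b bx2_5)) (bt_n (bt_b bx2_6) (bt_b bx2_7))))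
def S2 : StarD := StarD.mk cl9 cl7 cl13 0 5 t2
theorem bx3_0 : BoxOK sI cl9 cl13 cl7 t5 t0 b3_0 :=
  box_mk (TrL.c (I.pos (nat_lit 0) (nat_lit 0)) (xa (xa (xb T5.l0 T5.l0) T5.l0) (xa (xb T5.l0 T5.l0) (xb T5.l0 T5.l0)))
  (TrL.c (I.pos (nat_lit 0) (nat_lit 0)) T0.l4
  (TrL.c (I.pos (nat_lit 0) (nat_lit 124588530)) (xR T5.l5 T5.l5)
  (TrL.c (I.pos (nat_lit 0) (nat_lit 96881482)) (xR T0.l5 T0.l5)
  (TrL.c (I.pos (nat_lit 0) (nat_lit 0)) (xa (xa T0.l7 T0.l7) (xa (xk (xb T0.l7 T0.l7) T0.l7) (xk (xb (xa T0.l7 (xk T0.l7 T0.l7)) (xk (xa T0.l7 T0.l7) (xa T0.l7 T0.l7))) (xb (xa T0.l7 (xk T0.l7 T0.l7)) (xk (xa T0.l7 T0.l7) (xa T0.l7 T0.l7))))))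
  (TrL.c (I.pos (nat_lit 0) (nat_lit 0)) T5.l6
  (TrL.c (I.mix (nat_lit 17240550) (nat_lit 96881482)) (xR T0.l6 T0.l6)
  (TrL.c (I.mix (nat_lit 17240550) (nat_lit 71940500)) (xR T5.l7 T5.l7)
  TrL.n)))))))) (by decide +kernel)
theorem bx3_1 : BoxOK sI cl9 cl13 cl7 t5 t0 b3_1 :=
  box_mk (TrL.c (I.pos (nat_lit 0) (nat_lit 0)) T5.l0
  (TrL.c (I.pos (nat_lit 0) (nat_lit 0)) T0.l4
  (TrL.c (I.pos (nat_lit 0) (nat_lit 124588530)) (xR T5.l5 T5.l5)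
  (TrL.c (I.pos (nat_lit 0) (nat_lit 96881482)) T0.l5
  (TrL.c (I.pos (nat_lit 0) (nat_lit 0)) T0.l7
  (TrL.c (I.pos (nat_lit 0) (nat_lit 0)) T5.l6
  (TrL.c (I.mix (nat_lit 17240550) (nat_lit 96881482)) T0.l6
  (TrL.c (I.mix (nat_lit 17240550) (nat_lit 71940500)) T5.l7
  TrL.n)))))))) (by decide +kernel)
theorem bx3_2 : BoxOK sI cl9 cl13 cl7 t5 t0 b3_2 :=
  box_mk (TrL.c (I.pos (nat_lit 0) (nat_lit 0)) (xa (xa (xa T5.l0 T5.l0) T5.l0) T5.l0)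
  (TrL.c (I.pos (nat_lit 0) (nat_lit 0)) T0.l4
  (TrL.c (I.pos (nat_lit 0) (nat_lit 124588530)) T5.l5
  (TrL.c (I.pos (nat_lit 0) (nat_lit 96881482)) (xR T0.l5 T0.l5)
  (TrL.c (I.pos (nat_lit 0) (nat_lit 0)) (xa T0.l7 T0.l7)
  (TrL.c (I.pos (nat_lit 0) (nat_lit 0)) T5.l6
  (TrL.c (I.mix (nat_lit 17240550) (nat_lit 96881482)) T0.l6
  (TrL.c (I.mix (nat_lit 17240550) (nat_lit 71940500)) T5.l4
  TrL.n)))))))) (by decide +kernel)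
theorem bx3_3 : BoxOK sI cl9 cl13 cl7 t5 t0 b3_3 :=
  box_mk (TrL.c (I.pos (nat_lit 0) (nat_lit 0)) (xb (xa T5.l0 T5.l0) (xa (xs T5.l0 (xb T5.l0 T5.l0)) (xs T5.l0 (xb T5.l0 T5.l0))))
  (TrL.c (I.pos (nat_lit 0) (nat_lit 0)) T0.l4
  (TrL.c (I.pos (nat_lit 0) (nat_lit 124588530)) (xR T5.l5 T5.l5)
  (TrL.c (I.pos (nat_lit 0) (nat_lit 96881482)) (xR T0.l5 T0.l5)
  (TrL.c (I.pos (nat_lit 0) (nat_lit 0)) (xb (xa T0.l7 (xk T0.l7 T0.l7)) (xa T0.l7 (xk T0.l7 T0.l7)))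
  (TrL.c (I.pos (nat_lit 0) (nat_lit 0)) T5.l6
  (TrL.c (I.mix (nat_lit 17240550) (nat_lit 96881482)) (xR T0.l6 T0.l6)
  (TrL.c (I.mix (nat_lit 17240550) (nat_lit 71940500)) (xR T5.l7 T5.l7)
  TrL.n)))))))) (by decide +kernel)
theorem bx3_4 : BoxOK sI cl9 cl13 cl7 t5 t0 b3_4 :=
  box_mk (TrL.c (I.pos (nat_lit 0) (nat_lit 0)) (xa T5.l0 T5.l0)
  (TrL.c (I.pos (nat_lit 0) (nat_lit 0)) T0.l4
  (TrL.c (I.pos (nat_lit 0) (nat_lit 124588530)) T5.l5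
  (TrL.c (I.pos (nat_lit 0) (nat_lit 96881482)) (xR T0.l5 T0.l5)
  (TrL.c (I.pos (nat_lit 0) (nat_lit 0)) (xa T0.l7 T0.l7)
  (TrL.c (I.pos (nat_lit 0) (nat_lit 0)) T5.l6
  (TrL.c (I.mix (nat_lit 17240550) (nat_lit 96881482)) T0.l6
  (TrL.c (I.mix (nat_lit 17240550) (nat_lit 71940500)) T5.l4
  TrL.n)))))))) (by decide +kernel)
theorem bx3_5 : BoxOK sI cl9 cl13 cl7 t5 t0 b3_5 :=
  box_mk (TrL.c (I.pos (nat_lit 0) (nat_lit 0)) T5.l0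
  (TrL.c (I.pos (nat_lit 0) (nat_lit 0)) T0.l4
  (TrL.c (I.pos (nat_lit 0) (nat_lit 124588530)) T5.l5
  (TrL.c (I.pos (nat_lit 0) (nat_lit 96881482)) T0.l5
  (TrL.c (I.pos (nat_lit 0) (nat_lit 0)) T0.l7
  (TrL.c (I.pos (nat_lit 0) (nat_lit 0)) T5.l6
  (TrL.c (I.mix (nat_lit 17240550) (nat_lit 96881482)) T0.l6
  (TrL.c (I.mix (nat_lit 17240550) (nat_lit 71940500)) T5.l7
  TrL.n)))))))) (by decide +kernel)
theorem bx3_6 : BoxOK sI cl9 cl13 cl7 t5 t0 b3_6 :=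
  box_mk (TrL.c (I.pos (nat_lit 0) (nat_lit 0)) T5.l0
  (TrL.c (I.pos (nat_lit 0) (nat_lit 0)) T0.l4
  (TrL.c (I.pos (nat_lit 0) (nat_lit 124588530)) T5.l5
  (TrL.c (I.pos (nat_lit 0) (nat_lit 96881482)) T0.l5
  (TrL.c (I.pos (nat_lit 0) (nat_lit 0)) T0.l7
  (TrL.c (I.pos (nat_lit 0) (nat_lit 0)) T5.l6
  (TrL.c (I.mix (nat_lit 17240550) (nat_lit 96881482)) T0.l6
  (TrL.c (I.mix (nat_lit 17240550) (nat_lit 71940500)) T5.l7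
  TrL.n)))))))) (by decide +kernel)
theorem bx3_7 : BoxOK sI cl9 cl13 cl7 t5 t0 b3_7 :=
  box_mk (TrL.c (I.pos (nat_lit 0) (nat_lit 0)) T5.l0
  (TrL.c (I.pos (nat_lit 0) (nat_lit 0)) T0.l4
  (TrL.c (I.pos (nat_lit 0) (nat_lit 124588530)) T5.l5
  (TrL.c (I.pos (nat_lit 0) (nat_lit 96881482)) T0.l5
  (TrL.c (I.pos (nat_lit 0) (nat_lit 0)) T0.l7
  (TrL.c (I.pos (nat_lit 0) (nat_lit 0)) T5.l6
  (TrL.c (I.mix (nat_lit 17240550) (nat_lit 96881482)) T0.l6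
  (TrL.c (I.mix (nat_lit 17240550) (nat_lit 71940500)) T5.l2
  TrL.n)))))))) (by decide +kernel)
theorem sv3 : StarV sI cl9 cl13 cl7 t5 t0 t3 :=
  (bt_n (bt_n (bt_n (bt_b bx3_0) (bt_b bx3_1)) (bt_n (bt_b bx3_2) (bt_b bx3_3))) (bt_n (bt_n (bt_b bx3_4) (bt_b bx3_5)) (bt_n (bt_b bx3_6) (bt_b bx3_7))))
def S3 : StarD := StarD.mk cl9 cl13 cl7 5 0 t3
theorem bx4_0 : BoxOK sI cl13 cl7 cl9 t1 t3 b4_0 :=
  box_mk (TrL.c (I.pos (nat_lit 0) (nat_lit 0)) (xa (xa T1.l0 T1.l0) (xa T1.l0 T1.l0))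
  (TrL.c (I.pos (nat_lit 0) (nat_lit 0)) T3.l1
  (TrL.c (I.pos (nat_lit 0) (nat_lit 134217730)) (xR T1.l1 T1.l7)
  (TrL.c (I.pos (nat_lit 0) (nat_lit 110514882)) (xR T3.l2 T3.l2)
  (TrL.c (I.pos (nat_lit 0) (nat_lit 0)) (xa (xa T3.l3 T3.l3) (xa (xk T3.l3 T3.l3) (xk (xb (xk T3.l3 T3.l3) (xs (xa T3.l3 T3.l3) (xa T3.l3 T3.l3))) (xb (xa T3.l3 (xk T3.l3 T3.l3)) (xs (xa T3.l3 T3.l3) (xa T3.l3 T3.l3))))))
  (TrL.c (I.pos (nat_lit 0) (nat_lit 0)) T1.l2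
  (TrL.c (I.mix (nat_lit 8088324) (nat_lit 110514882)) (xR T3.l4 T3.l4)
  (TrL.c (I.mix (nat_lit 8088324) (nat_lit 89478486)) (xR T1.l3 T1.l3)
  TrL.n)))))))) (by decide +kernel)
theorem bx4_1 : BoxOK sI cl13 cl7 cl9 t1 t3 b4_1 :=
  box_mk (TrL.c (I.pos (nat_lit 0) (nat_lit 0)) T1.l0
  (TrL.c (I.pos (nat_lit 0) (nat_lit 0)) T3.l1
  (TrL.c (I.pos (nat_lit 0) (nat_lit 134217730)) (xR T1.l1 T1.l1)
  (TrL.c (I.pos (nat_lit 0) (nat_lit 110514882)) (xR T3.l2 T3.l2)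
  (TrL.c (I.pos (nat_lit 0) (nat_lit 0)) T3.l3
  (TrL.c (I.pos (nat_lit 0) (nat_lit 0)) T1.l2
  (TrL.c (I.mix (nat_lit 8088324) (nat_lit 110514882)) T3.l4
  (TrL.c (I.mix (nat_lit 8088324) (nat_lit 89478486)) T1.l3
  TrL.n)))))))) (by decide +kernel)
theorem bx4_2 : BoxOK sI cl13 cl7 cl9 t1 t3 b4_2 :=
  box_mk (TrL.c (I.pos (nat_lit 0) (nat_lit 0)) T1.l0
  (TrL.c (I.pos (nat_lit 0) (nat_lit 0)) T3.l1
  (TrL.c (I.pos (nat_lit 0) (nat_lit 134217730)) T1.l1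
  (TrL.c (I.pos (nat_lit 0) (nat_lit 110514882)) T3.l2
  (TrL.c (I.pos (nat_lit 0) (nat_lit 0)) T3.l3
  (TrL.c (I.pos (nat_lit 0) (nat_lit 0)) T1.l2
  (TrL.c (I.mix (nat_lit 8088324) (nat_lit 110514882)) T3.l4
  (TrL.c (I.mix (nat_lit 8088324) (nat_lit 89478486)) T1.l3
  TrL.n)))))))) (by decide +kernel)
theorem bx4_3 : BoxOK sI cl13 cl7 cl9 t1 t3 b4_3 :=
  box_mk (TrL.c (I.pos (nat_lit 0) (nat_lit 0)) (xb (xa T1.l0 T1.l0) (xa (xs T1.l0 (xb T1.l0 T1.l0)) (xs T1.l0 (xb T1.l0 T1.l0))))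
  (TrL.c (I.pos (nat_lit 0) (nat_lit 0)) T3.l1
  (TrL.c (I.pos (nat_lit 0) (nat_lit 134217730)) (xR T1.l1 T1.l1)
  (TrL.c (I.pos (nat_lit 0) (nat_lit 110514882)) (xR T3.l2 T3.l2)
  (TrL.c (I.pos (nat_lit 0) (nat_lit 0)) (xb (xa T3.l3 (xk T3.l3 T3.l3)) (xa T3.l3 (xk T3.l3 T3.l3)))
  (TrL.c (I.pos (nat_lit 0) (nat_lit 0)) T1.l2
  (TrL.c (I.mix (nat_lit 8088324) (nat_lit 110514882)) (xR T3.l4 T3.l4)
  (TrL.c (I.mix (nat_lit 8088324) (nat_lit 89478486)) (xR T1.l3 T1.l3)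
  TrL.n)))))))) (by decide +kernel)
theorem bx4_4 : BoxOK sI cl13 cl7 cl9 t1 t3 b4_4 :=
  box_mk (TrL.c (I.pos (nat_lit 0) (nat_lit 0)) (xa T1.l0 T1.l0)
  (TrL.c (I.pos (nat_lit 0) (nat_lit 0)) T3.l1
  (TrL.c (I.pos (nat_lit 0) (nat_lit 134217730)) T1.l1
  (TrL.c (I.pos (nat_lit 0) (nat_lit 110514882)) (xR T3.l2 T3.l2)
  (TrL.c (I.pos (nat_lit 0) (nat_lit 0)) (xa T3.l3 T3.l3)
  (TrL.c (I.pos (nat_lit 0) (nat_lit 0)) T1.l2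
  (TrL.c (I.mix (nat_lit 8088324) (nat_lit 110514882)) T3.l4
  (TrL.c (I.mix (nat_lit 8088324) (nat_lit 89478486)) T1.l3
  TrL.n)))))))) (by decide +kernel)
theorem bx4_5 : BoxOK sI cl13 cl7 cl9 t1 t3 b4_5 :=
  box_mk (TrL.c (I.pos (nat_lit 0) (nat_lit 0)) (xa T1.l0 T1.l0)
  (TrL.c (I.pos (nat_lit 0) (nat_lit 0)) T3.l1
  (TrL.c (I.pos (nat_lit 0) (nat_lit 134217730)) T1.l1
  (TrL.c (I.pos (nat_lit 0) (nat_lit 110514882)) T3.l2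
  (TrL.c (I.pos (nat_lit 0) (nat_lit 0)) (xa T3.l3 T3.l3)
  (TrL.c (I.pos (nat_lit 0) (nat_lit 0)) T1.l2
  (TrL.c (I.mix (nat_lit 8088324) (nat_lit 110514882)) T3.l4
  (TrL.c (I.mix (nat_lit 8088324) (nat_lit 89478486)) T1.l3
  TrL.n)))))))) (by decide +kernel)
theorem bx4_6 : BoxOK sI cl13 cl7 cl9 t1 t3 b4_6 :=
  box_mk (TrL.c (I.pos (nat_lit 0) (nat_lit 0)) T1.l0
  (TrL.c (I.pos (nat_lit 0) (nat_lit 0)) T3.l1
  (TrL.c (I.pos (nat_lit 0) (nat_lit 134217730)) T1.l7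
  (TrL.c (I.pos (nat_lit 0) (nat_lit 110514882)) T3.l2
  (TrL.c (I.pos (nat_lit 0) (nat_lit 0)) T3.l3
  (TrL.c (I.pos (nat_lit 0) (nat_lit 0)) T1.l2
  (TrL.c (I.mix (nat_lit 8088324) (nat_lit 110514882)) T3.l4
  (TrL.c (I.mix (nat_lit 8088324) (nat_lit 89478486)) T1.l3
  TrL.n)))))))) (by decide +kernel)
theorem bx4_7 : BoxOK sI cl13 cl7 cl9 t1 t3 b4_7 :=
  box_mk (TrL.c (I.pos (nat_lit 0) (nat_lit 0)) (xa T1.l0 T1.l0)
  (TrL.c (I.pos (nat_lit 0) (nat_lit 0)) T3.l1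
  (TrL.c (I.pos (nat_lit 0) (nat_lit 134217730)) T1.l1
  (TrL.c (I.pos (nat_lit 0) (nat_lit 110514882)) T3.l4
  (TrL.c (I.pos (nat_lit 0) (nat_lit 0)) T3.l3
  (TrL.c (I.pos (nat_lit 0) (nat_lit 0)) T1.l2
  (TrL.c (I.mix (nat_lit 8088324) (nat_lit 110514882)) T3.l4
  (TrL.c (I.mix (nat_lit 8088324) (nat_lit 89478486)) T1.l3
  TrL.n)))))))) (by decide +kernel)
theorem sv4 : StarV sI cl13 cl7 cl9 t1 t3 t4 :=
  (bt_n (bt_n (bt_n (bt_b bx4_0) (bt_b bx4_1)) (bt_n (bt_b bx4_2) (bt_b bx4_3))) (bt_n (bt_n (bt_b bx4_4) (bt_b bx4_5)) (bt_n (bt_b bx4_6) (bt_b bx4_7))))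
def S4 : StarD := StarD.mk cl13 cl7 cl9 1 3 t4
theorem bx5_0 : BoxOK sI cl13 cl9 cl7 t3 t1 b5_0 :=
  box_mk (TrL.c (I.pos (nat_lit 0) (nat_lit 0)) (xa (xa T3.l0 T3.l0) (xa T3.l0 T3.l0))
  (TrL.c (I.pos (nat_lit 0) (nat_lit 0)) T1.l4
  (TrL.c (I.pos (nat_lit 0) (nat_lit 134217730)) (xR T3.l4 T3.l4)
  (TrL.c (I.pos (nat_lit 0) (nat_lit 110514882)) (xR T1.l3 T1.l5)
  (TrL.c (I.pos (nat_lit 0) (nat_lit 0)) (xa (xa T1.l6 T1.l6) (xa (xk (xb T1.l6 T1.l6) T1.l6) (xk (xb (xa T1.l6 (xk T1.l6 T1.l6)) (xk (xa T1.l6 T1.l6) (xa T1.l6 T1.l6))) (xb (xa T1.l6 (xk T1.l6 T1.l6)) (xk (xa T1.l6 T1.l6) (xa T1.l6 T1.l6))))))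
  (TrL.c (I.pos (nat_lit 0) (nat_lit 0)) T3.l6
  (TrL.c (I.mix (nat_lit 8088324) (nat_lit 110514882)) (xR T1.l7 T1.l7)
  (TrL.c (I.mix (nat_lit 8088324) (nat_lit 89478486)) (xR T3.l2 T3.l7)
  TrL.n)))))))) (by decide +kernel)
theorem bx5_1 : BoxOK sI cl13 cl9 cl7 t3 t1 b5_1 :=
  box_mk (TrL.c (I.pos (nat_lit 0) (nat_lit 0)) T3.l0
  (TrL.c (I.pos (nat_lit 0) (nat_lit 0)) T1.l4
  (TrL.c (I.pos (nat_lit 0) (nat_lit 134217730)) (xR T3.l4 T3.l5)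
  (TrL.c (I.pos (nat_lit 0) (nat_lit 110514882)) (xR T1.l1 T1.l5)
  (TrL.c (I.pos (nat_lit 0) (nat_lit 0)) T1.l6
  (TrL.c (I.pos (nat_lit 0) (nat_lit 0)) T3.l6
  (TrL.c (I.mix (nat_lit 8088324) (nat_lit 110514882)) T1.l7
  (TrL.c (I.mix (nat_lit 8088324) (nat_lit 89478486)) T3.l2
  TrL.n)))))))) (by decide +kernel)
theorem bx5_2 : BoxOK sI cl13 cl9 cl7 t3 t1 b5_2 :=
  box_mk (TrL.c (I.pos (nat_lit 0) (nat_lit 0)) (xa T3.l0 T3.l0)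
  (TrL.c (I.pos (nat_lit 0) (nat_lit 0)) T1.l4
  (TrL.c (I.pos (nat_lit 0) (nat_lit 134217730)) (xR T3.l2 T3.l5)
  (TrL.c (I.pos (nat_lit 0) (nat_lit 110514882)) (xR T1.l1 T1.l5)
  (TrL.c (I.pos (nat_lit 0) (nat_lit 0)) T1.l6
  (TrL.c (I.pos (nat_lit 0) (nat_lit 0)) T3.l6
  (TrL.c (I.mix (nat_lit 8088324) (nat_lit 110514882)) T1.l7
  (TrL.c (I.mix (nat_lit 8088324) (nat_lit 89478486)) T3.l2
  TrL.n)))))))) (by decide +kernel)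
theorem bx5_3 : BoxOK sI cl13 cl9 cl7 t3 t1 b5_3 :=
  box_mk (TrL.c (I.pos (nat_lit 0) (nat_lit 0)) (xb (xa T3.l0 T3.l0) (xa (xs T3.l0 (xb T3.l0 T3.l0)) (xs T3.l0 T3.l0)))
  (TrL.c (I.pos (nat_lit 0) (nat_lit 0)) T1.l4
  (TrL.c (I.pos (nat_lit 0) (nat_lit 134217730)) (xR T3.l4 T3.l5)
  (TrL.c (I.pos (nat_lit 0) (nat_lit 110514882)) (xR T1.l3 T1.l5)
  (TrL.c (I.pos (nat_lit 0) (nat_lit 0)) (xb (xa T1.l6 (xk T1.l6 T1.l6)) (xk T1.l6 T1.l6))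
  (TrL.c (I.pos (nat_lit 0) (nat_lit 0)) T3.l6
  (TrL.c (I.mix (nat_lit 8088324) (nat_lit 110514882)) (xR T1.l7 T1.l7)
  (TrL.c (I.mix (nat_lit 8088324) (nat_lit 89478486)) (xR T3.l2 T3.l7)
  TrL.n)))))))) (by decide +kernel)
theorem bx5_4 : BoxOK sI cl13 cl9 cl7 t3 t1 b5_4 :=
  box_mk (TrL.c (I.pos (nat_lit 0) (nat_lit 0)) (xa T3.l0 T3.l0)
  (TrL.c (I.pos (nat_lit 0) (nat_lit 0)) T1.l4
  (TrL.c (I.pos (nat_lit 0) (nat_lit 134217730)) (xR T3.l4 T3.l5)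
  (TrL.c (I.pos (nat_lit 0) (nat_lit 110514882)) (xR T1.l1 T1.l5)
  (TrL.c (I.pos (nat_lit 0) (nat_lit 0)) (xa T1.l6 T1.l6)
  (TrL.c (I.pos (nat_lit 0) (nat_lit 0)) T3.l6
  (TrL.c (I.mix (nat_lit 8088324) (nat_lit 110514882)) T1.l7
  (TrL.c (I.mix (nat_lit 8088324) (nat_lit 89478486)) T3.l2
  TrL.n)))))))) (by decide +kernel)
theorem bx5_5 : BoxOK sI cl13 cl9 cl7 t3 t1 b5_5 :=
  box_mk (TrL.c (I.pos (nat_lit 0) (nat_lit 0)) (xa T3.l0 T3.l0)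
  (TrL.c (I.pos (nat_lit 0) (nat_lit 0)) T1.l4
  (TrL.c (I.pos (nat_lit 0) (nat_lit 134217730)) (xR T3.l4 T3.l5)
  (TrL.c (I.pos (nat_lit 0) (nat_lit 110514882)) (xR T1.l1 T1.l5)
  (TrL.c (I.pos (nat_lit 0) (nat_lit 0)) (xa T1.l6 T1.l6)
  (TrL.c (I.pos (nat_lit 0) (nat_lit 0)) T3.l6
  (TrL.c (I.mix (nat_lit 8088324) (nat_lit 110514882)) T1.l7
  (TrL.c (I.mix (nat_lit 8088324) (nat_lit 89478486)) T3.l2
  TrL.n)))))))) (by decide +kernel)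
theorem bx5_6 : BoxOK sI cl13 cl9 cl7 t3 t1 b5_6 :=
  box_mk (TrL.c (I.pos (nat_lit 0) (nat_lit 0)) T3.l0
  (TrL.c (I.pos (nat_lit 0) (nat_lit 0)) T1.l4
  (TrL.c (I.pos (nat_lit 0) (nat_lit 134217730)) T3.l4
  (TrL.c (I.pos (nat_lit 0) (nat_lit 110514882)) (xR T1.l1 T1.l5)
  (TrL.c (I.pos (nat_lit 0) (nat_lit 0)) T1.l6
  (TrL.c (I.pos (nat_lit 0) (nat_lit 0)) T3.l6
  (TrL.c (I.mix (nat_lit 8088324) (nat_lit 110514882)) T1.l7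
  (TrL.c (I.mix (nat_lit 8088324) (nat_lit 89478486)) T3.l2
  TrL.n)))))))) (by decide +kernel)
theorem bx5_7 : BoxOK sI cl13 cl9 cl7 t3 t1 b5_7 :=
  box_mk (TrL.c (I.pos (nat_lit 0) (nat_lit 0)) (xa (xa T3.l0 T3.l0) T3.l0)
  (TrL.c (I.pos (nat_lit 0) (nat_lit 0)) T1.l4
  (TrL.c (I.pos (nat_lit 0) (nat_lit 134217730)) (xR T3.l2 T3.l5)
  (TrL.c (I.pos (nat_lit 0) (nat_lit 110514882)) (xR T1.l1 T1.l5)
  (TrL.c (I.pos (nat_lit 0) (nat_lit 0)) T1.l6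
  (TrL.c (I.pos (nat_lit 0) (nat_lit 0)) T3.l6
  (TrL.c (I.mix (nat_lit 8088324) (nat_lit 110514882)) T1.l7
  (TrL.c (I.mix (nat_lit 8088324) (nat_lit 89478486)) T3.l2
  TrL.n)))))))) (by decide +kernel)
theorem sv5 : StarV sI cl13 cl9 cl7 t3 t1 t5 :=
  (bt_n (bt_n (bt_n (bt_b bx5_0) (bt_b bx5_1)) (bt_n (bt_b bx5_2) (bt_b bx5_3))) (bt_n (bt_n (bt_b bx5_4) (bt_b bx5_5)) (bt_n (bt_b bx5_6) (bt_b bx5_7))))
def S5 : StarD := StarD.mk cl13 cl9 cl7 3 1 t5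
def G : List StarD := [S0, S1, S2, S3, S4, S5]
theorem so0 : StarOK sI G S0 :=
  star_mk (by decide) (by decide) rfl rfl rfl rfl rfl rfl (rfl : _ = t2) (rfl : _ = t4)
  (st_mk (Pth.l (Pth.l (Pth.l Pth.z))) (nat_lit 115570986) (nat_lit 134147472) (by decide +kernel))
  (st_mk (Pth.l (Pth.l (Pth.l Pth.z))) (nat_lit 150803007) (nat_lit 169719556) (by decide +kernel))
  (st_mk (Pth.l (Pth.l (Pth.l Pth.z))) (nat_lit 191566448) (nat_lit 210967187) (by decide +kernel)) sv0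
theorem so1 : StarOK sI G S1 :=
  star_mk (by decide) (by decide) rfl rfl rfl rfl rfl rfl (rfl : _ = t4) (rfl : _ = t2)
  (st_mk (Pth.l (Pth.l (Pth.l Pth.z))) (nat_lit 96190645) (nat_lit 114735716) (by decide +kernel))
  (st_mk (Pth.l (Pth.l (Pth.l Pth.z))) (nat_lit 131395304) (nat_lit 150261865) (by decide +kernel))
  (st_mk (Pth.l (Pth.l (Pth.l Pth.z))) (nat_lit 172135228) (nat_lit 191470156) (by decide +kernel)) sv1
theorem so2 : StarOK sI G S2 :=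
  star_mk (by decide) (by decide) rfl rfl rfl rfl rfl rfl (rfl : _ = t0) (rfl : _ = t5)
  (st_mk (Pth.l (Pth.l (Pth.l Pth.z))) (nat_lit 140298502) (nat_lit 162506091) (by decide +kernel))
  (st_mk (Pth.l (Pth.l (Pth.l Pth.z))) (nat_lit 175362375) (nat_lit 197853247) (by decide +kernel))
  (st_mk (Pth.l (Pth.l (Pth.l Pth.z))) (nat_lit 215866388) (nat_lit 238751841) (by decide +kernel)) sv2
theorem so3 : StarOK sI G S3 :=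
  star_mk (by decide) (by decide) rfl rfl rfl rfl rfl rfl (rfl : _ = t5) (rfl : _ = t0)
  (st_mk (Pth.l (Pth.l (Pth.l Pth.z))) (nat_lit 95995023) (nat_lit 114402849) (by decide +kernel))
  (st_mk (Pth.l (Pth.l (Pth.l Pth.z))) (nat_lit 131031462) (nat_lit 149687321) (by decide +kernel))
  (st_mk (Pth.l (Pth.l (Pth.l Pth.z))) (nat_lit 171511698) (nat_lit 190531841) (by decide +kernel)) sv3
theorem so4 : StarOK sI G S4 :=
  star_mk (by decide) (by decide) rfl rfl rfl rfl rfl rfl (rfl : _ = t1) (rfl : _ = t3)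
  (st_mk (Pth.l (Pth.l (Pth.l Pth.z))) (nat_lit 141873768) (nat_lit 160160430) (by decide +kernel))
  (st_mk (Pth.l (Pth.l (Pth.l Pth.z))) (nat_lit 174891329) (nat_lit 197156537) (by decide +kernel))
  (st_mk (Pth.l (Pth.l (Pth.l Pth.z))) (nat_lit 215156648) (nat_lit 237731052) (by decide +kernel)) sv4
theorem so5 : StarOK sI G S5 :=
  star_mk (by decide) (by decide) rfl rfl rfl rfl rfl rfl (rfl : _ = t3) (rfl : _ = t1)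
  (st_mk (Pth.l (Pth.l (Pth.l Pth.z))) (nat_lit 115089857) (nat_lit 133370025) (by decide +kernel))
  (st_mk (Pth.l (Pth.l (Pth.l Pth.z))) (nat_lit 149986467) (nat_lit 168470262) (by decide +kernel))
  (st_mk (Pth.l (Pth.l (Pth.l Pth.z))) (nat_lit 190251785) (nat_lit 209030178) (by decide +kernel)) sv5
theorem ok : GroupOK (nat_lit 0) (nat_lit 91291648) G := grp_mk (allS_c so0 (allS_c so1 (allS_c so2 (allS_c so3 (allS_c so4 (allS_c so5 allS_n))))))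
theorem cov : GCov G cl7 cl9 cl13 := cov_mk
  ⟨0, by decide, rfl, rfl, rfl⟩ ⟨1, by decide, rfl, rfl, rfl⟩ ⟨2, by decide, rfl, rfl, rfl⟩ ⟨3, by decide, rfl, rfl, rfl⟩ ⟨4, by decide, rfl, rfl, rfl⟩ ⟨5, by decide, rfl, rfl, rfl⟩
end Q456_0

namespace Q456_1
def sI : I := I.pos (nat_lit 91226112) (nat_lit 150339584)
def b0_0 : Bx := Bx.mk (St.mk (I.pos (nat_lit 155762688) (nat_lit 245153792)) (I.mix (nat_lit 3522560) (nat_lit 57655296)) (I.mix (nat_lit 5439488) (nat_lit 91439104)) (I.pos (nat_lit 108150784) (nat_lit 249970688)) (I.mix (nat_lit 83984384) (nat_lit 44679168)) (I.mix (nat_lit 60555264) (nat_lit 47202304)) (I.mix (nat_lit 77135872) (nat_lit 60817408)))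
  false (nat_lit 49053806)
def b0_1 : Bx := Bx.mk (St.mk (I.mix (nat_lit 45072384) (nat_lit 141180928)) (I.mix (nat_lit 9207808) (nat_lit 34750464)) (I.mix (nat_lit 16400384) (nat_lit 25182208)) (I.pos (nat_lit 9289728) (nat_lit 104710144)) (I.mix (nat_lit 37191680) (nat_lit 34127872)) (I.mix (nat_lit 33423360) (nat_lit 22413312)) (I.mix (nat_lit 26345472) (nat_lit 16187392)))
  false (nat_lit 0)
def b0_2 : Bx := Bx.mk (St.mk (I.pos (nat_lit 103890944) (nat_lit 156598272)) (I.mix (nat_lit 56311808) (nat_lit 10977280)) (I.mix (nat_lit 61931520) (nat_lit 5242880)) (I.pos (nat_lit 60391424) (nat_lit 126255104)) (I.mix (nat_lit 79822848) (nat_lit 24723456)) (I.mix (nat_lit 33308672) (nat_lit 68468736)) (I.mix (nat_lit 24788992) (nat_lit 58179584)))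
  false (nat_lit 0)
def b0_3 : Bx := Bx.mk (St.mk (I.mix (nat_lit 28786688) (nat_lit 96976896)) (I.mix (nat_lit 27246592) (nat_lit 5226496)) (I.mix (nat_lit 20512768) (nat_lit 1523712)) (I.pos (nat_lit 14532608) (nat_lit 69058560)) (I.mix (nat_lit 28459008) (nat_lit 12550144)) (I.mix (nat_lit 13434880) (nat_lit 24281088)) (I.mix (nat_lit 7159808) (nat_lit 13107200)))
  false (nat_lit 0)
def b0_4 : Bx := Bx.mk (St.mk (I.pos (nat_lit 208961536) (nat_lit 287211520)) (I.mix (nat_lit 25755648) (nat_lit 42696704)) (I.mix (nat_lit 75612160) (nat_lit 67174400)) (I.pos (nat_lit 200867840) (nat_lit 344817664)) (I.mix (nat_lit 62652416) (nat_lit 48906240)) (I.mix (nat_lit 55902208) (nat_lit 38944768)) (I.mix (nat_lit 100139008) (nat_lit 71434240)))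
  false (nat_lit 42063354)
def b0_5 : Bx := Bx.mk (St.mk (I.pos (nat_lit 104546304) (nat_lit 185909248)) (I.mix (nat_lit 60112896) (nat_lit 4341760)) (I.mix (nat_lit 63438848) (nat_lit 1261568)) (I.pos (nat_lit 74579968) (nat_lit 164134912)) (I.mix (nat_lit 73433088) (nat_lit 41287680)) (I.mix (nat_lit 39075840) (nat_lit 61145088)) (I.mix (nat_lit 32210944) (nat_lit 62177280)))
  false (nat_lit 0)
def b0_6 : Bx := Bx.mk (St.mk (I.mix (nat_lit 38076416) (nat_lit 109182976)) (I.mix (nat_lit 32325632) (nat_lit 8454144)) (I.mix (nat_lit 26132480) (nat_lit 4046848)) (I.pos (nat_lit 10993664) (nat_lit 78266368)) (I.mix (nat_lit 33800192) (nat_lit 26918912)) (I.mix (nat_lit 19660800) (nat_lit 31342592)) (I.mix (nat_lit 12992512) (nat_lit 20414464)))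
  false (nat_lit 0)
def b0_7 : Bx := Bx.mk (St.mk (I.pos (nat_lit 174407680) (nat_lit 223019008)) (I.mix (nat_lit 12025856) (nat_lit 62324736)) (I.mix (nat_lit 3440640) (nat_lit 95780864)) (I.pos (nat_lit 138592256) (nat_lit 221052928)) (I.mix (nat_lit 117293056) (nat_lit 36110336)) (I.mix (nat_lit 112640000) (nat_lit 60686336)) (I.mix (nat_lit 129286144) (nat_lit 62488576)))
  false (nat_lit 55056664)
def b0_8 : Bx := Bx.mk (St.mk (I.mix (nat_lit 33013760) (nat_lit 136200192)) (I.mix (nat_lit 16252928) (nat_lit 41238528)) (I.mix (nat_lit 19857408) (nat_lit 28704768)) (I.pos (nat_lit 12795904) (nat_lit 96501760)) (I.mix (nat_lit 47300608) (nat_lit 33734656)) (I.mix (nat_lit 49152000) (nat_lit 28360704)) (I.mix (nat_lit 31457280) (nat_lit 17170432)))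
  false (nat_lit 0)
def b0_9 : Bx := Bx.mk (St.mk (I.pos (nat_lit 188465152) (nat_lit 238944256)) (I.pos (nat_lit 12992512) (nat_lit 54149120)) (I.pos (nat_lit 19742720) (nat_lit 86966272)) (I.pos (nat_lit 179814400) (nat_lit 240254976)) (I.mix (nat_lit 81330176) (nat_lit 52625408)) (I.mix (nat_lit 71090176) (nat_lit 49987584)) (I.mix (nat_lit 107872256) (nat_lit 61554688)))
  false (nat_lit 41343408)
def b0_10 : Bx := Bx.mk (St.mk (I.pos (nat_lit 149864448) (nat_lit 216612864)) (I.mix (nat_lit 41107456) (nat_lit 23969792)) (I.mix (nat_lit 47284224) (nat_lit 41402368)) (I.pos (nat_lit 107708416) (nat_lit 206880768)) (I.mix (nat_lit 48250880) (nat_lit 41664512)) (I.mix (nat_lit 50855936) (nat_lit 42795008)) (I.mix (nat_lit 53788672) (nat_lit 45973504)))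
  false (nat_lit 0)
def b0_11 : Bx := Bx.mk (St.mk (I.pos (nat_lit 174899200) (nat_lit 218398720)) (I.mix (nat_lit 18202624) (nat_lit 37421056)) (I.mix (nat_lit 11894784) (nat_lit 61652992)) (I.pos (nat_lit 140525568) (nat_lit 206880768)) (I.mix (nat_lit 95436800) (nat_lit 49381376)) (I.mix (nat_lit 114180096) (nat_lit 54706176)) (I.mix (nat_lit 132513792) (nat_lit 58359808)))
  false (nat_lit 0)
def t0 : BTr := (BTr.n (BTr.n (BTr.n (BTr.b b0_0) (BTr.n (BTr.b b0_1) (BTr.b b0_2))) (BTr.n (BTr.b b0_3) (BTr.n (BTr.b b0_4) (BTr.b b0_5)))) (BTr.n (BTr.n (BTr.b b0_6) (BTr.n (BTr.b b0_7) (BTr.b b0_8))) (BTr.n (BTr.b b0_9) (BTr.n (BTr.b b0_10) (BTr.b b0_11)))))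
namespace T0
def l0 : Tr := Tr.L (Pth.l (Pth.l (Pth.l Pth.z)))
def l1 : Tr := Tr.L (Pth.l (Pth.l (Pth.r (Pth.l Pth.z))))
def l2 : Tr := Tr.L (Pth.l (Pth.l (Pth.r (Pth.r Pth.z))))
def l3 : Tr := Tr.L (Pth.l (Pth.r (Pth.l Pth.z)))
def l4 : Tr := Tr.L (Pth.l (Pth.r (Pth.r (Pth.l Pth.z))))
def l5 : Tr := Tr.L (Pth.l (Pth.r (Pth.r (Pth.r Pth.z))))
def l6 : Tr := Tr.L (Pth.r (Pth.l (Pth.l Pth.z)))
def l7 : Tr := Tr.L (Pth.r (Pth.l (Pth.r (Pth.l Pth.z))))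
def l8 : Tr := Tr.L (Pth.r (Pth.l (Pth.r (Pth.r Pth.z))))
def l9 : Tr := Tr.L (Pth.r (Pth.r (Pth.l Pth.z)))
def l10 : Tr := Tr.L (Pth.r (Pth.r (Pth.r (Pth.l Pth.z))))
def l11 : Tr := Tr.L (Pth.r (Pth.r (Pth.r (Pth.r Pth.z))))
end T0
def b1_0 : Bx := Bx.mk (St.mk (I.pos (nat_lit 155680768) (nat_lit 246579200)) (I.mix (nat_lit 3293184) (nat_lit 53460992)) (I.mix (nat_lit 5586944) (nat_lit 94191616)) (I.pos (nat_lit 88670208) (nat_lit 231604224)) (I.mix (nat_lit 81608704) (nat_lit 43237376)) (I.mix (nat_lit 60309504) (nat_lit 47562752)) (I.mix (nat_lit 86130688) (nat_lit 60145664)))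
  false (nat_lit 54762021)
def b1_1 : Bx := Bx.mk (St.mk (I.mix (nat_lit 44351488) (nat_lit 150765568)) (I.mix (nat_lit 8192000) (nat_lit 31113216)) (I.mix (nat_lit 12320768) (nat_lit 28393472)) (I.mix (nat_lit 5914624) (nat_lit 94765056)) (I.mix (nat_lit 38158336) (nat_lit 29982720)) (I.mix (nat_lit 29540352) (nat_lit 22085632)) (I.mix (nat_lit 25444352) (nat_lit 17416192)))
  false (nat_lit 0)
def b1_2 : Bx := Bx.mk (St.mk (I.pos (nat_lit 114016256) (nat_lit 164397056)) (I.mix (nat_lit 54132736) (nat_lit 10174464)) (I.mix (nat_lit 59392000) (nat_lit 9125888)) (I.pos (nat_lit 50364416) (nat_lit 116670464)) (I.mix (nat_lit 79544320) (nat_lit 23560192)) (I.mix (nat_lit 33439744) (nat_lit 69844992)) (I.mix (nat_lit 27688960) (nat_lit 63651840)))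
  false (nat_lit 0)
def b1_3 : Bx := Bx.mk (St.mk (I.mix (nat_lit 18644992) (nat_lit 113065984)) (I.mix (nat_lit 24805376) (nat_lit 3670016)) (I.mix (nat_lit 19513344) (nat_lit 2359296)) (I.mix (nat_lit 4030464) (nat_lit 61325312)) (I.mix (nat_lit 27049984) (nat_lit 12222464)) (I.mix (nat_lit 10240000) (nat_lit 26263552)) (I.mix (nat_lit 6029312) (nat_lit 16629760)))
  false (nat_lit 0)
def b1_4 : Bx := Bx.mk (St.mk (I.pos (nat_lit 209420288) (nat_lit 286998528)) (I.mix (nat_lit 24346624) (nat_lit 40108032)) (I.mix (nat_lit 61489152) (nat_lit 72613888)) (I.pos (nat_lit 183189504) (nat_lit 325058560)) (I.mix (nat_lit 60375040) (nat_lit 46727168)) (I.mix (nat_lit 51642368) (nat_lit 38682624)) (I.mix (nat_lit 92307456) (nat_lit 66535424)))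
  false (nat_lit 46348785)
def b1_5 : Bx := Bx.mk (St.mk (I.pos (nat_lit 113311744) (nat_lit 190873600)) (I.mix (nat_lit 55689216) (nat_lit 2621440)) (I.mix (nat_lit 57688064) (nat_lit 2277376)) (I.pos (nat_lit 65323008) (nat_lit 151486464)) (I.mix (nat_lit 71843840) (nat_lit 39485440)) (I.mix (nat_lit 38141952) (nat_lit 58146816)) (I.mix (nat_lit 32833536) (nat_lit 61030400)))
  false (nat_lit 0)
def b1_6 : Bx := Bx.mk (St.mk (I.mix (nat_lit 36225024) (nat_lit 123404288)) (I.mix (nat_lit 30146560) (nat_lit 10420224)) (I.mix (nat_lit 24821760) (nat_lit 5373952)) (I.mix (nat_lit 4489216) (nat_lit 69632000)) (I.mix (nat_lit 33308672) (nat_lit 26771456)) (I.mix (nat_lit 20824064) (nat_lit 29081600)) (I.mix (nat_lit 13893632) (nat_lit 21250048)))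
  false (nat_lit 0)
def b1_7 : Bx := Bx.mk (St.mk (I.pos (nat_lit 176570368) (nat_lit 224395264)) (I.mix (nat_lit 16760832) (nat_lit 58884096)) (I.mix (nat_lit 4128768) (nat_lit 96780288)) (I.pos (nat_lit 119128064) (nat_lit 203292672)) (I.mix (nat_lit 121995264) (nat_lit 38649856)) (I.mix (nat_lit 120815616) (nat_lit 62144512)) (I.mix (nat_lit 144867328) (nat_lit 65044480)))
  false (nat_lit 0)
def b1_8 : Bx := Bx.mk (St.mk (I.mix (nat_lit 23740416) (nat_lit 146325504)) (I.mix (nat_lit 15974400) (nat_lit 38879232)) (I.mix (nat_lit 16039936) (nat_lit 32210944)) (I.mix (nat_lit 5521408) (nat_lit 87785472)) (I.mix (nat_lit 51003392) (nat_lit 31145984)) (I.mix (nat_lit 49741824) (nat_lit 28786688)) (I.mix (nat_lit 36093952) (nat_lit 19251200)))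
  false (nat_lit 0)
def b1_9 : Bx := Bx.mk (St.mk (I.pos (nat_lit 155156480) (nat_lit 219627520)) (I.mix (nat_lit 45744128) (nat_lit 22528000)) (I.mix (nat_lit 50839552) (nat_lit 43139072)) (I.pos (nat_lit 95862784) (nat_lit 190857216)) (I.mix (nat_lit 48529408) (nat_lit 45826048)) (I.mix (nat_lit 52133888) (nat_lit 46268416)) (I.mix (nat_lit 55427072) (nat_lit 50069504)))
  false (nat_lit 0)
def b1_10 : Bx := Bx.mk (St.mk (I.pos (nat_lit 178257920) (nat_lit 219824128)) (I.mix (nat_lit 19775488) (nat_lit 33914880)) (I.mix (nat_lit 10420224) (nat_lit 61374464)) (I.pos (nat_lit 122699776) (nat_lit 189743104)) (I.mix (nat_lit 92585984) (nat_lit 48676864)) (I.mix (nat_lit 107724800) (nat_lit 54099968)) (I.mix (nat_lit 132218880) (nat_lit 59604992)))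
  false (nat_lit 0)
def b1_11 : Bx := Bx.mk (St.mk (I.pos (nat_lit 190218240) (nat_lit 240451584)) (I.pos (nat_lit 11583488) (nat_lit 49987584)) (I.pos (nat_lit 21905408) (nat_lit 88276992)) (I.pos (nat_lit 162824192) (nat_lit 222658560)) (I.mix (nat_lit 78741504) (nat_lit 52264960)) (I.mix (nat_lit 71237632) (nat_lit 51167232)) (I.mix (nat_lit 109461504) (nat_lit 64159744)))
  false (nat_lit 38772917)
def t1 : BTr := (BTr.n (BTr.n (BTr.n (BTr.b b1_0) (BTr.n (BTr.b b1_1) (BTr.b b1_2))) (BTr.n (BTr.b b1_3) (BTr.n (BTr.b b1_4) (BTr.b b1_5)))) (BTr.n (BTr.n (BTr.b b1_6) (BTr.n (BTr.b b1_7) (BTr.b b1_8))) (BTr.n (BTr.b b1_9) (BTr.n (BTr.b b1_10) (BTr.b b1_11)))))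
namespace T1
def l0 : Tr := Tr.L (Pth.l (Pth.l (Pth.l Pth.z)))
def l1 : Tr := Tr.L (Pth.l (Pth.l (Pth.r (Pth.l Pth.z))))
def l2 : Tr := Tr.L (Pth.l (Pth.l (Pth.r (Pth.r Pth.z))))
def l3 : Tr := Tr.L (Pth.l (Pth.r (Pth.l Pth.z)))
def l4 : Tr := Tr.L (Pth.l (Pth.r (Pth.r (Pth.l Pth.z))))
def l5 : Tr := Tr.L (Pth.l (Pth.r (Pth.r (Pth.r Pth.z))))
def l6 : Tr := Tr.L (Pth.r (Pth.l (Pth.l Pth.z)))
def l7 : Tr := Tr.L (Pth.r (Pth.l (Pth.r (Pth.l Pth.z))))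
def l8 : Tr := Tr.L (Pth.r (Pth.l (Pth.r (Pth.r Pth.z))))
def l9 : Tr := Tr.L (Pth.r (Pth.r (Pth.l Pth.z)))
def l10 : Tr := Tr.L (Pth.r (Pth.r (Pth.r (Pth.l Pth.z))))
def l11 : Tr := Tr.L (Pth.r (Pth.r (Pth.r (Pth.r Pth.z))))
end T1
def b2_0 : Bx := Bx.mk (St.mk (I.pos (nat_lit 156057600) (nat_lit 239894528)) (I.mix (nat_lit 3571712) (nat_lit 58392576)) (I.mix (nat_lit 5619712) (nat_lit 94666752)) (I.pos (nat_lit 135004160) (nat_lit 270942208)) (I.mix (nat_lit 84672512) (nat_lit 45957120)) (I.mix (nat_lit 59801600) (nat_lit 47824896)) (I.mix (nat_lit 81788928) (nat_lit 62586880)))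
  false (nat_lit 75461570)
def b2_1 : Bx := Bx.mk (St.mk (I.mix (nat_lit 48480256) (nat_lit 127434752)) (I.mix (nat_lit 10027008) (nat_lit 40009728)) (I.mix (nat_lit 17383424) (nat_lit 25837568)) (I.pos (nat_lit 31637504) (nat_lit 119504896)) (I.mix (nat_lit 39141376) (nat_lit 38879232)) (I.mix (nat_lit 38338560) (nat_lit 24313856)) (I.mix (nat_lit 28049408) (nat_lit 16236544)))
  false (nat_lit 0)
def b2_2 : Bx := Bx.mk (St.mk (I.pos (nat_lit 89997312) (nat_lit 147275776)) (I.mix (nat_lit 61243392) (nat_lit 11894784)) (I.mix (nat_lit 62177280) (nat_lit 4243456)) (I.pos (nat_lit 75956224) (nat_lit 143294464)) (I.mix (nat_lit 76660736) (nat_lit 25231360)) (I.mix (nat_lit 32227328) (nat_lit 71155712)) (I.mix (nat_lit 23248896) (nat_lit 55148544)))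
  false (nat_lit 0)
def b2_3 : Bx := Bx.mk (St.mk (I.mix (nat_lit 40812544) (nat_lit 75137024)) (I.mix (nat_lit 30834688) (nat_lit 5734400)) (I.mix (nat_lit 18481152) (nat_lit 3899392)) (I.pos (nat_lit 39780352) (nat_lit 82984960)) (I.mix (nat_lit 30916608) (nat_lit 16056320)) (I.mix (nat_lit 13336576) (nat_lit 28721152)) (I.mix (nat_lit 7929856) (nat_lit 11239424)))
  false (nat_lit 0)
def b2_4 : Bx := Bx.mk (St.mk (I.pos (nat_lit 95256576) (nat_lit 179879936)) (I.mix (nat_lit 65961984) (nat_lit 3457024)) (I.mix (nat_lit 66158592) (nat_lit 4046848)) (I.pos (nat_lit 90963968) (nat_lit 183386112)) (I.mix (nat_lit 72368128) (nat_lit 43204608)) (I.mix (nat_lit 39043072) (nat_lit 61833216)) (I.mix (nat_lit 29114368) (nat_lit 58900480)))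
  false (nat_lit 0)
def b2_5 : Bx := Bx.mk (St.mk (I.mix (nat_lit 38764544) (nat_lit 89128960)) (I.mix (nat_lit 35782656) (nat_lit 8929280)) (I.mix (nat_lit 23920640) (nat_lit 5750784)) (I.pos (nat_lit 34816000) (nat_lit 92274688)) (I.mix (nat_lit 31801344) (nat_lit 28311552)) (I.mix (nat_lit 18055168) (nat_lit 31834112)) (I.mix (nat_lit 10649600) (nat_lit 17465344)))
  false (nat_lit 0)
def b2_6 : Bx := Bx.mk (St.mk (I.pos (nat_lit 167788544) (nat_lit 219529216)) (I.mix (nat_lit 10223616) (nat_lit 66224128)) (I.pos (nat_lit 262144) (nat_lit 101138432)) (I.pos (nat_lit 156385280) (nat_lit 241336320)) (I.mix (nat_lit 117686272) (nat_lit 35209216)) (I.mix (nat_lit 109264896) (nat_lit 60850176)) (I.mix (nat_lit 118718464) (nat_lit 58867712)))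
  false (nat_lit 82915007)
def b2_7 : Bx := Bx.mk (St.mk (I.mix (nat_lit 45203456) (nat_lit 119685120)) (I.mix (nat_lit 16007168) (nat_lit 44646400)) (I.mix (nat_lit 20611072) (nat_lit 27197440)) (I.pos (nat_lit 37814272) (nat_lit 109314048)) (I.mix (nat_lit 48611328) (nat_lit 34652160)) (I.mix (nat_lit 48234496) (nat_lit 26836992)) (I.mix (nat_lit 26361856) (nat_lit 15581184)))
  false (nat_lit 0)
def b2_8 : Bx := Bx.mk (St.mk (I.pos (nat_lit 193249280) (nat_lit 289964032)) (I.mix (nat_lit 27377664) (nat_lit 47988736)) (I.mix (nat_lit 80330752) (nat_lit 76365824)) (I.pos (nat_lit 204963840) (nat_lit 374046720)) (I.mix (nat_lit 67665920) (nat_lit 52117504)) (I.mix (nat_lit 56295424) (nat_lit 38895616)) (I.mix (nat_lit 99893248) (nat_lit 72531968)))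
  false (nat_lit 87427015)
def b2_9 : Bx := Bx.mk (St.mk (I.pos (nat_lit 143654912) (nat_lit 212353024)) (I.mix (nat_lit 42205184) (nat_lit 27525120)) (I.mix (nat_lit 44728320) (nat_lit 49168384)) (I.pos (nat_lit 125992960) (nat_lit 226459648)) (I.mix (nat_lit 49610752) (nat_lit 43139072)) (I.mix (nat_lit 50184192) (nat_lit 45416448)) (I.mix (nat_lit 50774016) (nat_lit 47120384)))
  false (nat_lit 0)
def b2_10 : Bx := Bx.mk (St.mk (I.pos (nat_lit 168886272) (nat_lit 214843392)) (I.mix (nat_lit 16744448) (nat_lit 41877504)) (I.mix (nat_lit 7028736) (nat_lit 69369856)) (I.pos (nat_lit 159006720) (nat_lit 227524608)) (I.mix (nat_lit 100335616) (nat_lit 50659328)) (I.mix (nat_lit 116817920) (nat_lit 54427648)) (I.mix (nat_lit 128909312) (nat_lit 55066624)))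
  false (nat_lit 0)
def b2_11 : Bx := Bx.mk (St.mk (I.pos (nat_lit 184844288) (nat_lit 239075328)) (I.pos (nat_lit 8355840) (nat_lit 57606144)) (I.pos (nat_lit 10289152) (nat_lit 93372416)) (I.pos (nat_lit 200409088) (nat_lit 265453568)) (I.mix (nat_lit 77676544) (nat_lit 57229312)) (I.mix (nat_lit 70041600) (nat_lit 51429376)) (I.mix (nat_lit 103956480) (nat_lit 63979520)))
  false (nat_lit 56990561)
def t2 : BTr := (BTr.n (BTr.n (BTr.n (BTr.b b2_0) (BTr.n (BTr.b b2_1) (BTr.b b2_2))) (BTr.n (BTr.b b2_3) (BTr.n (BTr.b b2_4) (BTr.b b2_5)))) (BTr.n (BTr.n (BTr.b b2_6) (BTr.n (BTr.b b2_7) (BTr.b b2_8))) (BTr.n (BTr.b b2_9) (BTr.n (BTr.b b2_10) (BTr.b b2_11)))))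
namespace T2
def l0 : Tr := Tr.L (Pth.l (Pth.l (Pth.l Pth.z)))
def l1 : Tr := Tr.L (Pth.l (Pth.l (Pth.r (Pth.l Pth.z))))
def l2 : Tr := Tr.L (Pth.l (Pth.l (Pth.r (Pth.r Pth.z))))
def l3 : Tr := Tr.L (Pth.l (Pth.r (Pth.l Pth.z)))
def l4 : Tr := Tr.L (Pth.l (Pth.r (Pth.r (Pth.l Pth.z))))
def l5 : Tr := Tr.L (Pth.l (Pth.r (Pth.r (Pth.r Pth.z))))
def l6 : Tr := Tr.L (Pth.r (Pth.l (Pth.l Pth.z)))
def l7 : Tr := Tr.L (Pth.r (Pth.l (Pth.r (Pth.l Pth.z))))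
def l8 : Tr := Tr.L (Pth.r (Pth.l (Pth.r (Pth.r Pth.z))))
def l9 : Tr := Tr.L (Pth.r (Pth.r (Pth.l Pth.z)))
def l10 : Tr := Tr.L (Pth.r (Pth.r (Pth.r (Pth.l Pth.z))))
def l11 : Tr := Tr.L (Pth.r (Pth.r (Pth.r (Pth.r Pth.z))))
end T2
def b3_0 : Bx := Bx.mk (St.mk (I.pos (nat_lit 155779072) (nat_lit 244809728)) (I.mix (nat_lit 3080192) (nat_lit 49823744)) (I.mix (nat_lit 5832704) (nat_lit 98467840)) (I.pos (nat_lit 88588288) (nat_lit 227950592)) (I.mix (nat_lit 83247104) (nat_lit 43843584)) (I.mix (nat_lit 62488576) (nat_lit 46563328)) (I.mix (nat_lit 88883200) (nat_lit 60309504)))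
  false (nat_lit 48525638)
def b3_1 : Bx := Bx.mk (St.mk (I.pos (nat_lit 115998720) (nat_lit 192020480)) (I.mix (nat_lit 55951360) (nat_lit 1933312)) (I.mix (nat_lit 54706176) (nat_lit 8650752)) (I.pos (nat_lit 67534848) (nat_lit 152256512)) (I.mix (nat_lit 68141056) (nat_lit 36487168)) (I.mix (nat_lit 35504128) (nat_lit 51838976)) (I.mix (nat_lit 29769728) (nat_lit 53608448)))
  false (nat_lit 0)
def b3_2 : Bx := Bx.mk (St.mk (I.mix (nat_lit 34308096) (nat_lit 124223488)) (I.mix (nat_lit 30277632) (nat_lit 8912896)) (I.mix (nat_lit 21544960) (nat_lit 8421376)) (I.mix (nat_lit 4505600) (nat_lit 69894144)) (I.mix (nat_lit 30736384) (nat_lit 23625728)) (I.mix (nat_lit 18333696) (nat_lit 24870912)) (I.mix (nat_lit 11862016) (nat_lit 17743872)))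
  false (nat_lit 0)
def b3_3 : Bx := Bx.mk (St.mk (I.pos (nat_lit 176963584) (nat_lit 222871552)) (I.mix (nat_lit 16678912) (nat_lit 57671680)) (I.pos (nat_lit 884736) (nat_lit 102383616)) (I.pos (nat_lit 117751808) (nat_lit 199262208)) (I.mix (nat_lit 124960768) (nat_lit 39419904)) (I.mix (nat_lit 123977728) (nat_lit 63733760)) (I.mix (nat_lit 152829952) (nat_lit 64421888)))
  false (nat_lit 15667081)
def b3_4 : Bx := Bx.mk (St.mk (I.mix (nat_lit 23674880) (nat_lit 145031168)) (I.mix (nat_lit 15286272) (nat_lit 38748160)) (I.mix (nat_lit 10878976) (nat_lit 35405824)) (I.mix (nat_lit 5472256) (nat_lit 86835200)) (I.mix (nat_lit 53100544) (nat_lit 28786688)) (I.mix (nat_lit 46137344) (nat_lit 28082176)) (I.mix (nat_lit 34291712) (nat_lit 19021824)))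
  false (nat_lit 0)
def b3_5 : Bx := Bx.mk (St.mk (I.pos (nat_lit 156368896) (nat_lit 218988544)) (I.mix (nat_lit 43843584) (nat_lit 21200896)) (I.mix (nat_lit 41517056) (nat_lit 49037312)) (I.pos (nat_lit 96862208) (nat_lit 188383232)) (I.mix (nat_lit 49315840) (nat_lit 48742400)) (I.mix (nat_lit 51363840) (nat_lit 47775744)) (I.mix (nat_lit 54411264) (nat_lit 51429376)))
  false (nat_lit 0)
def b3_6 : Bx := Bx.mk (St.mk (I.pos (nat_lit 176406528) (nat_lit 218267648)) (I.mix (nat_lit 19431424) (nat_lit 32210944)) (I.mix (nat_lit 3112960) (nat_lit 66224128)) (I.pos (nat_lit 120635392) (nat_lit 186073088)) (I.mix (nat_lit 89653248) (nat_lit 45383680)) (I.mix (nat_lit 99139584) (nat_lit 48578560)) (I.mix (nat_lit 119324672) (nat_lit 52248576)))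
  false (nat_lit 0)
def b3_7 : Bx := Bx.mk (St.mk (I.mix (nat_lit 46415872) (nat_lit 150323200)) (I.mix (nat_lit 8077312) (nat_lit 30932992)) (I.mix (nat_lit 8093696) (nat_lit 33095680)) (I.mix (nat_lit 5898240) (nat_lit 94486528)) (I.mix (nat_lit 41107456) (nat_lit 29949952)) (I.mix (nat_lit 33112064) (nat_lit 23576576)) (I.mix (nat_lit 29229056) (nat_lit 19955712)))
  false (nat_lit 0)
def b3_8 : Bx := Bx.mk (St.mk (I.pos (nat_lit 114196480) (nat_lit 166576128)) (I.mix (nat_lit 55574528) (nat_lit 10338304)) (I.mix (nat_lit 55951360) (nat_lit 13631488)) (I.pos (nat_lit 50774016) (nat_lit 119029760)) (I.mix (nat_lit 77578240) (nat_lit 25542656)) (I.mix (nat_lit 32882688) (nat_lit 70434816)) (I.mix (nat_lit 27426816) (nat_lit 64290816)))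
  false (nat_lit 0)
def b3_9 : Bx := Bx.mk (St.mk (I.mix (nat_lit 15335424) (nat_lit 109953024)) (I.mix (nat_lit 19136512) (nat_lit 1638400)) (I.mix (nat_lit 13615104) (nat_lit 5079040)) (I.mix (nat_lit 3899392) (nat_lit 59080704)) (I.mix (nat_lit 27787264) (nat_lit 15269888)) (I.mix (nat_lit 11501568) (nat_lit 28196864)) (I.mix (nat_lit 6815744) (nat_lit 17399808)))
  false (nat_lit 0)
def b3_10 : Bx := Bx.mk (St.mk (I.pos (nat_lit 205570048) (nat_lit 288849920)) (I.mix (nat_lit 23216128) (nat_lit 40910848)) (I.mix (nat_lit 45629440) (nat_lit 86179840)) (I.pos (nat_lit 176291840) (nat_lit 326238208)) (I.mix (nat_lit 60178432) (nat_lit 49381376)) (I.mix (nat_lit 50348032) (nat_lit 37191680)) (I.mix (nat_lit 87801856) (nat_lit 61259776)))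
  false (nat_lit 55568001)
def b3_11 : Bx := Bx.mk (St.mk (I.pos (nat_lit 190742528) (nat_lit 241893376)) (I.pos (nat_lit 5144576) (nat_lit 47513600)) (I.pos (nat_lit 17612800) (nat_lit 93814784)) (I.pos (nat_lit 160317440) (nat_lit 221970432)) (I.mix (nat_lit 78135296) (nat_lit 56836096)) (I.mix (nat_lit 73826304) (nat_lit 56311808)) (I.mix (nat_lit 111886336) (nat_lit 73695232)))
  false (nat_lit 40723792)
def t3 : BTr := (BTr.n (BTr.n (BTr.n (BTr.b b3_0) (BTr.n (BTr.b b3_1) (BTr.b b3_2))) (BTr.n (BTr.b b3_3) (BTr.n (BTr.b b3_4) (BTr.b b3_5)))) (BTr.n (BTr.n (BTr.b b3_6) (BTr.n (BTr.b b3_7) (BTr.b b3_8))) (BTr.n (BTr.b b3_9) (BTr.n (BTr.b b3_10) (BTr.b b3_11)))))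
namespace T3
def l0 : Tr := Tr.L (Pth.l (Pth.l (Pth.l Pth.z)))
def l1 : Tr := Tr.L (Pth.l (Pth.l (Pth.r (Pth.l Pth.z))))
def l2 : Tr := Tr.L (Pth.l (Pth.l (Pth.r (Pth.r Pth.z))))
def l3 : Tr := Tr.L (Pth.l (Pth.r (Pth.l Pth.z)))
def l4 : Tr := Tr.L (Pth.l (Pth.r (Pth.r (Pth.l Pth.z))))
def l5 : Tr := Tr.L (Pth.l (Pth.r (Pth.r (Pth.r Pth.z))))
def l6 : Tr := Tr.L (Pth.r (Pth.l (Pth.l Pth.z)))
def l7 : Tr := Tr.L (Pth.r (Pth.l (Pth.r (Pth.l Pth.z))))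
def l8 : Tr := Tr.L (Pth.r (Pth.l (Pth.r (Pth.r Pth.z))))
def l9 : Tr := Tr.L (Pth.r (Pth.r (Pth.l Pth.z)))
def l10 : Tr := Tr.L (Pth.r (Pth.r (Pth.r (Pth.l Pth.z))))
def l11 : Tr := Tr.L (Pth.r (Pth.r (Pth.r (Pth.r Pth.z))))
end T3
def b4_0 : Bx := Bx.mk (St.mk (I.pos (nat_lit 156073984) (nat_lit 239419392)) (I.mix (nat_lit 3489792) (nat_lit 57049088)) (I.mix (nat_lit 5963776) (nat_lit 100859904)) (I.pos (nat_lit 134758400) (nat_lit 267649024)) (I.mix (nat_lit 86261760) (nat_lit 46333952)) (I.mix (nat_lit 61833216) (nat_lit 48758784)) (I.mix (nat_lit 85327872) (nat_lit 63078400)))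
  false (nat_lit 59649323)
def b4_1 : Bx := Bx.mk (St.mk (I.pos (nat_lit 97583104) (nat_lit 180551680)) (I.mix (nat_lit 65912832) (nat_lit 1327104)) (I.mix (nat_lit 62046208) (nat_lit 10829824)) (I.pos (nat_lit 92930048) (nat_lit 183664640)) (I.mix (nat_lit 69828608) (nat_lit 40353792)) (I.mix (nat_lit 36356096) (nat_lit 55410688)) (I.mix (nat_lit 26574848) (nat_lit 52068352)))
  false (nat_lit 0)
def b4_2 : Bx := Bx.mk (St.mk (I.mix (nat_lit 37076992) (nat_lit 89735168)) (I.mix (nat_lit 36028416) (nat_lit 8486912)) (I.mix (nat_lit 20578304) (nat_lit 8863744)) (I.pos (nat_lit 35274752) (nat_lit 92241920)) (I.mix (nat_lit 29769728) (nat_lit 28327936)) (I.mix (nat_lit 17842176) (nat_lit 28852224)) (I.mix (nat_lit 9519104) (nat_lit 15515648)))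
  false (nat_lit 0)
def b4_3 : Bx := Bx.mk (St.mk (I.pos (nat_lit 165199872) (nat_lit 218087424)) (I.mix (nat_lit 13615104) (nat_lit 65142784)) (I.pos (nat_lit 3899392) (nat_lit 106659840)) (I.pos (nat_lit 148750336) (nat_lit 237486080)) (I.mix (nat_lit 120586240) (nat_lit 35684352)) (I.mix (nat_lit 113590272) (nat_lit 62095360)) (I.mix (nat_lit 126173184) (nat_lit 58654720)))
  false (nat_lit 67786147)
def b4_4 : Bx := Bx.mk (St.mk (I.mix (nat_lit 45268992) (nat_lit 117948416)) (I.mix (nat_lit 15630336) (nat_lit 44711936)) (I.mix (nat_lit 15958016) (nat_lit 30556160)) (I.pos (nat_lit 37568512) (nat_lit 108609536)) (I.mix (nat_lit 48201728) (nat_lit 32210944)) (I.mix (nat_lit 46333952) (nat_lit 27377664)) (I.mix (nat_lit 25313280) (nat_lit 15482880)))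
  false (nat_lit 0)
def b4_5 : Bx := Bx.mk (St.mk (I.mix (nat_lit 50397184) (nat_lit 127156224)) (I.mix (nat_lit 9601024) (nat_lit 39813120)) (I.mix (nat_lit 13336576) (nat_lit 30326784)) (I.pos (nat_lit 31113216) (nat_lit 119406592)) (I.mix (nat_lit 41271296) (nat_lit 39206912)) (I.mix (nat_lit 41648128) (nat_lit 24674304)) (I.mix (nat_lit 30310400) (nat_lit 18071552)))
  false (nat_lit 0)
def b4_6 : Bx := Bx.mk (St.mk (I.pos (nat_lit 90112000) (nat_lit 149225472)) (I.mix (nat_lit 62259200) (nat_lit 11665408)) (I.mix (nat_lit 58474496) (nat_lit 8552448)) (I.pos (nat_lit 76382208) (nat_lit 145211392)) (I.mix (nat_lit 76382208) (nat_lit 26509312)) (I.mix (nat_lit 33357824) (nat_lit 74088448)) (I.mix (nat_lit 24002560) (nat_lit 56475648)))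
  false (nat_lit 0)
def b4_7 : Bx := Bx.mk (St.mk (I.mix (nat_lit 40419328) (nat_lit 71565312)) (I.mix (nat_lit 27574272) (nat_lit 5455872)) (I.mix (nat_lit 14712832) (nat_lit 5947392)) (I.pos (nat_lit 40452096) (nat_lit 81133568)) (I.mix (nat_lit 30998528) (nat_lit 17088512)) (I.mix (nat_lit 13844480) (nat_lit 29769728)) (I.mix (nat_lit 8224768) (nat_lit 11354112)))
  false (nat_lit 0)
def b4_8 : Bx := Bx.mk (St.mk (I.pos (nat_lit 144588800) (nat_lit 212156416)) (I.mix (nat_lit 43532288) (nat_lit 26607616)) (I.mix (nat_lit 39665664) (nat_lit 55132160)) (I.pos (nat_lit 126861312) (nat_lit 224362496)) (I.mix (nat_lit 52854784) (nat_lit 46530560)) (I.mix (nat_lit 50757632) (nat_lit 46366720)) (I.mix (nat_lit 51216384) (nat_lit 47448064)))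
  false (nat_lit 0)
def b4_9 : Bx := Bx.mk (St.mk (I.pos (nat_lit 200540160) (nat_lit 291061760)) (I.mix (nat_lit 27049984) (nat_lit 48807936)) (I.mix (nat_lit 67584000) (nat_lit 88457216)) (I.pos (nat_lit 212942848) (nat_lit 374374400)) (I.mix (nat_lit 63062016) (nat_lit 53919744)) (I.mix (nat_lit 55640064) (nat_lit 38977536)) (I.mix (nat_lit 98058240) (nat_lit 65929216)))
  false (nat_lit 76876243)
def b4_10 : Bx := Bx.mk (St.mk (I.pos (nat_lit 182992896) (nat_lit 234029056)) (I.pos (nat_lit 14893056) (nat_lit 55951360)) (I.pos (nat_lit 28639232) (nat_lit 98746368)) (I.pos (nat_lit 196362240) (nat_lit 255623168)) (I.mix (nat_lit 81362944) (nat_lit 61833216)) (I.mix (nat_lit 76349440) (nat_lit 55689216)) (I.mix (nat_lit 113852416) (nat_lit 67387392)))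
  false (nat_lit 33761880)
def b4_11 : Bx := Bx.mk (St.mk (I.pos (nat_lit 167297024) (nat_lit 213843968)) (I.mix (nat_lit 18956288) (nat_lit 41795584)) (I.mix (nat_lit 3325952) (nat_lit 76070912)) (I.pos (nat_lit 154992640) (nat_lit 229048320)) (I.mix (nat_lit 96829440) (nat_lit 46710784)) (I.mix (nat_lit 104824832) (nat_lit 51838976)) (I.mix (nat_lit 115736576) (nat_lit 52363264)))
  false (nat_lit 0)
def t4 : BTr := (BTr.n (BTr.n (BTr.n (BTr.b b4_0) (BTr.n (BTr.b b4_1) (BTr.b b4_2))) (BTr.n (BTr.b b4_3) (BTr.n (BTr.b b4_4) (BTr.b b4_5)))) (BTr.n (BTr.n (BTr.b b4_6) (BTr.n (BTr.b b4_7) (BTr.b b4_8))) (BTr.n (BTr.b b4_9) (BTr.n (BTr.b b4_10) (BTr.b b4_11)))))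
namespace T4
def l0 : Tr := Tr.L (Pth.l (Pth.l (Pth.l Pth.z)))
def l1 : Tr := Tr.L (Pth.l (Pth.l (Pth.r (Pth.l Pth.z))))
def l2 : Tr := Tr.L (Pth.l (Pth.l (Pth.r (Pth.r Pth.z))))
def l3 : Tr := Tr.L (Pth.l (Pth.r (Pth.l Pth.z)))
def l4 : Tr := Tr.L (Pth.l (Pth.r (Pth.r (Pth.l Pth.z))))
def l5 : Tr := Tr.L (Pth.l (Pth.r (Pth.r (Pth.r Pth.z))))
def l6 : Tr := Tr.L (Pth.r (Pth.l (Pth.l Pth.z)))
def l7 : Tr := Tr.L (Pth.r (Pth.l (Pth.r (Pth.l Pth.z))))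
def l8 : Tr := Tr.L (Pth.r (Pth.l (Pth.r (Pth.r Pth.z))))
def l9 : Tr := Tr.L (Pth.r (Pth.r (Pth.l Pth.z)))
def l10 : Tr := Tr.L (Pth.r (Pth.r (Pth.r (Pth.l Pth.z))))
def l11 : Tr := Tr.L (Pth.r (Pth.r (Pth.r (Pth.r Pth.z))))
end T4
def b5_0 : Bx := Bx.mk (St.mk (I.pos (nat_lit 155992064) (nat_lit 241074176)) (I.mix (nat_lit 3129344) (nat_lit 50675712)) (I.mix (nat_lit 5914624) (nat_lit 99745792)) (I.pos (nat_lit 107954176) (nat_lit 241369088)) (I.mix (nat_lit 85082112) (nat_lit 44072960)) (I.mix (nat_lit 62980096) (nat_lit 48103424)) (I.mix (nat_lit 88752128) (nat_lit 59916288)))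
  false (nat_lit 28597306)
def b5_1 : Bx := Bx.mk (St.mk (I.pos (nat_lit 108625920) (nat_lit 187875328)) (I.mix (nat_lit 59637760) (nat_lit 475136)) (I.mix (nat_lit 54132736) (nat_lit 13041664)) (I.pos (nat_lit 78708736) (nat_lit 164921344)) (I.mix (nat_lit 69287936) (nat_lit 37060608)) (I.mix (nat_lit 34930688) (nat_lit 50200576)) (I.mix (nat_lit 27262976) (nat_lit 49741824)))
  false (nat_lit 0)
def b5_2 : Bx := Bx.mk (St.mk (I.mix (nat_lit 34537472) (nat_lit 110297088)) (I.mix (nat_lit 32538624) (nat_lit 7520256)) (I.mix (nat_lit 19660800) (nat_lit 10190848)) (I.pos (nat_lit 11517952) (nat_lit 78462976)) (I.mix (nat_lit 29245440) (nat_lit 25591808)) (I.mix (nat_lit 16678912) (nat_lit 25313280)) (I.mix (nat_lit 9928704) (nat_lit 15630336)))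
  false (nat_lit 0)
def b5_3 : Bx := Bx.mk (St.mk (I.pos (nat_lit 172572672) (nat_lit 220545024)) (I.mix (nat_lit 15089664) (nat_lit 60915712)) (I.pos (nat_lit 4620288) (nat_lit 107872256)) (I.pos (nat_lit 130269184) (nat_lit 213729280)) (I.mix (nat_lit 127467520) (nat_lit 38289408)) (I.mix (nat_lit 125026304) (nat_lit 63799296)) (I.mix (nat_lit 149061632) (nat_lit 61882368)))
  false (nat_lit 54765170)
def b5_4 : Bx := Bx.mk (St.mk (I.mix (nat_lit 32997376) (nat_lit 132612096)) (I.mix (nat_lit 15335424) (nat_lit 41025536)) (I.mix (nat_lit 10256384) (nat_lit 35012608)) (I.pos (nat_lit 12566528) (nat_lit 94912512)) (I.mix (nat_lit 52396032) (nat_lit 27164672)) (I.mix (nat_lit 45596672) (nat_lit 27639808)) (I.mix (nat_lit 29868032) (nat_lit 17055744)))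
  false (nat_lit 0)
def b5_5 : Bx := Bx.mk (St.mk (I.pos (nat_lit 151846912) (nat_lit 215810048)) (I.mix (nat_lit 44580864) (nat_lit 22740992)) (I.mix (nat_lit 38617088) (nat_lit 54460416)) (I.pos (nat_lit 109543424) (nat_lit 202227712)) (I.mix (nat_lit 51544064) (nat_lit 50511872)) (I.mix (nat_lit 52576256) (nat_lit 50511872)) (I.mix (nat_lit 54820864) (nat_lit 52854784)))
  false (nat_lit 4204651)
def b5_6 : Bx := Bx.mk (St.mk (I.pos (nat_lit 172376064) (nat_lit 215072768)) (I.mix (nat_lit 18399232) (nat_lit 35176448)) (I.pos (nat_lit 491520) (nat_lit 72515584)) (I.pos (nat_lit 133545984) (nat_lit 199770112)) (I.mix (nat_lit 92782592) (nat_lit 45514752)) (I.mix (nat_lit 100712448) (nat_lit 47644672)) (I.mix (nat_lit 117768192) (nat_lit 49283072)))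
  false (nat_lit 0)
def b5_7 : Bx := Bx.mk (St.mk (I.mix (nat_lit 49070080) (nat_lit 140460032)) (I.mix (nat_lit 8732672) (nat_lit 34390016)) (I.mix (nat_lit 8110080) (nat_lit 34406400)) (I.pos (nat_lit 8749056) (nat_lit 104398848)) (I.mix (nat_lit 42598400) (nat_lit 32325632)) (I.mix (nat_lit 35864576) (nat_lit 24051712)) (I.mix (nat_lit 29392896) (nat_lit 19759104)))
  false (nat_lit 0)
def b5_8 : Bx := Bx.mk (St.mk (I.pos (nat_lit 104202240) (nat_lit 160169984)) (I.mix (nat_lit 58458112) (nat_lit 11042816)) (I.mix (nat_lit 54689792) (nat_lit 14073856)) (I.pos (nat_lit 61112320) (nat_lit 130252800)) (I.mix (nat_lit 73973760) (nat_lit 25608192)) (I.mix (nat_lit 31834112) (nat_lit 72040448)) (I.mix (nat_lit 24313856) (nat_lit 60030976)))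
  false (nat_lit 0)
def b5_9 : Bx := Bx.mk (St.mk (I.pos (nat_lit 201555968) (nat_lit 290816000)) (I.mix (nat_lit 24559616) (nat_lit 45039616)) (I.mix (nat_lit 47841280) (nat_lit 94044160)) (I.pos (nat_lit 188170240) (nat_lit 347144192)) (I.mix (nat_lit 62160896) (nat_lit 52150272)) (I.mix (nat_lit 51298304) (nat_lit 38060032)) (I.mix (nat_lit 88834048) (nat_lit 63766528)))
  false (nat_lit 46706499)
def b5_10 : Bx := Bx.mk (St.mk (I.pos (nat_lit 186433536) (nat_lit 239828992)) (I.pos (nat_lit 5980160) (nat_lit 50610176)) (I.pos (nat_lit 20185088) (nat_lit 99549184)) (I.pos (nat_lit 173113344) (nat_lit 236158976)) (I.mix (nat_lit 78610432) (nat_lit 59146240)) (I.mix (nat_lit 76939264) (nat_lit 58179584)) (I.mix (nat_lit 116178944) (nat_lit 74153984)))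
  false (nat_lit 16011529)
def b5_11 : Bx := Bx.mk (St.mk (I.mix (nat_lit 22315008) (nat_lit 93536256)) (I.neg (nat_lit 786432) (nat_lit 20742144)) (I.mix (nat_lit 12468224) (nat_lit 6488064)) (I.pos (nat_lit 14909440) (nat_lit 66748416)) (I.mix (nat_lit 28753920) (nat_lit 16105472)) (I.mix (nat_lit 13008896) (nat_lit 28639232)) (I.mix (nat_lit 6553600) (nat_lit 14647296)))
  false (nat_lit 0)
def t5 : BTr := (BTr.n (BTr.n (BTr.n (BTr.b b5_0) (BTr.n (BTr.b b5_1) (BTr.b b5_2))) (BTr.n (BTr.b b5_3) (BTr.n (BTr.b b5_4) (BTr.b b5_5)))) (BTr.n (BTr.n (BTr.b b5_6) (BTr.n (BTr.b b5_7) (BTr.b b5_8))) (BTr.n (BTr.b b5_9) (BTr.n (BTr.b b5_10) (BTr.b b5_11)))))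
namespace T5
def l0 : Tr := Tr.L (Pth.l (Pth.l (Pth.l Pth.z)))
def l1 : Tr := Tr.L (Pth.l (Pth.l (Pth.r (Pth.l Pth.z))))
def l2 : Tr := Tr.L (Pth.l (Pth.l (Pth.r (Pth.r Pth.z))))
def l3 : Tr := Tr.L (Pth.l (Pth.r (Pth.l Pth.z)))
def l4 : Tr := Tr.L (Pth.l (Pth.r (Pth.r (Pth.l Pth.z))))
def l5 : Tr := Tr.L (Pth.l (Pth.r (Pth.r (Pth.r Pth.z))))
def l6 : Tr := Tr.L (Pth.r (Pth.l (Pth.l Pth.z)))
def l7 : Tr := Tr.L (Pth.r (Pth.l (Pth.r (Pth.l Pth.z))))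
def l8 : Tr := Tr.L (Pth.r (Pth.l (Pth.r (Pth.r Pth.z))))
def l9 : Tr := Tr.L (Pth.r (Pth.r (Pth.l Pth.z)))
def l10 : Tr := Tr.L (Pth.r (Pth.r (Pth.r (Pth.l Pth.z))))
def l11 : Tr := Tr.L (Pth.r (Pth.r (Pth.r (Pth.r Pth.z))))
end T5
theorem bx0_0 : BoxOK sI cl7 cl9 cl13 t2 t4 b0_0 :=
  box_mk (TrL.c (I.pos (nat_lit 0) (nat_lit 0)) (xa (xb T2.l0 (xa (xb T2.l0 T2.l0) T2.l0)) (xa (xb T2.l0 T2.l0) T2.l0))
  (TrL.c (I.pos (nat_lit 0) (nat_lit 0)) T4.l1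
  (TrL.c (I.pos (nat_lit 0) (nat_lit 111196574)) T2.l1
  (TrL.c (I.pos (nat_lit 0) (nat_lit 77433728)) T4.l2
  (TrL.c (I.pos (nat_lit 0) (nat_lit 0)) (xa T4.l3 (xk T4.l3 T4.l3))
  (TrL.c (I.pos (nat_lit 0) (nat_lit 0)) T2.l2
  (TrL.c (I.mix (nat_lit 29511666) (nat_lit 77433728)) T4.l4
  (TrL.c (I.mix (nat_lit 29511666) (nat_lit 46070178)) T2.l3
  TrL.n)))))))) (by decide +kernel)
theorem bx0_1 : BoxOK sI cl7 cl9 cl13 t2 t4 b0_1 :=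
  box_mk (TrL.c (I.pos (nat_lit 0) (nat_lit 0)) (xa (xa (xb T2.l8 (xa T2.l8 T2.l8)) T2.l8) (xa T2.l8 T2.l8))
  (TrL.c (I.pos (nat_lit 0) (nat_lit 0)) T4.l1
  (TrL.c (I.pos (nat_lit 0) (nat_lit 111196574)) T2.l1
  (TrL.c (I.pos (nat_lit 0) (nat_lit 77433728)) T4.l2
  (TrL.c (I.pos (nat_lit 0) (nat_lit 0)) (xa T4.l8 T4.l8)
  (TrL.c (I.pos (nat_lit 0) (nat_lit 0)) T2.l2
  (TrL.c (I.mix (nat_lit 29511666) (nat_lit 77433728)) T4.l4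
  (TrL.c (I.mix (nat_lit 29511666) (nat_lit 46070178)) T2.l3
  TrL.n)))))))) (by decide +kernel)
theorem bx0_2 : BoxOK sI cl7 cl9 cl13 t2 t4 b0_2 :=
  box_mk (TrL.c (I.pos (nat_lit 0) (nat_lit 0)) (xb T2.l8 T2.l8)
  (TrL.c (I.pos (nat_lit 0) (nat_lit 0)) T4.l1
  (TrL.c (I.pos (nat_lit 0) (nat_lit 111196574)) T2.l1
  (TrL.c (I.pos (nat_lit 0) (nat_lit 77433728)) T4.l2
  (TrL.c (I.pos (nat_lit 0) (nat_lit 0)) (xb T4.l8 T4.l8)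
  (TrL.c (I.pos (nat_lit 0) (nat_lit 0)) T2.l2
  (TrL.c (I.mix (nat_lit 29511666) (nat_lit 77433728)) T4.l4
  (TrL.c (I.mix (nat_lit 29511666) (nat_lit 46070178)) T2.l3
  TrL.n)))))))) (by decide +kernel)
theorem bx0_3 : BoxOK sI cl7 cl9 cl13 t2 t4 b0_3 :=
  box_mk (TrL.c (I.pos (nat_lit 0) (nat_lit 0)) T2.l8
  (TrL.c (I.pos (nat_lit 0) (nat_lit 0)) T4.l1
  (TrL.c (I.pos (nat_lit 0) (nat_lit 111196574)) T2.l1
  (TrL.c (I.pos (nat_lit 0) (nat_lit 77433728)) T4.l2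
  (TrL.c (I.pos (nat_lit 0) (nat_lit 0)) T4.l8
  (TrL.c (I.pos (nat_lit 0) (nat_lit 0)) T2.l2
  (TrL.c (I.mix (nat_lit 29511666) (nat_lit 77433728)) T4.l4
  (TrL.c (I.mix (nat_lit 29511666) (nat_lit 46070178)) T2.l3
  TrL.n)))))))) (by decide +kernel)
theorem bx0_4 : BoxOK sI cl7 cl9 cl13 t2 t4 b0_4 :=
  box_mk (TrL.c (I.pos (nat_lit 0) (nat_lit 0)) (xa (xb T2.l0 (xa T2.l0 T2.l0)) (xb T2.l0 (xa T2.l0 T2.l0)))
  (TrL.c (I.pos (nat_lit 0) (nat_lit 0)) T4.l6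
  (TrL.c (I.pos (nat_lit 0) (nat_lit 111196574)) T2.l1
  (TrL.c (I.pos (nat_lit 0) (nat_lit 77433728)) T4.l2
  (TrL.c (I.pos (nat_lit 0) (nat_lit 0)) (xa (xb (xk (xa T4.l3 T4.l3) (xa T4.l3 T4.l3)) T4.l3) (xb (xk (xa T4.l3 T4.l3) (xa T4.l3 T4.l3)) (xk (xa T4.l3 T4.l3) (xa T4.l3 T4.l3))))
  (TrL.c (I.pos (nat_lit 0) (nat_lit 0)) (xk T2.l2 T2.l2)
  (TrL.c (I.mix (nat_lit 29511666) (nat_lit 77433728)) T4.l4
  (TrL.c (I.mix (nat_lit 29511666) (nat_lit 46070178)) T2.l5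
  TrL.n)))))))) (by decide +kernel)
theorem bx0_5 : BoxOK sI cl7 cl9 cl13 t2 t4 b0_5 :=
  box_mk (TrL.c (I.pos (nat_lit 0) (nat_lit 0)) (xa T2.l8 T2.l0)
  (TrL.c (I.pos (nat_lit 0) (nat_lit 0)) T4.l1
  (TrL.c (I.pos (nat_lit 0) (nat_lit 111196574)) T2.l1
  (TrL.c (I.pos (nat_lit 0) (nat_lit 77433728)) T4.l2
  (TrL.c (I.pos (nat_lit 0) (nat_lit 0)) (xa (xb T4.l8 T4.l8) (xb (xk T4.l11 T4.l11) T4.l11))
  (TrL.c (I.pos (nat_lit 0) (nat_lit 0)) T2.l2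
  (TrL.c (I.mix (nat_lit 29511666) (nat_lit 77433728)) T4.l4
  (TrL.c (I.mix (nat_lit 29511666) (nat_lit 46070178)) T2.l3
  TrL.n)))))))) (by decide +kernel)
theorem bx0_6 : BoxOK sI cl7 cl9 cl13 t2 t4 b0_6 :=
  box_mk (TrL.c (I.pos (nat_lit 0) (nat_lit 0)) (xa (xa (xb (xa T2.l8 T2.l8) T2.l8) T2.l8) T2.l8)
  (TrL.c (I.pos (nat_lit 0) (nat_lit 0)) T4.l1
  (TrL.c (I.pos (nat_lit 0) (nat_lit 111196574)) T2.l1
  (TrL.c (I.pos (nat_lit 0) (nat_lit 77433728)) T4.l2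
  (TrL.c (I.pos (nat_lit 0) (nat_lit 0)) (xa T4.l8 T4.l8)
  (TrL.c (I.pos (nat_lit 0) (nat_lit 0)) T2.l2
  (TrL.c (I.mix (nat_lit 29511666) (nat_lit 77433728)) T4.l4
  (TrL.c (I.mix (nat_lit 29511666) (nat_lit 46070178)) T2.l3
  TrL.n)))))))) (by decide +kernel)
theorem bx0_7 : BoxOK sI cl7 cl9 cl13 t2 t4 b0_7 :=
  box_mk (TrL.c (I.pos (nat_lit 0) (nat_lit 0)) (xb (xa (xb T2.l11 T2.l11) (xb T2.l11 T2.l11)) (xa (xb (xa T2.l11 T2.l11) (xa T2.l11 T2.l11)) (xb T2.l11 (xa T2.l11 T2.l11))))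
  (TrL.c (I.pos (nat_lit 0) (nat_lit 0)) T4.l1
  (TrL.c (I.pos (nat_lit 0) (nat_lit 111196574)) T2.l1
  (TrL.c (I.pos (nat_lit 0) (nat_lit 77433728)) T4.l2
  (TrL.c (I.pos (nat_lit 0) (nat_lit 0)) (xb (xk (xa T4.l11 T4.l11) (xa T4.l11 T4.l11)) (xk (xa T4.l11 (xb T4.l11 T4.l3)) (xa T4.l11 (xb T4.l3 T4.l3))))
  (TrL.c (I.pos (nat_lit 0) (nat_lit 0)) T2.l2
  (TrL.c (I.mix (nat_lit 29511666) (nat_lit 77433728)) T4.l4
  (TrL.c (I.mix (nat_lit 29511666) (nat_lit 46070178)) T2.l3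
  TrL.n)))))))) (by decide +kernel)
theorem bx0_8 : BoxOK sI cl7 cl9 cl13 t2 t4 b0_8 :=
  box_mk (TrL.c (I.pos (nat_lit 0) (nat_lit 0)) (xa (xa (xb (xa T2.l8 T2.l8) (xa T2.l8 T2.l8)) (xb T2.l8 T2.l8)) (xa T2.l8 T2.l8))
  (TrL.c (I.pos (nat_lit 0) (nat_lit 0)) T4.l1
  (TrL.c (I.pos (nat_lit 0) (nat_lit 111196574)) T2.l1
  (TrL.c (I.pos (nat_lit 0) (nat_lit 77433728)) T4.l2
  (TrL.c (I.pos (nat_lit 0) (nat_lit 0)) (xa T4.l8 T4.l8)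
  (TrL.c (I.pos (nat_lit 0) (nat_lit 0)) T2.l2
  (TrL.c (I.mix (nat_lit 29511666) (nat_lit 77433728)) T4.l4
  (TrL.c (I.mix (nat_lit 29511666) (nat_lit 46070178)) T2.l3
  TrL.n)))))))) (by decide +kernel)
theorem bx0_9 : BoxOK sI cl7 cl9 cl13 t2 t4 b0_9 :=
  box_mk (TrL.c (I.pos (nat_lit 0) (nat_lit 0)) (xa T2.l0 T2.l0)
  (TrL.c (I.pos (nat_lit 0) (nat_lit 0)) T4.l1
  (TrL.c (I.pos (nat_lit 0) (nat_lit 111196574)) T2.l1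
  (TrL.c (I.pos (nat_lit 0) (nat_lit 77433728)) T4.l2
  (TrL.c (I.pos (nat_lit 0) (nat_lit 0)) T4.l3
  (TrL.c (I.pos (nat_lit 0) (nat_lit 0)) T2.l2
  (TrL.c (I.mix (nat_lit 29511666) (nat_lit 77433728)) T4.l4
  (TrL.c (I.mix (nat_lit 29511666) (nat_lit 46070178)) T2.l5
  TrL.n)))))))) (by decide +kernel)
theorem bx0_10 : BoxOK sI cl7 cl9 cl13 t2 t4 b0_10 :=
  box_mk (TrL.c (I.pos (nat_lit 0) (nat_lit 0)) (xa T2.l11 T2.l11)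
  (TrL.c (I.pos (nat_lit 0) (nat_lit 0)) T4.l1
  (TrL.c (I.pos (nat_lit 0) (nat_lit 111196574)) T2.l1
  (TrL.c (I.pos (nat_lit 0) (nat_lit 77433728)) T4.l2
  (TrL.c (I.pos (nat_lit 0) (nat_lit 0)) (xb (xa T4.l11 T4.l11) T4.l11)
  (TrL.c (I.pos (nat_lit 0) (nat_lit 0)) T2.l2
  (TrL.c (I.mix (nat_lit 29511666) (nat_lit 77433728)) T4.l4
  (TrL.c (I.mix (nat_lit 29511666) (nat_lit 46070178)) T2.l3
  TrL.n)))))))) (by decide +kernel)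
theorem bx0_11 : BoxOK sI cl7 cl9 cl13 t2 t4 b0_11 :=
  box_mk (TrL.c (I.pos (nat_lit 0) (nat_lit 0)) (xb (xa T2.l11 T2.l11) (xa T2.l11 T2.l11))
  (TrL.c (I.pos (nat_lit 0) (nat_lit 0)) T4.l1
  (TrL.c (I.pos (nat_lit 0) (nat_lit 111196574)) T2.l1
  (TrL.c (I.pos (nat_lit 0) (nat_lit 77433728)) T4.l2
  (TrL.c (I.pos (nat_lit 0) (nat_lit 0)) (xk (xb T4.l11 T4.l11) (xb T4.l11 T4.l11))
  (TrL.c (I.pos (nat_lit 0) (nat_lit 0)) T2.l2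
  (TrL.c (I.mix (nat_lit 29511666) (nat_lit 77433728)) T4.l4
  (TrL.c (I.mix (nat_lit 29511666) (nat_lit 46070178)) T2.l3
  TrL.n)))))))) (by decide +kernel)
theorem sv0 : StarV sI cl7 cl9 cl13 t2 t4 t0 :=
  (bt_n (bt_n (bt_n (bt_b bx0_0) (bt_n (bt_b bx0_1) (bt_b bx0_2))) (bt_n (bt_b bx0_3) (bt_n (bt_b bx0_4) (bt_b bx0_5)))) (bt_n (bt_n (bt_b bx0_6) (bt_n (bt_b bx0_7) (bt_b bx0_8))) (bt_n (bt_b bx0_9) (bt_n (bt_b bx0_10) (bt_b bx0_11)))))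
def S0 : StarD := StarD.mk cl7 cl9 cl13 2 4 t0
theorem bx1_0 : BoxOK sI cl7 cl13 cl9 t4 t2 b1_0 :=
  box_mk (TrL.c (I.pos (nat_lit 0) (nat_lit 0)) (xa (xa (xb T4.l0 (xb T4.l0 T4.l0)) T4.l10) (xa (xb T4.l0 T4.l0) (xb T4.l0 T4.l0)))
  (TrL.c (I.pos (nat_lit 0) (nat_lit 0)) T2.l4
  (TrL.c (I.pos (nat_lit 0) (nat_lit 111196574)) T4.l5
  (TrL.c (I.pos (nat_lit 0) (nat_lit 77433728)) T2.l5
  (TrL.c (I.pos (nat_lit 0) (nat_lit 0)) (xa (xk T2.l6 T2.l6) (xk T2.l6 T2.l6))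
  (TrL.c (I.pos (nat_lit 0) (nat_lit 0)) T4.l6
  (TrL.c (I.mix (nat_lit 29511666) (nat_lit 77433728)) T2.l7
  (TrL.c (I.mix (nat_lit 29511666) (nat_lit 46070178)) T4.l7
  TrL.n)))))))) (by decide +kernel)
theorem bx1_1 : BoxOK sI cl7 cl13 cl9 t4 t2 b1_1 :=
  box_mk (TrL.c (I.pos (nat_lit 0) (nat_lit 0)) (xa (xa (xa T4.l9 T4.l9) T4.l9) (xa T4.l9 T4.l9))
  (TrL.c (I.pos (nat_lit 0) (nat_lit 0)) (xa T2.l4 T2.l4)
  (TrL.c (I.pos (nat_lit 0) (nat_lit 111196574)) T4.l5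
  (TrL.c (I.pos (nat_lit 0) (nat_lit 77433728)) T2.l5
  (TrL.c (I.pos (nat_lit 0) (nat_lit 0)) (xa T2.l9 T2.l9)
  (TrL.c (I.pos (nat_lit 0) (nat_lit 0)) T4.l6
  (TrL.c (I.mix (nat_lit 29511666) (nat_lit 77433728)) T2.l7
  (TrL.c (I.mix (nat_lit 29511666) (nat_lit 46070178)) T4.l7
  TrL.n)))))))) (by decide +kernel)
theorem bx1_2 : BoxOK sI cl7 cl13 cl9 t4 t2 b1_2 :=
  box_mk (TrL.c (I.pos (nat_lit 0) (nat_lit 0)) (xb T4.l9 T4.l9)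
  (TrL.c (I.pos (nat_lit 0) (nat_lit 0)) T2.l4
  (TrL.c (I.pos (nat_lit 0) (nat_lit 111196574)) T4.l5
  (TrL.c (I.pos (nat_lit 0) (nat_lit 77433728)) T2.l5
  (TrL.c (I.pos (nat_lit 0) (nat_lit 0)) (xb (xa T2.l9 T2.l9) (xk T2.l9 T2.l9))
  (TrL.c (I.pos (nat_lit 0) (nat_lit 0)) T4.l6
  (TrL.c (I.mix (nat_lit 29511666) (nat_lit 77433728)) T2.l7
  (TrL.c (I.mix (nat_lit 29511666) (nat_lit 46070178)) T4.l7
  TrL.n)))))))) (by decide +kernel)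
theorem bx1_3 : BoxOK sI cl7 cl13 cl9 t4 t2 b1_3 :=
  box_mk (TrL.c (I.pos (nat_lit 0) (nat_lit 0)) T4.l9
  (TrL.c (I.pos (nat_lit 0) (nat_lit 0)) T2.l4
  (TrL.c (I.pos (nat_lit 0) (nat_lit 111196574)) T4.l5
  (TrL.c (I.pos (nat_lit 0) (nat_lit 77433728)) T2.l5
  (TrL.c (I.pos (nat_lit 0) (nat_lit 0)) (xa T2.l9 T2.l9)
  (TrL.c (I.pos (nat_lit 0) (nat_lit 0)) T4.l6
  (TrL.c (I.mix (nat_lit 29511666) (nat_lit 77433728)) T2.l7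
  (TrL.c (I.mix (nat_lit 29511666) (nat_lit 46070178)) T4.l7
  TrL.n)))))))) (by decide +kernel)
theorem bx1_4 : BoxOK sI cl7 cl13 cl9 t4 t2 b1_4 :=
  box_mk (TrL.c (I.pos (nat_lit 0) (nat_lit 0)) (xa (xb T4.l0 T4.l0) (xb T4.l0 (xa T4.l0 T4.l0)))
  (TrL.c (I.pos (nat_lit 0) (nat_lit 0)) T2.l2
  (TrL.c (I.pos (nat_lit 0) (nat_lit 111196574)) T4.l5
  (TrL.c (I.pos (nat_lit 0) (nat_lit 77433728)) T2.l5
  (TrL.c (I.pos (nat_lit 0) (nat_lit 0)) (xa (xb (xk (xa T2.l6 T2.l6) T2.l6) T2.l6) (xb (xk (xa T2.l6 T2.l6) (xa T2.l6 T2.l6)) (xk (xa T2.l6 T2.l6) (xa T2.l6 T2.l6))))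
  (TrL.c (I.pos (nat_lit 0) (nat_lit 0)) T4.l6
  (TrL.c (I.mix (nat_lit 29511666) (nat_lit 77433728)) (xR T2.l7 T2.l7)
  (TrL.c (I.mix (nat_lit 29511666) (nat_lit 46070178)) T4.l2
  TrL.n)))))))) (by decide +kernel)
theorem bx1_5 : BoxOK sI cl7 cl13 cl9 t4 t2 b1_5 :=
  box_mk (TrL.c (I.pos (nat_lit 0) (nat_lit 0)) (xa (xb T4.l9 T4.l9) T4.l0)
  (TrL.c (I.pos (nat_lit 0) (nat_lit 0)) T2.l4
  (TrL.c (I.pos (nat_lit 0) (nat_lit 111196574)) T4.l5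
  (TrL.c (I.pos (nat_lit 0) (nat_lit 77433728)) T2.l5
  (TrL.c (I.pos (nat_lit 0) (nat_lit 0)) (xa (xb T2.l9 T2.l9) (xb (xk T2.l9 T2.l9) T2.l10))
  (TrL.c (I.pos (nat_lit 0) (nat_lit 0)) T4.l6
  (TrL.c (I.mix (nat_lit 29511666) (nat_lit 77433728)) T2.l7
  (TrL.c (I.mix (nat_lit 29511666) (nat_lit 46070178)) T4.l7
  TrL.n)))))))) (by decide +kernel)
theorem bx1_6 : BoxOK sI cl7 cl13 cl9 t4 t2 b1_6 :=
  box_mk (TrL.c (I.pos (nat_lit 0) (nat_lit 0)) (xa (xa (xb (xa T4.l9 T4.l9) T4.l9) T4.l9) T4.l9)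
  (TrL.c (I.pos (nat_lit 0) (nat_lit 0)) T2.l4
  (TrL.c (I.pos (nat_lit 0) (nat_lit 111196574)) T4.l5
  (TrL.c (I.pos (nat_lit 0) (nat_lit 77433728)) T2.l5
  (TrL.c (I.pos (nat_lit 0) (nat_lit 0)) (xa T2.l9 T2.l9)
  (TrL.c (I.pos (nat_lit 0) (nat_lit 0)) T4.l6
  (TrL.c (I.mix (nat_lit 29511666) (nat_lit 77433728)) T2.l7
  (TrL.c (I.mix (nat_lit 29511666) (nat_lit 46070178)) T4.l7
  TrL.n)))))))) (by decide +kernel)
theorem bx1_7 : BoxOK sI cl7 cl13 cl9 t4 t2 b1_7 :=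
  box_mk (TrL.c (I.pos (nat_lit 0) (nat_lit 0)) (xb (xa (xb T4.l10 T4.l10) (xb T4.l10 T4.l10)) (xa (xb (xa T4.l10 T4.l10) (xa T4.l10 T4.l10)) (xb T4.l10 (xa T4.l10 T4.l10))))
  (TrL.c (I.pos (nat_lit 0) (nat_lit 0)) T2.l4
  (TrL.c (I.pos (nat_lit 0) (nat_lit 111196574)) T4.l5
  (TrL.c (I.pos (nat_lit 0) (nat_lit 77433728)) T2.l5
  (TrL.c (I.pos (nat_lit 0) (nat_lit 0)) (xb (xk T2.l10 T2.l10) (xk (xa T2.l10 (xb T2.l10 T2.l10)) (xa T2.l10 (xb T2.l10 T2.l10))))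
  (TrL.c (I.pos (nat_lit 0) (nat_lit 0)) T4.l6
  (TrL.c (I.mix (nat_lit 29511666) (nat_lit 77433728)) T2.l7
  (TrL.c (I.mix (nat_lit 29511666) (nat_lit 46070178)) T4.l7
  TrL.n)))))))) (by decide +kernel)
theorem bx1_8 : BoxOK sI cl7 cl13 cl9 t4 t2 b1_8 :=
  box_mk (TrL.c (I.pos (nat_lit 0) (nat_lit 0)) (xa (xa (xb T4.l9 (xa T4.l9 T4.l9)) (xb T4.l9 T4.l9)) (xa T4.l9 T4.l9))
  (TrL.c (I.pos (nat_lit 0) (nat_lit 0)) (xa T2.l4 T2.l4)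
  (TrL.c (I.pos (nat_lit 0) (nat_lit 111196574)) T4.l5
  (TrL.c (I.pos (nat_lit 0) (nat_lit 77433728)) T2.l5
  (TrL.c (I.pos (nat_lit 0) (nat_lit 0)) (xa T2.l9 T2.l9)
  (TrL.c (I.pos (nat_lit 0) (nat_lit 0)) T4.l6
  (TrL.c (I.mix (nat_lit 29511666) (nat_lit 77433728)) T2.l7
  (TrL.c (I.mix (nat_lit 29511666) (nat_lit 46070178)) T4.l7
  TrL.n)))))))) (by decide +kernel)
theorem bx1_9 : BoxOK sI cl7 cl13 cl9 t4 t2 b1_9 :=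
  box_mk (TrL.c (I.pos (nat_lit 0) (nat_lit 0)) (xa T4.l0 T4.l0)
  (TrL.c (I.pos (nat_lit 0) (nat_lit 0)) T2.l4
  (TrL.c (I.pos (nat_lit 0) (nat_lit 111196574)) T4.l5
  (TrL.c (I.pos (nat_lit 0) (nat_lit 77433728)) T2.l5
  (TrL.c (I.pos (nat_lit 0) (nat_lit 0)) (xa (xb (xk T2.l10 T2.l10) T2.l10) (xb (xk T2.l10 T2.l10) T2.l10))
  (TrL.c (I.pos (nat_lit 0) (nat_lit 0)) T4.l6
  (TrL.c (I.mix (nat_lit 29511666) (nat_lit 77433728)) T2.l7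
  (TrL.c (I.mix (nat_lit 29511666) (nat_lit 46070178)) T4.l7
  TrL.n)))))))) (by decide +kernel)
theorem bx1_10 : BoxOK sI cl7 cl13 cl9 t4 t2 b1_10 :=
  box_mk (TrL.c (I.pos (nat_lit 0) (nat_lit 0)) (xb T4.l10 T4.l10)
  (TrL.c (I.pos (nat_lit 0) (nat_lit 0)) T2.l4
  (TrL.c (I.pos (nat_lit 0) (nat_lit 111196574)) T4.l5
  (TrL.c (I.pos (nat_lit 0) (nat_lit 77433728)) T2.l5
  (TrL.c (I.pos (nat_lit 0) (nat_lit 0)) (xb (xk T2.l10 T2.l10) T2.l10)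
  (TrL.c (I.pos (nat_lit 0) (nat_lit 0)) T4.l6
  (TrL.c (I.mix (nat_lit 29511666) (nat_lit 77433728)) T2.l7
  (TrL.c (I.mix (nat_lit 29511666) (nat_lit 46070178)) T4.l7
  TrL.n)))))))) (by decide +kernel)
theorem bx1_11 : BoxOK sI cl7 cl13 cl9 t4 t2 b1_11 :=
  box_mk (TrL.c (I.pos (nat_lit 0) (nat_lit 0)) (xa T4.l0 T4.l0)
  (TrL.c (I.pos (nat_lit 0) (nat_lit 0)) T2.l4
  (TrL.c (I.pos (nat_lit 0) (nat_lit 111196574)) T4.l5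
  (TrL.c (I.pos (nat_lit 0) (nat_lit 77433728)) T2.l5
  (TrL.c (I.pos (nat_lit 0) (nat_lit 0)) (xk T2.l6 T2.l6)
  (TrL.c (I.pos (nat_lit 0) (nat_lit 0)) T4.l6
  (TrL.c (I.mix (nat_lit 29511666) (nat_lit 77433728)) T2.l7
  (TrL.c (I.mix (nat_lit 29511666) (nat_lit 46070178)) T4.l2
  TrL.n)))))))) (by decide +kernel)
theorem sv1 : StarV sI cl7 cl13 cl9 t4 t2 t1 :=
  (bt_n (bt_n (bt_n (bt_b bx1_0) (bt_n (bt_b bx1_1) (bt_b bx1_2))) (bt_n (bt_b bx1_3) (bt_n (bt_b bx1_4) (bt_b bx1_5)))) (bt_n (bt_n (bt_b bx1_6) (bt_n (bt_b bx1_7) (bt_b bx1_8))) (bt_n (bt_b bx1_9) (bt_n (bt_b bx1_10) (bt_b bx1_11)))))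
def S1 : StarD := StarD.mk cl7 cl13 cl9 4 2 t1
theorem bx2_0 : BoxOK sI cl9 cl7 cl13 t0 t5 b2_0 :=
  box_mk (TrL.c (I.pos (nat_lit 0) (nat_lit 0)) (xa (xb T0.l0 (xa T0.l0 T0.l0)) (xb T0.l0 T0.l0))
  (TrL.c (I.pos (nat_lit 0) (nat_lit 0)) T5.l1
  (TrL.c (I.pos (nat_lit 0) (nat_lit 124588530)) T0.l1
  (TrL.c (I.pos (nat_lit 0) (nat_lit 96881482)) T5.l2
  (TrL.c (I.pos (nat_lit 0) (nat_lit 0)) (xa T5.l3 T5.l3)
  (TrL.c (I.pos (nat_lit 0) (nat_lit 0)) T0.l2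
  (TrL.c (I.mix (nat_lit 17240550) (nat_lit 96881482)) T5.l4
  (TrL.c (I.mix (nat_lit 17240550) (nat_lit 71940500)) T0.l3
  TrL.n)))))))) (by decide +kernel)
theorem bx2_1 : BoxOK sI cl9 cl7 cl13 t0 t5 b2_1 :=
  box_mk (TrL.c (I.pos (nat_lit 0) (nat_lit 0)) (xa (xa (xb (xa T0.l4 T0.l4) (xa T0.l4 T0.l4)) T0.l4) (xa T0.l4 T0.l4))
  (TrL.c (I.pos (nat_lit 0) (nat_lit 0)) T5.l1
  (TrL.c (I.pos (nat_lit 0) (nat_lit 124588530)) T0.l1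
  (TrL.c (I.pos (nat_lit 0) (nat_lit 96881482)) T5.l2
  (TrL.c (I.pos (nat_lit 0) (nat_lit 0)) (xa T5.l5 T5.l5)
  (TrL.c (I.pos (nat_lit 0) (nat_lit 0)) T0.l2
  (TrL.c (I.mix (nat_lit 17240550) (nat_lit 96881482)) T5.l4
  (TrL.c (I.mix (nat_lit 17240550) (nat_lit 71940500)) T0.l3
  TrL.n)))))))) (by decide +kernel)
theorem bx2_2 : BoxOK sI cl9 cl7 cl13 t0 t5 b2_2 :=
  box_mk (TrL.c (I.pos (nat_lit 0) (nat_lit 0)) (xb T0.l4 T0.l4)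
  (TrL.c (I.pos (nat_lit 0) (nat_lit 0)) T5.l1
  (TrL.c (I.pos (nat_lit 0) (nat_lit 124588530)) T0.l1
  (TrL.c (I.pos (nat_lit 0) (nat_lit 96881482)) T5.l2
  (TrL.c (I.pos (nat_lit 0) (nat_lit 0)) T5.l5
  (TrL.c (I.pos (nat_lit 0) (nat_lit 0)) T0.l2
  (TrL.c (I.mix (nat_lit 17240550) (nat_lit 96881482)) T5.l4
  (TrL.c (I.mix (nat_lit 17240550) (nat_lit 71940500)) T0.l3
  TrL.n)))))))) (by decide +kernel)
theorem bx2_3 : BoxOK sI cl9 cl7 cl13 t0 t5 b2_3 :=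
  box_mk (TrL.c (I.pos (nat_lit 0) (nat_lit 0)) (xa (xa (xb T0.l4 T0.l4) T0.l4) T0.l4)
  (TrL.c (I.pos (nat_lit 0) (nat_lit 0)) T5.l1
  (TrL.c (I.pos (nat_lit 0) (nat_lit 124588530)) T0.l1
  (TrL.c (I.pos (nat_lit 0) (nat_lit 96881482)) T5.l2
  (TrL.c (I.pos (nat_lit 0) (nat_lit 0)) T5.l5
  (TrL.c (I.pos (nat_lit 0) (nat_lit 0)) T0.l2
  (TrL.c (I.mix (nat_lit 17240550) (nat_lit 96881482)) T5.l4
  (TrL.c (I.mix (nat_lit 17240550) (nat_lit 71940500)) T0.l3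
  TrL.n)))))))) (by decide +kernel)
theorem bx2_4 : BoxOK sI cl9 cl7 cl13 t0 t5 b2_4 :=
  box_mk (TrL.c (I.pos (nat_lit 0) (nat_lit 0)) (xa (xb T0.l4 T0.l4) T0.l0)
  (TrL.c (I.pos (nat_lit 0) (nat_lit 0)) T5.l1
  (TrL.c (I.pos (nat_lit 0) (nat_lit 124588530)) T0.l1
  (TrL.c (I.pos (nat_lit 0) (nat_lit 96881482)) T5.l2
  (TrL.c (I.pos (nat_lit 0) (nat_lit 0)) (xa T5.l5 (xb (xk T5.l5 T5.l5) T5.l5))
  (TrL.c (I.pos (nat_lit 0) (nat_lit 0)) T0.l2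
  (TrL.c (I.mix (nat_lit 17240550) (nat_lit 96881482)) T5.l4
  (TrL.c (I.mix (nat_lit 17240550) (nat_lit 71940500)) T0.l3
  TrL.n)))))))) (by decide +kernel)
theorem bx2_5 : BoxOK sI cl9 cl7 cl13 t0 t5 b2_5 :=
  box_mk (TrL.c (I.pos (nat_lit 0) (nat_lit 0)) (xa (xa (xb (xa T0.l4 T0.l4) T0.l4) T0.l4) T0.l4)
  (TrL.c (I.pos (nat_lit 0) (nat_lit 0)) T5.l1
  (TrL.c (I.pos (nat_lit 0) (nat_lit 124588530)) T0.l1
  (TrL.c (I.pos (nat_lit 0) (nat_lit 96881482)) T5.l2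
  (TrL.c (I.pos (nat_lit 0) (nat_lit 0)) T5.l5
  (TrL.c (I.pos (nat_lit 0) (nat_lit 0)) T0.l2
  (TrL.c (I.mix (nat_lit 17240550) (nat_lit 96881482)) T5.l4
  (TrL.c (I.mix (nat_lit 17240550) (nat_lit 71940500)) T0.l3
  TrL.n)))))))) (by decide +kernel)
theorem bx2_6 : BoxOK sI cl9 cl7 cl13 t0 t5 b2_6 :=
  box_mk (TrL.c (I.pos (nat_lit 0) (nat_lit 0)) (xb (xa T0.l9 T0.l9) (xa (xb T0.l9 (xa T0.l9 T0.l9)) (xb T0.l9 (xa T0.l9 T0.l9))))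
  (TrL.c (I.pos (nat_lit 0) (nat_lit 0)) T5.l1
  (TrL.c (I.pos (nat_lit 0) (nat_lit 124588530)) T0.l1
  (TrL.c (I.pos (nat_lit 0) (nat_lit 96881482)) T5.l2
  (TrL.c (I.pos (nat_lit 0) (nat_lit 0)) (xb (xk (xa T5.l6 T5.l6) T5.l6) (xk T5.l3 T5.l3))
  (TrL.c (I.pos (nat_lit 0) (nat_lit 0)) T0.l2
  (TrL.c (I.mix (nat_lit 17240550) (nat_lit 96881482)) T5.l4
  (TrL.c (I.mix (nat_lit 17240550) (nat_lit 71940500)) T0.l6
  TrL.n)))))))) (by decide +kernel)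
theorem bx2_7 : BoxOK sI cl9 cl7 cl13 t0 t5 b2_7 :=
  box_mk (TrL.c (I.pos (nat_lit 0) (nat_lit 0)) (xa (xa (xb (xa T0.l4 T0.l4) (xa T0.l4 T0.l4)) (xb T0.l4 T0.l4)) (xa T0.l4 T0.l4))
  (TrL.c (I.pos (nat_lit 0) (nat_lit 0)) T5.l1
  (TrL.c (I.pos (nat_lit 0) (nat_lit 124588530)) T0.l1
  (TrL.c (I.pos (nat_lit 0) (nat_lit 96881482)) T5.l2
  (TrL.c (I.pos (nat_lit 0) (nat_lit 0)) (xa T5.l5 T5.l5)
  (TrL.c (I.pos (nat_lit 0) (nat_lit 0)) T0.l2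
  (TrL.c (I.mix (nat_lit 17240550) (nat_lit 96881482)) T5.l4
  (TrL.c (I.mix (nat_lit 17240550) (nat_lit 71940500)) T0.l3
  TrL.n)))))))) (by decide +kernel)
theorem bx2_8 : BoxOK sI cl9 cl7 cl13 t0 t5 b2_8 :=
  box_mk (TrL.c (I.pos (nat_lit 0) (nat_lit 0)) (xa (xb T0.l0 (xa T0.l0 T0.l0)) (xb T0.l0 (xa T0.l0 T0.l0)))
  (TrL.c (I.pos (nat_lit 0) (nat_lit 0)) T5.l8
  (TrL.c (I.pos (nat_lit 0) (nat_lit 124588530)) (xR T0.l1 T0.l1)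
  (TrL.c (I.pos (nat_lit 0) (nat_lit 96881482)) T5.l2
  (TrL.c (I.pos (nat_lit 0) (nat_lit 0)) (xa (xb (xk (xa T5.l3 T5.l3) (xa T5.l3 T5.l3)) T5.l3) (xb (xk (xa T5.l3 T5.l3) (xa T5.l3 T5.l3)) (xk (xa T5.l3 T5.l3) (xa T5.l3 T5.l3))))
  (TrL.c (I.pos (nat_lit 0) (nat_lit 0)) (xa T0.l2 (xk T0.l2 T0.l2))
  (TrL.c (I.mix (nat_lit 17240550) (nat_lit 96881482)) T5.l4
  (TrL.c (I.mix (nat_lit 17240550) (nat_lit 71940500)) T0.l6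
  TrL.n)))))))) (by decide +kernel)
theorem bx2_9 : BoxOK sI cl9 cl7 cl13 t0 t5 b2_9 :=
  box_mk (TrL.c (I.pos (nat_lit 0) (nat_lit 0)) (xa T0.l0 T0.l0)
  (TrL.c (I.pos (nat_lit 0) (nat_lit 0)) T5.l1
  (TrL.c (I.pos (nat_lit 0) (nat_lit 124588530)) T0.l1
  (TrL.c (I.pos (nat_lit 0) (nat_lit 96881482)) T5.l2
  (TrL.c (I.pos (nat_lit 0) (nat_lit 0)) (xa (xb T5.l5 T5.l6) (xb (xk T5.l6 T5.l6) T5.l6))
  (TrL.c (I.pos (nat_lit 0) (nat_lit 0)) T0.l2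
  (TrL.c (I.mix (nat_lit 17240550) (nat_lit 96881482)) T5.l4
  (TrL.c (I.mix (nat_lit 17240550) (nat_lit 71940500)) T0.l3
  TrL.n)))))))) (by decide +kernel)
theorem bx2_10 : BoxOK sI cl9 cl7 cl13 t0 t5 b2_10 :=
  box_mk (TrL.c (I.pos (nat_lit 0) (nat_lit 0)) (xb T0.l9 T0.l9)
  (TrL.c (I.pos (nat_lit 0) (nat_lit 0)) T5.l1
  (TrL.c (I.pos (nat_lit 0) (nat_lit 124588530)) T0.l1
  (TrL.c (I.pos (nat_lit 0) (nat_lit 96881482)) T5.l2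
  (TrL.c (I.pos (nat_lit 0) (nat_lit 0)) (xk (xb T5.l6 T5.l6) (xb T5.l6 T5.l6))
  (TrL.c (I.pos (nat_lit 0) (nat_lit 0)) T0.l2
  (TrL.c (I.mix (nat_lit 17240550) (nat_lit 96881482)) T5.l4
  (TrL.c (I.mix (nat_lit 17240550) (nat_lit 71940500)) T0.l6
  TrL.n)))))))) (by decide +kernel)
theorem bx2_11 : BoxOK sI cl9 cl7 cl13 t0 t5 b2_11 :=
  box_mk (TrL.c (I.pos (nat_lit 0) (nat_lit 0)) (xa T0.l9 (xb T0.l0 T0.l0))
  (TrL.c (I.pos (nat_lit 0) (nat_lit 0)) T5.l1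
  (TrL.c (I.pos (nat_lit 0) (nat_lit 124588530)) T0.l1
  (TrL.c (I.pos (nat_lit 0) (nat_lit 96881482)) T5.l2
  (TrL.c (I.pos (nat_lit 0) (nat_lit 0)) (xk T5.l3 T5.l3)
  (TrL.c (I.pos (nat_lit 0) (nat_lit 0)) T0.l2
  (TrL.c (I.mix (nat_lit 17240550) (nat_lit 96881482)) T5.l4
  (TrL.c (I.mix (nat_lit 17240550) (nat_lit 71940500)) T0.l3
  TrL.n)))))))) (by decide +kernel)
theorem sv2 : StarV sI cl9 cl7 cl13 t0 t5 t2 :=
  (bt_n (bt_n (bt_n (bt_b bx2_0) (bt_n (bt_b bx2_1) (bt_b bx2_2))) (bt_n (bt_b bx2_3) (bt_n (bt_b bx2_4) (bt_b bx2_5)))) (bt_n (bt_n (bt_b bx2_6) (bt_n (bt_b bx2_7) (bt_b bx2_8))) (bt_n (bt_b bx2_9) (bt_n (bt_b bx2_10) (bt_b bx2_11)))))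
def S2 : StarD := StarD.mk cl9 cl7 cl13 0 5 t2
theorem bx3_0 : BoxOK sI cl9 cl13 cl7 t5 t0 b3_0 :=
  box_mk (TrL.c (I.pos (nat_lit 0) (nat_lit 0)) (xa (xa (xb T5.l0 (xa T5.l0 T5.l0)) T5.l10) (xa (xb T5.l0 T5.l0) T5.l0))
  (TrL.c (I.pos (nat_lit 0) (nat_lit 0)) T0.l5
  (TrL.c (I.pos (nat_lit 0) (nat_lit 124588530)) T5.l7
  (TrL.c (I.pos (nat_lit 0) (nat_lit 96881482)) T0.l6
  (TrL.c (I.pos (nat_lit 0) (nat_lit 0)) (xa (xk T0.l7 T0.l7) (xk T0.l7 T0.l7))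
  (TrL.c (I.pos (nat_lit 0) (nat_lit 0)) T5.l8
  (TrL.c (I.mix (nat_lit 17240550) (nat_lit 96881482)) T0.l8
  (TrL.c (I.mix (nat_lit 17240550) (nat_lit 71940500)) T5.l2
  TrL.n)))))))) (by decide +kernel)
theorem bx3_1 : BoxOK sI cl9 cl13 cl7 t5 t0 b3_1 :=
  box_mk (TrL.c (I.pos (nat_lit 0) (nat_lit 0)) (xa (xb T5.l9 T5.l9) T5.l0)
  (TrL.c (I.pos (nat_lit 0) (nat_lit 0)) T0.l5
  (TrL.c (I.pos (nat_lit 0) (nat_lit 124588530)) T5.l7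
  (TrL.c (I.pos (nat_lit 0) (nat_lit 96881482)) T0.l6
  (TrL.c (I.pos (nat_lit 0) (nat_lit 0)) (xa (xb T0.l10 T0.l10) (xb (xk T0.l10 T0.l10) T0.l10))
  (TrL.c (I.pos (nat_lit 0) (nat_lit 0)) T5.l8
  (TrL.c (I.mix (nat_lit 17240550) (nat_lit 96881482)) T0.l8
  (TrL.c (I.mix (nat_lit 17240550) (nat_lit 71940500)) T5.l2
  TrL.n)))))))) (by decide +kernel)
theorem bx3_2 : BoxOK sI cl9 cl13 cl7 t5 t0 b3_2 :=
  box_mk (TrL.c (I.pos (nat_lit 0) (nat_lit 0)) (xa (xa (xb (xa T5.l9 T5.l9) T5.l9) T5.l9) T5.l9)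
  (TrL.c (I.pos (nat_lit 0) (nat_lit 0)) T0.l5
  (TrL.c (I.pos (nat_lit 0) (nat_lit 124588530)) T5.l7
  (TrL.c (I.pos (nat_lit 0) (nat_lit 96881482)) T0.l6
  (TrL.c (I.pos (nat_lit 0) (nat_lit 0)) (xa T0.l10 T0.l10)
  (TrL.c (I.pos (nat_lit 0) (nat_lit 0)) T5.l8
  (TrL.c (I.mix (nat_lit 17240550) (nat_lit 96881482)) T0.l8
  (TrL.c (I.mix (nat_lit 17240550) (nat_lit 71940500)) T5.l2
  TrL.n)))))))) (by decide +kernel)
theorem bx3_3 : BoxOK sI cl9 cl13 cl7 t5 t0 b3_3 :=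
  box_mk (TrL.c (I.pos (nat_lit 0) (nat_lit 0)) (xb (xa (xb T5.l10 T5.l10) (xb T5.l10 T5.l10)) (xa (xb T5.l10 (xs T5.l10 T5.l10)) (xb T5.l10 (xs T5.l10 T5.l10))))
  (TrL.c (I.pos (nat_lit 0) (nat_lit 0)) T0.l5
  (TrL.c (I.pos (nat_lit 0) (nat_lit 124588530)) (xR T5.l7 T5.l7)
  (TrL.c (I.pos (nat_lit 0) (nat_lit 96881482)) T0.l6
  (TrL.c (I.pos (nat_lit 0) (nat_lit 0)) (xb (xk T0.l11 T0.l11) (xk (xa T0.l11 (xb T0.l11 T0.l11)) (xa T0.l11 (xb T0.l11 T0.l11))))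
  (TrL.c (I.pos (nat_lit 0) (nat_lit 0)) T5.l8
  (TrL.c (I.mix (nat_lit 17240550) (nat_lit 96881482)) T0.l8
  (TrL.c (I.mix (nat_lit 17240550) (nat_lit 71940500)) T5.l11
  TrL.n)))))))) (by decide +kernel)
theorem bx3_4 : BoxOK sI cl9 cl13 cl7 t5 t0 b3_4 :=
  box_mk (TrL.c (I.pos (nat_lit 0) (nat_lit 0)) (xa (xa (xb T5.l9 (xa T5.l9 T5.l9)) T5.l9) (xa T5.l9 T5.l9))
  (TrL.c (I.pos (nat_lit 0) (nat_lit 0)) (xa T0.l5 T0.l5)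
  (TrL.c (I.pos (nat_lit 0) (nat_lit 124588530)) T5.l7
  (TrL.c (I.pos (nat_lit 0) (nat_lit 96881482)) T0.l6
  (TrL.c (I.pos (nat_lit 0) (nat_lit 0)) (xa T0.l10 T0.l10)
  (TrL.c (I.pos (nat_lit 0) (nat_lit 0)) T5.l8
  (TrL.c (I.mix (nat_lit 17240550) (nat_lit 96881482)) T0.l8
  (TrL.c (I.mix (nat_lit 17240550) (nat_lit 71940500)) T5.l2
  TrL.n)))))))) (by decide +kernel)
theorem bx3_5 : BoxOK sI cl9 cl13 cl7 t5 t0 b3_5 :=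
  box_mk (TrL.c (I.pos (nat_lit 0) (nat_lit 0)) (xa T5.l10 T5.l0)
  (TrL.c (I.pos (nat_lit 0) (nat_lit 0)) T0.l5
  (TrL.c (I.pos (nat_lit 0) (nat_lit 124588530)) T5.l7
  (TrL.c (I.pos (nat_lit 0) (nat_lit 96881482)) T0.l6
  (TrL.c (I.pos (nat_lit 0) (nat_lit 0)) (xa (xb (xk T0.l11 T0.l11) T0.l11) (xb (xk T0.l11 T0.l11) T0.l11))
  (TrL.c (I.pos (nat_lit 0) (nat_lit 0)) T5.l8
  (TrL.c (I.mix (nat_lit 17240550) (nat_lit 96881482)) T0.l8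
  (TrL.c (I.mix (nat_lit 17240550) (nat_lit 71940500)) T5.l11
  TrL.n)))))))) (by decide +kernel)
theorem bx3_6 : BoxOK sI cl9 cl13 cl7 t5 t0 b3_6 :=
  box_mk (TrL.c (I.pos (nat_lit 0) (nat_lit 0)) (xb T5.l10 T5.l10)
  (TrL.c (I.pos (nat_lit 0) (nat_lit 0)) T0.l5
  (TrL.c (I.pos (nat_lit 0) (nat_lit 124588530)) T5.l7
  (TrL.c (I.pos (nat_lit 0) (nat_lit 96881482)) T0.l6
  (TrL.c (I.pos (nat_lit 0) (nat_lit 0)) (xk T0.l11 T0.l11)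
  (TrL.c (I.pos (nat_lit 0) (nat_lit 0)) T5.l8
  (TrL.c (I.mix (nat_lit 17240550) (nat_lit 96881482)) T0.l8
  (TrL.c (I.mix (nat_lit 17240550) (nat_lit 71940500)) T5.l11
  TrL.n)))))))) (by decide +kernel)
theorem bx3_7 : BoxOK sI cl9 cl13 cl7 t5 t0 b3_7 :=
  box_mk (TrL.c (I.pos (nat_lit 0) (nat_lit 0)) (xa (xa (xa (xb T5.l9 T5.l9) T5.l9) T5.l9) (xa T5.l9 T5.l9))
  (TrL.c (I.pos (nat_lit 0) (nat_lit 0)) (xa T0.l5 T0.l5)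
  (TrL.c (I.pos (nat_lit 0) (nat_lit 124588530)) T5.l7
  (TrL.c (I.pos (nat_lit 0) (nat_lit 96881482)) T0.l6
  (TrL.c (I.pos (nat_lit 0) (nat_lit 0)) (xa T0.l10 T0.l10)
  (TrL.c (I.pos (nat_lit 0) (nat_lit 0)) T5.l8
  (TrL.c (I.mix (nat_lit 17240550) (nat_lit 96881482)) T0.l8
  (TrL.c (I.mix (nat_lit 17240550) (nat_lit 71940500)) T5.l2
  TrL.n)))))))) (by decide +kernel)
theorem bx3_8 : BoxOK sI cl9 cl13 cl7 t5 t0 b3_8 :=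
  box_mk (TrL.c (I.pos (nat_lit 0) (nat_lit 0)) (xb T5.l9 T5.l9)
  (TrL.c (I.pos (nat_lit 0) (nat_lit 0)) T0.l5
  (TrL.c (I.pos (nat_lit 0) (nat_lit 124588530)) T5.l7
  (TrL.c (I.pos (nat_lit 0) (nat_lit 96881482)) T0.l6
  (TrL.c (I.pos (nat_lit 0) (nat_lit 0)) (xb (xa T0.l10 T0.l10) (xk T0.l10 T0.l10))
  (TrL.c (I.pos (nat_lit 0) (nat_lit 0)) T5.l8
  (TrL.c (I.mix (nat_lit 17240550) (nat_lit 96881482)) T0.l8
  (TrL.c (I.mix (nat_lit 17240550) (nat_lit 71940500)) T5.l11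
  TrL.n)))))))) (by decide +kernel)
theorem bx3_9 : BoxOK sI cl9 cl13 cl7 t5 t0 b3_9 :=
  box_mk (TrL.c (I.pos (nat_lit 0) (nat_lit 0)) T5.l9
  (TrL.c (I.pos (nat_lit 0) (nat_lit 0)) T0.l5
  (TrL.c (I.pos (nat_lit 0) (nat_lit 124588530)) T5.l7
  (TrL.c (I.pos (nat_lit 0) (nat_lit 96881482)) T0.l6
  (TrL.c (I.pos (nat_lit 0) (nat_lit 0)) T0.l10
  (TrL.c (I.pos (nat_lit 0) (nat_lit 0)) T5.l8
  (TrL.c (I.mix (nat_lit 17240550) (nat_lit 96881482)) T0.l8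
  (TrL.c (I.mix (nat_lit 17240550) (nat_lit 71940500)) T5.l2
  TrL.n)))))))) (by decide +kernel)
theorem bx3_10 : BoxOK sI cl9 cl13 cl7 t5 t0 b3_10 :=
  box_mk (TrL.c (I.pos (nat_lit 0) (nat_lit 0)) (xa (xb T5.l0 T5.l0) (xb T5.l0 (xa T5.l0 T5.l0)))
  (TrL.c (I.pos (nat_lit 0) (nat_lit 0)) T0.l5
  (TrL.c (I.pos (nat_lit 0) (nat_lit 124588530)) T5.l7
  (TrL.c (I.pos (nat_lit 0) (nat_lit 96881482)) T0.l6
  (TrL.c (I.pos (nat_lit 0) (nat_lit 0)) (xa (xb (xk (xa T0.l7 T0.l7) (xa T0.l7 T0.l7)) T0.l7) (xb (xk (xa T0.l7 T0.l7) (xa T0.l7 T0.l7)) (xk (xa T0.l7 T0.l7) (xa T0.l7 T0.l7))))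
  (TrL.c (I.pos (nat_lit 0) (nat_lit 0)) (xa T5.l8 T5.l8)
  (TrL.c (I.mix (nat_lit 17240550) (nat_lit 96881482)) (xR T0.l8 T0.l8)
  (TrL.c (I.mix (nat_lit 17240550) (nat_lit 71940500)) T5.l2
  TrL.n)))))))) (by decide +kernel)
theorem bx3_11 : BoxOK sI cl9 cl13 cl7 t5 t0 b3_11 :=
  box_mk (TrL.c (I.pos (nat_lit 0) (nat_lit 0)) (xa (xb T5.l0 T5.l0) (xb T5.l0 T5.l0))
  (TrL.c (I.pos (nat_lit 0) (nat_lit 0)) T0.l5
  (TrL.c (I.pos (nat_lit 0) (nat_lit 124588530)) T5.l7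
  (TrL.c (I.pos (nat_lit 0) (nat_lit 96881482)) T0.l6
  (TrL.c (I.pos (nat_lit 0) (nat_lit 0)) (xk T0.l7 T0.l7)
  (TrL.c (I.pos (nat_lit 0) (nat_lit 0)) T5.l8
  (TrL.c (I.mix (nat_lit 17240550) (nat_lit 96881482)) T0.l8
  (TrL.c (I.mix (nat_lit 17240550) (nat_lit 71940500)) T5.l2
  TrL.n)))))))) (by decide +kernel)
theorem sv3 : StarV sI cl9 cl13 cl7 t5 t0 t3 :=
  (bt_n (bt_n (bt_n (bt_b bx3_0) (bt_n (bt_b bx3_1) (bt_b bx3_2))) (bt_n (bt_b bx3_3) (bt_n (bt_b bx3_4) (bt_b bx3_5)))) (bt_n (bt_n (bt_b bx3_6) (bt_n (bt_b bx3_7) (bt_b bx3_8))) (bt_n (bt_b bx3_9) (bt_n (bt_b bx3_10) (bt_b bx3_11)))))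
def S3 : StarD := StarD.mk cl9 cl13 cl7 5 0 t3
theorem bx4_0 : BoxOK sI cl13 cl7 cl9 t1 t3 b4_0 :=
  box_mk (TrL.c (I.pos (nat_lit 0) (nat_lit 0)) (xa (xb T1.l0 (xa T1.l0 T1.l0)) (xb T1.l0 T1.l0))
  (TrL.c (I.pos (nat_lit 0) (nat_lit 0)) T3.l1
  (TrL.c (I.pos (nat_lit 0) (nat_lit 134217730)) T1.l1
  (TrL.c (I.pos (nat_lit 0) (nat_lit 110514882)) T3.l2
  (TrL.c (I.pos (nat_lit 0) (nat_lit 0)) (xa T3.l3 T3.l3)
  (TrL.c (I.pos (nat_lit 0) (nat_lit 0)) T1.l2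
  (TrL.c (I.mix (nat_lit 8088324) (nat_lit 110514882)) T3.l4
  (TrL.c (I.mix (nat_lit 8088324) (nat_lit 89478486)) T1.l3
  TrL.n)))))))) (by decide +kernel)
theorem bx4_1 : BoxOK sI cl13 cl7 cl9 t1 t3 b4_1 :=
  box_mk (TrL.c (I.pos (nat_lit 0) (nat_lit 0)) (xa (xb T1.l4 T1.l4) T1.l0)
  (TrL.c (I.pos (nat_lit 0) (nat_lit 0)) T3.l1
  (TrL.c (I.pos (nat_lit 0) (nat_lit 134217730)) T1.l1
  (TrL.c (I.pos (nat_lit 0) (nat_lit 110514882)) T3.l2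
  (TrL.c (I.pos (nat_lit 0) (nat_lit 0)) (xa T3.l5 (xb (xk T3.l5 T3.l5) T3.l5))
  (TrL.c (I.pos (nat_lit 0) (nat_lit 0)) T1.l2
  (TrL.c (I.mix (nat_lit 8088324) (nat_lit 110514882)) T3.l4
  (TrL.c (I.mix (nat_lit 8088324) (nat_lit 89478486)) T1.l6
  TrL.n)))))))) (by decide +kernel)
theorem bx4_2 : BoxOK sI cl13 cl7 cl9 t1 t3 b4_2 :=
  box_mk (TrL.c (I.pos (nat_lit 0) (nat_lit 0)) (xa (xa (xb T1.l4 T1.l4) T1.l4) T1.l4)
  (TrL.c (I.pos (nat_lit 0) (nat_lit 0)) T3.l1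
  (TrL.c (I.pos (nat_lit 0) (nat_lit 134217730)) T1.l1
  (TrL.c (I.pos (nat_lit 0) (nat_lit 110514882)) T3.l2
  (TrL.c (I.pos (nat_lit 0) (nat_lit 0)) T3.l5
  (TrL.c (I.pos (nat_lit 0) (nat_lit 0)) T1.l2
  (TrL.c (I.mix (nat_lit 8088324) (nat_lit 110514882)) T3.l4
  (TrL.c (I.mix (nat_lit 8088324) (nat_lit 89478486)) T1.l1
  TrL.n)))))))) (by decide +kernel)
theorem bx4_3 : BoxOK sI cl13 cl7 cl9 t1 t3 b4_3 :=
  box_mk (TrL.c (I.pos (nat_lit 0) (nat_lit 0)) (xb (xa T1.l11 T1.l11) (xa (xb T1.l11 (xa T1.l11 T1.l11)) (xb T1.l11 (xa T1.l11 T1.l11))))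
  (TrL.c (I.pos (nat_lit 0) (nat_lit 0)) T3.l1
  (TrL.c (I.pos (nat_lit 0) (nat_lit 134217730)) (xR T1.l1 T1.l1)
  (TrL.c (I.pos (nat_lit 0) (nat_lit 110514882)) T3.l2
  (TrL.c (I.pos (nat_lit 0) (nat_lit 0)) (xb (xk (xa T3.l6 T3.l6) T3.l6) (xk T3.l3 T3.l3))
  (TrL.c (I.pos (nat_lit 0) (nat_lit 0)) T1.l2
  (TrL.c (I.mix (nat_lit 8088324) (nat_lit 110514882)) T3.l4
  (TrL.c (I.mix (nat_lit 8088324) (nat_lit 89478486)) T1.l6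
  TrL.n)))))))) (by decide +kernel)
theorem bx4_4 : BoxOK sI cl13 cl7 cl9 t1 t3 b4_4 :=
  box_mk (TrL.c (I.pos (nat_lit 0) (nat_lit 0)) (xa (xa (xb T1.l4 (xa T1.l4 T1.l4)) (xb T1.l4 T1.l4)) (xa T1.l4 T1.l4))
  (TrL.c (I.pos (nat_lit 0) (nat_lit 0)) T3.l1
  (TrL.c (I.pos (nat_lit 0) (nat_lit 134217730)) T1.l1
  (TrL.c (I.pos (nat_lit 0) (nat_lit 110514882)) T3.l2
  (TrL.c (I.pos (nat_lit 0) (nat_lit 0)) (xa T3.l5 T3.l5)
  (TrL.c (I.pos (nat_lit 0) (nat_lit 0)) T1.l2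
  (TrL.c (I.mix (nat_lit 8088324) (nat_lit 110514882)) T3.l4
  (TrL.c (I.mix (nat_lit 8088324) (nat_lit 89478486)) T1.l3
  TrL.n)))))))) (by decide +kernel)
theorem bx4_5 : BoxOK sI cl13 cl7 cl9 t1 t3 b4_5 :=
  box_mk (TrL.c (I.pos (nat_lit 0) (nat_lit 0)) (xa (xa (xb (xa T1.l4 T1.l4) (xa T1.l4 T1.l4)) T1.l4) (xa T1.l4 T1.l4))
  (TrL.c (I.pos (nat_lit 0) (nat_lit 0)) (xa T3.l1 T3.l1)
  (TrL.c (I.pos (nat_lit 0) (nat_lit 134217730)) T1.l1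
  (TrL.c (I.pos (nat_lit 0) (nat_lit 110514882)) T3.l2
  (TrL.c (I.pos (nat_lit 0) (nat_lit 0)) (xa T3.l5 T3.l5)
  (TrL.c (I.pos (nat_lit 0) (nat_lit 0)) T1.l2
  (TrL.c (I.mix (nat_lit 8088324) (nat_lit 110514882)) T3.l4
  (TrL.c (I.mix (nat_lit 8088324) (nat_lit 89478486)) T1.l3
  TrL.n)))))))) (by decide +kernel)
theorem bx4_6 : BoxOK sI cl13 cl7 cl9 t1 t3 b4_6 :=
  box_mk (TrL.c (I.pos (nat_lit 0) (nat_lit 0)) (xb T1.l4 T1.l4)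
  (TrL.c (I.pos (nat_lit 0) (nat_lit 0)) T3.l1
  (TrL.c (I.pos (nat_lit 0) (nat_lit 134217730)) T1.l1
  (TrL.c (I.pos (nat_lit 0) (nat_lit 110514882)) T3.l2
  (TrL.c (I.pos (nat_lit 0) (nat_lit 0)) (xb T3.l5 T3.l5)
  (TrL.c (I.pos (nat_lit 0) (nat_lit 0)) T1.l2
  (TrL.c (I.mix (nat_lit 8088324) (nat_lit 110514882)) T3.l4
  (TrL.c (I.mix (nat_lit 8088324) (nat_lit 89478486)) T1.l3
  TrL.n)))))))) (by decide +kernel)
theorem bx4_7 : BoxOK sI cl13 cl7 cl9 t1 t3 b4_7 :=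
  box_mk (TrL.c (I.pos (nat_lit 0) (nat_lit 0)) T1.l4
  (TrL.c (I.pos (nat_lit 0) (nat_lit 0)) T3.l1
  (TrL.c (I.pos (nat_lit 0) (nat_lit 134217730)) T1.l1
  (TrL.c (I.pos (nat_lit 0) (nat_lit 110514882)) T3.l2
  (TrL.c (I.pos (nat_lit 0) (nat_lit 0)) T3.l5
  (TrL.c (I.pos (nat_lit 0) (nat_lit 0)) T1.l2
  (TrL.c (I.mix (nat_lit 8088324) (nat_lit 110514882)) T3.l4
  (TrL.c (I.mix (nat_lit 8088324) (nat_lit 89478486)) T1.l3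
  TrL.n)))))))) (by decide +kernel)
theorem bx4_8 : BoxOK sI cl13 cl7 cl9 t1 t3 b4_8 :=
  box_mk (TrL.c (I.pos (nat_lit 0) (nat_lit 0)) (xa T1.l0 T1.l0)
  (TrL.c (I.pos (nat_lit 0) (nat_lit 0)) T3.l1
  (TrL.c (I.pos (nat_lit 0) (nat_lit 134217730)) T1.l1
  (TrL.c (I.pos (nat_lit 0) (nat_lit 110514882)) T3.l2
  (TrL.c (I.pos (nat_lit 0) (nat_lit 0)) (xk (xb T3.l6 T3.l6) (xb T3.l6 T3.l6))
  (TrL.c (I.pos (nat_lit 0) (nat_lit 0)) T1.l2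
  (TrL.c (I.mix (nat_lit 8088324) (nat_lit 110514882)) T3.l4
  (TrL.c (I.mix (nat_lit 8088324) (nat_lit 89478486)) T1.l6
  TrL.n)))))))) (by decide +kernel)
theorem bx4_9 : BoxOK sI cl13 cl7 cl9 t1 t3 b4_9 :=
  box_mk (TrL.c (I.pos (nat_lit 0) (nat_lit 0)) (xa (xb T1.l0 (xa T1.l0 T1.l0)) (xb T1.l0 (xa T1.l0 T1.l0)))
  (TrL.c (I.pos (nat_lit 0) (nat_lit 0)) T3.l8
  (TrL.c (I.pos (nat_lit 0) (nat_lit 134217730)) T1.l1
  (TrL.c (I.pos (nat_lit 0) (nat_lit 110514882)) T3.l2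
  (TrL.c (I.pos (nat_lit 0) (nat_lit 0)) (xa (xb (xk (xa T3.l3 T3.l3) (xa T3.l3 T3.l3)) (xk T3.l3 T3.l3)) (xb (xk (xa T3.l3 T3.l3) (xa T3.l3 T3.l3)) (xk (xa T3.l3 T3.l3) (xa T3.l3 T3.l3))))
  (TrL.c (I.pos (nat_lit 0) (nat_lit 0)) (xk T1.l2 T1.l2)
  (TrL.c (I.mix (nat_lit 8088324) (nat_lit 110514882)) (xR T3.l4 T3.l4)
  (TrL.c (I.mix (nat_lit 8088324) (nat_lit 89478486)) T1.l6
  TrL.n)))))))) (by decide +kernel)
theorem bx4_10 : BoxOK sI cl13 cl7 cl9 t1 t3 b4_10 :=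
  box_mk (TrL.c (I.pos (nat_lit 0) (nat_lit 0)) (xa T1.l0 T1.l0)
  (TrL.c (I.pos (nat_lit 0) (nat_lit 0)) T3.l1
  (TrL.c (I.pos (nat_lit 0) (nat_lit 134217730)) T1.l1
  (TrL.c (I.pos (nat_lit 0) (nat_lit 110514882)) T3.l2
  (TrL.c (I.pos (nat_lit 0) (nat_lit 0)) (xk T3.l3 T3.l3)
  (TrL.c (I.pos (nat_lit 0) (nat_lit 0)) T1.l2
  (TrL.c (I.mix (nat_lit 8088324) (nat_lit 110514882)) T3.l4
  (TrL.c (I.mix (nat_lit 8088324) (nat_lit 89478486)) T1.l6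
  TrL.n)))))))) (by decide +kernel)
theorem bx4_11 : BoxOK sI cl13 cl7 cl9 t1 t3 b4_11 :=
  box_mk (TrL.c (I.pos (nat_lit 0) (nat_lit 0)) (xb T1.l11 T1.l11)
  (TrL.c (I.pos (nat_lit 0) (nat_lit 0)) T3.l1
  (TrL.c (I.pos (nat_lit 0) (nat_lit 134217730)) T1.l1
  (TrL.c (I.pos (nat_lit 0) (nat_lit 110514882)) T3.l2
  (TrL.c (I.pos (nat_lit 0) (nat_lit 0)) (xk T3.l6 T3.l6)
  (TrL.c (I.pos (nat_lit 0) (nat_lit 0)) T1.l2
  (TrL.c (I.mix (nat_lit 8088324) (nat_lit 110514882)) T3.l4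
  (TrL.c (I.mix (nat_lit 8088324) (nat_lit 89478486)) T1.l6
  TrL.n)))))))) (by decide +kernel)
theorem sv4 : StarV sI cl13 cl7 cl9 t1 t3 t4 :=
  (bt_n (bt_n (bt_n (bt_b bx4_0) (bt_n (bt_b bx4_1) (bt_b bx4_2))) (bt_n (bt_b bx4_3) (bt_n (bt_b bx4_4) (bt_b bx4_5)))) (bt_n (bt_n (bt_b bx4_6) (bt_n (bt_b bx4_7) (bt_b bx4_8))) (bt_n (bt_b bx4_9) (bt_n (bt_b bx4_10) (bt_b bx4_11)))))
def S4 : StarD := StarD.mk cl13 cl7 cl9 1 3 t4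
theorem bx5_0 : BoxOK sI cl13 cl9 cl7 t3 t1 b5_0 :=
  box_mk (TrL.c (I.pos (nat_lit 0) (nat_lit 0)) (xa (xa T3.l11 T3.l0) (xa T3.l0 T3.l0))
  (TrL.c (I.pos (nat_lit 0) (nat_lit 0)) T1.l5
  (TrL.c (I.pos (nat_lit 0) (nat_lit 134217730)) T3.l7
  (TrL.c (I.pos (nat_lit 0) (nat_lit 110514882)) T1.l6
  (TrL.c (I.pos (nat_lit 0) (nat_lit 0)) (xa T1.l7 T1.l7)
  (TrL.c (I.pos (nat_lit 0) (nat_lit 0)) T3.l8
  (TrL.c (I.mix (nat_lit 8088324) (nat_lit 110514882)) T1.l8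
  (TrL.c (I.mix (nat_lit 8088324) (nat_lit 89478486)) T3.l9
  TrL.n)))))))) (by decide +kernel)
theorem bx5_1 : BoxOK sI cl13 cl9 cl7 t3 t1 b5_1 :=
  box_mk (TrL.c (I.pos (nat_lit 0) (nat_lit 0)) (xa (xb T3.l10 T3.l10) T3.l0)
  (TrL.c (I.pos (nat_lit 0) (nat_lit 0)) T1.l5
  (TrL.c (I.pos (nat_lit 0) (nat_lit 134217730)) T3.l7
  (TrL.c (I.pos (nat_lit 0) (nat_lit 110514882)) T1.l6
  (TrL.c (I.pos (nat_lit 0) (nat_lit 0)) (xa T1.l9 (xb (xk T1.l9 T1.l9) T1.l9))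
  (TrL.c (I.pos (nat_lit 0) (nat_lit 0)) T3.l8
  (TrL.c (I.mix (nat_lit 8088324) (nat_lit 110514882)) T1.l8
  (TrL.c (I.mix (nat_lit 8088324) (nat_lit 89478486)) T3.l9
  TrL.n)))))))) (by decide +kernel)
theorem bx5_2 : BoxOK sI cl13 cl9 cl7 t3 t1 b5_2 :=
  box_mk (TrL.c (I.pos (nat_lit 0) (nat_lit 0)) (xa (xa (xb (xa T3.l10 T3.l10) T3.l10) T3.l10) T3.l10)
  (TrL.c (I.pos (nat_lit 0) (nat_lit 0)) T1.l5
  (TrL.c (I.pos (nat_lit 0) (nat_lit 134217730)) T3.l7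
  (TrL.c (I.pos (nat_lit 0) (nat_lit 110514882)) T1.l6
  (TrL.c (I.pos (nat_lit 0) (nat_lit 0)) T1.l9
  (TrL.c (I.pos (nat_lit 0) (nat_lit 0)) T3.l8
  (TrL.c (I.mix (nat_lit 8088324) (nat_lit 110514882)) T1.l8
  (TrL.c (I.mix (nat_lit 8088324) (nat_lit 89478486)) T3.l2
  TrL.n)))))))) (by decide +kernel)
theorem bx5_3 : BoxOK sI cl13 cl9 cl7 t3 t1 b5_3 :=
  box_mk (TrL.c (I.pos (nat_lit 0) (nat_lit 0)) (xb (xa (xb T3.l11 T3.l11) (xb T3.l11 T3.l11)) (xa (xb T3.l11 (xs T3.l11 T3.l11)) (xb T3.l11 (xs T3.l11 T3.l11))))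
  (TrL.c (I.pos (nat_lit 0) (nat_lit 0)) T1.l5
  (TrL.c (I.pos (nat_lit 0) (nat_lit 134217730)) (xR T3.l7 T3.l7)
  (TrL.c (I.pos (nat_lit 0) (nat_lit 110514882)) T1.l6
  (TrL.c (I.pos (nat_lit 0) (nat_lit 0)) (xb (xk (xa T1.l10 T1.l10) T1.l10) (xk T1.l7 T1.l7))
  (TrL.c (I.pos (nat_lit 0) (nat_lit 0)) T3.l8
  (TrL.c (I.mix (nat_lit 8088324) (nat_lit 110514882)) T1.l8
  (TrL.c (I.mix (nat_lit 8088324) (nat_lit 89478486)) T3.l9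
  TrL.n)))))))) (by decide +kernel)
theorem bx5_4 : BoxOK sI cl13 cl9 cl7 t3 t1 b5_4 :=
  box_mk (TrL.c (I.pos (nat_lit 0) (nat_lit 0)) (xa (xa (xb T3.l10 (xa T3.l10 T3.l10)) T3.l10) (xa T3.l10 T3.l10))
  (TrL.c (I.pos (nat_lit 0) (nat_lit 0)) (xa T1.l5 T1.l5)
  (TrL.c (I.pos (nat_lit 0) (nat_lit 134217730)) T3.l7
  (TrL.c (I.pos (nat_lit 0) (nat_lit 110514882)) T1.l6
  (TrL.c (I.pos (nat_lit 0) (nat_lit 0)) (xa T1.l9 T1.l9)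
  (TrL.c (I.pos (nat_lit 0) (nat_lit 0)) T3.l8
  (TrL.c (I.mix (nat_lit 8088324) (nat_lit 110514882)) T1.l8
  (TrL.c (I.mix (nat_lit 8088324) (nat_lit 89478486)) T3.l2
  TrL.n)))))))) (by decide +kernel)
theorem bx5_5 : BoxOK sI cl13 cl9 cl7 t3 t1 b5_5 :=
  box_mk (TrL.c (I.pos (nat_lit 0) (nat_lit 0)) (xa T3.l11 T3.l11)
  (TrL.c (I.pos (nat_lit 0) (nat_lit 0)) T1.l5
  (TrL.c (I.pos (nat_lit 0) (nat_lit 134217730)) T3.l7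
  (TrL.c (I.pos (nat_lit 0) (nat_lit 110514882)) T1.l6
  (TrL.c (I.pos (nat_lit 0) (nat_lit 0)) (xa (xb (xk T1.l10 T1.l10) T1.l10) (xb (xk T1.l10 T1.l10) T1.l10))
  (TrL.c (I.pos (nat_lit 0) (nat_lit 0)) T3.l8
  (TrL.c (I.mix (nat_lit 8088324) (nat_lit 110514882)) T1.l8
  (TrL.c (I.mix (nat_lit 8088324) (nat_lit 89478486)) T3.l2
  TrL.n)))))))) (by decide +kernel)
theorem bx5_6 : BoxOK sI cl13 cl9 cl7 t3 t1 b5_6 :=
  box_mk (TrL.c (I.pos (nat_lit 0) (nat_lit 0)) (xb T3.l11 T3.l11)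
  (TrL.c (I.pos (nat_lit 0) (nat_lit 0)) T1.l5
  (TrL.c (I.pos (nat_lit 0) (nat_lit 134217730)) T3.l7
  (TrL.c (I.pos (nat_lit 0) (nat_lit 110514882)) T1.l6
  (TrL.c (I.pos (nat_lit 0) (nat_lit 0)) (xk T1.l10 T1.l10)
  (TrL.c (I.pos (nat_lit 0) (nat_lit 0)) T3.l8
  (TrL.c (I.mix (nat_lit 8088324) (nat_lit 110514882)) T1.l8
  (TrL.c (I.mix (nat_lit 8088324) (nat_lit 89478486)) T3.l9
  TrL.n)))))))) (by decide +kernel)
theorem bx5_7 : BoxOK sI cl13 cl9 cl7 t3 t1 b5_7 :=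
  box_mk (TrL.c (I.pos (nat_lit 0) (nat_lit 0)) (xa (xa (xa (xb T3.l10 T3.l10) T3.l10) T3.l10) (xa T3.l10 T3.l10))
  (TrL.c (I.pos (nat_lit 0) (nat_lit 0)) (xa T1.l5 T1.l5)
  (TrL.c (I.pos (nat_lit 0) (nat_lit 134217730)) T3.l7
  (TrL.c (I.pos (nat_lit 0) (nat_lit 110514882)) T1.l6
  (TrL.c (I.pos (nat_lit 0) (nat_lit 0)) (xa T1.l9 T1.l9)
  (TrL.c (I.pos (nat_lit 0) (nat_lit 0)) T3.l8
  (TrL.c (I.mix (nat_lit 8088324) (nat_lit 110514882)) T1.l8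
  (TrL.c (I.mix (nat_lit 8088324) (nat_lit 89478486)) T3.l2
  TrL.n)))))))) (by decide +kernel)
theorem bx5_8 : BoxOK sI cl13 cl9 cl7 t3 t1 b5_8 :=
  box_mk (TrL.c (I.pos (nat_lit 0) (nat_lit 0)) (xb T3.l10 T3.l10)
  (TrL.c (I.pos (nat_lit 0) (nat_lit 0)) T1.l5
  (TrL.c (I.pos (nat_lit 0) (nat_lit 134217730)) T3.l7
  (TrL.c (I.pos (nat_lit 0) (nat_lit 110514882)) T1.l6
  (TrL.c (I.pos (nat_lit 0) (nat_lit 0)) (xb T1.l9 T1.l9)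
  (TrL.c (I.pos (nat_lit 0) (nat_lit 0)) T3.l8
  (TrL.c (I.mix (nat_lit 8088324) (nat_lit 110514882)) T1.l8
  (TrL.c (I.mix (nat_lit 8088324) (nat_lit 89478486)) T3.l9
  TrL.n)))))))) (by decide +kernel)
theorem bx5_9 : BoxOK sI cl13 cl9 cl7 t3 t1 b5_9 :=
  box_mk (TrL.c (I.pos (nat_lit 0) (nat_lit 0)) (xa (xb T3.l0 (xa T3.l0 T3.l0)) (xb T3.l0 (xa T3.l0 T3.l0)))
  (TrL.c (I.pos (nat_lit 0) (nat_lit 0)) T1.l5
  (TrL.c (I.pos (nat_lit 0) (nat_lit 134217730)) T3.l7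
  (TrL.c (I.pos (nat_lit 0) (nat_lit 110514882)) T1.l6
  (TrL.c (I.pos (nat_lit 0) (nat_lit 0)) (xa (xb (xk (xa T1.l7 T1.l7) (xa T1.l7 T1.l7)) T1.l7) (xb (xk (xa T1.l7 T1.l7) (xa T1.l7 T1.l7)) (xk (xa T1.l7 T1.l7) (xa T1.l7 T1.l7))))
  (TrL.c (I.pos (nat_lit 0) (nat_lit 0)) (xa T3.l8 T3.l8)
  (TrL.c (I.mix (nat_lit 8088324) (nat_lit 110514882)) (xR T1.l8 T1.l8)
  (TrL.c (I.mix (nat_lit 8088324) (nat_lit 89478486)) T3.l2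
  TrL.n)))))))) (by decide +kernel)
theorem bx5_10 : BoxOK sI cl13 cl9 cl7 t3 t1 b5_10 :=
  box_mk (TrL.c (I.pos (nat_lit 0) (nat_lit 0)) (xa (xb T3.l0 T3.l0) T3.l0)
  (TrL.c (I.pos (nat_lit 0) (nat_lit 0)) T1.l5
  (TrL.c (I.pos (nat_lit 0) (nat_lit 134217730)) T3.l7
  (TrL.c (I.pos (nat_lit 0) (nat_lit 110514882)) T1.l6
  (TrL.c (I.pos (nat_lit 0) (nat_lit 0)) (xk T1.l7 T1.l7)
  (TrL.c (I.pos (nat_lit 0) (nat_lit 0)) T3.l8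
  (TrL.c (I.mix (nat_lit 8088324) (nat_lit 110514882)) T1.l8
  (TrL.c (I.mix (nat_lit 8088324) (nat_lit 89478486)) T3.l2
  TrL.n)))))))) (by decide +kernel)
theorem bx5_11 : BoxOK sI cl13 cl9 cl7 t3 t1 b5_11 :=
  box_mk (TrL.c (I.pos (nat_lit 0) (nat_lit 0)) T3.l10
  (TrL.c (I.pos (nat_lit 0) (nat_lit 0)) T1.l5
  (TrL.c (I.pos (nat_lit 0) (nat_lit 134217730)) T3.l7
  (TrL.c (I.pos (nat_lit 0) (nat_lit 110514882)) T1.l6
  (TrL.c (I.pos (nat_lit 0) (nat_lit 0)) T1.l9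
  (TrL.c (I.pos (nat_lit 0) (nat_lit 0)) T3.l8
  (TrL.c (I.mix (nat_lit 8088324) (nat_lit 110514882)) T1.l8
  (TrL.c (I.mix (nat_lit 8088324) (nat_lit 89478486)) T3.l2
  TrL.n)))))))) (by decide +kernel)
theorem sv5 : StarV sI cl13 cl9 cl7 t3 t1 t5 :=
  (bt_n (bt_n (bt_n (bt_b bx5_0) (bt_n (bt_b bx5_1) (bt_b bx5_2))) (bt_n (bt_b bx5_3) (bt_n (bt_b bx5_4) (bt_b bx5_5)))) (bt_n (bt_n (bt_b bx5_6) (bt_n (bt_b bx5_7) (bt_b bx5_8))) (bt_n (bt_b bx5_9) (bt_n (bt_b bx5_10) (bt_b bx5_11)))))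
def S5 : StarD := StarD.mk cl13 cl9 cl7 3 1 t5
def G : List StarD := [S0, S1, S2, S3, S4, S5]
theorem so0 : StarOK sI G S0 :=
  star_mk (by decide) (by decide) rfl rfl rfl rfl rfl rfl (rfl : _ = t2) (rfl : _ = t4)
  (st_mk (Pth.l (Pth.l (Pth.l Pth.z))) (nat_lit 115736327) (nat_lit 134334476) (by decide +kernel))
  (st_mk (Pth.l (Pth.l (Pth.l Pth.z))) (nat_lit 151084571) (nat_lit 170021248) (by decide +kernel))
  (st_mk (Pth.l (Pth.l (Pth.l Pth.z))) (nat_lit 192021572) (nat_lit 211437124) (by decide +kernel)) sv0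
theorem so1 : StarOK sI G S1 :=
  star_mk (by decide) (by decide) rfl rfl rfl rfl rfl rfl (rfl : _ = t4) (rfl : _ = t2)
  (st_mk (Pth.l (Pth.l (Pth.l Pth.z))) (nat_lit 96313936) (nat_lit 114881671) (by decide +kernel))
  (st_mk (Pth.l (Pth.l (Pth.l Pth.z))) (nat_lit 131625171) (nat_lit 150514468) (by decide +kernel))
  (st_mk (Pth.l (Pth.l (Pth.l Pth.z))) (nat_lit 172530274) (nat_lit 191884000) (by decide +kernel)) sv1
theorem so2 : StarOK sI G S2 :=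
  star_mk (by decide) (by decide) rfl rfl rfl rfl rfl rfl (rfl : _ = t0) (rfl : _ = t5)
  (st_mk (Pth.l (Pth.l (Pth.l Pth.z))) (nat_lit 140402332) (nat_lit 162658677) (by decide +kernel))
  (st_mk (Pth.l (Pth.l (Pth.l Pth.z))) (nat_lit 175523600) (nat_lit 198081476) (by decide +kernel))
  (st_mk (Pth.l (Pth.l (Pth.l Pth.z))) (nat_lit 216109707) (nat_lit 239086911) (by decide +kernel)) sv2
theorem so3 : StarOK sI G S3 :=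
  star_mk (by decide) (by decide) rfl rfl rfl rfl rfl rfl (rfl : _ = t5) (rfl : _ = t0)
  (st_mk (Pth.l (Pth.l (Pth.l Pth.z))) (nat_lit 96050862) (nat_lit 114492552) (by decide +kernel))
  (st_mk (Pth.l (Pth.l (Pth.l Pth.z))) (nat_lit 131135209) (nat_lit 149841942) (by decide +kernel))
  (st_mk (Pth.l (Pth.l (Pth.l Pth.z))) (nat_lit 171689275) (nat_lit 190783957) (by decide +kernel)) sv3
theorem so4 : StarOK sI G S4 :=
  star_mk (by decide) (by decide) rfl rfl rfl rfl rfl rfl (rfl : _ = t1) (rfl : _ = t3)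
  (st_mk (Pth.l (Pth.l (Pth.l Pth.z))) (nat_lit 141873768) (nat_lit 160234874) (by decide +kernel))
  (st_mk (Pth.l (Pth.l (Pth.l Pth.z))) (nat_lit 174891329) (nat_lit 197267569) (by decide +kernel))
  (st_mk (Pth.l (Pth.l (Pth.l Pth.z))) (nat_lit 215156648) (nat_lit 237893524) (by decide +kernel)) sv4
theorem so5 : StarOK sI G S5 :=
  star_mk (by decide) (by decide) rfl rfl rfl rfl rfl rfl (rfl : _ = t3) (rfl : _ = t1)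
  (st_mk (Pth.l (Pth.l (Pth.l Pth.z))) (nat_lit 115089857) (nat_lit 133426099) (by decide +kernel))
  (st_mk (Pth.l (Pth.l (Pth.l Pth.z))) (nat_lit 149986467) (nat_lit 168560103) (by decide +kernel))
  (st_mk (Pth.l (Pth.l (Pth.l Pth.z))) (nat_lit 190251785) (nat_lit 209169000) (by decide +kernel)) sv5
theorem ok : GroupOK (nat_lit 91226112) (nat_lit 150339584) G := grp_mk (allS_c so0 (allS_c so1 (allS_c so2 (allS_c so3 (allS_c so4 (allS_c so5 allS_n))))))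
theorem cov : GCov G cl7 cl9 cl13 := cov_mk
  ⟨0, by decide, rfl, rfl, rfl⟩ ⟨1, by decide, rfl, rfl, rfl⟩ ⟨2, by decide, rfl, rfl, rfl⟩ ⟨3, by decide, rfl, rfl, rfl⟩ ⟨4, by decide, rfl, rfl, rfl⟩ ⟨5, by decide, rfl, rfl, rfl⟩
end Q456_1


end Pool.Agent.Helper6.MONO
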