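import Pool.Agent.Helper6.MONO.Cert.C05

/-!
Certificate data (generated).
-/

set_option autoImplicit false
set_option linter.all false
noncomputable section
namespace Pool.Agent.Helper6.MONO


namespace Q456_2
def sI : I := I.pos (nat_lit 150274048) (nat_lit 209387520)
def b0_0 : Bx := Bx.mk (St.mk (I.pos (nat_lit 158334976) (nat_lit 238862336)) (I.mix (nat_lit 1622016) (nat_lit 54263808)) (I.mix (nat_lit 2473984) (nat_lit 88162304)) (I.pos (nat_lit 112197632) (nat_lit 242647040)) (I.mix (nat_lit 101367808) (nat_lit 55951360)) (I.mix (nat_lit 67747840) (nat_lit 58802176)) (I.mix (nat_lit 94109696) (nat_lit 74809344)))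
  false (nat_lit 55590325)
def b0_1 : Bx := Bx.mk (St.mk (I.mix (nat_lit 16580608) (nat_lit 134643712)) (I.mix (nat_lit 7143424) (nat_lit 28049408)) (I.mix (nat_lit 14548992) (nat_lit 19709952)) (I.pos (nat_lit 15106048) (nat_lit 101171200)) (I.mix (nat_lit 31768576) (nat_lit 28557312)) (I.mix (nat_lit 27361280) (nat_lit 20332544)) (I.mix (nat_lit 21413888) (nat_lit 14680064)))
  false (nat_lit 0)
def b0_2 : Bx := Bx.mk (St.mk (I.pos (nat_lit 106070016) (nat_lit 147701760)) (I.mix (nat_lit 47202304) (nat_lit 8093696)) (I.mix (nat_lit 51363840) (nat_lit 2506752)) (I.pos (nat_lit 63455232) (nat_lit 115130368)) (I.mix (nat_lit 75137024) (nat_lit 26492928)) (I.mix (nat_lit 26411008) (nat_lit 65093632)) (I.mix (nat_lit 19365888) (nat_lit 54493184)))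
  false (nat_lit 0)
def b0_3 : Bx := Bx.mk (St.mk (I.mix (nat_lit 23281664) (nat_lit 90816512)) (I.mix (nat_lit 25362432) (nat_lit 3899392)) (I.mix (nat_lit 19185664) (nat_lit 884736)) (I.pos (nat_lit 16351232) (nat_lit 66437120)) (I.mix (nat_lit 30834688) (nat_lit 13221888)) (I.mix (nat_lit 12238848) (nat_lit 26230784)) (I.mix (nat_lit 6733824) (nat_lit 14008320)))
  false (nat_lit 0)
def b0_4 : Bx := Bx.mk (St.mk (I.pos (nat_lit 196411392) (nat_lit 284459008)) (I.mix (nat_lit 24084480) (nat_lit 38223872)) (I.mix (nat_lit 72155136) (nat_lit 58081280)) (I.pos (nat_lit 192692224) (nat_lit 339132416)) (I.mix (nat_lit 72499200) (nat_lit 50135040)) (I.mix (nat_lit 51085312) (nat_lit 39583744)) (I.mix (nat_lit 87818240) (nat_lit 72990720)))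
  false (nat_lit 33593179)
def b0_5 : Bx := Bx.mk (St.mk (I.pos (nat_lit 110723072) (nat_lit 178847744)) (I.neg (nat_lit 6766592) (nat_lit 49053696)) (I.neg (nat_lit 4915200) (nat_lit 51298304)) (I.pos (nat_lit 80134144) (nat_lit 155975680)) (I.mix (nat_lit 67567616) (nat_lit 34619392)) (I.mix (nat_lit 36978688) (nat_lit 49561600)) (I.mix (nat_lit 31064064) (nat_lit 50446336)))
  false (nat_lit 0)
def b0_6 : Bx := Bx.mk (St.mk (I.mix (nat_lit 26820608) (nat_lit 102547456)) (I.mix (nat_lit 27901952) (nat_lit 4866048)) (I.mix (nat_lit 22544384) (nat_lit 1261568)) (I.pos (nat_lit 14843904) (nat_lit 74776576)) (I.mix (nat_lit 35700736) (nat_lit 29229056)) (I.mix (nat_lit 22953984) (nat_lit 29065216)) (I.mix (nat_lit 14188544) (nat_lit 18825216)))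
  false (nat_lit 0)
def b0_7 : Bx := Bx.mk (St.mk (I.pos (nat_lit 172867584) (nat_lit 218071040)) (I.mix (nat_lit 9404416) (nat_lit 50675712)) (I.pos (nat_lit 1130496) (nat_lit 80117760)) (I.pos (nat_lit 138051584) (nat_lit 213303296)) (I.mix (nat_lit 115654656) (nat_lit 43843584)) (I.mix (nat_lit 111378432) (nat_lit 60325888)) (I.mix (nat_lit 123289600) (nat_lit 63422464)))
  false (nat_lit 15785019)
def b0_8 : Bx := Bx.mk (St.mk (I.mix (nat_lit 23412736) (nat_lit 123191296)) (I.mix (nat_lit 12222464) (nat_lit 32096256)) (I.mix (nat_lit 11878400) (nat_lit 23314432)) (I.pos (nat_lit 15663104) (nat_lit 91324416)) (I.mix (nat_lit 49594368) (nat_lit 24248320)) (I.mix (nat_lit 41730048) (nat_lit 27262976)) (I.mix (nat_lit 25608192) (nat_lit 17350656)))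
  false (nat_lit 0)
def b0_9 : Bx := Bx.mk (St.mk (I.pos (nat_lit 185794560) (nat_lit 236568576)) (I.pos (nat_lit 14237696) (nat_lit 51806208)) (I.pos (nat_lit 20381696) (nat_lit 83329024)) (I.pos (nat_lit 181026816) (nat_lit 239058944)) (I.mix (nat_lit 92028928) (nat_lit 64847872)) (I.mix (nat_lit 75841536) (nat_lit 54050816)) (I.mix (nat_lit 115539968) (nat_lit 64290816)))
  false (nat_lit 43491116)
def b0_10 : Bx := Bx.mk (St.mk (I.pos (nat_lit 154124288) (nat_lit 212336640)) (I.mix (nat_lit 35536896) (nat_lit 17678336)) (I.mix (nat_lit 39911424) (nat_lit 33587200)) (I.pos (nat_lit 114262016) (nat_lit 198492160)) (I.mix (nat_lit 51544064) (nat_lit 42762240)) (I.mix (nat_lit 49561600) (nat_lit 44072960)) (I.mix (nat_lit 51855360) (nat_lit 46874624)))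
  false (nat_lit 0)
def b0_11 : Bx := Bx.mk (St.mk (I.pos (nat_lit 178094080) (nat_lit 214630400)) (I.mix (nat_lit 14368768) (nat_lit 28557312)) (I.mix (nat_lit 7454720) (nat_lit 50135040)) (I.pos (nat_lit 145162240) (nat_lit 203735040)) (I.mix (nat_lit 79642624) (nat_lit 50610176)) (I.mix (nat_lit 96157696) (nat_lit 46202880)) (I.mix (nat_lit 106594304) (nat_lit 47267840)))
  false (nat_lit 0)
def t0 : BTr := (BTr.n (BTr.n (BTr.n (BTr.b b0_0) (BTr.n (BTr.b b0_1) (BTr.b b0_2))) (BTr.n (BTr.b b0_3) (BTr.n (BTr.b b0_4) (BTr.b b0_5)))) (BTr.n (BTr.n (BTr.b b0_6) (BTr.n (BTr.b b0_7) (BTr.b b0_8))) (BTr.n (BTr.b b0_9) (BTr.n (BTr.b b0_10) (BTr.b b0_11)))))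
namespace T0
def l0 : Tr := Tr.L (Pth.l (Pth.l (Pth.l Pth.z)))
def l1 : Tr := Tr.L (Pth.l (Pth.l (Pth.r (Pth.l Pth.z))))
def l2 : Tr := Tr.L (Pth.l (Pth.l (Pth.r (Pth.r Pth.z))))
def l3 : Tr := Tr.L (Pth.l (Pth.r (Pth.l Pth.z)))
def l4 : Tr := Tr.L (Pth.l (Pth.r (Pth.r (Pth.l Pth.z))))
def l5 : Tr := Tr.L (Pth.l (Pth.r (Pth.r (Pth.r Pth.z))))
def l6 : Tr := Tr.L (Pth.r (Pth.l (Pth.l Pth.z)))
def l7 : Tr := Tr.L (Pth.r (Pth.l (Pth.r (Pth.l Pth.z))))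
def l8 : Tr := Tr.L (Pth.r (Pth.l (Pth.r (Pth.r Pth.z))))
def l9 : Tr := Tr.L (Pth.r (Pth.r (Pth.l Pth.z)))
def l10 : Tr := Tr.L (Pth.r (Pth.r (Pth.r (Pth.l Pth.z))))
def l11 : Tr := Tr.L (Pth.r (Pth.r (Pth.r (Pth.r Pth.z))))
end T0
def b1_0 : Bx := Bx.mk (St.mk (I.pos (nat_lit 158302208) (nat_lit 240435200)) (I.mix (nat_lit 1507328) (nat_lit 51134464)) (I.mix (nat_lit 2506752) (nat_lit 89522176)) (I.pos (nat_lit 92749824) (nat_lit 223510528)) (I.mix (nat_lit 101810176) (nat_lit 61456384)) (I.mix (nat_lit 71090176) (nat_lit 65716224)) (I.mix (nat_lit 102498304) (nat_lit 83771392)))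
  false (nat_lit 50896082)
def b1_1 : Bx := Bx.mk (St.mk (I.mix (nat_lit 9814016) (nat_lit 143704064)) (I.mix (nat_lit 6324224) (nat_lit 24150016)) (I.mix (nat_lit 10502144) (nat_lit 21741568)) (I.mix (nat_lit 3211264) (nat_lit 91176960)) (I.mix (nat_lit 30965760) (nat_lit 25821184)) (I.mix (nat_lit 26001408) (nat_lit 20529152)) (I.mix (nat_lit 22347776) (nat_lit 16056320)))
  false (nat_lit 0)
def b1_2 : Bx := Bx.mk (St.mk (I.pos (nat_lit 116162560) (nat_lit 157548544)) (I.mix (nat_lit 43925504) (nat_lit 7323648)) (I.mix (nat_lit 47333376) (nat_lit 6193152)) (I.pos (nat_lit 52592640) (nat_lit 105496576)) (I.mix (nat_lit 74366976) (nat_lit 26820608)) (I.mix (nat_lit 27115520) (nat_lit 65650688)) (I.mix (nat_lit 22462464) (nat_lit 59064320)))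
  false (nat_lit 0)
def b1_3 : Bx := Bx.mk (St.mk (I.mix (nat_lit 13336576) (nat_lit 106741760)) (I.mix (nat_lit 22790144) (nat_lit 2949120)) (I.mix (nat_lit 17940480) (nat_lit 1638400)) (I.mix (nat_lit 2244608) (nat_lit 58228736)) (I.mix (nat_lit 31784960) (nat_lit 14336000)) (I.mix (nat_lit 13434880) (nat_lit 24985600)) (I.mix (nat_lit 8011776) (nat_lit 15728640)))
  false (nat_lit 0)
def b1_4 : Bx := Bx.mk (St.mk (I.pos (nat_lit 196083712) (nat_lit 284082176)) (I.mix (nat_lit 22855680) (nat_lit 35536896)) (I.mix (nat_lit 57589760) (nat_lit 63520768)) (I.pos (nat_lit 174522368) (nat_lit 318816256)) (I.mix (nat_lit 73924608) (nat_lit 47071232)) (I.mix (nat_lit 52035584) (nat_lit 38502400)) (I.mix (nat_lit 84819968) (nat_lit 68567040)))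
  false (nat_lit 44800974)
def b1_5 : Bx := Bx.mk (St.mk (I.pos (nat_lit 120340480) (nat_lit 185188352)) (I.neg (nat_lit 2867200) (nat_lit 46579712)) (I.neg (nat_lit 2080768) (nat_lit 47497216)) (I.pos (nat_lit 70483968) (nat_lit 145113088)) (I.mix (nat_lit 65339392) (nat_lit 33406976)) (I.mix (nat_lit 34553856) (nat_lit 48070656)) (I.mix (nat_lit 30031872) (nat_lit 49610752)))
  false (nat_lit 0)
def b1_6 : Bx := Bx.mk (St.mk (I.mix (nat_lit 14270464) (nat_lit 116998144)) (I.mix (nat_lit 25427968) (nat_lit 5308416)) (I.mix (nat_lit 19922944) (nat_lit 2785280)) (I.mix (nat_lit 2277376) (nat_lit 66535424)) (I.mix (nat_lit 31129600) (nat_lit 23478272)) (I.mix (nat_lit 19070976) (nat_lit 23003136)) (I.mix (nat_lit 11681792) (nat_lit 16416768)))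
  false (nat_lit 0)
def b1_7 : Bx := Bx.mk (St.mk (I.pos (nat_lit 177045504) (nat_lit 217956352)) (I.mix (nat_lit 10715136) (nat_lit 45383680)) (I.pos (nat_lit 2113536) (nat_lit 78675968)) (I.pos (nat_lit 123109376) (nat_lit 192954368)) (I.mix (nat_lit 113147904) (nat_lit 44285952)) (I.mix (nat_lit 110985216) (nat_lit 55738368)) (I.mix (nat_lit 129335296) (nat_lit 59506688)))
  false (nat_lit 0)
def b1_8 : Bx := Bx.mk (St.mk (I.mix (nat_lit 14123008) (nat_lit 133906432)) (I.mix (nat_lit 12500992) (nat_lit 30130176)) (I.mix (nat_lit 10862592) (nat_lit 25640960)) (I.mix (nat_lit 2932736) (nat_lit 81838080)) (I.mix (nat_lit 49676288) (nat_lit 25149440)) (I.mix (nat_lit 42516480) (nat_lit 25427968)) (I.mix (nat_lit 30146560) (nat_lit 17219584)))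
  false (nat_lit 0)
def b1_9 : Bx := Bx.mk (St.mk (I.pos (nat_lit 157958144) (nat_lit 214581248)) (I.mix (nat_lit 35651584) (nat_lit 14696448)) (I.mix (nat_lit 37732352) (nat_lit 33570816)) (I.pos (nat_lit 101056512) (nat_lit 181977088)) (I.mix (nat_lit 50331648) (nat_lit 42467328)) (I.mix (nat_lit 49217536) (nat_lit 42516480)) (I.mix (nat_lit 52985856) (nat_lit 46317568)))
  false (nat_lit 28074747)
def b1_10 : Bx := Bx.mk (St.mk (I.pos (nat_lit 176914432) (nat_lit 216842240)) (I.mix (nat_lit 15892480) (nat_lit 28033024)) (I.mix (nat_lit 6062080) (nat_lit 53198848)) (I.pos (nat_lit 124174336) (nat_lit 186531840)) (I.mix (nat_lit 92340224) (nat_lit 51150848)) (I.mix (nat_lit 99385344) (nat_lit 44957696)) (I.mix (nat_lit 115359744) (nat_lit 46301184)))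
  false (nat_lit 10381342)
def b1_11 : Bx := Bx.mk (St.mk (I.pos (nat_lit 185958400) (nat_lit 241500160)) (I.pos (nat_lit 6782976) (nat_lit 51150848)) (I.pos (nat_lit 14139392) (nat_lit 90292224)) (I.pos (nat_lit 163889152) (nat_lit 222150656)) (I.mix (nat_lit 87703552) (nat_lit 62177280)) (I.mix (nat_lit 76136448) (nat_lit 54198272)) (I.mix (nat_lit 118587392) (nat_lit 68190208)))
  false (nat_lit 34467808)
def t1 : BTr := (BTr.n (BTr.n (BTr.n (BTr.b b1_0) (BTr.n (BTr.b b1_1) (BTr.b b1_2))) (BTr.n (BTr.b b1_3) (BTr.n (BTr.b b1_4) (BTr.b b1_5)))) (BTr.n (BTr.n (BTr.b b1_6) (BTr.n (BTr.b b1_7) (BTr.b b1_8))) (BTr.n (BTr.b b1_9) (BTr.n (BTr.b b1_10) (BTr.b b1_11)))))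
namespace T1
def l0 : Tr := Tr.L (Pth.l (Pth.l (Pth.l Pth.z)))
def l1 : Tr := Tr.L (Pth.l (Pth.l (Pth.r (Pth.l Pth.z))))
def l2 : Tr := Tr.L (Pth.l (Pth.l (Pth.r (Pth.r Pth.z))))
def l3 : Tr := Tr.L (Pth.l (Pth.r (Pth.l Pth.z)))
def l4 : Tr := Tr.L (Pth.l (Pth.r (Pth.r (Pth.l Pth.z))))
def l5 : Tr := Tr.L (Pth.l (Pth.r (Pth.r (Pth.r Pth.z))))
def l6 : Tr := Tr.L (Pth.r (Pth.l (Pth.l Pth.z)))
def l7 : Tr := Tr.L (Pth.r (Pth.l (Pth.r (Pth.l Pth.z))))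
def l8 : Tr := Tr.L (Pth.r (Pth.l (Pth.r (Pth.r Pth.z))))
def l9 : Tr := Tr.L (Pth.r (Pth.r (Pth.l Pth.z)))
def l10 : Tr := Tr.L (Pth.r (Pth.r (Pth.r (Pth.l Pth.z))))
def l11 : Tr := Tr.L (Pth.r (Pth.r (Pth.r (Pth.r Pth.z))))
end T1
def b2_0 : Bx := Bx.mk (St.mk (I.pos (nat_lit 158416896) (nat_lit 236208128)) (I.mix (nat_lit 1720320) (nat_lit 56197120)) (I.mix (nat_lit 2621440) (nat_lit 90324992)) (I.pos (nat_lit 138838016) (nat_lit 265797632)) (I.mix (nat_lit 103890944) (nat_lit 61423616)) (I.mix (nat_lit 69943296) (nat_lit 59670528)) (I.mix (nat_lit 94912512) (nat_lit 78626816)))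
  false (nat_lit 73968000)
def b2_1 : Bx := Bx.mk (St.mk (I.mix (nat_lit 24543232) (nat_lit 119881728)) (I.mix (nat_lit 6537216) (nat_lit 33161216)) (I.mix (nat_lit 14352384) (nat_lit 20692992)) (I.pos (nat_lit 39829504) (nat_lit 114999296)) (I.mix (nat_lit 37388288) (nat_lit 32964608)) (I.mix (nat_lit 31473664) (nat_lit 22904832)) (I.mix (nat_lit 22462464) (nat_lit 14974976)))
  false (nat_lit 0)
def b2_2 : Bx := Bx.mk (St.mk (I.pos (nat_lit 92962816) (nat_lit 139264000)) (I.mix (nat_lit 53657600) (nat_lit 7274496)) (I.mix (nat_lit 53592064) (nat_lit 933888)) (I.pos (nat_lit 79495168) (nat_lit 132382720)) (I.mix (nat_lit 75284480) (nat_lit 27525120)) (I.mix (nat_lit 27918336) (nat_lit 67305472)) (I.mix (nat_lit 18792448) (nat_lit 51183616)))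
  false (nat_lit 0)
def b2_3 : Bx := Bx.mk (St.mk (I.mix (nat_lit 35799040) (nat_lit 69828608)) (I.mix (nat_lit 29261824) (nat_lit 4407296)) (I.mix (nat_lit 17334272) (nat_lit 2719744)) (I.pos (nat_lit 41517056) (nat_lit 81444864)) (I.mix (nat_lit 34160640) (nat_lit 17334272)) (I.mix (nat_lit 15646720) (nat_lit 28229632)) (I.mix (nat_lit 8077312) (nat_lit 11223040)))
  false (nat_lit 0)
def b2_4 : Bx := Bx.mk (St.mk (I.pos (nat_lit 104120320) (nat_lit 172572672)) (I.neg (nat_lit 7471104) (nat_lit 53575680)) (I.neg (nat_lit 1818624) (nat_lit 52789248)) (I.pos (nat_lit 96567296) (nat_lit 174686208)) (I.mix (nat_lit 66535424) (nat_lit 34177024)) (I.mix (nat_lit 34160640) (nat_lit 48037888)) (I.mix (nat_lit 28786688) (nat_lit 44548096)))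
  false (nat_lit 0)
def b2_5 : Bx := Bx.mk (St.mk (I.mix (nat_lit 34357248) (nat_lit 83247104)) (I.mix (nat_lit 32964608) (nat_lit 5062656)) (I.mix (nat_lit 22134784) (nat_lit 3194880)) (I.pos (nat_lit 37650432) (nat_lit 88981504)) (I.mix (nat_lit 32407552) (nat_lit 29409280)) (I.mix (nat_lit 22233088) (nat_lit 30212096)) (I.mix (nat_lit 12189696) (nat_lit 16498688)))
  false (nat_lit 0)
def b2_6 : Bx := Bx.mk (St.mk (I.pos (nat_lit 166690816) (nat_lit 215810048)) (I.mix (nat_lit 7241728) (nat_lit 55967744)) (I.pos (nat_lit 5914624) (nat_lit 87490560)) (I.pos (nat_lit 156401664) (nat_lit 234602496)) (I.mix (nat_lit 115900416) (nat_lit 38944768)) (I.mix (nat_lit 107626496) (nat_lit 54394880)) (I.mix (nat_lit 113573888) (nat_lit 53526528)))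
  false (nat_lit 44405751)
def b2_7 : Bx := Bx.mk (St.mk (I.mix (nat_lit 36241408) (nat_lit 107429888)) (I.mix (nat_lit 11730944) (nat_lit 35356672)) (I.mix (nat_lit 9879552) (nat_lit 23609344)) (I.pos (nat_lit 40501248) (nat_lit 105742336)) (I.mix (nat_lit 48087040) (nat_lit 24444928)) (I.mix (nat_lit 40452096) (nat_lit 24543232)) (I.mix (nat_lit 22413312) (nat_lit 14696448)))
  false (nat_lit 0)
def b2_8 : Bx := Bx.mk (St.mk (I.pos (nat_lit 192299008) (nat_lit 283656192)) (I.mix (nat_lit 21987328) (nat_lit 42729472)) (I.mix (nat_lit 69107712) (nat_lit 64815104)) (I.pos (nat_lit 211730432) (nat_lit 361185280)) (I.mix (nat_lit 65306624) (nat_lit 55115776)) (I.mix (nat_lit 51429376) (nat_lit 36896768)) (I.mix (nat_lit 90537984) (nat_lit 67862528)))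
  false (nat_lit 49767306)
def b2_9 : Bx := Bx.mk (St.mk (I.pos (nat_lit 148226048) (nat_lit 207454208)) (I.mix (nat_lit 36438016) (nat_lit 19496960)) (I.mix (nat_lit 37126144) (nat_lit 38797312)) (I.pos (nat_lit 132857856) (nat_lit 217219072)) (I.mix (nat_lit 51838976) (nat_lit 43237376)) (I.mix (nat_lit 46301184) (nat_lit 42008576)) (I.mix (nat_lit 45940736) (nat_lit 42680320)))
  false (nat_lit 0)
def b2_10 : Bx := Bx.mk (St.mk (I.pos (nat_lit 168034304) (nat_lit 210092032)) (I.mix (nat_lit 11190272) (nat_lit 35274752)) (I.mix (nat_lit 163840) (nat_lit 61063168)) (I.pos (nat_lit 158973952) (nat_lit 223412224)) (I.mix (nat_lit 101056512) (nat_lit 52887552)) (I.mix (nat_lit 107642880) (nat_lit 47841280)) (I.mix (nat_lit 114540544) (nat_lit 45858816)))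
  false (nat_lit 3127702)
def b2_11 : Bx := Bx.mk (St.mk (I.pos (nat_lit 180944896) (nat_lit 232734720)) (I.pos (nat_lit 16596992) (nat_lit 55164928)) (I.pos (nat_lit 26329088) (nat_lit 88064000)) (I.pos (nat_lit 199458816) (nat_lit 258342912)) (I.mix (nat_lit 93831168) (nat_lit 69025792)) (I.mix (nat_lit 81526784) (nat_lit 57884672)) (I.mix (nat_lit 121798656) (nat_lit 69271552)))
  false (nat_lit 59596638)
def t2 : BTr := (BTr.n (BTr.n (BTr.n (BTr.b b2_0) (BTr.n (BTr.b b2_1) (BTr.b b2_2))) (BTr.n (BTr.b b2_3) (BTr.n (BTr.b b2_4) (BTr.b b2_5)))) (BTr.n (BTr.n (BTr.b b2_6) (BTr.n (BTr.b b2_7) (BTr.b b2_8))) (BTr.n (BTr.b b2_9) (BTr.n (BTr.b b2_10) (BTr.b b2_11)))))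
namespace T2
def l0 : Tr := Tr.L (Pth.l (Pth.l (Pth.l Pth.z)))
def l1 : Tr := Tr.L (Pth.l (Pth.l (Pth.r (Pth.l Pth.z))))
def l2 : Tr := Tr.L (Pth.l (Pth.l (Pth.r (Pth.r Pth.z))))
def l3 : Tr := Tr.L (Pth.l (Pth.r (Pth.l Pth.z)))
def l4 : Tr := Tr.L (Pth.l (Pth.r (Pth.r (Pth.l Pth.z))))
def l5 : Tr := Tr.L (Pth.l (Pth.r (Pth.r (Pth.r Pth.z))))
def l6 : Tr := Tr.L (Pth.r (Pth.l (Pth.l Pth.z)))
def l7 : Tr := Tr.L (Pth.r (Pth.l (Pth.r (Pth.l Pth.z))))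
def l8 : Tr := Tr.L (Pth.r (Pth.l (Pth.r (Pth.r Pth.z))))
def l9 : Tr := Tr.L (Pth.r (Pth.r (Pth.l Pth.z)))
def l10 : Tr := Tr.L (Pth.r (Pth.r (Pth.r (Pth.l Pth.z))))
def l11 : Tr := Tr.L (Pth.r (Pth.r (Pth.r (Pth.r Pth.z))))
end T2
def b3_0 : Bx := Bx.mk (St.mk (I.pos (nat_lit 158302208) (nat_lit 240353280)) (I.mix (nat_lit 1474560) (nat_lit 50036736)) (I.mix (nat_lit 2703360) (nat_lit 97714176)) (I.pos (nat_lit 92553216) (nat_lit 219480064)) (I.mix (nat_lit 108199936) (nat_lit 69959680)) (I.mix (nat_lit 81854464) (nat_lit 74809344)) (I.mix (nat_lit 118505472) (nat_lit 97189888)))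
  false (nat_lit 50092423)
def b3_1 : Bx := Bx.mk (St.mk (I.pos (nat_lit 122781696) (nat_lit 187957248)) (I.neg (nat_lit 3735552) (nat_lit 47775744)) (I.mix (nat_lit 44531712) (nat_lit 5505024)) (I.pos (nat_lit 72826880) (nat_lit 147881984)) (I.mix (nat_lit 62652416) (nat_lit 34455552)) (I.mix (nat_lit 31440896) (nat_lit 46120960)) (I.mix (nat_lit 27820032) (nat_lit 46874624)))
  false (nat_lit 16556196)
def b3_2 : Bx := Bx.mk (St.mk (I.mix (nat_lit 11632640) (nat_lit 118636544)) (I.mix (nat_lit 24985600) (nat_lit 4800512)) (I.mix (nat_lit 17252352) (nat_lit 6537216)) (I.mix (nat_lit 2523136) (nat_lit 67387392)) (I.mix (nat_lit 27787264) (nat_lit 20873216)) (I.mix (nat_lit 16400384) (nat_lit 20725760)) (I.mix (nat_lit 10256384) (nat_lit 14647296)))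
  false (nat_lit 0)
def b3_3 : Bx := Bx.mk (St.mk (I.pos (nat_lit 175423488) (nat_lit 216236032)) (I.mix (nat_lit 10993664) (nat_lit 44793856)) (I.pos (nat_lit 6848512) (nat_lit 84803584)) (I.pos (nat_lit 119947264) (nat_lit 188301312)) (I.mix (nat_lit 112852992) (nat_lit 42926080)) (I.mix (nat_lit 107282432) (nat_lit 52477952)) (I.mix (nat_lit 128221184) (nat_lit 52477952)))
  false (nat_lit 17730328)
def b3_4 : Bx := Bx.mk (St.mk (I.mix (nat_lit 14483456) (nat_lit 133021696)) (I.mix (nat_lit 12779520) (nat_lit 30064640)) (I.mix (nat_lit 8224768) (nat_lit 28950528)) (I.mix (nat_lit 2899968) (nat_lit 80642048)) (I.mix (nat_lit 48988160) (nat_lit 24739840)) (I.mix (nat_lit 40960000) (nat_lit 21889024)) (I.mix (nat_lit 29933568) (nat_lit 13828096)))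
  false (nat_lit 0)
def b3_5 : Bx := Bx.mk (St.mk (I.pos (nat_lit 157614080) (nat_lit 213139456)) (I.mix (nat_lit 39092224) (nat_lit 11681792)) (I.mix (nat_lit 35356672) (nat_lit 36929536)) (I.pos (nat_lit 100679680) (nat_lit 178274304)) (I.mix (nat_lit 44875776) (nat_lit 44122112)) (I.mix (nat_lit 42876928) (nat_lit 40321024)) (I.mix (nat_lit 44777472) (nat_lit 43139072)))
  false (nat_lit 2345840)
def b3_6 : Bx := Bx.mk (St.mk (I.pos (nat_lit 38584320) (nat_lit 140034048)) (I.mix (nat_lit 5193728) (nat_lit 22855680)) (I.mix (nat_lit 5046272) (nat_lit 24412160)) (I.pos (nat_lit 12500992) (nat_lit 89145344)) (I.mix (nat_lit 35176448) (nat_lit 28459008)) (I.mix (nat_lit 28639232) (nat_lit 24018944)) (I.mix (nat_lit 24788992) (nat_lit 18432000)))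
  false (nat_lit 0)
def b3_7 : Bx := Bx.mk (St.mk (I.pos (nat_lit 117424128) (nat_lit 159105024)) (I.mix (nat_lit 44695552) (nat_lit 6340608)) (I.mix (nat_lit 43859968) (nat_lit 9486336)) (I.pos (nat_lit 54050816) (nat_lit 108167168)) (I.mix (nat_lit 76283904) (nat_lit 28868608)) (I.mix (nat_lit 31129600) (nat_lit 68190208)) (I.mix (nat_lit 26492928) (nat_lit 59834368)))
  false (nat_lit 0)
def b3_8 : Bx := Bx.mk (St.mk (I.mix (nat_lit 8142848) (nat_lit 107233280)) (I.mix (nat_lit 22872064) (nat_lit 507904)) (I.mix (nat_lit 15613952) (nat_lit 4177920)) (I.mix (nat_lit 65536) (nat_lit 58769408)) (I.mix (nat_lit 31457280) (nat_lit 16482304)) (I.mix (nat_lit 16007168) (nat_lit 25509888)) (I.mix (nat_lit 9551872) (nat_lit 15286272)))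
  false (nat_lit 0)
def b3_9 : Bx := Bx.mk (St.mk (I.pos (nat_lit 191627264) (nat_lit 282705920)) (I.mix (nat_lit 18841600) (nat_lit 36438016)) (I.mix (nat_lit 34766848) (nat_lit 77021184)) (I.pos (nat_lit 167624704) (nat_lit 313212928)) (I.mix (nat_lit 77660160) (nat_lit 51888128)) (I.mix (nat_lit 55721984) (nat_lit 35176448)) (I.mix (nat_lit 88047616) (nat_lit 58343424)))
  false (nat_lit 41758670)
def b3_10 : Bx := Bx.mk (St.mk (I.pos (nat_lit 182992896) (nat_lit 240566272)) (I.pos (nat_lit 5668864) (nat_lit 48955392)) (I.pos (nat_lit 19136512) (nat_lit 96698368)) (I.pos (nat_lit 157908992) (nat_lit 217022464)) (I.mix (nat_lit 94748672) (nat_lit 70025216)) (I.mix (nat_lit 86228992) (nat_lit 61259776)) (I.mix (nat_lit 128909312) (nat_lit 76808192)))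
  false (nat_lit 44665151)
def b3_11 : Bx := Bx.mk (St.mk (I.pos (nat_lit 175259648) (nat_lit 214794240)) (I.mix (nat_lit 15466496) (nat_lit 27426816)) (I.pos (nat_lit 1114112) (nat_lit 59523072)) (I.pos (nat_lit 119455744) (nat_lit 181927936)) (I.mix (nat_lit 98123776) (nat_lit 51625984)) (I.mix (nat_lit 102793216) (nat_lit 45678592)) (I.mix (nat_lit 119635968) (nat_lit 47349760)))
  false (nat_lit 33223674)
def t3 : BTr := (BTr.n (BTr.n (BTr.n (BTr.b b3_0) (BTr.n (BTr.b b3_1) (BTr.b b3_2))) (BTr.n (BTr.b b3_3) (BTr.n (BTr.b b3_4) (BTr.b b3_5)))) (BTr.n (BTr.n (BTr.b b3_6) (BTr.n (BTr.b b3_7) (BTr.b b3_8))) (BTr.n (BTr.b b3_9) (BTr.n (BTr.b b3_10) (BTr.b b3_11)))))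
namespace T3
def l0 : Tr := Tr.L (Pth.l (Pth.l (Pth.l Pth.z)))
def l1 : Tr := Tr.L (Pth.l (Pth.l (Pth.r (Pth.l Pth.z))))
def l2 : Tr := Tr.L (Pth.l (Pth.l (Pth.r (Pth.r Pth.z))))
def l3 : Tr := Tr.L (Pth.l (Pth.r (Pth.l Pth.z)))
def l4 : Tr := Tr.L (Pth.l (Pth.r (Pth.r (Pth.l Pth.z))))
def l5 : Tr := Tr.L (Pth.l (Pth.r (Pth.r (Pth.r Pth.z))))
def l6 : Tr := Tr.L (Pth.r (Pth.l (Pth.l Pth.z)))
def l7 : Tr := Tr.L (Pth.r (Pth.l (Pth.r (Pth.l Pth.z))))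
def l8 : Tr := Tr.L (Pth.r (Pth.l (Pth.r (Pth.r Pth.z))))
def l9 : Tr := Tr.L (Pth.r (Pth.r (Pth.l Pth.z)))
def l10 : Tr := Tr.L (Pth.r (Pth.r (Pth.r (Pth.l Pth.z))))
def l11 : Tr := Tr.L (Pth.r (Pth.r (Pth.r (Pth.r Pth.z))))
end T3
def b4_0 : Bx := Bx.mk (St.mk (I.pos (nat_lit 158203904) (nat_lit 235814912)) (I.mix (nat_lit 1687552) (nat_lit 56082432)) (I.mix (nat_lit 2785280) (nat_lit 98336768)) (I.pos (nat_lit 138461184) (nat_lit 262209536)) (I.mix (nat_lit 105971712) (nat_lit 64487424)) (I.mix (nat_lit 74940416) (nat_lit 66535424)) (I.mix (nat_lit 98123776) (nat_lit 85753856)))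
  false (nat_lit 95539313)
def b4_1 : Bx := Bx.mk (St.mk (I.pos (nat_lit 102711296) (nat_lit 174899200)) (I.neg (nat_lit 6914048) (nat_lit 54837248)) (I.mix (nat_lit 49725440) (nat_lit 5619712)) (I.pos (nat_lit 98959360) (nat_lit 176881664)) (I.mix (nat_lit 66715648) (nat_lit 35667968)) (I.mix (nat_lit 31866880) (nat_lit 47038464)) (I.mix (nat_lit 26984448) (nat_lit 43057152)))
  false (nat_lit 0)
def b4_2 : Bx := Bx.mk (St.mk (I.mix (nat_lit 32866304) (nat_lit 84508672)) (I.mix (nat_lit 33669120) (nat_lit 5554176)) (I.mix (nat_lit 19038208) (nat_lit 6815744)) (I.pos (nat_lit 38092800) (nat_lit 89473024)) (I.mix (nat_lit 34258944) (nat_lit 30507008)) (I.mix (nat_lit 20578304) (nat_lit 29392896)) (I.mix (nat_lit 10698752) (nat_lit 15712256)))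
  false (nat_lit 0)
def b4_3 : Bx := Bx.mk (St.mk (I.pos (nat_lit 165937152) (nat_lit 214302720)) (I.mix (nat_lit 7389184) (nat_lit 54902784)) (I.pos (nat_lit 10715136) (nat_lit 92536832)) (I.pos (nat_lit 153583616) (nat_lit 230162432)) (I.mix (nat_lit 116441088) (nat_lit 38879232)) (I.mix (nat_lit 105742336) (nat_lit 55656448)) (I.mix (nat_lit 113459200) (nat_lit 52051968)))
  false (nat_lit 51074971)
def b4_4 : Bx := Bx.mk (St.mk (I.mix (nat_lit 37126144) (nat_lit 106512384)) (I.mix (nat_lit 11878400) (nat_lit 35471360)) (I.mix (nat_lit 7159808) (nat_lit 27049984)) (I.pos (nat_lit 40796160) (nat_lit 105037824)) (I.mix (nat_lit 48250880) (nat_lit 22052864)) (I.mix (nat_lit 41762816) (nat_lit 21643264)) (I.mix (nat_lit 23183360) (nat_lit 13025280)))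
  false (nat_lit 0)
def b4_5 : Bx := Bx.mk (St.mk (I.mix (nat_lit 25903104) (nat_lit 118718464)) (I.mix (nat_lit 5095424) (nat_lit 32849920)) (I.mix (nat_lit 9469952) (nat_lit 24477696)) (I.pos (nat_lit 40108032) (nat_lit 114016256)) (I.mix (nat_lit 39698432) (nat_lit 32276480)) (I.mix (nat_lit 32325632) (nat_lit 24641536)) (I.mix (nat_lit 23199744) (nat_lit 17022976)))
  false (nat_lit 0)
def b4_6 : Bx := Bx.mk (St.mk (I.pos (nat_lit 94011392) (nat_lit 141115392)) (I.mix (nat_lit 53395456) (nat_lit 5914624)) (I.mix (nat_lit 49168384) (nat_lit 3751936)) (I.pos (nat_lit 80527360) (nat_lit 134512640)) (I.mix (nat_lit 74006528) (nat_lit 28131328)) (I.mix (nat_lit 28491776) (nat_lit 64847872)) (I.mix (nat_lit 20480000) (nat_lit 48709632)))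
  false (nat_lit 0)
def b4_7 : Bx := Bx.mk (St.mk (I.mix (nat_lit 34701312) (nat_lit 69992448)) (I.mix (nat_lit 28524544) (nat_lit 2392064)) (I.mix (nat_lit 14712832) (nat_lit 5226496)) (I.pos (nat_lit 41631744) (nat_lit 81870848)) (I.mix (nat_lit 27164672) (nat_lit 16465920)) (I.mix (nat_lit 10452992) (nat_lit 23822336)) (I.mix (nat_lit 6782976) (nat_lit 9175040)))
  false (nat_lit 0)
def b4_8 : Bx := Bx.mk (St.mk (I.pos (nat_lit 147750912) (nat_lit 206684160)) (I.mix (nat_lit 37404672) (nat_lit 16596992)) (I.mix (nat_lit 32440320) (nat_lit 42123264)) (I.pos (nat_lit 132382720) (nat_lit 213975040)) (I.mix (nat_lit 49889280) (nat_lit 45596672)) (I.mix (nat_lit 45219840) (nat_lit 41615360)) (I.mix (nat_lit 44630016) (nat_lit 41598976)))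
  false (nat_lit 0)
def b4_9 : Bx := Bx.mk (St.mk (I.pos (nat_lit 187531264) (nat_lit 282034176)) (I.mix (nat_lit 16482304) (nat_lit 43581440)) (I.mix (nat_lit 46153728) (nat_lit 77299712)) (I.pos (nat_lit 205291520) (nat_lit 356302848)) (I.mix (nat_lit 75464704) (nat_lit 54788096)) (I.mix (nat_lit 52445184) (nat_lit 36618240)) (I.mix (nat_lit 87162880) (nat_lit 56279040)))
  false (nat_lit 76919820)
def b4_10 : Bx := Bx.mk (St.mk (I.pos (nat_lit 177831936) (nat_lit 234684416)) (I.pos (nat_lit 10256384) (nat_lit 52723712)) (I.pos (nat_lit 21544960) (nat_lit 93208576)) (I.pos (nat_lit 193871872) (nat_lit 254099456)) (I.mix (nat_lit 99237888) (nat_lit 67485696)) (I.mix (nat_lit 83001344) (nat_lit 56344576)) (I.mix (nat_lit 124223488) (nat_lit 65765376)))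
  false (nat_lit 50101787)
def b4_11 : Bx := Bx.mk (St.mk (I.pos (nat_lit 167968768) (nat_lit 208764928)) (I.mix (nat_lit 11878400) (nat_lit 34603008)) (I.pos (nat_lit 4603904) (nat_lit 67190784)) (I.pos (nat_lit 154501120) (nat_lit 220020736)) (I.mix (nat_lit 105496576) (nat_lit 47398912)) (I.mix (nat_lit 110051328) (nat_lit 45367296)) (I.mix (nat_lit 118816768) (nat_lit 45170688)))
  false (nat_lit 25849741)
def t4 : BTr := (BTr.n (BTr.n (BTr.n (BTr.b b4_0) (BTr.n (BTr.b b4_1) (BTr.b b4_2))) (BTr.n (BTr.b b4_3) (BTr.n (BTr.b b4_4) (BTr.b b4_5)))) (BTr.n (BTr.n (BTr.b b4_6) (BTr.n (BTr.b b4_7) (BTr.b b4_8))) (BTr.n (BTr.b b4_9) (BTr.n (BTr.b b4_10) (BTr.b b4_11)))))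
namespace T4
def l0 : Tr := Tr.L (Pth.l (Pth.l (Pth.l Pth.z)))
def l1 : Tr := Tr.L (Pth.l (Pth.l (Pth.r (Pth.l Pth.z))))
def l2 : Tr := Tr.L (Pth.l (Pth.l (Pth.r (Pth.r Pth.z))))
def l3 : Tr := Tr.L (Pth.l (Pth.r (Pth.l Pth.z)))
def l4 : Tr := Tr.L (Pth.l (Pth.r (Pth.r (Pth.l Pth.z))))
def l5 : Tr := Tr.L (Pth.l (Pth.r (Pth.r (Pth.r Pth.z))))
def l6 : Tr := Tr.L (Pth.r (Pth.l (Pth.l Pth.z)))
def l7 : Tr := Tr.L (Pth.r (Pth.l (Pth.r (Pth.l Pth.z))))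
def l8 : Tr := Tr.L (Pth.r (Pth.l (Pth.r (Pth.r Pth.z))))
def l9 : Tr := Tr.L (Pth.r (Pth.r (Pth.l Pth.z)))
def l10 : Tr := Tr.L (Pth.r (Pth.r (Pth.r (Pth.l Pth.z))))
def l11 : Tr := Tr.L (Pth.r (Pth.r (Pth.r (Pth.r Pth.z))))
end T4
def b5_0 : Bx := Bx.mk (St.mk (I.pos (nat_lit 158367744) (nat_lit 237977600)) (I.mix (nat_lit 1556480) (nat_lit 51101696)) (I.mix (nat_lit 2850816) (nat_lit 99614720)) (I.pos (nat_lit 111656960) (nat_lit 235438080)) (I.mix (nat_lit 111017984) (nat_lit 68190208)) (I.mix (nat_lit 84312064) (nat_lit 74088448)) (I.mix (nat_lit 119259136) (nat_lit 93208576)))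
  false (nat_lit 47793680)
def b5_1 : Bx := Bx.mk (St.mk (I.pos (nat_lit 115490816) (nat_lit 184123392)) (I.neg (nat_lit 4243456) (nat_lit 50790400)) (I.mix (nat_lit 45547520) (nat_lit 9240576)) (I.pos (nat_lit 84901888) (nat_lit 161005568)) (I.mix (nat_lit 62849024) (nat_lit 35373056)) (I.mix (nat_lit 29917184) (nat_lit 46104576)) (I.mix (nat_lit 26558464) (nat_lit 45662208)))
  false (nat_lit 471028)
def b5_2 : Bx := Bx.mk (St.mk (I.mix (nat_lit 22790144) (nat_lit 105463808)) (I.mix (nat_lit 27738112) (nat_lit 5390336)) (I.mix (nat_lit 15974400) (nat_lit 8503296)) (I.pos (nat_lit 15187968) (nat_lit 76120064)) (I.mix (nat_lit 28311552) (nat_lit 27672576)) (I.mix (nat_lit 19218432) (nat_lit 26263552)) (I.mix (nat_lit 11304960) (nat_lit 15925248)))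
  false (nat_lit 0)
def b5_3 : Bx := Bx.mk (St.mk (I.pos (nat_lit 170999808) (nat_lit 215040000)) (I.mix (nat_lit 9453568) (nat_lit 48594944)) (I.pos (nat_lit 10813440) (nat_lit 90324992)) (I.pos (nat_lit 132710400) (nat_lit 204603392)) (I.mix (nat_lit 112492544) (nat_lit 38617088)) (I.mix (nat_lit 106987520) (nat_lit 50282496)) (I.mix (nat_lit 120913920) (nat_lit 47579136)))
  false (nat_lit 29640139)
def b5_4 : Bx := Bx.mk (St.mk (I.mix (nat_lit 24576000) (nat_lit 121520128)) (I.mix (nat_lit 12812288) (nat_lit 32145408)) (I.mix (nat_lit 6340608) (nat_lit 29982720)) (I.pos (nat_lit 15761408) (nat_lit 89571328)) (I.mix (nat_lit 48693248) (nat_lit 22609920)) (I.mix (nat_lit 41828352) (nat_lit 21659648)) (I.mix (nat_lit 27492352) (nat_lit 12763136)))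
  false (nat_lit 0)
def b5_5 : Bx := Bx.mk (St.mk (I.pos (nat_lit 153255936) (nat_lit 210960384)) (I.mix (nat_lit 39813120) (nat_lit 12468224)) (I.mix (nat_lit 32489472) (nat_lit 41091072)) (I.pos (nat_lit 113475584) (nat_lit 191430656)) (I.mix (nat_lit 46956544) (nat_lit 43417600)) (I.mix (nat_lit 42811392) (nat_lit 40108032)) (I.mix (nat_lit 43352064) (nat_lit 41910272)))
  false (nat_lit 25274115)
def b5_6 : Bx := Bx.mk (St.mk (I.mix (nat_lit 17481728) (nat_lit 131989504)) (I.mix (nat_lit 4734976) (nat_lit 26181632)) (I.mix (nat_lit 4341760) (nat_lit 25968640)) (I.pos (nat_lit 15056896) (nat_lit 98992128)) (I.mix (nat_lit 38584320) (nat_lit 31440896)) (I.mix (nat_lit 31309824) (nat_lit 25772032)) (I.mix (nat_lit 25051136) (nat_lit 19365888)))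
  false (nat_lit 0)
def b5_7 : Bx := Bx.mk (St.mk (I.pos (nat_lit 108232704) (nat_lit 151306240)) (I.mix (nat_lit 49315840) (nat_lit 6012928)) (I.mix (nat_lit 44646400) (nat_lit 9125888)) (I.pos (nat_lit 65470464) (nat_lit 119521280)) (I.mix (nat_lit 78987264) (nat_lit 28393472)) (I.mix (nat_lit 33980416) (nat_lit 68747264)) (I.mix (nat_lit 26411008) (nat_lit 54493184)))
  false (nat_lit 0)
def b5_8 : Bx := Bx.mk (St.mk (I.pos (nat_lit 170311680) (nat_lit 213942272)) (I.mix (nat_lit 15040512) (nat_lit 30507008)) (I.pos (nat_lit 4980736) (nat_lit 66224128)) (I.pos (nat_lit 131645440) (nat_lit 197115904)) (I.mix (nat_lit 102957056) (nat_lit 52314112)) (I.mix (nat_lit 107479040) (nat_lit 45318144)) (I.mix (nat_lit 121028608) (nat_lit 45023232)))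
  false (nat_lit 24374364)
def b5_9 : Bx := Bx.mk (St.mk (I.mix (nat_lit 19152896) (nat_lit 93290496)) (I.neg (nat_lit 1196032) (nat_lit 25427968)) (I.mix (nat_lit 14270464) (nat_lit 6242304)) (I.pos (nat_lit 16449536) (nat_lit 67633152)) (I.mix (nat_lit 32768000) (nat_lit 19513344)) (I.mix (nat_lit 18120704) (nat_lit 25378816)) (I.mix (nat_lit 9388032) (nat_lit 12550144)))
  false (nat_lit 0)
def b5_10 : Bx := Bx.mk (St.mk (I.pos (nat_lit 187924480) (nat_lit 281853952)) (I.mix (nat_lit 15368192) (nat_lit 39698432)) (I.mix (nat_lit 27262976) (nat_lit 83279872)) (I.pos (nat_lit 180158464) (nat_lit 328712192)) (I.mix (nat_lit 80134144) (nat_lit 54689792)) (I.mix (nat_lit 58032128) (nat_lit 38043648)) (I.mix (nat_lit 88293376) (nat_lit 57737216)))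
  false (nat_lit 69009859)
def b5_11 : Bx := Bx.mk (St.mk (I.pos (nat_lit 179224576) (nat_lit 238190592)) (I.pos (nat_lit 6537216) (nat_lit 50888704)) (I.pos (nat_lit 21807104) (nat_lit 100450304)) (I.pos (nat_lit 170491904) (nat_lit 230965248)) (I.mix (nat_lit 98435072) (nat_lit 73089024)) (I.mix (nat_lit 89292800) (nat_lit 63373312)) (I.mix (nat_lit 131366912) (nat_lit 77299712)))
  false (nat_lit 45518128)
def t5 : BTr := (BTr.n (BTr.n (BTr.n (BTr.b b5_0) (BTr.n (BTr.b b5_1) (BTr.b b5_2))) (BTr.n (BTr.b b5_3) (BTr.n (BTr.b b5_4) (BTr.b b5_5)))) (BTr.n (BTr.n (BTr.b b5_6) (BTr.n (BTr.b b5_7) (BTr.b b5_8))) (BTr.n (BTr.b b5_9) (BTr.n (BTr.b b5_10) (BTr.b b5_11)))))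
namespace T5
def l0 : Tr := Tr.L (Pth.l (Pth.l (Pth.l Pth.z)))
def l1 : Tr := Tr.L (Pth.l (Pth.l (Pth.r (Pth.l Pth.z))))
def l2 : Tr := Tr.L (Pth.l (Pth.l (Pth.r (Pth.r Pth.z))))
def l3 : Tr := Tr.L (Pth.l (Pth.r (Pth.l Pth.z)))
def l4 : Tr := Tr.L (Pth.l (Pth.r (Pth.r (Pth.l Pth.z))))
def l5 : Tr := Tr.L (Pth.l (Pth.r (Pth.r (Pth.r Pth.z))))
def l6 : Tr := Tr.L (Pth.r (Pth.l (Pth.l Pth.z)))
def l7 : Tr := Tr.L (Pth.r (Pth.l (Pth.r (Pth.l Pth.z))))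
def l8 : Tr := Tr.L (Pth.r (Pth.l (Pth.r (Pth.r Pth.z))))
def l9 : Tr := Tr.L (Pth.r (Pth.r (Pth.l Pth.z)))
def l10 : Tr := Tr.L (Pth.r (Pth.r (Pth.r (Pth.l Pth.z))))
def l11 : Tr := Tr.L (Pth.r (Pth.r (Pth.r (Pth.r Pth.z))))
end T5
theorem bx0_0 : BoxOK sI cl7 cl9 cl13 t2 t4 b0_0 :=
  box_mk (TrL.c (I.pos (nat_lit 0) (nat_lit 0)) (xa (xb T2.l0 (xa T2.l0 T2.l0)) (xa (xb T2.l0 T2.l0) (xb T2.l0 T2.l0)))
  (TrL.c (I.pos (nat_lit 0) (nat_lit 0)) (xa (xk T4.l1 T4.l1) (xk (xb T4.l1 T4.l1) T4.l1))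
  (TrL.c (I.pos (nat_lit 0) (nat_lit 111196574)) (xR T2.l1 T2.l1)
  (TrL.c (I.pos (nat_lit 0) (nat_lit 77433728)) T4.l2
  (TrL.c (I.pos (nat_lit 0) (nat_lit 0)) (xa (xk (xb T4.l3 T4.l3) (xb T4.l3 T4.l3)) (xk (xb T4.l3 (xa T4.l3 T4.l3)) (xb T4.l3 (xa T4.l3 T4.l3))))
  (TrL.c (I.pos (nat_lit 0) (nat_lit 0)) (xk T2.l2 T2.l2)
  (TrL.c (I.mix (nat_lit 29511666) (nat_lit 77433728)) (xR T4.l4 T4.l4)
  (TrL.c (I.mix (nat_lit 29511666) (nat_lit 46070178)) T2.l3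
  TrL.n)))))))) (by decide +kernel)
theorem bx0_1 : BoxOK sI cl7 cl9 cl13 t2 t4 b0_1 :=
  box_mk (TrL.c (I.pos (nat_lit 0) (nat_lit 0)) (xa (xa T2.l8 T2.l8) (xa T2.l8 T2.l8))
  (TrL.c (I.pos (nat_lit 0) (nat_lit 0)) (xa T4.l1 T4.l1)
  (TrL.c (I.pos (nat_lit 0) (nat_lit 111196574)) T2.l1
  (TrL.c (I.pos (nat_lit 0) (nat_lit 77433728)) T4.l2
  (TrL.c (I.pos (nat_lit 0) (nat_lit 0)) (xa T4.l8 T4.l8)
  (TrL.c (I.pos (nat_lit 0) (nat_lit 0)) T2.l2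
  (TrL.c (I.mix (nat_lit 29511666) (nat_lit 77433728)) T4.l4
  (TrL.c (I.mix (nat_lit 29511666) (nat_lit 46070178)) T2.l3
  TrL.n)))))))) (by decide +kernel)
theorem bx0_2 : BoxOK sI cl7 cl9 cl13 t2 t4 b0_2 :=
  box_mk (TrL.c (I.pos (nat_lit 0) (nat_lit 0)) T2.l8
  (TrL.c (I.pos (nat_lit 0) (nat_lit 0)) T4.l1
  (TrL.c (I.pos (nat_lit 0) (nat_lit 111196574)) T2.l1
  (TrL.c (I.pos (nat_lit 0) (nat_lit 77433728)) T4.l2
  (TrL.c (I.pos (nat_lit 0) (nat_lit 0)) (xb T4.l8 T4.l8)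
  (TrL.c (I.pos (nat_lit 0) (nat_lit 0)) T2.l2
  (TrL.c (I.mix (nat_lit 29511666) (nat_lit 77433728)) (xR T4.l4 T4.l4)
  (TrL.c (I.mix (nat_lit 29511666) (nat_lit 46070178)) T2.l3
  TrL.n)))))))) (by decide +kernel)
theorem bx0_3 : BoxOK sI cl7 cl9 cl13 t2 t4 b0_3 :=
  box_mk (TrL.c (I.pos (nat_lit 0) (nat_lit 0)) T2.l8
  (TrL.c (I.pos (nat_lit 0) (nat_lit 0)) (xa T4.l1 T4.l1)
  (TrL.c (I.pos (nat_lit 0) (nat_lit 111196574)) T2.l1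
  (TrL.c (I.pos (nat_lit 0) (nat_lit 77433728)) T4.l2
  (TrL.c (I.pos (nat_lit 0) (nat_lit 0)) (xa T4.l8 T4.l8)
  (TrL.c (I.pos (nat_lit 0) (nat_lit 0)) T2.l2
  (TrL.c (I.mix (nat_lit 29511666) (nat_lit 77433728)) T4.l4
  (TrL.c (I.mix (nat_lit 29511666) (nat_lit 46070178)) T2.l3
  TrL.n)))))))) (by decide +kernel)
theorem bx0_4 : BoxOK sI cl7 cl9 cl13 t2 t4 b0_4 :=
  box_mk (TrL.c (I.pos (nat_lit 0) (nat_lit 0)) (xa (xb T2.l0 T2.l0) (xb T2.l0 (xa T2.l0 T2.l0)))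
  (TrL.c (I.pos (nat_lit 0) (nat_lit 0)) (xa (xb T4.l1 (xk T4.l1 T4.l1)) (xk (xb T4.l1 T4.l6) (xb T4.l6 T4.l1)))
  (TrL.c (I.pos (nat_lit 0) (nat_lit 111196574)) (xR T2.l1 T2.l7)
  (TrL.c (I.pos (nat_lit 0) (nat_lit 77433728)) T4.l2
  (TrL.c (I.pos (nat_lit 0) (nat_lit 0)) (xa (xb (xk (xa T4.l3 (xb T4.l3 T4.l3)) (xa T4.l3 (xb T4.l3 T4.l3))) (xk T4.l3 T4.l3)) (xb (xk (xa (xb (xk T4.l3 T4.l3) T4.l3) (xk (xb (xa T4.l3 T4.l3) T4.l3) (xb (xa T4.l3 T4.l3) T4.l3))) (xa (xb (xk T4.l3 T4.l3) T4.l3) (xb (xk T4.l3 T4.l3) T4.l3))) (xk (xa T4.l3 (xk (xb T4.l3 (xa T4.l3 T4.l3)) (xb T4.l3 T4.l3))) (xa T4.l3 (xb (xk T4.l3 T4.l3) (xk T4.l3 T4.l3))))))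
  (TrL.c (I.pos (nat_lit 0) (nat_lit 0)) (xk (xa T2.l2 (xb T2.l4 T2.l2)) (xa T2.l2 T2.l2))
  (TrL.c (I.mix (nat_lit 29511666) (nat_lit 77433728)) (xR T4.l4 (xR T4.l4 T4.l4))
  (TrL.c (I.mix (nat_lit 29511666) (nat_lit 46070178)) T2.l5
  TrL.n)))))))) (by decide +kernel)
theorem bx0_5 : BoxOK sI cl7 cl9 cl13 t2 t4 b0_5 :=
  box_mk (TrL.c (I.pos (nat_lit 0) (nat_lit 0)) (xa T2.l8 T2.l0)
  (TrL.c (I.pos (nat_lit 0) (nat_lit 0)) T4.l1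
  (TrL.c (I.pos (nat_lit 0) (nat_lit 111196574)) (xR T2.l1 T2.l1)
  (TrL.c (I.pos (nat_lit 0) (nat_lit 77433728)) T4.l2
  (TrL.c (I.pos (nat_lit 0) (nat_lit 0)) (xk (xa T4.l8 T4.l8) (xa T4.l8 T4.l8))
  (TrL.c (I.pos (nat_lit 0) (nat_lit 0)) T2.l2
  (TrL.c (I.mix (nat_lit 29511666) (nat_lit 77433728)) (xR T4.l4 T4.l4)
  (TrL.c (I.mix (nat_lit 29511666) (nat_lit 46070178)) T2.l3
  TrL.n)))))))) (by decide +kernel)
theorem bx0_6 : BoxOK sI cl7 cl9 cl13 t2 t4 b0_6 :=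
  box_mk (TrL.c (I.pos (nat_lit 0) (nat_lit 0)) (xa (xa T2.l8 T2.l8) T2.l8)
  (TrL.c (I.pos (nat_lit 0) (nat_lit 0)) (xa T4.l1 T4.l1)
  (TrL.c (I.pos (nat_lit 0) (nat_lit 111196574)) T2.l1
  (TrL.c (I.pos (nat_lit 0) (nat_lit 77433728)) T4.l2
  (TrL.c (I.pos (nat_lit 0) (nat_lit 0)) (xa T4.l8 T4.l8)
  (TrL.c (I.pos (nat_lit 0) (nat_lit 0)) T2.l2
  (TrL.c (I.mix (nat_lit 29511666) (nat_lit 77433728)) T4.l4
  (TrL.c (I.mix (nat_lit 29511666) (nat_lit 46070178)) T2.l3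
  TrL.n)))))))) (by decide +kernel)
theorem bx0_7 : BoxOK sI cl7 cl9 cl13 t2 t4 b0_7 :=
  box_mk (TrL.c (I.pos (nat_lit 0) (nat_lit 0)) (xb T2.l11 (xa T2.l11 T2.l11))
  (TrL.c (I.pos (nat_lit 0) (nat_lit 0)) (xk (xb T4.l1 T4.l1) (xb T4.l1 T4.l1))
  (TrL.c (I.pos (nat_lit 0) (nat_lit 111196574)) (xR T2.l1 T2.l1)
  (TrL.c (I.pos (nat_lit 0) (nat_lit 77433728)) T4.l2
  (TrL.c (I.pos (nat_lit 0) (nat_lit 0)) (xb (xk (xa T4.l11 T4.l11) (xa T4.l11 T4.l11)) (xk (xa T4.l11 T4.l11) (xb T4.l11 T4.l11)))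
  (TrL.c (I.pos (nat_lit 0) (nat_lit 0)) T2.l2
  (TrL.c (I.mix (nat_lit 29511666) (nat_lit 77433728)) (xR T4.l4 T4.l4)
  (TrL.c (I.mix (nat_lit 29511666) (nat_lit 46070178)) T2.l3
  TrL.n)))))))) (by decide +kernel)
theorem bx0_8 : BoxOK sI cl7 cl9 cl13 t2 t4 b0_8 :=
  box_mk (TrL.c (I.pos (nat_lit 0) (nat_lit 0)) (xa (xa (xb T2.l8 T2.l8) T2.l8) (xa T2.l8 T2.l8))
  (TrL.c (I.pos (nat_lit 0) (nat_lit 0)) (xa T4.l1 T4.l1)
  (TrL.c (I.pos (nat_lit 0) (nat_lit 111196574)) T2.l1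
  (TrL.c (I.pos (nat_lit 0) (nat_lit 77433728)) T4.l2
  (TrL.c (I.pos (nat_lit 0) (nat_lit 0)) (xa T4.l8 T4.l8)
  (TrL.c (I.pos (nat_lit 0) (nat_lit 0)) T2.l2
  (TrL.c (I.mix (nat_lit 29511666) (nat_lit 77433728)) T4.l4
  (TrL.c (I.mix (nat_lit 29511666) (nat_lit 46070178)) T2.l3
  TrL.n)))))))) (by decide +kernel)
theorem bx0_9 : BoxOK sI cl7 cl9 cl13 t2 t4 b0_9 :=
  box_mk (TrL.c (I.pos (nat_lit 0) (nat_lit 0)) (xa T2.l0 T2.l0)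
  (TrL.c (I.pos (nat_lit 0) (nat_lit 0)) (xk T4.l1 T4.l1)
  (TrL.c (I.pos (nat_lit 0) (nat_lit 111196574)) (xR T2.l1 T2.l1)
  (TrL.c (I.pos (nat_lit 0) (nat_lit 77433728)) T4.l2
  (TrL.c (I.pos (nat_lit 0) (nat_lit 0)) (xk (xa T4.l3 T4.l3) (xa T4.l3 T4.l3))
  (TrL.c (I.pos (nat_lit 0) (nat_lit 0)) T2.l2
  (TrL.c (I.mix (nat_lit 29511666) (nat_lit 77433728)) (xR T4.l4 T4.l4)
  (TrL.c (I.mix (nat_lit 29511666) (nat_lit 46070178)) T2.l5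
  TrL.n)))))))) (by decide +kernel)
theorem bx0_10 : BoxOK sI cl7 cl9 cl13 t2 t4 b0_10 :=
  box_mk (TrL.c (I.pos (nat_lit 0) (nat_lit 0)) (xa T2.l0 T2.l0)
  (TrL.c (I.pos (nat_lit 0) (nat_lit 0)) T4.l1
  (TrL.c (I.pos (nat_lit 0) (nat_lit 111196574)) (xR T2.l1 T2.l1)
  (TrL.c (I.pos (nat_lit 0) (nat_lit 77433728)) T4.l2
  (TrL.c (I.pos (nat_lit 0) (nat_lit 0)) (xk (xb (xa T4.l11 T4.l11) T4.l11) (xa T4.l11 (xb T4.l11 T4.l11)))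
  (TrL.c (I.pos (nat_lit 0) (nat_lit 0)) T2.l2
  (TrL.c (I.mix (nat_lit 29511666) (nat_lit 77433728)) (xR T4.l4 T4.l4)
  (TrL.c (I.mix (nat_lit 29511666) (nat_lit 46070178)) T2.l3
  TrL.n)))))))) (by decide +kernel)
theorem bx0_11 : BoxOK sI cl7 cl9 cl13 t2 t4 b0_11 :=
  box_mk (TrL.c (I.pos (nat_lit 0) (nat_lit 0)) T2.l11
  (TrL.c (I.pos (nat_lit 0) (nat_lit 0)) T4.l1
  (TrL.c (I.pos (nat_lit 0) (nat_lit 111196574)) (xR T2.l1 T2.l1)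
  (TrL.c (I.pos (nat_lit 0) (nat_lit 77433728)) T4.l2
  (TrL.c (I.pos (nat_lit 0) (nat_lit 0)) (xk (xb T4.l11 T4.l11) (xb T4.l11 T4.l11))
  (TrL.c (I.pos (nat_lit 0) (nat_lit 0)) T2.l2
  (TrL.c (I.mix (nat_lit 29511666) (nat_lit 77433728)) (xR T4.l4 T4.l4)
  (TrL.c (I.mix (nat_lit 29511666) (nat_lit 46070178)) T2.l3
  TrL.n)))))))) (by decide +kernel)
theorem sv0 : StarV sI cl7 cl9 cl13 t2 t4 t0 :=
  (bt_n (bt_n (bt_n (bt_b bx0_0) (bt_n (bt_b bx0_1) (bt_b bx0_2))) (bt_n (bt_b bx0_3) (bt_n (bt_b bx0_4) (bt_b bx0_5)))) (bt_n (bt_n (bt_b bx0_6) (bt_n (bt_b bx0_7) (bt_b bx0_8))) (bt_n (bt_b bx0_9) (bt_n (bt_b bx0_10) (bt_b bx0_11)))))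
def S0 : StarD := StarD.mk cl7 cl9 cl13 2 4 t0
theorem bx1_0 : BoxOK sI cl7 cl13 cl9 t4 t2 b1_0 :=
  box_mk (TrL.c (I.pos (nat_lit 0) (nat_lit 0)) (xa (xa (xb T4.l0 T4.l0) (xb T4.l0 T4.l0)) (xa (xb T4.l0 T4.l0) (xb T4.l0 T4.l0)))
  (TrL.c (I.pos (nat_lit 0) (nat_lit 0)) (xa (xk (xb T2.l4 T2.l4) T2.l4) (xk (xb T2.l4 T2.l4) (xb T2.l4 T2.l4)))
  (TrL.c (I.pos (nat_lit 0) (nat_lit 111196574)) (xR T4.l5 T4.l5)
  (TrL.c (I.pos (nat_lit 0) (nat_lit 77433728)) T2.l5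
  (TrL.c (I.pos (nat_lit 0) (nat_lit 0)) (xa (xk (xb T2.l6 T2.l6) (xb T2.l6 T2.l6)) (xk (xb (xa T2.l6 T2.l6) (xa T2.l6 T2.l6)) (xb (xa T2.l6 T2.l6) (xa T2.l6 T2.l6))))
  (TrL.c (I.pos (nat_lit 0) (nat_lit 0)) (xk T4.l6 T4.l6)
  (TrL.c (I.mix (nat_lit 29511666) (nat_lit 77433728)) (xR T2.l7 T2.l7)
  (TrL.c (I.mix (nat_lit 29511666) (nat_lit 46070178)) T4.l2
  TrL.n)))))))) (by decide +kernel)
theorem bx1_1 : BoxOK sI cl7 cl13 cl9 t4 t2 b1_1 :=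
  box_mk (TrL.c (I.pos (nat_lit 0) (nat_lit 0)) (xa (xa T4.l9 T4.l9) (xa T4.l9 T4.l9))
  (TrL.c (I.pos (nat_lit 0) (nat_lit 0)) (xa T2.l4 T2.l4)
  (TrL.c (I.pos (nat_lit 0) (nat_lit 111196574)) T4.l5
  (TrL.c (I.pos (nat_lit 0) (nat_lit 77433728)) T2.l5
  (TrL.c (I.pos (nat_lit 0) (nat_lit 0)) (xa T2.l9 T2.l9)
  (TrL.c (I.pos (nat_lit 0) (nat_lit 0)) T4.l6
  (TrL.c (I.mix (nat_lit 29511666) (nat_lit 77433728)) (xR T2.l7 T2.l7)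
  (TrL.c (I.mix (nat_lit 29511666) (nat_lit 46070178)) T4.l7
  TrL.n)))))))) (by decide +kernel)
theorem bx1_2 : BoxOK sI cl7 cl13 cl9 t4 t2 b1_2 :=
  box_mk (TrL.c (I.pos (nat_lit 0) (nat_lit 0)) T4.l9
  (TrL.c (I.pos (nat_lit 0) (nat_lit 0)) T2.l4
  (TrL.c (I.pos (nat_lit 0) (nat_lit 111196574)) (xR T4.l5 T4.l5)
  (TrL.c (I.pos (nat_lit 0) (nat_lit 77433728)) T2.l5
  (TrL.c (I.pos (nat_lit 0) (nat_lit 0)) (xb T2.l9 T2.l9)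
  (TrL.c (I.pos (nat_lit 0) (nat_lit 0)) T4.l6
  (TrL.c (I.mix (nat_lit 29511666) (nat_lit 77433728)) (xR T2.l7 T2.l7)
  (TrL.c (I.mix (nat_lit 29511666) (nat_lit 46070178)) T4.l7
  TrL.n)))))))) (by decide +kernel)
theorem bx1_3 : BoxOK sI cl7 cl13 cl9 t4 t2 b1_3 :=
  box_mk (TrL.c (I.pos (nat_lit 0) (nat_lit 0)) T4.l9
  (TrL.c (I.pos (nat_lit 0) (nat_lit 0)) (xa T2.l4 T2.l4)
  (TrL.c (I.pos (nat_lit 0) (nat_lit 111196574)) T4.l5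
  (TrL.c (I.pos (nat_lit 0) (nat_lit 77433728)) T2.l5
  (TrL.c (I.pos (nat_lit 0) (nat_lit 0)) (xa T2.l9 T2.l9)
  (TrL.c (I.pos (nat_lit 0) (nat_lit 0)) T4.l6
  (TrL.c (I.mix (nat_lit 29511666) (nat_lit 77433728)) T2.l7
  (TrL.c (I.mix (nat_lit 29511666) (nat_lit 46070178)) T4.l2
  TrL.n)))))))) (by decide +kernel)
theorem bx1_4 : BoxOK sI cl7 cl13 cl9 t4 t2 b1_4 :=
  box_mk (TrL.c (I.pos (nat_lit 0) (nat_lit 0)) (xa (xb T4.l0 T4.l0) (xb T4.l0 (xa T4.l0 T4.l0)))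
  (TrL.c (I.pos (nat_lit 0) (nat_lit 0)) (xa (xb T2.l4 (xk T2.l4 T2.l4)) (xk T2.l2 (xb T2.l2 T2.l4)))
  (TrL.c (I.pos (nat_lit 0) (nat_lit 111196574)) (xR T4.l5 T4.l5)
  (TrL.c (I.pos (nat_lit 0) (nat_lit 77433728)) (xR T2.l5 T2.l5)
  (TrL.c (I.pos (nat_lit 0) (nat_lit 0)) (xa (xb (xk (xa T2.l6 (xb T2.l6 T2.l6)) (xa T2.l6 (xb T2.l6 T2.l6))) (xk T2.l6 T2.l6)) (xb (xk (xa (xb (xk T2.l6 T2.l6) T2.l6) (xk (xb (xa T2.l6 T2.l6) T2.l6) (xb (xa T2.l6 T2.l6) T2.l6))) (xa (xb T2.l6 T2.l6) (xb (xk T2.l6 T2.l6) T2.l6))) (xk (xa T2.l6 (xk (xb T2.l6 (xa T2.l6 T2.l6)) (xb T2.l6 T2.l6))) (xa T2.l6 (xk (xb T2.l6 T2.l6) (xb T2.l6 T2.l6))))))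
  (TrL.c (I.pos (nat_lit 0) (nat_lit 0)) (xk (xa T4.l6 (xb T4.l6 T4.l6)) (xa T4.l6 T4.l6))
  (TrL.c (I.mix (nat_lit 29511666) (nat_lit 77433728)) (xR T2.l7 (xR T2.l7 T2.l7))
  (TrL.c (I.mix (nat_lit 29511666) (nat_lit 46070178)) T4.l2
  TrL.n)))))))) (by decide +kernel)
theorem bx1_5 : BoxOK sI cl7 cl13 cl9 t4 t2 b1_5 :=
  box_mk (TrL.c (I.pos (nat_lit 0) (nat_lit 0)) (xa T4.l9 T4.l9)
  (TrL.c (I.pos (nat_lit 0) (nat_lit 0)) T2.l4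
  (TrL.c (I.pos (nat_lit 0) (nat_lit 111196574)) (xR T4.l5 T4.l5)
  (TrL.c (I.pos (nat_lit 0) (nat_lit 77433728)) T2.l5
  (TrL.c (I.pos (nat_lit 0) (nat_lit 0)) (xk (xa T2.l9 T2.l9) (xa T2.l9 T2.l9))
  (TrL.c (I.pos (nat_lit 0) (nat_lit 0)) T4.l6
  (TrL.c (I.mix (nat_lit 29511666) (nat_lit 77433728)) (xR T2.l7 T2.l7)
  (TrL.c (I.mix (nat_lit 29511666) (nat_lit 46070178)) T4.l7
  TrL.n)))))))) (by decide +kernel)
theorem bx1_6 : BoxOK sI cl7 cl13 cl9 t4 t2 b1_6 :=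
  box_mk (TrL.c (I.pos (nat_lit 0) (nat_lit 0)) (xa (xa T4.l9 T4.l9) T4.l9)
  (TrL.c (I.pos (nat_lit 0) (nat_lit 0)) (xa T2.l4 T2.l4)
  (TrL.c (I.pos (nat_lit 0) (nat_lit 111196574)) T4.l5
  (TrL.c (I.pos (nat_lit 0) (nat_lit 77433728)) T2.l5
  (TrL.c (I.pos (nat_lit 0) (nat_lit 0)) (xa T2.l9 T2.l9)
  (TrL.c (I.pos (nat_lit 0) (nat_lit 0)) T4.l6
  (TrL.c (I.mix (nat_lit 29511666) (nat_lit 77433728)) T2.l7
  (TrL.c (I.mix (nat_lit 29511666) (nat_lit 46070178)) T4.l2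
  TrL.n)))))))) (by decide +kernel)
theorem bx1_7 : BoxOK sI cl7 cl13 cl9 t4 t2 b1_7 :=
  box_mk (TrL.c (I.pos (nat_lit 0) (nat_lit 0)) (xb T4.l10 (xa T4.l10 T4.l10))
  (TrL.c (I.pos (nat_lit 0) (nat_lit 0)) (xk (xb T2.l4 T2.l4) (xb T2.l4 T2.l4))
  (TrL.c (I.pos (nat_lit 0) (nat_lit 111196574)) (xR T4.l5 T4.l5)
  (TrL.c (I.pos (nat_lit 0) (nat_lit 77433728)) T2.l5
  (TrL.c (I.pos (nat_lit 0) (nat_lit 0)) (xk (xb T2.l10 T2.l10) (xb T2.l10 T2.l10))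
  (TrL.c (I.pos (nat_lit 0) (nat_lit 0)) T4.l6
  (TrL.c (I.mix (nat_lit 29511666) (nat_lit 77433728)) (xR T2.l7 T2.l7)
  (TrL.c (I.mix (nat_lit 29511666) (nat_lit 46070178)) T4.l2
  TrL.n)))))))) (by decide +kernel)
theorem bx1_8 : BoxOK sI cl7 cl13 cl9 t4 t2 b1_8 :=
  box_mk (TrL.c (I.pos (nat_lit 0) (nat_lit 0)) (xa (xa (xb T4.l9 T4.l9) T4.l9) (xa T4.l9 T4.l9))
  (TrL.c (I.pos (nat_lit 0) (nat_lit 0)) (xa T2.l4 T2.l4)
  (TrL.c (I.pos (nat_lit 0) (nat_lit 111196574)) T4.l5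
  (TrL.c (I.pos (nat_lit 0) (nat_lit 77433728)) T2.l5
  (TrL.c (I.pos (nat_lit 0) (nat_lit 0)) (xa T2.l9 T2.l9)
  (TrL.c (I.pos (nat_lit 0) (nat_lit 0)) T4.l6
  (TrL.c (I.mix (nat_lit 29511666) (nat_lit 77433728)) (xR T2.l7 T2.l7)
  (TrL.c (I.mix (nat_lit 29511666) (nat_lit 46070178)) T4.l7
  TrL.n)))))))) (by decide +kernel)
theorem bx1_9 : BoxOK sI cl7 cl13 cl9 t4 t2 b1_9 :=
  box_mk (TrL.c (I.pos (nat_lit 0) (nat_lit 0)) (xa T4.l0 T4.l0)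
  (TrL.c (I.pos (nat_lit 0) (nat_lit 0)) T2.l4
  (TrL.c (I.pos (nat_lit 0) (nat_lit 111196574)) (xR T4.l5 T4.l5)
  (TrL.c (I.pos (nat_lit 0) (nat_lit 77433728)) T2.l5
  (TrL.c (I.pos (nat_lit 0) (nat_lit 0)) (xk (xa T2.l10 (xb T2.l10 T2.l10)) (xa T2.l10 (xb T2.l10 T2.l10)))
  (TrL.c (I.pos (nat_lit 0) (nat_lit 0)) T4.l6
  (TrL.c (I.mix (nat_lit 29511666) (nat_lit 77433728)) (xR T2.l7 T2.l7)
  (TrL.c (I.mix (nat_lit 29511666) (nat_lit 46070178)) T4.l2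
  TrL.n)))))))) (by decide +kernel)
theorem bx1_10 : BoxOK sI cl7 cl13 cl9 t4 t2 b1_10 :=
  box_mk (TrL.c (I.pos (nat_lit 0) (nat_lit 0)) T4.l10
  (TrL.c (I.pos (nat_lit 0) (nat_lit 0)) (xk T2.l4 T2.l4)
  (TrL.c (I.pos (nat_lit 0) (nat_lit 111196574)) (xR T4.l5 T4.l5)
  (TrL.c (I.pos (nat_lit 0) (nat_lit 77433728)) T2.l5
  (TrL.c (I.pos (nat_lit 0) (nat_lit 0)) (xk (xb T2.l10 T2.l10) (xb T2.l10 T2.l10))
  (TrL.c (I.pos (nat_lit 0) (nat_lit 0)) T4.l6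
  (TrL.c (I.mix (nat_lit 29511666) (nat_lit 77433728)) (xR T2.l7 T2.l7)
  (TrL.c (I.mix (nat_lit 29511666) (nat_lit 46070178)) T4.l2
  TrL.n)))))))) (by decide +kernel)
theorem bx1_11 : BoxOK sI cl7 cl13 cl9 t4 t2 b1_11 :=
  box_mk (TrL.c (I.pos (nat_lit 0) (nat_lit 0)) (xa (xb T4.l0 T4.l0) (xb T4.l0 T4.l0))
  (TrL.c (I.pos (nat_lit 0) (nat_lit 0)) (xk (xa T2.l4 T2.l4) (xa T2.l4 T2.l4))
  (TrL.c (I.pos (nat_lit 0) (nat_lit 111196574)) (xR T4.l5 T4.l5)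
  (TrL.c (I.pos (nat_lit 0) (nat_lit 77433728)) T2.l5
  (TrL.c (I.pos (nat_lit 0) (nat_lit 0)) (xk (xa T2.l6 (xb T2.l6 T2.l6)) (xa T2.l6 (xb T2.l6 T2.l6)))
  (TrL.c (I.pos (nat_lit 0) (nat_lit 0)) T4.l6
  (TrL.c (I.mix (nat_lit 29511666) (nat_lit 77433728)) (xR T2.l7 T2.l7)
  (TrL.c (I.mix (nat_lit 29511666) (nat_lit 46070178)) T4.l2
  TrL.n)))))))) (by decide +kernel)
theorem sv1 : StarV sI cl7 cl13 cl9 t4 t2 t1 :=
  (bt_n (bt_n (bt_n (bt_b bx1_0) (bt_n (bt_b bx1_1) (bt_b bx1_2))) (bt_n (bt_b bx1_3) (bt_n (bt_b bx1_4) (bt_b bx1_5)))) (bt_n (bt_n (bt_b bx1_6) (bt_n (bt_b bx1_7) (bt_b bx1_8))) (bt_n (bt_b bx1_9) (bt_n (bt_b bx1_10) (bt_b bx1_11)))))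
def S1 : StarD := StarD.mk cl7 cl13 cl9 4 2 t1
theorem bx2_0 : BoxOK sI cl9 cl7 cl13 t0 t5 b2_0 :=
  box_mk (TrL.c (I.pos (nat_lit 0) (nat_lit 0)) (xa (xb T0.l0 (xa T0.l0 T0.l0)) (xb T0.l0 T0.l0))
  (TrL.c (I.pos (nat_lit 0) (nat_lit 0)) (xa (xk T5.l1 T5.l1) (xk T5.l1 T5.l1))
  (TrL.c (I.pos (nat_lit 0) (nat_lit 124588530)) (xR T0.l1 T0.l1)
  (TrL.c (I.pos (nat_lit 0) (nat_lit 96881482)) T5.l2
  (TrL.c (I.pos (nat_lit 0) (nat_lit 0)) (xa (xk (xb T5.l3 T5.l3) (xb T5.l3 T5.l8)) (xk (xb (xa T5.l3 T5.l3) T5.l3) (xb T5.l3 T5.l3)))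
  (TrL.c (I.pos (nat_lit 0) (nat_lit 0)) T0.l2
  (TrL.c (I.mix (nat_lit 17240550) (nat_lit 96881482)) (xR T5.l4 T5.l4)
  (TrL.c (I.mix (nat_lit 17240550) (nat_lit 71940500)) T0.l6
  TrL.n)))))))) (by decide +kernel)
theorem bx2_1 : BoxOK sI cl9 cl7 cl13 t0 t5 b2_1 :=
  box_mk (TrL.c (I.pos (nat_lit 0) (nat_lit 0)) (xa (xa T0.l4 T0.l4) (xa T0.l4 T0.l4))
  (TrL.c (I.pos (nat_lit 0) (nat_lit 0)) (xa T5.l1 T5.l1)
  (TrL.c (I.pos (nat_lit 0) (nat_lit 124588530)) T0.l1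
  (TrL.c (I.pos (nat_lit 0) (nat_lit 96881482)) T5.l2
  (TrL.c (I.pos (nat_lit 0) (nat_lit 0)) (xa T5.l5 T5.l5)
  (TrL.c (I.pos (nat_lit 0) (nat_lit 0)) T0.l2
  (TrL.c (I.mix (nat_lit 17240550) (nat_lit 96881482)) T5.l4
  (TrL.c (I.mix (nat_lit 17240550) (nat_lit 71940500)) T0.l3
  TrL.n)))))))) (by decide +kernel)
theorem bx2_2 : BoxOK sI cl9 cl7 cl13 t0 t5 b2_2 :=
  box_mk (TrL.c (I.pos (nat_lit 0) (nat_lit 0)) T0.l4
  (TrL.c (I.pos (nat_lit 0) (nat_lit 0)) T5.l1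
  (TrL.c (I.pos (nat_lit 0) (nat_lit 124588530)) (xR T0.l1 T0.l1)
  (TrL.c (I.pos (nat_lit 0) (nat_lit 96881482)) T5.l2
  (TrL.c (I.pos (nat_lit 0) (nat_lit 0)) (xb T5.l5 T5.l5)
  (TrL.c (I.pos (nat_lit 0) (nat_lit 0)) T0.l2
  (TrL.c (I.mix (nat_lit 17240550) (nat_lit 96881482)) T5.l4
  (TrL.c (I.mix (nat_lit 17240550) (nat_lit 71940500)) T0.l3
  TrL.n)))))))) (by decide +kernel)
theorem bx2_3 : BoxOK sI cl9 cl7 cl13 t0 t5 b2_3 :=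
  box_mk (TrL.c (I.pos (nat_lit 0) (nat_lit 0)) T0.l4
  (TrL.c (I.pos (nat_lit 0) (nat_lit 0)) T5.l1
  (TrL.c (I.pos (nat_lit 0) (nat_lit 124588530)) T0.l1
  (TrL.c (I.pos (nat_lit 0) (nat_lit 96881482)) T5.l2
  (TrL.c (I.pos (nat_lit 0) (nat_lit 0)) (xa T5.l5 T5.l5)
  (TrL.c (I.pos (nat_lit 0) (nat_lit 0)) T0.l2
  (TrL.c (I.mix (nat_lit 17240550) (nat_lit 96881482)) T5.l4
  (TrL.c (I.mix (nat_lit 17240550) (nat_lit 71940500)) T0.l3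
  TrL.n)))))))) (by decide +kernel)
theorem bx2_4 : BoxOK sI cl9 cl7 cl13 t0 t5 b2_4 :=
  box_mk (TrL.c (I.pos (nat_lit 0) (nat_lit 0)) T0.l4
  (TrL.c (I.pos (nat_lit 0) (nat_lit 0)) T5.l1
  (TrL.c (I.pos (nat_lit 0) (nat_lit 124588530)) (xR T0.l1 T0.l1)
  (TrL.c (I.pos (nat_lit 0) (nat_lit 96881482)) T5.l2
  (TrL.c (I.pos (nat_lit 0) (nat_lit 0)) (xk (xa T5.l5 T5.l5) (xa T5.l5 T5.l5))
  (TrL.c (I.pos (nat_lit 0) (nat_lit 0)) T0.l2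
  (TrL.c (I.mix (nat_lit 17240550) (nat_lit 96881482)) T5.l4
  (TrL.c (I.mix (nat_lit 17240550) (nat_lit 71940500)) T0.l3
  TrL.n)))))))) (by decide +kernel)
theorem bx2_5 : BoxOK sI cl9 cl7 cl13 t0 t5 b2_5 :=
  box_mk (TrL.c (I.pos (nat_lit 0) (nat_lit 0)) (xa (xa T0.l4 T0.l4) T0.l4)
  (TrL.c (I.pos (nat_lit 0) (nat_lit 0)) (xa T5.l5 T5.l1)
  (TrL.c (I.pos (nat_lit 0) (nat_lit 124588530)) T0.l1
  (TrL.c (I.pos (nat_lit 0) (nat_lit 96881482)) T5.l2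
  (TrL.c (I.pos (nat_lit 0) (nat_lit 0)) (xa T5.l5 T5.l5)
  (TrL.c (I.pos (nat_lit 0) (nat_lit 0)) T0.l2
  (TrL.c (I.mix (nat_lit 17240550) (nat_lit 96881482)) T5.l4
  (TrL.c (I.mix (nat_lit 17240550) (nat_lit 71940500)) T0.l6
  TrL.n)))))))) (by decide +kernel)
theorem bx2_6 : BoxOK sI cl9 cl7 cl13 t0 t5 b2_6 :=
  box_mk (TrL.c (I.pos (nat_lit 0) (nat_lit 0)) (xa (xb T0.l9 T0.l9) (xb T0.l9 T0.l9))
  (TrL.c (I.pos (nat_lit 0) (nat_lit 0)) (xk (xb T5.l1 T5.l1) T5.l1)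
  (TrL.c (I.pos (nat_lit 0) (nat_lit 124588530)) (xR T0.l1 T0.l1)
  (TrL.c (I.pos (nat_lit 0) (nat_lit 96881482)) T5.l2
  (TrL.c (I.pos (nat_lit 0) (nat_lit 0)) (xb (xk T5.l8 T5.l8) (xk T5.l8 (xb T5.l8 (xa T5.l3 T5.l3))))
  (TrL.c (I.pos (nat_lit 0) (nat_lit 0)) T0.l2
  (TrL.c (I.mix (nat_lit 17240550) (nat_lit 96881482)) (xR T5.l4 T5.l4)
  (TrL.c (I.mix (nat_lit 17240550) (nat_lit 71940500)) T0.l6
  TrL.n)))))))) (by decide +kernel)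
theorem bx2_7 : BoxOK sI cl9 cl7 cl13 t0 t5 b2_7 :=
  box_mk (TrL.c (I.pos (nat_lit 0) (nat_lit 0)) (xa (xa (xb T0.l4 T0.l4) T0.l4) (xa T0.l4 T0.l4))
  (TrL.c (I.pos (nat_lit 0) (nat_lit 0)) (xa T5.l5 T5.l1)
  (TrL.c (I.pos (nat_lit 0) (nat_lit 124588530)) T0.l1
  (TrL.c (I.pos (nat_lit 0) (nat_lit 96881482)) T5.l2
  (TrL.c (I.pos (nat_lit 0) (nat_lit 0)) (xa T5.l5 T5.l5)
  (TrL.c (I.pos (nat_lit 0) (nat_lit 0)) T0.l2
  (TrL.c (I.mix (nat_lit 17240550) (nat_lit 96881482)) T5.l4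
  (TrL.c (I.mix (nat_lit 17240550) (nat_lit 71940500)) T0.l3
  TrL.n)))))))) (by decide +kernel)
theorem bx2_8 : BoxOK sI cl9 cl7 cl13 t0 t5 b2_8 :=
  box_mk (TrL.c (I.pos (nat_lit 0) (nat_lit 0)) (xa (xb T0.l0 T0.l0) (xb T0.l0 (xa T0.l0 T0.l0)))
  (TrL.c (I.pos (nat_lit 0) (nat_lit 0)) (xa (xb T5.l1 T5.l1) (xk (xb T5.l1 T5.l7) (xb T5.l1 T5.l1)))
  (TrL.c (I.pos (nat_lit 0) (nat_lit 124588530)) (xR T0.l8 T0.l8)
  (TrL.c (I.pos (nat_lit 0) (nat_lit 96881482)) (xR T5.l2 T5.l2)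
  (TrL.c (I.pos (nat_lit 0) (nat_lit 0)) (xa (xb (xk (xa T5.l3 T5.l0) (xa T5.l3 (xb T5.l0 T5.l3))) (xk T5.l3 T5.l3)) (xb (xk (xa (xb T5.l0 T5.l3) (xb (xk T5.l0 T5.l0) (xk T5.l3 T5.l3))) (xa T5.l0 (xb (xk T5.l0 T5.l0) T5.l3))) (xk (xa T5.l3 (xk (xb T5.l3 T5.l3) (xb T5.l3 T5.l3))) (xa T5.l3 (xk (xb T5.l3 T5.l3) (xb T5.l3 T5.l3))))))
  (TrL.c (I.pos (nat_lit 0) (nat_lit 0)) (xk (xa T0.l2 T0.l2) (xa T0.l2 T0.l2))
  (TrL.c (I.mix (nat_lit 17240550) (nat_lit 96881482)) (xR T5.l4 (xR T5.l4 T5.l4))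
  (TrL.c (I.mix (nat_lit 17240550) (nat_lit 71940500)) T0.l6
  TrL.n)))))))) (by decide +kernel)
theorem bx2_9 : BoxOK sI cl9 cl7 cl13 t0 t5 b2_9 :=
  box_mk (TrL.c (I.pos (nat_lit 0) (nat_lit 0)) (xa T0.l0 T0.l0)
  (TrL.c (I.pos (nat_lit 0) (nat_lit 0)) T5.l1
  (TrL.c (I.pos (nat_lit 0) (nat_lit 124588530)) (xR T0.l1 T0.l1)
  (TrL.c (I.pos (nat_lit 0) (nat_lit 96881482)) T5.l2
  (TrL.c (I.pos (nat_lit 0) (nat_lit 0)) (xk (xb (xa T5.l8 T5.l8) T5.l8) (xb T5.l8 T5.l8))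
  (TrL.c (I.pos (nat_lit 0) (nat_lit 0)) T0.l2
  (TrL.c (I.mix (nat_lit 17240550) (nat_lit 96881482)) T5.l4
  (TrL.c (I.mix (nat_lit 17240550) (nat_lit 71940500)) T0.l3
  TrL.n)))))))) (by decide +kernel)
theorem bx2_10 : BoxOK sI cl9 cl7 cl13 t0 t5 b2_10 :=
  box_mk (TrL.c (I.pos (nat_lit 0) (nat_lit 0)) T0.l9
  (TrL.c (I.pos (nat_lit 0) (nat_lit 0)) T5.l1
  (TrL.c (I.pos (nat_lit 0) (nat_lit 124588530)) (xR T0.l1 T0.l1)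
  (TrL.c (I.pos (nat_lit 0) (nat_lit 96881482)) T5.l2
  (TrL.c (I.pos (nat_lit 0) (nat_lit 0)) (xk (xb T5.l8 T5.l8) T5.l8)
  (TrL.c (I.pos (nat_lit 0) (nat_lit 0)) T0.l2
  (TrL.c (I.mix (nat_lit 17240550) (nat_lit 96881482)) (xR T5.l4 T5.l4)
  (TrL.c (I.mix (nat_lit 17240550) (nat_lit 71940500)) T0.l6
  TrL.n)))))))) (by decide +kernel)
theorem bx2_11 : BoxOK sI cl9 cl7 cl13 t0 t5 b2_11 :=
  box_mk (TrL.c (I.pos (nat_lit 0) (nat_lit 0)) (xa T0.l0 T0.l0)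
  (TrL.c (I.pos (nat_lit 0) (nat_lit 0)) (xk T5.l1 T5.l1)
  (TrL.c (I.pos (nat_lit 0) (nat_lit 124588530)) (xR T0.l1 T0.l1)
  (TrL.c (I.pos (nat_lit 0) (nat_lit 96881482)) T5.l2
  (TrL.c (I.pos (nat_lit 0) (nat_lit 0)) (xk (xa T5.l3 T5.l3) (xa T5.l3 T5.l3))
  (TrL.c (I.pos (nat_lit 0) (nat_lit 0)) T0.l2
  (TrL.c (I.mix (nat_lit 17240550) (nat_lit 96881482)) (xR T5.l4 T5.l4)
  (TrL.c (I.mix (nat_lit 17240550) (nat_lit 71940500)) T0.l6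
  TrL.n)))))))) (by decide +kernel)
theorem sv2 : StarV sI cl9 cl7 cl13 t0 t5 t2 :=
  (bt_n (bt_n (bt_n (bt_b bx2_0) (bt_n (bt_b bx2_1) (bt_b bx2_2))) (bt_n (bt_b bx2_3) (bt_n (bt_b bx2_4) (bt_b bx2_5)))) (bt_n (bt_n (bt_b bx2_6) (bt_n (bt_b bx2_7) (bt_b bx2_8))) (bt_n (bt_b bx2_9) (bt_n (bt_b bx2_10) (bt_b bx2_11)))))
def S2 : StarD := StarD.mk cl9 cl7 cl13 0 5 t2
theorem bx3_0 : BoxOK sI cl9 cl13 cl7 t5 t0 b3_0 :=
  box_mk (TrL.c (I.pos (nat_lit 0) (nat_lit 0)) (xa (xa (xb T5.l0 T5.l0) T5.l0) (xa T5.l0 (xb T5.l0 T5.l0)))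
  (TrL.c (I.pos (nat_lit 0) (nat_lit 0)) (xa (xk T0.l5 T0.l5) (xk (xb T0.l5 T0.l5) (xb T0.l5 T0.l5)))
  (TrL.c (I.pos (nat_lit 0) (nat_lit 124588530)) (xR T5.l6 T5.l6)
  (TrL.c (I.pos (nat_lit 0) (nat_lit 96881482)) T0.l6
  (TrL.c (I.pos (nat_lit 0) (nat_lit 0)) (xa (xk (xb T0.l7 T0.l7) (xb T0.l7 T0.l7)) (xk (xb (xa T0.l7 T0.l7) (xa T0.l7 (xb T0.l7 T0.l7))) (xb (xa T0.l7 T0.l7) (xa T0.l7 (xb T0.l7 (xs T0.l7 (xk T0.l7 T0.l7)))))))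
  (TrL.c (I.pos (nat_lit 0) (nat_lit 0)) T5.l7
  (TrL.c (I.mix (nat_lit 17240550) (nat_lit 96881482)) (xR T0.l8 T0.l8)
  (TrL.c (I.mix (nat_lit 17240550) (nat_lit 71940500)) T5.l9
  TrL.n)))))))) (by decide +kernel)
theorem bx3_1 : BoxOK sI cl9 cl13 cl7 t5 t0 b3_1 :=
  box_mk (TrL.c (I.pos (nat_lit 0) (nat_lit 0)) T5.l10
  (TrL.c (I.pos (nat_lit 0) (nat_lit 0)) (xa T0.l5 T0.l5)
  (TrL.c (I.pos (nat_lit 0) (nat_lit 124588530)) (xR T5.l6 T5.l6)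
  (TrL.c (I.pos (nat_lit 0) (nat_lit 96881482)) T0.l6
  (TrL.c (I.pos (nat_lit 0) (nat_lit 0)) (xk (xa T0.l10 T0.l10) (xa T0.l10 T0.l10))
  (TrL.c (I.pos (nat_lit 0) (nat_lit 0)) T5.l7
  (TrL.c (I.mix (nat_lit 17240550) (nat_lit 96881482)) (xR T0.l8 T0.l8)
  (TrL.c (I.mix (nat_lit 17240550) (nat_lit 71940500)) T5.l2
  TrL.n)))))))) (by decide +kernel)
theorem bx3_2 : BoxOK sI cl9 cl13 cl7 t5 t0 b3_2 :=
  box_mk (TrL.c (I.pos (nat_lit 0) (nat_lit 0)) (xa T5.l10 T5.l10)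
  (TrL.c (I.pos (nat_lit 0) (nat_lit 0)) (xa T0.l5 T0.l5)
  (TrL.c (I.pos (nat_lit 0) (nat_lit 124588530)) T5.l6
  (TrL.c (I.pos (nat_lit 0) (nat_lit 96881482)) T0.l6
  (TrL.c (I.pos (nat_lit 0) (nat_lit 0)) (xa T0.l10 T0.l10)
  (TrL.c (I.pos (nat_lit 0) (nat_lit 0)) T5.l7
  (TrL.c (I.mix (nat_lit 17240550) (nat_lit 96881482)) T0.l8
  (TrL.c (I.mix (nat_lit 17240550) (nat_lit 71940500)) T5.l2
  TrL.n)))))))) (by decide +kernel)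
theorem bx3_3 : BoxOK sI cl9 cl13 cl7 t5 t0 b3_3 :=
  box_mk (TrL.c (I.pos (nat_lit 0) (nat_lit 0)) (xb T5.l11 T5.l11)
  (TrL.c (I.pos (nat_lit 0) (nat_lit 0)) (xk (xb T0.l5 T0.l5) T0.l5)
  (TrL.c (I.pos (nat_lit 0) (nat_lit 124588530)) (xR T5.l6 T5.l6)
  (TrL.c (I.pos (nat_lit 0) (nat_lit 96881482)) T0.l6
  (TrL.c (I.pos (nat_lit 0) (nat_lit 0)) (xk (xb T0.l11 T0.l7) (xb T0.l11 T0.l7))
  (TrL.c (I.pos (nat_lit 0) (nat_lit 0)) T5.l7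
  (TrL.c (I.mix (nat_lit 17240550) (nat_lit 96881482)) (xR T0.l8 T0.l8)
  (TrL.c (I.mix (nat_lit 17240550) (nat_lit 71940500)) T5.l2
  TrL.n)))))))) (by decide +kernel)
theorem bx3_4 : BoxOK sI cl9 cl13 cl7 t5 t0 b3_4 :=
  box_mk (TrL.c (I.pos (nat_lit 0) (nat_lit 0)) (xa (xa T5.l10 T5.l10) (xa T5.l10 T5.l10))
  (TrL.c (I.pos (nat_lit 0) (nat_lit 0)) (xa T0.l5 (xa T0.l5 T0.l5))
  (TrL.c (I.pos (nat_lit 0) (nat_lit 124588530)) (xR T5.l6 T5.l6)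
  (TrL.c (I.pos (nat_lit 0) (nat_lit 96881482)) T0.l6
  (TrL.c (I.pos (nat_lit 0) (nat_lit 0)) (xa T0.l10 T0.l10)
  (TrL.c (I.pos (nat_lit 0) (nat_lit 0)) T5.l7
  (TrL.c (I.mix (nat_lit 17240550) (nat_lit 96881482)) T0.l8
  (TrL.c (I.mix (nat_lit 17240550) (nat_lit 71940500)) T5.l2
  TrL.n)))))))) (by decide +kernel)
theorem bx3_5 : BoxOK sI cl9 cl13 cl7 t5 t0 b3_5 :=
  box_mk (TrL.c (I.pos (nat_lit 0) (nat_lit 0)) (xa T5.l0 T5.l11)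
  (TrL.c (I.pos (nat_lit 0) (nat_lit 0)) (xk T0.l5 T0.l5)
  (TrL.c (I.pos (nat_lit 0) (nat_lit 124588530)) (xR T5.l6 T5.l6)
  (TrL.c (I.pos (nat_lit 0) (nat_lit 96881482)) T0.l6
  (TrL.c (I.pos (nat_lit 0) (nat_lit 0)) (xk (xa T0.l11 (xb T0.l11 T0.l11)) (xa T0.l11 (xb T0.l11 T0.l11)))
  (TrL.c (I.pos (nat_lit 0) (nat_lit 0)) T5.l7
  (TrL.c (I.mix (nat_lit 17240550) (nat_lit 96881482)) (xR T0.l8 T0.l8)
  (TrL.c (I.mix (nat_lit 17240550) (nat_lit 71940500)) T5.l9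
  TrL.n)))))))) (by decide +kernel)
theorem bx3_6 : BoxOK sI cl9 cl13 cl7 t5 t0 b3_6 :=
  box_mk (TrL.c (I.pos (nat_lit 0) (nat_lit 0)) (xa T5.l10 T5.l10)
  (TrL.c (I.pos (nat_lit 0) (nat_lit 0)) (xa T0.l5 T0.l5)
  (TrL.c (I.pos (nat_lit 0) (nat_lit 124588530)) T5.l6
  (TrL.c (I.pos (nat_lit 0) (nat_lit 96881482)) T0.l6
  (TrL.c (I.pos (nat_lit 0) (nat_lit 0)) T0.l10
  (TrL.c (I.pos (nat_lit 0) (nat_lit 0)) T5.l7
  (TrL.c (I.mix (nat_lit 17240550) (nat_lit 96881482)) T0.l8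
  (TrL.c (I.mix (nat_lit 17240550) (nat_lit 71940500)) T5.l2
  TrL.n)))))))) (by decide +kernel)
theorem bx3_7 : BoxOK sI cl9 cl13 cl7 t5 t0 b3_7 :=
  box_mk (TrL.c (I.pos (nat_lit 0) (nat_lit 0)) T5.l10
  (TrL.c (I.pos (nat_lit 0) (nat_lit 0)) T0.l5
  (TrL.c (I.pos (nat_lit 0) (nat_lit 124588530)) (xR T5.l6 T5.l6)
  (TrL.c (I.pos (nat_lit 0) (nat_lit 96881482)) T0.l6
  (TrL.c (I.pos (nat_lit 0) (nat_lit 0)) (xb T0.l10 T0.l10)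
  (TrL.c (I.pos (nat_lit 0) (nat_lit 0)) T5.l7
  (TrL.c (I.mix (nat_lit 17240550) (nat_lit 96881482)) (xR T0.l8 T0.l8)
  (TrL.c (I.mix (nat_lit 17240550) (nat_lit 71940500)) T5.l2
  TrL.n)))))))) (by decide +kernel)
theorem bx3_8 : BoxOK sI cl9 cl13 cl7 t5 t0 b3_8 :=
  box_mk (TrL.c (I.pos (nat_lit 0) (nat_lit 0)) T5.l10
  (TrL.c (I.pos (nat_lit 0) (nat_lit 0)) (xa T0.l5 T0.l5)
  (TrL.c (I.pos (nat_lit 0) (nat_lit 124588530)) T5.l6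
  (TrL.c (I.pos (nat_lit 0) (nat_lit 96881482)) T0.l6
  (TrL.c (I.pos (nat_lit 0) (nat_lit 0)) (xa T0.l10 T0.l10)
  (TrL.c (I.pos (nat_lit 0) (nat_lit 0)) T5.l7
  (TrL.c (I.mix (nat_lit 17240550) (nat_lit 96881482)) T0.l8
  (TrL.c (I.mix (nat_lit 17240550) (nat_lit 71940500)) T5.l2
  TrL.n)))))))) (by decide +kernel)
theorem bx3_9 : BoxOK sI cl9 cl13 cl7 t5 t0 b3_9 :=
  box_mk (TrL.c (I.pos (nat_lit 0) (nat_lit 0)) (xa T5.l0 (xb T5.l0 T5.l0))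
  (TrL.c (I.pos (nat_lit 0) (nat_lit 0)) (xa (xk T0.l5 T0.l5) (xk (xb T0.l5 T0.l5) (xb T0.l5 T0.l5)))
  (TrL.c (I.pos (nat_lit 0) (nat_lit 124588530)) (xR T5.l4 T5.l4)
  (TrL.c (I.pos (nat_lit 0) (nat_lit 96881482)) (xR T0.l6 T0.l6)
  (TrL.c (I.pos (nat_lit 0) (nat_lit 0)) (xa (xk (xb (xa T0.l7 T0.l7) T0.l7) (xb (xa T0.l7 T0.l7) T0.l7)) (xk (xb (xa T0.l7 (xk T0.l7 T0.l7)) (xa T0.l7 (xk (xb T0.l7 T0.l7) (xb T0.l7 T0.l7)))) (xb (xa T0.l7 (xk T0.l7 T0.l7)) (xa T0.l7 (xk (xb T0.l7 T0.l7) (xb T0.l7 T0.l7))))))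
  (TrL.c (I.pos (nat_lit 0) (nat_lit 0)) (xk (xa T5.l7 T5.l7) (xa T5.l7 T5.l7))
  (TrL.c (I.mix (nat_lit 17240550) (nat_lit 96881482)) (xR T0.l8 (xR T0.l8 T0.l8))
  (TrL.c (I.mix (nat_lit 17240550) (nat_lit 71940500)) T5.l9
  TrL.n)))))))) (by decide +kernel)
theorem bx3_10 : BoxOK sI cl9 cl13 cl7 t5 t0 b3_10 :=
  box_mk (TrL.c (I.pos (nat_lit 0) (nat_lit 0)) (xa T5.l0 (xb T5.l0 T5.l0))
  (TrL.c (I.pos (nat_lit 0) (nat_lit 0)) (xk (xa T0.l5 T0.l5) (xa T0.l5 T0.l5))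
  (TrL.c (I.pos (nat_lit 0) (nat_lit 124588530)) (xR T5.l6 T5.l6)
  (TrL.c (I.pos (nat_lit 0) (nat_lit 96881482)) T0.l6
  (TrL.c (I.pos (nat_lit 0) (nat_lit 0)) (xk (xa T0.l7 (xb T0.l7 T0.l7)) (xa T0.l7 (xb T0.l7 T0.l7)))
  (TrL.c (I.pos (nat_lit 0) (nat_lit 0)) T5.l7
  (TrL.c (I.mix (nat_lit 17240550) (nat_lit 96881482)) (xR T0.l8 T0.l8)
  (TrL.c (I.mix (nat_lit 17240550) (nat_lit 71940500)) T5.l9
  TrL.n)))))))) (by decide +kernel)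
theorem bx3_11 : BoxOK sI cl9 cl13 cl7 t5 t0 b3_11 :=
  box_mk (TrL.c (I.pos (nat_lit 0) (nat_lit 0)) T5.l11
  (TrL.c (I.pos (nat_lit 0) (nat_lit 0)) T0.l5
  (TrL.c (I.pos (nat_lit 0) (nat_lit 124588530)) (xR T5.l6 T5.l6)
  (TrL.c (I.pos (nat_lit 0) (nat_lit 96881482)) T0.l6
  (TrL.c (I.pos (nat_lit 0) (nat_lit 0)) (xk (xb T0.l11 T0.l7) (xb T0.l11 T0.l7))
  (TrL.c (I.pos (nat_lit 0) (nat_lit 0)) T5.l7
  (TrL.c (I.mix (nat_lit 17240550) (nat_lit 96881482)) (xR T0.l8 T0.l8)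
  (TrL.c (I.mix (nat_lit 17240550) (nat_lit 71940500)) T5.l9
  TrL.n)))))))) (by decide +kernel)
theorem sv3 : StarV sI cl9 cl13 cl7 t5 t0 t3 :=
  (bt_n (bt_n (bt_n (bt_b bx3_0) (bt_n (bt_b bx3_1) (bt_b bx3_2))) (bt_n (bt_b bx3_3) (bt_n (bt_b bx3_4) (bt_b bx3_5)))) (bt_n (bt_n (bt_b bx3_6) (bt_n (bt_b bx3_7) (bt_b bx3_8))) (bt_n (bt_b bx3_9) (bt_n (bt_b bx3_10) (bt_b bx3_11)))))
def S3 : StarD := StarD.mk cl9 cl13 cl7 5 0 t3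
theorem bx4_0 : BoxOK sI cl13 cl7 cl9 t1 t3 b4_0 :=
  box_mk (TrL.c (I.pos (nat_lit 0) (nat_lit 0)) (xa (xb T1.l0 T1.l0) (xb T1.l0 T1.l0))
  (TrL.c (I.pos (nat_lit 0) (nat_lit 0)) (xa (xk T3.l1 T3.l1) (xk T3.l1 T3.l1))
  (TrL.c (I.pos (nat_lit 0) (nat_lit 134217730)) (xR T1.l1 T1.l1)
  (TrL.c (I.pos (nat_lit 0) (nat_lit 110514882)) (xR T3.l2 T3.l2)
  (TrL.c (I.pos (nat_lit 0) (nat_lit 0)) (xa (xk (xb T3.l3 T3.l3) T3.l3) (xk (xb T3.l3 T3.l3) (xb T3.l3 T3.l3)))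
  (TrL.c (I.pos (nat_lit 0) (nat_lit 0)) T1.l2
  (TrL.c (I.mix (nat_lit 8088324) (nat_lit 110514882)) (xR T3.l4 T3.l4)
  (TrL.c (I.mix (nat_lit 8088324) (nat_lit 89478486)) T1.l3
  TrL.n)))))))) (by decide +kernel)
theorem bx4_1 : BoxOK sI cl13 cl7 cl9 t1 t3 b4_1 :=
  box_mk (TrL.c (I.pos (nat_lit 0) (nat_lit 0)) T1.l4
  (TrL.c (I.pos (nat_lit 0) (nat_lit 0)) T3.l1
  (TrL.c (I.pos (nat_lit 0) (nat_lit 134217730)) (xR T1.l1 T1.l1)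
  (TrL.c (I.pos (nat_lit 0) (nat_lit 110514882)) (xR T3.l2 T3.l2)
  (TrL.c (I.pos (nat_lit 0) (nat_lit 0)) (xa T3.l5 (xk T3.l5 T3.l5))
  (TrL.c (I.pos (nat_lit 0) (nat_lit 0)) T1.l2
  (TrL.c (I.mix (nat_lit 8088324) (nat_lit 110514882)) T3.l4
  (TrL.c (I.mix (nat_lit 8088324) (nat_lit 89478486)) T1.l3
  TrL.n)))))))) (by decide +kernel)
theorem bx4_2 : BoxOK sI cl13 cl7 cl9 t1 t3 b4_2 :=
  box_mk (TrL.c (I.pos (nat_lit 0) (nat_lit 0)) (xa T1.l4 T1.l4)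
  (TrL.c (I.pos (nat_lit 0) (nat_lit 0)) (xa T3.l5 T3.l1)
  (TrL.c (I.pos (nat_lit 0) (nat_lit 134217730)) (xR T1.l1 T1.l1)
  (TrL.c (I.pos (nat_lit 0) (nat_lit 110514882)) (xR T3.l2 T3.l2)
  (TrL.c (I.pos (nat_lit 0) (nat_lit 0)) (xa T3.l5 T3.l5)
  (TrL.c (I.pos (nat_lit 0) (nat_lit 0)) T1.l2
  (TrL.c (I.mix (nat_lit 8088324) (nat_lit 110514882)) T3.l4
  (TrL.c (I.mix (nat_lit 8088324) (nat_lit 89478486)) T1.l6
  TrL.n)))))))) (by decide +kernel)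
theorem bx4_3 : BoxOK sI cl13 cl7 cl9 t1 t3 b4_3 :=
  box_mk (TrL.c (I.pos (nat_lit 0) (nat_lit 0)) (xb T1.l11 (xa T1.l11 T1.l11))
  (TrL.c (I.pos (nat_lit 0) (nat_lit 0)) (xk T3.l1 T3.l1)
  (TrL.c (I.pos (nat_lit 0) (nat_lit 134217730)) (xR T1.l1 T1.l1)
  (TrL.c (I.pos (nat_lit 0) (nat_lit 110514882)) (xR T3.l2 T3.l2)
  (TrL.c (I.pos (nat_lit 0) (nat_lit 0)) (xk (xb T3.l11 (xb T3.l3 T3.l3)) (xb T3.l11 (xb T3.l3 (xa T3.l3 T3.l3))))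
  (TrL.c (I.pos (nat_lit 0) (nat_lit 0)) T1.l2
  (TrL.c (I.mix (nat_lit 8088324) (nat_lit 110514882)) (xR T3.l4 T3.l4)
  (TrL.c (I.mix (nat_lit 8088324) (nat_lit 89478486)) T1.l3
  TrL.n)))))))) (by decide +kernel)
theorem bx4_4 : BoxOK sI cl13 cl7 cl9 t1 t3 b4_4 :=
  box_mk (TrL.c (I.pos (nat_lit 0) (nat_lit 0)) (xa (xa (xb T1.l4 T1.l4) T1.l4) (xa T1.l4 T1.l4))
  (TrL.c (I.pos (nat_lit 0) (nat_lit 0)) (xa T3.l5 T3.l1)
  (TrL.c (I.pos (nat_lit 0) (nat_lit 134217730)) (xR T1.l1 T1.l1)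
  (TrL.c (I.pos (nat_lit 0) (nat_lit 110514882)) T3.l2
  (TrL.c (I.pos (nat_lit 0) (nat_lit 0)) (xa T3.l5 T3.l5)
  (TrL.c (I.pos (nat_lit 0) (nat_lit 0)) T1.l2
  (TrL.c (I.mix (nat_lit 8088324) (nat_lit 110514882)) (xR T3.l4 T3.l4)
  (TrL.c (I.mix (nat_lit 8088324) (nat_lit 89478486)) T1.l3
  TrL.n)))))))) (by decide +kernel)
theorem bx4_5 : BoxOK sI cl13 cl7 cl9 t1 t3 b4_5 :=
  box_mk (TrL.c (I.pos (nat_lit 0) (nat_lit 0)) (xa (xa T1.l4 T1.l4) (xa T1.l4 T1.l4))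
  (TrL.c (I.pos (nat_lit 0) (nat_lit 0)) (xa T3.l1 T3.l1)
  (TrL.c (I.pos (nat_lit 0) (nat_lit 134217730)) (xR T1.l1 T1.l1)
  (TrL.c (I.pos (nat_lit 0) (nat_lit 110514882)) T3.l2
  (TrL.c (I.pos (nat_lit 0) (nat_lit 0)) (xa T3.l5 T3.l5)
  (TrL.c (I.pos (nat_lit 0) (nat_lit 0)) T1.l2
  (TrL.c (I.mix (nat_lit 8088324) (nat_lit 110514882)) T3.l4
  (TrL.c (I.mix (nat_lit 8088324) (nat_lit 89478486)) T1.l3
  TrL.n)))))))) (by decide +kernel)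
theorem bx4_6 : BoxOK sI cl13 cl7 cl9 t1 t3 b4_6 :=
  box_mk (TrL.c (I.pos (nat_lit 0) (nat_lit 0)) T1.l4
  (TrL.c (I.pos (nat_lit 0) (nat_lit 0)) T3.l1
  (TrL.c (I.pos (nat_lit 0) (nat_lit 134217730)) (xR T1.l1 T1.l1)
  (TrL.c (I.pos (nat_lit 0) (nat_lit 110514882)) (xR T3.l2 T3.l2)
  (TrL.c (I.pos (nat_lit 0) (nat_lit 0)) (xb T3.l5 T3.l5)
  (TrL.c (I.pos (nat_lit 0) (nat_lit 0)) T1.l2
  (TrL.c (I.mix (nat_lit 8088324) (nat_lit 110514882)) T3.l4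
  (TrL.c (I.mix (nat_lit 8088324) (nat_lit 89478486)) T1.l3
  TrL.n)))))))) (by decide +kernel)
theorem bx4_7 : BoxOK sI cl13 cl7 cl9 t1 t3 b4_7 :=
  box_mk (TrL.c (I.pos (nat_lit 0) (nat_lit 0)) T1.l4
  (TrL.c (I.pos (nat_lit 0) (nat_lit 0)) T3.l1
  (TrL.c (I.pos (nat_lit 0) (nat_lit 134217730)) T1.l1
  (TrL.c (I.pos (nat_lit 0) (nat_lit 110514882)) T3.l4
  (TrL.c (I.pos (nat_lit 0) (nat_lit 0)) T3.l5
  (TrL.c (I.pos (nat_lit 0) (nat_lit 0)) T1.l2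
  (TrL.c (I.mix (nat_lit 8088324) (nat_lit 110514882)) T3.l4
  (TrL.c (I.mix (nat_lit 8088324) (nat_lit 89478486)) T1.l6
  TrL.n)))))))) (by decide +kernel)
theorem bx4_8 : BoxOK sI cl13 cl7 cl9 t1 t3 b4_8 :=
  box_mk (TrL.c (I.pos (nat_lit 0) (nat_lit 0)) T1.l11
  (TrL.c (I.pos (nat_lit 0) (nat_lit 0)) T3.l1
  (TrL.c (I.pos (nat_lit 0) (nat_lit 134217730)) (xR T1.l1 T1.l1)
  (TrL.c (I.pos (nat_lit 0) (nat_lit 110514882)) (xR T3.l2 T3.l2)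
  (TrL.c (I.pos (nat_lit 0) (nat_lit 0)) (xk (xa T3.l11 T3.l11) (xa T3.l11 T3.l11))
  (TrL.c (I.pos (nat_lit 0) (nat_lit 0)) T1.l2
  (TrL.c (I.mix (nat_lit 8088324) (nat_lit 110514882)) T3.l4
  (TrL.c (I.mix (nat_lit 8088324) (nat_lit 89478486)) T1.l3
  TrL.n)))))))) (by decide +kernel)
theorem bx4_9 : BoxOK sI cl13 cl7 cl9 t1 t3 b4_9 :=
  box_mk (TrL.c (I.pos (nat_lit 0) (nat_lit 0)) (xa T1.l0 (xb T1.l0 T1.l0))
  (TrL.c (I.pos (nat_lit 0) (nat_lit 0)) (xa (xk T3.l1 T3.l1) (xk (xb T3.l1 T3.l1) (xb T3.l1 T3.l1)))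
  (TrL.c (I.pos (nat_lit 0) (nat_lit 134217730)) (xR T1.l8 T1.l8)
  (TrL.c (I.pos (nat_lit 0) (nat_lit 110514882)) (xR T3.l2 T3.l2)
  (TrL.c (I.pos (nat_lit 0) (nat_lit 0)) (xa (xk (xb T3.l3 T3.l3) (xb (xa T3.l3 T3.l3) T3.l3)) (xk (xb (xa T3.l3 (xk (xb T3.l3 T3.l3) T3.l3)) (xa T3.l3 (xk (xb T3.l3 T3.l3) T3.l3))) (xb (xa T3.l3 (xb (xk T3.l3 T3.l3) T3.l3)) (xa T3.l3 (xk T3.l3 T3.l3)))))
  (TrL.c (I.pos (nat_lit 0) (nat_lit 0)) (xk (xa T1.l2 T1.l2) T1.l2)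
  (TrL.c (I.mix (nat_lit 8088324) (nat_lit 110514882)) (xR T3.l4 (xR T3.l4 T3.l4))
  (TrL.c (I.mix (nat_lit 8088324) (nat_lit 89478486)) T1.l3
  TrL.n)))))))) (by decide +kernel)
theorem bx4_10 : BoxOK sI cl13 cl7 cl9 t1 t3 b4_10 :=
  box_mk (TrL.c (I.pos (nat_lit 0) (nat_lit 0)) (xa T1.l0 T1.l0)
  (TrL.c (I.pos (nat_lit 0) (nat_lit 0)) (xk T3.l1 T3.l1)
  (TrL.c (I.pos (nat_lit 0) (nat_lit 134217730)) (xR T1.l1 T1.l1)
  (TrL.c (I.pos (nat_lit 0) (nat_lit 110514882)) (xR T3.l2 T3.l2)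
  (TrL.c (I.pos (nat_lit 0) (nat_lit 0)) (xk (xa T3.l3 (xb T3.l3 (xb T3.l3 T3.l3))) (xa T3.l3 (xb T3.l3 (xs T3.l3 (xb T3.l3 T3.l3)))))
  (TrL.c (I.pos (nat_lit 0) (nat_lit 0)) T1.l2
  (TrL.c (I.mix (nat_lit 8088324) (nat_lit 110514882)) (xR T3.l4 T3.l4)
  (TrL.c (I.mix (nat_lit 8088324) (nat_lit 89478486)) T1.l3
  TrL.n)))))))) (by decide +kernel)
theorem bx4_11 : BoxOK sI cl13 cl7 cl9 t1 t3 b4_11 :=
  box_mk (TrL.c (I.pos (nat_lit 0) (nat_lit 0)) T1.l11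
  (TrL.c (I.pos (nat_lit 0) (nat_lit 0)) T3.l1
  (TrL.c (I.pos (nat_lit 0) (nat_lit 134217730)) (xR T1.l1 T1.l1)
  (TrL.c (I.pos (nat_lit 0) (nat_lit 110514882)) (xR T3.l2 T3.l2)
  (TrL.c (I.pos (nat_lit 0) (nat_lit 0)) (xk T3.l11 T3.l11)
  (TrL.c (I.pos (nat_lit 0) (nat_lit 0)) T1.l2
  (TrL.c (I.mix (nat_lit 8088324) (nat_lit 110514882)) (xR T3.l4 T3.l4)
  (TrL.c (I.mix (nat_lit 8088324) (nat_lit 89478486)) T1.l3
  TrL.n)))))))) (by decide +kernel)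
theorem sv4 : StarV sI cl13 cl7 cl9 t1 t3 t4 :=
  (bt_n (bt_n (bt_n (bt_b bx4_0) (bt_n (bt_b bx4_1) (bt_b bx4_2))) (bt_n (bt_b bx4_3) (bt_n (bt_b bx4_4) (bt_b bx4_5)))) (bt_n (bt_n (bt_b bx4_6) (bt_n (bt_b bx4_7) (bt_b bx4_8))) (bt_n (bt_b bx4_9) (bt_n (bt_b bx4_10) (bt_b bx4_11)))))
def S4 : StarD := StarD.mk cl13 cl7 cl9 1 3 t4
theorem bx5_0 : BoxOK sI cl13 cl9 cl7 t3 t1 b5_0 :=
  box_mk (TrL.c (I.pos (nat_lit 0) (nat_lit 0)) (xa (xb T3.l0 T3.l0) (xb T3.l0 (xa T3.l0 T3.l0)))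
  (TrL.c (I.pos (nat_lit 0) (nat_lit 0)) (xa (xk T1.l5 T1.l5) (xk T1.l5 T1.l5))
  (TrL.c (I.pos (nat_lit 0) (nat_lit 134217730)) (xR T3.l4 T3.l6)
  (TrL.c (I.pos (nat_lit 0) (nat_lit 110514882)) (xR T1.l6 T1.l6)
  (TrL.c (I.pos (nat_lit 0) (nat_lit 0)) (xa (xk (xb T1.l7 T1.l7) (xb T1.l7 T1.l7)) (xk (xb (xa T1.l7 T1.l7) (xa T1.l7 (xb T1.l7 (xs T1.l7 (xk T1.l7 T1.l7))))) (xb (xa T1.l7 T1.l7) (xb (xa T1.l7 T1.l7) (xa T1.l7 (xs T1.l7 (xk T1.l7 (xa T1.l7 T1.l7))))))))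
  (TrL.c (I.pos (nat_lit 0) (nat_lit 0)) T3.l7
  (TrL.c (I.mix (nat_lit 8088324) (nat_lit 110514882)) (xR T1.l8 T1.l8)
  (TrL.c (I.mix (nat_lit 8088324) (nat_lit 89478486)) T3.l8
  TrL.n)))))))) (by decide +kernel)
theorem bx5_1 : BoxOK sI cl13 cl9 cl7 t3 t1 b5_1 :=
  box_mk (TrL.c (I.pos (nat_lit 0) (nat_lit 0)) T3.l9
  (TrL.c (I.pos (nat_lit 0) (nat_lit 0)) T1.l5
  (TrL.c (I.pos (nat_lit 0) (nat_lit 134217730)) (xR T3.l4 T3.l6)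
  (TrL.c (I.pos (nat_lit 0) (nat_lit 110514882)) (xR T1.l6 T1.l6)
  (TrL.c (I.pos (nat_lit 0) (nat_lit 0)) (xk (xa T1.l9 T1.l9) (xa T1.l9 T1.l9))
  (TrL.c (I.pos (nat_lit 0) (nat_lit 0)) T3.l7
  (TrL.c (I.mix (nat_lit 8088324) (nat_lit 110514882)) T1.l8
  (TrL.c (I.mix (nat_lit 8088324) (nat_lit 89478486)) T3.l8
  TrL.n)))))))) (by decide +kernel)
theorem bx5_2 : BoxOK sI cl13 cl9 cl7 t3 t1 b5_2 :=
  box_mk (TrL.c (I.pos (nat_lit 0) (nat_lit 0)) (xa T3.l9 T3.l9)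
  (TrL.c (I.pos (nat_lit 0) (nat_lit 0)) (xa T1.l5 T1.l5)
  (TrL.c (I.pos (nat_lit 0) (nat_lit 134217730)) (xR T3.l2 T3.l6)
  (TrL.c (I.pos (nat_lit 0) (nat_lit 110514882)) (xR T1.l6 T1.l6)
  (TrL.c (I.pos (nat_lit 0) (nat_lit 0)) (xa T1.l9 T1.l9)
  (TrL.c (I.pos (nat_lit 0) (nat_lit 0)) T3.l7
  (TrL.c (I.mix (nat_lit 8088324) (nat_lit 110514882)) T1.l8
  (TrL.c (I.mix (nat_lit 8088324) (nat_lit 89478486)) T3.l2
  TrL.n)))))))) (by decide +kernel)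
theorem bx5_3 : BoxOK sI cl13 cl9 cl7 t3 t1 b5_3 :=
  box_mk (TrL.c (I.pos (nat_lit 0) (nat_lit 0)) (xb T3.l10 T3.l10)
  (TrL.c (I.pos (nat_lit 0) (nat_lit 0)) (xk T1.l5 T1.l5)
  (TrL.c (I.pos (nat_lit 0) (nat_lit 134217730)) (xR T3.l4 T3.l6)
  (TrL.c (I.pos (nat_lit 0) (nat_lit 110514882)) (xR T1.l6 T1.l6)
  (TrL.c (I.pos (nat_lit 0) (nat_lit 0)) (xk (xb T1.l10 T1.l10) (xb T1.l10 T1.l7))
  (TrL.c (I.pos (nat_lit 0) (nat_lit 0)) T3.l7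
  (TrL.c (I.mix (nat_lit 8088324) (nat_lit 110514882)) (xR T1.l8 T1.l8)
  (TrL.c (I.mix (nat_lit 8088324) (nat_lit 89478486)) T3.l8
  TrL.n)))))))) (by decide +kernel)
theorem bx5_4 : BoxOK sI cl13 cl9 cl7 t3 t1 b5_4 :=
  box_mk (TrL.c (I.pos (nat_lit 0) (nat_lit 0)) (xa (xa T3.l9 T3.l9) (xa T3.l9 T3.l9))
  (TrL.c (I.pos (nat_lit 0) (nat_lit 0)) (xa T1.l5 T1.l5)
  (TrL.c (I.pos (nat_lit 0) (nat_lit 134217730)) (xR T3.l4 T3.l6)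
  (TrL.c (I.pos (nat_lit 0) (nat_lit 110514882)) T1.l6
  (TrL.c (I.pos (nat_lit 0) (nat_lit 0)) (xa T1.l9 T1.l9)
  (TrL.c (I.pos (nat_lit 0) (nat_lit 0)) T3.l7
  (TrL.c (I.mix (nat_lit 8088324) (nat_lit 110514882)) (xR T1.l8 T1.l8)
  (TrL.c (I.mix (nat_lit 8088324) (nat_lit 89478486)) T3.l4
  TrL.n)))))))) (by decide +kernel)
theorem bx5_5 : BoxOK sI cl13 cl9 cl7 t3 t1 b5_5 :=
  box_mk (TrL.c (I.pos (nat_lit 0) (nat_lit 0)) T3.l10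
  (TrL.c (I.pos (nat_lit 0) (nat_lit 0)) T1.l5
  (TrL.c (I.pos (nat_lit 0) (nat_lit 134217730)) (xR T3.l4 T3.l6)
  (TrL.c (I.pos (nat_lit 0) (nat_lit 110514882)) (xR T1.l6 T1.l6)
  (TrL.c (I.pos (nat_lit 0) (nat_lit 0)) (xk (xa T1.l10 (xb T1.l10 T1.l10)) (xa T1.l10 (xb T1.l10 T1.l10)))
  (TrL.c (I.pos (nat_lit 0) (nat_lit 0)) T3.l7
  (TrL.c (I.mix (nat_lit 8088324) (nat_lit 110514882)) T1.l8
  (TrL.c (I.mix (nat_lit 8088324) (nat_lit 89478486)) T3.l8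
  TrL.n)))))))) (by decide +kernel)
theorem bx5_6 : BoxOK sI cl13 cl9 cl7 t3 t1 b5_6 :=
  box_mk (TrL.c (I.pos (nat_lit 0) (nat_lit 0)) (xa (xa T3.l9 T3.l9) (xa T3.l9 T3.l9))
  (TrL.c (I.pos (nat_lit 0) (nat_lit 0)) (xa T1.l5 T1.l5)
  (TrL.c (I.pos (nat_lit 0) (nat_lit 134217730)) (xR T3.l4 T3.l6)
  (TrL.c (I.pos (nat_lit 0) (nat_lit 110514882)) T1.l6
  (TrL.c (I.pos (nat_lit 0) (nat_lit 0)) (xa T1.l9 T1.l9)
  (TrL.c (I.pos (nat_lit 0) (nat_lit 0)) T3.l7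
  (TrL.c (I.mix (nat_lit 8088324) (nat_lit 110514882)) T1.l8
  (TrL.c (I.mix (nat_lit 8088324) (nat_lit 89478486)) T3.l2
  TrL.n)))))))) (by decide +kernel)
theorem bx5_7 : BoxOK sI cl13 cl9 cl7 t3 t1 b5_7 :=
  box_mk (TrL.c (I.pos (nat_lit 0) (nat_lit 0)) T3.l9
  (TrL.c (I.pos (nat_lit 0) (nat_lit 0)) T1.l5
  (TrL.c (I.pos (nat_lit 0) (nat_lit 134217730)) (xR T3.l4 T3.l6)
  (TrL.c (I.pos (nat_lit 0) (nat_lit 110514882)) (xR T1.l6 T1.l6)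
  (TrL.c (I.pos (nat_lit 0) (nat_lit 0)) (xb T1.l9 T1.l9)
  (TrL.c (I.pos (nat_lit 0) (nat_lit 0)) T3.l7
  (TrL.c (I.mix (nat_lit 8088324) (nat_lit 110514882)) T1.l8
  (TrL.c (I.mix (nat_lit 8088324) (nat_lit 89478486)) T3.l8
  TrL.n)))))))) (by decide +kernel)
theorem bx5_8 : BoxOK sI cl13 cl9 cl7 t3 t1 b5_8 :=
  box_mk (TrL.c (I.pos (nat_lit 0) (nat_lit 0)) (xb T3.l10 T3.l10)
  (TrL.c (I.pos (nat_lit 0) (nat_lit 0)) (xk T1.l5 T1.l5)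
  (TrL.c (I.pos (nat_lit 0) (nat_lit 134217730)) (xR T3.l4 T3.l6)
  (TrL.c (I.pos (nat_lit 0) (nat_lit 110514882)) (xR T1.l6 T1.l6)
  (TrL.c (I.pos (nat_lit 0) (nat_lit 0)) (xk (xb T1.l10 T1.l10) (xb T1.l10 T1.l10))
  (TrL.c (I.pos (nat_lit 0) (nat_lit 0)) T3.l7
  (TrL.c (I.mix (nat_lit 8088324) (nat_lit 110514882)) (xR T1.l8 T1.l8)
  (TrL.c (I.mix (nat_lit 8088324) (nat_lit 89478486)) T3.l8
  TrL.n)))))))) (by decide +kernel)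
theorem bx5_9 : BoxOK sI cl13 cl9 cl7 t3 t1 b5_9 :=
  box_mk (TrL.c (I.pos (nat_lit 0) (nat_lit 0)) T3.l9
  (TrL.c (I.pos (nat_lit 0) (nat_lit 0)) T1.l5
  (TrL.c (I.pos (nat_lit 0) (nat_lit 134217730)) (xR T3.l2 T3.l6)
  (TrL.c (I.pos (nat_lit 0) (nat_lit 110514882)) T1.l6
  (TrL.c (I.pos (nat_lit 0) (nat_lit 0)) (xa T1.l9 T1.l9)
  (TrL.c (I.pos (nat_lit 0) (nat_lit 0)) T3.l7
  (TrL.c (I.mix (nat_lit 8088324) (nat_lit 110514882)) T1.l8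
  (TrL.c (I.mix (nat_lit 8088324) (nat_lit 89478486)) T3.l2
  TrL.n)))))))) (by decide +kernel)
theorem bx5_10 : BoxOK sI cl13 cl9 cl7 t3 t1 b5_10 :=
  box_mk (TrL.c (I.pos (nat_lit 0) (nat_lit 0)) (xa T3.l0 T3.l0)
  (TrL.c (I.pos (nat_lit 0) (nat_lit 0)) (xa (xk T1.l5 T1.l5) (xk (xb T1.l5 T1.l5) (xb T1.l5 T1.l5)))
  (TrL.c (I.pos (nat_lit 0) (nat_lit 134217730)) (xR T3.l4 T3.l4)
  (TrL.c (I.pos (nat_lit 0) (nat_lit 110514882)) (xR T1.l6 T1.l6)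
  (TrL.c (I.pos (nat_lit 0) (nat_lit 0)) (xa (xk (xb T1.l7 (xa T1.l7 T1.l7)) (xb T1.l7 T1.l7)) (xk (xb (xa T1.l7 (xk (xb T1.l7 T1.l7) T1.l7)) (xa T1.l7 (xk (xb T1.l7 T1.l7) (xb T1.l7 T1.l7)))) (xb (xa T1.l7 (xk T1.l7 T1.l7)) (xa T1.l7 (xk T1.l7 T1.l7)))))
  (TrL.c (I.pos (nat_lit 0) (nat_lit 0)) (xk (xa T3.l7 T3.l7) (xa T3.l7 T3.l7))
  (TrL.c (I.mix (nat_lit 8088324) (nat_lit 110514882)) (xR T1.l8 (xR T1.l8 T1.l8))
  (TrL.c (I.mix (nat_lit 8088324) (nat_lit 89478486)) T3.l8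
  TrL.n)))))))) (by decide +kernel)
theorem bx5_11 : BoxOK sI cl13 cl9 cl7 t3 t1 b5_11 :=
  box_mk (TrL.c (I.pos (nat_lit 0) (nat_lit 0)) (xa (xb T3.l10 T3.l0) (xb T3.l0 T3.l0))
  (TrL.c (I.pos (nat_lit 0) (nat_lit 0)) (xk (xa T1.l5 T1.l5) (xa T1.l5 T1.l5))
  (TrL.c (I.pos (nat_lit 0) (nat_lit 134217730)) (xR T3.l4 T3.l6)
  (TrL.c (I.pos (nat_lit 0) (nat_lit 110514882)) (xR T1.l6 T1.l6)
  (TrL.c (I.pos (nat_lit 0) (nat_lit 0)) (xk (xa T1.l7 (xb T1.l7 T1.l7)) (xa T1.l7 (xb T1.l7 (xb T1.l7 (xs T1.l7 T1.l7)))))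
  (TrL.c (I.pos (nat_lit 0) (nat_lit 0)) T3.l7
  (TrL.c (I.mix (nat_lit 8088324) (nat_lit 110514882)) (xR T1.l8 T1.l8)
  (TrL.c (I.mix (nat_lit 8088324) (nat_lit 89478486)) T3.l8
  TrL.n)))))))) (by decide +kernel)
theorem sv5 : StarV sI cl13 cl9 cl7 t3 t1 t5 :=
  (bt_n (bt_n (bt_n (bt_b bx5_0) (bt_n (bt_b bx5_1) (bt_b bx5_2))) (bt_n (bt_b bx5_3) (bt_n (bt_b bx5_4) (bt_b bx5_5)))) (bt_n (bt_n (bt_b bx5_6) (bt_n (bt_b bx5_7) (bt_b bx5_8))) (bt_n (bt_b bx5_9) (bt_n (bt_b bx5_10) (bt_b bx5_11)))))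
def S5 : StarD := StarD.mk cl13 cl9 cl7 3 1 t5
def G : List StarD := [S0, S1, S2, S3, S4, S5]
theorem so0 : StarOK sI G S0 :=
  star_mk (by decide) (by decide) rfl rfl rfl rfl rfl rfl (rfl : _ = t2) (rfl : _ = t4)
  (st_mk (Pth.l (Pth.l (Pth.l Pth.z))) (nat_lit 115843851) (nat_lit 134522539) (by decide +kernel))
  (st_mk (Pth.l (Pth.l (Pth.l Pth.z))) (nat_lit 151267942) (nat_lit 170325121) (by decide +kernel))
  (st_mk (Pth.l (Pth.l (Pth.l Pth.z))) (nat_lit 192318479) (nat_lit 211911326) (by decide +kernel)) sv0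
theorem so1 : StarOK sI G S1 :=
  star_mk (by decide) (by decide) rfl rfl rfl rfl rfl rfl (rfl : _ = t4) (rfl : _ = t2)
  (st_mk (Pth.l (Pth.l (Pth.l Pth.z))) (nat_lit 96394075) (nat_lit 115028379) (by decide +kernel))
  (st_mk (Pth.l (Pth.l (Pth.l Pth.z))) (nat_lit 131774816) (nat_lit 150768799) (by decide +kernel))
  (st_mk (Pth.l (Pth.l (Pth.l Pth.z))) (nat_lit 172787918) (nat_lit 192301488) (by decide +kernel)) sv1
theorem so2 : StarOK sI G S2 :=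
  star_mk (by decide) (by decide) rfl rfl rfl rfl rfl rfl (rfl : _ = t0) (rfl : _ = t5)
  (st_mk (Pth.l (Pth.l (Pth.l Pth.z))) (nat_lit 140469700) (nat_lit 162811851) (by decide +kernel))
  (st_mk (Pth.l (Pth.l (Pth.l Pth.z))) (nat_lit 175628269) (nat_lit 198310781) (by decide +kernel))
  (st_mk (Pth.l (Pth.l (Pth.l Pth.z))) (nat_lit 216267781) (nat_lit 239423902) (by decide +kernel)) sv2
theorem so3 : StarOK sI G S3 :=
  star_mk (by decide) (by decide) rfl rfl rfl rfl rfl rfl (rfl : _ = t5) (rfl : _ = t0)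
  (st_mk (Pth.l (Pth.l (Pth.l Pth.z))) (nat_lit 96087074) (nat_lit 114582540) (by decide +kernel))
  (st_mk (Pth.l (Pth.l (Pth.l Pth.z))) (nat_lit 131202536) (nat_lit 149997209) (by decide +kernel))
  (st_mk (Pth.l (Pth.l (Pth.l Pth.z))) (nat_lit 171804607) (nat_lit 191037425) (by decide +kernel)) sv3
theorem so4 : StarOK sI G S4 :=
  star_mk (by decide) (by decide) rfl rfl rfl rfl rfl rfl (rfl : _ = t1) (rfl : _ = t3)
  (st_mk (Pth.l (Pth.l (Pth.l Pth.z))) (nat_lit 141873768) (nat_lit 160309458) (by decide +kernel))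
  (st_mk (Pth.l (Pth.l (Pth.l Pth.z))) (nat_lit 174891329) (nat_lit 197378856) (by decide +kernel))
  (st_mk (Pth.l (Pth.l (Pth.l Pth.z))) (nat_lit 215156648) (nat_lit 238056447) (by decide +kernel)) sv4
theorem so5 : StarOK sI G S5 :=
  star_mk (by decide) (by decide) rfl rfl rfl rfl rfl rfl (rfl : _ = t3) (rfl : _ = t1)
  (st_mk (Pth.l (Pth.l (Pth.l Pth.z))) (nat_lit 115089857) (nat_lit 133482268) (by decide +kernel))
  (st_mk (Pth.l (Pth.l (Pth.l Pth.z))) (nat_lit 149986467) (nat_lit 168650138) (by decide +kernel))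
  (st_mk (Pth.l (Pth.l (Pth.l Pth.z))) (nat_lit 190251785) (nat_lit 209308194) (by decide +kernel)) sv5
theorem ok : GroupOK (nat_lit 150274048) (nat_lit 209387520) G := grp_mk (allS_c so0 (allS_c so1 (allS_c so2 (allS_c so3 (allS_c so4 (allS_c so5 allS_n))))))
theorem cov : GCov G cl7 cl9 cl13 := cov_mk
  ⟨0, by decide, rfl, rfl, rfl⟩ ⟨1, by decide, rfl, rfl, rfl⟩ ⟨2, by decide, rfl, rfl, rfl⟩ ⟨3, by decide, rfl, rfl, rfl⟩ ⟨4, by decide, rfl, rfl, rfl⟩ ⟨5, by decide, rfl, rfl, rfl⟩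
end Q456_2


end Pool.Agent.Helper6.MONO
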