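import Pool.Agent.Helper6.MONO.Cert.C54

/-!
Certificate data (generated).
-/

set_option autoImplicit false
set_option linter.all false
noncomputable section
namespace Pool.Agent.Helper6.MONO


namespace Q456_3
def sI : I := I.pos (nat_lit 209321984) (nat_lit 268435456)
def b0_0 : Bx := Bx.mk (St.mk (I.pos (nat_lit 153141248) (nat_lit 242253824)) (I.mix (nat_lit 5046272) (nat_lit 52740096)) (I.mix (nat_lit 8011776) (nat_lit 85426176)) (I.pos (nat_lit 103579648) (nat_lit 252395520)) (I.mix (nat_lit 102187008) (nat_lit 61587456)) (I.mix (nat_lit 62816256) (nat_lit 59392000)) (I.mix (nat_lit 82903040) (nat_lit 79593472)))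
  false (nat_lit 46815651)
def b0_1 : Bx := Bx.mk (St.mk (I.mix (nat_lit 26263552) (nat_lit 145145856)) (I.mix (nat_lit 9469952) (nat_lit 27148288)) (I.mix (nat_lit 16859136) (nat_lit 20070400)) (I.pos (nat_lit 9371648) (nat_lit 107741184)) (I.mix (nat_lit 33030144) (nat_lit 29360128)) (I.mix (nat_lit 25264128) (nat_lit 19857408)) (I.mix (nat_lit 19562496) (nat_lit 13975552)))
  false (nat_lit 0)
def b0_2 : Bx := Bx.mk (St.mk (I.pos (nat_lit 100974592) (nat_lit 150487040)) (I.mix (nat_lit 50331648) (nat_lit 12124160)) (I.mix (nat_lit 54657024) (nat_lit 6356992)) (I.pos (nat_lit 57344000) (nat_lit 121667584)) (I.mix (nat_lit 86163456) (nat_lit 36782080)) (I.mix (nat_lit 31227904) (nat_lit 69337088)) (I.mix (nat_lit 25018368) (nat_lit 57688064)))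
  false (nat_lit 0)
def b0_3 : Bx := Bx.mk (St.mk (I.mix (nat_lit 30900224) (nat_lit 98123776)) (I.mix (nat_lit 26935296) (nat_lit 5881856)) (I.mix (nat_lit 20545536) (nat_lit 2195456)) (I.pos (nat_lit 13172736) (nat_lit 69926912)) (I.mix (nat_lit 35700736) (nat_lit 15269888)) (I.mix (nat_lit 12943360) (nat_lit 26689536)) (I.mix (nat_lit 7028736) (nat_lit 13746176)))
  false (nat_lit 0)
def b0_4 : Bx := Bx.mk (St.mk (I.pos (nat_lit 214728704) (nat_lit 283574272)) (I.mix (nat_lit 15089664) (nat_lit 38141952)) (I.mix (nat_lit 54624256) (nat_lit 60948480)) (I.pos (nat_lit 210763776) (nat_lit 338411520)) (I.mix (nat_lit 49954816) (nat_lit 40321024)) (I.mix (nat_lit 35504128) (nat_lit 31162368)) (I.mix (nat_lit 61784064) (nat_lit 51822592)))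
  false (nat_lit 12245313)
def b0_5 : Bx := Bx.mk (St.mk (I.pos (nat_lit 204505088) (nat_lit 250904576)) (I.mix (nat_lit 1900544) (nat_lit 32522240)) (I.mix (nat_lit 13271040) (nat_lit 49971200)) (I.pos (nat_lit 196149248) (nat_lit 266403840)) (I.mix (nat_lit 64667648) (nat_lit 52264960)) (I.mix (nat_lit 45793280) (nat_lit 34783232)) (I.mix (nat_lit 71057408) (nat_lit 58556416)))
  false (nat_lit 5625775)
def b0_6 : Bx := Bx.mk (St.mk (I.pos (nat_lit 243515392) (nat_lit 276283392)) (I.mix (nat_lit 23953408) (nat_lit 7602176)) (I.mix (nat_lit 71925760) (nat_lit 1228800)) (I.pos (nat_lit 248283136) (nat_lit 326402048)) (I.mix (nat_lit 52199424) (nat_lit 21561344)) (I.mix (nat_lit 24117248) (nat_lit 30212096)) (I.mix (nat_lit 41730048) (nat_lit 56082432)))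
  false (nat_lit 0)
def b0_7 : Bx := Bx.mk (St.mk (I.pos (nat_lit 193396736) (nat_lit 249266176)) (I.mix (nat_lit 1474560) (nat_lit 33701888)) (I.mix (nat_lit 11190272) (nat_lit 52461568)) (I.pos (nat_lit 183762944) (nat_lit 260407296)) (I.mix (nat_lit 73170944) (nat_lit 43073536)) (I.mix (nat_lit 46366720) (nat_lit 30638080)) (I.mix (nat_lit 70467584) (nat_lit 49020928)))
  false (nat_lit 0)
def b0_8 : Bx := Bx.mk (St.mk (I.pos (nat_lit 225083392) (nat_lit 273711104)) (I.mix (nat_lit 19857408) (nat_lit 24739840)) (I.mix (nat_lit 63029248) (nat_lit 33931264)) (I.pos (nat_lit 223707136) (nat_lit 320028672)) (I.mix (nat_lit 52690944) (nat_lit 19939328)) (I.mix (nat_lit 24035328) (nat_lit 30867456)) (I.mix (nat_lit 40747008) (nat_lit 57311232)))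
  false (nat_lit 0)
def b0_9 : Bx := Bx.mk (St.mk (I.pos (nat_lit 219611136) (nat_lit 288866304)) (I.mix (nat_lit 21069824) (nat_lit 39682048)) (I.mix (nat_lit 67764224) (nat_lit 62537728)) (I.pos (nat_lit 215351296) (nat_lit 351191040)) (I.mix (nat_lit 55787520) (nat_lit 52101120)) (I.mix (nat_lit 50774016) (nat_lit 33718272)) (I.mix (nat_lit 90669056) (nat_lit 58245120)))
  false (nat_lit 28973746)
def b0_10 : Bx := Bx.mk (St.mk (I.pos (nat_lit 98058240) (nat_lit 185794560)) (I.neg (nat_lit 573440) (nat_lit 53280768)) (I.neg (nat_lit 1048576) (nat_lit 56541184)) (I.pos (nat_lit 68665344) (nat_lit 163463168)) (I.mix (nat_lit 77824000) (nat_lit 42516480)) (I.mix (nat_lit 35307520) (nat_lit 54509568)) (I.mix (nat_lit 29179904) (nat_lit 53805056)))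
  false (nat_lit 23970108)
def b0_11 : Bx := Bx.mk (St.mk (I.mix (nat_lit 24838144) (nat_lit 110968832)) (I.mix (nat_lit 27885568) (nat_lit 4767744)) (I.mix (nat_lit 21200896) (nat_lit 2310144)) (I.pos (nat_lit 12009472) (nat_lit 79183872)) (I.mix (nat_lit 32751616) (nat_lit 23609344)) (I.mix (nat_lit 16515072) (nat_lit 23592960)) (I.mix (nat_lit 9715712) (nat_lit 14794752)))
  false (nat_lit 0)
def b0_12 : Bx := Bx.mk (St.mk (I.pos (nat_lit 167641088) (nat_lit 215908352)) (I.mix (nat_lit 14073856) (nat_lit 50446336)) (I.mix (nat_lit 5537792) (nat_lit 80805888)) (I.pos (nat_lit 129826816) (nat_lit 212844544)) (I.mix (nat_lit 121044992) (nat_lit 42008576)) (I.mix (nat_lit 92160000) (nat_lit 52428800)) (I.mix (nat_lit 101548032) (nat_lit 50741248)))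
  false (nat_lit 25228918)
def b0_13 : Bx := Bx.mk (St.mk (I.mix (nat_lit 32948224) (nat_lit 134103040)) (I.mix (nat_lit 15056896) (nat_lit 33357824)) (I.mix (nat_lit 14204928) (nat_lit 25034752)) (I.pos (nat_lit 10584064) (nat_lit 97599488)) (I.mix (nat_lit 45678592) (nat_lit 27213824)) (I.mix (nat_lit 36012032) (nat_lit 20660224)) (I.mix (nat_lit 22659072) (nat_lit 13025280)))
  false (nat_lit 0)
def b0_14 : Bx := Bx.mk (St.mk (I.pos (nat_lit 184074240) (nat_lit 239730688)) (I.pos (nat_lit 10043392) (nat_lit 51068928)) (I.pos (nat_lit 14090240) (nat_lit 82526208)) (I.pos (nat_lit 176095232) (nat_lit 242483200)) (I.mix (nat_lit 90587136) (nat_lit 66748416)) (I.mix (nat_lit 68124672) (nat_lit 54247424)) (I.mix (nat_lit 98533376) (nat_lit 64634880)))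
  false (nat_lit 36433266)
def b0_15 : Bx := Bx.mk (St.mk (I.pos (nat_lit 174292992) (nat_lit 218365952)) (I.mix (nat_lit 27164672) (nat_lit 21430272)) (I.mix (nat_lit 26443776) (nat_lit 38043648)) (I.pos (nat_lit 138133504) (nat_lit 207306752)) (I.mix (nat_lit 58982400) (nat_lit 54509568)) (I.mix (nat_lit 53723136) (nat_lit 48709632)) (I.mix (nat_lit 55164928) (nat_lit 50970624)))
  false (nat_lit 19528798)
def b0_16 : Bx := Bx.mk (St.mk (I.pos (nat_lit 153075712) (nat_lit 201457664)) (I.mix (nat_lit 38207488) (nat_lit 5079040)) (I.mix (nat_lit 43565056) (nat_lit 16269312)) (I.pos (nat_lit 110772224) (nat_lit 185679872)) (I.mix (nat_lit 34275328) (nat_lit 24821760)) (I.mix (nat_lit 18481152) (nat_lit 17907712)) (I.mix (nat_lit 19087360) (nat_lit 19054592)))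
  false (nat_lit 0)
def b0_17 : Bx := Bx.mk (St.mk (I.pos (nat_lit 171311104) (nat_lit 216088576)) (I.mix (nat_lit 15630336) (nat_lit 30883840)) (I.mix (nat_lit 9175040) (nat_lit 53264384)) (I.pos (nat_lit 134774784) (nat_lit 207552512)) (I.mix (nat_lit 93552640) (nat_lit 58474496)) (I.mix (nat_lit 91750400) (nat_lit 53788672)) (I.mix (nat_lit 101629952) (nat_lit 57819136)))
  false (nat_lit 0)
def b0_18 : Bx := Bx.mk (St.mk (I.pos (nat_lit 149946368) (nat_lit 201719808)) (I.mix (nat_lit 37470208) (nat_lit 10289152)) (I.mix (nat_lit 42008576) (nat_lit 23789568)) (I.pos (nat_lit 107282432) (nat_lit 185319424)) (I.mix (nat_lit 43450368) (nat_lit 26902528)) (I.mix (nat_lit 30162944) (nat_lit 21282816)) (I.mix (nat_lit 33193984) (nat_lit 22085632)))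
  false (nat_lit 0)
def b0_19 : Bx := Bx.mk (St.mk (I.pos (nat_lit 171491328) (nat_lit 200359936)) (I.mix (nat_lit 19759104) (nat_lit 11829248)) (I.mix (nat_lit 15417344) (nat_lit 25444352)) (I.pos (nat_lit 130318336) (nat_lit 184696832)) (I.mix (nat_lit 33177600) (nat_lit 20463616)) (I.mix (nat_lit 23396352) (nat_lit 18890752)) (I.mix (nat_lit 25362432) (nat_lit 18481152)))
  false (nat_lit 0)
def b0_20 : Bx := Bx.mk (St.mk (I.pos (nat_lit 174129152) (nat_lit 206176256)) (I.mix (nat_lit 19103744) (nat_lit 13778944)) (I.mix (nat_lit 15384576) (nat_lit 27197440)) (I.pos (nat_lit 137412608) (nat_lit 189579264)) (I.mix (nat_lit 55115776) (nat_lit 34684928)) (I.mix (nat_lit 42827776) (nat_lit 40140800)) (I.mix (nat_lit 44990464) (nat_lit 41385984)))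
  false (nat_lit 0)
def t0 : BTr := (BTr.n (BTr.n (BTr.n (BTr.n (BTr.b b0_0) (BTr.b b0_1)) (BTr.n (BTr.b b0_2) (BTr.n (BTr.b b0_3) (BTr.b b0_4)))) (BTr.n (BTr.n (BTr.b b0_5) (BTr.b b0_6)) (BTr.n (BTr.b b0_7) (BTr.n (BTr.b b0_8) (BTr.b b0_9))))) (BTr.n (BTr.n (BTr.n (BTr.b b0_10) (BTr.b b0_11)) (BTr.n (BTr.b b0_12) (BTr.n (BTr.b b0_13) (BTr.b b0_14)))) (BTr.n (BTr.n (BTr.b b0_15) (BTr.n (BTr.b b0_16) (BTr.b b0_17))) (BTr.n (BTr.b b0_18) (BTr.n (BTr.b b0_19) (BTr.b b0_20))))))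
namespace T0
def l0 : Tr := Tr.L (Pth.l (Pth.l (Pth.l (Pth.l Pth.z))))
def l1 : Tr := Tr.L (Pth.l (Pth.l (Pth.l (Pth.r Pth.z))))
def l2 : Tr := Tr.L (Pth.l (Pth.l (Pth.r (Pth.l Pth.z))))
def l3 : Tr := Tr.L (Pth.l (Pth.l (Pth.r (Pth.r (Pth.l Pth.z)))))
def l4 : Tr := Tr.L (Pth.l (Pth.l (Pth.r (Pth.r (Pth.r Pth.z)))))
def l5 : Tr := Tr.L (Pth.l (Pth.r (Pth.l (Pth.l Pth.z))))
def l6 : Tr := Tr.L (Pth.l (Pth.r (Pth.l (Pth.r Pth.z))))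
def l7 : Tr := Tr.L (Pth.l (Pth.r (Pth.r (Pth.l Pth.z))))
def l8 : Tr := Tr.L (Pth.l (Pth.r (Pth.r (Pth.r (Pth.l Pth.z)))))
def l9 : Tr := Tr.L (Pth.l (Pth.r (Pth.r (Pth.r (Pth.r Pth.z)))))
def l10 : Tr := Tr.L (Pth.r (Pth.l (Pth.l (Pth.l Pth.z))))
def l11 : Tr := Tr.L (Pth.r (Pth.l (Pth.l (Pth.r Pth.z))))
def l12 : Tr := Tr.L (Pth.r (Pth.l (Pth.r (Pth.l Pth.z))))
def l13 : Tr := Tr.L (Pth.r (Pth.l (Pth.r (Pth.r (Pth.l Pth.z)))))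
def l14 : Tr := Tr.L (Pth.r (Pth.l (Pth.r (Pth.r (Pth.r Pth.z)))))
def l15 : Tr := Tr.L (Pth.r (Pth.r (Pth.l (Pth.l Pth.z))))
def l16 : Tr := Tr.L (Pth.r (Pth.r (Pth.l (Pth.r (Pth.l Pth.z)))))
def l17 : Tr := Tr.L (Pth.r (Pth.r (Pth.l (Pth.r (Pth.r Pth.z)))))
def l18 : Tr := Tr.L (Pth.r (Pth.r (Pth.r (Pth.l Pth.z))))
def l19 : Tr := Tr.L (Pth.r (Pth.r (Pth.r (Pth.r (Pth.l Pth.z)))))
def l20 : Tr := Tr.L (Pth.r (Pth.r (Pth.r (Pth.r (Pth.r Pth.z)))))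
end T0
def b1_0 : Bx := Bx.mk (St.mk (I.pos (nat_lit 153010176) (nat_lit 243580928)) (I.mix (nat_lit 4653056) (nat_lit 48398336)) (I.mix (nat_lit 8011776) (nat_lit 85426176)) (I.pos (nat_lit 84148224) (nat_lit 232308736)) (I.mix (nat_lit 95436800) (nat_lit 58458112)) (I.mix (nat_lit 61030400) (nat_lit 58933248)) (I.mix (nat_lit 84082688) (nat_lit 75300864)))
  false (nat_lit 52646572)
def b1_1 : Bx := Bx.mk (St.mk (I.mix (nat_lit 20086784) (nat_lit 154927104)) (I.mix (nat_lit 7421952) (nat_lit 23412736)) (I.mix (nat_lit 11698176) (nat_lit 21331968)) (I.mix (nat_lit 9486336) (nat_lit 98238464)) (I.mix (nat_lit 32194560) (nat_lit 27361280)) (I.mix (nat_lit 25067520) (nat_lit 18268160)) (I.mix (nat_lit 21561344) (nat_lit 14598144)))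
  false (nat_lit 0)
def b1_2 : Bx := Bx.mk (St.mk (I.pos (nat_lit 111460352) (nat_lit 159088640)) (I.mix (nat_lit 46628864) (nat_lit 10518528)) (I.mix (nat_lit 50544640) (nat_lit 9142272)) (I.pos (nat_lit 47857664) (nat_lit 110919680)) (I.mix (nat_lit 81641472) (nat_lit 37896192)) (I.mix (nat_lit 31604736) (nat_lit 67207168)) (I.mix (nat_lit 27721728) (nat_lit 60473344)))
  false (nat_lit 0)
def b1_3 : Bx := Bx.mk (St.mk (I.mix (nat_lit 20873216) (nat_lit 114196480)) (I.mix (nat_lit 23953408) (nat_lit 4489216)) (I.mix (nat_lit 19038208) (nat_lit 2818048)) (I.mix (nat_lit 6193152) (nat_lit 62062592)) (I.mix (nat_lit 33144832) (nat_lit 15679488)) (I.mix (nat_lit 11911168) (nat_lit 25362432)) (I.mix (nat_lit 6619136) (nat_lit 15646720)))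
  false (nat_lit 0)
def b1_4 : Bx := Bx.mk (St.mk (I.pos (nat_lit 193871872) (nat_lit 249233408)) (I.mix (nat_lit 2146304) (nat_lit 30851072)) (I.mix (nat_lit 4800512) (nat_lit 56164352)) (I.pos (nat_lit 165462016) (nat_lit 242008064)) (I.mix (nat_lit 73629696) (nat_lit 35045376)) (I.mix (nat_lit 46284800) (nat_lit 29949952)) (I.mix (nat_lit 70254592) (nat_lit 48021504)))
  false (nat_lit 2383851)
def b1_5 : Bx := Bx.mk (St.mk (I.pos (nat_lit 224198656) (nat_lit 273596416)) (I.mix (nat_lit 18923520) (nat_lit 23756800)) (I.mix (nat_lit 50069504) (nat_lit 42287104)) (I.pos (nat_lit 203194368) (nat_lit 300630016)) (I.mix (nat_lit 49496064) (nat_lit 18268160)) (I.mix (nat_lit 25460736) (nat_lit 28622848)) (I.mix (nat_lit 40534016) (nat_lit 51560448)))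
  false (nat_lit 0)
def b1_6 : Bx := Bx.mk (St.mk (I.pos (nat_lit 219512832) (nat_lit 288292864)) (I.mix (nat_lit 20545536) (nat_lit 37109760)) (I.mix (nat_lit 55148544) (nat_lit 67665920)) (I.pos (nat_lit 195280896) (nat_lit 330776576)) (I.mix (nat_lit 53608448) (nat_lit 50970624)) (I.mix (nat_lit 50249728) (nat_lit 32784384)) (I.mix (nat_lit 89669632) (nat_lit 53837824)))
  false (nat_lit 27903549)
def b1_7 : Bx := Bx.mk (St.mk (I.pos (nat_lit 215072768) (nat_lit 281919488)) (I.mix (nat_lit 11042816) (nat_lit 35143680)) (I.mix (nat_lit 36012032) (nat_lit 64700416)) (I.pos (nat_lit 191119360) (nat_lit 315588608)) (I.mix (nat_lit 47595520) (nat_lit 38895616)) (I.mix (nat_lit 31473664) (nat_lit 29540352)) (I.mix (nat_lit 53248000) (nat_lit 46956544)))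
  false (nat_lit 11323938)
def b1_8 : Bx := Bx.mk (St.mk (I.pos (nat_lit 205225984) (nat_lit 251019264)) (I.mix (nat_lit 2162688) (nat_lit 29556736)) (I.mix (nat_lit 5586944) (nat_lit 53788672)) (I.pos (nat_lit 177913856) (nat_lit 246398976)) (I.mix (nat_lit 64634880) (nat_lit 47874048)) (I.mix (nat_lit 44892160) (nat_lit 32227328)) (I.mix (nat_lit 70500352) (nat_lit 54591488)))
  false (nat_lit 0)
def b1_9 : Bx := Bx.mk (St.mk (I.pos (nat_lit 249970688) (nat_lit 272596992)) (I.mix (nat_lit 17629184) (nat_lit 1441792)) (I.neg (nat_lit 622592) (nat_lit 48824320)) (I.pos (nat_lit 241631232) (nat_lit 299876352)) (I.mix (nat_lit 40878080) (nat_lit 12369920)) (I.mix (nat_lit 20037632) (nat_lit 23248896)) (I.mix (nat_lit 33832960) (nat_lit 40943616)))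
  false (nat_lit 0)
def b1_10 : Bx := Bx.mk (St.mk (I.pos (nat_lit 106332160) (nat_lit 192233472)) (I.mix (nat_lit 52101120) (nat_lit 1146880)) (I.mix (nat_lit 53706752) (nat_lit 1933312)) (I.pos (nat_lit 60227584) (nat_lit 152748032)) (I.mix (nat_lit 79806464) (nat_lit 41418752)) (I.mix (nat_lit 38535168) (nat_lit 52264960)) (I.mix (nat_lit 33374208) (nat_lit 52543488)))
  false (nat_lit 4113104)
def b1_11 : Bx := Bx.mk (St.mk (I.pos (nat_lit 33439744) (nat_lit 121241600)) (I.mix (nat_lit 25444352) (nat_lit 5079040)) (I.mix (nat_lit 19234816) (nat_lit 3145728)) (I.pos (nat_lit 3506176) (nat_lit 70664192)) (I.mix (nat_lit 30752768) (nat_lit 22134784)) (I.mix (nat_lit 15204352) (nat_lit 22167552)) (I.mix (nat_lit 9682944) (nat_lit 15532032)))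
  false (nat_lit 0)
def b1_12 : Bx := Bx.mk (St.mk (I.pos (nat_lit 171720704) (nat_lit 216350720)) (I.mix (nat_lit 15073280) (nat_lit 44433408)) (I.mix (nat_lit 4014080) (nat_lit 77496320)) (I.pos (nat_lit 114950144) (nat_lit 191594496)) (I.mix (nat_lit 117358592) (nat_lit 41926656)) (I.mix (nat_lit 92160000) (nat_lit 48627712)) (I.mix (nat_lit 107069440) (nat_lit 47054848)))
  false (nat_lit 6127790)
def b1_13 : Bx := Bx.mk (St.mk (I.mix (nat_lit 23461888) (nat_lit 144998400)) (I.mix (nat_lit 15368192) (nat_lit 30883840)) (I.mix (nat_lit 13303808) (nat_lit 27181056)) (I.mix (nat_lit 8601600) (nat_lit 88440832)) (I.mix (nat_lit 46923776) (nat_lit 27262976)) (I.mix (nat_lit 36798464) (nat_lit 20070400)) (I.mix (nat_lit 26755072) (nat_lit 13991936)))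
  false (nat_lit 0)
def b1_14 : Bx := Bx.mk (St.mk (I.pos (nat_lit 177111040) (nat_lit 220971008)) (I.mix (nat_lit 29032448) (nat_lit 18399232)) (I.mix (nat_lit 25640960) (nat_lit 37978112)) (I.pos (nat_lit 122798080) (nat_lit 190971904)) (I.mix (nat_lit 58490880) (nat_lit 59015168)) (I.mix (nat_lit 57966592) (nat_lit 51085312)) (I.mix (nat_lit 60997632) (nat_lit 54640640)))
  false (nat_lit 27074107)
def b1_15 : Bx := Bx.mk (St.mk (I.pos (nat_lit 157089792) (nat_lit 203620352)) (I.mix (nat_lit 37715968) (nat_lit 2113536)) (I.mix (nat_lit 40452096) (nat_lit 13975552)) (I.pos (nat_lit 98156544) (nat_lit 168574976)) (I.mix (nat_lit 34816000) (nat_lit 26165248)) (I.mix (nat_lit 19873792) (nat_lit 19070976)) (I.mix (nat_lit 20889600) (nat_lit 19759104)))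
  false (nat_lit 0)
def b1_16 : Bx := Bx.mk (St.mk (I.pos (nat_lit 174555136) (nat_lit 218415104)) (I.mix (nat_lit 17580032) (nat_lit 27049984)) (I.mix (nat_lit 7946240) (nat_lit 51855360)) (I.pos (nat_lit 116719616) (nat_lit 190251008)) (I.mix (nat_lit 91717632) (nat_lit 57573376)) (I.mix (nat_lit 90619904) (nat_lit 51544064)) (I.mix (nat_lit 104054784) (nat_lit 55394304)))
  false (nat_lit 3447926)
def b1_17 : Bx := Bx.mk (St.mk (I.pos (nat_lit 151830528) (nat_lit 204554240)) (I.mix (nat_lit 37748736) (nat_lit 9420800)) (I.mix (nat_lit 39976960) (nat_lit 24887296)) (I.pos (nat_lit 93732864) (nat_lit 168886272)) (I.mix (nat_lit 49250304) (nat_lit 29442048)) (I.mix (nat_lit 31735808) (nat_lit 24018944)) (I.mix (nat_lit 36143104) (nat_lit 25346048)))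
  false (nat_lit 0)
def b1_18 : Bx := Bx.mk (St.mk (I.pos (nat_lit 176701440) (nat_lit 210157568)) (I.mix (nat_lit 23265280) (nat_lit 10895360)) (I.mix (nat_lit 17022976) (nat_lit 26804224)) (I.pos (nat_lit 121356288) (nat_lit 178733056)) (I.mix (nat_lit 52625408) (nat_lit 34422784)) (I.mix (nat_lit 40812544) (nat_lit 38223872)) (I.mix (nat_lit 44367872) (nat_lit 40321024)))
  false (nat_lit 0)
def b1_19 : Bx := Bx.mk (St.mk (I.pos (nat_lit 185663488) (nat_lit 241811456)) (I.pos (nat_lit 5603328) (nat_lit 47153152)) (I.pos (nat_lit 11026432) (nat_lit 83329024)) (I.pos (nat_lit 157646848) (nat_lit 223887360)) (I.mix (nat_lit 87179264) (nat_lit 65372160)) (I.mix (nat_lit 68714496) (nat_lit 53428224)) (I.mix (nat_lit 101449728) (nat_lit 67043328)))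
  false (nat_lit 38834640)
def b1_20 : Bx := Bx.mk (St.mk (I.pos (nat_lit 172769280) (nat_lit 202473472)) (I.mix (nat_lit 22773760) (nat_lit 8683520)) (I.mix (nat_lit 16564224) (nat_lit 23756800)) (I.pos (nat_lit 113491968) (nat_lit 167428096)) (I.mix (nat_lit 34799616) (nat_lit 21151744)) (I.mix (nat_lit 23085056) (nat_lit 19513344)) (I.mix (nat_lit 25985024) (nat_lit 19431424)))
  false (nat_lit 0)
def t1 : BTr := (BTr.n (BTr.n (BTr.n (BTr.n (BTr.b b1_0) (BTr.b b1_1)) (BTr.n (BTr.b b1_2) (BTr.n (BTr.b b1_3) (BTr.b b1_4)))) (BTr.n (BTr.n (BTr.b b1_5) (BTr.b b1_6)) (BTr.n (BTr.b b1_7) (BTr.n (BTr.b b1_8) (BTr.b b1_9))))) (BTr.n (BTr.n (BTr.n (BTr.b b1_10) (BTr.b b1_11)) (BTr.n (BTr.b b1_12) (BTr.n (BTr.b b1_13) (BTr.b b1_14)))) (BTr.n (BTr.n (BTr.b b1_15) (BTr.n (BTr.b b1_16) (BTr.b b1_17))) (BTr.n (BTr.b b1_18) (BTr.n (BTr.b b1_19) (BTr.b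 b1_20))))))
namespace T1
def l0 : Tr := Tr.L (Pth.l (Pth.l (Pth.l (Pth.l Pth.z))))
def l1 : Tr := Tr.L (Pth.l (Pth.l (Pth.l (Pth.r Pth.z))))
def l2 : Tr := Tr.L (Pth.l (Pth.l (Pth.r (Pth.l Pth.z))))
def l3 : Tr := Tr.L (Pth.l (Pth.l (Pth.r (Pth.r (Pth.l Pth.z)))))
def l4 : Tr := Tr.L (Pth.l (Pth.l (Pth.r (Pth.r (Pth.r Pth.z)))))
def l5 : Tr := Tr.L (Pth.l (Pth.r (Pth.l (Pth.l Pth.z))))
def l6 : Tr := Tr.L (Pth.l (Pth.r (Pth.l (Pth.r Pth.z))))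
def l7 : Tr := Tr.L (Pth.l (Pth.r (Pth.r (Pth.l Pth.z))))
def l8 : Tr := Tr.L (Pth.l (Pth.r (Pth.r (Pth.r (Pth.l Pth.z)))))
def l9 : Tr := Tr.L (Pth.l (Pth.r (Pth.r (Pth.r (Pth.r Pth.z)))))
def l10 : Tr := Tr.L (Pth.r (Pth.l (Pth.l (Pth.l Pth.z))))
def l11 : Tr := Tr.L (Pth.r (Pth.l (Pth.l (Pth.r Pth.z))))
def l12 : Tr := Tr.L (Pth.r (Pth.l (Pth.r (Pth.l Pth.z))))
def l13 : Tr := Tr.L (Pth.r (Pth.l (Pth.r (Pth.r (Pth.l Pth.z)))))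
def l14 : Tr := Tr.L (Pth.r (Pth.l (Pth.r (Pth.r (Pth.r Pth.z)))))
def l15 : Tr := Tr.L (Pth.r (Pth.r (Pth.l (Pth.l Pth.z))))
def l16 : Tr := Tr.L (Pth.r (Pth.r (Pth.l (Pth.r (Pth.l Pth.z)))))
def l17 : Tr := Tr.L (Pth.r (Pth.r (Pth.l (Pth.r (Pth.r Pth.z)))))
def l18 : Tr := Tr.L (Pth.r (Pth.r (Pth.r (Pth.l Pth.z))))
def l19 : Tr := Tr.L (Pth.r (Pth.r (Pth.r (Pth.r (Pth.l Pth.z)))))
def l20 : Tr := Tr.L (Pth.r (Pth.r (Pth.r (Pth.r (Pth.r Pth.z)))))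
end T1
def b2_0 : Bx := Bx.mk (St.mk (I.pos (nat_lit 153354240) (nat_lit 239812608)) (I.mix (nat_lit 5406720) (nat_lit 56786944)) (I.mix (nat_lit 8601600) (nat_lit 91881472)) (I.pos (nat_lit 130433024) (nat_lit 274546688)) (I.mix (nat_lit 106758144) (nat_lit 62996480)) (I.mix (nat_lit 65191936) (nat_lit 61472768)) (I.mix (nat_lit 84246528) (nat_lit 82264064)))
  false (nat_lit 73944835)
def b2_1 : Bx := Bx.mk (St.mk (I.mix (nat_lit 32604160) (nat_lit 130629632)) (I.mix (nat_lit 8814592) (nat_lit 31604736)) (I.mix (nat_lit 16465920) (nat_lit 19873792)) (I.pos (nat_lit 36077568) (nat_lit 120782848)) (I.mix (nat_lit 35553280) (nat_lit 32079872)) (I.mix (nat_lit 27721728) (nat_lit 22315008)) (I.mix (nat_lit 19103744) (nat_lit 13926400)))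
  false (nat_lit 0)
def b2_2 : Bx := Bx.mk (St.mk (I.pos (nat_lit 87359488) (nat_lit 143736832)) (I.mix (nat_lit 58687488) (nat_lit 11763712)) (I.mix (nat_lit 60751872) (nat_lit 5062656)) (I.pos (nat_lit 72974336) (nat_lit 141524992)) (I.mix (nat_lit 89997312) (nat_lit 36667392)) (I.mix (nat_lit 32555008) (nat_lit 69844992)) (I.mix (nat_lit 23773184) (nat_lit 52084736)))
  false (nat_lit 0)
def b2_3 : Bx := Bx.mk (St.mk (I.mix (nat_lit 43483136) (nat_lit 76201984)) (I.mix (nat_lit 31555584) (nat_lit 6635520)) (I.mix (nat_lit 19218432) (nat_lit 3964928)) (I.pos (nat_lit 39239680) (nat_lit 84672512)) (I.mix (nat_lit 36356096) (nat_lit 16384000)) (I.mix (nat_lit 14221312) (nat_lit 26411008)) (I.mix (nat_lit 7077888) (nat_lit 10289152)))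
  false (nat_lit 0)
def b2_4 : Bx := Bx.mk (St.mk (I.pos (nat_lit 89767936) (nat_lit 179830784)) (I.neg (nat_lit 2899968) (nat_lit 57819136)) (I.mix (nat_lit 57262080) (nat_lit 1900544)) (I.pos (nat_lit 85278720) (nat_lit 182566912)) (I.mix (nat_lit 83132416) (nat_lit 43597824)) (I.mix (nat_lit 36798464) (nat_lit 53510144)) (I.mix (nat_lit 29573120) (nat_lit 49250304)))
  false (nat_lit 12203192)
def b2_5 : Bx := Bx.mk (St.mk (I.mix (nat_lit 30654464) (nat_lit 91176960)) (I.mix (nat_lit 32768000) (nat_lit 4653056)) (I.mix (nat_lit 21135360) (nat_lit 4079616)) (I.pos (nat_lit 38092800) (nat_lit 92962816)) (I.mix (nat_lit 35340288) (nat_lit 26984448)) (I.mix (nat_lit 18890752) (nat_lit 25460736)) (I.mix (nat_lit 10027008) (nat_lit 13451264)))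
  false (nat_lit 0)
def b2_6 : Bx := Bx.mk (St.mk (I.pos (nat_lit 163233792) (nat_lit 213581824)) (I.mix (nat_lit 12107776) (nat_lit 56147968)) (I.mix (nat_lit 2113536) (nat_lit 88358912)) (I.pos (nat_lit 149815296) (nat_lit 234733568)) (I.mix (nat_lit 127729664) (nat_lit 43188224)) (I.mix (nat_lit 95207424) (nat_lit 56918016)) (I.mix (nat_lit 98975744) (nat_lit 51232768)))
  false (nat_lit 45609075)
def b2_7 : Bx := Bx.mk (St.mk (I.mix (nat_lit 45924352) (nat_lit 118177792)) (I.mix (nat_lit 14647296) (nat_lit 37502976)) (I.mix (nat_lit 11993088) (nat_lit 25804800)) (I.pos (nat_lit 36044800) (nat_lit 111853568)) (I.mix (nat_lit 48201728) (nat_lit 27295744)) (I.mix (nat_lit 37027840) (nat_lit 21577728)) (I.mix (nat_lit 20086784) (nat_lit 12861440)))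
  false (nat_lit 0)
def b2_8 : Bx := Bx.mk (St.mk (I.pos (nat_lit 208273408) (nat_lit 284917760)) (I.mix (nat_lit 14647296) (nat_lit 42336256)) (I.mix (nat_lit 55033856) (nat_lit 67862528)) (I.pos (nat_lit 226197504) (nat_lit 363839488)) (I.mix (nat_lit 49496064) (nat_lit 41385984)) (I.mix (nat_lit 31309824) (nat_lit 28196864)) (I.mix (nat_lit 52543488) (nat_lit 48250880)))
  false (nat_lit 53369608)
def b2_9 : Bx := Bx.mk (St.mk (I.pos (nat_lit 201048064) (nat_lit 247627776)) (I.pos (nat_lit 1622016) (nat_lit 36421632)) (I.mix (nat_lit 4915200) (nat_lit 56426496)) (I.pos (nat_lit 216203264) (nat_lit 285835264)) (I.mix (nat_lit 67158016) (nat_lit 55672832)) (I.mix (nat_lit 46088192) (nat_lit 37715968)) (I.mix (nat_lit 69976064) (nat_lit 62177280)))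
  false (nat_lit 31085796)
def b2_10 : Bx := Bx.mk (St.mk (I.pos (nat_lit 249069568) (nat_lit 275660800)) (I.mix (nat_lit 20971520) (nat_lit 10190848)) (I.mix (nat_lit 66715648) (nat_lit 4767744)) (I.pos (nat_lit 281640960) (nat_lit 349077504)) (I.mix (nat_lit 43827200) (nat_lit 25886720)) (I.mix (nat_lit 24592384) (nat_lit 26820608)) (I.mix (nat_lit 42156032) (nat_lit 49168384)))
  false (nat_lit 0)
def b2_11 : Bx := Bx.mk (St.mk (I.pos (nat_lit 198901760) (nat_lit 243761152)) (I.pos (nat_lit 557056) (nat_lit 33718272)) (I.mix (nat_lit 6094848) (nat_lit 52559872)) (I.pos (nat_lit 213876736) (nat_lit 274415616)) (I.mix (nat_lit 72253440) (nat_lit 39878656)) (I.mix (nat_lit 48087040) (nat_lit 32178176)) (I.mix (nat_lit 70451200) (nat_lit 50069504)))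
  false (nat_lit 16378787)
def b2_12 : Bx := Bx.mk (St.mk (I.pos (nat_lit 145309696) (nat_lit 198393856)) (I.mix (nat_lit 36274176) (nat_lit 15974400)) (I.mix (nat_lit 36749312) (nat_lit 34947072)) (I.pos (nat_lit 127680512) (nat_lit 206880768)) (I.mix (nat_lit 35749888) (nat_lit 22773760)) (I.mix (nat_lit 24363008) (nat_lit 19922944)) (I.mix (nat_lit 25067520) (nat_lit 17793024)))
  false (nat_lit 0)
def b2_13 : Bx := Bx.mk (St.mk (I.pos (nat_lit 168067072) (nat_lit 205799424)) (I.mix (nat_lit 22937600) (nat_lit 15056896)) (I.mix (nat_lit 17088512) (nat_lit 32030720)) (I.pos (nat_lit 155353088) (nat_lit 214482944)) (I.mix (nat_lit 57638912) (nat_lit 43335680)) (I.mix (nat_lit 42860544) (nat_lit 39485440)) (I.mix (nat_lit 43597824) (nat_lit 38731776)))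
  false (nat_lit 0)
def b2_14 : Bx := Bx.mk (St.mk (I.pos (nat_lit 147570688) (nat_lit 192331776)) (I.mix (nat_lit 38043648) (nat_lit 2457600)) (I.mix (nat_lit 39649280) (nat_lit 16646144)) (I.pos (nat_lit 129662976) (nat_lit 198672384)) (I.mix (nat_lit 31866880) (nat_lit 17301504)) (I.mix (nat_lit 15106048) (nat_lit 15351808)) (I.mix (nat_lit 15876096) (nat_lit 15384576)))
  false (nat_lit 0)
def b2_15 : Bx := Bx.mk (St.mk (I.pos (nat_lit 169246720) (nat_lit 213909504)) (I.mix (nat_lit 25477120) (nat_lit 22904832)) (I.mix (nat_lit 20905984) (nat_lit 42729472)) (I.pos (nat_lit 156532736) (nat_lit 226394112)) (I.mix (nat_lit 57999360) (nat_lit 57212928)) (I.mix (nat_lit 55590912) (nat_lit 49905664)) (I.mix (nat_lit 54689792) (nat_lit 49659904)))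
  false (nat_lit 0)
def b2_16 : Bx := Bx.mk (St.mk (I.pos (nat_lit 157401088) (nat_lit 195756032)) (I.mix (nat_lit 31145984) (nat_lit 5275648)) (I.mix (nat_lit 30359552) (nat_lit 20774912)) (I.pos (nat_lit 139706368) (nat_lit 203538432)) (I.mix (nat_lit 26902528) (nat_lit 25804800)) (I.mix (nat_lit 18628608) (nat_lit 17858560)) (I.mix (nat_lit 18055168) (nat_lit 17596416)))
  false (nat_lit 0)
def b2_17 : Bx := Bx.mk (St.mk (I.pos (nat_lit 165117952) (nat_lit 211828736)) (I.mix (nat_lit 14237696) (nat_lit 33734656)) (I.mix (nat_lit 5275648) (nat_lit 60129280)) (I.pos (nat_lit 152780800) (nat_lit 228278272)) (I.mix (nat_lit 95338496) (nat_lit 57196544)) (I.mix (nat_lit 91684864) (nat_lit 56688640)) (I.mix (nat_lit 97976320) (nat_lit 58441728)))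
  false (nat_lit 21207781)
def b2_18 : Bx := Bx.mk (St.mk (I.pos (nat_lit 143998976) (nat_lit 197394432)) (I.mix (nat_lit 35799040) (nat_lit 12419072)) (I.mix (nat_lit 36241408) (nat_lit 30261248)) (I.pos (nat_lit 125829120) (nat_lit 205258752)) (I.mix (nat_lit 41304064) (nat_lit 28459008)) (I.mix (nat_lit 30261248) (nat_lit 20922368)) (I.mix (nat_lit 31932416) (nat_lit 19775488)))
  false (nat_lit 0)
def b2_19 : Bx := Bx.mk (St.mk (I.pos (nat_lit 248135680) (nat_lit 269910016)) (I.mix (nat_lit 18939904) (nat_lit 4521984)) (I.neg (nat_lit 4718592) (nat_lit 62242816)) (I.pos (nat_lit 279740416) (nat_lit 336805888)) (I.mix (nat_lit 46383104) (nat_lit 16973824)) (I.mix (nat_lit 23314432) (nat_lit 28360704)) (I.mix (nat_lit 37863424) (nat_lit 52264960)))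
  false (nat_lit 0)
def b2_20 : Bx := Bx.mk (St.mk (I.pos (nat_lit 179208192) (nat_lit 234323968)) (I.pos (nat_lit 15237120) (nat_lit 53919744)) (I.pos (nat_lit 22609920) (nat_lit 86917120)) (I.pos (nat_lit 193462272) (nat_lit 262307840)) (I.mix (nat_lit 96878592) (nat_lit 68304896)) (I.mix (nat_lit 69828608) (nat_lit 53739520)) (I.mix (nat_lit 99319808) (nat_lit 63225856)))
  false (nat_lit 42403854)
def b2_21 : Bx := Bx.mk (St.mk (I.pos (nat_lit 211959808) (nat_lit 288800768)) (I.mix (nat_lit 18579456) (nat_lit 43597824)) (I.mix (nat_lit 63504384) (nat_lit 69533696)) (I.pos (nat_lit 229507072) (nat_lit 373555200)) (I.mix (nat_lit 51920896) (nat_lit 53968896)) (I.mix (nat_lit 49561600) (nat_lit 32620544)) (I.mix (nat_lit 86982656) (nat_lit 54607872)))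
  false (nat_lit 62375822)
def t2 : BTr := (BTr.n (BTr.n (BTr.n (BTr.n (BTr.b b2_0) (BTr.b b2_1)) (BTr.n (BTr.b b2_2) (BTr.n (BTr.b b2_3) (BTr.b b2_4)))) (BTr.n (BTr.n (BTr.b b2_5) (BTr.n (BTr.b b2_6) (BTr.b b2_7))) (BTr.n (BTr.b b2_8) (BTr.n (BTr.b b2_9) (BTr.b b2_10))))) (BTr.n (BTr.n (BTr.n (BTr.b b2_11) (BTr.b b2_12)) (BTr.n (BTr.b b2_13) (BTr.n (BTr.b b2_14) (BTr.b b2_15)))) (BTr.n (BTr.n (BTr.b b2_16) (BTr.n (BTr.b b2_17) (BTr.b b2_18))) (BTr.n (BTr.b b2_19) (BTr.n (BTr.b b2_20) (BTr.b b2_21))))))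
namespace T2
def l0 : Tr := Tr.L (Pth.l (Pth.l (Pth.l (Pth.l Pth.z))))
def l1 : Tr := Tr.L (Pth.l (Pth.l (Pth.l (Pth.r Pth.z))))
def l2 : Tr := Tr.L (Pth.l (Pth.l (Pth.r (Pth.l Pth.z))))
def l3 : Tr := Tr.L (Pth.l (Pth.l (Pth.r (Pth.r (Pth.l Pth.z)))))
def l4 : Tr := Tr.L (Pth.l (Pth.l (Pth.r (Pth.r (Pth.r Pth.z)))))
def l5 : Tr := Tr.L (Pth.l (Pth.r (Pth.l (Pth.l Pth.z))))
def l6 : Tr := Tr.L (Pth.l (Pth.r (Pth.l (Pth.r (Pth.l Pth.z)))))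
def l7 : Tr := Tr.L (Pth.l (Pth.r (Pth.l (Pth.r (Pth.r Pth.z)))))
def l8 : Tr := Tr.L (Pth.l (Pth.r (Pth.r (Pth.l Pth.z))))
def l9 : Tr := Tr.L (Pth.l (Pth.r (Pth.r (Pth.r (Pth.l Pth.z)))))
def l10 : Tr := Tr.L (Pth.l (Pth.r (Pth.r (Pth.r (Pth.r Pth.z)))))
def l11 : Tr := Tr.L (Pth.r (Pth.l (Pth.l (Pth.l Pth.z))))
def l12 : Tr := Tr.L (Pth.r (Pth.l (Pth.l (Pth.r Pth.z))))
def l13 : Tr := Tr.L (Pth.r (Pth.l (Pth.r (Pth.l Pth.z))))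
def l14 : Tr := Tr.L (Pth.r (Pth.l (Pth.r (Pth.r (Pth.l Pth.z)))))
def l15 : Tr := Tr.L (Pth.r (Pth.l (Pth.r (Pth.r (Pth.r Pth.z)))))
def l16 : Tr := Tr.L (Pth.r (Pth.r (Pth.l (Pth.l Pth.z))))
def l17 : Tr := Tr.L (Pth.r (Pth.r (Pth.l (Pth.r (Pth.l Pth.z)))))
def l18 : Tr := Tr.L (Pth.r (Pth.r (Pth.l (Pth.r (Pth.r Pth.z)))))
def l19 : Tr := Tr.L (Pth.r (Pth.r (Pth.r (Pth.l Pth.z))))
def l20 : Tr := Tr.L (Pth.r (Pth.r (Pth.r (Pth.r (Pth.l Pth.z)))))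
def l21 : Tr := Tr.L (Pth.r (Pth.r (Pth.r (Pth.r (Pth.r Pth.z)))))
end T2
def b3_0 : Bx := Bx.mk (St.mk (I.pos (nat_lit 153141248) (nat_lit 242253824)) (I.mix (nat_lit 4440064) (nat_lit 46088192)) (I.mix (nat_lit 8585216) (nat_lit 91602944)) (I.pos (nat_lit 84361216) (nat_lit 225902592)) (I.mix (nat_lit 95600640) (nat_lit 55263232)) (I.mix (nat_lit 64438272) (nat_lit 59867136)) (I.mix (nat_lit 86523904) (nat_lit 78036992)))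
  false (nat_lit 36839803)
def b3_1 : Bx := Bx.mk (St.mk (I.pos (nat_lit 108298240) (nat_lit 195313664)) (I.mix (nat_lit 53198848) (nat_lit 704512)) (I.mix (nat_lit 51052544) (nat_lit 7897088)) (I.pos (nat_lit 62947328) (nat_lit 156123136)) (I.mix (nat_lit 77709312) (nat_lit 43712512)) (I.mix (nat_lit 39403520) (nat_lit 50774016)) (I.mix (nat_lit 33161216) (nat_lit 50167808)))
  false (nat_lit 33138393)
def b3_2 : Bx := Bx.mk (St.mk (I.mix (nat_lit 17301504) (nat_lit 127860736)) (I.mix (nat_lit 25509888) (nat_lit 4997120)) (I.mix (nat_lit 17350656) (nat_lit 6553600)) (I.mix (nat_lit 7143424) (nat_lit 72531968)) (I.mix (nat_lit 28491776) (nat_lit 22216704)) (I.mix (nat_lit 15663104) (nat_lit 20725760)) (I.mix (nat_lit 9748480) (nat_lit 14401536)))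
  false (nat_lit 0)
def b3_3 : Bx := Bx.mk (St.mk (I.pos (nat_lit 170475520) (nat_lit 214761472)) (I.mix (nat_lit 15335424) (nat_lit 43220992)) (I.pos (nat_lit 835584) (nat_lit 82280448)) (I.pos (nat_lit 111132672) (nat_lit 187039744)) (I.mix (nat_lit 119554048) (nat_lit 45334528)) (I.mix (nat_lit 94126080) (nat_lit 48250880)) (I.mix (nat_lit 111951872) (nat_lit 43270144)))
  false (nat_lit 4229989)
def b3_4 : Bx := Bx.mk (St.mk (I.mix (nat_lit 23740416) (nat_lit 144310272)) (I.mix (nat_lit 15400960) (nat_lit 30851072)) (I.mix (nat_lit 10403840) (nat_lit 30539776)) (I.mix (nat_lit 8486912) (nat_lit 87244800)) (I.mix (nat_lit 50364416) (nat_lit 25968640)) (I.mix (nat_lit 39616512) (nat_lit 20054016)) (I.mix (nat_lit 29081600) (nat_lit 14106624)))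
  false (nat_lit 0)
def b3_5 : Bx := Bx.mk (St.mk (I.pos (nat_lit 175341568) (nat_lit 218939392)) (I.mix (nat_lit 28917760) (nat_lit 14942208)) (I.mix (nat_lit 18825216) (nat_lit 40681472)) (I.pos (nat_lit 120143872) (nat_lit 186859520)) (I.mix (nat_lit 55459840) (nat_lit 57704448)) (I.mix (nat_lit 52330496) (nat_lit 49758208)) (I.mix (nat_lit 52903936) (nat_lit 52461568)))
  false (nat_lit 51315510)
def b3_6 : Bx := Bx.mk (St.mk (I.pos (nat_lit 158154752) (nat_lit 200245248)) (I.neg (nat_lit 1310720) (nat_lit 37945344)) (I.mix (nat_lit 33767424) (nat_lit 15204352)) (I.pos (nat_lit 99516416) (nat_lit 163184640)) (I.mix (nat_lit 30720000) (nat_lit 27115520)) (I.mix (nat_lit 19595264) (nat_lit 18382848)) (I.mix (nat_lit 19955712) (nat_lit 19316736)))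
  false (nat_lit 0)
def b3_7 : Bx := Bx.mk (St.mk (I.pos (nat_lit 172228608) (nat_lit 217661440)) (I.mix (nat_lit 18595840) (nat_lit 26673152)) (I.mix (nat_lit 2850816) (nat_lit 58245120)) (I.pos (nat_lit 113852416) (nat_lit 185548800)) (I.mix (nat_lit 98222080) (nat_lit 57540608)) (I.mix (nat_lit 95027200) (nat_lit 49512448)) (I.mix (nat_lit 109379584) (nat_lit 51707904)))
  false (nat_lit 24584228)
def b3_8 : Bx := Bx.mk (St.mk (I.pos (nat_lit 151601152) (nat_lit 200916992)) (I.mix (nat_lit 36945920) (nat_lit 5701632)) (I.mix (nat_lit 33112064) (nat_lit 26099712)) (I.pos (nat_lit 94224384) (nat_lit 159563776)) (I.mix (nat_lit 46907392) (nat_lit 27394048)) (I.mix (nat_lit 29261824) (nat_lit 22134784)) (I.mix (nat_lit 34832384) (nat_lit 21856256)))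
  false (nat_lit 7463769)
def b3_9 : Bx := Bx.mk (St.mk (I.pos (nat_lit 156254208) (nat_lit 201998336)) (I.mix (nat_lit 33751040) (nat_lit 7716864)) (I.mix (nat_lit 28852224) (nat_lit 29278208)) (I.pos (nat_lit 97517568) (nat_lit 164724736)) (I.mix (nat_lit 35110912) (nat_lit 22052864)) (I.mix (nat_lit 22724608) (nat_lit 20332544)) (I.mix (nat_lit 26492928) (nat_lit 18874368)))
  false (nat_lit 0)
def b3_10 : Bx := Bx.mk (St.mk (I.pos (nat_lit 175374336) (nat_lit 212680704)) (I.mix (nat_lit 29114368) (nat_lit 8470528)) (I.mix (nat_lit 18890752) (nat_lit 30523392)) (I.pos (nat_lit 118013952) (nat_lit 177602560)) (I.mix (nat_lit 54132736) (nat_lit 49938432)) (I.mix (nat_lit 48332800) (nat_lit 43204608)) (I.mix (nat_lit 49889280) (nat_lit 45481984)))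
  false (nat_lit 38302366)
def b3_11 : Bx := Bx.mk (St.mk (I.pos (nat_lit 156106752) (nat_lit 195280896)) (I.neg (nat_lit 3194880) (nat_lit 39927808)) (I.mix (nat_lit 36257792) (nat_lit 9011200)) (I.pos (nat_lit 98713600) (nat_lit 157351936)) (I.mix (nat_lit 36028416) (nat_lit 19726336)) (I.mix (nat_lit 16941056) (nat_lit 17235968)) (I.mix (nat_lit 17891328) (nat_lit 17137664)))
  false (nat_lit 0)
def b3_12 : Bx := Bx.mk (St.mk (I.pos (nat_lit 78184448) (nat_lit 144392192)) (I.mix (nat_lit 6651904) (nat_lit 22691840)) (I.mix (nat_lit 6766592) (nat_lit 24313856)) (I.pos (nat_lit 25231360) (nat_lit 93831168)) (I.mix (nat_lit 33095680) (nat_lit 26574848)) (I.mix (nat_lit 26443776) (nat_lit 18612224)) (I.mix (nat_lit 22740992) (nat_lit 14647296)))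
  false (nat_lit 0)
def b3_13 : Bx := Bx.mk (St.mk (I.pos (nat_lit 112492544) (nat_lit 162955264)) (I.mix (nat_lit 50692096) (nat_lit 10174464)) (I.mix (nat_lit 51757056) (nat_lit 13484032)) (I.pos (nat_lit 48578560) (nat_lit 116916224)) (I.mix (nat_lit 79495168) (nat_lit 38567936)) (I.mix (nat_lit 31768576) (nat_lit 64258048)) (I.mix (nat_lit 27377664) (nat_lit 56475648)))
  false (nat_lit 3845210)
def b3_14 : Bx := Bx.mk (St.mk (I.pos (nat_lit 60948480) (nat_lit 107937792)) (I.mix (nat_lit 23855104) (nat_lit 1507328)) (I.mix (nat_lit 16449536) (nat_lit 2080768)) (I.pos (nat_lit 11272192) (nat_lit 61358080)) (I.mix (nat_lit 30801920) (nat_lit 15695872)) (I.mix (nat_lit 11730944) (nat_lit 23642112)) (I.mix (nat_lit 6750208) (nat_lit 14368768)))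
  false (nat_lit 0)
def b3_15 : Bx := Bx.mk (St.mk (I.pos (nat_lit 189136896) (nat_lit 248283136)) (I.mix (nat_lit 1392640) (nat_lit 29294592)) (I.pos (nat_lit 4456448) (nat_lit 64176128)) (I.pos (nat_lit 158072832) (nat_lit 236584960)) (I.mix (nat_lit 78462976) (nat_lit 42434560)) (I.mix (nat_lit 52199424) (nat_lit 30130176)) (I.mix (nat_lit 78594048) (nat_lit 46481408)))
  false (nat_lit 21284005)
def b3_16 : Bx := Bx.mk (St.mk (I.pos (nat_lit 219529216) (nat_lit 275152896)) (I.mix (nat_lit 17317888) (nat_lit 25657344)) (I.mix (nat_lit 33161216) (nat_lit 58130432)) (I.pos (nat_lit 193609728) (nat_lit 299548672)) (I.mix (nat_lit 40927232) (nat_lit 16941056)) (I.mix (nat_lit 21102592) (nat_lit 24051712)) (I.mix (nat_lit 34111488) (nat_lit 40763392)))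
  false (nat_lit 0)
def b3_17 : Bx := Bx.mk (St.mk (I.pos (nat_lit 185139200) (nat_lit 238878720)) (I.pos (nat_lit 4243456) (nat_lit 44351488)) (I.pos (nat_lit 16285696) (nat_lit 87785472)) (I.pos (nat_lit 153026560) (nat_lit 215728128)) (I.mix (nat_lit 86360064) (nat_lit 63062016)) (I.mix (nat_lit 69189632) (nat_lit 49594368)) (I.mix (nat_lit 102481920) (nat_lit 62439424)))
  false (nat_lit 35196736)
def b3_18 : Bx := Bx.mk (St.mk (I.pos (nat_lit 214106112) (nat_lit 287031296)) (I.mix (nat_lit 17039360) (nat_lit 36995072)) (I.mix (nat_lit 34177024) (nat_lit 78675968)) (I.pos (nat_lit 184467456) (nat_lit 324665344)) (I.mix (nat_lit 52232192) (nat_lit 52559872)) (I.mix (nat_lit 49332224) (nat_lit 32784384)) (I.mix (nat_lit 84967424) (nat_lit 53002240)))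
  false (nat_lit 45660739)
def b3_19 : Bx := Bx.mk (St.mk (I.pos (nat_lit 216088576) (nat_lit 247676928)) (I.pos (nat_lit 10305536) (nat_lit 32980992)) (I.pos (nat_lit 24002560) (nat_lit 70762496)) (I.pos (nat_lit 189661184) (nat_lit 239190016)) (I.mix (nat_lit 47726592) (nat_lit 22036480)) (I.mix (nat_lit 27443200) (nat_lit 19660800)) (I.mix (nat_lit 42713088) (nat_lit 30375936)))
  false (nat_lit 0)
def b3_20 : Bx := Bx.mk (St.mk (I.pos (nat_lit 205209600) (nat_lit 247660544)) (I.mix (nat_lit 966656) (nat_lit 28459008)) (I.pos (nat_lit 5275648) (nat_lit 62521344)) (I.pos (nat_lit 174555136) (nat_lit 237469696)) (I.mix (nat_lit 65585152) (nat_lit 45023232)) (I.mix (nat_lit 45678592) (nat_lit 32604160)) (I.mix (nat_lit 71303168) (nat_lit 53411840)))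
  false (nat_lit 13092311)
def b3_21 : Bx := Bx.mk (St.mk (I.pos (nat_lit 249675776) (nat_lit 272089088)) (I.mix (nat_lit 15106048) (nat_lit 5079040)) (I.mix (nat_lit 29327360) (nat_lit 19873792)) (I.pos (nat_lit 239960064) (nat_lit 294436864)) (I.mix (nat_lit 34373632) (nat_lit 18825216)) (I.mix (nat_lit 19824640) (nat_lit 19333120)) (I.mix (nat_lit 33570816) (nat_lit 32423936)))
  false (nat_lit 0)
def t3 : BTr := (BTr.n (BTr.n (BTr.n (BTr.n (BTr.b b3_0) (BTr.b b3_1)) (BTr.n (BTr.b b3_2) (BTr.n (BTr.b b3_3) (BTr.b b3_4)))) (BTr.n (BTr.n (BTr.b b3_5) (BTr.n (BTr.b b3_6) (BTr.b b3_7))) (BTr.n (BTr.b b3_8) (BTr.n (BTr.b b3_9) (BTr.b b3_10))))) (BTr.n (BTr.n (BTr.n (BTr.b b3_11) (BTr.b b3_12)) (BTr.n (BTr.b b3_13) (BTr.n (BTr.b b3_14) (BTr.b b3_15)))) (BTr.n (BTr.n (BTr.b b3_16) (BTr.n (BTr.b b3_17) (BTr.b b3_18))) (BTr.n (BTr.b b3_19) (BTr.n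 (BTr.b b3_20) (BTr.b b3_21))))))
namespace T3
def l0 : Tr := Tr.L (Pth.l (Pth.l (Pth.l (Pth.l Pth.z))))
def l1 : Tr := Tr.L (Pth.l (Pth.l (Pth.l (Pth.r Pth.z))))
def l2 : Tr := Tr.L (Pth.l (Pth.l (Pth.r (Pth.l Pth.z))))
def l3 : Tr := Tr.L (Pth.l (Pth.l (Pth.r (Pth.r (Pth.l Pth.z)))))
def l4 : Tr := Tr.L (Pth.l (Pth.l (Pth.r (Pth.r (Pth.r Pth.z)))))
def l5 : Tr := Tr.L (Pth.l (Pth.r (Pth.l (Pth.l Pth.z))))
def l6 : Tr := Tr.L (Pth.l (Pth.r (Pth.l (Pth.r (Pth.l Pth.z)))))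
def l7 : Tr := Tr.L (Pth.l (Pth.r (Pth.l (Pth.r (Pth.r Pth.z)))))
def l8 : Tr := Tr.L (Pth.l (Pth.r (Pth.r (Pth.l Pth.z))))
def l9 : Tr := Tr.L (Pth.l (Pth.r (Pth.r (Pth.r (Pth.l Pth.z)))))
def l10 : Tr := Tr.L (Pth.l (Pth.r (Pth.r (Pth.r (Pth.r Pth.z)))))
def l11 : Tr := Tr.L (Pth.r (Pth.l (Pth.l (Pth.l Pth.z))))
def l12 : Tr := Tr.L (Pth.r (Pth.l (Pth.l (Pth.r Pth.z))))
def l13 : Tr := Tr.L (Pth.r (Pth.l (Pth.r (Pth.l Pth.z))))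
def l14 : Tr := Tr.L (Pth.r (Pth.l (Pth.r (Pth.r (Pth.l Pth.z)))))
def l15 : Tr := Tr.L (Pth.r (Pth.l (Pth.r (Pth.r (Pth.r Pth.z)))))
def l16 : Tr := Tr.L (Pth.r (Pth.r (Pth.l (Pth.l Pth.z))))
def l17 : Tr := Tr.L (Pth.r (Pth.r (Pth.l (Pth.r (Pth.l Pth.z)))))
def l18 : Tr := Tr.L (Pth.r (Pth.r (Pth.l (Pth.r (Pth.r Pth.z)))))
def l19 : Tr := Tr.L (Pth.r (Pth.r (Pth.r (Pth.l Pth.z))))
def l20 : Tr := Tr.L (Pth.r (Pth.r (Pth.r (Pth.r (Pth.l Pth.z)))))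
def l21 : Tr := Tr.L (Pth.r (Pth.r (Pth.r (Pth.r (Pth.r Pth.z)))))
end T3
def b4_0 : Bx := Bx.mk (St.mk (I.pos (nat_lit 152403968) (nat_lit 238649344)) (I.mix (nat_lit 5259264) (nat_lit 55083008)) (I.mix (nat_lit 9109504) (nat_lit 97517568)) (I.pos (nat_lit 130400256) (nat_lit 268468224)) (I.mix (nat_lit 105922560) (nat_lit 60555264)) (I.mix (nat_lit 66584576) (nat_lit 62177280)) (I.mix (nat_lit 85803008) (nat_lit 80068608)))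
  false (nat_lit 57913294)
def b4_1 : Bx := Bx.mk (St.mk (I.pos (nat_lit 89833472) (nat_lit 182435840)) (I.neg (nat_lit 1769472) (nat_lit 59392000)) (I.mix (nat_lit 55934976) (nat_lit 9011200)) (I.pos (nat_lit 88244224) (nat_lit 185008128)) (I.mix (nat_lit 80396288) (nat_lit 47644672)) (I.mix (nat_lit 37306368) (nat_lit 53395456)) (I.mix (nat_lit 30507008) (nat_lit 47136768)))
  false (nat_lit 27412265)
def b4_2 : Bx := Bx.mk (St.mk (I.mix (nat_lit 30244864) (nat_lit 92897280)) (I.mix (nat_lit 32653312) (nat_lit 5521408)) (I.mix (nat_lit 18464768) (nat_lit 7700480)) (I.pos (nat_lit 38453248) (nat_lit 93421568)) (I.mix (nat_lit 32620544) (nat_lit 27410432)) (I.mix (nat_lit 18694144) (nat_lit 24117248)) (I.mix (nat_lit 9551872) (nat_lit 12615680)))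
  false (nat_lit 0)
def b4_3 : Bx := Bx.mk (St.mk (I.pos (nat_lit 161857536) (nat_lit 211845120)) (I.mix (nat_lit 12156928) (nat_lit 54837248)) (I.pos (nat_lit 3063808) (nat_lit 92962816)) (I.pos (nat_lit 146374656) (nat_lit 229359616)) (I.mix (nat_lit 130121728) (nat_lit 43270144)) (I.mix (nat_lit 97746944) (nat_lit 56524800)) (I.mix (nat_lit 103890944) (nat_lit 48709632)))
  false (nat_lit 29005106)
def b4_4 : Bx := Bx.mk (St.mk (I.mix (nat_lit 47054848) (nat_lit 117227520)) (I.mix (nat_lit 15187968) (nat_lit 37470208)) (I.mix (nat_lit 9568256) (nat_lit 29278208)) (I.pos (nat_lit 36487168) (nat_lit 110804992)) (I.mix (nat_lit 51462144) (nat_lit 26116096)) (I.mix (nat_lit 39190528) (nat_lit 21774336)) (I.mix (nat_lit 21430272) (nat_lit 12894208)))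
  false (nat_lit 0)
def b4_5 : Bx := Bx.mk (St.mk (I.mix (nat_lit 29786112) (nat_lit 129138688)) (I.mix (nat_lit 7159808) (nat_lit 31031296)) (I.mix (nat_lit 11288576) (nat_lit 22921216)) (I.pos (nat_lit 36405248) (nat_lit 119586816)) (I.mix (nat_lit 36356096) (nat_lit 31227904)) (I.mix (nat_lit 28819456) (nat_lit 22069248)) (I.mix (nat_lit 19857408) (nat_lit 14237696)))
  false (nat_lit 0)
def b4_6 : Bx := Bx.mk (St.mk (I.pos (nat_lit 88473600) (nat_lit 145637376)) (I.mix (nat_lit 59359232) (nat_lit 10240000)) (I.mix (nat_lit 56934400) (nat_lit 7733248)) (I.pos (nat_lit 74170368) (nat_lit 143884288)) (I.mix (nat_lit 86671360) (nat_lit 36257792)) (I.mix (nat_lit 33570816) (nat_lit 66355200)) (I.mix (nat_lit 24920064) (nat_lit 48988160)))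
  false (nat_lit 0)
def b4_7 : Bx := Bx.mk (St.mk (I.mix (nat_lit 37519360) (nat_lit 71974912)) (I.mix (nat_lit 26017792) (nat_lit 245760)) (I.mix (nat_lit 14761984) (nat_lit 6144000)) (I.pos (nat_lit 39780352) (nat_lit 82477056)) (I.mix (nat_lit 33865728) (nat_lit 17711104)) (I.mix (nat_lit 13762560) (nat_lit 24870912)) (I.mix (nat_lit 6799360) (nat_lit 9568256)))
  false (nat_lit 0)
def b4_8 : Bx := Bx.mk (St.mk (I.pos (nat_lit 144654336) (nat_lit 196952064)) (I.mix (nat_lit 36683776) (nat_lit 14204928)) (I.mix (nat_lit 31293440) (nat_lit 38928384)) (I.pos (nat_lit 127565824) (nat_lit 203571200)) (I.mix (nat_lit 37306368) (nat_lit 24559616)) (I.mix (nat_lit 24477696) (nat_lit 20807680)) (I.mix (nat_lit 25952256) (nat_lit 18825216)))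
  false (nat_lit 0)
def b4_9 : Bx := Bx.mk (St.mk (I.pos (nat_lit 166625280) (nat_lit 205012992)) (I.mix (nat_lit 24608768) (nat_lit 13008896)) (I.mix (nat_lit 12894208) (nat_lit 35930112)) (I.pos (nat_lit 151781376) (nat_lit 211877888)) (I.mix (nat_lit 58720256) (nat_lit 49037312)) (I.mix (nat_lit 47644672) (nat_lit 44400640)) (I.mix (nat_lit 46120960) (nat_lit 43597824)))
  false (nat_lit 855363)
def b4_10 : Bx := Bx.mk (St.mk (I.pos (nat_lit 146472960) (nat_lit 191856640)) (I.mix (nat_lit 38862848) (nat_lit 638976)) (I.mix (nat_lit 34750464) (nat_lit 20135936)) (I.pos (nat_lit 129155072) (nat_lit 196755456)) (I.mix (nat_lit 32423936) (nat_lit 24231936)) (I.mix (nat_lit 18317312) (nat_lit 16089088)) (I.mix (nat_lit 17711104) (nat_lit 15515648)))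
  false (nat_lit 0)
def b4_11 : Bx := Bx.mk (St.mk (I.pos (nat_lit 169869312) (nat_lit 212058112)) (I.mix (nat_lit 25673728) (nat_lit 20316160)) (I.mix (nat_lit 14761984) (nat_lit 46399488)) (I.pos (nat_lit 154091520) (nat_lit 222855168)) (I.mix (nat_lit 59080704) (nat_lit 56459264)) (I.mix (nat_lit 51642368) (nat_lit 49201152)) (I.mix (nat_lit 49004544) (nat_lit 48316416)))
  false (nat_lit 43326378)
def b4_12 : Bx := Bx.mk (St.mk (I.pos (nat_lit 147783680) (nat_lit 192741376)) (I.mix (nat_lit 38600704) (nat_lit 655360)) (I.mix (nat_lit 34275328) (nat_lit 20561920)) (I.pos (nat_lit 130580480) (nat_lit 196689920)) (I.mix (nat_lit 31244288) (nat_lit 26755072)) (I.mix (nat_lit 18071552) (nat_lit 16990208)) (I.mix (nat_lit 17235968) (nat_lit 16793600)))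
  false (nat_lit 0)
def b4_13 : Bx := Bx.mk (St.mk (I.pos (nat_lit 205602816) (nat_lit 284016640)) (I.mix (nat_lit 9437184) (nat_lit 41828352)) (I.mix (nat_lit 34373632) (nat_lit 76972032)) (I.pos (nat_lit 218218496) (nat_lit 360038400)) (I.mix (nat_lit 50905088) (nat_lit 37011456)) (I.mix (nat_lit 27328512) (nat_lit 22626304)) (I.mix (nat_lit 41435136) (nat_lit 34652160)))
  false (nat_lit 47208565)
def b4_14 : Bx := Bx.mk (St.mk (I.pos (nat_lit 197836800) (nat_lit 244350976)) (I.pos (nat_lit 3227648) (nat_lit 34897920)) (I.pos (nat_lit 5390336) (nat_lit 64094208)) (I.pos (nat_lit 210026496) (nat_lit 278020096)) (I.mix (nat_lit 69156864) (nat_lit 51920896)) (I.mix (nat_lit 47169536) (nat_lit 37388288)) (I.mix (nat_lit 71254016) (nat_lit 60915712)))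
  false (nat_lit 24884639)
def b4_15 : Bx := Bx.mk (St.mk (I.pos (nat_lit 252723200) (nat_lit 274497536)) (I.mix (nat_lit 17268736) (nat_lit 9142272)) (I.mix (nat_lit 47562752) (nat_lit 14532608)) (I.pos (nat_lit 286867456) (nat_lit 343605248)) (I.mix (nat_lit 35028992) (nat_lit 25821184)) (I.mix (nat_lit 21807104) (nat_lit 23232512)) (I.mix (nat_lit 36945920) (nat_lit 40976384)))
  false (nat_lit 180633)
def b4_16 : Bx := Bx.mk (St.mk (I.pos (nat_lit 195805184) (nat_lit 244383744)) (I.pos (nat_lit 1933312) (nat_lit 33800192)) (I.pos (nat_lit 2834432) (nat_lit 62816256)) (I.pos (nat_lit 207601664) (nat_lit 276824064)) (I.mix (nat_lit 70713344) (nat_lit 46694400)) (I.mix (nat_lit 48545792) (nat_lit 31440896)) (I.mix (nat_lit 73187328) (nat_lit 49807360)))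
  false (nat_lit 18762033)
def b4_17 : Bx := Bx.mk (St.mk (I.pos (nat_lit 216449024) (nat_lit 252870656)) (I.pos (nat_lit 5554176) (nat_lit 29376512)) (I.pos (nat_lit 4358144) (nat_lit 53231616)) (I.pos (nat_lit 234422272) (nat_lit 295796736)) (I.mix (nat_lit 37912576) (nat_lit 14221312)) (I.mix (nat_lit 18382848) (nat_lit 10485760)) (I.mix (nat_lit 26886144) (nat_lit 16416768)))
  false (nat_lit 0)
def b4_18 : Bx := Bx.mk (St.mk (I.pos (nat_lit 177848320) (nat_lit 232275968)) (I.pos (nat_lit 14614528) (nat_lit 51347456)) (I.pos (nat_lit 27901952) (nat_lit 90783744)) (I.pos (nat_lit 187908096) (nat_lit 255016960)) (I.mix (nat_lit 94584832) (nat_lit 65060864)) (I.mix (nat_lit 69533696) (nat_lit 51200000)) (I.mix (nat_lit 99385344) (nat_lit 58687488)))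
  false (nat_lit 36865761)
def b4_19 : Bx := Bx.mk (St.mk (I.pos (nat_lit 206995456) (nat_lit 287735808)) (I.mix (nat_lit 15515648) (nat_lit 43892736)) (I.mix (nat_lit 45301760) (nat_lit 80216064)) (I.pos (nat_lit 220217344) (nat_lit 368377856)) (I.mix (nat_lit 55705600) (nat_lit 55099392)) (I.mix (nat_lit 48496640) (nat_lit 32833536)) (I.mix (nat_lit 83771392) (nat_lit 50692096)))
  false (nat_lit 57657848)
def b4_20 : Bx := Bx.mk (St.mk (I.pos (nat_lit 163004416) (nat_lit 210370560)) (I.mix (nat_lit 14073856) (nat_lit 31735808)) (I.pos (nat_lit 524288) (nat_lit 63881216)) (I.pos (nat_lit 148144128) (nat_lit 223215616)) (I.mix (nat_lit 93798400) (nat_lit 55296000)) (I.mix (nat_lit 90243072) (nat_lit 51707904)) (I.mix (nat_lit 94732288) (nat_lit 52068352)))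
  false (nat_lit 27159219)
def b4_21 : Bx := Bx.mk (St.mk (I.pos (nat_lit 143458304) (nat_lit 194002944)) (I.mix (nat_lit 36110336) (nat_lit 9519104)) (I.mix (nat_lit 31080448) (nat_lit 32948224)) (I.pos (nat_lit 126009344) (nat_lit 197148672)) (I.mix (nat_lit 39518208) (nat_lit 27344896)) (I.mix (nat_lit 27951104) (nat_lit 19169280)) (I.mix (nat_lit 30031872) (nat_lit 17874944)))
  false (nat_lit 0)
def t4 : BTr := (BTr.n (BTr.n (BTr.n (BTr.n (BTr.b b4_0) (BTr.b b4_1)) (BTr.n (BTr.b b4_2) (BTr.n (BTr.b b4_3) (BTr.b b4_4)))) (BTr.n (BTr.n (BTr.b b4_5) (BTr.n (BTr.b b4_6) (BTr.b b4_7))) (BTr.n (BTr.b b4_8) (BTr.n (BTr.b b4_9) (BTr.b b4_10))))) (BTr.n (BTr.n (BTr.n (BTr.b b4_11) (BTr.b b4_12)) (BTr.n (BTr.b b4_13) (BTr.n (BTr.b b4_14) (BTr.b b4_15)))) (BTr.n (BTr.n (BTr.b b4_16) (BTr.n (BTr.b b4_17) (BTr.b b4_18))) (BTr.n (BTr.b b4_19) (BTr.n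 (BTr.b b4_20) (BTr.b b4_21))))))
namespace T4
def l0 : Tr := Tr.L (Pth.l (Pth.l (Pth.l (Pth.l Pth.z))))
def l1 : Tr := Tr.L (Pth.l (Pth.l (Pth.l (Pth.r Pth.z))))
def l2 : Tr := Tr.L (Pth.l (Pth.l (Pth.r (Pth.l Pth.z))))
def l3 : Tr := Tr.L (Pth.l (Pth.l (Pth.r (Pth.r (Pth.l Pth.z)))))
def l4 : Tr := Tr.L (Pth.l (Pth.l (Pth.r (Pth.r (Pth.r Pth.z)))))
def l5 : Tr := Tr.L (Pth.l (Pth.r (Pth.l (Pth.l Pth.z))))
def l6 : Tr := Tr.L (Pth.l (Pth.r (Pth.l (Pth.r (Pth.l Pth.z)))))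
def l7 : Tr := Tr.L (Pth.l (Pth.r (Pth.l (Pth.r (Pth.r Pth.z)))))
def l8 : Tr := Tr.L (Pth.l (Pth.r (Pth.r (Pth.l Pth.z))))
def l9 : Tr := Tr.L (Pth.l (Pth.r (Pth.r (Pth.r (Pth.l Pth.z)))))
def l10 : Tr := Tr.L (Pth.l (Pth.r (Pth.r (Pth.r (Pth.r Pth.z)))))
def l11 : Tr := Tr.L (Pth.r (Pth.l (Pth.l (Pth.l Pth.z))))
def l12 : Tr := Tr.L (Pth.r (Pth.l (Pth.l (Pth.r Pth.z))))
def l13 : Tr := Tr.L (Pth.r (Pth.l (Pth.r (Pth.l Pth.z))))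
def l14 : Tr := Tr.L (Pth.r (Pth.l (Pth.r (Pth.r (Pth.l Pth.z)))))
def l15 : Tr := Tr.L (Pth.r (Pth.l (Pth.r (Pth.r (Pth.r Pth.z)))))
def l16 : Tr := Tr.L (Pth.r (Pth.r (Pth.l (Pth.l Pth.z))))
def l17 : Tr := Tr.L (Pth.r (Pth.r (Pth.l (Pth.r (Pth.l Pth.z)))))
def l18 : Tr := Tr.L (Pth.r (Pth.r (Pth.l (Pth.r (Pth.r Pth.z)))))
def l19 : Tr := Tr.L (Pth.r (Pth.r (Pth.r (Pth.l Pth.z))))
def l20 : Tr := Tr.L (Pth.r (Pth.r (Pth.r (Pth.r (Pth.l Pth.z)))))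
def l21 : Tr := Tr.L (Pth.r (Pth.r (Pth.r (Pth.r (Pth.r Pth.z)))))
end T4
def b5_0 : Bx := Bx.mk (St.mk (I.pos (nat_lit 153288704) (nat_lit 240500736)) (I.mix (nat_lit 4669440) (nat_lit 48594944)) (I.mix (nat_lit 9027584) (nat_lit 96468992)) (I.pos (nat_lit 103694336) (nat_lit 240664576)) (I.mix (nat_lit 98238464) (nat_lit 58392576)) (I.mix (nat_lit 66191360) (nat_lit 62111744)) (I.mix (nat_lit 86638592) (nat_lit 78757888)))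
  false (nat_lit 57094171)
def b5_1 : Bx := Bx.mk (St.mk (I.pos (nat_lit 101269504) (nat_lit 191971328)) (I.mix (nat_lit 57311232) (nat_lit 458752)) (I.mix (nat_lit 52903936) (nat_lit 14352384)) (I.pos (nat_lit 74121216) (nat_lit 169394176)) (I.mix (nat_lit 81182720) (nat_lit 45105152)) (I.mix (nat_lit 40878080) (nat_lit 50348032)) (I.mix (nat_lit 33243136) (nat_lit 47349760)))
  false (nat_lit 28455401)
def b5_2 : Bx := Bx.mk (St.mk (I.mix (nat_lit 23183360) (nat_lit 114393088)) (I.mix (nat_lit 28540928) (nat_lit 5423104)) (I.mix (nat_lit 16891904) (nat_lit 9322496)) (I.pos (nat_lit 11993088) (nat_lit 80658432)) (I.mix (nat_lit 29310976) (nat_lit 23887872)) (I.mix (nat_lit 16236544) (nat_lit 20545536)) (I.mix (nat_lit 9306112) (nat_lit 12550144)))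
  false (nat_lit 0)
def b5_3 : Bx := Bx.mk (St.mk (I.pos (nat_lit 167493632) (nat_lit 212615168)) (I.mix (nat_lit 13893632) (nat_lit 46989312)) (I.pos (nat_lit 4816896) (nat_lit 88719360)) (I.pos (nat_lit 125239296) (nat_lit 202539008)) (I.mix (nat_lit 125468672) (nat_lit 42958848)) (I.mix (nat_lit 95518720) (nat_lit 51625984)) (I.mix (nat_lit 110264320) (nat_lit 44400640)))
  false (nat_lit 24458724)
def b5_4 : Bx := Bx.mk (St.mk (I.mix (nat_lit 34127872) (nat_lit 132333568)) (I.mix (nat_lit 15974400) (nat_lit 33243136)) (I.mix (nat_lit 8962048) (nat_lit 31539200)) (I.pos (nat_lit 10797056) (nat_lit 95387648)) (I.mix (nat_lit 51904512) (nat_lit 25968640)) (I.mix (nat_lit 40222720) (nat_lit 20381696)) (I.mix (nat_lit 25837568) (nat_lit 12468224)))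
  false (nat_lit 0)
def b5_5 : Bx := Bx.mk (St.mk (I.pos (nat_lit 151011328) (nat_lit 199098368)) (I.mix (nat_lit 35209216) (nat_lit 9371648)) (I.mix (nat_lit 27312128) (nat_lit 35340288)) (I.pos (nat_lit 109641728) (nat_lit 179208192)) (I.mix (nat_lit 37552128) (nat_lit 24297472)) (I.mix (nat_lit 23871488) (nat_lit 21168128)) (I.mix (nat_lit 27688960) (nat_lit 19857408)))
  false (nat_lit 0)
def b5_6 : Bx := Bx.mk (St.mk (I.pos (nat_lit 171212800) (nat_lit 209420288)) (I.mix (nat_lit 28246016) (nat_lit 9535488)) (I.mix (nat_lit 14417920) (nat_lit 35061760)) (I.pos (nat_lit 130088960) (nat_lit 190955520)) (I.mix (nat_lit 56754176) (nat_lit 51429376)) (I.mix (nat_lit 48513024) (nat_lit 44679168)) (I.mix (nat_lit 48447488) (nat_lit 45449216)))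
  false (nat_lit 25432750)
def b5_7 : Bx := Bx.mk (St.mk (I.pos (nat_lit 153829376) (nat_lit 192806912)) (I.neg (nat_lit 3932160) (nat_lit 38191104)) (I.mix (nat_lit 30851072) (nat_lit 15220736)) (I.pos (nat_lit 112902144) (nat_lit 172081152)) (I.mix (nat_lit 25886720) (nat_lit 19365888)) (I.mix (nat_lit 13828096) (nat_lit 11321344)) (I.mix (nat_lit 13271040) (nat_lit 10698752)))
  false (nat_lit 0)
def b5_8 : Bx := Bx.mk (St.mk (I.pos (nat_lit 172195840) (nat_lit 215318528)) (I.mix (nat_lit 27557888) (nat_lit 15548416)) (I.mix (nat_lit 13828096) (nat_lit 44613632)) (I.pos (nat_lit 133038080) (nat_lit 200081408)) (I.mix (nat_lit 56459264) (nat_lit 56557568)) (I.mix (nat_lit 51773440) (nat_lit 47841280)) (I.mix (nat_lit 50872320) (nat_lit 48611328)))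
  false (nat_lit 25077693)
def b5_9 : Bx := Bx.mk (St.mk (I.pos (nat_lit 153976832) (nat_lit 196624384)) (I.neg (nat_lit 1277952) (nat_lit 38502400)) (I.mix (nat_lit 31014912) (nat_lit 19431424)) (I.pos (nat_lit 112541696) (nat_lit 176439296)) (I.mix (nat_lit 29671424) (nat_lit 28966912)) (I.mix (nat_lit 20250624) (nat_lit 18513920)) (I.mix (nat_lit 19775488) (nat_lit 18939904)))
  false (nat_lit 0)
def b5_10 : Bx := Bx.mk (St.mk (I.pos (nat_lit 167460864) (nat_lit 213811200)) (I.mix (nat_lit 16596992) (nat_lit 28147712)) (I.pos (nat_lit 1409024) (nat_lit 62570496)) (I.pos (nat_lit 125714432) (nat_lit 199081984)) (I.mix (nat_lit 96501760) (nat_lit 52772864)) (I.mix (nat_lit 91144192) (nat_lit 49790976)) (I.mix (nat_lit 102105088) (nat_lit 50692096)))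
  false (nat_lit 25780511)
def b5_11 : Bx := Bx.mk (St.mk (I.pos (nat_lit 147456000) (nat_lit 197558272)) (I.mix (nat_lit 37519360) (nat_lit 5128192)) (I.mix (nat_lit 30294016) (nat_lit 29638656)) (I.pos (nat_lit 107118592) (nat_lit 173342720)) (I.mix (nat_lit 44908544) (nat_lit 28622848)) (I.mix (nat_lit 27623424) (nat_lit 21364736)) (I.mix (nat_lit 30785536) (nat_lit 20004864)))
  false (nat_lit 0)
def b5_12 : Bx := Bx.mk (St.mk (I.mix (nat_lit 27967488) (nat_lit 142753792)) (I.mix (nat_lit 6455296) (nat_lit 25526272)) (I.mix (nat_lit 5947392) (nat_lit 25460736)) (I.pos (nat_lit 9486336) (nat_lit 105349120)) (I.mix (nat_lit 35078144) (nat_lit 27869184)) (I.mix (nat_lit 28098560) (nat_lit 19693568)) (I.mix (nat_lit 21889024) (nat_lit 14106624)))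
  false (nat_lit 0)
def b5_13 : Bx := Bx.mk (St.mk (I.pos (nat_lit 103055360) (nat_lit 157188096)) (I.mix (nat_lit 55246848) (nat_lit 9879552)) (I.mix (nat_lit 52363264) (nat_lit 13025280)) (I.pos (nat_lit 59293696) (nat_lit 129335296)) (I.mix (nat_lit 80576512) (nat_lit 38076416)) (I.mix (nat_lit 31932416) (nat_lit 63553536)) (I.mix (nat_lit 25001984) (nat_lit 51331072)))
  false (nat_lit 0)
def b5_14 : Bx := Bx.mk (St.mk (I.mix (nat_lit 24920064) (nat_lit 99942400)) (I.neg (nat_lit 737280) (nat_lit 26804224)) (I.mix (nat_lit 15613952) (nat_lit 4947968)) (I.pos (nat_lit 13189120) (nat_lit 71434240)) (I.mix (nat_lit 30965760) (nat_lit 15335424)) (I.mix (nat_lit 12091392) (nat_lit 23642112)) (I.mix (nat_lit 6553600) (nat_lit 11862016)))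
  false (nat_lit 0)
def b5_15 : Bx := Bx.mk (St.mk (I.pos (nat_lit 196575232) (nat_lit 245317632)) (I.pos (nat_lit 573440) (nat_lit 30081024)) (I.pos (nat_lit 8781824) (nat_lit 66453504)) (I.pos (nat_lit 181403648) (nat_lit 249839616)) (I.mix (nat_lit 70893568) (nat_lit 43679744)) (I.mix (nat_lit 48365568) (nat_lit 30588928)) (I.mix (nat_lit 74547200) (nat_lit 47333376)))
  false (nat_lit 6209734)
def b5_16 : Bx := Bx.mk (St.mk (I.pos (nat_lit 214843392) (nat_lit 276381696)) (I.mix (nat_lit 15908864) (nat_lit 27754496)) (I.mix (nat_lit 29949952) (nat_lit 62603264)) (I.pos (nat_lit 203505664) (nat_lit 318570496)) (I.mix (nat_lit 42172416) (nat_lit 20774912)) (I.mix (nat_lit 22790144) (nat_lit 22839296)) (I.mix (nat_lit 36306944) (nat_lit 38600704)))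
  false (nat_lit 8831320)
def b5_17 : Bx := Bx.mk (St.mk (I.pos (nat_lit 180781056) (nat_lit 234586112)) (I.pos (nat_lit 11796480) (nat_lit 46006272)) (I.pos (nat_lit 29835264) (nat_lit 90947584)) (I.pos (nat_lit 164364288) (nat_lit 228130816)) (I.mix (nat_lit 91127808) (nat_lit 64258048)) (I.mix (nat_lit 70303744) (nat_lit 50315264)) (I.mix (nat_lit 104415232) (nat_lit 61505536)))
  false (nat_lit 29192452)
def b5_18 : Bx := Bx.mk (St.mk (I.pos (nat_lit 208568320) (nat_lit 286621696)) (I.mix (nat_lit 14499840) (nat_lit 39895040)) (I.mix (nat_lit 28704768) (nat_lit 84328448)) (I.pos (nat_lit 194265088) (nat_lit 340295680)) (I.mix (nat_lit 55033856) (nat_lit 54853632)) (I.mix (nat_lit 49086464) (nat_lit 33390592)) (I.mix (nat_lit 83296256) (nat_lit 53985280)))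
  false (nat_lit 57592027)
def b5_19 : Bx := Bx.mk (St.mk (I.pos (nat_lit 208519168) (nat_lit 247955456)) (I.pos (nat_lit 10764288) (nat_lit 35307520)) (I.pos (nat_lit 25149440) (nat_lit 75235328)) (I.pos (nat_lit 197410816) (nat_lit 257294336)) (I.mix (nat_lit 52494336) (nat_lit 22282240)) (I.mix (nat_lit 29573120) (nat_lit 19496960)) (I.mix (nat_lit 47153152) (nat_lit 29507584)))
  false (nat_lit 0)
def b5_20 : Bx := Bx.mk (St.mk (I.pos (nat_lit 197623808) (nat_lit 245547008)) (I.pos (nat_lit 819200) (nat_lit 32342016)) (I.pos (nat_lit 9469952) (nat_lit 70680576)) (I.pos (nat_lit 183189504) (nat_lit 250839040)) (I.mix (nat_lit 70434816) (nat_lit 48365568)) (I.mix (nat_lit 47906816) (nat_lit 35274752)) (I.mix (nat_lit 73383936) (nat_lit 56508416)))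
  false (nat_lit 18488726)
def t5 : BTr := (BTr.n (BTr.n (BTr.n (BTr.n (BTr.b b5_0) (BTr.b b5_1)) (BTr.n (BTr.b b5_2) (BTr.n (BTr.b b5_3) (BTr.b b5_4)))) (BTr.n (BTr.n (BTr.b b5_5) (BTr.b b5_6)) (BTr.n (BTr.b b5_7) (BTr.n (BTr.b b5_8) (BTr.b b5_9))))) (BTr.n (BTr.n (BTr.n (BTr.b b5_10) (BTr.b b5_11)) (BTr.n (BTr.b b5_12) (BTr.n (BTr.b b5_13) (BTr.b b5_14)))) (BTr.n (BTr.n (BTr.b b5_15) (BTr.n (BTr.b b5_16) (BTr.b b5_17))) (BTr.n (BTr.b b5_18) (BTr.n (BTr.b b5_19) (BTr.b b5_20))))))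
namespace T5
def l0 : Tr := Tr.L (Pth.l (Pth.l (Pth.l (Pth.l Pth.z))))
def l1 : Tr := Tr.L (Pth.l (Pth.l (Pth.l (Pth.r Pth.z))))
def l2 : Tr := Tr.L (Pth.l (Pth.l (Pth.r (Pth.l Pth.z))))
def l3 : Tr := Tr.L (Pth.l (Pth.l (Pth.r (Pth.r (Pth.l Pth.z)))))
def l4 : Tr := Tr.L (Pth.l (Pth.l (Pth.r (Pth.r (Pth.r Pth.z)))))
def l5 : Tr := Tr.L (Pth.l (Pth.r (Pth.l (Pth.l Pth.z))))
def l6 : Tr := Tr.L (Pth.l (Pth.r (Pth.l (Pth.r Pth.z))))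
def l7 : Tr := Tr.L (Pth.l (Pth.r (Pth.r (Pth.l Pth.z))))
def l8 : Tr := Tr.L (Pth.l (Pth.r (Pth.r (Pth.r (Pth.l Pth.z)))))
def l9 : Tr := Tr.L (Pth.l (Pth.r (Pth.r (Pth.r (Pth.r Pth.z)))))
def l10 : Tr := Tr.L (Pth.r (Pth.l (Pth.l (Pth.l Pth.z))))
def l11 : Tr := Tr.L (Pth.r (Pth.l (Pth.l (Pth.r Pth.z))))
def l12 : Tr := Tr.L (Pth.r (Pth.l (Pth.r (Pth.l Pth.z))))
def l13 : Tr := Tr.L (Pth.r (Pth.l (Pth.r (Pth.r (Pth.l Pth.z)))))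
def l14 : Tr := Tr.L (Pth.r (Pth.l (Pth.r (Pth.r (Pth.r Pth.z)))))
def l15 : Tr := Tr.L (Pth.r (Pth.r (Pth.l (Pth.l Pth.z))))
def l16 : Tr := Tr.L (Pth.r (Pth.r (Pth.l (Pth.r (Pth.l Pth.z)))))
def l17 : Tr := Tr.L (Pth.r (Pth.r (Pth.l (Pth.r (Pth.r Pth.z)))))
def l18 : Tr := Tr.L (Pth.r (Pth.r (Pth.r (Pth.l Pth.z))))
def l19 : Tr := Tr.L (Pth.r (Pth.r (Pth.r (Pth.r (Pth.l Pth.z)))))
def l20 : Tr := Tr.L (Pth.r (Pth.r (Pth.r (Pth.r (Pth.r Pth.z)))))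
end T5
theorem bx0_0 : BoxOK sI cl7 cl9 cl13 t2 t4 b0_0 :=
  box_mk (TrL.c (I.pos (nat_lit 0) (nat_lit 0)) (xa (xb (xa (xb T2.l0 (xa T2.l0 T2.l0)) (xb T2.l0 T2.l0)) (xa (xb (xa T2.l0 T2.l0) (xa (xs T2.l0 T2.l0) (xs T2.l0 T2.l0))) (xb (xa T2.l0 T2.l0) (xa T2.l0 T2.l0)))) (xb (xa (xb T2.l0 T2.l0) (xb T2.l0 T2.l0)) (xa (xb T2.l0 (xa T2.l0 T2.l0)) (xb (xa T2.l0 T2.l0) (xa (xs T2.l0 T2.l0) (xs T2.l0 T2.l0))))))
  (TrL.c (I.pos (nat_lit 0) (nat_lit 0)) (xa (xk (xb T4.l1 T4.l1) T4.l1) (xk (xb T4.l1 T4.l1) T4.l1))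
  (TrL.c (I.pos (nat_lit 0) (nat_lit 111196574)) (xR T2.l1 (xR T2.l1 (xR T2.l1 T2.l1)))
  (TrL.c (I.pos (nat_lit 0) (nat_lit 77433728)) (xR T4.l2 (xR T4.l2 (xR T4.l2 T4.l2)))
  (TrL.c (I.pos (nat_lit 0) (nat_lit 0)) (xa (xb (xk T4.l20 T4.l20) (xk (xa T4.l3 T4.l3) T4.l3)) (xb (xk (xa T4.l3 (xb T4.l3 T4.l3)) (xa T4.l3 (xb T4.l3 T4.l3))) (xk (xa T4.l3 (xb (xk T4.l3 T4.l3) (xk T4.l3 T4.l3))) (xa T4.l3 (xb (xk T4.l3 T4.l3) (xk T4.l3 T4.l3))))))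
  (TrL.c (I.pos (nat_lit 0) (nat_lit 0)) (xa T2.l2 T2.l2)
  (TrL.c (I.mix (nat_lit 29511666) (nat_lit 77433728)) (xR T4.l4 (xR T4.l4 (xR T4.l4 T4.l4)))
  (TrL.c (I.mix (nat_lit 29511666) (nat_lit 46070178)) (xR T2.l3 (xR T2.l3 T2.l3))
  TrL.n)))))))) (by decide +kernel)
theorem bx0_1 : BoxOK sI cl7 cl9 cl13 t2 t4 b0_1 :=
  box_mk (TrL.c (I.pos (nat_lit 0) (nat_lit 0)) (xa (xa (xb T2.l21 (xa T2.l21 T2.l21)) (xb T2.l8 T2.l21)) (xa (xb T2.l8 T2.l8) (xa (xb T2.l8 T2.l8) (xb T2.l0 (xa T2.l8 T2.l8)))))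
  (TrL.c (I.pos (nat_lit 0) (nat_lit 0)) (xa T4.l1 T4.l1)
  (TrL.c (I.pos (nat_lit 0) (nat_lit 111196574)) T2.l1
  (TrL.c (I.pos (nat_lit 0) (nat_lit 77433728)) T4.l2
  (TrL.c (I.pos (nat_lit 0) (nat_lit 0)) (xa (xa T4.l8 T4.l8) (xa T4.l8 (xk (xb T4.l8 T4.l8) T4.l9)))
  (TrL.c (I.pos (nat_lit 0) (nat_lit 0)) T2.l2
  (TrL.c (I.mix (nat_lit 29511666) (nat_lit 77433728)) T4.l4
  (TrL.c (I.mix (nat_lit 29511666) (nat_lit 46070178)) T2.l3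
  TrL.n)))))))) (by decide +kernel)
theorem bx0_2 : BoxOK sI cl7 cl9 cl13 t2 t4 b0_2 :=
  box_mk (TrL.c (I.pos (nat_lit 0) (nat_lit 0)) (xb (xa (xb T2.l9 T2.l9) T2.l0) (xa (xb T2.l9 (xa T2.l9 T2.l9)) (xb T2.l9 T2.l9)))
  (TrL.c (I.pos (nat_lit 0) (nat_lit 0)) T4.l1
  (TrL.c (I.pos (nat_lit 0) (nat_lit 111196574)) T2.l1
  (TrL.c (I.pos (nat_lit 0) (nat_lit 77433728)) T4.l2
  (TrL.c (I.pos (nat_lit 0) (nat_lit 0)) (xb (xk T4.l11 T4.l11) (xk (xa T4.l9 T4.l9) (xa T4.l9 T4.l9)))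
  (TrL.c (I.pos (nat_lit 0) (nat_lit 0)) T2.l2
  (TrL.c (I.mix (nat_lit 29511666) (nat_lit 77433728)) T4.l4
  (TrL.c (I.mix (nat_lit 29511666) (nat_lit 46070178)) T2.l3
  TrL.n)))))))) (by decide +kernel)
theorem bx0_3 : BoxOK sI cl7 cl9 cl13 t2 t4 b0_3 :=
  box_mk (TrL.c (I.pos (nat_lit 0) (nat_lit 0)) (xa (xa (xb (xa (xb (xa T2.l10 T2.l10) T2.l10) T2.l10) T2.l21) T2.l8) T2.l8)
  (TrL.c (I.pos (nat_lit 0) (nat_lit 0)) T4.l1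
  (TrL.c (I.pos (nat_lit 0) (nat_lit 111196574)) T2.l1
  (TrL.c (I.pos (nat_lit 0) (nat_lit 77433728)) T4.l4
  (TrL.c (I.pos (nat_lit 0) (nat_lit 0)) (xa T4.l1 T4.l21)
  (TrL.c (I.pos (nat_lit 0) (nat_lit 0)) T2.l2
  (TrL.c (I.mix (nat_lit 29511666) (nat_lit 77433728)) T4.l4
  (TrL.c (I.mix (nat_lit 29511666) (nat_lit 46070178)) T2.l3
  TrL.n)))))))) (by decide +kernel)
theorem bx0_4 : BoxOK sI cl7 cl9 cl13 t2 t4 b0_4 :=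
  box_mk (TrL.c (I.pos (nat_lit 0) (nat_lit 0)) (xa (xb T2.l0 T2.l0) (xb T2.l0 (xa T2.l0 T2.l0)))
  (TrL.c (I.pos (nat_lit 0) (nat_lit 0)) (xa T4.l1 T4.l1)
  (TrL.c (I.pos (nat_lit 0) (nat_lit 111196574)) (xR T2.l1 T2.l7)
  (TrL.c (I.pos (nat_lit 0) (nat_lit 77433728)) (xR T4.l2 T4.l2)
  (TrL.c (I.pos (nat_lit 0) (nat_lit 0)) (xa (xb (xk T4.l3 T4.l3) (xk T4.l3 T4.l3)) (xb (xk (xa T4.l3 (xb (xk T4.l3 T4.l3) T4.l3)) (xa T4.l3 (xb T4.l3 T4.l3))) (xk (xa T4.l3 (xk T4.l3 T4.l3)) (xa T4.l3 (xb T4.l3 T4.l3)))))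
  (TrL.c (I.pos (nat_lit 0) (nat_lit 0)) (xk T2.l2 T2.l2)
  (TrL.c (I.mix (nat_lit 29511666) (nat_lit 77433728)) (xR T4.l4 T4.l4)
  (TrL.c (I.mix (nat_lit 29511666) (nat_lit 46070178)) T2.l5
  TrL.n)))))))) (by decide +kernel)
theorem bx0_5 : BoxOK sI cl7 cl9 cl13 t2 t4 b0_5 :=
  box_mk (TrL.c (I.pos (nat_lit 0) (nat_lit 0)) (xa T2.l0 T2.l0)
  (TrL.c (I.pos (nat_lit 0) (nat_lit 0)) T4.l1
  (TrL.c (I.pos (nat_lit 0) (nat_lit 111196574)) (xR T2.l1 T2.l1)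
  (TrL.c (I.pos (nat_lit 0) (nat_lit 77433728)) T4.l2
  (TrL.c (I.pos (nat_lit 0) (nat_lit 0)) (xk T4.l3 T4.l3)
  (TrL.c (I.pos (nat_lit 0) (nat_lit 0)) T2.l2
  (TrL.c (I.mix (nat_lit 29511666) (nat_lit 77433728)) (xR T4.l4 T4.l4)
  (TrL.c (I.mix (nat_lit 29511666) (nat_lit 46070178)) T2.l3
  TrL.n)))))))) (by decide +kernel)
theorem bx0_6 : BoxOK sI cl7 cl9 cl13 t2 t4 b0_6 :=
  box_mk (TrL.c (I.pos (nat_lit 0) (nat_lit 0)) T2.l0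
  (TrL.c (I.pos (nat_lit 0) (nat_lit 0)) T4.l1
  (TrL.c (I.pos (nat_lit 0) (nat_lit 111196574)) (xR T2.l1 T2.l1)
  (TrL.c (I.pos (nat_lit 0) (nat_lit 77433728)) (xR T4.l2 T4.l2)
  (TrL.c (I.pos (nat_lit 0) (nat_lit 0)) (xk (xb (xa T4.l3 (xk T4.l3 T4.l3)) T4.l3) (xb (xa T4.l3 (xk T4.l3 T4.l3)) T4.l3))
  (TrL.c (I.pos (nat_lit 0) (nat_lit 0)) T2.l2
  (TrL.c (I.mix (nat_lit 29511666) (nat_lit 77433728)) (xR T4.l4 T4.l4)
  (TrL.c (I.mix (nat_lit 29511666) (nat_lit 46070178)) T2.l3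
  TrL.n)))))))) (by decide +kernel)
theorem bx0_7 : BoxOK sI cl7 cl9 cl13 t2 t4 b0_7 :=
  box_mk (TrL.c (I.pos (nat_lit 0) (nat_lit 0)) (xa T2.l0 T2.l0)
  (TrL.c (I.pos (nat_lit 0) (nat_lit 0)) T4.l1
  (TrL.c (I.pos (nat_lit 0) (nat_lit 111196574)) (xR T2.l1 T2.l1)
  (TrL.c (I.pos (nat_lit 0) (nat_lit 77433728)) T4.l2
  (TrL.c (I.pos (nat_lit 0) (nat_lit 0)) (xk (xa T4.l3 T4.l3) T4.l3)
  (TrL.c (I.pos (nat_lit 0) (nat_lit 0)) T2.l2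
  (TrL.c (I.mix (nat_lit 29511666) (nat_lit 77433728)) (xR T4.l4 T4.l4)
  (TrL.c (I.mix (nat_lit 29511666) (nat_lit 46070178)) T2.l3
  TrL.n)))))))) (by decide +kernel)
theorem bx0_8 : BoxOK sI cl7 cl9 cl13 t2 t4 b0_8 :=
  box_mk (TrL.c (I.pos (nat_lit 0) (nat_lit 0)) (xa T2.l0 T2.l0)
  (TrL.c (I.pos (nat_lit 0) (nat_lit 0)) T4.l1
  (TrL.c (I.pos (nat_lit 0) (nat_lit 111196574)) (xR T2.l1 T2.l1)
  (TrL.c (I.pos (nat_lit 0) (nat_lit 77433728)) (xR T4.l2 T4.l2)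
  (TrL.c (I.pos (nat_lit 0) (nat_lit 0)) (xk (xb (xa T4.l3 (xk T4.l3 T4.l3)) T4.l3) (xb (xa T4.l3 (xk T4.l3 T4.l3)) T4.l3))
  (TrL.c (I.pos (nat_lit 0) (nat_lit 0)) T2.l2
  (TrL.c (I.mix (nat_lit 29511666) (nat_lit 77433728)) (xR T4.l4 T4.l4)
  (TrL.c (I.mix (nat_lit 29511666) (nat_lit 46070178)) T2.l3
  TrL.n)))))))) (by decide +kernel)
theorem bx0_9 : BoxOK sI cl7 cl9 cl13 t2 t4 b0_9 :=
  box_mk (TrL.c (I.pos (nat_lit 0) (nat_lit 0)) (xa (xb (xa T2.l0 T2.l0) (xa (xb T2.l0 T2.l0) (xb T2.l0 T2.l0))) (xb (xa T2.l0 T2.l0) (xa (xb T2.l0 (xc T2.l0 T2.l0)) (xb T2.l0 (xc T2.l0 T2.l0)))))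
  (TrL.c (I.pos (nat_lit 0) (nat_lit 0)) (xa T4.l1 T4.l6)
  (TrL.c (I.pos (nat_lit 0) (nat_lit 111196574)) (xR T2.l1 (xR T2.l1 T2.l7))
  (TrL.c (I.pos (nat_lit 0) (nat_lit 77433728)) (xR T4.l2 (xR T4.l2 (xR T4.l2 T4.l2)))
  (TrL.c (I.pos (nat_lit 0) (nat_lit 0)) (xb (xa (xk (xb (xa T4.l3 (xk T4.l3 T4.l3)) T4.l3) (xb (xa T4.l3 T4.l3) T4.l3)) (xk (xb (xa (xk T4.l3 T4.l3) (xk T4.l3 T4.l3)) (xa T4.l3 (xk T4.l3 T4.l3))) (xb (xa (xk T4.l3 T4.l3) (xk T4.l3 T4.l3)) (xa T4.l3 (xk T4.l3 T4.l3))))) (xa (xk (xa T4.l3 T4.l3) T4.l3) (xk (xa (xb T4.l3 T4.l3) (xb (xk T4.l3 T4.l3) (xk T4.l3 T4.l3))) (xa (xb T4.l3 T4.l3) (xb (xk T4.l3 T4.l3) (xk T4.l3 T4.l3))))))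
  (TrL.c (I.pos (nat_lit 0) (nat_lit 0)) (xk T2.l2 T2.l2)
  (TrL.c (I.mix (nat_lit 29511666) (nat_lit 77433728)) (xR T4.l4 (xR T4.l4 (xR T4.l4 (xk T4.l4 T4.l4))))
  (TrL.c (I.mix (nat_lit 29511666) (nat_lit 46070178)) T2.l5
  TrL.n)))))))) (by decide +kernel)
theorem bx0_10 : BoxOK sI cl7 cl9 cl13 t2 t4 b0_10 :=
  box_mk (TrL.c (I.pos (nat_lit 0) (nat_lit 0)) (xa (xb (xa (xb T2.l11 T2.l11) T2.l11) (xa T2.l9 T2.l0)) T2.l0)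
  (TrL.c (I.pos (nat_lit 0) (nat_lit 0)) T4.l1
  (TrL.c (I.pos (nat_lit 0) (nat_lit 111196574)) T2.l1
  (TrL.c (I.pos (nat_lit 0) (nat_lit 77433728)) T4.l2
  (TrL.c (I.pos (nat_lit 0) (nat_lit 0)) (xa (xk (xb T4.l11 T4.l11) T4.l11) (xb (xk (xa T4.l11 T4.l20) (xa T4.l11 T4.l20)) T4.l20))
  (TrL.c (I.pos (nat_lit 0) (nat_lit 0)) T2.l2
  (TrL.c (I.mix (nat_lit 29511666) (nat_lit 77433728)) (xR T4.l4 T4.l4)
  (TrL.c (I.mix (nat_lit 29511666) (nat_lit 46070178)) T2.l5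
  TrL.n)))))))) (by decide +kernel)
theorem bx0_11 : BoxOK sI cl7 cl9 cl13 t2 t4 b0_11 :=
  box_mk (TrL.c (I.pos (nat_lit 0) (nat_lit 0)) (xa (xa (xb (xa (xb (xa T2.l19 T2.l19) T2.l10) T2.l19) T2.l21) T2.l8) (xa T2.l8 T2.l8))
  (TrL.c (I.pos (nat_lit 0) (nat_lit 0)) T4.l1
  (TrL.c (I.pos (nat_lit 0) (nat_lit 111196574)) T2.l1
  (TrL.c (I.pos (nat_lit 0) (nat_lit 77433728)) (xR T4.l2 T4.l2)
  (TrL.c (I.pos (nat_lit 0) (nat_lit 0)) (xa T4.l1 (xa T4.l8 (xk T4.l9 T4.l8)))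
  (TrL.c (I.pos (nat_lit 0) (nat_lit 0)) T2.l2
  (TrL.c (I.mix (nat_lit 29511666) (nat_lit 77433728)) T4.l4
  (TrL.c (I.mix (nat_lit 29511666) (nat_lit 46070178)) T2.l3
  TrL.n)))))))) (by decide +kernel)
theorem bx0_12 : BoxOK sI cl7 cl9 cl13 t2 t4 b0_12 :=
  box_mk (TrL.c (I.pos (nat_lit 0) (nat_lit 0)) (xb (xa (xb (xa T2.l20 T2.l20) (xa (xb T2.l20 T2.l20) T2.l20)) (xb T2.l20 (xa T2.l20 T2.l20))) (xa (xb (xa (xb T2.l20 T2.l20) (xb T2.l20 T2.l20)) (xa (xb (xs T2.l20 T2.l20) (xs T2.l20 T2.l20)) (xs T2.l20 (xb T2.l20 T2.l20)))) (xb (xa T2.l20 T2.l20) (xa (xs T2.l20 (xb T2.l20 T2.l20)) (xs T2.l20 T2.l20)))))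
  (TrL.c (I.pos (nat_lit 0) (nat_lit 0)) (xb (xk T4.l1 T4.l1) (xk T4.l1 T4.l1))
  (TrL.c (I.pos (nat_lit 0) (nat_lit 111196574)) (xR T2.l1 (xR T2.l1 (xR T2.l1 T2.l1)))
  (TrL.c (I.pos (nat_lit 0) (nat_lit 77433728)) (xR T4.l2 (xR T4.l2 T4.l2))
  (TrL.c (I.pos (nat_lit 0) (nat_lit 0)) (xb (xk (xa T4.l20 (xb (xk T4.l20 T4.l20) (xk T4.l20 T4.l20))) (xa T4.l20 (xb (xk T4.l20 T4.l20) (xk T4.l20 T4.l20)))) (xk (xa T4.l3 (xb T4.l3 (xk T4.l3 T4.l3))) (xa T4.l3 (xb T4.l3 (xk T4.l3 T4.l3)))))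
  (TrL.c (I.pos (nat_lit 0) (nat_lit 0)) T2.l2
  (TrL.c (I.mix (nat_lit 29511666) (nat_lit 77433728)) (xR T4.l4 (xR T4.l4 (xR T4.l4 T4.l4)))
  (TrL.c (I.mix (nat_lit 29511666) (nat_lit 46070178)) (xR T2.l3 (xR T2.l3 T2.l3))
  TrL.n)))))))) (by decide +kernel)
theorem bx0_13 : BoxOK sI cl7 cl9 cl13 t2 t4 b0_13 :=
  box_mk (TrL.c (I.pos (nat_lit 0) (nat_lit 0)) (xa (xa (xb (xa (xb (xa T2.l21 T2.l21) T2.l21) T2.l21) (xa (xb T2.l21 (xa T2.l21 T2.l21)) (xb T2.l21 T2.l21))) (xb T2.l21 (xa T2.l21 T2.l21))) (xa (xb T2.l21 T2.l21) (xb (xa T2.l21 T2.l9) (xa T2.l21 (xb T2.l21 T2.l21)))))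
  (TrL.c (I.pos (nat_lit 0) (nat_lit 0)) (xa T4.l1 T4.l1)
  (TrL.c (I.pos (nat_lit 0) (nat_lit 111196574)) T2.l1
  (TrL.c (I.pos (nat_lit 0) (nat_lit 77433728)) (xR T4.l2 T4.l2)
  (TrL.c (I.pos (nat_lit 0) (nat_lit 0)) (xa (xa T4.l1 (xb T4.l21 T4.l21)) (xa (xb T4.l21 T4.l21) (xb (xk T4.l21 T4.l21) (xk T4.l20 T4.l20))))
  (TrL.c (I.pos (nat_lit 0) (nat_lit 0)) T2.l2
  (TrL.c (I.mix (nat_lit 29511666) (nat_lit 77433728)) T4.l4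
  (TrL.c (I.mix (nat_lit 29511666) (nat_lit 46070178)) T2.l3
  TrL.n)))))))) (by decide +kernel)
theorem bx0_14 : BoxOK sI cl7 cl9 cl13 t2 t4 b0_14 :=
  box_mk (TrL.c (I.pos (nat_lit 0) (nat_lit 0)) (xa (xb (xa T2.l0 T2.l0) (xa (xb T2.l0 T2.l0) (xb T2.l0 T2.l0))) (xb (xa T2.l0 T2.l0) (xa (xb T2.l0 T2.l0) (xb T2.l0 (xs T2.l0 T2.l0)))))
  (TrL.c (I.pos (nat_lit 0) (nat_lit 0)) (xk T4.l1 T4.l1)
  (TrL.c (I.pos (nat_lit 0) (nat_lit 111196574)) (xR T2.l1 (xR T2.l1 T2.l1))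
  (TrL.c (I.pos (nat_lit 0) (nat_lit 77433728)) (xR T4.l2 (xR T4.l2 T4.l2))
  (TrL.c (I.pos (nat_lit 0) (nat_lit 0)) (xk (xa T4.l3 (xb T4.l3 (xk T4.l3 T4.l3))) (xa T4.l3 (xb T4.l3 (xa T4.l3 T4.l3))))
  (TrL.c (I.pos (nat_lit 0) (nat_lit 0)) T2.l2
  (TrL.c (I.mix (nat_lit 29511666) (nat_lit 77433728)) (xR T4.l4 (xR T4.l4 T4.l4))
  (TrL.c (I.mix (nat_lit 29511666) (nat_lit 46070178)) (xR T2.l3 T2.l5)
  TrL.n)))))))) (by decide +kernel)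
theorem bx0_15 : BoxOK sI cl7 cl9 cl13 t2 t4 b0_15 :=
  box_mk (TrL.c (I.pos (nat_lit 0) (nat_lit 0)) (xb T2.l0 T2.l0)
  (TrL.c (I.pos (nat_lit 0) (nat_lit 0)) T4.l1
  (TrL.c (I.pos (nat_lit 0) (nat_lit 111196574)) (xR T2.l1 T2.l1)
  (TrL.c (I.pos (nat_lit 0) (nat_lit 77433728)) T4.l2
  (TrL.c (I.pos (nat_lit 0) (nat_lit 0)) (xk (xb (xa T4.l20 T4.l20) T4.l20) (xb (xa T4.l20 T4.l20) T4.l20))
  (TrL.c (I.pos (nat_lit 0) (nat_lit 0)) T2.l2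
  (TrL.c (I.mix (nat_lit 29511666) (nat_lit 77433728)) (xR T4.l4 T4.l4)
  (TrL.c (I.mix (nat_lit 29511666) (nat_lit 46070178)) T2.l5
  TrL.n)))))))) (by decide +kernel)
theorem bx0_16 : BoxOK sI cl7 cl9 cl13 t2 t4 b0_16 :=
  box_mk (TrL.c (I.pos (nat_lit 0) (nat_lit 0)) T2.l0
  (TrL.c (I.pos (nat_lit 0) (nat_lit 0)) T4.l1
  (TrL.c (I.pos (nat_lit 0) (nat_lit 111196574)) T2.l1
  (TrL.c (I.pos (nat_lit 0) (nat_lit 77433728)) T4.l2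
  (TrL.c (I.pos (nat_lit 0) (nat_lit 0)) (xk T4.l3 (xb (xa T4.l20 T4.l20) T4.l20))
  (TrL.c (I.pos (nat_lit 0) (nat_lit 0)) T2.l2
  (TrL.c (I.mix (nat_lit 29511666) (nat_lit 77433728)) T4.l4
  (TrL.c (I.mix (nat_lit 29511666) (nat_lit 46070178)) T2.l3
  TrL.n)))))))) (by decide +kernel)
theorem bx0_17 : BoxOK sI cl7 cl9 cl13 t2 t4 b0_17 :=
  box_mk (TrL.c (I.pos (nat_lit 0) (nat_lit 0)) (xb (xa T2.l20 T2.l20) (xa (xb T2.l20 T2.l20) (xa T2.l20 T2.l20)))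
  (TrL.c (I.pos (nat_lit 0) (nat_lit 0)) T4.l1
  (TrL.c (I.pos (nat_lit 0) (nat_lit 111196574)) (xR T2.l1 T2.l1)
  (TrL.c (I.pos (nat_lit 0) (nat_lit 77433728)) (xR T4.l2 T4.l2)
  (TrL.c (I.pos (nat_lit 0) (nat_lit 0)) (xb (xk (xa T4.l20 (xb T4.l20 T4.l20)) (xa T4.l20 (xb T4.l20 T4.l20))) (xk (xa T4.l20 T4.l20) (xa T4.l20 T4.l20)))
  (TrL.c (I.pos (nat_lit 0) (nat_lit 0)) T2.l2
  (TrL.c (I.mix (nat_lit 29511666) (nat_lit 77433728)) (xR T4.l4 (xR T4.l4 T4.l4))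
  (TrL.c (I.mix (nat_lit 29511666) (nat_lit 46070178)) T2.l5
  TrL.n)))))))) (by decide +kernel)
theorem bx0_18 : BoxOK sI cl7 cl9 cl13 t2 t4 b0_18 :=
  box_mk (TrL.c (I.pos (nat_lit 0) (nat_lit 0)) T2.l0
  (TrL.c (I.pos (nat_lit 0) (nat_lit 0)) T4.l1
  (TrL.c (I.pos (nat_lit 0) (nat_lit 111196574)) T2.l1
  (TrL.c (I.pos (nat_lit 0) (nat_lit 77433728)) T4.l2
  (TrL.c (I.pos (nat_lit 0) (nat_lit 0)) (xk (xb T4.l20 T4.l20) (xb (xa T4.l20 T4.l20) T4.l20))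
  (TrL.c (I.pos (nat_lit 0) (nat_lit 0)) T2.l2
  (TrL.c (I.mix (nat_lit 29511666) (nat_lit 77433728)) T4.l4
  (TrL.c (I.mix (nat_lit 29511666) (nat_lit 46070178)) T2.l3
  TrL.n)))))))) (by decide +kernel)
theorem bx0_19 : BoxOK sI cl7 cl9 cl13 t2 t4 b0_19 :=
  box_mk (TrL.c (I.pos (nat_lit 0) (nat_lit 0)) T2.l20
  (TrL.c (I.pos (nat_lit 0) (nat_lit 0)) T4.l1
  (TrL.c (I.pos (nat_lit 0) (nat_lit 111196574)) T2.l1
  (TrL.c (I.pos (nat_lit 0) (nat_lit 77433728)) T4.l2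
  (TrL.c (I.pos (nat_lit 0) (nat_lit 0)) T4.l20
  (TrL.c (I.pos (nat_lit 0) (nat_lit 0)) T2.l2
  (TrL.c (I.mix (nat_lit 29511666) (nat_lit 77433728)) T4.l4
  (TrL.c (I.mix (nat_lit 29511666) (nat_lit 46070178)) T2.l3
  TrL.n)))))))) (by decide +kernel)
theorem bx0_20 : BoxOK sI cl7 cl9 cl13 t2 t4 b0_20 :=
  box_mk (TrL.c (I.pos (nat_lit 0) (nat_lit 0)) T2.l0
  (TrL.c (I.pos (nat_lit 0) (nat_lit 0)) T4.l1
  (TrL.c (I.pos (nat_lit 0) (nat_lit 111196574)) T2.l1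
  (TrL.c (I.pos (nat_lit 0) (nat_lit 77433728)) T4.l2
  (TrL.c (I.pos (nat_lit 0) (nat_lit 0)) T4.l20
  (TrL.c (I.pos (nat_lit 0) (nat_lit 0)) T2.l2
  (TrL.c (I.mix (nat_lit 29511666) (nat_lit 77433728)) T4.l4
  (TrL.c (I.mix (nat_lit 29511666) (nat_lit 46070178)) T2.l3
  TrL.n)))))))) (by decide +kernel)
theorem sv0 : StarV sI cl7 cl9 cl13 t2 t4 t0 :=
  (bt_n (bt_n (bt_n (bt_n (bt_b bx0_0) (bt_b bx0_1)) (bt_n (bt_b bx0_2) (bt_n (bt_b bx0_3) (bt_b bx0_4)))) (bt_n (bt_n (bt_b bx0_5) (bt_b bx0_6)) (bt_n (bt_b bx0_7) (bt_n (bt_b bx0_8) (bt_b bx0_9))))) (bt_n (bt_n (bt_n (bt_b bx0_10) (bt_b bx0_11)) (bt_n (bt_b bx0_12) (bt_n (bt_b bx0_13) (bt_b bx0_14)))) (bt_n (bt_n (bt_b bx0_15) (bt_n (bt_b bx0_16) (bt_b bx0_17))) (bt_n (bt_b bx0_18) (bt_n (bt_b bx0_19) (bt_b bx0_20))))))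
def S0 : StarD := StarD.mk cl7 cl9 cl13 2 4 t0
theorem bx1_0 : BoxOK sI cl7 cl13 cl9 t4 t2 b1_0 :=
  box_mk (TrL.c (I.pos (nat_lit 0) (nat_lit 0)) (xa (xb (xa (xb T4.l0 (xa T4.l0 T4.l0)) (xb T4.l0 T4.l0)) (xa (xb (xa T4.l0 T4.l0) (xa (xs T4.l0 T4.l0) (xs T4.l0 T4.l0))) (xb (xa T4.l0 T4.l0) (xa T4.l0 T4.l0)))) (xb (xa (xb T4.l0 T4.l0) (xb T4.l0 T4.l0)) (xa (xb T4.l0 (xa T4.l0 T4.l0)) (xb (xa T4.l0 T4.l0) (xa (xs T4.l0 T4.l0) (xs T4.l0 T4.l0))))))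
  (TrL.c (I.pos (nat_lit 0) (nat_lit 0)) (xa (xk (xb T2.l4 T2.l4) (xb T2.l4 T2.l4)) (xk (xb T2.l4 T2.l4) T2.l4))
  (TrL.c (I.pos (nat_lit 0) (nat_lit 111196574)) (xR T4.l5 (xR T4.l5 (xR T4.l5 (xa T4.l5 T4.l5))))
  (TrL.c (I.pos (nat_lit 0) (nat_lit 77433728)) (xR T2.l5 (xR T2.l5 (xR T2.l5 T2.l5)))
  (TrL.c (I.pos (nat_lit 0) (nat_lit 0)) (xa (xb T2.l17 (xk (xa T2.l6 T2.l6) T2.l6)) (xb (xk (xa T2.l6 (xb T2.l6 T2.l6)) (xa T2.l6 (xb T2.l6 T2.l6))) (xk (xa T2.l6 (xb (xk T2.l6 T2.l6) (xk T2.l6 T2.l6))) (xa T2.l6 (xb (xk T2.l6 T2.l6) (xk T2.l6 T2.l6))))))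
  (TrL.c (I.pos (nat_lit 0) (nat_lit 0)) (xa T4.l6 (xk T4.l6 T4.l6))
  (TrL.c (I.mix (nat_lit 29511666) (nat_lit 77433728)) (xR T2.l7 (xR T2.l7 (xR T2.l7 T2.l7)))
  (TrL.c (I.mix (nat_lit 29511666) (nat_lit 46070178)) (xR T4.l7 (xR T4.l7 T4.l7))
  TrL.n)))))))) (by decide +kernel)
theorem bx1_1 : BoxOK sI cl7 cl13 cl9 t4 t2 b1_1 :=
  box_mk (TrL.c (I.pos (nat_lit 0) (nat_lit 0)) (xa (xa (xb T4.l19 (xa T4.l19 T4.l19)) T4.l19) (xa (xa T4.l19 T4.l19) (xa T4.l19 (xb T4.l0 T4.l0))))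
  (TrL.c (I.pos (nat_lit 0) (nat_lit 0)) (xa T2.l4 T2.l4)
  (TrL.c (I.pos (nat_lit 0) (nat_lit 111196574)) T4.l5
  (TrL.c (I.pos (nat_lit 0) (nat_lit 77433728)) (xR T2.l5 T2.l5)
  (TrL.c (I.pos (nat_lit 0) (nat_lit 0)) (xa (xa T2.l12 T2.l12) (xa T2.l12 (xk T2.l17 T2.l13)))
  (TrL.c (I.pos (nat_lit 0) (nat_lit 0)) T4.l6
  (TrL.c (I.mix (nat_lit 29511666) (nat_lit 77433728)) T2.l7
  (TrL.c (I.mix (nat_lit 29511666) (nat_lit 46070178)) T4.l4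
  TrL.n)))))))) (by decide +kernel)
theorem bx1_2 : BoxOK sI cl7 cl13 cl9 t4 t2 b1_2 :=
  box_mk (TrL.c (I.pos (nat_lit 0) (nat_lit 0)) (xb (xa (xb T4.l14 T4.l14) T4.l0) (xa (xb T4.l14 (xa (xb T4.l14 T4.l14) T4.l14)) T4.l0))
  (TrL.c (I.pos (nat_lit 0) (nat_lit 0)) T2.l4
  (TrL.c (I.pos (nat_lit 0) (nat_lit 111196574)) T4.l5
  (TrL.c (I.pos (nat_lit 0) (nat_lit 77433728)) T2.l5
  (TrL.c (I.pos (nat_lit 0) (nat_lit 0)) (xb (xk T2.l15 T2.l15) (xk (xa T2.l13 T2.l6) (xa T2.l13 T2.l6)))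
  (TrL.c (I.pos (nat_lit 0) (nat_lit 0)) T4.l6
  (TrL.c (I.mix (nat_lit 29511666) (nat_lit 77433728)) T2.l1
  (TrL.c (I.mix (nat_lit 29511666) (nat_lit 46070178)) T4.l7
  TrL.n)))))))) (by decide +kernel)
theorem bx1_3 : BoxOK sI cl7 cl13 cl9 t4 t2 b1_3 :=
  box_mk (TrL.c (I.pos (nat_lit 0) (nat_lit 0)) (xa (xa (xb (xa (xb (xa T4.l15 T4.l15) T4.l19) T4.l15) T4.l19) T4.l19) T4.l19)
  (TrL.c (I.pos (nat_lit 0) (nat_lit 0)) (xa T2.l4 T2.l4)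
  (TrL.c (I.pos (nat_lit 0) (nat_lit 111196574)) T4.l5
  (TrL.c (I.pos (nat_lit 0) (nat_lit 77433728)) (xR T2.l5 T2.l5)
  (TrL.c (I.pos (nat_lit 0) (nat_lit 0)) (xa T2.l4 T2.l18)
  (TrL.c (I.pos (nat_lit 0) (nat_lit 0)) T4.l6
  (TrL.c (I.mix (nat_lit 29511666) (nat_lit 77433728)) T2.l7
  (TrL.c (I.mix (nat_lit 29511666) (nat_lit 46070178)) T4.l4
  TrL.n)))))))) (by decide +kernel)
theorem bx1_4 : BoxOK sI cl7 cl13 cl9 t4 t2 b1_4 :=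
  box_mk (TrL.c (I.pos (nat_lit 0) (nat_lit 0)) (xa T4.l0 T4.l0)
  (TrL.c (I.pos (nat_lit 0) (nat_lit 0)) T2.l4
  (TrL.c (I.pos (nat_lit 0) (nat_lit 111196574)) (xR T4.l5 T4.l5)
  (TrL.c (I.pos (nat_lit 0) (nat_lit 77433728)) T2.l5
  (TrL.c (I.pos (nat_lit 0) (nat_lit 0)) (xk (xa T2.l6 T2.l6) T2.l6)
  (TrL.c (I.pos (nat_lit 0) (nat_lit 0)) T4.l6
  (TrL.c (I.mix (nat_lit 29511666) (nat_lit 77433728)) (xR T2.l7 T2.l7)
  (TrL.c (I.mix (nat_lit 29511666) (nat_lit 46070178)) T4.l7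
  TrL.n)))))))) (by decide +kernel)
theorem bx1_5 : BoxOK sI cl7 cl13 cl9 t4 t2 b1_5 :=
  box_mk (TrL.c (I.pos (nat_lit 0) (nat_lit 0)) (xa T4.l0 T4.l0)
  (TrL.c (I.pos (nat_lit 0) (nat_lit 0)) T2.l4
  (TrL.c (I.pos (nat_lit 0) (nat_lit 111196574)) (xR T4.l5 T4.l5)
  (TrL.c (I.pos (nat_lit 0) (nat_lit 77433728)) (xR T2.l5 T2.l5)
  (TrL.c (I.pos (nat_lit 0) (nat_lit 0)) (xk (xb (xa T2.l6 (xk T2.l6 T2.l6)) (xa T2.l6 T2.l6)) (xb (xa T2.l6 (xk T2.l6 T2.l6)) T2.l6))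
  (TrL.c (I.pos (nat_lit 0) (nat_lit 0)) T4.l6
  (TrL.c (I.mix (nat_lit 29511666) (nat_lit 77433728)) (xR T2.l7 T2.l7)
  (TrL.c (I.mix (nat_lit 29511666) (nat_lit 46070178)) T4.l2
  TrL.n)))))))) (by decide +kernel)
theorem bx1_6 : BoxOK sI cl7 cl13 cl9 t4 t2 b1_6 :=
  box_mk (TrL.c (I.pos (nat_lit 0) (nat_lit 0)) (xa (xb (xa T4.l0 T4.l0) (xa (xb T4.l0 T4.l0) (xb T4.l0 T4.l0))) (xb (xa T4.l0 T4.l0) (xa (xb T4.l0 (xc T4.l0 T4.l0)) (xb T4.l0 (xc T4.l0 T4.l0)))))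
  (TrL.c (I.pos (nat_lit 0) (nat_lit 0)) (xa T2.l4 (xb T2.l4 T2.l4))
  (TrL.c (I.pos (nat_lit 0) (nat_lit 111196574)) (xR T4.l5 (xR T4.l5 T4.l4))
  (TrL.c (I.pos (nat_lit 0) (nat_lit 77433728)) (xR T2.l5 (xR T2.l5 (xR T2.l5 T2.l5)))
  (TrL.c (I.pos (nat_lit 0) (nat_lit 0)) (xa (xb (xk (xb (xa T2.l6 (xk T2.l6 T2.l6)) T2.l6) (xb (xa T2.l6 (xk T2.l6 T2.l6)) T2.l6)) (xk T2.l6 T2.l6)) (xb (xk (xb (xa (xk T2.l6 T2.l6) (xk T2.l6 T2.l6)) (xa T2.l6 (xk T2.l6 T2.l6))) (xb (xa (xk T2.l6 T2.l6) (xk T2.l6 T2.l6)) (xa T2.l6 T2.l6))) (xk (xa (xb T2.l6 T2.l6) (xb (xk T2.l6 T2.l6) (xk T2.l6 T2.l6))) (xa (xb T2.l6 T2.l6) (xb (xk T2.l6 T2.l6) (xk T2.l6 T2.l6))))))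
  (TrL.c (I.pos (nat_lit 0) (nat_lit 0)) (xk (xb T4.l6 T4.l6) T4.l6)
  (TrL.c (I.mix (nat_lit 29511666) (nat_lit 77433728)) (xR T2.l7 (xR T2.l7 (xR T2.l7 T2.l7)))
  (TrL.c (I.mix (nat_lit 29511666) (nat_lit 46070178)) T4.l2
  TrL.n)))))))) (by decide +kernel)
theorem bx1_7 : BoxOK sI cl7 cl13 cl9 t4 t2 b1_7 :=
  box_mk (TrL.c (I.pos (nat_lit 0) (nat_lit 0)) (xa (xb T4.l0 T4.l0) (xb T4.l0 (xa T4.l0 T4.l0)))
  (TrL.c (I.pos (nat_lit 0) (nat_lit 0)) (xa T2.l4 T2.l4)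
  (TrL.c (I.pos (nat_lit 0) (nat_lit 111196574)) (xR T4.l5 T4.l4)
  (TrL.c (I.pos (nat_lit 0) (nat_lit 77433728)) (xR T2.l5 T2.l5)
  (TrL.c (I.pos (nat_lit 0) (nat_lit 0)) (xa (xb (xk T2.l6 T2.l6) (xk T2.l6 T2.l6)) (xk (xb (xa T2.l6 (xb T2.l6 T2.l6)) (xa T2.l6 (xk T2.l6 T2.l6))) (xb (xa T2.l6 T2.l6) (xa T2.l6 (xk T2.l6 T2.l6)))))
  (TrL.c (I.pos (nat_lit 0) (nat_lit 0)) T4.l6
  (TrL.c (I.mix (nat_lit 29511666) (nat_lit 77433728)) (xR T2.l7 T2.l7)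
  (TrL.c (I.mix (nat_lit 29511666) (nat_lit 46070178)) T4.l2
  TrL.n)))))))) (by decide +kernel)
theorem bx1_8 : BoxOK sI cl7 cl13 cl9 t4 t2 b1_8 :=
  box_mk (TrL.c (I.pos (nat_lit 0) (nat_lit 0)) (xa T4.l0 T4.l0)
  (TrL.c (I.pos (nat_lit 0) (nat_lit 0)) T2.l4
  (TrL.c (I.pos (nat_lit 0) (nat_lit 111196574)) (xR T4.l5 T4.l5)
  (TrL.c (I.pos (nat_lit 0) (nat_lit 77433728)) T2.l5
  (TrL.c (I.pos (nat_lit 0) (nat_lit 0)) (xk T2.l6 T2.l6)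
  (TrL.c (I.pos (nat_lit 0) (nat_lit 0)) T4.l6
  (TrL.c (I.mix (nat_lit 29511666) (nat_lit 77433728)) (xR T2.l7 T2.l7)
  (TrL.c (I.mix (nat_lit 29511666) (nat_lit 46070178)) T4.l7
  TrL.n)))))))) (by decide +kernel)
theorem bx1_9 : BoxOK sI cl7 cl13 cl9 t4 t2 b1_9 :=
  box_mk (TrL.c (I.pos (nat_lit 0) (nat_lit 0)) T4.l0
  (TrL.c (I.pos (nat_lit 0) (nat_lit 0)) T2.l4
  (TrL.c (I.pos (nat_lit 0) (nat_lit 111196574)) (xR T4.l5 T4.l5)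
  (TrL.c (I.pos (nat_lit 0) (nat_lit 77433728)) (xR T2.l5 T2.l5)
  (TrL.c (I.pos (nat_lit 0) (nat_lit 0)) (xk T2.l6 T2.l6)
  (TrL.c (I.pos (nat_lit 0) (nat_lit 0)) T4.l6
  (TrL.c (I.mix (nat_lit 29511666) (nat_lit 77433728)) (xR T2.l7 T2.l7)
  (TrL.c (I.mix (nat_lit 29511666) (nat_lit 46070178)) T4.l7
  TrL.n)))))))) (by decide +kernel)
theorem bx1_10 : BoxOK sI cl7 cl13 cl9 t4 t2 b1_10 :=
  box_mk (TrL.c (I.pos (nat_lit 0) (nat_lit 0)) (xa (xb (xa (xb T4.l16 T4.l16) T4.l0) (xa (xb T4.l16 T4.l14) T4.l0)) (xb T4.l0 T4.l0))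
  (TrL.c (I.pos (nat_lit 0) (nat_lit 0)) T2.l4
  (TrL.c (I.pos (nat_lit 0) (nat_lit 111196574)) (xR T4.l5 T4.l5)
  (TrL.c (I.pos (nat_lit 0) (nat_lit 77433728)) T2.l5
  (TrL.c (I.pos (nat_lit 0) (nat_lit 0)) (xa (xk (xb T2.l15 T2.l15) (xb T2.l15 T2.l15)) (xb (xk (xa T2.l15 T2.l17) (xa T2.l15 T2.l17)) T2.l17))
  (TrL.c (I.pos (nat_lit 0) (nat_lit 0)) T4.l6
  (TrL.c (I.mix (nat_lit 29511666) (nat_lit 77433728)) (xR T2.l7 T2.l7)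
  (TrL.c (I.mix (nat_lit 29511666) (nat_lit 46070178)) T4.l2
  TrL.n)))))))) (by decide +kernel)
theorem bx1_11 : BoxOK sI cl7 cl13 cl9 t4 t2 b1_11 :=
  box_mk (TrL.c (I.pos (nat_lit 0) (nat_lit 0)) (xa T4.l19 T4.l19)
  (TrL.c (I.pos (nat_lit 0) (nat_lit 0)) T2.l4
  (TrL.c (I.pos (nat_lit 0) (nat_lit 111196574)) T4.l5
  (TrL.c (I.pos (nat_lit 0) (nat_lit 77433728)) T2.l5
  (TrL.c (I.pos (nat_lit 0) (nat_lit 0)) (xa T2.l12 T2.l18)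
  (TrL.c (I.pos (nat_lit 0) (nat_lit 0)) T4.l6
  (TrL.c (I.mix (nat_lit 29511666) (nat_lit 77433728)) T2.l7
  (TrL.c (I.mix (nat_lit 29511666) (nat_lit 46070178)) T4.l7
  TrL.n)))))))) (by decide +kernel)
theorem bx1_12 : BoxOK sI cl7 cl13 cl9 t4 t2 b1_12 :=
  box_mk (TrL.c (I.pos (nat_lit 0) (nat_lit 0)) (xb (xa (xb (xa (xb T4.l18 T4.l18) T4.l18) (xa (xb T4.l18 T4.l18) T4.l18)) (xb (xa T4.l18 T4.l18) (xa T4.l18 T4.l18))) (xa (xb (xa (xb T4.l18 T4.l18) (xb T4.l18 T4.l18)) (xa (xs T4.l18 (xb T4.l18 T4.l18)) (xs T4.l18 (xb T4.l18 T4.l18)))) (xb (xa T4.l18 T4.l18) (xa (xs T4.l18 (xb T4.l18 T4.l18)) (xs T4.l18 T4.l18)))))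
  (TrL.c (I.pos (nat_lit 0) (nat_lit 0)) (xb (xk T2.l4 T2.l4) (xk T2.l4 T2.l4))
  (TrL.c (I.pos (nat_lit 0) (nat_lit 111196574)) (xR T4.l5 (xR T4.l5 (xR T4.l5 T4.l5)))
  (TrL.c (I.pos (nat_lit 0) (nat_lit 77433728)) (xR T2.l5 (xR T2.l5 T2.l5))
  (TrL.c (I.pos (nat_lit 0) (nat_lit 0)) (xb (xk (xa T2.l17 (xb T2.l17 T2.l17)) (xa T2.l17 (xb T2.l17 T2.l17))) (xk (xa T2.l17 (xb T2.l6 (xk T2.l17 T2.l17))) (xa T2.l17 (xb T2.l6 (xk T2.l17 T2.l17)))))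
  (TrL.c (I.pos (nat_lit 0) (nat_lit 0)) T4.l6
  (TrL.c (I.mix (nat_lit 29511666) (nat_lit 77433728)) (xR T2.l7 (xR T2.l7 (xR T2.l7 T2.l7)))
  (TrL.c (I.mix (nat_lit 29511666) (nat_lit 46070178)) (xR T4.l7 (xR T4.l7 T4.l7))
  TrL.n)))))))) (by decide +kernel)
theorem bx1_13 : BoxOK sI cl7 cl13 cl9 t4 t2 b1_13 :=
  box_mk (TrL.c (I.pos (nat_lit 0) (nat_lit 0)) (xa (xa (xb (xa (xb T4.l19 T4.l19) T4.l19) (xa (xb T4.l19 (xa T4.l19 T4.l19)) (xb T4.l19 (xa T4.l19 T4.l19)))) (xb T4.l19 (xa T4.l19 T4.l19))) (xa (xb T4.l19 (xa T4.l19 T4.l19)) (xb (xa T4.l19 (xb T4.l19 T4.l19)) (xa T4.l19 (xb T4.l19 T4.l19)))))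
  (TrL.c (I.pos (nat_lit 0) (nat_lit 0)) (xa T2.l4 T2.l4)
  (TrL.c (I.pos (nat_lit 0) (nat_lit 111196574)) T4.l5
  (TrL.c (I.pos (nat_lit 0) (nat_lit 77433728)) (xR T2.l5 T2.l5)
  (TrL.c (I.pos (nat_lit 0) (nat_lit 0)) (xa (xa T2.l4 (xb T2.l18 T2.l18)) (xa (xb T2.l18 T2.l18) (xb (xk T2.l18 T2.l18) (xk T2.l17 T2.l17))))
  (TrL.c (I.pos (nat_lit 0) (nat_lit 0)) T4.l6
  (TrL.c (I.mix (nat_lit 29511666) (nat_lit 77433728)) T2.l7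
  (TrL.c (I.mix (nat_lit 29511666) (nat_lit 46070178)) T4.l4
  TrL.n)))))))) (by decide +kernel)
theorem bx1_14 : BoxOK sI cl7 cl13 cl9 t4 t2 b1_14 :=
  box_mk (TrL.c (I.pos (nat_lit 0) (nat_lit 0)) (xb T4.l0 T4.l0)
  (TrL.c (I.pos (nat_lit 0) (nat_lit 0)) T2.l4
  (TrL.c (I.pos (nat_lit 0) (nat_lit 111196574)) (xR T4.l5 T4.l5)
  (TrL.c (I.pos (nat_lit 0) (nat_lit 77433728)) T2.l5
  (TrL.c (I.pos (nat_lit 0) (nat_lit 0)) (xk (xb (xa T2.l17 T2.l17) T2.l17) (xb (xa T2.l17 T2.l17) T2.l17))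
  (TrL.c (I.pos (nat_lit 0) (nat_lit 0)) T4.l6
  (TrL.c (I.mix (nat_lit 29511666) (nat_lit 77433728)) (xR T2.l7 (xR T2.l7 T2.l7))
  (TrL.c (I.mix (nat_lit 29511666) (nat_lit 46070178)) T4.l2
  TrL.n)))))))) (by decide +kernel)
theorem bx1_15 : BoxOK sI cl7 cl13 cl9 t4 t2 b1_15 :=
  box_mk (TrL.c (I.pos (nat_lit 0) (nat_lit 0)) T4.l0
  (TrL.c (I.pos (nat_lit 0) (nat_lit 0)) T2.l4
  (TrL.c (I.pos (nat_lit 0) (nat_lit 111196574)) (xR T4.l5 T4.l5)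
  (TrL.c (I.pos (nat_lit 0) (nat_lit 77433728)) T2.l5
  (TrL.c (I.pos (nat_lit 0) (nat_lit 0)) (xk T2.l17 T2.l6)
  (TrL.c (I.pos (nat_lit 0) (nat_lit 0)) T4.l6
  (TrL.c (I.mix (nat_lit 29511666) (nat_lit 77433728)) T2.l1
  (TrL.c (I.mix (nat_lit 29511666) (nat_lit 46070178)) T4.l7
  TrL.n)))))))) (by decide +kernel)
theorem bx1_16 : BoxOK sI cl7 cl13 cl9 t4 t2 b1_16 :=
  box_mk (TrL.c (I.pos (nat_lit 0) (nat_lit 0)) (xb (xa (xb T4.l18 T4.l18) T4.l18) (xa (xa T4.l18 T4.l18) (xa T4.l18 T4.l18)))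
  (TrL.c (I.pos (nat_lit 0) (nat_lit 0)) (xk T2.l4 T2.l4)
  (TrL.c (I.pos (nat_lit 0) (nat_lit 111196574)) (xR T4.l5 (xR T4.l5 T4.l5))
  (TrL.c (I.pos (nat_lit 0) (nat_lit 77433728)) (xR T2.l5 T2.l5)
  (TrL.c (I.pos (nat_lit 0) (nat_lit 0)) (xb (xk (xa T2.l17 (xk T2.l17 T2.l17)) (xa T2.l17 T2.l17)) (xk T2.l17 T2.l17))
  (TrL.c (I.pos (nat_lit 0) (nat_lit 0)) T4.l6
  (TrL.c (I.mix (nat_lit 29511666) (nat_lit 77433728)) (xR T2.l7 (xR T2.l7 T2.l7))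
  (TrL.c (I.mix (nat_lit 29511666) (nat_lit 46070178)) T4.l2
  TrL.n)))))))) (by decide +kernel)
theorem bx1_17 : BoxOK sI cl7 cl13 cl9 t4 t2 b1_17 :=
  box_mk (TrL.c (I.pos (nat_lit 0) (nat_lit 0)) T4.l0
  (TrL.c (I.pos (nat_lit 0) (nat_lit 0)) T2.l4
  (TrL.c (I.pos (nat_lit 0) (nat_lit 111196574)) (xR T4.l5 T4.l5)
  (TrL.c (I.pos (nat_lit 0) (nat_lit 77433728)) T2.l5
  (TrL.c (I.pos (nat_lit 0) (nat_lit 0)) (xk (xb (xa T2.l17 T2.l17) T2.l17) (xb (xa T2.l17 T2.l17) T2.l17))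
  (TrL.c (I.pos (nat_lit 0) (nat_lit 0)) T4.l6
  (TrL.c (I.mix (nat_lit 29511666) (nat_lit 77433728)) T2.l1
  (TrL.c (I.mix (nat_lit 29511666) (nat_lit 46070178)) T4.l7
  TrL.n)))))))) (by decide +kernel)
theorem bx1_18 : BoxOK sI cl7 cl13 cl9 t4 t2 b1_18 :=
  box_mk (TrL.c (I.pos (nat_lit 0) (nat_lit 0)) T4.l0
  (TrL.c (I.pos (nat_lit 0) (nat_lit 0)) T2.l4
  (TrL.c (I.pos (nat_lit 0) (nat_lit 111196574)) (xR T4.l5 T4.l5)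
  (TrL.c (I.pos (nat_lit 0) (nat_lit 77433728)) T2.l5
  (TrL.c (I.pos (nat_lit 0) (nat_lit 0)) T2.l17
  (TrL.c (I.pos (nat_lit 0) (nat_lit 0)) T4.l6
  (TrL.c (I.mix (nat_lit 29511666) (nat_lit 77433728)) T2.l1
  (TrL.c (I.mix (nat_lit 29511666) (nat_lit 46070178)) T4.l7
  TrL.n)))))))) (by decide +kernel)
theorem bx1_19 : BoxOK sI cl7 cl13 cl9 t4 t2 b1_19 :=
  box_mk (TrL.c (I.pos (nat_lit 0) (nat_lit 0)) (xa (xb (xa T4.l0 T4.l0) (xa (xb T4.l0 T4.l0) (xb T4.l0 (xs T4.l0 T4.l0)))) (xb (xa T4.l0 T4.l0) (xa (xb T4.l0 (xs T4.l0 T4.l0)) (xb T4.l0 (xs T4.l0 T4.l0)))))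
  (TrL.c (I.pos (nat_lit 0) (nat_lit 0)) (xa T2.l4 T2.l4)
  (TrL.c (I.pos (nat_lit 0) (nat_lit 111196574)) (xR T4.l5 (xR T4.l5 (xR T4.l5 T4.l5)))
  (TrL.c (I.pos (nat_lit 0) (nat_lit 77433728)) (xR T2.l5 (xR T2.l5 T2.l5))
  (TrL.c (I.pos (nat_lit 0) (nat_lit 0)) (xa (xk (xb T2.l6 T2.l6) (xb T2.l6 T2.l6)) (xk (xb T2.l6 (xk T2.l6 T2.l6)) (xb T2.l6 (xa T2.l6 (xk T2.l6 T2.l6)))))
  (TrL.c (I.pos (nat_lit 0) (nat_lit 0)) T4.l6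
  (TrL.c (I.mix (nat_lit 29511666) (nat_lit 77433728)) (xR T2.l7 (xR T2.l7 T2.l7))
  (TrL.c (I.mix (nat_lit 29511666) (nat_lit 46070178)) (xR T4.l7 T4.l2)
  TrL.n)))))))) (by decide +kernel)
theorem bx1_20 : BoxOK sI cl7 cl13 cl9 t4 t2 b1_20 :=
  box_mk (TrL.c (I.pos (nat_lit 0) (nat_lit 0)) T4.l0
  (TrL.c (I.pos (nat_lit 0) (nat_lit 0)) T2.l4
  (TrL.c (I.pos (nat_lit 0) (nat_lit 111196574)) (xR T4.l5 T4.l5)
  (TrL.c (I.pos (nat_lit 0) (nat_lit 77433728)) T2.l5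
  (TrL.c (I.pos (nat_lit 0) (nat_lit 0)) T2.l17
  (TrL.c (I.pos (nat_lit 0) (nat_lit 0)) T4.l6
  (TrL.c (I.mix (nat_lit 29511666) (nat_lit 77433728)) T2.l1
  (TrL.c (I.mix (nat_lit 29511666) (nat_lit 46070178)) T4.l7
  TrL.n)))))))) (by decide +kernel)
theorem sv1 : StarV sI cl7 cl13 cl9 t4 t2 t1 :=
  (bt_n (bt_n (bt_n (bt_n (bt_b bx1_0) (bt_b bx1_1)) (bt_n (bt_b bx1_2) (bt_n (bt_b bx1_3) (bt_b bx1_4)))) (bt_n (bt_n (bt_b bx1_5) (bt_b bx1_6)) (bt_n (bt_b bx1_7) (bt_n (bt_b bx1_8) (bt_b bx1_9))))) (bt_n (bt_n (bt_n (bt_b bx1_10) (bt_b bx1_11)) (bt_n (bt_b bx1_12) (bt_n (bt_b bx1_13) (bt_b bx1_14)))) (bt_n (bt_n (bt_b bx1_15) (bt_n (bt_b bx1_16) (bt_b bx1_17))) (bt_n (bt_b bx1_18) (bt_n (bt_b bx1_19) (bt_b bx1_20))))))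
def S1 : StarD := StarD.mk cl7 cl13 cl9 4 2 t1
theorem bx2_0 : BoxOK sI cl9 cl7 cl13 t0 t5 b2_0 :=
  box_mk (TrL.c (I.pos (nat_lit 0) (nat_lit 0)) (xa (xb (xa (xb T0.l0 (xa T0.l0 T0.l0)) (xb T0.l0 T0.l0)) (xa (xb (xa T0.l0 T0.l0) (xa (xs T0.l0 T0.l0) (xs T0.l0 T0.l0))) (xb (xa T0.l0 T0.l0) (xa T0.l0 T0.l0)))) (xb (xa (xb T0.l0 T0.l0) T0.l0) (xa (xb T0.l0 (xa T0.l0 T0.l0)) (xb T0.l0 (xa T0.l0 (xs T0.l0 T0.l0))))))
  (TrL.c (I.pos (nat_lit 0) (nat_lit 0)) (xa (xb T5.l1 T5.l1) (xb T5.l1 T5.l1))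
  (TrL.c (I.pos (nat_lit 0) (nat_lit 124588530)) (xR T0.l1 (xR T0.l1 (xR T0.l1 T0.l1)))
  (TrL.c (I.pos (nat_lit 0) (nat_lit 96881482)) (xR T5.l2 (xR T5.l2 T5.l2))
  (TrL.c (I.pos (nat_lit 0) (nat_lit 0)) (xa (xb (xk T5.l10 T5.l10) (xk (xa T5.l3 T5.l3) T5.l3)) (xb (xk (xa (xb T5.l3 T5.l3) (xb (xk T5.l3 T5.l3) T5.l3)) (xa T5.l10 (xb (xk T5.l3 T5.l3) T5.l3))) (xk (xa (xb T5.l3 T5.l3) (xb (xk T5.l3 T5.l3) (xk T5.l3 T5.l3))) (xa (xb T5.l3 T5.l3) (xb (xk T5.l3 T5.l3) (xk (xa T5.l3 T5.l3) (xa T5.l3 (xs T5.l3 T5.l3))))))))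
  (TrL.c (I.pos (nat_lit 0) (nat_lit 0)) (xa T0.l2 (xk T0.l2 T0.l2))
  (TrL.c (I.mix (nat_lit 17240550) (nat_lit 96881482)) (xR T5.l4 (xR T5.l4 (xR T5.l4 T5.l4)))
  (TrL.c (I.mix (nat_lit 17240550) (nat_lit 71940500)) (xR T0.l3 (xR T0.l3 T0.l3))
  TrL.n)))))))) (by decide +kernel)
theorem bx2_1 : BoxOK sI cl9 cl7 cl13 t0 t5 b2_1 :=
  box_mk (TrL.c (I.pos (nat_lit 0) (nat_lit 0)) (xa (xa (xb T0.l9 (xa (xb T0.l4 T0.l9) T0.l9)) (xb T0.l4 T0.l9)) (xa T0.l9 (xb (xa T0.l4 T0.l4) (xa T0.l4 T0.l4))))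
  (TrL.c (I.pos (nat_lit 0) (nat_lit 0)) T5.l1
  (TrL.c (I.pos (nat_lit 0) (nat_lit 124588530)) T0.l1
  (TrL.c (I.pos (nat_lit 0) (nat_lit 96881482)) T5.l2
  (TrL.c (I.pos (nat_lit 0) (nat_lit 0)) (xa T5.l1 (xa T5.l5 (xk T5.l5 T5.l5)))
  (TrL.c (I.pos (nat_lit 0) (nat_lit 0)) T0.l2
  (TrL.c (I.mix (nat_lit 17240550) (nat_lit 96881482)) T5.l4
  (TrL.c (I.mix (nat_lit 17240550) (nat_lit 71940500)) T0.l3
  TrL.n)))))))) (by decide +kernel)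
theorem bx2_2 : BoxOK sI cl9 cl7 cl13 t0 t5 b2_2 :=
  box_mk (TrL.c (I.pos (nat_lit 0) (nat_lit 0)) (xb (xa (xb T0.l5 T0.l5) T0.l0) (xa (xb T0.l5 (xa T0.l5 T0.l5)) (xb T0.l5 T0.l5)))
  (TrL.c (I.pos (nat_lit 0) (nat_lit 0)) T5.l1
  (TrL.c (I.pos (nat_lit 0) (nat_lit 124588530)) T0.l1
  (TrL.c (I.pos (nat_lit 0) (nat_lit 96881482)) T5.l2
  (TrL.c (I.pos (nat_lit 0) (nat_lit 0)) (xb (xk (xa T5.l6 T5.l8) (xa T5.l6 T5.l8)) (xk (xa T5.l6 T5.l6) (xa T5.l6 T5.l6)))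
  (TrL.c (I.pos (nat_lit 0) (nat_lit 0)) T0.l2
  (TrL.c (I.mix (nat_lit 17240550) (nat_lit 96881482)) T5.l4
  (TrL.c (I.mix (nat_lit 17240550) (nat_lit 71940500)) T0.l3
  TrL.n)))))))) (by decide +kernel)
theorem bx2_3 : BoxOK sI cl9 cl7 cl13 t0 t5 b2_3 :=
  box_mk (TrL.c (I.pos (nat_lit 0) (nat_lit 0)) (xa (xa (xb (xb (xa (xa T0.l6 T0.l6) T0.l6) T0.l6) (xa (xb T0.l6 T0.l9) T0.l9)) T0.l9) T0.l4)
  (TrL.c (I.pos (nat_lit 0) (nat_lit 0)) T5.l1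
  (TrL.c (I.pos (nat_lit 0) (nat_lit 124588530)) T0.l1
  (TrL.c (I.pos (nat_lit 0) (nat_lit 96881482)) T5.l4
  (TrL.c (I.pos (nat_lit 0) (nat_lit 0)) (xa T5.l1 T5.l5)
  (TrL.c (I.pos (nat_lit 0) (nat_lit 0)) T0.l2
  (TrL.c (I.mix (nat_lit 17240550) (nat_lit 96881482)) T5.l4
  (TrL.c (I.mix (nat_lit 17240550) (nat_lit 71940500)) T0.l3
  TrL.n)))))))) (by decide +kernel)
theorem bx2_4 : BoxOK sI cl9 cl7 cl13 t0 t5 b2_4 :=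
  box_mk (TrL.c (I.pos (nat_lit 0) (nat_lit 0)) (xa (xb (xa T0.l5 T0.l7) (xa T0.l7 T0.l7)) T0.l0)
  (TrL.c (I.pos (nat_lit 0) (nat_lit 0)) T5.l1
  (TrL.c (I.pos (nat_lit 0) (nat_lit 124588530)) T0.l1
  (TrL.c (I.pos (nat_lit 0) (nat_lit 96881482)) T5.l2
  (TrL.c (I.pos (nat_lit 0) (nat_lit 0)) (xa (xk T5.l8 T5.l8) (xb (xk (xa T5.l8 (xb T5.l8 T5.l8)) (xa T5.l8 (xb T5.l8 T5.l8))) (xk T5.l10 T5.l10)))
  (TrL.c (I.pos (nat_lit 0) (nat_lit 0)) T0.l2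
  (TrL.c (I.mix (nat_lit 17240550) (nat_lit 96881482)) (xR T5.l4 T5.l4)
  (TrL.c (I.mix (nat_lit 17240550) (nat_lit 71940500)) T0.l11
  TrL.n)))))))) (by decide +kernel)
theorem bx2_5 : BoxOK sI cl9 cl7 cl13 t0 t5 b2_5 :=
  box_mk (TrL.c (I.pos (nat_lit 0) (nat_lit 0)) (xa (xa (xb (xb (xa (xa T0.l9 T0.l8) T0.l8) T0.l9) T0.l9) T0.l9) (xa T0.l4 T0.l4))
  (TrL.c (I.pos (nat_lit 0) (nat_lit 0)) T5.l1
  (TrL.c (I.pos (nat_lit 0) (nat_lit 124588530)) T0.l1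
  (TrL.c (I.pos (nat_lit 0) (nat_lit 96881482)) T5.l2
  (TrL.c (I.pos (nat_lit 0) (nat_lit 0)) (xa T5.l1 (xa T5.l9 (xk T5.l9 T5.l9)))
  (TrL.c (I.pos (nat_lit 0) (nat_lit 0)) T0.l2
  (TrL.c (I.mix (nat_lit 17240550) (nat_lit 96881482)) T5.l4
  (TrL.c (I.mix (nat_lit 17240550) (nat_lit 71940500)) T0.l3
  TrL.n)))))))) (by decide +kernel)
theorem bx2_6 : BoxOK sI cl9 cl7 cl13 t0 t5 b2_6 :=
  box_mk (TrL.c (I.pos (nat_lit 0) (nat_lit 0)) (xb (xa (xb (xa T0.l14 T0.l14) (xa T0.l14 T0.l14)) (xb T0.l14 T0.l14)) (xa (xb (xa (xb T0.l14 T0.l14) (xb T0.l14 T0.l14)) (xa (xs T0.l14 (xb T0.l14 T0.l14)) (xs T0.l14 (xb T0.l14 T0.l14)))) (xb (xa T0.l14 T0.l14) (xa (xs T0.l14 (xb T0.l14 T0.l14)) (xs T0.l14 T0.l14)))))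
  (TrL.c (I.pos (nat_lit 0) (nat_lit 0)) (xb T5.l1 (xk T5.l1 T5.l1))
  (TrL.c (I.pos (nat_lit 0) (nat_lit 124588530)) (xR T0.l1 (xR T0.l1 (xR T0.l1 T0.l1)))
  (TrL.c (I.pos (nat_lit 0) (nat_lit 96881482)) (xR T5.l2 (xR T5.l2 (xR T5.l2 T5.l2)))
  (TrL.c (I.pos (nat_lit 0) (nat_lit 0)) (xb (xk (xa T5.l10 (xb (xk T5.l10 T5.l10) (xk T5.l10 T5.l10))) (xa T5.l10 (xb (xk T5.l10 T5.l10) (xk T5.l10 T5.l10)))) (xk (xa (xb T5.l10 T5.l10) (xb (xk T5.l10 T5.l10) (xk (xs T5.l3 T5.l3) (xs T5.l10 (xb T5.l3 T5.l3))))) (xa (xb T5.l10 (xb T5.l3 T5.l3)) (xb (xk T5.l10 T5.l10) (xk (xs (xb T5.l3 T5.l3) (xb T5.l10 (xa T5.l3 T5.l3))) (xs (xb T5.l3 T5.l3) (xb T5.l10 (xa T5.l10 (xd T5.l3 T5.l3)))))))))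
  (TrL.c (I.pos (nat_lit 0) (nat_lit 0)) T0.l2
  (TrL.c (I.mix (nat_lit 17240550) (nat_lit 96881482)) (xR T5.l4 (xR T5.l4 (xR T5.l4 T5.l4)))
  (TrL.c (I.mix (nat_lit 17240550) (nat_lit 71940500)) (xR T0.l3 (xR T0.l3 T0.l3))
  TrL.n)))))))) (by decide +kernel)
theorem bx2_7 : BoxOK sI cl9 cl7 cl13 t0 t5 b2_7 :=
  box_mk (TrL.c (I.pos (nat_lit 0) (nat_lit 0)) (xa (xa (xb (xb (xa (xa T0.l9 T0.l9) T0.l9) T0.l9) (xa (xb T0.l9 (xa T0.l9 T0.l9)) (xb T0.l9 T0.l9))) (xb T0.l9 (xa T0.l9 T0.l9))) (xa (xb T0.l9 T0.l9) (xb (xa T0.l9 T0.l4) (xa T0.l9 (xb T0.l9 T0.l9)))))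
  (TrL.c (I.pos (nat_lit 0) (nat_lit 0)) (xa T5.l1 T5.l1)
  (TrL.c (I.pos (nat_lit 0) (nat_lit 124588530)) T0.l1
  (TrL.c (I.pos (nat_lit 0) (nat_lit 96881482)) (xR T5.l2 T5.l2)
  (TrL.c (I.pos (nat_lit 0) (nat_lit 0)) (xa T5.l1 (xa T5.l11 (xb (xk T5.l11 T5.l11) (xk T5.l11 T5.l11))))
  (TrL.c (I.pos (nat_lit 0) (nat_lit 0)) T0.l2
  (TrL.c (I.mix (nat_lit 17240550) (nat_lit 96881482)) T5.l4
  (TrL.c (I.mix (nat_lit 17240550) (nat_lit 71940500)) T0.l3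
  TrL.n)))))))) (by decide +kernel)
theorem bx2_8 : BoxOK sI cl9 cl7 cl13 t0 t5 b2_8 :=
  box_mk (TrL.c (I.pos (nat_lit 0) (nat_lit 0)) (xa (xb T0.l0 T0.l0) (xb T0.l0 T0.l0))
  (TrL.c (I.pos (nat_lit 0) (nat_lit 0)) (xa T5.l1 T5.l1)
  (TrL.c (I.pos (nat_lit 0) (nat_lit 124588530)) (xR T0.l1 T0.l13)
  (TrL.c (I.pos (nat_lit 0) (nat_lit 96881482)) (xR T5.l2 T5.l2)
  (TrL.c (I.pos (nat_lit 0) (nat_lit 0)) (xa (xk (xb T5.l3 (xa T5.l3 T5.l3)) (xb (xa T5.l3 T5.l3) T5.l3)) (xb (xk (xa T5.l3 (xb (xk T5.l3 T5.l3) (xk T5.l3 T5.l3))) (xa T5.l3 (xb (xk T5.l3 T5.l3) T5.l3))) (xk (xa T5.l3 (xk (xb T5.l3 T5.l3) T5.l3)) (xa T5.l3 (xb T5.l3 T5.l3)))))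
  (TrL.c (I.pos (nat_lit 0) (nat_lit 0)) (xk T0.l2 T0.l2)
  (TrL.c (I.mix (nat_lit 17240550) (nat_lit 96881482)) (xR T5.l4 (xR T5.l4 T5.l4))
  (TrL.c (I.mix (nat_lit 17240550) (nat_lit 71940500)) T0.l3
  TrL.n)))))))) (by decide +kernel)
theorem bx2_9 : BoxOK sI cl9 cl7 cl13 t0 t5 b2_9 :=
  box_mk (TrL.c (I.pos (nat_lit 0) (nat_lit 0)) (xa T0.l0 T0.l0)
  (TrL.c (I.pos (nat_lit 0) (nat_lit 0)) T5.l1
  (TrL.c (I.pos (nat_lit 0) (nat_lit 124588530)) (xR T0.l1 T0.l1)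
  (TrL.c (I.pos (nat_lit 0) (nat_lit 96881482)) (xR T5.l2 T5.l2)
  (TrL.c (I.pos (nat_lit 0) (nat_lit 0)) (xk T5.l3 T5.l3)
  (TrL.c (I.pos (nat_lit 0) (nat_lit 0)) T0.l2
  (TrL.c (I.mix (nat_lit 17240550) (nat_lit 96881482)) (xR T5.l4 T5.l4)
  (TrL.c (I.mix (nat_lit 17240550) (nat_lit 71940500)) T0.l3
  TrL.n)))))))) (by decide +kernel)
theorem bx2_10 : BoxOK sI cl9 cl7 cl13 t0 t5 b2_10 :=
  box_mk (TrL.c (I.pos (nat_lit 0) (nat_lit 0)) T0.l0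
  (TrL.c (I.pos (nat_lit 0) (nat_lit 0)) T5.l1
  (TrL.c (I.pos (nat_lit 0) (nat_lit 124588530)) (xR T0.l1 T0.l1)
  (TrL.c (I.pos (nat_lit 0) (nat_lit 96881482)) (xR T5.l2 T5.l2)
  (TrL.c (I.pos (nat_lit 0) (nat_lit 0)) (xk (xb T5.l0 T5.l3) (xb T5.l0 T5.l3))
  (TrL.c (I.pos (nat_lit 0) (nat_lit 0)) T0.l2
  (TrL.c (I.mix (nat_lit 17240550) (nat_lit 96881482)) (xR T5.l4 T5.l4)
  (TrL.c (I.mix (nat_lit 17240550) (nat_lit 71940500)) T0.l3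
  TrL.n)))))))) (by decide +kernel)
theorem bx2_11 : BoxOK sI cl9 cl7 cl13 t0 t5 b2_11 :=
  box_mk (TrL.c (I.pos (nat_lit 0) (nat_lit 0)) T0.l0
  (TrL.c (I.pos (nat_lit 0) (nat_lit 0)) T5.l1
  (TrL.c (I.pos (nat_lit 0) (nat_lit 124588530)) (xR T0.l1 T0.l1)
  (TrL.c (I.pos (nat_lit 0) (nat_lit 96881482)) (xR T5.l2 T5.l2)
  (TrL.c (I.pos (nat_lit 0) (nat_lit 0)) (xk T5.l3 T5.l3)
  (TrL.c (I.pos (nat_lit 0) (nat_lit 0)) T0.l2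
  (TrL.c (I.mix (nat_lit 17240550) (nat_lit 96881482)) T5.l4
  (TrL.c (I.mix (nat_lit 17240550) (nat_lit 71940500)) T0.l3
  TrL.n)))))))) (by decide +kernel)
theorem bx2_12 : BoxOK sI cl9 cl7 cl13 t0 t5 b2_12 :=
  box_mk (TrL.c (I.pos (nat_lit 0) (nat_lit 0)) T0.l0
  (TrL.c (I.pos (nat_lit 0) (nat_lit 0)) T5.l1
  (TrL.c (I.pos (nat_lit 0) (nat_lit 124588530)) T0.l13
  (TrL.c (I.pos (nat_lit 0) (nat_lit 96881482)) T5.l2
  (TrL.c (I.pos (nat_lit 0) (nat_lit 0)) (xk T5.l10 (xb T5.l10 T5.l10))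
  (TrL.c (I.pos (nat_lit 0) (nat_lit 0)) T0.l2
  (TrL.c (I.mix (nat_lit 17240550) (nat_lit 96881482)) T5.l4
  (TrL.c (I.mix (nat_lit 17240550) (nat_lit 71940500)) T0.l3
  TrL.n)))))))) (by decide +kernel)
theorem bx2_13 : BoxOK sI cl9 cl7 cl13 t0 t5 b2_13 :=
  box_mk (TrL.c (I.pos (nat_lit 0) (nat_lit 0)) T0.l14
  (TrL.c (I.pos (nat_lit 0) (nat_lit 0)) T5.l1
  (TrL.c (I.pos (nat_lit 0) (nat_lit 124588530)) T0.l13
  (TrL.c (I.pos (nat_lit 0) (nat_lit 96881482)) T5.l2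
  (TrL.c (I.pos (nat_lit 0) (nat_lit 0)) (xk T5.l10 T5.l10)
  (TrL.c (I.pos (nat_lit 0) (nat_lit 0)) T0.l2
  (TrL.c (I.mix (nat_lit 17240550) (nat_lit 96881482)) T5.l4
  (TrL.c (I.mix (nat_lit 17240550) (nat_lit 71940500)) T0.l3
  TrL.n)))))))) (by decide +kernel)
theorem bx2_14 : BoxOK sI cl9 cl7 cl13 t0 t5 b2_14 :=
  box_mk (TrL.c (I.pos (nat_lit 0) (nat_lit 0)) T0.l0
  (TrL.c (I.pos (nat_lit 0) (nat_lit 0)) T5.l1
  (TrL.c (I.pos (nat_lit 0) (nat_lit 124588530)) T0.l1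
  (TrL.c (I.pos (nat_lit 0) (nat_lit 96881482)) T5.l2
  (TrL.c (I.pos (nat_lit 0) (nat_lit 0)) (xk T5.l10 T5.l10)
  (TrL.c (I.pos (nat_lit 0) (nat_lit 0)) T0.l2
  (TrL.c (I.mix (nat_lit 17240550) (nat_lit 96881482)) T5.l4
  (TrL.c (I.mix (nat_lit 17240550) (nat_lit 71940500)) T0.l3
  TrL.n)))))))) (by decide +kernel)
theorem bx2_15 : BoxOK sI cl9 cl7 cl13 t0 t5 b2_15 :=
  box_mk (TrL.c (I.pos (nat_lit 0) (nat_lit 0)) (xb T0.l14 T0.l0)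
  (TrL.c (I.pos (nat_lit 0) (nat_lit 0)) T5.l1
  (TrL.c (I.pos (nat_lit 0) (nat_lit 124588530)) (xR T0.l1 T0.l1)
  (TrL.c (I.pos (nat_lit 0) (nat_lit 96881482)) T5.l2
  (TrL.c (I.pos (nat_lit 0) (nat_lit 0)) (xk (xb (xa T5.l10 T5.l10) T5.l10) (xb (xa T5.l10 T5.l10) T5.l10))
  (TrL.c (I.pos (nat_lit 0) (nat_lit 0)) T0.l2
  (TrL.c (I.mix (nat_lit 17240550) (nat_lit 96881482)) (xR T5.l4 T5.l4)
  (TrL.c (I.mix (nat_lit 17240550) (nat_lit 71940500)) T0.l3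
  TrL.n)))))))) (by decide +kernel)
theorem bx2_16 : BoxOK sI cl9 cl7 cl13 t0 t5 b2_16 :=
  box_mk (TrL.c (I.pos (nat_lit 0) (nat_lit 0)) T0.l14
  (TrL.c (I.pos (nat_lit 0) (nat_lit 0)) T5.l1
  (TrL.c (I.pos (nat_lit 0) (nat_lit 124588530)) T0.l1
  (TrL.c (I.pos (nat_lit 0) (nat_lit 96881482)) T5.l2
  (TrL.c (I.pos (nat_lit 0) (nat_lit 0)) (xk T5.l10 T5.l10)
  (TrL.c (I.pos (nat_lit 0) (nat_lit 0)) T0.l2
  (TrL.c (I.mix (nat_lit 17240550) (nat_lit 96881482)) T5.l4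
  (TrL.c (I.mix (nat_lit 17240550) (nat_lit 71940500)) T0.l3
  TrL.n)))))))) (by decide +kernel)
theorem bx2_17 : BoxOK sI cl9 cl7 cl13 t0 t5 b2_17 :=
  box_mk (TrL.c (I.pos (nat_lit 0) (nat_lit 0)) (xb (xa T0.l14 T0.l14) (xa T0.l14 T0.l14))
  (TrL.c (I.pos (nat_lit 0) (nat_lit 0)) T5.l1
  (TrL.c (I.pos (nat_lit 0) (nat_lit 124588530)) (xR T0.l1 T0.l1)
  (TrL.c (I.pos (nat_lit 0) (nat_lit 96881482)) (xR T5.l2 T5.l2)
  (TrL.c (I.pos (nat_lit 0) (nat_lit 0)) (xk (xb (xa T5.l10 (xk T5.l10 T5.l10)) T5.l10) (xb (xa T5.l10 T5.l10) T5.l10))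
  (TrL.c (I.pos (nat_lit 0) (nat_lit 0)) T0.l2
  (TrL.c (I.mix (nat_lit 17240550) (nat_lit 96881482)) (xR T5.l4 T5.l4)
  (TrL.c (I.mix (nat_lit 17240550) (nat_lit 71940500)) T0.l11
  TrL.n)))))))) (by decide +kernel)
theorem bx2_18 : BoxOK sI cl9 cl7 cl13 t0 t5 b2_18 :=
  box_mk (TrL.c (I.pos (nat_lit 0) (nat_lit 0)) T0.l0
  (TrL.c (I.pos (nat_lit 0) (nat_lit 0)) T5.l1
  (TrL.c (I.pos (nat_lit 0) (nat_lit 124588530)) T0.l13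
  (TrL.c (I.pos (nat_lit 0) (nat_lit 96881482)) T5.l2
  (TrL.c (I.pos (nat_lit 0) (nat_lit 0)) (xk T5.l10 (xb T5.l10 T5.l10))
  (TrL.c (I.pos (nat_lit 0) (nat_lit 0)) T0.l2
  (TrL.c (I.mix (nat_lit 17240550) (nat_lit 96881482)) T5.l4
  (TrL.c (I.mix (nat_lit 17240550) (nat_lit 71940500)) T0.l3
  TrL.n)))))))) (by decide +kernel)
theorem bx2_19 : BoxOK sI cl9 cl7 cl13 t0 t5 b2_19 :=
  box_mk (TrL.c (I.pos (nat_lit 0) (nat_lit 0)) T0.l0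
  (TrL.c (I.pos (nat_lit 0) (nat_lit 0)) T5.l1
  (TrL.c (I.pos (nat_lit 0) (nat_lit 124588530)) (xR T0.l1 T0.l1)
  (TrL.c (I.pos (nat_lit 0) (nat_lit 96881482)) (xR T5.l2 T5.l2)
  (TrL.c (I.pos (nat_lit 0) (nat_lit 0)) (xk T5.l3 T5.l0)
  (TrL.c (I.pos (nat_lit 0) (nat_lit 0)) T0.l2
  (TrL.c (I.mix (nat_lit 17240550) (nat_lit 96881482)) T5.l4
  (TrL.c (I.mix (nat_lit 17240550) (nat_lit 71940500)) T0.l3
  TrL.n)))))))) (by decide +kernel)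
theorem bx2_20 : BoxOK sI cl9 cl7 cl13 t0 t5 b2_20 :=
  box_mk (TrL.c (I.pos (nat_lit 0) (nat_lit 0)) (xa (xb (xa T0.l0 T0.l0) (xa T0.l0 T0.l0)) (xb T0.l0 (xa T0.l0 T0.l0)))
  (TrL.c (I.pos (nat_lit 0) (nat_lit 0)) T5.l1
  (TrL.c (I.pos (nat_lit 0) (nat_lit 124588530)) (xR T0.l1 (xR T0.l1 T0.l1))
  (TrL.c (I.pos (nat_lit 0) (nat_lit 96881482)) (xR T5.l2 (xR T5.l2 T5.l2))
  (TrL.c (I.pos (nat_lit 0) (nat_lit 0)) (xk (xa T5.l3 (xb T5.l3 (xk (xb T5.l3 T5.l3) (xb T5.l10 (xs T5.l3 T5.l3))))) (xa (xb T5.l3 T5.l3) (xb T5.l3 (xb (xs T5.l3 T5.l3) (xs (xa T5.l3 T5.l3) (xa T5.l10 (xk T5.l10 (xe T5.l3 T5.l3))))))))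
  (TrL.c (I.pos (nat_lit 0) (nat_lit 0)) T0.l2
  (TrL.c (I.mix (nat_lit 17240550) (nat_lit 96881482)) (xR T5.l4 (xR T5.l4 T5.l4))
  (TrL.c (I.mix (nat_lit 17240550) (nat_lit 71940500)) (xR T0.l3 T0.l3)
  TrL.n)))))))) (by decide +kernel)
theorem bx2_21 : BoxOK sI cl9 cl7 cl13 t0 t5 b2_21 :=
  box_mk (TrL.c (I.pos (nat_lit 0) (nat_lit 0)) (xa (xb T0.l0 (xa T0.l0 T0.l0)) (xb (xa T0.l0 T0.l0) (xa (xb T0.l0 T0.l0) (xb T0.l0 T0.l0))))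
  (TrL.c (I.pos (nat_lit 0) (nat_lit 0)) (xa T5.l1 T5.l1)
  (TrL.c (I.pos (nat_lit 0) (nat_lit 124588530)) (xR T0.l1 T0.l13)
  (TrL.c (I.pos (nat_lit 0) (nat_lit 96881482)) (xR T5.l2 (xR T5.l2 T5.l2))
  (TrL.c (I.pos (nat_lit 0) (nat_lit 0)) (xa (xb (xk (xa (xb T5.l3 T5.l3) (xb (xk T5.l3 T5.l3) T5.l3)) (xa T5.l0 (xb (xk T5.l3 T5.l3) T5.l3))) (xk (xa T5.l3 T5.l3) T5.l3)) (xb (xk (xa (xb (xk T5.l3 T5.l3) T5.l3) (xb (xk T5.l3 T5.l3) (xk T5.l3 T5.l3))) (xb (xa (xk T5.l3 T5.l3) (xk T5.l3 T5.l3)) (xa T5.l3 (xk T5.l3 T5.l3)))) (xk (xa (xb T5.l3 T5.l3) (xb (xk T5.l3 T5.l3) (xk T5.l3 T5.l3))) (xa (xb T5.l3 T5.l3) (xb (xk T5.l3 T5.l3) (xk T5.l3 T5.l3))))))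
  (TrL.c (I.pos (nat_lit 0) (nat_lit 0)) (xk (xb T0.l2 T0.l2) (xa T0.l2 T0.l2))
  (TrL.c (I.mix (nat_lit 17240550) (nat_lit 96881482)) (xR T5.l4 (xR T5.l4 (xR T5.l4 (xR T5.l4 T5.l4))))
  (TrL.c (I.mix (nat_lit 17240550) (nat_lit 71940500)) (xR T0.l3 (xR T0.l3 T0.l3))
  TrL.n)))))))) (by decide +kernel)
theorem sv2 : StarV sI cl9 cl7 cl13 t0 t5 t2 :=
  (bt_n (bt_n (bt_n (bt_n (bt_b bx2_0) (bt_b bx2_1)) (bt_n (bt_b bx2_2) (bt_n (bt_b bx2_3) (bt_b bx2_4)))) (bt_n (bt_n (bt_b bx2_5) (bt_n (bt_b bx2_6) (bt_b bx2_7))) (bt_n (bt_b bx2_8) (bt_n (bt_b bx2_9) (bt_b bx2_10))))) (bt_n (bt_n (bt_n (bt_b bx2_11) (bt_b bx2_12)) (bt_n (bt_b bx2_13) (bt_n (bt_b bx2_14) (bt_b bx2_15)))) (bt_n (bt_n (bt_b bx2_16) (bt_n (bt_b bx2_17) (bt_b bx2_18))) (bt_n (bt_b bx2_19) (bt_n (bt_b bx2_20) (bt_b bx2_21))))))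
def S2 : StarD := StarD.mk cl9 cl7 cl13 0 5 t2
theorem bx3_0 : BoxOK sI cl9 cl13 cl7 t5 t0 b3_0 :=
  box_mk (TrL.c (I.pos (nat_lit 0) (nat_lit 0)) (xa (xb (xa (xb T5.l17 (xa T5.l0 T5.l0)) (xb T5.l0 (xa T5.l0 T5.l0))) (xa (xb (xa (xc T5.l0 T5.l0) T5.l0) (xa (xc T5.l0 T5.l0) (xc T5.l0 T5.l0))) (xb (xa T5.l0 T5.l0) (xa (xs T5.l0 T5.l0) T5.l0)))) (xa (xb (xb T5.l0 T5.l0) (xb (xa T5.l0 T5.l0) (xa T5.l0 (xs T5.l0 T5.l0)))) (xb (xb T5.l0 T5.l0) (xb (xa T5.l0 T5.l0) (xa (xs T5.l0 T5.l0) (xs T5.l0 T5.l0))))))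
  (TrL.c (I.pos (nat_lit 0) (nat_lit 0)) (xa (xk (xb T0.l10 T0.l10) (xb T0.l10 T0.l10)) (xk T0.l10 T0.l10))
  (TrL.c (I.pos (nat_lit 0) (nat_lit 124588530)) (xR T5.l12 (xR T5.l12 (xR T5.l12 (xa T5.l12 T5.l12))))
  (TrL.c (I.pos (nat_lit 0) (nat_lit 96881482)) (xR T0.l11 (xR T0.l11 (xR T0.l11 T0.l11)))
  (TrL.c (I.pos (nat_lit 0) (nat_lit 0)) (xa (xk (xb T0.l17 T0.l12) (xb T0.l17 T0.l12)) (xb (xk (xa T0.l12 (xk (xb T0.l12 T0.l12) (xb T0.l12 T0.l12))) (xa T0.l12 (xb (xk T0.l12 T0.l12) T0.l12))) (xk (xa (xb T0.l17 T0.l12) (xk (xb T0.l12 (xs T0.l12 (xb T0.l12 T0.l12))) (xb T0.l12 (xs T0.l12 (xb T0.l12 (xa T0.l17 T0.l12)))))) (xa (xb T0.l17 (xs T0.l17 T0.l17)) (xb (xk T0.l12 T0.l12) (xk (xs T0.l12 (xa T0.l17 (xb T0.l12 (xd T0.l17 T0.l17)))) (xs (xa T0.l17 T0.l12) (xa T0.l17 (xb T0.l17 (xd T0.l17 T0.l17))))))))))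
  (TrL.c (I.pos (nat_lit 0) (nat_lit 0)) (xa T5.l13 T5.l13)
  (TrL.c (I.mix (nat_lit 17240550) (nat_lit 96881482)) (xR T0.l13 (xR T0.l13 (xR T0.l13 T0.l13)))
  (TrL.c (I.mix (nat_lit 17240550) (nat_lit 71940500)) (xR T5.l14 (xR T5.l14 T5.l14))
  TrL.n)))))))) (by decide +kernel)
theorem bx3_1 : BoxOK sI cl9 cl13 cl7 t5 t0 b3_1 :=
  box_mk (TrL.c (I.pos (nat_lit 0) (nat_lit 0)) (xa (xb (xa (xb T5.l15 T5.l15) T5.l0) (xa (xb T5.l15 T5.l15) T5.l0)) (xb T5.l0 T5.l0))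
  (TrL.c (I.pos (nat_lit 0) (nat_lit 0)) (xa T0.l10 T0.l10)
  (TrL.c (I.pos (nat_lit 0) (nat_lit 124588530)) T5.l4
  (TrL.c (I.pos (nat_lit 0) (nat_lit 96881482)) T0.l11
  (TrL.c (I.pos (nat_lit 0) (nat_lit 0)) (xa (xb (xk (xa T0.l15 T0.l15) (xa T0.l15 T0.l15)) (xk T0.l15 T0.l15)) (xb (xk (xa T0.l15 T0.l17) (xa T0.l15 (xb T0.l17 T0.l15))) T0.l17))
  (TrL.c (I.pos (nat_lit 0) (nat_lit 0)) T5.l13
  (TrL.c (I.mix (nat_lit 17240550) (nat_lit 96881482)) (xR T0.l13 (xR T0.l13 T0.l13))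
  (TrL.c (I.mix (nat_lit 17240550) (nat_lit 71940500)) T5.l2
  TrL.n)))))))) (by decide +kernel)
theorem bx3_2 : BoxOK sI cl9 cl13 cl7 t5 t0 b3_2 :=
  box_mk (TrL.c (I.pos (nat_lit 0) (nat_lit 0)) (xa (xa (xb (xa (xb T5.l16 T5.l16) T5.l16) T5.l18) T5.l18) (xa T5.l18 T5.l18))
  (TrL.c (I.pos (nat_lit 0) (nat_lit 0)) (xa T0.l10 T0.l10)
  (TrL.c (I.pos (nat_lit 0) (nat_lit 124588530)) T5.l12
  (TrL.c (I.pos (nat_lit 0) (nat_lit 96881482)) (xR T0.l11 T0.l11)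
  (TrL.c (I.pos (nat_lit 0) (nat_lit 0)) (xa (xa T0.l16 T0.l16) (xa T0.l16 T0.l18))
  (TrL.c (I.pos (nat_lit 0) (nat_lit 0)) T5.l13
  (TrL.c (I.mix (nat_lit 17240550) (nat_lit 96881482)) T0.l13
  (TrL.c (I.mix (nat_lit 17240550) (nat_lit 71940500)) T5.l2
  TrL.n)))))))) (by decide +kernel)
theorem bx3_3 : BoxOK sI cl9 cl13 cl7 t5 t0 b3_3 :=
  box_mk (TrL.c (I.pos (nat_lit 0) (nat_lit 0)) (xb (xa (xb (xa T5.l17 T5.l17) (xa T5.l17 T5.l17)) (xb T5.l17 T5.l17)) (xa (xb (xa T5.l17 T5.l17) (xa (xs T5.l17 (xb T5.l17 T5.l17)) (xs T5.l17 (xb T5.l17 T5.l17)))) (xb (xa T5.l17 T5.l17) (xa (xs T5.l17 T5.l17) (xs T5.l17 T5.l17)))))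
  (TrL.c (I.pos (nat_lit 0) (nat_lit 0)) (xb T0.l10 (xk T0.l10 T0.l10))
  (TrL.c (I.pos (nat_lit 0) (nat_lit 124588530)) (xR T5.l12 (xR T5.l12 (xR T5.l12 T5.l12)))
  (TrL.c (I.pos (nat_lit 0) (nat_lit 96881482)) (xR T0.l11 (xR T0.l11 (xR T0.l11 T0.l11)))
  (TrL.c (I.pos (nat_lit 0) (nat_lit 0)) (xb (xk (xa T0.l17 (xb T0.l17 T0.l17)) (xa T0.l17 (xb T0.l17 T0.l17))) (xk (xa T0.l17 (xb T0.l17 (xk T0.l17 T0.l17))) (xa T0.l17 (xb T0.l17 (xk T0.l17 T0.l17)))))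
  (TrL.c (I.pos (nat_lit 0) (nat_lit 0)) T5.l13
  (TrL.c (I.mix (nat_lit 17240550) (nat_lit 96881482)) (xR T0.l13 (xR T0.l13 (xR T0.l13 T0.l13)))
  (TrL.c (I.mix (nat_lit 17240550) (nat_lit 71940500)) (xR T5.l14 (xR T5.l14 T5.l14))
  TrL.n)))))))) (by decide +kernel)
theorem bx3_4 : BoxOK sI cl9 cl13 cl7 t5 t0 b3_4 :=
  box_mk (TrL.c (I.pos (nat_lit 0) (nat_lit 0)) (xa (xa (xb (xa (xb (xa T5.l18 T5.l18) T5.l18) T5.l18) (xa (xb T5.l18 (xa T5.l18 T5.l18)) (xb T5.l18 (xa T5.l18 T5.l18)))) (xb T5.l18 (xa T5.l18 T5.l18))) (xa (xb (xa T5.l18 T5.l18) (xa T5.l18 T5.l18)) (xb (xa T5.l18 T5.l20) (xa (xb T5.l18 T5.l18) (xb T5.l18 T5.l18)))))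
  (TrL.c (I.pos (nat_lit 0) (nat_lit 0)) (xa T0.l10 T0.l10)
  (TrL.c (I.pos (nat_lit 0) (nat_lit 124588530)) T5.l12
  (TrL.c (I.pos (nat_lit 0) (nat_lit 96881482)) (xR T0.l11 (xR T0.l11 T0.l11))
  (TrL.c (I.pos (nat_lit 0) (nat_lit 0)) (xa (xa T0.l10 (xb T0.l18 T0.l18)) (xa (xb T0.l18 T0.l18) (xk (xb T0.l15 T0.l17) (xb T0.l15 T0.l17))))
  (TrL.c (I.pos (nat_lit 0) (nat_lit 0)) T5.l13
  (TrL.c (I.mix (nat_lit 17240550) (nat_lit 96881482)) T0.l13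
  (TrL.c (I.mix (nat_lit 17240550) (nat_lit 71940500)) T5.l2
  TrL.n)))))))) (by decide +kernel)
theorem bx3_5 : BoxOK sI cl9 cl13 cl7 t5 t0 b3_5 :=
  box_mk (TrL.c (I.pos (nat_lit 0) (nat_lit 0)) (xa T5.l0 T5.l0)
  (TrL.c (I.pos (nat_lit 0) (nat_lit 0)) T0.l10
  (TrL.c (I.pos (nat_lit 0) (nat_lit 124588530)) (xR T5.l12 T5.l12)
  (TrL.c (I.pos (nat_lit 0) (nat_lit 96881482)) (xR T0.l11 T0.l11)
  (TrL.c (I.pos (nat_lit 0) (nat_lit 0)) (xk (xb (xa T0.l17 T0.l17) T0.l17) (xb (xa T0.l17 T0.l17) T0.l17))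
  (TrL.c (I.pos (nat_lit 0) (nat_lit 0)) T5.l13
  (TrL.c (I.mix (nat_lit 17240550) (nat_lit 96881482)) (xR T0.l13 (xR T0.l13 T0.l13))
  (TrL.c (I.mix (nat_lit 17240550) (nat_lit 71940500)) T5.l2
  TrL.n)))))))) (by decide +kernel)
theorem bx3_6 : BoxOK sI cl9 cl13 cl7 t5 t0 b3_6 :=
  box_mk (TrL.c (I.pos (nat_lit 0) (nat_lit 0)) T5.l0
  (TrL.c (I.pos (nat_lit 0) (nat_lit 0)) T0.l10
  (TrL.c (I.pos (nat_lit 0) (nat_lit 124588530)) T5.l4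
  (TrL.c (I.pos (nat_lit 0) (nat_lit 96881482)) T0.l11
  (TrL.c (I.pos (nat_lit 0) (nat_lit 0)) (xk T0.l17 T0.l17)
  (TrL.c (I.pos (nat_lit 0) (nat_lit 0)) T5.l13
  (TrL.c (I.mix (nat_lit 17240550) (nat_lit 96881482)) T0.l13
  (TrL.c (I.mix (nat_lit 17240550) (nat_lit 71940500)) T5.l14
  TrL.n)))))))) (by decide +kernel)
theorem bx3_7 : BoxOK sI cl9 cl13 cl7 t5 t0 b3_7 :=
  box_mk (TrL.c (I.pos (nat_lit 0) (nat_lit 0)) (xa (xb (xa T5.l17 T5.l17) (xa T5.l17 T5.l17)) (xb T5.l17 (xa T5.l17 T5.l17)))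
  (TrL.c (I.pos (nat_lit 0) (nat_lit 0)) (xk T0.l10 T0.l10)
  (TrL.c (I.pos (nat_lit 0) (nat_lit 124588530)) (xR T5.l12 (xR T5.l12 T5.l12))
  (TrL.c (I.pos (nat_lit 0) (nat_lit 96881482)) (xR T0.l11 (xR T0.l11 T0.l11))
  (TrL.c (I.pos (nat_lit 0) (nat_lit 0)) (xk (xb (xa T0.l17 (xk T0.l17 T0.l17)) T0.l17) (xb (xa T0.l17 T0.l17) T0.l17))
  (TrL.c (I.pos (nat_lit 0) (nat_lit 0)) T5.l13
  (TrL.c (I.mix (nat_lit 17240550) (nat_lit 96881482)) (xR T0.l13 (xR T0.l13 T0.l13))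
  (TrL.c (I.mix (nat_lit 17240550) (nat_lit 71940500)) (xR T5.l14 (xR T5.l14 T5.l2))
  TrL.n)))))))) (by decide +kernel)
theorem bx3_8 : BoxOK sI cl9 cl13 cl7 t5 t0 b3_8 :=
  box_mk (TrL.c (I.pos (nat_lit 0) (nat_lit 0)) T5.l0
  (TrL.c (I.pos (nat_lit 0) (nat_lit 0)) T0.l10
  (TrL.c (I.pos (nat_lit 0) (nat_lit 124588530)) T5.l4
  (TrL.c (I.pos (nat_lit 0) (nat_lit 96881482)) T0.l11
  (TrL.c (I.pos (nat_lit 0) (nat_lit 0)) (xk T0.l17 (xb T0.l17 T0.l17))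
  (TrL.c (I.pos (nat_lit 0) (nat_lit 0)) T5.l13
  (TrL.c (I.mix (nat_lit 17240550) (nat_lit 96881482)) T0.l13
  (TrL.c (I.mix (nat_lit 17240550) (nat_lit 71940500)) T5.l14
  TrL.n)))))))) (by decide +kernel)
theorem bx3_9 : BoxOK sI cl9 cl13 cl7 t5 t0 b3_9 :=
  box_mk (TrL.c (I.pos (nat_lit 0) (nat_lit 0)) T5.l0
  (TrL.c (I.pos (nat_lit 0) (nat_lit 0)) T0.l10
  (TrL.c (I.pos (nat_lit 0) (nat_lit 124588530)) T5.l4
  (TrL.c (I.pos (nat_lit 0) (nat_lit 96881482)) T0.l11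
  (TrL.c (I.pos (nat_lit 0) (nat_lit 0)) (xk T0.l17 T0.l17)
  (TrL.c (I.pos (nat_lit 0) (nat_lit 0)) T5.l13
  (TrL.c (I.mix (nat_lit 17240550) (nat_lit 96881482)) T0.l13
  (TrL.c (I.mix (nat_lit 17240550) (nat_lit 71940500)) T5.l14
  TrL.n)))))))) (by decide +kernel)
theorem bx3_10 : BoxOK sI cl9 cl13 cl7 t5 t0 b3_10 :=
  box_mk (TrL.c (I.pos (nat_lit 0) (nat_lit 0)) T5.l0
  (TrL.c (I.pos (nat_lit 0) (nat_lit 0)) T0.l10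
  (TrL.c (I.pos (nat_lit 0) (nat_lit 124588530)) T5.l4
  (TrL.c (I.pos (nat_lit 0) (nat_lit 96881482)) (xR T0.l11 T0.l11)
  (TrL.c (I.pos (nat_lit 0) (nat_lit 0)) (xk T0.l17 T0.l17)
  (TrL.c (I.pos (nat_lit 0) (nat_lit 0)) T5.l13
  (TrL.c (I.mix (nat_lit 17240550) (nat_lit 96881482)) (xR T0.l13 T0.l13)
  (TrL.c (I.mix (nat_lit 17240550) (nat_lit 71940500)) T5.l2
  TrL.n)))))))) (by decide +kernel)
theorem bx3_11 : BoxOK sI cl9 cl13 cl7 t5 t0 b3_11 :=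
  box_mk (TrL.c (I.pos (nat_lit 0) (nat_lit 0)) T5.l0
  (TrL.c (I.pos (nat_lit 0) (nat_lit 0)) T0.l10
  (TrL.c (I.pos (nat_lit 0) (nat_lit 124588530)) T5.l4
  (TrL.c (I.pos (nat_lit 0) (nat_lit 96881482)) T0.l11
  (TrL.c (I.pos (nat_lit 0) (nat_lit 0)) (xk T0.l17 T0.l17)
  (TrL.c (I.pos (nat_lit 0) (nat_lit 0)) T5.l13
  (TrL.c (I.mix (nat_lit 17240550) (nat_lit 96881482)) T0.l13
  (TrL.c (I.mix (nat_lit 17240550) (nat_lit 71940500)) T5.l14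
  TrL.n)))))))) (by decide +kernel)
theorem bx3_12 : BoxOK sI cl9 cl13 cl7 t5 t0 b3_12 :=
  box_mk (TrL.c (I.pos (nat_lit 0) (nat_lit 0)) (xa T5.l18 (xa T5.l18 (xb T5.l19 T5.l19)))
  (TrL.c (I.pos (nat_lit 0) (nat_lit 0)) T0.l10
  (TrL.c (I.pos (nat_lit 0) (nat_lit 124588530)) T5.l12
  (TrL.c (I.pos (nat_lit 0) (nat_lit 96881482)) T0.l11
  (TrL.c (I.pos (nat_lit 0) (nat_lit 0)) (xa T0.l18 (xk T0.l19 T0.l19))
  (TrL.c (I.pos (nat_lit 0) (nat_lit 0)) T5.l13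
  (TrL.c (I.mix (nat_lit 17240550) (nat_lit 96881482)) T0.l13
  (TrL.c (I.mix (nat_lit 17240550) (nat_lit 71940500)) T5.l14
  TrL.n)))))))) (by decide +kernel)
theorem bx3_13 : BoxOK sI cl9 cl13 cl7 t5 t0 b3_13 :=
  box_mk (TrL.c (I.pos (nat_lit 0) (nat_lit 0)) (xb (xa (xb T5.l20 T5.l20) T5.l0) (xa (xb T5.l20 (xa (xb T5.l20 T5.l20) T5.l20)) T5.l0))
  (TrL.c (I.pos (nat_lit 0) (nat_lit 0)) T0.l10
  (TrL.c (I.pos (nat_lit 0) (nat_lit 124588530)) T5.l12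
  (TrL.c (I.pos (nat_lit 0) (nat_lit 96881482)) T0.l11
  (TrL.c (I.pos (nat_lit 0) (nat_lit 0)) (xb (xk (xa T0.l15 T0.l15) (xa T0.l15 T0.l15)) (xk (xa T0.l20 T0.l15) T0.l15))
  (TrL.c (I.pos (nat_lit 0) (nat_lit 0)) T5.l13
  (TrL.c (I.mix (nat_lit 17240550) (nat_lit 96881482)) (xR T0.l13 T0.l13)
  (TrL.c (I.mix (nat_lit 17240550) (nat_lit 71940500)) T5.l2
  TrL.n)))))))) (by decide +kernel)
theorem bx3_14 : BoxOK sI cl9 cl13 cl7 t5 t0 b3_14 :=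
  box_mk (TrL.c (I.pos (nat_lit 0) (nat_lit 0)) T5.l18
  (TrL.c (I.pos (nat_lit 0) (nat_lit 0)) T0.l10
  (TrL.c (I.pos (nat_lit 0) (nat_lit 124588530)) T5.l12
  (TrL.c (I.pos (nat_lit 0) (nat_lit 96881482)) T0.l11
  (TrL.c (I.pos (nat_lit 0) (nat_lit 0)) T0.l16
  (TrL.c (I.pos (nat_lit 0) (nat_lit 0)) T5.l13
  (TrL.c (I.mix (nat_lit 17240550) (nat_lit 96881482)) T0.l13
  (TrL.c (I.mix (nat_lit 17240550) (nat_lit 71940500)) T5.l2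
  TrL.n)))))))) (by decide +kernel)
theorem bx3_15 : BoxOK sI cl9 cl13 cl7 t5 t0 b3_15 :=
  box_mk (TrL.c (I.pos (nat_lit 0) (nat_lit 0)) (xa (xa T5.l0 T5.l0) T5.l0)
  (TrL.c (I.pos (nat_lit 0) (nat_lit 0)) T0.l10
  (TrL.c (I.pos (nat_lit 0) (nat_lit 124588530)) (xR T5.l12 T5.l12)
  (TrL.c (I.pos (nat_lit 0) (nat_lit 96881482)) (xR T0.l11 T0.l11)
  (TrL.c (I.pos (nat_lit 0) (nat_lit 0)) (xa (xk T0.l12 T0.l12) (xk T0.l12 T0.l12))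
  (TrL.c (I.pos (nat_lit 0) (nat_lit 0)) T5.l13
  (TrL.c (I.mix (nat_lit 17240550) (nat_lit 96881482)) (xR T0.l13 T0.l13)
  (TrL.c (I.mix (nat_lit 17240550) (nat_lit 71940500)) T5.l2
  TrL.n)))))))) (by decide +kernel)
theorem bx3_16 : BoxOK sI cl9 cl13 cl7 t5 t0 b3_16 :=
  box_mk (TrL.c (I.pos (nat_lit 0) (nat_lit 0)) (xa T5.l0 T5.l0)
  (TrL.c (I.pos (nat_lit 0) (nat_lit 0)) T0.l10
  (TrL.c (I.pos (nat_lit 0) (nat_lit 124588530)) (xR T5.l12 T5.l12)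
  (TrL.c (I.pos (nat_lit 0) (nat_lit 96881482)) (xR T0.l11 T0.l11)
  (TrL.c (I.pos (nat_lit 0) (nat_lit 0)) (xk (xa T0.l12 (xb (xa T0.l12 T0.l12) T0.l12)) (xa T0.l12 (xb (xa T0.l12 (xk T0.l12 T0.l12)) T0.l12)))
  (TrL.c (I.pos (nat_lit 0) (nat_lit 0)) T5.l13
  (TrL.c (I.mix (nat_lit 17240550) (nat_lit 96881482)) (xR T0.l13 T0.l13)
  (TrL.c (I.mix (nat_lit 17240550) (nat_lit 71940500)) T5.l2
  TrL.n)))))))) (by decide +kernel)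
theorem bx3_17 : BoxOK sI cl9 cl13 cl7 t5 t0 b3_17 :=
  box_mk (TrL.c (I.pos (nat_lit 0) (nat_lit 0)) (xa (xb (xa T5.l0 T5.l0) (xa (xb T5.l0 T5.l0) (xb T5.l0 T5.l0))) (xb (xa T5.l0 T5.l0) (xa (xb T5.l0 T5.l0) (xs T5.l0 (xb T5.l0 T5.l0)))))
  (TrL.c (I.pos (nat_lit 0) (nat_lit 0)) (xk T0.l10 T0.l10)
  (TrL.c (I.pos (nat_lit 0) (nat_lit 124588530)) (xR T5.l12 (xR T5.l12 (xR T5.l12 T5.l12)))
  (TrL.c (I.pos (nat_lit 0) (nat_lit 96881482)) (xR T0.l11 (xR T0.l11 T0.l11))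
  (TrL.c (I.pos (nat_lit 0) (nat_lit 0)) (xk (xa (xb T0.l12 T0.l12) (xb (xk T0.l12 T0.l12) (xk T0.l12 T0.l12))) (xa (xb T0.l12 T0.l12) (xb (xa T0.l12 T0.l12) (xa T0.l12 (xb T0.l12 T0.l12)))))
  (TrL.c (I.pos (nat_lit 0) (nat_lit 0)) T5.l13
  (TrL.c (I.mix (nat_lit 17240550) (nat_lit 96881482)) (xR T0.l13 (xR T0.l13 T0.l13))
  (TrL.c (I.mix (nat_lit 17240550) (nat_lit 71940500)) (xR T5.l14 T5.l14)
  TrL.n)))))))) (by decide +kernel)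
theorem bx3_18 : BoxOK sI cl9 cl13 cl7 t5 t0 b3_18 :=
  box_mk (TrL.c (I.pos (nat_lit 0) (nat_lit 0)) (xa (xb (xa T5.l0 T5.l0) (xa T5.l0 (xb T5.l0 T5.l0))) (xb (xa T5.l0 T5.l0) (xa (xb T5.l0 T5.l0) (xb T5.l0 T5.l0))))
  (TrL.c (I.pos (nat_lit 0) (nat_lit 0)) (xa (xb T0.l10 T0.l10) (xk T0.l10 T0.l10))
  (TrL.c (I.pos (nat_lit 0) (nat_lit 124588530)) (xR T5.l12 (xR T5.l12 T5.l4))
  (TrL.c (I.pos (nat_lit 0) (nat_lit 96881482)) (xR T0.l11 (xR T0.l11 T0.l3))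
  (TrL.c (I.pos (nat_lit 0) (nat_lit 0)) (xa (xb (xk (xa (xb T0.l12 T0.l12) (xb T0.l12 T0.l12)) (xa T0.l12 (xb T0.l12 T0.l12))) (xk T0.l12 T0.l12)) (xb (xk (xa (xb (xk T0.l12 T0.l12) T0.l12) (xb (xk T0.l12 T0.l12) (xk T0.l12 T0.l12))) (xa (xb (xk T0.l12 T0.l12) T0.l12) (xb (xk T0.l12 T0.l12) T0.l12))) (xk (xa (xb T0.l12 T0.l12) (xb (xk T0.l12 T0.l12) (xk T0.l12 T0.l12))) (xa (xb T0.l12 T0.l12) (xb (xk T0.l12 T0.l12) (xk T0.l12 T0.l12))))))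
  (TrL.c (I.pos (nat_lit 0) (nat_lit 0)) (xk (xa T5.l13 T5.l13) (xa T5.l13 T5.l13))
  (TrL.c (I.mix (nat_lit 17240550) (nat_lit 96881482)) (xR T0.l13 (xR T0.l13 (xR T0.l13 T0.l13)))
  (TrL.c (I.mix (nat_lit 17240550) (nat_lit 71940500)) (xR T5.l14 (xR T5.l14 T5.l2))
  TrL.n)))))))) (by decide +kernel)
theorem bx3_19 : BoxOK sI cl9 cl13 cl7 t5 t0 b3_19 :=
  box_mk (TrL.c (I.pos (nat_lit 0) (nat_lit 0)) T5.l0
  (TrL.c (I.pos (nat_lit 0) (nat_lit 0)) T0.l10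
  (TrL.c (I.pos (nat_lit 0) (nat_lit 124588530)) (xR T5.l12 T5.l12)
  (TrL.c (I.pos (nat_lit 0) (nat_lit 96881482)) (xR T0.l11 T0.l11)
  (TrL.c (I.pos (nat_lit 0) (nat_lit 0)) T0.l12
  (TrL.c (I.pos (nat_lit 0) (nat_lit 0)) T5.l13
  (TrL.c (I.mix (nat_lit 17240550) (nat_lit 96881482)) (xR T0.l13 T0.l13)
  (TrL.c (I.mix (nat_lit 17240550) (nat_lit 71940500)) T5.l2
  TrL.n)))))))) (by decide +kernel)
theorem bx3_20 : BoxOK sI cl9 cl13 cl7 t5 t0 b3_20 :=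
  box_mk (TrL.c (I.pos (nat_lit 0) (nat_lit 0)) (xa T5.l0 T5.l0)
  (TrL.c (I.pos (nat_lit 0) (nat_lit 0)) T0.l10
  (TrL.c (I.pos (nat_lit 0) (nat_lit 124588530)) (xR T5.l12 T5.l12)
  (TrL.c (I.pos (nat_lit 0) (nat_lit 96881482)) (xR T0.l11 T0.l11)
  (TrL.c (I.pos (nat_lit 0) (nat_lit 0)) (xk T0.l12 T0.l12)
  (TrL.c (I.pos (nat_lit 0) (nat_lit 0)) T5.l13
  (TrL.c (I.mix (nat_lit 17240550) (nat_lit 96881482)) (xR T0.l13 T0.l13)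
  (TrL.c (I.mix (nat_lit 17240550) (nat_lit 71940500)) T5.l2
  TrL.n)))))))) (by decide +kernel)
theorem bx3_21 : BoxOK sI cl9 cl13 cl7 t5 t0 b3_21 :=
  box_mk (TrL.c (I.pos (nat_lit 0) (nat_lit 0)) T5.l0
  (TrL.c (I.pos (nat_lit 0) (nat_lit 0)) T0.l10
  (TrL.c (I.pos (nat_lit 0) (nat_lit 124588530)) (xR T5.l12 T5.l12)
  (TrL.c (I.pos (nat_lit 0) (nat_lit 96881482)) (xR T0.l11 T0.l11)
  (TrL.c (I.pos (nat_lit 0) (nat_lit 0)) (xk T0.l12 T0.l12)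
  (TrL.c (I.pos (nat_lit 0) (nat_lit 0)) T5.l13
  (TrL.c (I.mix (nat_lit 17240550) (nat_lit 96881482)) (xR T0.l13 T0.l13)
  (TrL.c (I.mix (nat_lit 17240550) (nat_lit 71940500)) T5.l2
  TrL.n)))))))) (by decide +kernel)
theorem sv3 : StarV sI cl9 cl13 cl7 t5 t0 t3 :=
  (bt_n (bt_n (bt_n (bt_n (bt_b bx3_0) (bt_b bx3_1)) (bt_n (bt_b bx3_2) (bt_n (bt_b bx3_3) (bt_b bx3_4)))) (bt_n (bt_n (bt_b bx3_5) (bt_n (bt_b bx3_6) (bt_b bx3_7))) (bt_n (bt_b bx3_8) (bt_n (bt_b bx3_9) (bt_b bx3_10))))) (bt_n (bt_n (bt_n (bt_b bx3_11) (bt_b bx3_12)) (bt_n (bt_b bx3_13) (bt_n (bt_b bx3_14) (bt_b bx3_15)))) (bt_n (bt_n (bt_b bx3_16) (bt_n (bt_b bx3_17) (bt_b bx3_18))) (bt_n (bt_b bx3_19) (bt_n (bt_b bx3_20) (bt_b bx3_21))))))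
def S3 : StarD := StarD.mk cl9 cl13 cl7 5 0 t3
theorem bx4_0 : BoxOK sI cl13 cl7 cl9 t1 t3 b4_0 :=
  box_mk (TrL.c (I.pos (nat_lit 0) (nat_lit 0)) (xa (xb (xa (xb T1.l0 T1.l19) (xb T1.l0 T1.l0)) (xa (xb (xa T1.l0 T1.l0) (xa (xc T1.l0 T1.l0) (xc T1.l0 T1.l0))) (xb (xa T1.l0 T1.l0) (xa T1.l0 T1.l0)))) (xb (xa (xb T1.l0 T1.l0) T1.l0) (xa (xb T1.l0 (xa T1.l0 (xs T1.l0 T1.l0))) (xb T1.l0 (xa (xs T1.l0 T1.l0) (xs T1.l0 T1.l0))))))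
  (TrL.c (I.pos (nat_lit 0) (nat_lit 0)) (xa (xb T3.l1 T3.l1) (xk T3.l1 T3.l1))
  (TrL.c (I.pos (nat_lit 0) (nat_lit 134217730)) (xR T1.l1 (xR T1.l1 (xR T1.l1 (xR T1.l1 T1.l1))))
  (TrL.c (I.pos (nat_lit 0) (nat_lit 110514882)) (xR T3.l2 (xR T3.l2 (xR T3.l2 T3.l2)))
  (TrL.c (I.pos (nat_lit 0) (nat_lit 0)) (xa (xb (xk T3.l7 T3.l7) (xk T3.l3 (xa T3.l3 T3.l3))) (xb (xk (xa T3.l7 (xb (xk T3.l3 T3.l3) T3.l3)) (xa T3.l7 (xb T3.l7 T3.l3))) (xk (xa (xb T3.l3 (xk T3.l3 T3.l3)) (xb (xk T3.l3 T3.l3) (xk (xa T3.l3 (xs T3.l3 T3.l3)) (xa T3.l3 (xs T3.l3 (xb T3.l3 T3.l3)))))) (xa (xb T3.l3 (xk T3.l3 (xa T3.l3 T3.l3))) (xb (xk T3.l3 T3.l3) (xk (xa (xs T3.l3 T3.l3) (xs T3.l3 (xb T3.l3 T3.l3))) (xs (xa T3.l3 T3.l3) (xa T3.l3 (xb T3.l3 (xk T3.l3 T3.l3))))))))))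
  (TrL.c (I.pos (nat_lit 0) (nat_lit 0)) (xa T1.l2 (xk T1.l2 T1.l2))
  (TrL.c (I.mix (nat_lit 8088324) (nat_lit 110514882)) (xR T3.l4 (xR T3.l4 (xR T3.l4 T3.l4)))
  (TrL.c (I.mix (nat_lit 8088324) (nat_lit 89478486)) (xR T1.l3 (xR T1.l3 T1.l3))
  TrL.n)))))))) (by decide +kernel)
theorem bx4_1 : BoxOK sI cl13 cl7 cl9 t1 t3 b4_1 :=
  box_mk (TrL.c (I.pos (nat_lit 0) (nat_lit 0)) (xa (xb (xa T1.l4 T1.l4) (xa T1.l8 T1.l0)) (xb T1.l0 T1.l0))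
  (TrL.c (I.pos (nat_lit 0) (nat_lit 0)) T3.l1
  (TrL.c (I.pos (nat_lit 0) (nat_lit 134217730)) (xR T1.l1 T1.l1)
  (TrL.c (I.pos (nat_lit 0) (nat_lit 110514882)) (xR T3.l2 T3.l2)
  (TrL.c (I.pos (nat_lit 0) (nat_lit 0)) (xa (xk T3.l5 T3.l5) (xb (xk (xa T3.l5 (xb T3.l5 T3.l5)) (xa T3.l5 (xb T3.l5 T3.l5))) (xk T3.l7 T3.l7)))
  (TrL.c (I.pos (nat_lit 0) (nat_lit 0)) T1.l2
  (TrL.c (I.mix (nat_lit 8088324) (nat_lit 110514882)) (xR T3.l4 (xR T3.l4 T3.l4))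
  (TrL.c (I.mix (nat_lit 8088324) (nat_lit 89478486)) T1.l13
  TrL.n)))))))) (by decide +kernel)
theorem bx4_2 : BoxOK sI cl13 cl7 cl9 t1 t3 b4_2 :=
  box_mk (TrL.c (I.pos (nat_lit 0) (nat_lit 0)) (xa (xa (xb (xb T1.l6 T1.l5) T1.l6) T1.l6) (xa T1.l6 T1.l6))
  (TrL.c (I.pos (nat_lit 0) (nat_lit 0)) T3.l1
  (TrL.c (I.pos (nat_lit 0) (nat_lit 134217730)) T1.l1
  (TrL.c (I.pos (nat_lit 0) (nat_lit 110514882)) T3.l4
  (TrL.c (I.pos (nat_lit 0) (nat_lit 0)) (xa T3.l1 (xa T3.l6 T3.l6))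
  (TrL.c (I.pos (nat_lit 0) (nat_lit 0)) T1.l2
  (TrL.c (I.mix (nat_lit 8088324) (nat_lit 110514882)) T3.l4
  (TrL.c (I.mix (nat_lit 8088324) (nat_lit 89478486)) T1.l3
  TrL.n)))))))) (by decide +kernel)
theorem bx4_3 : BoxOK sI cl13 cl7 cl9 t1 t3 b4_3 :=
  box_mk (TrL.c (I.pos (nat_lit 0) (nat_lit 0)) (xb (xa (xb (xa T1.l19 T1.l19) (xa T1.l19 T1.l19)) (xb T1.l19 T1.l19)) (xa (xb (xa (xb T1.l19 T1.l19) T1.l19) (xa (xs T1.l19 (xb T1.l19 T1.l19)) (xs T1.l19 (xb T1.l19 T1.l19)))) (xb (xa T1.l19 T1.l19) (xa (xs T1.l19 T1.l19) (xs T1.l19 T1.l19)))))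
  (TrL.c (I.pos (nat_lit 0) (nat_lit 0)) (xb T3.l1 (xk T3.l1 T3.l1))
  (TrL.c (I.pos (nat_lit 0) (nat_lit 134217730)) (xR T1.l1 (xR T1.l1 (xR T1.l1 T1.l1)))
  (TrL.c (I.pos (nat_lit 0) (nat_lit 110514882)) (xR T3.l2 (xR T3.l2 (xR T3.l2 T3.l2)))
  (TrL.c (I.pos (nat_lit 0) (nat_lit 0)) (xb (xk (xa T3.l7 (xb T3.l7 T3.l7)) (xa T3.l7 (xb T3.l7 (xb T3.l3 T3.l3)))) (xk (xa (xb T3.l3 (xb T3.l3 (xs T3.l3 T3.l3))) (xb (xb T3.l3 T3.l3) (xk (xs (xb T3.l3 T3.l3) (xb T3.l3 (xa T3.l3 (xd T3.l3 T3.l3)))) (xs (xb T3.l3 (xa T3.l3 T3.l3)) (xb T3.l3 (xa T3.l3 (xd T3.l3 T3.l3))))))) (xa (xb T3.l3 (xb T3.l3 (xs T3.l3 (xa T3.l3 T3.l3)))) (xb (xb T3.l3 (xs T3.l3 T3.l3)) (xk (xa (xs T3.l3 (xb T3.l3 T3.l3)) (xs (xb T3.l3 T3.l3) (xb T3.l3 (xd (xe T3.l3 T3.l3) (xe T3.l3 T3.l3))))) (xa (xs T3.l3 (xb T3.l3 (xd T3.l3 T3.l3))) (xs (xb T3.l3 (xd T3.l3 T3.l3)) (xb T3.l3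 (xd (xe (xs T3.l3 T3.l3) (xs T3.l3 T3.l3)) (xe (xs T3.l3 T3.l3) (xs T3.l3 T3.l3)))))))))))
  (TrL.c (I.pos (nat_lit 0) (nat_lit 0)) T1.l2
  (TrL.c (I.mix (nat_lit 8088324) (nat_lit 110514882)) (xR T3.l4 (xR T3.l4 (xR T3.l4 T3.l4)))
  (TrL.c (I.mix (nat_lit 8088324) (nat_lit 89478486)) (xR T1.l3 (xR T1.l3 T1.l3))
  TrL.n)))))))) (by decide +kernel)
theorem bx4_4 : BoxOK sI cl13 cl7 cl9 t1 t3 b4_4 :=
  box_mk (TrL.c (I.pos (nat_lit 0) (nat_lit 0)) (xa (xa (xb (xb (xa (xa T1.l6 T1.l6) T1.l6) T1.l6) (xa (xb T1.l6 (xa T1.l6 T1.l6)) (xb T1.l6 T1.l6))) (xb T1.l6 (xa T1.l6 T1.l6))) (xa (xb T1.l6 T1.l6) (xb (xa T1.l6 T1.l6) (xa T1.l6 T1.l6))))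
  (TrL.c (I.pos (nat_lit 0) (nat_lit 0)) (xa T3.l1 T3.l1)
  (TrL.c (I.pos (nat_lit 0) (nat_lit 134217730)) T1.l1
  (TrL.c (I.pos (nat_lit 0) (nat_lit 110514882)) (xR T3.l2 (xR T3.l2 T3.l2))
  (TrL.c (I.pos (nat_lit 0) (nat_lit 0)) (xa T3.l1 (xa T3.l8 (xb (xk T3.l8 T3.l8) T3.l8)))
  (TrL.c (I.pos (nat_lit 0) (nat_lit 0)) T1.l2
  (TrL.c (I.mix (nat_lit 8088324) (nat_lit 110514882)) T3.l4
  (TrL.c (I.mix (nat_lit 8088324) (nat_lit 89478486)) T1.l3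
  TrL.n)))))))) (by decide +kernel)
theorem bx4_5 : BoxOK sI cl13 cl7 cl9 t1 t3 b4_5 :=
  box_mk (TrL.c (I.pos (nat_lit 0) (nat_lit 0)) (xa (xa (xb T1.l6 (xa T1.l6 T1.l6)) T1.l6) (xa (xb T1.l7 T1.l7) (xb (xa T1.l7 T1.l7) (xa T1.l7 (xb T1.l7 T1.l7)))))
  (TrL.c (I.pos (nat_lit 0) (nat_lit 0)) (xa T3.l1 T3.l1)
  (TrL.c (I.pos (nat_lit 0) (nat_lit 134217730)) T1.l1
  (TrL.c (I.pos (nat_lit 0) (nat_lit 110514882)) T3.l2
  (TrL.c (I.pos (nat_lit 0) (nat_lit 0)) (xa T3.l8 (xa T3.l9 (xk T3.l5 T3.l8)))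
  (TrL.c (I.pos (nat_lit 0) (nat_lit 0)) T1.l2
  (TrL.c (I.mix (nat_lit 8088324) (nat_lit 110514882)) T3.l4
  (TrL.c (I.mix (nat_lit 8088324) (nat_lit 89478486)) T1.l3
  TrL.n)))))))) (by decide +kernel)
theorem bx4_6 : BoxOK sI cl13 cl7 cl9 t1 t3 b4_6 :=
  box_mk (TrL.c (I.pos (nat_lit 0) (nat_lit 0)) (xb (xa (xb T1.l8 T1.l8) T1.l0) (xa (xb T1.l8 (xa T1.l8 T1.l8)) (xb T1.l8 T1.l8)))
  (TrL.c (I.pos (nat_lit 0) (nat_lit 0)) T3.l1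
  (TrL.c (I.pos (nat_lit 0) (nat_lit 134217730)) T1.l13
  (TrL.c (I.pos (nat_lit 0) (nat_lit 110514882)) T3.l2
  (TrL.c (I.pos (nat_lit 0) (nat_lit 0)) (xb (xk (xa T3.l10 T3.l5) (xa T3.l10 T3.l5)) (xk (xa T3.l10 T3.l10) T3.l5))
  (TrL.c (I.pos (nat_lit 0) (nat_lit 0)) T1.l2
  (TrL.c (I.mix (nat_lit 8088324) (nat_lit 110514882)) T3.l4
  (TrL.c (I.mix (nat_lit 8088324) (nat_lit 89478486)) T1.l3
  TrL.n)))))))) (by decide +kernel)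
theorem bx4_7 : BoxOK sI cl13 cl7 cl9 t1 t3 b4_7 :=
  box_mk (TrL.c (I.pos (nat_lit 0) (nat_lit 0)) (xa (xa (xb T1.l6 T1.l6) T1.l6) T1.l6)
  (TrL.c (I.pos (nat_lit 0) (nat_lit 0)) T3.l1
  (TrL.c (I.pos (nat_lit 0) (nat_lit 134217730)) T1.l1
  (TrL.c (I.pos (nat_lit 0) (nat_lit 110514882)) T3.l4
  (TrL.c (I.pos (nat_lit 0) (nat_lit 0)) T3.l1
  (TrL.c (I.pos (nat_lit 0) (nat_lit 0)) T1.l2
  (TrL.c (I.mix (nat_lit 8088324) (nat_lit 110514882)) T3.l4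
  (TrL.c (I.mix (nat_lit 8088324) (nat_lit 89478486)) T1.l3
  TrL.n)))))))) (by decide +kernel)
theorem bx4_8 : BoxOK sI cl13 cl7 cl9 t1 t3 b4_8 :=
  box_mk (TrL.c (I.pos (nat_lit 0) (nat_lit 0)) T1.l0
  (TrL.c (I.pos (nat_lit 0) (nat_lit 0)) T3.l1
  (TrL.c (I.pos (nat_lit 0) (nat_lit 134217730)) (xR T1.l1 T1.l1)
  (TrL.c (I.pos (nat_lit 0) (nat_lit 110514882)) (xR T3.l2 T3.l2)
  (TrL.c (I.pos (nat_lit 0) (nat_lit 0)) (xk T3.l7 T3.l7)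
  (TrL.c (I.pos (nat_lit 0) (nat_lit 0)) T1.l2
  (TrL.c (I.mix (nat_lit 8088324) (nat_lit 110514882)) T3.l4
  (TrL.c (I.mix (nat_lit 8088324) (nat_lit 89478486)) T1.l3
  TrL.n)))))))) (by decide +kernel)
theorem bx4_9 : BoxOK sI cl13 cl7 cl9 t1 t3 b4_9 :=
  box_mk (TrL.c (I.pos (nat_lit 0) (nat_lit 0)) T1.l19
  (TrL.c (I.pos (nat_lit 0) (nat_lit 0)) T3.l1
  (TrL.c (I.pos (nat_lit 0) (nat_lit 134217730)) (xR T1.l1 T1.l1)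
  (TrL.c (I.pos (nat_lit 0) (nat_lit 110514882)) (xR T3.l2 T3.l2)
  (TrL.c (I.pos (nat_lit 0) (nat_lit 0)) (xk T3.l7 T3.l7)
  (TrL.c (I.pos (nat_lit 0) (nat_lit 0)) T1.l2
  (TrL.c (I.mix (nat_lit 8088324) (nat_lit 110514882)) T3.l4
  (TrL.c (I.mix (nat_lit 8088324) (nat_lit 89478486)) T1.l3
  TrL.n)))))))) (by decide +kernel)
theorem bx4_10 : BoxOK sI cl13 cl7 cl9 t1 t3 b4_10 :=
  box_mk (TrL.c (I.pos (nat_lit 0) (nat_lit 0)) T1.l19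
  (TrL.c (I.pos (nat_lit 0) (nat_lit 0)) T3.l1
  (TrL.c (I.pos (nat_lit 0) (nat_lit 134217730)) (xR T1.l1 T1.l1)
  (TrL.c (I.pos (nat_lit 0) (nat_lit 110514882)) (xR T3.l2 T3.l2)
  (TrL.c (I.pos (nat_lit 0) (nat_lit 0)) (xk T3.l7 T3.l7)
  (TrL.c (I.pos (nat_lit 0) (nat_lit 0)) T1.l2
  (TrL.c (I.mix (nat_lit 8088324) (nat_lit 110514882)) T3.l4
  (TrL.c (I.mix (nat_lit 8088324) (nat_lit 89478486)) T1.l3
  TrL.n)))))))) (by decide +kernel)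
theorem bx4_11 : BoxOK sI cl13 cl7 cl9 t1 t3 b4_11 :=
  box_mk (TrL.c (I.pos (nat_lit 0) (nat_lit 0)) T1.l0
  (TrL.c (I.pos (nat_lit 0) (nat_lit 0)) T3.l1
  (TrL.c (I.pos (nat_lit 0) (nat_lit 134217730)) (xR T1.l1 T1.l1)
  (TrL.c (I.pos (nat_lit 0) (nat_lit 110514882)) (xR T3.l2 T3.l2)
  (TrL.c (I.pos (nat_lit 0) (nat_lit 0)) (xk (xb T3.l7 T3.l7) (xb T3.l7 T3.l7))
  (TrL.c (I.pos (nat_lit 0) (nat_lit 0)) T1.l2
  (TrL.c (I.mix (nat_lit 8088324) (nat_lit 110514882)) (xR T3.l4 T3.l4)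
  (TrL.c (I.mix (nat_lit 8088324) (nat_lit 89478486)) T1.l13
  TrL.n)))))))) (by decide +kernel)
theorem bx4_12 : BoxOK sI cl13 cl7 cl9 t1 t3 b4_12 :=
  box_mk (TrL.c (I.pos (nat_lit 0) (nat_lit 0)) T1.l19
  (TrL.c (I.pos (nat_lit 0) (nat_lit 0)) T3.l1
  (TrL.c (I.pos (nat_lit 0) (nat_lit 134217730)) (xR T1.l1 T1.l1)
  (TrL.c (I.pos (nat_lit 0) (nat_lit 110514882)) (xR T3.l2 T3.l2)
  (TrL.c (I.pos (nat_lit 0) (nat_lit 0)) (xk T3.l7 T3.l7)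
  (TrL.c (I.pos (nat_lit 0) (nat_lit 0)) T1.l2
  (TrL.c (I.mix (nat_lit 8088324) (nat_lit 110514882)) T3.l4
  (TrL.c (I.mix (nat_lit 8088324) (nat_lit 89478486)) T1.l3
  TrL.n)))))))) (by decide +kernel)
theorem bx4_13 : BoxOK sI cl13 cl7 cl9 t1 t3 b4_13 :=
  box_mk (TrL.c (I.pos (nat_lit 0) (nat_lit 0)) (xa (xb T1.l0 T1.l0) (xb T1.l0 T1.l0))
  (TrL.c (I.pos (nat_lit 0) (nat_lit 0)) (xa T3.l1 T3.l1)
  (TrL.c (I.pos (nat_lit 0) (nat_lit 134217730)) (xR T1.l1 T1.l13)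
  (TrL.c (I.pos (nat_lit 0) (nat_lit 110514882)) (xR T3.l2 T3.l2)
  (TrL.c (I.pos (nat_lit 0) (nat_lit 0)) (xa (xk T3.l3 (xb T3.l3 T3.l3)) (xk (xb (xa T3.l3 (xb T3.l3 T3.l3)) (xa T3.l3 (xk T3.l3 T3.l3))) (xb (xa T3.l3 (xb T3.l3 T3.l3)) (xa T3.l3 (xk T3.l3 T3.l3)))))
  (TrL.c (I.pos (nat_lit 0) (nat_lit 0)) (xa T1.l2 (xk T1.l2 T1.l2))
  (TrL.c (I.mix (nat_lit 8088324) (nat_lit 110514882)) (xR T3.l4 (xR T3.l4 T3.l4))
  (TrL.c (I.mix (nat_lit 8088324) (nat_lit 89478486)) T1.l3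
  TrL.n)))))))) (by decide +kernel)
theorem bx4_14 : BoxOK sI cl13 cl7 cl9 t1 t3 b4_14 :=
  box_mk (TrL.c (I.pos (nat_lit 0) (nat_lit 0)) (xa T1.l0 T1.l0)
  (TrL.c (I.pos (nat_lit 0) (nat_lit 0)) T3.l1
  (TrL.c (I.pos (nat_lit 0) (nat_lit 134217730)) (xR T1.l1 T1.l1)
  (TrL.c (I.pos (nat_lit 0) (nat_lit 110514882)) (xR T3.l2 T3.l2)
  (TrL.c (I.pos (nat_lit 0) (nat_lit 0)) (xk T3.l3 T3.l3)
  (TrL.c (I.pos (nat_lit 0) (nat_lit 0)) T1.l2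
  (TrL.c (I.mix (nat_lit 8088324) (nat_lit 110514882)) (xR T3.l4 T3.l4)
  (TrL.c (I.mix (nat_lit 8088324) (nat_lit 89478486)) T1.l3
  TrL.n)))))))) (by decide +kernel)
theorem bx4_15 : BoxOK sI cl13 cl7 cl9 t1 t3 b4_15 :=
  box_mk (TrL.c (I.pos (nat_lit 0) (nat_lit 0)) T1.l0
  (TrL.c (I.pos (nat_lit 0) (nat_lit 0)) T3.l1
  (TrL.c (I.pos (nat_lit 0) (nat_lit 134217730)) (xR T1.l1 T1.l1)
  (TrL.c (I.pos (nat_lit 0) (nat_lit 110514882)) (xR T3.l2 T3.l2)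
  (TrL.c (I.pos (nat_lit 0) (nat_lit 0)) (xk (xb T3.l0 T3.l3) T3.l0)
  (TrL.c (I.pos (nat_lit 0) (nat_lit 0)) T1.l2
  (TrL.c (I.mix (nat_lit 8088324) (nat_lit 110514882)) T3.l4
  (TrL.c (I.mix (nat_lit 8088324) (nat_lit 89478486)) T1.l3
  TrL.n)))))))) (by decide +kernel)
theorem bx4_16 : BoxOK sI cl13 cl7 cl9 t1 t3 b4_16 :=
  box_mk (TrL.c (I.pos (nat_lit 0) (nat_lit 0)) T1.l0
  (TrL.c (I.pos (nat_lit 0) (nat_lit 0)) T3.l1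
  (TrL.c (I.pos (nat_lit 0) (nat_lit 134217730)) (xR T1.l1 T1.l1)
  (TrL.c (I.pos (nat_lit 0) (nat_lit 110514882)) (xR T3.l2 T3.l2)
  (TrL.c (I.pos (nat_lit 0) (nat_lit 0)) (xk T3.l3 T3.l3)
  (TrL.c (I.pos (nat_lit 0) (nat_lit 0)) T1.l2
  (TrL.c (I.mix (nat_lit 8088324) (nat_lit 110514882)) T3.l4
  (TrL.c (I.mix (nat_lit 8088324) (nat_lit 89478486)) T1.l3
  TrL.n)))))))) (by decide +kernel)
theorem bx4_17 : BoxOK sI cl13 cl7 cl9 t1 t3 b4_17 :=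
  box_mk (TrL.c (I.pos (nat_lit 0) (nat_lit 0)) T1.l0
  (TrL.c (I.pos (nat_lit 0) (nat_lit 0)) T3.l1
  (TrL.c (I.pos (nat_lit 0) (nat_lit 134217730)) (xR T1.l1 T1.l1)
  (TrL.c (I.pos (nat_lit 0) (nat_lit 110514882)) (xR T3.l2 T3.l2)
  (TrL.c (I.pos (nat_lit 0) (nat_lit 0)) T3.l3
  (TrL.c (I.pos (nat_lit 0) (nat_lit 0)) T1.l2
  (TrL.c (I.mix (nat_lit 8088324) (nat_lit 110514882)) T3.l4
  (TrL.c (I.mix (nat_lit 8088324) (nat_lit 89478486)) T1.l3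
  TrL.n)))))))) (by decide +kernel)
theorem bx4_18 : BoxOK sI cl13 cl7 cl9 t1 t3 b4_18 :=
  box_mk (TrL.c (I.pos (nat_lit 0) (nat_lit 0)) (xa (xb T1.l0 (xa T1.l0 T1.l0)) (xb T1.l0 (xa T1.l0 T1.l0)))
  (TrL.c (I.pos (nat_lit 0) (nat_lit 0)) T3.l1
  (TrL.c (I.pos (nat_lit 0) (nat_lit 134217730)) (xR T1.l1 (xR T1.l1 T1.l1))
  (TrL.c (I.pos (nat_lit 0) (nat_lit 110514882)) (xR T3.l2 T3.l2)
  (TrL.c (I.pos (nat_lit 0) (nat_lit 0)) (xk (xa T3.l3 (xb T3.l3 (xb T3.l3 (xs T3.l3 T3.l3)))) (xa (xb T3.l3 T3.l3) (xb T3.l3 (xk (xb T3.l3 (xs T3.l3 T3.l3)) (xb T3.l3 (xs T3.l3 T3.l3))))))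
  (TrL.c (I.pos (nat_lit 0) (nat_lit 0)) T1.l2
  (TrL.c (I.mix (nat_lit 8088324) (nat_lit 110514882)) (xR T3.l4 T3.l4)
  (TrL.c (I.mix (nat_lit 8088324) (nat_lit 89478486)) (xR T1.l3 T1.l3)
  TrL.n)))))))) (by decide +kernel)
theorem bx4_19 : BoxOK sI cl13 cl7 cl9 t1 t3 b4_19 :=
  box_mk (TrL.c (I.pos (nat_lit 0) (nat_lit 0)) (xa (xb T1.l0 (xa T1.l0 (xb T1.l0 T1.l0))) (xb (xa T1.l0 T1.l0) (xa (xb T1.l0 T1.l0) (xb T1.l0 T1.l0))))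
  (TrL.c (I.pos (nat_lit 0) (nat_lit 0)) (xa T3.l1 T3.l1)
  (TrL.c (I.pos (nat_lit 0) (nat_lit 134217730)) (xR T1.l1 T1.l13)
  (TrL.c (I.pos (nat_lit 0) (nat_lit 110514882)) (xR T3.l2 (xR T3.l2 (xR T3.l2 T3.l2)))
  (TrL.c (I.pos (nat_lit 0) (nat_lit 0)) (xa (xb (xk (xa (xb T3.l3 T3.l3) (xb (xk T3.l3 T3.l3) T3.l3)) (xa (xb T3.l3 T3.l3) (xb (xk T3.l3 T3.l3) T3.l3))) (xk T3.l3 T3.l3)) (xb (xk (xa (xb (xk T3.l3 T3.l3) T3.l3) (xb (xk T3.l3 T3.l3) (xk T3.l3 T3.l3))) (xa (xb (xk T3.l3 T3.l3) T3.l3) (xb (xk T3.l3 T3.l3) T3.l3))) (xk (xa (xb T3.l3 T3.l3) (xb (xk T3.l3 T3.l3) (xk T3.l3 T3.l3))) (xa (xb T3.l3 T3.l3) (xb (xk T3.l3 T3.l3) (xk (xa T3.l3 T3.l3) (xa T3.l3 (xs T3.l3 T3.l3))))))))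
  (TrL.c (I.pos (nat_lit 0) (nat_lit 0)) (xk (xa T1.l2 T1.l2) (xa T1.l2 T1.l2))
  (TrL.c (I.mix (nat_lit 8088324) (nat_lit 110514882)) (xR T3.l4 (xR T3.l4 (xR T3.l4 (xR T3.l4 T3.l4))))
  (TrL.c (I.mix (nat_lit 8088324) (nat_lit 89478486)) (xR T1.l3 (xR T1.l3 T1.l3))
  TrL.n)))))))) (by decide +kernel)
theorem bx4_20 : BoxOK sI cl13 cl7 cl9 t1 t3 b4_20 :=
  box_mk (TrL.c (I.pos (nat_lit 0) (nat_lit 0)) (xa (xb T1.l19 T1.l19) (xb T1.l19 T1.l19))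
  (TrL.c (I.pos (nat_lit 0) (nat_lit 0)) T3.l1
  (TrL.c (I.pos (nat_lit 0) (nat_lit 134217730)) (xR T1.l1 T1.l1)
  (TrL.c (I.pos (nat_lit 0) (nat_lit 110514882)) (xR T3.l2 T3.l2)
  (TrL.c (I.pos (nat_lit 0) (nat_lit 0)) (xk (xb T3.l7 T3.l7) (xb T3.l7 T3.l7))
  (TrL.c (I.pos (nat_lit 0) (nat_lit 0)) T1.l2
  (TrL.c (I.mix (nat_lit 8088324) (nat_lit 110514882)) (xR T3.l4 (xR T3.l4 T3.l4))
  (TrL.c (I.mix (nat_lit 8088324) (nat_lit 89478486)) (xR T1.l3 T1.l3)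
  TrL.n)))))))) (by decide +kernel)
theorem bx4_21 : BoxOK sI cl13 cl7 cl9 t1 t3 b4_21 :=
  box_mk (TrL.c (I.pos (nat_lit 0) (nat_lit 0)) T1.l19
  (TrL.c (I.pos (nat_lit 0) (nat_lit 0)) T3.l1
  (TrL.c (I.pos (nat_lit 0) (nat_lit 134217730)) (xR T1.l1 T1.l1)
  (TrL.c (I.pos (nat_lit 0) (nat_lit 110514882)) (xR T3.l2 T3.l2)
  (TrL.c (I.pos (nat_lit 0) (nat_lit 0)) (xk T3.l7 T3.l7)
  (TrL.c (I.pos (nat_lit 0) (nat_lit 0)) T1.l2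
  (TrL.c (I.mix (nat_lit 8088324) (nat_lit 110514882)) T3.l4
  (TrL.c (I.mix (nat_lit 8088324) (nat_lit 89478486)) T1.l3
  TrL.n)))))))) (by decide +kernel)
theorem sv4 : StarV sI cl13 cl7 cl9 t1 t3 t4 :=
  (bt_n (bt_n (bt_n (bt_n (bt_b bx4_0) (bt_b bx4_1)) (bt_n (bt_b bx4_2) (bt_n (bt_b bx4_3) (bt_b bx4_4)))) (bt_n (bt_n (bt_b bx4_5) (bt_n (bt_b bx4_6) (bt_b bx4_7))) (bt_n (bt_b bx4_8) (bt_n (bt_b bx4_9) (bt_b bx4_10))))) (bt_n (bt_n (bt_n (bt_b bx4_11) (bt_b bx4_12)) (bt_n (bt_b bx4_13) (bt_n (bt_b bx4_14) (bt_b bx4_15)))) (bt_n (bt_n (bt_b bx4_16) (bt_n (bt_b bx4_17) (bt_b bx4_18))) (bt_n (bt_b bx4_19) (bt_n (bt_b bx4_20) (bt_b bx4_21))))))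
def S4 : StarD := StarD.mk cl13 cl7 cl9 1 3 t4
theorem bx5_0 : BoxOK sI cl13 cl9 cl7 t3 t1 b5_0 :=
  box_mk (TrL.c (I.pos (nat_lit 0) (nat_lit 0)) (xa (xb (xa (xb T3.l0 (xa T3.l0 T3.l0)) (xb T3.l0 T3.l0)) (xa (xb (xa T3.l0 T3.l0) (xa (xc T3.l0 T3.l0) (xc T3.l0 T3.l0))) (xb (xa T3.l0 T3.l0) (xa T3.l0 T3.l0)))) (xb (xa (xb T3.l0 T3.l0) (xb T3.l0 T3.l0)) (xa (xb (xa T3.l0 T3.l0) (xa T3.l0 T3.l0)) (xb T3.l0 (xa T3.l0 (xs T3.l0 T3.l0))))))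
  (TrL.c (I.pos (nat_lit 0) (nat_lit 0)) (xa (xk T1.l10 T1.l10) (xk T1.l10 T1.l10))
  (TrL.c (I.pos (nat_lit 0) (nat_lit 134217730)) (xR T3.l4 (xR T3.l4 (xR T3.l4 (xa T3.l12 T3.l12))))
  (TrL.c (I.pos (nat_lit 0) (nat_lit 110514882)) (xR T1.l3 (xR T1.l11 (xR T1.l11 T1.l11)))
  (TrL.c (I.pos (nat_lit 0) (nat_lit 0)) (xa (xk (xb T1.l16 T1.l12) (xb T1.l16 T1.l12)) (xb (xk (xa T1.l16 (xk (xb T1.l12 T1.l12) (xb T1.l12 T1.l12))) (xa T1.l16 (xk (xb T1.l12 T1.l12) (xb T1.l12 T1.l12)))) (xk (xa T1.l12 (xb (xk T1.l12 T1.l12) (xk T1.l12 (xa T1.l12 T1.l12)))) (xa (xk T1.l12 T1.l12) (xb T1.l12 (xk (xa T1.l12 (xs T1.l12 T1.l12)) (xa T1.l12 (xs T1.l12 (xb T1.l16 T1.l16)))))))))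
  (TrL.c (I.pos (nat_lit 0) (nat_lit 0)) (xa T3.l13 T3.l13)
  (TrL.c (I.mix (nat_lit 8088324) (nat_lit 110514882)) (xR T1.l13 (xR T1.l13 (xR T1.l13 T1.l13)))
  (TrL.c (I.mix (nat_lit 8088324) (nat_lit 89478486)) (xR T3.l2 (xR T3.l2 T3.l14))
  TrL.n)))))))) (by decide +kernel)
theorem bx5_1 : BoxOK sI cl13 cl9 cl7 t3 t1 b5_1 :=
  box_mk (TrL.c (I.pos (nat_lit 0) (nat_lit 0)) (xa (xb (xa T3.l15 T3.l15) (xa (xb T3.l15 T3.l15) T3.l15)) (xb T3.l0 T3.l0))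
  (TrL.c (I.pos (nat_lit 0) (nat_lit 0)) T1.l10
  (TrL.c (I.pos (nat_lit 0) (nat_lit 134217730)) (xR T3.l4 T3.l4)
  (TrL.c (I.pos (nat_lit 0) (nat_lit 110514882)) (xR T1.l1 T1.l11)
  (TrL.c (I.pos (nat_lit 0) (nat_lit 0)) (xa (xk (xb T1.l14 T1.l14) (xb T1.l14 T1.l14)) (xb (xk (xa T1.l14 (xb T1.l14 T1.l14)) (xa T1.l14 (xb T1.l14 T1.l14))) (xk T1.l16 T1.l16)))
  (TrL.c (I.pos (nat_lit 0) (nat_lit 0)) T3.l13
  (TrL.c (I.mix (nat_lit 8088324) (nat_lit 110514882)) (xR T1.l13 (xR T1.l13 (xR T1.l13 T1.l13)))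
  (TrL.c (I.mix (nat_lit 8088324) (nat_lit 89478486)) T3.l2
  TrL.n)))))))) (by decide +kernel)
theorem bx5_2 : BoxOK sI cl13 cl9 cl7 t3 t1 b5_2 :=
  box_mk (TrL.c (I.pos (nat_lit 0) (nat_lit 0)) (xa (xa (xb (xa (xb T3.l16 T3.l16) T3.l18) T3.l18) T3.l18) (xa T3.l18 T3.l18))
  (TrL.c (I.pos (nat_lit 0) (nat_lit 0)) T1.l10
  (TrL.c (I.pos (nat_lit 0) (nat_lit 134217730)) T3.l4
  (TrL.c (I.pos (nat_lit 0) (nat_lit 110514882)) T1.l13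
  (TrL.c (I.pos (nat_lit 0) (nat_lit 0)) (xa T1.l10 T1.l17)
  (TrL.c (I.pos (nat_lit 0) (nat_lit 0)) T3.l13
  (TrL.c (I.mix (nat_lit 8088324) (nat_lit 110514882)) T1.l13
  (TrL.c (I.mix (nat_lit 8088324) (nat_lit 89478486)) T3.l2
  TrL.n)))))))) (by decide +kernel)
theorem bx5_3 : BoxOK sI cl13 cl9 cl7 t3 t1 b5_3 :=
  box_mk (TrL.c (I.pos (nat_lit 0) (nat_lit 0)) (xb (xa (xb (xa T3.l17 T3.l17) (xa T3.l17 T3.l17)) (xb T3.l17 T3.l17)) (xa (xb (xa T3.l17 T3.l17) (xa (xs (xk T3.l17 T3.l17) (xk T3.l17 T3.l17)) (xs T3.l17 (xb T3.l17 T3.l17)))) (xb (xa T3.l17 T3.l17) (xa (xs T3.l17 (xk T3.l17 T3.l17)) (xs T3.l17 T3.l17)))))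
  (TrL.c (I.pos (nat_lit 0) (nat_lit 0)) (xb T1.l10 (xk T1.l10 T1.l10))
  (TrL.c (I.pos (nat_lit 0) (nat_lit 134217730)) (xR T3.l4 (xR T3.l4 (xR T3.l12 T3.l12)))
  (TrL.c (I.pos (nat_lit 0) (nat_lit 110514882)) (xR T1.l3 (xR T1.l11 (xR T1.l11 T1.l11)))
  (TrL.c (I.pos (nat_lit 0) (nat_lit 0)) (xb (xk (xa T1.l16 (xb T1.l16 T1.l16)) (xa T1.l16 (xb T1.l16 T1.l16))) (xk (xa (xb T1.l16 T1.l16) (xb T1.l16 (xb T1.l12 (xs T1.l16 (xk T1.l16 T1.l16))))) (xa (xb T1.l16 T1.l16) (xb T1.l16 (xb (xs T1.l16 T1.l16) (xs (xa T1.l16 T1.l16) (xa T1.l16 (xk T1.l16 T1.l16))))))))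
  (TrL.c (I.pos (nat_lit 0) (nat_lit 0)) T3.l13
  (TrL.c (I.mix (nat_lit 8088324) (nat_lit 110514882)) (xR T1.l13 (xR T1.l13 (xR T1.l13 T1.l13)))
  (TrL.c (I.mix (nat_lit 8088324) (nat_lit 89478486)) (xR T3.l2 (xR T3.l2 T3.l14))
  TrL.n)))))))) (by decide +kernel)
theorem bx5_4 : BoxOK sI cl13 cl9 cl7 t3 t1 b5_4 :=
  box_mk (TrL.c (I.pos (nat_lit 0) (nat_lit 0)) (xa (xa (xb (xa (xb (xa T3.l18 T3.l18) T3.l18) T3.l18) (xa (xb T3.l18 (xa T3.l18 T3.l18)) (xb T3.l18 (xa T3.l18 T3.l18)))) (xb T3.l18 (xa T3.l18 T3.l18))) (xa (xb (xa T3.l18 T3.l18) (xa T3.l18 T3.l18)) (xb (xa T3.l18 T3.l15) (xa (xb T3.l18 T3.l18) (xb T3.l18 T3.l18)))))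
  (TrL.c (I.pos (nat_lit 0) (nat_lit 0)) (xa T1.l10 T1.l10)
  (TrL.c (I.pos (nat_lit 0) (nat_lit 134217730)) (xR T3.l4 (xR T3.l4 T3.l12))
  (TrL.c (I.pos (nat_lit 0) (nat_lit 110514882)) (xR T1.l1 (xR T1.l11 T1.l11))
  (TrL.c (I.pos (nat_lit 0) (nat_lit 0)) (xa (xa T1.l17 T1.l17) (xa T1.l17 (xb (xk T1.l17 T1.l17) (xk T1.l17 T1.l17))))
  (TrL.c (I.pos (nat_lit 0) (nat_lit 0)) T3.l13
  (TrL.c (I.mix (nat_lit 8088324) (nat_lit 110514882)) T1.l13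
  (TrL.c (I.mix (nat_lit 8088324) (nat_lit 89478486)) T3.l2
  TrL.n)))))))) (by decide +kernel)
theorem bx5_5 : BoxOK sI cl13 cl9 cl7 t3 t1 b5_5 :=
  box_mk (TrL.c (I.pos (nat_lit 0) (nat_lit 0)) T3.l0
  (TrL.c (I.pos (nat_lit 0) (nat_lit 0)) T1.l10
  (TrL.c (I.pos (nat_lit 0) (nat_lit 134217730)) (xR T3.l4 T3.l4)
  (TrL.c (I.pos (nat_lit 0) (nat_lit 110514882)) (xR T1.l1 T1.l11)
  (TrL.c (I.pos (nat_lit 0) (nat_lit 0)) (xk T1.l16 T1.l16)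
  (TrL.c (I.pos (nat_lit 0) (nat_lit 0)) T3.l13
  (TrL.c (I.mix (nat_lit 8088324) (nat_lit 110514882)) T1.l13
  (TrL.c (I.mix (nat_lit 8088324) (nat_lit 89478486)) T3.l2
  TrL.n)))))))) (by decide +kernel)
theorem bx5_6 : BoxOK sI cl13 cl9 cl7 t3 t1 b5_6 :=
  box_mk (TrL.c (I.pos (nat_lit 0) (nat_lit 0)) T3.l0
  (TrL.c (I.pos (nat_lit 0) (nat_lit 0)) T1.l10
  (TrL.c (I.pos (nat_lit 0) (nat_lit 134217730)) (xR T3.l4 T3.l4)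
  (TrL.c (I.pos (nat_lit 0) (nat_lit 110514882)) (xR T1.l3 T1.l11)
  (TrL.c (I.pos (nat_lit 0) (nat_lit 0)) (xk T1.l16 T1.l16)
  (TrL.c (I.pos (nat_lit 0) (nat_lit 0)) T3.l13
  (TrL.c (I.mix (nat_lit 8088324) (nat_lit 110514882)) (xR T1.l13 T1.l13)
  (TrL.c (I.mix (nat_lit 8088324) (nat_lit 89478486)) T3.l2
  TrL.n)))))))) (by decide +kernel)
theorem bx5_7 : BoxOK sI cl13 cl9 cl7 t3 t1 b5_7 :=
  box_mk (TrL.c (I.pos (nat_lit 0) (nat_lit 0)) T3.l17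
  (TrL.c (I.pos (nat_lit 0) (nat_lit 0)) T1.l10
  (TrL.c (I.pos (nat_lit 0) (nat_lit 134217730)) (xR T3.l4 T3.l4)
  (TrL.c (I.pos (nat_lit 0) (nat_lit 110514882)) (xR T1.l1 T1.l11)
  (TrL.c (I.pos (nat_lit 0) (nat_lit 0)) (xk T1.l16 T1.l16)
  (TrL.c (I.pos (nat_lit 0) (nat_lit 0)) T3.l13
  (TrL.c (I.mix (nat_lit 8088324) (nat_lit 110514882)) T1.l13
  (TrL.c (I.mix (nat_lit 8088324) (nat_lit 89478486)) T3.l2
  TrL.n)))))))) (by decide +kernel)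
theorem bx5_8 : BoxOK sI cl13 cl9 cl7 t3 t1 b5_8 :=
  box_mk (TrL.c (I.pos (nat_lit 0) (nat_lit 0)) (xb T3.l0 T3.l0)
  (TrL.c (I.pos (nat_lit 0) (nat_lit 0)) T1.l10
  (TrL.c (I.pos (nat_lit 0) (nat_lit 134217730)) (xR T3.l4 T3.l4)
  (TrL.c (I.pos (nat_lit 0) (nat_lit 110514882)) (xR T1.l3 (xR T1.l11 T1.l11))
  (TrL.c (I.pos (nat_lit 0) (nat_lit 0)) (xk (xb T1.l16 T1.l16) (xb T1.l16 T1.l16))
  (TrL.c (I.pos (nat_lit 0) (nat_lit 0)) T3.l13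
  (TrL.c (I.mix (nat_lit 8088324) (nat_lit 110514882)) (xR T1.l13 T1.l13)
  (TrL.c (I.mix (nat_lit 8088324) (nat_lit 89478486)) T3.l2
  TrL.n)))))))) (by decide +kernel)
theorem bx5_9 : BoxOK sI cl13 cl9 cl7 t3 t1 b5_9 :=
  box_mk (TrL.c (I.pos (nat_lit 0) (nat_lit 0)) T3.l17
  (TrL.c (I.pos (nat_lit 0) (nat_lit 0)) T1.l10
  (TrL.c (I.pos (nat_lit 0) (nat_lit 134217730)) (xR T3.l4 T3.l4)
  (TrL.c (I.pos (nat_lit 0) (nat_lit 110514882)) (xR T1.l1 T1.l11)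
  (TrL.c (I.pos (nat_lit 0) (nat_lit 0)) (xk T1.l16 T1.l16)
  (TrL.c (I.pos (nat_lit 0) (nat_lit 0)) T3.l13
  (TrL.c (I.mix (nat_lit 8088324) (nat_lit 110514882)) T1.l13
  (TrL.c (I.mix (nat_lit 8088324) (nat_lit 89478486)) T3.l2
  TrL.n)))))))) (by decide +kernel)
theorem bx5_10 : BoxOK sI cl13 cl9 cl7 t3 t1 b5_10 :=
  box_mk (TrL.c (I.pos (nat_lit 0) (nat_lit 0)) (xa (xb T3.l17 T3.l17) (xb T3.l17 T3.l17))
  (TrL.c (I.pos (nat_lit 0) (nat_lit 0)) T1.l10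
  (TrL.c (I.pos (nat_lit 0) (nat_lit 134217730)) (xR T3.l4 T3.l4)
  (TrL.c (I.pos (nat_lit 0) (nat_lit 110514882)) (xR T1.l3 T1.l11)
  (TrL.c (I.pos (nat_lit 0) (nat_lit 0)) (xk (xb (xa T1.l16 T1.l16) T1.l16) (xb (xa T1.l16 T1.l16) T1.l16))
  (TrL.c (I.pos (nat_lit 0) (nat_lit 0)) T3.l13
  (TrL.c (I.mix (nat_lit 8088324) (nat_lit 110514882)) (xR T1.l13 (xR T1.l13 T1.l13))
  (TrL.c (I.mix (nat_lit 8088324) (nat_lit 89478486)) T3.l2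
  TrL.n)))))))) (by decide +kernel)
theorem bx5_11 : BoxOK sI cl13 cl9 cl7 t3 t1 b5_11 :=
  box_mk (TrL.c (I.pos (nat_lit 0) (nat_lit 0)) T3.l0
  (TrL.c (I.pos (nat_lit 0) (nat_lit 0)) T1.l10
  (TrL.c (I.pos (nat_lit 0) (nat_lit 134217730)) (xR T3.l4 T3.l4)
  (TrL.c (I.pos (nat_lit 0) (nat_lit 110514882)) (xR T1.l1 T1.l11)
  (TrL.c (I.pos (nat_lit 0) (nat_lit 0)) (xk T1.l16 T1.l16)
  (TrL.c (I.pos (nat_lit 0) (nat_lit 0)) T3.l13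
  (TrL.c (I.mix (nat_lit 8088324) (nat_lit 110514882)) T1.l13
  (TrL.c (I.mix (nat_lit 8088324) (nat_lit 89478486)) T3.l2
  TrL.n)))))))) (by decide +kernel)
theorem bx5_12 : BoxOK sI cl13 cl9 cl7 t3 t1 b5_12 :=
  box_mk (TrL.c (I.pos (nat_lit 0) (nat_lit 0)) (xa (xa (xa T3.l18 T3.l18) T3.l18) (xa (xa T3.l18 T3.l18) (xa (xb T3.l18 T3.l18) (xb T3.l15 (xa T3.l19 T3.l0)))))
  (TrL.c (I.pos (nat_lit 0) (nat_lit 0)) (xa T1.l10 T1.l10)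
  (TrL.c (I.pos (nat_lit 0) (nat_lit 134217730)) (xR T3.l4 (xR T3.l4 T3.l12))
  (TrL.c (I.pos (nat_lit 0) (nat_lit 110514882)) (xR T1.l1 T1.l11)
  (TrL.c (I.pos (nat_lit 0) (nat_lit 0)) (xa T1.l17 (xa T1.l17 (xk T1.l17 T1.l17)))
  (TrL.c (I.pos (nat_lit 0) (nat_lit 0)) T3.l13
  (TrL.c (I.mix (nat_lit 8088324) (nat_lit 110514882)) T1.l13
  (TrL.c (I.mix (nat_lit 8088324) (nat_lit 89478486)) T3.l2
  TrL.n)))))))) (by decide +kernel)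
theorem bx5_13 : BoxOK sI cl13 cl9 cl7 t3 t1 b5_13 :=
  box_mk (TrL.c (I.pos (nat_lit 0) (nat_lit 0)) (xb (xa (xb T3.l20 T3.l20) T3.l0) (xa (xb T3.l20 (xa (xb T3.l20 T3.l20) T3.l20)) T3.l0))
  (TrL.c (I.pos (nat_lit 0) (nat_lit 0)) T1.l10
  (TrL.c (I.pos (nat_lit 0) (nat_lit 134217730)) T3.l4
  (TrL.c (I.pos (nat_lit 0) (nat_lit 110514882)) (xR T1.l1 T1.l11)
  (TrL.c (I.pos (nat_lit 0) (nat_lit 0)) (xb (xa (xk T1.l14 T1.l14) (xk T1.l14 T1.l14)) (xk T1.l14 T1.l14))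
  (TrL.c (I.pos (nat_lit 0) (nat_lit 0)) T3.l13
  (TrL.c (I.mix (nat_lit 8088324) (nat_lit 110514882)) (xR T1.l13 T1.l13)
  (TrL.c (I.mix (nat_lit 8088324) (nat_lit 89478486)) T3.l2
  TrL.n)))))))) (by decide +kernel)
theorem bx5_14 : BoxOK sI cl13 cl9 cl7 t3 t1 b5_14 :=
  box_mk (TrL.c (I.pos (nat_lit 0) (nat_lit 0)) (xa (xa (xb (xa (xb T3.l16 T3.l16) T3.l21) T3.l18) T3.l18) T3.l18)
  (TrL.c (I.pos (nat_lit 0) (nat_lit 0)) T1.l10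
  (TrL.c (I.pos (nat_lit 0) (nat_lit 134217730)) T3.l4
  (TrL.c (I.pos (nat_lit 0) (nat_lit 110514882)) T1.l13
  (TrL.c (I.pos (nat_lit 0) (nat_lit 0)) (xa T1.l10 T1.l15)
  (TrL.c (I.pos (nat_lit 0) (nat_lit 0)) T3.l13
  (TrL.c (I.mix (nat_lit 8088324) (nat_lit 110514882)) T1.l13
  (TrL.c (I.mix (nat_lit 8088324) (nat_lit 89478486)) T3.l2
  TrL.n)))))))) (by decide +kernel)
theorem bx5_15 : BoxOK sI cl13 cl9 cl7 t3 t1 b5_15 :=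
  box_mk (TrL.c (I.pos (nat_lit 0) (nat_lit 0)) (xa T3.l0 T3.l0)
  (TrL.c (I.pos (nat_lit 0) (nat_lit 0)) T1.l10
  (TrL.c (I.pos (nat_lit 0) (nat_lit 134217730)) (xR T3.l4 T3.l4)
  (TrL.c (I.pos (nat_lit 0) (nat_lit 110514882)) (xR T1.l3 (xR T1.l11 T1.l11))
  (TrL.c (I.pos (nat_lit 0) (nat_lit 0)) (xk T1.l12 T1.l12)
  (TrL.c (I.pos (nat_lit 0) (nat_lit 0)) T3.l13
  (TrL.c (I.mix (nat_lit 8088324) (nat_lit 110514882)) (xR T1.l13 T1.l13)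
  (TrL.c (I.mix (nat_lit 8088324) (nat_lit 89478486)) T3.l2
  TrL.n)))))))) (by decide +kernel)
theorem bx5_16 : BoxOK sI cl13 cl9 cl7 t3 t1 b5_16 :=
  box_mk (TrL.c (I.pos (nat_lit 0) (nat_lit 0)) (xa T3.l0 T3.l0)
  (TrL.c (I.pos (nat_lit 0) (nat_lit 0)) T1.l10
  (TrL.c (I.pos (nat_lit 0) (nat_lit 134217730)) (xR T3.l4 T3.l4)
  (TrL.c (I.pos (nat_lit 0) (nat_lit 110514882)) (xR T1.l3 (xR T1.l11 T1.l11))
  (TrL.c (I.pos (nat_lit 0) (nat_lit 0)) (xa (xk T1.l12 (xb T1.l12 T1.l12)) (xk (xb (xa T1.l12 (xk T1.l12 T1.l12)) (xa T1.l12 T1.l12)) (xb (xa T1.l12 (xk T1.l12 T1.l12)) T1.l12)))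
  (TrL.c (I.pos (nat_lit 0) (nat_lit 0)) T3.l13
  (TrL.c (I.mix (nat_lit 8088324) (nat_lit 110514882)) (xR T1.l13 T1.l13)
  (TrL.c (I.mix (nat_lit 8088324) (nat_lit 89478486)) T3.l2
  TrL.n)))))))) (by decide +kernel)
theorem bx5_17 : BoxOK sI cl13 cl9 cl7 t3 t1 b5_17 :=
  box_mk (TrL.c (I.pos (nat_lit 0) (nat_lit 0)) (xa (xb (xa T3.l0 T3.l0) (xa T3.l0 T3.l0)) (xb T3.l0 (xa T3.l0 T3.l0)))
  (TrL.c (I.pos (nat_lit 0) (nat_lit 0)) (xk T1.l10 T1.l10)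
  (TrL.c (I.pos (nat_lit 0) (nat_lit 134217730)) (xR T3.l4 (xR T3.l4 T3.l4))
  (TrL.c (I.pos (nat_lit 0) (nat_lit 110514882)) (xR T1.l3 (xR T1.l11 T1.l11))
  (TrL.c (I.pos (nat_lit 0) (nat_lit 0)) (xk (xa T1.l12 (xb T1.l12 (xb T1.l12 (xs T1.l12 (xa T1.l16 T1.l12))))) (xa (xb T1.l16 T1.l16) (xb T1.l12 (xb T1.l12 (xa T1.l16 (xs T1.l12 T1.l16))))))
  (TrL.c (I.pos (nat_lit 0) (nat_lit 0)) T3.l13
  (TrL.c (I.mix (nat_lit 8088324) (nat_lit 110514882)) (xR T1.l13 (xR T1.l13 T1.l13))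
  (TrL.c (I.mix (nat_lit 8088324) (nat_lit 89478486)) (xR T3.l2 T3.l2)
  TrL.n)))))))) (by decide +kernel)
theorem bx5_18 : BoxOK sI cl13 cl9 cl7 t3 t1 b5_18 :=
  box_mk (TrL.c (I.pos (nat_lit 0) (nat_lit 0)) (xa (xb (xa T3.l0 T3.l0) (xa T3.l0 T3.l0)) (xb (xa T3.l0 T3.l0) (xa T3.l0 (xb T3.l0 T3.l0))))
  (TrL.c (I.pos (nat_lit 0) (nat_lit 0)) (xa T1.l10 T1.l10)
  (TrL.c (I.pos (nat_lit 0) (nat_lit 134217730)) (xR T3.l4 T3.l4)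
  (TrL.c (I.pos (nat_lit 0) (nat_lit 110514882)) (xR T1.l3 (xR T1.l11 (xR T1.l11 T1.l11)))
  (TrL.c (I.pos (nat_lit 0) (nat_lit 0)) (xa (xb (xk (xa T1.l12 (xb T1.l12 T1.l12)) (xa T1.l12 (xb T1.l12 T1.l12))) (xk T1.l12 T1.l12)) (xb (xk (xa (xb (xk T1.l12 T1.l12) T1.l12) (xk (xb T1.l12 T1.l12) (xb T1.l12 T1.l12))) (xa (xb (xk T1.l12 T1.l12) T1.l12) (xb (xk T1.l12 T1.l12) T1.l12))) (xk (xa (xk T1.l12 T1.l12) (xk (xb T1.l12 T1.l12) (xb T1.l12 T1.l12))) (xa (xb T1.l12 T1.l12) (xb (xk T1.l12 T1.l12) (xk T1.l12 T1.l12))))))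
  (TrL.c (I.pos (nat_lit 0) (nat_lit 0)) (xk (xa T3.l13 T3.l13) (xa T3.l13 T3.l13))
  (TrL.c (I.mix (nat_lit 8088324) (nat_lit 110514882)) (xR T1.l13 (xR T1.l13 (xR T1.l13 (xR T1.l13 T1.l13))))
  (TrL.c (I.mix (nat_lit 8088324) (nat_lit 89478486)) (xR T3.l2 (xR T3.l2 T3.l14))
  TrL.n)))))))) (by decide +kernel)
theorem bx5_19 : BoxOK sI cl13 cl9 cl7 t3 t1 b5_19 :=
  box_mk (TrL.c (I.pos (nat_lit 0) (nat_lit 0)) T3.l0
  (TrL.c (I.pos (nat_lit 0) (nat_lit 0)) T1.l10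
  (TrL.c (I.pos (nat_lit 0) (nat_lit 134217730)) (xR T3.l4 T3.l4)
  (TrL.c (I.pos (nat_lit 0) (nat_lit 110514882)) (xR T1.l3 T1.l3)
  (TrL.c (I.pos (nat_lit 0) (nat_lit 0)) T1.l12
  (TrL.c (I.pos (nat_lit 0) (nat_lit 0)) T3.l13
  (TrL.c (I.mix (nat_lit 8088324) (nat_lit 110514882)) T1.l13
  (TrL.c (I.mix (nat_lit 8088324) (nat_lit 89478486)) T3.l2
  TrL.n)))))))) (by decide +kernel)
theorem bx5_20 : BoxOK sI cl13 cl9 cl7 t3 t1 b5_20 :=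
  box_mk (TrL.c (I.pos (nat_lit 0) (nat_lit 0)) (xa T3.l0 T3.l0)
  (TrL.c (I.pos (nat_lit 0) (nat_lit 0)) T1.l10
  (TrL.c (I.pos (nat_lit 0) (nat_lit 134217730)) (xR T3.l4 T3.l4)
  (TrL.c (I.pos (nat_lit 0) (nat_lit 110514882)) (xR T1.l3 (xR T1.l11 T1.l11))
  (TrL.c (I.pos (nat_lit 0) (nat_lit 0)) (xk T1.l12 T1.l12)
  (TrL.c (I.pos (nat_lit 0) (nat_lit 0)) T3.l13
  (TrL.c (I.mix (nat_lit 8088324) (nat_lit 110514882)) (xR T1.l13 T1.l13)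
  (TrL.c (I.mix (nat_lit 8088324) (nat_lit 89478486)) T3.l2
  TrL.n)))))))) (by decide +kernel)
theorem sv5 : StarV sI cl13 cl9 cl7 t3 t1 t5 :=
  (bt_n (bt_n (bt_n (bt_n (bt_b bx5_0) (bt_b bx5_1)) (bt_n (bt_b bx5_2) (bt_n (bt_b bx5_3) (bt_b bx5_4)))) (bt_n (bt_n (bt_b bx5_5) (bt_b bx5_6)) (bt_n (bt_b bx5_7) (bt_n (bt_b bx5_8) (bt_b bx5_9))))) (bt_n (bt_n (bt_n (bt_b bx5_10) (bt_b bx5_11)) (bt_n (bt_b bx5_12) (bt_n (bt_b bx5_13) (bt_b bx5_14)))) (bt_n (bt_n (bt_b bx5_15) (bt_n (bt_b bx5_16) (bt_b bx5_17))) (bt_n (bt_b bx5_18) (bt_n (bt_b bx5_19) (bt_b bx5_20))))))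
def S5 : StarD := StarD.mk cl13 cl9 cl7 3 1 t5
def G : List StarD := [S0, S1, S2, S3, S4, S5]
theorem so0 : StarOK sI G S0 :=
  star_mk (by decide) (by decide) rfl rfl rfl rfl rfl rfl (rfl : _ = t2) (rfl : _ = t4)
  (st_mk (Pth.l (Pth.l (Pth.l (Pth.l Pth.z)))) (nat_lit 115951775) (nat_lit 134711672) (by decide +kernel))
  (st_mk (Pth.l (Pth.l (Pth.l (Pth.l Pth.z)))) (nat_lit 151452206) (nat_lit 170631204) (by decide +kernel))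
  (st_mk (Pth.l (Pth.l (Pth.l (Pth.l Pth.z)))) (nat_lit 190738185) (nat_lit 214268916) (by decide +kernel)) sv0
theorem so1 : StarOK sI G S1 :=
  star_mk (by decide) (by decide) rfl rfl rfl rfl rfl rfl (rfl : _ = t4) (rfl : _ = t2)
  (st_mk (Pth.l (Pth.l (Pth.l (Pth.l Pth.z)))) (nat_lit 96474480) (nat_lit 115175850) (by decide +kernel))
  (st_mk (Pth.l (Pth.l (Pth.l (Pth.l Pth.z)))) (nat_lit 131925142) (nat_lit 151024878) (by decide +kernel))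
  (st_mk (Pth.l (Pth.l (Pth.l (Pth.l Pth.z)))) (nat_lit 173047108) (nat_lit 192722682) (by decide +kernel)) sv1
theorem so2 : StarOK sI G S2 :=
  star_mk (by decide) (by decide) rfl rfl rfl rfl rfl rfl (rfl : _ = t0) (rfl : _ = t5)
  (st_mk (Pth.l (Pth.l (Pth.l (Pth.l Pth.z)))) (nat_lit 140537194) (nat_lit 162965614) (by decide +kernel))
  (st_mk (Pth.l (Pth.l (Pth.l (Pth.l Pth.z)))) (nat_lit 175733185) (nat_lit 198541171) (by decide +kernel))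
  (st_mk (Pth.l (Pth.l (Pth.l (Pth.l Pth.z)))) (nat_lit 216426314) (nat_lit 239762833) (by decide +kernel)) sv2
theorem so3 : StarOK sI G S3 :=
  star_mk (by decide) (by decide) rfl rfl rfl rfl rfl rfl (rfl : _ = t5) (rfl : _ = t0)
  (st_mk (Pth.l (Pth.l (Pth.l (Pth.l Pth.z)))) (nat_lit 96123340) (nat_lit 114672814) (by decide +kernel))
  (st_mk (Pth.l (Pth.l (Pth.l (Pth.l Pth.z)))) (nat_lit 131270001) (nat_lit 150153129) (by decide +kernel))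
  (st_mk (Pth.l (Pth.l (Pth.l (Pth.l Pth.z)))) (nat_lit 171920250) (nat_lit 191292258) (by decide +kernel)) sv3
theorem so4 : StarOK sI G S4 :=
  star_mk (by decide) (by decide) rfl rfl rfl rfl rfl rfl (rfl : _ = t1) (rfl : _ = t3)
  (st_mk (Pth.l (Pth.l (Pth.l (Pth.l Pth.z)))) (nat_lit 139994720) (nat_lit 162263230) (by decide +kernel))
  (st_mk (Pth.l (Pth.l (Pth.l (Pth.l Pth.z)))) (nat_lit 174891329) (nat_lit 197490399) (by decide +kernel))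
  (st_mk (Pth.l (Pth.l (Pth.l (Pth.l Pth.z)))) (nat_lit 215156648) (nat_lit 238219823) (by decide +kernel)) sv4
theorem so5 : StarOK sI G S5 :=
  star_mk (by decide) (by decide) rfl rfl rfl rfl rfl rfl (rfl : _ = t3) (rfl : _ = t1)
  (st_mk (Pth.l (Pth.l (Pth.l (Pth.l Pth.z)))) (nat_lit 115089857) (nat_lit 133538532) (by decide +kernel))
  (st_mk (Pth.l (Pth.l (Pth.l (Pth.l Pth.z)))) (nat_lit 149986467) (nat_lit 168740367) (by decide +kernel))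
  (st_mk (Pth.l (Pth.l (Pth.l (Pth.l Pth.z)))) (nat_lit 190251785) (nat_lit 209447761) (by decide +kernel)) sv5
theorem ok : GroupOK (nat_lit 209321984) (nat_lit 268435456) G := grp_mk (allS_c so0 (allS_c so1 (allS_c so2 (allS_c so3 (allS_c so4 (allS_c so5 allS_n))))))
theorem cov : GCov G cl7 cl9 cl13 := cov_mk
  ⟨0, by decide, rfl, rfl, rfl⟩ ⟨1, by decide, rfl, rfl, rfl⟩ ⟨2, by decide, rfl, rfl, rfl⟩ ⟨3, by decide, rfl, rfl, rfl⟩ ⟨4, by decide, rfl, rfl, rfl⟩ ⟨5, by decide, rfl, rfl, rfl⟩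
end Q456_3

namespace Q466_0
def sI : I := I.pos (nat_lit 0) (nat_lit 91291648)
def b0_0 : Bx := Bx.mk (St.mk (I.pos (nat_lit 157024256) (nat_lit 281018368)) (I.mix (nat_lit 19595264) (nat_lit 52641792)) (I.mix (nat_lit 57868288) (nat_lit 90669056)) (I.pos (nat_lit 89882624) (nat_lit 312082432)) (I.mix (nat_lit 79085568) (nat_lit 48889856)) (I.mix (nat_lit 72450048) (nat_lit 44908544)) (I.mix (nat_lit 112852992) (nat_lit 61538304)))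
  false (nat_lit 0)
def b0_1 : Bx := Bx.mk (St.mk (I.mix (nat_lit 9535488) (nat_lit 142131200)) (I.mix (nat_lit 5963776) (nat_lit 23740416)) (I.mix (nat_lit 11583488) (nat_lit 20004864)) (I.mix (nat_lit 3178496) (nat_lit 89899008)) (I.mix (nat_lit 20168704) (nat_lit 17334272)) (I.mix (nat_lit 22364160) (nat_lit 12566528)) (I.mix (nat_lit 19382272) (nat_lit 10420224)))
  false (nat_lit 0)
def b0_2 : Bx := Bx.mk (St.mk (I.pos (nat_lit 118865920) (nat_lit 161497088)) (I.mix (nat_lit 49135616) (nat_lit 6963200)) (I.mix (nat_lit 56033280) (nat_lit 4358144)) (I.pos (nat_lit 54018048) (nat_lit 112082944)) (I.mix (nat_lit 68894720) (nat_lit 20168704)) (I.mix (nat_lit 29458432) (nat_lit 72695808)) (I.mix (nat_lit 24936448) (nat_lit 68403200)))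
  false (nat_lit 0)
def b0_3 : Bx := Bx.mk (St.mk (I.mix (nat_lit 12550144) (nat_lit 106889216)) (I.mix (nat_lit 22298624) (nat_lit 2752512)) (I.mix (nat_lit 18661376) (nat_lit 1097728)) (I.mix (nat_lit 2244608) (nat_lit 57950208)) (I.mix (nat_lit 24510464) (nat_lit 9469952)) (I.mix (nat_lit 11370496) (nat_lit 23412736)) (I.mix (nat_lit 6815744) (nat_lit 15024128)))
  false (nat_lit 0)
def b0_4 : Bx := Bx.mk (St.mk (I.pos (nat_lit 131039232) (nat_lit 182976512)) (I.neg (nat_lit 2588672) (nat_lit 50855936)) (I.neg (nat_lit 4784128) (nat_lit 54329344)) (I.pos (nat_lit 75382784) (nat_lit 141492224)) (I.mix (nat_lit 51200000) (nat_lit 28508160)) (I.mix (nat_lit 28426240) (nat_lit 48857088)) (I.mix (nat_lit 25018368) (nat_lit 51347456)))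
  false (nat_lit 0)
def b0_5 : Bx := Bx.mk (St.mk (I.pos (nat_lit 41680896) (nat_lit 113950720)) (I.mix (nat_lit 25034752) (nat_lit 2883584)) (I.mix (nat_lit 20250624) (nat_lit 688128)) (I.pos (nat_lit 7782400) (nat_lit 65110016)) (I.mix (nat_lit 21725184) (nat_lit 14270464)) (I.mix (nat_lit 10928128) (nat_lit 21315584)) (I.mix (nat_lit 6979584) (nat_lit 15384576)))
  false (nat_lit 0)
def b0_6 : Bx := Bx.mk (St.mk (I.mix (nat_lit 12992512) (nat_lit 135692288)) (I.mix (nat_lit 12058624) (nat_lit 30064640)) (I.mix (nat_lit 11681792) (nat_lit 24166400)) (I.mix (nat_lit 2949120) (nat_lit 82345984)) (I.mix (nat_lit 34471936) (nat_lit 17268736)) (I.mix (nat_lit 36716544) (nat_lit 19431424)) (I.mix (nat_lit 27246592) (nat_lit 13320192)))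
  false (nat_lit 0)
def b0_7 : Bx := Bx.mk (St.mk (I.pos (nat_lit 165183488) (nat_lit 224837632)) (I.mix (nat_lit 39501824) (nat_lit 56197120)) (I.mix (nat_lit 44728320) (nat_lit 90030080)) (I.pos (nat_lit 104873984) (nat_lit 201539584)) (I.mix (nat_lit 101515264) (nat_lit 42745856)) (I.mix (nat_lit 118112256) (nat_lit 54329344)) (I.mix (nat_lit 147095552) (nat_lit 61767680)))
  false (nat_lit 0)
def t0 : BTr := (BTr.n (BTr.n (BTr.n (BTr.b b0_0) (BTr.b b0_1)) (BTr.n (BTr.b b0_2) (BTr.b b0_3))) (BTr.n (BTr.n (BTr.b b0_4) (BTr.b b0_5)) (BTr.n (BTr.b b0_6) (BTr.b b0_7))))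
namespace T0
def l0 : Tr := Tr.L (Pth.l (Pth.l (Pth.l Pth.z)))
def l1 : Tr := Tr.L (Pth.l (Pth.l (Pth.r Pth.z)))
def l2 : Tr := Tr.L (Pth.l (Pth.r (Pth.l Pth.z)))
def l3 : Tr := Tr.L (Pth.l (Pth.r (Pth.r Pth.z)))
def l4 : Tr := Tr.L (Pth.r (Pth.l (Pth.l Pth.z)))
def l5 : Tr := Tr.L (Pth.r (Pth.l (Pth.r Pth.z)))
def l6 : Tr := Tr.L (Pth.r (Pth.r (Pth.l Pth.z)))
def l7 : Tr := Tr.L (Pth.r (Pth.r (Pth.r Pth.z)))
end T0
def b1_0 : Bx := Bx.mk (St.mk (I.pos (nat_lit 157122560) (nat_lit 277790720)) (I.mix (nat_lit 13598720) (nat_lit 56377344)) (I.mix (nat_lit 47546368) (nat_lit 96616448)) (I.pos (nat_lit 135856128) (nat_lit 348389376)) (I.mix (nat_lit 81444864) (nat_lit 53886976)) (I.mix (nat_lit 82755584) (nat_lit 46809088)) (I.mix (nat_lit 123453440) (nat_lit 62537728)))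
  false (nat_lit 33179514)
def b1_1 : Bx := Bx.mk (St.mk (I.pos (nat_lit 110837760) (nat_lit 171704320)) (I.neg (nat_lit 5849088) (nat_lit 58261504)) (I.mix (nat_lit 56180736) (nat_lit 147456)) (I.pos (nat_lit 102875136) (nat_lit 172916736)) (I.mix (nat_lit 54788096) (nat_lit 31145984)) (I.mix (nat_lit 28459008) (nat_lit 48742400)) (I.mix (nat_lit 22970368) (nat_lit 45989888)))
  false (nat_lit 0)
def b1_2 : Bx := Bx.mk (St.mk (I.mix (nat_lit 21397504) (nat_lit 117424128)) (I.mix (nat_lit 4784128) (nat_lit 32538624)) (I.mix (nat_lit 11190272) (nat_lit 22151168)) (I.pos (nat_lit 41222144) (nat_lit 113000448)) (I.mix (nat_lit 26460160) (nat_lit 20971520)) (I.mix (nat_lit 28033024) (nat_lit 15908864)) (I.mix (nat_lit 19660800) (nat_lit 10960896)))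
  false (nat_lit 0)
def b1_3 : Bx := Bx.mk (St.mk (I.mix (nat_lit 21250048) (nat_lit 82395136)) (I.mix (nat_lit 32079872) (nat_lit 3096576)) (I.mix (nat_lit 19300352) (nat_lit 4128768)) (I.pos (nat_lit 41713664) (nat_lit 88604672)) (I.mix (nat_lit 22921216) (nat_lit 17711104)) (I.mix (nat_lit 13615104) (nat_lit 24444928)) (I.mix (nat_lit 7782400) (nat_lit 12943360)))
  false (nat_lit 0)
def b1_4 : Bx := Bx.mk (St.mk (I.pos (nat_lit 154238976) (nat_lit 220512256)) (I.mix (nat_lit 38731776) (nat_lit 64929792)) (I.mix (nat_lit 36388864) (nat_lit 102203392)) (I.pos (nat_lit 135430144) (nat_lit 238370816)) (I.mix (nat_lit 105627648) (nat_lit 44384256)) (I.mix (nat_lit 113606656) (nat_lit 56901632)) (I.mix (nat_lit 131891200) (nat_lit 58982400)))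
  false (nat_lit 20866740)
def b1_5 : Bx := Bx.mk (St.mk (I.pos (nat_lit 97124352) (nat_lit 143917056)) (I.mix (nat_lit 55640064) (nat_lit 5816320)) (I.mix (nat_lit 53084160) (nat_lit 1703936)) (I.pos (nat_lit 81100800) (nat_lit 134971392)) (I.mix (nat_lit 63717376) (nat_lit 23658496)) (I.mix (nat_lit 29491200) (nat_lit 64897024)) (I.mix (nat_lit 21643264) (nat_lit 50937856)))
  false (nat_lit 0)
def b1_6 : Bx := Bx.mk (St.mk (I.mix (nat_lit 35078144) (nat_lit 107003904)) (I.mix (nat_lit 11075584) (nat_lit 35618816)) (I.mix (nat_lit 8208384) (nat_lit 25378816)) (I.pos (nat_lit 40796160) (nat_lit 104497152)) (I.mix (nat_lit 35717120) (nat_lit 17268736)) (I.mix (nat_lit 36438016) (nat_lit 19283968)) (I.mix (nat_lit 20774912) (nat_lit 11550720)))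
  false (nat_lit 0)
def b1_7 : Bx := Bx.mk (St.mk (I.mix (nat_lit 30736384) (nat_lit 69533696)) (I.neg (nat_lit 720896) (nat_lit 29229056)) (I.mix (nat_lit 16302080) (nat_lit 3833856)) (I.pos (nat_lit 42156032) (nat_lit 81035264)) (I.mix (nat_lit 23904256) (nat_lit 11452416)) (I.mix (nat_lit 12288000) (nat_lit 20545536)) (I.mix (nat_lit 5652480) (nat_lit 8306688)))
  false (nat_lit 0)
def t1 : BTr := (BTr.n (BTr.n (BTr.n (BTr.b b1_0) (BTr.b b1_1)) (BTr.n (BTr.b b1_2) (BTr.b b1_3))) (BTr.n (BTr.n (BTr.b b1_4) (BTr.b b1_5)) (BTr.n (BTr.b b1_6) (BTr.b b1_7))))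
namespace T1
def l0 : Tr := Tr.L (Pth.l (Pth.l (Pth.l Pth.z)))
def l1 : Tr := Tr.L (Pth.l (Pth.l (Pth.r Pth.z)))
def l2 : Tr := Tr.L (Pth.l (Pth.r (Pth.l Pth.z)))
def l3 : Tr := Tr.L (Pth.l (Pth.r (Pth.r Pth.z)))
def l4 : Tr := Tr.L (Pth.r (Pth.l (Pth.l Pth.z)))
def l5 : Tr := Tr.L (Pth.r (Pth.l (Pth.r Pth.z)))
def l6 : Tr := Tr.L (Pth.r (Pth.r (Pth.l Pth.z)))
def l7 : Tr := Tr.L (Pth.r (Pth.r (Pth.r Pth.z)))
end T1
def b2_0 : Bx := Bx.mk (St.mk (I.pos (nat_lit 157122560) (nat_lit 277331968)) (I.mix (nat_lit 11927552) (nat_lit 46940160)) (I.mix (nat_lit 18087936) (nat_lit 96649216)) (I.pos (nat_lit 89833472) (nat_lit 301596672)) (I.mix (nat_lit 72761344) (nat_lit 51445760)) (I.mix (nat_lit 77725696) (nat_lit 47693824)) (I.mix (nat_lit 120782848) (nat_lit 63832064)))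
  false (nat_lit 10142786)
def b2_1 : Bx := Bx.mk (St.mk (I.pos (nat_lit 130465792) (nat_lit 187170816)) (I.neg (nat_lit 4046848) (nat_lit 52166656)) (I.mix (nat_lit 48103424) (nat_lit 6602752)) (I.pos (nat_lit 77217792) (nat_lit 146178048)) (I.mix (nat_lit 48218112) (nat_lit 27967488)) (I.mix (nat_lit 27934720) (nat_lit 42582016)) (I.mix (nat_lit 23494656) (nat_lit 43515904)))
  false (nat_lit 0)
def b2_2 : Bx := Bx.mk (St.mk (I.mix (nat_lit 8503296) (nat_lit 117489664)) (I.mix (nat_lit 24576000) (nat_lit 3325952)) (I.mix (nat_lit 15826944) (nat_lit 6619136)) (I.mix (nat_lit 2490368) (nat_lit 66666496)) (I.mix (nat_lit 18661376) (nat_lit 13385728)) (I.mix (nat_lit 9879552) (nat_lit 17760256)) (I.mix (nat_lit 6635520) (nat_lit 12599296)))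
  false (nat_lit 0)
def b2_3 : Bx := Bx.mk (St.mk (I.pos (nat_lit 162119680) (nat_lit 222199808)) (I.mix (nat_lit 38404096) (nat_lit 52822016)) (I.mix (nat_lit 30834688) (nat_lit 98533376)) (I.pos (nat_lit 103104512) (nat_lit 192921600)) (I.mix (nat_lit 105021440) (nat_lit 40861696)) (I.mix (nat_lit 123256832) (nat_lit 53772288)) (I.mix (nat_lit 158023680) (nat_lit 58654720)))
  false (nat_lit 0)
def b2_4 : Bx := Bx.mk (St.mk (I.mix (nat_lit 13418496) (nat_lit 134332416)) (I.mix (nat_lit 12353536) (nat_lit 30015488)) (I.mix (nat_lit 6750208) (nat_lit 30081024)) (I.mix (nat_lit 2916352) (nat_lit 80953344)) (I.mix (nat_lit 38387712) (nat_lit 16531456)) (I.mix (nat_lit 38518784) (nat_lit 19234816)) (I.mix (nat_lit 29474816) (nat_lit 12632064)))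
  false (nat_lit 0)
def b2_5 : Bx := Bx.mk (St.mk (I.pos (nat_lit 78217216) (nat_lit 137723904)) (I.mix (nat_lit 4194304) (nat_lit 19775488)) (I.mix (nat_lit 2637824) (nat_lit 22773760)) (I.pos (nat_lit 28590080) (nat_lit 87212032)) (I.mix (nat_lit 22347776) (nat_lit 17973248)) (I.mix (nat_lit 26705920) (nat_lit 13516800)) (I.mix (nat_lit 23445504) (nat_lit 10731520)))
  false (nat_lit 0)
def b2_6 : Bx := Bx.mk (St.mk (I.pos (nat_lit 120766464) (nat_lit 161595392)) (I.mix (nat_lit 46792704) (nat_lit 5603328)) (I.mix (nat_lit 43581440) (nat_lit 10469376)) (I.pos (nat_lit 55508992) (nat_lit 108412928)) (I.mix (nat_lit 56950784) (nat_lit 22675456)) (I.mix (nat_lit 27590656) (nat_lit 62668800)) (I.mix (nat_lit 23740416) (nat_lit 57049088)))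
  false (nat_lit 0)
def b2_7 : Bx := Bx.mk (St.mk (I.pos (nat_lit 39239680) (nat_lit 106807296)) (I.mix (nat_lit 22560768) (nat_lit 2588672)) (I.mix (nat_lit 14499840) (nat_lit 4472832)) (I.pos (nat_lit 4554752) (nat_lit 58589184)) (I.mix (nat_lit 21741568) (nat_lit 10797056)) (I.mix (nat_lit 11485184) (nat_lit 23216128)) (I.mix (nat_lit 6914048) (nat_lit 14221312)))
  false (nat_lit 0)
def t2 : BTr := (BTr.n (BTr.n (BTr.n (BTr.b b2_0) (BTr.b b2_1)) (BTr.n (BTr.b b2_2) (BTr.b b2_3))) (BTr.n (BTr.n (BTr.b b2_4) (BTr.b b2_5)) (BTr.n (BTr.b b2_6) (BTr.b b2_7))))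
namespace T2
def l0 : Tr := Tr.L (Pth.l (Pth.l (Pth.l Pth.z)))
def l1 : Tr := Tr.L (Pth.l (Pth.l (Pth.r Pth.z)))
def l2 : Tr := Tr.L (Pth.l (Pth.r (Pth.l Pth.z)))
def l3 : Tr := Tr.L (Pth.l (Pth.r (Pth.r Pth.z)))
def l4 : Tr := Tr.L (Pth.r (Pth.l (Pth.l Pth.z)))
def l5 : Tr := Tr.L (Pth.r (Pth.l (Pth.r Pth.z)))
def l6 : Tr := Tr.L (Pth.r (Pth.r (Pth.l Pth.z)))
def l7 : Tr := Tr.L (Pth.r (Pth.r (Pth.r Pth.z)))
end T2
theorem bx0_0 : BoxOK sI cl7 cl13 cl13 t1 t1 b0_0 :=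
  box_mk (TrL.c (I.pos (nat_lit 0) (nat_lit 0)) (xa (xa T1.l0 T1.l0) (xa T1.l0 T1.l0))
  (TrL.c (I.pos (nat_lit 0) (nat_lit 0)) (xa T1.l1 (xk (xa T1.l1 T1.l1) T1.l1))
  (TrL.c (I.pos (nat_lit 0) (nat_lit 111196574)) (xR T1.l6 (xR T1.l2 T1.l2))
  (TrL.c (I.pos (nat_lit 0) (nat_lit 77433728)) (xR T1.l3 T1.l3)
  (TrL.c (I.pos (nat_lit 0) (nat_lit 0)) (xa T1.l4 (xa (xb (xk T1.l4 T1.l4) (xk T1.l4 T1.l4)) (xk (xb (xb (xa T1.l4 T1.l4) T1.l4) (xk (xs (xa T1.l4 T1.l4) (xa T1.l4 T1.l4)) (xs T1.l4 (xa T1.l4 T1.l4)))) (xb (xb T1.l4 T1.l4) (xa T1.l4 (xs (xk T1.l4 T1.l4) (xk T1.l4 T1.l4)))))))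
  (TrL.c (I.pos (nat_lit 0) (nat_lit 0)) (xk (xa T1.l5 T1.l5) T1.l5)
  (TrL.c (I.mix (nat_lit 29511666) (nat_lit 77433728)) (xR T1.l6 (xR T1.l6 T1.l6))
  (TrL.c (I.mix (nat_lit 29511666) (nat_lit 46070178)) (xR T1.l7 T1.l7)
  TrL.n)))))))) (by decide +kernel)
theorem bx0_1 : BoxOK sI cl7 cl13 cl13 t1 t1 b0_1 :=
  box_mk (TrL.c (I.pos (nat_lit 0) (nat_lit 0)) (xa T1.l0 T1.l0)
  (TrL.c (I.pos (nat_lit 0) (nat_lit 0)) (xa T1.l1 T1.l1)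
  (TrL.c (I.pos (nat_lit 0) (nat_lit 111196574)) (xR T1.l2 T1.l2)
  (TrL.c (I.pos (nat_lit 0) (nat_lit 77433728)) T1.l3
  (TrL.c (I.pos (nat_lit 0) (nat_lit 0)) (xa T1.l4 T1.l4)
  (TrL.c (I.pos (nat_lit 0) (nat_lit 0)) T1.l5
  (TrL.c (I.mix (nat_lit 29511666) (nat_lit 77433728)) (xR T1.l6 T1.l6)
  (TrL.c (I.mix (nat_lit 29511666) (nat_lit 46070178)) (xR T1.l6 T1.l3)
  TrL.n)))))))) (by decide +kernel)
theorem bx0_2 : BoxOK sI cl7 cl13 cl13 t1 t1 b0_2 :=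
  box_mk (TrL.c (I.pos (nat_lit 0) (nat_lit 0)) T1.l0
  (TrL.c (I.pos (nat_lit 0) (nat_lit 0)) T1.l1
  (TrL.c (I.pos (nat_lit 0) (nat_lit 111196574)) (xR T1.l2 T1.l2)
  (TrL.c (I.pos (nat_lit 0) (nat_lit 77433728)) (xR T1.l3 T1.l3)
  (TrL.c (I.pos (nat_lit 0) (nat_lit 0)) T1.l4
  (TrL.c (I.pos (nat_lit 0) (nat_lit 0)) T1.l5
  (TrL.c (I.mix (nat_lit 29511666) (nat_lit 77433728)) (xR T1.l6 T1.l6)
  (TrL.c (I.mix (nat_lit 29511666) (nat_lit 46070178)) T1.l7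
  TrL.n)))))))) (by decide +kernel)
theorem bx0_3 : BoxOK sI cl7 cl13 cl13 t1 t1 b0_3 :=
  box_mk (TrL.c (I.pos (nat_lit 0) (nat_lit 0)) (xa T1.l0 T1.l0)
  (TrL.c (I.pos (nat_lit 0) (nat_lit 0)) T1.l1
  (TrL.c (I.pos (nat_lit 0) (nat_lit 111196574)) T1.l2
  (TrL.c (I.pos (nat_lit 0) (nat_lit 77433728)) (xR T1.l3 T1.l3)
  (TrL.c (I.pos (nat_lit 0) (nat_lit 0)) T1.l4
  (TrL.c (I.pos (nat_lit 0) (nat_lit 0)) T1.l5
  (TrL.c (I.mix (nat_lit 29511666) (nat_lit 77433728)) T1.l6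
  (TrL.c (I.mix (nat_lit 29511666) (nat_lit 46070178)) T1.l6
  TrL.n)))))))) (by decide +kernel)
theorem bx0_4 : BoxOK sI cl7 cl13 cl13 t1 t1 b0_4 :=
  box_mk (TrL.c (I.pos (nat_lit 0) (nat_lit 0)) T1.l0
  (TrL.c (I.pos (nat_lit 0) (nat_lit 0)) T1.l1
  (TrL.c (I.pos (nat_lit 0) (nat_lit 111196574)) (xR T1.l2 T1.l2)
  (TrL.c (I.pos (nat_lit 0) (nat_lit 77433728)) (xR T1.l3 T1.l3)
  (TrL.c (I.pos (nat_lit 0) (nat_lit 0)) T1.l4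
  (TrL.c (I.pos (nat_lit 0) (nat_lit 0)) T1.l5
  (TrL.c (I.mix (nat_lit 29511666) (nat_lit 77433728)) (xR T1.l6 T1.l6)
  (TrL.c (I.mix (nat_lit 29511666) (nat_lit 46070178)) T1.l7
  TrL.n)))))))) (by decide +kernel)
theorem bx0_5 : BoxOK sI cl7 cl13 cl13 t1 t1 b0_5 :=
  box_mk (TrL.c (I.pos (nat_lit 0) (nat_lit 0)) T1.l0
  (TrL.c (I.pos (nat_lit 0) (nat_lit 0)) T1.l1
  (TrL.c (I.pos (nat_lit 0) (nat_lit 111196574)) T1.l2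
  (TrL.c (I.pos (nat_lit 0) (nat_lit 77433728)) T1.l3
  (TrL.c (I.pos (nat_lit 0) (nat_lit 0)) T1.l4
  (TrL.c (I.pos (nat_lit 0) (nat_lit 0)) T1.l5
  (TrL.c (I.mix (nat_lit 29511666) (nat_lit 77433728)) T1.l6
  (TrL.c (I.mix (nat_lit 29511666) (nat_lit 46070178)) T1.l6
  TrL.n)))))))) (by decide +kernel)
theorem bx0_6 : BoxOK sI cl7 cl13 cl13 t1 t1 b0_6 :=
  box_mk (TrL.c (I.pos (nat_lit 0) (nat_lit 0)) (xa T1.l0 T1.l0)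
  (TrL.c (I.pos (nat_lit 0) (nat_lit 0)) (xa T1.l1 T1.l1)
  (TrL.c (I.pos (nat_lit 0) (nat_lit 111196574)) (xR T1.l2 T1.l2)
  (TrL.c (I.pos (nat_lit 0) (nat_lit 77433728)) (xR T1.l3 T1.l3)
  (TrL.c (I.pos (nat_lit 0) (nat_lit 0)) (xa T1.l4 T1.l4)
  (TrL.c (I.pos (nat_lit 0) (nat_lit 0)) T1.l5
  (TrL.c (I.mix (nat_lit 29511666) (nat_lit 77433728)) (xR T1.l6 T1.l6)
  (TrL.c (I.mix (nat_lit 29511666) (nat_lit 46070178)) (xR T1.l6 T1.l3)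
  TrL.n)))))))) (by decide +kernel)
theorem bx0_7 : BoxOK sI cl7 cl13 cl13 t1 t1 b0_7 :=
  box_mk (TrL.c (I.pos (nat_lit 0) (nat_lit 0)) (xb T1.l0 (xa T1.l0 T1.l0))
  (TrL.c (I.pos (nat_lit 0) (nat_lit 0)) (xb T1.l1 T1.l1)
  (TrL.c (I.pos (nat_lit 0) (nat_lit 111196574)) (xR T1.l2 (xR T1.l2 T1.l2))
  (TrL.c (I.pos (nat_lit 0) (nat_lit 77433728)) (xR T1.l3 T1.l3)
  (TrL.c (I.pos (nat_lit 0) (nat_lit 0)) (xb (xa T1.l4 (xk T1.l4 T1.l4)) (xk T1.l4 T1.l4))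
  (TrL.c (I.pos (nat_lit 0) (nat_lit 0)) T1.l5
  (TrL.c (I.mix (nat_lit 29511666) (nat_lit 77433728)) (xR T1.l6 (xR T1.l6 T1.l6))
  (TrL.c (I.mix (nat_lit 29511666) (nat_lit 46070178)) (xR T1.l7 T1.l3)
  TrL.n)))))))) (by decide +kernel)
theorem sv0 : StarV sI cl7 cl13 cl13 t1 t1 t0 :=
  (bt_n (bt_n (bt_n (bt_b bx0_0) (bt_b bx0_1)) (bt_n (bt_b bx0_2) (bt_b bx0_3))) (bt_n (bt_n (bt_b bx0_4) (bt_b bx0_5)) (bt_n (bt_b bx0_6) (bt_b bx0_7))))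
def S0 : StarD := StarD.mk cl7 cl13 cl13 1 1 t0
theorem bx1_0 : BoxOK sI cl13 cl7 cl13 t0 t2 b1_0 :=
  box_mk (TrL.c (I.pos (nat_lit 0) (nat_lit 0)) (xa (xa T0.l0 T0.l0) T0.l0)
  (TrL.c (I.pos (nat_lit 0) (nat_lit 0)) (xa T2.l1 (xk T2.l1 T2.l1))
  (TrL.c (I.pos (nat_lit 0) (nat_lit 134217730)) (xR T0.l6 T0.l6)
  (TrL.c (I.pos (nat_lit 0) (nat_lit 110514882)) (xR T2.l2 (xR T2.l2 T2.l2))
  (TrL.c (I.pos (nat_lit 0) (nat_lit 0)) (xa (xa T2.l3 T2.l3) (xk (xa T2.l3 (xb (xk T2.l3 T2.l3) (xk T2.l3 T2.l3))) (xa T2.l3 (xb T2.l3 (xs (xk T2.l3 T2.l3) T2.l3)))))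
  (TrL.c (I.pos (nat_lit 0) (nat_lit 0)) T0.l2
  (TrL.c (I.mix (nat_lit 8088324) (nat_lit 110514882)) (xR T2.l4 (xR T2.l4 T2.l4))
  (TrL.c (I.mix (nat_lit 8088324) (nat_lit 89478486)) (xR T0.l3 T0.l3)
  TrL.n)))))))) (by decide +kernel)
theorem bx1_1 : BoxOK sI cl13 cl7 cl13 t0 t2 b1_1 :=
  box_mk (TrL.c (I.pos (nat_lit 0) (nat_lit 0)) T0.l0
  (TrL.c (I.pos (nat_lit 0) (nat_lit 0)) T2.l1
  (TrL.c (I.pos (nat_lit 0) (nat_lit 134217730)) (xR T0.l1 T0.l1)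
  (TrL.c (I.pos (nat_lit 0) (nat_lit 110514882)) (xR T2.l2 T2.l2)
  (TrL.c (I.pos (nat_lit 0) (nat_lit 0)) T2.l3
  (TrL.c (I.pos (nat_lit 0) (nat_lit 0)) T0.l2
  (TrL.c (I.mix (nat_lit 8088324) (nat_lit 110514882)) T2.l4
  (TrL.c (I.mix (nat_lit 8088324) (nat_lit 89478486)) T0.l3
  TrL.n)))))))) (by decide +kernel)
theorem bx1_2 : BoxOK sI cl13 cl7 cl13 t0 t2 b1_2 :=
  box_mk (TrL.c (I.pos (nat_lit 0) (nat_lit 0)) T0.l0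
  (TrL.c (I.pos (nat_lit 0) (nat_lit 0)) T2.l1
  (TrL.c (I.pos (nat_lit 0) (nat_lit 134217730)) (xR T0.l1 T0.l1)
  (TrL.c (I.pos (nat_lit 0) (nat_lit 110514882)) (xR T2.l2 T2.l2)
  (TrL.c (I.pos (nat_lit 0) (nat_lit 0)) T2.l3
  (TrL.c (I.pos (nat_lit 0) (nat_lit 0)) T0.l2
  (TrL.c (I.mix (nat_lit 8088324) (nat_lit 110514882)) T2.l4
  (TrL.c (I.mix (nat_lit 8088324) (nat_lit 89478486)) T0.l3
  TrL.n)))))))) (by decide +kernel)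
theorem bx1_3 : BoxOK sI cl13 cl7 cl13 t0 t2 b1_3 :=
  box_mk (TrL.c (I.pos (nat_lit 0) (nat_lit 0)) T0.l0
  (TrL.c (I.pos (nat_lit 0) (nat_lit 0)) T2.l1
  (TrL.c (I.pos (nat_lit 0) (nat_lit 134217730)) T0.l1
  (TrL.c (I.pos (nat_lit 0) (nat_lit 110514882)) (xR T2.l2 T2.l2)
  (TrL.c (I.pos (nat_lit 0) (nat_lit 0)) T2.l3
  (TrL.c (I.pos (nat_lit 0) (nat_lit 0)) T0.l2
  (TrL.c (I.mix (nat_lit 8088324) (nat_lit 110514882)) T2.l4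
  (TrL.c (I.mix (nat_lit 8088324) (nat_lit 89478486)) T0.l3
  TrL.n)))))))) (by decide +kernel)
theorem bx1_4 : BoxOK sI cl13 cl7 cl13 t0 t2 b1_4 :=
  box_mk (TrL.c (I.pos (nat_lit 0) (nat_lit 0)) (xb T0.l0 (xa T0.l0 T0.l0))
  (TrL.c (I.pos (nat_lit 0) (nat_lit 0)) (xb T2.l1 T2.l1)
  (TrL.c (I.pos (nat_lit 0) (nat_lit 134217730)) (xR T0.l1 (xR T0.l1 T0.l1))
  (TrL.c (I.pos (nat_lit 0) (nat_lit 110514882)) (xR T2.l2 (xR T2.l2 T2.l2))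
  (TrL.c (I.pos (nat_lit 0) (nat_lit 0)) (xb (xa T2.l3 (xk T2.l3 T2.l3)) T2.l3)
  (TrL.c (I.pos (nat_lit 0) (nat_lit 0)) T0.l2
  (TrL.c (I.mix (nat_lit 8088324) (nat_lit 110514882)) (xR T2.l4 (xR T2.l4 T2.l4))
  (TrL.c (I.mix (nat_lit 8088324) (nat_lit 89478486)) (xR T0.l3 T0.l3)
  TrL.n)))))))) (by decide +kernel)
theorem bx1_5 : BoxOK sI cl13 cl7 cl13 t0 t2 b1_5 :=
  box_mk (TrL.c (I.pos (nat_lit 0) (nat_lit 0)) T0.l0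
  (TrL.c (I.pos (nat_lit 0) (nat_lit 0)) T2.l1
  (TrL.c (I.pos (nat_lit 0) (nat_lit 134217730)) (xR T0.l1 T0.l1)
  (TrL.c (I.pos (nat_lit 0) (nat_lit 110514882)) (xR T2.l2 T2.l2)
  (TrL.c (I.pos (nat_lit 0) (nat_lit 0)) T2.l3
  (TrL.c (I.pos (nat_lit 0) (nat_lit 0)) T0.l2
  (TrL.c (I.mix (nat_lit 8088324) (nat_lit 110514882)) T2.l4
  (TrL.c (I.mix (nat_lit 8088324) (nat_lit 89478486)) T0.l3
  TrL.n)))))))) (by decide +kernel)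
theorem bx1_6 : BoxOK sI cl13 cl7 cl13 t0 t2 b1_6 :=
  box_mk (TrL.c (I.pos (nat_lit 0) (nat_lit 0)) (xa T0.l0 T0.l0)
  (TrL.c (I.pos (nat_lit 0) (nat_lit 0)) T2.l1
  (TrL.c (I.pos (nat_lit 0) (nat_lit 134217730)) (xR T0.l1 T0.l1)
  (TrL.c (I.pos (nat_lit 0) (nat_lit 110514882)) (xR T2.l2 T2.l2)
  (TrL.c (I.pos (nat_lit 0) (nat_lit 0)) T2.l3
  (TrL.c (I.pos (nat_lit 0) (nat_lit 0)) T0.l2
  (TrL.c (I.mix (nat_lit 8088324) (nat_lit 110514882)) T2.l4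
  (TrL.c (I.mix (nat_lit 8088324) (nat_lit 89478486)) T0.l3
  TrL.n)))))))) (by decide +kernel)
theorem bx1_7 : BoxOK sI cl13 cl7 cl13 t0 t2 b1_7 :=
  box_mk (TrL.c (I.pos (nat_lit 0) (nat_lit 0)) (xa T0.l0 T0.l0)
  (TrL.c (I.pos (nat_lit 0) (nat_lit 0)) T2.l1
  (TrL.c (I.pos (nat_lit 0) (nat_lit 134217730)) T0.l1
  (TrL.c (I.pos (nat_lit 0) (nat_lit 110514882)) T2.l4
  (TrL.c (I.pos (nat_lit 0) (nat_lit 0)) T2.l3
  (TrL.c (I.pos (nat_lit 0) (nat_lit 0)) T0.l2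
  (TrL.c (I.mix (nat_lit 8088324) (nat_lit 110514882)) T2.l4
  (TrL.c (I.mix (nat_lit 8088324) (nat_lit 89478486)) T0.l6
  TrL.n)))))))) (by decide +kernel)
theorem sv1 : StarV sI cl13 cl7 cl13 t0 t2 t1 :=
  (bt_n (bt_n (bt_n (bt_b bx1_0) (bt_b bx1_1)) (bt_n (bt_b bx1_2) (bt_b bx1_3))) (bt_n (bt_n (bt_b bx1_4) (bt_b bx1_5)) (bt_n (bt_b bx1_6) (bt_b bx1_7))))
def S1 : StarD := StarD.mk cl13 cl7 cl13 0 2 t1
theorem bx2_0 : BoxOK sI cl13 cl13 cl7 t2 t0 b2_0 :=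
  box_mk (TrL.c (I.pos (nat_lit 0) (nat_lit 0)) (xa (xa T2.l0 T2.l0) (xa T2.l0 T2.l0))
  (TrL.c (I.pos (nat_lit 0) (nat_lit 0)) (xa T0.l4 (xk T0.l2 T0.l4))
  (TrL.c (I.pos (nat_lit 0) (nat_lit 134217730)) (xR T2.l4 T2.l4)
  (TrL.c (I.pos (nat_lit 0) (nat_lit 110514882)) (xR T0.l3 (xR T0.l3 T0.l5))
  (TrL.c (I.pos (nat_lit 0) (nat_lit 0)) (xa T0.l7 (xk (xa T0.l7 (xb (xa T0.l7 T0.l7) (xa T0.l7 T0.l7))) (xa T0.l7 (xb T0.l7 (xa T0.l7 T0.l7)))))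
  (TrL.c (I.pos (nat_lit 0) (nat_lit 0)) (xk T2.l6 T2.l6)
  (TrL.c (I.mix (nat_lit 8088324) (nat_lit 110514882)) (xR T0.l6 (xR T0.l6 T0.l6))
  (TrL.c (I.mix (nat_lit 8088324) (nat_lit 89478486)) (xR T2.l2 T2.l7)
  TrL.n)))))))) (by decide +kernel)
theorem bx2_1 : BoxOK sI cl13 cl13 cl7 t2 t0 b2_1 :=
  box_mk (TrL.c (I.pos (nat_lit 0) (nat_lit 0)) T2.l0
  (TrL.c (I.pos (nat_lit 0) (nat_lit 0)) T0.l4
  (TrL.c (I.pos (nat_lit 0) (nat_lit 134217730)) (xR T2.l4 T2.l4)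
  (TrL.c (I.pos (nat_lit 0) (nat_lit 110514882)) (xR T0.l3 (xR T0.l5 T0.l5))
  (TrL.c (I.pos (nat_lit 0) (nat_lit 0)) T0.l7
  (TrL.c (I.pos (nat_lit 0) (nat_lit 0)) T2.l6
  (TrL.c (I.mix (nat_lit 8088324) (nat_lit 110514882)) T0.l6
  (TrL.c (I.mix (nat_lit 8088324) (nat_lit 89478486)) T2.l2
  TrL.n)))))))) (by decide +kernel)
theorem bx2_2 : BoxOK sI cl13 cl13 cl7 t2 t0 b2_2 :=
  box_mk (TrL.c (I.pos (nat_lit 0) (nat_lit 0)) (xa (xa T2.l0 T2.l0) T2.l0)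
  (TrL.c (I.pos (nat_lit 0) (nat_lit 0)) T0.l4
  (TrL.c (I.pos (nat_lit 0) (nat_lit 134217730)) (xR T2.l4 (xR T2.l4 T2.l5))
  (TrL.c (I.pos (nat_lit 0) (nat_lit 110514882)) (xR T0.l1 (xR T0.l5 T0.l5))
  (TrL.c (I.pos (nat_lit 0) (nat_lit 0)) T0.l7
  (TrL.c (I.pos (nat_lit 0) (nat_lit 0)) T2.l6
  (TrL.c (I.mix (nat_lit 8088324) (nat_lit 110514882)) T0.l6
  (TrL.c (I.mix (nat_lit 8088324) (nat_lit 89478486)) T2.l4
  TrL.n)))))))) (by decide +kernel)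
theorem bx2_3 : BoxOK sI cl13 cl13 cl7 t2 t0 b2_3 :=
  box_mk (TrL.c (I.pos (nat_lit 0) (nat_lit 0)) (xa (xb T2.l0 T2.l0) (xb T2.l0 T2.l0))
  (TrL.c (I.pos (nat_lit 0) (nat_lit 0)) (xb T0.l4 T0.l4)
  (TrL.c (I.pos (nat_lit 0) (nat_lit 134217730)) (xR T2.l4 (xR T2.l4 T2.l5))
  (TrL.c (I.pos (nat_lit 0) (nat_lit 110514882)) (xR T0.l3 (xR T0.l5 T0.l5))
  (TrL.c (I.pos (nat_lit 0) (nat_lit 0)) (xb (xa T0.l7 (xk T0.l7 T0.l7)) (xa T0.l7 T0.l7))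
  (TrL.c (I.pos (nat_lit 0) (nat_lit 0)) T2.l6
  (TrL.c (I.mix (nat_lit 8088324) (nat_lit 110514882)) (xR T0.l6 (xR T0.l6 T0.l6))
  (TrL.c (I.mix (nat_lit 8088324) (nat_lit 89478486)) (xR T2.l2 T2.l7)
  TrL.n)))))))) (by decide +kernel)
theorem bx2_4 : BoxOK sI cl13 cl13 cl7 t2 t0 b2_4 :=
  box_mk (TrL.c (I.pos (nat_lit 0) (nat_lit 0)) (xa T2.l0 T2.l0)
  (TrL.c (I.pos (nat_lit 0) (nat_lit 0)) (xa T0.l4 T0.l4)
  (TrL.c (I.pos (nat_lit 0) (nat_lit 134217730)) (xR T2.l4 (xR T2.l4 T2.l5))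
  (TrL.c (I.pos (nat_lit 0) (nat_lit 110514882)) (xR T0.l3 (xR T0.l5 T0.l5))
  (TrL.c (I.pos (nat_lit 0) (nat_lit 0)) (xa T0.l7 T0.l7)
  (TrL.c (I.pos (nat_lit 0) (nat_lit 0)) T2.l6
  (TrL.c (I.mix (nat_lit 8088324) (nat_lit 110514882)) T0.l6
  (TrL.c (I.mix (nat_lit 8088324) (nat_lit 89478486)) T2.l4
  TrL.n)))))))) (by decide +kernel)
theorem bx2_5 : BoxOK sI cl13 cl13 cl7 t2 t0 b2_5 :=
  box_mk (TrL.c (I.pos (nat_lit 0) (nat_lit 0)) T2.l0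
  (TrL.c (I.pos (nat_lit 0) (nat_lit 0)) T0.l4
  (TrL.c (I.pos (nat_lit 0) (nat_lit 134217730)) (xR T2.l4 (xR T2.l4 T2.l5))
  (TrL.c (I.pos (nat_lit 0) (nat_lit 110514882)) (xR T0.l1 T0.l5)
  (TrL.c (I.pos (nat_lit 0) (nat_lit 0)) T0.l7
  (TrL.c (I.pos (nat_lit 0) (nat_lit 0)) T2.l6
  (TrL.c (I.mix (nat_lit 8088324) (nat_lit 110514882)) T0.l6
  (TrL.c (I.mix (nat_lit 8088324) (nat_lit 89478486)) T2.l2
  TrL.n)))))))) (by decide +kernel)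
theorem bx2_6 : BoxOK sI cl13 cl13 cl7 t2 t0 b2_6 :=
  box_mk (TrL.c (I.pos (nat_lit 0) (nat_lit 0)) T2.l0
  (TrL.c (I.pos (nat_lit 0) (nat_lit 0)) T0.l4
  (TrL.c (I.pos (nat_lit 0) (nat_lit 134217730)) (xR T2.l4 T2.l4)
  (TrL.c (I.pos (nat_lit 0) (nat_lit 110514882)) (xR T0.l3 T0.l5)
  (TrL.c (I.pos (nat_lit 0) (nat_lit 0)) T0.l7
  (TrL.c (I.pos (nat_lit 0) (nat_lit 0)) T2.l6
  (TrL.c (I.mix (nat_lit 8088324) (nat_lit 110514882)) T0.l6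
  (TrL.c (I.mix (nat_lit 8088324) (nat_lit 89478486)) T2.l2
  TrL.n)))))))) (by decide +kernel)
theorem bx2_7 : BoxOK sI cl13 cl13 cl7 t2 t0 b2_7 :=
  box_mk (TrL.c (I.pos (nat_lit 0) (nat_lit 0)) T2.l0
  (TrL.c (I.pos (nat_lit 0) (nat_lit 0)) T0.l4
  (TrL.c (I.pos (nat_lit 0) (nat_lit 134217730)) (xR T2.l4 (xR T2.l4 T2.l5))
  (TrL.c (I.pos (nat_lit 0) (nat_lit 110514882)) (xR T0.l1 T0.l5)
  (TrL.c (I.pos (nat_lit 0) (nat_lit 0)) T0.l7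
  (TrL.c (I.pos (nat_lit 0) (nat_lit 0)) T2.l6
  (TrL.c (I.mix (nat_lit 8088324) (nat_lit 110514882)) T0.l6
  (TrL.c (I.mix (nat_lit 8088324) (nat_lit 89478486)) T2.l2
  TrL.n)))))))) (by decide +kernel)
theorem sv2 : StarV sI cl13 cl13 cl7 t2 t0 t2 :=
  (bt_n (bt_n (bt_n (bt_b bx2_0) (bt_b bx2_1)) (bt_n (bt_b bx2_2) (bt_b bx2_3))) (bt_n (bt_n (bt_b bx2_4) (bt_b bx2_5)) (bt_n (bt_b bx2_6) (bt_b bx2_7))))
def S2 : StarD := StarD.mk cl13 cl13 cl7 2 0 t2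
def G : List StarD := [S0, S1, S2]
theorem so0 : StarOK sI G S0 :=
  star_mk (by decide) (by decide) rfl rfl rfl rfl rfl rfl (rfl : _ = t1) (rfl : _ = t1)
  (st_mk (Pth.l (Pth.l (Pth.l Pth.z))) (nat_lit 96177952) (nat_lit 114706090) (by decide +kernel))
  (st_mk (Pth.l (Pth.l (Pth.l Pth.z))) (nat_lit 131371664) (nat_lit 150210641) (by decide +kernel))
  (st_mk (Pth.l (Pth.l (Pth.l Pth.z))) (nat_lit 172094652) (nat_lit 191386333) (by decide +kernel)) sv0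
theorem so1 : StarOK sI G S1 :=
  star_mk (by decide) (by decide) rfl rfl rfl rfl rfl rfl (rfl : _ = t0) (rfl : _ = t2)
  (st_mk (Pth.l (Pth.l (Pth.l Pth.z))) (nat_lit 141873768) (nat_lit 160145289) (by decide +kernel))
  (st_mk (Pth.l (Pth.l (Pth.l Pth.z))) (nat_lit 174891329) (nat_lit 197133960) (by decide +kernel))
  (st_mk (Pth.l (Pth.l (Pth.l Pth.z))) (nat_lit 215156648) (nat_lit 237698026) (by decide +kernel)) sv1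
theorem so2 : StarOK sI G S2 :=
  star_mk (by decide) (by decide) rfl rfl rfl rfl rfl rfl (rfl : _ = t2) (rfl : _ = t0)
  (st_mk (Pth.l (Pth.l (Pth.l Pth.z))) (nat_lit 96368329) (nat_lit 113581749) (by decide +kernel))
  (st_mk (Pth.l (Pth.l (Pth.l Pth.z))) (nat_lit 130728068) (nat_lit 149198411) (by decide +kernel))
  (st_mk (Pth.l (Pth.l (Pth.l Pth.z))) (nat_lit 170993386) (nat_lit 189736579) (by decide +kernel)) sv2
theorem ok : GroupOK (nat_lit 0) (nat_lit 91291648) G := grp_mk (allS_c so0 (allS_c so1 (allS_c so2 allS_n)))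
theorem cov : GCov G cl7 cl13 cl13 := cov_mk
  ⟨0, by decide, rfl, rfl, rfl⟩ ⟨0, by decide, rfl, rfl, rfl⟩ ⟨1, by decide, rfl, rfl, rfl⟩ ⟨2, by decide, rfl, rfl, rfl⟩ ⟨1, by decide, rfl, rfl, rfl⟩ ⟨2, by decide, rfl, rfl, rfl⟩
end Q466_0

namespace Q466_1
def sI : I := I.pos (nat_lit 91226112) (nat_lit 150339584)
def b0_0 : Bx := Bx.mk (St.mk (I.pos (nat_lit 155648000) (nat_lit 247201792)) (I.mix (nat_lit 3309568) (nat_lit 53870592)) (I.mix (nat_lit 5373952) (nat_lit 91488256)) (I.pos (nat_lit 88539136) (nat_lit 233390080)) (I.mix (nat_lit 95977472) (nat_lit 55656448)) (I.mix (nat_lit 74645504) (nat_lit 59293696)) (I.mix (nat_lit 106037248) (nat_lit 76414976)))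
  false (nat_lit 43770920)
def b0_1 : Bx := Bx.mk (St.mk (I.mix (nat_lit 17891328) (nat_lit 148242432)) (I.mix (nat_lit 7471104) (nat_lit 24395776)) (I.mix (nat_lit 13238272) (nat_lit 21086208)) (I.mix (nat_lit 5849088) (nat_lit 93650944)) (I.mix (nat_lit 23429120) (nat_lit 23445504)) (I.mix (nat_lit 25214976) (nat_lit 16482304)) (I.mix (nat_lit 21708800) (nat_lit 11714560)))
  false (nat_lit 0)
def b0_2 : Bx := Bx.mk (St.mk (I.pos (nat_lit 115589120) (nat_lit 162381824)) (I.mix (nat_lit 50905088) (nat_lit 9404416)) (I.mix (nat_lit 58261504) (nat_lit 6864896)) (I.pos (nat_lit 51019776) (nat_lit 114589696)) (I.mix (nat_lit 74170368) (nat_lit 25378816)) (I.mix (nat_lit 29179904) (nat_lit 66928640)) (I.mix (nat_lit 25231360) (nat_lit 62636032)))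
  false (nat_lit 0)
def b0_3 : Bx := Bx.mk (St.mk (I.mix (nat_lit 16416768) (nat_lit 113246208)) (I.mix (nat_lit 23707648) (nat_lit 3309568)) (I.mix (nat_lit 19759104) (nat_lit 1671168)) (I.mix (nat_lit 4014080) (nat_lit 61063168)) (I.mix (nat_lit 27836416) (nat_lit 13549568)) (I.mix (nat_lit 13762560) (nat_lit 26689536)) (I.mix (nat_lit 8323072) (nat_lit 17088512)))
  false (nat_lit 0)
def b0_4 : Bx := Bx.mk (St.mk (I.pos (nat_lit 199933952) (nat_lit 284622848)) (I.mix (nat_lit 23379968) (nat_lit 41598976)) (I.mix (nat_lit 65617920) (nat_lit 69009408)) (I.pos (nat_lit 178978816) (nat_lit 319062016)) (I.mix (nat_lit 72679424) (nat_lit 41435136)) (I.mix (nat_lit 56786944) (nat_lit 33685504)) (I.mix (nat_lit 85917696) (nat_lit 62734336)))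
  false (nat_lit 21661054)
def b0_5 : Bx := Bx.mk (St.mk (I.pos (nat_lit 114720768) (nat_lit 186793984)) (I.mix (nat_lit 54755328) (nat_lit 2686976)) (I.neg (nat_lit 589824) (nat_lit 64077824)) (I.pos (nat_lit 65601536) (nat_lit 145915904)) (I.mix (nat_lit 72695808) (nat_lit 36487168)) (I.mix (nat_lit 40812544) (nat_lit 57344000)) (I.mix (nat_lit 35454976) (nat_lit 60538880)))
  false (nat_lit 0)
def b0_6 : Bx := Bx.mk (St.mk (I.mix (nat_lit 19775488) (nat_lit 120258560)) (I.mix (nat_lit 27082752) (nat_lit 7061504)) (I.mix (nat_lit 21921792) (nat_lit 2080768)) (I.mix (nat_lit 5111808) (nat_lit 68059136)) (I.mix (nat_lit 26542080) (nat_lit 21217280)) (I.mix (nat_lit 17596416) (nat_lit 25296896)) (I.mix (nat_lit 10633216) (nat_lit 18251776)))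
  false (nat_lit 0)
def b0_7 : Bx := Bx.mk (St.mk (I.pos (nat_lit 177143808) (nat_lit 225525760)) (I.mix (nat_lit 17072128) (nat_lit 55738368)) (I.mix (nat_lit 6766592) (nat_lit 89063424)) (I.pos (nat_lit 120061952) (nat_lit 203112448)) (I.mix (nat_lit 115851264) (nat_lit 46071808)) (I.mix (nat_lit 121946112) (nat_lit 63537152)) (I.mix (nat_lit 142802944) (nat_lit 66256896)))
  false (nat_lit 15030051)
def b0_8 : Bx := Bx.mk (St.mk (I.mix (nat_lit 24166400) (nat_lit 143114240)) (I.mix (nat_lit 14172160) (nat_lit 34832384)) (I.mix (nat_lit 13549568) (nat_lit 27983872)) (I.mix (nat_lit 6225920) (nat_lit 86786048)) (I.mix (nat_lit 43220992) (nat_lit 24690688)) (I.mix (nat_lit 43646976) (nat_lit 24395776)) (I.mix (nat_lit 31752192) (nat_lit 16990208)))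
  false (nat_lit 0)
def b0_9 : Bx := Bx.mk (St.mk (I.pos (nat_lit 159744000) (nat_lit 220823552)) (I.mix (nat_lit 43057152) (nat_lit 23150592)) (I.mix (nat_lit 49119232) (nat_lit 41058304)) (I.pos (nat_lit 99581952) (nat_lit 192315392)) (I.mix (nat_lit 53608448) (nat_lit 52527104)) (I.mix (nat_lit 59965440) (nat_lit 54460416)) (I.mix (nat_lit 63832064) (nat_lit 58490880)))
  false (nat_lit 31339897)
def b0_10 : Bx := Bx.mk (St.mk (I.pos (nat_lit 177455104) (nat_lit 220577792)) (I.mix (nat_lit 17661952) (nat_lit 39632896)) (I.mix (nat_lit 10420224) (nat_lit 65290240)) (I.pos (nat_lit 123207680) (nat_lit 192200704)) (I.mix (nat_lit 109019136) (nat_lit 69058560)) (I.mix (nat_lit 129810432) (nat_lit 74661888)) (I.mix (nat_lit 153255936) (nat_lit 79003648)))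
  false (nat_lit 0)
def b0_11 : Bx := Bx.mk (St.mk (I.pos (nat_lit 190431232) (nat_lit 241664000)) (I.pos (nat_lit 12337152) (nat_lit 54968320)) (I.pos (nat_lit 21020672) (nat_lit 93028352)) (I.pos (nat_lit 167755776) (nat_lit 222871552)) (I.mix (nat_lit 91865088) (nat_lit 63799296)) (I.mix (nat_lit 85295104) (nat_lit 60407808)) (I.mix (nat_lit 134152192) (nat_lit 75595776)))
  false (nat_lit 33930388)
def t0 : BTr := (BTr.n (BTr.n (BTr.n (BTr.b b0_0) (BTr.n (BTr.b b0_1) (BTr.b b0_2))) (BTr.n (BTr.b b0_3) (BTr.n (BTr.b b0_4) (BTr.b b0_5)))) (BTr.n (BTr.n (BTr.b b0_6) (BTr.n (BTr.b b0_7) (BTr.b b0_8))) (BTr.n (BTr.b b0_9) (BTr.n (BTr.b b0_10) (BTr.b b0_11)))))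
namespace T0
def l0 : Tr := Tr.L (Pth.l (Pth.l (Pth.l Pth.z)))
def l1 : Tr := Tr.L (Pth.l (Pth.l (Pth.r (Pth.l Pth.z))))
def l2 : Tr := Tr.L (Pth.l (Pth.l (Pth.r (Pth.r Pth.z))))
def l3 : Tr := Tr.L (Pth.l (Pth.r (Pth.l Pth.z)))
def l4 : Tr := Tr.L (Pth.l (Pth.r (Pth.r (Pth.l Pth.z))))
def l5 : Tr := Tr.L (Pth.l (Pth.r (Pth.r (Pth.r Pth.z))))
def l6 : Tr := Tr.L (Pth.r (Pth.l (Pth.l Pth.z)))
def l7 : Tr := Tr.L (Pth.r (Pth.l (Pth.r (Pth.l Pth.z))))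
def l8 : Tr := Tr.L (Pth.r (Pth.l (Pth.r (Pth.r Pth.z))))
def l9 : Tr := Tr.L (Pth.r (Pth.r (Pth.l Pth.z)))
def l10 : Tr := Tr.L (Pth.r (Pth.r (Pth.r (Pth.l Pth.z))))
def l11 : Tr := Tr.L (Pth.r (Pth.r (Pth.r (Pth.r Pth.z))))
end T0
def b1_0 : Bx := Bx.mk (St.mk (I.pos (nat_lit 156041216) (nat_lit 240058368)) (I.mix (nat_lit 3522560) (nat_lit 61685760)) (I.mix (nat_lit 5783552) (nat_lit 103809024)) (I.pos (nat_lit 134660096) (nat_lit 269484032)) (I.mix (nat_lit 103792640) (nat_lit 56655872)) (I.mix (nat_lit 79921152) (nat_lit 62390272)) (I.mix (nat_lit 108281856) (nat_lit 77889536)))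
  false (nat_lit 86539730)
def b1_1 : Bx := Bx.mk (St.mk (I.pos (nat_lit 97845248) (nat_lit 176750592)) (I.mix (nat_lit 65683456) (nat_lit 49152)) (I.mix (nat_lit 63897600) (nat_lit 3571712)) (I.pos (nat_lit 92667904) (nat_lit 178946048)) (I.mix (nat_lit 72679424) (nat_lit 40124416)) (I.mix (nat_lit 38928384) (nat_lit 58720256)) (I.mix (nat_lit 29655040) (nat_lit 55623680)))
  false (nat_lit 0)
def b1_2 : Bx := Bx.mk (St.mk (I.mix (nat_lit 31981568) (nat_lit 124207104)) (I.mix (nat_lit 6946816) (nat_lit 33636352)) (I.mix (nat_lit 13025280) (nat_lit 23691264)) (I.pos (nat_lit 36372480) (nat_lit 117194752)) (I.mix (nat_lit 31342592) (nat_lit 29818880)) (I.mix (nat_lit 32964608) (nat_lit 21331968)) (I.mix (nat_lit 23658496) (nat_lit 15564800)))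
  false (nat_lit 0)
def b1_3 : Bx := Bx.mk (St.mk (I.mix (nat_lit 31457280) (nat_lit 87179264)) (I.mix (nat_lit 33849344) (nat_lit 6848512)) (I.mix (nat_lit 20791296) (nat_lit 6144000)) (I.pos (nat_lit 36782080) (nat_lit 91127808)) (I.mix (nat_lit 29294592) (nat_lit 27492352)) (I.mix (nat_lit 19939328) (nat_lit 30392320)) (I.mix (nat_lit 11206656) (nat_lit 16400384)))
  false (nat_lit 0)
def b1_4 : Bx := Bx.mk (St.mk (I.pos (nat_lit 167870464) (nat_lit 220987392)) (I.mix (nat_lit 10862592) (nat_lit 64978944)) (I.pos (nat_lit 2867200) (nat_lit 102383616)) (I.pos (nat_lit 153927680) (nat_lit 239779840)) (I.mix (nat_lit 118063104) (nat_lit 41402368)) (I.mix (nat_lit 120291328) (nat_lit 57688064)) (I.mix (nat_lit 129908736) (nat_lit 55459840)))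
  false (nat_lit 50513097)
def b1_5 : Bx := Bx.mk (St.mk (I.pos (nat_lit 92323840) (nat_lit 147849216)) (I.mix (nat_lit 60227584) (nat_lit 8994816)) (I.mix (nat_lit 59129856) (nat_lit 4243456)) (I.pos (nat_lit 77299712) (nat_lit 143769600)) (I.mix (nat_lit 77119488) (nat_lit 28884992)) (I.mix (nat_lit 34848768) (nat_lit 71122944)) (I.mix (nat_lit 25722880) (nat_lit 54919168)))
  false (nat_lit 0)
def b1_6 : Bx := Bx.mk (St.mk (I.mix (nat_lit 40812544) (nat_lit 113934336)) (I.mix (nat_lit 13582336) (nat_lit 38977536)) (I.mix (nat_lit 10289152) (nat_lit 27557888)) (I.pos (nat_lit 38797312) (nat_lit 108462080)) (I.mix (nat_lit 41779200) (nat_lit 24133632)) (I.mix (nat_lit 43253760) (nat_lit 24166400)) (I.mix (nat_lit 24248320) (nat_lit 14155776)))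
  false (nat_lit 0)
def b1_7 : Bx := Bx.mk (St.mk (I.mix (nat_lit 39419904) (nat_lit 75448320)) (I.mix (nat_lit 30146560) (nat_lit 5095424)) (I.mix (nat_lit 16924672) (nat_lit 5406720)) (I.pos (nat_lit 39960576) (nat_lit 82952192)) (I.mix (nat_lit 29900800) (nat_lit 16891904)) (I.mix (nat_lit 15532032) (nat_lit 29016064)) (I.mix (nat_lit 8011776) (nat_lit 11272192)))
  false (nat_lit 0)
def b1_8 : Bx := Bx.mk (St.mk (I.pos (nat_lit 203014144) (nat_lit 284688384)) (I.mix (nat_lit 18972672) (nat_lit 46104576)) (I.mix (nat_lit 57556992) (nat_lit 76939264)) (I.pos (nat_lit 216678400) (nat_lit 361316352)) (I.mix (nat_lit 62373888) (nat_lit 49201152)) (I.mix (nat_lit 52199424) (nat_lit 34340864)) (I.mix (nat_lit 85753856) (nat_lit 53379072)))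
  false (nat_lit 72287661)
def b1_9 : Bx := Bx.mk (St.mk (I.pos (nat_lit 147685376) (nat_lit 212320256)) (I.mix (nat_lit 43368448) (nat_lit 27754496)) (I.mix (nat_lit 41697280) (nat_lit 52936704)) (I.pos (nat_lit 129482752) (nat_lit 225247232)) (I.mix (nat_lit 57524224) (nat_lit 53870592)) (I.mix (nat_lit 61390848) (nat_lit 55787520)) (I.mix (nat_lit 61145088) (nat_lit 55525376)))
  false (nat_lit 6493125)
def b1_10 : Bx := Bx.mk (St.mk (I.pos (nat_lit 181501952) (nat_lit 234749952)) (I.pos (nat_lit 15400960) (nat_lit 61079552)) (I.pos (nat_lit 26492928) (nat_lit 102612992)) (I.pos (nat_lit 198508544) (nat_lit 256884736)) (I.mix (nat_lit 100990976) (nat_lit 72073216)) (I.mix (nat_lit 91799552) (nat_lit 67108864)) (I.mix (nat_lit 138248192) (nat_lit 79200256)))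
  false (nat_lit 34732745)
def b1_11 : Bx := Bx.mk (St.mk (I.pos (nat_lit 167591936) (nat_lit 217563136)) (I.mix (nat_lit 16613376) (nat_lit 46399488)) (I.mix (nat_lit 1835008) (nat_lit 79003648)) (I.pos (nat_lit 155123712) (nat_lit 230785024)) (I.mix (nat_lit 116621312) (nat_lit 66453504)) (I.mix (nat_lit 134873088) (nat_lit 76120064)) (I.mix (nat_lit 147456000) (nat_lit 74301440)))
  false (nat_lit 18684659)
def t1 : BTr := (BTr.n (BTr.n (BTr.n (BTr.b b1_0) (BTr.n (BTr.b b1_1) (BTr.b b1_2))) (BTr.n (BTr.b b1_3) (BTr.n (BTr.b b1_4) (BTr.b b1_5)))) (BTr.n (BTr.n (BTr.b b1_6) (BTr.n (BTr.b b1_7) (BTr.b b1_8))) (BTr.n (BTr.b b1_9) (BTr.n (BTr.b b1_10) (BTr.b b1_11)))))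
namespace T1
def l0 : Tr := Tr.L (Pth.l (Pth.l (Pth.l Pth.z)))
def l1 : Tr := Tr.L (Pth.l (Pth.l (Pth.r (Pth.l Pth.z))))
def l2 : Tr := Tr.L (Pth.l (Pth.l (Pth.r (Pth.r Pth.z))))
def l3 : Tr := Tr.L (Pth.l (Pth.r (Pth.l Pth.z)))
def l4 : Tr := Tr.L (Pth.l (Pth.r (Pth.r (Pth.l Pth.z))))
def l5 : Tr := Tr.L (Pth.l (Pth.r (Pth.r (Pth.r Pth.z))))
def l6 : Tr := Tr.L (Pth.r (Pth.l (Pth.l Pth.z)))
def l7 : Tr := Tr.L (Pth.r (Pth.l (Pth.r (Pth.l Pth.z))))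
def l8 : Tr := Tr.L (Pth.r (Pth.l (Pth.r (Pth.r Pth.z))))
def l9 : Tr := Tr.L (Pth.r (Pth.r (Pth.l Pth.z)))
def l10 : Tr := Tr.L (Pth.r (Pth.r (Pth.r (Pth.l Pth.z))))
def l11 : Tr := Tr.L (Pth.r (Pth.r (Pth.r (Pth.r Pth.z))))
end T1
def b2_0 : Bx := Bx.mk (St.mk (I.pos (nat_lit 155844608) (nat_lit 243712000)) (I.mix (nat_lit 2883584) (nat_lit 51625984)) (I.mix (nat_lit 5701632) (nat_lit 104873984)) (I.pos (nat_lit 88473600) (nat_lit 226017280)) (I.mix (nat_lit 102842368) (nat_lit 62685184)) (I.mix (nat_lit 87588864) (nat_lit 70467584)) (I.mix (nat_lit 125665280) (nat_lit 92274688)))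
  false (nat_lit 20770497)
def b2_1 : Bx := Bx.mk (St.mk (I.pos (nat_lit 119603200) (nat_lit 191217664)) (I.neg (nat_lit 802816) (nat_lit 55427072)) (I.mix (nat_lit 51724288) (nat_lit 10567680)) (I.pos (nat_lit 69238784) (nat_lit 150618112)) (I.mix (nat_lit 63979520) (nat_lit 35471360)) (I.mix (nat_lit 36012032) (nat_lit 50429952)) (I.mix (nat_lit 29818880) (nat_lit 51904512)))
  false (nat_lit 0)
def b2_2 : Bx := Bx.mk (St.mk (I.mix (nat_lit 15007744) (nat_lit 122765312)) (I.mix (nat_lit 26017792) (nat_lit 5668864)) (I.mix (nat_lit 17154048) (nat_lit 8568832)) (I.mix (nat_lit 4472832) (nat_lit 69304320)) (I.mix (nat_lit 22183936) (nat_lit 18907136)) (I.mix (nat_lit 14221312) (nat_lit 20905984)) (I.mix (nat_lit 9551872) (nat_lit 14909440)))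
  false (nat_lit 0)
def b2_3 : Bx := Bx.mk (St.mk (I.pos (nat_lit 175915008) (nat_lit 222593024)) (I.mix (nat_lit 16400384) (nat_lit 54378496)) (I.pos (nat_lit 3063808) (nat_lit 100368384)) (I.pos (nat_lit 117178368) (nat_lit 196460544)) (I.mix (nat_lit 118063104) (nat_lit 48726016)) (I.mix (nat_lit 127795200) (nat_lit 68583424)) (I.mix (nat_lit 152944640) (nat_lit 64897024)))
  false (nat_lit 29187677)
def b2_4 : Bx := Bx.mk (St.mk (I.mix (nat_lit 18448384) (nat_lit 143818752)) (I.mix (nat_lit 14368768) (nat_lit 34766848)) (I.mix (nat_lit 8454144) (nat_lit 33964032)) (I.mix (nat_lit 5406720) (nat_lit 85786624)) (I.mix (nat_lit 45285376) (nat_lit 23150592)) (I.mix (nat_lit 43319296) (nat_lit 22183936)) (I.mix (nat_lit 32702464) (nat_lit 14909440)))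
  false (nat_lit 0)
def b2_5 : Bx := Bx.mk (St.mk (I.pos (nat_lit 156631040) (nat_lit 218251264)) (I.mix (nat_lit 41336832) (nat_lit 19759104)) (I.mix (nat_lit 36110336) (nat_lit 50036736)) (I.pos (nat_lit 98811904) (nat_lit 186679296)) (I.mix (nat_lit 53411840) (nat_lit 56606720)) (I.mix (nat_lit 59359232) (nat_lit 57376768)) (I.mix (nat_lit 62455808) (nat_lit 61145088)))
  false (nat_lit 22356805)
def b2_6 : Bx := Bx.mk (St.mk (I.pos (nat_lit 175472640) (nat_lit 221462528)) (I.mix (nat_lit 20971520) (nat_lit 38027264)) (I.mix (nat_lit 163840) (nat_lit 76464128)) (I.pos (nat_lit 116932608) (nat_lit 190070784)) (I.mix (nat_lit 110362624) (nat_lit 66519040)) (I.mix (nat_lit 129548288) (nat_lit 70303744)) (I.mix (nat_lit 155516928) (nat_lit 70139904)))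
  false (nat_lit 10349325)
def b2_7 : Bx := Bx.mk (St.mk (I.pos (nat_lit 117194752) (nat_lit 166035456)) (I.mix (nat_lit 53198848) (nat_lit 8749056)) (I.mix (nat_lit 51691520) (nat_lit 13910016)) (I.pos (nat_lit 52428800) (nat_lit 118538240)) (I.mix (nat_lit 73449472) (nat_lit 28983296)) (I.mix (nat_lit 32243712) (nat_lit 68108288)) (I.mix (nat_lit 28327936) (nat_lit 61112320)))
  false (nat_lit 0)
def b2_8 : Bx := Bx.mk (St.mk (I.pos (nat_lit 194707456) (nat_lit 282443776)) (I.mix (nat_lit 16515072) (nat_lit 40108032)) (I.mix (nat_lit 26787840) (nat_lit 88457216)) (I.pos (nat_lit 164593664) (nat_lit 310755328)) (I.mix (nat_lit 73646080) (nat_lit 44695552)) (I.mix (nat_lit 58703872) (nat_lit 35684352)) (I.mix (nat_lit 90963968) (nat_lit 53870592)))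
  false (nat_lit 46296173)
def b2_9 : Bx := Bx.mk (St.mk (I.mix (nat_lit 26771456) (nat_lit 146522112)) (I.mix (nat_lit 5832704) (nat_lit 23592960)) (I.mix (nat_lit 4046848) (nat_lit 26869760)) (I.mix (nat_lit 6897664) (nat_lit 91848704)) (I.mix (nat_lit 30834688) (nat_lit 25542656)) (I.mix (nat_lit 31719424) (nat_lit 22052864)) (I.mix (nat_lit 27738112) (nat_lit 16908288)))
  false (nat_lit 0)
def b2_10 : Bx := Bx.mk (St.mk (I.mix (nat_lit 12648448) (nat_lit 109510656)) (I.mix (nat_lit 23937024) (nat_lit 1474560)) (I.mix (nat_lit 15466496) (nat_lit 5521408)) (I.mix (nat_lit 327680) (nat_lit 61063168)) (I.mix (nat_lit 27131904) (nat_lit 17137664)) (I.mix (nat_lit 15843328) (nat_lit 27115520)) (I.mix (nat_lit 9420800) (nat_lit 16482304)))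
  false (nat_lit 0)
def b2_11 : Bx := Bx.mk (St.mk (I.pos (nat_lit 186613760) (nat_lit 241385472)) (I.pos (nat_lit 5242880) (nat_lit 51183616)) (I.pos (nat_lit 20725760) (nat_lit 104366080)) (I.pos (nat_lit 159023104) (nat_lit 217743360)) (I.mix (nat_lit 97058816) (nat_lit 67780608)) (I.mix (nat_lit 92110848) (nat_lit 67878912)) (I.mix (nat_lit 143933440) (nat_lit 88702976)))
  false (nat_lit 30233275)
def t2 : BTr := (BTr.n (BTr.n (BTr.n (BTr.b b2_0) (BTr.n (BTr.b b2_1) (BTr.b b2_2))) (BTr.n (BTr.b b2_3) (BTr.n (BTr.b b2_4) (BTr.b b2_5)))) (BTr.n (BTr.n (BTr.b b2_6) (BTr.n (BTr.b b2_7) (BTr.b b2_8))) (BTr.n (BTr.b b2_9) (BTr.n (BTr.b b2_10) (BTr.b b2_11)))))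
namespace T2
def l0 : Tr := Tr.L (Pth.l (Pth.l (Pth.l Pth.z)))
def l1 : Tr := Tr.L (Pth.l (Pth.l (Pth.r (Pth.l Pth.z))))
def l2 : Tr := Tr.L (Pth.l (Pth.l (Pth.r (Pth.r Pth.z))))
def l3 : Tr := Tr.L (Pth.l (Pth.r (Pth.l Pth.z)))
def l4 : Tr := Tr.L (Pth.l (Pth.r (Pth.r (Pth.l Pth.z))))
def l5 : Tr := Tr.L (Pth.l (Pth.r (Pth.r (Pth.r Pth.z))))
def l6 : Tr := Tr.L (Pth.r (Pth.l (Pth.l Pth.z)))
def l7 : Tr := Tr.L (Pth.r (Pth.l (Pth.r (Pth.l Pth.z))))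
def l8 : Tr := Tr.L (Pth.r (Pth.l (Pth.r (Pth.r Pth.z))))
def l9 : Tr := Tr.L (Pth.r (Pth.r (Pth.l Pth.z)))
def l10 : Tr := Tr.L (Pth.r (Pth.r (Pth.r (Pth.l Pth.z))))
def l11 : Tr := Tr.L (Pth.r (Pth.r (Pth.r (Pth.r Pth.z))))
end T2
theorem bx0_0 : BoxOK sI cl7 cl13 cl13 t1 t1 b0_0 :=
  box_mk (TrL.c (I.pos (nat_lit 0) (nat_lit 0)) (xa (xa T1.l0 T1.l0) T1.l0)
  (TrL.c (I.pos (nat_lit 0) (nat_lit 0)) T1.l1
  (TrL.c (I.pos (nat_lit 0) (nat_lit 111196574)) (xR T1.l2 T1.l2)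
  (TrL.c (I.pos (nat_lit 0) (nat_lit 77433728)) T1.l3
  (TrL.c (I.pos (nat_lit 0) (nat_lit 0)) (xa T1.l4 (xk T1.l4 T1.l4))
  (TrL.c (I.pos (nat_lit 0) (nat_lit 0)) T1.l5
  (TrL.c (I.mix (nat_lit 29511666) (nat_lit 77433728)) (xR T1.l6 T1.l6)
  (TrL.c (I.mix (nat_lit 29511666) (nat_lit 46070178)) T1.l7
  TrL.n)))))))) (by decide +kernel)
theorem bx0_1 : BoxOK sI cl7 cl13 cl13 t1 t1 b0_1 :=
  box_mk (TrL.c (I.pos (nat_lit 0) (nat_lit 0)) (xa T1.l8 (xa T1.l8 T1.l8))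
  (TrL.c (I.pos (nat_lit 0) (nat_lit 0)) T1.l1
  (TrL.c (I.pos (nat_lit 0) (nat_lit 111196574)) T1.l2
  (TrL.c (I.pos (nat_lit 0) (nat_lit 77433728)) T1.l3
  (TrL.c (I.pos (nat_lit 0) (nat_lit 0)) (xa T1.l9 T1.l9)
  (TrL.c (I.pos (nat_lit 0) (nat_lit 0)) T1.l5
  (TrL.c (I.mix (nat_lit 29511666) (nat_lit 77433728)) T1.l6
  (TrL.c (I.mix (nat_lit 29511666) (nat_lit 46070178)) T1.l7
  TrL.n)))))))) (by decide +kernel)
theorem bx0_2 : BoxOK sI cl7 cl13 cl13 t1 t1 b0_2 :=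
  box_mk (TrL.c (I.pos (nat_lit 0) (nat_lit 0)) T1.l8
  (TrL.c (I.pos (nat_lit 0) (nat_lit 0)) T1.l1
  (TrL.c (I.pos (nat_lit 0) (nat_lit 111196574)) T1.l2
  (TrL.c (I.pos (nat_lit 0) (nat_lit 77433728)) T1.l3
  (TrL.c (I.pos (nat_lit 0) (nat_lit 0)) T1.l9
  (TrL.c (I.pos (nat_lit 0) (nat_lit 0)) T1.l5
  (TrL.c (I.mix (nat_lit 29511666) (nat_lit 77433728)) T1.l6
  (TrL.c (I.mix (nat_lit 29511666) (nat_lit 46070178)) T1.l7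
  TrL.n)))))))) (by decide +kernel)
theorem bx0_3 : BoxOK sI cl7 cl13 cl13 t1 t1 b0_3 :=
  box_mk (TrL.c (I.pos (nat_lit 0) (nat_lit 0)) T1.l8
  (TrL.c (I.pos (nat_lit 0) (nat_lit 0)) T1.l1
  (TrL.c (I.pos (nat_lit 0) (nat_lit 111196574)) T1.l2
  (TrL.c (I.pos (nat_lit 0) (nat_lit 77433728)) T1.l3
  (TrL.c (I.pos (nat_lit 0) (nat_lit 0)) T1.l9
  (TrL.c (I.pos (nat_lit 0) (nat_lit 0)) T1.l5
  (TrL.c (I.mix (nat_lit 29511666) (nat_lit 77433728)) T1.l6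
  (TrL.c (I.mix (nat_lit 29511666) (nat_lit 46070178)) T1.l7
  TrL.n)))))))) (by decide +kernel)
theorem bx0_4 : BoxOK sI cl7 cl13 cl13 t1 t1 b0_4 :=
  box_mk (TrL.c (I.pos (nat_lit 0) (nat_lit 0)) (xa T1.l0 T1.l0)
  (TrL.c (I.pos (nat_lit 0) (nat_lit 0)) T1.l1
  (TrL.c (I.pos (nat_lit 0) (nat_lit 111196574)) (xR T1.l2 T1.l6)
  (TrL.c (I.pos (nat_lit 0) (nat_lit 77433728)) T1.l3
  (TrL.c (I.pos (nat_lit 0) (nat_lit 0)) (xa (xb T1.l4 T1.l4) (xb (xk (xa T1.l4 T1.l4) T1.l4) (xk (xa T1.l4 T1.l4) (xa T1.l4 T1.l4))))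
  (TrL.c (I.pos (nat_lit 0) (nat_lit 0)) T1.l5
  (TrL.c (I.mix (nat_lit 29511666) (nat_lit 77433728)) (xR T1.l6 T1.l6)
  (TrL.c (I.mix (nat_lit 29511666) (nat_lit 46070178)) T1.l7
  TrL.n)))))))) (by decide +kernel)
theorem bx0_5 : BoxOK sI cl7 cl13 cl13 t1 t1 b0_5 :=
  box_mk (TrL.c (I.pos (nat_lit 0) (nat_lit 0)) (xa T1.l8 T1.l0)
  (TrL.c (I.pos (nat_lit 0) (nat_lit 0)) T1.l1
  (TrL.c (I.pos (nat_lit 0) (nat_lit 111196574)) T1.l2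
  (TrL.c (I.pos (nat_lit 0) (nat_lit 77433728)) T1.l3
  (TrL.c (I.pos (nat_lit 0) (nat_lit 0)) T1.l9
  (TrL.c (I.pos (nat_lit 0) (nat_lit 0)) T1.l5
  (TrL.c (I.mix (nat_lit 29511666) (nat_lit 77433728)) T1.l2
  (TrL.c (I.mix (nat_lit 29511666) (nat_lit 46070178)) T1.l7
  TrL.n)))))))) (by decide +kernel)
theorem bx0_6 : BoxOK sI cl7 cl13 cl13 t1 t1 b0_6 :=
  box_mk (TrL.c (I.pos (nat_lit 0) (nat_lit 0)) (xa (xa T1.l8 T1.l8) T1.l8)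
  (TrL.c (I.pos (nat_lit 0) (nat_lit 0)) T1.l1
  (TrL.c (I.pos (nat_lit 0) (nat_lit 111196574)) T1.l2
  (TrL.c (I.pos (nat_lit 0) (nat_lit 77433728)) T1.l3
  (TrL.c (I.pos (nat_lit 0) (nat_lit 0)) T1.l9
  (TrL.c (I.pos (nat_lit 0) (nat_lit 0)) T1.l5
  (TrL.c (I.mix (nat_lit 29511666) (nat_lit 77433728)) T1.l6
  (TrL.c (I.mix (nat_lit 29511666) (nat_lit 46070178)) T1.l7
  TrL.n)))))))) (by decide +kernel)
theorem bx0_7 : BoxOK sI cl7 cl13 cl13 t1 t1 b0_7 :=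
  box_mk (TrL.c (I.pos (nat_lit 0) (nat_lit 0)) (xb T1.l10 T1.l10)
  (TrL.c (I.pos (nat_lit 0) (nat_lit 0)) T1.l1
  (TrL.c (I.pos (nat_lit 0) (nat_lit 111196574)) (xR T1.l2 T1.l2)
  (TrL.c (I.pos (nat_lit 0) (nat_lit 77433728)) T1.l3
  (TrL.c (I.pos (nat_lit 0) (nat_lit 0)) (xb T1.l11 T1.l11)
  (TrL.c (I.pos (nat_lit 0) (nat_lit 0)) T1.l5
  (TrL.c (I.mix (nat_lit 29511666) (nat_lit 77433728)) (xR T1.l6 T1.l6)
  (TrL.c (I.mix (nat_lit 29511666) (nat_lit 46070178)) T1.l7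
  TrL.n)))))))) (by decide +kernel)
theorem bx0_8 : BoxOK sI cl7 cl13 cl13 t1 t1 b0_8 :=
  box_mk (TrL.c (I.pos (nat_lit 0) (nat_lit 0)) (xa (xa (xb T1.l8 T1.l8) T1.l8) (xa T1.l8 T1.l8))
  (TrL.c (I.pos (nat_lit 0) (nat_lit 0)) T1.l1
  (TrL.c (I.pos (nat_lit 0) (nat_lit 111196574)) T1.l2
  (TrL.c (I.pos (nat_lit 0) (nat_lit 77433728)) T1.l3
  (TrL.c (I.pos (nat_lit 0) (nat_lit 0)) (xa T1.l9 T1.l9)
  (TrL.c (I.pos (nat_lit 0) (nat_lit 0)) T1.l5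
  (TrL.c (I.mix (nat_lit 29511666) (nat_lit 77433728)) T1.l6
  (TrL.c (I.mix (nat_lit 29511666) (nat_lit 46070178)) T1.l7
  TrL.n)))))))) (by decide +kernel)
theorem bx0_9 : BoxOK sI cl7 cl13 cl13 t1 t1 b0_9 :=
  box_mk (TrL.c (I.pos (nat_lit 0) (nat_lit 0)) T1.l0
  (TrL.c (I.pos (nat_lit 0) (nat_lit 0)) T1.l1
  (TrL.c (I.pos (nat_lit 0) (nat_lit 111196574)) (xR T1.l2 T1.l2)
  (TrL.c (I.pos (nat_lit 0) (nat_lit 77433728)) T1.l3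
  (TrL.c (I.pos (nat_lit 0) (nat_lit 0)) (xb T1.l11 T1.l11)
  (TrL.c (I.pos (nat_lit 0) (nat_lit 0)) T1.l5
  (TrL.c (I.mix (nat_lit 29511666) (nat_lit 77433728)) (xR T1.l6 T1.l6)
  (TrL.c (I.mix (nat_lit 29511666) (nat_lit 46070178)) T1.l7
  TrL.n)))))))) (by decide +kernel)
theorem bx0_10 : BoxOK sI cl7 cl13 cl13 t1 t1 b0_10 :=
  box_mk (TrL.c (I.pos (nat_lit 0) (nat_lit 0)) T1.l10
  (TrL.c (I.pos (nat_lit 0) (nat_lit 0)) T1.l1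
  (TrL.c (I.pos (nat_lit 0) (nat_lit 111196574)) (xR T1.l2 T1.l2)
  (TrL.c (I.pos (nat_lit 0) (nat_lit 77433728)) T1.l3
  (TrL.c (I.pos (nat_lit 0) (nat_lit 0)) T1.l11
  (TrL.c (I.pos (nat_lit 0) (nat_lit 0)) T1.l5
  (TrL.c (I.mix (nat_lit 29511666) (nat_lit 77433728)) (xR T1.l6 T1.l6)
  (TrL.c (I.mix (nat_lit 29511666) (nat_lit 46070178)) T1.l3
  TrL.n)))))))) (by decide +kernel)
theorem bx0_11 : BoxOK sI cl7 cl13 cl13 t1 t1 b0_11 :=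
  box_mk (TrL.c (I.pos (nat_lit 0) (nat_lit 0)) T1.l0
  (TrL.c (I.pos (nat_lit 0) (nat_lit 0)) T1.l1
  (TrL.c (I.pos (nat_lit 0) (nat_lit 111196574)) (xR T1.l2 T1.l2)
  (TrL.c (I.pos (nat_lit 0) (nat_lit 77433728)) T1.l3
  (TrL.c (I.pos (nat_lit 0) (nat_lit 0)) (xk T1.l4 T1.l4)
  (TrL.c (I.pos (nat_lit 0) (nat_lit 0)) T1.l5
  (TrL.c (I.mix (nat_lit 29511666) (nat_lit 77433728)) (xR T1.l6 T1.l6)
  (TrL.c (I.mix (nat_lit 29511666) (nat_lit 46070178)) T1.l3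
  TrL.n)))))))) (by decide +kernel)
theorem sv0 : StarV sI cl7 cl13 cl13 t1 t1 t0 :=
  (bt_n (bt_n (bt_n (bt_b bx0_0) (bt_n (bt_b bx0_1) (bt_b bx0_2))) (bt_n (bt_b bx0_3) (bt_n (bt_b bx0_4) (bt_b bx0_5)))) (bt_n (bt_n (bt_b bx0_6) (bt_n (bt_b bx0_7) (bt_b bx0_8))) (bt_n (bt_b bx0_9) (bt_n (bt_b bx0_10) (bt_b bx0_11)))))
def S0 : StarD := StarD.mk cl7 cl13 cl13 1 1 t0
theorem bx1_0 : BoxOK sI cl13 cl7 cl13 t0 t2 b1_0 :=
  box_mk (TrL.c (I.pos (nat_lit 0) (nat_lit 0)) (xa T0.l0 T0.l0)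
  (TrL.c (I.pos (nat_lit 0) (nat_lit 0)) T2.l1
  (TrL.c (I.pos (nat_lit 0) (nat_lit 134217730)) (xR T0.l1 T0.l8)
  (TrL.c (I.pos (nat_lit 0) (nat_lit 110514882)) (xR T2.l2 T2.l2)
  (TrL.c (I.pos (nat_lit 0) (nat_lit 0)) (xa T2.l3 (xk T2.l3 (xb T2.l6 T2.l6)))
  (TrL.c (I.pos (nat_lit 0) (nat_lit 0)) T0.l2
  (TrL.c (I.mix (nat_lit 8088324) (nat_lit 110514882)) (xR T2.l4 T2.l4)
  (TrL.c (I.mix (nat_lit 8088324) (nat_lit 89478486)) T0.l3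
  TrL.n)))))))) (by decide +kernel)
theorem bx1_1 : BoxOK sI cl13 cl7 cl13 t0 t2 b1_1 :=
  box_mk (TrL.c (I.pos (nat_lit 0) (nat_lit 0)) T0.l4
  (TrL.c (I.pos (nat_lit 0) (nat_lit 0)) T2.l1
  (TrL.c (I.pos (nat_lit 0) (nat_lit 134217730)) T0.l8
  (TrL.c (I.pos (nat_lit 0) (nat_lit 110514882)) (xR T2.l2 T2.l2)
  (TrL.c (I.pos (nat_lit 0) (nat_lit 0)) T2.l5
  (TrL.c (I.pos (nat_lit 0) (nat_lit 0)) T0.l2
  (TrL.c (I.mix (nat_lit 8088324) (nat_lit 110514882)) T2.l4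
  (TrL.c (I.mix (nat_lit 8088324) (nat_lit 89478486)) T0.l3
  TrL.n)))))))) (by decide +kernel)
theorem bx1_2 : BoxOK sI cl13 cl7 cl13 t0 t2 b1_2 :=
  box_mk (TrL.c (I.pos (nat_lit 0) (nat_lit 0)) (xa (xa T0.l4 T0.l4) T0.l4)
  (TrL.c (I.pos (nat_lit 0) (nat_lit 0)) T2.l1
  (TrL.c (I.pos (nat_lit 0) (nat_lit 134217730)) T0.l1
  (TrL.c (I.pos (nat_lit 0) (nat_lit 110514882)) T2.l2
  (TrL.c (I.pos (nat_lit 0) (nat_lit 0)) T2.l5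
  (TrL.c (I.pos (nat_lit 0) (nat_lit 0)) T0.l2
  (TrL.c (I.mix (nat_lit 8088324) (nat_lit 110514882)) T2.l4
  (TrL.c (I.mix (nat_lit 8088324) (nat_lit 89478486)) T0.l3
  TrL.n)))))))) (by decide +kernel)
theorem bx1_3 : BoxOK sI cl13 cl7 cl13 t0 t2 b1_3 :=
  box_mk (TrL.c (I.pos (nat_lit 0) (nat_lit 0)) (xa (xa T0.l4 T0.l4) T0.l4)
  (TrL.c (I.pos (nat_lit 0) (nat_lit 0)) T2.l1
  (TrL.c (I.pos (nat_lit 0) (nat_lit 134217730)) T0.l1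
  (TrL.c (I.pos (nat_lit 0) (nat_lit 110514882)) T2.l2
  (TrL.c (I.pos (nat_lit 0) (nat_lit 0)) T2.l5
  (TrL.c (I.pos (nat_lit 0) (nat_lit 0)) T0.l2
  (TrL.c (I.mix (nat_lit 8088324) (nat_lit 110514882)) T2.l4
  (TrL.c (I.mix (nat_lit 8088324) (nat_lit 89478486)) T0.l1
  TrL.n)))))))) (by decide +kernel)
theorem bx1_4 : BoxOK sI cl13 cl7 cl13 t0 t2 b1_4 :=
  box_mk (TrL.c (I.pos (nat_lit 0) (nat_lit 0)) (xb T0.l11 T0.l11)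
  (TrL.c (I.pos (nat_lit 0) (nat_lit 0)) T2.l1
  (TrL.c (I.pos (nat_lit 0) (nat_lit 134217730)) (xR T0.l1 T0.l8)
  (TrL.c (I.pos (nat_lit 0) (nat_lit 110514882)) (xR T2.l2 T2.l2)
  (TrL.c (I.pos (nat_lit 0) (nat_lit 0)) (xb T2.l6 (xk T2.l6 (xb T2.l6 (xa T2.l6 T2.l6))))
  (TrL.c (I.pos (nat_lit 0) (nat_lit 0)) T0.l2
  (TrL.c (I.mix (nat_lit 8088324) (nat_lit 110514882)) (xR T2.l4 T2.l4)
  (TrL.c (I.mix (nat_lit 8088324) (nat_lit 89478486)) T0.l3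
  TrL.n)))))))) (by decide +kernel)
theorem bx1_5 : BoxOK sI cl13 cl7 cl13 t0 t2 b1_5 :=
  box_mk (TrL.c (I.pos (nat_lit 0) (nat_lit 0)) T0.l4
  (TrL.c (I.pos (nat_lit 0) (nat_lit 0)) T2.l1
  (TrL.c (I.pos (nat_lit 0) (nat_lit 134217730)) T0.l1
  (TrL.c (I.pos (nat_lit 0) (nat_lit 110514882)) T2.l2
  (TrL.c (I.pos (nat_lit 0) (nat_lit 0)) T2.l5
  (TrL.c (I.pos (nat_lit 0) (nat_lit 0)) T0.l2
  (TrL.c (I.mix (nat_lit 8088324) (nat_lit 110514882)) T2.l4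
  (TrL.c (I.mix (nat_lit 8088324) (nat_lit 89478486)) T0.l3
  TrL.n)))))))) (by decide +kernel)
theorem bx1_6 : BoxOK sI cl13 cl7 cl13 t0 t2 b1_6 :=
  box_mk (TrL.c (I.pos (nat_lit 0) (nat_lit 0)) (xa (xa (xb T0.l4 T0.l4) T0.l4) (xa T0.l4 T0.l4))
  (TrL.c (I.pos (nat_lit 0) (nat_lit 0)) T2.l1
  (TrL.c (I.pos (nat_lit 0) (nat_lit 134217730)) T0.l1
  (TrL.c (I.pos (nat_lit 0) (nat_lit 110514882)) T2.l2
  (TrL.c (I.pos (nat_lit 0) (nat_lit 0)) T2.l5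
  (TrL.c (I.pos (nat_lit 0) (nat_lit 0)) T0.l2
  (TrL.c (I.mix (nat_lit 8088324) (nat_lit 110514882)) T2.l4
  (TrL.c (I.mix (nat_lit 8088324) (nat_lit 89478486)) T0.l3
  TrL.n)))))))) (by decide +kernel)
theorem bx1_7 : BoxOK sI cl13 cl7 cl13 t0 t2 b1_7 :=
  box_mk (TrL.c (I.pos (nat_lit 0) (nat_lit 0)) (xa T0.l4 T0.l4)
  (TrL.c (I.pos (nat_lit 0) (nat_lit 0)) T2.l1
  (TrL.c (I.pos (nat_lit 0) (nat_lit 134217730)) T0.l1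
  (TrL.c (I.pos (nat_lit 0) (nat_lit 110514882)) T2.l2
  (TrL.c (I.pos (nat_lit 0) (nat_lit 0)) T2.l5
  (TrL.c (I.pos (nat_lit 0) (nat_lit 0)) T0.l2
  (TrL.c (I.mix (nat_lit 8088324) (nat_lit 110514882)) T2.l4
  (TrL.c (I.mix (nat_lit 8088324) (nat_lit 89478486)) T0.l1
  TrL.n)))))))) (by decide +kernel)
theorem bx1_8 : BoxOK sI cl13 cl7 cl13 t0 t2 b1_8 :=
  box_mk (TrL.c (I.pos (nat_lit 0) (nat_lit 0)) (xa T0.l0 T0.l0)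
  (TrL.c (I.pos (nat_lit 0) (nat_lit 0)) T2.l1
  (TrL.c (I.pos (nat_lit 0) (nat_lit 134217730)) (xR T0.l1 T0.l8)
  (TrL.c (I.pos (nat_lit 0) (nat_lit 110514882)) (xR T2.l2 T2.l2)
  (TrL.c (I.pos (nat_lit 0) (nat_lit 0)) (xa T2.l3 (xk (xb T2.l3 T2.l3) (xb T2.l3 T2.l3)))
  (TrL.c (I.pos (nat_lit 0) (nat_lit 0)) T0.l2
  (TrL.c (I.mix (nat_lit 8088324) (nat_lit 110514882)) (xR T2.l4 T2.l4)
  (TrL.c (I.mix (nat_lit 8088324) (nat_lit 89478486)) T0.l3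
  TrL.n)))))))) (by decide +kernel)
theorem bx1_9 : BoxOK sI cl13 cl7 cl13 t0 t2 b1_9 :=
  box_mk (TrL.c (I.pos (nat_lit 0) (nat_lit 0)) T0.l0
  (TrL.c (I.pos (nat_lit 0) (nat_lit 0)) T2.l1
  (TrL.c (I.pos (nat_lit 0) (nat_lit 134217730)) T0.l8
  (TrL.c (I.pos (nat_lit 0) (nat_lit 110514882)) (xR T2.l2 T2.l2)
  (TrL.c (I.pos (nat_lit 0) (nat_lit 0)) (xb T2.l6 T2.l6)
  (TrL.c (I.pos (nat_lit 0) (nat_lit 0)) T0.l2
  (TrL.c (I.mix (nat_lit 8088324) (nat_lit 110514882)) (xR T2.l4 T2.l4)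
  (TrL.c (I.mix (nat_lit 8088324) (nat_lit 89478486)) T0.l3
  TrL.n)))))))) (by decide +kernel)
theorem bx1_10 : BoxOK sI cl13 cl7 cl13 t0 t2 b1_10 :=
  box_mk (TrL.c (I.pos (nat_lit 0) (nat_lit 0)) T0.l0
  (TrL.c (I.pos (nat_lit 0) (nat_lit 0)) T2.l1
  (TrL.c (I.pos (nat_lit 0) (nat_lit 134217730)) (xR T0.l1 T0.l8)
  (TrL.c (I.pos (nat_lit 0) (nat_lit 110514882)) (xR T2.l2 T2.l2)
  (TrL.c (I.pos (nat_lit 0) (nat_lit 0)) (xb T2.l6 (xk (xa T2.l6 (xs T2.l6 T2.l6)) (xa T2.l6 (xs T2.l6 (xb T2.l6 (xa T2.l6 T2.l6))))))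
  (TrL.c (I.pos (nat_lit 0) (nat_lit 0)) T0.l2
  (TrL.c (I.mix (nat_lit 8088324) (nat_lit 110514882)) (xR T2.l4 T2.l4)
  (TrL.c (I.mix (nat_lit 8088324) (nat_lit 89478486)) T0.l3
  TrL.n)))))))) (by decide +kernel)
theorem bx1_11 : BoxOK sI cl13 cl7 cl13 t0 t2 b1_11 :=
  box_mk (TrL.c (I.pos (nat_lit 0) (nat_lit 0)) T0.l11
  (TrL.c (I.pos (nat_lit 0) (nat_lit 0)) T2.l1
  (TrL.c (I.pos (nat_lit 0) (nat_lit 134217730)) (xR T0.l1 T0.l8)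
  (TrL.c (I.pos (nat_lit 0) (nat_lit 110514882)) (xR T2.l2 T2.l2)
  (TrL.c (I.pos (nat_lit 0) (nat_lit 0)) (xb T2.l6 (xk (xa T2.l6 (xb T2.l6 T2.l6)) (xa T2.l6 (xb T2.l6 (xs T2.l6 T2.l6)))))
  (TrL.c (I.pos (nat_lit 0) (nat_lit 0)) T0.l2
  (TrL.c (I.mix (nat_lit 8088324) (nat_lit 110514882)) (xR T2.l4 T2.l4)
  (TrL.c (I.mix (nat_lit 8088324) (nat_lit 89478486)) T0.l3
  TrL.n)))))))) (by decide +kernel)
theorem sv1 : StarV sI cl13 cl7 cl13 t0 t2 t1 :=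
  (bt_n (bt_n (bt_n (bt_b bx1_0) (bt_n (bt_b bx1_1) (bt_b bx1_2))) (bt_n (bt_b bx1_3) (bt_n (bt_b bx1_4) (bt_b bx1_5)))) (bt_n (bt_n (bt_b bx1_6) (bt_n (bt_b bx1_7) (bt_b bx1_8))) (bt_n (bt_b bx1_9) (bt_n (bt_b bx1_10) (bt_b bx1_11)))))
def S1 : StarD := StarD.mk cl13 cl7 cl13 0 2 t1
theorem bx2_0 : BoxOK sI cl13 cl13 cl7 t2 t0 b2_0 :=
  box_mk (TrL.c (I.pos (nat_lit 0) (nat_lit 0)) (xa T2.l0 T2.l0)
  (TrL.c (I.pos (nat_lit 0) (nat_lit 0)) T0.l5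
  (TrL.c (I.pos (nat_lit 0) (nat_lit 134217730)) (xR T2.l9 T2.l9)
  (TrL.c (I.pos (nat_lit 0) (nat_lit 110514882)) (xR T0.l6 T0.l6)
  (TrL.c (I.pos (nat_lit 0) (nat_lit 0)) (xa (xb T0.l10 T0.l7) (xk (xb T0.l10 (xa T0.l10 (xb T0.l10 (xs T0.l7 T0.l10)))) (xb T0.l10 (xa T0.l10 (xb T0.l10 (xs T0.l10 (xk T0.l10 (xa T0.l10 T0.l10))))))))
  (TrL.c (I.pos (nat_lit 0) (nat_lit 0)) T2.l7
  (TrL.c (I.mix (nat_lit 8088324) (nat_lit 110514882)) (xR T0.l8 T0.l8)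
  (TrL.c (I.mix (nat_lit 8088324) (nat_lit 89478486)) T2.l10
  TrL.n)))))))) (by decide +kernel)
theorem bx2_1 : BoxOK sI cl13 cl13 cl7 t2 t0 b2_1 :=
  box_mk (TrL.c (I.pos (nat_lit 0) (nat_lit 0)) T2.l8
  (TrL.c (I.pos (nat_lit 0) (nat_lit 0)) T0.l5
  (TrL.c (I.pos (nat_lit 0) (nat_lit 134217730)) T2.l9
  (TrL.c (I.pos (nat_lit 0) (nat_lit 110514882)) T0.l6
  (TrL.c (I.pos (nat_lit 0) (nat_lit 0)) T0.l9
  (TrL.c (I.pos (nat_lit 0) (nat_lit 0)) T2.l7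
  (TrL.c (I.mix (nat_lit 8088324) (nat_lit 110514882)) T0.l8
  (TrL.c (I.mix (nat_lit 8088324) (nat_lit 89478486)) T2.l10
  TrL.n)))))))) (by decide +kernel)
theorem bx2_2 : BoxOK sI cl13 cl13 cl7 t2 t0 b2_2 :=
  box_mk (TrL.c (I.pos (nat_lit 0) (nat_lit 0)) (xa T2.l8 T2.l8)
  (TrL.c (I.pos (nat_lit 0) (nat_lit 0)) T0.l5
  (TrL.c (I.pos (nat_lit 0) (nat_lit 134217730)) T2.l9
  (TrL.c (I.pos (nat_lit 0) (nat_lit 110514882)) T0.l6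
  (TrL.c (I.pos (nat_lit 0) (nat_lit 0)) T0.l9
  (TrL.c (I.pos (nat_lit 0) (nat_lit 0)) T2.l7
  (TrL.c (I.mix (nat_lit 8088324) (nat_lit 110514882)) T0.l8
  (TrL.c (I.mix (nat_lit 8088324) (nat_lit 89478486)) T2.l2
  TrL.n)))))))) (by decide +kernel)
theorem bx2_3 : BoxOK sI cl13 cl13 cl7 t2 t0 b2_3 :=
  box_mk (TrL.c (I.pos (nat_lit 0) (nat_lit 0)) (xb T2.l11 T2.l11)
  (TrL.c (I.pos (nat_lit 0) (nat_lit 0)) T0.l5
  (TrL.c (I.pos (nat_lit 0) (nat_lit 134217730)) (xR T2.l9 T2.l9)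
  (TrL.c (I.pos (nat_lit 0) (nat_lit 110514882)) (xR T0.l6 T0.l6)
  (TrL.c (I.pos (nat_lit 0) (nat_lit 0)) (xb T0.l10 (xb T0.l7 (xk T0.l10 (xa T0.l10 T0.l10))))
  (TrL.c (I.pos (nat_lit 0) (nat_lit 0)) T2.l7
  (TrL.c (I.mix (nat_lit 8088324) (nat_lit 110514882)) (xR T0.l8 T0.l8)
  (TrL.c (I.mix (nat_lit 8088324) (nat_lit 89478486)) T2.l10
  TrL.n)))))))) (by decide +kernel)
theorem bx2_4 : BoxOK sI cl13 cl13 cl7 t2 t0 b2_4 :=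
  box_mk (TrL.c (I.pos (nat_lit 0) (nat_lit 0)) (xa (xa (xb T2.l8 T2.l8) T2.l8) (xa T2.l8 T2.l8))
  (TrL.c (I.pos (nat_lit 0) (nat_lit 0)) T0.l5
  (TrL.c (I.pos (nat_lit 0) (nat_lit 134217730)) T2.l9
  (TrL.c (I.pos (nat_lit 0) (nat_lit 110514882)) T0.l6
  (TrL.c (I.pos (nat_lit 0) (nat_lit 0)) (xa T0.l9 T0.l9)
  (TrL.c (I.pos (nat_lit 0) (nat_lit 0)) T2.l7
  (TrL.c (I.mix (nat_lit 8088324) (nat_lit 110514882)) T0.l8
  (TrL.c (I.mix (nat_lit 8088324) (nat_lit 89478486)) T2.l2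
  TrL.n)))))))) (by decide +kernel)
theorem bx2_5 : BoxOK sI cl13 cl13 cl7 t2 t0 b2_5 :=
  box_mk (TrL.c (I.pos (nat_lit 0) (nat_lit 0)) T2.l11
  (TrL.c (I.pos (nat_lit 0) (nat_lit 0)) T0.l5
  (TrL.c (I.pos (nat_lit 0) (nat_lit 134217730)) (xR T2.l9 T2.l9)
  (TrL.c (I.pos (nat_lit 0) (nat_lit 110514882)) (xR T0.l6 T0.l6)
  (TrL.c (I.pos (nat_lit 0) (nat_lit 0)) (xk T0.l10 T0.l10)
  (TrL.c (I.pos (nat_lit 0) (nat_lit 0)) T2.l7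
  (TrL.c (I.mix (nat_lit 8088324) (nat_lit 110514882)) (xR T0.l8 T0.l8)
  (TrL.c (I.mix (nat_lit 8088324) (nat_lit 89478486)) T2.l10
  TrL.n)))))))) (by decide +kernel)
theorem bx2_6 : BoxOK sI cl13 cl13 cl7 t2 t0 b2_6 :=
  box_mk (TrL.c (I.pos (nat_lit 0) (nat_lit 0)) (xb T2.l0 T2.l11)
  (TrL.c (I.pos (nat_lit 0) (nat_lit 0)) T0.l5
  (TrL.c (I.pos (nat_lit 0) (nat_lit 134217730)) (xR T2.l9 T2.l9)
  (TrL.c (I.pos (nat_lit 0) (nat_lit 110514882)) (xR T0.l6 T0.l6)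
  (TrL.c (I.pos (nat_lit 0) (nat_lit 0)) (xb T0.l10 (xk T0.l10 T0.l10))
  (TrL.c (I.pos (nat_lit 0) (nat_lit 0)) T2.l7
  (TrL.c (I.mix (nat_lit 8088324) (nat_lit 110514882)) (xR T0.l8 T0.l8)
  (TrL.c (I.mix (nat_lit 8088324) (nat_lit 89478486)) T2.l10
  TrL.n)))))))) (by decide +kernel)
theorem bx2_7 : BoxOK sI cl13 cl13 cl7 t2 t0 b2_7 :=
  box_mk (TrL.c (I.pos (nat_lit 0) (nat_lit 0)) T2.l8
  (TrL.c (I.pos (nat_lit 0) (nat_lit 0)) T0.l5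
  (TrL.c (I.pos (nat_lit 0) (nat_lit 134217730)) T2.l9
  (TrL.c (I.pos (nat_lit 0) (nat_lit 110514882)) T0.l6
  (TrL.c (I.pos (nat_lit 0) (nat_lit 0)) T0.l9
  (TrL.c (I.pos (nat_lit 0) (nat_lit 0)) T2.l7
  (TrL.c (I.mix (nat_lit 8088324) (nat_lit 110514882)) T0.l8
  (TrL.c (I.mix (nat_lit 8088324) (nat_lit 89478486)) T2.l10
  TrL.n)))))))) (by decide +kernel)
theorem bx2_8 : BoxOK sI cl13 cl13 cl7 t2 t0 b2_8 :=
  box_mk (TrL.c (I.pos (nat_lit 0) (nat_lit 0)) (xa T2.l0 T2.l0)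
  (TrL.c (I.pos (nat_lit 0) (nat_lit 0)) T0.l5
  (TrL.c (I.pos (nat_lit 0) (nat_lit 134217730)) (xR T2.l9 T2.l4)
  (TrL.c (I.pos (nat_lit 0) (nat_lit 110514882)) (xR T0.l6 T0.l6)
  (TrL.c (I.pos (nat_lit 0) (nat_lit 0)) (xa T0.l7 (xk (xb T0.l7 T0.l7) (xb T0.l7 T0.l7)))
  (TrL.c (I.pos (nat_lit 0) (nat_lit 0)) T2.l7
  (TrL.c (I.mix (nat_lit 8088324) (nat_lit 110514882)) (xR T0.l8 T0.l8)
  (TrL.c (I.mix (nat_lit 8088324) (nat_lit 89478486)) T2.l10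
  TrL.n)))))))) (by decide +kernel)
theorem bx2_9 : BoxOK sI cl13 cl13 cl7 t2 t0 b2_9 :=
  box_mk (TrL.c (I.pos (nat_lit 0) (nat_lit 0)) (xa (xa T2.l8 T2.l8) (xa T2.l8 T2.l8))
  (TrL.c (I.pos (nat_lit 0) (nat_lit 0)) T0.l5
  (TrL.c (I.pos (nat_lit 0) (nat_lit 134217730)) T2.l9
  (TrL.c (I.pos (nat_lit 0) (nat_lit 110514882)) T0.l6
  (TrL.c (I.pos (nat_lit 0) (nat_lit 0)) (xa T0.l9 T0.l9)
  (TrL.c (I.pos (nat_lit 0) (nat_lit 0)) T2.l7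
  (TrL.c (I.mix (nat_lit 8088324) (nat_lit 110514882)) T0.l8
  (TrL.c (I.mix (nat_lit 8088324) (nat_lit 89478486)) T2.l2
  TrL.n)))))))) (by decide +kernel)
theorem bx2_10 : BoxOK sI cl13 cl13 cl7 t2 t0 b2_10 :=
  box_mk (TrL.c (I.pos (nat_lit 0) (nat_lit 0)) T2.l8
  (TrL.c (I.pos (nat_lit 0) (nat_lit 0)) T0.l5
  (TrL.c (I.pos (nat_lit 0) (nat_lit 134217730)) T2.l9
  (TrL.c (I.pos (nat_lit 0) (nat_lit 110514882)) T0.l6
  (TrL.c (I.pos (nat_lit 0) (nat_lit 0)) T0.l9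
  (TrL.c (I.pos (nat_lit 0) (nat_lit 0)) T2.l7
  (TrL.c (I.mix (nat_lit 8088324) (nat_lit 110514882)) T0.l8
  (TrL.c (I.mix (nat_lit 8088324) (nat_lit 89478486)) T2.l2
  TrL.n)))))))) (by decide +kernel)
theorem bx2_11 : BoxOK sI cl13 cl13 cl7 t2 t0 b2_11 :=
  box_mk (TrL.c (I.pos (nat_lit 0) (nat_lit 0)) T2.l0
  (TrL.c (I.pos (nat_lit 0) (nat_lit 0)) T0.l5
  (TrL.c (I.pos (nat_lit 0) (nat_lit 134217730)) (xR T2.l9 T2.l9)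
  (TrL.c (I.pos (nat_lit 0) (nat_lit 110514882)) (xR T0.l6 T0.l6)
  (TrL.c (I.pos (nat_lit 0) (nat_lit 0)) (xk (xb T0.l10 (xa T0.l10 T0.l10)) (xb T0.l10 (xa T0.l10 T0.l10)))
  (TrL.c (I.pos (nat_lit 0) (nat_lit 0)) T2.l7
  (TrL.c (I.mix (nat_lit 8088324) (nat_lit 110514882)) (xR T0.l8 T0.l8)
  (TrL.c (I.mix (nat_lit 8088324) (nat_lit 89478486)) T2.l10
  TrL.n)))))))) (by decide +kernel)
theorem sv2 : StarV sI cl13 cl13 cl7 t2 t0 t2 :=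
  (bt_n (bt_n (bt_n (bt_b bx2_0) (bt_n (bt_b bx2_1) (bt_b bx2_2))) (bt_n (bt_b bx2_3) (bt_n (bt_b bx2_4) (bt_b bx2_5)))) (bt_n (bt_n (bt_b bx2_6) (bt_n (bt_b bx2_7) (bt_b bx2_8))) (bt_n (bt_b bx2_9) (bt_n (bt_b bx2_10) (bt_b bx2_11)))))
def S2 : StarD := StarD.mk cl13 cl13 cl7 2 0 t2
def G : List StarD := [S0, S1, S2]
theorem so0 : StarOK sI G S0 :=
  star_mk (by decide) (by decide) rfl rfl rfl rfl rfl rfl (rfl : _ = t1) (rfl : _ = t1)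
  (st_mk (Pth.l (Pth.l (Pth.l Pth.z))) (nat_lit 96296845) (nat_lit 114847006) (by decide +kernel))
  (st_mk (Pth.l (Pth.l (Pth.l Pth.z))) (nat_lit 131593281) (nat_lit 150454437) (by decide +kernel))
  (st_mk (Pth.l (Pth.l (Pth.l Pth.z))) (nat_lit 172475416) (nat_lit 191785577) (by decide +kernel)) sv0
theorem so1 : StarOK sI G S1 :=
  star_mk (by decide) (by decide) rfl rfl rfl rfl rfl rfl (rfl : _ = t0) (rfl : _ = t2)
  (st_mk (Pth.l (Pth.l (Pth.l Pth.z))) (nat_lit 141873768) (nat_lit 160217216) (by decide +kernel))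
  (st_mk (Pth.l (Pth.l (Pth.l Pth.z))) (nat_lit 174891329) (nat_lit 197241227) (by decide +kernel))
  (st_mk (Pth.l (Pth.l (Pth.l Pth.z))) (nat_lit 215156648) (nat_lit 237854971) (by decide +kernel)) sv1
theorem so2 : StarOK sI G S2 :=
  star_mk (by decide) (by decide) rfl rfl rfl rfl rfl rfl (rfl : _ = t2) (rfl : _ = t0)
  (st_mk (Pth.l (Pth.l (Pth.l Pth.z))) (nat_lit 96368329) (nat_lit 113624026) (by decide +kernel))
  (st_mk (Pth.l (Pth.l (Pth.l Pth.z))) (nat_lit 130728068) (nat_lit 149271034) (by decide +kernel))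
  (st_mk (Pth.l (Pth.l (Pth.l Pth.z))) (nat_lit 170993386) (nat_lit 189854524) (by decide +kernel)) sv2
theorem ok : GroupOK (nat_lit 91226112) (nat_lit 150339584) G := grp_mk (allS_c so0 (allS_c so1 (allS_c so2 allS_n)))
theorem cov : GCov G cl7 cl13 cl13 := cov_mk
  ⟨0, by decide, rfl, rfl, rfl⟩ ⟨0, by decide, rfl, rfl, rfl⟩ ⟨1, by decide, rfl, rfl, rfl⟩ ⟨2, by decide, rfl, rfl, rfl⟩ ⟨1, by decide, rfl, rfl, rfl⟩ ⟨2, by decide, rfl, rfl, rfl⟩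
end Q466_1


end Pool.Agent.Helper6.MONO
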