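import Pool.Agent.Helper6.MONO.Cert.C09

/-!
Certificate data (generated).
-/

set_option autoImplicit false
set_option linter.all false
noncomputable section
namespace Pool.Agent.Helper6.MONO


namespace Q466_2
def sI : I := I.pos (nat_lit 150274048) (nat_lit 209387520)
def b0_0 : Bx := Bx.mk (St.mk (I.pos (nat_lit 158302208) (nat_lit 240926720)) (I.mix (nat_lit 1474560) (nat_lit 51658752)) (I.mix (nat_lit 2342912) (nat_lit 87556096)) (I.pos (nat_lit 92684288) (nat_lit 225148928)) (I.mix (nat_lit 97353728) (nat_lit 60129280)) (I.mix (nat_lit 67239936) (nat_lit 61816832)) (I.mix (nat_lit 97648640) (nat_lit 77332480)))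
  false (nat_lit 54232425)
def b0_1 : Bx := Bx.mk (St.mk (I.mix (nat_lit 9601024) (nat_lit 142934016)) (I.mix (nat_lit 6160384) (nat_lit 23920640)) (I.mix (nat_lit 11845632) (nat_lit 19988480)) (I.mix (nat_lit 3194880) (nat_lit 90800128)) (I.mix (nat_lit 27705344) (nat_lit 23756800)) (I.mix (nat_lit 23199744) (nat_lit 17678336)) (I.mix (nat_lit 19693568) (nat_lit 13352960)))
  false (nat_lit 0)
def b0_2 : Bx := Bx.mk (St.mk (I.pos (nat_lit 116555776) (nat_lit 156516352)) (I.mix (nat_lit 43597824) (nat_lit 7045120)) (I.mix (nat_lit 48775168) (nat_lit 4292608)) (I.pos (nat_lit 53706752) (nat_lit 104497152)) (I.mix (nat_lit 73465856) (nat_lit 26296320)) (I.mix (nat_lit 25477120) (nat_lit 65470464)) (I.mix (nat_lit 20692992) (nat_lit 59506688)))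
  false (nat_lit 0)
def b0_3 : Bx := Bx.mk (St.mk (I.mix (nat_lit 12763136) (nat_lit 104972288)) (I.mix (nat_lit 22495232) (nat_lit 2768896)) (I.mix (nat_lit 18726912) (nat_lit 1064960)) (I.mix (nat_lit 2211840) (nat_lit 57196544)) (I.mix (nat_lit 31473664) (nat_lit 13893632)) (I.mix (nat_lit 12550144) (nat_lit 25067520)) (I.mix (nat_lit 7454720) (nat_lit 15941632)))
  false (nat_lit 0)
def b0_4 : Bx := Bx.mk (St.mk (I.pos (nat_lit 199147520) (nat_lit 283148288)) (I.mix (nat_lit 22364160) (nat_lit 35405824)) (I.mix (nat_lit 62570496) (nat_lit 58720256)) (I.pos (nat_lit 177651712) (nat_lit 317210624)) (I.mix (nat_lit 69435392) (nat_lit 45989888)) (I.mix (nat_lit 48644096) (nat_lit 35586048)) (I.mix (nat_lit 80297984) (nat_lit 65257472)))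
  false (nat_lit 29637295)
def b0_5 : Bx := Bx.mk (St.mk (I.pos (nat_lit 120045568) (nat_lit 183615488)) (I.neg (nat_lit 6684672) (nat_lit 45776896)) (I.neg (nat_lit 5275648) (nat_lit 47939584)) (I.pos (nat_lit 70402048) (nat_lit 142671872)) (I.mix (nat_lit 64323584) (nat_lit 32473088)) (I.mix (nat_lit 32374784) (nat_lit 48168960)) (I.mix (nat_lit 28213248) (nat_lit 50069504)))
  false (nat_lit 0)
def b0_6 : Bx := Bx.mk (St.mk (I.pos (nat_lit 27574272) (nat_lit 114491392)) (I.mix (nat_lit 25444352) (nat_lit 5570560)) (I.mix (nat_lit 20856832) (nat_lit 573440)) (I.pos (nat_lit 7553024) (nat_lit 65519616)) (I.mix (nat_lit 31014912) (nat_lit 22790144)) (I.mix (nat_lit 18530304) (nat_lit 23838720)) (I.mix (nat_lit 11059200) (nat_lit 17055744)))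
  false (nat_lit 0)
def b0_7 : Bx := Bx.mk (St.mk (I.pos (nat_lit 177979392) (nat_lit 218710016)) (I.mix (nat_lit 10534912) (nat_lit 46301184)) (I.pos (nat_lit 196608) (nat_lit 77086720)) (I.pos (nat_lit 124780544) (nat_lit 194248704)) (I.mix (nat_lit 106954752) (nat_lit 42663936)) (I.mix (nat_lit 103792640) (nat_lit 53837824)) (I.mix (nat_lit 122028032) (nat_lit 57950208)))
  false (nat_lit 0)
def b0_8 : Bx := Bx.mk (St.mk (I.mix (nat_lit 13172736) (nat_lit 133644288)) (I.mix (nat_lit 11468800) (nat_lit 29835264)) (I.mix (nat_lit 11108352) (nat_lit 24100864)) (I.mix (nat_lit 2932736) (nat_lit 81690624)) (I.mix (nat_lit 47284224) (nat_lit 25493504)) (I.mix (nat_lit 40435712) (nat_lit 24838144)) (I.mix (nat_lit 28278784) (nat_lit 17055744)))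
  false (nat_lit 0)
def b0_9 : Bx := Bx.mk (St.mk (I.pos (nat_lit 159711232) (nat_lit 215580672)) (I.mix (nat_lit 34390016) (nat_lit 16318464)) (I.mix (nat_lit 38420480) (nat_lit 32866304)) (I.pos (nat_lit 102383616) (nat_lit 183713792)) (I.mix (nat_lit 49774592) (nat_lit 41451520)) (I.mix (nat_lit 44089344) (nat_lit 40943616)) (I.mix (nat_lit 47382528) (nat_lit 44384256)))
  false (nat_lit 13833865)
def b0_10 : Bx := Bx.mk (St.mk (I.pos (nat_lit 178520064) (nat_lit 217579520)) (I.mix (nat_lit 14942208) (nat_lit 28344320)) (I.mix (nat_lit 7585792) (nat_lit 50757632)) (I.pos (nat_lit 126271488) (nat_lit 188088320)) (I.mix (nat_lit 87326720) (nat_lit 51363840)) (I.mix (nat_lit 95338496) (nat_lit 45236224)) (I.mix (nat_lit 110706688) (nat_lit 49119232)))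
  false (nat_lit 12807776)
def b0_11 : Bx := Bx.mk (St.mk (I.pos (nat_lit 188334080) (nat_lit 241532928)) (I.pos (nat_lit 7651328) (nat_lit 50987008)) (I.pos (nat_lit 13156352) (nat_lit 85999616)) (I.pos (nat_lit 166084608) (nat_lit 223002624)) (I.mix (nat_lit 86163456) (nat_lit 60375040)) (I.mix (nat_lit 71483392) (nat_lit 51232768)) (I.mix (nat_lit 110624768) (nat_lit 63225856)))
  false (nat_lit 38604278)
def t0 : BTr := (BTr.n (BTr.n (BTr.n (BTr.b b0_0) (BTr.n (BTr.b b0_1) (BTr.b b0_2))) (BTr.n (BTr.b b0_3) (BTr.n (BTr.b b0_4) (BTr.b b0_5)))) (BTr.n (BTr.n (BTr.b b0_6) (BTr.n (BTr.b b0_7) (BTr.b b0_8))) (BTr.n (BTr.b b0_9) (BTr.n (BTr.b b0_10) (BTr.b b0_11)))))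
namespace T0
def l0 : Tr := Tr.L (Pth.l (Pth.l (Pth.l Pth.z)))
def l1 : Tr := Tr.L (Pth.l (Pth.l (Pth.r (Pth.l Pth.z))))
def l2 : Tr := Tr.L (Pth.l (Pth.l (Pth.r (Pth.r Pth.z))))
def l3 : Tr := Tr.L (Pth.l (Pth.r (Pth.l Pth.z)))
def l4 : Tr := Tr.L (Pth.l (Pth.r (Pth.r (Pth.l Pth.z))))
def l5 : Tr := Tr.L (Pth.l (Pth.r (Pth.r (Pth.r Pth.z))))
def l6 : Tr := Tr.L (Pth.r (Pth.l (Pth.l Pth.z)))
def l7 : Tr := Tr.L (Pth.r (Pth.l (Pth.r (Pth.l Pth.z))))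
def l8 : Tr := Tr.L (Pth.r (Pth.l (Pth.r (Pth.r Pth.z))))
def l9 : Tr := Tr.L (Pth.r (Pth.r (Pth.l Pth.z)))
def l10 : Tr := Tr.L (Pth.r (Pth.r (Pth.r (Pth.l Pth.z))))
def l11 : Tr := Tr.L (Pth.r (Pth.r (Pth.r (Pth.r Pth.z))))
end T0
def b1_0 : Bx := Bx.mk (St.mk (I.pos (nat_lit 158433280) (nat_lit 236503040)) (I.mix (nat_lit 1638400) (nat_lit 56066048)) (I.mix (nat_lit 2637824) (nat_lit 95109120)) (I.pos (nat_lit 138428416) (nat_lit 264323072)) (I.mix (nat_lit 106266624) (nat_lit 61489152)) (I.mix (nat_lit 72876032) (nat_lit 61964288)) (I.mix (nat_lit 95600640) (nat_lit 82149376)))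
  false (nat_lit 92806928)
def b1_1 : Bx := Bx.mk (St.mk (I.pos (nat_lit 101449728) (nat_lit 172802048)) (I.neg (nat_lit 8945664) (nat_lit 53854208)) (I.neg (nat_lit 770048) (nat_lit 51462144)) (I.pos (nat_lit 97239040) (nat_lit 174522368)) (I.mix (nat_lit 64323584) (nat_lit 34078720)) (I.mix (nat_lit 32751616) (nat_lit 48381952)) (I.mix (nat_lit 28000256) (nat_lit 45678592)))
  false (nat_lit 0)
def b1_2 : Bx := Bx.mk (St.mk (I.mix (nat_lit 24985600) (nat_lit 118603776)) (I.mix (nat_lit 4521984) (nat_lit 32587776)) (I.mix (nat_lit 10993664) (nat_lit 22364160)) (I.pos (nat_lit 40730624) (nat_lit 113737728)) (I.mix (nat_lit 36847616) (nat_lit 31686656)) (I.mix (nat_lit 29884416) (nat_lit 23707648)) (I.mix (nat_lit 21282816) (nat_lit 16023552)))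
  false (nat_lit 0)
def b1_3 : Bx := Bx.mk (St.mk (I.mix (nat_lit 33505280) (nat_lit 83165184)) (I.mix (nat_lit 33357824) (nat_lit 4145152)) (I.mix (nat_lit 20578304) (nat_lit 4374528)) (I.pos (nat_lit 37879808) (nat_lit 88768512)) (I.mix (nat_lit 34029568) (nat_lit 28950528)) (I.mix (nat_lit 21381120) (nat_lit 28016640)) (I.mix (nat_lit 11337728) (nat_lit 15073280)))
  false (nat_lit 0)
def b1_4 : Bx := Bx.mk (St.mk (I.pos (nat_lit 166707200) (nat_lit 215007232)) (I.mix (nat_lit 7290880) (nat_lit 55689216)) (I.pos (nat_lit 8372224) (nat_lit 90128384)) (I.pos (nat_lit 155172864) (nat_lit 233160704)) (I.mix (nat_lit 113999872) (nat_lit 37699584)) (I.mix (nat_lit 104808448) (nat_lit 52019200)) (I.mix (nat_lit 111493120) (nat_lit 50282496)))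
  false (nat_lit 52313603)
def b1_5 : Bx := Bx.mk (St.mk (I.pos (nat_lit 94142464) (nat_lit 140836864)) (I.mix (nat_lit 53641216) (nat_lit 5079040)) (I.mix (nat_lit 51527680) (nat_lit 1441792)) (I.pos (nat_lit 80248832) (nat_lit 133398528)) (I.mix (nat_lit 73121792) (nat_lit 25968640)) (I.mix (nat_lit 27033600) (nat_lit 62668800)) (I.mix (nat_lit 19283968) (nat_lit 47448064)))
  false (nat_lit 0)
def b1_6 : Bx := Bx.mk (St.mk (I.mix (nat_lit 35700736) (nat_lit 105660416)) (I.mix (nat_lit 10338304) (nat_lit 35045376)) (I.mix (nat_lit 8241152) (nat_lit 25149440)) (I.pos (nat_lit 41140224) (nat_lit 105119744)) (I.mix (nat_lit 47415296) (nat_lit 22446080)) (I.mix (nat_lit 38731776) (nat_lit 22904832)) (I.mix (nat_lit 21479424) (nat_lit 13844480)))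
  false (nat_lit 0)
def b1_7 : Bx := Bx.mk (St.mk (I.mix (nat_lit 34766848) (nat_lit 67977216)) (I.mix (nat_lit 27361280) (nat_lit 3342336)) (I.mix (nat_lit 15646720) (nat_lit 3620864)) (I.pos (nat_lit 41975808) (nat_lit 80642048)) (I.mix (nat_lit 32620544) (nat_lit 15613952)) (I.mix (nat_lit 16056320) (nat_lit 22822912)) (I.mix (nat_lit 7405568) (nat_lit 8929280)))
  false (nat_lit 0)
def b1_8 : Bx := Bx.mk (St.mk (I.pos (nat_lit 190562304) (nat_lit 281608192)) (I.mix (nat_lit 14352384) (nat_lit 43368448)) (I.mix (nat_lit 48103424) (nat_lit 71794688)) (I.pos (nat_lit 208781312) (nat_lit 355074048)) (I.mix (nat_lit 74235904) (nat_lit 52658176)) (I.mix (nat_lit 52641792) (nat_lit 35127296)) (I.mix (nat_lit 82182144) (nat_lit 54378496)))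
  false (nat_lit 73639141)
def b1_9 : Bx := Bx.mk (St.mk (I.pos (nat_lit 149602304) (nat_lit 206962688)) (I.mix (nat_lit 34750464) (nat_lit 18038784)) (I.mix (nat_lit 32145408) (nat_lit 40615936)) (I.pos (nat_lit 133791744) (nat_lit 215760896)) (I.mix (nat_lit 51134464) (nat_lit 41189376)) (I.mix (nat_lit 42893312) (nat_lit 40042496)) (I.mix (nat_lit 42418176) (nat_lit 40337408)))
  false (nat_lit 0)
def b1_10 : Bx := Bx.mk (St.mk (I.pos (nat_lit 179896320) (nat_lit 232177664)) (I.pos (nat_lit 16138240) (nat_lit 53084160)) (I.pos (nat_lit 28426240) (nat_lit 89522176)) (I.pos (nat_lit 196395008) (nat_lit 253968384)) (I.mix (nat_lit 95879168) (nat_lit 63078400)) (I.mix (nat_lit 77512704) (nat_lit 53280768)) (I.mix (nat_lit 115343360) (nat_lit 62341120)))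
  false (nat_lit 63728011)
def b1_11 : Bx := Bx.mk (St.mk (I.pos (nat_lit 167968768) (nat_lit 209879040)) (I.mix (nat_lit 10633216) (nat_lit 35405824)) (I.pos (nat_lit 3178496) (nat_lit 64618496)) (I.pos (nat_lit 157597696) (nat_lit 222216192)) (I.mix (nat_lit 99958784) (nat_lit 49905664)) (I.mix (nat_lit 103989248) (nat_lit 46710784)) (I.mix (nat_lit 110772224) (nat_lit 44695552)))
  false (nat_lit 6837864)
def t1 : BTr := (BTr.n (BTr.n (BTr.n (BTr.b b1_0) (BTr.n (BTr.b b1_1) (BTr.b b1_2))) (BTr.n (BTr.b b1_3) (BTr.n (BTr.b b1_4) (BTr.b b1_5)))) (BTr.n (BTr.n (BTr.b b1_6) (BTr.n (BTr.b b1_7) (BTr.b b1_8))) (BTr.n (BTr.b b1_9) (BTr.n (BTr.b b1_10) (BTr.b b1_11)))))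
namespace T1
def l0 : Tr := Tr.L (Pth.l (Pth.l (Pth.l Pth.z)))
def l1 : Tr := Tr.L (Pth.l (Pth.l (Pth.r (Pth.l Pth.z))))
def l2 : Tr := Tr.L (Pth.l (Pth.l (Pth.r (Pth.r Pth.z))))
def l3 : Tr := Tr.L (Pth.l (Pth.r (Pth.l Pth.z)))
def l4 : Tr := Tr.L (Pth.l (Pth.r (Pth.r (Pth.l Pth.z))))
def l5 : Tr := Tr.L (Pth.l (Pth.r (Pth.r (Pth.r Pth.z))))
def l6 : Tr := Tr.L (Pth.r (Pth.l (Pth.l Pth.z)))
def l7 : Tr := Tr.L (Pth.r (Pth.l (Pth.r (Pth.l Pth.z))))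
def l8 : Tr := Tr.L (Pth.r (Pth.l (Pth.r (Pth.r Pth.z))))
def l9 : Tr := Tr.L (Pth.r (Pth.r (Pth.l Pth.z)))
def l10 : Tr := Tr.L (Pth.r (Pth.r (Pth.r (Pth.l Pth.z))))
def l11 : Tr := Tr.L (Pth.r (Pth.r (Pth.r (Pth.r Pth.z))))
end T1
def b2_0 : Bx := Bx.mk (St.mk (I.pos (nat_lit 158334976) (nat_lit 240762880)) (I.mix (nat_lit 1409024) (nat_lit 46809088)) (I.mix (nat_lit 2621440) (nat_lit 95354880)) (I.pos (nat_lit 92340224) (nat_lit 219873280)) (I.mix (nat_lit 102416384) (nat_lit 64225280)) (I.mix (nat_lit 79052800) (nat_lit 67141632)) (I.mix (nat_lit 115408896) (nat_lit 87900160)))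
  false (nat_lit 43783104)
def b2_1 : Bx := Bx.mk (St.mk (I.pos (nat_lit 122224640) (nat_lit 188399616)) (I.neg (nat_lit 2768896) (nat_lit 47579136)) (I.mix (nat_lit 42500096) (nat_lit 8142848)) (I.pos (nat_lit 73777152) (nat_lit 147636224)) (I.mix (nat_lit 58851328) (nat_lit 33554432)) (I.mix (nat_lit 29736960) (nat_lit 44433408)) (I.mix (nat_lit 26329088) (nat_lit 44892160)))
  false (nat_lit 13283826)
def b2_2 : Bx := Bx.mk (St.mk (I.mix (nat_lit 8585216) (nat_lit 118194176)) (I.mix (nat_lit 24641536) (nat_lit 4374528)) (I.mix (nat_lit 16089088) (nat_lit 7258112)) (I.mix (nat_lit 2506752) (nat_lit 67174400)) (I.mix (nat_lit 25788416) (nat_lit 19972096)) (I.mix (nat_lit 15286272) (nat_lit 19726336)) (I.mix (nat_lit 9453568) (nat_lit 13844480)))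
  false (nat_lit 0)
def b2_3 : Bx := Bx.mk (St.mk (I.pos (nat_lit 175603712) (nat_lit 215564288)) (I.mix (nat_lit 10944512) (nat_lit 44711936)) (I.pos (nat_lit 8699904) (nat_lit 87130112)) (I.pos (nat_lit 119029760) (nat_lit 185991168)) (I.mix (nat_lit 111001600) (nat_lit 41975808)) (I.mix (nat_lit 106987520) (nat_lit 49709056)) (I.mix (nat_lit 126664704) (nat_lit 48463872)))
  false (nat_lit 18756540)
def b2_4 : Bx := Bx.mk (St.mk (I.mix (nat_lit 13664256) (nat_lit 132120576)) (I.mix (nat_lit 12435456) (nat_lit 29638656)) (I.mix (nat_lit 6864896) (nat_lit 29949952)) (I.mix (nat_lit 2867200) (nat_lit 79724544)) (I.mix (nat_lit 48873472) (nat_lit 24739840)) (I.mix (nat_lit 41254912) (nat_lit 20905984)) (I.mix (nat_lit 30425088) (nat_lit 12779520)))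
  false (nat_lit 0)
def b2_5 : Bx := Bx.mk (St.mk (I.pos (nat_lit 159088640) (nat_lit 212795392)) (I.mix (nat_lit 38289408) (nat_lit 10780672)) (I.mix (nat_lit 31817728) (nat_lit 38584320)) (I.pos (nat_lit 101711872) (nat_lit 177078272)) (I.mix (nat_lit 43384832) (nat_lit 43155456)) (I.mix (nat_lit 41238528) (nat_lit 38944768)) (I.mix (nat_lit 42778624) (nat_lit 41320448)))
  false (nat_lit 24125892)
def b2_6 : Bx := Bx.mk (St.mk (I.pos (nat_lit 32358400) (nat_lit 139427840)) (I.mix (nat_lit 4046848) (nat_lit 23838720)) (I.mix (nat_lit 2375680) (nat_lit 26984448)) (I.pos (nat_lit 11190272) (nat_lit 88408064)) (I.mix (nat_lit 35979264) (nat_lit 27049984)) (I.mix (nat_lit 29622272) (nat_lit 23134208)) (I.mix (nat_lit 25690112) (nat_lit 17530880)))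
  false (nat_lit 0)
def b2_7 : Bx := Bx.mk (St.mk (I.pos (nat_lit 118439936) (nat_lit 157990912)) (I.mix (nat_lit 44728320) (nat_lit 4800512)) (I.mix (nat_lit 42041344) (nat_lit 9584640)) (I.pos (nat_lit 55459840) (nat_lit 108937216)) (I.mix (nat_lit 73465856) (nat_lit 29229056)) (I.mix (nat_lit 30031872) (nat_lit 65241088)) (I.mix (nat_lit 25673728) (nat_lit 56623104)))
  false (nat_lit 0)
def b2_8 : Bx := Bx.mk (St.mk (I.pos (nat_lit 190906368) (nat_lit 280084480)) (I.mix (nat_lit 13631488) (nat_lit 37814272)) (I.mix (nat_lit 18792448) (nat_lit 84197376)) (I.pos (nat_lit 165232640) (nat_lit 307478528)) (I.mix (nat_lit 77021184) (nat_lit 48529408)) (I.mix (nat_lit 55803904) (nat_lit 34357248)) (I.mix (nat_lit 85164032) (nat_lit 52953088)))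
  false (nat_lit 55181945)
def b2_9 : Bx := Bx.mk (St.mk (I.mix (nat_lit 8142848) (nat_lit 107642880)) (I.mix (nat_lit 22773760) (nat_lit 2605056)) (I.mix (nat_lit 14565376) (nat_lit 5488640)) (I.mix (nat_lit 65536) (nat_lit 58195968)) (I.mix (nat_lit 29966336) (nat_lit 17219584)) (I.mix (nat_lit 15859712) (nat_lit 24297472)) (I.mix (nat_lit 9404416) (nat_lit 14680064)))
  false (nat_lit 0)
def b2_10 : Bx := Bx.mk (St.mk (I.pos (nat_lit 183681024) (nat_lit 239632384)) (I.pos (nat_lit 5980160) (nat_lit 47284224)) (I.pos (nat_lit 22249472) (nat_lit 97157120)) (I.pos (nat_lit 155975680) (nat_lit 213745664)) (I.mix (nat_lit 92995584) (nat_lit 68599808)) (I.mix (nat_lit 85442560) (nat_lit 59359232)) (I.mix (nat_lit 127942656) (nat_lit 74563584)))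
  false (nat_lit 35643144)
def b2_11 : Bx := Bx.mk (St.mk (I.pos (nat_lit 175325184) (nat_lit 216563712)) (I.mix (nat_lit 15400960) (nat_lit 27574272)) (I.pos (nat_lit 4096000) (nat_lit 62357504)) (I.pos (nat_lit 118472704) (nat_lit 182091776)) (I.mix (nat_lit 97337344) (nat_lit 50380800)) (I.mix (nat_lit 102465536) (nat_lit 43155456)) (I.mix (nat_lit 119717888) (nat_lit 42532864)))
  false (nat_lit 14005366)
def t2 : BTr := (BTr.n (BTr.n (BTr.n (BTr.b b2_0) (BTr.n (BTr.b b2_1) (BTr.b b2_2))) (BTr.n (BTr.b b2_3) (BTr.n (BTr.b b2_4) (BTr.b b2_5)))) (BTr.n (BTr.n (BTr.b b2_6) (BTr.n (BTr.b b2_7) (BTr.b b2_8))) (BTr.n (BTr.b b2_9) (BTr.n (BTr.b b2_10) (BTr.b b2_11)))))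
namespace T2
def l0 : Tr := Tr.L (Pth.l (Pth.l (Pth.l Pth.z)))
def l1 : Tr := Tr.L (Pth.l (Pth.l (Pth.r (Pth.l Pth.z))))
def l2 : Tr := Tr.L (Pth.l (Pth.l (Pth.r (Pth.r Pth.z))))
def l3 : Tr := Tr.L (Pth.l (Pth.r (Pth.l Pth.z)))
def l4 : Tr := Tr.L (Pth.l (Pth.r (Pth.r (Pth.l Pth.z))))
def l5 : Tr := Tr.L (Pth.l (Pth.r (Pth.r (Pth.r Pth.z))))
def l6 : Tr := Tr.L (Pth.r (Pth.l (Pth.l Pth.z)))
def l7 : Tr := Tr.L (Pth.r (Pth.l (Pth.r (Pth.l Pth.z))))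
def l8 : Tr := Tr.L (Pth.r (Pth.l (Pth.r (Pth.r Pth.z))))
def l9 : Tr := Tr.L (Pth.r (Pth.r (Pth.l Pth.z)))
def l10 : Tr := Tr.L (Pth.r (Pth.r (Pth.r (Pth.l Pth.z))))
def l11 : Tr := Tr.L (Pth.r (Pth.r (Pth.r (Pth.r Pth.z))))
end T2
theorem bx0_0 : BoxOK sI cl7 cl13 cl13 t1 t1 b0_0 :=
  box_mk (TrL.c (I.pos (nat_lit 0) (nat_lit 0)) (xa (xb T1.l0 (xa T1.l0 T1.l0)) (xa (xb T1.l0 T1.l0) (xb T1.l0 T1.l0)))
  (TrL.c (I.pos (nat_lit 0) (nat_lit 0)) (xa (xk T1.l1 T1.l1) (xk (xb T1.l1 T1.l1) (xb T1.l1 T1.l1)))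
  (TrL.c (I.pos (nat_lit 0) (nat_lit 111196574)) (xR T1.l2 T1.l2)
  (TrL.c (I.pos (nat_lit 0) (nat_lit 77433728)) T1.l3
  (TrL.c (I.pos (nat_lit 0) (nat_lit 0)) (xa (xk (xb T1.l4 T1.l4) (xb T1.l4 T1.l4)) (xk (xb (xa T1.l4 T1.l4) (xa T1.l4 T1.l4)) (xb (xa T1.l4 T1.l4) (xa T1.l4 T1.l4))))
  (TrL.c (I.pos (nat_lit 0) (nat_lit 0)) (xk T1.l5 T1.l5)
  (TrL.c (I.mix (nat_lit 29511666) (nat_lit 77433728)) (xR T1.l6 T1.l6)
  (TrL.c (I.mix (nat_lit 29511666) (nat_lit 46070178)) T1.l3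
  TrL.n)))))))) (by decide +kernel)
theorem bx0_1 : BoxOK sI cl7 cl13 cl13 t1 t1 b0_1 :=
  box_mk (TrL.c (I.pos (nat_lit 0) (nat_lit 0)) (xa T1.l8 (xa T1.l8 T1.l8))
  (TrL.c (I.pos (nat_lit 0) (nat_lit 0)) (xa T1.l1 T1.l1)
  (TrL.c (I.pos (nat_lit 0) (nat_lit 111196574)) (xR T1.l2 T1.l2)
  (TrL.c (I.pos (nat_lit 0) (nat_lit 77433728)) T1.l3
  (TrL.c (I.pos (nat_lit 0) (nat_lit 0)) (xa T1.l9 T1.l9)
  (TrL.c (I.pos (nat_lit 0) (nat_lit 0)) T1.l5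
  (TrL.c (I.mix (nat_lit 29511666) (nat_lit 77433728)) (xR T1.l6 T1.l6)
  (TrL.c (I.mix (nat_lit 29511666) (nat_lit 46070178)) T1.l7
  TrL.n)))))))) (by decide +kernel)
theorem bx0_2 : BoxOK sI cl7 cl13 cl13 t1 t1 b0_2 :=
  box_mk (TrL.c (I.pos (nat_lit 0) (nat_lit 0)) T1.l8
  (TrL.c (I.pos (nat_lit 0) (nat_lit 0)) T1.l1
  (TrL.c (I.pos (nat_lit 0) (nat_lit 111196574)) (xR T1.l2 T1.l2)
  (TrL.c (I.pos (nat_lit 0) (nat_lit 77433728)) T1.l3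
  (TrL.c (I.pos (nat_lit 0) (nat_lit 0)) (xk T1.l9 T1.l9)
  (TrL.c (I.pos (nat_lit 0) (nat_lit 0)) T1.l5
  (TrL.c (I.mix (nat_lit 29511666) (nat_lit 77433728)) (xR T1.l6 T1.l6)
  (TrL.c (I.mix (nat_lit 29511666) (nat_lit 46070178)) T1.l7
  TrL.n)))))))) (by decide +kernel)
theorem bx0_3 : BoxOK sI cl7 cl13 cl13 t1 t1 b0_3 :=
  box_mk (TrL.c (I.pos (nat_lit 0) (nat_lit 0)) (xa (xa T1.l8 T1.l8) T1.l8)
  (TrL.c (I.pos (nat_lit 0) (nat_lit 0)) (xa T1.l1 T1.l1)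
  (TrL.c (I.pos (nat_lit 0) (nat_lit 111196574)) T1.l2
  (TrL.c (I.pos (nat_lit 0) (nat_lit 77433728)) T1.l3
  (TrL.c (I.pos (nat_lit 0) (nat_lit 0)) (xa T1.l9 T1.l9)
  (TrL.c (I.pos (nat_lit 0) (nat_lit 0)) T1.l5
  (TrL.c (I.mix (nat_lit 29511666) (nat_lit 77433728)) T1.l6
  (TrL.c (I.mix (nat_lit 29511666) (nat_lit 46070178)) T1.l7
  TrL.n)))))))) (by decide +kernel)
theorem bx0_4 : BoxOK sI cl7 cl13 cl13 t1 t1 b0_4 :=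
  box_mk (TrL.c (I.pos (nat_lit 0) (nat_lit 0)) (xa (xb T1.l0 T1.l0) (xb T1.l0 T1.l0))
  (TrL.c (I.pos (nat_lit 0) (nat_lit 0)) (xa (xb T1.l1 T1.l1) (xk T1.l5 (xb T1.l1 T1.l1)))
  (TrL.c (I.pos (nat_lit 0) (nat_lit 111196574)) (xR T1.l2 T1.l2)
  (TrL.c (I.pos (nat_lit 0) (nat_lit 77433728)) T1.l3
  (TrL.c (I.pos (nat_lit 0) (nat_lit 0)) (xa (xb (xk (xa T1.l4 T1.l4) (xa T1.l4 T1.l4)) (xk T1.l4 T1.l4)) (xb (xk (xa (xb (xk T1.l4 T1.l4) T1.l4) (xk (xb T1.l4 T1.l4) (xb T1.l4 T1.l4))) (xa (xb T1.l4 T1.l4) (xb (xk T1.l4 T1.l4) T1.l4))) (xk (xa T1.l4 (xk (xb T1.l4 T1.l4) (xb T1.l4 T1.l4))) (xa T1.l4 (xk (xb T1.l4 T1.l4) (xb T1.l4 T1.l4))))))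
  (TrL.c (I.pos (nat_lit 0) (nat_lit 0)) (xk (xa T1.l5 T1.l5) (xa T1.l5 T1.l5))
  (TrL.c (I.mix (nat_lit 29511666) (nat_lit 77433728)) (xR T1.l6 (xR T1.l6 T1.l6))
  (TrL.c (I.mix (nat_lit 29511666) (nat_lit 46070178)) T1.l3
  TrL.n)))))))) (by decide +kernel)
theorem bx0_5 : BoxOK sI cl7 cl13 cl13 t1 t1 b0_5 :=
  box_mk (TrL.c (I.pos (nat_lit 0) (nat_lit 0)) T1.l8
  (TrL.c (I.pos (nat_lit 0) (nat_lit 0)) T1.l1
  (TrL.c (I.pos (nat_lit 0) (nat_lit 111196574)) (xR T1.l2 T1.l2)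
  (TrL.c (I.pos (nat_lit 0) (nat_lit 77433728)) T1.l3
  (TrL.c (I.pos (nat_lit 0) (nat_lit 0)) (xk (xa T1.l9 T1.l9) (xa T1.l9 T1.l9))
  (TrL.c (I.pos (nat_lit 0) (nat_lit 0)) T1.l5
  (TrL.c (I.mix (nat_lit 29511666) (nat_lit 77433728)) (xR T1.l6 T1.l6)
  (TrL.c (I.mix (nat_lit 29511666) (nat_lit 46070178)) T1.l7
  TrL.n)))))))) (by decide +kernel)
theorem bx0_6 : BoxOK sI cl7 cl13 cl13 t1 t1 b0_6 :=
  box_mk (TrL.c (I.pos (nat_lit 0) (nat_lit 0)) T1.l8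
  (TrL.c (I.pos (nat_lit 0) (nat_lit 0)) T1.l1
  (TrL.c (I.pos (nat_lit 0) (nat_lit 111196574)) T1.l2
  (TrL.c (I.pos (nat_lit 0) (nat_lit 77433728)) T1.l3
  (TrL.c (I.pos (nat_lit 0) (nat_lit 0)) T1.l9
  (TrL.c (I.pos (nat_lit 0) (nat_lit 0)) T1.l5
  (TrL.c (I.mix (nat_lit 29511666) (nat_lit 77433728)) T1.l6
  (TrL.c (I.mix (nat_lit 29511666) (nat_lit 46070178)) T1.l7
  TrL.n)))))))) (by decide +kernel)
theorem bx0_7 : BoxOK sI cl7 cl13 cl13 t1 t1 b0_7 :=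
  box_mk (TrL.c (I.pos (nat_lit 0) (nat_lit 0)) (xb T1.l10 (xa T1.l10 T1.l10))
  (TrL.c (I.pos (nat_lit 0) (nat_lit 0)) (xk (xb T1.l1 T1.l1) T1.l1)
  (TrL.c (I.pos (nat_lit 0) (nat_lit 111196574)) (xR T1.l2 T1.l2)
  (TrL.c (I.pos (nat_lit 0) (nat_lit 77433728)) T1.l3
  (TrL.c (I.pos (nat_lit 0) (nat_lit 0)) (xk (xb (xa T1.l11 T1.l11) T1.l11) (xb T1.l11 T1.l11))
  (TrL.c (I.pos (nat_lit 0) (nat_lit 0)) T1.l5
  (TrL.c (I.mix (nat_lit 29511666) (nat_lit 77433728)) (xR T1.l6 T1.l6)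
  (TrL.c (I.mix (nat_lit 29511666) (nat_lit 46070178)) T1.l3
  TrL.n)))))))) (by decide +kernel)
theorem bx0_8 : BoxOK sI cl7 cl13 cl13 t1 t1 b0_8 :=
  box_mk (TrL.c (I.pos (nat_lit 0) (nat_lit 0)) (xa (xa (xb T1.l8 T1.l8) T1.l8) (xa T1.l8 T1.l8))
  (TrL.c (I.pos (nat_lit 0) (nat_lit 0)) (xa T1.l1 T1.l1)
  (TrL.c (I.pos (nat_lit 0) (nat_lit 111196574)) T1.l2
  (TrL.c (I.pos (nat_lit 0) (nat_lit 77433728)) T1.l3
  (TrL.c (I.pos (nat_lit 0) (nat_lit 0)) (xa T1.l9 T1.l9)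
  (TrL.c (I.pos (nat_lit 0) (nat_lit 0)) T1.l5
  (TrL.c (I.mix (nat_lit 29511666) (nat_lit 77433728)) (xR T1.l6 T1.l6)
  (TrL.c (I.mix (nat_lit 29511666) (nat_lit 46070178)) T1.l7
  TrL.n)))))))) (by decide +kernel)
theorem bx0_9 : BoxOK sI cl7 cl13 cl13 t1 t1 b0_9 :=
  box_mk (TrL.c (I.pos (nat_lit 0) (nat_lit 0)) (xa T1.l0 T1.l0)
  (TrL.c (I.pos (nat_lit 0) (nat_lit 0)) T1.l1
  (TrL.c (I.pos (nat_lit 0) (nat_lit 111196574)) (xR T1.l2 T1.l2)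
  (TrL.c (I.pos (nat_lit 0) (nat_lit 77433728)) T1.l3
  (TrL.c (I.pos (nat_lit 0) (nat_lit 0)) (xk (xb (xa T1.l11 T1.l11) T1.l11) (xa T1.l11 (xb T1.l11 T1.l11)))
  (TrL.c (I.pos (nat_lit 0) (nat_lit 0)) T1.l5
  (TrL.c (I.mix (nat_lit 29511666) (nat_lit 77433728)) (xR T1.l6 T1.l6)
  (TrL.c (I.mix (nat_lit 29511666) (nat_lit 46070178)) T1.l7
  TrL.n)))))))) (by decide +kernel)
theorem bx0_10 : BoxOK sI cl7 cl13 cl13 t1 t1 b0_10 :=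
  box_mk (TrL.c (I.pos (nat_lit 0) (nat_lit 0)) T1.l10
  (TrL.c (I.pos (nat_lit 0) (nat_lit 0)) T1.l1
  (TrL.c (I.pos (nat_lit 0) (nat_lit 111196574)) (xR T1.l2 T1.l2)
  (TrL.c (I.pos (nat_lit 0) (nat_lit 77433728)) T1.l3
  (TrL.c (I.pos (nat_lit 0) (nat_lit 0)) (xk (xb T1.l11 T1.l11) (xb T1.l11 T1.l11))
  (TrL.c (I.pos (nat_lit 0) (nat_lit 0)) T1.l5
  (TrL.c (I.mix (nat_lit 29511666) (nat_lit 77433728)) (xR T1.l6 T1.l6)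
  (TrL.c (I.mix (nat_lit 29511666) (nat_lit 46070178)) T1.l3
  TrL.n)))))))) (by decide +kernel)
theorem bx0_11 : BoxOK sI cl7 cl13 cl13 t1 t1 b0_11 :=
  box_mk (TrL.c (I.pos (nat_lit 0) (nat_lit 0)) (xa (xb T1.l0 T1.l0) T1.l0)
  (TrL.c (I.pos (nat_lit 0) (nat_lit 0)) (xk (xa T1.l1 T1.l1) (xa T1.l1 T1.l1))
  (TrL.c (I.pos (nat_lit 0) (nat_lit 111196574)) (xR T1.l2 T1.l2)
  (TrL.c (I.pos (nat_lit 0) (nat_lit 77433728)) T1.l3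
  (TrL.c (I.pos (nat_lit 0) (nat_lit 0)) (xk (xa T1.l4 (xb T1.l4 T1.l4)) (xa T1.l4 (xb T1.l4 T1.l4)))
  (TrL.c (I.pos (nat_lit 0) (nat_lit 0)) T1.l5
  (TrL.c (I.mix (nat_lit 29511666) (nat_lit 77433728)) (xR T1.l6 T1.l6)
  (TrL.c (I.mix (nat_lit 29511666) (nat_lit 46070178)) T1.l3
  TrL.n)))))))) (by decide +kernel)
theorem sv0 : StarV sI cl7 cl13 cl13 t1 t1 t0 :=
  (bt_n (bt_n (bt_n (bt_b bx0_0) (bt_n (bt_b bx0_1) (bt_b bx0_2))) (bt_n (bt_b bx0_3) (bt_n (bt_b bx0_4) (bt_b bx0_5)))) (bt_n (bt_n (bt_b bx0_6) (bt_n (bt_b bx0_7) (bt_b bx0_8))) (bt_n (bt_b bx0_9) (bt_n (bt_b bx0_10) (bt_b bx0_11)))))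
def S0 : StarD := StarD.mk cl7 cl13 cl13 1 1 t0
theorem bx1_0 : BoxOK sI cl13 cl7 cl13 t0 t2 b1_0 :=
  box_mk (TrL.c (I.pos (nat_lit 0) (nat_lit 0)) (xa (xb T0.l0 T0.l0) (xb T0.l0 T0.l0))
  (TrL.c (I.pos (nat_lit 0) (nat_lit 0)) (xa (xk T2.l1 T2.l1) (xk T2.l1 T2.l1))
  (TrL.c (I.pos (nat_lit 0) (nat_lit 134217730)) (xR T0.l1 T0.l8)
  (TrL.c (I.pos (nat_lit 0) (nat_lit 110514882)) (xR T2.l2 T2.l2)
  (TrL.c (I.pos (nat_lit 0) (nat_lit 0)) (xa (xk (xb T2.l3 T2.l3) T2.l3) (xk (xb T2.l3 T2.l3) (xb T2.l3 T2.l3)))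
  (TrL.c (I.pos (nat_lit 0) (nat_lit 0)) T0.l2
  (TrL.c (I.mix (nat_lit 8088324) (nat_lit 110514882)) (xR T2.l4 T2.l4)
  (TrL.c (I.mix (nat_lit 8088324) (nat_lit 89478486)) T0.l3
  TrL.n)))))))) (by decide +kernel)
theorem bx1_1 : BoxOK sI cl13 cl7 cl13 t0 t2 b1_1 :=
  box_mk (TrL.c (I.pos (nat_lit 0) (nat_lit 0)) T0.l4
  (TrL.c (I.pos (nat_lit 0) (nat_lit 0)) T2.l1
  (TrL.c (I.pos (nat_lit 0) (nat_lit 134217730)) (xR T0.l1 T0.l1)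
  (TrL.c (I.pos (nat_lit 0) (nat_lit 110514882)) (xR T2.l2 T2.l2)
  (TrL.c (I.pos (nat_lit 0) (nat_lit 0)) (xk (xa T2.l5 T2.l5) (xa T2.l5 T2.l5))
  (TrL.c (I.pos (nat_lit 0) (nat_lit 0)) T0.l2
  (TrL.c (I.mix (nat_lit 8088324) (nat_lit 110514882)) T2.l4
  (TrL.c (I.mix (nat_lit 8088324) (nat_lit 89478486)) T0.l3
  TrL.n)))))))) (by decide +kernel)
theorem bx1_2 : BoxOK sI cl13 cl7 cl13 t0 t2 b1_2 :=
  box_mk (TrL.c (I.pos (nat_lit 0) (nat_lit 0)) (xa (xa T0.l4 T0.l4) (xa T0.l4 T0.l4))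
  (TrL.c (I.pos (nat_lit 0) (nat_lit 0)) (xa T2.l1 T2.l1)
  (TrL.c (I.pos (nat_lit 0) (nat_lit 134217730)) (xR T0.l1 T0.l1)
  (TrL.c (I.pos (nat_lit 0) (nat_lit 110514882)) (xR T2.l2 T2.l2)
  (TrL.c (I.pos (nat_lit 0) (nat_lit 0)) (xa T2.l5 T2.l5)
  (TrL.c (I.pos (nat_lit 0) (nat_lit 0)) T0.l2
  (TrL.c (I.mix (nat_lit 8088324) (nat_lit 110514882)) (xR T2.l4 T2.l4)
  (TrL.c (I.mix (nat_lit 8088324) (nat_lit 89478486)) T0.l3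
  TrL.n)))))))) (by decide +kernel)
theorem bx1_3 : BoxOK sI cl13 cl7 cl13 t0 t2 b1_3 :=
  box_mk (TrL.c (I.pos (nat_lit 0) (nat_lit 0)) (xa (xa T0.l4 T0.l4) T0.l4)
  (TrL.c (I.pos (nat_lit 0) (nat_lit 0)) T2.l1
  (TrL.c (I.pos (nat_lit 0) (nat_lit 134217730)) (xR T0.l1 T0.l1)
  (TrL.c (I.pos (nat_lit 0) (nat_lit 110514882)) (xR T2.l2 T2.l2)
  (TrL.c (I.pos (nat_lit 0) (nat_lit 0)) (xa T2.l5 T2.l5)
  (TrL.c (I.pos (nat_lit 0) (nat_lit 0)) T0.l2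
  (TrL.c (I.mix (nat_lit 8088324) (nat_lit 110514882)) T2.l4
  (TrL.c (I.mix (nat_lit 8088324) (nat_lit 89478486)) T0.l8
  TrL.n)))))))) (by decide +kernel)
theorem bx1_4 : BoxOK sI cl13 cl7 cl13 t0 t2 b1_4 :=
  box_mk (TrL.c (I.pos (nat_lit 0) (nat_lit 0)) (xb T0.l11 (xa T0.l11 T0.l11))
  (TrL.c (I.pos (nat_lit 0) (nat_lit 0)) (xk T2.l1 T2.l1)
  (TrL.c (I.pos (nat_lit 0) (nat_lit 134217730)) (xR T0.l1 T0.l8)
  (TrL.c (I.pos (nat_lit 0) (nat_lit 110514882)) (xR T2.l2 T2.l2)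
  (TrL.c (I.pos (nat_lit 0) (nat_lit 0)) (xk (xb T2.l11 T2.l11) (xb T2.l11 (xb T2.l3 T2.l11)))
  (TrL.c (I.pos (nat_lit 0) (nat_lit 0)) T0.l2
  (TrL.c (I.mix (nat_lit 8088324) (nat_lit 110514882)) (xR T2.l4 T2.l4)
  (TrL.c (I.mix (nat_lit 8088324) (nat_lit 89478486)) T0.l3
  TrL.n)))))))) (by decide +kernel)
theorem bx1_5 : BoxOK sI cl13 cl7 cl13 t0 t2 b1_5 :=
  box_mk (TrL.c (I.pos (nat_lit 0) (nat_lit 0)) T0.l4
  (TrL.c (I.pos (nat_lit 0) (nat_lit 0)) T2.l1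
  (TrL.c (I.pos (nat_lit 0) (nat_lit 134217730)) (xR T0.l1 T0.l1)
  (TrL.c (I.pos (nat_lit 0) (nat_lit 110514882)) (xR T2.l2 T2.l2)
  (TrL.c (I.pos (nat_lit 0) (nat_lit 0)) (xb T2.l5 T2.l5)
  (TrL.c (I.pos (nat_lit 0) (nat_lit 0)) T0.l2
  (TrL.c (I.mix (nat_lit 8088324) (nat_lit 110514882)) T2.l4
  (TrL.c (I.mix (nat_lit 8088324) (nat_lit 89478486)) T0.l3
  TrL.n)))))))) (by decide +kernel)
theorem bx1_6 : BoxOK sI cl13 cl7 cl13 t0 t2 b1_6 :=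
  box_mk (TrL.c (I.pos (nat_lit 0) (nat_lit 0)) (xa (xa (xb T0.l4 T0.l4) T0.l4) (xa T0.l4 T0.l4))
  (TrL.c (I.pos (nat_lit 0) (nat_lit 0)) (xa T2.l5 T2.l1)
  (TrL.c (I.pos (nat_lit 0) (nat_lit 134217730)) (xR T0.l1 T0.l1)
  (TrL.c (I.pos (nat_lit 0) (nat_lit 110514882)) (xR T2.l2 T2.l2)
  (TrL.c (I.pos (nat_lit 0) (nat_lit 0)) (xa T2.l5 T2.l5)
  (TrL.c (I.pos (nat_lit 0) (nat_lit 0)) T0.l2
  (TrL.c (I.mix (nat_lit 8088324) (nat_lit 110514882)) (xR T2.l4 T2.l4)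
  (TrL.c (I.mix (nat_lit 8088324) (nat_lit 89478486)) T0.l3
  TrL.n)))))))) (by decide +kernel)
theorem bx1_7 : BoxOK sI cl13 cl7 cl13 t0 t2 b1_7 :=
  box_mk (TrL.c (I.pos (nat_lit 0) (nat_lit 0)) T0.l4
  (TrL.c (I.pos (nat_lit 0) (nat_lit 0)) T2.l1
  (TrL.c (I.pos (nat_lit 0) (nat_lit 134217730)) T0.l1
  (TrL.c (I.pos (nat_lit 0) (nat_lit 110514882)) T2.l4
  (TrL.c (I.pos (nat_lit 0) (nat_lit 0)) T2.l5
  (TrL.c (I.pos (nat_lit 0) (nat_lit 0)) T0.l2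
  (TrL.c (I.mix (nat_lit 8088324) (nat_lit 110514882)) T2.l4
  (TrL.c (I.mix (nat_lit 8088324) (nat_lit 89478486)) T0.l8
  TrL.n)))))))) (by decide +kernel)
theorem bx1_8 : BoxOK sI cl13 cl7 cl13 t0 t2 b1_8 :=
  box_mk (TrL.c (I.pos (nat_lit 0) (nat_lit 0)) (xa T0.l0 (xb T0.l0 T0.l0))
  (TrL.c (I.pos (nat_lit 0) (nat_lit 0)) (xa (xk T2.l1 T2.l1) (xk T2.l1 T2.l1))
  (TrL.c (I.pos (nat_lit 0) (nat_lit 134217730)) (xR T0.l8 T0.l8)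
  (TrL.c (I.pos (nat_lit 0) (nat_lit 110514882)) (xR T2.l4 T2.l2)
  (TrL.c (I.pos (nat_lit 0) (nat_lit 0)) (xa (xk (xb T2.l3 T2.l3) (xb (xa T2.l3 T2.l3) T2.l3)) (xk (xb (xa T2.l3 (xk T2.l3 T2.l3)) (xa T2.l3 (xk T2.l3 T2.l3))) (xb (xa T2.l3 (xk T2.l3 T2.l3)) (xa T2.l3 (xk T2.l3 T2.l3)))))
  (TrL.c (I.pos (nat_lit 0) (nat_lit 0)) (xk T0.l2 T0.l2)
  (TrL.c (I.mix (nat_lit 8088324) (nat_lit 110514882)) (xR T2.l4 (xR T2.l4 T2.l4))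
  (TrL.c (I.mix (nat_lit 8088324) (nat_lit 89478486)) T0.l3
  TrL.n)))))))) (by decide +kernel)
theorem bx1_9 : BoxOK sI cl13 cl7 cl13 t0 t2 b1_9 :=
  box_mk (TrL.c (I.pos (nat_lit 0) (nat_lit 0)) T0.l11
  (TrL.c (I.pos (nat_lit 0) (nat_lit 0)) T2.l1
  (TrL.c (I.pos (nat_lit 0) (nat_lit 134217730)) (xR T0.l1 T0.l1)
  (TrL.c (I.pos (nat_lit 0) (nat_lit 110514882)) (xR T2.l2 T2.l2)
  (TrL.c (I.pos (nat_lit 0) (nat_lit 0)) (xk (xb T2.l11 T2.l11) (xb T2.l11 T2.l11))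
  (TrL.c (I.pos (nat_lit 0) (nat_lit 0)) T0.l2
  (TrL.c (I.mix (nat_lit 8088324) (nat_lit 110514882)) T2.l4
  (TrL.c (I.mix (nat_lit 8088324) (nat_lit 89478486)) T0.l3
  TrL.n)))))))) (by decide +kernel)
theorem bx1_10 : BoxOK sI cl13 cl7 cl13 t0 t2 b1_10 :=
  box_mk (TrL.c (I.pos (nat_lit 0) (nat_lit 0)) (xa T0.l0 T0.l0)
  (TrL.c (I.pos (nat_lit 0) (nat_lit 0)) (xk T2.l1 T2.l1)
  (TrL.c (I.pos (nat_lit 0) (nat_lit 134217730)) (xR T0.l1 T0.l1)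
  (TrL.c (I.pos (nat_lit 0) (nat_lit 110514882)) (xR T2.l2 T2.l2)
  (TrL.c (I.pos (nat_lit 0) (nat_lit 0)) (xk (xa T2.l3 T2.l3) (xa T2.l3 T2.l3))
  (TrL.c (I.pos (nat_lit 0) (nat_lit 0)) T0.l2
  (TrL.c (I.mix (nat_lit 8088324) (nat_lit 110514882)) (xR T2.l4 T2.l4)
  (TrL.c (I.mix (nat_lit 8088324) (nat_lit 89478486)) T0.l3
  TrL.n)))))))) (by decide +kernel)
theorem bx1_11 : BoxOK sI cl13 cl7 cl13 t0 t2 b1_11 :=
  box_mk (TrL.c (I.pos (nat_lit 0) (nat_lit 0)) T0.l11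
  (TrL.c (I.pos (nat_lit 0) (nat_lit 0)) T2.l1
  (TrL.c (I.pos (nat_lit 0) (nat_lit 134217730)) (xR T0.l1 T0.l1)
  (TrL.c (I.pos (nat_lit 0) (nat_lit 110514882)) (xR T2.l2 T2.l2)
  (TrL.c (I.pos (nat_lit 0) (nat_lit 0)) (xk T2.l11 T2.l11)
  (TrL.c (I.pos (nat_lit 0) (nat_lit 0)) T0.l2
  (TrL.c (I.mix (nat_lit 8088324) (nat_lit 110514882)) (xR T2.l4 T2.l4)
  (TrL.c (I.mix (nat_lit 8088324) (nat_lit 89478486)) T0.l3
  TrL.n)))))))) (by decide +kernel)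
theorem sv1 : StarV sI cl13 cl7 cl13 t0 t2 t1 :=
  (bt_n (bt_n (bt_n (bt_b bx1_0) (bt_n (bt_b bx1_1) (bt_b bx1_2))) (bt_n (bt_b bx1_3) (bt_n (bt_b bx1_4) (bt_b bx1_5)))) (bt_n (bt_n (bt_b bx1_6) (bt_n (bt_b bx1_7) (bt_b bx1_8))) (bt_n (bt_b bx1_9) (bt_n (bt_b bx1_10) (bt_b bx1_11)))))
def S1 : StarD := StarD.mk cl13 cl7 cl13 0 2 t1
theorem bx2_0 : BoxOK sI cl13 cl13 cl7 t2 t0 b2_0 :=
  box_mk (TrL.c (I.pos (nat_lit 0) (nat_lit 0)) (xa (xa T2.l0 T2.l0) (xa (xb T2.l10 T2.l10) (xb T2.l0 T2.l0)))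
  (TrL.c (I.pos (nat_lit 0) (nat_lit 0)) (xa (xk T0.l5 T0.l5) (xk T0.l5 T0.l5))
  (TrL.c (I.pos (nat_lit 0) (nat_lit 134217730)) (xR T2.l4 T2.l6)
  (TrL.c (I.pos (nat_lit 0) (nat_lit 110514882)) (xR T0.l3 T0.l6)
  (TrL.c (I.pos (nat_lit 0) (nat_lit 0)) (xa (xk (xb T0.l7 T0.l7) (xb T0.l7 T0.l7)) (xk (xb (xa T0.l7 T0.l7) (xa T0.l7 (xb T0.l7 T0.l7))) (xb (xa T0.l7 T0.l7) (xa T0.l7 (xb T0.l7 (xs T0.l7 T0.l7))))))
  (TrL.c (I.pos (nat_lit 0) (nat_lit 0)) T2.l7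
  (TrL.c (I.mix (nat_lit 8088324) (nat_lit 110514882)) (xR T0.l8 T0.l8)
  (TrL.c (I.mix (nat_lit 8088324) (nat_lit 89478486)) T2.l9
  TrL.n)))))))) (by decide +kernel)
theorem bx2_1 : BoxOK sI cl13 cl13 cl7 t2 t0 b2_1 :=
  box_mk (TrL.c (I.pos (nat_lit 0) (nat_lit 0)) T2.l8
  (TrL.c (I.pos (nat_lit 0) (nat_lit 0)) (xa T0.l5 T0.l5)
  (TrL.c (I.pos (nat_lit 0) (nat_lit 134217730)) (xR T2.l4 T2.l6)
  (TrL.c (I.pos (nat_lit 0) (nat_lit 110514882)) (xR T0.l3 T0.l6)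
  (TrL.c (I.pos (nat_lit 0) (nat_lit 0)) (xa (xk T0.l9 T0.l9) (xk T0.l9 T0.l9))
  (TrL.c (I.pos (nat_lit 0) (nat_lit 0)) T2.l7
  (TrL.c (I.mix (nat_lit 8088324) (nat_lit 110514882)) (xR T0.l8 T0.l8)
  (TrL.c (I.mix (nat_lit 8088324) (nat_lit 89478486)) T2.l9
  TrL.n)))))))) (by decide +kernel)
theorem bx2_2 : BoxOK sI cl13 cl13 cl7 t2 t0 b2_2 :=
  box_mk (TrL.c (I.pos (nat_lit 0) (nat_lit 0)) (xa (xa T2.l8 T2.l8) T2.l8)
  (TrL.c (I.pos (nat_lit 0) (nat_lit 0)) (xa T0.l5 T0.l5)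
  (TrL.c (I.pos (nat_lit 0) (nat_lit 134217730)) (xR T2.l2 T2.l6)
  (TrL.c (I.pos (nat_lit 0) (nat_lit 110514882)) (xR T0.l1 T0.l6)
  (TrL.c (I.pos (nat_lit 0) (nat_lit 0)) (xa T0.l9 T0.l9)
  (TrL.c (I.pos (nat_lit 0) (nat_lit 0)) T2.l7
  (TrL.c (I.mix (nat_lit 8088324) (nat_lit 110514882)) (xR T0.l8 T0.l8)
  (TrL.c (I.mix (nat_lit 8088324) (nat_lit 89478486)) T2.l4
  TrL.n)))))))) (by decide +kernel)
theorem bx2_3 : BoxOK sI cl13 cl13 cl7 t2 t0 b2_3 :=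
  box_mk (TrL.c (I.pos (nat_lit 0) (nat_lit 0)) (xb T2.l10 T2.l10)
  (TrL.c (I.pos (nat_lit 0) (nat_lit 0)) (xk T0.l5 T0.l5)
  (TrL.c (I.pos (nat_lit 0) (nat_lit 134217730)) (xR T2.l4 T2.l6)
  (TrL.c (I.pos (nat_lit 0) (nat_lit 110514882)) (xR T0.l3 T0.l6)
  (TrL.c (I.pos (nat_lit 0) (nat_lit 0)) (xk (xb T0.l10 T0.l7) (xb T0.l10 T0.l7))
  (TrL.c (I.pos (nat_lit 0) (nat_lit 0)) T2.l7
  (TrL.c (I.mix (nat_lit 8088324) (nat_lit 110514882)) (xR T0.l8 T0.l8)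
  (TrL.c (I.mix (nat_lit 8088324) (nat_lit 89478486)) T2.l9
  TrL.n)))))))) (by decide +kernel)
theorem bx2_4 : BoxOK sI cl13 cl13 cl7 t2 t0 b2_4 :=
  box_mk (TrL.c (I.pos (nat_lit 0) (nat_lit 0)) (xa (xa (xb T2.l8 T2.l8) T2.l8) (xa T2.l8 T2.l8))
  (TrL.c (I.pos (nat_lit 0) (nat_lit 0)) (xa T0.l5 (xa T0.l5 T0.l5))
  (TrL.c (I.pos (nat_lit 0) (nat_lit 134217730)) (xR T2.l4 T2.l6)
  (TrL.c (I.pos (nat_lit 0) (nat_lit 110514882)) (xR T0.l3 T0.l6)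
  (TrL.c (I.pos (nat_lit 0) (nat_lit 0)) (xa T0.l9 T0.l9)
  (TrL.c (I.pos (nat_lit 0) (nat_lit 0)) T2.l7
  (TrL.c (I.mix (nat_lit 8088324) (nat_lit 110514882)) (xR T0.l8 T0.l8)
  (TrL.c (I.mix (nat_lit 8088324) (nat_lit 89478486)) T2.l4
  TrL.n)))))))) (by decide +kernel)
theorem bx2_5 : BoxOK sI cl13 cl13 cl7 t2 t0 b2_5 :=
  box_mk (TrL.c (I.pos (nat_lit 0) (nat_lit 0)) T2.l0
  (TrL.c (I.pos (nat_lit 0) (nat_lit 0)) (xk T0.l5 T0.l5)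
  (TrL.c (I.pos (nat_lit 0) (nat_lit 134217730)) (xR T2.l4 T2.l6)
  (TrL.c (I.pos (nat_lit 0) (nat_lit 110514882)) (xR T0.l3 T0.l6)
  (TrL.c (I.pos (nat_lit 0) (nat_lit 0)) (xk (xa T0.l10 (xb T0.l10 T0.l10)) (xa T0.l10 T0.l10))
  (TrL.c (I.pos (nat_lit 0) (nat_lit 0)) T2.l7
  (TrL.c (I.mix (nat_lit 8088324) (nat_lit 110514882)) (xR T0.l8 T0.l8)
  (TrL.c (I.mix (nat_lit 8088324) (nat_lit 89478486)) T2.l9
  TrL.n)))))))) (by decide +kernel)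
theorem bx2_6 : BoxOK sI cl13 cl13 cl7 t2 t0 b2_6 :=
  box_mk (TrL.c (I.pos (nat_lit 0) (nat_lit 0)) (xa T2.l8 T2.l8)
  (TrL.c (I.pos (nat_lit 0) (nat_lit 0)) (xa T0.l5 T0.l5)
  (TrL.c (I.pos (nat_lit 0) (nat_lit 134217730)) (xR T2.l4 T2.l6)
  (TrL.c (I.pos (nat_lit 0) (nat_lit 110514882)) (xR T0.l1 T0.l6)
  (TrL.c (I.pos (nat_lit 0) (nat_lit 0)) T0.l9
  (TrL.c (I.pos (nat_lit 0) (nat_lit 0)) T2.l7
  (TrL.c (I.mix (nat_lit 8088324) (nat_lit 110514882)) T0.l8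
  (TrL.c (I.mix (nat_lit 8088324) (nat_lit 89478486)) T2.l4
  TrL.n)))))))) (by decide +kernel)
theorem bx2_7 : BoxOK sI cl13 cl13 cl7 t2 t0 b2_7 :=
  box_mk (TrL.c (I.pos (nat_lit 0) (nat_lit 0)) T2.l8
  (TrL.c (I.pos (nat_lit 0) (nat_lit 0)) T0.l5
  (TrL.c (I.pos (nat_lit 0) (nat_lit 134217730)) (xR T2.l4 T2.l6)
  (TrL.c (I.pos (nat_lit 0) (nat_lit 110514882)) (xR T0.l1 T0.l6)
  (TrL.c (I.pos (nat_lit 0) (nat_lit 0)) (xk T0.l9 T0.l9)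
  (TrL.c (I.pos (nat_lit 0) (nat_lit 0)) T2.l7
  (TrL.c (I.mix (nat_lit 8088324) (nat_lit 110514882)) T0.l8
  (TrL.c (I.mix (nat_lit 8088324) (nat_lit 89478486)) T2.l9
  TrL.n)))))))) (by decide +kernel)
theorem bx2_8 : BoxOK sI cl13 cl13 cl7 t2 t0 b2_8 :=
  box_mk (TrL.c (I.pos (nat_lit 0) (nat_lit 0)) (xa T2.l0 T2.l0)
  (TrL.c (I.pos (nat_lit 0) (nat_lit 0)) (xa (xk T0.l5 T0.l5) (xk (xb T0.l5 T0.l5) (xb T0.l5 T0.l5)))
  (TrL.c (I.pos (nat_lit 0) (nat_lit 134217730)) (xR T2.l4 T2.l6)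
  (TrL.c (I.pos (nat_lit 0) (nat_lit 110514882)) (xR T0.l3 T0.l6)
  (TrL.c (I.pos (nat_lit 0) (nat_lit 0)) (xa (xk (xb T0.l7 T0.l7) (xb T0.l7 T0.l7)) (xk (xb (xa T0.l7 (xk (xb T0.l7 T0.l7) T0.l7)) (xa T0.l7 (xk (xb T0.l7 T0.l7) T0.l7))) (xb (xa T0.l7 (xk T0.l7 T0.l7)) (xa T0.l7 (xk T0.l7 T0.l7)))))
  (TrL.c (I.pos (nat_lit 0) (nat_lit 0)) (xk (xa T2.l7 T2.l7) (xa T2.l7 T2.l7))
  (TrL.c (I.mix (nat_lit 8088324) (nat_lit 110514882)) (xR T0.l8 (xR T0.l8 T0.l8))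
  (TrL.c (I.mix (nat_lit 8088324) (nat_lit 89478486)) T2.l9
  TrL.n)))))))) (by decide +kernel)
theorem bx2_9 : BoxOK sI cl13 cl13 cl7 t2 t0 b2_9 :=
  box_mk (TrL.c (I.pos (nat_lit 0) (nat_lit 0)) (xa T2.l8 T2.l8)
  (TrL.c (I.pos (nat_lit 0) (nat_lit 0)) (xa T0.l5 T0.l5)
  (TrL.c (I.pos (nat_lit 0) (nat_lit 134217730)) (xR T2.l2 T2.l6)
  (TrL.c (I.pos (nat_lit 0) (nat_lit 110514882)) (xR T0.l1 T0.l6)
  (TrL.c (I.pos (nat_lit 0) (nat_lit 0)) (xa T0.l9 T0.l9)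
  (TrL.c (I.pos (nat_lit 0) (nat_lit 0)) T2.l7
  (TrL.c (I.mix (nat_lit 8088324) (nat_lit 110514882)) T0.l8
  (TrL.c (I.mix (nat_lit 8088324) (nat_lit 89478486)) T2.l4
  TrL.n)))))))) (by decide +kernel)
theorem bx2_10 : BoxOK sI cl13 cl13 cl7 t2 t0 b2_10 :=
  box_mk (TrL.c (I.pos (nat_lit 0) (nat_lit 0)) (xa (xb T2.l0 T2.l0) (xb T2.l0 T2.l0))
  (TrL.c (I.pos (nat_lit 0) (nat_lit 0)) (xk (xa T0.l5 T0.l5) (xa T0.l5 T0.l5))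
  (TrL.c (I.pos (nat_lit 0) (nat_lit 134217730)) (xR T2.l4 T2.l6)
  (TrL.c (I.pos (nat_lit 0) (nat_lit 110514882)) (xR T0.l3 T0.l6)
  (TrL.c (I.pos (nat_lit 0) (nat_lit 0)) (xk (xa T0.l7 (xb T0.l7 T0.l7)) (xa T0.l7 (xb T0.l7 (xb T0.l7 T0.l7))))
  (TrL.c (I.pos (nat_lit 0) (nat_lit 0)) T2.l7
  (TrL.c (I.mix (nat_lit 8088324) (nat_lit 110514882)) (xR T0.l8 T0.l8)
  (TrL.c (I.mix (nat_lit 8088324) (nat_lit 89478486)) T2.l9
  TrL.n)))))))) (by decide +kernel)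
theorem bx2_11 : BoxOK sI cl13 cl13 cl7 t2 t0 b2_11 :=
  box_mk (TrL.c (I.pos (nat_lit 0) (nat_lit 0)) (xb T2.l10 T2.l10)
  (TrL.c (I.pos (nat_lit 0) (nat_lit 0)) T0.l5
  (TrL.c (I.pos (nat_lit 0) (nat_lit 134217730)) (xR T2.l4 T2.l6)
  (TrL.c (I.pos (nat_lit 0) (nat_lit 110514882)) (xR T0.l3 T0.l6)
  (TrL.c (I.pos (nat_lit 0) (nat_lit 0)) (xk (xb T0.l10 T0.l10) (xb T0.l10 T0.l10))
  (TrL.c (I.pos (nat_lit 0) (nat_lit 0)) T2.l7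
  (TrL.c (I.mix (nat_lit 8088324) (nat_lit 110514882)) (xR T0.l8 T0.l8)
  (TrL.c (I.mix (nat_lit 8088324) (nat_lit 89478486)) T2.l9
  TrL.n)))))))) (by decide +kernel)
theorem sv2 : StarV sI cl13 cl13 cl7 t2 t0 t2 :=
  (bt_n (bt_n (bt_n (bt_b bx2_0) (bt_n (bt_b bx2_1) (bt_b bx2_2))) (bt_n (bt_b bx2_3) (bt_n (bt_b bx2_4) (bt_b bx2_5)))) (bt_n (bt_n (bt_b bx2_6) (bt_n (bt_b bx2_7) (bt_b bx2_8))) (bt_n (bt_b bx2_9) (bt_n (bt_b bx2_10) (bt_b bx2_11)))))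
def S2 : StarD := StarD.mk cl13 cl13 cl7 2 0 t2
def G : List StarD := [S0, S1, S2]
theorem so0 : StarOK sI G S0 :=
  star_mk (by decide) (by decide) rfl rfl rfl rfl rfl rfl (rfl : _ = t1) (rfl : _ = t1)
  (st_mk (Pth.l (Pth.l (Pth.l Pth.z))) (nat_lit 96374113) (nat_lit 114988626) (by decide +kernel))
  (st_mk (Pth.l (Pth.l (Pth.l Pth.z))) (nat_lit 131737524) (nat_lit 150699842) (by decide +kernel))
  (st_mk (Pth.l (Pth.l (Pth.l Pth.z))) (nat_lit 172723678) (nat_lit 192188212) (by decide +kernel)) sv0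
theorem so1 : StarOK sI G S1 :=
  star_mk (by decide) (by decide) rfl rfl rfl rfl rfl rfl (rfl : _ = t0) (rfl : _ = t2)
  (st_mk (Pth.l (Pth.l (Pth.l Pth.z))) (nat_lit 141873768) (nat_lit 160289273) (by decide +kernel))
  (st_mk (Pth.l (Pth.l (Pth.l Pth.z))) (nat_lit 174891329) (nat_lit 197348732) (by decide +kernel))
  (st_mk (Pth.l (Pth.l (Pth.l Pth.z))) (nat_lit 215156648) (nat_lit 238012338) (by decide +kernel)) sv1
theorem so2 : StarOK sI G S2 :=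
  star_mk (by decide) (by decide) rfl rfl rfl rfl rfl rfl (rfl : _ = t2) (rfl : _ = t0)
  (st_mk (Pth.l (Pth.l (Pth.l Pth.z))) (nat_lit 95831458) (nat_lit 114203236) (by decide +kernel))
  (st_mk (Pth.l (Pth.l (Pth.l Pth.z))) (nat_lit 130728068) (nat_lit 149343800) (by decide +kernel))
  (st_mk (Pth.l (Pth.l (Pth.l Pth.z))) (nat_lit 170993386) (nat_lit 189972765) (by decide +kernel)) sv2
theorem ok : GroupOK (nat_lit 150274048) (nat_lit 209387520) G := grp_mk (allS_c so0 (allS_c so1 (allS_c so2 allS_n)))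
theorem cov : GCov G cl7 cl13 cl13 := cov_mk
  ⟨0, by decide, rfl, rfl, rfl⟩ ⟨0, by decide, rfl, rfl, rfl⟩ ⟨1, by decide, rfl, rfl, rfl⟩ ⟨2, by decide, rfl, rfl, rfl⟩ ⟨1, by decide, rfl, rfl, rfl⟩ ⟨2, by decide, rfl, rfl, rfl⟩
end Q466_2

namespace Q466_3
def sI : I := I.pos (nat_lit 209321984) (nat_lit 268435456)
def b0_0 : Bx := Bx.mk (St.mk (I.pos (nat_lit 156139520) (nat_lit 238354432)) (I.mix (nat_lit 2703360) (nat_lit 44335104)) (I.mix (nat_lit 4374528) (nat_lit 74776576)) (I.pos (nat_lit 89096192) (nat_lit 226787328)) (I.mix (nat_lit 85147648) (nat_lit 47153152)) (I.mix (nat_lit 53116928) (nat_lit 47169536)) (I.mix (nat_lit 71663616) (nat_lit 62324736)))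
  false (nat_lit 39578054)
def b0_1 : Bx := Bx.mk (St.mk (I.mix (nat_lit 12976128) (nat_lit 147816448)) (I.mix (nat_lit 5685248) (nat_lit 19857408)) (I.mix (nat_lit 11501568) (nat_lit 16302080)) (I.mix (nat_lit 5881856) (nat_lit 94027776)) (I.mix (nat_lit 27246592) (nat_lit 24592384)) (I.mix (nat_lit 21397504) (nat_lit 13991936)) (I.mix (nat_lit 18432000) (nat_lit 11288576)))
  false (nat_lit 0)
def b0_2 : Bx := Bx.mk (St.mk (I.pos (nat_lit 114737152) (nat_lit 154894336)) (I.mix (nat_lit 41746432) (nat_lit 8257536)) (I.mix (nat_lit 48136192) (nat_lit 5554176)) (I.pos (nat_lit 51757056) (nat_lit 106332160)) (I.mix (nat_lit 79806464) (nat_lit 35799040)) (I.mix (nat_lit 26394624) (nat_lit 65470464)) (I.mix (nat_lit 21610496) (nat_lit 59195392)))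
  false (nat_lit 0)
def b0_3 : Bx := Bx.mk (St.mk (I.mix (nat_lit 16138240) (nat_lit 108216320)) (I.mix (nat_lit 21692416) (nat_lit 3489792)) (I.mix (nat_lit 18333696) (nat_lit 1589248)) (I.mix (nat_lit 3866624) (nat_lit 58490880)) (I.mix (nat_lit 30670848) (nat_lit 14598144)) (I.mix (nat_lit 11829248) (nat_lit 24592384)) (I.mix (nat_lit 6848512) (nat_lit 15204352)))
  false (nat_lit 0)
def b0_4 : Bx := Bx.mk (St.mk (I.pos (nat_lit 210681856) (nat_lit 244989952)) (I.pos (nat_lit 1998848) (nat_lit 25640960)) (I.mix (nat_lit 393216) (nat_lit 41320448)) (I.pos (nat_lit 184631296) (nat_lit 235257856)) (I.mix (nat_lit 57982976) (nat_lit 28868608)) (I.mix (nat_lit 36487168) (nat_lit 22691840)) (I.mix (nat_lit 55541760) (nat_lit 37240832)))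
  false (nat_lit 0)
def b0_5 : Bx := Bx.mk (St.mk (I.pos (nat_lit 218677248) (nat_lit 280018944)) (I.mix (nat_lit 12943360) (nat_lit 32260096)) (I.mix (nat_lit 44204032) (nat_lit 53788672)) (I.pos (nat_lit 199245824) (nat_lit 310231040)) (I.mix (nat_lit 47382528) (nat_lit 38617088)) (I.mix (nat_lit 35356672) (nat_lit 29573120)) (I.mix (nat_lit 59195392) (nat_lit 47038464)))
  false (nat_lit 7724520)
def b0_6 : Bx := Bx.mk (St.mk (I.pos (nat_lit 233652224) (nat_lit 273235968)) (I.mix (nat_lit 18415616) (nat_lit 18251776)) (I.mix (nat_lit 53673984) (nat_lit 27394048)) (I.pos (nat_lit 216481792) (nat_lit 296304640)) (I.mix (nat_lit 51101696) (nat_lit 26050560)) (I.mix (nat_lit 26148864) (nat_lit 31211520)) (I.mix (nat_lit 40566784) (nat_lit 55312384)))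
  false (nat_lit 0)
def b0_7 : Bx := Bx.mk (St.mk (I.pos (nat_lit 210763776) (nat_lit 247382016)) (I.pos (nat_lit 1458176) (nat_lit 27787264)) (I.mix (nat_lit 2670592) (nat_lit 46252032)) (I.pos (nat_lit 185876480) (nat_lit 242171904)) (I.mix (nat_lit 58064896) (nat_lit 41369600)) (I.mix (nat_lit 39534592) (nat_lit 30965760)) (I.mix (nat_lit 62865408) (nat_lit 51920896)))
  false (nat_lit 0)
def b0_8 : Bx := Bx.mk (St.mk (I.pos (nat_lit 223117312) (nat_lit 286179328)) (I.mix (nat_lit 20512768) (nat_lit 35176448)) (I.mix (nat_lit 60424192) (nat_lit 57688064)) (I.pos (nat_lit 202555392) (nat_lit 321994752)) (I.mix (nat_lit 59392000) (nat_lit 52576256)) (I.mix (nat_lit 51789824) (nat_lit 36700160)) (I.mix (nat_lit 88555520) (nat_lit 60096512)))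
  false (nat_lit 33050538)
def b0_9 : Bx := Bx.mk (St.mk (I.pos (nat_lit 242024448) (nat_lit 274055168)) (I.mix (nat_lit 20987904) (nat_lit 8192000)) (I.mix (nat_lit 59408384) (nat_lit 4882432)) (I.pos (nat_lit 232226816) (nat_lit 299335680)) (I.mix (nat_lit 47824896) (nat_lit 23117824)) (I.mix (nat_lit 23494656) (nat_lit 28917760)) (I.mix (nat_lit 36257792) (nat_lit 51331072)))
  false (nat_lit 0)
def b0_10 : Bx := Bx.mk (St.mk (I.pos (nat_lit 118554624) (nat_lit 185548800)) (I.neg (nat_lit 6160384) (nat_lit 43991040)) (I.neg (nat_lit 4292608) (nat_lit 46841856)) (I.pos (nat_lit 65880064) (nat_lit 143917056)) (I.mix (nat_lit 66486272) (nat_lit 35962880)) (I.mix (nat_lit 30081024) (nat_lit 48381952)) (I.mix (nat_lit 25526272) (nat_lit 50151424)))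
  false (nat_lit 0)
def b0_11 : Bx := Bx.mk (St.mk (I.pos (nat_lit 44548096) (nat_lit 116523008)) (I.mix (nat_lit 22544384) (nat_lit 2048000)) (I.mix (nat_lit 18382848) (nat_lit 933888)) (I.pos (nat_lit 8257536) (nat_lit 67289088)) (I.mix (nat_lit 29229056) (nat_lit 19955712)) (I.mix (nat_lit 12730368) (nat_lit 21774336)) (I.mix (nat_lit 7913472) (nat_lit 15384576)))
  false (nat_lit 0)
def b0_12 : Bx := Bx.mk (St.mk (I.pos (nat_lit 173948928) (nat_lit 217202688)) (I.mix (nat_lit 12107776) (nat_lit 44793856)) (I.mix (nat_lit 2867200) (nat_lit 75448320)) (I.pos (nat_lit 122290176) (nat_lit 194347008)) (I.mix (nat_lit 117604352) (nat_lit 45662208)) (I.mix (nat_lit 92340224) (nat_lit 52002816)) (I.mix (nat_lit 106283008) (nat_lit 51609600)))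
  false (nat_lit 32270081)
def b0_13 : Bx := Bx.mk (St.mk (I.mix (nat_lit 17285120) (nat_lit 137936896)) (I.mix (nat_lit 11796480) (nat_lit 25182208)) (I.mix (nat_lit 11485184) (nat_lit 21463040)) (I.mix (nat_lit 5324800) (nat_lit 84230144)) (I.mix (nat_lit 39960576) (nat_lit 25870336)) (I.mix (nat_lit 36077568) (nat_lit 20103168)) (I.mix (nat_lit 26083328) (nat_lit 14008320)))
  false (nat_lit 0)
def b0_14 : Bx := Bx.mk (St.mk (I.pos (nat_lit 181354496) (nat_lit 218546176)) (I.mix (nat_lit 22659072) (nat_lit 18022400)) (I.mix (nat_lit 19775488) (nat_lit 35258368)) (I.pos (nat_lit 129433600) (nat_lit 187301888)) (I.mix (nat_lit 56836096) (nat_lit 52871168)) (I.mix (nat_lit 51576832) (nat_lit 48496640)) (I.mix (nat_lit 53346304) (nat_lit 51691520)))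
  false (nat_lit 14143266)
def b0_15 : Bx := Bx.mk (St.mk (I.pos (nat_lit 160710656) (nat_lit 204177408)) (I.mix (nat_lit 35176448) (nat_lit 2244608)) (I.mix (nat_lit 39387136) (nat_lit 12337152)) (I.pos (nat_lit 102137856) (nat_lit 168034304)) (I.mix (nat_lit 31621120) (nat_lit 22265856)) (I.mix (nat_lit 17432576) (nat_lit 16941056)) (I.mix (nat_lit 18137088) (nat_lit 17989632)))
  false (nat_lit 0)
def b0_16 : Bx := Bx.mk (St.mk (I.pos (nat_lit 174686208) (nat_lit 218071040)) (I.mix (nat_lit 15056896) (nat_lit 27787264)) (I.mix (nat_lit 7487488) (nat_lit 49905664)) (I.pos (nat_lit 121716736) (nat_lit 188366848)) (I.mix (nat_lit 102989824) (nat_lit 69582848)) (I.mix (nat_lit 102055936) (nat_lit 60178432)) (I.mix (nat_lit 115621888) (nat_lit 62767104)))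
  false (nat_lit 0)
def b0_17 : Bx := Bx.mk (St.mk (I.pos (nat_lit 156319744) (nat_lit 204111872)) (I.mix (nat_lit 35012608) (nat_lit 9109504)) (I.mix (nat_lit 38502400) (nat_lit 21921792)) (I.pos (nat_lit 99631104) (nat_lit 168034304)) (I.mix (nat_lit 45400064) (nat_lit 27951104)) (I.mix (nat_lit 31784960) (nat_lit 22626304)) (I.mix (nat_lit 36208640) (nat_lit 24461312)))
  false (nat_lit 0)
def b0_18 : Bx := Bx.mk (St.mk (I.pos (nat_lit 175144960) (nat_lit 201752576)) (I.mix (nat_lit 19333120) (nat_lit 5341184)) (I.mix (nat_lit 15679488) (nat_lit 17956864)) (I.pos (nat_lit 120422400) (nat_lit 163758080)) (I.mix (nat_lit 23003136) (nat_lit 12091392)) (I.mix (nat_lit 13697024) (nat_lit 10747904)) (I.mix (nat_lit 15187968) (nat_lit 10436608)))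
  false (nat_lit 0)
def b0_19 : Bx := Bx.mk (St.mk (I.pos (nat_lit 179355648) (nat_lit 212893696)) (I.mix (nat_lit 23085056) (nat_lit 10813440)) (I.mix (nat_lit 20283392) (nat_lit 24772608)) (I.pos (nat_lit 126730240) (nat_lit 177815552)) (I.mix (nat_lit 61702144) (nat_lit 48676864)) (I.mix (nat_lit 50216960) (nat_lit 47579136)) (I.mix (nat_lit 52756480) (nat_lit 51314688)))
  false (nat_lit 1160330)
def b0_20 : Bx := Bx.mk (St.mk (I.pos (nat_lit 174768128) (nat_lit 199540736)) (I.neg (nat_lit 819200) (nat_lit 25182208)) (I.mix (nat_lit 24133632) (nat_lit 7405568)) (I.pos (nat_lit 117358592) (nat_lit 164380672)) (I.mix (nat_lit 20578304) (nat_lit 13975552)) (I.mix (nat_lit 11010048) (nat_lit 11190272)) (I.mix (nat_lit 11599872) (nat_lit 11550720)))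
  false (nat_lit 0)
def b0_21 : Bx := Bx.mk (St.mk (I.pos (nat_lit 192544768) (nat_lit 236388352)) (I.pos (nat_lit 12713984) (nat_lit 45367296)) (I.pos (nat_lit 21053440) (nat_lit 76660736)) (I.pos (nat_lit 164364288) (nat_lit 220545024)) (I.mix (nat_lit 84590592) (nat_lit 62865408)) (I.mix (nat_lit 64913408) (nat_lit 53018624)) (I.mix (nat_lit 99008512) (nat_lit 65781760)))
  false (nat_lit 45391694)
def t0 : BTr := (BTr.n (BTr.n (BTr.n (BTr.n (BTr.b b0_0) (BTr.b b0_1)) (BTr.n (BTr.b b0_2) (BTr.n (BTr.b b0_3) (BTr.b b0_4)))) (BTr.n (BTr.n (BTr.b b0_5) (BTr.n (BTr.b b0_6) (BTr.b b0_7))) (BTr.n (BTr.b b0_8) (BTr.n (BTr.b b0_9) (BTr.b b0_10))))) (BTr.n (BTr.n (BTr.n (BTr.b b0_11) (BTr.b b0_12)) (BTr.n (BTr.b b0_13) (BTr.n (BTr.b b0_14) (BTr.b b0_15)))) (BTr.n (BTr.n (BTr.b b0_16) (BTr.n (BTr.b b0_17) (BTr.b b0_18))) (BTr.n (BTr.b b0_19) (BTr.n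 (BTr.b b0_20) (BTr.b b0_21))))))
namespace T0
def l0 : Tr := Tr.L (Pth.l (Pth.l (Pth.l (Pth.l Pth.z))))
def l1 : Tr := Tr.L (Pth.l (Pth.l (Pth.l (Pth.r Pth.z))))
def l2 : Tr := Tr.L (Pth.l (Pth.l (Pth.r (Pth.l Pth.z))))
def l3 : Tr := Tr.L (Pth.l (Pth.l (Pth.r (Pth.r (Pth.l Pth.z)))))
def l4 : Tr := Tr.L (Pth.l (Pth.l (Pth.r (Pth.r (Pth.r Pth.z)))))
def l5 : Tr := Tr.L (Pth.l (Pth.r (Pth.l (Pth.l Pth.z))))
def l6 : Tr := Tr.L (Pth.l (Pth.r (Pth.l (Pth.r (Pth.l Pth.z)))))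
def l7 : Tr := Tr.L (Pth.l (Pth.r (Pth.l (Pth.r (Pth.r Pth.z)))))
def l8 : Tr := Tr.L (Pth.l (Pth.r (Pth.r (Pth.l Pth.z))))
def l9 : Tr := Tr.L (Pth.l (Pth.r (Pth.r (Pth.r (Pth.l Pth.z)))))
def l10 : Tr := Tr.L (Pth.l (Pth.r (Pth.r (Pth.r (Pth.r Pth.z)))))
def l11 : Tr := Tr.L (Pth.r (Pth.l (Pth.l (Pth.l Pth.z))))
def l12 : Tr := Tr.L (Pth.r (Pth.l (Pth.l (Pth.r Pth.z))))
def l13 : Tr := Tr.L (Pth.r (Pth.l (Pth.r (Pth.l Pth.z))))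
def l14 : Tr := Tr.L (Pth.r (Pth.l (Pth.r (Pth.r (Pth.l Pth.z)))))
def l15 : Tr := Tr.L (Pth.r (Pth.l (Pth.r (Pth.r (Pth.r Pth.z)))))
def l16 : Tr := Tr.L (Pth.r (Pth.r (Pth.l (Pth.l Pth.z))))
def l17 : Tr := Tr.L (Pth.r (Pth.r (Pth.l (Pth.r (Pth.l Pth.z)))))
def l18 : Tr := Tr.L (Pth.r (Pth.r (Pth.l (Pth.r (Pth.r Pth.z)))))
def l19 : Tr := Tr.L (Pth.r (Pth.r (Pth.r (Pth.l Pth.z))))
def l20 : Tr := Tr.L (Pth.r (Pth.r (Pth.r (Pth.r (Pth.l Pth.z)))))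
def l21 : Tr := Tr.L (Pth.r (Pth.r (Pth.r (Pth.r (Pth.r Pth.z)))))
end T0
def b1_0 : Bx := Bx.mk (St.mk (I.pos (nat_lit 156385280) (nat_lit 234143744)) (I.mix (nat_lit 3063808) (nat_lit 50642944)) (I.mix (nat_lit 4947968) (nat_lit 85049344)) (I.pos (nat_lit 134971392) (nat_lit 263979008)) (I.mix (nat_lit 92454912) (nat_lit 52264960)) (I.mix (nat_lit 55967744) (nat_lit 50233344)) (I.mix (nat_lit 72990720) (nat_lit 65437696)))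
  false (nat_lit 77148757)
def b1_1 : Bx := Bx.mk (St.mk (I.pos (nat_lit 101187584) (nat_lit 176635904)) (I.neg (nat_lit 8372224) (nat_lit 51331072)) (I.mix (nat_lit 48644096) (nat_lit 1261568)) (I.pos (nat_lit 94093312) (nat_lit 179404800)) (I.mix (nat_lit 67878912) (nat_lit 35946496)) (I.mix (nat_lit 28278784) (nat_lit 45694976)) (I.mix (nat_lit 22691840) (nat_lit 42352640)))
  false (nat_lit 0)
def b1_2 : Bx := Bx.mk (St.mk (I.mix (nat_lit 26066944) (nat_lit 122929152)) (I.mix (nat_lit 5455872) (nat_lit 26705920)) (I.mix (nat_lit 11829248) (nat_lit 18022400)) (I.pos (nat_lit 40042496) (nat_lit 116097024)) (I.mix (nat_lit 33964032) (nat_lit 29491200)) (I.mix (nat_lit 26427392) (nat_lit 18792448)) (I.mix (nat_lit 18104320) (nat_lit 12271616)))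
  false (nat_lit 0)
def b1_3 : Bx := Bx.mk (St.mk (I.mix (nat_lit 25477120) (nat_lit 86753280)) (I.mix (nat_lit 29310976) (nat_lit 3538944)) (I.mix (nat_lit 17350656) (nat_lit 4259840)) (I.pos (nat_lit 41353216) (nat_lit 90456064)) (I.mix (nat_lit 32112640) (nat_lit 24625152)) (I.mix (nat_lit 15695872) (nat_lit 23363584)) (I.mix (nat_lit 8159232) (nat_lit 12271616)))
  false (nat_lit 0)
def b1_4 : Bx := Bx.mk (St.mk (I.pos (nat_lit 164528128) (nat_lit 213172224)) (I.mix (nat_lit 9011200) (nat_lit 54296576)) (I.pos (nat_lit 5226496) (nat_lit 88621056)) (I.pos (nat_lit 152190976) (nat_lit 231636992)) (I.mix (nat_lit 125304832) (nat_lit 46678016)) (I.mix (nat_lit 97697792) (nat_lit 58785792)) (I.mix (nat_lit 100761600) (nat_lit 53182464)))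
  false (nat_lit 47738192)
def b1_5 : Bx := Bx.mk (St.mk (I.pos (nat_lit 95518720) (nat_lit 140509184)) (I.mix (nat_lit 51757056) (nat_lit 6799360)) (I.mix (nat_lit 50315264) (nat_lit 2883584)) (I.pos (nat_lit 78413824) (nat_lit 137674752)) (I.mix (nat_lit 78528512) (nat_lit 35586048)) (I.mix (nat_lit 32555008) (nat_lit 66469888)) (I.mix (nat_lit 23117824) (nat_lit 49430528)))
  false (nat_lit 0)
def b1_6 : Bx := Bx.mk (St.mk (I.mix (nat_lit 40075264) (nat_lit 110018560)) (I.mix (nat_lit 11550720) (nat_lit 31178752)) (I.mix (nat_lit 8355840) (nat_lit 22691840)) (I.pos (nat_lit 40517632) (nat_lit 106610688)) (I.mix (nat_lit 43483136) (nat_lit 26214400)) (I.mix (nat_lit 37322752) (nat_lit 21299200)) (I.mix (nat_lit 20447232) (nat_lit 12124160)))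
  false (nat_lit 0)
def b1_7 : Bx := Bx.mk (St.mk (I.mix (nat_lit 34357248) (nat_lit 71630848)) (I.neg (nat_lit 81920) (nat_lit 28475392)) (I.mix (nat_lit 16384000) (nat_lit 4210688)) (I.pos (nat_lit 42287104) (nat_lit 81821696)) (I.mix (nat_lit 31440896) (nat_lit 15220736)) (I.mix (nat_lit 11255808) (nat_lit 25296896)) (I.mix (nat_lit 5292032) (nat_lit 9781248)))
  false (nat_lit 0)
def b1_8 : Bx := Bx.mk (St.mk (I.pos (nat_lit 207405056) (nat_lit 281116672)) (I.mix (nat_lit 9535488) (nat_lit 38666240)) (I.mix (nat_lit 39731200) (nat_lit 64946176)) (I.pos (nat_lit 226787328) (nat_lit 352665600)) (I.mix (nat_lit 50167808) (nat_lit 36274176)) (I.mix (nat_lit 28229632) (nat_lit 23658496)) (I.mix (nat_lit 46530560) (nat_lit 36880384)))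
  false (nat_lit 53071066)
def b1_9 : Bx := Bx.mk (St.mk (I.pos (nat_lit 148946944) (nat_lit 196214784)) (I.mix (nat_lit 33390592) (nat_lit 13795328)) (I.mix (nat_lit 29556736) (nat_lit 35241984)) (I.pos (nat_lit 132235264) (nat_lit 202342400)) (I.mix (nat_lit 32964608) (nat_lit 20594688)) (I.mix (nat_lit 22609920) (nat_lit 17727488)) (I.mix (nat_lit 23920640) (nat_lit 15466496)))
  false (nat_lit 0)
def b1_10 : Bx := Bx.mk (St.mk (I.pos (nat_lit 202866688) (nat_lit 242499584)) (I.pos (nat_lit 6029312) (nat_lit 34848768)) (I.pos (nat_lit 6946816) (nat_lit 58916864)) (I.pos (nat_lit 217825280) (nat_lit 275841024)) (I.mix (nat_lit 62341120) (nat_lit 50462720)) (I.mix (nat_lit 42172416) (nat_lit 36700160)) (I.mix (nat_lit 64094208) (nat_lit 58982400)))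
  false (nat_lit 18570023)
def b1_11 : Bx := Bx.mk (St.mk (I.pos (nat_lit 170573824) (nat_lit 204144640)) (I.mix (nat_lit 19726336) (nat_lit 13844480)) (I.mix (nat_lit 9682944) (nat_lit 34308096)) (I.pos (nat_lit 157450240) (nat_lit 209321984)) (I.mix (nat_lit 62963712) (nat_lit 46481408)) (I.mix (nat_lit 47628288) (nat_lit 46088192)) (I.mix (nat_lit 46415872) (nat_lit 45760512)))
  false (nat_lit 0)
def b1_12 : Bx := Bx.mk (St.mk (I.pos (nat_lit 243449856) (nat_lit 275775488)) (I.mix (nat_lit 15974400) (nat_lit 17629184)) (I.mix (nat_lit 51101696) (nat_lit 24870912)) (I.pos (nat_lit 274251776) (nat_lit 344080384)) (I.mix (nat_lit 35307520) (nat_lit 28966912)) (I.mix (nat_lit 23871488) (nat_lit 23953408)) (I.mix (nat_lit 38813696) (nat_lit 42369024)))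
  false (nat_lit 0)
def b1_13 : Bx := Bx.mk (St.mk (I.pos (nat_lit 150618112) (nat_lit 192577536)) (I.mix (nat_lit 35651584) (nat_lit 1458176)) (I.mix (nat_lit 33095680) (nat_lit 18743296)) (I.pos (nat_lit 132644864) (nat_lit 196444160)) (I.mix (nat_lit 29343744) (nat_lit 20086784)) (I.mix (nat_lit 15237120) (nat_lit 14450688)) (I.mix (nat_lit 14663680) (nat_lit 14254080)))
  false (nat_lit 0)
def b1_14 : Bx := Bx.mk (St.mk (I.pos (nat_lit 203390976) (nat_lit 240123904)) (I.pos (nat_lit 5734400) (nat_lit 31621120)) (I.pos (nat_lit 6979584) (nat_lit 52822016)) (I.pos (nat_lit 219316224) (nat_lit 269221888)) (I.mix (nat_lit 63635456) (nat_lit 34291712)) (I.mix (nat_lit 41664512) (nat_lit 26034176)) (I.mix (nat_lit 61521920) (nat_lit 40697856)))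
  false (nat_lit 0)
def b1_15 : Bx := Bx.mk (St.mk (I.pos (nat_lit 172457984) (nat_lit 209649664)) (I.mix (nat_lit 22118400) (nat_lit 19628032)) (I.mix (nat_lit 12861440) (nat_lit 42729472)) (I.pos (nat_lit 158040064) (nat_lit 218906624)) (I.mix (nat_lit 55607296) (nat_lit 51019776)) (I.mix (nat_lit 46858240) (nat_lit 45137920)) (I.mix (nat_lit 45187072) (nat_lit 44515328)))
  false (nat_lit 0)
def b1_16 : Bx := Bx.mk (St.mk (I.pos (nat_lit 220807168) (nat_lit 259293184)) (I.pos (nat_lit 2162688) (nat_lit 28131328)) (I.mix (nat_lit 9928704) (nat_lit 46448640)) (I.pos (nat_lit 239501312) (nat_lit 309264384)) (I.mix (nat_lit 28868608) (nat_lit 13631488)) (I.mix (nat_lit 14991360) (nat_lit 7995392)) (I.mix (nat_lit 22020096) (nat_lit 12861440)))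
  false (nat_lit 0)
def b1_17 : Bx := Bx.mk (St.mk (I.pos (nat_lit 160907264) (nat_lit 194707456)) (I.mix (nat_lit 29605888) (nat_lit 2899968)) (I.mix (nat_lit 24150016) (nat_lit 20758528)) (I.pos (nat_lit 146014208) (nat_lit 198508544)) (I.mix (nat_lit 27934720) (nat_lit 25608192)) (I.mix (nat_lit 18661376) (nat_lit 18071552)) (I.mix (nat_lit 17776640) (nat_lit 17629184)))
  false (nat_lit 0)
def b1_18 : Bx := Bx.mk (St.mk (I.pos (nat_lit 183828480) (nat_lit 228458496)) (I.pos (nat_lit 18333696) (nat_lit 50528256)) (I.pos (nat_lit 30343168) (nat_lit 84983808)) (I.pos (nat_lit 195280896) (nat_lit 252936192)) (I.mix (nat_lit 91111424) (nat_lit 66437120)) (I.mix (nat_lit 69173248) (nat_lit 52805632)) (I.mix (nat_lit 102760448) (nat_lit 60899328)))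
  false (nat_lit 32868188)
def b1_19 : Bx := Bx.mk (St.mk (I.pos (nat_lit 165314560) (nat_lit 211320832)) (I.mix (nat_lit 10846208) (nat_lit 33587200)) (I.pos (nat_lit 1851392) (nat_lit 62488576)) (I.pos (nat_lit 152518656) (nat_lit 221855744)) (I.mix (nat_lit 111280128) (nat_lit 69386240)) (I.mix (nat_lit 106676224) (nat_lit 62767104)) (I.mix (nat_lit 112099328) (nat_lit 59359232)))
  false (nat_lit 29892694)
def b1_20 : Bx := Bx.mk (St.mk (I.pos (nat_lit 212959232) (nat_lit 285032448)) (I.mix (nat_lit 13860864) (nat_lit 39698432)) (I.mix (nat_lit 48594944) (nat_lit 66306048)) (I.pos (nat_lit 229588992) (nat_lit 359383040)) (I.mix (nat_lit 50659328) (nat_lit 55754752)) (I.mix (nat_lit 48791552) (nat_lit 33980416)) (I.mix (nat_lit 82657280) (nat_lit 53116928)))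
  false (nat_lit 71400585)
def b1_21 : Bx := Bx.mk (St.mk (I.pos (nat_lit 146882560) (nat_lit 195985408)) (I.mix (nat_lit 35454976) (nat_lit 12369920)) (I.mix (nat_lit 31948800) (nat_lit 33341440)) (I.pos (nat_lit 131268608) (nat_lit 201375744)) (I.mix (nat_lit 40452096) (nat_lit 29523968)) (I.mix (nat_lit 31309824) (nat_lit 21233664)) (I.mix (nat_lit 33406976) (nat_lit 19611648)))
  false (nat_lit 0)
def t1 : BTr := (BTr.n (BTr.n (BTr.n (BTr.n (BTr.b b1_0) (BTr.b b1_1)) (BTr.n (BTr.b b1_2) (BTr.n (BTr.b b1_3) (BTr.b b1_4)))) (BTr.n (BTr.n (BTr.b b1_5) (BTr.n (BTr.b b1_6) (BTr.b b1_7))) (BTr.n (BTr.b b1_8) (BTr.n (BTr.b b1_9) (BTr.b b1_10))))) (BTr.n (BTr.n (BTr.n (BTr.b b1_11) (BTr.b b1_12)) (BTr.n (BTr.b b1_13) (BTr.n (BTr.b b1_14) (BTr.b b1_15)))) (BTr.n (BTr.n (BTr.b b1_16) (BTr.n (BTr.b b1_17) (BTr.b b1_18))) (BTr.n (BTr.b b1_19) (BTr.n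 (BTr.b b1_20) (BTr.b b1_21))))))
namespace T1
def l0 : Tr := Tr.L (Pth.l (Pth.l (Pth.l (Pth.l Pth.z))))
def l1 : Tr := Tr.L (Pth.l (Pth.l (Pth.l (Pth.r Pth.z))))
def l2 : Tr := Tr.L (Pth.l (Pth.l (Pth.r (Pth.l Pth.z))))
def l3 : Tr := Tr.L (Pth.l (Pth.l (Pth.r (Pth.r (Pth.l Pth.z)))))
def l4 : Tr := Tr.L (Pth.l (Pth.l (Pth.r (Pth.r (Pth.r Pth.z)))))
def l5 : Tr := Tr.L (Pth.l (Pth.r (Pth.l (Pth.l Pth.z))))
def l6 : Tr := Tr.L (Pth.l (Pth.r (Pth.l (Pth.r (Pth.l Pth.z)))))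
def l7 : Tr := Tr.L (Pth.l (Pth.r (Pth.l (Pth.r (Pth.r Pth.z)))))
def l8 : Tr := Tr.L (Pth.l (Pth.r (Pth.r (Pth.l Pth.z))))
def l9 : Tr := Tr.L (Pth.l (Pth.r (Pth.r (Pth.r (Pth.l Pth.z)))))
def l10 : Tr := Tr.L (Pth.l (Pth.r (Pth.r (Pth.r (Pth.r Pth.z)))))
def l11 : Tr := Tr.L (Pth.r (Pth.l (Pth.l (Pth.l Pth.z))))
def l12 : Tr := Tr.L (Pth.r (Pth.l (Pth.l (Pth.r Pth.z))))
def l13 : Tr := Tr.L (Pth.r (Pth.l (Pth.r (Pth.l Pth.z))))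
def l14 : Tr := Tr.L (Pth.r (Pth.l (Pth.r (Pth.r (Pth.l Pth.z)))))
def l15 : Tr := Tr.L (Pth.r (Pth.l (Pth.r (Pth.r (Pth.r Pth.z)))))
def l16 : Tr := Tr.L (Pth.r (Pth.r (Pth.l (Pth.l Pth.z))))
def l17 : Tr := Tr.L (Pth.r (Pth.r (Pth.l (Pth.r (Pth.l Pth.z)))))
def l18 : Tr := Tr.L (Pth.r (Pth.r (Pth.l (Pth.r (Pth.r Pth.z)))))
def l19 : Tr := Tr.L (Pth.r (Pth.r (Pth.r (Pth.l Pth.z))))
def l20 : Tr := Tr.L (Pth.r (Pth.r (Pth.r (Pth.r (Pth.l Pth.z)))))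
def l21 : Tr := Tr.L (Pth.r (Pth.r (Pth.r (Pth.r (Pth.r Pth.z)))))
end T1
def b2_0 : Bx := Bx.mk (St.mk (I.pos (nat_lit 156188672) (nat_lit 237436928)) (I.mix (nat_lit 2605056) (nat_lit 42205184)) (I.mix (nat_lit 5062656) (nat_lit 86622208)) (I.pos (nat_lit 88981504) (nat_lit 217219072)) (I.mix (nat_lit 83197952) (nat_lit 45203456)) (I.mix (nat_lit 56066048) (nat_lit 49119232)) (I.mix (nat_lit 77135872) (nat_lit 63143936)))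
  false (nat_lit 55181852)
def b2_1 : Bx := Bx.mk (St.mk (I.pos (nat_lit 120274944) (nat_lit 190447616)) (I.neg (nat_lit 3735552) (nat_lit 47169536)) (I.mix (nat_lit 42565632) (nat_lit 8847360)) (I.pos (nat_lit 71729152) (nat_lit 149422080)) (I.mix (nat_lit 64077824) (nat_lit 38993920)) (I.mix (nat_lit 33275904) (nat_lit 44695552)) (I.mix (nat_lit 26591232) (nat_lit 44007424)))
  false (nat_lit 14198954)
def b2_2 : Bx := Bx.mk (St.mk (I.mix (nat_lit 11501568) (nat_lit 122322944)) (I.mix (nat_lit 22937600) (nat_lit 1884160)) (I.mix (nat_lit 14336000) (nat_lit 6307840)) (I.mix (nat_lit 4489216) (nat_lit 69517312)) (I.mix (nat_lit 25886720) (nat_lit 20185088)) (I.mix (nat_lit 12304384) (nat_lit 19021824)) (I.mix (nat_lit 7798784) (nat_lit 13238272)))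
  false (nat_lit 0)
def b2_3 : Bx := Bx.mk (St.mk (I.pos (nat_lit 172376064) (nat_lit 215318528)) (I.mix (nat_lit 12353536) (nat_lit 42795008)) (I.pos (nat_lit 6209536) (nat_lit 84672512)) (I.pos (nat_lit 115245056) (nat_lit 186793984)) (I.mix (nat_lit 121503744) (nat_lit 46825472)) (I.mix (nat_lit 95928320) (nat_lit 51331072)) (I.mix (nat_lit 112623616) (nat_lit 45121536)))
  false (nat_lit 9720556)
def b2_4 : Bx := Bx.mk (St.mk (I.mix (nat_lit 17727488) (nat_lit 135774208)) (I.mix (nat_lit 12222464) (nat_lit 25706496)) (I.mix (nat_lit 6864896) (nat_lit 27607040)) (I.mix (nat_lit 5177344) (nat_lit 81575936)) (I.mix (nat_lit 45449216) (nat_lit 23969792)) (I.mix (nat_lit 39223296) (nat_lit 18939904)) (I.mix (nat_lit 28852224) (nat_lit 12500992)))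
  false (nat_lit 0)
def b2_5 : Bx := Bx.mk (St.mk (I.pos (nat_lit 179159040) (nat_lit 215908352)) (I.mix (nat_lit 26918912) (nat_lit 12894208)) (I.mix (nat_lit 12320768) (nat_lit 41910272)) (I.pos (nat_lit 121257984) (nat_lit 180355072)) (I.mix (nat_lit 51986432) (nat_lit 50102272)) (I.mix (nat_lit 44941312) (nat_lit 43286528)) (I.mix (nat_lit 46415872) (nat_lit 44498944)))
  false (nat_lit 29872380)
def b2_6 : Bx := Bx.mk (St.mk (I.pos (nat_lit 159154176) (nat_lit 202211328)) (I.mix (nat_lit 31965184) (nat_lit 6029312)) (I.mix (nat_lit 23805952) (nat_lit 29687808)) (I.pos (nat_lit 102645760) (nat_lit 161759232)) (I.mix (nat_lit 35454976) (nat_lit 24788992)) (I.mix (nat_lit 23527424) (nat_lit 21463040)) (I.mix (nat_lit 27508736) (nat_lit 19185664)))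
  false (nat_lit 0)
def b2_7 : Bx := Bx.mk (St.mk (I.pos (nat_lit 162463744) (nat_lit 198443008)) (I.neg (nat_lit 3309568) (nat_lit 33046528)) (I.mix (nat_lit 25853952) (nat_lit 15482880)) (I.pos (nat_lit 104611840) (nat_lit 158826496)) (I.mix (nat_lit 25296896) (nat_lit 22233088)) (I.mix (nat_lit 15679488) (nat_lit 13975552)) (I.mix (nat_lit 15286272) (nat_lit 14336000)))
  false (nat_lit 0)
def b2_8 : Bx := Bx.mk (St.mk (I.pos (nat_lit 178274304) (nat_lit 212926464)) (I.mix (nat_lit 27967488) (nat_lit 8781824)) (I.mix (nat_lit 13778944) (nat_lit 33243136)) (I.pos (nat_lit 117932032) (nat_lit 177405952)) (I.mix (nat_lit 54231040) (nat_lit 50937856)) (I.mix (nat_lit 48529408) (nat_lit 46727168)) (I.mix (nat_lit 49414144) (nat_lit 49152000)))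
  false (nat_lit 29015344)
def b2_9 : Bx := Bx.mk (St.mk (I.pos (nat_lit 155287552) (nat_lit 201195520)) (I.mix (nat_lit 33456128) (nat_lit 4161536)) (I.mix (nat_lit 27312128) (nat_lit 27099136)) (I.pos (nat_lit 97009664) (nat_lit 160186368)) (I.mix (nat_lit 41435136) (nat_lit 29229056)) (I.mix (nat_lit 28966912) (nat_lit 22134784)) (I.mix (nat_lit 33259520) (nat_lit 19972096)))
  false (nat_lit 0)
def b2_10 : Bx := Bx.mk (St.mk (I.pos (nat_lit 162447360) (nat_lit 185679872)) (I.neg (nat_lit 11239424) (nat_lit 33030144)) (I.mix (nat_lit 25853952) (nat_lit 966656)) (I.pos (nat_lit 103743488) (nat_lit 145833984)) (I.mix (nat_lit 16171008) (nat_lit 6094848)) (I.mix (nat_lit 4702208) (nat_lit 4947968)) (I.mix (nat_lit 4390912) (nat_lit 3604480)))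
  false (nat_lit 0)
def b2_11 : Bx := Bx.mk (St.mk (I.pos (nat_lit 53706752) (nat_lit 142049280)) (I.mix (nat_lit 4358144) (nat_lit 18448384)) (I.mix (nat_lit 3031040) (nat_lit 21069824)) (I.pos (nat_lit 11747328) (nat_lit 90931200)) (I.mix (nat_lit 29786112) (nat_lit 24838144)) (I.mix (nat_lit 25640960) (nat_lit 14401536)) (I.mix (nat_lit 22085632) (nat_lit 11501568)))
  false (nat_lit 0)
def b2_12 : Bx := Bx.mk (St.mk (I.pos (nat_lit 116637696) (nat_lit 158662656)) (I.mix (nat_lit 44351488) (nat_lit 6455296)) (I.mix (nat_lit 41893888) (nat_lit 11419648)) (I.pos (nat_lit 53657600) (nat_lit 108773376)) (I.mix (nat_lit 75595776) (nat_lit 38977536)) (I.mix (nat_lit 30310400) (nat_lit 62095360)) (I.mix (nat_lit 26034176) (nat_lit 54788096)))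
  false (nat_lit 0)
def b2_13 : Bx := Bx.mk (St.mk (I.pos (nat_lit 201621504) (nat_lit 241762304)) (I.pos (nat_lit 3325952) (nat_lit 25116672)) (I.pos (nat_lit 16105472) (nat_lit 59588608)) (I.pos (nat_lit 163921920) (nat_lit 224886784)) (I.mix (nat_lit 59244544) (nat_lit 30638080)) (I.mix (nat_lit 39387136) (nat_lit 23789568)) (I.mix (nat_lit 61947904) (nat_lit 36257792)))
  false (nat_lit 0)
def b2_14 : Bx := Bx.mk (St.mk (I.pos (nat_lit 48021504) (nat_lit 106545152)) (I.neg (nat_lit 163840) (nat_lit 22233088)) (I.mix (nat_lit 14303232) (nat_lit 1490944)) (I.pos (nat_lit 6455296) (nat_lit 59637760)) (I.mix (nat_lit 27738112) (nat_lit 15941632)) (I.mix (nat_lit 12386304) (nat_lit 22708224)) (I.mix (nat_lit 7356416) (nat_lit 13697024)))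
  false (nat_lit 0)
def b2_15 : Bx := Bx.mk (St.mk (I.pos (nat_lit 216711168) (nat_lit 273940480)) (I.mix (nat_lit 13549568) (nat_lit 25493504)) (I.mix (nat_lit 19742720) (nat_lit 61489152)) (I.pos (nat_lit 191709184) (nat_lit 293568512)) (I.mix (nat_lit 43450368) (nat_lit 22675456)) (I.mix (nat_lit 23134208) (nat_lit 21446656)) (I.mix (nat_lit 37994496) (nat_lit 35094528)))
  false (nat_lit 19065280)
def b2_16 : Bx := Bx.mk (St.mk (I.pos (nat_lit 189792256) (nat_lit 232833024)) (I.pos (nat_lit 9011200) (nat_lit 41435136)) (I.pos (nat_lit 28098560) (nat_lit 85819392)) (I.pos (nat_lit 154583040) (nat_lit 207060992)) (I.mix (nat_lit 87670784) (nat_lit 62947328)) (I.mix (nat_lit 69140480) (nat_lit 51232768)) (I.mix (nat_lit 108052480) (nat_lit 64946176)))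
  false (nat_lit 30201023)
def b2_17 : Bx := Bx.mk (St.mk (I.pos (nat_lit 215072768) (nat_lit 283770880)) (I.mix (nat_lit 12632064) (nat_lit 33652736)) (I.mix (nat_lit 18202624) (nat_lit 76300288)) (I.pos (nat_lit 186662912) (nat_lit 311984128)) (I.mix (nat_lit 54624256) (nat_lit 56049664)) (I.mix (nat_lit 49889280) (nat_lit 34242560)) (I.mix (nat_lit 87179264) (nat_lit 55984128)))
  false (nat_lit 72172235)
def b2_18 : Bx := Bx.mk (St.mk (I.pos (nat_lit 211894272) (nat_lit 244367360)) (I.pos (nat_lit 12320768) (nat_lit 31588352)) (I.pos (nat_lit 31113216) (nat_lit 71843840)) (I.pos (nat_lit 184467456) (nat_lit 229916672)) (I.mix (nat_lit 49070080) (nat_lit 17039360)) (I.mix (nat_lit 28131328) (nat_lit 15368192)) (I.mix (nat_lit 46235648) (nat_lit 23019520)))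
  false (nat_lit 0)
def b2_19 : Bx := Bx.mk (St.mk (I.pos (nat_lit 206209024) (nat_lit 244006912)) (I.pos (nat_lit 3227648) (nat_lit 28262400)) (I.pos (nat_lit 15892480) (nat_lit 65830912)) (I.pos (nat_lit 176357376) (nat_lit 229212160)) (I.mix (nat_lit 61849600) (nat_lit 44269568)) (I.mix (nat_lit 43188224) (nat_lit 33865728)) (I.mix (nat_lit 67829760) (nat_lit 53035008)))
  false (nat_lit 15395424)
def b2_20 : Bx := Bx.mk (St.mk (I.pos (nat_lit 171786240) (nat_lit 216039424)) (I.mix (nat_lit 15728640) (nat_lit 26017792)) (I.pos (nat_lit 2703360) (nat_lit 60063744)) (I.pos (nat_lit 113852416) (nat_lit 180944896)) (I.mix (nat_lit 112672768) (nat_lit 71057408)) (I.mix (nat_lit 107708416) (nat_lit 57851904)) (I.mix (nat_lit 121815040) (nat_lit 54624256)))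
  false (nat_lit 35518149)
def t2 : BTr := (BTr.n (BTr.n (BTr.n (BTr.n (BTr.b b2_0) (BTr.b b2_1)) (BTr.n (BTr.b b2_2) (BTr.n (BTr.b b2_3) (BTr.b b2_4)))) (BTr.n (BTr.n (BTr.b b2_5) (BTr.b b2_6)) (BTr.n (BTr.b b2_7) (BTr.n (BTr.b b2_8) (BTr.b b2_9))))) (BTr.n (BTr.n (BTr.n (BTr.b b2_10) (BTr.b b2_11)) (BTr.n (BTr.b b2_12) (BTr.n (BTr.b b2_13) (BTr.b b2_14)))) (BTr.n (BTr.n (BTr.b b2_15) (BTr.n (BTr.b b2_16) (BTr.b b2_17))) (BTr.n (BTr.b b2_18) (BTr.n (BTr.b b2_19) (BTr.b b2_20))))))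
namespace T2
def l0 : Tr := Tr.L (Pth.l (Pth.l (Pth.l (Pth.l Pth.z))))
def l1 : Tr := Tr.L (Pth.l (Pth.l (Pth.l (Pth.r Pth.z))))
def l2 : Tr := Tr.L (Pth.l (Pth.l (Pth.r (Pth.l Pth.z))))
def l3 : Tr := Tr.L (Pth.l (Pth.l (Pth.r (Pth.r (Pth.l Pth.z)))))
def l4 : Tr := Tr.L (Pth.l (Pth.l (Pth.r (Pth.r (Pth.r Pth.z)))))
def l5 : Tr := Tr.L (Pth.l (Pth.r (Pth.l (Pth.l Pth.z))))
def l6 : Tr := Tr.L (Pth.l (Pth.r (Pth.l (Pth.r Pth.z))))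
def l7 : Tr := Tr.L (Pth.l (Pth.r (Pth.r (Pth.l Pth.z))))
def l8 : Tr := Tr.L (Pth.l (Pth.r (Pth.r (Pth.r (Pth.l Pth.z)))))
def l9 : Tr := Tr.L (Pth.l (Pth.r (Pth.r (Pth.r (Pth.r Pth.z)))))
def l10 : Tr := Tr.L (Pth.r (Pth.l (Pth.l (Pth.l Pth.z))))
def l11 : Tr := Tr.L (Pth.r (Pth.l (Pth.l (Pth.r Pth.z))))
def l12 : Tr := Tr.L (Pth.r (Pth.l (Pth.r (Pth.l Pth.z))))
def l13 : Tr := Tr.L (Pth.r (Pth.l (Pth.r (Pth.r (Pth.l Pth.z)))))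
def l14 : Tr := Tr.L (Pth.r (Pth.l (Pth.r (Pth.r (Pth.r Pth.z)))))
def l15 : Tr := Tr.L (Pth.r (Pth.r (Pth.l (Pth.l Pth.z))))
def l16 : Tr := Tr.L (Pth.r (Pth.r (Pth.l (Pth.r (Pth.l Pth.z)))))
def l17 : Tr := Tr.L (Pth.r (Pth.r (Pth.l (Pth.r (Pth.r Pth.z)))))
def l18 : Tr := Tr.L (Pth.r (Pth.r (Pth.r (Pth.l Pth.z))))
def l19 : Tr := Tr.L (Pth.r (Pth.r (Pth.r (Pth.r (Pth.l Pth.z)))))
def l20 : Tr := Tr.L (Pth.r (Pth.r (Pth.r (Pth.r (Pth.r Pth.z)))))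
end T2
theorem bx0_0 : BoxOK sI cl7 cl13 cl13 t1 t1 b0_0 :=
  box_mk (TrL.c (I.pos (nat_lit 0) (nat_lit 0)) (xa (xb (xa (xb T1.l0 (xa T1.l0 T1.l0)) (xb T1.l0 T1.l0)) (xa (xb (xa T1.l0 T1.l0) (xa T1.l0 (xs T1.l0 T1.l0))) (xb (xa T1.l0 T1.l0) (xa T1.l0 T1.l0)))) (xb (xa (xb T1.l0 T1.l0) (xb T1.l0 T1.l0)) (xa (xa (xb T1.l0 (xs T1.l0 T1.l0)) (xb T1.l0 (xs T1.l0 T1.l0))) (xa (xb T1.l0 (xs T1.l0 T1.l0)) (xb T1.l0 (xs T1.l0 T1.l0))))))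
  (TrL.c (I.pos (nat_lit 0) (nat_lit 0)) (xa (xk (xb T1.l1 T1.l1) (xb T1.l1 T1.l1)) (xk (xb T1.l1 (xa T1.l1 T1.l1)) (xb T1.l1 T1.l1)))
  (TrL.c (I.pos (nat_lit 0) (nat_lit 111196574)) (xR T1.l2 (xR T1.l2 (xR T1.l2 T1.l6)))
  (TrL.c (I.pos (nat_lit 0) (nat_lit 77433728)) (xR T1.l3 (xR T1.l3 T1.l3))
  (TrL.c (I.pos (nat_lit 0) (nat_lit 0)) (xa (xk (xb T1.l4 T1.l4) T1.l4) (xk (xb T1.l4 (xa T1.l4 T1.l4)) (xb T1.l4 T1.l4)))
  (TrL.c (I.pos (nat_lit 0) (nat_lit 0)) (xa T1.l5 T1.l5)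
  (TrL.c (I.mix (nat_lit 29511666) (nat_lit 77433728)) (xR T1.l6 (xR T1.l6 (xR T1.l6 T1.l6)))
  (TrL.c (I.mix (nat_lit 29511666) (nat_lit 46070178)) (xR T1.l7 T1.l3)
  TrL.n)))))))) (by decide +kernel)
theorem bx0_1 : BoxOK sI cl7 cl13 cl13 t1 t1 b0_1 :=
  box_mk (TrL.c (I.pos (nat_lit 0) (nat_lit 0)) (xa T1.l20 (xa T1.l8 (xa T1.l8 T1.l8)))
  (TrL.c (I.pos (nat_lit 0) (nat_lit 0)) (xa T1.l1 T1.l1)
  (TrL.c (I.pos (nat_lit 0) (nat_lit 111196574)) T1.l2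
  (TrL.c (I.pos (nat_lit 0) (nat_lit 77433728)) (xR T1.l3 T1.l3)
  (TrL.c (I.pos (nat_lit 0) (nat_lit 0)) (xa T1.l21 (xa T1.l9 T1.l9))
  (TrL.c (I.pos (nat_lit 0) (nat_lit 0)) (xa T1.l5 T1.l5)
  (TrL.c (I.mix (nat_lit 29511666) (nat_lit 77433728)) (xR T1.l6 T1.l6)
  (TrL.c (I.mix (nat_lit 29511666) (nat_lit 46070178)) (xR T1.l6 T1.l3)
  TrL.n)))))))) (by decide +kernel)
theorem bx0_2 : BoxOK sI cl7 cl13 cl13 t1 t1 b0_2 :=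
  box_mk (TrL.c (I.pos (nat_lit 0) (nat_lit 0)) (xb (xa T1.l10 T1.l10) (xa T1.l10 T1.l10))
  (TrL.c (I.pos (nat_lit 0) (nat_lit 0)) T1.l1
  (TrL.c (I.pos (nat_lit 0) (nat_lit 111196574)) (xR T1.l2 T1.l2)
  (TrL.c (I.pos (nat_lit 0) (nat_lit 77433728)) (xR T1.l3 T1.l3)
  (TrL.c (I.pos (nat_lit 0) (nat_lit 0)) (xk T1.l11 T1.l11)
  (TrL.c (I.pos (nat_lit 0) (nat_lit 0)) T1.l5
  (TrL.c (I.mix (nat_lit 29511666) (nat_lit 77433728)) (xR T1.l6 T1.l6)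
  (TrL.c (I.mix (nat_lit 29511666) (nat_lit 46070178)) (xR T1.l7 T1.l7)
  TrL.n)))))))) (by decide +kernel)
theorem bx0_3 : BoxOK sI cl7 cl13 cl13 t1 t1 b0_3 :=
  box_mk (TrL.c (I.pos (nat_lit 0) (nat_lit 0)) (xa (xa T1.l12 T1.l12) T1.l8)
  (TrL.c (I.pos (nat_lit 0) (nat_lit 0)) (xa T1.l1 T1.l1)
  (TrL.c (I.pos (nat_lit 0) (nat_lit 111196574)) T1.l2
  (TrL.c (I.pos (nat_lit 0) (nat_lit 77433728)) (xR T1.l3 T1.l3)
  (TrL.c (I.pos (nat_lit 0) (nat_lit 0)) (xa T1.l13 T1.l17)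
  (TrL.c (I.pos (nat_lit 0) (nat_lit 0)) T1.l5
  (TrL.c (I.mix (nat_lit 29511666) (nat_lit 77433728)) T1.l6
  (TrL.c (I.mix (nat_lit 29511666) (nat_lit 46070178)) T1.l6
  TrL.n)))))))) (by decide +kernel)
theorem bx0_4 : BoxOK sI cl7 cl13 cl13 t1 t1 b0_4 :=
  box_mk (TrL.c (I.pos (nat_lit 0) (nat_lit 0)) T1.l0
  (TrL.c (I.pos (nat_lit 0) (nat_lit 0)) T1.l1
  (TrL.c (I.pos (nat_lit 0) (nat_lit 111196574)) (xR T1.l2 T1.l6)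
  (TrL.c (I.pos (nat_lit 0) (nat_lit 77433728)) (xR T1.l3 T1.l3)
  (TrL.c (I.pos (nat_lit 0) (nat_lit 0)) T1.l4
  (TrL.c (I.pos (nat_lit 0) (nat_lit 0)) T1.l5
  (TrL.c (I.mix (nat_lit 29511666) (nat_lit 77433728)) (xR T1.l6 T1.l6)
  (TrL.c (I.mix (nat_lit 29511666) (nat_lit 46070178)) T1.l7
  TrL.n)))))))) (by decide +kernel)
theorem bx0_5 : BoxOK sI cl7 cl13 cl13 t1 t1 b0_5 :=
  box_mk (TrL.c (I.pos (nat_lit 0) (nat_lit 0)) (xa (xb T1.l0 (xa T1.l0 T1.l0)) (xb T1.l0 (xa T1.l0 T1.l0)))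
  (TrL.c (I.pos (nat_lit 0) (nat_lit 0)) (xa (xk T1.l1 T1.l1) (xk T1.l5 T1.l5))
  (TrL.c (I.pos (nat_lit 0) (nat_lit 111196574)) (xR T1.l2 (xR T1.l2 T1.l6))
  (TrL.c (I.pos (nat_lit 0) (nat_lit 77433728)) (xR T1.l3 (xR T1.l3 T1.l3))
  (TrL.c (I.pos (nat_lit 0) (nat_lit 0)) (xa (xk T1.l4 T1.l4) (xk (xb (xa T1.l4 (xb T1.l4 T1.l4)) (xa T1.l4 (xk T1.l4 T1.l4))) (xb (xa T1.l4 T1.l4) (xa T1.l4 (xk T1.l4 T1.l4)))))
  (TrL.c (I.pos (nat_lit 0) (nat_lit 0)) (xk T1.l5 T1.l5)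
  (TrL.c (I.mix (nat_lit 29511666) (nat_lit 77433728)) (xR T1.l6 (xR T1.l6 (xR T1.l6 (xk T1.l6 T1.l6))))
  (TrL.c (I.mix (nat_lit 29511666) (nat_lit 46070178)) (xR T1.l7 T1.l3)
  TrL.n)))))))) (by decide +kernel)
theorem bx0_6 : BoxOK sI cl7 cl13 cl13 t1 t1 b0_6 :=
  box_mk (TrL.c (I.pos (nat_lit 0) (nat_lit 0)) (xa T1.l0 T1.l0)
  (TrL.c (I.pos (nat_lit 0) (nat_lit 0)) (xk T1.l5 T1.l1)
  (TrL.c (I.pos (nat_lit 0) (nat_lit 111196574)) (xR T1.l2 T1.l6)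
  (TrL.c (I.pos (nat_lit 0) (nat_lit 77433728)) (xR T1.l3 T1.l3)
  (TrL.c (I.pos (nat_lit 0) (nat_lit 0)) (xk (xb (xa T1.l4 (xk T1.l4 T1.l4)) T1.l4) (xb (xa T1.l4 T1.l4) T1.l4))
  (TrL.c (I.pos (nat_lit 0) (nat_lit 0)) (xk T1.l5 T1.l5)
  (TrL.c (I.mix (nat_lit 29511666) (nat_lit 77433728)) (xR T1.l6 (xR T1.l6 (xR T1.l6 T1.l6)))
  (TrL.c (I.mix (nat_lit 29511666) (nat_lit 46070178)) T1.l3
  TrL.n)))))))) (by decide +kernel)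
theorem bx0_7 : BoxOK sI cl7 cl13 cl13 t1 t1 b0_7 :=
  box_mk (TrL.c (I.pos (nat_lit 0) (nat_lit 0)) (xa T1.l0 T1.l0)
  (TrL.c (I.pos (nat_lit 0) (nat_lit 0)) (xk T1.l1 T1.l1)
  (TrL.c (I.pos (nat_lit 0) (nat_lit 111196574)) (xR T1.l2 T1.l6)
  (TrL.c (I.pos (nat_lit 0) (nat_lit 77433728)) (xR T1.l3 T1.l3)
  (TrL.c (I.pos (nat_lit 0) (nat_lit 0)) (xk T1.l4 T1.l4)
  (TrL.c (I.pos (nat_lit 0) (nat_lit 0)) T1.l5
  (TrL.c (I.mix (nat_lit 29511666) (nat_lit 77433728)) (xR T1.l6 T1.l6)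
  (TrL.c (I.mix (nat_lit 29511666) (nat_lit 46070178)) T1.l7
  TrL.n)))))))) (by decide +kernel)
theorem bx0_8 : BoxOK sI cl7 cl13 cl13 t1 t1 b0_8 :=
  box_mk (TrL.c (I.pos (nat_lit 0) (nat_lit 0)) (xa (xb (xa (xb T1.l0 T1.l0) (xb T1.l0 T1.l0)) (xa (xb (xc T1.l0 T1.l0) (xc (xa T1.l0 T1.l0) T1.l0)) (xb (xc T1.l0 T1.l0) (xc (xa T1.l0 T1.l0) (xs T1.l0 T1.l0))))) (xb (xa (xb T1.l0 T1.l4) (xb T1.l0 (xc T1.l0 T1.l0))) (xa (xb T1.l4 (xc T1.l4 (xs T1.l0 T1.l0))) (xb (xc T1.l0 T1.l0) (xc (xs T1.l0 (xa T1.l0 T1.l0)) (xs T1.l0 (xa T1.l0 T1.l0)))))))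
  (TrL.c (I.pos (nat_lit 0) (nat_lit 0)) (xa (xk T1.l5 (xb T1.l1 T1.l1)) (xk (xb T1.l5 T1.l5) T1.l5))
  (TrL.c (I.pos (nat_lit 0) (nat_lit 111196574)) (xR T1.l6 (xR T1.l2 T1.l6))
  (TrL.c (I.pos (nat_lit 0) (nat_lit 77433728)) (xR T1.l3 (xR T1.l3 (xR T1.l3 T1.l3)))
  (TrL.c (I.pos (nat_lit 0) (nat_lit 0)) (xb (xa (xk (xb (xa T1.l4 T1.l4) T1.l4) (xb (xa T1.l4 T1.l4) T1.l4)) (xk (xb (xa (xk T1.l4 T1.l4) (xk T1.l4 T1.l4)) (xa T1.l4 (xk T1.l4 T1.l4))) (xb (xa T1.l4 (xk T1.l4 T1.l4)) (xa T1.l4 (xk T1.l4 T1.l4))))) (xa (xk (xa T1.l4 T1.l4) T1.l4) (xk (xa (xb T1.l4 T1.l4) (xb (xk T1.l4 T1.l4) (xk T1.l4 T1.l4))) (xa (xb T1.l4 T1.l4) (xb (xk T1.l4 T1.l4) (xk T1.l4 T1.l4))))))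
  (TrL.c (I.pos (nat_lit 0) (nat_lit 0)) (xk (xb T1.l5 T1.l5) (xb T1.l5 T1.l5))
  (TrL.c (I.mix (nat_lit 29511666) (nat_lit 77433728)) (xR T1.l2 (xR T1.l6 (xR T1.l6 (xk (xb T1.l6 (xR T1.l6 T1.l6)) T1.l6))))
  (TrL.c (I.mix (nat_lit 29511666) (nat_lit 46070178)) (xR T1.l3 (xR T1.l7 T1.l3))
  TrL.n)))))))) (by decide +kernel)
theorem bx0_9 : BoxOK sI cl7 cl13 cl13 t1 t1 b0_9 :=
  box_mk (TrL.c (I.pos (nat_lit 0) (nat_lit 0)) T1.l0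
  (TrL.c (I.pos (nat_lit 0) (nat_lit 0)) T1.l5
  (TrL.c (I.pos (nat_lit 0) (nat_lit 111196574)) (xR T1.l2 T1.l6)
  (TrL.c (I.pos (nat_lit 0) (nat_lit 77433728)) (xR T1.l3 T1.l3)
  (TrL.c (I.pos (nat_lit 0) (nat_lit 0)) (xk (xa T1.l4 (xb (xk T1.l4 T1.l4) T1.l4)) (xa T1.l4 (xb T1.l4 T1.l4)))
  (TrL.c (I.pos (nat_lit 0) (nat_lit 0)) T1.l5
  (TrL.c (I.mix (nat_lit 29511666) (nat_lit 77433728)) (xR T1.l6 (xR T1.l6 T1.l6))
  (TrL.c (I.mix (nat_lit 29511666) (nat_lit 46070178)) T1.l7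
  TrL.n)))))))) (by decide +kernel)
theorem bx0_10 : BoxOK sI cl7 cl13 cl13 t1 t1 b0_10 :=
  box_mk (TrL.c (I.pos (nat_lit 0) (nat_lit 0)) (xa (xb T1.l14 T1.l10) T1.l0)
  (TrL.c (I.pos (nat_lit 0) (nat_lit 0)) (xa T1.l1 T1.l1)
  (TrL.c (I.pos (nat_lit 0) (nat_lit 111196574)) (xR T1.l2 T1.l2)
  (TrL.c (I.pos (nat_lit 0) (nat_lit 77433728)) (xR T1.l3 T1.l3)
  (TrL.c (I.pos (nat_lit 0) (nat_lit 0)) (xa T1.l15 (xk T1.l15 T1.l15))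
  (TrL.c (I.pos (nat_lit 0) (nat_lit 0)) T1.l5
  (TrL.c (I.mix (nat_lit 29511666) (nat_lit 77433728)) (xR T1.l6 T1.l6)
  (TrL.c (I.mix (nat_lit 29511666) (nat_lit 46070178)) (xR T1.l7 T1.l7)
  TrL.n)))))))) (by decide +kernel)
theorem bx0_11 : BoxOK sI cl7 cl13 cl13 t1 t1 b0_11 :=
  box_mk (TrL.c (I.pos (nat_lit 0) (nat_lit 0)) (xa T1.l8 T1.l8)
  (TrL.c (I.pos (nat_lit 0) (nat_lit 0)) T1.l1
  (TrL.c (I.pos (nat_lit 0) (nat_lit 111196574)) T1.l2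
  (TrL.c (I.pos (nat_lit 0) (nat_lit 77433728)) T1.l3
  (TrL.c (I.pos (nat_lit 0) (nat_lit 0)) T1.l21
  (TrL.c (I.pos (nat_lit 0) (nat_lit 0)) T1.l5
  (TrL.c (I.mix (nat_lit 29511666) (nat_lit 77433728)) T1.l6
  (TrL.c (I.mix (nat_lit 29511666) (nat_lit 46070178)) T1.l7
  TrL.n)))))))) (by decide +kernel)
theorem bx0_12 : BoxOK sI cl7 cl13 cl13 t1 t1 b0_12 :=
  box_mk (TrL.c (I.pos (nat_lit 0) (nat_lit 0)) (xb (xa (xb (xa T1.l18 T1.l18) (xa T1.l18 T1.l18)) (xb (xa T1.l18 T1.l18) (xa T1.l18 T1.l18))) (xa (xb (xa T1.l18 T1.l18) (xa (xs T1.l18 T1.l18) (xs T1.l18 T1.l18))) (xb (xa T1.l18 (xs T1.l18 (xk T1.l18 T1.l18))) (xa (xs T1.l18 (xk T1.l18 T1.l18)) (xs T1.l18 (xk T1.l18 T1.l18))))))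
  (TrL.c (I.pos (nat_lit 0) (nat_lit 0)) (xb (xk T1.l1 T1.l1) (xk (xa T1.l1 T1.l1) (xa T1.l1 T1.l1)))
  (TrL.c (I.pos (nat_lit 0) (nat_lit 111196574)) (xR T1.l2 (xR T1.l2 (xR T1.l2 (xb T1.l2 T1.l2))))
  (TrL.c (I.pos (nat_lit 0) (nat_lit 77433728)) (xR T1.l3 (xR T1.l3 (xR T1.l3 T1.l3)))
  (TrL.c (I.pos (nat_lit 0) (nat_lit 0)) (xb (xk T1.l19 T1.l19) (xk (xa T1.l19 T1.l19) T1.l19))
  (TrL.c (I.pos (nat_lit 0) (nat_lit 0)) T1.l5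
  (TrL.c (I.mix (nat_lit 29511666) (nat_lit 77433728)) (xR T1.l6 (xR T1.l6 (xR T1.l6 T1.l6)))
  (TrL.c (I.mix (nat_lit 29511666) (nat_lit 46070178)) (xR T1.l7 (xR T1.l7 T1.l7))
  TrL.n)))))))) (by decide +kernel)
theorem bx0_13 : BoxOK sI cl7 cl13 cl13 t1 t1 b0_13 :=
  box_mk (TrL.c (I.pos (nat_lit 0) (nat_lit 0)) (xa (xa T1.l20 T1.l20) (xa (xb T1.l20 T1.l20) (xb (xa T1.l20 T1.l10) (xa T1.l20 T1.l20))))
  (TrL.c (I.pos (nat_lit 0) (nat_lit 0)) (xa T1.l1 T1.l1)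
  (TrL.c (I.pos (nat_lit 0) (nat_lit 111196574)) T1.l2
  (TrL.c (I.pos (nat_lit 0) (nat_lit 77433728)) (xR T1.l3 T1.l3)
  (TrL.c (I.pos (nat_lit 0) (nat_lit 0)) (xa T1.l21 (xa T1.l21 T1.l21))
  (TrL.c (I.pos (nat_lit 0) (nat_lit 0)) (xa T1.l5 T1.l5)
  (TrL.c (I.mix (nat_lit 29511666) (nat_lit 77433728)) (xR T1.l6 T1.l6)
  (TrL.c (I.mix (nat_lit 29511666) (nat_lit 46070178)) (xR T1.l6 T1.l3)
  TrL.n)))))))) (by decide +kernel)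
theorem bx0_14 : BoxOK sI cl7 cl13 cl13 t1 t1 b0_14 :=
  box_mk (TrL.c (I.pos (nat_lit 0) (nat_lit 0)) (xb T1.l0 T1.l0)
  (TrL.c (I.pos (nat_lit 0) (nat_lit 0)) T1.l1
  (TrL.c (I.pos (nat_lit 0) (nat_lit 111196574)) (xR T1.l2 T1.l2)
  (TrL.c (I.pos (nat_lit 0) (nat_lit 77433728)) (xR T1.l3 T1.l3)
  (TrL.c (I.pos (nat_lit 0) (nat_lit 0)) (xk T1.l19 T1.l19)
  (TrL.c (I.pos (nat_lit 0) (nat_lit 0)) T1.l5
  (TrL.c (I.mix (nat_lit 29511666) (nat_lit 77433728)) (xR T1.l6 T1.l6)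
  (TrL.c (I.mix (nat_lit 29511666) (nat_lit 46070178)) (xR T1.l7 T1.l3)
  TrL.n)))))))) (by decide +kernel)
theorem bx0_15 : BoxOK sI cl7 cl13 cl13 t1 t1 b0_15 :=
  box_mk (TrL.c (I.pos (nat_lit 0) (nat_lit 0)) T1.l0
  (TrL.c (I.pos (nat_lit 0) (nat_lit 0)) T1.l1
  (TrL.c (I.pos (nat_lit 0) (nat_lit 111196574)) (xR T1.l2 T1.l2)
  (TrL.c (I.pos (nat_lit 0) (nat_lit 77433728)) (xR T1.l3 T1.l3)
  (TrL.c (I.pos (nat_lit 0) (nat_lit 0)) (xk T1.l19 (xb T1.l19 T1.l19))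
  (TrL.c (I.pos (nat_lit 0) (nat_lit 0)) T1.l5
  (TrL.c (I.mix (nat_lit 29511666) (nat_lit 77433728)) (xR T1.l6 T1.l6)
  (TrL.c (I.mix (nat_lit 29511666) (nat_lit 46070178)) T1.l7
  TrL.n)))))))) (by decide +kernel)
theorem bx0_16 : BoxOK sI cl7 cl13 cl13 t1 t1 b0_16 :=
  box_mk (TrL.c (I.pos (nat_lit 0) (nat_lit 0)) (xa (xb (xa T1.l18 T1.l18) (xa (xb T1.l18 T1.l18) (xb T1.l18 T1.l18))) (xb (xb (xa T1.l18 T1.l18) (xa T1.l18 T1.l18)) (xa (xb T1.l18 T1.l18) (xb T1.l18 (xs T1.l18 T1.l18)))))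
  (TrL.c (I.pos (nat_lit 0) (nat_lit 0)) (xk (xb T1.l1 T1.l1) (xb T1.l1 T1.l1))
  (TrL.c (I.pos (nat_lit 0) (nat_lit 111196574)) (xR T1.l2 (xR T1.l2 (xR T1.l2 T1.l2)))
  (TrL.c (I.pos (nat_lit 0) (nat_lit 77433728)) (xR T1.l3 (xR T1.l3 (xR T1.l3 T1.l3)))
  (TrL.c (I.pos (nat_lit 0) (nat_lit 0)) (xk (xb T1.l19 T1.l19) (xb T1.l19 T1.l19))
  (TrL.c (I.pos (nat_lit 0) (nat_lit 0)) T1.l5
  (TrL.c (I.mix (nat_lit 29511666) (nat_lit 77433728)) (xR T1.l6 (xR T1.l6 (xR T1.l6 T1.l6)))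
  (TrL.c (I.mix (nat_lit 29511666) (nat_lit 46070178)) (xR T1.l3 T1.l3)
  TrL.n)))))))) (by decide +kernel)
theorem bx0_17 : BoxOK sI cl7 cl13 cl13 t1 t1 b0_17 :=
  box_mk (TrL.c (I.pos (nat_lit 0) (nat_lit 0)) (xa (xb T1.l0 T1.l0) T1.l0)
  (TrL.c (I.pos (nat_lit 0) (nat_lit 0)) T1.l1
  (TrL.c (I.pos (nat_lit 0) (nat_lit 111196574)) (xR T1.l2 T1.l2)
  (TrL.c (I.pos (nat_lit 0) (nat_lit 77433728)) (xR T1.l3 T1.l3)
  (TrL.c (I.pos (nat_lit 0) (nat_lit 0)) (xk (xb (xa T1.l19 T1.l19) T1.l19) (xb (xa T1.l15 T1.l19) T1.l19))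
  (TrL.c (I.pos (nat_lit 0) (nat_lit 0)) T1.l5
  (TrL.c (I.mix (nat_lit 29511666) (nat_lit 77433728)) (xR T1.l6 T1.l6)
  (TrL.c (I.mix (nat_lit 29511666) (nat_lit 46070178)) T1.l7
  TrL.n)))))))) (by decide +kernel)
theorem bx0_18 : BoxOK sI cl7 cl13 cl13 t1 t1 b0_18 :=
  box_mk (TrL.c (I.pos (nat_lit 0) (nat_lit 0)) T1.l0
  (TrL.c (I.pos (nat_lit 0) (nat_lit 0)) T1.l1
  (TrL.c (I.pos (nat_lit 0) (nat_lit 111196574)) (xR T1.l2 T1.l2)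
  (TrL.c (I.pos (nat_lit 0) (nat_lit 77433728)) (xR T1.l3 T1.l3)
  (TrL.c (I.pos (nat_lit 0) (nat_lit 0)) T1.l19
  (TrL.c (I.pos (nat_lit 0) (nat_lit 0)) T1.l5
  (TrL.c (I.mix (nat_lit 29511666) (nat_lit 77433728)) (xR T1.l6 T1.l6)
  (TrL.c (I.mix (nat_lit 29511666) (nat_lit 46070178)) T1.l7
  TrL.n)))))))) (by decide +kernel)
theorem bx0_19 : BoxOK sI cl7 cl13 cl13 t1 t1 b0_19 :=
  box_mk (TrL.c (I.pos (nat_lit 0) (nat_lit 0)) (xb T1.l0 T1.l0)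
  (TrL.c (I.pos (nat_lit 0) (nat_lit 0)) T1.l1
  (TrL.c (I.pos (nat_lit 0) (nat_lit 111196574)) (xR T1.l2 T1.l2)
  (TrL.c (I.pos (nat_lit 0) (nat_lit 77433728)) (xR T1.l3 T1.l3)
  (TrL.c (I.pos (nat_lit 0) (nat_lit 0)) (xk T1.l19 T1.l19)
  (TrL.c (I.pos (nat_lit 0) (nat_lit 0)) T1.l5
  (TrL.c (I.mix (nat_lit 29511666) (nat_lit 77433728)) (xR T1.l6 T1.l6)
  (TrL.c (I.mix (nat_lit 29511666) (nat_lit 46070178)) T1.l3
  TrL.n)))))))) (by decide +kernel)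
theorem bx0_20 : BoxOK sI cl7 cl13 cl13 t1 t1 b0_20 :=
  box_mk (TrL.c (I.pos (nat_lit 0) (nat_lit 0)) T1.l0
  (TrL.c (I.pos (nat_lit 0) (nat_lit 0)) T1.l1
  (TrL.c (I.pos (nat_lit 0) (nat_lit 111196574)) (xR T1.l2 T1.l2)
  (TrL.c (I.pos (nat_lit 0) (nat_lit 77433728)) (xR T1.l3 T1.l3)
  (TrL.c (I.pos (nat_lit 0) (nat_lit 0)) T1.l4
  (TrL.c (I.pos (nat_lit 0) (nat_lit 0)) T1.l5
  (TrL.c (I.mix (nat_lit 29511666) (nat_lit 77433728)) (xR T1.l6 T1.l6)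
  (TrL.c (I.mix (nat_lit 29511666) (nat_lit 46070178)) T1.l7
  TrL.n)))))))) (by decide +kernel)
theorem bx0_21 : BoxOK sI cl7 cl13 cl13 t1 t1 b0_21 :=
  box_mk (TrL.c (I.pos (nat_lit 0) (nat_lit 0)) (xa (xb (xa T1.l18 (xb T1.l0 T1.l0)) (xa (xb T1.l0 (xs T1.l0 T1.l0)) (xs T1.l0 (xb T1.l0 T1.l0)))) (xb (xa (xb T1.l0 T1.l0) (xb T1.l0 T1.l0)) (xa (xs (xb T1.l0 T1.l0) (xb T1.l0 (xk T1.l0 T1.l0))) (xs (xb T1.l0 T1.l0) (xb T1.l0 (xk T1.l0 T1.l0))))))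
  (TrL.c (I.pos (nat_lit 0) (nat_lit 0)) (xk (xa T1.l1 T1.l5) (xa T1.l1 T1.l1))
  (TrL.c (I.pos (nat_lit 0) (nat_lit 111196574)) (xR T1.l2 (xR T1.l2 (xR T1.l2 T1.l2)))
  (TrL.c (I.pos (nat_lit 0) (nat_lit 77433728)) (xR T1.l3 (xR T1.l3 (xR T1.l3 T1.l3)))
  (TrL.c (I.pos (nat_lit 0) (nat_lit 0)) (xk (xa T1.l4 T1.l4) (xa T1.l4 T1.l4))
  (TrL.c (I.pos (nat_lit 0) (nat_lit 0)) T1.l5
  (TrL.c (I.mix (nat_lit 29511666) (nat_lit 77433728)) (xR T1.l6 (xR T1.l6 (xR T1.l6 T1.l6)))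
  (TrL.c (I.mix (nat_lit 29511666) (nat_lit 46070178)) (xR T1.l3 T1.l3)
  TrL.n)))))))) (by decide +kernel)
theorem sv0 : StarV sI cl7 cl13 cl13 t1 t1 t0 :=
  (bt_n (bt_n (bt_n (bt_n (bt_b bx0_0) (bt_b bx0_1)) (bt_n (bt_b bx0_2) (bt_n (bt_b bx0_3) (bt_b bx0_4)))) (bt_n (bt_n (bt_b bx0_5) (bt_n (bt_b bx0_6) (bt_b bx0_7))) (bt_n (bt_b bx0_8) (bt_n (bt_b bx0_9) (bt_b bx0_10))))) (bt_n (bt_n (bt_n (bt_b bx0_11) (bt_b bx0_12)) (bt_n (bt_b bx0_13) (bt_n (bt_b bx0_14) (bt_b bx0_15)))) (bt_n (bt_n (bt_b bx0_16) (bt_n (bt_b bx0_17) (bt_b bx0_18))) (bt_n (bt_b bx0_19) (bt_n (bt_b bx0_20) (bt_b bx0_21))))))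
def S0 : StarD := StarD.mk cl7 cl13 cl13 1 1 t0
theorem bx1_0 : BoxOK sI cl13 cl7 cl13 t0 t2 b1_0 :=
  box_mk (TrL.c (I.pos (nat_lit 0) (nat_lit 0)) (xa (xb (xa (xb T0.l0 T0.l0) T0.l21) (xa (xb (xa T0.l0 T0.l0) (xa T0.l0 T0.l0)) (xb T0.l0 (xa T0.l0 T0.l21)))) (xb (xa (xb T0.l0 T0.l0) T0.l0) (xa (xb T0.l0 (xa T0.l21 (xs T0.l0 T0.l0))) (xb T0.l0 (xa (xs T0.l0 T0.l0) (xs T0.l0 T0.l0))))))
  (TrL.c (I.pos (nat_lit 0) (nat_lit 0)) (xa (xk T2.l1 T2.l1) (xk T2.l1 T2.l1))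
  (TrL.c (I.pos (nat_lit 0) (nat_lit 134217730)) (xR T0.l1 T0.l13)
  (TrL.c (I.pos (nat_lit 0) (nat_lit 110514882)) (xR T2.l2 (xR T2.l2 (xR T2.l2 T2.l2)))
  (TrL.c (I.pos (nat_lit 0) (nat_lit 0)) (xa (xk T2.l3 T2.l3) (xk (xb T2.l3 T2.l3) (xb T2.l3 T2.l3)))
  (TrL.c (I.pos (nat_lit 0) (nat_lit 0)) T0.l2
  (TrL.c (I.mix (nat_lit 8088324) (nat_lit 110514882)) (xR T2.l4 (xR T2.l4 (xR T2.l4 T2.l4)))
  (TrL.c (I.mix (nat_lit 8088324) (nat_lit 89478486)) (xR T0.l3 T0.l3)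
  TrL.n)))))))) (by decide +kernel)
theorem bx1_1 : BoxOK sI cl13 cl7 cl13 t0 t2 b1_1 :=
  box_mk (TrL.c (I.pos (nat_lit 0) (nat_lit 0)) (xa (xb T0.l7 T0.l7) (xb T0.l0 T0.l0))
  (TrL.c (I.pos (nat_lit 0) (nat_lit 0)) T2.l1
  (TrL.c (I.pos (nat_lit 0) (nat_lit 134217730)) (xR T0.l1 T0.l1)
  (TrL.c (I.pos (nat_lit 0) (nat_lit 110514882)) (xR T2.l2 T2.l2)
  (TrL.c (I.pos (nat_lit 0) (nat_lit 0)) (xa T2.l8 (xk T2.l5 T2.l5))
  (TrL.c (I.pos (nat_lit 0) (nat_lit 0)) T0.l2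
  (TrL.c (I.mix (nat_lit 8088324) (nat_lit 110514882)) T2.l4
  (TrL.c (I.mix (nat_lit 8088324) (nat_lit 89478486)) T0.l3
  TrL.n)))))))) (by decide +kernel)
theorem bx1_2 : BoxOK sI cl13 cl7 cl13 t0 t2 b1_2 :=
  box_mk (TrL.c (I.pos (nat_lit 0) (nat_lit 0)) (xa T0.l8 (xa T0.l5 (xa T0.l5 T0.l5)))
  (TrL.c (I.pos (nat_lit 0) (nat_lit 0)) (xa T2.l1 T2.l1)
  (TrL.c (I.pos (nat_lit 0) (nat_lit 134217730)) (xR T0.l1 T0.l1)
  (TrL.c (I.pos (nat_lit 0) (nat_lit 110514882)) (xR T2.l2 (xR T2.l2 T2.l2))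
  (TrL.c (I.pos (nat_lit 0) (nat_lit 0)) (xa T2.l6 T2.l6)
  (TrL.c (I.pos (nat_lit 0) (nat_lit 0)) T0.l2
  (TrL.c (I.mix (nat_lit 8088324) (nat_lit 110514882)) T2.l4
  (TrL.c (I.mix (nat_lit 8088324) (nat_lit 89478486)) T0.l3
  TrL.n)))))))) (by decide +kernel)
theorem bx1_3 : BoxOK sI cl13 cl7 cl13 t0 t2 b1_3 :=
  box_mk (TrL.c (I.pos (nat_lit 0) (nat_lit 0)) (xa T0.l8 T0.l8)
  (TrL.c (I.pos (nat_lit 0) (nat_lit 0)) (xa T2.l1 T2.l1)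
  (TrL.c (I.pos (nat_lit 0) (nat_lit 134217730)) T0.l1
  (TrL.c (I.pos (nat_lit 0) (nat_lit 110514882)) (xR T2.l2 (xR T2.l4 (xR T2.l2 T2.l2)))
  (TrL.c (I.pos (nat_lit 0) (nat_lit 0)) (xa T2.l1 T2.l6)
  (TrL.c (I.pos (nat_lit 0) (nat_lit 0)) T0.l2
  (TrL.c (I.mix (nat_lit 8088324) (nat_lit 110514882)) T2.l4
  (TrL.c (I.mix (nat_lit 8088324) (nat_lit 89478486)) T0.l3
  TrL.n)))))))) (by decide +kernel)
theorem bx1_4 : BoxOK sI cl13 cl7 cl13 t0 t2 b1_4 :=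
  box_mk (TrL.c (I.pos (nat_lit 0) (nat_lit 0)) (xb (xa (xb T0.l21 (xa T0.l21 T0.l21)) (xb (xa T0.l21 T0.l21) (xa T0.l21 T0.l21))) (xa (xb (xa T0.l21 T0.l21) (xa (xs T0.l21 T0.l21) (xs T0.l21 T0.l21))) (xb (xa T0.l21 (xk T0.l21 T0.l21)) (xa (xs T0.l21 T0.l21) (xs T0.l21 (xk T0.l21 T0.l21))))))
  (TrL.c (I.pos (nat_lit 0) (nat_lit 0)) (xk (xb T2.l1 T2.l1) (xb T2.l1 T2.l1))
  (TrL.c (I.pos (nat_lit 0) (nat_lit 134217730)) (xR T0.l1 (xR T0.l1 (xR T0.l1 (xR T0.l1 T0.l13))))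
  (TrL.c (I.pos (nat_lit 0) (nat_lit 110514882)) (xR T2.l2 (xR T2.l2 (xR T2.l2 T2.l2)))
  (TrL.c (I.pos (nat_lit 0) (nat_lit 0)) (xb (xk (xb T2.l20 T2.l20) (xb T2.l20 (xa T2.l3 T2.l20))) (xk (xb (xa T2.l3 T2.l3) (xa T2.l3 (xs T2.l3 (xb T2.l3 (xk T2.l3 T2.l3))))) (xa (xb T2.l3 (xs T2.l3 T2.l3)) (xb T2.l3 (xs (xb T2.l3 (xk T2.l3 T2.l3)) (xb T2.l3 (xk (xa T2.l3 T2.l3) (xa T2.l3 T2.l3))))))))
  (TrL.c (I.pos (nat_lit 0) (nat_lit 0)) T0.l2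
  (TrL.c (I.mix (nat_lit 8088324) (nat_lit 110514882)) (xR T2.l4 (xR T2.l4 (xR T2.l4 T2.l4)))
  (TrL.c (I.mix (nat_lit 8088324) (nat_lit 89478486)) (xR T0.l3 (xR T0.l3 (xR T0.l3 T0.l3)))
  TrL.n)))))))) (by decide +kernel)
theorem bx1_5 : BoxOK sI cl13 cl7 cl13 t0 t2 b1_5 :=
  box_mk (TrL.c (I.pos (nat_lit 0) (nat_lit 0)) (xb (xa T0.l7 T0.l7) (xa T0.l7 T0.l7))
  (TrL.c (I.pos (nat_lit 0) (nat_lit 0)) T2.l1
  (TrL.c (I.pos (nat_lit 0) (nat_lit 134217730)) (xR T0.l1 T0.l1)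
  (TrL.c (I.pos (nat_lit 0) (nat_lit 110514882)) (xR T2.l2 T2.l2)
  (TrL.c (I.pos (nat_lit 0) (nat_lit 0)) (xb T2.l8 T2.l8)
  (TrL.c (I.pos (nat_lit 0) (nat_lit 0)) T0.l2
  (TrL.c (I.mix (nat_lit 8088324) (nat_lit 110514882)) T2.l4
  (TrL.c (I.mix (nat_lit 8088324) (nat_lit 89478486)) T0.l3
  TrL.n)))))))) (by decide +kernel)
theorem bx1_6 : BoxOK sI cl13 cl7 cl13 t0 t2 b1_6 :=
  box_mk (TrL.c (I.pos (nat_lit 0) (nat_lit 0)) (xa (xa T0.l8 T0.l8) (xa T0.l8 (xb T0.l5 T0.l8)))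
  (TrL.c (I.pos (nat_lit 0) (nat_lit 0)) (xa T2.l1 T2.l1)
  (TrL.c (I.pos (nat_lit 0) (nat_lit 134217730)) (xR T0.l1 T0.l1)
  (TrL.c (I.pos (nat_lit 0) (nat_lit 110514882)) (xR T2.l2 (xR T2.l4 (xR T2.l2 T2.l2)))
  (TrL.c (I.pos (nat_lit 0) (nat_lit 0)) (xa T2.l1 T2.l9)
  (TrL.c (I.pos (nat_lit 0) (nat_lit 0)) T0.l2
  (TrL.c (I.mix (nat_lit 8088324) (nat_lit 110514882)) T2.l4
  (TrL.c (I.mix (nat_lit 8088324) (nat_lit 89478486)) T0.l3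
  TrL.n)))))))) (by decide +kernel)
theorem bx1_7 : BoxOK sI cl13 cl7 cl13 t0 t2 b1_7 :=
  box_mk (TrL.c (I.pos (nat_lit 0) (nat_lit 0)) (xa T0.l9 T0.l5)
  (TrL.c (I.pos (nat_lit 0) (nat_lit 0)) T2.l1
  (TrL.c (I.pos (nat_lit 0) (nat_lit 134217730)) (xR T0.l1 T0.l1)
  (TrL.c (I.pos (nat_lit 0) (nat_lit 110514882)) T2.l4
  (TrL.c (I.pos (nat_lit 0) (nat_lit 0)) (xa T2.l1 T2.l6)
  (TrL.c (I.pos (nat_lit 0) (nat_lit 0)) T0.l2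
  (TrL.c (I.mix (nat_lit 8088324) (nat_lit 110514882)) T2.l4
  (TrL.c (I.mix (nat_lit 8088324) (nat_lit 89478486)) T0.l3
  TrL.n)))))))) (by decide +kernel)
theorem bx1_8 : BoxOK sI cl13 cl7 cl13 t0 t2 b1_8 :=
  box_mk (TrL.c (I.pos (nat_lit 0) (nat_lit 0)) (xa (xb T0.l0 (xa T0.l0 T0.l0)) (xb T0.l0 (xa T0.l0 T0.l0)))
  (TrL.c (I.pos (nat_lit 0) (nat_lit 0)) (xa T2.l1 (xk (xb T2.l1 T2.l1) T2.l1))
  (TrL.c (I.pos (nat_lit 0) (nat_lit 134217730)) (xR T0.l1 T0.l13)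
  (TrL.c (I.pos (nat_lit 0) (nat_lit 110514882)) (xR T2.l2 (xR T2.l2 (xR T2.l2 T2.l2)))
  (TrL.c (I.pos (nat_lit 0) (nat_lit 0)) (xa (xk T2.l3 T2.l3) (xk (xb (xa T2.l3 (xk T2.l3 T2.l3)) (xa T2.l3 (xk T2.l3 T2.l3))) (xb (xa T2.l3 T2.l3) (xa T2.l3 T2.l3))))
  (TrL.c (I.pos (nat_lit 0) (nat_lit 0)) (xk T0.l2 T0.l2)
  (TrL.c (I.mix (nat_lit 8088324) (nat_lit 110514882)) (xR T2.l4 (xR T2.l4 (xR T2.l4 (xR T2.l4 T2.l4))))
  (TrL.c (I.mix (nat_lit 8088324) (nat_lit 89478486)) (xR T0.l3 T0.l3)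
  TrL.n)))))))) (by decide +kernel)
theorem bx1_9 : BoxOK sI cl13 cl7 cl13 t0 t2 b1_9 :=
  box_mk (TrL.c (I.pos (nat_lit 0) (nat_lit 0)) (xb T0.l0 (xa T0.l0 T0.l21))
  (TrL.c (I.pos (nat_lit 0) (nat_lit 0)) T2.l1
  (TrL.c (I.pos (nat_lit 0) (nat_lit 134217730)) (xR T0.l1 T0.l1)
  (TrL.c (I.pos (nat_lit 0) (nat_lit 110514882)) (xR T2.l2 T2.l2)
  (TrL.c (I.pos (nat_lit 0) (nat_lit 0)) (xk T2.l20 T2.l20)
  (TrL.c (I.pos (nat_lit 0) (nat_lit 0)) T0.l2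
  (TrL.c (I.mix (nat_lit 8088324) (nat_lit 110514882)) T2.l4
  (TrL.c (I.mix (nat_lit 8088324) (nat_lit 89478486)) T0.l3
  TrL.n)))))))) (by decide +kernel)
theorem bx1_10 : BoxOK sI cl13 cl7 cl13 t0 t2 b1_10 :=
  box_mk (TrL.c (I.pos (nat_lit 0) (nat_lit 0)) (xa T0.l0 T0.l0)
  (TrL.c (I.pos (nat_lit 0) (nat_lit 0)) T2.l1
  (TrL.c (I.pos (nat_lit 0) (nat_lit 134217730)) (xR T0.l1 T0.l13)
  (TrL.c (I.pos (nat_lit 0) (nat_lit 110514882)) (xR T2.l2 T2.l2)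
  (TrL.c (I.pos (nat_lit 0) (nat_lit 0)) (xk T2.l3 T2.l3)
  (TrL.c (I.pos (nat_lit 0) (nat_lit 0)) T0.l2
  (TrL.c (I.mix (nat_lit 8088324) (nat_lit 110514882)) (xR T2.l4 T2.l4)
  (TrL.c (I.mix (nat_lit 8088324) (nat_lit 89478486)) T0.l3
  TrL.n)))))))) (by decide +kernel)
theorem bx1_11 : BoxOK sI cl13 cl7 cl13 t0 t2 b1_11 :=
  box_mk (TrL.c (I.pos (nat_lit 0) (nat_lit 0)) T0.l0
  (TrL.c (I.pos (nat_lit 0) (nat_lit 0)) T2.l1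
  (TrL.c (I.pos (nat_lit 0) (nat_lit 134217730)) (xR T0.l1 T0.l1)
  (TrL.c (I.pos (nat_lit 0) (nat_lit 110514882)) (xR T2.l2 T2.l2)
  (TrL.c (I.pos (nat_lit 0) (nat_lit 0)) (xk T2.l20 T2.l20)
  (TrL.c (I.pos (nat_lit 0) (nat_lit 0)) T0.l2
  (TrL.c (I.mix (nat_lit 8088324) (nat_lit 110514882)) T2.l4
  (TrL.c (I.mix (nat_lit 8088324) (nat_lit 89478486)) T0.l3
  TrL.n)))))))) (by decide +kernel)
theorem bx1_12 : BoxOK sI cl13 cl7 cl13 t0 t2 b1_12 :=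
  box_mk (TrL.c (I.pos (nat_lit 0) (nat_lit 0)) T0.l0
  (TrL.c (I.pos (nat_lit 0) (nat_lit 0)) T2.l12
  (TrL.c (I.pos (nat_lit 0) (nat_lit 134217730)) (xR T0.l1 T0.l13)
  (TrL.c (I.pos (nat_lit 0) (nat_lit 110514882)) (xR T2.l2 (xR T2.l2 T2.l2))
  (TrL.c (I.pos (nat_lit 0) (nat_lit 0)) (xk (xb (xa T2.l3 T2.l3) T2.l3) (xb (xa T2.l3 T2.l3) T2.l3))
  (TrL.c (I.pos (nat_lit 0) (nat_lit 0)) T0.l2
  (TrL.c (I.mix (nat_lit 8088324) (nat_lit 110514882)) (xR T2.l4 (xR T2.l4 (xR T2.l4 T2.l4)))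
  (TrL.c (I.mix (nat_lit 8088324) (nat_lit 89478486)) T0.l3
  TrL.n)))))))) (by decide +kernel)
theorem bx1_13 : BoxOK sI cl13 cl7 cl13 t0 t2 b1_13 :=
  box_mk (TrL.c (I.pos (nat_lit 0) (nat_lit 0)) T0.l0
  (TrL.c (I.pos (nat_lit 0) (nat_lit 0)) T2.l1
  (TrL.c (I.pos (nat_lit 0) (nat_lit 134217730)) (xR T0.l1 T0.l1)
  (TrL.c (I.pos (nat_lit 0) (nat_lit 110514882)) (xR T2.l2 T2.l2)
  (TrL.c (I.pos (nat_lit 0) (nat_lit 0)) (xk T2.l20 T2.l20)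
  (TrL.c (I.pos (nat_lit 0) (nat_lit 0)) T0.l2
  (TrL.c (I.mix (nat_lit 8088324) (nat_lit 110514882)) T2.l4
  (TrL.c (I.mix (nat_lit 8088324) (nat_lit 89478486)) T0.l3
  TrL.n)))))))) (by decide +kernel)
theorem bx1_14 : BoxOK sI cl13 cl7 cl13 t0 t2 b1_14 :=
  box_mk (TrL.c (I.pos (nat_lit 0) (nat_lit 0)) T0.l0
  (TrL.c (I.pos (nat_lit 0) (nat_lit 0)) T2.l1
  (TrL.c (I.pos (nat_lit 0) (nat_lit 134217730)) (xR T0.l1 T0.l13)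
  (TrL.c (I.pos (nat_lit 0) (nat_lit 110514882)) (xR T2.l2 T2.l2)
  (TrL.c (I.pos (nat_lit 0) (nat_lit 0)) (xk T2.l3 T2.l3)
  (TrL.c (I.pos (nat_lit 0) (nat_lit 0)) T0.l2
  (TrL.c (I.mix (nat_lit 8088324) (nat_lit 110514882)) T2.l4
  (TrL.c (I.mix (nat_lit 8088324) (nat_lit 89478486)) T0.l3
  TrL.n)))))))) (by decide +kernel)
theorem bx1_15 : BoxOK sI cl13 cl7 cl13 t0 t2 b1_15 :=
  box_mk (TrL.c (I.pos (nat_lit 0) (nat_lit 0)) T0.l0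
  (TrL.c (I.pos (nat_lit 0) (nat_lit 0)) T2.l1
  (TrL.c (I.pos (nat_lit 0) (nat_lit 134217730)) (xR T0.l1 T0.l1)
  (TrL.c (I.pos (nat_lit 0) (nat_lit 110514882)) (xR T2.l2 T2.l2)
  (TrL.c (I.pos (nat_lit 0) (nat_lit 0)) (xk T2.l20 T2.l20)
  (TrL.c (I.pos (nat_lit 0) (nat_lit 0)) T0.l2
  (TrL.c (I.mix (nat_lit 8088324) (nat_lit 110514882)) (xR T2.l4 T2.l4)
  (TrL.c (I.mix (nat_lit 8088324) (nat_lit 89478486)) T0.l3
  TrL.n)))))))) (by decide +kernel)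
theorem bx1_16 : BoxOK sI cl13 cl7 cl13 t0 t2 b1_16 :=
  box_mk (TrL.c (I.pos (nat_lit 0) (nat_lit 0)) T0.l0
  (TrL.c (I.pos (nat_lit 0) (nat_lit 0)) T2.l1
  (TrL.c (I.pos (nat_lit 0) (nat_lit 134217730)) (xR T0.l1 T0.l13)
  (TrL.c (I.pos (nat_lit 0) (nat_lit 110514882)) (xR T2.l2 (xR T2.l2 T2.l2))
  (TrL.c (I.pos (nat_lit 0) (nat_lit 0)) (xk T2.l3 T2.l3)
  (TrL.c (I.pos (nat_lit 0) (nat_lit 0)) T0.l2
  (TrL.c (I.mix (nat_lit 8088324) (nat_lit 110514882)) (xR T2.l4 (xR T2.l4 T2.l4))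
  (TrL.c (I.mix (nat_lit 8088324) (nat_lit 89478486)) T0.l3
  TrL.n)))))))) (by decide +kernel)
theorem bx1_17 : BoxOK sI cl13 cl7 cl13 t0 t2 b1_17 :=
  box_mk (TrL.c (I.pos (nat_lit 0) (nat_lit 0)) T0.l0
  (TrL.c (I.pos (nat_lit 0) (nat_lit 0)) T2.l1
  (TrL.c (I.pos (nat_lit 0) (nat_lit 134217730)) (xR T0.l1 T0.l1)
  (TrL.c (I.pos (nat_lit 0) (nat_lit 110514882)) (xR T2.l2 T2.l2)
  (TrL.c (I.pos (nat_lit 0) (nat_lit 0)) (xk T2.l20 T2.l20)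
  (TrL.c (I.pos (nat_lit 0) (nat_lit 0)) T0.l2
  (TrL.c (I.mix (nat_lit 8088324) (nat_lit 110514882)) T2.l4
  (TrL.c (I.mix (nat_lit 8088324) (nat_lit 89478486)) T0.l3
  TrL.n)))))))) (by decide +kernel)
theorem bx1_18 : BoxOK sI cl13 cl7 cl13 t0 t2 b1_18 :=
  box_mk (TrL.c (I.pos (nat_lit 0) (nat_lit 0)) (xa (xb (xa T0.l21 T0.l0) (xa (xs T0.l0 T0.l0) (xs T0.l0 T0.l0))) (xb (xa T0.l0 T0.l0) (xa (xs T0.l0 T0.l0) (xs T0.l0 (xk T0.l0 T0.l0)))))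
  (TrL.c (I.pos (nat_lit 0) (nat_lit 0)) (xk T2.l1 T2.l1)
  (TrL.c (I.pos (nat_lit 0) (nat_lit 134217730)) (xR T0.l1 T0.l13)
  (TrL.c (I.pos (nat_lit 0) (nat_lit 110514882)) (xR T2.l2 (xR T2.l2 (xR T2.l2 T2.l2)))
  (TrL.c (I.pos (nat_lit 0) (nat_lit 0)) (xk (xb T2.l3 (xa T2.l3 (xs T2.l3 (xb T2.l3 (xk T2.l3 T2.l3))))) (xb T2.l3 (xa (xs T2.l3 T2.l3) (xs (xb T2.l3 T2.l3) (xb T2.l3 (xk T2.l3 (xa T2.l3 T2.l3)))))))
  (TrL.c (I.pos (nat_lit 0) (nat_lit 0)) T0.l2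
  (TrL.c (I.mix (nat_lit 8088324) (nat_lit 110514882)) (xR T2.l4 (xR T2.l4 T2.l4))
  (TrL.c (I.mix (nat_lit 8088324) (nat_lit 89478486)) (xR T0.l3 T0.l3)
  TrL.n)))))))) (by decide +kernel)
theorem bx1_19 : BoxOK sI cl13 cl7 cl13 t0 t2 b1_19 :=
  box_mk (TrL.c (I.pos (nat_lit 0) (nat_lit 0)) (xa (xb (xb T0.l21 T0.l21) (xa T0.l21 T0.l21)) (xb (xa T0.l21 T0.l21) (xa T0.l21 (xb T0.l21 T0.l21))))
  (TrL.c (I.pos (nat_lit 0) (nat_lit 0)) (xk T2.l1 T2.l1)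
  (TrL.c (I.pos (nat_lit 0) (nat_lit 134217730)) (xR T0.l1 T0.l13)
  (TrL.c (I.pos (nat_lit 0) (nat_lit 110514882)) (xR T2.l2 (xR T2.l2 (xR T2.l2 T2.l2)))
  (TrL.c (I.pos (nat_lit 0) (nat_lit 0)) (xk (xb T2.l20 (xa T2.l3 (xb T2.l3 T2.l3))) (xb T2.l20 (xa T2.l3 (xb T2.l3 (xs T2.l3 (xk T2.l3 T2.l3))))))
  (TrL.c (I.pos (nat_lit 0) (nat_lit 0)) T0.l2
  (TrL.c (I.mix (nat_lit 8088324) (nat_lit 110514882)) (xR T2.l4 (xR T2.l4 (xR T2.l4 T2.l4)))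
  (TrL.c (I.mix (nat_lit 8088324) (nat_lit 89478486)) (xR T0.l3 (xR T0.l3 T0.l3))
  TrL.n)))))))) (by decide +kernel)
theorem bx1_20 : BoxOK sI cl13 cl7 cl13 t0 t2 b1_20 :=
  box_mk (TrL.c (I.pos (nat_lit 0) (nat_lit 0)) (xa (xb (xa T0.l0 T0.l0) (xa (xb T0.l0 T0.l0) (xb T0.l0 (xc T0.l0 T0.l0)))) (xb (xa T0.l0 T0.l0) (xa (xb T0.l0 (xc T0.l0 T0.l0)) (xb T0.l0 (xc T0.l0 T0.l0)))))
  (TrL.c (I.pos (nat_lit 0) (nat_lit 0)) (xa (xk T2.l1 T2.l1) (xk (xb T2.l1 T2.l12) T2.l12))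
  (TrL.c (I.pos (nat_lit 0) (nat_lit 134217730)) (xR T0.l1 T0.l13)
  (TrL.c (I.pos (nat_lit 0) (nat_lit 110514882)) (xR T2.l2 (xR T2.l2 (xR T2.l2 T2.l2)))
  (TrL.c (I.pos (nat_lit 0) (nat_lit 0)) (xa (xk (xb (xa T2.l3 T2.l3) T2.l3) (xb (xa T2.l3 T2.l3) T2.l3)) (xb (xk (xa T2.l3 (xb T2.l3 T2.l3)) (xa T2.l3 (xb T2.l3 T2.l3))) (xk (xa T2.l3 (xk T2.l3 T2.l3)) (xa T2.l3 (xk T2.l3 T2.l3)))))
  (TrL.c (I.pos (nat_lit 0) (nat_lit 0)) (xk (xa T0.l2 T0.l2) T0.l2)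
  (TrL.c (I.mix (nat_lit 8088324) (nat_lit 110514882)) (xR T2.l4 (xR T2.l4 (xR T2.l4 (xk (xR T2.l4 T2.l4) T2.l4))))
  (TrL.c (I.mix (nat_lit 8088324) (nat_lit 89478486)) (xR T0.l3 (xR T0.l3 (xR T0.l3 T0.l3)))
  TrL.n)))))))) (by decide +kernel)
theorem bx1_21 : BoxOK sI cl13 cl7 cl13 t0 t2 b1_21 :=
  box_mk (TrL.c (I.pos (nat_lit 0) (nat_lit 0)) (xb T0.l0 (xa T0.l0 T0.l21))
  (TrL.c (I.pos (nat_lit 0) (nat_lit 0)) T2.l1
  (TrL.c (I.pos (nat_lit 0) (nat_lit 134217730)) (xR T0.l1 T0.l1)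
  (TrL.c (I.pos (nat_lit 0) (nat_lit 110514882)) (xR T2.l2 T2.l2)
  (TrL.c (I.pos (nat_lit 0) (nat_lit 0)) (xk T2.l20 (xb T2.l20 T2.l20))
  (TrL.c (I.pos (nat_lit 0) (nat_lit 0)) T0.l2
  (TrL.c (I.mix (nat_lit 8088324) (nat_lit 110514882)) T2.l4
  (TrL.c (I.mix (nat_lit 8088324) (nat_lit 89478486)) T0.l3
  TrL.n)))))))) (by decide +kernel)
theorem sv1 : StarV sI cl13 cl7 cl13 t0 t2 t1 :=
  (bt_n (bt_n (bt_n (bt_n (bt_b bx1_0) (bt_b bx1_1)) (bt_n (bt_b bx1_2) (bt_n (bt_b bx1_3) (bt_b bx1_4)))) (bt_n (bt_n (bt_b bx1_5) (bt_n (bt_b bx1_6) (bt_b bx1_7))) (bt_n (bt_b bx1_8) (bt_n (bt_b bx1_9) (bt_b bx1_10))))) (bt_n (bt_n (bt_n (bt_b bx1_11) (bt_b bx1_12)) (bt_n (bt_b bx1_13) (bt_n (bt_b bx1_14) (bt_b bx1_15)))) (bt_n (bt_n (bt_b bx1_16) (bt_n (bt_b bx1_17) (bt_b bx1_18))) (bt_n (bt_b bx1_19) (bt_n (bt_b bx1_20) (bt_b bx1_21))))))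
def S1 : StarD := StarD.mk cl13 cl7 cl13 0 2 t1
theorem bx2_0 : BoxOK sI cl13 cl13 cl7 t2 t0 b2_0 :=
  box_mk (TrL.c (I.pos (nat_lit 0) (nat_lit 0)) (xa (xb (xa (xb T2.l0 (xa T2.l0 T2.l0)) T2.l16) (xa (xb (xa T2.l0 T2.l0) (xa (xc T2.l0 T2.l0) (xc T2.l0 T2.l0))) (xa (xb T2.l0 T2.l0) (xb T2.l0 T2.l0)))) (xa (xb (xb T2.l0 T2.l0) (xa (xb T2.l0 T2.l0) (xb T2.l0 T2.l0))) (xb (xb T2.l0 T2.l0) (xa (xb T2.l0 (xs T2.l0 T2.l0)) (xb T2.l0 (xs T2.l0 T2.l0))))))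
  (TrL.c (I.pos (nat_lit 0) (nat_lit 0)) (xa (xk (xb T0.l10 T0.l10) T0.l10) (xk (xb T0.l10 (xa T0.l10 T0.l10)) T0.l10))
  (TrL.c (I.pos (nat_lit 0) (nat_lit 134217730)) (xR T2.l4 (xR T2.l4 (xR T2.l11 T2.l4)))
  (TrL.c (I.pos (nat_lit 0) (nat_lit 110514882)) (xR T0.l3 (xR T0.l3 (xR T0.l11 T0.l11)))
  (TrL.c (I.pos (nat_lit 0) (nat_lit 0)) (xa (xk T0.l12 T0.l16) (xk (xb T0.l12 (xb T0.l12 (xa T0.l16 T0.l12))) (xb T0.l12 (xa T0.l16 (xb T0.l12 (xs T0.l12 T0.l12))))))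
  (TrL.c (I.pos (nat_lit 0) (nat_lit 0)) T2.l12
  (TrL.c (I.mix (nat_lit 8088324) (nat_lit 110514882)) (xR T0.l13 (xR T0.l13 (xR T0.l13 (xR T0.l13 T0.l13))))
  (TrL.c (I.mix (nat_lit 8088324) (nat_lit 89478486)) (xR T2.l2 (xR T2.l2 T2.l14))
  TrL.n)))))))) (by decide +kernel)
theorem bx2_1 : BoxOK sI cl13 cl13 cl7 t2 t0 b2_1 :=
  box_mk (TrL.c (I.pos (nat_lit 0) (nat_lit 0)) (xa (xb (xa T2.l19 T2.l0) (xa T2.l19 T2.l19)) (xb T2.l0 T2.l0))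
  (TrL.c (I.pos (nat_lit 0) (nat_lit 0)) (xa T0.l10 (xk T0.l10 T0.l10))
  (TrL.c (I.pos (nat_lit 0) (nat_lit 134217730)) (xR T2.l4 T2.l4)
  (TrL.c (I.pos (nat_lit 0) (nat_lit 110514882)) (xR T0.l3 (xR T0.l3 T0.l11))
  (TrL.c (I.pos (nat_lit 0) (nat_lit 0)) (xa (xk T0.l14 T0.l14) (xk T0.l14 T0.l14))
  (TrL.c (I.pos (nat_lit 0) (nat_lit 0)) T2.l12
  (TrL.c (I.mix (nat_lit 8088324) (nat_lit 110514882)) (xR T0.l13 T0.l13)
  (TrL.c (I.mix (nat_lit 8088324) (nat_lit 89478486)) T2.l2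
  TrL.n)))))))) (by decide +kernel)
theorem bx2_2 : BoxOK sI cl13 cl13 cl7 t2 t0 b2_2 :=
  box_mk (TrL.c (I.pos (nat_lit 0) (nat_lit 0)) (xa (xa T2.l15 T2.l15) (xa T2.l15 T2.l17))
  (TrL.c (I.pos (nat_lit 0) (nat_lit 0)) (xa T0.l10 T0.l10)
  (TrL.c (I.pos (nat_lit 0) (nat_lit 134217730)) (xR T2.l4 (xR T2.l11 T2.l11))
  (TrL.c (I.pos (nat_lit 0) (nat_lit 110514882)) (xR T0.l1 (xR T0.l3 (xR T0.l11 T0.l11)))
  (TrL.c (I.pos (nat_lit 0) (nat_lit 0)) (xa T0.l15 T0.l17)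
  (TrL.c (I.pos (nat_lit 0) (nat_lit 0)) T2.l12
  (TrL.c (I.mix (nat_lit 8088324) (nat_lit 110514882)) T0.l13
  (TrL.c (I.mix (nat_lit 8088324) (nat_lit 89478486)) T2.l4
  TrL.n)))))))) (by decide +kernel)
theorem bx2_3 : BoxOK sI cl13 cl13 cl7 t2 t0 b2_3 :=
  box_mk (TrL.c (I.pos (nat_lit 0) (nat_lit 0)) (xb (xa (xb T2.l16 T2.l16) (xb (xa T2.l16 T2.l16) (xa T2.l16 T2.l16))) (xa (xb (xa T2.l16 T2.l16) (xa (xs T2.l16 T2.l16) (xs T2.l16 T2.l16))) (xb (xa T2.l16 (xs T2.l16 T2.l16)) (xa (xs T2.l16 T2.l16) (xs T2.l16 (xk T2.l16 T2.l16))))))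
  (TrL.c (I.pos (nat_lit 0) (nat_lit 0)) (xk (xb T0.l10 (xa T0.l10 T0.l10)) (xb T0.l10 T0.l10))
  (TrL.c (I.pos (nat_lit 0) (nat_lit 134217730)) (xR T2.l4 (xR T2.l4 (xR T2.l11 (xR T2.l11 T2.l11))))
  (TrL.c (I.pos (nat_lit 0) (nat_lit 110514882)) (xR T0.l3 (xR T0.l3 (xR T0.l11 T0.l11)))
  (TrL.c (I.pos (nat_lit 0) (nat_lit 0)) (xb (xk T0.l16 T0.l16) (xk (xb T0.l16 (xa T0.l16 (xk (xs T0.l16 (xb T0.l16 T0.l16)) (xs T0.l16 (xb T0.l16 T0.l16))))) (xb (xa T0.l16 T0.l16) (xa (xb T0.l16 T0.l16) (xs (xb T0.l16 (xk T0.l16 T0.l16)) (xb (xk T0.l16 T0.l16) (xk (xa T0.l16 T0.l16) (xa T0.l16 (xd T0.l16 T0.l16)))))))))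
  (TrL.c (I.pos (nat_lit 0) (nat_lit 0)) T2.l12
  (TrL.c (I.mix (nat_lit 8088324) (nat_lit 110514882)) (xR T0.l13 (xR T0.l13 (xR T0.l13 T0.l13)))
  (TrL.c (I.mix (nat_lit 8088324) (nat_lit 89478486)) (xR T2.l2 (xR T2.l2 (xR T2.l14 T2.l14)))
  TrL.n)))))))) (by decide +kernel)
theorem bx2_4 : BoxOK sI cl13 cl13 cl7 t2 t0 b2_4 :=
  box_mk (TrL.c (I.pos (nat_lit 0) (nat_lit 0)) (xa (xa T2.l17 T2.l17) (xa (xb T2.l17 T2.l17) (xb (xa T2.l17 T2.l17) (xa T2.l17 T2.l17))))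
  (TrL.c (I.pos (nat_lit 0) (nat_lit 0)) (xa T0.l10 (xa T0.l10 T0.l10))
  (TrL.c (I.pos (nat_lit 0) (nat_lit 134217730)) (xR T2.l4 (xR T2.l11 T2.l11))
  (TrL.c (I.pos (nat_lit 0) (nat_lit 110514882)) (xR T0.l3 (xR T0.l3 (xR T0.l11 T0.l11)))
  (TrL.c (I.pos (nat_lit 0) (nat_lit 0)) (xa T0.l17 (xa T0.l17 T0.l17))
  (TrL.c (I.pos (nat_lit 0) (nat_lit 0)) T2.l12
  (TrL.c (I.mix (nat_lit 8088324) (nat_lit 110514882)) (xR T0.l13 T0.l13)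
  (TrL.c (I.mix (nat_lit 8088324) (nat_lit 89478486)) T2.l4
  TrL.n)))))))) (by decide +kernel)
theorem bx2_5 : BoxOK sI cl13 cl13 cl7 t2 t0 b2_5 :=
  box_mk (TrL.c (I.pos (nat_lit 0) (nat_lit 0)) (xb T2.l0 T2.l0)
  (TrL.c (I.pos (nat_lit 0) (nat_lit 0)) T0.l10
  (TrL.c (I.pos (nat_lit 0) (nat_lit 134217730)) (xR T2.l4 T2.l4)
  (TrL.c (I.pos (nat_lit 0) (nat_lit 110514882)) (xR T0.l3 (xR T0.l3 T0.l11))
  (TrL.c (I.pos (nat_lit 0) (nat_lit 0)) (xk T0.l16 T0.l16)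
  (TrL.c (I.pos (nat_lit 0) (nat_lit 0)) T2.l12
  (TrL.c (I.mix (nat_lit 8088324) (nat_lit 110514882)) (xR T0.l13 T0.l13)
  (TrL.c (I.mix (nat_lit 8088324) (nat_lit 89478486)) T2.l2
  TrL.n)))))))) (by decide +kernel)
theorem bx2_6 : BoxOK sI cl13 cl13 cl7 t2 t0 b2_6 :=
  box_mk (TrL.c (I.pos (nat_lit 0) (nat_lit 0)) (xa T2.l0 T2.l0)
  (TrL.c (I.pos (nat_lit 0) (nat_lit 0)) T0.l10
  (TrL.c (I.pos (nat_lit 0) (nat_lit 134217730)) (xR T2.l4 T2.l4)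
  (TrL.c (I.pos (nat_lit 0) (nat_lit 110514882)) (xR T0.l3 (xR T0.l3 T0.l11))
  (TrL.c (I.pos (nat_lit 0) (nat_lit 0)) (xk T0.l16 T0.l16)
  (TrL.c (I.pos (nat_lit 0) (nat_lit 0)) T2.l12
  (TrL.c (I.mix (nat_lit 8088324) (nat_lit 110514882)) (xR T0.l13 T0.l13)
  (TrL.c (I.mix (nat_lit 8088324) (nat_lit 89478486)) T2.l2
  TrL.n)))))))) (by decide +kernel)
theorem bx2_7 : BoxOK sI cl13 cl13 cl7 t2 t0 b2_7 :=
  box_mk (TrL.c (I.pos (nat_lit 0) (nat_lit 0)) T2.l0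
  (TrL.c (I.pos (nat_lit 0) (nat_lit 0)) T0.l10
  (TrL.c (I.pos (nat_lit 0) (nat_lit 134217730)) (xR T2.l4 T2.l4)
  (TrL.c (I.pos (nat_lit 0) (nat_lit 110514882)) (xR T0.l3 (xR T0.l3 T0.l11))
  (TrL.c (I.pos (nat_lit 0) (nat_lit 0)) (xk T0.l16 T0.l16)
  (TrL.c (I.pos (nat_lit 0) (nat_lit 0)) T2.l12
  (TrL.c (I.mix (nat_lit 8088324) (nat_lit 110514882)) (xR T0.l13 T0.l13)
  (TrL.c (I.mix (nat_lit 8088324) (nat_lit 89478486)) T2.l2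
  TrL.n)))))))) (by decide +kernel)
theorem bx2_8 : BoxOK sI cl13 cl13 cl7 t2 t0 b2_8 :=
  box_mk (TrL.c (I.pos (nat_lit 0) (nat_lit 0)) (xb T2.l0 T2.l0)
  (TrL.c (I.pos (nat_lit 0) (nat_lit 0)) T0.l10
  (TrL.c (I.pos (nat_lit 0) (nat_lit 134217730)) (xR T2.l4 T2.l4)
  (TrL.c (I.pos (nat_lit 0) (nat_lit 110514882)) (xR T0.l3 (xR T0.l3 T0.l11))
  (TrL.c (I.pos (nat_lit 0) (nat_lit 0)) (xk T0.l16 T0.l16)
  (TrL.c (I.pos (nat_lit 0) (nat_lit 0)) T2.l12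
  (TrL.c (I.mix (nat_lit 8088324) (nat_lit 110514882)) (xR T0.l13 T0.l13)
  (TrL.c (I.mix (nat_lit 8088324) (nat_lit 89478486)) T2.l2
  TrL.n)))))))) (by decide +kernel)
theorem bx2_9 : BoxOK sI cl13 cl13 cl7 t2 t0 b2_9 :=
  box_mk (TrL.c (I.pos (nat_lit 0) (nat_lit 0)) (xa T2.l0 T2.l0)
  (TrL.c (I.pos (nat_lit 0) (nat_lit 0)) T0.l10
  (TrL.c (I.pos (nat_lit 0) (nat_lit 134217730)) (xR T2.l4 T2.l4)
  (TrL.c (I.pos (nat_lit 0) (nat_lit 110514882)) (xR T0.l3 (xR T0.l3 T0.l11))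
  (TrL.c (I.pos (nat_lit 0) (nat_lit 0)) (xk T0.l16 T0.l16)
  (TrL.c (I.pos (nat_lit 0) (nat_lit 0)) T2.l12
  (TrL.c (I.mix (nat_lit 8088324) (nat_lit 110514882)) (xR T0.l13 T0.l13)
  (TrL.c (I.mix (nat_lit 8088324) (nat_lit 89478486)) T2.l2
  TrL.n)))))))) (by decide +kernel)
theorem bx2_10 : BoxOK sI cl13 cl13 cl7 t2 t0 b2_10 :=
  box_mk (TrL.c (I.pos (nat_lit 0) (nat_lit 0)) T2.l0
  (TrL.c (I.pos (nat_lit 0) (nat_lit 0)) T0.l10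
  (TrL.c (I.pos (nat_lit 0) (nat_lit 134217730)) (xR T2.l4 T2.l4)
  (TrL.c (I.pos (nat_lit 0) (nat_lit 110514882)) (xR T0.l3 (xR T0.l3 T0.l11))
  (TrL.c (I.pos (nat_lit 0) (nat_lit 0)) T0.l14
  (TrL.c (I.pos (nat_lit 0) (nat_lit 0)) T2.l12
  (TrL.c (I.mix (nat_lit 8088324) (nat_lit 110514882)) (xR T0.l13 T0.l13)
  (TrL.c (I.mix (nat_lit 8088324) (nat_lit 89478486)) T2.l2
  TrL.n)))))))) (by decide +kernel)
theorem bx2_11 : BoxOK sI cl13 cl13 cl7 t2 t0 b2_11 :=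
  box_mk (TrL.c (I.pos (nat_lit 0) (nat_lit 0)) (xa T2.l17 (xa T2.l17 T2.l18))
  (TrL.c (I.pos (nat_lit 0) (nat_lit 0)) (xa T0.l10 T0.l10)
  (TrL.c (I.pos (nat_lit 0) (nat_lit 134217730)) (xR T2.l4 (xR T2.l11 T2.l11))
  (TrL.c (I.pos (nat_lit 0) (nat_lit 110514882)) (xR T0.l3 (xR T0.l11 T0.l11))
  (TrL.c (I.pos (nat_lit 0) (nat_lit 0)) (xa T0.l17 T0.l17)
  (TrL.c (I.pos (nat_lit 0) (nat_lit 0)) T2.l12
  (TrL.c (I.mix (nat_lit 8088324) (nat_lit 110514882)) T0.l13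
  (TrL.c (I.mix (nat_lit 8088324) (nat_lit 89478486)) T2.l2
  TrL.n)))))))) (by decide +kernel)
theorem bx2_12 : BoxOK sI cl13 cl13 cl7 t2 t0 b2_12 :=
  box_mk (TrL.c (I.pos (nat_lit 0) (nat_lit 0)) (xb (xa T2.l19 T2.l0) (xa T2.l19 T2.l19))
  (TrL.c (I.pos (nat_lit 0) (nat_lit 0)) (xb T0.l10 T0.l10)
  (TrL.c (I.pos (nat_lit 0) (nat_lit 134217730)) (xR T2.l4 T2.l4)
  (TrL.c (I.pos (nat_lit 0) (nat_lit 110514882)) (xR T0.l3 (xR T0.l3 T0.l11))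
  (TrL.c (I.pos (nat_lit 0) (nat_lit 0)) (xk T0.l19 T0.l19)
  (TrL.c (I.pos (nat_lit 0) (nat_lit 0)) T2.l12
  (TrL.c (I.mix (nat_lit 8088324) (nat_lit 110514882)) T0.l13
  (TrL.c (I.mix (nat_lit 8088324) (nat_lit 89478486)) T2.l2
  TrL.n)))))))) (by decide +kernel)
theorem bx2_13 : BoxOK sI cl13 cl13 cl7 t2 t0 b2_13 :=
  box_mk (TrL.c (I.pos (nat_lit 0) (nat_lit 0)) T2.l0
  (TrL.c (I.pos (nat_lit 0) (nat_lit 0)) T0.l10
  (TrL.c (I.pos (nat_lit 0) (nat_lit 134217730)) (xR T2.l4 T2.l4)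
  (TrL.c (I.pos (nat_lit 0) (nat_lit 110514882)) (xR T0.l3 (xR T0.l3 T0.l11))
  (TrL.c (I.pos (nat_lit 0) (nat_lit 0)) (xk T0.l12 T0.l12)
  (TrL.c (I.pos (nat_lit 0) (nat_lit 0)) T2.l12
  (TrL.c (I.mix (nat_lit 8088324) (nat_lit 110514882)) (xR T0.l13 T0.l13)
  (TrL.c (I.mix (nat_lit 8088324) (nat_lit 89478486)) T2.l2
  TrL.n)))))))) (by decide +kernel)
theorem bx2_14 : BoxOK sI cl13 cl13 cl7 t2 t0 b2_14 :=
  box_mk (TrL.c (I.pos (nat_lit 0) (nat_lit 0)) T2.l17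
  (TrL.c (I.pos (nat_lit 0) (nat_lit 0)) T0.l10
  (TrL.c (I.pos (nat_lit 0) (nat_lit 134217730)) (xR T2.l4 T2.l11)
  (TrL.c (I.pos (nat_lit 0) (nat_lit 110514882)) (xR T0.l1 (xR T0.l11 T0.l11))
  (TrL.c (I.pos (nat_lit 0) (nat_lit 0)) T0.l15
  (TrL.c (I.pos (nat_lit 0) (nat_lit 0)) T2.l12
  (TrL.c (I.mix (nat_lit 8088324) (nat_lit 110514882)) T0.l13
  (TrL.c (I.mix (nat_lit 8088324) (nat_lit 89478486)) T2.l2
  TrL.n)))))))) (by decide +kernel)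
theorem bx2_15 : BoxOK sI cl13 cl13 cl7 t2 t0 b2_15 :=
  box_mk (TrL.c (I.pos (nat_lit 0) (nat_lit 0)) (xa T2.l0 T2.l0)
  (TrL.c (I.pos (nat_lit 0) (nat_lit 0)) (xk (xa T0.l10 T0.l2) (xa T0.l10 T0.l10))
  (TrL.c (I.pos (nat_lit 0) (nat_lit 134217730)) (xR T2.l4 T2.l4)
  (TrL.c (I.pos (nat_lit 0) (nat_lit 110514882)) (xR T0.l3 (xR T0.l3 T0.l11))
  (TrL.c (I.pos (nat_lit 0) (nat_lit 0)) (xk (xa T0.l12 (xb (xa T0.l12 T0.l12) T0.l12)) (xa T0.l12 (xb (xa T0.l12 T0.l12) T0.l12)))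
  (TrL.c (I.pos (nat_lit 0) (nat_lit 0)) (xk T2.l12 T2.l12)
  (TrL.c (I.mix (nat_lit 8088324) (nat_lit 110514882)) (xR T0.l13 (xR T0.l13 (xR T0.l13 (xR T0.l13 T0.l13))))
  (TrL.c (I.mix (nat_lit 8088324) (nat_lit 89478486)) T2.l2
  TrL.n)))))))) (by decide +kernel)
theorem bx2_16 : BoxOK sI cl13 cl13 cl7 t2 t0 b2_16 :=
  box_mk (TrL.c (I.pos (nat_lit 0) (nat_lit 0)) (xa (xb (xa T2.l16 (xs T2.l0 T2.l0)) (xa (xs T2.l0 T2.l16) (xs T2.l0 (xb T2.l0 T2.l16)))) (xb (xa (xs T2.l0 T2.l0) (xs T2.l0 T2.l0)) (xa (xs T2.l0 (xk T2.l0 T2.l0)) (xs T2.l0 (xk T2.l0 T2.l0)))))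
  (TrL.c (I.pos (nat_lit 0) (nat_lit 0)) (xk (xa T0.l10 T0.l10) T0.l10)
  (TrL.c (I.pos (nat_lit 0) (nat_lit 134217730)) (xR T2.l4 (xR T2.l4 (xR T2.l11 T2.l4)))
  (TrL.c (I.pos (nat_lit 0) (nat_lit 110514882)) (xR T0.l3 (xR T0.l3 (xR T0.l11 T0.l11)))
  (TrL.c (I.pos (nat_lit 0) (nat_lit 0)) (xk (xa (xb T0.l16 T0.l16) (xb T0.l12 (xb T0.l12 (xs T0.l12 (xk T0.l16 T0.l16))))) (xa (xb T0.l16 T0.l16) (xb T0.l16 (xb T0.l16 (xs (xk T0.l16 T0.l16) T0.l16)))))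
  (TrL.c (I.pos (nat_lit 0) (nat_lit 0)) T2.l12
  (TrL.c (I.mix (nat_lit 8088324) (nat_lit 110514882)) (xR T0.l13 (xR T0.l13 T0.l13))
  (TrL.c (I.mix (nat_lit 8088324) (nat_lit 89478486)) (xR T2.l2 (xR T2.l2 T2.l14))
  TrL.n)))))))) (by decide +kernel)
theorem bx2_17 : BoxOK sI cl13 cl13 cl7 t2 t0 b2_17 :=
  box_mk (TrL.c (I.pos (nat_lit 0) (nat_lit 0)) (xa (xb (xa T2.l0 (xb T2.l0 T2.l0)) (xa (xb T2.l0 (xa T2.l0 T2.l0)) (xb T2.l0 (xs T2.l0 T2.l0)))) (xb (xa (xb T2.l0 T2.l0) (xb T2.l0 T2.l0)) (xa (xb T2.l0 (xs T2.l0 T2.l0)) (xb T2.l0 (xs T2.l0 (xa T2.l0 T2.l0))))))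
  (TrL.c (I.pos (nat_lit 0) (nat_lit 0)) (xa (xk (xb T0.l10 T0.l10) T0.l10) (xk (xb T0.l2 (xa T0.l10 T0.l2)) (xb T0.l10 T0.l10)))
  (TrL.c (I.pos (nat_lit 0) (nat_lit 134217730)) (xR T2.l4 T2.l4)
  (TrL.c (I.pos (nat_lit 0) (nat_lit 110514882)) (xR T0.l3 (xR T0.l3 (xR T0.l11 (xR T0.l11 T0.l11))))
  (TrL.c (I.pos (nat_lit 0) (nat_lit 0)) (xa (xk (xb (xa T0.l12 T0.l12) T0.l12) (xb (xa T0.l12 T0.l12) T0.l12)) (xk (xb (xa T0.l12 (xk T0.l12 T0.l12)) (xa T0.l12 (xk T0.l12 T0.l12))) (xb (xa T0.l12 (xk T0.l12 T0.l12)) (xa T0.l12 (xk T0.l12 T0.l12)))))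
  (TrL.c (I.pos (nat_lit 0) (nat_lit 0)) (xk (xa T2.l12 T2.l12) (xa T2.l12 T2.l12))
  (TrL.c (I.mix (nat_lit 8088324) (nat_lit 110514882)) (xR T0.l13 (xR T0.l13 (xR T0.l13 (xk (xR T0.l13 T0.l13) T0.l13))))
  (TrL.c (I.mix (nat_lit 8088324) (nat_lit 89478486)) (xR T2.l2 (xR T2.l2 (xR T2.l14 T2.l14)))
  TrL.n)))))))) (by decide +kernel)
theorem bx2_18 : BoxOK sI cl13 cl13 cl7 t2 t0 b2_18 :=
  box_mk (TrL.c (I.pos (nat_lit 0) (nat_lit 0)) T2.l0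
  (TrL.c (I.pos (nat_lit 0) (nat_lit 0)) T0.l10
  (TrL.c (I.pos (nat_lit 0) (nat_lit 134217730)) (xR T2.l4 T2.l4)
  (TrL.c (I.pos (nat_lit 0) (nat_lit 110514882)) (xR T0.l3 (xR T0.l3 T0.l11))
  (TrL.c (I.pos (nat_lit 0) (nat_lit 0)) (xk T0.l12 T0.l12)
  (TrL.c (I.pos (nat_lit 0) (nat_lit 0)) T2.l12
  (TrL.c (I.mix (nat_lit 8088324) (nat_lit 110514882)) (xR T0.l13 T0.l13)
  (TrL.c (I.mix (nat_lit 8088324) (nat_lit 89478486)) T2.l2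
  TrL.n)))))))) (by decide +kernel)
theorem bx2_19 : BoxOK sI cl13 cl13 cl7 t2 t0 b2_19 :=
  box_mk (TrL.c (I.pos (nat_lit 0) (nat_lit 0)) (xa T2.l0 T2.l0)
  (TrL.c (I.pos (nat_lit 0) (nat_lit 0)) (xk T0.l10 T0.l10)
  (TrL.c (I.pos (nat_lit 0) (nat_lit 134217730)) (xR T2.l4 T2.l4)
  (TrL.c (I.pos (nat_lit 0) (nat_lit 110514882)) (xR T0.l3 (xR T0.l3 T0.l11))
  (TrL.c (I.pos (nat_lit 0) (nat_lit 0)) (xk T0.l12 T0.l12)
  (TrL.c (I.pos (nat_lit 0) (nat_lit 0)) T2.l12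
  (TrL.c (I.mix (nat_lit 8088324) (nat_lit 110514882)) (xR T0.l13 T0.l13)
  (TrL.c (I.mix (nat_lit 8088324) (nat_lit 89478486)) T2.l2
  TrL.n)))))))) (by decide +kernel)
theorem bx2_20 : BoxOK sI cl13 cl13 cl7 t2 t0 b2_20 :=
  box_mk (TrL.c (I.pos (nat_lit 0) (nat_lit 0)) (xa (xb (xa (xb T2.l16 T2.l16) (xb T2.l16 T2.l16)) (xa T2.l16 (xb T2.l16 T2.l16))) (xb (xa (xb T2.l16 T2.l16) (xb (xs T2.l16 T2.l16) T2.l16)) (xa (xb T2.l16 T2.l16) (xb T2.l16 T2.l16))))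
  (TrL.c (I.pos (nat_lit 0) (nat_lit 0)) (xk (xb T0.l10 T0.l10) T0.l10)
  (TrL.c (I.pos (nat_lit 0) (nat_lit 134217730)) (xR T2.l4 (xR T2.l4 (xR T2.l11 T2.l4)))
  (TrL.c (I.pos (nat_lit 0) (nat_lit 110514882)) (xR T0.l3 (xR T0.l3 (xR T0.l11 T0.l11)))
  (TrL.c (I.pos (nat_lit 0) (nat_lit 0)) (xk (xb T0.l16 T0.l16) (xb T0.l16 T0.l16))
  (TrL.c (I.pos (nat_lit 0) (nat_lit 0)) T2.l12
  (TrL.c (I.mix (nat_lit 8088324) (nat_lit 110514882)) (xR T0.l13 (xR T0.l13 (xR T0.l13 T0.l13)))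
  (TrL.c (I.mix (nat_lit 8088324) (nat_lit 89478486)) (xR T2.l2 (xR T2.l2 (xR T2.l14 T2.l14)))
  TrL.n)))))))) (by decide +kernel)
theorem sv2 : StarV sI cl13 cl13 cl7 t2 t0 t2 :=
  (bt_n (bt_n (bt_n (bt_n (bt_b bx2_0) (bt_b bx2_1)) (bt_n (bt_b bx2_2) (bt_n (bt_b bx2_3) (bt_b bx2_4)))) (bt_n (bt_n (bt_b bx2_5) (bt_b bx2_6)) (bt_n (bt_b bx2_7) (bt_n (bt_b bx2_8) (bt_b bx2_9))))) (bt_n (bt_n (bt_n (bt_b bx2_10) (bt_b bx2_11)) (bt_n (bt_b bx2_12) (bt_n (bt_b bx2_13) (bt_b bx2_14)))) (bt_n (bt_n (bt_b bx2_15) (bt_n (bt_b bx2_16) (bt_b bx2_17))) (bt_n (bt_b bx2_18) (bt_n (bt_b bx2_19) (bt_b bx2_20))))))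
def S2 : StarD := StarD.mk cl13 cl13 cl7 2 0 t2
def G : List StarD := [S0, S1, S2]
theorem so0 : StarOK sI G S0 :=
  star_mk (by decide) (by decide) rfl rfl rfl rfl rfl rfl (rfl : _ = t1) (rfl : _ = t1)
  (st_mk (Pth.l (Pth.l (Pth.l (Pth.l Pth.z)))) (nat_lit 96451629) (nat_lit 115130955) (by decide +kernel))
  (st_mk (Pth.l (Pth.l (Pth.l (Pth.l Pth.z)))) (nat_lit 131882401) (nat_lit 150946874) (by decide +kernel))
  (st_mk (Pth.l (Pth.l (Pth.l (Pth.l Pth.z)))) (nat_lit 172973375) (nat_lit 192594294) (by decide +kernel)) sv0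
theorem so1 : StarOK sI G S1 :=
  star_mk (by decide) (by decide) rfl rfl rfl rfl rfl rfl (rfl : _ = t0) (rfl : _ = t2)
  (st_mk (Pth.l (Pth.l (Pth.l (Pth.l Pth.z)))) (nat_lit 139994720) (nat_lit 162240508) (by decide +kernel))
  (st_mk (Pth.l (Pth.l (Pth.l (Pth.l Pth.z)))) (nat_lit 174891329) (nat_lit 197456476) (by decide +kernel))
  (st_mk (Pth.l (Pth.l (Pth.l (Pth.l Pth.z)))) (nat_lit 215156648) (nat_lit 238170128) (by decide +kernel)) sv1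
theorem so2 : StarOK sI G S2 :=
  star_mk (by decide) (by decide) rfl rfl rfl rfl rfl rfl (rfl : _ = t2) (rfl : _ = t0)
  (st_mk (Pth.l (Pth.l (Pth.l (Pth.l Pth.z)))) (nat_lit 95831458) (nat_lit 114245639) (by decide +kernel))
  (st_mk (Pth.l (Pth.l (Pth.l (Pth.l Pth.z)))) (nat_lit 130728068) (nat_lit 149416709) (by decide +kernel))
  (st_mk (Pth.l (Pth.l (Pth.l (Pth.l Pth.z)))) (nat_lit 170993386) (nat_lit 190091303) (by decide +kernel)) sv2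
theorem ok : GroupOK (nat_lit 209321984) (nat_lit 268435456) G := grp_mk (allS_c so0 (allS_c so1 (allS_c so2 allS_n)))
theorem cov : GCov G cl7 cl13 cl13 := cov_mk
  ⟨0, by decide, rfl, rfl, rfl⟩ ⟨0, by decide, rfl, rfl, rfl⟩ ⟨1, by decide, rfl, rfl, rfl⟩ ⟨2, by decide, rfl, rfl, rfl⟩ ⟨1, by decide, rfl, rfl, rfl⟩ ⟨2, by decide, rfl, rfl, rfl⟩
end Q466_3

namespace Q555_0
def sI : I := I.pos (nat_lit 0) (nat_lit 91291648)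
def b0_0 : Bx := Bx.mk (St.mk (I.pos (nat_lit 157073408) (nat_lit 279379968)) (I.mix (nat_lit 15548416) (nat_lit 60080128)) (I.mix (nat_lit 43286528) (nat_lit 106840064)) (I.pos (nat_lit 109166592) (nat_lit 326483968)) (I.mix (nat_lit 99319808) (nat_lit 73531392)) (I.mix (nat_lit 105807872) (nat_lit 73826304)) (I.mix (nat_lit 159629312) (nat_lit 93585408)))
  false (nat_lit 43590425)
def b0_1 : Bx := Bx.mk (St.mk (I.pos (nat_lit 119259136) (nat_lit 179814400)) (I.neg (nat_lit 2998272) (nat_lit 56999936)) (I.mix (nat_lit 54870016) (nat_lit 458752)) (I.pos (nat_lit 85475328) (nat_lit 156516352)) (I.mix (nat_lit 63913984) (nat_lit 39272448)) (I.mix (nat_lit 38387712) (nat_lit 65093632)) (I.mix (nat_lit 31686656) (nat_lit 66535424)))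
  false (nat_lit 0)
def b0_2 : Bx := Bx.mk (St.mk (I.mix (nat_lit 15712256) (nat_lit 131743744)) (I.mix (nat_lit 5013504) (nat_lit 27754496)) (I.mix (nat_lit 8814592) (nat_lit 23560192)) (I.pos (nat_lit 15269888) (nat_lit 98877440)) (I.mix (nat_lit 27869184) (nat_lit 23379968)) (I.mix (nat_lit 32309248) (nat_lit 18219008)) (I.mix (nat_lit 25886720) (nat_lit 13729792)))
  false (nat_lit 0)
def b0_3 : Bx := Bx.mk (St.mk (I.mix (nat_lit 14483456) (nat_lit 102678528)) (I.mix (nat_lit 28819456) (nat_lit 3112960)) (I.mix (nat_lit 19644416) (nat_lit 3866624)) (I.pos (nat_lit 16089088) (nat_lit 74743808)) (I.mix (nat_lit 25427968) (nat_lit 19611648)) (I.mix (nat_lit 16711680) (nat_lit 27557888)) (I.mix (nat_lit 10321920) (nat_lit 17481728)))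
  false (nat_lit 0)
def b0_4 : Bx := Bx.mk (St.mk (I.pos (nat_lit 156909568) (nat_lit 221921280)) (I.mix (nat_lit 39960576) (nat_lit 64028672)) (I.mix (nat_lit 37814272) (nat_lit 104841216)) (I.pos (nat_lit 116244480) (nat_lit 215334912)) (I.mix (nat_lit 130646016) (nat_lit 57098240)) (I.mix (nat_lit 158728192) (nat_lit 80265216)) (I.mix (nat_lit 189300736) (nat_lit 88014848)))
  false (nat_lit 0)
def b0_5 : Bx := Bx.mk (St.mk (I.pos (nat_lit 109887488) (nat_lit 156139520)) (I.mix (nat_lit 55001088) (nat_lit 6144000)) (I.mix (nat_lit 55771136) (nat_lit 5226496)) (I.pos (nat_lit 65044480) (nat_lit 124256256)) (I.mix (nat_lit 78004224) (nat_lit 27967488)) (I.mix (nat_lit 43073536) (nat_lit 84000768)) (I.mix (nat_lit 34177024) (nat_lit 70811648)))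
  false (nat_lit 0)
def b0_6 : Bx := Bx.mk (St.mk (I.mix (nat_lit 22806528) (nat_lit 123322368)) (I.mix (nat_lit 11943936) (nat_lit 32915456)) (I.mix (nat_lit 8617984) (nat_lit 27197440)) (I.pos (nat_lit 15826944) (nat_lit 90505216)) (I.mix (nat_lit 41828352) (nat_lit 21872640)) (I.mix (nat_lit 47497216) (nat_lit 26394624)) (I.mix (nat_lit 31850496) (nat_lit 16678912)))
  false (nat_lit 0)
def b0_7 : Bx := Bx.mk (St.mk (I.mix (nat_lit 18546688) (nat_lit 92012544)) (I.mix (nat_lit 25722880) (nat_lit 3080192)) (I.mix (nat_lit 16875520) (nat_lit 2244608)) (I.pos (nat_lit 16580608) (nat_lit 66830336)) (I.mix (nat_lit 27426816) (nat_lit 13058048)) (I.mix (nat_lit 16596992) (nat_lit 29556736)) (I.mix (nat_lit 9027584) (nat_lit 15728640)))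
  false (nat_lit 0)
def t0 : BTr := (BTr.n (BTr.n (BTr.n (BTr.b b0_0) (BTr.b b0_1)) (BTr.n (BTr.b b0_2) (BTr.b b0_3))) (BTr.n (BTr.n (BTr.b b0_4) (BTr.b b0_5)) (BTr.n (BTr.b b0_6) (BTr.b b0_7))))
namespace T0
def l0 : Tr := Tr.L (Pth.l (Pth.l (Pth.l Pth.z)))
def l1 : Tr := Tr.L (Pth.l (Pth.l (Pth.r Pth.z)))
def l2 : Tr := Tr.L (Pth.l (Pth.r (Pth.l Pth.z)))
def l3 : Tr := Tr.L (Pth.l (Pth.r (Pth.r Pth.z)))
def l4 : Tr := Tr.L (Pth.r (Pth.l (Pth.l Pth.z)))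
def l5 : Tr := Tr.L (Pth.r (Pth.l (Pth.r Pth.z)))
def l6 : Tr := Tr.L (Pth.r (Pth.r (Pth.l Pth.z)))
def l7 : Tr := Tr.L (Pth.r (Pth.r (Pth.r Pth.z)))
end T0
theorem bx0_0 : BoxOK sI cl9 cl9 cl9 t0 t0 b0_0 :=
  box_mk (TrL.c (I.pos (nat_lit 0) (nat_lit 0)) (xa T0.l0 T0.l0)
  (TrL.c (I.pos (nat_lit 0) (nat_lit 0)) (xa T0.l1 T0.l1)
  (TrL.c (I.pos (nat_lit 0) (nat_lit 124588530)) (xR T0.l2 T0.l6)
  (TrL.c (I.pos (nat_lit 0) (nat_lit 96881482)) (xR T0.l3 T0.l3)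
  (TrL.c (I.pos (nat_lit 0) (nat_lit 0)) (xa T0.l4 (xk (xa T0.l4 (xb T0.l4 T0.l4)) (xa T0.l4 (xb T0.l4 (xs T0.l4 T0.l4)))))
  (TrL.c (I.pos (nat_lit 0) (nat_lit 0)) T0.l5
  (TrL.c (I.mix (nat_lit 17240550) (nat_lit 96881482)) (xR T0.l6 (xR T0.l6 T0.l6))
  (TrL.c (I.mix (nat_lit 17240550) (nat_lit 71940500)) (xR T0.l7 T0.l7)
  TrL.n)))))))) (by decide +kernel)
theorem bx0_1 : BoxOK sI cl9 cl9 cl9 t0 t0 b0_1 :=
  box_mk (TrL.c (I.pos (nat_lit 0) (nat_lit 0)) T0.l0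
  (TrL.c (I.pos (nat_lit 0) (nat_lit 0)) T0.l1
  (TrL.c (I.pos (nat_lit 0) (nat_lit 124588530)) (xR T0.l2 T0.l2)
  (TrL.c (I.pos (nat_lit 0) (nat_lit 96881482)) (xR T0.l3 T0.l3)
  (TrL.c (I.pos (nat_lit 0) (nat_lit 0)) T0.l4
  (TrL.c (I.pos (nat_lit 0) (nat_lit 0)) T0.l5
  (TrL.c (I.mix (nat_lit 17240550) (nat_lit 96881482)) T0.l6
  (TrL.c (I.mix (nat_lit 17240550) (nat_lit 71940500)) T0.l7
  TrL.n)))))))) (by decide +kernel)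
theorem bx0_2 : BoxOK sI cl9 cl9 cl9 t0 t0 b0_2 :=
  box_mk (TrL.c (I.pos (nat_lit 0) (nat_lit 0)) T0.l0
  (TrL.c (I.pos (nat_lit 0) (nat_lit 0)) T0.l1
  (TrL.c (I.pos (nat_lit 0) (nat_lit 124588530)) T0.l2
  (TrL.c (I.pos (nat_lit 0) (nat_lit 96881482)) (xR T0.l3 T0.l3)
  (TrL.c (I.pos (nat_lit 0) (nat_lit 0)) T0.l4
  (TrL.c (I.pos (nat_lit 0) (nat_lit 0)) T0.l5
  (TrL.c (I.mix (nat_lit 17240550) (nat_lit 96881482)) T0.l6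
  (TrL.c (I.mix (nat_lit 17240550) (nat_lit 71940500)) T0.l6
  TrL.n)))))))) (by decide +kernel)
theorem bx0_3 : BoxOK sI cl9 cl9 cl9 t0 t0 b0_3 :=
  box_mk (TrL.c (I.pos (nat_lit 0) (nat_lit 0)) (xa T0.l0 T0.l0)
  (TrL.c (I.pos (nat_lit 0) (nat_lit 0)) T0.l1
  (TrL.c (I.pos (nat_lit 0) (nat_lit 124588530)) T0.l2
  (TrL.c (I.pos (nat_lit 0) (nat_lit 96881482)) (xR T0.l3 T0.l3)
  (TrL.c (I.pos (nat_lit 0) (nat_lit 0)) T0.l4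
  (TrL.c (I.pos (nat_lit 0) (nat_lit 0)) T0.l5
  (TrL.c (I.mix (nat_lit 17240550) (nat_lit 96881482)) T0.l6
  (TrL.c (I.mix (nat_lit 17240550) (nat_lit 71940500)) T0.l6
  TrL.n)))))))) (by decide +kernel)
theorem bx0_4 : BoxOK sI cl9 cl9 cl9 t0 t0 b0_4 :=
  box_mk (TrL.c (I.pos (nat_lit 0) (nat_lit 0)) (xb T0.l0 T0.l0)
  (TrL.c (I.pos (nat_lit 0) (nat_lit 0)) T0.l1
  (TrL.c (I.pos (nat_lit 0) (nat_lit 124588530)) (xR T0.l2 (xR T0.l2 T0.l2))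
  (TrL.c (I.pos (nat_lit 0) (nat_lit 96881482)) (xR T0.l3 T0.l3)
  (TrL.c (I.pos (nat_lit 0) (nat_lit 0)) (xb (xa T0.l4 T0.l4) (xs T0.l4 (xb T0.l4 (xa T0.l4 (xk (xs T0.l4 T0.l4) (xs T0.l4 (xb T0.l4 (xa T0.l4 T0.l4))))))))
  (TrL.c (I.pos (nat_lit 0) (nat_lit 0)) T0.l5
  (TrL.c (I.mix (nat_lit 17240550) (nat_lit 96881482)) (xR T0.l6 T0.l6)
  (TrL.c (I.mix (nat_lit 17240550) (nat_lit 71940500)) (xR T0.l7 T0.l7)
  TrL.n)))))))) (by decide +kernel)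
theorem bx0_5 : BoxOK sI cl9 cl9 cl9 t0 t0 b0_5 :=
  box_mk (TrL.c (I.pos (nat_lit 0) (nat_lit 0)) T0.l0
  (TrL.c (I.pos (nat_lit 0) (nat_lit 0)) T0.l1
  (TrL.c (I.pos (nat_lit 0) (nat_lit 124588530)) (xR T0.l2 T0.l2)
  (TrL.c (I.pos (nat_lit 0) (nat_lit 96881482)) T0.l3
  (TrL.c (I.pos (nat_lit 0) (nat_lit 0)) T0.l4
  (TrL.c (I.pos (nat_lit 0) (nat_lit 0)) T0.l5
  (TrL.c (I.mix (nat_lit 17240550) (nat_lit 96881482)) T0.l6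
  (TrL.c (I.mix (nat_lit 17240550) (nat_lit 71940500)) T0.l7
  TrL.n)))))))) (by decide +kernel)
theorem bx0_6 : BoxOK sI cl9 cl9 cl9 t0 t0 b0_6 :=
  box_mk (TrL.c (I.pos (nat_lit 0) (nat_lit 0)) T0.l0
  (TrL.c (I.pos (nat_lit 0) (nat_lit 0)) T0.l1
  (TrL.c (I.pos (nat_lit 0) (nat_lit 124588530)) T0.l2
  (TrL.c (I.pos (nat_lit 0) (nat_lit 96881482)) (xR T0.l3 T0.l3)
  (TrL.c (I.pos (nat_lit 0) (nat_lit 0)) T0.l4
  (TrL.c (I.pos (nat_lit 0) (nat_lit 0)) T0.l5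
  (TrL.c (I.mix (nat_lit 17240550) (nat_lit 96881482)) T0.l6
  (TrL.c (I.mix (nat_lit 17240550) (nat_lit 71940500)) T0.l6
  TrL.n)))))))) (by decide +kernel)
theorem bx0_7 : BoxOK sI cl9 cl9 cl9 t0 t0 b0_7 :=
  box_mk (TrL.c (I.pos (nat_lit 0) (nat_lit 0)) (xa T0.l0 T0.l0)
  (TrL.c (I.pos (nat_lit 0) (nat_lit 0)) T0.l1
  (TrL.c (I.pos (nat_lit 0) (nat_lit 124588530)) T0.l2
  (TrL.c (I.pos (nat_lit 0) (nat_lit 96881482)) (xR T0.l3 T0.l3)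
  (TrL.c (I.pos (nat_lit 0) (nat_lit 0)) T0.l4
  (TrL.c (I.pos (nat_lit 0) (nat_lit 0)) T0.l5
  (TrL.c (I.mix (nat_lit 17240550) (nat_lit 96881482)) T0.l6
  (TrL.c (I.mix (nat_lit 17240550) (nat_lit 71940500)) T0.l6
  TrL.n)))))))) (by decide +kernel)
theorem sv0 : StarV sI cl9 cl9 cl9 t0 t0 t0 :=
  (bt_n (bt_n (bt_n (bt_b bx0_0) (bt_b bx0_1)) (bt_n (bt_b bx0_2) (bt_b bx0_3))) (bt_n (bt_n (bt_b bx0_4) (bt_b bx0_5)) (bt_n (bt_b bx0_6) (bt_b bx0_7))))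
def S0 : StarD := StarD.mk cl9 cl9 cl9 0 0 t0
def G : List StarD := [S0]
theorem so0 : StarOK sI G S0 :=
  star_mk (by decide) (by decide) rfl rfl rfl rfl rfl rfl (rfl : _ = t0) (rfl : _ = t0)
  (st_mk (Pth.l (Pth.l (Pth.l Pth.z))) (nat_lit 115307330) (nat_lit 133716434) (by decide +kernel))
  (st_mk (Pth.l (Pth.l (Pth.l Pth.z))) (nat_lit 150355037) (nat_lit 169025934) (by decide +kernel))
  (st_mk (Pth.l (Pth.l (Pth.l Pth.z))) (nat_lit 190844247) (nat_lit 209889969) (by decide +kernel)) sv0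
theorem ok : GroupOK (nat_lit 0) (nat_lit 91291648) G := grp_mk (allS_c so0 allS_n)
theorem cov : GCov G cl9 cl9 cl9 := cov_mk
  ⟨0, by decide, rfl, rfl, rfl⟩ ⟨0, by decide, rfl, rfl, rfl⟩ ⟨0, by decide, rfl, rfl, rfl⟩ ⟨0, by decide, rfl, rfl, rfl⟩ ⟨0, by decide, rfl, rfl, rfl⟩ ⟨0, by decide, rfl, rfl, rfl⟩
end Q555_0

namespace Q555_1
def sI : I := I.pos (nat_lit 91226112) (nat_lit 150339584)
def b0_0 : Bx := Bx.mk (St.mk (I.pos (nat_lit 153370624) (nat_lit 287260672)) (I.mix (nat_lit 16924672) (nat_lit 49971200)) (I.mix (nat_lit 45760512) (nat_lit 91242496)) (I.pos (nat_lit 102531072) (nat_lit 342556672)) (I.mix (nat_lit 90800128) (nat_lit 65585152)) (I.mix (nat_lit 87982080) (nat_lit 58523648)) (I.mix (nat_lit 136986624) (nat_lit 79560704)))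
  false (nat_lit 34523526)
def b0_1 : Bx := Bx.mk (St.mk (I.pos (nat_lit 102154240) (nat_lit 180682752)) (I.mix (nat_lit 66158592) (nat_lit 5668864)) (I.mix (nat_lit 65978368) (nat_lit 573440)) (I.pos (nat_lit 80412672) (nat_lit 158089216)) (I.mix (nat_lit 87834624) (nat_lit 44498944)) (I.mix (nat_lit 42041344) (nat_lit 69369856)) (I.mix (nat_lit 33701888) (nat_lit 68501504)))
  false (nat_lit 0)
def b0_2 : Bx := Bx.mk (St.mk (I.mix (nat_lit 16138240) (nat_lit 136691712)) (I.mix (nat_lit 5292032) (nat_lit 28819456)) (I.mix (nat_lit 9076736) (nat_lit 24379392)) (I.pos (nat_lit 13533184) (nat_lit 102088704)) (I.mix (nat_lit 32882688) (nat_lit 25034752)) (I.mix (nat_lit 31752192) (nat_lit 16400384)) (I.mix (nat_lit 24821760) (nat_lit 12500992)))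
  false (nat_lit 0)
def b0_3 : Bx := Bx.mk (St.mk (I.mix (nat_lit 17924096) (nat_lit 106741760)) (I.mix (nat_lit 28016640) (nat_lit 3670016)) (I.mix (nat_lit 19038208) (nat_lit 4046848)) (I.pos (nat_lit 14745600) (nat_lit 77316096)) (I.mix (nat_lit 28426240) (nat_lit 19988480)) (I.mix (nat_lit 15024128) (nat_lit 25608192)) (I.mix (nat_lit 9207808) (nat_lit 15826944)))
  false (nat_lit 0)
def b0_4 : Bx := Bx.mk (St.mk (I.pos (nat_lit 153632768) (nat_lit 219971584)) (I.mix (nat_lit 40828928) (nat_lit 56770560)) (I.mix (nat_lit 39714816) (nat_lit 95453184)) (I.pos (nat_lit 115212288) (nat_lit 214958080)) (I.mix (nat_lit 124764160) (nat_lit 68059136)) (I.mix (nat_lit 131727360) (nat_lit 71892992)) (I.mix (nat_lit 155369472) (nat_lit 74956800)))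
  false (nat_lit 0)
def b0_5 : Bx := Bx.mk (St.mk (I.pos (nat_lit 108052480) (nat_lit 159383552)) (I.mix (nat_lit 58064896) (nat_lit 7045120)) (I.mix (nat_lit 59031552) (nat_lit 6242304)) (I.pos (nat_lit 63078400) (nat_lit 128385024)) (I.mix (nat_lit 89554944) (nat_lit 36405248)) (I.mix (nat_lit 41238528) (nat_lit 85311488)) (I.mix (nat_lit 31096832) (nat_lit 69844992)))
  false (nat_lit 0)
def b0_6 : Bx := Bx.mk (St.mk (I.mix (nat_lit 27328512) (nat_lit 126484480)) (I.mix (nat_lit 12238848) (nat_lit 34275328)) (I.mix (nat_lit 8994816) (nat_lit 28033024)) (I.pos (nat_lit 13697024) (nat_lit 93880320)) (I.mix (nat_lit 47431680) (nat_lit 26476544)) (I.mix (nat_lit 43335680) (nat_lit 25395200)) (I.mix (nat_lit 28393472) (nat_lit 15548416)))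
  false (nat_lit 0)
def b0_7 : Bx := Bx.mk (St.mk (I.mix (nat_lit 21610496) (nat_lit 95059968)) (I.mix (nat_lit 26247168) (nat_lit 311296)) (I.mix (nat_lit 17235968) (nat_lit 2818048)) (I.pos (nat_lit 15335424) (nat_lit 68239360)) (I.mix (nat_lit 30556160) (nat_lit 16891904)) (I.mix (nat_lit 15695872) (nat_lit 27967488)) (I.mix (nat_lit 8404992) (nat_lit 14696448)))
  false (nat_lit 0)
def t0 : BTr := (BTr.n (BTr.n (BTr.n (BTr.b b0_0) (BTr.b b0_1)) (BTr.n (BTr.b b0_2) (BTr.b b0_3))) (BTr.n (BTr.n (BTr.b b0_4) (BTr.b b0_5)) (BTr.n (BTr.b b0_6) (BTr.b b0_7))))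
namespace T0
def l0 : Tr := Tr.L (Pth.l (Pth.l (Pth.l Pth.z)))
def l1 : Tr := Tr.L (Pth.l (Pth.l (Pth.r Pth.z)))
def l2 : Tr := Tr.L (Pth.l (Pth.r (Pth.l Pth.z)))
def l3 : Tr := Tr.L (Pth.l (Pth.r (Pth.r Pth.z)))
def l4 : Tr := Tr.L (Pth.r (Pth.l (Pth.l Pth.z)))
def l5 : Tr := Tr.L (Pth.r (Pth.l (Pth.r Pth.z)))
def l6 : Tr := Tr.L (Pth.r (Pth.r (Pth.l Pth.z)))
def l7 : Tr := Tr.L (Pth.r (Pth.r (Pth.r Pth.z)))
end T0
theorem bx0_0 : BoxOK sI cl9 cl9 cl9 t0 t0 b0_0 :=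
  box_mk (TrL.c (I.pos (nat_lit 0) (nat_lit 0)) (xa (xa (xb T0.l0 (xa T0.l0 T0.l0)) (xb T0.l0 (xa T0.l0 T0.l0))) (xa (xb T0.l0 T0.l0) (xb T0.l0 T0.l0)))
  (TrL.c (I.pos (nat_lit 0) (nat_lit 0)) T0.l1
  (TrL.c (I.pos (nat_lit 0) (nat_lit 124588530)) (xR T0.l6 T0.l6)
  (TrL.c (I.pos (nat_lit 0) (nat_lit 96881482)) (xR T0.l3 (xR T0.l3 T0.l3))
  (TrL.c (I.pos (nat_lit 0) (nat_lit 0)) (xa (xa T0.l4 T0.l4) (xa (xb (xk T0.l4 T0.l4) (xk T0.l4 T0.l4)) (xk (xb (xa T0.l4 (xb T0.l4 T0.l4)) (xa T0.l4 (xk T0.l4 (xb T0.l4 T0.l4)))) (xb (xa T0.l4 T0.l4) (xa T0.l4 (xk (xb T0.l4 (xs T0.l4 T0.l4)) (xb T0.l4 (xs T0.l4 (xb T0.l4 T0.l4)))))))))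
  (TrL.c (I.pos (nat_lit 0) (nat_lit 0)) T0.l5
  (TrL.c (I.mix (nat_lit 17240550) (nat_lit 96881482)) (xR T0.l6 (xR T0.l6 T0.l6))
  (TrL.c (I.mix (nat_lit 17240550) (nat_lit 71940500)) (xR T0.l7 T0.l7)
  TrL.n)))))))) (by decide +kernel)
theorem bx0_1 : BoxOK sI cl9 cl9 cl9 t0 t0 b0_1 :=
  box_mk (TrL.c (I.pos (nat_lit 0) (nat_lit 0)) T0.l0
  (TrL.c (I.pos (nat_lit 0) (nat_lit 0)) T0.l1
  (TrL.c (I.pos (nat_lit 0) (nat_lit 124588530)) (xR T0.l2 T0.l2)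
  (TrL.c (I.pos (nat_lit 0) (nat_lit 96881482)) (xR T0.l3 T0.l3)
  (TrL.c (I.pos (nat_lit 0) (nat_lit 0)) T0.l4
  (TrL.c (I.pos (nat_lit 0) (nat_lit 0)) T0.l5
  (TrL.c (I.mix (nat_lit 17240550) (nat_lit 96881482)) T0.l6
  (TrL.c (I.mix (nat_lit 17240550) (nat_lit 71940500)) T0.l7
  TrL.n)))))))) (by decide +kernel)
theorem bx0_2 : BoxOK sI cl9 cl9 cl9 t0 t0 b0_2 :=
  box_mk (TrL.c (I.pos (nat_lit 0) (nat_lit 0)) (xa T0.l0 T0.l0)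
  (TrL.c (I.pos (nat_lit 0) (nat_lit 0)) T0.l1
  (TrL.c (I.pos (nat_lit 0) (nat_lit 124588530)) T0.l2
  (TrL.c (I.pos (nat_lit 0) (nat_lit 96881482)) T0.l3
  (TrL.c (I.pos (nat_lit 0) (nat_lit 0)) T0.l4
  (TrL.c (I.pos (nat_lit 0) (nat_lit 0)) T0.l5
  (TrL.c (I.mix (nat_lit 17240550) (nat_lit 96881482)) T0.l6
  (TrL.c (I.mix (nat_lit 17240550) (nat_lit 71940500)) T0.l6
  TrL.n)))))))) (by decide +kernel)
theorem bx0_3 : BoxOK sI cl9 cl9 cl9 t0 t0 b0_3 :=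
  box_mk (TrL.c (I.pos (nat_lit 0) (nat_lit 0)) (xa T0.l0 T0.l0)
  (TrL.c (I.pos (nat_lit 0) (nat_lit 0)) T0.l1
  (TrL.c (I.pos (nat_lit 0) (nat_lit 124588530)) T0.l2
  (TrL.c (I.pos (nat_lit 0) (nat_lit 96881482)) (xR T0.l3 T0.l3)
  (TrL.c (I.pos (nat_lit 0) (nat_lit 0)) T0.l4
  (TrL.c (I.pos (nat_lit 0) (nat_lit 0)) T0.l5
  (TrL.c (I.mix (nat_lit 17240550) (nat_lit 96881482)) T0.l6
  (TrL.c (I.mix (nat_lit 17240550) (nat_lit 71940500)) T0.l6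
  TrL.n)))))))) (by decide +kernel)
theorem bx0_4 : BoxOK sI cl9 cl9 cl9 t0 t0 b0_4 :=
  box_mk (TrL.c (I.pos (nat_lit 0) (nat_lit 0)) (xb (xa (xb (xa T0.l0 T0.l0) T0.l0) (xb (xa (xb T0.l0 T0.l0) (xb T0.l0 T0.l0)) T0.l0)) (xa (xa (xb T0.l0 T0.l0) T0.l0) (xa T0.l0 T0.l0)))
  (TrL.c (I.pos (nat_lit 0) (nat_lit 0)) T0.l1
  (TrL.c (I.pos (nat_lit 0) (nat_lit 124588530)) (xR T0.l2 (xR T0.l2 T0.l6))
  (TrL.c (I.pos (nat_lit 0) (nat_lit 96881482)) (xR T0.l3 (xR T0.l3 T0.l3))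
  (TrL.c (I.pos (nat_lit 0) (nat_lit 0)) (xb (xa T0.l4 (xk T0.l4 T0.l4)) (xa (xb T0.l4 T0.l4) (xk (xb T0.l4 (xs T0.l4 (xb T0.l4 (xa T0.l4 (xk T0.l4 T0.l4))))) (xb T0.l4 (xs (xb T0.l4 T0.l4) (xb T0.l4 (xa T0.l4 (xk T0.l4 (xs T0.l4 T0.l4)))))))))
  (TrL.c (I.pos (nat_lit 0) (nat_lit 0)) T0.l5
  (TrL.c (I.mix (nat_lit 17240550) (nat_lit 96881482)) (xR T0.l6 (xR T0.l6 T0.l6))
  (TrL.c (I.mix (nat_lit 17240550) (nat_lit 71940500)) (xR T0.l7 T0.l7)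
  TrL.n)))))))) (by decide +kernel)
theorem bx0_5 : BoxOK sI cl9 cl9 cl9 t0 t0 b0_5 :=
  box_mk (TrL.c (I.pos (nat_lit 0) (nat_lit 0)) T0.l0
  (TrL.c (I.pos (nat_lit 0) (nat_lit 0)) T0.l1
  (TrL.c (I.pos (nat_lit 0) (nat_lit 124588530)) (xR T0.l2 T0.l2)
  (TrL.c (I.pos (nat_lit 0) (nat_lit 96881482)) T0.l3
  (TrL.c (I.pos (nat_lit 0) (nat_lit 0)) T0.l4
  (TrL.c (I.pos (nat_lit 0) (nat_lit 0)) T0.l5
  (TrL.c (I.mix (nat_lit 17240550) (nat_lit 96881482)) T0.l6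
  (TrL.c (I.mix (nat_lit 17240550) (nat_lit 71940500)) T0.l7
  TrL.n)))))))) (by decide +kernel)
theorem bx0_6 : BoxOK sI cl9 cl9 cl9 t0 t0 b0_6 :=
  box_mk (TrL.c (I.pos (nat_lit 0) (nat_lit 0)) (xa T0.l0 T0.l0)
  (TrL.c (I.pos (nat_lit 0) (nat_lit 0)) T0.l1
  (TrL.c (I.pos (nat_lit 0) (nat_lit 124588530)) T0.l2
  (TrL.c (I.pos (nat_lit 0) (nat_lit 96881482)) (xR T0.l3 T0.l3)
  (TrL.c (I.pos (nat_lit 0) (nat_lit 0)) (xa T0.l4 T0.l4)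
  (TrL.c (I.pos (nat_lit 0) (nat_lit 0)) T0.l5
  (TrL.c (I.mix (nat_lit 17240550) (nat_lit 96881482)) T0.l6
  (TrL.c (I.mix (nat_lit 17240550) (nat_lit 71940500)) T0.l6
  TrL.n)))))))) (by decide +kernel)
theorem bx0_7 : BoxOK sI cl9 cl9 cl9 t0 t0 b0_7 :=
  box_mk (TrL.c (I.pos (nat_lit 0) (nat_lit 0)) (xa (xa T0.l0 T0.l0) T0.l0)
  (TrL.c (I.pos (nat_lit 0) (nat_lit 0)) T0.l1
  (TrL.c (I.pos (nat_lit 0) (nat_lit 124588530)) T0.l2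
  (TrL.c (I.pos (nat_lit 0) (nat_lit 96881482)) (xR T0.l3 T0.l3)
  (TrL.c (I.pos (nat_lit 0) (nat_lit 0)) T0.l4
  (TrL.c (I.pos (nat_lit 0) (nat_lit 0)) T0.l5
  (TrL.c (I.mix (nat_lit 17240550) (nat_lit 96881482)) T0.l6
  (TrL.c (I.mix (nat_lit 17240550) (nat_lit 71940500)) T0.l6
  TrL.n)))))))) (by decide +kernel)
theorem sv0 : StarV sI cl9 cl9 cl9 t0 t0 t0 :=
  (bt_n (bt_n (bt_n (bt_b bx0_0) (bt_b bx0_1)) (bt_n (bt_b bx0_2) (bt_b bx0_3))) (bt_n (bt_n (bt_b bx0_4) (bt_b bx0_5)) (bt_n (bt_b bx0_6) (bt_b bx0_7))))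
def S0 : StarD := StarD.mk cl9 cl9 cl9 0 0 t0
def G : List StarD := [S0]
theorem so0 : StarOK sI G S0 :=
  star_mk (by decide) (by decide) rfl rfl rfl rfl rfl rfl (rfl : _ = t0) (rfl : _ = t0)
  (st_mk (Pth.l (Pth.l (Pth.l Pth.z))) (nat_lit 115381609) (nat_lit 133830405) (by decide +kernel))
  (st_mk (Pth.l (Pth.l (Pth.l Pth.z))) (nat_lit 150481118) (nat_lit 169209097) (by decide +kernel))
  (st_mk (Pth.l (Pth.l (Pth.l Pth.z))) (nat_lit 191047274) (nat_lit 210173995) (by decide +kernel)) sv0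
theorem ok : GroupOK (nat_lit 91226112) (nat_lit 150339584) G := grp_mk (allS_c so0 allS_n)
theorem cov : GCov G cl9 cl9 cl9 := cov_mk
  ⟨0, by decide, rfl, rfl, rfl⟩ ⟨0, by decide, rfl, rfl, rfl⟩ ⟨0, by decide, rfl, rfl, rfl⟩ ⟨0, by decide, rfl, rfl, rfl⟩ ⟨0, by decide, rfl, rfl, rfl⟩ ⟨0, by decide, rfl, rfl, rfl⟩
end Q555_1

namespace Q555_2
def sI : I := I.pos (nat_lit 150274048) (nat_lit 209387520)
def b0_0 : Bx := Bx.mk (St.mk (I.pos (nat_lit 160514048) (nat_lit 236945408)) (I.mix (nat_lit 278528) (nat_lit 51150848)) (I.mix (nat_lit 278528) (nat_lit 91176960)) (I.pos (nat_lit 115408896) (nat_lit 238059520)) (I.mix (nat_lit 103956480) (nat_lit 58605568)) (I.mix (nat_lit 73285632) (nat_lit 56115200)) (I.mix (nat_lit 98713600) (nat_lit 71008256)))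
  false (nat_lit 34522189)
def b0_1 : Bx := Bx.mk (St.mk (I.pos (nat_lit 101761024) (nat_lit 181518336)) (I.neg (nat_lit 327680) (nat_lit 57589760)) (I.mix (nat_lit 55574528) (nat_lit 3178496)) (I.pos (nat_lit 77676544) (nat_lit 159334400)) (I.mix (nat_lit 85868544) (nat_lit 41893888)) (I.mix (nat_lit 39878656) (nat_lit 58966016)) (I.mix (nat_lit 31309824) (nat_lit 55607296)))
  false (nat_lit 0)
def b0_2 : Bx := Bx.mk (St.mk (I.mix (nat_lit 18497536) (nat_lit 130433024)) (I.mix (nat_lit 6733824) (nat_lit 27820032)) (I.mix (nat_lit 10240000) (nat_lit 23625728)) (I.pos (nat_lit 16498688) (nat_lit 98795520)) (I.mix (nat_lit 34242560) (nat_lit 28114944)) (I.mix (nat_lit 29196288) (nat_lit 19939328)) (I.mix (nat_lit 23314432) (nat_lit 15220736)))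
  false (nat_lit 0)
def b0_3 : Bx := Bx.mk (St.mk (I.mix (nat_lit 31375360) (nat_lit 101646336)) (I.mix (nat_lit 30539776) (nat_lit 5881856)) (I.mix (nat_lit 21413888) (nat_lit 5390336)) (I.pos (nat_lit 14843904) (nat_lit 74432512)) (I.mix (nat_lit 36077568) (nat_lit 26345472)) (I.mix (nat_lit 19021824) (nat_lit 27344896)) (I.mix (nat_lit 11812864) (nat_lit 17154048)))
  false (nat_lit 0)
def b0_4 : Bx := Bx.mk (St.mk (I.pos (nat_lit 171196416) (nat_lit 218251264)) (I.mix (nat_lit 12943360) (nat_lit 50757632)) (I.pos (nat_lit 3244032) (nat_lit 86720512)) (I.pos (nat_lit 130564096) (nat_lit 210583552)) (I.mix (nat_lit 115326976) (nat_lit 41975808)) (I.mix (nat_lit 106184704) (nat_lit 54984704)) (I.mix (nat_lit 122273792) (nat_lit 54312960)))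
  false (nat_lit 3390624)
def b0_5 : Bx := Bx.mk (St.mk (I.pos (nat_lit 106430464) (nat_lit 156024832)) (I.mix (nat_lit 55541760) (nat_lit 7536640)) (I.mix (nat_lit 56852480) (nat_lit 6127616)) (I.pos (nat_lit 64110592) (nat_lit 125485056)) (I.mix (nat_lit 90112000) (nat_lit 30998528)) (I.mix (nat_lit 35880960) (nat_lit 75464704)) (I.mix (nat_lit 24969216) (nat_lit 61030400)))
  false (nat_lit 0)
def b0_6 : Bx := Bx.mk (St.mk (I.mix (nat_lit 24100864) (nat_lit 123240448)) (I.mix (nat_lit 12976128) (nat_lit 36274176)) (I.mix (nat_lit 9207808) (nat_lit 29278208)) (I.pos (nat_lit 17924096) (nat_lit 91586560)) (I.mix (nat_lit 51757056) (nat_lit 24707072)) (I.mix (nat_lit 41058304) (nat_lit 24166400)) (I.mix (nat_lit 26820608) (nat_lit 14958592)))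
  false (nat_lit 0)
def b0_7 : Bx := Bx.mk (St.mk (I.mix (nat_lit 15335424) (nat_lit 88735744)) (I.neg (nat_lit 851968) (nat_lit 26902528)) (I.mix (nat_lit 18006016) (nat_lit 1818624)) (I.pos (nat_lit 17973248) (nat_lit 66093056)) (I.mix (nat_lit 23789568) (nat_lit 4931584)) (I.mix (nat_lit 6324224) (nat_lit 13615104)) (I.mix (nat_lit 3555328) (nat_lit 7045120)))
  false (nat_lit 0)
def b0_8 : Bx := Bx.mk (St.mk (I.pos (nat_lit 191512576) (nat_lit 284016640)) (I.mix (nat_lit 22855680) (nat_lit 41091072)) (I.mix (nat_lit 56639488) (nat_lit 74940416)) (I.pos (nat_lit 181911552) (nat_lit 336150528)) (I.mix (nat_lit 77529088) (nat_lit 51970048)) (I.mix (nat_lit 57671680) (nat_lit 38141952)) (I.mix (nat_lit 89440256) (nat_lit 60751872)))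
  false (nat_lit 27633629)
def b0_9 : Bx := Bx.mk (St.mk (I.pos (nat_lit 153124864) (nat_lit 216416256)) (I.mix (nat_lit 39141376) (nat_lit 21266432)) (I.mix (nat_lit 37453824) (nat_lit 45563904)) (I.pos (nat_lit 113573888) (nat_lit 203767808)) (I.mix (nat_lit 58818560) (nat_lit 56786944)) (I.mix (nat_lit 62996480) (nat_lit 54968320)) (I.mix (nat_lit 64503808) (nat_lit 57933824)))
  false (nat_lit 0)
def b0_10 : Bx := Bx.mk (St.mk (I.pos (nat_lit 181665792) (nat_lit 237240320)) (I.pos (nat_lit 9322496) (nat_lit 50937856)) (I.pos (nat_lit 21348352) (nat_lit 92094464)) (I.pos (nat_lit 171196416) (nat_lit 236617728)) (I.mix (nat_lit 94519296) (nat_lit 66420736)) (I.mix (nat_lit 77463552) (nat_lit 56672256)) (I.mix (nat_lit 119586816) (nat_lit 69533696)))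
  false (nat_lit 13676744)
def b0_11 : Bx := Bx.mk (St.mk (I.pos (nat_lit 171278336) (nat_lit 218742784)) (I.mix (nat_lit 15892480) (nat_lit 33734656)) (I.mix (nat_lit 786432) (nat_lit 64176128)) (I.pos (nat_lit 134955008) (nat_lit 205897728)) (I.mix (nat_lit 102694912) (nat_lit 62193664)) (I.mix (nat_lit 108478464) (nat_lit 61456384)) (I.mix (nat_lit 121094144) (nat_lit 62734336)))
  false (nat_lit 0)
def t0 : BTr := (BTr.n (BTr.n (BTr.n (BTr.b b0_0) (BTr.n (BTr.b b0_1) (BTr.b b0_2))) (BTr.n (BTr.b b0_3) (BTr.n (BTr.b b0_4) (BTr.b b0_5)))) (BTr.n (BTr.n (BTr.b b0_6) (BTr.n (BTr.b b0_7) (BTr.b b0_8))) (BTr.n (BTr.b b0_9) (BTr.n (BTr.b b0_10) (BTr.b b0_11)))))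
namespace T0
def l0 : Tr := Tr.L (Pth.l (Pth.l (Pth.l Pth.z)))
def l1 : Tr := Tr.L (Pth.l (Pth.l (Pth.r (Pth.l Pth.z))))
def l2 : Tr := Tr.L (Pth.l (Pth.l (Pth.r (Pth.r Pth.z))))
def l3 : Tr := Tr.L (Pth.l (Pth.r (Pth.l Pth.z)))
def l4 : Tr := Tr.L (Pth.l (Pth.r (Pth.r (Pth.l Pth.z))))
def l5 : Tr := Tr.L (Pth.l (Pth.r (Pth.r (Pth.r Pth.z))))
def l6 : Tr := Tr.L (Pth.r (Pth.l (Pth.l Pth.z)))
def l7 : Tr := Tr.L (Pth.r (Pth.l (Pth.r (Pth.l Pth.z))))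
def l8 : Tr := Tr.L (Pth.r (Pth.l (Pth.r (Pth.r Pth.z))))
def l9 : Tr := Tr.L (Pth.r (Pth.r (Pth.l Pth.z)))
def l10 : Tr := Tr.L (Pth.r (Pth.r (Pth.r (Pth.l Pth.z))))
def l11 : Tr := Tr.L (Pth.r (Pth.r (Pth.r (Pth.r Pth.z))))
end T0
theorem bx0_0 : BoxOK sI cl9 cl9 cl9 t0 t0 b0_0 :=
  box_mk (TrL.c (I.pos (nat_lit 0) (nat_lit 0)) (xa (xb T0.l0 (xa T0.l0 T0.l0)) (xb T0.l0 (xa T0.l0 T0.l0)))
  (TrL.c (I.pos (nat_lit 0) (nat_lit 0)) T0.l1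
  (TrL.c (I.pos (nat_lit 0) (nat_lit 124588530)) (xR T0.l2 T0.l2)
  (TrL.c (I.pos (nat_lit 0) (nat_lit 96881482)) T0.l3
  (TrL.c (I.pos (nat_lit 0) (nat_lit 0)) (xa (xk T0.l4 T0.l4) (xk (xb T0.l4 T0.l4) (xb T0.l4 T0.l4)))
  (TrL.c (I.pos (nat_lit 0) (nat_lit 0)) T0.l5
  (TrL.c (I.mix (nat_lit 17240550) (nat_lit 96881482)) (xR T0.l6 T0.l6)
  (TrL.c (I.mix (nat_lit 17240550) (nat_lit 71940500)) T0.l3
  TrL.n)))))))) (by decide +kernel)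
theorem bx0_1 : BoxOK sI cl9 cl9 cl9 t0 t0 b0_1 :=
  box_mk (TrL.c (I.pos (nat_lit 0) (nat_lit 0)) (xa T0.l8 T0.l8)
  (TrL.c (I.pos (nat_lit 0) (nat_lit 0)) T0.l1
  (TrL.c (I.pos (nat_lit 0) (nat_lit 124588530)) (xR T0.l2 T0.l2)
  (TrL.c (I.pos (nat_lit 0) (nat_lit 96881482)) T0.l3
  (TrL.c (I.pos (nat_lit 0) (nat_lit 0)) (xa T0.l9 (xb T0.l9 T0.l9))
  (TrL.c (I.pos (nat_lit 0) (nat_lit 0)) T0.l5
  (TrL.c (I.mix (nat_lit 17240550) (nat_lit 96881482)) (xR T0.l6 T0.l6)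
  (TrL.c (I.mix (nat_lit 17240550) (nat_lit 71940500)) T0.l3
  TrL.n)))))))) (by decide +kernel)
theorem bx0_2 : BoxOK sI cl9 cl9 cl9 t0 t0 b0_2 :=
  box_mk (TrL.c (I.pos (nat_lit 0) (nat_lit 0)) (xa T0.l8 (xa T0.l8 T0.l8))
  (TrL.c (I.pos (nat_lit 0) (nat_lit 0)) T0.l1
  (TrL.c (I.pos (nat_lit 0) (nat_lit 124588530)) T0.l2
  (TrL.c (I.pos (nat_lit 0) (nat_lit 96881482)) T0.l3
  (TrL.c (I.pos (nat_lit 0) (nat_lit 0)) (xa T0.l9 T0.l9)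
  (TrL.c (I.pos (nat_lit 0) (nat_lit 0)) T0.l5
  (TrL.c (I.mix (nat_lit 17240550) (nat_lit 96881482)) T0.l6
  (TrL.c (I.mix (nat_lit 17240550) (nat_lit 71940500)) T0.l3
  TrL.n)))))))) (by decide +kernel)
theorem bx0_3 : BoxOK sI cl9 cl9 cl9 t0 t0 b0_3 :=
  box_mk (TrL.c (I.pos (nat_lit 0) (nat_lit 0)) (xa (xa (xb T0.l8 T0.l8) T0.l8) T0.l8)
  (TrL.c (I.pos (nat_lit 0) (nat_lit 0)) T0.l1
  (TrL.c (I.pos (nat_lit 0) (nat_lit 124588530)) T0.l2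
  (TrL.c (I.pos (nat_lit 0) (nat_lit 96881482)) T0.l3
  (TrL.c (I.pos (nat_lit 0) (nat_lit 0)) (xa T0.l9 T0.l9)
  (TrL.c (I.pos (nat_lit 0) (nat_lit 0)) T0.l5
  (TrL.c (I.mix (nat_lit 17240550) (nat_lit 96881482)) T0.l6
  (TrL.c (I.mix (nat_lit 17240550) (nat_lit 71940500)) T0.l3
  TrL.n)))))))) (by decide +kernel)
theorem bx0_4 : BoxOK sI cl9 cl9 cl9 t0 t0 b0_4 :=
  box_mk (TrL.c (I.pos (nat_lit 0) (nat_lit 0)) (xb (xa T0.l10 T0.l10) (xa T0.l10 T0.l10))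
  (TrL.c (I.pos (nat_lit 0) (nat_lit 0)) T0.l1
  (TrL.c (I.pos (nat_lit 0) (nat_lit 124588530)) (xR T0.l2 T0.l2)
  (TrL.c (I.pos (nat_lit 0) (nat_lit 96881482)) T0.l3
  (TrL.c (I.pos (nat_lit 0) (nat_lit 0)) (xb (xk T0.l11 T0.l11) (xk (xb T0.l11 (xa T0.l11 T0.l11)) (xb T0.l4 (xa T0.l11 (xs T0.l11 T0.l11)))))
  (TrL.c (I.pos (nat_lit 0) (nat_lit 0)) T0.l5
  (TrL.c (I.mix (nat_lit 17240550) (nat_lit 96881482)) (xR T0.l6 T0.l6)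
  (TrL.c (I.mix (nat_lit 17240550) (nat_lit 71940500)) T0.l3
  TrL.n)))))))) (by decide +kernel)
theorem bx0_5 : BoxOK sI cl9 cl9 cl9 t0 t0 b0_5 :=
  box_mk (TrL.c (I.pos (nat_lit 0) (nat_lit 0)) (xb T0.l8 T0.l8)
  (TrL.c (I.pos (nat_lit 0) (nat_lit 0)) T0.l1
  (TrL.c (I.pos (nat_lit 0) (nat_lit 124588530)) (xR T0.l2 T0.l2)
  (TrL.c (I.pos (nat_lit 0) (nat_lit 96881482)) T0.l3
  (TrL.c (I.pos (nat_lit 0) (nat_lit 0)) (xb T0.l9 T0.l9)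
  (TrL.c (I.pos (nat_lit 0) (nat_lit 0)) T0.l5
  (TrL.c (I.mix (nat_lit 17240550) (nat_lit 96881482)) T0.l6
  (TrL.c (I.mix (nat_lit 17240550) (nat_lit 71940500)) T0.l3
  TrL.n)))))))) (by decide +kernel)
theorem bx0_6 : BoxOK sI cl9 cl9 cl9 t0 t0 b0_6 :=
  box_mk (TrL.c (I.pos (nat_lit 0) (nat_lit 0)) (xa (xa (xb T0.l8 (xa T0.l8 T0.l8)) T0.l8) (xa T0.l8 T0.l8))
  (TrL.c (I.pos (nat_lit 0) (nat_lit 0)) (xa T0.l1 T0.l1)
  (TrL.c (I.pos (nat_lit 0) (nat_lit 124588530)) (xR T0.l2 T0.l2)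
  (TrL.c (I.pos (nat_lit 0) (nat_lit 96881482)) T0.l3
  (TrL.c (I.pos (nat_lit 0) (nat_lit 0)) (xa T0.l9 T0.l9)
  (TrL.c (I.pos (nat_lit 0) (nat_lit 0)) T0.l5
  (TrL.c (I.mix (nat_lit 17240550) (nat_lit 96881482)) T0.l6
  (TrL.c (I.mix (nat_lit 17240550) (nat_lit 71940500)) T0.l3
  TrL.n)))))))) (by decide +kernel)
theorem bx0_7 : BoxOK sI cl9 cl9 cl9 t0 t0 b0_7 :=
  box_mk (TrL.c (I.pos (nat_lit 0) (nat_lit 0)) T0.l8
  (TrL.c (I.pos (nat_lit 0) (nat_lit 0)) T0.l1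
  (TrL.c (I.pos (nat_lit 0) (nat_lit 124588530)) T0.l2
  (TrL.c (I.pos (nat_lit 0) (nat_lit 96881482)) T0.l3
  (TrL.c (I.pos (nat_lit 0) (nat_lit 0)) T0.l9
  (TrL.c (I.pos (nat_lit 0) (nat_lit 0)) T0.l5
  (TrL.c (I.mix (nat_lit 17240550) (nat_lit 96881482)) T0.l6
  (TrL.c (I.mix (nat_lit 17240550) (nat_lit 71940500)) T0.l3
  TrL.n)))))))) (by decide +kernel)
theorem bx0_8 : BoxOK sI cl9 cl9 cl9 t0 t0 b0_8 :=
  box_mk (TrL.c (I.pos (nat_lit 0) (nat_lit 0)) (xa (xb T0.l0 (xa T0.l0 T0.l0)) (xb T0.l0 (xa T0.l0 T0.l0)))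
  (TrL.c (I.pos (nat_lit 0) (nat_lit 0)) T0.l1
  (TrL.c (I.pos (nat_lit 0) (nat_lit 124588530)) (xR T0.l2 T0.l6)
  (TrL.c (I.pos (nat_lit 0) (nat_lit 96881482)) T0.l3
  (TrL.c (I.pos (nat_lit 0) (nat_lit 0)) (xa (xb (xk (xa T0.l4 T0.l4) (xa T0.l4 T0.l4)) (xk T0.l4 T0.l4)) (xb (xk (xa (xb T0.l4 T0.l4) (xb (xk T0.l4 T0.l4) (xk T0.l4 T0.l4))) (xa (xb T0.l4 T0.l4) (xb (xk T0.l4 T0.l4) T0.l4))) (xk (xa T0.l4 (xb (xk T0.l4 T0.l4) (xk T0.l4 T0.l4))) (xa T0.l4 (xb (xk T0.l4 T0.l4) (xk T0.l4 T0.l4))))))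
  (TrL.c (I.pos (nat_lit 0) (nat_lit 0)) T0.l5
  (TrL.c (I.mix (nat_lit 17240550) (nat_lit 96881482)) (xR T0.l6 T0.l6)
  (TrL.c (I.mix (nat_lit 17240550) (nat_lit 71940500)) T0.l3
  TrL.n)))))))) (by decide +kernel)
theorem bx0_9 : BoxOK sI cl9 cl9 cl9 t0 t0 b0_9 :=
  box_mk (TrL.c (I.pos (nat_lit 0) (nat_lit 0)) (xa (xb T0.l0 T0.l10) T0.l10)
  (TrL.c (I.pos (nat_lit 0) (nat_lit 0)) T0.l1
  (TrL.c (I.pos (nat_lit 0) (nat_lit 124588530)) (xR T0.l2 T0.l2)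
  (TrL.c (I.pos (nat_lit 0) (nat_lit 96881482)) T0.l3
  (TrL.c (I.pos (nat_lit 0) (nat_lit 0)) (xk (xb T0.l11 T0.l11) (xb T0.l11 T0.l11))
  (TrL.c (I.pos (nat_lit 0) (nat_lit 0)) T0.l5
  (TrL.c (I.mix (nat_lit 17240550) (nat_lit 96881482)) (xR T0.l6 T0.l6)
  (TrL.c (I.mix (nat_lit 17240550) (nat_lit 71940500)) T0.l3
  TrL.n)))))))) (by decide +kernel)
theorem bx0_10 : BoxOK sI cl9 cl9 cl9 t0 t0 b0_10 :=
  box_mk (TrL.c (I.pos (nat_lit 0) (nat_lit 0)) (xa (xb T0.l0 T0.l0) T0.l0)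
  (TrL.c (I.pos (nat_lit 0) (nat_lit 0)) T0.l1
  (TrL.c (I.pos (nat_lit 0) (nat_lit 124588530)) (xR T0.l2 T0.l2)
  (TrL.c (I.pos (nat_lit 0) (nat_lit 96881482)) T0.l3
  (TrL.c (I.pos (nat_lit 0) (nat_lit 0)) (xk (xa T0.l4 (xb T0.l4 T0.l4)) (xa T0.l4 (xb T0.l4 (xb T0.l11 (xs T0.l4 T0.l11)))))
  (TrL.c (I.pos (nat_lit 0) (nat_lit 0)) T0.l5
  (TrL.c (I.mix (nat_lit 17240550) (nat_lit 96881482)) (xR T0.l6 T0.l6)
  (TrL.c (I.mix (nat_lit 17240550) (nat_lit 71940500)) T0.l3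
  TrL.n)))))))) (by decide +kernel)
theorem bx0_11 : BoxOK sI cl9 cl9 cl9 t0 t0 b0_11 :=
  box_mk (TrL.c (I.pos (nat_lit 0) (nat_lit 0)) (xa T0.l10 T0.l10)
  (TrL.c (I.pos (nat_lit 0) (nat_lit 0)) T0.l1
  (TrL.c (I.pos (nat_lit 0) (nat_lit 124588530)) (xR T0.l2 T0.l2)
  (TrL.c (I.pos (nat_lit 0) (nat_lit 96881482)) T0.l3
  (TrL.c (I.pos (nat_lit 0) (nat_lit 0)) (xk (xb T0.l11 T0.l11) T0.l11)
  (TrL.c (I.pos (nat_lit 0) (nat_lit 0)) T0.l5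
  (TrL.c (I.mix (nat_lit 17240550) (nat_lit 96881482)) (xR T0.l6 T0.l6)
  (TrL.c (I.mix (nat_lit 17240550) (nat_lit 71940500)) T0.l3
  TrL.n)))))))) (by decide +kernel)
theorem sv0 : StarV sI cl9 cl9 cl9 t0 t0 t0 :=
  (bt_n (bt_n (bt_n (bt_b bx0_0) (bt_n (bt_b bx0_1) (bt_b bx0_2))) (bt_n (bt_b bx0_3) (bt_n (bt_b bx0_4) (bt_b bx0_5)))) (bt_n (bt_n (bt_b bx0_6) (bt_n (bt_b bx0_7) (bt_b bx0_8))) (bt_n (bt_b bx0_9) (bt_n (bt_b bx0_10) (bt_b bx0_11)))))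
def S0 : StarD := StarD.mk cl9 cl9 cl9 0 0 t0
def G : List StarD := [S0]
theorem so0 : StarOK sI G S0 :=
  star_mk (by decide) (by decide) rfl rfl rfl rfl rfl rfl (rfl : _ = t0) (rfl : _ = t0)
  (st_mk (Pth.l (Pth.l (Pth.l Pth.z))) (nat_lit 115429789) (nat_lit 133944769) (by decide +kernel))
  (st_mk (Pth.l (Pth.l (Pth.l Pth.z))) (nat_lit 150562951) (nat_lit 169393063) (by decide +kernel))
  (st_mk (Pth.l (Pth.l (Pth.l Pth.z))) (nat_lit 191179148) (nat_lit 210459578) (by decide +kernel)) sv0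
theorem ok : GroupOK (nat_lit 150274048) (nat_lit 209387520) G := grp_mk (allS_c so0 allS_n)
theorem cov : GCov G cl9 cl9 cl9 := cov_mk
  ⟨0, by decide, rfl, rfl, rfl⟩ ⟨0, by decide, rfl, rfl, rfl⟩ ⟨0, by decide, rfl, rfl, rfl⟩ ⟨0, by decide, rfl, rfl, rfl⟩ ⟨0, by decide, rfl, rfl, rfl⟩ ⟨0, by decide, rfl, rfl, rfl⟩
end Q555_2

namespace Q555_3
def sI : I := I.pos (nat_lit 209321984) (nat_lit 268435456)
def b0_0 : Bx := Bx.mk (St.mk (I.pos (nat_lit 153665536) (nat_lit 236470272)) (I.mix (nat_lit 4341760) (nat_lit 47071232)) (I.mix (nat_lit 7651328) (nat_lit 84328448)) (I.pos (nat_lit 103956480) (nat_lit 242548736)) (I.mix (nat_lit 101269504) (nat_lit 56475648)) (I.mix (nat_lit 65732608) (nat_lit 53952512)) (I.mix (nat_lit 86261760) (nat_lit 67780608)))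
  false (nat_lit 44503048)
def b0_1 : Bx := Bx.mk (St.mk (I.pos (nat_lit 103759872) (nat_lit 184238080)) (I.neg (nat_lit 3670016) (nat_lit 52002816)) (I.mix (nat_lit 50937856) (nat_lit 2097152)) (I.pos (nat_lit 75530240) (nat_lit 159318016)) (I.mix (nat_lit 74498048) (nat_lit 46039040)) (I.mix (nat_lit 37502976) (nat_lit 55459840)) (I.mix (nat_lit 29704192) (nat_lit 53886976)))
  false (nat_lit 0)
def b0_2 : Bx := Bx.mk (St.mk (I.mix (nat_lit 22085632) (nat_lit 142901248)) (I.mix (nat_lit 7372800) (nat_lit 25755648)) (I.mix (nat_lit 11108352) (nat_lit 21774336)) (I.pos (nat_lit 10108928) (nat_lit 105873408)) (I.mix (nat_lit 35995648) (nat_lit 30474240)) (I.mix (nat_lit 28770304) (nat_lit 18989056)) (I.mix (nat_lit 22478848) (nat_lit 13942784)))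
  false (nat_lit 0)
def b0_3 : Bx := Bx.mk (St.mk (I.mix (nat_lit 22577152) (nat_lit 111886336)) (I.mix (nat_lit 26836992) (nat_lit 3997696)) (I.mix (nat_lit 17743872) (nat_lit 4849664)) (I.pos (nat_lit 12124160) (nat_lit 79478784)) (I.mix (nat_lit 32587776) (nat_lit 23838720)) (I.mix (nat_lit 15106048) (nat_lit 23478272)) (I.mix (nat_lit 8945664) (nat_lit 14483456)))
  false (nat_lit 0)
def b0_4 : Bx := Bx.mk (St.mk (I.pos (nat_lit 169115648) (nat_lit 215433216)) (I.mix (nat_lit 10797056) (nat_lit 48726016)) (I.pos (nat_lit 2883584) (nat_lit 84295680)) (I.pos (nat_lit 132202496) (nat_lit 208551936)) (I.mix (nat_lit 125665280) (nat_lit 50429952)) (I.mix (nat_lit 103104512) (nat_lit 56786944)) (I.mix (nat_lit 115802112) (nat_lit 52543488)))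
  false (nat_lit 12128296)
def b0_5 : Bx := Bx.mk (St.mk (I.pos (nat_lit 103579648) (nat_lit 151846912)) (I.mix (nat_lit 50479104) (nat_lit 9895936)) (I.mix (nat_lit 49741824) (nat_lit 8732672)) (I.pos (nat_lit 59981824) (nat_lit 118652928)) (I.mix (nat_lit 88031232) (nat_lit 37961728)) (I.mix (nat_lit 31047680) (nat_lit 67108864)) (I.mix (nat_lit 24444928) (nat_lit 55214080)))
  false (nat_lit 0)
def b0_6 : Bx := Bx.mk (St.mk (I.mix (nat_lit 33095680) (nat_lit 132710400)) (I.mix (nat_lit 14958592) (nat_lit 33210368)) (I.mix (nat_lit 11124736) (nat_lit 27459584)) (I.pos (nat_lit 10928128) (nat_lit 95617024)) (I.mix (nat_lit 53460992) (nat_lit 25001984)) (I.mix (nat_lit 40402944) (nat_lit 22626304)) (I.mix (nat_lit 25903104) (nat_lit 13336576)))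
  false (nat_lit 0)
def b0_7 : Bx := Bx.mk (St.mk (I.mix (nat_lit 30572544) (nat_lit 99155968)) (I.mix (nat_lit 26886144) (nat_lit 4292608)) (I.mix (nat_lit 18104320) (nat_lit 3538944)) (I.pos (nat_lit 13254656) (nat_lit 70467584)) (I.mix (nat_lit 34029568) (nat_lit 15695872)) (I.mix (nat_lit 13729792) (nat_lit 26345472)) (I.mix (nat_lit 7471104) (nat_lit 13582336)))
  false (nat_lit 0)
def b0_8 : Bx := Bx.mk (St.mk (I.pos (nat_lit 202031104) (nat_lit 287440896)) (I.mix (nat_lit 20414464) (nat_lit 38223872)) (I.mix (nat_lit 52150272) (nat_lit 70336512)) (I.pos (nat_lit 183615488) (nat_lit 344735744)) (I.mix (nat_lit 71794688) (nat_lit 54607872)) (I.mix (nat_lit 51429376) (nat_lit 35815424)) (I.mix (nat_lit 90669056) (nat_lit 59080704)))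
  false (nat_lit 51018241)
def b0_9 : Bx := Bx.mk (St.mk (I.pos (nat_lit 152190976) (nat_lit 214695936)) (I.mix (nat_lit 37109760) (nat_lit 15581184)) (I.mix (nat_lit 35930112) (nat_lit 37601280)) (I.pos (nat_lit 111017984) (nat_lit 199802880)) (I.mix (nat_lit 57589760) (nat_lit 56311808)) (I.mix (nat_lit 52363264) (nat_lit 51331072)) (I.mix (nat_lit 52264960) (nat_lit 53608448)))
  false (nat_lit 16476823)
def b0_10 : Bx := Bx.mk (St.mk (I.pos (nat_lit 184025088) (nat_lit 233242624)) (I.pos (nat_lit 11567104) (nat_lit 47316992)) (I.pos (nat_lit 24100864) (nat_lit 84770816)) (I.pos (nat_lit 173850624) (nat_lit 233390080)) (I.mix (nat_lit 93323264) (nat_lit 70139904)) (I.mix (nat_lit 73220096) (nat_lit 56573952)) (I.mix (nat_lit 109002752) (nat_lit 68599808)))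
  false (nat_lit 26143505)
def b0_11 : Bx := Bx.mk (St.mk (I.pos (nat_lit 173080576) (nat_lit 213483520)) (I.mix (nat_lit 14368768) (nat_lit 27738112)) (I.mix (nat_lit 212992) (nat_lit 56213504)) (I.pos (nat_lit 135184384) (nat_lit 202407936)) (I.mix (nat_lit 101072896) (nat_lit 54624256)) (I.mix (nat_lit 98385920) (nat_lit 54837248)) (I.mix (nat_lit 110903296) (nat_lit 57163776)))
  false (nat_lit 0)
def t0 : BTr := (BTr.n (BTr.n (BTr.n (BTr.b b0_0) (BTr.n (BTr.b b0_1) (BTr.b b0_2))) (BTr.n (BTr.b b0_3) (BTr.n (BTr.b b0_4) (BTr.b b0_5)))) (BTr.n (BTr.n (BTr.b b0_6) (BTr.n (BTr.b b0_7) (BTr.b b0_8))) (BTr.n (BTr.b b0_9) (BTr.n (BTr.b b0_10) (BTr.b b0_11)))))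
namespace T0
def l0 : Tr := Tr.L (Pth.l (Pth.l (Pth.l Pth.z)))
def l1 : Tr := Tr.L (Pth.l (Pth.l (Pth.r (Pth.l Pth.z))))
def l2 : Tr := Tr.L (Pth.l (Pth.l (Pth.r (Pth.r Pth.z))))
def l3 : Tr := Tr.L (Pth.l (Pth.r (Pth.l Pth.z)))
def l4 : Tr := Tr.L (Pth.l (Pth.r (Pth.r (Pth.l Pth.z))))
def l5 : Tr := Tr.L (Pth.l (Pth.r (Pth.r (Pth.r Pth.z))))
def l6 : Tr := Tr.L (Pth.r (Pth.l (Pth.l Pth.z)))
def l7 : Tr := Tr.L (Pth.r (Pth.l (Pth.r (Pth.l Pth.z))))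
def l8 : Tr := Tr.L (Pth.r (Pth.l (Pth.r (Pth.r Pth.z))))
def l9 : Tr := Tr.L (Pth.r (Pth.r (Pth.l Pth.z)))
def l10 : Tr := Tr.L (Pth.r (Pth.r (Pth.r (Pth.l Pth.z))))
def l11 : Tr := Tr.L (Pth.r (Pth.r (Pth.r (Pth.r Pth.z))))
end T0
theorem bx0_0 : BoxOK sI cl9 cl9 cl9 t0 t0 b0_0 :=
  box_mk (TrL.c (I.pos (nat_lit 0) (nat_lit 0)) (xa (xb (xa (xb T0.l0 T0.l0) T0.l10) (xa (xb (xa T0.l0 T0.l0) (xa (xs T0.l0 T0.l0) T0.l0)) (xb T0.l0 (xa T0.l0 T0.l0)))) (xb (xa T0.l0 T0.l0) (xa (xb T0.l0 (xa T0.l0 T0.l0)) (xb T0.l0 (xa T0.l0 T0.l0)))))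
  (TrL.c (I.pos (nat_lit 0) (nat_lit 0)) (xa T0.l1 (xk T0.l1 T0.l1))
  (TrL.c (I.pos (nat_lit 0) (nat_lit 124588530)) (xR T0.l2 (xR T0.l2 T0.l2))
  (TrL.c (I.pos (nat_lit 0) (nat_lit 96881482)) (xR T0.l3 (xR T0.l3 T0.l3))
  (TrL.c (I.pos (nat_lit 0) (nat_lit 0)) (xa (xk T0.l4 (xb T0.l4 T0.l4)) (xk (xb (xa T0.l4 T0.l4) (xa T0.l4 T0.l4)) (xb (xa T0.l4 T0.l4) (xa T0.l4 (xb T0.l4 T0.l4)))))
  (TrL.c (I.pos (nat_lit 0) (nat_lit 0)) T0.l5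
  (TrL.c (I.mix (nat_lit 17240550) (nat_lit 96881482)) (xR T0.l6 T0.l6)
  (TrL.c (I.mix (nat_lit 17240550) (nat_lit 71940500)) (xR T0.l7 T0.l7)
  TrL.n)))))))) (by decide +kernel)
theorem bx0_1 : BoxOK sI cl9 cl9 cl9 t0 t0 b0_1 :=
  box_mk (TrL.c (I.pos (nat_lit 0) (nat_lit 0)) (xa (xb T0.l8 T0.l8) (xb T0.l0 (xa T0.l8 T0.l0)))
  (TrL.c (I.pos (nat_lit 0) (nat_lit 0)) T0.l1
  (TrL.c (I.pos (nat_lit 0) (nat_lit 124588530)) T0.l6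
  (TrL.c (I.pos (nat_lit 0) (nat_lit 96881482)) T0.l3
  (TrL.c (I.pos (nat_lit 0) (nat_lit 0)) (xa (xb (xk T0.l9 T0.l9) T0.l9) (xk (xb T0.l9 T0.l11) (xb T0.l9 T0.l9)))
  (TrL.c (I.pos (nat_lit 0) (nat_lit 0)) T0.l5
  (TrL.c (I.mix (nat_lit 17240550) (nat_lit 96881482)) (xR T0.l6 T0.l6)
  (TrL.c (I.mix (nat_lit 17240550) (nat_lit 71940500)) T0.l3
  TrL.n)))))))) (by decide +kernel)
theorem bx0_2 : BoxOK sI cl9 cl9 cl9 t0 t0 b0_2 :=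
  box_mk (TrL.c (I.pos (nat_lit 0) (nat_lit 0)) (xa (xa T0.l8 T0.l8) (xa T0.l8 (xa T0.l8 T0.l8)))
  (TrL.c (I.pos (nat_lit 0) (nat_lit 0)) (xa T0.l1 T0.l1)
  (TrL.c (I.pos (nat_lit 0) (nat_lit 124588530)) T0.l2
  (TrL.c (I.pos (nat_lit 0) (nat_lit 96881482)) (xR T0.l3 T0.l3)
  (TrL.c (I.pos (nat_lit 0) (nat_lit 0)) (xa T0.l9 T0.l9)
  (TrL.c (I.pos (nat_lit 0) (nat_lit 0)) T0.l5
  (TrL.c (I.mix (nat_lit 17240550) (nat_lit 96881482)) T0.l6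
  (TrL.c (I.mix (nat_lit 17240550) (nat_lit 71940500)) T0.l7
  TrL.n)))))))) (by decide +kernel)
theorem bx0_3 : BoxOK sI cl9 cl9 cl9 t0 t0 b0_3 :=
  box_mk (TrL.c (I.pos (nat_lit 0) (nat_lit 0)) (xa T0.l8 T0.l8)
  (TrL.c (I.pos (nat_lit 0) (nat_lit 0)) (xa T0.l1 T0.l1)
  (TrL.c (I.pos (nat_lit 0) (nat_lit 124588530)) T0.l2
  (TrL.c (I.pos (nat_lit 0) (nat_lit 96881482)) (xR T0.l3 T0.l3)
  (TrL.c (I.pos (nat_lit 0) (nat_lit 0)) (xa T0.l9 T0.l9)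
  (TrL.c (I.pos (nat_lit 0) (nat_lit 0)) T0.l5
  (TrL.c (I.mix (nat_lit 17240550) (nat_lit 96881482)) T0.l6
  (TrL.c (I.mix (nat_lit 17240550) (nat_lit 71940500)) T0.l7
  TrL.n)))))))) (by decide +kernel)
theorem bx0_4 : BoxOK sI cl9 cl9 cl9 t0 t0 b0_4 :=
  box_mk (TrL.c (I.pos (nat_lit 0) (nat_lit 0)) (xb (xa (xb T0.l10 T0.l10) (xb T0.l10 T0.l10)) (xa (xb (xa T0.l10 T0.l10) (xa (xs T0.l10 T0.l10) T0.l10)) (xb (xa T0.l10 T0.l10) (xa T0.l10 T0.l10))))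
  (TrL.c (I.pos (nat_lit 0) (nat_lit 0)) (xk T0.l1 T0.l1)
  (TrL.c (I.pos (nat_lit 0) (nat_lit 124588530)) (xR T0.l2 (xR T0.l2 T0.l2))
  (TrL.c (I.pos (nat_lit 0) (nat_lit 96881482)) (xR T0.l3 (xR T0.l3 T0.l3))
  (TrL.c (I.pos (nat_lit 0) (nat_lit 0)) (xb (xk (xa T0.l11 (xb T0.l11 T0.l11)) (xa T0.l11 (xb T0.l11 T0.l11))) (xk (xa (xb T0.l11 (xb T0.l11 (xs T0.l11 T0.l4))) (xb T0.l11 (xs (xk T0.l11 T0.l11) (xb T0.l11 (xk (xa T0.l11 T0.l11) (xa T0.l11 (xd T0.l11 T0.l11))))))) (xa (xb T0.l4 (xb T0.l4 (xs T0.l4 (xk T0.l4 T0.l4)))) (xb T0.l11 (xs (xb T0.l11 T0.l11) (xb T0.l11 (xk T0.l11 (xa T0.l11 T0.l11))))))))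
  (TrL.c (I.pos (nat_lit 0) (nat_lit 0)) T0.l5
  (TrL.c (I.mix (nat_lit 17240550) (nat_lit 96881482)) (xR T0.l6 (xR T0.l6 T0.l6))
  (TrL.c (I.mix (nat_lit 17240550) (nat_lit 71940500)) (xR T0.l7 T0.l7)
  TrL.n)))))))) (by decide +kernel)
theorem bx0_5 : BoxOK sI cl9 cl9 cl9 t0 t0 b0_5 :=
  box_mk (TrL.c (I.pos (nat_lit 0) (nat_lit 0)) (xb (xa T0.l8 T0.l8) (xa (xb T0.l8 T0.l8) T0.l8))
  (TrL.c (I.pos (nat_lit 0) (nat_lit 0)) T0.l1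
  (TrL.c (I.pos (nat_lit 0) (nat_lit 124588530)) T0.l6
  (TrL.c (I.pos (nat_lit 0) (nat_lit 96881482)) T0.l3
  (TrL.c (I.pos (nat_lit 0) (nat_lit 0)) (xb (xk T0.l9 T0.l9) (xk T0.l9 T0.l9))
  (TrL.c (I.pos (nat_lit 0) (nat_lit 0)) T0.l5
  (TrL.c (I.mix (nat_lit 17240550) (nat_lit 96881482)) T0.l6
  (TrL.c (I.mix (nat_lit 17240550) (nat_lit 71940500)) T0.l7
  TrL.n)))))))) (by decide +kernel)
theorem bx0_6 : BoxOK sI cl9 cl9 cl9 t0 t0 b0_6 :=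
  box_mk (TrL.c (I.pos (nat_lit 0) (nat_lit 0)) (xa (xa (xb T0.l8 (xa (xb T0.l8 (xa T0.l8 T0.l8)) (xb T0.l8 T0.l8))) (xb T0.l8 (xa T0.l8 T0.l8))) (xa T0.l8 (xb T0.l8 (xa T0.l8 (xb T0.l8 T0.l8)))))
  (TrL.c (I.pos (nat_lit 0) (nat_lit 0)) (xa (xa T0.l9 T0.l1) T0.l1)
  (TrL.c (I.pos (nat_lit 0) (nat_lit 124588530)) T0.l2
  (TrL.c (I.pos (nat_lit 0) (nat_lit 96881482)) (xR T0.l3 (xR T0.l3 T0.l3))
  (TrL.c (I.pos (nat_lit 0) (nat_lit 0)) (xa (xa T0.l1 T0.l9) T0.l9)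
  (TrL.c (I.pos (nat_lit 0) (nat_lit 0)) T0.l5
  (TrL.c (I.mix (nat_lit 17240550) (nat_lit 96881482)) T0.l6
  (TrL.c (I.mix (nat_lit 17240550) (nat_lit 71940500)) T0.l7
  TrL.n)))))))) (by decide +kernel)
theorem bx0_7 : BoxOK sI cl9 cl9 cl9 t0 t0 b0_7 :=
  box_mk (TrL.c (I.pos (nat_lit 0) (nat_lit 0)) (xa (xa (xb T0.l8 T0.l8) T0.l8) T0.l8)
  (TrL.c (I.pos (nat_lit 0) (nat_lit 0)) (xa T0.l1 T0.l1)
  (TrL.c (I.pos (nat_lit 0) (nat_lit 124588530)) T0.l2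
  (TrL.c (I.pos (nat_lit 0) (nat_lit 96881482)) T0.l6
  (TrL.c (I.pos (nat_lit 0) (nat_lit 0)) (xa T0.l9 T0.l9)
  (TrL.c (I.pos (nat_lit 0) (nat_lit 0)) T0.l5
  (TrL.c (I.mix (nat_lit 17240550) (nat_lit 96881482)) T0.l6
  (TrL.c (I.mix (nat_lit 17240550) (nat_lit 71940500)) T0.l7
  TrL.n)))))))) (by decide +kernel)
theorem bx0_8 : BoxOK sI cl9 cl9 cl9 t0 t0 b0_8 :=
  box_mk (TrL.c (I.pos (nat_lit 0) (nat_lit 0)) (xa (xb (xa T0.l0 T0.l0) (xa T0.l0 (xb T0.l0 T0.l0))) (xb (xa T0.l0 T0.l0) (xa (xb T0.l0 T0.l0) (xb T0.l0 T0.l0))))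
  (TrL.c (I.pos (nat_lit 0) (nat_lit 0)) (xa (xb T0.l1 T0.l1) (xk T0.l5 T0.l1))
  (TrL.c (I.pos (nat_lit 0) (nat_lit 124588530)) (xR T0.l2 T0.l6)
  (TrL.c (I.pos (nat_lit 0) (nat_lit 96881482)) (xR T0.l3 (xR T0.l3 T0.l3))
  (TrL.c (I.pos (nat_lit 0) (nat_lit 0)) (xa (xb (xk (xa T0.l4 (xb T0.l4 T0.l4)) (xa T0.l4 (xb T0.l4 T0.l4))) (xk (xa T0.l4 T0.l4) T0.l4)) (xb (xk (xa (xb (xk T0.l4 T0.l4) T0.l4) (xb (xk T0.l4 T0.l4) (xk T0.l4 T0.l4))) (xa (xb (xk T0.l4 T0.l4) T0.l4) (xb (xk T0.l4 T0.l4) (xk T0.l4 T0.l4)))) (xk (xa (xb T0.l4 T0.l4) (xb (xk T0.l4 T0.l4) (xk T0.l4 T0.l4))) (xa (xb T0.l4 T0.l4) (xb (xk T0.l4 T0.l4) (xk T0.l4 T0.l4))))))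
  (TrL.c (I.pos (nat_lit 0) (nat_lit 0)) (xk T0.l5 T0.l5)
  (TrL.c (I.mix (nat_lit 17240550) (nat_lit 96881482)) (xR T0.l6 (xR T0.l6 T0.l6))
  (TrL.c (I.mix (nat_lit 17240550) (nat_lit 71940500)) (xR T0.l7 T0.l7)
  TrL.n)))))))) (by decide +kernel)
theorem bx0_9 : BoxOK sI cl9 cl9 cl9 t0 t0 b0_9 :=
  box_mk (TrL.c (I.pos (nat_lit 0) (nat_lit 0)) (xa (xb T0.l0 T0.l0) (xb T0.l0 T0.l0))
  (TrL.c (I.pos (nat_lit 0) (nat_lit 0)) T0.l1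
  (TrL.c (I.pos (nat_lit 0) (nat_lit 124588530)) (xR T0.l2 T0.l2)
  (TrL.c (I.pos (nat_lit 0) (nat_lit 96881482)) (xR T0.l3 T0.l3)
  (TrL.c (I.pos (nat_lit 0) (nat_lit 0)) (xk (xb (xa T0.l11 (xa T0.l11 T0.l11)) T0.l4) (xb (xa T0.l11 (xa T0.l11 T0.l11)) T0.l11))
  (TrL.c (I.pos (nat_lit 0) (nat_lit 0)) T0.l5
  (TrL.c (I.mix (nat_lit 17240550) (nat_lit 96881482)) (xR T0.l6 (xR T0.l6 T0.l6))
  (TrL.c (I.mix (nat_lit 17240550) (nat_lit 71940500)) T0.l3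
  TrL.n)))))))) (by decide +kernel)
theorem bx0_10 : BoxOK sI cl9 cl9 cl9 t0 t0 b0_10 :=
  box_mk (TrL.c (I.pos (nat_lit 0) (nat_lit 0)) (xa (xb (xa T0.l0 T0.l0) (xa T0.l0 T0.l0)) (xb T0.l0 (xa T0.l0 T0.l0)))
  (TrL.c (I.pos (nat_lit 0) (nat_lit 0)) (xk T0.l1 T0.l1)
  (TrL.c (I.pos (nat_lit 0) (nat_lit 124588530)) (xR T0.l2 (xR T0.l2 T0.l2))
  (TrL.c (I.pos (nat_lit 0) (nat_lit 96881482)) (xR T0.l3 (xR T0.l3 T0.l3))
  (TrL.c (I.pos (nat_lit 0) (nat_lit 0)) (xk (xa T0.l4 (xb T0.l4 (xb T0.l4 (xs T0.l4 T0.l4)))) (xa T0.l4 (xb T0.l4 (xb T0.l4 (xs T0.l4 (xk T0.l11 T0.l11))))))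
  (TrL.c (I.pos (nat_lit 0) (nat_lit 0)) T0.l5
  (TrL.c (I.mix (nat_lit 17240550) (nat_lit 96881482)) (xR T0.l6 (xR T0.l6 T0.l6))
  (TrL.c (I.mix (nat_lit 17240550) (nat_lit 71940500)) (xR T0.l7 T0.l7)
  TrL.n)))))))) (by decide +kernel)
theorem bx0_11 : BoxOK sI cl9 cl9 cl9 t0 t0 b0_11 :=
  box_mk (TrL.c (I.pos (nat_lit 0) (nat_lit 0)) (xb (xa T0.l10 T0.l10) (xa T0.l10 T0.l10))
  (TrL.c (I.pos (nat_lit 0) (nat_lit 0)) T0.l1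
  (TrL.c (I.pos (nat_lit 0) (nat_lit 124588530)) (xR T0.l2 T0.l2)
  (TrL.c (I.pos (nat_lit 0) (nat_lit 96881482)) (xR T0.l3 T0.l3)
  (TrL.c (I.pos (nat_lit 0) (nat_lit 0)) (xk (xb (xa T0.l11 T0.l11) T0.l11) (xb (xa T0.l11 T0.l11) T0.l11))
  (TrL.c (I.pos (nat_lit 0) (nat_lit 0)) T0.l5
  (TrL.c (I.mix (nat_lit 17240550) (nat_lit 96881482)) (xR T0.l6 (xR T0.l6 T0.l6))
  (TrL.c (I.mix (nat_lit 17240550) (nat_lit 71940500)) T0.l3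
  TrL.n)))))))) (by decide +kernel)
theorem sv0 : StarV sI cl9 cl9 cl9 t0 t0 t0 :=
  (bt_n (bt_n (bt_n (bt_b bx0_0) (bt_n (bt_b bx0_1) (bt_b bx0_2))) (bt_n (bt_b bx0_3) (bt_n (bt_b bx0_4) (bt_b bx0_5)))) (bt_n (bt_n (bt_b bx0_6) (bt_n (bt_b bx0_7) (bt_b bx0_8))) (bt_n (bt_b bx0_9) (bt_n (bt_b bx0_10) (bt_b bx0_11)))))
def S0 : StarD := StarD.mk cl9 cl9 cl9 0 0 t0
def G : List StarD := [S0]
theorem so0 : StarOK sI G S0 :=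
  star_mk (by decide) (by decide) rfl rfl rfl rfl rfl rfl (rfl : _ = t0) (rfl : _ = t0)
  (st_mk (Pth.l (Pth.l (Pth.l Pth.z))) (nat_lit 115478050) (nat_lit 134059529) (by decide +kernel))
  (st_mk (Pth.l (Pth.l (Pth.l Pth.z))) (nat_lit 150644962) (nat_lit 169577839) (by decide +kernel))
  (st_mk (Pth.l (Pth.l (Pth.l Pth.z))) (nat_lit 191311387) (nat_lit 210746733) (by decide +kernel)) sv0
theorem ok : GroupOK (nat_lit 209321984) (nat_lit 268435456) G := grp_mk (allS_c so0 allS_n)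
theorem cov : GCov G cl9 cl9 cl9 := cov_mk
  ⟨0, by decide, rfl, rfl, rfl⟩ ⟨0, by decide, rfl, rfl, rfl⟩ ⟨0, by decide, rfl, rfl, rfl⟩ ⟨0, by decide, rfl, rfl, rfl⟩ ⟨0, by decide, rfl, rfl, rfl⟩ ⟨0, by decide, rfl, rfl, rfl⟩
end Q555_3

namespace Q556_0
def sI : I := I.pos (nat_lit 0) (nat_lit 91291648)
def b0_0 : Bx := Bx.mk (St.mk (I.pos (nat_lit 160514048) (nat_lit 277233664)) (I.mix (nat_lit 15761408) (nat_lit 57442304)) (I.mix (nat_lit 48857088) (nat_lit 98271232)) (I.pos (nat_lit 115277824) (nat_lit 321191936)) (I.mix (nat_lit 77955072) (nat_lit 57262080)) (I.mix (nat_lit 84049920) (nat_lit 55623680)) (I.mix (nat_lit 125763584) (nat_lit 68943872)))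
  false (nat_lit 7366554)
def b0_1 : Bx := Bx.mk (St.mk (I.mix (nat_lit 15302656) (nat_lit 127631360)) (I.mix (nat_lit 4505600) (nat_lit 28606464)) (I.mix (nat_lit 9928704) (nat_lit 22593536)) (I.pos (nat_lit 16777216) (nat_lit 96632832)) (I.mix (nat_lit 23347200) (nat_lit 21037056)) (I.mix (nat_lit 28164096) (nat_lit 15269888)) (I.mix (nat_lit 22315008) (nat_lit 11665408)))
  false (nat_lit 0)
def b0_2 : Bx := Bx.mk (St.mk (I.pos (nat_lit 110968832) (nat_lit 155402240)) (I.mix (nat_lit 51445760) (nat_lit 4964352)) (I.mix (nat_lit 54919168) (nat_lit 2064384)) (I.pos (nat_lit 66519040) (nat_lit 123994112)) (I.mix (nat_lit 63258624) (nat_lit 22216704)) (I.mix (nat_lit 30031872) (nat_lit 64913408)) (I.mix (nat_lit 23478272) (nat_lit 56705024)))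
  false (nat_lit 0)
def b0_3 : Bx := Bx.mk (St.mk (I.mix (nat_lit 19808256) (nat_lit 89423872)) (I.mix (nat_lit 25182208) (nat_lit 2785280)) (I.mix (nat_lit 17743872) (nat_lit 1703936)) (I.pos (nat_lit 17973248) (nat_lit 65257472)) (I.mix (nat_lit 25509888) (nat_lit 12173312)) (I.mix (nat_lit 14188544) (nat_lit 25034752)) (I.mix (nat_lit 7487488) (nat_lit 13385728)))
  false (nat_lit 0)
def b0_4 : Bx := Bx.mk (St.mk (I.pos (nat_lit 120881152) (nat_lit 176832512)) (I.neg (nat_lit 4505600) (nat_lit 54018048)) (I.neg (nat_lit 3047424) (nat_lit 54870016)) (I.pos (nat_lit 87179264) (nat_lit 152879104)) (I.mix (nat_lit 54788096) (nat_lit 28966912)) (I.mix (nat_lit 28884992) (nat_lit 47759360)) (I.mix (nat_lit 24100864) (nat_lit 47759360)))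
  false (nat_lit 0)
def b0_5 : Bx := Bx.mk (St.mk (I.mix (nat_lit 14073856) (nat_lit 99287040)) (I.mix (nat_lit 28459008) (nat_lit 3571712)) (I.mix (nat_lit 20529152) (nat_lit 2506752)) (I.pos (nat_lit 17055744) (nat_lit 72531968)) (I.mix (nat_lit 23527424) (nat_lit 15958016)) (I.mix (nat_lit 13926400) (nat_lit 22790144)) (I.mix (nat_lit 8470528) (nat_lit 14385152)))
  false (nat_lit 0)
def b0_6 : Bx := Bx.mk (St.mk (I.mix (nat_lit 18530304) (nat_lit 123060224)) (I.mix (nat_lit 10534912) (nat_lit 34242560)) (I.mix (nat_lit 8880128) (nat_lit 26689536)) (I.pos (nat_lit 17907712) (nat_lit 89538560)) (I.mix (nat_lit 39190528) (nat_lit 18317312)) (I.mix (nat_lit 39075840) (nat_lit 22757376)) (I.mix (nat_lit 25051136) (nat_lit 14761984)))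
  false (nat_lit 0)
def b0_7 : Bx := Bx.mk (St.mk (I.pos (nat_lit 161136640) (nat_lit 221724672)) (I.mix (nat_lit 38600704) (nat_lit 58343424)) (I.mix (nat_lit 39747584) (nat_lit 93863936)) (I.pos (nat_lit 119930880) (nat_lit 215842816)) (I.mix (nat_lit 107954176) (nat_lit 43417600)) (I.mix (nat_lit 125206528) (nat_lit 61358080)) (I.mix (nat_lit 151699456) (nat_lit 67371008)))
  false (nat_lit 0)
def t0 : BTr := (BTr.n (BTr.n (BTr.n (BTr.b b0_0) (BTr.b b0_1)) (BTr.n (BTr.b b0_2) (BTr.b b0_3))) (BTr.n (BTr.n (BTr.b b0_4) (BTr.b b0_5)) (BTr.n (BTr.b b0_6) (BTr.b b0_7))))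
namespace T0
def l0 : Tr := Tr.L (Pth.l (Pth.l (Pth.l Pth.z)))
def l1 : Tr := Tr.L (Pth.l (Pth.l (Pth.r Pth.z)))
def l2 : Tr := Tr.L (Pth.l (Pth.r (Pth.l Pth.z)))
def l3 : Tr := Tr.L (Pth.l (Pth.r (Pth.r Pth.z)))
def l4 : Tr := Tr.L (Pth.r (Pth.l (Pth.l Pth.z)))
def l5 : Tr := Tr.L (Pth.r (Pth.l (Pth.r Pth.z)))
def l6 : Tr := Tr.L (Pth.r (Pth.r (Pth.l Pth.z)))
def l7 : Tr := Tr.L (Pth.r (Pth.r (Pth.r Pth.z)))
end T0
def b1_0 : Bx := Bx.mk (St.mk (I.pos (nat_lit 160514048) (nat_lit 276725760)) (I.mix (nat_lit 14925824) (nat_lit 53329920)) (I.mix (nat_lit 36093952) (nat_lit 99794944)) (I.pos (nat_lit 95977472) (nat_lit 301383680)) (I.mix (nat_lit 83574784) (nat_lit 56049664)) (I.mix (nat_lit 84000768) (nat_lit 56197120)) (I.mix (nat_lit 127893504) (nat_lit 72613888)))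
  false (nat_lit 8802491)
def b1_1 : Bx := Bx.mk (St.mk (I.pos (nat_lit 130416640) (nat_lit 183402496)) (I.neg (nat_lit 4210688) (nat_lit 51363840)) (I.neg (nat_lit 819200) (nat_lit 50872320)) (I.pos (nat_lit 77955072) (nat_lit 142098432)) (I.mix (nat_lit 51216384) (nat_lit 28737536)) (I.mix (nat_lit 28835840) (nat_lit 46317568)) (I.mix (nat_lit 24985600) (nat_lit 48070656)))
  false (nat_lit 0)
def b1_2 : Bx := Bx.mk (St.mk (I.mix (nat_lit 10928128) (nat_lit 136904704)) (I.mix (nat_lit 4128768) (nat_lit 25395200)) (I.mix (nat_lit 6324224) (nat_lit 25034752)) (I.mix (nat_lit 557056) (nat_lit 86310912)) (I.mix (nat_lit 26263552) (nat_lit 19578880)) (I.mix (nat_lit 27312128) (nat_lit 16859136)) (I.mix (nat_lit 23904256) (nat_lit 13172736)))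
  false (nat_lit 0)
def b1_3 : Bx := Bx.mk (St.mk (I.mix (nat_lit 5292032) (nat_lit 112771072)) (I.mix (nat_lit 25952256) (nat_lit 4571136)) (I.mix (nat_lit 19382272) (nat_lit 3571712)) (I.mix (nat_lit 557056) (nat_lit 63963136)) (I.mix (nat_lit 22134784) (nat_lit 15941632)) (I.mix (nat_lit 13631488) (nat_lit 21544960)) (I.mix (nat_lit 8339456) (nat_lit 15515648)))
  false (nat_lit 0)
def b1_4 : Bx := Bx.mk (St.mk (I.pos (nat_lit 165724160) (nat_lit 222969856)) (I.mix (nat_lit 38715392) (nat_lit 56000512)) (I.mix (nat_lit 37650432) (nat_lit 96665600)) (I.pos (nat_lit 106512384) (nat_lit 198754304)) (I.mix (nat_lit 100253696) (nat_lit 42450944)) (I.mix (nat_lit 119898112) (nat_lit 58327040)) (I.mix (nat_lit 152436736) (nat_lit 65798144)))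
  false (nat_lit 0)
def b1_5 : Bx := Bx.mk (St.mk (I.pos (nat_lit 120815616) (nat_lit 163381248)) (I.mix (nat_lit 50364416) (nat_lit 4620288)) (I.mix (nat_lit 53231616) (nat_lit 5783552)) (I.pos (nat_lit 56360960) (nat_lit 114327552)) (I.mix (nat_lit 64880640) (nat_lit 21839872)) (I.mix (nat_lit 28360704) (nat_lit 65601536)) (I.mix (nat_lit 24461312) (nat_lit 60030976)))
  false (nat_lit 0)
def b1_6 : Bx := Bx.mk (St.mk (I.mix (nat_lit 8945664) (nat_lit 132579328)) (I.mix (nat_lit 11010048) (nat_lit 32882688)) (I.mix (nat_lit 8060928) (nat_lit 29065216)) (I.mix (nat_lit 557056) (nat_lit 80068608)) (I.mix (nat_lit 41467904) (nat_lit 18710528)) (I.mix (nat_lit 42172416) (nat_lit 22216704)) (I.mix (nat_lit 31277056) (nat_lit 15138816)))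
  false (nat_lit 0)
def b1_7 : Bx := Bx.mk (St.mk (I.mix (nat_lit 10518528) (nat_lit 109772800)) (I.mix (nat_lit 22577152) (nat_lit 2424832)) (I.mix (nat_lit 16613376) (nat_lit 2310144)) (I.mix (nat_lit 557056) (nat_lit 58621952)) (I.mix (nat_lit 24723456) (nat_lit 10027008)) (I.mix (nat_lit 12222464) (nat_lit 23756800)) (I.mix (nat_lit 7487488) (nat_lit 14991360)))
  false (nat_lit 0)
def t1 : BTr := (BTr.n (BTr.n (BTr.n (BTr.b b1_0) (BTr.b b1_1)) (BTr.n (BTr.b b1_2) (BTr.b b1_3))) (BTr.n (BTr.n (BTr.b b1_4) (BTr.b b1_5)) (BTr.n (BTr.b b1_6) (BTr.b b1_7))))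
namespace T1
def l0 : Tr := Tr.L (Pth.l (Pth.l (Pth.l Pth.z)))
def l1 : Tr := Tr.L (Pth.l (Pth.l (Pth.r Pth.z)))
def l2 : Tr := Tr.L (Pth.l (Pth.r (Pth.l Pth.z)))
def l3 : Tr := Tr.L (Pth.l (Pth.r (Pth.r Pth.z)))
def l4 : Tr := Tr.L (Pth.r (Pth.l (Pth.l Pth.z)))
def l5 : Tr := Tr.L (Pth.r (Pth.l (Pth.r Pth.z)))
def l6 : Tr := Tr.L (Pth.r (Pth.r (Pth.l Pth.z)))
def l7 : Tr := Tr.L (Pth.r (Pth.r (Pth.r Pth.z)))
end T1
def b2_0 : Bx := Bx.mk (St.mk (I.pos (nat_lit 160514048) (nat_lit 275775488)) (I.mix (nat_lit 12222464) (nat_lit 56410112)) (I.mix (nat_lit 30588928) (nat_lit 105119744)) (I.pos (nat_lit 115064832) (nat_lit 318832640)) (I.mix (nat_lit 89194496) (nat_lit 56262656)) (I.mix (nat_lit 85606400) (nat_lit 56721408)) (I.mix (nat_lit 127451136) (nat_lit 71761920)))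
  false (nat_lit 33301250)
def b2_1 : Bx := Bx.mk (St.mk (I.pos (nat_lit 121634816) (nat_lit 178634752)) (I.neg (nat_lit 5390336) (nat_lit 54132736)) (I.mix (nat_lit 51298304) (nat_lit 2146304)) (I.pos (nat_lit 86654976) (nat_lit 154927104)) (I.mix (nat_lit 51904512) (nat_lit 29949952)) (I.mix (nat_lit 28786688) (nat_lit 46645248)) (I.mix (nat_lit 24543232) (nat_lit 46465024)))
  false (nat_lit 0)
def b2_2 : Bx := Bx.mk (St.mk (I.mix (nat_lit 13451264) (nat_lit 99516416)) (I.mix (nat_lit 28114944) (nat_lit 4063232)) (I.mix (nat_lit 18071552) (nat_lit 5734400)) (I.pos (nat_lit 17154048) (nat_lit 73023488)) (I.mix (nat_lit 21807104) (nat_lit 15925248)) (I.mix (nat_lit 13221888) (nat_lit 22151168)) (I.mix (nat_lit 8077312) (nat_lit 13828096)))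
  false (nat_lit 0)
def b2_3 : Bx := Bx.mk (St.mk (I.pos (nat_lit 161120256) (nat_lit 221118464)) (I.mix (nat_lit 38387712) (nat_lit 57966592)) (I.mix (nat_lit 33832960) (nat_lit 99893248)) (I.pos (nat_lit 118456320) (nat_lit 213549056)) (I.mix (nat_lit 109084672) (nat_lit 43270144)) (I.mix (nat_lit 124321792) (nat_lit 60325888)) (I.mix (nat_lit 151404544) (nat_lit 65388544)))
  false (nat_lit 251563)
def b2_4 : Bx := Bx.mk (St.mk (I.mix (nat_lit 18923520) (nat_lit 120389632)) (I.mix (nat_lit 10747904) (nat_lit 34258944)) (I.mix (nat_lit 6455296) (nat_lit 29556736)) (I.pos (nat_lit 17924096) (nat_lit 88915968)) (I.mix (nat_lit 39944192) (nat_lit 18022400)) (I.mix (nat_lit 39305216) (nat_lit 22151168)) (I.mix (nat_lit 26460160) (nat_lit 14237696)))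
  false (nat_lit 0)
def b2_5 : Bx := Bx.mk (St.mk (I.mix (nat_lit 15925248) (nat_lit 126730240)) (I.mix (nat_lit 3555328) (nat_lit 28770304)) (I.mix (nat_lit 5619712) (nat_lit 26247168)) (I.pos (nat_lit 16662528) (nat_lit 95879168)) (I.mix (nat_lit 28442624) (nat_lit 20398080)) (I.mix (nat_lit 28672000) (nat_lit 17776640)) (I.mix (nat_lit 22855680) (nat_lit 13533184)))
  false (nat_lit 0)
def b2_6 : Bx := Bx.mk (St.mk (I.pos (nat_lit 111853568) (nat_lit 156844032)) (I.mix (nat_lit 53510144) (nat_lit 4014080)) (I.mix (nat_lit 52756480) (nat_lit 5046272)) (I.pos (nat_lit 67239936) (nat_lit 125239296)) (I.mix (nat_lit 68370432) (nat_lit 22659072)) (I.mix (nat_lit 33030144) (nat_lit 70402048)) (I.mix (nat_lit 26361856) (nat_lit 59260928)))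
  false (nat_lit 0)
def b2_7 : Bx := Bx.mk (St.mk (I.mix (nat_lit 19251200) (nat_lit 90324992)) (I.mix (nat_lit 25280512) (nat_lit 2097152)) (I.mix (nat_lit 15646720) (nat_lit 4358144)) (I.pos (nat_lit 17842176) (nat_lit 65634304)) (I.mix (nat_lit 25034752) (nat_lit 13352960)) (I.mix (nat_lit 14712832) (nat_lit 23838720)) (I.mix (nat_lit 7651328) (nat_lit 12517376)))
  false (nat_lit 0)
def t2 : BTr := (BTr.n (BTr.n (BTr.n (BTr.b b2_0) (BTr.b b2_1)) (BTr.n (BTr.b b2_2) (BTr.b b2_3))) (BTr.n (BTr.n (BTr.b b2_4) (BTr.b b2_5)) (BTr.n (BTr.b b2_6) (BTr.b b2_7))))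
namespace T2
def l0 : Tr := Tr.L (Pth.l (Pth.l (Pth.l Pth.z)))
def l1 : Tr := Tr.L (Pth.l (Pth.l (Pth.r Pth.z)))
def l2 : Tr := Tr.L (Pth.l (Pth.r (Pth.l Pth.z)))
def l3 : Tr := Tr.L (Pth.l (Pth.r (Pth.r Pth.z)))
def l4 : Tr := Tr.L (Pth.r (Pth.l (Pth.l Pth.z)))
def l5 : Tr := Tr.L (Pth.r (Pth.l (Pth.r Pth.z)))
def l6 : Tr := Tr.L (Pth.r (Pth.r (Pth.l Pth.z)))
def l7 : Tr := Tr.L (Pth.r (Pth.r (Pth.r Pth.z)))
end T2
theorem bx0_0 : BoxOK sI cl9 cl9 cl13 t0 t2 b0_0 :=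
  box_mk (TrL.c (I.pos (nat_lit 0) (nat_lit 0)) (xa (xa T0.l0 T0.l0) (xa T0.l0 T0.l0))
  (TrL.c (I.pos (nat_lit 0) (nat_lit 0)) (xa T2.l1 (xk T2.l6 T2.l1))
  (TrL.c (I.pos (nat_lit 0) (nat_lit 124588530)) (xR T0.l1 T0.l6)
  (TrL.c (I.pos (nat_lit 0) (nat_lit 96881482)) (xR T2.l2 T2.l2)
  (TrL.c (I.pos (nat_lit 0) (nat_lit 0)) (xa (xa T2.l3 T2.l3) (xk (xa T2.l3 (xb (xb T2.l3 T2.l3) (xk (xs T2.l3 T2.l3) T2.l3))) (xa T2.l3 (xb (xb T2.l3 T2.l3) (xs (xk T2.l3 T2.l3) (xa T2.l3 T2.l3))))))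
  (TrL.c (I.pos (nat_lit 0) (nat_lit 0)) (xk T0.l2 T0.l2)
  (TrL.c (I.mix (nat_lit 17240550) (nat_lit 96881482)) (xR T2.l4 T2.l4)
  (TrL.c (I.mix (nat_lit 17240550) (nat_lit 71940500)) T0.l3
  TrL.n)))))))) (by decide +kernel)
theorem bx0_1 : BoxOK sI cl9 cl9 cl13 t0 t2 b0_1 :=
  box_mk (TrL.c (I.pos (nat_lit 0) (nat_lit 0)) T0.l0
  (TrL.c (I.pos (nat_lit 0) (nat_lit 0)) T2.l1
  (TrL.c (I.pos (nat_lit 0) (nat_lit 124588530)) T0.l1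
  (TrL.c (I.pos (nat_lit 0) (nat_lit 96881482)) T2.l2
  (TrL.c (I.pos (nat_lit 0) (nat_lit 0)) (xa T2.l3 T2.l3)
  (TrL.c (I.pos (nat_lit 0) (nat_lit 0)) T0.l2
  (TrL.c (I.mix (nat_lit 17240550) (nat_lit 96881482)) (xR T2.l4 T2.l4)
  (TrL.c (I.mix (nat_lit 17240550) (nat_lit 71940500)) T0.l3
  TrL.n)))))))) (by decide +kernel)
theorem bx0_2 : BoxOK sI cl9 cl9 cl13 t0 t2 b0_2 :=
  box_mk (TrL.c (I.pos (nat_lit 0) (nat_lit 0)) T0.l0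
  (TrL.c (I.pos (nat_lit 0) (nat_lit 0)) T2.l1
  (TrL.c (I.pos (nat_lit 0) (nat_lit 124588530)) (xR T0.l1 T0.l1)
  (TrL.c (I.pos (nat_lit 0) (nat_lit 96881482)) (xR T2.l2 T2.l2)
  (TrL.c (I.pos (nat_lit 0) (nat_lit 0)) T2.l3
  (TrL.c (I.pos (nat_lit 0) (nat_lit 0)) T0.l2
  (TrL.c (I.mix (nat_lit 17240550) (nat_lit 96881482)) T2.l4
  (TrL.c (I.mix (nat_lit 17240550) (nat_lit 71940500)) T0.l3
  TrL.n)))))))) (by decide +kernel)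
theorem bx0_3 : BoxOK sI cl9 cl9 cl13 t0 t2 b0_3 :=
  box_mk (TrL.c (I.pos (nat_lit 0) (nat_lit 0)) (xa T0.l0 T0.l0)
  (TrL.c (I.pos (nat_lit 0) (nat_lit 0)) T2.l1
  (TrL.c (I.pos (nat_lit 0) (nat_lit 124588530)) T0.l1
  (TrL.c (I.pos (nat_lit 0) (nat_lit 96881482)) T2.l2
  (TrL.c (I.pos (nat_lit 0) (nat_lit 0)) T2.l3
  (TrL.c (I.pos (nat_lit 0) (nat_lit 0)) T0.l2
  (TrL.c (I.mix (nat_lit 17240550) (nat_lit 96881482)) (xR T2.l4 T2.l4)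
  (TrL.c (I.mix (nat_lit 17240550) (nat_lit 71940500)) T0.l3
  TrL.n)))))))) (by decide +kernel)
theorem bx0_4 : BoxOK sI cl9 cl9 cl13 t0 t2 b0_4 :=
  box_mk (TrL.c (I.pos (nat_lit 0) (nat_lit 0)) T0.l0
  (TrL.c (I.pos (nat_lit 0) (nat_lit 0)) T2.l1
  (TrL.c (I.pos (nat_lit 0) (nat_lit 124588530)) (xR T0.l1 T0.l1)
  (TrL.c (I.pos (nat_lit 0) (nat_lit 96881482)) (xR T2.l2 T2.l2)
  (TrL.c (I.pos (nat_lit 0) (nat_lit 0)) T2.l3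
  (TrL.c (I.pos (nat_lit 0) (nat_lit 0)) T0.l2
  (TrL.c (I.mix (nat_lit 17240550) (nat_lit 96881482)) (xR T2.l4 T2.l4)
  (TrL.c (I.mix (nat_lit 17240550) (nat_lit 71940500)) T0.l3
  TrL.n)))))))) (by decide +kernel)
theorem bx0_5 : BoxOK sI cl9 cl9 cl13 t0 t2 b0_5 :=
  box_mk (TrL.c (I.pos (nat_lit 0) (nat_lit 0)) T0.l0
  (TrL.c (I.pos (nat_lit 0) (nat_lit 0)) T2.l1
  (TrL.c (I.pos (nat_lit 0) (nat_lit 124588530)) T0.l1
  (TrL.c (I.pos (nat_lit 0) (nat_lit 96881482)) T2.l2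
  (TrL.c (I.pos (nat_lit 0) (nat_lit 0)) T2.l3
  (TrL.c (I.pos (nat_lit 0) (nat_lit 0)) T0.l2
  (TrL.c (I.mix (nat_lit 17240550) (nat_lit 96881482)) (xR T2.l4 T2.l4)
  (TrL.c (I.mix (nat_lit 17240550) (nat_lit 71940500)) T0.l3
  TrL.n)))))))) (by decide +kernel)
theorem bx0_6 : BoxOK sI cl9 cl9 cl13 t0 t2 b0_6 :=
  box_mk (TrL.c (I.pos (nat_lit 0) (nat_lit 0)) (xa T0.l0 T0.l0)
  (TrL.c (I.pos (nat_lit 0) (nat_lit 0)) (xa T2.l1 T2.l1)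
  (TrL.c (I.pos (nat_lit 0) (nat_lit 124588530)) (xR T0.l1 T0.l1)
  (TrL.c (I.pos (nat_lit 0) (nat_lit 96881482)) (xR T2.l2 T2.l2)
  (TrL.c (I.pos (nat_lit 0) (nat_lit 0)) (xa T2.l3 T2.l3)
  (TrL.c (I.pos (nat_lit 0) (nat_lit 0)) T0.l2
  (TrL.c (I.mix (nat_lit 17240550) (nat_lit 96881482)) (xR T2.l4 T2.l4)
  (TrL.c (I.mix (nat_lit 17240550) (nat_lit 71940500)) T0.l3
  TrL.n)))))))) (by decide +kernel)
theorem bx0_7 : BoxOK sI cl9 cl9 cl13 t0 t2 b0_7 :=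
  box_mk (TrL.c (I.pos (nat_lit 0) (nat_lit 0)) (xb T0.l0 T0.l0)
  (TrL.c (I.pos (nat_lit 0) (nat_lit 0)) (xb T2.l1 T2.l1)
  (TrL.c (I.pos (nat_lit 0) (nat_lit 124588530)) (xR T0.l1 T0.l1)
  (TrL.c (I.pos (nat_lit 0) (nat_lit 96881482)) (xR T2.l2 T2.l2)
  (TrL.c (I.pos (nat_lit 0) (nat_lit 0)) (xb (xa T2.l3 (xk T2.l3 T2.l3)) (xa T2.l3 T2.l3))
  (TrL.c (I.pos (nat_lit 0) (nat_lit 0)) T0.l2
  (TrL.c (I.mix (nat_lit 17240550) (nat_lit 96881482)) (xR T2.l4 T2.l4)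
  (TrL.c (I.mix (nat_lit 17240550) (nat_lit 71940500)) T0.l3
  TrL.n)))))))) (by decide +kernel)
theorem sv0 : StarV sI cl9 cl9 cl13 t0 t2 t0 :=
  (bt_n (bt_n (bt_n (bt_b bx0_0) (bt_b bx0_1)) (bt_n (bt_b bx0_2) (bt_b bx0_3))) (bt_n (bt_n (bt_b bx0_4) (bt_b bx0_5)) (bt_n (bt_b bx0_6) (bt_b bx0_7))))
def S0 : StarD := StarD.mk cl9 cl9 cl13 0 2 t0
theorem bx1_0 : BoxOK sI cl9 cl13 cl9 t2 t0 b1_0 :=
  box_mk (TrL.c (I.pos (nat_lit 0) (nat_lit 0)) (xa T2.l0 T2.l0)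
  (TrL.c (I.pos (nat_lit 0) (nat_lit 0)) (xa (xk T0.l4 T0.l4) (xk T0.l4 T0.l4))
  (TrL.c (I.pos (nat_lit 0) (nat_lit 124588530)) (xR T2.l5 T2.l5)
  (TrL.c (I.pos (nat_lit 0) (nat_lit 96881482)) (xR T0.l5 T0.l5)
  (TrL.c (I.pos (nat_lit 0) (nat_lit 0)) (xa T0.l7 (xk (xa T0.l7 (xb (xa T0.l7 T0.l7) (xk T0.l7 T0.l7))) (xa T0.l7 (xb (xa T0.l7 T0.l7) (xk T0.l7 T0.l7)))))
  (TrL.c (I.pos (nat_lit 0) (nat_lit 0)) (xa T2.l6 T2.l6)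
  (TrL.c (I.mix (nat_lit 17240550) (nat_lit 96881482)) (xR T0.l6 T0.l6)
  (TrL.c (I.mix (nat_lit 17240550) (nat_lit 71940500)) T2.l7
  TrL.n)))))))) (by decide +kernel)
theorem bx1_1 : BoxOK sI cl9 cl13 cl9 t2 t0 b1_1 :=
  box_mk (TrL.c (I.pos (nat_lit 0) (nat_lit 0)) T2.l0
  (TrL.c (I.pos (nat_lit 0) (nat_lit 0)) T0.l4
  (TrL.c (I.pos (nat_lit 0) (nat_lit 124588530)) (xR T2.l5 T2.l5)
  (TrL.c (I.pos (nat_lit 0) (nat_lit 96881482)) (xR T0.l5 T0.l5)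
  (TrL.c (I.pos (nat_lit 0) (nat_lit 0)) T0.l7
  (TrL.c (I.pos (nat_lit 0) (nat_lit 0)) T2.l6
  (TrL.c (I.mix (nat_lit 17240550) (nat_lit 96881482)) (xR T0.l6 T0.l6)
  (TrL.c (I.mix (nat_lit 17240550) (nat_lit 71940500)) T2.l7
  TrL.n)))))))) (by decide +kernel)
theorem bx1_2 : BoxOK sI cl9 cl13 cl9 t2 t0 b1_2 :=
  box_mk (TrL.c (I.pos (nat_lit 0) (nat_lit 0)) (xa T2.l0 T2.l0)
  (TrL.c (I.pos (nat_lit 0) (nat_lit 0)) (xa T0.l4 T0.l4)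
  (TrL.c (I.pos (nat_lit 0) (nat_lit 124588530)) (xR T2.l5 T2.l5)
  (TrL.c (I.pos (nat_lit 0) (nat_lit 96881482)) T0.l5
  (TrL.c (I.pos (nat_lit 0) (nat_lit 0)) (xa T0.l7 T0.l7)
  (TrL.c (I.pos (nat_lit 0) (nat_lit 0)) T2.l6
  (TrL.c (I.mix (nat_lit 17240550) (nat_lit 96881482)) (xR T0.l6 T0.l6)
  (TrL.c (I.mix (nat_lit 17240550) (nat_lit 71940500)) T2.l7
  TrL.n)))))))) (by decide +kernel)
theorem bx1_3 : BoxOK sI cl9 cl13 cl9 t2 t0 b1_3 :=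
  box_mk (TrL.c (I.pos (nat_lit 0) (nat_lit 0)) (xa T2.l0 T2.l0)
  (TrL.c (I.pos (nat_lit 0) (nat_lit 0)) T0.l4
  (TrL.c (I.pos (nat_lit 0) (nat_lit 124588530)) T2.l5
  (TrL.c (I.pos (nat_lit 0) (nat_lit 96881482)) (xR T0.l5 T0.l5)
  (TrL.c (I.pos (nat_lit 0) (nat_lit 0)) T0.l7
  (TrL.c (I.pos (nat_lit 0) (nat_lit 0)) T2.l6
  (TrL.c (I.mix (nat_lit 17240550) (nat_lit 96881482)) (xR T0.l6 T0.l6)
  (TrL.c (I.mix (nat_lit 17240550) (nat_lit 71940500)) T2.l7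
  TrL.n)))))))) (by decide +kernel)
theorem bx1_4 : BoxOK sI cl9 cl13 cl9 t2 t0 b1_4 :=
  box_mk (TrL.c (I.pos (nat_lit 0) (nat_lit 0)) (xb T2.l0 T2.l0)
  (TrL.c (I.pos (nat_lit 0) (nat_lit 0)) (xb T0.l4 T0.l4)
  (TrL.c (I.pos (nat_lit 0) (nat_lit 124588530)) (xR T2.l5 T2.l5)
  (TrL.c (I.pos (nat_lit 0) (nat_lit 96881482)) (xR T0.l5 T0.l5)
  (TrL.c (I.pos (nat_lit 0) (nat_lit 0)) (xb (xa T0.l7 (xk T0.l7 T0.l7)) T0.l7)
  (TrL.c (I.pos (nat_lit 0) (nat_lit 0)) T2.l6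
  (TrL.c (I.mix (nat_lit 17240550) (nat_lit 96881482)) (xR T0.l6 T0.l6)
  (TrL.c (I.mix (nat_lit 17240550) (nat_lit 71940500)) T2.l7
  TrL.n)))))))) (by decide +kernel)
theorem bx1_5 : BoxOK sI cl9 cl13 cl9 t2 t0 b1_5 :=
  box_mk (TrL.c (I.pos (nat_lit 0) (nat_lit 0)) T2.l0
  (TrL.c (I.pos (nat_lit 0) (nat_lit 0)) T0.l4
  (TrL.c (I.pos (nat_lit 0) (nat_lit 124588530)) (xR T2.l5 T2.l5)
  (TrL.c (I.pos (nat_lit 0) (nat_lit 96881482)) (xR T0.l5 T0.l5)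
  (TrL.c (I.pos (nat_lit 0) (nat_lit 0)) T0.l7
  (TrL.c (I.pos (nat_lit 0) (nat_lit 0)) T2.l6
  (TrL.c (I.mix (nat_lit 17240550) (nat_lit 96881482)) (xR T0.l6 T0.l6)
  (TrL.c (I.mix (nat_lit 17240550) (nat_lit 71940500)) T2.l7
  TrL.n)))))))) (by decide +kernel)
theorem bx1_6 : BoxOK sI cl9 cl13 cl9 t2 t0 b1_6 :=
  box_mk (TrL.c (I.pos (nat_lit 0) (nat_lit 0)) (xa T2.l0 T2.l0)
  (TrL.c (I.pos (nat_lit 0) (nat_lit 0)) (xa T0.l4 T0.l4)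
  (TrL.c (I.pos (nat_lit 0) (nat_lit 124588530)) (xR T2.l5 T2.l5)
  (TrL.c (I.pos (nat_lit 0) (nat_lit 96881482)) (xR T0.l5 T0.l5)
  (TrL.c (I.pos (nat_lit 0) (nat_lit 0)) (xa T0.l7 T0.l7)
  (TrL.c (I.pos (nat_lit 0) (nat_lit 0)) T2.l6
  (TrL.c (I.mix (nat_lit 17240550) (nat_lit 96881482)) (xR T0.l6 T0.l6)
  (TrL.c (I.mix (nat_lit 17240550) (nat_lit 71940500)) T2.l7
  TrL.n)))))))) (by decide +kernel)
theorem bx1_7 : BoxOK sI cl9 cl13 cl9 t2 t0 b1_7 :=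
  box_mk (TrL.c (I.pos (nat_lit 0) (nat_lit 0)) (xa T2.l0 T2.l0)
  (TrL.c (I.pos (nat_lit 0) (nat_lit 0)) T0.l4
  (TrL.c (I.pos (nat_lit 0) (nat_lit 124588530)) (xR T2.l5 T2.l5)
  (TrL.c (I.pos (nat_lit 0) (nat_lit 96881482)) (xR T0.l5 T0.l5)
  (TrL.c (I.pos (nat_lit 0) (nat_lit 0)) T0.l7
  (TrL.c (I.pos (nat_lit 0) (nat_lit 0)) T2.l6
  (TrL.c (I.mix (nat_lit 17240550) (nat_lit 96881482)) (xR T0.l6 T0.l6)
  (TrL.c (I.mix (nat_lit 17240550) (nat_lit 71940500)) T2.l4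
  TrL.n)))))))) (by decide +kernel)
theorem sv1 : StarV sI cl9 cl13 cl9 t2 t0 t1 :=
  (bt_n (bt_n (bt_n (bt_b bx1_0) (bt_b bx1_1)) (bt_n (bt_b bx1_2) (bt_b bx1_3))) (bt_n (bt_n (bt_b bx1_4) (bt_b bx1_5)) (bt_n (bt_b bx1_6) (bt_b bx1_7))))
def S1 : StarD := StarD.mk cl9 cl13 cl9 2 0 t1
theorem bx2_0 : BoxOK sI cl13 cl9 cl9 t1 t1 b2_0 :=
  box_mk (TrL.c (I.pos (nat_lit 0) (nat_lit 0)) (xa T1.l0 T1.l0)
  (TrL.c (I.pos (nat_lit 0) (nat_lit 0)) (xa T1.l1 (xk T1.l1 T1.l1))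
  (TrL.c (I.pos (nat_lit 0) (nat_lit 134217730)) (xR T1.l2 T1.l6)
  (TrL.c (I.pos (nat_lit 0) (nat_lit 110514882)) (xR T1.l6 T1.l3)
  (TrL.c (I.pos (nat_lit 0) (nat_lit 0)) (xa T1.l4 (xk (xa T1.l4 (xb (xk T1.l4 T1.l4) (xs (xk T1.l4 T1.l4) (xk T1.l4 T1.l4)))) (xa T1.l4 (xb T1.l4 (xs (xk T1.l4 T1.l4) (xk T1.l4 T1.l4))))))
  (TrL.c (I.pos (nat_lit 0) (nat_lit 0)) (xk T1.l5 T1.l5)
  (TrL.c (I.mix (nat_lit 8088324) (nat_lit 110514882)) (xR T1.l6 T1.l6)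
  (TrL.c (I.mix (nat_lit 8088324) (nat_lit 89478486)) (xR T1.l7 T1.l7)
  TrL.n)))))))) (by decide +kernel)
theorem bx2_1 : BoxOK sI cl13 cl9 cl9 t1 t1 b2_1 :=
  box_mk (TrL.c (I.pos (nat_lit 0) (nat_lit 0)) T1.l0
  (TrL.c (I.pos (nat_lit 0) (nat_lit 0)) T1.l1
  (TrL.c (I.pos (nat_lit 0) (nat_lit 134217730)) (xR T1.l2 T1.l2)
  (TrL.c (I.pos (nat_lit 0) (nat_lit 110514882)) (xR T1.l6 T1.l3)
  (TrL.c (I.pos (nat_lit 0) (nat_lit 0)) T1.l4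
  (TrL.c (I.pos (nat_lit 0) (nat_lit 0)) T1.l5
  (TrL.c (I.mix (nat_lit 8088324) (nat_lit 110514882)) (xR T1.l6 T1.l6)
  (TrL.c (I.mix (nat_lit 8088324) (nat_lit 89478486)) T1.l7
  TrL.n)))))))) (by decide +kernel)
theorem bx2_2 : BoxOK sI cl13 cl9 cl9 t1 t1 b2_2 :=
  box_mk (TrL.c (I.pos (nat_lit 0) (nat_lit 0)) (xa T1.l0 T1.l0)
  (TrL.c (I.pos (nat_lit 0) (nat_lit 0)) T1.l1
  (TrL.c (I.pos (nat_lit 0) (nat_lit 134217730)) T1.l2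
  (TrL.c (I.pos (nat_lit 0) (nat_lit 110514882)) (xR T1.l3 T1.l3)
  (TrL.c (I.pos (nat_lit 0) (nat_lit 0)) T1.l4
  (TrL.c (I.pos (nat_lit 0) (nat_lit 0)) T1.l5
  (TrL.c (I.mix (nat_lit 8088324) (nat_lit 110514882)) (xR T1.l6 T1.l6)
  (TrL.c (I.mix (nat_lit 8088324) (nat_lit 89478486)) T1.l7
  TrL.n)))))))) (by decide +kernel)
theorem bx2_3 : BoxOK sI cl13 cl9 cl9 t1 t1 b2_3 :=
  box_mk (TrL.c (I.pos (nat_lit 0) (nat_lit 0)) (xb T1.l0 T1.l0)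
  (TrL.c (I.pos (nat_lit 0) (nat_lit 0)) (xb T1.l1 T1.l1)
  (TrL.c (I.pos (nat_lit 0) (nat_lit 134217730)) (xR T1.l2 T1.l2)
  (TrL.c (I.pos (nat_lit 0) (nat_lit 110514882)) (xR T1.l6 T1.l3)
  (TrL.c (I.pos (nat_lit 0) (nat_lit 0)) (xb (xa T1.l4 (xk T1.l4 T1.l4)) (xa T1.l4 (xk T1.l4 T1.l4)))
  (TrL.c (I.pos (nat_lit 0) (nat_lit 0)) T1.l5
  (TrL.c (I.mix (nat_lit 8088324) (nat_lit 110514882)) (xR T1.l6 T1.l6)
  (TrL.c (I.mix (nat_lit 8088324) (nat_lit 89478486)) (xR T1.l7 T1.l7)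
  TrL.n)))))))) (by decide +kernel)
theorem bx2_4 : BoxOK sI cl13 cl9 cl9 t1 t1 b2_4 :=
  box_mk (TrL.c (I.pos (nat_lit 0) (nat_lit 0)) (xa T1.l0 T1.l0)
  (TrL.c (I.pos (nat_lit 0) (nat_lit 0)) (xa T1.l1 T1.l1)
  (TrL.c (I.pos (nat_lit 0) (nat_lit 134217730)) (xR T1.l2 T1.l2)
  (TrL.c (I.pos (nat_lit 0) (nat_lit 110514882)) (xR T1.l3 T1.l3)
  (TrL.c (I.pos (nat_lit 0) (nat_lit 0)) (xa T1.l4 T1.l4)
  (TrL.c (I.pos (nat_lit 0) (nat_lit 0)) T1.l5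
  (TrL.c (I.mix (nat_lit 8088324) (nat_lit 110514882)) (xR T1.l2 T1.l6)
  (TrL.c (I.mix (nat_lit 8088324) (nat_lit 89478486)) T1.l7
  TrL.n)))))))) (by decide +kernel)
theorem bx2_5 : BoxOK sI cl13 cl9 cl9 t1 t1 b2_5 :=
  box_mk (TrL.c (I.pos (nat_lit 0) (nat_lit 0)) T1.l0
  (TrL.c (I.pos (nat_lit 0) (nat_lit 0)) T1.l1
  (TrL.c (I.pos (nat_lit 0) (nat_lit 134217730)) (xR T1.l2 T1.l2)
  (TrL.c (I.pos (nat_lit 0) (nat_lit 110514882)) (xR T1.l3 T1.l3)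
  (TrL.c (I.pos (nat_lit 0) (nat_lit 0)) (xa T1.l4 T1.l4)
  (TrL.c (I.pos (nat_lit 0) (nat_lit 0)) T1.l5
  (TrL.c (I.mix (nat_lit 8088324) (nat_lit 110514882)) (xR T1.l2 T1.l6)
  (TrL.c (I.mix (nat_lit 8088324) (nat_lit 89478486)) T1.l7
  TrL.n)))))))) (by decide +kernel)
theorem bx2_6 : BoxOK sI cl13 cl9 cl9 t1 t1 b2_6 :=
  box_mk (TrL.c (I.pos (nat_lit 0) (nat_lit 0)) T1.l0
  (TrL.c (I.pos (nat_lit 0) (nat_lit 0)) T1.l1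
  (TrL.c (I.pos (nat_lit 0) (nat_lit 134217730)) (xR T1.l2 T1.l2)
  (TrL.c (I.pos (nat_lit 0) (nat_lit 110514882)) (xR T1.l3 T1.l3)
  (TrL.c (I.pos (nat_lit 0) (nat_lit 0)) T1.l4
  (TrL.c (I.pos (nat_lit 0) (nat_lit 0)) T1.l5
  (TrL.c (I.mix (nat_lit 8088324) (nat_lit 110514882)) (xR T1.l6 T1.l6)
  (TrL.c (I.mix (nat_lit 8088324) (nat_lit 89478486)) T1.l7
  TrL.n)))))))) (by decide +kernel)
theorem bx2_7 : BoxOK sI cl13 cl9 cl9 t1 t1 b2_7 :=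
  box_mk (TrL.c (I.pos (nat_lit 0) (nat_lit 0)) (xa T1.l0 T1.l0)
  (TrL.c (I.pos (nat_lit 0) (nat_lit 0)) T1.l1
  (TrL.c (I.pos (nat_lit 0) (nat_lit 134217730)) T1.l2
  (TrL.c (I.pos (nat_lit 0) (nat_lit 110514882)) (xR T1.l3 T1.l3)
  (TrL.c (I.pos (nat_lit 0) (nat_lit 0)) T1.l4
  (TrL.c (I.pos (nat_lit 0) (nat_lit 0)) T1.l5
  (TrL.c (I.mix (nat_lit 8088324) (nat_lit 110514882)) (xR T1.l6 T1.l6)
  (TrL.c (I.mix (nat_lit 8088324) (nat_lit 89478486)) T1.l7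
  TrL.n)))))))) (by decide +kernel)
theorem sv2 : StarV sI cl13 cl9 cl9 t1 t1 t2 :=
  (bt_n (bt_n (bt_n (bt_b bx2_0) (bt_b bx2_1)) (bt_n (bt_b bx2_2) (bt_b bx2_3))) (bt_n (bt_n (bt_b bx2_4) (bt_b bx2_5)) (bt_n (bt_b bx2_6) (bt_b bx2_7))))
def S2 : StarD := StarD.mk cl13 cl9 cl9 1 1 t2
def G : List StarD := [S0, S1, S2]
theorem so0 : StarOK sI G S0 :=
  star_mk (by decide) (by decide) rfl rfl rfl rfl rfl rfl (rfl : _ = t0) (rfl : _ = t2)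
  (st_mk (Pth.l (Pth.l (Pth.l Pth.z))) (nat_lit 115299708) (nat_lit 133693379) (by decide +kernel))
  (st_mk (Pth.l (Pth.l (Pth.l Pth.z))) (nat_lit 150342106) (nat_lit 168988904) (by decide +kernel))
  (st_mk (Pth.l (Pth.l (Pth.l Pth.z))) (nat_lit 190823435) (nat_lit 209832585) (by decide +kernel)) sv0
theorem so1 : StarOK sI G S1 :=
  star_mk (by decide) (by decide) rfl rfl rfl rfl rfl rfl (rfl : _ = t2) (rfl : _ = t0)
  (st_mk (Pth.l (Pth.l (Pth.l Pth.z))) (nat_lit 95987957) (nat_lit 114380292) (by decide +kernel))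
  (st_mk (Pth.l (Pth.l (Pth.l Pth.z))) (nat_lit 131018341) (nat_lit 149648462) (by decide +kernel))
  (st_mk (Pth.l (Pth.l (Pth.l Pth.z))) (nat_lit 171489251) (nat_lit 190468526) (by decide +kernel)) sv1
theorem so2 : StarOK sI G S2 :=
  star_mk (by decide) (by decide) rfl rfl rfl rfl rfl rfl (rfl : _ = t1) (rfl : _ = t1)
  (st_mk (Pth.l (Pth.l (Pth.l Pth.z))) (nat_lit 115089857) (nat_lit 133355911) (by decide +kernel))
  (st_mk (Pth.l (Pth.l (Pth.l Pth.z))) (nat_lit 149986467) (nat_lit 168447655) (by decide +kernel))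
  (st_mk (Pth.l (Pth.l (Pth.l Pth.z))) (nat_lit 190251785) (nat_lit 208995258) (by decide +kernel)) sv2
theorem ok : GroupOK (nat_lit 0) (nat_lit 91291648) G := grp_mk (allS_c so0 (allS_c so1 (allS_c so2 allS_n)))
theorem cov : GCov G cl9 cl9 cl13 := cov_mk
  ⟨0, by decide, rfl, rfl, rfl⟩ ⟨1, by decide, rfl, rfl, rfl⟩ ⟨0, by decide, rfl, rfl, rfl⟩ ⟨1, by decide, rfl, rfl, rfl⟩ ⟨2, by decide, rfl, rfl, rfl⟩ ⟨2, by decide, rfl, rfl, rfl⟩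
end Q556_0

namespace Q556_1
def sI : I := I.pos (nat_lit 91226112) (nat_lit 150339584)
def b0_0 : Bx := Bx.mk (St.mk (I.pos (nat_lit 155844608) (nat_lit 243499008)) (I.mix (nat_lit 3424256) (nat_lit 56639488)) (I.mix (nat_lit 5701632) (nat_lit 97009664)) (I.pos (nat_lit 107954176) (nat_lit 246693888)) (I.mix (nat_lit 95911936) (nat_lit 56115200)) (I.mix (nat_lit 73777152) (nat_lit 60620800)) (I.mix (nat_lit 104972288) (nat_lit 78249984)))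
  false (nat_lit 53959090)
def b0_1 : Bx := Bx.mk (St.mk (I.mix (nat_lit 24838144) (nat_lit 137461760)) (I.mix (nat_lit 6373376) (nat_lit 27934720)) (I.mix (nat_lit 11796480) (nat_lit 22511616)) (I.pos (nat_lit 11730944) (nat_lit 102350848)) (I.mix (nat_lit 26787840) (nat_lit 24510464)) (I.mix (nat_lit 27295744) (nat_lit 18546688)) (I.mix (nat_lit 21856256) (nat_lit 13926400)))
  false (nat_lit 0)
def b0_2 : Bx := Bx.mk (St.mk (I.pos (nat_lit 106545152) (nat_lit 155566080)) (I.mix (nat_lit 53379072) (nat_lit 8339456)) (I.mix (nat_lit 56983552) (nat_lit 5488640)) (I.pos (nat_lit 61882368) (nat_lit 125599744)) (I.mix (nat_lit 72630272) (nat_lit 25296896)) (I.mix (nat_lit 29769728) (nat_lit 65519616)) (I.mix (nat_lit 23789568) (nat_lit 56213504)))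
  false (nat_lit 0)
def b0_3 : Bx := Bx.mk (St.mk (I.mix (nat_lit 25821184) (nat_lit 95158272)) (I.mix (nat_lit 25395200) (nat_lit 4374528)) (I.mix (nat_lit 18169856) (nat_lit 2277376)) (I.pos (nat_lit 15073280) (nat_lit 68485120)) (I.mix (nat_lit 27508736) (nat_lit 11485184)) (I.mix (nat_lit 13041664) (nat_lit 24641536)) (I.mix (nat_lit 7028736) (nat_lit 13041664)))
  false (nat_lit 0)
def b0_4 : Bx := Bx.mk (St.mk (I.pos (nat_lit 197705728) (nat_lit 282705920)) (I.mix (nat_lit 19087360) (nat_lit 41369600)) (I.mix (nat_lit 55197696) (nat_lit 71286784)) (I.pos (nat_lit 192495616) (nat_lit 332726272)) (I.mix (nat_lit 71565312) (nat_lit 42319872)) (I.mix (nat_lit 56623104) (nat_lit 30785536)) (I.mix (nat_lit 84983808) (nat_lit 52887552)))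
  false (nat_lit 30151025)
def b0_5 : Bx := Bx.mk (St.mk (I.pos (nat_lit 108527616) (nat_lit 181862400)) (I.mix (nat_lit 58933248) (nat_lit 966656)) (I.mix (nat_lit 60932096) (nat_lit 524288)) (I.pos (nat_lit 77316096) (nat_lit 158613504)) (I.mix (nat_lit 70942720) (nat_lit 36126720)) (I.mix (nat_lit 38207488) (nat_lit 55787520)) (I.mix (nat_lit 31064064) (nat_lit 56344576)))
  false (nat_lit 0)
def b0_6 : Bx := Bx.mk (St.mk (I.mix (nat_lit 23986176) (nat_lit 106168320)) (I.mix (nat_lit 28819456) (nat_lit 4866048)) (I.mix (nat_lit 20922368) (nat_lit 3620864)) (I.pos (nat_lit 13369344) (nat_lit 76546048)) (I.mix (nat_lit 28311552) (nat_lit 23461888)) (I.mix (nat_lit 18219008) (nat_lit 28278784)) (I.mix (nat_lit 11583488) (nat_lit 18153472)))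
  false (nat_lit 0)
def b0_7 : Bx := Bx.mk (St.mk (I.pos (nat_lit 174047232) (nat_lit 222707712)) (I.mix (nat_lit 12861440) (nat_lit 58605568)) (I.mix (nat_lit 327680) (nat_lit 94535680)) (I.pos (nat_lit 135806976) (nat_lit 217317376)) (I.mix (nat_lit 112427008) (nat_lit 41287680)) (I.mix (nat_lit 115965952) (nat_lit 58884096)) (I.mix (nat_lit 131809280) (nat_lit 59424768)))
  false (nat_lit 16279889)
def b0_8 : Bx := Bx.mk (St.mk (I.mix (nat_lit 27623424) (nat_lit 129875968)) (I.mix (nat_lit 13533184) (nat_lit 35586048)) (I.mix (nat_lit 11288576) (nat_lit 27885568)) (I.pos (nat_lit 13697024) (nat_lit 94601216)) (I.mix (nat_lit 40992768) (nat_lit 22904832)) (I.mix (nat_lit 41713664) (nat_lit 22052864)) (I.mix (nat_lit 27361280) (nat_lit 14204928)))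
  false (nat_lit 0)
def b0_9 : Bx := Bx.mk (St.mk (I.pos (nat_lit 155697152) (nat_lit 216727552)) (I.mix (nat_lit 42188800) (nat_lit 24231936)) (I.mix (nat_lit 44122112) (nat_lit 46022656)) (I.pos (nat_lit 112852992) (nat_lit 205094912)) (I.mix (nat_lit 52740096) (nat_lit 51658752)) (I.mix (nat_lit 58654720) (nat_lit 52428800)) (I.mix (nat_lit 60964864) (nat_lit 54788096)))
  false (nat_lit 4405201)
def b0_10 : Bx := Bx.mk (St.mk (I.pos (nat_lit 173867008) (nat_lit 217677824)) (I.mix (nat_lit 15892480) (nat_lit 41385984)) (I.mix (nat_lit 4898816) (nat_lit 70680576)) (I.pos (nat_lit 136757248) (nat_lit 205684736)) (I.mix (nat_lit 108724224) (nat_lit 65568768)) (I.mix (nat_lit 127795200) (nat_lit 70959104)) (I.mix (nat_lit 146472960) (nat_lit 72073216)))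
  false (nat_lit 0)
def b0_11 : Bx := Bx.mk (St.mk (I.pos (nat_lit 185614336) (nat_lit 238469120)) (I.pos (nat_lit 13615104) (nat_lit 56295424)) (I.pos (nat_lit 24166400) (nat_lit 96419840)) (I.pos (nat_lit 178946048) (nat_lit 235339776)) (I.mix (nat_lit 91766784) (nat_lit 62947328)) (I.mix (nat_lit 83623936) (nat_lit 60030976)) (I.mix (nat_lit 129007616) (nat_lit 73662464)))
  false (nat_lit 15619137)
def t0 : BTr := (BTr.n (BTr.n (BTr.n (BTr.b b0_0) (BTr.n (BTr.b b0_1) (BTr.b b0_2))) (BTr.n (BTr.b b0_3) (BTr.n (BTr.b b0_4) (BTr.b b0_5)))) (BTr.n (BTr.n (BTr.b b0_6) (BTr.n (BTr.b b0_7) (BTr.b b0_8))) (BTr.n (BTr.b b0_9) (BTr.n (BTr.b b0_10) (BTr.b b0_11)))))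
namespace T0
def l0 : Tr := Tr.L (Pth.l (Pth.l (Pth.l Pth.z)))
def l1 : Tr := Tr.L (Pth.l (Pth.l (Pth.r (Pth.l Pth.z))))
def l2 : Tr := Tr.L (Pth.l (Pth.l (Pth.r (Pth.r Pth.z))))
def l3 : Tr := Tr.L (Pth.l (Pth.r (Pth.l Pth.z)))
def l4 : Tr := Tr.L (Pth.l (Pth.r (Pth.r (Pth.l Pth.z))))
def l5 : Tr := Tr.L (Pth.l (Pth.r (Pth.r (Pth.r Pth.z))))
def l6 : Tr := Tr.L (Pth.r (Pth.l (Pth.l Pth.z)))
def l7 : Tr := Tr.L (Pth.r (Pth.l (Pth.r (Pth.l Pth.z))))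
def l8 : Tr := Tr.L (Pth.r (Pth.l (Pth.r (Pth.r Pth.z))))
def l9 : Tr := Tr.L (Pth.r (Pth.r (Pth.l Pth.z)))
def l10 : Tr := Tr.L (Pth.r (Pth.r (Pth.r (Pth.l Pth.z))))
def l11 : Tr := Tr.L (Pth.r (Pth.r (Pth.r (Pth.r Pth.z))))
end T0
def b1_0 : Bx := Bx.mk (St.mk (I.pos (nat_lit 155779072) (nat_lit 244678656)) (I.mix (nat_lit 3162112) (nat_lit 52019200)) (I.mix (nat_lit 5685248) (nat_lit 97271808)) (I.pos (nat_lit 88522752) (nat_lit 229048320)) (I.mix (nat_lit 94846976) (nat_lit 57311232)) (I.mix (nat_lit 77070336) (nat_lit 63062016)) (I.mix (nat_lit 113803264) (nat_lit 81264640)))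
  false (nat_lit 37028747)
def b1_1 : Bx := Bx.mk (St.mk (I.pos (nat_lit 118800384) (nat_lit 188137472)) (I.mix (nat_lit 55377920) (nat_lit 557056)) (I.mix (nat_lit 55672832) (nat_lit 2129920)) (I.pos (nat_lit 68321280) (nat_lit 147570688)) (I.mix (nat_lit 67731456) (nat_lit 34029568)) (I.mix (nat_lit 37519360) (nat_lit 51314688)) (I.mix (nat_lit 31981568) (nat_lit 53313536)))
  false (nat_lit 0)
def b1_2 : Bx := Bx.mk (St.mk (I.mix (nat_lit 20250624) (nat_lit 146817024)) (I.mix (nat_lit 5685248) (nat_lit 24363008)) (I.mix (nat_lit 7913472) (nat_lit 24346624)) (I.mix (nat_lit 5783552) (nat_lit 92372992)) (I.mix (nat_lit 27443200) (nat_lit 23592960)) (I.mix (nat_lit 27099136) (nat_lit 19333120)) (I.mix (nat_lit 23625728) (nat_lit 14958592)))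
  false (nat_lit 0)
def b1_3 : Bx := Bx.mk (St.mk (I.mix (nat_lit 15400960) (nat_lit 120913920)) (I.mix (nat_lit 26148864) (nat_lit 5750784)) (I.mix (nat_lit 19267584) (nat_lit 4898816)) (I.mix (nat_lit 4423680) (nat_lit 68435968)) (I.mix (nat_lit 23412736) (nat_lit 19152896)) (I.mix (nat_lit 15417344) (nat_lit 21561344)) (I.mix (nat_lit 9486336) (nat_lit 15499264)))
  false (nat_lit 0)
def b1_4 : Bx := Bx.mk (St.mk (I.pos (nat_lit 176799744) (nat_lit 223313920)) (I.mix (nat_lit 16138240) (nat_lit 53297152)) (I.mix (nat_lit 1196032) (nat_lit 92520448)) (I.pos (nat_lit 120176640) (nat_lit 198590464)) (I.mix (nat_lit 113901568) (nat_lit 46956544)) (I.mix (nat_lit 123944960) (nat_lit 65355776)) (I.mix (nat_lit 146358272) (nat_lit 63717376)))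
  false (nat_lit 5111674)
def b1_5 : Bx := Bx.mk (St.mk (I.pos (nat_lit 116654080) (nat_lit 163201024)) (I.mix (nat_lit 49856512) (nat_lit 7716864)) (I.mix (nat_lit 53067776) (nat_lit 9109504)) (I.pos (nat_lit 51953664) (nat_lit 115572736)) (I.mix (nat_lit 71188480) (nat_lit 25509888)) (I.mix (nat_lit 28737536) (nat_lit 65880064)) (I.mix (nat_lit 25149440) (nat_lit 59326464)))
  false (nat_lit 0)
def b1_6 : Bx := Bx.mk (St.mk (I.mix (nat_lit 18333696) (nat_lit 141524992)) (I.mix (nat_lit 13762560) (nat_lit 33570816)) (I.mix (nat_lit 10485760) (nat_lit 30031872)) (I.mix (nat_lit 5390336) (nat_lit 85475328)) (I.mix (nat_lit 42729472) (nat_lit 22642688)) (I.mix (nat_lit 41074688) (nat_lit 21282816)) (I.mix (nat_lit 30572544) (nat_lit 14729216)))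
  false (nat_lit 0)
def b1_7 : Bx := Bx.mk (St.mk (I.mix (nat_lit 15400960) (nat_lit 111214592)) (I.mix (nat_lit 23019520) (nat_lit 1851392)) (I.mix (nat_lit 17170432) (nat_lit 2572288)) (I.mix (nat_lit 3981312) (nat_lit 60653568)) (I.mix (nat_lit 27017216) (nat_lit 14319616)) (I.mix (nat_lit 13533184) (nat_lit 25346048)) (I.mix (nat_lit 8077312) (nat_lit 15843328)))
  false (nat_lit 0)
def b1_8 : Bx := Bx.mk (St.mk (I.pos (nat_lit 198901760) (nat_lit 282771456)) (I.mix (nat_lit 17465344) (nat_lit 38617088)) (I.mix (nat_lit 41058304) (nat_lit 75808768)) (I.pos (nat_lit 170983424) (nat_lit 313147392)) (I.mix (nat_lit 69795840) (nat_lit 40419328)) (I.mix (nat_lit 55312384) (nat_lit 31047680)) (I.mix (nat_lit 84967424) (nat_lit 49037312)))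
  false (nat_lit 10219301)
def b1_9 : Bx := Bx.mk (St.mk (I.pos (nat_lit 156860416) (nat_lit 218988544)) (I.mix (nat_lit 41959424) (nat_lit 20824064)) (I.mix (nat_lit 42090496) (nat_lit 44728320)) (I.pos (nat_lit 99713024) (nat_lit 188465152)) (I.mix (nat_lit 50970624) (nat_lit 52215808)) (I.mix (nat_lit 57442304) (nat_lit 52396032)) (I.mix (nat_lit 60997632) (nat_lit 56180736)))
  false (nat_lit 16626967)
def b1_10 : Bx := Bx.mk (St.mk (I.pos (nat_lit 186204160) (nat_lit 240304128)) (I.pos (nat_lit 11862016) (nat_lit 52592640)) (I.pos (nat_lit 26116096) (nat_lit 97665024)) (I.pos (nat_lit 161480704) (nat_lit 218251264)) (I.mix (nat_lit 91422720) (nat_lit 65912832)) (I.mix (nat_lit 90701824) (nat_lit 62406656)) (I.mix (nat_lit 140263424) (nat_lit 77922304)))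
  false (nat_lit 18223723)
def b1_11 : Bx := Bx.mk (St.mk (I.pos (nat_lit 176947200) (nat_lit 220315648)) (I.mix (nat_lit 19939328) (nat_lit 40026112)) (I.mix (nat_lit 5799936) (nat_lit 73252864)) (I.pos (nat_lit 120848384) (nat_lit 191479808)) (I.mix (nat_lit 108183552) (nat_lit 63733760)) (I.mix (nat_lit 126255104) (nat_lit 67649536)) (I.mix (nat_lit 150257664) (nat_lit 69533696)))
  false (nat_lit 0)
def t1 : BTr := (BTr.n (BTr.n (BTr.n (BTr.b b1_0) (BTr.n (BTr.b b1_1) (BTr.b b1_2))) (BTr.n (BTr.b b1_3) (BTr.n (BTr.b b1_4) (BTr.b b1_5)))) (BTr.n (BTr.n (BTr.b b1_6) (BTr.n (BTr.b b1_7) (BTr.b b1_8))) (BTr.n (BTr.b b1_9) (BTr.n (BTr.b b1_10) (BTr.b b1_11)))))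
namespace T1
def l0 : Tr := Tr.L (Pth.l (Pth.l (Pth.l Pth.z)))
def l1 : Tr := Tr.L (Pth.l (Pth.l (Pth.r (Pth.l Pth.z))))
def l2 : Tr := Tr.L (Pth.l (Pth.l (Pth.r (Pth.r Pth.z))))
def l3 : Tr := Tr.L (Pth.l (Pth.r (Pth.l Pth.z)))
def l4 : Tr := Tr.L (Pth.l (Pth.r (Pth.r (Pth.l Pth.z))))
def l5 : Tr := Tr.L (Pth.l (Pth.r (Pth.r (Pth.r Pth.z))))
def l6 : Tr := Tr.L (Pth.r (Pth.l (Pth.l Pth.z)))
def l7 : Tr := Tr.L (Pth.r (Pth.l (Pth.r (Pth.l Pth.z))))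
def l8 : Tr := Tr.L (Pth.r (Pth.l (Pth.r (Pth.r Pth.z))))
def l9 : Tr := Tr.L (Pth.r (Pth.r (Pth.l Pth.z)))
def l10 : Tr := Tr.L (Pth.r (Pth.r (Pth.r (Pth.l Pth.z))))
def l11 : Tr := Tr.L (Pth.r (Pth.r (Pth.r (Pth.r Pth.z))))
end T1
def b2_0 : Bx := Bx.mk (St.mk (I.pos (nat_lit 155893760) (nat_lit 242827264)) (I.mix (nat_lit 3260416) (nat_lit 55623680)) (I.mix (nat_lit 5865472) (nat_lit 103596032)) (I.pos (nat_lit 107741184) (nat_lit 244908032)) (I.mix (nat_lit 101367808) (nat_lit 58097664)) (I.mix (nat_lit 82640896) (nat_lit 64421888)) (I.mix (nat_lit 114343936) (nat_lit 81215488)))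
  false (nat_lit 53080259)
def b2_1 : Bx := Bx.mk (St.mk (I.pos (nat_lit 111181824) (nat_lit 183648256)) (I.neg (nat_lit 606208) (nat_lit 59129856)) (I.mix (nat_lit 56623104) (nat_lit 5128192)) (I.pos (nat_lit 79069184) (nat_lit 160792576)) (I.mix (nat_lit 67485696) (nat_lit 35160064)) (I.mix (nat_lit 36651008) (nat_lit 51576832)) (I.mix (nat_lit 29229056) (nat_lit 51380224)))
  false (nat_lit 0)
def b2_2 : Bx := Bx.mk (St.mk (I.mix (nat_lit 22577152) (nat_lit 107364352)) (I.mix (nat_lit 28409856) (nat_lit 4833280)) (I.mix (nat_lit 18399232) (nat_lit 6586368)) (I.pos (nat_lit 13516800) (nat_lit 77037568)) (I.mix (nat_lit 26017792) (nat_lit 23674880)) (I.mix (nat_lit 17678336) (nat_lit 25837568)) (I.mix (nat_lit 10813440) (nat_lit 16171008)))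
  false (nat_lit 0)
def b2_3 : Bx := Bx.mk (St.mk (I.pos (nat_lit 173391872) (nat_lit 221396992)) (I.mix (nat_lit 13041664) (nat_lit 57688064)) (I.pos (nat_lit 4145152) (nat_lit 99532800)) (I.pos (nat_lit 133447680) (nat_lit 214040576)) (I.mix (nat_lit 114868224) (nat_lit 40370176)) (I.mix (nat_lit 116703232) (nat_lit 54149120)) (I.mix (nat_lit 137101312) (nat_lit 53280768)))
  false (nat_lit 25542129)
def b2_4 : Bx := Bx.mk (St.mk (I.mix (nat_lit 28049408) (nat_lit 129187840)) (I.mix (nat_lit 13631488) (nat_lit 35536896)) (I.mix (nat_lit 8765440) (nat_lit 30785536)) (I.pos (nat_lit 13549568) (nat_lit 94027776)) (I.mix (nat_lit 42090496) (nat_lit 21610496)) (I.mix (nat_lit 41058304) (nat_lit 21266432)) (I.mix (nat_lit 27230208) (nat_lit 13664256)))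
  false (nat_lit 0)
def b2_5 : Bx := Bx.mk (St.mk (I.pos (nat_lit 153976832) (nat_lit 215482368)) (I.mix (nat_lit 42041344) (nat_lit 21577728)) (I.mix (nat_lit 38731776) (nat_lit 48496640)) (I.pos (nat_lit 112754688) (nat_lit 199524352)) (I.mix (nat_lit 53559296) (nat_lit 53297152)) (I.mix (nat_lit 58261504) (nat_lit 53854208)) (I.mix (nat_lit 60178432) (nat_lit 56049664)))
  false (nat_lit 6954115)
def b2_6 : Bx := Bx.mk (St.mk (I.mix (nat_lit 25526272) (nat_lit 136413184)) (I.mix (nat_lit 5586944) (nat_lit 28082176)) (I.mix (nat_lit 7634944) (nat_lit 26066944)) (I.pos (nat_lit 11583488) (nat_lit 101515264)) (I.mix (nat_lit 29163520) (nat_lit 25460736)) (I.mix (nat_lit 30523392) (nat_lit 19841024)) (I.mix (nat_lit 24641536) (nat_lit 15073280)))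
  false (nat_lit 0)
def b2_7 : Bx := Bx.mk (St.mk (I.pos (nat_lit 107347968) (nat_lit 157499392)) (I.mix (nat_lit 54378496) (nat_lit 7618560)) (I.mix (nat_lit 53854208) (nat_lit 8634368)) (I.pos (nat_lit 62603264) (nat_lit 127483904)) (I.mix (nat_lit 70844416) (nat_lit 27508736)) (I.mix (nat_lit 31195136) (nat_lit 66486272)) (I.mix (nat_lit 24969216) (nat_lit 56082432)))
  false (nat_lit 0)
def b2_8 : Bx := Bx.mk (St.mk (I.pos (nat_lit 172785664) (nat_lit 219463680)) (I.mix (nat_lit 18350080) (nat_lit 40861696)) (I.mix (nat_lit 278528) (nat_lit 76365824)) (I.pos (nat_lit 133693440) (nat_lit 206946304)) (I.mix (nat_lit 109215744) (nat_lit 62488576)) (I.mix (nat_lit 126353408) (nat_lit 68534272)) (I.mix (nat_lit 145915904) (nat_lit 68435968)))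
  false (nat_lit 8095936)
def b2_9 : Bx := Bx.mk (St.mk (I.mix (nat_lit 22249472) (nat_lit 95879168)) (I.neg (nat_lit 573440) (nat_lit 25608192)) (I.mix (nat_lit 16220160) (nat_lit 4407296)) (I.pos (nat_lit 14991360) (nat_lit 68993024)) (I.mix (nat_lit 27049984) (nat_lit 16089088)) (I.mix (nat_lit 15204352) (nat_lit 26492928)) (I.mix (nat_lit 7864320) (nat_lit 13713408)))
  false (nat_lit 0)
def b2_10 : Bx := Bx.mk (St.mk (I.pos (nat_lit 195084288) (nat_lit 281296896)) (I.mix (nat_lit 15564800) (nat_lit 41189376)) (I.mix (nat_lit 37289984) (nat_lit 80150528)) (I.pos (nat_lit 187695104) (nat_lit 328335360)) (I.mix (nat_lit 71958528) (nat_lit 42811392)) (I.mix (nat_lit 57966592) (nat_lit 32079872)) (I.mix (nat_lit 87719936) (nat_lit 50020352)))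
  false (nat_lit 33451621)
def b2_11 : Bx := Bx.mk (St.mk (I.pos (nat_lit 183418880) (nat_lit 237322240)) (I.pos (nat_lit 12795904) (nat_lit 54214656)) (I.pos (nat_lit 28377088) (nat_lit 101269504)) (I.pos (nat_lit 174686208) (nat_lit 231522304)) (I.mix (nat_lit 96075776) (nat_lit 65519616)) (I.mix (nat_lit 89833472) (nat_lit 63635456)) (I.mix (nat_lit 138133504) (nat_lit 79921152)))
  false (nat_lit 24673428)
def t2 : BTr := (BTr.n (BTr.n (BTr.n (BTr.b b2_0) (BTr.n (BTr.b b2_1) (BTr.b b2_2))) (BTr.n (BTr.b b2_3) (BTr.n (BTr.b b2_4) (BTr.b b2_5)))) (BTr.n (BTr.n (BTr.b b2_6) (BTr.n (BTr.b b2_7) (BTr.b b2_8))) (BTr.n (BTr.b b2_9) (BTr.n (BTr.b b2_10) (BTr.b b2_11)))))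
namespace T2
def l0 : Tr := Tr.L (Pth.l (Pth.l (Pth.l Pth.z)))
def l1 : Tr := Tr.L (Pth.l (Pth.l (Pth.r (Pth.l Pth.z))))
def l2 : Tr := Tr.L (Pth.l (Pth.l (Pth.r (Pth.r Pth.z))))
def l3 : Tr := Tr.L (Pth.l (Pth.r (Pth.l Pth.z)))
def l4 : Tr := Tr.L (Pth.l (Pth.r (Pth.r (Pth.l Pth.z))))
def l5 : Tr := Tr.L (Pth.l (Pth.r (Pth.r (Pth.r Pth.z))))
def l6 : Tr := Tr.L (Pth.r (Pth.l (Pth.l Pth.z)))
def l7 : Tr := Tr.L (Pth.r (Pth.l (Pth.r (Pth.l Pth.z))))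
def l8 : Tr := Tr.L (Pth.r (Pth.l (Pth.r (Pth.r Pth.z))))
def l9 : Tr := Tr.L (Pth.r (Pth.r (Pth.l Pth.z)))
def l10 : Tr := Tr.L (Pth.r (Pth.r (Pth.r (Pth.l Pth.z))))
def l11 : Tr := Tr.L (Pth.r (Pth.r (Pth.r (Pth.r Pth.z))))
end T2
theorem bx0_0 : BoxOK sI cl9 cl9 cl13 t0 t2 b0_0 :=
  box_mk (TrL.c (I.pos (nat_lit 0) (nat_lit 0)) (xa T0.l0 T0.l0)
  (TrL.c (I.pos (nat_lit 0) (nat_lit 0)) T2.l1
  (TrL.c (I.pos (nat_lit 0) (nat_lit 124588530)) (xR T0.l1 T0.l1)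
  (TrL.c (I.pos (nat_lit 0) (nat_lit 96881482)) T2.l2
  (TrL.c (I.pos (nat_lit 0) (nat_lit 0)) (xa T2.l3 (xk T2.l3 T2.l3))
  (TrL.c (I.pos (nat_lit 0) (nat_lit 0)) T0.l2
  (TrL.c (I.mix (nat_lit 17240550) (nat_lit 96881482)) (xR T2.l4 T2.l4)
  (TrL.c (I.mix (nat_lit 17240550) (nat_lit 71940500)) T0.l6
  TrL.n)))))))) (by decide +kernel)
theorem bx0_1 : BoxOK sI cl9 cl9 cl13 t0 t2 b0_1 :=
  box_mk (TrL.c (I.pos (nat_lit 0) (nat_lit 0)) (xa (xa T0.l4 T0.l4) (xa T0.l4 T0.l4))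
  (TrL.c (I.pos (nat_lit 0) (nat_lit 0)) T2.l1
  (TrL.c (I.pos (nat_lit 0) (nat_lit 124588530)) T0.l1
  (TrL.c (I.pos (nat_lit 0) (nat_lit 96881482)) T2.l2
  (TrL.c (I.pos (nat_lit 0) (nat_lit 0)) T2.l5
  (TrL.c (I.pos (nat_lit 0) (nat_lit 0)) T0.l2
  (TrL.c (I.mix (nat_lit 17240550) (nat_lit 96881482)) T2.l4
  (TrL.c (I.mix (nat_lit 17240550) (nat_lit 71940500)) T0.l3
  TrL.n)))))))) (by decide +kernel)
theorem bx0_2 : BoxOK sI cl9 cl9 cl13 t0 t2 b0_2 :=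
  box_mk (TrL.c (I.pos (nat_lit 0) (nat_lit 0)) T0.l4
  (TrL.c (I.pos (nat_lit 0) (nat_lit 0)) T2.l1
  (TrL.c (I.pos (nat_lit 0) (nat_lit 124588530)) T0.l1
  (TrL.c (I.pos (nat_lit 0) (nat_lit 96881482)) T2.l2
  (TrL.c (I.pos (nat_lit 0) (nat_lit 0)) T2.l5
  (TrL.c (I.pos (nat_lit 0) (nat_lit 0)) T0.l2
  (TrL.c (I.mix (nat_lit 17240550) (nat_lit 96881482)) T2.l4
  (TrL.c (I.mix (nat_lit 17240550) (nat_lit 71940500)) T0.l3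
  TrL.n)))))))) (by decide +kernel)
theorem bx0_3 : BoxOK sI cl9 cl9 cl13 t0 t2 b0_3 :=
  box_mk (TrL.c (I.pos (nat_lit 0) (nat_lit 0)) (xa T0.l4 T0.l4)
  (TrL.c (I.pos (nat_lit 0) (nat_lit 0)) T2.l1
  (TrL.c (I.pos (nat_lit 0) (nat_lit 124588530)) T0.l1
  (TrL.c (I.pos (nat_lit 0) (nat_lit 96881482)) T2.l2
  (TrL.c (I.pos (nat_lit 0) (nat_lit 0)) T2.l5
  (TrL.c (I.pos (nat_lit 0) (nat_lit 0)) T0.l2
  (TrL.c (I.mix (nat_lit 17240550) (nat_lit 96881482)) T2.l4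
  (TrL.c (I.mix (nat_lit 17240550) (nat_lit 71940500)) T0.l3
  TrL.n)))))))) (by decide +kernel)
theorem bx0_4 : BoxOK sI cl9 cl9 cl13 t0 t2 b0_4 :=
  box_mk (TrL.c (I.pos (nat_lit 0) (nat_lit 0)) (xa T0.l0 T0.l0)
  (TrL.c (I.pos (nat_lit 0) (nat_lit 0)) T2.l1
  (TrL.c (I.pos (nat_lit 0) (nat_lit 124588530)) (xR T0.l1 T0.l8)
  (TrL.c (I.pos (nat_lit 0) (nat_lit 96881482)) (xR T2.l2 T2.l2)
  (TrL.c (I.pos (nat_lit 0) (nat_lit 0)) (xa (xb T2.l3 T2.l3) (xk (xb T2.l3 T2.l3) (xb T2.l3 T2.l3)))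
  (TrL.c (I.pos (nat_lit 0) (nat_lit 0)) T0.l2
  (TrL.c (I.mix (nat_lit 17240550) (nat_lit 96881482)) (xR T2.l4 T2.l4)
  (TrL.c (I.mix (nat_lit 17240550) (nat_lit 71940500)) T0.l6
  TrL.n)))))))) (by decide +kernel)
theorem bx0_5 : BoxOK sI cl9 cl9 cl13 t0 t2 b0_5 :=
  box_mk (TrL.c (I.pos (nat_lit 0) (nat_lit 0)) T0.l4
  (TrL.c (I.pos (nat_lit 0) (nat_lit 0)) T2.l1
  (TrL.c (I.pos (nat_lit 0) (nat_lit 124588530)) T0.l1
  (TrL.c (I.pos (nat_lit 0) (nat_lit 96881482)) T2.l2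
  (TrL.c (I.pos (nat_lit 0) (nat_lit 0)) T2.l5
  (TrL.c (I.pos (nat_lit 0) (nat_lit 0)) T0.l2
  (TrL.c (I.mix (nat_lit 17240550) (nat_lit 96881482)) T2.l4
  (TrL.c (I.mix (nat_lit 17240550) (nat_lit 71940500)) T0.l3
  TrL.n)))))))) (by decide +kernel)
theorem bx0_6 : BoxOK sI cl9 cl9 cl13 t0 t2 b0_6 :=
  box_mk (TrL.c (I.pos (nat_lit 0) (nat_lit 0)) (xa (xa T0.l4 T0.l4) T0.l4)
  (TrL.c (I.pos (nat_lit 0) (nat_lit 0)) T2.l1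
  (TrL.c (I.pos (nat_lit 0) (nat_lit 124588530)) T0.l1
  (TrL.c (I.pos (nat_lit 0) (nat_lit 96881482)) T2.l2
  (TrL.c (I.pos (nat_lit 0) (nat_lit 0)) T2.l5
  (TrL.c (I.pos (nat_lit 0) (nat_lit 0)) T0.l2
  (TrL.c (I.mix (nat_lit 17240550) (nat_lit 96881482)) T2.l4
  (TrL.c (I.mix (nat_lit 17240550) (nat_lit 71940500)) T0.l3
  TrL.n)))))))) (by decide +kernel)
theorem bx0_7 : BoxOK sI cl9 cl9 cl13 t0 t2 b0_7 :=
  box_mk (TrL.c (I.pos (nat_lit 0) (nat_lit 0)) (xb T0.l11 T0.l11)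
  (TrL.c (I.pos (nat_lit 0) (nat_lit 0)) T2.l1
  (TrL.c (I.pos (nat_lit 0) (nat_lit 124588530)) (xR T0.l1 T0.l1)
  (TrL.c (I.pos (nat_lit 0) (nat_lit 96881482)) T2.l2
  (TrL.c (I.pos (nat_lit 0) (nat_lit 0)) (xb T2.l8 (xk T2.l8 (xb T2.l8 T2.l8)))
  (TrL.c (I.pos (nat_lit 0) (nat_lit 0)) T0.l2
  (TrL.c (I.mix (nat_lit 17240550) (nat_lit 96881482)) (xR T2.l4 T2.l4)
  (TrL.c (I.mix (nat_lit 17240550) (nat_lit 71940500)) T0.l6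
  TrL.n)))))))) (by decide +kernel)
theorem bx0_8 : BoxOK sI cl9 cl9 cl13 t0 t2 b0_8 :=
  box_mk (TrL.c (I.pos (nat_lit 0) (nat_lit 0)) (xa (xa (xb T0.l4 T0.l4) T0.l4) (xa T0.l4 T0.l4))
  (TrL.c (I.pos (nat_lit 0) (nat_lit 0)) T2.l1
  (TrL.c (I.pos (nat_lit 0) (nat_lit 124588530)) T0.l1
  (TrL.c (I.pos (nat_lit 0) (nat_lit 96881482)) T2.l2
  (TrL.c (I.pos (nat_lit 0) (nat_lit 0)) (xa T2.l5 T2.l5)
  (TrL.c (I.pos (nat_lit 0) (nat_lit 0)) T0.l2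
  (TrL.c (I.mix (nat_lit 17240550) (nat_lit 96881482)) T2.l4
  (TrL.c (I.mix (nat_lit 17240550) (nat_lit 71940500)) T0.l3
  TrL.n)))))))) (by decide +kernel)
theorem bx0_9 : BoxOK sI cl9 cl9 cl13 t0 t2 b0_9 :=
  box_mk (TrL.c (I.pos (nat_lit 0) (nat_lit 0)) T0.l0
  (TrL.c (I.pos (nat_lit 0) (nat_lit 0)) T2.l1
  (TrL.c (I.pos (nat_lit 0) (nat_lit 124588530)) (xR T0.l1 T0.l1)
  (TrL.c (I.pos (nat_lit 0) (nat_lit 96881482)) T2.l2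
  (TrL.c (I.pos (nat_lit 0) (nat_lit 0)) (xb T2.l8 T2.l8)
  (TrL.c (I.pos (nat_lit 0) (nat_lit 0)) T0.l2
  (TrL.c (I.mix (nat_lit 17240550) (nat_lit 96881482)) (xR T2.l4 T2.l4)
  (TrL.c (I.mix (nat_lit 17240550) (nat_lit 71940500)) T0.l6
  TrL.n)))))))) (by decide +kernel)
theorem bx0_10 : BoxOK sI cl9 cl9 cl13 t0 t2 b0_10 :=
  box_mk (TrL.c (I.pos (nat_lit 0) (nat_lit 0)) T0.l11
  (TrL.c (I.pos (nat_lit 0) (nat_lit 0)) T2.l1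
  (TrL.c (I.pos (nat_lit 0) (nat_lit 124588530)) (xR T0.l1 T0.l8)
  (TrL.c (I.pos (nat_lit 0) (nat_lit 96881482)) T2.l2
  (TrL.c (I.pos (nat_lit 0) (nat_lit 0)) (xb T2.l8 T2.l8)
  (TrL.c (I.pos (nat_lit 0) (nat_lit 0)) T0.l2
  (TrL.c (I.mix (nat_lit 17240550) (nat_lit 96881482)) (xR T2.l4 T2.l4)
  (TrL.c (I.mix (nat_lit 17240550) (nat_lit 71940500)) T0.l6
  TrL.n)))))))) (by decide +kernel)
theorem bx0_11 : BoxOK sI cl9 cl9 cl13 t0 t2 b0_11 :=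
  box_mk (TrL.c (I.pos (nat_lit 0) (nat_lit 0)) T0.l0
  (TrL.c (I.pos (nat_lit 0) (nat_lit 0)) T2.l1
  (TrL.c (I.pos (nat_lit 0) (nat_lit 124588530)) (xR T0.l1 T0.l1)
  (TrL.c (I.pos (nat_lit 0) (nat_lit 96881482)) T2.l2
  (TrL.c (I.pos (nat_lit 0) (nat_lit 0)) (xk (xb T2.l8 T2.l8) (xb T2.l8 T2.l8))
  (TrL.c (I.pos (nat_lit 0) (nat_lit 0)) T0.l2
  (TrL.c (I.mix (nat_lit 17240550) (nat_lit 96881482)) (xR T2.l4 T2.l4)
  (TrL.c (I.mix (nat_lit 17240550) (nat_lit 71940500)) T0.l6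
  TrL.n)))))))) (by decide +kernel)
theorem sv0 : StarV sI cl9 cl9 cl13 t0 t2 t0 :=
  (bt_n (bt_n (bt_n (bt_b bx0_0) (bt_n (bt_b bx0_1) (bt_b bx0_2))) (bt_n (bt_b bx0_3) (bt_n (bt_b bx0_4) (bt_b bx0_5)))) (bt_n (bt_n (bt_b bx0_6) (bt_n (bt_b bx0_7) (bt_b bx0_8))) (bt_n (bt_b bx0_9) (bt_n (bt_b bx0_10) (bt_b bx0_11)))))
def S0 : StarD := StarD.mk cl9 cl9 cl13 0 2 t0
theorem bx1_0 : BoxOK sI cl9 cl13 cl9 t2 t0 b1_0 :=
  box_mk (TrL.c (I.pos (nat_lit 0) (nat_lit 0)) (xa T2.l0 T2.l0)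
  (TrL.c (I.pos (nat_lit 0) (nat_lit 0)) T0.l5
  (TrL.c (I.pos (nat_lit 0) (nat_lit 124588530)) (xR T2.l6 T2.l6)
  (TrL.c (I.pos (nat_lit 0) (nat_lit 96881482)) T0.l6
  (TrL.c (I.pos (nat_lit 0) (nat_lit 0)) (xa T0.l7 (xk T0.l7 T0.l7))
  (TrL.c (I.pos (nat_lit 0) (nat_lit 0)) T2.l7
  (TrL.c (I.mix (nat_lit 17240550) (nat_lit 96881482)) (xR T0.l8 T0.l8)
  (TrL.c (I.mix (nat_lit 17240550) (nat_lit 71940500)) T2.l9
  TrL.n)))))))) (by decide +kernel)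
theorem bx1_1 : BoxOK sI cl9 cl13 cl9 t2 t0 b1_1 :=
  box_mk (TrL.c (I.pos (nat_lit 0) (nat_lit 0)) T2.l10
  (TrL.c (I.pos (nat_lit 0) (nat_lit 0)) T0.l5
  (TrL.c (I.pos (nat_lit 0) (nat_lit 124588530)) T2.l6
  (TrL.c (I.pos (nat_lit 0) (nat_lit 96881482)) T0.l6
  (TrL.c (I.pos (nat_lit 0) (nat_lit 0)) T0.l9
  (TrL.c (I.pos (nat_lit 0) (nat_lit 0)) T2.l7
  (TrL.c (I.mix (nat_lit 17240550) (nat_lit 96881482)) T0.l8
  (TrL.c (I.mix (nat_lit 17240550) (nat_lit 71940500)) T2.l9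
  TrL.n)))))))) (by decide +kernel)
theorem bx1_2 : BoxOK sI cl9 cl13 cl9 t2 t0 b1_2 :=
  box_mk (TrL.c (I.pos (nat_lit 0) (nat_lit 0)) (xa (xa T2.l10 T2.l10) (xa T2.l10 T2.l10))
  (TrL.c (I.pos (nat_lit 0) (nat_lit 0)) T0.l5
  (TrL.c (I.pos (nat_lit 0) (nat_lit 124588530)) T2.l6
  (TrL.c (I.pos (nat_lit 0) (nat_lit 96881482)) T0.l6
  (TrL.c (I.pos (nat_lit 0) (nat_lit 0)) (xa T0.l9 T0.l9)
  (TrL.c (I.pos (nat_lit 0) (nat_lit 0)) T2.l7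
  (TrL.c (I.mix (nat_lit 17240550) (nat_lit 96881482)) T0.l8
  (TrL.c (I.mix (nat_lit 17240550) (nat_lit 71940500)) T2.l2
  TrL.n)))))))) (by decide +kernel)
theorem bx1_3 : BoxOK sI cl9 cl13 cl9 t2 t0 b1_3 :=
  box_mk (TrL.c (I.pos (nat_lit 0) (nat_lit 0)) (xa (xa T2.l10 T2.l10) T2.l10)
  (TrL.c (I.pos (nat_lit 0) (nat_lit 0)) T0.l5
  (TrL.c (I.pos (nat_lit 0) (nat_lit 124588530)) T2.l6
  (TrL.c (I.pos (nat_lit 0) (nat_lit 96881482)) T0.l6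
  (TrL.c (I.pos (nat_lit 0) (nat_lit 0)) T0.l9
  (TrL.c (I.pos (nat_lit 0) (nat_lit 0)) T2.l7
  (TrL.c (I.mix (nat_lit 17240550) (nat_lit 96881482)) T0.l8
  (TrL.c (I.mix (nat_lit 17240550) (nat_lit 71940500)) T2.l2
  TrL.n)))))))) (by decide +kernel)
theorem bx1_4 : BoxOK sI cl9 cl13 cl9 t2 t0 b1_4 :=
  box_mk (TrL.c (I.pos (nat_lit 0) (nat_lit 0)) (xb T2.l11 T2.l11)
  (TrL.c (I.pos (nat_lit 0) (nat_lit 0)) T0.l5
  (TrL.c (I.pos (nat_lit 0) (nat_lit 124588530)) (xR T2.l6 T2.l6)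
  (TrL.c (I.pos (nat_lit 0) (nat_lit 96881482)) T0.l6
  (TrL.c (I.pos (nat_lit 0) (nat_lit 0)) (xb T0.l10 (xb T0.l10 (xk T0.l10 T0.l10)))
  (TrL.c (I.pos (nat_lit 0) (nat_lit 0)) T2.l7
  (TrL.c (I.mix (nat_lit 17240550) (nat_lit 96881482)) (xR T0.l8 T0.l8)
  (TrL.c (I.mix (nat_lit 17240550) (nat_lit 71940500)) T2.l9
  TrL.n)))))))) (by decide +kernel)
theorem bx1_5 : BoxOK sI cl9 cl13 cl9 t2 t0 b1_5 :=
  box_mk (TrL.c (I.pos (nat_lit 0) (nat_lit 0)) T2.l10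
  (TrL.c (I.pos (nat_lit 0) (nat_lit 0)) T0.l5
  (TrL.c (I.pos (nat_lit 0) (nat_lit 124588530)) T2.l6
  (TrL.c (I.pos (nat_lit 0) (nat_lit 96881482)) T0.l6
  (TrL.c (I.pos (nat_lit 0) (nat_lit 0)) T0.l9
  (TrL.c (I.pos (nat_lit 0) (nat_lit 0)) T2.l7
  (TrL.c (I.mix (nat_lit 17240550) (nat_lit 96881482)) T0.l8
  (TrL.c (I.mix (nat_lit 17240550) (nat_lit 71940500)) T2.l9
  TrL.n)))))))) (by decide +kernel)
theorem bx1_6 : BoxOK sI cl9 cl13 cl9 t2 t0 b1_6 :=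
  box_mk (TrL.c (I.pos (nat_lit 0) (nat_lit 0)) (xa (xa (xb T2.l10 T2.l10) T2.l10) (xa T2.l10 T2.l10))
  (TrL.c (I.pos (nat_lit 0) (nat_lit 0)) T0.l5
  (TrL.c (I.pos (nat_lit 0) (nat_lit 124588530)) T2.l6
  (TrL.c (I.pos (nat_lit 0) (nat_lit 96881482)) T0.l6
  (TrL.c (I.pos (nat_lit 0) (nat_lit 0)) (xa T0.l9 T0.l9)
  (TrL.c (I.pos (nat_lit 0) (nat_lit 0)) T2.l7
  (TrL.c (I.mix (nat_lit 17240550) (nat_lit 96881482)) T0.l8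
  (TrL.c (I.mix (nat_lit 17240550) (nat_lit 71940500)) T2.l2
  TrL.n)))))))) (by decide +kernel)
theorem bx1_7 : BoxOK sI cl9 cl13 cl9 t2 t0 b1_7 :=
  box_mk (TrL.c (I.pos (nat_lit 0) (nat_lit 0)) (xa T2.l10 T2.l10)
  (TrL.c (I.pos (nat_lit 0) (nat_lit 0)) T0.l5
  (TrL.c (I.pos (nat_lit 0) (nat_lit 124588530)) T2.l6
  (TrL.c (I.pos (nat_lit 0) (nat_lit 96881482)) T0.l6
  (TrL.c (I.pos (nat_lit 0) (nat_lit 0)) T0.l9
  (TrL.c (I.pos (nat_lit 0) (nat_lit 0)) T2.l7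
  (TrL.c (I.mix (nat_lit 17240550) (nat_lit 96881482)) T0.l8
  (TrL.c (I.mix (nat_lit 17240550) (nat_lit 71940500)) T2.l2
  TrL.n)))))))) (by decide +kernel)
theorem bx1_8 : BoxOK sI cl9 cl13 cl9 t2 t0 b1_8 :=
  box_mk (TrL.c (I.pos (nat_lit 0) (nat_lit 0)) (xa T2.l0 T2.l0)
  (TrL.c (I.pos (nat_lit 0) (nat_lit 0)) T0.l5
  (TrL.c (I.pos (nat_lit 0) (nat_lit 124588530)) (xR T2.l6 T2.l4)
  (TrL.c (I.pos (nat_lit 0) (nat_lit 96881482)) (xR T0.l6 T0.l6)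
  (TrL.c (I.pos (nat_lit 0) (nat_lit 0)) (xa T0.l7 (xk (xb T0.l7 T0.l7) (xb T0.l7 T0.l7)))
  (TrL.c (I.pos (nat_lit 0) (nat_lit 0)) T2.l7
  (TrL.c (I.mix (nat_lit 17240550) (nat_lit 96881482)) (xR T0.l8 T0.l8)
  (TrL.c (I.mix (nat_lit 17240550) (nat_lit 71940500)) T2.l9
  TrL.n)))))))) (by decide +kernel)
theorem bx1_9 : BoxOK sI cl9 cl13 cl9 t2 t0 b1_9 :=
  box_mk (TrL.c (I.pos (nat_lit 0) (nat_lit 0)) T2.l0
  (TrL.c (I.pos (nat_lit 0) (nat_lit 0)) T0.l5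
  (TrL.c (I.pos (nat_lit 0) (nat_lit 124588530)) (xR T2.l6 T2.l6)
  (TrL.c (I.pos (nat_lit 0) (nat_lit 96881482)) T0.l6
  (TrL.c (I.pos (nat_lit 0) (nat_lit 0)) (xk T0.l10 T0.l10)
  (TrL.c (I.pos (nat_lit 0) (nat_lit 0)) T2.l7
  (TrL.c (I.mix (nat_lit 17240550) (nat_lit 96881482)) (xR T0.l8 T0.l8)
  (TrL.c (I.mix (nat_lit 17240550) (nat_lit 71940500)) T2.l9
  TrL.n)))))))) (by decide +kernel)
theorem bx1_10 : BoxOK sI cl9 cl13 cl9 t2 t0 b1_10 :=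
  box_mk (TrL.c (I.pos (nat_lit 0) (nat_lit 0)) T2.l0
  (TrL.c (I.pos (nat_lit 0) (nat_lit 0)) T0.l5
  (TrL.c (I.pos (nat_lit 0) (nat_lit 124588530)) (xR T2.l6 T2.l6)
  (TrL.c (I.pos (nat_lit 0) (nat_lit 96881482)) T0.l6
  (TrL.c (I.pos (nat_lit 0) (nat_lit 0)) (xk (xb T0.l10 T0.l7) (xb T0.l10 T0.l10))
  (TrL.c (I.pos (nat_lit 0) (nat_lit 0)) T2.l7
  (TrL.c (I.mix (nat_lit 17240550) (nat_lit 96881482)) (xR T0.l8 T0.l8)
  (TrL.c (I.mix (nat_lit 17240550) (nat_lit 71940500)) T2.l9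
  TrL.n)))))))) (by decide +kernel)
theorem bx1_11 : BoxOK sI cl9 cl13 cl9 t2 t0 b1_11 :=
  box_mk (TrL.c (I.pos (nat_lit 0) (nat_lit 0)) (xb T2.l11 T2.l11)
  (TrL.c (I.pos (nat_lit 0) (nat_lit 0)) T0.l5
  (TrL.c (I.pos (nat_lit 0) (nat_lit 124588530)) (xR T2.l6 T2.l6)
  (TrL.c (I.pos (nat_lit 0) (nat_lit 96881482)) T0.l6
  (TrL.c (I.pos (nat_lit 0) (nat_lit 0)) T0.l10
  (TrL.c (I.pos (nat_lit 0) (nat_lit 0)) T2.l7
  (TrL.c (I.mix (nat_lit 17240550) (nat_lit 96881482)) (xR T0.l8 T0.l8)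
  (TrL.c (I.mix (nat_lit 17240550) (nat_lit 71940500)) T2.l2
  TrL.n)))))))) (by decide +kernel)
theorem sv1 : StarV sI cl9 cl13 cl9 t2 t0 t1 :=
  (bt_n (bt_n (bt_n (bt_b bx1_0) (bt_n (bt_b bx1_1) (bt_b bx1_2))) (bt_n (bt_b bx1_3) (bt_n (bt_b bx1_4) (bt_b bx1_5)))) (bt_n (bt_n (bt_b bx1_6) (bt_n (bt_b bx1_7) (bt_b bx1_8))) (bt_n (bt_b bx1_9) (bt_n (bt_b bx1_10) (bt_b bx1_11)))))
def S1 : StarD := StarD.mk cl9 cl13 cl9 2 0 t1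
theorem bx2_0 : BoxOK sI cl13 cl9 cl9 t1 t1 b2_0 :=
  box_mk (TrL.c (I.pos (nat_lit 0) (nat_lit 0)) (xa T1.l0 T1.l0)
  (TrL.c (I.pos (nat_lit 0) (nat_lit 0)) T1.l1
  (TrL.c (I.pos (nat_lit 0) (nat_lit 134217730)) (xR T1.l2 T1.l2)
  (TrL.c (I.pos (nat_lit 0) (nat_lit 110514882)) (xR T1.l3 T1.l3)
  (TrL.c (I.pos (nat_lit 0) (nat_lit 0)) (xa T1.l4 (xk T1.l4 (xb T1.l11 T1.l11)))
  (TrL.c (I.pos (nat_lit 0) (nat_lit 0)) T1.l5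
  (TrL.c (I.mix (nat_lit 8088324) (nat_lit 110514882)) (xR T1.l6 T1.l6)
  (TrL.c (I.mix (nat_lit 8088324) (nat_lit 89478486)) T1.l7
  TrL.n)))))))) (by decide +kernel)
theorem bx2_1 : BoxOK sI cl13 cl9 cl9 t1 t1 b2_1 :=
  box_mk (TrL.c (I.pos (nat_lit 0) (nat_lit 0)) T1.l8
  (TrL.c (I.pos (nat_lit 0) (nat_lit 0)) T1.l1
  (TrL.c (I.pos (nat_lit 0) (nat_lit 134217730)) (xR T1.l2 T1.l2)
  (TrL.c (I.pos (nat_lit 0) (nat_lit 110514882)) (xR T1.l3 T1.l3)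
  (TrL.c (I.pos (nat_lit 0) (nat_lit 0)) T1.l9
  (TrL.c (I.pos (nat_lit 0) (nat_lit 0)) T1.l5
  (TrL.c (I.mix (nat_lit 8088324) (nat_lit 110514882)) T1.l6
  (TrL.c (I.mix (nat_lit 8088324) (nat_lit 89478486)) T1.l7
  TrL.n)))))))) (by decide +kernel)
theorem bx2_2 : BoxOK sI cl13 cl9 cl9 t1 t1 b2_2 :=
  box_mk (TrL.c (I.pos (nat_lit 0) (nat_lit 0)) (xa (xa T1.l8 T1.l8) T1.l8)
  (TrL.c (I.pos (nat_lit 0) (nat_lit 0)) T1.l1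
  (TrL.c (I.pos (nat_lit 0) (nat_lit 134217730)) T1.l2
  (TrL.c (I.pos (nat_lit 0) (nat_lit 110514882)) T1.l3
  (TrL.c (I.pos (nat_lit 0) (nat_lit 0)) T1.l9
  (TrL.c (I.pos (nat_lit 0) (nat_lit 0)) T1.l5
  (TrL.c (I.mix (nat_lit 8088324) (nat_lit 110514882)) T1.l6
  (TrL.c (I.mix (nat_lit 8088324) (nat_lit 89478486)) T1.l3
  TrL.n)))))))) (by decide +kernel)
theorem bx2_3 : BoxOK sI cl13 cl9 cl9 t1 t1 b2_3 :=
  box_mk (TrL.c (I.pos (nat_lit 0) (nat_lit 0)) T1.l10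
  (TrL.c (I.pos (nat_lit 0) (nat_lit 0)) T1.l1
  (TrL.c (I.pos (nat_lit 0) (nat_lit 134217730)) (xR T1.l2 T1.l2)
  (TrL.c (I.pos (nat_lit 0) (nat_lit 110514882)) (xR T1.l3 T1.l3)
  (TrL.c (I.pos (nat_lit 0) (nat_lit 0)) (xb T1.l11 (xb T1.l11 (xk T1.l11 T1.l11)))
  (TrL.c (I.pos (nat_lit 0) (nat_lit 0)) T1.l5
  (TrL.c (I.mix (nat_lit 8088324) (nat_lit 110514882)) (xR T1.l6 T1.l6)
  (TrL.c (I.mix (nat_lit 8088324) (nat_lit 89478486)) T1.l7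
  TrL.n)))))))) (by decide +kernel)
theorem bx2_4 : BoxOK sI cl13 cl9 cl9 t1 t1 b2_4 :=
  box_mk (TrL.c (I.pos (nat_lit 0) (nat_lit 0)) (xa (xa (xb T1.l8 T1.l8) T1.l8) (xa T1.l8 T1.l8))
  (TrL.c (I.pos (nat_lit 0) (nat_lit 0)) T1.l1
  (TrL.c (I.pos (nat_lit 0) (nat_lit 134217730)) T1.l2
  (TrL.c (I.pos (nat_lit 0) (nat_lit 110514882)) T1.l3
  (TrL.c (I.pos (nat_lit 0) (nat_lit 0)) T1.l9
  (TrL.c (I.pos (nat_lit 0) (nat_lit 0)) T1.l5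
  (TrL.c (I.mix (nat_lit 8088324) (nat_lit 110514882)) T1.l6
  (TrL.c (I.mix (nat_lit 8088324) (nat_lit 89478486)) T1.l3
  TrL.n)))))))) (by decide +kernel)
theorem bx2_5 : BoxOK sI cl13 cl9 cl9 t1 t1 b2_5 :=
  box_mk (TrL.c (I.pos (nat_lit 0) (nat_lit 0)) T1.l0
  (TrL.c (I.pos (nat_lit 0) (nat_lit 0)) T1.l1
  (TrL.c (I.pos (nat_lit 0) (nat_lit 134217730)) (xR T1.l2 T1.l2)
  (TrL.c (I.pos (nat_lit 0) (nat_lit 110514882)) (xR T1.l3 T1.l3)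
  (TrL.c (I.pos (nat_lit 0) (nat_lit 0)) (xa T1.l11 T1.l11)
  (TrL.c (I.pos (nat_lit 0) (nat_lit 0)) T1.l5
  (TrL.c (I.mix (nat_lit 8088324) (nat_lit 110514882)) (xR T1.l6 T1.l6)
  (TrL.c (I.mix (nat_lit 8088324) (nat_lit 89478486)) T1.l7
  TrL.n)))))))) (by decide +kernel)
theorem bx2_6 : BoxOK sI cl13 cl9 cl9 t1 t1 b2_6 :=
  box_mk (TrL.c (I.pos (nat_lit 0) (nat_lit 0)) (xa (xa T1.l8 T1.l8) (xa T1.l8 T1.l8))
  (TrL.c (I.pos (nat_lit 0) (nat_lit 0)) T1.l1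
  (TrL.c (I.pos (nat_lit 0) (nat_lit 134217730)) T1.l2
  (TrL.c (I.pos (nat_lit 0) (nat_lit 110514882)) T1.l3
  (TrL.c (I.pos (nat_lit 0) (nat_lit 0)) T1.l9
  (TrL.c (I.pos (nat_lit 0) (nat_lit 0)) T1.l5
  (TrL.c (I.mix (nat_lit 8088324) (nat_lit 110514882)) T1.l6
  (TrL.c (I.mix (nat_lit 8088324) (nat_lit 89478486)) T1.l3
  TrL.n)))))))) (by decide +kernel)
theorem bx2_7 : BoxOK sI cl13 cl9 cl9 t1 t1 b2_7 :=
  box_mk (TrL.c (I.pos (nat_lit 0) (nat_lit 0)) T1.l8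
  (TrL.c (I.pos (nat_lit 0) (nat_lit 0)) T1.l1
  (TrL.c (I.pos (nat_lit 0) (nat_lit 134217730)) T1.l2
  (TrL.c (I.pos (nat_lit 0) (nat_lit 110514882)) T1.l3
  (TrL.c (I.pos (nat_lit 0) (nat_lit 0)) T1.l9
  (TrL.c (I.pos (nat_lit 0) (nat_lit 0)) T1.l5
  (TrL.c (I.mix (nat_lit 8088324) (nat_lit 110514882)) T1.l6
  (TrL.c (I.mix (nat_lit 8088324) (nat_lit 89478486)) T1.l7
  TrL.n)))))))) (by decide +kernel)
theorem bx2_8 : BoxOK sI cl13 cl9 cl9 t1 t1 b2_8 :=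
  box_mk (TrL.c (I.pos (nat_lit 0) (nat_lit 0)) T1.l10
  (TrL.c (I.pos (nat_lit 0) (nat_lit 0)) T1.l1
  (TrL.c (I.pos (nat_lit 0) (nat_lit 134217730)) (xR T1.l2 T1.l2)
  (TrL.c (I.pos (nat_lit 0) (nat_lit 110514882)) (xR T1.l3 T1.l3)
  (TrL.c (I.pos (nat_lit 0) (nat_lit 0)) (xb T1.l11 (xk T1.l11 T1.l11))
  (TrL.c (I.pos (nat_lit 0) (nat_lit 0)) T1.l5
  (TrL.c (I.mix (nat_lit 8088324) (nat_lit 110514882)) (xR T1.l6 T1.l6)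
  (TrL.c (I.mix (nat_lit 8088324) (nat_lit 89478486)) T1.l7
  TrL.n)))))))) (by decide +kernel)
theorem bx2_9 : BoxOK sI cl13 cl9 cl9 t1 t1 b2_9 :=
  box_mk (TrL.c (I.pos (nat_lit 0) (nat_lit 0)) T1.l8
  (TrL.c (I.pos (nat_lit 0) (nat_lit 0)) T1.l1
  (TrL.c (I.pos (nat_lit 0) (nat_lit 134217730)) T1.l2
  (TrL.c (I.pos (nat_lit 0) (nat_lit 110514882)) T1.l3
  (TrL.c (I.pos (nat_lit 0) (nat_lit 0)) T1.l9
  (TrL.c (I.pos (nat_lit 0) (nat_lit 0)) T1.l5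
  (TrL.c (I.mix (nat_lit 8088324) (nat_lit 110514882)) T1.l6
  (TrL.c (I.mix (nat_lit 8088324) (nat_lit 89478486)) T1.l2
  TrL.n)))))))) (by decide +kernel)
theorem bx2_10 : BoxOK sI cl13 cl9 cl9 t1 t1 b2_10 :=
  box_mk (TrL.c (I.pos (nat_lit 0) (nat_lit 0)) (xa T1.l0 T1.l0)
  (TrL.c (I.pos (nat_lit 0) (nat_lit 0)) T1.l1
  (TrL.c (I.pos (nat_lit 0) (nat_lit 134217730)) (xR T1.l2 T1.l2)
  (TrL.c (I.pos (nat_lit 0) (nat_lit 110514882)) (xR T1.l3 T1.l3)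
  (TrL.c (I.pos (nat_lit 0) (nat_lit 0)) (xa T1.l4 (xk (xb T1.l4 T1.l4) (xb T1.l4 T1.l4)))
  (TrL.c (I.pos (nat_lit 0) (nat_lit 0)) T1.l5
  (TrL.c (I.mix (nat_lit 8088324) (nat_lit 110514882)) (xR T1.l6 T1.l6)
  (TrL.c (I.mix (nat_lit 8088324) (nat_lit 89478486)) T1.l7
  TrL.n)))))))) (by decide +kernel)
theorem bx2_11 : BoxOK sI cl13 cl9 cl9 t1 t1 b2_11 :=
  box_mk (TrL.c (I.pos (nat_lit 0) (nat_lit 0)) T1.l0
  (TrL.c (I.pos (nat_lit 0) (nat_lit 0)) T1.l1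
  (TrL.c (I.pos (nat_lit 0) (nat_lit 134217730)) (xR T1.l2 T1.l2)
  (TrL.c (I.pos (nat_lit 0) (nat_lit 110514882)) (xR T1.l3 T1.l3)
  (TrL.c (I.pos (nat_lit 0) (nat_lit 0)) (xb T1.l11 (xk T1.l11 (xa T1.l11 T1.l11)))
  (TrL.c (I.pos (nat_lit 0) (nat_lit 0)) T1.l5
  (TrL.c (I.mix (nat_lit 8088324) (nat_lit 110514882)) (xR T1.l6 T1.l6)
  (TrL.c (I.mix (nat_lit 8088324) (nat_lit 89478486)) T1.l7
  TrL.n)))))))) (by decide +kernel)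
theorem sv2 : StarV sI cl13 cl9 cl9 t1 t1 t2 :=
  (bt_n (bt_n (bt_n (bt_b bx2_0) (bt_n (bt_b bx2_1) (bt_b bx2_2))) (bt_n (bt_b bx2_3) (bt_n (bt_b bx2_4) (bt_b bx2_5)))) (bt_n (bt_n (bt_b bx2_6) (bt_n (bt_b bx2_7) (bt_b bx2_8))) (bt_n (bt_b bx2_9) (bt_n (bt_b bx2_10) (bt_b bx2_11)))))
def S2 : StarD := StarD.mk cl13 cl9 cl9 1 1 t2
def G : List StarD := [S0, S1, S2]
theorem so0 : StarOK sI G S0 :=
  star_mk (by decide) (by decide) rfl rfl rfl rfl rfl rfl (rfl : _ = t0) (rfl : _ = t2)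
  (st_mk (Pth.l (Pth.l (Pth.l Pth.z))) (nat_lit 115371372) (nat_lit 133803475) (by decide +kernel))
  (st_mk (Pth.l (Pth.l (Pth.l Pth.z))) (nat_lit 150463735) (nat_lit 169165802) (by decide +kernel))
  (st_mk (Pth.l (Pth.l (Pth.l Pth.z))) (nat_lit 191019272) (nat_lit 210106832) (by decide +kernel)) sv0
theorem so1 : StarOK sI G S1 :=
  star_mk (by decide) (by decide) rfl rfl rfl rfl rfl rfl (rfl : _ = t2) (rfl : _ = t0)
  (st_mk (Pth.l (Pth.l (Pth.l Pth.z))) (nat_lit 96041374) (nat_lit 114466210) (by decide +kernel))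
  (st_mk (Pth.l (Pth.l (Pth.l Pth.z))) (nat_lit 131117574) (nat_lit 149796520) (by decide +kernel))
  (st_mk (Pth.l (Pth.l (Pth.l Pth.z))) (nat_lit 171659078) (nat_lit 190709864) (by decide +kernel)) sv1
theorem so2 : StarOK sI G S2 :=
  star_mk (by decide) (by decide) rfl rfl rfl rfl rfl rfl (rfl : _ = t1) (rfl : _ = t1)
  (st_mk (Pth.l (Pth.l (Pth.l Pth.z))) (nat_lit 115089857) (nat_lit 133409641) (by decide +kernel))
  (st_mk (Pth.l (Pth.l (Pth.l Pth.z))) (nat_lit 149986467) (nat_lit 168533730) (by decide +kernel))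
  (st_mk (Pth.l (Pth.l (Pth.l Pth.z))) (nat_lit 190251785) (nat_lit 209128241) (by decide +kernel)) sv2
theorem ok : GroupOK (nat_lit 91226112) (nat_lit 150339584) G := grp_mk (allS_c so0 (allS_c so1 (allS_c so2 allS_n)))
theorem cov : GCov G cl9 cl9 cl13 := cov_mk
  ⟨0, by decide, rfl, rfl, rfl⟩ ⟨1, by decide, rfl, rfl, rfl⟩ ⟨0, by decide, rfl, rfl, rfl⟩ ⟨1, by decide, rfl, rfl, rfl⟩ ⟨2, by decide, rfl, rfl, rfl⟩ ⟨2, by decide, rfl, rfl, rfl⟩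
end Q556_1

namespace Q556_2
def sI : I := I.pos (nat_lit 150274048) (nat_lit 209387520)
def b0_0 : Bx := Bx.mk (St.mk (I.pos (nat_lit 158236672) (nat_lit 239796224)) (I.mix (nat_lit 1720320) (nat_lit 51363840)) (I.mix (nat_lit 2785280) (nat_lit 87588864)) (I.pos (nat_lit 111706112) (nat_lit 242630656)) (I.mix (nat_lit 96141312) (nat_lit 58507264)) (I.mix (nat_lit 66650112) (nat_lit 58048512)) (I.mix (nat_lit 97435648) (nat_lit 77299712)))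
  false (nat_lit 49110367)
def b0_1 : Bx := Bx.mk (St.mk (I.mix (nat_lit 21463040) (nat_lit 133726208)) (I.mix (nat_lit 5668864) (nat_lit 28000256)) (I.mix (nat_lit 11026432) (nat_lit 22265856)) (I.pos (nat_lit 14057472) (nat_lit 100302848)) (I.mix (nat_lit 30932992) (nat_lit 26640384)) (I.mix (nat_lit 27410432) (nat_lit 19496960)) (I.mix (nat_lit 21757952) (nat_lit 14467072)))
  false (nat_lit 0)
def b0_2 : Bx := Bx.mk (St.mk (I.pos (nat_lit 106741760) (nat_lit 150110208)) (I.mix (nat_lit 47333376) (nat_lit 6635520)) (I.mix (nat_lit 49201152) (nat_lit 3702784)) (I.pos (nat_lit 63029248) (nat_lit 117981184)) (I.mix (nat_lit 73515008) (nat_lit 26935296)) (I.mix (nat_lit 26312704) (nat_lit 62537728)) (I.mix (nat_lit 19660800) (nat_lit 52215808)))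
  false (nat_lit 0)
def b0_3 : Bx := Bx.mk (St.mk (I.mix (nat_lit 22855680) (nat_lit 92356608)) (I.mix (nat_lit 25444352) (nat_lit 3702784)) (I.mix (nat_lit 18137088) (nat_lit 1720320)) (I.pos (nat_lit 16433152) (nat_lit 67502080)) (I.mix (nat_lit 29523968) (nat_lit 13074432)) (I.mix (nat_lit 11943936) (nat_lit 22560768)) (I.mix (nat_lit 6422528) (nat_lit 11911168)))
  false (nat_lit 0)
def b0_4 : Bx := Bx.mk (St.mk (I.pos (nat_lit 194838528) (nat_lit 282361856)) (I.mix (nat_lit 19824640) (nat_lit 39387136)) (I.mix (nat_lit 56377344) (nat_lit 67469312)) (I.pos (nat_lit 189530112) (nat_lit 332201984)) (I.mix (nat_lit 72400896) (nat_lit 49446912)) (I.mix (nat_lit 51445760) (nat_lit 31866880)) (I.mix (nat_lit 81756160) (nat_lit 57901056)))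
  false (nat_lit 30609914)
def b0_5 : Bx := Bx.mk (St.mk (I.pos (nat_lit 112820224) (nat_lit 180060160)) (I.neg (nat_lit 6651904) (nat_lit 49168384)) (I.neg (nat_lit 1687552) (nat_lit 49053696)) (I.pos (nat_lit 82378752) (nat_lit 156844032)) (I.mix (nat_lit 65060864) (nat_lit 33980416)) (I.mix (nat_lit 33947648) (nat_lit 48807936)) (I.mix (nat_lit 28852224) (nat_lit 48480256)))
  false (nat_lit 0)
def b0_6 : Bx := Bx.mk (St.mk (I.mix (nat_lit 25657344) (nat_lit 103071744)) (I.mix (nat_lit 27885568) (nat_lit 4636672)) (I.mix (nat_lit 20692992) (nat_lit 3047424)) (I.pos (nat_lit 14925824) (nat_lit 75038720)) (I.mix (nat_lit 32374784) (nat_lit 26853376)) (I.mix (nat_lit 20594688) (nat_lit 27459584)) (I.mix (nat_lit 12648448) (nat_lit 17498112)))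
  false (nat_lit 0)
def b0_7 : Bx := Bx.mk (St.mk (I.pos (nat_lit 173031424) (nat_lit 217022464)) (I.mix (nat_lit 9732096) (nat_lit 49643520)) (I.pos (nat_lit 2310144) (nat_lit 82575360)) (I.pos (nat_lit 136937472) (nat_lit 210239488)) (I.mix (nat_lit 112361472) (nat_lit 40615936)) (I.mix (nat_lit 107429888) (nat_lit 54231040)) (I.mix (nat_lit 119947264) (nat_lit 55803904)))
  false (nat_lit 32256138)
def b0_8 : Bx := Bx.mk (St.mk (I.mix (nat_lit 23625728) (nat_lit 124010496)) (I.mix (nat_lit 12288000) (nat_lit 31752192)) (I.mix (nat_lit 10321920) (nat_lit 24985600)) (I.pos (nat_lit 16105472) (nat_lit 91275264)) (I.mix (nat_lit 48300032) (nat_lit 22691840)) (I.mix (nat_lit 39911424) (nat_lit 23887872)) (I.mix (nat_lit 25395200) (nat_lit 15171584)))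
  false (nat_lit 0)
def b0_9 : Bx := Bx.mk (St.mk (I.pos (nat_lit 155533312) (nat_lit 212221952)) (I.mix (nat_lit 36061184) (nat_lit 17334272)) (I.mix (nat_lit 37208064) (nat_lit 37388288)) (I.pos (nat_lit 114393088) (nat_lit 198197248)) (I.mix (nat_lit 50266112) (nat_lit 41304064)) (I.mix (nat_lit 44466176) (nat_lit 39796736)) (I.mix (nat_lit 46333952) (nat_lit 42172416)))
  false (nat_lit 0)
def b0_10 : Bx := Bx.mk (St.mk (I.pos (nat_lit 174014464) (nat_lit 213909504)) (I.mix (nat_lit 12992512) (nat_lit 31473664)) (I.mix (nat_lit 1753088) (nat_lit 57720832)) (I.pos (nat_lit 138919936) (nat_lit 201900032)) (I.mix (nat_lit 95682560) (nat_lit 50397184)) (I.mix (nat_lit 102498304) (nat_lit 45744128)) (I.mix (nat_lit 114786304) (nat_lit 46497792)))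
  false (nat_lit 0)
def b0_11 : Bx := Bx.mk (St.mk (I.pos (nat_lit 185384960) (nat_lit 235798528)) (I.pos (nat_lit 14630912) (nat_lit 52166656)) (I.pos (nat_lit 26165248) (nat_lit 89079808)) (I.pos (nat_lit 178487296) (nat_lit 234029056)) (I.mix (nat_lit 90210304) (nat_lit 62013440)) (I.mix (nat_lit 74924032) (nat_lit 52183040)) (I.mix (nat_lit 114491392) (nat_lit 62865408)))
  false (nat_lit 33055755)
def t0 : BTr := (BTr.n (BTr.n (BTr.n (BTr.b b0_0) (BTr.n (BTr.b b0_1) (BTr.b b0_2))) (BTr.n (BTr.b b0_3) (BTr.n (BTr.b b0_4) (BTr.b b0_5)))) (BTr.n (BTr.n (BTr.b b0_6) (BTr.n (BTr.b b0_7) (BTr.b b0_8))) (BTr.n (BTr.b b0_9) (BTr.n (BTr.b b0_10) (BTr.b b0_11)))))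
namespace T0
def l0 : Tr := Tr.L (Pth.l (Pth.l (Pth.l Pth.z)))
def l1 : Tr := Tr.L (Pth.l (Pth.l (Pth.r (Pth.l Pth.z))))
def l2 : Tr := Tr.L (Pth.l (Pth.l (Pth.r (Pth.r Pth.z))))
def l3 : Tr := Tr.L (Pth.l (Pth.r (Pth.l Pth.z)))
def l4 : Tr := Tr.L (Pth.l (Pth.r (Pth.r (Pth.l Pth.z))))
def l5 : Tr := Tr.L (Pth.l (Pth.r (Pth.r (Pth.r Pth.z))))
def l6 : Tr := Tr.L (Pth.r (Pth.l (Pth.l Pth.z)))
def l7 : Tr := Tr.L (Pth.r (Pth.l (Pth.r (Pth.l Pth.z))))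
def l8 : Tr := Tr.L (Pth.r (Pth.l (Pth.r (Pth.r Pth.z))))
def l9 : Tr := Tr.L (Pth.r (Pth.r (Pth.l Pth.z)))
def l10 : Tr := Tr.L (Pth.r (Pth.r (Pth.r (Pth.l Pth.z))))
def l11 : Tr := Tr.L (Pth.r (Pth.r (Pth.r (Pth.r Pth.z))))
end T0
def b1_0 : Bx := Bx.mk (St.mk (I.pos (nat_lit 158187520) (nat_lit 240910336)) (I.mix (nat_lit 1622016) (nat_lit 50348032)) (I.mix (nat_lit 2801664) (nat_lit 93487104)) (I.pos (nat_lit 92372992) (nat_lit 223510528)) (I.mix (nat_lit 104022016) (nat_lit 63438848)) (I.mix (nat_lit 75137024) (nat_lit 68239360)) (I.mix (nat_lit 106627072) (nat_lit 88162304)))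
  false (nat_lit 60628875)
def b1_1 : Bx := Bx.mk (St.mk (I.pos (nat_lit 122273792) (nat_lit 186449920)) (I.neg (nat_lit 3735552) (nat_lit 47382528)) (I.mix (nat_lit 46317568) (nat_lit 245760)) (I.pos (nat_lit 70926336) (nat_lit 145997824)) (I.mix (nat_lit 64012288) (nat_lit 31113216)) (I.mix (nat_lit 31965184) (nat_lit 45056000)) (I.mix (nat_lit 28164096) (nat_lit 46628864)))
  false (nat_lit 0)
def b1_2 : Bx := Bx.mk (St.mk (I.mix (nat_lit 16531456) (nat_lit 142884864)) (I.mix (nat_lit 4980736) (nat_lit 23265280)) (I.mix (nat_lit 7094272) (nat_lit 23003136)) (I.mix (nat_lit 3178496) (nat_lit 90079232)) (I.mix (nat_lit 32702464) (nat_lit 26148864)) (I.mix (nat_lit 25821184) (nat_lit 21626880)) (I.mix (nat_lit 22282240) (nat_lit 17039360)))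
  false (nat_lit 0)
def b1_3 : Bx := Bx.mk (St.mk (I.mix (nat_lit 13926400) (nat_lit 117669888)) (I.mix (nat_lit 25018368) (nat_lit 4538368)) (I.mix (nat_lit 18464768) (nat_lit 4259840)) (I.mix (nat_lit 2490368) (nat_lit 66682880)) (I.mix (nat_lit 28246016) (nat_lit 21364736)) (I.mix (nat_lit 17219584) (nat_lit 20676608)) (I.mix (nat_lit 10780672) (nat_lit 14712832)))
  false (nat_lit 0)
def b1_4 : Bx := Bx.mk (St.mk (I.pos (nat_lit 177160192) (nat_lit 217333760)) (I.mix (nat_lit 11108352) (nat_lit 45891584)) (I.pos (nat_lit 3604480) (nat_lit 82706432)) (I.pos (nat_lit 122126336) (nat_lit 190447616)) (I.mix (nat_lit 111214592) (nat_lit 40615936)) (I.mix (nat_lit 106905600) (nat_lit 53362688)) (I.mix (nat_lit 125321216) (nat_lit 55787520)))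
  false (nat_lit 4578550)
def b1_5 : Bx := Bx.mk (St.mk (I.pos (nat_lit 116899840) (nat_lit 158449664)) (I.mix (nat_lit 44662784) (nat_lit 6225920)) (I.mix (nat_lit 45875200) (nat_lit 7454720)) (I.pos (nat_lit 53198848) (nat_lit 108167168)) (I.mix (nat_lit 75055104) (nat_lit 26263552)) (I.mix (nat_lit 29671424) (nat_lit 65617920)) (I.mix (nat_lit 24936448) (nat_lit 58277888)))
  false (nat_lit 0)
def b1_6 : Bx := Bx.mk (St.mk (I.mix (nat_lit 14204928) (nat_lit 134823936)) (I.mix (nat_lit 12550144) (nat_lit 29835264)) (I.mix (nat_lit 9404416) (nat_lit 27131904)) (I.mix (nat_lit 2949120) (nat_lit 82083840)) (I.mix (nat_lit 48693248) (nat_lit 24002560)) (I.mix (nat_lit 40452096) (nat_lit 23871488)) (I.mix (nat_lit 29081600) (nat_lit 15630336)))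
  false (nat_lit 0)
def b1_7 : Bx := Bx.mk (St.mk (I.mix (nat_lit 8142848) (nat_lit 106561536)) (I.mix (nat_lit 22724608) (nat_lit 393216)) (I.mix (nat_lit 16891904) (nat_lit 2605056)) (I.mix (nat_lit 65536) (nat_lit 58998784)) (I.mix (nat_lit 30720000) (nat_lit 14680064)) (I.mix (nat_lit 14778368) (nat_lit 24068096)) (I.mix (nat_lit 8732672) (nat_lit 14663680)))
  false (nat_lit 0)
def b1_8 : Bx := Bx.mk (St.mk (I.pos (nat_lit 195559424) (nat_lit 281706496)) (I.mix (nat_lit 18022400) (nat_lit 36634624)) (I.mix (nat_lit 41992192) (nat_lit 71843840)) (I.pos (nat_lit 170049536) (nat_lit 312082432)) (I.mix (nat_lit 71778304) (nat_lit 45301760)) (I.mix (nat_lit 50446336) (nat_lit 32915456)) (I.mix (nat_lit 78462976) (nat_lit 53936128)))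
  false (nat_lit 44746188)
def b1_9 : Bx := Bx.mk (St.mk (I.pos (nat_lit 159481856) (nat_lit 214319104)) (I.mix (nat_lit 35438592) (nat_lit 13484032)) (I.mix (nat_lit 34357248) (nat_lit 35799040)) (I.pos (nat_lit 101203968) (nat_lit 181616640)) (I.mix (nat_lit 47251456) (nat_lit 41107456)) (I.mix (nat_lit 45678592) (nat_lit 40370176)) (I.mix (nat_lit 48562176) (nat_lit 43958272)))
  false (nat_lit 18383294)
def b1_10 : Bx := Bx.mk (St.mk (I.pos (nat_lit 185843712) (nat_lit 238944256)) (I.pos (nat_lit 7749632) (nat_lit 49299456)) (I.pos (nat_lit 19038208) (nat_lit 92372992)) (I.pos (nat_lit 161136640) (nat_lit 215990272)) (I.mix (nat_lit 89227264) (nat_lit 64339968)) (I.mix (nat_lit 79249408) (nat_lit 56655872)) (I.mix (nat_lit 118243328) (nat_lit 70451200)))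
  false (nat_lit 41355396)
def b1_11 : Bx := Bx.mk (St.mk (I.pos (nat_lit 177471488) (nat_lit 216088576)) (I.mix (nat_lit 14565376) (nat_lit 27738112)) (I.mix (nat_lit 819200) (nat_lit 56360960)) (I.pos (nat_lit 123060224) (nat_lit 183779328)) (I.mix (nat_lit 87048192) (nat_lit 53215232)) (I.mix (nat_lit 92356608) (nat_lit 46186496)) (I.mix (nat_lit 107905024) (nat_lit 47054848)))
  false (nat_lit 22323452)
def t1 : BTr := (BTr.n (BTr.n (BTr.n (BTr.b b1_0) (BTr.n (BTr.b b1_1) (BTr.b b1_2))) (BTr.n (BTr.b b1_3) (BTr.n (BTr.b b1_4) (BTr.b b1_5)))) (BTr.n (BTr.n (BTr.b b1_6) (BTr.n (BTr.b b1_7) (BTr.b b1_8))) (BTr.n (BTr.b b1_9) (BTr.n (BTr.b b1_10) (BTr.b b1_11)))))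
namespace T1
def l0 : Tr := Tr.L (Pth.l (Pth.l (Pth.l Pth.z)))
def l1 : Tr := Tr.L (Pth.l (Pth.l (Pth.r (Pth.l Pth.z))))
def l2 : Tr := Tr.L (Pth.l (Pth.l (Pth.r (Pth.r Pth.z))))
def l3 : Tr := Tr.L (Pth.l (Pth.r (Pth.l Pth.z)))
def l4 : Tr := Tr.L (Pth.l (Pth.r (Pth.r (Pth.l Pth.z))))
def l5 : Tr := Tr.L (Pth.l (Pth.r (Pth.r (Pth.r Pth.z))))
def l6 : Tr := Tr.L (Pth.r (Pth.l (Pth.l Pth.z)))
def l7 : Tr := Tr.L (Pth.r (Pth.l (Pth.r (Pth.l Pth.z))))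
def l8 : Tr := Tr.L (Pth.r (Pth.l (Pth.r (Pth.r Pth.z))))
def l9 : Tr := Tr.L (Pth.r (Pth.r (Pth.l Pth.z)))
def l10 : Tr := Tr.L (Pth.r (Pth.r (Pth.r (Pth.l Pth.z))))
def l11 : Tr := Tr.L (Pth.r (Pth.r (Pth.r (Pth.r Pth.z))))
end T1
def b2_0 : Bx := Bx.mk (St.mk (I.pos (nat_lit 158253056) (nat_lit 239910912)) (I.mix (nat_lit 1703936) (nat_lit 51216384)) (I.mix (nat_lit 2949120) (nat_lit 94519296)) (I.pos (nat_lit 111493120) (nat_lit 240107520)) (I.mix (nat_lit 103825408) (nat_lit 67141632)) (I.mix (nat_lit 74842112) (nat_lit 69435392)) (I.mix (nat_lit 112459776) (nat_lit 88735744)))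
  false (nat_lit 62728824)
def b2_1 : Bx := Bx.mk (St.mk (I.pos (nat_lit 114884608) (nat_lit 181551104)) (I.neg (nat_lit 6815744) (nat_lit 50446336)) (I.mix (nat_lit 46874624) (nat_lit 3850240)) (I.pos (nat_lit 82149376) (nat_lit 158580736)) (I.mix (nat_lit 62324736) (nat_lit 34390016)) (I.mix (nat_lit 29196288) (nat_lit 47202304)) (I.mix (nat_lit 25608192) (nat_lit 46284800)))
  false (nat_lit 0)
def b2_2 : Bx := Bx.mk (St.mk (I.mix (nat_lit 23920640) (nat_lit 104431616)) (I.mix (nat_lit 27721728) (nat_lit 4931584)) (I.mix (nat_lit 17776640) (nat_lit 6193152)) (I.pos (nat_lit 15122432) (nat_lit 75563008)) (I.mix (nat_lit 28524544) (nat_lit 25935872)) (I.mix (nat_lit 18448384) (nat_lit 26181632)) (I.mix (nat_lit 10960896) (nat_lit 16072704)))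
  false (nat_lit 0)
def b2_3 : Bx := Bx.mk (St.mk (I.pos (nat_lit 172736512) (nat_lit 215957504)) (I.mix (nat_lit 9715712) (nat_lit 48906240)) (I.pos (nat_lit 6782976) (nat_lit 87277568)) (I.pos (nat_lit 134823936) (nat_lit 206716928)) (I.mix (nat_lit 107708416) (nat_lit 35717120)) (I.mix (nat_lit 99975168) (nat_lit 48726016)) (I.mix (nat_lit 114851840) (nat_lit 47054848)))
  false (nat_lit 22228215)
def b2_4 : Bx := Bx.mk (St.mk (I.mix (nat_lit 24084480) (nat_lit 123224064)) (I.mix (nat_lit 12222464) (nat_lit 31817728)) (I.mix (nat_lit 7700480) (nat_lit 27934720)) (I.pos (nat_lit 15695872) (nat_lit 90537984)) (I.mix (nat_lit 46383104) (nat_lit 22478848)) (I.mix (nat_lit 39895040) (nat_lit 20316160)) (I.mix (nat_lit 26181632) (nat_lit 12615680)))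
  false (nat_lit 0)
def b2_5 : Bx := Bx.mk (St.mk (I.pos (nat_lit 155172864) (nat_lit 210894848)) (I.mix (nat_lit 36192256) (nat_lit 14729216)) (I.mix (nat_lit 32014336) (nat_lit 40271872)) (I.pos (nat_lit 114573312) (nat_lit 194985984)) (I.mix (nat_lit 46972928) (nat_lit 43237376)) (I.mix (nat_lit 42696704) (nat_lit 40222720)) (I.mix (nat_lit 44122112) (nat_lit 41926656)))
  false (nat_lit 24642502)
def b2_6 : Bx := Bx.mk (St.mk (I.mix (nat_lit 22282240) (nat_lit 132530176)) (I.mix (nat_lit 4931584) (nat_lit 27836416)) (I.mix (nat_lit 6914048) (nat_lit 25640960)) (I.pos (nat_lit 13844480) (nat_lit 99401728)) (I.mix (nat_lit 34865152) (nat_lit 29114368)) (I.mix (nat_lit 29343744) (nat_lit 22872064)) (I.mix (nat_lit 23478272) (nat_lit 17203200)))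
  false (nat_lit 0)
def b2_7 : Bx := Bx.mk (St.mk (I.pos (nat_lit 107593728) (nat_lit 150421504)) (I.mix (nat_lit 48119808) (nat_lit 6012928)) (I.mix (nat_lit 46170112) (nat_lit 6963200)) (I.pos (nat_lit 63881216) (nat_lit 119701504)) (I.mix (nat_lit 77086720) (nat_lit 27770880)) (I.mix (nat_lit 30392320) (nat_lit 66420736)) (I.mix (nat_lit 23330816) (nat_lit 53493760)))
  false (nat_lit 0)
def b2_8 : Bx := Bx.mk (St.mk (I.mix (nat_lit 19349504) (nat_lit 93077504)) (I.neg (nat_lit 1196032) (nat_lit 25362432)) (I.mix (nat_lit 15941632) (nat_lit 4440064)) (I.pos (nat_lit 16400384) (nat_lit 67928064)) (I.mix (nat_lit 31981568) (nat_lit 16465920)) (I.mix (nat_lit 16105472) (nat_lit 24346624)) (I.mix (nat_lit 8388608) (nat_lit 12091392)))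
  false (nat_lit 0)
def b2_9 : Bx := Bx.mk (St.mk (I.pos (nat_lit 191119360) (nat_lit 280805376)) (I.mix (nat_lit 14942208) (nat_lit 39944192)) (I.mix (nat_lit 35667968) (nat_lit 77578240)) (I.pos (nat_lit 183730176) (nat_lit 327778304)) (I.mix (nat_lit 74514432) (nat_lit 49840128)) (I.mix (nat_lit 54706176) (nat_lit 34521088)) (I.mix (nat_lit 81395712) (nat_lit 53084160)))
  false (nat_lit 56725356)
def b2_10 : Bx := Bx.mk (St.mk (I.pos (nat_lit 182386688) (nat_lit 235421696)) (I.pos (nat_lit 14024704) (nat_lit 51609600)) (I.pos (nat_lit 30588928) (nat_lit 96436224)) (I.pos (nat_lit 173785088) (nat_lit 228884480)) (I.mix (nat_lit 94748672) (nat_lit 70025216)) (I.mix (nat_lit 85049344) (nat_lit 60932096)) (I.mix (nat_lit 125550592) (nat_lit 73908224)))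
  false (nat_lit 50568455)
def b2_11 : Bx := Bx.mk (St.mk (I.pos (nat_lit 172556288) (nat_lit 213024768)) (I.mix (nat_lit 13664256) (nat_lit 30998528)) (I.pos (nat_lit 2441216) (nat_lit 63111168)) (I.pos (nat_lit 135249920) (nat_lit 199016448)) (I.mix (nat_lit 98697216) (nat_lit 51904512)) (I.mix (nat_lit 104398848) (nat_lit 45563904)) (I.mix (nat_lit 117178368) (nat_lit 44056576)))
  false (nat_lit 26639442)
def t2 : BTr := (BTr.n (BTr.n (BTr.n (BTr.b b2_0) (BTr.n (BTr.b b2_1) (BTr.b b2_2))) (BTr.n (BTr.b b2_3) (BTr.n (BTr.b b2_4) (BTr.b b2_5)))) (BTr.n (BTr.n (BTr.b b2_6) (BTr.n (BTr.b b2_7) (BTr.b b2_8))) (BTr.n (BTr.b b2_9) (BTr.n (BTr.b b2_10) (BTr.b b2_11)))))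
namespace T2
def l0 : Tr := Tr.L (Pth.l (Pth.l (Pth.l Pth.z)))
def l1 : Tr := Tr.L (Pth.l (Pth.l (Pth.r (Pth.l Pth.z))))
def l2 : Tr := Tr.L (Pth.l (Pth.l (Pth.r (Pth.r Pth.z))))
def l3 : Tr := Tr.L (Pth.l (Pth.r (Pth.l Pth.z)))
def l4 : Tr := Tr.L (Pth.l (Pth.r (Pth.r (Pth.l Pth.z))))
def l5 : Tr := Tr.L (Pth.l (Pth.r (Pth.r (Pth.r Pth.z))))
def l6 : Tr := Tr.L (Pth.r (Pth.l (Pth.l Pth.z)))
def l7 : Tr := Tr.L (Pth.r (Pth.l (Pth.r (Pth.l Pth.z))))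
def l8 : Tr := Tr.L (Pth.r (Pth.l (Pth.r (Pth.r Pth.z))))
def l9 : Tr := Tr.L (Pth.r (Pth.r (Pth.l Pth.z)))
def l10 : Tr := Tr.L (Pth.r (Pth.r (Pth.r (Pth.l Pth.z))))
def l11 : Tr := Tr.L (Pth.r (Pth.r (Pth.r (Pth.r Pth.z))))
end T2
theorem bx0_0 : BoxOK sI cl9 cl9 cl13 t0 t2 b0_0 :=
  box_mk (TrL.c (I.pos (nat_lit 0) (nat_lit 0)) (xa (xa T0.l0 T0.l0) (xa T0.l0 T0.l0))
  (TrL.c (I.pos (nat_lit 0) (nat_lit 0)) (xa (xk T2.l1 T2.l1) (xk T2.l1 T2.l1))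
  (TrL.c (I.pos (nat_lit 0) (nat_lit 124588530)) (xR T0.l1 T0.l1)
  (TrL.c (I.pos (nat_lit 0) (nat_lit 96881482)) T2.l2
  (TrL.c (I.pos (nat_lit 0) (nat_lit 0)) (xa (xk (xb T2.l11 T2.l3) (xb T2.l11 T2.l3)) (xk (xb (xa T2.l3 T2.l3) (xa T2.l3 T2.l3)) (xb (xa T2.l3 T2.l3) (xa T2.l3 T2.l3))))
  (TrL.c (I.pos (nat_lit 0) (nat_lit 0)) T0.l2
  (TrL.c (I.mix (nat_lit 17240550) (nat_lit 96881482)) (xR T2.l4 T2.l4)
  (TrL.c (I.mix (nat_lit 17240550) (nat_lit 71940500)) T0.l6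
  TrL.n)))))))) (by decide +kernel)
theorem bx0_1 : BoxOK sI cl9 cl9 cl13 t0 t2 b0_1 :=
  box_mk (TrL.c (I.pos (nat_lit 0) (nat_lit 0)) (xa (xa T0.l4 T0.l4) (xa T0.l4 T0.l4))
  (TrL.c (I.pos (nat_lit 0) (nat_lit 0)) (xa T2.l1 T2.l1)
  (TrL.c (I.pos (nat_lit 0) (nat_lit 124588530)) T0.l1
  (TrL.c (I.pos (nat_lit 0) (nat_lit 96881482)) T2.l2
  (TrL.c (I.pos (nat_lit 0) (nat_lit 0)) (xa T2.l5 T2.l5)
  (TrL.c (I.pos (nat_lit 0) (nat_lit 0)) T0.l2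
  (TrL.c (I.mix (nat_lit 17240550) (nat_lit 96881482)) T2.l4
  (TrL.c (I.mix (nat_lit 17240550) (nat_lit 71940500)) T0.l3
  TrL.n)))))))) (by decide +kernel)
theorem bx0_2 : BoxOK sI cl9 cl9 cl13 t0 t2 b0_2 :=
  box_mk (TrL.c (I.pos (nat_lit 0) (nat_lit 0)) T0.l4
  (TrL.c (I.pos (nat_lit 0) (nat_lit 0)) T2.l1
  (TrL.c (I.pos (nat_lit 0) (nat_lit 124588530)) T0.l1
  (TrL.c (I.pos (nat_lit 0) (nat_lit 96881482)) T2.l2
  (TrL.c (I.pos (nat_lit 0) (nat_lit 0)) (xb T2.l5 T2.l5)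
  (TrL.c (I.pos (nat_lit 0) (nat_lit 0)) T0.l2
  (TrL.c (I.mix (nat_lit 17240550) (nat_lit 96881482)) T2.l4
  (TrL.c (I.mix (nat_lit 17240550) (nat_lit 71940500)) T0.l3
  TrL.n)))))))) (by decide +kernel)
theorem bx0_3 : BoxOK sI cl9 cl9 cl13 t0 t2 b0_3 :=
  box_mk (TrL.c (I.pos (nat_lit 0) (nat_lit 0)) T0.l4
  (TrL.c (I.pos (nat_lit 0) (nat_lit 0)) (xa T2.l1 T2.l1)
  (TrL.c (I.pos (nat_lit 0) (nat_lit 124588530)) T0.l1
  (TrL.c (I.pos (nat_lit 0) (nat_lit 96881482)) T2.l2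
  (TrL.c (I.pos (nat_lit 0) (nat_lit 0)) (xa T2.l5 T2.l5)
  (TrL.c (I.pos (nat_lit 0) (nat_lit 0)) T0.l2
  (TrL.c (I.mix (nat_lit 17240550) (nat_lit 96881482)) T2.l4
  (TrL.c (I.mix (nat_lit 17240550) (nat_lit 71940500)) T0.l3
  TrL.n)))))))) (by decide +kernel)
theorem bx0_4 : BoxOK sI cl9 cl9 cl13 t0 t2 b0_4 :=
  box_mk (TrL.c (I.pos (nat_lit 0) (nat_lit 0)) (xa (xb T0.l0 T0.l0) (xb T0.l0 T0.l0))
  (TrL.c (I.pos (nat_lit 0) (nat_lit 0)) (xa (xk T2.l1 T2.l1) (xk (xb T2.l1 T2.l7) T2.l1))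
  (TrL.c (I.pos (nat_lit 0) (nat_lit 124588530)) (xR T0.l1 T0.l8)
  (TrL.c (I.pos (nat_lit 0) (nat_lit 96881482)) (xR T2.l2 T2.l2)
  (TrL.c (I.pos (nat_lit 0) (nat_lit 0)) (xa (xk (xb (xa T2.l11 T2.l0) T2.l3) (xb (xa T2.l11 T2.l0) T2.l3)) (xb (xk (xa (xb T2.l3 T2.l3) (xk (xb T2.l3 T2.l3) (xb T2.l3 T2.l3))) (xa (xb T2.l3 T2.l3) (xb (xk T2.l3 T2.l3) T2.l3))) (xk (xa T2.l3 (xk (xb T2.l3 T2.l3) (xb T2.l3 T2.l3))) (xa T2.l3 (xk (xb T2.l3 T2.l3) (xb T2.l3 T2.l3))))))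
  (TrL.c (I.pos (nat_lit 0) (nat_lit 0)) (xk (xa T0.l2 T0.l2) (xa T0.l2 T0.l2))
  (TrL.c (I.mix (nat_lit 17240550) (nat_lit 96881482)) (xR T2.l4 (xR T2.l4 T2.l4))
  (TrL.c (I.mix (nat_lit 17240550) (nat_lit 71940500)) T0.l6
  TrL.n)))))))) (by decide +kernel)
theorem bx0_5 : BoxOK sI cl9 cl9 cl13 t0 t2 b0_5 :=
  box_mk (TrL.c (I.pos (nat_lit 0) (nat_lit 0)) T0.l4
  (TrL.c (I.pos (nat_lit 0) (nat_lit 0)) T2.l1
  (TrL.c (I.pos (nat_lit 0) (nat_lit 124588530)) (xR T0.l1 T0.l1)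
  (TrL.c (I.pos (nat_lit 0) (nat_lit 96881482)) T2.l2
  (TrL.c (I.pos (nat_lit 0) (nat_lit 0)) (xk (xa T2.l5 T2.l5) (xa T2.l5 T2.l5))
  (TrL.c (I.pos (nat_lit 0) (nat_lit 0)) T0.l2
  (TrL.c (I.mix (nat_lit 17240550) (nat_lit 96881482)) T2.l4
  (TrL.c (I.mix (nat_lit 17240550) (nat_lit 71940500)) T0.l3
  TrL.n)))))))) (by decide +kernel)
theorem bx0_6 : BoxOK sI cl9 cl9 cl13 t0 t2 b0_6 :=
  box_mk (TrL.c (I.pos (nat_lit 0) (nat_lit 0)) (xa (xa T0.l4 T0.l4) T0.l4)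
  (TrL.c (I.pos (nat_lit 0) (nat_lit 0)) (xa T2.l1 T2.l1)
  (TrL.c (I.pos (nat_lit 0) (nat_lit 124588530)) T0.l1
  (TrL.c (I.pos (nat_lit 0) (nat_lit 96881482)) T2.l2
  (TrL.c (I.pos (nat_lit 0) (nat_lit 0)) (xa T2.l5 T2.l5)
  (TrL.c (I.pos (nat_lit 0) (nat_lit 0)) T0.l2
  (TrL.c (I.mix (nat_lit 17240550) (nat_lit 96881482)) T2.l4
  (TrL.c (I.mix (nat_lit 17240550) (nat_lit 71940500)) T0.l3
  TrL.n)))))))) (by decide +kernel)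
theorem bx0_7 : BoxOK sI cl9 cl9 cl13 t0 t2 b0_7 :=
  box_mk (TrL.c (I.pos (nat_lit 0) (nat_lit 0)) (xb T0.l11 (xa T0.l11 T0.l11))
  (TrL.c (I.pos (nat_lit 0) (nat_lit 0)) (xk T2.l1 T2.l1)
  (TrL.c (I.pos (nat_lit 0) (nat_lit 124588530)) (xR T0.l1 T0.l1)
  (TrL.c (I.pos (nat_lit 0) (nat_lit 96881482)) T2.l2
  (TrL.c (I.pos (nat_lit 0) (nat_lit 0)) (xk (xb T2.l11 T2.l11) (xb T2.l11 (xb T2.l11 (xa T2.l3 T2.l3))))
  (TrL.c (I.pos (nat_lit 0) (nat_lit 0)) T0.l2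
  (TrL.c (I.mix (nat_lit 17240550) (nat_lit 96881482)) (xR T2.l4 T2.l4)
  (TrL.c (I.mix (nat_lit 17240550) (nat_lit 71940500)) T0.l6
  TrL.n)))))))) (by decide +kernel)
theorem bx0_8 : BoxOK sI cl9 cl9 cl13 t0 t2 b0_8 :=
  box_mk (TrL.c (I.pos (nat_lit 0) (nat_lit 0)) (xa (xa (xb T0.l4 T0.l4) T0.l4) (xa T0.l4 T0.l4))
  (TrL.c (I.pos (nat_lit 0) (nat_lit 0)) (xa T2.l1 T2.l1)
  (TrL.c (I.pos (nat_lit 0) (nat_lit 124588530)) T0.l1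
  (TrL.c (I.pos (nat_lit 0) (nat_lit 96881482)) T2.l2
  (TrL.c (I.pos (nat_lit 0) (nat_lit 0)) (xa T2.l5 T2.l5)
  (TrL.c (I.pos (nat_lit 0) (nat_lit 0)) T0.l2
  (TrL.c (I.mix (nat_lit 17240550) (nat_lit 96881482)) T2.l4
  (TrL.c (I.mix (nat_lit 17240550) (nat_lit 71940500)) T0.l3
  TrL.n)))))))) (by decide +kernel)
theorem bx0_9 : BoxOK sI cl9 cl9 cl13 t0 t2 b0_9 :=
  box_mk (TrL.c (I.pos (nat_lit 0) (nat_lit 0)) T0.l0
  (TrL.c (I.pos (nat_lit 0) (nat_lit 0)) T2.l1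
  (TrL.c (I.pos (nat_lit 0) (nat_lit 124588530)) (xR T0.l1 T0.l1)
  (TrL.c (I.pos (nat_lit 0) (nat_lit 96881482)) T2.l2
  (TrL.c (I.pos (nat_lit 0) (nat_lit 0)) (xk (xb (xa T2.l11 T2.l11) T2.l11) (xa T2.l11 (xb T2.l11 T2.l11)))
  (TrL.c (I.pos (nat_lit 0) (nat_lit 0)) T0.l2
  (TrL.c (I.mix (nat_lit 17240550) (nat_lit 96881482)) (xR T2.l4 T2.l4)
  (TrL.c (I.mix (nat_lit 17240550) (nat_lit 71940500)) T0.l3
  TrL.n)))))))) (by decide +kernel)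
theorem bx0_10 : BoxOK sI cl9 cl9 cl13 t0 t2 b0_10 :=
  box_mk (TrL.c (I.pos (nat_lit 0) (nat_lit 0)) T0.l11
  (TrL.c (I.pos (nat_lit 0) (nat_lit 0)) T2.l1
  (TrL.c (I.pos (nat_lit 0) (nat_lit 124588530)) (xR T0.l1 T0.l1)
  (TrL.c (I.pos (nat_lit 0) (nat_lit 96881482)) T2.l2
  (TrL.c (I.pos (nat_lit 0) (nat_lit 0)) (xk (xb T2.l11 T2.l11) T2.l11)
  (TrL.c (I.pos (nat_lit 0) (nat_lit 0)) T0.l2
  (TrL.c (I.mix (nat_lit 17240550) (nat_lit 96881482)) (xR T2.l4 T2.l4)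
  (TrL.c (I.mix (nat_lit 17240550) (nat_lit 71940500)) T0.l6
  TrL.n)))))))) (by decide +kernel)
theorem bx0_11 : BoxOK sI cl9 cl9 cl13 t0 t2 b0_11 :=
  box_mk (TrL.c (I.pos (nat_lit 0) (nat_lit 0)) (xa T0.l0 T0.l0)
  (TrL.c (I.pos (nat_lit 0) (nat_lit 0)) (xk T2.l1 T2.l1)
  (TrL.c (I.pos (nat_lit 0) (nat_lit 124588530)) (xR T0.l1 T0.l1)
  (TrL.c (I.pos (nat_lit 0) (nat_lit 96881482)) T2.l2
  (TrL.c (I.pos (nat_lit 0) (nat_lit 0)) (xk (xa T2.l3 T2.l3) (xa T2.l3 (xb T2.l3 T2.l3)))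
  (TrL.c (I.pos (nat_lit 0) (nat_lit 0)) T0.l2
  (TrL.c (I.mix (nat_lit 17240550) (nat_lit 96881482)) (xR T2.l4 T2.l4)
  (TrL.c (I.mix (nat_lit 17240550) (nat_lit 71940500)) T0.l6
  TrL.n)))))))) (by decide +kernel)
theorem sv0 : StarV sI cl9 cl9 cl13 t0 t2 t0 :=
  (bt_n (bt_n (bt_n (bt_b bx0_0) (bt_n (bt_b bx0_1) (bt_b bx0_2))) (bt_n (bt_b bx0_3) (bt_n (bt_b bx0_4) (bt_b bx0_5)))) (bt_n (bt_n (bt_b bx0_6) (bt_n (bt_b bx0_7) (bt_b bx0_8))) (bt_n (bt_b bx0_9) (bt_n (bt_b bx0_10) (bt_b bx0_11)))))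
def S0 : StarD := StarD.mk cl9 cl9 cl13 0 2 t0
theorem bx1_0 : BoxOK sI cl9 cl13 cl9 t2 t0 b1_0 :=
  box_mk (TrL.c (I.pos (nat_lit 0) (nat_lit 0)) (xa (xa T2.l0 T2.l0) (xa T2.l0 T2.l0))
  (TrL.c (I.pos (nat_lit 0) (nat_lit 0)) (xa (xk T0.l5 T0.l5) (xk (xb T0.l5 T0.l5) T0.l5))
  (TrL.c (I.pos (nat_lit 0) (nat_lit 124588530)) (xR T2.l6 T2.l6)
  (TrL.c (I.pos (nat_lit 0) (nat_lit 96881482)) T0.l6
  (TrL.c (I.pos (nat_lit 0) (nat_lit 0)) (xa (xk (xb T0.l7 T0.l7) (xb T0.l7 T0.l7)) (xk (xb (xa T0.l7 T0.l7) (xa T0.l7 (xb T0.l7 T0.l7))) (xb (xa T0.l7 T0.l7) (xa T0.l7 (xb T0.l7 (xs T0.l7 T0.l7))))))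
  (TrL.c (I.pos (nat_lit 0) (nat_lit 0)) T2.l7
  (TrL.c (I.mix (nat_lit 17240550) (nat_lit 96881482)) (xR T0.l8 T0.l8)
  (TrL.c (I.mix (nat_lit 17240550) (nat_lit 71940500)) T2.l8
  TrL.n)))))))) (by decide +kernel)
theorem bx1_1 : BoxOK sI cl9 cl13 cl9 t2 t0 b1_1 :=
  box_mk (TrL.c (I.pos (nat_lit 0) (nat_lit 0)) T2.l9
  (TrL.c (I.pos (nat_lit 0) (nat_lit 0)) (xa T0.l5 T0.l5)
  (TrL.c (I.pos (nat_lit 0) (nat_lit 124588530)) (xR T2.l6 T2.l6)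
  (TrL.c (I.pos (nat_lit 0) (nat_lit 96881482)) T0.l6
  (TrL.c (I.pos (nat_lit 0) (nat_lit 0)) (xk (xa T0.l9 T0.l9) (xa T0.l9 T0.l9))
  (TrL.c (I.pos (nat_lit 0) (nat_lit 0)) T2.l7
  (TrL.c (I.mix (nat_lit 17240550) (nat_lit 96881482)) (xR T0.l8 T0.l8)
  (TrL.c (I.mix (nat_lit 17240550) (nat_lit 71940500)) T2.l2
  TrL.n)))))))) (by decide +kernel)
theorem bx1_2 : BoxOK sI cl9 cl13 cl9 t2 t0 b1_2 :=
  box_mk (TrL.c (I.pos (nat_lit 0) (nat_lit 0)) (xa (xa T2.l9 T2.l9) (xa T2.l9 T2.l9))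
  (TrL.c (I.pos (nat_lit 0) (nat_lit 0)) (xa T0.l5 T0.l5)
  (TrL.c (I.pos (nat_lit 0) (nat_lit 124588530)) T2.l6
  (TrL.c (I.pos (nat_lit 0) (nat_lit 96881482)) T0.l6
  (TrL.c (I.pos (nat_lit 0) (nat_lit 0)) (xa T0.l9 T0.l9)
  (TrL.c (I.pos (nat_lit 0) (nat_lit 0)) T2.l7
  (TrL.c (I.mix (nat_lit 17240550) (nat_lit 96881482)) T0.l8
  (TrL.c (I.mix (nat_lit 17240550) (nat_lit 71940500)) T2.l2
  TrL.n)))))))) (by decide +kernel)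
theorem bx1_3 : BoxOK sI cl9 cl13 cl9 t2 t0 b1_3 :=
  box_mk (TrL.c (I.pos (nat_lit 0) (nat_lit 0)) (xa (xa T2.l9 T2.l9) T2.l9)
  (TrL.c (I.pos (nat_lit 0) (nat_lit 0)) (xa T0.l5 T0.l5)
  (TrL.c (I.pos (nat_lit 0) (nat_lit 124588530)) T2.l6
  (TrL.c (I.pos (nat_lit 0) (nat_lit 96881482)) T0.l6
  (TrL.c (I.pos (nat_lit 0) (nat_lit 0)) (xa T0.l9 T0.l9)
  (TrL.c (I.pos (nat_lit 0) (nat_lit 0)) T2.l7
  (TrL.c (I.mix (nat_lit 17240550) (nat_lit 96881482)) T0.l8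
  (TrL.c (I.mix (nat_lit 17240550) (nat_lit 71940500)) T2.l2
  TrL.n)))))))) (by decide +kernel)
theorem bx1_4 : BoxOK sI cl9 cl13 cl9 t2 t0 b1_4 :=
  box_mk (TrL.c (I.pos (nat_lit 0) (nat_lit 0)) (xb (xb T2.l10 T2.l10) T2.l10)
  (TrL.c (I.pos (nat_lit 0) (nat_lit 0)) (xk T0.l5 T0.l5)
  (TrL.c (I.pos (nat_lit 0) (nat_lit 124588530)) (xR T2.l6 T2.l6)
  (TrL.c (I.pos (nat_lit 0) (nat_lit 96881482)) T0.l6
  (TrL.c (I.pos (nat_lit 0) (nat_lit 0)) (xk (xb T0.l10 T0.l10) (xb T0.l10 T0.l10))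
  (TrL.c (I.pos (nat_lit 0) (nat_lit 0)) T2.l7
  (TrL.c (I.mix (nat_lit 17240550) (nat_lit 96881482)) (xR T0.l8 T0.l8)
  (TrL.c (I.mix (nat_lit 17240550) (nat_lit 71940500)) T2.l2
  TrL.n)))))))) (by decide +kernel)
theorem bx1_5 : BoxOK sI cl9 cl13 cl9 t2 t0 b1_5 :=
  box_mk (TrL.c (I.pos (nat_lit 0) (nat_lit 0)) T2.l9
  (TrL.c (I.pos (nat_lit 0) (nat_lit 0)) T0.l5
  (TrL.c (I.pos (nat_lit 0) (nat_lit 124588530)) T2.l6
  (TrL.c (I.pos (nat_lit 0) (nat_lit 96881482)) T0.l6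
  (TrL.c (I.pos (nat_lit 0) (nat_lit 0)) (xk T0.l9 T0.l9)
  (TrL.c (I.pos (nat_lit 0) (nat_lit 0)) T2.l7
  (TrL.c (I.mix (nat_lit 17240550) (nat_lit 96881482)) T0.l8
  (TrL.c (I.mix (nat_lit 17240550) (nat_lit 71940500)) T2.l2
  TrL.n)))))))) (by decide +kernel)
theorem bx1_6 : BoxOK sI cl9 cl13 cl9 t2 t0 b1_6 :=
  box_mk (TrL.c (I.pos (nat_lit 0) (nat_lit 0)) (xa (xa (xb T2.l9 T2.l9) T2.l9) (xa T2.l9 T2.l9))
  (TrL.c (I.pos (nat_lit 0) (nat_lit 0)) (xa T0.l5 T0.l5)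
  (TrL.c (I.pos (nat_lit 0) (nat_lit 124588530)) T2.l6
  (TrL.c (I.pos (nat_lit 0) (nat_lit 96881482)) T0.l6
  (TrL.c (I.pos (nat_lit 0) (nat_lit 0)) (xa T0.l9 T0.l9)
  (TrL.c (I.pos (nat_lit 0) (nat_lit 0)) T2.l7
  (TrL.c (I.mix (nat_lit 17240550) (nat_lit 96881482)) T0.l8
  (TrL.c (I.mix (nat_lit 17240550) (nat_lit 71940500)) T2.l2
  TrL.n)))))))) (by decide +kernel)
theorem bx1_7 : BoxOK sI cl9 cl13 cl9 t2 t0 b1_7 :=
  box_mk (TrL.c (I.pos (nat_lit 0) (nat_lit 0)) T2.l9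
  (TrL.c (I.pos (nat_lit 0) (nat_lit 0)) (xa T0.l5 T0.l5)
  (TrL.c (I.pos (nat_lit 0) (nat_lit 124588530)) T2.l6
  (TrL.c (I.pos (nat_lit 0) (nat_lit 96881482)) T0.l6
  (TrL.c (I.pos (nat_lit 0) (nat_lit 0)) (xa T0.l9 T0.l9)
  (TrL.c (I.pos (nat_lit 0) (nat_lit 0)) T2.l7
  (TrL.c (I.mix (nat_lit 17240550) (nat_lit 96881482)) T0.l8
  (TrL.c (I.mix (nat_lit 17240550) (nat_lit 71940500)) T2.l2
  TrL.n)))))))) (by decide +kernel)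
theorem bx1_8 : BoxOK sI cl9 cl13 cl9 t2 t0 b1_8 :=
  box_mk (TrL.c (I.pos (nat_lit 0) (nat_lit 0)) (xa T2.l0 T2.l0)
  (TrL.c (I.pos (nat_lit 0) (nat_lit 0)) (xa (xk T0.l5 T0.l5) (xk (xb T0.l5 T0.l5) (xb T0.l2 T0.l2)))
  (TrL.c (I.pos (nat_lit 0) (nat_lit 124588530)) (xR T2.l6 T2.l4)
  (TrL.c (I.pos (nat_lit 0) (nat_lit 96881482)) (xR T0.l6 T0.l6)
  (TrL.c (I.pos (nat_lit 0) (nat_lit 0)) (xa (xk (xb T0.l7 T0.l7) (xb T0.l7 T0.l7)) (xk (xb (xa T0.l7 (xk (xb T0.l7 T0.l7) T0.l7)) (xa T0.l7 (xk (xb T0.l7 T0.l7) (xb T0.l7 T0.l7)))) (xb (xa T0.l7 (xk T0.l7 (xb T0.l7 T0.l7))) (xa T0.l7 (xk (xb T0.l7 T0.l7) (xb T0.l7 T0.l7))))))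
  (TrL.c (I.pos (nat_lit 0) (nat_lit 0)) (xk (xa T2.l7 T2.l7) (xa T2.l7 T2.l7))
  (TrL.c (I.mix (nat_lit 17240550) (nat_lit 96881482)) (xR T0.l8 (xR T0.l8 T0.l8))
  (TrL.c (I.mix (nat_lit 17240550) (nat_lit 71940500)) T2.l8
  TrL.n)))))))) (by decide +kernel)
theorem bx1_9 : BoxOK sI cl9 cl13 cl9 t2 t0 b1_9 :=
  box_mk (TrL.c (I.pos (nat_lit 0) (nat_lit 0)) T2.l0
  (TrL.c (I.pos (nat_lit 0) (nat_lit 0)) T0.l5
  (TrL.c (I.pos (nat_lit 0) (nat_lit 124588530)) (xR T2.l6 T2.l6)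
  (TrL.c (I.pos (nat_lit 0) (nat_lit 96881482)) T0.l6
  (TrL.c (I.pos (nat_lit 0) (nat_lit 0)) (xk (xa T0.l10 (xb T0.l10 T0.l10)) (xa T0.l10 (xb T0.l10 T0.l10)))
  (TrL.c (I.pos (nat_lit 0) (nat_lit 0)) T2.l7
  (TrL.c (I.mix (nat_lit 17240550) (nat_lit 96881482)) (xR T0.l8 T0.l8)
  (TrL.c (I.mix (nat_lit 17240550) (nat_lit 71940500)) T2.l8
  TrL.n)))))))) (by decide +kernel)
theorem bx1_10 : BoxOK sI cl9 cl13 cl9 t2 t0 b1_10 :=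
  box_mk (TrL.c (I.pos (nat_lit 0) (nat_lit 0)) (xa T2.l0 T2.l0)
  (TrL.c (I.pos (nat_lit 0) (nat_lit 0)) (xk (xa T0.l5 T0.l5) (xa T0.l5 T0.l5))
  (TrL.c (I.pos (nat_lit 0) (nat_lit 124588530)) (xR T2.l6 T2.l6)
  (TrL.c (I.pos (nat_lit 0) (nat_lit 96881482)) T0.l6
  (TrL.c (I.pos (nat_lit 0) (nat_lit 0)) (xk (xa T0.l7 (xb T0.l7 T0.l7)) (xa T0.l7 (xb T0.l7 (xb T0.l7 (xs T0.l7 T0.l7)))))
  (TrL.c (I.pos (nat_lit 0) (nat_lit 0)) T2.l7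
  (TrL.c (I.mix (nat_lit 17240550) (nat_lit 96881482)) (xR T0.l8 T0.l8)
  (TrL.c (I.mix (nat_lit 17240550) (nat_lit 71940500)) T2.l8
  TrL.n)))))))) (by decide +kernel)
theorem bx1_11 : BoxOK sI cl9 cl13 cl9 t2 t0 b1_11 :=
  box_mk (TrL.c (I.pos (nat_lit 0) (nat_lit 0)) T2.l10
  (TrL.c (I.pos (nat_lit 0) (nat_lit 0)) T0.l5
  (TrL.c (I.pos (nat_lit 0) (nat_lit 124588530)) (xR T2.l6 T2.l6)
  (TrL.c (I.pos (nat_lit 0) (nat_lit 96881482)) T0.l6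
  (TrL.c (I.pos (nat_lit 0) (nat_lit 0)) (xk (xb T0.l10 T0.l10) (xb T0.l10 T0.l10))
  (TrL.c (I.pos (nat_lit 0) (nat_lit 0)) T2.l7
  (TrL.c (I.mix (nat_lit 17240550) (nat_lit 96881482)) (xR T0.l8 T0.l8)
  (TrL.c (I.mix (nat_lit 17240550) (nat_lit 71940500)) T2.l8
  TrL.n)))))))) (by decide +kernel)
theorem sv1 : StarV sI cl9 cl13 cl9 t2 t0 t1 :=
  (bt_n (bt_n (bt_n (bt_b bx1_0) (bt_n (bt_b bx1_1) (bt_b bx1_2))) (bt_n (bt_b bx1_3) (bt_n (bt_b bx1_4) (bt_b bx1_5)))) (bt_n (bt_n (bt_b bx1_6) (bt_n (bt_b bx1_7) (bt_b bx1_8))) (bt_n (bt_b bx1_9) (bt_n (bt_b bx1_10) (bt_b bx1_11)))))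
def S1 : StarD := StarD.mk cl9 cl13 cl9 2 0 t1
theorem bx2_0 : BoxOK sI cl13 cl9 cl9 t1 t1 b2_0 :=
  box_mk (TrL.c (I.pos (nat_lit 0) (nat_lit 0)) (xa (xb T1.l0 T1.l0) (xb T1.l0 T1.l0))
  (TrL.c (I.pos (nat_lit 0) (nat_lit 0)) (xa (xk T1.l1 T1.l1) (xk T1.l1 T1.l1))
  (TrL.c (I.pos (nat_lit 0) (nat_lit 134217730)) (xR T1.l2 T1.l2)
  (TrL.c (I.pos (nat_lit 0) (nat_lit 110514882)) (xR T1.l3 T1.l3)
  (TrL.c (I.pos (nat_lit 0) (nat_lit 0)) (xa (xk (xb T1.l4 T1.l4) (xb T1.l4 T1.l4)) (xk (xb (xa T1.l4 T1.l4) (xa T1.l4 T1.l4)) (xb (xa T1.l4 T1.l4) (xa T1.l4 (xb T1.l4 (xs T1.l4 T1.l4))))))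
  (TrL.c (I.pos (nat_lit 0) (nat_lit 0)) T1.l5
  (TrL.c (I.mix (nat_lit 8088324) (nat_lit 110514882)) (xR T1.l6 T1.l6)
  (TrL.c (I.mix (nat_lit 8088324) (nat_lit 89478486)) T1.l7
  TrL.n)))))))) (by decide +kernel)
theorem bx2_1 : BoxOK sI cl13 cl9 cl9 t1 t1 b2_1 :=
  box_mk (TrL.c (I.pos (nat_lit 0) (nat_lit 0)) T1.l8
  (TrL.c (I.pos (nat_lit 0) (nat_lit 0)) T1.l1
  (TrL.c (I.pos (nat_lit 0) (nat_lit 134217730)) (xR T1.l2 T1.l2)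
  (TrL.c (I.pos (nat_lit 0) (nat_lit 110514882)) (xR T1.l3 T1.l3)
  (TrL.c (I.pos (nat_lit 0) (nat_lit 0)) (xk (xa T1.l9 T1.l9) (xa T1.l9 T1.l9))
  (TrL.c (I.pos (nat_lit 0) (nat_lit 0)) T1.l5
  (TrL.c (I.mix (nat_lit 8088324) (nat_lit 110514882)) T1.l6
  (TrL.c (I.mix (nat_lit 8088324) (nat_lit 89478486)) T1.l7
  TrL.n)))))))) (by decide +kernel)
theorem bx2_2 : BoxOK sI cl13 cl9 cl9 t1 t1 b2_2 :=
  box_mk (TrL.c (I.pos (nat_lit 0) (nat_lit 0)) (xa (xa T1.l8 T1.l8) T1.l8)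
  (TrL.c (I.pos (nat_lit 0) (nat_lit 0)) (xa T1.l1 T1.l1)
  (TrL.c (I.pos (nat_lit 0) (nat_lit 134217730)) T1.l2
  (TrL.c (I.pos (nat_lit 0) (nat_lit 110514882)) (xR T1.l3 T1.l3)
  (TrL.c (I.pos (nat_lit 0) (nat_lit 0)) (xa T1.l9 T1.l9)
  (TrL.c (I.pos (nat_lit 0) (nat_lit 0)) T1.l5
  (TrL.c (I.mix (nat_lit 8088324) (nat_lit 110514882)) T1.l6
  (TrL.c (I.mix (nat_lit 8088324) (nat_lit 89478486)) T1.l3
  TrL.n)))))))) (by decide +kernel)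
theorem bx2_3 : BoxOK sI cl13 cl9 cl9 t1 t1 b2_3 :=
  box_mk (TrL.c (I.pos (nat_lit 0) (nat_lit 0)) (xb T1.l10 T1.l10)
  (TrL.c (I.pos (nat_lit 0) (nat_lit 0)) (xk T1.l1 T1.l1)
  (TrL.c (I.pos (nat_lit 0) (nat_lit 134217730)) (xR T1.l2 T1.l2)
  (TrL.c (I.pos (nat_lit 0) (nat_lit 110514882)) (xR T1.l3 T1.l3)
  (TrL.c (I.pos (nat_lit 0) (nat_lit 0)) (xk (xb T1.l11 T1.l4) (xb T1.l11 (xb T1.l4 T1.l4)))
  (TrL.c (I.pos (nat_lit 0) (nat_lit 0)) T1.l5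
  (TrL.c (I.mix (nat_lit 8088324) (nat_lit 110514882)) (xR T1.l6 T1.l6)
  (TrL.c (I.mix (nat_lit 8088324) (nat_lit 89478486)) T1.l7
  TrL.n)))))))) (by decide +kernel)
theorem bx2_4 : BoxOK sI cl13 cl9 cl9 t1 t1 b2_4 :=
  box_mk (TrL.c (I.pos (nat_lit 0) (nat_lit 0)) (xa (xa (xb T1.l8 T1.l8) T1.l8) (xa T1.l8 T1.l8))
  (TrL.c (I.pos (nat_lit 0) (nat_lit 0)) (xa T1.l1 T1.l1)
  (TrL.c (I.pos (nat_lit 0) (nat_lit 134217730)) T1.l2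
  (TrL.c (I.pos (nat_lit 0) (nat_lit 110514882)) T1.l3
  (TrL.c (I.pos (nat_lit 0) (nat_lit 0)) (xa T1.l9 T1.l9)
  (TrL.c (I.pos (nat_lit 0) (nat_lit 0)) T1.l5
  (TrL.c (I.mix (nat_lit 8088324) (nat_lit 110514882)) T1.l6
  (TrL.c (I.mix (nat_lit 8088324) (nat_lit 89478486)) T1.l3
  TrL.n)))))))) (by decide +kernel)
theorem bx2_5 : BoxOK sI cl13 cl9 cl9 t1 t1 b2_5 :=
  box_mk (TrL.c (I.pos (nat_lit 0) (nat_lit 0)) T1.l0
  (TrL.c (I.pos (nat_lit 0) (nat_lit 0)) T1.l1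
  (TrL.c (I.pos (nat_lit 0) (nat_lit 134217730)) (xR T1.l2 T1.l2)
  (TrL.c (I.pos (nat_lit 0) (nat_lit 110514882)) (xR T1.l3 T1.l3)
  (TrL.c (I.pos (nat_lit 0) (nat_lit 0)) (xk (xa T1.l11 (xb T1.l4 T1.l11)) (xa T1.l11 T1.l11))
  (TrL.c (I.pos (nat_lit 0) (nat_lit 0)) T1.l5
  (TrL.c (I.mix (nat_lit 8088324) (nat_lit 110514882)) T1.l6
  (TrL.c (I.mix (nat_lit 8088324) (nat_lit 89478486)) T1.l7
  TrL.n)))))))) (by decide +kernel)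
theorem bx2_6 : BoxOK sI cl13 cl9 cl9 t1 t1 b2_6 :=
  box_mk (TrL.c (I.pos (nat_lit 0) (nat_lit 0)) (xa (xa T1.l8 T1.l8) (xa T1.l8 T1.l8))
  (TrL.c (I.pos (nat_lit 0) (nat_lit 0)) (xa T1.l1 T1.l1)
  (TrL.c (I.pos (nat_lit 0) (nat_lit 134217730)) T1.l2
  (TrL.c (I.pos (nat_lit 0) (nat_lit 110514882)) T1.l3
  (TrL.c (I.pos (nat_lit 0) (nat_lit 0)) (xa T1.l9 T1.l9)
  (TrL.c (I.pos (nat_lit 0) (nat_lit 0)) T1.l5
  (TrL.c (I.mix (nat_lit 8088324) (nat_lit 110514882)) T1.l6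
  (TrL.c (I.mix (nat_lit 8088324) (nat_lit 89478486)) T1.l3
  TrL.n)))))))) (by decide +kernel)
theorem bx2_7 : BoxOK sI cl13 cl9 cl9 t1 t1 b2_7 :=
  box_mk (TrL.c (I.pos (nat_lit 0) (nat_lit 0)) T1.l8
  (TrL.c (I.pos (nat_lit 0) (nat_lit 0)) T1.l1
  (TrL.c (I.pos (nat_lit 0) (nat_lit 134217730)) (xR T1.l2 T1.l2)
  (TrL.c (I.pos (nat_lit 0) (nat_lit 110514882)) (xR T1.l3 T1.l3)
  (TrL.c (I.pos (nat_lit 0) (nat_lit 0)) (xb T1.l9 T1.l9)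
  (TrL.c (I.pos (nat_lit 0) (nat_lit 0)) T1.l5
  (TrL.c (I.mix (nat_lit 8088324) (nat_lit 110514882)) T1.l6
  (TrL.c (I.mix (nat_lit 8088324) (nat_lit 89478486)) T1.l7
  TrL.n)))))))) (by decide +kernel)
theorem bx2_8 : BoxOK sI cl13 cl9 cl9 t1 t1 b2_8 :=
  box_mk (TrL.c (I.pos (nat_lit 0) (nat_lit 0)) T1.l8
  (TrL.c (I.pos (nat_lit 0) (nat_lit 0)) T1.l1
  (TrL.c (I.pos (nat_lit 0) (nat_lit 134217730)) T1.l2
  (TrL.c (I.pos (nat_lit 0) (nat_lit 110514882)) T1.l3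
  (TrL.c (I.pos (nat_lit 0) (nat_lit 0)) (xa T1.l9 T1.l9)
  (TrL.c (I.pos (nat_lit 0) (nat_lit 0)) T1.l5
  (TrL.c (I.mix (nat_lit 8088324) (nat_lit 110514882)) T1.l6
  (TrL.c (I.mix (nat_lit 8088324) (nat_lit 89478486)) T1.l3
  TrL.n)))))))) (by decide +kernel)
theorem bx2_9 : BoxOK sI cl13 cl9 cl9 t1 t1 b2_9 :=
  box_mk (TrL.c (I.pos (nat_lit 0) (nat_lit 0)) (xa T1.l0 T1.l0)
  (TrL.c (I.pos (nat_lit 0) (nat_lit 0)) (xa (xk T1.l1 T1.l1) (xk (xb T1.l1 T1.l1) T1.l1))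
  (TrL.c (I.pos (nat_lit 0) (nat_lit 134217730)) (xR T1.l2 T1.l6)
  (TrL.c (I.pos (nat_lit 0) (nat_lit 110514882)) (xR T1.l3 T1.l3)
  (TrL.c (I.pos (nat_lit 0) (nat_lit 0)) (xa (xk (xb T1.l4 T1.l4) (xb T1.l4 T1.l4)) (xk (xb (xa T1.l4 (xk (xb T1.l4 T1.l4) T1.l4)) (xa T1.l4 (xk T1.l4 T1.l4))) (xb (xa T1.l4 (xk T1.l4 T1.l4)) (xa T1.l4 (xk T1.l4 T1.l4)))))
  (TrL.c (I.pos (nat_lit 0) (nat_lit 0)) (xk (xa T1.l5 T1.l5) T1.l5)
  (TrL.c (I.mix (nat_lit 8088324) (nat_lit 110514882)) (xR T1.l6 (xR T1.l6 T1.l6))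
  (TrL.c (I.mix (nat_lit 8088324) (nat_lit 89478486)) T1.l7
  TrL.n)))))))) (by decide +kernel)
theorem bx2_10 : BoxOK sI cl13 cl9 cl9 t1 t1 b2_10 :=
  box_mk (TrL.c (I.pos (nat_lit 0) (nat_lit 0)) (xa T1.l0 T1.l0)
  (TrL.c (I.pos (nat_lit 0) (nat_lit 0)) (xk T1.l1 T1.l1)
  (TrL.c (I.pos (nat_lit 0) (nat_lit 134217730)) (xR T1.l2 T1.l2)
  (TrL.c (I.pos (nat_lit 0) (nat_lit 110514882)) (xR T1.l3 T1.l3)
  (TrL.c (I.pos (nat_lit 0) (nat_lit 0)) (xk (xa T1.l4 T1.l4) (xa T1.l4 (xb T1.l4 T1.l4)))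
  (TrL.c (I.pos (nat_lit 0) (nat_lit 0)) T1.l5
  (TrL.c (I.mix (nat_lit 8088324) (nat_lit 110514882)) (xR T1.l6 T1.l6)
  (TrL.c (I.mix (nat_lit 8088324) (nat_lit 89478486)) T1.l7
  TrL.n)))))))) (by decide +kernel)
theorem bx2_11 : BoxOK sI cl13 cl9 cl9 t1 t1 b2_11 :=
  box_mk (TrL.c (I.pos (nat_lit 0) (nat_lit 0)) T1.l10
  (TrL.c (I.pos (nat_lit 0) (nat_lit 0)) T1.l1
  (TrL.c (I.pos (nat_lit 0) (nat_lit 134217730)) (xR T1.l2 T1.l2)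
  (TrL.c (I.pos (nat_lit 0) (nat_lit 110514882)) (xR T1.l3 T1.l3)
  (TrL.c (I.pos (nat_lit 0) (nat_lit 0)) (xk T1.l11 T1.l11)
  (TrL.c (I.pos (nat_lit 0) (nat_lit 0)) T1.l5
  (TrL.c (I.mix (nat_lit 8088324) (nat_lit 110514882)) (xR T1.l6 T1.l6)
  (TrL.c (I.mix (nat_lit 8088324) (nat_lit 89478486)) T1.l7
  TrL.n)))))))) (by decide +kernel)
theorem sv2 : StarV sI cl13 cl9 cl9 t1 t1 t2 :=
  (bt_n (bt_n (bt_n (bt_b bx2_0) (bt_n (bt_b bx2_1) (bt_b bx2_2))) (bt_n (bt_b bx2_3) (bt_n (bt_b bx2_4) (bt_b bx2_5)))) (bt_n (bt_n (bt_b bx2_6) (bt_n (bt_b bx2_7) (bt_b bx2_8))) (bt_n (bt_b bx2_9) (bt_n (bt_b bx2_10) (bt_b bx2_11)))))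
def S2 : StarD := StarD.mk cl13 cl9 cl9 1 1 t2
def G : List StarD := [S0, S1, S2]
theorem so0 : StarOK sI G S0 :=
  star_mk (by decide) (by decide) rfl rfl rfl rfl rfl rfl (rfl : _ = t0) (rfl : _ = t2)
  (st_mk (Pth.l (Pth.l (Pth.l Pth.z))) (nat_lit 115417852) (nat_lit 133913938) (by decide +kernel))
  (st_mk (Pth.l (Pth.l (Pth.l Pth.z))) (nat_lit 150542671) (nat_lit 169343451) (by decide +kernel))
  (st_mk (Pth.l (Pth.l (Pth.l Pth.z))) (nat_lit 191146461) (nat_lit 210382530) (by decide +kernel)) sv0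
theorem so1 : StarOK sI G S1 :=
  star_mk (by decide) (by decide) rfl rfl rfl rfl rfl rfl (rfl : _ = t2) (rfl : _ = t0)
  (st_mk (Pth.l (Pth.l (Pth.l Pth.z))) (nat_lit 96076012) (nat_lit 114552390) (by decide +kernel))
  (st_mk (Pth.l (Pth.l (Pth.l Pth.z))) (nat_lit 131181965) (nat_lit 149945170) (by decide +kernel))
  (st_mk (Pth.l (Pth.l (Pth.l Pth.z))) (nat_lit 171769361) (nat_lit 190952440) (by decide +kernel)) sv1
theorem so2 : StarOK sI G S2 :=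
  star_mk (by decide) (by decide) rfl rfl rfl rfl rfl rfl (rfl : _ = t1) (rfl : _ = t1)
  (st_mk (Pth.l (Pth.l (Pth.l Pth.z))) (nat_lit 115089857) (nat_lit 133463458) (by decide +kernel))
  (st_mk (Pth.l (Pth.l (Pth.l Pth.z))) (nat_lit 149986467) (nat_lit 168619983) (by decide +kernel))
  (st_mk (Pth.l (Pth.l (Pth.l Pth.z))) (nat_lit 190251785) (nat_lit 209261566) (by decide +kernel)) sv2
theorem ok : GroupOK (nat_lit 150274048) (nat_lit 209387520) G := grp_mk (allS_c so0 (allS_c so1 (allS_c so2 allS_n)))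
theorem cov : GCov G cl9 cl9 cl13 := cov_mk
  ⟨0, by decide, rfl, rfl, rfl⟩ ⟨1, by decide, rfl, rfl, rfl⟩ ⟨0, by decide, rfl, rfl, rfl⟩ ⟨1, by decide, rfl, rfl, rfl⟩ ⟨2, by decide, rfl, rfl, rfl⟩ ⟨2, by decide, rfl, rfl, rfl⟩
end Q556_2


end Pool.Agent.Helper6.MONO
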