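import Pool.Agent.Helper6.MONO.Cert.C26

/-!
Certificate data (generated).
-/

set_option autoImplicit false
set_option linter.all false
noncomputable section
namespace Pool.Agent.Helper6.MONO


namespace Q556_3
def sI : I := I.pos (nat_lit 209321984) (nat_lit 268435456)
def b0_0 : Bx := Bx.mk (St.mk (I.pos (nat_lit 160514048) (nat_lit 236175360)) (I.mix (nat_lit 278528) (nat_lit 49807360)) (I.mix (nat_lit 278528) (nat_lit 84574208)) (I.pos (nat_lit 115441664) (nat_lit 238419968)) (I.mix (nat_lit 100777984) (nat_lit 59326464)) (I.mix (nat_lit 61095936) (nat_lit 59785216)) (I.mix (nat_lit 82886656) (nat_lit 75235328)))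
  false (nat_lit 89159085)
def b0_1 : Bx := Bx.mk (St.mk (I.mix (nat_lit 10960896) (nat_lit 129335296)) (I.mix (nat_lit 4669440) (nat_lit 22511616)) (I.mix (nat_lit 10076160) (nat_lit 17448960)) (I.pos (nat_lit 18006016) (nat_lit 97927168)) (I.mix (nat_lit 28917760) (nat_lit 27115520)) (I.mix (nat_lit 24379392) (nat_lit 17334272)) (I.mix (nat_lit 18759680) (nat_lit 12648448)))
  false (nat_lit 0)
def b0_2 : Bx := Bx.mk (St.mk (I.pos (nat_lit 108658688) (nat_lit 146374656)) (I.mix (nat_lit 43335680) (nat_lit 5242880)) (I.mix (nat_lit 45875200) (nat_lit 2277376)) (I.pos (nat_lit 64667648) (nat_lit 112934912)) (I.mix (nat_lit 68796416) (nat_lit 29392896)) (I.mix (nat_lit 21528576) (nat_lit 58966016)) (I.mix (nat_lit 15794176) (nat_lit 48070656)))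
  false (nat_lit 0)
def b0_3 : Bx := Bx.mk (St.mk (I.mix (nat_lit 19464192) (nat_lit 88211456)) (I.mix (nat_lit 24297472) (nat_lit 2883584)) (I.mix (nat_lit 17285120) (nat_lit 1064960)) (I.pos (nat_lit 18104320) (nat_lit 65519616)) (I.mix (nat_lit 31539200) (nat_lit 13008896)) (I.mix (nat_lit 11698176) (nat_lit 25100288)) (I.mix (nat_lit 5931008) (nat_lit 12763136)))
  false (nat_lit 0)
def b0_4 : Bx := Bx.mk (St.mk (I.pos (nat_lit 208076800) (nat_lit 281837568)) (I.mix (nat_lit 16121856) (nat_lit 35094528)) (I.mix (nat_lit 48889856) (nat_lit 59621376)) (I.pos (nat_lit 198131712) (nat_lit 331038720)) (I.mix (nat_lit 53002240) (nat_lit 46825472)) (I.mix (nat_lit 41041920) (nat_lit 28229632)) (I.mix (nat_lit 71221248) (nat_lit 46563328)))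
  false (nat_lit 58363364)
def b0_5 : Bx := Bx.mk (St.mk (I.pos (nat_lit 110297088) (nat_lit 178651136)) (I.neg (nat_lit 8060928) (nat_lit 45645824)) (I.neg (nat_lit 3309568) (nat_lit 45711360)) (I.pos (nat_lit 81821696) (nat_lit 155877376)) (I.mix (nat_lit 63340544) (nat_lit 31064064)) (I.mix (nat_lit 29294592) (nat_lit 40337408)) (I.mix (nat_lit 24788992) (nat_lit 40828928)))
  false (nat_lit 0)
def b0_6 : Bx := Bx.mk (St.mk (I.mix (nat_lit 12992512) (nat_lit 99614720)) (I.mix (nat_lit 24608768) (nat_lit 1327104)) (I.mix (nat_lit 16842752) (nat_lit 1294336)) (I.pos (nat_lit 17793024) (nat_lit 73367552)) (I.mix (nat_lit 27033600) (nat_lit 19841024)) (I.mix (nat_lit 14434304) (nat_lit 20561920)) (I.mix (nat_lit 8306688) (nat_lit 12664832)))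
  false (nat_lit 0)
def b0_7 : Bx := Bx.mk (St.mk (I.pos (nat_lit 169852928) (nat_lit 216711168)) (I.mix (nat_lit 8224768) (nat_lit 51511296)) (I.pos (nat_lit 4423680) (nat_lit 85983232)) (I.pos (nat_lit 136298496) (nat_lit 212221952)) (I.mix (nat_lit 122863616) (nat_lit 44089344)) (I.mix (nat_lit 98172928) (nat_lit 50757632)) (I.mix (nat_lit 107315200) (nat_lit 48152576)))
  false (nat_lit 6594509)
def b0_8 : Bx := Bx.mk (St.mk (I.mix (nat_lit 18857984) (nat_lit 120094720)) (I.mix (nat_lit 9879552) (nat_lit 28049408)) (I.mix (nat_lit 8372224) (nat_lit 22347776)) (I.pos (nat_lit 17891328) (nat_lit 89489408)) (I.mix (nat_lit 41975808) (nat_lit 20152320)) (I.mix (nat_lit 34291712) (nat_lit 17563648)) (I.mix (nat_lit 21823488) (nat_lit 10813440)))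
  false (nat_lit 0)
def b0_9 : Bx := Bx.mk (St.mk (I.pos (nat_lit 156008448) (nat_lit 211910656)) (I.mix (nat_lit 34111488) (nat_lit 14450688)) (I.mix (nat_lit 34586624) (nat_lit 33193984)) (I.pos (nat_lit 114737152) (nat_lit 197574656)) (I.mix (nat_lit 44007424) (nat_lit 41353216)) (I.mix (nat_lit 39256064) (nat_lit 35667968)) (I.mix (nat_lit 39731200) (nat_lit 37486592)))
  false (nat_lit 38127435)
def b0_10 : Bx := Bx.mk (St.mk (I.pos (nat_lit 173195264) (nat_lit 213712896)) (I.mix (nat_lit 12943360) (nat_lit 28147712)) (I.mix (nat_lit 1458176) (nat_lit 53346304)) (I.pos (nat_lit 137166848) (nat_lit 200949760)) (I.mix (nat_lit 91602944) (nat_lit 51691520)) (I.mix (nat_lit 90800128) (nat_lit 43646976)) (I.mix (nat_lit 101187584) (nat_lit 43483136)))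
  false (nat_lit 10326518)
def b0_11 : Bx := Bx.mk (St.mk (I.pos (nat_lit 184795136) (nat_lit 233799680)) (I.pos (nat_lit 17104896) (nat_lit 49152000)) (I.pos (nat_lit 28917760) (nat_lit 83345408)) (I.pos (nat_lit 176078848) (nat_lit 234487808)) (I.mix (nat_lit 90390528) (nat_lit 71090176)) (I.mix (nat_lit 71286784) (nat_lit 55394304)) (I.mix (nat_lit 105283584) (nat_lit 66109440)))
  false (nat_lit 62332730)
def t0 : BTr := (BTr.n (BTr.n (BTr.n (BTr.b b0_0) (BTr.n (BTr.b b0_1) (BTr.b b0_2))) (BTr.n (BTr.b b0_3) (BTr.n (BTr.b b0_4) (BTr.b b0_5)))) (BTr.n (BTr.n (BTr.b b0_6) (BTr.n (BTr.b b0_7) (BTr.b b0_8))) (BTr.n (BTr.b b0_9) (BTr.n (BTr.b b0_10) (BTr.b b0_11)))))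
namespace T0
def l0 : Tr := Tr.L (Pth.l (Pth.l (Pth.l Pth.z)))
def l1 : Tr := Tr.L (Pth.l (Pth.l (Pth.r (Pth.l Pth.z))))
def l2 : Tr := Tr.L (Pth.l (Pth.l (Pth.r (Pth.r Pth.z))))
def l3 : Tr := Tr.L (Pth.l (Pth.r (Pth.l Pth.z)))
def l4 : Tr := Tr.L (Pth.l (Pth.r (Pth.r (Pth.l Pth.z))))
def l5 : Tr := Tr.L (Pth.l (Pth.r (Pth.r (Pth.r Pth.z))))
def l6 : Tr := Tr.L (Pth.r (Pth.l (Pth.l Pth.z)))
def l7 : Tr := Tr.L (Pth.r (Pth.l (Pth.r (Pth.l Pth.z))))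
def l8 : Tr := Tr.L (Pth.r (Pth.l (Pth.r (Pth.r Pth.z))))
def l9 : Tr := Tr.L (Pth.r (Pth.r (Pth.l Pth.z)))
def l10 : Tr := Tr.L (Pth.r (Pth.r (Pth.r (Pth.l Pth.z))))
def l11 : Tr := Tr.L (Pth.r (Pth.r (Pth.r (Pth.r Pth.z))))
end T0
def b1_0 : Bx := Bx.mk (St.mk (I.pos (nat_lit 160514048) (nat_lit 237387776)) (I.mix (nat_lit 278528) (nat_lit 46006272)) (I.mix (nat_lit 278528) (nat_lit 85557248)) (I.pos (nat_lit 96092160) (nat_lit 218267648)) (I.mix (nat_lit 98140160) (nat_lit 58834944)) (I.mix (nat_lit 62636032) (nat_lit 61325312)) (I.mix (nat_lit 87244800) (nat_lit 78692352)))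
  false (nat_lit 50786555)
def b1_1 : Bx := Bx.mk (St.mk (I.pos (nat_lit 120520704) (nat_lit 181927936)) (I.neg (nat_lit 6995968) (nat_lit 42991616)) (I.neg (nat_lit 393216) (nat_lit 42008576)) (I.pos (nat_lit 71516160) (nat_lit 140820480)) (I.mix (nat_lit 60391424) (nat_lit 31817728)) (I.mix (nat_lit 28852224) (nat_lit 38780928)) (I.mix (nat_lit 24805376) (nat_lit 40386560)))
  false (nat_lit 0)
def b1_2 : Bx := Bx.mk (St.mk (I.mix (nat_lit 4751360) (nat_lit 138297344)) (I.mix (nat_lit 4571136) (nat_lit 19546112)) (I.mix (nat_lit 6782976) (nat_lit 19251200)) (I.mix (nat_lit 557056) (nat_lit 87801856)) (I.mix (nat_lit 28622848) (nat_lit 25493504)) (I.mix (nat_lit 24608768) (nat_lit 17055744)) (I.mix (nat_lit 21200896) (nat_lit 13942784)))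
  false (nat_lit 0)
def b1_3 : Bx := Bx.mk (St.mk (I.mix (nat_lit 4734976) (nat_lit 113934336)) (I.mix (nat_lit 22233088) (nat_lit 1392640)) (I.mix (nat_lit 15581184) (nat_lit 2654208)) (I.mix (nat_lit 557056) (nat_lit 64929792)) (I.mix (nat_lit 25608192) (nat_lit 19185664)) (I.mix (nat_lit 13221888) (nat_lit 19349504)) (I.mix (nat_lit 8814592) (nat_lit 13631488)))
  false (nat_lit 0)
def b1_4 : Bx := Bx.mk (St.mk (I.pos (nat_lit 173490176) (nat_lit 216350720)) (I.mix (nat_lit 10027008) (nat_lit 45432832)) (I.pos (nat_lit 5275648) (nat_lit 82411520)) (I.pos (nat_lit 120274944) (nat_lit 190971904)) (I.mix (nat_lit 118816768) (nat_lit 44384256)) (I.mix (nat_lit 97714176) (nat_lit 47235072)) (I.mix (nat_lit 111755264) (nat_lit 47104000)))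
  false (nat_lit 11463475)
def b1_5 : Bx := Bx.mk (St.mk (I.pos (nat_lit 120209408) (nat_lit 154009600)) (I.mix (nat_lit 39731200) (nat_lit 5177344)) (I.mix (nat_lit 41877504) (nat_lit 6324224)) (I.pos (nat_lit 55508992) (nat_lit 104103936)) (I.mix (nat_lit 66125824) (nat_lit 30294016)) (I.mix (nat_lit 20692992) (nat_lit 56803328)) (I.mix (nat_lit 17006592) (nat_lit 49987584)))
  false (nat_lit 0)
def b1_6 : Bx := Bx.mk (St.mk (I.mix (nat_lit 9273344) (nat_lit 130711552)) (I.mix (nat_lit 11632640) (nat_lit 26050560)) (I.mix (nat_lit 8650752) (nat_lit 25001984)) (I.mix (nat_lit 557056) (nat_lit 79872000)) (I.mix (nat_lit 43237376) (nat_lit 20217856)) (I.mix (nat_lit 35848192) (nat_lit 17367040)) (I.mix (nat_lit 26329088) (nat_lit 11468800)))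
  false (nat_lit 0)
def b1_7 : Bx := Bx.mk (St.mk (I.mix (nat_lit 8650752) (nat_lit 109658112)) (I.mix (nat_lit 21790720) (nat_lit 557056)) (I.mix (nat_lit 16171008) (nat_lit 1048576)) (I.mix (nat_lit 557056) (nat_lit 58081280)) (I.mix (nat_lit 29949952) (nat_lit 13287424)) (I.mix (nat_lit 10895360) (nat_lit 24018944)) (I.mix (nat_lit 6291456) (nat_lit 14761984)))
  false (nat_lit 0)
def b1_8 : Bx := Bx.mk (St.mk (I.pos (nat_lit 203472896) (nat_lit 281018368)) (I.mix (nat_lit 16007168) (nat_lit 32604160)) (I.mix (nat_lit 37519360) (nat_lit 64192512)) (I.pos (nat_lit 171196416) (nat_lit 310951936)) (I.mix (nat_lit 52232192) (nat_lit 45203456)) (I.mix (nat_lit 41271296) (nat_lit 26738688)) (I.mix (nat_lit 71237632) (nat_lit 42844160)))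
  false (nat_lit 12550588)
def b1_9 : Bx := Bx.mk (St.mk (I.pos (nat_lit 159596544) (nat_lit 215056384)) (I.mix (nat_lit 34553856) (nat_lit 11534336)) (I.mix (nat_lit 33374208) (nat_lit 33259520)) (I.pos (nat_lit 101957632) (nat_lit 182009856)) (I.mix (nat_lit 41713664) (nat_lit 42631168)) (I.mix (nat_lit 39518208) (nat_lit 36962304)) (I.mix (nat_lit 40386560) (nat_lit 39387136)))
  false (nat_lit 13692132)
def b1_10 : Bx := Bx.mk (St.mk (I.pos (nat_lit 187432960) (nat_lit 235274240)) (I.pos (nat_lit 10780672) (nat_lit 45203456)) (I.pos (nat_lit 25296896) (nat_lit 84525056)) (I.pos (nat_lit 158531584) (nat_lit 214859776)) (I.mix (nat_lit 86228992) (nat_lit 70156288)) (I.mix (nat_lit 70926336) (nat_lit 55214080)) (I.mix (nat_lit 105938944) (nat_lit 69435392)))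
  false (nat_lit 23029130)
def b1_11 : Bx := Bx.mk (St.mk (I.pos (nat_lit 176078848) (nat_lit 215613440)) (I.mix (nat_lit 14319616) (nat_lit 25067520)) (I.mix (nat_lit 98304) (nat_lit 52477952)) (I.pos (nat_lit 120750080) (nat_lit 184401920)) (I.mix (nat_lit 92651520) (nat_lit 52346880)) (I.mix (nat_lit 92389376) (nat_lit 41566208)) (I.mix (nat_lit 105693184) (nat_lit 41615360)))
  false (nat_lit 7101589)
def t1 : BTr := (BTr.n (BTr.n (BTr.n (BTr.b b1_0) (BTr.n (BTr.b b1_1) (BTr.b b1_2))) (BTr.n (BTr.b b1_3) (BTr.n (BTr.b b1_4) (BTr.b b1_5)))) (BTr.n (BTr.n (BTr.b b1_6) (BTr.n (BTr.b b1_7) (BTr.b b1_8))) (BTr.n (BTr.b b1_9) (BTr.n (BTr.b b1_10) (BTr.b b1_11)))))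
namespace T1
def l0 : Tr := Tr.L (Pth.l (Pth.l (Pth.l Pth.z)))
def l1 : Tr := Tr.L (Pth.l (Pth.l (Pth.r (Pth.l Pth.z))))
def l2 : Tr := Tr.L (Pth.l (Pth.l (Pth.r (Pth.r Pth.z))))
def l3 : Tr := Tr.L (Pth.l (Pth.r (Pth.l Pth.z)))
def l4 : Tr := Tr.L (Pth.l (Pth.r (Pth.r (Pth.l Pth.z))))
def l5 : Tr := Tr.L (Pth.l (Pth.r (Pth.r (Pth.r Pth.z))))
def l6 : Tr := Tr.L (Pth.r (Pth.l (Pth.l Pth.z)))
def l7 : Tr := Tr.L (Pth.r (Pth.l (Pth.r (Pth.l Pth.z))))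
def l8 : Tr := Tr.L (Pth.r (Pth.l (Pth.r (Pth.r Pth.z))))
def l9 : Tr := Tr.L (Pth.r (Pth.r (Pth.l Pth.z)))
def l10 : Tr := Tr.L (Pth.r (Pth.r (Pth.r (Pth.l Pth.z))))
def l11 : Tr := Tr.L (Pth.r (Pth.r (Pth.r (Pth.r Pth.z))))
end T1
def b2_0 : Bx := Bx.mk (St.mk (I.pos (nat_lit 160514048) (nat_lit 235798528)) (I.mix (nat_lit 278528) (nat_lit 48840704)) (I.mix (nat_lit 278528) (nat_lit 90292224)) (I.pos (nat_lit 115064832) (nat_lit 234078208)) (I.mix (nat_lit 102776832) (nat_lit 60735488)) (I.mix (nat_lit 65011712) (nat_lit 63242240)) (I.mix (nat_lit 87982080) (nat_lit 79101952)))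
  false (nat_lit 50346710)
def b2_1 : Bx := Bx.mk (St.mk (I.pos (nat_lit 112541696) (nat_lit 180781056)) (I.neg (nat_lit 7979008) (nat_lit 46579712)) (I.mix (nat_lit 43286528) (nat_lit 2113536)) (I.pos (nat_lit 82001920) (nat_lit 157810688)) (I.mix (nat_lit 61554688) (nat_lit 33882112)) (I.mix (nat_lit 28573696) (nat_lit 40173568)) (I.mix (nat_lit 25083904) (nat_lit 39616512)))
  false (nat_lit 0)
def b2_2 : Bx := Bx.mk (St.mk (I.mix (nat_lit 11108352) (nat_lit 100925440)) (I.mix (nat_lit 23937024) (nat_lit 1310720)) (I.mix (nat_lit 14385152) (nat_lit 4194304)) (I.pos (nat_lit 18071552) (nat_lit 73859072)) (I.mix (nat_lit 24608768) (nat_lit 20742144)) (I.mix (nat_lit 13893632) (nat_lit 19726336)) (I.mix (nat_lit 7864320) (nat_lit 11976704)))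
  false (nat_lit 0)
def b2_3 : Bx := Bx.mk (St.mk (I.pos (nat_lit 168706048) (nat_lit 215040000)) (I.mix (nat_lit 8306688) (nat_lit 50429952)) (I.pos (nat_lit 8830976) (nat_lit 90374144)) (I.pos (nat_lit 132694016) (nat_lit 207372288)) (I.mix (nat_lit 126386176) (nat_lit 43237376)) (I.mix (nat_lit 98926592) (nat_lit 51085312)) (I.mix (nat_lit 112377856) (nat_lit 44253184)))
  false (nat_lit 38693026)
def b2_4 : Bx := Bx.mk (St.mk (I.mix (nat_lit 19447808) (nat_lit 119144448)) (I.mix (nat_lit 11091968) (nat_lit 28000256)) (I.mix (nat_lit 6635520) (nat_lit 25214976)) (I.pos (nat_lit 17973248) (nat_lit 88539136)) (I.mix (nat_lit 43663360) (nat_lit 19300352)) (I.mix (nat_lit 36290560) (nat_lit 17154048)) (I.mix (nat_lit 23281664) (nat_lit 10321920)))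
  false (nat_lit 0)
def b2_5 : Bx := Bx.mk (St.mk (I.pos (nat_lit 155516928) (nat_lit 211681280)) (I.mix (nat_lit 34586624) (nat_lit 13352960)) (I.mix (nat_lit 29982720) (nat_lit 37896192)) (I.pos (nat_lit 114900992) (nat_lit 195526656)) (I.mix (nat_lit 44187648) (nat_lit 42549248)) (I.mix (nat_lit 39665664) (nat_lit 35930112)) (I.mix (nat_lit 39337984) (nat_lit 36814848)))
  false (nat_lit 21016759)
def b2_6 : Bx := Bx.mk (St.mk (I.pos (nat_lit 111329280) (nat_lit 148357120)) (I.mix (nat_lit 44056576) (nat_lit 4161536)) (I.mix (nat_lit 42663936) (nat_lit 5177344)) (I.pos (nat_lit 66322432) (nat_lit 115507200)) (I.mix (nat_lit 67911680) (nat_lit 29638656)) (I.mix (nat_lit 23068672) (nat_lit 56246272)) (I.mix (nat_lit 17334272) (nat_lit 45367296)))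
  false (nat_lit 0)
def b2_7 : Bx := Bx.mk (St.mk (I.pos (nat_lit 66306048) (nat_lit 128270336)) (I.mix (nat_lit 3538944) (nat_lit 22118400)) (I.mix (nat_lit 5718016) (nat_lit 20168704)) (I.pos (nat_lit 38682624) (nat_lit 97140736)) (I.mix (nat_lit 30949376) (nat_lit 26066944)) (I.mix (nat_lit 25804800) (nat_lit 18186240)) (I.mix (nat_lit 20185088) (nat_lit 13369344)))
  false (nat_lit 0)
def b2_8 : Bx := Bx.mk (St.mk (I.mix (nat_lit 21364736) (nat_lit 89391104)) (I.neg (nat_lit 2162688) (nat_lit 24625152)) (I.mix (nat_lit 15384576) (nat_lit 2654208)) (I.pos (nat_lit 17137664) (nat_lit 66306048)) (I.mix (nat_lit 30228480) (nat_lit 13533184)) (I.mix (nat_lit 11993088) (nat_lit 23740416)) (I.mix (nat_lit 6193152) (nat_lit 11878400)))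
  false (nat_lit 0)
def b2_9 : Bx := Bx.mk (St.mk (I.pos (nat_lit 206946304) (nat_lit 280199168)) (I.mix (nat_lit 12156928) (nat_lit 35602432)) (I.mix (nat_lit 29638656) (nat_lit 69763072)) (I.pos (nat_lit 194134016) (nat_lit 326385664)) (I.mix (nat_lit 52936704) (nat_lit 47775744)) (I.mix (nat_lit 41811968) (nat_lit 27754496)) (I.mix (nat_lit 71385088) (nat_lit 44711936)))
  false (nat_lit 51804327)
def b2_10 : Bx := Bx.mk (St.mk (I.pos (nat_lit 184270848) (nat_lit 232079360)) (I.pos (nat_lit 9551872) (nat_lit 46694400)) (I.pos (nat_lit 22364160) (nat_lit 87080960)) (I.pos (nat_lit 171687936) (nat_lit 227819520)) (I.mix (nat_lit 88801280) (nat_lit 68730880)) (I.mix (nat_lit 71483392) (nat_lit 53280768)) (I.mix (nat_lit 105758720) (nat_lit 64290816)))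
  false (nat_lit 39387425)
def b2_11 : Bx := Bx.mk (St.mk (I.pos (nat_lit 171180032) (nat_lit 212205568)) (I.mix (nat_lit 13107200) (nat_lit 27967488)) (I.pos (nat_lit 3555328) (nat_lit 58802176)) (I.pos (nat_lit 132874240) (nat_lit 196935680)) (I.mix (nat_lit 99368960) (nat_lit 52936704)) (I.mix (nat_lit 96468992) (nat_lit 42123264)) (I.mix (nat_lit 107249664) (nat_lit 40665088)))
  false (nat_lit 0)
def t2 : BTr := (BTr.n (BTr.n (BTr.n (BTr.b b2_0) (BTr.n (BTr.b b2_1) (BTr.b b2_2))) (BTr.n (BTr.b b2_3) (BTr.n (BTr.b b2_4) (BTr.b b2_5)))) (BTr.n (BTr.n (BTr.b b2_6) (BTr.n (BTr.b b2_7) (BTr.b b2_8))) (BTr.n (BTr.b b2_9) (BTr.n (BTr.b b2_10) (BTr.b b2_11)))))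
namespace T2
def l0 : Tr := Tr.L (Pth.l (Pth.l (Pth.l Pth.z)))
def l1 : Tr := Tr.L (Pth.l (Pth.l (Pth.r (Pth.l Pth.z))))
def l2 : Tr := Tr.L (Pth.l (Pth.l (Pth.r (Pth.r Pth.z))))
def l3 : Tr := Tr.L (Pth.l (Pth.r (Pth.l Pth.z)))
def l4 : Tr := Tr.L (Pth.l (Pth.r (Pth.r (Pth.l Pth.z))))
def l5 : Tr := Tr.L (Pth.l (Pth.r (Pth.r (Pth.r Pth.z))))
def l6 : Tr := Tr.L (Pth.r (Pth.l (Pth.l Pth.z)))
def l7 : Tr := Tr.L (Pth.r (Pth.l (Pth.r (Pth.l Pth.z))))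
def l8 : Tr := Tr.L (Pth.r (Pth.l (Pth.r (Pth.r Pth.z))))
def l9 : Tr := Tr.L (Pth.r (Pth.r (Pth.l Pth.z)))
def l10 : Tr := Tr.L (Pth.r (Pth.r (Pth.r (Pth.l Pth.z))))
def l11 : Tr := Tr.L (Pth.r (Pth.r (Pth.r (Pth.r Pth.z))))
end T2
theorem bx0_0 : BoxOK sI cl9 cl9 cl13 t0 t2 b0_0 :=
  box_mk (TrL.c (I.pos (nat_lit 0) (nat_lit 0)) (xa (xb (xa (xb T0.l0 T0.l0) T0.l0) (xa (xb T0.l0 T0.l0) (xb T0.l0 T0.l0))) (xb (xa T0.l0 T0.l0) (xa (xb T0.l0 T0.l0) (xb T0.l0 T0.l0))))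
  (TrL.c (I.pos (nat_lit 0) (nat_lit 0)) (xa (xk (xb T2.l1 (xa T2.l1 T2.l1)) (xb T2.l1 (xa T2.l1 T2.l1))) (xk (xb T2.l1 (xa T2.l1 T2.l1)) (xb T2.l1 (xa T2.l1 T2.l1))))
  (TrL.c (I.pos (nat_lit 0) (nat_lit 124588530)) (xR (xR T0.l1 T0.l1) (xR T0.l1 (xR T0.l1 (xa T0.l1 T0.l1))))
  (TrL.c (I.pos (nat_lit 0) (nat_lit 96881482)) (xR (xR T2.l2 T2.l2) (xR T2.l2 (xR T2.l2 (xk T2.l2 T2.l2))))
  (TrL.c (I.pos (nat_lit 0) (nat_lit 0)) (xa (xk (xb (xa T2.l3 T2.l3) T2.l3) (xb (xa T2.l11 T2.l3) (xa T2.l3 T2.l3))) (xk (xb (xa T2.l3 T2.l3) (xa T2.l3 T2.l3)) (xb (xa T2.l3 T2.l3) (xa T2.l3 T2.l3))))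
  (TrL.c (I.pos (nat_lit 0) (nat_lit 0)) (xk (xa T0.l2 T0.l2) (xa T0.l2 T0.l2))
  (TrL.c (I.mix (nat_lit 17240550) (nat_lit 96881482)) (xR T2.l4 (xR T2.l4 (xR T2.l4 (xk T2.l4 T2.l4))))
  (TrL.c (I.mix (nat_lit 17240550) (nat_lit 71940500)) (xR T0.l3 (xR T0.l3 (xR T0.l3 T0.l3)))
  TrL.n)))))))) (by decide +kernel)
theorem bx0_1 : BoxOK sI cl9 cl9 cl13 t0 t2 b0_1 :=
  box_mk (TrL.c (I.pos (nat_lit 0) (nat_lit 0)) (xa (xa T0.l4 T0.l4) (xa T0.l4 (xa T0.l4 T0.l4)))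
  (TrL.c (I.pos (nat_lit 0) (nat_lit 0)) (xa T2.l1 T2.l1)
  (TrL.c (I.pos (nat_lit 0) (nat_lit 124588530)) (xR T0.l8 T0.l1)
  (TrL.c (I.pos (nat_lit 0) (nat_lit 96881482)) (xR T2.l4 (xR T2.l2 T2.l2))
  (TrL.c (I.pos (nat_lit 0) (nat_lit 0)) (xa T2.l5 T2.l5)
  (TrL.c (I.pos (nat_lit 0) (nat_lit 0)) (xa T0.l2 T0.l2)
  (TrL.c (I.mix (nat_lit 17240550) (nat_lit 96881482)) (xR (xR T2.l4 T2.l4) T2.l4)
  (TrL.c (I.mix (nat_lit 17240550) (nat_lit 71940500)) (xR T0.l3 T0.l3)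
  TrL.n)))))))) (by decide +kernel)
theorem bx0_2 : BoxOK sI cl9 cl9 cl13 t0 t2 b0_2 :=
  box_mk (TrL.c (I.pos (nat_lit 0) (nat_lit 0)) (xb (xa T0.l4 (xb T0.l4 T0.l4)) (xa T0.l4 T0.l4))
  (TrL.c (I.pos (nat_lit 0) (nat_lit 0)) T2.l1
  (TrL.c (I.pos (nat_lit 0) (nat_lit 124588530)) (xR (xR T0.l1 T0.l1) T0.l1)
  (TrL.c (I.pos (nat_lit 0) (nat_lit 96881482)) (xR (xR T2.l2 T2.l2) T2.l2)
  (TrL.c (I.pos (nat_lit 0) (nat_lit 0)) (xb (xk T2.l5 T2.l5) (xk T2.l5 T2.l5))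
  (TrL.c (I.pos (nat_lit 0) (nat_lit 0)) T0.l2
  (TrL.c (I.mix (nat_lit 17240550) (nat_lit 96881482)) T2.l4
  (TrL.c (I.mix (nat_lit 17240550) (nat_lit 71940500)) T0.l3
  TrL.n)))))))) (by decide +kernel)
theorem bx0_3 : BoxOK sI cl9 cl9 cl13 t0 t2 b0_3 :=
  box_mk (TrL.c (I.pos (nat_lit 0) (nat_lit 0)) (xa (xa T0.l4 T0.l4) T0.l4)
  (TrL.c (I.pos (nat_lit 0) (nat_lit 0)) (xa T2.l1 T2.l1)
  (TrL.c (I.pos (nat_lit 0) (nat_lit 124588530)) (xR T0.l1 T0.l1)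
  (TrL.c (I.pos (nat_lit 0) (nat_lit 96881482)) (xR T2.l4 (xR T2.l4 (xR T2.l2 T2.l2)))
  (TrL.c (I.pos (nat_lit 0) (nat_lit 0)) (xa T2.l5 T2.l5)
  (TrL.c (I.pos (nat_lit 0) (nat_lit 0)) T0.l2
  (TrL.c (I.mix (nat_lit 17240550) (nat_lit 96881482)) (xR T2.l4 T2.l4)
  (TrL.c (I.mix (nat_lit 17240550) (nat_lit 71940500)) (xR T0.l3 T0.l3)
  TrL.n)))))))) (by decide +kernel)
theorem bx0_4 : BoxOK sI cl9 cl9 cl13 t0 t2 b0_4 :=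
  box_mk (TrL.c (I.pos (nat_lit 0) (nat_lit 0)) (xa (xb T0.l0 (xa T0.l0 T0.l0)) (xb T0.l0 (xa T0.l0 T0.l0)))
  (TrL.c (I.pos (nat_lit 0) (nat_lit 0)) (xa (xk (xb T2.l1 T2.l1) T2.l1) (xk (xb T2.l6 (xa T2.l1 T2.l1)) (xb T2.l6 (xa T2.l1 T2.l6))))
  (TrL.c (I.pos (nat_lit 0) (nat_lit 124588530)) (xR (xR (xR T0.l1 T0.l1) T0.l1) (xR T0.l1 T0.l8))
  (TrL.c (I.pos (nat_lit 0) (nat_lit 96881482)) (xR (xR T2.l8 T2.l2) (xR T2.l2 (xR T2.l2 (xk T2.l8 T2.l2))))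
  (TrL.c (I.pos (nat_lit 0) (nat_lit 0)) (xa (xk (xb T2.l3 T2.l3) (xb T2.l3 T2.l3)) (xk (xb (xa T2.l3 T2.l3) (xa T2.l3 T2.l3)) (xb (xa T2.l3 T2.l3) (xa T2.l3 T2.l3))))
  (TrL.c (I.pos (nat_lit 0) (nat_lit 0)) (xk (xb (xa T0.l2 T0.l2) (xa T0.l2 T0.l2)) (xa T0.l2 (xb T0.l2 T0.l2)))
  (TrL.c (I.mix (nat_lit 17240550) (nat_lit 96881482)) (xR T2.l4 (xR T2.l4 (xR T2.l4 (xk T2.l4 T2.l4))))
  (TrL.c (I.mix (nat_lit 17240550) (nat_lit 71940500)) (xR T0.l3 (xR T0.l3 (xR T0.l3 T0.l3)))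
  TrL.n)))))))) (by decide +kernel)
theorem bx0_5 : BoxOK sI cl9 cl9 cl13 t0 t2 b0_5 :=
  box_mk (TrL.c (I.pos (nat_lit 0) (nat_lit 0)) (xa (xb (xa T0.l4 T0.l4) (xa T0.l4 T0.l4)) (xb T0.l0 T0.l0))
  (TrL.c (I.pos (nat_lit 0) (nat_lit 0)) (xa T2.l1 T2.l1)
  (TrL.c (I.pos (nat_lit 0) (nat_lit 124588530)) (xR (xR T0.l1 T0.l1) T0.l1)
  (TrL.c (I.pos (nat_lit 0) (nat_lit 96881482)) (xR (xR T2.l2 T2.l2) T2.l2)
  (TrL.c (I.pos (nat_lit 0) (nat_lit 0)) (xa (xk T2.l5 T2.l5) (xk (xb T2.l5 T2.l5) (xb T2.l5 T2.l5)))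
  (TrL.c (I.pos (nat_lit 0) (nat_lit 0)) (xk T0.l2 T0.l2)
  (TrL.c (I.mix (nat_lit 17240550) (nat_lit 96881482)) (xR T2.l4 T2.l4)
  (TrL.c (I.mix (nat_lit 17240550) (nat_lit 71940500)) (xR T0.l3 T0.l3)
  TrL.n)))))))) (by decide +kernel)
theorem bx0_6 : BoxOK sI cl9 cl9 cl13 t0 t2 b0_6 :=
  box_mk (TrL.c (I.pos (nat_lit 0) (nat_lit 0)) (xa T0.l4 T0.l4)
  (TrL.c (I.pos (nat_lit 0) (nat_lit 0)) (xa T2.l1 T2.l1)
  (TrL.c (I.pos (nat_lit 0) (nat_lit 124588530)) (xR T0.l8 T0.l1)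
  (TrL.c (I.pos (nat_lit 0) (nat_lit 96881482)) (xR T2.l4 (xR T2.l4 (xR T2.l2 T2.l2)))
  (TrL.c (I.pos (nat_lit 0) (nat_lit 0)) (xa T2.l5 T2.l5)
  (TrL.c (I.pos (nat_lit 0) (nat_lit 0)) T0.l2
  (TrL.c (I.mix (nat_lit 17240550) (nat_lit 96881482)) (xR T2.l4 T2.l4)
  (TrL.c (I.mix (nat_lit 17240550) (nat_lit 71940500)) T0.l3
  TrL.n)))))))) (by decide +kernel)
theorem bx0_7 : BoxOK sI cl9 cl9 cl13 t0 t2 b0_7 :=
  box_mk (TrL.c (I.pos (nat_lit 0) (nat_lit 0)) (xb (xa (xb (xa T0.l11 T0.l11) T0.l11) (xb (xa T0.l11 T0.l11) T0.l11)) (xa (xb (xa T0.l11 T0.l11) (xa T0.l11 T0.l11)) (xb (xa T0.l11 T0.l11) (xa T0.l11 T0.l11))))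
  (TrL.c (I.pos (nat_lit 0) (nat_lit 0)) (xb (xk (xa T2.l1 T2.l1) (xa T2.l1 T2.l1)) (xk (xa (xb T2.l1 T2.l1) (xk T2.l1 T2.l1)) (xa (xb T2.l1 T2.l1) (xb T2.l1 T2.l1))))
  (TrL.c (I.pos (nat_lit 0) (nat_lit 124588530)) (xR (xR T0.l1 T0.l1) (xR T0.l1 (xR T0.l1 (xb T0.l1 T0.l1))))
  (TrL.c (I.pos (nat_lit 0) (nat_lit 96881482)) (xR (xR T2.l2 T2.l2) (xR T2.l2 (xR T2.l2 (xk T2.l2 T2.l2))))
  (TrL.c (I.pos (nat_lit 0) (nat_lit 0)) (xb (xk (xa T2.l11 (xb T2.l11 T2.l11)) (xa T2.l11 (xb T2.l11 T2.l11))) (xk (xa (xb T2.l11 T2.l11) (xb T2.l11 (xs (xk T2.l11 T2.l11) (xk T2.l11 (xb T2.l11 T2.l11))))) (xa (xb T2.l11 (xs T2.l11 T2.l11)) (xb T2.l11 (xs (xb T2.l11 (xk T2.l11 T2.l11)) (xb (xk T2.l11 T2.l11) (xk (xa T2.l11 T2.l11) (xa T2.l11 (xd T2.l11 T2.l11)))))))))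
  (TrL.c (I.pos (nat_lit 0) (nat_lit 0)) (xk T0.l2 T0.l2)
  (TrL.c (I.mix (nat_lit 17240550) (nat_lit 96881482)) (xR T2.l4 (xR T2.l4 (xR T2.l4 (xk T2.l4 T2.l4))))
  (TrL.c (I.mix (nat_lit 17240550) (nat_lit 71940500)) (xR T0.l3 (xR T0.l3 (xR T0.l3 T0.l3)))
  TrL.n)))))))) (by decide +kernel)
theorem bx0_8 : BoxOK sI cl9 cl9 cl13 t0 t2 b0_8 :=
  box_mk (TrL.c (I.pos (nat_lit 0) (nat_lit 0)) (xa (xa (xb T0.l4 T0.l4) T0.l4) (xa T0.l4 (xb T0.l4 (xa T0.l4 T0.l4))))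
  (TrL.c (I.pos (nat_lit 0) (nat_lit 0)) (xa (xa T2.l5 T2.l1) T2.l1)
  (TrL.c (I.pos (nat_lit 0) (nat_lit 124588530)) (xR T0.l8 (xR T0.l1 (xa T0.l1 T0.l1)))
  (TrL.c (I.pos (nat_lit 0) (nat_lit 96881482)) (xR T2.l4 (xR T2.l2 (xR T2.l2 T2.l2)))
  (TrL.c (I.pos (nat_lit 0) (nat_lit 0)) (xa (xa T2.l5 T2.l5) T2.l5)
  (TrL.c (I.pos (nat_lit 0) (nat_lit 0)) (xa T0.l2 T0.l2)
  (TrL.c (I.mix (nat_lit 17240550) (nat_lit 96881482)) (xR (xR T2.l4 T2.l4) T2.l4)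
  (TrL.c (I.mix (nat_lit 17240550) (nat_lit 71940500)) (xR (xR T0.l3 T0.l3) T0.l3)
  TrL.n)))))))) (by decide +kernel)
theorem bx0_9 : BoxOK sI cl9 cl9 cl13 t0 t2 b0_9 :=
  box_mk (TrL.c (I.pos (nat_lit 0) (nat_lit 0)) (xa (xb T0.l0 T0.l0) T0.l0)
  (TrL.c (I.pos (nat_lit 0) (nat_lit 0)) (xk T2.l1 T2.l1)
  (TrL.c (I.pos (nat_lit 0) (nat_lit 124588530)) (xR (xR T0.l1 T0.l1) T0.l1)
  (TrL.c (I.pos (nat_lit 0) (nat_lit 96881482)) (xR (xR T2.l2 T2.l2) T2.l2)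
  (TrL.c (I.pos (nat_lit 0) (nat_lit 0)) (xk (xa T2.l11 (xb (xk T2.l11 T2.l11) T2.l11)) (xa T2.l11 (xb (xa T2.l11 T2.l3) T2.l11)))
  (TrL.c (I.pos (nat_lit 0) (nat_lit 0)) (xk T0.l2 T0.l2)
  (TrL.c (I.mix (nat_lit 17240550) (nat_lit 96881482)) (xR T2.l4 (xR T2.l4 T2.l4))
  (TrL.c (I.mix (nat_lit 17240550) (nat_lit 71940500)) (xR T0.l3 T0.l3)
  TrL.n)))))))) (by decide +kernel)
theorem bx0_10 : BoxOK sI cl9 cl9 cl13 t0 t2 b0_10 :=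
  box_mk (TrL.c (I.pos (nat_lit 0) (nat_lit 0)) (xb (xa (xa (xb T0.l11 T0.l11) T0.l11) (xa T0.l11 T0.l11)) (xa T0.l11 T0.l11))
  (TrL.c (I.pos (nat_lit 0) (nat_lit 0)) (xk (xb T2.l1 T2.l1) (xb T2.l1 T2.l1))
  (TrL.c (I.pos (nat_lit 0) (nat_lit 124588530)) (xR (xR T0.l1 T0.l1) (xR T0.l1 T0.l1))
  (TrL.c (I.pos (nat_lit 0) (nat_lit 96881482)) (xR (xR T2.l2 T2.l2) (xR T2.l2 T2.l2))
  (TrL.c (I.pos (nat_lit 0) (nat_lit 0)) (xk (xb (xa T2.l11 T2.l11) T2.l11) (xb (xa T2.l11 T2.l11) T2.l11))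
  (TrL.c (I.pos (nat_lit 0) (nat_lit 0)) (xk T0.l2 T0.l2)
  (TrL.c (I.mix (nat_lit 17240550) (nat_lit 96881482)) (xR T2.l4 (xR T2.l4 (xR T2.l4 (xR T2.l4 T2.l4))))
  (TrL.c (I.mix (nat_lit 17240550) (nat_lit 71940500)) (xR T0.l3 T0.l6)
  TrL.n)))))))) (by decide +kernel)
theorem bx0_11 : BoxOK sI cl9 cl9 cl13 t0 t2 b0_11 :=
  box_mk (TrL.c (I.pos (nat_lit 0) (nat_lit 0)) (xa (xb (xa T0.l0 T0.l0) (xa T0.l0 (xs T0.l0 T0.l0))) (xb (xa T0.l0 T0.l0) (xa (xs T0.l0 T0.l0) (xs T0.l0 T0.l0))))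
  (TrL.c (I.pos (nat_lit 0) (nat_lit 0)) (xk (xa (xb T2.l1 T2.l1) (xb T2.l1 (xk T2.l1 T2.l1))) (xa (xb T2.l1 T2.l1) (xb T2.l1 T2.l1)))
  (TrL.c (I.pos (nat_lit 0) (nat_lit 124588530)) (xR (xR T0.l1 T0.l1) (xR T0.l1 (xR T0.l1 (xR T0.l1 T0.l1))))
  (TrL.c (I.pos (nat_lit 0) (nat_lit 96881482)) (xR (xR T2.l2 T2.l2) (xR T2.l2 (xR T2.l2 (xk T2.l2 T2.l2))))
  (TrL.c (I.pos (nat_lit 0) (nat_lit 0)) (xk (xa T2.l3 (xb (xk T2.l3 T2.l3) T2.l3)) (xa T2.l3 (xb T2.l3 (xs T2.l3 T2.l3))))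
  (TrL.c (I.pos (nat_lit 0) (nat_lit 0)) (xk T0.l2 T0.l2)
  (TrL.c (I.mix (nat_lit 17240550) (nat_lit 96881482)) (xR T2.l4 (xR T2.l4 (xR T2.l4 (xk T2.l4 T2.l4))))
  (TrL.c (I.mix (nat_lit 17240550) (nat_lit 71940500)) (xR T0.l3 (xR T0.l3 (xR T0.l3 T0.l3)))
  TrL.n)))))))) (by decide +kernel)
theorem sv0 : StarV sI cl9 cl9 cl13 t0 t2 t0 :=
  (bt_n (bt_n (bt_n (bt_b bx0_0) (bt_n (bt_b bx0_1) (bt_b bx0_2))) (bt_n (bt_b bx0_3) (bt_n (bt_b bx0_4) (bt_b bx0_5)))) (bt_n (bt_n (bt_b bx0_6) (bt_n (bt_b bx0_7) (bt_b bx0_8))) (bt_n (bt_b bx0_9) (bt_n (bt_b bx0_10) (bt_b bx0_11)))))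
def S0 : StarD := StarD.mk cl9 cl9 cl13 0 2 t0
theorem bx1_0 : BoxOK sI cl9 cl13 cl9 t2 t0 b1_0 :=
  box_mk (TrL.c (I.pos (nat_lit 0) (nat_lit 0)) (xa (xb (xa (xb T2.l0 T2.l0) T2.l0) (xa (xb T2.l0 T2.l0) (xb T2.l0 T2.l0))) (xa (xb T2.l0 (xb T2.l0 T2.l0)) (xb T2.l0 (xb T2.l0 T2.l0))))
  (TrL.c (I.pos (nat_lit 0) (nat_lit 0)) (xa (xk (xa (xb T0.l5 T0.l5) (xb T0.l5 T0.l5)) (xb T0.l5 (xa T0.l5 T0.l5))) (xk (xb T0.l5 (xa T0.l5 T0.l5)) (xa (xb T0.l5 T0.l5) (xb T0.l5 T0.l5))))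
  (TrL.c (I.pos (nat_lit 0) (nat_lit 124588530)) (xR (xR T2.l4 T2.l4) (xR (xR T2.l4 T2.l4) (xR T2.l7 (xa T2.l7 T2.l7))))
  (TrL.c (I.pos (nat_lit 0) (nat_lit 96881482)) (xR (xR T0.l6 T0.l6) (xR T0.l6 (xR T0.l6 (xk T0.l6 T0.l6))))
  (TrL.c (I.pos (nat_lit 0) (nat_lit 0)) (xa (xk (xb (xa T0.l7 T0.l7) T0.l7) (xb (xa T0.l10 T0.l7) (xa T0.l7 T0.l7))) (xk (xb (xa T0.l7 T0.l7) (xa T0.l7 T0.l7)) (xb (xa T0.l7 T0.l7) (xa T0.l7 T0.l7))))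
  (TrL.c (I.pos (nat_lit 0) (nat_lit 0)) (xk (xa T2.l6 T2.l6) (xa T2.l6 T2.l6))
  (TrL.c (I.mix (nat_lit 17240550) (nat_lit 96881482)) (xR T0.l8 (xR T0.l8 (xR T0.l8 (xk T0.l8 T0.l8))))
  (TrL.c (I.mix (nat_lit 17240550) (nat_lit 71940500)) (xR T2.l8 (xR T2.l8 (xR T2.l8 T2.l8)))
  TrL.n)))))))) (by decide +kernel)
theorem bx1_1 : BoxOK sI cl9 cl13 cl9 t2 t0 b1_1 :=
  box_mk (TrL.c (I.pos (nat_lit 0) (nat_lit 0)) (xa (xb (xa T2.l9 T2.l0) (xa T2.l9 T2.l9)) T2.l0)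
  (TrL.c (I.pos (nat_lit 0) (nat_lit 0)) (xa T0.l5 T0.l5)
  (TrL.c (I.pos (nat_lit 0) (nat_lit 124588530)) (xR (xR T2.l4 T2.l4) (xR T2.l4 T2.l7))
  (TrL.c (I.pos (nat_lit 0) (nat_lit 96881482)) (xR (xR T0.l6 T0.l6) T0.l6)
  (TrL.c (I.pos (nat_lit 0) (nat_lit 0)) (xa (xk T0.l9 T0.l9) (xk (xb T0.l9 T0.l9) (xb T0.l9 T0.l9)))
  (TrL.c (I.pos (nat_lit 0) (nat_lit 0)) (xk T2.l6 T2.l6)
  (TrL.c (I.mix (nat_lit 17240550) (nat_lit 96881482)) (xR T0.l8 T0.l8)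
  (TrL.c (I.mix (nat_lit 17240550) (nat_lit 71940500)) (xR T2.l4 T2.l2)
  TrL.n)))))))) (by decide +kernel)
theorem bx1_2 : BoxOK sI cl9 cl13 cl9 t2 t0 b1_2 :=
  box_mk (TrL.c (I.pos (nat_lit 0) (nat_lit 0)) (xa (xa T2.l9 T2.l9) (xa T2.l9 (xa T2.l9 T2.l9)))
  (TrL.c (I.pos (nat_lit 0) (nat_lit 0)) (xa T0.l5 (xa T0.l5 T0.l5))
  (TrL.c (I.pos (nat_lit 0) (nat_lit 124588530)) (xR (xR T2.l4 T2.l4) (xR T2.l4 T2.l7))
  (TrL.c (I.pos (nat_lit 0) (nat_lit 96881482)) (xR T0.l6 (xR T0.l6 T0.l6))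
  (TrL.c (I.pos (nat_lit 0) (nat_lit 0)) (xa T0.l9 T0.l9)
  (TrL.c (I.pos (nat_lit 0) (nat_lit 0)) (xa T2.l6 T2.l6)
  (TrL.c (I.mix (nat_lit 17240550) (nat_lit 96881482)) (xR (xR T0.l8 T0.l8) T0.l8)
  (TrL.c (I.mix (nat_lit 17240550) (nat_lit 71940500)) (xR T2.l4 T2.l2)
  TrL.n)))))))) (by decide +kernel)
theorem bx1_3 : BoxOK sI cl9 cl13 cl9 t2 t0 b1_3 :=
  box_mk (TrL.c (I.pos (nat_lit 0) (nat_lit 0)) (xa T2.l9 T2.l9)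
  (TrL.c (I.pos (nat_lit 0) (nat_lit 0)) (xa T0.l5 T0.l5)
  (TrL.c (I.pos (nat_lit 0) (nat_lit 124588530)) (xR (xR T2.l4 T2.l4) (xR T2.l4 T2.l7))
  (TrL.c (I.pos (nat_lit 0) (nat_lit 96881482)) (xR T0.l8 (xR (xR T0.l6 T0.l6) (xR T0.l6 T0.l6)))
  (TrL.c (I.pos (nat_lit 0) (nat_lit 0)) (xa T0.l9 T0.l9)
  (TrL.c (I.pos (nat_lit 0) (nat_lit 0)) T2.l6
  (TrL.c (I.mix (nat_lit 17240550) (nat_lit 96881482)) (xR T0.l8 (xR T0.l8 (xR T0.l8 (xa T0.l8 T0.l8))))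
  (TrL.c (I.mix (nat_lit 17240550) (nat_lit 71940500)) T2.l4
  TrL.n)))))))) (by decide +kernel)
theorem bx1_4 : BoxOK sI cl9 cl13 cl9 t2 t0 b1_4 :=
  box_mk (TrL.c (I.pos (nat_lit 0) (nat_lit 0)) (xb (xa (xb T2.l10 T2.l10) (xb T2.l10 T2.l10)) (xa (xb (xa T2.l10 T2.l10) (xa T2.l10 T2.l10)) (xb (xa T2.l10 T2.l10) (xa T2.l10 T2.l10))))
  (TrL.c (I.pos (nat_lit 0) (nat_lit 0)) (xb (xk (xa T0.l5 T0.l5) (xa T0.l5 T0.l5)) (xk (xa (xk T0.l5 T0.l5) (xk T0.l5 T0.l5)) (xa (xb T0.l5 T0.l5) (xb T0.l5 T0.l5))))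
  (TrL.c (I.pos (nat_lit 0) (nat_lit 124588530)) (xR (xR T2.l4 T2.l4) (xR (xR T2.l4 (xR T2.l4 T2.l7)) (xR T2.l7 (xR T2.l7 T2.l7))))
  (TrL.c (I.pos (nat_lit 0) (nat_lit 96881482)) (xR (xR T0.l6 T0.l6) (xR T0.l6 (xR T0.l6 (xk T0.l6 T0.l6))))
  (TrL.c (I.pos (nat_lit 0) (nat_lit 0)) (xb (xk (xa T0.l10 (xb T0.l10 T0.l10)) (xa T0.l10 (xb T0.l10 T0.l10))) (xk (xa T0.l10 (xb T0.l7 T0.l7)) (xa T0.l10 (xb T0.l7 (xs T0.l7 (xb T0.l7 T0.l7))))))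
  (TrL.c (I.pos (nat_lit 0) (nat_lit 0)) (xk T2.l6 T2.l6)
  (TrL.c (I.mix (nat_lit 17240550) (nat_lit 96881482)) (xR T0.l8 (xR T0.l8 (xR T0.l8 (xk T0.l8 T0.l8))))
  (TrL.c (I.mix (nat_lit 17240550) (nat_lit 71940500)) (xR T2.l8 (xR T2.l8 (xR T2.l8 T2.l8)))
  TrL.n)))))))) (by decide +kernel)
theorem bx1_5 : BoxOK sI cl9 cl13 cl9 t2 t0 b1_5 :=
  box_mk (TrL.c (I.pos (nat_lit 0) (nat_lit 0)) (xb (xa T2.l9 T2.l0) (xa (xb T2.l9 T2.l9) T2.l9))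
  (TrL.c (I.pos (nat_lit 0) (nat_lit 0)) T0.l5
  (TrL.c (I.pos (nat_lit 0) (nat_lit 124588530)) (xR (xR T2.l4 T2.l4) (xR T2.l4 T2.l7))
  (TrL.c (I.pos (nat_lit 0) (nat_lit 96881482)) (xR (xR T0.l6 T0.l6) T0.l6)
  (TrL.c (I.pos (nat_lit 0) (nat_lit 0)) (xb (xk T0.l9 T0.l9) (xk T0.l9 T0.l9))
  (TrL.c (I.pos (nat_lit 0) (nat_lit 0)) T2.l6
  (TrL.c (I.mix (nat_lit 17240550) (nat_lit 96881482)) (xR T0.l8 T0.l8)
  (TrL.c (I.mix (nat_lit 17240550) (nat_lit 71940500)) (xR T2.l4 T2.l2)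
  TrL.n)))))))) (by decide +kernel)
theorem bx1_6 : BoxOK sI cl9 cl13 cl9 t2 t0 b1_6 :=
  box_mk (TrL.c (I.pos (nat_lit 0) (nat_lit 0)) (xa (xa (xb T2.l9 T2.l9) T2.l9) (xa (xb T2.l9 T2.l9) (xb T2.l9 (xa T2.l9 T2.l9))))
  (TrL.c (I.pos (nat_lit 0) (nat_lit 0)) (xa (xa T0.l5 T0.l5) (xa T0.l5 T0.l5))
  (TrL.c (I.pos (nat_lit 0) (nat_lit 124588530)) (xR (xR T2.l4 T2.l4) (xR T2.l4 (xa T2.l7 T2.l7)))
  (TrL.c (I.pos (nat_lit 0) (nat_lit 96881482)) (xR (xR T0.l6 T0.l6) (xR T0.l6 (xR T0.l6 T0.l6)))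
  (TrL.c (I.pos (nat_lit 0) (nat_lit 0)) (xa (xa T0.l9 T0.l9) T0.l9)
  (TrL.c (I.pos (nat_lit 0) (nat_lit 0)) (xa T2.l6 T2.l6)
  (TrL.c (I.mix (nat_lit 17240550) (nat_lit 96881482)) (xR (xR T0.l8 T0.l8) (xR T0.l8 (xR T0.l8 (xa T0.l8 T0.l8))))
  (TrL.c (I.mix (nat_lit 17240550) (nat_lit 71940500)) (xR T2.l4 (xR T2.l2 (xa T2.l4 T2.l2)))
  TrL.n)))))))) (by decide +kernel)
theorem bx1_7 : BoxOK sI cl9 cl13 cl9 t2 t0 b1_7 :=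
  box_mk (TrL.c (I.pos (nat_lit 0) (nat_lit 0)) (xa (xa T2.l9 T2.l9) T2.l9)
  (TrL.c (I.pos (nat_lit 0) (nat_lit 0)) (xa T0.l5 T0.l5)
  (TrL.c (I.pos (nat_lit 0) (nat_lit 124588530)) (xR (xR T2.l4 T2.l4) (xR T2.l4 T2.l7))
  (TrL.c (I.pos (nat_lit 0) (nat_lit 96881482)) (xR T0.l8 (xR T0.l8 (xR T0.l6 T0.l6)))
  (TrL.c (I.pos (nat_lit 0) (nat_lit 0)) (xa T0.l9 T0.l9)
  (TrL.c (I.pos (nat_lit 0) (nat_lit 0)) T2.l6
  (TrL.c (I.mix (nat_lit 17240550) (nat_lit 96881482)) (xR T0.l8 (xR T0.l8 (xR T0.l8 (xa T0.l8 T0.l8))))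
  (TrL.c (I.mix (nat_lit 17240550) (nat_lit 71940500)) T2.l4
  TrL.n)))))))) (by decide +kernel)
theorem bx1_8 : BoxOK sI cl9 cl13 cl9 t2 t0 b1_8 :=
  box_mk (TrL.c (I.pos (nat_lit 0) (nat_lit 0)) (xa (xb T2.l0 T2.l0) (xb (xa T2.l0 T2.l0) (xa T2.l0 T2.l0)))
  (TrL.c (I.pos (nat_lit 0) (nat_lit 0)) (xa (xk (xb T0.l5 T0.l5) T0.l5) (xk (xb T0.l2 (xa T0.l5 T0.l5)) (xb (xa T0.l5 T0.l2) (xa T0.l5 T0.l2))))
  (TrL.c (I.pos (nat_lit 0) (nat_lit 124588530)) (xR (xR (xR T2.l4 T2.l4) T2.l4) (xR T2.l4 T2.l4))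
  (TrL.c (I.pos (nat_lit 0) (nat_lit 96881482)) (xR (xR T0.l6 T0.l6) (xR T0.l6 (xR T0.l6 (xk T0.l6 T0.l6))))
  (TrL.c (I.pos (nat_lit 0) (nat_lit 0)) (xa (xk (xb T0.l7 T0.l7) (xb T0.l7 T0.l7)) (xk (xb (xa T0.l7 T0.l7) (xa T0.l7 T0.l7)) (xb (xa T0.l7 T0.l7) (xa T0.l7 T0.l7))))
  (TrL.c (I.pos (nat_lit 0) (nat_lit 0)) (xk (xa T2.l6 (xb T2.l6 T2.l6)) (xa T2.l6 (xb T2.l6 T2.l6)))
  (TrL.c (I.mix (nat_lit 17240550) (nat_lit 96881482)) (xR T0.l8 (xR T0.l8 (xR T0.l8 (xk T0.l8 T0.l8))))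
  (TrL.c (I.mix (nat_lit 17240550) (nat_lit 71940500)) (xR T2.l8 (xR T2.l8 T2.l8))
  TrL.n)))))))) (by decide +kernel)
theorem bx1_9 : BoxOK sI cl9 cl13 cl9 t2 t0 b1_9 :=
  box_mk (TrL.c (I.pos (nat_lit 0) (nat_lit 0)) (xa (xb T2.l0 T2.l0) T2.l0)
  (TrL.c (I.pos (nat_lit 0) (nat_lit 0)) (xk T0.l5 T0.l5)
  (TrL.c (I.pos (nat_lit 0) (nat_lit 124588530)) (xR (xR T2.l4 T2.l4) (xR T2.l4 T2.l4))
  (TrL.c (I.pos (nat_lit 0) (nat_lit 96881482)) (xR (xR T0.l6 T0.l6) T0.l6)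
  (TrL.c (I.pos (nat_lit 0) (nat_lit 0)) (xk (xa T0.l10 (xb (xk T0.l10 T0.l10) T0.l10)) (xa T0.l10 (xb (xa T0.l10 T0.l7) T0.l10)))
  (TrL.c (I.pos (nat_lit 0) (nat_lit 0)) (xk T2.l6 T2.l6)
  (TrL.c (I.mix (nat_lit 17240550) (nat_lit 96881482)) (xR T0.l8 (xR T0.l8 T0.l8))
  (TrL.c (I.mix (nat_lit 17240550) (nat_lit 71940500)) (xR T2.l4 T2.l8)
  TrL.n)))))))) (by decide +kernel)
theorem bx1_10 : BoxOK sI cl9 cl13 cl9 t2 t0 b1_10 :=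
  box_mk (TrL.c (I.pos (nat_lit 0) (nat_lit 0)) (xa (xb T2.l0 (xa T2.l0 T2.l0)) (xb (xa T2.l0 T2.l0) (xa (xs T2.l0 T2.l0) (xs T2.l0 T2.l0))))
  (TrL.c (I.pos (nat_lit 0) (nat_lit 0)) (xk (xa (xb T0.l5 (xk T0.l5 T0.l5)) (xb T0.l5 (xk T0.l5 T0.l5))) (xa (xb T0.l5 T0.l5) (xb T0.l5 T0.l5)))
  (TrL.c (I.pos (nat_lit 0) (nat_lit 124588530)) (xR (xR T2.l4 T2.l4) (xR T2.l4 (xR T2.l7 (xR T2.l7 T2.l7))))
  (TrL.c (I.pos (nat_lit 0) (nat_lit 96881482)) (xR (xR T0.l6 T0.l6) (xR T0.l6 (xR T0.l6 (xk T0.l6 T0.l6))))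
  (TrL.c (I.pos (nat_lit 0) (nat_lit 0)) (xk (xa T0.l7 (xb (xk T0.l7 T0.l7) (xb T0.l7 T0.l7))) (xa T0.l7 (xb (xk T0.l7 T0.l7) (xb T0.l7 (xs T0.l7 (xk T0.l7 T0.l7))))))
  (TrL.c (I.pos (nat_lit 0) (nat_lit 0)) (xk T2.l6 T2.l6)
  (TrL.c (I.mix (nat_lit 17240550) (nat_lit 96881482)) (xR T0.l8 (xR T0.l8 (xR T0.l8 (xk T0.l8 T0.l8))))
  (TrL.c (I.mix (nat_lit 17240550) (nat_lit 71940500)) (xR T2.l8 (xR T2.l8 (xR T2.l8 T2.l8)))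
  TrL.n)))))))) (by decide +kernel)
theorem bx1_11 : BoxOK sI cl9 cl13 cl9 t2 t0 b1_11 :=
  box_mk (TrL.c (I.pos (nat_lit 0) (nat_lit 0)) (xb (xa T2.l10 T2.l10) (xa T2.l10 T2.l10))
  (TrL.c (I.pos (nat_lit 0) (nat_lit 0)) (xk (xb T0.l5 T0.l5) (xb T0.l5 T0.l5))
  (TrL.c (I.pos (nat_lit 0) (nat_lit 124588530)) (xR (xR T2.l4 T2.l4) (xR T2.l4 T2.l7))
  (TrL.c (I.pos (nat_lit 0) (nat_lit 96881482)) (xR (xR T0.l6 T0.l6) (xR T0.l6 T0.l6))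
  (TrL.c (I.pos (nat_lit 0) (nat_lit 0)) (xk (xb (xa T0.l10 T0.l10) T0.l10) (xb (xa T0.l10 T0.l10) T0.l10))
  (TrL.c (I.pos (nat_lit 0) (nat_lit 0)) (xk T2.l6 T2.l6)
  (TrL.c (I.mix (nat_lit 17240550) (nat_lit 96881482)) (xR T0.l8 (xR T0.l8 (xR T0.l8 (xR T0.l8 T0.l8))))
  (TrL.c (I.mix (nat_lit 17240550) (nat_lit 71940500)) (xR T2.l8 T2.l2)
  TrL.n)))))))) (by decide +kernel)
theorem sv1 : StarV sI cl9 cl13 cl9 t2 t0 t1 :=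
  (bt_n (bt_n (bt_n (bt_b bx1_0) (bt_n (bt_b bx1_1) (bt_b bx1_2))) (bt_n (bt_b bx1_3) (bt_n (bt_b bx1_4) (bt_b bx1_5)))) (bt_n (bt_n (bt_b bx1_6) (bt_n (bt_b bx1_7) (bt_b bx1_8))) (bt_n (bt_b bx1_9) (bt_n (bt_b bx1_10) (bt_b bx1_11)))))
def S1 : StarD := StarD.mk cl9 cl13 cl9 2 0 t1
theorem bx2_0 : BoxOK sI cl13 cl9 cl9 t1 t1 b2_0 :=
  box_mk (TrL.c (I.pos (nat_lit 0) (nat_lit 0)) (xa (xb (xa T1.l0 T1.l0) (xa (xb T1.l0 T1.l0) (xb T1.l0 T1.l0))) (xb (xa T1.l0 T1.l0) (xa (xb T1.l0 T1.l0) (xb T1.l0 T1.l0))))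
  (TrL.c (I.pos (nat_lit 0) (nat_lit 0)) (xa (xk (xb T1.l1 (xa T1.l1 T1.l1)) (xb T1.l1 (xa T1.l1 T1.l1))) (xk (xb T1.l1 (xa T1.l1 T1.l1)) (xb T1.l1 (xa T1.l1 T1.l1))))
  (TrL.c (I.pos (nat_lit 0) (nat_lit 134217730)) (xR (xR T1.l6 T1.l2) (xR T1.l2 (xR T1.l2 (xa T1.l2 T1.l2))))
  (TrL.c (I.pos (nat_lit 0) (nat_lit 110514882)) (xR T1.l6 (xR T1.l3 (xR T1.l3 (xk T1.l3 T1.l3))))
  (TrL.c (I.pos (nat_lit 0) (nat_lit 0)) (xa (xk (xb T1.l4 T1.l4) (xb (xa T1.l4 T1.l4) (xa T1.l4 T1.l4))) (xk (xb (xa T1.l4 T1.l4) (xa (xb T1.l11 T1.l4) (xk (xb T1.l4 (xs T1.l4 T1.l4)) (xb T1.l4 (xs T1.l4 (xb T1.l4 T1.l4)))))) (xb (xa T1.l4 T1.l4) (xa (xk (xb T1.l11 T1.l11) (xb T1.l11 T1.l11)) (xb (xs T1.l4 T1.l4) (xk (xa (xs T1.l11 T1.l11) (xs T1.l4 (xb T1.l11 T1.l11))) (xa (xs T1.l11 T1.l11) (xs T1.l4 (xb T1.l11 T1.l11)))))))))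
  (TrL.c (I.pos (nat_lit 0) (nat_lit 0)) (xk (xa T1.l5 T1.l5) (xa T1.l5 T1.l5))
  (TrL.c (I.mix (nat_lit 8088324) (nat_lit 110514882)) (xR (xR T1.l6 T1.l6) (xR T1.l6 (xR T1.l6 (xk T1.l6 T1.l6))))
  (TrL.c (I.mix (nat_lit 8088324) (nat_lit 89478486)) (xR T1.l7 (xR T1.l7 (xR T1.l7 T1.l7)))
  TrL.n)))))))) (by decide +kernel)
theorem bx2_1 : BoxOK sI cl13 cl9 cl9 t1 t1 b2_1 :=
  box_mk (TrL.c (I.pos (nat_lit 0) (nat_lit 0)) (xa (xb (xa T1.l8 T1.l0) (xa T1.l8 T1.l8)) (xb T1.l0 T1.l0))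
  (TrL.c (I.pos (nat_lit 0) (nat_lit 0)) (xa T1.l1 T1.l1)
  (TrL.c (I.pos (nat_lit 0) (nat_lit 134217730)) (xR T1.l6 T1.l2)
  (TrL.c (I.pos (nat_lit 0) (nat_lit 110514882)) (xR T1.l6 (xR T1.l3 T1.l3))
  (TrL.c (I.pos (nat_lit 0) (nat_lit 0)) (xa (xk T1.l9 T1.l9) (xk (xb T1.l9 T1.l11) (xb T1.l9 T1.l9)))
  (TrL.c (I.pos (nat_lit 0) (nat_lit 0)) (xk T1.l5 T1.l5)
  (TrL.c (I.mix (nat_lit 8088324) (nat_lit 110514882)) (xR T1.l6 T1.l6)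
  (TrL.c (I.mix (nat_lit 8088324) (nat_lit 89478486)) (xR T1.l7 T1.l7)
  TrL.n)))))))) (by decide +kernel)
theorem bx2_2 : BoxOK sI cl13 cl9 cl9 t1 t1 b2_2 :=
  box_mk (TrL.c (I.pos (nat_lit 0) (nat_lit 0)) (xa T1.l8 T1.l8)
  (TrL.c (I.pos (nat_lit 0) (nat_lit 0)) (xa T1.l1 T1.l1)
  (TrL.c (I.pos (nat_lit 0) (nat_lit 134217730)) (xR T1.l2 T1.l2)
  (TrL.c (I.pos (nat_lit 0) (nat_lit 110514882)) (xR T1.l3 (xR T1.l6 (xR T1.l3 T1.l3)))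
  (TrL.c (I.pos (nat_lit 0) (nat_lit 0)) (xa T1.l9 T1.l9)
  (TrL.c (I.pos (nat_lit 0) (nat_lit 0)) T1.l5
  (TrL.c (I.mix (nat_lit 8088324) (nat_lit 110514882)) (xR T1.l6 T1.l6)
  (TrL.c (I.mix (nat_lit 8088324) (nat_lit 89478486)) (xR T1.l6 T1.l6)
  TrL.n)))))))) (by decide +kernel)
theorem bx2_3 : BoxOK sI cl13 cl9 cl9 t1 t1 b2_3 :=
  box_mk (TrL.c (I.pos (nat_lit 0) (nat_lit 0)) (xb (xa (xb T1.l10 T1.l10) (xb T1.l10 T1.l10)) (xa (xb (xa T1.l10 T1.l10) (xa T1.l10 T1.l10)) (xb (xa T1.l10 T1.l10) (xa T1.l10 T1.l10))))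
  (TrL.c (I.pos (nat_lit 0) (nat_lit 0)) (xb (xk (xa T1.l1 T1.l1) (xa T1.l1 T1.l1)) (xk (xa (xk T1.l1 T1.l1) (xk T1.l1 T1.l1)) (xa (xb T1.l1 T1.l1) (xb T1.l1 T1.l1))))
  (TrL.c (I.pos (nat_lit 0) (nat_lit 134217730)) (xR T1.l6 (xR T1.l2 (xR T1.l2 (xR T1.l2 T1.l2))))
  (TrL.c (I.pos (nat_lit 0) (nat_lit 110514882)) (xR T1.l6 (xR T1.l3 (xR T1.l3 (xk T1.l3 T1.l3))))
  (TrL.c (I.pos (nat_lit 0) (nat_lit 0)) (xb (xk (xa T1.l11 (xb T1.l11 T1.l11)) (xa T1.l11 (xb T1.l11 T1.l11))) (xk (xa T1.l11 (xb T1.l11 (xs T1.l4 (xb T1.l11 T1.l11)))) (xa (xb T1.l11 T1.l11) (xb T1.l11 (xs (xb T1.l11 T1.l11) (xb T1.l11 (xa T1.l11 (xk T1.l11 T1.l11))))))))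
  (TrL.c (I.pos (nat_lit 0) (nat_lit 0)) (xk T1.l5 T1.l5)
  (TrL.c (I.mix (nat_lit 8088324) (nat_lit 110514882)) (xR T1.l6 (xR T1.l6 (xR T1.l6 (xk T1.l6 T1.l6))))
  (TrL.c (I.mix (nat_lit 8088324) (nat_lit 89478486)) (xR T1.l7 (xR T1.l7 (xR T1.l7 T1.l7)))
  TrL.n)))))))) (by decide +kernel)
theorem bx2_4 : BoxOK sI cl13 cl9 cl9 t1 t1 b2_4 :=
  box_mk (TrL.c (I.pos (nat_lit 0) (nat_lit 0)) (xa (xa (xb T1.l8 T1.l8) T1.l8) (xa T1.l8 (xb T1.l8 (xa T1.l8 T1.l8))))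
  (TrL.c (I.pos (nat_lit 0) (nat_lit 0)) (xa (xa T1.l9 T1.l1) (xa T1.l1 T1.l1))
  (TrL.c (I.pos (nat_lit 0) (nat_lit 134217730)) (xR T1.l6 (xR T1.l2 (xR T1.l2 (xa T1.l2 T1.l2))))
  (TrL.c (I.pos (nat_lit 0) (nat_lit 110514882)) (xR T1.l3 (xR T1.l6 (xR T1.l3 T1.l3)))
  (TrL.c (I.pos (nat_lit 0) (nat_lit 0)) (xa (xa T1.l9 T1.l9) T1.l9)
  (TrL.c (I.pos (nat_lit 0) (nat_lit 0)) (xa T1.l5 T1.l5)
  (TrL.c (I.mix (nat_lit 8088324) (nat_lit 110514882)) (xR (xR T1.l6 T1.l6) T1.l6)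
  (TrL.c (I.mix (nat_lit 8088324) (nat_lit 89478486)) (xR (xR T1.l6 T1.l2) T1.l6)
  TrL.n)))))))) (by decide +kernel)
theorem bx2_5 : BoxOK sI cl13 cl9 cl9 t1 t1 b2_5 :=
  box_mk (TrL.c (I.pos (nat_lit 0) (nat_lit 0)) (xa (xb T1.l0 T1.l0) T1.l0)
  (TrL.c (I.pos (nat_lit 0) (nat_lit 0)) (xk T1.l1 T1.l1)
  (TrL.c (I.pos (nat_lit 0) (nat_lit 134217730)) (xR (xR T1.l6 T1.l2) T1.l2)
  (TrL.c (I.pos (nat_lit 0) (nat_lit 110514882)) (xR T1.l6 (xR T1.l3 T1.l3))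
  (TrL.c (I.pos (nat_lit 0) (nat_lit 0)) (xk (xa T1.l11 (xb (xk T1.l11 T1.l11) T1.l11)) (xa T1.l11 (xb (xa T1.l11 T1.l4) T1.l11)))
  (TrL.c (I.pos (nat_lit 0) (nat_lit 0)) (xk T1.l5 T1.l5)
  (TrL.c (I.mix (nat_lit 8088324) (nat_lit 110514882)) (xR T1.l6 (xR T1.l6 T1.l6))
  (TrL.c (I.mix (nat_lit 8088324) (nat_lit 89478486)) (xR T1.l7 T1.l7)
  TrL.n)))))))) (by decide +kernel)
theorem bx2_6 : BoxOK sI cl13 cl9 cl9 t1 t1 b2_6 :=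
  box_mk (TrL.c (I.pos (nat_lit 0) (nat_lit 0)) (xb (xa T1.l8 (xb T1.l8 T1.l8)) (xa T1.l8 T1.l8))
  (TrL.c (I.pos (nat_lit 0) (nat_lit 0)) T1.l1
  (TrL.c (I.pos (nat_lit 0) (nat_lit 134217730)) (xR T1.l6 T1.l2)
  (TrL.c (I.pos (nat_lit 0) (nat_lit 110514882)) (xR T1.l6 (xR T1.l3 T1.l3))
  (TrL.c (I.pos (nat_lit 0) (nat_lit 0)) (xk (xb T1.l9 T1.l9) (xb T1.l9 T1.l9))
  (TrL.c (I.pos (nat_lit 0) (nat_lit 0)) T1.l5
  (TrL.c (I.mix (nat_lit 8088324) (nat_lit 110514882)) (xR T1.l6 T1.l6)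
  (TrL.c (I.mix (nat_lit 8088324) (nat_lit 89478486)) T1.l6
  TrL.n)))))))) (by decide +kernel)
theorem bx2_7 : BoxOK sI cl13 cl9 cl9 t1 t1 b2_7 :=
  box_mk (TrL.c (I.pos (nat_lit 0) (nat_lit 0)) (xa T1.l8 (xa T1.l8 T1.l8))
  (TrL.c (I.pos (nat_lit 0) (nat_lit 0)) T1.l1
  (TrL.c (I.pos (nat_lit 0) (nat_lit 134217730)) (xR T1.l6 T1.l2)
  (TrL.c (I.pos (nat_lit 0) (nat_lit 110514882)) (xR T1.l3 T1.l3)
  (TrL.c (I.pos (nat_lit 0) (nat_lit 0)) T1.l9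
  (TrL.c (I.pos (nat_lit 0) (nat_lit 0)) T1.l5
  (TrL.c (I.mix (nat_lit 8088324) (nat_lit 110514882)) (xR T1.l6 T1.l6)
  (TrL.c (I.mix (nat_lit 8088324) (nat_lit 89478486)) T1.l6
  TrL.n)))))))) (by decide +kernel)
theorem bx2_8 : BoxOK sI cl13 cl9 cl9 t1 t1 b2_8 :=
  box_mk (TrL.c (I.pos (nat_lit 0) (nat_lit 0)) (xa (xa T1.l8 T1.l8) T1.l8)
  (TrL.c (I.pos (nat_lit 0) (nat_lit 0)) (xa T1.l1 T1.l1)
  (TrL.c (I.pos (nat_lit 0) (nat_lit 134217730)) (xR T1.l2 T1.l2)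
  (TrL.c (I.pos (nat_lit 0) (nat_lit 110514882)) (xR T1.l2 (xR T1.l6 (xR T1.l3 T1.l3)))
  (TrL.c (I.pos (nat_lit 0) (nat_lit 0)) (xa T1.l9 T1.l9)
  (TrL.c (I.pos (nat_lit 0) (nat_lit 0)) T1.l5
  (TrL.c (I.mix (nat_lit 8088324) (nat_lit 110514882)) (xR T1.l6 T1.l6)
  (TrL.c (I.mix (nat_lit 8088324) (nat_lit 89478486)) (xR T1.l6 T1.l6)
  TrL.n)))))))) (by decide +kernel)
theorem bx2_9 : BoxOK sI cl13 cl9 cl9 t1 t1 b2_9 :=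
  box_mk (TrL.c (I.pos (nat_lit 0) (nat_lit 0)) (xa (xb T1.l0 T1.l0) (xb T1.l0 T1.l0))
  (TrL.c (I.pos (nat_lit 0) (nat_lit 0)) (xa (xk (xb T1.l1 T1.l1) T1.l1) (xk (xb (xa T1.l1 T1.l1) (xa T1.l1 T1.l1)) (xb (xa T1.l1 T1.l5) (xa T1.l1 T1.l5))))
  (TrL.c (I.pos (nat_lit 0) (nat_lit 134217730)) (xR (xR T1.l6 T1.l2) (xR T1.l2 T1.l6))
  (TrL.c (I.pos (nat_lit 0) (nat_lit 110514882)) (xR (xR T1.l6 T1.l3) (xR T1.l3 (xR T1.l3 (xk T1.l3 T1.l3))))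
  (TrL.c (I.pos (nat_lit 0) (nat_lit 0)) (xa (xk (xb T1.l4 T1.l4) (xb T1.l4 T1.l4)) (xk (xb (xa T1.l4 T1.l4) (xa T1.l4 T1.l4)) (xb (xa T1.l4 T1.l4) (xa T1.l4 T1.l4))))
  (TrL.c (I.pos (nat_lit 0) (nat_lit 0)) (xk (xa T1.l5 (xb T1.l5 T1.l5)) (xa T1.l5 (xb T1.l5 T1.l5)))
  (TrL.c (I.mix (nat_lit 8088324) (nat_lit 110514882)) (xR (xR T1.l6 T1.l6) (xR T1.l6 (xR T1.l6 (xR T1.l6 T1.l6))))
  (TrL.c (I.mix (nat_lit 8088324) (nat_lit 89478486)) (xR T1.l7 (xR T1.l7 T1.l7))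
  TrL.n)))))))) (by decide +kernel)
theorem bx2_10 : BoxOK sI cl13 cl9 cl9 t1 t1 b2_10 :=
  box_mk (TrL.c (I.pos (nat_lit 0) (nat_lit 0)) (xa (xb T1.l0 (xa T1.l0 T1.l0)) (xb T1.l0 (xa T1.l0 T1.l0)))
  (TrL.c (I.pos (nat_lit 0) (nat_lit 0)) (xk (xa (xb T1.l1 T1.l1) (xb T1.l1 T1.l1)) (xa T1.l1 (xb T1.l1 T1.l1)))
  (TrL.c (I.pos (nat_lit 0) (nat_lit 134217730)) (xR (xR T1.l6 T1.l2) (xR T1.l2 (xR T1.l2 (xR T1.l2 T1.l2))))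
  (TrL.c (I.pos (nat_lit 0) (nat_lit 110514882)) (xR T1.l6 (xR T1.l3 (xR T1.l3 (xR T1.l3 T1.l3))))
  (TrL.c (I.pos (nat_lit 0) (nat_lit 0)) (xk (xa T1.l4 (xb T1.l4 (xb T1.l4 (xs T1.l4 T1.l4)))) (xa T1.l4 (xb T1.l4 (xb T1.l4 (xs T1.l4 (xk T1.l11 T1.l11))))))
  (TrL.c (I.pos (nat_lit 0) (nat_lit 0)) (xk T1.l5 T1.l5)
  (TrL.c (I.mix (nat_lit 8088324) (nat_lit 110514882)) (xR T1.l6 (xR T1.l6 (xR T1.l6 (xR T1.l6 T1.l6))))
  (TrL.c (I.mix (nat_lit 8088324) (nat_lit 89478486)) (xR T1.l7 (xR T1.l7 (xR T1.l7 T1.l7)))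
  TrL.n)))))))) (by decide +kernel)
theorem bx2_11 : BoxOK sI cl13 cl9 cl9 t1 t1 b2_11 :=
  box_mk (TrL.c (I.pos (nat_lit 0) (nat_lit 0)) (xb (xa T1.l10 T1.l10) (xa T1.l10 T1.l10))
  (TrL.c (I.pos (nat_lit 0) (nat_lit 0)) (xk (xb T1.l1 T1.l1) (xb T1.l1 T1.l1))
  (TrL.c (I.pos (nat_lit 0) (nat_lit 134217730)) (xR T1.l6 (xR T1.l2 T1.l2))
  (TrL.c (I.pos (nat_lit 0) (nat_lit 110514882)) (xR T1.l6 (xR T1.l3 T1.l3))
  (TrL.c (I.pos (nat_lit 0) (nat_lit 0)) (xk (xb (xa T1.l11 T1.l11) T1.l11) (xb (xa T1.l11 T1.l11) T1.l11))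
  (TrL.c (I.pos (nat_lit 0) (nat_lit 0)) (xk T1.l5 T1.l5)
  (TrL.c (I.mix (nat_lit 8088324) (nat_lit 110514882)) (xR T1.l6 (xR T1.l6 (xR T1.l6 (xR T1.l6 T1.l6))))
  (TrL.c (I.mix (nat_lit 8088324) (nat_lit 89478486)) (xR T1.l7 (xR T1.l7 T1.l7))
  TrL.n)))))))) (by decide +kernel)
theorem sv2 : StarV sI cl13 cl9 cl9 t1 t1 t2 :=
  (bt_n (bt_n (bt_n (bt_b bx2_0) (bt_n (bt_b bx2_1) (bt_b bx2_2))) (bt_n (bt_b bx2_3) (bt_n (bt_b bx2_4) (bt_b bx2_5)))) (bt_n (bt_n (bt_b bx2_6) (bt_n (bt_b bx2_7) (bt_b bx2_8))) (bt_n (bt_b bx2_9) (bt_n (bt_b bx2_10) (bt_b bx2_11)))))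
def S2 : StarD := StarD.mk cl13 cl9 cl9 1 1 t2
def G : List StarD := [S0, S1, S2]
theorem so0 : StarOK sI G S0 :=
  star_mk (by decide) (by decide) rfl rfl rfl rfl rfl rfl (rfl : _ = t0) (rfl : _ = t2)
  (st_mk (Pth.l (Pth.l (Pth.l Pth.z))) (nat_lit 115464407) (nat_lit 134024769) (by decide +kernel))
  (st_mk (Pth.l (Pth.l (Pth.l Pth.z))) (nat_lit 150621773) (nat_lit 169521854) (by decide +kernel))
  (st_mk (Pth.l (Pth.l (Pth.l Pth.z))) (nat_lit 191273988) (nat_lit 210659695) (by decide +kernel)) sv0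
theorem so1 : StarOK sI G S1 :=
  star_mk (by decide) (by decide) rfl rfl rfl rfl rfl rfl (rfl : _ = t2) (rfl : _ = t0)
  (st_mk (Pth.l (Pth.l (Pth.l Pth.z))) (nat_lit 96110699) (nat_lit 114638833) (by decide +kernel))
  (st_mk (Pth.l (Pth.l (Pth.l Pth.z))) (nat_lit 131246481) (nat_lit 150094418) (by decide +kernel))
  (st_mk (Pth.l (Pth.l (Pth.l Pth.z))) (nat_lit 171879926) (nat_lit 191196267) (by decide +kernel)) sv1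
theorem so2 : StarOK sI G S2 :=
  star_mk (by decide) (by decide) rfl rfl rfl rfl rfl rfl (rfl : _ = t1) (rfl : _ = t1)
  (st_mk (Pth.l (Pth.l (Pth.l Pth.z))) (nat_lit 115089857) (nat_lit 133517362) (by decide +kernel))
  (st_mk (Pth.l (Pth.l (Pth.l Pth.z))) (nat_lit 149986467) (nat_lit 168706414) (by decide +kernel))
  (st_mk (Pth.l (Pth.l (Pth.l Pth.z))) (nat_lit 190251785) (nat_lit 209395233) (by decide +kernel)) sv2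
theorem ok : GroupOK (nat_lit 209321984) (nat_lit 268435456) G := grp_mk (allS_c so0 (allS_c so1 (allS_c so2 allS_n)))
theorem cov : GCov G cl9 cl9 cl13 := cov_mk
  ⟨0, by decide, rfl, rfl, rfl⟩ ⟨1, by decide, rfl, rfl, rfl⟩ ⟨0, by decide, rfl, rfl, rfl⟩ ⟨1, by decide, rfl, rfl, rfl⟩ ⟨2, by decide, rfl, rfl, rfl⟩ ⟨2, by decide, rfl, rfl, rfl⟩
end Q556_3

namespace Q566_0
def sI : I := I.pos (nat_lit 0) (nat_lit 91291648)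
def b0_0 : Bx := Bx.mk (St.mk (I.pos (nat_lit 157073408) (nat_lit 279068672)) (I.mix (nat_lit 14942208) (nat_lit 55836672)) (I.mix (nat_lit 41631744) (nat_lit 99909632)) (I.pos (nat_lit 89866240) (nat_lit 306102272)) (I.mix (nat_lit 86949888) (nat_lit 63324160)) (I.mix (nat_lit 92045312) (nat_lit 63356928)) (I.mix (nat_lit 140574720) (nat_lit 81821696)))
  false (nat_lit 30452092)
def b0_1 : Bx := Bx.mk (St.mk (I.mix (nat_lit 9797632) (nat_lit 141262848)) (I.mix (nat_lit 4653056) (nat_lit 24035328)) (I.mix (nat_lit 8454144) (nat_lit 22183936)) (I.mix (nat_lit 3145728) (nat_lit 88899584)) (I.mix (nat_lit 21807104) (nat_lit 16629760)) (I.mix (nat_lit 21676032) (nat_lit 11943936)) (I.mix (nat_lit 18956288) (nat_lit 9420800)))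
  false (nat_lit 0)
def b0_2 : Bx := Bx.mk (St.mk (I.pos (nat_lit 119816192) (nat_lit 163151872)) (I.mix (nat_lit 50905088) (nat_lit 5799936)) (I.mix (nat_lit 55590912) (nat_lit 5423104)) (I.pos (nat_lit 54722560) (nat_lit 113770496)) (I.mix (nat_lit 73891840) (nat_lit 24985600)) (I.mix (nat_lit 36356096) (nat_lit 80068608)) (I.mix (nat_lit 31539200) (nat_lit 74350592)))
  false (nat_lit 0)
def b0_3 : Bx := Bx.mk (St.mk (I.mix (nat_lit 12353536) (nat_lit 107560960)) (I.mix (nat_lit 22855680) (nat_lit 2506752)) (I.mix (nat_lit 17776640) (nat_lit 1687552)) (I.mix (nat_lit 2260992) (nat_lit 58327040)) (I.mix (nat_lit 26017792) (nat_lit 11403264)) (I.mix (nat_lit 13860864) (nat_lit 26705920)) (I.mix (nat_lit 8486912) (nat_lit 17055744)))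
  false (nat_lit 0)
def b0_4 : Bx := Bx.mk (St.mk (I.pos (nat_lit 127401984) (nat_lit 183320576)) (I.neg (nat_lit 1753088) (nat_lit 52789248)) (I.neg (nat_lit 2031616) (nat_lit 55623680)) (I.pos (nat_lit 74842112) (nat_lit 141737984)) (I.mix (nat_lit 60080128) (nat_lit 34324480)) (I.mix (nat_lit 34209792) (nat_lit 60080128)) (I.mix (nat_lit 29949952) (nat_lit 63815680)))
  false (nat_lit 0)
def b0_5 : Bx := Bx.mk (St.mk (I.pos (nat_lit 32915456) (nat_lit 114114560)) (I.mix (nat_lit 26214400) (nat_lit 4947968)) (I.mix (nat_lit 20463616) (nat_lit 2031616)) (I.pos (nat_lit 6750208) (nat_lit 65159168)) (I.mix (nat_lit 24117248) (nat_lit 18087936)) (I.mix (nat_lit 15040512) (nat_lit 25198592)) (I.mix (nat_lit 9502720) (nat_lit 18219008)))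
  false (nat_lit 0)
def b0_6 : Bx := Bx.mk (St.mk (I.mix (nat_lit 13008896) (nat_lit 135544832)) (I.mix (nat_lit 12156928) (nat_lit 30670848)) (I.mix (nat_lit 10354688) (nat_lit 26427392)) (I.mix (nat_lit 2949120) (nat_lit 82182144)) (I.mix (nat_lit 39174144) (nat_lit 22003712)) (I.mix (nat_lit 44941312) (nat_lit 23953408)) (I.mix (nat_lit 33619968) (nat_lit 16728064)))
  false (nat_lit 0)
def b0_7 : Bx := Bx.mk (St.mk (I.pos (nat_lit 163053568) (nat_lit 224477184)) (I.mix (nat_lit 39747584) (nat_lit 58638336)) (I.mix (nat_lit 40878080) (nat_lit 96894976)) (I.pos (nat_lit 104349696) (nat_lit 200523776)) (I.mix (nat_lit 117424128) (nat_lit 55656448)) (I.mix (nat_lit 143540224) (nat_lit 70533120)) (I.mix (nat_lit 179109888) (nat_lit 79069184)))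
  false (nat_lit 0)
def t0 : BTr := (BTr.n (BTr.n (BTr.n (BTr.b b0_0) (BTr.b b0_1)) (BTr.n (BTr.b b0_2) (BTr.b b0_3))) (BTr.n (BTr.n (BTr.b b0_4) (BTr.b b0_5)) (BTr.n (BTr.b b0_6) (BTr.b b0_7))))
namespace T0
def l0 : Tr := Tr.L (Pth.l (Pth.l (Pth.l Pth.z)))
def l1 : Tr := Tr.L (Pth.l (Pth.l (Pth.r Pth.z)))
def l2 : Tr := Tr.L (Pth.l (Pth.r (Pth.l Pth.z)))
def l3 : Tr := Tr.L (Pth.l (Pth.r (Pth.r Pth.z)))
def l4 : Tr := Tr.L (Pth.r (Pth.l (Pth.l Pth.z)))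
def l5 : Tr := Tr.L (Pth.r (Pth.l (Pth.r Pth.z)))
def l6 : Tr := Tr.L (Pth.r (Pth.r (Pth.l Pth.z)))
def l7 : Tr := Tr.L (Pth.r (Pth.r (Pth.r Pth.z)))
end T0
def b1_0 : Bx := Bx.mk (St.mk (I.pos (nat_lit 157073408) (nat_lit 279183360)) (I.mix (nat_lit 12828672) (nat_lit 58146816)) (I.mix (nat_lit 37879808) (nat_lit 103858176)) (I.pos (nat_lit 108953600) (nat_lit 325353472)) (I.mix (nat_lit 92225536) (nat_lit 64946176)) (I.mix (nat_lit 95518720) (nat_lit 64094208)) (I.mix (nat_lit 143376384) (nat_lit 80773120)))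
  false (nat_lit 52647225)
def b1_1 : Bx := Bx.mk (St.mk (I.pos (nat_lit 119963648) (nat_lit 179486720)) (I.neg (nat_lit 3178496) (nat_lit 56442880)) (I.neg (nat_lit 507904) (nat_lit 54263808)) (I.pos (nat_lit 85655552) (nat_lit 156221440)) (I.mix (nat_lit 60243968) (nat_lit 34848768)) (I.mix (nat_lit 33685504) (nat_lit 59736064)) (I.mix (nat_lit 28295168) (nat_lit 60686336)))
  false (nat_lit 0)
def b1_2 : Bx := Bx.mk (St.mk (I.mix (nat_lit 15810560) (nat_lit 131170304)) (I.mix (nat_lit 4243456) (nat_lit 27394048)) (I.mix (nat_lit 8159232) (nat_lit 23281664)) (I.pos (nat_lit 15269888) (nat_lit 98516992)) (I.mix (nat_lit 25231360) (nat_lit 20971520)) (I.mix (nat_lit 29442048) (nat_lit 16187392)) (I.mix (nat_lit 23461888) (nat_lit 12435456)))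
  false (nat_lit 0)
def b1_3 : Bx := Bx.mk (St.mk (I.mix (nat_lit 14581760) (nat_lit 101957632)) (I.mix (nat_lit 28491776) (nat_lit 2637824)) (I.mix (nat_lit 19496960) (nat_lit 3457024)) (I.pos (nat_lit 16089088) (nat_lit 74399744)) (I.mix (nat_lit 23592960) (nat_lit 17694720)) (I.mix (nat_lit 14778368) (nat_lit 25264128)) (I.mix (nat_lit 9027584) (nat_lit 15892480)))
  false (nat_lit 0)
def b1_4 : Bx := Bx.mk (St.mk (I.pos (nat_lit 158924800) (nat_lit 222625792)) (I.mix (nat_lit 39567360) (nat_lit 63373312)) (I.mix (nat_lit 37044224) (nat_lit 104054784)) (I.pos (nat_lit 116260864) (nat_lit 216121344)) (I.mix (nat_lit 121372672) (nat_lit 54951936)) (I.mix (nat_lit 143409152) (nat_lit 70467584)) (I.mix (nat_lit 173654016) (nat_lit 76693504)))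
  false (nat_lit 0)
def b1_5 : Bx := Bx.mk (St.mk (I.pos (nat_lit 110444544) (nat_lit 156712960)) (I.mix (nat_lit 54394880) (nat_lit 5324800)) (I.mix (nat_lit 55345152) (nat_lit 4603904)) (I.pos (nat_lit 65159168) (nat_lit 124846080)) (I.mix (nat_lit 72876032) (nat_lit 26492928)) (I.mix (nat_lit 37650432) (nat_lit 75956224)) (I.mix (nat_lit 29704192) (nat_lit 64061440)))
  false (nat_lit 0)
def b1_6 : Bx := Bx.mk (St.mk (I.mix (nat_lit 22511616) (nat_lit 123551744)) (I.mix (nat_lit 11501568) (nat_lit 32522240)) (I.mix (nat_lit 8454144) (nat_lit 26984448)) (I.pos (nat_lit 15826944) (nat_lit 90800128)) (I.mix (nat_lit 38699008) (nat_lit 20840448)) (I.mix (nat_lit 43335680) (nat_lit 23052288)) (I.mix (nat_lit 29114368) (nat_lit 14532608)))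
  false (nat_lit 0)
def b1_7 : Bx := Bx.mk (St.mk (I.mix (nat_lit 18661376) (nat_lit 99385344)) (I.mix (nat_lit 25804800) (nat_lit 2834432)) (I.mix (nat_lit 17940480) (nat_lit 2342912)) (I.pos (nat_lit 16498688) (nat_lit 69451776)) (I.mix (nat_lit 25362432) (nat_lit 12451840)) (I.mix (nat_lit 14417920) (nat_lit 26918912)) (I.mix (nat_lit 7815168) (nat_lit 14319616)))
  false (nat_lit 0)
def t1 : BTr := (BTr.n (BTr.n (BTr.n (BTr.b b1_0) (BTr.b b1_1)) (BTr.n (BTr.b b1_2) (BTr.b b1_3))) (BTr.n (BTr.n (BTr.b b1_4) (BTr.b b1_5)) (BTr.n (BTr.b b1_6) (BTr.b b1_7))))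
namespace T1
def l0 : Tr := Tr.L (Pth.l (Pth.l (Pth.l Pth.z)))
def l1 : Tr := Tr.L (Pth.l (Pth.l (Pth.r Pth.z)))
def l2 : Tr := Tr.L (Pth.l (Pth.r (Pth.l Pth.z)))
def l3 : Tr := Tr.L (Pth.l (Pth.r (Pth.r Pth.z)))
def l4 : Tr := Tr.L (Pth.r (Pth.l (Pth.l Pth.z)))
def l5 : Tr := Tr.L (Pth.r (Pth.l (Pth.r Pth.z)))
def l6 : Tr := Tr.L (Pth.r (Pth.r (Pth.l Pth.z)))
def l7 : Tr := Tr.L (Pth.r (Pth.r (Pth.r Pth.z)))
end T1
def b2_0 : Bx := Bx.mk (St.mk (I.pos (nat_lit 157138944) (nat_lit 277266432)) (I.mix (nat_lit 12681216) (nat_lit 54427648)) (I.mix (nat_lit 25477120) (nat_lit 105791488)) (I.pos (nat_lit 89849856) (nat_lit 301432832)) (I.mix (nat_lit 89522176) (nat_lit 65437696)) (I.mix (nat_lit 97452032) (nat_lit 65683456)) (I.mix (nat_lit 148783104) (nat_lit 86097920)))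
  false (nat_lit 29466740)
def b2_1 : Bx := Bx.mk (St.mk (I.pos (nat_lit 128811008) (nat_lit 184598528)) (I.neg (nat_lit 3293184) (nat_lit 53067776)) (I.mix (nat_lit 50462720) (nat_lit 1654784)) (I.pos (nat_lit 76070912) (nat_lit 143343616)) (I.mix (nat_lit 57524224) (nat_lit 33701888)) (I.mix (nat_lit 33357824) (nat_lit 56967168)) (I.mix (nat_lit 28459008) (nat_lit 59867136)))
  false (nat_lit 0)
def b2_2 : Bx := Bx.mk (St.mk (I.mix (nat_lit 8749056) (nat_lit 116555776)) (I.mix (nat_lit 25886720) (nat_lit 4243456)) (I.mix (nat_lit 18317312) (nat_lit 4669440)) (I.mix (nat_lit 2473984) (nat_lit 65978368)) (I.mix (nat_lit 22298624) (nat_lit 17186816)) (I.mix (nat_lit 13991936) (nat_lit 23085056)) (I.mix (nat_lit 8994816) (nat_lit 16629760)))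
  false (nat_lit 0)
def b2_3 : Bx := Bx.mk (St.mk (I.pos (nat_lit 163233792) (nat_lit 223723520)) (I.mix (nat_lit 38830080) (nat_lit 58933248)) (I.mix (nat_lit 34242560) (nat_lit 103301120)) (I.pos (nat_lit 104251392) (nat_lit 198770688)) (I.mix (nat_lit 121782272) (nat_lit 58687488)) (I.mix (nat_lit 148111360) (nat_lit 70516736)) (I.mix (nat_lit 187760640) (nat_lit 75546624)))
  false (nat_lit 0)
def b2_4 : Bx := Bx.mk (St.mk (I.mix (nat_lit 13221888) (nat_lit 134987776)) (I.mix (nat_lit 11927552) (nat_lit 30834688)) (I.mix (nat_lit 7880704) (nat_lit 29114368)) (I.mix (nat_lit 2932736) (nat_lit 81477632)) (I.mix (nat_lit 40894464) (nat_lit 21004288)) (I.mix (nat_lit 44269568) (nat_lit 23183360)) (I.mix (nat_lit 33751040) (nat_lit 15777792)))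
  false (nat_lit 0)
def b2_5 : Bx := Bx.mk (St.mk (I.pos (nat_lit 120733696) (nat_lit 164380672)) (I.mix (nat_lit 51331072) (nat_lit 5898240)) (I.mix (nat_lit 52101120) (nat_lit 8880128)) (I.pos (nat_lit 55394304) (nat_lit 114950144)) (I.mix (nat_lit 71680000) (nat_lit 26869760)) (I.mix (nat_lit 37814272) (nat_lit 78200832)) (I.mix (nat_lit 32899072) (nat_lit 70713344)))
  false (nat_lit 0)
def b2_6 : Bx := Bx.mk (St.mk (I.pos (nat_lit 36618240) (nat_lit 106807296)) (I.mix (nat_lit 22839296) (nat_lit 2621440)) (I.mix (nat_lit 15859712) (nat_lit 3522560)) (I.pos (nat_lit 3506176) (nat_lit 58605568)) (I.mix (nat_lit 24772608) (nat_lit 12042240)) (I.mix (nat_lit 14204928) (nat_lit 26869760)) (I.mix (nat_lit 8699904) (nat_lit 16826368)))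
  false (nat_lit 0)
def b2_7 : Bx := Bx.mk (St.mk (I.pos (nat_lit 52887552) (nat_lit 137740288)) (I.mix (nat_lit 3981312) (nat_lit 20430848)) (I.mix (nat_lit 4571136) (nat_lit 21659648)) (I.pos (nat_lit 13467648) (nat_lit 87228416)) (I.mix (nat_lit 23412736) (nat_lit 19480576)) (I.mix (nat_lit 27754496) (nat_lit 13877248)) (I.mix (nat_lit 24313856) (nat_lit 11550720)))
  false (nat_lit 0)
def t2 : BTr := (BTr.n (BTr.n (BTr.n (BTr.b b2_0) (BTr.b b2_1)) (BTr.n (BTr.b b2_2) (BTr.b b2_3))) (BTr.n (BTr.n (BTr.b b2_4) (BTr.b b2_5)) (BTr.n (BTr.b b2_6) (BTr.b b2_7))))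
namespace T2
def l0 : Tr := Tr.L (Pth.l (Pth.l (Pth.l Pth.z)))
def l1 : Tr := Tr.L (Pth.l (Pth.l (Pth.r Pth.z)))
def l2 : Tr := Tr.L (Pth.l (Pth.r (Pth.l Pth.z)))
def l3 : Tr := Tr.L (Pth.l (Pth.r (Pth.r Pth.z)))
def l4 : Tr := Tr.L (Pth.r (Pth.l (Pth.l Pth.z)))
def l5 : Tr := Tr.L (Pth.r (Pth.l (Pth.r Pth.z)))
def l6 : Tr := Tr.L (Pth.r (Pth.r (Pth.l Pth.z)))
def l7 : Tr := Tr.L (Pth.r (Pth.r (Pth.r Pth.z)))
end T2
theorem bx0_0 : BoxOK sI cl9 cl13 cl13 t1 t1 b0_0 :=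
  box_mk (TrL.c (I.pos (nat_lit 0) (nat_lit 0)) (xa T1.l0 T1.l0)
  (TrL.c (I.pos (nat_lit 0) (nat_lit 0)) (xa T1.l1 T1.l1)
  (TrL.c (I.pos (nat_lit 0) (nat_lit 124588530)) (xR T1.l2 T1.l6)
  (TrL.c (I.pos (nat_lit 0) (nat_lit 96881482)) (xR T1.l3 T1.l3)
  (TrL.c (I.pos (nat_lit 0) (nat_lit 0)) (xa T1.l4 (xk (xa T1.l4 (xb T1.l4 T1.l4)) (xa T1.l4 (xb T1.l4 T1.l4))))
  (TrL.c (I.pos (nat_lit 0) (nat_lit 0)) T1.l5
  (TrL.c (I.mix (nat_lit 17240550) (nat_lit 96881482)) (xR T1.l6 (xR T1.l6 T1.l6))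
  (TrL.c (I.mix (nat_lit 17240550) (nat_lit 71940500)) (xR T1.l7 T1.l7)
  TrL.n)))))))) (by decide +kernel)
theorem bx0_1 : BoxOK sI cl9 cl13 cl13 t1 t1 b0_1 :=
  box_mk (TrL.c (I.pos (nat_lit 0) (nat_lit 0)) T1.l0
  (TrL.c (I.pos (nat_lit 0) (nat_lit 0)) T1.l1
  (TrL.c (I.pos (nat_lit 0) (nat_lit 124588530)) T1.l2
  (TrL.c (I.pos (nat_lit 0) (nat_lit 96881482)) (xR T1.l3 T1.l3)
  (TrL.c (I.pos (nat_lit 0) (nat_lit 0)) T1.l4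
  (TrL.c (I.pos (nat_lit 0) (nat_lit 0)) T1.l5
  (TrL.c (I.mix (nat_lit 17240550) (nat_lit 96881482)) T1.l6
  (TrL.c (I.mix (nat_lit 17240550) (nat_lit 71940500)) T1.l6
  TrL.n)))))))) (by decide +kernel)
theorem bx0_2 : BoxOK sI cl9 cl13 cl13 t1 t1 b0_2 :=
  box_mk (TrL.c (I.pos (nat_lit 0) (nat_lit 0)) T1.l0
  (TrL.c (I.pos (nat_lit 0) (nat_lit 0)) T1.l1
  (TrL.c (I.pos (nat_lit 0) (nat_lit 124588530)) (xR T1.l2 T1.l2)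
  (TrL.c (I.pos (nat_lit 0) (nat_lit 96881482)) T1.l3
  (TrL.c (I.pos (nat_lit 0) (nat_lit 0)) T1.l4
  (TrL.c (I.pos (nat_lit 0) (nat_lit 0)) T1.l5
  (TrL.c (I.mix (nat_lit 17240550) (nat_lit 96881482)) T1.l6
  (TrL.c (I.mix (nat_lit 17240550) (nat_lit 71940500)) T1.l7
  TrL.n)))))))) (by decide +kernel)
theorem bx0_3 : BoxOK sI cl9 cl13 cl13 t1 t1 b0_3 :=
  box_mk (TrL.c (I.pos (nat_lit 0) (nat_lit 0)) (xa T1.l0 T1.l0)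
  (TrL.c (I.pos (nat_lit 0) (nat_lit 0)) T1.l1
  (TrL.c (I.pos (nat_lit 0) (nat_lit 124588530)) T1.l2
  (TrL.c (I.pos (nat_lit 0) (nat_lit 96881482)) (xR T1.l3 T1.l3)
  (TrL.c (I.pos (nat_lit 0) (nat_lit 0)) T1.l4
  (TrL.c (I.pos (nat_lit 0) (nat_lit 0)) T1.l5
  (TrL.c (I.mix (nat_lit 17240550) (nat_lit 96881482)) T1.l6
  (TrL.c (I.mix (nat_lit 17240550) (nat_lit 71940500)) T1.l7
  TrL.n)))))))) (by decide +kernel)
theorem bx0_4 : BoxOK sI cl9 cl13 cl13 t1 t1 b0_4 :=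
  box_mk (TrL.c (I.pos (nat_lit 0) (nat_lit 0)) T1.l0
  (TrL.c (I.pos (nat_lit 0) (nat_lit 0)) T1.l1
  (TrL.c (I.pos (nat_lit 0) (nat_lit 124588530)) (xR T1.l2 T1.l2)
  (TrL.c (I.pos (nat_lit 0) (nat_lit 96881482)) (xR T1.l3 T1.l3)
  (TrL.c (I.pos (nat_lit 0) (nat_lit 0)) T1.l4
  (TrL.c (I.pos (nat_lit 0) (nat_lit 0)) T1.l5
  (TrL.c (I.mix (nat_lit 17240550) (nat_lit 96881482)) (xR T1.l6 T1.l6)
  (TrL.c (I.mix (nat_lit 17240550) (nat_lit 71940500)) T1.l7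
  TrL.n)))))))) (by decide +kernel)
theorem bx0_5 : BoxOK sI cl9 cl13 cl13 t1 t1 b0_5 :=
  box_mk (TrL.c (I.pos (nat_lit 0) (nat_lit 0)) T1.l0
  (TrL.c (I.pos (nat_lit 0) (nat_lit 0)) T1.l1
  (TrL.c (I.pos (nat_lit 0) (nat_lit 124588530)) T1.l2
  (TrL.c (I.pos (nat_lit 0) (nat_lit 96881482)) T1.l3
  (TrL.c (I.pos (nat_lit 0) (nat_lit 0)) T1.l4
  (TrL.c (I.pos (nat_lit 0) (nat_lit 0)) T1.l5
  (TrL.c (I.mix (nat_lit 17240550) (nat_lit 96881482)) T1.l6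
  (TrL.c (I.mix (nat_lit 17240550) (nat_lit 71940500)) T1.l7
  TrL.n)))))))) (by decide +kernel)
theorem bx0_6 : BoxOK sI cl9 cl13 cl13 t1 t1 b0_6 :=
  box_mk (TrL.c (I.pos (nat_lit 0) (nat_lit 0)) (xa T1.l0 T1.l0)
  (TrL.c (I.pos (nat_lit 0) (nat_lit 0)) T1.l1
  (TrL.c (I.pos (nat_lit 0) (nat_lit 124588530)) T1.l2
  (TrL.c (I.pos (nat_lit 0) (nat_lit 96881482)) (xR T1.l3 T1.l3)
  (TrL.c (I.pos (nat_lit 0) (nat_lit 0)) T1.l4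
  (TrL.c (I.pos (nat_lit 0) (nat_lit 0)) T1.l5
  (TrL.c (I.mix (nat_lit 17240550) (nat_lit 96881482)) T1.l6
  (TrL.c (I.mix (nat_lit 17240550) (nat_lit 71940500)) T1.l6
  TrL.n)))))))) (by decide +kernel)
theorem bx0_7 : BoxOK sI cl9 cl13 cl13 t1 t1 b0_7 :=
  box_mk (TrL.c (I.pos (nat_lit 0) (nat_lit 0)) (xb T1.l0 T1.l0)
  (TrL.c (I.pos (nat_lit 0) (nat_lit 0)) T1.l1
  (TrL.c (I.pos (nat_lit 0) (nat_lit 124588530)) (xR T1.l2 (xR T1.l2 T1.l2))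
  (TrL.c (I.pos (nat_lit 0) (nat_lit 96881482)) (xR T1.l3 T1.l3)
  (TrL.c (I.pos (nat_lit 0) (nat_lit 0)) (xb (xa T1.l4 T1.l4) (xs T1.l4 (xb T1.l4 (xa T1.l4 T1.l4))))
  (TrL.c (I.pos (nat_lit 0) (nat_lit 0)) T1.l5
  (TrL.c (I.mix (nat_lit 17240550) (nat_lit 96881482)) (xR T1.l6 T1.l6)
  (TrL.c (I.mix (nat_lit 17240550) (nat_lit 71940500)) (xR T1.l7 T1.l7)
  TrL.n)))))))) (by decide +kernel)
theorem sv0 : StarV sI cl9 cl13 cl13 t1 t1 t0 :=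
  (bt_n (bt_n (bt_n (bt_b bx0_0) (bt_b bx0_1)) (bt_n (bt_b bx0_2) (bt_b bx0_3))) (bt_n (bt_n (bt_b bx0_4) (bt_b bx0_5)) (bt_n (bt_b bx0_6) (bt_b bx0_7))))
def S0 : StarD := StarD.mk cl9 cl13 cl13 1 1 t0
theorem bx1_0 : BoxOK sI cl13 cl9 cl13 t0 t2 b1_0 :=
  box_mk (TrL.c (I.pos (nat_lit 0) (nat_lit 0)) (xa T0.l0 T0.l0)
  (TrL.c (I.pos (nat_lit 0) (nat_lit 0)) (xa T2.l1 T2.l1)
  (TrL.c (I.pos (nat_lit 0) (nat_lit 134217730)) (xR T0.l6 T0.l6)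
  (TrL.c (I.pos (nat_lit 0) (nat_lit 110514882)) (xR T2.l2 T2.l2)
  (TrL.c (I.pos (nat_lit 0) (nat_lit 0)) (xa T2.l3 (xk (xa T2.l3 (xb T2.l3 (xs T2.l3 T2.l3))) (xa T2.l3 (xb T2.l3 (xs T2.l3 (xb T2.l3 T2.l3))))))
  (TrL.c (I.pos (nat_lit 0) (nat_lit 0)) T0.l2
  (TrL.c (I.mix (nat_lit 8088324) (nat_lit 110514882)) (xR T2.l4 (xR T2.l4 T2.l4))
  (TrL.c (I.mix (nat_lit 8088324) (nat_lit 89478486)) (xR T0.l3 T0.l3)
  TrL.n)))))))) (by decide +kernel)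
theorem bx1_1 : BoxOK sI cl13 cl9 cl13 t0 t2 b1_1 :=
  box_mk (TrL.c (I.pos (nat_lit 0) (nat_lit 0)) T0.l0
  (TrL.c (I.pos (nat_lit 0) (nat_lit 0)) T2.l1
  (TrL.c (I.pos (nat_lit 0) (nat_lit 134217730)) (xR T0.l1 T0.l1)
  (TrL.c (I.pos (nat_lit 0) (nat_lit 110514882)) (xR T2.l2 T2.l2)
  (TrL.c (I.pos (nat_lit 0) (nat_lit 0)) T2.l3
  (TrL.c (I.pos (nat_lit 0) (nat_lit 0)) T0.l2
  (TrL.c (I.mix (nat_lit 8088324) (nat_lit 110514882)) T2.l4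
  (TrL.c (I.mix (nat_lit 8088324) (nat_lit 89478486)) T0.l3
  TrL.n)))))))) (by decide +kernel)
theorem bx1_2 : BoxOK sI cl13 cl9 cl13 t0 t2 b1_2 :=
  box_mk (TrL.c (I.pos (nat_lit 0) (nat_lit 0)) T0.l0
  (TrL.c (I.pos (nat_lit 0) (nat_lit 0)) T2.l1
  (TrL.c (I.pos (nat_lit 0) (nat_lit 134217730)) (xR T0.l1 T0.l1)
  (TrL.c (I.pos (nat_lit 0) (nat_lit 110514882)) (xR T2.l2 T2.l2)
  (TrL.c (I.pos (nat_lit 0) (nat_lit 0)) T2.l3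
  (TrL.c (I.pos (nat_lit 0) (nat_lit 0)) T0.l2
  (TrL.c (I.mix (nat_lit 8088324) (nat_lit 110514882)) T2.l4
  (TrL.c (I.mix (nat_lit 8088324) (nat_lit 89478486)) T0.l3
  TrL.n)))))))) (by decide +kernel)
theorem bx1_3 : BoxOK sI cl13 cl9 cl13 t0 t2 b1_3 :=
  box_mk (TrL.c (I.pos (nat_lit 0) (nat_lit 0)) T0.l0
  (TrL.c (I.pos (nat_lit 0) (nat_lit 0)) T2.l1
  (TrL.c (I.pos (nat_lit 0) (nat_lit 134217730)) (xR T0.l1 T0.l1)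
  (TrL.c (I.pos (nat_lit 0) (nat_lit 110514882)) (xR T2.l2 T2.l2)
  (TrL.c (I.pos (nat_lit 0) (nat_lit 0)) T2.l3
  (TrL.c (I.pos (nat_lit 0) (nat_lit 0)) T0.l2
  (TrL.c (I.mix (nat_lit 8088324) (nat_lit 110514882)) T2.l4
  (TrL.c (I.mix (nat_lit 8088324) (nat_lit 89478486)) T0.l3
  TrL.n)))))))) (by decide +kernel)
theorem bx1_4 : BoxOK sI cl13 cl9 cl13 t0 t2 b1_4 :=
  box_mk (TrL.c (I.pos (nat_lit 0) (nat_lit 0)) (xb T0.l0 T0.l0)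
  (TrL.c (I.pos (nat_lit 0) (nat_lit 0)) T2.l1
  (TrL.c (I.pos (nat_lit 0) (nat_lit 134217730)) (xR T0.l1 T0.l6)
  (TrL.c (I.pos (nat_lit 0) (nat_lit 110514882)) (xR T2.l2 T2.l2)
  (TrL.c (I.pos (nat_lit 0) (nat_lit 0)) (xb T2.l3 (xs T2.l3 (xb T2.l3 (xa T2.l3 (xk (xs T2.l3 (xb T2.l3 (xa T2.l3 T2.l3))) (xs T2.l3 (xb T2.l3 (xa T2.l3 (xk T2.l3 T2.l3)))))))))
  (TrL.c (I.pos (nat_lit 0) (nat_lit 0)) T0.l2
  (TrL.c (I.mix (nat_lit 8088324) (nat_lit 110514882)) (xR T2.l4 T2.l4)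
  (TrL.c (I.mix (nat_lit 8088324) (nat_lit 89478486)) (xR T0.l3 T0.l3)
  TrL.n)))))))) (by decide +kernel)
theorem bx1_5 : BoxOK sI cl13 cl9 cl13 t0 t2 b1_5 :=
  box_mk (TrL.c (I.pos (nat_lit 0) (nat_lit 0)) T0.l0
  (TrL.c (I.pos (nat_lit 0) (nat_lit 0)) T2.l1
  (TrL.c (I.pos (nat_lit 0) (nat_lit 134217730)) (xR T0.l1 T0.l1)
  (TrL.c (I.pos (nat_lit 0) (nat_lit 110514882)) (xR T2.l2 T2.l2)
  (TrL.c (I.pos (nat_lit 0) (nat_lit 0)) T2.l3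
  (TrL.c (I.pos (nat_lit 0) (nat_lit 0)) T0.l2
  (TrL.c (I.mix (nat_lit 8088324) (nat_lit 110514882)) T2.l4
  (TrL.c (I.mix (nat_lit 8088324) (nat_lit 89478486)) T0.l3
  TrL.n)))))))) (by decide +kernel)
theorem bx1_6 : BoxOK sI cl13 cl9 cl13 t0 t2 b1_6 :=
  box_mk (TrL.c (I.pos (nat_lit 0) (nat_lit 0)) T0.l0
  (TrL.c (I.pos (nat_lit 0) (nat_lit 0)) T2.l1
  (TrL.c (I.pos (nat_lit 0) (nat_lit 134217730)) (xR T0.l1 T0.l1)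
  (TrL.c (I.pos (nat_lit 0) (nat_lit 110514882)) (xR T2.l2 T2.l2)
  (TrL.c (I.pos (nat_lit 0) (nat_lit 0)) T2.l3
  (TrL.c (I.pos (nat_lit 0) (nat_lit 0)) T0.l2
  (TrL.c (I.mix (nat_lit 8088324) (nat_lit 110514882)) T2.l4
  (TrL.c (I.mix (nat_lit 8088324) (nat_lit 89478486)) T0.l3
  TrL.n)))))))) (by decide +kernel)
theorem bx1_7 : BoxOK sI cl13 cl9 cl13 t0 t2 b1_7 :=
  box_mk (TrL.c (I.pos (nat_lit 0) (nat_lit 0)) (xa T0.l0 T0.l0)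
  (TrL.c (I.pos (nat_lit 0) (nat_lit 0)) T2.l1
  (TrL.c (I.pos (nat_lit 0) (nat_lit 134217730)) (xR T0.l1 T0.l1)
  (TrL.c (I.pos (nat_lit 0) (nat_lit 110514882)) (xR T2.l2 T2.l2)
  (TrL.c (I.pos (nat_lit 0) (nat_lit 0)) T2.l3
  (TrL.c (I.pos (nat_lit 0) (nat_lit 0)) T0.l2
  (TrL.c (I.mix (nat_lit 8088324) (nat_lit 110514882)) T2.l4
  (TrL.c (I.mix (nat_lit 8088324) (nat_lit 89478486)) T0.l3
  TrL.n)))))))) (by decide +kernel)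
theorem sv1 : StarV sI cl13 cl9 cl13 t0 t2 t1 :=
  (bt_n (bt_n (bt_n (bt_b bx1_0) (bt_b bx1_1)) (bt_n (bt_b bx1_2) (bt_b bx1_3))) (bt_n (bt_n (bt_b bx1_4) (bt_b bx1_5)) (bt_n (bt_b bx1_6) (bt_b bx1_7))))
def S1 : StarD := StarD.mk cl13 cl9 cl13 0 2 t1
theorem bx2_0 : BoxOK sI cl13 cl13 cl9 t2 t0 b2_0 :=
  box_mk (TrL.c (I.pos (nat_lit 0) (nat_lit 0)) (xa T2.l0 T2.l0)
  (TrL.c (I.pos (nat_lit 0) (nat_lit 0)) (xa T0.l4 T0.l4)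
  (TrL.c (I.pos (nat_lit 0) (nat_lit 134217730)) (xR T2.l4 T2.l4)
  (TrL.c (I.pos (nat_lit 0) (nat_lit 110514882)) (xR T0.l3 T0.l5)
  (TrL.c (I.pos (nat_lit 0) (nat_lit 0)) (xa T0.l7 (xk (xa T0.l7 (xb T0.l7 (xs T0.l7 (xb T0.l7 T0.l7)))) (xa T0.l7 (xb T0.l7 (xs T0.l7 (xb T0.l7 (xs T0.l7 (xa T0.l7 T0.l7))))))))
  (TrL.c (I.pos (nat_lit 0) (nat_lit 0)) T2.l5
  (TrL.c (I.mix (nat_lit 8088324) (nat_lit 110514882)) (xR T0.l6 (xR T0.l6 T0.l6))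
  (TrL.c (I.mix (nat_lit 8088324) (nat_lit 89478486)) (xR T2.l2 T2.l6)
  TrL.n)))))))) (by decide +kernel)
theorem bx2_1 : BoxOK sI cl13 cl13 cl9 t2 t0 b2_1 :=
  box_mk (TrL.c (I.pos (nat_lit 0) (nat_lit 0)) T2.l0
  (TrL.c (I.pos (nat_lit 0) (nat_lit 0)) T0.l4
  (TrL.c (I.pos (nat_lit 0) (nat_lit 134217730)) (xR T2.l4 T2.l4)
  (TrL.c (I.pos (nat_lit 0) (nat_lit 110514882)) (xR T0.l3 T0.l5)
  (TrL.c (I.pos (nat_lit 0) (nat_lit 0)) T0.l7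
  (TrL.c (I.pos (nat_lit 0) (nat_lit 0)) T2.l5
  (TrL.c (I.mix (nat_lit 8088324) (nat_lit 110514882)) T0.l6
  (TrL.c (I.mix (nat_lit 8088324) (nat_lit 89478486)) T2.l2
  TrL.n)))))))) (by decide +kernel)
theorem bx2_2 : BoxOK sI cl13 cl13 cl9 t2 t0 b2_2 :=
  box_mk (TrL.c (I.pos (nat_lit 0) (nat_lit 0)) (xa T2.l0 T2.l0)
  (TrL.c (I.pos (nat_lit 0) (nat_lit 0)) T0.l4
  (TrL.c (I.pos (nat_lit 0) (nat_lit 134217730)) (xR T2.l2 T2.l7)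
  (TrL.c (I.pos (nat_lit 0) (nat_lit 110514882)) (xR T0.l3 T0.l5)
  (TrL.c (I.pos (nat_lit 0) (nat_lit 0)) T0.l7
  (TrL.c (I.pos (nat_lit 0) (nat_lit 0)) T2.l5
  (TrL.c (I.mix (nat_lit 8088324) (nat_lit 110514882)) T0.l6
  (TrL.c (I.mix (nat_lit 8088324) (nat_lit 89478486)) T2.l4
  TrL.n)))))))) (by decide +kernel)
theorem bx2_3 : BoxOK sI cl13 cl13 cl9 t2 t0 b2_3 :=
  box_mk (TrL.c (I.pos (nat_lit 0) (nat_lit 0)) (xb T2.l0 T2.l0)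
  (TrL.c (I.pos (nat_lit 0) (nat_lit 0)) T0.l4
  (TrL.c (I.pos (nat_lit 0) (nat_lit 134217730)) (xR T2.l4 (xR T2.l7 T2.l4))
  (TrL.c (I.pos (nat_lit 0) (nat_lit 110514882)) (xR T0.l3 T0.l5)
  (TrL.c (I.pos (nat_lit 0) (nat_lit 0)) (xb (xa T0.l7 T0.l7) (xs T0.l7 (xb T0.l7 (xa T0.l7 (xk (xs T0.l7 T0.l7) (xs T0.l7 (xb T0.l7 (xa T0.l7 (xk T0.l7 T0.l7)))))))))
  (TrL.c (I.pos (nat_lit 0) (nat_lit 0)) T2.l5
  (TrL.c (I.mix (nat_lit 8088324) (nat_lit 110514882)) (xR T0.l6 T0.l6)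
  (TrL.c (I.mix (nat_lit 8088324) (nat_lit 89478486)) (xR T2.l2 T2.l6)
  TrL.n)))))))) (by decide +kernel)
theorem bx2_4 : BoxOK sI cl13 cl13 cl9 t2 t0 b2_4 :=
  box_mk (TrL.c (I.pos (nat_lit 0) (nat_lit 0)) (xa T2.l0 T2.l0)
  (TrL.c (I.pos (nat_lit 0) (nat_lit 0)) T0.l4
  (TrL.c (I.pos (nat_lit 0) (nat_lit 134217730)) (xR T2.l4 T2.l7)
  (TrL.c (I.pos (nat_lit 0) (nat_lit 110514882)) (xR T0.l3 T0.l5)
  (TrL.c (I.pos (nat_lit 0) (nat_lit 0)) T0.l7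
  (TrL.c (I.pos (nat_lit 0) (nat_lit 0)) T2.l5
  (TrL.c (I.mix (nat_lit 8088324) (nat_lit 110514882)) T0.l6
  (TrL.c (I.mix (nat_lit 8088324) (nat_lit 89478486)) T2.l4
  TrL.n)))))))) (by decide +kernel)
theorem bx2_5 : BoxOK sI cl13 cl13 cl9 t2 t0 b2_5 :=
  box_mk (TrL.c (I.pos (nat_lit 0) (nat_lit 0)) T2.l0
  (TrL.c (I.pos (nat_lit 0) (nat_lit 0)) T0.l4
  (TrL.c (I.pos (nat_lit 0) (nat_lit 134217730)) (xR T2.l4 T2.l4)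
  (TrL.c (I.pos (nat_lit 0) (nat_lit 110514882)) (xR T0.l3 T0.l5)
  (TrL.c (I.pos (nat_lit 0) (nat_lit 0)) T0.l7
  (TrL.c (I.pos (nat_lit 0) (nat_lit 0)) T2.l5
  (TrL.c (I.mix (nat_lit 8088324) (nat_lit 110514882)) T0.l6
  (TrL.c (I.mix (nat_lit 8088324) (nat_lit 89478486)) T2.l2
  TrL.n)))))))) (by decide +kernel)
theorem bx2_6 : BoxOK sI cl13 cl13 cl9 t2 t0 b2_6 :=
  box_mk (TrL.c (I.pos (nat_lit 0) (nat_lit 0)) T2.l0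
  (TrL.c (I.pos (nat_lit 0) (nat_lit 0)) T0.l4
  (TrL.c (I.pos (nat_lit 0) (nat_lit 134217730)) (xR T2.l2 T2.l7)
  (TrL.c (I.pos (nat_lit 0) (nat_lit 110514882)) (xR T0.l1 T0.l5)
  (TrL.c (I.pos (nat_lit 0) (nat_lit 0)) T0.l7
  (TrL.c (I.pos (nat_lit 0) (nat_lit 0)) T2.l5
  (TrL.c (I.mix (nat_lit 8088324) (nat_lit 110514882)) T0.l6
  (TrL.c (I.mix (nat_lit 8088324) (nat_lit 89478486)) T2.l2
  TrL.n)))))))) (by decide +kernel)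
theorem bx2_7 : BoxOK sI cl13 cl13 cl9 t2 t0 b2_7 :=
  box_mk (TrL.c (I.pos (nat_lit 0) (nat_lit 0)) T2.l0
  (TrL.c (I.pos (nat_lit 0) (nat_lit 0)) T0.l4
  (TrL.c (I.pos (nat_lit 0) (nat_lit 134217730)) (xR T2.l4 T2.l7)
  (TrL.c (I.pos (nat_lit 0) (nat_lit 110514882)) (xR T0.l3 T0.l5)
  (TrL.c (I.pos (nat_lit 0) (nat_lit 0)) T0.l7
  (TrL.c (I.pos (nat_lit 0) (nat_lit 0)) T2.l5
  (TrL.c (I.mix (nat_lit 8088324) (nat_lit 110514882)) T0.l6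
  (TrL.c (I.mix (nat_lit 8088324) (nat_lit 89478486)) T2.l2
  TrL.n)))))))) (by decide +kernel)
theorem sv2 : StarV sI cl13 cl13 cl9 t2 t0 t2 :=
  (bt_n (bt_n (bt_n (bt_b bx2_0) (bt_b bx2_1)) (bt_n (bt_b bx2_2) (bt_b bx2_3))) (bt_n (bt_n (bt_b bx2_4) (bt_b bx2_5)) (bt_n (bt_b bx2_6) (bt_b bx2_7))))
def S2 : StarD := StarD.mk cl13 cl13 cl9 2 0 t2
def G : List StarD := [S0, S1, S2]
theorem so0 : StarOK sI G S0 :=
  star_mk (by decide) (by decide) rfl rfl rfl rfl rfl rfl (rfl : _ = t1) (rfl : _ = t1)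
  (st_mk (Pth.l (Pth.l (Pth.l Pth.z))) (nat_lit 95982566) (nat_lit 114363175) (by decide +kernel))
  (st_mk (Pth.l (Pth.l (Pth.l Pth.z))) (nat_lit 131008330) (nat_lit 149618983) (by decide +kernel))
  (st_mk (Pth.l (Pth.l (Pth.l Pth.z))) (nat_lit 171472128) (nat_lit 190420506) (by decide +kernel)) sv0
theorem so1 : StarOK sI G S1 :=
  star_mk (by decide) (by decide) rfl rfl rfl rfl rfl rfl (rfl : _ = t0) (rfl : _ = t2)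
  (st_mk (Pth.l (Pth.l (Pth.l Pth.z))) (nat_lit 115089857) (nat_lit 133345198) (by decide +kernel))
  (st_mk (Pth.l (Pth.l (Pth.l Pth.z))) (nat_lit 149986467) (nat_lit 168430497) (by decide +kernel))
  (st_mk (Pth.l (Pth.l (Pth.l Pth.z))) (nat_lit 190251785) (nat_lit 208968757) (by decide +kernel)) sv1
theorem so2 : StarOK sI G S2 :=
  star_mk (by decide) (by decide) rfl rfl rfl rfl rfl rfl (rfl : _ = t2) (rfl : _ = t0)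
  (st_mk (Pth.l (Pth.l (Pth.l Pth.z))) (nat_lit 96368329) (nat_lit 113571276) (by decide +kernel))
  (st_mk (Pth.l (Pth.l (Pth.l Pth.z))) (nat_lit 130728068) (nat_lit 149180425) (by decide +kernel))
  (st_mk (Pth.l (Pth.l (Pth.l Pth.z))) (nat_lit 170993386) (nat_lit 189707378) (by decide +kernel)) sv2
theorem ok : GroupOK (nat_lit 0) (nat_lit 91291648) G := grp_mk (allS_c so0 (allS_c so1 (allS_c so2 allS_n)))
theorem cov : GCov G cl9 cl13 cl13 := cov_mk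
  ⟨0, by decide, rfl, rfl, rfl⟩ ⟨0, by decide, rfl, rfl, rfl⟩ ⟨1, by decide, rfl, rfl, rfl⟩ ⟨2, by decide, rfl, rfl, rfl⟩ ⟨1, by decide, rfl, rfl, rfl⟩ ⟨2, by decide, rfl, rfl, rfl⟩
end Q566_0

namespace Q566_1
def sI : I := I.pos (nat_lit 91226112) (nat_lit 150339584)
def b0_0 : Bx := Bx.mk (St.mk (I.pos (nat_lit 155615232) (nat_lit 247529472)) (I.mix (nat_lit 3260416) (nat_lit 53100544)) (I.mix (nat_lit 5652480) (nat_lit 95158272)) (I.pos (nat_lit 88342528) (nat_lit 232079360)) (I.mix (nat_lit 80920576) (nat_lit 41631744)) (I.mix (nat_lit 59736064) (nat_lit 45694976)) (I.mix (nat_lit 85377024) (nat_lit 58540032)))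
  false (nat_lit 7848137)
def b0_1 : Bx := Bx.mk (St.mk (I.mix (nat_lit 18251776) (nat_lit 148209664)) (I.mix (nat_lit 7208960) (nat_lit 24248320)) (I.mix (nat_lit 11059200) (nat_lit 23117824)) (I.mix (nat_lit 5799936) (nat_lit 92700672)) (I.mix (nat_lit 23248896) (nat_lit 21413888)) (I.mix (nat_lit 23429120) (nat_lit 15073280)) (I.mix (nat_lit 20332544) (nat_lit 12140544)))
  false (nat_lit 0)
def b0_2 : Bx := Bx.mk (St.mk (I.pos (nat_lit 116277248) (nat_lit 163987456)) (I.mix (nat_lit 52264960) (nat_lit 9584640)) (I.mix (nat_lit 57212928) (nat_lit 9207808)) (I.pos (nat_lit 51527680) (nat_lit 116310016)) (I.mix (nat_lit 68747264) (nat_lit 21413888)) (I.mix (nat_lit 25378816) (nat_lit 59342848)) (I.mix (nat_lit 22315008) (nat_lit 55263232)))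
  false (nat_lit 0)
def b0_3 : Bx := Bx.mk (St.mk (I.mix (nat_lit 17858560) (nat_lit 112984064)) (I.mix (nat_lit 24297472) (nat_lit 4096000)) (I.mix (nat_lit 18939904) (nat_lit 2736128)) (I.mix (nat_lit 4014080) (nat_lit 61210624)) (I.mix (nat_lit 24657920) (nat_lit 10829824)) (I.mix (nat_lit 10928128) (nat_lit 19513344)) (I.mix (nat_lit 6504448) (nat_lit 12533760)))
  false (nat_lit 0)
def b0_4 : Bx := Bx.mk (St.mk (I.pos (nat_lit 207798272) (nat_lit 283262976)) (I.mix (nat_lit 22560768) (nat_lit 39321600)) (I.mix (nat_lit 56459264) (nat_lit 72663040)) (I.pos (nat_lit 180486144) (nat_lit 314441728)) (I.mix (nat_lit 55099392) (nat_lit 36732928)) (I.mix (nat_lit 43859968) (nat_lit 26476544)) (I.mix (nat_lit 68485120) (nat_lit 48562176)))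
  false (nat_lit 0)
def b0_5 : Bx := Bx.mk (St.mk (I.pos (nat_lit 115343360) (nat_lit 187908096)) (I.mix (nat_lit 55033856) (nat_lit 2473984)) (I.mix (nat_lit 60686336) (nat_lit 2621440)) (I.pos (nat_lit 66322432) (nat_lit 147472384)) (I.mix (nat_lit 64372736) (nat_lit 31113216)) (I.mix (nat_lit 29851648) (nat_lit 49266688)) (I.mix (nat_lit 25526272) (nat_lit 51281920)))
  false (nat_lit 0)
def b0_6 : Bx := Bx.mk (St.mk (I.mix (nat_lit 29933568) (nat_lit 121257984)) (I.mix (nat_lit 27361280) (nat_lit 7700480)) (I.mix (nat_lit 22233088) (nat_lit 5177344)) (I.mix (nat_lit 4423680) (nat_lit 68222976)) (I.mix (nat_lit 26411008) (nat_lit 21528576)) (I.mix (nat_lit 16416768) (nat_lit 22708224)) (I.mix (nat_lit 10682368) (nat_lit 16564224)))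
  false (nat_lit 0)
def b0_7 : Bx := Bx.mk (St.mk (I.pos (nat_lit 177373184) (nat_lit 223510528)) (I.mix (nat_lit 16793600) (nat_lit 55050240)) (I.mix (nat_lit 3588096) (nat_lit 92127232)) (I.pos (nat_lit 119373824) (nat_lit 200687616)) (I.mix (nat_lit 104955904) (nat_lit 33849344)) (I.mix (nat_lit 101171200) (nat_lit 46710784)) (I.mix (nat_lit 122339328) (nat_lit 47808512)))
  false (nat_lit 0)
def b0_8 : Bx := Bx.mk (St.mk (I.mix (nat_lit 27131904) (nat_lit 143556608)) (I.mix (nat_lit 15122432) (nat_lit 35536896)) (I.mix (nat_lit 12894208) (nat_lit 30277632)) (I.mix (nat_lit 6258688) (nat_lit 86786048)) (I.mix (nat_lit 40681472) (nat_lit 20545536)) (I.mix (nat_lit 38240256) (nat_lit 19038208)) (I.mix (nat_lit 28147712) (nat_lit 13434880)))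
  false (nat_lit 0)
def b0_9 : Bx := Bx.mk (St.mk (I.pos (nat_lit 159137792) (nat_lit 219873280)) (I.mix (nat_lit 41713664) (nat_lit 23085056)) (I.mix (nat_lit 44269568) (nat_lit 44908544)) (I.pos (nat_lit 98369536) (nat_lit 190758912)) (I.mix (nat_lit 47431680) (nat_lit 42483712)) (I.mix (nat_lit 46563328) (nat_lit 42237952)) (I.mix (nat_lit 50233344) (nat_lit 45711360)))
  false (nat_lit 0)
def b0_10 : Bx := Bx.mk (St.mk (I.pos (nat_lit 179879936) (nat_lit 221511680)) (I.mix (nat_lit 18366464) (nat_lit 34177024)) (I.mix (nat_lit 7651328) (nat_lit 62455808)) (I.pos (nat_lit 124862464) (nat_lit 191447040)) (I.mix (nat_lit 83623936) (nat_lit 47022080)) (I.mix (nat_lit 94896128) (nat_lit 50888704)) (I.mix (nat_lit 114458624) (nat_lit 55885824)))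
  false (nat_lit 0)
def b0_11 : Bx := Bx.mk (St.mk (I.pos (nat_lit 192102400) (nat_lit 240582656)) (I.pos (nat_lit 12189696) (nat_lit 51363840)) (I.pos (nat_lit 23969792) (nat_lit 92553216)) (I.pos (nat_lit 165380096) (nat_lit 219119616)) (I.mix (nat_lit 72810496) (nat_lit 49856512)) (I.mix (nat_lit 67862528) (nat_lit 46432256)) (I.mix (nat_lit 100614144) (nat_lit 57835520)))
  false (nat_lit 0)
def t0 : BTr := (BTr.n (BTr.n (BTr.n (BTr.b b0_0) (BTr.n (BTr.b b0_1) (BTr.b b0_2))) (BTr.n (BTr.b b0_3) (BTr.n (BTr.b b0_4) (BTr.b b0_5)))) (BTr.n (BTr.n (BTr.b b0_6) (BTr.n (BTr.b b0_7) (BTr.b b0_8))) (BTr.n (BTr.b b0_9) (BTr.n (BTr.b b0_10) (BTr.b b0_11)))))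
namespace T0
def l0 : Tr := Tr.L (Pth.l (Pth.l (Pth.l Pth.z)))
def l1 : Tr := Tr.L (Pth.l (Pth.l (Pth.r (Pth.l Pth.z))))
def l2 : Tr := Tr.L (Pth.l (Pth.l (Pth.r (Pth.r Pth.z))))
def l3 : Tr := Tr.L (Pth.l (Pth.r (Pth.l Pth.z)))
def l4 : Tr := Tr.L (Pth.l (Pth.r (Pth.r (Pth.l Pth.z))))
def l5 : Tr := Tr.L (Pth.l (Pth.r (Pth.r (Pth.r Pth.z))))
def l6 : Tr := Tr.L (Pth.r (Pth.l (Pth.l Pth.z)))
def l7 : Tr := Tr.L (Pth.r (Pth.l (Pth.r (Pth.l Pth.z))))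
def l8 : Tr := Tr.L (Pth.r (Pth.l (Pth.r (Pth.r Pth.z))))
def l9 : Tr := Tr.L (Pth.r (Pth.r (Pth.l Pth.z)))
def l10 : Tr := Tr.L (Pth.r (Pth.r (Pth.r (Pth.l Pth.z))))
def l11 : Tr := Tr.L (Pth.r (Pth.r (Pth.r (Pth.r Pth.z))))
end T0
def b1_0 : Bx := Bx.mk (St.mk (I.pos (nat_lit 155844608) (nat_lit 243630080)) (I.mix (nat_lit 3227648) (nat_lit 52346880)) (I.mix (nat_lit 5570560) (nat_lit 93782016)) (I.pos (nat_lit 107642880) (nat_lit 246857728)) (I.mix (nat_lit 80510976) (nat_lit 46628864)) (I.mix (nat_lit 58720256) (nat_lit 47300608)) (I.mix (nat_lit 83755008) (nat_lit 61095936)))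
  false (nat_lit 26521153)
def b1_1 : Bx := Bx.mk (St.mk (I.pos (nat_lit 109789184) (nat_lit 183828480)) (I.mix (nat_lit 60981248) (nat_lit 1114112)) (I.mix (nat_lit 60407808) (nat_lit 3915776)) (I.pos (nat_lit 77905920) (nat_lit 160776192)) (I.mix (nat_lit 65290240) (nat_lit 32948224)) (I.mix (nat_lit 32538624) (nat_lit 50118656)) (I.mix (nat_lit 26247168) (nat_lit 49971200)))
  false (nat_lit 0)
def b1_2 : Bx := Bx.mk (St.mk (I.mix (nat_lit 25378816) (nat_lit 137641984)) (I.mix (nat_lit 7208960) (nat_lit 28606464)) (I.mix (nat_lit 10928128) (nat_lit 24494080)) (I.pos (nat_lit 11583488) (nat_lit 102416384)) (I.mix (nat_lit 25149440) (nat_lit 23199744)) (I.mix (nat_lit 26279936) (nat_lit 16416768)) (I.mix (nat_lit 21086208) (nat_lit 12222464)))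
  false (nat_lit 0)
def b1_3 : Bx := Bx.mk (St.mk (I.mix (nat_lit 35078144) (nat_lit 108118016)) (I.mix (nat_lit 31539200) (nat_lit 7208960)) (I.mix (nat_lit 22364160) (nat_lit 6537216)) (I.pos (nat_lit 11403264) (nat_lit 77266944)) (I.mix (nat_lit 28000256) (nat_lit 21037056)) (I.mix (nat_lit 15499264) (nat_lit 22462464)) (I.mix (nat_lit 9732096) (nat_lit 14319616)))
  false (nat_lit 0)
def b1_4 : Bx := Bx.mk (St.mk (I.pos (nat_lit 174014464) (nat_lit 220872704)) (I.mix (nat_lit 11976704) (nat_lit 58064896)) (I.pos (nat_lit 1753088) (nat_lit 97189888)) (I.pos (nat_lit 136200192) (nat_lit 215695360)) (I.mix (nat_lit 105267200) (nat_lit 30621696)) (I.mix (nat_lit 99532800) (nat_lit 45547520)) (I.mix (nat_lit 117522432) (nat_lit 44695552)))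
  false (nat_lit 12833460)
def b1_5 : Bx := Bx.mk (St.mk (I.pos (nat_lit 106135552) (nat_lit 157220864)) (I.mix (nat_lit 54837248) (nat_lit 9437184)) (I.mix (nat_lit 56229888) (nat_lit 8404992)) (I.pos (nat_lit 61800448) (nat_lit 127156224)) (I.mix (nat_lit 69124096) (nat_lit 22036480)) (I.mix (nat_lit 26066944) (nat_lit 61702144)) (I.mix (nat_lit 21299200) (nat_lit 52740096)))
  false (nat_lit 0)
def b1_6 : Bx := Bx.mk (St.mk (I.mix (nat_lit 31211520) (nat_lit 130072576)) (I.mix (nat_lit 14745600) (nat_lit 36012032)) (I.mix (nat_lit 11747328) (nat_lit 29720576)) (I.pos (nat_lit 13156352) (nat_lit 94617600)) (I.mix (nat_lit 38846464) (nat_lit 19824640)) (I.mix (nat_lit 38256640) (nat_lit 17694720)) (I.mix (nat_lit 25313280) (nat_lit 11534336)))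
  false (nat_lit 0)
def b1_7 : Bx := Bx.mk (St.mk (I.mix (nat_lit 23035904) (nat_lit 93814784)) (I.neg (nat_lit 573440) (nat_lit 22642688)) (I.mix (nat_lit 15990784) (nat_lit 3964928)) (I.pos (nat_lit 14696448) (nat_lit 67158016)) (I.mix (nat_lit 25772032) (nat_lit 12419072)) (I.mix (nat_lit 11124736) (nat_lit 24199168)) (I.mix (nat_lit 6062080) (nat_lit 12664832)))
  false (nat_lit 0)
def b1_8 : Bx := Bx.mk (St.mk (I.pos (nat_lit 206323712) (nat_lit 284786688)) (I.mix (nat_lit 21561344) (nat_lit 40910848)) (I.mix (nat_lit 55083008) (nat_lit 75792384)) (I.pos (nat_lit 194330624) (nat_lit 334872576)) (I.mix (nat_lit 54738944) (nat_lit 41779200)) (I.mix (nat_lit 43270144) (nat_lit 26705920)) (I.mix (nat_lit 73662464) (nat_lit 46972928)))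
  false (nat_lit 17351016)
def b1_9 : Bx := Bx.mk (St.mk (I.pos (nat_lit 154599424) (nat_lit 217071616)) (I.mix (nat_lit 42057728) (nat_lit 25640960)) (I.mix (nat_lit 41598976) (nat_lit 51085312)) (I.pos (nat_lit 111804416) (nat_lit 205176832)) (I.mix (nat_lit 46809088) (nat_lit 42729472)) (I.mix (nat_lit 47480832) (nat_lit 42696704)) (I.mix (nat_lit 49741824) (nat_lit 44695552)))
  false (nat_lit 0)
def b1_10 : Bx := Bx.mk (St.mk (I.pos (nat_lit 188612608) (nat_lit 237633536)) (I.pos (nat_lit 13139968) (nat_lit 53805056)) (I.pos (nat_lit 26198016) (nat_lit 96862208)) (I.pos (nat_lit 177569792) (nat_lit 233226240)) (I.mix (nat_lit 78381056) (nat_lit 48922624)) (I.mix (nat_lit 67223552) (nat_lit 45350912)) (I.mix (nat_lit 102137856) (nat_lit 55263232)))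
  false (nat_lit 12893695)
def b1_11 : Bx := Bx.mk (St.mk (I.pos (nat_lit 175554560) (nat_lit 217907200)) (I.mix (nat_lit 16236544) (nat_lit 36716544)) (I.mix (nat_lit 2801664) (nat_lit 67747840)) (I.pos (nat_lit 138903552) (nat_lit 205127680)) (I.mix (nat_lit 82493440) (nat_lit 44433408)) (I.mix (nat_lit 89604096) (nat_lit 48185344)) (I.mix (nat_lit 104202240) (nat_lit 50774016)))
  false (nat_lit 0)
def t1 : BTr := (BTr.n (BTr.n (BTr.n (BTr.b b1_0) (BTr.n (BTr.b b1_1) (BTr.b b1_2))) (BTr.n (BTr.b b1_3) (BTr.n (BTr.b b1_4) (BTr.b b1_5)))) (BTr.n (BTr.n (BTr.b b1_6) (BTr.n (BTr.b b1_7) (BTr.b b1_8))) (BTr.n (BTr.b b1_9) (BTr.n (BTr.b b1_10) (BTr.b b1_11)))))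
namespace T1
def l0 : Tr := Tr.L (Pth.l (Pth.l (Pth.l Pth.z)))
def l1 : Tr := Tr.L (Pth.l (Pth.l (Pth.r (Pth.l Pth.z))))
def l2 : Tr := Tr.L (Pth.l (Pth.l (Pth.r (Pth.r Pth.z))))
def l3 : Tr := Tr.L (Pth.l (Pth.r (Pth.l Pth.z)))
def l4 : Tr := Tr.L (Pth.l (Pth.r (Pth.r (Pth.l Pth.z))))
def l5 : Tr := Tr.L (Pth.l (Pth.r (Pth.r (Pth.r Pth.z))))
def l6 : Tr := Tr.L (Pth.r (Pth.l (Pth.l Pth.z)))
def l7 : Tr := Tr.L (Pth.r (Pth.l (Pth.r (Pth.l Pth.z))))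
def l8 : Tr := Tr.L (Pth.r (Pth.l (Pth.r (Pth.r Pth.z))))
def l9 : Tr := Tr.L (Pth.r (Pth.r (Pth.l Pth.z)))
def l10 : Tr := Tr.L (Pth.r (Pth.r (Pth.r (Pth.l Pth.z))))
def l11 : Tr := Tr.L (Pth.r (Pth.r (Pth.r (Pth.r Pth.z))))
end T1
def b2_0 : Bx := Bx.mk (St.mk (I.pos (nat_lit 155795456) (nat_lit 244400128)) (I.mix (nat_lit 2965504) (nat_lit 47874048)) (I.mix (nat_lit 5570560) (nat_lit 93814784)) (I.pos (nat_lit 88358912) (nat_lit 228048896)) (I.mix (nat_lit 80773120) (nat_lit 41959424)) (I.mix (nat_lit 59801600) (nat_lit 43106304)) (I.mix (nat_lit 82149376) (nat_lit 55246848)))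
  false (nat_lit 7930561)
def b2_1 : Bx := Bx.mk (St.mk (I.pos (nat_lit 118603776) (nat_lit 189104128)) (I.mix (nat_lit 55246848) (nat_lit 622592)) (I.mix (nat_lit 53641216) (nat_lit 6881280)) (I.pos (nat_lit 68190208) (nat_lit 148504576)) (I.mix (nat_lit 60866560) (nat_lit 30588928)) (I.mix (nat_lit 29802496) (nat_lit 45957120)) (I.mix (nat_lit 25313280) (nat_lit 47218688)))
  false (nat_lit 0)
def b2_2 : Bx := Bx.mk (St.mk (I.mix (nat_lit 28704768) (nat_lit 122404864)) (I.mix (nat_lit 27279360) (nat_lit 6864896)) (I.mix (nat_lit 19709952) (nat_lit 7733248)) (I.mix (nat_lit 4440064) (nat_lit 68763648)) (I.mix (nat_lit 24182784) (nat_lit 20922368)) (I.mix (nat_lit 15630336) (nat_lit 21889024)) (I.mix (nat_lit 10141696) (nat_lit 15613952)))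
  false (nat_lit 0)
def b2_3 : Bx := Bx.mk (St.mk (I.pos (nat_lit 177930240) (nat_lit 222085120)) (I.mix (nat_lit 16384000) (nat_lit 53755904)) (I.pos (nat_lit 589824) (nat_lit 96223232)) (I.pos (nat_lit 118849536) (nat_lit 197361664)) (I.mix (nat_lit 105086976) (nat_lit 31162368)) (I.mix (nat_lit 101777408) (nat_lit 46579712)) (I.mix (nat_lit 125714432) (nat_lit 46235648)))
  false (nat_lit 5108147)
def b2_4 : Bx := Bx.mk (St.mk (I.mix (nat_lit 22085632) (nat_lit 144605184)) (I.mix (nat_lit 14974976) (nat_lit 35143680)) (I.mix (nat_lit 10371072) (nat_lit 32604160)) (I.mix (nat_lit 5439488) (nat_lit 86360064)) (I.mix (nat_lit 41664512) (nat_lit 19464192)) (I.mix (nat_lit 37863424) (nat_lit 18513920)) (I.mix (nat_lit 28475392) (nat_lit 12435456)))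
  false (nat_lit 0)
def b2_5 : Bx := Bx.mk (St.mk (I.pos (nat_lit 158334976) (nat_lit 219807744)) (I.mix (nat_lit 44875776) (nat_lit 22691840)) (I.mix (nat_lit 43286528) (nat_lit 50380800)) (I.pos (nat_lit 99663872) (nat_lit 189251584)) (I.mix (nat_lit 45531136) (nat_lit 45268992)) (I.mix (nat_lit 47628288) (nat_lit 43614208)) (I.mix (nat_lit 51150848) (nat_lit 46874624)))
  false (nat_lit 0)
def b2_6 : Bx := Bx.mk (St.mk (I.pos (nat_lit 178847744) (nat_lit 219709440)) (I.mix (nat_lit 17678336) (nat_lit 32997376)) (I.mix (nat_lit 1785856) (nat_lit 66945024)) (I.pos (nat_lit 123158528) (nat_lit 188006400)) (I.mix (nat_lit 85557248) (nat_lit 43991040)) (I.mix (nat_lit 97583104) (nat_lit 47349760)) (I.mix (nat_lit 119160832) (nat_lit 51068928)))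
  false (nat_lit 0)
def b2_7 : Bx := Bx.mk (St.mk (I.pos (nat_lit 116719616) (nat_lit 166068224)) (I.mix (nat_lit 53903360) (nat_lit 9977856)) (I.mix (nat_lit 54984704) (nat_lit 13107200)) (I.pos (nat_lit 52019200) (nat_lit 118374400)) (I.mix (nat_lit 68714496) (nat_lit 23396352)) (I.mix (nat_lit 27361280) (nat_lit 59965440)) (I.mix (nat_lit 24182784) (nat_lit 54804480)))
  false (nat_lit 0)
def b2_8 : Bx := Bx.mk (St.mk (I.pos (nat_lit 197836800) (nat_lit 283328512)) (I.mix (nat_lit 21348352) (nat_lit 40681472)) (I.mix (nat_lit 44744704) (nat_lit 84492288)) (I.pos (nat_lit 167411712) (nat_lit 313540608)) (I.mix (nat_lit 54231040) (nat_lit 39649280)) (I.mix (nat_lit 41959424) (nat_lit 27459584)) (I.mix (nat_lit 66830336) (nat_lit 42614784)))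
  false (nat_lit 6872846)
def b2_9 : Bx := Bx.mk (St.mk (I.pos (nat_lit 29720576) (nat_lit 143540224)) (I.mix (nat_lit 6766592) (nat_lit 25100288)) (I.mix (nat_lit 7356416) (nat_lit 26640384)) (I.pos (nat_lit 7405568) (nat_lit 91176960)) (I.mix (nat_lit 27623424) (nat_lit 22167552)) (I.mix (nat_lit 26017792) (nat_lit 16220160)) (I.mix (nat_lit 22691840) (nat_lit 12845056)))
  false (nat_lit 0)
def b2_10 : Bx := Bx.mk (St.mk (I.pos (nat_lit 190627840) (nat_lit 241729536)) (I.pos (nat_lit 5046272) (nat_lit 49987584)) (I.pos (nat_lit 16875520) (nat_lit 97779712)) (I.pos (nat_lit 161595392) (nat_lit 218644480)) (I.mix (nat_lit 74612736) (nat_lit 49152000)) (I.mix (nat_lit 68288512) (nat_lit 47661056)) (I.mix (nat_lit 104939520) (nat_lit 60801024)))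
  false (nat_lit 5335895)
def b2_11 : Bx := Bx.mk (St.mk (I.mix (nat_lit 15564800) (nat_lit 113967104)) (I.mix (nat_lit 24412160) (nat_lit 1933312)) (I.mix (nat_lit 17235968) (nat_lit 5292032)) (I.mix (nat_lit 4046848) (nat_lit 61652992)) (I.mix (nat_lit 24412160) (nat_lit 12697600)) (I.mix (nat_lit 11386880) (nat_lit 22413312)) (I.mix (nat_lit 6815744) (nat_lit 13893632)))
  false (nat_lit 0)
def t2 : BTr := (BTr.n (BTr.n (BTr.n (BTr.b b2_0) (BTr.n (BTr.b b2_1) (BTr.b b2_2))) (BTr.n (BTr.b b2_3) (BTr.n (BTr.b b2_4) (BTr.b b2_5)))) (BTr.n (BTr.n (BTr.b b2_6) (BTr.n (BTr.b b2_7) (BTr.b b2_8))) (BTr.n (BTr.b b2_9) (BTr.n (BTr.b b2_10) (BTr.b b2_11)))))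
namespace T2
def l0 : Tr := Tr.L (Pth.l (Pth.l (Pth.l Pth.z)))
def l1 : Tr := Tr.L (Pth.l (Pth.l (Pth.r (Pth.l Pth.z))))
def l2 : Tr := Tr.L (Pth.l (Pth.l (Pth.r (Pth.r Pth.z))))
def l3 : Tr := Tr.L (Pth.l (Pth.r (Pth.l Pth.z)))
def l4 : Tr := Tr.L (Pth.l (Pth.r (Pth.r (Pth.l Pth.z))))
def l5 : Tr := Tr.L (Pth.l (Pth.r (Pth.r (Pth.r Pth.z))))
def l6 : Tr := Tr.L (Pth.r (Pth.l (Pth.l Pth.z)))
def l7 : Tr := Tr.L (Pth.r (Pth.l (Pth.r (Pth.l Pth.z))))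
def l8 : Tr := Tr.L (Pth.r (Pth.l (Pth.r (Pth.r Pth.z))))
def l9 : Tr := Tr.L (Pth.r (Pth.r (Pth.l Pth.z)))
def l10 : Tr := Tr.L (Pth.r (Pth.r (Pth.r (Pth.l Pth.z))))
def l11 : Tr := Tr.L (Pth.r (Pth.r (Pth.r (Pth.r Pth.z))))
end T2
theorem bx0_0 : BoxOK sI cl9 cl13 cl13 t1 t1 b0_0 :=
  box_mk (TrL.c (I.pos (nat_lit 0) (nat_lit 0)) (xa (xa (xb T1.l0 T1.l0) T1.l0) (xa T1.l0 T1.l0))
  (TrL.c (I.pos (nat_lit 0) (nat_lit 0)) T1.l1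
  (TrL.c (I.pos (nat_lit 0) (nat_lit 124588530)) (xR T1.l2 T1.l2)
  (TrL.c (I.pos (nat_lit 0) (nat_lit 96881482)) T1.l3
  (TrL.c (I.pos (nat_lit 0) (nat_lit 0)) (xa (xk T1.l4 T1.l4) (xk (xb T1.l4 (xa T1.l4 T1.l4)) (xb T1.l4 T1.l4)))
  (TrL.c (I.pos (nat_lit 0) (nat_lit 0)) T1.l5
  (TrL.c (I.mix (nat_lit 17240550) (nat_lit 96881482)) (xR T1.l6 T1.l6)
  (TrL.c (I.mix (nat_lit 17240550) (nat_lit 71940500)) T1.l7
  TrL.n)))))))) (by decide +kernel)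
theorem bx0_1 : BoxOK sI cl9 cl13 cl13 t1 t1 b0_1 :=
  box_mk (TrL.c (I.pos (nat_lit 0) (nat_lit 0)) (xa (xa T1.l8 T1.l8) (xa T1.l8 T1.l8))
  (TrL.c (I.pos (nat_lit 0) (nat_lit 0)) T1.l1
  (TrL.c (I.pos (nat_lit 0) (nat_lit 124588530)) T1.l2
  (TrL.c (I.pos (nat_lit 0) (nat_lit 96881482)) T1.l3
  (TrL.c (I.pos (nat_lit 0) (nat_lit 0)) (xa T1.l9 T1.l9)
  (TrL.c (I.pos (nat_lit 0) (nat_lit 0)) T1.l5
  (TrL.c (I.mix (nat_lit 17240550) (nat_lit 96881482)) T1.l6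
  (TrL.c (I.mix (nat_lit 17240550) (nat_lit 71940500)) T1.l3
  TrL.n)))))))) (by decide +kernel)
theorem bx0_2 : BoxOK sI cl9 cl13 cl13 t1 t1 b0_2 :=
  box_mk (TrL.c (I.pos (nat_lit 0) (nat_lit 0)) (xb T1.l8 (xa T1.l8 T1.l8))
  (TrL.c (I.pos (nat_lit 0) (nat_lit 0)) T1.l1
  (TrL.c (I.pos (nat_lit 0) (nat_lit 124588530)) T1.l2
  (TrL.c (I.pos (nat_lit 0) (nat_lit 96881482)) T1.l3
  (TrL.c (I.pos (nat_lit 0) (nat_lit 0)) (xb T1.l9 T1.l9)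
  (TrL.c (I.pos (nat_lit 0) (nat_lit 0)) T1.l5
  (TrL.c (I.mix (nat_lit 17240550) (nat_lit 96881482)) T1.l6
  (TrL.c (I.mix (nat_lit 17240550) (nat_lit 71940500)) T1.l7
  TrL.n)))))))) (by decide +kernel)
theorem bx0_3 : BoxOK sI cl9 cl13 cl13 t1 t1 b0_3 :=
  box_mk (TrL.c (I.pos (nat_lit 0) (nat_lit 0)) T1.l8
  (TrL.c (I.pos (nat_lit 0) (nat_lit 0)) T1.l1
  (TrL.c (I.pos (nat_lit 0) (nat_lit 124588530)) T1.l2
  (TrL.c (I.pos (nat_lit 0) (nat_lit 96881482)) T1.l3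
  (TrL.c (I.pos (nat_lit 0) (nat_lit 0)) T1.l9
  (TrL.c (I.pos (nat_lit 0) (nat_lit 0)) T1.l5
  (TrL.c (I.mix (nat_lit 17240550) (nat_lit 96881482)) T1.l6
  (TrL.c (I.mix (nat_lit 17240550) (nat_lit 71940500)) T1.l3
  TrL.n)))))))) (by decide +kernel)
theorem bx0_4 : BoxOK sI cl9 cl13 cl13 t1 t1 b0_4 :=
  box_mk (TrL.c (I.pos (nat_lit 0) (nat_lit 0)) (xa T1.l0 (xb T1.l0 T1.l0))
  (TrL.c (I.pos (nat_lit 0) (nat_lit 0)) T1.l1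
  (TrL.c (I.pos (nat_lit 0) (nat_lit 124588530)) (xR T1.l2 T1.l6)
  (TrL.c (I.pos (nat_lit 0) (nat_lit 96881482)) T1.l3
  (TrL.c (I.pos (nat_lit 0) (nat_lit 0)) (xa (xb (xk T1.l4 T1.l4) T1.l4) (xb (xk (xa T1.l4 T1.l4) (xa T1.l4 T1.l4)) (xk (xa T1.l4 T1.l4) (xa T1.l4 T1.l4))))
  (TrL.c (I.pos (nat_lit 0) (nat_lit 0)) T1.l5
  (TrL.c (I.mix (nat_lit 17240550) (nat_lit 96881482)) (xR T1.l6 T1.l6)
  (TrL.c (I.mix (nat_lit 17240550) (nat_lit 71940500)) T1.l3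
  TrL.n)))))))) (by decide +kernel)
theorem bx0_5 : BoxOK sI cl9 cl13 cl13 t1 t1 b0_5 :=
  box_mk (TrL.c (I.pos (nat_lit 0) (nat_lit 0)) (xa (xb T1.l8 T1.l8) T1.l0)
  (TrL.c (I.pos (nat_lit 0) (nat_lit 0)) T1.l1
  (TrL.c (I.pos (nat_lit 0) (nat_lit 124588530)) T1.l2
  (TrL.c (I.pos (nat_lit 0) (nat_lit 96881482)) T1.l3
  (TrL.c (I.pos (nat_lit 0) (nat_lit 0)) (xa T1.l9 (xb (xk T1.l9 T1.l9) T1.l9))
  (TrL.c (I.pos (nat_lit 0) (nat_lit 0)) T1.l5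
  (TrL.c (I.mix (nat_lit 17240550) (nat_lit 96881482)) T1.l6
  (TrL.c (I.mix (nat_lit 17240550) (nat_lit 71940500)) T1.l7
  TrL.n)))))))) (by decide +kernel)
theorem bx0_6 : BoxOK sI cl9 cl13 cl13 t1 t1 b0_6 :=
  box_mk (TrL.c (I.pos (nat_lit 0) (nat_lit 0)) (xa (xa (xb (xa T1.l8 T1.l8) T1.l8) T1.l8) T1.l8)
  (TrL.c (I.pos (nat_lit 0) (nat_lit 0)) T1.l1
  (TrL.c (I.pos (nat_lit 0) (nat_lit 124588530)) T1.l2
  (TrL.c (I.pos (nat_lit 0) (nat_lit 96881482)) T1.l3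
  (TrL.c (I.pos (nat_lit 0) (nat_lit 0)) (xa T1.l9 T1.l9)
  (TrL.c (I.pos (nat_lit 0) (nat_lit 0)) T1.l5
  (TrL.c (I.mix (nat_lit 17240550) (nat_lit 96881482)) T1.l6
  (TrL.c (I.mix (nat_lit 17240550) (nat_lit 71940500)) T1.l3
  TrL.n)))))))) (by decide +kernel)
theorem bx0_7 : BoxOK sI cl9 cl13 cl13 t1 t1 b0_7 :=
  box_mk (TrL.c (I.pos (nat_lit 0) (nat_lit 0)) (xb (xa T1.l10 T1.l10) (xa (xb T1.l10 (xa T1.l10 T1.l10)) (xb T1.l10 T1.l10)))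
  (TrL.c (I.pos (nat_lit 0) (nat_lit 0)) T1.l1
  (TrL.c (I.pos (nat_lit 0) (nat_lit 124588530)) (xR T1.l2 T1.l2)
  (TrL.c (I.pos (nat_lit 0) (nat_lit 96881482)) (xR T1.l3 T1.l3)
  (TrL.c (I.pos (nat_lit 0) (nat_lit 0)) (xb (xk (xa T1.l11 (xb T1.l11 T1.l11)) (xa T1.l11 (xb T1.l11 T1.l11))) (xk (xa T1.l11 (xb T1.l4 T1.l4)) (xa T1.l11 (xb T1.l4 T1.l4))))
  (TrL.c (I.pos (nat_lit 0) (nat_lit 0)) T1.l5
  (TrL.c (I.mix (nat_lit 17240550) (nat_lit 96881482)) (xR T1.l6 T1.l6)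
  (TrL.c (I.mix (nat_lit 17240550) (nat_lit 71940500)) T1.l7
  TrL.n)))))))) (by decide +kernel)
theorem bx0_8 : BoxOK sI cl9 cl13 cl13 t1 t1 b0_8 :=
  box_mk (TrL.c (I.pos (nat_lit 0) (nat_lit 0)) (xa (xa (xb T1.l8 (xa T1.l8 T1.l8)) (xb T1.l8 T1.l8)) (xa T1.l8 (xb T1.l8 (xa T1.l8 T1.l8))))
  (TrL.c (I.pos (nat_lit 0) (nat_lit 0)) (xa T1.l1 T1.l1)
  (TrL.c (I.pos (nat_lit 0) (nat_lit 124588530)) T1.l2
  (TrL.c (I.pos (nat_lit 0) (nat_lit 96881482)) T1.l3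
  (TrL.c (I.pos (nat_lit 0) (nat_lit 0)) (xa T1.l9 T1.l9)
  (TrL.c (I.pos (nat_lit 0) (nat_lit 0)) T1.l5
  (TrL.c (I.mix (nat_lit 17240550) (nat_lit 96881482)) T1.l6
  (TrL.c (I.mix (nat_lit 17240550) (nat_lit 71940500)) T1.l3
  TrL.n)))))))) (by decide +kernel)
theorem bx0_9 : BoxOK sI cl9 cl13 cl13 t1 t1 b0_9 :=
  box_mk (TrL.c (I.pos (nat_lit 0) (nat_lit 0)) (xa T1.l0 T1.l0)
  (TrL.c (I.pos (nat_lit 0) (nat_lit 0)) T1.l1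
  (TrL.c (I.pos (nat_lit 0) (nat_lit 124588530)) (xR T1.l2 T1.l2)
  (TrL.c (I.pos (nat_lit 0) (nat_lit 96881482)) T1.l3
  (TrL.c (I.pos (nat_lit 0) (nat_lit 0)) (xk (xb T1.l11 T1.l11) (xb T1.l11 T1.l11))
  (TrL.c (I.pos (nat_lit 0) (nat_lit 0)) T1.l5
  (TrL.c (I.mix (nat_lit 17240550) (nat_lit 96881482)) (xR T1.l6 T1.l6)
  (TrL.c (I.mix (nat_lit 17240550) (nat_lit 71940500)) T1.l7
  TrL.n)))))))) (by decide +kernel)
theorem bx0_10 : BoxOK sI cl9 cl13 cl13 t1 t1 b0_10 :=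
  box_mk (TrL.c (I.pos (nat_lit 0) (nat_lit 0)) (xb T1.l10 T1.l10)
  (TrL.c (I.pos (nat_lit 0) (nat_lit 0)) T1.l1
  (TrL.c (I.pos (nat_lit 0) (nat_lit 124588530)) (xR T1.l2 T1.l2)
  (TrL.c (I.pos (nat_lit 0) (nat_lit 96881482)) T1.l3
  (TrL.c (I.pos (nat_lit 0) (nat_lit 0)) (xk T1.l11 T1.l11)
  (TrL.c (I.pos (nat_lit 0) (nat_lit 0)) T1.l5
  (TrL.c (I.mix (nat_lit 17240550) (nat_lit 96881482)) (xR T1.l6 T1.l6)
  (TrL.c (I.mix (nat_lit 17240550) (nat_lit 71940500)) T1.l3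
  TrL.n)))))))) (by decide +kernel)
theorem bx0_11 : BoxOK sI cl9 cl13 cl13 t1 t1 b0_11 :=
  box_mk (TrL.c (I.pos (nat_lit 0) (nat_lit 0)) (xa T1.l0 T1.l0)
  (TrL.c (I.pos (nat_lit 0) (nat_lit 0)) T1.l1
  (TrL.c (I.pos (nat_lit 0) (nat_lit 124588530)) (xR T1.l2 T1.l2)
  (TrL.c (I.pos (nat_lit 0) (nat_lit 96881482)) T1.l3
  (TrL.c (I.pos (nat_lit 0) (nat_lit 0)) (xk T1.l4 T1.l4)
  (TrL.c (I.pos (nat_lit 0) (nat_lit 0)) T1.l5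
  (TrL.c (I.mix (nat_lit 17240550) (nat_lit 96881482)) (xR T1.l6 T1.l6)
  (TrL.c (I.mix (nat_lit 17240550) (nat_lit 71940500)) T1.l3
  TrL.n)))))))) (by decide +kernel)
theorem sv0 : StarV sI cl9 cl13 cl13 t1 t1 t0 :=
  (bt_n (bt_n (bt_n (bt_b bx0_0) (bt_n (bt_b bx0_1) (bt_b bx0_2))) (bt_n (bt_b bx0_3) (bt_n (bt_b bx0_4) (bt_b bx0_5)))) (bt_n (bt_n (bt_b bx0_6) (bt_n (bt_b bx0_7) (bt_b bx0_8))) (bt_n (bt_b bx0_9) (bt_n (bt_b bx0_10) (bt_b bx0_11)))))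
def S0 : StarD := StarD.mk cl9 cl13 cl13 1 1 t0
theorem bx1_0 : BoxOK sI cl13 cl9 cl13 t0 t2 b1_0 :=
  box_mk (TrL.c (I.pos (nat_lit 0) (nat_lit 0)) (xa (xb T0.l0 (xa T0.l0 T0.l0)) (xa T0.l0 T0.l0))
  (TrL.c (I.pos (nat_lit 0) (nat_lit 0)) T2.l1
  (TrL.c (I.pos (nat_lit 0) (nat_lit 134217730)) (xR T0.l1 T0.l8)
  (TrL.c (I.pos (nat_lit 0) (nat_lit 110514882)) T2.l2
  (TrL.c (I.pos (nat_lit 0) (nat_lit 0)) (xa (xk T2.l3 T2.l3) (xk T2.l3 T2.l3))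
  (TrL.c (I.pos (nat_lit 0) (nat_lit 0)) T0.l2
  (TrL.c (I.mix (nat_lit 8088324) (nat_lit 110514882)) (xR T2.l4 T2.l4)
  (TrL.c (I.mix (nat_lit 8088324) (nat_lit 89478486)) T0.l3
  TrL.n)))))))) (by decide +kernel)
theorem bx1_1 : BoxOK sI cl13 cl9 cl13 t0 t2 b1_1 :=
  box_mk (TrL.c (I.pos (nat_lit 0) (nat_lit 0)) (xa (xb T0.l4 T0.l4) T0.l0)
  (TrL.c (I.pos (nat_lit 0) (nat_lit 0)) T2.l1
  (TrL.c (I.pos (nat_lit 0) (nat_lit 134217730)) T0.l8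
  (TrL.c (I.pos (nat_lit 0) (nat_lit 110514882)) T2.l2
  (TrL.c (I.pos (nat_lit 0) (nat_lit 0)) (xa T2.l5 (xb (xk T2.l5 T2.l5) T2.l5))
  (TrL.c (I.pos (nat_lit 0) (nat_lit 0)) T0.l2
  (TrL.c (I.mix (nat_lit 8088324) (nat_lit 110514882)) T2.l4
  (TrL.c (I.mix (nat_lit 8088324) (nat_lit 89478486)) T0.l3
  TrL.n)))))))) (by decide +kernel)
theorem bx1_2 : BoxOK sI cl13 cl9 cl13 t0 t2 b1_2 :=
  box_mk (TrL.c (I.pos (nat_lit 0) (nat_lit 0)) (xa (xa T0.l4 T0.l4) (xa T0.l4 T0.l4))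
  (TrL.c (I.pos (nat_lit 0) (nat_lit 0)) T2.l1
  (TrL.c (I.pos (nat_lit 0) (nat_lit 134217730)) T0.l1
  (TrL.c (I.pos (nat_lit 0) (nat_lit 110514882)) T2.l2
  (TrL.c (I.pos (nat_lit 0) (nat_lit 0)) T2.l5
  (TrL.c (I.pos (nat_lit 0) (nat_lit 0)) T0.l2
  (TrL.c (I.mix (nat_lit 8088324) (nat_lit 110514882)) T2.l4
  (TrL.c (I.mix (nat_lit 8088324) (nat_lit 89478486)) T0.l3
  TrL.n)))))))) (by decide +kernel)
theorem bx1_3 : BoxOK sI cl13 cl9 cl13 t0 t2 b1_3 :=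
  box_mk (TrL.c (I.pos (nat_lit 0) (nat_lit 0)) (xa (xa (xb (xa T0.l4 T0.l4) T0.l4) T0.l4) T0.l4)
  (TrL.c (I.pos (nat_lit 0) (nat_lit 0)) T2.l1
  (TrL.c (I.pos (nat_lit 0) (nat_lit 134217730)) T0.l1
  (TrL.c (I.pos (nat_lit 0) (nat_lit 110514882)) T2.l2
  (TrL.c (I.pos (nat_lit 0) (nat_lit 0)) T2.l5
  (TrL.c (I.pos (nat_lit 0) (nat_lit 0)) T0.l2
  (TrL.c (I.mix (nat_lit 8088324) (nat_lit 110514882)) T2.l4
  (TrL.c (I.mix (nat_lit 8088324) (nat_lit 89478486)) T0.l3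
  TrL.n)))))))) (by decide +kernel)
theorem bx1_4 : BoxOK sI cl13 cl9 cl13 t0 t2 b1_4 :=
  box_mk (TrL.c (I.pos (nat_lit 0) (nat_lit 0)) (xb (xa T0.l11 T0.l11) (xa T0.l11 T0.l11))
  (TrL.c (I.pos (nat_lit 0) (nat_lit 0)) T2.l1
  (TrL.c (I.pos (nat_lit 0) (nat_lit 134217730)) (xR T0.l1 T0.l1)
  (TrL.c (I.pos (nat_lit 0) (nat_lit 110514882)) (xR T2.l2 T2.l2)
  (TrL.c (I.pos (nat_lit 0) (nat_lit 0)) (xk (xb T2.l6 T2.l3) (xb T2.l6 (xb T2.l6 T2.l6)))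
  (TrL.c (I.pos (nat_lit 0) (nat_lit 0)) T0.l2
  (TrL.c (I.mix (nat_lit 8088324) (nat_lit 110514882)) (xR T2.l4 T2.l4)
  (TrL.c (I.mix (nat_lit 8088324) (nat_lit 89478486)) (xR T0.l3 T0.l6)
  TrL.n)))))))) (by decide +kernel)
theorem bx1_5 : BoxOK sI cl13 cl9 cl13 t0 t2 b1_5 :=
  box_mk (TrL.c (I.pos (nat_lit 0) (nat_lit 0)) (xb T0.l4 (xa T0.l4 T0.l4))
  (TrL.c (I.pos (nat_lit 0) (nat_lit 0)) T2.l1
  (TrL.c (I.pos (nat_lit 0) (nat_lit 134217730)) T0.l1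
  (TrL.c (I.pos (nat_lit 0) (nat_lit 110514882)) T2.l2
  (TrL.c (I.pos (nat_lit 0) (nat_lit 0)) (xb T2.l5 T2.l5)
  (TrL.c (I.pos (nat_lit 0) (nat_lit 0)) T0.l2
  (TrL.c (I.mix (nat_lit 8088324) (nat_lit 110514882)) T2.l4
  (TrL.c (I.mix (nat_lit 8088324) (nat_lit 89478486)) T0.l3
  TrL.n)))))))) (by decide +kernel)
theorem bx1_6 : BoxOK sI cl13 cl9 cl13 t0 t2 b1_6 :=
  box_mk (TrL.c (I.pos (nat_lit 0) (nat_lit 0)) (xa (xa (xb T0.l4 (xa T0.l4 T0.l4)) T0.l4) (xa T0.l4 T0.l4))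
  (TrL.c (I.pos (nat_lit 0) (nat_lit 0)) T2.l1
  (TrL.c (I.pos (nat_lit 0) (nat_lit 134217730)) T0.l1
  (TrL.c (I.pos (nat_lit 0) (nat_lit 110514882)) T2.l2
  (TrL.c (I.pos (nat_lit 0) (nat_lit 0)) (xa T2.l5 T2.l5)
  (TrL.c (I.pos (nat_lit 0) (nat_lit 0)) T0.l2
  (TrL.c (I.mix (nat_lit 8088324) (nat_lit 110514882)) T2.l4
  (TrL.c (I.mix (nat_lit 8088324) (nat_lit 89478486)) T0.l3
  TrL.n)))))))) (by decide +kernel)
theorem bx1_7 : BoxOK sI cl13 cl9 cl13 t0 t2 b1_7 :=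
  box_mk (TrL.c (I.pos (nat_lit 0) (nat_lit 0)) T0.l4
  (TrL.c (I.pos (nat_lit 0) (nat_lit 0)) T2.l1
  (TrL.c (I.pos (nat_lit 0) (nat_lit 134217730)) T0.l1
  (TrL.c (I.pos (nat_lit 0) (nat_lit 110514882)) T2.l2
  (TrL.c (I.pos (nat_lit 0) (nat_lit 0)) T2.l5
  (TrL.c (I.pos (nat_lit 0) (nat_lit 0)) T0.l2
  (TrL.c (I.mix (nat_lit 8088324) (nat_lit 110514882)) T2.l4
  (TrL.c (I.mix (nat_lit 8088324) (nat_lit 89478486)) T0.l3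
  TrL.n)))))))) (by decide +kernel)
theorem bx1_8 : BoxOK sI cl13 cl9 cl13 t0 t2 b1_8 :=
  box_mk (TrL.c (I.pos (nat_lit 0) (nat_lit 0)) (xa T0.l0 T0.l0)
  (TrL.c (I.pos (nat_lit 0) (nat_lit 0)) T2.l1
  (TrL.c (I.pos (nat_lit 0) (nat_lit 134217730)) (xR T0.l1 T0.l8)
  (TrL.c (I.pos (nat_lit 0) (nat_lit 110514882)) (xR T2.l2 T2.l2)
  (TrL.c (I.pos (nat_lit 0) (nat_lit 0)) (xa (xk (xb T2.l3 T2.l3) (xb T2.l3 T2.l3)) (xk (xb (xa T2.l3 T2.l3) (xa T2.l3 T2.l3)) (xb (xa T2.l3 T2.l3) (xa T2.l3 T2.l3))))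
  (TrL.c (I.pos (nat_lit 0) (nat_lit 0)) (xk T0.l2 T0.l2)
  (TrL.c (I.mix (nat_lit 8088324) (nat_lit 110514882)) (xR T2.l4 T2.l4)
  (TrL.c (I.mix (nat_lit 8088324) (nat_lit 89478486)) T0.l6
  TrL.n)))))))) (by decide +kernel)
theorem bx1_9 : BoxOK sI cl13 cl9 cl13 t0 t2 b1_9 :=
  box_mk (TrL.c (I.pos (nat_lit 0) (nat_lit 0)) T0.l0
  (TrL.c (I.pos (nat_lit 0) (nat_lit 0)) T2.l1
  (TrL.c (I.pos (nat_lit 0) (nat_lit 134217730)) T0.l8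
  (TrL.c (I.pos (nat_lit 0) (nat_lit 110514882)) T2.l2
  (TrL.c (I.pos (nat_lit 0) (nat_lit 0)) (xk (xb T2.l6 T2.l6) (xb T2.l6 T2.l6))
  (TrL.c (I.pos (nat_lit 0) (nat_lit 0)) T0.l2
  (TrL.c (I.mix (nat_lit 8088324) (nat_lit 110514882)) (xR T2.l4 T2.l4)
  (TrL.c (I.mix (nat_lit 8088324) (nat_lit 89478486)) T0.l3
  TrL.n)))))))) (by decide +kernel)
theorem bx1_10 : BoxOK sI cl13 cl9 cl13 t0 t2 b1_10 :=
  box_mk (TrL.c (I.pos (nat_lit 0) (nat_lit 0)) (xa T0.l0 T0.l0)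
  (TrL.c (I.pos (nat_lit 0) (nat_lit 0)) T2.l1
  (TrL.c (I.pos (nat_lit 0) (nat_lit 134217730)) (xR T0.l1 T0.l1)
  (TrL.c (I.pos (nat_lit 0) (nat_lit 110514882)) T2.l2
  (TrL.c (I.pos (nat_lit 0) (nat_lit 0)) (xk T2.l3 T2.l3)
  (TrL.c (I.pos (nat_lit 0) (nat_lit 0)) T0.l2
  (TrL.c (I.mix (nat_lit 8088324) (nat_lit 110514882)) (xR T2.l4 T2.l4)
  (TrL.c (I.mix (nat_lit 8088324) (nat_lit 89478486)) T0.l3
  TrL.n)))))))) (by decide +kernel)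
theorem bx1_11 : BoxOK sI cl13 cl9 cl13 t0 t2 b1_11 :=
  box_mk (TrL.c (I.pos (nat_lit 0) (nat_lit 0)) (xb T0.l11 T0.l11)
  (TrL.c (I.pos (nat_lit 0) (nat_lit 0)) T2.l1
  (TrL.c (I.pos (nat_lit 0) (nat_lit 134217730)) T0.l8
  (TrL.c (I.pos (nat_lit 0) (nat_lit 110514882)) T2.l2
  (TrL.c (I.pos (nat_lit 0) (nat_lit 0)) (xk T2.l6 T2.l6)
  (TrL.c (I.pos (nat_lit 0) (nat_lit 0)) T0.l2
  (TrL.c (I.mix (nat_lit 8088324) (nat_lit 110514882)) (xR T2.l4 T2.l4)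
  (TrL.c (I.mix (nat_lit 8088324) (nat_lit 89478486)) T0.l3
  TrL.n)))))))) (by decide +kernel)
theorem sv1 : StarV sI cl13 cl9 cl13 t0 t2 t1 :=
  (bt_n (bt_n (bt_n (bt_b bx1_0) (bt_n (bt_b bx1_1) (bt_b bx1_2))) (bt_n (bt_b bx1_3) (bt_n (bt_b bx1_4) (bt_b bx1_5)))) (bt_n (bt_n (bt_b bx1_6) (bt_n (bt_b bx1_7) (bt_b bx1_8))) (bt_n (bt_b bx1_9) (bt_n (bt_b bx1_10) (bt_b bx1_11)))))
def S1 : StarD := StarD.mk cl13 cl9 cl13 0 2 t1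
theorem bx2_0 : BoxOK sI cl13 cl13 cl9 t2 t0 b2_0 :=
  box_mk (TrL.c (I.pos (nat_lit 0) (nat_lit 0)) (xa (xa (xb T2.l0 T2.l0) T2.l10) (xa T2.l0 T2.l0))
  (TrL.c (I.pos (nat_lit 0) (nat_lit 0)) T0.l5
  (TrL.c (I.pos (nat_lit 0) (nat_lit 134217730)) (xR T2.l4 T2.l9)
  (TrL.c (I.pos (nat_lit 0) (nat_lit 110514882)) T0.l6
  (TrL.c (I.pos (nat_lit 0) (nat_lit 0)) (xa T0.l7 (xk T0.l7 T0.l7))
  (TrL.c (I.pos (nat_lit 0) (nat_lit 0)) T2.l7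
  (TrL.c (I.mix (nat_lit 8088324) (nat_lit 110514882)) (xR T0.l8 T0.l8)
  (TrL.c (I.mix (nat_lit 8088324) (nat_lit 89478486)) T2.l11
  TrL.n)))))))) (by decide +kernel)
theorem bx2_1 : BoxOK sI cl13 cl13 cl9 t2 t0 b2_1 :=
  box_mk (TrL.c (I.pos (nat_lit 0) (nat_lit 0)) (xa (xb T2.l8 T2.l8) T2.l0)
  (TrL.c (I.pos (nat_lit 0) (nat_lit 0)) T0.l5
  (TrL.c (I.pos (nat_lit 0) (nat_lit 134217730)) (xR T2.l2 T2.l9)
  (TrL.c (I.pos (nat_lit 0) (nat_lit 110514882)) T0.l6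
  (TrL.c (I.pos (nat_lit 0) (nat_lit 0)) (xa T0.l9 (xb T0.l9 T0.l9))
  (TrL.c (I.pos (nat_lit 0) (nat_lit 0)) T2.l7
  (TrL.c (I.mix (nat_lit 8088324) (nat_lit 110514882)) T0.l8
  (TrL.c (I.mix (nat_lit 8088324) (nat_lit 89478486)) T2.l11
  TrL.n)))))))) (by decide +kernel)
theorem bx2_2 : BoxOK sI cl13 cl13 cl9 t2 t0 b2_2 :=
  box_mk (TrL.c (I.pos (nat_lit 0) (nat_lit 0)) (xa (xa (xb T2.l8 T2.l8) T2.l8) T2.l8)
  (TrL.c (I.pos (nat_lit 0) (nat_lit 0)) T0.l5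
  (TrL.c (I.pos (nat_lit 0) (nat_lit 134217730)) (xR T2.l2 T2.l9)
  (TrL.c (I.pos (nat_lit 0) (nat_lit 110514882)) T0.l6
  (TrL.c (I.pos (nat_lit 0) (nat_lit 0)) (xa T0.l9 T0.l9)
  (TrL.c (I.pos (nat_lit 0) (nat_lit 0)) T2.l7
  (TrL.c (I.mix (nat_lit 8088324) (nat_lit 110514882)) T0.l8
  (TrL.c (I.mix (nat_lit 8088324) (nat_lit 89478486)) T2.l2
  TrL.n)))))))) (by decide +kernel)
theorem bx2_3 : BoxOK sI cl13 cl13 cl9 t2 t0 b2_3 :=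
  box_mk (TrL.c (I.pos (nat_lit 0) (nat_lit 0)) (xb (xa T2.l10 T2.l10) (xa (xb T2.l10 T2.l10) T2.l10))
  (TrL.c (I.pos (nat_lit 0) (nat_lit 0)) T0.l5
  (TrL.c (I.pos (nat_lit 0) (nat_lit 134217730)) (xR T2.l4 T2.l9)
  (TrL.c (I.pos (nat_lit 0) (nat_lit 110514882)) (xR T0.l6 T0.l6)
  (TrL.c (I.pos (nat_lit 0) (nat_lit 0)) (xb (xk T0.l10 T0.l10) (xk (xa T0.l10 T0.l7) (xb T0.l10 T0.l7)))
  (TrL.c (I.pos (nat_lit 0) (nat_lit 0)) T2.l7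
  (TrL.c (I.mix (nat_lit 8088324) (nat_lit 110514882)) (xR T0.l8 T0.l8)
  (TrL.c (I.mix (nat_lit 8088324) (nat_lit 89478486)) (xR T2.l11 T2.l11)
  TrL.n)))))))) (by decide +kernel)
theorem bx2_4 : BoxOK sI cl13 cl13 cl9 t2 t0 b2_4 :=
  box_mk (TrL.c (I.pos (nat_lit 0) (nat_lit 0)) (xa (xa (xb T2.l8 (xa T2.l8 T2.l8)) (xb T2.l8 T2.l8)) (xa T2.l8 T2.l8))
  (TrL.c (I.pos (nat_lit 0) (nat_lit 0)) (xa T0.l5 T0.l5)
  (TrL.c (I.pos (nat_lit 0) (nat_lit 134217730)) (xR T2.l2 T2.l9)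
  (TrL.c (I.pos (nat_lit 0) (nat_lit 110514882)) T0.l6
  (TrL.c (I.pos (nat_lit 0) (nat_lit 0)) (xa T0.l9 T0.l9)
  (TrL.c (I.pos (nat_lit 0) (nat_lit 0)) T2.l7
  (TrL.c (I.mix (nat_lit 8088324) (nat_lit 110514882)) T0.l8
  (TrL.c (I.mix (nat_lit 8088324) (nat_lit 89478486)) T2.l2
  TrL.n)))))))) (by decide +kernel)
theorem bx2_5 : BoxOK sI cl13 cl13 cl9 t2 t0 b2_5 :=
  box_mk (TrL.c (I.pos (nat_lit 0) (nat_lit 0)) (xa T2.l0 T2.l10)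
  (TrL.c (I.pos (nat_lit 0) (nat_lit 0)) T0.l5
  (TrL.c (I.pos (nat_lit 0) (nat_lit 134217730)) (xR T2.l4 T2.l9)
  (TrL.c (I.pos (nat_lit 0) (nat_lit 110514882)) T0.l6
  (TrL.c (I.pos (nat_lit 0) (nat_lit 0)) (xk (xb T0.l10 T0.l10) (xb T0.l10 T0.l10))
  (TrL.c (I.pos (nat_lit 0) (nat_lit 0)) T2.l7
  (TrL.c (I.mix (nat_lit 8088324) (nat_lit 110514882)) (xR T0.l8 T0.l8)
  (TrL.c (I.mix (nat_lit 8088324) (nat_lit 89478486)) T2.l11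
  TrL.n)))))))) (by decide +kernel)
theorem bx2_6 : BoxOK sI cl13 cl13 cl9 t2 t0 b2_6 :=
  box_mk (TrL.c (I.pos (nat_lit 0) (nat_lit 0)) (xb T2.l10 T2.l10)
  (TrL.c (I.pos (nat_lit 0) (nat_lit 0)) T0.l5
  (TrL.c (I.pos (nat_lit 0) (nat_lit 134217730)) (xR T2.l4 T2.l9)
  (TrL.c (I.pos (nat_lit 0) (nat_lit 110514882)) T0.l6
  (TrL.c (I.pos (nat_lit 0) (nat_lit 0)) (xk T0.l10 T0.l10)
  (TrL.c (I.pos (nat_lit 0) (nat_lit 0)) T2.l7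
  (TrL.c (I.mix (nat_lit 8088324) (nat_lit 110514882)) (xR T0.l8 T0.l8)
  (TrL.c (I.mix (nat_lit 8088324) (nat_lit 89478486)) T2.l11
  TrL.n)))))))) (by decide +kernel)
theorem bx2_7 : BoxOK sI cl13 cl13 cl9 t2 t0 b2_7 :=
  box_mk (TrL.c (I.pos (nat_lit 0) (nat_lit 0)) (xb (xa T2.l8 T2.l8) (xa T2.l8 T2.l8))
  (TrL.c (I.pos (nat_lit 0) (nat_lit 0)) T0.l5
  (TrL.c (I.pos (nat_lit 0) (nat_lit 134217730)) T2.l4
  (TrL.c (I.pos (nat_lit 0) (nat_lit 110514882)) T0.l6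
  (TrL.c (I.pos (nat_lit 0) (nat_lit 0)) (xb T0.l9 T0.l9)
  (TrL.c (I.pos (nat_lit 0) (nat_lit 0)) T2.l7
  (TrL.c (I.mix (nat_lit 8088324) (nat_lit 110514882)) T0.l8
  (TrL.c (I.mix (nat_lit 8088324) (nat_lit 89478486)) T2.l11
  TrL.n)))))))) (by decide +kernel)
theorem bx2_8 : BoxOK sI cl13 cl13 cl9 t2 t0 b2_8 :=
  box_mk (TrL.c (I.pos (nat_lit 0) (nat_lit 0)) (xa (xb T2.l0 T2.l0) (xb T2.l0 T2.l0))
  (TrL.c (I.pos (nat_lit 0) (nat_lit 0)) T0.l5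
  (TrL.c (I.pos (nat_lit 0) (nat_lit 134217730)) (xR T2.l4 T2.l4)
  (TrL.c (I.pos (nat_lit 0) (nat_lit 110514882)) (xR T0.l6 T0.l6)
  (TrL.c (I.pos (nat_lit 0) (nat_lit 0)) (xa (xb (xk T0.l7 T0.l7) T0.l7) (xk (xb (xa T0.l7 T0.l7) (xa T0.l7 T0.l7)) (xb (xa T0.l7 T0.l7) (xa T0.l7 T0.l7))))
  (TrL.c (I.pos (nat_lit 0) (nat_lit 0)) (xa T2.l7 T2.l7)
  (TrL.c (I.mix (nat_lit 8088324) (nat_lit 110514882)) (xR T0.l8 T0.l8)
  (TrL.c (I.mix (nat_lit 8088324) (nat_lit 89478486)) T2.l11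
  TrL.n)))))))) (by decide +kernel)
theorem bx2_9 : BoxOK sI cl13 cl13 cl9 t2 t0 b2_9 :=
  box_mk (TrL.c (I.pos (nat_lit 0) (nat_lit 0)) (xa T2.l8 T2.l8)
  (TrL.c (I.pos (nat_lit 0) (nat_lit 0)) T0.l5
  (TrL.c (I.pos (nat_lit 0) (nat_lit 134217730)) T2.l4
  (TrL.c (I.pos (nat_lit 0) (nat_lit 110514882)) T0.l6
  (TrL.c (I.pos (nat_lit 0) (nat_lit 0)) T0.l9
  (TrL.c (I.pos (nat_lit 0) (nat_lit 0)) T2.l7
  (TrL.c (I.mix (nat_lit 8088324) (nat_lit 110514882)) T0.l8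
  (TrL.c (I.mix (nat_lit 8088324) (nat_lit 89478486)) T2.l11
  TrL.n)))))))) (by decide +kernel)
theorem bx2_10 : BoxOK sI cl13 cl13 cl9 t2 t0 b2_10 :=
  box_mk (TrL.c (I.pos (nat_lit 0) (nat_lit 0)) (xa T2.l10 (xb T2.l0 T2.l0))
  (TrL.c (I.pos (nat_lit 0) (nat_lit 0)) T0.l5
  (TrL.c (I.pos (nat_lit 0) (nat_lit 134217730)) (xR T2.l4 T2.l9)
  (TrL.c (I.pos (nat_lit 0) (nat_lit 110514882)) T0.l6
  (TrL.c (I.pos (nat_lit 0) (nat_lit 0)) (xk T0.l7 T0.l7)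
  (TrL.c (I.pos (nat_lit 0) (nat_lit 0)) T2.l7
  (TrL.c (I.mix (nat_lit 8088324) (nat_lit 110514882)) (xR T0.l8 T0.l8)
  (TrL.c (I.mix (nat_lit 8088324) (nat_lit 89478486)) T2.l11
  TrL.n)))))))) (by decide +kernel)
theorem bx2_11 : BoxOK sI cl13 cl13 cl9 t2 t0 b2_11 :=
  box_mk (TrL.c (I.pos (nat_lit 0) (nat_lit 0)) T2.l8
  (TrL.c (I.pos (nat_lit 0) (nat_lit 0)) T0.l5
  (TrL.c (I.pos (nat_lit 0) (nat_lit 134217730)) T2.l4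
  (TrL.c (I.pos (nat_lit 0) (nat_lit 110514882)) T0.l6
  (TrL.c (I.pos (nat_lit 0) (nat_lit 0)) T0.l9
  (TrL.c (I.pos (nat_lit 0) (nat_lit 0)) T2.l7
  (TrL.c (I.mix (nat_lit 8088324) (nat_lit 110514882)) T0.l8
  (TrL.c (I.mix (nat_lit 8088324) (nat_lit 89478486)) T2.l2
  TrL.n)))))))) (by decide +kernel)
theorem sv2 : StarV sI cl13 cl13 cl9 t2 t0 t2 :=
  (bt_n (bt_n (bt_n (bt_b bx2_0) (bt_n (bt_b bx2_1) (bt_b bx2_2))) (bt_n (bt_b bx2_3) (bt_n (bt_b bx2_4) (bt_b bx2_5)))) (bt_n (bt_n (bt_b bx2_6) (bt_n (bt_b bx2_7) (bt_b bx2_8))) (bt_n (bt_b bx2_9) (bt_n (bt_b bx2_10) (bt_b bx2_11)))))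
def S2 : StarD := StarD.mk cl13 cl13 cl9 2 0 t2
def G : List StarD := [S0, S1, S2]
theorem so0 : StarOK sI G S0 :=
  star_mk (by decide) (by decide) rfl rfl rfl rfl rfl rfl (rfl : _ = t1) (rfl : _ = t1)
  (st_mk (Pth.l (Pth.l (Pth.l Pth.z))) (nat_lit 96034135) (nat_lit 114446224) (by decide +kernel))
  (st_mk (Pth.l (Pth.l (Pth.l Pth.z))) (nat_lit 131104122) (nat_lit 149762066) (by decide +kernel))
  (st_mk (Pth.l (Pth.l (Pth.l Pth.z))) (nat_lit 171636047) (nat_lit 190653680) (by decide +kernel)) sv0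
theorem so1 : StarOK sI G S1 :=
  star_mk (by decide) (by decide) rfl rfl rfl rfl rfl rfl (rfl : _ = t0) (rfl : _ = t2)
  (st_mk (Pth.l (Pth.l (Pth.l Pth.z))) (nat_lit 115089857) (nat_lit 133397149) (by decide +kernel))
  (st_mk (Pth.l (Pth.l (Pth.l Pth.z))) (nat_lit 149986467) (nat_lit 168513715) (by decide +kernel))
  (st_mk (Pth.l (Pth.l (Pth.l Pth.z))) (nat_lit 190251785) (nat_lit 209097313) (by decide +kernel)) sv1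
theorem so2 : StarOK sI G S2 :=
  star_mk (by decide) (by decide) rfl rfl rfl rfl rfl rfl (rfl : _ = t2) (rfl : _ = t0)
  (st_mk (Pth.l (Pth.l (Pth.l Pth.z))) (nat_lit 96368329) (nat_lit 113611815) (by decide +kernel))
  (st_mk (Pth.l (Pth.l (Pth.l Pth.z))) (nat_lit 130728068) (nat_lit 149250055) (by decide +kernel))
  (st_mk (Pth.l (Pth.l (Pth.l Pth.z))) (nat_lit 170993386) (nat_lit 189820446) (by decide +kernel)) sv2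
theorem ok : GroupOK (nat_lit 91226112) (nat_lit 150339584) G := grp_mk (allS_c so0 (allS_c so1 (allS_c so2 allS_n)))
theorem cov : GCov G cl9 cl13 cl13 := cov_mk
  ⟨0, by decide, rfl, rfl, rfl⟩ ⟨0, by decide, rfl, rfl, rfl⟩ ⟨1, by decide, rfl, rfl, rfl⟩ ⟨2, by decide, rfl, rfl, rfl⟩ ⟨1, by decide, rfl, rfl, rfl⟩ ⟨2, by decide, rfl, rfl, rfl⟩
end Q566_1

namespace Q566_2
def sI : I := I.pos (nat_lit 150274048) (nat_lit 209387520)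
def b0_0 : Bx := Bx.mk (St.mk (I.pos (nat_lit 158253056) (nat_lit 241319936)) (I.mix (nat_lit 1507328) (nat_lit 50855936)) (I.mix (nat_lit 2523136) (nat_lit 91324416)) (I.pos (nat_lit 92356608) (nat_lit 223559680)) (I.mix (nat_lit 98992128) (nat_lit 59097088)) (I.mix (nat_lit 69500928) (nat_lit 62914560)) (I.mix (nat_lit 98615296) (nat_lit 80494592)))
  false (nat_lit 52986640)
def b0_1 : Bx := Bx.mk (St.mk (I.mix (nat_lit 9879552) (nat_lit 142442496)) (I.mix (nat_lit 4947968) (nat_lit 23592960)) (I.mix (nat_lit 8617984) (nat_lit 21774336)) (I.mix (nat_lit 3162112) (nat_lit 89767936)) (I.mix (nat_lit 30343168) (nat_lit 24444928)) (I.mix (nat_lit 23920640) (nat_lit 19644416)) (I.mix (nat_lit 20578304) (nat_lit 15532032)))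
  false (nat_lit 0)
def b0_2 : Bx := Bx.mk (St.mk (I.pos (nat_lit 117506048) (nat_lit 157630464)) (I.mix (nat_lit 44138496) (nat_lit 5734400)) (I.mix (nat_lit 47153152) (nat_lit 5259264)) (I.pos (nat_lit 53329920) (nat_lit 106184704)) (I.mix (nat_lit 73285632) (nat_lit 26574848)) (I.mix (nat_lit 27197440) (nat_lit 63700992)) (I.mix (nat_lit 22544384) (nat_lit 57278464)))
  false (nat_lit 0)
def b0_3 : Bx := Bx.mk (St.mk (I.mix (nat_lit 12730368) (nat_lit 106790912)) (I.mix (nat_lit 22446080) (nat_lit 2637824)) (I.mix (nat_lit 17514496) (nat_lit 1769472)) (I.mix (nat_lit 2244608) (nat_lit 58228736)) (I.mix (nat_lit 30015488) (nat_lit 14319616)) (I.mix (nat_lit 13336576) (nat_lit 23789568)) (I.mix (nat_lit 7880704) (nat_lit 14942208)))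
  false (nat_lit 0)
def b0_4 : Bx := Bx.mk (St.mk (I.pos (nat_lit 198131712) (nat_lit 281706496)) (I.mix (nat_lit 18350080) (nat_lit 36421632)) (I.mix (nat_lit 47726592) (nat_lit 66338816)) (I.pos (nat_lit 174522368) (nat_lit 311083008)) (I.mix (nat_lit 67846144) (nat_lit 45350912)) (I.mix (nat_lit 48906240) (nat_lit 29999104)) (I.mix (nat_lit 74842112) (nat_lit 50987008)))
  false (nat_lit 22185782)
def b0_5 : Bx := Bx.mk (St.mk (I.pos (nat_lit 123813888) (nat_lit 184107008)) (I.neg (nat_lit 5537792) (nat_lit 46710784)) (I.neg (nat_lit 2949120) (nat_lit 47136768)) (I.pos (nat_lit 70828032) (nat_lit 143097856)) (I.mix (nat_lit 62832640) (nat_lit 30932992)) (I.mix (nat_lit 29786112) (nat_lit 45596672)) (I.mix (nat_lit 25575424) (nat_lit 46956544)))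
  false (nat_lit 0)
def b0_6 : Bx := Bx.mk (St.mk (I.mix (nat_lit 14041088) (nat_lit 116359168)) (I.mix (nat_lit 25083904) (nat_lit 4882432)) (I.mix (nat_lit 19365888) (nat_lit 2457600)) (I.mix (nat_lit 2260992) (nat_lit 65912832)) (I.mix (nat_lit 28852224) (nat_lit 20643840)) (I.mix (nat_lit 16482304) (nat_lit 21970944)) (I.mix (nat_lit 9961472) (nat_lit 15679488)))
  false (nat_lit 0)
def b0_7 : Bx := Bx.mk (St.mk (I.pos (nat_lit 178028544) (nat_lit 218234880)) (I.mix (nat_lit 10534912) (nat_lit 46284800)) (I.pos (nat_lit 2850816) (nat_lit 80625664)) (I.pos (nat_lit 123846656) (nat_lit 192282624)) (I.mix (nat_lit 105332736) (nat_lit 39878656)) (I.mix (nat_lit 100302848) (nat_lit 50511872)) (I.mix (nat_lit 118456320) (nat_lit 51691520)))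
  false (nat_lit 0)
def b0_8 : Bx := Bx.mk (St.mk (I.mix (nat_lit 13811712) (nat_lit 133906432)) (I.mix (nat_lit 12009472) (nat_lit 29736960)) (I.mix (nat_lit 10207232) (nat_lit 25772032)) (I.mix (nat_lit 2932736) (nat_lit 81674240)) (I.mix (nat_lit 45924352) (nat_lit 24854528)) (I.mix (nat_lit 38289408) (nat_lit 22069248)) (I.mix (nat_lit 27770880) (nat_lit 14712832)))
  false (nat_lit 0)
def b0_9 : Bx := Bx.mk (St.mk (I.pos (nat_lit 161038336) (nat_lit 215105536)) (I.mix (nat_lit 34324480) (nat_lit 15286272)) (I.mix (nat_lit 35241984) (nat_lit 35373056)) (I.pos (nat_lit 103415808) (nat_lit 182124544)) (I.mix (nat_lit 47349760) (nat_lit 40452096)) (I.mix (nat_lit 41811968) (nat_lit 38699008)) (I.mix (nat_lit 44679168) (nat_lit 42254336)))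
  false (nat_lit 9010710)
def b0_10 : Bx := Bx.mk (St.mk (I.pos (nat_lit 178651136) (nat_lit 217399296)) (I.mix (nat_lit 14057472) (nat_lit 28622848)) (I.mix (nat_lit 2703360) (nat_lit 54837248)) (I.pos (nat_lit 125255680) (nat_lit 187285504)) (I.mix (nat_lit 90341376) (nat_lit 49020928)) (I.mix (nat_lit 97402880) (nat_lit 43909120)) (I.mix (nat_lit 113164288) (nat_lit 45383680)))
  false (nat_lit 5028991)
def b0_11 : Bx := Bx.mk (St.mk (I.pos (nat_lit 187383808) (nat_lit 238600192)) (I.pos (nat_lit 13565952) (nat_lit 49790976)) (I.pos (nat_lit 26411008) (nat_lit 89325568)) (I.pos (nat_lit 163332096) (nat_lit 216989696)) (I.mix (nat_lit 88244224) (nat_lit 64225280)) (I.mix (nat_lit 78069760) (nat_lit 55754752)) (I.mix (nat_lit 116965376) (nat_lit 68878336)))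
  false (nat_lit 29814392)
def t0 : BTr := (BTr.n (BTr.n (BTr.n (BTr.b b0_0) (BTr.n (BTr.b b0_1) (BTr.b b0_2))) (BTr.n (BTr.b b0_3) (BTr.n (BTr.b b0_4) (BTr.b b0_5)))) (BTr.n (BTr.n (BTr.b b0_6) (BTr.n (BTr.b b0_7) (BTr.b b0_8))) (BTr.n (BTr.b b0_9) (BTr.n (BTr.b b0_10) (BTr.b b0_11)))))
namespace T0
def l0 : Tr := Tr.L (Pth.l (Pth.l (Pth.l Pth.z)))
def l1 : Tr := Tr.L (Pth.l (Pth.l (Pth.r (Pth.l Pth.z))))
def l2 : Tr := Tr.L (Pth.l (Pth.l (Pth.r (Pth.r Pth.z))))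
def l3 : Tr := Tr.L (Pth.l (Pth.r (Pth.l Pth.z)))
def l4 : Tr := Tr.L (Pth.l (Pth.r (Pth.r (Pth.l Pth.z))))
def l5 : Tr := Tr.L (Pth.l (Pth.r (Pth.r (Pth.r Pth.z))))
def l6 : Tr := Tr.L (Pth.r (Pth.l (Pth.l Pth.z)))
def l7 : Tr := Tr.L (Pth.r (Pth.l (Pth.r (Pth.l Pth.z))))
def l8 : Tr := Tr.L (Pth.r (Pth.l (Pth.r (Pth.r Pth.z))))
def l9 : Tr := Tr.L (Pth.r (Pth.r (Pth.l Pth.z)))
def l10 : Tr := Tr.L (Pth.r (Pth.r (Pth.r (Pth.l Pth.z))))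
def l11 : Tr := Tr.L (Pth.r (Pth.r (Pth.r (Pth.r Pth.z))))
end T0
def b1_0 : Bx := Bx.mk (St.mk (I.pos (nat_lit 158318592) (nat_lit 240386048)) (I.mix (nat_lit 1589248) (nat_lit 51511296)) (I.mix (nat_lit 2670592) (nat_lit 91521024)) (I.pos (nat_lit 111493120) (nat_lit 241909760)) (I.mix (nat_lit 99106816) (nat_lit 62767104)) (I.mix (nat_lit 69959680) (nat_lit 63913984)) (I.mix (nat_lit 103874560) (nat_lit 83066880)))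
  false (nat_lit 64830753)
def b1_1 : Bx := Bx.mk (St.mk (I.pos (nat_lit 113491968) (nat_lit 179617792)) (I.neg (nat_lit 7700480) (nat_lit 50315264)) (I.neg (nat_lit 540672) (nat_lit 48529408)) (I.pos (nat_lit 82345984) (nat_lit 156221440)) (I.mix (nat_lit 64438272) (nat_lit 31703040)) (I.mix (nat_lit 31637504) (nat_lit 45678592)) (I.mix (nat_lit 27181056) (nat_lit 44892160)))
  false (nat_lit 0)
def b1_2 : Bx := Bx.mk (St.mk (I.mix (nat_lit 16547840) (nat_lit 132202496)) (I.mix (nat_lit 4390912) (nat_lit 26378240)) (I.mix (nat_lit 8241152) (nat_lit 22544384)) (I.pos (nat_lit 15204352) (nat_lit 98828288)) (I.mix (nat_lit 32194560) (nat_lit 27230208)) (I.mix (nat_lit 26705920) (nat_lit 20856832)) (I.mix (nat_lit 21299200) (nat_lit 15646720)))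
  false (nat_lit 0)
def b1_3 : Bx := Bx.mk (St.mk (I.mix (nat_lit 24821760) (nat_lit 103006208)) (I.mix (nat_lit 27901952) (nat_lit 4390912)) (I.mix (nat_lit 19349504) (nat_lit 4243456)) (I.pos (nat_lit 15073280) (nat_lit 74760192)) (I.mix (nat_lit 30261248) (nat_lit 25411584)) (I.mix (nat_lit 19136512) (nat_lit 25313280)) (I.mix (nat_lit 11698176) (nat_lit 15826944)))
  false (nat_lit 0)
def b1_4 : Bx := Bx.mk (St.mk (I.pos (nat_lit 173080576) (nat_lit 216743936)) (I.mix (nat_lit 9355264) (nat_lit 49184768)) (I.pos (nat_lit 6307840) (nat_lit 84967424)) (I.pos (nat_lit 135921664) (nat_lit 208519168)) (I.mix (nat_lit 109707264) (nat_lit 38207488)) (I.mix (nat_lit 103874560) (nat_lit 50348032)) (I.mix (nat_lit 116834304) (nat_lit 50348032)))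
  false (nat_lit 18475735)
def b1_5 : Bx := Bx.mk (St.mk (I.pos (nat_lit 108134400) (nat_lit 150487040)) (I.mix (nat_lit 47431680) (nat_lit 5472256)) (I.mix (nat_lit 47513600) (nat_lit 4620288)) (I.pos (nat_lit 64978944) (nat_lit 117538816)) (I.mix (nat_lit 75464704) (nat_lit 25559040)) (I.mix (nat_lit 27869184) (nat_lit 64290816)) (I.mix (nat_lit 21086208) (nat_lit 52510720)))
  false (nat_lit 0)
def b1_6 : Bx := Bx.mk (St.mk (I.mix (nat_lit 23445504) (nat_lit 122208256)) (I.mix (nat_lit 11730944) (nat_lit 31588352)) (I.mix (nat_lit 8617984) (nat_lit 26312704)) (I.pos (nat_lit 15745024) (nat_lit 90079232)) (I.mix (nat_lit 47267840) (nat_lit 21315584)) (I.mix (nat_lit 38371328) (nat_lit 21676032)) (I.mix (nat_lit 24543232) (nat_lit 13680640)))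
  false (nat_lit 0)
def b1_7 : Bx := Bx.mk (St.mk (I.mix (nat_lit 19169280) (nat_lit 91815936)) (I.neg (nat_lit 1343488) (nat_lit 24428544)) (I.mix (nat_lit 16515072) (nat_lit 2981888)) (I.pos (nat_lit 16482304) (nat_lit 67141632)) (I.mix (nat_lit 31309824) (nat_lit 13811712)) (I.mix (nat_lit 14663680) (nat_lit 23412736)) (I.mix (nat_lit 7782400) (nat_lit 11845632)))
  false (nat_lit 0)
def b1_8 : Bx := Bx.mk (St.mk (I.pos (nat_lit 194658304) (nat_lit 280707072)) (I.mix (nat_lit 14909440) (nat_lit 39845888)) (I.mix (nat_lit 41091072) (nat_lit 72630272)) (I.pos (nat_lit 187203584) (nat_lit 327024640)) (I.mix (nat_lit 69140480) (nat_lit 47628288)) (I.mix (nat_lit 49348608) (nat_lit 32063488)) (I.mix (nat_lit 74579968) (nat_lit 50118656)))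
  false (nat_lit 41702843)
def b1_9 : Bx := Bx.mk (St.mk (I.pos (nat_lit 156696576) (nat_lit 212189184)) (I.mix (nat_lit 35110912) (nat_lit 16220160)) (I.mix (nat_lit 33177600) (nat_lit 39174144)) (I.pos (nat_lit 116260864) (nat_lit 195461120)) (I.mix (nat_lit 48234496) (nat_lit 39452672)) (I.mix (nat_lit 41762816) (nat_lit 38436864)) (I.mix (nat_lit 43368448) (nat_lit 40534016)))
  false (nat_lit 3291159)
def b1_10 : Bx := Bx.mk (St.mk (I.pos (nat_lit 183959552) (nat_lit 235732992)) (I.pos (nat_lit 14614528) (nat_lit 52084736)) (I.pos (nat_lit 28753920) (nat_lit 93208576)) (I.pos (nat_lit 175652864) (nat_lit 230506496)) (I.mix (nat_lit 91242496) (nat_lit 64798720)) (I.mix (nat_lit 79183872) (nat_lit 56492032)) (I.mix (nat_lit 116506624) (nat_lit 68026368)))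
  false (nat_lit 43244629)
def b1_11 : Bx := Bx.mk (St.mk (I.pos (nat_lit 174063616) (nat_lit 213843968)) (I.mix (nat_lit 12025856) (nat_lit 31522816)) (I.pos (nat_lit 2064384) (nat_lit 60899328)) (I.pos (nat_lit 137838592) (nat_lit 200818688)) (I.mix (nat_lit 94093312) (nat_lit 48054272)) (I.mix (nat_lit 98959360) (nat_lit 43859968)) (I.mix (nat_lit 111165440) (nat_lit 43466752)))
  false (nat_lit 0)
def t1 : BTr := (BTr.n (BTr.n (BTr.n (BTr.b b1_0) (BTr.n (BTr.b b1_1) (BTr.b b1_2))) (BTr.n (BTr.b b1_3) (BTr.n (BTr.b b1_4) (BTr.b b1_5)))) (BTr.n (BTr.n (BTr.b b1_6) (BTr.n (BTr.b b1_7) (BTr.b b1_8))) (BTr.n (BTr.b b1_9) (BTr.n (BTr.b b1_10) (BTr.b b1_11)))))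
namespace T1
def l0 : Tr := Tr.L (Pth.l (Pth.l (Pth.l Pth.z)))
def l1 : Tr := Tr.L (Pth.l (Pth.l (Pth.r (Pth.l Pth.z))))
def l2 : Tr := Tr.L (Pth.l (Pth.l (Pth.r (Pth.r Pth.z))))
def l3 : Tr := Tr.L (Pth.l (Pth.r (Pth.l Pth.z)))
def l4 : Tr := Tr.L (Pth.l (Pth.r (Pth.r (Pth.l Pth.z))))
def l5 : Tr := Tr.L (Pth.l (Pth.r (Pth.r (Pth.r Pth.z))))
def l6 : Tr := Tr.L (Pth.r (Pth.l (Pth.l Pth.z)))
def l7 : Tr := Tr.L (Pth.r (Pth.l (Pth.r (Pth.l Pth.z))))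
def l8 : Tr := Tr.L (Pth.r (Pth.l (Pth.r (Pth.r Pth.z))))
def l9 : Tr := Tr.L (Pth.r (Pth.r (Pth.l Pth.z)))
def l10 : Tr := Tr.L (Pth.r (Pth.r (Pth.r (Pth.l Pth.z))))
def l11 : Tr := Tr.L (Pth.r (Pth.r (Pth.r (Pth.r Pth.z))))
end T1
def b2_0 : Bx := Bx.mk (St.mk (I.pos (nat_lit 158269440) (nat_lit 241598464)) (I.mix (nat_lit 1474560) (nat_lit 47562752)) (I.mix (nat_lit 2670592) (nat_lit 92405760)) (I.pos (nat_lit 92241920) (nat_lit 222248960)) (I.mix (nat_lit 96485376) (nat_lit 58703872)) (I.mix (nat_lit 70680576) (nat_lit 60751872)) (I.mix (nat_lit 104235008) (nat_lit 78888960)))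
  false (nat_lit 41431735)
def b2_1 : Bx := Bx.mk (St.mk (I.pos (nat_lit 121618432) (nat_lit 185974784)) (I.neg (nat_lit 4653056) (nat_lit 47382528)) (I.mix (nat_lit 44728320) (nat_lit 2637824)) (I.pos (nat_lit 72744960) (nat_lit 145244160)) (I.mix (nat_lit 60751872) (nat_lit 31342592)) (I.mix (nat_lit 29818880) (nat_lit 44089344)) (I.mix (nat_lit 26492928) (nat_lit 44859392)))
  false (nat_lit 0)
def b2_2 : Bx := Bx.mk (St.mk (I.mix (nat_lit 11747328) (nat_lit 117555200)) (I.mix (nat_lit 24690688) (nat_lit 4046848)) (I.mix (nat_lit 17317888) (nat_lit 5259264)) (I.mix (nat_lit 2490368) (nat_lit 66502656)) (I.mix (nat_lit 26230784) (nat_lit 19824640)) (I.mix (nat_lit 15712256) (nat_lit 20185088)) (I.mix (nat_lit 9863168) (nat_lit 14303232)))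
  false (nat_lit 0)
def b2_3 : Bx := Bx.mk (St.mk (I.pos (nat_lit 177340416) (nat_lit 217038848)) (I.mix (nat_lit 10731520) (nat_lit 45416448)) (I.pos (nat_lit 6438912) (nat_lit 84705280)) (I.pos (nat_lit 121176064) (nat_lit 188841984)) (I.mix (nat_lit 108347392) (nat_lit 42008576)) (I.mix (nat_lit 103743488) (nat_lit 50216960)) (I.mix (nat_lit 122585088) (nat_lit 50331648)))
  false (nat_lit 4721890)
def b2_4 : Bx := Bx.mk (St.mk (I.mix (nat_lit 14090240) (nat_lit 133152768)) (I.mix (nat_lit 11960320) (nat_lit 29638656)) (I.mix (nat_lit 7880704) (nat_lit 28295168)) (I.mix (nat_lit 2899968) (nat_lit 80707584)) (I.mix (nat_lit 47644672) (nat_lit 24477696)) (I.mix (nat_lit 39157760) (nat_lit 21823488)) (I.mix (nat_lit 28639232) (nat_lit 13828096)))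
  false (nat_lit 0)
def b2_5 : Bx := Bx.mk (St.mk (I.pos (nat_lit 160710656) (nat_lit 214056960)) (I.mix (nat_lit 38010880) (nat_lit 12894208)) (I.mix (nat_lit 34226176) (nat_lit 37928960)) (I.pos (nat_lit 103104512) (nat_lit 179421184)) (I.mix (nat_lit 46170112) (nat_lit 41877504)) (I.mix (nat_lit 41058304) (nat_lit 37978112)) (I.mix (nat_lit 43663360) (nat_lit 40648704)))
  false (nat_lit 10307054)
def b2_6 : Bx := Bx.mk (St.mk (I.pos (nat_lit 33669120) (nat_lit 139788288)) (I.mix (nat_lit 4227072) (nat_lit 23576576)) (I.mix (nat_lit 4718592) (nat_lit 24903680)) (I.pos (nat_lit 10698752) (nat_lit 88539136)) (I.mix (nat_lit 32292864) (nat_lit 24805376)) (I.mix (nat_lit 27279360) (nat_lit 20578304)) (I.mix (nat_lit 23625728) (nat_lit 15679488)))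
  false (nat_lit 0)
def b2_7 : Bx := Bx.mk (St.mk (I.pos (nat_lit 118341632) (nat_lit 159154176)) (I.mix (nat_lit 44924928) (nat_lit 5341184)) (I.mix (nat_lit 44482560) (nat_lit 8208384)) (I.pos (nat_lit 54525952) (nat_lit 108199936)) (I.mix (nat_lit 71696384) (nat_lit 27885568)) (I.mix (nat_lit 26902528) (nat_lit 62668800)) (I.mix (nat_lit 22691840) (nat_lit 55066624)))
  false (nat_lit 0)
def b2_8 : Bx := Bx.mk (St.mk (I.pos (nat_lit 194641920) (nat_lit 280625152)) (I.mix (nat_lit 13549568) (nat_lit 37601280)) (I.mix (nat_lit 27246592) (nat_lit 78282752)) (I.pos (nat_lit 168656896) (nat_lit 307200000)) (I.mix (nat_lit 70926336) (nat_lit 49561600)) (I.mix (nat_lit 51609600) (nat_lit 32063488)) (I.mix (nat_lit 79560704) (nat_lit 53379072)))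
  false (nat_lit 37805709)
def b2_9 : Bx := Bx.mk (St.mk (I.mix (nat_lit 8142848) (nat_lit 106840064)) (I.mix (nat_lit 22528000) (nat_lit 655360)) (I.mix (nat_lit 15679488) (nat_lit 3883008)) (I.mix (nat_lit 65536) (nat_lit 58572800)) (I.mix (nat_lit 28966912) (nat_lit 15892480)) (I.mix (nat_lit 13893632) (nat_lit 23592960)) (I.mix (nat_lit 8208384) (nat_lit 14483456)))
  false (nat_lit 0)
def b2_10 : Bx := Bx.mk (St.mk (I.pos (nat_lit 186220544) (nat_lit 237305856)) (I.pos (nat_lit 9797632) (nat_lit 47661056)) (I.pos (nat_lit 24838144) (nat_lit 93437952)) (I.pos (nat_lit 158318592) (nat_lit 212008960)) (I.mix (nat_lit 89882624) (nat_lit 64749568)) (I.mix (nat_lit 80265216) (nat_lit 56573952)) (I.mix (nat_lit 120291328) (nat_lit 70729728)))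
  false (nat_lit 31197030)
def b2_11 : Bx := Bx.mk (St.mk (I.pos (nat_lit 177373184) (nat_lit 218497024)) (I.mix (nat_lit 14516224) (nat_lit 28131328)) (I.pos (nat_lit 2424832) (nat_lit 59719680)) (I.pos (nat_lit 121913344) (nat_lit 185286656)) (I.mix (nat_lit 92897280) (nat_lit 49790976)) (I.mix (nat_lit 99123200) (nat_lit 43155456)) (I.mix (nat_lit 115605504) (nat_lit 43663360)))
  false (nat_lit 17641947)
def t2 : BTr := (BTr.n (BTr.n (BTr.n (BTr.b b2_0) (BTr.n (BTr.b b2_1) (BTr.b b2_2))) (BTr.n (BTr.b b2_3) (BTr.n (BTr.b b2_4) (BTr.b b2_5)))) (BTr.n (BTr.n (BTr.b b2_6) (BTr.n (BTr.b b2_7) (BTr.b b2_8))) (BTr.n (BTr.b b2_9) (BTr.n (BTr.b b2_10) (BTr.b b2_11)))))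
namespace T2
def l0 : Tr := Tr.L (Pth.l (Pth.l (Pth.l Pth.z)))
def l1 : Tr := Tr.L (Pth.l (Pth.l (Pth.r (Pth.l Pth.z))))
def l2 : Tr := Tr.L (Pth.l (Pth.l (Pth.r (Pth.r Pth.z))))
def l3 : Tr := Tr.L (Pth.l (Pth.r (Pth.l Pth.z)))
def l4 : Tr := Tr.L (Pth.l (Pth.r (Pth.r (Pth.l Pth.z))))
def l5 : Tr := Tr.L (Pth.l (Pth.r (Pth.r (Pth.r Pth.z))))
def l6 : Tr := Tr.L (Pth.r (Pth.l (Pth.l Pth.z)))
def l7 : Tr := Tr.L (Pth.r (Pth.l (Pth.r (Pth.l Pth.z))))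
def l8 : Tr := Tr.L (Pth.r (Pth.l (Pth.r (Pth.r Pth.z))))
def l9 : Tr := Tr.L (Pth.r (Pth.r (Pth.l Pth.z)))
def l10 : Tr := Tr.L (Pth.r (Pth.r (Pth.r (Pth.l Pth.z))))
def l11 : Tr := Tr.L (Pth.r (Pth.r (Pth.r (Pth.r Pth.z))))
end T2
theorem bx0_0 : BoxOK sI cl9 cl13 cl13 t1 t1 b0_0 :=
  box_mk (TrL.c (I.pos (nat_lit 0) (nat_lit 0)) (xa (xa T1.l0 T1.l0) (xa T1.l0 T1.l0))
  (TrL.c (I.pos (nat_lit 0) (nat_lit 0)) (xa (xk T1.l1 T1.l1) (xk T1.l1 T1.l1))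
  (TrL.c (I.pos (nat_lit 0) (nat_lit 124588530)) (xR T1.l2 T1.l2)
  (TrL.c (I.pos (nat_lit 0) (nat_lit 96881482)) T1.l3
  (TrL.c (I.pos (nat_lit 0) (nat_lit 0)) (xa (xk (xb T1.l4 T1.l4) (xb T1.l4 T1.l4)) (xk (xb (xa T1.l4 T1.l4) (xa T1.l4 T1.l4)) (xb (xa T1.l4 T1.l4) (xa T1.l4 T1.l4))))
  (TrL.c (I.pos (nat_lit 0) (nat_lit 0)) T1.l5
  (TrL.c (I.mix (nat_lit 17240550) (nat_lit 96881482)) (xR T1.l6 T1.l6)
  (TrL.c (I.mix (nat_lit 17240550) (nat_lit 71940500)) T1.l7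
  TrL.n)))))))) (by decide +kernel)
theorem bx0_1 : BoxOK sI cl9 cl13 cl13 t1 t1 b0_1 :=
  box_mk (TrL.c (I.pos (nat_lit 0) (nat_lit 0)) (xa (xa T1.l8 T1.l8) (xa T1.l8 T1.l8))
  (TrL.c (I.pos (nat_lit 0) (nat_lit 0)) (xa T1.l1 T1.l1)
  (TrL.c (I.pos (nat_lit 0) (nat_lit 124588530)) (xR T1.l2 T1.l2)
  (TrL.c (I.pos (nat_lit 0) (nat_lit 96881482)) T1.l3
  (TrL.c (I.pos (nat_lit 0) (nat_lit 0)) (xa T1.l9 T1.l9)
  (TrL.c (I.pos (nat_lit 0) (nat_lit 0)) T1.l5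
  (TrL.c (I.mix (nat_lit 17240550) (nat_lit 96881482)) T1.l6
  (TrL.c (I.mix (nat_lit 17240550) (nat_lit 71940500)) T1.l3
  TrL.n)))))))) (by decide +kernel)
theorem bx0_2 : BoxOK sI cl9 cl13 cl13 t1 t1 b0_2 :=
  box_mk (TrL.c (I.pos (nat_lit 0) (nat_lit 0)) T1.l8
  (TrL.c (I.pos (nat_lit 0) (nat_lit 0)) T1.l1
  (TrL.c (I.pos (nat_lit 0) (nat_lit 124588530)) (xR T1.l2 T1.l2)
  (TrL.c (I.pos (nat_lit 0) (nat_lit 96881482)) T1.l3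
  (TrL.c (I.pos (nat_lit 0) (nat_lit 0)) (xk T1.l9 T1.l9)
  (TrL.c (I.pos (nat_lit 0) (nat_lit 0)) T1.l5
  (TrL.c (I.mix (nat_lit 17240550) (nat_lit 96881482)) T1.l6
  (TrL.c (I.mix (nat_lit 17240550) (nat_lit 71940500)) T1.l3
  TrL.n)))))))) (by decide +kernel)
theorem bx0_3 : BoxOK sI cl9 cl13 cl13 t1 t1 b0_3 :=
  box_mk (TrL.c (I.pos (nat_lit 0) (nat_lit 0)) T1.l8
  (TrL.c (I.pos (nat_lit 0) (nat_lit 0)) (xa T1.l1 T1.l1)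
  (TrL.c (I.pos (nat_lit 0) (nat_lit 124588530)) T1.l2
  (TrL.c (I.pos (nat_lit 0) (nat_lit 96881482)) T1.l3
  (TrL.c (I.pos (nat_lit 0) (nat_lit 0)) (xa T1.l9 T1.l9)
  (TrL.c (I.pos (nat_lit 0) (nat_lit 0)) T1.l5
  (TrL.c (I.mix (nat_lit 17240550) (nat_lit 96881482)) T1.l6
  (TrL.c (I.mix (nat_lit 17240550) (nat_lit 71940500)) T1.l3
  TrL.n)))))))) (by decide +kernel)
theorem bx0_4 : BoxOK sI cl9 cl13 cl13 t1 t1 b0_4 :=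
  box_mk (TrL.c (I.pos (nat_lit 0) (nat_lit 0)) (xa T1.l0 (xb T1.l0 T1.l0))
  (TrL.c (I.pos (nat_lit 0) (nat_lit 0)) (xa T1.l1 (xk (xb T1.l1 T1.l1) (xb T1.l1 T1.l1)))
  (TrL.c (I.pos (nat_lit 0) (nat_lit 124588530)) (xR T1.l6 T1.l6)
  (TrL.c (I.pos (nat_lit 0) (nat_lit 96881482)) (xR T1.l3 T1.l3)
  (TrL.c (I.pos (nat_lit 0) (nat_lit 0)) (xa (xk (xb (xa T1.l4 T1.l4) T1.l4) (xb (xa T1.l4 T1.l4) T1.l4)) (xk (xb (xa T1.l4 (xk (xb T1.l4 T1.l4) T1.l4)) (xa T1.l4 (xk (xb T1.l4 T1.l4) (xb T1.l4 T1.l4)))) (xb (xa T1.l4 (xk T1.l4 T1.l4)) (xa T1.l4 (xk (xb T1.l4 T1.l4) (xb T1.l4 T1.l4))))))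
  (TrL.c (I.pos (nat_lit 0) (nat_lit 0)) (xk (xa T1.l5 T1.l5) (xa T1.l5 T1.l5))
  (TrL.c (I.mix (nat_lit 17240550) (nat_lit 96881482)) (xR T1.l6 (xR T1.l6 T1.l6))
  (TrL.c (I.mix (nat_lit 17240550) (nat_lit 71940500)) T1.l3
  TrL.n)))))))) (by decide +kernel)
theorem bx0_5 : BoxOK sI cl9 cl13 cl13 t1 t1 b0_5 :=
  box_mk (TrL.c (I.pos (nat_lit 0) (nat_lit 0)) T1.l8
  (TrL.c (I.pos (nat_lit 0) (nat_lit 0)) T1.l1
  (TrL.c (I.pos (nat_lit 0) (nat_lit 124588530)) (xR T1.l2 T1.l2)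
  (TrL.c (I.pos (nat_lit 0) (nat_lit 96881482)) T1.l3
  (TrL.c (I.pos (nat_lit 0) (nat_lit 0)) (xk (xa T1.l9 T1.l9) (xa T1.l9 T1.l9))
  (TrL.c (I.pos (nat_lit 0) (nat_lit 0)) T1.l5
  (TrL.c (I.mix (nat_lit 17240550) (nat_lit 96881482)) (xR T1.l6 T1.l6)
  (TrL.c (I.mix (nat_lit 17240550) (nat_lit 71940500)) T1.l3
  TrL.n)))))))) (by decide +kernel)
theorem bx0_6 : BoxOK sI cl9 cl13 cl13 t1 t1 b0_6 :=
  box_mk (TrL.c (I.pos (nat_lit 0) (nat_lit 0)) (xa (xa T1.l8 T1.l8) T1.l8)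
  (TrL.c (I.pos (nat_lit 0) (nat_lit 0)) (xa T1.l1 T1.l1)
  (TrL.c (I.pos (nat_lit 0) (nat_lit 124588530)) T1.l2
  (TrL.c (I.pos (nat_lit 0) (nat_lit 96881482)) T1.l3
  (TrL.c (I.pos (nat_lit 0) (nat_lit 0)) (xa T1.l9 T1.l9)
  (TrL.c (I.pos (nat_lit 0) (nat_lit 0)) T1.l5
  (TrL.c (I.mix (nat_lit 17240550) (nat_lit 96881482)) T1.l6
  (TrL.c (I.mix (nat_lit 17240550) (nat_lit 71940500)) T1.l3
  TrL.n)))))))) (by decide +kernel)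
theorem bx0_7 : BoxOK sI cl9 cl13 cl13 t1 t1 b0_7 :=
  box_mk (TrL.c (I.pos (nat_lit 0) (nat_lit 0)) (xb T1.l10 T1.l10)
  (TrL.c (I.pos (nat_lit 0) (nat_lit 0)) (xk T1.l1 T1.l1)
  (TrL.c (I.pos (nat_lit 0) (nat_lit 124588530)) (xR T1.l2 T1.l2)
  (TrL.c (I.pos (nat_lit 0) (nat_lit 96881482)) T1.l3
  (TrL.c (I.pos (nat_lit 0) (nat_lit 0)) (xk (xb T1.l11 T1.l11) (xb T1.l11 T1.l11))
  (TrL.c (I.pos (nat_lit 0) (nat_lit 0)) T1.l5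
  (TrL.c (I.mix (nat_lit 17240550) (nat_lit 96881482)) (xR T1.l6 T1.l6)
  (TrL.c (I.mix (nat_lit 17240550) (nat_lit 71940500)) T1.l3
  TrL.n)))))))) (by decide +kernel)
theorem bx0_8 : BoxOK sI cl9 cl13 cl13 t1 t1 b0_8 :=
  box_mk (TrL.c (I.pos (nat_lit 0) (nat_lit 0)) (xa (xa (xb T1.l8 T1.l8) T1.l8) (xa T1.l8 T1.l8))
  (TrL.c (I.pos (nat_lit 0) (nat_lit 0)) (xa T1.l1 T1.l1)
  (TrL.c (I.pos (nat_lit 0) (nat_lit 124588530)) T1.l2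
  (TrL.c (I.pos (nat_lit 0) (nat_lit 96881482)) T1.l3
  (TrL.c (I.pos (nat_lit 0) (nat_lit 0)) (xa T1.l9 T1.l9)
  (TrL.c (I.pos (nat_lit 0) (nat_lit 0)) T1.l5
  (TrL.c (I.mix (nat_lit 17240550) (nat_lit 96881482)) T1.l6
  (TrL.c (I.mix (nat_lit 17240550) (nat_lit 71940500)) T1.l3
  TrL.n)))))))) (by decide +kernel)
theorem bx0_9 : BoxOK sI cl9 cl13 cl13 t1 t1 b0_9 :=
  box_mk (TrL.c (I.pos (nat_lit 0) (nat_lit 0)) T1.l0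
  (TrL.c (I.pos (nat_lit 0) (nat_lit 0)) T1.l1
  (TrL.c (I.pos (nat_lit 0) (nat_lit 124588530)) (xR T1.l2 T1.l2)
  (TrL.c (I.pos (nat_lit 0) (nat_lit 96881482)) T1.l3
  (TrL.c (I.pos (nat_lit 0) (nat_lit 0)) (xk (xa T1.l11 (xb T1.l11 T1.l11)) (xa T1.l11 (xb T1.l11 T1.l11)))
  (TrL.c (I.pos (nat_lit 0) (nat_lit 0)) T1.l5
  (TrL.c (I.mix (nat_lit 17240550) (nat_lit 96881482)) (xR T1.l6 T1.l6)
  (TrL.c (I.mix (nat_lit 17240550) (nat_lit 71940500)) T1.l7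
  TrL.n)))))))) (by decide +kernel)
theorem bx0_10 : BoxOK sI cl9 cl13 cl13 t1 t1 b0_10 :=
  box_mk (TrL.c (I.pos (nat_lit 0) (nat_lit 0)) T1.l10
  (TrL.c (I.pos (nat_lit 0) (nat_lit 0)) T1.l1
  (TrL.c (I.pos (nat_lit 0) (nat_lit 124588530)) (xR T1.l2 T1.l2)
  (TrL.c (I.pos (nat_lit 0) (nat_lit 96881482)) T1.l3
  (TrL.c (I.pos (nat_lit 0) (nat_lit 0)) (xk (xb T1.l11 T1.l11) (xb T1.l11 T1.l11))
  (TrL.c (I.pos (nat_lit 0) (nat_lit 0)) T1.l5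
  (TrL.c (I.mix (nat_lit 17240550) (nat_lit 96881482)) (xR T1.l6 T1.l6)
  (TrL.c (I.mix (nat_lit 17240550) (nat_lit 71940500)) T1.l3
  TrL.n)))))))) (by decide +kernel)
theorem bx0_11 : BoxOK sI cl9 cl13 cl13 t1 t1 b0_11 :=
  box_mk (TrL.c (I.pos (nat_lit 0) (nat_lit 0)) (xa T1.l0 T1.l0)
  (TrL.c (I.pos (nat_lit 0) (nat_lit 0)) (xk T1.l1 T1.l1)
  (TrL.c (I.pos (nat_lit 0) (nat_lit 124588530)) (xR T1.l2 T1.l2)
  (TrL.c (I.pos (nat_lit 0) (nat_lit 96881482)) T1.l3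
  (TrL.c (I.pos (nat_lit 0) (nat_lit 0)) (xk (xa T1.l4 T1.l4) (xa T1.l4 (xb T1.l4 T1.l4)))
  (TrL.c (I.pos (nat_lit 0) (nat_lit 0)) T1.l5
  (TrL.c (I.mix (nat_lit 17240550) (nat_lit 96881482)) (xR T1.l6 T1.l6)
  (TrL.c (I.mix (nat_lit 17240550) (nat_lit 71940500)) T1.l3
  TrL.n)))))))) (by decide +kernel)
theorem sv0 : StarV sI cl9 cl13 cl13 t1 t1 t0 :=
  (bt_n (bt_n (bt_n (bt_b bx0_0) (bt_n (bt_b bx0_1) (bt_b bx0_2))) (bt_n (bt_b bx0_3) (bt_n (bt_b bx0_4) (bt_b bx0_5)))) (bt_n (bt_n (bt_b bx0_6) (bt_n (bt_b bx0_7) (bt_b bx0_8))) (bt_n (bt_b bx0_9) (bt_n (bt_b bx0_10) (bt_b bx0_11)))))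
def S0 : StarD := StarD.mk cl9 cl13 cl13 1 1 t0
theorem bx1_0 : BoxOK sI cl13 cl9 cl13 t0 t2 b1_0 :=
  box_mk (TrL.c (I.pos (nat_lit 0) (nat_lit 0)) (xa (xb T0.l0 T0.l0) (xb T0.l0 T0.l0))
  (TrL.c (I.pos (nat_lit 0) (nat_lit 0)) (xa (xk T2.l1 T2.l1) (xk T2.l1 T2.l1))
  (TrL.c (I.pos (nat_lit 0) (nat_lit 134217730)) (xR T0.l1 T0.l1)
  (TrL.c (I.pos (nat_lit 0) (nat_lit 110514882)) (xR T2.l2 T2.l2)
  (TrL.c (I.pos (nat_lit 0) (nat_lit 0)) (xa (xk (xb T2.l3 T2.l3) T2.l3) (xk (xb (xa T2.l3 T2.l3) (xa T2.l3 T2.l3)) (xb (xa T2.l3 T2.l3) (xa T2.l3 T2.l3))))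
  (TrL.c (I.pos (nat_lit 0) (nat_lit 0)) T0.l2
  (TrL.c (I.mix (nat_lit 8088324) (nat_lit 110514882)) (xR T2.l4 T2.l4)
  (TrL.c (I.mix (nat_lit 8088324) (nat_lit 89478486)) T0.l3
  TrL.n)))))))) (by decide +kernel)
theorem bx1_1 : BoxOK sI cl13 cl9 cl13 t0 t2 b1_1 :=
  box_mk (TrL.c (I.pos (nat_lit 0) (nat_lit 0)) T0.l4
  (TrL.c (I.pos (nat_lit 0) (nat_lit 0)) T2.l1
  (TrL.c (I.pos (nat_lit 0) (nat_lit 134217730)) (xR T0.l1 T0.l1)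
  (TrL.c (I.pos (nat_lit 0) (nat_lit 110514882)) (xR T2.l2 T2.l2)
  (TrL.c (I.pos (nat_lit 0) (nat_lit 0)) (xk (xa T2.l5 T2.l5) (xa T2.l5 T2.l5))
  (TrL.c (I.pos (nat_lit 0) (nat_lit 0)) T0.l2
  (TrL.c (I.mix (nat_lit 8088324) (nat_lit 110514882)) T2.l4
  (TrL.c (I.mix (nat_lit 8088324) (nat_lit 89478486)) T0.l3
  TrL.n)))))))) (by decide +kernel)
theorem bx1_2 : BoxOK sI cl13 cl9 cl13 t0 t2 b1_2 :=
  box_mk (TrL.c (I.pos (nat_lit 0) (nat_lit 0)) (xa (xa T0.l4 T0.l4) (xa T0.l4 T0.l4))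
  (TrL.c (I.pos (nat_lit 0) (nat_lit 0)) (xa T2.l1 T2.l1)
  (TrL.c (I.pos (nat_lit 0) (nat_lit 134217730)) (xR T0.l1 T0.l1)
  (TrL.c (I.pos (nat_lit 0) (nat_lit 110514882)) (xR T2.l2 T2.l2)
  (TrL.c (I.pos (nat_lit 0) (nat_lit 0)) (xa T2.l5 T2.l5)
  (TrL.c (I.pos (nat_lit 0) (nat_lit 0)) T0.l2
  (TrL.c (I.mix (nat_lit 8088324) (nat_lit 110514882)) T2.l4
  (TrL.c (I.mix (nat_lit 8088324) (nat_lit 89478486)) T0.l3
  TrL.n)))))))) (by decide +kernel)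
theorem bx1_3 : BoxOK sI cl13 cl9 cl13 t0 t2 b1_3 :=
  box_mk (TrL.c (I.pos (nat_lit 0) (nat_lit 0)) (xa (xa T0.l4 T0.l4) T0.l4)
  (TrL.c (I.pos (nat_lit 0) (nat_lit 0)) (xa T2.l1 T2.l1)
  (TrL.c (I.pos (nat_lit 0) (nat_lit 134217730)) (xR T0.l1 T0.l1)
  (TrL.c (I.pos (nat_lit 0) (nat_lit 110514882)) (xR T2.l2 T2.l2)
  (TrL.c (I.pos (nat_lit 0) (nat_lit 0)) (xa T2.l5 T2.l5)
  (TrL.c (I.pos (nat_lit 0) (nat_lit 0)) T0.l2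
  (TrL.c (I.mix (nat_lit 8088324) (nat_lit 110514882)) T2.l4
  (TrL.c (I.mix (nat_lit 8088324) (nat_lit 89478486)) T0.l6
  TrL.n)))))))) (by decide +kernel)
theorem bx1_4 : BoxOK sI cl13 cl9 cl13 t0 t2 b1_4 :=
  box_mk (TrL.c (I.pos (nat_lit 0) (nat_lit 0)) (xb T0.l11 T0.l11)
  (TrL.c (I.pos (nat_lit 0) (nat_lit 0)) (xk T2.l1 T2.l1)
  (TrL.c (I.pos (nat_lit 0) (nat_lit 134217730)) (xR T0.l1 T0.l8)
  (TrL.c (I.pos (nat_lit 0) (nat_lit 110514882)) (xR T2.l2 T2.l2)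
  (TrL.c (I.pos (nat_lit 0) (nat_lit 0)) (xk (xb T2.l11 (xb T2.l3 T2.l3)) (xb T2.l11 (xb T2.l3 (xa T2.l3 (xs T2.l3 T2.l3)))))
  (TrL.c (I.pos (nat_lit 0) (nat_lit 0)) T0.l2
  (TrL.c (I.mix (nat_lit 8088324) (nat_lit 110514882)) (xR T2.l4 T2.l4)
  (TrL.c (I.mix (nat_lit 8088324) (nat_lit 89478486)) T0.l3
  TrL.n)))))))) (by decide +kernel)
theorem bx1_5 : BoxOK sI cl13 cl9 cl13 t0 t2 b1_5 :=
  box_mk (TrL.c (I.pos (nat_lit 0) (nat_lit 0)) T0.l4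
  (TrL.c (I.pos (nat_lit 0) (nat_lit 0)) T2.l1
  (TrL.c (I.pos (nat_lit 0) (nat_lit 134217730)) (xR T0.l1 T0.l1)
  (TrL.c (I.pos (nat_lit 0) (nat_lit 110514882)) (xR T2.l2 T2.l2)
  (TrL.c (I.pos (nat_lit 0) (nat_lit 0)) (xk T2.l5 T2.l5)
  (TrL.c (I.pos (nat_lit 0) (nat_lit 0)) T0.l2
  (TrL.c (I.mix (nat_lit 8088324) (nat_lit 110514882)) T2.l4
  (TrL.c (I.mix (nat_lit 8088324) (nat_lit 89478486)) T0.l3
  TrL.n)))))))) (by decide +kernel)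
theorem bx1_6 : BoxOK sI cl13 cl9 cl13 t0 t2 b1_6 :=
  box_mk (TrL.c (I.pos (nat_lit 0) (nat_lit 0)) (xa (xa (xb T0.l4 T0.l4) T0.l4) (xa T0.l4 T0.l4))
  (TrL.c (I.pos (nat_lit 0) (nat_lit 0)) (xa T2.l1 T2.l1)
  (TrL.c (I.pos (nat_lit 0) (nat_lit 134217730)) (xR T0.l1 T0.l1)
  (TrL.c (I.pos (nat_lit 0) (nat_lit 110514882)) T2.l2
  (TrL.c (I.pos (nat_lit 0) (nat_lit 0)) (xa T2.l5 T2.l5)
  (TrL.c (I.pos (nat_lit 0) (nat_lit 0)) T0.l2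
  (TrL.c (I.mix (nat_lit 8088324) (nat_lit 110514882)) T2.l4
  (TrL.c (I.mix (nat_lit 8088324) (nat_lit 89478486)) T0.l3
  TrL.n)))))))) (by decide +kernel)
theorem bx1_7 : BoxOK sI cl13 cl9 cl13 t0 t2 b1_7 :=
  box_mk (TrL.c (I.pos (nat_lit 0) (nat_lit 0)) T0.l4
  (TrL.c (I.pos (nat_lit 0) (nat_lit 0)) T2.l1
  (TrL.c (I.pos (nat_lit 0) (nat_lit 134217730)) (xR T0.l1 T0.l1)
  (TrL.c (I.pos (nat_lit 0) (nat_lit 110514882)) T2.l2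
  (TrL.c (I.pos (nat_lit 0) (nat_lit 0)) T2.l5
  (TrL.c (I.pos (nat_lit 0) (nat_lit 0)) T0.l2
  (TrL.c (I.mix (nat_lit 8088324) (nat_lit 110514882)) T2.l4
  (TrL.c (I.mix (nat_lit 8088324) (nat_lit 89478486)) T0.l3
  TrL.n)))))))) (by decide +kernel)
theorem bx1_8 : BoxOK sI cl13 cl9 cl13 t0 t2 b1_8 :=
  box_mk (TrL.c (I.pos (nat_lit 0) (nat_lit 0)) (xa T0.l0 T0.l0)
  (TrL.c (I.pos (nat_lit 0) (nat_lit 0)) (xa (xk T2.l1 T2.l1) (xk T2.l1 T2.l1))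
  (TrL.c (I.pos (nat_lit 0) (nat_lit 134217730)) (xR T0.l8 T0.l8)
  (TrL.c (I.pos (nat_lit 0) (nat_lit 110514882)) (xR T2.l2 T2.l2)
  (TrL.c (I.pos (nat_lit 0) (nat_lit 0)) (xa (xk (xb T2.l3 T2.l3) (xb (xa T2.l3 T2.l3) T2.l3)) (xk (xb (xa T2.l3 (xk T2.l3 T2.l3)) (xa T2.l3 (xk T2.l3 T2.l3))) (xb (xa T2.l3 (xk T2.l3 T2.l3)) (xa T2.l3 (xk T2.l3 T2.l3)))))
  (TrL.c (I.pos (nat_lit 0) (nat_lit 0)) (xk T0.l2 T0.l2)
  (TrL.c (I.mix (nat_lit 8088324) (nat_lit 110514882)) (xR T2.l4 (xR T2.l4 T2.l4))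
  (TrL.c (I.mix (nat_lit 8088324) (nat_lit 89478486)) T0.l3
  TrL.n)))))))) (by decide +kernel)
theorem bx1_9 : BoxOK sI cl13 cl9 cl13 t0 t2 b1_9 :=
  box_mk (TrL.c (I.pos (nat_lit 0) (nat_lit 0)) T0.l0
  (TrL.c (I.pos (nat_lit 0) (nat_lit 0)) T2.l1
  (TrL.c (I.pos (nat_lit 0) (nat_lit 134217730)) (xR T0.l1 T0.l1)
  (TrL.c (I.pos (nat_lit 0) (nat_lit 110514882)) (xR T2.l2 T2.l2)
  (TrL.c (I.pos (nat_lit 0) (nat_lit 0)) (xk (xb T2.l11 T2.l11) (xb T2.l11 T2.l11))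
  (TrL.c (I.pos (nat_lit 0) (nat_lit 0)) T0.l2
  (TrL.c (I.mix (nat_lit 8088324) (nat_lit 110514882)) T2.l4
  (TrL.c (I.mix (nat_lit 8088324) (nat_lit 89478486)) T0.l3
  TrL.n)))))))) (by decide +kernel)
theorem bx1_10 : BoxOK sI cl13 cl9 cl13 t0 t2 b1_10 :=
  box_mk (TrL.c (I.pos (nat_lit 0) (nat_lit 0)) (xa T0.l0 T0.l0)
  (TrL.c (I.pos (nat_lit 0) (nat_lit 0)) (xk T2.l1 T2.l1)
  (TrL.c (I.pos (nat_lit 0) (nat_lit 134217730)) (xR T0.l1 T0.l1)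
  (TrL.c (I.pos (nat_lit 0) (nat_lit 110514882)) (xR T2.l2 T2.l2)
  (TrL.c (I.pos (nat_lit 0) (nat_lit 0)) (xk (xa T2.l3 T2.l3) (xa T2.l3 (xb T2.l3 (xs T2.l3 T2.l3))))
  (TrL.c (I.pos (nat_lit 0) (nat_lit 0)) T0.l2
  (TrL.c (I.mix (nat_lit 8088324) (nat_lit 110514882)) (xR T2.l4 T2.l4)
  (TrL.c (I.mix (nat_lit 8088324) (nat_lit 89478486)) T0.l3
  TrL.n)))))))) (by decide +kernel)
theorem bx1_11 : BoxOK sI cl13 cl9 cl13 t0 t2 b1_11 :=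
  box_mk (TrL.c (I.pos (nat_lit 0) (nat_lit 0)) T0.l11
  (TrL.c (I.pos (nat_lit 0) (nat_lit 0)) T2.l1
  (TrL.c (I.pos (nat_lit 0) (nat_lit 134217730)) (xR T0.l1 T0.l1)
  (TrL.c (I.pos (nat_lit 0) (nat_lit 110514882)) (xR T2.l2 T2.l2)
  (TrL.c (I.pos (nat_lit 0) (nat_lit 0)) (xk T2.l11 T2.l11)
  (TrL.c (I.pos (nat_lit 0) (nat_lit 0)) T0.l2
  (TrL.c (I.mix (nat_lit 8088324) (nat_lit 110514882)) (xR T2.l4 T2.l4)
  (TrL.c (I.mix (nat_lit 8088324) (nat_lit 89478486)) T0.l3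
  TrL.n)))))))) (by decide +kernel)
theorem sv1 : StarV sI cl13 cl9 cl13 t0 t2 t1 :=
  (bt_n (bt_n (bt_n (bt_b bx1_0) (bt_n (bt_b bx1_1) (bt_b bx1_2))) (bt_n (bt_b bx1_3) (bt_n (bt_b bx1_4) (bt_b bx1_5)))) (bt_n (bt_n (bt_b bx1_6) (bt_n (bt_b bx1_7) (bt_b bx1_8))) (bt_n (bt_b bx1_9) (bt_n (bt_b bx1_10) (bt_b bx1_11)))))
def S1 : StarD := StarD.mk cl13 cl9 cl13 0 2 t1
theorem bx2_0 : BoxOK sI cl13 cl13 cl9 t2 t0 b2_0 :=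
  box_mk (TrL.c (I.pos (nat_lit 0) (nat_lit 0)) (xa (xa T2.l0 T2.l0) (xa T2.l0 T2.l0))
  (TrL.c (I.pos (nat_lit 0) (nat_lit 0)) (xa (xk T0.l5 T0.l5) (xk T0.l5 T0.l5))
  (TrL.c (I.pos (nat_lit 0) (nat_lit 134217730)) (xR T2.l4 T2.l6)
  (TrL.c (I.pos (nat_lit 0) (nat_lit 110514882)) (xR T0.l6 T0.l6)
  (TrL.c (I.pos (nat_lit 0) (nat_lit 0)) (xa (xk (xb T0.l7 T0.l7) (xb T0.l7 T0.l7)) (xk (xb (xa T0.l7 T0.l7) (xa T0.l7 T0.l7)) (xb (xa T0.l7 T0.l7) (xa T0.l7 (xb T0.l7 T0.l7)))))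
  (TrL.c (I.pos (nat_lit 0) (nat_lit 0)) T2.l7
  (TrL.c (I.mix (nat_lit 8088324) (nat_lit 110514882)) (xR T0.l8 T0.l8)
  (TrL.c (I.mix (nat_lit 8088324) (nat_lit 89478486)) T2.l9
  TrL.n)))))))) (by decide +kernel)
theorem bx2_1 : BoxOK sI cl13 cl13 cl9 t2 t0 b2_1 :=
  box_mk (TrL.c (I.pos (nat_lit 0) (nat_lit 0)) T2.l8
  (TrL.c (I.pos (nat_lit 0) (nat_lit 0)) T0.l5
  (TrL.c (I.pos (nat_lit 0) (nat_lit 134217730)) (xR T2.l4 T2.l6)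
  (TrL.c (I.pos (nat_lit 0) (nat_lit 110514882)) (xR T0.l6 T0.l6)
  (TrL.c (I.pos (nat_lit 0) (nat_lit 0)) (xk (xa T0.l9 T0.l9) (xa T0.l9 T0.l9))
  (TrL.c (I.pos (nat_lit 0) (nat_lit 0)) T2.l7
  (TrL.c (I.mix (nat_lit 8088324) (nat_lit 110514882)) T0.l8
  (TrL.c (I.mix (nat_lit 8088324) (nat_lit 89478486)) T2.l9
  TrL.n)))))))) (by decide +kernel)
theorem bx2_2 : BoxOK sI cl13 cl13 cl9 t2 t0 b2_2 :=
  box_mk (TrL.c (I.pos (nat_lit 0) (nat_lit 0)) (xa (xa T2.l8 T2.l8) T2.l8)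
  (TrL.c (I.pos (nat_lit 0) (nat_lit 0)) (xa T0.l5 T0.l5)
  (TrL.c (I.pos (nat_lit 0) (nat_lit 134217730)) (xR T2.l4 T2.l6)
  (TrL.c (I.pos (nat_lit 0) (nat_lit 110514882)) (xR T0.l6 T0.l6)
  (TrL.c (I.pos (nat_lit 0) (nat_lit 0)) (xa T0.l9 T0.l9)
  (TrL.c (I.pos (nat_lit 0) (nat_lit 0)) T2.l7
  (TrL.c (I.mix (nat_lit 8088324) (nat_lit 110514882)) T0.l8
  (TrL.c (I.mix (nat_lit 8088324) (nat_lit 89478486)) T2.l2
  TrL.n)))))))) (by decide +kernel)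
theorem bx2_3 : BoxOK sI cl13 cl13 cl9 t2 t0 b2_3 :=
  box_mk (TrL.c (I.pos (nat_lit 0) (nat_lit 0)) (xb T2.l10 T2.l10)
  (TrL.c (I.pos (nat_lit 0) (nat_lit 0)) (xk T0.l5 T0.l5)
  (TrL.c (I.pos (nat_lit 0) (nat_lit 134217730)) (xR T2.l4 T2.l6)
  (TrL.c (I.pos (nat_lit 0) (nat_lit 110514882)) (xR T0.l6 T0.l6)
  (TrL.c (I.pos (nat_lit 0) (nat_lit 0)) (xk (xb T0.l10 (xb T0.l7 T0.l7)) (xb T0.l10 (xb T0.l7 (xa T0.l7 (xs T0.l7 T0.l7)))))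
  (TrL.c (I.pos (nat_lit 0) (nat_lit 0)) T2.l7
  (TrL.c (I.mix (nat_lit 8088324) (nat_lit 110514882)) (xR T0.l8 T0.l8)
  (TrL.c (I.mix (nat_lit 8088324) (nat_lit 89478486)) T2.l9
  TrL.n)))))))) (by decide +kernel)
theorem bx2_4 : BoxOK sI cl13 cl13 cl9 t2 t0 b2_4 :=
  box_mk (TrL.c (I.pos (nat_lit 0) (nat_lit 0)) (xa (xa T2.l8 T2.l8) (xa T2.l8 T2.l8))
  (TrL.c (I.pos (nat_lit 0) (nat_lit 0)) (xa T0.l5 T0.l5)
  (TrL.c (I.pos (nat_lit 0) (nat_lit 134217730)) (xR T2.l4 T2.l6)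
  (TrL.c (I.pos (nat_lit 0) (nat_lit 110514882)) T0.l6
  (TrL.c (I.pos (nat_lit 0) (nat_lit 0)) (xa T0.l9 T0.l9)
  (TrL.c (I.pos (nat_lit 0) (nat_lit 0)) T2.l7
  (TrL.c (I.mix (nat_lit 8088324) (nat_lit 110514882)) T0.l8
  (TrL.c (I.mix (nat_lit 8088324) (nat_lit 89478486)) T2.l2
  TrL.n)))))))) (by decide +kernel)
theorem bx2_5 : BoxOK sI cl13 cl13 cl9 t2 t0 b2_5 :=
  box_mk (TrL.c (I.pos (nat_lit 0) (nat_lit 0)) T2.l0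
  (TrL.c (I.pos (nat_lit 0) (nat_lit 0)) T0.l5
  (TrL.c (I.pos (nat_lit 0) (nat_lit 134217730)) (xR T2.l4 T2.l6)
  (TrL.c (I.pos (nat_lit 0) (nat_lit 110514882)) (xR T0.l6 T0.l6)
  (TrL.c (I.pos (nat_lit 0) (nat_lit 0)) (xk (xa T0.l10 (xb T0.l10 T0.l10)) (xa T0.l10 (xb T0.l10 T0.l10)))
  (TrL.c (I.pos (nat_lit 0) (nat_lit 0)) T2.l7
  (TrL.c (I.mix (nat_lit 8088324) (nat_lit 110514882)) (xR T0.l8 T0.l8)
  (TrL.c (I.mix (nat_lit 8088324) (nat_lit 89478486)) T2.l9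
  TrL.n)))))))) (by decide +kernel)
theorem bx2_6 : BoxOK sI cl13 cl13 cl9 t2 t0 b2_6 :=
  box_mk (TrL.c (I.pos (nat_lit 0) (nat_lit 0)) (xa T2.l8 T2.l8)
  (TrL.c (I.pos (nat_lit 0) (nat_lit 0)) (xa T0.l5 T0.l5)
  (TrL.c (I.pos (nat_lit 0) (nat_lit 134217730)) (xR T2.l4 T2.l6)
  (TrL.c (I.pos (nat_lit 0) (nat_lit 110514882)) T0.l6
  (TrL.c (I.pos (nat_lit 0) (nat_lit 0)) T0.l9
  (TrL.c (I.pos (nat_lit 0) (nat_lit 0)) T2.l7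
  (TrL.c (I.mix (nat_lit 8088324) (nat_lit 110514882)) T0.l8
  (TrL.c (I.mix (nat_lit 8088324) (nat_lit 89478486)) T2.l2
  TrL.n)))))))) (by decide +kernel)
theorem bx2_7 : BoxOK sI cl13 cl13 cl9 t2 t0 b2_7 :=
  box_mk (TrL.c (I.pos (nat_lit 0) (nat_lit 0)) T2.l8
  (TrL.c (I.pos (nat_lit 0) (nat_lit 0)) T0.l5
  (TrL.c (I.pos (nat_lit 0) (nat_lit 134217730)) (xR T2.l4 T2.l6)
  (TrL.c (I.pos (nat_lit 0) (nat_lit 110514882)) (xR T0.l6 T0.l6)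
  (TrL.c (I.pos (nat_lit 0) (nat_lit 0)) (xk T0.l9 T0.l9)
  (TrL.c (I.pos (nat_lit 0) (nat_lit 0)) T2.l7
  (TrL.c (I.mix (nat_lit 8088324) (nat_lit 110514882)) T0.l8
  (TrL.c (I.mix (nat_lit 8088324) (nat_lit 89478486)) T2.l9
  TrL.n)))))))) (by decide +kernel)
theorem bx2_8 : BoxOK sI cl13 cl13 cl9 t2 t0 b2_8 :=
  box_mk (TrL.c (I.pos (nat_lit 0) (nat_lit 0)) (xa T2.l0 T2.l0)
  (TrL.c (I.pos (nat_lit 0) (nat_lit 0)) (xa (xk T0.l5 T0.l5) (xk (xb T0.l2 T0.l2) T0.l5))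
  (TrL.c (I.pos (nat_lit 0) (nat_lit 134217730)) (xR T2.l4 T2.l4)
  (TrL.c (I.pos (nat_lit 0) (nat_lit 110514882)) (xR T0.l6 T0.l6)
  (TrL.c (I.pos (nat_lit 0) (nat_lit 0)) (xa (xk (xb T0.l7 T0.l7) (xb T0.l7 T0.l7)) (xk (xb (xa T0.l7 (xk T0.l7 T0.l7)) (xa T0.l7 (xk T0.l7 T0.l7))) (xb (xa T0.l7 (xk T0.l7 T0.l7)) (xa T0.l7 (xk T0.l7 T0.l7)))))
  (TrL.c (I.pos (nat_lit 0) (nat_lit 0)) (xk (xa T2.l7 T2.l7) T2.l7)
  (TrL.c (I.mix (nat_lit 8088324) (nat_lit 110514882)) (xR T0.l8 (xR T0.l8 T0.l8))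
  (TrL.c (I.mix (nat_lit 8088324) (nat_lit 89478486)) T2.l9
  TrL.n)))))))) (by decide +kernel)
theorem bx2_9 : BoxOK sI cl13 cl13 cl9 t2 t0 b2_9 :=
  box_mk (TrL.c (I.pos (nat_lit 0) (nat_lit 0)) T2.l8
  (TrL.c (I.pos (nat_lit 0) (nat_lit 0)) (xa T0.l5 T0.l5)
  (TrL.c (I.pos (nat_lit 0) (nat_lit 134217730)) (xR T2.l2 T2.l6)
  (TrL.c (I.pos (nat_lit 0) (nat_lit 110514882)) T0.l6
  (TrL.c (I.pos (nat_lit 0) (nat_lit 0)) (xa T0.l9 T0.l9)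
  (TrL.c (I.pos (nat_lit 0) (nat_lit 0)) T2.l7
  (TrL.c (I.mix (nat_lit 8088324) (nat_lit 110514882)) T0.l8
  (TrL.c (I.mix (nat_lit 8088324) (nat_lit 89478486)) T2.l2
  TrL.n)))))))) (by decide +kernel)
theorem bx2_10 : BoxOK sI cl13 cl13 cl9 t2 t0 b2_10 :=
  box_mk (TrL.c (I.pos (nat_lit 0) (nat_lit 0)) (xa T2.l0 T2.l0)
  (TrL.c (I.pos (nat_lit 0) (nat_lit 0)) (xk T0.l5 T0.l5)
  (TrL.c (I.pos (nat_lit 0) (nat_lit 134217730)) (xR T2.l4 T2.l6)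
  (TrL.c (I.pos (nat_lit 0) (nat_lit 110514882)) (xR T0.l6 T0.l6)
  (TrL.c (I.pos (nat_lit 0) (nat_lit 0)) (xk (xa T0.l7 T0.l7) (xa T0.l7 (xb T0.l7 T0.l7)))
  (TrL.c (I.pos (nat_lit 0) (nat_lit 0)) T2.l7
  (TrL.c (I.mix (nat_lit 8088324) (nat_lit 110514882)) (xR T0.l8 T0.l8)
  (TrL.c (I.mix (nat_lit 8088324) (nat_lit 89478486)) T2.l9
  TrL.n)))))))) (by decide +kernel)
theorem bx2_11 : BoxOK sI cl13 cl13 cl9 t2 t0 b2_11 :=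
  box_mk (TrL.c (I.pos (nat_lit 0) (nat_lit 0)) T2.l10
  (TrL.c (I.pos (nat_lit 0) (nat_lit 0)) T0.l5
  (TrL.c (I.pos (nat_lit 0) (nat_lit 134217730)) (xR T2.l4 T2.l6)
  (TrL.c (I.pos (nat_lit 0) (nat_lit 110514882)) (xR T0.l6 T0.l6)
  (TrL.c (I.pos (nat_lit 0) (nat_lit 0)) (xk (xb T0.l10 T0.l10) (xb T0.l10 T0.l10))
  (TrL.c (I.pos (nat_lit 0) (nat_lit 0)) T2.l7
  (TrL.c (I.mix (nat_lit 8088324) (nat_lit 110514882)) (xR T0.l8 T0.l8)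
  (TrL.c (I.mix (nat_lit 8088324) (nat_lit 89478486)) T2.l9
  TrL.n)))))))) (by decide +kernel)
theorem sv2 : StarV sI cl13 cl13 cl9 t2 t0 t2 :=
  (bt_n (bt_n (bt_n (bt_b bx2_0) (bt_n (bt_b bx2_1) (bt_b bx2_2))) (bt_n (bt_b bx2_3) (bt_n (bt_b bx2_4) (bt_b bx2_5)))) (bt_n (bt_n (bt_b bx2_6) (bt_n (bt_b bx2_7) (bt_b bx2_8))) (bt_n (bt_b bx2_9) (bt_n (bt_b bx2_10) (bt_b bx2_11)))))
def S2 : StarD := StarD.mk cl13 cl13 cl9 2 0 t2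
def G : List StarD := [S0, S1, S2]
theorem so0 : StarOK sI G S0 :=
  star_mk (by decide) (by decide) rfl rfl rfl rfl rfl rfl (rfl : _ = t1) (rfl : _ = t1)
  (st_mk (Pth.l (Pth.l (Pth.l Pth.z))) (nat_lit 96067573) (nat_lit 114529518) (by decide +kernel))
  (st_mk (Pth.l (Pth.l (Pth.l Pth.z))) (nat_lit 131166274) (nat_lit 149905704) (by decide +kernel))
  (st_mk (Pth.l (Pth.l (Pth.l Pth.z))) (nat_lit 171742480) (nat_lit 190888010) (by decide +kernel)) sv0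
theorem so1 : StarOK sI G S1 :=
  star_mk (by decide) (by decide) rfl rfl rfl rfl rfl rfl (rfl : _ = t0) (rfl : _ = t2)
  (st_mk (Pth.l (Pth.l (Pth.l Pth.z))) (nat_lit 115089857) (nat_lit 133449182) (by decide +kernel))
  (st_mk (Pth.l (Pth.l (Pth.l Pth.z))) (nat_lit 149986467) (nat_lit 168597099) (by decide +kernel))
  (st_mk (Pth.l (Pth.l (Pth.l Pth.z))) (nat_lit 190251785) (nat_lit 209226187) (by decide +kernel)) sv1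
theorem so2 : StarOK sI G S2 :=
  star_mk (by decide) (by decide) rfl rfl rfl rfl rfl rfl (rfl : _ = t2) (rfl : _ = t0)
  (st_mk (Pth.l (Pth.l (Pth.l Pth.z))) (nat_lit 95831458) (nat_lit 114189283) (by decide +kernel))
  (st_mk (Pth.l (Pth.l (Pth.l Pth.z))) (nat_lit 130728068) (nat_lit 149319817) (by decide +kernel))
  (st_mk (Pth.l (Pth.l (Pth.l Pth.z))) (nat_lit 170993386) (nat_lit 189933786) (by decide +kernel)) sv2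
theorem ok : GroupOK (nat_lit 150274048) (nat_lit 209387520) G := grp_mk (allS_c so0 (allS_c so1 (allS_c so2 allS_n)))
theorem cov : GCov G cl9 cl13 cl13 := cov_mk
  ⟨0, by decide, rfl, rfl, rfl⟩ ⟨0, by decide, rfl, rfl, rfl⟩ ⟨1, by decide, rfl, rfl, rfl⟩ ⟨2, by decide, rfl, rfl, rfl⟩ ⟨1, by decide, rfl, rfl, rfl⟩ ⟨2, by decide, rfl, rfl, rfl⟩
end Q566_2

namespace Q566_3
def sI : I := I.pos (nat_lit 209321984) (nat_lit 268435456)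
def b0_0 : Bx := Bx.mk (St.mk (I.pos (nat_lit 158285824) (nat_lit 237518848)) (I.mix (nat_lit 1507328) (nat_lit 43237376)) (I.mix (nat_lit 2506752) (nat_lit 77365248)) (I.pos (nat_lit 92438528) (nat_lit 221544448)) (I.mix (nat_lit 80609280) (nat_lit 43712512)) (I.mix (nat_lit 51118080) (nat_lit 44171264)) (I.mix (nat_lit 69664768) (nat_lit 55902208)))
  false (nat_lit 30086884)
def b0_1 : Bx := Bx.mk (St.mk (I.mix (nat_lit 8880128) (nat_lit 142589952)) (I.mix (nat_lit 4505600) (nat_lit 19283968)) (I.mix (nat_lit 8290304) (nat_lit 17874944)) (I.mix (nat_lit 3178496) (nat_lit 90193920)) (I.mix (nat_lit 24838144) (nat_lit 22003712)) (I.mix (nat_lit 21135360) (nat_lit 11763712)) (I.mix (nat_lit 18153472) (nat_lit 9420800)))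
  false (nat_lit 0)
def b0_2 : Bx := Bx.mk (St.mk (I.pos (nat_lit 116473856) (nat_lit 156483584)) (I.mix (nat_lit 42024960) (nat_lit 5701632)) (I.mix (nat_lit 45350912) (nat_lit 5275648)) (I.pos (nat_lit 53624832) (nat_lit 106987520)) (I.mix (nat_lit 75743232) (nat_lit 34586624)) (I.mix (nat_lit 26460160) (nat_lit 61751296)) (I.mix (nat_lit 22102016) (nat_lit 55705600)))
  false (nat_lit 0)
def b0_3 : Bx := Bx.mk (St.mk (I.mix (nat_lit 12599296) (nat_lit 106528768)) (I.mix (nat_lit 22036480) (nat_lit 2424832)) (I.mix (nat_lit 17383424) (nat_lit 1622016)) (I.mix (nat_lit 2244608) (nat_lit 58081280)) (I.mix (nat_lit 29245440) (nat_lit 14417920)) (I.mix (nat_lit 11501568) (nat_lit 23347200)) (I.mix (nat_lit 6782976) (nat_lit 14434304)))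
  false (nat_lit 0)
def b0_4 : Bx := Bx.mk (St.mk (I.pos (nat_lit 207519744) (nat_lit 282836992)) (I.mix (nat_lit 15089664) (nat_lit 35373056)) (I.mix (nat_lit 40632320) (nat_lit 64749568)) (I.pos (nat_lit 177602560) (nat_lit 312344576)) (I.mix (nat_lit 56934400) (nat_lit 47251456)) (I.mix (nat_lit 42549248) (nat_lit 30146560)) (I.mix (nat_lit 73302016) (nat_lit 47431680)))
  false (nat_lit 32924705)
def b0_5 : Bx := Bx.mk (St.mk (I.pos (nat_lit 120717312) (nat_lit 185286656)) (I.neg (nat_lit 6930432) (nat_lit 44662784)) (I.neg (nat_lit 2883584) (nat_lit 45137920)) (I.pos (nat_lit 68026368) (nat_lit 144392192)) (I.mix (nat_lit 64929792) (nat_lit 34177024)) (I.mix (nat_lit 28049408) (nat_lit 45711360)) (I.mix (nat_lit 22822912) (nat_lit 46792704)))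
  false (nat_lit 0)
def b0_6 : Bx := Bx.mk (St.mk (I.pos (nat_lit 40124416) (nat_lit 115015680)) (I.mix (nat_lit 22478848) (nat_lit 1638400)) (I.mix (nat_lit 17006592) (nat_lit 1032192)) (I.pos (nat_lit 7520256) (nat_lit 65912832)) (I.mix (nat_lit 26427392) (nat_lit 18235392)) (I.mix (nat_lit 11599872) (nat_lit 19824640)) (I.mix (nat_lit 7356416) (nat_lit 13975552)))
  false (nat_lit 0)
def b0_7 : Bx := Bx.mk (St.mk (I.pos (nat_lit 174489600) (nat_lit 216350720)) (I.mix (nat_lit 10813440) (nat_lit 43614208)) (I.pos (nat_lit 1671168) (nat_lit 77250560)) (I.pos (nat_lit 120258560) (nat_lit 190316544)) (I.mix (nat_lit 111214592) (nat_lit 47448064)) (I.mix (nat_lit 91488256) (nat_lit 47071232)) (I.mix (nat_lit 106659840) (nat_lit 44498944)))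
  false (nat_lit 2375015)
def b0_8 : Bx := Bx.mk (St.mk (I.mix (nat_lit 13172736) (nat_lit 133791744)) (I.mix (nat_lit 11042816) (nat_lit 24788992)) (I.mix (nat_lit 9289728) (nat_lit 23085056)) (I.mix (nat_lit 2932736) (nat_lit 81739776)) (I.mix (nat_lit 39452672) (nat_lit 24035328)) (I.mix (nat_lit 34537472) (nat_lit 18382848)) (I.mix (nat_lit 25116672) (nat_lit 12582912)))
  false (nat_lit 0)
def b0_9 : Bx := Bx.mk (St.mk (I.pos (nat_lit 159072256) (nat_lit 217530368)) (I.mix (nat_lit 34439168) (nat_lit 15843328)) (I.mix (nat_lit 35356672) (nat_lit 36274176)) (I.pos (nat_lit 101056512) (nat_lit 185696256)) (I.mix (nat_lit 54427648) (nat_lit 50102272)) (I.mix (nat_lit 45973504) (nat_lit 43778048)) (I.mix (nat_lit 47792128) (nat_lit 46874624)))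
  false (nat_lit 9021210)
def b0_10 : Bx := Bx.mk (St.mk (I.pos (nat_lit 175407104) (nat_lit 218824704)) (I.mix (nat_lit 14548992) (nat_lit 27017216)) (I.mix (nat_lit 3047424) (nat_lit 52625408)) (I.pos (nat_lit 121274368) (nat_lit 189087744)) (I.mix (nat_lit 99024896) (nat_lit 66109440)) (I.mix (nat_lit 98123776) (nat_lit 56131584)) (I.mix (nat_lit 111280128) (nat_lit 57147392)))
  false (nat_lit 0)
def b0_11 : Bx := Bx.mk (St.mk (I.pos (nat_lit 191660032) (nat_lit 236240896)) (I.pos (nat_lit 14041088) (nat_lit 43843584)) (I.pos (nat_lit 27852800) (nat_lit 78626816)) (I.pos (nat_lit 161300480) (nat_lit 217284608)) (I.mix (nat_lit 82083840) (nat_lit 59342848)) (I.mix (nat_lit 63029248) (nat_lit 47792128)) (I.mix (nat_lit 95223808) (nat_lit 58851328)))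
  false (nat_lit 18850233)
def t0 : BTr := (BTr.n (BTr.n (BTr.n (BTr.b b0_0) (BTr.n (BTr.b b0_1) (BTr.b b0_2))) (BTr.n (BTr.b b0_3) (BTr.n (BTr.b b0_4) (BTr.b b0_5)))) (BTr.n (BTr.n (BTr.b b0_6) (BTr.n (BTr.b b0_7) (BTr.b b0_8))) (BTr.n (BTr.b b0_9) (BTr.n (BTr.b b0_10) (BTr.b b0_11)))))
namespace T0
def l0 : Tr := Tr.L (Pth.l (Pth.l (Pth.l Pth.z)))
def l1 : Tr := Tr.L (Pth.l (Pth.l (Pth.r (Pth.l Pth.z))))
def l2 : Tr := Tr.L (Pth.l (Pth.l (Pth.r (Pth.r Pth.z))))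
def l3 : Tr := Tr.L (Pth.l (Pth.r (Pth.l Pth.z)))
def l4 : Tr := Tr.L (Pth.l (Pth.r (Pth.r (Pth.l Pth.z))))
def l5 : Tr := Tr.L (Pth.l (Pth.r (Pth.r (Pth.r Pth.z))))
def l6 : Tr := Tr.L (Pth.r (Pth.l (Pth.l Pth.z)))
def l7 : Tr := Tr.L (Pth.r (Pth.l (Pth.r (Pth.l Pth.z))))
def l8 : Tr := Tr.L (Pth.r (Pth.l (Pth.r (Pth.r Pth.z))))
def l9 : Tr := Tr.L (Pth.r (Pth.r (Pth.l Pth.z)))
def l10 : Tr := Tr.L (Pth.r (Pth.r (Pth.r (Pth.l Pth.z))))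
def l11 : Tr := Tr.L (Pth.r (Pth.r (Pth.r (Pth.r Pth.z))))
end T0
def b1_0 : Bx := Bx.mk (St.mk (I.pos (nat_lit 158334976) (nat_lit 235831296)) (I.mix (nat_lit 1589248) (nat_lit 45842432)) (I.mix (nat_lit 2621440) (nat_lit 81838080)) (I.pos (nat_lit 111509504) (nat_lit 237731840)) (I.mix (nat_lit 85245952) (nat_lit 44728320)) (I.mix (nat_lit 53051392) (nat_lit 45219840)) (I.mix (nat_lit 71073792) (nat_lit 57327616)))
  false (nat_lit 54468376)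
def b1_1 : Bx := Bx.mk (St.mk (I.pos (nat_lit 112492544) (nat_lit 180912128)) (I.neg (nat_lit 7700480) (nat_lit 47824896)) (I.neg (nat_lit 475136) (nat_lit 46219264)) (I.pos (nat_lit 80379904) (nat_lit 157663232)) (I.mix (nat_lit 67190784) (nat_lit 34947072)) (I.mix (nat_lit 28295168) (nat_lit 45432832)) (I.mix (nat_lit 21594112) (nat_lit 44302336)))
  false (nat_lit 0)
def b1_2 : Bx := Bx.mk (St.mk (I.mix (nat_lit 12910592) (nat_lit 132431872)) (I.mix (nat_lit 4128768) (nat_lit 21889024)) (I.mix (nat_lit 8060928) (nat_lit 19021824)) (I.pos (nat_lit 15679488) (nat_lit 99270656)) (I.mix (nat_lit 29523968) (nat_lit 24870912)) (I.mix (nat_lit 24117248) (nat_lit 14286848)) (I.mix (nat_lit 18792448) (nat_lit 10469376)))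
  false (nat_lit 0)
def b1_3 : Bx := Bx.mk (St.mk (I.mix (nat_lit 14467072) (nat_lit 103120896)) (I.mix (nat_lit 25362432) (nat_lit 1572864)) (I.mix (nat_lit 16728064) (nat_lit 2850816)) (I.pos (nat_lit 16416768) (nat_lit 74858496)) (I.mix (nat_lit 27738112) (nat_lit 19431424)) (I.mix (nat_lit 12173312) (nat_lit 19857408)) (I.mix (nat_lit 7012352) (nat_lit 12140544)))
  false (nat_lit 0)
def b1_4 : Bx := Bx.mk (St.mk (I.pos (nat_lit 169820160) (nat_lit 214368256)) (I.mix (nat_lit 9781248) (nat_lit 48660480)) (I.pos (nat_lit 4390912) (nat_lit 84918272)) (I.pos (nat_lit 132513792) (nat_lit 206127104)) (I.mix (nat_lit 118849536) (nat_lit 41549824)) (I.mix (nat_lit 94044160) (nat_lit 48152576)) (I.mix (nat_lit 106496000) (nat_lit 44515328)))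
  false (nat_lit 17145804)
def b1_5 : Bx := Bx.mk (St.mk (I.pos (nat_lit 107216896) (nat_lit 149651456)) (I.mix (nat_lit 46743552) (nat_lit 5275648)) (I.mix (nat_lit 47005696) (nat_lit 4472832)) (I.pos (nat_lit 64471040) (nat_lit 118538240)) (I.mix (nat_lit 73482240) (nat_lit 33128448)) (I.mix (nat_lit 28688384) (nat_lit 60129280)) (I.mix (nat_lit 21987328) (nat_lit 49676288)))
  false (nat_lit 0)
def b1_6 : Bx := Bx.mk (St.mk (I.mix (nat_lit 23035904) (nat_lit 123305984)) (I.mix (nat_lit 11534336) (nat_lit 27181056)) (I.mix (nat_lit 8437760) (nat_lit 23429120)) (I.pos (nat_lit 15843328) (nat_lit 90685440)) (I.mix (nat_lit 39616512) (nat_lit 23314432)) (I.mix (nat_lit 34455552) (nat_lit 18890752)) (I.mix (nat_lit 22052864) (nat_lit 11632640)))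
  false (nat_lit 0)
def b1_7 : Bx := Bx.mk (St.mk (I.mix (nat_lit 18907136) (nat_lit 91586560)) (I.neg (nat_lit 1376256) (nat_lit 24707072)) (I.mix (nat_lit 16662528) (nat_lit 2228224)) (I.pos (nat_lit 16711680) (nat_lit 67108864)) (I.mix (nat_lit 28573696) (nat_lit 15613952)) (I.mix (nat_lit 12468224) (nat_lit 22904832)) (I.mix (nat_lit 6471680) (nat_lit 11681792)))
  false (nat_lit 0)
def b1_8 : Bx := Bx.mk (St.mk (I.pos (nat_lit 204308480) (nat_lit 281968640)) (I.mix (nat_lit 13647872) (nat_lit 36306944)) (I.mix (nat_lit 38043648) (nat_lit 66863104)) (I.pos (nat_lit 190726144) (nat_lit 328171520)) (I.mix (nat_lit 58818560) (nat_lit 49004544)) (I.mix (nat_lit 42303488) (nat_lit 31784960)) (I.mix (nat_lit 72597504) (nat_lit 51429376)))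
  false (nat_lit 56564630)
def b1_9 : Bx := Bx.mk (St.mk (I.pos (nat_lit 155140096) (nat_lit 213860352)) (I.mix (nat_lit 34996224) (nat_lit 16957440)) (I.mix (nat_lit 33210368) (nat_lit 40304640)) (I.pos (nat_lit 114049024) (nat_lit 199098368)) (I.mix (nat_lit 57098240) (nat_lit 46104576)) (I.mix (nat_lit 46104576) (nat_lit 43876352)) (I.mix (nat_lit 46612480) (nat_lit 45449216)))
  false (nat_lit 0)
def b1_10 : Bx := Bx.mk (St.mk (I.pos (nat_lit 188416000) (nat_lit 232390656)) (I.pos (nat_lit 10403840) (nat_lit 45400064)) (I.pos (nat_lit 20660224) (nat_lit 81510400)) (I.pos (nat_lit 173473792) (nat_lit 228442112)) (I.mix (nat_lit 85311488) (nat_lit 57671680)) (I.mix (nat_lit 63340544) (nat_lit 46399488)) (I.mix (nat_lit 97124352) (nat_lit 55459840)))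
  false (nat_lit 18602145)
def b1_11 : Bx := Bx.mk (St.mk (I.pos (nat_lit 170573824) (nat_lit 216055808)) (I.mix (nat_lit 13189120) (nat_lit 29769728)) (I.pos (nat_lit 753664) (nat_lit 58507264)) (I.pos (nat_lit 133627904) (nat_lit 203620352)) (I.mix (nat_lit 103022592) (nat_lit 65667072)) (I.mix (nat_lit 100106240) (nat_lit 57966592)) (I.mix (nat_lit 109461504) (nat_lit 56901632)))
  false (nat_lit 3311297)
def t1 : BTr := (BTr.n (BTr.n (BTr.n (BTr.b b1_0) (BTr.n (BTr.b b1_1) (BTr.b b1_2))) (BTr.n (BTr.b b1_3) (BTr.n (BTr.b b1_4) (BTr.b b1_5)))) (BTr.n (BTr.n (BTr.b b1_6) (BTr.n (BTr.b b1_7) (BTr.b b1_8))) (BTr.n (BTr.b b1_9) (BTr.n (BTr.b b1_10) (BTr.b b1_11)))))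
namespace T1
def l0 : Tr := Tr.L (Pth.l (Pth.l (Pth.l Pth.z)))
def l1 : Tr := Tr.L (Pth.l (Pth.l (Pth.r (Pth.l Pth.z))))
def l2 : Tr := Tr.L (Pth.l (Pth.l (Pth.r (Pth.r Pth.z))))
def l3 : Tr := Tr.L (Pth.l (Pth.r (Pth.l Pth.z)))
def l4 : Tr := Tr.L (Pth.l (Pth.r (Pth.r (Pth.l Pth.z))))
def l5 : Tr := Tr.L (Pth.l (Pth.r (Pth.r (Pth.r Pth.z))))
def l6 : Tr := Tr.L (Pth.r (Pth.l (Pth.l Pth.z)))
def l7 : Tr := Tr.L (Pth.r (Pth.l (Pth.r (Pth.l Pth.z))))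
def l8 : Tr := Tr.L (Pth.r (Pth.l (Pth.r (Pth.r Pth.z))))
def l9 : Tr := Tr.L (Pth.r (Pth.r (Pth.l Pth.z)))
def l10 : Tr := Tr.L (Pth.r (Pth.r (Pth.r (Pth.l Pth.z))))
def l11 : Tr := Tr.L (Pth.r (Pth.r (Pth.r (Pth.r Pth.z))))
end T1
def b2_0 : Bx := Bx.mk (St.mk (I.pos (nat_lit 158302208) (nat_lit 237191168)) (I.mix (nat_lit 1490944) (nat_lit 42418176)) (I.mix (nat_lit 2670592) (nat_lit 82804736)) (I.pos (nat_lit 92274688) (nat_lit 217743360)) (I.mix (nat_lit 80510976) (nat_lit 43925504)) (I.mix (nat_lit 52985856) (nat_lit 46465024)) (I.mix (nat_lit 72073216) (nat_lit 59326464)))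
  false (nat_lit 39837369)
def b2_1 : Bx := Bx.mk (St.mk (I.pos (nat_lit 119406592) (nat_lit 187170816)) (I.neg (nat_lit 7061504) (nat_lit 45924352)) (I.mix (nat_lit 43433984) (nat_lit 1622016)) (I.pos (nat_lit 71385088) (nat_lit 146718720)) (I.mix (nat_lit 63455232) (nat_lit 36044800)) (I.mix (nat_lit 29491200) (nat_lit 43597824)) (I.mix (nat_lit 23511040) (nat_lit 43630592)))
  false (nat_lit 0)
def b2_2 : Bx := Bx.mk (St.mk (I.mix (nat_lit 8110080) (nat_lit 117604352)) (I.mix (nat_lit 22921216) (nat_lit 1753088)) (I.mix (nat_lit 15499264) (nat_lit 3817472)) (I.mix (nat_lit 2506752) (nat_lit 66764800)) (I.mix (nat_lit 25870336) (nat_lit 18759680)) (I.mix (nat_lit 11239424) (nat_lit 18841600)) (I.mix (nat_lit 7290880) (nat_lit 13205504)))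
  false (nat_lit 0)
def b2_3 : Bx := Bx.mk (St.mk (I.pos (nat_lit 173817856) (nat_lit 215269376)) (I.mix (nat_lit 11354112) (nat_lit 42958848)) (I.pos (nat_lit 5357568) (nat_lit 81428480)) (I.pos (nat_lit 117489664) (nat_lit 187088896)) (I.mix (nat_lit 114376704) (nat_lit 47644672)) (I.mix (nat_lit 93421568) (nat_lit 46563328)) (I.mix (nat_lit 110100480) (nat_lit 42663936)))
  false (nat_lit 8361023)
def b2_4 : Bx := Bx.mk (St.mk (I.mix (nat_lit 13402112) (nat_lit 133169152)) (I.mix (nat_lit 11943936) (nat_lit 24838144)) (I.mix (nat_lit 7897088) (nat_lit 25657344)) (I.mix (nat_lit 2916352) (nat_lit 80805888)) (I.mix (nat_lit 41680896) (nat_lit 23461888)) (I.mix (nat_lit 36503552) (nat_lit 18399232)) (I.mix (nat_lit 26853376) (nat_lit 12402688)))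
  false (nat_lit 0)
def b2_5 : Bx := Bx.mk (St.mk (I.pos (nat_lit 158793728) (nat_lit 216350720)) (I.mix (nat_lit 34668544) (nat_lit 13893632)) (I.mix (nat_lit 31014912) (nat_lit 39534592)) (I.pos (nat_lit 100745216) (nat_lit 182829056)) (I.mix (nat_lit 52101120) (nat_lit 49217536)) (I.mix (nat_lit 46579712) (nat_lit 44105728)) (I.mix (nat_lit 47939584) (nat_lit 46678016)))
  false (nat_lit 10996021)
def b2_6 : Bx := Bx.mk (St.mk (I.pos (nat_lit 173719552) (nat_lit 217759744)) (I.mix (nat_lit 14925824) (nat_lit 26525696)) (I.pos (nat_lit 1163264) (nat_lit 57458688)) (I.pos (nat_lit 117260288) (nat_lit 185925632)) (I.mix (nat_lit 104235008) (nat_lit 64176128)) (I.mix (nat_lit 102170624) (nat_lit 55246848)) (I.mix (nat_lit 115900416) (nat_lit 54476800)))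
  false (nat_lit 1443036)
def b2_7 : Bx := Bx.mk (St.mk (I.pos (nat_lit 70483968) (nat_lit 139345920)) (I.mix (nat_lit 3522560) (nat_lit 18759680)) (I.mix (nat_lit 4243456) (nat_lit 20021248)) (I.pos (nat_lit 22478848) (nat_lit 88653824)) (I.mix (nat_lit 26935296) (nat_lit 21889024)) (I.mix (nat_lit 22544384) (nat_lit 12271616)) (I.mix (nat_lit 19382272) (nat_lit 9895936)))
  false (nat_lit 0)
def b2_8 : Bx := Bx.mk (St.mk (I.pos (nat_lit 117440512) (nat_lit 157941760)) (I.mix (nat_lit 42909696) (nat_lit 5029888)) (I.mix (nat_lit 42860544) (nat_lit 7897088)) (I.pos (nat_lit 54755328) (nat_lit 108953600)) (I.mix (nat_lit 70254592) (nat_lit 35979264)) (I.mix (nat_lit 27590656) (nat_lit 59457536)) (I.mix (nat_lit 23429120) (nat_lit 52920320)))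
  false (nat_lit 0)
def b2_9 : Bx := Bx.mk (St.mk (I.pos (nat_lit 200228864) (nat_lit 281198592)) (I.mix (nat_lit 12419072) (nat_lit 33636352)) (I.mix (nat_lit 23658496) (nat_lit 70385664)) (I.pos (nat_lit 165183488) (nat_lit 308592640)) (I.mix (nat_lit 60030976) (nat_lit 48644096)) (I.mix (nat_lit 43466752) (nat_lit 30408704)) (I.mix (nat_lit 75022336) (nat_lit 49758208)))
  false (nat_lit 37825923)
def b2_10 : Bx := Bx.mk (St.mk (I.pos (nat_lit 51757056) (nat_lit 105496576)) (I.neg (nat_lit 688128) (nat_lit 22036480)) (I.mix (nat_lit 15499264) (nat_lit 589824)) (I.pos (nat_lit 8978432) (nat_lit 58376192)) (I.mix (nat_lit 27656192) (nat_lit 14614528)) (I.mix (nat_lit 11337728) (nat_lit 22151168)) (I.mix (nat_lit 6701056) (nat_lit 13500416)))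
  false (nat_lit 0)
def b2_11 : Bx := Bx.mk (St.mk (I.pos (nat_lit 190709760) (nat_lit 233734144)) (I.pos (nat_lit 9306112) (nat_lit 41877504)) (I.pos (nat_lit 23969792) (nat_lit 82116608)) (I.pos (nat_lit 156811264) (nat_lit 210255872)) (I.mix (nat_lit 82378752) (nat_lit 57540608)) (I.mix (nat_lit 63881216) (nat_lit 46317568)) (I.mix (nat_lit 100007936) (nat_lit 57753600)))
  false (nat_lit 1654505)
def t2 : BTr := (BTr.n (BTr.n (BTr.n (BTr.b b2_0) (BTr.n (BTr.b b2_1) (BTr.b b2_2))) (BTr.n (BTr.b b2_3) (BTr.n (BTr.b b2_4) (BTr.b b2_5)))) (BTr.n (BTr.n (BTr.b b2_6) (BTr.n (BTr.b b2_7) (BTr.b b2_8))) (BTr.n (BTr.b b2_9) (BTr.n (BTr.b b2_10) (BTr.b b2_11)))))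
namespace T2
def l0 : Tr := Tr.L (Pth.l (Pth.l (Pth.l Pth.z)))
def l1 : Tr := Tr.L (Pth.l (Pth.l (Pth.r (Pth.l Pth.z))))
def l2 : Tr := Tr.L (Pth.l (Pth.l (Pth.r (Pth.r Pth.z))))
def l3 : Tr := Tr.L (Pth.l (Pth.r (Pth.l Pth.z)))
def l4 : Tr := Tr.L (Pth.l (Pth.r (Pth.r (Pth.l Pth.z))))
def l5 : Tr := Tr.L (Pth.l (Pth.r (Pth.r (Pth.r Pth.z))))
def l6 : Tr := Tr.L (Pth.r (Pth.l (Pth.l Pth.z)))
def l7 : Tr := Tr.L (Pth.r (Pth.l (Pth.r (Pth.l Pth.z))))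
def l8 : Tr := Tr.L (Pth.r (Pth.l (Pth.r (Pth.r Pth.z))))
def l9 : Tr := Tr.L (Pth.r (Pth.r (Pth.l Pth.z)))
def l10 : Tr := Tr.L (Pth.r (Pth.r (Pth.r (Pth.l Pth.z))))
def l11 : Tr := Tr.L (Pth.r (Pth.r (Pth.r (Pth.r Pth.z))))
end T2
theorem bx0_0 : BoxOK sI cl9 cl13 cl13 t1 t1 b0_0 :=
  box_mk (TrL.c (I.pos (nat_lit 0) (nat_lit 0)) (xa (xb (xa (xb T1.l0 T1.l0) T1.l10) (xa (xb T1.l0 (xa T1.l0 T1.l0)) (xa (xb T1.l0 T1.l0) (xb T1.l0 (xs T1.l0 T1.l0))))) (xa (xb (xb T1.l0 T1.l0) (xa (xb T1.l0 (xs T1.l0 T1.l0)) (xb T1.l0 (xs T1.l0 T1.l0)))) (xb T1.l0 (xa (xb T1.l0 T1.l0) (xb T1.l0 T1.l0)))))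
  (TrL.c (I.pos (nat_lit 0) (nat_lit 0)) (xa (xk T1.l1 T1.l1) (xk (xb T1.l1 T1.l1) T1.l1))
  (TrL.c (I.pos (nat_lit 0) (nat_lit 124588530)) (xR T1.l6 (xR T1.l2 T1.l6))
  (TrL.c (I.pos (nat_lit 0) (nat_lit 96881482)) (xR T1.l3 (xR T1.l3 (xR T1.l3 T1.l3)))
  (TrL.c (I.pos (nat_lit 0) (nat_lit 0)) (xa (xk T1.l4 T1.l4) (xk (xb T1.l4 T1.l4) (xb T1.l4 T1.l4)))
  (TrL.c (I.pos (nat_lit 0) (nat_lit 0)) T1.l5
  (TrL.c (I.mix (nat_lit 17240550) (nat_lit 96881482)) (xR T1.l6 (xR T1.l6 (xR T1.l6 T1.l6)))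
  (TrL.c (I.mix (nat_lit 17240550) (nat_lit 71940500)) (xR T1.l7 T1.l7)
  TrL.n)))))))) (by decide +kernel)
theorem bx0_1 : BoxOK sI cl9 cl13 cl13 t1 t1 b0_1 :=
  box_mk (TrL.c (I.pos (nat_lit 0) (nat_lit 0)) (xa T1.l8 (xa T1.l8 (xa T1.l8 T1.l8)))
  (TrL.c (I.pos (nat_lit 0) (nat_lit 0)) (xa T1.l1 T1.l1)
  (TrL.c (I.pos (nat_lit 0) (nat_lit 124588530)) (xR T1.l2 T1.l2)
  (TrL.c (I.pos (nat_lit 0) (nat_lit 96881482)) (xR T1.l3 (xR T1.l3 T1.l3))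
  (TrL.c (I.pos (nat_lit 0) (nat_lit 0)) (xa T1.l9 T1.l9)
  (TrL.c (I.pos (nat_lit 0) (nat_lit 0)) T1.l5
  (TrL.c (I.mix (nat_lit 17240550) (nat_lit 96881482)) T1.l6
  (TrL.c (I.mix (nat_lit 17240550) (nat_lit 71940500)) T1.l6
  TrL.n)))))))) (by decide +kernel)
theorem bx0_2 : BoxOK sI cl9 cl13 cl13 t1 t1 b0_2 :=
  box_mk (TrL.c (I.pos (nat_lit 0) (nat_lit 0)) (xb (xa T1.l8 T1.l8) (xa T1.l8 T1.l8))
  (TrL.c (I.pos (nat_lit 0) (nat_lit 0)) T1.l1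
  (TrL.c (I.pos (nat_lit 0) (nat_lit 124588530)) (xR T1.l2 T1.l2)
  (TrL.c (I.pos (nat_lit 0) (nat_lit 96881482)) (xR T1.l3 T1.l3)
  (TrL.c (I.pos (nat_lit 0) (nat_lit 0)) (xk T1.l9 T1.l9)
  (TrL.c (I.pos (nat_lit 0) (nat_lit 0)) T1.l5
  (TrL.c (I.mix (nat_lit 17240550) (nat_lit 96881482)) T1.l6
  (TrL.c (I.mix (nat_lit 17240550) (nat_lit 71940500)) (xR T1.l6 T1.l7)
  TrL.n)))))))) (by decide +kernel)
theorem bx0_3 : BoxOK sI cl9 cl13 cl13 t1 t1 b0_3 :=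
  box_mk (TrL.c (I.pos (nat_lit 0) (nat_lit 0)) (xa T1.l8 T1.l8)
  (TrL.c (I.pos (nat_lit 0) (nat_lit 0)) (xa T1.l1 T1.l1)
  (TrL.c (I.pos (nat_lit 0) (nat_lit 124588530)) (xR T1.l2 T1.l2)
  (TrL.c (I.pos (nat_lit 0) (nat_lit 96881482)) (xR T1.l6 (xR T1.l6 T1.l3))
  (TrL.c (I.pos (nat_lit 0) (nat_lit 0)) (xa T1.l9 T1.l9)
  (TrL.c (I.pos (nat_lit 0) (nat_lit 0)) T1.l5
  (TrL.c (I.mix (nat_lit 17240550) (nat_lit 96881482)) T1.l6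
  (TrL.c (I.mix (nat_lit 17240550) (nat_lit 71940500)) T1.l6
  TrL.n)))))))) (by decide +kernel)
theorem bx0_4 : BoxOK sI cl9 cl13 cl13 t1 t1 b0_4 :=
  box_mk (TrL.c (I.pos (nat_lit 0) (nat_lit 0)) (xa (xb (xa T1.l0 T1.l0) (xa (xb T1.l0 T1.l0) (xb T1.l0 (xc T1.l0 T1.l0)))) (xb (xa T1.l0 (xb T1.l0 T1.l0)) (xa (xb T1.l0 (xa T1.l0 T1.l0)) (xb T1.l0 (xa T1.l0 T1.l0)))))
  (TrL.c (I.pos (nat_lit 0) (nat_lit 0)) (xa (xk T1.l1 T1.l1) (xk (xb T1.l5 T1.l5) (xb T1.l1 T1.l5)))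
  (TrL.c (I.pos (nat_lit 0) (nat_lit 124588530)) (xR T1.l6 (xR T1.l2 T1.l6))
  (TrL.c (I.pos (nat_lit 0) (nat_lit 96881482)) (xR (xR T1.l3 T1.l3) (xR T1.l3 (xR T1.l3 T1.l3)))
  (TrL.c (I.pos (nat_lit 0) (nat_lit 0)) (xa (xk (xb (xa T1.l4 T1.l4) T1.l4) (xb (xa T1.l4 T1.l4) T1.l4)) (xk (xb (xa (xb T1.l4 T1.l4) (xk T1.l4 T1.l4)) (xa T1.l4 (xk T1.l4 T1.l4))) (xb (xa T1.l4 (xk T1.l4 T1.l4)) (xa T1.l4 (xk T1.l4 T1.l4)))))
  (TrL.c (I.pos (nat_lit 0) (nat_lit 0)) (xk (xa T1.l5 T1.l5) (xa T1.l5 T1.l5))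
  (TrL.c (I.mix (nat_lit 17240550) (nat_lit 96881482)) (xR T1.l6 (xR T1.l6 (xR T1.l6 (xk (xR T1.l6 T1.l6) T1.l6))))
  (TrL.c (I.mix (nat_lit 17240550) (nat_lit 71940500)) (xR T1.l7 (xR T1.l7 (xR T1.l7 T1.l7)))
  TrL.n)))))))) (by decide +kernel)
theorem bx0_5 : BoxOK sI cl9 cl13 cl13 t1 t1 b0_5 :=
  box_mk (TrL.c (I.pos (nat_lit 0) (nat_lit 0)) (xa (xb T1.l8 T1.l8) (xb T1.l0 T1.l0))
  (TrL.c (I.pos (nat_lit 0) (nat_lit 0)) (xa T1.l1 T1.l1)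
  (TrL.c (I.pos (nat_lit 0) (nat_lit 124588530)) (xR T1.l2 T1.l2)
  (TrL.c (I.pos (nat_lit 0) (nat_lit 96881482)) (xR T1.l3 T1.l3)
  (TrL.c (I.pos (nat_lit 0) (nat_lit 0)) (xk (xa T1.l9 T1.l9) (xa T1.l9 T1.l9))
  (TrL.c (I.pos (nat_lit 0) (nat_lit 0)) T1.l5
  (TrL.c (I.mix (nat_lit 17240550) (nat_lit 96881482)) (xR T1.l6 T1.l6)
  (TrL.c (I.mix (nat_lit 17240550) (nat_lit 71940500)) (xR T1.l6 T1.l7)
  TrL.n)))))))) (by decide +kernel)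
theorem bx0_6 : BoxOK sI cl9 cl13 cl13 t1 t1 b0_6 :=
  box_mk (TrL.c (I.pos (nat_lit 0) (nat_lit 0)) T1.l8
  (TrL.c (I.pos (nat_lit 0) (nat_lit 0)) T1.l1
  (TrL.c (I.pos (nat_lit 0) (nat_lit 124588530)) (xR T1.l2 T1.l2)
  (TrL.c (I.pos (nat_lit 0) (nat_lit 96881482)) T1.l3
  (TrL.c (I.pos (nat_lit 0) (nat_lit 0)) T1.l9
  (TrL.c (I.pos (nat_lit 0) (nat_lit 0)) T1.l5
  (TrL.c (I.mix (nat_lit 17240550) (nat_lit 96881482)) T1.l6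
  (TrL.c (I.mix (nat_lit 17240550) (nat_lit 71940500)) T1.l6
  TrL.n)))))))) (by decide +kernel)
theorem bx0_7 : BoxOK sI cl9 cl13 cl13 t1 t1 b0_7 :=
  box_mk (TrL.c (I.pos (nat_lit 0) (nat_lit 0)) (xb (xa (xb T1.l10 T1.l10) (xb (xa T1.l10 T1.l10) (xa T1.l10 T1.l10))) (xa (xb (xa T1.l10 T1.l10) (xa (xs T1.l10 T1.l10) (xs T1.l10 T1.l10))) (xb (xa T1.l10 (xk T1.l10 T1.l10)) (xa (xs T1.l10 T1.l10) (xs T1.l10 (xk T1.l10 T1.l10))))))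
  (TrL.c (I.pos (nat_lit 0) (nat_lit 0)) (xk (xb T1.l1 T1.l1) (xb T1.l1 T1.l1))
  (TrL.c (I.pos (nat_lit 0) (nat_lit 124588530)) (xR T1.l6 (xR T1.l2 (xR T1.l2 T1.l2)))
  (TrL.c (I.pos (nat_lit 0) (nat_lit 96881482)) (xR T1.l3 (xR T1.l3 (xR T1.l3 T1.l3)))
  (TrL.c (I.pos (nat_lit 0) (nat_lit 0)) (xb (xk T1.l11 T1.l11) (xk (xb T1.l11 (xa T1.l11 T1.l11)) (xb T1.l11 (xa T1.l11 (xs T1.l11 T1.l11)))))
  (TrL.c (I.pos (nat_lit 0) (nat_lit 0)) T1.l5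
  (TrL.c (I.mix (nat_lit 17240550) (nat_lit 96881482)) (xR T1.l6 (xR T1.l6 (xR T1.l6 T1.l6)))
  (TrL.c (I.mix (nat_lit 17240550) (nat_lit 71940500)) (xR T1.l7 (xR T1.l7 T1.l7))
  TrL.n)))))))) (by decide +kernel)
theorem bx0_8 : BoxOK sI cl9 cl13 cl13 t1 t1 b0_8 :=
  box_mk (TrL.c (I.pos (nat_lit 0) (nat_lit 0)) (xa (xa T1.l8 T1.l8) (xa T1.l8 (xa T1.l8 T1.l8)))
  (TrL.c (I.pos (nat_lit 0) (nat_lit 0)) (xa T1.l1 T1.l1)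
  (TrL.c (I.pos (nat_lit 0) (nat_lit 124588530)) (xR T1.l2 T1.l2)
  (TrL.c (I.pos (nat_lit 0) (nat_lit 96881482)) (xR T1.l6 (xR T1.l3 T1.l3))
  (TrL.c (I.pos (nat_lit 0) (nat_lit 0)) (xa T1.l9 T1.l9)
  (TrL.c (I.pos (nat_lit 0) (nat_lit 0)) T1.l5
  (TrL.c (I.mix (nat_lit 17240550) (nat_lit 96881482)) (xR T1.l6 T1.l6)
  (TrL.c (I.mix (nat_lit 17240550) (nat_lit 71940500)) T1.l6
  TrL.n)))))))) (by decide +kernel)
theorem bx0_9 : BoxOK sI cl9 cl13 cl13 t1 t1 b0_9 :=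
  box_mk (TrL.c (I.pos (nat_lit 0) (nat_lit 0)) (xa (xb T1.l0 (xa T1.l0 T1.l10)) (xb T1.l0 T1.l0))
  (TrL.c (I.pos (nat_lit 0) (nat_lit 0)) (xa T1.l1 T1.l1)
  (TrL.c (I.pos (nat_lit 0) (nat_lit 124588530)) (xR T1.l6 T1.l6)
  (TrL.c (I.pos (nat_lit 0) (nat_lit 96881482)) (xR T1.l3 T1.l3)
  (TrL.c (I.pos (nat_lit 0) (nat_lit 0)) (xk (xb (xa T1.l11 T1.l11) T1.l11) (xa T1.l11 (xb T1.l11 T1.l11)))
  (TrL.c (I.pos (nat_lit 0) (nat_lit 0)) T1.l5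
  (TrL.c (I.mix (nat_lit 17240550) (nat_lit 96881482)) (xR T1.l6 (xR T1.l6 T1.l6))
  (TrL.c (I.mix (nat_lit 17240550) (nat_lit 71940500)) (xR T1.l7 T1.l7)
  TrL.n)))))))) (by decide +kernel)
theorem bx0_10 : BoxOK sI cl9 cl13 cl13 t1 t1 b0_10 :=
  box_mk (TrL.c (I.pos (nat_lit 0) (nat_lit 0)) (xa (xb (xa T1.l10 T1.l10) (xa T1.l10 T1.l10)) (xb (xa T1.l10 T1.l10) (xa (xb T1.l10 T1.l10) (xb T1.l10 T1.l10))))
  (TrL.c (I.pos (nat_lit 0) (nat_lit 0)) (xk T1.l1 T1.l1)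
  (TrL.c (I.pos (nat_lit 0) (nat_lit 124588530)) (xR T1.l6 (xR T1.l2 (xR T1.l2 T1.l6)))
  (TrL.c (I.pos (nat_lit 0) (nat_lit 96881482)) (xR T1.l3 (xR T1.l3 (xR T1.l3 T1.l3)))
  (TrL.c (I.pos (nat_lit 0) (nat_lit 0)) (xk (xb T1.l11 T1.l11) (xb T1.l11 T1.l11))
  (TrL.c (I.pos (nat_lit 0) (nat_lit 0)) T1.l5
  (TrL.c (I.mix (nat_lit 17240550) (nat_lit 96881482)) (xR T1.l6 (xR T1.l6 (xR T1.l6 T1.l6)))
  (TrL.c (I.mix (nat_lit 17240550) (nat_lit 71940500)) (xR T1.l7 (xR T1.l7 T1.l7))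
  TrL.n)))))))) (by decide +kernel)
theorem bx0_11 : BoxOK sI cl9 cl13 cl13 t1 t1 b0_11 :=
  box_mk (TrL.c (I.pos (nat_lit 0) (nat_lit 0)) (xa (xb (xa T1.l10 T1.l0) (xa (xs T1.l0 T1.l0) (xs T1.l0 (xk T1.l0 T1.l0)))) (xb (xa T1.l0 T1.l0) (xa (xs T1.l0 (xk T1.l0 T1.l0)) (xs T1.l0 (xk T1.l0 T1.l0)))))
  (TrL.c (I.pos (nat_lit 0) (nat_lit 0)) (xk (xa T1.l1 T1.l1) T1.l1)
  (TrL.c (I.pos (nat_lit 0) (nat_lit 124588530)) (xR T1.l6 (xR T1.l2 (xR T1.l2 T1.l6)))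
  (TrL.c (I.pos (nat_lit 0) (nat_lit 96881482)) (xR T1.l3 (xR T1.l3 (xR T1.l3 T1.l3)))
  (TrL.c (I.pos (nat_lit 0) (nat_lit 0)) (xk (xa T1.l4 (xb T1.l4 T1.l4)) (xa T1.l4 (xb T1.l4 (xb T1.l4 T1.l4))))
  (TrL.c (I.pos (nat_lit 0) (nat_lit 0)) T1.l5
  (TrL.c (I.mix (nat_lit 17240550) (nat_lit 96881482)) (xR T1.l6 (xR T1.l6 (xR T1.l6 T1.l6)))
  (TrL.c (I.mix (nat_lit 17240550) (nat_lit 71940500)) (xR T1.l7 T1.l7)
  TrL.n)))))))) (by decide +kernel)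
theorem sv0 : StarV sI cl9 cl13 cl13 t1 t1 t0 :=
  (bt_n (bt_n (bt_n (bt_b bx0_0) (bt_n (bt_b bx0_1) (bt_b bx0_2))) (bt_n (bt_b bx0_3) (bt_n (bt_b bx0_4) (bt_b bx0_5)))) (bt_n (bt_n (bt_b bx0_6) (bt_n (bt_b bx0_7) (bt_b bx0_8))) (bt_n (bt_b bx0_9) (bt_n (bt_b bx0_10) (bt_b bx0_11)))))
def S0 : StarD := StarD.mk cl9 cl13 cl13 1 1 t0
theorem bx1_0 : BoxOK sI cl13 cl9 cl13 t0 t2 b1_0 :=
  box_mk (TrL.c (I.pos (nat_lit 0) (nat_lit 0)) (xa (xb (xa (xb T0.l0 T0.l0) T0.l11) (xa (xb (xa T0.l0 T0.l0) (xa T0.l0 T0.l0)) (xb T0.l0 (xa T0.l11 T0.l11)))) (xb (xa (xb T0.l0 T0.l0) T0.l0) (xa (xb T0.l0 (xa T0.l11 T0.l0)) (xa (xb T0.l0 T0.l0) (xb T0.l0 T0.l0)))))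
  (TrL.c (I.pos (nat_lit 0) (nat_lit 0)) (xa (xk T2.l1 T2.l1) (xk T2.l1 T2.l1))
  (TrL.c (I.pos (nat_lit 0) (nat_lit 134217730)) (xR T0.l8 T0.l8)
  (TrL.c (I.pos (nat_lit 0) (nat_lit 110514882)) (xR T2.l4 (xR T2.l2 (xR T2.l2 T2.l2)))
  (TrL.c (I.pos (nat_lit 0) (nat_lit 0)) (xa (xk T2.l3 T2.l3) (xk (xb T2.l3 T2.l3) (xb T2.l3 T2.l3)))
  (TrL.c (I.pos (nat_lit 0) (nat_lit 0)) T0.l2
  (TrL.c (I.mix (nat_lit 8088324) (nat_lit 110514882)) (xR T2.l4 (xR T2.l4 (xR T2.l4 T2.l4)))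
  (TrL.c (I.mix (nat_lit 8088324) (nat_lit 89478486)) (xR T0.l3 T0.l3)
  TrL.n)))))))) (by decide +kernel)
theorem bx1_1 : BoxOK sI cl13 cl9 cl13 t0 t2 b1_1 :=
  box_mk (TrL.c (I.pos (nat_lit 0) (nat_lit 0)) (xa (xb T0.l4 T0.l4) (xb T0.l0 T0.l0))
  (TrL.c (I.pos (nat_lit 0) (nat_lit 0)) (xa T2.l1 T2.l1)
  (TrL.c (I.pos (nat_lit 0) (nat_lit 134217730)) (xR T0.l1 T0.l1)
  (TrL.c (I.pos (nat_lit 0) (nat_lit 110514882)) (xR T2.l2 (xR T2.l2 T2.l2))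
  (TrL.c (I.pos (nat_lit 0) (nat_lit 0)) (xk (xa T2.l5 T2.l5) (xa T2.l5 T2.l5))
  (TrL.c (I.pos (nat_lit 0) (nat_lit 0)) T0.l2
  (TrL.c (I.mix (nat_lit 8088324) (nat_lit 110514882)) T2.l4
  (TrL.c (I.mix (nat_lit 8088324) (nat_lit 89478486)) T0.l3
  TrL.n)))))))) (by decide +kernel)
theorem bx1_2 : BoxOK sI cl13 cl9 cl13 t0 t2 b1_2 :=
  box_mk (TrL.c (I.pos (nat_lit 0) (nat_lit 0)) (xa T0.l4 (xa T0.l4 T0.l4))
  (TrL.c (I.pos (nat_lit 0) (nat_lit 0)) (xa T2.l1 T2.l1)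
  (TrL.c (I.pos (nat_lit 0) (nat_lit 134217730)) (xR T0.l1 T0.l1)
  (TrL.c (I.pos (nat_lit 0) (nat_lit 110514882)) (xR T2.l2 (xR T2.l2 T2.l2))
  (TrL.c (I.pos (nat_lit 0) (nat_lit 0)) (xa T2.l5 T2.l5)
  (TrL.c (I.pos (nat_lit 0) (nat_lit 0)) T0.l2
  (TrL.c (I.mix (nat_lit 8088324) (nat_lit 110514882)) (xR T2.l4 T2.l4)
  (TrL.c (I.mix (nat_lit 8088324) (nat_lit 89478486)) T0.l3
  TrL.n)))))))) (by decide +kernel)
theorem bx1_3 : BoxOK sI cl13 cl9 cl13 t0 t2 b1_3 :=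
  box_mk (TrL.c (I.pos (nat_lit 0) (nat_lit 0)) (xa T0.l4 T0.l4)
  (TrL.c (I.pos (nat_lit 0) (nat_lit 0)) (xa T2.l1 T2.l1)
  (TrL.c (I.pos (nat_lit 0) (nat_lit 134217730)) (xR T0.l1 T0.l1)
  (TrL.c (I.pos (nat_lit 0) (nat_lit 110514882)) (xR T2.l2 (xR T2.l2 (xR T2.l2 T2.l2)))
  (TrL.c (I.pos (nat_lit 0) (nat_lit 0)) (xa T2.l5 T2.l5)
  (TrL.c (I.pos (nat_lit 0) (nat_lit 0)) T0.l2
  (TrL.c (I.mix (nat_lit 8088324) (nat_lit 110514882)) T2.l4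
  (TrL.c (I.mix (nat_lit 8088324) (nat_lit 89478486)) T0.l3
  TrL.n)))))))) (by decide +kernel)
theorem bx1_4 : BoxOK sI cl13 cl9 cl13 t0 t2 b1_4 :=
  box_mk (TrL.c (I.pos (nat_lit 0) (nat_lit 0)) (xb (xa (xb T0.l11 (xa T0.l11 T0.l11)) (xb (xa T0.l11 T0.l11) (xa T0.l11 T0.l11))) (xa (xb (xa T0.l11 T0.l11) (xa (xs T0.l11 T0.l11) (xs T0.l11 T0.l11))) (xb (xa T0.l11 (xk T0.l11 T0.l11)) (xa (xs T0.l11 T0.l11) (xs T0.l11 (xk T0.l11 T0.l11))))))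
  (TrL.c (I.pos (nat_lit 0) (nat_lit 0)) (xk (xb T2.l1 T2.l1) (xb T2.l1 T2.l1))
  (TrL.c (I.pos (nat_lit 0) (nat_lit 134217730)) (xR T0.l8 (xR T0.l1 (xR T0.l1 (xb T0.l1 T0.l8))))
  (TrL.c (I.pos (nat_lit 0) (nat_lit 110514882)) (xR T2.l2 (xR T2.l2 (xR T2.l2 T2.l2)))
  (TrL.c (I.pos (nat_lit 0) (nat_lit 0)) (xb (xk T2.l6 T2.l6) (xk (xb T2.l6 (xa T2.l6 (xs T2.l6 (xk T2.l6 (xb T2.l6 T2.l6))))) (xa (xb T2.l6 (xs T2.l6 T2.l6)) (xb T2.l6 (xs (xk T2.l6 T2.l6) (xb T2.l6 (xk T2.l6 (xa T2.l6 T2.l6))))))))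
  (TrL.c (I.pos (nat_lit 0) (nat_lit 0)) T0.l2
  (TrL.c (I.mix (nat_lit 8088324) (nat_lit 110514882)) (xR T2.l4 (xR T2.l4 (xR T2.l4 T2.l4)))
  (TrL.c (I.mix (nat_lit 8088324) (nat_lit 89478486)) (xR T0.l3 (xR T0.l3 T0.l3))
  TrL.n)))))))) (by decide +kernel)
theorem bx1_5 : BoxOK sI cl13 cl9 cl13 t0 t2 b1_5 :=
  box_mk (TrL.c (I.pos (nat_lit 0) (nat_lit 0)) (xb (xa T0.l4 T0.l4) (xa T0.l4 T0.l4))
  (TrL.c (I.pos (nat_lit 0) (nat_lit 0)) T2.l1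
  (TrL.c (I.pos (nat_lit 0) (nat_lit 134217730)) (xR T0.l1 T0.l1)
  (TrL.c (I.pos (nat_lit 0) (nat_lit 110514882)) (xR T2.l2 T2.l2)
  (TrL.c (I.pos (nat_lit 0) (nat_lit 0)) (xb T2.l5 T2.l5)
  (TrL.c (I.pos (nat_lit 0) (nat_lit 0)) T0.l2
  (TrL.c (I.mix (nat_lit 8088324) (nat_lit 110514882)) T2.l4
  (TrL.c (I.mix (nat_lit 8088324) (nat_lit 89478486)) T0.l3
  TrL.n)))))))) (by decide +kernel)
theorem bx1_6 : BoxOK sI cl13 cl9 cl13 t0 t2 b1_6 :=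
  box_mk (TrL.c (I.pos (nat_lit 0) (nat_lit 0)) (xa (xa T0.l4 T0.l4) (xa T0.l4 (xb T0.l4 T0.l4)))
  (TrL.c (I.pos (nat_lit 0) (nat_lit 0)) (xa T2.l1 T2.l1)
  (TrL.c (I.pos (nat_lit 0) (nat_lit 134217730)) (xR T0.l1 T0.l1)
  (TrL.c (I.pos (nat_lit 0) (nat_lit 110514882)) (xR T2.l2 (xR T2.l2 (xR T2.l2 T2.l2)))
  (TrL.c (I.pos (nat_lit 0) (nat_lit 0)) (xa T2.l5 T2.l5)
  (TrL.c (I.pos (nat_lit 0) (nat_lit 0)) T0.l2
  (TrL.c (I.mix (nat_lit 8088324) (nat_lit 110514882)) (xR T2.l4 T2.l4)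
  (TrL.c (I.mix (nat_lit 8088324) (nat_lit 89478486)) T0.l3
  TrL.n)))))))) (by decide +kernel)
theorem bx1_7 : BoxOK sI cl13 cl9 cl13 t0 t2 b1_7 :=
  box_mk (TrL.c (I.pos (nat_lit 0) (nat_lit 0)) (xa T0.l4 T0.l4)
  (TrL.c (I.pos (nat_lit 0) (nat_lit 0)) (xa T2.l1 T2.l1)
  (TrL.c (I.pos (nat_lit 0) (nat_lit 134217730)) (xR T0.l1 T0.l1)
  (TrL.c (I.pos (nat_lit 0) (nat_lit 110514882)) (xR T2.l2 (xR T2.l4 (xR T2.l2 T2.l2)))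
  (TrL.c (I.pos (nat_lit 0) (nat_lit 0)) (xa T2.l5 T2.l5)
  (TrL.c (I.pos (nat_lit 0) (nat_lit 0)) T0.l2
  (TrL.c (I.mix (nat_lit 8088324) (nat_lit 110514882)) T2.l4
  (TrL.c (I.mix (nat_lit 8088324) (nat_lit 89478486)) T0.l3
  TrL.n)))))))) (by decide +kernel)
theorem bx1_8 : BoxOK sI cl13 cl9 cl13 t0 t2 b1_8 :=
  box_mk (TrL.c (I.pos (nat_lit 0) (nat_lit 0)) (xa (xb (xa T0.l0 T0.l0) (xa (xb T0.l0 T0.l0) (xb T0.l0 T0.l0))) (xb (xa T0.l0 T0.l0) (xa (xb T0.l0 (xa T0.l0 T0.l0)) (xb T0.l0 (xa T0.l0 T0.l0)))))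
  (TrL.c (I.pos (nat_lit 0) (nat_lit 0)) (xa (xk T2.l1 T2.l1) (xk (xb T2.l1 T2.l1) T2.l8))
  (TrL.c (I.pos (nat_lit 0) (nat_lit 134217730)) (xR T0.l8 T0.l8)
  (TrL.c (I.pos (nat_lit 0) (nat_lit 110514882)) (xR T2.l4 (xR T2.l2 (xR T2.l2 T2.l2)))
  (TrL.c (I.pos (nat_lit 0) (nat_lit 0)) (xa (xk (xb (xa T2.l3 T2.l3) T2.l3) (xb (xa T2.l3 T2.l3) T2.l3)) (xk (xb (xa T2.l3 (xk T2.l3 T2.l3)) (xa T2.l3 (xk T2.l3 T2.l3))) (xb (xa T2.l3 (xk T2.l3 T2.l3)) (xa T2.l3 (xk T2.l3 T2.l3)))))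
  (TrL.c (I.pos (nat_lit 0) (nat_lit 0)) (xk (xa T0.l2 T0.l2) T0.l2)
  (TrL.c (I.mix (nat_lit 8088324) (nat_lit 110514882)) (xR T2.l4 (xR T2.l4 (xR T2.l4 (xk (xR T2.l4 T2.l4) T2.l4))))
  (TrL.c (I.mix (nat_lit 8088324) (nat_lit 89478486)) (xR T0.l3 (xR T0.l3 (xR T0.l3 T0.l3)))
  TrL.n)))))))) (by decide +kernel)
theorem bx1_9 : BoxOK sI cl13 cl9 cl13 t0 t2 b1_9 :=
  box_mk (TrL.c (I.pos (nat_lit 0) (nat_lit 0)) (xa (xb T0.l0 (xa T0.l0 T0.l0)) (xb T0.l0 T0.l0))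
  (TrL.c (I.pos (nat_lit 0) (nat_lit 0)) (xk T2.l1 T2.l1)
  (TrL.c (I.pos (nat_lit 0) (nat_lit 134217730)) (xR T0.l8 T0.l8)
  (TrL.c (I.pos (nat_lit 0) (nat_lit 110514882)) (xR T2.l2 (xR T2.l2 T2.l2))
  (TrL.c (I.pos (nat_lit 0) (nat_lit 0)) (xk (xb (xa T2.l6 T2.l6) T2.l6) (xa T2.l6 (xb T2.l6 T2.l6)))
  (TrL.c (I.pos (nat_lit 0) (nat_lit 0)) T0.l2
  (TrL.c (I.mix (nat_lit 8088324) (nat_lit 110514882)) (xR T2.l4 (xR T2.l4 T2.l4))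
  (TrL.c (I.mix (nat_lit 8088324) (nat_lit 89478486)) T0.l3
  TrL.n)))))))) (by decide +kernel)
theorem bx1_10 : BoxOK sI cl13 cl9 cl13 t0 t2 b1_10 :=
  box_mk (TrL.c (I.pos (nat_lit 0) (nat_lit 0)) (xa (xb (xa T0.l11 T0.l0) (xa (xb T0.l0 T0.l11) (xs T0.l0 T0.l11))) (xb (xa T0.l0 T0.l0) (xa (xs T0.l0 (xb T0.l0 T0.l0)) (xs T0.l0 (xb T0.l0 T0.l0)))))
  (TrL.c (I.pos (nat_lit 0) (nat_lit 0)) (xk T2.l1 T2.l1)
  (TrL.c (I.pos (nat_lit 0) (nat_lit 134217730)) (xR T0.l8 (xR T0.l1 T0.l8))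
  (TrL.c (I.pos (nat_lit 0) (nat_lit 110514882)) (xR T2.l2 (xR T2.l2 (xR T2.l2 T2.l2)))
  (TrL.c (I.pos (nat_lit 0) (nat_lit 0)) (xk (xa T2.l3 (xb T2.l3 (xb T2.l3 (xs T2.l3 (xk T2.l6 T2.l6))))) (xb T2.l3 (xa T2.l6 (xb T2.l6 (xs T2.l6 T2.l6)))))
  (TrL.c (I.pos (nat_lit 0) (nat_lit 0)) T0.l2
  (TrL.c (I.mix (nat_lit 8088324) (nat_lit 110514882)) (xR T2.l4 (xR T2.l4 T2.l4))
  (TrL.c (I.mix (nat_lit 8088324) (nat_lit 89478486)) T0.l3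
  TrL.n)))))))) (by decide +kernel)
theorem bx1_11 : BoxOK sI cl13 cl9 cl13 t0 t2 b1_11 :=
  box_mk (TrL.c (I.pos (nat_lit 0) (nat_lit 0)) (xa (xb (xa T0.l11 T0.l11) (xa T0.l11 T0.l11)) (xb (xa T0.l11 T0.l11) (xa T0.l11 (xb T0.l11 T0.l11))))
  (TrL.c (I.pos (nat_lit 0) (nat_lit 0)) (xk T2.l1 T2.l1)
  (TrL.c (I.pos (nat_lit 0) (nat_lit 134217730)) (xR T0.l8 (xR T0.l1 T0.l8))
  (TrL.c (I.pos (nat_lit 0) (nat_lit 110514882)) (xR T2.l2 (xR T2.l2 (xR T2.l2 T2.l2)))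
  (TrL.c (I.pos (nat_lit 0) (nat_lit 0)) (xk (xb T2.l6 (xa T2.l6 T2.l6)) (xb T2.l6 (xa T2.l6 (xb T2.l6 (xk T2.l6 T2.l6)))))
  (TrL.c (I.pos (nat_lit 0) (nat_lit 0)) T0.l2
  (TrL.c (I.mix (nat_lit 8088324) (nat_lit 110514882)) (xR T2.l4 (xR T2.l4 (xR T2.l4 T2.l4)))
  (TrL.c (I.mix (nat_lit 8088324) (nat_lit 89478486)) (xR T0.l3 (xR T0.l3 T0.l3))
  TrL.n)))))))) (by decide +kernel)
theorem sv1 : StarV sI cl13 cl9 cl13 t0 t2 t1 :=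
  (bt_n (bt_n (bt_n (bt_b bx1_0) (bt_n (bt_b bx1_1) (bt_b bx1_2))) (bt_n (bt_b bx1_3) (bt_n (bt_b bx1_4) (bt_b bx1_5)))) (bt_n (bt_n (bt_b bx1_6) (bt_n (bt_b bx1_7) (bt_b bx1_8))) (bt_n (bt_b bx1_9) (bt_n (bt_b bx1_10) (bt_b bx1_11)))))
def S1 : StarD := StarD.mk cl13 cl9 cl13 0 2 t1
theorem bx2_0 : BoxOK sI cl13 cl13 cl9 t2 t0 b2_0 :=
  box_mk (TrL.c (I.pos (nat_lit 0) (nat_lit 0)) (xa (xb (xa (xb T2.l0 T2.l0) T2.l11) (xa (xb (xa T2.l0 T2.l0) (xa T2.l0 T2.l0)) (xa (xb T2.l0 T2.l0) (xb T2.l0 T2.l0)))) (xa (xb (xb T2.l0 T2.l0) (xa (xb T2.l0 T2.l0) (xb T2.l0 T2.l0))) (xb (xb T2.l0 T2.l0) (xa (xb T2.l0 T2.l0) (xb T2.l0 T2.l0)))))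
  (TrL.c (I.pos (nat_lit 0) (nat_lit 0)) (xa (xk T0.l5 T0.l5) (xk (xb T0.l5 T0.l5) T0.l5))
  (TrL.c (I.pos (nat_lit 0) (nat_lit 134217730)) (xR T2.l4 (xR T2.l4 T2.l4))
  (TrL.c (I.pos (nat_lit 0) (nat_lit 110514882)) (xR T0.l3 (xR T0.l6 (xR T0.l6 T0.l6)))
  (TrL.c (I.pos (nat_lit 0) (nat_lit 0)) (xa (xk T0.l7 T0.l7) (xk (xb T0.l7 T0.l7) (xb T0.l7 T0.l7)))
  (TrL.c (I.pos (nat_lit 0) (nat_lit 0)) T2.l8
  (TrL.c (I.mix (nat_lit 8088324) (nat_lit 110514882)) (xR T0.l8 (xR T0.l8 (xR T0.l8 T0.l8)))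
  (TrL.c (I.mix (nat_lit 8088324) (nat_lit 89478486)) (xR T2.l2 (xR T2.l2 T2.l10))
  TrL.n)))))))) (by decide +kernel)
theorem bx2_1 : BoxOK sI cl13 cl13 cl9 t2 t0 b2_1 :=
  box_mk (TrL.c (I.pos (nat_lit 0) (nat_lit 0)) (xa (xb T2.l9 T2.l9) (xb T2.l0 T2.l0))
  (TrL.c (I.pos (nat_lit 0) (nat_lit 0)) (xa T0.l5 T0.l5)
  (TrL.c (I.pos (nat_lit 0) (nat_lit 134217730)) (xR T2.l4 T2.l4)
  (TrL.c (I.pos (nat_lit 0) (nat_lit 110514882)) (xR T0.l3 (xR T0.l6 T0.l6))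
  (TrL.c (I.pos (nat_lit 0) (nat_lit 0)) (xa T0.l9 (xk T0.l9 T0.l9))
  (TrL.c (I.pos (nat_lit 0) (nat_lit 0)) T2.l8
  (TrL.c (I.mix (nat_lit 8088324) (nat_lit 110514882)) (xR T0.l8 T0.l8)
  (TrL.c (I.mix (nat_lit 8088324) (nat_lit 89478486)) T2.l2
  TrL.n)))))))) (by decide +kernel)
theorem bx2_2 : BoxOK sI cl13 cl13 cl9 t2 t0 b2_2 :=
  box_mk (TrL.c (I.pos (nat_lit 0) (nat_lit 0)) (xa T2.l9 T2.l9)
  (TrL.c (I.pos (nat_lit 0) (nat_lit 0)) (xa T0.l5 T0.l5)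
  (TrL.c (I.pos (nat_lit 0) (nat_lit 134217730)) (xR T2.l4 (xR T2.l4 T2.l7))
  (TrL.c (I.pos (nat_lit 0) (nat_lit 110514882)) (xR T0.l3 (xR T0.l3 (xR T0.l6 T0.l6)))
  (TrL.c (I.pos (nat_lit 0) (nat_lit 0)) (xa T0.l9 T0.l9)
  (TrL.c (I.pos (nat_lit 0) (nat_lit 0)) T2.l8
  (TrL.c (I.mix (nat_lit 8088324) (nat_lit 110514882)) T0.l8
  (TrL.c (I.mix (nat_lit 8088324) (nat_lit 89478486)) T2.l4
  TrL.n)))))))) (by decide +kernel)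
theorem bx2_3 : BoxOK sI cl13 cl13 cl9 t2 t0 b2_3 :=
  box_mk (TrL.c (I.pos (nat_lit 0) (nat_lit 0)) (xb (xa (xb T2.l11 T2.l11) (xb (xa T2.l11 T2.l11) (xa T2.l11 T2.l11))) (xa (xb (xa T2.l11 T2.l11) (xa (xs T2.l11 T2.l11) (xs T2.l11 T2.l11))) (xb (xa T2.l11 (xs T2.l11 T2.l11)) (xa (xs T2.l11 T2.l11) (xs T2.l11 T2.l11)))))
  (TrL.c (I.pos (nat_lit 0) (nat_lit 0)) (xk (xb T0.l5 T0.l5) (xb T0.l5 T0.l5))
  (TrL.c (I.pos (nat_lit 0) (nat_lit 134217730)) (xR T2.l4 (xR T2.l4 (xR T2.l7 (xR T2.l7 T2.l4))))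
  (TrL.c (I.pos (nat_lit 0) (nat_lit 110514882)) (xR T0.l3 (xR T0.l6 (xR T0.l6 T0.l6)))
  (TrL.c (I.pos (nat_lit 0) (nat_lit 0)) (xb (xk T0.l10 T0.l10) (xk (xb T0.l10 (xa T0.l10 (xk T0.l10 T0.l10))) (xb T0.l10 (xa T0.l7 (xs T0.l10 (xb T0.l10 (xk T0.l10 T0.l10)))))))
  (TrL.c (I.pos (nat_lit 0) (nat_lit 0)) T2.l8
  (TrL.c (I.mix (nat_lit 8088324) (nat_lit 110514882)) (xR T0.l8 (xR T0.l8 (xR T0.l8 T0.l8)))
  (TrL.c (I.mix (nat_lit 8088324) (nat_lit 89478486)) (xR T2.l2 (xR T2.l2 T2.l10))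
  TrL.n)))))))) (by decide +kernel)
theorem bx2_4 : BoxOK sI cl13 cl13 cl9 t2 t0 b2_4 :=
  box_mk (TrL.c (I.pos (nat_lit 0) (nat_lit 0)) (xa (xa T2.l9 T2.l9) (xa T2.l9 (xa T2.l9 T2.l9)))
  (TrL.c (I.pos (nat_lit 0) (nat_lit 0)) (xa T0.l5 (xa T0.l5 T0.l5))
  (TrL.c (I.pos (nat_lit 0) (nat_lit 134217730)) (xR T2.l4 (xR T2.l4 T2.l7))
  (TrL.c (I.pos (nat_lit 0) (nat_lit 110514882)) (xR T0.l3 (xR T0.l3 (xR T0.l6 T0.l6)))
  (TrL.c (I.pos (nat_lit 0) (nat_lit 0)) (xa T0.l9 T0.l9)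
  (TrL.c (I.pos (nat_lit 0) (nat_lit 0)) T2.l8
  (TrL.c (I.mix (nat_lit 8088324) (nat_lit 110514882)) (xR T0.l8 T0.l8)
  (TrL.c (I.mix (nat_lit 8088324) (nat_lit 89478486)) T2.l4
  TrL.n)))))))) (by decide +kernel)
theorem bx2_5 : BoxOK sI cl13 cl13 cl9 t2 t0 b2_5 :=
  box_mk (TrL.c (I.pos (nat_lit 0) (nat_lit 0)) (xa (xb T2.l0 T2.l0) (xb T2.l0 T2.l0))
  (TrL.c (I.pos (nat_lit 0) (nat_lit 0)) (xk T0.l5 T0.l5)
  (TrL.c (I.pos (nat_lit 0) (nat_lit 134217730)) (xR T2.l4 T2.l4)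
  (TrL.c (I.pos (nat_lit 0) (nat_lit 110514882)) (xR T0.l3 (xR T0.l6 T0.l6))
  (TrL.c (I.pos (nat_lit 0) (nat_lit 0)) (xk (xa T0.l10 (xb T0.l10 T0.l10)) (xa T0.l10 (xb T0.l10 T0.l10)))
  (TrL.c (I.pos (nat_lit 0) (nat_lit 0)) T2.l8
  (TrL.c (I.mix (nat_lit 8088324) (nat_lit 110514882)) (xR T0.l8 (xR T0.l8 T0.l8))
  (TrL.c (I.mix (nat_lit 8088324) (nat_lit 89478486)) (xR T2.l2 T2.l2)
  TrL.n)))))))) (by decide +kernel)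
theorem bx2_6 : BoxOK sI cl13 cl13 cl9 t2 t0 b2_6 :=
  box_mk (TrL.c (I.pos (nat_lit 0) (nat_lit 0)) (xa (xb (xa T2.l11 T2.l11) (xa T2.l11 T2.l11)) (xb (xa T2.l11 T2.l11) (xa (xb T2.l11 T2.l11) (xb T2.l11 T2.l11))))
  (TrL.c (I.pos (nat_lit 0) (nat_lit 0)) (xk T0.l5 T0.l5)
  (TrL.c (I.pos (nat_lit 0) (nat_lit 134217730)) (xR T2.l4 (xR T2.l4 T2.l4))
  (TrL.c (I.pos (nat_lit 0) (nat_lit 110514882)) (xR T0.l3 (xR T0.l6 (xR T0.l6 T0.l6)))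
  (TrL.c (I.pos (nat_lit 0) (nat_lit 0)) (xk (xb T0.l10 T0.l10) (xb T0.l10 (xa T0.l10 T0.l10)))
  (TrL.c (I.pos (nat_lit 0) (nat_lit 0)) T2.l8
  (TrL.c (I.mix (nat_lit 8088324) (nat_lit 110514882)) (xR T0.l8 (xR T0.l8 (xR T0.l8 T0.l8)))
  (TrL.c (I.mix (nat_lit 8088324) (nat_lit 89478486)) (xR T2.l2 (xR T2.l2 (xR T2.l10 T2.l10)))
  TrL.n)))))))) (by decide +kernel)
theorem bx2_7 : BoxOK sI cl13 cl13 cl9 t2 t0 b2_7 :=
  box_mk (TrL.c (I.pos (nat_lit 0) (nat_lit 0)) (xa T2.l9 T2.l9)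
  (TrL.c (I.pos (nat_lit 0) (nat_lit 0)) T0.l5
  (TrL.c (I.pos (nat_lit 0) (nat_lit 134217730)) (xR T2.l4 (xR T2.l4 T2.l7))
  (TrL.c (I.pos (nat_lit 0) (nat_lit 110514882)) (xR T0.l3 T0.l6)
  (TrL.c (I.pos (nat_lit 0) (nat_lit 0)) T0.l9
  (TrL.c (I.pos (nat_lit 0) (nat_lit 0)) T2.l8
  (TrL.c (I.mix (nat_lit 8088324) (nat_lit 110514882)) T0.l8
  (TrL.c (I.mix (nat_lit 8088324) (nat_lit 89478486)) T2.l2
  TrL.n)))))))) (by decide +kernel)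
theorem bx2_8 : BoxOK sI cl13 cl13 cl9 t2 t0 b2_8 :=
  box_mk (TrL.c (I.pos (nat_lit 0) (nat_lit 0)) (xb (xa T2.l9 T2.l9) (xa T2.l9 T2.l9))
  (TrL.c (I.pos (nat_lit 0) (nat_lit 0)) T0.l5
  (TrL.c (I.pos (nat_lit 0) (nat_lit 134217730)) (xR T2.l4 T2.l4)
  (TrL.c (I.pos (nat_lit 0) (nat_lit 110514882)) (xR T0.l3 (xR T0.l6 T0.l6))
  (TrL.c (I.pos (nat_lit 0) (nat_lit 0)) (xk T0.l9 T0.l9)
  (TrL.c (I.pos (nat_lit 0) (nat_lit 0)) T2.l8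
  (TrL.c (I.mix (nat_lit 8088324) (nat_lit 110514882)) T0.l8
  (TrL.c (I.mix (nat_lit 8088324) (nat_lit 89478486)) T2.l2
  TrL.n)))))))) (by decide +kernel)
theorem bx2_9 : BoxOK sI cl13 cl13 cl9 t2 t0 b2_9 :=
  box_mk (TrL.c (I.pos (nat_lit 0) (nat_lit 0)) (xa (xb (xa T2.l0 T2.l0) (xa (xb T2.l0 T2.l0) (xb T2.l0 (xa T2.l0 T2.l0)))) (xb (xa T2.l0 T2.l0) (xa (xa T2.l0 T2.l0) (xa T2.l0 T2.l0))))
  (TrL.c (I.pos (nat_lit 0) (nat_lit 0)) (xa (xk T0.l5 T0.l5) (xk (xb T0.l2 (xa T0.l5 T0.l2)) (xb T0.l5 T0.l5)))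
  (TrL.c (I.pos (nat_lit 0) (nat_lit 134217730)) (xR T2.l4 T2.l4)
  (TrL.c (I.pos (nat_lit 0) (nat_lit 110514882)) (xR T0.l3 (xR T0.l3 (xR T0.l6 (xk T0.l6 T0.l6))))
  (TrL.c (I.pos (nat_lit 0) (nat_lit 0)) (xa (xk (xb (xa T0.l7 T0.l7) T0.l7) (xb (xa T0.l7 T0.l7) T0.l7)) (xk (xb (xa T0.l7 (xk T0.l7 T0.l7)) (xa T0.l7 (xk T0.l7 T0.l7))) (xb (xa T0.l7 (xk T0.l7 T0.l7)) (xa T0.l7 (xk T0.l7 T0.l7)))))
  (TrL.c (I.pos (nat_lit 0) (nat_lit 0)) (xk (xa T2.l8 T2.l8) (xa T2.l8 T2.l8))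
  (TrL.c (I.mix (nat_lit 8088324) (nat_lit 110514882)) (xR T0.l8 (xR T0.l8 (xR T0.l8 (xk (xR T0.l8 T0.l8) T0.l8))))
  (TrL.c (I.mix (nat_lit 8088324) (nat_lit 89478486)) (xR T2.l2 (xR T2.l2 (xR T2.l10 T2.l10)))
  TrL.n)))))))) (by decide +kernel)
theorem bx2_10 : BoxOK sI cl13 cl13 cl9 t2 t0 b2_10 :=
  box_mk (TrL.c (I.pos (nat_lit 0) (nat_lit 0)) T2.l9
  (TrL.c (I.pos (nat_lit 0) (nat_lit 0)) T0.l5
  (TrL.c (I.pos (nat_lit 0) (nat_lit 134217730)) (xR T2.l4 (xR T2.l4 T2.l7))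
  (TrL.c (I.pos (nat_lit 0) (nat_lit 110514882)) (xR T0.l1 T0.l6)
  (TrL.c (I.pos (nat_lit 0) (nat_lit 0)) T0.l9
  (TrL.c (I.pos (nat_lit 0) (nat_lit 0)) T2.l8
  (TrL.c (I.mix (nat_lit 8088324) (nat_lit 110514882)) T0.l8
  (TrL.c (I.mix (nat_lit 8088324) (nat_lit 89478486)) T2.l2
  TrL.n)))))))) (by decide +kernel)
theorem bx2_11 : BoxOK sI cl13 cl13 cl9 t2 t0 b2_11 :=
  box_mk (TrL.c (I.pos (nat_lit 0) (nat_lit 0)) (xa (xb (xa T2.l11 T2.l11) (xa (xs T2.l0 T2.l11) (xs T2.l0 T2.l11))) (xb (xa T2.l0 T2.l0) (xa (xs T2.l0 (xb T2.l0 T2.l0)) (xs T2.l0 (xk T2.l0 T2.l0)))))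
  (TrL.c (I.pos (nat_lit 0) (nat_lit 0)) (xk (xa T0.l5 T0.l5) T0.l5)
  (TrL.c (I.pos (nat_lit 0) (nat_lit 134217730)) (xR T2.l4 (xR T2.l4 T2.l4))
  (TrL.c (I.pos (nat_lit 0) (nat_lit 110514882)) (xR T0.l3 (xR T0.l6 (xR T0.l6 T0.l6)))
  (TrL.c (I.pos (nat_lit 0) (nat_lit 0)) (xk (xa T0.l7 (xb T0.l7 (xb T0.l7 (xk T0.l10 T0.l10)))) (xb T0.l7 (xa T0.l10 (xb T0.l7 (xs T0.l7 (xk T0.l10 T0.l10))))))
  (TrL.c (I.pos (nat_lit 0) (nat_lit 0)) T2.l8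
  (TrL.c (I.mix (nat_lit 8088324) (nat_lit 110514882)) (xR T0.l8 (xR T0.l8 T0.l8))
  (TrL.c (I.mix (nat_lit 8088324) (nat_lit 89478486)) (xR T2.l2 T2.l2)
  TrL.n)))))))) (by decide +kernel)
theorem sv2 : StarV sI cl13 cl13 cl9 t2 t0 t2 :=
  (bt_n (bt_n (bt_n (bt_b bx2_0) (bt_n (bt_b bx2_1) (bt_b bx2_2))) (bt_n (bt_b bx2_3) (bt_n (bt_b bx2_4) (bt_b bx2_5)))) (bt_n (bt_n (bt_b bx2_6) (bt_n (bt_b bx2_7) (bt_b bx2_8))) (bt_n (bt_b bx2_9) (bt_n (bt_b bx2_10) (bt_b bx2_11)))))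
def S2 : StarD := StarD.mk cl13 cl13 cl9 2 0 t2
def G : List StarD := [S0, S1, S2]
theorem so0 : StarOK sI G S0 :=
  star_mk (by decide) (by decide) rfl rfl rfl rfl rfl rfl (rfl : _ = t1) (rfl : _ = t1)
  (st_mk (Pth.l (Pth.l (Pth.l Pth.z))) (nat_lit 96101056) (nat_lit 114613057) (by decide +kernel))
  (st_mk (Pth.l (Pth.l (Pth.l Pth.z))) (nat_lit 131228543) (nat_lit 150049899) (by decide +kernel))
  (st_mk (Pth.l (Pth.l (Pth.l Pth.z))) (nat_lit 171849178) (nat_lit 191123507) (by decide +kernel)) sv0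
theorem so1 : StarOK sI G S1 :=
  star_mk (by decide) (by decide) rfl rfl rfl rfl rfl rfl (rfl : _ = t0) (rfl : _ = t2)
  (st_mk (Pth.l (Pth.l (Pth.l Pth.z))) (nat_lit 115089857) (nat_lit 133501297) (by decide +kernel))
  (st_mk (Pth.l (Pth.l (Pth.l Pth.z))) (nat_lit 149986467) (nat_lit 168680650) (by decide +kernel))
  (st_mk (Pth.l (Pth.l (Pth.l Pth.z))) (nat_lit 190251785) (nat_lit 209355382) (by decide +kernel)) sv1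
theorem so2 : StarOK sI G S2 :=
  star_mk (by decide) (by decide) rfl rfl rfl rfl rfl rfl (rfl : _ = t2) (rfl : _ = t0)
  (st_mk (Pth.l (Pth.l (Pth.l Pth.z))) (nat_lit 95831458) (nat_lit 114229939) (by decide +kernel))
  (st_mk (Pth.l (Pth.l (Pth.l Pth.z))) (nat_lit 130728068) (nat_lit 149389710) (by decide +kernel))
  (st_mk (Pth.l (Pth.l (Pth.l Pth.z))) (nat_lit 170993386) (nat_lit 190047400) (by decide +kernel)) sv2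
theorem ok : GroupOK (nat_lit 209321984) (nat_lit 268435456) G := grp_mk (allS_c so0 (allS_c so1 (allS_c so2 allS_n)))
theorem cov : GCov G cl9 cl13 cl13 := cov_mk
  ⟨0, by decide, rfl, rfl, rfl⟩ ⟨0, by decide, rfl, rfl, rfl⟩ ⟨1, by decide, rfl, rfl, rfl⟩ ⟨2, by decide, rfl, rfl, rfl⟩ ⟨1, by decide, rfl, rfl, rfl⟩ ⟨2, by decide, rfl, rfl, rfl⟩
end Q566_3

namespace Q666_0
def sI : I := I.pos (nat_lit 0) (nat_lit 91291648)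
def b0_0 : Bx := Bx.mk (St.mk (I.pos (nat_lit 149192704) (nat_lit 285655040)) (I.mix (nat_lit 17924096) (nat_lit 48693248)) (I.mix (nat_lit 42303488) (nat_lit 94765056)) (I.pos (nat_lit 75825152) (nat_lit 316227584)) (I.mix (nat_lit 73940992) (nat_lit 51871744)) (I.mix (nat_lit 81412096) (nat_lit 50495488)) (I.mix (nat_lit 126074880) (nat_lit 68468736)))
  false (nat_lit 31038416)
def b0_1 : Bx := Bx.mk (St.mk (I.pos (nat_lit 122961920) (nat_lit 187727872)) (I.mix (nat_lit 58654720) (nat_lit 1392640)) (I.mix (nat_lit 59129856) (nat_lit 3129344)) (I.pos (nat_lit 69697536) (nat_lit 146702336)) (I.mix (nat_lit 65978368) (nat_lit 30228480)) (I.mix (nat_lit 31375360) (nat_lit 54476800)) (I.mix (nat_lit 27295744) (nat_lit 56901632)))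
  false (nat_lit 0)
def b0_2 : Bx := Bx.mk (St.mk (I.mix (nat_lit 25198592) (nat_lit 150945792)) (I.mix (nat_lit 6176768) (nat_lit 26820608)) (I.mix (nat_lit 8552448) (nat_lit 26853376)) (I.mix (nat_lit 9125888) (nat_lit 94224384)) (I.mix (nat_lit 22904832) (nat_lit 17825792)) (I.mix (nat_lit 24821760) (nat_lit 13402112)) (I.mix (nat_lit 21544960) (nat_lit 9682944)))
  false (nat_lit 0)
def b0_3 : Bx := Bx.mk (St.mk (I.mix (nat_lit 23429120) (nat_lit 124469248)) (I.mix (nat_lit 28082176) (nat_lit 7241728)) (I.mix (nat_lit 21626880) (nat_lit 5439488)) (I.mix (nat_lit 6914048) (nat_lit 69959680)) (I.mix (nat_lit 25247744) (nat_lit 18792448)) (I.mix (nat_lit 16728064) (nat_lit 25690112)) (I.mix (nat_lit 11108352) (nat_lit 18399232)))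
  false (nat_lit 0)
def b0_4 : Bx := Bx.mk (St.mk (I.pos (nat_lit 162398208) (nat_lit 226246656)) (I.mix (nat_lit 42696704) (nat_lit 57491456)) (I.mix (nat_lit 42598400) (nat_lit 98402304)) (I.pos (nat_lit 99565568) (nat_lit 202768384)) (I.mix (nat_lit 107118592) (nat_lit 53116928)) (I.mix (nat_lit 125042688) (nat_lit 67977216)) (I.mix (nat_lit 159121408) (nat_lit 74153984)))
  false (nat_lit 0)
def b0_5 : Bx := Bx.mk (St.mk (I.pos (nat_lit 117620736) (nat_lit 165707776)) (I.mix (nat_lit 52723712) (nat_lit 8929280)) (I.mix (nat_lit 55345152) (nat_lit 10665984)) (I.pos (nat_lit 51085312) (nat_lit 118292480)) (I.mix (nat_lit 70189056) (nat_lit 24657920)) (I.mix (nat_lit 33095680) (nat_lit 73039872)) (I.mix (nat_lit 29261824) (nat_lit 66600960)))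
  false (nat_lit 0)
def b0_6 : Bx := Bx.mk (St.mk (I.mix (nat_lit 23183360) (nat_lit 146636800)) (I.mix (nat_lit 15007744) (nat_lit 35602432)) (I.mix (nat_lit 11616256) (nat_lit 31424512)) (I.mix (nat_lit 8568832) (nat_lit 88162304)) (I.mix (nat_lit 43368448) (nat_lit 23511040)) (I.mix (nat_lit 42909696) (nat_lit 25804800)) (I.mix (nat_lit 31997952) (nat_lit 17711104)))
  false (nat_lit 0)
def b0_7 : Bx := Bx.mk (St.mk (I.mix (nat_lit 19906560) (nat_lit 115752960)) (I.mix (nat_lit 23920640) (nat_lit 2736128)) (I.mix (nat_lit 17891328) (nat_lit 2949120)) (I.mix (nat_lit 6242304) (nat_lit 62636032)) (I.mix (nat_lit 22069248) (nat_lit 9355264)) (I.mix (nat_lit 9093120) (nat_lit 18137088)) (I.mix (nat_lit 5537792) (nat_lit 11288576)))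
  false (nat_lit 0)
def t0 : BTr := (BTr.n (BTr.n (BTr.n (BTr.b b0_0) (BTr.b b0_1)) (BTr.n (BTr.b b0_2) (BTr.b b0_3))) (BTr.n (BTr.n (BTr.b b0_4) (BTr.b b0_5)) (BTr.n (BTr.b b0_6) (BTr.b b0_7))))
namespace T0
def l0 : Tr := Tr.L (Pth.l (Pth.l (Pth.l Pth.z)))
def l1 : Tr := Tr.L (Pth.l (Pth.l (Pth.r Pth.z)))
def l2 : Tr := Tr.L (Pth.l (Pth.r (Pth.l Pth.z)))
def l3 : Tr := Tr.L (Pth.l (Pth.r (Pth.r Pth.z)))
def l4 : Tr := Tr.L (Pth.r (Pth.l (Pth.l Pth.z)))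
def l5 : Tr := Tr.L (Pth.r (Pth.l (Pth.r Pth.z)))
def l6 : Tr := Tr.L (Pth.r (Pth.r (Pth.l Pth.z)))
def l7 : Tr := Tr.L (Pth.r (Pth.r (Pth.r Pth.z)))
end T0
theorem bx0_0 : BoxOK sI cl13 cl13 cl13 t0 t0 b0_0 :=
  box_mk (TrL.c (I.pos (nat_lit 0) (nat_lit 0)) (xa (xa T0.l0 T0.l0) (xa T0.l0 T0.l0))
  (TrL.c (I.pos (nat_lit 0) (nat_lit 0)) T0.l1
  (TrL.c (I.pos (nat_lit 0) (nat_lit 134217730)) (xR T0.l2 T0.l6)
  (TrL.c (I.pos (nat_lit 0) (nat_lit 110514882)) T0.l3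
  (TrL.c (I.pos (nat_lit 0) (nat_lit 0)) (xa T0.l4 (xa T0.l4 (xk (xb (xa T0.l4 T0.l4) (xk T0.l4 T0.l4)) (xb (xa T0.l4 T0.l4) (xk T0.l4 T0.l4)))))
  (TrL.c (I.pos (nat_lit 0) (nat_lit 0)) T0.l5
  (TrL.c (I.mix (nat_lit 8088324) (nat_lit 110514882)) T0.l6
  (TrL.c (I.mix (nat_lit 8088324) (nat_lit 89478486)) T0.l3
  TrL.n)))))))) (by decide +kernel)
theorem bx0_1 : BoxOK sI cl13 cl13 cl13 t0 t0 b0_1 :=
  box_mk (TrL.c (I.pos (nat_lit 0) (nat_lit 0)) T0.l0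
  (TrL.c (I.pos (nat_lit 0) (nat_lit 0)) T0.l1
  (TrL.c (I.pos (nat_lit 0) (nat_lit 134217730)) T0.l2
  (TrL.c (I.pos (nat_lit 0) (nat_lit 110514882)) T0.l3
  (TrL.c (I.pos (nat_lit 0) (nat_lit 0)) T0.l4
  (TrL.c (I.pos (nat_lit 0) (nat_lit 0)) T0.l5
  (TrL.c (I.mix (nat_lit 8088324) (nat_lit 110514882)) T0.l6
  (TrL.c (I.mix (nat_lit 8088324) (nat_lit 89478486)) T0.l7
  TrL.n)))))))) (by decide +kernel)
theorem bx0_2 : BoxOK sI cl13 cl13 cl13 t0 t0 b0_2 :=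
  box_mk (TrL.c (I.pos (nat_lit 0) (nat_lit 0)) (xa T0.l0 T0.l0)
  (TrL.c (I.pos (nat_lit 0) (nat_lit 0)) T0.l1
  (TrL.c (I.pos (nat_lit 0) (nat_lit 134217730)) T0.l2
  (TrL.c (I.pos (nat_lit 0) (nat_lit 110514882)) T0.l3
  (TrL.c (I.pos (nat_lit 0) (nat_lit 0)) (xa T0.l4 T0.l4)
  (TrL.c (I.pos (nat_lit 0) (nat_lit 0)) T0.l5
  (TrL.c (I.mix (nat_lit 8088324) (nat_lit 110514882)) T0.l6
  (TrL.c (I.mix (nat_lit 8088324) (nat_lit 89478486)) T0.l7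
  TrL.n)))))))) (by decide +kernel)
theorem bx0_3 : BoxOK sI cl13 cl13 cl13 t0 t0 b0_3 :=
  box_mk (TrL.c (I.pos (nat_lit 0) (nat_lit 0)) (xa (xa T0.l0 T0.l0) T0.l0)
  (TrL.c (I.pos (nat_lit 0) (nat_lit 0)) T0.l1
  (TrL.c (I.pos (nat_lit 0) (nat_lit 134217730)) T0.l2
  (TrL.c (I.pos (nat_lit 0) (nat_lit 110514882)) T0.l3
  (TrL.c (I.pos (nat_lit 0) (nat_lit 0)) T0.l4
  (TrL.c (I.pos (nat_lit 0) (nat_lit 0)) T0.l5
  (TrL.c (I.mix (nat_lit 8088324) (nat_lit 110514882)) T0.l6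
  (TrL.c (I.mix (nat_lit 8088324) (nat_lit 89478486)) T0.l3
  TrL.n)))))))) (by decide +kernel)
theorem bx0_4 : BoxOK sI cl13 cl13 cl13 t0 t0 b0_4 :=
  box_mk (TrL.c (I.pos (nat_lit 0) (nat_lit 0)) (xb T0.l0 (xa T0.l0 T0.l0))
  (TrL.c (I.pos (nat_lit 0) (nat_lit 0)) T0.l1
  (TrL.c (I.pos (nat_lit 0) (nat_lit 134217730)) (xR T0.l2 T0.l6)
  (TrL.c (I.pos (nat_lit 0) (nat_lit 110514882)) T0.l3
  (TrL.c (I.pos (nat_lit 0) (nat_lit 0)) (xb (xa T0.l4 T0.l4) (xa T0.l4 (xk T0.l4 (xs T0.l4 (xb T0.l4 T0.l4)))))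
  (TrL.c (I.pos (nat_lit 0) (nat_lit 0)) T0.l5
  (TrL.c (I.mix (nat_lit 8088324) (nat_lit 110514882)) T0.l6
  (TrL.c (I.mix (nat_lit 8088324) (nat_lit 89478486)) T0.l3
  TrL.n)))))))) (by decide +kernel)
theorem bx0_5 : BoxOK sI cl13 cl13 cl13 t0 t0 b0_5 :=
  box_mk (TrL.c (I.pos (nat_lit 0) (nat_lit 0)) T0.l0
  (TrL.c (I.pos (nat_lit 0) (nat_lit 0)) T0.l1
  (TrL.c (I.pos (nat_lit 0) (nat_lit 134217730)) T0.l6
  (TrL.c (I.pos (nat_lit 0) (nat_lit 110514882)) T0.l3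
  (TrL.c (I.pos (nat_lit 0) (nat_lit 0)) T0.l4
  (TrL.c (I.pos (nat_lit 0) (nat_lit 0)) T0.l5
  (TrL.c (I.mix (nat_lit 8088324) (nat_lit 110514882)) T0.l6
  (TrL.c (I.mix (nat_lit 8088324) (nat_lit 89478486)) T0.l7
  TrL.n)))))))) (by decide +kernel)
theorem bx0_6 : BoxOK sI cl13 cl13 cl13 t0 t0 b0_6 :=
  box_mk (TrL.c (I.pos (nat_lit 0) (nat_lit 0)) (xa T0.l0 T0.l0)
  (TrL.c (I.pos (nat_lit 0) (nat_lit 0)) T0.l1
  (TrL.c (I.pos (nat_lit 0) (nat_lit 134217730)) T0.l2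
  (TrL.c (I.pos (nat_lit 0) (nat_lit 110514882)) T0.l3
  (TrL.c (I.pos (nat_lit 0) (nat_lit 0)) (xa T0.l4 T0.l4)
  (TrL.c (I.pos (nat_lit 0) (nat_lit 0)) T0.l5
  (TrL.c (I.mix (nat_lit 8088324) (nat_lit 110514882)) T0.l6
  (TrL.c (I.mix (nat_lit 8088324) (nat_lit 89478486)) T0.l7
  TrL.n)))))))) (by decide +kernel)
theorem bx0_7 : BoxOK sI cl13 cl13 cl13 t0 t0 b0_7 :=
  box_mk (TrL.c (I.pos (nat_lit 0) (nat_lit 0)) T0.l0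
  (TrL.c (I.pos (nat_lit 0) (nat_lit 0)) T0.l1
  (TrL.c (I.pos (nat_lit 0) (nat_lit 134217730)) T0.l2
  (TrL.c (I.pos (nat_lit 0) (nat_lit 110514882)) T0.l3
  (TrL.c (I.pos (nat_lit 0) (nat_lit 0)) T0.l4
  (TrL.c (I.pos (nat_lit 0) (nat_lit 0)) T0.l5
  (TrL.c (I.mix (nat_lit 8088324) (nat_lit 110514882)) T0.l6
  (TrL.c (I.mix (nat_lit 8088324) (nat_lit 89478486)) T0.l7
  TrL.n)))))))) (by decide +kernel)
theorem sv0 : StarV sI cl13 cl13 cl13 t0 t0 t0 :=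
  (bt_n (bt_n (bt_n (bt_b bx0_0) (bt_b bx0_1)) (bt_n (bt_b bx0_2) (bt_b bx0_3))) (bt_n (bt_n (bt_b bx0_4) (bt_b bx0_5)) (bt_n (bt_b bx0_6) (bt_b bx0_7))))
def S0 : StarD := StarD.mk cl13 cl13 cl13 0 0 t0
def G : List StarD := [S0]
theorem so0 : StarOK sI G S0 :=
  star_mk (by decide) (by decide) rfl rfl rfl rfl rfl rfl (rfl : _ = t0) (rfl : _ = t0)
  (st_mk (Pth.l (Pth.l (Pth.l Pth.z))) (nat_lit 96368329) (nat_lit 113563318) (by decide +kernel))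
  (st_mk (Pth.l (Pth.l (Pth.l Pth.z))) (nat_lit 130728068) (nat_lit 149166761) (by decide +kernel))
  (st_mk (Pth.l (Pth.l (Pth.l Pth.z))) (nat_lit 170993386) (nat_lit 189685196) (by decide +kernel)) sv0
theorem ok : GroupOK (nat_lit 0) (nat_lit 91291648) G := grp_mk (allS_c so0 allS_n)
theorem cov : GCov G cl13 cl13 cl13 := cov_mk
  ⟨0, by decide, rfl, rfl, rfl⟩ ⟨0, by decide, rfl, rfl, rfl⟩ ⟨0, by decide, rfl, rfl, rfl⟩ ⟨0, by decide, rfl, rfl, rfl⟩ ⟨0, by decide, rfl, rfl, rfl⟩ ⟨0, by decide, rfl, rfl, rfl⟩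
end Q666_0

namespace Q666_1
def sI : I := I.pos (nat_lit 91226112) (nat_lit 150339584)
def b0_0 : Bx := Bx.mk (St.mk (I.pos (nat_lit 153370624) (nat_lit 287408128)) (I.mix (nat_lit 13762560) (nat_lit 48005120)) (I.mix (nat_lit 33521664) (nat_lit 90210304)) (I.pos (nat_lit 82968576) (nat_lit 323256320)) (I.mix (nat_lit 82608128) (nat_lit 62390272)) (I.mix (nat_lit 78790656) (nat_lit 54231040)) (I.mix (nat_lit 122961920) (nat_lit 70762496)))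
  false (nat_lit 46871616)
def b0_1 : Bx := Bx.mk (St.mk (I.pos (nat_lit 112623616) (nat_lit 186007552)) (I.mix (nat_lit 60735488) (nat_lit 4833280)) (I.neg (nat_lit 1130496) (nat_lit 61652992)) (I.pos (nat_lit 69550080) (nat_lit 145342464)) (I.mix (nat_lit 81444864) (nat_lit 38486016)) (I.mix (nat_lit 37912576) (nat_lit 64389120)) (I.mix (nat_lit 30441472) (nat_lit 62865408)))
  false (nat_lit 0)
def b0_2 : Bx := Bx.mk (St.mk (I.mix (nat_lit 13647872) (nat_lit 145457152)) (I.mix (nat_lit 4833280) (nat_lit 25788416)) (I.mix (nat_lit 7143424) (nat_lit 25624576)) (I.mix (nat_lit 5799936) (nat_lit 92651520)) (I.mix (nat_lit 27557888) (nat_lit 22953984)) (I.mix (nat_lit 28590080) (nat_lit 17039360)) (I.mix (nat_lit 24543232) (nat_lit 12615680)))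
  false (nat_lit 0)
def b0_3 : Bx := Bx.mk (St.mk (I.mix (nat_lit 11976704) (nat_lit 120815616)) (I.mix (nat_lit 26902528) (nat_lit 5472256)) (I.mix (nat_lit 19677184) (nat_lit 3588096)) (I.mix (nat_lit 4390912) (nat_lit 67747840)) (I.mix (nat_lit 27901952) (nat_lit 19611648)) (I.mix (nat_lit 14745600) (nat_lit 24035328)) (I.mix (nat_lit 9043968) (nat_lit 17104896)))
  false (nat_lit 0)
def b0_4 : Bx := Bx.mk (St.mk (I.pos (nat_lit 159760384) (nat_lit 220037120)) (I.mix (nat_lit 35471360) (nat_lit 52494336)) (I.mix (nat_lit 34947072) (nat_lit 91930624)) (I.pos (nat_lit 95862784) (nat_lit 194052096)) (I.mix (nat_lit 116539392) (nat_lit 60719104)) (I.mix (nat_lit 122699776) (nat_lit 62914560)) (I.mix (nat_lit 150765568) (nat_lit 67108864)))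
  false (nat_lit 0)
def b0_5 : Bx := Bx.mk (St.mk (I.pos (nat_lit 116801536) (nat_lit 166232064)) (I.mix (nat_lit 54231040) (nat_lit 6537216)) (I.mix (nat_lit 57147392) (nat_lit 8060928)) (I.pos (nat_lit 51478528) (nat_lit 116752384)) (I.mix (nat_lit 85852160) (nat_lit 31686656)) (I.mix (nat_lit 37502976) (nat_lit 82362368)) (I.mix (nat_lit 31260672) (nat_lit 73809920)))
  false (nat_lit 0)
def b0_6 : Bx := Bx.mk (St.mk (I.mix (nat_lit 17612800) (nat_lit 143048704)) (I.mix (nat_lit 13221888) (nat_lit 34078720)) (I.mix (nat_lit 10207232) (nat_lit 30441472)) (I.mix (nat_lit 5488640) (nat_lit 87048192)) (I.mix (nat_lit 50151424) (nat_lit 26361856)) (I.mix (nat_lit 45580288) (nat_lit 26279936)) (I.mix (nat_lit 33128448) (nat_lit 17448960)))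
  false (nat_lit 0)
def b0_7 : Bx := Bx.mk (St.mk (I.pos (nat_lit 36896768) (nat_lit 110854144)) (I.mix (nat_lit 25116672) (nat_lit 1392640)) (I.mix (nat_lit 18612224) (nat_lit 1523712)) (I.pos (nat_lit 2703360) (nat_lit 61194240)) (I.mix (nat_lit 29163520) (nat_lit 14598144)) (I.mix (nat_lit 13844480) (nat_lit 25214976)) (I.mix (nat_lit 8323072) (nat_lit 15745024)))
  false (nat_lit 0)
def t0 : BTr := (BTr.n (BTr.n (BTr.n (BTr.b b0_0) (BTr.b b0_1)) (BTr.n (BTr.b b0_2) (BTr.b b0_3))) (BTr.n (BTr.n (BTr.b b0_4) (BTr.b b0_5)) (BTr.n (BTr.b b0_6) (BTr.b b0_7))))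
namespace T0
def l0 : Tr := Tr.L (Pth.l (Pth.l (Pth.l Pth.z)))
def l1 : Tr := Tr.L (Pth.l (Pth.l (Pth.r Pth.z)))
def l2 : Tr := Tr.L (Pth.l (Pth.r (Pth.l Pth.z)))
def l3 : Tr := Tr.L (Pth.l (Pth.r (Pth.r Pth.z)))
def l4 : Tr := Tr.L (Pth.r (Pth.l (Pth.l Pth.z)))
def l5 : Tr := Tr.L (Pth.r (Pth.l (Pth.r Pth.z)))
def l6 : Tr := Tr.L (Pth.r (Pth.r (Pth.l Pth.z)))
def l7 : Tr := Tr.L (Pth.r (Pth.r (Pth.r Pth.z)))
end T0
theorem bx0_0 : BoxOK sI cl13 cl13 cl13 t0 t0 b0_0 :=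
  box_mk (TrL.c (I.pos (nat_lit 0) (nat_lit 0)) (xa (xa (xb T0.l0 T0.l0) (xb T0.l0 T0.l0)) (xa (xb T0.l0 T0.l0) (xb T0.l0 T0.l0)))
  (TrL.c (I.pos (nat_lit 0) (nat_lit 0)) T0.l1
  (TrL.c (I.pos (nat_lit 0) (nat_lit 134217730)) (xR T0.l2 T0.l6)
  (TrL.c (I.pos (nat_lit 0) (nat_lit 110514882)) (xR T0.l3 T0.l3)
  (TrL.c (I.pos (nat_lit 0) (nat_lit 0)) (xa (xa T0.l4 (xk T0.l4 T0.l4)) (xa (xk (xb T0.l4 T0.l4) (xb T0.l4 T0.l4)) (xk (xb (xa T0.l4 (xk T0.l4 T0.l4)) (xa T0.l4 (xk T0.l4 (xb T0.l4 T0.l4)))) (xb (xa T0.l4 (xk T0.l4 T0.l4)) (xa T0.l4 (xk (xb T0.l4 (xs T0.l4 T0.l4)) (xb T0.l4 (xs T0.l4 (xd (xb T0.l4 T0.l4) T0.l4)))))))))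
  (TrL.c (I.pos (nat_lit 0) (nat_lit 0)) T0.l5
  (TrL.c (I.mix (nat_lit 8088324) (nat_lit 110514882)) (xR T0.l6 T0.l6)
  (TrL.c (I.mix (nat_lit 8088324) (nat_lit 89478486)) (xR T0.l3 T0.l7)
  TrL.n)))))))) (by decide +kernel)
theorem bx0_1 : BoxOK sI cl13 cl13 cl13 t0 t0 b0_1 :=
  box_mk (TrL.c (I.pos (nat_lit 0) (nat_lit 0)) T0.l0
  (TrL.c (I.pos (nat_lit 0) (nat_lit 0)) T0.l1
  (TrL.c (I.pos (nat_lit 0) (nat_lit 134217730)) (xR T0.l2 T0.l2)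
  (TrL.c (I.pos (nat_lit 0) (nat_lit 110514882)) (xR T0.l3 T0.l3)
  (TrL.c (I.pos (nat_lit 0) (nat_lit 0)) (xa T0.l4 T0.l4)
  (TrL.c (I.pos (nat_lit 0) (nat_lit 0)) T0.l5
  (TrL.c (I.mix (nat_lit 8088324) (nat_lit 110514882)) T0.l6
  (TrL.c (I.mix (nat_lit 8088324) (nat_lit 89478486)) T0.l3
  TrL.n)))))))) (by decide +kernel)
theorem bx0_2 : BoxOK sI cl13 cl13 cl13 t0 t0 b0_2 :=
  box_mk (TrL.c (I.pos (nat_lit 0) (nat_lit 0)) (xa T0.l0 T0.l0)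
  (TrL.c (I.pos (nat_lit 0) (nat_lit 0)) T0.l1
  (TrL.c (I.pos (nat_lit 0) (nat_lit 134217730)) T0.l6
  (TrL.c (I.pos (nat_lit 0) (nat_lit 110514882)) (xR T0.l3 T0.l3)
  (TrL.c (I.pos (nat_lit 0) (nat_lit 0)) (xa T0.l4 T0.l4)
  (TrL.c (I.pos (nat_lit 0) (nat_lit 0)) T0.l5
  (TrL.c (I.mix (nat_lit 8088324) (nat_lit 110514882)) T0.l6
  (TrL.c (I.mix (nat_lit 8088324) (nat_lit 89478486)) T0.l3
  TrL.n)))))))) (by decide +kernel)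
theorem bx0_3 : BoxOK sI cl13 cl13 cl13 t0 t0 b0_3 :=
  box_mk (TrL.c (I.pos (nat_lit 0) (nat_lit 0)) (xa (xa T0.l0 T0.l0) T0.l0)
  (TrL.c (I.pos (nat_lit 0) (nat_lit 0)) T0.l1
  (TrL.c (I.pos (nat_lit 0) (nat_lit 134217730)) T0.l2
  (TrL.c (I.pos (nat_lit 0) (nat_lit 110514882)) (xR T0.l3 T0.l3)
  (TrL.c (I.pos (nat_lit 0) (nat_lit 0)) (xa T0.l4 T0.l4)
  (TrL.c (I.pos (nat_lit 0) (nat_lit 0)) T0.l5
  (TrL.c (I.mix (nat_lit 8088324) (nat_lit 110514882)) T0.l6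
  (TrL.c (I.mix (nat_lit 8088324) (nat_lit 89478486)) T0.l3
  TrL.n)))))))) (by decide +kernel)
theorem bx0_4 : BoxOK sI cl13 cl13 cl13 t0 t0 b0_4 :=
  box_mk (TrL.c (I.pos (nat_lit 0) (nat_lit 0)) (xb (xa (xb (xa T0.l0 (xb T0.l0 T0.l0)) T0.l0) (xb (xa T0.l0 (xs T0.l0 T0.l0)) (xb T0.l0 T0.l0))) (xa (xb T0.l0 T0.l0) (xb T0.l0 T0.l0)))
  (TrL.c (I.pos (nat_lit 0) (nat_lit 0)) T0.l1
  (TrL.c (I.pos (nat_lit 0) (nat_lit 134217730)) (xR T0.l2 T0.l6)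
  (TrL.c (I.pos (nat_lit 0) (nat_lit 110514882)) (xR T0.l3 T0.l3)
  (TrL.c (I.pos (nat_lit 0) (nat_lit 0)) (xb (xk (xa T0.l4 T0.l4) (xa T0.l4 T0.l4)) (xa (xb T0.l4 T0.l4) (xk (xb T0.l4 (xs T0.l4 (xb T0.l4 (xa T0.l4 (xk T0.l4 T0.l4))))) (xb T0.l4 (xs (xa T0.l4 T0.l4) (xb T0.l4 (xa T0.l4 (xk T0.l4 (xd T0.l4 T0.l4)))))))))
  (TrL.c (I.pos (nat_lit 0) (nat_lit 0)) T0.l5
  (TrL.c (I.mix (nat_lit 8088324) (nat_lit 110514882)) (xR T0.l6 T0.l6)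
  (TrL.c (I.mix (nat_lit 8088324) (nat_lit 89478486)) (xR T0.l3 T0.l7)
  TrL.n)))))))) (by decide +kernel)
theorem bx0_5 : BoxOK sI cl13 cl13 cl13 t0 t0 b0_5 :=
  box_mk (TrL.c (I.pos (nat_lit 0) (nat_lit 0)) T0.l0
  (TrL.c (I.pos (nat_lit 0) (nat_lit 0)) T0.l1
  (TrL.c (I.pos (nat_lit 0) (nat_lit 134217730)) (xR T0.l2 T0.l2)
  (TrL.c (I.pos (nat_lit 0) (nat_lit 110514882)) (xR T0.l3 T0.l3)
  (TrL.c (I.pos (nat_lit 0) (nat_lit 0)) T0.l4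
  (TrL.c (I.pos (nat_lit 0) (nat_lit 0)) T0.l5
  (TrL.c (I.mix (nat_lit 8088324) (nat_lit 110514882)) T0.l6
  (TrL.c (I.mix (nat_lit 8088324) (nat_lit 89478486)) T0.l3
  TrL.n)))))))) (by decide +kernel)
theorem bx0_6 : BoxOK sI cl13 cl13 cl13 t0 t0 b0_6 :=
  box_mk (TrL.c (I.pos (nat_lit 0) (nat_lit 0)) (xa T0.l0 T0.l0)
  (TrL.c (I.pos (nat_lit 0) (nat_lit 0)) T0.l1
  (TrL.c (I.pos (nat_lit 0) (nat_lit 134217730)) T0.l6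
  (TrL.c (I.pos (nat_lit 0) (nat_lit 110514882)) (xR T0.l3 T0.l3)
  (TrL.c (I.pos (nat_lit 0) (nat_lit 0)) (xa T0.l4 T0.l4)
  (TrL.c (I.pos (nat_lit 0) (nat_lit 0)) T0.l5
  (TrL.c (I.mix (nat_lit 8088324) (nat_lit 110514882)) T0.l6
  (TrL.c (I.mix (nat_lit 8088324) (nat_lit 89478486)) T0.l3
  TrL.n)))))))) (by decide +kernel)
theorem bx0_7 : BoxOK sI cl13 cl13 cl13 t0 t0 b0_7 :=
  box_mk (TrL.c (I.pos (nat_lit 0) (nat_lit 0)) T0.l0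
  (TrL.c (I.pos (nat_lit 0) (nat_lit 0)) T0.l1
  (TrL.c (I.pos (nat_lit 0) (nat_lit 134217730)) T0.l2
  (TrL.c (I.pos (nat_lit 0) (nat_lit 110514882)) T0.l3
  (TrL.c (I.pos (nat_lit 0) (nat_lit 0)) T0.l4
  (TrL.c (I.pos (nat_lit 0) (nat_lit 0)) T0.l5
  (TrL.c (I.mix (nat_lit 8088324) (nat_lit 110514882)) T0.l6
  (TrL.c (I.mix (nat_lit 8088324) (nat_lit 89478486)) T0.l3
  TrL.n)))))))) (by decide +kernel)
theorem sv0 : StarV sI cl13 cl13 cl13 t0 t0 t0 :=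
  (bt_n (bt_n (bt_n (bt_b bx0_0) (bt_b bx0_1)) (bt_n (bt_b bx0_2) (bt_b bx0_3))) (bt_n (bt_n (bt_b bx0_4) (bt_b bx0_5)) (bt_n (bt_b bx0_6) (bt_b bx0_7))))
def S0 : StarD := StarD.mk cl13 cl13 cl13 0 0 t0
def G : List StarD := [S0]
theorem so0 : StarOK sI G S0 :=
  star_mk (by decide) (by decide) rfl rfl rfl rfl rfl rfl (rfl : _ = t0) (rfl : _ = t0)
  (st_mk (Pth.l (Pth.l (Pth.l Pth.z))) (nat_lit 96368329) (nat_lit 113602538) (by decide +kernel))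
  (st_mk (Pth.l (Pth.l (Pth.l Pth.z))) (nat_lit 130728068) (nat_lit 149234119) (by decide +kernel))
  (st_mk (Pth.l (Pth.l (Pth.l Pth.z))) (nat_lit 170993386) (nat_lit 189794562) (by decide +kernel)) sv0
theorem ok : GroupOK (nat_lit 91226112) (nat_lit 150339584) G := grp_mk (allS_c so0 allS_n)
theorem cov : GCov G cl13 cl13 cl13 := cov_mk
  ⟨0, by decide, rfl, rfl, rfl⟩ ⟨0, by decide, rfl, rfl, rfl⟩ ⟨0, by decide, rfl, rfl, rfl⟩ ⟨0, by decide, rfl, rfl, rfl⟩ ⟨0, by decide, rfl, rfl, rfl⟩ ⟨0, by decide, rfl, rfl, rfl⟩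
end Q666_1

namespace Q666_2
def sI : I := I.pos (nat_lit 150274048) (nat_lit 209387520)
def b0_0 : Bx := Bx.mk (St.mk (I.pos (nat_lit 158253056) (nat_lit 242122752)) (I.mix (nat_lit 1490944) (nat_lit 51036160)) (I.mix (nat_lit 2605056) (nat_lit 94437376)) (I.pos (nat_lit 92192768) (nat_lit 224706560)) (I.mix (nat_lit 96305152) (nat_lit 59441152)) (I.mix (nat_lit 69713920) (nat_lit 61849600)) (I.mix (nat_lit 102907904) (nat_lit 80068608)))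
  false (nat_lit 50493040)
def b0_1 : Bx := Bx.mk (St.mk (I.pos (nat_lit 121012224) (nat_lit 184549376)) (I.neg (nat_lit 6635520) (nat_lit 46956544)) (I.neg (nat_lit 1048576) (nat_lit 45727744)) (I.pos (nat_lit 71696384) (nat_lit 143294464)) (I.mix (nat_lit 61259776) (nat_lit 30097408)) (I.mix (nat_lit 30408704) (nat_lit 44007424)) (I.mix (nat_lit 26345472) (nat_lit 44990464)))
  false (nat_lit 0)
def b0_2 : Bx := Bx.mk (St.mk (I.mix (nat_lit 9502720) (nat_lit 141508608)) (I.mix (nat_lit 4079616) (nat_lit 23871488)) (I.mix (nat_lit 6275072) (nat_lit 23609344)) (I.mix (nat_lit 3145728) (nat_lit 88883200)) (I.mix (nat_lit 31277056) (nat_lit 24674304)) (I.mix (nat_lit 24788992) (nat_lit 20381696)) (I.mix (nat_lit 21413888) (nat_lit 15695872)))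
  false (nat_lit 0)
def b0_3 : Bx := Bx.mk (St.mk (I.mix (nat_lit 13697024) (nat_lit 116637696)) (I.mix (nat_lit 25083904) (nat_lit 4472832)) (I.mix (nat_lit 18530304) (nat_lit 3719168)) (I.mix (nat_lit 2473984) (nat_lit 65912832)) (I.mix (nat_lit 27623424) (nat_lit 20365312)) (I.mix (nat_lit 16302080) (nat_lit 20660224)) (I.mix (nat_lit 9928704) (nat_lit 14696448)))
  false (nat_lit 0)
def b0_4 : Bx := Bx.mk (St.mk (I.pos (nat_lit 177635328) (nat_lit 218005504)) (I.mix (nat_lit 10698752) (nat_lit 45858816)) (I.pos (nat_lit 4751360) (nat_lit 82837504)) (I.pos (nat_lit 122388480) (nat_lit 190791680)) (I.mix (nat_lit 106315776) (nat_lit 38420480)) (I.mix (nat_lit 101646336) (nat_lit 48840704)) (I.mix (nat_lit 120029184) (nat_lit 50561024)))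
  false (nat_lit 0)
def b0_5 : Bx := Bx.mk (St.mk (I.pos (nat_lit 118243328) (nat_lit 158433280)) (I.mix (nat_lit 45006848) (nat_lit 5177344)) (I.mix (nat_lit 46317568) (nat_lit 6504448)) (I.pos (nat_lit 54165504) (nat_lit 107216896)) (I.mix (nat_lit 73613312) (nat_lit 27000832)) (I.mix (nat_lit 26968064) (nat_lit 64077824)) (I.mix (nat_lit 22528000) (nat_lit 56999936)))
  false (nat_lit 0)
def b0_6 : Bx := Bx.mk (St.mk (I.mix (nat_lit 13811712) (nat_lit 133644288)) (I.mix (nat_lit 11911168) (nat_lit 29966336)) (I.mix (nat_lit 8962048) (nat_lit 27312128)) (I.mix (nat_lit 2916352) (nat_lit 81231872)) (I.mix (nat_lit 47300608) (nat_lit 24428544)) (I.mix (nat_lit 38993920) (nat_lit 21921792)) (I.mix (nat_lit 28082176) (nat_lit 14188544)))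
  false (nat_lit 0)
def b0_7 : Bx := Bx.mk (St.mk (I.mix (nat_lit 12009472) (nat_lit 107266048)) (I.mix (nat_lit 22659072) (nat_lit 1196032)) (I.mix (nat_lit 16777216) (nat_lit 2670592)) (I.mix (nat_lit 2260992) (nat_lit 58523648)) (I.mix (nat_lit 29736960) (nat_lit 14942208)) (I.mix (nat_lit 13500416) (nat_lit 23199744)) (I.mix (nat_lit 7946240) (nat_lit 14434304)))
  false (nat_lit 0)
def b0_8 : Bx := Bx.mk (St.mk (I.pos (nat_lit 197312512) (nat_lit 280625152)) (I.mix (nat_lit 13991936) (nat_lit 41353216)) (I.mix (nat_lit 33849344) (nat_lit 80740352)) (I.pos (nat_lit 170950656) (nat_lit 306757632)) (I.mix (nat_lit 66863104) (nat_lit 48742400)) (I.mix (nat_lit 48562176) (nat_lit 31064064)) (I.mix (nat_lit 78184448) (nat_lit 51281920)))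
  false (nat_lit 40156043)
def b0_9 : Bx := Bx.mk (St.mk (I.pos (nat_lit 162021376) (nat_lit 214925312)) (I.mix (nat_lit 34373632) (nat_lit 14467072)) (I.mix (nat_lit 32768000) (nat_lit 37289984)) (I.pos (nat_lit 104185856) (nat_lit 181092352)) (I.mix (nat_lit 47104000) (nat_lit 39206912)) (I.mix (nat_lit 41500672) (nat_lit 38371328)) (I.mix (nat_lit 44433408) (nat_lit 41730048)))
  false (nat_lit 3442162)
def b0_10 : Bx := Bx.mk (St.mk (I.pos (nat_lit 187252736) (nat_lit 237944832)) (I.pos (nat_lit 12484608) (nat_lit 48300032)) (I.pos (nat_lit 27459584) (nat_lit 90734592)) (I.pos (nat_lit 160628736) (nat_lit 213762048)) (I.mix (nat_lit 86573056) (nat_lit 62373888)) (I.mix (nat_lit 77070336) (nat_lit 54280192)) (I.mix (nat_lit 115539968) (nat_lit 67272704)))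
  false (nat_lit 22588749)
def b0_11 : Bx := Bx.mk (St.mk (I.pos (nat_lit 178618368) (nat_lit 217153536)) (I.mix (nat_lit 12910592) (nat_lit 28786688)) (I.pos (nat_lit 1261568) (nat_lit 57901056)) (I.pos (nat_lit 124190720) (nat_lit 185745408)) (I.mix (nat_lit 90439680) (nat_lit 51232768)) (I.mix (nat_lit 97124352) (nat_lit 46350336)) (I.mix (nat_lit 112967680) (nat_lit 46497792)))
  false (nat_lit 0)
def t0 : BTr := (BTr.n (BTr.n (BTr.n (BTr.b b0_0) (BTr.n (BTr.b b0_1) (BTr.b b0_2))) (BTr.n (BTr.b b0_3) (BTr.n (BTr.b b0_4) (BTr.b b0_5)))) (BTr.n (BTr.n (BTr.b b0_6) (BTr.n (BTr.b b0_7) (BTr.b b0_8))) (BTr.n (BTr.b b0_9) (BTr.n (BTr.b b0_10) (BTr.b b0_11)))))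
namespace T0
def l0 : Tr := Tr.L (Pth.l (Pth.l (Pth.l Pth.z)))
def l1 : Tr := Tr.L (Pth.l (Pth.l (Pth.r (Pth.l Pth.z))))
def l2 : Tr := Tr.L (Pth.l (Pth.l (Pth.r (Pth.r Pth.z))))
def l3 : Tr := Tr.L (Pth.l (Pth.r (Pth.l Pth.z)))
def l4 : Tr := Tr.L (Pth.l (Pth.r (Pth.r (Pth.l Pth.z))))
def l5 : Tr := Tr.L (Pth.l (Pth.r (Pth.r (Pth.r Pth.z))))
def l6 : Tr := Tr.L (Pth.r (Pth.l (Pth.l Pth.z)))
def l7 : Tr := Tr.L (Pth.r (Pth.l (Pth.r (Pth.l Pth.z))))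
def l8 : Tr := Tr.L (Pth.r (Pth.l (Pth.r (Pth.r Pth.z))))
def l9 : Tr := Tr.L (Pth.r (Pth.r (Pth.l Pth.z)))
def l10 : Tr := Tr.L (Pth.r (Pth.r (Pth.r (Pth.l Pth.z))))
def l11 : Tr := Tr.L (Pth.r (Pth.r (Pth.r (Pth.r Pth.z))))
end T0
theorem bx0_0 : BoxOK sI cl13 cl13 cl13 t0 t0 b0_0 :=
  box_mk (TrL.c (I.pos (nat_lit 0) (nat_lit 0)) (xa (xa T0.l0 T0.l0) (xa T0.l0 T0.l0))
  (TrL.c (I.pos (nat_lit 0) (nat_lit 0)) (xa (xk T0.l1 T0.l1) (xk T0.l1 T0.l1))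
  (TrL.c (I.pos (nat_lit 0) (nat_lit 134217730)) (xR T0.l6 T0.l2)
  (TrL.c (I.pos (nat_lit 0) (nat_lit 110514882)) (xR T0.l3 T0.l3)
  (TrL.c (I.pos (nat_lit 0) (nat_lit 0)) (xa (xk (xb T0.l4 T0.l4) (xb T0.l4 T0.l4)) (xk (xb (xa T0.l4 T0.l4) (xa T0.l4 T0.l4)) (xb (xa T0.l4 T0.l4) (xa T0.l4 (xb T0.l4 T0.l4)))))
  (TrL.c (I.pos (nat_lit 0) (nat_lit 0)) T0.l5
  (TrL.c (I.mix (nat_lit 8088324) (nat_lit 110514882)) (xR T0.l6 T0.l6)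
  (TrL.c (I.mix (nat_lit 8088324) (nat_lit 89478486)) T0.l7
  TrL.n)))))))) (by decide +kernel)
theorem bx0_1 : BoxOK sI cl13 cl13 cl13 t0 t0 b0_1 :=
  box_mk (TrL.c (I.pos (nat_lit 0) (nat_lit 0)) T0.l8
  (TrL.c (I.pos (nat_lit 0) (nat_lit 0)) T0.l1
  (TrL.c (I.pos (nat_lit 0) (nat_lit 134217730)) (xR T0.l2 T0.l2)
  (TrL.c (I.pos (nat_lit 0) (nat_lit 110514882)) (xR T0.l3 T0.l3)
  (TrL.c (I.pos (nat_lit 0) (nat_lit 0)) (xk (xa T0.l9 T0.l9) (xa T0.l9 T0.l9))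
  (TrL.c (I.pos (nat_lit 0) (nat_lit 0)) T0.l5
  (TrL.c (I.mix (nat_lit 8088324) (nat_lit 110514882)) T0.l6
  (TrL.c (I.mix (nat_lit 8088324) (nat_lit 89478486)) T0.l7
  TrL.n)))))))) (by decide +kernel)
theorem bx0_2 : BoxOK sI cl13 cl13 cl13 t0 t0 b0_2 :=
  box_mk (TrL.c (I.pos (nat_lit 0) (nat_lit 0)) (xa (xa T0.l8 T0.l8) T0.l8)
  (TrL.c (I.pos (nat_lit 0) (nat_lit 0)) (xa T0.l1 T0.l1)
  (TrL.c (I.pos (nat_lit 0) (nat_lit 134217730)) (xR T0.l2 T0.l2)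
  (TrL.c (I.pos (nat_lit 0) (nat_lit 110514882)) T0.l3
  (TrL.c (I.pos (nat_lit 0) (nat_lit 0)) (xa T0.l9 T0.l9)
  (TrL.c (I.pos (nat_lit 0) (nat_lit 0)) T0.l5
  (TrL.c (I.mix (nat_lit 8088324) (nat_lit 110514882)) T0.l6
  (TrL.c (I.mix (nat_lit 8088324) (nat_lit 89478486)) T0.l7
  TrL.n)))))))) (by decide +kernel)
theorem bx0_3 : BoxOK sI cl13 cl13 cl13 t0 t0 b0_3 :=
  box_mk (TrL.c (I.pos (nat_lit 0) (nat_lit 0)) (xa (xa T0.l8 T0.l8) T0.l8)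
  (TrL.c (I.pos (nat_lit 0) (nat_lit 0)) (xa T0.l1 T0.l1)
  (TrL.c (I.pos (nat_lit 0) (nat_lit 134217730)) (xR T0.l2 T0.l2)
  (TrL.c (I.pos (nat_lit 0) (nat_lit 110514882)) (xR T0.l3 T0.l3)
  (TrL.c (I.pos (nat_lit 0) (nat_lit 0)) (xa T0.l9 T0.l9)
  (TrL.c (I.pos (nat_lit 0) (nat_lit 0)) T0.l5
  (TrL.c (I.mix (nat_lit 8088324) (nat_lit 110514882)) T0.l6
  (TrL.c (I.mix (nat_lit 8088324) (nat_lit 89478486)) T0.l3
  TrL.n)))))))) (by decide +kernel)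
theorem bx0_4 : BoxOK sI cl13 cl13 cl13 t0 t0 b0_4 :=
  box_mk (TrL.c (I.pos (nat_lit 0) (nat_lit 0)) (xb T0.l10 T0.l10)
  (TrL.c (I.pos (nat_lit 0) (nat_lit 0)) (xk T0.l1 T0.l1)
  (TrL.c (I.pos (nat_lit 0) (nat_lit 134217730)) (xR T0.l2 T0.l6)
  (TrL.c (I.pos (nat_lit 0) (nat_lit 110514882)) (xR T0.l3 T0.l3)
  (TrL.c (I.pos (nat_lit 0) (nat_lit 0)) (xk (xb T0.l11 (xb T0.l11 (xa T0.l11 T0.l11))) (xb T0.l11 (xb T0.l4 (xa T0.l11 (xs T0.l11 (xk T0.l11 T0.l11))))))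
  (TrL.c (I.pos (nat_lit 0) (nat_lit 0)) T0.l5
  (TrL.c (I.mix (nat_lit 8088324) (nat_lit 110514882)) (xR T0.l6 T0.l6)
  (TrL.c (I.mix (nat_lit 8088324) (nat_lit 89478486)) T0.l7
  TrL.n)))))))) (by decide +kernel)
theorem bx0_5 : BoxOK sI cl13 cl13 cl13 t0 t0 b0_5 :=
  box_mk (TrL.c (I.pos (nat_lit 0) (nat_lit 0)) T0.l8
  (TrL.c (I.pos (nat_lit 0) (nat_lit 0)) T0.l1
  (TrL.c (I.pos (nat_lit 0) (nat_lit 134217730)) (xR T0.l2 T0.l2)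
  (TrL.c (I.pos (nat_lit 0) (nat_lit 110514882)) (xR T0.l3 T0.l3)
  (TrL.c (I.pos (nat_lit 0) (nat_lit 0)) (xk T0.l9 T0.l9)
  (TrL.c (I.pos (nat_lit 0) (nat_lit 0)) T0.l5
  (TrL.c (I.mix (nat_lit 8088324) (nat_lit 110514882)) T0.l6
  (TrL.c (I.mix (nat_lit 8088324) (nat_lit 89478486)) T0.l7
  TrL.n)))))))) (by decide +kernel)
theorem bx0_6 : BoxOK sI cl13 cl13 cl13 t0 t0 b0_6 :=
  box_mk (TrL.c (I.pos (nat_lit 0) (nat_lit 0)) (xa (xa T0.l8 T0.l8) (xa T0.l8 T0.l8))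
  (TrL.c (I.pos (nat_lit 0) (nat_lit 0)) (xa T0.l1 T0.l1)
  (TrL.c (I.pos (nat_lit 0) (nat_lit 134217730)) (xR T0.l2 T0.l2)
  (TrL.c (I.pos (nat_lit 0) (nat_lit 110514882)) T0.l3
  (TrL.c (I.pos (nat_lit 0) (nat_lit 0)) (xa T0.l9 T0.l9)
  (TrL.c (I.pos (nat_lit 0) (nat_lit 0)) T0.l5
  (TrL.c (I.mix (nat_lit 8088324) (nat_lit 110514882)) T0.l6
  (TrL.c (I.mix (nat_lit 8088324) (nat_lit 89478486)) T0.l3
  TrL.n)))))))) (by decide +kernel)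
theorem bx0_7 : BoxOK sI cl13 cl13 cl13 t0 t0 b0_7 :=
  box_mk (TrL.c (I.pos (nat_lit 0) (nat_lit 0)) T0.l8
  (TrL.c (I.pos (nat_lit 0) (nat_lit 0)) (xa T0.l1 T0.l1)
  (TrL.c (I.pos (nat_lit 0) (nat_lit 134217730)) (xR T0.l2 T0.l2)
  (TrL.c (I.pos (nat_lit 0) (nat_lit 110514882)) T0.l3
  (TrL.c (I.pos (nat_lit 0) (nat_lit 0)) (xa T0.l9 T0.l9)
  (TrL.c (I.pos (nat_lit 0) (nat_lit 0)) T0.l5
  (TrL.c (I.mix (nat_lit 8088324) (nat_lit 110514882)) T0.l6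
  (TrL.c (I.mix (nat_lit 8088324) (nat_lit 89478486)) T0.l3
  TrL.n)))))))) (by decide +kernel)
theorem bx0_8 : BoxOK sI cl13 cl13 cl13 t0 t0 b0_8 :=
  box_mk (TrL.c (I.pos (nat_lit 0) (nat_lit 0)) (xa T0.l0 T0.l0)
  (TrL.c (I.pos (nat_lit 0) (nat_lit 0)) (xa (xk T0.l1 T0.l1) (xk (xb T0.l1 T0.l1) T0.l1))
  (TrL.c (I.pos (nat_lit 0) (nat_lit 134217730)) (xR T0.l6 T0.l6)
  (TrL.c (I.pos (nat_lit 0) (nat_lit 110514882)) (xR T0.l3 T0.l3)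
  (TrL.c (I.pos (nat_lit 0) (nat_lit 0)) (xa (xk (xb (xa T0.l4 T0.l4) T0.l4) (xb (xa T0.l4 T0.l4) T0.l4)) (xk (xb (xa T0.l4 (xk (xb T0.l4 T0.l4) T0.l4)) (xa T0.l4 (xk (xb T0.l4 T0.l4) T0.l4))) (xb (xa T0.l4 (xk T0.l4 T0.l4)) (xa T0.l4 (xk T0.l4 T0.l4)))))
  (TrL.c (I.pos (nat_lit 0) (nat_lit 0)) (xk T0.l5 T0.l5)
  (TrL.c (I.mix (nat_lit 8088324) (nat_lit 110514882)) (xR T0.l6 (xR T0.l6 T0.l6))
  (TrL.c (I.mix (nat_lit 8088324) (nat_lit 89478486)) T0.l7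
  TrL.n)))))))) (by decide +kernel)
theorem bx0_9 : BoxOK sI cl13 cl13 cl13 t0 t0 b0_9 :=
  box_mk (TrL.c (I.pos (nat_lit 0) (nat_lit 0)) T0.l0
  (TrL.c (I.pos (nat_lit 0) (nat_lit 0)) T0.l1
  (TrL.c (I.pos (nat_lit 0) (nat_lit 134217730)) (xR T0.l2 T0.l2)
  (TrL.c (I.pos (nat_lit 0) (nat_lit 110514882)) (xR T0.l3 T0.l3)
  (TrL.c (I.pos (nat_lit 0) (nat_lit 0)) (xk (xa T0.l11 (xb T0.l11 T0.l11)) (xa T0.l11 T0.l11))
  (TrL.c (I.pos (nat_lit 0) (nat_lit 0)) T0.l5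
  (TrL.c (I.mix (nat_lit 8088324) (nat_lit 110514882)) T0.l6
  (TrL.c (I.mix (nat_lit 8088324) (nat_lit 89478486)) T0.l7
  TrL.n)))))))) (by decide +kernel)
theorem bx0_10 : BoxOK sI cl13 cl13 cl13 t0 t0 b0_10 :=
  box_mk (TrL.c (I.pos (nat_lit 0) (nat_lit 0)) (xa T0.l0 T0.l0)
  (TrL.c (I.pos (nat_lit 0) (nat_lit 0)) (xk T0.l1 T0.l1)
  (TrL.c (I.pos (nat_lit 0) (nat_lit 134217730)) (xR T0.l2 T0.l2)
  (TrL.c (I.pos (nat_lit 0) (nat_lit 110514882)) (xR T0.l3 T0.l3)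
  (TrL.c (I.pos (nat_lit 0) (nat_lit 0)) (xk (xa T0.l4 (xb T0.l4 T0.l4)) (xa T0.l4 (xb T0.l4 (xs T0.l4 (xb T0.l4 T0.l4)))))
  (TrL.c (I.pos (nat_lit 0) (nat_lit 0)) T0.l5
  (TrL.c (I.mix (nat_lit 8088324) (nat_lit 110514882)) (xR T0.l6 T0.l6)
  (TrL.c (I.mix (nat_lit 8088324) (nat_lit 89478486)) T0.l7
  TrL.n)))))))) (by decide +kernel)
theorem bx0_11 : BoxOK sI cl13 cl13 cl13 t0 t0 b0_11 :=
  box_mk (TrL.c (I.pos (nat_lit 0) (nat_lit 0)) T0.l10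
  (TrL.c (I.pos (nat_lit 0) (nat_lit 0)) T0.l1
  (TrL.c (I.pos (nat_lit 0) (nat_lit 134217730)) (xR T0.l2 T0.l2)
  (TrL.c (I.pos (nat_lit 0) (nat_lit 110514882)) (xR T0.l3 T0.l3)
  (TrL.c (I.pos (nat_lit 0) (nat_lit 0)) (xk T0.l11 T0.l11)
  (TrL.c (I.pos (nat_lit 0) (nat_lit 0)) T0.l5
  (TrL.c (I.mix (nat_lit 8088324) (nat_lit 110514882)) (xR T0.l6 T0.l6)
  (TrL.c (I.mix (nat_lit 8088324) (nat_lit 89478486)) T0.l7
  TrL.n)))))))) (by decide +kernel)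
theorem sv0 : StarV sI cl13 cl13 cl13 t0 t0 t0 :=
  (bt_n (bt_n (bt_n (bt_b bx0_0) (bt_n (bt_b bx0_1) (bt_b bx0_2))) (bt_n (bt_b bx0_3) (bt_n (bt_b bx0_4) (bt_b bx0_5)))) (bt_n (bt_n (bt_b bx0_6) (bt_n (bt_b bx0_7) (bt_b bx0_8))) (bt_n (bt_b bx0_9) (bt_n (bt_b bx0_10) (bt_b bx0_11)))))
def S0 : StarD := StarD.mk cl13 cl13 cl13 0 0 t0
def G : List StarD := [S0]
theorem so0 : StarOK sI G S0 :=
  star_mk (by decide) (by decide) rfl rfl rfl rfl rfl rfl (rfl : _ = t0) (rfl : _ = t0)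
  (st_mk (Pth.l (Pth.l (Pth.l Pth.z))) (nat_lit 95831458) (nat_lit 114178683) (by decide +kernel))
  (st_mk (Pth.l (Pth.l (Pth.l Pth.z))) (nat_lit 130728068) (nat_lit 149301599) (by decide +kernel))
  (st_mk (Pth.l (Pth.l (Pth.l Pth.z))) (nat_lit 170993386) (nat_lit 189904183) (by decide +kernel)) sv0
theorem ok : GroupOK (nat_lit 150274048) (nat_lit 209387520) G := grp_mk (allS_c so0 allS_n)
theorem cov : GCov G cl13 cl13 cl13 := cov_mk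
  ⟨0, by decide, rfl, rfl, rfl⟩ ⟨0, by decide, rfl, rfl, rfl⟩ ⟨0, by decide, rfl, rfl, rfl⟩ ⟨0, by decide, rfl, rfl, rfl⟩ ⟨0, by decide, rfl, rfl, rfl⟩ ⟨0, by decide, rfl, rfl, rfl⟩
end Q666_2


end Pool.Agent.Helper6.MONO
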