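import Pool.Agent.Helper6.MONO.Cert.C13

/-!
Certificate data (generated).
-/

set_option autoImplicit false
set_option linter.all false
noncomputable section
namespace Pool.Agent.Helper6.MONO


namespace Q666_3
def sI : I := I.pos (nat_lit 209321984) (nat_lit 268435456)
def b0_0 : Bx := Bx.mk (St.mk (I.pos (nat_lit 149897216) (nat_lit 242466816)) (I.mix (nat_lit 5767168) (nat_lit 43302912)) (I.mix (nat_lit 10551296) (nat_lit 80887808)) (I.pos (nat_lit 78217216) (nat_lit 231260160)) (I.mix (nat_lit 86441984) (nat_lit 48857088)) (I.mix (nat_lit 57376768) (nat_lit 46972928)) (I.mix (nat_lit 77086720) (nat_lit 59490304)))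
  false (nat_lit 51848855)
def b0_1 : Bx := Bx.mk (St.mk (I.pos (nat_lit 111230976) (nat_lit 189857792)) (I.neg (nat_lit 3391488) (nat_lit 49086464)) (I.neg (nat_lit 278528) (nat_lit 48152576)) (I.pos (nat_lit 64421888) (nat_lit 146718720)) (I.mix (nat_lit 72499200) (nat_lit 42319872)) (I.mix (nat_lit 33947648) (nat_lit 53952512)) (I.mix (nat_lit 27492352) (nat_lit 54640640)))
  false (nat_lit 21067932)
def b0_2 : Bx := Bx.mk (St.mk (I.mix (nat_lit 25264128) (nat_lit 158171136)) (I.mix (nat_lit 5832704) (nat_lit 21037056)) (I.mix (nat_lit 8404992) (nat_lit 20709376)) (I.mix (nat_lit 13516800) (nat_lit 99368960)) (I.mix (nat_lit 25870336) (nat_lit 21331968)) (I.mix (nat_lit 21692416) (nat_lit 11829248)) (I.mix (nat_lit 18579456) (nat_lit 9175040)))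
  false (nat_lit 0)
def b0_3 : Bx := Bx.mk (St.mk (I.mix (nat_lit 21676032) (nat_lit 130351104)) (I.mix (nat_lit 23789568) (nat_lit 3637248)) (I.mix (nat_lit 17088512) (nat_lit 3768320)) (I.mix (nat_lit 10174464) (nat_lit 73695232)) (I.mix (nat_lit 28721152) (nat_lit 19152896)) (I.mix (nat_lit 12992512) (nat_lit 20086784)) (I.mix (nat_lit 7929856) (nat_lit 14090240)))
  false (nat_lit 0)
def b0_4 : Bx := Bx.mk (St.mk (I.pos (nat_lit 175734784) (nat_lit 217350144)) (I.mix (nat_lit 12451840) (nat_lit 43843584)) (I.pos (nat_lit 458752) (nat_lit 79609856)) (I.pos (nat_lit 119324672) (nat_lit 190578688)) (I.mix (nat_lit 111869952) (nat_lit 42876928)) (I.mix (nat_lit 92798976) (nat_lit 46235648)) (I.mix (nat_lit 109690880) (nat_lit 43024384)))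
  false (nat_lit 12421742)
def b0_5 : Bx := Bx.mk (St.mk (I.pos (nat_lit 114130944) (nat_lit 158629888)) (I.mix (nat_lit 48398336) (nat_lit 8404992)) (I.mix (nat_lit 51462144) (nat_lit 10092544)) (I.pos (nat_lit 51052544) (nat_lit 111034368)) (I.mix (nat_lit 82935808) (nat_lit 35454976)) (I.mix (nat_lit 29425664) (nat_lit 61718528)) (I.mix (nat_lit 25247744) (nat_lit 54591488)))
  false (nat_lit 0)
def b0_6 : Bx := Bx.mk (St.mk (I.mix (nat_lit 29425664) (nat_lit 148455424)) (I.mix (nat_lit 14041088) (nat_lit 28721152)) (I.mix (nat_lit 11206656) (nat_lit 26836992)) (I.mix (nat_lit 12206080) (nat_lit 89341952)) (I.mix (nat_lit 47988736) (nat_lit 25378816)) (I.mix (nat_lit 36405248) (nat_lit 19611648)) (I.mix (nat_lit 26525696) (nat_lit 13385728)))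
  false (nat_lit 0)
def b0_7 : Bx := Bx.mk (St.mk (I.mix (nat_lit 25149440) (nat_lit 118407168)) (I.mix (nat_lit 22577152) (nat_lit 3506176)) (I.mix (nat_lit 17154048) (nat_lit 3325952)) (I.mix (nat_lit 8912896) (nat_lit 64028672)) (I.mix (nat_lit 30441472) (nat_lit 13975552)) (I.mix (nat_lit 10878976) (nat_lit 22364160)) (I.mix (nat_lit 5996544) (nat_lit 13680640)))
  false (nat_lit 0)
def b0_8 : Bx := Bx.mk (St.mk (I.pos (nat_lit 206831616) (nat_lit 286294016)) (I.mix (nat_lit 16531456) (nat_lit 34668544)) (I.mix (nat_lit 39157760) (nat_lit 68239360)) (I.pos (nat_lit 165462016) (nat_lit 320077824)) (I.mix (nat_lit 65060864) (nat_lit 47595520)) (I.mix (nat_lit 43745280) (nat_lit 31326208)) (I.mix (nat_lit 76365824) (nat_lit 50987008)))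
  false (nat_lit 56997339)
def b0_9 : Bx := Bx.mk (St.mk (I.pos (nat_lit 158597120) (nat_lit 219037696)) (I.mix (nat_lit 36093952) (nat_lit 15630336)) (I.mix (nat_lit 34897920) (nat_lit 38502400)) (I.pos (nat_lit 101466112) (nat_lit 186302464)) (I.mix (nat_lit 53510144) (nat_lit 52887552)) (I.mix (nat_lit 50446336) (nat_lit 49299456)) (I.mix (nat_lit 51806208) (nat_lit 52740096)))
  false (nat_lit 27594654)
def b0_10 : Bx := Bx.mk (St.mk (I.pos (nat_lit 187580416) (nat_lit 234143744)) (I.pos (nat_lit 14467072) (nat_lit 42844160)) (I.pos (nat_lit 29949952) (nat_lit 80658432)) (I.pos (nat_lit 157335552) (nat_lit 211730432)) (I.mix (nat_lit 82132992) (nat_lit 59736064)) (I.mix (nat_lit 64929792) (nat_lit 46874624)) (I.mix (nat_lit 98615296) (nat_lit 58195968)))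
  false (nat_lit 19097419)
def b0_11 : Bx := Bx.mk (St.mk (I.pos (nat_lit 178552832) (nat_lit 217923584)) (I.mix (nat_lit 14188544) (nat_lit 25673728)) (I.pos (nat_lit 180224) (nat_lit 53854208)) (I.pos (nat_lit 123273216) (nat_lit 186089472)) (I.mix (nat_lit 93339648) (nat_lit 57966592)) (I.mix (nat_lit 92733440) (nat_lit 52559872)) (I.mix (nat_lit 107970560) (nat_lit 56049664)))
  false (nat_lit 0)
def t0 : BTr := (BTr.n (BTr.n (BTr.n (BTr.b b0_0) (BTr.n (BTr.b b0_1) (BTr.b b0_2))) (BTr.n (BTr.b b0_3) (BTr.n (BTr.b b0_4) (BTr.b b0_5)))) (BTr.n (BTr.n (BTr.b b0_6) (BTr.n (BTr.b b0_7) (BTr.b b0_8))) (BTr.n (BTr.b b0_9) (BTr.n (BTr.b b0_10) (BTr.b b0_11)))))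
namespace T0
def l0 : Tr := Tr.L (Pth.l (Pth.l (Pth.l Pth.z)))
def l1 : Tr := Tr.L (Pth.l (Pth.l (Pth.r (Pth.l Pth.z))))
def l2 : Tr := Tr.L (Pth.l (Pth.l (Pth.r (Pth.r Pth.z))))
def l3 : Tr := Tr.L (Pth.l (Pth.r (Pth.l Pth.z)))
def l4 : Tr := Tr.L (Pth.l (Pth.r (Pth.r (Pth.l Pth.z))))
def l5 : Tr := Tr.L (Pth.l (Pth.r (Pth.r (Pth.r Pth.z))))
def l6 : Tr := Tr.L (Pth.r (Pth.l (Pth.l Pth.z)))
def l7 : Tr := Tr.L (Pth.r (Pth.l (Pth.r (Pth.l Pth.z))))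
def l8 : Tr := Tr.L (Pth.r (Pth.l (Pth.r (Pth.r Pth.z))))
def l9 : Tr := Tr.L (Pth.r (Pth.r (Pth.l Pth.z)))
def l10 : Tr := Tr.L (Pth.r (Pth.r (Pth.r (Pth.l Pth.z))))
def l11 : Tr := Tr.L (Pth.r (Pth.r (Pth.r (Pth.r Pth.z))))
end T0
theorem bx0_0 : BoxOK sI cl13 cl13 cl13 t0 t0 b0_0 :=
  box_mk (TrL.c (I.pos (nat_lit 0) (nat_lit 0)) (xa (xb (xa (xb T0.l0 T0.l0) (xb T0.l0 T0.l0)) (xa (xb (xa T0.l0 T0.l0) (xa (xc T0.l0 T0.l0) T0.l0)) (xa (xb T0.l0 T0.l0) (xb T0.l0 T0.l0)))) (xa (xb (xb T0.l0 T0.l0) (xa (xb T0.l0 T0.l0) (xb T0.l0 T0.l0))) (xb T0.l0 (xa T0.l0 T0.l0))))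
  (TrL.c (I.pos (nat_lit 0) (nat_lit 0)) (xa T0.l1 T0.l1)
  (TrL.c (I.pos (nat_lit 0) (nat_lit 134217730)) (xR T0.l2 (xR T0.l2 T0.l6))
  (TrL.c (I.pos (nat_lit 0) (nat_lit 110514882)) (xR T0.l3 (xR T0.l3 T0.l3))
  (TrL.c (I.pos (nat_lit 0) (nat_lit 0)) (xa (xk (xb T0.l4 (xa T0.l4 T0.l4)) (xb T0.l11 T0.l4)) (xk (xb (xa T0.l4 (xk T0.l4 T0.l4)) (xa T0.l4 (xk T0.l4 T0.l4))) (xb (xa T0.l4 (xk T0.l4 T0.l4)) (xa T0.l4 (xb T0.l4 T0.l4)))))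
  (TrL.c (I.pos (nat_lit 0) (nat_lit 0)) T0.l5
  (TrL.c (I.mix (nat_lit 8088324) (nat_lit 110514882)) (xR T0.l6 (xR T0.l6 T0.l6))
  (TrL.c (I.mix (nat_lit 8088324) (nat_lit 89478486)) (xR T0.l7 T0.l7)
  TrL.n)))))))) (by decide +kernel)
theorem bx0_1 : BoxOK sI cl13 cl13 cl13 t0 t0 b0_1 :=
  box_mk (TrL.c (I.pos (nat_lit 0) (nat_lit 0)) (xa (xb T0.l8 (xa T0.l8 T0.l8)) T0.l0)
  (TrL.c (I.pos (nat_lit 0) (nat_lit 0)) T0.l1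
  (TrL.c (I.pos (nat_lit 0) (nat_lit 134217730)) T0.l6
  (TrL.c (I.pos (nat_lit 0) (nat_lit 110514882)) (xR T0.l3 T0.l3)
  (TrL.c (I.pos (nat_lit 0) (nat_lit 0)) (xa (xb (xk T0.l9 T0.l9) T0.l9) (xk (xb T0.l9 T0.l11) (xb T0.l9 T0.l11)))
  (TrL.c (I.pos (nat_lit 0) (nat_lit 0)) T0.l5
  (TrL.c (I.mix (nat_lit 8088324) (nat_lit 110514882)) (xR T0.l6 T0.l6)
  (TrL.c (I.mix (nat_lit 8088324) (nat_lit 89478486)) T0.l3
  TrL.n)))))))) (by decide +kernel)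
theorem bx0_2 : BoxOK sI cl13 cl13 cl13 t0 t0 b0_2 :=
  box_mk (TrL.c (I.pos (nat_lit 0) (nat_lit 0)) (xa T0.l8 (xa T0.l8 (xa T0.l8 T0.l8)))
  (TrL.c (I.pos (nat_lit 0) (nat_lit 0)) (xa T0.l1 T0.l1)
  (TrL.c (I.pos (nat_lit 0) (nat_lit 134217730)) T0.l2
  (TrL.c (I.pos (nat_lit 0) (nat_lit 110514882)) (xR T0.l3 (xR T0.l3 T0.l3))
  (TrL.c (I.pos (nat_lit 0) (nat_lit 0)) (xa T0.l9 T0.l9)
  (TrL.c (I.pos (nat_lit 0) (nat_lit 0)) T0.l5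
  (TrL.c (I.mix (nat_lit 8088324) (nat_lit 110514882)) T0.l6
  (TrL.c (I.mix (nat_lit 8088324) (nat_lit 89478486)) T0.l7
  TrL.n)))))))) (by decide +kernel)
theorem bx0_3 : BoxOK sI cl13 cl13 cl13 t0 t0 b0_3 :=
  box_mk (TrL.c (I.pos (nat_lit 0) (nat_lit 0)) (xa (xa T0.l8 T0.l8) T0.l8)
  (TrL.c (I.pos (nat_lit 0) (nat_lit 0)) (xa T0.l1 T0.l1)
  (TrL.c (I.pos (nat_lit 0) (nat_lit 134217730)) T0.l2
  (TrL.c (I.pos (nat_lit 0) (nat_lit 110514882)) (xR T0.l3 (xR T0.l3 T0.l3))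
  (TrL.c (I.pos (nat_lit 0) (nat_lit 0)) (xa T0.l9 T0.l9)
  (TrL.c (I.pos (nat_lit 0) (nat_lit 0)) T0.l5
  (TrL.c (I.mix (nat_lit 8088324) (nat_lit 110514882)) T0.l6
  (TrL.c (I.mix (nat_lit 8088324) (nat_lit 89478486)) T0.l7
  TrL.n)))))))) (by decide +kernel)
theorem bx0_4 : BoxOK sI cl13 cl13 cl13 t0 t0 b0_4 :=
  box_mk (TrL.c (I.pos (nat_lit 0) (nat_lit 0)) (xb (xa (xb T0.l10 T0.l10) (xb T0.l10 T0.l10)) (xa (xb T0.l10 (xa T0.l10 T0.l10)) (xb T0.l10 (xa T0.l10 T0.l10))))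
  (TrL.c (I.pos (nat_lit 0) (nat_lit 0)) T0.l1
  (TrL.c (I.pos (nat_lit 0) (nat_lit 134217730)) (xR T0.l2 (xR T0.l2 T0.l6))
  (TrL.c (I.pos (nat_lit 0) (nat_lit 110514882)) (xR T0.l3 (xR T0.l3 T0.l3))
  (TrL.c (I.pos (nat_lit 0) (nat_lit 0)) (xb (xk (xa T0.l11 (xb T0.l11 T0.l11)) (xa T0.l11 T0.l11)) (xk (xa T0.l11 (xk (xb T0.l11 T0.l11) (xb T0.l11 T0.l11))) (xa T0.l11 (xb T0.l11 (xs (xk T0.l11 T0.l11) (xb T0.l11 (xk T0.l11 (xa T0.l11 T0.l11))))))))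
  (TrL.c (I.pos (nat_lit 0) (nat_lit 0)) T0.l5
  (TrL.c (I.mix (nat_lit 8088324) (nat_lit 110514882)) (xR T0.l6 (xR T0.l6 T0.l6))
  (TrL.c (I.mix (nat_lit 8088324) (nat_lit 89478486)) (xR T0.l7 (xR T0.l7 T0.l7))
  TrL.n)))))))) (by decide +kernel)
theorem bx0_5 : BoxOK sI cl13 cl13 cl13 t0 t0 b0_5 :=
  box_mk (TrL.c (I.pos (nat_lit 0) (nat_lit 0)) (xb (xa T0.l8 T0.l0) (xa (xb T0.l8 T0.l8) T0.l8))
  (TrL.c (I.pos (nat_lit 0) (nat_lit 0)) T0.l1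
  (TrL.c (I.pos (nat_lit 0) (nat_lit 134217730)) T0.l6
  (TrL.c (I.pos (nat_lit 0) (nat_lit 110514882)) T0.l3
  (TrL.c (I.pos (nat_lit 0) (nat_lit 0)) (xb (xk T0.l9 T0.l9) (xk T0.l9 T0.l9))
  (TrL.c (I.pos (nat_lit 0) (nat_lit 0)) T0.l5
  (TrL.c (I.mix (nat_lit 8088324) (nat_lit 110514882)) T0.l6
  (TrL.c (I.mix (nat_lit 8088324) (nat_lit 89478486)) T0.l3
  TrL.n)))))))) (by decide +kernel)
theorem bx0_6 : BoxOK sI cl13 cl13 cl13 t0 t0 b0_6 :=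
  box_mk (TrL.c (I.pos (nat_lit 0) (nat_lit 0)) (xa (xa (xb T0.l8 (xa (xb T0.l8 (xa T0.l8 T0.l8)) (xb T0.l8 T0.l8))) (xb T0.l8 (xa T0.l8 T0.l8))) (xa (xb T0.l8 (xa T0.l8 T0.l8)) (xa (xb T0.l8 (xb T0.l8 T0.l8)) (xb T0.l8 (xa T0.l8 T0.l8)))))
  (TrL.c (I.pos (nat_lit 0) (nat_lit 0)) (xa (xa T0.l9 T0.l1) T0.l1)
  (TrL.c (I.pos (nat_lit 0) (nat_lit 134217730)) T0.l2
  (TrL.c (I.pos (nat_lit 0) (nat_lit 110514882)) (xR T0.l3 (xR T0.l3 T0.l3))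
  (TrL.c (I.pos (nat_lit 0) (nat_lit 0)) (xa (xa T0.l1 T0.l9) T0.l9)
  (TrL.c (I.pos (nat_lit 0) (nat_lit 0)) T0.l5
  (TrL.c (I.mix (nat_lit 8088324) (nat_lit 110514882)) T0.l6
  (TrL.c (I.mix (nat_lit 8088324) (nat_lit 89478486)) T0.l7
  TrL.n)))))))) (by decide +kernel)
theorem bx0_7 : BoxOK sI cl13 cl13 cl13 t0 t0 b0_7 :=
  box_mk (TrL.c (I.pos (nat_lit 0) (nat_lit 0)) (xa (xa (xb (xa T0.l8 T0.l8) T0.l8) T0.l8) T0.l8)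
  (TrL.c (I.pos (nat_lit 0) (nat_lit 0)) (xa T0.l1 T0.l1)
  (TrL.c (I.pos (nat_lit 0) (nat_lit 134217730)) T0.l2
  (TrL.c (I.pos (nat_lit 0) (nat_lit 110514882)) (xR T0.l3 (xR T0.l3 T0.l3))
  (TrL.c (I.pos (nat_lit 0) (nat_lit 0)) (xa T0.l9 T0.l9)
  (TrL.c (I.pos (nat_lit 0) (nat_lit 0)) T0.l5
  (TrL.c (I.mix (nat_lit 8088324) (nat_lit 110514882)) T0.l6
  (TrL.c (I.mix (nat_lit 8088324) (nat_lit 89478486)) T0.l7
  TrL.n)))))))) (by decide +kernel)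
theorem bx0_8 : BoxOK sI cl13 cl13 cl13 t0 t0 b0_8 :=
  box_mk (TrL.c (I.pos (nat_lit 0) (nat_lit 0)) (xa (xb (xa T0.l0 T0.l0) (xa T0.l0 T0.l0)) (xb (xa T0.l0 T0.l0) (xa T0.l0 T0.l0)))
  (TrL.c (I.pos (nat_lit 0) (nat_lit 0)) (xa T0.l1 T0.l1)
  (TrL.c (I.pos (nat_lit 0) (nat_lit 134217730)) (xR T0.l2 T0.l6)
  (TrL.c (I.pos (nat_lit 0) (nat_lit 110514882)) (xR T0.l3 (xR T0.l3 T0.l3))
  (TrL.c (I.pos (nat_lit 0) (nat_lit 0)) (xa (xk (xb (xa T0.l4 (xb (xk T0.l4 T0.l4) T0.l4)) (xa T0.l4 T0.l4)) (xb (xa T0.l4 (xb (xk T0.l4 T0.l4) T0.l4)) T0.l4)) (xk (xb (xa (xk (xb T0.l4 T0.l4) (xb T0.l4 T0.l4)) (xk (xb T0.l4 T0.l4) (xb T0.l4 T0.l4))) (xa (xk T0.l4 T0.l4) (xk (xb T0.l4 T0.l4) (xb T0.l4 T0.l4)))) (xb (xa (xb (xk T0.l4 T0.l4) T0.l4) (xk (xb T0.l4 T0.l4) (xb T0.l4 T0.l4))) (xa (xk T0.l4 T0.l4) (xk (xb T0.l4 T0.l4) (xb T0.l4 T0.l4))))))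
  (TrL.c (I.pos (nat_lit 0) (nat_lit 0)) (xk T0.l5 T0.l5)
  (TrL.c (I.mix (nat_lit 8088324) (nat_lit 110514882)) (xR T0.l6 (xR T0.l6 (xR T0.l6 T0.l6)))
  (TrL.c (I.mix (nat_lit 8088324) (nat_lit 89478486)) (xR T0.l7 (xR T0.l7 T0.l7))
  TrL.n)))))))) (by decide +kernel)
theorem bx0_9 : BoxOK sI cl13 cl13 cl13 t0 t0 b0_9 :=
  box_mk (TrL.c (I.pos (nat_lit 0) (nat_lit 0)) (xa (xb T0.l0 T0.l0) (xb T0.l0 T0.l0))
  (TrL.c (I.pos (nat_lit 0) (nat_lit 0)) T0.l1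
  (TrL.c (I.pos (nat_lit 0) (nat_lit 134217730)) (xR T0.l2 T0.l6)
  (TrL.c (I.pos (nat_lit 0) (nat_lit 110514882)) (xR T0.l3 T0.l3)
  (TrL.c (I.pos (nat_lit 0) (nat_lit 0)) (xk (xb (xa T0.l11 (xk T0.l11 T0.l11)) (xa T0.l11 T0.l0)) (xb (xa T0.l11 (xa T0.l11 T0.l11)) (xa T0.l11 T0.l11)))
  (TrL.c (I.pos (nat_lit 0) (nat_lit 0)) T0.l5
  (TrL.c (I.mix (nat_lit 8088324) (nat_lit 110514882)) (xR T0.l6 (xR T0.l6 T0.l6))
  (TrL.c (I.mix (nat_lit 8088324) (nat_lit 89478486)) T0.l3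
  TrL.n)))))))) (by decide +kernel)
theorem bx0_10 : BoxOK sI cl13 cl13 cl13 t0 t0 b0_10 :=
  box_mk (TrL.c (I.pos (nat_lit 0) (nat_lit 0)) (xa (xb T0.l0 (xa T0.l0 T0.l0)) (xb T0.l0 (xa T0.l0 T0.l0)))
  (TrL.c (I.pos (nat_lit 0) (nat_lit 0)) T0.l1
  (TrL.c (I.pos (nat_lit 0) (nat_lit 134217730)) (xR T0.l2 (xR T0.l2 T0.l6))
  (TrL.c (I.pos (nat_lit 0) (nat_lit 110514882)) (xR T0.l3 (xR T0.l3 T0.l3))
  (TrL.c (I.pos (nat_lit 0) (nat_lit 0)) (xk (xa T0.l4 (xb T0.l4 (xk T0.l4 T0.l4))) (xa T0.l4 (xb T0.l4 (xs T0.l4 (xb T0.l4 (xk T0.l11 T0.l11))))))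
  (TrL.c (I.pos (nat_lit 0) (nat_lit 0)) T0.l5
  (TrL.c (I.mix (nat_lit 8088324) (nat_lit 110514882)) (xR T0.l6 T0.l6)
  (TrL.c (I.mix (nat_lit 8088324) (nat_lit 89478486)) T0.l3
  TrL.n)))))))) (by decide +kernel)
theorem bx0_11 : BoxOK sI cl13 cl13 cl13 t0 t0 b0_11 :=
  box_mk (TrL.c (I.pos (nat_lit 0) (nat_lit 0)) (xa (xb T0.l10 T0.l10) (xb T0.l10 T0.l10))
  (TrL.c (I.pos (nat_lit 0) (nat_lit 0)) T0.l1
  (TrL.c (I.pos (nat_lit 0) (nat_lit 134217730)) (xR T0.l2 T0.l6)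
  (TrL.c (I.pos (nat_lit 0) (nat_lit 110514882)) (xR T0.l3 T0.l3)
  (TrL.c (I.pos (nat_lit 0) (nat_lit 0)) (xk (xb (xa T0.l11 T0.l11) T0.l11) (xb (xa T0.l11 T0.l11) T0.l11))
  (TrL.c (I.pos (nat_lit 0) (nat_lit 0)) T0.l5
  (TrL.c (I.mix (nat_lit 8088324) (nat_lit 110514882)) (xR T0.l6 (xR T0.l6 T0.l6))
  (TrL.c (I.mix (nat_lit 8088324) (nat_lit 89478486)) (xR T0.l7 T0.l3)
  TrL.n)))))))) (by decide +kernel)
theorem sv0 : StarV sI cl13 cl13 cl13 t0 t0 t0 :=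
  (bt_n (bt_n (bt_n (bt_b bx0_0) (bt_n (bt_b bx0_1) (bt_b bx0_2))) (bt_n (bt_b bx0_3) (bt_n (bt_b bx0_4) (bt_b bx0_5)))) (bt_n (bt_n (bt_b bx0_6) (bt_n (bt_b bx0_7) (bt_b bx0_8))) (bt_n (bt_b bx0_9) (bt_n (bt_b bx0_10) (bt_b bx0_11)))))
def S0 : StarD := StarD.mk cl13 cl13 cl13 0 0 t0
def G : List StarD := [S0]
theorem so0 : StarOK sI G S0 :=
  star_mk (by decide) (by decide) rfl rfl rfl rfl rfl rfl (rfl : _ = t0) (rfl : _ = t0)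
  (st_mk (Pth.l (Pth.l (Pth.l Pth.z))) (nat_lit 95831458) (nat_lit 114218012) (by decide +kernel))
  (st_mk (Pth.l (Pth.l (Pth.l Pth.z))) (nat_lit 130728068) (nat_lit 149369203) (by decide +kernel))
  (st_mk (Pth.l (Pth.l (Pth.l Pth.z))) (nat_lit 170993386) (nat_lit 190014059) (by decide +kernel)) sv0
theorem ok : GroupOK (nat_lit 209321984) (nat_lit 268435456) G := grp_mk (allS_c so0 allS_n)
theorem cov : GCov G cl13 cl13 cl13 := cov_mk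
  ⟨0, by decide, rfl, rfl, rfl⟩ ⟨0, by decide, rfl, rfl, rfl⟩ ⟨0, by decide, rfl, rfl, rfl⟩ ⟨0, by decide, rfl, rfl, rfl⟩ ⟨0, by decide, rfl, rfl, rfl⟩ ⟨0, by decide, rfl, rfl, rfl⟩
end Q666_3

namespace Q111_0
def sI : I := I.pos (nat_lit 0) (nat_lit 91291648)
def b0_0 : Bx := Bx.mk (St.mk (I.pos (nat_lit 123994112) (nat_lit 253575168)) (I.mix (nat_lit 51625984) (nat_lit 106414080)) (I.mix (nat_lit 195215360) (nat_lit 123912192)) (I.pos (nat_lit 371163136) (nat_lit 553549824)) (I.mix (nat_lit 230490112) (nat_lit 170229760)) (I.mix (nat_lit 236093440) (nat_lit 205651968)) (I.mix (nat_lit 405258240) (nat_lit 442302464)))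
  false (nat_lit 0)
def b0_1 : Bx := Bx.mk (St.mk (I.pos (nat_lit 21430272) (nat_lit 112689152)) (I.mix (nat_lit 107610112) (nat_lit 14254080)) (I.mix (nat_lit 92160000) (nat_lit 15138816)) (I.pos (nat_lit 274874368) (nat_lit 337854464)) (I.mix (nat_lit 169984000) (nat_lit 138149888)) (I.mix (nat_lit 148717568) (nat_lit 190447616)) (I.mix (nat_lit 159285248) (nat_lit 165707776)))
  false (nat_lit 29530599)
def b0_2 : Bx := Bx.mk (St.mk (I.mix (nat_lit 64651264) (nat_lit 7028736)) (I.mix (nat_lit 31211520) (nat_lit 112279552)) (I.neg (nat_lit 38174720) (nat_lit 70385664)) (I.pos (nat_lit 277217280) (nat_lit 309133312)) (I.mix (nat_lit 118931456) (nat_lit 174686208)) (I.mix (nat_lit 197869568) (nat_lit 171130880)) (I.mix (nat_lit 91357184) (nat_lit 71467008)))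
  true (nat_lit 0)
def b0_3 : Bx := Bx.mk (St.mk (I.pos (nat_lit 94732288) (nat_lit 185974784)) (I.mix (nat_lit 60620800) (nat_lit 111771648)) (I.mix (nat_lit 48381952) (nat_lit 127942656)) (I.pos (nat_lit 317538304) (nat_lit 435290112)) (I.mix (nat_lit 263618560) (nat_lit 133283840)) (I.mix (nat_lit 317800448) (nat_lit 228769792)) (I.mix (nat_lit 328384512) (nat_lit 296058880)))
  false (nat_lit 0)
def b0_4 : Bx := Bx.mk (St.mk (I.mix (nat_lit 7028736) (nat_lit 64651264)) (I.mix (nat_lit 112279552) (nat_lit 31211520)) (I.neg (nat_lit 38174720) (nat_lit 70385664)) (I.pos (nat_lit 277217280) (nat_lit 309133312)) (I.mix (nat_lit 174686208) (nat_lit 118931456)) (I.mix (nat_lit 171130880) (nat_lit 197869568)) (I.mix (nat_lit 91357184) (nat_lit 71467008)))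
  false (nat_lit 51446075)
def b0_5 : Bx := Bx.mk (St.mk (I.neg (nat_lit 21430272) (nat_lit 112689152)) (I.mix (nat_lit 13844480) (nat_lit 107610112)) (I.mix (nat_lit 92176384) (nat_lit 15204352)) (I.pos (nat_lit 274874368) (nat_lit 337674240)) (I.mix (nat_lit 138149888) (nat_lit 170000384)) (I.mix (nat_lit 190464000) (nat_lit 148717568)) (I.mix (nat_lit 159285248) (nat_lit 165707776)))
  true (nat_lit 0)
def b0_6 : Bx := Bx.mk (St.mk (I.pos (nat_lit 65486848) (nat_lit 110624768)) (I.mix (nat_lit 50298880) (nat_lit 14696448)) (I.mix (nat_lit 38109184) (nat_lit 15548416)) (I.pos (nat_lit 300744704) (nat_lit 337920000)) (I.mix (nat_lit 121503744) (nat_lit 86851584)) (I.mix (nat_lit 106725376) (nat_lit 124665856)) (I.mix (nat_lit 100843520) (nat_lit 100040704)))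
  false (nat_lit 0)
def b0_7 : Bx := Bx.mk (St.mk (I.mix (nat_lit 35209216) (nat_lit 5455872)) (I.mix (nat_lit 32194560) (nat_lit 40124416)) (I.neg (nat_lit 43663360) (nat_lit 55164928)) (I.pos (nat_lit 277004288) (nat_lit 291438592)) (I.mix (nat_lit 81903616) (nat_lit 63160320)) (I.mix (nat_lit 72187904) (nat_lit 83197952)) (I.mix (nat_lit 26132480) (nat_lit 17956864)))
  true (nat_lit 0)
def t0 : BTr := (BTr.n (BTr.n (BTr.n (BTr.b b0_0) (BTr.b b0_1)) (BTr.n (BTr.b b0_2) (BTr.b b0_3))) (BTr.n (BTr.n (BTr.b b0_4) (BTr.b b0_5)) (BTr.n (BTr.b b0_6) (BTr.b b0_7))))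
namespace T0
def l0 : Tr := Tr.L (Pth.l (Pth.l (Pth.l Pth.z)))
def l1 : Tr := Tr.L (Pth.l (Pth.l (Pth.r Pth.z)))
def l2 : Tr := Tr.L (Pth.l (Pth.r (Pth.l Pth.z)))
def l3 : Tr := Tr.L (Pth.l (Pth.r (Pth.r Pth.z)))
def l4 : Tr := Tr.L (Pth.r (Pth.l (Pth.l Pth.z)))
def l5 : Tr := Tr.L (Pth.r (Pth.l (Pth.r Pth.z)))
def l6 : Tr := Tr.L (Pth.r (Pth.r (Pth.l Pth.z)))
def l7 : Tr := Tr.L (Pth.r (Pth.r (Pth.r Pth.z)))
end T0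
theorem bx0_0 : BoxOK sI cl4 cl4 cl4 t0 t0 b0_0 :=
  box_mk (TrL.c (I.pos (nat_lit 0) (nat_lit 0)) (xa (xb (xa T0.l0 T0.l0) (xa (xb T0.l0 (xs T0.l0 T0.l0)) (xs T0.l0 (xb T0.l0 T0.l0)))) (xb (xa T0.l0 T0.l0) (xa (xs T0.l0 (xb T0.l0 T0.l0)) (xs T0.l0 (xb T0.l0 T0.l0)))))
  (TrL.c (I.pos (nat_lit 0) (nat_lit 0)) (xa (xb T0.l1 (xs T0.l1 (xa T0.l1 T0.l1))) (xb T0.l1 (xs T0.l1 (xa T0.l1 T0.l1))))
  (TrL.c (I.pos (nat_lit 0) (nat_lit 0)) T0.l2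
  (TrL.c (I.pos (nat_lit 0) (nat_lit 0)) (xa (xb T0.l3 T0.l3) (xb (xa (xb T0.l3 T0.l3) (xs (xb T0.l3 T0.l3) (xb (xc T0.l3 T0.l3) (xc T0.l3 T0.l3)))) (xa (xs T0.l3 T0.l3) (xs (xb T0.l3 (xs T0.l3 T0.l3)) (xb (xc T0.l3 T0.l3) (xc T0.l3 T0.l3))))))
  (TrL.c (I.pos (nat_lit 0) (nat_lit 0)) T0.l4
  (TrL.c (I.pos (nat_lit 0) (nat_lit 0)) (xa (xb T0.l5 (xs T0.l5 (xa T0.l5 T0.l5))) (xb T0.l5 (xs T0.l5 (xa T0.l5 T0.l5))))
  TrL.n)))))) (by decide +kernel)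
theorem bx0_1 : BoxOK sI cl4 cl4 cl4 t0 t0 b0_1 :=
  box_mk (TrL.c (I.pos (nat_lit 0) (nat_lit 0)) (xa (xb (xa (xs T0.l0 (xb T0.l0 T0.l0)) T0.l0) T0.l0) T0.l0)
  (TrL.c (I.pos (nat_lit 0) (nat_lit 0)) T0.l1
  (TrL.c (I.pos (nat_lit 0) (nat_lit 0)) T0.l2
  (TrL.c (I.pos (nat_lit 0) (nat_lit 0)) T0.l3
  (TrL.c (I.pos (nat_lit 0) (nat_lit 0)) T0.l4
  (TrL.c (I.pos (nat_lit 0) (nat_lit 0)) T0.l5
  TrL.n)))))) (by decide +kernel)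
theorem bx0_2 : BoxOK sI cl4 cl4 cl4 t0 t0 b0_2 :=
  box_mk (TrL.c (I.pos (nat_lit 0) (nat_lit 0)) T0.l6
  (TrL.c (I.pos (nat_lit 0) (nat_lit 0)) T0.l2
  TrL.n)) (by decide +kernel)
theorem bx0_3 : BoxOK sI cl4 cl4 cl4 t0 t0 b0_3 :=
  box_mk (TrL.c (I.pos (nat_lit 0) (nat_lit 0)) (xb (xa (xb (xa T0.l0 T0.l0) (xa T0.l0 T0.l0)) (xb T0.l0 T0.l0)) (xa (xb (xa T0.l0 T0.l0) (xs T0.l0 (xa T0.l0 T0.l0))) (xb T0.l0 (xs (xa T0.l0 T0.l0) (xa T0.l0 T0.l0)))))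
  (TrL.c (I.pos (nat_lit 0) (nat_lit 0)) (xb T0.l1 (xa T0.l1 T0.l1))
  (TrL.c (I.pos (nat_lit 0) (nat_lit 0)) T0.l2
  (TrL.c (I.pos (nat_lit 0) (nat_lit 0)) (xb (xa T0.l3 T0.l3) (xa T0.l3 T0.l3))
  (TrL.c (I.pos (nat_lit 0) (nat_lit 0)) T0.l4
  (TrL.c (I.pos (nat_lit 0) (nat_lit 0)) (xb T0.l5 (xa T0.l5 T0.l5))
  TrL.n)))))) (by decide +kernel)
theorem bx0_4 : BoxOK sI cl4 cl4 cl4 t0 t0 b0_4 :=
  box_mk (TrL.c (I.pos (nat_lit 0) (nat_lit 0)) (xb (xa (xb (xs (xa (xs T0.l0 T0.l0) T0.l0) (xa (xb T0.l0 T0.l0) T0.l0)) T0.l0) T0.l0) (xa (xb T0.l0 (xa T0.l0 T0.l0)) T0.l0))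
  (TrL.c (I.pos (nat_lit 0) (nat_lit 0)) T0.l6
  (TrL.c (I.pos (nat_lit 0) (nat_lit 0)) T0.l2
  (TrL.c (I.pos (nat_lit 0) (nat_lit 0)) (xb T0.l3 T0.l3)
  (TrL.c (I.pos (nat_lit 0) (nat_lit 0)) T0.l4
  (TrL.c (I.pos (nat_lit 0) (nat_lit 0)) T0.l5
  TrL.n)))))) (by decide +kernel)
theorem bx0_5 : BoxOK sI cl4 cl4 cl4 t0 t0 b0_5 :=
  box_mk (TrL.c (I.pos (nat_lit 0) (nat_lit 0)) T0.l1
  (TrL.c (I.pos (nat_lit 0) (nat_lit 0)) T0.l2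
  TrL.n)) (by decide +kernel)
theorem bx0_6 : BoxOK sI cl4 cl4 cl4 t0 t0 b0_6 :=
  box_mk (TrL.c (I.pos (nat_lit 0) (nat_lit 0)) T0.l0
  (TrL.c (I.pos (nat_lit 0) (nat_lit 0)) T0.l1
  (TrL.c (I.pos (nat_lit 0) (nat_lit 0)) T0.l2
  (TrL.c (I.pos (nat_lit 0) (nat_lit 0)) T0.l3
  (TrL.c (I.pos (nat_lit 0) (nat_lit 0)) T0.l4
  (TrL.c (I.pos (nat_lit 0) (nat_lit 0)) T0.l5
  TrL.n)))))) (by decide +kernel)
theorem bx0_7 : BoxOK sI cl4 cl4 cl4 t0 t0 b0_7 :=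
  box_mk (TrL.c (I.pos (nat_lit 0) (nat_lit 0)) T0.l6
  (TrL.c (I.pos (nat_lit 0) (nat_lit 0)) T0.l7
  TrL.n)) (by decide +kernel)
theorem sv0 : StarV sI cl4 cl4 cl4 t0 t0 t0 :=
  (bt_n (bt_n (bt_n (bt_b bx0_0) (bt_b bx0_1)) (bt_n (bt_b bx0_2) (bt_b bx0_3))) (bt_n (bt_n (bt_b bx0_4) (bt_b bx0_5)) (bt_n (bt_b bx0_6) (bt_b bx0_7))))
def S0 : StarD := StarD.mk cl4 cl4 cl4 0 0 t0
def G : List StarD := [S0]
theorem so0 : StarOK sI G S0 :=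
  star_mk (by decide) (by decide) rfl rfl rfl rfl rfl rfl (rfl : _ = t0) (rfl : _ = t0)
  (st_mk (Pth.l (Pth.l (Pth.l Pth.z))) (nat_lit 389278892) (nat_lit 399201982) (by decide +kernel))
  (st_mk (Pth.l (Pth.l (Pth.l Pth.z))) (nat_lit 429427781) (nat_lit 441762861) (by decide +kernel))
  (st_mk (Pth.l (Pth.l (Pth.l Pth.z))) (nat_lit 476508409) (nat_lit 492092548) (by decide +kernel)) sv0
theorem ok : GroupOK (nat_lit 0) (nat_lit 91291648) G := grp_mk (allS_c so0 allS_n)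
theorem cov : GCov G cl4 cl4 cl4 := cov_mk
  ⟨0, by decide, rfl, rfl, rfl⟩ ⟨0, by decide, rfl, rfl, rfl⟩ ⟨0, by decide, rfl, rfl, rfl⟩ ⟨0, by decide, rfl, rfl, rfl⟩ ⟨0, by decide, rfl, rfl, rfl⟩ ⟨0, by decide, rfl, rfl, rfl⟩
end Q111_0

namespace Q111_1
def sI : I := I.pos (nat_lit 91226112) (nat_lit 150339584)
def b0_0 : Bx := Bx.mk (St.mk (I.pos (nat_lit 131645440) (nat_lit 217726976)) (I.mix (nat_lit 3162112) (nat_lit 99401728)) (I.mix (nat_lit 3489792) (nat_lit 110575616)) (I.pos (nat_lit 388153344) (nat_lit 507592704)) (I.mix (nat_lit 214810624) (nat_lit 120193024)) (I.mix (nat_lit 159973376) (nat_lit 139624448)) (I.mix (nat_lit 231620608) (nat_lit 224935936)))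
  false (nat_lit 0)
def b0_1 : Bx := Bx.mk (St.mk (I.pos (nat_lit 16334848) (nat_lit 105103360)) (I.mix (nat_lit 99221504) (nat_lit 4571136)) (I.mix (nat_lit 79806464) (nat_lit 10190848)) (I.pos (nat_lit 280805376) (nat_lit 336412672)) (I.mix (nat_lit 158449664) (nat_lit 133955584)) (I.mix (nat_lit 132775936) (nat_lit 157728768)) (I.mix (nat_lit 145899520) (nat_lit 144195584)))
  false (nat_lit 45283210)
def b0_2 : Bx := Bx.mk (St.mk (I.mix (nat_lit 62717952) (nat_lit 622592)) (I.mix (nat_lit 24428544) (nat_lit 96272384)) (I.neg (nat_lit 42582016) (nat_lit 71450624)) (I.pos (nat_lit 278757376) (nat_lit 311885824)) (I.mix (nat_lit 116637696) (nat_lit 165330944)) (I.mix (nat_lit 169558016) (nat_lit 131170304)) (I.mix (nat_lit 78446592) (nat_lit 53788672)))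
  true (nat_lit 0)
def b0_3 : Bx := Bx.mk (St.mk (I.pos (nat_lit 93487104) (nat_lit 183238656)) (I.mix (nat_lit 54853632) (nat_lit 85245952)) (I.mix (nat_lit 45760512) (nat_lit 107905024)) (I.pos (nat_lit 323551232) (nat_lit 443285504)) (I.mix (nat_lit 243744768) (nat_lit 148586496)) (I.mix (nat_lit 251281408) (nat_lit 178962432)) (I.mix (nat_lit 250904576) (nat_lit 224673792)))
  false (nat_lit 10374401)
def b0_4 : Bx := Bx.mk (St.mk (I.pos (nat_lit 7831552) (nat_lit 62439424)) (I.neg (nat_lit 25329664) (nat_lit 95043584)) (I.neg (nat_lit 41943040) (nat_lit 71467008)) (I.pos (nat_lit 282329088) (nat_lit 311820288)) (I.mix (nat_lit 165314560) (nat_lit 85262336)) (I.mix (nat_lit 131219456) (nat_lit 153206784)) (I.mix (nat_lit 78446592) (nat_lit 53788672)))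
  false (nat_lit 15067156)
def b0_5 : Bx := Bx.mk (St.mk (I.neg (nat_lit 16187392) (nat_lit 109477888)) (I.mix (nat_lit 6094848) (nat_lit 99270656)) (I.mix (nat_lit 79806464) (nat_lit 10190848)) (I.pos (nat_lit 280690688) (nat_lit 339640320)) (I.mix (nat_lit 133971968) (nat_lit 158449664)) (I.mix (nat_lit 157745152) (nat_lit 132792320)) (I.mix (nat_lit 145915904) (nat_lit 144211968)))
  true (nat_lit 0)
def b0_6 : Bx := Bx.mk (St.mk (I.pos (nat_lit 170033152) (nat_lit 236208128)) (I.mix (nat_lit 30703616) (nat_lit 49496064)) (I.mix (nat_lit 140247040) (nat_lit 180224)) (I.pos (nat_lit 424361984) (nat_lit 524025856)) (I.mix (nat_lit 212860928) (nat_lit 98811904)) (I.mix (nat_lit 154894336) (nat_lit 175865856)) (I.mix (nat_lit 267796480) (nat_lit 318537728)))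
  false (nat_lit 0)
def b0_7 : Bx := Bx.mk (St.mk (I.pos (nat_lit 81920) (nat_lit 38469632)) (I.mix (nat_lit 34717696) (nat_lit 22609920)) (I.neg (nat_lit 44761088) (nat_lit 56279040)) (I.pos (nat_lit 279314432) (nat_lit 292896768)) (I.mix (nat_lit 76005376) (nat_lit 104267776)) (I.mix (nat_lit 92176384) (nat_lit 83083264)) (I.mix (nat_lit 31948800) (nat_lit 22659072)))
  false (nat_lit 0)
def b0_8 : Bx := Bx.mk (St.mk (I.pos (nat_lit 58884096) (nat_lit 109789184)) (I.mix (nat_lit 48070656) (nat_lit 6586368)) (I.mix (nat_lit 36552704) (nat_lit 9093120)) (I.pos (nat_lit 299188224) (nat_lit 340951040)) (I.mix (nat_lit 119848960) (nat_lit 82771968)) (I.mix (nat_lit 89325568) (nat_lit 98451456)) (I.mix (nat_lit 90701824) (nat_lit 78282752)))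
  false (nat_lit 0)
def b0_9 : Bx := Bx.mk (St.mk (I.mix (nat_lit 39616512) (nat_lit 7307264)) (I.mix (nat_lit 26771456) (nat_lit 37289984)) (I.neg (nat_lit 44744704) (nat_lit 56377344)) (I.pos (nat_lit 279330816) (nat_lit 293158912)) (I.mix (nat_lit 96665600) (nat_lit 82657280)) (I.mix (nat_lit 83394560) (nat_lit 85377024)) (I.mix (nat_lit 29720576) (nat_lit 21381120)))
  true (nat_lit 0)
def b0_10 : Bx := Bx.mk (St.mk (I.pos (nat_lit 146079744) (nat_lit 216678400)) (I.pos (nat_lit 9289728) (nat_lit 95666176)) (I.mix (nat_lit 44695552) (nat_lit 93716480)) (I.pos (nat_lit 402079744) (nat_lit 500498432)) (I.mix (nat_lit 203046912) (nat_lit 156614656)) (I.mix (nat_lit 201244672) (nat_lit 169017344)) (I.mix (nat_lit 353239040) (nat_lit 265076736)))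
  false (nat_lit 0)
def b0_11 : Bx := Bx.mk (St.mk (I.pos (nat_lit 2228224) (nat_lit 49381376)) (I.neg (nat_lit 6111232) (nat_lit 77053952)) (I.neg (nat_lit 47792128) (nat_lit 68059136)) (I.pos (nat_lit 279904256) (nat_lit 301580288)) (I.mix (nat_lit 161005568) (nat_lit 116539392)) (I.mix (nat_lit 117751808) (nat_lit 169574400)) (I.mix (nat_lit 65454080) (nat_lit 44089344)))
  false (nat_lit 10876909)
def b0_12 : Bx := Bx.mk (St.mk (I.pos (nat_lit 189595648) (nat_lit 247037952)) (I.mix (nat_lit 31997952) (nat_lit 31801344)) (I.neg (nat_lit 34947072) (nat_lit 145571840)) (I.pos (nat_lit 456081408) (nat_lit 549650432)) (I.mix (nat_lit 193331200) (nat_lit 93847552)) (I.mix (nat_lit 145162240) (nat_lit 155811840)) (I.mix (nat_lit 273465344) (nat_lit 312950784)))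
  false (nat_lit 0)
def b0_13 : Bx := Bx.mk (St.mk (I.mix (nat_lit 5079040) (nat_lit 22577152)) (I.mix (nat_lit 18104320) (nat_lit 19464192)) (I.neg (nat_lit 45793280) (nat_lit 50790400)) (I.pos (nat_lit 280248320) (nat_lit 288784384)) (I.mix (nat_lit 65437696) (nat_lit 79937536)) (I.mix (nat_lit 78118912) (nat_lit 73662464)) (I.mix (nat_lit 11567104) (nat_lit 10649600)))
  false (nat_lit 0)
def b0_14 : Bx := Bx.mk (St.mk (I.pos (nat_lit 177192960) (nat_lit 223330304)) (I.pos (nat_lit 1687552) (nat_lit 51036160)) (I.mix (nat_lit 69926912) (nat_lit 2064384)) (I.pos (nat_lit 441942016) (nat_lit 494436352)) (I.mix (nat_lit 112410624) (nat_lit 41533440)) (I.mix (nat_lit 77594624) (nat_lit 63864832)) (I.mix (nat_lit 124436480) (nat_lit 102318080)))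
  false (nat_lit 0)
def b0_15 : Bx := Bx.mk (St.mk (I.pos (nat_lit 8945664) (nat_lit 30769152)) (I.neg (nat_lit 1867776) (nat_lit 34390016)) (I.neg (nat_lit 48250880) (nat_lit 55754752)) (I.pos (nat_lit 280461312) (nat_lit 291422208)) (I.mix (nat_lit 55296000) (nat_lit 54067200)) (I.mix (nat_lit 53919744) (nat_lit 57589760)) (I.mix (nat_lit 20414464) (nat_lit 10829824)))
  false (nat_lit 0)
def t0 : BTr := (BTr.n (BTr.n (BTr.n (BTr.n (BTr.b b0_0) (BTr.b b0_1)) (BTr.n (BTr.b b0_2) (BTr.b b0_3))) (BTr.n (BTr.n (BTr.b b0_4) (BTr.b b0_5)) (BTr.n (BTr.b b0_6) (BTr.b b0_7)))) (BTr.n (BTr.n (BTr.n (BTr.b b0_8) (BTr.b b0_9)) (BTr.n (BTr.b b0_10) (BTr.b b0_11))) (BTr.n (BTr.n (BTr.b b0_12) (BTr.b b0_13)) (BTr.n (BTr.b b0_14) (BTr.b b0_15)))))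
namespace T0
def l0 : Tr := Tr.L (Pth.l (Pth.l (Pth.l (Pth.l Pth.z))))
def l1 : Tr := Tr.L (Pth.l (Pth.l (Pth.l (Pth.r Pth.z))))
def l2 : Tr := Tr.L (Pth.l (Pth.l (Pth.r (Pth.l Pth.z))))
def l3 : Tr := Tr.L (Pth.l (Pth.l (Pth.r (Pth.r Pth.z))))
def l4 : Tr := Tr.L (Pth.l (Pth.r (Pth.l (Pth.l Pth.z))))
def l5 : Tr := Tr.L (Pth.l (Pth.r (Pth.l (Pth.r Pth.z))))
def l6 : Tr := Tr.L (Pth.l (Pth.r (Pth.r (Pth.l Pth.z))))
def l7 : Tr := Tr.L (Pth.l (Pth.r (Pth.r (Pth.r Pth.z))))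
def l8 : Tr := Tr.L (Pth.r (Pth.l (Pth.l (Pth.l Pth.z))))
def l9 : Tr := Tr.L (Pth.r (Pth.l (Pth.l (Pth.r Pth.z))))
def l10 : Tr := Tr.L (Pth.r (Pth.l (Pth.r (Pth.l Pth.z))))
def l11 : Tr := Tr.L (Pth.r (Pth.l (Pth.r (Pth.r Pth.z))))
def l12 : Tr := Tr.L (Pth.r (Pth.r (Pth.l (Pth.l Pth.z))))
def l13 : Tr := Tr.L (Pth.r (Pth.r (Pth.l (Pth.r Pth.z))))
def l14 : Tr := Tr.L (Pth.r (Pth.r (Pth.r (Pth.l Pth.z))))
def l15 : Tr := Tr.L (Pth.r (Pth.r (Pth.r (Pth.r Pth.z))))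
end T0
theorem bx0_0 : BoxOK sI cl4 cl4 cl4 t0 t0 b0_0 :=
  box_mk (TrL.c (I.pos (nat_lit 0) (nat_lit 0)) (xa (xb (xa T0.l10 T0.l0) (xa (xb T0.l10 (xs T0.l0 (xa T0.l10 T0.l0))) (xb T0.l10 (xs T0.l0 (xa T0.l0 T0.l0))))) (xb (xa T0.l0 (xb T0.l0 T0.l0)) (xa (xb T0.l0 (xs T0.l0 (xa T0.l0 T0.l0))) (xb (xs T0.l0 T0.l0) (xs (xa T0.l0 T0.l0) (xa T0.l0 T0.l0))))))
  (TrL.c (I.pos (nat_lit 0) (nat_lit 0)) (xa T0.l1 (xb T0.l1 (xa T0.l1 T0.l1)))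
  (TrL.c (I.pos (nat_lit 0) (nat_lit 0)) (xa T0.l2 T0.l2)
  (TrL.c (I.pos (nat_lit 0) (nat_lit 0)) (xa T0.l3 (xb T0.l3 (xa T0.l3 (xb T0.l3 T0.l3))))
  (TrL.c (I.pos (nat_lit 0) (nat_lit 0)) (xa T0.l4 T0.l4)
  (TrL.c (I.pos (nat_lit 0) (nat_lit 0)) (xa T0.l5 (xb T0.l5 (xa T0.l5 T0.l5)))
  TrL.n)))))) (by decide +kernel)
theorem bx0_1 : BoxOK sI cl4 cl4 cl4 t0 t0 b0_1 :=
  box_mk (TrL.c (I.pos (nat_lit 0) (nat_lit 0)) (xa (xb (xb (xa (xs T0.l6 T0.l6) T0.l6) (xa T0.l6 T0.l6)) (xa (xb T0.l6 T0.l6) (xb T0.l6 T0.l6))) (xb (xa T0.l6 (xb (xa T0.l6 T0.l6) T0.l6)) (xa T0.l6 T0.l6)))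
  (TrL.c (I.pos (nat_lit 0) (nat_lit 0)) (xb (xa T0.l1 T0.l1) T0.l1)
  (TrL.c (I.pos (nat_lit 0) (nat_lit 0)) T0.l2
  (TrL.c (I.pos (nat_lit 0) (nat_lit 0)) (xb (xa T0.l3 T0.l3) T0.l3)
  (TrL.c (I.pos (nat_lit 0) (nat_lit 0)) (xb T0.l7 T0.l7)
  (TrL.c (I.pos (nat_lit 0) (nat_lit 0)) (xb T0.l5 T0.l5)
  TrL.n)))))) (by decide +kernel)
theorem bx0_2 : BoxOK sI cl4 cl4 cl4 t0 t0 b0_2 :=
  box_mk (TrL.c (I.pos (nat_lit 0) (nat_lit 0)) (xb T0.l8 T0.l8)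
  (TrL.c (I.pos (nat_lit 0) (nat_lit 0)) T0.l9
  TrL.n)) (by decide +kernel)
theorem bx0_3 : BoxOK sI cl4 cl4 cl4 t0 t0 b0_3 :=
  box_mk (TrL.c (I.pos (nat_lit 0) (nat_lit 0)) (xb (xa (xb (xa (xb T0.l10 T0.l10) T0.l10) (xa T0.l10 T0.l10)) (xb (xa T0.l10 (xb T0.l10 T0.l10)) (xa T0.l10 T0.l10))) (xa (xb (xa (xb T0.l10 T0.l10) T0.l10) (xa (xb (xa T0.l10 T0.l10) (xs T0.l10 T0.l10)) (xb T0.l10 (xs T0.l10 T0.l10)))) (xb (xa T0.l10 (xb T0.l10 T0.l10)) (xa (xb T0.l10 (xs T0.l10 T0.l10)) (xb T0.l10 (xs T0.l10 T0.l10))))))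
  (TrL.c (I.pos (nat_lit 0) (nat_lit 0)) (xb (xa T0.l1 (xb T0.l1 T0.l1)) (xa (xb T0.l1 T0.l1) (xb T0.l1 (xa T0.l1 T0.l1))))
  (TrL.c (I.pos (nat_lit 0) (nat_lit 0)) (xb (xa T0.l2 T0.l2) (xa T0.l2 T0.l2))
  (TrL.c (I.pos (nat_lit 0) (nat_lit 0)) (xb (xa T0.l3 (xb T0.l3 T0.l3)) (xa T0.l3 (xb T0.l3 (xa T0.l3 T0.l3))))
  (TrL.c (I.pos (nat_lit 0) (nat_lit 0)) (xb (xa T0.l11 T0.l1) (xa T0.l11 T0.l11))
  (TrL.c (I.pos (nat_lit 0) (nat_lit 0)) (xb (xa T0.l5 (xb T0.l5 T0.l5)) (xa (xb T0.l5 T0.l5) (xb T0.l5 (xa T0.l5 T0.l5))))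
  TrL.n)))))) (by decide +kernel)
theorem bx0_4 : BoxOK sI cl4 cl4 cl4 t0 t0 b0_4 :=
  box_mk (TrL.c (I.pos (nat_lit 0) (nat_lit 0)) (xb (xa (xb (xa T0.l12 T0.l6) T0.l12) T0.l6) (xa (xb T0.l12 T0.l12) T0.l12))
  (TrL.c (I.pos (nat_lit 0) (nat_lit 0)) T0.l1
  (TrL.c (I.pos (nat_lit 0) (nat_lit 0)) T0.l2
  (TrL.c (I.pos (nat_lit 0) (nat_lit 0)) T0.l3
  (TrL.c (I.pos (nat_lit 0) (nat_lit 0)) T0.l7
  (TrL.c (I.pos (nat_lit 0) (nat_lit 0)) T0.l5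
  TrL.n)))))) (by decide +kernel)
theorem bx0_5 : BoxOK sI cl4 cl4 cl4 t0 t0 b0_5 :=
  box_mk (TrL.c (I.pos (nat_lit 0) (nat_lit 0)) (xb T0.l1 (xa T0.l1 T0.l1))
  (TrL.c (I.pos (nat_lit 0) (nat_lit 0)) T0.l2
  TrL.n)) (by decide +kernel)
theorem bx0_6 : BoxOK sI cl4 cl4 cl4 t0 t0 b0_6 :=
  box_mk (TrL.c (I.pos (nat_lit 0) (nat_lit 0)) (xa (xb T0.l0 (xa T0.l0 T0.l0)) T0.l3)
  (TrL.c (I.pos (nat_lit 0) (nat_lit 0)) (xa T0.l1 T0.l1)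
  (TrL.c (I.pos (nat_lit 0) (nat_lit 0)) T0.l2
  (TrL.c (I.pos (nat_lit 0) (nat_lit 0)) (xa T0.l3 (xb T0.l3 T0.l3))
  (TrL.c (I.pos (nat_lit 0) (nat_lit 0)) T0.l4
  (TrL.c (I.pos (nat_lit 0) (nat_lit 0)) (xa T0.l5 T0.l5)
  TrL.n)))))) (by decide +kernel)
theorem bx0_7 : BoxOK sI cl4 cl4 cl4 t0 t0 b0_7 :=
  box_mk (TrL.c (I.pos (nat_lit 0) (nat_lit 0)) (xb T0.l12 T0.l12)
  (TrL.c (I.pos (nat_lit 0) (nat_lit 0)) T0.l8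
  (TrL.c (I.pos (nat_lit 0) (nat_lit 0)) T0.l9
  (TrL.c (I.pos (nat_lit 0) (nat_lit 0)) T0.l3
  (TrL.c (I.pos (nat_lit 0) (nat_lit 0)) T0.l13
  (TrL.c (I.pos (nat_lit 0) (nat_lit 0)) T0.l5
  TrL.n)))))) (by decide +kernel)
theorem bx0_8 : BoxOK sI cl4 cl4 cl4 t0 t0 b0_8 :=
  box_mk (TrL.c (I.pos (nat_lit 0) (nat_lit 0)) (xa T0.l6 (xb T0.l6 T0.l10))
  (TrL.c (I.pos (nat_lit 0) (nat_lit 0)) T0.l1
  (TrL.c (I.pos (nat_lit 0) (nat_lit 0)) T0.l2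
  (TrL.c (I.pos (nat_lit 0) (nat_lit 0)) T0.l3
  (TrL.c (I.pos (nat_lit 0) (nat_lit 0)) T0.l7
  (TrL.c (I.pos (nat_lit 0) (nat_lit 0)) T0.l5
  TrL.n)))))) (by decide +kernel)
theorem bx0_9 : BoxOK sI cl4 cl4 cl4 t0 t0 b0_9 :=
  box_mk (TrL.c (I.pos (nat_lit 0) (nat_lit 0)) T0.l8
  (TrL.c (I.pos (nat_lit 0) (nat_lit 0)) T0.l9
  TrL.n)) (by decide +kernel)
theorem bx0_10 : BoxOK sI cl4 cl4 cl4 t0 t0 b0_10 :=
  box_mk (TrL.c (I.pos (nat_lit 0) (nat_lit 0)) (xa (xb (xa T0.l10 T0.l10) (xa (xb T0.l10 (xs T0.l0 T0.l10)) (xb T0.l0 (xs T0.l0 T0.l0)))) (xb (xa T0.l0 (xb T0.l0 T0.l0)) (xa (xb T0.l0 (xs T0.l0 T0.l0)) (xb (xs T0.l0 T0.l0) (xs T0.l0 (xa T0.l0 T0.l0))))))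
  (TrL.c (I.pos (nat_lit 0) (nat_lit 0)) (xa (xb T0.l1 (xs T0.l1 T0.l1)) (xb T0.l1 (xs T0.l1 T0.l1)))
  (TrL.c (I.pos (nat_lit 0) (nat_lit 0)) (xa T0.l2 T0.l2)
  (TrL.c (I.pos (nat_lit 0) (nat_lit 0)) (xa T0.l3 (xb (xa T0.l3 T0.l3) (xs T0.l3 (xa T0.l3 T0.l3))))
  (TrL.c (I.pos (nat_lit 0) (nat_lit 0)) (xa T0.l4 T0.l4)
  (TrL.c (I.pos (nat_lit 0) (nat_lit 0)) (xa (xb T0.l5 (xs T0.l5 T0.l5)) (xb T0.l5 (xs T0.l5 T0.l5)))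
  TrL.n)))))) (by decide +kernel)
theorem bx0_11 : BoxOK sI cl4 cl4 cl4 t0 t0 b0_11 :=
  box_mk (TrL.c (I.pos (nat_lit 0) (nat_lit 0)) (xb (xa (xb T0.l12 T0.l12) T0.l12) (xa T0.l12 T0.l12))
  (TrL.c (I.pos (nat_lit 0) (nat_lit 0)) T0.l1
  (TrL.c (I.pos (nat_lit 0) (nat_lit 0)) T0.l2
  (TrL.c (I.pos (nat_lit 0) (nat_lit 0)) T0.l3
  (TrL.c (I.pos (nat_lit 0) (nat_lit 0)) T0.l13
  (TrL.c (I.pos (nat_lit 0) (nat_lit 0)) T0.l5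
  TrL.n)))))) (by decide +kernel)
theorem bx0_12 : BoxOK sI cl4 cl4 cl4 t0 t0 b0_12 :=
  box_mk (TrL.c (I.pos (nat_lit 0) (nat_lit 0)) (xa T0.l3 T0.l3)
  (TrL.c (I.pos (nat_lit 0) (nat_lit 0)) (xa T0.l1 T0.l1)
  (TrL.c (I.pos (nat_lit 0) (nat_lit 0)) T0.l2
  (TrL.c (I.pos (nat_lit 0) (nat_lit 0)) (xa T0.l3 T0.l3)
  (TrL.c (I.pos (nat_lit 0) (nat_lit 0)) T0.l4
  (TrL.c (I.pos (nat_lit 0) (nat_lit 0)) (xa T0.l5 T0.l5)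
  TrL.n)))))) (by decide +kernel)
theorem bx0_13 : BoxOK sI cl4 cl4 cl4 t0 t0 b0_13 :=
  box_mk (TrL.c (I.pos (nat_lit 0) (nat_lit 0)) T0.l12
  (TrL.c (I.pos (nat_lit 0) (nat_lit 0)) T0.l8
  (TrL.c (I.pos (nat_lit 0) (nat_lit 0)) T0.l9
  (TrL.c (I.pos (nat_lit 0) (nat_lit 0)) T0.l3
  (TrL.c (I.pos (nat_lit 0) (nat_lit 0)) T0.l13
  (TrL.c (I.pos (nat_lit 0) (nat_lit 0)) T0.l5
  TrL.n)))))) (by decide +kernel)
theorem bx0_14 : BoxOK sI cl4 cl4 cl4 t0 t0 b0_14 :=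
  box_mk (TrL.c (I.pos (nat_lit 0) (nat_lit 0)) (xa T0.l0 T0.l3)
  (TrL.c (I.pos (nat_lit 0) (nat_lit 0)) T0.l1
  (TrL.c (I.pos (nat_lit 0) (nat_lit 0)) T0.l2
  (TrL.c (I.pos (nat_lit 0) (nat_lit 0)) T0.l3
  (TrL.c (I.pos (nat_lit 0) (nat_lit 0)) T0.l4
  (TrL.c (I.pos (nat_lit 0) (nat_lit 0)) T0.l5
  TrL.n)))))) (by decide +kernel)
theorem bx0_15 : BoxOK sI cl4 cl4 cl4 t0 t0 b0_15 :=
  box_mk (TrL.c (I.pos (nat_lit 0) (nat_lit 0)) T0.l12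
  (TrL.c (I.pos (nat_lit 0) (nat_lit 0)) T0.l1
  (TrL.c (I.pos (nat_lit 0) (nat_lit 0)) T0.l2
  (TrL.c (I.pos (nat_lit 0) (nat_lit 0)) T0.l3
  (TrL.c (I.pos (nat_lit 0) (nat_lit 0)) T0.l13
  (TrL.c (I.pos (nat_lit 0) (nat_lit 0)) T0.l5
  TrL.n)))))) (by decide +kernel)
theorem sv0 : StarV sI cl4 cl4 cl4 t0 t0 t0 :=
  (bt_n (bt_n (bt_n (bt_n (bt_b bx0_0) (bt_b bx0_1)) (bt_n (bt_b bx0_2) (bt_b bx0_3))) (bt_n (bt_n (bt_b bx0_4) (bt_b bx0_5)) (bt_n (bt_b bx0_6) (bt_b bx0_7)))) (bt_n (bt_n (bt_n (bt_b bx0_8) (bt_b bx0_9)) (bt_n (bt_b bx0_10) (bt_b bx0_11))) (bt_n (bt_n (bt_b bx0_12) (bt_b bx0_13)) (bt_n (bt_b bx0_14) (bt_b bx0_15)))))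
def S0 : StarD := StarD.mk cl4 cl4 cl4 0 0 t0
def G : List StarD := [S0]
theorem so0 : StarOK sI G S0 :=
  star_mk (by decide) (by decide) rfl rfl rfl rfl rfl rfl (rfl : _ = t0) (rfl : _ = t0)
  (st_mk (Pth.l (Pth.l (Pth.l (Pth.l Pth.z)))) (nat_lit 399179136) (nat_lit 406210510) (by decide +kernel))
  (st_mk (Pth.l (Pth.l (Pth.l (Pth.l Pth.z)))) (nat_lit 441737712) (nat_lit 450584701) (by decide +kernel))
  (st_mk (Pth.l (Pth.l (Pth.l (Pth.l Pth.z)))) (nat_lit 492040121) (nat_lit 503437606) (by decide +kernel)) sv0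
theorem ok : GroupOK (nat_lit 91226112) (nat_lit 150339584) G := grp_mk (allS_c so0 allS_n)
theorem cov : GCov G cl4 cl4 cl4 := cov_mk
  ⟨0, by decide, rfl, rfl, rfl⟩ ⟨0, by decide, rfl, rfl, rfl⟩ ⟨0, by decide, rfl, rfl, rfl⟩ ⟨0, by decide, rfl, rfl, rfl⟩ ⟨0, by decide, rfl, rfl, rfl⟩ ⟨0, by decide, rfl, rfl, rfl⟩
end Q111_1

namespace Q111_2
def sI : I := I.pos (nat_lit 150274048) (nat_lit 179896320)
def b0_0 : Bx := Bx.mk (St.mk (I.pos (nat_lit 123486208) (nat_lit 217628672)) (I.mix (nat_lit 2785280) (nat_lit 100139008)) (I.mix (nat_lit 3211264) (nat_lit 113360896)) (I.pos (nat_lit 389038080) (nat_lit 513867776)) (I.mix (nat_lit 265469952) (nat_lit 161103872)) (I.mix (nat_lit 177651712) (nat_lit 158154752)) (I.mix (nat_lit 268550144) (nat_lit 253313024)))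
  false (nat_lit 42986936)
def b0_1 : Bx := Bx.mk (St.mk (I.pos (nat_lit 15204352) (nat_lit 100646912)) (I.mix (nat_lit 99958784) (nat_lit 3506176)) (I.mix (nat_lit 79249408) (nat_lit 9338880)) (I.pos (nat_lit 284622848) (nat_lit 336101376)) (I.mix (nat_lit 179027968) (nat_lit 151453696)) (I.mix (nat_lit 147718144) (nat_lit 176422912)) (I.mix (nat_lit 165576704) (nat_lit 163201024)))
  false (nat_lit 107917161)
def b0_2 : Bx := Bx.mk (St.mk (I.mix (nat_lit 53526528) (nat_lit 196608)) (I.mix (nat_lit 20021248) (nat_lit 92405760)) (I.neg (nat_lit 45432832) (nat_lit 73711616)) (I.pos (nat_lit 281378816) (nat_lit 309690368)) (I.mix (nat_lit 126533632) (nat_lit 191758336)) (I.mix (nat_lit 177127424) (nat_lit 135233536)) (I.mix (nat_lit 94027776) (nat_lit 62701568)))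
  true (nat_lit 0)
def b0_3 : Bx := Bx.mk (St.mk (I.pos (nat_lit 93323264) (nat_lit 177094656)) (I.mix (nat_lit 54181888) (nat_lit 79970304)) (I.mix (nat_lit 44515328) (nat_lit 105807872)) (I.pos (nat_lit 327434240) (nat_lit 443269120)) (I.mix (nat_lit 274464768) (nat_lit 166854656)) (I.mix (nat_lit 269402112) (nat_lit 181321728)) (I.mix (nat_lit 276119552) (nat_lit 233570304)))
  false (nat_lit 41061796)
def b0_4 : Bx := Bx.mk (St.mk (I.pos (nat_lit 2621440) (nat_lit 48021504)) (I.neg (nat_lit 27295744) (nat_lit 92405760)) (I.neg (nat_lit 50741248) (nat_lit 73711616)) (I.pos (nat_lit 285278208) (nat_lit 309690368)) (I.mix (nat_lit 191758336) (nat_lit 78708736)) (I.mix (nat_lit 135233536) (nat_lit 169639936)) (I.mix (nat_lit 94027776) (nat_lit 62701568)))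
  false (nat_lit 43215321)
def b0_5 : Bx := Bx.mk (St.mk (I.neg (nat_lit 15187968) (nat_lit 107167744)) (I.mix (nat_lit 4718592) (nat_lit 99958784)) (I.mix (nat_lit 79249408) (nat_lit 9338880)) (I.pos (nat_lit 284622848) (nat_lit 340885504)) (I.mix (nat_lit 151470080) (nat_lit 179044352)) (I.mix (nat_lit 176406528) (nat_lit 147734528)) (I.mix (nat_lit 165593088) (nat_lit 163201024)))
  true (nat_lit 0)
def b0_6 : Bx := Bx.mk (St.mk (I.pos (nat_lit 164069376) (nat_lit 231145472)) (I.mix (nat_lit 27262976) (nat_lit 46137344)) (I.neg (nat_lit 4161536) (nat_lit 130973696)) (I.pos (nat_lit 418742272) (nat_lit 523255808)) (I.mix (nat_lit 231096320) (nat_lit 107577344)) (I.mix (nat_lit 166887424) (nat_lit 181403648)) (I.mix (nat_lit 288473088) (nat_lit 313065472)))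
  false (nat_lit 29356356)
def b0_7 : Bx := Bx.mk (St.mk (I.mix (nat_lit 196608) (nat_lit 39206912)) (I.mix (nat_lit 32325632) (nat_lit 20021248)) (I.neg (nat_lit 45514752) (nat_lit 56655872)) (I.pos (nat_lit 281739264) (nat_lit 293339136)) (I.mix (nat_lit 87080960) (nat_lit 114786304)) (I.mix (nat_lit 100352000) (nat_lit 89538560)) (I.mix (nat_lit 37879808) (nat_lit 26378240)))
  false (nat_lit 0)
def b0_8 : Bx := Bx.mk (St.mk (I.pos (nat_lit 63520768) (nat_lit 107233280)) (I.mix (nat_lit 42663936) (nat_lit 5373952)) (I.mix (nat_lit 34209792) (nat_lit 9355264)) (I.pos (nat_lit 305872896) (nat_lit 341737472)) (I.mix (nat_lit 144834560) (nat_lit 94879744)) (I.mix (nat_lit 104611840) (nat_lit 109903872)) (I.mix (nat_lit 101580800) (nat_lit 95600640)))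
  false (nat_lit 0)
def b0_9 : Bx := Bx.mk (St.mk (I.mix (nat_lit 41140224) (nat_lit 6520832)) (I.mix (nat_lit 22740992) (nat_lit 34684928)) (I.neg (nat_lit 45645824) (nat_lit 56524800)) (I.pos (nat_lit 281903104) (nat_lit 293634048)) (I.mix (nat_lit 114065408) (nat_lit 87916544)) (I.mix (nat_lit 87883776) (nat_lit 96665600)) (I.mix (nat_lit 33980416) (nat_lit 23937024)))
  true (nat_lit 0)
def b0_10 : Bx := Bx.mk (St.mk (I.pos (nat_lit 143245312) (nat_lit 212041728)) (I.pos (nat_lit 11436032) (nat_lit 90914816)) (I.mix (nat_lit 43122688) (nat_lit 86491136)) (I.pos (nat_lit 403193856) (nat_lit 504692736)) (I.mix (nat_lit 224772096) (nat_lit 174473216)) (I.mix (nat_lit 217677824) (nat_lit 175947776)) (I.mix (nat_lit 393904128) (nat_lit 279019520)))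
  false (nat_lit 0)
def b0_11 : Bx := Bx.mk (St.mk (I.pos (nat_lit 1245184) (nat_lit 45563904)) (I.neg (nat_lit 8454144) (nat_lit 73908224)) (I.neg (nat_lit 49037312) (nat_lit 69025792)) (I.pos (nat_lit 282558464) (nat_lit 301858816)) (I.mix (nat_lit 171753472) (nat_lit 126533632)) (I.mix (nat_lit 119783424) (nat_lit 177127424)) (I.mix (nat_lit 71647232) (nat_lit 47759360)))
  false (nat_lit 23970408)
def b0_12 : Bx := Bx.mk (St.mk (I.pos (nat_lit 186171392) (nat_lit 241188864)) (I.mix (nat_lit 30687232) (nat_lit 27377664)) (I.neg (nat_lit 37224448) (nat_lit 141475840)) (I.pos (nat_lit 449232896) (nat_lit 550060032)) (I.mix (nat_lit 199098368) (nat_lit 90243072)) (I.mix (nat_lit 142917632) (nat_lit 148357120)) (I.mix (nat_lit 266928128) (nat_lit 298795008)))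
  false (nat_lit 0)
def b0_13 : Bx := Bx.mk (St.mk (I.mix (nat_lit 5898240) (nat_lit 26918912)) (I.mix (nat_lit 17432576) (nat_lit 22200320)) (I.neg (nat_lit 46219264) (nat_lit 50331648)) (I.pos (nat_lit 282607616) (nat_lit 289308672)) (I.mix (nat_lit 67862528) (nat_lit 87949312)) (I.mix (nat_lit 67977216) (nat_lit 84590592)) (I.mix (nat_lit 14680064) (nat_lit 14663680)))
  false (nat_lit 0)
def b0_14 : Bx := Bx.mk (St.mk (I.pos (nat_lit 181731328) (nat_lit 210190336)) (I.pos (nat_lit 10420224) (nat_lit 37617664)) (I.neg (nat_lit 9060352) (nat_lit 58048512)) (I.pos (nat_lit 445267968) (nat_lit 488112128)) (I.mix (nat_lit 70631424) (nat_lit 1261568)) (I.mix (nat_lit 39059456) (nat_lit 28098560)) (I.mix (nat_lit 73613312) (nat_lit 46317568)))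
  false (nat_lit 0)
def b0_15 : Bx := Bx.mk (St.mk (I.pos (nat_lit 9814016) (nat_lit 30081024)) (I.neg (nat_lit 4407296) (nat_lit 33390592)) (I.neg (nat_lit 49528832) (nat_lit 55902208)) (I.pos (nat_lit 283181056) (nat_lit 290947072)) (I.mix (nat_lit 66076672) (nat_lit 60817408)) (I.mix (nat_lit 60030976) (nat_lit 67829760)) (I.mix (nat_lit 24002560) (nat_lit 12304384)))
  false (nat_lit 0)
def t0 : BTr := (BTr.n (BTr.n (BTr.n (BTr.n (BTr.b b0_0) (BTr.b b0_1)) (BTr.n (BTr.b b0_2) (BTr.b b0_3))) (BTr.n (BTr.n (BTr.b b0_4) (BTr.b b0_5)) (BTr.n (BTr.b b0_6) (BTr.b b0_7)))) (BTr.n (BTr.n (BTr.n (BTr.b b0_8) (BTr.b b0_9)) (BTr.n (BTr.b b0_10) (BTr.b b0_11))) (BTr.n (BTr.n (BTr.b b0_12) (BTr.b b0_13)) (BTr.n (BTr.b b0_14) (BTr.b b0_15)))))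
namespace T0
def l0 : Tr := Tr.L (Pth.l (Pth.l (Pth.l (Pth.l Pth.z))))
def l1 : Tr := Tr.L (Pth.l (Pth.l (Pth.l (Pth.r Pth.z))))
def l2 : Tr := Tr.L (Pth.l (Pth.l (Pth.r (Pth.l Pth.z))))
def l3 : Tr := Tr.L (Pth.l (Pth.l (Pth.r (Pth.r Pth.z))))
def l4 : Tr := Tr.L (Pth.l (Pth.r (Pth.l (Pth.l Pth.z))))
def l5 : Tr := Tr.L (Pth.l (Pth.r (Pth.l (Pth.r Pth.z))))
def l6 : Tr := Tr.L (Pth.l (Pth.r (Pth.r (Pth.l Pth.z))))
def l7 : Tr := Tr.L (Pth.l (Pth.r (Pth.r (Pth.r Pth.z))))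
def l8 : Tr := Tr.L (Pth.r (Pth.l (Pth.l (Pth.l Pth.z))))
def l9 : Tr := Tr.L (Pth.r (Pth.l (Pth.l (Pth.r Pth.z))))
def l10 : Tr := Tr.L (Pth.r (Pth.l (Pth.r (Pth.l Pth.z))))
def l11 : Tr := Tr.L (Pth.r (Pth.l (Pth.r (Pth.r Pth.z))))
def l12 : Tr := Tr.L (Pth.r (Pth.r (Pth.l (Pth.l Pth.z))))
def l13 : Tr := Tr.L (Pth.r (Pth.r (Pth.l (Pth.r Pth.z))))
def l14 : Tr := Tr.L (Pth.r (Pth.r (Pth.r (Pth.l Pth.z))))
def l15 : Tr := Tr.L (Pth.r (Pth.r (Pth.r (Pth.r Pth.z))))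
end T0
theorem bx0_0 : BoxOK sI cl4 cl4 cl4 t0 t0 b0_0 :=
  box_mk (TrL.c (I.pos (nat_lit 0) (nat_lit 0)) (xa (xb (xa T0.l10 (xb T0.l0 T0.l0)) (xa (xb (xa T0.l10 T0.l10) (xa (xb T0.l0 T0.l0) (xb T0.l0 T0.l0))) (xb T0.l0 (xa (xb T0.l0 T0.l0) (xb T0.l0 T0.l0))))) (xb (xa T0.l0 (xb T0.l0 T0.l0)) (xa (xb T0.l0 (xa (xb T0.l0 T0.l0) (xb T0.l0 T0.l0))) (xb T0.l0 (xa T0.l0 T0.l0)))))
  (TrL.c (I.pos (nat_lit 0) (nat_lit 0)) (xa (xb T0.l1 (xa T0.l1 T0.l1)) (xb T0.l1 (xa T0.l1 T0.l1)))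
  (TrL.c (I.pos (nat_lit 0) (nat_lit 0)) (xa T0.l2 (xb T0.l2 (xa T0.l2 T0.l2)))
  (TrL.c (I.pos (nat_lit 0) (nat_lit 0)) (xa (xb T0.l3 (xb T0.l3 T0.l3)) (xb (xa T0.l3 (xb T0.l3 T0.l3)) (xa (xb T0.l3 T0.l3) (xb (xs T0.l3 T0.l3) (xs T0.l3 (xb T0.l3 (xa T0.l3 T0.l3)))))))
  (TrL.c (I.pos (nat_lit 0) (nat_lit 0)) (xa (xb T0.l11 T0.l4) (xb T0.l1 (xa T0.l4 T0.l4)))
  (TrL.c (I.pos (nat_lit 0) (nat_lit 0)) (xa (xb T0.l5 (xa T0.l5 T0.l5)) (xb T0.l5 (xa T0.l5 T0.l5)))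
  TrL.n)))))) (by decide +kernel)
theorem bx0_1 : BoxOK sI cl4 cl4 cl4 t0 t0 b0_1 :=
  box_mk (TrL.c (I.pos (nat_lit 0) (nat_lit 0)) (xb (xa (xb (xa (xb T0.l6 T0.l6) T0.l6) (xa (xb T0.l6 T0.l6) T0.l6)) (xb (xa T0.l6 T0.l6) T0.l6)) (xa (xb (xa (xb T0.l6 T0.l6) T0.l6) (xa (xb T0.l6 T0.l6) T0.l6)) (xb T0.l6 (xa T0.l6 T0.l6))))
  (TrL.c (I.pos (nat_lit 0) (nat_lit 0)) (xb (xa T0.l1 T0.l1) (xa T0.l1 T0.l1))
  (TrL.c (I.pos (nat_lit 0) (nat_lit 0)) (xb (xa T0.l2 T0.l2) (xa T0.l2 T0.l2))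
  (TrL.c (I.pos (nat_lit 0) (nat_lit 0)) (xb (xa T0.l3 T0.l3) T0.l3)
  (TrL.c (I.pos (nat_lit 0) (nat_lit 0)) (xb (xa T0.l7 T0.l7) (xa T0.l7 T0.l7))
  (TrL.c (I.pos (nat_lit 0) (nat_lit 0)) (xb (xa T0.l5 T0.l5) T0.l5)
  TrL.n)))))) (by decide +kernel)
theorem bx0_2 : BoxOK sI cl4 cl4 cl4 t0 t0 b0_2 :=
  box_mk (TrL.c (I.pos (nat_lit 0) (nat_lit 0)) (xb T0.l8 T0.l8)
  (TrL.c (I.pos (nat_lit 0) (nat_lit 0)) (xb T0.l9 T0.l9)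
  TrL.n)) (by decide +kernel)
theorem bx0_3 : BoxOK sI cl4 cl4 cl4 t0 t0 b0_3 :=
  box_mk (TrL.c (I.pos (nat_lit 0) (nat_lit 0)) (xb (xa (xb (xa (xb (xb (xs T0.l10 (xa (xb (xs T0.l10 (xa (xb (xs T0.l10 (xa (xb (xs T0.l10 (xa (xb T0.l10 T0.l10) T0.l10)) T0.l10) T0.l10)) T0.l10) T0.l10)) (xs T0.l10 T0.l10)) (xb T0.l10 T0.l10))) (xs T0.l10 (xa (xb (xs T0.l10 (xa (xb (xs T0.l10 T0.l10) T0.l10) T0.l10)) T0.l10) T0.l10))) T0.l10) (xb T0.l10 T0.l10)) (xa (xb T0.l10 T0.l10) T0.l10)) (xb (xa (xb T0.l10 T0.l10) (xb T0.l10 T0.l10)) (xa T0.l10 (xb T0.l10 T0.l10)))) (xa (xb (xa (xb T0.l10 T0.l10) T0.l10) (xa (xb (xa T0.l10 T0.l10) (xa T0.l10 T0.l10)) (xb T0.l10 (xa T0.l10 T0.l10)))) (xb (xa T0.l10 (xb T0.l10 T0.l10)) (xa (xb T0.l10 (xa T0.l10 T0.l10)) (xb T0.l10 (xa T0.l10 T0.l10))))))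
  (TrL.c (I.pos (nat_lit 0) (nat_lit 0)) (xb (xa T0.l1 (xb T0.l1 T0.l1)) (xa (xb T0.l1 T0.l1) (xb T0.l1 T0.l1)))
  (TrL.c (I.pos (nat_lit 0) (nat_lit 0)) (xb (xa T0.l2 T0.l5) (xa T0.l2 (xc T0.l2 T0.l2)))
  (TrL.c (I.pos (nat_lit 0) (nat_lit 0)) (xb (xa T0.l3 (xb (xa T0.l3 T0.l3) T0.l3)) (xa T0.l3 (xb T0.l3 (xa T0.l3 T0.l3))))
  (TrL.c (I.pos (nat_lit 0) (nat_lit 0)) (xb (xa T0.l11 T0.l1) (xa T0.l11 (xc T0.l11 T0.l11)))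
  (TrL.c (I.pos (nat_lit 0) (nat_lit 0)) (xb (xa T0.l5 (xb T0.l5 T0.l5)) (xa (xb T0.l5 T0.l5) (xb T0.l5 T0.l5)))
  TrL.n)))))) (by decide +kernel)
theorem bx0_4 : BoxOK sI cl4 cl4 cl4 t0 t0 b0_4 :=
  box_mk (TrL.c (I.pos (nat_lit 0) (nat_lit 0)) (xb (xa (xb T0.l12 T0.l12) T0.l6) (xa (xb T0.l6 T0.l6) T0.l6))
  (TrL.c (I.pos (nat_lit 0) (nat_lit 0)) T0.l8
  (TrL.c (I.pos (nat_lit 0) (nat_lit 0)) T0.l9
  (TrL.c (I.pos (nat_lit 0) (nat_lit 0)) T0.l3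
  (TrL.c (I.pos (nat_lit 0) (nat_lit 0)) T0.l13
  (TrL.c (I.pos (nat_lit 0) (nat_lit 0)) T0.l5
  TrL.n)))))) (by decide +kernel)
theorem bx0_5 : BoxOK sI cl4 cl4 cl4 t0 t0 b0_5 :=
  box_mk (TrL.c (I.pos (nat_lit 0) (nat_lit 0)) (xa T0.l1 (xb T0.l1 T0.l8))
  (TrL.c (I.pos (nat_lit 0) (nat_lit 0)) (xb (xa T0.l2 T0.l2) (xa T0.l2 T0.l9))
  TrL.n)) (by decide +kernel)
theorem bx0_6 : BoxOK sI cl4 cl4 cl4 t0 t0 b0_6 :=
  box_mk (TrL.c (I.pos (nat_lit 0) (nat_lit 0)) (xa (xb T0.l0 T0.l0) (xb T0.l3 T0.l3))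
  (TrL.c (I.pos (nat_lit 0) (nat_lit 0)) (xa T0.l1 T0.l1)
  (TrL.c (I.pos (nat_lit 0) (nat_lit 0)) T0.l5
  (TrL.c (I.pos (nat_lit 0) (nat_lit 0)) (xa T0.l3 (xb T0.l3 T0.l3))
  (TrL.c (I.pos (nat_lit 0) (nat_lit 0)) T0.l1
  (TrL.c (I.pos (nat_lit 0) (nat_lit 0)) (xa T0.l5 T0.l5)
  TrL.n)))))) (by decide +kernel)
theorem bx0_7 : BoxOK sI cl4 cl4 cl4 t0 t0 b0_7 :=
  box_mk (TrL.c (I.pos (nat_lit 0) (nat_lit 0)) (xb T0.l12 (xa T0.l12 T0.l12))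
  (TrL.c (I.pos (nat_lit 0) (nat_lit 0)) T0.l8
  (TrL.c (I.pos (nat_lit 0) (nat_lit 0)) T0.l9
  (TrL.c (I.pos (nat_lit 0) (nat_lit 0)) T0.l3
  (TrL.c (I.pos (nat_lit 0) (nat_lit 0)) T0.l13
  (TrL.c (I.pos (nat_lit 0) (nat_lit 0)) T0.l5
  TrL.n)))))) (by decide +kernel)
theorem bx0_8 : BoxOK sI cl4 cl4 cl4 t0 t0 b0_8 :=
  box_mk (TrL.c (I.pos (nat_lit 0) (nat_lit 0)) (xa T0.l6 (xb T0.l6 T0.l10))
  (TrL.c (I.pos (nat_lit 0) (nat_lit 0)) T0.l1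
  (TrL.c (I.pos (nat_lit 0) (nat_lit 0)) T0.l2
  (TrL.c (I.pos (nat_lit 0) (nat_lit 0)) T0.l3
  (TrL.c (I.pos (nat_lit 0) (nat_lit 0)) T0.l15
  (TrL.c (I.pos (nat_lit 0) (nat_lit 0)) T0.l5
  TrL.n)))))) (by decide +kernel)
theorem bx0_9 : BoxOK sI cl4 cl4 cl4 t0 t0 b0_9 :=
  box_mk (TrL.c (I.pos (nat_lit 0) (nat_lit 0)) T0.l8
  (TrL.c (I.pos (nat_lit 0) (nat_lit 0)) T0.l9
  TrL.n)) (by decide +kernel)
theorem bx0_10 : BoxOK sI cl4 cl4 cl4 t0 t0 b0_10 :=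
  box_mk (TrL.c (I.pos (nat_lit 0) (nat_lit 0)) (xa (xb (xa T0.l10 (xb T0.l0 T0.l0)) (xa (xb T0.l10 (xb T0.l0 T0.l0)) (xb T0.l0 (xb T0.l0 T0.l0)))) (xb (xa T0.l0 T0.l0) (xa (xb T0.l0 T0.l0) (xb T0.l0 T0.l0))))
  (TrL.c (I.pos (nat_lit 0) (nat_lit 0)) (xa (xb T0.l1 T0.l1) (xb T0.l1 T0.l1))
  (TrL.c (I.pos (nat_lit 0) (nat_lit 0)) (xa T0.l2 (xb T0.l2 T0.l5))
  (TrL.c (I.pos (nat_lit 0) (nat_lit 0)) (xa (xb T0.l3 (xb T0.l3 (xa T0.l3 (xs T0.l3 T0.l3)))) (xb (xa T0.l3 (xb T0.l3 (xs T0.l3 T0.l3))) (xa (xb (xs T0.l3 T0.l3) (xs T0.l3 (xc T0.l3 T0.l3))) (xb (xs T0.l3 (xc T0.l3 T0.l3)) (xs (xc T0.l3 (xb T0.l3 T0.l3)) (xc (xb T0.l3 T0.l3) (xb T0.l3 T0.l3)))))))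
  (TrL.c (I.pos (nat_lit 0) (nat_lit 0)) (xa (xb T0.l1 T0.l4) (xb T0.l1 T0.l1))
  (TrL.c (I.pos (nat_lit 0) (nat_lit 0)) (xa (xb T0.l5 T0.l5) (xb T0.l5 T0.l5))
  TrL.n)))))) (by decide +kernel)
theorem bx0_11 : BoxOK sI cl4 cl4 cl4 t0 t0 b0_11 :=
  box_mk (TrL.c (I.pos (nat_lit 0) (nat_lit 0)) (xb (xa (xb T0.l12 T0.l12) T0.l12) (xa (xb T0.l12 T0.l12) T0.l6))
  (TrL.c (I.pos (nat_lit 0) (nat_lit 0)) T0.l8
  (TrL.c (I.pos (nat_lit 0) (nat_lit 0)) T0.l2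
  (TrL.c (I.pos (nat_lit 0) (nat_lit 0)) T0.l3
  (TrL.c (I.pos (nat_lit 0) (nat_lit 0)) T0.l7
  (TrL.c (I.pos (nat_lit 0) (nat_lit 0)) T0.l5
  TrL.n)))))) (by decide +kernel)
theorem bx0_12 : BoxOK sI cl4 cl4 cl4 t0 t0 b0_12 :=
  box_mk (TrL.c (I.pos (nat_lit 0) (nat_lit 0)) (xa T0.l3 T0.l3)
  (TrL.c (I.pos (nat_lit 0) (nat_lit 0)) (xa T0.l1 T0.l1)
  (TrL.c (I.pos (nat_lit 0) (nat_lit 0)) T0.l5
  (TrL.c (I.pos (nat_lit 0) (nat_lit 0)) (xa T0.l3 (xb T0.l10 T0.l3))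
  (TrL.c (I.pos (nat_lit 0) (nat_lit 0)) T0.l1
  (TrL.c (I.pos (nat_lit 0) (nat_lit 0)) (xa T0.l5 T0.l5)
  TrL.n)))))) (by decide +kernel)
theorem bx0_13 : BoxOK sI cl4 cl4 cl4 t0 t0 b0_13 :=
  box_mk (TrL.c (I.pos (nat_lit 0) (nat_lit 0)) (xb T0.l12 (xa T0.l12 T0.l12))
  (TrL.c (I.pos (nat_lit 0) (nat_lit 0)) T0.l8
  (TrL.c (I.pos (nat_lit 0) (nat_lit 0)) T0.l9
  (TrL.c (I.pos (nat_lit 0) (nat_lit 0)) T0.l3
  (TrL.c (I.pos (nat_lit 0) (nat_lit 0)) T0.l13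
  (TrL.c (I.pos (nat_lit 0) (nat_lit 0)) T0.l5
  TrL.n)))))) (by decide +kernel)
theorem bx0_14 : BoxOK sI cl4 cl4 cl4 t0 t0 b0_14 :=
  box_mk (TrL.c (I.pos (nat_lit 0) (nat_lit 0)) T0.l0
  (TrL.c (I.pos (nat_lit 0) (nat_lit 0)) T0.l1
  (TrL.c (I.pos (nat_lit 0) (nat_lit 0)) T0.l2
  (TrL.c (I.pos (nat_lit 0) (nat_lit 0)) T0.l3
  (TrL.c (I.pos (nat_lit 0) (nat_lit 0)) T0.l4
  (TrL.c (I.pos (nat_lit 0) (nat_lit 0)) T0.l5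
  TrL.n)))))) (by decide +kernel)
theorem bx0_15 : BoxOK sI cl4 cl4 cl4 t0 t0 b0_15 :=
  box_mk (TrL.c (I.pos (nat_lit 0) (nat_lit 0)) T0.l12
  (TrL.c (I.pos (nat_lit 0) (nat_lit 0)) T0.l1
  (TrL.c (I.pos (nat_lit 0) (nat_lit 0)) T0.l2
  (TrL.c (I.pos (nat_lit 0) (nat_lit 0)) T0.l3
  (TrL.c (I.pos (nat_lit 0) (nat_lit 0)) T0.l13
  (TrL.c (I.pos (nat_lit 0) (nat_lit 0)) T0.l5
  TrL.n)))))) (by decide +kernel)
theorem sv0 : StarV sI cl4 cl4 cl4 t0 t0 t0 :=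
  (bt_n (bt_n (bt_n (bt_n (bt_b bx0_0) (bt_b bx0_1)) (bt_n (bt_b bx0_2) (bt_b bx0_3))) (bt_n (bt_n (bt_b bx0_4) (bt_b bx0_5)) (bt_n (bt_b bx0_6) (bt_b bx0_7)))) (bt_n (bt_n (bt_n (bt_b bx0_8) (bt_b bx0_9)) (bt_n (bt_b bx0_10) (bt_b bx0_11))) (bt_n (bt_n (bt_b bx0_12) (bt_b bx0_13)) (bt_n (bt_b bx0_14) (bt_b bx0_15)))))
def S0 : StarD := StarD.mk cl4 cl4 cl4 0 0 t0
def G : List StarD := [S0]
theorem so0 : StarOK sI G S0 :=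
  star_mk (by decide) (by decide) rfl rfl rfl rfl rfl rfl (rfl : _ = t0) (rfl : _ = t0)
  (st_mk (Pth.l (Pth.l (Pth.l (Pth.l Pth.z)))) (nat_lit 406186521) (nat_lit 409922018) (by decide +kernel))
  (st_mk (Pth.l (Pth.l (Pth.l (Pth.l Pth.z)))) (nat_lit 450558023) (nat_lit 455295645) (by decide +kernel))
  (st_mk (Pth.l (Pth.l (Pth.l (Pth.l Pth.z)))) (nat_lit 503358901) (nat_lit 509548238) (by decide +kernel)) sv0
theorem ok : GroupOK (nat_lit 150274048) (nat_lit 179896320) G := grp_mk (allS_c so0 allS_n)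
theorem cov : GCov G cl4 cl4 cl4 := cov_mk
  ⟨0, by decide, rfl, rfl, rfl⟩ ⟨0, by decide, rfl, rfl, rfl⟩ ⟨0, by decide, rfl, rfl, rfl⟩ ⟨0, by decide, rfl, rfl, rfl⟩ ⟨0, by decide, rfl, rfl, rfl⟩ ⟨0, by decide, rfl, rfl, rfl⟩
end Q111_2

namespace Q111_3
def sI : I := I.pos (nat_lit 179830784) (nat_lit 209387520)
def b0_0 : Bx := Bx.mk (St.mk (I.pos (nat_lit 123125760) (nat_lit 217841664)) (I.mix (nat_lit 2850816) (nat_lit 93913088)) (I.mix (nat_lit 3309568) (nat_lit 108740608)) (I.pos (nat_lit 386580480) (nat_lit 520552448)) (I.mix (nat_lit 257867776) (nat_lit 147996672)) (I.mix (nat_lit 156057600) (nat_lit 144687104)) (I.mix (nat_lit 243302400) (nat_lit 237355008)))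
  false (nat_lit 22181729)
def b0_1 : Bx := Bx.mk (St.mk (I.pos (nat_lit 14073856) (nat_lit 80429056)) (I.neg (nat_lit 34308096) (nat_lit 98238464)) (I.neg (nat_lit 24363008) (nat_lit 79544320)) (I.pos (nat_lit 286048256) (nat_lit 336068608)) (I.mix (nat_lit 175931392) (nat_lit 141967360)) (I.mix (nat_lit 140967936) (nat_lit 137789440)) (I.mix (nat_lit 165806080) (nat_lit 124043264)))
  false (nat_lit 88936538)
def b0_2 : Bx := Bx.mk (St.mk (I.neg (nat_lit 802816) (nat_lit 56541184)) (I.pos (nat_lit 27164672) (nat_lit 89882624)) (I.neg (nat_lit 43974656) (nat_lit 75563008)) (I.pos (nat_lit 285409280) (nat_lit 313786368)) (I.mix (nat_lit 81149952) (nat_lit 192774144)) (I.mix (nat_lit 157532160) (nat_lit 123027456)) (I.mix (nat_lit 100401152) (nat_lit 58572800)))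
  true (nat_lit 0)
def b0_3 : Bx := Bx.mk (St.mk (I.pos (nat_lit 99532800) (nat_lit 175308800)) (I.pos (nat_lit 3506176) (nat_lit 77398016)) (I.pos (nat_lit 14041088) (nat_lit 105644032)) (I.pos (nat_lit 346456064) (nat_lit 449593344)) (I.mix (nat_lit 274661376) (nat_lit 112279552)) (I.mix (nat_lit 253034496) (nat_lit 175243264)) (I.mix (nat_lit 264519680) (nat_lit 233193472)))
  false (nat_lit 5516423)
def b0_4 : Bx := Bx.mk (St.mk (I.pos (nat_lit 802816) (nat_lit 53739520)) (I.neg (nat_lit 27164672) (nat_lit 89882624)) (I.neg (nat_lit 43974656) (nat_lit 75579392)) (I.pos (nat_lit 285409280) (nat_lit 313606144)) (I.mix (nat_lit 192774144) (nat_lit 81051648)) (I.mix (nat_lit 123027456) (nat_lit 157532160)) (I.mix (nat_lit 100401152) (nat_lit 58572800)))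
  false (nat_lit 30380020)
def b0_5 : Bx := Bx.mk (St.mk (I.neg (nat_lit 14057472) (nat_lit 80445440)) (I.pos (nat_lit 34308096) (nat_lit 98238464)) (I.neg (nat_lit 24363008) (nat_lit 79544320)) (I.pos (nat_lit 285982720) (nat_lit 336084992)) (I.mix (nat_lit 141967360) (nat_lit 170622976)) (I.mix (nat_lit 135708672) (nat_lit 139870208)) (I.mix (nat_lit 159956992) (nat_lit 124059648)))
  true (nat_lit 0)
def b0_6 : Bx := Bx.mk (St.mk (I.pos (nat_lit 165249024) (nat_lit 219267072)) (I.mix (nat_lit 26394624) (nat_lit 46235648)) (I.neg (nat_lit 2277376) (nat_lit 127991808)) (I.pos (nat_lit 420855808) (nat_lit 498941952)) (I.mix (nat_lit 233914368) (nat_lit 80904192)) (I.mix (nat_lit 151699456) (nat_lit 153583616)) (I.mix (nat_lit 242335744) (nat_lit 274972672)))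
  false (nat_lit 5811245)
def b0_7 : Bx := Bx.mk (St.mk (I.pos (nat_lit 56197120) (nat_lit 92897280)) (I.mix (nat_lit 47726592) (nat_lit 4325376)) (I.mix (nat_lit 34537472) (nat_lit 6602752)) (I.pos (nat_lit 302825472) (nat_lit 333021184)) (I.mix (nat_lit 151683072) (nat_lit 68157440)) (I.mix (nat_lit 92913664) (nat_lit 107986944)) (I.mix (nat_lit 93192192) (nat_lit 87785472)))
  false (nat_lit 0)
def b0_8 : Bx := Bx.mk (St.mk (I.neg (nat_lit 6569984) (nat_lit 38289408)) (I.mix (nat_lit 19824640) (nat_lit 29638656)) (I.neg (nat_lit 45547520) (nat_lit 56000512)) (I.pos (nat_lit 283099136) (nat_lit 293322752)) (I.mix (nat_lit 115523584) (nat_lit 69042176)) (I.mix (nat_lit 84492288) (nat_lit 90832896)) (I.mix (nat_lit 33816576) (nat_lit 24920064)))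
  true (nat_lit 0)
def b0_9 : Bx := Bx.mk (St.mk (I.pos (nat_lit 105005056) (nat_lit 144703488)) (I.mix (nat_lit 52609024) (nat_lit 7061504)) (I.mix (nat_lit 45236224) (nat_lit 18120704)) (I.pos (nat_lit 341868544) (nat_lit 385138688)) (I.mix (nat_lit 104497152) (nat_lit 134545408)) (I.mix (nat_lit 135856128) (nat_lit 121749504)) (I.mix (nat_lit 149078016) (nat_lit 115507200)))
  false (nat_lit 0)
def b0_10 : Bx := Bx.mk (St.mk (I.pos (nat_lit 6569984) (nat_lit 38289408)) (I.mix (nat_lit 31899648) (nat_lit 19824640)) (I.neg (nat_lit 45547520) (nat_lit 55967744)) (I.pos (nat_lit 283099136) (nat_lit 293322752)) (I.mix (nat_lit 69287936) (nat_lit 115523584)) (I.mix (nat_lit 90832896) (nat_lit 84492288)) (I.mix (nat_lit 33816576) (nat_lit 24920064)))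
  false (nat_lit 0)
def b0_11 : Bx := Bx.mk (St.mk (I.neg (nat_lit 56180736) (nat_lit 92897280)) (I.mix (nat_lit 4341760) (nat_lit 48791552)) (I.mix (nat_lit 35373056) (nat_lit 6602752)) (I.pos (nat_lit 302809088) (nat_lit 333021184)) (I.mix (nat_lit 68173824) (nat_lit 151683072)) (I.mix (nat_lit 107986944) (nat_lit 92913664)) (I.mix (nat_lit 93192192) (nat_lit 87769088)))
  true (nat_lit 0)
def b0_12 : Bx := Bx.mk (St.mk (I.pos (nat_lit 64929792) (nat_lit 104693760)) (I.mix (nat_lit 37617664) (nat_lit 4472832)) (I.mix (nat_lit 29458432) (nat_lit 6340608)) (I.pos (nat_lit 308625408) (nat_lit 341032960)) (I.mix (nat_lit 117686272) (nat_lit 82673664)) (I.mix (nat_lit 81149952) (nat_lit 100057088)) (I.mix (nat_lit 85065728) (nat_lit 79708160)))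
  false (nat_lit 0)
def b0_13 : Bx := Bx.mk (St.mk (I.mix (nat_lit 31227904) (nat_lit 4603904)) (I.mix (nat_lit 21086208) (nat_lit 17252352)) (I.neg (nat_lit 45826048) (nat_lit 51412992)) (I.pos (nat_lit 283164672) (nat_lit 291127296)) (I.mix (nat_lit 93405184) (nat_lit 76546048)) (I.mix (nat_lit 81608704) (nat_lit 72122368)) (I.mix (nat_lit 17301504) (nat_lit 16875520)))
  true (nat_lit 0)
def b0_14 : Bx := Bx.mk (St.mk (I.pos (nat_lit 145948672) (nat_lit 204996608)) (I.pos (nat_lit 13025280) (nat_lit 89931776)) (I.mix (nat_lit 34734080) (nat_lit 85311488)) (I.pos (nat_lit 416415744) (nat_lit 504086528)) (I.mix (nat_lit 199114752) (nat_lit 165855232)) (I.mix (nat_lit 192872448) (nat_lit 159645696)) (I.mix (nat_lit 374095872) (nat_lit 240156672)))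
  false (nat_lit 0)
def b0_15 : Bx := Bx.mk (St.mk (I.pos (nat_lit 39960576) (nat_lit 86327296)) (I.neg (nat_lit 21053440) (nat_lit 86654976)) (I.neg (nat_lit 15466496) (nat_lit 65028096)) (I.pos (nat_lit 297811968) (nat_lit 337248256)) (I.mix (nat_lit 144850944) (nat_lit 147701760)) (I.mix (nat_lit 126631936) (nat_lit 161267712)) (I.mix (nat_lit 129024000) (nat_lit 157335552)))
  false (nat_lit 52252303)
def b0_16 : Bx := Bx.mk (St.mk (I.mix (nat_lit 41287680) (nat_lit 311296)) (I.pos (nat_lit 9175040) (nat_lit 71303168)) (I.neg (nat_lit 49430528) (nat_lit 70549504)) (I.pos (nat_lit 283787264) (nat_lit 302202880)) (I.mix (nat_lit 99778560) (nat_lit 178929664)) (I.mix (nat_lit 171999232) (nat_lit 97337344)) (I.mix (nat_lit 75005952) (nat_lit 45154304)))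
  true (nat_lit 0)
def b0_17 : Bx := Bx.mk (St.mk (I.pos (nat_lit 99205120) (nat_lit 154468352)) (I.mix (nat_lit 17170432) (nat_lit 53559296)) (I.mix (nat_lit 7929856) (nat_lit 77987840)) (I.pos (nat_lit 343326720) (nat_lit 400916480)) (I.mix (nat_lit 247889920) (nat_lit 128204800)) (I.mix (nat_lit 255836160) (nat_lit 132481024)) (I.mix (nat_lit 255492096) (nat_lit 177029120)))
  false (nat_lit 0)
def b0_18 : Bx := Bx.mk (St.mk (I.mix (nat_lit 311296) (nat_lit 41287680)) (I.neg (nat_lit 9175040) (nat_lit 71303168)) (I.neg (nat_lit 49430528) (nat_lit 70549504)) (I.pos (nat_lit 283787264) (nat_lit 302202880)) (I.mix (nat_lit 178929664) (nat_lit 99778560)) (I.mix (nat_lit 97337344) (nat_lit 171999232)) (I.mix (nat_lit 75005952) (nat_lit 45154304)))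
  false (nat_lit 1008762)
def b0_19 : Bx := Bx.mk (St.mk (I.neg (nat_lit 39960576) (nat_lit 86327296)) (I.pos (nat_lit 21053440) (nat_lit 86654976)) (I.neg (nat_lit 15450112) (nat_lit 65028096)) (I.pos (nat_lit 297811968) (nat_lit 337248256)) (I.mix (nat_lit 147750912) (nat_lit 144850944)) (I.mix (nat_lit 161267712) (nat_lit 126664704)) (I.mix (nat_lit 129040384) (nat_lit 157351936)))
  true (nat_lit 0)
def b0_20 : Bx := Bx.mk (St.mk (I.pos (nat_lit 179290112) (nat_lit 239763456)) (I.mix (nat_lit 29196288) (nat_lit 26689536)) (I.neg (nat_lit 37896192) (nat_lit 137592832)) (I.pos (nat_lit 442957824) (nat_lit 551256064)) (I.mix (nat_lit 201703424) (nat_lit 95813632)) (I.mix (nat_lit 145113088) (nat_lit 131203072)) (I.mix (nat_lit 261701632) (nat_lit 256999424)))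
  false (nat_lit 0)
def b0_21 : Bx := Bx.mk (St.mk (I.pos (nat_lit 91488256) (nat_lit 134266880)) (I.neg (nat_lit 5439488) (nat_lit 53264384)) (I.neg (nat_lit 720896) (nat_lit 46088192)) (I.pos (nat_lit 329285632) (nat_lit 372490240)) (I.mix (nat_lit 116736000) (nat_lit 96075776)) (I.mix (nat_lit 123895808) (nat_lit 95649792)) (I.mix (nat_lit 133234688) (nat_lit 77955072)))
  false (nat_lit 0)
def b0_22 : Bx := Bx.mk (St.mk (I.mix (nat_lit 6717440) (nat_lit 30654464)) (I.mix (nat_lit 17383424) (nat_lit 21004288)) (I.neg (nat_lit 45989888) (nat_lit 51380224)) (I.pos (nat_lit 283181056) (nat_lit 290996224)) (I.mix (nat_lit 76529664) (nat_lit 93159424)) (I.mix (nat_lit 72073216) (nat_lit 81379328)) (I.mix (nat_lit 17121280) (nat_lit 16695296)))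
  false (nat_lit 0)
def b0_23 : Bx := Bx.mk (St.mk (I.neg (nat_lit 66240512) (nat_lit 106610688)) (I.mix (nat_lit 3833856) (nat_lit 37634048)) (I.mix (nat_lit 29474816) (nat_lit 5685248)) (I.pos (nat_lit 309526528) (nat_lit 343146496)) (I.mix (nat_lit 82690048) (nat_lit 110264320)) (I.mix (nat_lit 99483648) (nat_lit 81264640)) (I.mix (nat_lit 85180416) (nat_lit 79151104)))
  true (nat_lit 0)
def b0_24 : Bx := Bx.mk (St.mk (I.pos (nat_lit 58703872) (nat_lit 88375296)) (I.neg (nat_lit 8568832) (nat_lit 50823168)) (I.neg (nat_lit 3227648) (nat_lit 36978688)) (I.pos (nat_lit 305692672) (nat_lit 329842688)) (I.mix (nat_lit 94699520) (nat_lit 62652416)) (I.mix (nat_lit 58408960) (nat_lit 77709312)) (I.mix (nat_lit 60309504) (nat_lit 66420736)))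
  false (nat_lit 0)
def b0_25 : Bx := Bx.mk (St.mk (I.neg (nat_lit 8110080) (nat_lit 34390016)) (I.mix (nat_lit 15253504) (nat_lit 33030144)) (I.neg (nat_lit 45891584) (nat_lit 56377344)) (I.pos (nat_lit 283361280) (nat_lit 292634624)) (I.mix (nat_lit 75235328) (nat_lit 69402624)) (I.mix (nat_lit 66895872) (nat_lit 53854208)) (I.mix (nat_lit 23642112) (nat_lit 12402688)))
  true (nat_lit 0)
def b0_26 : Bx := Bx.mk (St.mk (I.pos (nat_lit 178995200) (nat_lit 207405056)) (I.pos (nat_lit 8683520) (nat_lit 39403520)) (I.neg (nat_lit 8749056) (nat_lit 61014016)) (I.pos (nat_lit 447168512) (nat_lit 484507648)) (I.mix (nat_lit 81117184) (nat_lit 5292032)) (I.mix (nat_lit 42975232) (nat_lit 34963456)) (I.mix (nat_lit 81133568) (nat_lit 59113472)))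
  false (nat_lit 0)
def b0_27 : Bx := Bx.mk (St.mk (I.pos (nat_lit 59047936) (nat_lit 85753856)) (I.neg (nat_lit 21708800) (nat_lit 50642944)) (I.neg (nat_lit 13549568) (nat_lit 36831232)) (I.pos (nat_lit 305856512) (nat_lit 328450048)) (I.mix (nat_lit 76103680) (nat_lit 35241984)) (I.mix (nat_lit 43057152) (nat_lit 46022656)) (I.mix (nat_lit 44892160) (nat_lit 37781504)))
  false (nat_lit 0)
def b0_28 : Bx := Bx.mk (St.mk (I.neg (nat_lit 9617408) (nat_lit 29458432)) (I.pos (nat_lit 6078464) (nat_lit 32653312)) (I.neg (nat_lit 49807360) (nat_lit 56246272)) (I.pos (nat_lit 283951104) (nat_lit 291930112)) (I.mix (nat_lit 54657024) (nat_lit 61177856)) (I.mix (nat_lit 54444032) (nat_lit 53886976)) (I.mix (nat_lit 23314432) (nat_lit 9977856)))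
  true (nat_lit 0)
def b0_29 : Bx := Bx.mk (St.mk (I.pos (nat_lit 112885760) (nat_lit 138313728)) (I.mix (nat_lit 22216704) (nat_lit 8044544)) (I.mix (nat_lit 11927552) (nat_lit 19464192)) (I.pos (nat_lit 351338496) (nat_lit 377995264)) (I.mix (nat_lit 88326144) (nat_lit 62865408)) (I.mix (nat_lit 79118336) (nat_lit 72695808)) (I.mix (nat_lit 78823424) (nat_lit 73318400)))
  false (nat_lit 0)
def b0_30 : Bx := Bx.mk (St.mk (I.pos (nat_lit 9551872) (nat_lit 29458432)) (I.neg (nat_lit 5341184) (nat_lit 32636928)) (I.neg (nat_lit 49872896) (nat_lit 56246272)) (I.pos (nat_lit 283836416) (nat_lit 291930112)) (I.mix (nat_lit 61161472) (nat_lit 54607872)) (I.mix (nat_lit 53805056) (nat_lit 54394880)) (I.mix (nat_lit 23265280) (nat_lit 9928704)))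
  false (nat_lit 0)
def b0_31 : Bx := Bx.mk (St.mk (I.neg (nat_lit 59031552) (nat_lit 85753856)) (I.pos (nat_lit 21823488) (nat_lit 50642944)) (I.neg (nat_lit 12500992) (nat_lit 36814848)) (I.pos (nat_lit 305856512) (nat_lit 328450048)) (I.mix (nat_lit 47890432) (nat_lit 92684288)) (I.mix (nat_lit 63389696) (nat_lit 58277888)) (I.mix (nat_lit 60129280) (nat_lit 53886976)))
  true (nat_lit 0)
def b0_32 : Bx := Bx.mk (St.mk (I.pos (nat_lit 85147648) (nat_lit 106070016)) (I.neg (nat_lit 13484032) (nat_lit 36339712)) (I.neg (nat_lit 8454144) (nat_lit 28065792)) (I.pos (nat_lit 323960832) (nat_lit 342654976)) (I.mix (nat_lit 73121792) (nat_lit 39550976)) (I.mix (nat_lit 52232192) (nat_lit 47153152)) (I.mix (nat_lit 55492608) (nat_lit 35192832)))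
  false (nat_lit 0)
def b0_33 : Bx := Bx.mk (St.mk (I.mix (nat_lit 10600448) (nat_lit 6307840)) (I.mix (nat_lit 7585792) (nat_lit 15450112)) (I.neg (nat_lit 47448064) (nat_lit 50331648)) (I.pos (nat_lit 283148288) (nat_lit 287588352)) (I.mix (nat_lit 34357248) (nat_lit 36405248)) (I.mix (nat_lit 25182208) (nat_lit 34816000)) (I.mix (nat_lit 5685248) (nat_lit 1310720)))
  true (nat_lit 0)
def b0_34 : Bx := Bx.mk (St.mk (I.pos (nat_lit 71680000) (nat_lit 106610688)) (I.mix (nat_lit 36274176) (nat_lit 425984)) (I.mix (nat_lit 28000256) (nat_lit 2031616)) (I.pos (nat_lit 313294848) (nat_lit 343146496)) (I.mix (nat_lit 110280704) (nat_lit 82706432)) (I.mix (nat_lit 81264640) (nat_lit 91013120)) (I.mix (nat_lit 85164032) (nat_lit 71090176)))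
  false (nat_lit 0)
def b0_35 : Bx := Bx.mk (St.mk (I.mix (nat_lit 24018944) (nat_lit 6701056)) (I.mix (nat_lit 18546688) (nat_lit 17530880)) (I.neg (nat_lit 45957120) (nat_lit 51068928)) (I.pos (nat_lit 283295744) (nat_lit 290078720)) (I.mix (nat_lit 80281600) (nat_lit 76513280)) (I.mix (nat_lit 72712192) (nat_lit 72089600)) (I.mix (nat_lit 12402688) (nat_lit 12926976)))
  true (nat_lit 0)
def t0 : BTr := (BTr.n (BTr.n (BTr.n (BTr.n (BTr.n (BTr.b b0_0) (BTr.b b0_1)) (BTr.n (BTr.b b0_2) (BTr.b b0_3))) (BTr.n (BTr.n (BTr.b b0_4) (BTr.b b0_5)) (BTr.n (BTr.b b0_6) (BTr.n (BTr.b b0_7) (BTr.b b0_8))))) (BTr.n (BTr.n (BTr.n (BTr.b b0_9) (BTr.b b0_10)) (BTr.n (BTr.b b0_11) (BTr.b b0_12))) (BTr.n (BTr.n (BTr.b b0_13) (BTr.b b0_14)) (BTr.n (BTr.b b0_15) (BTr.n (BTr.b b0_16) (BTr.b b0_17)))))) (BTr.n (BTr.n (BTr.n (BTr.n (BTr.b b0_18) (BTr.b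 b0_19)) (BTr.n (BTr.b b0_20) (BTr.b b0_21))) (BTr.n (BTr.n (BTr.b b0_22) (BTr.b b0_23)) (BTr.n (BTr.b b0_24) (BTr.n (BTr.b b0_25) (BTr.b b0_26))))) (BTr.n (BTr.n (BTr.n (BTr.b b0_27) (BTr.b b0_28)) (BTr.n (BTr.b b0_29) (BTr.b b0_30))) (BTr.n (BTr.n (BTr.b b0_31) (BTr.b b0_32)) (BTr.n (BTr.b b0_33) (BTr.n (BTr.b b0_34) (BTr.b b0_35)))))))
namespace T0
def l0 : Tr := Tr.L (Pth.l (Pth.l (Pth.l (Pth.l (Pth.l Pth.z)))))
def l1 : Tr := Tr.L (Pth.l (Pth.l (Pth.l (Pth.l (Pth.r Pth.z)))))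
def l2 : Tr := Tr.L (Pth.l (Pth.l (Pth.l (Pth.r (Pth.l Pth.z)))))
def l3 : Tr := Tr.L (Pth.l (Pth.l (Pth.l (Pth.r (Pth.r Pth.z)))))
def l4 : Tr := Tr.L (Pth.l (Pth.l (Pth.r (Pth.l (Pth.l Pth.z)))))
def l5 : Tr := Tr.L (Pth.l (Pth.l (Pth.r (Pth.l (Pth.r Pth.z)))))
def l6 : Tr := Tr.L (Pth.l (Pth.l (Pth.r (Pth.r (Pth.l Pth.z)))))
def l7 : Tr := Tr.L (Pth.l (Pth.l (Pth.r (Pth.r (Pth.r (Pth.l Pth.z))))))
def l8 : Tr := Tr.L (Pth.l (Pth.l (Pth.r (Pth.r (Pth.r (Pth.r Pth.z))))))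
def l9 : Tr := Tr.L (Pth.l (Pth.r (Pth.l (Pth.l (Pth.l Pth.z)))))
def l10 : Tr := Tr.L (Pth.l (Pth.r (Pth.l (Pth.l (Pth.r Pth.z)))))
def l11 : Tr := Tr.L (Pth.l (Pth.r (Pth.l (Pth.r (Pth.l Pth.z)))))
def l12 : Tr := Tr.L (Pth.l (Pth.r (Pth.l (Pth.r (Pth.r Pth.z)))))
def l13 : Tr := Tr.L (Pth.l (Pth.r (Pth.r (Pth.l (Pth.l Pth.z)))))
def l14 : Tr := Tr.L (Pth.l (Pth.r (Pth.r (Pth.l (Pth.r Pth.z)))))
def l15 : Tr := Tr.L (Pth.l (Pth.r (Pth.r (Pth.r (Pth.l Pth.z)))))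
def l16 : Tr := Tr.L (Pth.l (Pth.r (Pth.r (Pth.r (Pth.r (Pth.l Pth.z))))))
def l17 : Tr := Tr.L (Pth.l (Pth.r (Pth.r (Pth.r (Pth.r (Pth.r Pth.z))))))
def l18 : Tr := Tr.L (Pth.r (Pth.l (Pth.l (Pth.l (Pth.l Pth.z)))))
def l19 : Tr := Tr.L (Pth.r (Pth.l (Pth.l (Pth.l (Pth.r Pth.z)))))
def l20 : Tr := Tr.L (Pth.r (Pth.l (Pth.l (Pth.r (Pth.l Pth.z)))))
def l21 : Tr := Tr.L (Pth.r (Pth.l (Pth.l (Pth.r (Pth.r Pth.z)))))
def l22 : Tr := Tr.L (Pth.r (Pth.l (Pth.r (Pth.l (Pth.l Pth.z)))))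
def l23 : Tr := Tr.L (Pth.r (Pth.l (Pth.r (Pth.l (Pth.r Pth.z)))))
def l24 : Tr := Tr.L (Pth.r (Pth.l (Pth.r (Pth.r (Pth.l Pth.z)))))
def l25 : Tr := Tr.L (Pth.r (Pth.l (Pth.r (Pth.r (Pth.r (Pth.l Pth.z))))))
def l26 : Tr := Tr.L (Pth.r (Pth.l (Pth.r (Pth.r (Pth.r (Pth.r Pth.z))))))
def l27 : Tr := Tr.L (Pth.r (Pth.r (Pth.l (Pth.l (Pth.l Pth.z)))))
def l28 : Tr := Tr.L (Pth.r (Pth.r (Pth.l (Pth.l (Pth.r Pth.z)))))
def l29 : Tr := Tr.L (Pth.r (Pth.r (Pth.l (Pth.r (Pth.l Pth.z)))))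
def l30 : Tr := Tr.L (Pth.r (Pth.r (Pth.l (Pth.r (Pth.r Pth.z)))))
def l31 : Tr := Tr.L (Pth.r (Pth.r (Pth.r (Pth.l (Pth.l Pth.z)))))
def l32 : Tr := Tr.L (Pth.r (Pth.r (Pth.r (Pth.l (Pth.r Pth.z)))))
def l33 : Tr := Tr.L (Pth.r (Pth.r (Pth.r (Pth.r (Pth.l Pth.z)))))
def l34 : Tr := Tr.L (Pth.r (Pth.r (Pth.r (Pth.r (Pth.r (Pth.l Pth.z))))))
def l35 : Tr := Tr.L (Pth.r (Pth.r (Pth.r (Pth.r (Pth.r (Pth.r Pth.z))))))
end T0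
theorem c0_0_0 : chkTag sI cl4 cl4 cl4 t0 b0_0 (tg true true false RT.r2) (I.pos (nat_lit 0) (nat_lit 0))
  (xa (xb (xa (xb (xa T0.l14 T0.l14) (xa T0.l14 (xb T0.l14 T0.l14))) (xb T0.l0 (xa T0.l0 T0.l0))) (xa (xb (xa (xb T0.l14 T0.l14) (xb T0.l14 (xa T0.l0 T0.l0))) (xa (xb (xa T0.l14 T0.l14) (xa (xb T0.l0 T0.l0) (xb T0.l0 T0.l0))) (xb (xa T0.l0 T0.l0) (xa (xs T0.l0 T0.l0) (xs T0.l0 T0.l0))))) (xb (xa (xb T0.l0 T0.l0) T0.l0) (xa (xb T0.l0 (xa (xs T0.l0 T0.l0) (xs T0.l0 T0.l0))) (xb T0.l0 (xa (xs T0.l0 T0.l0) (xs T0.l0 T0.l0))))))) (xb (xa (xb T0.l0 T0.l0) (xb (xa T0.l0 T0.l0) (xa T0.l0 (xb T0.l0 T0.l0)))) (xa (xb (xa T0.l0 T0.l0) (xa (xb T0.l0 (xs (xa T0.l0 T0.l0) (xa T0.l0 T0.l0))) (xb T0.l0 (xs (xa T0.l0 T0.l0) (xa T0.l0 T0.l0))))) (xb (xa T0.l0 (xb T0.l0 (xa T0.l0 T0.l0))) (xa (xb T0.l0 (xs (xa T0.l0 T0.l0) (xa T0.l0 T0.l0)))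 (xb (xs T0.l0 (xa T0.l0 T0.l0)) (xs (xa T0.l0 T0.l0) (xa T0.l0 T0.l0)))))))) = true := by decide +kernel
theorem c0_0_1 : chkTag sI cl4 cl4 cl4 t0 b0_0 (tg true false false RT.r3) (I.pos (nat_lit 0) (nat_lit 0))
  (xa (xb (xa T0.l15 T0.l1) (xa (xb T0.l1 T0.l1) (xb T0.l1 T0.l1))) (xb (xa T0.l1 T0.l1) (xa (xb T0.l1 T0.l1) (xb T0.l1 (xa T0.l1 T0.l1))))) = true := by decide +kernel
theorem c0_0_2 : chkTag sI cl4 cl4 cl4 t0 b0_0 (tg true true true RT.r4) (I.pos (nat_lit 0) (nat_lit 0))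
  (xa (xb (xa T0.l2 T0.l2) (xa T0.l2 T0.l2)) (xb (xa T0.l2 (xc T0.l2 T0.l2)) (xa (xc T0.l2 T0.l2) (xc (xb T0.l2 T0.l2) (xb T0.l2 T0.l2))))) = true := by decide +kernel
theorem c0_0_3 : chkTag sI cl4 cl4 cl4 t0 b0_0 (tg false false false RT.r3) (I.pos (nat_lit 0) (nat_lit 0))
  (xa (xb (xa T0.l3 T0.l3) (xa (xb T0.l3 T0.l17) T0.l3)) (xb (xa T0.l3 (xb T0.l3 T0.l3)) (xa (xb T0.l3 T0.l3) (xb T0.l3 (xa T0.l3 T0.l3))))) = true := by decide +kernel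
theorem c0_0_4 : chkTag sI cl4 cl4 cl4 t0 b0_0 (tg false true false RT.r4) (I.pos (nat_lit 0) (nat_lit 0))
  (xa (xb (xa T0.l4 T0.l4) (xa T0.l4 T0.l4)) (xb (xa T0.l4 (xc T0.l4 T0.l4)) (xa (xc T0.l4 T0.l4) (xc (xb T0.l4 T0.l4) (xb T0.l4 T0.l4))))) = true := by decide +kernel
theorem c0_0_5 : chkTag sI cl4 cl4 cl4 t0 b0_0 (tg false false true RT.r5) (I.pos (nat_lit 0) (nat_lit 0))
  (xa (xb (xa T0.l19 T0.l5) (xa (xb T0.l5 T0.l5) (xb T0.l5 T0.l5))) (xb (xa T0.l5 (xb T0.l5 T0.l5)) (xa (xb T0.l5 T0.l5) (xb T0.l5 (xa T0.l5 T0.l5))))) = true := by decide +kernel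
theorem bx0_0 : BoxOK sI cl4 cl4 cl4 t0 t0 b0_0 :=
  box_mk' [(tg true true false RT.r2), (tg true false false RT.r3), (tg true true true RT.r4), (tg false false false RT.r3), (tg false true false RT.r4), (tg false false true RT.r5)] rfl (allL_c (ex_mk c0_0_0) (allL_c (ex_mk c0_0_1) (allL_c (ex_mk c0_0_2) (allL_c (ex_mk c0_0_3) (allL_c (ex_mk c0_0_4) (allL_c (ex_mk c0_0_5) allL_n))))))
theorem bx0_1 : BoxOK sI cl4 cl4 cl4 t0 t0 b0_1 :=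
  box_mk (TrL.c (I.pos (nat_lit 0) (nat_lit 0)) (xa (xb (xb (xa T0.l6 T0.l6) (xa T0.l6 T0.l6)) (xa (xb T0.l6 T0.l6) (xb T0.l6 T0.l6))) (xb (xa T0.l6 (xb T0.l6 T0.l6)) (xa T0.l6 T0.l6)))
  (TrL.c (I.pos (nat_lit 0) (nat_lit 0)) (xb T0.l7 T0.l7)
  (TrL.c (I.pos (nat_lit 0) (nat_lit 0)) (xb (xa T0.l8 T0.l8) T0.l8)
  (TrL.c (I.pos (nat_lit 0) (nat_lit 0)) (xb (xa T0.l9 T0.l9) (xa T0.l9 T0.l9))
  (TrL.c (I.pos (nat_lit 0) (nat_lit 0)) (xb (xa T0.l10 T0.l10) T0.l10)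
  (TrL.c (I.pos (nat_lit 0) (nat_lit 0)) (xb T0.l11 T0.l11)
  TrL.n)))))) (by decide +kernel)
theorem bx0_2 : BoxOK sI cl4 cl4 cl4 t0 t0 b0_2 :=
  box_mk (TrL.c (I.pos (nat_lit 0) (nat_lit 0)) (xb T0.l12 T0.l12)
  (TrL.c (I.pos (nat_lit 0) (nat_lit 0)) (xb T0.l13 T0.l13)
  TrL.n)) (by decide +kernel)
theorem bx0_3 : BoxOK sI cl4 cl4 cl4 t0 t0 b0_3 :=
  box_mk (TrL.c (I.pos (nat_lit 0) (nat_lit 0)) (xa (xb (xa (xb (xa T0.l14 T0.l14) (xa T0.l14 T0.l14)) (xb T0.l14 T0.l14)) (xa (xb (xa (xb T0.l14 T0.l14) T0.l14) (xa (xb T0.l14 T0.l14) (xb T0.l14 T0.l14))) (xb (xa T0.l14 T0.l14) (xa (xb T0.l14 T0.l14) T0.l14)))) (xb (xa (xb T0.l14 T0.l14) (xb (xa T0.l14 T0.l14) (xa T0.l14 T0.l14))) (xa (xb (xa T0.l14 T0.l14) (xa (xb T0.l14 T0.l14) (xb T0.l14 T0.l14))) (xb (xa T0.l14 (xb T0.l14 T0.l14)) (xa (xb T0.l14 T0.l14) (xb T0.l14 T0.l14))))))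
  (TrL.c (I.pos (nat_lit 0) (nat_lit 0)) (xa (xb T0.l15 (xa T0.l15 T0.l15)) (xb (xa T0.l15 T0.l15) (xa T0.l15 T0.l15)))
  (TrL.c (I.pos (nat_lit 0) (nat_lit 0)) (xa (xb T0.l16 T0.l16) (xb T0.l16 (xc T0.l16 T0.l16)))
  (TrL.c (I.pos (nat_lit 0) (nat_lit 0)) (xa (xb T0.l17 T0.l17) (xb (xa T0.l17 T0.l17) (xa T0.l17 T0.l17)))
  (TrL.c (I.pos (nat_lit 0) (nat_lit 0)) (xa (xb T0.l18 T0.l18) (xb T0.l18 (xc T0.l18 T0.l18)))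
  (TrL.c (I.pos (nat_lit 0) (nat_lit 0)) (xa (xb T0.l19 (xa T0.l19 T0.l19)) (xb (xa T0.l19 T0.l19) (xa T0.l19 T0.l19)))
  TrL.n)))))) (by decide +kernel)
theorem bx0_4 : BoxOK sI cl4 cl4 cl4 t0 t0 b0_4 :=
  box_mk (TrL.c (I.pos (nat_lit 0) (nat_lit 0)) (xb (xa (xb (xa T0.l20 T0.l20) T0.l20) (xb T0.l6 T0.l6)) (xa (xb (xa T0.l20 T0.l20) (xa T0.l20 T0.l20)) (xb T0.l20 T0.l20)))
  (TrL.c (I.pos (nat_lit 0) (nat_lit 0)) (xb T0.l7 T0.l12)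
  (TrL.c (I.pos (nat_lit 0) (nat_lit 0)) (xb T0.l13 T0.l13)
  (TrL.c (I.pos (nat_lit 0) (nat_lit 0)) (xb T0.l21 T0.l21)
  (TrL.c (I.pos (nat_lit 0) (nat_lit 0)) (xb T0.l22 T0.l22)
  (TrL.c (I.pos (nat_lit 0) (nat_lit 0)) (xb T0.l11 T0.l23)
  TrL.n)))))) (by decide +kernel)
theorem bx0_5 : BoxOK sI cl4 cl4 cl4 t0 t0 b0_5 :=
  box_mk (TrL.c (I.pos (nat_lit 0) (nat_lit 0)) (xb T0.l7 T0.l7)
  (TrL.c (I.pos (nat_lit 0) (nat_lit 0)) (xb T0.l8 (xa T0.l8 T0.l8))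
  TrL.n)) (by decide +kernel)
theorem bx0_6 : BoxOK sI cl4 cl4 cl4 t0 t0 b0_6 :=
  box_mk (TrL.c (I.pos (nat_lit 0) (nat_lit 0)) (xb (xa (xb T0.l0 T0.l0) (xb T0.l0 T0.l0)) (xa (xb T0.l0 T0.l0) (xb T0.l0 T0.l0)))
  (TrL.c (I.pos (nat_lit 0) (nat_lit 0)) (xb (xa T0.l1 T0.l1) (xa T0.l1 T0.l1))
  (TrL.c (I.pos (nat_lit 0) (nat_lit 0)) (xa T0.l2 (xb T0.l5 T0.l2))
  (TrL.c (I.pos (nat_lit 0) (nat_lit 0)) (xb (xa (xb T0.l3 T0.l3) T0.l3) T0.l3)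
  (TrL.c (I.pos (nat_lit 0) (nat_lit 0)) (xa T0.l4 (xb T0.l1 T0.l4))
  (TrL.c (I.pos (nat_lit 0) (nat_lit 0)) (xb (xa T0.l5 T0.l5) (xa T0.l5 T0.l5))
  TrL.n)))))) (by decide +kernel)
theorem bx0_7 : BoxOK sI cl4 cl4 cl4 t0 t0 b0_7 :=
  box_mk (TrL.c (I.pos (nat_lit 0) (nat_lit 0)) (xb T0.l6 (xa T0.l6 T0.l6))
  (TrL.c (I.pos (nat_lit 0) (nat_lit 0)) T0.l7
  (TrL.c (I.pos (nat_lit 0) (nat_lit 0)) T0.l25
  (TrL.c (I.pos (nat_lit 0) (nat_lit 0)) T0.l9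
  (TrL.c (I.pos (nat_lit 0) (nat_lit 0)) T0.l10
  (TrL.c (I.pos (nat_lit 0) (nat_lit 0)) T0.l11
  TrL.n)))))) (by decide +kernel)
theorem bx0_8 : BoxOK sI cl4 cl4 cl4 t0 t0 b0_8 :=
  box_mk (TrL.c (I.pos (nat_lit 0) (nat_lit 0)) T0.l12
  (TrL.c (I.pos (nat_lit 0) (nat_lit 0)) T0.l13
  TrL.n)) (by decide +kernel)
theorem bx0_9 : BoxOK sI cl4 cl4 cl4 t0 t0 b0_9 :=
  box_mk (TrL.c (I.pos (nat_lit 0) (nat_lit 0)) (xb (xa T0.l14 T0.l14) T0.l14)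
  (TrL.c (I.pos (nat_lit 0) (nat_lit 0)) (xb T0.l15 T0.l15)
  (TrL.c (I.pos (nat_lit 0) (nat_lit 0)) T0.l16
  (TrL.c (I.pos (nat_lit 0) (nat_lit 0)) (xb T0.l17 T0.l17)
  (TrL.c (I.pos (nat_lit 0) (nat_lit 0)) T0.l18
  (TrL.c (I.pos (nat_lit 0) (nat_lit 0)) (xb T0.l19 T0.l19)
  TrL.n)))))) (by decide +kernel)
theorem bx0_10 : BoxOK sI cl4 cl4 cl4 t0 t0 b0_10 :=
  box_mk (TrL.c (I.pos (nat_lit 0) (nat_lit 0)) (xb T0.l20 (xa T0.l20 T0.l20))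
  (TrL.c (I.pos (nat_lit 0) (nat_lit 0)) T0.l12
  (TrL.c (I.pos (nat_lit 0) (nat_lit 0)) T0.l35
  (TrL.c (I.pos (nat_lit 0) (nat_lit 0)) T0.l21
  (TrL.c (I.pos (nat_lit 0) (nat_lit 0)) T0.l22
  (TrL.c (I.pos (nat_lit 0) (nat_lit 0)) T0.l23
  TrL.n)))))) (by decide +kernel)
theorem bx0_11 : BoxOK sI cl4 cl4 cl4 t0 t0 b0_11 :=
  box_mk (TrL.c (I.pos (nat_lit 0) (nat_lit 0)) T0.l24
  (TrL.c (I.pos (nat_lit 0) (nat_lit 0)) T0.l25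
  TrL.n)) (by decide +kernel)
theorem bx0_12 : BoxOK sI cl4 cl4 cl4 t0 t0 b0_12 :=
  box_mk (TrL.c (I.pos (nat_lit 0) (nat_lit 0)) (xa T0.l6 (xb T0.l6 T0.l14))
  (TrL.c (I.pos (nat_lit 0) (nat_lit 0)) T0.l24
  (TrL.c (I.pos (nat_lit 0) (nat_lit 0)) T0.l28
  (TrL.c (I.pos (nat_lit 0) (nat_lit 0)) T0.l29
  (TrL.c (I.pos (nat_lit 0) (nat_lit 0)) T0.l30
  (TrL.c (I.pos (nat_lit 0) (nat_lit 0)) T0.l31
  TrL.n)))))) (by decide +kernel)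
theorem bx0_13 : BoxOK sI cl4 cl4 cl4 t0 t0 b0_13 :=
  box_mk (TrL.c (I.pos (nat_lit 0) (nat_lit 0)) T0.l32
  (TrL.c (I.pos (nat_lit 0) (nat_lit 0)) T0.l35
  TrL.n)) (by decide +kernel)
theorem bx0_14 : BoxOK sI cl4 cl4 cl4 t0 t0 b0_14 :=
  box_mk (TrL.c (I.pos (nat_lit 0) (nat_lit 0)) (xb (xa (xb (xa (xb T0.l0 T0.l0) (xb T0.l0 T0.l0)) (xa (xb (xa T0.l0 T0.l0) (xa T0.l0 T0.l0)) (xb T0.l0 T0.l0))) (xb (xa T0.l0 T0.l0) (xa (xb T0.l0 T0.l0) T0.l0))) (xa (xb (xa (xb (xa T0.l0 T0.l0) (xa T0.l0 T0.l0)) (xb T0.l0 (xa T0.l0 T0.l0))) (xa (xb (xa (xs T0.l0 T0.l0) T0.l0) (xa (xs T0.l0 T0.l0) T0.l0)) (xb (xa T0.l0 T0.l0) (xa T0.l0 T0.l0)))) (xb (xa (xb T0.l0 T0.l0) (xb T0.l0 T0.l0)) (xa (xb T0.l0 (xa T0.l0 T0.l0)) (xb T0.l0 (xa T0.l0 T0.l0))))))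
  (TrL.c (I.pos (nat_lit 0) (nat_lit 0)) (xa (xb T0.l1 (xb T0.l1 T0.l1)) (xb (xb T0.l1 T0.l1) (xb T0.l1 T0.l1)))
  (TrL.c (I.pos (nat_lit 0) (nat_lit 0)) (xa (xb T0.l5 T0.l2) (xb (xc T0.l5 T0.l5) (xc T0.l2 (xb T0.l2 T0.l2))))
  (TrL.c (I.pos (nat_lit 0) (nat_lit 0)) (xb (xa (xb T0.l3 T0.l3) (xb T0.l3 T0.l3)) (xa T0.l3 (xb T0.l3 T0.l3)))
  (TrL.c (I.pos (nat_lit 0) (nat_lit 0)) (xa (xb T0.l1 T0.l4) (xb (xc T0.l1 T0.l1) (xc T0.l4 (xb T0.l4 T0.l4))))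
  (TrL.c (I.pos (nat_lit 0) (nat_lit 0)) (xb (xa (xb T0.l5 T0.l5) (xb T0.l5 T0.l5)) (xa (xb T0.l5 T0.l5) (xb T0.l5 (xa T0.l5 T0.l5))))
  TrL.n)))))) (by decide +kernel)
theorem bx0_15 : BoxOK sI cl4 cl4 cl4 t0 t0 b0_15 :=
  box_mk (TrL.c (I.pos (nat_lit 0) (nat_lit 0)) (xb (xa (xb T0.l6 T0.l6) (xb T0.l6 T0.l6)) (xa (xb T0.l6 T0.l6) (xb T0.l6 T0.l6)))
  (TrL.c (I.pos (nat_lit 0) (nat_lit 0)) (xb T0.l7 T0.l7)
  (TrL.c (I.pos (nat_lit 0) (nat_lit 0)) (xb T0.l8 T0.l8)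
  (TrL.c (I.pos (nat_lit 0) (nat_lit 0)) (xb T0.l9 T0.l9)
  (TrL.c (I.pos (nat_lit 0) (nat_lit 0)) (xb T0.l10 T0.l10)
  (TrL.c (I.pos (nat_lit 0) (nat_lit 0)) (xb T0.l11 T0.l11)
  TrL.n)))))) (by decide +kernel)
theorem bx0_16 : BoxOK sI cl4 cl4 cl4 t0 t0 b0_16 :=
  box_mk (TrL.c (I.pos (nat_lit 0) (nat_lit 0)) T0.l34
  (TrL.c (I.pos (nat_lit 0) (nat_lit 0)) T0.l13
  TrL.n)) (by decide +kernel)
theorem bx0_17 : BoxOK sI cl4 cl4 cl4 t0 t0 b0_17 :=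
  box_mk (TrL.c (I.pos (nat_lit 0) (nat_lit 0)) (xb (xa (xb (xa T0.l14 T0.l14) (xa T0.l14 T0.l14)) (xb (xa T0.l14 T0.l14) (xa T0.l14 T0.l14))) (xa (xb (xa T0.l14 T0.l14) (xa (xb T0.l14 T0.l14) T0.l14)) (xb (xa T0.l14 T0.l14) (xa T0.l14 T0.l14))))
  (TrL.c (I.pos (nat_lit 0) (nat_lit 0)) (xb (xa T0.l15 T0.l15) (xa T0.l15 T0.l15))
  (TrL.c (I.pos (nat_lit 0) (nat_lit 0)) (xb (xa T0.l16 T0.l16) T0.l16)
  (TrL.c (I.pos (nat_lit 0) (nat_lit 0)) (xb (xa T0.l17 T0.l17) T0.l17)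
  (TrL.c (I.pos (nat_lit 0) (nat_lit 0)) (xb (xa T0.l18 T0.l18) T0.l18)
  (TrL.c (I.pos (nat_lit 0) (nat_lit 0)) (xb (xa T0.l19 T0.l19) (xa T0.l19 T0.l19))
  TrL.n)))))) (by decide +kernel)
theorem bx0_18 : BoxOK sI cl4 cl4 cl4 t0 t0 b0_18 :=
  box_mk (TrL.c (I.pos (nat_lit 0) (nat_lit 0)) (xb (xa (xb T0.l20 T0.l20) T0.l20) (xa (xb T0.l20 T0.l20) (xb T0.l20 T0.l20)))
  (TrL.c (I.pos (nat_lit 0) (nat_lit 0)) T0.l34
  (TrL.c (I.pos (nat_lit 0) (nat_lit 0)) T0.l13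
  (TrL.c (I.pos (nat_lit 0) (nat_lit 0)) (xb T0.l21 T0.l21)
  (TrL.c (I.pos (nat_lit 0) (nat_lit 0)) T0.l22
  (TrL.c (I.pos (nat_lit 0) (nat_lit 0)) T0.l23
  TrL.n)))))) (by decide +kernel)
theorem bx0_19 : BoxOK sI cl4 cl4 cl4 t0 t0 b0_19 :=
  box_mk (TrL.c (I.pos (nat_lit 0) (nat_lit 0)) (xb T0.l7 T0.l7)
  (TrL.c (I.pos (nat_lit 0) (nat_lit 0)) (xb T0.l8 T0.l8)
  TrL.n)) (by decide +kernel)
theorem bx0_20 : BoxOK sI cl4 cl4 cl4 t0 t0 b0_20 :=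
  box_mk (TrL.c (I.pos (nat_lit 0) (nat_lit 0)) (xa (xb T0.l0 T0.l0) (xb T0.l3 T0.l3))
  (TrL.c (I.pos (nat_lit 0) (nat_lit 0)) (xa (xb T0.l1 T0.l1) (xb T0.l1 T0.l1))
  (TrL.c (I.pos (nat_lit 0) (nat_lit 0)) (xa (xb T0.l5 T0.l5) T0.l5)
  (TrL.c (I.pos (nat_lit 0) (nat_lit 0)) (xa T0.l3 (xb (xa T0.l3 T0.l3) T0.l3))
  (TrL.c (I.pos (nat_lit 0) (nat_lit 0)) (xa (xb T0.l1 T0.l1) T0.l1)
  (TrL.c (I.pos (nat_lit 0) (nat_lit 0)) (xa (xb T0.l5 T0.l5) (xb T0.l5 T0.l5))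
  TrL.n)))))) (by decide +kernel)
theorem bx0_21 : BoxOK sI cl4 cl4 cl4 t0 t0 b0_21 :=
  box_mk (TrL.c (I.pos (nat_lit 0) (nat_lit 0)) (xb (xa T0.l6 T0.l14) (xa T0.l14 T0.l14))
  (TrL.c (I.pos (nat_lit 0) (nat_lit 0)) (xb T0.l15 T0.l15)
  (TrL.c (I.pos (nat_lit 0) (nat_lit 0)) T0.l16
  (TrL.c (I.pos (nat_lit 0) (nat_lit 0)) (xb T0.l17 T0.l17)
  (TrL.c (I.pos (nat_lit 0) (nat_lit 0)) T0.l18
  (TrL.c (I.pos (nat_lit 0) (nat_lit 0)) (xb T0.l19 T0.l19)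
  TrL.n)))))) (by decide +kernel)
theorem bx0_22 : BoxOK sI cl4 cl4 cl4 t0 t0 b0_22 :=
  box_mk (TrL.c (I.pos (nat_lit 0) (nat_lit 0)) (xb T0.l20 (xa T0.l20 T0.l20))
  (TrL.c (I.pos (nat_lit 0) (nat_lit 0)) T0.l34
  (TrL.c (I.pos (nat_lit 0) (nat_lit 0)) T0.l35
  (TrL.c (I.pos (nat_lit 0) (nat_lit 0)) T0.l21
  (TrL.c (I.pos (nat_lit 0) (nat_lit 0)) T0.l22
  (TrL.c (I.pos (nat_lit 0) (nat_lit 0)) T0.l23
  TrL.n)))))) (by decide +kernel)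
theorem bx0_23 : BoxOK sI cl4 cl4 cl4 t0 t0 b0_23 :=
  box_mk (TrL.c (I.pos (nat_lit 0) (nat_lit 0)) T0.l24
  (TrL.c (I.pos (nat_lit 0) (nat_lit 0)) T0.l25
  TrL.n)) (by decide +kernel)
theorem bx0_24 : BoxOK sI cl4 cl4 cl4 t0 t0 b0_24 :=
  box_mk (TrL.c (I.pos (nat_lit 0) (nat_lit 0)) T0.l6
  (TrL.c (I.pos (nat_lit 0) (nat_lit 0)) T0.l7
  (TrL.c (I.pos (nat_lit 0) (nat_lit 0)) T0.l8
  (TrL.c (I.pos (nat_lit 0) (nat_lit 0)) T0.l9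
  (TrL.c (I.pos (nat_lit 0) (nat_lit 0)) T0.l10
  (TrL.c (I.pos (nat_lit 0) (nat_lit 0)) T0.l11
  TrL.n)))))) (by decide +kernel)
theorem bx0_25 : BoxOK sI cl4 cl4 cl4 t0 t0 b0_25 :=
  box_mk (TrL.c (I.pos (nat_lit 0) (nat_lit 0)) T0.l12
  (TrL.c (I.pos (nat_lit 0) (nat_lit 0)) T0.l13
  TrL.n)) (by decide +kernel)
theorem bx0_26 : BoxOK sI cl4 cl4 cl4 t0 t0 b0_26 :=
  box_mk (TrL.c (I.pos (nat_lit 0) (nat_lit 0)) T0.l0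
  (TrL.c (I.pos (nat_lit 0) (nat_lit 0)) T0.l1
  (TrL.c (I.pos (nat_lit 0) (nat_lit 0)) T0.l2
  (TrL.c (I.pos (nat_lit 0) (nat_lit 0)) T0.l3
  (TrL.c (I.pos (nat_lit 0) (nat_lit 0)) T0.l4
  (TrL.c (I.pos (nat_lit 0) (nat_lit 0)) T0.l5
  TrL.n)))))) (by decide +kernel)
theorem bx0_27 : BoxOK sI cl4 cl4 cl4 t0 t0 b0_27 :=
  box_mk (TrL.c (I.pos (nat_lit 0) (nat_lit 0)) T0.l6
  (TrL.c (I.pos (nat_lit 0) (nat_lit 0)) T0.l7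
  (TrL.c (I.pos (nat_lit 0) (nat_lit 0)) T0.l8
  (TrL.c (I.pos (nat_lit 0) (nat_lit 0)) T0.l9
  (TrL.c (I.pos (nat_lit 0) (nat_lit 0)) T0.l10
  (TrL.c (I.pos (nat_lit 0) (nat_lit 0)) T0.l11
  TrL.n)))))) (by decide +kernel)
theorem bx0_28 : BoxOK sI cl4 cl4 cl4 t0 t0 b0_28 :=
  box_mk (TrL.c (I.pos (nat_lit 0) (nat_lit 0)) T0.l12
  (TrL.c (I.pos (nat_lit 0) (nat_lit 0)) T0.l13
  TrL.n)) (by decide +kernel)
theorem bx0_29 : BoxOK sI cl4 cl4 cl4 t0 t0 b0_29 :=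
  box_mk (TrL.c (I.pos (nat_lit 0) (nat_lit 0)) T0.l14
  (TrL.c (I.pos (nat_lit 0) (nat_lit 0)) T0.l15
  (TrL.c (I.pos (nat_lit 0) (nat_lit 0)) T0.l16
  (TrL.c (I.pos (nat_lit 0) (nat_lit 0)) T0.l17
  (TrL.c (I.pos (nat_lit 0) (nat_lit 0)) T0.l18
  (TrL.c (I.pos (nat_lit 0) (nat_lit 0)) T0.l19
  TrL.n)))))) (by decide +kernel)
theorem bx0_30 : BoxOK sI cl4 cl4 cl4 t0 t0 b0_30 :=
  box_mk (TrL.c (I.pos (nat_lit 0) (nat_lit 0)) T0.l20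
  (TrL.c (I.pos (nat_lit 0) (nat_lit 0)) T0.l34
  (TrL.c (I.pos (nat_lit 0) (nat_lit 0)) T0.l35
  (TrL.c (I.pos (nat_lit 0) (nat_lit 0)) T0.l21
  (TrL.c (I.pos (nat_lit 0) (nat_lit 0)) T0.l22
  (TrL.c (I.pos (nat_lit 0) (nat_lit 0)) T0.l23
  TrL.n)))))) (by decide +kernel)
theorem bx0_31 : BoxOK sI cl4 cl4 cl4 t0 t0 b0_31 :=
  box_mk (TrL.c (I.pos (nat_lit 0) (nat_lit 0)) T0.l24
  (TrL.c (I.pos (nat_lit 0) (nat_lit 0)) T0.l25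
  TrL.n)) (by decide +kernel)
theorem bx0_32 : BoxOK sI cl4 cl4 cl4 t0 t0 b0_32 :=
  box_mk (TrL.c (I.pos (nat_lit 0) (nat_lit 0)) T0.l6
  (TrL.c (I.pos (nat_lit 0) (nat_lit 0)) T0.l27
  (TrL.c (I.pos (nat_lit 0) (nat_lit 0)) T0.l28
  (TrL.c (I.pos (nat_lit 0) (nat_lit 0)) T0.l29
  (TrL.c (I.pos (nat_lit 0) (nat_lit 0)) T0.l30
  (TrL.c (I.pos (nat_lit 0) (nat_lit 0)) T0.l31
  TrL.n)))))) (by decide +kernel)
theorem bx0_33 : BoxOK sI cl4 cl4 cl4 t0 t0 b0_33 :=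
  box_mk (TrL.c (I.pos (nat_lit 0) (nat_lit 0)) T0.l32
  (TrL.c (I.pos (nat_lit 0) (nat_lit 0)) T0.l33
  TrL.n)) (by decide +kernel)
theorem bx0_34 : BoxOK sI cl4 cl4 cl4 t0 t0 b0_34 :=
  box_mk (TrL.c (I.pos (nat_lit 0) (nat_lit 0)) (xa T0.l6 T0.l6)
  (TrL.c (I.pos (nat_lit 0) (nat_lit 0)) T0.l15
  (TrL.c (I.pos (nat_lit 0) (nat_lit 0)) T0.l25
  (TrL.c (I.pos (nat_lit 0) (nat_lit 0)) T0.l9
  (TrL.c (I.pos (nat_lit 0) (nat_lit 0)) T0.l10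
  (TrL.c (I.pos (nat_lit 0) (nat_lit 0)) T0.l11
  TrL.n)))))) (by decide +kernel)
theorem bx0_35 : BoxOK sI cl4 cl4 cl4 t0 t0 b0_35 :=
  box_mk (TrL.c (I.pos (nat_lit 0) (nat_lit 0)) T0.l34
  (TrL.c (I.pos (nat_lit 0) (nat_lit 0)) T0.l35
  TrL.n)) (by decide +kernel)
theorem sv0 : StarV sI cl4 cl4 cl4 t0 t0 t0 :=
  (bt_n (bt_n (bt_n (bt_n (bt_n (bt_b bx0_0) (bt_b bx0_1)) (bt_n (bt_b bx0_2) (bt_b bx0_3))) (bt_n (bt_n (bt_b bx0_4) (bt_b bx0_5)) (bt_n (bt_b bx0_6) (bt_n (bt_b bx0_7) (bt_b bx0_8))))) (bt_n (bt_n (bt_n (bt_b bx0_9) (bt_b bx0_10)) (bt_n (bt_b bx0_11) (bt_b bx0_12))) (bt_n (bt_n (bt_b bx0_13) (bt_b bx0_14)) (bt_n (bt_b bx0_15) (bt_n (bt_b bx0_16) (bt_b bx0_17)))))) (bt_n (bt_n (bt_n (bt_n (bt_b bx0_18) (bt_b bx0_19)) (bt_n (bt_b bx0_20) (bt_b bx0_21))) (bt_n (bt_n (bt_b bx0_22) (bt_b bx0_23)) (bt_n (bt_b bx0_24) (bt_n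 (bt_b bx0_25) (bt_b bx0_26))))) (bt_n (bt_n (bt_n (bt_b bx0_27) (bt_b bx0_28)) (bt_n (bt_b bx0_29) (bt_b bx0_30))) (bt_n (bt_n (bt_b bx0_31) (bt_b bx0_32)) (bt_n (bt_b bx0_33) (bt_n (bt_b bx0_34) (bt_b bx0_35)))))))
def S0 : StarD := StarD.mk cl4 cl4 cl4 0 0 t0
def G : List StarD := [S0]
theorem so0 : StarOK sI G S0 :=
  star_mk (by decide) (by decide) rfl rfl rfl rfl rfl rfl (rfl : _ = t0) (rfl : _ = t0)
  (st_mk (Pth.l (Pth.l (Pth.l (Pth.l (Pth.l Pth.z))))) (nat_lit 409897395) (nat_lit 413774439) (by decide +kernel))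
  (st_mk (Pth.l (Pth.l (Pth.l (Pth.l (Pth.l Pth.z))))) (nat_lit 455268106) (nat_lit 460215917) (by decide +kernel))
  (st_mk (Pth.l (Pth.l (Pth.l (Pth.l (Pth.l Pth.z))))) (nat_lit 509468312) (nat_lit 515982504) (by decide +kernel)) sv0
theorem ok : GroupOK (nat_lit 179830784) (nat_lit 209387520) G := grp_mk (allS_c so0 allS_n)
theorem cov : GCov G cl4 cl4 cl4 := cov_mk
  ⟨0, by decide, rfl, rfl, rfl⟩ ⟨0, by decide, rfl, rfl, rfl⟩ ⟨0, by decide, rfl, rfl, rfl⟩ ⟨0, by decide, rfl, rfl, rfl⟩ ⟨0, by decide, rfl, rfl, rfl⟩ ⟨0, by decide, rfl, rfl, rfl⟩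
end Q111_3

namespace Q111_4
def sI : I := I.pos (nat_lit 209321984) (nat_lit 225509376)
def b0_0 : Bx := Bx.mk (St.mk (I.pos (nat_lit 118161408) (nat_lit 217956352)) (I.mix (nat_lit 2899968) (nat_lit 94470144)) (I.mix (nat_lit 3358720) (nat_lit 110428160)) (I.pos (nat_lit 386449408) (nat_lit 524337152)) (I.mix (nat_lit 313032704) (nat_lit 186236928)) (I.mix (nat_lit 170622976) (nat_lit 172359680)) (I.mix (nat_lit 306659328) (nat_lit 288014336)))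
  false (nat_lit 49225242)
def b0_1 : Bx := Bx.mk (St.mk (I.pos (nat_lit 13025280) (nat_lit 81149952)) (I.neg (nat_lit 33996800) (nat_lit 98566144)) (I.neg (nat_lit 24117248) (nat_lit 80560128)) (I.pos (nat_lit 287457280) (nat_lit 339787776)) (I.mix (nat_lit 198868992) (nat_lit 176111616)) (I.mix (nat_lit 162643968) (nat_lit 151420928)) (I.mix (nat_lit 181600256) (nat_lit 150175744)))
  false (nat_lit 139341487)
def b0_2 : Bx := Bx.mk (St.mk (I.mix (nat_lit 55590912) (nat_lit 2424832)) (I.pos (nat_lit 25739264) (nat_lit 90161152)) (I.neg (nat_lit 44351488) (nat_lit 77168640)) (I.pos (nat_lit 286015488) (nat_lit 315146240)) (I.mix (nat_lit 97976320) (nat_lit 222674944)) (I.mix (nat_lit 186155008) (nat_lit 145489920)) (I.mix (nat_lit 121372672) (nat_lit 66371584)))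
  true (nat_lit 0)
def b0_3 : Bx := Bx.mk (St.mk (I.pos (nat_lit 95109120) (nat_lit 172670976)) (I.pos (nat_lit 2048000) (nat_lit 74547200)) (I.pos (nat_lit 13271040) (nat_lit 104103936)) (I.pos (nat_lit 345735168) (nat_lit 449937408)) (I.mix (nat_lit 285130752) (nat_lit 113016832)) (I.mix (nat_lit 271843328) (nat_lit 184401920)) (I.mix (nat_lit 295960576) (nat_lit 276545536)))
  false (nat_lit 0)
def b0_4 : Bx := Bx.mk (St.mk (I.mix (nat_lit 2424832) (nat_lit 54296576)) (I.neg (nat_lit 25739264) (nat_lit 90161152)) (I.neg (nat_lit 44367872) (nat_lit 77168640)) (I.pos (nat_lit 286015488) (nat_lit 315179008)) (I.mix (nat_lit 222642176) (nat_lit 97976320)) (I.mix (nat_lit 145489920) (nat_lit 186155008)) (I.mix (nat_lit 121372672) (nat_lit 66371584)))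
  false (nat_lit 75781666)
def b0_5 : Bx := Bx.mk (St.mk (I.neg (nat_lit 13008896) (nat_lit 81166336)) (I.pos (nat_lit 33996800) (nat_lit 98566144)) (I.neg (nat_lit 24117248) (nat_lit 80560128)) (I.pos (nat_lit 287440896) (nat_lit 339787776)) (I.mix (nat_lit 176128000) (nat_lit 198885376)) (I.mix (nat_lit 151437312) (nat_lit 162660352)) (I.mix (nat_lit 181616640) (nat_lit 150192128)))
  true (nat_lit 0)
def b0_6 : Bx := Bx.mk (St.mk (I.pos (nat_lit 162496512) (nat_lit 216039424)) (I.mix (nat_lit 25624576) (nat_lit 44482560)) (I.neg (nat_lit 6373376) (nat_lit 125550592)) (I.pos (nat_lit 416628736) (nat_lit 498057216)) (I.mix (nat_lit 248578048) (nat_lit 84443136)) (I.mix (nat_lit 162627584) (nat_lit 160661504)) (I.mix (nat_lit 260980736) (nat_lit 290013184)))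
  false (nat_lit 20020570)
def b0_7 : Bx := Bx.mk (St.mk (I.pos (nat_lit 53739520) (nat_lit 91176960)) (I.mix (nat_lit 47824896) (nat_lit 5079040)) (I.mix (nat_lit 34783232) (nat_lit 6864896)) (I.pos (nat_lit 302874624) (nat_lit 331972608)) (I.mix (nat_lit 164708352) (nat_lit 72990720)) (I.mix (nat_lit 100483072) (nat_lit 114393088)) (I.mix (nat_lit 102449152) (nat_lit 97697792)))
  false (nat_lit 0)
def b0_8 : Bx := Bx.mk (St.mk (I.neg (nat_lit 7274496) (nat_lit 39927808)) (I.mix (nat_lit 19070976) (nat_lit 29687808)) (I.neg (nat_lit 45711360) (nat_lit 56213504)) (I.pos (nat_lit 284180480) (nat_lit 294043648)) (I.mix (nat_lit 133201920) (nat_lit 75726848)) (I.mix (nat_lit 94027776) (nat_lit 97615872)) (I.mix (nat_lit 37650432) (nat_lit 28524544)))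
  true (nat_lit 0)
def b0_9 : Bx := Bx.mk (St.mk (I.pos (nat_lit 104792064) (nat_lit 146128896)) (I.mix (nat_lit 53624832) (nat_lit 7913472)) (I.mix (nat_lit 46841856) (nat_lit 19365888)) (I.pos (nat_lit 343785472) (nat_lit 389120000)) (I.mix (nat_lit 119144448) (nat_lit 159580160)) (I.mix (nat_lit 157663232) (nat_lit 132775936)) (I.mix (nat_lit 172408832) (nat_lit 127909888)))
  false (nat_lit 23329202)
def b0_10 : Bx := Bx.mk (St.mk (I.pos (nat_lit 7274496) (nat_lit 39927808)) (I.mix (nat_lit 32899072) (nat_lit 19070976)) (I.neg (nat_lit 45711360) (nat_lit 56705024)) (I.pos (nat_lit 284180480) (nat_lit 294043648)) (I.mix (nat_lit 75726848) (nat_lit 133365760)) (I.mix (nat_lit 97796096) (nat_lit 94224384)) (I.mix (nat_lit 37715968) (nat_lit 28524544)))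
  false (nat_lit 0)
def b0_11 : Bx := Bx.mk (St.mk (I.neg (nat_lit 53723136) (nat_lit 91176960)) (I.mix (nat_lit 5079040) (nat_lit 47824896)) (I.mix (nat_lit 34799616) (nat_lit 6864896)) (I.pos (nat_lit 302858240) (nat_lit 331988992)) (I.mix (nat_lit 73089024) (nat_lit 164937728)) (I.mix (nat_lit 114573312) (nat_lit 100679680)) (I.mix (nat_lit 102612992) (nat_lit 97878016)))
  true (nat_lit 0)
def b0_12 : Bx := Bx.mk (St.mk (I.pos (nat_lit 63094784) (nat_lit 104103936)) (I.mix (nat_lit 37879808) (nat_lit 5603328)) (I.mix (nat_lit 30064640) (nat_lit 6832128)) (I.pos (nat_lit 309116928) (nat_lit 342032384)) (I.mix (nat_lit 134184960) (nat_lit 94961664)) (I.mix (nat_lit 85409792) (nat_lit 116932608)) (I.mix (nat_lit 92028928) (nat_lit 93831168)))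
  false (nat_lit 0)
def b0_13 : Bx := Bx.mk (St.mk (I.mix (nat_lit 32620544) (nat_lit 4882432)) (I.mix (nat_lit 21987328) (nat_lit 17858560)) (I.neg (nat_lit 45842432) (nat_lit 51478528)) (I.pos (nat_lit 284344320) (nat_lit 291520512)) (I.mix (nat_lit 106577920) (nat_lit 85016576)) (I.mix (nat_lit 94552064) (nat_lit 77283328)) (I.mix (nat_lit 19693568) (nat_lit 20676608)))
  true (nat_lit 0)
def b0_14 : Bx := Bx.mk (St.mk (I.pos (nat_lit 144064512) (nat_lit 203554816)) (I.pos (nat_lit 13467648) (nat_lit 88670208)) (I.mix (nat_lit 34308096) (nat_lit 83148800)) (I.pos (nat_lit 413696000) (nat_lit 509280256)) (I.mix (nat_lit 207814656) (nat_lit 173244416)) (I.mix (nat_lit 210731008) (nat_lit 173588480)) (I.mix (nat_lit 408535040) (nat_lit 252690432)))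
  false (nat_lit 16453219)
def b0_15 : Bx := Bx.mk (St.mk (I.pos (nat_lit 38912000) (nat_lit 86589440)) (I.neg (nat_lit 21053440) (nat_lit 86065152)) (I.neg (nat_lit 15024128) (nat_lit 64684032)) (I.pos (nat_lit 297959424) (nat_lit 338477056)) (I.mix (nat_lit 155271168) (nat_lit 157024256)) (I.mix (nat_lit 135643136) (nat_lit 173359104)) (I.mix (nat_lit 138280960) (nat_lit 173326336)))
  false (nat_lit 83941140)
def b0_16 : Bx := Bx.mk (St.mk (I.mix (nat_lit 42450944) (nat_lit 2179072)) (I.pos (nat_lit 9289728) (nat_lit 69763072)) (I.neg (nat_lit 49643520) (nat_lit 71090176)) (I.pos (nat_lit 284524544) (nat_lit 302579712)) (I.mix (nat_lit 107184128) (nat_lit 179109888)) (I.mix (nat_lit 175423488) (nat_lit 99975168)) (I.mix (nat_lit 77922304) (nat_lit 51150848)))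
  true (nat_lit 0)
def b0_17 : Bx := Bx.mk (St.mk (I.pos (nat_lit 99205120) (nat_lit 155238400)) (I.mix (nat_lit 18382848) (nat_lit 48054272)) (I.mix (nat_lit 9355264) (nat_lit 72908800)) (I.pos (nat_lit 344670208) (nat_lit 404127744)) (I.mix (nat_lit 222265344) (nat_lit 130449408)) (I.mix (nat_lit 245596160) (nat_lit 131416064)) (I.mix (nat_lit 253706240) (nat_lit 181305344)))
  false (nat_lit 15124976)
def b0_18 : Bx := Bx.mk (St.mk (I.mix (nat_lit 2179072) (nat_lit 42450944)) (I.neg (nat_lit 9289728) (nat_lit 69763072)) (I.neg (nat_lit 49643520) (nat_lit 71090176)) (I.pos (nat_lit 284524544) (nat_lit 302579712)) (I.mix (nat_lit 179109888) (nat_lit 107184128)) (I.mix (nat_lit 99975168) (nat_lit 175423488)) (I.mix (nat_lit 77905920) (nat_lit 51167232)))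
  false (nat_lit 8811451)
def b0_19 : Bx := Bx.mk (St.mk (I.neg (nat_lit 38895616) (nat_lit 86589440)) (I.pos (nat_lit 21053440) (nat_lit 86065152)) (I.neg (nat_lit 15007744) (nat_lit 64684032)) (I.pos (nat_lit 297959424) (nat_lit 338477056)) (I.mix (nat_lit 156975104) (nat_lit 155287552)) (I.mix (nat_lit 173359104) (nat_lit 135659520)) (I.mix (nat_lit 138280960) (nat_lit 173326336)))
  true (nat_lit 0)
def b0_20 : Bx := Bx.mk (St.mk (I.pos (nat_lit 178929664) (nat_lit 236617728)) (I.mix (nat_lit 28459008) (nat_lit 25411584)) (I.neg (nat_lit 38076416) (nat_lit 135184384)) (I.pos (nat_lit 440008704) (nat_lit 551141376)) (I.mix (nat_lit 211992576) (nat_lit 103088128)) (I.mix (nat_lit 162791424) (nat_lit 125714432)) (I.mix (nat_lit 295141376) (nat_lit 249036800)))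
  false (nat_lit 0)
def b0_21 : Bx := Bx.mk (St.mk (I.pos (nat_lit 89980928) (nat_lit 135053312)) (I.neg (nat_lit 5095424) (nat_lit 54165504)) (I.neg (nat_lit 802816) (nat_lit 47677440)) (I.pos (nat_lit 330039296) (nat_lit 375521280)) (I.mix (nat_lit 140673024) (nat_lit 108806144)) (I.mix (nat_lit 138690560) (nat_lit 108167168)) (I.mix (nat_lit 150798336) (nat_lit 89767936)))
  false (nat_lit 0)
def b0_22 : Bx := Bx.mk (St.mk (I.mix (nat_lit 7520256) (nat_lit 32325632)) (I.mix (nat_lit 17891328) (nat_lit 21921792)) (I.neg (nat_lit 45842432) (nat_lit 51527680)) (I.pos (nat_lit 284311552) (nat_lit 291471360)) (I.mix (nat_lit 84770816) (nat_lit 106414080)) (I.mix (nat_lit 77135872) (nat_lit 94404608)) (I.mix (nat_lit 19644416) (nat_lit 20512768)))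
  false (nat_lit 0)
def b0_23 : Bx := Bx.mk (St.mk (I.neg (nat_lit 63471616) (nat_lit 106528768)) (I.mix (nat_lit 5537792) (nat_lit 37896192)) (I.mix (nat_lit 30113792) (nat_lit 6848512)) (I.pos (nat_lit 309411840) (nat_lit 344719360)) (I.mix (nat_lit 94568448) (nat_lit 133824512)) (I.mix (nat_lit 116637696) (nat_lit 85409792)) (I.mix (nat_lit 91881472) (nat_lit 93732864)))
  true (nat_lit 0)
def b0_24 : Bx := Bx.mk (St.mk (I.pos (nat_lit 54804480) (nat_lit 91406336)) (I.mix (nat_lit 51527680) (nat_lit 1261568)) (I.mix (nat_lit 37879808) (nat_lit 5423104)) (I.pos (nat_lit 303169536) (nat_lit 332201984)) (I.mix (nat_lit 166608896) (nat_lit 73138176)) (I.mix (nat_lit 103743488) (nat_lit 116162560)) (I.mix (nat_lit 103743488) (nat_lit 98942976)))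
  false (nat_lit 0)
def b0_25 : Bx := Bx.mk (St.mk (I.neg (nat_lit 7143424) (nat_lit 39469056)) (I.mix (nat_lit 10698752) (nat_lit 33718272)) (I.neg (nat_lit 46055424) (nat_lit 56639488)) (I.pos (nat_lit 284606464) (nat_lit 294174720)) (I.mix (nat_lit 139182080) (nat_lit 76201984)) (I.mix (nat_lit 97484800) (nat_lit 101318656)) (I.mix (nat_lit 37994496) (nat_lit 30228480)))
  true (nat_lit 0)
def b0_26 : Bx := Bx.mk (St.mk (I.pos (nat_lit 177881088) (nat_lit 206995456)) (I.pos (nat_lit 10797056) (nat_lit 40026112)) (I.neg (nat_lit 8749056) (nat_lit 56721408)) (I.pos (nat_lit 447528960) (nat_lit 490995712)) (I.mix (nat_lit 81346560) (nat_lit 18579456)) (I.mix (nat_lit 54198272) (nat_lit 38027264)) (I.mix (nat_lit 108068864) (nat_lit 63569920)))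
  false (nat_lit 0)
def b0_27 : Bx := Bx.mk (St.mk (I.pos (nat_lit 57163776) (nat_lit 85622784)) (I.neg (nat_lit 20774912) (nat_lit 51068928)) (I.neg (nat_lit 13025280) (nat_lit 37470208)) (I.pos (nat_lit 306429952) (nat_lit 330088448)) (I.mix (nat_lit 102170624) (nat_lit 58785792)) (I.mix (nat_lit 67649536) (nat_lit 69861376)) (I.mix (nat_lit 69009408) (nat_lit 60424192)))
  false (nat_lit 0)
def b0_28 : Bx := Bx.mk (St.mk (I.neg (nat_lit 8798208) (nat_lit 29999104)) (I.pos (nat_lit 5210112) (nat_lit 33062912)) (I.neg (nat_lit 50200576) (nat_lit 56557568)) (I.pos (nat_lit 284934144) (nat_lit 292044800)) (I.mix (nat_lit 59637760) (nat_lit 70483968)) (I.mix (nat_lit 59359232) (nat_lit 60162048)) (I.mix (nat_lit 26066944) (nat_lit 11288576)))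
  true (nat_lit 0)
def b0_29 : Bx := Bx.mk (St.mk (I.pos (nat_lit 111443968) (nat_lit 138444800)) (I.mix (nat_lit 22888448) (nat_lit 8355840)) (I.mix (nat_lit 12648448) (nat_lit 19890176)) (I.pos (nat_lit 352272384) (nat_lit 380026880)) (I.mix (nat_lit 103907328) (nat_lit 70991872)) (I.mix (nat_lit 88637440) (nat_lit 84606976)) (I.mix (nat_lit 88539136) (nat_lit 86097920)))
  false (nat_lit 0)
def b0_30 : Bx := Bx.mk (St.mk (I.pos (nat_lit 8617984) (nat_lit 29999104)) (I.neg (nat_lit 5210112) (nat_lit 33046528)) (I.neg (nat_lit 50266112) (nat_lit 56557568)) (I.pos (nat_lit 284966912) (nat_lit 292044800)) (I.mix (nat_lit 71270400) (nat_lit 60309504)) (I.mix (nat_lit 61063168) (nat_lit 60112896)) (I.mix (nat_lit 26296320) (nat_lit 11534336)))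
  false (nat_lit 0)
def b0_31 : Bx := Bx.mk (St.mk (I.neg (nat_lit 57163776) (nat_lit 85442560)) (I.pos (nat_lit 21151744) (nat_lit 51118080)) (I.neg (nat_lit 12222464) (nat_lit 37502976)) (I.pos (nat_lit 306446336) (nat_lit 330022912)) (I.mix (nat_lit 59539456) (nat_lit 102825984)) (I.mix (nat_lit 70467584) (nat_lit 68452352)) (I.mix (nat_lit 69763072) (nat_lit 61014016)))
  true (nat_lit 0)
def b0_32 : Bx := Bx.mk (St.mk (I.pos (nat_lit 83427328) (nat_lit 105873408)) (I.neg (nat_lit 12861440) (nat_lit 37437440)) (I.neg (nat_lit 8372224) (nat_lit 29376512)) (I.pos (nat_lit 324485120) (nat_lit 344096768)) (I.mix (nat_lit 81018880) (nat_lit 45514752)) (I.mix (nat_lit 59047936) (nat_lit 50626560)) (I.mix (nat_lit 62570496) (nat_lit 38174720)))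
  false (nat_lit 0)
def b0_33 : Bx := Bx.mk (St.mk (I.mix (nat_lit 11452416) (nat_lit 7241728)) (I.mix (nat_lit 8175616) (nat_lit 16220160)) (I.neg (nat_lit 47759360) (nat_lit 50167808)) (I.pos (nat_lit 284344320) (nat_lit 287621120)) (I.mix (nat_lit 49561600) (nat_lit 52854784)) (I.mix (nat_lit 41254912) (nat_lit 50495488)) (I.mix (nat_lit 6995968) (nat_lit 1671168)))
  true (nat_lit 0)
def b0_34 : Bx := Bx.mk (St.mk (I.pos (nat_lit 66125824) (nat_lit 106528768)) (I.mix (nat_lit 36995072) (nat_lit 2015232)) (I.mix (nat_lit 29032448) (nat_lit 4915200)) (I.pos (nat_lit 310788096) (nat_lit 344719360)) (I.mix (nat_lit 84852736) (nat_lit 47136768)) (I.mix (nat_lit 60719104) (nat_lit 60030976)) (I.mix (nat_lit 64061440) (nat_lit 44859392)))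
  false (nat_lit 0)
def b0_35 : Bx := Bx.mk (St.mk (I.mix (nat_lit 25526272) (nat_lit 7536640)) (I.mix (nat_lit 18415616) (nat_lit 15794176)) (I.neg (nat_lit 45842432) (nat_lit 51216384)) (I.pos (nat_lit 284344320) (nat_lit 290439168)) (I.mix (nat_lit 68943872) (nat_lit 52805632)) (I.mix (nat_lit 52822016) (nat_lit 50479104)) (I.mix (nat_lit 12124160) (nat_lit 11452416)))
  true (nat_lit 0)
def t0 : BTr := (BTr.n (BTr.n (BTr.n (BTr.n (BTr.n (BTr.b b0_0) (BTr.b b0_1)) (BTr.n (BTr.b b0_2) (BTr.b b0_3))) (BTr.n (BTr.n (BTr.b b0_4) (BTr.b b0_5)) (BTr.n (BTr.b b0_6) (BTr.n (BTr.b b0_7) (BTr.b b0_8))))) (BTr.n (BTr.n (BTr.n (BTr.b b0_9) (BTr.b b0_10)) (BTr.n (BTr.b b0_11) (BTr.b b0_12))) (BTr.n (BTr.n (BTr.b b0_13) (BTr.b b0_14)) (BTr.n (BTr.b b0_15) (BTr.n (BTr.b b0_16) (BTr.b b0_17)))))) (BTr.n (BTr.n (BTr.n (BTr.n (BTr.b b0_18) (BTr.b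 b0_19)) (BTr.n (BTr.b b0_20) (BTr.b b0_21))) (BTr.n (BTr.n (BTr.b b0_22) (BTr.b b0_23)) (BTr.n (BTr.b b0_24) (BTr.n (BTr.b b0_25) (BTr.b b0_26))))) (BTr.n (BTr.n (BTr.n (BTr.b b0_27) (BTr.b b0_28)) (BTr.n (BTr.b b0_29) (BTr.b b0_30))) (BTr.n (BTr.n (BTr.b b0_31) (BTr.b b0_32)) (BTr.n (BTr.b b0_33) (BTr.n (BTr.b b0_34) (BTr.b b0_35)))))))
namespace T0
def l0 : Tr := Tr.L (Pth.l (Pth.l (Pth.l (Pth.l (Pth.l Pth.z)))))
def l1 : Tr := Tr.L (Pth.l (Pth.l (Pth.l (Pth.l (Pth.r Pth.z)))))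
def l2 : Tr := Tr.L (Pth.l (Pth.l (Pth.l (Pth.r (Pth.l Pth.z)))))
def l3 : Tr := Tr.L (Pth.l (Pth.l (Pth.l (Pth.r (Pth.r Pth.z)))))
def l4 : Tr := Tr.L (Pth.l (Pth.l (Pth.r (Pth.l (Pth.l Pth.z)))))
def l5 : Tr := Tr.L (Pth.l (Pth.l (Pth.r (Pth.l (Pth.r Pth.z)))))
def l6 : Tr := Tr.L (Pth.l (Pth.l (Pth.r (Pth.r (Pth.l Pth.z)))))
def l7 : Tr := Tr.L (Pth.l (Pth.l (Pth.r (Pth.r (Pth.r (Pth.l Pth.z))))))
def l8 : Tr := Tr.L (Pth.l (Pth.l (Pth.r (Pth.r (Pth.r (Pth.r Pth.z))))))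
def l9 : Tr := Tr.L (Pth.l (Pth.r (Pth.l (Pth.l (Pth.l Pth.z)))))
def l10 : Tr := Tr.L (Pth.l (Pth.r (Pth.l (Pth.l (Pth.r Pth.z)))))
def l11 : Tr := Tr.L (Pth.l (Pth.r (Pth.l (Pth.r (Pth.l Pth.z)))))
def l12 : Tr := Tr.L (Pth.l (Pth.r (Pth.l (Pth.r (Pth.r Pth.z)))))
def l13 : Tr := Tr.L (Pth.l (Pth.r (Pth.r (Pth.l (Pth.l Pth.z)))))
def l14 : Tr := Tr.L (Pth.l (Pth.r (Pth.r (Pth.l (Pth.r Pth.z)))))
def l15 : Tr := Tr.L (Pth.l (Pth.r (Pth.r (Pth.r (Pth.l Pth.z)))))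
def l16 : Tr := Tr.L (Pth.l (Pth.r (Pth.r (Pth.r (Pth.r (Pth.l Pth.z))))))
def l17 : Tr := Tr.L (Pth.l (Pth.r (Pth.r (Pth.r (Pth.r (Pth.r Pth.z))))))
def l18 : Tr := Tr.L (Pth.r (Pth.l (Pth.l (Pth.l (Pth.l Pth.z)))))
def l19 : Tr := Tr.L (Pth.r (Pth.l (Pth.l (Pth.l (Pth.r Pth.z)))))
def l20 : Tr := Tr.L (Pth.r (Pth.l (Pth.l (Pth.r (Pth.l Pth.z)))))
def l21 : Tr := Tr.L (Pth.r (Pth.l (Pth.l (Pth.r (Pth.r Pth.z)))))
def l22 : Tr := Tr.L (Pth.r (Pth.l (Pth.r (Pth.l (Pth.l Pth.z)))))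
def l23 : Tr := Tr.L (Pth.r (Pth.l (Pth.r (Pth.l (Pth.r Pth.z)))))
def l24 : Tr := Tr.L (Pth.r (Pth.l (Pth.r (Pth.r (Pth.l Pth.z)))))
def l25 : Tr := Tr.L (Pth.r (Pth.l (Pth.r (Pth.r (Pth.r (Pth.l Pth.z))))))
def l26 : Tr := Tr.L (Pth.r (Pth.l (Pth.r (Pth.r (Pth.r (Pth.r Pth.z))))))
def l27 : Tr := Tr.L (Pth.r (Pth.r (Pth.l (Pth.l (Pth.l Pth.z)))))
def l28 : Tr := Tr.L (Pth.r (Pth.r (Pth.l (Pth.l (Pth.r Pth.z)))))
def l29 : Tr := Tr.L (Pth.r (Pth.r (Pth.l (Pth.r (Pth.l Pth.z)))))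
def l30 : Tr := Tr.L (Pth.r (Pth.r (Pth.l (Pth.r (Pth.r Pth.z)))))
def l31 : Tr := Tr.L (Pth.r (Pth.r (Pth.r (Pth.l (Pth.l Pth.z)))))
def l32 : Tr := Tr.L (Pth.r (Pth.r (Pth.r (Pth.l (Pth.r Pth.z)))))
def l33 : Tr := Tr.L (Pth.r (Pth.r (Pth.r (Pth.r (Pth.l Pth.z)))))
def l34 : Tr := Tr.L (Pth.r (Pth.r (Pth.r (Pth.r (Pth.r (Pth.l Pth.z))))))
def l35 : Tr := Tr.L (Pth.r (Pth.r (Pth.r (Pth.r (Pth.r (Pth.r Pth.z))))))
end T0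
theorem c0_0_0 : chkTag sI cl4 cl4 cl4 t0 b0_0 (tg true true false RT.r2) (I.pos (nat_lit 0) (nat_lit 0))
  (xa (xb (xa (xb (xa (xb T0.l0 T0.l0) T0.l0) (xa (xb T0.l0 (xa T0.l0 T0.l0)) (xb T0.l0 T0.l0))) (xb (xa T0.l0 T0.l0) (xa T0.l0 T0.l0))) (xa (xb (xa (xb (xa T0.l0 T0.l0) (xa T0.l0 T0.l0)) (xb T0.l0 T0.l0)) (xa (xb (xa (xb T0.l0 T0.l0) T0.l0) (xa (xb T0.l0 T0.l0) (xb T0.l0 T0.l0))) (xb (xa T0.l0 T0.l0) (xa (xb T0.l0 T0.l0) (xb T0.l0 T0.l0))))) (xb (xa (xb T0.l0 T0.l0) (xb T0.l0 T0.l0)) (xa (xb (xa T0.l0 T0.l0) (xa (xb T0.l0 T0.l0) (xb T0.l0 T0.l0))) (xb (xa T0.l0 T0.l0) (xa (xb T0.l0 T0.l0) (xb T0.l0 T0.l0))))))) (xb (xa (xb T0.l0 (xa T0.l0 T0.l0)) (xb (xa T0.l0 T0.l0) (xa T0.l0 T0.l0))) (xa (xb (xa (xb T0.l0 T0.l0) T0.l0) (xa (xb T0.l0 (xa (xb T0.l0 T0.l0) (xb T0.l0 T0.l0))) (xb T0.l0 (xa (xb T0.l0 T0.l0) (xb T0.l0 T0.l0)))))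 (xb (xa T0.l0 (xb T0.l0 T0.l0)) (xa (xb T0.l0 (xa (xb T0.l0 T0.l0) T0.l0)) (xb T0.l0 (xa T0.l0 T0.l0))))))) = true := by decide +kernel
theorem c0_0_1 : chkTag sI cl4 cl4 cl4 t0 b0_0 (tg true false false RT.r3) (I.pos (nat_lit 0) (nat_lit 0))
  (xa (xb (xa (xb T0.l15 T0.l1) (xb T0.l1 T0.l1)) (xa (xb T0.l1 T0.l1) (xb T0.l1 T0.l1))) (xb (xa (xb T0.l1 T0.l1) (xb T0.l1 T0.l1)) (xa (xb T0.l1 T0.l1) (xb T0.l1 (xa T0.l1 T0.l1))))) = true := by decide +kernel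
theorem c0_0_2 : chkTag sI cl4 cl4 cl4 t0 b0_0 (tg true true true RT.r4) (I.pos (nat_lit 0) (nat_lit 0))
  (xa (xb (xa T0.l2 T0.l2) (xa T0.l2 T0.l2)) (xb (xa (xc T0.l2 T0.l2) (xc T0.l2 T0.l2)) (xa (xc T0.l2 T0.l2) (xc (xb T0.l2 T0.l2) (xb T0.l2 T0.l2))))) = true := by decide +kernel
theorem c0_0_3 : chkTag sI cl4 cl4 cl4 t0 b0_0 (tg false false false RT.r3) (I.pos (nat_lit 0) (nat_lit 0))
  (xa (xb (xa (xb T0.l3 T0.l3) (xb (xa T0.l3 T0.l3) T0.l3)) (xa (xb T0.l3 T0.l3) (xb T0.l3 T0.l3))) (xb (xa (xb (xa T0.l3 T0.l3) T0.l3) (xb (xa (xc T0.l3 T0.l3) (xc T0.l3 T0.l3)) (xa T0.l3 (xc T0.l3 T0.l3)))) (xa (xb T0.l3 (xa T0.l3 (xb T0.l3 T0.l3))) (xb (xa (xb T0.l3 T0.l3) (xc (xb T0.l3 T0.l3) (xb T0.l3 T0.l3))) (xa (xc T0.l3 (xb T0.l3 T0.l3)) (xb (xc T0.l3 T0.l3) (xc T0.l3 (xs T0.l3 T0.l3)))))))) = true := by decide +kernel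
theorem c0_0_4 : chkTag sI cl4 cl4 cl4 t0 b0_0 (tg false true false RT.r4) (I.pos (nat_lit 0) (nat_lit 0))
  (xa (xb (xa T0.l4 T0.l4) (xa T0.l4 T0.l4)) (xb (xa (xc T0.l4 T0.l4) (xc T0.l4 T0.l4)) (xa (xc T0.l4 T0.l4) (xc (xb T0.l4 T0.l4) (xb T0.l4 T0.l4))))) = true := by decide +kernel
theorem c0_0_5 : chkTag sI cl4 cl4 cl4 t0 b0_0 (tg false false true RT.r5) (I.pos (nat_lit 0) (nat_lit 0))
  (xa (xb (xa (xb T0.l19 T0.l5) (xb T0.l5 T0.l5)) (xa (xb T0.l5 T0.l5) (xb T0.l5 T0.l5))) (xb (xa (xb T0.l5 T0.l5) (xb T0.l5 T0.l5)) (xa (xb T0.l5 T0.l5) (xb T0.l5 (xa T0.l5 T0.l5))))) = true := by decide +kernel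
theorem bx0_0 : BoxOK sI cl4 cl4 cl4 t0 t0 b0_0 :=
  box_mk' [(tg true true false RT.r2), (tg true false false RT.r3), (tg true true true RT.r4), (tg false false false RT.r3), (tg false true false RT.r4), (tg false false true RT.r5)] rfl (allL_c (ex_mk c0_0_0) (allL_c (ex_mk c0_0_1) (allL_c (ex_mk c0_0_2) (allL_c (ex_mk c0_0_3) (allL_c (ex_mk c0_0_4) (allL_c (ex_mk c0_0_5) allL_n))))))
theorem bx0_1 : BoxOK sI cl4 cl4 cl4 t0 t0 b0_1 :=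
  box_mk (TrL.c (I.pos (nat_lit 0) (nat_lit 0)) (xb (xa (xb (xa (xb T0.l6 T0.l6) T0.l6) (xa (xb T0.l6 T0.l6) T0.l6)) (xa (xb T0.l6 T0.l6) (xb T0.l6 T0.l6))) (xa (xa (xb (xa T0.l6 T0.l6) (xa T0.l6 T0.l6)) (xb T0.l6 T0.l6)) (xa (xb T0.l6 T0.l6) (xb T0.l6 T0.l6))))
  (TrL.c (I.pos (nat_lit 0) (nat_lit 0)) (xb (xa T0.l7 T0.l24) (xa T0.l24 T0.l24))
  (TrL.c (I.pos (nat_lit 0) (nat_lit 0)) (xb (xa T0.l8 T0.l25) (xa T0.l8 T0.l8))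
  (TrL.c (I.pos (nat_lit 0) (nat_lit 0)) (xb (xa T0.l9 T0.l9) (xa T0.l9 T0.l9))
  (TrL.c (I.pos (nat_lit 0) (nat_lit 0)) (xb (xa T0.l10 T0.l10) (xa T0.l10 T0.l10))
  (TrL.c (I.pos (nat_lit 0) (nat_lit 0)) (xb (xa T0.l11 T0.l11) (xa T0.l11 T0.l11))
  TrL.n)))))) (by decide +kernel)
theorem bx0_2 : BoxOK sI cl4 cl4 cl4 t0 t0 b0_2 :=
  box_mk (TrL.c (I.pos (nat_lit 0) (nat_lit 0)) (xb T0.l12 T0.l12)
  (TrL.c (I.pos (nat_lit 0) (nat_lit 0)) (xb T0.l13 T0.l13)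
  TrL.n)) (by decide +kernel)
theorem bx0_3 : BoxOK sI cl4 cl4 cl4 t0 t0 b0_3 :=
  box_mk (TrL.c (I.pos (nat_lit 0) (nat_lit 0)) (xa (xb (xa (xb (xa (xb T0.l14 T0.l14) T0.l14) (xa T0.l14 T0.l14)) (xb T0.l14 T0.l14)) (xa (xb (xa (xb T0.l14 T0.l14) T0.l14) (xa (xb T0.l14 T0.l14) (xb T0.l14 T0.l14))) (xb (xa T0.l14 T0.l14) (xa (xb T0.l14 T0.l14) T0.l14)))) (xb (xa (xb T0.l14 (xa T0.l14 T0.l14)) (xb (xa T0.l14 T0.l14) (xa T0.l14 T0.l14))) (xa (xb (xa T0.l14 T0.l14) (xa (xb T0.l14 T0.l14) (xb T0.l14 T0.l14))) (xb (xa T0.l14 T0.l14) (xa (xb T0.l14 T0.l14) (xb T0.l14 T0.l14))))))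
  (TrL.c (I.pos (nat_lit 0) (nat_lit 0)) (xa (xb (xa T0.l15 T0.l15) (xa T0.l15 T0.l15)) (xb (xa T0.l15 T0.l15) (xa T0.l15 T0.l15)))
  (TrL.c (I.pos (nat_lit 0) (nat_lit 0)) (xa (xb T0.l16 T0.l16) (xb T0.l16 T0.l2))
  (TrL.c (I.pos (nat_lit 0) (nat_lit 0)) (xa (xb T0.l17 (xa T0.l17 T0.l3)) (xb (xa T0.l17 (xb T0.l17 T0.l3)) (xa (xb T0.l3 T0.l3) (xb T0.l3 (xb T0.l3 T0.l3)))))
  (TrL.c (I.pos (nat_lit 0) (nat_lit 0)) (xa (xb T0.l18 T0.l18) (xb T0.l18 T0.l4))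
  (TrL.c (I.pos (nat_lit 0) (nat_lit 0)) (xa (xb (xa T0.l19 T0.l19) (xa T0.l19 T0.l19)) (xb (xa T0.l19 T0.l19) (xa T0.l19 T0.l19)))
  TrL.n)))))) (by decide +kernel)
theorem bx0_4 : BoxOK sI cl4 cl4 cl4 t0 t0 b0_4 :=
  box_mk (TrL.c (I.pos (nat_lit 0) (nat_lit 0)) (xb (xa (xb (xa (xb T0.l20 T0.l20) T0.l6) (xa (xb T0.l20 T0.l20) T0.l20)) (xb (xa T0.l6 T0.l6) (xa T0.l20 T0.l6))) (xa (xb (xa (xb T0.l20 T0.l20) T0.l20) (xa (xb T0.l20 T0.l20) T0.l20)) (xb (xa T0.l20 T0.l20) (xa T0.l20 T0.l20))))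
  (TrL.c (I.pos (nat_lit 0) (nat_lit 0)) (xb T0.l12 T0.l12)
  (TrL.c (I.pos (nat_lit 0) (nat_lit 0)) (xb T0.l13 T0.l13)
  (TrL.c (I.pos (nat_lit 0) (nat_lit 0)) (xb (xa T0.l21 T0.l21) T0.l21)
  (TrL.c (I.pos (nat_lit 0) (nat_lit 0)) (xb T0.l22 T0.l22)
  (TrL.c (I.pos (nat_lit 0) (nat_lit 0)) (xb T0.l23 T0.l23)
  TrL.n)))))) (by decide +kernel)
theorem bx0_5 : BoxOK sI cl4 cl4 cl4 t0 t0 b0_5 :=
  box_mk (TrL.c (I.pos (nat_lit 0) (nat_lit 0)) (xb (xa T0.l24 T0.l24) (xa T0.l24 T0.l7))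
  (TrL.c (I.pos (nat_lit 0) (nat_lit 0)) (xb (xa T0.l8 T0.l8) (xa T0.l25 T0.l8))
  TrL.n)) (by decide +kernel)
theorem bx0_6 : BoxOK sI cl4 cl4 cl4 t0 t0 b0_6 :=
  box_mk (TrL.c (I.pos (nat_lit 0) (nat_lit 0)) (xb (xa T0.l0 T0.l0) (xa (xb T0.l0 T0.l0) (xb T0.l0 T0.l0)))
  (TrL.c (I.pos (nat_lit 0) (nat_lit 0)) (xb (xa T0.l1 T0.l1) (xa T0.l1 T0.l1))
  (TrL.c (I.pos (nat_lit 0) (nat_lit 0)) T0.l2
  (TrL.c (I.pos (nat_lit 0) (nat_lit 0)) (xb (xa (xb T0.l3 T0.l3) (xb T0.l3 T0.l3)) T0.l3)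
  (TrL.c (I.pos (nat_lit 0) (nat_lit 0)) T0.l4
  (TrL.c (I.pos (nat_lit 0) (nat_lit 0)) (xb (xa T0.l5 T0.l5) (xa T0.l5 T0.l5))
  TrL.n)))))) (by decide +kernel)
theorem bx0_7 : BoxOK sI cl4 cl4 cl4 t0 t0 b0_7 :=
  box_mk (TrL.c (I.pos (nat_lit 0) (nat_lit 0)) (xb T0.l6 (xa T0.l6 T0.l6))
  (TrL.c (I.pos (nat_lit 0) (nat_lit 0)) T0.l7
  (TrL.c (I.pos (nat_lit 0) (nat_lit 0)) T0.l8
  (TrL.c (I.pos (nat_lit 0) (nat_lit 0)) T0.l9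
  (TrL.c (I.pos (nat_lit 0) (nat_lit 0)) T0.l10
  (TrL.c (I.pos (nat_lit 0) (nat_lit 0)) T0.l11
  TrL.n)))))) (by decide +kernel)
theorem bx0_8 : BoxOK sI cl4 cl4 cl4 t0 t0 b0_8 :=
  box_mk (TrL.c (I.pos (nat_lit 0) (nat_lit 0)) T0.l12
  (TrL.c (I.pos (nat_lit 0) (nat_lit 0)) T0.l13
  TrL.n)) (by decide +kernel)
theorem bx0_9 : BoxOK sI cl4 cl4 cl4 t0 t0 b0_9 :=
  box_mk (TrL.c (I.pos (nat_lit 0) (nat_lit 0)) (xb (xa (xb T0.l14 T0.l14) (xb T0.l14 T0.l14)) (xa T0.l14 T0.l14))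
  (TrL.c (I.pos (nat_lit 0) (nat_lit 0)) (xb T0.l15 T0.l15)
  (TrL.c (I.pos (nat_lit 0) (nat_lit 0)) (xb T0.l16 T0.l16)
  (TrL.c (I.pos (nat_lit 0) (nat_lit 0)) (xb (xa T0.l17 T0.l17) T0.l17)
  (TrL.c (I.pos (nat_lit 0) (nat_lit 0)) (xb T0.l18 T0.l18)
  (TrL.c (I.pos (nat_lit 0) (nat_lit 0)) (xb T0.l19 T0.l19)
  TrL.n)))))) (by decide +kernel)
theorem bx0_10 : BoxOK sI cl4 cl4 cl4 t0 t0 b0_10 :=
  box_mk (TrL.c (I.pos (nat_lit 0) (nat_lit 0)) (xb T0.l20 (xa T0.l20 (xb T0.l20 T0.l20)))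
  (TrL.c (I.pos (nat_lit 0) (nat_lit 0)) T0.l12
  (TrL.c (I.pos (nat_lit 0) (nat_lit 0)) T0.l13
  (TrL.c (I.pos (nat_lit 0) (nat_lit 0)) T0.l21
  (TrL.c (I.pos (nat_lit 0) (nat_lit 0)) T0.l22
  (TrL.c (I.pos (nat_lit 0) (nat_lit 0)) T0.l23
  TrL.n)))))) (by decide +kernel)
theorem bx0_11 : BoxOK sI cl4 cl4 cl4 t0 t0 b0_11 :=
  box_mk (TrL.c (I.pos (nat_lit 0) (nat_lit 0)) T0.l24
  (TrL.c (I.pos (nat_lit 0) (nat_lit 0)) T0.l25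
  TrL.n)) (by decide +kernel)
theorem bx0_12 : BoxOK sI cl4 cl4 cl4 t0 t0 b0_12 :=
  box_mk (TrL.c (I.pos (nat_lit 0) (nat_lit 0)) (xb T0.l6 (xa T0.l6 T0.l14))
  (TrL.c (I.pos (nat_lit 0) (nat_lit 0)) T0.l24
  (TrL.c (I.pos (nat_lit 0) (nat_lit 0)) T0.l25
  (TrL.c (I.pos (nat_lit 0) (nat_lit 0)) T0.l29
  (TrL.c (I.pos (nat_lit 0) (nat_lit 0)) T0.l30
  (TrL.c (I.pos (nat_lit 0) (nat_lit 0)) T0.l31
  TrL.n)))))) (by decide +kernel)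
theorem bx0_13 : BoxOK sI cl4 cl4 cl4 t0 t0 b0_13 :=
  box_mk (TrL.c (I.pos (nat_lit 0) (nat_lit 0)) T0.l34
  (TrL.c (I.pos (nat_lit 0) (nat_lit 0)) T0.l33
  TrL.n)) (by decide +kernel)
theorem bx0_14 : BoxOK sI cl4 cl4 cl4 t0 t0 b0_14 :=
  box_mk (TrL.c (I.pos (nat_lit 0) (nat_lit 0)) (xb (xa (xb (xa (xb T0.l0 T0.l0) T0.l0) (xa (xb (xa T0.l0 T0.l0) (xa T0.l0 T0.l0)) (xb T0.l0 T0.l0))) (xb (xa T0.l0 T0.l0) (xa T0.l0 T0.l0))) (xa (xb (xa (xb (xa T0.l0 T0.l0) (xa T0.l0 T0.l0)) (xb T0.l0 T0.l0)) (xa (xb (xa T0.l0 T0.l0) (xa (xb T0.l0 T0.l0) T0.l0)) (xb (xa T0.l0 T0.l0) (xa T0.l0 T0.l0)))) (xb (xa (xb T0.l0 T0.l0) T0.l0) (xa (xb T0.l0 T0.l0) (xb T0.l0 (xa T0.l0 T0.l0))))))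
  (TrL.c (I.pos (nat_lit 0) (nat_lit 0)) (xa (xb T0.l1 (xb T0.l1 T0.l1)) (xb (xb T0.l1 T0.l1) (xb T0.l1 T0.l1)))
  (TrL.c (I.pos (nat_lit 0) (nat_lit 0)) (xa (xb T0.l2 T0.l2) (xb T0.l5 (xc T0.l2 T0.l2)))
  (TrL.c (I.pos (nat_lit 0) (nat_lit 0)) (xb (xa (xb (xa T0.l3 T0.l3) T0.l3) (xb (xa T0.l3 (xc T0.l3 T0.l3)) (xa T0.l3 T0.l3))) (xa T0.l3 (xb T0.l3 T0.l3)))
  (TrL.c (I.pos (nat_lit 0) (nat_lit 0)) (xa (xb T0.l4 T0.l4) (xb T0.l1 (xc T0.l4 T0.l4)))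
  (TrL.c (I.pos (nat_lit 0) (nat_lit 0)) (xa (xb T0.l5 (xb T0.l5 T0.l5)) (xb (xb T0.l5 T0.l5) (xb T0.l5 T0.l5)))
  TrL.n)))))) (by decide +kernel)
theorem bx0_15 : BoxOK sI cl4 cl4 cl4 t0 t0 b0_15 :=
  box_mk (TrL.c (I.pos (nat_lit 0) (nat_lit 0)) (xb (xa (xb T0.l6 T0.l6) (xb T0.l6 T0.l6)) (xa (xb T0.l6 (xa T0.l6 T0.l6)) (xb T0.l6 T0.l6)))
  (TrL.c (I.pos (nat_lit 0) (nat_lit 0)) (xb T0.l7 T0.l24)
  (TrL.c (I.pos (nat_lit 0) (nat_lit 0)) (xb T0.l25 T0.l8)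
  (TrL.c (I.pos (nat_lit 0) (nat_lit 0)) (xb T0.l9 T0.l9)
  (TrL.c (I.pos (nat_lit 0) (nat_lit 0)) (xb T0.l10 T0.l10)
  (TrL.c (I.pos (nat_lit 0) (nat_lit 0)) (xb T0.l11 T0.l11)
  TrL.n)))))) (by decide +kernel)
theorem bx0_16 : BoxOK sI cl4 cl4 cl4 t0 t0 b0_16 :=
  box_mk (TrL.c (I.pos (nat_lit 0) (nat_lit 0)) T0.l12
  (TrL.c (I.pos (nat_lit 0) (nat_lit 0)) T0.l13
  TrL.n)) (by decide +kernel)
theorem bx0_17 : BoxOK sI cl4 cl4 cl4 t0 t0 b0_17 :=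
  box_mk (TrL.c (I.pos (nat_lit 0) (nat_lit 0)) (xb (xa (xb (xb (xa (xb (xa T0.l14 T0.l14) T0.l14) T0.l14) T0.l14) T0.l14) (xb (xb T0.l14 T0.l14) T0.l14)) (xa (xb T0.l14 T0.l14) (xb (xa T0.l14 T0.l14) (xa T0.l14 T0.l14))))
  (TrL.c (I.pos (nat_lit 0) (nat_lit 0)) (xb (xa T0.l15 T0.l15) (xa T0.l15 T0.l15))
  (TrL.c (I.pos (nat_lit 0) (nat_lit 0)) (xb (xa T0.l16 T0.l16) T0.l16)
  (TrL.c (I.pos (nat_lit 0) (nat_lit 0)) (xb (xa T0.l17 (xb T0.l17 T0.l17)) T0.l17)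
  (TrL.c (I.pos (nat_lit 0) (nat_lit 0)) (xb (xa T0.l18 T0.l18) T0.l18)
  (TrL.c (I.pos (nat_lit 0) (nat_lit 0)) (xb (xa T0.l19 T0.l19) (xa T0.l19 T0.l19))
  TrL.n)))))) (by decide +kernel)
theorem bx0_18 : BoxOK sI cl4 cl4 cl4 t0 t0 b0_18 :=
  box_mk (TrL.c (I.pos (nat_lit 0) (nat_lit 0)) (xb (xa (xb (xa T0.l20 T0.l20) (xa T0.l20 T0.l20)) (xb T0.l20 T0.l20)) (xa (xb (xa T0.l20 T0.l20) (xa T0.l20 T0.l20)) (xb T0.l20 T0.l20)))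
  (TrL.c (I.pos (nat_lit 0) (nat_lit 0)) T0.l12
  (TrL.c (I.pos (nat_lit 0) (nat_lit 0)) T0.l13
  (TrL.c (I.pos (nat_lit 0) (nat_lit 0)) T0.l21
  (TrL.c (I.pos (nat_lit 0) (nat_lit 0)) T0.l22
  (TrL.c (I.pos (nat_lit 0) (nat_lit 0)) T0.l23
  TrL.n)))))) (by decide +kernel)
theorem bx0_19 : BoxOK sI cl4 cl4 cl4 t0 t0 b0_19 :=
  box_mk (TrL.c (I.pos (nat_lit 0) (nat_lit 0)) (xb T0.l24 T0.l24)
  (TrL.c (I.pos (nat_lit 0) (nat_lit 0)) (xb T0.l8 T0.l25)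
  TrL.n)) (by decide +kernel)
theorem bx0_20 : BoxOK sI cl4 cl4 cl4 t0 t0 b0_20 :=
  box_mk (TrL.c (I.pos (nat_lit 0) (nat_lit 0)) (xa (xb T0.l0 T0.l0) (xb T0.l3 (xa T0.l0 T0.l3)))
  (TrL.c (I.pos (nat_lit 0) (nat_lit 0)) (xa (xb T0.l1 T0.l1) (xb T0.l1 T0.l1))
  (TrL.c (I.pos (nat_lit 0) (nat_lit 0)) (xa T0.l5 T0.l5)
  (TrL.c (I.pos (nat_lit 0) (nat_lit 0)) (xa (xb (xa T0.l3 T0.l3) T0.l3) (xb (xa (xb T0.l3 T0.l3) T0.l14) (xa T0.l3 (xb T0.l3 T0.l3))))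
  (TrL.c (I.pos (nat_lit 0) (nat_lit 0)) (xa T0.l1 T0.l1)
  (TrL.c (I.pos (nat_lit 0) (nat_lit 0)) (xa (xb T0.l5 T0.l5) (xb T0.l5 T0.l5))
  TrL.n)))))) (by decide +kernel)
theorem bx0_21 : BoxOK sI cl4 cl4 cl4 t0 t0 b0_21 :=
  box_mk (TrL.c (I.pos (nat_lit 0) (nat_lit 0)) (xb (xa T0.l6 T0.l14) (xa T0.l14 T0.l14))
  (TrL.c (I.pos (nat_lit 0) (nat_lit 0)) (xb T0.l15 T0.l15)
  (TrL.c (I.pos (nat_lit 0) (nat_lit 0)) (xb T0.l16 T0.l16)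
  (TrL.c (I.pos (nat_lit 0) (nat_lit 0)) T0.l17
  (TrL.c (I.pos (nat_lit 0) (nat_lit 0)) (xb T0.l18 T0.l18)
  (TrL.c (I.pos (nat_lit 0) (nat_lit 0)) (xb T0.l19 T0.l19)
  TrL.n)))))) (by decide +kernel)
theorem bx0_22 : BoxOK sI cl4 cl4 cl4 t0 t0 b0_22 :=
  box_mk (TrL.c (I.pos (nat_lit 0) (nat_lit 0)) (xb T0.l20 (xa (xb T0.l20 (xa T0.l20 T0.l20)) T0.l20))
  (TrL.c (I.pos (nat_lit 0) (nat_lit 0)) T0.l34
  (TrL.c (I.pos (nat_lit 0) (nat_lit 0)) T0.l35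
  (TrL.c (I.pos (nat_lit 0) (nat_lit 0)) T0.l21
  (TrL.c (I.pos (nat_lit 0) (nat_lit 0)) T0.l22
  (TrL.c (I.pos (nat_lit 0) (nat_lit 0)) T0.l23
  TrL.n)))))) (by decide +kernel)
theorem bx0_23 : BoxOK sI cl4 cl4 cl4 t0 t0 b0_23 :=
  box_mk (TrL.c (I.pos (nat_lit 0) (nat_lit 0)) T0.l24
  (TrL.c (I.pos (nat_lit 0) (nat_lit 0)) T0.l25
  TrL.n)) (by decide +kernel)
theorem bx0_24 : BoxOK sI cl4 cl4 cl4 t0 t0 b0_24 :=
  box_mk (TrL.c (I.pos (nat_lit 0) (nat_lit 0)) (xb T0.l6 (xa T0.l6 T0.l6))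
  (TrL.c (I.pos (nat_lit 0) (nat_lit 0)) T0.l7
  (TrL.c (I.pos (nat_lit 0) (nat_lit 0)) T0.l8
  (TrL.c (I.pos (nat_lit 0) (nat_lit 0)) T0.l9
  (TrL.c (I.pos (nat_lit 0) (nat_lit 0)) T0.l10
  (TrL.c (I.pos (nat_lit 0) (nat_lit 0)) T0.l11
  TrL.n)))))) (by decide +kernel)
theorem bx0_25 : BoxOK sI cl4 cl4 cl4 t0 t0 b0_25 :=
  box_mk (TrL.c (I.pos (nat_lit 0) (nat_lit 0)) T0.l12
  (TrL.c (I.pos (nat_lit 0) (nat_lit 0)) T0.l13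
  TrL.n)) (by decide +kernel)
theorem bx0_26 : BoxOK sI cl4 cl4 cl4 t0 t0 b0_26 :=
  box_mk (TrL.c (I.pos (nat_lit 0) (nat_lit 0)) T0.l0
  (TrL.c (I.pos (nat_lit 0) (nat_lit 0)) T0.l1
  (TrL.c (I.pos (nat_lit 0) (nat_lit 0)) T0.l2
  (TrL.c (I.pos (nat_lit 0) (nat_lit 0)) T0.l3
  (TrL.c (I.pos (nat_lit 0) (nat_lit 0)) T0.l4
  (TrL.c (I.pos (nat_lit 0) (nat_lit 0)) T0.l5
  TrL.n)))))) (by decide +kernel)
theorem bx0_27 : BoxOK sI cl4 cl4 cl4 t0 t0 b0_27 :=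
  box_mk (TrL.c (I.pos (nat_lit 0) (nat_lit 0)) T0.l6
  (TrL.c (I.pos (nat_lit 0) (nat_lit 0)) T0.l7
  (TrL.c (I.pos (nat_lit 0) (nat_lit 0)) T0.l8
  (TrL.c (I.pos (nat_lit 0) (nat_lit 0)) T0.l9
  (TrL.c (I.pos (nat_lit 0) (nat_lit 0)) T0.l10
  (TrL.c (I.pos (nat_lit 0) (nat_lit 0)) T0.l11
  TrL.n)))))) (by decide +kernel)
theorem bx0_28 : BoxOK sI cl4 cl4 cl4 t0 t0 b0_28 :=
  box_mk (TrL.c (I.pos (nat_lit 0) (nat_lit 0)) T0.l12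
  (TrL.c (I.pos (nat_lit 0) (nat_lit 0)) T0.l13
  TrL.n)) (by decide +kernel)
theorem bx0_29 : BoxOK sI cl4 cl4 cl4 t0 t0 b0_29 :=
  box_mk (TrL.c (I.pos (nat_lit 0) (nat_lit 0)) T0.l14
  (TrL.c (I.pos (nat_lit 0) (nat_lit 0)) T0.l15
  (TrL.c (I.pos (nat_lit 0) (nat_lit 0)) T0.l16
  (TrL.c (I.pos (nat_lit 0) (nat_lit 0)) T0.l17
  (TrL.c (I.pos (nat_lit 0) (nat_lit 0)) T0.l18
  (TrL.c (I.pos (nat_lit 0) (nat_lit 0)) T0.l19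
  TrL.n)))))) (by decide +kernel)
theorem bx0_30 : BoxOK sI cl4 cl4 cl4 t0 t0 b0_30 :=
  box_mk (TrL.c (I.pos (nat_lit 0) (nat_lit 0)) T0.l20
  (TrL.c (I.pos (nat_lit 0) (nat_lit 0)) T0.l34
  (TrL.c (I.pos (nat_lit 0) (nat_lit 0)) T0.l35
  (TrL.c (I.pos (nat_lit 0) (nat_lit 0)) T0.l21
  (TrL.c (I.pos (nat_lit 0) (nat_lit 0)) T0.l22
  (TrL.c (I.pos (nat_lit 0) (nat_lit 0)) T0.l23
  TrL.n)))))) (by decide +kernel)
theorem bx0_31 : BoxOK sI cl4 cl4 cl4 t0 t0 b0_31 :=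
  box_mk (TrL.c (I.pos (nat_lit 0) (nat_lit 0)) T0.l24
  (TrL.c (I.pos (nat_lit 0) (nat_lit 0)) T0.l25
  TrL.n)) (by decide +kernel)
theorem bx0_32 : BoxOK sI cl4 cl4 cl4 t0 t0 b0_32 :=
  box_mk (TrL.c (I.pos (nat_lit 0) (nat_lit 0)) T0.l6
  (TrL.c (I.pos (nat_lit 0) (nat_lit 0)) T0.l27
  (TrL.c (I.pos (nat_lit 0) (nat_lit 0)) T0.l28
  (TrL.c (I.pos (nat_lit 0) (nat_lit 0)) T0.l9
  (TrL.c (I.pos (nat_lit 0) (nat_lit 0)) T0.l30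
  (TrL.c (I.pos (nat_lit 0) (nat_lit 0)) T0.l31
  TrL.n)))))) (by decide +kernel)
theorem bx0_33 : BoxOK sI cl4 cl4 cl4 t0 t0 b0_33 :=
  box_mk (TrL.c (I.pos (nat_lit 0) (nat_lit 0)) T0.l32
  (TrL.c (I.pos (nat_lit 0) (nat_lit 0)) T0.l33
  TrL.n)) (by decide +kernel)
theorem bx0_34 : BoxOK sI cl4 cl4 cl4 t0 t0 b0_34 :=
  box_mk (TrL.c (I.pos (nat_lit 0) (nat_lit 0)) (xa T0.l6 (xb T0.l6 T0.l14))
  (TrL.c (I.pos (nat_lit 0) (nat_lit 0)) T0.l24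
  (TrL.c (I.pos (nat_lit 0) (nat_lit 0)) T0.l25
  (TrL.c (I.pos (nat_lit 0) (nat_lit 0)) T0.l9
  (TrL.c (I.pos (nat_lit 0) (nat_lit 0)) T0.l10
  (TrL.c (I.pos (nat_lit 0) (nat_lit 0)) T0.l31
  TrL.n)))))) (by decide +kernel)
theorem bx0_35 : BoxOK sI cl4 cl4 cl4 t0 t0 b0_35 :=
  box_mk (TrL.c (I.pos (nat_lit 0) (nat_lit 0)) T0.l32
  (TrL.c (I.pos (nat_lit 0) (nat_lit 0)) T0.l33
  TrL.n)) (by decide +kernel)
theorem sv0 : StarV sI cl4 cl4 cl4 t0 t0 t0 :=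
  (bt_n (bt_n (bt_n (bt_n (bt_n (bt_b bx0_0) (bt_b bx0_1)) (bt_n (bt_b bx0_2) (bt_b bx0_3))) (bt_n (bt_n (bt_b bx0_4) (bt_b bx0_5)) (bt_n (bt_b bx0_6) (bt_n (bt_b bx0_7) (bt_b bx0_8))))) (bt_n (bt_n (bt_n (bt_b bx0_9) (bt_b bx0_10)) (bt_n (bt_b bx0_11) (bt_b bx0_12))) (bt_n (bt_n (bt_b bx0_13) (bt_b bx0_14)) (bt_n (bt_b bx0_15) (bt_n (bt_b bx0_16) (bt_b bx0_17)))))) (bt_n (bt_n (bt_n (bt_n (bt_b bx0_18) (bt_b bx0_19)) (bt_n (bt_b bx0_20) (bt_b bx0_21))) (bt_n (bt_n (bt_b bx0_22) (bt_b bx0_23)) (bt_n (bt_b bx0_24) (bt_n (bt_b bx0_25) (bt_b bx0_26))))) (bt_n (bt_n (bt_n (bt_b bx0_27) (bt_b bx0_28)) (bt_n (bt_b bx0_29) (bt_b bx0_30))) (bt_n (bt_n (bt_b bx0_31) (bt_b bx0_32)) (bt_n (bt_b bx0_33) (bt_n (bt_b bx0_34) (bt_b bx0_35)))))))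
def S0 : StarD := StarD.mk cl4 cl4 cl4 0 0 t0
def G : List StarD := [S0]
theorem so0 : StarOK sI G S0 :=
  star_mk (by decide) (by decide) rfl rfl rfl rfl rfl rfl (rfl : _ = t0) (rfl : _ = t0)
  (st_mk (Pth.l (Pth.l (Pth.l (Pth.l (Pth.l Pth.z))))) (nat_lit 413749136) (nat_lit 415947663) (by decide +kernel))
  (st_mk (Pth.l (Pth.l (Pth.l (Pth.l (Pth.l Pth.z))))) (nat_lit 460163284) (nat_lit 463029969) (by decide +kernel))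
  (st_mk (Pth.l (Pth.l (Pth.l (Pth.l (Pth.l Pth.z))))) (nat_lit 515901232) (nat_lit 519655748) (by decide +kernel)) sv0
theorem ok : GroupOK (nat_lit 209321984) (nat_lit 225509376) G := grp_mk (allS_c so0 allS_n)
theorem cov : GCov G cl4 cl4 cl4 := cov_mk
  ⟨0, by decide, rfl, rfl, rfl⟩ ⟨0, by decide, rfl, rfl, rfl⟩ ⟨0, by decide, rfl, rfl, rfl⟩ ⟨0, by decide, rfl, rfl, rfl⟩ ⟨0, by decide, rfl, rfl, rfl⟩ ⟨0, by decide, rfl, rfl, rfl⟩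
end Q111_4

namespace Q111_5
def sI : I := I.pos (nat_lit 225443840) (nat_lit 241631232)
def b0_0 : Bx := Bx.mk (St.mk (I.pos (nat_lit 117489664) (nat_lit 215302144)) (I.mix (nat_lit 278528) (nat_lit 93831168)) (I.mix (nat_lit 278528) (nat_lit 110149632)) (I.pos (nat_lit 390938624) (nat_lit 524238848)) (I.mix (nat_lit 305692672) (nat_lit 170934272)) (I.mix (nat_lit 147374080) (nat_lit 159252480)) (I.mix (nat_lit 281739264) (nat_lit 272449536)))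
  false (nat_lit 34834467)
def b0_1 : Bx := Bx.mk (St.mk (I.pos (nat_lit 14565376) (nat_lit 80101376)) (I.neg (nat_lit 37961728) (nat_lit 97189888)) (I.neg (nat_lit 24199168) (nat_lit 79593472)) (I.pos (nat_lit 290897920) (nat_lit 341147648)) (I.mix (nat_lit 181993472) (nat_lit 159858688)) (I.mix (nat_lit 145915904) (nat_lit 125157376)) (I.mix (nat_lit 163561472) (nat_lit 134217728)))
  false (nat_lit 98457077)
def b0_2 : Bx := Bx.mk (St.mk (I.mix (nat_lit 53018624) (nat_lit 4341760)) (I.pos (nat_lit 28065792) (nat_lit 87572480)) (I.neg (nat_lit 45056000) (nat_lit 78135296)) (I.pos (nat_lit 287096832) (nat_lit 315375616)) (I.mix (nat_lit 81510400) (nat_lit 213581824)) (I.mix (nat_lit 167723008) (nat_lit 129728512)) (I.mix (nat_lit 122470400) (nat_lit 58884096)))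
  true (nat_lit 0)
def b0_3 : Bx := Bx.mk (St.mk (I.pos (nat_lit 94552064) (nat_lit 167673856)) (I.pos (nat_lit 2555904) (nat_lit 71598080)) (I.pos (nat_lit 14876672) (nat_lit 102825984)) (I.pos (nat_lit 347209728) (nat_lit 447774720)) (I.mix (nat_lit 269828096) (nat_lit 94060544)) (I.mix (nat_lit 243515392) (nat_lit 160219136)) (I.mix (nat_lit 270974976) (nat_lit 254541824)))
  false (nat_lit 0)
def b0_4 : Bx := Bx.mk (St.mk (I.mix (nat_lit 4341760) (nat_lit 49758208)) (I.neg (nat_lit 28065792) (nat_lit 87572480)) (I.neg (nat_lit 45334528) (nat_lit 78135296)) (I.pos (nat_lit 287096832) (nat_lit 313835520)) (I.mix (nat_lit 213581824) (nat_lit 81510400)) (I.mix (nat_lit 129728512) (nat_lit 167755776)) (I.mix (nat_lit 122470400) (nat_lit 58884096)))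
  false (nat_lit 42870313)
def b0_5 : Bx := Bx.mk (St.mk (I.neg (nat_lit 14565376) (nat_lit 80101376)) (I.pos (nat_lit 37961728) (nat_lit 97189888)) (I.neg (nat_lit 24199168) (nat_lit 79577088)) (I.pos (nat_lit 290897920) (nat_lit 341147648)) (I.mix (nat_lit 159875072) (nat_lit 181977088)) (I.mix (nat_lit 125157376) (nat_lit 145948672)) (I.mix (nat_lit 163610624) (nat_lit 134201344)))
  true (nat_lit 0)
def b0_6 : Bx := Bx.mk (St.mk (I.pos (nat_lit 161824768) (nat_lit 210665472)) (I.mix (nat_lit 21790720) (nat_lit 39895040)) (I.neg (nat_lit 11517952) (nat_lit 118210560)) (I.pos (nat_lit 415662080) (nat_lit 495992832)) (I.mix (nat_lit 229031936) (nat_lit 63881216)) (I.mix (nat_lit 139526144) (nat_lit 137035776)) (I.mix (nat_lit 220151808) (nat_lit 251117568)))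
  false (nat_lit 0)
def b0_7 : Bx := Bx.mk (St.mk (I.pos (nat_lit 53542912) (nat_lit 89063424)) (I.mix (nat_lit 46006272) (nat_lit 2785280)) (I.mix (nat_lit 33652736) (nat_lit 5996544)) (I.pos (nat_lit 303628288) (nat_lit 331563008)) (I.mix (nat_lit 160661504) (nat_lit 60653568)) (I.mix (nat_lit 86212608) (nat_lit 104890368)) (I.mix (nat_lit 91291648) (nat_lit 88702976)))
  false (nat_lit 0)
def b0_8 : Bx := Bx.mk (St.mk (I.neg (nat_lit 7634944) (nat_lit 40026112)) (I.mix (nat_lit 18137088) (nat_lit 27000832)) (I.neg (nat_lit 45760512) (nat_lit 56475648)) (I.pos (nat_lit 284622848) (nat_lit 294862848)) (I.mix (nat_lit 129843200) (nat_lit 71499776)) (I.mix (nat_lit 85622784) (nat_lit 87818240)) (I.mix (nat_lit 36732928) (nat_lit 26640384)))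
  true (nat_lit 0)
def b0_9 : Bx := Bx.mk (St.mk (I.pos (nat_lit 106971136) (nat_lit 145637376)) (I.mix (nat_lit 51658752) (nat_lit 2179072)) (I.mix (nat_lit 45449216) (nat_lit 13549568)) (I.pos (nat_lit 346914816) (nat_lit 391512064)) (I.mix (nat_lit 102711296) (nat_lit 144408576)) (I.mix (nat_lit 138412032) (nat_lit 110755840)) (I.mix (nat_lit 156450816) (nat_lit 109805568)))
  false (nat_lit 0)
def b0_10 : Bx := Bx.mk (St.mk (I.pos (nat_lit 7634944) (nat_lit 40042496)) (I.mix (nat_lit 27312128) (nat_lit 18137088)) (I.neg (nat_lit 45760512) (nat_lit 56623104)) (I.pos (nat_lit 284622848) (nat_lit 294879232)) (I.mix (nat_lit 71581696) (nat_lit 129892352)) (I.mix (nat_lit 87834624) (nat_lit 85655552)) (I.mix (nat_lit 36732928) (nat_lit 26640384)))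
  false (nat_lit 0)
def b0_11 : Bx := Bx.mk (St.mk (I.neg (nat_lit 53526528) (nat_lit 89063424)) (I.mix (nat_lit 2785280) (nat_lit 46006272)) (I.mix (nat_lit 33652736) (nat_lit 5996544)) (I.pos (nat_lit 303628288) (nat_lit 331595776)) (I.mix (nat_lit 60719104) (nat_lit 160808960)) (I.mix (nat_lit 104955904) (nat_lit 86212608)) (I.mix (nat_lit 91373568) (nat_lit 88752128)))
  true (nat_lit 0)
def b0_12 : Bx := Bx.mk (St.mk (I.pos (nat_lit 63373312) (nat_lit 105512960)) (I.mix (nat_lit 37289984) (nat_lit 4407296)) (I.mix (nat_lit 30048256) (nat_lit 6455296)) (I.pos (nat_lit 309952512) (nat_lit 345128960)) (I.mix (nat_lit 122191872) (nat_lit 82182144)) (I.mix (nat_lit 71073792) (nat_lit 105234432)) (I.mix (nat_lit 81444864) (nat_lit 84672512)))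
  false (nat_lit 0)
def b0_13 : Bx := Bx.mk (St.mk (I.mix (nat_lit 32014336) (nat_lit 4014080)) (I.mix (nat_lit 20922368) (nat_lit 16039936)) (I.neg (nat_lit 45858816) (nat_lit 51494912)) (I.pos (nat_lit 284884992) (nat_lit 292126720)) (I.mix (nat_lit 99401728) (nat_lit 78626816)) (I.mix (nat_lit 87113728) (nat_lit 67682304)) (I.mix (nat_lit 19087360) (nat_lit 20955136)))
  true (nat_lit 0)
def b0_14 : Bx := Bx.mk (St.mk (I.pos (nat_lit 147832832) (nat_lit 200704000)) (I.pos (nat_lit 16842752) (nat_lit 84819968)) (I.mix (nat_lit 30244864) (nat_lit 78233600)) (I.pos (nat_lit 413630464) (nat_lit 510754816)) (I.mix (nat_lit 187170816) (nat_lit 146767872)) (I.mix (nat_lit 181633024) (nat_lit 151076864)) (I.mix (nat_lit 370704384) (nat_lit 216186880)))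
  false (nat_lit 0)
def b0_15 : Bx := Bx.mk (St.mk (I.pos (nat_lit 41664512) (nat_lit 84901888)) (I.neg (nat_lit 23855104) (nat_lit 83951616)) (I.neg (nat_lit 16236544) (nat_lit 62816256)) (I.pos (nat_lit 300105728) (nat_lit 339558400)) (I.mix (nat_lit 142721024) (nat_lit 142163968)) (I.mix (nat_lit 120045568) (nat_lit 154091520)) (I.mix (nat_lit 123011072) (nat_lit 157401088)))
  false (nat_lit 42495858)
def b0_16 : Bx := Bx.mk (St.mk (I.mix (nat_lit 41844736) (nat_lit 2097152)) (I.pos (nat_lit 11354112) (nat_lit 64946176)) (I.neg (nat_lit 49922048) (nat_lit 71499776)) (I.pos (nat_lit 285458432) (nat_lit 302170112)) (I.mix (nat_lit 97402880) (nat_lit 160104448)) (I.mix (nat_lit 149241856) (nat_lit 83197952)) (I.mix (nat_lit 71696384) (nat_lit 39731200)))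
  true (nat_lit 0)
def b0_17 : Bx := Bx.mk (St.mk (I.pos (nat_lit 98304000) (nat_lit 153780224)) (I.mix (nat_lit 14909440) (nat_lit 41484288)) (I.mix (nat_lit 6160384) (nat_lit 66240512)) (I.pos (nat_lit 346537984) (nat_lit 406208512)) (I.mix (nat_lit 200294400) (nat_lit 117702656)) (I.mix (nat_lit 215400448) (nat_lit 111706112)) (I.mix (nat_lit 225574912) (nat_lit 158597120)))
  false (nat_lit 5267936)
def b0_18 : Bx := Bx.mk (St.mk (I.mix (nat_lit 2097152) (nat_lit 41844736)) (I.neg (nat_lit 11321344) (nat_lit 64946176)) (I.neg (nat_lit 49905664) (nat_lit 71499776)) (I.pos (nat_lit 285458432) (nat_lit 302170112)) (I.mix (nat_lit 160104448) (nat_lit 97402880)) (I.mix (nat_lit 83197952) (nat_lit 149241856)) (I.mix (nat_lit 71712768) (nat_lit 39747584)))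
  false (nat_lit 0)
def b0_19 : Bx := Bx.mk (St.mk (I.neg (nat_lit 41713664) (nat_lit 84869120)) (I.pos (nat_lit 23855104) (nat_lit 83951616)) (I.neg (nat_lit 16236544) (nat_lit 62816256)) (I.pos (nat_lit 300154880) (nat_lit 339558400)) (I.mix (nat_lit 142180352) (nat_lit 142721024)) (I.mix (nat_lit 154107904) (nat_lit 120045568)) (I.mix (nat_lit 122978304) (nat_lit 157384704)))
  true (nat_lit 0)
def b0_20 : Bx := Bx.mk (St.mk (I.pos (nat_lit 178290688) (nat_lit 234881024)) (I.mix (nat_lit 26722304) (nat_lit 23445504)) (I.neg (nat_lit 39124992) (nat_lit 132186112)) (I.pos (nat_lit 438124544) (nat_lit 550764544)) (I.mix (nat_lit 199835648) (nat_lit 87113728)) (I.mix (nat_lit 145326080) (nat_lit 107036672)) (I.mix (nat_lit 261095424) (nat_lit 211173376)))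
  false (nat_lit 0)
def b0_21 : Bx := Bx.mk (St.mk (I.pos (nat_lit 90144768) (nat_lit 133169152)) (I.neg (nat_lit 5652480) (nat_lit 51937280)) (I.neg (nat_lit 1196032) (nat_lit 46268416)) (I.pos (nat_lit 331120640) (nat_lit 375619584)) (I.mix (nat_lit 126582784) (nat_lit 95830016)) (I.mix (nat_lit 126943232) (nat_lit 92979200)) (I.mix (nat_lit 142966784) (nat_lit 75448320)))
  false (nat_lit 0)
def b0_22 : Bx := Bx.mk (St.mk (I.mix (nat_lit 7749632) (nat_lit 31408128)) (I.mix (nat_lit 16056320) (nat_lit 20889600)) (I.neg (nat_lit 45842432) (nat_lit 51429376)) (I.pos (nat_lit 284884992) (nat_lit 291979264)) (I.mix (nat_lit 78184448) (nat_lit 99237888)) (I.mix (nat_lit 67452928) (nat_lit 86867968)) (I.mix (nat_lit 18857984) (nat_lit 20692992)))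
  false (nat_lit 0)
def b0_23 : Bx := Bx.mk (St.mk (I.neg (nat_lit 64339968) (nat_lit 105889792)) (I.mix (nat_lit 4374528) (nat_lit 37289984)) (I.mix (nat_lit 30031872) (nat_lit 6455296)) (I.pos (nat_lit 310624256) (nat_lit 345522176)) (I.mix (nat_lit 81690624) (nat_lit 121749504)) (I.mix (nat_lit 104923136) (nat_lit 70860800)) (I.mix (nat_lit 81330176) (nat_lit 84508672)))
  true (nat_lit 0)
def b0_24 : Bx := Bx.mk (St.mk (I.pos (nat_lit 53477376) (nat_lit 89096192)) (I.neg (nat_lit 671744) (nat_lit 45776896)) (I.mix (nat_lit 33472512) (nat_lit 2637824)) (I.pos (nat_lit 303595520) (nat_lit 331612160)) (I.mix (nat_lit 160858112) (nat_lit 60702720)) (I.mix (nat_lit 83771392) (nat_lit 104955904)) (I.mix (nat_lit 91357184) (nat_lit 88768512)))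
  false (nat_lit 0)
def b0_25 : Bx := Bx.mk (St.mk (I.neg (nat_lit 7569408) (nat_lit 40075264)) (I.mix (nat_lit 14106624) (nat_lit 32079872)) (I.neg (nat_lit 46317568) (nat_lit 56983552)) (I.pos (nat_lit 285016064) (nat_lit 294912000)) (I.mix (nat_lit 129908736) (nat_lit 71581696)) (I.mix (nat_lit 85671936) (nat_lit 87883776)) (I.mix (nat_lit 36552704) (nat_lit 26607616)))
  true (nat_lit 0)
def b0_26 : Bx := Bx.mk (St.mk (I.pos (nat_lit 178569216) (nat_lit 204832768)) (I.pos (nat_lit 11943936) (nat_lit 36339712)) (I.neg (nat_lit 14270464) (nat_lit 55083008)) (I.pos (nat_lit 449363968) (nat_lit 490307584)) (I.mix (nat_lit 80740352) (nat_lit 17301504)) (I.mix (nat_lit 54919168) (nat_lit 41189376)) (I.mix (nat_lit 111607808) (nat_lit 69287936)))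
  false (nat_lit 0)
def b0_27 : Bx := Bx.mk (St.mk (I.pos (nat_lit 62324736) (nat_lit 85622784)) (I.neg (nat_lit 23986176) (nat_lit 48889856)) (I.neg (nat_lit 15024128) (nat_lit 36044800)) (I.pos (nat_lit 311361536) (nat_lit 330285056)) (I.mix (nat_lit 80019456) (nat_lit 60964864)) (I.mix (nat_lit 53805056) (nat_lit 71565312)) (I.mix (nat_lit 57573376) (nat_lit 63471616)))
  false (nat_lit 0)
def b0_28 : Bx := Bx.mk (St.mk (I.neg (nat_lit 8699904) (nat_lit 30539776)) (I.pos (nat_lit 6946816) (nat_lit 31981568)) (I.neg (nat_lit 50610176) (nat_lit 56918016)) (I.pos (nat_lit 285474816) (nat_lit 292749312)) (I.mix (nat_lit 46907392) (nat_lit 63668224)) (I.mix (nat_lit 49774592) (nat_lit 48660480)) (I.mix (nat_lit 24035328) (nat_lit 8945664)))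
  true (nat_lit 0)
def b0_29 : Bx := Bx.mk (St.mk (I.pos (nat_lit 112082944) (nat_lit 134676480)) (I.mix (nat_lit 20905984) (nat_lit 6111232)) (I.mix (nat_lit 10797056) (nat_lit 17563648)) (I.pos (nat_lit 353615872) (nat_lit 379764736)) (I.mix (nat_lit 75464704) (nat_lit 30064640)) (I.mix (nat_lit 54312960) (nat_lit 49954816)) (I.mix (nat_lit 54951936) (nat_lit 52264960)))
  false (nat_lit 0)
def b0_30 : Bx := Bx.mk (St.mk (I.pos (nat_lit 8699904) (nat_lit 30605312)) (I.neg (nat_lit 6864896) (nat_lit 31981568)) (I.neg (nat_lit 50675712) (nat_lit 56918016)) (I.pos (nat_lit 285376512) (nat_lit 292765696)) (I.mix (nat_lit 66797568) (nat_lit 55443456)) (I.mix (nat_lit 54444032) (nat_lit 52723712)) (I.mix (nat_lit 26165248) (nat_lit 10436608)))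
  false (nat_lit 0)
def b0_31 : Bx := Bx.mk (St.mk (I.neg (nat_lit 62324736) (nat_lit 85622784)) (I.pos (nat_lit 23412736) (nat_lit 48889856)) (I.neg (nat_lit 13762560) (nat_lit 36044800)) (I.pos (nat_lit 311345152) (nat_lit 330285056)) (I.mix (nat_lit 60964864) (nat_lit 80019456)) (I.mix (nat_lit 71565312) (nat_lit 53805056)) (I.mix (nat_lit 57589760) (nat_lit 63471616)))
  true (nat_lit 0)
def b0_32 : Bx := Bx.mk (St.mk (I.pos (nat_lit 86179840) (nat_lit 104349696)) (I.neg (nat_lit 18169856) (nat_lit 35848192)) (I.neg (nat_lit 12320768) (nat_lit 28295168)) (I.pos (nat_lit 327041024) (nat_lit 344031232)) (I.mix (nat_lit 56737792) (nat_lit 27475968)) (I.mix (nat_lit 41435136) (nat_lit 31064064)) (I.mix (nat_lit 47185920) (nat_lit 20578304)))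
  false (nat_lit 0)
def b0_33 : Bx := Bx.mk (St.mk (I.mix (nat_lit 12697600) (nat_lit 6406144)) (I.mix (nat_lit 2457600) (nat_lit 13844480)) (I.neg (nat_lit 47857664) (nat_lit 50200576)) (I.pos (nat_lit 284868608) (nat_lit 288227328)) (I.mix (nat_lit 26820608) (nat_lit 39370752)) (I.mix (nat_lit 25968640) (nat_lit 34226176)) (I.mix (nat_lit 6307840) (nat_lit 1753088)))
  true (nat_lit 0)
def b0_34 : Bx := Bx.mk (St.mk (I.pos (nat_lit 71073792) (nat_lit 105889792)) (I.mix (nat_lit 36438016) (nat_lit 622592)) (I.mix (nat_lit 28868608) (nat_lit 3620864)) (I.pos (nat_lit 315523072) (nat_lit 345505792)) (I.mix (nat_lit 98648064) (nat_lit 57901056)) (I.mix (nat_lit 61358080) (nat_lit 70385664)) (I.mix (nat_lit 68648960) (nat_lit 52772864)))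
  false (nat_lit 0)
def b0_35 : Bx := Bx.mk (St.mk (I.mix (nat_lit 31408128) (nat_lit 7143424)) (I.mix (nat_lit 19906560) (nat_lit 13975552)) (I.neg (nat_lit 46465024) (nat_lit 51249152)) (I.pos (nat_lit 285016064) (nat_lit 291766272)) (I.mix (nat_lit 78217216) (nat_lit 39993344)) (I.mix (nat_lit 62439424) (nat_lit 44924928)) (I.mix (nat_lit 14008320) (nat_lit 14385152)))
  true (nat_lit 0)
def t0 : BTr := (BTr.n (BTr.n (BTr.n (BTr.n (BTr.n (BTr.b b0_0) (BTr.b b0_1)) (BTr.n (BTr.b b0_2) (BTr.b b0_3))) (BTr.n (BTr.n (BTr.b b0_4) (BTr.b b0_5)) (BTr.n (BTr.b b0_6) (BTr.n (BTr.b b0_7) (BTr.b b0_8))))) (BTr.n (BTr.n (BTr.n (BTr.b b0_9) (BTr.b b0_10)) (BTr.n (BTr.b b0_11) (BTr.b b0_12))) (BTr.n (BTr.n (BTr.b b0_13) (BTr.b b0_14)) (BTr.n (BTr.b b0_15) (BTr.n (BTr.b b0_16) (BTr.b b0_17)))))) (BTr.n (BTr.n (BTr.n (BTr.n (BTr.b b0_18) (BTr.b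 b0_19)) (BTr.n (BTr.b b0_20) (BTr.b b0_21))) (BTr.n (BTr.n (BTr.b b0_22) (BTr.b b0_23)) (BTr.n (BTr.b b0_24) (BTr.n (BTr.b b0_25) (BTr.b b0_26))))) (BTr.n (BTr.n (BTr.n (BTr.b b0_27) (BTr.b b0_28)) (BTr.n (BTr.b b0_29) (BTr.b b0_30))) (BTr.n (BTr.n (BTr.b b0_31) (BTr.b b0_32)) (BTr.n (BTr.b b0_33) (BTr.n (BTr.b b0_34) (BTr.b b0_35)))))))
namespace T0
def l0 : Tr := Tr.L (Pth.l (Pth.l (Pth.l (Pth.l (Pth.l Pth.z)))))
def l1 : Tr := Tr.L (Pth.l (Pth.l (Pth.l (Pth.l (Pth.r Pth.z)))))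
def l2 : Tr := Tr.L (Pth.l (Pth.l (Pth.l (Pth.r (Pth.l Pth.z)))))
def l3 : Tr := Tr.L (Pth.l (Pth.l (Pth.l (Pth.r (Pth.r Pth.z)))))
def l4 : Tr := Tr.L (Pth.l (Pth.l (Pth.r (Pth.l (Pth.l Pth.z)))))
def l5 : Tr := Tr.L (Pth.l (Pth.l (Pth.r (Pth.l (Pth.r Pth.z)))))
def l6 : Tr := Tr.L (Pth.l (Pth.l (Pth.r (Pth.r (Pth.l Pth.z)))))
def l7 : Tr := Tr.L (Pth.l (Pth.l (Pth.r (Pth.r (Pth.r (Pth.l Pth.z))))))
def l8 : Tr := Tr.L (Pth.l (Pth.l (Pth.r (Pth.r (Pth.r (Pth.r Pth.z))))))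
def l9 : Tr := Tr.L (Pth.l (Pth.r (Pth.l (Pth.l (Pth.l Pth.z)))))
def l10 : Tr := Tr.L (Pth.l (Pth.r (Pth.l (Pth.l (Pth.r Pth.z)))))
def l11 : Tr := Tr.L (Pth.l (Pth.r (Pth.l (Pth.r (Pth.l Pth.z)))))
def l12 : Tr := Tr.L (Pth.l (Pth.r (Pth.l (Pth.r (Pth.r Pth.z)))))
def l13 : Tr := Tr.L (Pth.l (Pth.r (Pth.r (Pth.l (Pth.l Pth.z)))))
def l14 : Tr := Tr.L (Pth.l (Pth.r (Pth.r (Pth.l (Pth.r Pth.z)))))
def l15 : Tr := Tr.L (Pth.l (Pth.r (Pth.r (Pth.r (Pth.l Pth.z)))))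
def l16 : Tr := Tr.L (Pth.l (Pth.r (Pth.r (Pth.r (Pth.r (Pth.l Pth.z))))))
def l17 : Tr := Tr.L (Pth.l (Pth.r (Pth.r (Pth.r (Pth.r (Pth.r Pth.z))))))
def l18 : Tr := Tr.L (Pth.r (Pth.l (Pth.l (Pth.l (Pth.l Pth.z)))))
def l19 : Tr := Tr.L (Pth.r (Pth.l (Pth.l (Pth.l (Pth.r Pth.z)))))
def l20 : Tr := Tr.L (Pth.r (Pth.l (Pth.l (Pth.r (Pth.l Pth.z)))))
def l21 : Tr := Tr.L (Pth.r (Pth.l (Pth.l (Pth.r (Pth.r Pth.z)))))
def l22 : Tr := Tr.L (Pth.r (Pth.l (Pth.r (Pth.l (Pth.l Pth.z)))))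
def l23 : Tr := Tr.L (Pth.r (Pth.l (Pth.r (Pth.l (Pth.r Pth.z)))))
def l24 : Tr := Tr.L (Pth.r (Pth.l (Pth.r (Pth.r (Pth.l Pth.z)))))
def l25 : Tr := Tr.L (Pth.r (Pth.l (Pth.r (Pth.r (Pth.r (Pth.l Pth.z))))))
def l26 : Tr := Tr.L (Pth.r (Pth.l (Pth.r (Pth.r (Pth.r (Pth.r Pth.z))))))
def l27 : Tr := Tr.L (Pth.r (Pth.r (Pth.l (Pth.l (Pth.l Pth.z)))))
def l28 : Tr := Tr.L (Pth.r (Pth.r (Pth.l (Pth.l (Pth.r Pth.z)))))
def l29 : Tr := Tr.L (Pth.r (Pth.r (Pth.l (Pth.r (Pth.l Pth.z)))))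
def l30 : Tr := Tr.L (Pth.r (Pth.r (Pth.l (Pth.r (Pth.r Pth.z)))))
def l31 : Tr := Tr.L (Pth.r (Pth.r (Pth.r (Pth.l (Pth.l Pth.z)))))
def l32 : Tr := Tr.L (Pth.r (Pth.r (Pth.r (Pth.l (Pth.r Pth.z)))))
def l33 : Tr := Tr.L (Pth.r (Pth.r (Pth.r (Pth.r (Pth.l Pth.z)))))
def l34 : Tr := Tr.L (Pth.r (Pth.r (Pth.r (Pth.r (Pth.r (Pth.l Pth.z))))))
def l35 : Tr := Tr.L (Pth.r (Pth.r (Pth.r (Pth.r (Pth.r (Pth.r Pth.z))))))
end T0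
def rc0_0_0_ll : Tr := (xa (xb (xa (xb (xa (xb T0.l0 T0.l0) T0.l0) (xa (xb T0.l0 T0.l0) (xb T0.l0 T0.l0))) (xb T0.l0 (xa T0.l0 T0.l0))) (xa (xb (xa (xb T0.l0 T0.l0) (xb T0.l0 T0.l0)) (xa (xb T0.l0 T0.l0) (xb T0.l0 T0.l0))) (xb (xa T0.l0 T0.l0) (xa T0.l0 T0.l0)))) (xb (xa (xb T0.l0 T0.l0) T0.l0) (xa (xb T0.l0 T0.l0) (xb T0.l0 T0.l0))))
theorem qc0_0_0_ll : chkTr (tg true true false RT.r2) b0_0 t0 rc0_0_0_ll
  (upd lo Co.b (upd lo Co.a (rc sI cl4 cl4 cl4 b0_0 (I.pos (nat_lit 0) (nat_lit 0))))) = true := by decide +kernel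
def rc0_0_0_lr : Tr := (xa (xb (xa (xb (xa (xb T0.l0 T0.l0) (xb T0.l0 T0.l0)) (xa (xb T0.l0 T0.l0) (xb T0.l0 T0.l0))) (xb (xa T0.l0 T0.l0) (xa (xb T0.l0 T0.l0) T0.l0))) (xa (xb (xa (xb (xc T0.l0 T0.l0) (xc T0.l0 T0.l0)) (xb T0.l0 (xc T0.l0 T0.l0))) (xa (xb (xc (xa T0.l0 T0.l0) (xa T0.l0 T0.l0)) (xc (xa T0.l0 T0.l0) (xa T0.l0 T0.l0))) (xb (xc T0.l0 T0.l0) (xc (xa T0.l0 T0.l0) (xa T0.l0 T0.l0))))) (xb (xa (xb T0.l0 (xc T0.l0 T0.l0)) (xb T0.l0 T0.l0)) (xa (xb (xc T0.l0 T0.l0) (xc (xa T0.l0 T0.l0) (xs T0.l0 T0.l0))) (xb (xc T0.l0 T0.l0) (xc (xa T0.l0 T0.l0) (xs T0.l0 T0.l0))))))) (xb (xa (xb (xa T0.l0 T0.l0) (xa T0.l0 T0.l0)) (xb T0.l0 (xa T0.l0 T0.l0))) (xa (xb (xa (xb T0.l0 T0.l0) (xb T0.l0 T0.l0)) (xa (xb (xc T0.l0 T0.l0) (xc T0.l0 (xs T0.l0 T0.l0))) (xb (xc T0.l0 T0.l0) (xc T0.l0 (xs T0.l0 T0.l0))))) (xb (xa (xb T0.l0 T0.l0) (xb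 T0.l0 T0.l0)) (xa (xb (xc T0.l0 T0.l0) (xc T0.l0 (xs T0.l0 T0.l0))) (xb T0.l0 (xc T0.l0 (xs T0.l0 T0.l0))))))))
theorem qc0_0_0_lr : chkTr (tg true true false RT.r2) b0_0 t0 rc0_0_0_lr
  (upd hi Co.b (upd lo Co.a (rc sI cl4 cl4 cl4 b0_0 (I.pos (nat_lit 0) (nat_lit 0))))) = true := by decide +kernel
theorem qc0_0_0_l : chkTr (tg true true false RT.r2) b0_0 t0 (Tr.N Co.b rc0_0_0_ll rc0_0_0_lr)
  (upd lo Co.a (rc sI cl4 cl4 cl4 b0_0 (I.pos (nat_lit 0) (nat_lit 0)))) = true := tr_split qc0_0_0_ll qc0_0_0_lr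
def rc0_0_0_r : Tr := (xb (xa (xb (xa T0.l0 T0.l0) (xa (xb T0.l0 T0.l0) T0.l0)) (xb (xa T0.l0 (xb T0.l0 T0.l0)) (xa T0.l0 (xb T0.l0 T0.l0)))) (xa (xb (xa (xb T0.l0 (xa T0.l0 T0.l0)) (xb T0.l0 (xa T0.l0 T0.l0))) (xa (xb (xa (xb T0.l0 T0.l0) (xb T0.l0 T0.l0)) (xa (xb T0.l0 (xc T0.l0 (xs T0.l0 T0.l0))) (xb T0.l0 (xc T0.l0 (xs T0.l0 T0.l0))))) (xb (xa T0.l0 T0.l0) (xa (xb T0.l0 (xc T0.l0 (xs T0.l0 T0.l0))) (xb T0.l0 (xc T0.l0 T0.l0)))))) (xb (xa (xb T0.l0 T0.l0) (xb T0.l0 (xa T0.l0 T0.l0))) (xa (xb (xa T0.l0 T0.l0) (xa (xb T0.l0 (xc T0.l0 T0.l0)) (xb T0.l0 T0.l0))) (xb (xa T0.l0 (xb T0.l0 T0.l0)) (xa (xb T0.l0 (xc T0.l0 (xs T0.l0 T0.l0))) (xb T0.l0 (xc T0.l0 (xs T0.l0 T0.l0)))))))))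
theorem qc0_0_0_r : chkTr (tg true true false RT.r2) b0_0 t0 rc0_0_0_r
  (upd hi Co.a (rc sI cl4 cl4 cl4 b0_0 (I.pos (nat_lit 0) (nat_lit 0)))) = true := by decide +kernel
theorem qc0_0_0_ : chkTr (tg true true false RT.r2) b0_0 t0 (Tr.N Co.a (Tr.N Co.b rc0_0_0_ll rc0_0_0_lr) rc0_0_0_r)
  (rc sI cl4 cl4 cl4 b0_0 (I.pos (nat_lit 0) (nat_lit 0))) = true := tr_split qc0_0_0_l qc0_0_0_r
theorem c0_0_0 : chkTag sI cl4 cl4 cl4 t0 b0_0 (tg true true false RT.r2) (I.pos (nat_lit 0) (nat_lit 0))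
  (Tr.N Co.a (Tr.N Co.b rc0_0_0_ll rc0_0_0_lr) rc0_0_0_r) = true := tag_mk (by decide +kernel) qc0_0_0_
theorem c0_0_1 : chkTag sI cl4 cl4 cl4 t0 b0_0 (tg true false false RT.r3) (I.pos (nat_lit 0) (nat_lit 0))
  (xa (xb (xa (xb (xc T0.l15 (xa T0.l15 T0.l1)) (xc (xa T0.l1 T0.l1) (xa T0.l1 T0.l1))) (xb (xc (xa T0.l1 T0.l1) T0.l1) (xc (xa T0.l1 T0.l1) (xa T0.l1 T0.l1)))) (xa (xb (xc (xa T0.l1 T0.l1) (xa T0.l1 T0.l1)) (xc (xa T0.l1 T0.l1) (xa T0.l1 T0.l1))) (xb (xa (xc T0.l1 T0.l1) (xc T0.l1 T0.l1)) (xa (xc T0.l1 T0.l1) (xc T0.l1 T0.l1))))) (xb (xa (xb (xa T0.l1 T0.l1) (xa (xc T0.l1 T0.l1) (xc T0.l1 T0.l1))) (xb (xa T0.l1 (xc T0.l1 T0.l1)) (xa (xc T0.l1 T0.l1) (xc T0.l1 T0.l1)))) (xa (xb (xa (xc T0.l1 T0.l1) (xc T0.l1 T0.l1)) (xa (xc T0.l1 (xb T0.l1 T0.l1)) (xc T0.l1 (xb T0.l1 T0.l1)))) (xb (xa (xc T0.l1 T0.l1) (xc T0.l1 (xb T0.l1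 T0.l1))) (xa (xc T0.l1 (xb T0.l1 T0.l1)) (xc (xb T0.l1 T0.l1) (xb T0.l1 T0.l1))))))) = true := by decide +kernel
theorem c0_0_2 : chkTag sI cl4 cl4 cl4 t0 b0_0 (tg true true true RT.r4) (I.pos (nat_lit 0) (nat_lit 0))
  (xa (xb (xa (xc (xb T0.l2 T0.l2) (xb T0.l2 T0.l2)) (xc T0.l2 T0.l2)) (xc (xa T0.l2 T0.l2) (xa (xb T0.l2 (xc T0.l2 T0.l2)) T0.l2))) (xb (xa (xc (xb T0.l2 T0.l2) (xb T0.l2 T0.l2)) (xc (xb (xa T0.l2 T0.l2) T0.l2) (xb (xa T0.l2 T0.l2) (xa T0.l2 T0.l2)))) (xa (xc (xb T0.l2 T0.l2) (xb T0.l2 (xa T0.l2 T0.l2))) (xc (xb (xa T0.l2 T0.l2) (xa T0.l2 (xc T0.l2 T0.l2))) (xb (xa T0.l2 (xc T0.l2 T0.l2)) (xa (xc T0.l2 T0.l2) (xc T0.l2 (xb T0.l2 T0.l2)))))))) = true := by decide +kernel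
theorem c0_0_3 : chkTag sI cl4 cl4 cl4 t0 b0_0 (tg false false false RT.r3) (I.pos (nat_lit 0) (nat_lit 0))
  (xa (xb (xa (xb (xc T0.l3 (xa T0.l3 T0.l3)) T0.l3) (xb (xa (xc T0.l3 T0.l3) (xc T0.l3 T0.l3)) T0.l3)) (xa (xb T0.l3 (xa (xc T0.l3 T0.l3) T0.l3)) (xb T0.l3 (xa T0.l3 T0.l3)))) (xb (xa (xb (xa (xc T0.l3 T0.l3) (xc T0.l3 T0.l3)) (xa T0.l3 (xc T0.l3 T0.l3))) (xb (xa (xc (xb T0.l3 T0.l3) (xb T0.l3 T0.l3)) (xc (xb (xa T0.l3 T0.l3) (xa T0.l3 T0.l3)) (xb (xa T0.l3 T0.l3) T0.l3))) (xa (xc T0.l3 T0.l3) (xc (xb T0.l3 T0.l3) (xb T0.l3 T0.l3))))) (xa (xb (xa T0.l3 (xc T0.l3 T0.l3)) (xa (xc T0.l3 T0.l3) (xc T0.l3 (xb T0.l3 T0.l3)))) (xb (xa (xc T0.l3 (xb T0.l3 T0.l3)) (xc (xb T0.l3 T0.l3) (xb (xa T0.l3 T0.l3) (xa T0.l3 T0.l3)))) (xa (xc (xb T0.l3 T0.l3) (xb T0.l3 (xa T0.l3 T0.l3))) (xc (xb (xa T0.l3 T0.l3) (xa T0.l3 T0.l3)) (xb (xa T0.l3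 (xc T0.l3 T0.l3)) (xa T0.l3 (xc T0.l3 T0.l3))))))))) = true := by decide +kernel
theorem c0_0_4 : chkTag sI cl4 cl4 cl4 t0 b0_0 (tg false true false RT.r4) (I.pos (nat_lit 0) (nat_lit 0))
  (xa (xb (xa (xc (xb T0.l4 T0.l4) (xb T0.l4 T0.l4)) (xc T0.l4 T0.l4)) (xc (xa T0.l4 T0.l4) (xa (xb T0.l4 (xc T0.l4 T0.l4)) T0.l4))) (xb (xa (xc (xb T0.l4 T0.l4) (xb T0.l4 T0.l4)) (xc (xb (xa T0.l4 T0.l4) T0.l4) (xb (xa T0.l4 T0.l4) (xa T0.l4 T0.l4)))) (xa (xc (xb T0.l4 T0.l4) (xb T0.l4 (xa T0.l4 T0.l4))) (xc (xb (xa T0.l4 T0.l4) (xa T0.l4 (xc T0.l4 T0.l4))) (xb (xa T0.l4 (xc T0.l4 T0.l4)) (xa (xc T0.l4 T0.l4) (xc T0.l4 (xb T0.l4 T0.l4)))))))) = true := by decide +kernel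
theorem c0_0_5 : chkTag sI cl4 cl4 cl4 t0 b0_0 (tg false false true RT.r5) (I.pos (nat_lit 0) (nat_lit 0))
  (xa (xb (xa (xb (xc T0.l19 (xa T0.l19 T0.l5)) (xc (xa T0.l5 T0.l5) (xa T0.l5 T0.l5))) (xb (xc (xa T0.l5 T0.l5) T0.l5) (xc (xa T0.l5 T0.l5) (xa T0.l5 T0.l5)))) (xa (xb (xc (xa T0.l5 T0.l5) (xa T0.l5 T0.l5)) (xc (xa T0.l5 T0.l5) (xa T0.l5 T0.l5))) (xb (xa (xc T0.l5 T0.l5) (xc T0.l5 T0.l5)) (xa (xc T0.l5 T0.l5) (xc T0.l5 T0.l5))))) (xb (xa (xb (xa T0.l5 T0.l5) (xa (xc T0.l5 T0.l5) (xc T0.l5 T0.l5))) (xb (xa T0.l5 (xc T0.l5 T0.l5)) (xa (xc T0.l5 T0.l5) (xc T0.l5 T0.l5)))) (xa (xb (xa (xc T0.l5 T0.l5) (xc T0.l5 T0.l5)) (xa (xc T0.l5 (xb T0.l5 T0.l5)) (xc T0.l5 (xb T0.l5 T0.l5)))) (xb (xa (xc T0.l5 T0.l5) (xc T0.l5 (xb T0.l5 T0.l5))) (xa (xc T0.l5 (xb T0.l5 T0.l5)) (xc (xb T0.l5 T0.l5) (xb T0.l5 T0.l5))))))) = true := by decide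 +kernel
theorem bx0_0 : BoxOK sI cl4 cl4 cl4 t0 t0 b0_0 :=
  box_mk' [(tg true true false RT.r2), (tg true false false RT.r3), (tg true true true RT.r4), (tg false false false RT.r3), (tg false true false RT.r4), (tg false false true RT.r5)] rfl (allL_c (ex_mk c0_0_0) (allL_c (ex_mk c0_0_1) (allL_c (ex_mk c0_0_2) (allL_c (ex_mk c0_0_3) (allL_c (ex_mk c0_0_4) (allL_c (ex_mk c0_0_5) allL_n))))))
theorem bx0_1 : BoxOK sI cl4 cl4 cl4 t0 t0 b0_1 :=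
  box_mk (TrL.c (I.pos (nat_lit 0) (nat_lit 0)) (xa (xb (xb (xa (xb (xa T0.l6 T0.l6) (xa T0.l6 T0.l6)) (xb (xa T0.l6 T0.l6) T0.l6)) (xa (xb (xa T0.l6 T0.l6) (xa T0.l6 T0.l6)) (xa T0.l6 T0.l6))) (xa (xb (xa (xb T0.l6 T0.l6) T0.l6) (xa (xb T0.l6 T0.l6) (xb T0.l6 T0.l6))) (xb T0.l6 (xa T0.l6 T0.l6)))) (xb (xa (xb (xa T0.l6 T0.l6) T0.l6) (xb (xa T0.l6 T0.l6) T0.l6)) (xa (xb T0.l6 (xa T0.l6 T0.l6)) (xb T0.l6 (xa T0.l6 T0.l6)))))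
  (TrL.c (I.pos (nat_lit 0) (nat_lit 0)) (xb (xa T0.l7 T0.l24) (xa T0.l24 (xb T0.l7 T0.l7)))
  (TrL.c (I.pos (nat_lit 0) (nat_lit 0)) (xb (xa T0.l8 T0.l25) (xa T0.l8 T0.l8))
  (TrL.c (I.pos (nat_lit 0) (nat_lit 0)) (xb (xa (xb (xa T0.l9 T0.l9) T0.l9) (xb (xa T0.l9 T0.l9) T0.l9)) (xa (xb T0.l9 T0.l9) (xb T0.l9 T0.l9)))
  (TrL.c (I.pos (nat_lit 0) (nat_lit 0)) (xb (xa T0.l10 T0.l10) (xa T0.l10 T0.l10))
  (TrL.c (I.pos (nat_lit 0) (nat_lit 0)) (xb (xa T0.l11 T0.l11) (xa T0.l11 (xb T0.l11 T0.l11)))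
  TrL.n)))))) (by decide +kernel)
theorem bx0_2 : BoxOK sI cl4 cl4 cl4 t0 t0 b0_2 :=
  box_mk (TrL.c (I.pos (nat_lit 0) (nat_lit 0)) (xb (xa T0.l12 T0.l12) (xa T0.l12 T0.l12))
  (TrL.c (I.pos (nat_lit 0) (nat_lit 0)) (xb (xa T0.l13 T0.l13) (xa T0.l13 T0.l13))
  TrL.n)) (by decide +kernel)
def rc0_3_0_l : Tr := (xb (xa (xb (xa (xb (xa T0.l14 T0.l14) (xa T0.l14 T0.l14)) (xb T0.l14 T0.l14)) (xa (xb (xa (xb T0.l14 T0.l14) T0.l14) (xa (xb T0.l14 T0.l14) (xb T0.l14 T0.l14))) (xb T0.l14 (xa T0.l14 T0.l14)))) (xb (xa T0.l14 T0.l14) (xa (xb T0.l14 T0.l14) T0.l14))) (xa (xb (xa (xb (xa (xb (xc T0.l14 T0.l14) (xc T0.l14 T0.l14)) (xb T0.l14 T0.l14)) (xa (xb (xc T0.l14 T0.l14) (xc T0.l14 T0.l14)) (xb T0.l14 T0.l14))) (xb (xa T0.l14 T0.l14) (xa (xb T0.l14 T0.l14) T0.l14))) (xa (xb (xa (xb (xc T0.l14 T0.l14) (xc T0.l14 T0.l14)) (xb T0.l14 T0.l14))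 (xb (xa (xc T0.l14 T0.l14) (xc T0.l14 T0.l14)) (xa (xc T0.l14 T0.l14) (xc T0.l14 T0.l14)))) (xb (xa (xb T0.l14 T0.l14) (xb T0.l14 T0.l14)) (xa (xb T0.l14 T0.l14) (xb T0.l14 T0.l14))))) (xb (xa (xb T0.l14 (xa T0.l14 T0.l14)) (xb T0.l14 T0.l14)) (xa (xb (xa T0.l14 T0.l14) (xa (xb T0.l14 T0.l14) T0.l14)) (xb (xa T0.l14 T0.l14) (xa T0.l14 T0.l14))))))
theorem qc0_3_0_l : chkTr (tg true true false RT.r2) b0_3 t0 rc0_3_0_l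
  (upd lo Co.a (rc sI cl4 cl4 cl4 b0_3 (I.pos (nat_lit 0) (nat_lit 0)))) = true := by decide +kernel
def rc0_3_0_r : Tr := (xb (xa (xb (xa (xb T0.l14 T0.l14) (xb T0.l14 T0.l14)) (xa (xb T0.l14 T0.l14) (xb T0.l14 T0.l14))) (xb (xa (xb T0.l14 T0.l14) (xb (xa T0.l14 T0.l14) (xa T0.l14 T0.l14))) (xa (xb T0.l14 T0.l14) (xb (xa T0.l14 T0.l14) (xa T0.l14 T0.l14))))) (xa (xb (xa (xb T0.l14 T0.l14) (xb T0.l14 T0.l14)) (xa (xb T0.l14 (xa T0.l14 (xb T0.l14 T0.l14))) (xb T0.l14 (xa (xb T0.l14 T0.l14) (xb T0.l14 T0.l14))))) (xb (xa (xb T0.l14 T0.l14) (xb (xa T0.l14 T0.l14) (xa T0.l14 (xb T0.l14 T0.l14)))) (xa (xb (xa T0.l14 T0.l14) (xa (xb T0.l14 (xc T0.l14 T0.l14)) (xb T0.l14 (xc T0.l14 T0.l14)))) (xb (xa T0.l14 (xb T0.l14 T0.l14)) (xa (xb T0.l14 (xc T0.l14 T0.l14)) (xb T0.l14 T0.l0)))))))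
theorem qc0_3_0_r : chkTr (tg true true false RT.r2) b0_3 t0 rc0_3_0_r
  (upd hi Co.a (rc sI cl4 cl4 cl4 b0_3 (I.pos (nat_lit 0) (nat_lit 0)))) = true := by decide +kernel
theorem qc0_3_0_ : chkTr (tg true true false RT.r2) b0_3 t0 (Tr.N Co.a rc0_3_0_l rc0_3_0_r)
  (rc sI cl4 cl4 cl4 b0_3 (I.pos (nat_lit 0) (nat_lit 0))) = true := tr_split qc0_3_0_l qc0_3_0_r
theorem c0_3_0 : chkTag sI cl4 cl4 cl4 t0 b0_3 (tg true true false RT.r2) (I.pos (nat_lit 0) (nat_lit 0))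
  (Tr.N Co.a rc0_3_0_l rc0_3_0_r) = true := tag_mk (by decide +kernel) qc0_3_0_
theorem c0_3_1 : chkTag sI cl4 cl4 cl4 t0 b0_3 (tg true false false RT.r3) (I.pos (nat_lit 0) (nat_lit 0))
  (xa (xb (xa (xb T0.l15 T0.l15) T0.l15) (xa (xb T0.l15 T0.l15) (xb T0.l15 T0.l15))) (xb (xa T0.l15 (xb T0.l15 T0.l15)) (xa (xb T0.l15 T0.l15) (xb T0.l15 (xc T0.l15 T0.l15))))) = true := by decide +kernel
theorem c0_3_2 : chkTag sI cl4 cl4 cl4 t0 b0_3 (tg true true true RT.r4) (I.pos (nat_lit 0) (nat_lit 0))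
  (xa (xb (xc T0.l16 (xa T0.l16 T0.l16)) (xc (xa T0.l16 T0.l2) (xa T0.l16 T0.l2))) (xb (xc (xa T0.l16 (xb T0.l16 T0.l2)) (xa T0.l16 (xb T0.l2 T0.l2))) (xc T0.l2 T0.l2))) = true := by decide +kernel
theorem c0_3_3 : chkTag sI cl4 cl4 cl4 t0 b0_3 (tg false false false RT.r3) (I.pos (nat_lit 0) (nat_lit 0))
  (xa (xb (xa T0.l17 (xb T0.l17 T0.l17)) (xa (xb T0.l17 (xc T0.l17 T0.l17)) T0.l3)) (xb (xa (xb (xc T0.l17 T0.l17) (xc T0.l17 T0.l17)) (xb (xc T0.l17 (xa T0.l17 T0.l17)) (xc T0.l3 T0.l3))) (xa (xb T0.l3 T0.l3) (xb T0.l3 T0.l3)))) = true := by decide +kernel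
theorem c0_3_4 : chkTag sI cl4 cl4 cl4 t0 b0_3 (tg false true false RT.r4) (I.pos (nat_lit 0) (nat_lit 0))
  (xa (xb (xc T0.l18 (xa T0.l18 T0.l18)) (xc (xa T0.l18 T0.l4) (xa T0.l18 T0.l4))) (xb (xc (xa T0.l18 (xb T0.l18 T0.l4)) (xa T0.l18 (xb T0.l4 T0.l4))) (xc T0.l4 T0.l4))) = true := by decide +kernel
theorem c0_3_5 : chkTag sI cl4 cl4 cl4 t0 b0_3 (tg false false true RT.r5) (I.pos (nat_lit 0) (nat_lit 0))
  (xa (xb (xa (xb T0.l19 T0.l19) T0.l19) (xa (xb T0.l19 T0.l19) (xb T0.l19 T0.l19))) (xb (xa T0.l19 (xb T0.l19 T0.l19)) (xa (xb T0.l19 T0.l19) (xb T0.l19 (xc T0.l19 T0.l19))))) = true := by decide +kernel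
theorem bx0_3 : BoxOK sI cl4 cl4 cl4 t0 t0 b0_3 :=
  box_mk' [(tg true true false RT.r2), (tg true false false RT.r3), (tg true true true RT.r4), (tg false false false RT.r3), (tg false true false RT.r4), (tg false false true RT.r5)] rfl (allL_c (ex_mk c0_3_0) (allL_c (ex_mk c0_3_1) (allL_c (ex_mk c0_3_2) (allL_c (ex_mk c0_3_3) (allL_c (ex_mk c0_3_4) (allL_c (ex_mk c0_3_5) allL_n))))))
theorem bx0_4 : BoxOK sI cl4 cl4 cl4 t0 t0 b0_4 :=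
  box_mk (TrL.c (I.pos (nat_lit 0) (nat_lit 0)) (xb (xa (xb (xa (xb (xa T0.l20 T0.l20) (xa T0.l20 T0.l20)) (xb (xa T0.l20 T0.l20) T0.l20)) (xa (xb (xa T0.l20 T0.l20) (xa T0.l20 T0.l20)) (xb T0.l20 T0.l20))) (xb (xa T0.l6 (xb T0.l6 T0.l6)) (xa T0.l20 (xb T0.l20 T0.l20)))) (xa (xb (xa (xb (xa T0.l20 T0.l20) (xa T0.l20 T0.l20)) (xb T0.l20 T0.l20)) (xa (xb (xa T0.l20 T0.l20) (xa T0.l20 T0.l20)) (xb T0.l20 (xa T0.l20 T0.l20)))) (xb (xa T0.l20 T0.l20) (xa (xb T0.l20 T0.l20) (xb T0.l20 T0.l20)))))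
  (TrL.c (I.pos (nat_lit 0) (nat_lit 0)) (xb (xa T0.l12 T0.l12) (xa T0.l12 T0.l12))
  (TrL.c (I.pos (nat_lit 0) (nat_lit 0)) (xb (xb (xa T0.l13 T0.l8) T0.l13) (xa T0.l13 T0.l13))
  (TrL.c (I.pos (nat_lit 0) (nat_lit 0)) (xb (xa (xb T0.l21 T0.l21) (xb T0.l21 T0.l21)) (xa T0.l21 T0.l21))
  (TrL.c (I.pos (nat_lit 0) (nat_lit 0)) (xb (xa T0.l22 T0.l22) (xa T0.l22 T0.l22))
  (TrL.c (I.pos (nat_lit 0) (nat_lit 0)) (xb (xa T0.l23 T0.l23) (xa T0.l23 T0.l23))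
  TrL.n)))))) (by decide +kernel)
theorem bx0_5 : BoxOK sI cl4 cl4 cl4 t0 t0 b0_5 :=
  box_mk (TrL.c (I.pos (nat_lit 0) (nat_lit 0)) (xb (xa (xb T0.l24 T0.l24) T0.l24) (xa T0.l24 T0.l7))
  (TrL.c (I.pos (nat_lit 0) (nat_lit 0)) (xb (xa T0.l8 T0.l8) (xa T0.l25 T0.l8))
  TrL.n)) (by decide +kernel)
theorem bx0_6 : BoxOK sI cl4 cl4 cl4 t0 t0 b0_6 :=
  box_mk (TrL.c (I.pos (nat_lit 0) (nat_lit 0)) (xb (xa (xb T0.l0 T0.l0) (xb T0.l0 T0.l0)) (xa (xb T0.l0 T0.l0) (xb T0.l0 T0.l0)))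
  (TrL.c (I.pos (nat_lit 0) (nat_lit 0)) (xb (xa (xb (xa T0.l1 T0.l1) T0.l1) (xb T0.l1 T0.l1)) (xa T0.l1 T0.l1))
  (TrL.c (I.pos (nat_lit 0) (nat_lit 0)) (xa T0.l2 T0.l2)
  (TrL.c (I.pos (nat_lit 0) (nat_lit 0)) (xb (xa (xb (xa T0.l3 T0.l3) T0.l3) (xb T0.l3 T0.l3)) T0.l3)
  (TrL.c (I.pos (nat_lit 0) (nat_lit 0)) (xa (xb (xc T0.l4 T0.l4) T0.l1) (xb (xc T0.l1 T0.l4) T0.l4))
  (TrL.c (I.pos (nat_lit 0) (nat_lit 0)) (xb (xa (xb (xa T0.l5 T0.l5) T0.l5) (xb T0.l5 T0.l5)) (xa T0.l5 T0.l5))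
  TrL.n)))))) (by decide +kernel)
theorem bx0_7 : BoxOK sI cl4 cl4 cl4 t0 t0 b0_7 :=
  box_mk (TrL.c (I.pos (nat_lit 0) (nat_lit 0)) (xb (xa (xb T0.l6 T0.l6) T0.l6) (xa (xb T0.l6 (xa T0.l6 T0.l6)) (xb T0.l6 (xa T0.l6 T0.l6))))
  (TrL.c (I.pos (nat_lit 0) (nat_lit 0)) (xb T0.l7 (xa T0.l7 T0.l7))
  (TrL.c (I.pos (nat_lit 0) (nat_lit 0)) (xb T0.l8 T0.l25)
  (TrL.c (I.pos (nat_lit 0) (nat_lit 0)) (xb T0.l9 T0.l9)
  (TrL.c (I.pos (nat_lit 0) (nat_lit 0)) (xb T0.l10 T0.l10)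
  (TrL.c (I.pos (nat_lit 0) (nat_lit 0)) (xb T0.l11 (xa T0.l11 T0.l11))
  TrL.n)))))) (by decide +kernel)
theorem bx0_8 : BoxOK sI cl4 cl4 cl4 t0 t0 b0_8 :=
  box_mk (TrL.c (I.pos (nat_lit 0) (nat_lit 0)) (xb T0.l12 T0.l12)
  (TrL.c (I.pos (nat_lit 0) (nat_lit 0)) (xb T0.l13 T0.l13)
  TrL.n)) (by decide +kernel)
theorem bx0_9 : BoxOK sI cl4 cl4 cl4 t0 t0 b0_9 :=
  box_mk (TrL.c (I.pos (nat_lit 0) (nat_lit 0)) (xb (xa (xb (xa T0.l6 T0.l14) T0.l14) (xb (xa T0.l14 T0.l14) (xa T0.l14 T0.l14))) (xa (xb T0.l14 T0.l14) (xb T0.l14 T0.l14)))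
  (TrL.c (I.pos (nat_lit 0) (nat_lit 0)) (xb (xa T0.l15 T0.l15) T0.l15)
  (TrL.c (I.pos (nat_lit 0) (nat_lit 0)) (xb (xa T0.l16 T0.l16) T0.l16)
  (TrL.c (I.pos (nat_lit 0) (nat_lit 0)) (xb (xa T0.l17 (xb T0.l17 T0.l17)) (xa T0.l17 (xb T0.l17 T0.l17)))
  (TrL.c (I.pos (nat_lit 0) (nat_lit 0)) (xb (xa T0.l18 T0.l18) T0.l18)
  (TrL.c (I.pos (nat_lit 0) (nat_lit 0)) (xb (xa T0.l19 T0.l19) T0.l19)
  TrL.n)))))) (by decide +kernel)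
theorem bx0_10 : BoxOK sI cl4 cl4 cl4 t0 t0 b0_10 :=
  box_mk (TrL.c (I.pos (nat_lit 0) (nat_lit 0)) (xb (xa (xb T0.l20 T0.l20) T0.l20) (xa T0.l20 (xb T0.l20 (xa T0.l20 T0.l20))))
  (TrL.c (I.pos (nat_lit 0) (nat_lit 0)) (xb T0.l34 T0.l12)
  (TrL.c (I.pos (nat_lit 0) (nat_lit 0)) (xb T0.l13 T0.l13)
  (TrL.c (I.pos (nat_lit 0) (nat_lit 0)) (xb T0.l21 T0.l21)
  (TrL.c (I.pos (nat_lit 0) (nat_lit 0)) (xb T0.l22 T0.l22)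
  (TrL.c (I.pos (nat_lit 0) (nat_lit 0)) (xb T0.l23 T0.l23)
  TrL.n)))))) (by decide +kernel)
theorem bx0_11 : BoxOK sI cl4 cl4 cl4 t0 t0 b0_11 :=
  box_mk (TrL.c (I.pos (nat_lit 0) (nat_lit 0)) (xb (xa T0.l24 T0.l24) T0.l24)
  (TrL.c (I.pos (nat_lit 0) (nat_lit 0)) (xb T0.l25 T0.l25)
  TrL.n)) (by decide +kernel)
theorem bx0_12 : BoxOK sI cl4 cl4 cl4 t0 t0 b0_12 :=
  box_mk (TrL.c (I.pos (nat_lit 0) (nat_lit 0)) (xa (xb T0.l6 (xb T0.l6 (xa T0.l6 T0.l6))) (xb (xa T0.l6 T0.l6) T0.l14))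
  (TrL.c (I.pos (nat_lit 0) (nat_lit 0)) (xa T0.l7 T0.l15)
  (TrL.c (I.pos (nat_lit 0) (nat_lit 0)) (xb T0.l25 T0.l25)
  (TrL.c (I.pos (nat_lit 0) (nat_lit 0)) (xb (xa T0.l9 T0.l17) T0.l17)
  (TrL.c (I.pos (nat_lit 0) (nat_lit 0)) (xb T0.l30 T0.l30)
  (TrL.c (I.pos (nat_lit 0) (nat_lit 0)) (xa T0.l11 T0.l19)
  TrL.n)))))) (by decide +kernel)
theorem bx0_13 : BoxOK sI cl4 cl4 cl4 t0 t0 b0_13 :=
  box_mk (TrL.c (I.pos (nat_lit 0) (nat_lit 0)) T0.l12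
  (TrL.c (I.pos (nat_lit 0) (nat_lit 0)) (xb T0.l22 T0.l13)
  TrL.n)) (by decide +kernel)
theorem c0_14_0 : chkTag sI cl4 cl4 cl4 t0 b0_14 (tg true true false RT.r2) (I.pos (nat_lit 0) (nat_lit 0))
  (xb (xa (xb (xa (xb (xa T0.l0 T0.l0) (xa T0.l0 T0.l0)) (xb T0.l0 T0.l0)) (xa (xb (xa (xc T0.l0 T0.l0) T0.l0) (xa (xc T0.l0 T0.l0) T0.l0)) (xb (xa T0.l0 T0.l0) (xa T0.l0 T0.l0)))) (xb (xa (xb T0.l0 T0.l0) T0.l0) (xa (xb T0.l0 T0.l0) (xb T0.l0 T0.l0)))) (xa (xb (xa (xb (xa (xc T0.l0 T0.l0) T0.l0) (xa (xc T0.l0 T0.l0) (xc T0.l0 T0.l0))) (xb (xa T0.l0 T0.l0) (xa T0.l0 T0.l0))) (xa (xb (xa (xc (xb T0.l0 T0.l0) T0.l0) (xc T0.l0 T0.l0)) (xa (xb T0.l0 T0.l0) (xb T0.l0 T0.l0))) (xb (xa T0.l0 T0.l0) (xa (xb T0.l0 T0.l0) T0.l0)))) (xb (xa (xb T0.l0 (xa T0.l0 T0.l0)) (xb T0.l0 T0.l0)) (xa (xb (xa T0.l0 T0.l0) (xa T0.l0 T0.l0)) (xb (xa T0.l0 T0.l0)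 (xa T0.l0 T0.l0)))))) = true := by decide +kernel
theorem c0_14_1 : chkTag sI cl4 cl4 cl4 t0 b0_14 (tg true false false RT.r3) (I.pos (nat_lit 0) (nat_lit 0))
  (xb (xa (xb (xa T0.l1 T0.l1) (xa T0.l1 T0.l1)) (xb (xa T0.l1 T0.l1) (xa T0.l1 T0.l1))) (xa (xb (xa T0.l1 T0.l1) (xa T0.l1 T0.l1)) (xb (xa T0.l1 T0.l1) (xa T0.l1 (xc T0.l1 T0.l1))))) = true := by decide +kernel
theorem c0_14_2 : chkTag sI cl4 cl4 cl4 t0 b0_14 (tg true true true RT.r4) (I.pos (nat_lit 0) (nat_lit 0))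
  (xb (xa (xc T0.l2 T0.l2) (xc T0.l5 T0.l2)) (xa (xc T0.l2 T0.l2) (xc (xb T0.l2 T0.l2) T0.l2))) = true := by decide +kernel
theorem c0_14_3 : chkTag sI cl4 cl4 cl4 t0 b0_14 (tg false false false RT.r3) (I.pos (nat_lit 0) (nat_lit 0))
  (xb (xa (xb (xa T0.l3 T0.l3) T0.l3) (xb (xa T0.l3 (xc T0.l3 T0.l3)) T0.l3)) (xa T0.l3 (xb T0.l3 T0.l3))) = true := by decide +kernel
theorem c0_14_4 : chkTag sI cl4 cl4 cl4 t0 b0_14 (tg false true false RT.r4) (I.pos (nat_lit 0) (nat_lit 0))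
  (xb (xa (xc T0.l4 T0.l4) (xc T0.l1 T0.l4)) (xa (xc T0.l4 T0.l4) (xc (xb T0.l4 T0.l4) T0.l4))) = true := by decide +kernel
theorem c0_14_5 : chkTag sI cl4 cl4 cl4 t0 b0_14 (tg false false true RT.r5) (I.pos (nat_lit 0) (nat_lit 0))
  (xb (xa (xb (xa T0.l5 T0.l5) (xa T0.l5 T0.l5)) (xb (xa T0.l5 T0.l5) (xa T0.l5 T0.l5))) (xa (xb (xa T0.l5 T0.l5) (xa T0.l5 T0.l5)) (xb (xa T0.l5 T0.l5) (xa T0.l5 (xc T0.l5 T0.l5))))) = true := by decide +kernel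
theorem bx0_14 : BoxOK sI cl4 cl4 cl4 t0 t0 b0_14 :=
  box_mk' [(tg true true false RT.r2), (tg true false false RT.r3), (tg true true true RT.r4), (tg false false false RT.r3), (tg false true false RT.r4), (tg false false true RT.r5)] rfl (allL_c (ex_mk c0_14_0) (allL_c (ex_mk c0_14_1) (allL_c (ex_mk c0_14_2) (allL_c (ex_mk c0_14_3) (allL_c (ex_mk c0_14_4) (allL_c (ex_mk c0_14_5) allL_n))))))
theorem bx0_15 : BoxOK sI cl4 cl4 cl4 t0 t0 b0_15 :=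
  box_mk (TrL.c (I.pos (nat_lit 0) (nat_lit 0)) (xb (xa (xb (xa T0.l6 T0.l6) (xa T0.l6 T0.l6)) (xb T0.l6 T0.l6)) (xa (xb (xa T0.l6 T0.l6) (xa (xb T0.l6 T0.l6) T0.l6)) (xb T0.l6 (xa T0.l6 T0.l6))))
  (TrL.c (I.pos (nat_lit 0) (nat_lit 0)) (xb (xa T0.l7 T0.l7) (xa T0.l7 T0.l7))
  (TrL.c (I.pos (nat_lit 0) (nat_lit 0)) (xb T0.l8 T0.l8)
  (TrL.c (I.pos (nat_lit 0) (nat_lit 0)) (xb (xa T0.l9 (xb T0.l9 T0.l9)) (xa T0.l9 T0.l9))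
  (TrL.c (I.pos (nat_lit 0) (nat_lit 0)) (xb T0.l10 T0.l10)
  (TrL.c (I.pos (nat_lit 0) (nat_lit 0)) (xb (xa T0.l11 T0.l11) (xa T0.l11 T0.l11))
  TrL.n)))))) (by decide +kernel)
theorem bx0_16 : BoxOK sI cl4 cl4 cl4 t0 t0 b0_16 :=
  box_mk (TrL.c (I.pos (nat_lit 0) (nat_lit 0)) (xb T0.l12 T0.l12)
  (TrL.c (I.pos (nat_lit 0) (nat_lit 0)) T0.l13
  TrL.n)) (by decide +kernel)
theorem bx0_17 : BoxOK sI cl4 cl4 cl4 t0 t0 b0_17 :=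
  box_mk (TrL.c (I.pos (nat_lit 0) (nat_lit 0)) (xa (xb (xb (xa T0.l14 T0.l14) (xa T0.l14 T0.l14)) (xb (xa T0.l14 T0.l14) (xa T0.l14 T0.l14))) (xb (xa (xb T0.l0 T0.l14) (xb T0.l0 T0.l14)) (xa (xb T0.l14 T0.l14) (xb T0.l0 T0.l0))))
  (TrL.c (I.pos (nat_lit 0) (nat_lit 0)) (xb (xa T0.l15 (xa T0.l15 T0.l15)) (xa T0.l15 T0.l15))
  (TrL.c (I.pos (nat_lit 0) (nat_lit 0)) (xa T0.l16 T0.l16)
  (TrL.c (I.pos (nat_lit 0) (nat_lit 0)) (xb (xa T0.l17 (xa T0.l17 T0.l17)) T0.l17)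
  (TrL.c (I.pos (nat_lit 0) (nat_lit 0)) (xa T0.l18 T0.l18)
  (TrL.c (I.pos (nat_lit 0) (nat_lit 0)) (xb (xa T0.l19 (xa T0.l19 T0.l19)) (xa T0.l19 T0.l19))
  TrL.n)))))) (by decide +kernel)
theorem bx0_18 : BoxOK sI cl4 cl4 cl4 t0 t0 b0_18 :=
  box_mk (TrL.c (I.pos (nat_lit 0) (nat_lit 0)) (xb (xa (xb (xa (xb T0.l20 T0.l20) T0.l20) (xa (xb T0.l20 T0.l20) T0.l20)) (xb T0.l20 T0.l20)) (xa (xb (xa (xb T0.l20 T0.l20) T0.l20) (xa (xb T0.l20 T0.l20) T0.l20)) (xb T0.l20 T0.l20)))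
  (TrL.c (I.pos (nat_lit 0) (nat_lit 0)) (xb T0.l12 T0.l12)
  (TrL.c (I.pos (nat_lit 0) (nat_lit 0)) T0.l13
  (TrL.c (I.pos (nat_lit 0) (nat_lit 0)) (xb T0.l21 T0.l21)
  (TrL.c (I.pos (nat_lit 0) (nat_lit 0)) T0.l22
  (TrL.c (I.pos (nat_lit 0) (nat_lit 0)) (xb T0.l23 (xa T0.l23 T0.l23))
  TrL.n)))))) (by decide +kernel)
theorem bx0_19 : BoxOK sI cl4 cl4 cl4 t0 t0 b0_19 :=
  box_mk (TrL.c (I.pos (nat_lit 0) (nat_lit 0)) (xb (xa T0.l7 T0.l7) (xa T0.l24 T0.l7))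
  (TrL.c (I.pos (nat_lit 0) (nat_lit 0)) (xb T0.l8 T0.l8)
  TrL.n)) (by decide +kernel)
theorem bx0_20 : BoxOK sI cl4 cl4 cl4 t0 t0 b0_20 :=
  box_mk (TrL.c (I.pos (nat_lit 0) (nat_lit 0)) (xa (xb (xa T0.l0 T0.l0) (xa T0.l0 T0.l0)) (xb (xa T0.l3 T0.l3) (xa T0.l0 T0.l3)))
  (TrL.c (I.pos (nat_lit 0) (nat_lit 0)) (xa (xb (xa (xb T0.l1 T0.l1) T0.l1) T0.l1) (xb (xa T0.l1 (xb T0.l1 T0.l1)) (xa T0.l1 T0.l1)))
  (TrL.c (I.pos (nat_lit 0) (nat_lit 0)) (xa (xc (xb (xa T0.l5 T0.l2) T0.l5) (xb T0.l5 T0.l2)) (xa T0.l5 T0.l5))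
  (TrL.c (I.pos (nat_lit 0) (nat_lit 0)) (xa (xb (xa (xb (xc T0.l3 T0.l3) T0.l3) (xb (xc T0.l3 T0.l3) T0.l3)) T0.l3) (xb (xa (xb (xc T0.l14 T0.l14) T0.l3) (xb T0.l14 T0.l3)) (xa T0.l3 (xb T0.l3 (xc T0.l3 T0.l3)))))
  (TrL.c (I.pos (nat_lit 0) (nat_lit 0)) (xa (xc (xb (xa T0.l1 T0.l1) T0.l1) (xb T0.l1 T0.l4)) (xa T0.l1 T0.l1))
  (TrL.c (I.pos (nat_lit 0) (nat_lit 0)) (xa (xb (xa (xb T0.l5 T0.l5) T0.l5) T0.l5) (xb (xa T0.l5 (xb T0.l5 T0.l5)) (xa T0.l5 T0.l5)))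
  TrL.n)))))) (by decide +kernel)
theorem bx0_21 : BoxOK sI cl4 cl4 cl4 t0 t0 b0_21 :=
  box_mk (TrL.c (I.pos (nat_lit 0) (nat_lit 0)) (xb (xa T0.l6 (xb (xa T0.l14 T0.l14) T0.l14)) (xa (xb (xa T0.l6 T0.l14) T0.l14) T0.l14))
  (TrL.c (I.pos (nat_lit 0) (nat_lit 0)) (xb (xa T0.l7 T0.l15) T0.l15)
  (TrL.c (I.pos (nat_lit 0) (nat_lit 0)) (xb (xa T0.l16 T0.l16) T0.l16)
  (TrL.c (I.pos (nat_lit 0) (nat_lit 0)) (xb (xa T0.l9 T0.l17) T0.l17)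
  (TrL.c (I.pos (nat_lit 0) (nat_lit 0)) (xb (xa T0.l18 T0.l18) T0.l18)
  (TrL.c (I.pos (nat_lit 0) (nat_lit 0)) (xb (xa T0.l11 T0.l19) T0.l19)
  TrL.n)))))) (by decide +kernel)
theorem bx0_22 : BoxOK sI cl4 cl4 cl4 t0 t0 b0_22 :=
  box_mk (TrL.c (I.pos (nat_lit 0) (nat_lit 0)) (xb T0.l20 (xa (xb T0.l20 (xa (xb T0.l20 T0.l20) T0.l20)) (xb T0.l20 T0.l20)))
  (TrL.c (I.pos (nat_lit 0) (nat_lit 0)) (xb T0.l34 T0.l34)
  (TrL.c (I.pos (nat_lit 0) (nat_lit 0)) (xb T0.l13 T0.l22)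
  (TrL.c (I.pos (nat_lit 0) (nat_lit 0)) (xb T0.l21 T0.l21)
  (TrL.c (I.pos (nat_lit 0) (nat_lit 0)) T0.l22
  (TrL.c (I.pos (nat_lit 0) (nat_lit 0)) (xb T0.l23 T0.l23)
  TrL.n)))))) (by decide +kernel)
theorem bx0_23 : BoxOK sI cl4 cl4 cl4 t0 t0 b0_23 :=
  box_mk (TrL.c (I.pos (nat_lit 0) (nat_lit 0)) (xa T0.l15 T0.l24)
  (TrL.c (I.pos (nat_lit 0) (nat_lit 0)) (xb T0.l25 T0.l25)
  TrL.n)) (by decide +kernel)
theorem bx0_24 : BoxOK sI cl4 cl4 cl4 t0 t0 b0_24 :=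
  box_mk (TrL.c (I.pos (nat_lit 0) (nat_lit 0)) (xb (xa T0.l6 T0.l6) (xa (xb T0.l6 (xa T0.l6 T0.l6)) (xb T0.l6 (xa T0.l6 T0.l6))))
  (TrL.c (I.pos (nat_lit 0) (nat_lit 0)) (xb T0.l7 T0.l27)
  (TrL.c (I.pos (nat_lit 0) (nat_lit 0)) T0.l25
  (TrL.c (I.pos (nat_lit 0) (nat_lit 0)) (xb T0.l9 T0.l9)
  (TrL.c (I.pos (nat_lit 0) (nat_lit 0)) (xb T0.l10 T0.l10)
  (TrL.c (I.pos (nat_lit 0) (nat_lit 0)) (xb T0.l11 T0.l31)
  TrL.n)))))) (by decide +kernel)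
theorem bx0_25 : BoxOK sI cl4 cl4 cl4 t0 t0 b0_25 :=
  box_mk (TrL.c (I.pos (nat_lit 0) (nat_lit 0)) T0.l12
  (TrL.c (I.pos (nat_lit 0) (nat_lit 0)) (xb T0.l13 T0.l13)
  TrL.n)) (by decide +kernel)
theorem bx0_26 : BoxOK sI cl4 cl4 cl4 t0 t0 b0_26 :=
  box_mk (TrL.c (I.pos (nat_lit 0) (nat_lit 0)) T0.l0
  (TrL.c (I.pos (nat_lit 0) (nat_lit 0)) T0.l1
  (TrL.c (I.pos (nat_lit 0) (nat_lit 0)) T0.l2
  (TrL.c (I.pos (nat_lit 0) (nat_lit 0)) T0.l3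
  (TrL.c (I.pos (nat_lit 0) (nat_lit 0)) T0.l4
  (TrL.c (I.pos (nat_lit 0) (nat_lit 0)) T0.l5
  TrL.n)))))) (by decide +kernel)
theorem bx0_27 : BoxOK sI cl4 cl4 cl4 t0 t0 b0_27 :=
  box_mk (TrL.c (I.pos (nat_lit 0) (nat_lit 0)) T0.l6
  (TrL.c (I.pos (nat_lit 0) (nat_lit 0)) T0.l7
  (TrL.c (I.pos (nat_lit 0) (nat_lit 0)) T0.l8
  (TrL.c (I.pos (nat_lit 0) (nat_lit 0)) T0.l9
  (TrL.c (I.pos (nat_lit 0) (nat_lit 0)) T0.l10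
  (TrL.c (I.pos (nat_lit 0) (nat_lit 0)) T0.l11
  TrL.n)))))) (by decide +kernel)
theorem bx0_28 : BoxOK sI cl4 cl4 cl4 t0 t0 b0_28 :=
  box_mk (TrL.c (I.pos (nat_lit 0) (nat_lit 0)) T0.l12
  (TrL.c (I.pos (nat_lit 0) (nat_lit 0)) T0.l13
  TrL.n)) (by decide +kernel)
theorem bx0_29 : BoxOK sI cl4 cl4 cl4 t0 t0 b0_29 :=
  box_mk (TrL.c (I.pos (nat_lit 0) (nat_lit 0)) T0.l14
  (TrL.c (I.pos (nat_lit 0) (nat_lit 0)) T0.l15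
  (TrL.c (I.pos (nat_lit 0) (nat_lit 0)) T0.l16
  (TrL.c (I.pos (nat_lit 0) (nat_lit 0)) T0.l17
  (TrL.c (I.pos (nat_lit 0) (nat_lit 0)) T0.l18
  (TrL.c (I.pos (nat_lit 0) (nat_lit 0)) T0.l19
  TrL.n)))))) (by decide +kernel)
theorem bx0_30 : BoxOK sI cl4 cl4 cl4 t0 t0 b0_30 :=
  box_mk (TrL.c (I.pos (nat_lit 0) (nat_lit 0)) T0.l20
  (TrL.c (I.pos (nat_lit 0) (nat_lit 0)) T0.l34
  (TrL.c (I.pos (nat_lit 0) (nat_lit 0)) T0.l35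
  (TrL.c (I.pos (nat_lit 0) (nat_lit 0)) T0.l21
  (TrL.c (I.pos (nat_lit 0) (nat_lit 0)) T0.l22
  (TrL.c (I.pos (nat_lit 0) (nat_lit 0)) T0.l23
  TrL.n)))))) (by decide +kernel)
theorem bx0_31 : BoxOK sI cl4 cl4 cl4 t0 t0 b0_31 :=
  box_mk (TrL.c (I.pos (nat_lit 0) (nat_lit 0)) T0.l24
  (TrL.c (I.pos (nat_lit 0) (nat_lit 0)) T0.l25
  TrL.n)) (by decide +kernel)
theorem bx0_32 : BoxOK sI cl4 cl4 cl4 t0 t0 b0_32 :=
  box_mk (TrL.c (I.pos (nat_lit 0) (nat_lit 0)) T0.l6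
  (TrL.c (I.pos (nat_lit 0) (nat_lit 0)) T0.l7
  (TrL.c (I.pos (nat_lit 0) (nat_lit 0)) T0.l28
  (TrL.c (I.pos (nat_lit 0) (nat_lit 0)) T0.l9
  (TrL.c (I.pos (nat_lit 0) (nat_lit 0)) T0.l30
  (TrL.c (I.pos (nat_lit 0) (nat_lit 0)) T0.l11
  TrL.n)))))) (by decide +kernel)
theorem bx0_33 : BoxOK sI cl4 cl4 cl4 t0 t0 b0_33 :=
  box_mk (TrL.c (I.pos (nat_lit 0) (nat_lit 0)) T0.l12
  (TrL.c (I.pos (nat_lit 0) (nat_lit 0)) T0.l13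
  TrL.n)) (by decide +kernel)
theorem bx0_34 : BoxOK sI cl4 cl4 cl4 t0 t0 b0_34 :=
  box_mk (TrL.c (I.pos (nat_lit 0) (nat_lit 0)) (xb (xa T0.l6 T0.l6) (xa (xb T0.l6 T0.l6) T0.l14))
  (TrL.c (I.pos (nat_lit 0) (nat_lit 0)) (xb T0.l7 T0.l15)
  (TrL.c (I.pos (nat_lit 0) (nat_lit 0)) (xb T0.l25 T0.l16)
  (TrL.c (I.pos (nat_lit 0) (nat_lit 0)) (xb T0.l9 T0.l17)
  (TrL.c (I.pos (nat_lit 0) (nat_lit 0)) (xb T0.l30 T0.l18)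
  (TrL.c (I.pos (nat_lit 0) (nat_lit 0)) (xb T0.l11 T0.l19)
  TrL.n)))))) (by decide +kernel)
theorem bx0_35 : BoxOK sI cl4 cl4 cl4 t0 t0 b0_35 :=
  box_mk (TrL.c (I.pos (nat_lit 0) (nat_lit 0)) T0.l34
  (TrL.c (I.pos (nat_lit 0) (nat_lit 0)) (xb T0.l22 T0.l13)
  TrL.n)) (by decide +kernel)
theorem sv0 : StarV sI cl4 cl4 cl4 t0 t0 t0 :=
  (bt_n (bt_n (bt_n (bt_n (bt_n (bt_b bx0_0) (bt_b bx0_1)) (bt_n (bt_b bx0_2) (bt_b bx0_3))) (bt_n (bt_n (bt_b bx0_4) (bt_b bx0_5)) (bt_n (bt_b bx0_6) (bt_n (bt_b bx0_7) (bt_b bx0_8))))) (bt_n (bt_n (bt_n (bt_b bx0_9) (bt_b bx0_10)) (bt_n (bt_b bx0_11) (bt_b bx0_12))) (bt_n (bt_n (bt_b bx0_13) (bt_b bx0_14)) (bt_n (bt_b bx0_15) (bt_n (bt_b bx0_16) (bt_b bx0_17)))))) (bt_n (bt_n (bt_n (bt_n (bt_b bx0_18) (bt_b bx0_19)) (bt_n (bt_b bx0_20) (bt_b bx0_21))) (bt_n (bt_n (bt_b bx0_22) (bt_b bx0_23)) (bt_n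 (bt_b bx0_24) (bt_n (bt_b bx0_25) (bt_b bx0_26))))) (bt_n (bt_n (bt_n (bt_b bx0_27) (bt_b bx0_28)) (bt_n (bt_b bx0_29) (bt_b bx0_30))) (bt_n (bt_n (bt_b bx0_31) (bt_b bx0_32)) (bt_n (bt_b bx0_33) (bt_n (bt_b bx0_34) (bt_b bx0_35)))))))
def S0 : StarD := StarD.mk cl4 cl4 cl4 0 0 t0
def G : List StarD := [S0]
theorem so0 : StarOK sI G S0 :=
  star_mk (by decide) (by decide) rfl rfl rfl rfl rfl rfl (rfl : _ = t0) (rfl : _ = t0)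
  (st_mk (Pth.l (Pth.l (Pth.l (Pth.l (Pth.l Pth.z))))) (nat_lit 415921965) (nat_lit 418171119) (by decide +kernel))
  (st_mk (Pth.l (Pth.l (Pth.l (Pth.l (Pth.l Pth.z))))) (nat_lit 462952629) (nat_lit 465895389) (by decide +kernel))
  (st_mk (Pth.l (Pth.l (Pth.l (Pth.l (Pth.l Pth.z))))) (nat_lit 519573677) (nat_lit 523448027) (by decide +kernel)) sv0
theorem ok : GroupOK (nat_lit 225443840) (nat_lit 241631232) G := grp_mk (allS_c so0 allS_n)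
theorem cov : GCov G cl4 cl4 cl4 := cov_mk
  ⟨0, by decide, rfl, rfl, rfl⟩ ⟨0, by decide, rfl, rfl, rfl⟩ ⟨0, by decide, rfl, rfl, rfl⟩ ⟨0, by decide, rfl, rfl, rfl⟩ ⟨0, by decide, rfl, rfl, rfl⟩ ⟨0, by decide, rfl, rfl, rfl⟩
end Q111_5


end Pool.Agent.Helper6.MONO
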