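import Pool.Agent.Helper6.MONO.Asm

/-!
Certificate data (generated).
-/

set_option autoImplicit false
set_option linter.all false
noncomputable section
namespace Pool.Agent.Helper6.MONO


namespace Q111_6
def sI : I := I.pos (nat_lit 241565696) (nat_lit 255066112)
def b0_0 : Bx := Bx.mk (St.mk (I.pos (nat_lit 114475008) (nat_lit 218185728)) (I.mix (nat_lit 2981888) (nat_lit 93143040)) (I.mix (nat_lit 3473408) (nat_lit 110018560)) (I.pos (nat_lit 387547136) (nat_lit 531562496)) (I.mix (nat_lit 345423872) (nat_lit 201080832)) (I.mix (nat_lit 172244992) (nat_lit 174587904)) (I.mix (nat_lit 331546624) (nat_lit 307740672)))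
  false (nat_lit 61249233)
def b0_1 : Bx := Bx.mk (St.mk (I.pos (nat_lit 12451840) (nat_lit 79396864)) (I.neg (nat_lit 37142528) (nat_lit 97009664)) (I.neg (nat_lit 22822912) (nat_lit 80674816)) (I.pos (nat_lit 291012608) (nat_lit 343490560)) (I.mix (nat_lit 208289792) (nat_lit 176635904)) (I.mix (nat_lit 160530432) (nat_lit 147505152)) (I.mix (nat_lit 184877056) (nat_lit 156532736)))
  false (nat_lit 147657484)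
def b0_2 : Bx := Bx.mk (St.mk (I.mix (nat_lit 56623104) (nat_lit 6193152)) (I.pos (nat_lit 26574848) (nat_lit 88113152)) (I.neg (nat_lit 44597248) (nat_lit 79888384)) (I.pos (nat_lit 287244288) (nat_lit 318455808)) (I.mix (nat_lit 101072896) (nat_lit 237191168)) (I.mix (nat_lit 194412544) (nat_lit 149422080)) (I.mix (nat_lit 143147008) (nat_lit 72007680)))
  true (nat_lit 0)
def b0_3 : Bx := Bx.mk (St.mk (I.pos (nat_lit 91963392) (nat_lit 168837120)) (I.pos (nat_lit 917504) (nat_lit 72171520)) (I.pos (nat_lit 14139392) (nat_lit 105299968)) (I.pos (nat_lit 347062272) (nat_lit 452329472)) (I.mix (nat_lit 290865152) (nat_lit 110870528)) (I.mix (nat_lit 274415616) (nat_lit 184270848)) (I.mix (nat_lit 311066624) (nat_lit 294977536)))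
  false (nat_lit 3168499)
def b0_4 : Bx := Bx.mk (St.mk (I.mix (nat_lit 6078464) (nat_lit 53526528)) (I.neg (nat_lit 26574848) (nat_lit 88113152)) (I.neg (nat_lit 45105152) (nat_lit 79888384)) (I.pos (nat_lit 287244288) (nat_lit 318455808)) (I.mix (nat_lit 237191168) (nat_lit 101072896)) (I.mix (nat_lit 149422080) (nat_lit 194412544)) (I.mix (nat_lit 143147008) (nat_lit 71958528)))
  false (nat_lit 89329223)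
def b0_5 : Bx := Bx.mk (St.mk (I.neg (nat_lit 12435456) (nat_lit 79396864)) (I.pos (nat_lit 37142528) (nat_lit 97009664)) (I.neg (nat_lit 22822912) (nat_lit 80674816)) (I.pos (nat_lit 291012608) (nat_lit 343490560)) (I.mix (nat_lit 176652288) (nat_lit 208306176)) (I.mix (nat_lit 147537920) (nat_lit 160546816)) (I.mix (nat_lit 184893440) (nat_lit 156549120)))
  true (nat_lit 0)
def b0_6 : Bx := Bx.mk (St.mk (I.pos (nat_lit 160399360) (nat_lit 209567744)) (I.mix (nat_lit 21970944) (nat_lit 39796736)) (I.neg (nat_lit 7847936) (nat_lit 117932032)) (I.pos (nat_lit 413155328) (nat_lit 496549888)) (I.mix (nat_lit 244989952) (nat_lit 80625664)) (I.mix (nat_lit 155664384) (nat_lit 149602304)) (I.mix (nat_lit 247971840) (nat_lit 268386304)))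
  false (nat_lit 21407507)
def b0_7 : Bx := Bx.mk (St.mk (I.pos (nat_lit 52723712) (nat_lit 88571904)) (I.mix (nat_lit 43597824) (nat_lit 2883584)) (I.mix (nat_lit 31440896) (nat_lit 6422528)) (I.pos (nat_lit 304480256) (nat_lit 331857920)) (I.mix (nat_lit 170557440) (nat_lit 74612736)) (I.mix (nat_lit 96141312) (nat_lit 114540544)) (I.mix (nat_lit 102645760) (nat_lit 99368960)))
  false (nat_lit 0)
def b0_8 : Bx := Bx.mk (St.mk (I.neg (nat_lit 7159808) (nat_lit 41058304)) (I.mix (nat_lit 17743872) (nat_lit 29081600)) (I.neg (nat_lit 45563904) (nat_lit 56999936)) (I.pos (nat_lit 284983296) (nat_lit 295190528)) (I.mix (nat_lit 140722176) (nat_lit 78741504)) (I.mix (nat_lit 94437376) (nat_lit 94846976)) (I.mix (nat_lit 41598976) (nat_lit 28852224)))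
  true (nat_lit 0)
def b0_9 : Bx := Bx.mk (St.mk (I.pos (nat_lit 106479616) (nat_lit 146456576)) (I.mix (nat_lit 52609024) (nat_lit 524288)) (I.mix (nat_lit 46809088) (nat_lit 12664832)) (I.pos (nat_lit 347389952) (nat_lit 394264576)) (I.mix (nat_lit 114032640) (nat_lit 160202752)) (I.mix (nat_lit 157122560) (nat_lit 124452864)) (I.mix (nat_lit 177586176) (nat_lit 124829696)))
  false (nat_lit 38758353)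
def b0_10 : Bx := Bx.mk (St.mk (I.pos (nat_lit 7159808) (nat_lit 41074688)) (I.mix (nat_lit 29081600) (nat_lit 17743872)) (I.neg (nat_lit 45563904) (nat_lit 56999936)) (I.pos (nat_lit 284983296) (nat_lit 295190528)) (I.mix (nat_lit 78741504) (nat_lit 140705792)) (I.mix (nat_lit 94846976) (nat_lit 94486528)) (I.mix (nat_lit 41680896) (nat_lit 28934144)))
  false (nat_lit 0)
def b0_11 : Bx := Bx.mk (St.mk (I.neg (nat_lit 52723712) (nat_lit 88522752)) (I.mix (nat_lit 2883584) (nat_lit 44843008)) (I.mix (nat_lit 32686080) (nat_lit 6422528)) (I.pos (nat_lit 304480256) (nat_lit 331857920)) (I.mix (nat_lit 74612736) (nat_lit 170721280)) (I.mix (nat_lit 114638848) (nat_lit 96206848)) (I.mix (nat_lit 102711296) (nat_lit 99467264)))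
  true (nat_lit 0)
def b0_12 : Bx := Bx.mk (St.mk (I.pos (nat_lit 61259776) (nat_lit 105431040)) (I.mix (nat_lit 37552128) (nat_lit 5373952)) (I.mix (nat_lit 30572544) (nat_lit 6946816)) (I.pos (nat_lit 309805056) (nat_lit 345767936)) (I.mix (nat_lit 139051008) (nat_lit 100188160)) (I.mix (nat_lit 85557248) (nat_lit 119963648)) (I.mix (nat_lit 96665600) (nat_lit 97632256)))
  false (nat_lit 0)
def b0_13 : Bx := Bx.mk (St.mk (I.mix (nat_lit 34177024) (nat_lit 4440064)) (I.mix (nat_lit 20742144) (nat_lit 16449536)) (I.neg (nat_lit 45514752) (nat_lit 51937280)) (I.pos (nat_lit 285097984) (nat_lit 293093376)) (I.mix (nat_lit 112558080) (nat_lit 90669056)) (I.mix (nat_lit 97239040) (nat_lit 78757888)) (I.mix (nat_lit 22872064) (nat_lit 24854528)))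
  true (nat_lit 0)
def b0_14 : Bx := Bx.mk (St.mk (I.pos (nat_lit 144670720) (nat_lit 200704000)) (I.pos (nat_lit 16334848) (nat_lit 85901312)) (I.mix (nat_lit 31211520) (nat_lit 79904768)) (I.pos (nat_lit 411205632) (nat_lit 515866624)) (I.mix (nat_lit 207437824) (nat_lit 166969344)) (I.mix (nat_lit 209272832) (nat_lit 175767552)) (I.mix (nat_lit 421150720) (nat_lit 254181376)))
  false (nat_lit 0)
def b0_15 : Bx := Bx.mk (St.mk (I.pos (nat_lit 40206336) (nat_lit 85098496)) (I.neg (nat_lit 22773760) (nat_lit 83918848)) (I.neg (nat_lit 15613952) (nat_lit 63176704)) (I.pos (nat_lit 300023808) (nat_lit 342474752)) (I.mix (nat_lit 158777344) (nat_lit 155025408)) (I.mix (nat_lit 136249344) (nat_lit 170131456)) (I.mix (nat_lit 137986048) (nat_lit 177471488)))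
  false (nat_lit 91024549)
def b0_16 : Bx := Bx.mk (St.mk (I.mix (nat_lit 42844160) (nat_lit 4210688)) (I.pos (nat_lit 10698752) (nat_lit 65945600)) (I.neg (nat_lit 49446912) (nat_lit 72990720)) (I.pos (nat_lit 285540352) (nat_lit 302972928)) (I.mix (nat_lit 111116288) (nat_lit 175603712)) (I.mix (nat_lit 161873920) (nat_lit 92733440)) (I.mix (nat_lit 81084416) (nat_lit 47579136)))
  true (nat_lit 0)
def b0_17 : Bx := Bx.mk (St.mk (I.pos (nat_lit 95600640) (nat_lit 154828800)) (I.mix (nat_lit 13713408) (nat_lit 41254912)) (I.mix (nat_lit 5554176) (nat_lit 66764800)) (I.pos (nat_lit 345735168) (nat_lit 409632768)) (I.mix (nat_lit 221986816) (nat_lit 135446528)) (I.mix (nat_lit 239206400) (nat_lit 126222336)) (I.mix (nat_lit 251117568) (nat_lit 185368576)))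
  false (nat_lit 26472788)
def b0_18 : Bx := Bx.mk (St.mk (I.mix (nat_lit 4210688) (nat_lit 42844160)) (I.neg (nat_lit 10698752) (nat_lit 65945600)) (I.neg (nat_lit 49446912) (nat_lit 72990720)) (I.pos (nat_lit 285540352) (nat_lit 302972928)) (I.mix (nat_lit 175603712) (nat_lit 111116288)) (I.mix (nat_lit 92733440) (nat_lit 161873920)) (I.mix (nat_lit 81084416) (nat_lit 47579136)))
  false (nat_lit 18019790)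
def b0_19 : Bx := Bx.mk (St.mk (I.neg (nat_lit 40206336) (nat_lit 85098496)) (I.pos (nat_lit 22773760) (nat_lit 83918848)) (I.neg (nat_lit 15613952) (nat_lit 63176704)) (I.pos (nat_lit 300007424) (nat_lit 342474752)) (I.mix (nat_lit 155041792) (nat_lit 157237248)) (I.mix (nat_lit 170164224) (nat_lit 136265728)) (I.mix (nat_lit 137986048) (nat_lit 177438720)))
  true (nat_lit 0)
def b0_20 : Bx := Bx.mk (St.mk (I.pos (nat_lit 174604288) (nat_lit 234389504)) (I.mix (nat_lit 27033600) (nat_lit 23773184)) (I.neg (nat_lit 38486016) (nat_lit 131891200)) (I.pos (nat_lit 434159616) (nat_lit 552468480)) (I.mix (nat_lit 219381760) (nat_lit 110084096)) (I.mix (nat_lit 164397056) (nat_lit 120143872)) (I.mix (nat_lit 292438016) (nat_lit 231227392)))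
  false (nat_lit 10629496)
def b0_21 : Bx := Bx.mk (St.mk (I.pos (nat_lit 88899584) (nat_lit 135479296)) (I.neg (nat_lit 5308416) (nat_lit 53166080)) (I.neg (nat_lit 737280) (nat_lit 48087040)) (I.pos (nat_lit 331300864) (nat_lit 379699200)) (I.mix (nat_lit 138838016) (nat_lit 113983488)) (I.mix (nat_lit 146620416) (nat_lit 113393664)) (I.mix (nat_lit 165167104) (nat_lit 94420992)))
  false (nat_lit 11035059)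
def b0_22 : Bx := Bx.mk (St.mk (I.mix (nat_lit 8536064) (nat_lit 33521664)) (I.mix (nat_lit 16449536) (nat_lit 21626880)) (I.neg (nat_lit 45481984) (nat_lit 51740672)) (I.pos (nat_lit 285081600) (nat_lit 292929536)) (I.mix (nat_lit 93716480) (nat_lit 113180672)) (I.mix (nat_lit 78430208) (nat_lit 98156544)) (I.mix (nat_lit 22577152) (nat_lit 24543232)))
  false (nat_lit 0)
def b0_23 : Bx := Bx.mk (St.mk (I.neg (nat_lit 62128128) (nat_lit 106233856)) (I.mix (nat_lit 5292032) (nat_lit 37568512)) (I.mix (nat_lit 30588928) (nat_lit 6914048)) (I.pos (nat_lit 310460416) (nat_lit 346963968)) (I.mix (nat_lit 99713024) (nat_lit 138641408)) (I.mix (nat_lit 119603200) (nat_lit 85229568)) (I.mix (nat_lit 96485376) (nat_lit 97419264)))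
  true (nat_lit 0)
def b0_24 : Bx := Bx.mk (St.mk (I.pos (nat_lit 52723712) (nat_lit 88571904)) (I.mix (nat_lit 45203456) (nat_lit 2129920)) (I.mix (nat_lit 33030144) (nat_lit 5799936)) (I.pos (nat_lit 304480256) (nat_lit 331907072)) (I.mix (nat_lit 170688512) (nat_lit 74678272)) (I.mix (nat_lit 96206848) (nat_lit 114606080)) (I.mix (nat_lit 102694912) (nat_lit 99434496)))
  false (nat_lit 0)
def b0_25 : Bx := Bx.mk (St.mk (I.neg (nat_lit 7159808) (nat_lit 41123840)) (I.mix (nat_lit 17809408) (nat_lit 28377088)) (I.neg (nat_lit 45760512) (nat_lit 57049088)) (I.pos (nat_lit 285081600) (nat_lit 295190528)) (I.mix (nat_lit 140738560) (nat_lit 75694080)) (I.mix (nat_lit 94453760) (nat_lit 94912512)) (I.mix (nat_lit 41680896) (nat_lit 28917760)))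
  true (nat_lit 0)
def b0_26 : Bx := Bx.mk (St.mk (I.pos (nat_lit 175357952) (nat_lit 202964992)) (I.pos (nat_lit 9125888) (nat_lit 39895040)) (I.neg (nat_lit 12599296) (nat_lit 60063744)) (I.pos (nat_lit 446873600) (nat_lit 486080512)) (I.mix (nat_lit 131809280) (nat_lit 58261504)) (I.mix (nat_lit 87916544) (nat_lit 89669632)) (I.mix (nat_lit 161841152) (nat_lit 154566656)))
  false (nat_lit 0)
def b0_27 : Bx := Bx.mk (St.mk (I.pos (nat_lit 61833216) (nat_lit 82788352)) (I.neg (nat_lit 25657344) (nat_lit 44449792)) (I.neg (nat_lit 16105472) (nat_lit 32423936)) (I.pos (nat_lit 311984128) (nat_lit 329302016)) (I.mix (nat_lit 57802752) (nat_lit 27082752)) (I.mix (nat_lit 36241408) (nat_lit 38830080)) (I.mix (nat_lit 41091072) (nat_lit 33669120)))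
  false (nat_lit 0)
def b0_28 : Bx := Bx.mk (St.mk (I.neg (nat_lit 12582912) (nat_lit 29868032)) (I.pos (nat_lit 5472256) (nat_lit 28049408)) (I.neg (nat_lit 50544640) (nat_lit 57294848)) (I.pos (nat_lit 285851648) (nat_lit 293027840)) (I.mix (nat_lit 31178752) (nat_lit 32374784)) (I.mix (nat_lit 28688384) (nat_lit 27099136)) (I.mix (nat_lit 19316736) (nat_lit 2195456)))
  true (nat_lit 0)
def b0_29 : Bx := Bx.mk (St.mk (I.pos (nat_lit 110379008) (nat_lit 138002432)) (I.mix (nat_lit 22757376) (nat_lit 1720320)) (I.mix (nat_lit 12730368) (nat_lit 13942784)) (I.pos (nat_lit 353288192) (nat_lit 384483328)) (I.mix (nat_lit 100417536) (nat_lit 71303168)) (I.mix (nat_lit 86573056) (nat_lit 83804160)) (I.mix (nat_lit 89374720) (nat_lit 88195072)))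
  false (nat_lit 0)
def b0_30 : Bx := Bx.mk (St.mk (I.pos (nat_lit 12582912) (nat_lit 29868032)) (I.neg (nat_lit 5472256) (nat_lit 28049408)) (I.neg (nat_lit 50544640) (nat_lit 57294848)) (I.pos (nat_lit 285851648) (nat_lit 293027840)) (I.mix (nat_lit 32374784) (nat_lit 31178752)) (I.mix (nat_lit 27099136) (nat_lit 28688384)) (I.mix (nat_lit 19316736) (nat_lit 2195456)))
  false (nat_lit 0)
def b0_31 : Bx := Bx.mk (St.mk (I.neg (nat_lit 61833216) (nat_lit 82788352)) (I.pos (nat_lit 21463040) (nat_lit 44580864)) (I.neg (nat_lit 12500992) (nat_lit 32538624)) (I.pos (nat_lit 311984128) (nat_lit 329302016)) (I.mix (nat_lit 27082752) (nat_lit 57802752)) (I.mix (nat_lit 38830080) (nat_lit 36241408)) (I.mix (nat_lit 41091072) (nat_lit 33685504)))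
  true (nat_lit 0)
def b0_32 : Bx := Bx.mk (St.mk (I.pos (nat_lit 81133568) (nat_lit 104218624)) (I.neg (nat_lit 15138816) (nat_lit 30916608)) (I.neg (nat_lit 10616832) (nat_lit 24215552)) (I.pos (nat_lit 323977216) (nat_lit 344768512)) (I.mix (nat_lit 52281344) (nat_lit 10354688)) (I.mix (nat_lit 25395200) (nat_lit 18022400)) (I.mix (nat_lit 32636928) (nat_lit 8404992)))
  false (nat_lit 0)
def b0_33 : Bx := Bx.mk (St.mk (I.mix (nat_lit 14155776) (nat_lit 6193152)) (I.mix (nat_lit 3522560) (nat_lit 13156352)) (I.neg (nat_lit 47874048) (nat_lit 50298880)) (I.pos (nat_lit 285212672) (nat_lit 288620544)) (I.mix (nat_lit 29327360) (nat_lit 26132480)) (I.mix (nat_lit 14630912) (nat_lit 22462464)) (I.mix (nat_lit 5586944) (nat_lit 966656)))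
  true (nat_lit 0)
def b0_34 : Bx := Bx.mk (St.mk (I.pos (nat_lit 65536000) (nat_lit 106135552)) (I.mix (nat_lit 37306368) (nat_lit 2244608)) (I.mix (nat_lit 29949952) (nat_lit 4440064)) (I.pos (nat_lit 312573952) (nat_lit 346963968)) (I.mix (nat_lit 115900416) (nat_lit 93224960)) (I.mix (nat_lit 76857344) (nat_lit 110510080)) (I.mix (nat_lit 88424448) (nat_lit 87703552)))
  false (nat_lit 0)
def b0_35 : Bx := Bx.mk (St.mk (I.mix (nat_lit 27803648) (nat_lit 6471680)) (I.mix (nat_lit 21626880) (nat_lit 14467072)) (I.neg (nat_lit 45809664) (nat_lit 51347456)) (I.pos (nat_lit 285229056) (nat_lit 291930112)) (I.mix (nat_lit 113180672) (nat_lit 93716480)) (I.mix (nat_lit 98156544) (nat_lit 78200832)) (I.mix (nat_lit 20840448) (nat_lit 24068096)))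
  true (nat_lit 0)
def t0 : BTr := (BTr.n (BTr.n (BTr.n (BTr.n (BTr.n (BTr.b b0_0) (BTr.b b0_1)) (BTr.n (BTr.b b0_2) (BTr.b b0_3))) (BTr.n (BTr.n (BTr.b b0_4) (BTr.b b0_5)) (BTr.n (BTr.b b0_6) (BTr.n (BTr.b b0_7) (BTr.b b0_8))))) (BTr.n (BTr.n (BTr.n (BTr.b b0_9) (BTr.b b0_10)) (BTr.n (BTr.b b0_11) (BTr.b b0_12))) (BTr.n (BTr.n (BTr.b b0_13) (BTr.b b0_14)) (BTr.n (BTr.b b0_15) (BTr.n (BTr.b b0_16) (BTr.b b0_17)))))) (BTr.n (BTr.n (BTr.n (BTr.n (BTr.b b0_18) (BTr.b b0_19)) (BTr.n (BTr.b b0_20) (BTr.b b0_21))) (BTr.n (BTr.n (BTr.b b0_22) (BTr.b b0_23)) (BTr.n (BTr.b b0_24) (BTr.n (BTr.b b0_25) (BTr.b b0_26))))) (BTr.n (BTr.n (BTr.n (BTr.b b0_27) (BTr.b b0_28)) (BTr.n (BTr.b b0_29) (BTr.b b0_30))) (BTr.n (BTr.n (BTr.b b0_31) (BTr.b b0_32)) (BTr.n (BTr.b b0_33) (BTr.n (BTr.b b0_34) (BTr.b b0_35)))))))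
namespace T0
def l0 : Tr := Tr.L (Pth.l (Pth.l (Pth.l (Pth.l (Pth.l Pth.z)))))
def l1 : Tr := Tr.L (Pth.l (Pth.l (Pth.l (Pth.l (Pth.r Pth.z)))))
def l2 : Tr := Tr.L (Pth.l (Pth.l (Pth.l (Pth.r (Pth.l Pth.z)))))
def l3 : Tr := Tr.L (Pth.l (Pth.l (Pth.l (Pth.r (Pth.r Pth.z)))))
def l4 : Tr := Tr.L (Pth.l (Pth.l (Pth.r (Pth.l (Pth.l Pth.z)))))
def l5 : Tr := Tr.L (Pth.l (Pth.l (Pth.r (Pth.l (Pth.r Pth.z)))))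
def l6 : Tr := Tr.L (Pth.l (Pth.l (Pth.r (Pth.r (Pth.l Pth.z)))))
def l7 : Tr := Tr.L (Pth.l (Pth.l (Pth.r (Pth.r (Pth.r (Pth.l Pth.z))))))
def l8 : Tr := Tr.L (Pth.l (Pth.l (Pth.r (Pth.r (Pth.r (Pth.r Pth.z))))))
def l9 : Tr := Tr.L (Pth.l (Pth.r (Pth.l (Pth.l (Pth.l Pth.z)))))
def l10 : Tr := Tr.L (Pth.l (Pth.r (Pth.l (Pth.l (Pth.r Pth.z)))))
def l11 : Tr := Tr.L (Pth.l (Pth.r (Pth.l (Pth.r (Pth.l Pth.z)))))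
def l12 : Tr := Tr.L (Pth.l (Pth.r (Pth.l (Pth.r (Pth.r Pth.z)))))
def l13 : Tr := Tr.L (Pth.l (Pth.r (Pth.r (Pth.l (Pth.l Pth.z)))))
def l14 : Tr := Tr.L (Pth.l (Pth.r (Pth.r (Pth.l (Pth.r Pth.z)))))
def l15 : Tr := Tr.L (Pth.l (Pth.r (Pth.r (Pth.r (Pth.l Pth.z)))))
def l16 : Tr := Tr.L (Pth.l (Pth.r (Pth.r (Pth.r (Pth.r (Pth.l Pth.z))))))
def l17 : Tr := Tr.L (Pth.l (Pth.r (Pth.r (Pth.r (Pth.r (Pth.r Pth.z))))))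
def l18 : Tr := Tr.L (Pth.r (Pth.l (Pth.l (Pth.l (Pth.l Pth.z)))))
def l19 : Tr := Tr.L (Pth.r (Pth.l (Pth.l (Pth.l (Pth.r Pth.z)))))
def l20 : Tr := Tr.L (Pth.r (Pth.l (Pth.l (Pth.r (Pth.l Pth.z)))))
def l21 : Tr := Tr.L (Pth.r (Pth.l (Pth.l (Pth.r (Pth.r Pth.z)))))
def l22 : Tr := Tr.L (Pth.r (Pth.l (Pth.r (Pth.l (Pth.l Pth.z)))))
def l23 : Tr := Tr.L (Pth.r (Pth.l (Pth.r (Pth.l (Pth.r Pth.z)))))
def l24 : Tr := Tr.L (Pth.r (Pth.l (Pth.r (Pth.r (Pth.l Pth.z)))))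
def l25 : Tr := Tr.L (Pth.r (Pth.l (Pth.r (Pth.r (Pth.r (Pth.l Pth.z))))))
def l26 : Tr := Tr.L (Pth.r (Pth.l (Pth.r (Pth.r (Pth.r (Pth.r Pth.z))))))
def l27 : Tr := Tr.L (Pth.r (Pth.r (Pth.l (Pth.l (Pth.l Pth.z)))))
def l28 : Tr := Tr.L (Pth.r (Pth.r (Pth.l (Pth.l (Pth.r Pth.z)))))
def l29 : Tr := Tr.L (Pth.r (Pth.r (Pth.l (Pth.r (Pth.l Pth.z)))))
def l30 : Tr := Tr.L (Pth.r (Pth.r (Pth.l (Pth.r (Pth.r Pth.z)))))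
def l31 : Tr := Tr.L (Pth.r (Pth.r (Pth.r (Pth.l (Pth.l Pth.z)))))
def l32 : Tr := Tr.L (Pth.r (Pth.r (Pth.r (Pth.l (Pth.r Pth.z)))))
def l33 : Tr := Tr.L (Pth.r (Pth.r (Pth.r (Pth.r (Pth.l Pth.z)))))
def l34 : Tr := Tr.L (Pth.r (Pth.r (Pth.r (Pth.r (Pth.r (Pth.l Pth.z))))))
def l35 : Tr := Tr.L (Pth.r (Pth.r (Pth.r (Pth.r (Pth.r (Pth.r Pth.z))))))
end T0
def rc0_0_0_ll : Tr := (xa (xb (xa (xb (xa (xb T0.l0 T0.l0) (xb T0.l0 T0.l0)) (xa (xb (xc T0.l0 T0.l0) (xc T0.l0 T0.l0)) (xb T0.l0 T0.l0))) (xb (xa T0.l0 T0.l0) (xa T0.l0 T0.l0))) (xa (xb (xa (xb (xc T0.l0 T0.l0) (xc T0.l0 T0.l0)) (xb T0.l0 T0.l0)) (xa (xb (xc T0.l0 T0.l0) (xc T0.l0 T0.l0)) (xb T0.l0 T0.l0))) (xb (xa (xb T0.l0 T0.l0) T0.l0) (xa (xb T0.l0 T0.l0) T0.l0)))) (xb (xa (xb T0.l0 T0.l0) T0.l0) (xa (xb T0.l0 T0.l0) (xb T0.l0 T0.l0))))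
theorem qc0_0_0_ll : chkTr (tg true true false RT.r2) b0_0 t0 rc0_0_0_ll
  (upd lo Co.b (upd lo Co.a (rc sI cl4 cl4 cl4 b0_0 (I.pos (nat_lit 0) (nat_lit 0))))) = true := by decide +kernel
def rc0_0_0_lrl : Tr := (xb (xa (xb (xa (xb (xc T0.l0 T0.l0) (xc T0.l0 T0.l0)) (xb T0.l0 T0.l0)) (xa (xb (xc T0.l0 T0.l0) (xc T0.l0 T0.l0)) (xb T0.l0 T0.l0))) (xb (xa (xb T0.l0 T0.l0) T0.l0) (xa (xb T0.l0 T0.l0) (xb T0.l0 T0.l0)))) (xa (xb (xa (xb (xc T0.l0 (xa T0.l0 T0.l0)) (xc T0.l0 (xa (xb T0.l0 T0.l0) T0.l0))) (xb (xc T0.l0 T0.l0) (xc T0.l0 T0.l0))) (xa (xb (xc (xa T0.l0 T0.l0) (xa (xb T0.l0 T0.l0) T0.l0)) (xc (xa (xb T0.l0 T0.l0) (xb T0.l0 T0.l0)) (xa (xb T0.l0 T0.l0) (xb T0.l0 T0.l0)))) (xb (xc (xa T0.l0 T0.l0) (xa T0.l0 T0.l0)) (xc (xa (xb T0.l0 T0.l0) (xb T0.l0 T0.l0)) (xa (xb T0.l0 T0.l0) (xb T0.l0 T0.l0))))))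 (xb (xa (xb (xc T0.l0 T0.l0) (xc T0.l0 T0.l0)) (xb (xc T0.l0 T0.l0) (xc T0.l0 T0.l0))) (xa (xb (xc (xa T0.l0 T0.l0) (xa T0.l0 T0.l0)) (xc (xa (xb T0.l0 T0.l0) (xb T0.l0 T0.l0)) (xa (xb T0.l0 T0.l0) (xb T0.l0 T0.l0)))) (xb (xc (xa T0.l0 T0.l0) (xa T0.l0 T0.l0)) (xc (xa (xb T0.l0 T0.l0) T0.l0) (xa (xb T0.l0 T0.l0) (xb T0.l0 T0.l0))))))))
theorem qc0_0_0_lrl : chkTr (tg true true false RT.r2) b0_0 t0 rc0_0_0_lrl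
  (upd lo Co.a (upd hi Co.b (upd lo Co.a (rc sI cl4 cl4 cl4 b0_0 (I.pos (nat_lit 0) (nat_lit 0)))))) = true := by decide +kernel
def rc0_0_0_lrr : Tr := (xb (xa (xb (xa T0.l0 T0.l0) (xa (xb T0.l0 T0.l0) (xb T0.l0 T0.l0))) (xb (xa T0.l0 T0.l0) (xa (xb T0.l0 T0.l0) (xb T0.l0 T0.l0)))) (xa (xb (xa (xb T0.l0 (xc T0.l0 T0.l0)) (xb T0.l0 (xc T0.l0 T0.l0))) (xa (xb (xc (xa T0.l0 T0.l0) T0.l0) (xc (xa T0.l0 T0.l0) (xa (xb T0.l0 T0.l0) (xb T0.l0 T0.l0)))) (xb (xc T0.l0 T0.l0) (xc (xa T0.l0 T0.l0) (xa (xb T0.l0 T0.l0) (xb T0.l0 T0.l0)))))) (xb (xa (xb T0.l0 (xc T0.l0 T0.l0)) (xb T0.l0 (xc T0.l0 T0.l0))) (xa (xb (xc T0.l0 T0.l0) (xc (xa T0.l0 T0.l0) (xa (xb T0.l0 T0.l0) (xb T0.l0 T0.l0)))) (xb (xc T0.l0 T0.l0) (xc (xa T0.l0 T0.l0) (xa (xb T0.l0 T0.l0) (xb T0.l0 T0.l0))))))))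
theorem qc0_0_0_lrr : chkTr (tg true true false RT.r2) b0_0 t0 rc0_0_0_lrr
  (upd hi Co.a (upd hi Co.b (upd lo Co.a (rc sI cl4 cl4 cl4 b0_0 (I.pos (nat_lit 0) (nat_lit 0)))))) = true := by decide +kernel
theorem qc0_0_0_lr : chkTr (tg true true false RT.r2) b0_0 t0 (Tr.N Co.a rc0_0_0_lrl rc0_0_0_lrr)
  (upd hi Co.b (upd lo Co.a (rc sI cl4 cl4 cl4 b0_0 (I.pos (nat_lit 0) (nat_lit 0))))) = true := tr_split qc0_0_0_lrl qc0_0_0_lrr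
theorem qc0_0_0_l : chkTr (tg true true false RT.r2) b0_0 t0 (Tr.N Co.b rc0_0_0_ll (Tr.N Co.a rc0_0_0_lrl rc0_0_0_lrr))
  (upd lo Co.a (rc sI cl4 cl4 cl4 b0_0 (I.pos (nat_lit 0) (nat_lit 0)))) = true := tr_split qc0_0_0_ll qc0_0_0_lr
def rc0_0_0_r : Tr := (xb (xa (xb (xa T0.l0 T0.l0) (xa (xb T0.l0 T0.l0) (xb T0.l0 T0.l0))) (xb (xa T0.l0 (xb T0.l0 T0.l0)) (xa (xb T0.l0 T0.l0) (xb T0.l0 T0.l0)))) (xa (xb (xa (xb T0.l0 (xa T0.l0 T0.l0)) (xb T0.l0 (xa T0.l0 T0.l0))) (xa (xb (xa (xb T0.l0 (xc T0.l0 T0.l0)) (xb T0.l0 T0.l0)) (xa (xb (xc T0.l0 T0.l0) (xc (xa T0.l0 T0.l0) (xa (xb T0.l0 T0.l0) (xb T0.l0 T0.l0)))) (xb (xc T0.l0 T0.l0) (xc T0.l0 (xa (xb T0.l0 T0.l0) T0.l0))))) (xb (xa (xb T0.l0 T0.l0) (xb T0.l0 T0.l0)) (xa (xb (xc T0.l0 T0.l0) (xc T0.l0 (xa T0.l0 T0.l0))) (xb (xc T0.l0 T0.l0) (xc T0.l0 (xa T0.l0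 T0.l0))))))) (xb (xa (xb T0.l0 (xa T0.l0 T0.l0)) (xb (xa T0.l0 T0.l0) (xa T0.l0 (xb T0.l0 T0.l0)))) (xa (xb (xa (xb T0.l0 T0.l0) (xb T0.l0 T0.l0)) (xa (xb (xc T0.l0 T0.l0) (xc T0.l0 (xa T0.l0 T0.l0))) (xb T0.l0 (xc T0.l0 (xa T0.l0 T0.l0))))) (xb (xa (xb T0.l0 T0.l0) (xb T0.l0 (xc T0.l0 (xa T0.l0 T0.l0)))) (xa (xb T0.l0 (xc T0.l0 (xa T0.l0 T0.l0))) (xb (xc T0.l0 (xa T0.l0 (xb T0.l0 T0.l0))) (xc (xa T0.l0 (xb T0.l0 T0.l0)) (xa (xb T0.l0 T0.l0) (xb T0.l0 T0.l0))))))))))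
theorem qc0_0_0_r : chkTr (tg true true false RT.r2) b0_0 t0 rc0_0_0_r
  (upd hi Co.a (rc sI cl4 cl4 cl4 b0_0 (I.pos (nat_lit 0) (nat_lit 0)))) = true := by decide +kernel
theorem qc0_0_0_ : chkTr (tg true true false RT.r2) b0_0 t0 (Tr.N Co.a (Tr.N Co.b rc0_0_0_ll (Tr.N Co.a rc0_0_0_lrl rc0_0_0_lrr)) rc0_0_0_r)
  (rc sI cl4 cl4 cl4 b0_0 (I.pos (nat_lit 0) (nat_lit 0))) = true := tr_split qc0_0_0_l qc0_0_0_r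
theorem c0_0_0 : chkTag sI cl4 cl4 cl4 t0 b0_0 (tg true true false RT.r2) (I.pos (nat_lit 0) (nat_lit 0))
  (Tr.N Co.a (Tr.N Co.b rc0_0_0_ll (Tr.N Co.a rc0_0_0_lrl rc0_0_0_lrr)) rc0_0_0_r) = true := tag_mk (by decide +kernel) qc0_0_0_
theorem c0_0_1 : chkTag sI cl4 cl4 cl4 t0 b0_0 (tg true false false RT.r3) (I.pos (nat_lit 0) (nat_lit 0))
  (xa (xb (xa (xb (xc (xa T0.l1 T0.l1) (xa T0.l1 T0.l1)) (xc (xa T0.l1 T0.l1) (xa T0.l1 T0.l1))) (xb (xa (xc T0.l1 T0.l1) (xc T0.l1 T0.l1)) (xa (xc T0.l1 T0.l1) (xc T0.l1 T0.l1)))) (xa (xb (xc (xa T0.l1 T0.l1) (xa T0.l1 T0.l1)) (xa (xc (xb T0.l1 T0.l1) (xb T0.l1 T0.l1)) (xc (xb T0.l1 T0.l1) (xb T0.l1 T0.l1)))) (xb (xa (xc T0.l1 T0.l1) (xc T0.l1 T0.l1)) (xa (xc (xb T0.l1 T0.l1) (xb T0.l1 T0.l1)) (xc (xb T0.l1 T0.l1) (xb T0.l1 T0.l1)))))) (xb (xa (xb (xa (xc T0.l1 T0.l1)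 (xc T0.l1 T0.l1)) (xa (xc T0.l1 T0.l1) (xc T0.l1 T0.l1))) (xb (xa (xc T0.l1 T0.l1) (xc T0.l1 T0.l1)) (xa (xc T0.l1 T0.l1) (xc T0.l1 (xb T0.l1 T0.l1))))) (xa (xb (xa (xc T0.l1 T0.l1) (xc T0.l1 T0.l1)) (xa (xc (xb T0.l1 T0.l1) (xb T0.l1 T0.l1)) (xc (xb T0.l1 T0.l1) (xb T0.l1 T0.l1)))) (xb (xa (xc T0.l1 T0.l1) (xc T0.l1 (xb T0.l1 T0.l1))) (xa (xc (xb T0.l1 T0.l1) (xb T0.l1 T0.l1)) (xc (xb T0.l1 (xa T0.l1 T0.l1)) (xb (xa T0.l1 T0.l1) (xa T0.l1 T0.l1)))))))) = true := by decide +kernel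
theorem c0_0_2 : chkTag sI cl4 cl4 cl4 t0 b0_0 (tg true true true RT.r4) (I.pos (nat_lit 0) (nat_lit 0))
  (xa (xb (xa (xc (xb T0.l2 T0.l2) (xb (xc T0.l2 T0.l2) T0.l2)) (xc (xb T0.l2 T0.l2) T0.l2)) (xc (xa T0.l2 T0.l2) (xa (xb T0.l2 (xc T0.l2 (xa T0.l2 T0.l2))) T0.l2))) (xb (xa (xc (xb (xa T0.l2 T0.l2) T0.l2) (xb (xa T0.l2 T0.l2) T0.l2)) (xc (xb (xa T0.l2 (xc T0.l2 T0.l2)) (xa T0.l2 (xc T0.l2 T0.l2))) (xb (xa T0.l2 (xc T0.l2 T0.l2)) (xa T0.l2 (xc T0.l2 T0.l2))))) (xa (xc (xb T0.l2 (xa T0.l2 T0.l2)) (xb T0.l2 (xa T0.l2 T0.l2))) (xc (xb (xa T0.l2 (xc T0.l2 T0.l2)) (xa (xc T0.l2 T0.l2) (xc (xb T0.l2 T0.l2) (xb T0.l2 T0.l2)))) (xb (xa T0.l2 (xc T0.l2 T0.l2)) (xa (xc T0.l2 T0.l2) (xc (xb T0.l2 T0.l2) (xb T0.l2 T0.l2)))))))) = true := by decide +kernel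
def rc0_0_3_l : Tr := (xb (xa (xb (xc (xa T0.l3 (xb T0.l3 T0.l3)) (xa (xb T0.l3 T0.l3) (xb T0.l3 T0.l3))) T0.l3) (xb (xa (xc (xb T0.l3 T0.l3) (xb T0.l3 T0.l3)) (xc (xb T0.l3 T0.l3) (xb T0.l3 T0.l3))) (xa T0.l3 T0.l3))) (xa (xb T0.l3 (xa (xc (xb T0.l3 T0.l3) (xb T0.l3 T0.l3)) T0.l3)) (xb (xb T0.l3 T0.l3) (xa T0.l3 (xc T0.l3 T0.l3)))))
theorem qc0_0_3_l : chkTr (tg false false false RT.r3) b0_0 t0 rc0_0_3_l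
  (upd lo Co.a (rc sI cl4 cl4 cl4 b0_0 (I.pos (nat_lit 0) (nat_lit 0)))) = true := by decide +kernel
def rc0_0_3_rl : Tr := (xa (xb (xa (xc (xb T0.l3 T0.l3) (xb (xa T0.l3 T0.l3) T0.l3)) (xc (xb (xa T0.l3 T0.l3) T0.l3) (xb (xa T0.l3 T0.l3) T0.l3))) (xa (xc T0.l3 T0.l3) (xc (xb T0.l3 T0.l3) (xb T0.l3 T0.l3)))) (xb (xa (xc (xb (xa T0.l3 T0.l3) T0.l3) (xb (xa T0.l3 T0.l3) T0.l3)) (xc (xb (xa T0.l3 (xc T0.l3 T0.l3)) (xa T0.l3 (xc T0.l3 T0.l3))) (xb (xa T0.l3 (xc T0.l3 T0.l3)) (xa (xc T0.l3 T0.l3) (xc T0.l3 T0.l3))))) (xa (xc (xb (xa T0.l3 T0.l3) (xa T0.l3 (xc T0.l3 T0.l3))) (xb (xc T0.l3 T0.l3) (xc T0.l3 (xa T0.l3 T0.l3)))) (xc (xb (xa (xc T0.l3 T0.l3) (xc (xb T0.l3 T0.l3) (xb T0.l3 T0.l3))) (xa (xc T0.l3 T0.l3) (xc (xb T0.l3 (xs T0.l3 T0.l3)) (xb T0.l3 (xs T0.l3 T0.l3))))) (xb (xa (xc T0.l3 T0.l3) (xc (xb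 T0.l3 T0.l3) (xb T0.l3 T0.l3))) (xa (xc T0.l3 (xb T0.l3 T0.l3)) (xc (xb T0.l3 (xs T0.l3 T0.l3)) (xb T0.l3 (xs T0.l3 T0.l3)))))))))
theorem qc0_0_3_rl : chkTr (tg false false false RT.r3) b0_0 t0 rc0_0_3_rl
  (upd lo Co.b (upd hi Co.a (rc sI cl4 cl4 cl4 b0_0 (I.pos (nat_lit 0) (nat_lit 0))))) = true := by decide +kernel
def rc0_0_3_rrl : Tr := (xb (xa (xb T0.l3 (xc T0.l3 T0.l3)) (xc (xb T0.l3 T0.l3) (xb T0.l3 (xc T0.l3 T0.l3)))) (xa (xc (xb T0.l3 T0.l3) (xb T0.l3 T0.l3)) (xc (xb (xb T0.l3 T0.l3) (xb T0.l3 T0.l3)) (xb (xb T0.l3 T0.l3) (xb T0.l3 T0.l3)))))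
theorem qc0_0_3_rrl : chkTr (tg false false false RT.r3) b0_0 t0 rc0_0_3_rrl
  (upd lo Co.a (upd hi Co.b (upd hi Co.a (rc sI cl4 cl4 cl4 b0_0 (I.pos (nat_lit 0) (nat_lit 0)))))) = true := by decide +kernel
def rc0_0_3_rrrl : Tr := (xa (xc (xb (xa T0.l3 (xb T0.l3 T0.l3)) (xa T0.l3 (xb T0.l3 T0.l3))) (xb (xc (xa T0.l3 T0.l3) (xa T0.l3 T0.l3)) (xc (xa T0.l3 T0.l3) (xa T0.l3 (xb T0.l3 T0.l3))))) (xc (xb (xa (xb (xc T0.l3 T0.l3) (xc T0.l3 T0.l3)) (xc (xb T0.l3 (xs T0.l3 T0.l3)) (xb (xs T0.l3 T0.l3) (xs T0.l3 T0.l3)))) (xa (xb (xc T0.l3 T0.l3) (xc T0.l3 T0.l3)) (xc (xb (xs T0.l3 T0.l3) (xs T0.l3 T0.l3)) (xb (xs T0.l3 T0.l3) (xs T0.l3 (xa T0.l3 T0.l3)))))) (xb (xa (xc (xb T0.l3 T0.l3) (xb T0.l3 (xs T0.l3 T0.l3))) (xc (xb (xs T0.l3 T0.l3) (xs T0.l3 T0.l3)) (xb (xs T0.l3 T0.l3) (xs T0.l3 T0.l3)))) (xa (xc (xb T0.l3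 (xs T0.l3 T0.l3)) (xb (xs T0.l3 T0.l3) (xs T0.l3 T0.l3))) (xc (xb (xs T0.l3 T0.l3) (xs T0.l3 T0.l3)) (xb (xs T0.l3 T0.l3) (xs T0.l3 T0.l3)))))))
theorem qc0_0_3_rrrl : chkTr (tg false false false RT.r3) b0_0 t0 rc0_0_3_rrrl
  (upd lo Co.b (upd hi Co.a (upd hi Co.b (upd hi Co.a (rc sI cl4 cl4 cl4 b0_0 (I.pos (nat_lit 0) (nat_lit 0))))))) = true := by decide +kernel
def rc0_0_3_rrrrl : Tr := (xc (xb (xb (xa T0.l3 (xc T0.l3 T0.l3)) (xa T0.l3 (xc T0.l3 T0.l3))) (xb (xa T0.l3 (xc T0.l3 T0.l3)) (xa (xc T0.l3 T0.l3) (xc (xs T0.l3 T0.l3) (xs T0.l3 T0.l3))))) (xb (xb (xa T0.l3 (xc T0.l3 T0.l3)) (xa (xc (xs T0.l3 (xb (xa T0.l3 T0.l3) (xa T0.l3 T0.l3))) (xs (xb T0.l3 T0.l3) (xb (xc T0.l3 T0.l3) (xc T0.l3 T0.l3)))) (xc (xs (xa (xb T0.l3 T0.l3) (xb T0.l3 T0.l3)) (xb (xa T0.l3 (xc T0.l3 T0.l3)) (xa T0.l3 (xc T0.l3 T0.l3))))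 (xs (xa (xb T0.l3 T0.l3) (xb T0.l3 T0.l3)) (xc (xa T0.l3 (xb T0.l3 T0.l3)) (xa T0.l3 (xb T0.l3 T0.l3))))))) (xa (xb T0.l3 T0.l3) (xb (xc T0.l3 T0.l3) (xc T0.l3 T0.l3)))))
theorem qc0_0_3_rrrrl : chkTr (tg false false false RT.r3) b0_0 t0 rc0_0_3_rrrrl
  (upd lo Co.a (upd hi Co.b (upd hi Co.a (upd hi Co.b (upd hi Co.a (rc sI cl4 cl4 cl4 b0_0 (I.pos (nat_lit 0) (nat_lit 0)))))))) = true := by decide +kernel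
def rc0_0_3_rrrrrl : Tr := (xb (xa (xb (xc T0.l3 (xs T0.l3 T0.l3)) (xc (xs T0.l3 T0.l3) (xs T0.l3 T0.l3))) (xc (xb (xs T0.l3 T0.l3) (xs T0.l3 T0.l3)) (xb (xs T0.l3 (xa T0.l3 T0.l3)) (xs T0.l3 T0.l3)))) (xa (xb (xc T0.l3 (xs T0.l3 T0.l3)) (xs (xc T0.l3 T0.l3) (xc (xb T0.l3 T0.l3) (xb T0.l3 T0.l3)))) (xc (xb (xs T0.l3 (xa T0.l3 T0.l3)) (xs (xa T0.l3 T0.l3) (xb T0.l3 T0.l3))) (xb (xs T0.l3 T0.l3) (xs (xa T0.l3 (xb T0.l3 T0.l3)) (xa (xb T0.l3 T0.l3) (xb T0.l3 T0.l3)))))))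
theorem qc0_0_3_rrrrrl : chkTr (tg false false false RT.r3) b0_0 t0 rc0_0_3_rrrrrl
  (upd lo Co.be (upd hi Co.a (upd hi Co.b (upd hi Co.a (upd hi Co.b (upd hi Co.a (rc sI cl4 cl4 cl4 b0_0 (I.pos (nat_lit 0) (nat_lit 0))))))))) = true := by decide +kernel
def rc0_0_3_rrrrrr : Tr := (xb (xa (xb (xc T0.l3 (xs T0.l3 T0.l3)) (xc (xs T0.l3 (xa T0.l3 T0.l3)) (xs T0.l3 (xa T0.l3 T0.l3)))) (xc (xb (xs T0.l3 (xa T0.l3 T0.l3)) (xs (xa T0.l3 T0.l3) (xa T0.l3 (xb T0.l3 T0.l3)))) (xb (xs T0.l3 T0.l3) (xs (xa T0.l3 T0.l3) (xa T0.l3 (xc T0.l3 T0.l3)))))) (xa (xc (xb (xs T0.l3 T0.l3) (xs T0.l3 T0.l3)) (xb (xs T0.l3 T0.l3) (xs T0.l3 T0.l3))) (xc (xb (xs T0.l3 T0.l3) (xs (xa (xb T0.l3 T0.l3) (xb (xs T0.l3 T0.l3) (xs T0.l3 T0.l3))) (xa (xb (xc T0.l3 T0.l3) (xc T0.l3 T0.l3)) (xb (xc (xs T0.l3 T0.l3) (xs T0.l3 T0.l3)) (xc (xs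 T0.l3 T0.l3) (xs T0.l3 T0.l3)))))) (xb (xs T0.l3 (xa T0.l3 T0.l3)) (xs (xa T0.l3 T0.l3) (xa T0.l3 (xb T0.l3 T0.l3)))))))
theorem qc0_0_3_rrrrrr : chkTr (tg false false false RT.r3) b0_0 t0 rc0_0_3_rrrrrr
  (upd hi Co.be (upd hi Co.a (upd hi Co.b (upd hi Co.a (upd hi Co.b (upd hi Co.a (rc sI cl4 cl4 cl4 b0_0 (I.pos (nat_lit 0) (nat_lit 0))))))))) = true := by decide +kernel
theorem qc0_0_3_rrrrr : chkTr (tg false false false RT.r3) b0_0 t0 (Tr.N Co.be rc0_0_3_rrrrrl rc0_0_3_rrrrrr)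
  (upd hi Co.a (upd hi Co.b (upd hi Co.a (upd hi Co.b (upd hi Co.a (rc sI cl4 cl4 cl4 b0_0 (I.pos (nat_lit 0) (nat_lit 0)))))))) = true := tr_split qc0_0_3_rrrrrl qc0_0_3_rrrrrr
theorem qc0_0_3_rrrr : chkTr (tg false false false RT.r3) b0_0 t0 (Tr.N Co.a rc0_0_3_rrrrl (Tr.N Co.be rc0_0_3_rrrrrl rc0_0_3_rrrrrr))
  (upd hi Co.b (upd hi Co.a (upd hi Co.b (upd hi Co.a (rc sI cl4 cl4 cl4 b0_0 (I.pos (nat_lit 0) (nat_lit 0))))))) = true := tr_split qc0_0_3_rrrrl qc0_0_3_rrrrr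
theorem qc0_0_3_rrr : chkTr (tg false false false RT.r3) b0_0 t0 (Tr.N Co.b rc0_0_3_rrrl (Tr.N Co.a rc0_0_3_rrrrl (Tr.N Co.be rc0_0_3_rrrrrl rc0_0_3_rrrrrr)))
  (upd hi Co.a (upd hi Co.b (upd hi Co.a (rc sI cl4 cl4 cl4 b0_0 (I.pos (nat_lit 0) (nat_lit 0)))))) = true := tr_split qc0_0_3_rrrl qc0_0_3_rrrr
theorem qc0_0_3_rr : chkTr (tg false false false RT.r3) b0_0 t0 (Tr.N Co.a rc0_0_3_rrl (Tr.N Co.b rc0_0_3_rrrl (Tr.N Co.a rc0_0_3_rrrrl (Tr.N Co.be rc0_0_3_rrrrrl rc0_0_3_rrrrrr))))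
  (upd hi Co.b (upd hi Co.a (rc sI cl4 cl4 cl4 b0_0 (I.pos (nat_lit 0) (nat_lit 0))))) = true := tr_split qc0_0_3_rrl qc0_0_3_rrr
theorem qc0_0_3_r : chkTr (tg false false false RT.r3) b0_0 t0 (Tr.N Co.b rc0_0_3_rl (Tr.N Co.a rc0_0_3_rrl (Tr.N Co.b rc0_0_3_rrrl (Tr.N Co.a rc0_0_3_rrrrl (Tr.N Co.be rc0_0_3_rrrrrl rc0_0_3_rrrrrr)))))
  (upd hi Co.a (rc sI cl4 cl4 cl4 b0_0 (I.pos (nat_lit 0) (nat_lit 0)))) = true := tr_split qc0_0_3_rl qc0_0_3_rr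
theorem qc0_0_3_ : chkTr (tg false false false RT.r3) b0_0 t0 (Tr.N Co.a rc0_0_3_l (Tr.N Co.b rc0_0_3_rl (Tr.N Co.a rc0_0_3_rrl (Tr.N Co.b rc0_0_3_rrrl (Tr.N Co.a rc0_0_3_rrrrl (Tr.N Co.be rc0_0_3_rrrrrl rc0_0_3_rrrrrr))))))
  (rc sI cl4 cl4 cl4 b0_0 (I.pos (nat_lit 0) (nat_lit 0))) = true := tr_split qc0_0_3_l qc0_0_3_r
theorem c0_0_3 : chkTag sI cl4 cl4 cl4 t0 b0_0 (tg false false false RT.r3) (I.pos (nat_lit 0) (nat_lit 0))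
  (Tr.N Co.a rc0_0_3_l (Tr.N Co.b rc0_0_3_rl (Tr.N Co.a rc0_0_3_rrl (Tr.N Co.b rc0_0_3_rrrl (Tr.N Co.a rc0_0_3_rrrrl (Tr.N Co.be rc0_0_3_rrrrrl rc0_0_3_rrrrrr)))))) = true := tag_mk (by decide +kernel) qc0_0_3_
theorem c0_0_4 : chkTag sI cl4 cl4 cl4 t0 b0_0 (tg false true false RT.r4) (I.pos (nat_lit 0) (nat_lit 0))
  (xa (xb (xa (xc (xb T0.l4 T0.l4) (xb (xc T0.l4 T0.l4) T0.l4)) (xc (xb T0.l4 T0.l4) T0.l4)) (xc (xa T0.l4 T0.l4) (xa (xb T0.l4 (xc T0.l4 (xa T0.l4 T0.l4))) T0.l4))) (xb (xa (xc (xb (xa T0.l4 T0.l4) T0.l4) (xb (xa T0.l4 T0.l4) T0.l4)) (xc (xb (xa T0.l4 (xc T0.l4 T0.l4)) (xa T0.l4 (xc T0.l4 T0.l4))) (xb (xa T0.l4 (xc T0.l4 T0.l4)) (xa T0.l4 (xc T0.l4 T0.l4))))) (xa (xc (xb T0.l4 (xa T0.l4 T0.l4)) (xb T0.l4 (xa T0.l4 T0.l4))) (xc (xb (xa T0.l4 (xc T0.l4 T0.l4)) (xa (xc T0.l4 T0.l4) (xc (xb T0.l4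 T0.l4) (xb T0.l4 T0.l4)))) (xb (xa T0.l4 (xc T0.l4 T0.l4)) (xa (xc T0.l4 T0.l4) (xc (xb T0.l4 T0.l4) (xb T0.l4 T0.l4)))))))) = true := by decide +kernel
theorem c0_0_5 : chkTag sI cl4 cl4 cl4 t0 b0_0 (tg false false true RT.r5) (I.pos (nat_lit 0) (nat_lit 0))
  (xa (xb (xa (xb (xc (xa T0.l5 T0.l5) (xa T0.l5 T0.l5)) (xc (xa T0.l5 T0.l5) (xa T0.l5 T0.l5))) (xb (xa (xc T0.l5 T0.l5) (xc T0.l5 T0.l5)) (xa (xc T0.l5 T0.l5) (xc T0.l5 T0.l5)))) (xa (xb (xc (xa T0.l5 T0.l5) (xa T0.l5 T0.l5)) (xa (xc (xb T0.l5 T0.l5) (xb T0.l5 T0.l5)) (xc (xb T0.l5 T0.l5) (xb T0.l5 T0.l5)))) (xb (xa (xc T0.l5 T0.l5) (xc T0.l5 T0.l5)) (xa (xc (xb T0.l5 T0.l5) (xb T0.l5 T0.l5)) (xc (xb T0.l5 T0.l5) (xb T0.l5 T0.l5)))))) (xb (xa (xb (xa (xc T0.l5 T0.l5) (xc T0.l5 T0.l5)) (xa (xc T0.l5 T0.l5) (xc T0.l5 T0.l5))) (xb (xa (xc T0.l5 T0.l5)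 (xc T0.l5 T0.l5)) (xa (xc T0.l5 T0.l5) (xc T0.l5 (xb T0.l5 T0.l5))))) (xa (xb (xa (xc T0.l5 T0.l5) (xc T0.l5 T0.l5)) (xa (xc (xb T0.l5 T0.l5) (xb T0.l5 T0.l5)) (xc (xb T0.l5 T0.l5) (xb T0.l5 T0.l5)))) (xb (xa (xc T0.l5 T0.l5) (xc T0.l5 (xb T0.l5 T0.l5))) (xa (xc (xb T0.l5 T0.l5) (xb T0.l5 T0.l5)) (xc (xb T0.l5 (xa T0.l5 T0.l5)) (xb (xa T0.l5 T0.l5) (xa T0.l5 T0.l5)))))))) = true := by decide +kernel
theorem bx0_0 : BoxOK sI cl4 cl4 cl4 t0 t0 b0_0 :=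
  box_mk' [(tg true true false RT.r2), (tg true false false RT.r3), (tg true true true RT.r4), (tg false false false RT.r3), (tg false true false RT.r4), (tg false false true RT.r5)] rfl (allL_c (ex_mk c0_0_0) (allL_c (ex_mk c0_0_1) (allL_c (ex_mk c0_0_2) (allL_c (ex_mk c0_0_3) (allL_c (ex_mk c0_0_4) (allL_c (ex_mk c0_0_5) allL_n))))))
theorem bx0_1 : BoxOK sI cl4 cl4 cl4 t0 t0 b0_1 :=
  box_mk (TrL.c (I.pos (nat_lit 0) (nat_lit 0)) (xb (xa (xb (xa (xb (xa T0.l6 T0.l6) (xa T0.l6 T0.l6)) (xb (xa T0.l6 T0.l6) T0.l6)) (xa (xb (xa T0.l6 T0.l6) (xa T0.l6 T0.l6)) (xa T0.l6 T0.l6))) (xa (xb (xa T0.l6 T0.l6) T0.l6) (xb (xa T0.l6 (xb T0.l6 T0.l6)) T0.l6))) (xa (xa (xb (xa (xb T0.l6 T0.l6) (xb T0.l6 T0.l6)) (xa (xb T0.l6 T0.l6) (xb T0.l6 T0.l6))) (xb (xa T0.l6 T0.l6) (xa (xb T0.l6 T0.l6) T0.l6))) (xa (xb T0.l6 (xa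 T0.l6 T0.l6)) (xb T0.l6 (xa T0.l6 T0.l6)))))
  (TrL.c (I.pos (nat_lit 0) (nat_lit 0)) (xb (xa (xb T0.l7 T0.l7) (xb T0.l24 T0.l7)) (xa (xb T0.l7 T0.l24) (xb T0.l7 T0.l7)))
  (TrL.c (I.pos (nat_lit 0) (nat_lit 0)) (xb (xa (xb T0.l8 T0.l8) (xc (xb T0.l25 T0.l8) (xb T0.l8 T0.l8))) (xa (xb T0.l8 T0.l8) (xc (xb T0.l8 T0.l8) T0.l8)))
  (TrL.c (I.pos (nat_lit 0) (nat_lit 0)) (xb (xa (xb (xa T0.l9 T0.l9) (xa T0.l9 T0.l9)) (xb (xa T0.l9 T0.l9) (xa T0.l9 T0.l9))) (xa (xb (xa T0.l9 T0.l9) (xa T0.l9 T0.l9)) (xb (xa T0.l9 T0.l9) (xa T0.l9 T0.l9))))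
  (TrL.c (I.pos (nat_lit 0) (nat_lit 0)) (xb (xa (xb T0.l10 T0.l10) (xc (xb T0.l10 T0.l10) (xb T0.l10 T0.l10))) (xa (xb T0.l10 T0.l10) (xc (xb T0.l10 T0.l10) T0.l10)))
  (TrL.c (I.pos (nat_lit 0) (nat_lit 0)) (xb (xa (xb T0.l11 T0.l11) (xb T0.l11 T0.l11)) (xa (xb T0.l11 T0.l11) (xb T0.l11 T0.l11)))
  TrL.n)))))) (by decide +kernel)
theorem bx0_2 : BoxOK sI cl4 cl4 cl4 t0 t0 b0_2 :=
  box_mk (TrL.c (I.pos (nat_lit 0) (nat_lit 0)) (xb (xa (xb T0.l12 T0.l12) T0.l12) (xa (xb T0.l12 T0.l12) T0.l12))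
  (TrL.c (I.pos (nat_lit 0) (nat_lit 0)) (xb (xa (xb T0.l35 T0.l13) T0.l13) (xa (xb T0.l13 T0.l13) (xb T0.l13 T0.l13)))
  TrL.n)) (by decide +kernel)
def rc0_3_0_lll : Tr := (xb (xa (xb (xb (xb (xs T0.l14 (xa (xb (xs T0.l14 (xa (xb (xs T0.l14 (xa (xb (xs T0.l14 (xa (xb (xs T0.l14 (xa (xb (xs T0.l14 (xa (xb (xs T0.l14 (xa (xb (xs T0.l14 (xa (xb (xs T0.l14 (xa T0.l14 T0.l14)) T0.l14) T0.l14)) T0.l14) T0.l14)) T0.l14) T0.l14)) T0.l14) T0.l14)) T0.l14) T0.l14)) T0.l14) T0.l14)) T0.l14) T0.l14)) T0.l14) T0.l14)) (xs T0.l14 (xa (xb (xs T0.l14 (xa (xb (xs T0.l14 (xa (xb (xs T0.l14 (xa (xb (xs T0.l14 (xa (xb (xs T0.l14 (xa (xb (xs T0.l14 (xa (xb (xs T0.l14 (xa (xb (xs T0.l14 (xa T0.l14 T0.l14)) T0.l14) T0.l14)) T0.l14) T0.l14)) T0.l14) T0.l14)) T0.l14) T0.l14)) T0.l14) T0.l14)) T0.l14) T0.l14)) T0.l14) T0.l14))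 T0.l14) T0.l14))) (xb (xs T0.l14 (xa (xb (xs T0.l14 (xa (xb (xs T0.l14 (xa (xb (xs T0.l14 (xa (xb (xs T0.l14 (xa (xb (xs T0.l14 (xa (xb (xs T0.l14 (xa (xb (xs T0.l14 (xa (xb (xs T0.l14 (xa T0.l14 T0.l14)) T0.l14) T0.l14)) T0.l14) T0.l14)) T0.l14) T0.l14)) T0.l14) T0.l14)) T0.l14) T0.l14)) T0.l14) T0.l14)) T0.l14) T0.l14)) T0.l14) T0.l14)) T0.l14)) (xa T0.l14 T0.l14)) (xb T0.l14 T0.l14)) (xa (xb (xa T0.l14 T0.l14) (xa (xb T0.l14 T0.l14) T0.l14)) (xb T0.l14 T0.l14)))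
theorem qc0_3_0_lll : chkTr (tg true true false RT.r2) b0_3 t0 rc0_3_0_lll
  (upd lo Co.a (upd lo Co.b (upd lo Co.a (rc sI cl4 cl4 cl4 b0_3 (I.pos (nat_lit 0) (nat_lit 0)))))) = true := by decide +kernel
def rc0_3_0_llr : Tr := (xb (xa (xb T0.l14 T0.l14) (xb T0.l14 T0.l14)) (xa (xb T0.l14 T0.l14) (xb T0.l14 T0.l14)))
theorem qc0_3_0_llr : chkTr (tg true true false RT.r2) b0_3 t0 rc0_3_0_llr
  (upd hi Co.a (upd lo Co.b (upd lo Co.a (rc sI cl4 cl4 cl4 b0_3 (I.pos (nat_lit 0) (nat_lit 0)))))) = true := by decide +kernel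
theorem qc0_3_0_ll : chkTr (tg true true false RT.r2) b0_3 t0 (Tr.N Co.a rc0_3_0_lll rc0_3_0_llr)
  (upd lo Co.b (upd lo Co.a (rc sI cl4 cl4 cl4 b0_3 (I.pos (nat_lit 0) (nat_lit 0))))) = true := tr_split qc0_3_0_lll qc0_3_0_llr
def rc0_3_0_lr : Tr := (xa (xb (xa (xb (xa (xb T0.l14 T0.l14) (xb T0.l14 T0.l14)) (xa (xb (xc T0.l14 T0.l14) (xc T0.l14 T0.l14)) (xb T0.l14 T0.l14))) (xb (xa T0.l14 T0.l14) (xa (xb T0.l14 T0.l14) T0.l14))) (xa (xb (xa (xb (xc T0.l14 T0.l14) (xc T0.l14 T0.l14)) (xb T0.l14 T0.l14)) (xb (xa (xc T0.l14 T0.l14) (xc T0.l14 T0.l14)) (xa (xc T0.l14 T0.l14) (xc T0.l14 T0.l14)))) (xb (xa (xb T0.l14 T0.l14) (xb T0.l14 T0.l14)) (xa (xb T0.l14 (xc T0.l14 T0.l14)) (xb T0.l14 T0.l14))))) (xb (xa (xb T0.l14 (xa T0.l14 T0.l14)) (xb T0.l14 T0.l14)) (xa (xb (xa (xb T0.l14 T0.l14) T0.l14) (xa (xb T0.l14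 T0.l14) (xb T0.l14 T0.l14))) (xb (xa T0.l14 T0.l14) (xa (xb T0.l14 T0.l14) (xb T0.l14 T0.l14))))))
theorem qc0_3_0_lr : chkTr (tg true true false RT.r2) b0_3 t0 rc0_3_0_lr
  (upd hi Co.b (upd lo Co.a (rc sI cl4 cl4 cl4 b0_3 (I.pos (nat_lit 0) (nat_lit 0))))) = true := by decide +kernel
theorem qc0_3_0_l : chkTr (tg true true false RT.r2) b0_3 t0 (Tr.N Co.b (Tr.N Co.a rc0_3_0_lll rc0_3_0_llr) rc0_3_0_lr)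
  (upd lo Co.a (rc sI cl4 cl4 cl4 b0_3 (I.pos (nat_lit 0) (nat_lit 0)))) = true := tr_split qc0_3_0_ll qc0_3_0_lr
def rc0_3_0_r : Tr := (xb (xa (xb (xa (xb T0.l14 T0.l14) (xb T0.l14 T0.l14)) (xa (xb T0.l14 T0.l14) (xb T0.l14 T0.l14))) (xb (xa (xb (xa T0.l14 T0.l14) T0.l14) (xb (xb T0.l14 T0.l14) (xb T0.l14 T0.l14))) (xa (xb T0.l14 (xa T0.l14 T0.l14)) (xb (xb T0.l14 T0.l14) (xb T0.l14 T0.l14))))) (xa (xb (xa (xb T0.l14 T0.l14) (xb T0.l14 (xa T0.l14 T0.l14))) (xa (xb (xa T0.l14 T0.l14) (xa (xb T0.l14 T0.l14) (xb T0.l14 T0.l14))) (xb (xa T0.l14 T0.l14) (xa (xb T0.l14 T0.l14) (xb T0.l14 (xc T0.l14 T0.l14)))))) (xb (xa (xb (xa T0.l14 T0.l14) (xa T0.l14 T0.l14)) (xb (xa T0.l14 T0.l14) (xa T0.l14 T0.l0))) (xa (xb (xa T0.l14 T0.l14) (xa (xb T0.l14 (xc T0.l14 T0.l14)) (xb T0.l14 T0.l0))) (xb (xa T0.l0 T0.l0) (xa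 T0.l0 T0.l0))))))
theorem qc0_3_0_r : chkTr (tg true true false RT.r2) b0_3 t0 rc0_3_0_r
  (upd hi Co.a (rc sI cl4 cl4 cl4 b0_3 (I.pos (nat_lit 0) (nat_lit 0)))) = true := by decide +kernel
theorem qc0_3_0_ : chkTr (tg true true false RT.r2) b0_3 t0 (Tr.N Co.a (Tr.N Co.b (Tr.N Co.a rc0_3_0_lll rc0_3_0_llr) rc0_3_0_lr) rc0_3_0_r)
  (rc sI cl4 cl4 cl4 b0_3 (I.pos (nat_lit 0) (nat_lit 0))) = true := tr_split qc0_3_0_l qc0_3_0_r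
theorem c0_3_0 : chkTag sI cl4 cl4 cl4 t0 b0_3 (tg true true false RT.r2) (I.pos (nat_lit 0) (nat_lit 0))
  (Tr.N Co.a (Tr.N Co.b (Tr.N Co.a rc0_3_0_lll rc0_3_0_llr) rc0_3_0_lr) rc0_3_0_r) = true := tag_mk (by decide +kernel) qc0_3_0_
theorem c0_3_1 : chkTag sI cl4 cl4 cl4 t0 b0_3 (tg true false false RT.r3) (I.pos (nat_lit 0) (nat_lit 0))
  (xa (xb (xa (xb T0.l15 T0.l15) (xb T0.l15 T0.l15)) (xa (xb (xc T0.l15 T0.l15) (xc T0.l15 T0.l15)) (xb (xc T0.l15 T0.l15) (xc T0.l15 T0.l15)))) (xb (xa (xb T0.l15 T0.l15) (xb (xc T0.l15 T0.l15) T0.l15)) (xa (xb (xc T0.l15 T0.l15) (xc (xa T0.l15 T0.l15) (xa T0.l15 T0.l15))) (xb T0.l15 (xc (xa T0.l15 T0.l15) (xa T0.l15 T0.l15)))))) = true := by decide +kernel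
theorem c0_3_2 : chkTag sI cl4 cl4 cl4 t0 b0_3 (tg true true true RT.r4) (I.pos (nat_lit 0) (nat_lit 0))
  (xa (xb (xc T0.l16 (xa T0.l16 T0.l16)) (xc (xa T0.l16 T0.l2) (xa (xb T0.l16 T0.l16) T0.l2))) (xb (xc (xa T0.l2 (xb T0.l2 T0.l2)) (xa T0.l2 (xb T0.l2 T0.l2))) T0.l2)) = true := by decide +kernel
theorem c0_3_3 : chkTag sI cl4 cl4 cl4 t0 b0_3 (tg false false false RT.r3) (I.pos (nat_lit 0) (nat_lit 0))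
  (xa (xb (xa T0.l17 (xb T0.l17 (xc T0.l3 T0.l3))) (xa (xb T0.l17 (xc T0.l17 T0.l17)) (xb T0.l3 T0.l3))) (xb (xa (xb (xc T0.l17 T0.l17) (xc (xb T0.l3 T0.l3) (xb T0.l3 T0.l3))) (xb (xc (xa (xb T0.l17 T0.l17) (xb T0.l17 (xc T0.l3 T0.l3))) (xa T0.l17 (xb T0.l17 (xc T0.l3 T0.l3)))) (xc (xa (xb T0.l3 T0.l3) (xb T0.l3 T0.l3)) (xa (xb T0.l3 T0.l3) (xb T0.l3 T0.l3))))) (xa (xb (xc T0.l3 T0.l3) (xb T0.l3 T0.l3)) (xb (xc (xb T0.l3 T0.l3) (xb T0.l3 T0.l3)) (xc (xb T0.l3 T0.l3) (xb T0.l3 (xa T0.l3 T0.l3))))))) = true := by decide +kernel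
theorem c0_3_4 : chkTag sI cl4 cl4 cl4 t0 b0_3 (tg false true false RT.r4) (I.pos (nat_lit 0) (nat_lit 0))
  (xa (xb (xc T0.l18 (xa T0.l18 T0.l18)) (xc (xa T0.l18 T0.l4) (xa (xb T0.l18 T0.l18) T0.l4))) (xb (xc (xa T0.l4 (xb T0.l4 T0.l4)) (xa T0.l4 (xb T0.l4 T0.l4))) T0.l4)) = true := by decide +kernel
theorem c0_3_5 : chkTag sI cl4 cl4 cl4 t0 b0_3 (tg false false true RT.r5) (I.pos (nat_lit 0) (nat_lit 0))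
  (xa (xb (xa (xb T0.l19 T0.l19) (xb T0.l19 T0.l19)) (xa (xb (xc T0.l19 T0.l19) (xc T0.l19 T0.l19)) (xb (xc T0.l19 T0.l19) (xc T0.l19 T0.l19)))) (xb (xa (xb T0.l19 T0.l19) (xb (xc T0.l19 T0.l19) T0.l19)) (xa (xb (xc T0.l19 T0.l19) (xc (xa T0.l19 T0.l19) (xa T0.l19 T0.l19))) (xb T0.l19 (xc (xa T0.l19 T0.l19) (xa T0.l19 T0.l19)))))) = true := by decide +kernel
theorem bx0_3 : BoxOK sI cl4 cl4 cl4 t0 t0 b0_3 :=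
  box_mk' [(tg true true false RT.r2), (tg true false false RT.r3), (tg true true true RT.r4), (tg false false false RT.r3), (tg false true false RT.r4), (tg false false true RT.r5)] rfl (allL_c (ex_mk c0_3_0) (allL_c (ex_mk c0_3_1) (allL_c (ex_mk c0_3_2) (allL_c (ex_mk c0_3_3) (allL_c (ex_mk c0_3_4) (allL_c (ex_mk c0_3_5) allL_n))))))
theorem bx0_4 : BoxOK sI cl4 cl4 cl4 t0 t0 b0_4 :=
  box_mk (TrL.c (I.pos (nat_lit 0) (nat_lit 0)) (xb (xa (xb (xa (xb (xa T0.l20 T0.l20) (xa T0.l20 T0.l20)) (xb (xa T0.l20 T0.l20) T0.l20)) (xa (xb (xa T0.l20 T0.l20) (xa T0.l20 T0.l20)) (xb T0.l20 T0.l20))) (xb (xa (xb T0.l6 T0.l20) (xb T0.l6 T0.l6)) (xa (xb T0.l20 T0.l20) (xb T0.l20 T0.l20)))) (xa (xb (xa (xb (xa T0.l20 T0.l20) (xa T0.l20 T0.l20)) (xb T0.l20 T0.l20)) (xa (xb (xa T0.l20 T0.l20) (xa T0.l20 T0.l20)) (xb T0.l20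 (xa T0.l20 T0.l20)))) (xb (xa T0.l20 T0.l20) (xa (xb T0.l20 T0.l20) (xb T0.l20 T0.l20)))))
  (TrL.c (I.pos (nat_lit 0) (nat_lit 0)) (xb (xa T0.l12 (xb T0.l7 T0.l12)) (xa T0.l12 T0.l12))
  (TrL.c (I.pos (nat_lit 0) (nat_lit 0)) (xb (xa T0.l35 (xb T0.l13 T0.l13)) (xa T0.l13 T0.l35))
  (TrL.c (I.pos (nat_lit 0) (nat_lit 0)) (xb (xa (xb T0.l21 T0.l21) (xb T0.l21 T0.l21)) (xa (xb T0.l21 T0.l21) (xb T0.l21 T0.l21)))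
  (TrL.c (I.pos (nat_lit 0) (nat_lit 0)) (xb (xa T0.l22 (xb T0.l22 T0.l22)) (xa T0.l22 T0.l22))
  (TrL.c (I.pos (nat_lit 0) (nat_lit 0)) (xb (xa T0.l23 (xb T0.l23 T0.l23)) (xa T0.l23 (xb T0.l23 T0.l23)))
  TrL.n)))))) (by decide +kernel)
theorem bx0_5 : BoxOK sI cl4 cl4 cl4 t0 t0 b0_5 :=
  box_mk (TrL.c (I.pos (nat_lit 0) (nat_lit 0)) (xb (xa (xb T0.l24 T0.l24) (xb T0.l24 T0.l24)) (xa (xb T0.l24 T0.l24) (xb T0.l24 T0.l7)))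
  (TrL.c (I.pos (nat_lit 0) (nat_lit 0)) (xb (xa (xc (xb T0.l25 T0.l25) T0.l25) (xb T0.l8 T0.l25)) (xa (xc (xb T0.l25 T0.l25) (xb T0.l25 T0.l25)) (xb T0.l25 T0.l25)))
  TrL.n)) (by decide +kernel)
theorem bx0_6 : BoxOK sI cl4 cl4 cl4 t0 t0 b0_6 :=
  box_mk (TrL.c (I.pos (nat_lit 0) (nat_lit 0)) (xb (xa T0.l0 T0.l0) (xa (xb T0.l0 T0.l0) T0.l0))
  (TrL.c (I.pos (nat_lit 0) (nat_lit 0)) (xb (xa (xb (xa T0.l1 T0.l1) T0.l1) T0.l1) (xa T0.l1 T0.l1))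
  (TrL.c (I.pos (nat_lit 0) (nat_lit 0)) T0.l2
  (TrL.c (I.pos (nat_lit 0) (nat_lit 0)) (xb (xa (xb (xc (xa T0.l3 T0.l3) T0.l3) T0.l3) (xb T0.l3 T0.l3)) T0.l3)
  (TrL.c (I.pos (nat_lit 0) (nat_lit 0)) (xa (xc T0.l4 T0.l4) T0.l4)
  (TrL.c (I.pos (nat_lit 0) (nat_lit 0)) (xb (xa (xb (xa T0.l5 T0.l5) T0.l5) T0.l5) (xa T0.l5 T0.l5))
  TrL.n)))))) (by decide +kernel)
theorem bx0_7 : BoxOK sI cl4 cl4 cl4 t0 t0 b0_7 :=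
  box_mk (TrL.c (I.pos (nat_lit 0) (nat_lit 0)) (xb (xa T0.l6 T0.l6) (xa (xb T0.l6 (xa T0.l6 T0.l6)) (xb T0.l6 (xa T0.l6 T0.l14))))
  (TrL.c (I.pos (nat_lit 0) (nat_lit 0)) (xb T0.l7 (xa T0.l7 T0.l15))
  (TrL.c (I.pos (nat_lit 0) (nat_lit 0)) (xb T0.l8 T0.l8)
  (TrL.c (I.pos (nat_lit 0) (nat_lit 0)) (xb T0.l9 (xa T0.l9 T0.l17))
  (TrL.c (I.pos (nat_lit 0) (nat_lit 0)) (xb T0.l10 T0.l10)
  (TrL.c (I.pos (nat_lit 0) (nat_lit 0)) (xb T0.l11 (xa T0.l11 T0.l19))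
  TrL.n)))))) (by decide +kernel)
theorem bx0_8 : BoxOK sI cl4 cl4 cl4 t0 t0 b0_8 :=
  box_mk (TrL.c (I.pos (nat_lit 0) (nat_lit 0)) (xb T0.l12 T0.l12)
  (TrL.c (I.pos (nat_lit 0) (nat_lit 0)) (xb T0.l13 T0.l13)
  TrL.n)) (by decide +kernel)
theorem bx0_9 : BoxOK sI cl4 cl4 cl4 t0 t0 b0_9 :=
  box_mk (TrL.c (I.pos (nat_lit 0) (nat_lit 0)) (xb (xa (xb (xa T0.l6 T0.l14) T0.l14) (xb (xa T0.l14 T0.l14) (xa T0.l14 T0.l14))) (xa (xb T0.l14 T0.l14) (xb T0.l14 T0.l14)))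
  (TrL.c (I.pos (nat_lit 0) (nat_lit 0)) (xb (xa T0.l15 T0.l15) T0.l15)
  (TrL.c (I.pos (nat_lit 0) (nat_lit 0)) (xb (xa T0.l16 T0.l16) T0.l16)
  (TrL.c (I.pos (nat_lit 0) (nat_lit 0)) (xb (xa T0.l17 (xb T0.l17 T0.l17)) (xa T0.l17 T0.l17))
  (TrL.c (I.pos (nat_lit 0) (nat_lit 0)) (xb (xa T0.l18 T0.l18) T0.l18)
  (TrL.c (I.pos (nat_lit 0) (nat_lit 0)) (xb (xa T0.l19 (xb T0.l19 T0.l19)) T0.l19)
  TrL.n)))))) (by decide +kernel)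
theorem bx0_10 : BoxOK sI cl4 cl4 cl4 t0 t0 b0_10 :=
  box_mk (TrL.c (I.pos (nat_lit 0) (nat_lit 0)) (xb (xa (xb T0.l20 T0.l20) T0.l20) (xa T0.l20 (xb T0.l20 (xa T0.l20 T0.l20))))
  (TrL.c (I.pos (nat_lit 0) (nat_lit 0)) (xb T0.l34 T0.l12)
  (TrL.c (I.pos (nat_lit 0) (nat_lit 0)) (xb T0.l35 T0.l13)
  (TrL.c (I.pos (nat_lit 0) (nat_lit 0)) (xb T0.l21 T0.l21)
  (TrL.c (I.pos (nat_lit 0) (nat_lit 0)) (xb T0.l22 T0.l22)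
  (TrL.c (I.pos (nat_lit 0) (nat_lit 0)) (xb T0.l23 T0.l23)
  TrL.n)))))) (by decide +kernel)
theorem bx0_11 : BoxOK sI cl4 cl4 cl4 t0 t0 b0_11 :=
  box_mk (TrL.c (I.pos (nat_lit 0) (nat_lit 0)) (xb (xa T0.l24 T0.l24) T0.l24)
  (TrL.c (I.pos (nat_lit 0) (nat_lit 0)) (xb T0.l8 T0.l25)
  TrL.n)) (by decide +kernel)
theorem bx0_12 : BoxOK sI cl4 cl4 cl4 t0 t0 b0_12 :=
  box_mk (TrL.c (I.pos (nat_lit 0) (nat_lit 0)) (xa (xb T0.l6 (xa T0.l6 (xb T0.l6 T0.l26))) (xb (xa T0.l6 T0.l6) T0.l14))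
  (TrL.c (I.pos (nat_lit 0) (nat_lit 0)) (xa (xb T0.l7 T0.l15) T0.l15)
  (TrL.c (I.pos (nat_lit 0) (nat_lit 0)) (xb (xa T0.l8 T0.l16) (xa T0.l8 T0.l16))
  (TrL.c (I.pos (nat_lit 0) (nat_lit 0)) (xb (xa T0.l29 T0.l29) (xa T0.l29 T0.l17))
  (TrL.c (I.pos (nat_lit 0) (nat_lit 0)) (xb (xa T0.l10 T0.l18) (xa T0.l10 T0.l18))
  (TrL.c (I.pos (nat_lit 0) (nat_lit 0)) (xa (xb T0.l11 T0.l19) T0.l19)
  TrL.n)))))) (by decide +kernel)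
theorem bx0_13 : BoxOK sI cl4 cl4 cl4 t0 t0 b0_13 :=
  box_mk (TrL.c (I.pos (nat_lit 0) (nat_lit 0)) T0.l34
  (TrL.c (I.pos (nat_lit 0) (nat_lit 0)) (xb T0.l22 T0.l13)
  TrL.n)) (by decide +kernel)
def rc0_14_0_ll : Tr := (xb (xa (xb (xa (xb (xb (xs T0.l14 (xa T0.l3 T0.l3)) (xs T0.l14 (xa T0.l14 T0.l3))) (xb (xs T0.l14 (xa T0.l14 T0.l3)) (xs T0.l14 (xa T0.l14 T0.l3)))) (xb T0.l3 T0.l3)) (xa (xb (xb (xs T0.l14 (xa T0.l14 T0.l3)) (xs T0.l14 (xa T0.l14 T0.l3))) (xb (xs T0.l14 (xa T0.l14 T0.l3)) (xs T0.l14 (xa T0.l14 T0.l3)))) (xb (xb T0.l3 T0.l3) (xb T0.l3 T0.l3)))) (xb (xb T0.l3 T0.l3) (xb (xa T0.l3 T0.l3) (xa T0.l3 T0.l3)))) (xa (xb (xa (xb (xb (xs T0.l14 (xa T0.l14 T0.l14)) (xs T0.l14 (xa T0.l14 T0.l14))) (xb (xs T0.l14 (xa T0.l14 T0.l14)) (xs T0.l0 (xa T0.l14 T0.l14)))) (xb (xb (xs T0.l3 T0.l3) (xs T0.l3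 T0.l3)) (xb (xs (xa T0.l14 T0.l14) (xa (xb T0.l14 T0.l14) T0.l3)) (xs T0.l0 (xa (xs T0.l14 T0.l14) T0.l3))))) (xa (xc (xb T0.l14 T0.l14) (xb (xs T0.l0 (xb (xa T0.l14 T0.l14) T0.l0)) (xs T0.l0 T0.l0))) (xb (xs T0.l0 (xb T0.l0 T0.l0)) T0.l0))) (xb (xb (xa (xb T0.l3 T0.l3) (xb T0.l3 (xs T0.l3 (xa T0.l3 T0.l3)))) (xa (xs (xb T0.l0 T0.l0) (xb (xa T0.l3 T0.l3) (xa T0.l3 T0.l3))) (xs T0.l0 (xb (xa T0.l3 T0.l3) T0.l0)))) (xa (xb (xs T0.l0 (xb T0.l0 T0.l0)) T0.l0) (xb (xs T0.l0 T0.l0) T0.l0)))))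
theorem qc0_14_0_ll : chkTr (tg true true false RT.r2) b0_14 t0 rc0_14_0_ll
  (upd lo Co.a (upd lo Co.b (rc sI cl4 cl4 cl4 b0_14 (I.pos (nat_lit 0) (nat_lit 0))))) = true := by decide +kernel
def rc0_14_0_lr : Tr := (xb (xa (xb (xb T0.l3 T0.l3) (xb (xa T0.l3 T0.l3) (xa T0.l3 T0.l3))) (xb (xb T0.l3 (xa T0.l3 T0.l3)) (xb (xa T0.l3 T0.l3) (xa (xb T0.l3 T0.l3) (xb T0.l3 T0.l3))))) (xa (xb (xb (xa (xb T0.l3 (xs T0.l0 (xa T0.l3 T0.l3))) (xs (xb T0.l3 T0.l0) (xb T0.l3 (xa T0.l3 T0.l3)))) (xa (xs T0.l0 (xb (xa T0.l3 T0.l3) T0.l0)) (xs T0.l0 (xb T0.l0 T0.l0)))) (xb (xa T0.l0 T0.l0) T0.l0)) (xb (xb (xa (xs T0.l0 (xb (xa T0.l3 T0.l3) T0.l0)) (xs T0.l0 (xb (xa T0.l3 T0.l3) T0.l0))) (xa (xs T0.l0 T0.l0) T0.l0)) (xb (xa T0.l0 T0.l0) T0.l0))))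
theorem qc0_14_0_lr : chkTr (tg true true false RT.r2) b0_14 t0 rc0_14_0_lr
  (upd hi Co.a (upd lo Co.b (rc sI cl4 cl4 cl4 b0_14 (I.pos (nat_lit 0) (nat_lit 0))))) = true := by decide +kernel
theorem qc0_14_0_l : chkTr (tg true true false RT.r2) b0_14 t0 (Tr.N Co.a rc0_14_0_ll rc0_14_0_lr)
  (upd lo Co.b (rc sI cl4 cl4 cl4 b0_14 (I.pos (nat_lit 0) (nat_lit 0)))) = true := tr_split qc0_14_0_ll qc0_14_0_lr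
def rc0_14_0_r : Tr := (xa (xb (xa (xb (xa (xc T0.l0 T0.l0) T0.l0) (xa (xc T0.l0 T0.l0) T0.l0)) (xb (xa T0.l0 T0.l0) (xa T0.l0 T0.l0))) (xa (xb (xa (xb T0.l0 T0.l0) (xb T0.l0 T0.l0)) (xa (xb T0.l0 T0.l0) (xb T0.l0 T0.l0))) (xb (xa T0.l0 T0.l0) (xa T0.l0 T0.l0)))) (xb (xa (xb T0.l0 T0.l0) (xb T0.l0 T0.l0)) (xa (xb (xa T0.l0 T0.l0) (xa T0.l0 T0.l0)) (xb (xa T0.l0 T0.l0) (xa T0.l0 T0.l0)))))
theorem qc0_14_0_r : chkTr (tg true true false RT.r2) b0_14 t0 rc0_14_0_r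
  (upd hi Co.b (rc sI cl4 cl4 cl4 b0_14 (I.pos (nat_lit 0) (nat_lit 0)))) = true := by decide +kernel
theorem qc0_14_0_ : chkTr (tg true true false RT.r2) b0_14 t0 (Tr.N Co.b (Tr.N Co.a rc0_14_0_ll rc0_14_0_lr) rc0_14_0_r)
  (rc sI cl4 cl4 cl4 b0_14 (I.pos (nat_lit 0) (nat_lit 0))) = true := tr_split qc0_14_0_l qc0_14_0_r
theorem c0_14_0 : chkTag sI cl4 cl4 cl4 t0 b0_14 (tg true true false RT.r2) (I.pos (nat_lit 0) (nat_lit 0))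
  (Tr.N Co.b (Tr.N Co.a rc0_14_0_ll rc0_14_0_lr) rc0_14_0_r) = true := tag_mk (by decide +kernel) qc0_14_0_
theorem c0_14_1 : chkTag sI cl4 cl4 cl4 t0 b0_14 (tg true false false RT.r3) (I.pos (nat_lit 0) (nat_lit 0))
  (xb (xa (xb T0.l1 (xa T0.l1 T0.l1)) (xb (xa T0.l1 T0.l1) (xa T0.l1 T0.l1))) (xa (xb (xa T0.l1 T0.l1) (xa T0.l1 T0.l1)) (xb (xa T0.l1 T0.l1) (xa (xc T0.l1 T0.l1) (xc T0.l1 T0.l1))))) = true := by decide +kernel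
theorem c0_14_2 : chkTag sI cl4 cl4 cl4 t0 b0_14 (tg true true true RT.r4) (I.pos (nat_lit 0) (nat_lit 0))
  (xb (xa (xc T0.l2 T0.l2) (xc T0.l5 T0.l2)) (xa (xc T0.l2 T0.l2) (xc (xb T0.l2 T0.l2) T0.l2))) = true := by decide +kernel
theorem c0_14_3 : chkTag sI cl4 cl4 cl4 t0 b0_14 (tg false false false RT.r3) (I.pos (nat_lit 0) (nat_lit 0))
  (xb (xa (xb (xa (xc T0.l3 T0.l3) (xc T0.l3 T0.l3)) (xa T0.l3 T0.l3)) (xb (xa (xc T0.l3 T0.l3) (xc T0.l3 T0.l3)) (xa T0.l3 T0.l3))) (xa (xb T0.l3 T0.l3) (xb T0.l3 (xa T0.l3 T0.l3)))) = true := by decide +kernel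
theorem c0_14_4 : chkTag sI cl4 cl4 cl4 t0 b0_14 (tg false true false RT.r4) (I.pos (nat_lit 0) (nat_lit 0))
  (xb (xa (xc T0.l4 T0.l4) (xc T0.l1 T0.l4)) (xa (xc T0.l4 T0.l4) (xc (xb T0.l4 T0.l4) T0.l4))) = true := by decide +kernel
theorem c0_14_5 : chkTag sI cl4 cl4 cl4 t0 b0_14 (tg false false true RT.r5) (I.pos (nat_lit 0) (nat_lit 0))
  (xb (xa (xb T0.l5 (xa T0.l5 T0.l5)) (xb (xa T0.l5 T0.l5) (xa T0.l5 T0.l5))) (xa (xb (xa T0.l5 T0.l5) (xa T0.l5 T0.l5)) (xb (xa T0.l5 T0.l5) (xa (xc T0.l5 T0.l5) (xc T0.l5 T0.l5))))) = true := by decide +kernel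
theorem bx0_14 : BoxOK sI cl4 cl4 cl4 t0 t0 b0_14 :=
  box_mk' [(tg true true false RT.r2), (tg true false false RT.r3), (tg true true true RT.r4), (tg false false false RT.r3), (tg false true false RT.r4), (tg false false true RT.r5)] rfl (allL_c (ex_mk c0_14_0) (allL_c (ex_mk c0_14_1) (allL_c (ex_mk c0_14_2) (allL_c (ex_mk c0_14_3) (allL_c (ex_mk c0_14_4) (allL_c (ex_mk c0_14_5) allL_n))))))
theorem bx0_15 : BoxOK sI cl4 cl4 cl4 t0 t0 b0_15 :=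
  box_mk (TrL.c (I.pos (nat_lit 0) (nat_lit 0)) (xb (xa (xb (xa T0.l6 T0.l6) (xa T0.l6 T0.l6)) (xb (xa T0.l6 T0.l6) T0.l6)) (xa (xb (xa T0.l6 T0.l6) (xa T0.l6 T0.l6)) (xb T0.l6 (xa T0.l6 T0.l6))))
  (TrL.c (I.pos (nat_lit 0) (nat_lit 0)) (xb (xa T0.l7 T0.l7) (xa T0.l24 T0.l7))
  (TrL.c (I.pos (nat_lit 0) (nat_lit 0)) (xb (xa T0.l8 T0.l25) (xa T0.l8 T0.l8))
  (TrL.c (I.pos (nat_lit 0) (nat_lit 0)) (xb (xa T0.l9 (xb T0.l9 T0.l9)) (xa (xb T0.l9 T0.l9) (xb T0.l9 T0.l9)))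
  (TrL.c (I.pos (nat_lit 0) (nat_lit 0)) (xb (xa T0.l10 T0.l10) (xa T0.l10 T0.l10))
  (TrL.c (I.pos (nat_lit 0) (nat_lit 0)) (xb (xa T0.l11 T0.l11) (xa T0.l11 T0.l11))
  TrL.n)))))) (by decide +kernel)
theorem bx0_16 : BoxOK sI cl4 cl4 cl4 t0 t0 b0_16 :=
  box_mk (TrL.c (I.pos (nat_lit 0) (nat_lit 0)) T0.l12
  (TrL.c (I.pos (nat_lit 0) (nat_lit 0)) T0.l13
  TrL.n)) (by decide +kernel)
theorem bx0_17 : BoxOK sI cl4 cl4 cl4 t0 t0 b0_17 :=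
  box_mk (TrL.c (I.pos (nat_lit 0) (nat_lit 0)) (xa (xb (xa (xb (xb T0.l14 T0.l14) T0.l14) (xb (xa T0.l14 T0.l14) T0.l14)) (xa (xb T0.l14 T0.l14) (xb T0.l14 T0.l14))) (xb (xa (xb (xb T0.l14 T0.l14) T0.l14) (xb (xb T0.l14 T0.l14) (xb T0.l14 T0.l14))) (xa (xb T0.l14 T0.l0) (xb (xb T0.l14 T0.l14) T0.l0))))
  (TrL.c (I.pos (nat_lit 0) (nat_lit 0)) (xa (xb T0.l15 T0.l15) (xb T0.l1 T0.l15))
  (TrL.c (I.pos (nat_lit 0) (nat_lit 0)) (xa T0.l16 T0.l16)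
  (TrL.c (I.pos (nat_lit 0) (nat_lit 0)) (xa (xb T0.l17 T0.l17) (xb (xa T0.l17 T0.l17) T0.l17))
  (TrL.c (I.pos (nat_lit 0) (nat_lit 0)) (xa T0.l18 T0.l18)
  (TrL.c (I.pos (nat_lit 0) (nat_lit 0)) (xa (xb T0.l19 T0.l19) (xb T0.l5 T0.l5))
  TrL.n)))))) (by decide +kernel)
theorem bx0_18 : BoxOK sI cl4 cl4 cl4 t0 t0 b0_18 :=
  box_mk (TrL.c (I.pos (nat_lit 0) (nat_lit 0)) (xb (xa (xb (xa (xb T0.l20 T0.l20) T0.l20) (xa (xb T0.l20 T0.l20) T0.l20)) (xb T0.l20 T0.l20)) (xa (xb (xa (xb T0.l20 T0.l20) T0.l20) (xa (xb T0.l20 T0.l20) T0.l20)) (xb T0.l20 T0.l20)))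
  (TrL.c (I.pos (nat_lit 0) (nat_lit 0)) T0.l12
  (TrL.c (I.pos (nat_lit 0) (nat_lit 0)) T0.l35
  (TrL.c (I.pos (nat_lit 0) (nat_lit 0)) T0.l21
  (TrL.c (I.pos (nat_lit 0) (nat_lit 0)) T0.l22
  (TrL.c (I.pos (nat_lit 0) (nat_lit 0)) T0.l23
  TrL.n)))))) (by decide +kernel)
theorem bx0_19 : BoxOK sI cl4 cl4 cl4 t0 t0 b0_19 :=
  box_mk (TrL.c (I.pos (nat_lit 0) (nat_lit 0)) (xb (xa T0.l24 T0.l24) (xa T0.l24 T0.l24))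
  (TrL.c (I.pos (nat_lit 0) (nat_lit 0)) (xb (xa T0.l8 T0.l25) (xa T0.l25 T0.l25))
  TrL.n)) (by decide +kernel)
theorem bx0_20 : BoxOK sI cl4 cl4 cl4 t0 t0 b0_20 :=
  box_mk (TrL.c (I.pos (nat_lit 0) (nat_lit 0)) (xa (xb T0.l0 T0.l0) (xb (xa T0.l3 T0.l3) (xa T0.l0 (xb T0.l3 T0.l3))))
  (TrL.c (I.pos (nat_lit 0) (nat_lit 0)) (xa (xb (xa (xb T0.l1 T0.l1) T0.l1) T0.l1) (xb (xa T0.l1 (xb T0.l1 T0.l1)) (xa T0.l1 T0.l1)))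
  (TrL.c (I.pos (nat_lit 0) (nat_lit 0)) (xa (xc (xb T0.l2 T0.l2) T0.l2) T0.l5)
  (TrL.c (I.pos (nat_lit 0) (nat_lit 0)) (xa (xb (xa (xb (xc T0.l3 T0.l3) T0.l3) (xb (xc (xa T0.l3 T0.l3) (xa T0.l3 T0.l3)) T0.l3)) T0.l3) (xb (xa (xb T0.l14 T0.l3) (xb T0.l14 (xc T0.l3 T0.l3))) (xa T0.l3 (xb T0.l3 (xc T0.l3 T0.l3)))))
  (TrL.c (I.pos (nat_lit 0) (nat_lit 0)) (xa (xc (xb (xa T0.l1 T0.l4) T0.l1) T0.l4) T0.l1)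
  (TrL.c (I.pos (nat_lit 0) (nat_lit 0)) (xa (xb (xa (xb T0.l5 T0.l5) T0.l5) T0.l5) (xb (xa T0.l5 (xb T0.l5 T0.l5)) (xa T0.l5 T0.l5)))
  TrL.n)))))) (by decide +kernel)
theorem bx0_21 : BoxOK sI cl4 cl4 cl4 t0 t0 b0_21 :=
  box_mk (TrL.c (I.pos (nat_lit 0) (nat_lit 0)) (xb (xa (xb T0.l6 T0.l6) (xb (xa T0.l14 T0.l14) T0.l14)) (xa (xb (xa T0.l6 T0.l14) T0.l14) T0.l14))
  (TrL.c (I.pos (nat_lit 0) (nat_lit 0)) (xb (xa T0.l15 T0.l15) T0.l15)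
  (TrL.c (I.pos (nat_lit 0) (nat_lit 0)) (xb (xa T0.l16 T0.l16) T0.l16)
  (TrL.c (I.pos (nat_lit 0) (nat_lit 0)) (xb (xa (xb T0.l9 T0.l17) T0.l17) T0.l17)
  (TrL.c (I.pos (nat_lit 0) (nat_lit 0)) (xb (xa T0.l18 T0.l18) T0.l18)
  (TrL.c (I.pos (nat_lit 0) (nat_lit 0)) (xb (xa T0.l19 T0.l19) T0.l19)
  TrL.n)))))) (by decide +kernel)
theorem bx0_22 : BoxOK sI cl4 cl4 cl4 t0 t0 b0_22 :=
  box_mk (TrL.c (I.pos (nat_lit 0) (nat_lit 0)) (xb T0.l20 (xa (xa (xb T0.l20 (xb T0.l20 T0.l20)) T0.l20) (xb T0.l20 (xa T0.l20 T0.l20))))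
  (TrL.c (I.pos (nat_lit 0) (nat_lit 0)) (xb T0.l34 T0.l34)
  (TrL.c (I.pos (nat_lit 0) (nat_lit 0)) (xb T0.l35 T0.l22)
  (TrL.c (I.pos (nat_lit 0) (nat_lit 0)) (xb T0.l21 T0.l21)
  (TrL.c (I.pos (nat_lit 0) (nat_lit 0)) T0.l22
  (TrL.c (I.pos (nat_lit 0) (nat_lit 0)) (xb T0.l23 T0.l23)
  TrL.n)))))) (by decide +kernel)
theorem bx0_23 : BoxOK sI cl4 cl4 cl4 t0 t0 b0_23 :=
  box_mk (TrL.c (I.pos (nat_lit 0) (nat_lit 0)) (xa T0.l15 (xb T0.l24 T0.l24))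
  (TrL.c (I.pos (nat_lit 0) (nat_lit 0)) (xb (xa T0.l16 T0.l25) (xa T0.l16 T0.l25))
  TrL.n)) (by decide +kernel)
theorem bx0_24 : BoxOK sI cl4 cl4 cl4 t0 t0 b0_24 :=
  box_mk (TrL.c (I.pos (nat_lit 0) (nat_lit 0)) (xb (xa T0.l6 T0.l6) (xa (xb T0.l6 (xa T0.l6 T0.l6)) (xb T0.l6 (xa T0.l6 T0.l6))))
  (TrL.c (I.pos (nat_lit 0) (nat_lit 0)) (xb T0.l7 (xa T0.l7 T0.l15))
  (TrL.c (I.pos (nat_lit 0) (nat_lit 0)) (xb T0.l8 T0.l8)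
  (TrL.c (I.pos (nat_lit 0) (nat_lit 0)) (xb T0.l9 (xa T0.l9 T0.l17))
  (TrL.c (I.pos (nat_lit 0) (nat_lit 0)) (xb T0.l10 T0.l10)
  (TrL.c (I.pos (nat_lit 0) (nat_lit 0)) (xb T0.l11 (xa T0.l11 T0.l19))
  TrL.n)))))) (by decide +kernel)
theorem bx0_25 : BoxOK sI cl4 cl4 cl4 t0 t0 b0_25 :=
  box_mk (TrL.c (I.pos (nat_lit 0) (nat_lit 0)) (xb T0.l12 T0.l12)
  (TrL.c (I.pos (nat_lit 0) (nat_lit 0)) (xb T0.l13 T0.l13)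
  TrL.n)) (by decide +kernel)
theorem bx0_26 : BoxOK sI cl4 cl4 cl4 t0 t0 b0_26 :=
  box_mk (TrL.c (I.pos (nat_lit 0) (nat_lit 0)) T0.l0
  (TrL.c (I.pos (nat_lit 0) (nat_lit 0)) T0.l1
  (TrL.c (I.pos (nat_lit 0) (nat_lit 0)) T0.l2
  (TrL.c (I.pos (nat_lit 0) (nat_lit 0)) T0.l3
  (TrL.c (I.pos (nat_lit 0) (nat_lit 0)) T0.l4
  (TrL.c (I.pos (nat_lit 0) (nat_lit 0)) T0.l5
  TrL.n)))))) (by decide +kernel)
theorem bx0_27 : BoxOK sI cl4 cl4 cl4 t0 t0 b0_27 :=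
  box_mk (TrL.c (I.pos (nat_lit 0) (nat_lit 0)) T0.l6
  (TrL.c (I.pos (nat_lit 0) (nat_lit 0)) T0.l7
  (TrL.c (I.pos (nat_lit 0) (nat_lit 0)) T0.l8
  (TrL.c (I.pos (nat_lit 0) (nat_lit 0)) T0.l9
  (TrL.c (I.pos (nat_lit 0) (nat_lit 0)) T0.l10
  (TrL.c (I.pos (nat_lit 0) (nat_lit 0)) T0.l11
  TrL.n)))))) (by decide +kernel)
theorem bx0_28 : BoxOK sI cl4 cl4 cl4 t0 t0 b0_28 :=
  box_mk (TrL.c (I.pos (nat_lit 0) (nat_lit 0)) T0.l12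
  (TrL.c (I.pos (nat_lit 0) (nat_lit 0)) T0.l13
  TrL.n)) (by decide +kernel)
theorem bx0_29 : BoxOK sI cl4 cl4 cl4 t0 t0 b0_29 :=
  box_mk (TrL.c (I.pos (nat_lit 0) (nat_lit 0)) T0.l14
  (TrL.c (I.pos (nat_lit 0) (nat_lit 0)) T0.l15
  (TrL.c (I.pos (nat_lit 0) (nat_lit 0)) T0.l16
  (TrL.c (I.pos (nat_lit 0) (nat_lit 0)) T0.l17
  (TrL.c (I.pos (nat_lit 0) (nat_lit 0)) T0.l18
  (TrL.c (I.pos (nat_lit 0) (nat_lit 0)) T0.l19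
  TrL.n)))))) (by decide +kernel)
theorem bx0_30 : BoxOK sI cl4 cl4 cl4 t0 t0 b0_30 :=
  box_mk (TrL.c (I.pos (nat_lit 0) (nat_lit 0)) T0.l20
  (TrL.c (I.pos (nat_lit 0) (nat_lit 0)) T0.l34
  (TrL.c (I.pos (nat_lit 0) (nat_lit 0)) T0.l35
  (TrL.c (I.pos (nat_lit 0) (nat_lit 0)) T0.l21
  (TrL.c (I.pos (nat_lit 0) (nat_lit 0)) T0.l22
  (TrL.c (I.pos (nat_lit 0) (nat_lit 0)) T0.l23
  TrL.n)))))) (by decide +kernel)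
theorem bx0_31 : BoxOK sI cl4 cl4 cl4 t0 t0 b0_31 :=
  box_mk (TrL.c (I.pos (nat_lit 0) (nat_lit 0)) T0.l24
  (TrL.c (I.pos (nat_lit 0) (nat_lit 0)) T0.l25
  TrL.n)) (by decide +kernel)
theorem bx0_32 : BoxOK sI cl4 cl4 cl4 t0 t0 b0_32 :=
  box_mk (TrL.c (I.pos (nat_lit 0) (nat_lit 0)) T0.l6
  (TrL.c (I.pos (nat_lit 0) (nat_lit 0)) T0.l7
  (TrL.c (I.pos (nat_lit 0) (nat_lit 0)) T0.l28
  (TrL.c (I.pos (nat_lit 0) (nat_lit 0)) T0.l29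
  (TrL.c (I.pos (nat_lit 0) (nat_lit 0)) T0.l30
  (TrL.c (I.pos (nat_lit 0) (nat_lit 0)) T0.l11
  TrL.n)))))) (by decide +kernel)
theorem bx0_33 : BoxOK sI cl4 cl4 cl4 t0 t0 b0_33 :=
  box_mk (TrL.c (I.pos (nat_lit 0) (nat_lit 0)) T0.l12
  (TrL.c (I.pos (nat_lit 0) (nat_lit 0)) T0.l13
  TrL.n)) (by decide +kernel)
theorem bx0_34 : BoxOK sI cl4 cl4 cl4 t0 t0 b0_34 :=
  box_mk (TrL.c (I.pos (nat_lit 0) (nat_lit 0)) (xa (xb T0.l6 (xa T0.l6 (xb T0.l6 T0.l6))) (xb (xb T0.l6 T0.l6) T0.l14))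
  (TrL.c (I.pos (nat_lit 0) (nat_lit 0)) (xb T0.l24 T0.l15)
  (TrL.c (I.pos (nat_lit 0) (nat_lit 0)) (xb T0.l25 T0.l16)
  (TrL.c (I.pos (nat_lit 0) (nat_lit 0)) (xb (xa T0.l9 T0.l17) T0.l17)
  (TrL.c (I.pos (nat_lit 0) (nat_lit 0)) (xb (xa T0.l10 T0.l18) T0.l18)
  (TrL.c (I.pos (nat_lit 0) (nat_lit 0)) (xa T0.l11 T0.l19)
  TrL.n)))))) (by decide +kernel)
theorem bx0_35 : BoxOK sI cl4 cl4 cl4 t0 t0 b0_35 :=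
  box_mk (TrL.c (I.pos (nat_lit 0) (nat_lit 0)) T0.l34
  (TrL.c (I.pos (nat_lit 0) (nat_lit 0)) (xb T0.l22 T0.l13)
  TrL.n)) (by decide +kernel)
theorem sv0 : StarV sI cl4 cl4 cl4 t0 t0 t0 :=
  (bt_n (bt_n (bt_n (bt_n (bt_n (bt_b bx0_0) (bt_b bx0_1)) (bt_n (bt_b bx0_2) (bt_b bx0_3))) (bt_n (bt_n (bt_b bx0_4) (bt_b bx0_5)) (bt_n (bt_b bx0_6) (bt_n (bt_b bx0_7) (bt_b bx0_8))))) (bt_n (bt_n (bt_n (bt_b bx0_9) (bt_b bx0_10)) (bt_n (bt_b bx0_11) (bt_b bx0_12))) (bt_n (bt_n (bt_b bx0_13) (bt_b bx0_14)) (bt_n (bt_b bx0_15) (bt_n (bt_b bx0_16) (bt_b bx0_17)))))) (bt_n (bt_n (bt_n (bt_n (bt_b bx0_18) (bt_b bx0_19)) (bt_n (bt_b bx0_20) (bt_b bx0_21))) (bt_n (bt_n (bt_b bx0_22) (bt_b bx0_23)) (bt_n (bt_b bx0_24) (bt_n (bt_b bx0_25) (bt_b bx0_26))))) (bt_n (bt_n (bt_n (bt_b bx0_27) (bt_b bx0_28)) (bt_n (bt_b bx0_29)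 (bt_b bx0_30))) (bt_n (bt_n (bt_b bx0_31) (bt_b bx0_32)) (bt_n (bt_b bx0_33) (bt_n (bt_b bx0_34) (bt_b bx0_35)))))))
def S0 : StarD := StarD.mk cl4 cl4 cl4 0 0 t0
def G : List StarD := [S0]
theorem so0 : StarOK sI G S0 :=
  star_mk (by decide) (by decide) rfl rfl rfl rfl rfl rfl (rfl : _ = t0) (rfl : _ = t0)
  (st_mk (Pth.l (Pth.l (Pth.l (Pth.l (Pth.l Pth.z))))) (nat_lit 418145010) (nat_lit 420064022) (by decide +kernel))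
  (st_mk (Pth.l (Pth.l (Pth.l (Pth.l (Pth.l Pth.z))))) (nat_lit 465817474) (nat_lit 468343866) (by decide +kernel))
  (st_mk (Pth.l (Pth.l (Pth.l (Pth.l (Pth.l Pth.z))))) (nat_lit 523365109) (nat_lit 526704783) (by decide +kernel)) sv0
theorem ok : GroupOK (nat_lit 241565696) (nat_lit 255066112) G := grp_mk (allS_c so0 allS_n)
theorem cov : GCov G cl4 cl4 cl4 := cov_mk
  ⟨0, by decide, rfl, rfl, rfl⟩ ⟨0, by decide, rfl, rfl, rfl⟩ ⟨0, by decide, rfl, rfl, rfl⟩ ⟨0, by decide, rfl, rfl, rfl⟩ ⟨0, by decide, rfl, rfl, rfl⟩ ⟨0, by decide, rfl, rfl, rfl⟩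
end Q111_6


end Pool.Agent.Helper6.MONO
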