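import Pool.Agent.Helper6.MONO.Cert.C12

/-!
Certificate data (generated).
-/

set_option autoImplicit false
set_option linter.all false
noncomputable section
namespace Pool.Agent.Helper6.MONO


namespace Q111_7
def sI : I := I.pos (nat_lit 255000576) (nat_lit 261750784)
def b0_0 : Bx := Bx.mk (St.mk (I.pos (nat_lit 113770496) (nat_lit 218218496)) (I.mix (nat_lit 2949120) (nat_lit 91914240)) (I.mix (nat_lit 3457024) (nat_lit 109412352)) (I.pos (nat_lit 387973120) (nat_lit 533250048)) (I.mix (nat_lit 338280448) (nat_lit 191201280)) (I.mix (nat_lit 168329216) (nat_lit 163938304)) (I.mix (nat_lit 324501504) (nat_lit 293781504)))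
  false (nat_lit 51300841)
def b0_1 : Bx := Bx.mk (St.mk (I.pos (nat_lit 14303232) (nat_lit 77987840)) (I.neg (nat_lit 38666240) (nat_lit 96157696)) (I.neg (nat_lit 22544384) (nat_lit 80150528)) (I.pos (nat_lit 293355520) (nat_lit 343572480)) (I.mix (nat_lit 193282048) (nat_lit 159006720)) (I.mix (nat_lit 147177472) (nat_lit 136560640)) (I.mix (nat_lit 173293568) (nat_lit 145850368)))
  false (nat_lit 98555929)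
def b0_2 : Bx := Bx.mk (St.mk (I.mix (nat_lit 56066048) (nat_lit 6848512)) (I.pos (nat_lit 27099136) (nat_lit 87572480)) (I.neg (nat_lit 44875776) (nat_lit 80330752)) (I.pos (nat_lit 287850496) (nat_lit 318521344)) (I.mix (nat_lit 95715328) (nat_lit 231391232)) (I.mix (nat_lit 188465152) (nat_lit 141295616)) (I.mix (nat_lit 142442496) (nat_lit 70762496)))
  true (nat_lit 0)
def b0_3 : Bx := Bx.mk (St.mk (I.pos (nat_lit 91160576) (nat_lit 165969920)) (I.pos (nat_lit 655360) (nat_lit 70385664)) (I.pos (nat_lit 15646720) (nat_lit 103809024)) (I.pos (nat_lit 347766784) (nat_lit 451411968)) (I.mix (nat_lit 270467072) (nat_lit 105906176)) (I.mix (nat_lit 255918080) (nat_lit 175063040)) (I.mix (nat_lit 296828928) (nat_lit 285720576)))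
  false (nat_lit 0)
def b0_4 : Bx := Bx.mk (St.mk (I.mix (nat_lit 6848512) (nat_lit 56066048)) (I.neg (nat_lit 27099136) (nat_lit 87572480)) (I.neg (nat_lit 44810240) (nat_lit 80330752)) (I.pos (nat_lit 287850496) (nat_lit 318521344)) (I.mix (nat_lit 231391232) (nat_lit 95748096)) (I.mix (nat_lit 141279232) (nat_lit 188465152)) (I.mix (nat_lit 142442496) (nat_lit 70762496)))
  false (nat_lit 66716548)
def b0_5 : Bx := Bx.mk (St.mk (I.neg (nat_lit 14303232) (nat_lit 77987840)) (I.pos (nat_lit 38666240) (nat_lit 96157696)) (I.neg (nat_lit 22544384) (nat_lit 80150528)) (I.pos (nat_lit 293355520) (nat_lit 343572480)) (I.mix (nat_lit 159023104) (nat_lit 193298432)) (I.mix (nat_lit 136609792) (nat_lit 147193856)) (I.mix (nat_lit 173309952) (nat_lit 145850368)))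
  true (nat_lit 0)
def b0_6 : Bx := Bx.mk (St.mk (I.pos (nat_lit 161021952) (nat_lit 206241792)) (I.mix (nat_lit 19415040) (nat_lit 38780928)) (I.neg (nat_lit 8241152) (nat_lit 112967680)) (I.pos (nat_lit 413483008) (nat_lit 495255552)) (I.mix (nat_lit 221790208) (nat_lit 57901056)) (I.mix (nat_lit 138280960) (nat_lit 131547136)) (I.mix (nat_lit 217694208) (nat_lit 234012672)))
  false (nat_lit 0)
def b0_7 : Bx := Bx.mk (St.mk (I.pos (nat_lit 53182464) (nat_lit 86654976)) (I.mix (nat_lit 44433408) (nat_lit 1720320)) (I.mix (nat_lit 33013760) (nat_lit 5783552)) (I.pos (nat_lit 305790976) (nat_lit 330743808)) (I.mix (nat_lit 157646848) (nat_lit 60915712)) (I.mix (nat_lit 83050496) (nat_lit 102662144)) (I.mix (nat_lit 92831744) (nat_lit 89784320)))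
  false (nat_lit 0)
def b0_8 : Bx := Bx.mk (St.mk (I.neg (nat_lit 8126464) (nat_lit 41123840)) (I.mix (nat_lit 16842752) (nat_lit 25624576)) (I.neg (nat_lit 45793280) (nat_lit 57294848)) (I.pos (nat_lit 285540352) (nat_lit 295190528)) (I.mix (nat_lit 131055616) (nat_lit 68059136)) (I.mix (nat_lit 85950464) (nat_lit 86081536)) (I.mix (nat_lit 38928384) (nat_lit 26820608)))
  true (nat_lit 0)
def b0_9 : Bx := Bx.mk (St.mk (I.pos (nat_lit 107577344) (nat_lit 145440768)) (I.mix (nat_lit 51953664) (nat_lit 524288)) (I.mix (nat_lit 46465024) (nat_lit 11862016)) (I.pos (nat_lit 349470720) (nat_lit 394592256)) (I.mix (nat_lit 106233856) (nat_lit 145981440)) (I.mix (nat_lit 144506880) (nat_lit 111312896)) (I.mix (nat_lit 166494208) (nat_lit 106856448)))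
  false (nat_lit 4746607)
def b0_10 : Bx := Bx.mk (St.mk (I.pos (nat_lit 8126464) (nat_lit 41123840)) (I.mix (nat_lit 28311552) (nat_lit 16859136)) (I.neg (nat_lit 45793280) (nat_lit 57294848)) (I.pos (nat_lit 285540352) (nat_lit 295190528)) (I.mix (nat_lit 68059136) (nat_lit 131219456)) (I.mix (nat_lit 86720512) (nat_lit 85950464)) (I.mix (nat_lit 39174144) (nat_lit 26820608)))
  false (nat_lit 0)
def b0_11 : Bx := Bx.mk (St.mk (I.neg (nat_lit 53166080) (nat_lit 86671360)) (I.mix (nat_lit 1720320) (nat_lit 42795008)) (I.mix (nat_lit 31309824) (nat_lit 5783552)) (I.pos (nat_lit 305790976) (nat_lit 330743808)) (I.mix (nat_lit 60932096) (nat_lit 157958144)) (I.mix (nat_lit 102891520) (nat_lit 83296256)) (I.mix (nat_lit 93028352) (nat_lit 90013696)))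
  true (nat_lit 0)
def b0_12 : Bx := Bx.mk (St.mk (I.pos (nat_lit 61292544) (nat_lit 102793216)) (I.mix (nat_lit 36356096) (nat_lit 4505600)) (I.mix (nat_lit 29720576) (nat_lit 6701056)) (I.pos (nat_lit 310640640) (nat_lit 343900160)) (I.mix (nat_lit 129515520) (nat_lit 88637440)) (I.mix (nat_lit 78118912) (nat_lit 109608960)) (I.mix (nat_lit 91176960) (nat_lit 90357760)))
  false (nat_lit 0)
def b0_13 : Bx := Bx.mk (St.mk (I.mix (nat_lit 34570240) (nat_lit 3276800)) (I.mix (nat_lit 20774912) (nat_lit 15745024)) (I.neg (nat_lit 45531136) (nat_lit 51806208)) (I.pos (nat_lit 285687808) (nat_lit 293224448)) (I.mix (nat_lit 109281280) (nat_lit 89604096)) (I.mix (nat_lit 92749824) (nat_lit 74432512)) (I.mix (nat_lit 22413312) (nat_lit 24379392)))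
  true (nat_lit 0)
def b0_14 : Bx := Bx.mk (St.mk (I.pos (nat_lit 146358272) (nat_lit 199196672)) (I.pos (nat_lit 16531456) (nat_lit 83673088)) (I.mix (nat_lit 32047104) (nat_lit 77217792)) (I.pos (nat_lit 411320320) (nat_lit 516751360)) (I.mix (nat_lit 193626112) (nat_lit 149848064)) (I.mix (nat_lit 196919296) (nat_lit 169246720)) (I.mix (nat_lit 393723904) (nat_lit 242532352)))
  false (nat_lit 7241504)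
def b0_15 : Bx := Bx.mk (St.mk (I.pos (nat_lit 41975808) (nat_lit 83443712)) (I.neg (nat_lit 24854528) (nat_lit 82542592)) (I.neg (nat_lit 16646144) (nat_lit 62242816)) (I.pos (nat_lit 302546944) (nat_lit 341704704)) (I.mix (nat_lit 143130624) (nat_lit 131776512)) (I.mix (nat_lit 124223488) (nat_lit 150847488)) (I.mix (nat_lit 131399680) (nat_lit 160350208)))
  false (nat_lit 44245731)
def b0_16 : Bx := Bx.mk (St.mk (I.mix (nat_lit 42450944) (nat_lit 4472832)) (I.pos (nat_lit 11763712) (nat_lit 62619648)) (I.neg (nat_lit 49790976) (nat_lit 72679424)) (I.pos (nat_lit 286097408) (nat_lit 302153728)) (I.mix (nat_lit 100368384) (nat_lit 167673856)) (I.mix (nat_lit 149110784) (nat_lit 81543168)) (I.mix (nat_lit 78102528) (nat_lit 42598400)))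
  true (nat_lit 0)
def b0_17 : Bx := Bx.mk (St.mk (I.pos (nat_lit 95305728) (nat_lit 153010176)) (I.mix (nat_lit 13500416) (nat_lit 40337408)) (I.mix (nat_lit 5652480) (nat_lit 66273280)) (I.pos (nat_lit 347045888) (nat_lit 409206784)) (I.mix (nat_lit 207110144) (nat_lit 120242176)) (I.mix (nat_lit 216678400) (nat_lit 117473280)) (I.mix (nat_lit 231915520) (nat_lit 174473216)))
  false (nat_lit 30683784)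
def b0_18 : Bx := Bx.mk (St.mk (I.mix (nat_lit 4472832) (nat_lit 42450944)) (I.neg (nat_lit 11763712) (nat_lit 62619648)) (I.neg (nat_lit 49790976) (nat_lit 72679424)) (I.pos (nat_lit 286097408) (nat_lit 302153728)) (I.mix (nat_lit 167673856) (nat_lit 100368384)) (I.mix (nat_lit 81543168) (nat_lit 149110784)) (I.mix (nat_lit 78102528) (nat_lit 42598400)))
  false (nat_lit 0)
def b0_19 : Bx := Bx.mk (St.mk (I.neg (nat_lit 41975808) (nat_lit 83443712)) (I.pos (nat_lit 24854528) (nat_lit 82542592)) (I.neg (nat_lit 16646144) (nat_lit 62242816)) (I.pos (nat_lit 302530560) (nat_lit 341704704)) (I.mix (nat_lit 131776512) (nat_lit 143081472)) (I.mix (nat_lit 150847488) (nat_lit 124239872)) (I.mix (nat_lit 131399680) (nat_lit 160333824)))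
  true (nat_lit 0)
def b0_20 : Bx := Bx.mk (St.mk (I.pos (nat_lit 173883392) (nat_lit 232554496)) (I.mix (nat_lit 25772032) (nat_lit 23265280)) (I.neg (nat_lit 39108608) (nat_lit 129155072)) (I.pos (nat_lit 432177152) (nat_lit 549994496)) (I.mix (nat_lit 208568320) (nat_lit 96976896)) (I.mix (nat_lit 156237824) (nat_lit 112099328)) (I.mix (nat_lit 274628608) (nat_lit 212500480)))
  false (nat_lit 0)
def b0_21 : Bx := Bx.mk (St.mk (I.pos (nat_lit 91897856) (nat_lit 135561216)) (I.neg (nat_lit 5734400) (nat_lit 52133888)) (I.neg (nat_lit 1081344) (nat_lit 47415296)) (I.pos (nat_lit 333922304) (nat_lit 381403136)) (I.mix (nat_lit 131219456) (nat_lit 105054208)) (I.mix (nat_lit 136462336) (nat_lit 105136128)) (I.mix (nat_lit 157220864) (nat_lit 87719936)))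
  false (nat_lit 0)
def b0_22 : Bx := Bx.mk (St.mk (I.mix (nat_lit 8142848) (nat_lit 34553856)) (I.mix (nat_lit 15515648) (nat_lit 20774912)) (I.neg (nat_lit 45580288) (nat_lit 51806208)) (I.pos (nat_lit 285687808) (nat_lit 293224448)) (I.mix (nat_lit 89800704) (nat_lit 110329856)) (I.mix (nat_lit 75481088) (nat_lit 93044736)) (I.mix (nat_lit 22740992) (nat_lit 24657920)))
  false (nat_lit 0)
def b0_23 : Bx := Bx.mk (St.mk (I.neg (nat_lit 61292544) (nat_lit 105611264)) (I.mix (nat_lit 4505600) (nat_lit 36388864)) (I.mix (nat_lit 29720576) (nat_lit 6750208)) (I.pos (nat_lit 310640640) (nat_lit 346767360)) (I.mix (nat_lit 88899584) (nat_lit 129531904)) (I.mix (nat_lit 109871104) (nat_lit 78397440)) (I.mix (nat_lit 91406336) (nat_lit 90619904)))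
  true (nat_lit 0)
def b0_24 : Bx := Bx.mk (St.mk (I.pos (nat_lit 53100544) (nat_lit 86638592)) (I.mix (nat_lit 42811392) (nat_lit 1785856)) (I.mix (nat_lit 31178752) (nat_lit 3145728)) (I.pos (nat_lit 305741824) (nat_lit 330760192)) (I.mix (nat_lit 160350208) (nat_lit 60817408)) (I.mix (nat_lit 83410944) (nat_lit 103006208)) (I.mix (nat_lit 93175808) (nat_lit 90193920)))
  false (nat_lit 0)
def b0_25 : Bx := Bx.mk (St.mk (I.neg (nat_lit 7847936) (nat_lit 41189376)) (I.mix (nat_lit 17465344) (nat_lit 28770304)) (I.neg (nat_lit 46219264) (nat_lit 57180160)) (I.pos (nat_lit 285589504) (nat_lit 295239680)) (I.mix (nat_lit 132677632) (nat_lit 49774592)) (I.mix (nat_lit 84869120) (nat_lit 88473600)) (I.mix (nat_lit 39960576) (nat_lit 27131904)))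
  true (nat_lit 0)
def b0_26 : Bx := Bx.mk (St.mk (I.pos (nat_lit 174718976) (nat_lit 205864960)) (I.pos (nat_lit 10993664) (nat_lit 38502400)) (I.neg (nat_lit 12632064) (nat_lit 57032704)) (I.pos (nat_lit 445579264) (nat_lit 495386624)) (I.mix (nat_lit 109871104) (nat_lit 58998784)) (I.mix (nat_lit 95748096) (nat_lit 73449472)) (I.mix (nat_lit 186646528) (nat_lit 116031488)))
  false (nat_lit 0)
def b0_27 : Bx := Bx.mk (St.mk (I.pos (nat_lit 61128704) (nat_lit 81182720)) (I.neg (nat_lit 27148288) (nat_lit 42057728)) (I.neg (nat_lit 17252352) (nat_lit 30949376)) (I.pos (nat_lit 312688640) (nat_lit 328335360)) (I.mix (nat_lit 45957120) (nat_lit 11599872)) (I.mix (nat_lit 20348928) (nat_lit 26116096)) (I.mix (nat_lit 25919488) (nat_lit 21151744)))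
  false (nat_lit 0)
def b0_28 : Bx := Bx.mk (St.mk (I.neg (nat_lit 7962624) (nat_lit 29589504)) (I.pos (nat_lit 7766016) (nat_lit 27328512)) (I.neg (nat_lit 50987008) (nat_lit 57114624)) (I.pos (nat_lit 286015488) (nat_lit 292831232)) (I.mix (nat_lit 45547520) (nat_lit 70090752)) (I.mix (nat_lit 64356352) (nat_lit 43859968)) (I.mix (nat_lit 23429120) (nat_lit 11124736)))
  true (nat_lit 0)
def b0_29 : Bx := Bx.mk (St.mk (I.pos (nat_lit 112656384) (nat_lit 136019968)) (I.neg (nat_lit 671744) (nat_lit 22200320)) (I.mix (nat_lit 12222464) (nat_lit 10256384)) (I.pos (nat_lit 356335616) (nat_lit 383827968)) (I.mix (nat_lit 50479104) (nat_lit 20742144)) (I.mix (nat_lit 35700736) (nat_lit 22085632)) (I.mix (nat_lit 38256640) (nat_lit 24657920)))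
  false (nat_lit 0)
def b0_30 : Bx := Bx.mk (St.mk (I.pos (nat_lit 7831552) (nat_lit 29474816)) (I.neg (nat_lit 6668288) (nat_lit 29802496)) (I.neg (nat_lit 50954240) (nat_lit 57278464)) (I.pos (nat_lit 286081024) (nat_lit 292700160)) (I.mix (nat_lit 50872320) (nat_lit 26116096)) (I.mix (nat_lit 23756800) (nat_lit 45907968)) (I.mix (nat_lit 17596416) (nat_lit 3325952)))
  false (nat_lit 0)
def b0_31 : Bx := Bx.mk (St.mk (I.neg (nat_lit 61112320) (nat_lit 81182720)) (I.pos (nat_lit 22446080) (nat_lit 42205184)) (I.neg (nat_lit 12976128) (nat_lit 31064064)) (I.pos (nat_lit 312672256) (nat_lit 328335360)) (I.mix (nat_lit 11681792) (nat_lit 47611904)) (I.mix (nat_lit 25985024) (nat_lit 20381696)) (I.mix (nat_lit 25919488) (nat_lit 21037056)))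
  true (nat_lit 0)
def b0_32 : Bx := Bx.mk (St.mk (I.pos (nat_lit 82526208) (nat_lit 103514112)) (I.neg (nat_lit 16842752) (nat_lit 36618240)) (I.neg (nat_lit 11452416) (nat_lit 30048256)) (I.pos (nat_lit 326615040) (nat_lit 344932352)) (I.mix (nat_lit 90980352) (nat_lit 28229632)) (I.mix (nat_lit 60293120) (nat_lit 45137920)) (I.mix (nat_lit 68517888) (nat_lit 31899648)))
  false (nat_lit 0)
def b0_33 : Bx := Bx.mk (St.mk (I.mix (nat_lit 10813440) (nat_lit 4112384)) (I.mix (nat_lit 4505600) (nat_lit 15548416)) (I.neg (nat_lit 48005120) (nat_lit 50315264)) (I.pos (nat_lit 285868032) (nat_lit 288718848)) (I.mix (nat_lit 34275328) (nat_lit 38436864)) (I.mix (nat_lit 27344896) (nat_lit 42565632)) (I.mix (nat_lit 7847936) (nat_lit 3063808)))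
  true (nat_lit 0)
def b0_34 : Bx := Bx.mk (St.mk (I.pos (nat_lit 72761344) (nat_lit 104103936)) (I.mix (nat_lit 36896768) (nat_lit 5390336)) (I.mix (nat_lit 30244864) (nat_lit 7618560)) (I.pos (nat_lit 319307776) (nat_lit 345391104)) (I.mix (nat_lit 110313472) (nat_lit 93519872)) (I.mix (nat_lit 80035840) (nat_lit 111689728)) (I.mix (nat_lit 93585408) (nat_lit 92176384)))
  false (nat_lit 0)
def b0_35 : Bx := Bx.mk (St.mk (I.mix (nat_lit 34701312) (nat_lit 4833280)) (I.mix (nat_lit 20905984) (nat_lit 15335424)) (I.neg (nat_lit 45858816) (nat_lit 51838976)) (I.pos (nat_lit 285949952) (nat_lit 293240832)) (I.mix (nat_lit 110968832) (nat_lit 91488256)) (I.mix (nat_lit 94142464) (nat_lit 76513280)) (I.mix (nat_lit 22970368) (nat_lit 25247744)))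
  true (nat_lit 0)
def t0 : BTr := (BTr.n (BTr.n (BTr.n (BTr.n (BTr.n (BTr.b b0_0) (BTr.b b0_1)) (BTr.n (BTr.b b0_2) (BTr.b b0_3))) (BTr.n (BTr.n (BTr.b b0_4) (BTr.b b0_5)) (BTr.n (BTr.b b0_6) (BTr.n (BTr.b b0_7) (BTr.b b0_8))))) (BTr.n (BTr.n (BTr.n (BTr.b b0_9) (BTr.b b0_10)) (BTr.n (BTr.b b0_11) (BTr.b b0_12))) (BTr.n (BTr.n (BTr.b b0_13) (BTr.b b0_14)) (BTr.n (BTr.b b0_15) (BTr.n (BTr.b b0_16) (BTr.b b0_17)))))) (BTr.n (BTr.n (BTr.n (BTr.n (BTr.b b0_18) (BTr.b b0_19)) (BTr.n (BTr.b b0_20) (BTr.b b0_21))) (BTr.n (BTr.n (BTr.b b0_22) (BTr.b b0_23)) (BTr.n (BTr.b b0_24) (BTr.n (BTr.b b0_25) (BTr.b b0_26))))) (BTr.n (BTr.n (BTr.n (BTr.b b0_27) (BTr.b b0_28)) (BTr.n (BTr.b b0_29) (BTr.b b0_30))) (BTr.n (BTr.n (BTr.b b0_31) (BTr.b b0_32)) (BTr.n (BTr.b b0_33) (BTr.n (BTr.b b0_34) (BTr.b b0_35)))))))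
namespace T0
def l0 : Tr := Tr.L (Pth.l (Pth.l (Pth.l (Pth.l (Pth.l Pth.z)))))
def l1 : Tr := Tr.L (Pth.l (Pth.l (Pth.l (Pth.l (Pth.r Pth.z)))))
def l2 : Tr := Tr.L (Pth.l (Pth.l (Pth.l (Pth.r (Pth.l Pth.z)))))
def l3 : Tr := Tr.L (Pth.l (Pth.l (Pth.l (Pth.r (Pth.r Pth.z)))))
def l4 : Tr := Tr.L (Pth.l (Pth.l (Pth.r (Pth.l (Pth.l Pth.z)))))
def l5 : Tr := Tr.L (Pth.l (Pth.l (Pth.r (Pth.l (Pth.r Pth.z)))))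
def l6 : Tr := Tr.L (Pth.l (Pth.l (Pth.r (Pth.r (Pth.l Pth.z)))))
def l7 : Tr := Tr.L (Pth.l (Pth.l (Pth.r (Pth.r (Pth.r (Pth.l Pth.z))))))
def l8 : Tr := Tr.L (Pth.l (Pth.l (Pth.r (Pth.r (Pth.r (Pth.r Pth.z))))))
def l9 : Tr := Tr.L (Pth.l (Pth.r (Pth.l (Pth.l (Pth.l Pth.z)))))
def l10 : Tr := Tr.L (Pth.l (Pth.r (Pth.l (Pth.l (Pth.r Pth.z)))))
def l11 : Tr := Tr.L (Pth.l (Pth.r (Pth.l (Pth.r (Pth.l Pth.z)))))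
def l12 : Tr := Tr.L (Pth.l (Pth.r (Pth.l (Pth.r (Pth.r Pth.z)))))
def l13 : Tr := Tr.L (Pth.l (Pth.r (Pth.r (Pth.l (Pth.l Pth.z)))))
def l14 : Tr := Tr.L (Pth.l (Pth.r (Pth.r (Pth.l (Pth.r Pth.z)))))
def l15 : Tr := Tr.L (Pth.l (Pth.r (Pth.r (Pth.r (Pth.l Pth.z)))))
def l16 : Tr := Tr.L (Pth.l (Pth.r (Pth.r (Pth.r (Pth.r (Pth.l Pth.z))))))
def l17 : Tr := Tr.L (Pth.l (Pth.r (Pth.r (Pth.r (Pth.r (Pth.r Pth.z))))))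
def l18 : Tr := Tr.L (Pth.r (Pth.l (Pth.l (Pth.l (Pth.l Pth.z)))))
def l19 : Tr := Tr.L (Pth.r (Pth.l (Pth.l (Pth.l (Pth.r Pth.z)))))
def l20 : Tr := Tr.L (Pth.r (Pth.l (Pth.l (Pth.r (Pth.l Pth.z)))))
def l21 : Tr := Tr.L (Pth.r (Pth.l (Pth.l (Pth.r (Pth.r Pth.z)))))
def l22 : Tr := Tr.L (Pth.r (Pth.l (Pth.r (Pth.l (Pth.l Pth.z)))))
def l23 : Tr := Tr.L (Pth.r (Pth.l (Pth.r (Pth.l (Pth.r Pth.z)))))
def l24 : Tr := Tr.L (Pth.r (Pth.l (Pth.r (Pth.r (Pth.l Pth.z)))))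
def l25 : Tr := Tr.L (Pth.r (Pth.l (Pth.r (Pth.r (Pth.r (Pth.l Pth.z))))))
def l26 : Tr := Tr.L (Pth.r (Pth.l (Pth.r (Pth.r (Pth.r (Pth.r Pth.z))))))
def l27 : Tr := Tr.L (Pth.r (Pth.r (Pth.l (Pth.l (Pth.l Pth.z)))))
def l28 : Tr := Tr.L (Pth.r (Pth.r (Pth.l (Pth.l (Pth.r Pth.z)))))
def l29 : Tr := Tr.L (Pth.r (Pth.r (Pth.l (Pth.r (Pth.l Pth.z)))))
def l30 : Tr := Tr.L (Pth.r (Pth.r (Pth.l (Pth.r (Pth.r Pth.z)))))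
def l31 : Tr := Tr.L (Pth.r (Pth.r (Pth.r (Pth.l (Pth.l Pth.z)))))
def l32 : Tr := Tr.L (Pth.r (Pth.r (Pth.r (Pth.l (Pth.r Pth.z)))))
def l33 : Tr := Tr.L (Pth.r (Pth.r (Pth.r (Pth.r (Pth.l Pth.z)))))
def l34 : Tr := Tr.L (Pth.r (Pth.r (Pth.r (Pth.r (Pth.r (Pth.l Pth.z))))))
def l35 : Tr := Tr.L (Pth.r (Pth.r (Pth.r (Pth.r (Pth.r (Pth.r Pth.z))))))
end T0
def rc0_0_0_ll : Tr := (xa (xb (xa (xb (xa (xb T0.l0 (xc T0.l0 T0.l0)) (xb T0.l0 T0.l0)) (xa (xb (xc T0.l0 T0.l0) (xc T0.l0 T0.l0)) (xb T0.l0 T0.l0))) (xb (xa T0.l0 T0.l0) (xa T0.l0 T0.l0))) (xa (xb (xa (xb (xc T0.l0 T0.l0) (xc (xa T0.l0 T0.l0) T0.l0)) (xb T0.l0 T0.l0)) (xa (xb (xc (xa T0.l0 T0.l0) T0.l0) (xc (xa T0.l0 T0.l0) (xa T0.l0 T0.l0))) (xb T0.l0 T0.l0))) (xb (xa (xb T0.l0 T0.l0) T0.l0) (xa (xb T0.l0 T0.l0) T0.l0)))) (xb (xa (xb T0.l0 T0.l0)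 (xb T0.l0 T0.l0)) (xa (xb T0.l0 (xa T0.l0 T0.l0)) (xb T0.l0 T0.l0))))
theorem qc0_0_0_ll : chkTr (tg true true false RT.r2) b0_0 t0 rc0_0_0_ll
  (upd lo Co.b (upd lo Co.a (rc sI cl4 cl4 cl4 b0_0 (I.pos (nat_lit 0) (nat_lit 0))))) = true := by decide +kernel
def rc0_0_0_lrll : Tr := (xa (xb (xa (xb (xc (xa T0.l0 T0.l0) (xa T0.l0 T0.l0)) (xc (xa T0.l0 T0.l0) (xa T0.l0 T0.l0))) (xb T0.l0 T0.l0)) (xa (xb (xc (xa T0.l0 T0.l0) (xa T0.l0 T0.l0)) (xc (xa T0.l0 T0.l0) (xa T0.l0 T0.l0))) (xb (xc T0.l0 T0.l0) (xc T0.l0 T0.l0)))) (xb (xa (xb T0.l0 T0.l0) (xb T0.l0 T0.l0)) (xa (xb T0.l0 T0.l0) (xb T0.l0 T0.l0))))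
theorem qc0_0_0_lrll : chkTr (tg true true false RT.r2) b0_0 t0 rc0_0_0_lrll
  (upd lo Co.b (upd lo Co.a (upd hi Co.b (upd lo Co.a (rc sI cl4 cl4 cl4 b0_0 (I.pos (nat_lit 0) (nat_lit 0))))))) = true := by decide +kernel
def rc0_0_0_lrlr : Tr := (xa (xb (xa (xb (xc (xa T0.l0 T0.l0) (xa (xb T0.l0 T0.l0) T0.l0)) (xc (xa T0.l0 T0.l0) (xa (xb T0.l0 T0.l0) (xb T0.l0 T0.l0)))) (xb (xc T0.l0 T0.l0) (xc T0.l0 (xa T0.l0 T0.l0)))) (xa (xb (xc (xa T0.l0 T0.l0) (xa (xb T0.l0 (xc T0.l0 T0.l0)) (xb T0.l0 T0.l0))) (xc (xa (xb T0.l0 T0.l0) (xb T0.l0 T0.l0)) (xa (xb (xc T0.l0 T0.l0) (xc T0.l0 T0.l0)) (xb T0.l0 T0.l0)))) (xb (xc (xa T0.l0 T0.l0) (xa T0.l0 T0.l0)) (xc (xa (xb T0.l0 T0.l0) (xb T0.l0 T0.l0)) (xa (xb T0.l0 T0.l0) (xb T0.l0 T0.l0)))))) (xb (xa (xb (xc T0.l0 T0.l0) (xc T0.l0 T0.l0)) (xb (xc T0.l0 T0.l0) (xc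 T0.l0 T0.l0))) (xa (xb (xc (xa T0.l0 T0.l0) (xa T0.l0 T0.l0)) (xc (xa (xb T0.l0 T0.l0) (xb T0.l0 T0.l0)) (xa (xb T0.l0 T0.l0) (xb T0.l0 (xc T0.l0 T0.l0))))) (xb (xc (xa T0.l0 T0.l0) (xa T0.l0 T0.l0)) (xc (xa (xb T0.l0 T0.l0) (xb T0.l0 T0.l0)) (xa (xb T0.l0 (xc T0.l0 T0.l0)) (xb T0.l0 (xc T0.l0 T0.l0))))))))
theorem qc0_0_0_lrlr : chkTr (tg true true false RT.r2) b0_0 t0 rc0_0_0_lrlr
  (upd hi Co.b (upd lo Co.a (upd hi Co.b (upd lo Co.a (rc sI cl4 cl4 cl4 b0_0 (I.pos (nat_lit 0) (nat_lit 0))))))) = true := by decide +kernel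
theorem qc0_0_0_lrl : chkTr (tg true true false RT.r2) b0_0 t0 (Tr.N Co.b rc0_0_0_lrll rc0_0_0_lrlr)
  (upd lo Co.a (upd hi Co.b (upd lo Co.a (rc sI cl4 cl4 cl4 b0_0 (I.pos (nat_lit 0) (nat_lit 0)))))) = true := tr_split qc0_0_0_lrll qc0_0_0_lrlr
def rc0_0_0_lrr : Tr := (xb (xa (xb (xa T0.l0 T0.l0) (xa (xb T0.l0 T0.l0) (xb T0.l0 T0.l0))) (xb (xa T0.l0 T0.l0) (xa (xb T0.l0 T0.l0) (xb T0.l0 T0.l0)))) (xa (xb (xa (xb (xc T0.l0 T0.l0) (xc T0.l0 T0.l0)) (xb (xc T0.l0 T0.l0) (xc T0.l0 T0.l0))) (xa (xb (xc (xa T0.l0 T0.l0) (xa T0.l0 T0.l0)) (xc (xa T0.l0 T0.l0) (xa (xb T0.l0 (xc T0.l0 T0.l0)) (xb T0.l0 (xc T0.l0 T0.l0))))) (xb (xc (xa T0.l0 T0.l0) (xa T0.l0 T0.l0)) (xc (xa T0.l0 T0.l0) (xa (xb T0.l0 (xc T0.l0 T0.l0)) (xb T0.l0 (xc T0.l0 T0.l0))))))) (xb (xa (xb (xc T0.l0 T0.l0) (xc T0.l0 T0.l0)) (xb T0.l0 (xc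 T0.l0 T0.l0))) (xa (xb (xc T0.l0 (xa T0.l0 T0.l0)) (xc (xa T0.l0 T0.l0) (xa (xb T0.l0 (xc T0.l0 T0.l0)) (xb T0.l0 (xc T0.l0 T0.l0))))) (xb (xc T0.l0 (xa T0.l0 T0.l0)) (xc (xa T0.l0 T0.l0) (xa (xb T0.l0 (xc T0.l0 T0.l0)) (xb T0.l0 T0.l0))))))))
theorem qc0_0_0_lrr : chkTr (tg true true false RT.r2) b0_0 t0 rc0_0_0_lrr
  (upd hi Co.a (upd hi Co.b (upd lo Co.a (rc sI cl4 cl4 cl4 b0_0 (I.pos (nat_lit 0) (nat_lit 0)))))) = true := by decide +kernel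
theorem qc0_0_0_lr : chkTr (tg true true false RT.r2) b0_0 t0 (Tr.N Co.a (Tr.N Co.b rc0_0_0_lrll rc0_0_0_lrlr) rc0_0_0_lrr)
  (upd hi Co.b (upd lo Co.a (rc sI cl4 cl4 cl4 b0_0 (I.pos (nat_lit 0) (nat_lit 0))))) = true := tr_split qc0_0_0_lrl qc0_0_0_lrr
theorem qc0_0_0_l : chkTr (tg true true false RT.r2) b0_0 t0 (Tr.N Co.b rc0_0_0_ll (Tr.N Co.a (Tr.N Co.b rc0_0_0_lrll rc0_0_0_lrlr) rc0_0_0_lrr))
  (upd lo Co.a (rc sI cl4 cl4 cl4 b0_0 (I.pos (nat_lit 0) (nat_lit 0)))) = true := tr_split qc0_0_0_ll qc0_0_0_lr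
def rc0_0_0_rl : Tr := (xa (xb (xa T0.l0 T0.l0) (xa (xb T0.l0 T0.l0) (xb T0.l0 T0.l0))) (xb (xa T0.l0 (xb T0.l0 T0.l0)) (xa (xb T0.l0 T0.l0) (xb T0.l0 (xa T0.l0 T0.l0)))))
theorem qc0_0_0_rl : chkTr (tg true true false RT.r2) b0_0 t0 rc0_0_0_rl
  (upd lo Co.b (upd hi Co.a (rc sI cl4 cl4 cl4 b0_0 (I.pos (nat_lit 0) (nat_lit 0))))) = true := by decide +kernel
def rc0_0_0_rr : Tr := (xa (xb (xa (xb (xa T0.l0 T0.l0) (xa (xb T0.l0 T0.l0) (xb T0.l0 T0.l0))) (xb (xa T0.l0 T0.l0) (xa (xb T0.l0 T0.l0) (xb T0.l0 T0.l0)))) (xa (xb (xa (xb T0.l0 (xc T0.l0 T0.l0)) (xb T0.l0 (xc T0.l0 T0.l0))) (xa (xb (xc T0.l0 (xa T0.l0 T0.l0)) (xc (xa T0.l0 T0.l0) (xa (xb T0.l0 T0.l0) (xb T0.l0 T0.l0)))) (xb (xc T0.l0 T0.l0) (xc T0.l0 (xa (xb T0.l0 T0.l0) (xb T0.l0 T0.l0)))))) (xb (xa (xb T0.l0 (xc T0.l0 T0.l0)) (xb T0.l0 T0.l0))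 (xa (xb (xc T0.l0 T0.l0) (xc T0.l0 (xa (xb T0.l0 T0.l0) T0.l0))) (xb (xc T0.l0 T0.l0) (xc T0.l0 (xa T0.l0 T0.l0))))))) (xb (xa (xb (xa T0.l0 T0.l0) (xa T0.l0 T0.l0)) (xb (xa T0.l0 T0.l0) (xa T0.l0 (xb T0.l0 T0.l0)))) (xa (xb (xa (xb T0.l0 T0.l0) (xb T0.l0 T0.l0)) (xa (xb (xc T0.l0 T0.l0) (xc T0.l0 (xa T0.l0 T0.l0))) (xb (xc T0.l0 T0.l0) (xc T0.l0 (xa T0.l0 T0.l0))))) (xb (xa (xb T0.l0 T0.l0) (xb T0.l0 (xc T0.l0 (xa T0.l0 T0.l0)))) (xa (xb T0.l0 (xc T0.l0 (xa T0.l0 (xb T0.l0 T0.l0)))) (xb (xc T0.l0 (xa T0.l0 (xb T0.l0 T0.l0))) (xc (xa T0.l0 (xb T0.l0 T0.l0)) (xa (xb T0.l0 T0.l0) (xb T0.l0 (xc T0.l0 T0.l0))))))))))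
theorem qc0_0_0_rr : chkTr (tg true true false RT.r2) b0_0 t0 rc0_0_0_rr
  (upd hi Co.b (upd hi Co.a (rc sI cl4 cl4 cl4 b0_0 (I.pos (nat_lit 0) (nat_lit 0))))) = true := by decide +kernel
theorem qc0_0_0_r : chkTr (tg true true false RT.r2) b0_0 t0 (Tr.N Co.b rc0_0_0_rl rc0_0_0_rr)
  (upd hi Co.a (rc sI cl4 cl4 cl4 b0_0 (I.pos (nat_lit 0) (nat_lit 0)))) = true := tr_split qc0_0_0_rl qc0_0_0_rr
theorem qc0_0_0_ : chkTr (tg true true false RT.r2) b0_0 t0 (Tr.N Co.a (Tr.N Co.b rc0_0_0_ll (Tr.N Co.a (Tr.N Co.b rc0_0_0_lrll rc0_0_0_lrlr) rc0_0_0_lrr)) (Tr.N Co.b rc0_0_0_rl rc0_0_0_rr))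
  (rc sI cl4 cl4 cl4 b0_0 (I.pos (nat_lit 0) (nat_lit 0))) = true := tr_split qc0_0_0_l qc0_0_0_r
theorem c0_0_0 : chkTag sI cl4 cl4 cl4 t0 b0_0 (tg true true false RT.r2) (I.pos (nat_lit 0) (nat_lit 0))
  (Tr.N Co.a (Tr.N Co.b rc0_0_0_ll (Tr.N Co.a (Tr.N Co.b rc0_0_0_lrll rc0_0_0_lrlr) rc0_0_0_lrr)) (Tr.N Co.b rc0_0_0_rl rc0_0_0_rr)) = true := tag_mk (by decide +kernel) qc0_0_0_
def rc0_0_1_ll : Tr := (xa (xb (xc (xa (xb T0.l1 T0.l1) (xb T0.l1 T0.l1)) (xa (xb T0.l1 T0.l1) (xb T0.l1 T0.l1))) (xc (xa (xb T0.l1 (xc T0.l1 T0.l1)) (xb T0.l1 T0.l1)) (xa (xb T0.l1 (xc T0.l1 T0.l1)) (xb T0.l1 T0.l1)))) (xb (xc (xa (xb T0.l1 T0.l1) (xb T0.l1 T0.l1)) (xa (xb T0.l1 T0.l1) (xb T0.l1 T0.l1))) (xc (xa (xb T0.l1 T0.l1) (xb T0.l1 T0.l1)) (xa (xb T0.l1 T0.l1) (xb T0.l1 T0.l1)))))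
theorem qc0_0_1_ll : chkTr (tg true false false RT.r3) b0_0 t0 rc0_0_1_ll
  (upd lo Co.b (upd lo Co.a (rc sI cl4 cl4 cl4 b0_0 (I.pos (nat_lit 0) (nat_lit 0))))) = true := by decide +kernel
def rc0_0_1_lr : Tr := (xa (xb (xc (xa (xb (xc T0.l1 T0.l1) (xc T0.l1 T0.l1)) (xb T0.l1 (xc T0.l1 T0.l1))) (xa (xb (xc T0.l1 T0.l1) (xc T0.l1 (xa T0.l1 T0.l1))) (xb (xc T0.l1 T0.l1) (xc T0.l1 T0.l1)))) (xa (xc (xb (xc T0.l1 T0.l1) (xc (xa T0.l1 T0.l1) (xa T0.l1 T0.l1))) (xb (xc (xa T0.l1 T0.l1) (xa T0.l1 T0.l1)) (xc (xa T0.l1 T0.l1) (xa T0.l1 T0.l1)))) (xc (xb (xc T0.l1 T0.l1) (xc (xa T0.l1 T0.l1) (xa T0.l1 T0.l1))) (xb (xc T0.l1 T0.l1) (xc (xa T0.l1 T0.l1) (xa T0.l1 T0.l1)))))) (xb (xc (xa (xb T0.l1 T0.l1) (xb T0.l1 T0.l1)) (xa (xb T0.l1 T0.l1) (xb T0.l1 T0.l1))) (xc (xa (xb (xa T0.l1 T0.l1) (xa T0.l1 T0.l1)) (xb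 (xa T0.l1 T0.l1) (xa T0.l1 T0.l1))) (xa (xb (xc T0.l1 T0.l1) (xc (xa T0.l1 T0.l1) (xa T0.l1 T0.l1))) (xb (xc T0.l1 T0.l1) (xc T0.l1 (xa T0.l1 T0.l1)))))))
theorem qc0_0_1_lr : chkTr (tg true false false RT.r3) b0_0 t0 rc0_0_1_lr
  (upd hi Co.b (upd lo Co.a (rc sI cl4 cl4 cl4 b0_0 (I.pos (nat_lit 0) (nat_lit 0))))) = true := by decide +kernel
theorem qc0_0_1_l : chkTr (tg true false false RT.r3) b0_0 t0 (Tr.N Co.b rc0_0_1_ll rc0_0_1_lr)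
  (upd lo Co.a (rc sI cl4 cl4 cl4 b0_0 (I.pos (nat_lit 0) (nat_lit 0)))) = true := tr_split qc0_0_1_ll qc0_0_1_lr
def rc0_0_1_rl : Tr := (xa (xb (xa (xc (xb T0.l1 T0.l1) T0.l1) (xc (xb T0.l1 T0.l1) T0.l1)) (xa (xc (xb T0.l1 T0.l1) (xb T0.l1 T0.l1)) (xc (xb T0.l1 T0.l1) (xb T0.l1 T0.l1)))) (xb (xa (xc (xb T0.l1 T0.l1) (xb T0.l1 T0.l1)) (xc (xb T0.l1 T0.l1) (xb (xa T0.l1 T0.l1) (xa T0.l1 T0.l1)))) (xa (xc (xb T0.l1 T0.l1) (xb T0.l1 T0.l1)) (xc (xb T0.l1 T0.l1) (xb (xa T0.l1 T0.l1) (xa T0.l1 T0.l1))))))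
theorem qc0_0_1_rl : chkTr (tg true false false RT.r3) b0_0 t0 rc0_0_1_rl
  (upd lo Co.b (upd hi Co.a (rc sI cl4 cl4 cl4 b0_0 (I.pos (nat_lit 0) (nat_lit 0))))) = true := by decide +kernel
def rc0_0_1_rr : Tr := (xa (xb (xa (xc (xb T0.l1 T0.l1) (xb T0.l1 T0.l1)) (xc (xb T0.l1 T0.l1) (xb T0.l1 T0.l1))) (xa (xc (xb T0.l1 (xa T0.l1 T0.l1)) (xb (xa T0.l1 T0.l1) (xa (xc T0.l1 T0.l1) (xc T0.l1 T0.l1)))) (xc (xb T0.l1 (xa T0.l1 T0.l1)) (xb (xa T0.l1 T0.l1) (xa (xc T0.l1 T0.l1) (xc T0.l1 T0.l1)))))) (xb (xa (xc (xb T0.l1 T0.l1) (xb T0.l1 T0.l1)) (xc (xb T0.l1 (xa T0.l1 T0.l1)) (xb (xa T0.l1 (xc T0.l1 T0.l1)) (xa T0.l1 (xc T0.l1 T0.l1))))) (xa (xc (xb T0.l1 (xa (xc T0.l1 T0.l1) (xc T0.l1 T0.l1))) (xb (xa T0.l1 T0.l1) (xa (xc T0.l1 T0.l1) (xc T0.l1 T0.l1)))) (xc (xb (xa T0.l1 T0.l1) (xa (xc T0.l1 T0.l1) (xc (xb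 T0.l1 T0.l1) (xb T0.l1 T0.l1)))) (xb (xa (xc T0.l1 T0.l1) (xc T0.l1 (xb T0.l1 T0.l1))) (xa (xc T0.l1 T0.l1) (xc (xb T0.l1 T0.l1) (xb T0.l1 T0.l1))))))))
theorem qc0_0_1_rr : chkTr (tg true false false RT.r3) b0_0 t0 rc0_0_1_rr
  (upd hi Co.b (upd hi Co.a (rc sI cl4 cl4 cl4 b0_0 (I.pos (nat_lit 0) (nat_lit 0))))) = true := by decide +kernel
theorem qc0_0_1_r : chkTr (tg true false false RT.r3) b0_0 t0 (Tr.N Co.b rc0_0_1_rl rc0_0_1_rr)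
  (upd hi Co.a (rc sI cl4 cl4 cl4 b0_0 (I.pos (nat_lit 0) (nat_lit 0)))) = true := tr_split qc0_0_1_rl qc0_0_1_rr
theorem qc0_0_1_ : chkTr (tg true false false RT.r3) b0_0 t0 (Tr.N Co.a (Tr.N Co.b rc0_0_1_ll rc0_0_1_lr) (Tr.N Co.b rc0_0_1_rl rc0_0_1_rr))
  (rc sI cl4 cl4 cl4 b0_0 (I.pos (nat_lit 0) (nat_lit 0))) = true := tr_split qc0_0_1_l qc0_0_1_r
theorem c0_0_1 : chkTag sI cl4 cl4 cl4 t0 b0_0 (tg true false false RT.r3) (I.pos (nat_lit 0) (nat_lit 0))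
  (Tr.N Co.a (Tr.N Co.b rc0_0_1_ll rc0_0_1_lr) (Tr.N Co.b rc0_0_1_rl rc0_0_1_rr)) = true := tag_mk (by decide +kernel) qc0_0_1_
theorem c0_0_2 : chkTag sI cl4 cl4 cl4 t0 b0_0 (tg true true true RT.r4) (I.pos (nat_lit 0) (nat_lit 0))
  (xa (xb (xa (xc (xb (xc (xa T0.l2 T0.l2) (xa T0.l2 T0.l2)) T0.l2) (xb (xc (xa T0.l2 T0.l2) (xa T0.l2 T0.l2)) T0.l2)) (xc (xb T0.l2 T0.l2) (xb T0.l2 T0.l2))) (xc (xa T0.l2 T0.l2) (xa (xb T0.l2 (xc T0.l2 (xa T0.l2 T0.l2))) T0.l2))) (xb (xa (xc (xb (xa T0.l2 T0.l2) T0.l2) (xb (xa T0.l2 T0.l2) T0.l2)) (xc (xb (xa (xc T0.l2 T0.l2) (xc T0.l2 T0.l2)) (xa T0.l2 (xc T0.l2 T0.l2))) (xb (xa T0.l2 (xc T0.l2 T0.l2)) (xa T0.l2 (xc T0.l2 T0.l2))))) (xa (xc (xb T0.l2 (xa T0.l2 T0.l2)) (xb T0.l2 (xa T0.l2 T0.l2))) (xc (xb (xa (xc T0.l2 T0.l2) (xc T0.l2 T0.l2)) (xa (xc T0.l2 T0.l2) (xc (xb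 T0.l2 T0.l2) (xb T0.l2 T0.l2)))) (xb (xa T0.l2 (xc T0.l2 T0.l2)) (xa (xc T0.l2 T0.l2) (xc (xb T0.l2 T0.l2) (xb T0.l2 T0.l2)))))))) = true := by decide +kernel
def rc0_0_3_l : Tr := (xb (xa (xb (xc (xa (xb T0.l3 T0.l3) (xb T0.l3 T0.l3)) (xa (xb T0.l3 T0.l3) (xb T0.l3 T0.l3))) (xc T0.l3 T0.l3)) (xb (xc (xa (xb T0.l3 T0.l3) (xb T0.l3 T0.l3)) (xa (xb T0.l3 T0.l3) (xb T0.l3 T0.l3))) (xc T0.l3 T0.l3))) (xa (xb T0.l3 (xa (xc (xb T0.l3 T0.l3) (xb T0.l3 T0.l3)) T0.l3)) (xb (xa T0.l3 T0.l3) (xa (xc T0.l3 T0.l3) (xc T0.l3 (xb T0.l3 T0.l3))))))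
theorem qc0_0_3_l : chkTr (tg false false false RT.r3) b0_0 t0 rc0_0_3_l
  (upd lo Co.a (rc sI cl4 cl4 cl4 b0_0 (I.pos (nat_lit 0) (nat_lit 0)))) = true := by decide +kernel
def rc0_0_3_rl : Tr := (xa (xb (xa (xc (xb (xa T0.l3 T0.l3) T0.l3) (xb (xa T0.l3 T0.l3) T0.l3)) (xc (xb (xa T0.l3 T0.l3) T0.l3) (xb (xa T0.l3 T0.l3) T0.l3))) (xa (xc T0.l3 T0.l3) (xc (xb T0.l3 T0.l3) (xb T0.l3 T0.l3)))) (xb (xa (xc (xb (xa T0.l3 T0.l3) T0.l3) (xb (xa T0.l3 T0.l3) (xa T0.l3 T0.l3))) (xc (xb (xa T0.l3 (xc T0.l3 T0.l3)) (xa T0.l3 (xc T0.l3 T0.l3))) (xb (xa T0.l3 (xc T0.l3 T0.l3)) (xa T0.l3 (xc T0.l3 T0.l3))))) (xa (xc (xb T0.l3 (xa T0.l3 T0.l3)) (xb (xa T0.l3 T0.l3) (xa T0.l3 T0.l3))) (xc (xb (xa T0.l3 (xc T0.l3 T0.l3)) (xa (xc T0.l3 T0.l3) (xc (xb T0.l3 T0.l3) (xb T0.l3 T0.l3)))) (xb (xa (xc T0.l3 T0.l3) (xc T0.l3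 T0.l3)) (xa (xc T0.l3 T0.l3) (xc (xb T0.l3 T0.l3) (xb T0.l3 T0.l3))))))))
theorem qc0_0_3_rl : chkTr (tg false false false RT.r3) b0_0 t0 rc0_0_3_rl
  (upd lo Co.b (upd hi Co.a (rc sI cl4 cl4 cl4 b0_0 (I.pos (nat_lit 0) (nat_lit 0))))) = true := by decide +kernel
def rc0_0_3_rrl : Tr := (xb (xa (xc T0.l3 T0.l3) (xc (xb T0.l3 (xb (xa T0.l3 (xc T0.l3 T0.l3)) (xa (xc T0.l3 T0.l3) (xc T0.l3 T0.l3)))) (xb T0.l3 T0.l3))) (xa (xc (xb T0.l3 T0.l3) (xb T0.l3 T0.l3)) (xc (xb T0.l3 (xa T0.l3 T0.l3)) (xb T0.l3 (xa T0.l3 T0.l3)))))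
theorem qc0_0_3_rrl : chkTr (tg false false false RT.r3) b0_0 t0 rc0_0_3_rrl
  (upd lo Co.a (upd hi Co.b (upd hi Co.a (rc sI cl4 cl4 cl4 b0_0 (I.pos (nat_lit 0) (nat_lit 0)))))) = true := by decide +kernel
def rc0_0_3_rrrl : Tr := (xa (xc (xb (xa T0.l3 (xb (xc T0.l3 T0.l3) (xc T0.l3 T0.l3))) (xa T0.l3 (xb (xc (xa T0.l3 T0.l3) (xa T0.l3 T0.l3)) (xc (xa T0.l3 (xb T0.l3 T0.l3)) (xa T0.l3 (xb T0.l3 T0.l3)))))) (xb (xa T0.l3 (xc T0.l3 T0.l3)) (xa T0.l3 (xc T0.l3 T0.l3)))) (xc (xb (xa (xc T0.l3 (xb T0.l3 T0.l3)) (xc (xb T0.l3 (xa T0.l3 T0.l3)) (xb T0.l3 (xa T0.l3 T0.l3)))) (xa (xc T0.l3 T0.l3) (xc (xb T0.l3 (xa (xb T0.l3 T0.l3) (xb (xc T0.l3 T0.l3) (xc T0.l3 T0.l3)))) (xb T0.l3 (xa (xb (xc T0.l3 T0.l3) (xc T0.l3 T0.l3)) (xb (xc T0.l3 T0.l3) (xc T0.l3 T0.l3))))))) (xb (xa (xc T0.l3 T0.l3) (xc (xb T0.l3 (xa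 T0.l3 T0.l3)) (xb T0.l3 T0.l3))) (xa (xc T0.l3 (xb T0.l3 T0.l3)) (xc (xb T0.l3 T0.l3) (xb T0.l3 T0.l3))))))
theorem qc0_0_3_rrrl : chkTr (tg false false false RT.r3) b0_0 t0 rc0_0_3_rrrl
  (upd lo Co.b (upd hi Co.a (upd hi Co.b (upd hi Co.a (rc sI cl4 cl4 cl4 b0_0 (I.pos (nat_lit 0) (nat_lit 0))))))) = true := by decide +kernel
def rc0_0_3_rrrr : Tr := (xa (xc (xb (xa T0.l3 (xb T0.l3 T0.l3)) (xa T0.l3 (xc T0.l3 T0.l3))) (xb (xa T0.l3 (xc T0.l3 T0.l3)) (xa (xc T0.l3 T0.l3) (xc T0.l3 T0.l3)))) (xc (xb (xa (xc (xb T0.l3 T0.l3) (xb T0.l3 T0.l3)) (xc (xb T0.l3 T0.l3) (xb T0.l3 T0.l3))) (xa (xc (xb T0.l3 T0.l3) (xb T0.l3 T0.l3)) (xc (xb T0.l3 T0.l3) (xb T0.l3 T0.l3)))) (xb (xa (xc (xb T0.l3 T0.l3) (xb T0.l3 T0.l3)) (xc (xb T0.l3 T0.l3) (xb T0.l3 T0.l3))) (xa (xc (xb T0.l3 T0.l3) (xb T0.l3 T0.l3)) (xc (xb T0.l3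 T0.l3) (xb T0.l3 (xa T0.l3 T0.l3)))))))
theorem qc0_0_3_rrrr : chkTr (tg false false false RT.r3) b0_0 t0 rc0_0_3_rrrr
  (upd hi Co.b (upd hi Co.a (upd hi Co.b (upd hi Co.a (rc sI cl4 cl4 cl4 b0_0 (I.pos (nat_lit 0) (nat_lit 0))))))) = true := by decide +kernel
theorem qc0_0_3_rrr : chkTr (tg false false false RT.r3) b0_0 t0 (Tr.N Co.b rc0_0_3_rrrl rc0_0_3_rrrr)
  (upd hi Co.a (upd hi Co.b (upd hi Co.a (rc sI cl4 cl4 cl4 b0_0 (I.pos (nat_lit 0) (nat_lit 0)))))) = true := tr_split qc0_0_3_rrrl qc0_0_3_rrrr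
theorem qc0_0_3_rr : chkTr (tg false false false RT.r3) b0_0 t0 (Tr.N Co.a rc0_0_3_rrl (Tr.N Co.b rc0_0_3_rrrl rc0_0_3_rrrr))
  (upd hi Co.b (upd hi Co.a (rc sI cl4 cl4 cl4 b0_0 (I.pos (nat_lit 0) (nat_lit 0))))) = true := tr_split qc0_0_3_rrl qc0_0_3_rrr
theorem qc0_0_3_r : chkTr (tg false false false RT.r3) b0_0 t0 (Tr.N Co.b rc0_0_3_rl (Tr.N Co.a rc0_0_3_rrl (Tr.N Co.b rc0_0_3_rrrl rc0_0_3_rrrr)))
  (upd hi Co.a (rc sI cl4 cl4 cl4 b0_0 (I.pos (nat_lit 0) (nat_lit 0)))) = true := tr_split qc0_0_3_rl qc0_0_3_rr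
theorem qc0_0_3_ : chkTr (tg false false false RT.r3) b0_0 t0 (Tr.N Co.a rc0_0_3_l (Tr.N Co.b rc0_0_3_rl (Tr.N Co.a rc0_0_3_rrl (Tr.N Co.b rc0_0_3_rrrl rc0_0_3_rrrr))))
  (rc sI cl4 cl4 cl4 b0_0 (I.pos (nat_lit 0) (nat_lit 0))) = true := tr_split qc0_0_3_l qc0_0_3_r
theorem c0_0_3 : chkTag sI cl4 cl4 cl4 t0 b0_0 (tg false false false RT.r3) (I.pos (nat_lit 0) (nat_lit 0))
  (Tr.N Co.a rc0_0_3_l (Tr.N Co.b rc0_0_3_rl (Tr.N Co.a rc0_0_3_rrl (Tr.N Co.b rc0_0_3_rrrl rc0_0_3_rrrr)))) = true := tag_mk (by decide +kernel) qc0_0_3_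
theorem c0_0_4 : chkTag sI cl4 cl4 cl4 t0 b0_0 (tg false true false RT.r4) (I.pos (nat_lit 0) (nat_lit 0))
  (xa (xb (xa (xc (xb (xc (xa T0.l4 T0.l4) (xa T0.l4 T0.l4)) T0.l4) (xb (xc (xa T0.l4 T0.l4) (xa T0.l4 T0.l4)) T0.l4)) (xc (xb T0.l4 T0.l4) (xb T0.l4 T0.l4))) (xc (xa T0.l4 T0.l4) (xa (xb T0.l4 (xc T0.l4 (xa T0.l4 T0.l4))) T0.l4))) (xb (xa (xc (xb (xa T0.l4 T0.l4) T0.l4) (xb (xa T0.l4 T0.l4) T0.l4)) (xc (xb (xa (xc T0.l4 T0.l4) (xc T0.l4 T0.l4)) (xa T0.l4 (xc T0.l4 T0.l4))) (xb (xa T0.l4 (xc T0.l4 T0.l4)) (xa T0.l4 (xc T0.l4 T0.l4))))) (xa (xc (xb T0.l4 (xa T0.l4 T0.l4)) (xb T0.l4 (xa T0.l4 T0.l4))) (xc (xb (xa (xc T0.l4 T0.l4) (xc T0.l4 T0.l4)) (xa (xc T0.l4 T0.l4) (xc (xb T0.l4 T0.l4) (xb T0.l4 T0.l4)))) (xb (xa T0.l4 (xc T0.l4 T0.l4)) (xa (xc T0.l4 T0.l4) (xc (xb T0.l4 T0.l4) (xb T0.l4 T0.l4))))))))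 = true := by decide +kernel
def rc0_0_5_ll : Tr := (xa (xb (xc (xa (xb T0.l5 T0.l5) (xb T0.l5 T0.l5)) (xa (xb T0.l5 T0.l5) (xb T0.l5 T0.l5))) (xc (xa (xb T0.l5 (xc T0.l5 T0.l5)) (xb T0.l5 T0.l5)) (xa (xb T0.l5 (xc T0.l5 T0.l5)) (xb T0.l5 T0.l5)))) (xb (xc (xa (xb T0.l5 T0.l5) (xb T0.l5 T0.l5)) (xa (xb T0.l5 T0.l5) (xb T0.l5 T0.l5))) (xc (xa (xb T0.l5 T0.l5) (xb T0.l5 T0.l5)) (xa (xb T0.l5 T0.l5) (xb T0.l5 T0.l5)))))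
theorem qc0_0_5_ll : chkTr (tg false false true RT.r5) b0_0 t0 rc0_0_5_ll
  (upd lo Co.b (upd lo Co.a (rc sI cl4 cl4 cl4 b0_0 (I.pos (nat_lit 0) (nat_lit 0))))) = true := by decide +kernel
def rc0_0_5_lr : Tr := (xa (xb (xc (xa (xb (xc T0.l5 T0.l5) (xc T0.l5 T0.l5)) (xb T0.l5 (xc T0.l5 T0.l5))) (xa (xb (xc T0.l5 T0.l5) (xc T0.l5 (xa T0.l5 T0.l5))) (xb (xc T0.l5 T0.l5) (xc T0.l5 T0.l5)))) (xa (xc (xb (xc T0.l5 T0.l5) (xc (xa T0.l5 T0.l5) (xa T0.l5 T0.l5))) (xb (xc (xa T0.l5 T0.l5) (xa T0.l5 T0.l5)) (xc (xa T0.l5 T0.l5) (xa T0.l5 T0.l5)))) (xc (xb (xc T0.l5 T0.l5) (xc (xa T0.l5 T0.l5) (xa T0.l5 T0.l5))) (xb (xc T0.l5 T0.l5) (xc (xa T0.l5 T0.l5) (xa T0.l5 T0.l5)))))) (xb (xc (xa (xb T0.l5 T0.l5) (xb T0.l5 T0.l5)) (xa (xb T0.l5 T0.l5) (xb T0.l5 T0.l5))) (xc (xa (xb (xa T0.l5 T0.l5) (xa T0.l5 T0.l5)) (xb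 (xa T0.l5 T0.l5) (xa T0.l5 T0.l5))) (xa (xb (xc T0.l5 T0.l5) (xc (xa T0.l5 T0.l5) (xa T0.l5 T0.l5))) (xb (xc T0.l5 T0.l5) (xc T0.l5 (xa T0.l5 T0.l5)))))))
theorem qc0_0_5_lr : chkTr (tg false false true RT.r5) b0_0 t0 rc0_0_5_lr
  (upd hi Co.b (upd lo Co.a (rc sI cl4 cl4 cl4 b0_0 (I.pos (nat_lit 0) (nat_lit 0))))) = true := by decide +kernel
theorem qc0_0_5_l : chkTr (tg false false true RT.r5) b0_0 t0 (Tr.N Co.b rc0_0_5_ll rc0_0_5_lr)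
  (upd lo Co.a (rc sI cl4 cl4 cl4 b0_0 (I.pos (nat_lit 0) (nat_lit 0)))) = true := tr_split qc0_0_5_ll qc0_0_5_lr
def rc0_0_5_rl : Tr := (xa (xb (xa (xc (xb T0.l5 T0.l5) T0.l5) (xc (xb T0.l5 T0.l5) T0.l5)) (xa (xc (xb T0.l5 T0.l5) (xb T0.l5 T0.l5)) (xc (xb T0.l5 T0.l5) (xb T0.l5 T0.l5)))) (xb (xa (xc (xb T0.l5 T0.l5) (xb T0.l5 T0.l5)) (xc (xb T0.l5 T0.l5) (xb (xa T0.l5 T0.l5) (xa T0.l5 T0.l5)))) (xa (xc (xb T0.l5 T0.l5) (xb T0.l5 T0.l5)) (xc (xb T0.l5 T0.l5) (xb (xa T0.l5 T0.l5) (xa T0.l5 T0.l5))))))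
theorem qc0_0_5_rl : chkTr (tg false false true RT.r5) b0_0 t0 rc0_0_5_rl
  (upd lo Co.b (upd hi Co.a (rc sI cl4 cl4 cl4 b0_0 (I.pos (nat_lit 0) (nat_lit 0))))) = true := by decide +kernel
def rc0_0_5_rr : Tr := (xa (xb (xa (xc (xb T0.l5 T0.l5) (xb T0.l5 T0.l5)) (xc (xb T0.l5 T0.l5) (xb T0.l5 T0.l5))) (xa (xc (xb T0.l5 (xa T0.l5 T0.l5)) (xb (xa T0.l5 T0.l5) (xa (xc T0.l5 T0.l5) (xc T0.l5 T0.l5)))) (xc (xb T0.l5 (xa T0.l5 T0.l5)) (xb (xa T0.l5 T0.l5) (xa (xc T0.l5 T0.l5) (xc T0.l5 T0.l5)))))) (xb (xa (xc (xb T0.l5 T0.l5) (xb T0.l5 T0.l5)) (xc (xb T0.l5 (xa T0.l5 T0.l5)) (xb (xa T0.l5 (xc T0.l5 T0.l5)) (xa T0.l5 (xc T0.l5 T0.l5))))) (xa (xc (xb T0.l5 (xa (xc T0.l5 T0.l5) (xc T0.l5 T0.l5))) (xb (xa T0.l5 T0.l5) (xa (xc T0.l5 T0.l5) (xc T0.l5 T0.l5)))) (xc (xb (xa T0.l5 T0.l5) (xa (xc T0.l5 T0.l5) (xc (xb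 T0.l5 T0.l5) (xb T0.l5 T0.l5)))) (xb (xa (xc T0.l5 T0.l5) (xc T0.l5 (xb T0.l5 T0.l5))) (xa (xc T0.l5 T0.l5) (xc (xb T0.l5 T0.l5) (xb T0.l5 T0.l5))))))))
theorem qc0_0_5_rr : chkTr (tg false false true RT.r5) b0_0 t0 rc0_0_5_rr
  (upd hi Co.b (upd hi Co.a (rc sI cl4 cl4 cl4 b0_0 (I.pos (nat_lit 0) (nat_lit 0))))) = true := by decide +kernel
theorem qc0_0_5_r : chkTr (tg false false true RT.r5) b0_0 t0 (Tr.N Co.b rc0_0_5_rl rc0_0_5_rr)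
  (upd hi Co.a (rc sI cl4 cl4 cl4 b0_0 (I.pos (nat_lit 0) (nat_lit 0)))) = true := tr_split qc0_0_5_rl qc0_0_5_rr
theorem qc0_0_5_ : chkTr (tg false false true RT.r5) b0_0 t0 (Tr.N Co.a (Tr.N Co.b rc0_0_5_ll rc0_0_5_lr) (Tr.N Co.b rc0_0_5_rl rc0_0_5_rr))
  (rc sI cl4 cl4 cl4 b0_0 (I.pos (nat_lit 0) (nat_lit 0))) = true := tr_split qc0_0_5_l qc0_0_5_r
theorem c0_0_5 : chkTag sI cl4 cl4 cl4 t0 b0_0 (tg false false true RT.r5) (I.pos (nat_lit 0) (nat_lit 0))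
  (Tr.N Co.a (Tr.N Co.b rc0_0_5_ll rc0_0_5_lr) (Tr.N Co.b rc0_0_5_rl rc0_0_5_rr)) = true := tag_mk (by decide +kernel) qc0_0_5_
theorem bx0_0 : BoxOK sI cl4 cl4 cl4 t0 t0 b0_0 :=
  box_mk' [(tg true true false RT.r2), (tg true false false RT.r3), (tg true true true RT.r4), (tg false false false RT.r3), (tg false true false RT.r4), (tg false false true RT.r5)] rfl (allL_c (ex_mk c0_0_0) (allL_c (ex_mk c0_0_1) (allL_c (ex_mk c0_0_2) (allL_c (ex_mk c0_0_3) (allL_c (ex_mk c0_0_4) (allL_c (ex_mk c0_0_5) allL_n))))))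
theorem c0_1_0 : chkTag sI cl4 cl4 cl4 t0 b0_1 (tg true true false RT.r2) (I.pos (nat_lit 0) (nat_lit 0))
  (xa (xb (xb (xa (xb (xa (xb (xa T0.l6 T0.l6) (xa T0.l6 T0.l6)) (xb (xa T0.l6 T0.l6) (xa T0.l6 T0.l6))) (xa (xb (xa T0.l6 T0.l6) (xa T0.l6 T0.l6)) (xb T0.l6 T0.l6))) (xb (xa (xb (xa T0.l6 T0.l6) T0.l6) (xb T0.l6 T0.l6)) (xa (xb T0.l6 T0.l6) T0.l6))) (xa (xb (xa (xb (xa T0.l6 T0.l6) (xa T0.l6 T0.l6)) T0.l6) (xa (xb (xa T0.l6 T0.l6) T0.l6) T0.l6)) (xb (xa T0.l6 T0.l6) (xa T0.l6 T0.l6)))) (xb (xa (xb (xa (xb T0.l6 T0.l6) T0.l6) (xa (xb T0.l6 T0.l6) T0.l6)) (xb (xa T0.l6 T0.l6) (xa T0.l6 T0.l6))) (xa (xb (xa (xb T0.l6 T0.l6) T0.l6) (xa (xb T0.l6 T0.l6) (xb T0.l6 T0.l6))) (xb (xa T0.l6 T0.l6) (xa (xb T0.l6 T0.l6) (xb T0.l6 T0.l6)))))) (xb (xa (xb (xb (xa (xb T0.l6 T0.l6) (xb T0.l6 T0.l6)) (xa T0.l6 T0.l6))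 (xb (xa T0.l6 T0.l6) T0.l6)) (xb (xa (xb T0.l6 T0.l6) (xb (xa T0.l6 T0.l6) T0.l6)) (xb T0.l6 T0.l6))) (xb (xa (xa T0.l6 (xb T0.l6 T0.l6)) (xa (xb T0.l6 T0.l6) (xb T0.l6 T0.l6))) (xa (xa (xb T0.l6 (xa T0.l6 T0.l6)) (xb T0.l6 (xa T0.l6 T0.l6))) (xa (xb T0.l6 (xa T0.l20 T0.l20)) (xb T0.l20 T0.l20)))))) = true := by decide +kernel
theorem c0_1_1 : chkTag sI cl4 cl4 cl4 t0 b0_1 (tg true false false RT.r3) (I.pos (nat_lit 0) (nat_lit 0))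
  (xb (xa (xb (xa T0.l7 T0.l7) (xa T0.l7 T0.l7)) (xb (xa T0.l7 T0.l24) (xa T0.l7 T0.l7))) (xa (xb (xa T0.l7 T0.l7) (xa T0.l24 T0.l7)) (xb (xa T0.l7 T0.l7) (xa T0.l7 T0.l7)))) = true := by decide +kernel
theorem c0_1_2 : chkTag sI cl4 cl4 cl4 t0 b0_1 (tg true true true RT.r4) (I.pos (nat_lit 0) (nat_lit 0))
  (xb (xa (xb (xc T0.l8 T0.l8) T0.l8) (xc (xb T0.l25 T0.l8) (xb T0.l25 T0.l8))) (xa (xb T0.l8 T0.l8) (xc (xb T0.l8 T0.l8) T0.l8))) = true := by decide +kernel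
theorem c0_1_3 : chkTag sI cl4 cl4 cl4 t0 b0_1 (tg false false false RT.r3) (I.pos (nat_lit 0) (nat_lit 0))
  (xb (xa (xb (xa T0.l9 T0.l9) (xa T0.l9 T0.l9)) (xb (xa T0.l9 (xb T0.l9 T0.l9)) (xa T0.l9 (xb T0.l9 T0.l9)))) (xa (xb (xa T0.l9 T0.l9) (xa T0.l9 T0.l9)) (xb (xa T0.l9 T0.l9) (xa T0.l9 T0.l9)))) = true := by decide +kernel
theorem c0_1_4 : chkTag sI cl4 cl4 cl4 t0 b0_1 (tg false true false RT.r4) (I.pos (nat_lit 0) (nat_lit 0))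
  (xb (xa (xb (xc T0.l10 T0.l10) T0.l10) (xc (xb T0.l10 T0.l10) (xb T0.l10 T0.l10))) (xa (xb T0.l10 T0.l10) (xc (xb T0.l10 T0.l10) T0.l10))) = true := by decide +kernel
theorem c0_1_5 : chkTag sI cl4 cl4 cl4 t0 b0_1 (tg false false true RT.r5) (I.pos (nat_lit 0) (nat_lit 0))
  (xb (xa (xb (xa T0.l11 T0.l11) (xa T0.l11 T0.l11)) (xb (xa T0.l11 T0.l11) (xa T0.l11 T0.l11))) (xa (xb (xa T0.l11 T0.l11) (xa T0.l11 T0.l11)) (xb (xa T0.l11 T0.l11) (xa T0.l11 T0.l11)))) = true := by decide +kernel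
theorem bx0_1 : BoxOK sI cl4 cl4 cl4 t0 t0 b0_1 :=
  box_mk' [(tg true true false RT.r2), (tg true false false RT.r3), (tg true true true RT.r4), (tg false false false RT.r3), (tg false true false RT.r4), (tg false false true RT.r5)] rfl (allL_c (ex_mk c0_1_0) (allL_c (ex_mk c0_1_1) (allL_c (ex_mk c0_1_2) (allL_c (ex_mk c0_1_3) (allL_c (ex_mk c0_1_4) (allL_c (ex_mk c0_1_5) allL_n))))))
theorem bx0_2 : BoxOK sI cl4 cl4 cl4 t0 t0 b0_2 :=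
  box_mk (TrL.c (I.pos (nat_lit 0) (nat_lit 0)) (xb (xa (xb (xa T0.l12 T0.l12) T0.l12) (xb (xa T0.l12 T0.l34) (xa T0.l12 T0.l12))) (xa (xb T0.l12 (xa T0.l12 T0.l12)) (xb (xa T0.l12 T0.l12) (xa T0.l12 T0.l12))))
  (TrL.c (I.pos (nat_lit 0) (nat_lit 0)) (xb (xa (xb T0.l35 T0.l13) T0.l35) (xa (xb T0.l35 T0.l35) (xb T0.l13 T0.l35)))
  TrL.n)) (by decide +kernel)
def rc0_3_0_l : Tr := (xb (xa (xb (xa (xb (xa (xb (xb (xb (xs T0.l14 (xa (xb T0.l14 T0.l14) T0.l14)) T0.l14) T0.l14) T0.l14) (xb T0.l14 T0.l14)) (xa T0.l14 T0.l14)) (xb (xa T0.l14 T0.l14) (xa T0.l14 T0.l14))) (xa (xb (xa T0.l14 T0.l14) (xa (xb T0.l14 T0.l14) T0.l14)) (xb (xa T0.l14 T0.l14) T0.l14))) (xb (xa (xb (xa T0.l14 T0.l14) (xa T0.l14 T0.l14)) (xb (xa T0.l14 (xc T0.l14 T0.l14)) (xa T0.l14 T0.l14))) (xa (xb (xa T0.l14 T0.l14) (xa T0.l14 T0.l14))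 (xb (xa T0.l14 T0.l14) (xa T0.l14 T0.l14))))) (xa (xb (xb (xa (xa (xb T0.l14 T0.l14) T0.l14) (xa T0.l14 T0.l14)) (xa (xa (xb T0.l14 T0.l14) (xb T0.l14 T0.l14)) (xa (xb T0.l14 T0.l14) T0.l14))) (xa (xb (xb (xa (xc T0.l14 T0.l14) T0.l14) (xa (xc T0.l14 T0.l14) (xc T0.l14 T0.l14))) (xb (xa (xc T0.l14 T0.l14) (xc T0.l14 T0.l14)) (xa (xc T0.l14 T0.l14) (xc T0.l14 T0.l14)))) (xb (xa (xb T0.l14 T0.l14) (xb T0.l14 T0.l14)) (xa (xb T0.l14 (xc T0.l14 T0.l14)) (xb T0.l14 T0.l14))))) (xb (xa (xb (xa T0.l14 T0.l14) (xa T0.l14 T0.l14)) (xb (xa T0.l14 T0.l14) (xa T0.l14 T0.l14))) (xa (xb (xa (xb T0.l14 T0.l14) T0.l14) (xa (xb T0.l14 T0.l14) (xb T0.l14 T0.l14))) (xb (xa T0.l14 T0.l14) (xa (xb T0.l14 T0.l14) (xb T0.l14 (xc T0.l14 T0.l14))))))))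
theorem qc0_3_0_l : chkTr (tg true true false RT.r2) b0_3 t0 rc0_3_0_l
  (upd lo Co.a (rc sI cl4 cl4 cl4 b0_3 (I.pos (nat_lit 0) (nat_lit 0)))) = true := by decide +kernel
def rc0_3_0_rl : Tr := (xa (xb (xa (xb (xa (xc T0.l14 T0.l14) (xb T0.l14 T0.l14)) (xa T0.l14 (xc T0.l14 T0.l14))) (xb (xb (xb (xa T0.l14 T0.l14) (xa T0.l14 T0.l14)) (xb (xa T0.l14 T0.l14) (xa T0.l14 T0.l14))) (xa (xb T0.l14 T0.l14) (xb T0.l14 T0.l14)))) (xa (xb (xa T0.l14 T0.l14) (xa T0.l14 T0.l14)) (xb (xa (xb T0.l14 T0.l14) (xb T0.l14 T0.l14)) (xa (xb T0.l14 T0.l14) T0.l0)))) (xb (xa (xb (xb (xb (xa T0.l14 T0.l14) (xa T0.l14 T0.l14)) (xb (xa T0.l14 T0.l14) (xa T0.l14 T0.l14))) (xb (xb (xa T0.l14 T0.l14) (xa T0.l14 T0.l14)) (xb (xa T0.l14 T0.l14) (xa T0.l14 T0.l14)))) (xb (xb (xb (xa (xb T0.l14 T0.l14) (xb T0.l3 T0.l14)) (xa T0.l14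 (xb T0.l14 T0.l14))) (xb (xa T0.l14 (xb T0.l14 T0.l14)) (xa T0.l14 T0.l14))) (xb (xb (xa T0.l14 T0.l14) (xa T0.l14 T0.l14)) (xb (xa T0.l14 T0.l14) (xa T0.l14 T0.l14))))) (xa (xb (xb (xb (xa T0.l14 T0.l14) (xa T0.l14 T0.l14)) T0.l0) T0.l0) (xb (xb (xb T0.l0 T0.l0) T0.l0) T0.l0))))
theorem qc0_3_0_rl : chkTr (tg true true false RT.r2) b0_3 t0 rc0_3_0_rl
  (upd lo Co.b (upd hi Co.a (rc sI cl4 cl4 cl4 b0_3 (I.pos (nat_lit 0) (nat_lit 0))))) = true := by decide +kernel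
def rc0_3_0_rr : Tr := (xa (xb (xa (xb (xa T0.l14 T0.l14) (xa T0.l14 (xb T0.l14 T0.l14))) (xb (xa (xb T0.l14 T0.l14) T0.l0) (xa (xb T0.l14 T0.l14) T0.l0))) (xa (xb (xa (xb T0.l14 T0.l14) (xb T0.l14 T0.l14)) (xa (xb T0.l14 (xc T0.l14 T0.l14)) (xb T0.l14 (xc T0.l14 (xa T0.l14 T0.l14))))) (xb (xa (xb T0.l14 T0.l14) T0.l0) (xa (xb T0.l14 T0.l0) (xb T0.l14 T0.l0))))) (xb (xa (xb (xa T0.l0 T0.l0) (xa T0.l0 T0.l0)) (xb T0.l0 T0.l0)) (xa (xb (xa T0.l0 T0.l0) (xa T0.l0 T0.l0)) (xb T0.l0 T0.l0))))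
theorem qc0_3_0_rr : chkTr (tg true true false RT.r2) b0_3 t0 rc0_3_0_rr
  (upd hi Co.b (upd hi Co.a (rc sI cl4 cl4 cl4 b0_3 (I.pos (nat_lit 0) (nat_lit 0))))) = true := by decide +kernel
theorem qc0_3_0_r : chkTr (tg true true false RT.r2) b0_3 t0 (Tr.N Co.b rc0_3_0_rl rc0_3_0_rr)
  (upd hi Co.a (rc sI cl4 cl4 cl4 b0_3 (I.pos (nat_lit 0) (nat_lit 0)))) = true := tr_split qc0_3_0_rl qc0_3_0_rr
theorem qc0_3_0_ : chkTr (tg true true false RT.r2) b0_3 t0 (Tr.N Co.a rc0_3_0_l (Tr.N Co.b rc0_3_0_rl rc0_3_0_rr))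
  (rc sI cl4 cl4 cl4 b0_3 (I.pos (nat_lit 0) (nat_lit 0))) = true := tr_split qc0_3_0_l qc0_3_0_r
theorem c0_3_0 : chkTag sI cl4 cl4 cl4 t0 b0_3 (tg true true false RT.r2) (I.pos (nat_lit 0) (nat_lit 0))
  (Tr.N Co.a rc0_3_0_l (Tr.N Co.b rc0_3_0_rl rc0_3_0_rr)) = true := tag_mk (by decide +kernel) qc0_3_0_
theorem c0_3_1 : chkTag sI cl4 cl4 cl4 t0 b0_3 (tg true false false RT.r3) (I.pos (nat_lit 0) (nat_lit 0))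
  (xa (xb (xa (xb (xc T0.l15 T0.l15) (xc (xa T0.l15 T0.l15) (xa T0.l15 T0.l15))) (xb (xc T0.l15 T0.l15) (xc (xa T0.l15 T0.l15) T0.l15))) (xb (xa (xc (xb T0.l15 (xa T0.l15 T0.l15)) (xb T0.l15 (xa T0.l15 T0.l15))) (xc (xa T0.l15 T0.l15) (xa T0.l15 T0.l15))) (xa (xc (xb (xa T0.l15 T0.l15) (xa T0.l15 T0.l15)) (xb (xa T0.l15 T0.l15) (xa T0.l15 T0.l15))) (xc (xa (xb T0.l15 T0.l15) T0.l15) (xa (xb T0.l15 T0.l15) (xb T0.l15 T0.l15)))))) (xb (xa (xb (xc T0.l15 T0.l15) (xc T0.l15 T0.l15)) (xb (xc (xa T0.l15 (xb T0.l15 T0.l15)) (xa T0.l15 (xb T0.l15 T0.l15))) (xc T0.l15 (xa T0.l15 T0.l15)))) (xa (xb (xc (xa T0.l15 T0.l15) (xa T0.l15 T0.l15)) (xc (xa T0.l15 T0.l15) (xa (xb T0.l15 T0.l15) (xb T0.l15 T0.l15)))) (xb (xc (xa T0.l15 T0.l15) (xa T0.l15 T0.l15)) (xc (xa (xb T0.l15 T0.l15) (xb T0.l15 T0.l15)) (xa (xb T0.l15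 T0.l15) (xb T0.l15 T0.l15))))))) = true := by decide +kernel
theorem c0_3_2 : chkTag sI cl4 cl4 cl4 t0 b0_3 (tg true true true RT.r4) (I.pos (nat_lit 0) (nat_lit 0))
  (xa (xb (xc T0.l16 (xa T0.l16 T0.l16)) (xc (xa (xb T0.l16 T0.l16) T0.l2) (xa (xb T0.l16 T0.l16) T0.l2))) (xb (xc (xa T0.l2 (xb T0.l2 T0.l2)) (xa T0.l2 T0.l2)) T0.l2)) = true := by decide +kernel
theorem c0_3_3 : chkTag sI cl4 cl4 cl4 t0 b0_3 (tg false false false RT.r3) (I.pos (nat_lit 0) (nat_lit 0))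
  (xa (xb (xa (xb T0.l17 T0.l17) (xb T0.l17 T0.l17)) (xa (xb T0.l17 (xc (xb T0.l17 T0.l17) (xb T0.l17 T0.l17))) (xb T0.l3 T0.l3))) (xb (xa (xb (xc T0.l17 (xa T0.l17 T0.l17)) (xc T0.l17 (xa T0.l17 T0.l17))) (xb (xc (xa T0.l17 T0.l17) (xa T0.l17 (xb T0.l17 T0.l17))) (xc (xa T0.l17 T0.l17) (xa T0.l17 T0.l3)))) (xa (xb T0.l3 T0.l3) (xb T0.l3 T0.l3)))) = true := by decide +kernel
theorem c0_3_4 : chkTag sI cl4 cl4 cl4 t0 b0_3 (tg false true false RT.r4) (I.pos (nat_lit 0) (nat_lit 0))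
  (xa (xb (xc T0.l18 (xa T0.l18 T0.l18)) (xc (xa (xb T0.l18 T0.l18) T0.l4) (xa (xb T0.l18 T0.l18) T0.l4))) (xb (xc (xa T0.l4 (xb T0.l4 T0.l4)) (xa T0.l4 T0.l4)) T0.l4)) = true := by decide +kernel
theorem c0_3_5 : chkTag sI cl4 cl4 cl4 t0 b0_3 (tg false false true RT.r5) (I.pos (nat_lit 0) (nat_lit 0))
  (xa (xb (xa (xb (xc T0.l19 T0.l19) (xc (xa T0.l19 T0.l19) (xa T0.l19 T0.l19))) (xb (xc T0.l19 T0.l19) (xc (xa T0.l19 T0.l19) T0.l19))) (xb (xa (xc (xb T0.l19 (xa T0.l19 T0.l19)) (xb T0.l19 (xa T0.l19 T0.l19))) (xc (xa T0.l19 T0.l19) (xa T0.l19 T0.l19))) (xa (xc (xb (xa T0.l19 T0.l19) (xa T0.l19 T0.l19)) (xb (xa T0.l19 T0.l19) (xa T0.l19 T0.l19))) (xc (xa (xb T0.l19 T0.l19) T0.l19) (xa (xb T0.l19 T0.l19) (xb T0.l19 T0.l19)))))) (xb (xa (xb (xc T0.l19 T0.l19) (xc T0.l19 T0.l19)) (xb (xc (xa T0.l19 (xb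 T0.l19 T0.l19)) (xa T0.l19 (xb T0.l19 T0.l19))) (xc T0.l19 (xa T0.l19 T0.l19)))) (xa (xb (xc (xa T0.l19 T0.l19) (xa T0.l19 T0.l19)) (xc (xa T0.l19 T0.l19) (xa (xb T0.l19 T0.l19) (xb T0.l19 T0.l19)))) (xb (xc (xa T0.l19 T0.l19) (xa T0.l19 T0.l19)) (xc (xa (xb T0.l19 T0.l19) (xb T0.l19 T0.l19)) (xa (xb T0.l19 T0.l19) (xb T0.l19 T0.l19))))))) = true := by decide +kernel
theorem bx0_3 : BoxOK sI cl4 cl4 cl4 t0 t0 b0_3 :=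
  box_mk' [(tg true true false RT.r2), (tg true false false RT.r3), (tg true true true RT.r4), (tg false false false RT.r3), (tg false true false RT.r4), (tg false false true RT.r5)] rfl (allL_c (ex_mk c0_3_0) (allL_c (ex_mk c0_3_1) (allL_c (ex_mk c0_3_2) (allL_c (ex_mk c0_3_3) (allL_c (ex_mk c0_3_4) (allL_c (ex_mk c0_3_5) allL_n))))))
theorem c0_4_0 : chkTag sI cl4 cl4 cl4 t0 b0_4 (tg true true false RT.r2) (I.pos (nat_lit 0) (nat_lit 0))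
  (xb (xa (xb (xa (xb (xa (xb T0.l20 T0.l20) (xb T0.l20 T0.l20)) (xa (xb T0.l20 T0.l20) T0.l20)) (xb (xa T0.l20 T0.l20) (xa T0.l20 T0.l20))) (xa (xb (xa (xb T0.l20 T0.l20) T0.l20) (xa (xb T0.l20 T0.l20) T0.l20)) (xb (xa T0.l20 T0.l20) (xa T0.l20 T0.l20)))) (xb (xa (xb (xa T0.l6 T0.l6) (xa T0.l20 T0.l20)) (xb (xa T0.l6 (xb T0.l6 T0.l6)) (xa (xb T0.l20 T0.l20) (xb T0.l6 T0.l20)))) (xa (xb T0.l20 T0.l20) (xb (xa T0.l20 T0.l20) T0.l20)))) (xa (xb (xa (xb (xa (xb T0.l20 T0.l20) T0.l20) (xa (xb T0.l20 T0.l20) T0.l20)) (xb (xa T0.l20 T0.l20) (xa T0.l20 T0.l20))) (xa (xb (xa (xb T0.l20 T0.l20) T0.l20) (xa (xb T0.l20 T0.l20) T0.l20)) (xb (xa T0.l20 T0.l20) (xa T0.l20 T0.l20)))) (xb (xa (xb T0.l20 T0.l20) (xb T0.l20 T0.l20)) (xa (xb (xa T0.l20 T0.l20) (xa T0.l20 T0.l20)) (xb (xa T0.l20 T0.l20) (xa T0.l20 T0.l20))))))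 = true := by decide +kernel
theorem c0_4_1 : chkTag sI cl4 cl4 cl4 t0 b0_4 (tg true false false RT.r3) (I.pos (nat_lit 0) (nat_lit 0))
  (xb (xa (xb (xa T0.l12 T0.l12) (xa T0.l12 T0.l12)) (xb (xa T0.l12 T0.l12) T0.l12)) (xa (xb (xa T0.l12 T0.l12) (xa T0.l34 T0.l34)) (xb T0.l12 (xa T0.l34 T0.l12)))) = true := by decide +kernel
theorem c0_4_2 : chkTag sI cl4 cl4 cl4 t0 b0_4 (tg true true true RT.r4) (I.pos (nat_lit 0) (nat_lit 0))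
  (xb (xa (xb T0.l35 T0.l35) (xb T0.l35 T0.l35)) (xa T0.l35 (xb T0.l35 T0.l35))) = true := by decide +kernel
theorem c0_4_3 : chkTag sI cl4 cl4 cl4 t0 b0_4 (tg false false false RT.r3) (I.pos (nat_lit 0) (nat_lit 0))
  (xb (xa (xb (xa T0.l21 T0.l21) (xa T0.l21 T0.l21)) (xb (xa T0.l21 (xb T0.l21 T0.l21)) (xa T0.l21 T0.l21))) (xa (xb (xa T0.l21 T0.l21) (xa T0.l21 T0.l21)) (xb (xa T0.l21 T0.l21) (xa T0.l21 T0.l21)))) = true := by decide +kernel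
theorem c0_4_4 : chkTag sI cl4 cl4 cl4 t0 b0_4 (tg false true false RT.r4) (I.pos (nat_lit 0) (nat_lit 0))
  (xb (xa (xb T0.l22 T0.l22) (xb T0.l22 T0.l22)) (xa (xb T0.l22 T0.l22) (xb T0.l22 T0.l22))) = true := by decide +kernel
theorem c0_4_5 : chkTag sI cl4 cl4 cl4 t0 b0_4 (tg false false true RT.r5) (I.pos (nat_lit 0) (nat_lit 0))
  (xb (xa (xb (xa T0.l23 T0.l23) (xa T0.l23 T0.l23)) (xb (xa T0.l23 T0.l23) T0.l23)) (xa (xb (xa T0.l23 T0.l23) (xa T0.l23 T0.l23)) (xb T0.l23 (xa T0.l23 T0.l23)))) = true := by decide +kernel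
theorem bx0_4 : BoxOK sI cl4 cl4 cl4 t0 t0 b0_4 :=
  box_mk' [(tg true true false RT.r2), (tg true false false RT.r3), (tg true true true RT.r4), (tg false false false RT.r3), (tg false true false RT.r4), (tg false false true RT.r5)] rfl (allL_c (ex_mk c0_4_0) (allL_c (ex_mk c0_4_1) (allL_c (ex_mk c0_4_2) (allL_c (ex_mk c0_4_3) (allL_c (ex_mk c0_4_4) (allL_c (ex_mk c0_4_5) allL_n))))))
theorem bx0_5 : BoxOK sI cl4 cl4 cl4 t0 t0 b0_5 :=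
  box_mk (TrL.c (I.pos (nat_lit 0) (nat_lit 0)) (xb (xa (xb (xa T0.l24 T0.l7) (xa T0.l24 T0.l24)) (xb (xa T0.l7 T0.l24) (xa T0.l24 T0.l24))) (xa (xb (xa T0.l24 T0.l24) (xa T0.l24 T0.l24)) (xb (xa T0.l24 T0.l24) (xa T0.l24 T0.l7))))
  (TrL.c (I.pos (nat_lit 0) (nat_lit 0)) (xb (xa (xc (xb T0.l8 T0.l8) T0.l8) (xb T0.l8 T0.l8)) (xa (xc (xb T0.l8 T0.l25) (xb T0.l8 T0.l25)) (xb T0.l8 (xc T0.l25 T0.l25))))
  TrL.n)) (by decide +kernel)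
theorem bx0_6 : BoxOK sI cl4 cl4 cl4 t0 t0 b0_6 :=
  box_mk (TrL.c (I.pos (nat_lit 0) (nat_lit 0)) (xb (xa T0.l0 T0.l0) (xa T0.l0 T0.l0))
  (TrL.c (I.pos (nat_lit 0) (nat_lit 0)) (xb (xa (xb (xc (xa T0.l1 T0.l1) T0.l1) T0.l1) (xb T0.l1 T0.l1)) T0.l1)
  (TrL.c (I.pos (nat_lit 0) (nat_lit 0)) T0.l2
  (TrL.c (I.pos (nat_lit 0) (nat_lit 0)) (xb (xa (xb (xc T0.l3 T0.l3) T0.l3) T0.l3) T0.l3)
  (TrL.c (I.pos (nat_lit 0) (nat_lit 0)) T0.l4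
  (TrL.c (I.pos (nat_lit 0) (nat_lit 0)) (xb (xa (xb (xc (xa T0.l5 T0.l5) T0.l5) T0.l5) (xb T0.l5 T0.l5)) T0.l5)
  TrL.n)))))) (by decide +kernel)
theorem bx0_7 : BoxOK sI cl4 cl4 cl4 t0 t0 b0_7 :=
  box_mk (TrL.c (I.pos (nat_lit 0) (nat_lit 0)) (xb (xa (xb T0.l6 T0.l6) (xb T0.l6 T0.l6)) (xa (xb (xa T0.l6 T0.l6) (xa (xb T0.l6 T0.l6) (xb T0.l6 T0.l6))) (xb (xa T0.l6 T0.l6) (xa (xb T0.l6 T0.l6) T0.l14))))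
  (TrL.c (I.pos (nat_lit 0) (nat_lit 0)) (xb T0.l7 (xa (xb T0.l7 T0.l7) T0.l7))
  (TrL.c (I.pos (nat_lit 0) (nat_lit 0)) (xb T0.l8 (xa T0.l8 T0.l16))
  (TrL.c (I.pos (nat_lit 0) (nat_lit 0)) (xb T0.l9 (xa T0.l9 T0.l17))
  (TrL.c (I.pos (nat_lit 0) (nat_lit 0)) (xb T0.l10 (xa T0.l10 T0.l18))
  (TrL.c (I.pos (nat_lit 0) (nat_lit 0)) (xb T0.l11 (xa (xb T0.l11 T0.l11) T0.l19))
  TrL.n)))))) (by decide +kernel)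
theorem bx0_8 : BoxOK sI cl4 cl4 cl4 t0 t0 b0_8 :=
  box_mk (TrL.c (I.pos (nat_lit 0) (nat_lit 0)) (xb (xa T0.l12 T0.l12) T0.l12)
  (TrL.c (I.pos (nat_lit 0) (nat_lit 0)) (xb (xa T0.l13 T0.l22) T0.l13)
  TrL.n)) (by decide +kernel)
theorem bx0_9 : BoxOK sI cl4 cl4 cl4 t0 t0 b0_9 :=
  box_mk (TrL.c (I.pos (nat_lit 0) (nat_lit 0)) (xb (xa (xb (xa (xb T0.l14 T0.l14) (xb T0.l14 T0.l14)) (xa T0.l14 T0.l14)) (xb (xa (xb T0.l14 T0.l14) (xb T0.l14 T0.l14)) (xa T0.l14 T0.l14))) (xa (xb T0.l14 T0.l14) (xb T0.l14 T0.l14)))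
  (TrL.c (I.pos (nat_lit 0) (nat_lit 0)) (xb (xa (xb T0.l15 T0.l15) (xb (xa T0.l15 T0.l15) T0.l15)) (xa T0.l15 T0.l15))
  (TrL.c (I.pos (nat_lit 0) (nat_lit 0)) (xb (xa (xc T0.l16 T0.l16) (xc (xb T0.l16 T0.l16) (xb T0.l16 T0.l16))) (xa T0.l16 T0.l16))
  (TrL.c (I.pos (nat_lit 0) (nat_lit 0)) (xb (xa (xb (xa T0.l17 T0.l17) T0.l17) (xb (xa T0.l17 T0.l0) T0.l17)) (xa T0.l17 T0.l17))
  (TrL.c (I.pos (nat_lit 0) (nat_lit 0)) (xb (xa (xc T0.l18 T0.l18) (xc (xb T0.l18 T0.l18) (xb T0.l18 T0.l18))) (xa T0.l18 T0.l18))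
  (TrL.c (I.pos (nat_lit 0) (nat_lit 0)) (xb (xa (xb T0.l19 T0.l19) (xb (xa T0.l19 T0.l19) T0.l19)) (xa T0.l19 T0.l19))
  TrL.n)))))) (by decide +kernel)
theorem bx0_10 : BoxOK sI cl4 cl4 cl4 t0 t0 b0_10 :=
  box_mk (TrL.c (I.pos (nat_lit 0) (nat_lit 0)) (xb (xa (xb T0.l20 T0.l20) T0.l20) (xa T0.l20 (xb T0.l20 (xa T0.l20 T0.l20))))
  (TrL.c (I.pos (nat_lit 0) (nat_lit 0)) (xb T0.l34 (xa T0.l34 T0.l34))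
  (TrL.c (I.pos (nat_lit 0) (nat_lit 0)) (xb T0.l35 (xb T0.l35 T0.l22))
  (TrL.c (I.pos (nat_lit 0) (nat_lit 0)) (xb T0.l21 (xa T0.l21 T0.l21))
  (TrL.c (I.pos (nat_lit 0) (nat_lit 0)) (xb T0.l22 (xb T0.l22 T0.l22))
  (TrL.c (I.pos (nat_lit 0) (nat_lit 0)) (xb T0.l23 (xa T0.l23 T0.l23))
  TrL.n)))))) (by decide +kernel)
theorem bx0_11 : BoxOK sI cl4 cl4 cl4 t0 t0 b0_11 :=
  box_mk (TrL.c (I.pos (nat_lit 0) (nat_lit 0)) (xb (xa T0.l7 T0.l24) T0.l24)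
  (TrL.c (I.pos (nat_lit 0) (nat_lit 0)) (xb (xa T0.l16 T0.l8) T0.l8)
  TrL.n)) (by decide +kernel)
theorem bx0_12 : BoxOK sI cl4 cl4 cl4 t0 t0 b0_12 :=
  box_mk (TrL.c (I.pos (nat_lit 0) (nat_lit 0)) (xb (xa T0.l6 (xa T0.l6 T0.l6)) (xa (xb T0.l6 (xa T0.l6 (xb T0.l6 T0.l6))) T0.l14))
  (TrL.c (I.pos (nat_lit 0) (nat_lit 0)) (xb T0.l7 T0.l15)
  (TrL.c (I.pos (nat_lit 0) (nat_lit 0)) (xb (xa T0.l8 T0.l16) (xa T0.l8 T0.l16))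
  (TrL.c (I.pos (nat_lit 0) (nat_lit 0)) (xb (xa T0.l9 (xb T0.l9 T0.l17)) (xa (xb T0.l9 T0.l9) T0.l17))
  (TrL.c (I.pos (nat_lit 0) (nat_lit 0)) (xb T0.l10 (xa T0.l10 T0.l18))
  (TrL.c (I.pos (nat_lit 0) (nat_lit 0)) (xb (xa T0.l11 T0.l19) T0.l19)
  TrL.n)))))) (by decide +kernel)
theorem bx0_13 : BoxOK sI cl4 cl4 cl4 t0 t0 b0_13 :=
  box_mk (TrL.c (I.pos (nat_lit 0) (nat_lit 0)) (xb (xa T0.l12 T0.l21) T0.l12)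
  (TrL.c (I.pos (nat_lit 0) (nat_lit 0)) (xb T0.l22 T0.l13)
  TrL.n)) (by decide +kernel)
theorem bx0_14 : BoxOK sI cl4 cl4 cl4 t0 t0 b0_14 :=
  box_mk (TrL.c (I.pos (nat_lit 0) (nat_lit 0)) (xb (xa (xb (xa (xb T0.l0 T0.l0) T0.l0) (xa (xb T0.l0 T0.l0) (xb T0.l0 T0.l0))) (xb (xa T0.l0 T0.l0) (xa T0.l0 T0.l0))) (xa (xb (xa (xb (xa T0.l0 T0.l0) (xa T0.l0 T0.l0)) (xb T0.l0 T0.l0)) (xa (xb (xa T0.l0 T0.l0) (xa T0.l0 T0.l0)) (xb T0.l0 (xa T0.l0 T0.l0)))) (xb (xa (xb T0.l0 T0.l0) T0.l0) (xa (xb T0.l0 T0.l0) (xb T0.l0 T0.l0)))))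
  (TrL.c (I.pos (nat_lit 0) (nat_lit 0)) (xb (xa (xb (xa T0.l1 T0.l1) (xa T0.l1 T0.l1)) (xb (xa T0.l1 T0.l1) (xa T0.l1 T0.l1))) (xa (xb (xa T0.l1 T0.l1) (xa (xc T0.l1 T0.l1) (xc T0.l1 T0.l1))) (xb (xa T0.l1 T0.l1) (xa (xc T0.l1 T0.l1) (xc T0.l1 T0.l1)))))
  (TrL.c (I.pos (nat_lit 0) (nat_lit 0)) (xb (xa (xc T0.l2 T0.l2) (xc T0.l2 T0.l2)) (xa T0.l2 (xc T0.l2 T0.l2)))
  (TrL.c (I.pos (nat_lit 0) (nat_lit 0)) (xb (xa (xb (xa T0.l3 T0.l3) T0.l3) (xb (xa (xc T0.l3 T0.l3) (xc T0.l3 T0.l3)) (xa T0.l3 T0.l3))) (xa T0.l3 (xb T0.l3 (xa T0.l3 T0.l3))))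
  (TrL.c (I.pos (nat_lit 0) (nat_lit 0)) (xb (xa (xc T0.l4 T0.l4) (xc T0.l4 T0.l4)) (xa T0.l4 (xc T0.l4 T0.l4)))
  (TrL.c (I.pos (nat_lit 0) (nat_lit 0)) (xb (xa (xb (xa T0.l5 T0.l5) (xa T0.l5 T0.l5)) (xb (xa T0.l5 T0.l5) (xa T0.l5 T0.l5))) (xa (xb (xa T0.l5 T0.l5) (xa (xc T0.l5 T0.l5) (xc T0.l5 T0.l5))) (xb (xa T0.l5 T0.l5) (xa (xc T0.l5 T0.l5) (xc T0.l5 T0.l5)))))
  TrL.n)))))) (by decide +kernel)
theorem bx0_15 : BoxOK sI cl4 cl4 cl4 t0 t0 b0_15 :=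
  box_mk (TrL.c (I.pos (nat_lit 0) (nat_lit 0)) (xb (xa (xb (xa T0.l6 T0.l6) (xa T0.l6 T0.l6)) (xb (xa T0.l6 T0.l6) T0.l6)) (xa (xb (xa T0.l6 T0.l6) (xa (xb T0.l6 T0.l6) (xb T0.l6 T0.l6))) (xb (xa T0.l6 T0.l6) (xa (xb T0.l6 T0.l6) (xb T0.l6 T0.l6)))))
  (TrL.c (I.pos (nat_lit 0) (nat_lit 0)) (xb (xa T0.l7 T0.l7) (xa (xb T0.l7 T0.l7) T0.l7))
  (TrL.c (I.pos (nat_lit 0) (nat_lit 0)) (xb T0.l8 (xa T0.l8 (xb T0.l8 T0.l8)))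
  (TrL.c (I.pos (nat_lit 0) (nat_lit 0)) (xb (xa T0.l9 (xb (xa T0.l9 T0.l9) T0.l9)) (xa T0.l9 (xb T0.l9 T0.l9)))
  (TrL.c (I.pos (nat_lit 0) (nat_lit 0)) (xb T0.l10 (xa T0.l10 (xb T0.l10 T0.l10)))
  (TrL.c (I.pos (nat_lit 0) (nat_lit 0)) (xb (xa T0.l11 T0.l11) (xa (xb T0.l11 T0.l11) T0.l11))
  TrL.n)))))) (by decide +kernel)
theorem bx0_16 : BoxOK sI cl4 cl4 cl4 t0 t0 b0_16 :=
  box_mk (TrL.c (I.pos (nat_lit 0) (nat_lit 0)) T0.l12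
  (TrL.c (I.pos (nat_lit 0) (nat_lit 0)) T0.l13
  TrL.n)) (by decide +kernel)
theorem bx0_17 : BoxOK sI cl4 cl4 cl4 t0 t0 b0_17 :=
  box_mk (TrL.c (I.pos (nat_lit 0) (nat_lit 0)) (xa (xb (xa (xb (xa T0.l14 T0.l14) T0.l14) (xb (xa T0.l14 T0.l14) T0.l14)) (xa (xb T0.l14 T0.l14) (xb T0.l14 T0.l0))) (xb (xa (xb (xb T0.l14 T0.l14) T0.l0) (xb T0.l0 T0.l0)) (xa (xb T0.l0 T0.l0) T0.l0)))
  (TrL.c (I.pos (nat_lit 0) (nat_lit 0)) (xb (xa (xa T0.l15 T0.l15) T0.l1) (xa T0.l15 T0.l1))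
  (TrL.c (I.pos (nat_lit 0) (nat_lit 0)) (xa T0.l16 (xb T0.l16 T0.l16))
  (TrL.c (I.pos (nat_lit 0) (nat_lit 0)) (xb (xa T0.l17 (xa T0.l17 T0.l17)) T0.l17)
  (TrL.c (I.pos (nat_lit 0) (nat_lit 0)) (xa T0.l18 (xb T0.l18 T0.l18))
  (TrL.c (I.pos (nat_lit 0) (nat_lit 0)) (xb (xa (xa T0.l19 T0.l19) T0.l5) (xa T0.l19 T0.l5))
  TrL.n)))))) (by decide +kernel)
theorem bx0_18 : BoxOK sI cl4 cl4 cl4 t0 t0 b0_18 :=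
  box_mk (TrL.c (I.pos (nat_lit 0) (nat_lit 0)) (xb (xa (xb (xa (xb T0.l20 T0.l20) T0.l20) (xa T0.l20 T0.l20)) (xb T0.l20 T0.l20)) (xa (xb (xa T0.l20 T0.l20) (xa T0.l20 T0.l20)) (xb T0.l20 T0.l20)))
  (TrL.c (I.pos (nat_lit 0) (nat_lit 0)) T0.l12
  (TrL.c (I.pos (nat_lit 0) (nat_lit 0)) T0.l35
  (TrL.c (I.pos (nat_lit 0) (nat_lit 0)) T0.l21
  (TrL.c (I.pos (nat_lit 0) (nat_lit 0)) T0.l22
  (TrL.c (I.pos (nat_lit 0) (nat_lit 0)) T0.l23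
  TrL.n)))))) (by decide +kernel)
theorem bx0_19 : BoxOK sI cl4 cl4 cl4 t0 t0 b0_19 :=
  box_mk (TrL.c (I.pos (nat_lit 0) (nat_lit 0)) (xb (xa T0.l24 (xb T0.l24 T0.l24)) (xa T0.l24 T0.l24))
  (TrL.c (I.pos (nat_lit 0) (nat_lit 0)) (xb (xb (xa T0.l8 T0.l8) T0.l8) T0.l8)
  TrL.n)) (by decide +kernel)
theorem bx0_20 : BoxOK sI cl4 cl4 cl4 t0 t0 b0_20 :=
  box_mk (TrL.c (I.pos (nat_lit 0) (nat_lit 0)) (xa (xb T0.l0 T0.l0) (xb (xa T0.l3 T0.l3) (xa T0.l0 T0.l3)))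
  (TrL.c (I.pos (nat_lit 0) (nat_lit 0)) (xa (xb (xa (xb (xc (xa T0.l1 T0.l1) T0.l1) T0.l1) (xb T0.l1 T0.l1)) T0.l1) (xb (xa (xb T0.l1 T0.l1) (xb (xc (xa T0.l1 T0.l1) (xa T0.l1 T0.l1)) (xc (xa T0.l1 T0.l1) T0.l1))) (xa T0.l1 (xb T0.l1 T0.l1))))
  (TrL.c (I.pos (nat_lit 0) (nat_lit 0)) (xa (xc T0.l2 T0.l2) T0.l5)
  (TrL.c (I.pos (nat_lit 0) (nat_lit 0)) (xa (xb (xa (xb T0.l0 T0.l3) (xb (xc T0.l3 T0.l3) T0.l3)) T0.l3) (xb (xa (xb (xc T0.l14 (xa T0.l3 T0.l3)) T0.l3) (xb T0.l14 T0.l3)) (xa T0.l3 (xb T0.l3 (xc T0.l3 T0.l3)))))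
  (TrL.c (I.pos (nat_lit 0) (nat_lit 0)) (xa (xc T0.l4 T0.l4) T0.l1)
  (TrL.c (I.pos (nat_lit 0) (nat_lit 0)) (xa (xb (xa (xb (xc (xa T0.l5 T0.l5) T0.l5) T0.l5) (xb T0.l5 T0.l5)) T0.l5) (xb (xa (xb T0.l5 T0.l5) (xb (xc (xa T0.l5 T0.l5) (xa T0.l5 T0.l5)) (xc (xa T0.l5 T0.l5) T0.l5))) (xa T0.l5 (xb T0.l5 T0.l5))))
  TrL.n)))))) (by decide +kernel)
theorem bx0_21 : BoxOK sI cl4 cl4 cl4 t0 t0 b0_21 :=
  box_mk (TrL.c (I.pos (nat_lit 0) (nat_lit 0)) (xb (xa (xb (xa T0.l6 T0.l6) T0.l6) (xb (xa T0.l14 T0.l14) T0.l14)) (xa (xb (xa T0.l14 T0.l14) T0.l14) T0.l14))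
  (TrL.c (I.pos (nat_lit 0) (nat_lit 0)) (xb (xa (xb (xa T0.l15 T0.l15) T0.l15) (xb T0.l15 T0.l15)) T0.l15)
  (TrL.c (I.pos (nat_lit 0) (nat_lit 0)) (xb (xa T0.l16 T0.l16) T0.l16)
  (TrL.c (I.pos (nat_lit 0) (nat_lit 0)) (xb (xa (xb T0.l9 T0.l17) T0.l17) T0.l17)
  (TrL.c (I.pos (nat_lit 0) (nat_lit 0)) (xb (xa T0.l18 T0.l18) T0.l18)
  (TrL.c (I.pos (nat_lit 0) (nat_lit 0)) (xb (xa (xb (xa T0.l19 T0.l19) T0.l19) (xb T0.l19 T0.l19)) T0.l19)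
  TrL.n)))))) (by decide +kernel)
theorem bx0_22 : BoxOK sI cl4 cl4 cl4 t0 t0 b0_22 :=
  box_mk (TrL.c (I.pos (nat_lit 0) (nat_lit 0)) (xa (xb T0.l20 (xa (xb T0.l20 (xa T0.l20 T0.l20)) T0.l20)) (xb T0.l20 (xa T0.l20 (xb T0.l20 T0.l20))))
  (TrL.c (I.pos (nat_lit 0) (nat_lit 0)) (xb T0.l34 (xa T0.l21 T0.l34))
  (TrL.c (I.pos (nat_lit 0) (nat_lit 0)) (xb T0.l35 T0.l22)
  (TrL.c (I.pos (nat_lit 0) (nat_lit 0)) (xb T0.l21 (xa T0.l12 T0.l21))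
  (TrL.c (I.pos (nat_lit 0) (nat_lit 0)) (xb T0.l22 (xa T0.l22 T0.l22))
  (TrL.c (I.pos (nat_lit 0) (nat_lit 0)) (xb T0.l23 (xa T0.l23 T0.l23))
  TrL.n)))))) (by decide +kernel)
theorem bx0_23 : BoxOK sI cl4 cl4 cl4 t0 t0 b0_23 :=
  box_mk (TrL.c (I.pos (nat_lit 0) (nat_lit 0)) (xa T0.l15 (xb T0.l15 T0.l24))
  (TrL.c (I.pos (nat_lit 0) (nat_lit 0)) (xb (xa T0.l16 T0.l8) (xa T0.l16 T0.l8))
  TrL.n)) (by decide +kernel)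
theorem bx0_24 : BoxOK sI cl4 cl4 cl4 t0 t0 b0_24 :=
  box_mk (TrL.c (I.pos (nat_lit 0) (nat_lit 0)) (xb (xa (xb T0.l6 T0.l6) (xb T0.l6 T0.l6)) (xa (xb (xa T0.l6 T0.l6) (xa (xb T0.l6 T0.l26) (xb T0.l6 T0.l26))) (xb (xa T0.l6 T0.l6) (xa (xb T0.l6 T0.l26) T0.l14))))
  (TrL.c (I.pos (nat_lit 0) (nat_lit 0)) (xb T0.l7 (xa T0.l7 T0.l7))
  (TrL.c (I.pos (nat_lit 0) (nat_lit 0)) (xb T0.l8 (xa T0.l28 T0.l16))
  (TrL.c (I.pos (nat_lit 0) (nat_lit 0)) (xb T0.l9 (xa T0.l9 T0.l17))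
  (TrL.c (I.pos (nat_lit 0) (nat_lit 0)) (xb T0.l10 (xc (xa T0.l10 T0.l18) (xa T0.l10 T0.l18)))
  (TrL.c (I.pos (nat_lit 0) (nat_lit 0)) (xb T0.l11 (xa T0.l11 T0.l19))
  TrL.n)))))) (by decide +kernel)
theorem bx0_25 : BoxOK sI cl4 cl4 cl4 t0 t0 b0_25 :=
  box_mk (TrL.c (I.pos (nat_lit 0) (nat_lit 0)) (xb (xa T0.l32 T0.l12) T0.l12)
  (TrL.c (I.pos (nat_lit 0) (nat_lit 0)) (xb (xb T0.l22 T0.l13) T0.l13)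
  TrL.n)) (by decide +kernel)
theorem bx0_26 : BoxOK sI cl4 cl4 cl4 t0 t0 b0_26 :=
  box_mk (TrL.c (I.pos (nat_lit 0) (nat_lit 0)) T0.l0
  (TrL.c (I.pos (nat_lit 0) (nat_lit 0)) T0.l1
  (TrL.c (I.pos (nat_lit 0) (nat_lit 0)) T0.l2
  (TrL.c (I.pos (nat_lit 0) (nat_lit 0)) T0.l3
  (TrL.c (I.pos (nat_lit 0) (nat_lit 0)) T0.l4
  (TrL.c (I.pos (nat_lit 0) (nat_lit 0)) T0.l5
  TrL.n)))))) (by decide +kernel)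
theorem bx0_27 : BoxOK sI cl4 cl4 cl4 t0 t0 b0_27 :=
  box_mk (TrL.c (I.pos (nat_lit 0) (nat_lit 0)) T0.l6
  (TrL.c (I.pos (nat_lit 0) (nat_lit 0)) T0.l7
  (TrL.c (I.pos (nat_lit 0) (nat_lit 0)) T0.l8
  (TrL.c (I.pos (nat_lit 0) (nat_lit 0)) T0.l9
  (TrL.c (I.pos (nat_lit 0) (nat_lit 0)) T0.l10
  (TrL.c (I.pos (nat_lit 0) (nat_lit 0)) T0.l11
  TrL.n)))))) (by decide +kernel)
theorem bx0_28 : BoxOK sI cl4 cl4 cl4 t0 t0 b0_28 :=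
  box_mk (TrL.c (I.pos (nat_lit 0) (nat_lit 0)) T0.l12
  (TrL.c (I.pos (nat_lit 0) (nat_lit 0)) T0.l13
  TrL.n)) (by decide +kernel)
theorem bx0_29 : BoxOK sI cl4 cl4 cl4 t0 t0 b0_29 :=
  box_mk (TrL.c (I.pos (nat_lit 0) (nat_lit 0)) T0.l14
  (TrL.c (I.pos (nat_lit 0) (nat_lit 0)) T0.l15
  (TrL.c (I.pos (nat_lit 0) (nat_lit 0)) T0.l16
  (TrL.c (I.pos (nat_lit 0) (nat_lit 0)) T0.l17
  (TrL.c (I.pos (nat_lit 0) (nat_lit 0)) T0.l18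
  (TrL.c (I.pos (nat_lit 0) (nat_lit 0)) T0.l19
  TrL.n)))))) (by decide +kernel)
theorem bx0_30 : BoxOK sI cl4 cl4 cl4 t0 t0 b0_30 :=
  box_mk (TrL.c (I.pos (nat_lit 0) (nat_lit 0)) T0.l20
  (TrL.c (I.pos (nat_lit 0) (nat_lit 0)) T0.l34
  (TrL.c (I.pos (nat_lit 0) (nat_lit 0)) T0.l35
  (TrL.c (I.pos (nat_lit 0) (nat_lit 0)) T0.l21
  (TrL.c (I.pos (nat_lit 0) (nat_lit 0)) T0.l22
  (TrL.c (I.pos (nat_lit 0) (nat_lit 0)) T0.l23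
  TrL.n)))))) (by decide +kernel)
theorem bx0_31 : BoxOK sI cl4 cl4 cl4 t0 t0 b0_31 :=
  box_mk (TrL.c (I.pos (nat_lit 0) (nat_lit 0)) T0.l24
  (TrL.c (I.pos (nat_lit 0) (nat_lit 0)) T0.l25
  TrL.n)) (by decide +kernel)
theorem bx0_32 : BoxOK sI cl4 cl4 cl4 t0 t0 b0_32 :=
  box_mk (TrL.c (I.pos (nat_lit 0) (nat_lit 0)) T0.l6
  (TrL.c (I.pos (nat_lit 0) (nat_lit 0)) T0.l7
  (TrL.c (I.pos (nat_lit 0) (nat_lit 0)) T0.l16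
  (TrL.c (I.pos (nat_lit 0) (nat_lit 0)) T0.l17
  (TrL.c (I.pos (nat_lit 0) (nat_lit 0)) T0.l10
  (TrL.c (I.pos (nat_lit 0) (nat_lit 0)) T0.l11
  TrL.n)))))) (by decide +kernel)
theorem bx0_33 : BoxOK sI cl4 cl4 cl4 t0 t0 b0_33 :=
  box_mk (TrL.c (I.pos (nat_lit 0) (nat_lit 0)) T0.l12
  (TrL.c (I.pos (nat_lit 0) (nat_lit 0)) T0.l13
  TrL.n)) (by decide +kernel)
theorem bx0_34 : BoxOK sI cl4 cl4 cl4 t0 t0 b0_34 :=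
  box_mk (TrL.c (I.pos (nat_lit 0) (nat_lit 0)) (xb (xa T0.l6 (xb T0.l6 T0.l14)) (xa (xb T0.l6 (xa T0.l6 T0.l14)) T0.l14))
  (TrL.c (I.pos (nat_lit 0) (nat_lit 0)) (xb T0.l7 T0.l15)
  (TrL.c (I.pos (nat_lit 0) (nat_lit 0)) (xb (xa T0.l8 T0.l16) T0.l16)
  (TrL.c (I.pos (nat_lit 0) (nat_lit 0)) (xb (xa T0.l9 T0.l17) T0.l17)
  (TrL.c (I.pos (nat_lit 0) (nat_lit 0)) (xb (xa T0.l10 T0.l18) T0.l18)
  (TrL.c (I.pos (nat_lit 0) (nat_lit 0)) (xb (xa T0.l11 T0.l19) T0.l19)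
  TrL.n)))))) (by decide +kernel)
theorem bx0_35 : BoxOK sI cl4 cl4 cl4 t0 t0 b0_35 :=
  box_mk (TrL.c (I.pos (nat_lit 0) (nat_lit 0)) (xb (xa T0.l12 T0.l21) T0.l12)
  (TrL.c (I.pos (nat_lit 0) (nat_lit 0)) (xb T0.l22 T0.l13)
  TrL.n)) (by decide +kernel)
theorem sv0 : StarV sI cl4 cl4 cl4 t0 t0 t0 :=
  (bt_n (bt_n (bt_n (bt_n (bt_n (bt_b bx0_0) (bt_b bx0_1)) (bt_n (bt_b bx0_2) (bt_b bx0_3))) (bt_n (bt_n (bt_b bx0_4) (bt_b bx0_5)) (bt_n (bt_b bx0_6) (bt_n (bt_b bx0_7) (bt_b bx0_8))))) (bt_n (bt_n (bt_n (bt_b bx0_9) (bt_b bx0_10)) (bt_n (bt_b bx0_11) (bt_b bx0_12))) (bt_n (bt_n (bt_b bx0_13) (bt_b bx0_14)) (bt_n (bt_b bx0_15) (bt_n (bt_b bx0_16) (bt_b bx0_17)))))) (bt_n (bt_n (bt_n (bt_n (bt_b bx0_18) (bt_b bx0_19)) (bt_n (bt_b bx0_20) (bt_b bx0_21))) (bt_n (bt_n (bt_b bx0_22) (bt_b bx0_23)) (bt_n (bt_b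 bx0_24) (bt_n (bt_b bx0_25) (bt_b bx0_26))))) (bt_n (bt_n (bt_n (bt_b bx0_27) (bt_b bx0_28)) (bt_n (bt_b bx0_29) (bt_b bx0_30))) (bt_n (bt_n (bt_b bx0_31) (bt_b bx0_32)) (bt_n (bt_b bx0_33) (bt_n (bt_b bx0_34) (bt_b bx0_35)))))))
def S0 : StarD := StarD.mk cl4 cl4 cl4 0 0 t0
def G : List StarD := [S0]
theorem so0 : StarOK sI G S0 :=
  star_mk (by decide) (by decide) rfl rfl rfl rfl rfl rfl (rfl : _ = t0) (rfl : _ = t0)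
  (st_mk (Pth.l (Pth.l (Pth.l (Pth.l (Pth.l Pth.z))))) (nat_lit 420037557) (nat_lit 421019881) (by decide +kernel))
  (st_mk (Pth.l (Pth.l (Pth.l (Pth.l (Pth.l Pth.z))))) (nat_lit 468265449) (nat_lit 469583509) (by decide +kernel))
  (st_mk (Pth.l (Pth.l (Pth.l (Pth.l (Pth.l Pth.z))))) (nat_lit 526621117) (nat_lit 528359536) (by decide +kernel)) sv0
theorem ok : GroupOK (nat_lit 255000576) (nat_lit 261750784) G := grp_mk (allS_c so0 allS_n)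
theorem cov : GCov G cl4 cl4 cl4 := cov_mk
  ⟨0, by decide, rfl, rfl, rfl⟩ ⟨0, by decide, rfl, rfl, rfl⟩ ⟨0, by decide, rfl, rfl, rfl⟩ ⟨0, by decide, rfl, rfl, rfl⟩ ⟨0, by decide, rfl, rfl, rfl⟩ ⟨0, by decide, rfl, rfl, rfl⟩
end Q111_7


end Pool.Agent.Helper6.MONO
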