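import Pool.Agent.Helper6.MONO.Cert.C55

/-!
Certificate data (generated).
-/

set_option autoImplicit false
set_option linter.all false
noncomputable section
namespace Pool.Agent.Helper6.MONO


namespace Q111_8
def sI : I := I.pos (nat_lit 261685248) (nat_lit 265224192)
def b0_0 : Bx := Bx.mk (St.mk (I.pos (nat_lit 115163136) (nat_lit 215302144)) (I.mix (nat_lit 278528) (nat_lit 91668480)) (I.mix (nat_lit 278528) (nat_lit 108625920)) (I.pos (nat_lit 390365184) (nat_lit 530022400)) (I.mix (nat_lit 328318976) (nat_lit 180518912)) (I.mix (nat_lit 159793152) (nat_lit 158171136)) (I.mix (nat_lit 310116352) (nat_lit 281968640)))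
  false (nat_lit 39288501)
def b0_1 : Bx := Bx.mk (St.mk (I.pos (nat_lit 14680064) (nat_lit 76988416)) (I.neg (nat_lit 38797312) (nat_lit 95600640)) (I.neg (nat_lit 23773184) (nat_lit 79495168)) (I.pos (nat_lit 293978112) (nat_lit 343687168)) (I.mix (nat_lit 186482688) (nat_lit 153616384)) (I.mix (nat_lit 142245888) (nat_lit 130793472)) (I.mix (nat_lit 169230336) (nat_lit 141049856)))
  false (nat_lit 92798073)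
def b0_2 : Bx := Bx.mk (St.mk (I.mix (nat_lit 52723712) (nat_lit 6553600)) (I.pos (nat_lit 28278784) (nat_lit 86966272)) (I.neg (nat_lit 45252608) (nat_lit 80117760)) (I.pos (nat_lit 288997376) (nat_lit 317800448)) (I.mix (nat_lit 91193344) (nat_lit 224870400)) (I.mix (nat_lit 178995200) (nat_lit 133808128)) (I.mix (nat_lit 137936896) (nat_lit 67715072)))
  true (nat_lit 0)
def b0_3 : Bx := Bx.mk (St.mk (I.pos (nat_lit 91176960) (nat_lit 163577856)) (I.pos (nat_lit 1916928) (nat_lit 68435968)) (I.pos (nat_lit 17940480) (nat_lit 101564416)) (I.pos (nat_lit 349339648) (nat_lit 448364544)) (I.mix (nat_lit 257818624) (nat_lit 92012544)) (I.mix (nat_lit 239779840) (nat_lit 158793728)) (I.mix (nat_lit 276414464) (nat_lit 265256960)))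
  false (nat_lit 0)
def b0_4 : Bx := Bx.mk (St.mk (I.mix (nat_lit 6553600) (nat_lit 53952512)) (I.neg (nat_lit 28278784) (nat_lit 86966272)) (I.neg (nat_lit 45170688) (nat_lit 80117760)) (I.pos (nat_lit 288997376) (nat_lit 317800448)) (I.mix (nat_lit 224870400) (nat_lit 91176960)) (I.mix (nat_lit 133808128) (nat_lit 178995200)) (I.mix (nat_lit 137936896) (nat_lit 67731456)))
  false (nat_lit 57268680)
def b0_5 : Bx := Bx.mk (St.mk (I.neg (nat_lit 14663680) (nat_lit 76988416)) (I.pos (nat_lit 38797312) (nat_lit 95600640)) (I.neg (nat_lit 23756800) (nat_lit 79527936)) (I.pos (nat_lit 293994496) (nat_lit 343687168)) (I.mix (nat_lit 153632768) (nat_lit 186499072)) (I.mix (nat_lit 130760704) (nat_lit 142229504)) (I.mix (nat_lit 169246720) (nat_lit 141099008)))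
  true (nat_lit 0)
def b0_6 : Bx := Bx.mk (St.mk (I.pos (nat_lit 160858112) (nat_lit 205029376)) (I.mix (nat_lit 19103744) (nat_lit 37208064)) (I.neg (nat_lit 11255808) (nat_lit 111919104)) (I.pos (nat_lit 412811264) (nat_lit 494878720)) (I.mix (nat_lit 221413376) (nat_lit 57032704)) (I.mix (nat_lit 132333568) (nat_lit 125943808)) (I.mix (nat_lit 206667776) (nat_lit 226852864)))
  false (nat_lit 0)
def b0_7 : Bx := Bx.mk (St.mk (I.pos (nat_lit 53264384) (nat_lit 86016000)) (I.mix (nat_lit 40632320) (nat_lit 1458176)) (I.mix (nat_lit 29016064) (nat_lit 5439488)) (I.pos (nat_lit 306298880) (nat_lit 330776576)) (I.mix (nat_lit 155140096) (nat_lit 57180160)) (I.mix (nat_lit 79888384) (nat_lit 99483648)) (I.mix (nat_lit 90062848) (nat_lit 86704128)))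
  false (nat_lit 0)
def b0_8 : Bx := Bx.mk (St.mk (I.neg (nat_lit 8372224) (nat_lit 41058304)) (I.mix (nat_lit 16580608) (nat_lit 25346048)) (I.neg (nat_lit 46006272) (nat_lit 56754176)) (I.pos (nat_lit 285884416) (nat_lit 295141376)) (I.mix (nat_lit 131301376) (nat_lit 65454080)) (I.mix (nat_lit 82935808) (nat_lit 83574784)) (I.mix (nat_lit 38305792) (nat_lit 25968640)))
  true (nat_lit 0)
def b0_9 : Bx := Bx.mk (St.mk (I.pos (nat_lit 108412928) (nat_lit 144654336)) (I.neg (nat_lit 1703936) (nat_lit 51380224)) (I.mix (nat_lit 46022656) (nat_lit 9650176)) (I.pos (nat_lit 350650368) (nat_lit 394477568)) (I.mix (nat_lit 98664448) (nat_lit 138444800)) (I.mix (nat_lit 136183808) (nat_lit 103383040)) (I.mix (nat_lit 159367168) (nat_lit 99106816)))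
  false (nat_lit 0)
def b0_10 : Bx := Bx.mk (St.mk (I.pos (nat_lit 8372224) (nat_lit 41107456)) (I.mix (nat_lit 27049984) (nat_lit 16580608)) (I.neg (nat_lit 46006272) (nat_lit 56721408)) (I.pos (nat_lit 285884416) (nat_lit 295141376)) (I.mix (nat_lit 66322432) (nat_lit 131301376)) (I.mix (nat_lit 83574784) (nat_lit 82935808)) (I.mix (nat_lit 38305792) (nat_lit 25968640)))
  false (nat_lit 0)
def b0_11 : Bx := Bx.mk (St.mk (I.neg (nat_lit 53264384) (nat_lit 86016000)) (I.mix (nat_lit 1458176) (nat_lit 41533440)) (I.mix (nat_lit 30310400) (nat_lit 5439488)) (I.pos (nat_lit 306282496) (nat_lit 330776576)) (I.mix (nat_lit 57180160) (nat_lit 155303936)) (I.mix (nat_lit 99483648) (nat_lit 79872000)) (I.mix (nat_lit 90046464) (nat_lit 86704128)))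
  true (nat_lit 0)
def b0_12 : Bx := Bx.mk (St.mk (I.pos (nat_lit 62013440) (nat_lit 101531648)) (I.mix (nat_lit 36159488) (nat_lit 4276224)) (I.mix (nat_lit 29589504) (nat_lit 6438912)) (I.pos (nat_lit 311541760) (nat_lit 343212032)) (I.mix (nat_lit 126140416) (nat_lit 83623936)) (I.mix (nat_lit 73957376) (nat_lit 105529344)) (I.mix (nat_lit 87326720) (nat_lit 86638592)))
  false (nat_lit 0)
def b0_13 : Bx := Bx.mk (St.mk (I.mix (nat_lit 33947648) (nat_lit 4947968)) (I.mix (nat_lit 20332544) (nat_lit 15597568)) (I.neg (nat_lit 45727744) (nat_lit 51625984)) (I.pos (nat_lit 286097408) (nat_lit 293044224)) (I.mix (nat_lit 107134976) (nat_lit 83968000)) (I.mix (nat_lit 88539136) (nat_lit 70877184)) (I.mix (nat_lit 21757952) (nat_lit 23298048)))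
  true (nat_lit 0)
def b0_14 : Bx := Bx.mk (St.mk (I.pos (nat_lit 147472384) (nat_lit 197951488)) (I.pos (nat_lit 17268736) (nat_lit 83247104)) (I.mix (nat_lit 29507584) (nat_lit 73531392)) (I.pos (nat_lit 412024832) (nat_lit 515948544)) (I.mix (nat_lit 186597376) (nat_lit 141770752)) (I.mix (nat_lit 184893440) (nat_lit 157794304)) (I.mix (nat_lit 370835456) (nat_lit 217169920)))
  false (nat_lit 0)
def b0_15 : Bx := Bx.mk (St.mk (I.pos (nat_lit 42123264) (nat_lit 82690048)) (I.neg (nat_lit 24444928) (nat_lit 81362944)) (I.neg (nat_lit 16859136) (nat_lit 60981248)) (I.pos (nat_lit 303005696) (nat_lit 341458944)) (I.mix (nat_lit 138559488) (nat_lit 123895808)) (I.mix (nat_lit 113688576) (nat_lit 142262272)) (I.mix (nat_lit 120520704) (nat_lit 150732800)))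
  false (nat_lit 32929872)
def b0_16 : Bx := Bx.mk (St.mk (I.mix (nat_lit 42270720) (nat_lit 4145152)) (I.pos (nat_lit 12206080) (nat_lit 61243392)) (I.neg (nat_lit 50380800) (nat_lit 72056832)) (I.pos (nat_lit 286539776) (nat_lit 301875200)) (I.mix (nat_lit 99434496) (nat_lit 158400512)) (I.mix (nat_lit 139870208) (nat_lit 79609856)) (I.mix (nat_lit 72892416) (nat_lit 37978112)))
  true (nat_lit 0)
def b0_17 : Bx := Bx.mk (St.mk (I.pos (nat_lit 96780288) (nat_lit 152731648)) (I.mix (nat_lit 12566528) (nat_lit 37715968)) (I.mix (nat_lit 4407296) (nat_lit 63111168)) (I.pos (nat_lit 348536832) (nat_lit 409780224)) (I.mix (nat_lit 188104704) (nat_lit 113328128)) (I.mix (nat_lit 197492736) (nat_lit 103120896)) (I.mix (nat_lit 207339520) (nat_lit 156762112)))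
  false (nat_lit 14459949)
def b0_18 : Bx := Bx.mk (St.mk (I.mix (nat_lit 4128768) (nat_lit 42270720)) (I.neg (nat_lit 12206080) (nat_lit 61243392)) (I.neg (nat_lit 50380800) (nat_lit 72056832)) (I.pos (nat_lit 286539776) (nat_lit 301875200)) (I.mix (nat_lit 158400512) (nat_lit 99434496)) (I.mix (nat_lit 79609856) (nat_lit 139870208)) (I.mix (nat_lit 72892416) (nat_lit 37978112)))
  false (nat_lit 0)
def b0_19 : Bx := Bx.mk (St.mk (I.neg (nat_lit 42139648) (nat_lit 82706432)) (I.pos (nat_lit 24444928) (nat_lit 81362944)) (I.neg (nat_lit 16859136) (nat_lit 61014016)) (I.pos (nat_lit 303005696) (nat_lit 341458944)) (I.mix (nat_lit 123895808) (nat_lit 138592256)) (I.mix (nat_lit 142278656) (nat_lit 113688576)) (I.mix (nat_lit 120569856) (nat_lit 150732800)))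
  true (nat_lit 0)
def b0_20 : Bx := Bx.mk (St.mk (I.pos (nat_lit 172048384) (nat_lit 231112704)) (I.mix (nat_lit 25001984) (nat_lit 22151168)) (I.neg (nat_lit 39993344) (nat_lit 127664128)) (I.pos (nat_lit 430407680) (nat_lit 548913152)) (I.mix (nat_lit 202620928) (nat_lit 89227264)) (I.mix (nat_lit 146735104) (nat_lit 104628224)) (I.mix (nat_lit 258818048) (nat_lit 201900032)))
  false (nat_lit 0)
def b0_21 : Bx := Bx.mk (St.mk (I.pos (nat_lit 92962816) (nat_lit 134725632)) (I.neg (nat_lit 6094848) (nat_lit 51658752)) (I.neg (nat_lit 1671168) (nat_lit 47120384)) (I.pos (nat_lit 335560704) (nat_lit 380862464)) (I.mix (nat_lit 126582784) (nat_lit 100581376)) (I.mix (nat_lit 130924544) (nat_lit 98222080)) (I.mix (nat_lit 152109056) (nat_lit 81215488)))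
  false (nat_lit 0)
def b0_22 : Bx := Bx.mk (St.mk (I.mix (nat_lit 7421952) (nat_lit 34209792)) (I.mix (nat_lit 15400960) (nat_lit 20348928)) (I.neg (nat_lit 45744128) (nat_lit 51691520)) (I.pos (nat_lit 286146560) (nat_lit 293093376)) (I.mix (nat_lit 85082112) (nat_lit 107397120)) (I.mix (nat_lit 71778304) (nat_lit 89112576)) (I.mix (nat_lit 22003712) (nat_lit 23592960)))
  false (nat_lit 0)
def b0_23 : Bx := Bx.mk (St.mk (I.neg (nat_lit 61685760) (nat_lit 105005056)) (I.mix (nat_lit 4276224) (nat_lit 36257792)) (I.mix (nat_lit 29655040) (nat_lit 6389760)) (I.pos (nat_lit 311312384) (nat_lit 346636288)) (I.mix (nat_lit 83836928) (nat_lit 126418944)) (I.mix (nat_lit 105693184) (nat_lit 74153984)) (I.mix (nat_lit 87457792) (nat_lit 86769664)))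
  true (nat_lit 0)
def b0_24 : Bx := Bx.mk (St.mk (I.pos (nat_lit 53182464) (nat_lit 86278144)) (I.neg (nat_lit 1605632) (nat_lit 43008000)) (I.mix (nat_lit 31735808) (nat_lit 2523136)) (I.pos (nat_lit 306216960) (nat_lit 330563584)) (I.mix (nat_lit 155975680) (nat_lit 57098240)) (I.mix (nat_lit 79839232) (nat_lit 99401728)) (I.mix (nat_lit 90013696) (nat_lit 86687744)))
  false (nat_lit 0)
def b0_25 : Bx := Bx.mk (St.mk (I.neg (nat_lit 8355840) (nat_lit 41893888)) (I.mix (nat_lit 8634368) (nat_lit 27443200)) (I.neg (nat_lit 48545792) (nat_lit 56967168)) (I.pos (nat_lit 286244864) (nat_lit 294846464)) (I.mix (nat_lit 128155648) (nat_lit 66469888)) (I.mix (nat_lit 80101376) (nat_lit 83410944)) (I.mix (nat_lit 38305792) (nat_lit 22970368)))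
  true (nat_lit 0)
def b0_26 : Bx := Bx.mk (St.mk (I.pos (nat_lit 175210496) (nat_lit 202571776)) (I.pos (nat_lit 12091392) (nat_lit 38191104)) (I.neg (nat_lit 13746176) (nat_lit 54657024)) (I.pos (nat_lit 446791680) (nat_lit 490225664)) (I.mix (nat_lit 117751808) (nat_lit 42778624)) (I.mix (nat_lit 76136448) (nat_lit 76251136)) (I.mix (nat_lit 142376960) (nat_lit 130072576)))
  false (nat_lit 0)
def b0_27 : Bx := Bx.mk (St.mk (I.pos (nat_lit 61456384) (nat_lit 81231872)) (I.neg (nat_lit 27475968) (nat_lit 41730048)) (I.neg (nat_lit 17580032) (nat_lit 30687232)) (I.pos (nat_lit 313393152) (nat_lit 328728576)) (I.mix (nat_lit 51855360) (nat_lit 21938176)) (I.mix (nat_lit 32178176) (nat_lit 33980416)) (I.mix (nat_lit 37240832) (nat_lit 29540352)))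
  false (nat_lit 0)
def b0_28 : Bx := Bx.mk (St.mk (I.neg (nat_lit 9699328) (nat_lit 29278208)) (I.pos (nat_lit 8962048) (nat_lit 26935296)) (I.neg (nat_lit 51134464) (nat_lit 57278464)) (I.pos (nat_lit 286932992) (nat_lit 292896768)) (I.mix (nat_lit 48136192) (nat_lit 68698112)) (I.mix (nat_lit 62570496) (nat_lit 46350336)) (I.mix (nat_lit 25493504) (nat_lit 11010048)))
  true (nat_lit 0)
def b0_29 : Bx := Bx.mk (St.mk (I.pos (nat_lit 113131520) (nat_lit 136085504)) (I.mix (nat_lit 22249472) (nat_lit 901120)) (I.mix (nat_lit 12402688) (nat_lit 11649024)) (I.pos (nat_lit 357466112) (nat_lit 383762432)) (I.mix (nat_lit 71139328) (nat_lit 51937280)) (I.mix (nat_lit 67272704) (nat_lit 61767680)) (I.mix (nat_lit 70680576) (nat_lit 65945600)))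
  false (nat_lit 0)
def b0_30 : Bx := Bx.mk (St.mk (I.pos (nat_lit 11960320) (nat_lit 29294592)) (I.neg (nat_lit 6979584) (nat_lit 29229056)) (I.neg (nat_lit 51183616) (nat_lit 57278464)) (I.pos (nat_lit 286932992) (nat_lit 292913152)) (I.mix (nat_lit 68681728) (nat_lit 48152576)) (I.mix (nat_lit 46333952) (nat_lit 62570496)) (I.mix (nat_lit 25493504) (nat_lit 10993664)))
  false (nat_lit 0)
def b0_31 : Bx := Bx.mk (St.mk (I.neg (nat_lit 61440000) (nat_lit 83902464)) (I.pos (nat_lit 22429696) (nat_lit 41730048)) (I.neg (nat_lit 13090816) (nat_lit 30687232)) (I.pos (nat_lit 313393152) (nat_lit 330317824)) (I.mix (nat_lit 52183040) (nat_lit 72024064)) (I.mix (nat_lit 62390272) (nat_lit 45875200)) (I.mix (nat_lit 50315264) (nat_lit 56279040)))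
  true (nat_lit 0)
def b0_32 : Bx := Bx.mk (St.mk (I.pos (nat_lit 83591168) (nat_lit 104333312)) (I.neg (nat_lit 17350656) (nat_lit 31850496)) (I.neg (nat_lit 12025856) (nat_lit 25165824)) (I.pos (nat_lit 327368704) (nat_lit 346013696)) (I.mix (nat_lit 64503808) (nat_lit 36667392)) (I.mix (nat_lit 50020352) (nat_lit 39878656)) (I.mix (nat_lit 56229888) (nat_lit 28966912)))
  false (nat_lit 0)
def b0_33 : Bx := Bx.mk (St.mk (I.mix (nat_lit 14483456) (nat_lit 2719744)) (I.mix (nat_lit 3981312) (nat_lit 12713984)) (I.neg (nat_lit 48201728) (nat_lit 50135040)) (I.pos (nat_lit 286228480) (nat_lit 288473088)) (I.mix (nat_lit 28344320) (nat_lit 26214400)) (I.mix (nat_lit 13107200) (nat_lit 20856832)) (I.mix (nat_lit 5455872) (nat_lit 458752)))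
  true (nat_lit 0)
def b0_34 : Bx := Bx.mk (St.mk (I.pos (nat_lit 61603840) (nat_lit 105349120)) (I.mix (nat_lit 36700160) (nat_lit 4341760)) (I.mix (nat_lit 30113792) (nat_lit 6586368)) (I.pos (nat_lit 311345152) (nat_lit 346963968)) (I.mix (nat_lit 126468096) (nat_lit 83820544)) (I.mix (nat_lit 74153984) (nat_lit 105676800)) (I.mix (nat_lit 87474176) (nat_lit 86786048)))
  false (nat_lit 0)
def b0_35 : Bx := Bx.mk (St.mk (I.mix (nat_lit 34177024) (nat_lit 3784704)) (I.mix (nat_lit 21086208) (nat_lit 15269888)) (I.neg (nat_lit 45973504) (nat_lit 51675136)) (I.pos (nat_lit 286425088) (nat_lit 293060608)) (I.mix (nat_lit 107446272) (nat_lit 85082112)) (I.mix (nat_lit 89112576) (nat_lit 71778304)) (I.mix (nat_lit 22003712) (nat_lit 23642112)))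
  true (nat_lit 0)
def t0 : BTr := (BTr.n (BTr.n (BTr.n (BTr.n (BTr.n (BTr.b b0_0) (BTr.b b0_1)) (BTr.n (BTr.b b0_2) (BTr.b b0_3))) (BTr.n (BTr.n (BTr.b b0_4) (BTr.b b0_5)) (BTr.n (BTr.b b0_6) (BTr.n (BTr.b b0_7) (BTr.b b0_8))))) (BTr.n (BTr.n (BTr.n (BTr.b b0_9) (BTr.b b0_10)) (BTr.n (BTr.b b0_11) (BTr.b b0_12))) (BTr.n (BTr.n (BTr.b b0_13) (BTr.b b0_14)) (BTr.n (BTr.b b0_15) (BTr.n (BTr.b b0_16) (BTr.b b0_17)))))) (BTr.n (BTr.n (BTr.n (BTr.n (BTr.b b0_18) (BTr.b b0_19)) (BTr.n (BTr.b b0_20) (BTr.b b0_21))) (BTr.n (BTr.n (BTr.b b0_22) (BTr.b b0_23)) (BTr.n (BTr.b b0_24) (BTr.n (BTr.b b0_25) (BTr.b b0_26))))) (BTr.n (BTr.n (BTr.n (BTr.b b0_27) (BTr.b b0_28)) (BTr.n (BTr.b b0_29) (BTr.b b0_30))) (BTr.n (BTr.n (BTr.b b0_31) (BTr.b b0_32)) (BTr.n (BTr.b b0_33) (BTr.n (BTr.b b0_34) (BTr.b b0_35)))))))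
namespace T0
def l0 : Tr := Tr.L (Pth.l (Pth.l (Pth.l (Pth.l (Pth.l Pth.z)))))
def l1 : Tr := Tr.L (Pth.l (Pth.l (Pth.l (Pth.l (Pth.r Pth.z)))))
def l2 : Tr := Tr.L (Pth.l (Pth.l (Pth.l (Pth.r (Pth.l Pth.z)))))
def l3 : Tr := Tr.L (Pth.l (Pth.l (Pth.l (Pth.r (Pth.r Pth.z)))))
def l4 : Tr := Tr.L (Pth.l (Pth.l (Pth.r (Pth.l (Pth.l Pth.z)))))
def l5 : Tr := Tr.L (Pth.l (Pth.l (Pth.r (Pth.l (Pth.r Pth.z)))))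
def l6 : Tr := Tr.L (Pth.l (Pth.l (Pth.r (Pth.r (Pth.l Pth.z)))))
def l7 : Tr := Tr.L (Pth.l (Pth.l (Pth.r (Pth.r (Pth.r (Pth.l Pth.z))))))
def l8 : Tr := Tr.L (Pth.l (Pth.l (Pth.r (Pth.r (Pth.r (Pth.r Pth.z))))))
def l9 : Tr := Tr.L (Pth.l (Pth.r (Pth.l (Pth.l (Pth.l Pth.z)))))
def l10 : Tr := Tr.L (Pth.l (Pth.r (Pth.l (Pth.l (Pth.r Pth.z)))))
def l11 : Tr := Tr.L (Pth.l (Pth.r (Pth.l (Pth.r (Pth.l Pth.z)))))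
def l12 : Tr := Tr.L (Pth.l (Pth.r (Pth.l (Pth.r (Pth.r Pth.z)))))
def l13 : Tr := Tr.L (Pth.l (Pth.r (Pth.r (Pth.l (Pth.l Pth.z)))))
def l14 : Tr := Tr.L (Pth.l (Pth.r (Pth.r (Pth.l (Pth.r Pth.z)))))
def l15 : Tr := Tr.L (Pth.l (Pth.r (Pth.r (Pth.r (Pth.l Pth.z)))))
def l16 : Tr := Tr.L (Pth.l (Pth.r (Pth.r (Pth.r (Pth.r (Pth.l Pth.z))))))
def l17 : Tr := Tr.L (Pth.l (Pth.r (Pth.r (Pth.r (Pth.r (Pth.r Pth.z))))))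
def l18 : Tr := Tr.L (Pth.r (Pth.l (Pth.l (Pth.l (Pth.l Pth.z)))))
def l19 : Tr := Tr.L (Pth.r (Pth.l (Pth.l (Pth.l (Pth.r Pth.z)))))
def l20 : Tr := Tr.L (Pth.r (Pth.l (Pth.l (Pth.r (Pth.l Pth.z)))))
def l21 : Tr := Tr.L (Pth.r (Pth.l (Pth.l (Pth.r (Pth.r Pth.z)))))
def l22 : Tr := Tr.L (Pth.r (Pth.l (Pth.r (Pth.l (Pth.l Pth.z)))))
def l23 : Tr := Tr.L (Pth.r (Pth.l (Pth.r (Pth.l (Pth.r Pth.z)))))
def l24 : Tr := Tr.L (Pth.r (Pth.l (Pth.r (Pth.r (Pth.l Pth.z)))))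
def l25 : Tr := Tr.L (Pth.r (Pth.l (Pth.r (Pth.r (Pth.r (Pth.l Pth.z))))))
def l26 : Tr := Tr.L (Pth.r (Pth.l (Pth.r (Pth.r (Pth.r (Pth.r Pth.z))))))
def l27 : Tr := Tr.L (Pth.r (Pth.r (Pth.l (Pth.l (Pth.l Pth.z)))))
def l28 : Tr := Tr.L (Pth.r (Pth.r (Pth.l (Pth.l (Pth.r Pth.z)))))
def l29 : Tr := Tr.L (Pth.r (Pth.r (Pth.l (Pth.r (Pth.l Pth.z)))))
def l30 : Tr := Tr.L (Pth.r (Pth.r (Pth.l (Pth.r (Pth.r Pth.z)))))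
def l31 : Tr := Tr.L (Pth.r (Pth.r (Pth.r (Pth.l (Pth.l Pth.z)))))
def l32 : Tr := Tr.L (Pth.r (Pth.r (Pth.r (Pth.l (Pth.r Pth.z)))))
def l33 : Tr := Tr.L (Pth.r (Pth.r (Pth.r (Pth.r (Pth.l Pth.z)))))
def l34 : Tr := Tr.L (Pth.r (Pth.r (Pth.r (Pth.r (Pth.r (Pth.l Pth.z))))))
def l35 : Tr := Tr.L (Pth.r (Pth.r (Pth.r (Pth.r (Pth.r (Pth.r Pth.z))))))
end T0
def rc0_0_0_ll : Tr := (xa (xb (xa (xb (xa (xb (xc T0.l0 T0.l0) (xc T0.l0 T0.l0)) (xb T0.l0 T0.l0)) (xa (xb (xc T0.l0 T0.l0) (xc T0.l0 T0.l0)) (xb T0.l0 T0.l0))) (xb (xa T0.l0 T0.l0) (xa T0.l0 T0.l0))) (xa (xb (xa (xb (xc T0.l0 T0.l0) (xc T0.l0 T0.l0)) (xb T0.l0 T0.l0)) (xa (xb (xc T0.l0 T0.l0) (xc (xa T0.l0 T0.l0) (xa T0.l0 T0.l0))) (xb T0.l0 T0.l0))) (xb (xa (xb T0.l0 T0.l0) T0.l0) (xa (xb T0.l0 T0.l0) T0.l0)))) (xb (xa (xb T0.l0 T0.l0) (xb T0.l0 T0.l0))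 (xa (xb T0.l0 (xa T0.l0 T0.l0)) (xb T0.l0 (xa T0.l0 T0.l0)))))
theorem qc0_0_0_ll : chkTr (tg true true false RT.r2) b0_0 t0 rc0_0_0_ll
  (upd lo Co.b (upd lo Co.a (rc sI cl4 cl4 cl4 b0_0 (I.pos (nat_lit 0) (nat_lit 0))))) = true := by decide +kernel
def rc0_0_0_lrll : Tr := (xa (xb (xa (xb (xc (xa T0.l0 T0.l0) (xa T0.l0 T0.l0)) (xc (xa T0.l0 T0.l0) (xa T0.l0 T0.l0))) (xb T0.l0 T0.l0)) (xa (xb (xc (xa T0.l0 T0.l0) (xa T0.l0 T0.l0)) (xc (xa T0.l0 T0.l0) (xa T0.l0 T0.l0))) (xb T0.l0 (xc T0.l0 T0.l0)))) (xb (xa (xb T0.l0 T0.l0) (xb T0.l0 T0.l0)) (xa (xb T0.l0 T0.l0) (xb T0.l0 T0.l0))))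
theorem qc0_0_0_lrll : chkTr (tg true true false RT.r2) b0_0 t0 rc0_0_0_lrll
  (upd lo Co.b (upd lo Co.a (upd hi Co.b (upd lo Co.a (rc sI cl4 cl4 cl4 b0_0 (I.pos (nat_lit 0) (nat_lit 0))))))) = true := by decide +kernel
def rc0_0_0_lrlr : Tr := (xa (xb (xa (xb (xc T0.l0 (xa (xb T0.l0 T0.l0) T0.l0)) (xc (xa T0.l0 T0.l0) (xa (xb T0.l0 T0.l0) T0.l0))) (xb (xc T0.l0 T0.l0) (xc (xa T0.l0 T0.l0) T0.l0))) (xa (xb (xc (xa (xb T0.l0 T0.l0) T0.l0) (xa (xb T0.l0 T0.l0) (xb T0.l0 T0.l0))) (xc (xa (xb T0.l0 T0.l0) (xb T0.l0 T0.l0)) (xa (xb T0.l0 T0.l0) (xb T0.l0 T0.l0)))) (xb (xc (xa T0.l0 T0.l0) (xa T0.l0 T0.l0)) (xc (xa (xb T0.l0 T0.l0) (xb T0.l0 T0.l0)) (xa (xb T0.l0 T0.l0) (xb T0.l0 T0.l0)))))) (xb (xa (xb (xc T0.l0 T0.l0) (xc T0.l0 T0.l0)) (xb (xc T0.l0 T0.l0) (xc T0.l0 T0.l0))) (xa (xb (xc (xa T0.l0 T0.l0) (xa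 T0.l0 T0.l0)) (xc (xa (xb T0.l0 T0.l0) (xb T0.l0 T0.l0)) (xa (xb T0.l0 T0.l0) (xb T0.l0 T0.l0)))) (xb (xc (xa T0.l0 T0.l0) (xa T0.l0 T0.l0)) (xc (xa (xb T0.l0 T0.l0) (xb T0.l0 T0.l0)) (xa (xb T0.l0 T0.l0) (xb T0.l0 T0.l0)))))))
theorem qc0_0_0_lrlr : chkTr (tg true true false RT.r2) b0_0 t0 rc0_0_0_lrlr
  (upd hi Co.b (upd lo Co.a (upd hi Co.b (upd lo Co.a (rc sI cl4 cl4 cl4 b0_0 (I.pos (nat_lit 0) (nat_lit 0))))))) = true := by decide +kernel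
theorem qc0_0_0_lrl : chkTr (tg true true false RT.r2) b0_0 t0 (Tr.N Co.b rc0_0_0_lrll rc0_0_0_lrlr)
  (upd lo Co.a (upd hi Co.b (upd lo Co.a (rc sI cl4 cl4 cl4 b0_0 (I.pos (nat_lit 0) (nat_lit 0)))))) = true := tr_split qc0_0_0_lrll qc0_0_0_lrlr
def rc0_0_0_lrr : Tr := (xb (xa (xb (xa T0.l0 T0.l0) (xa (xb T0.l0 T0.l0) (xb T0.l0 T0.l0))) (xb (xa T0.l0 T0.l0) (xa (xb T0.l0 T0.l0) (xb T0.l0 T0.l0)))) (xa (xb (xa (xb (xc T0.l0 T0.l0) (xc T0.l0 T0.l0)) (xb (xc T0.l0 T0.l0) (xc T0.l0 T0.l0))) (xa (xb (xc (xa T0.l0 T0.l0) (xa T0.l0 T0.l0)) (xc (xa T0.l0 T0.l0) (xa (xb T0.l0 T0.l0) (xb T0.l0 T0.l0)))) (xb (xc (xa T0.l0 T0.l0) (xa T0.l0 T0.l0)) (xc (xa T0.l0 T0.l0) (xa (xb T0.l0 T0.l0) (xb T0.l0 T0.l0)))))) (xb (xa (xb (xc T0.l0 T0.l0) (xc T0.l0 T0.l0)) (xb T0.l0 (xc T0.l0 T0.l0))) (xa (xb (xc T0.l0 (xa T0.l0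 T0.l0)) (xc (xa T0.l0 T0.l0) (xa (xb T0.l0 T0.l0) (xb T0.l0 T0.l0)))) (xb (xc T0.l0 (xa T0.l0 T0.l0)) (xc (xa T0.l0 T0.l0) (xa (xb T0.l0 T0.l0) (xb T0.l0 T0.l0))))))))
theorem qc0_0_0_lrr : chkTr (tg true true false RT.r2) b0_0 t0 rc0_0_0_lrr
  (upd hi Co.a (upd hi Co.b (upd lo Co.a (rc sI cl4 cl4 cl4 b0_0 (I.pos (nat_lit 0) (nat_lit 0)))))) = true := by decide +kernel
theorem qc0_0_0_lr : chkTr (tg true true false RT.r2) b0_0 t0 (Tr.N Co.a (Tr.N Co.b rc0_0_0_lrll rc0_0_0_lrlr) rc0_0_0_lrr)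
  (upd hi Co.b (upd lo Co.a (rc sI cl4 cl4 cl4 b0_0 (I.pos (nat_lit 0) (nat_lit 0))))) = true := tr_split qc0_0_0_lrl qc0_0_0_lrr
theorem qc0_0_0_l : chkTr (tg true true false RT.r2) b0_0 t0 (Tr.N Co.b rc0_0_0_ll (Tr.N Co.a (Tr.N Co.b rc0_0_0_lrll rc0_0_0_lrlr) rc0_0_0_lrr))
  (upd lo Co.a (rc sI cl4 cl4 cl4 b0_0 (I.pos (nat_lit 0) (nat_lit 0)))) = true := tr_split qc0_0_0_ll qc0_0_0_lr
def rc0_0_0_rl : Tr := (xa (xb (xa T0.l0 T0.l0) (xa (xb T0.l0 T0.l0) (xb T0.l0 T0.l0))) (xb (xa T0.l0 (xb T0.l0 T0.l0)) (xa (xb T0.l0 T0.l0) (xb (xa T0.l0 T0.l0) (xa T0.l0 T0.l0)))))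
theorem qc0_0_0_rl : chkTr (tg true true false RT.r2) b0_0 t0 rc0_0_0_rl
  (upd lo Co.b (upd hi Co.a (rc sI cl4 cl4 cl4 b0_0 (I.pos (nat_lit 0) (nat_lit 0))))) = true := by decide +kernel
def rc0_0_0_rr : Tr := (xa (xb (xa (xb (xa T0.l0 T0.l0) (xa (xb T0.l0 T0.l0) (xb T0.l0 T0.l0))) (xb (xa T0.l0 T0.l0) (xa (xb T0.l0 T0.l0) (xb T0.l0 T0.l0)))) (xa (xb (xa (xb T0.l0 (xc T0.l0 T0.l0)) (xb T0.l0 (xc T0.l0 T0.l0))) (xa (xb (xc T0.l0 T0.l0) (xc (xa T0.l0 T0.l0) (xa (xb T0.l0 T0.l0) (xb T0.l0 T0.l0)))) (xb (xc T0.l0 T0.l0) (xc T0.l0 (xa (xb T0.l0 T0.l0) (xb T0.l0 T0.l0)))))) (xb (xa (xb T0.l0 T0.l0) (xb T0.l0 T0.l0)) (xa (xb (xc T0.l0 T0.l0) (xc T0.l0 (xa T0.l0 T0.l0))) (xb (xc T0.l0 T0.l0) (xc T0.l0 (xa T0.l0 T0.l0))))))) (xb (xa (xb (xa T0.l0 T0.l0) (xa T0.l0 T0.l0)) (xb (xa T0.l0 (xb T0.l0 T0.l0)) (xa T0.l0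 (xb T0.l0 T0.l0)))) (xa (xb (xa (xb T0.l0 T0.l0) (xb T0.l0 T0.l0)) (xa (xb (xc T0.l0 T0.l0) (xc T0.l0 (xa T0.l0 T0.l0))) (xb T0.l0 (xc T0.l0 (xa T0.l0 T0.l0))))) (xb (xa (xb T0.l0 T0.l0) (xb T0.l0 (xc T0.l0 (xa T0.l0 T0.l0)))) (xa (xb T0.l0 (xc T0.l0 (xa T0.l0 (xb T0.l0 T0.l0)))) (xb (xc T0.l0 (xa T0.l0 (xb T0.l0 T0.l0))) (xc (xa T0.l0 (xb T0.l0 T0.l0)) (xa (xb T0.l0 T0.l0) (xb T0.l0 (xc T0.l0 T0.l0))))))))))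
theorem qc0_0_0_rr : chkTr (tg true true false RT.r2) b0_0 t0 rc0_0_0_rr
  (upd hi Co.b (upd hi Co.a (rc sI cl4 cl4 cl4 b0_0 (I.pos (nat_lit 0) (nat_lit 0))))) = true := by decide +kernel
theorem qc0_0_0_r : chkTr (tg true true false RT.r2) b0_0 t0 (Tr.N Co.b rc0_0_0_rl rc0_0_0_rr)
  (upd hi Co.a (rc sI cl4 cl4 cl4 b0_0 (I.pos (nat_lit 0) (nat_lit 0)))) = true := tr_split qc0_0_0_rl qc0_0_0_rr
theorem qc0_0_0_ : chkTr (tg true true false RT.r2) b0_0 t0 (Tr.N Co.a (Tr.N Co.b rc0_0_0_ll (Tr.N Co.a (Tr.N Co.b rc0_0_0_lrll rc0_0_0_lrlr) rc0_0_0_lrr)) (Tr.N Co.b rc0_0_0_rl rc0_0_0_rr))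
  (rc sI cl4 cl4 cl4 b0_0 (I.pos (nat_lit 0) (nat_lit 0))) = true := tr_split qc0_0_0_l qc0_0_0_r
theorem c0_0_0 : chkTag sI cl4 cl4 cl4 t0 b0_0 (tg true true false RT.r2) (I.pos (nat_lit 0) (nat_lit 0))
  (Tr.N Co.a (Tr.N Co.b rc0_0_0_ll (Tr.N Co.a (Tr.N Co.b rc0_0_0_lrll rc0_0_0_lrlr) rc0_0_0_lrr)) (Tr.N Co.b rc0_0_0_rl rc0_0_0_rr)) = true := tag_mk (by decide +kernel) qc0_0_0_
def rc0_0_1_l : Tr := (xb (xa (xb (xc (xa (xb T0.l1 T0.l1) (xb T0.l1 T0.l1)) (xa (xb T0.l1 T0.l1) (xb T0.l1 T0.l1))) (xc (xa (xb T0.l1 T0.l1) (xb T0.l1 T0.l1)) (xa (xb T0.l1 T0.l1) (xb T0.l1 T0.l1)))) (xb (xc (xa (xb T0.l1 T0.l1) (xb T0.l1 T0.l1)) (xa (xb T0.l1 T0.l1) T0.l1)) (xc (xa (xb T0.l1 T0.l1) (xb T0.l1 T0.l1)) (xa (xb T0.l1 T0.l1) (xb T0.l1 T0.l1))))) (xa (xb (xc (xa (xb (xc T0.l1 T0.l1) (xc T0.l1 T0.l1)) (xb T0.l1 T0.l1))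 (xa (xb (xc T0.l1 T0.l1) (xc T0.l1 T0.l1)) (xb T0.l1 T0.l1))) (xc (xa (xb (xc T0.l1 T0.l1) (xc (xa T0.l1 T0.l1) (xa T0.l1 T0.l1))) (xb (xc T0.l1 T0.l1) (xc T0.l1 (xa T0.l1 T0.l1)))) (xa (xb (xc T0.l1 T0.l1) (xc (xa T0.l1 T0.l1) (xa T0.l1 T0.l1))) (xb (xc T0.l1 T0.l1) (xc (xa T0.l1 T0.l1) (xa T0.l1 T0.l1)))))) (xb (xc (xa (xb T0.l1 T0.l1) (xb T0.l1 T0.l1)) (xa (xb T0.l1 T0.l1) (xb T0.l1 T0.l1))) (xc (xa (xb (xc T0.l1 T0.l1) (xc T0.l1 T0.l1)) (xb T0.l1 (xa T0.l1 T0.l1))) (xa (xb (xc T0.l1 T0.l1) (xc T0.l1 (xa T0.l1 T0.l1))) (xb (xc T0.l1 T0.l1) (xc T0.l1 (xa T0.l1 T0.l1))))))))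
theorem qc0_0_1_l : chkTr (tg true false false RT.r3) b0_0 t0 rc0_0_1_l
  (upd lo Co.a (rc sI cl4 cl4 cl4 b0_0 (I.pos (nat_lit 0) (nat_lit 0)))) = true := by decide +kernel
def rc0_0_1_r : Tr := (xb (xa (xb (xa (xc (xb T0.l1 T0.l1) T0.l1) (xc (xb T0.l1 T0.l1) T0.l1)) (xa (xc (xb T0.l1 T0.l1) (xb T0.l1 T0.l1)) (xc (xb T0.l1 T0.l1) (xb T0.l1 T0.l1)))) (xb (xa (xc (xb T0.l1 T0.l1) (xb T0.l1 T0.l1)) (xc (xb T0.l1 T0.l1) (xb (xa T0.l1 T0.l1) (xa T0.l1 T0.l1)))) (xa (xc (xb T0.l1 T0.l1) (xb T0.l1 T0.l1)) (xc (xb T0.l1 T0.l1) (xb (xa T0.l1 T0.l1) (xa T0.l1 T0.l1)))))) (xa (xb (xa (xc (xb T0.l1 T0.l1) (xb T0.l1 T0.l1)) (xc (xb T0.l1 T0.l1) (xb T0.l1 T0.l1))) (xa (xc (xb T0.l1 (xa T0.l1 T0.l1)) (xb (xc T0.l1 T0.l1) (xa (xc T0.l1 T0.l1) (xc T0.l1 T0.l1)))) (xc (xb T0.l1 (xa T0.l1 T0.l1)) (xb (xa T0.l1 T0.l1) (xa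 (xc T0.l1 T0.l1) (xc T0.l1 T0.l1)))))) (xb (xa (xc (xb T0.l1 T0.l1) (xb T0.l1 T0.l1)) (xc (xb T0.l1 T0.l1) (xb (xa T0.l1 T0.l1) (xa T0.l1 (xc T0.l1 T0.l1))))) (xa (xc (xb T0.l1 (xa T0.l1 (xc T0.l1 T0.l1))) (xb (xa T0.l1 T0.l1) (xa (xc T0.l1 T0.l1) (xc T0.l1 T0.l1)))) (xc (xb (xa T0.l1 T0.l1) (xa (xc T0.l1 T0.l1) (xc T0.l1 T0.l1))) (xb (xa T0.l1 (xc T0.l1 T0.l1)) (xa (xc T0.l1 T0.l1) (xc T0.l1 (xb T0.l1 T0.l1)))))))))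
theorem qc0_0_1_r : chkTr (tg true false false RT.r3) b0_0 t0 rc0_0_1_r
  (upd hi Co.a (rc sI cl4 cl4 cl4 b0_0 (I.pos (nat_lit 0) (nat_lit 0)))) = true := by decide +kernel
theorem qc0_0_1_ : chkTr (tg true false false RT.r3) b0_0 t0 (Tr.N Co.a rc0_0_1_l rc0_0_1_r)
  (rc sI cl4 cl4 cl4 b0_0 (I.pos (nat_lit 0) (nat_lit 0))) = true := tr_split qc0_0_1_l qc0_0_1_r
theorem c0_0_1 : chkTag sI cl4 cl4 cl4 t0 b0_0 (tg true false false RT.r3) (I.pos (nat_lit 0) (nat_lit 0))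
  (Tr.N Co.a rc0_0_1_l rc0_0_1_r) = true := tag_mk (by decide +kernel) qc0_0_1_
theorem c0_0_2 : chkTag sI cl4 cl4 cl4 t0 b0_0 (tg true true true RT.r4) (I.pos (nat_lit 0) (nat_lit 0))
  (xa (xb (xa (xc (xb (xc (xa T0.l2 T0.l2) (xa T0.l2 T0.l2)) T0.l2) (xb (xc (xa T0.l2 T0.l2) (xa T0.l2 T0.l2)) (xc T0.l2 T0.l2))) (xc T0.l2 T0.l2)) (xc (xa T0.l2 T0.l2) (xa (xb T0.l2 (xc (xa T0.l2 T0.l2) (xa T0.l2 T0.l2))) T0.l2))) (xb (xa (xc (xb (xa T0.l2 T0.l2) T0.l2) (xb T0.l2 T0.l2)) (xc (xb (xa T0.l2 T0.l2) (xa T0.l2 (xc T0.l2 T0.l2))) (xb (xa T0.l2 T0.l2) (xa T0.l2 (xc T0.l2 T0.l2))))) (xa (xc (xb T0.l2 T0.l2) (xb T0.l2 (xa T0.l2 T0.l2))) (xc (xb (xa T0.l2 (xc T0.l2 T0.l2)) (xa (xc T0.l2 T0.l2) (xc T0.l2 T0.l2))) (xb (xa T0.l2 (xc T0.l2 T0.l2)) (xa (xc T0.l2 T0.l2) (xc (xb T0.l2 T0.l2) (xb T0.l2 T0.l2)))))))) = true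 := by decide +kernel
def rc0_0_3_l : Tr := (xb (xa (xb (xc (xa (xb (xc T0.l3 T0.l3) T0.l3) (xb (xc T0.l3 T0.l3) T0.l3)) (xa (xb (xc T0.l3 T0.l3) T0.l3) (xb (xc T0.l3 T0.l3) T0.l3))) (xc T0.l3 T0.l3)) (xb (xc (xa (xb (xc T0.l3 T0.l3) T0.l3) (xb (xc (xa T0.l3 T0.l3) T0.l3) T0.l3)) (xa (xb (xc T0.l3 T0.l3) T0.l3) (xb (xc T0.l3 T0.l3) T0.l3))) (xc T0.l3 (xa T0.l3 T0.l3)))) (xa (xb T0.l3 (xa (xc (xb T0.l3 (xc T0.l3 T0.l3)) (xb T0.l3 (xc T0.l3 T0.l3))) (xc T0.l3 T0.l3))) (xb (xc T0.l3 (xa T0.l3 T0.l3)) (xc (xa T0.l3 (xb T0.l3 T0.l3)) (xa (xb T0.l3 T0.l3) (xb T0.l3 T0.l3))))))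
theorem qc0_0_3_l : chkTr (tg false false false RT.r3) b0_0 t0 rc0_0_3_l
  (upd lo Co.a (rc sI cl4 cl4 cl4 b0_0 (I.pos (nat_lit 0) (nat_lit 0)))) = true := by decide +kernel
def rc0_0_3_rl : Tr := (xa (xb (xa (xc (xb (xa T0.l3 T0.l3) T0.l3) (xb (xc T0.l3 T0.l3) T0.l3)) (xc (xb (xa T0.l3 T0.l3) T0.l3) (xb (xa T0.l3 T0.l3) T0.l3))) (xa (xc T0.l3 T0.l3) (xc (xb T0.l3 T0.l3) (xb T0.l3 T0.l3)))) (xb (xa (xc (xb (xa T0.l3 (xc T0.l3 T0.l3)) (xa T0.l3 T0.l3)) (xb (xa T0.l3 T0.l3) (xa T0.l3 T0.l3))) (xc (xb (xa (xc (xb T0.l3 T0.l3) T0.l3) (xc (xb T0.l3 T0.l3) (xb T0.l3 T0.l3))) (xa (xc T0.l3 T0.l3) (xc (xb T0.l3 T0.l3) (xb T0.l3 T0.l3)))) (xb (xa (xc T0.l3 T0.l3) (xc (xb T0.l3 T0.l3) (xb T0.l3 T0.l3))) (xa (xc T0.l3 T0.l3) (xc (xb T0.l3 T0.l3) (xb T0.l3 T0.l3)))))) (xa (xc (xb T0.l3 T0.l3) (xb (xa T0.l3 T0.l3)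 (xa T0.l3 (xc T0.l3 T0.l3)))) (xc (xb (xa (xc T0.l3 T0.l3) (xc (xb T0.l3 T0.l3) (xb T0.l3 T0.l3))) (xa (xc T0.l3 T0.l3) (xc (xb T0.l3 T0.l3) (xb T0.l3 T0.l3)))) (xb (xa (xc T0.l3 T0.l3) (xc (xb T0.l3 T0.l3) (xb T0.l3 T0.l3))) (xa (xc T0.l3 T0.l3) (xc (xb T0.l3 T0.l3) (xb T0.l3 T0.l3))))))))
theorem qc0_0_3_rl : chkTr (tg false false false RT.r3) b0_0 t0 rc0_0_3_rl
  (upd lo Co.b (upd hi Co.a (rc sI cl4 cl4 cl4 b0_0 (I.pos (nat_lit 0) (nat_lit 0))))) = true := by decide +kernel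
def rc0_0_3_rrl : Tr := (xb (xa (xc T0.l3 (xb T0.l3 T0.l3)) (xc (xb T0.l3 T0.l3) (xb T0.l3 T0.l3))) (xa (xc (xb T0.l3 T0.l3) (xb T0.l3 (xa T0.l3 T0.l3))) (xc (xb T0.l3 (xa T0.l3 T0.l3)) (xb (xa T0.l3 T0.l3) (xa (xc T0.l3 T0.l3) (xc T0.l3 T0.l3))))))
theorem qc0_0_3_rrl : chkTr (tg false false false RT.r3) b0_0 t0 rc0_0_3_rrl
  (upd lo Co.a (upd hi Co.b (upd hi Co.a (rc sI cl4 cl4 cl4 b0_0 (I.pos (nat_lit 0) (nat_lit 0)))))) = true := by decide +kernel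
def rc0_0_3_rrr : Tr := (xb (xa (xc (xb (xa T0.l3 T0.l3) (xa T0.l3 T0.l3)) (xb (xa T0.l3 (xc T0.l3 T0.l3)) (xa T0.l3 (xc T0.l3 T0.l3)))) (xc (xb (xa (xc T0.l3 T0.l3) (xc (xb T0.l3 T0.l3) (xb T0.l3 T0.l3))) (xa (xc T0.l3 T0.l3) (xc (xb T0.l3 T0.l3) (xb T0.l3 T0.l3)))) (xb (xa (xc T0.l3 T0.l3) (xc (xb T0.l3 T0.l3) (xb T0.l3 T0.l3))) (xa (xc T0.l3 (xb T0.l3 T0.l3)) (xc (xb T0.l3 T0.l3) (xb T0.l3 T0.l3)))))) (xa (xc (xb (xa T0.l3 T0.l3) (xa (xc T0.l3 T0.l3) (xc T0.l3 T0.l3))) (xb (xa (xc T0.l3 T0.l3) (xc T0.l3 T0.l3)) (xa (xc T0.l3 (xb T0.l3 T0.l3)) (xc (xb T0.l3 T0.l3) (xb T0.l3 T0.l3))))) (xc (xb (xa (xc T0.l3 T0.l3) (xc (xb T0.l3 T0.l3) (xb T0.l3 T0.l3))) (xa (xc T0.l3 (xb T0.l3 T0.l3)) (xc (xb T0.l3 T0.l3) (xb T0.l3 T0.l3)))) (xb (xa (xc (xb T0.l3 T0.l3) (xb T0.l3 T0.l3)) (xc (xb T0.l3 T0.l3) (xb T0.l3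 (xa T0.l3 T0.l3)))) (xa (xc (xb T0.l3 T0.l3) (xb T0.l3 T0.l3)) (xc (xb T0.l3 T0.l3) (xb (xa T0.l3 T0.l3) (xa T0.l3 T0.l3))))))))
theorem qc0_0_3_rrr : chkTr (tg false false false RT.r3) b0_0 t0 rc0_0_3_rrr
  (upd hi Co.a (upd hi Co.b (upd hi Co.a (rc sI cl4 cl4 cl4 b0_0 (I.pos (nat_lit 0) (nat_lit 0)))))) = true := by decide +kernel
theorem qc0_0_3_rr : chkTr (tg false false false RT.r3) b0_0 t0 (Tr.N Co.a rc0_0_3_rrl rc0_0_3_rrr)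
  (upd hi Co.b (upd hi Co.a (rc sI cl4 cl4 cl4 b0_0 (I.pos (nat_lit 0) (nat_lit 0))))) = true := tr_split qc0_0_3_rrl qc0_0_3_rrr
theorem qc0_0_3_r : chkTr (tg false false false RT.r3) b0_0 t0 (Tr.N Co.b rc0_0_3_rl (Tr.N Co.a rc0_0_3_rrl rc0_0_3_rrr))
  (upd hi Co.a (rc sI cl4 cl4 cl4 b0_0 (I.pos (nat_lit 0) (nat_lit 0)))) = true := tr_split qc0_0_3_rl qc0_0_3_rr
theorem qc0_0_3_ : chkTr (tg false false false RT.r3) b0_0 t0 (Tr.N Co.a rc0_0_3_l (Tr.N Co.b rc0_0_3_rl (Tr.N Co.a rc0_0_3_rrl rc0_0_3_rrr)))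
  (rc sI cl4 cl4 cl4 b0_0 (I.pos (nat_lit 0) (nat_lit 0))) = true := tr_split qc0_0_3_l qc0_0_3_r
theorem c0_0_3 : chkTag sI cl4 cl4 cl4 t0 b0_0 (tg false false false RT.r3) (I.pos (nat_lit 0) (nat_lit 0))
  (Tr.N Co.a rc0_0_3_l (Tr.N Co.b rc0_0_3_rl (Tr.N Co.a rc0_0_3_rrl rc0_0_3_rrr))) = true := tag_mk (by decide +kernel) qc0_0_3_
theorem c0_0_4 : chkTag sI cl4 cl4 cl4 t0 b0_0 (tg false true false RT.r4) (I.pos (nat_lit 0) (nat_lit 0))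
  (xa (xb (xa (xc (xb (xc (xa T0.l4 T0.l4) (xa T0.l4 T0.l4)) T0.l4) (xb (xc (xa T0.l4 T0.l4) (xa T0.l4 T0.l4)) (xc T0.l4 T0.l4))) (xc T0.l4 T0.l4)) (xc (xa T0.l4 T0.l4) (xa (xb T0.l4 (xc (xa T0.l4 T0.l4) (xa T0.l4 T0.l4))) T0.l4))) (xb (xa (xc (xb (xa T0.l4 T0.l4) T0.l4) (xb T0.l4 T0.l4)) (xc (xb (xa T0.l4 T0.l4) (xa T0.l4 (xc T0.l4 T0.l4))) (xb (xa T0.l4 T0.l4) (xa T0.l4 (xc T0.l4 T0.l4))))) (xa (xc (xb T0.l4 T0.l4) (xb T0.l4 (xa T0.l4 T0.l4))) (xc (xb (xa T0.l4 (xc T0.l4 T0.l4)) (xa (xc T0.l4 T0.l4) (xc T0.l4 T0.l4))) (xb (xa T0.l4 (xc T0.l4 T0.l4)) (xa (xc T0.l4 T0.l4) (xc (xb T0.l4 T0.l4) (xb T0.l4 T0.l4)))))))) = true := by decide +kernel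
def rc0_0_5_l : Tr := (xb (xa (xb (xc (xa (xb T0.l5 T0.l5) (xb T0.l5 T0.l5)) (xa (xb T0.l5 T0.l5) (xb T0.l5 T0.l5))) (xc (xa (xb T0.l5 T0.l5) (xb T0.l5 T0.l5)) (xa (xb T0.l5 T0.l5) (xb T0.l5 T0.l5)))) (xb (xc (xa (xb T0.l5 T0.l5) (xb T0.l5 T0.l5)) (xa (xb T0.l5 T0.l5) T0.l5)) (xc (xa (xb T0.l5 T0.l5) (xb T0.l5 T0.l5)) (xa (xb T0.l5 T0.l5) (xb T0.l5 T0.l5))))) (xa (xb (xc (xa (xb (xc T0.l5 T0.l5) (xc T0.l5 T0.l5)) (xb T0.l5 T0.l5)) (xa (xb (xc T0.l5 T0.l5) (xc T0.l5 T0.l5)) (xb T0.l5 T0.l5))) (xc (xa (xb (xc T0.l5 T0.l5) (xc (xa T0.l5 T0.l5) (xa T0.l5 T0.l5))) (xb (xc T0.l5 T0.l5) (xc T0.l5 (xa T0.l5 T0.l5)))) (xa (xb (xc T0.l5 T0.l5) (xc (xa T0.l5 T0.l5) (xa T0.l5 T0.l5))) (xb (xc T0.l5 T0.l5) (xc (xa T0.l5 T0.l5) (xa T0.l5 T0.l5)))))) (xb (xc (xa (xb T0.l5 T0.l5) (xb T0.l5 T0.l5)) (xa (xb T0.l5 T0.l5)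 (xb T0.l5 T0.l5))) (xc (xa (xb (xc T0.l5 T0.l5) (xc T0.l5 T0.l5)) (xb T0.l5 (xa T0.l5 T0.l5))) (xa (xb (xc T0.l5 T0.l5) (xc T0.l5 (xa T0.l5 T0.l5))) (xb (xc T0.l5 T0.l5) (xc T0.l5 (xa T0.l5 T0.l5))))))))
theorem qc0_0_5_l : chkTr (tg false false true RT.r5) b0_0 t0 rc0_0_5_l
  (upd lo Co.a (rc sI cl4 cl4 cl4 b0_0 (I.pos (nat_lit 0) (nat_lit 0)))) = true := by decide +kernel
def rc0_0_5_r : Tr := (xb (xa (xb (xa (xc (xb T0.l5 T0.l5) T0.l5) (xc (xb T0.l5 T0.l5) T0.l5)) (xa (xc (xb T0.l5 T0.l5) (xb T0.l5 T0.l5)) (xc (xb T0.l5 T0.l5) (xb T0.l5 T0.l5)))) (xb (xa (xc (xb T0.l5 T0.l5) (xb T0.l5 T0.l5)) (xc (xb T0.l5 T0.l5) (xb (xa T0.l5 T0.l5) (xa T0.l5 T0.l5)))) (xa (xc (xb T0.l5 T0.l5) (xb T0.l5 T0.l5)) (xc (xb T0.l5 T0.l5) (xb (xa T0.l5 T0.l5) (xa T0.l5 T0.l5)))))) (xa (xb (xa (xc (xb T0.l5 T0.l5) (xb T0.l5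 T0.l5)) (xc (xb T0.l5 T0.l5) (xb T0.l5 T0.l5))) (xa (xc (xb T0.l5 (xa T0.l5 T0.l5)) (xb (xc T0.l5 T0.l5) (xa (xc T0.l5 T0.l5) (xc T0.l5 T0.l5)))) (xc (xb T0.l5 (xa T0.l5 T0.l5)) (xb (xa T0.l5 T0.l5) (xa (xc T0.l5 T0.l5) (xc T0.l5 T0.l5)))))) (xb (xa (xc (xb T0.l5 T0.l5) (xb T0.l5 T0.l5)) (xc (xb T0.l5 T0.l5) (xb (xa T0.l5 T0.l5) (xa T0.l5 (xc T0.l5 T0.l5))))) (xa (xc (xb T0.l5 (xa T0.l5 (xc T0.l5 T0.l5))) (xb (xa T0.l5 T0.l5) (xa (xc T0.l5 T0.l5) (xc T0.l5 T0.l5)))) (xc (xb (xa T0.l5 T0.l5) (xa (xc T0.l5 T0.l5) (xc T0.l5 T0.l5))) (xb (xa T0.l5 (xc T0.l5 T0.l5)) (xa (xc T0.l5 T0.l5) (xc T0.l5 (xb T0.l5 T0.l5)))))))))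
theorem qc0_0_5_r : chkTr (tg false false true RT.r5) b0_0 t0 rc0_0_5_r
  (upd hi Co.a (rc sI cl4 cl4 cl4 b0_0 (I.pos (nat_lit 0) (nat_lit 0)))) = true := by decide +kernel
theorem qc0_0_5_ : chkTr (tg false false true RT.r5) b0_0 t0 (Tr.N Co.a rc0_0_5_l rc0_0_5_r)
  (rc sI cl4 cl4 cl4 b0_0 (I.pos (nat_lit 0) (nat_lit 0))) = true := tr_split qc0_0_5_l qc0_0_5_r
theorem c0_0_5 : chkTag sI cl4 cl4 cl4 t0 b0_0 (tg false false true RT.r5) (I.pos (nat_lit 0) (nat_lit 0))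
  (Tr.N Co.a rc0_0_5_l rc0_0_5_r) = true := tag_mk (by decide +kernel) qc0_0_5_
theorem bx0_0 : BoxOK sI cl4 cl4 cl4 t0 t0 b0_0 :=
  box_mk' [(tg true true false RT.r2), (tg true false false RT.r3), (tg true true true RT.r4), (tg false false false RT.r3), (tg false true false RT.r4), (tg false false true RT.r5)] rfl (allL_c (ex_mk c0_0_0) (allL_c (ex_mk c0_0_1) (allL_c (ex_mk c0_0_2) (allL_c (ex_mk c0_0_3) (allL_c (ex_mk c0_0_4) (allL_c (ex_mk c0_0_5) allL_n))))))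
theorem c0_1_0 : chkTag sI cl4 cl4 cl4 t0 b0_1 (tg true true false RT.r2) (I.pos (nat_lit 0) (nat_lit 0))
  (xb (xa (xb (xa (xb (xa (xb T0.l6 T0.l6) (xb T0.l6 T0.l6)) (xa (xb T0.l6 T0.l6) T0.l6)) (xb (xa (xb T0.l6 T0.l6) T0.l6) (xa T0.l6 T0.l6))) (xa (xb (xa (xb T0.l6 T0.l6) T0.l6) (xa (xb T0.l6 T0.l6) T0.l6)) (xb (xa T0.l6 T0.l6) (xa T0.l6 T0.l6)))) (xb (xa (xb (xa T0.l6 T0.l6) (xa T0.l6 T0.l6)) (xa (xb T0.l6 T0.l6) (xb (xb T0.l6 T0.l6) T0.l6))) (xa (xb T0.l6 T0.l6) (xb T0.l6 T0.l6)))) (xa (xb (xa (xb (xa (xb T0.l6 T0.l6) T0.l6) (xa (xb T0.l6 T0.l6) T0.l6)) (xb (xa T0.l6 T0.l6) (xa T0.l6 T0.l6))) (xa (xb (xa (xb T0.l6 T0.l6) T0.l6) (xa (xb T0.l6 T0.l6) (xb T0.l6 T0.l6))) (xb (xa T0.l6 T0.l6) (xa (xb T0.l6 T0.l6) T0.l6)))) (xb (xa (xb T0.l6 T0.l6) (xb T0.l6 T0.l6)) (xa (xb (xa T0.l6 T0.l6) (xa T0.l6 T0.l6))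 (xb (xa T0.l6 T0.l6) (xa T0.l6 T0.l6)))))) = true := by decide +kernel
theorem c0_1_1 : chkTag sI cl4 cl4 cl4 t0 b0_1 (tg true false false RT.r3) (I.pos (nat_lit 0) (nat_lit 0))
  (xb (xa (xb (xa T0.l7 T0.l7) (xa T0.l7 T0.l7)) (xb (xa T0.l7 T0.l24) (xa T0.l7 T0.l7))) (xa (xb (xa T0.l7 T0.l7) (xa T0.l7 T0.l7)) (xb (xa T0.l7 T0.l7) (xa T0.l7 T0.l7)))) = true := by decide +kernel
theorem c0_1_2 : chkTag sI cl4 cl4 cl4 t0 b0_1 (tg true true true RT.r4) (I.pos (nat_lit 0) (nat_lit 0))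
  (xb (xa (xb T0.l8 T0.l8) (xc (xb T0.l8 T0.l8) (xb T0.l8 T0.l8))) (xa (xb T0.l8 T0.l8) (xc (xb T0.l8 T0.l8) T0.l8))) = true := by decide +kernel
theorem c0_1_3 : chkTag sI cl4 cl4 cl4 t0 b0_1 (tg false false false RT.r3) (I.pos (nat_lit 0) (nat_lit 0))
  (xb (xa (xb (xa (xb (xc T0.l9 T0.l9) T0.l9) (xb T0.l9 T0.l9)) (xa T0.l9 T0.l9)) (xb (xa (xb (xc T0.l9 T0.l9) T0.l9) (xb (xc T0.l9 T0.l9) (xc T0.l9 T0.l9))) (xa (xb T0.l9 T0.l9) (xb (xc T0.l9 T0.l9) (xc T0.l9 T0.l9))))) (xa (xb (xa (xb T0.l9 T0.l9) (xb T0.l9 T0.l9)) (xa (xb T0.l9 T0.l9) (xb T0.l9 T0.l9))) (xb (xa (xb T0.l9 T0.l9) (xb (xc T0.l9 T0.l9) (xc T0.l9 T0.l9))) (xa (xb T0.l9 T0.l9) (xb (xc T0.l9 T0.l9) T0.l9))))) = true := by decide +kernel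
theorem c0_1_4 : chkTag sI cl4 cl4 cl4 t0 b0_1 (tg false true false RT.r4) (I.pos (nat_lit 0) (nat_lit 0))
  (xb (xa (xb T0.l10 T0.l10) (xc (xb T0.l10 T0.l10) (xb T0.l10 T0.l10))) (xa (xb T0.l10 T0.l10) (xc (xb T0.l10 T0.l10) T0.l10))) = true := by decide +kernel
theorem c0_1_5 : chkTag sI cl4 cl4 cl4 t0 b0_1 (tg false false true RT.r5) (I.pos (nat_lit 0) (nat_lit 0))
  (xb (xa (xb (xa T0.l11 T0.l11) (xa T0.l11 T0.l11)) (xb (xa T0.l11 T0.l11) (xa T0.l11 T0.l11))) (xa (xb (xa T0.l11 T0.l11) (xa T0.l11 T0.l11)) (xb (xa T0.l11 T0.l11) (xa T0.l11 T0.l11)))) = true := by decide +kernel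
theorem bx0_1 : BoxOK sI cl4 cl4 cl4 t0 t0 b0_1 :=
  box_mk' [(tg true true false RT.r2), (tg true false false RT.r3), (tg true true true RT.r4), (tg false false false RT.r3), (tg false true false RT.r4), (tg false false true RT.r5)] rfl (allL_c (ex_mk c0_1_0) (allL_c (ex_mk c0_1_1) (allL_c (ex_mk c0_1_2) (allL_c (ex_mk c0_1_3) (allL_c (ex_mk c0_1_4) (allL_c (ex_mk c0_1_5) allL_n))))))
theorem bx0_2 : BoxOK sI cl4 cl4 cl4 t0 t0 b0_2 :=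
  box_mk (TrL.c (I.pos (nat_lit 0) (nat_lit 0)) (xb (xa (xb (xa T0.l12 T0.l12) T0.l12) (xb (xa T0.l12 T0.l34) (xa T0.l12 T0.l12))) (xa (xb T0.l12 (xa T0.l12 T0.l12)) (xb (xa T0.l12 T0.l12) (xa T0.l12 T0.l34))))
  (TrL.c (I.pos (nat_lit 0) (nat_lit 0)) (xb (xa (xb T0.l35 T0.l35) (xb T0.l13 T0.l13)) (xa (xb T0.l35 T0.l35) (xb T0.l13 T0.l35)))
  TrL.n)) (by decide +kernel)
def rc0_3_0_l : Tr := (xb (xa (xb (xa (xb T0.l14 T0.l14) (xb T0.l14 T0.l14)) (xa (xb (xa T0.l14 T0.l14) (xa T0.l14 T0.l14)) (xb T0.l14 T0.l14))) (xb (xa (xb T0.l14 T0.l14) (xb (xa T0.l14 T0.l14) T0.l14)) (xa (xb T0.l14 T0.l14) (xb T0.l14 T0.l14)))) (xa (xb (xb (xa (xa (xb T0.l14 T0.l14) T0.l14) T0.l14) (xa (xa (xb T0.l14 T0.l14) (xb T0.l14 T0.l14)) (xa T0.l14 T0.l14))) (xa (xb (xb (xa T0.l14 T0.l14) (xa T0.l14 T0.l14)) (xb (xa T0.l14 T0.l14)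 (xa T0.l14 T0.l14))) (xb (xa (xb T0.l14 T0.l14) T0.l14) (xa (xb T0.l14 T0.l14) (xb T0.l14 T0.l14))))) (xb (xa (xb T0.l14 T0.l14) (xb T0.l14 T0.l14)) (xa (xb (xa T0.l14 T0.l14) (xa T0.l14 T0.l14)) (xb (xa T0.l14 T0.l14) (xa T0.l14 (xb T0.l14 T0.l14)))))))
theorem qc0_3_0_l : chkTr (tg true true false RT.r2) b0_3 t0 rc0_3_0_l
  (upd lo Co.a (rc sI cl4 cl4 cl4 b0_3 (I.pos (nat_lit 0) (nat_lit 0)))) = true := by decide +kernel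
def rc0_3_0_r : Tr := (xb (xa (xb (xa (xb (xa T0.l14 T0.l14) (xa T0.l14 T0.l14)) (xb T0.l0 T0.l0)) (xa (xb (xa T0.l14 T0.l14) (xa T0.l14 T0.l14)) (xb (xa T0.l14 T0.l14) (xa T0.l14 T0.l14)))) (xb (xa (xb T0.l0 T0.l0) T0.l0) (xa (xb T0.l0 T0.l0) (xb T0.l0 T0.l0)))) (xa (xb (xa (xb (xa T0.l14 T0.l14) (xa T0.l14 T0.l14)) (xb (xa T0.l14 T0.l14) (xa T0.l14 T0.l14))) (xa (xb (xa T0.l14 T0.l14) (xa (xb T0.l14 T0.l14) (xb T0.l14 T0.l14))) (xb (xa T0.l14 T0.l14) (xa (xb T0.l14 T0.l0) T0.l0)))) (xb (xa (xb T0.l0 T0.l0) (xb T0.l0 T0.l0)) (xa (xb T0.l0 (xa T0.l0 T0.l0)) (xb T0.l0 T0.l0)))))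
theorem qc0_3_0_r : chkTr (tg true true false RT.r2) b0_3 t0 rc0_3_0_r
  (upd hi Co.a (rc sI cl4 cl4 cl4 b0_3 (I.pos (nat_lit 0) (nat_lit 0)))) = true := by decide +kernel
theorem qc0_3_0_ : chkTr (tg true true false RT.r2) b0_3 t0 (Tr.N Co.a rc0_3_0_l rc0_3_0_r)
  (rc sI cl4 cl4 cl4 b0_3 (I.pos (nat_lit 0) (nat_lit 0))) = true := tr_split qc0_3_0_l qc0_3_0_r
theorem c0_3_0 : chkTag sI cl4 cl4 cl4 t0 b0_3 (tg true true false RT.r2) (I.pos (nat_lit 0) (nat_lit 0))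
  (Tr.N Co.a rc0_3_0_l rc0_3_0_r) = true := tag_mk (by decide +kernel) qc0_3_0_
theorem c0_3_1 : chkTag sI cl4 cl4 cl4 t0 b0_3 (tg true false false RT.r3) (I.pos (nat_lit 0) (nat_lit 0))
  (xa (xb (xa (xb (xc T0.l15 T0.l15) (xc (xa T0.l15 T0.l15) T0.l15)) (xb (xc T0.l15 T0.l15) (xc T0.l15 T0.l15))) (xa (xb (xc (xb T0.l15 T0.l15) (xb T0.l15 T0.l15)) (xc (xb T0.l15 (xa T0.l15 T0.l15)) (xb (xa T0.l15 T0.l15) (xa T0.l15 T0.l15)))) (xb (xc (xa T0.l15 T0.l15) (xa T0.l15 T0.l15)) (xc (xa T0.l15 T0.l15) (xa (xb T0.l15 T0.l15) (xb T0.l15 T0.l15)))))) (xb (xa (xb (xc T0.l15 T0.l15) (xc T0.l15 T0.l15)) (xb (xc (xa T0.l15 T0.l15) (xa T0.l15 T0.l15)) (xc T0.l15 T0.l15))) (xa (xb (xc (xa T0.l15 T0.l15) T0.l15) (xc (xa T0.l15 T0.l15) (xa (xb T0.l15 T0.l15) (xb T0.l15 T0.l15)))) (xb (xc T0.l15 T0.l15) (xc (xa (xb T0.l15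 T0.l15) (xb T0.l15 T0.l15)) (xa (xb T0.l15 T0.l15) (xb T0.l15 T0.l15))))))) = true := by decide +kernel
theorem c0_3_2 : chkTag sI cl4 cl4 cl4 t0 b0_3 (tg true true true RT.r4) (I.pos (nat_lit 0) (nat_lit 0))
  (xa (xb (xc (xa T0.l16 T0.l16) (xa T0.l16 T0.l16)) (xc (xa (xb T0.l16 T0.l16) T0.l2) (xa (xb T0.l16 T0.l16) (xb T0.l16 T0.l2)))) (xb (xc (xa T0.l2 T0.l2) T0.l2) T0.l2)) = true := by decide +kernel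
theorem c0_3_3 : chkTag sI cl4 cl4 cl4 t0 b0_3 (tg false false false RT.r3) (I.pos (nat_lit 0) (nat_lit 0))
  (xa (xb (xa (xb T0.l17 T0.l17) (xb (xc T0.l17 T0.l17) (xc T0.l17 T0.l17))) (xa (xb T0.l3 (xc (xb T0.l17 (xa T0.l17 T0.l17)) (xb T0.l3 (xa T0.l17 T0.l3)))) (xb T0.l3 T0.l3))) (xb (xa (xb (xc (xa T0.l17 T0.l17) (xa T0.l17 (xb T0.l17 T0.l17))) (xc (xa T0.l17 T0.l17) (xa T0.l17 T0.l3))) (xb (xc (xa (xb T0.l17 T0.l17) (xb (xc T0.l17 T0.l17) (xc T0.l17 T0.l17))) (xa (xb T0.l17 T0.l17) (xb (xc T0.l17 T0.l17) (xc T0.l17 T0.l17)))) (xc (xa T0.l3 T0.l3) (xa T0.l3 T0.l3)))) (xa (xb T0.l3 T0.l3) (xb (xc T0.l3 T0.l3) T0.l3)))) = true := by decide +kernel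
theorem c0_3_4 : chkTag sI cl4 cl4 cl4 t0 b0_3 (tg false true false RT.r4) (I.pos (nat_lit 0) (nat_lit 0))
  (xa (xb (xc (xa T0.l18 T0.l18) (xa T0.l18 T0.l18)) (xc (xa (xb T0.l18 T0.l18) T0.l4) (xa (xb T0.l18 T0.l18) (xb T0.l18 T0.l4)))) (xb (xc (xa T0.l4 T0.l4) T0.l4) T0.l4)) = true := by decide +kernel
theorem c0_3_5 : chkTag sI cl4 cl4 cl4 t0 b0_3 (tg false false true RT.r5) (I.pos (nat_lit 0) (nat_lit 0))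
  (xa (xb (xa (xb (xc T0.l19 T0.l19) (xc (xa T0.l19 T0.l19) (xa T0.l19 T0.l19))) (xb (xc T0.l19 T0.l19) (xc T0.l19 T0.l19))) (xa (xb (xc (xb T0.l19 T0.l19) (xb T0.l19 T0.l19)) (xc (xb T0.l19 (xa T0.l19 T0.l19)) (xb (xa T0.l19 T0.l19) (xa T0.l19 T0.l19)))) (xb (xc (xa T0.l19 T0.l19) (xa T0.l19 T0.l19)) (xc (xa T0.l19 T0.l19) (xa (xb T0.l19 T0.l19) (xb T0.l19 T0.l19)))))) (xb (xa (xb (xc T0.l19 T0.l19) (xc T0.l19 T0.l19)) (xb (xc (xa T0.l19 T0.l19) (xa T0.l19 T0.l19)) (xc T0.l19 T0.l19))) (xa (xb (xc (xa T0.l19 T0.l19) T0.l19) (xc (xa T0.l19 T0.l19) (xa (xb T0.l19 T0.l19) (xb T0.l19 T0.l19)))) (xb (xc T0.l19 T0.l19) (xc (xa (xb T0.l19 T0.l19) (xb T0.l19 T0.l19)) (xa (xb T0.l19 T0.l19) (xb T0.l19 T0.l19))))))) = true := by decide +kernel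
theorem bx0_3 : BoxOK sI cl4 cl4 cl4 t0 t0 b0_3 :=
  box_mk' [(tg true true false RT.r2), (tg true false false RT.r3), (tg true true true RT.r4), (tg false false false RT.r3), (tg false true false RT.r4), (tg false false true RT.r5)] rfl (allL_c (ex_mk c0_3_0) (allL_c (ex_mk c0_3_1) (allL_c (ex_mk c0_3_2) (allL_c (ex_mk c0_3_3) (allL_c (ex_mk c0_3_4) (allL_c (ex_mk c0_3_5) allL_n))))))
theorem c0_4_0 : chkTag sI cl4 cl4 cl4 t0 b0_4 (tg true true false RT.r2) (I.pos (nat_lit 0) (nat_lit 0))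
  (xb (xa (xb (xa (xb (xa (xb T0.l20 T0.l20) (xb T0.l20 T0.l20)) (xa (xb T0.l20 T0.l20) T0.l20)) (xb (xa T0.l20 T0.l20) (xa T0.l20 T0.l20))) (xa (xb (xa (xb T0.l20 T0.l20) T0.l20) (xa (xb T0.l20 T0.l20) T0.l20)) (xb (xa T0.l20 T0.l20) (xa T0.l20 T0.l20)))) (xb (xa (xb T0.l6 T0.l20) (xb (xa T0.l6 T0.l6) (xa T0.l20 T0.l20))) (xa (xb T0.l20 T0.l20) T0.l20))) (xa (xb (xa (xb (xa (xb T0.l20 T0.l20) T0.l20) (xa (xb T0.l20 T0.l20) (xb T0.l20 T0.l20))) (xb (xa T0.l20 T0.l20) (xa T0.l20 T0.l20))) (xa (xb (xa (xb T0.l20 T0.l20) (xb T0.l20 T0.l20)) (xa (xb T0.l20 T0.l20) (xb T0.l20 T0.l20))) (xb (xa T0.l20 T0.l20) (xa (xb T0.l20 T0.l20) T0.l20)))) (xb (xa (xb T0.l20 T0.l20) (xb T0.l20 T0.l20)) (xa (xb (xa T0.l20 T0.l20) (xa T0.l20 T0.l20)) (xb (xa T0.l20 T0.l20) (xa T0.l20 T0.l20)))))) = true := by decide +kernel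
theorem c0_4_1 : chkTag sI cl4 cl4 cl4 t0 b0_4 (tg true false false RT.r3) (I.pos (nat_lit 0) (nat_lit 0))
  (xb (xa (xb (xa T0.l34 T0.l34) (xa T0.l34 T0.l34)) (xb (xa T0.l34 T0.l34) T0.l34)) (xa (xb (xa T0.l34 T0.l34) (xa T0.l34 T0.l34)) (xb T0.l34 (xa T0.l34 T0.l34)))) = true := by decide +kernel
theorem c0_4_2 : chkTag sI cl4 cl4 cl4 t0 b0_4 (tg true true true RT.r4) (I.pos (nat_lit 0) (nat_lit 0))
  (xb (xa (xb T0.l35 T0.l35) (xb T0.l35 T0.l35)) (xa (xb T0.l35 T0.l13) (xb T0.l35 T0.l35))) = true := by decide +kernel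
theorem c0_4_3 : chkTag sI cl4 cl4 cl4 t0 b0_4 (tg false false false RT.r3) (I.pos (nat_lit 0) (nat_lit 0))
  (xb (xa (xb (xa (xb T0.l21 T0.l21) T0.l21) (xa T0.l21 T0.l21)) (xb (xa (xb T0.l21 T0.l21) (xb T0.l21 T0.l21)) (xa T0.l21 (xb T0.l21 T0.l21)))) (xa (xb (xa T0.l21 T0.l21) (xa T0.l21 T0.l21)) (xb (xa T0.l21 T0.l21) (xa T0.l21 T0.l21)))) = true := by decide +kernel
theorem c0_4_4 : chkTag sI cl4 cl4 cl4 t0 b0_4 (tg false true false RT.r4) (I.pos (nat_lit 0) (nat_lit 0))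
  (xb (xa (xb T0.l22 T0.l22) (xb T0.l22 T0.l22)) (xa (xb T0.l22 T0.l22) (xb T0.l22 T0.l22))) = true := by decide +kernel
theorem c0_4_5 : chkTag sI cl4 cl4 cl4 t0 b0_4 (tg false false true RT.r5) (I.pos (nat_lit 0) (nat_lit 0))
  (xb (xa (xb (xa T0.l23 T0.l23) (xa T0.l23 T0.l23)) (xb (xa T0.l23 T0.l23) T0.l23)) (xa (xb (xa T0.l23 T0.l23) (xa T0.l23 T0.l23)) (xb T0.l23 (xa T0.l23 T0.l23)))) = true := by decide +kernel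
theorem bx0_4 : BoxOK sI cl4 cl4 cl4 t0 t0 b0_4 :=
  box_mk' [(tg true true false RT.r2), (tg true false false RT.r3), (tg true true true RT.r4), (tg false false false RT.r3), (tg false true false RT.r4), (tg false false true RT.r5)] rfl (allL_c (ex_mk c0_4_0) (allL_c (ex_mk c0_4_1) (allL_c (ex_mk c0_4_2) (allL_c (ex_mk c0_4_3) (allL_c (ex_mk c0_4_4) (allL_c (ex_mk c0_4_5) allL_n))))))
theorem bx0_5 : BoxOK sI cl4 cl4 cl4 t0 t0 b0_5 :=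
  box_mk (TrL.c (I.pos (nat_lit 0) (nat_lit 0)) (xb (xa (xb (xa T0.l24 T0.l24) (xa T0.l24 T0.l24)) (xb (xa T0.l7 T0.l7) (xa T0.l24 T0.l24))) (xa (xb (xa T0.l24 T0.l24) (xa T0.l24 T0.l24)) (xb (xa T0.l24 T0.l24) (xa T0.l24 T0.l7))))
  (TrL.c (I.pos (nat_lit 0) (nat_lit 0)) (xb (xc (xa (xc T0.l8 T0.l8) T0.l8) (xa T0.l8 T0.l8)) (xa (xc (xc (xb T0.l8 T0.l8) T0.l8) (xb T0.l8 T0.l8)) (xc (xb T0.l8 T0.l8) (xb T0.l8 T0.l8))))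
  TrL.n)) (by decide +kernel)
theorem bx0_6 : BoxOK sI cl4 cl4 cl4 t0 t0 b0_6 :=
  box_mk (TrL.c (I.pos (nat_lit 0) (nat_lit 0)) (xb (xa T0.l0 T0.l0) (xa T0.l0 T0.l0))
  (TrL.c (I.pos (nat_lit 0) (nat_lit 0)) (xb (xa (xb (xc (xa T0.l1 T0.l1) T0.l1) T0.l1) (xb T0.l1 T0.l1)) (xa T0.l1 T0.l1))
  (TrL.c (I.pos (nat_lit 0) (nat_lit 0)) T0.l2
  (TrL.c (I.pos (nat_lit 0) (nat_lit 0)) (xb (xa (xb (xc T0.l0 T0.l3) T0.l3) T0.l3) T0.l3)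
  (TrL.c (I.pos (nat_lit 0) (nat_lit 0)) T0.l4
  (TrL.c (I.pos (nat_lit 0) (nat_lit 0)) (xb (xa (xb (xc (xa T0.l5 T0.l5) T0.l5) T0.l5) (xb T0.l5 T0.l5)) (xa T0.l5 T0.l5))
  TrL.n)))))) (by decide +kernel)
theorem bx0_7 : BoxOK sI cl4 cl4 cl4 t0 t0 b0_7 :=
  box_mk (TrL.c (I.pos (nat_lit 0) (nat_lit 0)) (xb (xa (xb T0.l6 T0.l6) (xb T0.l6 T0.l6)) (xa (xb (xa T0.l6 T0.l6) (xa (xb T0.l6 T0.l6) T0.l6)) (xb T0.l6 (xa T0.l6 T0.l14))))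
  (TrL.c (I.pos (nat_lit 0) (nat_lit 0)) (xb T0.l7 (xa (xb T0.l7 T0.l7) T0.l15))
  (TrL.c (I.pos (nat_lit 0) (nat_lit 0)) (xb T0.l8 (xa T0.l25 T0.l16))
  (TrL.c (I.pos (nat_lit 0) (nat_lit 0)) (xb T0.l9 (xa T0.l9 T0.l17))
  (TrL.c (I.pos (nat_lit 0) (nat_lit 0)) (xb T0.l10 (xa T0.l10 T0.l18))
  (TrL.c (I.pos (nat_lit 0) (nat_lit 0)) (xb T0.l11 (xa (xb T0.l11 T0.l11) T0.l19))
  TrL.n)))))) (by decide +kernel)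
theorem bx0_8 : BoxOK sI cl4 cl4 cl4 t0 t0 b0_8 :=
  box_mk (TrL.c (I.pos (nat_lit 0) (nat_lit 0)) (xb (xa T0.l34 T0.l12) T0.l12)
  (TrL.c (I.pos (nat_lit 0) (nat_lit 0)) (xb (xa T0.l13 T0.l13) T0.l13)
  TrL.n)) (by decide +kernel)
theorem bx0_9 : BoxOK sI cl4 cl4 cl4 t0 t0 b0_9 :=
  box_mk (TrL.c (I.pos (nat_lit 0) (nat_lit 0)) (xb (xa (xb (xa (xb T0.l14 T0.l14) (xb T0.l14 T0.l14)) (xa T0.l14 T0.l14)) (xb (xa (xb T0.l14 T0.l14) (xb T0.l14 T0.l14)) (xa T0.l14 T0.l14))) (xa (xb T0.l14 T0.l14) (xb (xa T0.l14 T0.l14) T0.l14)))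
  (TrL.c (I.pos (nat_lit 0) (nat_lit 0)) (xb (xa (xb T0.l15 T0.l15) (xb (xa T0.l15 T0.l15) T0.l15)) (xa T0.l15 T0.l15))
  (TrL.c (I.pos (nat_lit 0) (nat_lit 0)) (xb (xa T0.l16 T0.l16) T0.l16)
  (TrL.c (I.pos (nat_lit 0) (nat_lit 0)) (xb (xa (xb (xa T0.l17 T0.l17) T0.l17) (xb (xa (xc T0.l17 T0.l17) (xc T0.l17 T0.l17)) (xa T0.l17 T0.l0))) (xa T0.l17 (xb (xa T0.l17 T0.l17) T0.l17)))
  (TrL.c (I.pos (nat_lit 0) (nat_lit 0)) (xb (xa T0.l18 T0.l18) T0.l18)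
  (TrL.c (I.pos (nat_lit 0) (nat_lit 0)) (xb (xa (xb T0.l19 T0.l19) (xb (xa T0.l19 T0.l19) T0.l19)) (xa T0.l19 T0.l19))
  TrL.n)))))) (by decide +kernel)
theorem bx0_10 : BoxOK sI cl4 cl4 cl4 t0 t0 b0_10 :=
  box_mk (TrL.c (I.pos (nat_lit 0) (nat_lit 0)) (xb (xa (xb T0.l20 T0.l20) T0.l20) (xa (xb T0.l20 T0.l20) (xb T0.l20 (xa T0.l20 (xb T0.l20 T0.l20)))))
  (TrL.c (I.pos (nat_lit 0) (nat_lit 0)) (xb T0.l34 (xa T0.l34 T0.l34))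
  (TrL.c (I.pos (nat_lit 0) (nat_lit 0)) (xb T0.l35 (xb T0.l35 T0.l13))
  (TrL.c (I.pos (nat_lit 0) (nat_lit 0)) (xb T0.l21 (xa T0.l21 T0.l21))
  (TrL.c (I.pos (nat_lit 0) (nat_lit 0)) (xb T0.l22 (xb T0.l22 T0.l22))
  (TrL.c (I.pos (nat_lit 0) (nat_lit 0)) (xb T0.l23 (xa T0.l23 T0.l23))
  TrL.n)))))) (by decide +kernel)
theorem bx0_11 : BoxOK sI cl4 cl4 cl4 t0 t0 b0_11 :=
  box_mk (TrL.c (I.pos (nat_lit 0) (nat_lit 0)) (xb (xa T0.l15 (xb T0.l24 T0.l24)) T0.l24)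
  (TrL.c (I.pos (nat_lit 0) (nat_lit 0)) (xb (xa T0.l16 T0.l25) T0.l25)
  TrL.n)) (by decide +kernel)
theorem bx0_12 : BoxOK sI cl4 cl4 cl4 t0 t0 b0_12 :=
  box_mk (TrL.c (I.pos (nat_lit 0) (nat_lit 0)) (xb (xa T0.l6 (xb T0.l6 (xa T0.l6 T0.l6))) (xa (xb (xa T0.l6 T0.l6) (xa T0.l6 (xb T0.l6 T0.l26))) (xb T0.l14 T0.l14)))
  (TrL.c (I.pos (nat_lit 0) (nat_lit 0)) (xb (xa T0.l7 T0.l15) (xa T0.l15 T0.l15))
  (TrL.c (I.pos (nat_lit 0) (nat_lit 0)) (xb (xa T0.l8 T0.l16) (xa T0.l25 T0.l16))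
  (TrL.c (I.pos (nat_lit 0) (nat_lit 0)) (xb (xa T0.l9 (xb T0.l9 T0.l17)) (xa (xb T0.l9 T0.l17) T0.l17))
  (TrL.c (I.pos (nat_lit 0) (nat_lit 0)) (xb (xa T0.l10 T0.l18) (xa T0.l10 T0.l18))
  (TrL.c (I.pos (nat_lit 0) (nat_lit 0)) (xb (xa T0.l11 T0.l19) (xa T0.l19 T0.l19))
  TrL.n)))))) (by decide +kernel)
theorem bx0_13 : BoxOK sI cl4 cl4 cl4 t0 t0 b0_13 :=
  box_mk (TrL.c (I.pos (nat_lit 0) (nat_lit 0)) (xb (xa T0.l12 T0.l34) T0.l12)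
  (TrL.c (I.pos (nat_lit 0) (nat_lit 0)) (xb T0.l22 T0.l13)
  TrL.n)) (by decide +kernel)
theorem bx0_14 : BoxOK sI cl4 cl4 cl4 t0 t0 b0_14 :=
  box_mk (TrL.c (I.pos (nat_lit 0) (nat_lit 0)) (xb (xa (xb (xa (xb T0.l0 T0.l0) T0.l0) (xa (xb T0.l0 T0.l0) (xb T0.l0 T0.l0))) (xb (xa T0.l0 T0.l0) (xa T0.l0 T0.l0))) (xa (xb (xa (xb T0.l0 (xa T0.l0 T0.l0)) (xb T0.l0 T0.l0)) (xa (xb (xa T0.l0 T0.l0) (xa T0.l0 T0.l0)) (xb T0.l0 T0.l0))) (xb (xa (xb T0.l0 T0.l0) T0.l0) (xa (xb T0.l0 T0.l0) (xb T0.l0 T0.l0)))))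
  (TrL.c (I.pos (nat_lit 0) (nat_lit 0)) (xb (xa (xb T0.l1 (xa T0.l1 T0.l1)) (xb (xa T0.l1 T0.l1) (xa T0.l1 T0.l1))) (xa (xb (xa T0.l1 T0.l1) (xa T0.l1 T0.l1)) (xb (xa T0.l1 T0.l1) (xa T0.l1 (xc T0.l1 T0.l1)))))
  (TrL.c (I.pos (nat_lit 0) (nat_lit 0)) (xb (xa T0.l2 (xc T0.l2 T0.l2)) (xa T0.l2 (xc T0.l2 T0.l2)))
  (TrL.c (I.pos (nat_lit 0) (nat_lit 0)) (xb (xa (xb (xa (xc T0.l3 T0.l3) (xc T0.l3 T0.l3)) (xa T0.l3 T0.l3)) (xb (xa (xc T0.l3 T0.l3) (xc T0.l3 T0.l3)) (xa T0.l3 T0.l3))) (xa (xb T0.l3 T0.l3) (xb T0.l3 (xa T0.l3 T0.l3))))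
  (TrL.c (I.pos (nat_lit 0) (nat_lit 0)) (xb (xa T0.l4 (xc T0.l4 T0.l4)) (xa T0.l4 (xc T0.l4 T0.l4)))
  (TrL.c (I.pos (nat_lit 0) (nat_lit 0)) (xb (xa (xb T0.l5 (xa T0.l5 T0.l5)) (xb (xa T0.l5 T0.l5) (xa T0.l5 T0.l5))) (xa (xb (xa T0.l5 T0.l5) (xa T0.l5 T0.l5)) (xb (xa T0.l5 T0.l5) (xa T0.l5 (xc T0.l5 T0.l5)))))
  TrL.n)))))) (by decide +kernel)
theorem bx0_15 : BoxOK sI cl4 cl4 cl4 t0 t0 b0_15 :=
  box_mk (TrL.c (I.pos (nat_lit 0) (nat_lit 0)) (xb (xa (xb T0.l6 T0.l6) (xb (xa T0.l6 T0.l6) T0.l6)) (xa (xb (xa T0.l6 T0.l6) (xa (xb T0.l6 T0.l6) (xb T0.l6 T0.l6))) (xb T0.l6 (xa T0.l6 T0.l6))))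
  (TrL.c (I.pos (nat_lit 0) (nat_lit 0)) (xb (xa T0.l7 T0.l7) (xa T0.l7 T0.l7))
  (TrL.c (I.pos (nat_lit 0) (nat_lit 0)) (xb T0.l8 (xa T0.l8 (xb T0.l8 T0.l8)))
  (TrL.c (I.pos (nat_lit 0) (nat_lit 0)) (xb (xa (xb T0.l9 T0.l9) (xb (xa T0.l9 (xb T0.l9 T0.l9)) (xa T0.l9 T0.l9))) (xa (xb T0.l9 T0.l9) (xb T0.l9 T0.l9)))
  (TrL.c (I.pos (nat_lit 0) (nat_lit 0)) (xb T0.l10 (xa T0.l10 T0.l10))
  (TrL.c (I.pos (nat_lit 0) (nat_lit 0)) (xb (xa T0.l11 T0.l11) (xa T0.l11 T0.l11))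
  TrL.n)))))) (by decide +kernel)
theorem bx0_16 : BoxOK sI cl4 cl4 cl4 t0 t0 b0_16 :=
  box_mk (TrL.c (I.pos (nat_lit 0) (nat_lit 0)) T0.l12
  (TrL.c (I.pos (nat_lit 0) (nat_lit 0)) T0.l13
  TrL.n)) (by decide +kernel)
theorem bx0_17 : BoxOK sI cl4 cl4 cl4 t0 t0 b0_17 :=
  box_mk (TrL.c (I.pos (nat_lit 0) (nat_lit 0)) (xa (xb (xa (xb (xa T0.l14 T0.l14) T0.l14) (xb (xa T0.l14 T0.l14) T0.l14)) (xa (xb T0.l14 T0.l14) T0.l0)) (xb T0.l0 (xa T0.l0 T0.l0)))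
  (TrL.c (I.pos (nat_lit 0) (nat_lit 0)) (xa (xb T0.l15 T0.l15) (xb T0.l1 T0.l1))
  (TrL.c (I.pos (nat_lit 0) (nat_lit 0)) T0.l16
  (TrL.c (I.pos (nat_lit 0) (nat_lit 0)) (xa (xb T0.l17 T0.l17) (xb (xa T0.l17 T0.l17) T0.l17))
  (TrL.c (I.pos (nat_lit 0) (nat_lit 0)) T0.l18
  (TrL.c (I.pos (nat_lit 0) (nat_lit 0)) (xa (xb T0.l19 T0.l19) (xb T0.l5 T0.l5))
  TrL.n)))))) (by decide +kernel)
theorem bx0_18 : BoxOK sI cl4 cl4 cl4 t0 t0 b0_18 :=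
  box_mk (TrL.c (I.pos (nat_lit 0) (nat_lit 0)) (xb (xa (xb (xa (xb T0.l20 T0.l20) T0.l20) (xa (xb T0.l20 T0.l20) T0.l20)) (xb T0.l20 T0.l20)) (xa (xb (xa (xb T0.l20 T0.l20) T0.l20) (xa (xb T0.l20 T0.l20) T0.l20)) (xb T0.l20 T0.l20)))
  (TrL.c (I.pos (nat_lit 0) (nat_lit 0)) T0.l34
  (TrL.c (I.pos (nat_lit 0) (nat_lit 0)) T0.l13
  (TrL.c (I.pos (nat_lit 0) (nat_lit 0)) T0.l21
  (TrL.c (I.pos (nat_lit 0) (nat_lit 0)) T0.l22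
  (TrL.c (I.pos (nat_lit 0) (nat_lit 0)) T0.l23
  TrL.n)))))) (by decide +kernel)
theorem bx0_19 : BoxOK sI cl4 cl4 cl4 t0 t0 b0_19 :=
  box_mk (TrL.c (I.pos (nat_lit 0) (nat_lit 0)) (xb (xa T0.l24 T0.l24) (xa T0.l24 T0.l24))
  (TrL.c (I.pos (nat_lit 0) (nat_lit 0)) (xb (xa (xb T0.l8 T0.l8) T0.l8) T0.l8)
  TrL.n)) (by decide +kernel)
theorem bx0_20 : BoxOK sI cl4 cl4 cl4 t0 t0 b0_20 :=
  box_mk (TrL.c (I.pos (nat_lit 0) (nat_lit 0)) (xa (xb T0.l0 T0.l0) (xb (xa T0.l3 T0.l3) (xa T0.l0 (xb T0.l3 T0.l3))))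
  (TrL.c (I.pos (nat_lit 0) (nat_lit 0)) (xa (xb (xa (xb (xc (xa T0.l1 T0.l1) T0.l1) T0.l1) (xb T0.l1 T0.l1)) T0.l1) (xb (xa (xb T0.l1 T0.l1) (xb (xc (xa T0.l1 T0.l1) (xa T0.l1 T0.l1)) (xc (xa T0.l1 T0.l1) T0.l1))) (xa T0.l1 (xb T0.l1 T0.l1))))
  (TrL.c (I.pos (nat_lit 0) (nat_lit 0)) (xa (xc (xb T0.l2 T0.l2) T0.l2) T0.l5)
  (TrL.c (I.pos (nat_lit 0) (nat_lit 0)) (xa (xb (xa (xb T0.l0 T0.l3) (xb (xc T0.l0 T0.l0) T0.l3)) (xa T0.l3 T0.l3)) (xb (xa (xb (xc (xa T0.l0 T0.l0) (xa T0.l0 T0.l14)) (xc T0.l3 T0.l3)) (xb (xc T0.l14 T0.l14) (xc T0.l3 T0.l3))) (xa T0.l3 (xb T0.l3 (xc (xa T0.l3 (xb T0.l3 T0.l3)) T0.l3)))))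
  (TrL.c (I.pos (nat_lit 0) (nat_lit 0)) (xa (xc T0.l4 T0.l4) T0.l1)
  (TrL.c (I.pos (nat_lit 0) (nat_lit 0)) (xa (xb (xa (xb (xc (xa T0.l5 T0.l5) T0.l5) T0.l5) (xb T0.l5 T0.l5)) T0.l5) (xb (xa (xb T0.l5 T0.l5) (xb (xc (xa T0.l5 T0.l5) (xa T0.l5 T0.l5)) (xc (xa T0.l5 T0.l5) T0.l5))) (xa T0.l5 (xb T0.l5 T0.l5))))
  TrL.n)))))) (by decide +kernel)
theorem bx0_21 : BoxOK sI cl4 cl4 cl4 t0 t0 b0_21 :=
  box_mk (TrL.c (I.pos (nat_lit 0) (nat_lit 0)) (xb (xa (xb (xa T0.l6 T0.l6) T0.l6) (xb (xa T0.l14 T0.l14) T0.l14)) (xa (xb (xa T0.l14 T0.l14) T0.l14) T0.l14))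
  (TrL.c (I.pos (nat_lit 0) (nat_lit 0)) (xb (xa (xb T0.l15 T0.l15) (xb T0.l15 T0.l15)) T0.l15)
  (TrL.c (I.pos (nat_lit 0) (nat_lit 0)) (xb (xa T0.l16 T0.l16) T0.l16)
  (TrL.c (I.pos (nat_lit 0) (nat_lit 0)) (xb (xa (xb (xa T0.l9 T0.l17) T0.l17) T0.l17) T0.l17)
  (TrL.c (I.pos (nat_lit 0) (nat_lit 0)) (xb (xa T0.l18 T0.l18) T0.l18)
  (TrL.c (I.pos (nat_lit 0) (nat_lit 0)) (xb (xa (xb T0.l19 T0.l19) (xb T0.l19 T0.l19)) T0.l19)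
  TrL.n)))))) (by decide +kernel)
theorem bx0_22 : BoxOK sI cl4 cl4 cl4 t0 t0 b0_22 :=
  box_mk (TrL.c (I.pos (nat_lit 0) (nat_lit 0)) (xa (xb T0.l20 (xa (xb T0.l20 (xa (xb T0.l20 T0.l20) T0.l20)) T0.l20)) (xb T0.l20 (xa T0.l20 (xb T0.l20 T0.l20))))
  (TrL.c (I.pos (nat_lit 0) (nat_lit 0)) (xb T0.l34 (xa T0.l34 T0.l34))
  (TrL.c (I.pos (nat_lit 0) (nat_lit 0)) (xb T0.l35 T0.l22)
  (TrL.c (I.pos (nat_lit 0) (nat_lit 0)) (xb T0.l21 (xa T0.l12 T0.l21))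
  (TrL.c (I.pos (nat_lit 0) (nat_lit 0)) (xb T0.l22 (xa T0.l22 T0.l22))
  (TrL.c (I.pos (nat_lit 0) (nat_lit 0)) (xb T0.l23 (xa T0.l23 T0.l23))
  TrL.n)))))) (by decide +kernel)
theorem bx0_23 : BoxOK sI cl4 cl4 cl4 t0 t0 b0_23 :=
  box_mk (TrL.c (I.pos (nat_lit 0) (nat_lit 0)) (xa T0.l15 (xb T0.l15 T0.l24))
  (TrL.c (I.pos (nat_lit 0) (nat_lit 0)) (xa (xb T0.l16 T0.l16) (xb T0.l25 T0.l25))
  TrL.n)) (by decide +kernel)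
theorem bx0_24 : BoxOK sI cl4 cl4 cl4 t0 t0 b0_24 :=
  box_mk (TrL.c (I.pos (nat_lit 0) (nat_lit 0)) (xb (xa (xb T0.l6 T0.l6) T0.l6) (xa (xb T0.l6 (xa T0.l6 T0.l6)) (xb T0.l6 (xa T0.l6 T0.l6))))
  (TrL.c (I.pos (nat_lit 0) (nat_lit 0)) (xb T0.l7 (xa T0.l7 T0.l15))
  (TrL.c (I.pos (nat_lit 0) (nat_lit 0)) (xb T0.l8 (xa T0.l8 T0.l28))
  (TrL.c (I.pos (nat_lit 0) (nat_lit 0)) (xb T0.l9 (xa T0.l9 (xb T0.l9 T0.l17)))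
  (TrL.c (I.pos (nat_lit 0) (nat_lit 0)) (xb T0.l10 (xa T0.l10 T0.l30))
  (TrL.c (I.pos (nat_lit 0) (nat_lit 0)) (xb T0.l11 (xa T0.l11 T0.l19))
  TrL.n)))))) (by decide +kernel)
theorem bx0_25 : BoxOK sI cl4 cl4 cl4 t0 t0 b0_25 :=
  box_mk (TrL.c (I.pos (nat_lit 0) (nat_lit 0)) T0.l12
  (TrL.c (I.pos (nat_lit 0) (nat_lit 0)) (xb T0.l13 T0.l13)
  TrL.n)) (by decide +kernel)
theorem bx0_26 : BoxOK sI cl4 cl4 cl4 t0 t0 b0_26 :=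
  box_mk (TrL.c (I.pos (nat_lit 0) (nat_lit 0)) T0.l0
  (TrL.c (I.pos (nat_lit 0) (nat_lit 0)) T0.l1
  (TrL.c (I.pos (nat_lit 0) (nat_lit 0)) T0.l2
  (TrL.c (I.pos (nat_lit 0) (nat_lit 0)) T0.l3
  (TrL.c (I.pos (nat_lit 0) (nat_lit 0)) T0.l4
  (TrL.c (I.pos (nat_lit 0) (nat_lit 0)) T0.l5
  TrL.n)))))) (by decide +kernel)
theorem bx0_27 : BoxOK sI cl4 cl4 cl4 t0 t0 b0_27 :=
  box_mk (TrL.c (I.pos (nat_lit 0) (nat_lit 0)) T0.l6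
  (TrL.c (I.pos (nat_lit 0) (nat_lit 0)) T0.l7
  (TrL.c (I.pos (nat_lit 0) (nat_lit 0)) T0.l8
  (TrL.c (I.pos (nat_lit 0) (nat_lit 0)) T0.l9
  (TrL.c (I.pos (nat_lit 0) (nat_lit 0)) T0.l10
  (TrL.c (I.pos (nat_lit 0) (nat_lit 0)) T0.l11
  TrL.n)))))) (by decide +kernel)
theorem bx0_28 : BoxOK sI cl4 cl4 cl4 t0 t0 b0_28 :=
  box_mk (TrL.c (I.pos (nat_lit 0) (nat_lit 0)) T0.l12
  (TrL.c (I.pos (nat_lit 0) (nat_lit 0)) T0.l13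
  TrL.n)) (by decide +kernel)
theorem bx0_29 : BoxOK sI cl4 cl4 cl4 t0 t0 b0_29 :=
  box_mk (TrL.c (I.pos (nat_lit 0) (nat_lit 0)) T0.l14
  (TrL.c (I.pos (nat_lit 0) (nat_lit 0)) T0.l15
  (TrL.c (I.pos (nat_lit 0) (nat_lit 0)) T0.l16
  (TrL.c (I.pos (nat_lit 0) (nat_lit 0)) T0.l17
  (TrL.c (I.pos (nat_lit 0) (nat_lit 0)) T0.l18
  (TrL.c (I.pos (nat_lit 0) (nat_lit 0)) T0.l19
  TrL.n)))))) (by decide +kernel)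
theorem bx0_30 : BoxOK sI cl4 cl4 cl4 t0 t0 b0_30 :=
  box_mk (TrL.c (I.pos (nat_lit 0) (nat_lit 0)) T0.l20
  (TrL.c (I.pos (nat_lit 0) (nat_lit 0)) T0.l34
  (TrL.c (I.pos (nat_lit 0) (nat_lit 0)) T0.l35
  (TrL.c (I.pos (nat_lit 0) (nat_lit 0)) T0.l21
  (TrL.c (I.pos (nat_lit 0) (nat_lit 0)) T0.l22
  (TrL.c (I.pos (nat_lit 0) (nat_lit 0)) T0.l23
  TrL.n)))))) (by decide +kernel)
theorem bx0_31 : BoxOK sI cl4 cl4 cl4 t0 t0 b0_31 :=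
  box_mk (TrL.c (I.pos (nat_lit 0) (nat_lit 0)) T0.l24
  (TrL.c (I.pos (nat_lit 0) (nat_lit 0)) T0.l25
  TrL.n)) (by decide +kernel)
theorem bx0_32 : BoxOK sI cl4 cl4 cl4 t0 t0 b0_32 :=
  box_mk (TrL.c (I.pos (nat_lit 0) (nat_lit 0)) T0.l6
  (TrL.c (I.pos (nat_lit 0) (nat_lit 0)) T0.l15
  (TrL.c (I.pos (nat_lit 0) (nat_lit 0)) T0.l28
  (TrL.c (I.pos (nat_lit 0) (nat_lit 0)) T0.l29
  (TrL.c (I.pos (nat_lit 0) (nat_lit 0)) T0.l30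
  (TrL.c (I.pos (nat_lit 0) (nat_lit 0)) T0.l19
  TrL.n)))))) (by decide +kernel)
theorem bx0_33 : BoxOK sI cl4 cl4 cl4 t0 t0 b0_33 :=
  box_mk (TrL.c (I.pos (nat_lit 0) (nat_lit 0)) T0.l12
  (TrL.c (I.pos (nat_lit 0) (nat_lit 0)) T0.l13
  TrL.n)) (by decide +kernel)
theorem bx0_34 : BoxOK sI cl4 cl4 cl4 t0 t0 b0_34 :=
  box_mk (TrL.c (I.pos (nat_lit 0) (nat_lit 0)) (xb (xa T0.l6 (xa T0.l6 (xb T0.l6 T0.l14))) (xa (xa (xb T0.l6 T0.l6) (xb T0.l6 (xa T0.l6 T0.l14))) T0.l14))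
  (TrL.c (I.pos (nat_lit 0) (nat_lit 0)) (xa (xb T0.l7 T0.l15) T0.l15)
  (TrL.c (I.pos (nat_lit 0) (nat_lit 0)) (xa (xb T0.l8 T0.l25) (xb T0.l16 T0.l16))
  (TrL.c (I.pos (nat_lit 0) (nat_lit 0)) (xb (xa T0.l9 (xb (xa T0.l9 T0.l17) T0.l17)) (xa (xb T0.l9 T0.l17) T0.l17))
  (TrL.c (I.pos (nat_lit 0) (nat_lit 0)) (xa (xb T0.l10 T0.l10) (xb T0.l18 T0.l18))
  (TrL.c (I.pos (nat_lit 0) (nat_lit 0)) (xa (xb T0.l11 T0.l19) T0.l19)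
  TrL.n)))))) (by decide +kernel)
theorem bx0_35 : BoxOK sI cl4 cl4 cl4 t0 t0 b0_35 :=
  box_mk (TrL.c (I.pos (nat_lit 0) (nat_lit 0)) (xb (xa T0.l12 T0.l34) T0.l12)
  (TrL.c (I.pos (nat_lit 0) (nat_lit 0)) (xb T0.l22 T0.l13)
  TrL.n)) (by decide +kernel)
theorem sv0 : StarV sI cl4 cl4 cl4 t0 t0 t0 :=
  (bt_n (bt_n (bt_n (bt_n (bt_n (bt_b bx0_0) (bt_b bx0_1)) (bt_n (bt_b bx0_2) (bt_b bx0_3))) (bt_n (bt_n (bt_b bx0_4) (bt_b bx0_5)) (bt_n (bt_b bx0_6) (bt_n (bt_b bx0_7) (bt_b bx0_8))))) (bt_n (bt_n (bt_n (bt_b bx0_9) (bt_b bx0_10)) (bt_n (bt_b bx0_11) (bt_b bx0_12))) (bt_n (bt_n (bt_b bx0_13) (bt_b bx0_14)) (bt_n (bt_b bx0_15) (bt_n (bt_b bx0_16) (bt_b bx0_17)))))) (bt_n (bt_n (bt_n (bt_n (bt_b bx0_18) (bt_b bx0_19)) (bt_n (bt_b bx0_20) (bt_b bx0_21))) (bt_n (bt_n (bt_b bx0_22) (bt_b bx0_23)) (bt_n (bt_b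 bx0_24) (bt_n (bt_b bx0_25) (bt_b bx0_26))))) (bt_n (bt_n (bt_n (bt_b bx0_27) (bt_b bx0_28)) (bt_n (bt_b bx0_29) (bt_b bx0_30))) (bt_n (bt_n (bt_b bx0_31) (bt_b bx0_32)) (bt_n (bt_b bx0_33) (bt_n (bt_b bx0_34) (bt_b bx0_35)))))))
def S0 : StarD := StarD.mk cl4 cl4 cl4 0 0 t0
def G : List StarD := [S0]
theorem so0 : StarOK sI G S0 :=
  star_mk (by decide) (by decide) rfl rfl rfl rfl rfl rfl (rfl : _ = t0) (rfl : _ = t0)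
  (st_mk (Pth.l (Pth.l (Pth.l (Pth.l (Pth.l Pth.z))))) (nat_lit 420993235) (nat_lit 421520316) (by decide +kernel))
  (st_mk (Pth.l (Pth.l (Pth.l (Pth.l (Pth.l Pth.z))))) (nat_lit 469504833) (nat_lit 470233395) (by decide +kernel))
  (st_mk (Pth.l (Pth.l (Pth.l (Pth.l (Pth.l Pth.z))))) (nat_lit 528275482) (nat_lit 529228656) (by decide +kernel)) sv0
theorem ok : GroupOK (nat_lit 261685248) (nat_lit 265224192) G := grp_mk (allS_c so0 allS_n)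
theorem cov : GCov G cl4 cl4 cl4 := cov_mk
  ⟨0, by decide, rfl, rfl, rfl⟩ ⟨0, by decide, rfl, rfl, rfl⟩ ⟨0, by decide, rfl, rfl, rfl⟩ ⟨0, by decide, rfl, rfl, rfl⟩ ⟨0, by decide, rfl, rfl, rfl⟩ ⟨0, by decide, rfl, rfl, rfl⟩
end Q111_8


end Pool.Agent.Helper6.MONO
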