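import Pool.Agent.Helper6.MONO.Asm

/-!
Certificate data (generated).
-/

set_option autoImplicit false
set_option linter.all false
noncomputable section
namespace Pool.Agent.Helper6.MONO


namespace Q111_9
def sI : I := I.pos (nat_lit 265027584) (nat_lit 268435456)
def b0_0 : Bx := Bx.mk (St.mk (I.pos (nat_lit 114147328) (nat_lit 215302144)) (I.mix (nat_lit 278528) (nat_lit 92110848)) (I.mix (nat_lit 278528) (nat_lit 109182976)) (I.pos (nat_lit 390316032) (nat_lit 530841600)) (I.mix (nat_lit 351240192) (nat_lit 199901184)) (I.mix (nat_lit 173768704) (nat_lit 170557440)) (I.mix (nat_lit 336904192) (nat_lit 307019776)))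
  false (nat_lit 53105499)
def b0_1 : Bx := Bx.mk (St.mk (I.pos (nat_lit 14188544) (nat_lit 77365248)) (I.neg (nat_lit 38600704) (nat_lit 95993856)) (I.neg (nat_lit 23511040) (nat_lit 79790080)) (I.pos (nat_lit 294010880) (nat_lit 344637440)) (I.mix (nat_lit 200441856) (nat_lit 164970496)) (I.mix (nat_lit 153485312) (nat_lit 142196736)) (I.mix (nat_lit 180371456) (nat_lit 152616960)))
  false (nat_lit 110336256)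
def b0_2 : Bx := Bx.mk (St.mk (I.mix (nat_lit 52854784) (nat_lit 7290880)) (I.pos (nat_lit 27983872) (nat_lit 86753280)) (I.neg (nat_lit 45187072) (nat_lit 80560128)) (I.pos (nat_lit 288964608) (nat_lit 318095360)) (I.mix (nat_lit 99762176) (nat_lit 237125632)) (I.mix (nat_lit 193282048) (nat_lit 145047552)) (I.mix (nat_lit 147963904) (nat_lit 76201984)))
  true (nat_lit 0)
def b0_3 : Bx := Bx.mk (St.mk (I.pos (nat_lit 90259456) (nat_lit 163069952)) (I.pos (nat_lit 1523712) (nat_lit 68419584)) (I.pos (nat_lit 17629184) (nat_lit 101941248)) (I.pos (nat_lit 348897280) (nat_lit 448888832)) (I.mix (nat_lit 268779520) (nat_lit 103530496)) (I.mix (nat_lit 255213568) (nat_lit 173867008)) (I.mix (nat_lit 298549248) (nat_lit 287604736)))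
  false (nat_lit 0)
def b0_4 : Bx := Bx.mk (St.mk (I.mix (nat_lit 7290880) (nat_lit 53936128)) (I.neg (nat_lit 27983872) (nat_lit 86753280)) (I.neg (nat_lit 45105152) (nat_lit 80560128)) (I.pos (nat_lit 288964608) (nat_lit 318095360)) (I.mix (nat_lit 237125632) (nat_lit 99778560)) (I.mix (nat_lit 145047552) (nat_lit 193282048)) (I.mix (nat_lit 147963904) (nat_lit 76218368)))
  false (nat_lit 73482572)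
def b0_5 : Bx := Bx.mk (St.mk (I.neg (nat_lit 14123008) (nat_lit 77332480)) (I.pos (nat_lit 38600704) (nat_lit 95961088)) (I.neg (nat_lit 23543808) (nat_lit 79822848)) (I.pos (nat_lit 293994496) (nat_lit 344637440)) (I.mix (nat_lit 164986880) (nat_lit 199049216)) (I.mix (nat_lit 142196736) (nat_lit 153534464)) (I.mix (nat_lit 180387840) (nat_lit 152633344)))
  true (nat_lit 0)
def b0_6 : Bx := Bx.mk (St.mk (I.pos (nat_lit 159940608) (nat_lit 205209600)) (I.mix (nat_lit 19218432) (nat_lit 36765696)) (I.neg (nat_lit 11190272) (nat_lit 111968256)) (I.pos (nat_lit 411729920) (nat_lit 495534080)) (I.mix (nat_lit 230752256) (nat_lit 66813952)) (I.mix (nat_lit 142163968) (nat_lit 134922240)) (I.mix (nat_lit 223444992) (nat_lit 238845952)))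
  false (nat_lit 0)
def b0_7 : Bx := Bx.mk (St.mk (I.pos (nat_lit 52625408) (nat_lit 85983232)) (I.mix (nat_lit 43171840) (nat_lit 1720320)) (I.mix (nat_lit 32079872) (nat_lit 5636096)) (I.pos (nat_lit 306118656) (nat_lit 330874880)) (I.mix (nat_lit 163397632) (nat_lit 64847872)) (I.mix (nat_lit 86605824) (nat_lit 106807296)) (I.mix (nat_lit 96731136) (nat_lit 93880320)))
  false (nat_lit 0)
def b0_8 : Bx := Bx.mk (St.mk (I.neg (nat_lit 8110080) (nat_lit 41533440)) (I.mix (nat_lit 16809984) (nat_lit 25559040)) (I.neg (nat_lit 45940736) (nat_lit 57065472)) (I.pos (nat_lit 285933568) (nat_lit 295436288)) (I.mix (nat_lit 138657792) (nat_lit 73236480)) (I.mix (nat_lit 89702400) (nat_lit 89702400)) (I.mix (nat_lit 38469632) (nat_lit 27869184)))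
  true (nat_lit 0)
def b0_9 : Bx := Bx.mk (St.mk (I.pos (nat_lit 108216320) (nat_lit 145096704)) (I.neg (nat_lit 1703936) (nat_lit 51740672)) (I.mix (nat_lit 46530560) (nat_lit 9273344)) (I.pos (nat_lit 350683136) (nat_lit 395542528)) (I.mix (nat_lit 107397120) (nat_lit 147439616)) (I.mix (nat_lit 146554880) (nat_lit 112033792)) (I.mix (nat_lit 170704896) (nat_lit 107446272)))
  false (nat_lit 3495716)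
def b0_10 : Bx := Bx.mk (St.mk (I.pos (nat_lit 8110080) (nat_lit 41631744)) (I.mix (nat_lit 27099136) (nat_lit 16809984)) (I.neg (nat_lit 45940736) (nat_lit 57065472)) (I.pos (nat_lit 285933568) (nat_lit 295436288)) (I.mix (nat_lit 73236480) (nat_lit 138657792)) (I.mix (nat_lit 89702400) (nat_lit 89702400)) (I.mix (nat_lit 40976384) (nat_lit 28229632)))
  false (nat_lit 0)
def b0_11 : Bx := Bx.mk (St.mk (I.neg (nat_lit 52559872) (nat_lit 86048768)) (I.mix (nat_lit 1720320) (nat_lit 41566208)) (I.mix (nat_lit 30392320) (nat_lit 5636096)) (I.pos (nat_lit 306069504) (nat_lit 330874880)) (I.mix (nat_lit 64847872) (nat_lit 163397632)) (I.mix (nat_lit 106807296) (nat_lit 86556672)) (I.mix (nat_lit 96731136) (nat_lit 93880320)))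
  true (nat_lit 0)
def b0_12 : Bx := Bx.mk (St.mk (I.pos (nat_lit 61620224) (nat_lit 104267776)) (I.mix (nat_lit 36454400) (nat_lit 4456448)) (I.mix (nat_lit 29933568) (nat_lit 6488064)) (I.pos (nat_lit 311492608) (nat_lit 346243072)) (I.mix (nat_lit 132382720) (nat_lit 91734016)) (I.mix (nat_lit 80642048) (nat_lit 112508928)) (I.mix (nat_lit 94191616) (nat_lit 93274112)))
  false (nat_lit 0)
def b0_13 : Bx := Bx.mk (St.mk (I.mix (nat_lit 34242560) (nat_lit 2457600)) (I.mix (nat_lit 20430848) (nat_lit 15843328)) (I.neg (nat_lit 45678592) (nat_lit 51675136)) (I.pos (nat_lit 286162944) (nat_lit 293240832)) (I.mix (nat_lit 112623616) (nat_lit 90767360)) (I.mix (nat_lit 94339072) (nat_lit 76431360)) (I.mix (nat_lit 23396352) (nat_lit 25346048)))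
  true (nat_lit 0)
def b0_14 : Bx := Bx.mk (St.mk (I.pos (nat_lit 147111936) (nat_lit 198180864)) (I.pos (nat_lit 17088512) (nat_lit 83247104)) (I.mix (nat_lit 29605888) (nat_lit 73416704)) (I.pos (nat_lit 411336704) (nat_lit 517341184)) (I.mix (nat_lit 195018752) (nat_lit 151289856)) (I.mix (nat_lit 198230016) (nat_lit 169164800)) (I.mix (nat_lit 394379264) (nat_lit 239403008)))
  false (nat_lit 5246551)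
def b0_15 : Bx := Bx.mk (St.mk (I.pos (nat_lit 41549824) (nat_lit 82984960)) (I.neg (nat_lit 24543232) (nat_lit 81494016)) (I.neg (nat_lit 16908288) (nat_lit 61079552)) (I.pos (nat_lit 302940160) (nat_lit 342179840)) (I.mix (nat_lit 145457152) (nat_lit 130318336)) (I.mix (nat_lit 123404288) (nat_lit 151044096)) (I.mix (nat_lit 128368640) (nat_lit 160563200)))
  false (nat_lit 46847438)
def b0_16 : Bx := Bx.mk (St.mk (I.mix (nat_lit 42467328) (nat_lit 4603904)) (I.pos (nat_lit 12353536) (nat_lit 60964864)) (I.neg (nat_lit 50397184) (nat_lit 72253440)) (I.pos (nat_lit 286490624) (nat_lit 302006272)) (I.mix (nat_lit 104415232) (nat_lit 166559744)) (I.mix (nat_lit 146866176) (nat_lit 82165760)) (I.mix (nat_lit 77365248) (nat_lit 41877504)))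
  true (nat_lit 0)
def b0_17 : Bx := Bx.mk (St.mk (I.pos (nat_lit 96206848) (nat_lit 153141248)) (I.mix (nat_lit 12599296) (nat_lit 37601280)) (I.mix (nat_lit 4423680) (nat_lit 63193088)) (I.pos (nat_lit 348307456) (nat_lit 410796032)) (I.mix (nat_lit 197509120) (nat_lit 121454592)) (I.mix (nat_lit 207831040) (nat_lit 110755840)) (I.mix (nat_lit 219856896) (nat_lit 170065920)))
  false (nat_lit 43764212)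
def b0_18 : Bx := Bx.mk (St.mk (I.mix (nat_lit 4603904) (nat_lit 42467328)) (I.neg (nat_lit 12353536) (nat_lit 60964864)) (I.neg (nat_lit 50397184) (nat_lit 72253440)) (I.pos (nat_lit 286490624) (nat_lit 302006272)) (I.mix (nat_lit 166592512) (nat_lit 104415232)) (I.mix (nat_lit 82165760) (nat_lit 146866176)) (I.mix (nat_lit 77365248) (nat_lit 41877504)))
  false (nat_lit 0)
def b0_19 : Bx := Bx.mk (St.mk (I.neg (nat_lit 41500672) (nat_lit 82935808)) (I.pos (nat_lit 24641536) (nat_lit 81494016)) (I.neg (nat_lit 17104896) (nat_lit 61112320)) (I.pos (nat_lit 302923776) (nat_lit 342147072)) (I.mix (nat_lit 130318336) (nat_lit 145506304)) (I.mix (nat_lit 151076864) (nat_lit 123420672)) (I.mix (nat_lit 128385024) (nat_lit 160579584)))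
  true (nat_lit 0)
def b0_20 : Bx := Bx.mk (St.mk (I.pos (nat_lit 171474944) (nat_lit 230981632)) (I.mix (nat_lit 25165824) (nat_lit 22462464)) (I.neg (nat_lit 39403520) (nat_lit 127827968)) (I.pos (nat_lit 429817856) (nat_lit 549208064)) (I.mix (nat_lit 210927616) (nat_lit 99532800)) (I.mix (nat_lit 156205056) (nat_lit 113016832)) (I.mix (nat_lit 275349504) (nat_lit 212271104)))
  false (nat_lit 0)
def b0_21 : Bx := Bx.mk (St.mk (I.pos (nat_lit 93306880) (nat_lit 134889472)) (I.neg (nat_lit 5849088) (nat_lit 51789824)) (I.neg (nat_lit 1523712) (nat_lit 47448064)) (I.pos (nat_lit 336412672) (nat_lit 381419520)) (I.mix (nat_lit 135413760) (nat_lit 107347968)) (I.mix (nat_lit 139755520) (nat_lit 107151360)) (I.mix (nat_lit 161595392) (nat_lit 89833472)))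
  false (nat_lit 0)
def b0_22 : Bx := Bx.mk (St.mk (I.mix (nat_lit 7553024) (nat_lit 34471936)) (I.mix (nat_lit 15630336) (nat_lit 20480000)) (I.neg (nat_lit 45678592) (nat_lit 51757056)) (I.pos (nat_lit 286228480) (nat_lit 293273600)) (I.mix (nat_lit 92307456) (nat_lit 113278976)) (I.mix (nat_lit 77283328) (nat_lit 95125504)) (I.mix (nat_lit 23658496) (nat_lit 25673728)))
  false (nat_lit 0)
def b0_23 : Bx := Bx.mk (St.mk (I.neg (nat_lit 61325312) (nat_lit 105021440)) (I.mix (nat_lit 4407296) (nat_lit 36470784)) (I.mix (nat_lit 29933568) (nat_lit 6504448)) (I.pos (nat_lit 311279616) (nat_lit 346931200)) (I.mix (nat_lit 91914240) (nat_lit 132956160)) (I.mix (nat_lit 112656384) (nat_lit 80805888)) (I.mix (nat_lit 94339072) (nat_lit 93437952)))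
  true (nat_lit 0)
def b0_24 : Bx := Bx.mk (St.mk (I.pos (nat_lit 54132736) (nat_lit 86163456)) (I.mix (nat_lit 41549824) (nat_lit 1736704)) (I.mix (nat_lit 30310400) (nat_lit 5701632)) (I.pos (nat_lit 307347456) (nat_lit 330940416)) (I.mix (nat_lit 150700032) (nat_lit 64356352)) (I.mix (nat_lit 86573056) (nat_lit 106512384)) (I.mix (nat_lit 96747520) (nat_lit 93552640)))
  false (nat_lit 0)
def b0_25 : Bx := Bx.mk (St.mk (I.neg (nat_lit 8077312) (nat_lit 42106880)) (I.mix (nat_lit 8683520) (nat_lit 27508736)) (I.neg (nat_lit 46120960) (nat_lit 56623104)) (I.pos (nat_lit 286261248) (nat_lit 296157184)) (I.mix (nat_lit 139362304) (nat_lit 71925760)) (I.mix (nat_lit 90210304) (nat_lit 92471296)) (I.mix (nat_lit 42221568) (nat_lit 30048256)))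
  true (nat_lit 0)
def b0_26 : Bx := Bx.mk (St.mk (I.pos (nat_lit 174768128) (nat_lit 204095488)) (I.pos (nat_lit 12533760) (nat_lit 38748160)) (I.neg (nat_lit 13697024) (nat_lit 54263808)) (I.pos (nat_lit 446529536) (nat_lit 494419968)) (I.mix (nat_lit 126730240) (nat_lit 48349184)) (I.mix (nat_lit 81428480) (nat_lit 82067456)) (I.mix (nat_lit 151355392) (nat_lit 140705792)))
  false (nat_lit 0)
def b0_27 : Bx := Bx.mk (St.mk (I.pos (nat_lit 61177856) (nat_lit 84066304)) (I.neg (nat_lit 26443776) (nat_lit 41762816)) (I.neg (nat_lit 16154624) (nat_lit 30769152)) (I.pos (nat_lit 313458688) (nat_lit 330907648)) (I.mix (nat_lit 65765376) (nat_lit 43204608)) (I.mix (nat_lit 39190528) (nat_lit 53936128)) (I.mix (nat_lit 43827200) (nat_lit 48152576)))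
  false (nat_lit 0)
def b0_28 : Bx := Bx.mk (St.mk (I.neg (nat_lit 8142848) (nat_lit 29425664)) (I.pos (nat_lit 9109504) (nat_lit 29229056)) (I.neg (nat_lit 51085312) (nat_lit 57376768)) (I.pos (nat_lit 286507008) (nat_lit 293044224)) (I.mix (nat_lit 51200000) (nat_lit 54132736)) (I.mix (nat_lit 47759360) (nat_lit 48316416)) (I.mix (nat_lit 26411008) (nat_lit 8732672)))
  true (nat_lit 0)
def b0_29 : Bx := Bx.mk (St.mk (I.pos (nat_lit 110231552) (nat_lit 135020544)) (I.mix (nat_lit 21839872) (nat_lit 933888)) (I.mix (nat_lit 11878400) (nat_lit 11681792)) (I.pos (nat_lit 354189312) (nat_lit 383811584)) (I.mix (nat_lit 90423296) (nat_lit 48955392)) (I.mix (nat_lit 74645504) (nat_lit 70909952)) (I.mix (nat_lit 78004224) (nat_lit 73842688)))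
  false (nat_lit 0)
def b0_30 : Bx := Bx.mk (St.mk (I.pos (nat_lit 8142848) (nat_lit 29409280)) (I.neg (nat_lit 7192576) (nat_lit 29229056)) (I.neg (nat_lit 51134464) (nat_lit 57376768)) (I.pos (nat_lit 286507008) (nat_lit 293060608)) (I.mix (nat_lit 54132736) (nat_lit 51183616)) (I.mix (nat_lit 48316416) (nat_lit 47759360)) (I.mix (nat_lit 26411008) (nat_lit 8732672)))
  false (nat_lit 0)
def b0_31 : Bx := Bx.mk (St.mk (I.neg (nat_lit 61177856) (nat_lit 83509248)) (I.pos (nat_lit 22822912) (nat_lit 41779200)) (I.neg (nat_lit 13369344) (nat_lit 30769152)) (I.pos (nat_lit 313458688) (nat_lit 330170368)) (I.mix (nat_lit 38928384) (nat_lit 57229312)) (I.mix (nat_lit 50216960) (nat_lit 37371904)) (I.mix (nat_lit 42614784) (nat_lit 45760512)))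
  true (nat_lit 0)
def b0_32 : Bx := Bx.mk (St.mk (I.pos (nat_lit 83345408) (nat_lit 103628800)) (I.neg (nat_lit 17285120) (nat_lit 31997952)) (I.neg (nat_lit 12009472) (nat_lit 25362432)) (I.pos (nat_lit 327401472) (nat_lit 345653248)) (I.mix (nat_lit 66781184) (nat_lit 39124992)) (I.mix (nat_lit 51904512) (nat_lit 41975808)) (I.mix (nat_lit 58146816) (nat_lit 30867456)))
  false (nat_lit 0)
def b0_33 : Bx := Bx.mk (St.mk (I.mix (nat_lit 14647296) (nat_lit 2785280)) (I.mix (nat_lit 4046848) (nat_lit 12845056)) (I.neg (nat_lit 48218112) (nat_lit 50151424)) (I.pos (nat_lit 286310400) (nat_lit 288571392)) (I.mix (nat_lit 28753920) (nat_lit 26755072)) (I.mix (nat_lit 13385728) (nat_lit 21151744)) (I.mix (nat_lit 5554176) (nat_lit 491520)))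
  true (nat_lit 0)
def b0_34 : Bx := Bx.mk (St.mk (I.pos (nat_lit 61374464) (nat_lit 105365504)) (I.mix (nat_lit 31555584) (nat_lit 4538368)) (I.mix (nat_lit 24952832) (nat_lit 6619136)) (I.pos (nat_lit 311328768) (nat_lit 347258880)) (I.mix (nat_lit 132972544) (nat_lit 91914240)) (I.mix (nat_lit 80805888) (nat_lit 112656384)) (I.mix (nat_lit 94339072) (nat_lit 93405184)))
  false (nat_lit 0)
def b0_35 : Bx := Bx.mk (St.mk (I.mix (nat_lit 34406400) (nat_lit 3932160)) (I.mix (nat_lit 20463616) (nat_lit 15384576)) (I.neg (nat_lit 45875200) (nat_lit 51757056)) (I.pos (nat_lit 286507008) (nat_lit 293289984)) (I.mix (nat_lit 113278976) (nat_lit 92307456)) (I.mix (nat_lit 95125504) (nat_lit 77283328)) (I.mix (nat_lit 23707648) (nat_lit 25673728)))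
  true (nat_lit 0)
def t0 : BTr := (BTr.n (BTr.n (BTr.n (BTr.n (BTr.n (BTr.b b0_0) (BTr.b b0_1)) (BTr.n (BTr.b b0_2) (BTr.b b0_3))) (BTr.n (BTr.n (BTr.b b0_4) (BTr.b b0_5)) (BTr.n (BTr.b b0_6) (BTr.n (BTr.b b0_7) (BTr.b b0_8))))) (BTr.n (BTr.n (BTr.n (BTr.b b0_9) (BTr.b b0_10)) (BTr.n (BTr.b b0_11) (BTr.b b0_12))) (BTr.n (BTr.n (BTr.b b0_13) (BTr.b b0_14)) (BTr.n (BTr.b b0_15) (BTr.n (BTr.b b0_16) (BTr.b b0_17)))))) (BTr.n (BTr.n (BTr.n (BTr.n (BTr.b b0_18) (BTr.b b0_19)) (BTr.n (BTr.b b0_20) (BTr.b b0_21))) (BTr.n (BTr.n (BTr.b b0_22) (BTr.b b0_23)) (BTr.n (BTr.b b0_24) (BTr.n (BTr.b b0_25) (BTr.b b0_26))))) (BTr.n (BTr.n (BTr.n (BTr.b b0_27) (BTr.b b0_28)) (BTr.n (BTr.b b0_29) (BTr.b b0_30))) (BTr.n (BTr.n (BTr.b b0_31) (BTr.b b0_32)) (BTr.n (BTr.b b0_33) (BTr.n (BTr.b b0_34) (BTr.b b0_35)))))))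
namespace T0
def l0 : Tr := Tr.L (Pth.l (Pth.l (Pth.l (Pth.l (Pth.l Pth.z)))))
def l1 : Tr := Tr.L (Pth.l (Pth.l (Pth.l (Pth.l (Pth.r Pth.z)))))
def l2 : Tr := Tr.L (Pth.l (Pth.l (Pth.l (Pth.r (Pth.l Pth.z)))))
def l3 : Tr := Tr.L (Pth.l (Pth.l (Pth.l (Pth.r (Pth.r Pth.z)))))
def l4 : Tr := Tr.L (Pth.l (Pth.l (Pth.r (Pth.l (Pth.l Pth.z)))))
def l5 : Tr := Tr.L (Pth.l (Pth.l (Pth.r (Pth.l (Pth.r Pth.z)))))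
def l6 : Tr := Tr.L (Pth.l (Pth.l (Pth.r (Pth.r (Pth.l Pth.z)))))
def l7 : Tr := Tr.L (Pth.l (Pth.l (Pth.r (Pth.r (Pth.r (Pth.l Pth.z))))))
def l8 : Tr := Tr.L (Pth.l (Pth.l (Pth.r (Pth.r (Pth.r (Pth.r Pth.z))))))
def l9 : Tr := Tr.L (Pth.l (Pth.r (Pth.l (Pth.l (Pth.l Pth.z)))))
def l10 : Tr := Tr.L (Pth.l (Pth.r (Pth.l (Pth.l (Pth.r Pth.z)))))
def l11 : Tr := Tr.L (Pth.l (Pth.r (Pth.l (Pth.r (Pth.l Pth.z)))))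
def l12 : Tr := Tr.L (Pth.l (Pth.r (Pth.l (Pth.r (Pth.r Pth.z)))))
def l13 : Tr := Tr.L (Pth.l (Pth.r (Pth.r (Pth.l (Pth.l Pth.z)))))
def l14 : Tr := Tr.L (Pth.l (Pth.r (Pth.r (Pth.l (Pth.r Pth.z)))))
def l15 : Tr := Tr.L (Pth.l (Pth.r (Pth.r (Pth.r (Pth.l Pth.z)))))
def l16 : Tr := Tr.L (Pth.l (Pth.r (Pth.r (Pth.r (Pth.r (Pth.l Pth.z))))))
def l17 : Tr := Tr.L (Pth.l (Pth.r (Pth.r (Pth.r (Pth.r (Pth.r Pth.z))))))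
def l18 : Tr := Tr.L (Pth.r (Pth.l (Pth.l (Pth.l (Pth.l Pth.z)))))
def l19 : Tr := Tr.L (Pth.r (Pth.l (Pth.l (Pth.l (Pth.r Pth.z)))))
def l20 : Tr := Tr.L (Pth.r (Pth.l (Pth.l (Pth.r (Pth.l Pth.z)))))
def l21 : Tr := Tr.L (Pth.r (Pth.l (Pth.l (Pth.r (Pth.r Pth.z)))))
def l22 : Tr := Tr.L (Pth.r (Pth.l (Pth.r (Pth.l (Pth.l Pth.z)))))
def l23 : Tr := Tr.L (Pth.r (Pth.l (Pth.r (Pth.l (Pth.r Pth.z)))))
def l24 : Tr := Tr.L (Pth.r (Pth.l (Pth.r (Pth.r (Pth.l Pth.z)))))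
def l25 : Tr := Tr.L (Pth.r (Pth.l (Pth.r (Pth.r (Pth.r (Pth.l Pth.z))))))
def l26 : Tr := Tr.L (Pth.r (Pth.l (Pth.r (Pth.r (Pth.r (Pth.r Pth.z))))))
def l27 : Tr := Tr.L (Pth.r (Pth.r (Pth.l (Pth.l (Pth.l Pth.z)))))
def l28 : Tr := Tr.L (Pth.r (Pth.r (Pth.l (Pth.l (Pth.r Pth.z)))))
def l29 : Tr := Tr.L (Pth.r (Pth.r (Pth.l (Pth.r (Pth.l Pth.z)))))
def l30 : Tr := Tr.L (Pth.r (Pth.r (Pth.l (Pth.r (Pth.r Pth.z)))))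
def l31 : Tr := Tr.L (Pth.r (Pth.r (Pth.r (Pth.l (Pth.l Pth.z)))))
def l32 : Tr := Tr.L (Pth.r (Pth.r (Pth.r (Pth.l (Pth.r Pth.z)))))
def l33 : Tr := Tr.L (Pth.r (Pth.r (Pth.r (Pth.r (Pth.l Pth.z)))))
def l34 : Tr := Tr.L (Pth.r (Pth.r (Pth.r (Pth.r (Pth.r (Pth.l Pth.z))))))
def l35 : Tr := Tr.L (Pth.r (Pth.r (Pth.r (Pth.r (Pth.r (Pth.r Pth.z))))))
end T0
def rc0_0_0_ll : Tr := (xa (xb (xa (xb (xa (xb T0.l0 (xc T0.l0 T0.l0)) (xb T0.l0 T0.l0)) (xa (xb (xc T0.l0 T0.l0) (xc T0.l0 T0.l0)) (xb T0.l0 T0.l0))) (xb (xa T0.l0 T0.l0) (xa T0.l0 T0.l0))) (xa (xb (xa (xb (xc T0.l0 T0.l0) (xc T0.l0 T0.l0)) (xb T0.l0 T0.l0)) (xa (xb (xc (xa T0.l0 T0.l0) T0.l0) (xc (xa T0.l0 T0.l0) (xa T0.l0 T0.l0))) (xb T0.l0 T0.l0))) (xb (xa (xb T0.l0 T0.l0) T0.l0) (xa (xb T0.l0 T0.l0) T0.l0)))) (xb (xa (xb T0.l0 T0.l0) (xb T0.l0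 T0.l0)) (xa (xb T0.l0 (xa T0.l0 T0.l0)) (xb T0.l0 (xa T0.l0 T0.l0)))))
theorem qc0_0_0_ll : chkTr (tg true true false RT.r2) b0_0 t0 rc0_0_0_ll
  (upd lo Co.b (upd lo Co.a (rc sI cl4 cl4 cl4 b0_0 (I.pos (nat_lit 0) (nat_lit 0))))) = true := by decide +kernel
def rc0_0_0_lrll : Tr := (xa (xb (xa (xb (xc (xa T0.l0 T0.l0) (xa T0.l0 T0.l0)) (xc (xa T0.l0 T0.l0) (xa T0.l0 T0.l0))) (xb T0.l0 T0.l0)) (xa (xb (xc (xa T0.l0 T0.l0) (xa T0.l0 T0.l0)) (xc (xa T0.l0 T0.l0) (xa T0.l0 T0.l0))) (xb T0.l0 (xc T0.l0 T0.l0)))) (xb (xa (xb T0.l0 T0.l0) (xb T0.l0 T0.l0)) (xa (xb T0.l0 T0.l0) (xb T0.l0 T0.l0))))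
theorem qc0_0_0_lrll : chkTr (tg true true false RT.r2) b0_0 t0 rc0_0_0_lrll
  (upd lo Co.b (upd lo Co.a (upd hi Co.b (upd lo Co.a (rc sI cl4 cl4 cl4 b0_0 (I.pos (nat_lit 0) (nat_lit 0))))))) = true := by decide +kernel
def rc0_0_0_lrlr : Tr := (xa (xb (xa (xb (xc (xa T0.l0 T0.l0) (xa (xb T0.l0 T0.l0) T0.l0)) (xc (xa T0.l0 T0.l0) (xa (xb T0.l0 T0.l0) T0.l0))) (xb (xc T0.l0 T0.l0) (xc (xa T0.l0 T0.l0) T0.l0))) (xa (xb (xc (xa (xb T0.l0 T0.l0) T0.l0) (xa (xb T0.l0 T0.l0) (xb T0.l0 T0.l0))) (xc (xa (xb T0.l0 T0.l0) (xb T0.l0 T0.l0)) (xa (xb T0.l0 T0.l0) (xb T0.l0 T0.l0)))) (xb (xc (xa T0.l0 T0.l0) (xa T0.l0 T0.l0)) (xc (xa (xb T0.l0 T0.l0) (xb T0.l0 T0.l0)) (xa (xb T0.l0 T0.l0) (xb T0.l0 T0.l0)))))) (xb (xa (xb (xc T0.l0 T0.l0) (xc T0.l0 T0.l0)) (xb (xc T0.l0 T0.l0) (xc T0.l0 T0.l0))) (xa (xb (xc (xa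 T0.l0 T0.l0) (xa T0.l0 T0.l0)) (xc (xa (xb T0.l0 T0.l0) (xb T0.l0 T0.l0)) (xa (xb T0.l0 T0.l0) (xb T0.l0 T0.l0)))) (xb (xc (xa T0.l0 T0.l0) (xa T0.l0 T0.l0)) (xc (xa (xb T0.l0 T0.l0) (xb T0.l0 T0.l0)) (xa (xb T0.l0 T0.l0) (xb T0.l0 T0.l0)))))))
theorem qc0_0_0_lrlr : chkTr (tg true true false RT.r2) b0_0 t0 rc0_0_0_lrlr
  (upd hi Co.b (upd lo Co.a (upd hi Co.b (upd lo Co.a (rc sI cl4 cl4 cl4 b0_0 (I.pos (nat_lit 0) (nat_lit 0))))))) = true := by decide +kernel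
theorem qc0_0_0_lrl : chkTr (tg true true false RT.r2) b0_0 t0 (Tr.N Co.b rc0_0_0_lrll rc0_0_0_lrlr)
  (upd lo Co.a (upd hi Co.b (upd lo Co.a (rc sI cl4 cl4 cl4 b0_0 (I.pos (nat_lit 0) (nat_lit 0)))))) = true := tr_split qc0_0_0_lrll qc0_0_0_lrlr
def rc0_0_0_lrr : Tr := (xb (xa (xb (xa T0.l0 T0.l0) (xa (xb T0.l0 T0.l0) (xb T0.l0 T0.l0))) (xb (xa T0.l0 T0.l0) (xa (xb T0.l0 T0.l0) (xb T0.l0 T0.l0)))) (xa (xb (xa (xb (xc T0.l0 T0.l0) (xc T0.l0 T0.l0)) (xb (xc T0.l0 T0.l0) (xc T0.l0 T0.l0))) (xa (xb (xc (xa T0.l0 T0.l0) (xa T0.l0 T0.l0)) (xc (xa (xb T0.l0 T0.l0) T0.l0) (xa (xb T0.l0 T0.l0) (xb T0.l0 T0.l0)))) (xb (xc (xa T0.l0 T0.l0) (xa T0.l0 T0.l0)) (xc (xa T0.l0 T0.l0) (xa (xb T0.l0 T0.l0) (xb T0.l0 T0.l0)))))) (xb (xa (xb (xc T0.l0 T0.l0) (xc T0.l0 T0.l0)) (xb (xc T0.l0 T0.l0) (xc T0.l0 T0.l0))) (xa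 (xb (xc (xa T0.l0 T0.l0) (xa T0.l0 T0.l0)) (xc (xa T0.l0 T0.l0) (xa (xb T0.l0 T0.l0) (xb T0.l0 T0.l0)))) (xb (xc T0.l0 (xa T0.l0 T0.l0)) (xc (xa T0.l0 T0.l0) (xa (xb T0.l0 T0.l0) (xb T0.l0 T0.l0))))))))
theorem qc0_0_0_lrr : chkTr (tg true true false RT.r2) b0_0 t0 rc0_0_0_lrr
  (upd hi Co.a (upd hi Co.b (upd lo Co.a (rc sI cl4 cl4 cl4 b0_0 (I.pos (nat_lit 0) (nat_lit 0)))))) = true := by decide +kernel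
theorem qc0_0_0_lr : chkTr (tg true true false RT.r2) b0_0 t0 (Tr.N Co.a (Tr.N Co.b rc0_0_0_lrll rc0_0_0_lrlr) rc0_0_0_lrr)
  (upd hi Co.b (upd lo Co.a (rc sI cl4 cl4 cl4 b0_0 (I.pos (nat_lit 0) (nat_lit 0))))) = true := tr_split qc0_0_0_lrl qc0_0_0_lrr
theorem qc0_0_0_l : chkTr (tg true true false RT.r2) b0_0 t0 (Tr.N Co.b rc0_0_0_ll (Tr.N Co.a (Tr.N Co.b rc0_0_0_lrll rc0_0_0_lrlr) rc0_0_0_lrr))
  (upd lo Co.a (rc sI cl4 cl4 cl4 b0_0 (I.pos (nat_lit 0) (nat_lit 0)))) = true := tr_split qc0_0_0_ll qc0_0_0_lr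
def rc0_0_0_rl : Tr := (xa (xb (xa T0.l0 T0.l0) (xa (xb T0.l0 T0.l0) (xb T0.l0 T0.l0))) (xb (xa T0.l0 (xb T0.l0 T0.l0)) (xa (xb T0.l0 T0.l0) (xb T0.l0 (xa T0.l0 T0.l0)))))
theorem qc0_0_0_rl : chkTr (tg true true false RT.r2) b0_0 t0 rc0_0_0_rl
  (upd lo Co.b (upd hi Co.a (rc sI cl4 cl4 cl4 b0_0 (I.pos (nat_lit 0) (nat_lit 0))))) = true := by decide +kernel
def rc0_0_0_rr : Tr := (xa (xb (xa (xb (xa T0.l0 T0.l0) (xa (xb T0.l0 T0.l0) (xb T0.l0 T0.l0))) (xb (xa T0.l0 T0.l0) (xa (xb T0.l0 T0.l0) (xb T0.l0 T0.l0)))) (xa (xb (xa (xb T0.l0 (xc T0.l0 T0.l0)) (xb T0.l0 (xc T0.l0 T0.l0))) (xa (xb (xc T0.l0 T0.l0) (xc (xa T0.l0 T0.l0) (xa (xb T0.l0 T0.l0) (xb T0.l0 T0.l0)))) (xb (xc T0.l0 T0.l0) (xc (xa T0.l0 T0.l0) (xa (xb T0.l0 T0.l0) T0.l0))))) (xb (xa (xb T0.l0 (xc T0.l0 T0.l0)) (xb T0.l0 (xc T0.l0 T0.l0)))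 (xa (xb (xc T0.l0 T0.l0) (xc T0.l0 (xa T0.l0 T0.l0))) (xb (xc T0.l0 T0.l0) (xc T0.l0 (xa T0.l0 T0.l0))))))) (xb (xa (xb (xa T0.l0 T0.l0) (xa (xb T0.l0 T0.l0) (xb T0.l0 T0.l0))) (xb (xa T0.l0 T0.l0) (xa (xb T0.l0 T0.l0) (xb T0.l0 T0.l0)))) (xa (xb (xa (xb T0.l0 T0.l0) (xb T0.l0 T0.l0)) (xa (xb (xc T0.l0 T0.l0) (xc T0.l0 (xa T0.l0 T0.l0))) (xb (xc T0.l0 T0.l0) (xc T0.l0 (xa T0.l0 T0.l0))))) (xb (xa (xb T0.l0 T0.l0) (xb T0.l0 (xc T0.l0 (xa T0.l0 T0.l0)))) (xa (xb (xc T0.l0 T0.l0) (xc T0.l0 (xa T0.l0 (xb T0.l0 T0.l0)))) (xb (xc T0.l0 (xa T0.l0 (xb T0.l0 T0.l0))) (xc (xa T0.l0 (xb T0.l0 T0.l0)) (xa (xb T0.l0 T0.l0) (xb T0.l0 (xc T0.l0 T0.l0))))))))))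
theorem qc0_0_0_rr : chkTr (tg true true false RT.r2) b0_0 t0 rc0_0_0_rr
  (upd hi Co.b (upd hi Co.a (rc sI cl4 cl4 cl4 b0_0 (I.pos (nat_lit 0) (nat_lit 0))))) = true := by decide +kernel
theorem qc0_0_0_r : chkTr (tg true true false RT.r2) b0_0 t0 (Tr.N Co.b rc0_0_0_rl rc0_0_0_rr)
  (upd hi Co.a (rc sI cl4 cl4 cl4 b0_0 (I.pos (nat_lit 0) (nat_lit 0)))) = true := tr_split qc0_0_0_rl qc0_0_0_rr
theorem qc0_0_0_ : chkTr (tg true true false RT.r2) b0_0 t0 (Tr.N Co.a (Tr.N Co.b rc0_0_0_ll (Tr.N Co.a (Tr.N Co.b rc0_0_0_lrll rc0_0_0_lrlr) rc0_0_0_lrr)) (Tr.N Co.b rc0_0_0_rl rc0_0_0_rr))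
  (rc sI cl4 cl4 cl4 b0_0 (I.pos (nat_lit 0) (nat_lit 0))) = true := tr_split qc0_0_0_l qc0_0_0_r
theorem c0_0_0 : chkTag sI cl4 cl4 cl4 t0 b0_0 (tg true true false RT.r2) (I.pos (nat_lit 0) (nat_lit 0))
  (Tr.N Co.a (Tr.N Co.b rc0_0_0_ll (Tr.N Co.a (Tr.N Co.b rc0_0_0_lrll rc0_0_0_lrlr) rc0_0_0_lrr)) (Tr.N Co.b rc0_0_0_rl rc0_0_0_rr)) = true := tag_mk (by decide +kernel) qc0_0_0_
def rc0_0_1_ll : Tr := (xa (xb (xc (xa (xb T0.l1 T0.l1) (xb T0.l1 T0.l1)) (xa (xb T0.l1 T0.l1) (xb T0.l1 T0.l1))) (xc (xa (xb T0.l1 T0.l1) (xb T0.l1 T0.l1)) (xa (xb T0.l1 (xc T0.l1 T0.l1)) (xb T0.l1 T0.l1)))) (xb (xc (xa (xb T0.l1 T0.l1) (xb T0.l1 T0.l1)) (xa (xb T0.l1 T0.l1) T0.l1)) (xc (xa (xb T0.l1 T0.l1) (xb T0.l1 T0.l1)) (xa (xb T0.l1 T0.l1) (xb T0.l1 T0.l1)))))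
theorem qc0_0_1_ll : chkTr (tg true false false RT.r3) b0_0 t0 rc0_0_1_ll
  (upd lo Co.b (upd lo Co.a (rc sI cl4 cl4 cl4 b0_0 (I.pos (nat_lit 0) (nat_lit 0))))) = true := by decide +kernel
def rc0_0_1_lr : Tr := (xa (xb (xc (xa (xb (xc T0.l1 T0.l1) (xc T0.l1 T0.l1)) (xb T0.l1 T0.l1)) (xa (xb (xc T0.l1 T0.l1) (xc T0.l1 T0.l1)) (xb (xc T0.l1 T0.l1) (xc T0.l1 T0.l1)))) (xc (xa (xb (xc T0.l1 (xa T0.l1 T0.l1)) (xc (xa T0.l1 T0.l1) (xa T0.l1 T0.l1))) (xb (xc T0.l1 T0.l1) (xc (xa T0.l1 T0.l1) (xa T0.l1 T0.l1)))) (xa (xb (xc (xa T0.l1 T0.l1) (xa T0.l1 T0.l1)) (xc (xa T0.l1 T0.l1) (xa T0.l1 T0.l1))) (xb (xc T0.l1 T0.l1) (xc (xa T0.l1 T0.l1) (xa T0.l1 T0.l1)))))) (xb (xc (xa (xb T0.l1 T0.l1) (xb T0.l1 T0.l1)) (xa (xb T0.l1 (xc T0.l1 T0.l1)) (xb T0.l1 T0.l1))) (xc (xa (xb (xc T0.l1 T0.l1) (xc T0.l1 T0.l1)) (xb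 (xa T0.l1 T0.l1) (xa T0.l1 T0.l1))) (xa (xb (xc T0.l1 T0.l1) (xc (xa T0.l1 T0.l1) (xa T0.l1 T0.l1))) (xb (xc T0.l1 T0.l1) (xc T0.l1 (xa T0.l1 T0.l1)))))))
theorem qc0_0_1_lr : chkTr (tg true false false RT.r3) b0_0 t0 rc0_0_1_lr
  (upd hi Co.b (upd lo Co.a (rc sI cl4 cl4 cl4 b0_0 (I.pos (nat_lit 0) (nat_lit 0))))) = true := by decide +kernel
theorem qc0_0_1_l : chkTr (tg true false false RT.r3) b0_0 t0 (Tr.N Co.b rc0_0_1_ll rc0_0_1_lr)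
  (upd lo Co.a (rc sI cl4 cl4 cl4 b0_0 (I.pos (nat_lit 0) (nat_lit 0)))) = true := tr_split qc0_0_1_ll qc0_0_1_lr
def rc0_0_1_rl : Tr := (xa (xb (xa (xc (xb T0.l1 T0.l1) T0.l1) (xc (xb T0.l1 T0.l1) T0.l1)) (xa (xc (xb T0.l1 T0.l1) (xb T0.l1 T0.l1)) (xc (xb T0.l1 T0.l1) (xb T0.l1 T0.l1)))) (xb (xa (xc (xb T0.l1 T0.l1) (xb T0.l1 T0.l1)) (xc (xb T0.l1 T0.l1) (xb (xa T0.l1 T0.l1) (xa T0.l1 T0.l1)))) (xa (xc (xb T0.l1 T0.l1) (xb T0.l1 T0.l1)) (xc (xb T0.l1 T0.l1) (xb (xa T0.l1 T0.l1) (xa T0.l1 T0.l1))))))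
theorem qc0_0_1_rl : chkTr (tg true false false RT.r3) b0_0 t0 rc0_0_1_rl
  (upd lo Co.b (upd hi Co.a (rc sI cl4 cl4 cl4 b0_0 (I.pos (nat_lit 0) (nat_lit 0))))) = true := by decide +kernel
def rc0_0_1_rr : Tr := (xa (xb (xa (xc (xb T0.l1 T0.l1) (xb T0.l1 T0.l1)) (xc (xb T0.l1 T0.l1) (xb T0.l1 T0.l1))) (xa (xc (xb (xa T0.l1 T0.l1) (xa T0.l1 T0.l1)) (xb (xc T0.l1 T0.l1) (xa (xc T0.l1 T0.l1) (xc T0.l1 T0.l1)))) (xc (xb T0.l1 (xa T0.l1 T0.l1)) (xb (xa T0.l1 T0.l1) (xa (xc T0.l1 T0.l1) (xc T0.l1 T0.l1)))))) (xb (xa (xc (xb T0.l1 T0.l1) (xb T0.l1 T0.l1)) (xc (xb T0.l1 T0.l1) (xb (xa T0.l1 T0.l1) (xa T0.l1 (xc T0.l1 T0.l1))))) (xa (xc (xb T0.l1 (xa (xc T0.l1 T0.l1) (xc T0.l1 T0.l1))) (xb (xa T0.l1 T0.l1) (xa (xc T0.l1 T0.l1) (xc T0.l1 T0.l1)))) (xc (xb (xa T0.l1 T0.l1) (xa (xc T0.l1 T0.l1) (xc (xb T0.l1 T0.l1)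 (xb T0.l1 T0.l1)))) (xb (xa (xc T0.l1 T0.l1) (xc T0.l1 T0.l1)) (xa (xc T0.l1 T0.l1) (xc (xb T0.l1 T0.l1) (xb T0.l1 T0.l1))))))))
theorem qc0_0_1_rr : chkTr (tg true false false RT.r3) b0_0 t0 rc0_0_1_rr
  (upd hi Co.b (upd hi Co.a (rc sI cl4 cl4 cl4 b0_0 (I.pos (nat_lit 0) (nat_lit 0))))) = true := by decide +kernel
theorem qc0_0_1_r : chkTr (tg true false false RT.r3) b0_0 t0 (Tr.N Co.b rc0_0_1_rl rc0_0_1_rr)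
  (upd hi Co.a (rc sI cl4 cl4 cl4 b0_0 (I.pos (nat_lit 0) (nat_lit 0)))) = true := tr_split qc0_0_1_rl qc0_0_1_rr
theorem qc0_0_1_ : chkTr (tg true false false RT.r3) b0_0 t0 (Tr.N Co.a (Tr.N Co.b rc0_0_1_ll rc0_0_1_lr) (Tr.N Co.b rc0_0_1_rl rc0_0_1_rr))
  (rc sI cl4 cl4 cl4 b0_0 (I.pos (nat_lit 0) (nat_lit 0))) = true := tr_split qc0_0_1_l qc0_0_1_r
theorem c0_0_1 : chkTag sI cl4 cl4 cl4 t0 b0_0 (tg true false false RT.r3) (I.pos (nat_lit 0) (nat_lit 0))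
  (Tr.N Co.a (Tr.N Co.b rc0_0_1_ll rc0_0_1_lr) (Tr.N Co.b rc0_0_1_rl rc0_0_1_rr)) = true := tag_mk (by decide +kernel) qc0_0_1_
theorem c0_0_2 : chkTag sI cl4 cl4 cl4 t0 b0_0 (tg true true true RT.r4) (I.pos (nat_lit 0) (nat_lit 0))
  (xa (xb (xa (xc (xb (xc (xa T0.l2 T0.l2) (xa T0.l2 T0.l2)) T0.l2) (xb (xc (xa T0.l2 T0.l2) (xa T0.l2 T0.l2)) (xc T0.l2 T0.l2))) (xc (xb T0.l2 T0.l2) (xb T0.l2 T0.l2))) (xc (xa T0.l2 T0.l2) (xa (xb T0.l2 (xc (xa T0.l2 T0.l2) (xa T0.l2 T0.l2))) T0.l2))) (xb (xa (xc (xb (xa T0.l2 T0.l2) T0.l2) (xb (xa T0.l2 T0.l2) T0.l2)) (xc (xb (xa T0.l2 (xc T0.l2 T0.l2)) (xa T0.l2 T0.l2)) (xb (xa T0.l2 T0.l2) (xa T0.l2 (xc T0.l2 T0.l2))))) (xa (xc (xb T0.l2 T0.l2) (xb T0.l2 (xa T0.l2 T0.l2))) (xc (xb (xa T0.l2 (xc T0.l2 T0.l2)) (xa (xc T0.l2 T0.l2) (xc T0.l2 (xb T0.l2 T0.l2)))) (xb (xa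 T0.l2 (xc T0.l2 T0.l2)) (xa (xc T0.l2 T0.l2) (xc (xb T0.l2 T0.l2) (xb T0.l2 T0.l2)))))))) = true := by decide +kernel
def rc0_0_3_l : Tr := (xb (xa (xb (xc (xa (xb (xc T0.l3 T0.l3) T0.l3) (xb (xc T0.l3 T0.l3) T0.l3)) (xa (xb (xc T0.l3 T0.l3) T0.l3) (xb (xc T0.l3 T0.l3) T0.l3))) (xc T0.l3 T0.l3)) (xb (xc (xa (xb (xc T0.l3 T0.l3) T0.l3) (xb (xc (xa T0.l3 T0.l3) (xa T0.l3 T0.l3)) T0.l3)) (xa (xb (xc T0.l3 T0.l3) T0.l3) (xb (xc T0.l3 T0.l3) T0.l3))) (xc (xa T0.l3 T0.l3) (xa T0.l3 T0.l3)))) (xa (xb (xc T0.l3 T0.l3) (xa (xc (xb T0.l3 (xc T0.l3 T0.l3)) (xb T0.l3 (xc T0.l3 T0.l3))) (xc T0.l3 T0.l3))) (xb (xc (xb T0.l3 T0.l3) (xa T0.l3 T0.l3)) (xc (xa T0.l3 (xb T0.l3 T0.l3)) (xa (xb T0.l3 T0.l3) (xb T0.l3 T0.l3))))))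
theorem qc0_0_3_l : chkTr (tg false false false RT.r3) b0_0 t0 rc0_0_3_l
  (upd lo Co.a (rc sI cl4 cl4 cl4 b0_0 (I.pos (nat_lit 0) (nat_lit 0)))) = true := by decide +kernel
def rc0_0_3_rll : Tr := (xb (xa (xc (xb (xa (xc T0.l3 T0.l3) (xc T0.l3 T0.l3)) T0.l3) (xb (xc T0.l3 T0.l3) T0.l3)) (xc (xb (xa (xc T0.l3 T0.l3) T0.l3) T0.l3) (xb (xa T0.l3 T0.l3) T0.l3))) (xa (xc T0.l3 (xb T0.l3 T0.l3)) (xc (xb T0.l3 T0.l3) (xb T0.l3 (xc T0.l3 T0.l3)))))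
theorem qc0_0_3_rll : chkTr (tg false false false RT.r3) b0_0 t0 rc0_0_3_rll
  (upd lo Co.a (upd lo Co.b (upd hi Co.a (rc sI cl4 cl4 cl4 b0_0 (I.pos (nat_lit 0) (nat_lit 0)))))) = true := by decide +kernel
def rc0_0_3_rlr : Tr := (xb (xa (xc (xb (xa T0.l3 (xc T0.l3 T0.l3)) (xa T0.l3 (xc T0.l3 T0.l3))) (xb (xa T0.l3 (xc T0.l3 T0.l3)) (xa T0.l3 (xc T0.l3 T0.l3)))) (xc (xb (xa (xc T0.l3 T0.l3) (xc (xb T0.l3 T0.l3) (xb T0.l3 T0.l3))) (xa (xc T0.l3 T0.l3) (xc (xb T0.l3 T0.l3) (xb T0.l3 T0.l3)))) (xb (xa (xc T0.l3 T0.l3) (xc (xb T0.l3 T0.l3) (xb T0.l3 T0.l3))) (xa (xc T0.l3 T0.l3) (xc (xb T0.l3 T0.l3) (xb T0.l3 T0.l3)))))) (xa (xc (xb (xa T0.l3 (xc T0.l3 T0.l3)) (xa T0.l3 (xc T0.l3 (xb T0.l3 T0.l3)))) (xb (xa T0.l3 (xc T0.l3 T0.l3)) (xa (xc T0.l3 T0.l3) (xc T0.l3 T0.l3)))) (xc (xb (xa (xc (xb T0.l3 T0.l3)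 (xb T0.l3 T0.l3)) (xc (xb (xa T0.l3 T0.l3) (xa T0.l3 T0.l3)) (xb (xa T0.l3 T0.l3) (xa T0.l3 T0.l3)))) (xa (xc (xb T0.l3 T0.l3) (xb T0.l3 T0.l3)) (xc (xb (xa T0.l3 T0.l3) (xa T0.l3 T0.l3)) (xb (xa T0.l3 T0.l3) (xa T0.l3 T0.l3))))) (xb (xa (xc (xb T0.l3 T0.l3) (xb T0.l3 T0.l3)) (xc (xb (xa T0.l3 T0.l3) (xa T0.l3 T0.l3)) (xb T0.l3 (xc T0.l3 T0.l3)))) (xa (xc (xb T0.l3 T0.l3) (xb T0.l3 T0.l3)) (xc (xb (xa T0.l3 T0.l3) (xa T0.l3 T0.l3)) (xb (xc T0.l3 T0.l3) (xc T0.l3 T0.l3))))))))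
theorem qc0_0_3_rlr : chkTr (tg false false false RT.r3) b0_0 t0 rc0_0_3_rlr
  (upd hi Co.a (upd lo Co.b (upd hi Co.a (rc sI cl4 cl4 cl4 b0_0 (I.pos (nat_lit 0) (nat_lit 0)))))) = true := by decide +kernel
theorem qc0_0_3_rl : chkTr (tg false false false RT.r3) b0_0 t0 (Tr.N Co.a rc0_0_3_rll rc0_0_3_rlr)
  (upd lo Co.b (upd hi Co.a (rc sI cl4 cl4 cl4 b0_0 (I.pos (nat_lit 0) (nat_lit 0))))) = true := tr_split qc0_0_3_rll qc0_0_3_rlr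
def rc0_0_3_rrl : Tr := (xb (xa (xc (xb T0.l3 T0.l3) (xb T0.l3 T0.l3)) (xc (xb (xb T0.l3 T0.l3) (xb T0.l3 T0.l3)) (xb (xc T0.l3 T0.l3) (xa T0.l3 T0.l3)))) (xa (xc (xb T0.l3 T0.l3) (xb T0.l3 (xa T0.l3 T0.l3))) (xc (xb (xb T0.l3 T0.l3) (xa T0.l3 T0.l3)) (xb (xa T0.l3 (xc T0.l3 T0.l3)) (xa (xc T0.l3 T0.l3) (xc T0.l3 T0.l3))))))
theorem qc0_0_3_rrl : chkTr (tg false false false RT.r3) b0_0 t0 rc0_0_3_rrl
  (upd lo Co.a (upd hi Co.b (upd hi Co.a (rc sI cl4 cl4 cl4 b0_0 (I.pos (nat_lit 0) (nat_lit 0)))))) = true := by decide +kernel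
def rc0_0_3_rrrll : Tr := (xc (xb (xa (xb T0.l3 T0.l3) (xb T0.l3 (xc T0.l3 T0.l3))) (xa (xb T0.l3 T0.l3) (xb (xc T0.l3 T0.l3) (xc (xa (xb T0.l3 T0.l3) (xb T0.l3 (xc T0.l3 T0.l3))) (xa (xb T0.l3 T0.l3) (xb T0.l3 T0.l3)))))) (xb (xa (xc T0.l3 T0.l3) (xc (xb T0.l3 T0.l3) (xb T0.l3 T0.l3))) (xa (xc T0.l3 T0.l3) (xc (xb T0.l3 T0.l3) (xb T0.l3 T0.l3)))))
theorem qc0_0_3_rrrll : chkTr (tg false false false RT.r3) b0_0 t0 rc0_0_3_rrrll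
  (upd lo Co.a (upd lo Co.b (upd hi Co.a (upd hi Co.b (upd hi Co.a (rc sI cl4 cl4 cl4 b0_0 (I.pos (nat_lit 0) (nat_lit 0)))))))) = true := by decide +kernel
def rc0_0_3_rrrlr : Tr := (xc (xb (xa (xc (xb T0.l3 (xa T0.l3 T0.l3)) (xb T0.l3 (xa T0.l3 T0.l3))) (xc (xb (xa T0.l3 (xb T0.l3 T0.l3)) (xa T0.l3 (xb T0.l3 T0.l3))) (xb (xa T0.l3 (xc T0.l3 T0.l3)) (xa T0.l3 (xc T0.l3 T0.l3))))) (xa (xc (xb T0.l3 (xa T0.l3 (xb T0.l3 T0.l3))) (xb T0.l3 (xa T0.l3 (xb T0.l3 T0.l3)))) (xc (xb (xa T0.l3 (xb T0.l3 T0.l3)) (xa T0.l3 (xb T0.l3 T0.l3))) (xb (xa T0.l3 (xc T0.l3 T0.l3)) (xa T0.l3 (xb T0.l3 T0.l3)))))) (xb (xa (xc (xb T0.l3 (xa T0.l3 T0.l3)) (xb T0.l3 T0.l3)) (xc (xb (xa T0.l3 (xc T0.l3 T0.l3)) (xa T0.l3 (xc T0.l3 T0.l3))) (xb (xc T0.l3 T0.l3) (xc T0.l3 T0.l3)))) (xa (xc (xb T0.l3 (xa T0.l3 T0.l3)) (xb T0.l3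 T0.l3)) (xc (xb (xa T0.l3 (xc T0.l3 T0.l3)) (xa T0.l3 (xc T0.l3 T0.l3))) (xb (xc (xa T0.l3 T0.l3) T0.l3) (xc (xa T0.l3 T0.l3) (xa T0.l3 T0.l3)))))))
theorem qc0_0_3_rrrlr : chkTr (tg false false false RT.r3) b0_0 t0 rc0_0_3_rrrlr
  (upd hi Co.a (upd lo Co.b (upd hi Co.a (upd hi Co.b (upd hi Co.a (rc sI cl4 cl4 cl4 b0_0 (I.pos (nat_lit 0) (nat_lit 0)))))))) = true := by decide +kernel
theorem qc0_0_3_rrrl : chkTr (tg false false false RT.r3) b0_0 t0 (Tr.N Co.a rc0_0_3_rrrll rc0_0_3_rrrlr)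
  (upd lo Co.b (upd hi Co.a (upd hi Co.b (upd hi Co.a (rc sI cl4 cl4 cl4 b0_0 (I.pos (nat_lit 0) (nat_lit 0))))))) = true := tr_split qc0_0_3_rrrll qc0_0_3_rrrlr
def rc0_0_3_rrrrl : Tr := (xc (xb (xa (xb T0.l3 T0.l3) (xb (xc T0.l3 T0.l3) (xc (xb (xa (xc T0.l3 T0.l3) (xc (xb (xa T0.l3 T0.l3) T0.l3) (xb T0.l3 T0.l3))) (xa (xc T0.l3 T0.l3) (xc (xb T0.l3 T0.l3) (xb T0.l3 T0.l3)))) (xb (xa (xc T0.l3 T0.l3) (xc (xb T0.l3 T0.l3) (xa T0.l3 T0.l3))) (xa (xc T0.l3 T0.l3) (xc (xb T0.l3 T0.l3) (xb T0.l3 T0.l3))))))) (xa (xc T0.l3 T0.l3) (xc (xb T0.l3 T0.l3) (xb T0.l3 T0.l3)))) (xb (xa (xc T0.l3 T0.l3) (xc (xb T0.l3 T0.l3) (xb T0.l3 T0.l3))) (xa (xc T0.l3 (xb T0.l3 T0.l3)) (xc (xb T0.l3 T0.l3) (xb T0.l3 T0.l3)))))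
theorem qc0_0_3_rrrrl : chkTr (tg false false false RT.r3) b0_0 t0 rc0_0_3_rrrrl
  (upd lo Co.a (upd hi Co.b (upd hi Co.a (upd hi Co.b (upd hi Co.a (rc sI cl4 cl4 cl4 b0_0 (I.pos (nat_lit 0) (nat_lit 0)))))))) = true := by decide +kernel
def rc0_0_3_rrrrr : Tr := (xc (xb (xa (xc (xb T0.l3 (xb (xa T0.l3 T0.l3) (xa T0.l3 T0.l3))) (xb T0.l3 (xa (xb T0.l3 T0.l3) (xb T0.l3 T0.l3)))) (xc (xb (xa T0.l3 (xb T0.l3 T0.l3)) (xa T0.l3 (xb T0.l3 T0.l3))) (xb (xa T0.l3 (xb T0.l3 T0.l3)) (xa T0.l3 (xb (xc T0.l3 T0.l3) (xc T0.l3 T0.l3)))))) (xa (xc (xb T0.l3 (xb (xa T0.l3 (xc T0.l3 T0.l3)) (xa T0.l3 (xc T0.l3 T0.l3)))) (xb T0.l3 T0.l3)) (xc (xb (xa T0.l3 (xb T0.l3 T0.l3)) (xa T0.l3 (xb T0.l3 T0.l3))) (xb (xa T0.l3 (xb T0.l3 T0.l3)) (xa T0.l3 (xb T0.l3 T0.l3)))))) (xb (xa (xc (xb T0.l3 (xa T0.l3 T0.l3)) (xb T0.l3 T0.l3))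 (xc (xb (xa T0.l3 (xc T0.l3 T0.l3)) (xa T0.l3 (xb (xc T0.l3 T0.l3) (xc T0.l3 T0.l3)))) (xb (xa T0.l3 (xc T0.l3 T0.l3)) (xa T0.l3 (xc T0.l3 T0.l3))))) (xa (xc (xb (xa T0.l3 T0.l3) T0.l3) (xb T0.l3 T0.l3)) (xc (xb (xa T0.l3 (xb (xc T0.l3 T0.l3) (xc T0.l3 T0.l3))) (xa T0.l3 (xb T0.l3 T0.l3))) (xb (xa T0.l3 (xc T0.l3 T0.l3)) (xa T0.l3 (xc T0.l3 T0.l3)))))))
theorem qc0_0_3_rrrrr : chkTr (tg false false false RT.r3) b0_0 t0 rc0_0_3_rrrrr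
  (upd hi Co.a (upd hi Co.b (upd hi Co.a (upd hi Co.b (upd hi Co.a (rc sI cl4 cl4 cl4 b0_0 (I.pos (nat_lit 0) (nat_lit 0)))))))) = true := by decide +kernel
theorem qc0_0_3_rrrr : chkTr (tg false false false RT.r3) b0_0 t0 (Tr.N Co.a rc0_0_3_rrrrl rc0_0_3_rrrrr)
  (upd hi Co.b (upd hi Co.a (upd hi Co.b (upd hi Co.a (rc sI cl4 cl4 cl4 b0_0 (I.pos (nat_lit 0) (nat_lit 0))))))) = true := tr_split qc0_0_3_rrrrl qc0_0_3_rrrrr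
theorem qc0_0_3_rrr : chkTr (tg false false false RT.r3) b0_0 t0 (Tr.N Co.b (Tr.N Co.a rc0_0_3_rrrll rc0_0_3_rrrlr) (Tr.N Co.a rc0_0_3_rrrrl rc0_0_3_rrrrr))
  (upd hi Co.a (upd hi Co.b (upd hi Co.a (rc sI cl4 cl4 cl4 b0_0 (I.pos (nat_lit 0) (nat_lit 0)))))) = true := tr_split qc0_0_3_rrrl qc0_0_3_rrrr
theorem qc0_0_3_rr : chkTr (tg false false false RT.r3) b0_0 t0 (Tr.N Co.a rc0_0_3_rrl (Tr.N Co.b (Tr.N Co.a rc0_0_3_rrrll rc0_0_3_rrrlr) (Tr.N Co.a rc0_0_3_rrrrl rc0_0_3_rrrrr)))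
  (upd hi Co.b (upd hi Co.a (rc sI cl4 cl4 cl4 b0_0 (I.pos (nat_lit 0) (nat_lit 0))))) = true := tr_split qc0_0_3_rrl qc0_0_3_rrr
theorem qc0_0_3_r : chkTr (tg false false false RT.r3) b0_0 t0 (Tr.N Co.b (Tr.N Co.a rc0_0_3_rll rc0_0_3_rlr) (Tr.N Co.a rc0_0_3_rrl (Tr.N Co.b (Tr.N Co.a rc0_0_3_rrrll rc0_0_3_rrrlr) (Tr.N Co.a rc0_0_3_rrrrl rc0_0_3_rrrrr))))
  (upd hi Co.a (rc sI cl4 cl4 cl4 b0_0 (I.pos (nat_lit 0) (nat_lit 0)))) = true := tr_split qc0_0_3_rl qc0_0_3_rr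
theorem qc0_0_3_ : chkTr (tg false false false RT.r3) b0_0 t0 (Tr.N Co.a rc0_0_3_l (Tr.N Co.b (Tr.N Co.a rc0_0_3_rll rc0_0_3_rlr) (Tr.N Co.a rc0_0_3_rrl (Tr.N Co.b (Tr.N Co.a rc0_0_3_rrrll rc0_0_3_rrrlr) (Tr.N Co.a rc0_0_3_rrrrl rc0_0_3_rrrrr)))))
  (rc sI cl4 cl4 cl4 b0_0 (I.pos (nat_lit 0) (nat_lit 0))) = true := tr_split qc0_0_3_l qc0_0_3_r
theorem c0_0_3 : chkTag sI cl4 cl4 cl4 t0 b0_0 (tg false false false RT.r3) (I.pos (nat_lit 0) (nat_lit 0))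
  (Tr.N Co.a rc0_0_3_l (Tr.N Co.b (Tr.N Co.a rc0_0_3_rll rc0_0_3_rlr) (Tr.N Co.a rc0_0_3_rrl (Tr.N Co.b (Tr.N Co.a rc0_0_3_rrrll rc0_0_3_rrrlr) (Tr.N Co.a rc0_0_3_rrrrl rc0_0_3_rrrrr))))) = true := tag_mk (by decide +kernel) qc0_0_3_
theorem c0_0_4 : chkTag sI cl4 cl4 cl4 t0 b0_0 (tg false true false RT.r4) (I.pos (nat_lit 0) (nat_lit 0))
  (xa (xb (xa (xc (xb (xc (xa T0.l4 T0.l4) (xa T0.l4 T0.l4)) T0.l4) (xb (xc (xa T0.l4 T0.l4) (xa T0.l4 T0.l4)) (xc T0.l4 T0.l4))) (xc (xb T0.l4 T0.l4) (xb T0.l4 T0.l4))) (xc (xa T0.l4 T0.l4) (xa (xb T0.l4 (xc (xa T0.l4 T0.l4) (xa T0.l4 T0.l4))) T0.l4))) (xb (xa (xc (xb (xa T0.l4 T0.l4) T0.l4) (xb (xa T0.l4 T0.l4) T0.l4)) (xc (xb (xa T0.l4 (xc T0.l4 T0.l4)) (xa T0.l4 T0.l4)) (xb (xa T0.l4 T0.l4) (xa T0.l4 (xc T0.l4 T0.l4))))) (xa (xc (xb T0.l4 T0.l4) (xb T0.l4 (xa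 T0.l4 T0.l4))) (xc (xb (xa T0.l4 (xc T0.l4 T0.l4)) (xa (xc T0.l4 T0.l4) (xc T0.l4 (xb T0.l4 T0.l4)))) (xb (xa T0.l4 (xc T0.l4 T0.l4)) (xa (xc T0.l4 T0.l4) (xc (xb T0.l4 T0.l4) (xb T0.l4 T0.l4)))))))) = true := by decide +kernel
def rc0_0_5_ll : Tr := (xa (xb (xc (xa (xb T0.l5 T0.l5) (xb T0.l5 T0.l5)) (xa (xb T0.l5 T0.l5) (xb T0.l5 T0.l5))) (xc (xa (xb T0.l5 T0.l5) (xb T0.l5 T0.l5)) (xa (xb T0.l5 (xc T0.l5 T0.l5)) (xb T0.l5 T0.l5)))) (xb (xc (xa (xb T0.l5 T0.l5) (xb T0.l5 T0.l5)) (xa (xb T0.l5 T0.l5) T0.l5)) (xc (xa (xb T0.l5 T0.l5) (xb T0.l5 T0.l5)) (xa (xb T0.l5 T0.l5) (xb T0.l5 T0.l5)))))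
theorem qc0_0_5_ll : chkTr (tg false false true RT.r5) b0_0 t0 rc0_0_5_ll
  (upd lo Co.b (upd lo Co.a (rc sI cl4 cl4 cl4 b0_0 (I.pos (nat_lit 0) (nat_lit 0))))) = true := by decide +kernel
def rc0_0_5_lr : Tr := (xa (xb (xc (xa (xb (xc T0.l5 T0.l5) (xc T0.l5 T0.l5)) (xb T0.l5 T0.l5)) (xa (xb (xc T0.l5 T0.l5) (xc T0.l5 T0.l5)) (xb (xc T0.l5 T0.l5) (xc T0.l5 T0.l5)))) (xc (xa (xb (xc T0.l5 (xa T0.l5 T0.l5)) (xc (xa T0.l5 T0.l5) (xa T0.l5 T0.l5))) (xb (xc T0.l5 T0.l5) (xc (xa T0.l5 T0.l5) (xa T0.l5 T0.l5)))) (xa (xb (xc (xa T0.l5 T0.l5) (xa T0.l5 T0.l5)) (xc (xa T0.l5 T0.l5) (xa T0.l5 T0.l5))) (xb (xc T0.l5 T0.l5) (xc (xa T0.l5 T0.l5) (xa T0.l5 T0.l5)))))) (xb (xc (xa (xb T0.l5 T0.l5) (xb T0.l5 T0.l5)) (xa (xb T0.l5 (xc T0.l5 T0.l5)) (xb T0.l5 T0.l5))) (xc (xa (xb (xc T0.l5 T0.l5) (xc T0.l5 T0.l5)) (xb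 (xa T0.l5 T0.l5) (xa T0.l5 T0.l5))) (xa (xb (xc T0.l5 T0.l5) (xc (xa T0.l5 T0.l5) (xa T0.l5 T0.l5))) (xb (xc T0.l5 T0.l5) (xc T0.l5 (xa T0.l5 T0.l5)))))))
theorem qc0_0_5_lr : chkTr (tg false false true RT.r5) b0_0 t0 rc0_0_5_lr
  (upd hi Co.b (upd lo Co.a (rc sI cl4 cl4 cl4 b0_0 (I.pos (nat_lit 0) (nat_lit 0))))) = true := by decide +kernel
theorem qc0_0_5_l : chkTr (tg false false true RT.r5) b0_0 t0 (Tr.N Co.b rc0_0_5_ll rc0_0_5_lr)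
  (upd lo Co.a (rc sI cl4 cl4 cl4 b0_0 (I.pos (nat_lit 0) (nat_lit 0)))) = true := tr_split qc0_0_5_ll qc0_0_5_lr
def rc0_0_5_rl : Tr := (xa (xb (xa (xc (xb T0.l5 T0.l5) T0.l5) (xc (xb T0.l5 T0.l5) T0.l5)) (xa (xc (xb T0.l5 T0.l5) (xb T0.l5 T0.l5)) (xc (xb T0.l5 T0.l5) (xb T0.l5 T0.l5)))) (xb (xa (xc (xb T0.l5 T0.l5) (xb T0.l5 T0.l5)) (xc (xb T0.l5 T0.l5) (xb (xa T0.l5 T0.l5) (xa T0.l5 T0.l5)))) (xa (xc (xb T0.l5 T0.l5) (xb T0.l5 T0.l5)) (xc (xb T0.l5 T0.l5) (xb (xa T0.l5 T0.l5) (xa T0.l5 T0.l5))))))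
theorem qc0_0_5_rl : chkTr (tg false false true RT.r5) b0_0 t0 rc0_0_5_rl
  (upd lo Co.b (upd hi Co.a (rc sI cl4 cl4 cl4 b0_0 (I.pos (nat_lit 0) (nat_lit 0))))) = true := by decide +kernel
def rc0_0_5_rr : Tr := (xa (xb (xa (xc (xb T0.l5 T0.l5) (xb T0.l5 T0.l5)) (xc (xb T0.l5 T0.l5) (xb T0.l5 T0.l5))) (xa (xc (xb (xa T0.l5 T0.l5) (xa T0.l5 T0.l5)) (xb (xc T0.l5 T0.l5) (xa (xc T0.l5 T0.l5) (xc T0.l5 T0.l5)))) (xc (xb T0.l5 (xa T0.l5 T0.l5)) (xb (xa T0.l5 T0.l5) (xa (xc T0.l5 T0.l5) (xc T0.l5 T0.l5)))))) (xb (xa (xc (xb T0.l5 T0.l5) (xb T0.l5 T0.l5)) (xc (xb T0.l5 (xa T0.l5 T0.l5)) (xb (xa T0.l5 (xc T0.l5 T0.l5)) (xa T0.l5 (xc T0.l5 T0.l5))))) (xa (xc (xb T0.l5 (xa (xc T0.l5 T0.l5) (xc T0.l5 T0.l5))) (xb (xa T0.l5 T0.l5) (xa (xc T0.l5 T0.l5) (xc T0.l5 T0.l5)))) (xc (xb (xa T0.l5 T0.l5) (xa (xc T0.l5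 T0.l5) (xc (xb T0.l5 T0.l5) (xb T0.l5 T0.l5)))) (xb (xa (xc T0.l5 T0.l5) (xc T0.l5 (xb T0.l5 T0.l5))) (xa (xc T0.l5 T0.l5) (xc (xb T0.l5 T0.l5) (xb T0.l5 T0.l5))))))))
theorem qc0_0_5_rr : chkTr (tg false false true RT.r5) b0_0 t0 rc0_0_5_rr
  (upd hi Co.b (upd hi Co.a (rc sI cl4 cl4 cl4 b0_0 (I.pos (nat_lit 0) (nat_lit 0))))) = true := by decide +kernel
theorem qc0_0_5_r : chkTr (tg false false true RT.r5) b0_0 t0 (Tr.N Co.b rc0_0_5_rl rc0_0_5_rr)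
  (upd hi Co.a (rc sI cl4 cl4 cl4 b0_0 (I.pos (nat_lit 0) (nat_lit 0)))) = true := tr_split qc0_0_5_rl qc0_0_5_rr
theorem qc0_0_5_ : chkTr (tg false false true RT.r5) b0_0 t0 (Tr.N Co.a (Tr.N Co.b rc0_0_5_ll rc0_0_5_lr) (Tr.N Co.b rc0_0_5_rl rc0_0_5_rr))
  (rc sI cl4 cl4 cl4 b0_0 (I.pos (nat_lit 0) (nat_lit 0))) = true := tr_split qc0_0_5_l qc0_0_5_r
theorem c0_0_5 : chkTag sI cl4 cl4 cl4 t0 b0_0 (tg false false true RT.r5) (I.pos (nat_lit 0) (nat_lit 0))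
  (Tr.N Co.a (Tr.N Co.b rc0_0_5_ll rc0_0_5_lr) (Tr.N Co.b rc0_0_5_rl rc0_0_5_rr)) = true := tag_mk (by decide +kernel) qc0_0_5_
theorem bx0_0 : BoxOK sI cl4 cl4 cl4 t0 t0 b0_0 :=
  box_mk' [(tg true true false RT.r2), (tg true false false RT.r3), (tg true true true RT.r4), (tg false false false RT.r3), (tg false true false RT.r4), (tg false false true RT.r5)] rfl (allL_c (ex_mk c0_0_0) (allL_c (ex_mk c0_0_1) (allL_c (ex_mk c0_0_2) (allL_c (ex_mk c0_0_3) (allL_c (ex_mk c0_0_4) (allL_c (ex_mk c0_0_5) allL_n))))))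
theorem c0_1_0 : chkTag sI cl4 cl4 cl4 t0 b0_1 (tg true true false RT.r2) (I.pos (nat_lit 0) (nat_lit 0))
  (xb (xa (xb (xa (xb (xa (xb T0.l6 T0.l6) (xb T0.l6 T0.l6)) (xa (xb T0.l6 T0.l6) T0.l6)) (xb (xa (xb T0.l6 T0.l6) T0.l6) (xa T0.l6 T0.l6))) (xa (xb (xa (xb T0.l6 T0.l6) T0.l6) (xa (xb T0.l6 T0.l6) T0.l6)) (xb (xa T0.l6 T0.l6) (xa T0.l6 T0.l6)))) (xb (xa (xb (xa T0.l6 T0.l6) (xa T0.l6 T0.l6)) (xa (xb T0.l6 T0.l6) (xb (xb T0.l6 T0.l6) T0.l6))) (xa (xb T0.l6 T0.l6) (xb T0.l6 T0.l6)))) (xa (xb (xa (xb (xa (xb T0.l6 T0.l6) T0.l6) (xa (xb T0.l6 T0.l6) T0.l6)) (xb (xa T0.l6 T0.l6) (xa T0.l6 T0.l6))) (xa (xb (xa (xb T0.l6 T0.l6) T0.l6) (xa (xb T0.l6 T0.l6) (xb T0.l6 T0.l6))) (xb (xa T0.l6 T0.l6) (xa (xb T0.l6 T0.l6) T0.l6)))) (xb (xa (xb T0.l6 T0.l6) (xb T0.l6 T0.l6)) (xa (xa (xb T0.l6 T0.l6) (xb T0.l6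 T0.l6)) (xb (xa T0.l6 T0.l6) (xa T0.l6 T0.l6)))))) = true := by decide +kernel
theorem c0_1_1 : chkTag sI cl4 cl4 cl4 t0 b0_1 (tg true false false RT.r3) (I.pos (nat_lit 0) (nat_lit 0))
  (xb (xa (xb (xa T0.l7 T0.l7) (xa T0.l7 T0.l7)) (xb (xa T0.l7 T0.l7) (xa T0.l7 T0.l7))) (xa (xb (xa T0.l7 T0.l7) (xa T0.l7 T0.l7)) (xb (xa T0.l7 T0.l7) (xa T0.l7 T0.l7)))) = true := by decide +kernel
theorem c0_1_2 : chkTag sI cl4 cl4 cl4 t0 b0_1 (tg true true true RT.r4) (I.pos (nat_lit 0) (nat_lit 0))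
  (xb (xa (xb T0.l8 T0.l8) (xc (xb T0.l25 T0.l25) (xb T0.l25 T0.l8))) (xa (xb T0.l8 T0.l8) (xc T0.l25 T0.l8))) = true := by decide +kernel
theorem c0_1_3 : chkTag sI cl4 cl4 cl4 t0 b0_1 (tg false false false RT.r3) (I.pos (nat_lit 0) (nat_lit 0))
  (xb (xa (xb (xa (xb (xc T0.l9 T0.l9) T0.l9) (xb T0.l9 T0.l9)) (xa T0.l9 T0.l9)) (xb (xa (xb (xc T0.l9 T0.l9) T0.l9) (xb (xc T0.l9 T0.l9) (xc T0.l9 T0.l9))) (xa (xb T0.l9 T0.l9) (xb (xc T0.l9 T0.l9) (xc T0.l9 T0.l9))))) (xa (xb (xa (xb T0.l9 T0.l9) (xb T0.l9 T0.l9)) (xa (xb T0.l9 T0.l9) (xb T0.l9 T0.l9))) (xb (xa (xb T0.l9 T0.l9) (xb (xc T0.l9 T0.l9) (xc T0.l9 T0.l9))) (xa (xb T0.l9 T0.l9) (xc T0.l9 T0.l9))))) = true := by decide +kernel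
theorem c0_1_4 : chkTag sI cl4 cl4 cl4 t0 b0_1 (tg false true false RT.r4) (I.pos (nat_lit 0) (nat_lit 0))
  (xb (xa (xb T0.l10 T0.l10) (xc (xb T0.l10 T0.l10) (xb T0.l10 T0.l10))) (xa (xb T0.l10 T0.l10) (xc (xb T0.l10 T0.l10) T0.l10))) = true := by decide +kernel
theorem c0_1_5 : chkTag sI cl4 cl4 cl4 t0 b0_1 (tg false false true RT.r5) (I.pos (nat_lit 0) (nat_lit 0))
  (xb (xa (xb (xa T0.l11 T0.l11) (xa T0.l11 T0.l11)) (xb (xa T0.l11 T0.l11) (xa T0.l11 T0.l11))) (xa (xb (xa T0.l11 T0.l11) (xa T0.l11 T0.l11)) (xb (xa T0.l11 T0.l11) (xa T0.l11 T0.l11)))) = true := by decide +kernel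
theorem bx0_1 : BoxOK sI cl4 cl4 cl4 t0 t0 b0_1 :=
  box_mk' [(tg true true false RT.r2), (tg true false false RT.r3), (tg true true true RT.r4), (tg false false false RT.r3), (tg false true false RT.r4), (tg false false true RT.r5)] rfl (allL_c (ex_mk c0_1_0) (allL_c (ex_mk c0_1_1) (allL_c (ex_mk c0_1_2) (allL_c (ex_mk c0_1_3) (allL_c (ex_mk c0_1_4) (allL_c (ex_mk c0_1_5) allL_n))))))
theorem bx0_2 : BoxOK sI cl4 cl4 cl4 t0 t0 b0_2 :=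
  box_mk (TrL.c (I.pos (nat_lit 0) (nat_lit 0)) (xb (xa (xb (xa T0.l12 T0.l12) T0.l12) (xb (xa T0.l12 T0.l34) (xa T0.l12 T0.l12))) (xa (xb T0.l12 (xa T0.l12 T0.l12)) (xb (xa T0.l12 T0.l12) (xa T0.l12 T0.l34))))
  (TrL.c (I.pos (nat_lit 0) (nat_lit 0)) (xb (xa (xb T0.l35 T0.l35) (xb T0.l13 T0.l13)) (xa (xb T0.l35 T0.l35) (xb T0.l13 T0.l35)))
  TrL.n)) (by decide +kernel)
def rc0_3_0_llllllll : Tr := (xb (xb (xa (xb (xs T0.l14 (xa (xb (xs T0.l14 (xa (xb (xs T0.l14 (xa (xb (xs T0.l14 (xa (xb (xs T0.l14 (xa (xb (xs T0.l14 (xa (xb (xs T0.l14 (xa (xb (xs T0.l14 T0.l14) T0.l14) T0.l14)) T0.l14) T0.l14)) T0.l14) T0.l14)) T0.l14) T0.l14)) T0.l14) T0.l14)) T0.l14) T0.l14)) T0.l14) T0.l14)) (xs T0.l14 (xa (xb (xs T0.l14 (xa (xb (xs T0.l14 (xa (xb (xs T0.l14 (xa (xb T0.l14 T0.l14) T0.l14)) T0.l14) T0.l14)) T0.l14)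 T0.l14)) T0.l14) T0.l14))) (xb (xs T0.l14 (xa (xb T0.l14 T0.l14) T0.l14)) T0.l14)) (xa (xb (xs T0.l14 (xa (xb (xs T0.l14 (xa (xb (xs T0.l14 (xa (xb (xs T0.l14 (xa (xb (xs T0.l14 (xa (xb (xs T0.l14 (xa (xb (xs T0.l14 (xa (xb (xs T0.l14 T0.l14) T0.l14) T0.l14)) T0.l14) T0.l14)) T0.l14) T0.l14)) T0.l14) T0.l14)) T0.l14) T0.l14)) T0.l14) T0.l14)) T0.l14) T0.l14)) T0.l14) T0.l14)) (xb (xa (xb (xs T0.l14 (xa (xb (xs T0.l14 (xa (xb (xs T0.l14 (xa (xb (xs T0.l14 (xa (xb (xs T0.l14 (xa (xb (xs T0.l14 (xa (xb (xs T0.l14 (xa (xb (xs T0.l14 T0.l14) T0.l14) T0.l14)) T0.l14) T0.l14)) T0.l14) T0.l14)) T0.l14) T0.l14)) T0.l14) T0.l14)) T0.l14) T0.l14)) T0.l14) T0.l14)) T0.l14) T0.l14) T0.l14))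
theorem qc0_3_0_llllllll : chkTr (tg true true false RT.r2) b0_3 t0 rc0_3_0_llllllll
  (upd lo Co.b (upd lo Co.a (upd lo Co.b (upd lo Co.a (upd lo Co.b (upd lo Co.a (upd lo Co.b (upd lo Co.a (rc sI cl4 cl4 cl4 b0_3 (I.pos (nat_lit 0) (nat_lit 0))))))))))) = true := by decide +kernel
def rc0_3_0_lllllllr : Tr := (xb (xb (xa (xb (xs T0.l14 (xa (xb (xs T0.l14 (xa (xb (xs T0.l14 (xa (xb (xs T0.l14 (xa (xb (xs T0.l14 (xa (xb (xs T0.l14 (xa (xb (xs T0.l14 (xa (xb (xs T0.l14 T0.l14) T0.l14) T0.l14)) T0.l14) T0.l14)) T0.l14) T0.l14)) T0.l14) T0.l14)) T0.l14) T0.l14)) T0.l14) T0.l14)) T0.l14) T0.l14)) T0.l14) T0.l14) T0.l14) T0.l14)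
theorem qc0_3_0_lllllllr : chkTr (tg true true false RT.r2) b0_3 t0 rc0_3_0_lllllllr
  (upd hi Co.b (upd lo Co.a (upd lo Co.b (upd lo Co.a (upd lo Co.b (upd lo Co.a (upd lo Co.b (upd lo Co.a (rc sI cl4 cl4 cl4 b0_3 (I.pos (nat_lit 0) (nat_lit 0))))))))))) = true := by decide +kernel
theorem qc0_3_0_lllllll : chkTr (tg true true false RT.r2) b0_3 t0 (Tr.N Co.b rc0_3_0_llllllll rc0_3_0_lllllllr)
  (upd lo Co.a (upd lo Co.b (upd lo Co.a (upd lo Co.b (upd lo Co.a (upd lo Co.b (upd lo Co.a (rc sI cl4 cl4 cl4 b0_3 (I.pos (nat_lit 0) (nat_lit 0)))))))))) = true := tr_split qc0_3_0_llllllll qc0_3_0_lllllllr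
def rc0_3_0_llllllr : Tr := (xb (xb T0.l14 T0.l14) T0.l14)
theorem qc0_3_0_llllllr : chkTr (tg true true false RT.r2) b0_3 t0 rc0_3_0_llllllr
  (upd hi Co.a (upd lo Co.b (upd lo Co.a (upd lo Co.b (upd lo Co.a (upd lo Co.b (upd lo Co.a (rc sI cl4 cl4 cl4 b0_3 (I.pos (nat_lit 0) (nat_lit 0)))))))))) = true := by decide +kernel
theorem qc0_3_0_llllll : chkTr (tg true true false RT.r2) b0_3 t0 (Tr.N Co.a (Tr.N Co.b rc0_3_0_llllllll rc0_3_0_lllllllr) rc0_3_0_llllllr)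
  (upd lo Co.b (upd lo Co.a (upd lo Co.b (upd lo Co.a (upd lo Co.b (upd lo Co.a (rc sI cl4 cl4 cl4 b0_3 (I.pos (nat_lit 0) (nat_lit 0))))))))) = true := tr_split qc0_3_0_lllllll qc0_3_0_llllllr
def rc0_3_0_lllllr : Tr := (xa T0.l14 T0.l14)
theorem qc0_3_0_lllllr : chkTr (tg true true false RT.r2) b0_3 t0 rc0_3_0_lllllr
  (upd hi Co.b (upd lo Co.a (upd lo Co.b (upd lo Co.a (upd lo Co.b (upd lo Co.a (rc sI cl4 cl4 cl4 b0_3 (I.pos (nat_lit 0) (nat_lit 0))))))))) = true := by decide +kernel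
theorem qc0_3_0_lllll : chkTr (tg true true false RT.r2) b0_3 t0 (Tr.N Co.b (Tr.N Co.a (Tr.N Co.b rc0_3_0_llllllll rc0_3_0_lllllllr) rc0_3_0_llllllr) rc0_3_0_lllllr)
  (upd lo Co.a (upd lo Co.b (upd lo Co.a (upd lo Co.b (upd lo Co.a (rc sI cl4 cl4 cl4 b0_3 (I.pos (nat_lit 0) (nat_lit 0)))))))) = true := tr_split qc0_3_0_llllll qc0_3_0_lllllr
def rc0_3_0_llllr : Tr := (xb (xa T0.l14 T0.l14) (xa T0.l14 T0.l14))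
theorem qc0_3_0_llllr : chkTr (tg true true false RT.r2) b0_3 t0 rc0_3_0_llllr
  (upd hi Co.a (upd lo Co.b (upd lo Co.a (upd lo Co.b (upd lo Co.a (rc sI cl4 cl4 cl4 b0_3 (I.pos (nat_lit 0) (nat_lit 0)))))))) = true := by decide +kernel
theorem qc0_3_0_llll : chkTr (tg true true false RT.r2) b0_3 t0 (Tr.N Co.a (Tr.N Co.b (Tr.N Co.a (Tr.N Co.b rc0_3_0_llllllll rc0_3_0_lllllllr) rc0_3_0_llllllr) rc0_3_0_lllllr) rc0_3_0_llllr)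
  (upd lo Co.b (upd lo Co.a (upd lo Co.b (upd lo Co.a (rc sI cl4 cl4 cl4 b0_3 (I.pos (nat_lit 0) (nat_lit 0))))))) = true := tr_split qc0_3_0_lllll qc0_3_0_llllr
def rc0_3_0_lllr : Tr := (xa (xb (xa T0.l14 T0.l14) (xa T0.l14 T0.l14)) (xb T0.l14 T0.l14))
theorem qc0_3_0_lllr : chkTr (tg true true false RT.r2) b0_3 t0 rc0_3_0_lllr
  (upd hi Co.b (upd lo Co.a (upd lo Co.b (upd lo Co.a (rc sI cl4 cl4 cl4 b0_3 (I.pos (nat_lit 0) (nat_lit 0))))))) = true := by decide +kernel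
theorem qc0_3_0_lll : chkTr (tg true true false RT.r2) b0_3 t0 (Tr.N Co.b (Tr.N Co.a (Tr.N Co.b (Tr.N Co.a (Tr.N Co.b rc0_3_0_llllllll rc0_3_0_lllllllr) rc0_3_0_llllllr) rc0_3_0_lllllr) rc0_3_0_llllr) rc0_3_0_lllr)
  (upd lo Co.a (upd lo Co.b (upd lo Co.a (rc sI cl4 cl4 cl4 b0_3 (I.pos (nat_lit 0) (nat_lit 0)))))) = true := tr_split qc0_3_0_llll qc0_3_0_lllr
def rc0_3_0_llr : Tr := (xb (xa (xb (xa T0.l14 T0.l14) (xa T0.l14 T0.l14)) (xb (xa T0.l14 T0.l14) (xa T0.l14 T0.l14))) (xa (xb (xa T0.l14 T0.l14) (xa T0.l14 T0.l14)) (xb (xa T0.l14 T0.l14) (xa T0.l14 T0.l14))))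
theorem qc0_3_0_llr : chkTr (tg true true false RT.r2) b0_3 t0 rc0_3_0_llr
  (upd hi Co.a (upd lo Co.b (upd lo Co.a (rc sI cl4 cl4 cl4 b0_3 (I.pos (nat_lit 0) (nat_lit 0)))))) = true := by decide +kernel
theorem qc0_3_0_ll : chkTr (tg true true false RT.r2) b0_3 t0 (Tr.N Co.a (Tr.N Co.b (Tr.N Co.a (Tr.N Co.b (Tr.N Co.a (Tr.N Co.b rc0_3_0_llllllll rc0_3_0_lllllllr) rc0_3_0_llllllr) rc0_3_0_lllllr) rc0_3_0_llllr) rc0_3_0_lllr) rc0_3_0_llr)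
  (upd lo Co.b (upd lo Co.a (rc sI cl4 cl4 cl4 b0_3 (I.pos (nat_lit 0) (nat_lit 0))))) = true := tr_split qc0_3_0_lll qc0_3_0_llr
def rc0_3_0_lr : Tr := (xa (xb (xb (xa (xa (xb T0.l14 T0.l14) T0.l14) (xa T0.l14 T0.l14)) (xa (xa (xb T0.l14 T0.l14) (xb T0.l14 T0.l14)) (xa T0.l14 T0.l14))) (xa (xb (xb (xa T0.l14 T0.l14) (xa T0.l14 T0.l14)) (xb (xa T0.l14 T0.l14) (xa (xc T0.l14 T0.l14) T0.l14))) (xb (xa (xb T0.l14 T0.l14) T0.l14) (xa (xb T0.l14 T0.l14) (xb T0.l14 T0.l14))))) (xb (xa (xb (xa T0.l14 T0.l14) (xa T0.l14 T0.l14)) (xb (xa T0.l14 T0.l14) (xa T0.l14 T0.l14))) (xa (xb (xa T0.l14 T0.l14) (xa T0.l14 T0.l14)) (xb (xa T0.l14 T0.l14) (xa T0.l14 (xb T0.l14 T0.l14))))))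
theorem qc0_3_0_lr : chkTr (tg true true false RT.r2) b0_3 t0 rc0_3_0_lr
  (upd hi Co.b (upd lo Co.a (rc sI cl4 cl4 cl4 b0_3 (I.pos (nat_lit 0) (nat_lit 0))))) = true := by decide +kernel
theorem qc0_3_0_l : chkTr (tg true true false RT.r2) b0_3 t0 (Tr.N Co.b (Tr.N Co.a (Tr.N Co.b (Tr.N Co.a (Tr.N Co.b (Tr.N Co.a (Tr.N Co.b rc0_3_0_llllllll rc0_3_0_lllllllr) rc0_3_0_llllllr) rc0_3_0_lllllr) rc0_3_0_llllr) rc0_3_0_lllr) rc0_3_0_llr) rc0_3_0_lr)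
  (upd lo Co.a (rc sI cl4 cl4 cl4 b0_3 (I.pos (nat_lit 0) (nat_lit 0)))) = true := tr_split qc0_3_0_ll qc0_3_0_lr
def rc0_3_0_r : Tr := (xb (xa (xb (xa (xb (xb (xb T0.l14 T0.l14) (xb T0.l14 T0.l14)) (xa T0.l14 T0.l14)) (xb (xb (xb (xa T0.l14 T0.l14) (xa T0.l14 T0.l14)) (xb T0.l14 T0.l14)) (xb (xb T0.l14 T0.l14) (xb T0.l14 T0.l14)))) (xa (xb (xa T0.l14 T0.l14) (xa T0.l14 T0.l14)) (xb (xb (xb T0.l14 T0.l14) T0.l14) (xb T0.l14 T0.l14)))) (xb (xa (xb (xb (xb (xa T0.l14 T0.l14) (xa T0.l14 T0.l14)) (xb (xa T0.l14 T0.l14) (xa T0.l14 T0.l14))) (xb (xb (xa T0.l14 T0.l14) (xa T0.l14 T0.l14)) (xb (xa T0.l14 T0.l14) (xa T0.l14 T0.l14)))) (xb (xb (xb (xa T0.l14 (xb T0.l14 T0.l14)) (xa T0.l14 T0.l14)) (xb (xa T0.l14 T0.l14) (xa T0.l14 T0.l14))) (xb (xb (xa T0.l14 T0.l14) (xa T0.l14 T0.l14)) (xb (xa T0.l14 T0.l14)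 (xa T0.l14 T0.l14))))) (xa (xb (xb (xb T0.l14 T0.l14) (xb T0.l14 T0.l14)) (xb T0.l0 T0.l0)) (xb (xb (xb (xa T0.l14 T0.l14) (xa T0.l14 T0.l14)) (xb T0.l0 T0.l0)) T0.l0)))) (xa (xb (xa (xb (xa T0.l14 T0.l14) (xa T0.l14 T0.l14)) (xb (xa T0.l14 T0.l0) (xa T0.l14 T0.l0))) (xa (xb (xa T0.l14 T0.l14) (xa (xb T0.l14 T0.l14) (xb T0.l14 T0.l14))) (xb (xa T0.l0 T0.l0) (xa T0.l0 T0.l0)))) (xb (xa (xb T0.l0 T0.l0) (xb T0.l0 T0.l0)) (xa (xb T0.l0 T0.l0) (xb T0.l0 T0.l0)))))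
theorem qc0_3_0_r : chkTr (tg true true false RT.r2) b0_3 t0 rc0_3_0_r
  (upd hi Co.a (rc sI cl4 cl4 cl4 b0_3 (I.pos (nat_lit 0) (nat_lit 0)))) = true := by decide +kernel
theorem qc0_3_0_ : chkTr (tg true true false RT.r2) b0_3 t0 (Tr.N Co.a (Tr.N Co.b (Tr.N Co.a (Tr.N Co.b (Tr.N Co.a (Tr.N Co.b (Tr.N Co.a (Tr.N Co.b rc0_3_0_llllllll rc0_3_0_lllllllr) rc0_3_0_llllllr) rc0_3_0_lllllr) rc0_3_0_llllr) rc0_3_0_lllr) rc0_3_0_llr) rc0_3_0_lr) rc0_3_0_r)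
  (rc sI cl4 cl4 cl4 b0_3 (I.pos (nat_lit 0) (nat_lit 0))) = true := tr_split qc0_3_0_l qc0_3_0_r
theorem c0_3_0 : chkTag sI cl4 cl4 cl4 t0 b0_3 (tg true true false RT.r2) (I.pos (nat_lit 0) (nat_lit 0))
  (Tr.N Co.a (Tr.N Co.b (Tr.N Co.a (Tr.N Co.b (Tr.N Co.a (Tr.N Co.b (Tr.N Co.a (Tr.N Co.b rc0_3_0_llllllll rc0_3_0_lllllllr) rc0_3_0_llllllr) rc0_3_0_lllllr) rc0_3_0_llllr) rc0_3_0_lllr) rc0_3_0_llr) rc0_3_0_lr) rc0_3_0_r) = true := tag_mk (by decide +kernel) qc0_3_0_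
theorem c0_3_1 : chkTag sI cl4 cl4 cl4 t0 b0_3 (tg true false false RT.r3) (I.pos (nat_lit 0) (nat_lit 0))
  (xa (xb (xa (xb (xc T0.l15 T0.l15) (xc (xa T0.l15 T0.l15) (xa T0.l15 T0.l15))) (xb (xc T0.l15 T0.l15) (xc (xa T0.l15 T0.l15) T0.l15))) (xb (xa (xc (xb T0.l15 T0.l15) (xa T0.l15 T0.l15)) (xc (xa T0.l15 T0.l15) (xa T0.l15 T0.l15))) (xa (xc (xb (xa T0.l15 T0.l15) (xa T0.l15 T0.l15)) (xb (xa T0.l15 T0.l15) (xa T0.l15 T0.l15))) (xc (xa (xb T0.l15 T0.l15) T0.l15) (xa (xb T0.l15 T0.l15) (xb T0.l15 T0.l15)))))) (xb (xa (xb (xc T0.l15 T0.l15) (xc T0.l15 T0.l15)) (xb (xc T0.l15 (xa T0.l15 T0.l15)) (xc T0.l15 T0.l15))) (xa (xb (xc (xa T0.l15 T0.l15) T0.l15) (xc (xa (xb T0.l15 T0.l15) (xb T0.l15 T0.l15)) (xa (xb T0.l15 T0.l15) (xb T0.l15 T0.l15)))) (xb (xc (xa T0.l15 T0.l15) T0.l15) (xc (xa (xb T0.l15 T0.l1)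 (xb T0.l15 T0.l1)) (xa (xb T0.l15 T0.l15) (xb T0.l15 T0.l15))))))) = true := by decide +kernel
theorem c0_3_2 : chkTag sI cl4 cl4 cl4 t0 b0_3 (tg true true true RT.r4) (I.pos (nat_lit 0) (nat_lit 0))
  (xa (xb (xc (xa T0.l16 T0.l16) (xa T0.l16 T0.l16)) (xc (xa (xb T0.l16 T0.l16) T0.l2) (xa (xb T0.l16 T0.l16) (xb T0.l16 T0.l2)))) (xb (xc (xa T0.l2 T0.l2) (xa T0.l2 T0.l2)) T0.l2)) = true := by decide +kernel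
theorem c0_3_3 : chkTag sI cl4 cl4 cl4 t0 b0_3 (tg false false false RT.r3) (I.pos (nat_lit 0) (nat_lit 0))
  (xa (xb (xa (xb T0.l17 T0.l17) (xb (xc T0.l17 T0.l17) (xc T0.l17 T0.l17))) (xa (xb T0.l3 (xc (xb T0.l17 (xa T0.l17 T0.l17)) (xb T0.l3 (xa T0.l17 T0.l3)))) (xb T0.l3 T0.l3))) (xb (xa (xb (xc (xa T0.l17 T0.l17) (xa T0.l17 (xb T0.l17 T0.l17))) (xc (xa T0.l17 T0.l17) (xa T0.l17 T0.l3))) (xb (xc (xa (xb T0.l17 T0.l17) (xb (xc T0.l17 T0.l17) (xc T0.l17 T0.l17))) (xa (xb (xc T0.l17 T0.l17) T0.l17) (xb (xc T0.l17 T0.l17) (xc T0.l17 T0.l17)))) (xc (xa T0.l3 T0.l3) (xa T0.l3 T0.l3)))) (xa (xb T0.l3 T0.l3) (xb (xc T0.l3 T0.l3) T0.l3)))) = true := by decide +kernel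
theorem c0_3_4 : chkTag sI cl4 cl4 cl4 t0 b0_3 (tg false true false RT.r4) (I.pos (nat_lit 0) (nat_lit 0))
  (xa (xb (xc (xa T0.l18 T0.l18) (xa T0.l18 T0.l18)) (xc (xa (xb T0.l18 T0.l18) T0.l4) (xa (xb T0.l18 T0.l18) (xb T0.l18 T0.l4)))) (xb (xc (xa T0.l4 T0.l4) (xa T0.l4 T0.l4)) T0.l4)) = true := by decide +kernel
theorem c0_3_5 : chkTag sI cl4 cl4 cl4 t0 b0_3 (tg false false true RT.r5) (I.pos (nat_lit 0) (nat_lit 0))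
  (xa (xb (xa (xb (xc T0.l19 T0.l19) (xc (xa T0.l19 T0.l19) (xa T0.l19 T0.l19))) (xb (xc T0.l19 T0.l19) (xc (xa T0.l19 T0.l19) T0.l19))) (xb (xa (xc (xb T0.l19 T0.l19) (xa T0.l19 T0.l19)) (xc (xa T0.l19 T0.l19) (xa T0.l19 T0.l19))) (xa (xc (xb (xa T0.l19 T0.l19) (xa T0.l19 T0.l19)) (xb (xa T0.l19 T0.l19) (xa T0.l19 T0.l19))) (xc (xa (xb T0.l19 T0.l19) T0.l19) (xa (xb T0.l19 T0.l19) (xb T0.l19 T0.l19)))))) (xb (xa (xb (xc T0.l19 T0.l19) (xc T0.l19 T0.l19)) (xb (xc T0.l19 (xa T0.l19 T0.l19)) (xc T0.l19 T0.l19))) (xa (xb (xc (xa T0.l19 T0.l19) T0.l19) (xc (xa (xb T0.l19 T0.l19) (xb T0.l19 T0.l19)) (xa (xb T0.l19 T0.l19) (xb T0.l19 T0.l19)))) (xb (xc (xa T0.l19 T0.l19) T0.l19) (xc (xa (xb T0.l19 T0.l5) (xb T0.l19 T0.l5)) (xa (xb T0.l19 T0.l19) (xb T0.l19 T0.l19))))))) = true := by decide +kernel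
theorem bx0_3 : BoxOK sI cl4 cl4 cl4 t0 t0 b0_3 :=
  box_mk' [(tg true true false RT.r2), (tg true false false RT.r3), (tg true true true RT.r4), (tg false false false RT.r3), (tg false true false RT.r4), (tg false false true RT.r5)] rfl (allL_c (ex_mk c0_3_0) (allL_c (ex_mk c0_3_1) (allL_c (ex_mk c0_3_2) (allL_c (ex_mk c0_3_3) (allL_c (ex_mk c0_3_4) (allL_c (ex_mk c0_3_5) allL_n))))))
theorem c0_4_0 : chkTag sI cl4 cl4 cl4 t0 b0_4 (tg true true false RT.r2) (I.pos (nat_lit 0) (nat_lit 0))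
  (xb (xa (xb (xa (xb (xa (xb T0.l20 T0.l20) (xb T0.l20 T0.l20)) (xa (xb T0.l20 T0.l20) (xb T0.l20 T0.l20))) (xb (xa T0.l20 T0.l20) (xa T0.l20 T0.l20))) (xa (xb (xa (xb T0.l20 T0.l20) T0.l20) (xa (xb T0.l20 T0.l20) T0.l20)) (xb (xa T0.l20 T0.l20) (xa T0.l20 T0.l20)))) (xb (xa (xb T0.l6 T0.l20) (xb (xa T0.l6 T0.l6) (xa T0.l20 T0.l20))) (xa (xb T0.l20 T0.l20) T0.l20))) (xa (xb (xa (xb (xa (xb T0.l20 T0.l20) T0.l20) (xa (xb T0.l20 T0.l20) T0.l20)) (xb (xa T0.l20 T0.l20) (xa T0.l20 T0.l20))) (xa (xb (xa (xb T0.l20 T0.l20) (xb T0.l20 T0.l20)) (xa (xb T0.l20 T0.l20) (xb T0.l20 T0.l20))) (xb (xa T0.l20 T0.l20) (xa (xb T0.l20 T0.l20) T0.l20)))) (xb (xa (xb T0.l20 T0.l20) (xb T0.l20 T0.l20)) (xa (xb (xa T0.l20 T0.l20) (xa T0.l20 T0.l20)) (xb (xa T0.l20 T0.l20) (xa T0.l20 T0.l20)))))) = true := by decide +kernel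
theorem c0_4_1 : chkTag sI cl4 cl4 cl4 t0 b0_4 (tg true false false RT.r3) (I.pos (nat_lit 0) (nat_lit 0))
  (xb (xa (xb (xa T0.l34 T0.l34) (xa T0.l34 T0.l34)) (xb (xa T0.l34 T0.l34) T0.l34)) (xa (xb (xa T0.l34 T0.l34) (xa T0.l34 T0.l34)) (xb T0.l34 (xa T0.l34 T0.l34)))) = true := by decide +kernel
theorem c0_4_2 : chkTag sI cl4 cl4 cl4 t0 b0_4 (tg true true true RT.r4) (I.pos (nat_lit 0) (nat_lit 0))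
  (xb (xa (xb T0.l35 T0.l35) (xb T0.l35 T0.l35)) (xa (xb T0.l35 T0.l13) (xb T0.l35 T0.l35))) = true := by decide +kernel
theorem c0_4_3 : chkTag sI cl4 cl4 cl4 t0 b0_4 (tg false false false RT.r3) (I.pos (nat_lit 0) (nat_lit 0))
  (xb (xa (xb (xa (xb T0.l21 T0.l21) T0.l21) (xa T0.l21 T0.l21)) (xb (xa (xb T0.l21 T0.l21) (xb T0.l21 T0.l21)) (xa T0.l21 (xb T0.l21 T0.l21)))) (xa (xb (xa T0.l21 T0.l21) (xa T0.l21 T0.l21)) (xb (xa T0.l21 T0.l21) (xa T0.l21 T0.l21)))) = true := by decide +kernel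
theorem c0_4_4 : chkTag sI cl4 cl4 cl4 t0 b0_4 (tg false true false RT.r4) (I.pos (nat_lit 0) (nat_lit 0))
  (xb (xa (xb T0.l22 T0.l22) (xb T0.l22 T0.l22)) (xa (xb T0.l22 T0.l22) (xb T0.l22 T0.l22))) = true := by decide +kernel
theorem c0_4_5 : chkTag sI cl4 cl4 cl4 t0 b0_4 (tg false false true RT.r5) (I.pos (nat_lit 0) (nat_lit 0))
  (xb (xa (xb (xa T0.l23 T0.l23) (xa T0.l23 T0.l23)) (xb (xa T0.l23 T0.l23) T0.l23)) (xa (xb (xa T0.l23 T0.l23) (xa T0.l23 T0.l23)) (xb T0.l23 (xa T0.l23 T0.l23)))) = true := by decide +kernel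
theorem bx0_4 : BoxOK sI cl4 cl4 cl4 t0 t0 b0_4 :=
  box_mk' [(tg true true false RT.r2), (tg true false false RT.r3), (tg true true true RT.r4), (tg false false false RT.r3), (tg false true false RT.r4), (tg false false true RT.r5)] rfl (allL_c (ex_mk c0_4_0) (allL_c (ex_mk c0_4_1) (allL_c (ex_mk c0_4_2) (allL_c (ex_mk c0_4_3) (allL_c (ex_mk c0_4_4) (allL_c (ex_mk c0_4_5) allL_n))))))
theorem bx0_5 : BoxOK sI cl4 cl4 cl4 t0 t0 b0_5 :=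
  box_mk (TrL.c (I.pos (nat_lit 0) (nat_lit 0)) (xb (xa (xb (xa T0.l24 T0.l7) (xa T0.l24 T0.l24)) (xb (xa T0.l7 T0.l24) (xa T0.l24 T0.l24))) (xa (xb (xa T0.l7 T0.l7) (xa T0.l7 T0.l7)) (xb (xa T0.l7 T0.l7) (xa T0.l7 T0.l7))))
  (TrL.c (I.pos (nat_lit 0) (nat_lit 0)) (xb (xa (xb T0.l25 T0.l25) (xb T0.l8 T0.l8)) (xa (xb T0.l25 T0.l25) (xb T0.l8 T0.l8)))
  TrL.n)) (by decide +kernel)
theorem bx0_6 : BoxOK sI cl4 cl4 cl4 t0 t0 b0_6 :=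
  box_mk (TrL.c (I.pos (nat_lit 0) (nat_lit 0)) (xb (xa T0.l0 T0.l0) (xa T0.l0 T0.l0))
  (TrL.c (I.pos (nat_lit 0) (nat_lit 0)) (xb (xa (xb (xc (xa T0.l1 T0.l1) T0.l1) T0.l1) (xb T0.l1 T0.l1)) (xa T0.l1 T0.l1))
  (TrL.c (I.pos (nat_lit 0) (nat_lit 0)) T0.l2
  (TrL.c (I.pos (nat_lit 0) (nat_lit 0)) (xb (xa (xb (xc T0.l0 T0.l3) T0.l3) T0.l3) T0.l3)
  (TrL.c (I.pos (nat_lit 0) (nat_lit 0)) T0.l4
  (TrL.c (I.pos (nat_lit 0) (nat_lit 0)) (xb (xa (xb (xc (xa T0.l5 T0.l5) T0.l5) T0.l5) (xb T0.l5 T0.l5)) (xa T0.l5 T0.l5))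
  TrL.n)))))) (by decide +kernel)
theorem bx0_7 : BoxOK sI cl4 cl4 cl4 t0 t0 b0_7 :=
  box_mk (TrL.c (I.pos (nat_lit 0) (nat_lit 0)) (xb (xa T0.l6 T0.l6) (xa (xb T0.l6 (xa (xb T0.l6 T0.l6) T0.l6)) (xb T0.l6 (xa T0.l6 T0.l14))))
  (TrL.c (I.pos (nat_lit 0) (nat_lit 0)) (xb T0.l7 (xa (xb T0.l7 T0.l7) T0.l15))
  (TrL.c (I.pos (nat_lit 0) (nat_lit 0)) (xb T0.l8 (xa T0.l8 T0.l8))
  (TrL.c (I.pos (nat_lit 0) (nat_lit 0)) (xb T0.l9 (xa T0.l9 (xb T0.l9 T0.l17)))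
  (TrL.c (I.pos (nat_lit 0) (nat_lit 0)) (xb T0.l10 (xa T0.l10 T0.l10))
  (TrL.c (I.pos (nat_lit 0) (nat_lit 0)) (xb T0.l11 (xa (xb T0.l11 T0.l11) T0.l19))
  TrL.n)))))) (by decide +kernel)
theorem bx0_8 : BoxOK sI cl4 cl4 cl4 t0 t0 b0_8 :=
  box_mk (TrL.c (I.pos (nat_lit 0) (nat_lit 0)) (xb (xa T0.l12 T0.l12) T0.l12)
  (TrL.c (I.pos (nat_lit 0) (nat_lit 0)) (xb (xa T0.l13 T0.l22) T0.l13)
  TrL.n)) (by decide +kernel)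
theorem bx0_9 : BoxOK sI cl4 cl4 cl4 t0 t0 b0_9 :=
  box_mk (TrL.c (I.pos (nat_lit 0) (nat_lit 0)) (xb (xa (xb (xa (xb T0.l6 T0.l14) (xb T0.l14 T0.l14)) (xa T0.l14 T0.l14)) (xb (xa (xb T0.l14 T0.l14) (xb T0.l14 T0.l14)) (xa T0.l14 T0.l14))) (xa (xb T0.l14 T0.l14) (xb (xa T0.l14 T0.l14) T0.l14)))
  (TrL.c (I.pos (nat_lit 0) (nat_lit 0)) (xb (xa (xb T0.l15 T0.l15) (xb (xa T0.l15 T0.l15) T0.l15)) (xa T0.l15 T0.l15))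
  (TrL.c (I.pos (nat_lit 0) (nat_lit 0)) (xb (xa T0.l16 (xc T0.l16 T0.l16)) (xa T0.l16 T0.l16))
  (TrL.c (I.pos (nat_lit 0) (nat_lit 0)) (xb (xa (xb (xa T0.l17 T0.l17) T0.l17) (xb (xa (xc T0.l17 T0.l17) (xc T0.l17 T0.l17)) (xa T0.l17 T0.l0))) (xa T0.l17 (xb (xa T0.l17 T0.l17) T0.l17)))
  (TrL.c (I.pos (nat_lit 0) (nat_lit 0)) (xb (xa T0.l18 (xc T0.l18 T0.l18)) (xa T0.l18 T0.l18))
  (TrL.c (I.pos (nat_lit 0) (nat_lit 0)) (xb (xa (xb T0.l19 T0.l19) (xb (xa T0.l19 T0.l19) T0.l19)) (xa T0.l19 T0.l19))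
  TrL.n)))))) (by decide +kernel)
theorem bx0_10 : BoxOK sI cl4 cl4 cl4 t0 t0 b0_10 :=
  box_mk (TrL.c (I.pos (nat_lit 0) (nat_lit 0)) (xb (xa (xb T0.l20 T0.l20) T0.l20) (xa (xb T0.l20 T0.l20) (xb T0.l20 (xa T0.l20 (xb T0.l20 T0.l20)))))
  (TrL.c (I.pos (nat_lit 0) (nat_lit 0)) (xb T0.l34 (xa T0.l12 T0.l12))
  (TrL.c (I.pos (nat_lit 0) (nat_lit 0)) (xb T0.l35 (xb T0.l35 T0.l22))
  (TrL.c (I.pos (nat_lit 0) (nat_lit 0)) (xb T0.l21 (xa T0.l21 T0.l21))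
  (TrL.c (I.pos (nat_lit 0) (nat_lit 0)) (xb T0.l22 (xb T0.l22 T0.l22))
  (TrL.c (I.pos (nat_lit 0) (nat_lit 0)) (xb T0.l23 (xa T0.l23 T0.l23))
  TrL.n)))))) (by decide +kernel)
theorem bx0_11 : BoxOK sI cl4 cl4 cl4 t0 t0 b0_11 :=
  box_mk (TrL.c (I.pos (nat_lit 0) (nat_lit 0)) (xb (xa T0.l15 (xb T0.l24 T0.l24)) T0.l24)
  (TrL.c (I.pos (nat_lit 0) (nat_lit 0)) (xb (xa T0.l8 T0.l25) T0.l8)
  TrL.n)) (by decide +kernel)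
theorem bx0_12 : BoxOK sI cl4 cl4 cl4 t0 t0 b0_12 :=
  box_mk (TrL.c (I.pos (nat_lit 0) (nat_lit 0)) (xa (xb T0.l6 (xb (xa T0.l6 T0.l6) (xa T0.l6 (xb T0.l26 T0.l26)))) (xb (xa (xb T0.l6 T0.l6) (xb T0.l6 T0.l14)) T0.l14))
  (TrL.c (I.pos (nat_lit 0) (nat_lit 0)) (xa (xb T0.l7 T0.l15) T0.l15)
  (TrL.c (I.pos (nat_lit 0) (nat_lit 0)) (xb (xa T0.l8 T0.l16) (xa T0.l8 T0.l16))
  (TrL.c (I.pos (nat_lit 0) (nat_lit 0)) (xb (xa T0.l9 (xb (xa T0.l9 T0.l17) T0.l17)) (xa (xb T0.l29 T0.l17) T0.l17))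
  (TrL.c (I.pos (nat_lit 0) (nat_lit 0)) (xb (xa T0.l10 T0.l18) (xa T0.l10 T0.l18))
  (TrL.c (I.pos (nat_lit 0) (nat_lit 0)) (xa (xb T0.l11 T0.l19) T0.l19)
  TrL.n)))))) (by decide +kernel)
theorem bx0_13 : BoxOK sI cl4 cl4 cl4 t0 t0 b0_13 :=
  box_mk (TrL.c (I.pos (nat_lit 0) (nat_lit 0)) (xb (xa T0.l12 T0.l12) T0.l12)
  (TrL.c (I.pos (nat_lit 0) (nat_lit 0)) (xb T0.l22 T0.l35)
  TrL.n)) (by decide +kernel)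
theorem bx0_14 : BoxOK sI cl4 cl4 cl4 t0 t0 b0_14 :=
  box_mk (TrL.c (I.pos (nat_lit 0) (nat_lit 0)) (xb (xa (xb (xa (xb (xb (xa (xb T0.l0 T0.l0) T0.l0) T0.l0) T0.l0) (xb (xb T0.l0 T0.l0) T0.l0)) (xa (xb T0.l0 T0.l0) T0.l0)) (xb (xa (xb T0.l0 T0.l0) (xb T0.l0 T0.l0)) (xa T0.l0 T0.l0))) (xa (xb (xa (xb T0.l0 T0.l0) (xb T0.l0 T0.l0)) (xa (xb T0.l0 (xa T0.l0 T0.l0)) (xb T0.l0 T0.l0))) (xb (xa T0.l0 T0.l0) (xa (xb T0.l0 T0.l0) (xb T0.l0 T0.l0)))))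
  (TrL.c (I.pos (nat_lit 0) (nat_lit 0)) (xb (xa (xb T0.l1 T0.l1) (xb T0.l1 (xa T0.l1 T0.l1))) (xa (xb (xa T0.l1 T0.l1) (xa T0.l1 T0.l1)) (xb (xa T0.l1 T0.l1) (xa T0.l1 (xc T0.l1 T0.l1)))))
  (TrL.c (I.pos (nat_lit 0) (nat_lit 0)) (xb (xa T0.l2 (xc T0.l2 T0.l2)) (xa T0.l2 (xc T0.l2 T0.l2)))
  (TrL.c (I.pos (nat_lit 0) (nat_lit 0)) (xb (xa (xb (xa (xc T0.l3 T0.l3) (xc T0.l3 T0.l3)) (xa T0.l3 T0.l3)) (xb (xa (xc T0.l3 T0.l3) (xc T0.l3 T0.l3)) (xa T0.l3 T0.l3))) (xa (xb T0.l3 T0.l3) (xb T0.l3 (xa T0.l3 T0.l3))))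
  (TrL.c (I.pos (nat_lit 0) (nat_lit 0)) (xb (xa T0.l4 (xc T0.l4 T0.l4)) (xa T0.l4 (xc T0.l4 T0.l4)))
  (TrL.c (I.pos (nat_lit 0) (nat_lit 0)) (xb (xa (xb T0.l5 T0.l5) (xb T0.l5 (xa T0.l5 T0.l5))) (xa (xb (xa T0.l5 T0.l5) (xa T0.l5 T0.l5)) (xb (xa T0.l5 T0.l5) (xa T0.l5 (xc T0.l5 T0.l5)))))
  TrL.n)))))) (by decide +kernel)
theorem bx0_15 : BoxOK sI cl4 cl4 cl4 t0 t0 b0_15 :=
  box_mk (TrL.c (I.pos (nat_lit 0) (nat_lit 0)) (xb (xa (xb T0.l6 T0.l6) (xb (xa T0.l6 T0.l6) T0.l6)) (xa (xb T0.l6 (xa T0.l6 T0.l6)) (xb T0.l6 (xa T0.l6 T0.l6))))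
  (TrL.c (I.pos (nat_lit 0) (nat_lit 0)) (xb (xa T0.l7 T0.l7) (xa T0.l7 T0.l7))
  (TrL.c (I.pos (nat_lit 0) (nat_lit 0)) (xb T0.l25 T0.l8)
  (TrL.c (I.pos (nat_lit 0) (nat_lit 0)) (xb (xa T0.l9 (xb (xa T0.l9 T0.l9) T0.l9)) (xa T0.l9 (xb T0.l9 T0.l9)))
  (TrL.c (I.pos (nat_lit 0) (nat_lit 0)) (xb T0.l10 T0.l10)
  (TrL.c (I.pos (nat_lit 0) (nat_lit 0)) (xb (xa T0.l11 T0.l11) (xa T0.l11 T0.l11))
  TrL.n)))))) (by decide +kernel)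
theorem bx0_16 : BoxOK sI cl4 cl4 cl4 t0 t0 b0_16 :=
  box_mk (TrL.c (I.pos (nat_lit 0) (nat_lit 0)) T0.l12
  (TrL.c (I.pos (nat_lit 0) (nat_lit 0)) T0.l13
  TrL.n)) (by decide +kernel)
theorem bx0_17 : BoxOK sI cl4 cl4 cl4 t0 t0 b0_17 :=
  box_mk (TrL.c (I.pos (nat_lit 0) (nat_lit 0)) (xa (xb (xa (xb (xa T0.l14 T0.l14) T0.l14) (xb (xa T0.l14 T0.l14) T0.l14)) (xa (xb T0.l14 T0.l14) T0.l0)) (xb T0.l0 T0.l0))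
  (TrL.c (I.pos (nat_lit 0) (nat_lit 0)) (xa (xb T0.l15 T0.l15) (xb T0.l1 T0.l1))
  (TrL.c (I.pos (nat_lit 0) (nat_lit 0)) (xa T0.l16 T0.l16)
  (TrL.c (I.pos (nat_lit 0) (nat_lit 0)) (xa (xb T0.l17 T0.l17) (xb (xa T0.l17 T0.l17) T0.l17))
  (TrL.c (I.pos (nat_lit 0) (nat_lit 0)) (xa T0.l18 T0.l18)
  (TrL.c (I.pos (nat_lit 0) (nat_lit 0)) (xa (xb T0.l19 T0.l19) (xb T0.l5 T0.l5))
  TrL.n)))))) (by decide +kernel)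
theorem bx0_18 : BoxOK sI cl4 cl4 cl4 t0 t0 b0_18 :=
  box_mk (TrL.c (I.pos (nat_lit 0) (nat_lit 0)) (xb (xa (xb (xa (xb T0.l20 T0.l20) T0.l20) (xa T0.l20 T0.l20)) (xb T0.l20 T0.l20)) (xa (xb (xa T0.l20 T0.l20) (xa T0.l20 T0.l20)) (xb T0.l20 T0.l20)))
  (TrL.c (I.pos (nat_lit 0) (nat_lit 0)) T0.l12
  (TrL.c (I.pos (nat_lit 0) (nat_lit 0)) T0.l13
  (TrL.c (I.pos (nat_lit 0) (nat_lit 0)) T0.l21
  (TrL.c (I.pos (nat_lit 0) (nat_lit 0)) T0.l22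
  (TrL.c (I.pos (nat_lit 0) (nat_lit 0)) T0.l23
  TrL.n)))))) (by decide +kernel)
theorem bx0_19 : BoxOK sI cl4 cl4 cl4 t0 t0 b0_19 :=
  box_mk (TrL.c (I.pos (nat_lit 0) (nat_lit 0)) (xb (xa T0.l24 T0.l24) (xa T0.l7 T0.l24))
  (TrL.c (I.pos (nat_lit 0) (nat_lit 0)) (xb T0.l25 T0.l25)
  TrL.n)) (by decide +kernel)
theorem bx0_20 : BoxOK sI cl4 cl4 cl4 t0 t0 b0_20 :=
  box_mk (TrL.c (I.pos (nat_lit 0) (nat_lit 0)) (xa (xb T0.l0 T0.l0) (xb (xa T0.l3 T0.l3) (xa T0.l0 (xb T0.l3 T0.l3))))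
  (TrL.c (I.pos (nat_lit 0) (nat_lit 0)) (xa (xb (xa (xb (xc (xa T0.l1 T0.l1) T0.l1) T0.l1) (xb T0.l1 T0.l1)) T0.l1) (xb (xa (xb T0.l1 T0.l1) (xb (xc (xa T0.l1 T0.l1) (xa T0.l1 T0.l1)) (xc (xa T0.l1 T0.l1) T0.l1))) (xa T0.l1 (xb T0.l1 T0.l1))))
  (TrL.c (I.pos (nat_lit 0) (nat_lit 0)) (xa (xc T0.l2 T0.l2) T0.l5)
  (TrL.c (I.pos (nat_lit 0) (nat_lit 0)) (xa (xb (xa T0.l0 (xb T0.l0 T0.l3)) T0.l3) (xb (xa (xb (xc T0.l0 (xa T0.l3 T0.l3)) T0.l3) (xb (xc T0.l14 T0.l14) (xc T0.l3 T0.l3))) (xa T0.l3 (xb T0.l3 (xc (xa T0.l3 (xb T0.l3 T0.l3)) T0.l3)))))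
  (TrL.c (I.pos (nat_lit 0) (nat_lit 0)) (xa (xc T0.l4 T0.l4) T0.l1)
  (TrL.c (I.pos (nat_lit 0) (nat_lit 0)) (xa (xb (xa (xb (xc (xa T0.l5 T0.l5) T0.l5) T0.l5) (xb T0.l5 T0.l5)) T0.l5) (xb (xa (xb T0.l5 T0.l5) (xb (xc (xa T0.l5 T0.l5) (xa T0.l5 T0.l5)) (xc (xa T0.l5 T0.l5) T0.l5))) (xa T0.l5 (xb T0.l5 T0.l5))))
  TrL.n)))))) (by decide +kernel)
theorem bx0_21 : BoxOK sI cl4 cl4 cl4 t0 t0 b0_21 :=
  box_mk (TrL.c (I.pos (nat_lit 0) (nat_lit 0)) (xb (xa (xb (xa T0.l6 T0.l6) (xa T0.l6 T0.l14)) (xb (xa T0.l14 T0.l14) T0.l14)) (xa (xb (xa T0.l14 T0.l14) T0.l14) T0.l14))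
  (TrL.c (I.pos (nat_lit 0) (nat_lit 0)) (xb (xa (xb T0.l15 T0.l15) (xb T0.l15 T0.l15)) T0.l15)
  (TrL.c (I.pos (nat_lit 0) (nat_lit 0)) (xb (xa T0.l16 T0.l16) T0.l16)
  (TrL.c (I.pos (nat_lit 0) (nat_lit 0)) (xb (xa (xb T0.l9 T0.l17) T0.l17) T0.l17)
  (TrL.c (I.pos (nat_lit 0) (nat_lit 0)) (xb (xa T0.l18 T0.l18) T0.l18)
  (TrL.c (I.pos (nat_lit 0) (nat_lit 0)) (xb (xa (xb (xa T0.l19 T0.l19) T0.l19) (xb T0.l19 T0.l19)) T0.l19)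
  TrL.n)))))) (by decide +kernel)
theorem bx0_22 : BoxOK sI cl4 cl4 cl4 t0 t0 b0_22 :=
  box_mk (TrL.c (I.pos (nat_lit 0) (nat_lit 0)) (xa (xb T0.l20 (xa (xb T0.l20 (xa (xb T0.l20 T0.l20) T0.l20)) T0.l20)) (xb T0.l20 (xa T0.l20 (xb T0.l20 T0.l20))))
  (TrL.c (I.pos (nat_lit 0) (nat_lit 0)) (xa (xb T0.l34 T0.l34) T0.l12)
  (TrL.c (I.pos (nat_lit 0) (nat_lit 0)) (xb T0.l35 T0.l22)
  (TrL.c (I.pos (nat_lit 0) (nat_lit 0)) (xb (xa T0.l21 T0.l21) (xa T0.l12 T0.l21))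
  (TrL.c (I.pos (nat_lit 0) (nat_lit 0)) (xb T0.l22 (xa T0.l22 T0.l22))
  (TrL.c (I.pos (nat_lit 0) (nat_lit 0)) (xb T0.l23 (xa T0.l23 T0.l23))
  TrL.n)))))) (by decide +kernel)
theorem bx0_23 : BoxOK sI cl4 cl4 cl4 t0 t0 b0_23 :=
  box_mk (TrL.c (I.pos (nat_lit 0) (nat_lit 0)) (xa T0.l15 (xb T0.l15 T0.l24))
  (TrL.c (I.pos (nat_lit 0) (nat_lit 0)) (xa (xb T0.l16 T0.l16) (xb T0.l25 T0.l8))
  TrL.n)) (by decide +kernel)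
theorem bx0_24 : BoxOK sI cl4 cl4 cl4 t0 t0 b0_24 :=
  box_mk (TrL.c (I.pos (nat_lit 0) (nat_lit 0)) (xb (xa T0.l6 T0.l6) (xa (xb T0.l6 (xa (xb T0.l6 T0.l6) T0.l6)) (xb T0.l6 (xa T0.l6 T0.l14))))
  (TrL.c (I.pos (nat_lit 0) (nat_lit 0)) (xb T0.l7 (xa T0.l24 T0.l15))
  (TrL.c (I.pos (nat_lit 0) (nat_lit 0)) (xb T0.l8 (xa T0.l8 T0.l8))
  (TrL.c (I.pos (nat_lit 0) (nat_lit 0)) (xb T0.l9 (xa T0.l9 T0.l17))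
  (TrL.c (I.pos (nat_lit 0) (nat_lit 0)) (xb T0.l10 (xa T0.l10 T0.l10))
  (TrL.c (I.pos (nat_lit 0) (nat_lit 0)) (xb T0.l11 (xa (xb T0.l11 T0.l11) T0.l19))
  TrL.n)))))) (by decide +kernel)
theorem bx0_25 : BoxOK sI cl4 cl4 cl4 t0 t0 b0_25 :=
  box_mk (TrL.c (I.pos (nat_lit 0) (nat_lit 0)) T0.l12
  (TrL.c (I.pos (nat_lit 0) (nat_lit 0)) (xb T0.l13 T0.l13)
  TrL.n)) (by decide +kernel)
theorem bx0_26 : BoxOK sI cl4 cl4 cl4 t0 t0 b0_26 :=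
  box_mk (TrL.c (I.pos (nat_lit 0) (nat_lit 0)) T0.l0
  (TrL.c (I.pos (nat_lit 0) (nat_lit 0)) T0.l1
  (TrL.c (I.pos (nat_lit 0) (nat_lit 0)) T0.l2
  (TrL.c (I.pos (nat_lit 0) (nat_lit 0)) T0.l3
  (TrL.c (I.pos (nat_lit 0) (nat_lit 0)) T0.l4
  (TrL.c (I.pos (nat_lit 0) (nat_lit 0)) T0.l5
  TrL.n)))))) (by decide +kernel)
theorem bx0_27 : BoxOK sI cl4 cl4 cl4 t0 t0 b0_27 :=
  box_mk (TrL.c (I.pos (nat_lit 0) (nat_lit 0)) T0.l6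
  (TrL.c (I.pos (nat_lit 0) (nat_lit 0)) T0.l7
  (TrL.c (I.pos (nat_lit 0) (nat_lit 0)) T0.l8
  (TrL.c (I.pos (nat_lit 0) (nat_lit 0)) T0.l9
  (TrL.c (I.pos (nat_lit 0) (nat_lit 0)) T0.l10
  (TrL.c (I.pos (nat_lit 0) (nat_lit 0)) T0.l11
  TrL.n)))))) (by decide +kernel)
theorem bx0_28 : BoxOK sI cl4 cl4 cl4 t0 t0 b0_28 :=
  box_mk (TrL.c (I.pos (nat_lit 0) (nat_lit 0)) T0.l12
  (TrL.c (I.pos (nat_lit 0) (nat_lit 0)) T0.l13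
  TrL.n)) (by decide +kernel)
theorem bx0_29 : BoxOK sI cl4 cl4 cl4 t0 t0 b0_29 :=
  box_mk (TrL.c (I.pos (nat_lit 0) (nat_lit 0)) T0.l14
  (TrL.c (I.pos (nat_lit 0) (nat_lit 0)) T0.l15
  (TrL.c (I.pos (nat_lit 0) (nat_lit 0)) T0.l16
  (TrL.c (I.pos (nat_lit 0) (nat_lit 0)) T0.l17
  (TrL.c (I.pos (nat_lit 0) (nat_lit 0)) T0.l18
  (TrL.c (I.pos (nat_lit 0) (nat_lit 0)) T0.l19
  TrL.n)))))) (by decide +kernel)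
theorem bx0_30 : BoxOK sI cl4 cl4 cl4 t0 t0 b0_30 :=
  box_mk (TrL.c (I.pos (nat_lit 0) (nat_lit 0)) T0.l20
  (TrL.c (I.pos (nat_lit 0) (nat_lit 0)) T0.l34
  (TrL.c (I.pos (nat_lit 0) (nat_lit 0)) T0.l35
  (TrL.c (I.pos (nat_lit 0) (nat_lit 0)) T0.l21
  (TrL.c (I.pos (nat_lit 0) (nat_lit 0)) T0.l22
  (TrL.c (I.pos (nat_lit 0) (nat_lit 0)) T0.l23
  TrL.n)))))) (by decide +kernel)
theorem bx0_31 : BoxOK sI cl4 cl4 cl4 t0 t0 b0_31 :=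
  box_mk (TrL.c (I.pos (nat_lit 0) (nat_lit 0)) T0.l24
  (TrL.c (I.pos (nat_lit 0) (nat_lit 0)) T0.l25
  TrL.n)) (by decide +kernel)
theorem bx0_32 : BoxOK sI cl4 cl4 cl4 t0 t0 b0_32 :=
  box_mk (TrL.c (I.pos (nat_lit 0) (nat_lit 0)) T0.l6
  (TrL.c (I.pos (nat_lit 0) (nat_lit 0)) T0.l7
  (TrL.c (I.pos (nat_lit 0) (nat_lit 0)) T0.l28
  (TrL.c (I.pos (nat_lit 0) (nat_lit 0)) T0.l17
  (TrL.c (I.pos (nat_lit 0) (nat_lit 0)) T0.l30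
  (TrL.c (I.pos (nat_lit 0) (nat_lit 0)) T0.l11
  TrL.n)))))) (by decide +kernel)
theorem bx0_33 : BoxOK sI cl4 cl4 cl4 t0 t0 b0_33 :=
  box_mk (TrL.c (I.pos (nat_lit 0) (nat_lit 0)) T0.l12
  (TrL.c (I.pos (nat_lit 0) (nat_lit 0)) T0.l13
  TrL.n)) (by decide +kernel)
theorem bx0_34 : BoxOK sI cl4 cl4 cl4 t0 t0 b0_34 :=
  box_mk (TrL.c (I.pos (nat_lit 0) (nat_lit 0)) (xa (xb (xa T0.l6 T0.l6) (xa (xb T0.l6 T0.l6) (xb T0.l6 (xa T0.l14 T0.l14)))) (xb (xa (xb T0.l6 T0.l6) T0.l14) T0.l14))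
  (TrL.c (I.pos (nat_lit 0) (nat_lit 0)) (xa (xb T0.l7 T0.l15) T0.l15)
  (TrL.c (I.pos (nat_lit 0) (nat_lit 0)) (xa (xb T0.l8 T0.l8) T0.l16)
  (TrL.c (I.pos (nat_lit 0) (nat_lit 0)) (xa (xb T0.l9 (xa T0.l9 T0.l17)) T0.l17)
  (TrL.c (I.pos (nat_lit 0) (nat_lit 0)) (xa T0.l10 T0.l18)
  (TrL.c (I.pos (nat_lit 0) (nat_lit 0)) (xa (xb T0.l11 T0.l19) T0.l19)
  TrL.n)))))) (by decide +kernel)
theorem bx0_35 : BoxOK sI cl4 cl4 cl4 t0 t0 b0_35 :=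
  box_mk (TrL.c (I.pos (nat_lit 0) (nat_lit 0)) (xb (xa T0.l12 T0.l12) T0.l12)
  (TrL.c (I.pos (nat_lit 0) (nat_lit 0)) (xb T0.l22 T0.l35)
  TrL.n)) (by decide +kernel)
theorem sv0 : StarV sI cl4 cl4 cl4 t0 t0 t0 :=
  (bt_n (bt_n (bt_n (bt_n (bt_n (bt_b bx0_0) (bt_b bx0_1)) (bt_n (bt_b bx0_2) (bt_b bx0_3))) (bt_n (bt_n (bt_b bx0_4) (bt_b bx0_5)) (bt_n (bt_b bx0_6) (bt_n (bt_b bx0_7) (bt_b bx0_8))))) (bt_n (bt_n (bt_n (bt_b bx0_9) (bt_b bx0_10)) (bt_n (bt_b bx0_11) (bt_b bx0_12))) (bt_n (bt_n (bt_b bx0_13) (bt_b bx0_14)) (bt_n (bt_b bx0_15) (bt_n (bt_b bx0_16) (bt_b bx0_17)))))) (bt_n (bt_n (bt_n (bt_n (bt_b bx0_18) (bt_b bx0_19)) (bt_n (bt_b bx0_20) (bt_b bx0_21))) (bt_n (bt_n (bt_b bx0_22) (bt_b bx0_23)) (bt_n (bt_b bx0_24) (bt_n (bt_b bx0_25) (bt_b bx0_26))))) (bt_n (bt_n (bt_n (bt_b bx0_27) (bt_b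 bx0_28)) (bt_n (bt_b bx0_29) (bt_b bx0_30))) (bt_n (bt_n (bt_b bx0_31) (bt_b bx0_32)) (bt_n (bt_b bx0_33) (bt_n (bt_b bx0_34) (bt_b bx0_35)))))))
def S0 : StarD := StarD.mk cl4 cl4 cl4 0 0 t0
def G : List StarD := [S0]
theorem so0 : StarOK sI G S0 :=
  star_mk (by decide) (by decide) rfl rfl rfl rfl rfl rfl (rfl : _ = t0) (rfl : _ = t0)
  (st_mk (Pth.l (Pth.l (Pth.l (Pth.l (Pth.l Pth.z))))) (nat_lit 421474646) (nat_lit 421985302) (by decide +kernel))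
  (st_mk (Pth.l (Pth.l (Pth.l (Pth.l (Pth.l Pth.z))))) (nat_lit 470129992) (nat_lit 470837791) (by decide +kernel))
  (st_mk (Pth.l (Pth.l (Pth.l (Pth.l (Pth.l Pth.z))))) (nat_lit 529111491) (nat_lit 530037946) (by decide +kernel)) sv0
theorem ok : GroupOK (nat_lit 265027584) (nat_lit 268435456) G := grp_mk (allS_c so0 allS_n)
theorem cov : GCov G cl4 cl4 cl4 := cov_mk
  ⟨0, by decide, rfl, rfl, rfl⟩ ⟨0, by decide, rfl, rfl, rfl⟩ ⟨0, by decide, rfl, rfl, rfl⟩ ⟨0, by decide, rfl, rfl, rfl⟩ ⟨0, by decide, rfl, rfl, rfl⟩ ⟨0, by decide, rfl, rfl, rfl⟩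
end Q111_9


end Pool.Agent.Helper6.MONO
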